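import Pool.Statements.S00017
import Pool.Agent.H.MP_0c67ff_ag.D

set_option autoImplicit false
open Pool Pool.MP_0c67ff_ag

namespace Pool.Agent.S00017

/-- For every eventually constant g from ℕ to ℤ with g(t) ≥ 2 for t ≥ 1, there are a field k, a number n and a monomial ideal Q in k[x1..xn] such that the projective dimension of the module Q^t equals g(t) for every t ≥ 1. -/
theorem result :
    ∀ g : ℕ → ℤ, (∃ c : ℤ, ∃ N : ℕ, ∀ t ≥ N, g t = c) → (∀ t ≥ 1, 2 ≤ g t) →
      ∃ (k : Type) (_ : Field k) (n : ℕ) (s : Set (Fin n →₀ ℕ)),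
        ∀ t ≥ 1, ∀ m : ℕ,
          (CategoryTheory.HasProjectiveDimensionLE
            (ModuleCat.of (MvPolynomial (Fin n) k)
              ↥((Ideal.span ((fun e => MvPolynomial.monomial e (1 : k)) '' s)) ^ t)) m
            ↔ g t ≤ (m : ℤ)) := by
  rintro g ⟨c, N, hN⟩ h2
  obtain ⟨n, s, h⟩ := PdFun.main (fun t => (g t - 1).toNat) (N + 1) (by omega)
    (fun t ht => by have := h2 t ht; omega)
    (fun t ht => by rw [hN t (by omega), hN (N + 1) (by omega)])
  refine ⟨ℚ, inferInstance, n, s, fun t ht m => ?_⟩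
  obtain ⟨t, rfl⟩ : ∃ u, t = u + 1 := ⟨t - 1, by omega⟩
  have := h2 (t + 1) ht
  refine (h t m).trans ?_
  omega

end Pool.Agent.S00017
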