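import Pool.Statements.S00019
import Pool.Agent.H.MP_0d2d15_ag.D

set_option autoImplicit false
open Pool Pool.MP_0d2d15_ag

namespace Pool.Agent.S00019

/-- There is a homogeneous ideal Q in a polynomial ring over a field whose symbolic powers Q^(t) have depth of S/Q^(t) (w.r.t. the irrelevant ideal) not eventually periodic in t. -/
theorem result :
  ∃ (k : Type) (_ : Field k) (n : ℕ) (Q : Ideal (MvPolynomial (Fin n) k))
    (Qs : ℕ → Ideal (MvPolynomial (Fin n) k)),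
    (∀ p ∈ Q, ∀ d : ℕ, MvPolynomial.homogeneousComponent d p ∈ Q) ∧
    (∀ t : ℕ, ∀ f : MvPolynomial (Fin n) k,
      f ∈ Qs t ↔ ∃ s : MvPolynomial (Fin n) k,
        (∀ P ∈ Q.minimalPrimes, s ∉ P) ∧ s * f ∈ Q ^ t) ∧
    ¬ ∃ p : ℕ, 0 < p ∧ ∃ N : ℕ, ∀ t : ℕ, N ≤ t →
      sSup {m : ℕ | ∃ rs : List (MvPolynomial (Fin n) k), rs.length = m ∧
          (∀ r ∈ rs, MvPolynomial.constantCoeff r = 0) ∧
          RingTheory.Sequence.IsRegular (MvPolynomial (Fin n) k ⧸ Qs (t + p)) rs}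
      = sSup {m : ℕ | ∃ rs : List (MvPolynomial (Fin n) k), rs.length = m ∧
          (∀ r ∈ rs, MvPolynomial.constantCoeff r = 0) ∧
          RingTheory.Sequence.IsRegular (MvPolynomial (Fin n) k ⧸ Qs t) rs} := by
  let k := FractionRing (Polynomial (ZMod 2))
  have : CharP k 2 := charP_of_injective_algebraMap
    (IsFractionRing.injective (Polynomial (ZMod 2)) k) 2
  let φ := algebraMap (Polynomial (ZMod 2)) k
  have hφ : Function.Injective φ := IsFractionRing.injective _ _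
  let x : Polynomial (ZMod 2) := Polynomial.X
  have n0 : ∀ (u v : Polynomial (ZMod 2)) (c : ZMod 2), u.eval c ≠ v.eval c → φ u ≠ φ v :=
    fun u v c h e => h (by rw [hφ e])
  have hp : φ x ≠ 0 := by simpa using n0 x 0 1 (by simp [x])
  have hq : φ (x ^ 2) ≠ 0 := map_zero φ ▸ n0 (x ^ 2) 0 1 (by simp [x])
  have hr : φ (1 + x + x ^ 2) ≠ 0 := map_zero φ ▸ n0 (1 + x + x ^ 2) 0 0 (by simp [x])
  have hr1 : φ (1 + x + x ^ 2) ≠ 1 := by
    intro h
    have := congrArg (Polynomial.coeff · 1) (hφ (h.trans (map_one φ).symm))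
    simp [x, Polynomial.coeff_one, Polynomial.coeff_X_pow] at this
  set p := φ x
  set q := φ (x ^ 2)
  set r := φ (1 + x + x ^ 2)
  refine ⟨k, inferInstance, 4, Lech.Q p q r, fun t => Lech.sat (Lech.Q p q r ^ t), Lech.Q_hom,
    fun t f => by simp [Lech.minP, Lech.sat], ?_⟩
  rintro ⟨d, hd, N, hN⟩
  have hm : Nf.mm k 4 = RingHom.ker (MvPolynomial.constantCoeff : Lech.SS k →+* k) :=
    Nf.mm_max.eq_of_le (RingHom.ker_ne_top _) (Ideal.span_le.2 (by rintro _ ⟨i, rfl⟩; simp))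
  have hm' : ∀ u : Lech.SS k, MvPolynomial.constantCoeff u = 0 ↔ u ∈ Nf.mm k 4 := fun u => by
    rw [hm, RingHom.mem_ker]
  simp only [hm'] at hN
  have hle : ∀ s, Lech.sat (Lech.Q p q r ^ (s + 1)) ≤ Nf.mm k 4 := fun s f hf => by
    have h1 : Lech.π f = 0 := Lech.mem_W1.1 (by
      simpa using Lech.W_mul (Lech.D_W (Lech.upper _ hf)) (Lech.hm_C 1).mem (by omega))
    have h2 : (MvPolynomial.constantCoeff : Lech.SS k →+* k).comp (Lech.π (k := k)).toRingHom =
        MvPolynomial.constantCoeff := by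
      refine MvPolynomial.ringHom_ext (fun a => by simp [Lech.π]) fun i => ?_
      fin_cases i <;> simp [Lech.π]
    rw [← hm', ← h2, RingHom.comp_apply]
    simp [h1]
  let n := N + 2 * d
  have hn : n < 2 ^ n := Nat.lt_two_pow_self
  obtain ⟨s, hs⟩ : ∃ s, 2 ^ n = s + 1 := ⟨2 ^ n - 1, by omega⟩
  have fr : ∀ u : k, u ≠ 1 → u ^ (s + 1) ≠ 1 := fun u h e => h (by
    rw [← hs] at e
    have h1 := sub_pow_char_pow u 1 (p := 2) (n := n)
    rw [e, one_pow, sub_self] at h1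
    exact sub_eq_zero.1 (pow_eq_zero_iff (by omega) |>.1 h1))
  have fr2 : (1 + x + x ^ 2) ^ (s + 1) = 1 + x ^ (s + 1) + (x ^ 2) ^ (s + 1) := by
    rw [← hs, add_pow_char_pow, add_pow_char_pow, one_pow]
  obtain ⟨a1, -, a3⟩ := Lech.lower hp hq hr s
  obtain ⟨b1, b2, b3⟩ := Lech.lower hp hq hr (s + d)
  obtain ⟨c1, c2⟩ := Lech.special a1 a3 (Lech.upper _) (fun u f => Lech.sat_sat)
    (by
      simp only [p, q, r, ← map_pow, fr2]
      simp only [map_add, map_one]
      exact CharTwo.add_self_eq_zero _)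
    (fr _ (by simpa using n0 x 1 0 (by simp [x])))
    (fr _ (map_one φ ▸ n0 (x ^ 2) 1 0 (by simp [x]))) (fr _ hr1)
  have c3 := Lech.generic b1 b2 b3 (Lech.upper _) (fun u f => Lech.sat_sat) (by
    intro h
    have h1 : 1 + x ^ (s + d + 1) + (x ^ 2) ^ (s + d + 1) + (1 + x + x ^ 2) ^ (s + d + 1) = 0 :=
      hφ (by rwa [map_add, map_add, map_add, map_pow, map_pow, map_pow _ _ (s + d + 1), map_one,
        map_zero])
    have h2 : x ^ (s + 1) ∣ 1 + (1 + x + x ^ 2) ^ d := by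
      rw [show s + d + 1 = s + 1 + d by ring, pow_add (1 + x + x ^ 2), fr2] at h1
      exact ⟨-(x ^ d + x ^ (s + 1 + 2 * d) + (1 + x ^ (s + 1)) * (1 + x + x ^ 2) ^ d), by
        linear_combination h1⟩
    have h3 : (1 + x + x ^ 2).natDegree = 2 := by simp only [x]; compute_degree!
    have h4 : (1 + (1 + x + x ^ 2) ^ d).natDegree = d * 2 := by
      rw [Polynomial.natDegree_add_eq_right_of_natDegree_lt] <;>
        rw [Polynomial.natDegree_pow, h3]
      simp [hd]
    have h5 := Polynomial.natDegree_le_of_dvd h2 (fun e => by simp [e] at h4; omega)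
    rw [h4, Polynomial.natDegree_X_pow] at h5
    omega)
  have h := hN (s + 1) (by omega)
  rw [(Dep.isGreatest_of_dp (hle s) Dep.max_ne_top c1 c2).csSup_eq,
    show s + 1 + d = s + d + 1 by ring] at h
  obtain ⟨rs, r1, r2⟩ := (Nf.exists_reg (hle _) Dep.max_ne_top).1 c3
  by_cases hb : BddAbove {m : ℕ | ∃ rs : List (Lech.SS k), rs.length = m ∧
      (∀ r ∈ rs, r ∈ Nf.mm k 4) ∧ RingTheory.Sequence.IsRegular
        (Lech.SS k ⧸ Lech.sat (Lech.Q p q r ^ (s + d + 1))) rs}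
  · have := (r1.trans (le_csSup hb ⟨rs, rfl, r2⟩)).trans_eq h
    omega
  · rw [csSup_of_not_bddAbove hb] at h
    simp at h

end Pool.Agent.S00019
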