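import Pool.Statements.S00046
import Pool.Agent.H.MP_172a5c_ag.A

set_option autoImplicit false
open Pool Pool.MP_172a5c_ag

namespace Pool.Agent.S00046

theorem result :
    ¬ ((∀ (f g : MvPolynomial (Fin 2) ℝ) (S : Finset (Fin 2 → ℝ)),
      (∀ p ∈ S, MvPolynomial.eval p f = 0 ∧ MvPolynomial.eval p g = 0 ∧
        MvPolynomial.eval p (MvPolynomial.pderiv 0 f) * MvPolynomial.eval p (MvPolynomial.pderiv 1 g) -
          MvPolynomial.eval p (MvPolynomial.pderiv 1 f) * MvPolynomial.eval p (MvPolynomial.pderiv 0 g) ≠ 0) →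
      S.card ≤ (2 * f.support.card - 1) * (2 * g.support.card - 1)) ∧
    (∀ m₁ m₂ : ℕ, 1 ≤ m₁ → 1 ≤ m₂ →
      ∃ f g : MvPolynomial (Fin 2) ℝ, f.support.card = m₁ ∧ g.support.card = m₂ ∧
        ∃ S : Finset (Fin 2 → ℝ), S.card = (2 * m₁ - 1) * (2 * m₂ - 1) ∧
          ∀ p ∈ S, MvPolynomial.eval p f = 0 ∧ MvPolynomial.eval p g = 0 ∧
            MvPolynomial.eval p (MvPolynomial.pderiv 0 f) * MvPolynomial.eval p (MvPolynomial.pderiv 1 g) -
              MvPolynomial.eval p (MvPolynomial.pderiv 1 f) * MvPolynomial.eval p (MvPolynomial.pderiv 0 g) ≠ 0)) := by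
  rintro ⟨h, -⟩
  obtain ⟨S, hS, k⟩ := Pool.Agent.H.MP_172a5c_ag.many
  open Pool.Agent.H.MP_172a5c_ag in
  have := h (mon 16 0 1 + mon 0 16 1 + mon 0 0 (-1))
    (mon 129 1 1 + mon 1 129 1 + mon 3 3 (-5) + mon 5 5 6) S fun p hp => by
      obtain ⟨h1, h2, h3⟩ := k p hp
      simp only [mon_eq]
      refine ⟨?_, ?_, fun e => h3 ?_⟩
      · simp; linarith
      · simp; linarith
      · simp at e; linarith
  open Pool.Agent.H.MP_172a5c_ag in
  have a : (mon 16 0 1 + mon 0 16 1 + mon 0 0 (-1)).support.card ≤ 1 + 1 + 1 :=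
    (add_card _ _).trans (add_le_add ((add_card _ _).trans (add_le_add (mon_card ..) (mon_card ..)))
      (mon_card ..))
  open Pool.Agent.H.MP_172a5c_ag in
  have b : (mon 129 1 1 + mon 1 129 1 + mon 3 3 (-5) + mon 5 5 6).support.card ≤ 1 + 1 + 1 + 1 :=
    (add_card _ _).trans (add_le_add ((add_card _ _).trans (add_le_add ((add_card _ _).trans
      (add_le_add (mon_card ..) (mon_card ..))) (mon_card ..))) (mon_card ..))
  have := this.trans (Nat.mul_le_mul (show _ ≤ 5 by omega) (show _ ≤ 7 by omega))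
  omega

end Pool.Agent.S00046
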