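import Pool.Statements.S00086
import Pool.Agent.H.MP_26e61c_ag.A

set_option autoImplicit false
open Pool Pool.MP_26e61c_ag

namespace Pool.Agent.S00086

theorem result :
    ¬ (∀ (G : Type) [AddCommGroup G] [Fintype G] (n : ℕ), 4 ≤ n →
      ∀ f : MvPolynomial {g : Fin n → G // ∑ i, g i = 0} ℂ,
        f ∈ RingHom.ker (MvPolynomial.aeval (R := ℂ)
          (fun g : {g : Fin n → G // ∑ i, g i = 0} =>
            (∏ i, MvPolynomial.X (some i, g.1 i) :
              MvPolynomial (Option (Fin n) × G) ℂ))) →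
        ∃ k : ℕ, ∀ h ∈ (Ideal.span (Set.range
            (MvPolynomial.X : {g : Fin n → G // ∑ i, g i = 0} →
              MvPolynomial {g : Fin n → G // ∑ i, g i = 0} ℂ))) ^ k,
          h * f ∈ ⨆ A : {A : Finset (Fin n) // 2 ≤ A.card ∧ A.card + 2 ≤ n},
            RingHom.ker (MvPolynomial.aeval (R := ℂ)
              (fun g : {g : Fin n → G // ∑ i, g i = 0} =>
                (MvPolynomial.X (none, ∑ i ∈ A.1, g.1 i) *
                  ∏ i, MvPolynomial.X (some i, g.1 i) :
                  MvPolynomial (Option (Fin n) × G) ℂ)))) := by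
  open Pool.Agent.H.MP_26e61c_ag MvPolynomial in
  intro H
  obtain ⟨k, hk⟩ := H G 4 le_rfl
    (X ⟨![0, 0, 0, 0], by decide⟩ * X ⟨![2, 1, 7, 2], by decide⟩ * X ⟨![6, 4, 11, 3], by decide⟩ -
      X ⟨![0, 1, 11, 0], by decide⟩ * X ⟨![2, 0, 7, 3], by decide⟩ * X ⟨![6, 4, 0, 2], by decide⟩) (by
      simp [RingHom.mem_ker, Fin.prod_univ_four]
      ring)
  have := hk (X ⟨![0, 0, 0, 0], by decide⟩ ^ k) (Ideal.pow_mem_pow (Ideal.subset_span (Set.mem_range_self _)) k)
  replace := (iSup_le (a := RingHom.ker (aeval (R := ℂ)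
    fun g : {g : Fin 4 → G // ∑ i, g i = 0} => (p g.1 : ℂ))) fun A q hq => ?_) this
  · have e1 : p ![0, 0, 0, 0] = 2 := by decide
    have e2 : p ![2, 1, 7, 2] = 2 := by decide
    have e3 : p ![6, 4, 11, 3] = 2 := by decide
    have e4 : p ![0, 1, 11, 0] = 4 := by decide
    have e5 : p ![2, 0, 7, 3] = 2 := by decide
    have e6 : p ![6, 4, 0, 2] = 2 := by decide
    simp only [RingHom.mem_ker, map_mul, map_sub, map_pow, aeval_X, e1, e2, e3, e4, e5, e6] at this
    norm_num at this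
  · rw [RingHom.mem_ker] at hq ⊢
    have := congrArg (aeval fun v => (a A.1 v : ℂ)) hq
    rw [map_zero, ← AlgHom.comp_apply, comp_aeval] at this
    rw [← this]
    congr 2
    ext g
    simp [← key' A.1 (by have := A.2; omega) g.1 g.2]

end Pool.Agent.S00086
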