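import Pool.Statements.S00157
import Pool.Agent.H.MP_426531_ag.D

set_option autoImplicit false
open Pool Pool.MP_426531_ag

namespace Pool.Agent.S00157

theorem result :
    ∀ (n : ℕ), 2 ≤ n → ∀ ζ : ℂ, IsPrimitiveRoot ζ n →
      ∃ (L : Type) (_ : Field L) (_ : Algebra ℂ L)
        (f : L →ₐ[ℂ] RingQuot
          (fun a b : FreeAlgebra (FractionRing (MvPolynomial (Fin 2) ℂ)) (Fin 2) =>
            (a = FreeAlgebra.ι (FractionRing (MvPolynomial (Fin 2) ℂ)) (0 : Fin 2) ^ n ∧
              b = algebraMap (FractionRing (MvPolynomial (Fin 2) ℂ))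
                    (FreeAlgebra (FractionRing (MvPolynomial (Fin 2) ℂ)) (Fin 2))
                    (algebraMap (MvPolynomial (Fin 2) ℂ) (FractionRing (MvPolynomial (Fin 2) ℂ))
                      (MvPolynomial.X (0 : Fin 2)))) ∨
            (a = FreeAlgebra.ι (FractionRing (MvPolynomial (Fin 2) ℂ)) (1 : Fin 2) ^ n ∧
              b = algebraMap (FractionRing (MvPolynomial (Fin 2) ℂ))
                    (FreeAlgebra (FractionRing (MvPolynomial (Fin 2) ℂ)) (Fin 2))
                    (algebraMap (MvPolynomial (Fin 2) ℂ) (FractionRing (MvPolynomial (Fin 2) ℂ))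
                      (MvPolynomial.X (1 : Fin 2)))) ∨
            (a = FreeAlgebra.ι (FractionRing (MvPolynomial (Fin 2) ℂ)) (0 : Fin 2) *
                  FreeAlgebra.ι (FractionRing (MvPolynomial (Fin 2) ℂ)) (1 : Fin 2) ∧
              b = algebraMap ℂ (FreeAlgebra (FractionRing (MvPolynomial (Fin 2) ℂ)) (Fin 2)) ζ *
                  (FreeAlgebra.ι (FractionRing (MvPolynomial (Fin 2) ℂ)) (1 : Fin 2) *
                    FreeAlgebra.ι (FractionRing (MvPolynomial (Fin 2) ℂ)) (0 : Fin 2))))),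
        Function.Injective f ∧ Algebra.trdeg ℂ L = 1 ∧ IsEmpty (L ≃ₐ[ℂ] RatFunc ℂ) :=
  Pool.Agent.H.MP_426531_ag.main

end Pool.Agent.S00157
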