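import Pool.Statements.S00164
import Pool.Agent.H.MP_450528_ag.Basic

set_option autoImplicit false
open Pool Pool.MP_450528_ag

namespace Pool.Agent.S00164

theorem result :
    ¬ (∀ (d : ℕ) (m : Fin d → ℕ), 2 ≤ d → (∀ k, 2 ≤ m k) →
  ∀ (Crit : (((k : Fin d) → Fin (m k)) → ℂ) → Set (((k : Fin d) → Fin (m k)) → ℂ)),
  (∀ (T x : ((k : Fin d) → Fin (m k)) → ℂ), x ∈ Crit T ↔
     ((∑ I : ((k : Fin d) → Fin (m k)), x I) = 1 ∧ ∃ a : (k : Fin d) → Fin (m k) → ℂ,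
        (∀ I : ((k : Fin d) → Fin (m k)), x I = ∏ k : Fin d, a k (I k)) ∧
        ∀ b : (k : Fin d) → Fin (m k) → ℂ,
          (∑ I : ((k : Fin d) → Fin (m k)),
              (∑ k : Fin d, b k (I k) * ∏ j ∈ Finset.univ.erase k, a j (I j))) = 0 →
          (∑ I : ((k : Fin d) → Fin (m k)), (x I - T I) *
              (∑ k : Fin d, b k (I k) * ∏ j ∈ Finset.univ.erase k, a j (I j))) = 0)) →
  ∀ N : ℕ,
  (∃ P : MvPolynomial ((k : Fin d) → Fin (m k)) ℂ, P ≠ 0 ∧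
     ∀ T : ((k : Fin d) → Fin (m k)) → ℂ, MvPolynomial.eval T P ≠ 0 →
       (Crit T).Finite ∧ (Crit T).ncard = N) →
  ∀ T : ((k : Fin d) → Fin (m k)) → ℝ, (∀ I : ((k : Fin d) → Fin (m k)), 0 ≤ T I) →
    (∑ I : ((k : Fin d) → Fin (m k)), T I) = 1 →
    (Crit (fun I : ((k : Fin d) → Fin (m k)) => (T I : ℂ))).Finite →
    (Crit (fun I : ((k : Fin d) → Fin (m k)) => (T I : ℂ))).ncard = N →
    {x : ((k : Fin d) → Fin (m k)) → ℂ |
        x ∈ Crit (fun I : ((k : Fin d) → Fin (m k)) => (T I : ℂ)) ∧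
        ∀ I : ((k : Fin d) → Fin (m k)), (x I).im = 0}.ncard = 1) := by
  intro H
  open Pool.Agent.H.MP_450528_ag Polynomial in
  let m : Fin 2 → ℕ := ![2, 26]
  let e : ((k : Fin 2) → Fin (m k)) ≃ Fin 2 × Fin 26 := piFinTwoEquiv fun k => Fin (m k)
  have hn : ((26 : ℕ) : ℂ) ≠ 0 := by norm_num
  let Crit : (((k : Fin 2) → Fin (m k)) → ℂ) → Set (((k : Fin 2) → Fin (m k)) → ℂ) :=
    fun T => {x | Cr (T ∘ e.symm) (x ∘ e.symm)}
  have hC : ∀ T, Crit T = (fun y => y ∘ e) '' {y | Cr (T ∘ e.symm) y} := by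
    intro T
    ext x
    refine ⟨fun h => ⟨_, h, by ext; simp⟩, ?_⟩
    rintro ⟨y, hy, rfl⟩
    simpa [Crit, Function.comp_assoc] using hy
  have hi : Function.Injective fun y : Fin 2 × Fin 26 → ℂ => y ∘ e := e.surjective.injective_comp_right
  have hN : ∀ T, 4 * cA ((26 : ℕ) : ℂ)⁻¹ (T ∘ e.symm) ^ 2 + cB ((26 : ℕ) : ℂ)⁻¹ (T ∘ e.symm) ^ 2 ≠ 0 →
      (QQ (de (T ∘ e.symm)) (cA ((26 : ℕ) : ℂ)⁻¹ (T ∘ e.symm))
        (cB ((26 : ℕ) : ℂ)⁻¹ (T ∘ e.symm))).Separable → (Crit T).Finite ∧ (Crit T).ncard = 5 := by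
    intro T h1 h2
    rw [hC, Set.ncard_image_of_injective _ hi]
    exact ⟨(count hn _ h1 h2).1.image _, (count hn _ h1 h2).2⟩
  let Y : Fin 2 × Fin 26 → MvPolynomial ((k : Fin 2) → Fin (m k)) ℂ :=
    fun I => MvPolynomial.X (e.symm I)
  let c : MvPolynomial ((k : Fin 2) → Fin (m k)) ℂ := MvPolynomial.C ((26 : ℕ) : ℂ)⁻¹
  let P := resultant (QQ (de Y) (cA c Y) (cB c Y)) (derivative (QQ (de Y) (cA c Y) (cB c Y))) 5 4
    * (4 * cA c Y ^ 2 + cB c Y ^ 2)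
  have hP : ∀ T, MvPolynomial.eval T P ≠ 0 ↔
      (QQ (de (T ∘ e.symm)) (cA ((26 : ℕ) : ℂ)⁻¹ (T ∘ e.symm))
        (cB ((26 : ℕ) : ℂ)⁻¹ (T ∘ e.symm))).Separable ∧
      4 * cA ((26 : ℕ) : ℂ)⁻¹ (T ∘ e.symm) ^ 2 + cB ((26 : ℕ) : ℂ)⁻¹ (T ∘ e.symm) ^ 2 ≠ 0 := by
    intro T
    have e1 : MvPolynomial.eval T (de Y) = de (T ∘ e.symm) := by simp [de, Y]
    have e2 : MvPolynomial.eval T (cA c Y) = cA ((26 : ℕ) : ℂ)⁻¹ (T ∘ e.symm) := by
      simp [cA, ss, dd, e1, Y, c]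
    have e3 : MvPolynomial.eval T (cB c Y) = cB ((26 : ℕ) : ℂ)⁻¹ (T ∘ e.symm) := by
      simp [cB, ss, dd, e1, Y, c]
    have e4 : (QQ (de Y) (cA c Y) (cB c Y)).map (MvPolynomial.eval T) = QQ (de (T ∘ e.symm))
        (cA ((26 : ℕ) : ℂ)⁻¹ (T ∘ e.symm)) (cB ((26 : ℕ) : ℂ)⁻¹ (T ∘ e.symm)) := by
      simp [QQ, e1, e2, e3]
    rw [map_mul, ← resultant_map_map, ← derivative_map, e4, mul_ne_zero_iff, QQ_res]
    simp only [map_add, map_mul, map_pow, e2, e3, map_ofNat]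
  have hT : ((fun I => (T0 (e I) : ℂ)) ∘ e.symm) = fun I => (T0 I : ℂ) := by ext; simp
  obtain ⟨v1, v2, v3⟩ := T0_vals
  have hT1 : 4 * cA ((26 : ℕ) : ℂ)⁻¹ (fun I => (T0 I : ℂ)) ^ 2
      + cB ((26 : ℕ) : ℂ)⁻¹ (fun I => (T0 I : ℂ)) ^ 2 ≠ 0 := by rw [v2, v3]; norm_num
  have hT2 := hN (fun I => (T0 (e I) : ℂ)) (hT ▸ hT1) (by rw [hT, v1, v2, v3]; exact sep0)
  have hs : ∀ f : ((k : Fin 2) → Fin (m k)) → ℂ, ∑ I, f I = ∑ J, f (e.symm J) := fun f =>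
    (e.symm.sum_comp f).symm
  have h := H 2 m le_rfl (by intro k; fin_cases k <;> simp [m]) Crit ?_ 5
    ⟨P, fun h0 => (hP fun I => (T0 (e I) : ℂ)).mpr ⟨by rw [hT, v1, v2, v3]; exact sep0, hT ▸ hT1⟩
      (by rw [h0, map_zero]), fun T h => hN T ((hP T).mp h).2 ((hP T).mp h).1⟩
    (fun I => T0 (e I)) (fun I => by unfold T0; split_ifs <;> norm_num)
    (by rw [e.sum_comp T0]; simp [T0]) hT2.1 hT2.2
  · obtain ⟨z, hz⟩ := Set.ncard_eq_one.mp h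
    have hm : ∀ w : ℝ, (QQ (1 : ℂ) 25 0).eval (w : ℂ) = 0 →
        XX (fun I => (T0 I : ℂ)) w ∘ e = z := by
      intro w hw
      rw [← Set.mem_singleton_iff, ← hz]
      refine ⟨by rw [hC, hT]; exact ⟨_, (char hn _ hT1 _).mpr ⟨w, by rwa [v1, v2, v3], rfl⟩, rfl⟩,
        fun I => ?_⟩
      have : ∀ i : Fin 2, ![(1 + (w : ℂ)) / 2, (1 - w) / 2] i = (![(1 + w) / 2, (1 - w) / 2] i : ℝ) :=
        fun i => by fin_cases i <;> simp
      simp only [Function.comp, XX, ss, dd, de, this, ← Complex.ofReal_natCast]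
      norm_cast
    have := XX_inj hn _ (hi ((hm 1 (by simp [QQ])).trans (hm (-2) (by simp [QQ]; norm_num)).symm))
    norm_num at this
  · intro T x
    have e0 : (Finset.univ : Finset (Fin 2)).erase 0 = {1} := by decide
    have e1 : (Finset.univ : Finset (Fin 2)).erase 1 = {0} := by decide
    simp only [Crit, Set.mem_ofPred_eq, Cr, hs, Fin.sum_univ_two (M := ℂ), Fin.prod_univ_two, e0, e1,
      Finset.prod_singleton, Function.comp]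
    refine and_congr Iff.rfl ⟨?_, ?_⟩
    · rintro ⟨a, b, h1, h2⟩
      exact ⟨Fin.cons a (Fin.cons b finZeroElim), fun I => (congrArg x (e.symm_apply_apply I).symm).trans (h1 (e I)),
        fun b' => h2 (b' 0) (b' 1)⟩
    · rintro ⟨a, h1, h2⟩
      exact ⟨a 0, a 1, fun I => h1 (e.symm I),
        fun a' b' => h2 (Fin.cons a' (Fin.cons b' finZeroElim))⟩

end Pool.Agent.S00164
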