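import Pool.Statements.S00199
import Pool.Agent.H.MP_4fee6f_ag.E

set_option autoImplicit false
open Pool Pool.MP_5c1225_ag

namespace Pool.Agent.S00199

theorem result :
    ∀ (n : ℕ), 1 ≤ n →
    ∀ (Y : Finset (Fin (n + 1) → ℂ)), Y.Nonempty → (∀ p ∈ Y, p ≠ 0) →
    ∀ (m : ℕ), 1 ≤ m →
    ∀ f : MvPolynomial (Fin (n + 1)) ℂ,
      f ∈ (⨅ p ∈ Y,
        (RingHom.ker (MvPolynomial.eval₂Hom (Polynomial.C : ℂ →+* Polynomial ℂ)
          (fun i => Polynomial.C (p i) * Polynomial.X))) ^ m :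
          Ideal (MvPolynomial (Fin (n + 1)) ℂ)) →
      f ≠ 0 →
      ∃ g : MvPolynomial (Fin (n + 1)) ℂ,
        g ∈ (⨅ p ∈ Y,
          RingHom.ker (MvPolynomial.eval₂Hom (Polynomial.C : ℂ →+* Polynomial ℂ)
            (fun i => Polynomial.C (p i) * Polynomial.X)) :
            Ideal (MvPolynomial (Fin (n + 1)) ℂ)) ∧
        g ≠ 0 ∧
        m * (g.totalDegree + n - 1) ≤ n * f.totalDegree := by
  intro n hn Y hY hp m hm f hf h0
  have hf' : ∀ p ∈ Y, f ∈ RingHom.ker (Pool.Agent.H.MP_4fee6f_ag.ev p) ^ m := by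
    intro p hpY
    exact Ideal.mem_iInf.1 (Ideal.mem_iInf.1 hf p) hpY
  obtain ⟨p0, hp0⟩ := hY
  obtain ⟨e, G, hG0, hGh, hGV, hle⟩ := Pool.Agent.H.MP_4fee6f_ag.main_ker (ι := Y) n hn
    (fun i => i.1) (fun i => hp i.1 i.2) (fun _ => 1) ⟨⟨p0, hp0⟩, one_ne_zero⟩ 1 m f.totalDegree
    le_rfl hm (MvPolynomial.homogeneousComponent f.totalDegree f)
    (Pool.Agent.H.MP_4fee6f_ag.top_component_ne_zero h0)
    (MvPolynomial.homogeneousComponent_isHomogeneous _ _)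
    (fun i => by
      rw [mul_one]
      exact Pool.Agent.H.MP_4fee6f_ag.component_mem_ker_pow _ (hp i.1 i.2) (hf' i.1 i.2) _)
  refine ⟨G, ?_, hG0, ?_⟩
  · refine Ideal.mem_iInf.2 fun p => Ideal.mem_iInf.2 fun hpY => ?_
    have := hGV ⟨p, hpY⟩
    rw [mul_one, pow_one] at this
    exact this
  · rw [hGh.totalDegree hG0]
    have h1 : e + n - 1 = e + (n - 1) := by omega
    have h2 : 1 + (n - 1) = n := by omega
    rw [h2, mul_comm f.totalDegree] at hle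
    rw [h1]
    exact hle

end Pool.Agent.S00199
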