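import Pool.Statements.S00272
import Pool.Agent.H.MP_7f7c16_ag.F

set_option autoImplicit false
open Pool Pool.MP_7f7c16_ag

namespace Pool.Agent.S00272

theorem result :
    ¬ (∀ (k : Type) [Field k] [CharZero k] (d e : ℕ) (ℓ : Fin d → Fin 4 → k) (m : Fin e → Fin 4 → k),
      (∀ i, ℓ i ≠ 0) → (∀ i j, i ≠ j → LinearIndependent k ![ℓ i, ℓ j]) →
      (∀ i, m i ≠ 0) → (∀ i j, i ≠ j → LinearIndependent k ![m i, m j]) →
      Nonempty (↥{W : Set (Fin 4 → k) | ∃ S : Finset (Fin d),
                  W = {x : Fin 4 → k | ∀ i ∈ S, ∑ j : Fin 4, ℓ i j * x j = 0}} ≃o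
                ↥{W : Set (Fin 4 → k) | ∃ S : Finset (Fin e),
                  W = {x : Fin 4 → k | ∀ i ∈ S, ∑ j : Fin 4, m i j * x j = 0}}) →
      ((∀ (p : Ideal (MvPolynomial (Fin 4) k ⧸
              ((Ideal.span (Set.range fun i : Fin 4 =>
                  MvPolynomial.pderiv (R := k) i
                    (∏ a : Fin d, ∑ j : Fin 4,
                      (MvPolynomial.C (ℓ a j) * MvPolynomial.X j : MvPolynomial (Fin 4) k)))
                : Ideal (MvPolynomial (Fin 4) k)).radical : Ideal (MvPolynomial (Fin 4) k))))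
            [p.IsPrime],
          ∃ rs : List (Localization.AtPrime p),
            (∀ r ∈ rs, r ∈ IsLocalRing.maximalIdeal (Localization.AtPrime p)) ∧
            RingTheory.Sequence.IsRegular (Localization.AtPrime p) rs ∧
            (rs.length : WithBot ℕ∞) = ringKrullDim (Localization.AtPrime p)) ↔
       (∀ (p : Ideal (MvPolynomial (Fin 4) k ⧸
              ((Ideal.span (Set.range fun i : Fin 4 =>
                  MvPolynomial.pderiv (R := k) i
                    (∏ a : Fin e, ∑ j : Fin 4,
                      (MvPolynomial.C (m a j) * MvPolynomial.X j : MvPolynomial (Fin 4) k)))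
                : Ideal (MvPolynomial (Fin 4) k)).radical : Ideal (MvPolynomial (Fin 4) k))))
            [p.IsPrime],
          ∃ rs : List (Localization.AtPrime p),
            (∀ r ∈ rs, r ∈ IsLocalRing.maximalIdeal (Localization.AtPrime p)) ∧
            RingTheory.Sequence.IsRegular (Localization.AtPrime p) rs ∧
            (rs.length : WithBot ℕ∞) = ringKrullDim (Localization.AtPrime p)))) := by
  intro h
  open Pool.Agent.H.MP_7f7c16_ag in
  exact (main okB).2 nB ((h ℚ 21 21 (fun a => vec dA a) (fun a => vec dB a) (h0 okA) (h2 okA) (h0 okB) (h2 okB)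
    (lat _ _ same)).1 ((main okA).1 wA))

end Pool.Agent.S00272
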