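import Pool.Statements.S00302
import Pool.Agent.H.MP_8e46bf_ag.A

set_option autoImplicit false
open Pool Pool.MP_8e46bf_ag

namespace Pool.Agent.S00302

theorem result :
    ¬ (∀ n : ℕ, 2 ≤ n →
      ∃ (m : ℕ) (c : Fin m → ℝ) (E : Fin m → List (Fin n × Fin n)),
        (∀ k, 0 ≤ c k) ∧
        ∀ (z : Fin n → ℂ) (r : Fin (n - 1) → ℂ),
          Polynomial.derivative (∏ i : Fin n, (Polynomial.X - Polynomial.C (z i))) =
              Polynomial.C (n : ℂ) * ∏ j : Fin (n - 1), (Polynomial.X - Polynomial.C (r j)) →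
            (n : ℂ) ^ (2 * n - 4) * ∏ a : Fin (n - 1), ∏ b ∈ Finset.Ioi a, (r a - r b) ^ 2 =
              ∑ k : Fin m, ((c k : ℝ) : ℂ) * (((E k).map (fun p => z p.1 - z p.2)).prod) ^ 2) := by
  open Pool.Agent.H.MP_8e46bf_ag in
  intro H
  obtain ⟨m, c, E, hc, h⟩ := H 7 (by norm_num)
  refine real c E hc fun x t => ?_
  obtain ⟨a, b, d, e1, e2, e3⟩ := cubic ((5 * x + 5 + 6 * t) / 7) ((3 * x + 4 * t + 4 * x * t) / 7) (2 * x * t / 7)
  have := h (fun i => zr x t i) (![0, x, 1, a, b, d] : Fin 6 → ℂ) (Polynomial.funext fun y => by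
    simp [Fin.prod_univ_succ, zr]
    linear_combination 7 * y * (y - x) * (y - 1) * (y ^ 2 * e1 - y * e2 + e3))
  apply Complex.ofReal_injective
  have lp : ∀ l : List ℝ, ((l.prod : ℝ) : ℂ) = (l.map fun r : ℝ => (r : ℂ)).prod :=
    map_list_prod Complex.ofRealHom
  simp only [Complex.ofReal_sum, Complex.ofReal_mul, Complex.ofReal_pow, lp, List.map_map,
    Function.comp_def, Complex.ofReal_sub]
  rw [← this]
  have k0 : 7 * (a * b * d) = 2 * x * t := by linear_combination 7 * e3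
  have k1 : 7 * ((x - a) * (x - b) * (x - d)) = 2 * x * (x - 1) * (x - t) := by
    linear_combination 7 * (-x ^ 2 * e1 + x * e2 - e3)
  have k2 : 7 * ((1 - a) * (1 - b) * (1 - d)) = 2 * (1 - x) * (1 - t) := by
    linear_combination 7 * (-e1 + e2 - e3)
  have k3 : 7 ^ 4 * ((a - b) * (a - d) * (b - d)) ^ 2 =
      dd (5 * (x : ℂ) + 5 + 6 * t) (3 * x + 4 * t + 4 * x * t) (2 * x * t) := by
    rw [← k0, show 5 * (x : ℂ) + 5 + 6 * t = 7 * (a + b + d) by linear_combination -7 * e1,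
      show 3 * (x : ℂ) + 4 * t + 4 * x * t = 7 * (a * b + a * d + b * d) by linear_combination -7 * e2, dd]
    ring
  trans x ^ 2 * (x - 1) ^ 2 * (7 * (a * b * d)) ^ 2 * (7 * ((x - a) * (x - b) * (x - d))) ^ 2 *
    (7 * ((1 - a) * (1 - b) * (1 - d))) ^ 2 * (7 ^ 4 * ((a - b) * (a - d) * (b - d)) ^ 2)
  · rw [k0, k1, k2, k3, show ((D x t : ℝ) : ℂ) = D (x : ℂ) t by simp [D, dd], D]
    generalize dd (_ : ℂ) _ _ = y
    ring
  · simp [Fin.prod_univ_succ, Fin.prod_Ioi_succ]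
    generalize (x : ℂ) - 1 = y0, x - a = y1, x - b = y2, x - d = y3, 1 - a = y4, 1 - b = y5, 1 - d = y6,
      a - b = y7, a - d = y8, b - d = y9
    ring

end Pool.Agent.S00302
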