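import Pool.Statements.S00308
import Pool.Agent.H.MP_8fff0f_ag.A

set_option autoImplicit false
open Pool Pool.MP_8fff0f_ag

namespace Pool.Agent.S00308

theorem result :
    ¬ (∀ (G : Type) [AddCommGroup G] [Fintype G],
      ∃ S : Set (MvPolynomial {g : Fin 3 → G // ∑ i, g i = 0} ℂ),
        (∀ p ∈ S, p.totalDegree ≤ Fintype.card G) ∧
        Ideal.span S =
          RingHom.ker
            (MvPolynomial.aeval
              (fun g : {g : Fin 3 → G // ∑ i, g i = 0} =>
                ∏ i : Fin 3, (MvPolynomial.X (i, g.1 i) : MvPolynomial (Fin 3 × G) ℂ)))) := by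
  open Pool.Agent.H.MP_8fff0f_ag in
  intro H
  obtain ⟨S, h1, h2⟩ := H (G 11)
  simp only [Fin.prod_univ_three] at h2
  obtain ⟨f, f1, f2⟩ := bin (K := 11) (F := {g : Fin 3 → G 11 // ∑ i, g i = 0}) (fun g => g.1 0)
    (fun g => g.1 1) (fun g => g.1 2) (by norm_num)
    fun x y z h => ⟨⟨![x, y, z], by simpa [Fin.sum_univ_three] using h⟩, rfl, rfl, rfl⟩
  refine f2 ((Ideal.span_le (I := RingHom.ker _)).mpr (fun q hq => ?_) (h2.ge f1))
  refine vanish _ _ _ (fun g => by simpa [Fin.sum_univ_three] using g.2) q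
    (h2.le (Ideal.subset_span hq)) ((h1 q hq).trans_lt (by simp))

end Pool.Agent.S00308
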