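import Pool.Statements.S00315
import Pool.Agent.H.MP_959e05_ag.B

set_option autoImplicit false
open Pool Pool.MP_959e05_ag

namespace Pool.Agent.S00315

theorem result :
    ∀ n l r : ℕ, 1 ≤ n → l ≤ n → r ≤ n → n * l ≤ r * (2 * n - r) →
      ∀ P : MvPolynomial {p : Fin n × Fin n // ((p.2 - p.1 : Fin n) : ℕ) < l} ℂ,
        (∀ M : Matrix (Fin n) (Fin n) ℂ, M.rank ≤ r →
          MvPolynomial.eval (fun e => M e.1.1 e.1.2) P = 0) → P = 0 := by
  intro n l r hn hl hr h P hP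
  obtain ⟨m, rfl⟩ : ∃ m, n = m + 1 := ⟨n - 1, by omega⟩
  exact Pool.Agent.H.MP_959e05_ag.main m l r hl hr h P hP

end Pool.Agent.S00315
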