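import Pool.Statements.S00338
import Pool.Agent.H.MP_9e2f2c_ag.E

set_option autoImplicit false
open Pool Pool.MP_9e2f2c_ag

namespace Pool.Agent.S00338

theorem result :
    ¬ (∀ n r d : ℕ, 1 ≤ n → 1 ≤ d →
    (n, r) ≠ (3, 7) → (n, r) ≠ (3, 8) → (n, r) ≠ (4, 9) → (n, r) ≠ (5, 14) →
    r ≠ n + 2 → r ≠ n + 3 →
    ∀ c : ℕ → ℤ,
      (∀ m : ℕ, c m = ∑ i ∈ Finset.range (r + 1),
          (if d * i ≤ m then
            (-1 : ℤ) ^ i * (r.choose i : ℤ) * (((m - d * i + n - 1).choose (n - 1) : ℕ) : ℤ)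
          else 0)) →
    ∃ P : MvPolynomial (Fin r × Fin n) ℂ, P ≠ 0 ∧
      ∀ a : Fin r → Fin n → ℂ,
        MvPolynomial.eval (fun p : Fin r × Fin n => a p.1 p.2) P ≠ 0 →
        ∀ j : ℕ,
          ((Module.finrank ℂ (MvPolynomial.homogeneousSubmodule (Fin n) ℂ j) : ℕ) : ℤ) -
            ((Module.finrank ℂ
              ↥((Submodule.restrictScalars ℂ
                  (Ideal.span (Set.range (fun k : Fin r =>
                    (∑ i : Fin n, MvPolynomial.C (a k i) * MvPolynomial.X i) ^ d)))) ⊓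
                MvPolynomial.homogeneousSubmodule (Fin n) ℂ j) : ℕ) : ℤ)
          = (if (∀ m : ℕ, m ≤ j → 0 < c m) then c j else 0)) := by
  intro h
  obtain ⟨P, hP, k⟩ := h 5 9 17 (by norm_num) (by norm_num) (by decide) (by decide) (by decide)
    (by decide) (by decide) (by decide) _ fun _ => rfl
  obtain ⟨a, ha, e⟩ := Pool.Agent.H.MP_9e2f2c_ag.main P hP
  have k := k a ha 38
  rw [Pool.Agent.H.MP_9e2f2c_ag.finrank_H] at k
  have a1 : (38 + 4).choose 4 = 111930 := by decide +kernel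
  have a2 : ∑ i ∈ Finset.range (9 + 1), (if 17 * i ≤ 38 then
      (-1 : ℤ) ^ i * ((9 : ℕ).choose i : ℤ) * (((38 - 17 * i + 5 - 1).choose (5 - 1) : ℕ) : ℤ)
      else 0) = 600 := by decide +kernel
  rw [a1, a2] at k
  obtain ⟨N, hN⟩ : ∃ N, N = Module.finrank ℂ ↥((Submodule.restrictScalars ℂ (Ideal.span
    (Set.range fun k : Fin 9 => Pool.Agent.H.MP_9e2f2c_ag.lin (a k) ^ 17))) ⊓
      Pool.Agent.H.MP_9e2f2c_ag.H 38) := ⟨_, rfl⟩
  rw [← hN] at e
  change ((111930 : ℕ) : ℤ) - (Module.finrank ℂ ↥((Submodule.restrictScalars ℂ (Ideal.span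
    (Set.range fun k : Fin 9 => Pool.Agent.H.MP_9e2f2c_ag.lin (a k) ^ 17))) ⊓
      Pool.Agent.H.MP_9e2f2c_ag.H 38) : ℕ) = _ at k
  rw [← hN] at k
  split_ifs at k <;> omega

end Pool.Agent.S00338
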