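import Pool.Statements.S00356
import Pool.Agent.H.MP_a45f4e_ag.Main

set_option autoImplicit false
open Pool Pool.MP_a45f4e_ag Pool.Agent.H.MP_a45f4e_ag

namespace Pool.Agent.S00356

theorem result :
    ¬ (∀ (R : Type) [CommRing R] [IsLocalRing R] [IsNoetherianRing R] (p : ℕ) [ExpChar R p],
      p.Prime →
      ∀ (d : ℕ) (x : Fin d → R),
        ringKrullDim R = (d : WithBot ℕ∞) →
        (Ideal.span (Set.range x)).radical = IsLocalRing.maximalIdeal R →
        (∀ r : R, (∃ e : ℕ, r ^ (p ^ e) ∈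
            Ideal.map (iterateFrobenius R p e) (Ideal.span (Set.range x))) →
          r ∈ Ideal.span (Set.range x)) →
        ∀ e : ℕ, ∀ r : R,
          (∃ e' : ℕ, r ^ (p ^ e') ∈ Ideal.map (iterateFrobenius R p e')
              (Ideal.map (iterateFrobenius R p e) (Ideal.span (Set.range x)))) →
          r ∈ Ideal.map (iterateFrobenius R p e) (Ideal.span (Set.range x))) := by
  intro h
  obtain ⟨l1, l2, h1, h2, hs⟩ := exists_l
  have := noeth h1 h2
  obtain ⟨r, hr, hr'⟩ := not_closed h1 h2 hs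
  exact hr' (h (RR l1 l2) 2 Nat.prime_two 2 (sop h1 h2) (dim h1 h2 hs) (rad h1 h2 hs)
    (fun r ⟨e, he⟩ => closed h1 h2 hs r e he) 1 r ⟨1, hr⟩)

end Pool.Agent.S00356
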