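import Pool.Statements.S00360
import Pool.Agent.H.MP_b9e986_al.I

set_option autoImplicit false
open Pool Pool.MP_a907e8_ag

namespace Pool.Agent.S00360

/-- The negation of the preceding statement: For every Noetherian local ring A and nonzero finitely generated A-module M with a finite projective resolution, the maximal length of an A-regular sequence in ann M plus the Krull dimension of A/ann M equals the Krull dimension of A. -/
theorem result :
    ¬ (∀ (A : Type) [CommRing A] [IsLocalRing A] [IsNoetherianRing A]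
      (M : Type) [AddCommGroup M] [Module A M] [Module.Finite A M] [Nontrivial M],
      (∃ P : CategoryTheory.ProjectiveResolution (ModuleCat.of A M), ∃ n : ℕ,
          ∀ i : ℕ, n ≤ i → CategoryTheory.Limits.IsZero (P.complex.X i)) →
      ∀ g : ℕ,
        (∃ rs : List A, rs.length = g ∧ (∀ r ∈ rs, r ∈ Module.annihilator A M) ∧
            RingTheory.Sequence.IsWeaklyRegular A rs) →
        (¬ ∃ rs : List A, rs.length = g + 1 ∧ (∀ r ∈ rs, r ∈ Module.annihilator A M) ∧
            RingTheory.Sequence.IsWeaklyRegular A rs) →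
        (g : WithBot ℕ∞) + ringKrullDim (A ⧸ Module.annihilator A M) = ringKrullDim A) := by
  intro h
  obtain ⟨R, _, _, _, σ, h4⟩ := PS.exists_A
  have e := h R σ.N ⟨σ.res, 4, σ.res_zero⟩
  have key : ∀ g : ℕ, g ≤ 2 →
      (g : WithBot ℕ∞) + ringKrullDim (R ⧸ Module.annihilator R σ.N) = ringKrullDim R → False := by
    intro g hg e
    have h1 : (g : WithBot ℕ∞) ≤ 2 := by exact_mod_cast hg
    have h2 := add_le_add h1 σ.dimN_le
    rw [e] at h2
    exact absurd (h4.trans h2) (by decide)
  have n3 : ¬ ∃ rs : List R, rs.length = 2 + 1 ∧ (∀ r ∈ rs, r ∈ Module.annihilator R σ.N) ∧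
      RingTheory.Sequence.IsWeaklyRegular R rs := by
    rintro ⟨rs, h1, h2, h3⟩
    have := σ.len_le rs h2 h3
    omega
  by_cases c2 : ∃ rs : List R, rs.length = 1 + 1 ∧ (∀ r ∈ rs, r ∈ Module.annihilator R σ.N) ∧
      RingTheory.Sequence.IsWeaklyRegular R rs
  · exact key 2 le_rfl (e 2 c2 n3)
  by_cases c1 : ∃ rs : List R, rs.length = 0 + 1 ∧ (∀ r ∈ rs, r ∈ Module.annihilator R σ.N) ∧
      RingTheory.Sequence.IsWeaklyRegular R rs
  · exact key 1 (by omega) (e 1 c1 c2)
  · exact key 0 (by omega)
      (e 0 ⟨[], rfl, by simp, RingTheory.Sequence.IsWeaklyRegular.nil R R⟩ c1)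

end Pool.Agent.S00360
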