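import Pool.Statements.S00406
import Pool.Agent.H.MP_b9ea36_ag.A

set_option autoImplicit false
open Pool Pool.MP_b9ea36_ag

namespace Pool.Agent.S00406

theorem result :
    ¬ (∀ (m n : ℕ) (E : Finset (Fin m × Fin n)),
      (∃ (R : Finset (Fin m)) (C : Finset (Fin n)),
          (R.Nonempty ∨ C.Nonempty) ∧
          (∀ i ∈ R, 3 ≤ (C.filter (fun j => (i, j) ∈ E)).card) ∧
          (∀ j ∈ C, 3 ≤ (R.filter (fun i => (i, j) ∈ E)).card)) →
      ∃ U : Set (Matrix (Fin m) (Fin n) ℝ),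
        IsOpen U ∧ U.Nonempty ∧
        ∀ A ∈ U, ∀ B : Matrix (Fin m) (Fin n) ℝ,
          (∀ p ∈ E, B p.1 p.2 = A p.1 p.2) → 3 ≤ B.rank) := by
  open Pool.Agent.H.MP_b9ea36_ag in
  intro H
  obtain ⟨U, h1, h2, h⟩ := H 5 5 (Finset.univ.filter fun p => (p.2 - p.1 : Fin 5).1 < 3)
    ⟨Finset.univ, Finset.univ, by simp, by decide, by decide⟩
  obtain ⟨a, ha, hF⟩ := gen h1 h2
  obtain ⟨b, hb, e⟩ := comp a hF
  have := h a ha b fun p hp => e _ _ (Finset.mem_filter.mp hp).2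
  omega

end Pool.Agent.S00406
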