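import Pool.Statements.S00415
import Pool.Agent.H.MP_bb5dbd_ag.E

set_option autoImplicit false
open Pool Pool.MP_bb5dbd_ag

namespace Pool.Agent.S00415

/-- Every non-identity rational map φ of ℂ³ satisfying (1−z)φ(x)=φ(φ(zx)(1−z)/z) and φ(zx)/z→x as z→0 is conjugate, by a 1-homogeneous birational map, to (x(w+1)^(N−1), y/(w+1), w/(w+1)) for some N ≥ 0. -/
theorem result :
    ∀ (P : Fin 3 → MvPolynomial (Fin 3) ℂ) (Q : MvPolynomial (Fin 3) ℂ)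
      (Φ : (Fin 3 → ℂ) → (Fin 3 → ℂ)),
      Q ≠ 0 →
      (∀ p : Fin 3 → ℂ, Φ p = fun i => MvPolynomial.eval p (P i) / MvPolynomial.eval p Q) →
      (¬ ∀ i : Fin 3, P i = MvPolynomial.X i * Q) →
      (∃ V : Set ((Fin 3 → ℂ) × ℂ), IsOpen V ∧ V.Nonempty ∧
        ∀ q ∈ V, q.2 ≠ 0 ∧ MvPolynomial.eval q.1 Q ≠ 0 ∧
          MvPolynomial.eval (q.2 • q.1) Q ≠ 0 ∧
          MvPolynomial.eval (((1 - q.2) / q.2) • Φ (q.2 • q.1)) Q ≠ 0 ∧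
          (1 - q.2) • Φ q.1 = Φ (((1 - q.2) / q.2) • Φ (q.2 • q.1))) →
      (∃ U : Set (Fin 3 → ℂ), IsOpen U ∧ U.Nonempty ∧
        ∀ x ∈ U, Filter.Tendsto (fun z : ℂ => z⁻¹ • Φ (z • x))
          (nhdsWithin (0 : ℂ) {0}ᶜ) (nhds x)) →
      ∃ (L : Fin 3 → MvPolynomial (Fin 3) ℂ) (E : MvPolynomial (Fin 3) ℂ)
        (M : Fin 3 → MvPolynomial (Fin 3) ℂ) (F : MvPolynomial (Fin 3) ℂ)
        (Λ Λ' : (Fin 3 → ℂ) → (Fin 3 → ℂ)) (N : ℕ),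
        E ≠ 0 ∧ F ≠ 0 ∧
        (∀ p : Fin 3 → ℂ, Λ p = fun i => MvPolynomial.eval p (L i) / MvPolynomial.eval p E) ∧
        (∀ p : Fin 3 → ℂ, Λ' p = fun i => MvPolynomial.eval p (M i) / MvPolynomial.eval p F) ∧
        (∃ U : Set (Fin 3 → ℂ), IsOpen U ∧ U.Nonempty ∧ ∀ x ∈ U,
          MvPolynomial.eval x E ≠ 0 ∧ MvPolynomial.eval (Λ x) F ≠ 0 ∧ Λ' (Λ x) = x) ∧
        (∃ U : Set (Fin 3 → ℂ), IsOpen U ∧ U.Nonempty ∧ ∀ x ∈ U,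
          MvPolynomial.eval x F ≠ 0 ∧ MvPolynomial.eval (Λ' x) E ≠ 0 ∧ Λ (Λ' x) = x) ∧
        (∃ V : Set ((Fin 3 → ℂ) × ℂ), IsOpen V ∧ V.Nonempty ∧ ∀ q ∈ V,
          MvPolynomial.eval q.1 E ≠ 0 ∧ MvPolynomial.eval (q.2 • q.1) E ≠ 0 ∧
          Λ (q.2 • q.1) = q.2 • Λ q.1) ∧
        (∃ U : Set (Fin 3 → ℂ), IsOpen U ∧ U.Nonempty ∧ ∀ x ∈ U,
          x 2 + 1 ≠ 0 ∧ MvPolynomial.eval x E ≠ 0 ∧ MvPolynomial.eval (Λ x) Q ≠ 0 ∧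
          MvPolynomial.eval
            (![x 0 * (x 2 + 1) ^ ((N : ℤ) - 1), x 1 / (x 2 + 1), x 2 / (x 2 + 1)]) E ≠ 0 ∧
          Φ (Λ x) = Λ ![x 0 * (x 2 + 1) ^ ((N : ℤ) - 1), x 1 / (x 2 + 1), x 2 / (x 2 + 1)]) := by
  open Pool.Agent.H.MP_bb5dbd_ag in
  intro P Q Φ hQ hΦ hn ⟨V, hV, hne, hT⟩ ⟨U, hU, hUne, hB⟩
  obtain ⟨a, b, h⟩ := bdry (P := P) hQ hU hUne (by simpa only [hΦ] using hB)
  obtain ⟨s, hs⟩ := ex_s h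
  obtain ⟨τ, hτ⟩ := ex_tau
  obtain ⟨t, h5, h6, hd⟩ := gens h hn (sm_of h hτ hs fun v hv i =>
    transl hΦ hV hne (fun q hq => ⟨(hT q hq).1, (hT q hq).2.2.2.2⟩) hv i)
  obtain ⟨N, η, ρ, h1, h2, h3, h4, hg⟩ := core hτ h5 h6 hd
  exact fin P Q Φ hQ hΦ N (fin1 hτ hs N h1 h2 h3 h4 h5 h6 hg)

end Pool.Agent.S00415
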