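import Pool.Statements.S00418
import Pool.Agent.H.MP_bb72f8_ag.A

set_option autoImplicit false
open Pool Pool.MP_bb72f8_ag

namespace Pool.Agent.S00418

theorem result :
    ¬ (∀ (n r d : ℕ) (m : Fin n → ℕ), r ≤ n →
    (∑ i ∈ Finset.univ.filter (fun i : Fin n => i.val < r), m i) ≤ d →
    ((∃ G : MvPolynomial (Fin n × Fin 2) ℂ, G ≠ 0 ∧
        ∀ p : Fin n → Fin 2 → ℂ,
          MvPolynomial.eval (fun ij : Fin n × Fin 2 => p ij.1 ij.2) G ≠ 0 →
          ∃ f : MvPolynomial (Fin 2) ℂ, f ≠ 0 ∧ f.totalDegree ≤ d ∧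
            ∀ i : Fin n,
              f ∈ (Ideal.span
                {(MvPolynomial.X 0 : MvPolynomial (Fin 2) ℂ) - MvPolynomial.C (p i 0),
                 (MvPolynomial.X 1 : MvPolynomial (Fin 2) ℂ) - MvPolynomial.C (p i 1)}) ^ (m i))
      ↔
     (∃ G : MvPolynomial (Fin (n + 2) × Fin 2) ℂ, G ≠ 0 ∧
        ∀ w : Fin (n + 2) → Fin 2 → ℂ,
          MvPolynomial.eval (fun ij : Fin (n + 2) × Fin 2 => w ij.1 ij.2) G ≠ 0 →
          ∃ f : MvPolynomial (Fin 2) ℂ, f ≠ 0 ∧ f.totalDegree ≤ d ∧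
            ∀ i : Fin n,
              f ∈ (Ideal.span
                {(MvPolynomial.X 0 : MvPolynomial (Fin 2) ℂ) - MvPolynomial.C
                    (if i.val < r then
                      w (Fin.castSucc (Fin.last n)) 0
                        + w (Fin.castSucc (Fin.castSucc i)) 0 * w (Fin.last (n + 1)) 0
                     else w (Fin.castSucc (Fin.castSucc i)) 0),
                 (MvPolynomial.X 1 : MvPolynomial (Fin 2) ℂ) - MvPolynomial.C
                    (if i.val < r then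
                      w (Fin.castSucc (Fin.last n)) 1
                        + w (Fin.castSucc (Fin.castSucc i)) 0 * w (Fin.last (n + 1)) 1
                     else w (Fin.castSucc (Fin.castSucc i)) 1)}) ^ (m i)))) := by
  intro h
  open Pool.Agent.H.MP_bb72f8_ag MvPolynomial in
  refine absurd ((h 6 4 4 mm (by norm_num) (by decide)).2
    ⟨(X (5, 0) - X (4, 0)) * X (7, 0), ?_, fun w hw => ?_⟩) ?_
  rotate_left 2
  · rintro ⟨G, hG, k⟩
    obtain ⟨p, h1, h2⟩ := Pool.Agent.H.MP_bb72f8_ag.not_generic G hG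
    obtain ⟨f, f0, fd, fm⟩ := k p h1
    exact f0 (Pool.Agent.H.MP_bb72f8_ag.empty p h2 f fd fm)
  · refine mul_ne_zero (sub_ne_zero.2 fun e => ?_) (MvPolynomial.X_ne_zero _)
    exact absurd (MvPolynomial.X_injective e) (by decide)
  · open Pool.Agent.H.MP_bb72f8_ag MvPolynomial in
    simp only [map_mul, map_sub, eval_X] at hw
    open Pool.Agent.H.MP_bb72f8_ag MvPolynomial in
    refine ⟨(C (w 4 1 - w 5 1) * X 0 + C (w 5 0 - w 4 0) * X 1 +
        C (w 4 0 * w 5 1 - w 5 0 * w 4 1)) ^ 3 *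
      (C (-w 7 1) * X 0 + C (w 7 0) * X 1 + C (w 7 1 * w 6 0 - w 7 0 * w 6 1)),
      mul_ne_zero (pow_ne_zero _ (line_ne _ _ _ (left_ne_zero_of_mul hw)))
        (line_ne _ _ _ (right_ne_zero_of_mul hw)), ?_, fun i => ?_⟩
    · refine (MvPolynomial.totalDegree_mul _ _).trans ?_
      have a := MvPolynomial.totalDegree_pow (MvPolynomial.C (w 4 1 - w 5 1) * MvPolynomial.X 0 +
        MvPolynomial.C (w 5 0 - w 4 0) * MvPolynomial.X 1 +
        MvPolynomial.C (w 4 0 * w 5 1 - w 5 0 * w 4 1) : MvPolynomial (Fin 2) ℂ) 3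
      have b := Pool.Agent.H.MP_bb72f8_ag.line_deg (w 4 1 - w 5 1) (w 5 0 - w 4 0)
        (w 4 0 * w 5 1 - w 5 0 * w 4 1)
      have c := Pool.Agent.H.MP_bb72f8_ag.line_deg (-w 7 1) (w 7 0) (w 7 1 * w 6 0 - w 7 0 * w 6 1)
      omega
    · by_cases hi : i.val < 4
      · have : Pool.Agent.H.MP_bb72f8_ag.mm i = 1 := by
          revert i
          decide
        rw [this, pow_one, if_pos hi, if_pos hi]
        refine Ideal.mul_mem_left _ _ (Pool.Agent.H.MP_bb72f8_ag.line_mem _ _ _ _ _ ?_)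
        change -w 7 1 * (w 6 0 + _ * w 7 0) + w 7 0 * (w 6 1 + _ * w 7 1) + _ = 0
        ring
      · have : Pool.Agent.H.MP_bb72f8_ag.mm i = 3 ∧
            (i.castSucc.castSucc = 4 ∨ i.castSucc.castSucc = 5) := by
          revert i
          decide
        rw [this.1, if_neg hi, if_neg hi]
        refine Ideal.mul_mem_right _ _ (Ideal.pow_mem_pow
          (Pool.Agent.H.MP_bb72f8_ag.line_mem _ _ _ _ _ ?_) 3)
        rcases this.2 with e | e <;> rw [e] <;> ring

end Pool.Agent.S00418
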