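import Pool.Statements.S00522
import Pool.Agent.H.MP_e97ce4_ag.Main

set_option autoImplicit false
open AlgebraicGeometry CategoryTheory CategoryTheory.Limits
open Pool Pool.MP_e97ce4_ag

namespace Pool.Agent.S00522
open Pool.Agent.H.MP_e97ce4_ag

theorem result :
    ¬ (∀ (n : ℕ), 1 < n →
  ∀ (U : (Spec (CommRingCat.of (MvPolynomial (Fin 2) ℂ))).Opens),
    U = (PrimeSpectrum.basicOpen (MvPolynomial.X 0 : MvPolynomial (Fin 2) ℂ) ⊔
          PrimeSpectrum.basicOpen (MvPolynomial.X 1 : MvPolynomial (Fin 2) ℂ) :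
          (Spec (CommRingCat.of (MvPolynomial (Fin 2) ℂ))).Opens) →
  ∀ (X : Scheme.{0}) (p : X ⟶ U.toScheme),
    (∀ x : U.toScheme, ∃ V : U.toScheme.Opens, x ∈ V ∧
      ∃ e : (p ⁻¹ᵁ V).toScheme ≅
          pullback (V.ι ≫ U.ι ≫ Spec.map (CommRingCat.ofHom (algebraMap ℂ (MvPolynomial (Fin 2) ℂ))))
            (Spec.map (CommRingCat.ofHom (algebraMap ℂ (MvPolynomial (Fin n) ℂ)))),
        e.hom ≫ pullback.fst
            (V.ι ≫ U.ι ≫ Spec.map (CommRingCat.ofHom (algebraMap ℂ (MvPolynomial (Fin 2) ℂ))))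
            (Spec.map (CommRingCat.ofHom (algebraMap ℂ (MvPolynomial (Fin n) ℂ))))
          = p ∣_ V) →
    ((∃ e : X ≅
          pullback (U.ι ≫ Spec.map (CommRingCat.ofHom (algebraMap ℂ (MvPolynomial (Fin 2) ℂ))))
            (Spec.map (CommRingCat.ofHom (algebraMap ℂ (MvPolynomial (Fin n) ℂ)))),
        e.hom ≫ pullback.fst
            (U.ι ≫ Spec.map (CommRingCat.ofHom (algebraMap ℂ (MvPolynomial (Fin 2) ℂ))))
            (Spec.map (CommRingCat.ofHom (algebraMap ℂ (MvPolynomial (Fin n) ℂ))))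
          = p) ↔ ¬ IsAffine X)) := by
  intro H
  let U : (Spec (CommRingCat.of RR)).Opens :=
    PrimeSpectrum.basicOpen xx ⊔ PrimeSpectrum.basicOpen yy
  let φ : CommRingCat.of RR ⟶ CommRingCat.of AA := CommRingCat.ofHom (algebraMap RR AA)
  let ψ : CommRingCat.of RR ⟶ CommRingCat.of PP := CommRingCat.ofHom (algebraMap RR PP)
  have hA : Hart (φ xx) (φ yy) := hartR.of_free (B := AA)
  have hS : Hart (ψ xx) (ψ yy) := hartR.of_free (B := PP)
  have key := H 2 (by norm_num) U rfl (Spec.map φ ⁻¹ᵁ U).toScheme (Spec.map φ ∣_ U) (by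
    intro x
    have hx : x.1 ∈ (PrimeSpectrum.basicOpen xx ⊔ PrimeSpectrum.basicOpen yy :
      (Spec (CommRingCat.of RR)).Opens) := x.2
    rcases hx with hx | hx
    · refine ⟨U.ι ⁻¹ᵁ PrimeSpectrum.basicOpen xx, hx, ?_⟩
      exact loc_triv (R := CommRingCat.of RR) (CommRingCat.ofHom (algebraMap ℂ RR)) _ φ xx _ _ _
        pushx (mv_pushout ℂ Rx) U le_sup_left
    · refine ⟨U.ι ⁻¹ᵁ PrimeSpectrum.basicOpen yy, hx, ?_⟩
      exact loc_triv (R := CommRingCat.of RR) (CommRingCat.ofHom (algebraMap ℂ RR)) _ φ yy _ _ _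
        pushy (mv_pushout ℂ Ry) U le_sup_right)
  have hna : ¬ IsAffine (Spec.map φ ⁻¹ᵁ U).toScheme :=
    not_affine _ _ _ hA _ (preimage_U φ xx yy U rfl) span_ne
  obtain ⟨e, he⟩ := key.mpr hna
  obtain ⟨e', he'⟩ := triv_iso _ _ ψ _ (mv_pushout ℂ RR) U
  obtain ⟨E, hE⟩ := iso_of_iso φ ψ xx yy hA hS U rfl (e ≪≫ e'.symm) (by
    rw [← he', ← he]; simp)
  exact no_iso E.commRingCatIsoToRingEquiv (fun r => congrArg (fun f => f.hom r) hE)

end Pool.Agent.S00522
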