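import Pool.Statements.S00530
import Pool.Agent.H.MP_8fff0f_ag.A

set_option autoImplicit false
open Pool Pool.MP_ebd967_ag

namespace Pool.Agent.S00530

theorem result :
    ¬ (∃ Q : Polynomial ℕ, ∀ (G : Type) [AddCommGroup G] [Fintype G],
      ∀ p : MvPolynomial {g : G × G × G // g.1 + g.2.1 + g.2.2 = 0} ℂ,
        MvPolynomial.aeval
            (fun s : {g : G × G × G // g.1 + g.2.1 + g.2.2 = 0} =>
              (MvPolynomial.X ((0 : Fin 3), s.1.1) * MvPolynomial.X ((1 : Fin 3), s.1.2.1) *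
                MvPolynomial.X ((2 : Fin 3), s.1.2.2) : MvPolynomial (Fin 3 × G) ℂ)) p = 0 →
        p ∈ Ideal.span
          {q : MvPolynomial {g : G × G × G // g.1 + g.2.1 + g.2.2 = 0} ℂ |
            MvPolynomial.aeval
                (fun s : {g : G × G × G // g.1 + g.2.1 + g.2.2 = 0} =>
                  (MvPolynomial.X ((0 : Fin 3), s.1.1) * MvPolynomial.X ((1 : Fin 3), s.1.2.1) *
                    MvPolynomial.X ((2 : Fin 3), s.1.2.2) : MvPolynomial (Fin 3 × G) ℂ)) q = 0 ∧
              q.totalDegree ≤ Q.eval (Fintype.card G)}) := by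
  open Pool.Agent.H.MP_8fff0f_ag Filter in
  rintro ⟨Q, H⟩
  have t : ∀ R : Polynomial ℕ, Tendsto (fun K : ℕ => ((R.eval K : ℕ) : ℝ) / 2 ^ K) atTop (nhds 0) := fun R => by
    induction R using Polynomial.induction_on' with
    | add p q hp hq => simpa [add_div] using hp.add hq
    | monomial n a =>
      simpa [mul_div_assoc] using (tendsto_pow_const_div_const_pow_of_one_lt n (one_lt_two (α := ℝ))).const_mul (a : ℝ)
  obtain ⟨K, k1, k2⟩ := (((t (Q.comp ((3 * Polynomial.X + 3) * (3 * Polynomial.X + 3)))).eventually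
    (gt_mem_nhds one_pos)).and (eventually_gt_atTop 0)).exists
  rw [div_lt_one (by positivity)] at k1
  obtain ⟨f, f1, f2⟩ := bin (K := K) (F := {g : G K × G K × G K // g.1 + g.2.1 + g.2.2 = 0}) (fun g => g.1.1)
    (fun g => g.1.2.1) (fun g => g.1.2.2) k2 fun x y z h => ⟨⟨(x, y, z), h⟩, rfl, rfl, rfl⟩
  refine f2 ((Ideal.span_le (I := RingHom.ker _)).mpr (fun q hq => ?_) (H (G K) f f1))
  refine vanish _ _ _ (fun g => g.2) q hq.1 (hq.2.trans_lt ?_)
  norm_cast at k1
  simpa using k1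

end Pool.Agent.S00530
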