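import Pool.Statements.S00541
import Pool.Agent.H.MP_4fee6f_ag.E

set_option autoImplicit false
open Pool Pool.MP_ef83ea_ag

namespace Pool.Agent.S00541

theorem result :
    ∀ (N : ℕ), 1 ≤ N → ∀ S : Finset (Fin (N + 1) → ℂ), S.Nonempty → (∀ p ∈ S, p ≠ 0) →
      ∀ m : ℕ, 1 ≤ m →
        (((sInf {d : ℕ | ∃ f ∈ (⨅ p ∈ S,
              (Ideal.span (Set.range (fun ij : Fin (N + 1) × Fin (N + 1) =>
                (MvPolynomial.X ij.1 * MvPolynomial.C (p ij.2)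
                  - MvPolynomial.X ij.2 * MvPolynomial.C (p ij.1) :
                  MvPolynomial (Fin (N + 1)) ℂ)))) ^ 3),
              f ≠ 0 ∧ f.totalDegree = d} : ℕ) : ℝ) + (N : ℝ) - 1) / ((N : ℝ) + 2)
          ≤ ((sInf {d : ℕ | ∃ f ∈ (⨅ p ∈ S,
              (Ideal.span (Set.range (fun ij : Fin (N + 1) × Fin (N + 1) =>
                (MvPolynomial.X ij.1 * MvPolynomial.C (p ij.2)
                  - MvPolynomial.X ij.2 * MvPolynomial.C (p ij.1) :
                  MvPolynomial (Fin (N + 1)) ℂ)))) ^ m),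
              f ≠ 0 ∧ f.totalDegree = d} : ℕ) : ℝ) / (m : ℝ) := by
  intro N hN S hS hp m hm
  have key : ∀ k : ℕ, (⨅ p ∈ S,
      (Ideal.span (Set.range (fun ij : Fin (N + 1) × Fin (N + 1) =>
        (MvPolynomial.X ij.1 * MvPolynomial.C (p ij.2)
          - MvPolynomial.X ij.2 * MvPolynomial.C (p ij.1) :
          MvPolynomial (Fin (N + 1)) ℂ)))) ^ k)
      = Pool.Agent.H.MP_4fee6f_ag.fat (fun i : S => i.1) (fun _ => k * 1) := by
    intro k
    unfold Pool.Agent.H.MP_4fee6f_ag.fat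
    rw [iInf_subtype]
    refine iInf_congr fun p => iInf_congr fun hpS => ?_
    rw [Pool.Agent.H.MP_4fee6f_ag.span_minors p (hp p hpS), mul_one]
  rw [key, key]
  obtain ⟨p0, hp0⟩ := hS
  have h := Pool.Agent.H.MP_4fee6f_ag.aH_ineq hN (fun i : S => i.1) (fun i => hp i.1 i.2)
    (fun _ => 1) ⟨⟨p0, hp0⟩, one_ne_zero⟩ 3 m (by norm_num) hm
  rw [← Pool.Agent.H.MP_4fee6f_ag.aT_eq_aH hN (fun i : S => i.1) (fun i => hp i.1 i.2),
    ← Pool.Agent.H.MP_4fee6f_ag.aT_eq_aH hN (fun i : S => i.1) (fun i => hp i.1 i.2)] at h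
  have h3 : ((3 : ℕ) : ℝ) + (N : ℝ) - 1 = (N : ℝ) + 2 := by push_cast; ring
  rw [h3] at h
  exact h

end Pool.Agent.S00541
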