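import Pool.Statements.S00548

set_option autoImplicit false
open Pool Pool.MP_f28cea_ag

namespace Pool.Agent.S00548

open Polynomial

lemma coeff_prod_top {k σ : Type} [Field k] (s : Finset σ) (G : σ → k[X]) (D : σ → ℕ)
    (h : ∀ j, (G j).natDegree ≤ D j) :
    (∏ j ∈ s, G j).coeff (∑ j ∈ s, D j) = ∏ j ∈ s, (G j).coeff (D j) := by
  classical
  induction s using Finset.induction_on with
  | empty => simp
  | insert a s ha ih =>
    rw [Finset.prod_insert ha, Finset.sum_insert ha, Finset.prod_insert ha,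
      coeff_mul_add_eq_of_natDegree_le (h a)
        ((natDegree_prod_le _ _).trans (Finset.sum_le_sum fun j _ => h j)), ih]

lemma coeff_aeval_top {k σ : Type} [Field k] (w : σ → ℕ) (p : MvPolynomial σ k) (d : ℕ)
    (hp : MvPolynomial.IsWeightedHomogeneous w p d) (G : σ → k[X]) (a : ℕ)
    (h : ∀ j, (G j).natDegree ≤ a * w j) :
    (MvPolynomial.aeval G p).coeff (a * d) =
      MvPolynomial.aeval (fun j => (G j).coeff (a * w j)) p := by
  rw [MvPolynomial.aeval_def, MvPolynomial.eval₂_eq, MvPolynomial.aeval_def,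
    MvPolynomial.eval₂_eq, finsetSum_coeff]
  refine Finset.sum_congr rfl fun e he => ?_
  have hw := hp (MvPolynomial.mem_support_iff.1 he)
  rw [Finsupp.weight_apply, Finsupp.sum] at hw
  have e1 : a * d = ∑ j ∈ e.support, e j * (a * w j) := by
    rw [← hw, Finset.mul_sum]
    refine Finset.sum_congr rfl fun j _ => ?_
    simp only [smul_eq_mul]; ring
  rw [Polynomial.algebraMap_eq, coeff_C_mul, e1,
    coeff_prod_top e.support (fun j => G j ^ e j) (fun j => e j * (a * w j))
      (fun j => natDegree_pow_le_of_le _ (h j))]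
  simp only [Algebra.algebraMap_self, RingHom.id_apply]
  congr 1
  exact Finset.prod_congr rfl fun j _ => coeff_pow_of_natDegree_le (h j)

lemma aeval_ne_zero {k σ : Type} [Field k] [Fintype σ] (w : σ → ℕ) (hw : ∀ j, 0 < w j)
    (p : MvPolynomial σ k) (d : ℕ) (hp : MvPolynomial.IsWeightedHomogeneous w p d)
    (han : ∀ y : σ → k, MvPolynomial.aeval y p = 0 → y = 0)
    (G : σ → k[X]) (j₁ : σ) (hG : G j₁ ≠ 0) : MvPolynomial.aeval G p ≠ 0 := by
  classical
  obtain ⟨j₀, hj₀, hmax⟩ := Finset.exists_max_image (Finset.univ.filter fun j => G j ≠ 0)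
    (fun j => ((G j).natDegree : ℚ) / (w j : ℚ)) ⟨j₁, by simpa using hG⟩
  have hj₀' : G j₀ ≠ 0 := by simpa using hj₀
  intro h0
  have h1 : MvPolynomial.aeval (fun j => expand k (w j₀) (G j)) p = 0 := by
    have := congrArg (expand k (w j₀)) h0
    rw [map_zero, ← AlgHom.comp_apply, MvPolynomial.comp_aeval] at this
    exact this
  have hdeg : ∀ j, (expand k (w j₀) (G j)).natDegree ≤ (G j₀).natDegree * w j := by
    intro j
    rw [natDegree_expand]
    by_cases hj : G j = 0
    · simp [hj]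
    · have := hmax j (by simpa using hj)
      rw [div_le_div_iff₀ (by exact_mod_cast hw j) (by exact_mod_cast hw j₀)] at this
      exact_mod_cast this
  have h2 := coeff_aeval_top w p d hp _ _ hdeg
  rw [h1, coeff_zero] at h2
  have h3 := congrFun (han _ h2.symm) j₀
  simp only [Pi.zero_apply] at h3
  rw [coeff_expand_mul (hw j₀)] at h3
  exact hj₀' (leadingCoeff_eq_zero.1 h3)

theorem result :
    ¬ (∀ (k K : Type) [Field k] [Field K] [Algebra k K] (n : ℕ)
      (I : Ideal (MvPolynomial (Fin n) k)) (f : MvPolynomial (Fin n) k),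
      (∃ m : ℕ, ∃ w : Fin (m + 1) → ℕ, Monotone w ∧ (∀ j, 0 < w j) ∧
        ∃ p : MvPolynomial (Fin (m + 1)) k, ∃ d : ℕ,
          MvPolynomial.IsWeightedHomogeneous w p d ∧
          (∀ y : Fin (m + 1) → K, MvPolynomial.aeval y p = 0 ↔ y = 0) ∧
          ∃ g : Fin m → MvPolynomial (Fin n) k,
            MvPolynomial.aeval
              (Fin.cons f g : Fin (m + 1) → MvPolynomial (Fin n) k) p ∈ I) ↔
      (∀ x : Fin n → K, (∀ q ∈ I, MvPolynomial.aeval x q = 0) →
        MvPolynomial.aeval x f = 0)) := by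
  intro h
  have key := (h (ZMod 2) (ZMod 2) 2 (Ideal.span {MvPolynomial.X 0})
    (MvPolynomial.X 1 ^ 2 - MvPolynomial.X 1)).2 (by
      intro x _
      simp only [map_sub, map_pow, MvPolynomial.aeval_X]
      generalize x 1 = t
      revert t; decide)
  obtain ⟨m, w, -, hw, p, d, hp, han, g, hg⟩ := key
  let φ : MvPolynomial (Fin 2) (ZMod 2) →ₐ[ZMod 2] (ZMod 2)[X] :=
    MvPolynomial.aeval ![0, X]
  obtain ⟨c, hc⟩ := Ideal.mem_span_singleton'.1 hg
  have h1 := congrArg φ hc
  rw [map_mul, ← AlgHom.comp_apply φ (MvPolynomial.aeval _), MvPolynomial.comp_aeval] at h1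
  have h2 : φ (MvPolynomial.X 0) = 0 := by simp [φ]
  rw [h2, mul_zero] at h1
  refine aeval_ne_zero w hw p d hp (fun y hy => (han y).1 hy) _ 0 ?_ h1.symm
  simp only [Fin.cons_zero, φ, map_sub, map_pow, MvPolynomial.aeval_X]
  intro h3
  have := congrArg (fun q : (ZMod 2)[X] => q.coeff 2) h3
  simp [coeff_X_pow, coeff_X] at this

end Pool.Agent.S00548
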