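import Pool.Statements.S00576

set_option autoImplicit false
open Pool Pool.MP_008109_al

namespace Pool.Agent.S00576

section aux
variable {X : Type} [CommGroup X]

/-- The extension property of a special subset. -/
def Ext (S : Set X) : Prop :=
  ∀ U V : Finset X, Disjoint U V →
    ∃ z : X, z ∉ U ∧ z ∉ V ∧ (∀ u ∈ U, z * u⁻¹ ∈ S) ∧ (∀ v ∈ V, z * v⁻¹ ∉ S)

/-- Finite partial isomorphisms, given by their graphs. -/
def Good (S T : Set X) (H : Subgroup (X × X)) : Prop :=
  (H : Set (X × X)).Finite ∧ ∀ p ∈ H, (p.1 = 1 ↔ p.2 = 1) ∧ (p.1 ∈ S ↔ p.2 ∈ T)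

theorem step1 (h2 : ∀ x : X, x * x = 1) (S T : Set X) (hT : Ext T) (H : Subgroup (X × X))
    (hH : Good S T H) (x : X) : ∃ H' : Subgroup (X × X), Good S T H' ∧ H ≤ H' ∧ ∃ y, (x, y) ∈ H' := by
  classical
  by_cases hx : ∃ y, (x, y) ∈ H
  · exact ⟨H, hH, le_rfl, hx⟩
  have hinv : ∀ a : X, a⁻¹ = a := fun a => inv_eq_of_mul_eq_one_right (h2 a)
  obtain ⟨hfin, hgood⟩ := hH
  let F : Finset (X × X) := hfin.toFinset
  have hF : ∀ p, p ∈ F ↔ p ∈ H := fun p => by simp [F]
  let U : Finset X := (F.filter (fun p => x * p.1 ∈ S)).image Prod.snd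
  let V : Finset X := (F.filter (fun p => x * p.1 ∉ S)).image Prod.snd
  have hUV : Disjoint U V := by
    rw [Finset.disjoint_left]
    intro a haU haV
    simp only [U, V, Finset.mem_image, Finset.mem_filter, hF] at haU haV
    obtain ⟨p, ⟨hp, hpS⟩, rfl⟩ := haU
    obtain ⟨q, ⟨hq, hqS⟩, hqp⟩ := haV
    have h1 := (hgood (p * q) (H.mul_mem hp hq)).1
    have h3 : (p * q).2 = 1 := by simp [hqp, h2]
    have h4 : p.1 * q.1 = 1 := by simpa using h1.2 h3
    have h5 : p.1 = q.1 := by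
      have := eq_inv_of_mul_eq_one_left h4
      rwa [hinv] at this
    exact hqS (h5 ▸ hpS)
  obtain ⟨z, hzU, hzV, hU, hV⟩ := hT U V hUV
  have hxz : ((x, z) : X × X) * (x, z) = 1 := by ext <;> simp [h2]
  let H' : Subgroup (X × X) :=
    { carrier := {p | p ∈ H ∨ (x, z) * p ∈ H}
      mul_mem' := by
        rintro a b (ha | ha) (hb | hb)
        · exact Or.inl (H.mul_mem ha hb)
        · right
          have := H.mul_mem ha hb
          rwa [mul_left_comm] at this
        · right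
          have := H.mul_mem ha hb
          rwa [mul_assoc] at this
        · left
          have := H.mul_mem ha hb
          rwa [mul_mul_mul_comm, hxz, one_mul] at this
      one_mem' := Or.inl H.one_mem
      inv_mem' := by
        intro a ha
        have : a⁻¹ = a := by ext <;> simp [hinv]
        rwa [this] }
  refine ⟨H', ⟨?_, ?_⟩, fun p hp => Or.inl hp, z, Or.inr (by rw [hxz]; exact H.one_mem)⟩
  · have : (H' : Set (X × X)) ⊆ (H : Set (X × X)) ∪ ((fun p => (x, z) * p) '' (H : Set (X × X))) := by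
      rintro p (hp | hp)
      · exact Or.inl hp
      · refine Or.inr ⟨_, hp, ?_⟩
        show (x, z) * ((x, z) * p) = p
        rw [← mul_assoc, hxz, one_mul]
    exact (hfin.union (hfin.image _)).subset this
  · rintro p (hp | hp)
    · exact hgood p hp
    · set q := (x, z) * p with hq
      have hp1 : p.1 = x * q.1 := by
        simp [hq, ← mul_assoc, h2]
      have hp2 : p.2 = z * (q.2)⁻¹ := by
        rw [hinv]; simp [hq, ← mul_assoc, h2]
      have hmem : q.2 ∈ U ∨ q.2 ∈ V := by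
        by_cases hs : x * q.1 ∈ S
        · left
          exact Finset.mem_image.2 ⟨q, Finset.mem_filter.2 ⟨(hF q).2 hp, hs⟩, rfl⟩
        · right
          exact Finset.mem_image.2 ⟨q, Finset.mem_filter.2 ⟨(hF q).2 hp, hs⟩, rfl⟩
      refine ⟨⟨fun h => ?_, fun h => ?_⟩, ?_⟩
      · exfalso
        apply hx
        refine ⟨q.2, ?_⟩
        have : x = q.1 := by simp [hq, h]
        rw [this]; exact hp
      · exfalso
        have : z = q.2 := by simp [hq, h]
        rcases hmem with h' | h'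
        · exact hzU (this ▸ h')
        · exact hzV (this ▸ h')
      · rw [hp1, hp2]
        constructor
        · intro hs
          exact hU _ (Finset.mem_image.2 ⟨q, Finset.mem_filter.2 ⟨(hF q).2 hp, hs⟩, rfl⟩)
        · intro ht
          by_contra hs
          exact hV _ (Finset.mem_image.2 ⟨q, Finset.mem_filter.2 ⟨(hF q).2 hp, hs⟩, rfl⟩) ht

theorem good_swap (S T : Set X) (H : Subgroup (X × X)) (hH : Good S T H) :
    Good T S (H.comap (MulEquiv.prodComm (M := X) (N := X)).toMonoidHom) := by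
  refine ⟨?_, ?_⟩
  · have : ((H.comap (MulEquiv.prodComm (M := X) (N := X)).toMonoidHom : Subgroup (X × X)) : Set (X × X))
        = Prod.swap ⁻¹' (H : Set (X × X)) := by
      ext p; simp
    rw [this]
    exact hH.1.preimage (Prod.swap_injective.injOn)
  · intro p hp
    have h := hH.2 p.swap (by simpa [Subgroup.mem_comap] using hp)
    exact ⟨h.1.symm, h.2.symm⟩

theorem step (h2 : ∀ x : X, x * x = 1) (S T : Set X) (hS : Ext S) (hT : Ext T)
    (H : Subgroup (X × X)) (hH : Good S T H) (x : X) :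
    ∃ H' : Subgroup (X × X), Good S T H' ∧ H ≤ H' ∧ (∃ y, (x, y) ∈ H') ∧ ∃ y, (y, x) ∈ H' := by
  obtain ⟨H1, hH1, hle, y, hy⟩ := step1 h2 S T hT H hH x
  obtain ⟨H2, hH2, hle2, w, hw⟩ := step1 h2 T S hS _ (good_swap S T H1 hH1) x
  have key : H1 ≤ H2.comap (MulEquiv.prodComm (M := X) (N := X)).toMonoidHom := by
    intro p hp
    rw [Subgroup.mem_comap]
    apply hle2
    simpa [Subgroup.mem_comap] using hp
  refine ⟨_, good_swap T S H2 hH2, hle.trans key, ⟨y, key hy⟩, w, ?_⟩
  simpa [Subgroup.mem_comap] using hw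

theorem one_orbit [Countable X] (h2 : ∀ x : X, x * x = 1) (S T : Set X) (hS : Ext S) (hT : Ext T)
    (h1S : (1 : X) ∉ S) (h1T : (1 : X) ∉ T) : ∃ σ : MulAut X, (fun x => σ x) '' S = T := by
  obtain ⟨e, he⟩ := exists_surjective_nat X
  have hstep : ∀ (H : {H : Subgroup (X × X) // Good S T H}) (x : X),
      ∃ H' : {H : Subgroup (X × X) // Good S T H}, H.1 ≤ H'.1 ∧ (∃ y, (x, y) ∈ H'.1) ∧
        ∃ y, (y, x) ∈ H'.1 := by
    intro H x
    obtain ⟨H', h1, h3, h4⟩ := step h2 S T hS hT H.1 H.2 x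
    exact ⟨⟨H', h1⟩, h3, h4⟩
  choose nx hnx using hstep
  have hbot : Good S T ⊥ := by
    refine ⟨by simp, ?_⟩
    intro p hp
    rw [Subgroup.mem_bot] at hp
    subst hp
    simp [h1S, h1T]
  let s : ℕ → {H : Subgroup (X × X) // Good S T H} :=
    fun n => Nat.rec ⟨⊥, hbot⟩ (fun k H => nx H (e k)) n
  have hs : ∀ n, s (n + 1) = nx (s n) (e n) := fun n => rfl
  have hmono : Monotone (fun n => (s n).1) :=
    monotone_nat_of_le_succ (fun n => by rw [hs]; exact (hnx _ _).1)
  let G : Subgroup (X × X) := ⨆ n, (s n).1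
  have hG : ∀ p, p ∈ G ↔ ∃ n, p ∈ (s n).1 := fun p =>
    Subgroup.mem_iSup_of_directed hmono.directed_le
  have hGg : ∀ p ∈ G, (p.1 = 1 ↔ p.2 = 1) ∧ (p.1 ∈ S ↔ p.2 ∈ T) := by
    intro p hp
    obtain ⟨n, hn⟩ := (hG p).1 hp
    exact (s n).2.2 p hn
  have hb1 : Function.Bijective (Prod.fst ∘ G.subtype) := by
    constructor
    · have : Function.Injective ((MonoidHom.fst X X).comp G.subtype) := by
        rw [injective_iff_map_eq_one]
        rintro ⟨p, hp⟩ h
        have h1 : p.1 = 1 := h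
        ext
        · exact h1
        · exact (hGg p hp).1.1 h1
      exact this
    · intro x
      obtain ⟨n, rfl⟩ := he x
      obtain ⟨y, hy⟩ := (hnx (s n) (e n)).2.1
      exact ⟨⟨(e n, y), (hG _).2 ⟨n + 1, hy⟩⟩, rfl⟩
  have hb2 : Function.Bijective (Prod.snd ∘ G.subtype) := by
    constructor
    · have : Function.Injective ((MonoidHom.snd X X).comp G.subtype) := by
        rw [injective_iff_map_eq_one]
        rintro ⟨p, hp⟩ h
        have h1 : p.2 = 1 := h
        ext
        · exact (hGg p hp).1.2 h1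
        · exact h1
      exact this
    · intro x
      obtain ⟨n, rfl⟩ := he x
      obtain ⟨y, hy⟩ := (hnx (s n) (e n)).2.2
      exact ⟨⟨(y, e n), (hG _).2 ⟨n + 1, hy⟩⟩, rfl⟩
  obtain ⟨σ, hσ⟩ := Subgroup.exists_mulEquiv_eq_graph hb1 hb2
  have hmem : ∀ x, (x, σ x) ∈ G := by
    intro x; rw [hσ]; simp [MonoidHom.mem_graph]
  refine ⟨σ, ?_⟩
  ext y
  constructor
  · rintro ⟨x, hx, rfl⟩
    exact (hGg _ (hmem x)).2.1 hx
  · intro hy
    refine ⟨σ.symm y, ?_, by simp⟩
    apply (hGg _ (hmem (σ.symm y))).2.2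
    simpa using hy

end aux

/-- The countable elementary abelian 2-group. -/
abbrev E2 : Type := Multiplicative (ℕ →₀ ZMod 2)

instance countableE2 : Countable E2 := inferInstanceAs (Countable (ℕ →₀ ZMod 2))

theorem sq_one (x : E2) : x * x = 1 := by
  have : ∀ a : ℕ →₀ ZMod 2, a + a = 0 := by
    intro a; ext i
    simp only [Finsupp.coe_add, Pi.add_apply, Finsupp.coe_zero, Pi.zero_apply]
    exact CharTwo.add_self_eq_zero _
  exact congrArg Multiplicative.ofAdd (this (Multiplicative.toAdd x))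

theorem card_aut : Cardinal.mk (MulAut E2) = Cardinal.continuum := by
  apply le_antisymm
  · have h1 : Cardinal.mk (MulAut E2) ≤ Cardinal.mk (E2 → E2) :=
      Cardinal.mk_le_of_injective (f := fun σ => (σ : E2 → E2)) DFunLike.coe_injective
    refine h1.trans ?_
    have h2 : Cardinal.mk E2 = Cardinal.aleph0 := Cardinal.mk_eq_aleph0 E2
    rw [← Cardinal.power_def, h2, Cardinal.aleph0_power_aleph0]
  · have h1 : Cardinal.mk (Equiv.Perm ℕ) = Cardinal.continuum := by
      rw [Cardinal.mk_perm_eq_two_power, Cardinal.mk_nat, Cardinal.two_power_aleph0]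
    rw [← h1]
    refine Cardinal.mk_le_of_injective
      (f := fun π : Equiv.Perm ℕ => (AddEquiv.toMultiplicative (Finsupp.domCongr (M := ZMod 2) π) :
        MulAut E2)) ?_
    intro π ρ h
    ext i
    have h2 := congrArg (fun σ : MulAut E2 =>
      Multiplicative.toAdd (σ (Multiplicative.ofAdd (Finsupp.single i (1 : ZMod 2))))) h
    simp only [AddEquiv.toMultiplicative_apply_apply] at h2
    have h3 : Finsupp.single (π i) (1 : ZMod 2) = Finsupp.single (ρ i) 1 := by
      simpa [Finsupp.equivMapDomain_single] using h2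
    exact Finsupp.single_left_injective one_ne_zero h3

/-- The negation: the countable elementary abelian 2-group has a single orbit on special subsets. -/
theorem result :
    ¬ (∀ (X : Type) [Group X] [Countable X],
      (∀ (F : Finset (X × X)), (∀ p ∈ F, p.1 ≠ p.2) → ∀ (E : Finset X),
        ∃ z : X, z ∉ E ∧ ∀ p ∈ F, p.1 * z⁻¹ ≠ z * p.2⁻¹) →
      Cardinal.mk (MulAut X) = Cardinal.continuum →
      ∃ f : ℝ → Set X,
        (∀ r : ℝ, (∀ s ∈ f r, s⁻¹ ∈ f r) ∧ (1 : X) ∉ f r ∧
          ∀ U V : Finset X, Disjoint U V →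
            ∃ z : X, z ∉ U ∧ z ∉ V ∧ (∀ u ∈ U, z * u⁻¹ ∈ f r) ∧ (∀ v ∈ V, z * v⁻¹ ∉ f r)) ∧
        ∀ r s : ℝ, r ≠ s → ∀ σ : MulAut X, (fun x => σ x) '' f r ≠ f s) := by
  intro h
  have hinv : ∀ a : E2, a⁻¹ = a := fun a => inv_eq_of_mul_eq_one_right (sq_one a)
  obtain ⟨f, hf, hne⟩ := h E2 (by
    intro F hF E
    obtain ⟨z, hz⟩ := Infinite.exists_notMem_finset E
    refine ⟨z, hz, fun p hp hc => hF p hp ?_⟩
    rw [hinv, hinv, mul_comm z] at hc
    exact mul_right_cancel hc) card_aut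
  obtain ⟨σ, hσ⟩ := one_orbit sq_one (f 0) (f 1) (hf 0).2.2 (hf 1).2.2 (hf 0).2.1 (hf 1).2.1
  exact hne 0 1 zero_ne_one σ hσ

end Pool.Agent.S00576
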