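import Pool.Statements.S00580
import Pool.Agent.H.MP_011e6c_al.C

set_option autoImplicit false
open Pool Pool.MP_011e6c_al

namespace Pool.Agent.S00580
open Pool.Agent.H.MP_011e6c_al OrderDual

theorem result :
    ¬ (∀ (L : Type) [Lattice L],
      (∃ (G : Type) (_ : Group G) (f : L → Subgroup G),
        Function.Injective f ∧ (∀ x, (f x).Normal) ∧
        (∀ x y, f (x ⊔ y) = f x ⊔ f y) ∧ (∀ x y, f (x ⊓ y) = f x ⊓ f y)) →
      (∃ (H : Type) (_ : Group H) (g : Lᵒᵈ → Subgroup H),
        Function.Injective g ∧ (∀ x, (g x).Normal) ∧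
        (∀ x y, g (x ⊔ y) = g x ⊔ g y) ∧ (∀ x y, g (x ⊓ y) = g x ⊓ g y))) := by
  intro h
  obtain ⟨H, _, g, gi, gn, gs, gm⟩ := h NL ⟨G, inferInstance, Subtype.val, Subtype.val_injective,
    fun x => x.2, fun _ _ => rfl, fun _ _ => rfl⟩
  have := gn (toDual T)
  let π := QuotientGroup.mk' (g (toDual T))
  have su : Function.Surjective π := QuotientGroup.mk'_surjective _
  have le : ∀ x : NL, π.ker ≤ g (toDual x) := fun x => by
    have e : toDual T ⊓ toDual x = toDual T := inf_eq_left.2 (show x.1 ≤ ⊤ from le_top)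
    rw [QuotientGroup.ker_mk', ← e, gm]
    exact inf_le_right
  have c : ∀ x : NL, ((g (toDual x)).map π).comap π = g (toDual x) := fun x =>
    Subgroup.comap_map_eq_self (le x)
  let R : Rep (H ⧸ g (toDual T)) := {
    A x := (g (toDual x)).map π
    hn x := (gn _).map π su
    hi x y := by rw [← Subgroup.map_sup, ← gs]; rfl
    hs x y := Subgroup.comap_injective su (by rw [Subgroup.comap_inf, c, c, c, ← gm]; rfl)
    h0 := QuotientGroup.map_mk'_self _ }
  have k : g (toDual c2.K) ≤ g (toDual z2.K) := by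
    rw [← c, ← c z2.K]; exact Subgroup.comap_mono R.core
  refine ne2 (toDual_le_toDual.1 (inf_eq_left.1 (gi ?_)))
  rw [gm]
  exact inf_eq_left.2 k

end Pool.Agent.S00580
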