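import Pool.Statements.S00591
import Pool.Agent.H.MP_02e21a_al.K

set_option autoImplicit false
open Pool Pool.MP_02e21a_al

namespace Pool.Agent.S00591

theorem result :
  ∀ P : Finset ℕ, (∀ p ∈ P, Nat.Prime p ∧ p ≠ 2) →
    ∃ (n : ℕ) (φ : FreeGroup (Fin n) →* ↥(Subgroup.closure
        {σ : Equiv.Perm ℤ | ∃ r₁ m₁ r₂ m₂ : ℤ,
          0 < m₁ ∧ 0 < m₂ ∧ 0 ≤ r₁ ∧ r₁ < m₁ ∧ 0 ≤ r₂ ∧ r₂ < m₂ ∧
          (∀ k : ℤ, ¬ (k % m₁ = r₁ ∧ k % m₂ = r₂)) ∧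
          (∀ p ∈ Nat.primeFactors m₁.natAbs, p = 2 ∨ p ∈ P) ∧
          (∀ p ∈ Nat.primeFactors m₂.natAbs, p = 2 ∨ p ∈ P) ∧
          ∀ k : ℤ, σ k =
            if k % m₁ = r₁ then (m₂ * k + m₁ * r₂ - m₂ * r₁) / m₁
            else if k % m₂ = r₂ then (m₁ * k + m₂ * r₁ - m₁ * r₂) / m₂
            else k})),
      Function.Surjective φ ∧
        ∃ R : Finset (FreeGroup (Fin n)),
          φ.ker = Subgroup.normalClosure (R : Set (FreeGroup (Fin n))) := by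
  exact fun P hP => Pool.Agent.H.MP_02e21a_al.main P hP

end Pool.Agent.S00591
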