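import Pool.Statements.S00600
import Pool.Agent.H.MP_037dd7_al.Br
import Pool.Agent.H.MP_037dd7_al.Cnt
import Pool.Agent.H.MP_037dd7_al.LowA
import Pool.Agent.H.MP_037dd7_al.LowB
import Pool.Agent.H.MP_037dd7_al.UpA
import Pool.Agent.H.MP_037dd7_al.UpB

set_option autoImplicit false
open Pool Pool.MP_037dd7_al

namespace Pool.Agent.S00600

open Pool.Agent.H.MP_037dd7_al

/-- The negation of the preceding statement: For every finite right self-distributive (X,∗), the rank of augmented one-term distributive homology (∂ = Σ(−1)^i d_i, d_i acting by ∗x_i on earlier entries and deleting x_i) satisfies rk H_{n+1} = ∣X∣·rk H_n for all n ≥ ∣X∣−2. -/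
theorem result :
    ¬ (∀ (X : Type) [Fintype X] (op : X → X → X),
      (∀ a b c : X, op (op a b) c = op (op a c) (op b c)) →
      ∀ D : (m : ℕ) → ((Fin (m + 1) → X) →₀ ℚ) →ₗ[ℚ] ((Fin m → X) →₀ ℚ),
        (∀ m : ℕ, D m = ∑ i : Fin (m + 1), ((-1 : ℚ) ^ (i : ℕ)) •
            Finsupp.lmapDomain ℚ ℚ
              (fun (x : Fin (m + 1) → X) (j : Fin m) =>
                if Fin.castSucc j < i then op (x (i.succAbove j)) (x i)
                else x (i.succAbove j))) →
        ∀ n : ℕ, Fintype.card X ≤ n + 2 →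
          Module.finrank ℚ (LinearMap.ker (D (n + 1))) -
              Module.finrank ℚ (LinearMap.range (D (n + 2))) =
            Fintype.card X *
              (Module.finrank ℚ (LinearMap.ker (D n)) -
                Module.finrank ℚ (LinearMap.range (D (n + 1))))) := by
  intro H
  have h := H (Fin 6) op op_sd DD (fun _ => rfl) 4 (by simp)
  have hu4 : ∀ u, u / 2 ^ 13 = 0 → upChk4 u = true := by
    intro u hu
    rcases (show u / 2 ^ 12 = 0 ∨ u / 2 ^ 12 = 1 by omega) with h | h
    · exact allB_spec _ _ _ u4a u h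
    · exact allB_spec _ _ _ u4b u h
  have hu5 : ∀ u, u < 46656 → upChk5 u = true := by
    intro u hu
    obtain ⟨k, hk⟩ : ∃ k, k = u / 2 ^ 12 := ⟨_, rfl⟩
    have hk2 : k < 12 := by omega
    interval_cases k
    · exact allB_spec _ _ _ up0 u hk.symm
    · exact allB_spec _ _ _ up1 u hk.symm
    · exact allB_spec _ _ _ up2 u hk.symm
    · exact allB_spec _ _ _ up3 u hk.symm
    · exact allB_spec _ _ _ up4 u hk.symm
    · exact allB_spec _ _ _ up5 u hk.symm
    · exact allB_spec _ _ _ up6 u hk.symm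
    · exact allB_spec _ _ _ up7 u hk.symm
    · exact allB_spec _ _ _ up8 u hk.symm
    · exact allB_spec _ _ _ up9 u hk.symm
    · exact allB_spec _ _ _ up10 u hk.symm
    · exact allB_spec _ _ _ up11 u hk.symm
  have hl : ∀ u, u / 2 ^ 16 = 0 → lowChk u = true := by
    intro u hu
    obtain ⟨k, hk⟩ : ∃ k, k = u / 2 ^ 12 := ⟨_, rfl⟩
    have hk2 : k < 16 := by omega
    interval_cases k
    · exact allB_spec _ _ _ low0 u hk.symm
    · exact allB_spec _ _ _ low1 u hk.symm
    · exact allB_spec _ _ _ low2 u hk.symm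
    · exact allB_spec _ _ _ low3 u hk.symm
    · exact allB_spec _ _ _ low4 u hk.symm
    · exact allB_spec _ _ _ low5 u hk.symm
    · exact allB_spec _ _ _ low6 u hk.symm
    · exact allB_spec _ _ _ low7 u hk.symm
    · exact allB_spec _ _ _ low8 u hk.symm
    · exact allB_spec _ _ _ low9 u hk.symm
    · exact allB_spec _ _ _ low10 u hk.symm
    · exact allB_spec _ _ _ low11 u hk.symm
    · exact allB_spec _ _ _ low12 u hk.symm
    · exact allB_spec _ _ _ low13 u hk.symm
    · exact allB_spec _ _ _ low14 u hk.symm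
    · exact allB_spec _ _ _ low15 u hk.symm
  have hs : ∀ (f : ℕ → Bool) (k lo : ℕ),
      cnt f (k + 1) lo = cnt f k (2 * lo) + cnt f k (2 * lo + 1) := fun _ _ _ => rfl
  have hc5 : cnt free5 13 0 = 3175 := by
    rw [hs free5 12 0]; exact c5a
  have hc6 : cnt piv 16 0 = 27614 := by
    rw [hs piv 15]
    simp only [hs piv 14, hs piv 13, hs piv 12, Nat.reduceAdd, Nat.reduceMul, cp0, cp1, cp2, cp3, cp4, cp5, cp6, cp7, cp8, cp9, cp10, cp11, cp12, cp13, cp14, cp15]
  have r4 := r4_le hu4 c4
  have r5 := r5_le hu5 hc5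
  have r6 := r6_ge hl hc6
  have k4 := LinearMap.finrank_range_add_finrank_ker (DD 4)
  have k5 := LinearMap.finrank_range_add_finrank_ker (DD 5)
  rw [Module.finrank_finsupp_self] at k4 k5
  simp only [Fintype.card_fun, Fintype.card_fin, Nat.reduceAdd, Nat.reducePow] at h k4 k5
  omega

end Pool.Agent.S00600
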