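import Pool.Statements.S00609

set_option autoImplicit false
open Pool Pool.MP_042d8e_al

namespace Pool.Agent.S00609

open Set Function

abbrev V := List (ZMod 2)

def pt (g : Equiv.Perm V) (v : V) : ZMod 2 := (g (0 :: v)).headI

def ok (g : Equiv.Perm V) (p : V → ZMod 2) : Prop :=
  g [] = [] ∧ (∀ b v, g (b :: v) = (b + p v) :: g v) ∧ (support p).Finite

lemma ok.eq {g : Equiv.Perm V} {p : V → ZMod 2} (h : ok g p) : pt g = p := by
  ext v; simp [pt, h.2.1]

lemma ok.mul {g h : Equiv.Perm V} {p q : V → ZMod 2} (hg : ok g p) (hh : ok h q) :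
    ok (g * h) fun v => q v + p (h v) :=
  ⟨by simp [hg.1, hh.1], fun b v => by simp [hg.2.1, hh.2.1, add_assoc],
    (hh.2.2.union (hg.2.2.preimage h.injective.injOn)).subset (support_add _ _)⟩

def A : Subgroup (Equiv.Perm V) where
  carrier := {g | ∃ p, ok g p}
  one_mem' := ⟨0, rfl, by simp, by simp⟩
  mul_mem' := by
    rintro g h ⟨p, hp⟩ ⟨q, hq⟩
    exact ⟨_, hp.mul hq⟩
  inv_mem' := by
    rintro g ⟨p, hp⟩
    refine ⟨fun v => - p (g⁻¹ v), by rw [Equiv.Perm.inv_eq_iff_eq, hp.1], fun b v => ?_, ?_⟩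
    · rw [Equiv.Perm.inv_eq_iff_eq, hp.2.1]
      simp [-ZMod.neg_eq_self_mod_two]
    · exact (hp.2.2.preimage (g⁻¹).injective.injOn).subset fun v hv => by simpa using hv

lemma okA (g : A) : ok g.1 (pt g.1) := by
  obtain ⟨p, hp⟩ := g.2
  rwa [hp.eq]

lemma len (g : A) (w : V) : (g.1 w).length = w.length := by
  induction w with
  | nil => rw [(okA g).1]
  | cons b w ih => simp [(okA g).2.1, ih]

lemma fix (g : A) (w : V) (h : ∀ x, x.length < w.length → x <:+ w → pt g.1 x = 0) :
    g.1 w = w := by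
  induction w with
  | nil => exact (okA g).1
  | cons b w ih =>
    rw [(okA g).2.1, h w (by simp) (List.suffix_cons _ _), add_zero,
      ih fun x h1 h2 => h x (by simp; omega) (h2.trans (List.suffix_cons _ _))]

def act (p : V → ZMod 2) : V → V
  | [] => []
  | b :: v => (b + p v) :: act p v

lemma act_bij (p : V → ZMod 2) : Bijective (act p) := by
  constructor
  · intro v w h
    induction v generalizing w with
    | nil => cases w <;> simp_all [act]
    | cons b v ih =>
      cases w with
      | nil => simp [act] at h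
      | cons c w =>
        simp only [act, List.cons.injEq] at h
        obtain rfl := ih h.2
        rw [add_right_cancel h.1]
  · intro w
    induction w with
    | nil => exact ⟨[], rfl⟩
    | cons c w ih =>
      obtain ⟨v, rfl⟩ := ih
      exact ⟨(c - p v) :: v, by simp [act]⟩

lemma ok_t (u : V) (c : ZMod 2) :
    ok (Equiv.ofBijective _ (act_bij (Pi.single u c))) (Pi.single u c) :=
  ⟨rfl, fun _ _ => rfl, (finite_singleton u).subset Pi.support_single_subset⟩

noncomputable def t (u : V) (c : ZMod 2) : A := ⟨_, _, ok_t u c⟩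

lemma pt_t (u : V) (c : ZMod 2) : pt (t u c).1 = Pi.single u c := (ok_t u c).eq

lemma t_fix (u : V) (c : ZMod 2) (w : V) (h : w.length ≤ u.length ∨ ¬ u <:+ w) :
    (t u c).1 w = w := by
  refine fix _ _ fun x h1 h2 => ?_
  rw [pt_t, Pi.single_eq_of_ne]
  rintro rfl
  exact h.elim (by omega) fun h => h h2

lemma trans (v w : V) (h : v.length = w.length) : ∃ g : A, g.1 v = w := by
  induction v generalizing w with
  | nil => exact ⟨1, by simpa using h.symm⟩
  | cons b v ih =>
    cases w with
    | nil => simp at h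
    | cons c w =>
      obtain ⟨g, rfl⟩ := ih w (by simpa using h)
      refine ⟨t (g.1 v) (c - (b + pt g.1 v)) * g, ?_⟩
      simp [(okA _).2.1, pt_t, t_fix]

def St (n : ℕ) : Subgroup A where
  carrier := {g | ∀ v : V, v.length ≤ n → g.1 v = v}
  one_mem' := fun _ _ => rfl
  mul_mem' := fun ha hb v hv => by simp [ha v hv, hb v hv]
  inv_mem' := fun {a} ha v hv => by
    rw [Subgroup.coe_inv, Equiv.Perm.inv_eq_iff_eq, ha v hv]

instance (n : ℕ) : (St n).Normal :=
  ⟨fun h hh g v hv => by
    have := hh (g⁻¹.1 v) (by rwa [len])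
    simp at this
    simp [this]⟩

instance (n : ℕ) : (St n).FiniteIndex := by
  haveI : Finite {v : V // v.length ≤ n} := List.finite_length_le _ n
  haveI := Subgroup.finiteIndex_iInf (f := fun v : {v : V // v.length ≤ n} =>
    MulAction.stabilizer A v.1) fun v => ⟨by
      rw [MulAction.index_stabilizer]
      refine ncard_ne_zero_of_mem (MulAction.mem_orbit_self _)
        ((List.finite_length_eq _ v.1.length).subset ?_)
      rintro _ ⟨g, rfl⟩
      exact len g _⟩
  refine Subgroup.finiteIndex_of_le (H := ⨅ v : {v : V // v.length ≤ n},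
    MulAction.stabilizer A v.1) fun g hg v hv => Subgroup.mem_iInf.1 hg ⟨v, hv⟩

lemma gen (n : ℕ) (K : Subgroup A) (hK : ∀ u c, n ≤ u.length → t u c ∈ K) : St n ≤ K := by
  intro g hg
  induction h : (support (pt g.1)).ncard generalizing g with
  | zero =>
    rw [ncard_eq_zero (okA g).2.2, support_eq_empty_iff] at h
    obtain rfl : g = 1 := Subtype.ext (Equiv.ext fun w => fix g w fun x _ _ => by rw [h]; rfl)
    exact K.one_mem
  | succ k ih =>
    obtain ⟨u, hu⟩ : (support (pt g.1)).Nonempty := nonempty_of_ncard_ne_zero (by omega)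
    have hn : n ≤ u.length := by
      by_contra hn
      exact hu (by simp [pt, hg (0 :: u) (by simp; omega)])
    have h1 : t u (- pt g.1 u) ∈ St n := fun v hv => t_fix _ _ _ (Or.inl (hv.trans hn))
    refine (K.mul_mem_cancel_right (hK u (- pt g.1 u) hn)).1 (ih (mul_mem hg h1) ?_)
    have h2 := t_fix u (- pt g.1 u) u (Or.inl le_rfl)
    have : support (pt (g * t u (- pt g.1 u)).1) =
        (t u (- pt g.1 u)).1 ⁻¹' (support (pt g.1) \ {u}) := by
      ext v
      rw [Subgroup.coe_mul, ((okA g).mul (okA _)).eq, pt_t]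
      by_cases e : v = u
      · simp [e, h2, -ZMod.neg_eq_self_mod_two]
      · have : (t u (- pt g.1 u)).1 v ≠ u := fun e' => e ((t u _).1.injective (e'.trans h2.symm))
        simp [e, this, -ZMod.neg_eq_self_mod_two]
    rw [this, ncard_preimage_of_injective_subset_range (Equiv.injective _) (by simp),
      ncard_diff_singleton_of_mem hu, h]
    rfl

noncomputable def φ (a : ℕ) : A →* Multiplicative (ZMod 2) :=
  MonoidHom.mk' (fun g => Multiplicative.ofAdd
    (∑ᶠ v : V, if v.length.unpair.1 = a then pt g.1 v else 0)) fun g h => by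
    have f (g : A) : (support fun v : V => if v.length.unpair.1 = a then pt g.1 v else 0).Finite :=
      (okA g).2.2.subset fun v hv h => hv (by simp [h])
    rw [← ofAdd_add, ← finsum_comp_equiv h.1 (f := fun v : V =>
      if v.length.unpair.1 = a then pt g.1 v else 0),
      ← finsum_add_distrib ((f g).preimage h.1.injective.injOn) (f h)]
    congr 1
    refine finsum_congr fun v => ?_
    rw [Subgroup.coe_mul, ((okA g).mul (okA _)).eq]
    simp only [len]
    split_ifs <;> simp [add_comm]

lemma φ_t (a : ℕ) (u : V) : φ a (t u 1) = 1 ↔ u.length.unpair.1 ≠ a := by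
  change (∑ᶠ v : V, if v.length.unpair.1 = a then pt (t u 1).1 v else 0) = 0 ↔ _
  rw [finsum_eq_single _ u fun v hv => by simp [pt_t, hv]]
  simp [pt_t]

theorem result :
    ∃ (G : Type) (_ : Group G) (V : Type) (_ : MulAction G V) (lev : V → ℕ) (par : V → V),
      (∀ v w : V, lev v = 0 → lev w = 0 → v = w) ∧
      (∃ v : V, lev v = 0) ∧
      (∀ w : V, lev w = 0 → par w = w) ∧
      (∀ w : V, lev w ≠ 0 → lev (par w) + 1 = lev w) ∧
      (∀ n : ℕ, {v : V | lev v = n}.Finite) ∧
      (∀ v : V, ∃ w₁ w₂ : V, w₁ ≠ w₂ ∧ par w₁ = v ∧ par w₂ = v ∧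
          lev w₁ = lev v + 1 ∧ lev w₂ = lev v + 1) ∧
      (∀ (g : G) (w : V), lev (g • w) = lev w ∧ par (g • w) = g • par w) ∧
      (∀ g : G, (∀ v : V, g • v = v) → g = 1) ∧
      (∀ v w : V, lev v = lev w → ∃ g : G, g • v = w) ∧
      (∀ n : ℕ, (Subgroup.closure {g : G | ∃ v : V, lev v = n ∧
          ∀ w : V, (∀ k : ℕ, par^[k] w ≠ v) → g • w = w}).FiniteIndex) ∧
      ∃ M : ℕ → ℕ → Subgroup G,
        (∀ a : ℕ, Antitone (M a) ∧ (∀ i : ℕ, (M a i).Normal ∧ (M a i).FiniteIndex) ∧
            (⨅ i : ℕ, M a i) = ⊥) ∧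
        (∀ a b : ℕ, a ≠ b →
            ¬ ((∀ i : ℕ, ∃ j : ℕ, M b j ≤ M a i) ∧ (∀ i : ℕ, ∃ j : ℕ, M a j ≤ M b i))) := by
  refine ⟨A, inferInstance, V, inferInstance, List.length, List.tail, fun v w h1 h2 => ?_,
    ⟨[], rfl⟩, fun w h => ?_, fun w h => ?_, fun n => List.finite_length_eq _ n,
    fun v => ⟨0 :: v, 1 :: v, by simp, rfl, rfl, rfl, rfl⟩, fun g w => ⟨len g w, ?_⟩,
    fun g h => Subtype.ext (Equiv.ext h), trans, fun n => Subgroup.finiteIndex_of_le (H := St n)
      (gen n _ fun u c hu => Subgroup.subset_closure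
        ⟨u.drop (u.length - n), by simp; omega, fun w hw => t_fix _ _ _ (Or.inr fun h => ?_)⟩),
    fun a i => St i ⊓ (φ a).ker, fun a => ⟨fun i j hij => inf_le_inf_right _
      fun g hg v hv => hg v (hv.trans hij), fun i => ⟨inferInstance, inferInstance⟩, ?_⟩,
    fun a b hab h => ?_⟩
  · rw [List.length_eq_zero_iff.1 h1, List.length_eq_zero_iff.1 h2]
  · rw [List.length_eq_zero_iff.1 h]; rfl
  · simp; omega
  · change (g.1 w).tail = g.1 w.tail
    cases w with
    | nil => simp [(okA g).1]
    | cons b w => simp [(okA g).2.1]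
  · have this (k : ℕ) (w : V) : List.tail^[k] w = w.drop k := by
      induction k generalizing w with
      | zero => rfl
      | succ k ih => rw [Function.iterate_succ_apply, ih]; simp
    exact hw _ ((this _ _).trans
      (List.suffix_iff_eq_drop.1 ((List.drop_suffix _ _).trans h)).symm)
  · refine eq_bot_iff.2 fun g hg => Subtype.ext (Equiv.ext fun v => ?_)
    exact (Subgroup.mem_iInf.1 hg v.length).1 v le_rfl
  · obtain ⟨j, hj⟩ := h.1 0
    have := (hj (x := t (List.replicate (Nat.pair a j) 0) 1) ⟨fun v hv => t_fix _ _ _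
      (Or.inl (by simpa using hv.trans (Nat.right_le_pair a j))), (φ_t _ _).2 (by simpa)⟩).2
    simpa using (φ_t _ _).1 this

end Pool.Agent.S00609
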