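import Pool.Statements.S00632
import Pool.Agent.H.MP_058405_al.E

set_option autoImplicit false
open Pool Pool.MP_058405_al

namespace Pool.Agent.S00632

theorem result :
    ¬ (∀ (G : Type) [Group G] [Finite G],
      (∃ (ι : Type) (_ : Fintype ι) (n : ι → ℕ),
        Nonempty (MonoidAlgebra ℚ G ≃ₐ[ℚ] ((i : ι) → Matrix (Fin (n i)) (Fin (n i)) ℚ))) →
      ∀ P : Sylow 2 G,
        ∃ (ι : Type) (_ : Fintype ι) (n : ι → ℕ),
          Nonempty (MonoidAlgebra ℚ (↥(P : Subgroup G)) ≃ₐ[ℚ]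
            ((i : ι) → Matrix (Fin (n i)) (Fin (n i)) ℚ))) := by
  intro h
  obtain ⟨P, g, hg⟩ := Pool.Agent.H.MP_058405_al.exists_P
  obtain ⟨ι, _, n, ⟨φ⟩⟩ := h _ Pool.Agent.H.MP_058405_al.GG_split P
  obtain ⟨u, hu⟩ := Pool.Agent.H.MP_058405_al.real_of_split n φ g
  exact hg u hu

end Pool.Agent.S00632
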