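import Pool.Statements.S00638
import Pool.Agent.H.MP_295d35_al.B
import Pool.Agent.H.MP_05ef64_al.C

set_option autoImplicit false
open Pool Pool.MP_05ef64_al

namespace Pool.Agent.S00638

/-- The negation of the preceding statement: For every field, e, and family of numerical semigroups of embedding dimension e, and all 1≤i,j≤e−1: the i-th Betti numbers are uniformly bounded over the family iff the j-th Betti numbers are uniformly bounded. -/
theorem result :
    ¬ (∀ (k : Type) [Field k] (e : ℕ) (F : Set (Fin e → ℕ)),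
    (∀ g ∈ F, StrictMono g ∧
        ((AddSubmonoid.closure (Set.range g) : Set ℕ)ᶜ).Finite ∧
        ∀ j : Fin e, g j ∉ AddSubmonoid.closure (g '' {l | l ≠ j})) →
    ∀ i j : ℕ, 1 ≤ i → i ≤ e - 1 → 1 ≤ j → j ≤ e - 1 →
      ((∃ N : ℕ, ∀ g ∈ F,
          ∃ (r : ℕ → ℕ)
            (d : ∀ n : ℕ, Matrix (Fin (r n)) (Fin (r (n + 1))) (MvPolynomial (Fin e) k)),
            r 0 = 1 ∧
            (∀ v : Fin (r 0) → MvPolynomial (Fin e) k,
              v ∈ LinearMap.range (d 0).mulVecLin ↔
                ∀ a, v a ∈ RingHom.ker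
                  (MvPolynomial.aeval
                    (fun l : Fin e => (Polynomial.X : Polynomial k) ^ g l))) ∧
            (∀ n : ℕ, LinearMap.ker (d n).mulVecLin = LinearMap.range (d (n + 1)).mulVecLin) ∧
            r i ≤ N) ↔
       (∃ N : ℕ, ∀ g ∈ F,
          ∃ (r : ℕ → ℕ)
            (d : ∀ n : ℕ, Matrix (Fin (r n)) (Fin (r (n + 1))) (MvPolynomial (Fin e) k)),
            r 0 = 1 ∧
            (∀ v : Fin (r 0) → MvPolynomial (Fin e) k,
              v ∈ LinearMap.range (d 0).mulVecLin ↔
                ∀ a, v a ∈ RingHom.ker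
                  (MvPolynomial.aeval
                    (fun l : Fin e => (Polynomial.X : Polynomial k) ^ g l))) ∧
            (∀ n : ℕ, LinearMap.ker (d n).mulVecLin = LinearMap.range (d (n + 1)).mulVecLin) ∧
            r j ≤ N))) := by
  intro h
  obtain ⟨N, hN⟩ := (h ℚ (7 + 1) {g | StrictMono g ∧ ∃ N, Bres.Good g N}
    (fun g ⟨h1, _, h2⟩ => ⟨h1, h2.cofin, h2.notmem⟩) (6 + 1) 1 (by omega) le_rfl le_rfl
    (by omega)).1 ⟨1, fun g ⟨_, _, h2⟩ => by
      obtain ⟨F, hF, hF1, hF2⟩ := h2.big
      obtain ⟨F, rfl⟩ := Int.eq_ofNat_of_zero_le (show 0 ≤ F by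
        by_contra h3
        by_cases h4 : F = -1
        · obtain ⟨c, hc⟩ := hF2 1 (by omega)
          have hc : ∑ j, c j * g j = 1 := by exact_mod_cast hc
          have : ∃ j, g j = 1 := by
            by_contra h6
            push Not at h6
            obtain ⟨j, -, hj⟩ := Finset.exists_ne_zero_of_sum_ne_zero (hc ▸ one_ne_zero)
            have h7 := Finset.single_le_sum (f := fun j => c j * g j) (fun _ _ => Nat.zero_le _)
              (Finset.mem_univ j)
            have h8 : 1 * g j ≤ c j * g j :=
              Nat.mul_le_mul_right _ (Nat.pos_of_ne_zero fun h => hj (by simp [h]))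
            have := h6 j
            have := h2.pos j
            omega
          obtain ⟨j, hj⟩ := this
          obtain ⟨i, hi⟩ := exists_ne j
          exact h2.min i (Pi.single j (g i)) (Pi.single_eq_of_ne hi _) (by simp [Pi.single_apply, hj])
        · have := (hF2 (-1) (by omega)).nonneg
          omega)
      have := Gor.gen_sym ℚ (n := 7) (m := 4) (F := F) rfl h2.pos
        (fun h3 => hF1 ((Bres.mem_closure g F).1 h3)) fun z hz => by
          have h3 : Bres.Mem g (F - z) := by
            by_contra h3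
            exact hz ((Bres.mem_closure g z).2 ((hF z).2 h3))
          obtain ⟨s, hs⟩ := Int.eq_ofNat_of_zero_le h3.nonneg
          exact ⟨s, (Bres.mem_closure g s).2 (hs ▸ h3), by omega⟩
      rw [AlgHom.ker_rangeRestrict] at this
      exact this.final _⟩
  obtain ⟨g, h1, h2⟩ := Bres.good8 N
  obtain ⟨r, d, h3, h4, -, h5⟩ := hN g ⟨h1, N, h2⟩
  obtain ⟨Z, hZ, hZ'⟩ := h2.disc
  classical
  let a : Fin (r 0) := ⟨0, by omega⟩
  have := Bres.card_le_poly g h2.pos Z (fun z hz => (hZ' z hz).disc)
    (Finset.univ.image fun c => d 0 a c) (le_antisymm (Ideal.span_le.2 fun f hf => by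
      obtain ⟨c, -, rfl⟩ := Finset.mem_image.1 hf
      simpa using (h4 _).1 ⟨Pi.single c 1, rfl⟩ a) fun f hf => by
      obtain ⟨u, hu⟩ := (h4 fun _ => f).2 fun _ => hf
      rw [← show ∑ c, d 0 a c * u c = f from congrFun hu a]
      exact Ideal.sum_mem _ fun c _ => Ideal.mul_mem_right _ _ (Ideal.subset_span (by simp)))
  have h6 := Finset.card_image_le (s := Finset.univ) (f := fun c => d 0 a c)
  rw [Finset.card_univ, Fintype.card_fin] at h6
  exact absurd (this.trans (h6.trans h5)) hZ.not_ge

end Pool.Agent.S00638
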