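import Pool.Statements.S00643
import Pool.Agent.H.MP_066b7c_al.Val

set_option autoImplicit false
open Pool Pool.MP_066b7c_al

namespace Pool.Agent.S00643

open Pool.Agent.H.MP_066b7c_al Matrix

theorem exists_rho (a b k : ℕ) (h1 : 1 ≤ k) (h2 : k ≤ a * b) :
    ∃ ρ, 1 ≤ ρ ∧ ρ ≤ a ∧ ρ ≤ b ∧ (a - ρ) * (b - ρ) < k ∧ k ≤ (a - ρ + 1) * (b - ρ + 1) := by
  classical
  have hex : ∃ r, (a - r) * (b - r) < k := ⟨a, by simp; omega⟩
  have hs := Nat.find_spec hex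
  have h0 : Nat.find hex ≠ 0 := by
    intro h
    rw [h] at hs
    simp at hs
    omega
  have ha : Nat.find hex ≤ a := Nat.find_min' hex (by simp; omega)
  have hb : Nat.find hex ≤ b := Nat.find_min' hex (by simp; omega)
  have hm := Nat.find_min hex (m := Nat.find hex - 1) (by omega)
  refine ⟨Nat.find hex, by omega, ha, hb, hs, ?_⟩
  rw [show a - Nat.find hex + 1 = a - (Nat.find hex - 1) by omega,
    show b - Nat.find hex + 1 = b - (Nat.find hex - 1) by omega]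
  omega

theorem exists_emb (a b k ρ : ℕ) (ha : ρ ≤ a) (hb : ρ ≤ b) (h : k ≤ (a - ρ + 1) * (b - ρ + 1)) :
    ∃ e : Fin k → ℕ × ℕ, Function.Injective e ∧ (∀ t, (e t).1 + ρ ≤ a) ∧
      ∀ t, (e t).2 + ρ ≤ b := by
  obtain ⟨e⟩ : Nonempty (Fin k ↪ Fin (a - ρ + 1) × Fin (b - ρ + 1)) := by
    apply Function.Embedding.nonempty_of_card_le
    simpa using h
  refine ⟨fun t => ((e t).1.val, (e t).2.val), ?_, fun t => ?_, fun t => ?_⟩
  · intro s t hst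
    apply e.injective
    simp only [Prod.mk.injEq] at hst
    exact Prod.ext (Fin.ext hst.1) (Fin.ext hst.2)
  · have := (e t).1.2; simp only []; omega
  · have := (e t).2.2; simp only []; omega

theorem single_T {a b ρ k : ℕ} (hρ : 1 ≤ ρ) (e : Fin k → ℕ × ℕ) (he : Function.Injective e)
    (h1 : ∀ t, (e t).1 + ρ ≤ a) (h2 : ∀ t, (e t).2 + ρ ≤ b) (d : Fin k → ℂ) (hd : d ≠ 0) :
    ρ ≤ (∑ t, d t • E a b ρ (e t)).rank := by
  have := lemmaT (ρ' := 1) (γ := Unit) (δ := Unit) hρ e he h1 h2 ⊤ (by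
    intro x _ hx
    apply le_rank_of_det x 1 (fun _ => ()) (fun _ => ())
    rw [det_unique]
    intro h
    exact hx (Matrix.ext fun _ _ => h)) (fun t => fun _ _ => d t) (fun _ => trivial) (by
      intro h
      apply hd
      ext t
      exact congrFun (congrFun (congrFun h t) ()) ())
  rw [mul_one] at this
  refine this.trans (le_of_eq ?_)
  rw [← rank_submatrix (∑ t, d t • E a b ρ (e t)) (Equiv.prodUnique (Fin a) Unit)
    (Equiv.prodUnique (Fin b) Unit)]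
  congr 1
  ext ⟨i, x⟩ ⟨j, y⟩
  simp [Matrix.sum_apply, mul_comm]

theorem kron_sum {k1 k2 : ℕ} {α β γ δ : Type} (M : Fin k1 → Matrix α β ℂ)
    (N : Fin k2 → Matrix γ δ ℂ) (c : Fin k1 × Fin k2 → ℂ) :
    ∑ t, c t • kroneckerMap (fun u v : ℂ => u * v) (M t.1) (N t.2) =
      ∑ i, kroneckerMap (fun u v : ℂ => u * v) (M i) (∑ j, c (i, j) • N j) := by
  ext x y
  simp only [Matrix.sum_apply, Matrix.smul_apply, kroneckerMap_apply, smul_eq_mul,
    Fintype.sum_prod_type, Finset.mul_sum]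
  exact Finset.sum_congr rfl fun _ _ => Finset.sum_congr rfl fun _ _ => by ring

theorem kron_prod {k1 k2 : ℕ} {α β γ δ : Type} (M : Fin k1 → Matrix α β ℂ)
    (N : Fin k2 → Matrix γ δ ℂ) (c : Fin k1 → ℂ) (d : Fin k2 → ℂ) :
    kroneckerMap (fun u v : ℂ => u * v) (∑ i, c i • M i) (∑ j, d j • N j) =
      ∑ t : Fin k1 × Fin k2,
        (c t.1 * d t.2) • kroneckerMap (fun u v : ℂ => u * v) (M t.1) (N t.2) := by
  ext x y
  simp only [Matrix.sum_apply, Matrix.smul_apply, kroneckerMap_apply, smul_eq_mul,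
    Fintype.sum_prod_type, Finset.sum_mul_sum]
  exact Finset.sum_congr rfl fun _ _ => Finset.sum_congr rfl fun _ _ => by ring

/-- For all sizes with 1≤k_i≤a_i b_i, off a proper algebraic set of pairs of k_i-tuples of complex a_i×b_i matrices, the min rank of nonzero elements of span(M_i⊗N_j) equals the product of the min ranks of span(M) and span(N). -/
theorem result :
    ∀ (a1 b1 k1 a2 b2 k2 : ℕ), 1 ≤ k1 → k1 ≤ a1 * b1 → 1 ≤ k2 → k2 ≤ a2 * b2 →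
      ∃ P : MvPolynomial ((Fin k1 × Fin a1 × Fin b1) ⊕ (Fin k2 × Fin a2 × Fin b2)) ℂ,
        P ≠ 0 ∧
        ∀ (M : Fin k1 → Matrix (Fin a1) (Fin b1) ℂ) (N : Fin k2 → Matrix (Fin a2) (Fin b2) ℂ),
          MvPolynomial.eval
              (Sum.elim (fun t : Fin k1 × Fin a1 × Fin b1 => M t.1 t.2.1 t.2.2)
                (fun t : Fin k2 × Fin a2 × Fin b2 => N t.1 t.2.1 t.2.2)) P ≠ 0 →
          sInf {r : ℕ | ∃ s ∈ Submodule.span ℂ
              {x : Matrix (Fin a1 × Fin a2) (Fin b1 × Fin b2) ℂ |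
                ∃ i j, x = Matrix.kroneckerMap (fun u v : ℂ => u * v) (M i) (N j)},
              s ≠ 0 ∧ s.rank = r}
            = sInf {r : ℕ | ∃ s ∈ Submodule.span ℂ (Set.range M), s ≠ 0 ∧ s.rank = r} *
              sInf {r : ℕ | ∃ s ∈ Submodule.span ℂ (Set.range N), s ≠ 0 ∧ s.rank = r} := by
  intro a1 b1 k1 a2 b2 k2 hk1 hk1' hk2 hk2'
  obtain ⟨ρ1, hρ1, ha1, hb1, hlt1, hle1⟩ := exists_rho a1 b1 k1 hk1 hk1'
  obtain ⟨ρ2, hρ2, ha2, hb2, hlt2, hle2⟩ := exists_rho a2 b2 k2 hk2 hk2'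
  obtain ⟨e1, he1, h11, h12⟩ := exists_emb a1 b1 k1 ρ1 ha1 hb1 hle1
  obtain ⟨e2, he2, h21, h22⟩ := exists_emb a2 b2 k2 ρ2 ha2 hb2 hle2
  let T : Fin k1 × Fin k2 → Matrix (Fin a1 × Fin a2) (Fin b1 × Fin b2)
      (MvPolynomial ((Fin k1 × Fin a1 × Fin b1) ⊕ (Fin k2 × Fin a2 × Fin b2)) ℂ) :=
    fun t x y => MvPolynomial.X (Sum.inl (t.1, x.1, y.1)) * MvPolynomial.X (Sum.inr (t.2, x.2, y.2))
  have hpen : ∀ (M : Fin k1 → Matrix (Fin a1) (Fin b1) ℂ)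
      (N : Fin k2 → Matrix (Fin a2) (Fin b2) ℂ) (c : Fin k1 × Fin k2 → ℂ),
      pen T (Sum.elim (fun t : Fin k1 × Fin a1 × Fin b1 => M t.1 t.2.1 t.2.2)
        (fun t : Fin k2 × Fin a2 × Fin b2 => N t.1 t.2.1 t.2.2)) c =
      ∑ t, c t • kroneckerMap (fun u v : ℂ => u * v) (M t.1) (N t.2) := by
    intro M N c
    ext x y
    simp [pen, T, Matrix.sum_apply]
  obtain ⟨P, hP, hgood⟩ := lemmaO T (ρ1 * ρ2)
    (Sum.elim (fun t : Fin k1 × Fin a1 × Fin b1 => E a1 b1 ρ1 (e1 t.1) t.2.1 t.2.2)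
      (fun t : Fin k2 × Fin a2 × Fin b2 => E a2 b2 ρ2 (e2 t.1) t.2.1 t.2.2)) (by
    intro c hc
    rw [hpen (fun i => E a1 b1 ρ1 (e1 i)) (fun j => E a2 b2 ρ2 (e2 j)),
      kron_sum (fun i => E a1 b1 ρ1 (e1 i)) (fun j => E a2 b2 ρ2 (e2 j))]
    apply lemmaT hρ1 e1 he1 h11 h12 (Submodule.span ℂ (Set.range fun j => E a2 b2 ρ2 (e2 j)))
    · intro x hx hx0
      obtain ⟨d, rfl⟩ := (Submodule.mem_span_range_iff_exists_fun ℂ).mp hx
      apply single_T hρ2 e2 he2 h21 h22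
      rintro rfl
      simp at hx0
    · intro t
      exact (Submodule.mem_span_range_iff_exists_fun ℂ).mpr ⟨_, rfl⟩
    · intro h
      obtain ⟨⟨i, j⟩, hij⟩ := Function.ne_iff.mp hc
      have h3 := single_T hρ2 e2 he2 h21 h22 (fun j => c (i, j)) (Function.ne_iff.mpr ⟨j, hij⟩)
      rw [show ∑ t, c (i, t) • E a2 b2 ρ2 (e2 t) = 0 from congrFun h i, rank_zero] at h3
      omega)
  refine ⟨P, hP, fun M N hMN => ?_⟩
  have hg : ∀ c : Fin k1 × Fin k2 → ℂ, c ≠ 0 →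
      ρ1 * ρ2 ≤ (∑ t, c t • kroneckerMap (fun u v : ℂ => u * v) (M t.1) (N t.2)).rank := by
    intro c hc
    rw [← hpen]
    exact hgood _ hMN c hc
  have hpos : 1 ≤ ρ1 * ρ2 := Nat.mul_pos hρ1 hρ2
  have hg2 : ∀ (c : Fin k1 → ℂ) (d : Fin k2 → ℂ), c ≠ 0 → d ≠ 0 →
      kroneckerMap (fun u v : ℂ => u * v) (∑ i, c i • M i) (∑ j, d j • N j) ≠ 0 := by
    intro c d hc hd h
    obtain ⟨i, hi⟩ := Function.ne_iff.mp hc
    obtain ⟨j, hj⟩ := Function.ne_iff.mp hd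
    have := hg (fun t => c t.1 * d t.2) (Function.ne_iff.mpr ⟨(i, j), mul_ne_zero hi hj⟩)
    rw [← kron_prod, h, rank_zero] at this
    omega
  have hone : ∀ k : ℕ, 1 ≤ k → (fun _ : Fin k => (1 : ℂ)) ≠ 0 := fun k hk =>
    Function.ne_iff.mpr ⟨⟨0, hk⟩, one_ne_zero⟩
  have hM : LinearIndependent ℂ M := by
    rw [Fintype.linearIndependent_iff]
    intro c hc
    by_contra hne
    apply hg2 c (fun _ => 1) (fun h => hne (congrFun h)) (hone _ hk2)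
    rw [hc]; ext; simp
  have hN : LinearIndependent ℂ N := by
    rw [Fintype.linearIndependent_iff]
    intro c hc
    by_contra hne
    apply hg2 (fun _ => 1) c (hone _ hk1) (fun h => hne (congrFun h))
    rw [hc]; ext; simp
  obtain ⟨x1, hx1, hx10, hx1r⟩ := partA ha1 hb1 (Submodule.span ℂ (Set.range M))
    (by rw [finrank_span_eq_card hM]; simpa using hlt1)
  obtain ⟨x2, hx2, hx20, hx2r⟩ := partA ha2 hb2 (Submodule.span ℂ (Set.range N))
    (by rw [finrank_span_eq_card hN]; simpa using hlt2)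
  have hset : {x : Matrix (Fin a1 × Fin a2) (Fin b1 × Fin b2) ℂ |
      ∃ i j, x = Matrix.kroneckerMap (fun u v : ℂ => u * v) (M i) (N j)} =
      Set.range (fun t : Fin k1 × Fin k2 =>
        Matrix.kroneckerMap (fun u v : ℂ => u * v) (M t.1) (N t.2)) := by
    ext x
    constructor
    · rintro ⟨i, j, rfl⟩; exact ⟨(i, j), rfl⟩
    · rintro ⟨t, rfl⟩; exact ⟨t.1, t.2, rfl⟩
  rw [hset]
  have m1 : x1.rank ∈ {r : ℕ | ∃ s ∈ Submodule.span ℂ (Set.range M), s ≠ 0 ∧ s.rank = r} :=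
    ⟨x1, hx1, hx10, rfl⟩
  have m2 : x2.rank ∈ {r : ℕ | ∃ s ∈ Submodule.span ℂ (Set.range N), s ≠ 0 ∧ s.rank = r} :=
    ⟨x2, hx2, hx20, rfl⟩
  obtain ⟨s1, hs1, hs10, hs1r⟩ := Nat.sInf_mem ⟨_, m1⟩
  obtain ⟨s2, hs2, hs20, hs2r⟩ := Nat.sInf_mem ⟨_, m2⟩
  obtain ⟨c, rfl⟩ := (Submodule.mem_span_range_iff_exists_fun ℂ).mp hs1
  obtain ⟨d, rfl⟩ := (Submodule.mem_span_range_iff_exists_fun ℂ).mp hs2
  have hc : c ≠ 0 := by rintro rfl; simp at hs10
  have hd : d ≠ 0 := by rintro rfl; simp at hs20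
  have m3 : (kroneckerMap (fun u v : ℂ => u * v) (∑ i, c i • M i) (∑ j, d j • N j)).rank ∈
      {r : ℕ | ∃ s ∈ Submodule.span ℂ (Set.range (fun t : Fin k1 × Fin k2 =>
        Matrix.kroneckerMap (fun u v : ℂ => u * v) (M t.1) (N t.2))), s ≠ 0 ∧ s.rank = r} :=
    ⟨_, (Submodule.mem_span_range_iff_exists_fun ℂ).mpr ⟨_, (kron_prod M N c d).symm⟩,
      hg2 c d hc hd, rfl⟩
  apply le_antisymm
  · refine (Nat.sInf_le m3).trans ((rank_kron_le _ _).trans ?_)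
    rw [hs1r, hs2r]
  · obtain ⟨s, hs, hs0, hsr⟩ := Nat.sInf_mem ⟨_, m3⟩
    obtain ⟨c', rfl⟩ := (Submodule.mem_span_range_iff_exists_fun ℂ).mp hs
    rw [← hsr]
    refine le_trans (Nat.mul_le_mul ((Nat.sInf_le m1).trans hx1r) ((Nat.sInf_le m2).trans hx2r))
      (hg c' ?_)
    rintro rfl
    simp at hs0

end Pool.Agent.S00643
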