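import Pool.Statements.S00658
import Pool.Agent.H.MP_08b069_al.C

set_option autoImplicit false
open Pool Pool.MP_08b069_al

namespace Pool.Agent.S00658

theorem result :
    ¬ (∀ X : (G : Type) → [Group G] → Prop,
      ((∀ (G : Type) [Group G], X G → Finite G ∧ IsSolvable G) ∧
        (∀ (G H : Type) [Group G] [Group H], Nonempty (G ≃* H) → X G → X H) ∧
        (∀ (G : Type) [Group G] (N : Subgroup G) [N.Normal], X G → X (G ⧸ N)) ∧
        (∀ (G : Type) [Group G] [Finite G], IsSolvable G →
          (∀ (N : Subgroup G) [N.Normal],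
            (∃ M : Subgroup (G ⧸ N), IsCoatom M ∧ M.normalCore = ⊥) → X (G ⧸ N)) → X G)) →
      (∃ (G : Type) (_ : Group G), X G ∧ Nontrivial G) →
      ∃ A : (G : Type) → [Group G] → Prop,
        ((∀ (G : Type) [Group G], A G → Finite G ∧ IsSolvable G) ∧
          (∀ (G H : Type) [Group G] [Group H], Nonempty (G ≃* H) → A G → A H) ∧
          (∀ (G : Type) [Group G] (N : Subgroup G) [N.Normal], A G → A (G ⧸ N)) ∧
          (∀ (G : Type) [Group G] [Finite G], IsSolvable G →
            (∀ (N : Subgroup G) [N.Normal],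
              (∃ M : Subgroup (G ⧸ N), IsCoatom M ∧ M.normalCore = ⊥) → A (G ⧸ N)) → A G)) ∧
        (∃ (G : Type) (_ : Group G), A G ∧ Nontrivial G) ∧
        (∀ B : (G : Type) → [Group G] → Prop,
          ((∀ (G : Type) [Group G], B G → Finite G ∧ IsSolvable G) ∧
            (∀ (G H : Type) [Group G] [Group H], Nonempty (G ≃* H) → B G → B H) ∧
            (∀ (G : Type) [Group G] (N : Subgroup G) [N.Normal], B G → B (G ⧸ N)) ∧
            (∀ (G : Type) [Group G] [Finite G], IsSolvable G →
              (∀ (N : Subgroup G) [N.Normal],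
                (∃ M : Subgroup (G ⧸ N), IsCoatom M ∧ M.normalCore = ⊥) → B (G ⧸ N)) → B G)) →
          (∀ (G : Type) [Group G] [Finite G], IsSolvable G →
            ∃ E F : Subgroup G,
              (∀ (N : Subgroup G) [N.Normal],
                B ↥(E.map (QuotientGroup.mk' N)) ∧
                ∀ K : Subgroup (G ⧸ N), E.map (QuotientGroup.mk' N) ≤ K → B ↥K →
                  K = E.map (QuotientGroup.mk' N)) ∧
              (∀ (N : Subgroup G) [N.Normal],
                A ↥(F.map (QuotientGroup.mk' N)) ∧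
                ∀ K : Subgroup (G ⧸ N), F.map (QuotientGroup.mk' N) ≤ K → A ↥K →
                  K = F.map (QuotientGroup.mk' N)) ∧
              E ≤ F) →
          (∀ (G : Type) [Group G], B G → Subsingleton G) ∨
            (∀ (G : Type) [Group G], B G ↔ A G)) ∧
        (∀ (G : Type) [Group G] [Finite G], IsSolvable G →
          ∃ E F : Subgroup G,
            (∀ (N : Subgroup G) [N.Normal],
              A ↥(E.map (QuotientGroup.mk' N)) ∧
              ∀ K : Subgroup (G ⧸ N), E.map (QuotientGroup.mk' N) ≤ K → A ↥K →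
                K = E.map (QuotientGroup.mk' N)) ∧
            (∀ (N : Subgroup G) [N.Normal],
              X ↥(F.map (QuotientGroup.mk' N)) ∧
              ∀ K : Subgroup (G ⧸ N), F.map (QuotientGroup.mk' N) ≤ K → X ↥K →
                K = F.map (QuotientGroup.mk' N)) ∧
            E ≤ F)) := by
  intro h
  have : Fact (Nat.Prime 2) := ⟨Nat.prime_two⟩
  obtain ⟨A, a, b, c, d⟩ := h (H.MP_08b069_al.T 0)
    (H.MP_08b069_al.sch_iff.1 H.MP_08b069_al.T_sch)
    ⟨_, inferInstance, H.MP_08b069_al.TZ (p := 2) two_pos, inferInstance⟩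
  obtain ⟨D, e, f, g, i⟩ := H.MP_08b069_al.main (H.MP_08b069_al.sch_iff.2 a) (fun G _ hG => by
    have := hG.1
    obtain ⟨E, F, x, y, z⟩ := d G hG.2
    exact ⟨E, F, H.MP_08b069_al.proj_iff.2 x, H.MP_08b069_al.proj_iff.2 y, z⟩) b
  refine (c D (H.MP_08b069_al.sch_iff.1 e) fun G _ _ hG => ?_).elim g i
  obtain ⟨E, F, x, y, z⟩ := f G ⟨‹_›, hG⟩
  exact ⟨E, F, H.MP_08b069_al.proj_iff.1 x, H.MP_08b069_al.proj_iff.1 y, z⟩

end Pool.Agent.S00658
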