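import Pool.Statements.S00661

set_option autoImplicit false
open Pointwise
open Pool Pool.MP_08cc25_al

namespace Pool.Agent.S00661

open Set Cardinal

/-- A length function built from left coset representatives along a well-ordered generating
family. -/
theorem exists_len {G ι : Type} [Group G] [LinearOrder ι] [WellFoundedLT ι] (e : ι → G)
    (he : Function.Surjective e) :
    ∃ ℓ : G → ℕ, ∀ T : Set ι, IsLowerSet T → ∀ u, u ∉ Subgroup.closure (e '' T) →
      ∃ r : G, ∃ H : Subgroup G, Subgroup.closure (e '' T) ≤ H ∧ r⁻¹ * u ∈ H ∧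
        ∀ h ∈ H, ℓ (r * h) = ℓ h + 1 := by
  classical
  let K : Set ι → Subgroup G := fun S => Subgroup.closure (e '' S)
  have Kmono : ∀ {S T : Set ι}, S ⊆ T → K S ≤ K T := fun h =>
    Subgroup.closure_mono (image_mono h)
  have hex : ∀ g : G, {i | g ∈ K (Iic i)}.Nonempty := by
    intro g
    obtain ⟨i, rfl⟩ := he g
    exact ⟨i, Subgroup.subset_closure ⟨i, le_refl i, rfl⟩⟩
  let α : G → ι := fun g => WellFounded.min wellFounded_lt _ (hex g)
  have hα1 : ∀ g, g ∈ K (Iic (α g)) := fun g => WellFounded.min_mem wellFounded_lt _ (hex g)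
  have hα2 : ∀ g i, g ∈ K (Iic i) → α g ≤ i := fun g i h =>
    not_lt.1 (WellFounded.not_lt_min wellFounded_lt {i | g ∈ K (Iic i)} (x := i) h)
  have hlt : ∀ a g, g ∈ K (Iio a) → g = 1 ∨ α g < a := by
    intro a g hg
    have : g = 1 ∨ ∃ i < a, g ∈ K (Iic i) := by
      induction hg using Subgroup.closure_induction with
      | mem x hx =>
        obtain ⟨i, hi, rfl⟩ := hx
        exact Or.inr ⟨i, hi, Subgroup.subset_closure ⟨i, le_refl i, rfl⟩⟩
      | one => exact Or.inl rfl
      | mul x y _ _ hx hy =>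
        rcases hx with rfl | ⟨i, hi, hx⟩
        · simpa using hy
        rcases hy with rfl | ⟨j, hj, hy⟩
        · exact Or.inr ⟨i, hi, by simpa using hx⟩
        · exact Or.inr ⟨max i j, max_lt hi hj,
            mul_mem (Kmono (Iic_subset_Iic.2 (le_max_left _ _)) hx)
              (Kmono (Iic_subset_Iic.2 (le_max_right _ _)) hy)⟩
      | inv x _ hx =>
        rcases hx with rfl | ⟨i, hi, hx⟩
        · simp
        · exact Or.inr ⟨i, hi, inv_mem hx⟩
    rcases this with h | ⟨i, hi, h⟩
    · exact Or.inl h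
    · exact Or.inr ((hα2 g i h).trans_lt hi)
  let R : ι → G → G := fun a g => ((g : G ⧸ K (Iio a))).out
  have hR : ∀ a g, (R a g)⁻¹ * g ∈ K (Iio a) := by
    intro a g
    rw [← QuotientGroup.eq]
    exact QuotientGroup.out_eq' _
  have hR2 : ∀ a g h, h ∈ K (Iio a) → R a (g * h) = R a g := by
    intro a g h hh
    have : ((g * h : G) : G ⧸ K (Iio a)) = (g : G ⧸ K (Iio a)) :=
      QuotientGroup.mk_mul_of_mem g hh
    simp only [R, this]
  let d : G → G := fun g => (R (α g) g)⁻¹ * g
  have hterm : ∀ a : ι, ∀ g, α g = a → ∃ n, d^[n] g = 1 := by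
    intro a
    induction a using WellFoundedLT.induction with
    | ind a ih =>
      intro g hg
      rcases hlt _ _ (hR (α g) g) with h | h
      · exact ⟨1, h⟩
      · obtain ⟨n, hn⟩ := ih _ (hg ▸ h) (d g) rfl
        exact ⟨n + 1, by rw [Function.iterate_succ_apply]; exact hn⟩
  have hterm' : ∀ g, ∃ n, d^[n] g = 1 := fun g => hterm _ g rfl
  let ℓ : G → ℕ := fun g => Nat.find (hterm' g)
  have hℓ : ∀ g, g ≠ 1 → ℓ g = ℓ (d g) + 1 := by
    intro g hg
    apply le_antisymm
    · apply Nat.find_min'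
      rw [Function.iterate_succ_apply]
      exact Nat.find_spec (hterm' (d g))
    · have h0 : ℓ g ≠ 0 := by
        intro h0
        have := Nat.find_spec (hterm' g)
        simp only [ℓ] at h0
        rw [h0] at this
        exact hg this
      obtain ⟨m, hm⟩ := Nat.exists_eq_succ_of_ne_zero h0
      have h1 := Nat.find_spec (hterm' g)
      have hm' : Nat.find (hterm' g) = m + 1 := hm
      rw [hm', Function.iterate_succ_apply] at h1
      have : ℓ (d g) ≤ m := Nat.find_min' _ h1
      omega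
  refine ⟨ℓ, fun T hT u hu => ?_⟩
  have hu1 : u ≠ 1 := by
    rintro rfl
    exact hu (one_mem _)
  have hTsub : T ⊆ Iio (α u) := by
    intro t ht
    by_contra hlt'
    have hle : α u ≤ t := not_lt.1 hlt'
    exact hu (Kmono (fun i hi => hT (le_trans hi hle) ht) (hα1 u))
  have hnot : u ∉ K (Iio (α u)) := by
    intro h
    rcases hlt _ _ h with h | h
    · exact hu1 h
    · exact lt_irrefl _ h
  refine ⟨R (α u) u, K (Iio (α u)), Kmono hTsub, hR _ _, fun h hh => ?_⟩
  have hh' : ((R (α u) u)⁻¹ * u)⁻¹ * h ∈ K (Iio (α u)) := mul_mem (inv_mem (hR _ _)) hh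
  have heq : R (α u) u * h = u * (((R (α u) u)⁻¹ * u)⁻¹ * h) := by group
  set h' := ((R (α u) u)⁻¹ * u)⁻¹ * h with hh'def
  have hnot' : u * h' ∉ K (Iio (α u)) := by
    intro h1
    apply hnot
    have := mul_mem h1 (inv_mem hh')
    simpa using this
  have hne : u * h' ≠ 1 := by
    intro h1
    exact hnot' (h1 ▸ one_mem _)
  have hαeq : α (u * h') = α u := by
    apply le_antisymm
    · exact hα2 _ _ (mul_mem (hα1 u) (Kmono Iio_subset_Iic_self hh'))
    · by_contra hc
      have hc' : α (u * h') < α u := not_le.1 hc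
      exact hnot' (Kmono (fun i hi => lt_of_le_of_lt hi hc') (hα1 _))
  rw [heq, hℓ _ hne]
  congr 2
  simp only [d]
  rw [hαeq, hR2 _ _ _ hh', ← heq]
  group

theorem card_closure_le {G : Type} [Group G] (s : Set G) :
    #(Subgroup.closure s) ≤ max #s ℵ₀ := by
  rcases s.eq_empty_or_nonempty with rfl | hs
  · rw [Subgroup.closure_empty]
    exact le_max_of_le_right mk_le_aleph0
  · have : Nonempty s := hs.to_subtype
    rw [FreeGroup.closure_eq_range, ← mk_freeGroup]
    exact mk_range_le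

theorem key {G : Type} [Group G] [Infinite G] :
    ∃ ℓ : G → ℕ, ∀ n, ∀ F : Set G, #F < #G → ∃ g, ∀ f ∈ F, ℓ (f⁻¹ * g) ≠ n := by
  classical
  rcases eq_or_lt_of_le (aleph0_le_mk G) with hc | hc
  · have : Countable G := mk_le_aleph0_iff.1 hc.ge
    obtain ⟨enc, henc⟩ := exists_injective_nat G
    refine ⟨enc, fun n F hF => ?_⟩
    have hFfin : F.Finite := by
      rw [← hc] at hF
      exact lt_aleph0_iff_set_finite.1 hF
    have hA : (enc ⁻¹' {n}).Finite := (finite_singleton n).preimage henc.injOn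
    obtain ⟨g, hg⟩ := (hFfin.mul hA).infinite_compl.nonempty
    refine ⟨g, fun f hf h => hg ⟨f, hf, f⁻¹ * g, h, by simp⟩⟩
  let ι := (#G).ord.ToType
  have hι : #ι = #G := mk_ord_toType _
  obtain ⟨e⟩ : Nonempty (ι ≃ G) := Cardinal.eq.1 hι
  obtain ⟨ℓ, hℓ⟩ := exists_len e e.surjective
  let K : Set ι → Subgroup G := fun S => Subgroup.closure (e '' S)
  have Kmono : ∀ {S T : Set ι}, S ⊆ T → K S ≤ K T := fun h =>
    Subgroup.closure_mono (image_mono h)
  have hIio : ∀ i : ι, #(Iio i) < #G := by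
    intro i
    have := mk_Iio_lt i (by simp [ι])
    rwa [hι] at this
  have hIic : ∀ i : ι, #(Iic i) < #G := by
    intro i
    rw [← Iio_insert]
    refine (mk_insert_le).trans_lt ?_
    exact add_lt_of_lt (aleph0_le_mk G) (hIio i) (one_lt_aleph0.trans hc)
  have hK : ∀ T : Set ι, #T < #G → #(K T) < #G := by
    intro T hT
    refine (card_closure_le _).trans_lt (max_lt (mk_image_le.trans_lt hT) hc)
  by_cases hreg : Cardinal.IsRegular #G
  · have step : ∀ n : ℕ, ∀ T : Set ι, IsLowerSet T → #T < #G →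
        ∃ g, ∀ h ∈ K T, n ≤ ℓ (g * h) := by
      intro n
      induction n with
      | zero => intro T _ _; exact ⟨1, fun _ _ => Nat.zero_le _⟩
      | succ n ih =>
        intro T hT hTc
        obtain ⟨g, hg⟩ := ih T hT hTc
        have hT' : IsLowerSet (T ∪ Iic (e.symm g)) := hT.union (isLowerSet_Iic _)
        have hTc' : #(T ∪ Iic (e.symm g) : Set ι) < #G :=
          (mk_union_le _ _).trans_lt (add_lt_of_lt (aleph0_le_mk G) hTc (hIic _))
        obtain ⟨u, hu⟩ : ∃ u, u ∉ K (T ∪ Iic (e.symm g)) := by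
          by_contra hcon
          push Not at hcon
          have h1 := hK _ hTc'
          have h2 : (K (T ∪ Iic (e.symm g)) : Set G) = Set.univ := eq_univ_of_forall hcon
          have h3 : #(K (T ∪ Iic (e.symm g))) = #G := by
            change #((K (T ∪ Iic (e.symm g)) : Set G)) = #G
            rw [h2, mk_univ]
          exact h1.ne h3
        obtain ⟨r, H, hH, -, hr⟩ := hℓ _ hT' u hu
        refine ⟨r * g, fun h hh => ?_⟩
        have hgH : g ∈ H := hH (Subgroup.subset_closure ⟨e.symm g, Or.inr (mem_Iic.2 (le_refl _)), by simp⟩)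
        have hhH : h ∈ H := hH (Kmono subset_union_left hh)
        rw [mul_assoc, hr _ (mul_mem hgH hhH)]
        exact Nat.succ_le_succ (hg h hh)
    refine ⟨fun g => ℓ g⁻¹, fun n F hF => ?_⟩
    obtain ⟨g, hg⟩ := step (n + 1) (⋃ f : F, Iic (e.symm f))
      (isLowerSet_iUnion fun f => isLowerSet_Iic _)
      ((card_iUnion_lt_iff_forall_of_isRegular hreg hF).2 fun f => hIic _)
    refine ⟨g⁻¹, fun f hf h => ?_⟩
    have hfK : f ∈ K (⋃ f : F, Iic (e.symm f)) :=
      Subgroup.subset_closure ⟨e.symm f, mem_iUnion.2 ⟨⟨f, hf⟩, mem_Iic.2 (le_refl _)⟩, by simp⟩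
    have := hg f hfK
    simp only [mul_inv_rev, inv_inv] at h
    omega
  · have hlim : ∀ μ : Cardinal, ℵ₀ ≤ μ → μ < #G → ∃ i : ι, μ < #(Iio i) := by
      intro μ h0 hμ
      have h1 : Order.succ μ < #G := by
        rcases eq_or_lt_of_le (Order.succ_le_of_lt hμ) with h | h
        · exact absurd (h ▸ isRegular_succ h0) hreg
        · exact h
      have h2 : (Order.succ μ).ord < Ordinal.type (α := ι) (· < ·) := by
        rw [Ordinal.type_toType]
        exact ord_lt_ord.2 h1
      refine ⟨Ordinal.enum (α := ι) (· < ·) ⟨_, h2⟩, ?_⟩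
      have h3 := Ordinal.card_typein (r := ((· < ·) : ι → ι → Prop))
        (Ordinal.enum (α := ι) (· < ·) ⟨_, h2⟩)
      rw [Ordinal.typein_enum, card_ord] at h3
      exact (Order.lt_succ μ).trans_eq h3
    have lemA : ∀ S : Set ι, IsLowerSet S → ∀ m : ℕ, ∀ f, ℓ f = m →
        ∃ f' ∈ K S, ∀ h ∈ K S, ℓ (f' * h) ≤ ℓ (f * h) := by
      intro S hS m
      induction m using Nat.strong_induction_on with
      | _ m ih =>
        intro f hf
        by_cases hfS : f ∈ K S
        · exact ⟨f, hfS, fun _ _ => le_refl _⟩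
        obtain ⟨r, H, hH, hd, hr⟩ := hℓ S hS f hfS
        have h1 := hr _ hd
        rw [mul_inv_cancel_left] at h1
        obtain ⟨f', hf', hf''⟩ := ih (ℓ (r⁻¹ * f)) (by omega) _ rfl
        refine ⟨f', hf', fun h hh => ?_⟩
        have h2 := hr _ (mul_mem hd (hH hh))
        have h3 : r * (r⁻¹ * f * h) = f * h := by group
        rw [h3] at h2
        have := hf'' h hh
        omega
    have step : ∀ μ : Cardinal, ℵ₀ ≤ μ → μ < #G → ∀ n : ℕ, ∃ T : Set ι, IsLowerSet T ∧ #T < #G ∧
        ∀ F : Set G, #F ≤ μ → ∃ g ∈ K T, ∀ f ∈ F, n ≤ ℓ (f * g) := by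
      intro μ h0 hμ n
      induction n with
      | zero =>
        exact ⟨∅, isLowerSet_empty, by simpa using (aleph0_pos.trans hc),
          fun F _ => ⟨1, one_mem _, fun _ _ => Nat.zero_le _⟩⟩
      | succ n ih =>
        obtain ⟨T, hT, hTc, hTF⟩ := ih
        obtain ⟨i, hi⟩ := hlim (max μ #(K T)) (le_max_of_le_left h0) (max_lt hμ (hK T hTc))
        have hT' : IsLowerSet (T ∪ Iio i) := hT.union (isLowerSet_Iio _)
        refine ⟨T ∪ Iio i, hT',
          (mk_union_le _ _).trans_lt (add_lt_of_lt (aleph0_le_mk G) hTc (hIio _)), fun F hF => ?_⟩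
        choose φ hφ1 hφ2 using fun f => lemA _ hT' _ f rfl
        obtain ⟨g', hg'1, hg'2⟩ : ∃ g' ∈ K (T ∪ Iio i), ∀ f ∈ F, φ f * g' ∉ K T := by
          by_contra hcon
          push Not at hcon
          have hsub : (e '' Iio i) ⊆ range (fun p : F × K T => (φ p.1)⁻¹ * (p.2 : G)) := by
            intro x hx
            obtain ⟨f, hf, hfx⟩ := hcon x
              (Subgroup.subset_closure (image_mono subset_union_right hx))
            exact ⟨(⟨f, hf⟩, ⟨_, hfx⟩), by simp⟩
          have h1 : #(e '' Iio i) ≤ max μ #(K T) := by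
            refine (mk_le_mk_of_subset hsub).trans (mk_range_le.trans ?_)
            rw [mk_prod, lift_id, lift_id]
            refine (mul_le_mul' (hF.trans (le_max_left μ #(K T))) (le_max_right μ #(K T))).trans ?_
            rw [mul_eq_self (le_max_of_le_left h0)]
          rw [mk_image_eq e.injective] at h1
          exact absurd hi (not_lt.2 h1)
        have hψ : ∀ f : F, ∃ u' : G, ∀ h ∈ K T, ℓ (φ f * g' * h) = ℓ (u' * h) + 1 := by
          intro f
          obtain ⟨r, H, hH, hd, hr⟩ := hℓ T hT _ (hg'2 f f.2)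
          refine ⟨r⁻¹ * (φ f * g'), fun h hh => ?_⟩
          rw [← hr _ (mul_mem hd (hH hh))]
          congr 1
          group
        choose ψ hψ using hψ
        obtain ⟨g, hg1, hg2⟩ := hTF (range ψ) (mk_range_le.trans hF)
        have hgT' : g ∈ K (T ∪ Iio i) := Kmono subset_union_left hg1
        refine ⟨g' * g, mul_mem hg'1 hgT', fun f hf => ?_⟩
        have h1 := hφ2 f _ (mul_mem hg'1 hgT')
        have h2 := hψ ⟨f, hf⟩ g hg1
        have h3 := hg2 _ (mem_range_self (⟨f, hf⟩ : F))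
        rw [← mul_assoc] at h1
        simp only at h2
        omega
    refine ⟨ℓ, fun n F hF => ?_⟩
    obtain ⟨T, -, -, hT⟩ := step (max #F ℵ₀) (le_max_right _ _) (max_lt hF hc) (n + 1)
    obtain ⟨g, -, hg⟩ := hT ((fun f => f⁻¹) '' F) (mk_image_le.trans (le_max_left _ _))
    refine ⟨g, fun f hf h => ?_⟩
    have := hg f⁻¹ ⟨f, hf, rfl⟩
    omega

theorem result :
    ∀ (G : Type) [Group G], Infinite G →
      ∃ A : ℕ → Set G,
        (⋃ n, A n) = Set.univ ∧
        Pairwise (fun i j => Disjoint (A i) (A j)) ∧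
        ∀ n, ¬ ∃ F : Set G, Cardinal.mk F < Cardinal.mk G ∧ F * A n = Set.univ := by
  intro G _ hG
  obtain ⟨ℓ, hℓ⟩ := key (G := G)
  refine ⟨fun n => ℓ ⁻¹' {n}, ?_, ?_, ?_⟩
  · exact eq_univ_of_forall fun g => mem_iUnion.2 ⟨ℓ g, rfl⟩
  · intro i j hij
    exact Set.disjoint_left.2 fun g hi hj => hij ((mem_singleton_iff.1 hi).symm.trans hj)
  · rintro n ⟨F, hF, hFA⟩
    obtain ⟨g, hg⟩ := hℓ n F hF
    have : g ∈ F * ℓ ⁻¹' {n} := hFA ▸ mem_univ g
    obtain ⟨f, hf, a, ha, rfl⟩ := this
    exact hg f hf (by simpa using ha)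

end Pool.Agent.S00661
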