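import Pool.Statements.S00684

set_option autoImplicit false
open Pool Pool.MP_0b625c_al

namespace Pool.Agent.S00684

open Filter Topology

/-- A weight on the circle: positive, at most one, and not bounded away from zero. -/
noncomputable def wt (q : Circle) : ℝ := by
  classical
  exact if q = 1 then 1 else dist q 1 / 2

lemma circle_dist (a b : Circle) : dist a b = ‖(a : ℂ) - (b : ℂ)‖ := by
  rw [← dist_eq_norm]; rfl

lemma circle_dist_le (a b : Circle) : dist a b ≤ 2 := by
  rw [circle_dist]
  calc ‖(a : ℂ) - (b : ℂ)‖ ≤ ‖(a : ℂ)‖ + ‖(b : ℂ)‖ := norm_sub_le _ _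
    _ = 2 := by rw [Circle.norm_coe, Circle.norm_coe]; norm_num

lemma wt_pos (q : Circle) : 0 < wt q := by
  unfold wt
  split_ifs with h
  · norm_num
  · have := dist_pos.mpr h
    positivity

lemma wt_le (q : Circle) : wt q ≤ 1 := by
  unfold wt
  split_ifs with h
  · exact le_rfl
  · have := circle_dist_le q 1
    linarith

lemma wt_small (δ : ℝ) (hδ : 0 < δ) : ∃ q : Circle, wt q < δ := by
  have hc : Continuous fun t : ℝ => Circle.exp t := Circle.exp.continuous
  have h0 : ∀ᶠ t in 𝓝 (0 : ℝ), dist (Circle.exp t) (Circle.exp 0) < δ :=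
    (Metric.tendsto_nhds.mp (hc.tendsto 0)) δ hδ
  obtain ⟨η, hη, hball⟩ := Metric.eventually_nhds_iff.mp h0
  set t : ℝ := min (η / 2) 1 with ht
  have ht0 : 0 < t := lt_min (by linarith) one_pos
  have ht1 : t ≤ 1 := min_le_right _ _
  have ht2 : t < η := lt_of_le_of_lt (min_le_left _ _) (by linarith)
  have hd : dist (Circle.exp t) (Circle.exp 0) < δ := by
    apply hball
    rw [Real.dist_eq, sub_zero, abs_of_pos ht0]
    exact ht2
  refine ⟨Circle.exp t, ?_⟩
  have hne : Circle.exp t ≠ 1 := by
    intro h
    rw [Circle.exp_eq_one] at h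
    obtain ⟨n, hn⟩ := h
    have hpi := Real.pi_gt_three
    rcases lt_trichotomy n 0 with h1 | h1 | h1
    · have : (n : ℝ) < 0 := by exact_mod_cast h1
      nlinarith
    · subst h1
      simp at hn
      linarith
    · have : (1 : ℝ) ≤ n := by exact_mod_cast h1
      nlinarith
  unfold wt
  rw [if_neg hne]
  rw [Circle.exp_zero] at hd
  have := dist_nonneg (x := Circle.exp t) (y := 1)
  linarith

/-- The same group with the weighted sup metric. -/
def W : Type := Circle → Circle

noncomputable instance : CommGroup W := inferInstanceAs (CommGroup (Circle → Circle))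

noncomputable def wd (x y : Circle → Circle) : ℝ := ⨆ q, wt q * dist (x q) (y q)

lemma wd_bdd (x y : Circle → Circle) :
    BddAbove (Set.range fun q => wt q * dist (x q) (y q)) := by
  refine ⟨2, ?_⟩
  rintro _ ⟨q, rfl⟩
  have h1 := wt_pos q
  have h2 := wt_le q
  have h3 := circle_dist_le (x q) (y q)
  have h4 := dist_nonneg (x := x q) (y := y q)
  show wt q * dist (x q) (y q) ≤ 2
  nlinarith

lemma le_wd (x y : Circle → Circle) (q : Circle) : wt q * dist (x q) (y q) ≤ wd x y :=
  le_ciSup (wd_bdd x y) q

lemma wd_le (x y : Circle → Circle) (c : ℝ) (h : ∀ q, wt q * dist (x q) (y q) ≤ c) :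
    wd x y ≤ c := ciSup_le h

noncomputable instance : MetricSpace W where
  dist x y := wd x y
  dist_self x := by simp [wd]
  dist_comm x y := by simp [wd, dist_comm]
  dist_triangle x y z := by
    apply wd_le
    intro q
    have h1 := le_wd x y q
    have h2 := le_wd y z q
    have h3 := dist_triangle (x q) (y q) (z q)
    have h4 := wt_pos q
    nlinarith
  eq_of_dist_eq_zero := by
    intro x y h
    funext q
    have h1 := le_wd x y q
    have h4 := wt_pos q
    have h5 := dist_nonneg (x := x q) (y := y q)
    have h' : wd x y = 0 := h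
    have : dist (x q) (y q) = 0 := by nlinarith
    exact dist_eq_zero.mp this

lemma W_dist (x y : W) : dist x y = wd x y := rfl

lemma circle_dist_mul (a b c d : Circle) : dist (a * b) (c * d) ≤ dist a c + dist b d := by
  have e := circle_dist
  rw [e, e, e, Circle.coe_mul, Circle.coe_mul]
  have : (a : ℂ) * b - c * d = (a - c) * b + c * (b - d) := by ring
  rw [this]
  calc ‖((a : ℂ) - c) * b + c * (b - d)‖ ≤ ‖((a : ℂ) - c) * b‖ + ‖(c : ℂ) * (b - d)‖ :=
        norm_add_le _ _
    _ = ‖(a : ℂ) - c‖ + ‖(b : ℂ) - d‖ := by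
        rw [norm_mul, norm_mul, Circle.norm_coe, Circle.norm_coe]; ring

lemma circle_dist_inv (a b : Circle) : dist a⁻¹ b⁻¹ = dist a b := by
  have e := circle_dist
  rw [e, e, Circle.coe_inv_eq_conj, Circle.coe_inv_eq_conj, ← map_sub, Complex.norm_conj]

instance : IsTopologicalGroup W where
  continuous_mul := by
    have : LipschitzWith 2 (fun p : W × W => p.1 * p.2) := by
      apply LipschitzWith.of_dist_le_mul
      intro p p'
      rw [W_dist]
      apply wd_le
      intro q
      have h1 := le_wd p.1 p'.1 q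
      have h2 := le_wd p.2 p'.2 q
      have h3 : dist ((p.1 * p.2 : W) q) ((p'.1 * p'.2 : W) q) ≤
          dist (p.1 q) (p'.1 q) + dist (p.2 q) (p'.2 q) := circle_dist_mul _ _ _ _
      have h4 := wt_pos q
      have h5 : wd p.1 p'.1 ≤ dist p p' := le_max_left _ _
      have h6 : wd p.2 p'.2 ≤ dist p p' := le_max_right _ _
      have h7 : ((2 : NNReal) : ℝ) = 2 := rfl
      rw [h7]
      nlinarith
    exact this.continuous
  continuous_inv := by
    have : LipschitzWith 1 (fun p : W => p⁻¹) := by
      apply LipschitzWith.of_dist_le_mul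
      intro p p'
      rw [W_dist]
      apply wd_le
      intro q
      have h1 := le_wd p p' q
      have h3 : dist ((p⁻¹ : W) q) ((p'⁻¹ : W) q) = dist (p q) (p' q) := circle_dist_inv _ _
      rw [h3, W_dist]
      simpa using h1
    exact this.continuous

instance : CompleteSpace W := by
  apply Metric.complete_of_cauchySeq_tendsto
  intro u hu
  have hq : ∀ q : Circle, CauchySeq fun n => u n q := by
    intro q
    rw [Metric.cauchySeq_iff] at hu
    refine Metric.cauchySeq_iff.mpr ?_
    intro ε hε
    have h4 := wt_pos q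
    obtain ⟨N, hN⟩ := hu (wt q * ε) (by positivity)
    refine ⟨N, fun m hm n hn => ?_⟩
    have h1 := le_wd (u m) (u n) q
    have h2 := hN m hm n hn
    rw [W_dist] at h2
    have : wt q * dist (u m q) (u n q) < wt q * ε := lt_of_le_of_lt h1 h2
    exact lt_of_mul_lt_mul_left this h4.le
  choose a ha using fun q => cauchySeq_tendsto_of_complete (hq q)
  refine ⟨a, ?_⟩
  refine Metric.tendsto_atTop.mpr ?_
  intro ε hε
  rw [Metric.cauchySeq_iff] at hu
  obtain ⟨N, hN⟩ := hu (ε / 2) (by positivity)
  refine ⟨N, fun n hn => ?_⟩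
  have : wd (u n) a ≤ ε / 2 := by
    apply wd_le
    intro q
    have ht : Tendsto (fun m => wt q * dist (u n q) (u m q)) atTop
        (𝓝 (wt q * dist (u n q) (a q))) :=
      (tendsto_const_nhds.dist (ha q)).const_mul _
    apply le_of_tendsto ht
    filter_upwards [eventually_ge_atTop N] with m hm
    exact (le_wd (u n) (u m) q).trans (hN n hn m hm).le
  show wd (u n) a < ε
  linarith

/-- The negation of the preceding statement. -/
theorem result :
    ¬ (∀ (E₁ : Type) [Group E₁] [MetricSpace E₁] [CompleteSpace E₁] [IsTopologicalGroup E₁]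
      (U : (Circle → Circle) →* E₁),
      Function.Bijective U →
      (∀ x : Circle → Circle, ∀ ε > (0 : ℝ), ∃ δ > (0 : ℝ), ∀ y : Circle → Circle,
          (∀ q : Circle, dist (x q) (y q) ≤ δ) → dist (U x) (U y) < ε) →
      (∀ x : Circle → Circle, ∀ ε > (0 : ℝ), ∃ δ > (0 : ℝ), ∀ y : Circle → Circle,
          dist (U x) (U y) < δ → ∀ q : Circle, dist (x q) (y q) ≤ ε)) := by
  classical
  intro h
  let U : (Circle → Circle) →* W := MonoidHom.id (Circle → Circle)
  have hU : Function.Bijective U := Function.bijective_id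
  have hc : ∀ x : Circle → Circle, ∀ ε > (0 : ℝ), ∃ δ > (0 : ℝ), ∀ y : Circle → Circle,
          (∀ q : Circle, dist (x q) (y q) ≤ δ) → dist (U x) (U y) < ε := by
    intro x ε hε
    refine ⟨ε / 2, by positivity, fun y hy => ?_⟩
    have : wd x y ≤ ε / 2 := by
      apply wd_le
      intro q
      have h1 := wt_pos q
      have h2 := wt_le q
      have h3 := hy q
      have h4 := dist_nonneg (x := x q) (y := y q)
      nlinarith
    show wd x y < ε
    linarith
  obtain ⟨δ, hδ, hy⟩ := h W U hU hc (fun _ => 1) 1 one_pos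
  obtain ⟨q₀, hq₀⟩ := wt_small (δ / 4) (by positivity)
  let m : Circle := ⟨-1, by simp [Submonoid.unitSphere]⟩
  have hm : dist (1 : Circle) m = 2 := by
    rw [circle_dist]
    show ‖(1 : ℂ) - (-1)‖ = 2
    norm_num
  have := hy (fun q => if q = q₀ then m else 1) (by
    have : wd (fun _ => 1) (fun q => if q = q₀ then m else 1) ≤ δ / 2 := by
      apply wd_le
      intro q
      split_ifs with hq
      · rw [hm, hq]; linarith
      · simp; positivity
    show wd (fun _ => 1) (fun q => if q = q₀ then m else 1) < δ
    linarith) q₀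
  simp only [if_true] at this
  rw [hm] at this
  norm_num at this

end Pool.Agent.S00684
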