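import Pool.Statements.S00691
import Pool.Agent.H.MP_0c10a3_al.Main

set_option autoImplicit false
open Pool Pool.MP_0c10a3_al

namespace Pool.Agent.S00691

theorem result :
    ∀ (α : Type) [Infinite α], ∀ X : Set (MulAut (FreeGroup α)),
      Subgroup.closure X = ⊤ →
        ∃ n : ℕ, ∀ g : MulAut (FreeGroup α),
          ∃ l : List (MulAut (FreeGroup α)),
            l.length ≤ n ∧ (∀ x ∈ l, x ∈ X ∨ x⁻¹ ∈ X) ∧ l.prod = g := by
  intro α _ X hX
  classical
  let P : MulAut (FreeGroup α) → ℕ → Prop := fun g n =>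
    ∃ l : List (MulAut (FreeGroup α)), l.length ≤ n ∧ (∀ x ∈ l, x ∈ X ∨ x⁻¹ ∈ X) ∧ l.prod = g
  have p1 : P 1 0 := ⟨[], le_rfl, by simp, rfl⟩
  have p2 : ∀ a b m n, P a m → P b n → P (a * b) (m + n) := by
    rintro a b m n ⟨l, h1, h2, h3⟩ ⟨k, k1, k2, k3⟩
    refine ⟨l ++ k, by rw [List.length_append]; omega, ?_, by rw [List.prod_append, h3, k3]⟩
    intro x hx
    rcases List.mem_append.1 hx with h | h
    · exact h2 x h
    · exact k2 x h
  have p3 : ∀ a m, P a m → P a⁻¹ m := by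
    rintro a m ⟨l, h1, h2, h3⟩
    refine ⟨(l.map fun x => x⁻¹).reverse, by simpa using h1, ?_, by
      rw [← h3, List.prod_inv_reverse]⟩
    intro x hx
    obtain ⟨y, hy, rfl⟩ := List.mem_map.1 (List.mem_reverse.1 hx)
    rw [inv_inv]
    exact (h2 y hy).symm
  have ex : ∀ g, ∃ n, P g n := by
    intro g
    have hg : g ∈ Subgroup.closure X := hX ▸ Subgroup.mem_top g
    induction hg using Subgroup.closure_induction with
    | mem x hx => exact ⟨1, [x], le_rfl, by simpa using Or.inl hx, by simp⟩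
    | one => exact ⟨0, p1⟩
    | mul a b _ _ ha hb =>
      obtain ⟨m, hm⟩ := ha
      obtain ⟨n, hn⟩ := hb
      exact ⟨m + n, p2 a b m n hm hn⟩
    | inv a _ ha =>
      obtain ⟨m, hm⟩ := ha
      exact ⟨m, p3 a m hm⟩
  obtain ⟨n, hn⟩ := Pool.Agent.H.MP_0c10a3_al.bergman (X := α) (fun g => Nat.find (ex g))
    (Nat.eq_zero_of_le_zero (Nat.find_min' _ p1))
    (fun a b => Nat.find_min' _ (p2 a b _ _ (Nat.find_spec (ex a)) (Nat.find_spec (ex b))))
    (fun a => le_antisymm (Nat.find_min' _ (p3 a _ (Nat.find_spec (ex a))))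
      (Nat.find_min' _ (by simpa using p3 a⁻¹ _ (Nat.find_spec (ex a⁻¹)))))
  refine ⟨n, fun g => ?_⟩
  obtain ⟨l, h1, h2, h3⟩ := Nat.find_spec (ex g)
  exact ⟨l, h1.trans (hn g), h2, h3⟩

end Pool.Agent.S00691
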