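import Pool.Statements.S00694
import Pool.Agent.H.MP_0c2877_al.C

set_option autoImplicit false
open Pool Pool.MP_0c2877_al Pool.Agent.H.MP_0c2877_al Subgroup

namespace Pool.Agent.S00694

theorem result :
    ¬ (∃ (G : Type) (_ : Group G) (_ : LinearOrder G),
      Nontrivial G ∧ IsSolvable G ∧
      (∀ a b c : G, a ≤ b → a * c ≤ b * c) ∧
      Finite (Abelianization G)) := by
  rintro ⟨G, _, _, h1, h2, h3, h4⟩
  have h2 : Group.IsSolvable G := h2
  obtain ⟨d, hd⟩ := h2.solvable
  obtain ⟨g, hg⟩ := exists_ne (1 : G)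
  obtain ⟨σ, hσ⟩ := (QuotientGroup.mk'_surjective (commutator G)).hasRightInverse
  have h4 : Finite (G ⧸ commutator G) := h4
  have n0 : 0 < Nat.card (G ⧸ commutator G) := Nat.card_pos
  have t1 := Set.finite_range σ
  obtain ⟨W, w1, w2, w3⟩ := wit2 (t1.insert g) (fun x a => x ^ Nat.card (G ⧸ commutator G) ∈ a)
    (fun x a b h k => h k) fun x _ => wit ((QuotientGroup.eq_one_iff _).1 (by simp))
  obtain ⟨Y, S, y1, -, s1, s2, s3⟩ := fg d G hd _ t1 (eq_top_iff.2 fun x _ => by
    simpa using mul_mem_sup (subset_closure (k := Set.range σ) ⟨QuotientGroup.mk x, rfl⟩)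
      (QuotientGroup.eq.1 (hσ (QuotientGroup.mk x)))) W w1 ((Set.subset_insert _ _).trans w2)
  set K := closure Y
  have hab : ∀ k : K, ∃ n : ℕ, 0 < n ∧ k ^ n ∈ commutator K := fun k => by
    have : Subgroup.closure (Set.image2 (fun l x => l * x * l⁻¹) S (Set.range σ)) ⊔ ⁅K, K⁆ ≤
        ((CommGroup.torsion _).comap (Abelianization.of (G := K))).map K.subtype := by
      refine sup_le ((closure_le _).2 ?_) ?_
      · rintro _ ⟨l, hl, x, hx, rfl⟩
        have q := mem_map_of_mem (MulAut.conj l).toMonoidHom (w3 x (.inr hx))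
        have : (closure W).map (MulAut.conj l).toMonoidHom ≤ K := by
          rw [MonoidHom.map_closure, closure_le]; rintro _ ⟨x, hx, rfl⟩; exact s2 l hl x hx
        rw [map_commutator, map_pow] at q
        obtain ⟨c, c1, c2⟩ := (map_subtype_commutator K).ge (commutator_mono this this q)
        refine ⟨⟨_, s2 l hl x (w2 (.inr hx))⟩, isOfFinOrder_iff_pow_eq_one.2 ⟨_, n0, ?_⟩, rfl⟩
        rw [← map_pow]
        exact (QuotientGroup.eq_one_iff _).2 ((Subtype.ext c2 : c = (⟨_, s2 l hl x (w2 (.inr hx))⟩ : K) ^ _) ▸ c1)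
      · rw [← map_subtype_commutator]
        exact map_mono fun c hc => show Abelianization.of c ∈ CommGroup.torsion _ by
          rw [show Abelianization.of c = 1 from (QuotientGroup.eq_one_iff _).2 hc]; exact one_mem _
    obtain ⟨c, c1, c2⟩ := this (s3 k.2)
    obtain ⟨n, n1, n2⟩ := isOfFinOrder_iff_pow_eq_one.1 c1
    exact ⟨n, n1, Subtype.ext c2 ▸ (QuotientGroup.eq_one_iff _).1 (by rwa [← map_pow] at n2)⟩
  have := fx hab (y1.preimage K.subtype_injective.injOn) (closure_closure_coe_preimage (k := Y)) d K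
    (fun x y => x.1⁻¹ ≤ y.1⁻¹) (fun _ _ => le_total _ _) (fun _ _ _ => le_trans)
    (fun g x y h => by simpa using h3 _ _ g.1⁻¹ h) 1 fun a ha => by
      have : a.1 = 1 := hd.le (map_derivedSeries_le_derivedSeries K.subtype d (mem_map_of_mem _ ha))
      simp [this]
  have gK : g ∈ K := by simpa using s2 1 s1 g (w2 (.inl rfl))
  have q1 : g⁻¹ ≤ 1 := by simpa using this ⟨g, gK⟩
  have q2 : g ≤ 1 := by simpa using this ⟨g, gK⟩⁻¹
  exact hg (q2.antisymm (by simpa using h3 _ _ g q1))

end Pool.Agent.S00694
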