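import Pool.Statements.S00728
import Pool.Agent.H.MP_0ed2d6_al.C

set_option autoImplicit false
open Pool Pool.MP_0ed2d6_al

namespace Pool.Agent.S00728

/-- The negation of the preceding statement: For every n, every finitely generated torsion-free subgroup G of GL_n(C), and every nontrivial g in G, there is a homomorphism from G to GL_n(Qbar) that does not kill g and has torsion-free image. -/
theorem result :
    ¬ (∀ n : ℕ, ∀ G : Subgroup (Matrix.GeneralLinearGroup (Fin n) ℂ),
      G.FG →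
      (∀ x : G, IsOfFinOrder x → x = 1) →
      ∀ g : G, g ≠ 1 →
        ∃ φ : G →* Matrix.GeneralLinearGroup (Fin n) (AlgebraicClosure ℚ),
          φ g ≠ 1 ∧
          ∀ h : Matrix.GeneralLinearGroup (Fin n) (AlgebraicClosure ℚ),
            h ∈ φ.range → IsOfFinOrder h → h = 1) := by
  intro h
  obtain ⟨t0, ht0⟩ : ∃ t0 : ℂ, Transcendental ℤ t0 := by
    have h1 := transcendental_liouvilleNumber (m := 2) le_rfl
    exact ⟨((liouvilleNumber ((2 : ℕ) : ℝ) : ℝ) : ℂ),
      (transcendental_algebraMap_iff (algebraMap ℝ ℂ).injective).2 h1⟩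
  have ht1 : t0 ≠ 0 := fun e => ht0 (e ▸ isAlgebraic_zero)
  let t : ℂˣ := Units.mk0 t0 ht1
  have ht : Transcendental ℤ (t : ℂ) := ht0
  let e := Subgroup.equivMapOfInjective (Pool.Agent.H.MP_0ed2d6_al.HH t) _
    Pool.Agent.H.MP_0ed2d6_al.rho_inj
  have hfg : ((Pool.Agent.H.MP_0ed2d6_al.HH t).map Pool.Agent.H.MP_0ed2d6_al.rho).FG := by
    have := Pool.Agent.H.MP_0ed2d6_al.H_fg t
    exact (Group.fg_iff_subgroup_fg _).1 (Group.fg_of_surjective (f := e.toMonoidHom) e.surjective)
  obtain ⟨φ, h1, h2⟩ := h 3 _ hfg (fun x hx => by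
      obtain ⟨y, rfl⟩ := e.surjective x
      have h3 : IsOfFinOrder y := (Function.Injective.isOfFinOrder_iff (f := e.toMonoidHom) e.injective).1 hx
      have h4 : y = 1 := Subtype.ext (Pool.Agent.H.MP_0ed2d6_al.H_tf t ht y y.2
        ((Pool.Agent.H.MP_0ed2d6_al.HH t).subtype.isOfFinOrder h3))
      rw [h4, map_one])
    (e (Pool.Agent.H.MP_0ed2d6_al.ez t (Pool.Agent.H.MP_0ed2d6_al.fA t))) (fun h5 => by
      have h6 := congrArg (fun g : Pool.Agent.H.MP_0ed2d6_al.HH t => (g : Pool.Agent.H.MP_0ed2d6_al.U).z)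
        (e.injective (h5.trans (map_one e).symm))
      have h7 : Pool.Agent.H.MP_0ed2d6_al.fA t = 0 := Subtype.ext h6
      have h8 := congrArg (Polynomial.eval 0) (Pool.Agent.H.MP_0ed2d6_al.aeval_inj t ht _ h7)
      simp [Pool.Agent.H.MP_0ed2d6_al.fP] at h8)
  let L := Matrix.GeneralLinearGroup.toLin (n := Fin 3) (R := AlgebraicClosure ℚ)
  have hint : @Algebra.IsIntegral ℚ (AlgebraicClosure ℚ) _ _ DivisionRing.toRatAlgebra := by
    have h0 := (AlgebraicClosure.isAlgebraic ℚ).isIntegral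
    have h00 : (DivisionRing.toRatAlgebra : Algebra ℚ (AlgebraicClosure ℚ)) =
        AlgebraicClosure.instAlgebra ℚ := Subsingleton.elim _ _
    rw [h00]
    exact h0
  have h9 := Pool.Agent.H.MP_0ed2d6_al.main t (K := AlgebraicClosure ℚ)
    (V := Fin 3 → AlgebraicClosure ℚ) (by simp)
    (L.toMonoidHom.comp (φ.comp e.toMonoidHom)) (fun g hg => by
      have h3 : IsOfFinOrder (φ (e g)) :=
        (Function.Injective.isOfFinOrder_iff (f := L.toMonoidHom) L.injective).1 hg
      have h4 := h2 _ ⟨e g, rfl⟩ h3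
      change L (φ (e g)) = 1
      rw [h4, map_one])
  exact h1 (L.injective (h9.trans (map_one L).symm))

end Pool.Agent.S00728
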