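import Pool.Statements.S00730
import Pool.Agent.H.MP_0ee5c7_al.A

set_option autoImplicit false
open Pool Pool.MP_0ee5c7_al

namespace Pool.Agent.S00730

theorem result :
    ¬ (∀ (G : Type) [Group G] (S : Finset G), Subgroup.closure (S : Set G) = ⊤ →
      ∀ Γ : SimpleGraph G,
        (∀ g h : G, Γ.Adj g h ↔ (g ≠ h ∧ ∃ s ∈ S, h = g * s ∨ g = h * s)) →
        (∀ F : Finset G, ∃ F' : Finset G, ∀ a b : G, a ∉ F' → b ∉ F' →
            ∃ p : Γ.Walk a b, ∀ v ∈ p.support, v ∉ F) →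
        ∀ f : ℝ → G,
          (∃ C D : ℝ, ∀ x y : ℝ, 0 ≤ x → 0 ≤ y →
              (Γ.dist (f x) (f y) : ℝ) ≤ C * |x - y| + D) →
          (∀ M : ℝ, ∃ N : ℝ, ∀ x y : ℝ, 0 ≤ x → 0 ≤ y → N ≤ |x - y| →
              M ≤ (Γ.dist (f x) (f y) : ℝ)) →
          ∀ Y : Set G, Y ⊆ f '' Set.Ici (0 : ℝ) →
            ¬ ∃ K : ℕ, ∃ A B : Set G,
                Disjoint A B ∧
                A ∪ B = {g : G | ∀ y ∈ Y, K < Γ.dist g y} ∧
                (∀ a ∈ A, ∀ b ∈ B, ¬ Γ.Adj a b) ∧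
                (∀ R : ℕ, ¬ A ⊆ {g : G | ∃ y ∈ Y, Γ.dist g y ≤ R}) ∧
                (∀ R : ℕ, ¬ B ⊆ {g : G | ∃ y ∈ Y, Γ.dist g y ≤ R})) := by
  open Pool.Agent.H.MP_0ee5c7_al in
  intro h
  refine h L S gen Γ (fun _ _ => Iff.rfl) one_end (fun x => P ⌊x⌋₊) ⟨2, 2, fun x y hx hy => ?_⟩
    (fun M => ?_) {g | g.n = 0 ∧ ∀ p ≤ 0, g.f p = 0} (fun g c => ?_)
    ⟨0, {g | 1 ≤ g.n ∧ ∀ p ≤ 0, g.f p = 0}, {g | ¬ (0 ≤ g.n ∧ ∀ p ≤ 0, g.f p = 0)},
      Set.disjoint_left.2 fun g c d => d ⟨by have := c.1; omega, c.2⟩, ?_, ?_, fun R c => ?_,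
      fun R c => ?_⟩
  · wlog c : ⌊x⌋₊ ≤ ⌊y⌋₊ generalizing x y
    · rw [SimpleGraph.dist_comm, abs_sub_comm]; exact this y x hy hx (by omega)
    obtain ⟨k, hk⟩ := Nat.exists_eq_add_of_le c
    have c1 : (Γ.dist (P ⌊x⌋₊) (P ⌊y⌋₊) : ℝ) ≤ 2 * k := by
      rw [hk]; exact_mod_cast P_lip _ k
    have c2 : (⌊y⌋₊ : ℝ) = ⌊x⌋₊ + k := by exact_mod_cast hk
    have := Nat.floor_le hy
    have := Nat.lt_floor_add_one x
    have := neg_abs_le (x - y)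
    linarith
  · obtain ⟨N, hN⟩ := P_unif ⌈M⌉₊
    refine ⟨N + 2, fun x y hx hy c => by_contra fun d => ?_⟩
    have c1 : Γ.dist (P ⌊x⌋₊) (P ⌊y⌋₊) ≤ ⌈M⌉₊ := by
      have := Nat.le_ceil M
      exact_mod_cast ((not_le.1 d).le.trans this)
    have c2 : (⌊x⌋₊ : ℝ) ≤ ⌊y⌋₊ + N := by exact_mod_cast hN _ _ c1
    have c3 : (⌊y⌋₊ : ℝ) ≤ ⌊x⌋₊ + N := by
      exact_mod_cast hN _ _ (SimpleGraph.dist_comm ▸ c1)
    have := Nat.floor_le hy
    have := Nat.floor_le hx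
    have := Nat.lt_floor_add_one x
    have := Nat.lt_floor_add_one y
    rcases le_abs.1 c with c | c <;> linarith
  · obtain ⟨n, rfl⟩ := cover g c.1 c.2
    exact ⟨n, by simp, by simp⟩
  · ext g
    simp only [Set.mem_union, Set.mem_ofPred_eq, Nat.pos_iff_ne_zero, ne_eq, conn.dist_eq_zero_iff]
    refine ⟨fun c y d k => ?_, fun c => by_contra fun d => ?_⟩
    · subst k
      rcases c with c | c
      · omega
      · exact c ⟨by omega, d.2⟩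
    · rw [not_or, not_not] at d
      exact c g ⟨by_contra fun k => d.1 ⟨by omega, d.2.2⟩, d.2.2⟩ rfl
  · intro x c y d k
    have := c.1
    rcases adj_cases k with ⟨k1, k2⟩ | ⟨k1, k2⟩
    · exact d ⟨by omega, fun p l => (k2 p (by omega)).trans (c.2 p l)⟩
    · exact d ⟨by omega, k1 ▸ c.2⟩
  · obtain ⟨y, d, k⟩ := @c ⟨0, R + 1⟩ ⟨by simp, by simp⟩
    have := (close k).1
    rw [d.1, abs_le] at this
    dsimp only at this
    omega
  · obtain ⟨y, d, k⟩ := @c ⟨0, -(R + 1)⟩ fun k => by have := k.1; dsimp only at this; omega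
    have := (close k).1
    rw [d.1, abs_le] at this
    dsimp only at this
    omega

end Pool.Agent.S00730
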