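import Pool.Statements.S00738
import Pool.Agent.H.MP_0f752e_al.Main

set_option autoImplicit false
open Pool Pool.MP_0f752e_al

namespace Pool.Agent.S00738
open Pool.Agent.H.MP_0f752e_al

theorem result :
    ¬ (∀ F : (H : Type) → [Group H] → Prop,
      (∀ (G H : Type) [Group G] [Group H] [Finite G], F G →
          ∀ f : G →* H, Function.Surjective f → F H) →
      (∀ (G H₁ H₂ : Type) [Group G] [Group H₁] [Group H₂] [Finite G],
          F H₁ → F H₂ → ∀ (f₁ : G →* H₁) (f₂ : G →* H₂),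
            Function.Surjective f₁ → Function.Surjective f₂ →
            f₁.ker ⊓ f₂.ker = ⊥ → F G) →
      (∀ (G : Type) [Group G] [Finite G], F G →
          ∀ N : Subgroup G, N.Normal → F N) →
      (∀ (G : Type) [Group G] [Finite G] (N M : Subgroup G),
          N.Normal → M.Normal → F N → F M → N ⊔ M = ⊤ → F G) →
      ∀ (G : Type) [Group G] [Finite G] (U V : Subgroup G),
        (∃ n : ℕ, ∃ c : ℕ → Subgroup G, c 0 = U ∧ c n = U ⊔ V ∧
          ∀ i < n, c i ≤ c (i + 1) ∧ ((c i).subgroupOf (c (i + 1))).Normal) →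
        (∃ n : ℕ, ∃ c : ℕ → Subgroup G, c 0 = V ∧ c n = U ⊔ V ∧
          ∀ i < n, c i ≤ c (i + 1) ∧ ((c i).subgroupOf (c (i + 1))).Normal) →
        (⨅ (H : Type) (_ : Group H) (_ : F H) (f : ↥(U ⊔ V) →* H)
            (_ : Function.Surjective f), f.ker).map (U ⊔ V).subtype =
          (⨅ (H : Type) (_ : Group H) (_ : F H) (f : ↥U →* H)
              (_ : Function.Surjective f), f.ker).map U.subtype ⊔
          (⨅ (H : Type) (_ : Group H) (_ : F H) (f : ↥V →* H)
              (_ : Function.Surjective f), f.ker).map V.subtype) := by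
  intro h
  have key : ∀ (i : ZMod 4) {ρ : ℕ → ℕ}, ρ = ra ∨ ρ = rb →
      (⨅ (H : Type) (_ : Group H) (_ : F H) (f : ↥(U i) →* H) (_ : Function.Surjective f), f.ker) ≤
        (Kd (gd (.sr i) ρ)).subgroupOf (U i) := fun i ρ hρ => by
    have := Kd_normal i ρ
    refine iInf_le_of_le (U i ⧸ (Kd (gd (.sr i) ρ)).subgroupOf (U i)) (iInf_le_of_le inferInstance
      (iInf_le_of_le (F_U i hρ (QuotientGroup.mk' _) (QuotientGroup.mk'_surjective _)
        (QuotientGroup.ker_mk' _)) (iInf_le_of_le (QuotientGroup.mk' _)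
        (iInf_le_of_le (QuotientGroup.mk'_surjective _) (QuotientGroup.ker_mk' _).le))))
  refine final ?_ (key 2 (.inl rfl)) (key 3 (.inr rfl)) (h F (fun G H _ _ _ a f hf => F_img a f hf)
    (fun G H₁ H₂ _ _ _ _ a₁ a₂ f₁ f₂ h₁ h₂ e => F_inf f₁ f₂ (MonoidHom.id G) h₁ h₂
      Function.surjective_id (by rw [e, MonoidHom.ker_id]) a₁ a₂)
    (fun G _ _ a N hN => F_normal a N hN)
    (fun G _ _ N M hN hM a b e => by
      have := (F_sub _).1 (F_prod N M hN hM a b)
      rwa [e] at this)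
    GG (U 2) (U 3) ((U_SN 2).mid le_sup_left le_top).chain ((U_SN 3).mid le_sup_right le_top).chain)
  exact le_iInf fun Q => le_iInf fun _ => le_iInf fun hQ => le_iInf fun f => le_iInf fun hf =>
    T_le_ker f hf hQ

end Pool.Agent.S00738
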