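import Pool.Statements.S00741
import Pool.Agent.H.MP_0f8bf3_al.C

set_option autoImplicit false
open Pool Pool.MP_0f8bf3_al

namespace Pool.Agent.S00741

theorem result :
    ∃ n : ℕ, ∃ ψ : ↥(Subgroup.closure
        (insert
          (Equiv.prodShear (Equiv.refl (Fin n → ℤ))
            (fun w => if w = 0 then Equiv.addRight (1 : ℤ) else Equiv.refl ℤ) :
              Equiv.Perm ((Fin n → ℤ) × ℤ))
          (Set.range fun i : Fin n =>
            (Equiv.prodCongr (Equiv.addRight (Pi.single i (1 : ℤ) : Fin n → ℤ)) (Equiv.refl ℤ) :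
              Equiv.Perm ((Fin n → ℤ) × ℤ))))) →*
        Equiv.Perm ↥(Metric.sphere (0 : Fin n → ℝ) 1),
      Function.Injective ψ ∧
        ∀ g, Continuous (ψ g) ∧
          ∃ m : ℕ, ∃ C : Fin m → Set (Fin n → ℝ),
            ∃ A : Fin m → ((Fin n → ℝ) →ᵃ[ℝ] (Fin n → ℝ)),
              (∀ j, ∃ s : Finset (Fin n → ℝ), C j = convexHull ℝ (↑s : Set (Fin n → ℝ))) ∧
              (∀ x : ↥(Metric.sphere (0 : Fin n → ℝ) 1), ∃ j, (↑x : Fin n → ℝ) ∈ C j) ∧
              (∀ j, ∀ x : ↥(Metric.sphere (0 : Fin n → ℝ) 1), (↑x : Fin n → ℝ) ∈ C j →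
                (↑((ψ g) x) : Fin n → ℝ) = A j (↑x : Fin n → ℝ)) :=
  ⟨4, Pool.Agent.H.MP_0f8bf3_al.main⟩

end Pool.Agent.S00741
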