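import Pool.Statements.S00751
import Pool.Agent.H.MP_102156_al.B

set_option autoImplicit false
set_option linter.style.haveILetI false
open Pool Pool.MP_102156_al

namespace Pool.Agent.S00751

theorem result :
    ∀ (G : Type) [Group G],
      Monoid.IsTorsion G →
      (∀ g : G, {h : G | IsConj g h}.Finite) →
      (∀ g : G, g ≠ 1 → ∃ N : Subgroup G, N.Normal ∧ N.FiniteIndex ∧ g ∉ N) →
      (∃ (J : Type) (C : J → Type) (_ : ∀ j, AddCommGroup (C j)),
          (∀ j, IsAddCyclic (C j)) ∧
          Nonempty (Additive (Abelianization G) ≃+ Π₀ j, C j)) →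
      ∃ (I : Type) (H : I → Type) (_ : ∀ i, Group (H i)) (_ : ∀ i, Finite (H i))
        (f : G →* ∀ i, H i),
        Function.Injective f ∧ ∀ g : G, {i : I | f g i ≠ 1}.Finite := by
  intro G _ hT hFC hRF ⟨J, C, _, hcyc, ⟨e⟩⟩
  classical
  have hT' : IsMulTorsion G := hT
  have hL := Pool.Agent.H.MP_102156_al.ncl_finite hT' hFC
  obtain ⟨S, hS, hsep, hpf⟩ := Pool.Agent.H.MP_102156_al.thmA hL hRF
  haveI hSn : ∀ N : S, (N : Subgroup G).Normal := fun N => (hS N N.2).1
  haveI hSf : ∀ N : S, (N : Subgroup G).FiniteIndex := fun N => (hS N N.2).2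
  -- the abelianization map
  let ab : G → Π₀ j, C j := fun g => e (Additive.ofMul (Abelianization.of g))
  have ab_mul : ∀ g h, ab (g * h) = ab g + ab h := fun g h => by simp [ab]
  have ab_one : ab 1 = 0 := by simp [ab]
  have ab_pow : ∀ g (n : ℕ), ab (g ^ n) = n • ab g := fun g n => by simp [ab]
  have ab_zpow : ∀ g (n : ℤ), ab (g ^ n) = n • ab g := fun g n => by simp [ab]
  have ab_surj : ∀ v, ∃ g, ab g = v := by
    intro v
    obtain ⟨g, hg⟩ := QuotientGroup.mk_surjective (Additive.toMul (e.symm v))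
    refine ⟨g, ?_⟩
    have : Abelianization.of g = Additive.toMul (e.symm v) := hg
    simp [ab, this]
  have ab_ker : ∀ g, ab g = 0 ↔ g ∈ commutator G := by
    intro g
    rw [← Abelianization.ker_of, MonoidHom.mem_ker]
    simp [ab]
  choose c hc using fun j => (hcyc j).exists_generator
  choose gg hgg using fun j => ab_surj (DFinsupp.single j (c j))
  have hcfin : ∀ j, IsOfFinAddOrder (c j) := by
    intro j
    obtain ⟨n, hn, h⟩ := isOfFinOrder_iff_pow_eq_one.mp (hT' (gg j))
    refine isOfFinAddOrder_iff_nsmul_eq_zero.mpr ⟨n, hn, ?_⟩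
    have h1 := ab_pow (gg j) n
    rw [h, ab_one, hgg] at h1
    have h2 := congrArg (fun v : Π₀ j, C j => v j) h1
    simpa using h2.symm
  haveI hCfin : ∀ j, Finite (C j) := by
    intro j
    have h1 : (AddSubgroup.zmultiples (c j) : Set (C j)).Finite :=
      finite_zmultiples.mpr (hcfin j)
    exact Set.finite_univ_iff.mp (h1.subset fun x _ => hc j x)
  have hgm : ∀ j, gg j ^ addOrderOf (c j) ∈ commutator G := by
    intro j
    rw [← ab_ker, ab_pow, hgg, ← DFinsupp.single_smul, addOrderOf_nsmul_eq_zero,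
      DFinsupp.single_zero]
  -- central corrections
  letI cg : ∀ N : S, CommGroup (Subgroup.center (G ⧸ (N : Subgroup G))) := fun N =>
    { (inferInstance : Group (Subgroup.center (G ⧸ (N : Subgroup G)))) with
      mul_comm := fun a b => Subtype.ext ((Subgroup.mem_center_iff.mp b.2) a) }
  let good : J → S → Prop := fun j N =>
    ((gg j : G) : G ⧸ (N : Subgroup G)) ∈ Subgroup.center (G ⧸ (N : Subgroup G)) ∧
      gg j ^ addOrderOf (c j) ∈ (N : Subgroup G)
  let z : (j : J) → (N : S) → Subgroup.center (G ⧸ (N : Subgroup G)) := fun j N =>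
    if h : good j N then ⟨_, h.1⟩ else 1
  have hz : ∀ j N, addOrderOf (Additive.ofMul (z j N)) ∣ addOrderOf (c j) := by
    intro j N
    rw [addOrderOf_ofMul_eq_orderOf, orderOf_dvd_iff_pow_eq_one]
    by_cases h : good j N
    · simp only [z, dif_pos h]
      apply Subtype.ext
      show ((gg j : G) : G ⧸ (N : Subgroup G)) ^ _ = 1
      rw [← QuotientGroup.mk_pow, QuotientGroup.eq_one_iff]
      exact h.2
    · simp only [z, dif_neg h, one_pow]
  let χ : (N : S) → (Π₀ j, C j) →+ Additive (Subgroup.center (G ⧸ (N : Subgroup G))) := fun N =>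
    DFinsupp.sumAddHom fun j => addMonoidHomOfForallMemZMultiples (hc j) (hz j N)
  have hχ : ∀ N j, χ N (DFinsupp.single j (c j)) = Additive.ofMul (z j N) := by
    intro N j
    simp [χ]
  let w : (N : S) → G → G ⧸ (N : Subgroup G) := fun N g =>
    ((Additive.toMul (χ N (ab g)) : Subgroup.center (G ⧸ (N : Subgroup G))) : G ⧸ (N : Subgroup G))
  have hwc : ∀ (N : S) g, w N g ∈ Subgroup.center (G ⧸ (N : Subgroup G)) := fun N g => Subtype.mem _
  have hwm : ∀ N g h, w N (g * h) = w N g * w N h := by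
    intro N g h
    simp only [w, ab_mul, map_add, toMul_add, Subgroup.coe_mul]
  have hw1 : ∀ N, ∀ g ∈ commutator G, w N g = 1 := by
    intro N g hg
    simp only [w, (ab_ker g).mpr hg, map_zero, toMul_zero, Subgroup.coe_one]
  let φ : (N : S) → G →* G ⧸ (N : Subgroup G) := fun N =>
    MonoidHom.mk' (fun g => (g : G ⧸ (N : Subgroup G)) * (w N g)⁻¹) (by
      intro a b
      have h1 := Subgroup.mem_center_iff.mp (inv_mem (hwc N a)) (b : G ⧸ (N : Subgroup G))
      have h2 := Subgroup.mem_center_iff.mp (inv_mem (hwc N a)) (w N b)⁻¹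
      rw [hwm, mul_inv_rev, QuotientGroup.mk_mul, h2, mul_assoc,
        ← mul_assoc (b : G ⧸ (N : Subgroup G)) (w N a)⁻¹, h1]
      simp only [mul_assoc])
  have hφ : ∀ (N : S) g, φ N g = (g : G ⧸ (N : Subgroup G)) * (w N g)⁻¹ := fun N g => rfl
  have hpf' : ∀ d ∈ commutator G, {N : S | d ∉ (N : Subgroup G)}.Finite := by
    intro d hd
    refine ((hpf d hd).preimage Subtype.val_injective.injOn).subset ?_
    intro N hN
    exact ⟨N.2, hN⟩
  let W : Subgroup G :=
    { carrier := {g | {N : S | φ N g ≠ 1}.Finite}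
      one_mem' := by simp
      mul_mem' := by
        intro a b ha hb
        refine (Set.Finite.union ha hb).subset ?_
        intro N hN
        by_contra h
        simp only [Set.mem_union, Set.mem_ofPred_eq, not_or, not_not] at h
        apply hN
        rw [map_mul, h.1, h.2, mul_one]
      inv_mem' := by
        intro a ha
        refine Set.Finite.subset ha ?_
        intro N hN h
        apply hN
        rw [map_inv, h, inv_one] }
  have hW1 : ∀ d ∈ commutator G, d ∈ W := by
    intro d hd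
    refine (hpf' d hd).subset ?_
    intro N hN h
    apply hN
    rw [hφ, hw1 N d hd, inv_one, mul_one, QuotientGroup.eq_one_iff]
    exact h
  have hW2 : ∀ j, gg j ∈ W := by
    intro j
    have hfin : {N : S | ¬ good j N}.Finite := by
      have hE : ((Subgroup.normalClosure ({gg j} : Set G) : Set G) ∩ commutator G).Finite :=
        (hL _ (Set.toFinite _)).inter_of_left _
      refine ((hE.biUnion (fun d hd => hpf' d hd.2)).union (hpf' _ (hgm j))).subset ?_
      intro N hN
      by_contra h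
      simp only [Set.mem_union, Set.mem_iUnion, Set.mem_ofPred_eq, not_or, not_exists,
        not_not] at h
      apply hN
      refine ⟨?_, h.2⟩
      rw [Subgroup.mem_center_iff]
      intro q
      obtain ⟨y, rfl⟩ := QuotientGroup.mk_surjective q
      have h1 := h.1 _ ⟨Pool.Agent.H.MP_102156_al.comm_mem_ncl (gg j) y,
        Subgroup.commutator_mem_commutator (Subgroup.mem_top _) (Subgroup.mem_top _)⟩
      rw [← QuotientGroup.eq_one_iff, commutatorElement_def] at h1
      simp only [QuotientGroup.mk_mul, QuotientGroup.mk_inv] at h1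
      rw [mul_inv_eq_one, mul_inv_eq_iff_eq_mul] at h1
      exact h1.symm
    refine hfin.subset ?_
    intro N hN h
    apply hN
    have : w N (gg j) = (gg j : G ⧸ (N : Subgroup G)) := by
      simp only [w, hgg, hχ, toMul_ofMul, z, dif_pos h]
    rw [hφ, this, mul_inv_cancel]
  have hW3 : ∀ v : Π₀ j, C j, ∃ g ∈ W, ab g = v := by
    intro v
    induction v using DFinsupp.induction with
    | h0 => exact ⟨1, one_mem _, ab_one⟩
    | ha j b f _ _ ih =>
      obtain ⟨g, hg, hgf⟩ := ih
      obtain ⟨k, hk⟩ := AddSubgroup.mem_zmultiples_iff.mp (hc j b)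
      refine ⟨gg j ^ k * g, mul_mem (zpow_mem (hW2 j) k) hg, ?_⟩
      rw [ab_mul, ab_zpow, hgg, hgf, ← DFinsupp.single_smul, hk]
  have hW : ∀ g, g ∈ W := by
    intro g
    obtain ⟨g', hg', h⟩ := hW3 (ab g)
    have h1 : g'⁻¹ * g ∈ commutator G := by
      rw [← ab_ker, ab_mul, ← zpow_neg_one, ab_zpow, h]
      simp
    have : g = g' * (g'⁻¹ * g) := by group
    rw [this]
    exact mul_mem hg' (hW1 _ h1)
  let ψ : (j : J) → G →* Multiplicative (C j) := fun j =>
    MonoidHom.mk' (fun g => Multiplicative.ofAdd (ab g j)) (by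
      intro a b
      rw [ab_mul]
      rfl)
  have hψ : ∀ j g, ψ j g = 1 ↔ ab g j = 0 := fun j g => Iff.rfl
  let M : Set (Subgroup G) :=
    Set.range (fun N : S => (φ N).ker) ∪ Set.range (fun j : J => (ψ j).ker)
  haveI hMn : ∀ A : M, (A : Subgroup G).Normal := by
    rintro ⟨A, ⟨N, rfl⟩ | ⟨j, rfl⟩⟩ <;> exact MonoidHom.normal_ker _
  haveI hMf : ∀ A : M, (A : Subgroup G).FiniteIndex := by
    rintro ⟨A, ⟨N, rfl⟩ | ⟨j, rfl⟩⟩
    · haveI : Finite (G ⧸ (N : Subgroup G)) := Subgroup.finite_quotient_of_finiteIndex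
      exact (inferInstance : (φ N).ker.FiniteIndex)
    · exact (inferInstance : (ψ j).ker.FiniteIndex)
  refine ⟨M, fun A => G ⧸ (A : Subgroup G), fun A => inferInstance,
    fun A => Subgroup.finite_quotient_of_finiteIndex,
    MonoidHom.pi (fun A => QuotientGroup.mk' (A : Subgroup G)), ?_, ?_⟩
  · rw [injective_iff_map_eq_one]
    intro g hg
    have hall : ∀ A ∈ M, g ∈ A := fun A hA =>
      (QuotientGroup.eq_one_iff (N := ((⟨A, hA⟩ : M) : Subgroup G)) g).mp (congrFun hg ⟨A, hA⟩)
    have h1 : g ∈ commutator G := by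
      rw [← ab_ker]
      ext j
      exact (hψ j g).mp (hall _ (Or.inr ⟨j, rfl⟩))
    refine hsep g h1 (fun N hN => ?_)
    have h2 : φ ⟨N, hN⟩ g = 1 := hall _ (Or.inl ⟨⟨N, hN⟩, rfl⟩)
    rw [hφ, hw1 _ g h1, inv_one, mul_one, QuotientGroup.eq_one_iff] at h2
    exact h2
  · intro g
    have h1 : ((fun N : S => (φ N).ker) '' {N : S | φ N g ≠ 1} ∪
        (fun j : J => (ψ j).ker) '' ((ab g).support : Set J)).Finite :=
      (Set.Finite.image _ (hW g)).union (Set.Finite.image _ (Finset.finite_toSet _))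
    refine (h1.preimage Subtype.val_injective.injOn).subset ?_
    rintro ⟨A, hA⟩ h
    have h2 : g ∉ A := fun h' =>
      h ((QuotientGroup.eq_one_iff (N := ((⟨A, hA⟩ : M) : Subgroup G)) g).mpr h')
    rcases hA with ⟨N, rfl⟩ | ⟨j, rfl⟩
    · exact Or.inl ⟨N, h2, rfl⟩
    · exact Or.inr ⟨j, DFinsupp.mem_support_iff.mpr h2, rfl⟩

end Pool.Agent.S00751
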