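import Pool.Statements.S00755
import Pool.Agent.H.MP_10a497_al.A

set_option autoImplicit false
open Pool Pool.MP_10a497_al

namespace Pool.Agent.S00755

theorem result :
  ∀ (G : Type) [Group G], Group.FG G →
    (¬ ∃ H : Subgroup G, H.FiniteIndex ∧ IsCyclic H) →
    (∃ g : G, ∃ (X : Type) (_ : MetricSpace X) (_ : MulAction G X),
      (∀ (h : G) (x y : X), dist (h • x) (h • y) = dist x y) ∧
      (∃ δ : ℝ, ∀ x y z w : X,
        dist x y + dist z w ≤ max (dist x z + dist y w) (dist x w + dist y z) + 2 * δ) ∧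
      (∀ ε : ℝ, 0 < ε → ∃ (R : ℝ) (N : ℕ), ∀ x y : X, R ≤ dist x y →
        {h : G | dist x (h • x) ≤ ε ∧ dist y (h • y) ≤ ε}.Finite ∧
        {h : G | dist x (h • x) ≤ ε ∧ dist y (h • y) ≤ ε}.ncard ≤ N) ∧
      (∃ x : X, ∃ c : ℝ, 0 < c ∧ ∀ n : ℕ, c * (n : ℝ) ≤ dist x ((g ^ n) • x))) →
    (∀ N : Subgroup G, N.Normal → Finite N → N = ⊥) →
    ∃ S : Finset G, Subgroup.closure (S : Set G) = ⊤ ∧
      (∀ s ∈ S, ∃ (X : Type) (_ : MetricSpace X) (_ : MulAction G X),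
        (∀ (h : G) (x y : X), dist (h • x) (h • y) = dist x y) ∧
        (∃ δ : ℝ, ∀ x y z w : X,
          dist x y + dist z w ≤ max (dist x z + dist y w) (dist x w + dist y z) + 2 * δ) ∧
        (∀ ε : ℝ, 0 < ε → ∃ (R : ℝ) (N : ℕ), ∀ x y : X, R ≤ dist x y →
          {h : G | dist x (h • x) ≤ ε ∧ dist y (h • y) ≤ ε}.Finite ∧
          {h : G | dist x (h • x) ≤ ε ∧ dist y (h • y) ≤ ε}.ncard ≤ N) ∧
        (∃ x : X, ∃ c : ℝ, 0 < c ∧ ∀ n : ℕ, c * (n : ℝ) ≤ dist x ((s ^ n) • x))) ∧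
      ∀ s ∈ S, ∀ t ∈ S, s ≠ t → s * t ≠ t * s := by
  rintro G _ hG hv ⟨g, X, i1, i2, iso, ⟨δ, hyp⟩, acy, x, c, hc, hg⟩ -
  obtain ⟨k, hk⟩ := H.MP_10a497_al.good g x hc hg (2 * δ + 1 + 2 * δ)
  obtain ⟨S, h1, h2, h3⟩ := H.MP_10a497_al.main iso hyp (g ^ k) x (by linarith)
    (fun ε h => by
      obtain ⟨R, N, h⟩ := acy ε h
      exact ⟨R, fun x y c => (h x y c).1⟩) hG hv
  exact ⟨S, h1, fun s hs => ⟨X, i1, i2, iso, ⟨δ, hyp⟩, acy, x, h2 s hs⟩, h3⟩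

end Pool.Agent.S00755
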