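import Pool.Statements.S00777
import Pool.Agent.H.MP_1358e2_al.B

set_option autoImplicit false
open Pool Pool.MP_1358e2_al

namespace Pool.Agent.S00777

/-- There exist n and r ∈ F(Fin n) such that ⟨Fin n ∣ r⟩ is residually finite (each g≠1 avoids some finite-index normal subgroup) and some g≠1 lies in every term of the derived series (i.e., not residually solvable). -/
theorem result :
    ∃ (n : ℕ) (r : FreeGroup (Fin n)),
      (∀ g : PresentedGroup ({r} : Set (FreeGroup (Fin n))), g ≠ 1 →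
        ∃ N : Subgroup (PresentedGroup ({r} : Set (FreeGroup (Fin n)))),
          N.Normal ∧ N.FiniteIndex ∧ g ∉ N) ∧
      ∃ g : PresentedGroup ({r} : Set (FreeGroup (Fin n))), g ≠ 1 ∧
        ∀ k : ℕ, g ∈ derivedSeries (PresentedGroup ({r} : Set (FreeGroup (Fin n)))) k := by
  refine ⟨3, Pool.Agent.H.MP_1358e2_al.rel, fun g hg => ?_, PresentedGroup.of 0,
    Pool.Agent.H.MP_1358e2_al.a_ne, Pool.Agent.H.MP_1358e2_al.a_der⟩
  obtain ⟨P, _, _, ρ, hρ⟩ := Pool.Agent.H.MP_1358e2_al.E_rf (Pool.Agent.H.MP_1358e2_al.toE g)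
    (fun h => hg (Pool.Agent.H.MP_1358e2_al.toE_inj (h.trans (map_one _).symm)))
  exact ⟨(ρ.comp Pool.Agent.H.MP_1358e2_al.toE).ker, inferInstance, Subgroup.finiteIndex_ker _, hρ⟩

end Pool.Agent.S00777
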