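import Pool.Statements.S00790
-- import your own Pool.Agent.* helpers here

set_option autoImplicit false
open Pool Pool.MP_145108_al

namespace Pool.Agent.S00790

noncomputable section

abbrev OO := PowerSeries ℚ
abbrev QQ := FractionRing OO
abbrev VV := Polynomial ℚ

/-- the torsion module `Q / O` -/
def MM : Type := QQ ⧸ (1 : Submodule OO QQ)

instance : AddCommGroup MM := inferInstanceAs (AddCommGroup (QQ ⧸ (1 : Submodule OO QQ)))
instance : Module OO MM := inferInstanceAs (Module OO (QQ ⧸ (1 : Submodule OO QQ)))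

def mk : QQ →ₗ[OO] MM := (1 : Submodule OO QQ).mkQ

theorem mk_surj : Function.Surjective mk := Submodule.mkQ_surjective _
theorem mk_eq_zero (x : QQ) : mk x = 0 ↔ ∃ a : OO, algebraMap OO QQ a = x := by
  rw [← Submodule.mem_one]
  exact Submodule.Quotient.mk_eq_zero _

def qi : OO := (1 + PowerSeries.X + PowerSeries.X ^ 2 : OO)⁻¹

theorem q_mul : (1 + PowerSeries.X + PowerSeries.X ^ 2 : OO) * qi = 1 :=
  PowerSeries.mul_inv_cancel _ (by simp)

def sr : OO := -PowerSeries.X * qi
def sl : OO := 1 - PowerSeries.X ^ 2 * qi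

def rho : VV →+* OO := (Polynomial.aeval sr).toRingHom
def sig : VV →+* OO := (Polynomial.aeval sl).toRingHom

instance : Module VV MM := Module.compHom MM sig
instance : Module VVᵐᵒᵖ MM := Module.compHom MM (rho.comp (RingEquiv.toOpposite VV).symm.toRingHom)

theorem lsmul (a : VV) (m : MM) : a • m = sig a • m := rfl
theorem rsmul (a : VV) (m : MM) : MulOpposite.op a • m = rho a • m := rfl

instance : SMulCommClass VV VVᵐᵒᵖ MM := ⟨fun a b m => by
  induction b using MulOpposite.rec' with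
  | h b => rw [lsmul, rsmul, rsmul, lsmul, smul_comm]⟩

abbrev RR := TrivSqZeroExt VV MM

theorem qi_ne : qi ≠ 0 := fun h => by simpa [h] using q_mul

theorem sig_ne (a : VV) (ha : a ≠ 0) : sig a ≠ 0 := by
  obtain ⟨b, hb, hb'⟩ := Polynomial.exists_eq_pow_rootMultiplicity_mul_and_not_dvd a ha 1
  rw [hb, map_mul, map_pow]
  refine mul_ne_zero (pow_ne_zero _ ?_) ?_
  · have : sig (Polynomial.X - Polynomial.C 1) = -(PowerSeries.X ^ 2 * qi) := by
      simp [sig, sl]
    rw [this]
    exact neg_ne_zero.mpr (mul_ne_zero (pow_ne_zero _ PowerSeries.X_ne_zero) qi_ne)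
  · intro h
    apply hb'
    rw [Polynomial.dvd_iff_isRoot, Polynomial.IsRoot.def]
    have key : ∀ c : VV, PowerSeries.constantCoeff (sig c) = c.eval 1 := by
      intro c
      induction c using Polynomial.induction_on' with
      | add p q hp hq => simp [hp, hq]
      | monomial n r => simp [sig, sl, Polynomial.aeval_monomial]
    rw [← key, h, map_zero]

theorem divis (f : OO) (hf : f ≠ 0) (m : MM) : ∃ m' : MM, f • m' = m := by
  obtain ⟨x, rfl⟩ := mk_surj m
  have : algebraMap OO QQ f ≠ 0 := fun h => hf (IsFractionRing.injective OO QQ (by simpa using h))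
  refine ⟨mk (x / algebraMap OO QQ f), ?_⟩
  rw [← map_smul, Algebra.smul_def, mul_div_cancel₀ _ this]

theorem tors (m : MM) : ∃ n : ℕ, (PowerSeries.X : OO) ^ n • m = 0 := by
  obtain ⟨x, rfl⟩ := mk_surj m
  obtain ⟨a, b, hb, rfl⟩ := IsFractionRing.div_surjective OO x
  have hb0 : b ≠ 0 := nonZeroDivisors.ne_zero hb
  obtain ⟨n, u, rfl⟩ := IsDiscreteValuationRing.eq_unit_mul_pow_irreducible hb0
    (PowerSeries.X_irreducible (R := ℚ))
  refine ⟨n, ?_⟩
  rw [← map_smul, mk_eq_zero]
  refine ⟨a * (u⁻¹).val, ?_⟩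
  have h1 : algebraMap OO QQ (u.val * PowerSeries.X ^ n) ≠ 0 :=
    fun h => hb0 (IsFractionRing.injective OO QQ (by rw [map_zero]; exact h))
  rw [Algebra.smul_def, mul_div_assoc', eq_div_iff h1, ← map_mul, ← map_mul]
  congr 1
  calc a * (u⁻¹).val * (u.val * PowerSeries.X ^ n) =
        a * ((u⁻¹).val * u.val) * PowerSeries.X ^ n := by ring
    _ = _ := by rw [Units.inv_mul]; ring

theorem approx (n : ℕ) : ∀ f : OO, ∃ (a : VV) (g : OO), f = rho a + PowerSeries.X ^ n * g := by
  induction n with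
  | zero => exact fun f => ⟨0, f, by simp⟩
  | succ n ih =>
    intro f
    obtain ⟨a, g, h⟩ := ih (-(1 + PowerSeries.X + PowerSeries.X ^ 2) *
      PowerSeries.mk fun p => PowerSeries.coeff (p + 1) f)
    refine ⟨Polynomial.C (PowerSeries.constantCoeff f) + Polynomial.X * a, -qi * g, ?_⟩
    have h1 := PowerSeries.eq_X_mul_shift_add_const f
    have h2 : rho (Polynomial.C (PowerSeries.constantCoeff f) + Polynomial.X * a) =
        PowerSeries.C (PowerSeries.constantCoeff f) + sr * rho a := by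
      simp [rho, PowerSeries.C_eq_algebraMap]
    rw [h2, sr]
    set t := PowerSeries.mk fun p => PowerSeries.coeff (p + 1) f
    have h3 := q_mul
    linear_combination h1 - PowerSeries.X * qi * h - PowerSeries.X * t * h3

theorem rho_smul (f : OO) (m : MM) : ∃ a : VV, rho a • m = f • m := by
  obtain ⟨n, hn⟩ := tors m
  obtain ⟨a, g, h⟩ := approx n f
  refine ⟨a, ?_⟩
  rw [h, add_smul, mul_comm, mul_smul, hn, smul_zero, add_zero]

theorem uniserial (m m' : MM) : (∃ a : VV, rho a • m = m') ∨ ∃ a : VV, rho a • m' = m := by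
  obtain ⟨x, rfl⟩ := mk_surj m
  obtain ⟨y, rfl⟩ := mk_surj m'
  by_cases hx : x = 0
  · right
    exact ⟨0, by simp [hx]⟩
  by_cases hy : y = 0
  · left
    exact ⟨0, by simp [hy]⟩
  rcases ValuationRing.isInteger_or_isInteger OO (y / x) with ⟨f, hf⟩ | ⟨f, hf⟩
  · left
    obtain ⟨a, ha⟩ := rho_smul f (mk x)
    refine ⟨a, ?_⟩
    rw [ha, ← map_smul, Algebra.smul_def, hf, div_mul_cancel₀ _ hx]
  · right
    obtain ⟨a, ha⟩ := rho_smul f (mk y)
    refine ⟨a, ?_⟩
    rw [ha, ← map_smul, Algebra.smul_def, hf, inv_div, div_mul_cancel₀ _ hy]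

open TrivSqZeroExt

theorem dich (I : Submodule RRᵐᵒᵖ RR) :
    (∀ x ∈ I, x.fst = 0) ∨ ∀ x : RR, x.fst = 0 → x ∈ I := by
  by_cases h : ∀ x ∈ I, x.fst = 0
  · exact Or.inl h
  right
  push Not at h
  obtain ⟨y, hy, hy0⟩ := h
  intro x hx
  obtain ⟨m, hm⟩ := divis _ (sig_ne _ hy0) x.snd
  have := I.smul_mem (MulOpposite.op (inr m)) hy
  rw [op_smul_eq_mul] at this
  convert this using 1
  ext1
  · simp [hx]
  · simp [lsmul, hm]

theorem small (b c : Submodule RRᵐᵒᵖ RR) (hb : ∀ x ∈ b, x.fst = 0) (hc : ∀ x ∈ c, x.fst = 0) :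
    b ≤ c ∨ c ≤ b := by
  by_contra h
  push Not at h
  obtain ⟨x, hx, hx'⟩ := SetLike.not_le_iff_exists.mp h.1
  obtain ⟨y, hy, hy'⟩ := SetLike.not_le_iff_exists.mp h.2
  rcases uniserial x.snd y.snd with ⟨a, ha⟩ | ⟨a, ha⟩
  · apply hy'
    have := b.smul_mem (MulOpposite.op (inl a)) hx
    rw [op_smul_eq_mul] at this
    convert this using 1
    ext1
    · simp [hb x hx, hc y hy]
    · simp [rsmul, ha]
  · apply hx'
    have := c.smul_mem (MulOpposite.op (inl a)) hy
    rw [op_smul_eq_mul] at this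
    convert this using 1
    ext1
    · simp [hb x hx, hc y hy]
    · simp [rsmul, ha]

theorem rdist (a b c : Submodule RRᵐᵒᵖ RR) : a ⊓ (b ⊔ c) = (a ⊓ b) ⊔ (a ⊓ c) := by
  have comp : b ≤ c ∨ c ≤ b → a ⊓ (b ⊔ c) = (a ⊓ b) ⊔ (a ⊓ c) := by
    rintro (h | h)
    · rw [sup_eq_right.mpr h, sup_eq_right.mpr (inf_le_inf_left a h)]
    · rw [sup_eq_left.mpr h, sup_eq_left.mpr (inf_le_inf_left a h)]
  rcases dich b with hb | hb
  · rcases dich c with hc | hc
    · exact comp (small b c hb hc)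
    · exact comp (Or.inl fun x hx => hc x (hb x hx))
  rcases dich c with hc | hc
  · exact comp (Or.inr fun x hx => hb x (hc x hx))
  refine le_antisymm ?_ le_inf_sup
  rintro x ⟨hxa, hx⟩
  obtain ⟨y, hy, z, hz, hyz⟩ := Submodule.mem_sup.mp hx
  rcases dich a with ha | ha
  · exact Submodule.mem_sup_left ⟨hxa, hb x (ha x hxa)⟩
  classical
  obtain ⟨y', z', h1, h2, h3⟩ := extract_gcd y.fst z.fst
  obtain ⟨u, v, huv⟩ := (gcd_isUnit_iff _ _).mp h3
  set g := gcd y.fst z.fst
  have hx1 : x.fst = g * (y' + z') := by rw [← hyz, fst_add, h1, h2]; ring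
  have mulmem : ∀ (I : Submodule RRᵐᵒᵖ RR) (w : RR) (r : VV), w ∈ I → w * inl r ∈ I := by
    intro I w r hw
    have := I.smul_mem (MulOpposite.op (inl r)) hw
    rwa [op_smul_eq_mul] at this
  have hp : x * inl (y' * u) ∈ b := by
    have := b.add_mem (mulmem b y ((y' + z') * u) hy)
      (hb (x * inl (y' * u) - y * inl ((y' + z') * u)) (by
        rw [fst_sub, fst_mul, fst_mul, fst_inl, fst_inl, hx1, h1]; ring))
    simpa using this
  have hq : x - x * inl (y' * u) ∈ c := by
    have := c.add_mem (mulmem c z ((y' + z') * v) hz)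
      (hc (x - x * inl (y' * u) - z * inl ((y' + z') * v)) (by
        rw [fst_sub, fst_sub, fst_mul, fst_mul, fst_inl, fst_inl, hx1, h2]
        linear_combination (-g * (y' + z')) * huv))
    simpa using this
  exact Submodule.mem_sup.mpr ⟨_, ⟨mulmem a x _ hxa, hp⟩, _,
    ⟨a.sub_mem hxa (mulmem a x _ hxa), hq⟩, by abel⟩

def WW : Subring VV := RingHom.eqLocus sig rho

theorem integral (a : VV) : IsIntegral WW a := by
  have hC : ∀ r : ℚ, Polynomial.C r ∈ WW := fun r => by
    show sig _ = rho _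
    simp [sig, rho]
  have ht : (Polynomial.X ^ 3 - Polynomial.X ^ 2 : VV) ∈ WW := by
    show sig _ = rho _
    simp only [sig, rho, map_sub, map_pow, AlgHom.toRingHom_eq_coe, RingHom.coe_coe,
      Polynomial.aeval_X, sl, sr]
    have h3 := q_mul
    linear_combination (PowerSeries.X ^ 2 * qi * (1 + qi * (1 + PowerSeries.X -
      PowerSeries.X ^ 2)) - PowerSeries.X ^ 2 * qi ^ 2 * (1 + PowerSeries.X) +
      PowerSeries.X ^ 3 * qi ^ 2) * h3
  have hX : IsIntegral WW (Polynomial.X : VV) := by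
    obtain ⟨t, ht'⟩ : ∃ t : WW, algebraMap WW VV t = Polynomial.X ^ 3 - Polynomial.X ^ 2 :=
      ⟨⟨_, ht⟩, rfl⟩
    refine ⟨Polynomial.X ^ 3 - (Polynomial.X ^ 2 + Polynomial.C t), ?_, ?_⟩
    · monicity!
    · rw [Polynomial.eval₂_sub, Polynomial.eval₂_add, Polynomial.eval₂_X_pow,
        Polynomial.eval₂_X_pow, Polynomial.eval₂_C, ht']
      ring
  induction a using Polynomial.induction_on' with
  | add p q hp hq => exact hp.add hq
  | monomial n r =>
    rw [← Polynomial.C_mul_X_pow_eq_monomial]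
    exact (isIntegral_algebraMap (x := (⟨_, hC r⟩ : WW))).mul (hX.pow n)

def toC : WW →+* Subring.center RR :=
  ((inlHom VV MM).comp WW.subtype).codRestrict _ (by
    intro w
    rw [Subring.mem_center_iff]
    intro x
    have hw : sig w = rho w := w.2
    ext1
    · simp [mul_comm]
    · simp [lsmul, rsmul, hw])

def fstR : RR →+* VV where
  toFun := fst
  map_one' := fst_one
  map_mul' := fst_mul
  map_zero' := fst_zero
  map_add' := fst_add

def xi : QQ := (algebraMap OO QQ PowerSeries.X)⁻¹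

theorem x_ne : algebraMap OO QQ PowerSeries.X ≠ 0 :=
  fun h => PowerSeries.X_ne_zero (IsFractionRing.injective OO QQ (by simpa using h))

theorem sig_split (a : VV) : ∃ (r : ℚ) (g : OO),
    sig a = PowerSeries.C r + PowerSeries.X ^ 2 * g := by
  induction a using Polynomial.induction_on with
  | C r => exact ⟨r, 0, by simp [sig, PowerSeries.C_eq_algebraMap]⟩
  | add p q hp hq =>
    obtain ⟨r, g, h⟩ := hp
    obtain ⟨r', g', h'⟩ := hq
    exact ⟨r + r', g + g', by rw [map_add, h, h', map_add]; ring⟩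
  | monomial n r ih =>
    obtain ⟨r', g, h⟩ := ih
    refine ⟨r', g - qi * (PowerSeries.C r' + PowerSeries.X ^ 2 * g), ?_⟩
    have : sig Polynomial.X = sl := by simp [sig]
    rw [pow_succ, ← mul_assoc, map_mul, h, this, sl]
    ring

theorem kill (f : OO) : f • mk (xi ^ 2) = 0 ↔ PowerSeries.X ^ 2 ∣ f := by
  rw [← map_smul, mk_eq_zero, Algebra.smul_def]
  have hx := x_ne
  constructor
  · rintro ⟨a, ha⟩
    refine ⟨a, IsFractionRing.injective OO QQ ?_⟩
    rw [map_mul, map_pow, ha, xi]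
    field_simp
  · rintro ⟨a, rfl⟩
    refine ⟨a, ?_⟩
    rw [map_mul, map_pow, xi]
    field_simp

end

open TrivSqZeroExt in
theorem result :
    ¬ (∀ (R : Type) [Ring R],
      (∀ a b c : Submodule Rᵐᵒᵖ R, a ⊓ (b ⊔ c) = (a ⊓ b) ⊔ (a ⊓ c)) →
      (∀ x : R, ∃ p : Polynomial (Subring.center R),
          p.Monic ∧ Polynomial.eval₂ (Subring.center R).subtype x p = 0) →
      ∀ a b c : Submodule R R, a ⊓ (b ⊔ c) = (a ⊓ b) ⊔ (a ⊓ c)) := by
  intro hall
  have h := hall RR rdist (by
    intro x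
    obtain ⟨p, hp, hp0⟩ := integral x.fst
    refine ⟨p.map toC * p.map toC, (hp.map toC).mul (hp.map toC), ?_⟩
    rw [Polynomial.eval₂_mul_noncomm _ _ (fun k => by
      exact (Subring.mem_center_iff.mp ((p.map toC).coeff k).2 x).symm)]
    have h1 : (Polynomial.eval₂ (Subring.center RR).subtype x (p.map toC)).fst = 0 := by
      have := Polynomial.hom_eval₂ (p.map toC) (Subring.center RR).subtype fstR x
      refine this.trans ?_
      have e : (fstR.comp (Subring.center RR).subtype).comp toC = algebraMap WW VV :=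
        RingHom.ext fun _ => rfl
      rw [Polynomial.eval₂_map, e]
      exact hp0
    ext1
    · rw [fst_mul, h1, zero_mul, fst_zero]
    · rw [snd_mul, h1]; simp)
  let e : MM := mk (xi ^ 2)
  let N : OO → Submodule RR RR := fun f => Submodule.span RR {inr (f • e)}
  have hN : ∀ (f : OO) (x : RR), x ∈ N f → ∃ r : ℚ, x = inr ((PowerSeries.C r * f) • e) := by
    intro f x hx
    obtain ⟨y, rfl⟩ := Submodule.mem_span_singleton.mp hx
    obtain ⟨r, g, hg⟩ := sig_split y.fst
    refine ⟨r, ?_⟩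
    have h0 : (PowerSeries.X ^ 2 * g * f) • e = 0 := (kill _).mpr ⟨g * f, by ring⟩
    ext1
    · simp
    · simp only [smul_eq_mul, snd_mul, snd_inr, fst_inr, MulOpposite.op_zero, zero_smul, add_zero,
        lsmul, hg]
      rw [← mul_smul, add_mul, add_smul, h0, add_zero]
  have h1 : (inr ((1 + PowerSeries.X : OO) • e) : RR) ∈
      N (1 + PowerSeries.X) ⊓ (N 1 ⊔ N PowerSeries.X) := by
    refine ⟨Submodule.mem_span_singleton_self _, ?_⟩
    rw [add_smul, inr_add]
    exact Submodule.add_mem_sup (Submodule.mem_span_singleton_self _)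
      (Submodule.mem_span_singleton_self _)
  have coef : ∀ f g : OO, f • e = g • e →
      PowerSeries.coeff 0 f = PowerSeries.coeff 0 g ∧
      PowerSeries.coeff 1 f = PowerSeries.coeff 1 g := by
    intro f g hfg
    have : (f - g) • e = 0 := by rw [sub_smul, hfg, sub_self]
    have h2 := PowerSeries.X_pow_dvd_iff.mp ((kill _).mp this)
    exact ⟨by simpa [sub_eq_zero] using h2 0 (by norm_num),
      by simpa [sub_eq_zero] using h2 1 (by norm_num)⟩
  rw [h] at h1
  obtain ⟨y, ⟨hy1, hy2⟩, z, ⟨hz1, hz2⟩, hyz⟩ := Submodule.mem_sup.mp h1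
  obtain ⟨r1, e1⟩ := hN _ _ hy1
  obtain ⟨r2, e2⟩ := hN _ _ hy2
  obtain ⟨r3, e3⟩ := hN _ _ hz1
  obtain ⟨r4, e4⟩ := hN _ _ hz2
  have c1 := (coef _ _ (inr_injective (e1.symm.trans e2))).2
  have c2 := (coef _ _ (inr_injective (e3.symm.trans e4))).1
  rw [e1, e3, ← inr_add, ← add_smul] at hyz
  have c3 := (coef _ _ (inr_injective hyz)).1
  simp [PowerSeries.coeff_one, PowerSeries.coeff_C] at c1 c2 c3
  rw [c1, c2] at c3
  norm_num at c3

end Pool.Agent.S00790
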