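import Pool.Statements.S00793
import Pool.Agent.H.MP_14caef_al.A

set_option autoImplicit false
open Pool Pool.MP_14caef_al

namespace Pool.Agent.S00793

/-- For each e ≥ 3 and all large m, every numerical semigroup with multiplicity m and embedding dimension e+1 has type strictly less than C(e+r−2, r−1) + s_⟨r⟩, with r and s from the Macaulay-type bound. -/
theorem result : ∀ e : ℕ, 3 ≤ e → ∃ M : ℕ, ∀ m : ℕ, M ≤ m →
    ∀ r : ℕ, (e + r - 1).choose (r - 1) ≤ m → m < (e + r).choose r →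
    ∀ j : ℕ, ∀ n : ℕ → ℕ, 1 ≤ j → j ≤ r + 1 →
      (∀ i : ℕ, j ≤ i → i < r → n i < n (i + 1)) →
      (∀ i : ℕ, j ≤ i → i ≤ r → i ≤ n i) →
      m - (e + r - 1).choose (r - 1) = ∑ i ∈ Finset.Icc j r, (n i).choose i →
      ∀ S : AddSubmonoid ℕ, (S : Set ℕ)ᶜ.Finite →
        (m ∈ S ∧ m ≠ 0 ∧ ∀ x ∈ S, x ≠ 0 → m ≤ x) →
        {x : ℕ | x ∈ S ∧ x ≠ 0 ∧ ¬ ∃ a ∈ S, ∃ b ∈ S, a ≠ 0 ∧ b ≠ 0 ∧ a + b = x}.ncard = e + 1 →
        {x : ℕ | x ∉ S ∧ ∀ s ∈ S, s ≠ 0 → x + s ∈ S}.ncard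
          < (e + r - 2).choose (r - 1) + ∑ i ∈ Finset.Icc j r, (n i - 1).choose i := by
  classical
  intro e he
  obtain ⟨k, rfl⟩ := Nat.exists_eq_add_of_le' (show 1 ≤ e by omega)
  obtain ⟨R, hR⟩ := H.MP_14caef_al.comb k (by omega)
  refine ⟨(k + 1 + R).choose (k + 1), fun m hm r _ h2 j n _ _ _ _ _ S _ ⟨mS, m0, ml⟩ hA => ?_⟩
  rw [Nat.choose_symm_add.symm] at h2
  obtain ⟨r, rfl⟩ : ∃ r', r = r' + 1 := ⟨r - 1, by
    rcases r with _ | r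
    · simp at h2
      have := Nat.choose_pos (show k + 1 ≤ k + 1 + R by omega)
      omega
    · rfl⟩
  have hr : R ≤ r := by
    by_contra q
    have := Nat.choose_le_choose (k + 1) (show k + 1 + (r + 1) ≤ k + 1 + R by omega)
    omega
  refine lt_of_lt_of_le ?_ (Nat.le_add_right _ _)
  rw [show k + 1 + (r + 1) - 2 = r + k by omega, Nat.add_sub_cancel, Nat.choose_symm_add]
  rw [show k + 1 + (r + 1) = r + 1 + k + 1 by omega] at h2
  obtain ⟨A, hA'⟩ : ∃ A, A = {x : ℕ | x ∈ S ∧ x ≠ 0 ∧ ¬ ∃ a ∈ S, ∃ b ∈ S, a ≠ 0 ∧ b ≠ 0 ∧ a + b = x} :=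
    ⟨_, rfl⟩
  rw [← hA'] at hA
  have mA : m ∈ A := hA' ▸ ⟨mS, m0, fun ⟨a, ha, b, hb, a0, b0, q⟩ => by
    have := ml a ha a0
    omega⟩
  have fA : A.Finite := Set.finite_of_ncard_ne_zero (by omega)
  have c1 : (fA.toFinset.erase m).card = k + 1 := by
    rw [Finset.card_erase_of_mem (fA.mem_toFinset.2 mA), ← Set.ncard_eq_toFinset_card A fA, hA]
    rfl
  let g : Fin (k + 1) → ℕ := (fA.toFinset.erase m).orderEmbOfFin c1
  have gA (i) : g i ∈ A := fA.mem_toFinset.1 (Finset.mem_of_mem_erase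
    (Finset.orderEmbOfFin_mem _ c1 i))
  have gS (a : Fin (k + 1) → ℕ) : a ⬝ᵥ g ∈ S :=
    S.sum_mem fun i _ => S.nsmul_mem (hA' ▸ gA i).1 _
  have gen (s) (hs : s ∈ S) : ∃ a c, s = a ⬝ᵥ g + c * m := by
    induction s using Nat.strong_induction_on with
    | _ s ih =>
    by_cases s0 : s = 0
    · exact ⟨0, 0, by simp [s0]⟩
    by_cases q : s ∈ A
    · by_cases z : s = m
      · exact ⟨0, 1, by simp [z]⟩
      obtain ⟨i, hi⟩ : s ∈ Set.range g := by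
        rw [Finset.range_orderEmbOfFin]
        exact Finset.mem_erase.2 ⟨z, fA.mem_toFinset.2 q⟩
      exact ⟨Pi.single i 1, 0, by simp [hi]⟩
    obtain ⟨a, ha, b, hb, a0, b0, rfl⟩ : ∃ a ∈ S, ∃ b ∈ S, a ≠ 0 ∧ b ≠ 0 ∧ a + b = s := by
      by_contra z
      exact q (hA' ▸ ⟨hs, s0, z⟩)
    obtain ⟨u, c, hu⟩ := ih a (by omega) ha
    obtain ⟨v, d, hv⟩ := ih b (by omega) hb
    exact ⟨u + v, c + d, by rw [add_dotProduct, hu, hv]; ring⟩
  let P (a : Fin (k + 1) → ℕ) : Prop :=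
    (¬∃ s ∈ S, a ⬝ᵥ g = s + m) ∧ ∀ b, b ⬝ᵥ g = a ⬝ᵥ g → toLex a ≤ toLex b
  have inj (a) (ha : P a) (b) (hb : P b) (q : a ⬝ᵥ g ≡ b ⬝ᵥ g [MOD m]) : a = b := by
    have f (a b) (ha : P a) (q : b ⬝ᵥ g ≡ a ⬝ᵥ g [MOD m]) : a ⬝ᵥ g ≤ b ⬝ᵥ g := by
      by_contra! l
      obtain ⟨c, hc⟩ := (Nat.modEq_iff_dvd' l.le).1 q
      obtain ⟨c, rfl⟩ := Nat.exists_eq_add_of_le' (show 1 ≤ c from Nat.pos_of_ne_zero (by
        rintro rfl; omega))
      refine ha.1 ⟨_, S.add_mem (gS b) (S.nsmul_mem mS c), ?_⟩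
      rw [smul_eq_mul, mul_comm]
      rw [mul_add] at hc
      omega
    have := le_antisymm (f a b ha q.symm) (f b a hb q)
    exact toLex.injective (le_antisymm (ha.2 b this.symm) (hb.2 a this))
  have fP : {a | P a}.Finite := Set.Finite.of_finite_image (f := fun a => a ⬝ᵥ g % m)
    ((Set.finite_lt_nat m).subset (by
      rintro _ ⟨a, -, rfl⟩
      exact Nat.mod_lt _ (Nat.pos_of_ne_zero m0))) fun a ha b hb => inj a ha b hb
  refine lt_of_le_of_lt ?_ (hR r hr m g fP.toFinset (Nat.pos_of_ne_zero m0) h2 (fun a b h => ?_)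
    fun a ha b hb => inj a (fP.mem_toFinset.1 ha) b (fP.mem_toFinset.1 hb))
  · rw [← Set.ncard_coe_finset]
    refine le_trans (Set.ncard_le_ncard (t := (fun a => a ⬝ᵥ g - m) '' _) ?_)
      (Set.ncard_image_le (Finset.finite_toSet _))
    rintro x ⟨x1, x2⟩
    obtain ⟨a, c, h⟩ := gen _ (x2 m mS m0)
    obtain rfl : c = 0 := by
      rcases c with _ | c
      · rfl
      · refine absurd ?_ x1
        rw [show x = a ⬝ᵥ g + c • m by rw [add_mul] at h; rw [smul_eq_mul]; omega]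
        exact S.add_mem (gS a) (S.nsmul_mem mS c)
    obtain ⟨b, b1, b2⟩ := exists_minimal_of_wellFoundedLT
      (fun b : Lex (Fin (k + 1) → ℕ) => ofLex b ⬝ᵥ g = x + m) ⟨toLex a, by simpa using h.symm⟩
    refine ⟨ofLex b, Finset.mem_filter.2 ⟨fP.mem_toFinset.2 ⟨fun ⟨s, hs, q⟩ => x1 ?_, fun d hd =>
      not_lt.1 fun l => l.not_ge (b2 (hd.trans b1) l.le)⟩, fun i q => ?_⟩, by simp [b1]⟩
    · rwa [show x = s by omega]
    · refine (fP.mem_toFinset.1 q).1 ⟨_, x2 _ (hA' ▸ gA i).1 (hA' ▸ gA i).2.1, ?_⟩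
      rw [add_dotProduct, b1, single_dotProduct]
      ring
  · obtain ⟨h1, h3⟩ := fP.mem_toFinset.1 h
    refine fP.mem_toFinset.2 ⟨fun ⟨s, hs, q⟩ => h1 ⟨_, S.add_mem hs (gS b), ?_⟩, fun d hd => ?_⟩
    · rw [add_dotProduct, q]; ring
    · exact le_of_add_le_add_right (a := toLex b) (b := toLex a)
        (h3 (d + b) (by rw [add_dotProduct, add_dotProduct, hd]))

end Pool.Agent.S00793
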