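import Pool.Statements.S00798
import Pool.Agent.H.MP_15a5ff_al.B

set_option autoImplicit false
open Pool Pool.MP_15a5ff_al

namespace Pool.Agent.S00798

def Aff : Type := ℝ × ℝ

instance : TopologicalSpace Aff := inferInstanceAs (TopologicalSpace (ℝ × ℝ))
instance : LocallyCompactSpace Aff := inferInstanceAs (LocallyCompactSpace (ℝ × ℝ))
instance : T2Space Aff := inferInstanceAs (T2Space (ℝ × ℝ))
instance : SecondCountableTopology Aff := inferInstanceAs (SecondCountableTopology (ℝ × ℝ))
instance : ConnectedSpace Aff := inferInstanceAs (ConnectedSpace (ℝ × ℝ))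

noncomputable instance : Group Aff where
  mul p q := ((p.1 + Real.exp p.2 * q.1, p.2 + q.2) : ℝ × ℝ)
  one := ((0, 0) : ℝ × ℝ)
  inv p := ((-(Real.exp (-p.2) * p.1), -p.2) : ℝ × ℝ)
  mul_assoc p q r := by
    apply Prod.ext
    · show p.1 + Real.exp p.2 * q.1 + Real.exp (p.2 + q.2) * r.1 =
        p.1 + Real.exp p.2 * (q.1 + Real.exp q.2 * r.1)
      rw [Real.exp_add]; ring
    · exact add_assoc _ _ _
  one_mul p := by
    apply Prod.ext
    · show 0 + Real.exp 0 * p.1 = p.1
      simp
    · exact zero_add _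
  mul_one p := by
    apply Prod.ext
    · show p.1 + Real.exp p.2 * 0 = p.1
      simp
    · exact add_zero _
  inv_mul_cancel p := by
    apply Prod.ext
    · show -(Real.exp (-p.2) * p.1) + Real.exp (-p.2) * p.1 = 0
      ring
    · exact neg_add_cancel _

instance : IsTopologicalGroup Aff where
  continuous_mul := by
    show Continuous fun z : (ℝ × ℝ) × (ℝ × ℝ) =>
      ((z.1.1 + Real.exp z.1.2 * z.2.1, z.1.2 + z.2.2) : ℝ × ℝ)
    fun_prop
  continuous_inv := by
    show Continuous fun p : ℝ × ℝ => ((-(Real.exp (-p.2) * p.1), -p.2) : ℝ × ℝ)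
    fun_prop

noncomputable def tr : Multiplicative ℝ →* Aff where
  toFun x := ((x.toAdd, 0) : ℝ × ℝ)
  map_one' := rfl
  map_mul' x y := by
    apply Prod.ext
    · show x.toAdd + y.toAdd = x.toAdd + Real.exp 0 * y.toAdd
      simp
    · exact (add_zero _).symm

def di (a : ℝ) : Aff := ((0, a) : ℝ × ℝ)

theorem di_add (a b : ℝ) : di (a + b) = di a * di b := by
  apply Prod.ext
  · show (0 : ℝ) = 0 + Real.exp a * 0
    simp
  · rfl

theorem di_tr (a x : ℝ) : di a * tr (Multiplicative.ofAdd x) * (di a)⁻¹ =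
    tr (Multiplicative.ofAdd (Real.exp a * x)) := by
  rw [mul_inv_eq_iff_eq_mul]
  apply Prod.ext
  · show 0 + Real.exp a * x = Real.exp a * x + Real.exp 0 * 0
    simp
  · show a + 0 = 0 + a
    simp

theorem result :
    ¬ (∃ (S : Type) (_ : TopologicalSpace S) (_ : Group S),
      IsTopologicalGroup S ∧ LocallyCompactSpace S ∧ T2Space S ∧ SecondCountableTopology S ∧
      ∀ (G : Type) [TopologicalSpace G] [Group G] [IsTopologicalGroup G]
        [LocallyCompactSpace G] [T2Space G] [SecondCountableTopology G] [ConnectedSpace G],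
        ∃ f : G →* S, Function.Injective f) := by
  rintro ⟨S, _, _, _, _, _, _, h⟩
  obtain ⟨n, hn⟩ := Pool.Agent.H.MP_15a5ff_al.main (S := S)
  obtain ⟨f, hf⟩ := h (Fin n → Aff)
  refine hn (fun i => f.comp ((MonoidHom.mulSingle (fun _ : Fin n => Aff) i).comp tr))
    (fun i a => f (MonoidHom.mulSingle (fun _ : Fin n => Aff) i (di a))) ?_ ?_ ?_ ?_ ?_
  · intro i x y hxy
    have h1 := Pi.mulSingle_injective (M := fun _ : Fin n => Aff) i (hf hxy)
    exact Multiplicative.toAdd.injective (congrArg Prod.fst h1)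
  · intro i a b
    rw [di_add, map_mul, map_mul]
  · intro i a x
    simp only [MonoidHom.comp_apply]
    rw [← di_tr, map_mul, map_mul, map_mul, map_mul, map_inv, map_inv]
  · intro i j x y
    simp only [MonoidHom.comp_apply]
    rw [← map_mul, ← map_mul]
    congr 1
    by_cases hij : i = j
    · subst hij
      rw [← map_mul, ← map_mul, ← map_mul, ← map_mul, mul_comm]
    · exact (Pi.mulSingle_commute (f := fun _ : Fin n => Aff) hij _ _).eq
  · intro i j a y hij
    simp only [MonoidHom.comp_apply]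
    rw [← map_mul, ← map_mul]
    congr 1
    exact (Pi.mulSingle_commute (f := fun _ : Fin n => Aff) hij _ _).eq

end Pool.Agent.S00798
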