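import Pool.Statements.S00801
-- import your own Pool.Agent.* helpers here

set_option autoImplicit false
open Pool Pool.MP_166ce5_al

namespace Pool.Agent.S00801
open scoped Pointwise

/-! ### The lamplighter construction -/

abbrev R (G : Type) := MonoidAlgebra (ZMod 2) G

@[ext] structure W (G : Type) where
  f : R G
  g : G

section wreath
variable {G : Type} [Group G]

noncomputable instance : Mul (W G) :=
  ⟨fun a b => ⟨a.f + MonoidAlgebra.of (ZMod 2) G a.g * b.f, a.g * b.g⟩⟩
noncomputable instance : One (W G) := ⟨⟨0, 1⟩⟩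
noncomputable instance : Inv (W G) :=
  ⟨fun a => ⟨-(MonoidAlgebra.of (ZMod 2) G a.g⁻¹ * a.f), a.g⁻¹⟩⟩

lemma mul_f (a b : W G) : (a * b).f = a.f + MonoidAlgebra.of (ZMod 2) G a.g * b.f := rfl
lemma mul_g (a b : W G) : (a * b).g = a.g * b.g := rfl
lemma one_f : (1 : W G).f = 0 := rfl
lemma one_g : (1 : W G).g = 1 := rfl
lemma inv_f (a : W G) : (a⁻¹).f = -(MonoidAlgebra.of (ZMod 2) G a.g⁻¹ * a.f) := rfl
lemma inv_g (a : W G) : (a⁻¹).g = a.g⁻¹ := rfl

noncomputable instance : Group (W G) := Group.ofLeftAxioms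
  (fun a b c => W.ext (by
    simp only [mul_f, mul_g, map_mul, mul_add, mul_assoc, add_assoc]) (mul_assoc _ _ _))
  (fun a => W.ext (by rw [mul_f, one_f, one_g, map_one, one_mul, zero_add]) (one_mul _))
  (fun a => W.ext (by rw [mul_f, inv_f, inv_g, one_f, neg_add_cancel]) (inv_mul_cancel _))

noncomputable def proj : W G →* G := MonoidHom.mk' W.g (fun _ _ => rfl)

lemma add_self (f : R G) : f + f = 0 := by
  rw [← two_smul (ZMod 2) f, show (2 : ZMod 2) = 0 from rfl, zero_smul]

lemma pow_two_mul {w : W G} {e : ℕ} (h : w.g ^ e = 1) : w ^ (2 * e) = 1 := by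
  have h1 : (w ^ e).g = 1 := (map_pow proj w e).trans h
  rw [two_mul, pow_add]
  refine W.ext ?_ (by rw [mul_g, h1, mul_one, one_g])
  rw [mul_f, h1, map_one, one_mul, add_self, one_f]

noncomputable def Wmap {Q : Type} [Group Q] (π : G →* Q) : W G →* W Q :=
  MonoidHom.mk' (fun a => ⟨MonoidAlgebra.mapDomainRingHom (ZMod 2) π a.f, π a.g⟩) (fun a b =>
    W.ext (by
      simp only [mul_f, map_add, map_mul]
      congr 2
      simp) (map_mul π _ _))

instance {Q : Type} [Finite Q] : Finite (W Q) := by
  have : Finite (Q →₀ ZMod 2) := Finite.of_injective _ DFunLike.coe_injective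
  have : Finite (R Q) := Finite.of_equiv _ (MonoidAlgebra.coeffEquiv (R := ZMod 2) (M := Q)).symm
  exact Finite.of_injective (fun a : W Q => (a.f, a.g)) (fun a b h =>
    W.ext (congrArg Prod.fst h) (congrArg Prod.snd h))

variable {L : Type} (σ : L → G)

def wd (u : List L) : G := (u.map σ).prod

lemma wd_nil : wd σ [] = 1 := rfl
lemma wd_cons (a : L) (u : List L) : wd σ (a :: u) = σ a * wd σ u := by simp [wd]
lemma wd_append (u v : List L) : wd σ (u ++ v) = wd σ u * wd σ v := by simp [wd]

noncomputable def len (g : G) : ℕ := sInf {n | ∃ u : List L, u.length = n ∧ wd σ u = g}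

lemma len_le (u : List L) : len σ (wd σ u) ≤ u.length := Nat.sInf_le ⟨u, rfl, rfl⟩

lemma len_spec (hgen : ∀ g, ∃ u, wd σ u = g) (g : G) :
    ∃ u : List L, u.length = len σ g ∧ wd σ u = g := by
  obtain ⟨u, hu⟩ := hgen g
  exact Nat.sInf_mem (s := {n | ∃ u : List L, u.length = n ∧ wd σ u = g}) ⟨_, u, rfl, hu⟩

lemma len_pred (hgen : ∀ g, ∃ u, wd σ u = g) {g : G} {n : ℕ} (h : len σ g = n + 1) :
    ∃ g' s, len σ g' = n ∧ g = g' * σ s := by
  obtain ⟨u, hu, rfl⟩ := len_spec σ hgen g
  rcases List.eq_nil_or_concat u with rfl | ⟨v, s, rfl⟩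
  · rw [h] at hu; simp at hu
  · rw [List.concat_eq_append] at hu h ⊢
    have e : wd σ (v ++ [s]) = wd σ v * σ s := by rw [wd_append, wd_cons, wd_nil, mul_one]
    refine ⟨wd σ v, s, ?_, e⟩
    have h1 := len_le σ v
    obtain ⟨v', hv', e'⟩ := len_spec σ hgen (wd σ v)
    have h2 := len_le σ (v' ++ [s])
    rw [wd_append, e', ← wd_append, h] at h2
    rw [h] at hu
    simp only [List.length_append, List.length_singleton] at hu h2
    omega

lemma len_surj [Finite L] [Infinite G] (hgen : ∀ g, ∃ u, wd σ u = g) (n : ℕ) :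
    ∃ g, len σ g = n := by
  have h1 : ∃ g, n ≤ len σ g := by
    by_contra hc
    push Not at hc
    have : (Set.univ : Set G).Finite := by
      refine ((List.finite_length_le L n).image (wd σ)).subset fun g _ => ?_
      obtain ⟨u, hu, e⟩ := len_spec σ hgen g
      exact ⟨u, by have := hc g; show u.length ≤ n; omega, e⟩
    exact Set.infinite_univ this
  obtain ⟨g, hg⟩ := h1
  obtain ⟨m, hm⟩ := Nat.exists_eq_add_of_le hg
  clear hg
  induction m generalizing g with
  | zero => exact ⟨g, hm⟩
  | succ m ih =>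
    obtain ⟨g', -, h, -⟩ := len_pred σ hgen (g := g) (n := n + m) hm
    exact ih g' h

noncomputable def gen (p : L × Bool) : W G := ⟨if p.2 then 1 else 0, σ p.1⟩

lemma many (hgen : ∀ g, ∃ u, wd σ u = g) (n : ℕ) : ∀ g, len σ g = n →
    ∃ Φ : Finset (R G), Φ.card = 2 ^ n ∧ ∀ f ∈ Φ, (∀ h, n ≤ len σ h → f.coeff h = 0) ∧
      ∃ l : List (W G), l.length = n ∧ (∀ x ∈ l, ∃ p, gen σ p = x) ∧ l.prod = ⟨f, g⟩ := by
  classical
  induction n with
  | zero =>
    intro g hg
    obtain ⟨u, hu, rfl⟩ := len_spec σ hgen g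
    rw [hg, List.length_eq_zero_iff] at hu
    subst hu
    refine ⟨{0}, by simp, fun f hf => ?_⟩
    rw [Finset.mem_singleton] at hf
    subst hf
    exact ⟨fun _ _ => rfl, [], rfl, by simp, rfl⟩
  | succ n ih =>
    intro g hg
    obtain ⟨g', s, h1, rfl⟩ := len_pred σ hgen hg
    obtain ⟨Φ, hc, hΦ⟩ := ih g' h1
    refine ⟨Φ ∪ Φ.image (· + MonoidAlgebra.of (ZMod 2) G g'), ?_, fun f hf => ?_⟩
    · rw [Finset.card_union_of_disjoint, Finset.card_image_of_injective _ (add_left_injective _),
        hc, pow_succ, mul_two]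
      rw [Finset.disjoint_left]
      intro f hf hf'
      obtain ⟨f', hf'', rfl⟩ := Finset.mem_image.1 hf'
      have h2 := (hΦ _ hf).1 g' h1.ge
      have h3 := (hΦ _ hf'').1 g' h1.ge
      simp [h3] at h2
    · rcases Finset.mem_union.1 hf with hf | hf
      · obtain ⟨h2, l, hl, hx, hp⟩ := hΦ f hf
        refine ⟨fun h hh => h2 h (by omega), l ++ [gen σ (s, false)], by simp [hl], ?_, ?_⟩
        · intro x hx'
          rcases List.mem_append.1 hx' with h | h
          · exact hx x h
          · exact ⟨_, (List.mem_singleton.1 h).symm⟩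
        · rw [List.prod_append, hp, List.prod_singleton]
          exact W.ext (by simp [mul_f, gen]) rfl
      · obtain ⟨f', hf', rfl⟩ := Finset.mem_image.1 hf
        obtain ⟨h2, l, hl, hx, hp⟩ := hΦ f' hf'
        refine ⟨fun h hh => ?_, l ++ [gen σ (s, true)], by simp [hl], ?_, ?_⟩
        · have : g' ≠ h := by rintro rfl; omega
          simp [h2 h (by omega), this]
        · intro x hx'
          rcases List.mem_append.1 hx' with h | h
          · exact hx x h
          · exact ⟨_, (List.mem_singleton.1 h).symm⟩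
        · rw [List.prod_append, hp, List.prod_singleton]
          exact W.ext (by simp [mul_f, gen]) rfl

theorem wreath [Fintype L] [Nonempty L] [Infinite G] (hinv : ∀ a, (σ a)⁻¹ = σ a)
    (hgen : ∀ g, ∃ u, wd σ u = g)
    (hrf : ∀ T : Finset G, ∃ (Q : Type) (_ : Group Q) (_ : Finite Q) (π : G →* Q),
      Set.InjOn π T)
    (hper : ∀ (j : ℕ) (u : List L), u.length ≤ 5 ^ j → wd σ u ^ (2 * 4 ^ j) = 1) :
    ∃ (G : Type) (_ : Group G) (S : Finset G),
      Infinite G ∧
      Subgroup.closure (S : Set G) = ⊤ ∧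
      (∀ g : G, IsOfFinOrder g) ∧
      (∀ g : G, g ≠ 1 → ∃ N : Subgroup G, N.Normal ∧ N.index ≠ 0 ∧ g ∉ N) ∧
      (∃ c : ℝ, 1 < c ∧ ∀ n : ℕ,
        c ^ n ≤ (({g : G | ∃ l : List G, l.length ≤ n ∧
          (∀ x ∈ l, x ∈ S ∨ x⁻¹ ∈ S) ∧ l.prod = g}).ncard : ℝ)) ∧
      (∀ ε : ℝ, 0 < ε → ∃ N : ℕ, ∀ n : ℕ, N ≤ n → ∀ g : G,
        (∃ l : List G, l.length ≤ n ∧ (∀ x ∈ l, x ∈ S ∨ x⁻¹ ∈ S) ∧ l.prod = g) →
        (orderOf g : ℝ) ≤ ε * n) := by
  classical
  have hS : ∀ x : W G, x ∈ Finset.univ.image (gen σ) ↔ ∃ p, gen σ p = x := by simp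
  refine ⟨W G, inferInstance, Finset.univ.image (gen σ), ?_, ?_, ?_, ?_, ?_, ?_⟩
  · exact Infinite.of_surjective W.g (fun g => ⟨⟨0, g⟩, rfl⟩)
  · set H := Subgroup.closure ((Finset.univ.image (gen σ) : Finset (W G)) : Set (W G))
    have h0 : ∀ p, gen σ p ∈ H := fun p => Subgroup.subset_closure ((hS _).2 ⟨p, rfl⟩)
    have h1 : ∀ g : G, (⟨0, g⟩ : W G) ∈ H := by
      intro g
      obtain ⟨u, rfl⟩ := hgen g
      induction u with
      | nil => exact H.one_mem
      | cons a u ih =>
        have : (⟨0, wd σ (a :: u)⟩ : W G) = gen σ (a, false) * ⟨0, wd σ u⟩ :=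
          W.ext (by simp [mul_f, gen]) (wd_cons σ a u)
        rw [this]
        exact H.mul_mem (h0 _) ih
    have h2 : ∀ f : R G, (⟨f, 1⟩ : W G) ∈ H := by
      intro f
      induction f using MonoidAlgebra.induction_linear with
      | zero => exact H.one_mem
      | add f f' hf hf' =>
        have : (⟨f + f', 1⟩ : W G) = ⟨f, 1⟩ * ⟨f', 1⟩ :=
          W.ext (by rw [mul_f, map_one, one_mul]) (mul_one _).symm
        rw [this]
        exact H.mul_mem hf hf'
      | single h c =>
        have hc : ∀ c : ZMod 2, c = 0 ∨ c = 1 := by decide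
        rcases hc c with rfl | rfl
        · rw [MonoidAlgebra.single_zero]; exact H.one_mem
        · obtain ⟨a⟩ := ‹Nonempty L›
          have : (⟨MonoidAlgebra.single h 1, 1⟩ : W G) =
              ⟨0, h⟩ * gen σ (a, true) * ⟨0, (h * σ a)⁻¹⟩ :=
            W.ext (by simp [mul_f, gen]) (by simp [mul_g, gen])
          rw [this]
          exact H.mul_mem (H.mul_mem (h1 _) (h0 _)) (h1 _)
    rw [Subgroup.eq_top_iff']
    rintro ⟨f, g⟩
    have : (⟨f, g⟩ : W G) = ⟨f, 1⟩ * ⟨0, g⟩ := W.ext (by simp [mul_f]) (one_mul _).symm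
    rw [this]
    exact H.mul_mem (h2 f) (h1 g)
  · intro w
    obtain ⟨u, hu⟩ := hgen w.g
    have := hper u.length u (Nat.lt_pow_self (by norm_num)).le
    rw [hu] at this
    exact isOfFinOrder_iff_pow_eq_one.2 ⟨_, by positivity, pow_two_mul this⟩
  · intro w hw
    obtain ⟨Q, _, _, π, hπ⟩ := hrf (w.f.coeff.support ∪ {1, w.g})
    refine ⟨(Wmap π).ker, inferInstance, Subgroup.FiniteIndex.index_ne_zero, fun h => hw ?_⟩
    rw [MonoidHom.mem_ker] at h
    have h1 : π w.g = π 1 := by rw [map_one]; exact congrArg W.g h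
    have h2 : MonoidAlgebra.mapDomainRingHom (ZMod 2) π w.f = 0 := congrArg W.f h
    refine W.ext ?_ (hπ (by simp) (by simp) h1 : w.g = 1)
    have h3 : Finsupp.mapDomain π w.f.coeff = 0 := by
      simpa using congrArg MonoidAlgebra.coeff h2
    ext a
    by_contra ha
    have ha' : a ∈ w.f.coeff.support := Finsupp.mem_support_iff.2 ha
    have := Finsupp.mapDomain_apply' _ w.f.coeff (Finset.coe_subset.2 Finset.subset_union_left) hπ
      (a := a) (by simp [Finsupp.mem_support_iff.1 ha'])
    rw [h3] at this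
    exact ha this.symm
  · refine ⟨2, one_lt_two, fun n => ?_⟩
    obtain ⟨g, hg⟩ := len_surj σ hgen n
    obtain ⟨Φ, hc, hΦ⟩ := many σ hgen n g hg
    set T : Set (W G) := {x | x ∈ Finset.univ.image (gen σ) ∨ x⁻¹ ∈ Finset.univ.image (gen σ)}
    have hT : T.Finite := (Finset.finite_toSet _).union (Finset.finite_toSet _).inv
    have hTk : ∀ k : ℕ, (T ^ k).Finite := by
      intro k
      induction k with
      | zero => rw [pow_zero]; exact Set.finite_one
      | succ k ih => rw [pow_succ]; exact ih.mul hT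
    have hp : ∀ l : List (W G), (∀ x ∈ l, x ∈ T) → l.prod ∈ T ^ l.length := by
      intro l hl
      induction l with
      | nil => simp
      | cons a l ih =>
        rw [List.prod_cons, List.length_cons, pow_succ']
        exact Set.mul_mem_mul (hl a (by simp)) (ih fun x hx => hl x (by simp [hx]))
    have hfin : {g : W G | ∃ l : List (W G), l.length ≤ n ∧
        (∀ x ∈ l, x ∈ Finset.univ.image (gen σ) ∨ x⁻¹ ∈ Finset.univ.image (gen σ)) ∧
          l.prod = g}.Finite := by
      refine ((Set.finite_Iic n).biUnion (fun k _ => hTk k)).subset ?_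
      rintro _ ⟨l, hl, hx, rfl⟩
      exact Set.mem_biUnion hl (hp l hx)
    have hsub : ((Φ.image (fun f => (⟨f, g⟩ : W G)) : Finset (W G)) : Set (W G)) ⊆ {g : W G |
        ∃ l : List (W G), l.length ≤ n ∧
        (∀ x ∈ l, x ∈ Finset.univ.image (gen σ) ∨ x⁻¹ ∈ Finset.univ.image (gen σ)) ∧
          l.prod = g} := by
      intro x hx
      obtain ⟨f, hf, rfl⟩ := Finset.mem_image.1 (Finset.mem_coe.1 hx)
      obtain ⟨-, l, hl, hx, hp⟩ := hΦ f hf
      exact ⟨l, hl.le, fun x h => Or.inl ((hS x).2 (hx x h)), hp⟩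
    have := Set.ncard_le_ncard hsub hfin
    rw [Set.ncard_coe_finset, Finset.card_image_of_injective _
      (fun a b h => congrArg W.f h), hc] at this
    exact_mod_cast this
  · intro ε hε
    obtain ⟨J, hJ⟩ := exists_pow_lt_of_lt_one (show 0 < ε / 16 by positivity)
      (show (4 / 5 : ℝ) < 1 by norm_num)
    refine ⟨5 ^ J, fun n hn w ⟨l, hl, hx, hp⟩ => ?_⟩
    have h1 : ∀ l : List (W G), (∀ x ∈ l, x ∈ Finset.univ.image (gen σ) ∨
        x⁻¹ ∈ Finset.univ.image (gen σ)) → ∃ u : List L, u.length = l.length ∧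
          wd σ u = l.prod.g := by
      intro l hl
      induction l with
      | nil => exact ⟨[], rfl, rfl⟩
      | cons a l ih =>
        obtain ⟨u, hu, e⟩ := ih fun x hx => hl x (by simp [hx])
        have : ∃ s, σ s = a.g := by
          rcases hl a (by simp) with h | h
          · obtain ⟨p, rfl⟩ := (hS _).1 h
            exact ⟨p.1, rfl⟩
          · obtain ⟨p, hp⟩ := (hS _).1 h
            refine ⟨p.1, ?_⟩
            have : σ p.1 = a.g⁻¹ := congrArg W.g hp
            rw [← hinv, this, inv_inv]
        obtain ⟨s, hs⟩ := this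
        exact ⟨s :: u, by simp [hu], by rw [wd_cons, List.prod_cons, mul_g, hs, e]⟩
    obtain ⟨u, hu, e⟩ := h1 l hx
    have hn0 : n ≠ 0 := by have : 0 < 5 ^ J := by positivity
                           omega
    have h2 := Nat.lt_pow_succ_log_self (b := 5) (by norm_num) n
    have h3 := Nat.pow_log_le_self 5 hn0
    have h4 : J ≤ Nat.log 5 n := Nat.le_log_of_pow_le (by norm_num) hn
    set j := Nat.log 5 n
    have h5 := hper (j + 1) u (by rw [hu]; exact hl.trans h2.le)
    rw [e, hp] at h5
    have h6 : orderOf w ≤ 2 * (2 * 4 ^ (j + 1)) :=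
      orderOf_le_of_pow_eq_one (by positivity) (pow_two_mul h5)
    have h7 : (4 / 5 : ℝ) ^ j ≤ (4 / 5) ^ J := pow_le_pow_of_le_one (by norm_num) (by norm_num) h4
    have h8 : (4 : ℝ) ^ j ≤ ε / 16 * 5 ^ j := by
      have : (4 : ℝ) ^ j = (4 / 5) ^ j * 5 ^ j := by rw [← mul_pow]; norm_num
      rw [this]
      exact mul_le_mul_of_nonneg_right (h7.trans hJ.le) (by positivity)
    have h9 : ((5 : ℝ) ^ j) ≤ n := by exact_mod_cast h3
    have h10 : (orderOf w : ℝ) ≤ 2 * (2 * 4 ^ (j + 1)) := by exact_mod_cast h6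
    rw [pow_succ] at h10
    nlinarith

end wreath

/-! ### The group acting on the tree -/

abbrev A := Fin 7 → ZMod 2
abbrev L := Option (Fin 7)

/-- the nonzero words of the simplex code -/
def v : Fin 7 → A := fun i j => ![0, 0, 1, 0, 1, 1, 1] (i + j)

def pos : L → A
  | none => 0
  | some i => v i

lemma pos_dist : ∀ a b : L, a ≠ b → hammingDist (pos a) (pos b) = 4 := by decide

lemma pos_inj : Function.Injective pos := by
  intro a b h
  by_contra hne
  have := pos_dist a b hne
  rw [h, hammingDist_self] at this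
  omega

lemma v_inj : Function.Injective v := fun _ _ h =>
  Option.some_injective _ (pos_inj (a₁ := some _) (a₂ := some _) h)

def e (i : Fin 7) : List A → List A
  | [] => []
  | y :: w => (y + Pi.single i 1) :: w

noncomputable def b : List A → List A
  | [] => []
  | x :: w => x :: (if x = 0 then b w else Function.extend v e (fun _ => id) x w)

noncomputable def act : L → List A → List A
  | none => b
  | some i => e i

lemma b_pos (k : L) (w : List A) : b (pos k :: w) = pos k :: act k w := by
  cases k with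
  | none => simp [b, pos, act]
  | some i =>
    have : pos (some i) ≠ 0 := fun h => by simpa using pos_inj (a₂ := none) h
    rw [b, if_neg this]
    show _ :: Function.extend v e (fun _ => id) (v i) w = _
    rw [v_inj.extend_apply]
    rfl

lemma b_not {x : A} (hx : ¬ ∃ k, pos k = x) (w : List A) : b (x :: w) = x :: w := by
  rw [b, if_neg (fun h => hx ⟨none, h.symm⟩), Function.extend_apply' (f := v) _ _ _
    (fun ⟨i, hi⟩ => hx ⟨some i, hi⟩)]
  rfl

lemma A_add_self (a : A) : a + a = 0 := by
  funext i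
  have : ∀ c : ZMod 2, c + c = 0 := by decide
  exact this _

lemma e_inv (i : Fin 7) : Function.Involutive (e i) := by
  rintro (_ | ⟨y, w⟩)
  · rfl
  · simp [e, add_assoc, A_add_self]

lemma b_inv : Function.Involutive b := by
  intro w
  induction w with
  | nil => simp [b]
  | cons x w ih =>
    by_cases hx : ∃ k, pos k = x
    · obtain ⟨k, rfl⟩ := hx
      rw [b_pos, b_pos]
      cases k with
      | none => exact congrArg _ ih
      | some i => exact congrArg _ (e_inv i w)
    · rw [b_not hx, b_not hx]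

lemma act_inv (k : L) : Function.Involutive (act k) := by
  cases k with
  | none => exact b_inv
  | some i => exact e_inv i

lemma e_len (i : Fin 7) (w : List A) : (e i w).length = w.length := by
  cases w <;> simp [e]

lemma act_len (k : L) (w : List A) : (act k w).length = w.length := by
  cases k with
  | some i => exact e_len i w
  | none =>
    show (b w).length = _
    induction w with
    | nil => simp [b]
    | cons x w ih =>
      by_cases hx : ∃ k, pos k = x
      · obtain ⟨k, rfl⟩ := hx
        rw [b_pos]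
        cases k with
        | none => exact congrArg (· + 1) ih
        | some i => exact congrArg (· + 1) (e_len i w)
      · rw [b_not hx]

noncomputable def s0 (k : L) : Equiv.Perm (List A) := (act_inv k).toPerm

lemma s0_apply (k : L) (w : List A) : s0 k w = act k w := rfl

lemma wd_app (k : L) (u : List L) (w : List A) : wd s0 (k :: u) w = act k (wd s0 u w) := by
  rw [wd_cons]; rfl

lemma wd_len (u : List L) (w : List A) : (wd s0 u w).length = w.length := by
  induction u with
  | nil => rfl
  | cons k u ih => rw [wd_app, act_len, ih]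

def r : L → A
  | none => 0
  | some i => Pi.single i 1

def rho (u : List L) : A := (u.map r).sum

lemma sect (x : A) (u : List L) : ∃ u' : List L,
    (∀ w, wd s0 u (x :: w) = (x + rho u) :: wd s0 u' w) ∧
    ∀ k t, u' = k :: t → 5 * t.length + 1 + hammingDist (pos k) (x + rho u) ≤ u.length := by
  induction u with
  | nil => exact ⟨[], fun w => by simp [rho, wd_nil], fun k t h => by simp at h⟩
  | cons a u ih =>
    obtain ⟨u', h1, h2⟩ := ih
    cases a with
    | some i =>
      have hr : x + rho (some i :: u) = x + rho u + Pi.single i 1 := by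
        simp only [rho, List.map_cons, List.sum_cons, r]; abel
      refine ⟨u', fun w => by rw [wd_app, h1, hr]; rfl, fun k t h => ?_⟩
      have h3 := h2 k t h
      have h4 := hammingDist_triangle (pos k) (x + rho u) (x + rho u + Pi.single i 1)
      have h5 : hammingDist (x + rho u) (x + rho u + Pi.single i 1) ≤ 1 := by
        refine Finset.card_le_one.2 fun a ha c hc => ?_
        have key : ∀ a : Fin 7, (x + rho u) a ≠ (x + rho u + Pi.single i 1 : A) a → a = i := by
          intro a ha
          by_contra hne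
          exact ha (by rw [Pi.add_apply (x + rho u), Pi.single_eq_of_ne hne, add_zero])
        rw [key a (Finset.mem_filter.1 ha).2, key c (Finset.mem_filter.1 hc).2]
      rw [hr, List.length_cons]
      omega
    | none =>
      have hr : x + rho (none :: u) = x + rho u := by simp [rho, r]
      rw [hr]
      by_cases hy : ∃ k, pos k = x + rho u
      · obtain ⟨k, hk⟩ := hy
        have h3 : ∀ w, wd s0 (none :: u) (x :: w) = (x + rho u) :: act k (wd s0 u' w) := by
          intro w
          rw [wd_app, h1, ← hk]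
          exact b_pos k _
        rcases u' with _ | ⟨k', t⟩
        · refine ⟨[k], fun w => by rw [h3, wd_app], fun k1 t1 h => ?_⟩
          obtain ⟨rfl, rfl⟩ := List.cons.inj h
          simp [hk]
        · have h4 := h2 k' t rfl
          by_cases hkk : k' = k
          · subst hkk
            refine ⟨t, fun w => by rw [h3, wd_app, act_inv], fun k1 t1 h => ?_⟩
            subst h
            rw [← hk] at h4 ⊢
            have : hammingDist (pos k1) (pos k') ≤ 4 := by
              by_cases h : k1 = k'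
              · simp [h]
              · exact (pos_dist _ _ h).le
            simp only [List.length_cons] at h4 ⊢
            omega
          · refine ⟨k :: k' :: t, fun w => by rw [h3, wd_app k], fun k1 t1 h => ?_⟩
            obtain ⟨rfl, rfl⟩ := List.cons.inj h
            rw [← hk] at h4 ⊢
            rw [pos_dist _ _ hkk] at h4
            simp only [List.length_cons, hammingDist_self]
            omega
      · refine ⟨u', fun w => ?_, fun k t h => ?_⟩
        · rw [wd_app, h1]
          exact b_not hy _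
        · have := h2 k t h
          rw [List.length_cons]
          omega

lemma step {N E : ℕ} (h : ∀ u : List L, u.length ≤ N → wd s0 u ^ E = 1) (u : List L)
    (hu : 2 * u.length ≤ 5 * N) : wd s0 u ^ (2 * E) = 1 := by
  rw [pow_mul, pow_two, ← wd_append]
  ext1 w
  rcases w with _ | ⟨x, w⟩
  · have : ∀ m, (wd s0 (u ++ u) ^ m) [] = [] := by
      intro m
      induction m with
      | zero => rfl
      | succ m ih =>
        rw [pow_succ', Equiv.Perm.mul_apply, ih]
        exact List.length_eq_zero_iff.1 (wd_len _ _)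
    exact this E
  · obtain ⟨u', h1, h2⟩ := sect x (u ++ u)
    have hr : x + rho (u ++ u) = x := by
      simp only [rho, List.map_append, List.sum_append, A_add_self, add_zero]
    rw [hr] at h1 h2
    have hl : u'.length ≤ N := by
      rcases u' with _ | ⟨k, t⟩
      · simp
      · have := h2 k t rfl
        simp only [List.length_append, List.length_cons] at this ⊢
        omega
    have : ∀ m, (wd s0 (u ++ u) ^ m) (x :: w) = x :: (wd s0 u' ^ m) w := by
      intro m
      induction m with
      | zero => rfl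
      | succ m ih => rw [pow_succ', Equiv.Perm.mul_apply, ih, h1, pow_succ']; rfl
    rw [this, h u' hl]
    rfl

lemma s0_sq (k : L) : s0 k * s0 k = 1 := Equiv.ext (act_inv k)

lemma period (j : ℕ) : ∀ u : List L, u.length ≤ 5 ^ j → wd s0 u ^ (2 * 4 ^ j) = 1 := by
  induction j with
  | zero =>
    rintro (_ | ⟨k, _ | ⟨k', t⟩⟩) hu
    · simp [wd_nil]
    · rw [wd_cons, wd_nil, mul_one, pow_zero, mul_one, pow_two, s0_sq]
    · simp at hu
  | succ j ih =>
    intro u hu
    have h1 : ∀ u : List L, u.length ≤ 2 * 5 ^ j → wd s0 u ^ (2 * (2 * 4 ^ j)) = 1 :=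
      fun u hu => step ih u (by omega)
    have := step h1 u (by rw [pow_succ] at hu; omega)
    rwa [show 2 * (2 * (2 * 4 ^ j)) = 2 * 4 ^ (j + 1) by ring] at this

lemma transl (a : A) : ∃ u : List L, ∀ y w, wd s0 u (y :: w) = (y + a) :: w := by
  induction a using Pi.single_induction with
  | zero => exact ⟨[], fun y w => by simp [wd_nil]⟩
  | add a c ha hc =>
    obtain ⟨u, hu⟩ := ha
    obtain ⟨t, ht⟩ := hc
    exact ⟨t ++ u, fun y w => by rw [wd_append, Equiv.Perm.mul_apply, hu, ht, add_assoc]⟩
  | single i c =>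
    have hc : ∀ c : ZMod 2, c = 0 ∨ c = 1 := by decide
    rcases hc c with rfl | rfl
    · exact ⟨[], fun y w => by simp [wd_nil]⟩
    · exact ⟨[some i], fun y w => by rw [wd_app]; rfl⟩

lemma lift (u' : List L) : ∃ u : List L, ∀ w, wd s0 u (0 :: w) = 0 :: wd s0 u' w := by
  induction u' with
  | nil => exact ⟨[], fun w => rfl⟩
  | cons k u' ih =>
    obtain ⟨u, hu⟩ := ih
    obtain ⟨t, ht⟩ := transl (pos k)
    refine ⟨t ++ none :: (t ++ u), fun w => ?_⟩
    rw [wd_append, Equiv.Perm.mul_apply, wd_app, wd_append, Equiv.Perm.mul_apply, hu, ht, zero_add]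
    show wd s0 t (b _) = _
    rw [b_pos, ht, A_add_self, wd_app]

lemma deep (n : ℕ) : ∃ u : List L, ∀ w,
    wd s0 u (List.replicate n 0 ++ w) = List.replicate n 0 ++ e 0 w := by
  induction n with
  | zero => exact ⟨[some 0], fun w => by rw [wd_app]; rfl⟩
  | succ n ih =>
    obtain ⟨u', hu'⟩ := ih
    obtain ⟨u, hu⟩ := lift u'
    exact ⟨u, fun w => by rw [List.replicate_succ, List.cons_append, hu, hu']; rfl⟩

def GG : Subgroup (Equiv.Perm (List A)) where
  carrier := Set.range (wd s0)
  mul_mem' := by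
    rintro _ _ ⟨u, rfl⟩ ⟨t, rfl⟩
    exact ⟨u ++ t, wd_append _ _ _⟩
  one_mem' := ⟨[], rfl⟩
  inv_mem' := by
    rintro _ ⟨u, rfl⟩
    induction u with
    | nil => exact ⟨[], inv_one.symm⟩
    | cons k u ih =>
      obtain ⟨t, ht⟩ := ih
      refine ⟨t ++ [k], ?_⟩
      rw [wd_append, ht, wd_cons, wd_cons, wd_nil, mul_one, mul_inv_rev,
        inv_eq_of_mul_eq_one_right (s0_sq k)]

noncomputable def s1 (k : L) : GG := ⟨s0 k, [k], by rw [wd_cons, wd_nil, mul_one]⟩

lemma wd_coe (u : List L) : ((wd s1 u : GG) : Equiv.Perm (List A)) = wd s0 u := by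
  induction u with
  | nil => rfl
  | cons k u ih => rw [wd_cons, wd_cons, Subgroup.coe_mul, ih]; rfl

instance : Infinite GG := by
  choose u hu using deep
  refine Infinite.of_injective (fun n => wd s1 (u n)) (Function.Injective.of_lt_imp_ne fun n m hnm h => ?_)
  have h1 : wd s0 (u n) = wd s0 (u m) := by rw [← wd_coe, ← wd_coe]; exact congrArg _ h
  obtain ⟨k, rfl⟩ := Nat.exists_eq_add_of_lt hnm
  have h2 := hu n (List.replicate (k + 1) 0)
  have h3 := hu (n + k + 1) []
  rw [h1, ← List.replicate_add, ← add_assoc] at h2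
  rw [List.append_nil, h2, show e 0 [] = [] from rfl, List.append_nil, add_assoc,
    List.replicate_add n (k + 1), List.append_cancel_left_eq, List.replicate_succ, e] at h3
  have := congrFun (List.cons.inj h3).1 0
  simp at this

lemma GG_len (g : GG) (w : List A) : ((g : Equiv.Perm (List A)) w).length = w.length := by
  obtain ⟨_, u, rfl⟩ := g
  exact wd_len u w

def level (n : ℕ) : GG →* Equiv.Perm {w : List A // w.length ≤ n} :=
  MonoidHom.mk' (fun g => Equiv.Perm.subtypePerm (g : Equiv.Perm (List A))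
    (fun w => by rw [GG_len])) (fun _ _ => rfl)


/-- There is an infinite, residually finite, periodic group generated by a finite set S, whose S-balls grow at least like c^n for some c>1, and in which the maximal element order in the ball of radius n is o(n). -/
theorem result :
    ∃ (G : Type) (_ : Group G) (S : Finset G),
      Infinite G ∧
      Subgroup.closure (S : Set G) = ⊤ ∧
      (∀ g : G, IsOfFinOrder g) ∧
      (∀ g : G, g ≠ 1 → ∃ N : Subgroup G, N.Normal ∧ N.index ≠ 0 ∧ g ∉ N) ∧
      (∃ c : ℝ, 1 < c ∧ ∀ n : ℕ,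
        c ^ n ≤ (({g : G | ∃ l : List G, l.length ≤ n ∧
          (∀ x ∈ l, x ∈ S ∨ x⁻¹ ∈ S) ∧ l.prod = g}).ncard : ℝ)) ∧
      (∀ ε : ℝ, 0 < ε → ∃ N : ℕ, ∀ n : ℕ, N ≤ n → ∀ g : G,
        (∃ l : List G, l.length ≤ n ∧ (∀ x ∈ l, x ∈ S ∨ x⁻¹ ∈ S) ∧ l.prod = g) →
        (orderOf g : ℝ) ≤ ε * n) := by
  refine wreath s1 (fun a => Subtype.ext (inv_eq_of_mul_eq_one_right (s0_sq a))) ?_ ?_ ?_
  · rintro ⟨_, u, rfl⟩
    exact ⟨u, Subtype.ext (wd_coe u)⟩
  · intro T
    have : ∀ p : GG × GG, ∃ w : List A, (p.1 : Equiv.Perm (List A)) w = (p.2 : Equiv.Perm _) w →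
        p.1 = p.2 := by
      intro p
      by_cases h : p.1 = p.2
      · exact ⟨[], fun _ => h⟩
      · by_contra hc
        push Not at hc
        exact h (Subtype.ext (Equiv.ext fun w => (hc w).1))
    choose wit hwit using this
    have : Finite {w : List A // w.length ≤ (T ×ˢ T).sup fun p => (wit p).length} :=
      (List.finite_length_le A _).to_subtype
    refine ⟨_, inferInstance, inferInstance, level ((T ×ˢ T).sup fun p => (wit p).length), ?_⟩
    intro g hg h hh e
    apply hwit (g, h)
    exact congrArg Subtype.val (Equiv.congr_fun e ⟨wit (g, h),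
      Finset.le_sup (f := fun p => (wit p).length) (Finset.mk_mem_product hg hh)⟩)
  · intro j u hu
    apply Subtype.ext
    rw [Subgroup.coe_pow, wd_coe]
    exact period j u hu

end Pool.Agent.S00801
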