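import Pool.Statements.S00832
import Pool.Agent.H.MP_7ffbdd_al.A

set_option autoImplicit false
open Pool Pool.MP_19aa8a_al

namespace Pool.Agent.S00832
open Finset Pool.Agent.H.MP_16c276_co Pool.Agent.H.MP_cf6e1a_co Pool.Agent.H.MP_47f029_co
  Pool.Agent.H.MP_7ffbdd_al

def col (W : Finset (Fin 43)) : Prop := ∃ i, W ⊆ bl i 127

def X : List (ℕ × ℕ) := [(22, 127), (104, 124), (97, 123), (35, 59), (37, 111), (21, 125), (13, 79),
  (10, 91), (42, 122), (14, 110)]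

theorem c3 : (∀ x ∈ X, x.1 < 2 ^ 7 ∧ (bt 7 x.1).length ≤ 3 ∧ x.2 &&& x.1 = x.1 ∧
    (∀ m ∈ L, m &&& x.1 ≠ x.1) ∧ ∃ a ∈ dec 7 x.1, ∃ c ∈ dec 7 x.1, a ≠ 0 ∧ c ≠ 0 ∧ c ≠ a) ∧
    dec 7 127 = univ ∧ ∀ σ < 2 ^ 7, ((∃ m ∈ L, m &&& σ = σ) ∨ ∃ x ∈ X, In x.2 x.1 σ) ∧
      ∀ x ∈ X, ∀ y ∈ X, In x.2 x.1 σ → In y.2 y.1 σ → x = y := by decide +kernel

theorem m7 (i : Fin 43) (x : Fin 7) : ph i x ∈ bl i 127 := mem_bl.2 (c3.2.1 ▸ mem_univ x)

theorem b7 (i : Fin 43) (m : ℕ) : bl i m ⊆ bl i 127 := image_subset_image (c3.2.1 ▸ subset_univ _)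

theorem pb {i : Fin 43} {W : Finset (Fin 43)} (h : W ⊆ bl i 127) : ∃ σ < 2 ^ 7, bl i σ = W := by
  obtain ⟨s, -, a⟩ := subset_image_iff.1 h
  obtain ⟨r, b, rfl⟩ := dec_surj s
  exact ⟨r, b, a⟩

theorem sb {i : Fin 43} {a b : ℕ} : bl i a ⊆ bl i b ↔ dec 7 a ⊆ dec 7 b :=
  image_subset_image_iff fun _ _ => p1

open Classical in
def Iv (R F : Finset (Fin 43)) : Prop := (∃ i, ∃ x ∈ X, R = bl i x.1 ∧ F = bl i x.2) ∨
  ∃ a b c, b < a ∧ c ≤ b ∧ ¬ col {a, b, c} ∧ (¬ col {a, b, b} → c = b) ∧ R = {a, b, c} ∧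
    F = univ.filter fun x => x = a ∨ x = b ∨ x ≤ c ∨ x < b ∧ col {a, b, x}

theorem iv1 {R F : Finset (Fin 43)} (h : Iv R F) : R.card ≤ 3 ∧ R ⊆ F ∧ ¬ G R := by
  rcases h with ⟨i, x, a, rfl, rfl⟩ | ⟨a, b, c, -, -, d, -, rfl, rfl⟩
  · obtain ⟨b, c, d, e, u, u1, w, w1, f, g, k⟩ := c3.1 x a
    refine ⟨card_image_le.trans (card_dec ▸ c), sb.2 (sub1 d), fun ⟨j, m, m1, m2⟩ => ?_⟩
    obtain rfl := two f g k (m2 (mem_bl.2 u1)) (m2 (mem_bl.2 w1))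
    exact e m m1 (sub2 b (sb.1 m2))
  · exact ⟨card_le_three, by simp [subset_iff], fun ⟨j, m, _, m2⟩ => d ⟨j, m2.trans (b7 j m)⟩⟩

theorem iv2 {W : Finset (Fin 43)} (h : ¬ G W) : ∃ R F, Iv R F ∧ R ⊆ W ∧ W ⊆ F := by
  classical
  by_cases c : col W
  · obtain ⟨i, c⟩ := c
    obtain ⟨σ, a, rfl⟩ := pb c
    obtain ⟨x, b, d⟩ := (c3.2.2 σ a).1.resolve_left fun ⟨m, b, d⟩ => h ⟨i, m, b, sb.2 (sub1 d)⟩
    have := (inI (c3.1 x b).1 a).1 d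
    exact ⟨_, _, Or.inl ⟨i, x, b, rfl, rfl⟩, sb.2 this.1, sb.2 this.2⟩
  have n1 : W.Nonempty := nonempty_iff_ne_empty.2 fun e => c ⟨0, e ▸ empty_subset _⟩
  obtain ⟨a, a1, a2⟩ := exists_max_image W id n1
  have n2 : (W.erase a).Nonempty := nonempty_iff_ne_empty.2 fun e => by
    obtain ⟨i, x, rfl⟩ := p0.2.2.1 a
    exact c ⟨i, fun y hy => by_contra fun f => notMem_empty y (e ▸ mem_erase.2
      ⟨fun g => f (g ▸ m7 i x), hy⟩)⟩
  obtain ⟨b, b1, b2⟩ := exists_max_image _ id n2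
  rw [mem_erase] at b1
  have b3 : ∀ x ∈ W, x = a ∨ x ≤ b := fun x hx => (em _).imp_right fun e => b2 x (mem_erase.2 ⟨e, hx⟩)
  have ab : b < a := lt_of_le_of_ne (a2 b b1.2) b1.1
  have n3 : (W.filter fun x => x ≤ b ∧ ¬ col {a, b, x}).Nonempty := by
    by_contra e
    simp only [filter_nonempty_iff, not_exists, not_and, not_not] at e
    obtain ⟨i, d⟩ := e b b1.2 le_rfl
    obtain ⟨u, -, rfl⟩ := mem_image.1 (d (mem_insert_self _ _))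
    obtain ⟨w, -, rfl⟩ := mem_image.1 (d (mem_insert_of_mem (mem_insert_self _ _)))
    refine c ⟨i, fun x hx => (b3 x hx).elim (fun f => f ▸ m7 i u) fun f => ?_⟩
    by_cases w0 : w = 0
    · rw [w0, p0.1] at f
      rw [Fin.le_zero_iff.1 f, ← p0.1 i]
      exact m7 i 0
    obtain ⟨j, g⟩ := e x hx f
    obtain rfl := two w0 (fun k => by simp [k, p0.1] at ab) (fun k => by simp [k] at ab)
      (g (mem_insert_of_mem (mem_insert_self _ _))) (g (mem_insert_self _ _))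
    exact g (by simp)
  obtain ⟨c, c1, c2⟩ := exists_max_image _ id n3
  simp only [mem_filter, id, and_imp] at c1 c2
  refine ⟨_, _, Or.inr ⟨a, b, c, ab, c1.2.1, c1.2.2, fun e => c1.2.1.antisymm (c2 b b1.2 le_rfl e),
    rfl, rfl⟩, by simp [insert_subset_iff, a1, b1.2, c1.1], fun x hx => mem_filter.2 ⟨mem_univ _,
    (b3 x hx).imp_right fun e => e.eq_or_lt.imp_right fun f =>
      (em _).symm.imp (c2 x hx e) fun g => ⟨f, g⟩⟩⟩

theorem iv3 {W R F R' F' : Finset (Fin 43)} (h : Iv R F) (h' : Iv R' F') (p : R ⊆ W) (q : W ⊆ F)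
    (p' : R' ⊆ W) (q' : W ⊆ F') : R = R' ∧ F = F' := by
  rcases h with ⟨i, x, a, rfl, rfl⟩ | ⟨a, b, c, d, e, f, g, rfl, rfl⟩ <;>
    rcases h' with ⟨j, y, b, rfl, rfl⟩ | ⟨a', b', c', d', e', f', g', rfl, rfl⟩
  · obtain ⟨-, -, -, -, u, u1, w, w1, f, g, k⟩ := c3.1 x a
    obtain rfl := two f g k (q' (p (mem_bl.2 u1))) (q' (p (mem_bl.2 w1)))
    obtain ⟨σ, s, rfl⟩ := pb (q.trans (b7 _ _))
    rw [(c3.2.2 σ s).2 x a y b ((inI (c3.1 x a).1 s).2 ⟨sb.1 p, sb.1 q⟩)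
      ((inI (c3.1 y b).1 s).2 ⟨sb.1 p', sb.1 q'⟩)]
    exact ⟨rfl, rfl⟩
  · exact (f' ⟨i, p'.trans (q.trans (b7 _ _))⟩).elim
  · exact (f ⟨j, p.trans (q'.trans (b7 _ _))⟩).elim
  have r := p.trans q'
  have r' := p'.trans q
  simp only [insert_subset_iff, singleton_subset_iff, mem_filter, mem_univ, true_and] at r r'
  obtain rfl : a = a' := by omega
  obtain rfl : b = b' := by omega
  obtain rfl : c = c' := by
    by_cases k : col {a, b, b}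
    · have : c ≠ b := fun e => f (e ▸ k)
      have : c' ≠ b := fun e => f' (e ▸ k)
      simp only [f, f', and_false, or_false] at r r'
      omega
    · rw [g k, g' k]
  exact ⟨rfl, rfl⟩

theorem cone {R F : Finset (Fin 43)} (h : R ⊆ F) (b : Fin 43 → ℕ) :
    cn (fun j => if j ∈ F then 0 else 1) Rᶜ b ↔ R ⊆ zs b ∧ zs b ⊆ F := by
  simp only [cn, subset_iff, mem_zs, mem_compl, ← forall_and]
  refine forall_congr' fun j => ?_
  have := @h j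
  by_cases j ∈ R <;> by_cases j ∈ F <;> simp [*, Nat.one_le_iff_ne_zero] at *


/-- The negation of the preceding statement: For every proper nonzero monomial ideal I in n variables and every d: if S/I has a Stanley decomposition with all spaces of dimension at least d, then I has one with all at least d+1; i.e. sdepth I ≥ sdepth S/I + 1. -/
theorem result :
    ¬ (∀ (n : ℕ) (U : Set (Fin n → ℕ)), IsUpperSet U → U.Nonempty → (0 : Fin n → ℕ) ∉ U →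
      ∀ d : ℕ,
        (∃ s : Finset ((Fin n → ℕ) × Finset (Fin n)),
          (∀ p ∈ s, d ≤ p.2.card) ∧
          (∀ b : Fin n → ℕ, b ∉ U ↔
            ∃ p ∈ s, ∀ j : Fin n, (j ∈ p.2 → p.1 j ≤ b j) ∧ (j ∉ p.2 → b j = p.1 j)) ∧
          (∀ p ∈ s, ∀ q ∈ s, ∀ b : Fin n → ℕ,
            (∀ j : Fin n, (j ∈ p.2 → p.1 j ≤ b j) ∧ (j ∉ p.2 → b j = p.1 j)) →
            (∀ j : Fin n, (j ∈ q.2 → q.1 j ≤ b j) ∧ (j ∉ q.2 → b j = q.1 j)) → p = q)) →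
        (∃ s : Finset ((Fin n → ℕ) × Finset (Fin n)),
          (∀ p ∈ s, d + 1 ≤ p.2.card) ∧
          (∀ b : Fin n → ℕ, b ∈ U ↔
            ∃ p ∈ s, ∀ j : Fin n, (j ∈ p.2 → p.1 j ≤ b j) ∧ (j ∉ p.2 → b j = p.1 j)) ∧
          (∀ p ∈ s, ∀ q ∈ s, ∀ b : Fin n → ℕ,
            (∀ j : Fin n, (j ∈ p.2 → p.1 j ≤ b j) ∧ (j ∉ p.2 → b j = p.1 j)) →
            (∀ j : Fin n, (j ∈ q.2 → q.1 j ≤ b j) ∧ (j ∉ q.2 → b j = q.1 j)) → p = q))) := by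
  classical
  intro H
  refine (H 43 {b | G (zs b)} (fun a b h ⟨i, m, c, d⟩ => ⟨i, m, c, fun j e =>
    d (mem_zs.2 (Nat.le_zero.1 ((h j).trans_eq (mem_zs.1 e))))⟩) ⟨1, 0, 57, by decide, by simp [zs]⟩
    (fun ⟨i, m, _, d⟩ => by
      have := (card_le_card d).trans (card_image_le.trans (card_le_univ _))
      simp [zs] at this) 40
    ⟨(univ.filter fun p : Finset (Fin 43) × Finset (Fin 43) => Iv p.1 p.2).image
      fun p => (fun j => if j ∈ p.2 then 0 else 1, p.1ᶜ), ?_, fun b => ⟨fun h => ?_, ?_⟩, ?_⟩).elim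
    fun s ⟨s1, s2, s3⟩ => core2 (· ∈ s) Prod.fst Prod.snd (fun p h => ⟨s1 p h, (s2 _).2 ⟨p, h, by simp⟩⟩)
      (fun b h => (s2 b).1 h) fun b p q c d => s3 p c q d b
  · simp only [mem_image, mem_filter, mem_univ, true_and]
    rintro _ ⟨p, a, rfl⟩
    have := (iv1 a).1
    rw [card_compl, Fintype.card_fin]
    omega
  · obtain ⟨R, F, a, c⟩ := iv2 h
    simp only [mem_image, mem_filter, mem_univ, true_and]
    exact ⟨_, ⟨(R, F), a, rfl⟩, (cone (iv1 a).2.1 b).2 c⟩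
  · simp only [mem_image, mem_filter, mem_univ, true_and]
    rintro ⟨_, ⟨p, a, rfl⟩, c⟩ ⟨i, m, d, e⟩
    exact (iv1 a).2.2 ⟨i, m, d, ((cone (iv1 a).2.1 b).1 c).1.trans e⟩
  · simp only [mem_image, mem_filter, mem_univ, true_and]
    rintro _ ⟨p, a, rfl⟩ _ ⟨q, c, rfl⟩ b d e
    have d := (cone (iv1 a).2.1 b).1 d
    have e := (cone (iv1 c).2.1 b).1 e
    rw [Prod.ext (iv3 a c d.1 d.2 e.1 e.2).1 (iv3 a c d.1 d.2 e.1 e.2).2]

end Pool.Agent.S00832
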