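import Pool.Statements.S00840
-- import your own Pool.Agent.* helpers here

set_option autoImplicit false
open Pool Pool.MP_1a5400_al

namespace Pool.Agent.S00840

open Matrix in
/-- nonzero integer vectors -/
abbrev V := {v : Fin 2 → ℤ // v ≠ 0}

abbrev SL2 := Matrix.SpecialLinearGroup (Fin 2) ℤ

open Matrix in
instance actV : MulAction SL2 V where
  smul g v := ⟨g.1 *ᵥ v.1, fun h => v.2 (by
    have h1 : (g⁻¹ * g).1 *ᵥ v.1 = 0 := by
      show ((g⁻¹).1 * g.1) *ᵥ v.1 = 0
      rw [← mulVec_mulVec, h, mulVec_zero]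
    simpa using h1)⟩
  one_smul v := Subtype.ext (by
    show (1 : SL2).1 *ᵥ v.1 = v.1
    simp)
  mul_smul g h v := Subtype.ext (by
    show (g.1 * h.1) *ᵥ v.1 = g.1 *ᵥ (h.1 *ᵥ v.1)
    rw [mulVec_mulVec])

open Matrix in
theorem smul_val (g : SL2) (v : V) : (g • v).1 = g.1 *ᵥ v.1 := rfl

def mA : SL2 := ⟨!![1, 2; 0, 1], by simp [Matrix.det_fin_two]⟩
def mB : SL2 := ⟨!![1, 0; 2, 1], by simp [Matrix.det_fin_two]⟩
def gens : Fin 2 → SL2 := ![mA, mB]

def rho : FreeGroup (Fin 2) →* SL2 := FreeGroup.lift gens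

theorem vne (v : V) : v.1 0 ≠ 0 ∨ v.1 1 ≠ 0 := by
  by_contra h
  push Not at h
  apply v.2
  ext i
  fin_cases i
  · exact h.1
  · exact h.2

def XX : Fin 2 → Set V :=
  ![{v | v.1 1 ≠ 0 ∧ 0 ≤ (v.1 0 - v.1 1) * v.1 1}, {v | 0 < (v.1 1 - v.1 0) * v.1 0}]
def YY : Fin 2 → Set V :=
  ![{v | v.1 1 = 0 ∨ (v.1 0 + v.1 1) * v.1 1 < 0}, {v | (v.1 0 + v.1 1) * v.1 0 ≤ 0}]

theorem mA_inv : (mA⁻¹).1 = !![1, -2; 0, 1] := by
  simp [mA, Matrix.SpecialLinearGroup.coe_inv, Matrix.adjugate_fin_two]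
theorem mB_inv : (mB⁻¹).1 = !![1, 0; -2, 1] := by
  simp [mB, Matrix.SpecialLinearGroup.coe_inv, Matrix.adjugate_fin_two]

theorem rho_inj : Function.Injective rho := by
  apply FreeGroup.injective_lift_of_ping_pong gens XX YY
  · intro i
    fin_cases i
    · exact ⟨⟨![1, 1], by simp⟩, by simp [XX]⟩
    · exact ⟨⟨![1, 2], by simp⟩, by simp [XX]⟩
  · intro i j hij
    fin_cases i <;> fin_cases j <;> first | exact absurd rfl hij | skip
    all_goals
      simp only [Function.onFun, XX, Set.disjoint_left]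
      intro v h1 h2
      simp at h1 h2
      rcases lt_trichotomy (v.1 0) 0 with h | h | h <;>
        rcases lt_trichotomy (v.1 1) 0 with h' | h' | h' <;> nlinarith
  · intro i j hij
    fin_cases i <;> fin_cases j <;> first | exact absurd rfl hij | skip
    all_goals
      simp only [Function.onFun, YY, Set.disjoint_left]
      intro v h1 h2
      have := vne v
      simp only [Fin.zero_eta, Fin.mk_one, Matrix.cons_val_zero, Matrix.cons_val_one,
        Set.mem_ofPred_eq] at h1 h2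
      first
        | (rcases h1 with h1 | h1
           · rw [h1] at h2 this
             simp at this
             have := mul_self_pos.mpr this
             nlinarith
           · nlinarith [mul_self_nonneg (v.1 0 + v.1 1)])
        | (rcases h2 with h2 | h2
           · rw [h2] at h1 this
             simp at this
             have := mul_self_pos.mpr this
             nlinarith
           · nlinarith [mul_self_nonneg (v.1 0 + v.1 1)])
  · intro i j
    fin_cases i <;> fin_cases j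
    all_goals
      simp only [XX, YY, Set.disjoint_left]
      intro v h1 h2
      simp only [Fin.zero_eta, Fin.mk_one, Matrix.cons_val_zero, Matrix.cons_val_one,
        Set.mem_ofPred_eq] at h1 h2
    · rcases h2 with h2 | h2
      · exact h1.1 h2
      · nlinarith [mul_self_nonneg (v.1 1), h1.2]
    · have := mul_self_pos.mpr h1.1
      have h3 := h1.2
      rcases lt_trichotomy (v.1 0) 0 with h | h | h <;>
        rcases lt_trichotomy (v.1 1) 0 with h' | h' | h' <;> nlinarith
    · rcases h2 with h2 | h2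
      · rw [h2] at h1
        nlinarith [mul_self_nonneg (v.1 0)]
      · nlinarith [mul_self_nonneg (v.1 0), mul_self_nonneg (v.1 1)]
    · nlinarith [mul_self_nonneg (v.1 0)]
  · intro i
    fin_cases i
    · rintro _ ⟨v, hv, rfl⟩
      simp only [XX, YY, Fin.zero_eta, Matrix.cons_val_zero, Set.mem_compl_iff,
        Set.mem_ofPred_eq, not_or, not_lt, gens, smul_val, mA] at hv ⊢
      simp [Matrix.mulVec, dotProduct, Fin.sum_univ_two]
      exact ⟨hv.1, by nlinarith [hv.2]⟩
    · rintro _ ⟨v, hv, rfl⟩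
      simp only [XX, YY, Fin.mk_one, Matrix.cons_val_one, Matrix.cons_val_zero, Set.mem_compl_iff,
        Set.mem_ofPred_eq, not_le, gens, smul_val, mB] at hv ⊢
      simp [Matrix.mulVec, dotProduct, Fin.sum_univ_two]
      nlinarith
  · intro i
    fin_cases i
    · rintro _ ⟨v, hv, rfl⟩
      simp only [XX, YY, Fin.zero_eta, Matrix.cons_val_zero, Set.mem_compl_iff, Pi.inv_apply,
        Set.mem_ofPred_eq, not_and, not_le, gens, smul_val, mA_inv] at hv ⊢
      simp [Matrix.mulVec, dotProduct, Fin.sum_univ_two]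
      by_cases h : v.1 1 = 0
      · exact Or.inl h
      · right
        nlinarith [hv h]
    · rintro _ ⟨v, hv, rfl⟩
      simp only [XX, YY, Fin.mk_one, Matrix.cons_val_one, Matrix.cons_val_zero, Set.mem_compl_iff,
        Pi.inv_apply, Set.mem_ofPred_eq, not_lt, gens, smul_val, mB_inv] at hv ⊢
      simp [Matrix.mulVec, dotProduct, Fin.sum_univ_two]
      nlinarith

theorem rho_pm (g : FreeGroup (Fin 2)) (e : ℤ) (he : e = 1 ∨ e = -1)
    (h : (rho g).1 = e • (1 : Matrix (Fin 2) (Fin 2) ℤ)) : g = 1 := by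
  have h2 : rho (g ^ 2) = rho 1 := by
    apply Subtype.ext
    rw [map_pow, map_one, pow_two, Matrix.SpecialLinearGroup.coe_mul, h]
    rcases he with rfl | rfl <;> simp
  have h3 := rho_inj h2
  exact (pow_eq_one_iff_left (by norm_num)).mp h3

abbrev Q2 := Multiplicative (ZMod 2)
abbrev F2 := FreeGroup (Fin 2)

def fa : F2 := FreeGroup.of 0
def fb : F2 := FreeGroup.of 1

def wgen : Fin 2 → RegularWreathProduct F2 Q2 :=
  ![⟨fun x => if x = 1 then fb * fa⁻¹ else 1, Multiplicative.ofAdd 1⟩,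
    ⟨fun x => if x = 1 then fa⁻¹ * fa⁻¹ else fa * fb * fb * fa⁻¹, 1⟩]

def Psi : F2 →* RegularWreathProduct F2 Q2 := FreeGroup.lift wgen

def TT (x : Q2) : Matrix (Fin 2) (Fin 2) ℤ :=
  if x = 1 then !![1, -2; 1, 0] else !![1, -4; 1, -2]

def PP (g : F2) : Prop := ∀ x : Q2, ∃ e : ℤ, (e = 1 ∨ e = -1) ∧
  (rho ((Psi g).left x)).1 * TT ((Psi g).right⁻¹ * x) = e • (TT x * (rho g).1)

theorem rho_fa : rho fa = mA := by simp [rho, fa, gens]
theorem rho_fb : rho fb = mB := by simp [rho, fb, gens]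

theorem Q2_cases (x : Q2) : x = 1 ∨ x = Multiplicative.ofAdd 1 := by
  revert x; decide

theorem PP_all (g : F2) : PP g := by
  induction g using FreeGroup.induction_on with
  | C1 => intro x; exact ⟨1, Or.inl rfl, by simp⟩
  | of i =>
    have hne : (Multiplicative.ofAdd (1 : ZMod 2)) ≠ 1 := by decide
    have h1 : (Multiplicative.ofAdd (1 : ZMod 2))⁻¹ * 1 ≠ (1 : Q2) := by decide
    have h2 : (Multiplicative.ofAdd (1 : ZMod 2))⁻¹ * Multiplicative.ofAdd (1 : ZMod 2)
      = (1 : Q2) := by decide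
    intro x
    fin_cases i
    · have e1 : Psi (FreeGroup.of 0) = wgen 0 := by simp [Psi]
      have e2 : rho (FreeGroup.of 0) = mA := rho_fa
      simp only [Fin.zero_eta, e1, e2, wgen, Matrix.cons_val_zero]
      rcases Q2_cases x with rfl | rfl
      · refine ⟨-1, Or.inr rfl, ?_⟩
        simp only [TT, if_pos, if_neg h1, map_mul, map_inv, rho_fa, rho_fb,
          Matrix.SpecialLinearGroup.coe_mul, mA_inv]
        simp [mA, mB]
      · refine ⟨1, Or.inl rfl, ?_⟩
        simp only [TT, h2, if_pos, if_neg hne, map_one]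
        simp [mA]
    · have e1 : Psi (FreeGroup.of 1) = wgen 1 := by simp [Psi]
      have e2 : rho (FreeGroup.of 1) = mB := rho_fb
      simp only [Fin.mk_one, e1, e2, wgen, Matrix.cons_val_one, Matrix.cons_val_zero, inv_one,
        one_mul]
      rcases Q2_cases x with rfl | rfl
      · refine ⟨1, Or.inl rfl, ?_⟩
        simp only [TT, if_pos, map_mul, map_inv, rho_fa,
          Matrix.SpecialLinearGroup.coe_mul, mA_inv]
        simp [mB]
      · refine ⟨1, Or.inl rfl, ?_⟩
        simp only [TT, if_neg hne, map_mul, map_inv, rho_fa, rho_fb,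
          Matrix.SpecialLinearGroup.coe_mul, mA_inv]
        simp [mA, mB]
  | inv_of i ih =>
    intro x
    set g : F2 := FreeGroup.of i
    obtain ⟨e, he, h⟩ := ih ((Psi g).right * x)
    refine ⟨e, he, ?_⟩
    rw [inv_mul_cancel_left] at h
    simp only [map_inv, RegularWreathProduct.inv_left, RegularWreathProduct.inv_right, inv_inv,
      Pi.inv_apply]
    set u := rho ((Psi g).left ((Psi g).right * x))
    have h1 : (u⁻¹).1 * u.1 = 1 := by
      rw [← Matrix.SpecialLinearGroup.coe_mul, inv_mul_cancel]; rfl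
    have h2 : (rho g).1 * ((rho g)⁻¹).1 = 1 := by
      rw [← Matrix.SpecialLinearGroup.coe_mul, mul_inv_cancel]; rfl
    have h3 : TT x * ((rho g)⁻¹).1 = e • ((u⁻¹).1 * TT ((Psi g).right * x)) := by
      calc TT x * ((rho g)⁻¹).1 = (u⁻¹).1 * (u.1 * TT x) * ((rho g)⁻¹).1 := by
            rw [← mul_assoc, h1, one_mul]
        _ = e • ((u⁻¹).1 * TT ((Psi g).right * x) * ((rho g).1 * ((rho g)⁻¹).1)) := by
            rw [h]; simp only [Matrix.mul_smul, Matrix.smul_mul, mul_assoc]
        _ = _ := by rw [h2, mul_one]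
    rw [h3, smul_smul]
    rcases he with rfl | rfl <;> simp
  | mul g h ihg ihh =>
    intro x
    obtain ⟨e1, he1, h1⟩ := ihg x
    obtain ⟨e2, he2, h2⟩ := ihh ((Psi g).right⁻¹ * x)
    refine ⟨e1 * e2, by rcases he1 with rfl | rfl <;> rcases he2 with rfl | rfl <;> simp, ?_⟩
    simp only [map_mul, RegularWreathProduct.mul_left, RegularWreathProduct.mul_right,
      Pi.mul_apply, Matrix.SpecialLinearGroup.coe_mul, mul_inv_rev]
    rw [mul_assoc, mul_assoc (Psi h).right⁻¹, h2, Matrix.mul_smul, ← mul_assoc, h1,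
      Matrix.smul_mul, smul_smul, mul_comm e2 e1, mul_assoc]

theorem descent (n : ℕ) : ∀ (S : Set (ℤ × ℤ)),
    (∀ w ∈ S, ∃ w' ∈ S, ∃ e : ℤ, (e = 1 ∨ e = -1) ∧ 2 * w'.2 = -e * (w.1 + 2 * w.2) ∧
      w'.1 + w'.2 = -e * w.1) →
    ∀ w ∈ S, w.1 ^ 2 + w.1 * w.2 + 2 * w.2 ^ 2 < n → w.1 = 0 ∧ w.2 = 0 := by
  induction n with
  | zero =>
    intro S _ w _ h
    exfalso
    push_cast at h
    nlinarith [sq_nonneg (2 * w.1 + w.2), sq_nonneg w.2]
  | succ n ih =>
    intro S hS w hw h
    have hev : ∀ w ∈ S, ∃ k, w.1 = 2 * k := by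
      intro w hw
      obtain ⟨w', -, e, he, h1, -⟩ := hS w hw
      rcases he with rfl | rfl
      · exact ⟨-w'.2 - w.2, by linarith⟩
      · exact ⟨w'.2 - w.2, by linarith⟩
    obtain ⟨k, hk⟩ := hev w hw
    by_cases h0 : w.2 + k = 0 ∧ -k = 0
    · constructor <;> omega
    exfalso
    apply h0
    refine ih {u | ∃ v ∈ S, ∃ j, v.1 = 2 * j ∧ u = (v.2 + j, -j)} ?_ (w.2 + k, -k)
      ⟨w, hw, k, hk, rfl⟩ ?_
    · rintro _ ⟨v, hv, j, hj, rfl⟩
      obtain ⟨v', hv', e, he, h1, h2⟩ := hS v hv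
      obtain ⟨j', hj'⟩ := hev v' hv'
      refine ⟨(v'.2 + j', -j'), ⟨v', hv', j', hj', rfl⟩, e, he, ?_, ?_⟩ <;>
        rcases he with rfl | rfl <;> simp only <;> omega
    · simp only
      rw [hk] at h
      push_cast at h
      have hpos : 0 < (w.2 + k) ^ 2 + (w.2 + k) * (-k) + 2 * (-k) ^ 2 := by
        by_cases hk0 : k = 0
        · have : w.2 + k ≠ 0 := fun h => h0 ⟨h, by omega⟩
          have := pow_pos (abs_pos.mpr this) 2
          rw [sq_abs] at this
          rw [hk0] at this ⊢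
          nlinarith
        · have := mul_self_pos.mpr hk0
          nlinarith [sq_nonneg (2 * (w.2 + k) - k)]
      nlinarith

def SS : Subgroup F2 := (RegularWreathProduct.rightHom.comp Psi).ker

theorem mem_SS (g : F2) : g ∈ SS ↔ (Psi g).right = 1 := Iff.rfl

def ff : SS →* F2 := MonoidHom.mk' (fun s => (Psi s.1).left 1) (by
  intro a b
  have ha : (Psi a.1).right = 1 := a.2
  simp [ha])

theorem ff_rel (s : SS) : ∃ e : ℤ, (e = 1 ∨ e = -1) ∧
    (rho (ff s)).1 * !![1, -2; 1, 0] = e • (!![1, -2; 1, 0] * (rho s.1).1) := by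
  obtain ⟨e, he, h⟩ := PP_all s.1 1
  have hs : (Psi s.1).right = 1 := s.2
  rw [hs] at h
  exact ⟨e, he, by simpa [TT, ff] using h⟩

theorem ff_inj : Function.Injective ff := by
  rw [injective_iff_map_eq_one]
  intro s hs
  obtain ⟨e, he, h⟩ := ff_rel s
  rw [hs, map_one] at h
  apply Subtype.ext
  apply rho_pm s.1 e he
  have h00 := congrFun (congrFun h 0) 0
  have h01 := congrFun (congrFun h 0) 1
  have h10 := congrFun (congrFun h 1) 0
  have h11 := congrFun (congrFun h 1) 1
  simp [Matrix.mul_apply, Matrix.vecMul, dotProduct, Fin.sum_univ_two] at h00 h01 h10 h11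
  ext i j
  fin_cases i <;> fin_cases j <;> rcases he with rfl | rfl <;> simp <;> omega

theorem result :
    ¬ (∀ (S R : Subgroup (FreeGroup (Fin 2))), S.index = 2 →
      ∀ f : S ≃* R,
        ∃ H : Subgroup (FreeGroup (Fin 2)),
          H ≤ S ∧ H ≠ ⊥ ∧
            ∀ x : S, (x : FreeGroup (Fin 2)) ∈ H → ((f x : R) : FreeGroup (Fin 2)) ∈ H) := by
  intro hall
  have hidx : SS.index = 2 := by
    rw [SS, Subgroup.index_ker]
    have : (RegularWreathProduct.rightHom.comp Psi).range = ⊤ := by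
      rw [eq_top_iff]
      intro x _
      rcases Q2_cases x with rfl | rfl
      · exact one_mem _
      · exact ⟨fa, by simp [Psi, fa, wgen, RegularWreathProduct.rightHom]⟩
    rw [this]
    simp
  obtain ⟨H, hHS, hH, hinv⟩ := hall SS ff.range hidx (MonoidHom.ofInjective ff_inj)
  apply hH
  rw [eq_bot_iff]
  intro g hg
  let w : F2 → ℤ × ℤ := fun g => ((rho g).1 0 1 + 2 * (rho g).1 1 0,
    (rho g).1 0 0 - (rho g).1 1 0 - (rho g).1 1 1)
  have key := descent (((w g).1 ^ 2 + (w g).1 * (w g).2 + 2 * (w g).2 ^ 2).toNat + 1)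
    (w '' (H : Set F2)) (by
      rintro _ ⟨h, hh, rfl⟩
      have h1 : ff ⟨h, hHS hh⟩ ∈ H := hinv ⟨h, hHS hh⟩ hh
      obtain ⟨e, he, h2⟩ := ff_rel ⟨h, hHS hh⟩
      refine ⟨_, ⟨_, h1, rfl⟩, e, he, ?_⟩
      have h00 := congrFun (congrFun h2 0) 0
      have h01 := congrFun (congrFun h2 0) 1
      have h10 := congrFun (congrFun h2 1) 0
      have h11 := congrFun (congrFun h2 1) 1
      simp [Matrix.mul_apply, Matrix.vecMul, dotProduct, Fin.sum_univ_two] at h00 h01 h10 h11
      simp only [w]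
      rcases he with rfl | rfl <;> constructor <;> omega) (w g) ⟨g, hg, rfl⟩ (by
      push_cast
      have := Int.self_le_toNat ((w g).1 ^ 2 + (w g).1 * (w g).2 + 2 * (w g).2 ^ 2)
      linarith)
  simp only [w] at key
  obtain ⟨k1, k2⟩ := key
  have hdet := (rho g).2
  rw [Matrix.det_fin_two] at hdet
  have hb : (rho g).1 0 1 = -2 * (rho g).1 1 0 := by omega
  have ha : (rho g).1 0 0 = (rho g).1 1 0 + (rho g).1 1 1 := by omega
  rw [hb, ha] at hdet
  have hc : (rho g).1 1 0 = 0 := by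
    by_contra hc
    have := mul_self_pos.mpr hc
    nlinarith [sq_nonneg (2 * (rho g).1 1 1 + (rho g).1 1 0)]
  rw [hc] at hdet hb ha
  have hd : (rho g).1 1 1 = 1 ∨ (rho g).1 1 1 = -1 := by
    apply Int.eq_one_or_neg_one_of_mul_eq_one (v := (rho g).1 1 1)
    linarith
  rw [Subgroup.mem_bot]
  apply rho_pm g _ hd
  ext i j
  fin_cases i <;> fin_cases j <;> simp <;> omega

end Pool.Agent.S00840
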