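import Pool.Statements.S00843
import Pool.Agent.H.MP_a5f8b0_al.Fin

set_option autoImplicit false
open Pool Pool.MP_1a7a01_al

namespace Pool.Agent.S00843

theorem result :
    ∀ P Q : Set ℕ, (∀ p ∈ P, Nat.Prime p ∧ p ≠ 2) → (∀ q ∈ Q, Nat.Prime q ∧ q ≠ 2) → P ≠ Q →
      IsEmpty
        (↥(Subgroup.closure {σ : Equiv.Perm ℤ | ∃ m1 m2 r1 r2 : ℤ,
            0 < m1 ∧ 0 < m2 ∧ 0 ≤ r1 ∧ r1 < m1 ∧ 0 ≤ r2 ∧ r2 < m2 ∧
            ¬ ((Int.gcd m1 m2 : ℤ) ∣ (r1 - r2)) ∧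
            (∀ p : ℕ, Nat.Prime p → (p : ℤ) ∣ m1 * m2 → p = 2 ∨ p ∈ P) ∧
            ∀ n : ℤ, σ n =
              (if m1 ∣ n - r1 then r2 + (n - r1) / m1 * m2
               else if m2 ∣ n - r2 then r1 + (n - r2) / m2 * m1
               else n)})
          ≃*
         ↥(Subgroup.closure {σ : Equiv.Perm ℤ | ∃ m1 m2 r1 r2 : ℤ,
            0 < m1 ∧ 0 < m2 ∧ 0 ≤ r1 ∧ r1 < m1 ∧ 0 ≤ r2 ∧ r2 < m2 ∧
            ¬ ((Int.gcd m1 m2 : ℤ) ∣ (r1 - r2)) ∧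
            (∀ p : ℕ, Nat.Prime p → (p : ℤ) ∣ m1 * m2 → p = 2 ∨ p ∈ Q) ∧
            ∀ n : ℤ, σ n =
              (if m1 ∣ n - r1 then r2 + (n - r1) / m1 * m2
               else if m2 ∣ n - r2 then r1 + (n - r2) / m2 * m1
               else n)})) := by
  intro P Q hP hQ h
  rw [H.MP_a5f8b0_al.gen_eq, H.MP_a5f8b0_al.gen_eq]
  have c := fun R : Set ℕ => H.MP_a5f8b0_al.ctg (Set.mem_insert 2 R)
  refine ⟨fun α => h (Set.ext fun p => ⟨fun hp => ?_, fun hp => ?_⟩)⟩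
  · exact (H.MP_a5f8b0_al.sub_of_iso (c P) (c Q) α (hP p hp).1 (hP p hp).2
      (Or.inr hp)).resolve_left (hP p hp).2
  · exact (H.MP_a5f8b0_al.sub_of_iso (c Q) (c P) α.symm (hQ p hp).1 (hQ p hp).2
      (Or.inr hp)).resolve_left (hQ p hp).2

end Pool.Agent.S00843
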