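import Pool.Statements.S00850
import Pool.Agent.H.MP_0f752e_al.Main

set_option autoImplicit false
open Pool Pool.MP_1b0854_al

namespace Pool.Agent.S00850
open Pool.Agent.H.MP_0f752e_al

theorem result :
    ¬ (∀ F : (G : Type) → [Group G] → Prop,
    (∀ (G : Type) [Group G] [Finite G] (Q : Type) [Group Q] (f : G →* Q),
        Function.Surjective f → F G → F Q) →
    (∀ (G : Type) [Group G] [Finite G] (Q₁ : Type) [Group Q₁] (Q₂ : Type) [Group Q₂]
        (Q : Type) [Group Q] (f₁ : G →* Q₁) (f₂ : G →* Q₂) (f : G →* Q),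
        Function.Surjective f₁ → Function.Surjective f₂ → Function.Surjective f →
        f.ker = f₁.ker ⊓ f₂.ker → F Q₁ → F Q₂ → F Q) →
    (∀ (G : Type) [Group G] [Finite G] (N : Subgroup G), N.Normal → F G → F ↥N) →
    (∀ (G : Type) [Group G] [Finite G] (N M : Subgroup G), N.Normal → M.Normal →
        F ↥N → F ↥M → F ↥(N ⊔ M)) →
    (∀ (G : Type) [Group G] [Finite G] (N : Subgroup G), N.Normal → IsSolvable ↥N →
        (∀ (Q : Type) [Group Q] (f : G →* Q), Function.Surjective f →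
            f.ker = (frattini ↥N).map N.subtype → F Q) → F G) →
    ∀ (G : Type) [Group G] [Finite G] (H K : Subgroup G),
      (∃ n : ℕ, ∃ c : ℕ → Subgroup G, c 0 = H ∧ c n = ⊤ ∧
        ∀ i < n, c i ≤ c (i + 1) ∧ ((c i).subgroupOf (c (i + 1))).Normal) →
      (∃ n : ℕ, ∃ c : ℕ → Subgroup G, c 0 = K ∧ c n = ⊤ ∧
        ∀ i < n, c i ≤ c (i + 1) ∧ ((c i).subgroupOf (c (i + 1))).Normal) →
      (⨅ (N : Subgroup ↥(H ⊔ K)) (_ : N.Normal ∧ ∀ (Q : Type) [Group Q] (f : ↥(H ⊔ K) →* Q),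
          Function.Surjective f → f.ker = N → F Q), N).map (H ⊔ K).subtype
        = (⨅ (N : Subgroup ↥H) (_ : N.Normal ∧ ∀ (Q : Type) [Group Q] (f : ↥H →* Q),
            Function.Surjective f → f.ker = N → F Q), N).map H.subtype
          ⊔ (⨅ (N : Subgroup ↥K) (_ : N.Normal ∧ ∀ (Q : Type) [Group Q] (f : ↥K →* Q),
            Function.Surjective f → f.ker = N → F Q), N).map K.subtype) := by
  intro h
  refine final ?_ ?_ ?_ (h F (fun G _ _ Q _ f hf a => F_img a f hf)
    (fun G _ _ Q₁ _ Q₂ _ Q _ f₁ f₂ f h₁ h₂ hf e a₁ a₂ => F_inf f₁ f₂ f h₁ h₂ hf e a₁ a₂)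
    (fun G _ _ N hN a => F_normal a N hN) (fun G _ _ N M hN hM a b => F_prod N M hN hM a b)
    (fun G _ _ N hN hs a => ?_) GG (U 2) (U 3) (U_SN 2).chain (U_SN 3).chain)
  · refine le_iInf fun N => le_iInf fun hN => ?_
    have := hN.1
    have := T_le_ker (QuotientGroup.mk' N) (QuotientGroup.mk'_surjective _)
      (hN.2 _ _ (QuotientGroup.mk'_surjective _) (QuotientGroup.ker_mk' _))
    rwa [QuotientGroup.ker_mk'] at this
  · exact iInf_le_of_le _ (iInf_le_of_le ⟨Kd_normal 2 ra, fun Q _ f hf e => F_U 2 (.inl rfl) f hf e⟩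
      le_rfl)
  · exact iInf_le_of_le _ (iInf_le_of_le ⟨Kd_normal 3 rb, fun Q _ f hf e => F_U 3 (.inr rfl) f hf e⟩
      le_rfl)
  · have : ((frattini N).map N.subtype).Normal := ConjAct.normal_of_characteristic_of_normal
    exact F_solv N hs (QuotientGroup.mk' ((frattini N).map N.subtype)) (QuotientGroup.mk'_surjective _)
      (by rw [QuotientGroup.ker_mk']; exact Subgroup.map_subtype_le _)
      (a _ _ (QuotientGroup.mk'_surjective _) (QuotientGroup.ker_mk' _))

end Pool.Agent.S00850
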