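import Pool.Statements.S00852
import Pool.Agent.H.MP_1b4c08_al.B

set_option autoImplicit false
open Pool Pool.MP_1b4c08_al

namespace Pool.Agent.S00852

theorem result :
    ¬ (∃ c : ℕ, ∀ (K : Type) [Field K] (r : ℕ) (S : Set (Finset (Fin r))) (n : ℕ),
      c * (r + 1) ≤ n →
      sSup {k : ℕ | ∃ rs : List (MvPolynomial (Fin r) K), rs.length = k ∧
          (∀ x ∈ rs, x ∈ Ideal.span (Set.range (MvPolynomial.X : Fin r → MvPolynomial (Fin r) K))) ∧
          RingTheory.Sequence.IsRegular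
            (MvPolynomial (Fin r) K ⧸
              ⨅ P ∈ Ideal.minimalPrimes (Ideal.span
                ((fun s : Finset (Fin r) =>
                  MvPolynomial.monomial (∑ i ∈ s, Finsupp.single i 1) (1 : K)) '' S)), P ^ n)
            rs}
      =
      sSup {k : ℕ | ∃ rs : List (MvPolynomial (Fin r) K), rs.length = k ∧
          (∀ x ∈ rs, x ∈ Ideal.span (Set.range (MvPolynomial.X : Fin r → MvPolynomial (Fin r) K))) ∧
          RingTheory.Sequence.IsRegular
            (MvPolynomial (Fin r) K ⧸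
              ⨅ P ∈ Ideal.minimalPrimes (Ideal.span
                ((fun s : Finset (Fin r) =>
                  MvPolynomial.monomial (∑ i ∈ s, Finsupp.single i 1) (1 : K)) '' S)), P ^ (c * (r + 1)))
            rs}) := by
  rintro ⟨c, h⟩
  obtain ⟨r, F, n, h1, h2, h3⟩ := Pool.Agent.H.MP_1b4c08_al.main (K := ℚ) c
  have h0 : c * (r + 1) ≤ (c + 1) * (r + 1) := Nat.mul_le_mul_right _ c.le_succ
  have e := (h ℚ r {s | ∀ j, ¬ s ⊆ F j} n (h0.trans h1)).trans
    (h ℚ r {s | ∀ j, ¬ s ⊆ F j} _ h0).symm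
  rw [Pool.Agent.H.MP_1b4c08_al.minimal, Pool.Agent.H.MP_1b4c08_al.minimal] at e
  replace e := h3.symm.trans e
  by_cases hb : BddAbove (Pool.Agent.H.MP_1b4c08_al.Len
    (⨅ j, Pool.Agent.H.MP_1b4c08_al.W ℚ (F j) ((c + 1) * (r + 1))))
  · exact absurd ((le_csSup hb h2).trans e.ge) (by norm_num)
  · exact absurd (e.trans (csSup_of_not_bddAbove hb)) (by simp)

end Pool.Agent.S00852
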