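import Pool.Statements.S00865
import Pool.Agent.H.MP_1d00e6_al.A

set_option autoImplicit false
open Pool Pool.MP_1d00e6_al

namespace Pool.Agent.S00865

theorem result :
    ∀ p q : ℕ, p.Prime → q.Prime → p ≠ q →
      ∃ (G : Type) (_ : Group G),
        Monoid.IsTorsion G ∧
        (∀ g : G, ∃ a b : ℕ, orderOf g = p ^ a * q ^ b) ∧
        ¬ IsPGroup p G ∧ ¬ IsPGroup q G ∧
        (∀ s : Finset G, IsSolvable (Subgroup.closure (s : Set G))) ∧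
        ∃ A B : Subgroup G, IsPGroup p A ∧ IsPGroup p B ∧
          ∀ g : G, ∃ a ∈ A, ∃ b ∈ B, g = a * b := by
  open Pool.Agent.H.MP_1d00e6_al Pool.Agent.H.MP_7538d4_al in
  intro p q hp hq hpq
  have := Fact.mk hp
  have := Fact.mk hq
  have hi := jG_inj (ψ p q) fun n => (ψ_spec n).1
  have ho : ∀ g : GLim (ψ p q), ∃ k, g ^ (p ^ k * q) = 1 := fun g => by
    obtain ⟨n, hn⟩ := exG _ g
    obtain ⟨x, rfl⟩ := hn n le_rfl
    obtain ⟨k, hk⟩ := x.ord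
    exact ⟨k, by rw [← map_pow, hk, map_one]⟩
  let A := uni (ψ p q) fun n => (Af.st 0).range
  let B := uni (ψ p q) fun n => (Af.st (sq p q n).m).range
  have hA : IsPGroup p A := uni_pgroup _ _ (by
      rintro n _ ⟨_, ⟨a, rfl⟩, rfl⟩
      exact ((ψ_spec n).2.2.2.1 a).imp fun _ h => h.symm)
    fun n => (sq p q n).pA.of_surjective _ (MonoidHom.rangeRestrict_surjective _)
  have hB : IsPGroup p B := uni_pgroup _ _ (by
      rintro n _ ⟨_, ⟨a, rfl⟩, rfl⟩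
      exact ((ψ_spec n).2.2.2.2.1 a).imp fun _ h => h.symm)
    fun n => (sq p q n).pA.of_surjective _ (MonoidHom.rangeRestrict_surjective _)
  have hAB : ∀ g, ∃ a ∈ A, ∃ b ∈ B, g = a * b := fun g => by
    obtain ⟨n, hn⟩ := exG _ g
    obtain ⟨x, rfl⟩ := hn n le_rfl
    obtain ⟨a, b, e⟩ := (ψ_spec n).2.2.2.2.2 x
    exact ⟨_, mem_uni _ _ (n + 1) ⟨a, rfl⟩, _, mem_uni _ _ (n + 1) ⟨b, rfl⟩, by
      rw [← jG_b, e, map_mul]⟩
  have hc : ∀ {r s : ℕ}, r.Prime → s.Prime → r ≠ s → ∀ (g : GLim (ψ p q)) (i j : ℕ),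
      g ^ r ^ i = 1 → g ^ s ^ j = 1 → g = 1 := fun hr hs hrs g i j h1 h2 => by
    rw [← orderOf_eq_one_iff]
    exact Nat.eq_one_of_dvd_coprimes (Nat.coprime_pow_primes i j hr hs hrs)
      (orderOf_dvd_of_pow_eq_one h1) (orderOf_dvd_of_pow_eq_one h2)
  have := (ψ_spec (p := p) (q := q) 0).2.1
  obtain ⟨v, hv⟩ := exists_ne (0 : (sq p q 1).M)
  let z := jG (ψ p q) 1 (Af.inl (Multiplicative.ofAdd v))
  have hz : z ^ q ^ 1 = 1 := by rw [pow_one, ← map_pow, inl_pow, map_one]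
  have hnp : ¬ IsPGroup p (GLim (ψ p q)) := fun h => by
    obtain ⟨k, hk⟩ := h z
    exact hv (congrArg Af.v (hi 1 ((hc hp hq hpq z _ _ hk hz).trans (map_one _).symm)))
  refine ⟨GLim (ψ p q), inferInstance, fun g => ?_, fun g => ?_, hnp, fun h => hnp fun g => ?_,
    lim_solv _, A, B, hA, hB, hAB⟩
  · obtain ⟨k, hk⟩ := ho g
    exact isOfFinOrder_iff_pow_eq_one.2 ⟨_, mul_pos (pow_pos hp.pos _) hq.pos, hk⟩
  · obtain ⟨k, hk⟩ := ho g
    obtain ⟨a, b, ha, hb, e⟩ := (Nat.dvd_mul.1 (orderOf_dvd_of_pow_eq_one hk))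
    obtain ⟨i, -, rfl⟩ := (Nat.dvd_prime_pow hp).1 ha
    obtain ⟨j, -, rfl⟩ := (Nat.dvd_prime_pow hq (m := 1)).1 (show b ∣ q ^ 1 by rwa [pow_one])
    exact ⟨i, j, e.symm⟩
  · obtain ⟨a, ha, b, hb, rfl⟩ := hAB g
    obtain ⟨i, hi⟩ := hA ⟨a, ha⟩
    obtain ⟨j, hj⟩ := hB ⟨b, hb⟩
    obtain ⟨i', hi'⟩ := h a
    obtain ⟨j', hj'⟩ := h b
    rw [hc hp hq hpq a _ _ (congrArg Subtype.val hi) hi',
      hc hp hq hpq b _ _ (congrArg Subtype.val hj) hj']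
    exact ⟨0, by simp⟩

end Pool.Agent.S00865
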