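import Pool.Statements.S00882
import Pool.Agent.H.MP_1e7c77_al.Main

set_option autoImplicit false
open Pool Pool.MP_1e7c77_al Pool.Agent.H.MP_1e7c77_al

namespace Pool.Agent.S00882

theorem result :
    ¬ (∀ (G : Type) [Group G] (N : Subgroup G), Group.IsNilpotent N →
    ∀ (P : Set G),
      ((∀ a ∈ P, ∀ b ∈ P, a * b ∈ P) ∧ (1 : G) ∉ P ∧ (∀ a : G, a ≠ 1 → (a ∈ P ↔ a⁻¹ ∉ P))) →
    ∀ (H : Type) [Group H], Group.IsNilpotent H →
      (∀ h : H, ∀ n : ℕ, 0 < n → ∃ x : H, x ^ n = h) →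
    ∀ (ι : N →* H), Function.Injective ι →
      (∀ h : H, ∃ n : ℕ, 0 < n ∧ h ^ n ∈ ι.range) →
    ∀ (Q : Set H),
      ((∀ a ∈ Q, ∀ b ∈ Q, a * b ∈ Q) ∧ (1 : H) ∉ Q ∧ (∀ a : H, a ≠ 1 → (a ∈ Q ↔ a⁻¹ ∉ Q))) →
      (∀ x : N, ι x ∈ Q ↔ (x : G) ∈ P) →
    ∀ g : H, ∃ R : Set G,
      ((∀ a ∈ R, ∀ b ∈ R, a * b ∈ R) ∧ (1 : G) ∉ R ∧ (∀ a : G, a ≠ 1 → (a ∈ R ↔ a⁻¹ ∉ R))) ∧
      (∀ x : N, (x : G) ∈ R ↔ g⁻¹ * ι x * g ∈ Q)) := by
  intro h
  obtain ⟨P, hP, hP2⟩ := exists_cone (toLex (0, 0))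
  have := Hq_nil
  let e : Hz ≃* rho.range := MonoidHom.ofInjective rho_inj
  have he : ∀ x : Hz, ((e x : rho.range) : G) = rho x := fun _ => rfl
  obtain ⟨R, hR, hR2⟩ := h G rho.range (Group.nilpotent_of_mulEquiv e) P hP Hq Hq_nil Hq_div
    (Hz.subtype.comp e.symm.toMonoidHom)
    (Hz.subtype_injective.comp e.symm.injective)
    (fun x => by
      obtain ⟨n, h0, h1⟩ := pow_mem_Hz x
      exact ⟨n, h0, e ⟨_, h1⟩, by simp⟩)
    Q Q_cone
    (fun x => by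
      obtain ⟨y, rfl⟩ := e.surjective x
      rw [he]
      simp only [MonoidHom.comp_apply, MulEquiv.toMonoidHom_eq_coe, MonoidHom.coe_coe,
        MulEquiv.symm_apply_apply, Subgroup.coe_subtype]
      refine ⟨fun hy => (hP2 _).1 ((rho_lt y).mpr hy), fun hy => ?_⟩
      by_contra hc
      have y1 : (y : Hq) ≠ 1 := fun h1 => by
        rw [show y = 1 from Subtype.ext h1, map_one] at hy
        exact hP.2.1 hy
      have a1 : (y : Hq)⁻¹ ∈ Q := by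
        by_contra h3
        exact hc ((Q_cone.2.2 _ y1).mpr h3)
      have a2 := (hP2 _).1 ((rho_lt y⁻¹).mpr a1)
      have a3 := hP.1 _ hy _ a2
      rw [← map_mul, mul_inv_cancel, map_one] at a3
      exact hP.2.1 a3)
    ⟨0, -7 / 5, 0⟩
  have s2 : √2 * √2 = 2 := Real.mul_self_sqrt (by norm_num)
  have s0 : 0 < √2 := by positivity
  have l1 : 7 / 5 < √2 := by nlinarith
  have l2 : √2 < 3 / 2 := by nlinarith
  have a1 : rho TT ∈ R := by
    rw [← he, hR2]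
    right
    simp [TT]
    linarith
  have a2 := coupling hR a1
  rw [← he, hR2] at a2
  rcases a2 with a | a
  · simp [MM] at a
  · have := a.2
    simp [MM] at this
    linarith

end Pool.Agent.S00882
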