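import Pool.Statements.S00884
import Pool.Agent.H.MP_1ef125_al.G

set_option autoImplicit false
open Pool Pool.MP_1ef125_al

namespace Pool.Agent.S00884

/-- The negation of the preceding statement: For each field k there is φ : ℕ → ℕ so that every finite-dimensional k-algebra with n simple modules up to isomorphism has either infinite dominant dimension or dominant dimension at most φ(n). -/
theorem result :
    ¬ (∀ (k : Type) [Field k], ∃ φ : ℕ → ℕ,
    ∀ (A : Type) [Ring A] [Algebra k A] [FiniteDimensional k A],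
    ∀ (n : ℕ) (S : Fin n → ModuleCat.{0} A),
      (∀ i, IsSimpleModule A (S i)) →
      (∀ i j, Nonempty (S i ≃ₗ[A] S j) → i = j) →
      (∀ M : ModuleCat.{0} A, IsSimpleModule A M → ∃ i, Nonempty (M ≃ₗ[A] S i)) →
      ∀ P : ℕ → Prop,
        (∀ m, P m ↔ ∃ (I : ℕ → ModuleCat.{0} A) (ε : A →ₗ[A] I 0)
            (d : ∀ i, I i →ₗ[A] I (i + 1)),
            Function.Injective ε ∧
            (1 < m → Function.Exact ε (d 0)) ∧
            (∀ i, i + 2 < m → Function.Exact (d i) (d (i + 1))) ∧
            ∀ j, j < m → Module.Projective A (I j) ∧ Module.Injective A (I j)) →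
        (∀ m, P m) ∨ ¬ P (φ n + 1)) := by
  intro h
  obtain ⟨φ, hφ⟩ := h ℚ
  let D := (Pool.Agent.H.MP_1ef125_al.qdata (φ 2)).toData
  have := D.finA
  rcases hφ D.A 2 D.S D.S_simple D.S_inj D.S_all (Pool.Agent.H.MP_1ef125_al.PP D.A)
    (fun _ => Iff.rfl) with h1 | h1
  · exact D.PP_neg h1
  · exact h1 (D.PP_pos _ (by omega))

end Pool.Agent.S00884
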