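import Pool.Statements.S00949
import Pool.Agent.H.MP_23b8d1_al.C

set_option autoImplicit false
open N5f09da3c
open Pool Pool.MP_23b8d1_al

namespace Pool.Agent.S00949

open Pool.Agent.H.MP_23b8d1_al in
theorem pro {G H : Type*} [Group G] [Group H] (e : G ≃* H)
    (h : ∀ P0 : Set H, NS Set.univ P0 → 1 ∉ P0 → ∃ P : Set H, NS Set.univ P ∧ 1 ∉ P ∧ P0 ⊆ P ∧
      ∀ g, g ≠ 1 → g ∈ P ∨ g⁻¹ ∈ P) : ProOrderable G := by
  intro r hr hb
  have hP0 : NS Set.univ {x | r 1 (e.symm x) ∧ x ≠ 1} := by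
    refine ⟨?_, ?_⟩
    · rintro a ⟨a1, a2⟩ b ⟨b1, b2⟩
      have k := hb.1 (e.symm a) _ _ b1
      rw [mul_one, ← map_mul] at k
      refine ⟨hr.trans _ _ _ a1 k, fun e1 => a2 ?_⟩
      rw [e1, map_one] at k
      simpa using hr.antisymm _ _ k a1
    · rintro x _ a ⟨a1, a2⟩
      refine ⟨?_, by simpa using a2⟩
      simpa using hb.2 (e.symm x⁻¹) _ _ (hb.1 (e.symm x) _ _ a1)
  obtain ⟨P, hP, h1, h0, ht⟩ := h _ hP0 (fun k => k.2 rfl)
  · have i1 : Std.Refl fun x y : G => x = y ∨ e (x⁻¹ * y) ∈ P := ⟨fun _ => Or.inl rfl⟩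
    have i2 : IsTrans G fun x y : G => x = y ∨ e (x⁻¹ * y) ∈ P := ⟨by
      rintro x y z (rfl | k) (rfl | k')
      · exact Or.inl rfl
      · exact Or.inr k'
      · exact Or.inr k
      · exact Or.inr (by simpa [mul_assoc] using hP.mul _ k _ k')⟩
    have i3 : Std.Antisymm fun x y : G => x = y ∨ e (x⁻¹ * y) ∈ P := ⟨by
      rintro x y (k | k) (k' | k')
      · exact k
      · exact k
      · exact k'.symm
      · exact absurd (by simpa using hP.mul _ k _ k') h1⟩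
    have i4 : Std.Total fun x y : G => x = y ∨ e (x⁻¹ * y) ∈ P := ⟨by
      intro x y
      by_cases k : x = y
      · exact Or.inl (Or.inl k)
      · rcases ht (e (x⁻¹ * y)) (by simpa [inv_mul_eq_one] using k) with k' | k'
        · exact Or.inl (Or.inr k')
        · exact Or.inr (Or.inr (by simpa using k'))⟩
    have i5 : IsPreorder G fun x y : G => x = y ∨ e (x⁻¹ * y) ∈ P := ⟨⟩
    have i6 : IsPartialOrder G fun x y : G => x = y ∨ e (x⁻¹ * y) ∈ P := ⟨⟩
    refine ⟨fun x y => x = y ∨ e (x⁻¹ * y) ∈ P, ⟨⟩, ⟨?_, ?_⟩, fun x y k => ?_⟩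
    · rintro g a b (rfl | k)
      · exact Or.inl rfl
      · exact Or.inr (by simpa [mul_assoc] using k)
    · rintro g a b (rfl | k)
      · exact Or.inl rfl
      · exact Or.inr (by simpa [mul_assoc] using hP.cj (e g⁻¹) trivial _ k)
    · by_cases k' : x = y
      · exact Or.inl k'
      · refine Or.inr (h0 ⟨?_, by simpa [inv_mul_eq_one] using k'⟩)
        simpa using hb.1 x⁻¹ _ _ k

theorem result :
    ∃ (G : Type*) (_ : Group G), IsSimpleGroup G ∧ ProOrderable G := by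
  open Pool.Agent.H.MP_23b8d1_al in
  have := simple
  open Pool.Agent.H.MP_23b8d1_al in
  exact ⟨ULift (⁅G0, G0⁆ : Subgroup Au), inferInstance, MulEquiv.ulift.isSimpleGroup,
    pro MulEquiv.ulift cones⟩

end Pool.Agent.S00949
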