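import Pool.Statements.S00960

set_option autoImplicit false
open Pool Pool.MP_2475ca_al

namespace Pool.Agent.S00960

open Subgroup MulAction

section

variable {G : Type} [Group G] [Finite G]

lemma frattini (r : ℕ) [Fact r.Prime] (H N T : Subgroup G) (hN : N ≤ H)
    (hn : ∀ h ∈ H, ∀ x ∈ N, h * x * h⁻¹ ∈ N) (hT : T ≤ N) (hp : IsPGroup r T) :
    ∃ T' : Subgroup G, T ≤ T' ∧ T' ≤ N ∧ Nat.card T' = r ^ (Nat.card N).factorization r ∧
      ∀ h ∈ H, ∃ x ∈ N, ∃ y ∈ H, y ∈ normalizer (T' : Set G) ∧ h = x * y := by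
  have hnorm : (N.subgroupOf H).Normal := ⟨fun x hx h => hn h h.2 x hx⟩
  have hp2 : IsPGroup r ((T.subgroupOf H).subgroupOf (N.subgroupOf H)) :=
    hp.comap_subtype.comap_subtype
  obtain ⟨P, hP⟩ := hp2.exists_le_sylow
  refine ⟨((P : Subgroup (N.subgroupOf H)).map (N.subgroupOf H).subtype).map H.subtype,
    ?_, ?_, ?_, ?_⟩
  · intro x hx
    exact ⟨⟨x, hN (hT hx)⟩, ⟨⟨⟨x, hN (hT hx)⟩, hT hx⟩, hP hx, rfl⟩, rfl⟩
  · rintro _ ⟨_, ⟨y, -, rfl⟩, rfl⟩
    exact y.2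
  · rw [card_map_of_injective H.subtype_injective,
      card_map_of_injective (N.subgroupOf H).subtype_injective, P.card_eq_multiplicity,
      Nat.card_congr (subgroupOfEquivOfLe hN).toEquiv]
  · intro h hh
    have h1 := P.normalizer_sup_eq_top
    rw [sup_comm] at h1
    have h2 : (⟨h, hh⟩ : H) ∈ N.subgroupOf H ⊔
        normalizer (((P : Subgroup (N.subgroupOf H)).map (N.subgroupOf H).subtype :
          Subgroup H) : Set H) := by
      rw [h1]; trivial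
    obtain ⟨x, hx, y, hy, hxy⟩ := mem_sup_of_normal_left.mp h2
    refine ⟨x, hx, y, y.2, le_normalizer_map _ ⟨y, hy, rfl⟩, ?_⟩
    exact (congrArg Subtype.val hxy).symm

lemma exists_syl (q : ℕ) [Fact q.Prime] (H : Subgroup G) :
    ∃ Q : Subgroup G, Q ≤ H ∧ Nat.card Q = q ^ (Nat.card H).factorization q := by
  obtain ⟨Q, -, h1, h2, -⟩ := frattini q H H ⊥ le_rfl
    (fun h hh x hx => H.mul_mem (H.mul_mem hh hx) (H.inv_mem hh)) bot_le IsPGroup.of_bot
  exact ⟨Q, h1, h2⟩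

variable {Ω : Type} [Finite Ω] [MulAction G Ω]

lemma orb_stab (Q : Subgroup G) (x : Ω) :
    (orbit Q x).ncard * Nat.card (Q ⊓ stabilizer G x : Subgroup G) = Nat.card Q := by
  have h1 : stabilizer Q x = (Q ⊓ stabilizer G x).subgroupOf Q := by
    ext y; simp [mem_subgroupOf, Subgroup.smul_def]
  rw [← index_stabilizer, ← Nat.card_congr (subgroupOfEquivOfLe inf_le_left).toEquiv, ← h1]
  exact index_mul_card _

lemma dvd_of_orbits (Q : Subgroup G) (m : ℕ) (Z : Set Ω) (hZ : ∀ g ∈ Q, ∀ x ∈ Z, g • x ∈ Z)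
    (h : ∀ x ∈ Z, m ∣ (orbit Q x).ncard) : m ∣ Z.ncard := by
  classical
  have hf := Z.toFinite
  rw [Set.ncard_eq_toFinset_card Z hf,
    Finset.card_eq_sum_card_image (fun x => orbit Q x) hf.toFinset]
  refine Finset.dvd_sum fun b hb => ?_
  obtain ⟨x, hx, rfl⟩ := Finset.mem_image.mp hb
  have hx2 : x ∈ Z := by simpa using hx
  have : ((hf.toFinset.filter (fun y => orbit Q y = orbit Q x) : Finset Ω) : Set Ω) =
      orbit Q x := by
    ext y
    simp only [Finset.coe_filter, Set.Finite.mem_toFinset, Set.mem_ofPred_eq, orbit_eq_iff]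
    refine ⟨fun h => h.2, fun h => ⟨?_, h⟩⟩
    obtain ⟨g, rfl⟩ := h
    exact hZ g g.2 x hx2
  rw [← Set.ncard_coe_finset, this]
  exact h x hx2

lemma fixed_pt (q : ℕ) (hq : q.Prime) (Q : Subgroup G) (a : ℕ) (hQ : Nat.card Q = q ^ a)
    (Z : Set Ω) (hZ : ∀ g ∈ Q, ∀ x ∈ Z, g • x ∈ Z) (h : ¬ q ∣ Z.ncard) :
    ∃ x ∈ Z, ∀ g ∈ Q, g • x = x := by
  by_contra hcon
  push Not at hcon
  refine h (dvd_of_orbits Q q Z hZ fun x hx => ?_)
  have h1 : (orbit Q x).ncard ∣ q ^ a := by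
    rw [← hQ]; exact Dvd.intro _ (orb_stab Q x)
  obtain ⟨j, -, hj⟩ := (Nat.dvd_prime_pow hq).mp h1
  rcases j with _ | j
  · obtain ⟨g, hg, hgx⟩ := hcon x hx
    obtain ⟨y, hy⟩ := Set.ncard_eq_one.mp hj
    have h2 : x ∈ orbit Q x := mem_orbit_self x
    have h3 : g • x ∈ orbit Q x := ⟨⟨g, hg⟩, rfl⟩
    rw [hy] at h2 h3
    exact absurd (h3.trans h2.symm) hgx
  · rw [hj]; exact dvd_pow_self q (Nat.succ_ne_zero j)

variable {ι : Type} [Finite ι] [MulAction G ι]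

lemma count (c : Ω → Ω → ι) (hc : ∀ (g : G) a b, a ≠ b → c (g • a) (g • b) = g • c a b)
    (q e : ℕ) (hq : q.Prime) (he : q ^ e ∣ Nat.card ι) (H Q : Subgroup G)
    (hH : ∀ i j : ι, ∃ h ∈ H, h • i = j) (hQH : Q ≤ H)
    (hQ : Nat.card Q = q ^ (Nat.card H).factorization q) (β : Ω) (hβ : ∀ g ∈ Q, g • β = β)
    (Z : Set Ω) (hZ : ∀ g ∈ Q, ∀ x ∈ Z, g • x ∈ Z) (hβZ : β ∈ Z) :
    Z.ncard ≡ 1 [MOD q ^ e] := by
  have h1 : q ^ e ∣ (Z \ {β}).ncard := by
    refine dvd_of_orbits Q _ _ ?_ ?_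
    · rintro g hg x ⟨hx, hx2⟩
      refine ⟨hZ g hg x hx, fun h => hx2 ?_⟩
      have h2 : g • x = g • β := by rw [hβ g hg]; exact h
      exact smul_left_cancel g h2
    · rintro x ⟨hx, hx2⟩
      have hne : β ≠ x := fun h => hx2 h.symm
      have h2 := orb_stab Q x
      have h3 := orb_stab H (c β x)
      have h4 : orbit H (c β x) = Set.univ := Set.eq_univ_of_forall fun j => by
        obtain ⟨h, hh, hj⟩ := hH (c β x) j
        exact ⟨⟨h, hh⟩, hj⟩
      rw [h4, Set.ncard_univ] at h3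
      have h5 : (Q ⊓ stabilizer G x : Subgroup G) ≤ H ⊓ stabilizer G (c β x) := by
        rintro g ⟨hg, hg2⟩
        refine ⟨hQH hg, ?_⟩
        have hg3 : g • x = x := hg2
        show g • c β x = c β x
        rw [← hc g β x hne, hβ g hg, hg3]
      have h6 := card_dvd_of_le h5
      have h7 : Nat.card (Q ⊓ stabilizer G x : Subgroup G) ∣ q ^ (Nat.card H).factorization q := by
        rw [← hQ]; exact Dvd.intro_left _ h2
      obtain ⟨j, -, hj⟩ := (Nat.dvd_prime_pow hq).mp h7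
      rw [hj] at h6 h2
      have h8 : q ^ (e + j) ∣ Nat.card H := by
        rw [← h3, pow_add]; exact mul_dvd_mul he h6
      have h9 : e + j ≤ (Nat.card H).factorization q :=
        (hq.pow_dvd_iff_le_factorization Nat.card_pos.ne').mp h8
      have h10 : q ^ e * q ^ j ∣ (orbit Q x).ncard * q ^ j := by
        rw [h2, hQ, ← pow_add]; exact pow_dvd_pow q h9
      exact Nat.dvd_of_mul_dvd_mul_right (pow_pos hq.pos j) h10
  rw [← Set.ncard_diff_singleton_add_one hβZ]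
  simpa using (Nat.modEq_zero_iff_dvd.mpr h1).add_right 1

lemma card_conj (T : Subgroup G) (g : G) (hg : g ∈ normalizer (T : Set G)) (x : Ω) :
    Nat.card (T ⊓ stabilizer G (g • x) : Subgroup G) =
      Nat.card (T ⊓ stabilizer G x : Subgroup G) := by
  have : (T ⊓ stabilizer G (g • x) : Subgroup G) =
      (T ⊓ stabilizer G x : Subgroup G).map (MulAut.conj g).toMonoidHom := by
    rw [map_inf _ _ _ (MulAut.conj g).injective, ← stabilizer_smul_eq_stabilizer_map_conj]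
    congr 1
    exact (mem_normalizer_iff_map_conj_eq.mp hg).symm
  rw [this, card_map_of_injective (MulAut.conj g).injective]

theorem core (c : Ω → Ω → ι) (hc : ∀ (g : G) a b, a ≠ b → c (g • a) (g • b) = g • c a b)
    (K : Subgroup G) [hKn : K.Normal] (hK : ∀ g ∈ K, ∀ i : ι, g • i = i)
    (hKt : ∀ a b : Ω, ∃ g ∈ K, g • a = b) (hG : ∀ i j : ι, ∃ g : G, g • i = j) (α : Ω)
    (q e : ℕ) (hq : q.Prime) (he0 : e ≠ 0) (he : q ^ e ∣ Nat.card ι) (r : ℕ) (hr : r.Prime) :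
    r ^ (Nat.card Ω).factorization r ≡ 1 [MOD q ^ e] := by
  have := Fact.mk hq
  have := Fact.mk hr
  set s := Nat.card (K ⊓ stabilizer G α : Subgroup G) with hs
  have hKs : ∀ x : Ω, Nat.card Ω * Nat.card (K ⊓ stabilizer G x : Subgroup G) = Nat.card K := by
    intro x
    have h4 : orbit K x = Set.univ := Set.eq_univ_of_forall fun j => by
      obtain ⟨h, hh, hj⟩ := hKt x j
      exact ⟨⟨h, hh⟩, hj⟩
    rw [← orb_stab K x, h4, Set.ncard_univ]
  have hΩ : 0 < Nat.card Ω := by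
    have : Nonempty Ω := ⟨α⟩
    exact Nat.card_pos
  have hsx : ∀ x : Ω, Nat.card (K ⊓ stabilizer G x : Subgroup G) = s := fun x =>
    Nat.eq_of_mul_eq_mul_left hΩ ((hKs x).trans (hKs α).symm)
  let Z : Subgroup G → Set Ω := fun T =>
    {x | r ^ s.factorization r ∣ Nat.card (T ⊓ stabilizer G x : Subgroup G)}
  have hZinv : ∀ T : Subgroup G, ∀ g ∈ normalizer (T : Set G), ∀ x ∈ Z T, g • x ∈ Z T := by
    intro T g hg x hx
    simp only [Z, Set.mem_ofPred_eq] at hx ⊢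
    rwa [card_conj T g hg]
  have hZmono : ∀ T T' : Subgroup G, T ≤ T' → Z T ⊆ Z T' := fun T T' h x hx =>
    dvd_trans hx (card_dvd_of_le (inf_le_inf_right _ h))
  have htrans : ∀ H : Subgroup G, (∀ g : G, ∃ κ ∈ K, ∃ h ∈ H, g = κ * h) →
      ∀ i j : ι, ∃ h ∈ H, h • i = j := by
    intro H hH i j
    obtain ⟨g, hg⟩ := hG i j
    obtain ⟨κ, hκ, h, hh, rfl⟩ := hH g
    exact ⟨h, hh, by rw [← hg, mul_smul, hK κ hκ]⟩
  have hnd : ∀ m : ℕ, m ≡ 1 [MOD q ^ e] → ¬ q ∣ m := by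
    intro m hm hd
    have h1 : m ≡ 1 [MOD q] := hm.of_dvd (dvd_pow_self q he0)
    exact hq.one_lt.ne' (Nat.dvd_one.mp ((h1.dvd_iff dvd_rfl).mp hd))
  let I : Set (Subgroup G) := {T | T ≤ K ∧ IsPGroup r T ∧
    (∀ g : G, ∃ κ ∈ K, ∃ h ∈ normalizer (T : Set G), g = κ * h) ∧ ¬ q ∣ (Z T).ncard}
  have hI : I.Nonempty := by
    obtain ⟨T, -, h1, h2, h3⟩ := frattini r (stabilizer G α) (K ⊓ stabilizer G α) ⊥ inf_le_right
      (fun h hh x hx => ⟨hKn.conj_mem x hx.1 h,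
        Subgroup.mul_mem _ (Subgroup.mul_mem _ hh hx.2) (Subgroup.inv_mem _ hh)⟩) bot_le IsPGroup.of_bot
    have h4 : ∀ g : G, ∃ κ ∈ K, ∃ h ∈ stabilizer G α ⊓ normalizer (T : Set G), g = κ * h := by
      intro g
      obtain ⟨κ, hκ, hκ2⟩ := hKt α (g • α)
      obtain ⟨x, hx, y, hy, hy2, hxy⟩ := h3 (κ⁻¹ * g) (by
        show (κ⁻¹ * g) • α = α
        rw [mul_smul, ← hκ2, inv_smul_smul])
      exact ⟨κ * x, mul_mem hκ hx.1, y, ⟨hy, hy2⟩, by rw [mul_assoc, ← hxy]; simp⟩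
    obtain ⟨Q, hQ1, hQ2⟩ := exists_syl q (stabilizer G α ⊓ normalizer (T : Set G))
    refine ⟨T, h1.trans inf_le_left, IsPGroup.of_card h2, fun g => ?_, hnd _ ?_⟩
    · obtain ⟨κ, hκ, h, hh, e⟩ := h4 g
      exact ⟨κ, hκ, h, hh.2, e⟩
    · refine count c hc q e hq he _ Q (htrans _ h4) hQ1 hQ2 α (fun g hg => (hQ1 hg).1) _
        (fun g hg => hZinv T g (hQ1 hg).2) ?_
      simp only [Z, Set.mem_ofPred_eq]
      rw [inf_eq_left.mpr (h1.trans inf_le_right), h2]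
  obtain ⟨T, ⟨hT1, hT2, hT3, hT4⟩, hmax⟩ := I.toFinite.exists_maximal hI
  obtain ⟨T', h0, h1, h2, h3⟩ := frattini r (normalizer (T : Set G)) (K ⊓ normalizer (T : Set G)) T
    inf_le_right (fun h hh x hx => ⟨hKn.conj_mem x hx.1 h,
        Subgroup.mul_mem _ (Subgroup.mul_mem _ hh hx.2) (Subgroup.inv_mem _ hh)⟩) (le_inf hT1 le_normalizer) hT2
  have h4 : ∀ g : G, ∃ κ ∈ K, ∃ h ∈ normalizer (T : Set G) ⊓ normalizer (T' : Set G),
      g = κ * h := by
    intro g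
    obtain ⟨κ, hκ, h, hh, rfl⟩ := hT3 g
    obtain ⟨x, hx, y, hy, hy2, rfl⟩ := h3 h hh
    exact ⟨κ * x, mul_mem hκ hx.1, y, ⟨hy, hy2⟩, by rw [mul_assoc]⟩
  obtain ⟨Q, hQ1, hQ2⟩ := exists_syl q (normalizer (T : Set G) ⊓ normalizer (T' : Set G))
  obtain ⟨β, hβ, hβ2⟩ := fixed_pt q hq Q _ hQ2 (Z T) (fun g hg => hZinv T g (hQ1 hg).1) hT4
  have hT' : T' ∈ I := by
    refine ⟨h1.trans inf_le_left, IsPGroup.of_card h2, fun g => ?_, hnd _ ?_⟩
    · obtain ⟨κ, hκ, h, hh, e⟩ := h4 g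
      exact ⟨κ, hκ, h, hh.2, e⟩
    · exact count c hc q e hq he _ Q (htrans _ h4) hQ1 hQ2 β hβ2 _
        (fun g hg => hZinv T' g (hQ1 hg).2) (hZmono _ _ h0 hβ)
  have hTT : T' = T := le_antisymm (hmax hT' h0) h0
  have horb : (orbit T β).ncard ≡ 1 [MOD q ^ e] := by
    refine count c hc q e hq he _ Q (htrans _ h4) hQ1 hQ2 β hβ2 _ ?_ (mem_orbit_self β)
    rintro g hg _ ⟨t, rfl⟩
    refine ⟨⟨g * t * g⁻¹, (mem_normalizer_iff.mp (hQ1 hg).1 t).mp t.2⟩, ?_⟩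
    show (g * t * g⁻¹) • β = g • (t : G) • β
    rw [mul_smul, mul_smul, hβ2 g⁻¹ (inv_mem hg)]
  rw [hTT] at h2
  set a := (Nat.card (K ⊓ normalizer (T : Set G) : Subgroup G)).factorization r with ha
  have hcardT : a = (Nat.card K).factorization r := by
    apply le_antisymm
    · apply (hr.pow_dvd_iff_le_factorization Nat.card_pos.ne').mp
      rw [← h2]; exact card_dvd_of_le hT1
    · by_contra hlt
      have h5 : r ^ (a + 1) ∣ Nat.card K :=
        (hr.pow_dvd_iff_le_factorization Nat.card_pos.ne').mpr (by omega)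
      have h6 : Nat.card (T.subgroupOf K) = r ^ a := by
        rw [Nat.card_congr (subgroupOfEquivOfLe hT1).toEquiv, h2]
      have h7 := Sylow.prime_pow_dvd_card_normalizer h5 h6
      rw [← subgroupOf_normalizer_eq hT1, ← inf_subgroupOf_left,
        Nat.card_congr (subgroupOfEquivOfLe inf_le_left).toEquiv] at h7
      have := (hr.pow_dvd_iff_le_factorization Nat.card_pos.ne').mp h7
      omega
  have h8 := orb_stab T β
  have h9 : Nat.card (T ⊓ stabilizer G β : Subgroup G) ∣ r ^ a := by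
    rw [← h2]; exact Dvd.intro_left _ h8
  obtain ⟨j, -, hj⟩ := (Nat.dvd_prime_pow hr).mp h9
  have hs0 : s ≠ 0 := Nat.card_pos.ne'
  have h10 : j = s.factorization r := by
    apply le_antisymm
    · apply (hr.pow_dvd_iff_le_factorization hs0).mp
      rw [← hj, ← hsx β]
      exact card_dvd_of_le (inf_le_inf_right _ hT1)
    · have : r ^ s.factorization r ∣ r ^ j := by rw [← hj]; exact hβ
      exact (Nat.pow_dvd_pow_iff_le_right hr.one_lt).mp this
  rw [hj, h2, hcardT, ← hKs α, Nat.factorization_mul hΩ.ne' hs0, Finsupp.add_apply, pow_add,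
    h10] at h8
  rw [← Nat.eq_of_mul_eq_mul_right (pow_pos hr.pos _) h8]
  exact horb

end

theorem result :
    ¬ (∃ (n k : ℕ) (M G : Subgroup (Equiv.Perm (Fin n))) (c : Fin n → Fin n → Fin k),
    2 ≤ k ∧ M < G ∧
    (∀ a b : Fin n, ∃ m ∈ M, m a = b) ∧
    (∀ i : Fin k, ∃ a b : Fin n, a ≠ b ∧ c a b = i) ∧
    (∀ g ∈ G, ∃ σ : Equiv.Perm (Fin k),
      ∀ a b : Fin n, a ≠ b → c (g a) (g b) = σ (c a b)) ∧
    (∀ i j : Fin k, ∃ g ∈ G,
      ∀ a b : Fin n, a ≠ b → c a b = i → c (g a) (g b) = j) ∧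
    (∀ m ∈ M, ∀ a b : Fin n, a ≠ b → c (m a) (m b) = c a b) ∧
    (¬ ∃ τ : Equiv.Perm (Fin k), ∀ g ∈ G, ∃ z : ℤ,
      ∀ a b : Fin n, a ≠ b → c (g a) (g b) = (τ ^ z) (c a b)) ∧
    (∃ r : ℕ, r.Prime ∧ r ∣ n ∧ ¬ Nat.ModEq k (r ^ (n.factorization r)) 1)) := by
  rintro ⟨n, k, M, G, c, hk, hMG, hM, hsurj, hσ, htr, hMc, -, r, hr, -, hcon⟩
  choose σ hσ using fun g : G => hσ g g.2
  let φ : G →* Equiv.Perm (Fin k) := MonoidHom.mk' σ (fun g h => by
    ext1 i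
    obtain ⟨a, b, hab, rfl⟩ := hsurj i
    rw [Equiv.Perm.mul_apply, ← hσ _ a b hab, ← hσ h a b hab,
      ← hσ g _ _ ((h : Equiv.Perm (Fin n)).injective.ne hab)]
    rfl)
  let inst : MulAction G (Fin k) := MulAction.compHom (Fin k) φ
  obtain ⟨α, -, -, -⟩ := hsurj ⟨0, by omega⟩
  apply hcon
  have key : ∀ q e : ℕ, q.Prime → q ^ e ∣ k → r ^ n.factorization r ≡ 1 [MOD q ^ e] := by
    intro q e hq he
    rcases Nat.eq_zero_or_pos e with rfl | he0
    · simp [Nat.modEq_one]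
    have := @core G _ _ (Fin n) _ _ (Fin k) _ inst c (fun g a b hab => hσ g a b hab) φ.ker _
      (fun g hg i => by
        show φ g i = i
        rw [hg]; rfl)
      (fun a b => by
        obtain ⟨m, hm, hab⟩ := hM a b
        refine ⟨⟨m, hMG.le hm⟩, ?_, hab⟩
        ext1 i
        obtain ⟨x, y, hxy, rfl⟩ := hsurj i
        exact (hσ ⟨m, hMG.le hm⟩ x y hxy).symm.trans (hMc m hm x y hxy))
      (fun i j => by
        obtain ⟨g, hg, h⟩ := htr i j
        obtain ⟨x, y, hxy, rfl⟩ := hsurj i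
        exact ⟨⟨g, hg⟩, (hσ ⟨g, hg⟩ x y hxy).symm.trans (h x y hxy rfl)⟩)
      α q e hq he0.ne' (by simpa using he) r hr
    simpa using this
  have h1 : 1 ≤ r ^ n.factorization r := Nat.one_le_pow _ _ hr.pos
  refine ((Nat.modEq_iff_dvd' h1).mpr ?_).symm
  refine (Nat.dvd_iff_prime_pow_dvd_dvd _ _).mpr fun q e hq he => ?_
  exact (Nat.modEq_iff_dvd' h1).mp (key q e hq he).symm

end Pool.Agent.S00960
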