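import Pool.Statements.S00993
import Pool.Agent.H.MP_26f537_al.Main

set_option autoImplicit false
open Pool Pool.MP_26f537_al

namespace Pool.Agent.S00993

theorem result :
    ∀ (K R : Type) [Field K] [CharZero K] [CommRing R] [IsDomain R] [Algebra K R]
      [Algebra.FiniteType K R] [UniqueFactorizationMonoid R] (δ : Derivation K R R),
      (AddSubgroup.closure
        {r : R | ∃ a b : R, a ≠ 0 ∧ b ≠ 0 ∧ δ a * b - a * δ b = r * a * b}).FG := by
  intro K R _ _ _ _ _ _ _ δ
  exact H.MP_26f537_al.main K R (FractionRing R) δ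

end Pool.Agent.S00993
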