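import Pool.Statements.S01012
-- import your own Pool.Agent.* helpers here

set_option autoImplicit false
open Pool Pool.MP_293fae_al

namespace Pool.Agent.S01012

open IsLocalRing PowerSeries

def red : GaussianInt →+* ZMod 2 := Zsqrtd.lift ⟨1, by decide⟩

def P : Ideal GaussianInt := RingHom.ker red

instance : P.IsPrime := RingHom.ker_isPrime red

abbrev O := Localization.AtPrime P

instance : IsDiscreteValuationRing O :=
  IsLocalization.AtPrime.isDiscreteValuationRing_of_dedekind_domain GaussianInt (P := P) (fun h => by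
    have : (2 : GaussianInt) ∈ P := by
      change red 2 = 0
      rw [map_ofNat]; rfl
    rw [h] at this
    exact two_ne_zero this) O

noncomputable def j : O := algebraMap GaussianInt O ⟨0, 1⟩

lemma jj : j * j = -1 := by
  rw [j, ← map_mul, show (⟨0, 1⟩ * ⟨0, 1⟩ : GaussianInt) = -1 by decide, map_neg, map_one]

lemma key (a b : O) : 2 + 2 * j ≠ a ^ 2 + b ^ 2 := fun h => by
  obtain ⟨a', b', ⟨s, hs⟩, h1, h2⟩ := IsLocalization.surj₂ P.primeCompl O a b
  have e : (2 + 2 * ⟨0, 1⟩) * s ^ 2 = a' ^ 2 + b' ^ 2 :=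
    IsLocalization.injective O P.primeCompl_le_nonZeroDivisors (by
      rw [map_mul, map_add, map_add, map_mul, map_ofNat, ← j, h, map_pow, map_pow, map_pow, ← h1, ← h2]
      ring)
  have hs' : ((s.re + s.im : ℤ) : ZMod 2) ≠ 0 := fun h => hs (by
    change red s = 0
    simpa [red] using h)
  rw [Ne, ZMod.intCast_zmod_eq_zero_iff_dvd] at hs'
  obtain ⟨t, ht⟩ : ∃ t, s.re = 2 * t + 1 - s.im := ⟨(s.re + s.im) / 2, by omega⟩
  have e1 := congrArg (fun z : GaussianInt => (z.re : ZMod 4)) e
  have e2 := congrArg (fun z : GaussianInt => (z.im : ZMod 4)) e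
  simp only [sq, Zsqrtd.re_mul, Zsqrtd.im_mul, Zsqrtd.re_add, Zsqrtd.im_add, Zsqrtd.re_ofNat,
    Zsqrtd.im_ofNat, ht] at e1 e2
  push_cast at e1 e2
  revert e1 e2
  generalize (t : ZMod 4) = u, (s.im : ZMod 4) = v, (a'.re : ZMod 4) = x, (a'.im : ZMod 4) = y,
    (b'.re : ZMod 4) = z, (b'.im : ZMod 4) = w
  revert u v x y z w
  decide +kernel

theorem result :
    ¬ (∀ (R : Type) [CommRing R] [IsDomain R] [IsLocalRing R] [IsNoetherianRing R],
      ringKrullDim R = 2 →
      (∃ a b : R, IsLocalRing.maximalIdeal R = Ideal.span {a, b}) →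
      ∀ (K : Type) [Field K] [Algebra R K] [IsFractionRing R K],
      ∀ n : ℕ,
        ((∀ x : R, IsSumSq x → ∃ f : Fin n → R, x = ∑ i, f i ^ 2) ↔
          (∀ x : K, IsSumSq x → ∃ f : Fin n → K, x = ∑ i, f i ^ 2))) := by
  intro H
  obtain ⟨w, hw⟩ := IsDiscreteValuationRing.exists_irreducible O
  have hm : maximalIdeal O⟦X⟧ = Ideal.span {C w, X} := by
    refine le_antisymm (fun f hf => ?_) (Ideal.span_le.2 ?_)
    · have : constantCoeff f ∈ maximalIdeal O := fun h => hf (isUnit_iff_constantCoeff.2 h)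
      rw [hw.maximalIdeal_eq, Ideal.mem_span_singleton'] at this
      obtain ⟨c, hc⟩ := this
      refine Ideal.mem_span_pair.2 ⟨C c, mk fun n => coeff (n + 1) f, ?_⟩
      rw [← map_mul, hc, add_comm, ← eq_shift_mul_X_add_const]
    · rintro _ (rfl | rfl)
      · exact fun h => hw.not_isUnit (by simpa using isUnit_iff_constantCoeff.1 h)
      · exact fun h => by simpa using isUnit_iff_constantCoeff.1 h
  have hd : ringKrullDim O⟦X⟧ = 2 := by
    refine le_antisymm ((ringKrullDim_le_spanFinrank_maximalIdeal _).trans ?_) ?_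
    · rw [hm]
      exact_mod_cast (Submodule.spanFinrank_span_le_ncard_of_finite (Set.toFinite _)).trans
        ((Set.ncard_insert_le _ _).trans (by simp))
    · have := ringKrullDim_succ_le_ringKrullDim_powerseries (R := O)
      rwa [IsDiscreteValuationRing.ringKrullDim_eq_one] at this
  let K := FractionRing O⟦X⟧
  obtain ⟨f, hf⟩ := (H O⟦X⟧ hd ⟨_, _, hm⟩ K 2).2 (fun x _ => by
    have h : (algebraMap O⟦X⟧ K (C j)) ^ 2 = -1 := by
      rw [sq, ← map_mul, ← map_mul, jj]; simp
    refine ⟨![(x + 1) / 2, algebraMap _ K (C j) * (x - 1) / 2], ?_⟩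
    have h2 : (2 : K) ≠ 0 := fun h => by
      rw [← map_ofNat (algebraMap O⟦X⟧ K), IsFractionRing.to_map_eq_zero_iff] at h
      have := congrArg constantCoeff h
      rw [map_ofNat, map_zero, ← map_ofNat (algebraMap GaussianInt O), 
        ← map_zero (algebraMap GaussianInt O)] at this
      exact two_ne_zero (IsLocalization.injective O P.primeCompl_le_nonZeroDivisors this)
    simp only [Fin.sum_univ_two, Matrix.cons_val, div_pow, mul_pow, h]
    linear_combination (-x) * mul_inv_cancel₀ (pow_ne_zero 2 h2)) ((1 + C j) * (1 + C j) + (1 * 1 + (1 * 1 + 0))) (.sq_add _ (.sq_add _ (.sq_add _ .zero)))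
  have := congrArg constantCoeff hf
  simp only [Fin.sum_univ_two, map_add, map_mul, map_pow, map_one, constantCoeff_C, map_zero] at this
  exact key _ _ (by rw [← this]; linear_combination -jj)

end Pool.Agent.S01012
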