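import Pool.Statements.S01016
import Pool.Agent.H.MP_295d35_al.B

set_option autoImplicit false
open Pool Pool.MP_295d35_al

namespace Pool.Agent.S01016

/-- The negation of the preceding statement: For every e there is a bound B such that, for every symmetric numerical semigroup with e minimal generators aᵢ, the kernel of the map from ℚ[x₁..x_e] to ℚ[t] sending xᵢ to t^aᵢ is generated by at most B polynomials. -/
theorem result :
    ¬ (∀ e : ℕ, ∃ B : ℕ, ∀ a : Fin e → ℕ,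
    Finset.univ.gcd a = 1 →
    (∀ i : Fin e, ∀ c : Fin e → ℕ, c i = 0 → ∑ j, c j * a j ≠ a i) →
    (∃ F : ℤ, ∀ z : ℤ,
      ((∃ c : Fin e → ℕ, ((∑ j, c j * a j : ℕ) : ℤ) = z) ↔
        ¬ ∃ c : Fin e → ℕ, ((∑ j, c j * a j : ℕ) : ℤ) = F - z)) →
    ∃ s : Finset (MvPolynomial (Fin e) ℚ), s.card ≤ B ∧
      Ideal.span (s : Set (MvPolynomial (Fin e) ℚ)) =
        RingHom.ker (MvPolynomial.aeval (R := ℚ)
          (fun i : Fin e => (Polynomial.X : Polynomial ℚ) ^ (a i)))) := by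
  intro h
  obtain ⟨B, hB⟩ := h 8
  obtain ⟨a, ha⟩ := Pool.Agent.Bres.good 8 le_rfl B
  obtain ⟨s, hs, hs'⟩ := hB a ha.gcd ha.min ha.sym
  obtain ⟨Z, hZ, hZ'⟩ := ha.disc
  have := Pool.Agent.Bres.card_le_poly a ha.pos Z (fun z hz => (hZ' z hz).disc) s hs'
  omega

end Pool.Agent.S01016
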