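import Pool.Statements.S01019

set_option autoImplicit false
open scoped Pointwise
open Pool Pool.MP_29ab50_al

namespace Pool.Agent.S01019

/-- formal sums of labelled atoms -/
inductive W (S : Type) : Type
  | gen : S → W S
  | zer : S → W S
  | L : W S → S → S → W S
  | R : W S → S → S → W S
  | add : W S → W S → W S

abbrev Gp (S : Type) : Type := W S →₀ AddCircle (1 : ℚ)

lemma tors {S : Type} (g : Gp S) : IsOfFinAddOrder g := by
  induction g using Finsupp.induction_linear with
  | zero => exact IsOfFinAddOrder.zero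
  | add f g hf hg => exact hf.add hg
  | single a b =>
    refine (Finsupp.singleAddHom a).isOfFinAddOrder ?_
    obtain ⟨r, rfl⟩ := QuotientAddGroup.mk_surjective b
    exact AddCircle.isOfFinAddOrder_iff_exists_rat_eq_div.mpr ⟨r, by simp⟩

section
variable {S : Type} [CommSemigroup S] (n : S → ℕ)

noncomputable def ee (i : W S) (q : ℕ) : Gp S :=
  Finsupp.single i (((1 : ℚ) / q : ℚ) : AddCircle (1 : ℚ))

noncomputable def val : W S → Gp S
  | .gen x => ee (.gen x) (n x)
  | .zer _ => 0
  | .L w x y => ee (.L w x y) (n x * n y * addOrderOf (val w))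
  | .R w x y => val w - ee (.L w x y) (n x * n y * addOrderOf (val w))
  | .add a b => val a + val b

def lab : W S → WithOne S
  | .gen x => x
  | .zer x => (x : WithOne S) ^ n x
  | .L _ x _ => x
  | .R _ _ y => y
  | .add a b => lab a * lab b

def ok : W S → Prop
  | .gen _ => True
  | .zer _ => True
  | .L w x y => ok w ∧ lab n w = x * y
  | .R w x y => ok w ∧ lab n w = x * y
  | .add a b => ok a ∧ ok b

def sz : W S → ℕ
  | .gen _ => 1
  | .zer _ => 1
  | .L w _ _ => sz w + 1
  | .R w _ _ => sz w + 1
  | .add a b => sz a + sz b + 1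

omit [CommSemigroup S] in
lemma sz_pos (w : W S) : 0 < sz w := by cases w <;> simp [sz]

omit [CommSemigroup S] in
lemma supp (w j : W S) (h : sz w < sz j) : val n w j = 0 := by
  induction w with
  | gen x => exact Finsupp.single_eq_of_ne (by rintro rfl; omega)
  | zer x => rfl
  | L w x y _ => exact Finsupp.single_eq_of_ne (by rintro rfl; omega)
  | R w x y ih =>
    simp only [sz] at h
    rw [val, Finsupp.sub_apply, ih (by omega), ee,
      Finsupp.single_eq_of_ne (by rintro rfl; simp [sz] at h), sub_zero]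
  | add a b ha hb =>
    simp only [sz] at h
    rw [val, Finsupp.add_apply, ha (by omega), hb (by omega), add_zero]

omit [CommSemigroup S] in
lemma ee_dvd (i : W S) (q a : ℕ) (hq : 0 < q) : a • ee i q i = 0 ↔ q ∣ a := by
  rw [ee, Finsupp.single_eq_same, ← addOrderOf_dvd_iff_nsmul_eq_zero,
    AddCircle.addOrderOf_period_div hq]

omit [CommSemigroup S] in
lemma ee_smul (i : W S) (q a : ℕ) (hq : 0 < q) (h : q ∣ a) : a • ee i q = 0 := by
  have := (ee_dvd i q a hq).mpr h
  rw [ee, Finsupp.single_eq_same] at this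
  rw [ee, Finsupp.smul_single, this, Finsupp.single_zero]

lemma idem_pow (hn : ∀ x : S, IsIdempotentElem ((x : WithOne S) ^ n x)) (x : S) (a : ℕ)
    (h : n x ∣ a) : IsIdempotentElem ((x : WithOne S) ^ a) := by
  obtain ⟨k, rfl⟩ := h
  rw [pow_mul]
  exact (hn x).pow k

lemma key (hn : ∀ x : S, IsIdempotentElem ((x : WithOne S) ^ n x)) (hn2 : ∀ x, 2 ≤ n x) (x0 : S) :
    ∀ (N : ℕ) (M : Multiset (W S)), (M.map sz).sum < N → (∀ w ∈ M, ok n w) →
      ((M.map (val n)).sum = 0 → IsIdempotentElem (M.map (lab n)).prod) ∧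
      ((M.map (val n)).sum = val n (.gen x0) →
        ∃ e, IsIdempotentElem e ∧ (M.map (lab n)).prod = x0 * e) := by
  classical
  intro N
  induction N with
  | zero => intro M h; omega
  | succ N ih =>
    intro M hM hok
    have red : ∀ (M' : Multiset (W S)) (e : WithOne S), IsIdempotentElem e →
        (M'.map sz).sum < (M.map sz).sum → (∀ w ∈ M', ok n w) →
        (M.map (val n)).sum = (M'.map (val n)).sum →
        (M.map (lab n)).prod = e * (M'.map (lab n)).prod →
        ((M.map (val n)).sum = 0 → IsIdempotentElem (M.map (lab n)).prod) ∧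
        ((M.map (val n)).sum = val n (.gen x0) →
          ∃ e, IsIdempotentElem e ∧ (M.map (lab n)).prod = x0 * e) := by
      intro M' e he h1 h2 h3 h4
      obtain ⟨h5, h6⟩ := ih M' (by omega) h2
      rw [h3, h4]
      refine ⟨fun h => he.mul (h5 h), fun h => ?_⟩
      obtain ⟨e', he', h7⟩ := h6 h
      exact ⟨e * e', he.mul he', by rw [h7, mul_left_comm]⟩
    by_cases c1 : ∃ a b, W.add a b ∈ M
    · obtain ⟨a, b, h⟩ := c1
      obtain ⟨M0, rfl⟩ := Multiset.exists_cons_of_mem h
      refine red (a ::ₘ b ::ₘ M0) 1 IsIdempotentElem.one (by simp [sz]; omega) ?_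
        (by simp [val, add_assoc]) (by simp [lab, mul_assoc])
      simp only [Multiset.mem_cons, forall_eq_or_imp, ok] at hok ⊢
      tauto
    by_cases c2 : ∃ w x y, W.L w x y ∈ M ∧ W.R w x y ∈ M
    · obtain ⟨w, x, y, h, h'⟩ := c2
      obtain ⟨M0, rfl⟩ := Multiset.exists_cons_of_mem h
      obtain ⟨M1, rfl⟩ := Multiset.exists_cons_of_mem
        ((Multiset.mem_cons.mp h').resolve_left (by simp))
      simp only [Multiset.mem_cons, forall_eq_or_imp, ok] at hok
      refine red (w ::ₘ M1) 1 IsIdempotentElem.one (by simp [sz]; omega) ?_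
        (by simp [val]; abel) (by simp [lab, mul_assoc, hok.1.2])
      simp only [Multiset.mem_cons, forall_eq_or_imp]
      tauto
    by_cases c3 : ∃ x, W.zer x ∈ M
    · obtain ⟨x, h⟩ := c3
      obtain ⟨M0, rfl⟩ := Multiset.exists_cons_of_mem h
      exact red M0 _ (hn x) (by simp [sz]) (fun w hw => hok w (by simp [hw])) (by simp [val])
        (by simp [lab])
    have e0 : val n (.gen x0) (.gen x0) ≠ 0 := by
      intro h
      have := (ee_dvd (.gen x0) (n x0) 1 (by have := hn2 x0; omega)).mp (by simpa [val] using h)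
      have := Nat.le_of_dvd one_pos this
      have := hn2 x0
      omega
    by_cases c4 : M = 0
    · subst c4
      refine ⟨fun _ => by simpa using IsIdempotentElem.one, fun h => ?_⟩
      rw [← h] at e0
      simp at e0
    obtain ⟨α, hα, hmax⟩ := M.toFinset.exists_max_image sz (by simpa using c4)
    simp only [Multiset.mem_toFinset] at hα hmax
    obtain ⟨i, q, hq, hi, h1, h2, h3, h4⟩ : ∃ (i : W S) (q : ℕ), 0 < q ∧
        (i = W.gen x0 → α = W.gen x0) ∧
        (∀ a : ℕ, a • val n α i = 0 → q ∣ a) ∧ (∀ a : ℕ, q ∣ a → a • val n α = 0) ∧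
        (∀ a : ℕ, q ∣ a → IsIdempotentElem (lab n α ^ a)) ∧
        ∀ β ∈ M, β ≠ α → val n β i = 0 := by
      have oth : ∀ i : W S, sz i = sz α → (∀ x, W.gen x ∈ M → i = W.gen x → W.gen x = α) →
          (∀ w x y, W.L w x y ∈ M → i = W.L w x y → W.L w x y = α) →
          (∀ w x y, W.R w x y ∈ M → i = W.L w x y → W.R w x y = α) →
          ∀ β ∈ M, β ≠ α → val n β i = 0 := by
        intro i hi g1 g2 g3 β hβ hne
        have hs := hmax β hβ
        cases β with
        | gen x => exact Finsupp.single_eq_of_ne fun h => hne (g1 x hβ h)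
        | zer x => rfl
        | L w x y => exact Finsupp.single_eq_of_ne fun h => hne (g2 w x y hβ h)
        | R w x y =>
          simp only [sz] at hs
          rw [val, Finsupp.sub_apply, supp n w i (by omega), ee,
            Finsupp.single_eq_of_ne fun h => hne (g3 w x y hβ h), sub_zero]
        | add a b => exact absurd ⟨a, b, hβ⟩ c1
      cases α with
      | gen x =>
        have hq : 0 < n x := by have := hn2 x; omega
        exact ⟨.gen x, n x, hq, id, fun a h => (ee_dvd _ _ _ hq).mp h, fun a h => ee_smul _ _ _ hq h,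
          fun a h => idem_pow n hn x a h,
          oth _ rfl (fun _ _ h => h.symm) (fun _ _ _ _ h => by cases h) (fun _ _ _ _ h => by cases h)⟩
      | zer x => exact absurd ⟨x, hα⟩ c3
      | L w x y =>
        have hq : 0 < n x * n y * addOrderOf (val n w) := by
          have := hn2 x; have := hn2 y; have := (tors (val n w)).addOrderOf_pos; positivity
        refine ⟨.L w x y, _, hq, (fun h => by cases h), fun a h => (ee_dvd _ _ _ hq).mp h,
          fun a h => ee_smul _ _ _ hq h,
          fun a h => idem_pow n hn x a (((dvd_mul_right _ _).mul_right _).trans h),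
          oth _ rfl (fun _ _ h => by cases h) (fun _ _ _ _ h => h.symm) (fun _ _ _ h1 h => ?_)⟩
        cases h
        exact absurd ⟨_, _, _, hα, h1⟩ c2
      | R w x y =>
        have hq : 0 < n x * n y * addOrderOf (val n w) := by
          have := hn2 x; have := hn2 y; have := (tors (val n w)).addOrderOf_pos; positivity
        refine ⟨.L w x y, _, hq, (fun h => by cases h), fun a h => (ee_dvd (.L w x y) _ _ hq).mp ?_,
          fun a h => ?_,
          fun a h => idem_pow n hn y a (((dvd_mul_left _ _).mul_right _).trans h),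
          oth _ rfl (fun _ _ h => by cases h) (fun _ _ _ h1 h => ?_) (fun _ _ _ h1 h => ?_)⟩
        · rwa [val, Finsupp.sub_apply, supp n w _ (by simp [sz]), zero_sub, smul_neg,
            neg_eq_zero] at h
        · rw [val, smul_sub, ee_smul _ _ _ hq h, sub_zero]
          exact addOrderOf_dvd_iff_nsmul_eq_zero.mp ((dvd_mul_left _ _).trans h)
        · cases h
          exact absurd ⟨_, _, _, h1, hα⟩ c2
        · cases h; rfl
      | add a b => exact absurd ⟨a, b, hα⟩ c1
    obtain ⟨a, M0, ha, hM0, hne⟩ : ∃ (a : ℕ) (M0 : Multiset (W S)), 0 < a ∧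
        M = Multiset.replicate a α + M0 ∧ ∀ β ∈ M0, β ≠ α :=
      ⟨M.count α, M.filter (fun β => ¬ β = α), Multiset.count_pos.mpr hα,
        by rw [← Multiset.filter_eq', Multiset.filter_add_not],
        fun β hβ => (Multiset.mem_filter.mp hβ).2⟩
    have hsub : ∀ β ∈ M0, β ∈ M := fun β hβ => by rw [hM0]; simp [hβ]
    have hv : (M.map (val n)).sum = a • val n α + (M0.map (val n)).sum := by
      rw [hM0]; simp
    have hv0 : (M0.map (val n)).sum i = 0 := by
      have := map_multiset_sum (Finsupp.applyAddHom (M := AddCircle (1 : ℚ)) i) (M0.map (val n))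
      rw [Finsupp.applyAddHom_apply] at this
      rw [this]
      refine Multiset.sum_eq_zero fun z hz => ?_
      simp only [Multiset.map_map, Multiset.mem_map] at hz
      obtain ⟨β, hβ, rfl⟩ := hz
      exact h4 β (hsub β hβ) (hne β hβ)
    by_cases c5 : (M.map (val n)).sum i = 0
    · have h5 : q ∣ a := h1 a (by
        rwa [hv, Finsupp.add_apply, hv0, add_zero, Finsupp.smul_apply] at c5)
      refine red M0 _ (h3 a h5) ?_ (fun w hw => hok w (hsub w hw)) (by rw [hv, h2 a h5, zero_add])
        (by rw [hM0]; simp)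
      conv_rhs => rw [hM0]
      have := Nat.mul_pos ha (sz_pos α)
      simp only [Multiset.map_add, Multiset.sum_add, Multiset.map_replicate,
        Multiset.sum_replicate, smul_eq_mul]
      omega
    · refine ⟨fun h => absurd (by rw [h]; rfl) c5, fun h => ?_⟩
      have h5 : α = W.gen x0 := hi (by
        by_contra h6
        exact c5 (by rw [h]; exact Finsupp.single_eq_of_ne h6))
      subst h5
      obtain ⟨M1, rfl⟩ := Multiset.exists_cons_of_mem hα
      refine ⟨_, (ih M1 (by simp [sz] at hM; omega) (fun w hw => hok w (by simp [hw]))).1 ?_,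
        by simp [lab]⟩
      simpa using h

end

lemma ex_n {S : Type} [CommSemigroup S] (x : S)
    (h : (Subsemigroup.closure ({x} : Set S) : Set S).Finite) :
    ∃ n, 2 ≤ n ∧ IsIdempotentElem ((x : WithOne S) ^ n) := by
  have h1 : ∀ k : ℕ, (x : WithOne S) ^ (k + 1) ∈
      ((↑) : S → WithOne S) '' (Subsemigroup.closure ({x} : Set S) : Set S) := by
    intro k
    induction k with
    | zero => exact ⟨x, Subsemigroup.subset_closure rfl, by simp⟩
    | succ k ih =>
      obtain ⟨y, hy, h2⟩ := ih
      exact ⟨y * x, Subsemigroup.mul_mem _ hy (Subsemigroup.subset_closure rfl),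
        by rw [pow_succ, ← h2]; rfl⟩
  obtain ⟨i, j, hij, h2⟩ := (h.image _).exists_lt_map_eq_of_forall_mem h1
  obtain ⟨d, rfl⟩ := Nat.exists_eq_add_of_lt hij
  have h3 : ∀ k m : ℕ, (x : WithOne S) ^ (i + 1 + m + k * (d + 1)) = (x : WithOne S) ^ (i + 1 + m) := by
    intro k m
    induction k with
    | zero => simp
    | succ k ih =>
      rw [show i + 1 + m + (k + 1) * (d + 1) = (i + d + 1 + 1) + (m + k * (d + 1)) by ring, pow_add,
        ← h2, ← pow_add, ← add_assoc, ih]
  refine ⟨(i + 2) * (d + 1), by nlinarith, ?_⟩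
  have h4 := h3 (i + 2) (1 + (i + 2) * d)
  rw [IsIdempotentElem, ← pow_add]
  convert h4 using 2 <;> ring

/-- Every commutative semigroup in which each element generates a finite subsemigroup embeds, via an injective homomorphism, into the semigroup of nonempty subsets (pointwise product) of some abelian group in which every element has finite order. -/
theorem result :
    ∀ (S : Type) [CommSemigroup S],
      (∀ x : S, (Subsemigroup.closure ({x} : Set S) : Set S).Finite) →
      ∃ (G : Type) (_ : CommGroup G), Monoid.IsTorsion G ∧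
        ∃ f : S →ₙ* Set G, Function.Injective f ∧ ∀ s : S, (f s).Nonempty := by
  intro S _ hS
  choose n hn2 hn using fun x => ex_n x (hS x)
  refine ⟨Multiplicative (Gp S), inferInstance, fun g => tors g.toAdd,
    ⟨fun z => {g | ∃ w, ok n w ∧ lab n w = z ∧ val n w = g.toAdd}, fun x y => ?_⟩, ?_,
    fun x => ⟨Multiplicative.ofAdd _, .gen x, trivial, rfl, rfl⟩⟩
  · ext g
    constructor
    · rintro ⟨w, h1, h2, h3⟩
      refine ⟨Multiplicative.ofAdd (val n (.L w x y)), ⟨.L w x y, ⟨h1, h2⟩, rfl, rfl⟩,
        Multiplicative.ofAdd (val n (.R w x y)), ⟨.R w x y, ⟨h1, h2⟩, rfl, rfl⟩, ?_⟩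
      apply Multiplicative.toAdd.injective
      simp only [toAdd_mul, toAdd_ofAdd, val]
      rw [← h3]; abel
    · rintro ⟨a, ⟨u, h1, h2, h3⟩, b, ⟨v, h4, h5, h6⟩, rfl⟩
      exact ⟨.add u v, ⟨h1, h4⟩, by simp [lab, h2, h5], by simp [val, h3, h6]⟩
  · have hk : ∀ x y : S, (∃ w, ok n w ∧ lab n w = y ∧ val n w = val n (.gen x)) →
        ∃ e : WithOne S, IsIdempotentElem e ∧ (y : WithOne S) = x * e := by
      rintro x y ⟨w, h1, h2, h3⟩
      simpa [h2] using (key n hn hn2 x _ {w} (Nat.lt_succ_self _) (by simpa using h1)).2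
        (by simpa using h3)
    intro x y h
    have h1 := Set.ext_iff.mp h
    obtain ⟨e, he, h2⟩ := hk x y ((h1 (Multiplicative.ofAdd _)).mp ⟨.gen x, trivial, rfl, rfl⟩)
    obtain ⟨e', he', h3⟩ := hk y x ((h1 (Multiplicative.ofAdd _)).mpr ⟨.gen y, trivial, rfl, rfl⟩)
    apply WithOne.coe_injective
    have h4 : (x : WithOne S) * e = x := by
      have h5 : (x : WithOne S) = x * e * e' := by rw [← h2]; exact h3
      calc (x : WithOne S) * e = x * e * e' * e := by rw [← h5]
        _ = x * (e * e) * e' := by ac_rfl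
        _ = x := by rw [he.eq, ← h5]
    rw [h2, h4]

end Pool.Agent.S01019
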