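import Pool.Statements.S01022
import Pool.Agent.H.MP_29dbc1_al.Main

set_option autoImplicit false
open Pool Pool.MP_29dbc1_al

namespace Pool.Agent.S01022

theorem result :
    ¬ (∀ (G : Type) [Group G] [Finite G]
      (φ : MonoidAlgebra ℤ G →ₗ[ℤ] MonoidAlgebra ℤ G),
      (∀ g : G, φ (MonoidAlgebra.of ℤ G g) = MonoidAlgebra.of ℤ G g⁻¹) →
      ∀ (u : (MonoidAlgebra ℤ G)ˣ),
      (∀ x : MonoidAlgebra ℤ G, x * (u : MonoidAlgebra ℤ G) = (u : MonoidAlgebra ℤ G) * x) →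
      ∃ g ∈ Subgroup.center G, ∃ v : (MonoidAlgebra ℤ G)ˣ,
        (∀ x : MonoidAlgebra ℤ G, x * (v : MonoidAlgebra ℤ G) = (v : MonoidAlgebra ℤ G) * x) ∧
        φ (v : MonoidAlgebra ℤ G) = (v : MonoidAlgebra ℤ G) ∧
        (u : MonoidAlgebra ℤ G) = MonoidAlgebra.of ℤ G g * (v : MonoidAlgebra ℤ G)) := by
  exact Pool.Agent.H.MP_29dbc1_al.main

end Pool.Agent.S01022
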