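import Pool.Statements.S01061

set_option autoImplicit false
open Pool Pool.MP_2d5453_al

namespace Pool.Agent.S01061

abbrev A := ℕ → ZMod 4

@[ext] structure D where
  e : ℤˣ
  a : A

instance : Mul D := ⟨fun x y => ⟨x.e * y.e, (y.e : ℤ) • x.a + y.a⟩⟩
instance : One D := ⟨⟨1, 0⟩⟩
instance : Inv D := ⟨fun x => ⟨x.e, -((x.e : ℤ) • x.a)⟩⟩

@[simp] lemma D.mul_e (x y : D) : (x * y).e = x.e * y.e := rfl
@[simp] lemma D.mul_a (x y : D) : (x * y).a = (y.e : ℤ) • x.a + y.a := rfl
@[simp] lemma D.one_e : (1 : D).e = 1 := rfl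
@[simp] lemma D.one_a : (1 : D).a = 0 := rfl
@[simp] lemma D.inv_e (x : D) : (x⁻¹).e = x.e := rfl
@[simp] lemma D.inv_a (x : D) : (x⁻¹).a = -((x.e : ℤ) • x.a) := rfl

instance : Group D := Group.ofLeftAxioms
  (fun x y z => by
    ext1
    · simp [mul_assoc]
    · simp only [D.mul_a, D.mul_e, Units.val_mul, smul_add, smul_smul, add_assoc]
      rw [mul_comm])
  (fun x => by ext1 <;> simp)
  (fun x => by
    rcases Int.units_eq_one_or x.e with h | h <;> ext1 <;> simp [h])

lemma four (a : A) : a + a + a + a = 0 := by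
  funext i
  have : ∀ t : ZMod 4, t + t + t + t = 0 := by decide
  simpa using this (a i)

lemma D.sq_neg (h : D) (he : h.e = -1) : h * h = 1 := by
  ext1 <;> simp [he]

lemma D.pow_four (h : D) : h * h * (h * h) = 1 := by
  rcases Int.units_eq_one_or h.e with he | he
  · ext1
    · simp [he]
    · simp only [D.mul_a, D.mul_e, he, D.one_a]
      simpa [add_assoc] using four h.a
  · rw [D.sq_neg h he, one_mul]

lemma D.comm_cases (g h : D) (he : h.e = 1) :
    g⁻¹ * h⁻¹ * g * h = 1 ∨ g⁻¹ * h⁻¹ * g * h = h * h := by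
  rcases Int.units_eq_one_or g.e with hg | hg
  · left; ext1 <;> simp [he, hg]
  · right; ext1 <;> simp [he, hg]

lemma D.comm_commute (g h : D) :
    (g⁻¹ * h⁻¹ * g * h) * h = h * (g⁻¹ * h⁻¹ * g * h) := by
  rcases Int.units_eq_one_or h.e with he | he
  · rcases D.comm_cases g h he with h1 | h1 <;> rw [h1]
    · simp
    · simp [mul_assoc]
  · rcases Int.units_eq_one_or g.e with hg | hg
    · ext1
      · simp [he, hg]
      · simp only [D.mul_a, D.mul_e, D.inv_a, D.inv_e, he, hg]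
        have := four g.a
        simp
        linear_combination (exp := 1) this
    · ext1
      · simp [he, hg]
      · simp only [D.mul_a, D.mul_e, D.inv_a, D.inv_e, he, hg]
        have := four (g.a - h.a)
        simp
        linear_combination (exp := 1) this

abbrev R := MonoidAlgebra (ZMod 2) D

noncomputable abbrev ι : D →* R := MonoidAlgebra.of (ZMod 2) D

lemma two (r : R) : r + r = 0 := by
  have : (2 : ZMod 2) = 0 := rfl
  rw [← two_smul (ZMod 2) r, this, zero_smul]

@[ext] structure M where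
  g : D
  r : R

noncomputable instance : Mul M := ⟨fun x y => ⟨x.g * y.g, x.r * ι y.g + y.r⟩⟩
noncomputable instance : One M := ⟨⟨1, 0⟩⟩
noncomputable instance : Inv M := ⟨fun x => ⟨x.g⁻¹, -(x.r * ι x.g⁻¹)⟩⟩

@[simp] lemma M.mul_g (x y : M) : (x * y).g = x.g * y.g := rfl
@[simp] lemma M.mul_r (x y : M) : (x * y).r = x.r * ι y.g + y.r := rfl
@[simp] lemma M.one_g : (1 : M).g = 1 := rfl
@[simp] lemma M.one_r : (1 : M).r = 0 := rfl
@[simp] lemma M.inv_g (x : M) : (x⁻¹).g = x.g⁻¹ := rfl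
@[simp] lemma M.inv_r (x : M) : (x⁻¹).r = -(x.r * ι x.g⁻¹) := rfl

noncomputable instance : Group M := Group.ofLeftAxioms
  (fun x y z => by
    ext1
    · simp only [M.mul_g, mul_assoc]
    · simp only [M.mul_r, M.mul_g, map_mul, add_mul, mul_assoc, add_assoc])
  (fun x => by
    ext1
    · simp only [M.mul_g, M.one_g, one_mul]
    · simp only [M.mul_r, M.one_r, zero_mul, zero_add])
  (fun x => by
    ext1
    · simp only [M.mul_g, M.inv_g, M.one_g, inv_mul_cancel]
    · simp only [M.mul_r, M.inv_r, M.one_r, neg_mul, mul_assoc, ← map_mul, inv_mul_cancel,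
        map_one, mul_one, neg_add_cancel])

lemma cm_eq (z y : M) (hc : z.g * y.g = y.g * z.g) :
    z⁻¹ * y⁻¹ * z * y = ⟨1, z.r * (ι y.g - 1) + y.r * (1 - ι z.g)⟩ := by
  have : z * y = y * z * ⟨1, z.r * (ι y.g - 1) + y.r * (1 - ι z.g)⟩ := by
    ext1
    · simp only [M.mul_g, hc, mul_one]
    · simp only [M.mul_r, map_one, mul_one, mul_sub]
      abel
  calc z⁻¹ * y⁻¹ * z * y = z⁻¹ * y⁻¹ * (z * y) := by group
    _ = _ := by rw [this]; group

lemma cm_base (t : R) (y : M) :
    (⟨1, t⟩ : M)⁻¹ * y⁻¹ * ⟨1, t⟩ * y = ⟨1, t * (ι y.g - 1)⟩ := by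
  rw [cm_eq _ _ (by simp)]
  simp only [map_one, sub_self, mul_zero, add_zero]

lemma sq_sub (u : R) : (u - 1) * (u - 1) = u * u - 1 := by
  have h1 := two u
  have h2 := two (1 : R)
  have : (u - 1) * (u - 1) = u * u - 1 - (u + u) + (1 + 1) := by noncomm_ring
  rw [this, h1, h2]; simp

lemma pow4 (h : D) : (ι h - 1) * (ι h - 1) * ((ι h - 1) * (ι h - 1)) = 0 := by
  rw [sq_sub, sq_sub, ← map_mul, ← map_mul, D.pow_four, map_one, sub_self]

lemma engel (x y : M) : (fun z : M => z⁻¹ * y⁻¹ * z * y)^[5] x = 1 := by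
  simp only [Function.iterate_succ, Function.iterate_zero, Function.comp, id]
  have hg : (x⁻¹ * y⁻¹ * x * y).g = x.g⁻¹ * y.g⁻¹ * x.g * y.g := rfl
  generalize x⁻¹ * y⁻¹ * x * y = z at hg
  rw [cm_eq z y (by rw [hg]; exact D.comm_commute _ _), cm_base, cm_base, cm_base]
  have h4 := pow4 y.g
  have h3 : (1 - ι z.g) * ((ι y.g - 1) * (ι y.g - 1) * (ι y.g - 1)) = 0 := by
    rcases Int.units_eq_one_or y.g.e with he | he
    · rcases D.comm_cases x.g y.g he with h1 | h1 <;> rw [hg, h1]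
      · rw [map_one, sub_self, zero_mul]
      · have : (1 - ι (y.g * y.g)) = -((ι y.g - 1) * (ι y.g - 1)) := by
          rw [sq_sub, map_mul]; abel
        rw [this, neg_mul, ← mul_assoc, h4, zero_mul, neg_zero]
    · rw [sq_sub, ← map_mul, D.sq_neg _ he, map_one, sub_self, zero_mul, mul_zero]
  ext1
  · rfl
  · show _ = (0 : R)
    calc _ = z.r * ((ι y.g - 1) * (ι y.g - 1) * ((ι y.g - 1) * (ι y.g - 1))) +
          y.r * ((1 - ι z.g) * ((ι y.g - 1) * (ι y.g - 1) * (ι y.g - 1))) := by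
          simp only [add_mul, mul_assoc]
      _ = 0 := by rw [h4, h3]; simp

lemma pgroup : IsPGroup 2 M := by
  intro m
  refine ⟨3, ?_⟩
  have h : m ^ 2 ^ 3 = (m * m * (m * m)) * (m * m * (m * m)) := by
    norm_num [pow_succ, mul_assoc]
  have hg : (m * m * (m * m)).g = 1 := D.pow_four m.g
  rw [h]
  generalize m * m * (m * m) = z at hg
  ext1
  · simp [hg]
  · simp only [M.mul_r, hg, map_one, mul_one, M.one_r, two]

def K1 : Subgroup M where
  carrier := {m | m.g.e = 1}
  mul_mem' := by intro a b ha hb; simp_all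
  one_mem' := rfl
  inv_mem' := by intro a ha; simp_all

def K2 : Subgroup M where
  carrier := {m | m.g = 1}
  mul_mem' := by intro a b ha hb; simp_all
  one_mem' := rfl
  inv_mem' := by intro a ha; simp_all

open scoped commutatorElement

lemma solv : IsSolvable M := by
  refine ⟨⟨3, ?_⟩⟩
  have h1 : derivedSeries M 1 ≤ K1 := by
    rw [derivedSeries_succ, Subgroup.commutator_le]
    intro a _ b _
    show (a * b * a⁻¹ * b⁻¹).g.e = 1
    rcases Int.units_eq_one_or a.g.e with ha | ha <;>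
      rcases Int.units_eq_one_or b.g.e with hb | hb <;> simp [ha, hb]
  have h2 : derivedSeries M 2 ≤ K2 := by
    rw [derivedSeries_succ, Subgroup.commutator_le]
    intro a ha b hb
    have ha : a.g.e = 1 := h1 ha
    have hb : b.g.e = 1 := h1 hb
    show (a * b * a⁻¹ * b⁻¹).g = 1
    ext1 <;> simp [ha, hb]
  rw [derivedSeries_succ, eq_bot_iff, Subgroup.commutator_le]
  intro a ha b hb
  have ha : a.g = 1 := h2 ha
  have hb : b.g = 1 := h2 hb
  rw [Subgroup.mem_bot, commutatorElement_eq_one_iff_mul_comm]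
  ext1
  · simp [ha, hb]
  · simp only [M.mul_r, ha, hb, map_one, mul_one, add_comm]

def xD : D := ⟨-1, 0⟩
def yD (i : ℕ) : D := ⟨1, Pi.single i 1⟩
def cD (i : ℕ) : D := ⟨1, Pi.single i 2⟩

noncomputable def P : ℕ → R
  | 0 => ι xD - 1
  | k + 1 => P k * (ι (cD k) - 1)

lemma P_spec (k : ℕ) : (P k).coeff 1 ≠ 0 ∧
    ∀ g : D, (P k).coeff g ≠ 0 → ∀ j, k ≤ j → g.a j = 0 := by
  have hx : xD ≠ 1 := fun h => by
    have := congrArg D.e h
    simp [xD] at this
  induction k with
  | zero =>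
    constructor
    · simp [P, MonoidAlgebra.one_def, hx]
    · intro g hg j _
      by_cases h1 : g = xD
      · rw [h1]; rfl
      by_cases h2 : g = 1
      · rw [h2]; rfl
      exfalso
      apply hg
      simp [P, MonoidAlgebra.one_def, Finsupp.single_apply, Ne.symm h1, Ne.symm h2]
  | succ k ih =>
    have hc : ∀ g : D, (P (k + 1)).coeff g = (P k).coeff (g * (cD k)⁻¹) - (P k).coeff g := by
      intro g
      simp [P, mul_sub]
    constructor
    · rw [hc]
      have : (P k).coeff (1 * (cD k)⁻¹) = 0 := by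
        by_contra h
        have := ih.2 _ h k le_rfl
        simp [cD] at this
        exact absurd this (by decide)
      rw [this]
      simpa using ih.1
    · intro g hg j hj
      rw [hc] at hg
      by_cases h1 : (P k).coeff g = 0
      · rw [h1, sub_zero] at hg
        have := ih.2 _ hg j (by omega)
        have hne : j ≠ k := by omega
        simpa [cD, hne] using this
      · exact ih.2 g h1 j (by omega)

lemma cm_mem {N K : Subgroup M} {a b : M} (ha : a ∈ K) (hb : b ∈ N) :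
    a⁻¹ * b⁻¹ * a * b ∈ ⁅K, N⁆ := by
  have := Subgroup.commutator_mem_commutator (K.inv_mem ha) (N.inv_mem hb)
  simpa [commutatorElement_def] using this

lemma notfit : ¬ (∀ g : M, ∃ N : Subgroup M, N.Normal ∧ Group.IsNilpotent N ∧ g ∈ N) := by
  intro h
  obtain ⟨N, hN, hn, hx⟩ := h ⟨xD, 0⟩
  obtain ⟨n, hn⟩ := (Subgroup.isNilpotent_iff_lowerCentralSeries N).1 hn
  have conj : ∀ a : M, a⁻¹ * (⟨xD, 0⟩ : M)⁻¹ * a * ⟨xD, 0⟩ ∈ N := fun a =>
    N.mul_mem (by simpa using hN.conj_mem _ (N.inv_mem hx) a⁻¹) hx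
  have hc : ∀ i, (⟨cD i, 0⟩ : M) ∈ N := fun i => by
    have := conj ⟨yD i, 0⟩
    have e : (⟨yD i, 0⟩ : M)⁻¹ * (⟨xD, 0⟩ : M)⁻¹ * ⟨yD i, 0⟩ * ⟨xD, 0⟩ = ⟨cD i, 0⟩ := by
      ext1
      · ext1
        · simp [xD, yD, cD]
        · funext j
          by_cases hj : j = i
          · subst hj; simp [xD, yD, cD]; exact (by decide : (-1 + -1 : ZMod 4) = 2)
          · simp [xD, yD, cD, hj]
      · simp
    rwa [e] at this
  have key : ∀ k, (⟨1, P k⟩ : M) ∈ N.lowerCentralSeries k := fun k => by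
    induction k with
    | zero =>
      have := conj ⟨1, 1⟩
      rw [cm_base, one_mul] at this
      exact this
    | succ k ih =>
      have := cm_mem ih (hc k)
      rw [cm_base] at this
      exact this
  have := key n
  rw [hn, Subgroup.mem_bot] at this
  have h0 : P n = 0 := congrArg M.r this
  exact (P_spec n).1 (by rw [h0]; rfl)

theorem result :
    ∃ (G : Type) (_ : Group G),
      IsSolvable G ∧
      IsPGroup 2 G ∧
      (∀ x y : G, (fun z : G => z⁻¹ * y⁻¹ * z * y)^[5] x = 1) ∧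
      ¬ (∀ g : G, ∃ N : Subgroup G, N.Normal ∧ Group.IsNilpotent N ∧ g ∈ N) :=
  ⟨M, inferInstance, solv, pgroup, engel, notfit⟩

end Pool.Agent.S01061
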