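import Pool.Statements.S01079
import Pool.Agent.H.MP_2f4300_al.Grp

set_option autoImplicit false
open Pool Pool.MP_2f4300_al

namespace Pool.Agent.S01079

open Pool.Agent.H.MP_2f4300_al

def L (i : ℕ) : AddSubgroup ℚ := AddSubgroup.zmultiples (1 / 2 ^ i : ℚ)

theorem L_mono : StrictMono L := by
  apply strictMono_nat_of_lt_succ
  intro i
  refine lt_of_le_not_ge ?_ ?_
  · rw [L, AddSubgroup.zmultiples_le]
    refine ⟨2, ?_⟩
    simp only [zsmul_eq_mul]
    field_simp
    push_cast
    ring
  · intro h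
    obtain ⟨z, hz⟩ := h (AddSubgroup.mem_zmultiples _)
    simp only [zsmul_eq_mul] at hz
    field_simp at hz
    have : (z : ℚ) * 2 = 1 := by
      have h2 : (2 : ℚ) ^ i ≠ 0 := by positivity
      apply mul_left_cancel₀ h2
      linear_combination hz
    have : z * 2 = 1 := by exact_mod_cast this
    omega

theorem KL_mono : StrictMono (fun i => tau (KK (L i))) := by
  intro i j h
  have := L_mono h
  rw [lt_iff_le_not_ge] at this ⊢
  simp only [tau_le_iff, KK_le_iff]
  exact this

theorem result :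
    ∃ (G : Type) (_ : Group G), Countable G ∧ Infinite G ∧
      (∃ t : GroupTopology G, @T2Space G t.toTopologicalSpace ∧ t.toTopologicalSpace ≠ ⊥) ∧
      ∃ (k : ℕ) (τ : Fin (k + 1) → GroupTopology G),
        (∀ i : Fin k, τ i.castSucc ⋖ τ i.succ) ∧
        (∀ i : Fin (k + 1), @T2Space G (τ i).toTopologicalSpace) ∧
        ∃ S : Set (GroupTopology G), S.Infinite ∧ IsChain (· ≤ ·) S ∧
          ∀ s ∈ S, τ 0 < s ∧ s < τ (Fin.last k) := by
  refine ⟨FS GA, inferInstance, FS_countable, ?_, ⟨tau H3, tau_t2 _, ?_⟩, 3,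
    ![tau (KK ⊥), tau H1, tau H2, tau H3], ?_, ?_, Set.range (fun i => tau (KK (L i))),
    Set.infinite_range_of_injective KL_mono.injective, ?_, ?_⟩
  · refine Infinite.of_injective (fun n : ℕ => sg 0 (E n 0 0)) ?_
    intro m n h
    have := congrArg (fun x : FS GA => (x.1 0).p) h
    simp only [sg_same, E] at this
    exact_mod_cast this
  · intro h
    have : tau H3 ≤ tau H2 := by
      rw [← GroupTopology.toTopologicalSpace_le, h]
      exact bot_le
    exact lt23.not_ge ((tau_le_iff _ _).1 this)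
  · intro i
    fin_cases i
    · exact tau_cov _ _ lt01 3 sm01
    · exact tau_cov _ _ lt12 3 sm12
    · exact tau_cov _ _ lt23 25 sm23
  · intro i
    fin_cases i <;> exact tau_t2 _
  · exact KL_mono.monotone.isChain_range
  · rintro _ ⟨i, rfl⟩
    refine ⟨(tau_lt_iff _ _).2 ?_, (tau_lt_iff _ _).2 (KK_lt _)⟩
    rw [lt_iff_le_not_ge, KK_le_iff, KK_le_iff]
    refine ⟨bot_le, fun h => ?_⟩
    have := h (AddSubgroup.mem_zmultiples _)
    rw [AddSubgroup.mem_bot] at this
    simp at this

end Pool.Agent.S01079
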