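import Pool.Statements.S01084
import Pool.Agent.H.MP_2fcc64_al.Dec

set_option autoImplicit false
universe u
open Pool Pool.MP_2fcc64_al

namespace Pool.Agent.S01084

open Pool.Agent.H.MP_2fcc64_al Polynomial LieSubalgebra

theorem result :
    ¬ (∀ (k : Type u) [Field k] (L : Type u) [LieRing L] [LieAlgebra k L]
    (I : Type u) (A : I → LieSubalgebra k L) (I' : Type u) (A' : I' → LieSubalgebra k L),
    ((∀ i, A i ≠ ⊥) ∧ ∃ h : ∀ i, A i ≤ (⊤ : LieSubalgebra k L),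
      ∀ (M : Type u) [LieRing M] [LieAlgebra k M] (f : ∀ i, ↥(A i) →ₗ⁅k⁆ M),
        ∃! g : ↥(⊤ : LieSubalgebra k L) →ₗ⁅k⁆ M,
          ∀ i, g.comp (LieSubalgebra.inclusion (h i)) = f i) →
    ((∀ i, A' i ≠ ⊥) ∧ ∃ h : ∀ i, A' i ≤ (⊤ : LieSubalgebra k L),
      ∀ (M : Type u) [LieRing M] [LieAlgebra k M] (f : ∀ i, ↥(A' i) →ₗ⁅k⁆ M),
        ∃! g : ↥(⊤ : LieSubalgebra k L) →ₗ⁅k⁆ M,
          ∀ i, g.comp (LieSubalgebra.inclusion (h i)) = f i) →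
    ∃ (J : Type u) (B : J → LieSubalgebra k L) (p : J → I)
      (J' : Type u) (B' : J' → LieSubalgebra k L) (p' : J' → I'),
      (∀ i : I, (∀ j : {j : J // p j = i}, B j.1 ≠ ⊥) ∧
        ∃ h : ∀ j : {j : J // p j = i}, B j.1 ≤ A i,
          ∀ (M : Type u) [LieRing M] [LieAlgebra k M]
            (f : ∀ j : {j : J // p j = i}, ↥(B j.1) →ₗ⁅k⁆ M),
            ∃! g : ↥(A i) →ₗ⁅k⁆ M,
              ∀ j, g.comp (LieSubalgebra.inclusion (h j)) = f j) ∧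
      (∀ i : I', (∀ j : {j : J' // p' j = i}, B' j.1 ≠ ⊥) ∧
        ∃ h : ∀ j : {j : J' // p' j = i}, B' j.1 ≤ A' i,
          ∀ (M : Type u) [LieRing M] [LieAlgebra k M]
            (f : ∀ j : {j : J' // p' j = i}, ↥(B' j.1) →ₗ⁅k⁆ M),
            ∃! g : ↥(A' i) →ₗ⁅k⁆ M,
              ∀ j, g.comp (LieSubalgebra.inclusion (h j)) = f j) ∧
      ∃ σ : J ≃ J', ∀ j : J, Nonempty (↥(B j) ≃ₗ⁅k⁆ ↥(B' (σ j)))) := by
  intro H
  obtain ⟨L, _, _, x, y, s, t, hr, htop, hL⟩ := exL (ULift.{u} ℚ)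
  set k := ULift.{u} ℚ
  obtain ⟨w, hw⟩ : ∃ w, w = ⁅y, s⁆ + s - (⁅x, t⁆ - t) := ⟨_, rfl⟩
  obtain ⟨u, hu⟩ : ∃ u, u = s - ⁅x, w⁆ := ⟨_, rfl⟩
  obtain ⟨v, hv⟩ : ∃ v, v = t - (⁅y, w⁆ + w) := ⟨_, rfl⟩
  obtain ⟨φ, px, py, ps, pt⟩ := hL (N k) (mk 1 0 0) (mk 0 1 0) (mk 0 0 1) 0 (by
    simp [mk_lie, mk_neg, D, oY])
  obtain ⟨φ', -, -, -, pt'⟩ := hL (N k) 0 0 0 (mk 1 0 0) (by simp)
  have pw : φ w = mk 0 0 (X + 1) := by simp [hw, px, py, ps, pt, mk_lie, mk_add, D, oY]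
  have pu : φ u = mk 0 0 (1 - C X * (X + 1)) := by simp [hu, px, ps, pw, mk_lie, mk_sub, D, oY]
  have pv : φ (-v) = mk 0 0 ((X + 1) ^ 2) := by
    simp [hv, py, pt, pw, mk_lie, mk_add, D, oY, mk_inj]; ring
  have nz : ∀ (ψ : L →ₗ⁅k⁆ N k) a b f z, ψ z = mk a b f → ¬ (a = 0 ∧ b = 0 ∧ f = 0) → z ≠ 0 := by
    rintro ψ a b f _ h h' rfl
    rw [map_zero, mk_zero, eq_comm, mk_inj] at h
    exact h' h
  have x0 : x ≠ 0 := nz φ _ _ _ _ px (by simp)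
  have s0 : s ≠ 0 := nz φ _ _ _ _ ps (by simp)
  have t0 : t ≠ 0 := nz φ' _ _ _ _ pt' (by simp)
  have w0 : w ≠ 0 := nz φ _ _ _ _ pw fun h => (monic_X_add_C (1 : k[X])).ne_zero h.2.2
  have jac : ∀ (M : Type u) [LieRing M] (a b c : M), ⁅b, a⁆ = -b →
      ⁅b, ⁅a, c⁆⁆ = ⁅a, ⁅b, c⁆⁆ - ⁅b, c⁆ := fun M _ a b c h => by
    rw [leibniz_lie, h, neg_lie]; abel
  have rel : ⁅y, u⁆ + u = ⁅x, v⁆ - v := by
    rw [hu, hv, lie_sub, lie_sub, lie_add, jac L x y w hr, ← sub_eq_zero, ← sub_eq_zero.2 hw.symm]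
    abel
  let G3 : ULift.{u} (Fin 3) → Set L := fun i => ![{x, y}, {s}, {t}] i.down
  let G2 : ULift.{u} (Fin 2) → Set L := fun i => ![{x, y, u, v}, {w}] i.down
  have d3 : Dec (fun i => lieSpan k L (G3 i)) ⊤ := by
    refine Dec.of G3 ?_ (htop.trans (lieSpan_mono ?_)) fun M _ _ f => ?_
    · rintro ⟨i⟩
      fin_cases i
      exacts [⟨x, by simp [G3], x0⟩, ⟨s, rfl, s0⟩, ⟨t, rfl, t0⟩]
    · rintro _ (rfl | rfl | rfl | rfl)
      exacts [Set.mem_iUnion.2 ⟨⟨0⟩, Or.inl rfl⟩, Set.mem_iUnion.2 ⟨⟨0⟩, Or.inr rfl⟩,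
        Set.mem_iUnion.2 ⟨⟨1⟩, rfl⟩, Set.mem_iUnion.2 ⟨⟨2⟩, rfl⟩]
    · obtain ⟨ψ, h1, h2, h3, h4⟩ := hL M (f ⟨0⟩ ⟨x, subset_lieSpan (Or.inl rfl)⟩)
        (f ⟨0⟩ ⟨y, subset_lieSpan (Or.inr rfl)⟩) (f ⟨1⟩ ⟨s, subset_lieSpan rfl⟩)
        (f ⟨2⟩ ⟨t, subset_lieSpan rfl⟩) (by
          rw [← LieHom.map_lie, ← map_neg]; exact congrArg _ (Subtype.ext hr))
      refine ⟨ψ, ?_⟩
      rintro ⟨i⟩ a ha
      fin_cases i
      · rcases ha with rfl | rfl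
        exacts [h1, h2]
      · obtain rfl : a = s := ha
        exact h3
      · obtain rfl : a = t := ha
        exact h4
  have d2 : Dec (fun i => lieSpan k L (G2 i)) ⊤ := by
    refine Dec.of G2 ?_ (htop.trans (lieSpan_le.2 ?_)) fun M _ _ f => ?_
    · rintro ⟨i⟩
      fin_cases i
      exacts [⟨x, by simp [G2], x0⟩, ⟨w, rfl, w0⟩]
    · have m : ∀ a ∈ ({x, y, u, v} : Set L), a ∈ lieSpan k L (⋃ j, G2 j) := fun a ha =>
        subset_lieSpan (Set.mem_iUnion.2 ⟨⟨0⟩, ha⟩)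
      have mw : w ∈ lieSpan k L (⋃ j, G2 j) := subset_lieSpan (Set.mem_iUnion.2 ⟨⟨1⟩, rfl⟩)
      refine Set.insert_subset (m x (by simp)) (Set.insert_subset (m y (by simp))
        (Set.insert_subset ?_ (Set.singleton_subset_iff.2 ?_)))
      · rw [show s = u + ⁅x, w⁆ by rw [hu]; abel]
        exact add_mem (m u (by simp)) (lie_mem _ (m x (by simp)) mw)
      · rw [show t = v + (⁅y, w⁆ + w) by rw [hv]; abel]
        exact add_mem (m v (by simp)) (add_mem (lie_mem _ (m y (by simp)) mw) mw)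
    · let x' : lieSpan k L (G2 ⟨0⟩) := ⟨x, subset_lieSpan (by simp [G2])⟩
      let y' : lieSpan k L (G2 ⟨0⟩) := ⟨y, subset_lieSpan (by simp [G2])⟩
      let u' : lieSpan k L (G2 ⟨0⟩) := ⟨u, subset_lieSpan (by simp [G2])⟩
      let v' : lieSpan k L (G2 ⟨0⟩) := ⟨v, subset_lieSpan (by simp [G2])⟩
      let c : M := f ⟨1⟩ ⟨w, subset_lieSpan rfl⟩
      have r1 : ⁅f ⟨0⟩ y', f ⟨0⟩ x'⁆ = -f ⟨0⟩ y' := by
        rw [← LieHom.map_lie, ← map_neg]; exact congrArg _ (Subtype.ext hr)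
      have r2 : ⁅f ⟨0⟩ y', f ⟨0⟩ u'⁆ + f ⟨0⟩ u' - (⁅f ⟨0⟩ x', f ⟨0⟩ v'⁆ - f ⟨0⟩ v') = 0 := by
        rw [sub_eq_zero, ← LieHom.map_lie, ← LieHom.map_lie, ← map_add, ← map_sub]
        exact congrArg _ (Subtype.ext rel)
      obtain ⟨ψ, h1, h2, h3, h4⟩ := hL M (f ⟨0⟩ x') (f ⟨0⟩ y') (f ⟨0⟩ u' + ⁅f ⟨0⟩ x', c⁆)
        (f ⟨0⟩ v' + (⁅f ⟨0⟩ y', c⁆ + c)) r1
      have h5 : ψ w = c := by
        rw [hw, map_sub, map_add, map_sub, ψ.map_lie, ψ.map_lie, h1, h2, h3, h4, lie_add, lie_add,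
          lie_add, jac M _ _ c r1, ← sub_eq_zero, ← r2]
        abel
      refine ⟨ψ, ?_⟩
      rintro ⟨i⟩ a ha
      fin_cases i
      · rcases ha with rfl | rfl | ha | ha
        · exact h1
        · exact h2
        · obtain rfl : a = u := ha
          exact (congrArg ψ hu).trans (by rw [map_sub, ψ.map_lie, h1, h3, h5, add_sub_cancel_right]; rfl)
        · obtain rfl : a = v := ha
          exact (congrArg ψ hv).trans (by
            rw [map_sub, map_add, ψ.map_lie, h2, h4, h5, add_sub_cancel_right]; rfl)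
      · obtain rfl : a = w := ha
        exact h5
  obtain ⟨J, B, p, J', B', p', h1, h2, σ, hσ⟩ := H k L _ _ _ _ d3 d2
  obtain ⟨j0, e0⟩ := Dec.two hr (h1 ⟨0⟩)
    (LinearMap.fst k k k[X][X] ∘ₗ LinearMap.snd k k _ ∘ₗ φ.toLinearMap) (congrArg (·.2.1) px)
    (congrArg (·.2.1) py) (LinearMap.fst k k _ ∘ₗ φ.toLinearMap) (congrArg (·.1) px)
    (congrArg (·.1) py)
  obtain ⟨j1, e1⟩ := Dec.line (h1 ⟨1⟩) s0
  obtain ⟨j2, e2⟩ := Dec.line (h1 ⟨2⟩) t0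
  obtain ⟨jw, ew⟩ := Dec.line (h2 ⟨1⟩) w0
  have d0 : Dec (fun j : {j // p' j = ⟨0⟩} => B' j.1) (lieSpan k L {x, y, u, v}) := h2 ⟨0⟩
  have l0 : ∀ z : L, lieSpan k L {z} = lieSpan k L {z, 0} := fun z => le_antisymm
    (lieSpan_mono (by simp)) (lieSpan_le.2 (Set.insert_subset (subset_lieSpan rfl)
      (Set.singleton_subset_iff.2 (zero_mem _))))
  obtain ⟨a0, ma0, b0, mb0, r0, -, g0⟩ := transfer (e0 j0).2 hr (hσ j0)
  obtain ⟨a1, ma1, b1, -, -, z1, g1⟩ := transfer ((e1 j1).2.trans (l0 s)) (by simp) (hσ j1)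
  obtain ⟨a2, ma2, b2, -, -, z2, g2⟩ := transfer ((e2 j2).2.trans (l0 t)) (by simp) (hσ j2)
  rw [z1 rfl, ← l0] at g1
  rw [z2 rfl, ← l0] at g2
  have tri : ∀ j', j' = σ j0 ∨ j' = σ j1 ∨ j' = σ j2 := fun j' => by
    obtain ⟨j, rfl⟩ := σ.surjective j'
    rcases hp : p j with ⟨i⟩
    fin_cases i
    exacts [Or.inl (congrArg (σ ·.1) (e0 ⟨j, hp⟩).1), Or.inr (Or.inl (congrArg (σ ·.1) (e1 ⟨j, hp⟩).1)),
      Or.inr (Or.inr (congrArg (σ ·.1) (e2 ⟨j, hp⟩).1))]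
  have oth : ∀ j', j' ≠ jw.1 → B' j' ≤ lieSpan k L {x, y, u, v} := fun j' hj => by
    rcases hp : p' j' with ⟨i⟩
    fin_cases i
    exacts [d0.le ⟨j', hp⟩, absurd (congrArg (·.1) (ew ⟨j', hp⟩).1) hj]
  have fin' : ∀ g1 ∈ lieSpan k L {x, y, u, v}, ∀ g2 ∈ lieSpan k L {x, y, u, v},
      ∀ g3 ∈ lieSpan k L {x, y, u, v}, ⁅g2, g1⁆ = -g2 →
      (∀ j', j' ≠ jw.1 → B' j' ≤ lieSpan k L {g1, g2, g3}) → False := by
    intro g1 m1 g2 m2 g3 m3 r hB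
    have hK : lieSpan k L {x, y, u, v} ≤ K.comap φ := lieSpan_le.2 (by
      have : φ v = -φ (-v) := by simp
      rintro _ (rfl | rfl | h | h)
      · exact (px ▸ mem_K.2 (by simp [ep]) : φ _ ∈ K)
      · exact (py ▸ mem_K.2 (by simp [ep]) : φ _ ∈ K)
      · exact h ▸ (pu ▸ mem_K.2 (by simp [ep]) : φ _ ∈ K)
      · exact h ▸ (this ▸ neg_mem (pv ▸ mem_K.2 (by simp [ep, sq])) : φ _ ∈ K))
    have hg := d0.gen fun j => hB j.1 fun h => by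
      have := j.2
      rw [h, jw.2] at this
      exact absurd (congrArg ULift.down this) (by decide)
    have hm : ∀ a ∈ lieSpan k L {x, y, u, v}, φ a ∈ lieSpan k (N k) {φ g1, φ g2, φ g3} := fun a ha => by
      have : φ a ∈ (lieSpan k L {g1, g2, g3}).map φ := ⟨a, hg ha, rfl⟩
      rwa [map_lieSpan, Set.image_insert_eq, Set.image_pair] at this
    exact main (hK m1) (hK m2) (hK m3) ((φ.map_lie g2 g1).symm.trans (by rw [r, map_neg]; rfl))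
      (px ▸ hm x (subset_lieSpan (by simp))) (py ▸ hm y (subset_lieSpan (by simp)))
      (pu ▸ hm u (subset_lieSpan (by simp))) (pv ▸ hm (-v) (neg_mem (subset_lieSpan (by simp))))
  have ne : ∀ {i i' : ULift.{u} (Fin 3)} (j : {j // p j = i}) (j' : {j // p j = i'}), i.down ≠ i'.down →
      σ j ≠ σ j' := fun j j' h e => h (by rw [← j.2, ← j'.2, σ.injective e])
  rcases tri jw.1 with h | h | h
  · refine fin' a1 (oth _ (h ▸ ne j1 j0 (by decide)) ma1) 0 (zero_mem _) a2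
      (oth _ (h ▸ ne j2 j0 (by decide)) ma2) (by simp) fun j' hj => ?_
    rcases tri j' with rfl | rfl | rfl
    exacts [absurd h.symm hj, g1.trans (lieSpan_mono (by simp)), g2.trans (lieSpan_mono (by simp))]
  · refine fin' a0 (oth _ (h ▸ ne j0 j1 (by decide)) ma0) b0 (oth _ (h ▸ ne j0 j1 (by decide)) mb0) a2
      (oth _ (h ▸ ne j2 j1 (by decide)) ma2) r0 fun j' hj => ?_
    rcases tri j' with rfl | rfl | rfl
    exacts [g0.trans (lieSpan_mono (by grind)), absurd h.symm hj, g2.trans (lieSpan_mono (by simp))]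
  · refine fin' a0 (oth _ (h ▸ ne j0 j2 (by decide)) ma0) b0 (oth _ (h ▸ ne j0 j2 (by decide)) mb0) a1
      (oth _ (h ▸ ne j1 j2 (by decide)) ma1) r0 fun j' hj => ?_
    rcases tri j' with rfl | rfl | rfl
    exacts [g0.trans (lieSpan_mono (by grind)), g1.trans (lieSpan_mono (by simp)), absurd h.symm hj]

end Pool.Agent.S01084
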