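import Pool.Statements.S01117
-- import your own Pool.Agent.* helpers here

set_option autoImplicit false
open Pool Pool.MP_32c87b_al

namespace Pool.Agent.S01117

/-- a copy of a type without its order -/
structure Ix (G : Type) where
  val : G

/-- points of the poset -/
inductive Om (G : Type) where
  | pt : WithBot (WithBot (Ix G)) → G → Om G
  | mk : WithBot (WithBot (Ix G)) → Om G
  | root : Om G

section
variable {G : Type} [Group G] [Lattice G] [MulLeftMono G] [MulRightMono G] [LinearOrder (Ix G)]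

/-- the index of the copy attached to `c` -/
def ic (c : G) : WithBot (WithBot (Ix G)) := ((⟨c⟩ : Ix G) : WithBot (Ix G))
/-- the index of the second bottom copy -/
def i1 : WithBot (WithBot (Ix G)) := ((⊥ : WithBot (Ix G)) : WithBot (WithBot (Ix G)))

theorem ic_ne_bot (c : G) : ic c ≠ ⊥ := WithBot.coe_ne_bot
theorem ic_ne_i1 (c : G) : ic c ≠ i1 := fun h => WithBot.coe_ne_bot (WithBot.coe_injective h)
theorem i1_ne_bot : (i1 : WithBot (WithBot (Ix G))) ≠ ⊥ := WithBot.coe_ne_bot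
theorem ic_inj {c d : G} (h : ic c = ic d) : c = d :=
  congrArg Ix.val (WithBot.coe_injective (WithBot.coe_injective h))
theorem i1_le (c : G) : i1 ≤ ic c := WithBot.coe_le_coe.mpr bot_le

def ole : Om G → Om G → Prop
  | .pt j g, .pt i h => (j = i ∧ g ≤ h) ∨ (j = ⊥ ∧ (∃ c, i = ic c) ∧ g ≤ h) ∨
      (j = i1 ∧ ∃ c, i = ic c ∧ g ≤ h * c)
  | .pt j _, .mk i => j ≤ i
  | .mk j, .mk i => j ≤ i
  | .root, .mk _ => True
  | .root, .root => True
  | _, _ => False

instance omPO : PartialOrder (Om G) where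
  le := ole
  le_refl x := by cases x <;> simp [ole]
  le_trans x y z h1 h2 := by
    cases x <;> cases y <;> cases z <;> simp only [ole] at h1 h2 ⊢
    · rcases h1 with ⟨rfl, h1⟩ | ⟨rfl, ⟨c, rfl⟩, h1⟩ | ⟨rfl, c, rfl, h1⟩
      · rcases h2 with ⟨rfl, h2⟩ | ⟨rfl, hc, h2⟩ | ⟨rfl, c, rfl, h2⟩
        · exact Or.inl ⟨rfl, h1.trans h2⟩
        · exact Or.inr (Or.inl ⟨rfl, hc, h1.trans h2⟩)
        · exact Or.inr (Or.inr ⟨rfl, c, rfl, h1.trans h2⟩)
      · rcases h2 with ⟨rfl, h2⟩ | ⟨h, -⟩ | ⟨h, -⟩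
        · exact Or.inr (Or.inl ⟨rfl, ⟨c, rfl⟩, h1.trans h2⟩)
        · exact absurd h (ic_ne_bot c)
        · exact absurd h (ic_ne_i1 c)
      · rcases h2 with ⟨rfl, h2⟩ | ⟨h, -⟩ | ⟨h, -⟩
        · exact Or.inr (Or.inr ⟨rfl, c, rfl, h1.trans (mul_le_mul_left h2 c)⟩)
        · exact absurd h (ic_ne_bot c)
        · exact absurd h (ic_ne_i1 c)
    · rcases h1 with ⟨rfl, -⟩ | ⟨rfl, -⟩ | ⟨rfl, c, rfl, -⟩
      · exact h2
      · exact bot_le
      · exact (i1_le c).trans h2
    · exact h1.trans h2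
    · exact h1.trans h2
  le_antisymm x y h1 h2 := by
    cases x <;> cases y <;> simp only [ole] at h1 h2 ⊢
    · rcases h1 with ⟨rfl, h1⟩ | ⟨rfl, ⟨c, rfl⟩, h1⟩ | ⟨rfl, c, rfl, h1⟩
      · rcases h2 with ⟨-, h2⟩ | ⟨rfl, ⟨c, hc⟩, h2⟩ | ⟨rfl, c, hc, h2⟩
        · rw [le_antisymm h1 h2]
        · exact absurd hc.symm (ic_ne_bot c)
        · exact absurd hc.symm (ic_ne_i1 c)
      · rcases h2 with ⟨h, h2⟩ | ⟨h, -⟩ | ⟨h, -⟩
        · exact absurd h (ic_ne_bot c)
        · exact absurd h (ic_ne_bot c)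
        · exact absurd h (ic_ne_i1 c)
      · rcases h2 with ⟨h, h2⟩ | ⟨h, -⟩ | ⟨h, -⟩
        · exact absurd h (ic_ne_i1 c)
        · exact absurd h (ic_ne_bot c)
        · exact absurd h (ic_ne_i1 c)
    · rw [le_antisymm h1 h2]

theorem le_def (x y : Om G) : x ≤ y ↔ ole x y := Iff.rfl

theorem pt_pt (i : WithBot (WithBot (Ix G))) (g h : G) : Om.pt i g ≤ Om.pt i h ↔ g ≤ h := by
  rw [le_def]
  simp only [ole, true_and]
  constructor
  · rintro (h1 | ⟨rfl, ⟨c, hc⟩, -⟩ | ⟨rfl, c, hc, -⟩)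
    · exact h1
    · exact absurd hc.symm (ic_ne_bot c)
    · exact absurd hc.symm (ic_ne_i1 c)
  · exact Or.inl

theorem bot_pt (c g h : G) : Om.pt ⊥ g ≤ Om.pt (ic c) h ↔ g ≤ h := by
  rw [le_def]
  simp only [ole, true_and]
  constructor
  · rintro (⟨h1, -⟩ | ⟨-, h1⟩ | ⟨h1, -⟩)
    · exact absurd h1.symm (ic_ne_bot c)
    · exact h1
    · exact absurd h1.symm i1_ne_bot
  · exact fun h1 => Or.inr (Or.inl ⟨⟨c, rfl⟩, h1⟩)

theorem i1_pt (c g h : G) : Om.pt i1 g ≤ Om.pt (ic c) h ↔ g ≤ h * c := by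
  rw [le_def]
  simp only [ole, true_and]
  constructor
  · rintro (⟨h1, -⟩ | ⟨h1, -⟩ | ⟨d, hd, h1⟩)
    · exact absurd h1.symm (ic_ne_i1 c)
    · exact absurd h1 i1_ne_bot
    · rw [ic_inj hd]; exact h1
  · exact fun h1 => Or.inr (Or.inr ⟨c, rfl, h1⟩)

def act (a : G) : Om G → Om G
  | .pt i g => .pt i (a * g)
  | .mk i => .mk i
  | .root => .root

theorem act_mul (a b : G) (x : Om G) : act (a * b) x = act a (act b x) := by
  cases x <;> simp [act, mul_assoc]

theorem act_one (x : Om G) : act (1 : G) x = x := by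
  cases x <;> simp [act]

def phi (a : G) : Om G ≃o Om G where
  toFun := act a
  invFun := act a⁻¹
  left_inv x := by rw [← act_mul, inv_mul_cancel, act_one]
  right_inv x := by rw [← act_mul, mul_inv_cancel, act_one]
  map_rel_iff' := by
    intro x y
    cases x <;> cases y <;> simp [le_def, ole, act, mul_assoc]

theorem phi_apply (a : G) (x : Om G) : phi a x = act a x := rfl

theorem exists_lt_one [Nontrivial G] : ∃ u : G, u < 1 := by
  obtain ⟨a, ha⟩ := exists_ne (1 : G)
  by_cases h : 1 ≤ a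
  · exact ⟨a⁻¹, inv_lt_one'.mpr (lt_of_le_of_ne h ha.symm)⟩
  · exact ⟨a ⊓ 1, inf_lt_right.mpr h⟩

theorem root_fix [Nontrivial G] (s : Om G ≃o Om G) : s Om.root = Om.root := by
  have hmin : ∀ y : Om G, y ≤ Om.root → y = Om.root := by
    intro y hy
    cases y <;> simp [le_def, ole] at hy ⊢
  have h1 : ∀ y : Om G, y ≤ s Om.root → y = s Om.root := by
    intro y hy
    have := hmin (s.symm y) (by rwa [s.symm_apply_le])
    rw [← this, s.apply_symm_apply]
  obtain ⟨u, hu⟩ := exists_lt_one (G := G)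
  cases h : s Om.root with
  | pt i g =>
    rw [h] at h1
    have h2 := h1 (Om.pt i (g * u)) ((pt_pt _ _ _).mpr (mul_le_of_le_one_right' hu.le))
    simp only [Om.pt.injEq, true_and, mul_eq_left] at h2
    exact absurd h2 hu.ne
  | mk i =>
    rw [h] at h1
    exact absurd (h1 Om.root (by simp [le_def, ole])) (by simp)
  | root => rfl

theorem mk_mk [Nontrivial G] (s : Om G ≃o Om G) (i : WithBot (WithBot (Ix G))) :
    ∃ j, s (Om.mk i) = Om.mk j := by
  have h1 : Om.root ≤ s (Om.mk i) := by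
    rw [← root_fix s, s.le_iff_le]
    simp [le_def, ole]
  cases h : s (Om.mk i) with
  | pt j g => rw [h] at h1; simp [le_def, ole] at h1
  | mk j => exact ⟨j, rfl⟩
  | root =>
    rw [← root_fix s] at h
    exact absurd (s.injective h) (by simp)

theorem mk_le [Nontrivial G] [WellFoundedLT (Ix G)] (s : Om G ≃o Om G)
    (i : WithBot (WithBot (Ix G))) : Om.mk i ≤ s (Om.mk i) := by
  choose f hf using mk_mk s
  have hmono : StrictMono f := by
    intro a b hab
    have h1 : s (Om.mk a) ≤ s (Om.mk b) := s.le_iff_le.mpr hab.le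
    rw [hf, hf] at h1
    refine lt_of_le_of_ne h1 (fun h => hab.ne ?_)
    have : s (Om.mk a) = s (Om.mk b) := by rw [hf, hf, h]
    simpa using s.injective this
  rw [hf]
  exact hmono.le_apply

theorem mk_fix [Nontrivial G] [WellFoundedLT (Ix G)] (s : Om G ≃o Om G)
    (i : WithBot (WithBot (Ix G))) : s (Om.mk i) = Om.mk i := by
  refine le_antisymm ?_ (mk_le s i)
  have := s.le_iff_le.mpr (mk_le s.symm i)
  rwa [s.apply_symm_apply] at this

theorem pt_map [Nontrivial G] [WellFoundedLT (Ix G)] (s : Om G ≃o Om G)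
    (i : WithBot (WithBot (Ix G))) (g : G) : ∃ g', s (Om.pt i g) = Om.pt i g' := by
  cases h : s (Om.pt i g) with
  | pt j g' =>
    have key : ∀ k, i ≤ k ↔ j ≤ k := by
      intro k
      have h1 : s (Om.pt i g) ≤ s (Om.mk k) ↔ Om.pt i g ≤ Om.mk k := s.le_iff_le
      rw [h, mk_fix] at h1
      exact h1.symm
    have : j = i := le_antisymm ((key i).mp le_rfl) ((key j).mpr le_rfl)
    exact ⟨g', by rw [this]⟩
  | mk j =>
    rw [← mk_fix s] at h
    exact absurd (s.injective h) (by simp)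
  | root =>
    rw [← root_fix s] at h
    exact absurd (s.injective h) (by simp)

theorem phi_surj [Nontrivial G] [WellFoundedLT (Ix G)] (s : Om G ≃o Om G) :
    ∃ a : G, phi a = s := by
  choose t ht using pt_map s
  have hsurj : ∀ i k, ∃ h, t i h = k := by
    intro i k
    obtain ⟨h, hh⟩ := pt_map s.symm i k
    refine ⟨h, ?_⟩
    have := ht i h
    rw [← hh, s.apply_symm_apply] at this
    simpa using this.symm
  have e0 : ∀ i g h, t i g ≤ t i h ↔ g ≤ h := by
    intro i g h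
    rw [← pt_pt i, ← ht, ← ht, s.le_iff_le, pt_pt]
  have e1 : ∀ c g h, t ⊥ g ≤ t (ic c) h ↔ g ≤ h := by
    intro c g h
    rw [← bot_pt c, ← ht, ← ht, s.le_iff_le, bot_pt]
  have e2 : ∀ c g h, t i1 g ≤ t (ic c) h * c ↔ g ≤ h * c := by
    intro c g h
    rw [← i1_pt c, ← ht, ← ht, s.le_iff_le, i1_pt]
  have f1 : ∀ c g, t (ic c) g = t ⊥ g := by
    intro c g
    refine le_antisymm ?_ ((e1 c g g).mpr le_rfl)
    obtain ⟨h, hh⟩ := hsurj (ic c) (t ⊥ g)
    rw [← hh, e0, ← e1 c, hh]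
  have f2 : ∀ g, t i1 g = t ⊥ g := by
    intro g
    rw [← f1 1]
    refine le_antisymm ?_ ?_
    · simpa using (e2 1 g g).mpr (by simp)
    · obtain ⟨h, hh⟩ := hsurj (ic 1) (t i1 g)
      have := (e2 1 g h).mp (by rw [hh, mul_one])
      rw [← hh, e0]
      simpa using this
  have f3 : ∀ c, t ⊥ c = t ⊥ 1 * c := by
    intro c
    refine le_antisymm ?_ ?_
    · have := (e2 c c 1).mpr (by simp)
      rwa [f2, f1] at this
    · obtain ⟨h, hh⟩ := hsurj ⊥ (t ⊥ 1 * c)
      have := (e2 c h 1).mp (by rw [f2, f1, hh])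
      rw [← hh, e0]
      simpa using this
  refine ⟨t ⊥ 1, ?_⟩
  ext x
  rw [phi_apply]
  cases x with
  | pt i g =>
    rw [ht]
    simp only [act, Om.pt.injEq, true_and]
    rw [← f3]
    induction i using WithBot.recBotCoe with
    | bot => rfl
    | coe j =>
      induction j using WithBot.recBotCoe with
      | bot => exact (f2 g).symm
      | coe c => exact (f1 c.val g).symm
  | mk i => rw [mk_fix]; rfl
  | root => rw [root_fix]; rfl

end

theorem result :
    ∀ (G : Type) [Group G] [Lattice G] [MulLeftMono G] [MulRightMono G],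
      ∃ (Ω : Type) (_ : PartialOrder Ω) (φ : G → (Ω ≃o Ω)),
        Function.Bijective φ ∧
        (∀ a b : G, φ (a * b) = (φ b).trans (φ a)) ∧
        (∀ a b : G, a ≤ b ↔ ∀ x : Ω, φ a x ≤ φ b x) := by
  intro G _ _ _ _
  rcases subsingleton_or_nontrivial G with hG | hG
  · refine ⟨Unit, inferInstance, fun _ => OrderIso.refl Unit, ⟨fun a b _ => Subsingleton.elim a b,
      fun s => ⟨1, by ext⟩⟩, fun a b => by ext, fun a b => ?_⟩
    rw [Subsingleton.elim a b]
    simp
  · obtain ⟨lo, wf⟩ := exists_wellOrder (Ix G)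
    refine ⟨Om G, inferInstance, phi, ⟨fun a b h => ?_, phi_surj⟩, fun a b => ?_, fun a b => ?_⟩
    · have := congrArg (fun s : Om G ≃o Om G => s (Om.pt ⊥ 1)) h
      simpa [phi_apply, act] using this
    · ext x
      exact act_mul a b x
    · constructor
      · intro h x
        cases x with
        | pt i g => exact (pt_pt _ _ _).mpr (mul_le_mul_left h g)
        | mk i => exact le_rfl
        | root => exact le_rfl
      · intro h
        have := (pt_pt _ _ _).mp (h (Om.pt ⊥ 1))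
        simpa using this

end Pool.Agent.S01117
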