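import Pool.Statements.S01138
import Pool.Agent.H.MP_3384ed_al.E

set_option autoImplicit false
open Pool Pool.MP_3384ed_al

namespace Pool.Agent.S01138

/-- The negation of the preceding statement: For a finite group G whose only composition series 1◁G1◁G2◁G has factors Z_p, a non-abelian simple X, and Z_q (p, q prime), the formation generated by G has infinitely many subformations iff p = q. -/
theorem result :
    ¬ (∀ (G : Type) [Group G] [Finite G] (p q : ℕ) (G1 G2 : Subgroup G),
    p.Prime → q.Prime →
    G1 ≤ G2 →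
    ∀ [(G1.subgroupOf G2).Normal] [G2.Normal],
    Nat.card G1 = p →
    IsSimpleGroup (G2 ⧸ G1.subgroupOf G2) →
    (¬ ∀ a b : G2 ⧸ G1.subgroupOf G2, a * b = b * a) →
    Nat.card (G ⧸ G2) = q →
    (∀ (A B : Subgroup G) [(A.subgroupOf B).Normal] [B.Normal], A ≤ B →
        IsSimpleGroup A → IsSimpleGroup (B ⧸ A.subgroupOf B) → IsSimpleGroup (G ⧸ B) →
        A = G1 ∧ B = G2) →
    (Set.Infinite {F : ∀ (H : Type) [Group H], Prop |
        (∀ (H : Type) [Group H], F H → ∃ n : ℕ, ∃ S : Subgroup (Fin n → G),
            (∀ (i : Fin n) (g : G), ∃ s ∈ S, s i = g) ∧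
            ∃ f : S →* H, Function.Surjective f) ∧
        (∀ (H K : Type) [Group H] [Group K] (f : H →* K),
            Function.Surjective f → F H → F K) ∧
        (∀ (H : Type) [Group H] (N1 N2 : Subgroup H) [N1.Normal] [N2.Normal],
            F (H ⧸ N1) → F (H ⧸ N2) → F (H ⧸ (N1 ⊓ N2)))} ↔ p = q)) := by
  intro H
  open Pool.Agent.H.MP_3384ed_al in
  have hZn : ZZ.Normal := setup.zn
  open Pool.Agent.H.MP_3384ed_al in
  have hq : Nonempty ((SL3 ⧸ Subgroup.center SL3) ≃* (PP ⧸ ZZ.subgroupOf PP)) := by
    refine ⟨QuotientGroup.congr _ _ (MonoidHom.ofInjective SemidirectProduct.inl_injective) ?_⟩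
    ext x
    constructor
    · rintro ⟨z, hz, rfl⟩
      exact ⟨z, hz, rfl⟩
    · rintro ⟨z, hz, e⟩
      exact ⟨z, hz, Subtype.ext e⟩
  obtain ⟨e⟩ := hq
  open Pool.Agent.H.MP_3384ed_al in
  have hs := simp3
  open Pool.Agent.H.MP_3384ed_al in
  have hc : Nat.card (GG ⧸ PP) = 3 := by
    change PP.index = 3
    rw [PP_ker, Subgroup.index_ker, MonoidHom.range_eq_top.2 SemidirectProduct.rightHom_surjective,
      Subgroup.card_top, cardGa]
  open Pool.Agent.H.MP_3384ed_al in
  refine ((H GG 3 3 ZZ PP (by norm_num) (by norm_num) setup.zp cardZZ e.symm.isSimpleGroup ?_ hc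
    ?_).2 rfl) (finite_forms setup)
  · intro hcomm
    have := Pool.Agent.H.MP_3384ed_al.perf
    refine Group.IsPerfect.not_isMulCommutative (G := Pool.Agent.H.MP_3384ed_al.SL3 ⧸
      Subgroup.center _) ⟨⟨fun a b => e.injective ?_⟩⟩
    rw [map_mul, map_mul, hcomm]
  · open Pool.Agent.H.MP_3384ed_al in
    intro A B hA hB hAB sA sB sG
    open Pool.Agent.H.MP_3384ed_al in
    have hAb : A ≠ ⊥ := (Subgroup.nontrivial_iff_ne_bot A).1 inferInstance
    have hAt : A.subgroupOf B ≠ ⊤ := fun h => by
      have : Subsingleton (B ⧸ A.subgroupOf B) := by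
        rw [h]; exact QuotientGroup.subsingleton_quotient_top
      exact false_of_nontrivial_of_subsingleton (B ⧸ A.subgroupOf B)
    have hBt : B ≠ ⊤ := fun h => by
      have : Subsingleton (_ ⧸ B) := by
        rw [h]; exact QuotientGroup.subsingleton_quotient_top
      exact false_of_nontrivial_of_subsingleton (_ ⧸ B)
    open Pool.Agent.H.MP_3384ed_al in
    have hBP : B = PP := by
      rcases setup.nrm B hB with h | h
      · exfalso
        rcases setup.zsub A (hAB.trans h) with h1 | h1
        · exact hAb h1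
        · exact hAt (Subgroup.subgroupOf_eq_top.2 (h1 ▸ h))
      · have h1 := Subgroup.index_dvd_of_le h
        rw [show PP.index = 3 from hc] at h1
        rcases (Nat.dvd_prime (by norm_num)).1 h1 with h2 | h2
        · exact absurd (Subgroup.index_eq_one.1 h2) hBt
        · have e1 := B.card_mul_index
          have e2 := PP.card_mul_index
          rw [h2] at e1
          rw [show PP.index = 3 from hc] at e2
          exact (Subgroup.eq_of_le_of_card_ge h (by omega)).symm
    subst hBP
    refine ⟨?_, rfl⟩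
    open Pool.Agent.H.MP_3384ed_al in
    have hn : (A.comap (SemidirectProduct.inl : SL3 →* GG)).Normal := ⟨fun a ha g => by
      have := hA.conj_mem ⟨SemidirectProduct.inl a, a, rfl⟩ ha ⟨SemidirectProduct.inl g, g, rfl⟩
      rw [Subgroup.mem_comap, map_mul, map_mul, map_inv]
      exact this⟩
    open Pool.Agent.H.MP_3384ed_al in
    rcases nrmSL _ hn with h | h
    · open Pool.Agent.H.MP_3384ed_al in
      refine (setup.zsub A fun a ha => ?_).resolve_left hAb
      obtain ⟨x, rfl⟩ := hAB ha
      exact ⟨x, h ha, rfl⟩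
    · exfalso
      apply hAt
      rw [Subgroup.subgroupOf_eq_top]
      rintro _ ⟨x, rfl⟩
      have : x ∈ A.comap SemidirectProduct.inl := h ▸ Subgroup.mem_top x
      exact this

end Pool.Agent.S01138
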