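import Pool.Statements.S01144
import Pool.Agent.H.MP_34520e_al.B

set_option autoImplicit false
open Pool Pool.MP_34520e_al

namespace Pool.Agent.S01144
open Pool.Agent.H.MP_34520e_al

theorem result :
    ¬ (∀ (L : Type) [Lattice L],
      (∃ (X : Type) (f : LatticeHom L (Setoid X)), Function.Injective f ∧
        ∀ (a b : L) (x y : X),
          (∃ z, (f a).r x z ∧ (f b).r z y) ↔ (∃ z, (f b).r x z ∧ (f a).r z y)) →
      (∃ (X : Type) (f : LatticeHom Lᵒᵈ (Setoid X)), Function.Injective f ∧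
        ∀ (a b : Lᵒᵈ) (x y : X),
          (∃ z, (f a).r x z ∧ (f b).r z y) ↔ (∃ z, (f b).r x z ∧ (f a).r z y))) := by
  intro h
  obtain ⟨X, f, hf, hc⟩ := h (NS GG) ⟨GG, lin GG, lin_inj GG, fun a b x y =>
    ⟨lin_comm a b x y, lin_comm b a x y⟩⟩
  exact not_lin f hf fun a b x y => (hc a b x y).1

end Pool.Agent.S01144
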