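import Pool.Statements.S03022
-- import your own Pool.Agent.* helpers here

set_option autoImplicit false
open scoped Pointwise
open Pool Pool.MP_c8ecde_al

namespace Pool.Agent.S03022

noncomputable section
open FreeGroup

abbrev GG := FreeGroup ℕ

def lev (k : ℕ) : Subgroup GG where
  carrier := {h | ∀ l ∈ h.toWord, l.1 < k}
  one_mem' := by simp
  mul_mem' := by
    intro a b ha hb l hl
    rcases List.mem_append.mp ((toWord_mul_sublist a b).subset hl) with h | h
    · exact ha l h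
    · exact hb l h
  inv_mem' := by
    intro a ha l hl
    rw [toWord_inv, invRev, List.mem_reverse, List.mem_map] at hl
    obtain ⟨m, hm, rfl⟩ := hl
    exact ha m hm

theorem lev_mono {k m : ℕ} (h : k ≤ m) : lev k ≤ lev m := fun _ ha l hl => (ha l hl).trans_le h

theorem of_lev {k m : ℕ} (h : k < m) : of k ∈ lev m := by
  intro l hl
  rw [toWord_of, List.mem_singleton] at hl
  rw [hl]
  exact h

theorem ex_lev (F : Finset GG) : ∃ k, ∀ f ∈ F, f ∈ lev k := by
  refine ⟨F.sup (fun f => (f.toWord.map Prod.fst).sum + 1), fun f hf l hl => ?_⟩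
  refine lt_of_lt_of_le ?_ (Finset.le_sup (f := fun f : GG => (f.toWord.map Prod.fst).sum + 1) hf)
  exact Nat.lt_succ_of_le (List.le_sum_of_mem (List.mem_map_of_mem hl))

def beg (k : ℕ) (x : GG) : Prop := ∃ b, x ∈ startsWith (k, b)

theorem sw_eq {x : GG} {a b : ℕ × Bool} (ha : x ∈ startsWith a) (hb : x ∈ startsWith b) :
    a = b := Option.some.inj (ha.symm.trans hb)

theorem sw_mul (k : ℕ) (y : GG) (hy : ∀ a, y ∈ startsWith a → a.1 = k) :
    ∀ (L : List (ℕ × Bool)) (a : ℕ × Bool), IsReduced (a :: L) → (∀ l ∈ a :: L, l.1 < k) →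
      mk (a :: L) * y ∈ startsWith a
  | [], a, _, h => startsWith_mk_mul y fun h' => (h a List.mem_cons_self).ne (hy (a.1, !a.2) h')
  | b :: L, a, hr, h => by
    have h1 := isReduced_cons_cons.mp hr
    have h2 := sw_mul k y hy L b h1.2 fun l hl => h l (List.mem_cons_of_mem _ hl)
    rw [← List.singleton_append, ← mul_mk, mul_assoc]
    refine startsWith_mk_mul _ fun h' => ?_
    have h3 := sw_eq h2 h'
    have h4 := h1.1 (by rw [h3])
    rw [h3] at h4
    simp at h4

theorem beg_mul {k : ℕ} {h y : GG} (hh : h ∈ lev k) (hy : ∀ a, y ∈ startsWith a → a.1 = k)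
    (hb : beg k (h * y)) : h = 1 := by
  obtain ⟨b, hb⟩ := hb
  rcases hL : h.toWord with _ | ⟨a, L⟩
  · exact toWord_eq_nil_iff.mp hL
  · have h1 := sw_mul k y hy L a (hL ▸ isReduced_toWord) (hL ▸ hh)
    rw [← hL, mk_toWord] at h1
    have h2 := hh a (by rw [hL]; exact List.mem_cons_self)
    rw [sw_eq h1 hb] at h2
    exact absurd h2 (lt_irrefl _)

theorem beg_uniq {k : ℕ} {x y : GG} (hx : beg k x) (hy : beg k y) (h : x * y⁻¹ ∈ lev k) :
    x = y := by
  obtain ⟨b, hb⟩ := hy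
  exact mul_inv_eq_one.mp (beg_mul h (fun a ha => by rw [sw_eq ha hb]) (by simpa using hx))

theorem beg_not {k : ℕ} {x : GG} (hx : beg k x) : x ∉ lev k := by
  intro h
  have := beg_mul (y := 1) h (fun a ha => absurd rfl (startsWith.ne_one _ ha)) (by simpa using hx)
  obtain ⟨b, hb⟩ := hx
  exact startsWith.ne_one _ hb this

theorem beg_or (k : ℕ) (x : GG) : beg k x ∨ beg k (of k * x) := by
  by_cases h : x ∈ startsWith (k, false)
  · exact Or.inl ⟨_, h⟩
  · exact Or.inr ⟨true, startsWith_mk_mul (w := (k, true)) x h⟩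

abbrev Task := Fin 16 × Finset GG

theorem ex_enum : ∃ T : ℕ → Task, ∀ t : Task, ∃ k, T k = t ∧ ∀ f ∈ t.2, f ∈ lev k := by
  obtain ⟨e, he⟩ := exists_surjective_nat Task
  refine ⟨fun k => e (Nat.unpair k).1, fun t => ?_⟩
  obtain ⟨a, rfl⟩ := he t
  obtain ⟨b, hb⟩ := ex_lev (e a).2
  exact ⟨Nat.pair a b, by simp, fun f hf => lev_mono (Nat.right_le_pair a b) (hb f hf)⟩

def Con (k : ℕ) (t : Task) (c : GG → Fin 16) : Prop :=
  (∀ f ∈ t.2, f ∈ lev k) → t.2.card ≤ 16 →
    ∀ x, ∀ f ∈ t.2, ∀ f' ∈ t.2, c (f⁻¹ * x) ≠ t.1 ∨ c (f'⁻¹ * (of k * x)) ≠ t.1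

def Phi (D : Fin 16 → Finset GG) : ℝ := ∑ i, √((D i).card : ℝ)

theorem sq_le (a b c : ℝ) (ha : 0 ≤ a) (hb : 0 ≤ b) (h : a + b ≤ c) :
    √a + √b ≤ 10 / 7 * √c := by
  have h1 := Real.sq_sqrt ha
  have h2 := Real.sq_sqrt hb
  have h3 := Real.sq_sqrt (show 0 ≤ c by linarith)
  refine abs_le_of_sq_le_sq' ?_ (by positivity) |>.2
  nlinarith [sq_nonneg (√a - √b)]

theorem sq_add (a b : ℝ) (ha : 0 ≤ a) (hb : 0 ≤ b) : √(a + b) ≤ √a + √b := by
  have h1 := Real.sq_sqrt ha
  have h2 := Real.sq_sqrt hb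
  refine Real.sqrt_le_iff.mpr ⟨by positivity, ?_⟩
  nlinarith [mul_nonneg (Real.sqrt_nonneg a) (Real.sqrt_nonneg b)]

theorem sat (T : ℕ → Task) (k : ℕ) : ∀ D : Fin 16 → Finset GG, Phi D ≤ 14 →
    ∃ c : GG → Fin 16, (∀ m < k, Con m (T m) c) ∧ ∀ i, ∀ x ∈ D i, c x ≠ i := by
  classical
  induction k with
  | zero =>
    intro D hD
    obtain ⟨i, hi⟩ : ∃ i, D i = ∅ := by
      by_contra h
      push Not at h
      have : ∑ _i : Fin 16, (1 : ℝ) ≤ Phi D := Finset.sum_le_sum fun i _ =>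
        Real.one_le_sqrt.mpr (by exact_mod_cast (h i).card_pos)
      simp at this
      linarith
    refine ⟨fun _ => i, fun m hm => absurd hm (Nat.not_lt_zero _), fun j x hx h => ?_⟩
    rw [← h, hi] at hx
    simp at hx
  | succ k ih =>
    intro D hD
    by_cases hact : (∀ f ∈ (T k).2, f ∈ lev k) ∧ (T k).2.card ≤ 16
    swap
    · obtain ⟨c, h1, h2⟩ := ih D hD
      refine ⟨c, fun m hm => ?_, h2⟩
      rcases Nat.lt_succ_iff_lt_or_eq.mp hm with h | rfl
      · exact h1 m h
      · exact fun a b => absurd ⟨a, b⟩ hact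
    obtain ⟨hF, hc⟩ := hact
    let q : GG → Quotient (QuotientGroup.rightRel (lev k)) := Quotient.mk _
    have hq : ∀ x y, q x = q y ↔ y * x⁻¹ ∈ lev k := fun x y =>
      Quotient.eq.trans QuotientGroup.rightRel_apply
    have hq' : ∀ h x, h ∈ lev k → q (h * x) = q x := fun h x hh => by
      rw [eq_comm, hq]; simpa using hh
    let DQ : Quotient (QuotientGroup.rightRel (lev k)) → Fin 16 → Finset GG :=
      fun Q i => (D i).filter fun x => q x = Q
    have two : ∀ Q Q', Q ≠ Q' → Phi (DQ Q) + Phi (DQ Q') ≤ 20 := by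
      intro Q Q' hne
      have : Phi (DQ Q) + Phi (DQ Q') ≤ 10 / 7 * Phi D := by
        rw [Phi, Phi, Phi, ← Finset.sum_add_distrib, Finset.mul_sum]
        refine Finset.sum_le_sum fun i _ => sq_le _ _ _ (by positivity) (by positivity) ?_
        have h1 : Disjoint (DQ Q i) (DQ Q' i) :=
          Finset.disjoint_filter.mpr fun x _ h h' => hne (h.symm.trans h')
        have h2 : DQ Q i ∪ DQ Q' i ⊆ D i :=
          Finset.union_subset (Finset.filter_subset _ _) (Finset.filter_subset _ _)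
        have h3 := Finset.card_le_card h2
        rw [Finset.card_union_of_disjoint h1] at h3
        exact_mod_cast h3
      linarith
    obtain ⟨x0, hx0⟩ : ∃ x0, ∀ Q, Q ≠ q x0 → Phi (DQ Q) ≤ 10 := by
      by_cases h : ∀ Q, Phi (DQ Q) ≤ 10
      · exact ⟨1, fun Q _ => h Q⟩
      · push Not at h
        obtain ⟨Q0, h0⟩ := h
        obtain ⟨x0, rfl⟩ := Quotient.exists_rep Q0
        exact ⟨x0, fun Q hQ => by linarith [two Q _ hQ]⟩
    have key : ∀ Q, ∃ c : GG → Fin 16, (∀ m < k, Con m (T m) c) ∧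
        (∀ i, ∀ x ∈ DQ Q i, c x ≠ i) ∧
        ∀ r, q r = Q → beg k (r * x0⁻¹) → ∀ f ∈ (T k).2, c (f⁻¹ * r) ≠ (T k).1 := by
      intro Q
      by_cases h : ∃ r, q r = Q ∧ beg k (r * x0⁻¹)
      · obtain ⟨r, rfl, hr⟩ := h
        have h1 := hx0 (q r) fun h => beg_not hr ((hq _ _).mp h.symm)
        let E : Fin 16 → Finset GG := fun i =>
          if i = (T k).1 then (T k).2.image (fun f => f⁻¹ * r) else ∅
        obtain ⟨c, h2, h3⟩ := ih (fun i => DQ (q r) i ∪ E i) (by
          have h4 : Phi E ≤ 4 := by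
            rw [Phi, Finset.sum_eq_single (T k).1 (fun i _ hi => by simp [E, hi]) (by simp)]
            refine Real.sqrt_le_iff.mpr ⟨by norm_num, ?_⟩
            have := (Finset.card_image_le (s := (T k).2) (f := fun f => f⁻¹ * r)).trans hc
            simp only [E, if_true]
            exact_mod_cast this
          have h5 : Phi (fun i => DQ (q r) i ∪ E i) ≤ Phi (DQ (q r)) + Phi E := by
            rw [Phi, Phi, Phi, ← Finset.sum_add_distrib]
            refine Finset.sum_le_sum fun i _ => le_trans (Real.sqrt_le_sqrt ?_)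
              (sq_add ((DQ (q r) i).card : ℝ) ((E i).card : ℝ) (by positivity) (by positivity))
            exact_mod_cast Finset.card_union_le _ _
          linarith)
        refine ⟨c, h2, fun i x hx => h3 i x (Finset.mem_union_left _ hx), ?_⟩
        intro r' hr' hb f hf
        have : r' = r := mul_right_cancel (beg_uniq hb hr (by simpa using (hq _ _).mp hr'.symm))
        rw [this]
        refine h3 _ _ (Finset.mem_union_right _ ?_)
        simp only [E, if_true]
        exact Finset.mem_image_of_mem _ hf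
      · obtain ⟨c, h2, h3⟩ := ih (DQ Q) (le_trans (Finset.sum_le_sum fun i _ =>
          Real.sqrt_le_sqrt (by exact_mod_cast Finset.card_filter_le _ _)) hD)
        exact ⟨c, h2, h3, fun r h1 h2 => absurd ⟨r, h1, h2⟩ h⟩
    choose cc h1 h2 h3 using key
    refine ⟨fun x => cc (q x) x, fun m hm => ?_,
      fun i x hx => h2 (q x) i x (Finset.mem_filter.mpr ⟨hx, rfl⟩)⟩
    rcases Nat.lt_succ_iff_lt_or_eq.mp hm with h | rfl
    · intro a b x f hf f' hf'
      have := h1 (q x) m h a b x f hf f' hf'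
      dsimp only
      rwa [hq' _ _ (inv_mem (lev_mono h.le (a f hf))), hq' _ _ (inv_mem (lev_mono h.le (a f' hf'))),
        hq' _ _ (of_lev h)]
    · intro _ _ x f hf f' hf'
      dsimp only
      rw [hq' _ _ (inv_mem (hF f hf)), hq' _ _ (inv_mem (hF f' hf'))]
      rcases beg_or m (x * x0⁻¹) with h | h
      · exact Or.inl (h3 _ x rfl h f hf)
      · exact Or.inr (h3 _ _ rfl (by rwa [mul_assoc]) f' hf')

theorem con_closed (k : ℕ) (t : Task) : IsClosed {c | Con k t c} := by
  simp only [Con, Set.ofPred_forall]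
  refine isClosed_iInter fun _ => isClosed_iInter fun _ => isClosed_iInter fun x =>
    isClosed_iInter fun f => isClosed_iInter fun _ => isClosed_iInter fun f' =>
      isClosed_iInter fun _ => IsClosed.union ?_ ?_
  · exact (isClosed_discrete {i | i ≠ t.1}).preimage
      (continuous_apply (A := fun _ : GG => Fin 16) (f⁻¹ * x))
  · exact (isClosed_discrete {i | i ≠ t.1}).preimage
      (continuous_apply (A := fun _ : GG => Fin 16) (f'⁻¹ * (of k * x)))

theorem ex_col (T : ℕ → Task) : ∃ c : GG → Fin 16, ∀ m, Con m (T m) c := by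
  have hcl : ∀ k, IsClosed {c : GG → Fin 16 | ∀ m < k, Con m (T m) c} := fun k => by
    simp only [Set.ofPred_forall]
    exact isClosed_iInter fun m => isClosed_iInter fun _ => con_closed m _
  obtain ⟨c, hc⟩ := IsCompact.nonempty_iInter_of_sequence_nonempty_isCompact_isClosed
    (fun k => {c : GG → Fin 16 | ∀ m < k, Con m (T m) c})
    (fun k c hc m hm => hc m (Nat.lt_succ_of_lt hm))
    (fun k => by
      obtain ⟨c, hc, -⟩ := sat T k (fun _ => ∅) (by simp [Phi])
      exact ⟨c, hc⟩)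
    (hcl 0).isCompact hcl
  exact ⟨c, fun m => Set.mem_iInter.mp hc (m + 1) m (Nat.lt_succ_self m)⟩

end

theorem result :
    ¬ (∀ (G : Type) [Group G] (n : ℕ) (A : Fin n → Set G),
      (∀ i j, i ≠ j → Disjoint (A i) (A j)) →
      (⋃ i, A i) = Set.univ →
      ∃ i : Fin n, ∃ F : Finset G, F.card ≤ n ∧
        (F : Set G) * A i * (A i)⁻¹ * (F : Set G)⁻¹ = Set.univ) := by
  intro hall
  obtain ⟨T, hT⟩ := ex_enum
  obtain ⟨c, hc⟩ := ex_col T
  obtain ⟨i, F, hF, h⟩ := hall GG 16 (fun i => {x | c x = i})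
    (fun i j hij => Set.disjoint_left.mpr fun x h1 h2 => hij (h1.symm.trans h2))
    (Set.eq_univ_of_forall fun x => Set.mem_iUnion.mpr ⟨c x, rfl⟩)
  obtain ⟨k, hk, hl⟩ := hT (i, F)
  obtain ⟨_, ⟨_, ⟨f', hf', a, ha, rfl⟩, b, hb, rfl⟩, f, hf, h1⟩ :=
    Set.eq_univ_iff_forall.mp h (FreeGroup.of k)
  have h2 := hc k
  rw [hk] at h2
  rcases h2 hl hF (f⁻¹ * b⁻¹) f⁻¹ hf f' hf' with h3 | h3
  · exact h3 (by simpa using hb)
  · rw [← h1] at h3
    exact h3 (by simpa [mul_assoc] using ha)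

end Pool.Agent.S03022
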