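import Pool.Statements.S01146
import Pool.Agent.S03022

set_option autoImplicit false
open Pointwise
open Pool Pool.MP_34521c_al

namespace Pool.Agent.S01146

noncomputable section
open FreeGroup S03022

theorem step (T : ℕ → Task) (k : ℕ) (c0 : GG → Fin 16) (h0 : ∀ m < k, Con m (T m) c0) :
    ∃ c : GG → Fin 16, (∀ m < k + 1, Con m (T m) c) ∧
      ∀ x, (((∀ f ∈ (T k).2, f ∈ lev k) ∧ (T k).2.card ≤ 16) →
        ∀ r, r * x⁻¹ ∈ lev k → ¬ beg k r) → c x = c0 x := by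
  classical
  by_cases hact : (∀ f ∈ (T k).2, f ∈ lev k) ∧ (T k).2.card ≤ 16
  swap
  · refine ⟨c0, fun m hm => ?_, fun _ _ => rfl⟩
    rcases Nat.lt_succ_iff_lt_or_eq.mp hm with h | rfl
    · exact h0 m h
    · exact fun a b => absurd ⟨a, b⟩ hact
  obtain ⟨hF, hc⟩ := hact
  let q : GG → Quotient (QuotientGroup.rightRel (lev k)) := Quotient.mk _
  have hq : ∀ x y, q x = q y ↔ y * x⁻¹ ∈ lev k := fun x y =>
    Quotient.eq.trans QuotientGroup.rightRel_apply
  have hq' : ∀ h x, h ∈ lev k → q (h * x) = q x := fun h x hh => by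
    rw [eq_comm, hq]; simpa using hh
  have key : ∀ Q, ∃ c : GG → Fin 16, (∀ m < k, Con m (T m) c) ∧
      ((¬ ∃ r, q r = Q ∧ beg k r) → c = c0) ∧
      ∀ r, q r = Q → beg k r → ∀ f ∈ (T k).2, c (f⁻¹ * r) ≠ (T k).1 := by
    intro Q
    by_cases h : ∃ r, q r = Q ∧ beg k r
    · obtain ⟨r, rfl, hr⟩ := h
      let E : Fin 16 → Finset GG := fun i =>
        if i = (T k).1 then (T k).2.image (fun f => f⁻¹ * r) else ∅
      obtain ⟨c, h2, h3⟩ := sat T k E (by
        have h4 : Phi E ≤ 4 := by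
          rw [Phi, Finset.sum_eq_single (T k).1 (fun i _ hi => by simp [E, hi]) (by simp)]
          refine Real.sqrt_le_iff.mpr ⟨by norm_num, ?_⟩
          have := (Finset.card_image_le (s := (T k).2) (f := fun f => f⁻¹ * r)).trans hc
          simp only [E, if_true]
          exact_mod_cast this
        linarith)
      refine ⟨c, h2, fun h => absurd ⟨r, rfl, hr⟩ h, ?_⟩
      intro r' hr' hb f hf
      rw [beg_uniq hb hr ((hq _ _).mp hr'.symm)]
      refine h3 _ _ ?_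
      simp only [E, if_true]
      exact Finset.mem_image_of_mem _ hf
    · exact ⟨c0, h0, fun _ => rfl, fun r h1 h2 => absurd ⟨r, h1, h2⟩ h⟩
  choose cc h1 h2 h3 using key
  refine ⟨fun x => cc (q x) x, fun m hm => ?_, fun x hx => ?_⟩
  · rcases Nat.lt_succ_iff_lt_or_eq.mp hm with h | rfl
    · intro a b x f hf f' hf'
      have := h1 (q x) m h a b x f hf f' hf'
      dsimp only
      rwa [hq' _ _ (inv_mem (lev_mono h.le (a f hf))),
        hq' _ _ (inv_mem (lev_mono h.le (a f' hf'))), hq' _ _ (of_lev h)]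
    · intro _ _ x f hf f' hf'
      dsimp only
      rw [hq' _ _ (inv_mem (hF f hf)), hq' _ _ (inv_mem (hF f' hf'))]
      rcases beg_or m x with h | h
      · exact Or.inl (h3 _ x rfl h f hf)
      · exact Or.inr (h3 _ _ rfl h f' hf')
  · dsimp only
    rw [h2 (q x) fun ⟨r, hr, hb⟩ => hx ⟨hF, hc⟩ r ((hq _ _).mp hr.symm) hb]

theorem not_beg {k m : ℕ} {b : Bool} {x r : GG} (hx : x ∈ startsWith (m, b)) (hkm : k < m)
    (h : r * x⁻¹ ∈ lev k) : ¬ beg k r := by
  rintro ⟨b', hr⟩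
  rcases hL : (r * x⁻¹).toWord with _ | ⟨a, L⟩
  · rw [mul_inv_eq_one.mp (toWord_eq_nil_iff.mp hL)] at hr
    have := congrArg Prod.fst (sw_eq hx hr)
    simp at this
    omega
  · have h1 := sw_mul m x (fun a ha => by rw [sw_eq ha hx]) L a (hL ▸ isReduced_toWord)
      (fun l hl => (h l (hL ▸ hl)).trans hkm)
    rw [← hL, mk_toWord, inv_mul_cancel_right] at h1
    have h2 := h a (by rw [hL]; exact List.mem_cons_self)
    rw [sw_eq h1 hr] at h2
    exact lt_irrefl _ h2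

theorem ex_col2 (T : ℕ → Task) (c0 : GG → Fin 16) :
    ∃ c : GG → Fin 16, (∀ m, Con m (T m) c) ∧ ∀ m b x, x ∈ startsWith (m, b) →
      x ∈ lev (m + 1) → ¬ (∀ f ∈ (T m).2, f ∈ lev m) → c x = c0 x := by
  let P : (GG → Fin 16) → Prop := fun c => ∀ m b x, x ∈ startsWith (m, b) →
      x ∈ lev (m + 1) → ¬ (∀ f ∈ (T m).2, f ∈ lev m) → c x = c0 x
  have hcl : ∀ k, IsClosed {c : GG → Fin 16 | (∀ m < k, Con m (T m) c) ∧ P c} := fun k => by
    refine IsClosed.inter (s₁ := {c | ∀ m < k, Con m (T m) c}) (s₂ := {c | P c}) ?_ ?_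
    · simp only [Set.ofPred_forall]
      exact isClosed_iInter fun m => isClosed_iInter fun _ => con_closed m _
    · simp only [P, Set.ofPred_forall]
      exact isClosed_iInter fun _ => isClosed_iInter fun _ => isClosed_iInter fun x =>
        isClosed_iInter fun _ => isClosed_iInter fun _ => isClosed_iInter fun _ =>
          (isClosed_discrete {i | i = c0 x}).preimage
            (continuous_apply (A := fun _ : GG => Fin 16) x)
  have hne : ∀ k, ∃ c : GG → Fin 16, (∀ m < k, Con m (T m) c) ∧ P c := by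
    intro k
    induction k with
    | zero => exact ⟨c0, fun m hm => absurd hm (Nat.not_lt_zero _), fun _ _ _ _ _ _ => rfl⟩
    | succ k ih =>
      obtain ⟨c, h1, h2⟩ := ih
      obtain ⟨c', h3, h4⟩ := step T k c h1
      refine ⟨c', h3, fun m b x hx hl hT => (h4 x fun hact r hr => ?_).trans (h2 m b x hx hl hT)⟩
      rcases lt_trichotomy k m with h | rfl | h
      · exact not_beg hx h hr
      · exact absurd hact.1 hT
      · intro hb
        exact beg_not hb (by simpa using mul_mem hr (lev_mono h hl))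
  obtain ⟨c, hc⟩ := IsCompact.nonempty_iInter_of_sequence_nonempty_isCompact_isClosed
    (fun k => {c : GG → Fin 16 | (∀ m < k, Con m (T m) c) ∧ P c})
    (fun k c hc => ⟨fun m hm => hc.1 m (Nat.lt_succ_of_lt hm), hc.2⟩) hne (hcl 0).isCompact hcl
  exact ⟨c, fun m => (Set.mem_iInter.mp hc (m + 1)).1 m (Nat.lt_succ_self m),
    (Set.mem_iInter.mp hc 0).2⟩

theorem ex_enum2 : ∃ (T : ℕ → Task) (U : ℕ → Fin 16 × Fin 16),
    (∀ t : Task, ∃ k, T k = t ∧ ∀ f ∈ t.2, f ∈ lev k) ∧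
    ∀ (u : Fin 16 × Fin 16) (n : ℕ), ∃ m, n ≤ m ∧ U m = u ∧ ¬ ∀ f ∈ (T m).2, f ∈ lev m := by
  obtain ⟨e, he⟩ := exists_surjective_nat (Task ⊕ (Fin 16 × Fin 16))
  refine ⟨fun k => (e (Nat.unpair k).1).elim id (fun _ => (0, {of k})),
    fun k => (e (Nat.unpair k).1).elim (fun _ => 0) id, fun t => ?_, fun u n => ?_⟩
  · obtain ⟨a, ha⟩ := he (Sum.inl t)
    obtain ⟨b, hb⟩ := ex_lev t.2
    exact ⟨Nat.pair a b, by simp [ha], fun f hf => lev_mono (Nat.right_le_pair a b) (hb f hf)⟩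
  · obtain ⟨a, ha⟩ := he (Sum.inr u)
    refine ⟨Nat.pair a n, Nat.right_le_pair a n, by simp [ha], fun h => ?_⟩
    simp only [Nat.unpair_pair, ha, Sum.elim_inr, Finset.mem_singleton, forall_eq] at h
    exact beg_not ⟨true, rfl⟩ h

def base (U : ℕ → Fin 16 × Fin 16) (x : GG) : Fin 16 :=
  match x.toWord[0]? with
  | some (m, true) => (U m).1
  | some (m, false) => (U m).2
  | none => 0

theorem main : ∃ c : GG → Fin 16,
    (∀ (i : Fin 16) (F : Finset GG), F.card ≤ 16 → ∃ g, ∀ x, ∀ f ∈ F, ∀ f' ∈ F,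
      c (f⁻¹ * x) ≠ i ∨ c (f'⁻¹ * (g * x)) ≠ i) ∧
    ∀ i j g, ∃ a b, c a = i ∧ c b = j ∧ a * b = g := by
  obtain ⟨T, U, hT, hU⟩ := ex_enum2
  obtain ⟨c, h1, h2⟩ := ex_col2 T (base U)
  refine ⟨c, fun i F hF => ?_, fun i j g => ?_⟩
  · obtain ⟨k, hk, hl⟩ := hT (i, F)
    have h3 := h1 k
    rw [hk] at h3
    exact ⟨of k, h3 hl hF⟩
  · obtain ⟨n, hn⟩ := ex_lev {g}
    obtain ⟨m, h3, h4, h5⟩ := hU (i, j) n
    have hg : g ∈ lev m := lev_mono h3 (hn g (by simp))
    have a1 : of m ∈ startsWith (m, true) := rfl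
    have a2 : (of m)⁻¹ * g ∈ startsWith (m, false) :=
      startsWith_mk_mul (w := (m, false)) g fun h => beg_not ⟨_, h⟩ hg
    refine ⟨of m, (of m)⁻¹ * g, ?_, ?_, by simp⟩
    · rw [h2 m _ _ a1 (of_lev (Nat.lt_succ_self m)) h5, base, a1, ← show (U m).1 = i by rw [h4]]
    · rw [h2 m _ _ a2 (mul_mem (inv_mem (of_lev (Nat.lt_succ_self m)))
        (lev_mono (Nat.le_succ m) hg)) h5, base, a2, ← show (U m).2 = j by rw [h4]]

end

theorem result :
    ¬ (∀ (G : Type) [Group G] (n : ℕ) (A : Fin n → Set G),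
      (∀ i, (A i).Nonempty) →
      Pairwise (fun i j => Disjoint (A i) (A j)) →
      (⋃ i, A i) = Set.univ →
      (∀ i j, A i * A j = A j * A i) →
      ∃ i : Fin n, ∃ F : Finset G, F.card ≤ n ∧
        (F : Set G) * (A i * (A i)⁻¹) = Set.univ) := by
  intro hall
  obtain ⟨c, h1, h2⟩ := main
  have hu : ∀ i j, {x | c x = i} * {x | c x = j} = Set.univ := fun i j =>
    Set.eq_univ_of_forall fun g => by
      obtain ⟨a, b, ha, hb, h⟩ := h2 i j g
      exact ⟨a, ha, b, hb, h⟩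
  obtain ⟨i, F, hF, h⟩ := hall S03022.GG 16 (fun i => {x | c x = i})
    (fun i => by
      obtain ⟨a, _, ha, _⟩ := h2 i i 1
      exact ⟨a, ha⟩)
    (fun i j hij => Set.disjoint_left.mpr fun x h1 h2 => hij (h1.symm.trans h2))
    (Set.eq_univ_of_forall fun x => Set.mem_iUnion.mpr ⟨c x, rfl⟩)
    (fun i j => by rw [hu, hu])
  obtain ⟨g, hg⟩ := h1 i F hF
  obtain ⟨f, hf, -⟩ := Set.eq_univ_iff_forall.mp h 1
  obtain ⟨f', hf', _, ⟨a, ha, b, hb, rfl⟩, h3⟩ := Set.eq_univ_iff_forall.mp h (g * f)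
  rcases hg (f * b⁻¹) f hf f' hf' with h4 | h4
  · exact h4 (by simpa using hb)
  · rw [← mul_assoc g, ← h3] at h4
    exact h4 (by simpa [mul_assoc] using ha)

end Pool.Agent.S01146
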