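import Pool.Statements.S01148
import Pool.Agent.H.MP_345b41_al.Main

set_option autoImplicit false
open Pool Pool.MP_345b41_al

namespace Pool.Agent.S01148

theorem result :
    ¬ (∀ (H : Type) [Group H] [Lattice H] [MulLeftMono H] [MulRightMono H] [Countable H],
      ∃ (G : Type) (_ : CommGroup G) (_ : Lattice G),
        MulLeftMono G ∧ Nonempty (H ≃o G)) := by
  exact fun h => H.MP_345b41_al.main (h H.MP_345b41_al.H)

end Pool.Agent.S01148
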