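import Pool.Statements.S01178
-- import your own Pool.Agent.* helpers here

set_option autoImplicit false
open Pool Pool.MP_36bee5_al

namespace Pool.Agent.S01178


noncomputable section
open QuadraticAlgebra

abbrev P2 := Polynomial (Polynomial ℚ)
abbrev px : P2 := Polynomial.X
abbrev pz : P2 := Polynomial.C Polynomial.X
abbrev pc (q : ℚ) : P2 := Polynomial.C (Polynomial.C q)
abbrev B1 := QuadraticAlgebra P2 (-(px * px)) 0
abbrev B := QuadraticAlgebra B1 (⟨-(pz * pz), 0⟩ : B1) 0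

def n4 (a b c d : P2) : B := ⟨⟨a, b⟩, ⟨c, d⟩⟩

theorem n4_inj {a b c d a' b' c' d' : P2} :
    n4 a b c d = n4 a' b' c' d' ↔ a = a' ∧ b = b' ∧ c = c' ∧ d = d' := by
  constructor
  · intro h
    exact ⟨congrArg (fun r : B => r.re.re) h, congrArg (fun r : B => r.re.im) h,
      congrArg (fun r : B => r.im.re) h, congrArg (fun r : B => r.im.im) h⟩
  · rintro ⟨rfl, rfl, rfl, rfl⟩; rfl

theorem n4_add (a b c d a' b' c' d' : P2) :
    n4 a b c d + n4 a' b' c' d' = n4 (a + a') (b + b') (c + c') (d + d') := rfl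
theorem n4_sub (a b c d a' b' c' d' : P2) :
    n4 a b c d - n4 a' b' c' d' = n4 (a - a') (b - b') (c - c') (d - d') := rfl
theorem n4_zero : (0 : B) = n4 0 0 0 0 := rfl
theorem n4_one : (1 : B) = n4 1 0 0 0 := rfl
theorem n4_mul (a b c d a' b' c' d' : P2) :
    n4 a b c d * n4 a' b' c' d' =
      n4 (a * a' - px * px * (b * b') - pz * pz * (c * c') + px * px * pz * pz * (d * d'))
        (a * b' + b * a' - pz * pz * (c * d' + d * c'))
        (a * c' + c * a' - px * px * (b * d' + d * b'))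
        (a * d' + b * c' + c * b' + d * a') := by
  ext : 2 <;> simp [n4] <;> ring

theorem n4_surj (r : B) : ∃ a b c d, r = n4 a b c d := ⟨r.re.re, r.re.im, r.im.re, r.im.im, rfl⟩

def inc : P2 →+* B where
  toFun a := n4 a 0 0 0
  map_one' := rfl
  map_zero' := rfl
  map_add' a b := by simp [n4_add]
  map_mul' a b := by simp [n4_mul]

abbrev P4 := MvPolynomial (Fin 4) ℚ
open MvPolynomial in
def J : Ideal P4 := Ideal.span {X 0 * X 0 + X 1 * X 1, X 2 * X 2 + X 3 * X 3}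
abbrev R := P4 ⧸ J
def x : R := Ideal.Quotient.mk J (MvPolynomial.X 0)
def y : R := Ideal.Quotient.mk J (MvPolynomial.X 1)
def z : R := Ideal.Quotient.mk J (MvPolynomial.X 2)
def t : R := Ideal.Quotient.mk J (MvPolynomial.X 3)
def k : ℚ →+* R := (Ideal.Quotient.mk J).comp MvPolynomial.C

theorem yy : y * y = -(x * x) := by
  have : Ideal.Quotient.mk J (MvPolynomial.X 0 * MvPolynomial.X 0 +
      MvPolynomial.X 1 * MvPolynomial.X 1) = 0 :=
    Ideal.Quotient.eq_zero_iff_mem.2 (Ideal.subset_span (by simp))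
  simp only [map_add, map_mul] at this
  unfold x y; linear_combination this

theorem tt : t * t = -(z * z) := by
  have : Ideal.Quotient.mk J (MvPolynomial.X 2 * MvPolynomial.X 2 +
      MvPolynomial.X 3 * MvPolynomial.X 3) = 0 :=
    Ideal.Quotient.eq_zero_iff_mem.2 (Ideal.subset_span (by simp))
  simp only [map_add, map_mul] at this
  unfold z t; linear_combination this

def φ0 : P4 →+* B := MvPolynomial.eval₂Hom (inc.comp (Polynomial.C.comp Polynomial.C))
  ![n4 px 0 0 0, n4 0 1 0 0, n4 pz 0 0 0, n4 0 0 1 0]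

def φ : R →+* B := Ideal.Quotient.lift J φ0 (by
  intro a ha
  have : J ≤ RingHom.ker φ0 := by
    apply Ideal.span_le.2
    rintro _ (rfl | rfl) <;> simp [φ0, n4_mul, n4_add, n4_zero]
  exact this ha)

@[simp] theorem φx : φ x = n4 px 0 0 0 := by simp [φ, x, φ0]
@[simp] theorem φy : φ y = n4 0 1 0 0 := by simp [φ, y, φ0]
@[simp] theorem φz : φ z = n4 pz 0 0 0 := by simp [φ, z, φ0]
@[simp] theorem φt : φ t = n4 0 0 1 0 := by simp [φ, t, φ0]
@[simp] theorem φk (q : ℚ) : φ (k q) = n4 (pc q) 0 0 0 := by simp [φ, k, φ0, inc]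

def ι : P2 →+* R := Polynomial.eval₂RingHom (Polynomial.eval₂RingHom k z) x

theorem ιx : ι px = x := by simp [ι]
theorem ιz : ι pz = z := by simp [ι]
theorem ιc (q : ℚ) : ι (pc q) = k q := by simp [ι]

theorem φι (a : P2) : φ (ι a) = n4 a 0 0 0 := by
  have : φ.comp ι = inc := by
    apply Polynomial.ringHom_ext
    · intro b
      have : (φ.comp ι).comp Polynomial.C = inc.comp Polynomial.C := by
        apply Polynomial.ringHom_ext
        · intro q; simp [ιc, inc]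
        · simp [ιz, inc]
      exact DFunLike.congr_fun this b
    · simp [ιx, inc]
  exact DFunLike.congr_fun this a

def N (a b c d : P2) : R := ι a + ι b * y + ι c * t + ι d * (y * t)

theorem φN (a b c d : P2) : φ (N a b c d) = n4 a b c d := by
  simp [N, φι, n4_mul, n4_add]

theorem N_surj (r : R) : ∃ a b c d, r = N a b c d := by
  obtain ⟨p, rfl⟩ := Ideal.Quotient.mk_surjective r
  induction p using MvPolynomial.induction_on with
  | C q => exact ⟨pc q, 0, 0, 0, by simp [N, ιc, k]⟩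
  | add p q hp hq =>
    obtain ⟨a, b, c, d, h⟩ := hp
    obtain ⟨a', b', c', d', h'⟩ := hq
    refine ⟨a + a', b + b', c + c', d + d', ?_⟩
    rw [map_add, h, h']; simp only [N, map_add]; ring
  | mul_X p i hp =>
    obtain ⟨a, b, c, d, h⟩ := hp
    rw [map_mul, h]
    fin_cases i
    · refine ⟨a * px, b * px, c * px, d * px, ?_⟩
      show _ * x = _
      simp only [N, map_mul, ιx]; ring
    · refine ⟨-(px * px * b), a, -(px * px * d), c, ?_⟩
      show _ * y = _
      simp only [N, map_mul, map_neg, ιx]; linear_combination (ι b + ι d * t) * yy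
    · refine ⟨a * pz, b * pz, c * pz, d * pz, ?_⟩
      show _ * z = _
      simp only [N, map_mul, ιz]; ring
    · refine ⟨-(pz * pz * c), -(pz * pz * d), a, b, ?_⟩
      show _ * t = _
      simp only [N, map_mul, map_neg, ιz]; linear_combination (ι c + ι d * y) * tt

theorem φ_inj : Function.Injective φ := by
  rw [injective_iff_map_eq_zero]
  intro r hr
  obtain ⟨a, b, c, d, rfl⟩ := N_surj r
  rw [φN, n4_zero, n4_inj] at hr
  obtain ⟨rfl, rfl, rfl, rfl⟩ := hr
  simp [N]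

theorem dv (a : P2) : ∃ a', a = Polynomial.C (a.coeff 0) + px * a' :=
  ⟨a.divX, by rw [add_comm, mul_comm]; exact (Polynomial.divX_mul_X_add a).symm⟩

theorem dv2 (a : P2) (h : (a.coeff 0).coeff 0 = 0) : ∃ a1 a2, a = px * a1 + pz * a2 := by
  obtain ⟨a', ha⟩ := dv a
  obtain ⟨q, hq⟩ := Polynomial.X_dvd_iff.2 h
  exact ⟨a', Polynomial.C q, by rw [ha, hq, map_mul]; simp [add_comm]⟩

theorem c1 (r : R) (h : r * x = 0) : r = 0 := by
  obtain ⟨a, b, c, d, rfl⟩ := N_surj r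
  have := congrArg φ h
  simp [φN, n4_mul, n4_zero, n4_inj] at this
  obtain ⟨rfl, rfl, rfl, rfl⟩ := this
  simp [N]

theorem c2 (r : R) (h : r * y = 0) : r = 0 := by
  obtain ⟨a, b, c, d, rfl⟩ := N_surj r
  have := congrArg φ h
  simp [φN, n4_mul, n4_zero, n4_inj] at this
  obtain ⟨rfl, rfl, rfl, rfl⟩ := this
  simp [N]

theorem c3 (r u : R) (h : r * z = u * x) : ∃ v, r = v * x := by
  obtain ⟨a, b, c, d, rfl⟩ := N_surj r
  obtain ⟨a', b', c', d', rfl⟩ := N_surj u
  have := congrArg φ h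
  simp [φN, n4_mul, n4_inj] at this
  have aux : ∀ a a' : P2, a * pz = a' * px → ∃ e, a = px * e := by
    intro a a' h
    have := congrArg (fun p : P2 => p.coeff 0) h
    simp at this
    exact Polynomial.X_dvd_iff.2 this
  obtain ⟨h1, h2, h3, h4⟩ := this
  obtain ⟨a, rfl⟩ := aux _ _ h1
  obtain ⟨b, rfl⟩ := aux _ _ h2
  obtain ⟨c, rfl⟩ := aux _ _ h3
  obtain ⟨d, rfl⟩ := aux _ _ h4
  exact ⟨N a b c d, by simp only [N, map_mul, ιx]; ring⟩

theorem c4 (r u v : R) (h : r * y = u * x + v * z) : ∃ u v w, r = u * x + v * y + w * z := by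
  obtain ⟨a, b, c, d, rfl⟩ := N_surj r
  obtain ⟨a', b', c', d', rfl⟩ := N_surj u
  obtain ⟨a'', b'', c'', d'', rfl⟩ := N_surj v
  have := congrArg φ h
  simp [φN, n4_mul, n4_add, n4_inj] at this
  obtain ⟨-, h2, -, h4⟩ := this
  refine ⟨ι b' + ι d' * t, ι b + ι d * t, ι b'' + ι d'' * t, ?_⟩
  simp only [N, h2, h4, map_mul, map_add, ιx, ιz]; ring

theorem c5 (r u v w : R) (h : r * t = u * x + v * y + w * z) :
    ∃ u v w s, r = u * x + v * y + w * z + s * t := by
  obtain ⟨a, b, c, d, rfl⟩ := N_surj r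
  obtain ⟨a', b', c', d', rfl⟩ := N_surj u
  obtain ⟨a'', b'', c'', d'', rfl⟩ := N_surj v
  obtain ⟨a3, b3, c3, d3, rfl⟩ := N_surj w
  have := congrArg φ h
  simp [φN, n4_mul, n4_add, n4_inj] at this
  obtain ⟨-, -, h3, -⟩ := this
  refine ⟨ι c' - x * ι d'', ι b + ι d * t, ι c3, ι c, ?_⟩
  simp only [N, h3, map_mul, map_add, map_neg, ιx, ιz]; ring

theorem c6 (r u : R) (h : r * t = u * y) : ∃ v, r = v * y := by
  obtain ⟨a, b, c, d, rfl⟩ := N_surj r
  obtain ⟨a', b', c', d', rfl⟩ := N_surj u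
  have := congrArg φ h
  simp [φN, n4_mul, n4_inj] at this
  obtain ⟨h1, -, h3, -⟩ := this
  have : px ^ 2 ∣ c := by
    rw [Polynomial.X_pow_dvd_iff]
    intro i hi
    have := congrArg (fun p : P2 => p.coeff i) h1
    simp only [mul_assoc, Polynomial.coeff_C_mul] at this
    interval_cases i <;> simpa [Polynomial.coeff_X_mul] using this
  obtain ⟨e, rfl⟩ := this
  refine ⟨ι b + ι d * t + ι d' * y - ι e * y * t, ?_⟩
  simp only [N, h3, map_mul, map_pow, map_neg, ιx]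
  linear_combination (ι e * t - ι d') * yy

theorem c7 (r u v : R) (h : r * x = u * y + v * t) : ∃ u v w, r = u * x + v * y + w * t := by
  obtain ⟨a, b, c, d, rfl⟩ := N_surj r
  obtain ⟨a', b', c', d', rfl⟩ := N_surj u
  obtain ⟨a'', b'', c'', d'', rfl⟩ := N_surj v
  have := congrArg φ h
  simp [φN, n4_mul, n4_add, n4_inj] at this
  obtain ⟨h1, -, -, -⟩ := this
  obtain ⟨e, he⟩ := dv a
  have := congrArg (fun p : P2 => p.coeff 1) h1
  simp only [mul_assoc, Polynomial.coeff_add, Polynomial.coeff_neg, Polynomial.coeff_C_mul] at this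
  simp [Polynomial.coeff_X_mul, Polynomial.coeff_mul_X] at this
  rw [this] at he
  refine ⟨ι e, ι b + ι d * t, ι c + ι (Polynomial.C (c''.coeff 1)) * t, ?_⟩
  simp only [N]
  rw [he]
  simp only [map_mul, map_add, map_neg, ιx, ιz]
  linear_combination (-ι (Polynomial.C (c''.coeff 1))) * tt

theorem c8 (r u v w : R) (h : r * z = u * x + v * y + w * t) :
    ∃ u v w s, r = u * x + v * y + w * z + s * t := by
  obtain ⟨a, b, c, d, rfl⟩ := N_surj r
  obtain ⟨a', b', c', d', rfl⟩ := N_surj u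
  obtain ⟨a'', b'', c'', d'', rfl⟩ := N_surj v
  obtain ⟨a3, b3, c3, d3, rfl⟩ := N_surj w
  have := congrArg φ h
  simp [φN, n4_mul, n4_add, n4_inj] at this
  obtain ⟨h1, -, -, -⟩ := this
  have := congrArg (fun p : P2 => (p.coeff 0).coeff 1) h1
  simp [mul_assoc, Polynomial.coeff_X_mul, Polynomial.coeff_mul_X] at this
  obtain ⟨a1, a2, rfl⟩ := dv2 a this
  refine ⟨ι a1, ι b + ι d * t, ι a2, ι c, ?_⟩
  simp only [N, map_mul, map_add, ιx, ιz]; ring

def Lin (r : R) : Prop := ∃ p : P4, p.IsHomogeneous 1 ∧ Ideal.Quotient.mk J p = r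

theorem lin_x : Lin x := ⟨_, MvPolynomial.isHomogeneous_X _ _, rfl⟩
theorem lin_y : Lin y := ⟨_, MvPolynomial.isHomogeneous_X _ _, rfl⟩
theorem lin_z : Lin z := ⟨_, MvPolynomial.isHomogeneous_X _ _, rfl⟩
theorem lin_t : Lin t := ⟨_, MvPolynomial.isHomogeneous_X _ _, rfl⟩

theorem lin_form0 (p : P4) (hp : p ∈ MvPolynomial.homogeneousSubmodule (Fin 4) ℚ 1) :
    ∃ α β γ δ : ℚ, Ideal.Quotient.mk J p = k α * x + k β * y + k γ * z + k δ * t := by
  rw [MvPolynomial.homogeneousSubmodule_one_eq_span_X] at hp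
  induction hp using Submodule.span_induction with
  | mem p hp =>
    obtain ⟨i, rfl⟩ := hp
    fin_cases i
    · exact ⟨1, 0, 0, 0, by simp [x]⟩
    · exact ⟨0, 1, 0, 0, by simp [y]⟩
    · exact ⟨0, 0, 1, 0, by simp [z]⟩
    · exact ⟨0, 0, 0, 1, by simp [t]⟩
  | zero => exact ⟨0, 0, 0, 0, by simp⟩
  | add p q _ _ hp hq =>
    obtain ⟨a, b, c, d, h⟩ := hp
    obtain ⟨a', b', c', d', h'⟩ := hq
    exact ⟨a + a', b + b', c + c', d + d', by rw [map_add, h, h']; simp only [map_add]; ring⟩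
  | smul q p _ hp =>
    obtain ⟨a, b, c, d, h⟩ := hp
    refine ⟨q * a, q * b, q * c, q * d, ?_⟩
    rw [MvPolynomial.smul_eq_C_mul, map_mul, h]
    show k q * _ = _
    simp only [map_mul]; ring

theorem lin_form {r : R} (h : Lin r) :
    ∃ α β γ δ : ℚ, r = k α * x + k β * y + k γ * z + k δ * t := by
  obtain ⟨p, hp, rfl⟩ := h
  exact lin_form0 p hp

theorem quad_form (p : P4) (hp : p.IsHomogeneous 2) :
    ∃ q : Fin 8 → ℚ, φ (Ideal.Quotient.mk J p) =
      n4 (pc (q 0) * (px * px) + pc (q 1) * (px * pz) + pc (q 2) * (pz * pz))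
        (pc (q 3) * px + pc (q 4) * pz) (pc (q 5) * px + pc (q 6) * pz) (pc (q 7)) := by
  have hp' : p ∈ MvPolynomial.homogeneousSubmodule (Fin 4) ℚ 1 *
      MvPolynomial.homogeneousSubmodule (Fin 4) ℚ 1 := by
    rw [← pow_two, MvPolynomial.homogeneousSubmodule_one_pow]; exact hp
  clear hp
  induction hp' using Submodule.mul_induction_on' with
  | mem_mul_mem m hm n hn =>
    obtain ⟨a, b, c, d, h⟩ := lin_form0 m hm
    obtain ⟨a', b', c', d', h'⟩ := lin_form0 n hn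
    refine ⟨![a * a' - b * b', a * c' + c * a', c * c' - d * d', a * b' + b * a',
      c * b' + b * c', a * d' + d * a', c * d' + d * c', b * d' + d * b'], ?_⟩
    rw [map_mul, h, h']
    simp [n4_mul, n4_add, n4_inj]
    simp only [pc, map_add, map_mul, map_sub]
    refine ⟨by ring, by ring, by ring, by first | trivial | ring⟩
  | add p _ q _ hp hq =>
    obtain ⟨a, h⟩ := hp
    obtain ⟨b, h'⟩ := hq
    refine ⟨a + b, ?_⟩
    rw [map_add, map_add, h, h']
    simp [n4_add, n4_inj]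
    simp only [pc, map_add, map_mul, map_sub]
    refine ⟨by ring, by ring, by ring, by first | trivial | ring⟩

theorem prod_form (r : R) (hr : r ∈ Ideal.span {x, z} * Ideal.span {y, t}) :
    ∃ r0 r1 r2 r3 : R, r = r0 * (x * y) + r1 * (x * t) + r2 * (z * y) + r3 * (z * t) := by
  induction hr using Submodule.mul_induction_on' with
  | mem_mul_mem m hm n hn =>
    obtain ⟨a, b, rfl⟩ := Ideal.mem_span_pair.1 hm
    obtain ⟨c, d, rfl⟩ := Ideal.mem_span_pair.1 hn
    exact ⟨a * c, a * d, b * c, b * d, by ring⟩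
  | add p _ q _ hp hq =>
    obtain ⟨a, b, c, d, rfl⟩ := hp
    obtain ⟨a', b', c', d', rfl⟩ := hq
    exact ⟨a + a', b + b', c + c', d + d', by ring⟩

theorem gen_form (r : R) (hr : r ∈ Ideal.span {x, z} * Ideal.span {y, t})
    (h2 : ∃ p : P4, p.IsHomogeneous 2 ∧ Ideal.Quotient.mk J p = r) :
    ∃ q : Fin 4 → ℚ, φ r = n4 0 (pc (q 0) * px + pc (q 1) * pz) (pc (q 2) * px + pc (q 3) * pz) 0 := by
  obtain ⟨p, hp, rfl⟩ := h2
  obtain ⟨q, hq⟩ := quad_form p hp
  obtain ⟨r0, r1, r2, r3, hr⟩ := prod_form _ hr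
  obtain ⟨a0, b0, c0, d0, rfl⟩ := N_surj r0
  obtain ⟨a1, b1, c1, d1, rfl⟩ := N_surj r1
  obtain ⟨a2, b2, c2, d2, rfl⟩ := N_surj r2
  obtain ⟨a3, b3, c3, d3, rfl⟩ := N_surj r3
  have h := hq
  rw [hr] at h
  simp [φN, n4_mul, n4_add, n4_inj] at h
  obtain ⟨h1, -, -, h4⟩ := h
  have e0 := congrArg (fun p : P2 => (p.coeff 2).coeff 0) h1
  have e1 := congrArg (fun p : P2 => (p.coeff 1).coeff 1) h1
  have e2 := congrArg (fun p : P2 => (p.coeff 0).coeff 2) h1
  have e7 := congrArg (fun p : P2 => (p.coeff 0).coeff 0) h4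
  simp [mul_assoc, Polynomial.coeff_X_mul, Polynomial.coeff_mul_X, Polynomial.coeff_X,
    Polynomial.coeff_C] at e0 e1 e2 e7
  refine ⟨![q 3, q 4, q 5, q 6], ?_⟩
  rw [hq, ← e0, ← e1, ← e2, ← e7]
  simp [pc]

/-- coefficient functionals -/
def ca (i j : ℕ) : R →+ ℚ where
  toFun r := ((φ r).re.re.coeff i).coeff j
  map_zero' := by simp
  map_add' := by simp
def cc (i j : ℕ) : R →+ ℚ where
  toFun r := ((φ r).im.re.coeff i).coeff j
  map_zero' := by simp
  map_add' := by simp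

theorem ca_eq (i j : ℕ) (r : R) {a b c d : P2} (h : φ r = n4 a b c d) :
    ca i j r = (a.coeff i).coeff j := by simp [ca, h, n4]
theorem cc_eq (i j : ℕ) (r : R) {a b c d : P2} (h : φ r = n4 a b c d) :
    cc i j r = (c.coeff i).coeff j := by simp [cc, h, n4]

theorem no_res (b0 b1 : ℕ) (g : Fin b0 → R) (A : Matrix (Fin b0) (Fin b1) R)
    (hg : ∀ j, ∃ p : P4, p.IsHomogeneous 2 ∧ Ideal.Quotient.mk J p = g j)
    (hA : ∀ a c, Lin (A a c))
    (hs : Ideal.span (Set.range g) = Ideal.span {x, z} * Ideal.span {y, t})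
    (hz : ∀ v : Fin b0 → R, ∑ j, v j * g j = 0 ↔ ∃ w, A.mulVec w = v) : False := by
  have hq := fun j => gen_form (g j) (hs ▸ Ideal.subset_span ⟨j, rfl⟩) (hg j)
  choose q hq using hq
  have hl := fun a c => lin_form (hA a c)
  choose α β γ δ hl using hl
  have col : ∀ i, ∑ j, A j i * g j = 0 := fun i =>
    (hz fun j => A j i).2 ⟨Pi.single i 1, by ext j; simp⟩
  have hα : ∀ i, ∑ j, α j i * q j 2 = 0 := by
    intro i
    have := congrArg (cc 2 0) (col i)
    rw [map_sum, map_zero] at this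
    rw [← this]
    refine Finset.sum_congr rfl fun j _ => ?_
    rw [cc_eq 2 0 _ (by rw [map_mul, hq, hl]; simp only [map_add, map_mul, φk, φx, φy, φz, φt, n4_mul, n4_add]; rfl)]
    simp [mul_add, add_mul, mul_assoc, Polynomial.coeff_X_mul, Polynomial.coeff_mul_X,
      Polynomial.coeff_X, Polynomial.coeff_C]
  have hδ : ∀ i, ∑ j, δ j i * q j 2 = 0 := by
    intro i
    have := congrArg (ca 1 2) (col i)
    rw [map_sum, map_zero] at this
    rw [← neg_eq_zero, ← this, ← Finset.sum_neg_distrib]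
    refine Finset.sum_congr rfl fun j _ => ?_
    rw [ca_eq 1 2 _ (by rw [map_mul, hq, hl]; simp only [map_add, map_mul, φk, φx, φy, φz, φt, n4_mul, n4_add]; rfl)]
    simp [mul_add, add_mul, mul_assoc, Polynomial.coeff_X_mul, Polynomial.coeff_mul_X,
      Polynomial.coeff_X, Polynomial.coeff_C]
  have m1 : x * t ∈ Ideal.span (Set.range g) := hs ▸
    Ideal.mul_mem_mul (Ideal.subset_span (by simp)) (Ideal.subset_span (by simp))
  have m2 : z * y ∈ Ideal.span (Set.range g) := hs ▸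
    Ideal.mul_mem_mul (Ideal.subset_span (by simp)) (Ideal.subset_span (by simp))
  obtain ⟨c1, hc1⟩ := Ideal.mem_span_range_iff_exists_fun.1 m1
  obtain ⟨c2, hc2⟩ := Ideal.mem_span_range_iff_exists_fun.1 m2
  obtain ⟨w, hw⟩ := (hz fun j => x * t * c1 j - z * y * c2 j).1 (by
    simp only [sub_mul, mul_assoc (x * t), mul_assoc (z * y), Finset.sum_sub_distrib,
      ← Finset.mul_sum, hc1, hc2]
    linear_combination (x * x) * tt - (z * z) * yy)
  have e1 : ∑ j, cc 1 0 (x * t * c1 j - z * y * c2 j) * q j 2 = 1 := by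
    have := congrArg (cc 1 0) hc1
    rw [map_sum, cc_eq 1 0 (x * t) (by simp only [map_mul, φx, φt, n4_mul]; rfl)] at this
    simp at this
    rw [← this]
    refine Finset.sum_congr rfl fun j _ => ?_
    obtain ⟨a, b, c, d, h1⟩ := n4_surj (φ (c1 j))
    obtain ⟨a', b', c', d', h2⟩ := n4_surj (φ (c2 j))
    rw [cc_eq 1 0 (c1 j * g j) (by rw [map_mul, hq, h1, n4_mul]),
      cc_eq 1 0 _ (by simp only [map_sub, map_mul, φx, φy, φz, φt, h1, h2, n4_mul, n4_sub]; rfl)]
    simp [mul_add, add_mul, ← mul_assoc, Polynomial.coeff_X_mul, Polynomial.coeff_mul_X,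
      Polynomial.coeff_X, Polynomial.coeff_C]
    simp [mul_add, add_mul, mul_assoc, Polynomial.coeff_X_mul, Polynomial.coeff_mul_X,
      Polynomial.coeff_X, Polynomial.coeff_C]
  have e2 : ∀ j i, cc 1 0 (A j i * w i) = α j i * cc 0 0 (w i) + δ j i * ca 1 0 (w i) := by
    intro j i
    obtain ⟨a, b, c, d, h1⟩ := n4_surj (φ (w i))
    rw [cc_eq 0 0 _ h1, ca_eq 1 0 _ h1, cc_eq 1 0 _ (by
      rw [map_mul, h1, hl]; simp only [map_add, map_mul, φk, φx, φy, φz, φt, n4_mul, n4_add]; rfl)]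
    simp [mul_add, add_mul, mul_assoc, Polynomial.coeff_X_mul, Polynomial.coeff_mul_X,
      Polynomial.coeff_X, Polynomial.coeff_C]
  have e3 : ∀ j, cc 1 0 (x * t * c1 j - z * y * c2 j) =
      ∑ i, (α j i * cc 0 0 (w i) + δ j i * ca 1 0 (w i)) := by
    intro j
    rw [← congrFun hw j, Matrix.mulVec, dotProduct, map_sum]
    exact Finset.sum_congr rfl fun i _ => e2 j i
  simp only [e3, Finset.sum_mul] at e1
  rw [Finset.sum_comm] at e1
  have : ∀ i, ∑ j, (α j i * cc 0 0 (w i) + δ j i * ca 1 0 (w i)) * q j 2 = 0 := by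
    intro i
    have : ∑ j, (α j i * cc 0 0 (w i) + δ j i * ca 1 0 (w i)) * q j 2 =
        cc 0 0 (w i) * ∑ j, α j i * q j 2 + ca 1 0 (w i) * ∑ j, δ j i * q j 2 := by
      rw [Finset.mul_sum, Finset.mul_sum, ← Finset.sum_add_distrib]
      exact Finset.sum_congr rfl fun j _ => by ring
    rw [this, hα, hδ]; simp
  simp [this] at e1

theorem span_lin (S : Set R) (hS : ∀ s ∈ S, Lin s) :
    Ideal.span S = Ideal.span {r : R | r ∈ Ideal.span S ∧ Lin r} :=
  le_antisymm (Ideal.span_mono fun s hs => ⟨Ideal.subset_span hs, hS s hs⟩)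
    (Ideal.span_le.2 fun _ hs => hs.1)

theorem mem3 (a b c r : R) : r ∈ Ideal.span {a, b, c} ↔ ∃ u v w, r = u * a + v * b + w * c := by
  simp only [Ideal.mem_span_insert, Ideal.mem_span_singleton']
  constructor
  · rintro ⟨u, _, ⟨v, _, ⟨w, rfl⟩, rfl⟩, rfl⟩; exact ⟨u, v, w, by ring⟩
  · rintro ⟨u, v, w, rfl⟩; exact ⟨u, _, ⟨v, _, ⟨w, rfl⟩, rfl⟩, by ring⟩

theorem mem4 (a b c d r : R) :
    r ∈ Ideal.span {a, b, c, d} ↔ ∃ u v w s, r = u * a + v * b + w * c + s * d := by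
  rw [Ideal.mem_span_insert]
  simp only [mem3]
  constructor
  · rintro ⟨u, _, ⟨v, w, s, rfl⟩, rfl⟩; exact ⟨u, v, w, s, by ring⟩
  · rintro ⟨u, v, w, s, rfl⟩; exact ⟨u, _, ⟨v, w, s, rfl⟩, by ring⟩

theorem colon (I' C : Ideal R) (a : R) (h : ∀ r, r ∈ C ↔ r * a ∈ I') (r : R) :
    r ∈ C ↔ ∀ s ∈ I' ⊔ Ideal.span {a}, r * s ∈ I' := by
  rw [h]
  constructor
  · intro hr s hs
    obtain ⟨u, hu, v, hv, rfl⟩ := Submodule.mem_sup.1 hs
    obtain ⟨c, rfl⟩ := Ideal.mem_span_singleton'.1 hv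
    rw [mul_add, mul_left_comm]
    exact I'.add_mem (I'.mul_mem_left _ hu) (I'.mul_mem_left _ hr)
  · intro hr
    exact hr a (Ideal.mem_sup_right (Ideal.subset_span rfl))

def F : Set (Ideal R) := {⊥, Ideal.span {x}, Ideal.span {x, z}, Ideal.span {x, y, z},
  Ideal.span {y}, Ideal.span {y, t}, Ideal.span {x, y, t}, Ideal.span {x, y, z, t}}

theorem step (I : Ideal R) (I' : Ideal R) (h1 : I' ∈ F) (a : R) (ha : Lin a)
    (e : I = I' ⊔ Ideal.span {a}) (C : Ideal R) (hC : C ∈ F) (h : ∀ r, r ∈ C ↔ r * a ∈ I') :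
    ∃ I' ∈ F, I' ≤ I ∧ (∃ a : R, Lin a ∧ I = I' ⊔ Ideal.span {a}) ∧
      ∃ C ∈ F, ∀ r : R, r ∈ C ↔ ∀ y ∈ I, r * y ∈ I' :=
  ⟨I', h1, e ▸ le_sup_left, ⟨a, ha, e⟩, C, hC, e ▸ colon I' C a h⟩

theorem filt (I : Ideal R) (hI : I ∈ F) (h0 : I ≠ ⊥) :
    ∃ I' ∈ F, I' ≤ I ∧ (∃ a : R, Lin a ∧ I = I' ⊔ Ideal.span {a}) ∧
      ∃ C ∈ F, ∀ r : R, r ∈ C ↔ ∀ y ∈ I, r * y ∈ I' := by
  rcases hI with rfl | rfl | rfl | rfl | rfl | rfl | rfl | rfl
  · exact absurd rfl h0
  · refine step _ ⊥ (by simp [F]) x lin_x (by simp) ⊥ (by simp [F]) fun r => ?_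
    exact ⟨fun h => by simp [Ideal.mem_bot.1 h], fun h => c1 r h⟩
  · refine step _ (Ideal.span {x}) (by simp [F]) z lin_z (Ideal.span_insert _ _)
      (Ideal.span {x}) (by simp [F]) fun r => ?_
    refine ⟨fun h => Ideal.mul_mem_right _ _ h, fun h => ?_⟩
    obtain ⟨u, hu⟩ := Ideal.mem_span_singleton'.1 h
    obtain ⟨v, hv⟩ := c3 r u hu.symm
    exact Ideal.mem_span_singleton'.2 ⟨v, hv.symm⟩
  · refine step _ (Ideal.span {x, z}) (by simp [F]) y lin_y ?_
      (Ideal.span {x, y, z}) (by simp [F]) fun r => ?_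
    · rw [← Ideal.span_union]; congr 1; ext; simp; tauto
    rw [mem3, Ideal.mem_span_pair]
    constructor
    · rintro ⟨u, v, w, rfl⟩
      exact ⟨u * y - v * x, w * y, by linear_combination (-v) * yy⟩
    · rintro ⟨u, v, h⟩; exact c4 r u v h.symm
  · refine step _ ⊥ (by simp [F]) y lin_y (by simp) ⊥ (by simp [F]) fun r => ?_
    exact ⟨fun h => by simp [Ideal.mem_bot.1 h], fun h => c2 r h⟩
  · refine step _ (Ideal.span {y}) (by simp [F]) t lin_t (Ideal.span_insert _ _)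
      (Ideal.span {y}) (by simp [F]) fun r => ?_
    refine ⟨fun h => Ideal.mul_mem_right _ _ h, fun h => ?_⟩
    obtain ⟨u, hu⟩ := Ideal.mem_span_singleton'.1 h
    obtain ⟨v, hv⟩ := c6 r u hu.symm
    exact Ideal.mem_span_singleton'.2 ⟨v, hv.symm⟩
  · refine step _ (Ideal.span {y, t}) (by simp [F]) x lin_x ?_
      (Ideal.span {x, y, t}) (by simp [F]) fun r => ?_
    · rw [← Ideal.span_union]; congr 1; ext; simp
    rw [mem3, Ideal.mem_span_pair]
    constructor
    · rintro ⟨u, v, w, rfl⟩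
      exact ⟨v * x - u * y, w * x, by linear_combination (-u) * yy⟩
    · rintro ⟨u, v, h⟩; exact c7 r u v h.symm
  · refine step _ (Ideal.span {x, y, z}) (by simp [F]) t lin_t ?_
      (Ideal.span {x, y, z, t}) (by simp [F]) fun r => ?_
    · rw [← Ideal.span_union]; congr 1; ext; simp; tauto
    rw [mem3, mem4]
    constructor
    · rintro ⟨u, v, w, s, rfl⟩
      exact ⟨u * t, v * t, w * t - s * z, by linear_combination s * tt⟩
    · rintro ⟨u, v, w, h⟩; exact c5 r u v w h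

theorem J_hom (p : P4) (hp : p ∈ J) (i : ℕ) : MvPolynomial.homogeneousComponent i p ∈ J := by
  letI := @MvPolynomial.gradedAlgebra (Fin 4) ℚ _
  have : J.IsHomogeneous (MvPolynomial.homogeneousSubmodule (Fin 4) ℚ) := by
    apply Ideal.homogeneous_span
    rintro _ (rfl | rfl)
    · exact ⟨2, ((MvPolynomial.isHomogeneous_X _ _).mul (MvPolynomial.isHomogeneous_X _ _)).add
        ((MvPolynomial.isHomogeneous_X _ _).mul (MvPolynomial.isHomogeneous_X _ _))⟩
    · exact ⟨2, ((MvPolynomial.isHomogeneous_X _ _).mul (MvPolynomial.isHomogeneous_X _ _)).add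
        ((MvPolynomial.isHomogeneous_X _ _).mul (MvPolynomial.isHomogeneous_X _ _))⟩
  have h := this i hp
  have e := MvPolynomial.decomposition.decompose'_apply p i
  exact e ▸ h

theorem result :
    ¬ (∀ (K : Type) [Field K] (n : ℕ) (J : Ideal (MvPolynomial (Fin n) K)),
      (∀ p ∈ J, ∀ i : ℕ, MvPolynomial.homogeneousComponent i p ∈ J) →
      ∀ (F : Set (Ideal (MvPolynomial (Fin n) K ⧸ J))),
        (∀ I ∈ F, I = Ideal.span {y : MvPolynomial (Fin n) K ⧸ J | y ∈ I ∧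
            ∃ p : MvPolynomial (Fin n) K, p.IsHomogeneous 1 ∧ Ideal.Quotient.mk J p = y}) →
        (⊥ ∈ F) →
        (Ideal.span {y : MvPolynomial (Fin n) K ⧸ J |
            ∃ p : MvPolynomial (Fin n) K, p.IsHomogeneous 1 ∧ Ideal.Quotient.mk J p = y} ∈ F) →
        (∀ I ∈ F, I ≠ ⊥ → ∃ I' ∈ F, I' ≤ I ∧
            (∃ x : MvPolynomial (Fin n) K ⧸ J,
              (∃ p : MvPolynomial (Fin n) K, p.IsHomogeneous 1 ∧ Ideal.Quotient.mk J p = x) ∧
              I = I' ⊔ Ideal.span {x}) ∧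
            ∃ C ∈ F, ∀ r : MvPolynomial (Fin n) K ⧸ J, r ∈ C ↔ ∀ y ∈ I, r * y ∈ I') →
        ∀ (d : ℕ), 1 ≤ d → ∀ (I : Fin d → Ideal (MvPolynomial (Fin n) K ⧸ J)),
          (∀ k, I k ∈ F) → (∏ k, I k) ≠ ⊥ →
          ∃ b : ℕ → ℕ, ∃ g : Fin (b 0) → MvPolynomial (Fin n) K ⧸ J,
            ∃ A : (i : ℕ) → Matrix (Fin (b i)) (Fin (b (i + 1))) (MvPolynomial (Fin n) K ⧸ J),
              (∀ j, ∃ p : MvPolynomial (Fin n) K, p.IsHomogeneous d ∧ Ideal.Quotient.mk J p = g j) ∧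
              (∀ i a c, ∃ p : MvPolynomial (Fin n) K, p.IsHomogeneous 1 ∧
                  Ideal.Quotient.mk J p = A i a c) ∧
              Ideal.span (Set.range g) = ∏ k, I k ∧
              (∀ v : Fin (b 0) → MvPolynomial (Fin n) K ⧸ J,
                  ∑ j, v j * g j = 0 ↔ ∃ w, (A 0).mulVec w = v) ∧
              (∀ (i : ℕ) (v : Fin (b (i + 1)) → MvPolynomial (Fin n) K ⧸ J),
                  (A i).mulVec v = 0 ↔ ∃ w, (A (i + 1)).mulVec w = v)) := by
  intro h
  have hp : ∏ k : Fin 2, (![Ideal.span {x, z}, Ideal.span {y, t}] : Fin 2 → Ideal R) k =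
      Ideal.span {x, z} * Ideal.span {y, t} := by simp
  have s1 : ∀ I ∈ F, I = Ideal.span {r : R | r ∈ I ∧ Lin r} := by
    intro I hI
    rcases hI with rfl | rfl | rfl | rfl | rfl | rfl | rfl | rfl
    · exact le_antisymm bot_le (Ideal.span_le.2 fun _ hs => hs.1)
    all_goals
      apply span_lin
      simp [lin_x, lin_y, lin_z, lin_t]
  have s2 : Ideal.span {r : R | Lin r} ∈ F := by
    have : Ideal.span {r : R | Lin r} = Ideal.span {x, y, z, t} := by
      apply le_antisymm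
      · refine Ideal.span_le.2 fun r hr => ?_
        obtain ⟨a, b, c, d, h⟩ := lin_form hr
        exact (mem4 _ _ _ _ _).2 ⟨_, _, _, _, h⟩
      · apply Ideal.span_mono
        simp [Set.subset_def, lin_x, lin_y, lin_z, lin_t]
    rw [this]; simp [F]
  have s3 : ∏ k : Fin 2, (![Ideal.span {x, z}, Ideal.span {y, t}] : Fin 2 → Ideal R) k ≠ ⊥ := by
    rw [hp]
    intro h0
    have m1 : x * y ∈ Ideal.span {x, z} * Ideal.span {y, t} :=
      Ideal.mul_mem_mul (Ideal.subset_span (by simp)) (Ideal.subset_span (by simp))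
    rw [h0, Ideal.mem_bot] at m1
    have := congrArg φ m1
    simp [n4_mul, n4_zero, n4_inj] at this
  obtain ⟨b, g, A, hg, hA, hs, hz, -⟩ := h ℚ 4 J J_hom F s1 (by simp [F]) s2 filt 2 (by norm_num)
    ![Ideal.span {x, z}, Ideal.span {y, t}] (by intro k; fin_cases k <;> simp [F]) s3
  exact no_res _ _ g (A 0) hg (hA 0) (hs.trans hp) hz

end
end Pool.Agent.S01178
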