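import Pool.Statements.S01194
import Pool.Agent.H.MP_37d31d_al.Main

set_option autoImplicit false
open Pool Pool.MP_37d31d_al

namespace Pool.Agent.S01194

theorem result :
    ¬ (∀ (X : Type) [Quandle X] [Fintype X],
      (∀ a b : X, ∃ g ∈ Subgroup.closure (Set.range (Rack.act' : X → Equiv.Perm X)), g a = b) →
      ∀ x : X, ∃ z : X, ∀ y : X,
        Function.minimalPeriod (Shelf.act x) y ∣ Function.minimalPeriod (Shelf.act x) z) := by
  intro h
  obtain ⟨X, _, _, hc, x, hx⟩ := Pool.Agent.H.MP_37d31d_al.quandle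
  have := Fintype.ofFinite X
  obtain ⟨z, hz⟩ := h X hc x
  obtain ⟨y, hy⟩ := hx z
  exact hy (hz y)

end Pool.Agent.S01194
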