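import Pool.Statements.S01235
import Pool.Agent.H.MP_3bbc5b_al.Core

set_option autoImplicit false
open Polynomial
open Pool Pool.MP_3bbc5b_al

namespace Pool.Agent.S01235

theorem result :
    (∀ a b : Polynomial ℂ,
      (∀ m : ℕ, 1 ≤ m → ∃ f : Polynomial ℂ, a ^ m = derivative f - 2 * X * f) →
      ∃ N : ℕ, ∀ m : ℕ, N ≤ m → ∃ f : Polynomial ℂ, b * a ^ m = derivative f - 2 * X * f) ∧
    (∀ α : ℝ, -1 < α → ∀ a b : Polynomial ℂ,
      (∀ m : ℕ, 1 ≤ m → ∃ f : Polynomial ℂ,
        X * a ^ m = X * derivative f + (C (α : ℂ) - X) * f) →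
      ∃ N : ℕ, ∀ m : ℕ, N ≤ m → ∃ f : Polynomial ℂ,
        X * (b * a ^ m) = X * derivative f + (C (α : ℂ) - X) * f) ∧
    (∀ α β : ℝ, -1 < α → -1 < β → ∀ a b : Polynomial ℂ,
      (∀ m : ℕ, 1 ≤ m → ∃ f : Polynomial ℂ,
        (1 - X ^ 2) * a ^ m = (1 - X ^ 2) * derivative f - C (α : ℂ) * (1 + X) * f
          + C (β : ℂ) * (1 - X) * f) →
      ∃ N : ℕ, ∀ m : ℕ, N ≤ m → ∃ f : Polynomial ℂ,
        (1 - X ^ 2) * (b * a ^ m) = (1 - X ^ 2) * derivative f - C (α : ℂ) * (1 + X) * f
          + C (β : ℂ) * (1 - X) * f) := by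
  open H.MP_3bbc5b_al in
  have pos : ∀ (k : ℕ) (x : ℝ), -1 < x → (k : ℂ) + 1 + x ≠ 0 := fun k x hx h => by
    have : (k : ℝ) + 1 + x = 0 := by exact_mod_cast h
    have := Nat.cast_nonneg (α := ℝ) k
    linarith
  refine ⟨fun a b h => ?_, fun α hα a b h => ?_, fun α β hα hβ a b h => ?_⟩
  · obtain rfl : a = 0 := main (π := 1) (κ := -(2 * X)) (δ := 0)
      ⟨by simp, by compute_degree, fun k => by simp [coeff_one, coeff_X]⟩ (by simp)
      fun m hm => (h m hm).imp fun u hu => by rw [hu, E_apply]; ring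
    exact ⟨1, fun m hm => ⟨0, by simp [zero_pow (by omega : m ≠ 0)]⟩⟩
  · by_cases h0 : α = 0
    · refine ⟨0, fun m _ => ((⟨by simp, by simp, fun k => by simp [coeff_one]⟩ :
        Top (1 : ℂ[X]) (-1) 0).surj (b * a ^ m)).imp fun u hu => ?_⟩
      rw [← hu, E_apply, h0]
      simp; ring
    obtain rfl : a = 0 := main (π := X) (κ := C (α : ℂ) + 1 - X) (δ := 0)
      ⟨by simp, by compute_degree, fun k => by simp [coeff_one, coeff_X]⟩
      (fun τ hτ k => by
        obtain rfl : τ = 0 := by simpa using hτ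
        simpa [add_comm, add_assoc, add_left_comm] using pos k α hα) fun m hm => by
        obtain ⟨f, hf⟩ := h m hm
        obtain ⟨u, rfl⟩ : X ∣ f := by
          simpa [X_dvd_iff, coeff_zero_eq_eval_zero, h0] using congrArg (eval 0) hf
        refine ⟨u, mul_left_cancel₀ X_ne_zero ?_⟩
        rw [hf, E_apply]; simp; ring
    exact ⟨1, fun m hm => ⟨0, by simp [zero_pow (by omega : m ≠ 0)]⟩⟩
  by_cases h0 : α = 0
  · refine ⟨0, fun m _ => ?_⟩
    obtain ⟨u, hu⟩ := (⟨by compute_degree, by compute_degree, fun k => by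
      simpa [coeff_one, coeff_X, add_comm, add_assoc, add_left_comm] using pos k β hβ⟩ :
        Top (1 + X : ℂ[X]) (C (β : ℂ) + 1) 0).surj (b * a ^ m)
    refine ⟨(1 + X) * u, ?_⟩
    rw [← hu, E_apply, h0]
    simp; ring
  by_cases h1 : β = 0
  · refine ⟨0, fun m _ => ?_⟩
    obtain ⟨u, hu⟩ := (⟨by compute_degree, by compute_degree, fun k => by
      have := pos k α hα
      simp [coeff_one, coeff_X]
      exact fun h => this (by linear_combination -h)⟩ :
        Top (1 - X : ℂ[X]) (-(C (α : ℂ) + 1)) 0).surj (b * a ^ m)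
    refine ⟨(1 - X) * u, ?_⟩
    rw [← hu, E_apply, h1]
    simp; ring
  obtain rfl : a = 0 := main (π := 1 - X ^ 2)
    (κ := C ((β : ℂ) - α) - C ((α : ℂ) + β + 2) * X) (δ := 0)
    ⟨by compute_degree, by compute_degree, fun k => by
      have := pos k (α + β + 1) (by linarith)
      simp only [coeff_sub, coeff_C_mul, coeff_X_pow, coeff_one, coeff_C, coeff_X_one, zero_add]
      push_cast at this
      simp
      exact fun h => this (by linear_combination -h)⟩
    (fun τ hτ k => by
      have : (τ - 1) * (τ + 1) = 0 := by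
        have := hτ.eq_zero
        simp at this
        linear_combination -this
      simp
      rcases mul_eq_zero.1 this with e | e
      · obtain rfl := sub_eq_zero.1 e
        exact fun h => pos k α hα (by linear_combination (-1 / 2 : ℂ) * h)
      · obtain rfl := eq_neg_of_add_eq_zero_left e
        exact fun h => pos k β hβ (by linear_combination (1 / 2 : ℂ) * h)) fun m hm => by
      obtain ⟨f, hf⟩ := h m hm
      obtain ⟨v, rfl⟩ : X - C 1 ∣ f := by
        rw [dvd_iff_isRoot]
        simpa [h0] using congrArg (eval 1) hf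
      obtain ⟨u, rfl⟩ : X - C (-1) ∣ v := by
        have := congrArg (eval (-1)) hf
        rw [dvd_iff_isRoot]
        norm_num [h1] at this
        exact this
      refine ⟨-u, mul_left_cancel₀ (a := 1 - X ^ 2) (fun e => by simpa using congrArg (eval 0) e) ?_⟩
      rw [hf, E_apply]; simp [map_ofNat]; ring
  exact ⟨1, fun m hm => ⟨0, by simp [zero_pow (by omega : m ≠ 0)]⟩⟩

end Pool.Agent.S01235
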