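import Pool.Statements.S01251
import Pool.Agent.H.MP_3d8b4c_al.L4

set_option autoImplicit false
open Pool Pool.MP_3d8b4c_al

namespace Pool.Agent.S01251

theorem result :
    ∀ V F T : Subgroup (Equiv.Perm ℝ),
      V = Subgroup.closure {σ : Equiv.Perm ℝ |
        (∀ x : ℝ, x ∉ Set.Ico (0:ℝ) 1 → σ x = x) ∧
        ∃ n : ℕ, ∃ a : ℕ → ℝ, ∃ k : ℕ → ℤ, ∃ c : ℕ → ℝ,
          a 0 = 0 ∧ a n = 1 ∧ (∀ i < n, a i < a (i + 1)) ∧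
          (∀ i ≤ n, ∃ m : ℤ, ∃ e : ℕ, a i = (m : ℝ) / 2 ^ e) ∧
          (∀ i < n, ∃ m : ℤ, ∃ e : ℕ, c i = (m : ℝ) / 2 ^ e) ∧
          ∀ i < n, ∀ x ∈ Set.Ico (a i) (a (i + 1)), σ x = (2:ℝ) ^ (k i) * x + c i} →
      F = Subgroup.closure {σ : Equiv.Perm ℝ |
        σ ∈ V ∧ StrictMonoOn (⇑σ) (Set.Ico (0:ℝ) 1)} →
      T = Subgroup.closure {σ : Equiv.Perm ℝ |
        σ ∈ V ∧ ∃ t ∈ Set.Ico (0:ℝ) 1,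
          ContinuousOn (⇑σ) (Set.Ico (0:ℝ) t) ∧ ContinuousOn (⇑σ) (Set.Ico t 1) ∧
          StrictMonoOn (⇑σ) (Set.Ico (0:ℝ) t) ∧ StrictMonoOn (⇑σ) (Set.Ico t 1) ∧
          σ t = 0} →
      (⁅⁅F, F⁆, ⁅F, F⁆⁆ ≠ ⊥ ∧
        ∀ g ∈ ⁅⁅F, F⁆, ⁅F, F⁆⁆, ∃ a ∈ ⁅F, F⁆, ∃ b ∈ ⁅F, F⁆, g = a * b * a⁻¹ * b⁻¹) ∧
      (⁅V, V⁆ ≠ ⊥ ∧
        ∀ g ∈ ⁅V, V⁆, ∃ a ∈ V, ∃ b ∈ V, g = a * b * a⁻¹ * b⁻¹) ∧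
      ((∀ g ∈ ⁅T, T⁆, ∃ a ∈ T, ∃ b ∈ T, ∃ c ∈ T, ∃ d ∈ T,
          g = (a * b * a⁻¹ * b⁻¹) * (c * d * c⁻¹ * d⁻¹)) ∧
        ∃ g ∈ ⁅T, T⁆, ∀ a ∈ T, ∀ b ∈ T, g ≠ a * b * a⁻¹ * b⁻¹) := by
  intro V F T hV hF hT
  open Pool.Agent.H.MP_3d8b4c_al in
  obtain rfl : V = VG := hV.trans gen_eq
  open Pool.Agent.H.MP_3d8b4c_al in
  rw [hF, hT, F_eq, T_eq]
  open Pool.Agent.H.MP_3d8b4c_al in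
  exact ⟨F_part, ⟨V_ne, fun g hg => V_all g (Subgroup.commutator_le.2 (fun a ha b hb =>
      mul_mem (mul_mem (mul_mem ha hb) (inv_mem ha)) (inv_mem hb)) hg)⟩,
    fun g hg => T_two g (Subgroup.commutator_le.2 (fun a ha b hb =>
      mul_mem (mul_mem (mul_mem ha hb) (inv_mem ha)) (inv_mem hb)) hg), T_low⟩

end Pool.Agent.S01251
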