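import Pool.Statements.S01258
import Pool.Agent.H.MP_3dd297_al.C

set_option autoImplicit false
open Pool Pool.MP_3dd297_al

namespace Pool.Agent.S01258

theorem result :
    ¬ (∀ (G : Type) [AddCommGroup G] [Lattice G] [IsOrderedAddMonoid G],
      (∃ (I : Type) (f : G →+ (I → ℤ)),
        Function.Injective f ∧
        (∀ x y : G, f (x ⊔ y) = f x ⊔ f y) ∧
        (∀ x y : G, f (x ⊓ y) = f x ⊓ f y) ∧
        (∀ i : I, Function.Surjective (fun x : G => f x i))) →
      ∀ op : G → G → G,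
        (∀ a b c : G, op (op a b) c = op a (op b c)) →
        (∀ a : G, op 0 a = a ∧ op a 0 = a) →
        (∀ a : G, ∃ b : G, op a b = 0 ∧ op b a = 0) →
        (∀ a b c : G, a ≤ b → op c a ≤ op c b ∧ op a c ≤ op b c) →
        ∀ x y : G, op x y = x + y) := by
  intro H
  open Pool.Agent.H.MP_3dd297_al in
  let _ : Lattice GG := Subtype.lattice (fun _ _ => sup_mem) (fun _ _ => inf_mem)
  have _ : IsOrderedAddMonoid GG := ⟨fun a b h c => add_le_add_left (α := List ℕ → ℤ) h c.1,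
    fun a b h c => add_le_add_right (α := List ℕ → ℤ) h c.1⟩
  obtain ⟨F, h, h0, u, hu⟩ := auto
  have hs : ∀ x y : GG, x.1 ≤ y.1 → (F.symm x).1 ≤ (F.symm y).1 := fun x y k => by
    rwa [h, F.apply_symm_apply, F.apply_symm_apply]
  refine hu ?_
  rw [← H GG ⟨List ℕ, GG.subtype, Subtype.val_injective, fun _ _ => rfl, fun _ _ => rfl, fun s k => ?_⟩
    (fun x y => F.symm (F x + F y)) (fun a b c => by simp [add_assoc]) (fun a => by simp [h0])
    (fun a => ⟨F.symm (-F a), by simp [F.symm_apply_eq, h0]⟩)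
    (fun a b c k => ⟨hs _ _ (add_le_add_right (α := List ℕ → ℤ) ((h _ _).1 k) _),
      hs _ _ (add_le_add_left (α := List ℕ → ℤ) ((h _ _).1 k) _)⟩) u u, F.apply_symm_apply]
  obtain ⟨g, m, e⟩ := onto s
  exact ⟨k • ⟨g, m⟩, by simp [e]⟩

end Pool.Agent.S01258
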