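import Pool.Statements.S01281
import Pool.Agent.H.MP_3f2ebd_al.A

set_option autoImplicit false
open Pool Pool.MP_3f2ebd_al

namespace Pool.Agent.S01281

theorem result :
    ∀ (G : Type) [Group G],
      (∀ X : Set G, ∃ X₀ : Finset G, (↑X₀ : Set G) ⊆ X ∧
          Subgroup.centralizer X = Subgroup.centralizer (↑X₀ : Set G)) →
      ∀ a : G,
        (∃ m : ℕ, ∀ x : G, (fun y : G => y⁻¹ * (x⁻¹ * y * x))^[m] a = 1) →
        ∃ n : ℕ, 1 ≤ n ∧ ∀ x : G, ∃ H : ℕ → Subgroup G,
          H 0 = Subgroup.zpowers x ∧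
          H n = Subgroup.zpowers x ⊔ Subgroup.normalClosure ({a} : Set G) ∧
          ∀ i : ℕ, i < n → (H i ≤ H (i + 1) ∧ ((H i).subgroupOf (H (i + 1))).Normal) := by
  intro G _ h a ⟨m, hm⟩
  open Pool.Agent.H.MP_a1472e_al Pool.Agent.H.MP_3f2ebd_al in
  obtain ⟨n, hn⟩ := final (fun X => (h X).elim fun F hF => ⟨F, F.finite_toSet, hF⟩) (mc_fin h)
    (a := a) (m := m) fun x => by
      have : cm x = fun y : G => y⁻¹ * (x⁻¹ * y * x) := funext fun y => by simp [cm, mul_assoc]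
      rw [this]; exact hm x
  refine ⟨n + 1, Nat.le_add_left 1 n, fun x => ⟨fun i => Subgroup.zpowers x ⊔
    (Subgroup.zpowers x ⊔ Subgroup.normalClosure {a}).lowerCentralSeries (n + 1 - i), ?_, ?_,
      fun i hi => ?_⟩⟩
  · simp [hn x]
  · simp
  · have e : n + 1 - i = n + 1 - (i + 1) + 1 := by omega
    have le := sup_le_sup_left ((Subgroup.zpowers x ⊔
      Subgroup.normalClosure {a}).lowerCentralSeries_antitone
        (by omega : n + 1 - (i + 1) ≤ n + 1 - i)) (Subgroup.zpowers x)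
    refine ⟨le, (Subgroup.normal_subgroupOf_iff_le_normalizer le).2 ?_⟩
    simp only [e]
    exact Pool.Agent.H.MP_a1472e_al.lcs_norm le_sup_left _

end Pool.Agent.S01281
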