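import Pool.Statements.S01289
import Pool.Agent.Lib.helper13.Trans

set_option autoImplicit false
open Pool Pool.MP_3fc405_al

namespace Pool.Agent.S01289

open Submodule Cardinal

variable {D V : Type} [DivisionRing D] [AddCommGroup V] [Module D V]

abbrev L (D V : Type) [DivisionRing D] : Type := ((V × V) × ℤ) →₀ D

noncomputable def t : L D V ≃ₗ[D] L D V :=
  Finsupp.domLCongr ((Equiv.refl _).prodCongr (Equiv.addRight 1))

noncomputable def ψ (π : V × V → V) (a : V ≃ₗ[D] V) : L D V →ₗ[D] V :=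
  Finsupp.linearCombination D fun p => (a ^ p.2) (π p.1)

lemma ψ_t (π : V × V → V) (a : V ≃ₗ[D] V) (l : L D V) : ψ π a (t l) = a (ψ π a l) := by
  have : (ψ π a).comp t.toLinearMap = a.toLinearMap.comp (ψ π a) :=
    Finsupp.lhom_ext fun p c => by
      simp [t, ψ, add_comm p.2, zpow_add]
  exact LinearMap.congr_fun this l

lemma mem_ext {P : Type} [AddCommGroup P] [Module D P] {Φ : Submodule D P} {w q : P}
    (h : q ∈ Φ ⊔ D ∙ w) : ∃ q' ∈ Φ, ∃ c : D, q = q' + c • w := by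
  obtain ⟨q', h1, _, h2, rfl⟩ := mem_sup.1 h
  obtain ⟨c, rfl⟩ := mem_span_singleton.1 h2
  exact ⟨q', h1, c, rfl⟩

lemma inj_ext {P : Type} [AddCommGroup P] [Module D P] (p : P →ₗ[D] V) {Φ : Submodule D P}
    (h : ∀ q ∈ Φ, p q = 0 → q = 0) {w : P} (hw : ∀ q ∈ Φ, p q ≠ p w) :
    ∀ q ∈ Φ ⊔ D ∙ w, p q = 0 → q = 0 := by
  intro q hq h0
  obtain ⟨q', h1, c, rfl⟩ := mem_ext hq
  by_cases hc : c = 0
  · simp only [hc, zero_smul, add_zero] at h0 ⊢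
    exact h _ h1 h0
  · refine absurd ?_ (hw _ (smul_mem _ (-c⁻¹) h1))
    rw [map_add, map_smul, add_eq_zero_iff_eq_neg] at h0
    simp [h0, smul_smul, hc]

lemma inj_sup {P J : Type} [AddCommGroup P] [Module D P] (p : P →ₗ[D] V) {Φ : J → Submodule D P}
    (hd : Directed (· ≤ ·) Φ) (h : ∀ j, ∀ q ∈ Φ j, p q = 0 → q = 0) :
    ∀ q ∈ ⨆ j, Φ j, p q = 0 → q = 0 := by
  intro q hq
  rcases isEmpty_or_nonempty J with _ | _
  · rw [iSup_of_empty] at hq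
    exact fun _ => hq
  · obtain ⟨j, hj⟩ := (mem_iSup_of_directed _ hd).1 hq
    exact h j q hj

structure Half (π : V × V → V) (h : V ≃ₗ[D] V) (Γ : Submodule D (V × V))
    (Φ : Submodule D (V × L D V)) (s : Set V) : Prop where
  f : ∀ q ∈ Φ, LinearMap.fst D _ _ q = 0 → q = 0
  c : ∀ p ∈ Γ, ∃ l, (p.1, l) ∈ Φ ∧ (h p.2, t l) ∈ Φ
  r : ∀ a : V ≃ₗ[D] V, (∀ p ∈ Γ, a p.1 = h p.2) → ∀ q ∈ Φ, ψ π a q.2 = q.1
  s : ∀ q ∈ Φ, q.1 ∈ span D s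

variable {π : V × V → V} {h : V ≃ₗ[D] V} {Γ : Submodule D (V × V)} {Φ Ψ : Submodule D (V × L D V)}
  {s : Set V}

lemma Half.ne (H : Half π h Γ Φ s) {x : V} (hx : x ∉ span D s) : ∀ q ∈ Φ, q.1 ≠ x :=
  fun q hq e => hx (e ▸ H.s q hq)

lemma Half.ext (H : Half π h Γ Φ s) (p : V × V) (w : V × L D V) (hw : ∀ q ∈ Φ, q.1 ≠ w.1)
    (hc : ∃ l, (p.1, l) ∈ Φ ⊔ D ∙ w ∧ (h p.2, t l) ∈ Φ ⊔ D ∙ w)
    (hr : ∀ a : V ≃ₗ[D] V, (∀ p ∈ Γ, a p.1 = h p.2) → a p.1 = h p.2 → ψ π a w.2 = w.1)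
    {s' : Set V} (h1 : s ⊆ s') (h2 : w.1 ∈ s') : Half π h (Γ ⊔ D ∙ p) (Φ ⊔ D ∙ w) s' where
  f := inj_ext _ H.f hw
  c := fun p' hp => by
    obtain ⟨p', k1, c, rfl⟩ := mem_ext hp
    obtain ⟨l, k2, k3⟩ := H.c p' k1
    obtain ⟨l', k4, k5⟩ := hc
    exact ⟨l + c • l', add_mem (mem_sup_left k2) (smul_mem _ c k4),
      by simpa using add_mem (mem_sup_left k3) (smul_mem _ c k5)⟩
  r := fun a ha q hq => by
    obtain ⟨q, k1, c, rfl⟩ := mem_ext hq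
    have k2 : ∀ p ∈ Γ, a p.1 = h p.2 := fun p hp => ha p (mem_sup_left hp)
    simp [H.r a k2 q k1, hr a k2 (ha p (mem_sup_right (mem_span_singleton_self p)))]
  s := fun q hq => by
    obtain ⟨q, k1, c, rfl⟩ := mem_ext hq
    exact add_mem (span_mono h1 (H.s q k1)) (smul_mem _ c (subset_span h2))

lemma Half.sup {J : Type} {Γ : J → Submodule D (V × V)} {Φ : J → Submodule D (V × L D V)}
    {s : J → Set V} (hd : Directed (· ≤ ·) Φ) (H : ∀ j, Half π h (Γ j) (Φ j) (s j)) :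
    Half π h (⨆ j, Γ j) (⨆ j, Φ j) (⨆ j, s j) where
  f := inj_sup _ hd fun j => (H j).f
  c := fun p hp => by
    induction hp using iSup_induction' with
    | mem j p hp =>
      obtain ⟨l, k1, k2⟩ := (H j).c p hp
      exact ⟨l, mem_iSup_of_mem j k1, mem_iSup_of_mem j k2⟩
    | zero => exact ⟨0, zero_mem _, by simp [Prod.mk_zero_zero]⟩
    | add p p' _ _ k k' =>
      obtain ⟨l, k1, k2⟩ := k
      obtain ⟨l', k3, k4⟩ := k'
      exact ⟨l + l', add_mem k1 k3, by simpa using add_mem k2 k4⟩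
  r := fun a ha q hq => by
    induction hq using iSup_induction' with
    | mem j q hq => exact (H j).r a (fun p hp => ha p (mem_iSup_of_mem j hp)) q hq
    | zero => simp
    | add _ _ _ _ k k' => simp [k, k']
  s := fun q hq => by
    induction hq using iSup_induction' with
    | mem j q hq => exact span_mono (le_iSup s j) ((H j).s q hq)
    | zero => exact zero_mem _
    | add _ _ _ _ k k' => exact add_mem k k'

lemma graph {W : Type} [AddCommGroup W] [Module D W] {Φ : Submodule D (V × W)}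
    (hf : ∀ q ∈ Φ, LinearMap.fst D _ _ q = 0 → q = 0) (ht : ∀ v, ∃ l, (v, l) ∈ Φ) :
    ∃ φ : V →ₗ[D] W, ∀ q, q ∈ Φ ↔ q.2 = φ q.1 := by
  obtain ⟨φ, rfl⟩ := Φ.exists_eq_graph ⟨fun q q' e => Subtype.ext (sub_eq_zero.1
    (hf _ (sub_mem q.2 q'.2) (sub_eq_zero.2 e))), fun v => ⟨⟨_, (ht v).choose_spec⟩, rfl⟩⟩
  exact ⟨φ, fun q => Iff.rfl⟩

lemma Half.fin (H : Half π h Γ Φ s) (a : V ≃ₗ[D] V) (ha : ∀ p, p ∈ Γ ↔ p.2 = a p.1) :
    ∃ φ : V →ₗ[D] L D V, (∀ q, q ∈ Φ ↔ q.2 = φ q.1) ∧ Function.Injective φ ∧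
      (∀ v, φ (h (a v)) = t (φ v)) ∧ ∀ l, t l ∈ φ.range ↔ l ∈ φ.range := by
  obtain ⟨φ, hφ⟩ := graph H.f fun v => (H.c (v, a v) ((ha _).2 rfl)).imp fun _ h => h.1
  have k : ∀ v, φ (h (a v)) = t (φ v) := fun v => by
    obtain ⟨l, k1, k2⟩ := H.c (v, a v) ((ha _).2 rfl)
    exact ((hφ _).1 k2).symm.trans (congrArg t ((hφ _).1 k1))
  refine ⟨φ, hφ, Function.LeftInverse.injective (g := ψ π (a.trans h)) fun v =>
    H.r _ (fun p hp => by simp [(ha p).1 hp]) (v, φ v) ((hφ _).2 rfl), k, fun l => ⟨?_, ?_⟩⟩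
  · rintro ⟨v, hv⟩
    exact ⟨a.symm (h.symm v), t.injective (by rw [← k, ← hv]; simp)⟩
  · rintro ⟨v, rfl⟩
    exact ⟨_, k v⟩

abbrev St (D V : Type) [DivisionRing D] [AddCommGroup V] [Module D V] : Type :=
  Submodule D (V × V) × Submodule D (V × L D V) × Submodule D (V × L D V) × Set V

structure Good (g : V ≃ₗ[D] V) (σ : St D V) : Prop where
  h1 : Half Prod.fst 1 σ.1 σ.2.1 σ.2.2.2
  h2 : Half Prod.snd g σ.1 σ.2.2.1 σ.2.2.2
  i1 : ∀ q ∈ σ.1, LinearMap.fst D _ _ q = 0 → q = 0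
  i2 : ∀ q ∈ σ.1, LinearMap.snd D _ _ q = 0 → q = 0
  m : ∀ M : Submodule D (L D V), (∀ l, t l ∈ M ↔ l ∈ M) →
    (σ.2.1 ≤ M.comap (.snd _ _ _) ↔ σ.2.2.1 ≤ M.comap (.snd _ _ _))

def Ext (σ τ : St D V) : Prop := σ ≤ τ ∧ (τ.2.2.2 \ σ.2.2.2).Finite

def Small (σ : St D V) : Prop := ∀ s : Set V, (s \ σ.2.2.2).Finite → span D s ≠ ⊤

lemma Ext.trans {σ τ ρ : St D V} (h1 : Ext σ τ) (h2 : Ext τ ρ) : Ext σ ρ :=
  ⟨h1.1.trans h2.1, (h1.2.union h2.2).subset fun x hx => by by_cases x ∈ τ.2.2.2 <;> simp_all⟩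

lemma Ext.small {σ τ : St D V} (h1 : Ext σ τ) (h2 : Small σ) : Small τ := fun s hs =>
  h2 s ((h1.2.union hs).subset fun x hx => by by_cases x ∈ τ.2.2.2 <;> simp_all)

variable {g : V ≃ₗ[D] V} {σ : St D V}

lemma Small.avoid (h : Small σ) (g : V ≃ₗ[D] V) :
    ∃ y, y ∉ span D σ.2.2.2 ∧ g y ∉ span D σ.2.2.2 := by
  obtain ⟨y, hy⟩ : ∃ y, y ∉ span D σ.2.2.2 := by
    simpa [eq_top_iff'] using h _ (by simp)
  by_contra! k
  have k1 := k y hy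
  have k2 : g.symm y ∈ span D σ.2.2.2 := by_contra fun e => hy (by simpa using k _ e)
  exact hy (by simpa [add_mem_cancel_left k1] using k (y + g.symm y) (by
    simpa [add_mem_cancel_right k2] using hy))

lemma ext_mk (σ : St D V) (p : V × V) (w w' : V × L D V) :
    Ext σ (σ.1 ⊔ D ∙ p, σ.2.1 ⊔ D ∙ w, σ.2.2.1 ⊔ D ∙ w', σ.2.2.2 ∪ {w.1, w'.1}) :=
  ⟨⟨le_sup_left, le_sup_left, le_sup_left, Set.subset_union_left⟩,
    (Set.toFinite {w.1, w'.1}).subset fun x hx => by grind⟩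

lemma addgen (G : Good g σ) {e f : V} (he : ∀ q ∈ σ.2.1, q.1 ≠ e) (hf : ∀ q ∈ σ.2.2.1, q.1 ≠ f) :
    ∃ τ, Ext σ τ ∧ Good g τ ∧ (∃ l, (e, l) ∈ τ.2.1) ∧ ∃ l, (f, l) ∈ τ.2.2.1 := by
  let δ : L D V := Finsupp.single ((e, f), 0) 1
  refine ⟨_, ext_mk σ 0 (e, δ) (f, δ), ⟨G.h1.ext _ _ he ⟨0, zero_mem _, by simp [Prod.mk_zero_zero]⟩
    (fun a _ _ => by simp [δ, ψ]) Set.subset_union_left (by simp), G.h2.ext _ _ hf ⟨0, zero_mem _, by
    simp [Prod.mk_zero_zero]⟩ (fun a _ _ => by simp [δ, ψ]) Set.subset_union_left (by simp),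
    by simpa using G.i1, by simpa using G.i2, fun M hM => by
      simp only [sup_le_iff, span_singleton_le_iff_mem, mem_comap, LinearMap.snd_apply, G.m M hM]⟩,
    ⟨δ, mem_sup_right (mem_span_singleton_self _)⟩, δ, mem_sup_right (mem_span_singleton_self _)⟩

lemma s1 (G : Good g σ) (S : Small σ) (v : V) : ∃ τ, Ext σ τ ∧ Good g τ ∧ ∃ l, (v, l) ∈ τ.2.1 := by
  by_cases h : ∃ l, (v, l) ∈ σ.2.1
  · exact ⟨σ, ⟨le_rfl, by simp⟩, G, h⟩
  obtain ⟨y, hy, -⟩ := S.avoid g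
  obtain ⟨τ, h1, h2, h3, -⟩ := addgen G (e := v) (f := y) (fun q hq e => h ⟨q.2, e ▸ hq⟩)
    (G.h2.ne hy)
  exact ⟨τ, h1, h2, h3⟩

lemma s2 (G : Good g σ) (S : Small σ) (v : V) :
    ∃ τ, Ext σ τ ∧ Good g τ ∧ ∃ l, (v, l) ∈ τ.2.2.1 := by
  by_cases h : ∃ l, (v, l) ∈ σ.2.2.1
  · exact ⟨σ, ⟨le_rfl, by simp⟩, G, h⟩
  obtain ⟨y, hy, -⟩ := S.avoid g
  obtain ⟨τ, h1, h2, -, h3⟩ := addgen G (e := y) (f := v) (G.h1.ne hy)
    fun q hq e => h ⟨q.2, e ▸ hq⟩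
  exact ⟨τ, h1, h2, h3⟩

lemma s3 (G : Good g σ) (S : Small σ) {v : V} {l l' : L D V} (h1 : (v, l) ∈ σ.2.1)
    (h2 : (v, l') ∈ σ.2.2.1) : ∃ τ, Ext σ τ ∧ Good g τ ∧ ∃ y, (v, y) ∈ τ.1 := by
  by_cases h : ∃ y, (v, y) ∈ σ.1
  · exact ⟨σ, ⟨le_rfl, by simp⟩, G, h⟩
  obtain ⟨y, hy, hy'⟩ := S.avoid g
  refine ⟨_, ext_mk σ (v, y) (y, t l) (g y, t l'), ⟨G.h1.ext _ _ (G.h1.ne hy)
    ⟨l, mem_sup_left h1, mem_sup_right (mem_span_singleton_self _)⟩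
    (fun a k1 k2 => by rw [ψ_t, G.h1.r a k1 _ h1]; exact k2) Set.subset_union_left (by simp),
    G.h2.ext _ _ (G.h2.ne hy')
    ⟨l', mem_sup_left h2, mem_sup_right (mem_span_singleton_self _)⟩
    (fun a k1 k2 => by rw [ψ_t, G.h2.r a k1 _ h2]; exact k2) Set.subset_union_left (by simp),
    inj_ext _ G.i1 fun q hq e => h ⟨q.2, (show q.1 = v from e) ▸ hq⟩,
    inj_ext _ G.i2 fun q hq e => hy ?_, fun M hM => ?_⟩,
    y, mem_sup_right (mem_span_singleton_self _)⟩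
  · obtain ⟨_, -, k⟩ := G.h1.c q hq
    exact (show q.2 = y from e) ▸ G.h1.s _ k
  · simp only [sup_le_iff, span_singleton_le_iff_mem, mem_comap, LinearMap.snd_apply, hM]
    exact ⟨fun k => ⟨(G.m M hM).1 k.1, (G.m M hM).1 k.1 h2⟩,
      fun k => ⟨(G.m M hM).2 k.1, (G.m M hM).2 k.1 h1⟩⟩

lemma s4 (G : Good g σ) (S : Small σ) {v : V} {l l' : L D V} (h1 : (v, l) ∈ σ.2.1)
    (h2 : (g v, l') ∈ σ.2.2.1) : ∃ τ, Ext σ τ ∧ Good g τ ∧ ∃ x, (x, v) ∈ τ.1 := by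
  by_cases h : ∃ x, (x, v) ∈ σ.1
  · exact ⟨σ, ⟨le_rfl, by simp⟩, G, h⟩
  obtain ⟨x, hx, -⟩ := S.avoid g
  obtain ⟨l, rfl⟩ := t.surjective l
  obtain ⟨l', rfl⟩ := t.surjective l'
  refine ⟨_, ext_mk σ (x, v) (x, l) (x, l'), ⟨G.h1.ext (x, v) (x, l) (G.h1.ne hx)
    ⟨l, mem_sup_right (mem_span_singleton_self _), mem_sup_left h1⟩
    (fun a k1 k2 => a.injective (by rw [← ψ_t, G.h1.r a k1 _ h1]; exact k2.symm)) Set.subset_union_left
    (by simp), G.h2.ext _ _ (G.h2.ne hx)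
    ⟨l', mem_sup_right (mem_span_singleton_self _), mem_sup_left h2⟩
    (fun a k1 k2 => a.injective (by rw [← ψ_t, G.h2.r a k1 _ h2]; exact k2.symm)) Set.subset_union_left
    (by simp), inj_ext _ G.i1 fun q hq e => hx ?_,
    inj_ext _ G.i2 fun q hq e => h ⟨q.1, (show q.2 = v from e) ▸ hq⟩, fun M hM => ?_⟩,
    x, mem_sup_right (mem_span_singleton_self _)⟩
  · obtain ⟨_, k, -⟩ := G.h1.c q hq
    exact (show q.1 = x from e) ▸ G.h1.s _ k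
  · simp only [sup_le_iff, span_singleton_le_iff_mem, mem_comap, LinearMap.snd_apply]
    exact ⟨fun k => ⟨(G.m M hM).1 k.1, (hM _).1 ((G.m M hM).1 k.1 h2)⟩,
      fun k => ⟨(G.m M hM).2 k.1, (hM _).1 ((G.m M hM).2 k.1 h1)⟩⟩

lemma step (G : Good g σ) (S : Small σ) (v : V) :
    ∃ τ, Ext σ τ ∧ Good g τ ∧ (∃ y, (v, y) ∈ τ.1) ∧ ∃ x, (x, v) ∈ τ.1 := by
  obtain ⟨σ1, e1, G1, l1, k1⟩ := s1 G S v
  have S1 := e1.small S
  obtain ⟨σ2, e2, G2, l2, k2⟩ := s2 G1 S1 v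
  have S2 := e2.small S1
  obtain ⟨σ3, e3, G3, l3, k3⟩ := s2 G2 S2 (g v)
  have S3 := e3.small S2
  obtain ⟨σ4, e4, G4, l4, k4⟩ := s3 G3 S3 ((e2.trans e3).1.2.1 k1) (e3.1.2.2.1 k2)
  obtain ⟨σ5, e5, G5, k5⟩ := s4 G4 (e4.small S3) (((e2.trans e3).trans e4).1.2.1 k1) (e4.1.2.2.1 k3)
  exact ⟨σ5, (((e1.trans e2).trans e3).trans e4).trans e5, G5, ⟨l4, e5.1.1 k4⟩, k5⟩

lemma good_sup {J : Type} {f : J → St D V} (hd : Directed (· ≤ ·) f) (H : ∀ j, Good g (f j)) :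
    Good g (⨆ j, f j) := by
  have d1 : Directed (· ≤ ·) fun j => (f j).1 := hd.mono_comp _ fun _ _ h => h.1
  refine ⟨?_, ?_, ?_, ?_, fun M hM => ?_⟩ <;> simp only [Prod.fst_iSup, Prod.snd_iSup]
  · exact .sup (fun i j => (hd i j).imp fun _ h => ⟨h.1.2.1, h.2.2.1⟩) fun j => (H j).h1
  · exact .sup (fun i j => (hd i j).imp fun _ h => ⟨h.1.2.2.1, h.2.2.2.1⟩) fun j => (H j).h2
  · exact inj_sup _ d1 fun j => (H j).i1
  · exact inj_sup _ d1 fun j => (H j).i2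
  · simp only [iSup_le_iff]
    exact forall_congr' fun j => (H j).m M hM

lemma main (hV : ¬ Module.Finite D V) (g : V ≃ₗ[D] V) : ∃ a b : V ≃ₗ[D] V, b * a = g * a * b := by
  let B := Module.Basis.ofVectorSpace D V
  have : Infinite (Module.Basis.ofVectorSpaceIndex D V) :=
    not_finite_iff_infinite.1 fun _ => hV (.of_basis B)
  obtain ⟨σ, G, hσ⟩ := Lib.helper13.Trans.recur (fun σ : St D V => σ.2.2.2)
    (fun J f => by simp [Prod.snd_iSup]) (Good g) (fun J f hd H => good_sup hd H)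
    (fun i τ => (∃ y, (B i, y) ∈ τ.1) ∧ ∃ x, (x, B i) ∈ τ.1) fun σ i G hs => by
      obtain ⟨τ, h1, h2⟩ := step G (fun s h e => by
        have := rank_span_le (R := D) s
        rw [e, rank_top, ← B.mk_eq_rank''] at this
        exact this.not_gt ((mk_le_mk_of_subset (t := σ.2.2.2 ∪ s \ σ.2.2.2) (by simp)).trans_lt
          ((mk_union_le _ _).trans_lt (add_lt_of_lt (aleph0_le_mk _) hs
            (h.lt_aleph0.trans_le (aleph0_le_mk _)))))) (B i)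
      exact ⟨τ, h1.1, h1.2, h2⟩
  have tot : ∀ p : V × V →ₗ[D] V, (∀ i, B i ∈ σ.1.map p) → ∀ v, v ∈ σ.1.map p := fun p hp =>
    eq_top_iff'.1 (eq_top_iff.2 (B.span_eq.ge.trans (span_le.2 (Set.range_subset_iff.2 hp))))
  obtain ⟨a, ha⟩ := graph G.i1 fun v => by
    simpa using tot (.fst _ _ _) (fun i => by
      obtain ⟨τ, k1, ⟨y, k2⟩, -⟩ := hσ i
      exact ⟨_, k1.1 k2, rfl⟩) v
  let a' := LinearEquiv.ofBijective a ⟨(injective_iff_map_eq_zero a).2 fun v hv =>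
    congrArg Prod.fst (G.i2 (v, 0) ((ha _).2 hv.symm) rfl), fun v => by
      obtain ⟨q, k1, rfl⟩ := tot (.snd _ _ _) (fun i => by
        obtain ⟨τ, k1, -, x, k2⟩ := hσ i
        exact ⟨_, k1.1 k2, rfl⟩) v
      exact ⟨q.1, ((ha q).1 k1).symm⟩⟩
  obtain ⟨φ, p1, p2, p3, p4⟩ := G.h1.fin a' ha
  obtain ⟨φ', q1, q2, q3, q4⟩ := G.h2.fin a' ha
  have e : φ.range = φ'.range := le_antisymm
    (by rintro _ ⟨v, rfl⟩; exact (G.m _ q4).2 (fun q hq => ⟨_, ((q1 q).1 hq).symm⟩)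
          ((p1 (v, _)).2 rfl))
    (by rintro _ ⟨v, rfl⟩; exact (G.m _ p4).1 (fun q hq => ⟨_, ((p1 q).1 hq).symm⟩)
          ((q1 (v, _)).2 rfl))
  let b := ((LinearEquiv.ofInjective φ p2).trans (LinearEquiv.ofEq _ _ e)).trans
    (LinearEquiv.ofInjective φ' q2).symm
  have hb : ∀ v, φ' (b v) = φ v := fun v => by simp [b]
  exact ⟨a', b, LinearEquiv.ext fun v => q2 (by
    rw [LinearEquiv.mul_apply, LinearEquiv.mul_apply, LinearEquiv.mul_apply, q3, hb, hb, ← p3]; rfl)⟩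

theorem result :
    ∀ (D : Type) [DivisionRing D] (V : Type) [AddCommGroup V] [Module D V],
      ¬ Module.Finite D V →
      ∀ g : LinearMap.GeneralLinearGroup D V,
        ∃ a b : LinearMap.GeneralLinearGroup D V, g = a * b * a⁻¹ * b⁻¹ := by
  intro D _ V _ _ hV g
  let e := LinearMap.GeneralLinearGroup.generalLinearEquiv D V
  obtain ⟨a, b, h⟩ := main hV (e g)
  refine ⟨e.symm b, e.symm a, e.injective ?_⟩
  simp [h]

end Pool.Agent.S01289
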