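import Pool.Statements.S01299
import Pool.Agent.H.MP_405479_al.C

set_option autoImplicit false
open Pool Pool.MP_405479_al

namespace Pool.Agent.S01299

theorem result :
    ∀ (A : Type) [CommRing A] [Algebra ℚ A] (c : A) (a : Polynomial A) (f g : Polynomial A),
      (∀ m : ℕ, 1 ≤ m →
        ∃ h : Polynomial A, Polynomial.C c * Polynomial.derivative h - a * h = f ^ m) →
      ∃ N : ℕ, ∀ m : ℕ, N ≤ m →
        ∃ h : Polynomial A, Polynomial.C c * Polynomial.derivative h - a * h = g * f ^ m := by
  exact fun A _ _ c a f g h => Pool.Agent.H.MP_405479_al.final c a f g h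

end Pool.Agent.S01299
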