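import Pool.Statements.S01303
import Pool.Agent.H.MP_417230_al.C

set_option autoImplicit false
open Pool Pool.MP_417230_al

namespace Pool.Agent.S01303

/-- Every complete Hausdorff abelian topological group that is locally minimal has a compact subgroup K such that the quotient G/K is metrizable. -/
theorem result :
    ∀ (G : Type) [AddCommGroup G] [UniformSpace G] [IsUniformAddGroup G] [T2Space G]
      [CompleteSpace G],
      (∃ V ∈ nhds (0 : G), ∀ σ : TopologicalSpace G,
          @IsTopologicalAddGroup G σ _ → @T2Space G σ →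
          (UniformSpace.toTopologicalSpace : TopologicalSpace G) ≤ σ →
          V ∈ @nhds G σ 0 → σ = (UniformSpace.toTopologicalSpace : TopologicalSpace G)) →
      ∃ K : AddSubgroup G, IsCompact (K : Set G) ∧ TopologicalSpace.MetrizableSpace (G ⧸ K) := by
  intro G _ _ _ _ _ ⟨V, hV, hL⟩
  open Pool.Agent.H.MP_417230_al Filter Topology in
  obtain ⟨W, w1, w2⟩ := lm_le hL hV
  obtain ⟨W', w3, w4⟩ := main w1 w2 (K := ⊥) isCompact_singleton
  obtain ⟨Vn, v0, v1, v2⟩ := GF.nhds.chain w3
  have gV := GF.seq (fun n => mem_of_mem_nhds (v1 n)) fun n => ⟨n + 1, v2 n⟩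
  obtain ⟨K, k1, -, k2⟩ := cluster gV (w4 _ gV (mem_iInf_of_mem 0 fun x hx =>
    ⟨0, rfl, by simpa [v0] using hx⟩))
  refine ⟨K, k1, ?_⟩
  have := k1.isClosed
  have e : nhds (0 : G ⧸ K) = map QuotientAddGroup.mk (⨅ n, principal (Vn n)) := by
    refine le_antisymm ((QuotientAddGroup.nhds_eq K 0).le.trans (map_mono
      (le_iInf fun n => le_principal_iff.2 (v1 n)))) fun U hU => ?_
    refine (k2 _ (QuotientAddGroup.continuous_mk.tendsto 0 hU)).mono fun x ⟨k, h1, h2⟩ => ?_
    simpa [(QuotientAddGroup.eq_zero_iff k).2 h1] using h2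
  let _ := IsTopologicalAddGroup.rightUniformSpace (G ⧸ K)
  have : (nhds (0 : G ⧸ K)).IsCountablyGenerated := e ▸ inferInstance
  have : (uniformity (G ⧸ K)).IsCountablyGenerated := comap.isCountablyGenerated _ _
  exact UniformSpace.metrizableSpace

end Pool.Agent.S01303
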