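import Pool.Statements.S01315
import Pool.Agent.H.MP_427786_al.A

set_option autoImplicit false
open Pool Pool.MP_427786_al

namespace Pool.Agent.S01315

/-- For every finite automorphic loop (a loop whose inner mappings L_{x,y}, R_{x,y}, T_x are all automorphisms), its order is a power of 2 if and only if every element has order a power of 2. -/
theorem result :
  ∀ (Q : Type) [Fintype Q] (op : Q → Q → Q) (e : Q),
    (∀ x, op e x = x ∧ op x e = x) →
    (∀ x, Function.Bijective (fun y => op x y)) →
    (∀ x, Function.Bijective (fun y => op y x)) →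
    (∀ x y z₁ z₂ w₁ w₂ : Q,
      op (op y x) w₁ = op y (op x z₁) →
      op (op y x) w₂ = op y (op x z₂) →
      op (op y x) (op w₁ w₂) = op y (op x (op z₁ z₂))) →
    (∀ x y z₁ z₂ w₁ w₂ : Q,
      op w₁ (op x y) = op (op z₁ x) y →
      op w₂ (op x y) = op (op z₂ x) y →
      op (op w₁ w₂) (op x y) = op (op (op z₁ z₂) x) y) →
    (∀ x z₁ z₂ w₁ w₂ : Q,
      op w₁ x = op x z₁ →
      op w₂ x = op x z₂ →
      op (op w₁ w₂) x = op x (op z₁ z₂)) →
    ((∃ k : ℕ, Fintype.card Q = 2 ^ k) ↔
      ∀ x : Q, ∃ k : ℕ, (fun y => op y x)^[2 ^ k] e = e) := by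
  intro Q _ mul e h1 hL hR aL _ aT
  let _ : AL.ALoop Q :=
    { mul := mul, one := e, one_mul' := fun x => (h1 x).1, mul_one' := fun x => (h1 x).2,
      bijL := hL, bijR := hR, autL := fun x y u v a b => aL y x u v a b, autT := aT }
  have h := AL.main2 (Q := Q)
  rw [Nat.card_eq_fintype_card] at h
  rw [h]
  refine forall_congr' fun x => exists_congr fun k => ?_
  rw [← smul_iterate_apply]
  rfl

end Pool.Agent.S01315
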