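import Pool.Statements.S01317
import Pool.Agent.H.MP_428e1d_al.E

set_option autoImplicit false
open Pool Pool.MP_428e1d_al

namespace Pool.Agent.S01317

/-- Every finite automorphic loop that is solvable (normal series with abelian group factors) has, for each set of primes P, a subloop whose order involves only primes in P and whose index involves only primes outside P. -/
theorem result :
  ∀ (Q : Type) [Fintype Q] (mul : Q → Q → Q) (e : Q),
    (∀ x, mul e x = x ∧ mul x e = x) →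
    (∀ a, Function.Bijective (mul a)) →
    (∀ a, Function.Bijective (fun x => mul x a)) →
    (∀ x y u v a b, mul (mul x y) a = mul x (mul y u) →
        mul (mul x y) b = mul x (mul y v) →
        mul (mul x y) (mul a b) = mul x (mul y (mul u v))) →
    (∀ x y u v a b, mul a (mul y x) = mul (mul u y) x →
        mul b (mul y x) = mul (mul v y) x →
        mul (mul a b) (mul y x) = mul (mul (mul u v) y) x) →
    (∀ x u v a b, mul a x = mul x u → mul b x = mul x v →
        mul (mul a b) x = mul x (mul u v)) →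
    (∃ (n : ℕ) (S : ℕ → Set Q), S 0 = {e} ∧ S n = Set.univ ∧
      ∀ i < n, S i ⊆ S (i + 1) ∧ e ∈ S i ∧
        (∀ a ∈ S i, ∀ b ∈ S i, mul a b ∈ S i) ∧
        (∀ x ∈ S (i + 1), ∀ y ∈ S (i + 1), ∀ m ∈ S i,
          (∃ m' ∈ S i, mul x m = mul m' x) ∧
          (∃ m' ∈ S i, mul (mul m x) y = mul m' (mul x y)) ∧
          (∃ m' ∈ S i, mul y (mul x m) = mul (mul y x) m')) ∧
        (∀ x ∈ S (i + 1), ∀ y ∈ S (i + 1), ∀ z ∈ S (i + 1),
          (∃ m ∈ S i, mul (mul x y) z = mul (mul x (mul y z)) m) ∧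
          (∃ m ∈ S i, mul x y = mul (mul y x) m))) →
    ∀ P : Set ℕ, ∃ H : Finset Q, e ∈ H ∧ (∀ a ∈ H, ∀ b ∈ H, mul a b ∈ H) ∧
      ∃ k : ℕ, H.card * k = Fintype.card Q ∧
        (∀ p : ℕ, p.Prime → p ∣ H.card → p ∈ P) ∧
        (∀ p : ℕ, p.Prime → p ∣ k → p ∉ P) := by
  intro Q _ mul e h1 hL hR aL _ aT ⟨n, S, s0, sn, hs⟩ P
  let _ : AL.ALoop Q :=
    { mul := mul, one := e, one_mul' := fun x => (h1 x).1, mul_one' := fun x => (h1 x).2,
      bijL := hL, bijR := hR, autL := aL, autT := aT }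
  obtain ⟨T, hT, k, e1, e2, e3⟩ := AL.hall P _ Q rfl ⟨n, S, s0, sn, fun i hi =>
    ⟨⟨(hs i hi).2.1, fun ha hb => (hs i hi).2.2.1 _ ha _ hb⟩, (hs i hi).2.2.2.2⟩⟩
  classical
  have hc : T.toFinset.card = T.ncard := (Set.ncard_eq_toFinset_card' T).symm
  refine ⟨T.toFinset, Set.mem_toFinset.2 hT.one, fun a ha b hb => Set.mem_toFinset.2
    (hT.mul (Set.mem_toFinset.1 ha) (Set.mem_toFinset.1 hb)), k, ?_, hc ▸ e2, e3⟩
  rw [hc, e1, Nat.card_eq_fintype_card]

end Pool.Agent.S01317
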