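import Pool.Statements.S01333
import Pool.Agent.H.MP_43f46b_al.T

set_option autoImplicit false
open Pool Pool.MP_43f46b_al

namespace Pool.Agent.S01333

/-- For every prime p, every finitely generated pro-p group whose numbers dim I^n/I^(n+1) (I the augmentation ideal of its completed F_p-group algebra) grow exponentially contains two elements generating a closed free pro-p subgroup of rank 2. -/
theorem result :
  ∀ (p : ℕ), p.Prime →
  ∀ (G : Type) [Group G] [TopologicalSpace G] [IsTopologicalGroup G] [CompactSpace G]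
    [T2Space G] [TotallyDisconnectedSpace G],
    (∀ N : Subgroup G, N.Normal → IsOpen (N : Set G) → ∃ k : ℕ, N.index = p ^ k) →
    (∃ s : Finset G, Dense ((Subgroup.closure (s : Set G) : Subgroup G) : Set G)) →
    (∃ r : ℝ, 1 < r ∧ ∀ᶠ n : ℕ in Filter.atTop,
      ∃ (N : Subgroup G) (hN : N.Normal), IsOpen (N : Set G) ∧
        r ^ n + ((Module.finrank (ZMod p)
          ↥((Submodule.span (ZMod p) (Set.range fun g : G ⧸ N =>
              (MonoidAlgebra.single g (1 : ZMod p) - 1 : MonoidAlgebra (ZMod p) (G ⧸ N)))) ^ (n + 1)) : ℕ) : ℝ)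
        ≤ ((Module.finrank (ZMod p)
          ↥((Submodule.span (ZMod p) (Set.range fun g : G ⧸ N =>
              (MonoidAlgebra.single g (1 : ZMod p) - 1 : MonoidAlgebra (ZMod p) (G ⧸ N)))) ^ n) : ℕ) : ℝ)) →
    ∃ x y : G, ∀ (P : Type) [Group P] [Finite P], IsPGroup p P → ∀ a b : P,
      ∃ f : ↥((Subgroup.closure ({x, y} : Set G)).topologicalClosure) →* P,
        IsOpen ((f.ker : Set ↥((Subgroup.closure ({x, y} : Set G)).topologicalClosure))) ∧
        (∀ h : ↥((Subgroup.closure ({x, y} : Set G)).topologicalClosure), (h : G) = x → f h = a) ∧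
        (∀ h : ↥((Subgroup.closure ({x, y} : Set G)).topologicalClosure), (h : G) = y → f h = b) := by
  
  intro p hp G _ _ _ _ _ _ _ ⟨s, hs⟩ ⟨r, hr, h⟩
  have := Fact.mk hp
  obtain ⟨n0, h⟩ := Filter.eventually_atTop.1 h
  obtain ⟨x, hx⟩ := H.MP_43f46b_al.limit H.MP_43f46b_al.jc_fl H.MP_43f46b_al.jc1
    (fun a : s => (a : G)) hr (n0 + 1) (fun n hn => by
      obtain ⟨n, rfl⟩ : ∃ m, n = m + 1 := ⟨n - 1, by omega⟩
      obtain ⟨N, hN, ho, h⟩ := h (n + 1) (by omega)
      have := h.trans (Nat.cast_le.2 (H.MP_43f46b_al.count (k := ZMod p) hs N hN ho n))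
      rw [Nat.cast_add] at this
      exact le_of_add_le_add_right this) (H.MP_43f46b_al.jc_open hs)
  exact ⟨x true, x false, H.MP_43f46b_al.free _ (H.MP_43f46b_al.jc_open hs) x hx⟩

end Pool.Agent.S01333
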