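import Pool.Statements.S01339
import Pool.Agent.H.MP_44c8f1_al.A

set_option autoImplicit false
open Pool Pool.MP_44c8f1_al

namespace Pool.Agent.S01339

open Pool.Agent.H.MP_4f47f1_al Pool.Agent.H.MP_44c8f1_al

theorem result :
    ∀ (Form Sat : ((G : Type) → [Group G] → Prop) → Prop),
      (∀ F : (G : Type) → [Group G] → Prop,
        Form F ↔
          ((∀ (G : Type) [Group G], F G → Finite G) ∧
           (∀ (G K : Type) [Group G] [Group K], Nonempty (G ≃* K) → F G → F K) ∧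
           (∀ (G : Type) [Group G] (N : Subgroup G) [N.Normal], F G → F (G ⧸ N)) ∧
           (∀ (G : Type) [Group G] [Finite G] (N L : Subgroup G) [N.Normal] [L.Normal],
              N ⊓ L = ⊥ → F (G ⧸ N) → F (G ⧸ L) → F G))) →
      (∀ F : (G : Type) → [Group G] → Prop,
        Sat F ↔ (∀ (G : Type) [Group G] [Finite G], F (G ⧸ frattini G) → F G)) →
      ∀ (H M F₁ F₂ : (G : Type) → [Group G] → Prop),
        Form H → Sat H → Form M → Sat M → Form F₁ → Form F₂ →
        (∀ (G : Type) [Group G], H G → F₁ G) →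
        (∀ (G : Type) [Group G], H G → F₂ G) →
        (∀ (G : Type) [Group G], F₁ G → M G) →
        (∀ (G : Type) [Group G], F₂ G → M G) →
        (∀ (G : Type) [Group G], F₁ G → F₂ G → H G) →
        (∀ X : (G : Type) → [Group G] → Prop, Form X →
          (∀ (G : Type) [Group G], F₁ G → X G) →
          (∀ (G : Type) [Group G], F₂ G → X G) →
          (∀ (G : Type) [Group G], M G → X G)) →
        Sat F₁ ∧ Sat F₂ := by
  intro Form St hF hS H M F₁ F₂ _ sH fM sM f1 f2 h1 h2 h3 h4 h5 h6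
  have hΦ : ∀ X, Form X ↔ Phi X := by
    intro X
    rw [hF]
    constructor
    · rintro ⟨a, b, c, d⟩
      refine ⟨a, fun G K _ _ f hf hG =>
        b _ _ ⟨QuotientGroup.quotientKerEquivOfSurjective f hf⟩ (c G f.ker hG), ?_⟩
      intro G _ N1 N2 _ _ hb x1 x2
      have := phi_fin.2.2 G N1 N2 hb (a _ x1) (a _ x2)
      exact d G N1 N2 hb x1 x2
    · intro h
      exact ⟨h.1, fun G K _ _ ⟨e⟩ hG => h.iso e hG,
        fun G _ N _ hG => h.2.1 _ _ (QuotientGroup.mk' N) (QuotientGroup.mk'_surjective N) hG,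
        fun G _ _ N L _ _ hb x1 x2 => h.2.2 G N L hb x1 x2⟩
  let B : Fm := ⟨F₁, (hΦ _).1 f1⟩
  let C : Fm := ⟨F₂, (hΦ _).1 f2⟩
  have a1 : Sat (B ⊓ C).mem := fun G _ _ hG =>
    have := (hS H).1 sH G (h5 _ hG.1 hG.2)
    ⟨h1 G this, h2 G this⟩
  have a2 : Sat (B ⊔ C).mem := fun G _ _ hG =>
    h6 _ ((hΦ _).2 (B ⊔ C).ok) (le_sup_left : B ≤ B ⊔ C) (le_sup_right : C ≤ B ⊔ C) G
      ((hS M).1 sM G (hG M ((hΦ _).1 fM) h3 h4))
  exact ⟨(hS _).2 (sat_left B C a1 a2),
    (hS _).2 (sat_left C B (by rwa [inf_comm]) (by rwa [sup_comm]))⟩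

end Pool.Agent.S01339
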