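import Pool.Statements.S01377
import Pool.Agent.H.MP_4a16d5_al.G

set_option autoImplicit false
open Pool Pool.MP_4a16d5_al

namespace Pool.Agent.S01377

theorem result :
    ∀ (R : Type) [Ring R] [Finite R] [IsLocalRing R],
      ∃ (C : Type) (_ : CommRing C) (n : ℕ) (f : R →+* Matrix (Fin n) (Fin n) C),
        Function.Injective f := by
  intro R _ _ _
  exact Pool.Agent.H.MP_4a16d5_al.main R

end Pool.Agent.S01377
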