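import Pool.Statements.S01380
import Pool.Agent.H.MP_4a5c06_al.Ping

set_option autoImplicit false
open Pool Pool.MP_4a5c06_al

namespace Pool.Agent.S01380

open Pool.Agent.H.MP_4a5c06_al Matrix
open scoped commutatorElement

lemma XX : X * X = 1 := Units.ext X.val_inv

noncomputable def C2 : Subgroup G where
  carrier := {h | h = 1 ∨ h = X}
  mul_mem' := by rintro _ _ (rfl | rfl) (rfl | rfl) <;> simp [XX]
  one_mem' := Or.inl rfl
  inv_mem' := by
    rintro _ (rfl | rfl)
    · simp
    · right; rfl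

noncomputable def H (b : Bool) : Subgroup G := if b then E else C2

noncomputable def φ : Monoid.CoprodI (fun b => H b) →* G :=
  Monoid.CoprodI.lift (fun b => (H b).subtype)

lemma X_ne : X ≠ 1 := fun h => v₀_not (by simpa [h] using pingX v₀_indep v₀_not)

lemma tv_ne (i j : Fin 3) (h : i ≠ j) : tv i j h 1 ≠ 1 := fun e => by
  have := congrArg (fun u : G => u.1 i j) e
  simp [tv, h] at this

lemma φ_inj : Function.Injective φ := by
  refine Monoid.CoprodI.lift_injective_of_ping_pong _ (Or.inr ⟨true, ?_⟩)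
    (fun b => {v : Om | Indep v ∧ if b then ¬ PB v else PB v}) ?_ ?_ ?_
  · have : Cardinal.mk (Fin 3) ≤ Cardinal.mk (H true) := by
      refine Cardinal.mk_le_of_injective (f := ![1, ⟨tv 0 1 (by decide) 1, tv_mem _ _ _ _⟩,
        ⟨tv 0 2 (by decide) 1, tv_mem _ _ _ _⟩]) ?_
      have h1 := tv_ne 0 1 (by decide)
      have h2 := tv_ne 0 2 (by decide)
      have h3 : tv 0 1 (by decide) 1 ≠ tv 0 2 (by decide) 1 := fun e => by
        have := congrArg (fun u : G => u.1 0 1) e
        simp [tv] at this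
      intro a b hab
      have hab := congrArg Subtype.val hab
      fin_cases a <;> fin_cases b
      exacts [rfl, absurd hab.symm h1, absurd hab.symm h2, absurd hab h1, rfl, absurd hab h3,
        absurd hab h2, absurd hab.symm h3, rfl]
    simpa using this
  · rintro (_ | _)
    · exact ⟨X • v₀, v₀_indep.smul X, pingX v₀_indep v₀_not⟩
    · exact ⟨v₀, v₀_indep, v₀_not⟩
  · rintro (_ | _) (_ | _) h <;> simp [Function.onFun, Set.disjoint_left] at h ⊢ <;> tauto
  · rintro (_ | _) (_ | _) h ⟨g, hg⟩ hg1 _ ⟨v, hv, rfl⟩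
    · exact absurd rfl h
    · rcases hg with rfl | rfl
      · exact absurd rfl hg1
      · exact ⟨hv.1.smul _, pingX hv.1 hv.2⟩
    · exact ⟨hv.1.smul _, pingE hv.1 hv.2 hg (fun e => hg1 (Subtype.ext e))⟩
    · exact absurd rfl h

noncomputable def g₀ : G := tv 0 1 (by decide) (zz 0 1 + 1)

lemma gg : g₀ * g₀ = 1 := Units.ext g₀.val_inv

open Classical in
noncomputable def ψ₀ : C2 →* G where
  toFun h := if h.1 = 1 then 1 else g₀
  map_one' := by simp
  map_mul' := by
    rintro ⟨_, rfl | rfl⟩ ⟨_, rfl | rfl⟩ <;> simp [XX, X_ne, gg]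

noncomputable def ψ : Monoid.CoprodI (fun b => H b) →* G :=
  Monoid.CoprodI.lift (fun b => match b with
    | true => E.subtype
    | false => ψ₀)

noncomputable def N : Subgroup G := ψ.ker.map φ

noncomputable def oE (e : G) (he : e ∈ E) : Monoid.CoprodI (fun b => H b) :=
  Monoid.CoprodI.of (M := fun b => H b) (i := true) ⟨e, he⟩

noncomputable def oX : Monoid.CoprodI (fun b => H b) :=
  Monoid.CoprodI.of (M := fun b => H b) (i := false) ⟨X, Or.inr rfl⟩

lemma φE (e : G) (he : e ∈ E) : φ (oE e he) = e := Monoid.CoprodI.lift_of _ _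
lemma ψE (e : G) (he : e ∈ E) : ψ (oE e he) = e := Monoid.CoprodI.lift_of _ _
lemma φX : φ oX = X := Monoid.CoprodI.lift_of _ _
lemma ψX : ψ oX = g₀ := (Monoid.CoprodI.lift_of _ _).trans (if_neg X_ne)

lemma g₀_mem : g₀ ∈ E := tv_mem _ _ _ _

lemma hN : ∀ e ∈ E, ∀ x ∈ N, e * x * e⁻¹ ∈ N := by
  rintro e he _ ⟨w, hw, rfl⟩
  refine ⟨oE e he * w * (oE e he)⁻¹, (MonoidHom.normal_ker ψ).conj_mem w hw _, ?_⟩
  rw [map_mul, map_mul, map_inv, φE]

lemma gX : g₀ * X ∈ N :=
  ⟨oE g₀ g₀_mem * oX, by rw [SetLike.mem_coe, MonoidHom.mem_ker, map_mul, ψE, ψX, gg],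
    by rw [map_mul, φE, φX]⟩

theorem result :
    ¬ (∀ (R : Type) [Ring R] (n : ℕ), 3 ≤ n →
      ∀ E : Subgroup (Matrix (Fin n) (Fin n) R)ˣ,
        E = Subgroup.closure
          {g : (Matrix (Fin n) (Fin n) R)ˣ |
            ∃ i j : Fin n, ∃ c : R, i ≠ j ∧
              (g : Matrix (Fin n) (Fin n) R) =
                1 + Matrix.of (fun a b => if a = i ∧ b = j then c else 0)} →
      ∀ N : Subgroup (Matrix (Fin n) (Fin n) R)ˣ,
        (∀ e ∈ E, ∀ x ∈ N, e * x * e⁻¹ ∈ N) →
        E ≤ N ∨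
          ∃ I : TwoSidedIdeal R, I ≠ ⊤ ∧
            ∀ g ∈ ⁅N, E⁆, ∀ i j : Fin n,
              (g : Matrix (Fin n) (Fin n) R) i j - (1 : Matrix (Fin n) (Fin n) R) i j ∈ I) := by
  intro h
  rcases h RR 3 le_rfl E rfl N hN with h | ⟨I, hI, h⟩
  · obtain ⟨w, hw, e⟩ := h (tv_mem 0 1 (by decide) 1)
    rw [← φE _ (tv_mem 0 1 (by decide) 1)] at e
    rw [φ_inj e, SetLike.mem_coe, MonoidHom.mem_ker, ψE] at hw
    exact tv_ne _ _ _ hw
  · let f : RR →+* I.ringCon.Quotient := I.ringCon.mk'
    have hf : ∀ a b, a - b ∈ I → f a = f b := fun a b hab =>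
      (RingCon.eq _).2 ((I.rel_iff a b).2 hab)
    have hc : ∀ i j (hij : i ≠ j), f.mapMatrix (g₀ * X).1 * single i j 1 =
        single i j 1 * f.mapMatrix (g₀ * X).1 := by
      intro i j hij
      have h1 : f.mapMatrix (⁅g₀ * X, tv i j hij 1⁆ : G).1 = 1 := by
        rw [← map_one f.mapMatrix]
        ext1 a b
        exact hf _ _ (h _ (Subgroup.commutator_mem_commutator gX (tv_mem i j hij 1)) a b)
      have h2 : g₀ * X * tv i j hij 1 = ⁅g₀ * X, tv i j hij 1⁆ * (tv i j hij 1 * (g₀ * X)) := by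
        rw [commutatorElement_def]; group
      have h3 := congrArg (fun u : G => f.mapMatrix u.1) h2
      simp only [Units.val_mul (g₀ * X), Units.val_mul ⁅_, _⁆, Units.val_mul (tv _ _ _ _),
        map_mul, h1, one_mul] at h3
      have h4 : f.mapMatrix (tv i j hij 1).1 = 1 + single i j 1 := by
        show f.mapMatrix (1 + single i j 1) = _
        rw [map_add, map_one]
        congr 1
        ext1 a b
        simp [single, apply_ite f]
      rw [h4, mul_add, add_mul, mul_one, one_mul] at h3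
      exact add_left_cancel h3
    have a := hc 0 1 (by decide)
    have b := hc 1 2 (by decide)
    have a1 := congrFun (congrFun a 1) 1
    have a2 := congrFun (congrFun a 2) 1
    have a3 := congrFun (congrFun a 0) 1
    have b1 := congrFun (congrFun b 0) 2
    have z0 := congrArg f (congrFun (congrFun ZZ 0) 0)
    simp [g₀, X, tv, Z, Matrix.mul_apply, Fin.sum_univ_three, Matrix.one_apply] at a1 a2 a3 b1 z0
    have two : ∀ r : RR, f r + f r = 0 := fun r => by rw [← map_add, RR.two, map_zero]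
    apply hI
    rw [← TwoSidedIdeal.one_mem_iff, TwoSidedIdeal.mem_iff, ← RingCon.eq]
    show f 1 = f 0
    rw [map_one, map_zero]
    rw [a1, a2, mul_zero, mul_zero, add_zero, add_zero] at z0
    rw [a1, mul_zero, add_zero, add_right_inj] at a3
    rw [← a3] at b1
    have t1 := two (zz 0 1)
    generalize f (zz 0 0) = ε at z0 b1
    generalize f (zz 0 1) = y at t1 b1
    have b2 : y * ε + 1 + ε = 0 := by
      rw [← b1, ← add_zero (y * ε + 1 + ε), ← t1]; noncomm_ring
    have b3 : ε = 0 := by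
      have := congrArg (· * ε) b2
      simpa [add_mul, mul_assoc, z0] using this
    simpa [b3] using b2

end Pool.Agent.S01380
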