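import Pool.Statements.S01402
-- import your own Pool.Agent.* helpers here

set_option autoImplicit false
open Pool Pool.MP_4c94d3_al

namespace Pool.Agent.S01402
open FreeGroup hiding map_mul map_inv map_one
open Filter
open scoped Pointwise

abbrev F := FreeGroup Bool
abbrev Wd := List (Bool × Bool)
def a : F := of false
def b : F := of true
def xx (k : ℤ) : F := a ^ k * b * a ^ (-k)
def H : Subgroup F := Subgroup.closure {g | ∃ k : ℤ, 1 ≤ k ∧ g = xx k}

lemma xx_mem {k : ℤ} (hk : 1 ≤ k) : xx k ∈ H := Subgroup.subset_closure ⟨k, hk, rfl⟩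

/-! ### the monoid embedding -/

abbrev Y := (ℤ → H) × ℤ

noncomputable def eta : H →* Equiv.Perm Y := MonoidHom.mk'
  (fun h => Equiv.prodCongr (Equiv.mulLeft (Pi.mulSingle 0 h)) (Equiv.refl _)) (fun h k => by
    ext1 y
    simp [Pi.mulSingle_mul, mul_assoc, Prod.map])

def tau : Equiv.Perm Y :=
  ⟨fun y => (fun i => y.1 (i - 1), y.2 + 1), fun y => (fun i => y.1 (i + 1), y.2 - 1),
    fun y => by simp, fun y => by simp⟩

noncomputable def yy (k : ℤ) : Equiv.Perm Y :=
  if h : 1 ≤ k then eta ⟨xx k, xx_mem h⟩ else tau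

noncomputable def rho : F →* Equiv.Perm (Y × ℤ) := lift fun i =>
  if i then Equiv.prodCongrLeft fun n => yy (-n)
  else Equiv.prodCongr (Equiv.refl _) (Equiv.addRight 1)

lemma rho_b (y : Y) (n : ℤ) : rho b (y, n) = (yy (-n) y, n) := by simp [rho, b]

lemma rho_a (k : ℤ) (y : Y) (n : ℤ) : rho (a ^ k) (y, n) = (y, n + k) := by
  have h : rho a = Equiv.prodCongr (Equiv.refl _) (Equiv.addRight 1) := by simp [rho, a]
  rw [map_zpow, h]
  induction k using Int.induction_on generalizing n with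
  | zero => simp
  | succ k ih =>
    rw [zpow_add_one, Equiv.Perm.mul_apply]
    have : (Equiv.prodCongr (Equiv.refl Y) (Equiv.addRight (1 : ℤ))) (y, n) = (y, n + 1) := rfl
    rw [this, ih]
    congr 1; ring
  | pred k ih =>
    rw [zpow_sub_one, Equiv.Perm.mul_apply]
    have : (Equiv.prodCongr (Equiv.refl Y) (Equiv.addRight (1 : ℤ)))⁻¹ (y, n) = (y, n - 1) := by
      rw [Equiv.Perm.inv_eq_iff_eq]; simp
    rw [this, ih]
    congr 1; ring

lemma rho_H (g : F) (hg : g ∈ H) (y : Y) : rho g (y, 0) = (eta ⟨g, hg⟩ y, 0) := by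
  induction hg using Subgroup.closure_induction generalizing y with
  | mem g hg =>
    obtain ⟨k, hk, rfl⟩ := hg
    have : rho (xx k) (y, 0) = (yy k y, 0) := by
      rw [xx, map_mul, map_mul, Equiv.Perm.mul_apply, Equiv.Perm.mul_apply, rho_a, rho_b, rho_a]
      simp
    rw [this, yy, dif_pos hk]
  | one => exact (by simp : rho 1 (y, 0) = (eta 1 y, 0))
  | mul g h hg hh ig ih =>
    rw [map_mul, Equiv.Perm.mul_apply, ih, ig]
    exact congrArg (fun e : Equiv.Perm Y => (e y, (0 : ℤ))) (map_mul eta ⟨g, hg⟩ ⟨h, hh⟩).symm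
  | inv g hg ig =>
    rw [map_inv, Equiv.Perm.inv_eq_iff_eq, ig]
    have : eta ⟨g⁻¹, H.inv_mem hg⟩ = (eta ⟨g, hg⟩)⁻¹ := map_inv eta ⟨g, hg⟩
    simp [this]

abbrev P := Monoid.Coprod H (Multiplicative ℕ)
def tt : P := Monoid.Coprod.inr (Multiplicative.ofAdd 1)
noncomputable def ff : P →* F := Monoid.Coprod.lift H.subtype (powersHom F b)

def ev : ℕ → (ℤ → H) → P
  | 0, s => Monoid.Coprod.inl (s 0)
  | k + 1, s => Monoid.Coprod.inl (s 0) * tt * ev k (fun i => s (i + 1))

lemma ev_congr (k : ℕ) : ∀ s s' : ℤ → H, (∀ i, 0 ≤ i → s i = s' i) → ev k s = ev k s' := by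
  induction k with
  | zero => intro s s' h; rw [ev, ev, h 0 le_rfl]
  | succ k ih =>
    intro s s' h
    rw [ev, ev, h 0 le_rfl, ih _ (fun i => s' (i + 1)) fun i hi => h _ (by omega)]

lemma decode (p : P) : ∃ (k : ℕ) (s : ℤ → H), rho (ff p) ((1, 0), 0) = ((s, (k : ℤ)), 0) ∧
    ev k s = p ∧ ∀ i < 0, s i = 1 := by
  have ht : ∀ p : P, (∃ (k : ℕ) (s : ℤ → H), rho (ff p) ((1, 0), 0) = ((s, (k : ℤ)), 0) ∧
      ev k s = p ∧ ∀ i < 0, s i = 1) → ∃ (k : ℕ) (s : ℤ → H),
      rho (ff (tt * p)) ((1, 0), 0) = ((s, (k : ℤ)), 0) ∧ ev k s = tt * p ∧ ∀ i < 0, s i = 1 := by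
    rintro p ⟨k, s, h1, h2, h3⟩
    refine ⟨k + 1, fun i => s (i - 1), ?_, ?_, fun i hi => h3 _ (by omega)⟩
    · have : ff tt = b := by simp [ff, tt]
      rw [map_mul, map_mul, Equiv.Perm.mul_apply, h1, this, rho_b]
      simp [yy, tau]
    · rw [ev, h3 _ (by omega), map_one, one_mul, ← h2]
      simp
  induction p using Monoid.Coprod.induction_on' with
  | one => exact ⟨0, 1, by simp, by simp [ev], fun _ _ => rfl⟩
  | inl_mul h p ih =>
    obtain ⟨k, s, h1, h2, h3⟩ := ih
    refine ⟨k, Pi.mulSingle 0 h * s, ?_, ?_, fun i hi => ?_⟩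
    · have : ff (Monoid.Coprod.inl h) = h := by simp [ff]
      rw [map_mul, map_mul, Equiv.Perm.mul_apply, h1, this, rho_H _ h.2]
      rfl
    · rw [← h2]
      cases k with
      | zero => simp [ev]
      | succ k =>
        rw [ev, ev, ev_congr k _ (fun i => s (i + 1)) fun i hi => by
          rw [Pi.mul_apply, Pi.mulSingle_eq_of_ne (by omega), one_mul]]
        simp [mul_assoc]
    · rw [Pi.mul_apply, Pi.mulSingle_eq_of_ne hi.ne, one_mul, h3 i hi]
  | inr_mul n p ih =>
    have : Monoid.Coprod.inr n = tt ^ (Multiplicative.toAdd n) := by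
      rw [tt, ← map_pow, ← ofAdd_nsmul]; simp
    rw [this]
    induction Multiplicative.toAdd n with
    | zero => simpa using ih
    | succ m im => rw [pow_succ', mul_assoc]; exact ht _ im

lemma ff_inj : Function.Injective ff := by
  intro p q h
  obtain ⟨k, s, h1, h2, -⟩ := decode p
  obtain ⟨l, t, h3, h4, -⟩ := decode q
  rw [h, h3] at h1
  simp only [Prod.mk.injEq, Nat.cast_inj, and_true] at h1
  rw [← h2, ← h4, h1.1, h1.2]

/-! ### counting words -/

def ex : Wd → ℤ
  | [] => 0
  | (false, true) :: L => 1 + ex L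
  | (false, false) :: L => -1 + ex L
  | (true, _) :: L => ex L

def fl (p : Bool × Bool) : Bool × Bool := if p.1 then p else (p.1, !p.2)

lemma fl_inj : Function.Injective fl := by decide

lemma ex_append (L M : Wd) : ex (L ++ M) = ex L + ex M := by
  induction L with
  | nil => simp [ex]
  | cons c L ih => rcases c with ⟨_ | _, _ | _⟩ <;> simp [ex, ih, add_assoc]

lemma ex_fl (L : Wd) : ex (L.map fl) = -ex L := by
  induction L with
  | nil => simp [ex]
  | cons c L ih => rcases c with ⟨_ | _, _ | _⟩ <;> simp [ex, ih, fl, add_comm]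

lemma ex_abs (L : Wd) : -(L.length : ℤ) ≤ ex L ∧ ex L ≤ L.length := by
  induction L with
  | nil => simp [ex]
  | cons c L ih => rcases c with ⟨_ | _, _ | _⟩ <;> simp only [ex, List.length_cons] <;> omega

lemma conj_mem (L : Wd) : ∀ j : ℤ, (L.length : ℤ) + 1 ≤ j → a ^ j * mk L * a ^ (-(j + ex L)) ∈ H := by
  induction L with
  | nil => intro j _; rw [← one_eq_mk]; simpa [ex] using H.one_mem
  | cons c L ih =>
    intro j hj
    rw [List.length_cons] at hj
    have e : mk (c :: L) = mk [c] * mk L := by rw [mul_mk]; rfl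
    rw [e]
    rcases c with ⟨_ | _, _ | _⟩
    · have := ih (j - 1) (by push_cast at hj; omega)
      convert this using 1
      rw [show mk [(false, false)] = a⁻¹ from rfl, ex]
      group
    · have := ih (j + 1) (by push_cast at hj; omega)
      convert this using 1
      rw [show mk [(false, true)] = a from rfl, ex]
      group
    · have := H.mul_mem (H.inv_mem (xx_mem (k := j) (by omega))) (ih j (by push_cast at hj; omega))
      convert this using 1
      rw [show mk [(true, false)] = b⁻¹ from rfl, ex, xx]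
      group
    · have := H.mul_mem (xx_mem (k := j) (by omega)) (ih j (by push_cast at hj; omega))
      convert this using 1
      rw [show mk [(true, true)] = b from rfl, ex, xx]
      group

def Good (L : Wd) : Prop :=
  IsReduced L ∧ L.head? = some (true, true) ∧ L.getLast? = some (true, true)

lemma pad {L : Wd} (h : IsReduced L) : ∃ u v : Wd, u.length = 2 ∧ v.length = 2 ∧
    Good (u ++ L ++ v) := by
  obtain ⟨u, hu, h1, h2⟩ : ∃ u : Wd, u.length = 2 ∧ IsReduced (u ++ L) ∧
      u.head? = some (true, true) := by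
    by_cases hc : L.head? = some (true, false)
    · refine ⟨[(true, true), (false, true)], rfl, List.isChain_append.2 ⟨by decide, h, ?_⟩, rfl⟩
      simp [hc]
    · refine ⟨[(true, true), (true, true)], rfl, List.isChain_append.2 ⟨by decide, h, ?_⟩, rfl⟩
      intro x hx
      obtain rfl : (true, true) = x := by simpa using hx
      rintro ⟨_ | _, _ | _⟩ hy <;> simp_all
  obtain ⟨v, hv, h3, h4⟩ : ∃ v : Wd, v.length = 2 ∧ IsReduced (u ++ L ++ v) ∧
      v.getLast? = some (true, true) := by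
    by_cases hc : (u ++ L).getLast? = some (true, false)
    · refine ⟨[(false, true), (true, true)], rfl, List.isChain_append.2 ⟨h1, by decide, ?_⟩, rfl⟩
      rw [hc]; simp
    · refine ⟨[(true, true), (true, true)], rfl, List.isChain_append.2 ⟨h1, by decide, ?_⟩, rfl⟩
      generalize (u ++ L).getLast? = o at hc
      intro x hx y hy
      obtain rfl : (true, true) = y := by simpa using hy
      rcases x with ⟨_ | _, _ | _⟩ <;> simp_all
  refine ⟨u, v, hu, hv, h3, ?_, ?_⟩
  · rw [List.append_assoc, List.head?_append, h2]; rfl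
  · rw [List.getLast?_append, h4]; rfl

lemma Good.fl {L : Wd} (h : Good L) : Good (L.map fl) := by
  refine ⟨?_, by rw [List.head?_map, h.2.1]; rfl, by rw [List.getLast?_map, h.2.2]; rfl⟩
  refine (List.isChain_map _).2 (h.1.imp ?_)
  decide

lemma Good.append {L M : Wd} (h : Good L) (h1 : IsReduced M) (h2 : ∀ y ∈ M.head?, y = (true, true)) :
    IsReduced (L ++ M) ∧ ∀ y ∈ (L ++ M).head?, y = (true, true) := by
  refine ⟨List.isChain_append.2 ⟨h.1, h1, fun x hx y hy _ => ?_⟩, fun y hy => ?_⟩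
  · rw [h.2.2] at hx
    rw [h2 y hy, ← Option.mem_some_iff.1 hx]
  · rw [List.head?_append, h.2.1] at hy
    exact (Option.mem_some_iff.1 hy).symm

def W (Ω : Finset Wd) : ℕ → Finset Wd
  | 0 => {[]}
  | k + 1 => (Ω ×ˢ Ω ×ˢ W Ω k).image fun p => p.1 ++ (p.2.1.map fl ++ p.2.2)

lemma W_card {Ω : Finset Wd} {l : ℕ} (h : ∀ L ∈ Ω, L.length = l) (k : ℕ) :
    (W Ω k).card = Ω.card ^ (2 * k) := by
  induction k with
  | zero => simp [W]
  | succ k ih =>
    rw [W, Finset.card_image_of_injOn, Finset.card_product, Finset.card_product, ih]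
    · ring
    · rintro ⟨x, y, w⟩ hp ⟨x', y', w'⟩ hq e
      simp only [Finset.coe_product, Set.mem_prod, Finset.mem_coe] at hp hq
      obtain ⟨e1, e2⟩ := List.append_inj e (by rw [h x hp.1, h x' hq.1])
      obtain ⟨e3, e4⟩ := List.append_inj e2 (by simp [h y hp.2.1, h y' hq.2.1])
      exact Prod.ext e1 (Prod.ext ((List.map_injective_iff.2 fl_inj) e3) e4)

lemma W_prop {Ω : Finset Wd} {l : ℕ} {e : ℤ} (h : ∀ L ∈ Ω, Good L ∧ L.length = l ∧ ex L = e)
    {J : ℤ} (hJ : 2 * (l : ℤ) + 1 ≤ J) (k : ℕ) : ∀ w ∈ W Ω k, (IsReduced w ∧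
      ∀ y ∈ w.head?, y = (true, true)) ∧ w.length = 2 * l * k ∧ a ^ J * mk w * a ^ (-J) ∈ H := by
  induction k with
  | zero =>
    intro w hw
    rw [W, Finset.mem_singleton] at hw
    subst hw
    exact ⟨⟨IsReduced.nil, by simp⟩, rfl, by rw [← one_eq_mk]; simpa using H.one_mem⟩
  | succ k ih =>
    intro w hw
    obtain ⟨⟨x, y, v⟩, hp, rfl⟩ := Finset.mem_image.1 hw
    simp only [Finset.mem_product] at hp
    obtain ⟨g1, l1, e1⟩ := h x hp.1
    obtain ⟨g2, l2, e2⟩ := h y hp.2.1
    obtain ⟨r, l3, m⟩ := ih v hp.2.2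
    have r2 := g2.fl.append r.1 r.2
    refine ⟨g1.append r2.1 r2.2, by simp [l1, l2, l3]; ring, ?_⟩
    have h1 := conj_mem (x ++ y.map fl) J (by simp [l1, l2]; omega)
    rw [ex_append, ex_fl, e1, e2, add_neg_cancel, add_zero] at h1
    convert H.mul_mem h1 m using 1
    rw [← List.append_assoc, ← mul_mk]
    group

def S : Finset F := {a, b}

def ball (n : ℕ) : Set F :=
  {g | ∃ l : List F, l.length ≤ n ∧ (∀ x ∈ l, x ∈ S ∨ x⁻¹ ∈ S) ∧ l.prod = g}

lemma norm_S {x : F} (h : x ∈ S) : norm x = 1 := by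
  rcases Finset.mem_insert.1 h with rfl | h
  · exact norm_of _
  · rw [Finset.mem_singleton.1 h]; exact norm_of _

lemma mem_ball {n : ℕ} {g : F} : g ∈ ball n ↔ norm g ≤ n := by
  constructor
  · rintro ⟨l, h1, h2, rfl⟩
    refine le_trans ?_ h1
    clear h1
    induction l with
    | nil => simp
    | cons x l ih =>
      have h3 := ih fun y hy => h2 y (by simp [hy])
      have h4 := norm_mul_le x l.prod
      have h5 : norm x = 1 := by
        rcases h2 x (by simp) with h | h
        · exact norm_S h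
        · rw [← norm_inv_eq, norm_S h]
      rw [List.prod_cons, List.length_cons]
      omega
  · intro h
    refine ⟨g.toWord.map fun c => mk [c], by rw [List.length_map]; exact h, fun x hx => ?_, ?_⟩
    · obtain ⟨c, -, rfl⟩ := List.mem_map.1 hx
      rcases c with ⟨_ | _, _ | _⟩
      · exact Or.inr (Finset.mem_insert_self _ _)
      · exact Or.inl (Finset.mem_insert_self _ _)
      · exact Or.inr (Finset.mem_insert_of_mem (Finset.mem_singleton_self _))
      · exact Or.inl (Finset.mem_insert_of_mem (Finset.mem_singleton_self _))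
    · conv_rhs => rw [← mk_toWord (x := g)]
      induction g.toWord with
      | nil => rfl
      | cons c L ih => rw [List.map_cons, List.prod_cons, ih, mul_mk]; rfl

lemma ball_sub (n : ℕ) : ball n ⊆ (({1, a, a⁻¹, b, b⁻¹} : Finset F) ^ n : Finset F) := by
  rintro g ⟨l, h1, h2, rfl⟩
  have : l.prod ∈ ({1, a, a⁻¹, b, b⁻¹} : Finset F) ^ l.length := by
    clear h1
    induction l with
    | nil => simp
    | cons x l ih =>
      rw [List.prod_cons, List.length_cons, pow_succ']
      refine Finset.mul_mem_mul ?_ (ih fun y hy => h2 y (by simp [hy]))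
      have := h2 x (by simp)
      simp only [S, Finset.mem_insert, Finset.mem_singleton, inv_eq_iff_eq_inv] at this ⊢
      tauto
  exact Finset.pow_subset_pow_right (by simp) h1 this

lemma ball_fin (n : ℕ) : (ball n).Finite := (Finset.finite_toSet _).subset (ball_sub n)

lemma ball_card (n : ℕ) : (ball n).ncard ≤ 5 ^ n := by
  refine (Set.ncard_le_ncard (ball_sub n) (Finset.finite_toSet _)).trans ?_
  rw [Set.ncard_coe_finset]
  exact Finset.card_pow_le.trans (Nat.pow_le_pow_left Finset.card_le_five n)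

lemma key (m : ℕ) : ∃ q : ℕ, (ball m).ncard ≤ (m + 5) * (2 * m + 9) * q ∧
    ∀ k, q ^ (2 * k) ≤ {g | g ∈ H ∧ g ∈ ball ((2 * m + 8) * k + (4 * m + 18))}.ncard := by
  choose u v hu hv hg using fun g : F => pad (isReduced_toWord (x := g))
  let pd : F → Wd := fun g => u g ++ g.toWord ++ v g
  have hinj : Function.Injective pd := by
    intro g g' e
    have e1 := (List.append_inj' e (by rw [hv, hv])).1
    exact toWord_injective (List.append_inj e1 (by rw [hu, hu])).2
  let B := (ball_fin m).toFinset.image pd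
  have hB : ∀ L ∈ B, Good L ∧ L.length ≤ m + 4 := by
    intro L hL
    obtain ⟨g, h, rfl⟩ := Finset.mem_image.1 hL
    have : norm g ≤ m := mem_ball.1 ((Set.Finite.mem_toFinset _).1 h)
    refine ⟨hg g, ?_⟩
    simp only [pd, List.length_append, hu, hv]
    unfold FreeGroup.norm at this
    omega
  let T := Finset.range (m + 5) ×ˢ Finset.Icc (-(m + 4 : ℤ)) (m + 4)
  have hT : T.card = (m + 5) * (2 * m + 9) := by
    rw [Finset.card_product, Finset.card_range, Int.card_Icc]
    congr 1
    omega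
  obtain ⟨c, -, hc⟩ := T.exists_max_image
    (fun c => (B.filter fun L => (L.length, ex L) = c).card) ⟨(0, 0), by simp [T]; omega⟩
  refine ⟨(B.filter fun L => (L.length, ex L) = c).card, ?_, fun k => ?_⟩
  · rw [Set.ncard_eq_toFinset_card _ (ball_fin m), ← Finset.card_image_of_injective _ hinj, ← hT,
      mul_comm]
    refine Finset.card_le_mul_card_image_of_maps_to (f := fun L => (L.length, ex L))
      (fun L hL => ?_) _ hc
    have h1 := (hB L hL).2
    have h2 := ex_abs L
    simp only [T, Finset.mem_product, Finset.mem_range, Finset.mem_Icc]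
    omega
  · set Ω := B.filter fun L => (L.length, ex L) = c
    rcases Ω.eq_empty_or_nonempty with h0 | ⟨L0, h0⟩
    · have : 0 < {g | g ∈ H ∧ g ∈ ball ((2 * m + 8) * k + (4 * m + 18))}.ncard :=
        (Set.ncard_pos ((ball_fin _).subset fun _ h => h.2)).2 ⟨1, H.one_mem, mem_ball.2 (by simp)⟩
      rw [h0, Finset.card_empty]
      exact (Nat.pow_le_pow_left (Nat.zero_le 1) _).trans (by rw [one_pow]; exact this)
    have hΩ : ∀ L ∈ Ω, Good L ∧ L.length = c.1 ∧ ex L = c.2 := fun L hL =>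
      ⟨(hB L (Finset.mem_filter.1 hL).1).1, congrArg Prod.fst (Finset.mem_filter.1 hL).2,
        congrArg Prod.snd (Finset.mem_filter.1 hL).2⟩
    have hl : c.1 ≤ m + 4 := (hΩ L0 h0).2.1 ▸ (hB L0 (Finset.mem_filter.1 h0).1).2
    have hW := W_prop hΩ (J := ((2 * m + 9 : ℕ) : ℤ)) (by push_cast; omega) k
    rw [← W_card (fun L hL => (hΩ L hL).2.1) k, ← Set.ncard_coe_finset]
    refine Set.ncard_le_ncard_of_injOn
      (fun w => a ^ ((2 * m + 9 : ℕ) : ℤ) * mk w * a ^ (-((2 * m + 9 : ℕ) : ℤ)))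
      (fun w hw => ⟨(hW w hw).2.2, mem_ball.2 ?_⟩) (fun w hw w' hw' e => ?_)
      ((ball_fin _).subset fun _ h => h.2)
    · have h1 := norm_mul_le (a ^ ((2 * m + 9 : ℕ) : ℤ) * mk w) (a ^ (-((2 * m + 9 : ℕ) : ℤ)))
      have h2 := norm_mul_le (a ^ ((2 * m + 9 : ℕ) : ℤ)) (mk w)
      have h3 : norm (a ^ ((2 * m + 9 : ℕ) : ℤ)) = 2 * m + 9 := by
        rw [zpow_natCast]; exact norm_of_pow _ _
      have h4 : norm (a ^ (-((2 * m + 9 : ℕ) : ℤ))) = 2 * m + 9 := by
        rw [zpow_neg, norm_inv_eq, h3]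
      have h5 : norm (mk w) ≤ w.length := norm_mk_le
      have h6 := (hW w hw).2.1
      have h7 : 2 * c.1 * k ≤ (2 * m + 8) * k := Nat.mul_le_mul_right _ (by omega)
      omega
    · have e1 : mk w = mk w' := mul_left_cancel (mul_right_cancel e)
      have e2 := congrArg toWord e1
      rwa [toWord_mk, toWord_mk, (hW w hw).1.1.reduce_eq, (hW w' hw').1.1.reduce_eq] at e2

lemma root_pow (x : ℝ) (hx : 0 ≤ x) {n : ℕ} (hn : n ≠ 0) : (x ^ ((1 : ℝ) / n)) ^ n = x := by
  rw [one_div, Real.rpow_inv_natCast_pow hx hn]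


/-- The negation of the preceding statement: If H is a nontrivial subgroup of G and H together with some t generates a copy of the free product H*ℕ inside G, then for every finite generating set of G, the relative growth rate of H is strictly less than the growth rate of G. -/
theorem result :
    ¬ (∀ (G : Type) [Group G] (H : Subgroup G), H ≠ ⊥ →
      (∃ f : Monoid.Coprod (↥H) (Multiplicative ℕ) →* G,
          Function.Injective f ∧ f.comp Monoid.Coprod.inl = H.subtype) →
      ∀ S : Finset G, Subgroup.closure (S : Set G) = ⊤ →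
        Filter.limsup
            (fun n : ℕ =>
              ((Set.ncard {g : G | g ∈ H ∧ ∃ l : List G, l.length ≤ n ∧
                  (∀ x ∈ l, x ∈ S ∨ x⁻¹ ∈ S) ∧ l.prod = g} : ℕ) : ℝ) ^ ((1 : ℝ) / (n : ℝ)))
            Filter.atTop
          <
        Filter.limsup
            (fun n : ℕ =>
              ((Set.ncard {g : G | ∃ l : List G, l.length ≤ n ∧
                  (∀ x ∈ l, x ∈ S ∨ x⁻¹ ∈ S) ∧ l.prod = g} : ℕ) : ℝ) ^ ((1 : ℝ) / (n : ℝ)))
            Filter.atTop) := by
  intro HH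
  have hlt := HH F H (by
    intro h
    have h1 : (⟨xx 1, xx_mem le_rfl⟩ : H) = 1 := Subtype.ext (Subgroup.mem_bot.1 (h ▸ xx_mem le_rfl))
    have h2 : xx 1 = 1 := congrArg Subtype.val h1
    have h3 := congrArg (lift fun i : Bool => if i then Multiplicative.ofAdd (1 : ℤ) else 1) h2
    simp [xx, a, b] at h3)
    ⟨ff, ff_inj, by ext; simp [ff]⟩ S (by
      rw [← closure_range_of]
      congr 1
      ext x
      simp [S, a, b])
  obtain ⟨γ1, h1, h2⟩ := exists_between hlt
  obtain ⟨γ2, h2, h3⟩ := exists_between h2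
  have e1 := eventually_lt_of_limsup_lt h1 (isBoundedUnder_of_eventually_le (a := 5) (by
    filter_upwards [eventually_gt_atTop 0] with n hn
    have h4 : ({g | g ∈ H ∧ g ∈ ball n}.ncard : ℝ) ≤ 5 ^ n := by
      exact_mod_cast (Set.ncard_le_ncard (s := {g | g ∈ H ∧ g ∈ ball n}) (fun _ h => h.2)
        (ball_fin n)).trans (ball_card n)
    refine (Real.rpow_le_rpow (by positivity) h4 (by positivity)).trans (le_of_eq ?_)
    rw [one_div, Real.pow_rpow_inv_natCast (by norm_num) hn.ne']))
  have e2 := frequently_lt_of_lt_limsup (isCoboundedUnder_le_of_le _ (x := 0)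
    fun n => by positivity) h3
  have hγ : 0 < γ1 := by
    obtain ⟨n, hn⟩ := e1.exists
    exact lt_of_le_of_lt (by positivity) hn
  obtain ⟨N, hN⟩ := eventually_atTop.1 e1
  have hr : 1 < (γ2 / γ1) ^ 2 := one_lt_pow₀ ((one_lt_div hγ).2 h2) two_ne_zero
  have e3 := (tendsto_pow_const_div_const_pow_of_one_lt 4 hr).eventually
    (gt_mem_nhds (show 0 < 1 / (2 * γ1 ^ 8 * 4356) by positivity))
  obtain ⟨m, hm1, hm2, hm3⟩ := (e2.and_eventually (e3.and (eventually_gt_atTop 0))).exists
  obtain ⟨q, hq1, hq2⟩ := key m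
  have hγ2 : 0 < γ2 := hγ.trans h2
  have f1 : γ2 ^ m ≤ (66 * m ^ 2) * q := by
    have h4 := pow_le_pow_left₀ hγ2.le hm1.le m
    rw [root_pow _ (by positivity) hm3.ne'] at h4
    have h5 : (m + 5) * (2 * m + 9) * q ≤ 66 * m ^ 2 * q :=
      Nat.mul_le_mul_right _ (by nlinarith)
    exact h4.trans (by exact_mod_cast hq1.trans h5)
  have f2 : 2 * γ1 ^ (2 * m + 8) ≤ (q : ℝ) ^ 2 := by
    have hm : (0 : ℝ) < m := by exact_mod_cast hm3
    rw [div_lt_div_iff₀ (by positivity) (by positivity), one_mul, ← pow_mul, div_pow,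
      lt_div_iff₀ (by positivity)] at hm2
    have h4 := pow_le_pow_left₀ (by positivity) f1 2
    rw [← pow_mul, mul_comm m 2] at h4
    have h5 : (4356 * (m : ℝ) ^ 4) * (2 * γ1 ^ (2 * m + 8)) ≤ (4356 * (m : ℝ) ^ 4) * q ^ 2 := by
      rw [pow_add]
      nlinarith
    exact le_of_mul_le_mul_left h5 (by positivity)
  obtain ⟨k, hk1, hk2⟩ := (((tendsto_pow_atTop_atTop_of_one_lt (one_lt_two (α := ℝ))).eventually
    (eventually_gt_atTop (γ1 ^ (4 * m + 18)))).and (eventually_ge_atTop N)).exists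
  have f3 := hN ((2 * m + 8) * k + (4 * m + 18)) (by nlinarith)
  have f4 := pow_le_pow_left₀ (by positivity) f3.le ((2 * m + 8) * k + (4 * m + 18))
  rw [root_pow _ (by positivity) (by omega)] at f4
  have f5 : (q : ℝ) ^ (2 * k) ≤ γ1 ^ ((2 * m + 8) * k + (4 * m + 18)) :=
    le_trans (by exact_mod_cast hq2 k) f4
  have f6 := pow_le_pow_left₀ (by positivity) f2 k
  rw [← pow_mul, mul_pow, ← pow_mul] at f6
  rw [pow_add] at f5
  have f7 : 0 < γ1 ^ ((2 * m + 8) * k) := by positivity
  nlinarith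

end Pool.Agent.S01402
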