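import Pool.Statements.S01419
import Pool.Agent.H.MP_4f47f1_al.C

set_option autoImplicit false
open Pool Pool.MP_4f47f1_al

namespace Pool.Agent.S01419

open Pool.Agent.H.MP_4f47f1_al

theorem result :
  ∀ Φ : (∀ (G : Type) [Group G], Prop) → Prop,
    (∀ X : (∀ (G : Type) [Group G], Prop), Φ X ↔
      ((∀ (G : Type) [Group G], X G → Finite G) ∧
       (∀ (G H : Type) [Group G] [Group H] (f : G →* H),
          Function.Surjective f → X G → X H) ∧
       (∀ (G : Type) [Group G] (N₁ N₂ : Subgroup G) [N₁.Normal] [N₂.Normal],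
          N₁ ⊓ N₂ = ⊥ → X (G ⧸ N₁) → X (G ⧸ N₂) → X G))) →
    ∀ F : (∀ (G : Type) [Group G], Prop), Φ F →
      (∀ (G : Type) [Group G], F G → IsSolvable G) →
      (∃ t : ℕ, t ≤ 4 ∧ ∃ c : ℕ → (∀ (G : Type) [Group G], Prop),
         (∀ (G : Type) [Group G], ¬ c 0 G) ∧
         (∀ (G : Type) [Group G], c t G ↔ F G) ∧
         ∀ i : ℕ, i < t →
           Φ (c i) ∧ Φ (c (i + 1)) ∧
           (∀ (G : Type) [Group G], c i G → c (i + 1) G) ∧
           (∃ G : Type, ∃ inst : Group G, c (i + 1) G ∧ ¬ c i G) ∧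
           ∀ K : (∀ (G : Type) [Group G], Prop), Φ K →
             (∀ (G : Type) [Group G], c i G → K G) →
             (∀ (G : Type) [Group G], K G → c (i + 1) G) →
             ((∀ (G : Type) [Group G], K G → c i G) ∨
              (∀ (G : Type) [Group G], c (i + 1) G → K G))) →
      ∀ A B C : (∀ (G : Type) [Group G], Prop), Φ A → Φ B → Φ C →
        (∀ (G : Type) [Group G], A G → F G) →
        (∀ (G : Type) [Group G], B G → F G) →
        (∀ (G : Type) [Group G], C G → F G) →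
        ∀ (G : Type) [Group G], A G →
          (∀ K : (∀ (X : Type) [Group X], Prop), Φ K →
            (∀ (X : Type) [Group X], B X → K X) →
            (∀ (X : Type) [Group X], C X → K X) → K G) →
          ∀ K : (∀ (X : Type) [Group X], Prop), Φ K →
            (∀ (X : Type) [Group X], A X → B X → K X) →
            (∀ (X : Type) [Group X], A X → C X → K X) → K G := by
  intro Φ hΦ F hF hs ⟨t, ht, c, h0, hT, hc⟩ A B C hA hB hC hAF hBF hCF G _ hG h1 K hK h2 h3
  have hΦ' : ∀ X, Φ X ↔ Phi X := hΦ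
  classical
  let F' : Fm := ⟨F, (hΦ' F).1 hF⟩
  have hP : ∀ i ≤ t, Phi (c i) := by
    intro i hi
    rcases Nat.eq_zero_or_pos i with rfl | hi0
    · exact ⟨fun G _ h => (h0 G h).elim, fun G _ _ _ _ _ h => (h0 G h).elim,
        fun _ _ _ _ _ _ _ h _ => (h0 _ h).elim⟩
    · obtain ⟨j, rfl⟩ : ∃ j, i = j + 1 := ⟨i - 1, by omega⟩
      exact (hΦ' _).1 (hc j (by omega)).2.1
  let d : ℕ → Fm := fun i => if hi : i ≤ t then ⟨c i, hP i hi⟩ else F'
  have hd : ∀ i (hi : i ≤ t), d i = ⟨c i, hP i hi⟩ := fun i hi => dif_pos hi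
  obtain ⟨h, a1, a2⟩ := height t d (by
    intro i hi
    rw [hd i hi.le, hd (i + 1) hi]
    obtain ⟨-, -, b1, ⟨X, _, b2, b3⟩, b4⟩ := hc i hi
    refine ⟨lt_of_le_not_ge b1 fun hle => b3 (hle X b2), fun Y y1 y2 => ?_⟩
    rcases b4 Y.mem ((hΦ' _).2 Y.ok) y1.le y2.le with b | b
    · exact y1.not_ge b
    · exact y2.not_ge b) (by
    intro x
    rw [hd 0 (Nat.zero_le _)]
    exact fun G _ h => (h0 G h).elim)
  have hFt : F' ≤ d t := by
    rw [hd t le_rfl]; exact fun G _ h => (hT G).2 h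
  have := main F' hs h (fun x => (a1 x).trans ht) (fun x y hxy hy => a2 x y hxy (hy.trans hFt))
    ⟨A, (hΦ' _).1 hA⟩ ⟨B, (hΦ' _).1 hB⟩ ⟨C, (hΦ' _).1 hC⟩ hAF hBF hCF G
    ⟨hG, fun K hK => h1 K ((hΦ' _).2 hK)⟩
  exact this K ((hΦ' _).1 hK) (fun X _ hX => h2 X hX.1 hX.2) (fun X _ hX => h3 X hX.1 hX.2)

end Pool.Agent.S01419
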