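import Pool.Statements.S01438
import Pool.Agent.H.MP_503320_al.B

set_option autoImplicit false
open Pool Pool.MP_503320_al

namespace Pool.Agent.S01438

theorem result :
    ¬ (∀ (R : Type) [Ring R], Nontrivial R →
      (∀ a b : R, (∀ r : R, a * r * b = 0) → a = 0 ∨ b = 0) →
      (∀ I : AddSubmonoid R, (∀ x r : R, x ∈ I → x * r ∈ I) →
          ∃ a : R, ∀ x : R, x ∈ I ↔ ∃ r : R, x = a * r) →
      ∀ I : AddSubmonoid R, (∀ x r : R, x ∈ I → r * x ∈ I ∧ x * r ∈ I) →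
        ∃ L : List (AddSubmonoid R),
          (∀ P ∈ L, (∀ x r : R, x ∈ P → r * x ∈ P ∧ x * r ∈ P) ∧ (1 : R) ∉ P ∧
              ∀ a b : R, (∀ r : R, a * r * b ∈ P) → a ∈ P ∨ b ∈ P) ∧
          L.foldr (fun P J => AddSubmonoid.closure {x : R | ∃ a ∈ P, ∃ b ∈ J, x = a * b}) ⊤ = I) := by
  intro h
  obtain ⟨K, _, _, s, α, β, u, u0, h1, h2, h3, h4, h5⟩ := Pool.Agent.H.MP_503320_al.exData
  obtain ⟨σ, e, k, a1, a2, a3, a4⟩ := Pool.Agent.H.MP_503320_al.exD s α β u u0 h1 h2 h3 h4 h5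
  have := Pool.Agent.Lib.helper10.Crossed.sp_noZero (τ := α) fun r hr => (map_eq_zero α).mp hr
  have := Pool.Agent.Lib.helper10.Crossed.nontriv (d := Pool.Agent.Lib.helper10.Crossed.sp α)
  have := Pool.Agent.Lib.helper10.Crossed.sp_noZero (τ := σ) fun r hr => by
    by_contra hc
    exact (a1 r hc).ne_zero hr
  obtain ⟨I, b1, b2⟩ := Pool.Agent.H.MP_503320_al.counter a1 a2 a3 a4
  obtain ⟨L, c1, c2⟩ := h _ Pool.Agent.Lib.helper10.Crossed.nontriv
    (fun a b hab => by simpa using hab 1)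
    (Pool.Agent.Lib.helper10.Crossed.sp_pri (Pool.Agent.Lib.helper10.Crossed.sp_pri
      (Pool.Agent.Lib.helper10.Crossed.pri_div K)
      fun r hr => IsUnit.mk0 _ ((map_ne_zero α).mpr hr)) a1) I b1
  exact b2 L (fun P hP => ⟨(c1 P hP).1, (c1 P hP).2.2⟩) c2

end Pool.Agent.S01438
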