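import Pool.Statements.S01469
import Pool.Agent.H.MP_36a0ac_al.Main

set_option autoImplicit false
open Pool Pool.MP_5314be_al

namespace Pool.Agent.S01469

theorem result :
    ∃ (K : Type) (_ : Field K) (L : Type) (_ : LieRing L) (_ : LieAlgebra K L),
      (¬ ∃ s : Set L, s.Finite ∧ LieSubalgebra.lieSpan K L s = ⊤) ∧
      ∀ H : LieSubalgebra K L, H ≠ ⊤ →
        ∃ s : Set L, s.Finite ∧ LieSubalgebra.lieSpan K L s = H := by
  refine ⟨H.MP_36a0ac_al.K, inferInstance, H.MP_36a0ac_al.L, inferInstance, inferInstance,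
    H.MP_36a0ac_al.not_fg, fun M hM => ?_⟩
  have hfd := H.MP_36a0ac_al.proper_fd M hM
  have hfg : M.toSubmodule.FG := Module.Finite.iff_fg.1 hfd
  obtain ⟨S, hS⟩ := hfg
  refine ⟨S, S.finite_toSet, le_antisymm (LieSubalgebra.lieSpan_le.2 fun x hx => ?_) fun x hx => ?_⟩
  · have : x ∈ M.toSubmodule := hS ▸ Submodule.subset_span hx
    exact this
  · have : x ∈ M.toSubmodule := hx
    exact LieSubalgebra.submodule_span_le_lieSpan (hS ▸ this)

end Pool.Agent.S01469
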