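import Pool.Statements.S01482

set_option autoImplicit false
open Pool Pool.MP_5439be_al

namespace Pool.Agent.S01482

open Polynomial

noncomputable def dv : ℤ[X] →ₗ[ℤ] ℤ[X] := (divX_hom : ℤ[X] →+ ℤ[X]).toIntLinearMap

lemma dv_apply (p : ℤ[X]) : dv p = divX p := rfl

@[simp] lemma divX_mul (p : ℤ[X]) : divX (X * p) = p := by
  ext n; simp [coeff_divX]

noncomputable def T0 : ℤ[X] →ₗ[ℤ] ℤ[X] := LinearMap.id + (2 : ℤ) • dv

lemma T0_apply (p : ℤ[X]) : T0 p = p + (2 : ℤ) • dv p := rfl

lemma T0_inj : Function.Injective T0 := by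
  rw [injective_iff_map_eq_zero]
  intro p hp
  by_contra h
  have h1 : p = (-2 : ℤ) • divX p := by
    rw [T0_apply, dv_apply] at hp
    rw [neg_smul]; exact eq_neg_of_add_eq_zero_left hp
  have h2 := degree_divX_lt h
  have h3 : degree ((-2 : ℤ) • divX p) ≤ degree (divX p) := degree_smul_le _ _
  rw [← h1] at h3
  exact absurd h2 (not_lt.mpr h3)

lemma T0_surj : Function.Surjective T0 := by
  have h : ∀ n : ℕ, (X ^ n : ℤ[X]) ∈ LinearMap.range T0 := by
    intro n
    induction n with
    | zero => exact ⟨1, by simp [T0_apply, dv_apply, divX_one]⟩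
    | succ n ih =>
      have : (X ^ (n + 1) : ℤ[X]) = T0 (X ^ (n + 1)) - (2 : ℤ) • X ^ n := by
        simp [T0_apply, dv_apply, divX_X_pow]
      rw [this]
      exact Submodule.sub_mem _ ⟨_, rfl⟩ (Submodule.smul_mem _ _ ih)
  intro p
  change p ∈ LinearMap.range T0
  induction p using Polynomial.induction_on' with
  | add p q hp hq => exact Submodule.add_mem _ hp hq
  | monomial n a =>
    rw [← C_mul_X_pow_eq_monomial, ← smul_eq_C_mul]
    exact Submodule.smul_mem _ _ (h n)

noncomputable def T : ℤ[X] ≃ₗ[ℤ] ℤ[X] := LinearEquiv.ofBijective T0 ⟨T0_inj, T0_surj⟩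

lemma T_apply (p : ℤ[X]) : T p = p + (2 : ℤ) • dv p := rfl

lemma zpow_ind (P : (ℤ[X] ≃ₗ[ℤ] ℤ[X]) → Prop) (h1 : P 1) (h2 : ∀ S, P S ↔ P (T * S)) (k : ℤ) :
    P (T ^ k) := by
  induction k using Int.induction_on with
  | zero => simpa using h1
  | succ k ih => rw [add_comm, zpow_one_add]; exact (h2 _).mp ih
  | pred k ih =>
    rw [h2, ← zpow_one_add]
    simpa using ih

lemma dv_T (k : ℤ) : ∀ p, dv ((T ^ k) p) = (T ^ k) (dv p) := by
  refine zpow_ind (fun S => ∀ p, dv (S p) = S (dv p)) (fun _ => rfl) (fun S => ?_) k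
  have h : ∀ q, dv (T q) = T (dv q) := fun q => by rw [T_apply, T_apply, map_add, map_smul]
  constructor
  · intro h1 p
    rw [LinearEquiv.mul_apply, LinearEquiv.mul_apply, h, h1]
  · intro h1 p
    have := h1 p
    rw [LinearEquiv.mul_apply, LinearEquiv.mul_apply, h] at this
    exact T.injective this

lemma T_mod (k : ℤ) : ∀ p, ∃ q, (T ^ k) p = p + (2 : ℤ) • q := by
  refine zpow_ind (fun S => ∀ p, ∃ q, S p = p + (2 : ℤ) • q) (fun _ => ⟨0, by simp⟩)
    (fun S => ?_) k
  constructor
  · intro h1 p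
    obtain ⟨q, hq⟩ := h1 p
    exact ⟨q + dv (S p), by rw [LinearEquiv.mul_apply, T_apply, smul_add, ← add_assoc, ← hq]⟩
  · intro h1 p
    obtain ⟨q, hq⟩ := h1 p
    rw [LinearEquiv.mul_apply, T_apply] at hq
    exact ⟨q - dv (S p), by rw [smul_sub, ← add_sub_assoc, ← hq]; simp⟩

lemma T_X (k : ℤ) : (T ^ k) X = X + C (2 * k) := by
  have h : ∀ c : ℤ, T (X + C c) = X + C (c + 2) := by
    intro c
    rw [T_apply, dv_apply, divX_add, divX_C, C_add]
    have : divX (X : ℤ[X]) = 1 := by simpa using (divX_X_pow (R := ℤ) (n := 1))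
    rw [this]
    simp [add_assoc]
  induction k using Int.induction_on with
  | zero => simp
  | succ k ih => rw [add_comm (k : ℤ), zpow_one_add, LinearEquiv.mul_apply, ih, h]; congr 2; ring
  | pred k ih =>
    apply T.injective
    rw [← LinearEquiv.mul_apply, ← zpow_one_add, h]
    have : (1 : ℤ) + (-(k : ℤ) - 1) = -k := by ring
    rw [this, ih]; congr 2; ring

@[ext] structure G : Type where
  p : ℤ[X]
  k : ℤ

noncomputable instance : Mul G := ⟨fun x y => ⟨x.p + (T ^ x.k) y.p, x.k + y.k⟩⟩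
noncomputable instance : One G := ⟨⟨0, 0⟩⟩
noncomputable instance : Inv G := ⟨fun x => ⟨-(T ^ (-x.k)) x.p, -x.k⟩⟩

@[simp] lemma mul_p (x y : G) : (x * y).p = x.p + (T ^ x.k) y.p := rfl
@[simp] lemma mul_k (x y : G) : (x * y).k = x.k + y.k := rfl
@[simp] lemma one_p : (1 : G).p = 0 := rfl
@[simp] lemma one_k : (1 : G).k = 0 := rfl
@[simp] lemma inv_p (x : G) : (x⁻¹).p = -(T ^ (-x.k)) x.p := rfl
@[simp] lemma inv_k (x : G) : (x⁻¹).k = -x.k := rfl

noncomputable instance : Group G := Group.ofLeftAxioms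
  (fun x y z => by ext1 <;> simp [zpow_add, add_assoc])
  (fun x => by ext1 <;> simp)
  (fun x => by ext1 <;> simp)

noncomputable def chi : G →* Multiplicative (ZMod 2) where
  toFun x := Multiplicative.ofAdd ((x.p.coeff 0 : ℤ) : ZMod 2)
  map_one' := by simp
  map_mul' x y := by
    obtain ⟨q, hq⟩ := T_mod x.k y.p
    rw [← ofAdd_add, mul_p, hq]
    have : (2 : ZMod 2) = 0 := rfl
    simp [this]

noncomputable abbrev H : Subgroup G := chi.ker

lemma mem_H (x : G) : x ∈ H ↔ (2 : ℤ) ∣ x.p.coeff 0 := by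
  rw [MonoidHom.mem_ker]
  exact (ZMod.intCast_zmod_eq_zero_iff_dvd _ 2)

noncomputable def sh : G →* G where
  toFun x := ⟨dv x.p, x.k⟩
  map_one' := by ext1 <;> simp
  map_mul' x y := by ext1 <;> simp [dv_T]

lemma pow_eq (p : ℤ[X]) (d : ℤ) : (⟨p, 0⟩ : G) ^ d = ⟨d • p, 0⟩ := by
  induction d using Int.induction_on with
  | zero => ext1 <;> simp
  | succ k ih => rw [zpow_add_one, ih]; ext1 <;> simp [add_mul]
  | pred k ih => rw [zpow_sub_one, ih]; ext1 <;> simp [sub_eq_add_neg, add_mul]

noncomputable def io (p : ℤ[X]) (h : (2 : ℤ) ∣ p.coeff 0) : H := ⟨⟨p, 0⟩, (mem_H _).mpr h⟩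
noncomputable def tt : H := ⟨⟨0, 1⟩, (mem_H _).mpr (by simp)⟩

lemma hopf (f : H →* H) (hf : Function.Surjective f) : Function.Injective f := by
  have hcomm : ∀ a b : H, ((a * b * a⁻¹ * b⁻¹ : H) : G).k = 0 := fun a b => by simp
  have hN : ∀ (p : ℤ[X]) h, tt * io p h * tt⁻¹ * (io p h)⁻¹ = io ((2 : ℤ) • dv p) (by simp) := by
    intro p h
    ext1; ext1 <;> simp [io, tt, T_apply]
  have hb : ∀ (p : ℤ[X]) h, (f (io p h) : G).k = 0 := by
    intro p h
    have h1 := hN (X * p) (by simp)
    have h2 : io ((2 : ℤ) • dv (X * p)) (by simp) = io p h * io p h := by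
      ext1; ext1
      · simp [io, dv_apply, two_mul]
      · simp [io]
    have h3 := congrArg f (h1.trans h2)
    simp only [map_mul, map_inv] at h3
    have h4 := hcomm (f tt) (f (io (X * p) (by simp)))
    rw [h3] at h4
    simp at h4
    omega
  rw [injective_iff_map_eq_one]
  intro x hx
  by_contra hx1
  have hK : ∀ (y : H) , f y = 1 → ∀ z : H, f (z * y * z⁻¹ * y⁻¹) = 1 := fun y hy z => by simp [hy]
  have h1 : ∀ (n : ℕ) (p : ℤ[X]) h, p.natDegree ≤ n → p ≠ 0 → f (io p h) = 1 →
      ∃ c : ℤ, c ≠ 0 ∧ f (io (C (2 * c)) (by simp)) = 1 := by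
    intro n
    induction n with
    | zero =>
      intro p h hp hp0 hfp
      have h2 := eq_C_of_natDegree_le_zero hp
      obtain ⟨c, hc⟩ := h
      rw [hc] at h2
      refine ⟨c, ?_, ?_⟩
      · rintro rfl
        simp at h2
        exact hp0 h2
      · subst h2
        exact hfp
    | succ n ih =>
      intro p h hp hp0 hfp
      by_cases h0 : p.natDegree ≤ n
      · exact ih p h h0 hp0 hfp
      · have h2 := hK _ hfp tt
        rw [hN] at h2
        refine ih _ _ ?_ ?_ h2
        · refine (natDegree_smul_le _ _).trans ?_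
          rw [dv_apply, natDegree_divX_eq_natDegree_tsub_one]
          omega
        · intro h3
          rw [smul_eq_zero, dv_apply, divX_eq_zero_iff] at h3
          rcases h3 with h3 | h3
          · omega
          · rw [h3, natDegree_C] at h0
            omega
  have h2 : ∃ c : ℤ, c ≠ 0 ∧ f (io (C (2 * c)) (by simp)) = 1 := by
    by_cases hk : (x : G).k = 0
    · have hxx : x = io (x : G).p ((mem_H _).mp x.2) := by
        ext1; ext1
        · rfl
        · exact hk
      refine h1 _ (x : G).p ((mem_H _).mp x.2) le_rfl ?_ (hxx ▸ hx)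
      intro h3
      apply hx1
      ext1; ext1
      · exact h3
      · exact hk
    · refine ⟨-(x : G).k, by simpa using hk, ?_⟩
      have h3 := hK x hx (io X (by simp))
      have h4 : io X (by simp) * x * (io X (by simp))⁻¹ * x⁻¹ =
          io (C (2 * -(x : G).k)) (by simp) := by
        ext1; ext1
        · simp [io, T_X]
          ring
        · simp [io]
      rwa [h4] at h3
  obtain ⟨c, hc, hc1⟩ := h2
  have h3 : f (io (C 2) (by simp)) = 1 := by
    have h4 : io (C (2 * c)) (by simp) = io (C 2) (by simp) ^ c := by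
      ext1
      simp only [io, SubgroupClass.coe_zpow, pow_eq]
      ext1
      · simp [mul_comm]
      · rfl
    rw [h4, map_zpow] at hc1
    have h5 := hb (C 2) (by simp)
    obtain ⟨w, hw⟩ : ∃ w, w = f (io (C 2) (by simp)) := ⟨_, rfl⟩
    rw [← hw] at hc1 h5 ⊢
    obtain ⟨⟨p, k⟩, hm⟩ := w
    simp only at h5
    subst h5
    have h6 := congrArg (fun z : H => (z : G).p) hc1
    simp only [SubgroupClass.coe_zpow, pow_eq] at h6
    have h7 : p = 0 := by simpa [hc] using h6
    subst h7
    rfl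
  obtain ⟨a, ha⟩ := hf tt
  obtain ⟨b, hb'⟩ := hf (io X (by simp))
  obtain ⟨m, hm⟩ : ∃ m : ℤ[X], ((a * b * a⁻¹ * b⁻¹ : H) : G).p = (2 : ℤ) • m := by
    obtain ⟨q1, h1⟩ := T_mod (a : G).k (b : G).p
    obtain ⟨q2, h2⟩ := T_mod (b : G).k (a : G).p
    refine ⟨q1 - q2, ?_⟩
    have e1 : (T ^ ((a : G).k + (b : G).k)) ((T ^ (-(a : G).k)) (a : G).p) =
        (T ^ (b : G).k) (a : G).p := by
      rw [← LinearEquiv.mul_apply, ← zpow_add]; congr 2; ring
    have e2 : (T ^ ((a : G).k + (b : G).k + -(a : G).k)) ((T ^ (-(b : G).k)) (b : G).p) =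
        (b : G).p := by
      rw [← LinearEquiv.mul_apply, ← zpow_add]
      have : (a : G).k + (b : G).k + -(a : G).k + -(b : G).k = 0 := by ring
      rw [this]; rfl
    simp only [Subgroup.coe_mul, Subgroup.coe_inv, mul_p, mul_k, inv_p, inv_k, map_neg, e1, e2,
      h1, h2, smul_sub]
    ring
  have h4 : a * b * a⁻¹ * b⁻¹ = io (C 2) (by simp) ^ (m.coeff 0) *
      (io (X * divX m) (by simp) * io (X * divX m) (by simp)) := by
    ext1; ext1
    · rw [hm]
      simp only [io, Subgroup.coe_mul, SubgroupClass.coe_zpow, pow_eq, mul_p]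
      conv_lhs => rw [← X_mul_divX_add m]
      simp
      ring
    · rw [hcomm]
      simp [io, pow_eq]
  have h5 := congrArg f h4
  simp only [map_mul, map_inv, map_zpow, h3, one_zpow, one_mul, ha, hb', hN] at h5
  have h6 := hb (X * divX m) (by simp)
  obtain ⟨w, hw⟩ : ∃ w, w = f (io (X * divX m) (by simp)) := ⟨_, rfl⟩
  rw [← hw] at h5 h6
  have h7 := congrArg (fun z : H => (z : G).p.coeff 0) h5
  have h8 := (mem_H _).mp w.2
  simp [io, h6, dv_apply] at h7
  omega

/-- The negation of the preceding statement: For every group G and every finite-index subgroup H of G, if every surjective endomorphism of H is injective, then every surjective endomorphism of G is injective. -/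
theorem result :
    ¬ (∀ (G : Type) [Group G] (H : Subgroup G), H.FiniteIndex →
      (∀ f : ↥H →* ↥H, Function.Surjective f → Function.Injective f) →
      ∀ g : G →* G, Function.Surjective g → Function.Injective g) := by
  intro h
  have h1 := h G H inferInstance hopf sh (fun x => ⟨⟨X * x.p, x.k⟩, by
    ext1
    · simp [sh, dv_apply]
    · rfl⟩)
  have h2 : sh ⟨1, 0⟩ = sh 1 := by
    ext1
    · simp [sh, dv_apply, divX_one]
    · rfl
  have h3 := congrArg G.p (h1 h2)
  simp at h3

end Pool.Agent.S01482
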