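import Pool.Statements.S01503
import Pool.Agent.H.MP_550fd0_al.C

set_option autoImplicit false
open Pool Pool.MP_550fd0_al

namespace Pool.Agent.S01503

theorem result :
    ∀ A : Set {d : FreeGroup ℕ → FreeGroup ℕ → ℝ //
        (∀ g h, d g h = 0 ↔ g = h) ∧ (∀ g h, d g h = d h g) ∧
        (∀ g h k, d g k ≤ d g h + d h k) ∧
        (∀ g h k, d (k * g) (k * h) = d g h) ∧
        (∀ g h k, d (g * k) (h * k) = d g h)},
      A = {p | ∀ (X : Type) [TopologicalSpace X] [CompactSpace X] [T2Space X] [Nonempty X]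
              [MulAction (FreeGroup ℕ) X],
              (∀ (g : FreeGroup ℕ) (x : X) (U : Set X), IsOpen U → g • x ∈ U →
                ∃ ε > (0 : ℝ), ∃ V : Set X, IsOpen V ∧ x ∈ V ∧
                  ∀ h : FreeGroup ℕ, p.1 g h < ε → ∀ y ∈ V, h • y ∈ U) →
              ∃ x : X, ∀ g : FreeGroup ℕ, g • x = x} →
      IsGδ A ∧ Dense A := by
  intro A hA
  have hp : ∀ p : {d : FreeGroup ℕ → FreeGroup ℕ → ℝ //
        (∀ g h, d g h = 0 ↔ g = h) ∧ (∀ g h, d g h = d h g) ∧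
        (∀ g h k, d g k ≤ d g h + d h k) ∧
        (∀ g h k, d (k * g) (k * h) = d g h) ∧
        (∀ g h k, d (g * k) (h * k) = d g h)}, H.MP_550fd0_al.PM p.1 :=
    fun p => ⟨fun g => (p.2.1 g g).2 rfl, p.2.2⟩
  have hA' : A = ⋂ q : Finset (FreeGroup ℕ) × ℕ × ℕ,
      Subtype.val ⁻¹' {d | H.MP_550fd0_al.Ram q.1 q.2.1 (1 / ((q.2.2 : ℝ) + 1)) d} := by
    rw [hA]
    ext p
    rw [Set.mem_iInter]
    exact ⟨fun h q => H.MP_550fd0_al.ram_of_ea (hp p) h _ _ (by positivity),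
      fun h => H.MP_550fd0_al.ea_of_ram (hp p) fun E k m => h (E, k, m)⟩
  rw [hA']
  refine ⟨IsGδ.iInter fun q =>
    ((H.MP_550fd0_al.ram_open _ _ _).preimage continuous_subtype_val).isGδ, fun p => ?_⟩
  rw [closure_subtype]
  have := closure_subtype.1 (H.MP_550fd0_al.all_dense ⟨p.1, hp p⟩)
  refine closure_mono ?_ this
  rintro _ ⟨d, ⟨h1, h2⟩, rfl⟩
  refine ⟨⟨d.1, fun g h => ⟨fun e => ?_, fun e => e ▸ d.2.1 g⟩, d.2.2⟩,
    Set.mem_iInter.2 fun q => h2 _ _ _, rfl⟩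
  by_contra hne
  exact (h1 g h hne).ne' e

end Pool.Agent.S01503
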