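import Pool.Statements.S01517
import Pool.Agent.H.MP_55ae8f_al.A

set_option autoImplicit false
open Pool Pool.MP_55ae8f_al

namespace Pool.Agent.S01517

theorem result :
    ∃ (G : Type) (_ : Group G) (_ : Finite G) (P : Finset (Subgroup G)),
      (∀ H ∈ P, H ≠ ⊥ ∧ H ≠ ⊤) ∧
      (∀ g : G, g ≠ 1 → ∃! H : Subgroup G, H ∈ P ∧ g ∈ H) ∧
      (∀ H ∈ P, ∀ K ∈ P, Nat.card H = Nat.card K) ∧
      (∃ H ∈ P, ∃ x ∈ H, ∃ y ∈ H, x * y ≠ y * x) := by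
  exact ⟨H.MP_55ae8f_al.G, inferInstance, inferInstance, H.MP_55ae8f_al.main⟩

end Pool.Agent.S01517
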