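import Pool.Statements.S01552

set_option autoImplicit false
open scoped Pointwise
open Pool Pool.MP_5893d4_al
open Topology Filter

namespace Pool.Agent.S01552
noncomputable section

/-- Heisenberg group over a commutative ring -/
def Heis (R : Type) : Type := R × R × R

section
variable {R : Type} [CommRing R]

def mk (a b c : R) : Heis R := (a, b, c)

instance : Mul (Heis R) := ⟨fun g h => (g.1 + h.1, g.2.1 + h.2.1, g.2.2 + h.2.2 + g.1 * h.2.1)⟩
instance : One (Heis R) := ⟨(0, 0, 0)⟩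
instance : Inv (Heis R) := ⟨fun g => (-g.1, -g.2.1, -g.2.2 + g.1 * g.2.1)⟩

theorem hext {g h : Heis R} (h1 : g.1 = h.1) (h2 : g.2.1 = h.2.1) (h3 : g.2.2 = h.2.2) : g = h :=
  Prod.ext h1 (Prod.ext h2 h3)

@[simp] theorem mul_1 (g h : Heis R) : (g * h).1 = g.1 + h.1 := rfl
@[simp] theorem mul_2 (g h : Heis R) : (g * h).2.1 = g.2.1 + h.2.1 := rfl
@[simp] theorem mul_3 (g h : Heis R) : (g * h).2.2 = g.2.2 + h.2.2 + g.1 * h.2.1 := rfl
@[simp] theorem one_1 : (1 : Heis R).1 = 0 := rfl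
@[simp] theorem one_2 : (1 : Heis R).2.1 = 0 := rfl
@[simp] theorem one_3 : (1 : Heis R).2.2 = 0 := rfl
@[simp] theorem inv_1 (g : Heis R) : (g⁻¹).1 = -g.1 := rfl
@[simp] theorem inv_2 (g : Heis R) : (g⁻¹).2.1 = -g.2.1 := rfl
@[simp] theorem inv_3 (g : Heis R) : (g⁻¹).2.2 = -g.2.2 + g.1 * g.2.1 := rfl
@[simp] theorem mk_1 (a b c : R) : (mk a b c).1 = a := rfl
@[simp] theorem mk_2 (a b c : R) : (mk a b c).2.1 = b := rfl
@[simp] theorem mk_3 (a b c : R) : (mk a b c).2.2 = c := rfl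

instance : Group (Heis R) := Group.ofLeftAxioms
  (by intro a b c; apply hext <;> simp <;> ring)
  (by intro a; apply hext <;> simp)
  (by intro a; apply hext <;> simp)

end

section
variable (p : ℕ) [Fact p.Prime]

instance : TopologicalSpace (Heis ℤ_[p]) := inferInstanceAs (TopologicalSpace (ℤ_[p] × ℤ_[p] × ℤ_[p]))
instance : CompactSpace (Heis ℤ_[p]) := inferInstanceAs (CompactSpace (ℤ_[p] × ℤ_[p] × ℤ_[p]))
instance : T2Space (Heis ℤ_[p]) := inferInstanceAs (T2Space (ℤ_[p] × ℤ_[p] × ℤ_[p]))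

instance : IsTopologicalGroup (Heis ℤ_[p]) where
  continuous_mul := by
    show Continuous (fun x : (ℤ_[p] × ℤ_[p] × ℤ_[p]) × (ℤ_[p] × ℤ_[p] × ℤ_[p]) =>
      ((x.1.1 + x.2.1, x.1.2.1 + x.2.2.1, x.1.2.2 + x.2.2.2 + x.1.1 * x.2.2.1) :
        ℤ_[p] × ℤ_[p] × ℤ_[p]))
    fun_prop
  continuous_inv := by
    show Continuous (fun x : (ℤ_[p] × ℤ_[p] × ℤ_[p]) =>
      ((-x.1, -x.2.1, -x.2.2 + x.1 * x.2.1) : ℤ_[p] × ℤ_[p] × ℤ_[p]))
    fun_prop

def emb : Heis ℤ →* Heis ℤ_[p] := MonoidHom.mk'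
  (fun g => mk (g.1 : ℤ_[p]) (g.2.1 : ℤ_[p]) (g.2.2 : ℤ_[p]))
  (by intro a b; apply hext <;> simp)

theorem emb_inj : Function.Injective (emb p) := by
  intro a b h
  have h1 : ((a.1 : ℤ) : ℤ_[p]) = (b.1 : ℤ) := congrArg (fun g : Heis ℤ_[p] => g.1) h
  have h2 : ((a.2.1 : ℤ) : ℤ_[p]) = (b.2.1 : ℤ) := congrArg (fun g : Heis ℤ_[p] => g.2.1) h
  have h3 : ((a.2.2 : ℤ) : ℤ_[p]) = (b.2.2 : ℤ) := congrArg (fun g : Heis ℤ_[p] => g.2.2) h
  exact hext (by exact_mod_cast h1) (by exact_mod_cast h2) (by exact_mod_cast h3)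
end

def Good {G : Type} [Group G] (t : TopologicalSpace G) : Prop :=
  @IsTopologicalGroup G t _ ∧ @T2Space G t ∧
    ∀ U ∈ @nhds G t 1, ∃ F : Finset G, (F : Set G) * U = Set.univ

theorem good_induced {G K : Type} [Group G] [Group K] [TopologicalSpace K] [IsTopologicalGroup K]
    [CompactSpace K] [T2Space K] (φ : G →* K) (hφ : Function.Injective φ) :
    Good (TopologicalSpace.induced φ inferInstance) := by
  classical
  letI : TopologicalSpace G := TopologicalSpace.induced φ inferInstance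
  refine ⟨topologicalGroup_induced φ, ?_, ?_⟩
  · exact (IsEmbedding.mk ⟨rfl⟩ hφ).t2Space
  · intro U hU
    rw [nhds_induced, mem_comap, map_one] at hU
    obtain ⟨V, hV, hVU⟩ := hU
    obtain ⟨W, hW, hWV⟩ := exists_nhds_split_inv hV
    have hW' : W⁻¹ ∈ 𝓝 (1 : K) := inv_mem_nhds_one K hW
    obtain ⟨T, hT⟩ := CompactSpace.elim_nhds_subcover (fun k : K => (fun x => k⁻¹ * x) ⁻¹' W⁻¹)
      (fun k => by
        apply ContinuousAt.preimage_mem_nhds (by fun_prop)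
        simpa using hW')
    have ch : ∀ k : K, ∃ g : G, (∃ g' : G, k⁻¹ * φ g' ∈ W⁻¹) → k⁻¹ * φ g ∈ W⁻¹ := by
      intro k
      by_cases h : ∃ g' : G, k⁻¹ * φ g' ∈ W⁻¹
      · obtain ⟨g, hg⟩ := h; exact ⟨g, fun _ => hg⟩
      · exact ⟨1, fun h' => absurd h' h⟩
    choose c hc using ch
    refine ⟨T.image c, Set.eq_univ_of_forall fun g => ?_⟩
    have : φ g ∈ ⋃ k ∈ T, (fun x => k⁻¹ * x) ⁻¹' W⁻¹ := by rw [hT]; trivial
    simp only [Set.mem_iUnion, Set.mem_preimage] at this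
    obtain ⟨k, hk, hkg⟩ := this
    have h2 := hc k ⟨g, hkg⟩
    refine ⟨c k, by simpa using ⟨k, hk, rfl⟩, (c k)⁻¹ * g, hVU ?_, by simp⟩
    have := hWV _ (Set.mem_inv.1 h2) _ (Set.mem_inv.1 hkg)
    simpa [div_eq_mul_inv, mul_assoc] using this

def z : Multiplicative ℤ →* Heis ℤ := MonoidHom.mk' (fun k => mk 0 0 k.toAdd)
  (by intro a b; apply hext <;> simp)

def zz (k : ℤ) : Heis ℤ := mk 0 0 k

theorem zz_add (a b : ℤ) : zz (a + b) = zz a * zz b := by apply hext <;> simp [zz]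
theorem zz_zpow (a b : ℤ) : zz a ^ b = zz (a * b) := by
  have := map_zpow z (Multiplicative.ofAdd a) b
  have e : ∀ k, z (Multiplicative.ofAdd k) = zz k := fun _ => rfl
  rw [← e, ← e, ← this, ← ofAdd_zsmul, smul_eq_mul, mul_comm]

def E (p : ℕ) : Set (Heis ℤ) := Set.range fun k : ℕ => zz ((p : ℤ) ^ k)

theorem one_mem_closure (p : ℕ) [Fact p.Prime] :
    (1 : Heis ℤ) ∈ @closure _ (TopologicalSpace.induced (emb p) inferInstance) (E p) := by
  letI : TopologicalSpace (Heis ℤ) := TopologicalSpace.induced (emb p) inferInstance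
  refine mem_closure_of_tendsto (f := fun k : ℕ => zz ((p : ℤ) ^ k)) (b := atTop) ?_
    (Eventually.of_forall fun k => ⟨k, rfl⟩)
  rw [nhds_induced, tendsto_comap_iff, map_one]
  have h : Tendsto (fun k : ℕ => (p : ℤ_[p]) ^ k) atTop (𝓝 0) := by
    apply tendsto_pow_atTop_nhds_zero_of_norm_lt_one
    rw [PadicInt.norm_p]
    have : (1 : ℝ) < p := by exact_mod_cast (Fact.out : p.Prime).one_lt
    exact inv_lt_one_of_one_lt₀ this
  have h2 : Tendsto (fun k : ℕ => (((0 : ℤ_[p]), (0 : ℤ_[p]), (p : ℤ_[p]) ^ k) :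
      ℤ_[p] × ℤ_[p] × ℤ_[p])) atTop (𝓝 (0, 0, 0)) :=
    tendsto_const_nhds.prodMk_nhds (tendsto_const_nhds.prodMk_nhds h)
  have e : (⇑(emb p) ∘ fun k : ℕ => zz ((p : ℤ) ^ k)) =
      fun k : ℕ => mk (0 : ℤ_[p]) (0 : ℤ_[p]) ((p : ℤ_[p]) ^ k) := by
    funext k
    apply hext <;> simp [emb, zz]
  rw [e]
  exact h2

theorem pow_mem {G : Type} [Group G] [t : TopologicalSpace G] (ht : Good t) (x : G)
    (N : Set G) (hN : N ∈ 𝓝 (1 : G)) : ∃ n : ℕ, 0 < n ∧ x ^ n ∈ N := by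
  haveI := ht.1
  obtain ⟨W, hW, hWV⟩ := exists_nhds_split_inv hN
  obtain ⟨F, hF⟩ := ht.2.2 W⁻¹ (inv_mem_nhds_one G hW)
  have : ∀ i : ℕ, ∃ f : F, (f : G)⁻¹ * x ^ i ∈ W⁻¹ := by
    intro i
    have : x ^ i ∈ (F : Set G) * W⁻¹ := by rw [hF]; trivial
    obtain ⟨f, hf, w, hw, e⟩ := this
    refine ⟨⟨f, hf⟩, ?_⟩
    simp only at e
    rw [← e]; simpa using hw
  choose f hf using this
  obtain ⟨i, j, hij, e⟩ := Finite.exists_ne_map_eq_of_infinite f
  wlog h : i < j generalizing i j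
  · exact this j i hij.symm e.symm (by omega)
  refine ⟨j - i, by omega, ?_⟩
  have h1 := Set.mem_inv.1 (hf i)
  have h2 := Set.mem_inv.1 (hf j)
  rw [e] at h1
  have := hWV _ h1 _ h2
  have e2 : x ^ j = x ^ i * x ^ (j - i) := by rw [← pow_add]; congr 1; omega
  rw [e2] at this
  simpa [div_eq_mul_inv, mul_assoc] using this

def cm (g h : Heis ℤ) : Heis ℤ := g * h * g⁻¹ * h⁻¹

theorem cm_mul (g h k : Heis ℤ) : cm g (h * k) = cm g h * cm g k := by
  apply hext <;> simp [cm] <;> ring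

theorem mk_pow (n : ℕ) : (mk 1 0 0 : Heis ℤ) ^ n = mk (n : ℤ) 0 0 := by
  induction n with
  | zero => rfl
  | succ n ih => rw [pow_succ, ih]; apply hext <;> simp

theorem key [t : TopologicalSpace (Heis ℤ)] (ht : Good t) (U : Set (Heis ℤ))
    (hU : U ∈ 𝓝 (1 : Heis ℤ)) : ∃ n : ℕ, 0 < n ∧ ∀ k : ℤ, zz (n * k) ∈ U := by
  haveI := ht.1
  obtain ⟨U1, hU1, hU1U⟩ := exists_nhds_one_split hU
  have hc : Continuous (fun x : Heis ℤ × Heis ℤ => cm x.1 x.2) := by unfold cm; fun_prop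
  have h1 : (fun x : Heis ℤ × Heis ℤ => cm x.1 x.2) ⁻¹' U1 ∈ 𝓝 ((1, 1) : Heis ℤ × Heis ℤ) := by
    apply hc.continuousAt.preimage_mem_nhds
    simpa [cm] using hU1
  rw [mem_nhds_prod_iff] at h1
  obtain ⟨W1, hW1, W2, hW2, hW⟩ := h1
  obtain ⟨F, hF⟩ := ht.2.2 W2 hW2
  have h2 : ∀ f : Heis ℤ, (fun g => cm g f) ⁻¹' U1 ∈ 𝓝 (1 : Heis ℤ) := by
    intro f
    have : Continuous (fun g => cm g f) := by unfold cm; fun_prop
    apply this.continuousAt.preimage_mem_nhds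
    simpa [cm] using hU1
  have h3 : W1 ∩ ⋂ f ∈ F, (fun g => cm g f) ⁻¹' U1 ∈ 𝓝 (1 : Heis ℤ) :=
    inter_mem hW1 ((biInter_finset_mem F).2 fun f _ => h2 f)
  obtain ⟨n, hn, hx1, hx2⟩ := pow_mem ht (mk 1 0 0) _ h3
  refine ⟨n, hn, fun k => ?_⟩
  have : (mk 0 k 0 : Heis ℤ) ∈ (F : Set (Heis ℤ)) * W2 := by rw [hF]; trivial
  obtain ⟨f, hf, w, hw, e⟩ := this
  have e2 : zz (n * k) = cm (mk 1 0 0 ^ n) (f * w) := by
    simp only at e
    rw [e, mk_pow]; apply hext <;> simp [cm, zz]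
  rw [e2, cm_mul]
  apply hU1U
  · simp only [Set.mem_iInter] at hx2
    exact hx2 f hf
  · exact hW (Set.mk_mem_prod hx1 hw)

theorem main [t : TopologicalSpace (Heis ℤ)] (ht : Good t)
    (h2 : (1 : Heis ℤ) ∈ closure (E 2)) (h3 : (1 : Heis ℤ) ∈ closure (E 3)) : False := by
  haveI := ht.1
  haveI := ht.2.1
  have hne : (1 : Heis ℤ) ≠ zz 1 := by
    intro h
    have := congrArg (fun g : Heis ℤ => g.2.2) h
    simp [zz] at this
  obtain ⟨U, hU, hUc, hUs⟩ := exists_mem_nhds_isClosed_subset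
    (compl_singleton_mem_nhds hne)
  obtain ⟨n, hn, hk⟩ := key ht U hU
  let C : Subgroup (Heis ℤ) := (Subgroup.zpowers (zz n)).topologicalClosure
  have hCU : (C : Set (Heis ℤ)) ⊆ U := by
    apply closure_minimal _ hUc
    rintro _ ⟨k, rfl⟩
    simp only [zz_zpow]
    exact hk k
  have hCc : IsClosed (C : Set (Heis ℤ)) := Subgroup.isClosed_topologicalClosure _
  have hnC : ∀ k : ℤ, zz (n * k) ∈ C := fun k =>
    Subgroup.le_topologicalClosure _ ⟨k, zz_zpow _ _⟩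
  have hE : ∀ p : ℕ, (1 : Heis ℤ) ∈ closure (E p) → ∃ a : ℕ, zz ((p : ℤ) ^ a) ∈ C := by
    intro p hp
    by_contra hcon
    push Not at hcon
    let D : Set (Heis ℤ) := ⋃ r ∈ {r : ℤ | r ∈ Set.Ico (0 : ℤ) n ∧ zz r ∉ C},
      (fun g => (zz r)⁻¹ * g) ⁻¹' C
    have hD : IsClosed D := by
      apply Set.Finite.isClosed_biUnion
      · exact (Set.finite_Ico (0 : ℤ) n).subset fun r hr => hr.1
      · intro r _
        exact hCc.preimage (by fun_prop)
    have hED : E p ⊆ D := by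
      rintro _ ⟨a, rfl⟩
      have hn' : (0 : ℤ) < n := by exact_mod_cast hn
      set s : ℤ := (p : ℤ) ^ a
      have e : zz s = zz (s % n) * zz (n * (s / n)) := by
        rw [← zz_add, Int.emod_add_mul_ediv]
      simp only [D, Set.mem_iUnion]
      refine ⟨s % n, ⟨⟨Int.emod_nonneg _ hn'.ne', Int.emod_lt_of_pos _ hn'⟩, fun h => ?_⟩, ?_⟩
      · apply hcon a
        show zz s ∈ C
        rw [e]; exact C.mul_mem h (hnC _)
      · show (zz (s % n))⁻¹ * zz s ∈ C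
        rw [e, inv_mul_cancel_left]; exact hnC _
    have := closure_minimal hED hD hp
    simp only [D, Set.mem_iUnion] at this
    obtain ⟨r, hr, h1⟩ := this
    apply hr.2
    simpa using h1
  obtain ⟨a, ha⟩ := hE 2 h2
  obtain ⟨b, hb⟩ := hE 3 h3
  have hcop : IsCoprime (((2 : ℕ) : ℤ) ^ a) (((3 : ℕ) : ℤ) ^ b) := by
    apply IsCoprime.pow
    rw [Int.isCoprime_iff_gcd_eq_one]; rfl
  obtain ⟨u, v, huv⟩ := hcop
  have : zz 1 ∈ C := by
    rw [← huv, zz_add, mul_comm u, mul_comm v, ← zz_zpow, ← zz_zpow]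
    exact C.mul_mem (C.zpow_mem ha u) (C.zpow_mem hb v)
  exact hUs (hCU this) rfl

theorem result :
    ¬ (∀ (G : Type) [Group G],
      Cardinal.mk G ≤ 2 ^ Cardinal.continuum →
      (∃ t : TopologicalSpace G,
        @IsTopologicalGroup G t _ ∧ @T2Space G t ∧
          ∀ U ∈ @nhds G t 1, ∃ F : Finset G, (F : Set G) * U = Set.univ) →
      ∀ ℰ : Set (Set G), ℰ.Countable →
        ∃ t : TopologicalSpace G,
          (@IsTopologicalGroup G t _ ∧ @T2Space G t ∧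
            ∀ U ∈ @nhds G t 1, ∃ F : Finset G, (F : Set G) * U = Set.univ) ∧
          ∀ E ∈ ℰ,
            @closure G t E =
              ⋂₀ {C : Set G | E ⊆ C ∧
                ∀ s : TopologicalSpace G,
                  (@IsTopologicalGroup G s _ ∧ @T2Space G s ∧
                    ∀ U ∈ @nhds G s 1, ∃ F : Finset G, (F : Set G) * U = Set.univ) →
                  @IsClosed G s C}) := by
  intro h
  haveI : Countable (Heis ℤ) := inferInstanceAs (Countable (ℤ × ℤ × ℤ))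
  have hcard : Cardinal.mk (Heis ℤ) ≤ 2 ^ Cardinal.continuum :=
    Cardinal.mk_le_aleph0.trans (Cardinal.aleph0_le_continuum.trans (Cardinal.cantor _).le)
  obtain ⟨t, ht, hE⟩ := h (Heis ℤ) hcard ⟨_, good_induced (emb 2) (emb_inj 2)⟩ {E 2, E 3}
    (Set.toFinite _).countable
  have aux : ∀ (p : ℕ) [Fact p.Prime], E p ∈ ({E 2, E 3} : Set (Set (Heis ℤ))) →
      (1 : Heis ℤ) ∈ @closure _ t (E p) := by
    intro p _ hp
    rw [hE _ hp]
    rintro C ⟨hC1, hC2⟩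
    exact @closure_minimal _ (TopologicalSpace.induced (emb p) inferInstance) _ _ hC1
      (hC2 _ (good_induced (emb p) (emb_inj p))) _ (one_mem_closure p)
  exact @main t ht (aux 2 (by simp)) (aux 3 (by simp))

end
end Pool.Agent.S01552
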