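import Pool.Statements.S01554

set_option autoImplicit false
open Pool Pool.MP_58cc81_al

namespace Pool.Agent.S01554

open Set Topology Filter

def V : Type := ℕ →₀ ZMod 2
noncomputable instance : AddCommGroup V := inferInstanceAs (AddCommGroup (ℕ →₀ ZMod 2))
noncomputable instance : Module (ZMod 2) V := inferInstanceAs (Module (ZMod 2) (ℕ →₀ ZMod 2))
instance : Infinite V := inferInstanceAs (Infinite (ℕ →₀ ZMod 2))
instance : TopologicalSpace V := ⊥
instance : DiscreteTopology V := ⟨rfl⟩
noncomputable def c (i : ℕ) : V →ₗ[ZMod 2] ZMod 2 := Finsupp.lapply i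

abbrev Z := (ℕ × ℕ → ZMod 2) × UnitAddCircle

noncomputable def β (v w : V) : Z := (fun p => c p.1 v * c p.2 w, 0)

lemma β1 (u v w : V) : β (u + v) w = β u w + β v w := by
  ext <;> simp [β, add_mul]

lemma β2 (u v w : V) : β u (v + w) = β u v + β u w := by
  ext <;> simp [β, mul_add]

lemma β3 (u : V) : β 0 u = 0 := by
  ext <;> simp [β]

lemma β4 (u : V) : β u 0 = 0 := by
  ext <;> simp [β]

lemma β5 (u v : V) : β (-u) v = -β u v := by
  ext <;> simp [β]

@[ext] structure G where
  v : V
  z : Z

noncomputable instance : Mul G := ⟨fun a b => ⟨a.v + b.v, a.z + b.z + β a.v b.v⟩⟩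
noncomputable instance : One G := ⟨⟨0, 0⟩⟩
noncomputable instance : Inv G := ⟨fun a => ⟨-a.v, -a.z + β a.v a.v⟩⟩
lemma mv (a b : G) : (a * b).v = a.v + b.v := rfl
lemma mz (a b : G) : (a * b).z = a.z + b.z + β a.v b.v := rfl

noncomputable instance : Group G := .ofLeftAxioms
  (fun a b c => G.ext (add_assoc _ _ _) (by simp only [mv, mz, β1, β2]; abel))
  (fun a => G.ext (zero_add _) (by change 0 + _ + β 0 _ = _; simp [β3]))
  fun a => G.ext (neg_add_cancel _) (by change -a.z + _ + _ + β (-a.v) _ = 0; simp [β5])

def e : G ≃ V × Z := ⟨fun a => (a.v, a.z), fun a => ⟨a.1, a.2⟩, fun _ => rfl, fun _ => rfl⟩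
noncomputable instance : TopologicalSpace G := .induced e inferInstance
noncomputable def h : G ≃ₜ V × Z := e.toHomeomorphOfIsInducing ⟨rfl⟩
lemma cv : Continuous G.v := h.continuous.fst
lemma cz : Continuous G.z := h.continuous.snd
lemma cβ : Continuous fun p : V × V => β p.1 p.2 := continuous_of_discreteTopology

instance : IsTopologicalGroup G where
  continuous_mul := h.isInducing.continuous_iff.2 (((continuous_of_discreteTopology
    (f := fun p : V × V => p.1 + p.2)).comp (cv.prodMap cv)).prodMk
      ((cz.fst'.add cz.snd').add (cβ.comp (cv.prodMap cv))))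
  continuous_inv := h.isInducing.continuous_iff.2 (((continuous_of_discreteTopology
    (f := fun p : V => -p)).comp cv).prodMk (cz.neg.add (cβ.comp (cv.prodMk cv))))

lemma cpt {S : Set G} {F : Set V} (hF : F.Finite) (hS : S ⊆ G.v ⁻¹' F) : IsCompact (closure S) :=
  (h.isCompact_preimage.2 (hF.isCompact.prod isCompact_univ)).of_isClosed_subset isClosed_closure
    ((closure_minimal hS ((isClosed_discrete F).preimage cv)).trans fun _ h => ⟨h, trivial⟩)

theorem result :
    ¬ (∀ (G : Type) [Group G] [TopologicalSpace G] [IsTopologicalGroup G]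
      [LocallyCompactSpace G] [T2Space G],
      (∀ U ∈ nhds (1 : G), ∃ V ∈ nhds (1 : G), V ⊆ U ∧
          ∀ g x : G, x ∈ V → g * x * g⁻¹ ∈ V) →
      (∀ H : Subgroup G, (∀ a ∈ H, ∀ b ∈ H, a * b = b * a) →
          IsCompact (closure (H : Set G))) →
      (∀ K : Set G, IsCompact (closure K) →
          IsCompact (closure ((Subgroup.closure K : Subgroup G) : Set G))) →
      TotallyDisconnectedSpace G ∨ CompactSpace G) := by
  intro H
  have := h.isOpenEmbedding.locallyCompactSpace
  have := h.isEmbedding.t2Space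
  refine (H G (fun U hU => ⟨U ∩ G.v ⁻¹' {0}, inter_mem hU (((isOpen_discrete _).preimage
    cv).mem_nhds rfl), inter_subset_left, fun g x hx => ?_⟩) (fun A hA => ?_) fun K hK => ?_).elim
    (fun h1 => ?_) fun h1 => ?_
  rotate_left 3
  · have h2 := (isPreconnected_range (h.symm.continuous.comp (continuous_const.prodMk
      (continuous_const.prodMk continuous_id)) :
        Continuous fun t : UnitAddCircle => h.symm (0, 0, t))).subsingleton
      ⟨0, rfl⟩ ⟨((1 / 2 : ℝ) : UnitAddCircle), rfl⟩
    obtain ⟨n, h3⟩ := (AddCircle.coe_eq_zero_iff (1 : ℝ)).1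
      (congrArg (·.2.2) (h.symm.injective h2)).symm
    have : (2 * n : ℤ) = 1 := by
      simp only [zsmul_eq_mul, mul_one] at h3
      exact_mod_cast (by linarith : (2 * n : ℝ) = 1)
    omega
  · exact infinite_univ ((isCompact_range cv).finite_of_discrete.subset fun v _ => ⟨⟨v, 0⟩, rfl⟩)
  · rwa [show g * x = x * g from G.ext (add_comm _ _) (by
      simp only [mz, show x.v = 0 from hx.2, β3, β4, add_comm]), mul_inv_cancel_right]
  · by_cases h1 : ∃ a ∈ A, a.v ≠ 0
    · obtain ⟨a, h1, h2⟩ := h1
      obtain ⟨i, h3⟩ := Finsupp.ne_iff.1 h2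
      have h4 : c i a.v = 1 := (by decide : ∀ x : ZMod 2, x ≠ 0 → x = 1) _ h3
      refine cpt (finite_range fun t : ZMod 2 => t • a.v) fun b hb => ⟨c i b.v, Finsupp.ext fun j => ?_⟩
      have := congrArg (·.z) (hA a h1 b hb)
      simp only [mz, add_comm a.z, add_right_inj] at this
      have := congrFun (congrArg Prod.fst this) (i, j)
      simp only [β, h4, one_mul] at this
      exact this.symm
    · exact cpt (finite_singleton 0) fun a ha => by_contra fun h => h1 ⟨a, ha, h⟩
  · have h1 := (hK.image cv).finite_of_discrete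
    have := Module.Finite.span_of_finite (ZMod 2) h1
    have := Module.finite_of_finite (ZMod 2) (M := Submodule.span (ZMod 2) (G.v '' closure K))
    refine cpt (toFinite (Submodule.span (ZMod 2) (G.v '' closure K) : Set V)) fun x hx => ?_
    induction hx using Subgroup.closure_induction with
    | mem x hx => exact Submodule.subset_span ⟨x, subset_closure hx, rfl⟩
    | one => exact Submodule.zero_mem _
    | mul _ _ _ _ h h' => exact Submodule.add_mem _ h h'
    | inv _ _ h => exact Submodule.neg_mem _ h

end Pool.Agent.S01554
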