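import Pool.Statements.S01558
import Pool.Agent.H.MP_5939ed_al.Main

set_option autoImplicit false
open Pool Pool.MP_5939ed_al

namespace Pool.Agent.S01558

theorem result :
    ¬ (∀ n : ℕ, 2 ≤ n → ∀ ε : ℝ, 0 < ε → ∃ δ : ℝ, 0 < δ ∧
      ∀ N : ℕ, ∀ a b c : Equiv.Perm (Fin N),
        ((Finset.univ.filter (fun i => (b⁻¹ * a * b) i ≠ (a ^ n) i)).card : ℝ) / N < δ →
        ((Finset.univ.filter (fun i => (a⁻¹ * c * a) i ≠ (c ^ n) i)).card : ℝ) / N < δ →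
        ∃ a' b' c' : Equiv.Perm (Fin N),
          b'⁻¹ * a' * b' = a' ^ n ∧ a'⁻¹ * c' * a' = c' ^ n ∧
          ((Finset.univ.filter (fun i => a i ≠ a' i)).card : ℝ) / N < ε ∧
          ((Finset.univ.filter (fun i => b i ≠ b' i)).card : ℝ) / N < ε ∧
          ((Finset.univ.filter (fun i => c i ≠ c' i)).card : ℝ) / N < ε) := by
  intro H
  obtain ⟨ε, hε, h⟩ := Pool.Agent.H.MP_5939ed_al.main 2 le_rfl
  obtain ⟨δ, hδ, h2⟩ := H 2 le_rfl ε hε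
  obtain ⟨N, a, b, c, -, r1, r2, r3⟩ := h δ hδ
  obtain ⟨a', b', c', s1, s2, s3⟩ := h2 N a b c (by rw [r1]; simpa using hδ) r2
  exact r3 a' b' c' s1 s2 s3

end Pool.Agent.S01558
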