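import Pool.Statements.S01587
import Pool.Agent.H.MP_5c1719_al.B

set_option autoImplicit false
open Pool Pool.MP_5c1719_al

namespace Pool.Agent.S01587

open Pool.Agent.H.MP_5c1719_al Pool.Agent.Lib.Munn

theorem acc {L X : Type} (e : L → X × Bool) (A : List (ℕ × Option L × ℕ) × List ℕ) (v p) :
    Acc (A.1.map fun t => (t.1, t.2.1.map e, t.2.2), A.2) v p ↔ ∃ l : List (ℕ × Option L × ℕ), (∀ t ∈ l, t ∈ A.1) ∧
      (∀ i : ℕ, i + 1 < l.length → (l[i]?).map (fun t => t.2.2) = (l[i+1]?).map (fun t => t.1)) ∧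
      ((l.head?).map (fun t => t.1)).getD 0 = 0 ∧ ((l.getLast?).map (fun t => t.2.2)).getD 0 = p ∧
      (l.filterMap (fun t => t.2.1)).map e = v := by
  have c : ∀ l : List (ℕ × Option L × ℕ), (∀ i : ℕ, i + 1 < l.length → (l[i]?).map (fun t => t.2.2) = (l[i+1]?).map (fun t => t.1)) ↔
      l.IsChain fun a b => a.2.2 = b.1 := fun l => by
    rw [List.isChain_iff_getElem]
    refine forall₂_congr fun i h => ?_
    simp [List.getElem?_eq_getElem h, List.getElem?_eq_getElem (Nat.lt_of_succ_lt h)]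
  have d : ∀ (l : List (ℕ × Option L × ℕ)) (t : ℕ × Option L × ℕ), ((l ++ [t]).IsChain (fun a b => a.2.2 = b.1) ∧ (((l ++ [t]).head?).map (fun t => t.1)).getD 0 = 0) ↔
      (l.IsChain (fun a b => a.2.2 = b.1) ∧ ((l.head?).map (fun t => t.1)).getD 0 = 0) ∧ ((l.getLast?).map (fun t => t.2.2)).getD 0 = t.1 := by
    rintro (_ | ⟨a, l⟩) t
    · simp [eq_comm]
    · rw [List.isChain_append, List.getLast?_eq_some_getLast (List.cons_ne_nil a l)]
      simp [and_right_comm]
  have f : ∀ (l : List (ℕ × Option L × ℕ)) (t : ℕ × Option L × ℕ), ((l ++ [t]).filterMap (fun t => t.2.1)).map e =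
      (l.filterMap (fun t => t.2.1)).map e ++ (t.2.1.map e).toList := by rintro l ⟨_, _ | _, _⟩ <;> simp
  simp only [c]
  refine ⟨fun h => ?_, ?_⟩
  · induction h with
    | base => exact ⟨[], by simp⟩
    | step _ b ih =>
      obtain ⟨l, h1, h2, h3, h4, rfl⟩ := ih
      obtain ⟨t, a, ⟨⟩⟩ := List.mem_map.1 b
      have := (d l t).2 ⟨⟨h2, h3⟩, h4⟩
      exact ⟨l ++ [t], by simpa [or_imp, forall_and, a] using h1, this.1, this.2, by simp, f ..⟩
  · rintro ⟨l, h1, h2, h3, rfl, rfl⟩
    induction l using List.reverseRecOn with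
    | nil => exact .base
    | append_singleton l t ih =>
      obtain ⟨⟨a, b⟩, k⟩ := (d l t).1 ⟨h2, h3⟩
      rw [f]
      simpa using (k ▸ ih (fun x y => h1 x (by simp [y])) a b).step (List.mem_map_of_mem (h1 t (by simp)))

theorem result :
    ∀ n : ℕ, ∃ f : List (ℕ × Option (Fin n ⊕ Fin n) × ℕ) × List ℕ → Bool, Computable f ∧
      ∀ A : List (ℕ × Option (Fin n ⊕ Fin n) × ℕ) × List ℕ,
        (f A = true ↔
          (Set.range (fun u : List (Fin n ⊕ Fin n) =>
            {w : List (Fin n ⊕ Fin n) | ∃ v : List (Fin n ⊕ Fin n),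
              (∃ l : List (ℕ × Option (Fin n ⊕ Fin n) × ℕ),
                (∀ t ∈ l, t ∈ A.1) ∧
                (∀ i : ℕ, i + 1 < l.length →
                  (l[i]?).map (fun t => t.2.2) = (l[i+1]?).map (fun t => t.1)) ∧
                ((l.head?).map (fun t => t.1)).getD 0 = 0 ∧
                ((l.getLast?).map (fun t => t.2.2)).getD 0 ∈ A.2 ∧
                l.filterMap (fun t => t.2.1) = v) ∧
              ((u ++ w).map (Sum.elim (fun i : Fin n => FreeGroup.of i)
                  (fun i : Fin n => (FreeGroup.of i)⁻¹))).prod =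
                (v.map (Sum.elim (fun i : Fin n => FreeGroup.of i)
                  (fun i : Fin n => (FreeGroup.of i)⁻¹))).prod ∧
              {g : FreeGroup (Fin n) | ∃ k : ℕ, (((u ++ w).take k).map
                  (Sum.elim (fun i : Fin n => FreeGroup.of i)
                    (fun i : Fin n => (FreeGroup.of i)⁻¹))).prod = g} =
                {g : FreeGroup (Fin n) | ∃ k : ℕ, ((v.take k).map
                  (Sum.elim (fun i : Fin n => FreeGroup.of i)
                    (fun i : Fin n => (FreeGroup.of i)⁻¹))).prod = g}})).Finite) := by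
  intro n
  classical
  let e : Fin n ⊕ Fin n → Fin n × Bool := Sum.elim (·, true) (·, false)
  have ee : Function.Bijective e := ⟨by rintro (_ | _) (_ | _) <;> simp [e], by
    rintro ⟨i, _ | _⟩
    exacts [⟨.inr i, rfl⟩, ⟨.inl i, rfl⟩]⟩
  have ev : ∀ w : List (Fin n ⊕ Fin n), (w.map (Sum.elim (fun i : Fin n => FreeGroup.of i) (fun i : Fin n => (FreeGroup.of i)⁻¹))).prod =
      .mk (w.map e) := fun w => by
    induction w with
    | nil => rfl
    | cons a w ih => rw [List.map_cons, List.prod_cons, ih, List.map_cons, ← List.singleton_append, ← FreeGroup.mul_mk]; cases a <;> rfl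
  have p := ((main (X := Fin n)).comp ((Primrec.list_map .fst ((Primrec.fst.comp .snd).pair (((Primrec.dom_finite (Option.map e)).comp
    (Primrec.fst.comp (Primrec.snd.comp .snd))).pair (Primrec.snd.comp (Primrec.snd.comp .snd)))).to₂).pair
      (Primrec.snd (α := List (ℕ × Option (Fin n ⊕ Fin n) × ℕ))))).decide
  refine ⟨_, p.to_comp, fun A => decide_eq_true_iff.trans ?_⟩
  rw [← Set.finite_image_iff (Set.preimage_injective.2 ee.2.list_map).injOn, ← Set.range_comp, ← ee.2.list_map.range_comp]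
  refine Eq.to_iff (congrArg _ (congrArg _ (funext fun u => Set.ext fun w => ?_)))
  simp only [ev]
  simp only [List.map_take, Function.comp, Set.mem_preimage, Set.mem_ofPred_eq, ← List.map_append, K, acc]
  refine ⟨?_, ?_⟩
  · rintro ⟨_, _, ⟨l, h1, h2, h3, rfl, rfl⟩, a, b⟩
    exact ⟨_, ⟨l, h1, h2, h3, a, rfl⟩, (congrArg Prod.snd b).symm, (congrArg Prod.fst b).symm⟩
  · rintro ⟨_, ⟨l, h1, h2, h3, a, rfl⟩, b, c⟩
    exact ⟨_, _, ⟨l, h1, h2, h3, rfl, rfl⟩, a, Prod.ext c.symm b.symm⟩

end Pool.Agent.S01587
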