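import Pool.Statements.S01599
-- import your own Pool.Agent.* helpers here

set_option autoImplicit false
open Pool Pool.MP_5cdc7f_al

namespace Pool.Agent.S01599


abbrev F := ZMod 3
abbrev A := Fin 5 → F
abbrev W := Fin 5 → Fin 5 → F
abbrev D := Fin 5 → Fin 5 → Fin 5 → F
abbrev Q := A × D × F

def br (a b : A) : W := fun i j => a i * b j - a j * b i
def th (a b : A) : D := fun i j k => (a k - b k) * (a i * b j - a j * b i)
def wa (w : W) (a : A) : D := fun i j k => w i j * a k - w i k * a j + w j k * a i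
def pr (w : W) (d : D) : F :=
  w 0 1 * d 2 3 4 - w 0 2 * d 1 3 4 + w 0 3 * d 1 2 4 - w 0 4 * d 1 2 3 + w 1 2 * d 0 3 4 - w 1 3 * d 0 2 4 + w 1 4 * d 0 2 3 + w 2 3 * d 0 1 4 - w 2 4 * d 0 1 3 + w 3 4 * d 0 1 2

def m (x y : Q) : Q :=
  (x.1 + y.1, x.2.1 + y.2.1 + th x.1 y.1, x.2.2 + y.2.2 + pr (br x.1 y.1) (x.2.1 - y.2.1))

theorem h3 : (3 : F) = 0 := by decide

theorem th_cocycle (x y z : A) :
    th y z + th x (y + z) + wa (br x y) z = th x y + th (x + y) z := by
  funext i j k
  simp only [th, wa, br, Pi.add_apply]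
  linear_combination (-(y k) * (x i * z j - x j * z i)) * h3

theorem m_comm (x y : Q) : m x y = m y x := by
  refine Prod.ext (add_comm _ _) (Prod.ext ?_ ?_)
  · funext i j k
    simp only [m, th, Pi.add_apply]; ring
  · simp only [m, pr, br, Pi.sub_apply]; ring

theorem th_zero (a : A) : th 0 a = 0 := by
  funext i j k; simp [th]

theorem br_zero (a : A) : br 0 a = 0 := by
  funext i j; simp [br]

theorem pr_zero (d : D) : pr 0 d = 0 := by simp [pr]

theorem zero_m (x : Q) : m 0 x = x := by
  refine Prod.ext ?_ (Prod.ext ?_ ?_) <;> simp [m, th_zero, br_zero, pr_zero]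

theorem m_inj (a : Q) : Function.Injective (m a) := by
  intro x y h
  have h1 : x.1 = y.1 := add_left_cancel (congrArg (fun q : Q => q.1) h)
  have h2 : x.2.1 = y.2.1 := by
    have := congrArg (fun q : Q => q.2.1) h
    simp only [m, h1] at this
    exact add_left_cancel (add_right_cancel this)
  have h3 : x.2.2 = y.2.2 := by
    have := congrArg (fun q : Q => q.2.2) h
    simp only [m, h1, h2] at this
    exact add_left_cancel (add_right_cancel this)
  exact Prod.ext h1 (Prod.ext h2 h3)

theorem m_uniq (a b : Q) : ∃! x, m a x = b :=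
  (Finite.injective_iff_bijective.1 (m_inj a)).existsUnique b

/-- shape of the elements of the multiplication group -/
def form (a0 : A) (d0 : D) (w : W) (ν : A → F) (q : Q) : Q :=
  (a0 + q.1, d0 + q.2.1 + th a0 q.1 + wa w q.1, q.2.2 + pr (w - br a0 q.1) q.2.1 + ν q.1)

def IsForm (g : Q → Q) : Prop := ∃ a0 d0 w ν, ∀ q, g q = form a0 d0 w ν q

theorem isForm_m (x : Q) : IsForm (m x) := by
  refine ⟨x.1, x.2.1, 0, fun a => x.2.2 + pr (br x.1 a) x.2.1, fun q => ?_⟩
  refine Prod.ext rfl (Prod.ext ?_ ?_)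
  · funext i j k; simp [m, form, wa]
  · simp only [m, form, pr, Pi.sub_apply, Pi.zero_apply]; ring

theorem isForm_comp {g h : Q → Q} (hg : IsForm g) (hh : IsForm h) : IsForm (g ∘ h) := by
  obtain ⟨a0, d0, w, ν, hg⟩ := hg
  obtain ⟨b0, e0, w', ν', hh⟩ := hh
  refine ⟨a0 + b0, d0 + e0 + wa w b0 + th a0 b0, w + w' - br a0 b0,
    fun a => ν' a + ν (b0 + a) + pr (w - br a0 (b0 + a)) (e0 + th b0 a + wa w' a), fun q => ?_⟩
  rw [Function.comp_apply, hh, hg]
  refine Prod.ext (add_assoc _ _ _).symm (Prod.ext ?_ ?_)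
  · funext i j k
    have := congrFun (congrFun (congrFun (th_cocycle a0 b0 q.1) i) j) k
    simp only [form, wa, Pi.add_apply, Pi.sub_apply] at this ⊢
    linear_combination this
  · simp only [form, pr, br, Pi.add_apply, Pi.sub_apply]; ring

theorem form_comm {g h : Q → Q} (hg : IsForm g) (hh : IsForm h) (g0 : g 0 = 0) (h0 : h 0 = 0)
    (q : Q) : g (h q) = h (g q) := by
  obtain ⟨a0, d0, w, ν, hg⟩ := hg
  obtain ⟨b0, e0, w', ν', hh⟩ := hh
  have aux : ∀ a0 d0 w ν, form a0 d0 w ν 0 = 0 → a0 = 0 ∧ d0 = 0 := by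
    intro a0 d0 w ν h
    have h1 : a0 = 0 := by simpa [form] using congrArg (fun q : Q => q.1) h
    refine ⟨h1, ?_⟩
    have h2 := congrArg (fun q : Q => q.2.1) h
    funext i j k
    have := congrFun (congrFun (congrFun h2 i) j) k
    simpa [form, h1, th, wa] using this
  obtain ⟨rfl, rfl⟩ := aux _ _ _ _ (hg 0 ▸ g0)
  obtain ⟨rfl, rfl⟩ := aux _ _ _ _ (hh 0 ▸ h0)
  rw [hh, hg, hg, hh]
  refine Prod.ext rfl (Prod.ext ?_ ?_)
  · funext i j k
    simp only [form, th_zero, zero_add, add_zero, Pi.add_apply]; ring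
  · simp only [form, th_zero, br_zero, zero_add, add_zero, sub_zero, pr, wa, Pi.add_apply]; ring

def ev (i : Fin 5) : Q := (Pi.single i 1, 0, 0)

theorem not_class2 (c : Q) (h1 : m (m (ev 0) (ev 1)) (ev 2) = m (m (ev 0) (m (ev 1) (ev 2))) c)
    (h2 : m (m (ev 3) (ev 4)) c = m (ev 3) (m (ev 4) c)) : False := by
  have e1 : c.1 = 0 := by
    have := congrArg (fun q : Q => q.1) h1
    simp only [m, add_assoc] at this
    simpa using this
  have e2 := congrArg (fun q : Q => q.2.1 0 1 2) h1
  have e3 := congrArg (fun q : Q => q.2.2) h2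
  simp [m, e1, ev, th, pr, br] at e2 e3
  rw [e3] at e2
  exact absurd e2 (by decide)

theorem result :
    ∃ (n : ℕ) (mul : Fin n → Fin n → Fin n) (e : Fin n),
      Odd n ∧
      (∀ x, mul e x = x ∧ mul x e = x) ∧
      (∀ a b, ∃! x, mul a x = b) ∧
      (∀ a b, ∃! y, mul y a = b) ∧
      (∀ σ ∈ Subgroup.closure
          {π : Equiv.Perm (Fin n) | ∃ a, (∀ x, π x = mul a x) ∨ (∀ x, π x = mul x a)},
        ∀ τ ∈ Subgroup.closure
          {π : Equiv.Perm (Fin n) | ∃ a, (∀ x, π x = mul a x) ∨ (∀ x, π x = mul x a)},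
          σ e = e → τ e = e → σ * τ = τ * σ) ∧
      ¬ ((∀ x y, ∃ c,
            (∀ u v, mul c u = mul u c ∧
              mul (mul c u) v = mul c (mul u v) ∧
              mul (mul u c) v = mul u (mul c v) ∧
              mul (mul u v) c = mul u (mul v c)) ∧
            mul x y = mul (mul y x) c) ∧
         (∀ x y w, ∃ c,
            (∀ u v, mul c u = mul u c ∧
              mul (mul c u) v = mul c (mul u v) ∧
              mul (mul u c) v = mul u (mul c v) ∧
              mul (mul u v) c = mul u (mul v c)) ∧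
            mul (mul x y) w = mul (mul x (mul y w)) c)) := by
  classical
  let e : Q ≃ Fin (Fintype.card Q) := Fintype.equivFin Q
  have hform : ∀ σ ∈ Subgroup.closure
      {π : Equiv.Perm (Fin (Fintype.card Q)) | ∃ a, (∀ x, π x = e (m (e.symm a) (e.symm x))) ∨
        (∀ x, π x = e (m (e.symm x) (e.symm a)))},
      IsForm (fun q => e.symm (σ (e q))) := by
    intro σ hσ
    have hmul : ∀ σ τ : Equiv.Perm (Fin (Fintype.card Q)), IsForm (fun q => e.symm (σ (e q))) →
        IsForm (fun q => e.symm (τ (e q))) → IsForm (fun q => e.symm ((σ * τ) (e q))) := by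
      intro σ τ h1 h2
      have := isForm_comp h1 h2
      simpa [Function.comp_def] using this
    have hone : IsForm (fun q => e.symm ((1 : Equiv.Perm (Fin (Fintype.card Q))) (e q))) := by
      have := isForm_m 0
      have e0 : m 0 = fun q => q := funext zero_m
      rw [e0] at this
      simpa using this
    induction hσ using Subgroup.closure_induction with
    | mem π hπ =>
      obtain ⟨a, h | h⟩ := hπ
      · have := isForm_m (e.symm a)
        simpa [h] using this
      · have := isForm_m (e.symm a)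
        have e0 : m (e.symm a) = fun q => m q (e.symm a) := funext fun q => m_comm _ _
        rw [e0] at this
        simpa [h] using this
    | one => exact hone
    | mul σ τ _ _ h1 h2 => exact hmul _ _ h1 h2
    | inv σ _ h =>
      have hp : ∀ k : ℕ, IsForm (fun q => e.symm ((σ ^ k) (e q))) := by
        intro k
        induction k with
        | zero => exact hone
        | succ k ih => rw [pow_succ]; exact hmul _ _ ih h
      have : σ⁻¹ = σ ^ (orderOf σ - 1) := by
        symm
        apply eq_inv_of_mul_eq_one_left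
        rw [← pow_succ, Nat.sub_add_cancel (orderOf_pos σ), pow_orderOf_eq_one]
      rw [this]; exact hp _
  refine ⟨Fintype.card Q, fun x y => e (m (e.symm x) (e.symm y)), e 0, ?_, ?_, ?_, ?_, ?_, ?_⟩
  · simp only [Q, A, D, F, Fintype.card_prod, Fintype.card_fun, ZMod.card]
    have h : Odd 3 := by decide
    exact (h.pow).mul ((h.pow.pow.pow).mul h)
  · intro x
    simp [zero_m, m_comm _ 0]
  · intro a b
    obtain ⟨x, hx, hu⟩ := m_uniq (e.symm a) (e.symm b)
    refine ⟨e x, by simp [hx], fun y hy => ?_⟩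
    rw [← hu (e.symm y) (by simp [← hy])]; simp
  · intro a b
    obtain ⟨x, hx, hu⟩ := m_uniq (e.symm a) (e.symm b)
    refine ⟨e x, by simp [m_comm x, hx], fun y hy => ?_⟩
    rw [← hu (e.symm y) (by simp [← hy, m_comm (e.symm y)])]; simp
  · intro σ hσ τ hτ h1 h2
    ext1 x
    have := form_comm (hform σ hσ) (hform τ hτ) (by simp [h1]) (by simp [h2]) (e.symm x)
    simpa using this
  · rintro ⟨-, h⟩
    obtain ⟨c, hc, h1⟩ := h (e (ev 0)) (e (ev 1)) (e (ev 2))
    have h2 := (hc (e (ev 3)) (e (ev 4))).2.2.2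
    simp only [Equiv.symm_apply_apply, EmbeddingLike.apply_eq_iff_eq] at h1 h2
    exact not_class2 _ h1 h2

end Pool.Agent.S01599
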