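import Pool.Statements.S01625
import Pool.Agent.H.MP_5e7eb0_al.Basic
import Pool.Agent.H.MP_102156_al.B
import Pool.Agent.H.MP_b2231e_al.Main

set_option autoImplicit false
open Pool Pool.MP_5e7eb0_al
open scoped commutatorElement IsMulCommutative

namespace Pool.Agent.S01625

theorem result :
    ∀ (G : Type) [Group G],
      (∀ s : Finset G, ∃ N : Subgroup G, N.Normal ∧ (N : Set G).Finite ∧ (↑s : Set G) ⊆ (N : Set G)) →
      (∀ g : G, g ≠ 1 → ∃ N : Subgroup G, N.Normal ∧ N.FiniteIndex ∧ g ∉ N) →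
      ∃ H : Subgroup G, H.Normal ∧
        (∃ (ι : Type) (F : ι → Type) (instG : ∀ i, Group (F i)) (instF : ∀ i, Finite (F i))
            (φ : H →* ((i : ι) → F i)),
            Function.Injective φ ∧ ∀ h : H, {i : ι | φ h i ≠ 1}.Finite) ∧
        (∀ a b : G, a * b * a⁻¹ * b⁻¹ ∈ H) ∧
        (∀ (g : G) (n : ℕ), 0 < n → ∃ y : G, g⁻¹ * y ^ n ∈ H) := by
  intro G _ hLN hRF
  classical
  have hL : ∀ S : Set G, S.Finite → (Subgroup.normalClosure S : Set G).Finite := by
    intro S hS
    obtain ⟨N, h1, h2, h3⟩ := hLN hS.toFinset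
    exact h2.subset (Subgroup.normalClosure_le_normal (by simpa using h3))
  have hT : ∀ g : G, IsOfFinOrder g := by
    intro g
    obtain ⟨N, _, h2, h3⟩ := hLN {g}
    haveI : Finite N := h2.to_subtype
    exact N.subtype.isOfFinOrder (isOfFinOrder_of_finite (⟨g, h3 (by simp)⟩ : N))
  have hFC : Pool.Agent.H.MP_b2231e_al.FC G := by
    intro g
    obtain ⟨N, h1, h2, h3⟩ := hLN {g}
    refine h2.subset fun h hh => ?_
    obtain ⟨c, rfl⟩ := isConj_iff.1 hh
    exact h1.conj_mem g (h3 (by simp)) c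
  obtain ⟨𝒮, hS, hsep, hpf⟩ := Pool.Agent.H.MP_102156_al.thmA hL hRF
  haveI hSn : ∀ N : 𝒮, (N : Subgroup G).Normal := fun N => (hS N N.2).1
  haveI hSf : ∀ N : 𝒮, (N : Subgroup G).FiniteIndex := fun N => (hS N N.2).2
  have hpf' : ∀ d ∈ commutator G, {N : 𝒮 | d ∉ (N : Subgroup G)}.Finite := fun d hd =>
    ((hpf d hd).preimage Subtype.val_injective.injOn).subset fun N hN => ⟨N.2, hN⟩
  have hcm : ∀ a b : G, ⁅a, b⁆ ∈ commutator G := fun a b =>
    Subgroup.commutator_mem_commutator (Subgroup.mem_top _) (Subgroup.mem_top _)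
  let V := Additive (Abelianization G)
  let ab : G → V := fun g => Additive.ofMul (Abelianization.of g)
  have ab_mul : ∀ g h, ab (g * h) = ab g + ab h := fun g h => by simp [ab]
  have ab_inv : ∀ g, ab g⁻¹ = -ab g := fun g => by simp [ab]
  have ab_zpow : ∀ g (n : ℤ), ab (g ^ n) = n • ab g := fun g n => by simp [ab]
  have ab_surj : ∀ v, ∃ g, ab g = v := fun v => QuotientGroup.mk_surjective (Additive.toMul v)
  have ab_ker : ∀ g, ab g = 0 ↔ g ∈ commutator G := by
    intro g
    rw [← Abelianization.ker_of, MonoidHom.mem_ker]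
    exact Iff.rfl
  have hV : ∀ v : V, IsOfFinAddOrder v := by
    intro v
    obtain ⟨g, rfl⟩ := ab_surj v
    exact isOfFinAddOrder_ofMul_iff.2 (Abelianization.of.isOfFinOrder (hT g))
  obtain ⟨S, hPI, hdiv⟩ := Pool.Agent.H.MP_5e7eb0_al.basic hV
  choose gg hgg using ab_surj
  let H : Subgroup G :=
    { carrier := {g | ab g ∈ Submodule.span ℤ S}
      one_mem' := by
        show ab 1 ∈ Submodule.span ℤ S
        rw [(ab_ker 1).2 (Subgroup.one_mem _)]
        exact Submodule.zero_mem _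
      mul_mem' := fun {a b} ha hb => by
        show ab _ ∈ Submodule.span ℤ S
        rw [ab_mul]
        exact Submodule.add_mem _ ha hb
      inv_mem' := fun {a} ha => by
        show ab _ ∈ Submodule.span ℤ S
        rw [ab_inv]
        exact Submodule.neg_mem _ ha }
  have hH : ∀ g, g ∈ H ↔ ab g ∈ Submodule.span ℤ S := fun g => Iff.rfl
  refine ⟨H, ⟨fun a ha g => ?_⟩, ?_, fun a b => ?_, fun g n hn => ?_⟩
  · rw [hH, ab_mul, ab_mul, ab_inv]
    convert (hH a).1 ha using 1
    abel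
  rotate_left
  · rw [hH, (ab_ker (a * b * a⁻¹ * b⁻¹)).2 (hcm a b)]
    exact Submodule.zero_mem _
  · obtain ⟨y, hy⟩ := hdiv n hn.ne' (ab g)
    refine ⟨gg y, ?_⟩
    rw [hH, ab_mul, ab_inv, ← zpow_natCast, ab_zpow, hgg]
    convert Submodule.neg_mem _ hy using 1
    abel
  let β : H →* Multiplicative (Submodule.span ℤ S) :=
    MonoidHom.mk' (fun h => Multiplicative.ofAdd ⟨ab h, h.2⟩)
      (fun a b => congrArg Multiplicative.ofAdd (Subtype.ext (ab_mul a b)))
  let good : V → 𝒮 → Prop := fun s N =>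
    ((gg s : G) : G ⧸ (N : Subgroup G)) ∈ Subgroup.center (G ⧸ (N : Subgroup G)) ∧
      gg s ^ addOrderOf s ∈ (N : Subgroup G)
  have hgood : ∀ s, {N | ¬ good s N}.Finite := by
    intro s
    refine (((hFC.comm (gg s)).biUnion (t := fun w => {N : 𝒮 | w ∉ (N : Subgroup G)}) ?_).union
      (hpf' (gg s ^ addOrderOf s) ?_)).subset fun N hN => ?_
    · rintro _ ⟨x, rfl⟩
      exact hpf' _ (hcm _ _)
    · rw [← ab_ker, ← zpow_natCast, ab_zpow, hgg, natCast_zsmul, addOrderOf_nsmul_eq_zero]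
    · by_contra hcon
      simp only [Set.mem_union, Set.mem_iUnion, not_or, not_exists, Set.mem_setOf_eq,
        not_not] at hcon
      refine hN ⟨Subgroup.mem_center_iff.2 fun y => ?_, hcon.2⟩
      induction y using QuotientGroup.induction_on with | H x =>
      rw [← commutatorElement_eq_one_iff_mul_comm]
      exact (QuotientGroup.eq_one_iff ⁅x, gg s⁆).2 (hcon.1 _ ⟨x, rfl⟩)
  let z : (N : 𝒮) → V → Additive (Subgroup.center (G ⧸ (N : Subgroup G))) := fun N s =>
    if h : good s N then Additive.ofMul ⟨_, h.1⟩ else 0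
  choose χ hχ using fun N : 𝒮 => hPI.lift' (z N) (fun s _ n hn => by
    simp only [z]
    split_ifs with h
    · obtain ⟨t, ht⟩ := addOrderOf_dvd_iff_zsmul_eq_zero.2 hn
      rw [ht, mul_comm, mul_smul, natCast_zsmul, ← ofMul_pow]
      have : (⟨_, h.1⟩ : Subgroup.center (G ⧸ (N : Subgroup G))) ^ addOrderOf s = 1 :=
        Subtype.ext ((QuotientGroup.eq_one_iff (gg s ^ addOrderOf s)).2 h.2)
      rw [this]
      simp
    · simp)
  choose ψ hψ using fun t : V => hPI.lift' (fun s => if s = t then t else 0) (fun s _ n hn => by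
    split_ifs with h
    · rw [← h, hn]
    · simp)
  have hψ' : ∀ t (c : V →₀ ℤ) (v : Submodule.span ℤ S), (c.support : Set V) ⊆ S →
      (c.sum fun s k => k • s) = v → ψ t v = c t • t := by
    intro t c v h1 h2
    rw [hψ t c v h1 h2, Finsupp.sum_eq_single t] <;> simp +contextual
  let w : (N : 𝒮) → H →* Subgroup.center (G ⧸ (N : Subgroup G)) := fun N =>
    (AddMonoidHom.toMultiplicativeLeft (χ N)).comp β
  let φ : (N : 𝒮) → H →* G ⧸ (N : Subgroup G) := fun N =>
    MonoidHom.mk' (fun h => ((h : G) : G ⧸ (N : Subgroup G)) * (w N h⁻¹ : G ⧸ (N : Subgroup G)))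
      (fun a b => by
        rw [mul_inv_rev, map_mul, Subgroup.coe_mul, Subgroup.coe_mul, QuotientGroup.mk_mul,
          mul_assoc, mul_assoc, ← mul_assoc ((b : G) : G ⧸ (N : Subgroup G)),
          Subgroup.mem_center_iff.1 (w N a⁻¹).2])
  have hφ1 : ∀ N (h : H), ab h = 0 → φ N h = ((h : G) : G ⧸ (N : Subgroup G)) := by
    intro N h e
    have : β h = 1 := congrArg Multiplicative.ofAdd (Subtype.ext e)
    show _ * ((w N h⁻¹ : Subgroup.center _) : G ⧸ (N : Subgroup G)) = _
    rw [map_inv, MonoidHom.comp_apply, this]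
    simp
  let W : Subgroup H :=
    { carrier := {h | {N | φ N h ≠ 1}.Finite}
      one_mem' := by simp
      mul_mem' := fun {a b} ha hb => (Set.Finite.union ha hb).subset fun N hN => by
        by_contra hc
        simp only [Set.mem_union, Set.mem_setOf_eq, not_or, not_not] at hc
        exact hN (by rw [map_mul, hc.1, hc.2, one_mul])
      inv_mem' := fun {a} ha => Set.Finite.subset ha fun N hN e => hN (by rw [map_inv, e, inv_one]) }
  have hW0 : ∀ h : H, ab h = 0 → h ∈ W := fun h e =>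
    (hpf' _ ((ab_ker _).1 e)).subset fun N hN e' =>
      hN ((hφ1 N h e).trans ((QuotientGroup.eq_one_iff _).2 e'))
  have hW1 : ∀ h h' : H, ab h = ab h' → h' ∈ W → h ∈ W := by
    intro h h' e h1
    have := W.mul_mem h1 (hW0 (h'⁻¹ * h) (by
      rw [Subgroup.coe_mul, Subgroup.coe_inv, ab_mul, ab_inv, e, neg_add_cancel]))
    rwa [mul_inv_cancel_left] at this
  have hgH : ∀ v ∈ Submodule.span ℤ S, gg v ∈ H := fun v hv => by rw [hH, hgg]; exact hv
  have hW : ∀ h : H, h ∈ W := by
    have : ∀ v (hv : v ∈ Submodule.span ℤ S), (⟨gg v, hgH v hv⟩ : H) ∈ W := by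
      intro v hv
      induction hv using Submodule.span_induction with
      | mem s hs =>
        refine (hgood s).subset fun N hN hg => hN ?_
        have h1 := hχ N (Finsupp.single s 1) ⟨ab (gg s), hgH s (Submodule.subset_span hs)⟩
          (by rw [Finsupp.support_single_ne_zero _ one_ne_zero]; simpa using hs) (by simp [hgg])
        rw [Finsupp.sum_single_index (by simp), one_smul] at h1
        show _ * ((w N _⁻¹ : Subgroup.center _) : G ⧸ (N : Subgroup G)) = _
        rw [map_inv, Subgroup.coe_inv, mul_inv_eq_one]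
        have h2 : w N ⟨gg s, hgH s (Submodule.subset_span hs)⟩ = Additive.toMul (z N s) :=
          congrArg Additive.toMul h1
        rw [h2]
        simp only [z, dif_pos hg]
        rfl
      | zero => exact hW0 _ (hgg 0)
      | add x y hx hy h1 h2 =>
        exact hW1 _ _ (by rw [Subgroup.coe_mul, ab_mul, hgg, hgg, hgg]) (W.mul_mem h1 h2)
      | smul n x hx h1 =>
        exact hW1 _ _ (by rw [Subgroup.coe_zpow, ab_zpow, hgg, hgg]) (W.zpow_mem h1 n)
    exact fun h => hW1 _ _ (hgg _).symm (this _ h.2)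
  let π : V → H →* Multiplicative V := fun t => (AddMonoidHom.toMultiplicative (ψ t)).comp β
  have hπ : ∀ t (h : H) (c : V →₀ ℤ), (c.support : Set V) ⊆ S →
      (c.sum fun s k => k • s) = ab h → π t h = Multiplicative.ofAdd (c t • t) :=
    fun t h c h1 h2 => congrArg Multiplicative.ofAdd (hψ' t c ⟨ab h, h.2⟩ h1 h2)
  have hPF : Pool.Agent.H.MP_b2231e_al.PF H ⊥ := by
    refine ⟨𝒮 ⊕ V, Sum.elim (fun N => (φ N).ker) (fun t => (π t).ker), ?_, fun h => ?_,
      fun h => ⟨fun hh => ?_, ?_⟩⟩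
    · rintro (N | t)
      · exact ⟨MonoidHom.normal_ker _, Subgroup.finiteIndex_ker _⟩
      · refine ⟨MonoidHom.normal_ker _, Pool.Agent.H.MP_b2231e_al.FI _ (π t) ?_ fun a b e => ?_⟩
        · refine ((finite_zmultiples.2 (hV t)).image Multiplicative.ofAdd).subset ?_
          rintro _ ⟨h, rfl⟩
          obtain ⟨c, c1, c2⟩ := Submodule.mem_span_set.1 h.2
          exact ⟨_, ⟨c t, rfl⟩, (hπ t h c c1 c2).symm⟩
        · show π t _ = 1
          rw [map_mul, map_inv, e, inv_mul_cancel]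
    · obtain ⟨c, c1, c2⟩ := Submodule.mem_span_set.1 h.2
      refine (((hW h).image Sum.inl).union (c.support.finite_toSet.image Sum.inr)).subset ?_
      rintro (N | t) hi
      · exact Or.inl ⟨N, hi, rfl⟩
      · refine Or.inr ⟨t, Finsupp.mem_support_iff.2 fun e => hi ?_, rfl⟩
        show π t h = 1
        rw [hπ t h c c1 c2, e, zero_smul]
        rfl
    · obtain ⟨c, c1, c2⟩ := Submodule.mem_span_set.1 h.2
      have h0 : ab h = 0 := by
        rw [← c2]
        exact Finset.sum_eq_zero fun t _ => (hπ t h c c1 c2).symm.trans (hh (Sum.inr t))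
      refine Subgroup.mem_bot.2 (Subtype.ext (hsep _ ((ab_ker _).1 h0) fun N hN => ?_))
      exact (QuotientGroup.eq_one_iff (N := ((⟨N, hN⟩ : 𝒮) : Subgroup G)) _).1
        ((hφ1 ⟨N, hN⟩ h h0).symm.trans (hh (Sum.inl ⟨N, hN⟩)))
    · intro e i
      rw [Subgroup.mem_bot.1 e]
      exact Subgroup.one_mem _
  obtain ⟨ι, F, i1, i2, f, f1, f2⟩ := hPF.emb
  exact ⟨ι, F, i1, i2, f.comp (QuotientGroup.mk' ⊥), f1.comp
    ((QuotientGroup.mk' ⊥).ker_eq_bot_iff.1 (QuotientGroup.ker_mk' ⊥)), fun h => f2 _⟩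

end Pool.Agent.S01625
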