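import Pool.Statements.S01635

set_option autoImplicit false
open Pool Pool.MP_5ee74f_al

namespace Pool.Agent.S01635

open Filter Topology

lemma algAB (A : Type) [AddCommGroup A] [Module.Finite ℤ A] :
    (∀ φ : (A →+ ℤ) →+ ℤ, ∃ a, ∀ d, d a = φ d) ∧ {a : A | ∀ d : A →+ ℤ, d a = 0}.Finite := by
  let T := Submodule.torsion ℤ A
  let b := Module.finBasis ℤ (A ⧸ T)
  let e : Fin _ → A →+ ℤ := fun i => ((b.coord i).comp T.mkQ).toAddMonoidHom
  choose s hs using fun i => T.mkQ_surjective (b i)
  have hT : ∀ (d : A →+ ℤ) (x : A), x ∈ T → d x = 0 := by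
    rintro d x ⟨n, hn⟩
    have := congrArg d hn
    rw [Submonoid.smul_def, map_zsmul, map_zero, smul_eq_mul] at this
    exact (mul_eq_zero.mp this).resolve_left (nonZeroDivisors.ne_zero n.2)
  have hx : ∀ x : A, x - ∑ i, e i x • s i ∈ T := by
    intro x
    rw [← Submodule.Quotient.mk_eq_zero, ← Submodule.mkQ_apply, map_sub, map_sum]
    simp only [map_smul, hs]
    rw [sub_eq_zero]
    exact (b.sum_repr (T.mkQ x)).symm
  constructor
  · intro φ
    refine ⟨∑ i, φ (e i) • s i, fun d => ?_⟩
    have hd : d = ∑ i, d (s i) • e i := by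
      ext x
      have := hT d _ (hx x)
      rw [map_sub, map_sum, sub_eq_zero] at this
      rw [this]
      simp [mul_comm]
    conv_rhs => rw [hd]
    simp [mul_comm]
  · have : Finite T := Module.finite_of_fg_torsion T Submodule.torsion_isTorsion
    refine (Set.toFinite (T : Set A)).subset fun x hx' => ?_
    have := hx x
    simpa [hx' _] using this

lemma unb {D L : Type} [AddCommGroup D] [AddCommGroup L] [Module.Free ℤ L] (r : D →+ L)
    (hr : Function.Injective r) (N : D → ℕ)
    (h : ∀ ψ : L →+ ℤ, ∃ n : ℕ, ∀ d, |ψ (r d)| ≤ n * N d) : Module.Finite ℤ D := by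
  classical
  let b := Module.Free.chooseBasis ℤ L
  by_cases hf : {i | ∃ d, b.repr (r d) i ≠ 0}.Finite
  · have := hf.to_subtype
    let f : D →ₗ[ℤ] ({i | ∃ d, b.repr (r d) i ≠ 0} → ℤ) :=
      LinearMap.pi fun i => (b.coord i).comp r.toIntLinearMap
    refine Module.Finite.of_injective f ?_
    rw [injective_iff_map_eq_zero]
    intro d hd
    apply hr
    rw [map_zero, ← b.repr.map_eq_zero_iff]
    ext i
    by_contra hi
    exact hi (congrFun hd ⟨i, d, hi⟩)
  · exfalso
    let i := Set.Infinite.natEmbedding _ hf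
    have hi : Function.Injective fun n => (i n).1 := Subtype.val_injective.comp i.injective
    choose d hd using fun n => (i n).2
    let ψ : (ℕ → ℤ) → L →ₗ[ℤ] ℤ := fun c => b.constr ℤ (Function.extend (fun n => (i n).1) c 0)
    have hc : ∀ x, Continuous fun c => ψ c x := by
      intro x
      simp only [ψ, Module.Basis.constr_apply, Finsupp.sum]
      refine continuous_finsetSum _ fun j _ => Continuous.mul continuous_const ?_
      by_cases hj : ∃ n, (i n).1 = j
      · obtain ⟨n, rfl⟩ := hj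
        simp only [hi.extend_apply]
        exact continuous_apply n
      · simp only [Function.extend_apply' _ _ _ hj]
        exact continuous_const
    have hadd : ∀ c (k : ℕ) (t : ℤ), ψ (c + Pi.single k t) = ψ c + t • b.coord (i k).1 := by
      intro c k t
      refine b.ext fun j => ?_
      simp only [ψ, Module.Basis.constr_basis, LinearMap.add_apply, LinearMap.smul_apply,
        Module.Basis.coord_apply, Module.Basis.repr_self, Finsupp.single_apply]
      by_cases hj : ∃ n, (i n).1 = j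
      · obtain ⟨n, rfl⟩ := hj
        simp only [hi.extend_apply, Pi.add_apply, Pi.single_apply]
        by_cases hn : n = k
        · simp [hn]
        · have : (i n).1 ≠ (i k).1 := fun h => hn (hi h)
          simp [hn, this]
      · have : j ≠ (i k).1 := fun h => hj ⟨k, h.symm⟩
        simp [Function.extend_apply' _ _ _ hj, this]
    obtain ⟨n, c, hc0⟩ := nonempty_interior_of_iUnion_of_closed
      (f := fun n : ℕ => {c : ℕ → ℤ | ∀ x, |ψ c (r x)| ≤ n * N x}) (fun n => by
        simp only [Set.ofPred_forall]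
        exact isClosed_iInter fun x => isClosed_le (hc _).abs continuous_const) (by
        rw [Set.eq_univ_iff_forall]
        intro c
        obtain ⟨n, hn⟩ := h (ψ c).toAddMonoidHom
        exact Set.mem_iUnion.mpr ⟨n, hn⟩)
    have ht : Tendsto (fun k => c + Pi.single k (2 * (n * N (d k) : ℤ) + 1)) atTop (𝓝 c) := by
      rw [tendsto_pi_nhds]
      intro m
      refine tendsto_const_nhds.congr' ?_
      filter_upwards [eventually_gt_atTop m] with k hk
      simp [hk.ne]
    obtain ⟨k, hk⟩ := (ht.eventually (mem_interior_iff_mem_nhds.mp hc0)).exists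
    have h1 := hk (d k)
    have h2 := interior_subset hc0 (d k)
    rw [hadd] at h1
    simp only [LinearMap.add_apply, LinearMap.smul_apply, Module.Basis.coord_apply,
      smul_eq_mul] at h1
    have h3 := hd k
    obtain ⟨a, ha⟩ : ∃ a, a = b.repr (r (d k)) (i k).1 := ⟨_, rfl⟩
    rw [← ha] at h1 h3
    obtain ⟨M, hM⟩ : ∃ M : ℤ, M = n * N (d k) := ⟨_, rfl⟩
    have hM0 : 0 ≤ M := by rw [hM]; positivity
    rw [← hM] at h1 h2
    rw [abs_le] at h1 h2
    rcases lt_or_gt_of_ne h3 with h4 | h4 <;> nlinarith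

section
variable {G : Type} [AddCommGroup G] [UniformSpace G] [IsUniformAddGroup G]

def DD (G : Type) [AddCommGroup G] [TopologicalSpace G] : AddSubgroup (G →+ ℤ) where
  carrier := {d | Continuous d}
  add_mem' := fun h1 h2 => Continuous.add h1 h2
  zero_mem' := continuous_const
  neg_mem' := fun h => Continuous.neg h

def SS (φ : DD G →+ ℤ) (U : OpenAddSubgroup G) : Set G :=
  {g | ∀ d : DD G, (∀ u ∈ U, d.1 u = 0) → d.1 g = φ d}

lemma SS_spec (K : Set G) (hK : IsCompact K) (hK2 : AddSubgroup.closure K = ⊤)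
    (φ : DD G →+ ℤ) (U : OpenAddSubgroup G) :
    (SS φ U).Nonempty ∧ ((QuotientAddGroup.mk : G → G ⧸ U.toAddSubgroup) '' SS φ U).Finite := by
  have : DiscreteTopology (G ⧸ U.toAddSubgroup) := QuotientAddGroup.discreteTopology U.isOpen
  have : Module.Finite ℤ (G ⧸ U.toAddSubgroup) := by
    rw [Module.Finite.iff_addGroup_fg, AddGroup.fg_iff]
    refine ⟨QuotientAddGroup.mk' U.toAddSubgroup '' K, ?_, ?_⟩
    · rw [← AddMonoidHom.map_closure, hK2]
      exact AddSubgroup.map_top_of_surjective _ (QuotientAddGroup.mk'_surjective _)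
    · exact (hK.image QuotientAddGroup.continuous_mk).finite_of_discrete
  obtain ⟨h1, h2⟩ := algAB (G ⧸ U.toAddSubgroup)
  let j : (G ⧸ U.toAddSubgroup →+ ℤ) →+ DD G := AddMonoidHom.mk'
    (fun d => ⟨d.comp (QuotientAddGroup.mk' _),
      (continuous_of_discreteTopology (f := d)).comp QuotientAddGroup.continuous_mk⟩)
    (fun _ _ => rfl)
  obtain ⟨a, ha⟩ := h1 (φ.comp j)
  obtain ⟨g, rfl⟩ := QuotientAddGroup.mk_surjective a
  have hg : g ∈ SS φ U := by
    intro d hd
    have := ha (QuotientAddGroup.lift U.toAddSubgroup d.1 hd)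
    exact this
  refine ⟨⟨g, hg⟩, (h2.image fun x => x + (g : G ⧸ U.toAddSubgroup)).subset ?_⟩
  rintro _ ⟨x, hx, rfl⟩
  refine ⟨(x : G ⧸ U.toAddSubgroup) - g, fun d => ?_, by simp⟩
  have hu : ∀ u ∈ U, (j d).1 u = 0 := fun u hu => by
    change d (u : G ⧸ U.toAddSubgroup) = 0
    rw [(QuotientAddGroup.eq_zero_iff u).mpr hu, map_zero]
  rw [map_sub, sub_eq_zero]
  exact (hx (j d) hu).trans (hg (j d) hu).symm

lemma conv [CompleteSpace G]
    (hU : ∀ s ∈ nhds (0 : G), ∃ U : AddSubgroup G, IsOpen (U : Set G) ∧ (U : Set G) ⊆ s)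
    (K : Set G) (hK : IsCompact K) (hK2 : AddSubgroup.closure K = ⊤)
    (φ : DD G →+ ℤ) (F : Ultrafilter G) (hF : ∀ U, SS φ U ∈ F) :
    ∃ g, (∀ d : DD G, d.1 g = φ d) ∧ (F : Filter G) ≤ 𝓝 g := by
  have hc : Cauchy (F : Filter G) := by
    rw [IsUniformAddGroup.cauchy_iff_tendsto]
    refine ⟨F.neBot, fun s hs => ?_⟩
    obtain ⟨U, hU1, hU2⟩ := hU s hs
    have h1 := (SS_spec K hK hK2 φ ⟨U, hU1⟩).2
    obtain ⟨q, -, hq⟩ := Ultrafilter.eq_pure_of_finite_mem
      (f := F.map (QuotientAddGroup.mk : G → G ⧸ U)) h1 (Filter.image_mem_map (hF _))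
    have h2 : (QuotientAddGroup.mk : G → G ⧸ U) ⁻¹' {q} ∈ F := by
      rw [← Ultrafilter.mem_map, hq]; simp
    rw [mem_map]
    refine mem_of_superset (prod_mem_prod h2 h2) ?_
    rintro ⟨x, y⟩ ⟨hx, hy⟩
    apply hU2
    have : (x : G ⧸ U) = y := hx.trans hy.symm
    exact QuotientAddGroup.eq_iff_sub_mem.mp this
  obtain ⟨g, hg⟩ := CompleteSpace.complete hc
  refine ⟨g, fun d => ?_, hg⟩
  have hd : Continuous d.1 := d.2
  have h1 : {x | d.1 x = φ d} ∈ F :=
    mem_of_superset (hF ⟨d.1.ker, (isOpen_discrete {0}).preimage hd⟩) fun x hx => hx d fun _ hu => hu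
  have h2 : IsClosed {x | d.1 x = φ d} := isClosed_eq hd continuous_const
  have h3 : g ∈ {x | d.1 x = φ d} := h2.mem_of_tendsto (f := id) hg h1
  exact h3

end

/-- Every complete Hausdorff abelian group with a basis of open subgroups at 0, generated by a compact set, and with no nontrivial compact subgroups, is discrete and isomorphic to Z^n for some n. -/
theorem result :
    ∀ (G : Type) [AddCommGroup G] [UniformSpace G] [IsUniformAddGroup G]
      [T2Space G] [CompleteSpace G],
      (∀ s ∈ nhds (0 : G), ∃ U : AddSubgroup G, IsOpen (U : Set G) ∧ (U : Set G) ⊆ s) →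
      (∃ K : Set G, IsCompact K ∧ AddSubgroup.closure K = ⊤) →
      (∀ H : AddSubgroup G, IsCompact (H : Set G) → H = ⊥) →
      DiscreteTopology G ∧ ∃ n : ℕ, Nonempty (G ≃+ (Fin n → ℤ)) := by
  intro G _ _ _ _ _ hU ⟨K, hK, hK2⟩ hH
  have : NonarchimedeanAddGroup G := ⟨fun s hs => by
    obtain ⟨U, h1, h2⟩ := hU s hs
    exact ⟨⟨U, h1⟩, h2⟩⟩
  have : CompactSpace K := isCompact_iff_compactSpace.mp hK
  let G0 : AddSubgroup G := ⨅ d : DD G, d.1.ker
  have hm : ∀ g, g ∈ G0 ↔ ∀ d : DD G, d.1 g = 0 := fun g => AddSubgroup.mem_iInf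
  have hG0 : G0 = ⊥ := by
    apply hH
    rw [isCompact_iff_ultrafilter_le_nhds]
    intro F hF
    obtain ⟨g, h1, h2⟩ := conv hU K hK hK2 0 F fun U =>
      mem_of_superset (le_principal_iff.mp hF) fun x hx d _ => (hm x).mp hx d
    exact ⟨g, (hm g).mpr h1, h2⟩
  let r : DD G →+ LocallyConstant (Profinite.of K) ℤ := AddMonoidHom.mk'
    (fun d => ⟨fun x : K => d.1 x, (IsLocallyConstant.iff_continuous _).mpr
      ((show Continuous d.1 from d.2).comp continuous_subtype_val)⟩) (fun _ _ => rfl)
  have hr : Function.Injective r := by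
    rw [injective_iff_map_eq_zero]
    intro d hd
    ext1
    refine AddMonoidHom.eq_of_eqOn_dense hK2 fun x hx => ?_
    exact DFunLike.congr_fun hd ⟨x, hx⟩
  have hN : ∀ d : DD G, ∃ n : ℕ, ∀ x ∈ K, |d.1 x| ≤ n := by
    intro d
    obtain ⟨C, hC⟩ := (hK.image (show Continuous d.1 from d.2).abs).bddAbove
    exact ⟨C.toNat, fun x hx => (hC ⟨x, hx, rfl⟩).trans (Int.self_le_toNat C)⟩
  choose N hN using hN
  have : Module.Finite ℤ (DD G) := by
    refine @unb _ _ _ _ (by convert LocallyConstant.freeOfProfinite (Profinite.of K)) r hr N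
      fun ψ => ?_
    have hne : (⨅ U : OpenAddSubgroup G, 𝓟 (SS (ψ.comp r) U)).NeBot := by
      refine iInf_neBot_of_directed (fun U V => ⟨U ⊓ V, ?_, ?_⟩) fun U => ?_
      · exact principal_mono.mpr fun x hx d hd => hx d fun u hu => hd u hu.1
      · exact principal_mono.mpr fun x hx d hd => hx d fun u hu => hd u hu.2
      · exact principal_neBot_iff.mpr (SS_spec K hK hK2 _ U).1
    obtain ⟨g, hg, -⟩ := conv hU K hK hK2 (ψ.comp r) (Ultrafilter.of _) fun U =>
      Ultrafilter.of_le (⨅ U : OpenAddSubgroup G, 𝓟 (SS (ψ.comp r) U))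
        (mem_iInf_of_mem U (mem_principal_self _))
    have hb : ∀ x ∈ AddSubgroup.closure K, ∃ n : ℕ, ∀ d : DD G, |d.1 x| ≤ n * N d := by
      intro x hx
      induction hx using AddSubgroup.closure_induction with
      | mem x hx => exact ⟨1, fun d => by simpa using hN d x hx⟩
      | zero => exact ⟨0, fun d => by simp⟩
      | add x y _ _ h1 h2 =>
        obtain ⟨m, h1⟩ := h1
        obtain ⟨n, h2⟩ := h2
        refine ⟨m + n, fun d => ?_⟩
        rw [map_add]
        refine (abs_add_le _ _).trans ?_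
        have := h1 d
        have := h2 d
        push_cast
        linarith
      | neg x _ h1 =>
        obtain ⟨m, h1⟩ := h1
        exact ⟨m, fun d => by simpa using h1 d⟩
    obtain ⟨n, hn⟩ := hb g (by rw [hK2]; trivial)
    exact ⟨n, fun d => by have := hn d; rwa [hg d] at this⟩
  obtain ⟨s, hs⟩ := Module.Finite.fg_top (R := ℤ) (M := DD G)
  have hopen : IsOpen ({0} : Set G) := by
    have : ({0} : Set G) = ⋂ d ∈ s, d.1 ⁻¹' {0} := by
      ext x
      simp only [Set.mem_singleton_iff, Set.mem_iInter, Set.mem_preimage]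
      refine ⟨fun h d _ => by rw [h, map_zero], fun h => ?_⟩
      rw [← AddSubgroup.mem_bot, ← hG0, hm]
      intro d
      have hd : d ∈ Submodule.span ℤ (s : Set (DD G)) := by rw [hs]; trivial
      induction hd using Submodule.span_induction with
      | mem d hd => exact h d hd
      | zero => rfl
      | add a b _ _ h1 h2 => simp [h1, h2]
      | smul c a _ h1 => simp [h1]
    rw [this]
    exact isOpen_biInter_finset fun d _ => (isOpen_discrete _).preimage d.2
  have hD : DiscreteTopology G := discreteTopology_of_isOpen_singleton_zero hopen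
  have : Module.Finite ℤ G := by
    rw [Module.Finite.iff_addGroup_fg, AddGroup.fg_iff]
    exact ⟨K, hK2, hK.finite_of_discrete⟩
  have : Module.IsTorsionFree ℤ G := by
    refine Module.IsTorsionFree.of_smul_eq_zero fun n x hx => ?_
    by_cases hn : n = 0
    · exact Or.inl hn
    · right
      rw [← AddSubgroup.mem_bot, ← hG0, hm]
      intro d
      have := congrArg d.1 hx
      rw [map_zsmul, map_zero, smul_eq_mul] at this
      exact (mul_eq_zero.mp this).resolve_left hn
  exact ⟨hD, _, ⟨(Module.finBasis ℤ G).equivFun.toAddEquiv⟩⟩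

end Pool.Agent.S01635
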