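import Pool.Statements.S01642
import Pool.Agent.H.MP_5f1296_al.A

set_option autoImplicit false
open Pool Pool.MP_5f1296_al

namespace Pool.Agent.S01642

theorem result :
    ¬ (∀ (G : Type) [Group G],
      (∃ (β : Ordinal.{0}) (S : Ordinal.{0} → Subgroup G),
        S 0 = ⊥ ∧ S β = ⊤ ∧
        (∀ α < β, S α ≤ S (Order.succ α) ∧
          (∀ g ∈ S (Order.succ α), ∀ h ∈ S α, g * h * g⁻¹ ∈ S α) ∧
          (∀ x ∈ S (Order.succ α), ∀ y ∈ S (Order.succ α), x * y * x⁻¹ * y⁻¹ ∈ S α)) ∧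
        (∀ l ≤ β, Order.IsSuccLimit l → S l = ⨆ (α : Ordinal.{0}) (_ : α < l), S α)) →
      ∀ a : G,
        (∃ n : ℕ, ∀ x : G, (fun y : G => y⁻¹ * x⁻¹ * y * x)^[n] a = 1) ↔
        (∃ n : ℕ, 1 ≤ n ∧ ∀ x : G, ∃ H : ℕ → Subgroup G,
           H 0 = Subgroup.zpowers x ∧
           H n = Subgroup.zpowers x ⊔ Subgroup.normalClosure {a} ∧
           ∀ i < n, H i ≤ H (i + 1) ∧ ∀ g ∈ H (i + 1), ∀ h ∈ H i, g * h * g⁻¹ ∈ H i)) := by
  open Pool.Agent.H.MP_b39e30_al in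
  intro h
  obtain ⟨n, -, hn⟩ := (h GG (Pool.Agent.H.MP_5f1296_al.sn good) x0).1 ⟨74, fun g => eng sq x0 g⟩
  obtain ⟨H, h0, h1, h2⟩ := hn x0
  rw [sup_eq_right.2 (Subgroup.zpowers_le.2 (Subgroup.subset_normalClosure (Set.mem_singleton _)))] at h1
  refine x0_not (subn (g := x0) (n := n + 1) (K := fun i => if i ≤ n then H i else ⊤)
    (by simpa using h0) (by simp) fun i hi => ?_)
  rcases (Nat.lt_succ_iff.1 hi).eq_or_lt with rfl | hi'
  · simp only [le_refl, if_true, h1]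
    exact ⟨by simp, fun a _ b hb => Subgroup.normalClosure_normal.conj_mem b hb a⟩
  · simpa only [if_pos hi'.le, if_pos (Nat.succ_le_of_lt hi')] using h2 i hi'

end Pool.Agent.S01642
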