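import Pool.Statements.S01645
import Pool.Agent.H.MP_5f4fc7_al.Main

set_option autoImplicit false
open Pool Pool.MP_5f4fc7_al

namespace Pool.Agent.S01645

theorem result :
    ∃ (G : Type) (_ : Group G),
      IsSolvable G ∧
      (∀ f : ℕ → Subgroup G, (∀ n, (f n).Normal) → Monotone f →
        ∃ n, ∀ m, n ≤ m → f m = f n) ∧
      (∀ H : Subgroup G, Group.IsNilpotent (↥H) →
        ∃ K : Subgroup G, Group.IsNilpotent (↥K) ∧ H < K) := by
  exact ⟨H.MP_5f4fc7_al.GG, inferInstance, H.MP_5f4fc7_al.solv,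
    fun _ h1 h2 => H.MP_5f4fc7_al.maxn h1 h2, H.MP_5f4fc7_al.nomax⟩

end Pool.Agent.S01645
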