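import Pool.Statements.S01652
import Pool.Agent.H.MP_5fd2c3_al.Main

set_option autoImplicit false
open Pool Pool.MP_5fd2c3_al

namespace Pool.Agent.S01652

theorem result :
    ¬ (∀ (G : Type) [Group G],
    (∃ (n : ℕ) (rels : Set (FreeGroup (Fin n))), rels.Finite ∧ Nonempty (G ≃* PresentedGroup rels)) →
    (∃ f : G →* Multiplicative ℤ, Function.Surjective f) →
    (¬ ∃ f : FreeGroup (Fin 2) →* G, Function.Injective f) →
    ∃ (m : ℕ) (R Q : Set (FreeGroup (Fin m))) (τ : FreeGroup (Fin m) →* FreeGroup (Fin m)),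
      R.Finite ∧ Q.Finite ∧
      ∃ (B : Subgroup (PresentedGroup (R ∪ ⋃ n : ℕ, (⇑τ)^[n] '' Q)))
        (ψ : (⊤ : Subgroup (PresentedGroup (R ∪ ⋃ n : ℕ, (⇑τ)^[n] '' Q))) ≃* B),
        Nonempty (G ≃* HNNExtension (PresentedGroup (R ∪ ⋃ n : ℕ, (⇑τ)^[n] '' Q)) ⊤ B ψ)) := by
  intro h
  obtain ⟨m, R, Q, τ, hR, hQ, B, ψ, ⟨e⟩⟩ := h H.MP_5fd2c3_al.GG
    Group.IsFinitelyPresented.exists_mulEquiv_presentedGroup H.MP_5fd2c3_al.indic H.MP_5fd2c3_al.noF2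
  exact H.MP_5fd2c3_al.main τ hR hQ B ψ e

end Pool.Agent.S01652
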