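import Pool.Statements.S01692
import Pool.Agent.H.MP_620157_al.E

set_option autoImplicit false
open Pool Pool.MP_620157_al

namespace Pool.Agent.S01692

theorem result :
    ¬ (∀ (n : ℕ) (r : FreeGroup (Fin n)),
      ∃ P : Polynomial (Polynomial ℚ), P ≠ 0 ∧
        Polynomial.eval₂ (Polynomial.coeToPowerSeries.ringHom)
          (PowerSeries.mk fun k : ℕ =>
            ((Nat.card
              {g : FreeGroup (Fin n) ⧸ Subgroup.normalClosure ({r} : Set (FreeGroup (Fin n))) //
                ∃ w : FreeGroup (Fin n),
                  (QuotientGroup.mk w :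
                      FreeGroup (Fin n) ⧸ Subgroup.normalClosure ({r} : Set (FreeGroup (Fin n)))) = g ∧
                  (FreeGroup.toWord w).length = k ∧
                  ∀ w' : FreeGroup (Fin n),
                    (QuotientGroup.mk w' :
                      FreeGroup (Fin n) ⧸ Subgroup.normalClosure ({r} : Set (FreeGroup (Fin n)))) = g →
                    k ≤ (FreeGroup.toWord w').length} : ℕ) : ℚ)) P = 0) := by
  intro h
  obtain ⟨P, hP, h0⟩ := h 2 Pool.Agent.H.MP_620157_al.rel
  apply Pool.Agent.H.MP_620157_al.main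
  refine ⟨P, hP, ?_⟩
  have e : algebraMap (Polynomial ℚ) (PowerSeries ℚ) = Polynomial.coeToPowerSeries.ringHom :=
    RingHom.ext fun p => Pool.Agent.H.MP_620157_al.alg_eq p
  rw [Polynomial.aeval_def, e]
  simp only [← Pool.Agent.H.MP_620157_al.card_eq Pool.Agent.H.MP_620157_al.hall]
  exact h0

end Pool.Agent.S01692
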