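import Pool.Statements.S01712
-- import your own Pool.Agent.* helpers here

set_option autoImplicit false
open Pool Pool.MP_63a718_al

namespace Pool.Agent.S01712

@[ext] structure GG where
  c : ℚ
  a : ℤ
  q : ℚ
  n : ℤ

instance : Mul GG :=
  ⟨fun x y => ⟨x.c + (-1) ^ x.a * y.c, x.a + y.a, x.q + 2 ^ x.n * y.q, x.n + y.n⟩⟩
instance : One GG := ⟨⟨0, 0, 0, 0⟩⟩
instance : Inv GG := ⟨fun x => ⟨-((-1) ^ (-x.a) * x.c), -x.a, -(2 ^ (-x.n) * x.q), -x.n⟩⟩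

theorem mul_c (x y : GG) : (x * y).c = x.c + (-1) ^ x.a * y.c := rfl
theorem mul_a (x y : GG) : (x * y).a = x.a + y.a := rfl
theorem mul_q (x y : GG) : (x * y).q = x.q + 2 ^ x.n * y.q := rfl
theorem mul_n (x y : GG) : (x * y).n = x.n + y.n := rfl
theorem inv_c (x : GG) : x⁻¹.c = -((-1) ^ (-x.a) * x.c) := rfl
theorem inv_a (x : GG) : x⁻¹.a = -x.a := rfl
theorem inv_q (x : GG) : x⁻¹.q = -(2 ^ (-x.n) * x.q) := rfl
theorem inv_n (x : GG) : x⁻¹.n = -x.n := rfl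
theorem one_c : (1 : GG).c = 0 := rfl
theorem one_a : (1 : GG).a = 0 := rfl
theorem one_q : (1 : GG).q = 0 := rfl
theorem one_n : (1 : GG).n = 0 := rfl

instance : Group GG := Group.ofLeftAxioms
  (fun x y z => by
    ext
    · simp only [mul_c, mul_a, zpow_add₀ (show (-1 : ℚ) ≠ 0 by norm_num)]; ring
    · exact add_assoc _ _ _
    · simp only [mul_q, mul_n, zpow_add₀ (show (2 : ℚ) ≠ 0 by norm_num)]; ring
    · exact add_assoc _ _ _)
  (fun x => by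
    ext <;> simp [mul_c, mul_a, mul_q, mul_n, one_c, one_a, one_q, one_n])
  (fun x => by
    ext <;> simp only [mul_c, mul_a, mul_q, mul_n, one_c, one_a, one_q, one_n, inv_c, inv_a,
      inv_q, inv_n, neg_add_cancel])

def Z2 (q : ℚ) : Prop := ∃ m k : ℤ, Odd m ∧ m * q = k

theorem Z2.add {q r : ℚ} (hq : Z2 q) (hr : Z2 r) : Z2 (q + r) := by
  obtain ⟨m, k, h1, h2⟩ := hq
  obtain ⟨m', k', h3, h4⟩ := hr
  exact ⟨m * m', m' * k + m * k', h1.mul h3, by push_cast; rw [← h2, ← h4]; ring⟩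

theorem Z2.neg {q : ℚ} (hq : Z2 q) : Z2 (-q) := by
  obtain ⟨m, k, h1, h2⟩ := hq
  exact ⟨m, -k, h1, by push_cast; rw [← h2]; ring⟩

theorem Z2.two {q : ℚ} (hq : Z2 q) {n : ℤ} (hn : 0 ≤ n) : Z2 (2 ^ n * q) := by
  obtain ⟨m, k, h1, h2⟩ := hq
  lift n to ℕ using hn
  exact ⟨m, 2 ^ n * k, h1, by push_cast; rw [← h2, zpow_natCast]; ring⟩

theorem Z2.even {q : ℚ} (hq : Z2 q) {a : ℤ} (h : 2 * q = a) : Even a := by
  obtain ⟨m, k, h1, h2⟩ := hq
  have : m * a = 2 * k := by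
    have : (m : ℚ) * a = 2 * k := by rw [← h, ← h2]; ring
    exact_mod_cast this
  have h3 : Even (m * a) := ⟨k, by omega⟩
  exact (Int.even_mul.mp h3).resolve_left (Int.not_even_iff_odd.mpr h1)

theorem ex_Z2 (q : ℚ) : ∃ n : ℤ, Z2 (2 ^ n * q) := by
  obtain ⟨k, m, hm, h⟩ := Nat.exists_eq_two_pow_mul_odd q.den_nz
  refine ⟨k, m, q.num, by exact_mod_cast hm, ?_⟩
  rw [← Rat.mul_den_eq_num, h, zpow_natCast]
  push_cast
  ring

def PP (g : GG) : Prop :=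
  Z2 g.q ∧ (0 < g.n ∨ (g.n = 0 ∧ (2 * g.q < g.a ∨
    (2 * g.q = g.a ∧ (0 < g.c ∨ (g.c = 0 ∧ 0 ≤ g.a))))))

theorem PP.le {g : GG} (h : PP g) : 0 ≤ g.n := by
  rcases h.2 with h | h
  · exact h.le
  · exact h.1.ge

theorem PP.mul {g h : GG} (hg : PP g) (hh : PP h) : PP (g * h) := by
  refine ⟨hg.1.add (hh.1.two hg.le), ?_⟩
  have := hg.le
  have := hh.le
  rw [mul_n, mul_q, mul_a, mul_c]
  rcases hg.2 with a | ⟨a, a'⟩
  · left; omega
  rcases hh.2 with b | ⟨b, b'⟩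
  · left; omega
  refine Or.inr ⟨by omega, ?_⟩
  rw [a, zpow_zero, one_mul]
  push_cast
  rcases a' with a' | ⟨a1, a2⟩
  · left
    rcases b' with b' | ⟨b', -⟩ <;> linarith
  rcases b' with b' | ⟨b1, b2⟩
  · left; linarith
  refine Or.inr ⟨by linarith, ?_⟩
  rw [(hg.1.even a1).neg_one_zpow, one_mul]
  rcases a2 with a2 | ⟨a2, a3⟩ <;> rcases b2 with b2 | ⟨b2, b3⟩
  · left; linarith
  · left; linarith
  · left; linarith
  · exact Or.inr ⟨by linarith, by omega⟩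

theorem PP.anti {g : GG} (h : PP g) (h' : PP g⁻¹) : g = 1 := by
  have h1 := h.le
  have h2 := h'.le
  rw [inv_n] at h2
  have h3 : g.n = 0 := by omega
  obtain ⟨-, a⟩ := h.2.resolve_left (by omega)
  obtain ⟨-, b⟩ := h'.2.resolve_left (by rw [inv_n]; omega)
  rw [inv_q, inv_a, inv_c, h3, neg_zero, zpow_zero, one_mul] at b
  push_cast at b
  have h4 : 2 * g.q = g.a := by
    rcases a with a | a <;> rcases b with b | b <;> linarith
  obtain ⟨-, a⟩ := a.resolve_left h4.not_lt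
  obtain ⟨-, b⟩ := b.resolve_left (by linarith)
  rw [(h.1.even h4).neg.neg_one_zpow, one_mul] at b
  have h5 : g.c = 0 := by
    rcases a with a | a <;> rcases b with b | b <;> linarith
  have h6 : g.a = 0 := by
    have := (a.resolve_left (by linarith)).2
    have := (b.resolve_left (by linarith)).2
    omega
  refine GG.ext h5 h6 ?_ h3
  rw [h6] at h4
  rw [one_q]
  simpa using h4

theorem tot (g : GG) (h : Z2 g.q) (hn : g.n = 0) : PP g ∨ PP g⁻¹ := by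
  have e : g⁻¹.q = -g.q := by rw [inv_q, hn]; simp
  have e' : g⁻¹.n = 0 := by rw [inv_n, hn]; rfl
  rcases lt_trichotomy (2 * g.q) g.a with a | a | a
  · exact Or.inl ⟨h, Or.inr ⟨hn, Or.inl a⟩⟩
  · have e2 : g⁻¹.c = -g.c := by rw [inv_c, (h.even a).neg.neg_one_zpow, one_mul]
    have e3 : 2 * g⁻¹.q = g⁻¹.a := by rw [e, inv_a]; push_cast; linarith
    rcases lt_trichotomy 0 g.c with b | b | b
    · exact Or.inl ⟨h, Or.inr ⟨hn, Or.inr ⟨a, Or.inl b⟩⟩⟩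
    · rcases le_total 0 g.a with c | c
      · exact Or.inl ⟨h, Or.inr ⟨hn, Or.inr ⟨a, Or.inr ⟨b.symm, c⟩⟩⟩⟩
      · exact Or.inr ⟨e ▸ h.neg, Or.inr ⟨e', Or.inr ⟨e3, Or.inr
          ⟨by rw [e2, ← b, neg_zero], by rw [inv_a]; omega⟩⟩⟩⟩
    · exact Or.inr ⟨e ▸ h.neg, Or.inr ⟨e', Or.inr ⟨e3, Or.inl (by rw [e2]; linarith)⟩⟩⟩
  · exact Or.inr ⟨e ▸ h.neg, Or.inr ⟨e', Or.inl (by rw [e, inv_a]; push_cast; linarith)⟩⟩

theorem div_Z2 {a b : GG} (ha : PP a) (hb : PP b) (h : a.n ≤ b.n) : Z2 (b * a⁻¹).q := by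
  rw [mul_q, inv_q, mul_neg, ← mul_assoc, ← zpow_add₀ (by norm_num)]
  exact hb.1.add (ha.1.two (by omega)).neg

theorem up (a : GG) : ∃ N : ℤ, ∀ M, N ≤ M → PP (⟨0, 0, 0, M⟩ * a⁻¹) := by
  obtain ⟨n, hn⟩ := ex_Z2 a⁻¹.q
  refine ⟨max n (a.n + 1), fun M hM => ⟨?_, Or.inl ?_⟩⟩
  · have := hn.two (n := M - n) (by omega)
    rw [← mul_assoc, ← zpow_add₀ (by norm_num), sub_add_cancel] at this
    rwa [mul_q, zero_add]
  · rw [mul_n, inv_n]
    change 0 < M + -a.n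
    omega

theorem result :
    ¬ (∀ (G : Type) [Group G] (r : G → G → Prop),
      (∀ a : G, r a a) →
      (∀ a b : G, r a b → r b a → a = b) →
      (∀ a b c : G, r a b → r b c → r a c) →
      (∀ a b c : G, r a b → r (a * c) (b * c)) →
      (∀ a b : G, ∃ c : G, r a c ∧ r b c) →
      (∀ a b : G, r 1 a → r 1 b → r a b ∨ r b a) →
      ∃ s : G → G → Prop,
        (∀ a : G, s a a) ∧
        (∀ a b : G, s a b → s b a → a = b) ∧
        (∀ a b c : G, s a b → s b c → s a c) ∧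
        (∀ a b : G, s a b ∨ s b a) ∧
        (∀ a b c : G, s a b → s (a * c) (b * c)) ∧
        (∀ a b : G, r a b → s a b)) := by
  intro hall
  have z0 : ∀ k : ℤ, Z2 k := fun k => ⟨1, k, odd_one, by simp⟩
  obtain ⟨s, -, h2, h3, h4, h5, h6⟩ := hall GG (fun a b => PP (b * a⁻¹))
    (fun a => by
      rw [mul_inv_cancel]
      exact ⟨z0 0, Or.inr ⟨rfl, Or.inr ⟨by simp [one_q, one_a], Or.inr ⟨rfl, le_rfl⟩⟩⟩⟩)
    (fun a b h h' => (mul_inv_eq_one.mp (h.anti (by simpa using h'))).symm)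
    (fun a b c h h' => by simpa [mul_assoc] using h'.mul h)
    (fun a b c h => by simpa [mul_assoc] using h)
    (fun a b => by
      obtain ⟨N, hN⟩ := up a
      obtain ⟨M, hM⟩ := up b
      exact ⟨_, hN (max N M) (le_max_left _ _), hM (max N M) (le_max_right _ _)⟩)
    (fun a b ha hb => by
      rw [inv_one, mul_one] at ha hb
      rcases lt_trichotomy a.n b.n with h | h | h
      · exact Or.inl ⟨div_Z2 ha hb h.le, Or.inl (by rw [mul_n, inv_n]; omega)⟩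
      · simpa using tot _ (div_Z2 ha hb h.le) (by rw [mul_n, inv_n]; omega)
      · exact Or.inr ⟨div_Z2 hb ha h.le, Or.inl (by rw [mul_n, inv_n]; omega)⟩)
  have hm : ∀ g h, s 1 g → s 1 h → s 1 (g * h) := fun g h a b =>
    h3 _ _ _ b (by simpa using h5 _ _ h a)
  have hp : ∀ k : ℤ, s 1 ⟨1, 2 * k, k, 0⟩ := fun k => h6 _ _ (by
    rw [inv_one, mul_one]
    exact ⟨z0 k, Or.inr ⟨rfl, Or.inr ⟨by simp, Or.inl one_pos⟩⟩⟩)
  have key : ∀ k : ℤ, Odd k → ¬ s 1 ⟨0, k, k / 2, 0⟩ := by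
    intro k hk h
    have a := hm _ _ (hm _ _ (hm _ _ h (hp (-k))) h) (hp 0)
    have b := h5 _ _ (⟨1, 2 * 0, (0 : ℤ), 0⟩ : GG) (hm _ _ (hm _ _ h (hp (-k))) h)
    have e : (⟨0, k, k / 2, 0⟩ : GG) * ⟨1, 2 * -k, (-k : ℤ), 0⟩ * ⟨0, k, k / 2, 0⟩ *
        ⟨1, 2 * 0, (0 : ℤ), 0⟩ = 1 := by
      ext
      · simp only [mul_c, mul_a, one_c, hk.neg_one_zpow]
        rw [show k + 2 * -k + k = 0 by ring]
        simp
      · simp only [mul_a, one_a]; ring
      · simp only [mul_q, mul_n, one_q]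
        simp
        ring
      · rfl
    rw [e, one_mul] at b
    have := congrArg GG.c (h2 _ _ b (hp 0))
    simp [one_c] at this
  rcases h4 1 ⟨0, 1, (1 : ℤ) / 2, 0⟩ with h | h
  · exact key 1 odd_one h
  · refine key (-1) odd_one.neg ?_
    have := h5 _ _ ⟨0, -1, (-1 : ℤ) / 2, 0⟩ h
    rw [one_mul] at this
    convert this using 1
    ext <;> simp [mul_c, mul_a, mul_q, mul_n, one_c, one_a, one_q, one_n]
    norm_num

end Pool.Agent.S01712
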