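import Pool.Statements.S01724
import Pool.Agent.H.MP_6441f0_al.C

set_option autoImplicit false
open Pool Pool.MP_6441f0_al

namespace Pool.Agent.S01724

theorem result :
    ¬ (∀ (p : ℕ), p.Prime → ∀ (G : Type) [Group G] [Finite G], IsPGroup p G →
      ∀ S : Set ℕ,
        S = {n : ℕ | ∃ (V : Type) (_ : AddCommGroup V) (_ : Module ℂ V)
              (_ : FiniteDimensional ℂ V) (ρ : Representation ℂ G V),
              Nontrivial V ∧
              (∀ W : Submodule ℂ V, (∀ g : G, ∀ v ∈ W, ρ g v ∈ W) → W = ⊥ ∨ W = ⊤) ∧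
              Module.finrank ℂ V = n} →
        S.ncard = 3 → p ∉ S → derivedSeries G 2 = ⊥) := by
  intro h
  classical
  haveI : Fact (Nat.Prime 5) := ⟨by norm_num⟩
  let F := GaloisField 5 2
  haveI : Fintype F := Fintype.ofFinite F
  have hc : Fintype.card F = 25 := by
    rw [← Nat.card_eq_fintype_card]
    exact GaloisField.card 5 2 (by norm_num)
  have h2 : (2 : F) ≠ 0 := by
    intro e
    have := (CharP.cast_eq_zero_iff F 5 2).mp (by exact_mod_cast e)
    norm_num at this
  have h3 : (3 : F) ≠ 0 := by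
    intro e
    have := (CharP.cast_eq_zero_iff F 5 3).mp (by exact_mod_cast e)
    norm_num at this
  haveI : Finite (H.MP_6441f0_al.Gp F) := Finite.of_equiv _ H.MP_6441f0_al.Gp.eqv.symm
  have hP : IsPGroup 5 (H.MP_6441f0_al.Gp F) := by
    apply IsPGroup.of_card (n := 16)
    rw [Nat.card_congr H.MP_6441f0_al.Gp.eqv]
    have hc' : Nat.card F = 25 := by rw [Nat.card_eq_fintype_card, hc]
    simp only [Nat.card_prod, hc']
    norm_num
  refine H.MP_6441f0_al.not_metab h2 h3 (h 5 (by norm_num) _ hP _ rfl ?_ ?_)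
  · rw [H.MP_6441f0_al.degs h2 h3, hc]
    rw [Set.ncard_eq_three]
    exact ⟨1, 25, 25 ^ 3, by norm_num, by norm_num, by norm_num, rfl⟩
  · rw [H.MP_6441f0_al.degs h2 h3, hc]
    norm_num

end Pool.Agent.S01724
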