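import Pool.Statements.S01736
import Pool.Agent.H.MP_65d788_al.A

set_option autoImplicit false
open Pool Pool.MP_65d788_al

namespace Pool.Agent.S01736

open Pool.Agent.H.MP_65d788_al

theorem result :
    ¬ (∀ (G : Type) [Group G] [Finite G] (H : Subgroup G),
      Nat.Coprime (Nat.card H) H.index →
      (∃ (n : ℕ) (N : ℕ → Subgroup H), N 0 = ⊥ ∧ N n = ⊤ ∧
        (∀ i, i < n → N i ≤ N (i + 1) ∧ (N (i + 1)).Normal ∧
          ∃ p : ℕ, p.Prime ∧
            Nat.card (N (i + 1)) = Nat.card (N i) * p ^ (Nat.card H).factorization p)) →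
      ∀ K : Subgroup G, K ≤ H → ∀ g : G,
        ∃ x ∈ H ⊔ K.map (MulAut.conj g).toMonoidHom,
          K.map (MulAut.conj (x * g)).toMonoidHom ≤ H) := by
  intro hall
  let e := MonoidHom.ofInjective Φ_inj
  have hc : Nat.card Φ.range = 11 ^ 6 * 5 := by rw [← Nat.card_congr e.toEquiv, card_A]
  have hi : Nat.Coprime (Nat.card Φ.range) Φ.range.index := by
    have h1 := Φ.range.card_mul_index
    rw [hc, card_G] at h1
    have h2 : Φ.range.index = (23 ^ 6 - 1) * (23 ^ 6 - 23) * (23 ^ 6 - 23 ^ 2) *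
        (23 ^ 6 - 23 ^ 3) * (23 ^ 6 - 23 ^ 4) * (23 ^ 6 - 23 ^ 5) / (11 ^ 6 * 5) := by
      rw [← h1, Nat.mul_div_cancel_left _ (by norm_num)]
    rw [hc, h2]
    norm_num
  have hk : Nat.card (κ.ker.map e.toMonoidHom) = 11 ^ 6 := by
    rw [← card_ker]; exact Subgroup.card_map_of_injective e.injective
  have f11 : (11 ^ 6 * 5 : ℕ).factorization 11 = 6 := by
    rw [Nat.factorization_mul (by norm_num) (by norm_num), Nat.Prime.factorization_pow (by norm_num),
      Nat.Prime.factorization (by norm_num)]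
    simp
  have f5 : (11 ^ 6 * 5 : ℕ).factorization 5 = 1 := by
    rw [Nat.factorization_mul (by norm_num) (by norm_num), Nat.Prime.factorization_pow (by norm_num),
      Nat.Prime.factorization (by norm_num)]
    simp
  obtain ⟨x, hx, hle⟩ := hall (GL (Fin 6) (ZMod 23)) Φ.range hi
    ⟨2, fun i => if i = 0 then ⊥ else if i = 1 then κ.ker.map e.toMonoidHom else ⊤, by simp,
      by simp, by
        intro i hi
        interval_cases i
        · refine ⟨by simp, ?_, 11, by norm_num, ?_⟩
          · simpa using (MonoidHom.normal_ker κ).map e.toMonoidHom e.surjective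
          · rw [hc, f11]; simpa using hk
        · refine ⟨by simp, by simpa using Subgroup.normal_top, 5, by norm_num, ?_⟩
          rw [hc, f5]
          simp only [Nat.reduceAdd, OfNat.ofNat_ne_zero, if_false, OfNat.ofNat_ne_one, one_ne_zero,
            if_true, Subgroup.card_top]
          rw [hc, hk]; norm_num⟩
    (Subgroup.zpowers (Φ a0)) (by rw [Subgroup.zpowers_le]; exact ⟨a0, rfl⟩) g
  have hB : Φ.range ⊔ (Subgroup.zpowers (Φ a0)).map (MulAut.conj g).toMonoidHom ≤ B := by
    apply sup_le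
    · rintro _ ⟨a, rfl⟩; exact mat_E a
    · rw [MonoidHom.map_zpowers, Subgroup.zpowers_le]
      exact z_B
  obtain ⟨a, ha⟩ := hle ⟨Φ a0, Subgroup.mem_zpowers _, rfl⟩
  exact key x (hB hx) a ha

end Pool.Agent.S01736
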