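import Pool.Statements.S01748
-- import your own Pool.Agent.* helpers here

set_option autoImplicit false
open scoped Pointwise
open Pool Pool.MP_674247_al

namespace Pool.Agent.S01748

variable {A B : Type} [Group A] [Group B]

theorem inv_mem' {S : Set A} (hi : ∀ x ∈ S, x⁻¹ ∈ S) {n : ℕ} {e : A} (h : e ∈ S ^ n) : e⁻¹ ∈ S ^ n := by
  rw [← Set.mem_inv, ← inv_pow]
  exact Set.pow_subset_pow_left (fun x a => hi x a) h

theorem mul_mem' {S : Set A} {m n : ℕ} {a b : A} (h : a ∈ S ^ m) (k : b ∈ S ^ n) : a * b ∈ S ^ (m + n) := pow_add S m n ▸ Set.mul_mem_mul h k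

theorem ex_pow {S : Set A} (h : Subgroup.closure S = ⊤) (hi : ∀ x ∈ S, x⁻¹ ∈ S) (e : A) : ∃ n : ℕ, e ∈ S ^ n := by
  induction h.ge (Subgroup.mem_top e) using Subgroup.closure_induction with
  | mem x a => exact ⟨1, by simpa⟩
  | one => exact ⟨0, by simp⟩
  | mul _ _ _ _ i j => exact i.elim fun _ i => j.elim fun _ j => ⟨_, mul_mem' i j⟩
  | inv _ _ i => exact i.imp fun _ => inv_mem' hi

theorem bd {S : Set A} (h : Subgroup.closure S = ⊤) (h1 : 1 ∈ S) (hi : ∀ x ∈ S, x⁻¹ ∈ S) {U : Set A} (hU : U.Finite) : ∃ K : ℕ, ∀ u ∈ U, u ∈ S ^ K := by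
  choose n hn using ex_pow h hi
  exact (hU.image n).bddAbove.imp fun K a u b => Set.pow_subset_pow_right h1 (a ⟨u, b, rfl⟩) (hn u)

theorem rel_pow {S : Set A} {T : Set B} {K : ℕ} (r : A → B → Prop) (r1 : r 1 1) (r2 : ∀ a b c d, r a b → r c d → r (a * c) (b * d))
    (h : ∀ x ∈ S, ∃ y ∈ T ^ K, r x y) {n : ℕ} {x : A} (hx : x ∈ S ^ n) : ∃ y ∈ T ^ (K * n), r x y := by
  induction n generalizing x with
  | zero => exact ⟨1, by simp, by rwa [show x = 1 by simpa using hx]⟩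
  | succ n ih =>
    obtain ⟨a, i, b, j, rfl⟩ := pow_succ S n ▸ hx
    obtain ⟨c, k, l⟩ := ih i
    obtain ⟨d, k', l'⟩ := h b j
    exact ⟨_, mul_mem' k k', r2 _ _ _ _ l l'⟩

theorem hom_pow {S : Finset A} {T : Set B} (h : Subgroup.closure T = ⊤) (h1 : 1 ∈ T) (hi : ∀ x ∈ T, x⁻¹ ∈ T) (φ : A →* B) :
    ∃ K : ℕ, ∀ n : ℕ, ∀ x ∈ (S : Set A) ^ n, φ x ∈ T ^ (K * n) :=
  (bd h h1 hi (S.finite_toSet.image φ)).imp fun _ k _ _ a => (rel_pow (fun x y => φ x = y) φ.map_one (by rintro _ _ _ _ rfl rfl; simp)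
    (fun x b => ⟨_, k _ ⟨x, b, rfl⟩, rfl⟩) a).elim fun _ b => b.2 ▸ b.1

theorem mcs {S : Set B} (h : Subgroup.closure S = ⊤) (hi : ∀ x ∈ S, x⁻¹ ∈ S) (ι : A →* B) (l : A → ℤ) (hl : ∀ a b, l (a * b) = l a + l b) (L : ℕ)
    (k : ∀ z (n : ℕ), ι z ∈ S ^ n → -(L * n + L : ℤ) ≤ l z) : ∃ F : B → ℤ, (∀ z e, F (ι z * e) = l z + F e) ∧ ∀ e, ∀ x ∈ S, |F (e * x) - F e| ≤ L := by
  have : ∀ e, ∃ a : ℤ, (∃ z, ∃ n : ℕ, (ι z)⁻¹ * e ∈ S ^ n ∧ a = l z + L * n) ∧ ∀ b, (∃ z, ∃ n : ℕ, (ι z)⁻¹ * e ∈ S ^ n ∧ b = l z + L * n) → a ≤ b := fun e => by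
    obtain ⟨m, a⟩ := ex_pow h hi e
    refine Int.exists_least_of_bdd ⟨-(L * m + L), ?_⟩ ⟨_, 1, m, by simpa, rfl⟩
    rintro _ ⟨z, n, b, rfl⟩
    have := k z (m + n) (by simpa using mul_mem' a (inv_mem' hi b))
    push_cast at this
    linarith
  choose F h1 h2 using this
  have a : ∀ z e, F (ι z * e) ≤ l z + F e := fun z e => by
    obtain ⟨w, n, b, c⟩ := h1 e
    exact h2 _ _ ⟨z * w, n, by simpa [mul_assoc], by rw [c, hl, add_assoc]⟩
  have b : ∀ e, ∀ x ∈ S, F (e * x) ≤ F e + L := fun e x i => by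
    obtain ⟨w, n, b, c⟩ := h1 e
    exact h2 _ _ ⟨w, n + 1, by simpa [mul_assoc] using mul_mem' b (show x ∈ S ^ 1 by simpa), by rw [c]; push_cast; ring⟩
  refine ⟨F, fun z e => (a z e).antisymm ?_, fun e x i => abs_le.2 ⟨?_, by linarith [b e x i]⟩⟩
  · have := a z⁻¹ (ι z * e)
    have := hl z z⁻¹
    have := hl 1 1
    simp only [map_inv, inv_mul_cancel_left, mul_inv_cancel, mul_one] at *
    linarith
  · have := b (e * x) _ (hi x i)
    rw [mul_inv_cancel_right] at this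
    linarith

theorem coord (hc : ∀ a b : A, a * b = b * a) (hf : Group.FG A) : ∃ (n : ℕ) (l : A → Fin n → ℤ), (∀ a b, l (a * b) = l a + l b) ∧ l.Surjective ∧
    ∀ L : ℤ, {z | ∀ i, |l z i| ≤ L}.Finite := by
  letI : CommGroup A := ⟨hc⟩
  obtain ⟨n, ι, _, p, hp, e, ⟨f⟩⟩ := AddCommGroup.equiv_free_prod_directSum_zmod (Additive A)
  haveI : ∀ i, NeZero (p i ^ e i) := fun i => ⟨pow_ne_zero _ (hp i).ne_zero⟩
  haveI : Finite (DirectSum ι fun i => ZMod (p i ^ e i)) := Finite.of_injective _ DFunLike.coe_injective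
  refine ⟨n, fun z => (f (.ofMul z)).1, fun a b => by simp, fun y => ⟨(f.symm (Finsupp.equivFunOnFinite.symm y, 0)).toMul, by simp⟩, fun L => ?_⟩
  refine ((((Set.Finite.pi' fun _ => Set.finite_Icc (-L) L).preimage DFunLike.coe_injective.injOn).prod Set.finite_univ).preimage
    (f := fun z : A => f (.ofMul z)) (f.injective.comp Additive.ofMul.injective).injOn).subset fun z h => ⟨fun i => abs_le.1 (h i), trivial⟩

theorem result :
    ¬ (∃ (Z E G : Type) (_ : Group Z) (_ : Group E) (_ : Group G) (ι : Z →* E) (π : E →* G),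
    Function.Injective ι ∧ Function.Surjective π ∧ ι.range = π.ker ∧
    ι.range ≤ Subgroup.center E ∧
    ∃ (SZ : Finset Z) (SE : Finset E) (SP : Finset (Z × G)),
      Subgroup.closure (SZ : Set Z) = ⊤ ∧ (1 : Z) ∈ SZ ∧ (∀ x ∈ SZ, x⁻¹ ∈ SZ) ∧
      Subgroup.closure (SE : Set E) = ⊤ ∧ (1 : E) ∈ SE ∧ (∀ x ∈ SE, x⁻¹ ∈ SE) ∧
      Subgroup.closure (SP : Set (Z × G)) = ⊤ ∧ (1 : Z × G) ∈ SP ∧ (∀ x ∈ SP, x⁻¹ ∈ SP) ∧
      (∃ C : ℕ, ∀ (z : Z) (n : ℕ),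
          ι z ∈ (SE : Set E) ^ n → z ∈ (SZ : Set Z) ^ (C * n + C)) ∧
      ¬ ∃ (f : Z × G → E) (C : ℕ), (∀ p : Z × G, π (f p) = p.2) ∧
          (∀ (p q : Z × G) (n : ℕ), p⁻¹ * q ∈ (SP : Set (Z × G)) ^ n →
              (f p)⁻¹ * f q ∈ (SE : Set E) ^ (C * n + C)) ∧
          (∀ (p q : Z × G) (n : ℕ), (f p)⁻¹ * f q ∈ (SE : Set E) ^ n →
              p⁻¹ * q ∈ (SP : Set (Z × G)) ^ (C * n + C)) ∧
          (∀ e : E, ∃ p : Z × G, (f p)⁻¹ * e ∈ (SE : Set E) ^ C)) := by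
  rintro ⟨Z, E, G, _, _, _, ι, π, hι, hπ, hk, hz, SZ, SE, SP, z1, z2, z3, e1, e2, e3, p1, p2, p3, ⟨C, hC⟩, h⟩
  have cm : ∀ z e, ι z * e = e * ι z := fun z e => (Subgroup.mem_center_iff.1 (hz ⟨z, rfl⟩) e).symm
  have pi : ∀ z, π (ι z) = 1 := fun z => hk.le ⟨z, rfl⟩
  obtain ⟨n, l, l1, l2, l3⟩ := coord (fun a b => hι (by rw [map_mul, map_mul, cm])) ⟨SZ, z1⟩
  obtain ⟨M, hM⟩ : ∃ M : ℕ, ∀ x ∈ SZ, ∀ i, -(M : ℤ) ≤ l x i := by
    obtain ⟨M, a⟩ := ((SZ.finite_toSet.prod Set.finite_univ).image fun p : Z × Fin n => (l p.1 p.2).natAbs).bddAbove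
    exact ⟨M, fun x b i => by have := a ⟨(x, i), ⟨b, trivial⟩, rfl⟩; dsimp only at this; omega⟩
  have hM' : ∀ i (m : ℕ), ∀ x ∈ (SZ : Set Z) ^ m, -(M * m : ℤ) ≤ l x i := fun i m => by
    induction m with
    | zero => simpa using (congrFun (l1 1 1) i).le
    | succ m ih =>
      rw [pow_succ]
      rintro _ ⟨a, b, c, d, rfl⟩
      have := ih a b
      have := hM c d i
      simp only [l1, Pi.add_apply]
      push_cast
      linarith
  choose F F1 F2 using fun i => mcs e1 e3 ι (l · i) (fun a b => congrFun (l1 a b) i) (M * C) fun z m a => by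
    have := hM' i _ _ (hC z m a)
    push_cast at this ⊢
    linarith
  have : ∀ g, ∃ e, π e = g ∧ ∀ i, F i e = 0 := fun g => by
    obtain ⟨e, rfl⟩ := hπ g
    obtain ⟨z, a⟩ := l2 fun i => -F i e
    exact ⟨ι z * e, by simp [pi], fun i => by simp [F1, a]⟩
  choose s s1 s2 using this
  obtain ⟨K, hK⟩ := bd e1 e2 e3 ((l3 (M * C : ℕ)).image ι)
  have s3 : ∀ m : ℕ, ∀ e ∈ (SE : Set E) ^ m, ∀ g, (s g)⁻¹ * s (g * π e) ∈ (SE : Set E) ^ ((K + 1) * m) := fun m e a => by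
    induction m generalizing e with
    | zero => simp [show e = 1 by simpa using a]
    | succ m ih =>
      rw [pow_succ] at a
      obtain ⟨y, i, x, j, rfl⟩ := a
      intro g
      obtain ⟨z, b⟩ : s (g * π (y * x)) * (s (g * π y) * x)⁻¹ ∈ ι.range := hk.ge (by simp [s1, mul_assoc])
      rw [eq_mul_inv_iff_mul_eq] at b
      have := mul_mem' (ih y i g) (mul_mem' (hK _ ⟨z, fun i => by
        have u := F2 i (s (g * π y)) x j
        have := F1 i z (s (g * π y) * x)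
        rw [b, s2] at this
        rw [s2, sub_zero] at u
        rwa [eq_neg_of_add_eq_zero_left this.symm, abs_neg], rfl⟩) (show x ∈ (SE : Set E) ^ 1 by simpa))
      rwa [mul_assoc, ← mul_assoc (s _), ← cm, mul_assoc, b] at this
  obtain ⟨K1, k1⟩ := hom_pow (S := SP) e1 e2 e3 (ι.comp (.fst Z G))
  obtain ⟨K2, k2⟩ := bd e1 e2 e3 (SP.finite_toSet.image fun p => s p.2)
  obtain ⟨K3, k3⟩ := hom_pow (S := SZ) p1 p2 p3 (.inl Z G)
  obtain ⟨K4, k4⟩ := hom_pow (S := SE) p1 p2 p3 ((MonoidHom.inr Z G).comp π)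
  have t : ∀ p q : Z × G, (ι p.1 * s p.2)⁻¹ * (ι q.1 * s q.2) = ι (p⁻¹ * q).1 * ((s p.2)⁻¹ * s q.2) := fun p q => by
    rw [Prod.fst_mul, Prod.fst_inv, mul_inv_rev, ← map_inv, mul_assoc, ← mul_assoc (ι _), ← map_mul, ← mul_assoc, ← cm, mul_assoc]
  refine h ⟨fun p => ι p.1 * s p.2, K1 + (K + 1) * K2 + K3 * C * (K + 2) + K4, fun p => by simp [pi, s1], fun p q m a => ?_, fun p q m a => ?_, fun e => ?_⟩
  · obtain ⟨e, b, c⟩ := rel_pow (fun x y => π y = x.2) π.map_one (fun _ _ _ _ i j => by simp [i, j]) (fun x b => ⟨_, k2 _ ⟨x, b, rfl⟩, s1 _⟩) a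
    have := mul_mem' (k1 m _ a) (s3 _ e b p.2)
    rw [c, Prod.snd_mul, Prod.snd_inv, mul_inv_cancel_left] at this
    exact t p q ▸ Set.pow_subset_pow_right e2 (by simp only [add_mul, mul_add, mul_assoc]; omega) this
  · have b := s3 m _ a p.2
    have c := k4 m _ a
    simp only [map_mul, map_inv, pi, s1, one_mul, mul_inv_cancel_left, MonoidHom.comp_apply] at b c
    have := mul_mem' (k3 _ _ (hC (p⁻¹ * q).1 (m + (K + 1) * m) (by rw [t] at a; simpa only [mul_inv_cancel_right] using mul_mem' a (inv_mem' e3 b)))) c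
    refine Set.pow_subset_pow_right p2 (m := K3 * (C * (m + (K + 1) * m) + C) + K4 * m) (by ring_nf; omega) ?_
    convert this using 1
    ext <;> simp
  · obtain ⟨z, b⟩ : e * (s (π e))⁻¹ ∈ ι.range := hk.ge (by simp [s1])
    exact ⟨(z, π e), by simpa [b] using Set.one_mem_pow e2⟩

end Pool.Agent.S01748
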