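import Pool.Statements.S01752
import Pool.Agent.H.MP_675cf2_al.B

set_option autoImplicit false
open Pool Pool.MP_675cf2_al

namespace Pool.Agent.S01752

theorem result :
    ¬ (∀ n : ℕ, 2 ≤ n →
  ∀ μ : (Fin n × Fin n × Fin n → ℂ) → (Fin n → ℂ) → (Fin n → ℂ) → (Fin n → ℂ),
    (∀ c u v, μ c u v = fun k => ∑ i : Fin n, ∑ j : Fin n, u i * v j * c (i, j, k)) →
  ∀ IsClosedZ : Set (Fin n × Fin n × Fin n → ℂ) → Prop,
    (∀ Z, IsClosedZ Z ↔ ∃ S : Set (MvPolynomial (Fin n × Fin n × Fin n) ℂ),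
        Z = {c | ∀ p ∈ S, MvPolynomial.eval c p = 0}) →
  ∀ IsIrrZ : Set (Fin n × Fin n × Fin n → ℂ) → Prop,
    (∀ Z, IsIrrZ Z ↔ (IsClosedZ Z ∧ Z.Nonempty ∧
        ∀ A B : Set (Fin n × Fin n × Fin n → ℂ), IsClosedZ A → IsClosedZ B →
          Z ⊆ A ∪ B → (Z ⊆ A ∨ Z ⊆ B))) →
  ∀ Z : Set (Fin n × Fin n × Fin n → ℂ), IsIrrZ Z →
    (∀ c ∈ Z, ∀ u v w : Fin n → ℂ,
        μ c u (μ c v w) = μ c (μ c u v) w + μ c v (μ c u w)) →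
    (∀ Z' : Set (Fin n × Fin n × Fin n → ℂ), IsIrrZ Z' → Z ⊆ Z' →
        (∀ c ∈ Z', ∀ u v w : Fin n → ℂ,
          μ c u (μ c v w) = μ c (μ c u v) w + μ c v (μ c u w)) → Z' = Z) →
    ∃ c ∈ Z, ¬ ∃ V : ℕ → Submodule ℂ (Fin n → ℂ),
        Monotone V ∧ V 0 = ⊥ ∧ (∃ m : ℕ, V m = ⊤) ∧
        ∀ (k : ℕ) (u v : Fin n → ℂ), v ∈ V (k + 1) →
          (μ c u v ∈ V k ∧ μ c v u ∈ V k)) := by
  intro h
  obtain ⟨Z, h1, h2, h3, h4⟩ := H.MP_675cf2_al.final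
  obtain ⟨c, hc, h5⟩ := h 6 (by norm_num) H.MP_675cf2_al.mu (fun _ _ _ => rfl) H.MP_675cf2_al.Cl
    (fun _ => Iff.rfl) H.MP_675cf2_al.Irr (fun _ => Iff.rfl) Z h1 h2 h3
  let W : Submodule ℂ (Fin 6 → ℂ) := LinearMap.ker (H.MP_675cf2_al.mb c) ⊓
    LinearMap.ker (H.MP_675cf2_al.mb c).flip
  have hW : ∀ x y, H.MP_675cf2_al.mu c x y ∈ W := fun x y =>
    ⟨LinearMap.ext fun z => (h4 hc x y z).2, LinearMap.ext fun z => (h4 hc x y z).1⟩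
  refine h5 ⟨fun k => k.casesOn ⊥ fun k => k.casesOn W fun _ => ⊤,
    monotone_nat_of_le_succ fun k => ?_, rfl, ⟨2, rfl⟩, fun k u v hv => ?_⟩
  · rcases k with _ | _ | k
    exacts [bot_le, le_top, le_top]
  · rcases k with _ | _ | k
    · exact ⟨DFunLike.congr_fun hv.2 u, DFunLike.congr_fun hv.1 u⟩
    · exact ⟨hW _ _, hW _ _⟩
    · exact ⟨trivial, trivial⟩

end Pool.Agent.S01752
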