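import Pool.Statements.S01761
-- import your own Pool.Agent.* helpers here

set_option autoImplicit false
open Pool Pool.MP_67f4ab_al

namespace Pool.Agent.S01761

noncomputable section
variable {G : Type} [Group G]

structure HQ (φ : G → ℝ) (D : ℝ) : Prop where
  def1 : ∀ g h, |φ (g * h) - φ g - φ h| ≤ D
  hom : ∀ (g : G) (n : ℕ), φ (g ^ n) = (n : ℝ) * φ g

theorem arch (x K : ℝ) (h : ∀ n : ℕ, 0 ≤ n * x + K) : 0 ≤ x := by
  by_contra hx
  push Not at hx
  obtain ⟨n, hn⟩ := exists_nat_gt (K / -x)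
  rw [div_lt_iff₀ (neg_pos.mpr hx)] at hn
  linarith [h n]

variable {φ : G → ℝ} {D : ℝ}

theorem HQ.nonneg (H : HQ φ D) : 0 ≤ D := (abs_nonneg _).trans (H.def1 1 1)

theorem HQ.one (H : HQ φ D) : φ 1 = 0 := by simpa using H.hom 1 0

theorem HQ.inv (H : HQ φ D) (g : G) : φ g⁻¹ = -φ g := by
  have key : ∀ n : ℕ, |(n : ℝ) * (φ g + φ g⁻¹)| ≤ D := by
    intro n
    have := H.def1 (g ^ n) (g⁻¹ ^ n)
    rw [inv_pow, mul_inv_cancel, H.one, ← inv_pow, H.hom, H.hom, abs_le] at this
    rw [abs_le]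
    constructor <;> linarith [this.1, this.2]
  have h1 := arch (φ g + φ g⁻¹) D fun n => by linarith [(abs_le.mp (key n)).1]
  have h2 := arch (-(φ g + φ g⁻¹)) D fun n => by linarith [(abs_le.mp (key n)).2]
  linarith

theorem HQ.conj (H : HQ φ D) (g h : G) : φ (h * g * h⁻¹) = φ g := by
  have key : ∀ n : ℕ, |(n : ℝ) * (φ (h * g * h⁻¹) - φ g)| ≤ 2 * D := by
    intro n
    have h1 := H.def1 (h * g ^ n) h⁻¹
    have h2 := H.def1 h (g ^ n)
    rw [← conj_pow, H.hom, H.inv, abs_le] at h1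
    rw [H.hom, abs_le] at h2
    rw [abs_le]
    constructor <;> linarith [h1.1, h1.2, h2.1, h2.2]
  have h1 := arch (φ (h * g * h⁻¹) - φ g) (2 * D) fun n => by linarith [(abs_le.mp (key n)).1]
  have h2 := arch (-(φ (h * g * h⁻¹) - φ g)) (2 * D) fun n => by
    linarith [(abs_le.mp (key n)).2]
  linarith

theorem HQ.comm (H : HQ φ D) (g h : G) : φ (g * h) = φ (h * g) := by
  rw [← H.conj (h * g) g]
  congr 1
  group

/-- the edges `E` can be arranged in loops whose products have total value `r` -/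
def Arr (φ : G → ℝ) (E : Multiset G) (r : ℝ) : Prop :=
  ∃ L : Multiset (List G), (L.bind fun w => (w : Multiset G)) = E ∧
    (L.map fun w => φ w.prod).sum = r

theorem Arr.ins {E : Multiset G} {r : ℝ} (h : Arr φ E r) (w : List G) :
    Arr φ (w + E) (φ w.prod + r) := by
  obtain ⟨L, rfl, rfl⟩ := h
  exact ⟨w ::ₘ L, by simp, by simp⟩

theorem Arr.nil : Arr φ 0 0 := ⟨0, by simp, by simp⟩

theorem Arr.zero (H : HQ φ D) {r : ℝ} (h : Arr φ 0 r) : r = 0 := by
  obtain ⟨L, h, rfl⟩ := h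
  apply Multiset.sum_eq_zero
  intro x hx
  obtain ⟨w, hw, rfl⟩ := Multiset.mem_map.mp hx
  have : w = [] := by
    apply List.eq_nil_iff_forall_not_mem.mpr
    intro a ha
    have : a ∈ L.bind fun w => (w : Multiset G) := Multiset.mem_bind.mpr ⟨w, hw, ha⟩
    simp [h] at this
  rw [this, List.prod_nil, H.one]

theorem Arr.ex (H : HQ φ D) {E : Multiset G} {r : ℝ} {g : G} (h : Arr φ (g ::ₘ E) r) :
    ∃ (w : List G) (E' : Multiset G) (r' : ℝ),
      Arr φ E' r' ∧ E = w + E' ∧ r = φ (g * w.prod) + r' := by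
  obtain ⟨L, h, rfl⟩ := h
  have : g ∈ L.bind fun w => (w : Multiset G) := by rw [h]; simp
  obtain ⟨w, hw, hg⟩ := Multiset.mem_bind.mp this
  obtain ⟨L', rfl⟩ := Multiset.exists_cons_of_mem hw
  obtain ⟨u, v, rfl⟩ := List.append_of_mem (Multiset.mem_coe.mp hg)
  refine ⟨v ++ u, _, _, ⟨L', rfl, rfl⟩, ?_, ?_⟩
  · rw [Multiset.cons_bind, ← Multiset.coe_add, ← Multiset.cons_coe, Multiset.add_cons,
      Multiset.cons_add] at h
    rw [← (Multiset.cons_inj_right _).mp h, ← Multiset.coe_add, add_comm (v : Multiset G)]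
  · rw [Multiset.map_cons, Multiset.sum_cons, List.prod_append, List.prod_cons, List.prod_append,
      H.comm, mul_assoc]

theorem Arr.split (H : HQ φ D) {E : Multiset G} {r : ℝ} {y z : G}
    (h : Arr φ ((y * z) ::ₘ E) r) : Arr φ (y ::ₘ z ::ₘ E) r := by
  obtain ⟨w, E', r', h1, rfl, rfl⟩ := h.ex H
  have := h1.ins (y :: z :: w)
  rw [List.prod_cons, List.prod_cons, ← mul_assoc, ← Multiset.cons_coe, ← Multiset.cons_coe,
    Multiset.cons_add, Multiset.cons_add] at this
  exact this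

theorem Arr.drop (H : HQ φ D) {E : Multiset G} {r : ℝ} {g : G} (h : Arr φ (g ::ₘ E) r) :
    ∃ r', Arr φ E r' ∧ φ g + r' - r ≤ D := by
  obtain ⟨w, E', r', h1, rfl, rfl⟩ := h.ex H
  exact ⟨_, h1.ins w, by linarith [(abs_le.mp (H.def1 g w.prod)).1]⟩

theorem Arr.drop1 (H : HQ φ D) {E : Multiset G} {r : ℝ} (h : Arr φ (1 ::ₘ E) r) :
    Arr φ E r := by
  obtain ⟨w, E', r', h1, rfl, rfl⟩ := h.ex H
  rw [one_mul]
  exact h1.ins w

theorem Arr.glue (H : HQ φ D) {E : Multiset G} {r : ℝ} {g : G}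
    (h : Arr φ (g ::ₘ g⁻¹ ::ₘ E) r) : ∃ r', Arr φ E r' ∧ r' - r ≤ D := by
  obtain ⟨w, E', r', h1, h2, rfl⟩ := h.ex H
  have : g⁻¹ ∈ (w : Multiset G) + E' := by rw [← h2]; simp
  rcases Multiset.mem_add.mp this with h3 | h3
  · obtain ⟨u, v, rfl⟩ := List.append_of_mem (Multiset.mem_coe.mp h3)
    rw [← Multiset.coe_add, ← Multiset.cons_coe, Multiset.add_cons, Multiset.cons_add] at h2
    rw [(Multiset.cons_inj_right _).mp h2, add_assoc]
    refine ⟨_, (h1.ins v).ins u, ?_⟩
    have h4 := (abs_le.mp (H.def1 (g * u.prod * g⁻¹) v.prod)).1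
    rw [H.conj] at h4
    rw [List.prod_append, List.prod_cons, ← mul_assoc, ← mul_assoc]
    linarith
  · obtain ⟨E'', rfl⟩ := Multiset.exists_cons_of_mem h3
    obtain ⟨v, E3, r3, h4, rfl, rfl⟩ := h1.ex H
    rw [Multiset.add_cons] at h2
    rw [(Multiset.cons_inj_right _).mp h2, ← add_assoc, Multiset.coe_add]
    refine ⟨_, h4.ins (w ++ v), ?_⟩
    have h5 := (abs_le.mp (H.def1 (w.prod * g) (g⁻¹ * v.prod))).2
    rw [mul_assoc, mul_inv_cancel_left, H.comm _ g] at h5
    rw [List.prod_append]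
    linarith

def tri (t : G × G) : Multiset G := t.1 ::ₘ t.2 ::ₘ {(t.1 * t.2)⁻¹}

theorem tri_mem {t : G × G} {g : G} (h : g⁻¹ ∈ tri t) :
    ∃ y z, tri t = g⁻¹ ::ₘ y ::ₘ {z} ∧ g = y * z := by
  obtain ⟨a, b⟩ := t
  simp only [tri, Multiset.mem_cons, Multiset.mem_singleton] at h
  rcases h with h | h | h
  · exact ⟨b, (a * b)⁻¹, by rw [h]; rfl, by rw [← inv_inv g, h]; group⟩
  · refine ⟨(a * b)⁻¹, a, ?_, by rw [← inv_inv g, h]; group⟩
    rw [h, tri]
    simp only [← Multiset.singleton_add]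
    abel
  · refine ⟨a, b, ?_, inv_injective h⟩
    rw [h, tri]
    simp only [← Multiset.singleton_add]
    abel

def Bal (A : Multiset G) : Prop := A.map (·⁻¹) = A

theorem Bal.one {A : Multiset G} (h : Bal (1 ::ₘ A)) : Bal A := by
  rw [Bal, Multiset.map_cons, inv_one] at h
  exact (Multiset.cons_inj_right _).mp h

theorem Bal.pair {A : Multiset G} {g : G} (h : Bal (g ::ₘ g⁻¹ ::ₘ A)) : Bal A := by
  rw [Bal, Multiset.map_cons, Multiset.map_cons, inv_inv, Multiset.cons_swap] at h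
  exact (Multiset.cons_inj_right _).mp ((Multiset.cons_inj_right _).mp h)

theorem Bal.mem [IsMulTorsionFree G] {A : Multiset G} {g : G} (h : Bal (g ::ₘ A)) (hg : g ≠ 1) :
    g⁻¹ ∈ A := by
  have : g⁻¹ ∈ g ::ₘ A := by rw [← h]; simp
  exact (Multiset.mem_cons.mp this).resolve_left fun h => hg (inv_eq_self.mp h)

theorem Bal.sum (H : HQ φ D) {A : Multiset G} (h : Bal A) : (A.map φ).sum = 0 := by
  have h1 : (A.map φ).sum = -(A.map φ).sum := by
    conv_lhs => rw [← h]
    rw [Multiset.map_map, ← Multiset.sum_map_neg]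
    congr 2
    funext g
    exact H.inv g
  linarith

theorem main [IsMulTorsionFree G] (H : HQ φ D) (n : ℕ) :
    ∀ (E : Multiset G) (T : Multiset (G × G)) (R : Multiset G) (r : ℝ),
      E.card + 3 * T.card + 2 * R.card < n → Arr φ E r → Bal (E + T.bind tri + R) →
      (E.map φ).sum + ((T.bind tri).map φ).sum - r ≤ D / 2 * (E.card + T.card + R.card) := by
  have hD := H.nonneg
  induction n with
  | zero => intro E T R r h; omega
  | succ n ih =>
    intro E T R r hn hA hB
    rcases Multiset.empty_or_exists_mem E with rfl | ⟨g, hg⟩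
    · obtain rfl := hA.zero H
      rcases Multiset.empty_or_exists_mem R with rfl | ⟨g, hg⟩
      · rw [zero_add, add_zero] at hB
        rw [hB.sum H]
        simp only [Multiset.map_zero, Multiset.sum_zero, add_zero, sub_self]
        positivity
      · obtain ⟨R, rfl⟩ := Multiset.exists_cons_of_mem hg
        have := ih {g} T R (φ g) (by simp at hn ⊢; omega)
          (by simpa using (Arr.nil (φ := φ)).ins [g])
          (by convert hB using 1; simp only [← Multiset.singleton_add]; abel)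
        simp at this ⊢
        linarith
    obtain ⟨E, rfl⟩ := Multiset.exists_cons_of_mem hg
    rw [Multiset.cons_add, Multiset.cons_add] at hB
    by_cases hg1 : g = 1
    · subst hg1
      have := ih E T R r (by simp at hn ⊢; omega) (hA.drop1 H) hB.one
      simp only [Multiset.map_cons, Multiset.sum_cons, Multiset.card_cons, H.one, Nat.cast_add,
        Nat.cast_one]
      linarith
    have hm := hB.mem hg1
    rcases Multiset.mem_add.mp hm with hm | hm
    · rcases Multiset.mem_add.mp hm with hm | hm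
      · obtain ⟨E, rfl⟩ := Multiset.exists_cons_of_mem hm
        obtain ⟨r', h1, h2⟩ := hA.glue H
        rw [Multiset.cons_add, Multiset.cons_add] at hB
        have := ih E T R r' (by simp at hn ⊢; omega) h1 hB.pair
        simp only [Multiset.map_cons, Multiset.sum_cons, Multiset.card_cons, H.inv, Nat.cast_add,
          Nat.cast_one]
        linarith
      · obtain ⟨t, ht, hm'⟩ := Multiset.mem_bind.mp hm
        obtain ⟨y, z, h1, h2⟩ := tri_mem hm'
        obtain ⟨T, rfl⟩ := Multiset.exists_cons_of_mem ht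
        rw [Multiset.cons_bind, h1] at hB ⊢
        have := ih (y ::ₘ z ::ₘ E) T R r (by simp at hn ⊢; omega) (Arr.split H (h2 ▸ hA))
          (Bal.pair (g := g) (by
            convert hB using 1; simp only [← Multiset.singleton_add]; abel))
        simp only [Multiset.map_cons, Multiset.sum_cons, Multiset.card_cons, H.inv, Nat.cast_add,
          Nat.cast_one, Multiset.map_add, Multiset.sum_add, Multiset.map_singleton,
          Multiset.sum_singleton] at this ⊢
        linarith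
    · obtain ⟨R, rfl⟩ := Multiset.exists_cons_of_mem hm
      obtain ⟨r', h1, h2⟩ := hA.drop H
      rw [Multiset.add_cons] at hB
      have := ih E T R r' (by simp at hn ⊢; omega) h1 hB.pair
      simp only [Multiset.map_cons, Multiset.sum_cons, Multiset.card_cons, Nat.cast_add,
        Nat.cast_one]
      linarith

def nu (x : G →₀ ℝ) : ℝ := ∑ g ∈ x.support, |x g|

omit [Group G] in
theorem nu_eq (x : G →₀ ℝ) (s : Finset G) (hs : x.support ⊆ s) : nu x = ∑ g ∈ s, |x g| :=
  Finset.sum_subset hs fun g _ hg => by rw [Finsupp.notMem_support_iff.mp hg, abs_zero]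

omit [Group G] in
theorem nu_add (x y : G →₀ ℝ) : nu (x + y) ≤ nu x + nu y := by
  classical
  rw [nu_eq _ _ Finsupp.support_add, nu_eq x _ Finset.subset_union_left,
    nu_eq y _ Finset.subset_union_right, ← Finset.sum_add_distrib]
  exact Finset.sum_le_sum fun g _ => abs_add_le _ _

omit [Group G] in
theorem nu_smul (c : ℝ) (x : G →₀ ℝ) : nu (c • x) = |c| * nu x := by
  rw [nu_eq _ _ Finsupp.support_smul, nu, Finset.mul_sum]
  exact Finset.sum_congr rfl fun g _ => abs_mul _ _

omit [Group G] in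
theorem nu_neg (x : G →₀ ℝ) : nu (-x) = nu x := by simpa using nu_smul (-1) x

omit [Group G] in
theorem nu_zero : nu (0 : G →₀ ℝ) = 0 := by simp [nu]

omit [Group G] in
theorem nu_single (g : G) : nu (Finsupp.single g (1 : ℝ)) = 1 := by
  rw [nu_eq _ _ Finsupp.support_single_subset]; simp

def ee (g : G) : G →₀ ℝ := Finsupp.single g 1 - Finsupp.single g⁻¹ 1

theorem ee_inv (g : G) : ee g⁻¹ = -ee g := by simp [ee]

theorem nu_ee (g : G) : nu (ee g) ≤ 2 := by
  have := nu_add (Finsupp.single g (1 : ℝ)) (-Finsupp.single g⁻¹ 1)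
  rw [nu_neg, nu_single, nu_single, ← sub_eq_add_neg] at this
  linarith [show nu (ee g) ≤ 1 + 1 from this]

def bd : (G × G →₀ ℝ) →ₗ[ℝ] (G →₀ ℝ) :=
  Finsupp.linearCombination ℝ fun t => ((tri t).map ee).sum

def tau (φ : G → ℝ) (D : ℝ) : (G × G →₀ ℝ) →ₗ[ℝ] ℝ :=
  Finsupp.linearCombination ℝ fun t => D / 2 - ((tri t).map φ).sum

def lam (T : Multiset (G × G)) : G × G →₀ ℝ := (T.map fun t => Finsupp.single t 1).sum

theorem bd_lam (T : Multiset (G × G)) : bd (lam T) = ((T.bind tri).map ee).sum := by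
  induction T using Multiset.induction_on with
  | empty => simp [lam]
  | cons t T ih =>
    rw [lam, Multiset.map_cons, Multiset.sum_cons, map_add, ← lam, ih]
    simp [bd]

theorem tau_lam (T : Multiset (G × G)) :
    tau φ D (lam T) = D / 2 * T.card - ((T.bind tri).map φ).sum := by
  induction T using Multiset.induction_on with
  | empty => simp [lam]
  | cons t T ih =>
    rw [lam, Multiset.map_cons, Multiset.sum_cons, map_add, ← lam, ih]
    simp [tau]
    ring

open Classical in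
theorem ee_sum (A : Multiset G) (g : G) :
    (A.map ee).sum g = (A.count g : ℝ) - (A.count g⁻¹ : ℝ) := by
  induction A using Multiset.induction_on with
  | empty => simp
  | cons a A ih =>
    rw [Multiset.map_cons, Multiset.sum_cons, Finsupp.add_apply, ih, Multiset.count_cons,
      Multiset.count_cons, ee, Finsupp.sub_apply, Finsupp.single_apply, Finsupp.single_apply]
    have e1 : a = g ↔ g = a := eq_comm
    have e2 : a⁻¹ = g ↔ g⁻¹ = a := by rw [inv_eq_iff_eq_inv, eq_comm]
    simp only [e1, e2]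
    push_cast
    ring

omit [Group G] in
open Classical in
theorem lam_apply (T : Multiset (G × G)) (t : G × G) : lam T t = T.count t := by
  induction T using Multiset.induction_on with
  | empty => simp [lam]
  | cons a T ih =>
    rw [lam, Multiset.map_cons, Multiset.sum_cons, ← lam, Finsupp.add_apply, ih,
      Multiset.count_cons, Finsupp.single_apply]
    simp only [@eq_comm _ a]
    push_cast
    ring

theorem balance (A : Multiset G) : ∃ R : Multiset G, Bal (A + R) ∧
    (R.card : ℝ) ≤ nu (A.map ee).sum := by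
  classical
  have hc : ∀ (B : Multiset G) (g : G), (B.map (·⁻¹)).count g = B.count g⁻¹ := fun B g => by
    rw [← Multiset.count_map_eq_count' _ B inv_injective g⁻¹, inv_inv]
  refine ⟨A.map (·⁻¹) - A, ?_, ?_⟩
  · refine Multiset.ext.mpr fun g => ?_
    simp only [hc, Multiset.count_add, Multiset.count_sub, inv_inv]
    omega
  · set R := A.map (·⁻¹) - A with hR
    rw [← Multiset.toFinset_sum_count_eq,
      nu_eq _ (R.toFinset ∪ (A.map ee).sum.support) Finset.subset_union_right, Nat.cast_sum]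
    refine le_trans (Finset.sum_le_sum fun g _ => ?_)
      (Finset.sum_le_sum_of_subset_of_nonneg Finset.subset_union_left fun _ _ _ => abs_nonneg _)
    rw [hR, Multiset.count_sub, hc, ee_sum, abs_sub_comm]
    rcases le_total (A.count g) (A.count g⁻¹) with h | h
    · rw [Nat.cast_sub h]
      convert le_abs_self _
    · rw [Nat.sub_eq_zero_of_le h, Nat.cast_zero]
      exact abs_nonneg _

def FF (φ : G → ℝ) (D : ℝ) (x : G →₀ ℝ) (l : G × G →₀ ℝ) : ℝ :=
  tau φ D l + D / 2 * nu (x - bd l)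

theorem FF_add (H : HQ φ D) (x y : G →₀ ℝ) (l m : G × G →₀ ℝ) :
    FF φ D (x + y) (l + m) ≤ FF φ D x l + FF φ D y m := by
  have h := nu_add (x - bd l) (y - bd m)
  have hD := H.nonneg
  rw [FF, FF, FF, map_add, map_add, show x + y - (bd l + bd m) = x - bd l + (y - bd m) by abel]
  nlinarith

theorem FF_smul (c : ℝ) (hc : 0 ≤ c) (x : G →₀ ℝ) (l : G × G →₀ ℝ) :
    FF φ D (c • x) (c • l) = c * FF φ D x l := by
  rw [FF, FF, map_smul, map_smul, ← smul_sub, nu_smul, abs_of_nonneg hc, smul_eq_mul]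
  ring

theorem FF_int [IsMulTorsionFree G] (H : HQ φ D) (T : Multiset (G × G)) :
    0 ≤ FF φ D 0 (lam T) := by
  obtain ⟨R, h1, h2⟩ := balance (T.bind tri)
  have h3 := main H _ 0 T R 0 (Nat.lt_succ_self _) Arr.nil (by rwa [zero_add])
  have hD := H.nonneg
  rw [FF, zero_sub, nu_neg, bd_lam, tau_lam]
  simp only [Multiset.map_zero, Multiset.sum_zero, Multiset.card_zero, Nat.cast_zero] at h3
  nlinarith

theorem FF_real [IsMulTorsionFree G] (H : HQ φ D) (l : G × G →₀ ℝ) (hl : 0 ≤ l) :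
    0 ≤ FF φ D 0 l := by
  classical
  have hs : ∀ (s : Finset (G × G)) (c : G × G → ℝ), (∀ t, 0 ≤ c t ∧ c t ≤ 1) →
      FF φ D 0 (∑ t ∈ s, c t • Finsupp.single t 1) ≤
        ∑ t ∈ s, |FF φ D 0 (Finsupp.single t 1)| := by
    intro s c hc
    induction s using Finset.induction_on with
    | empty => simp [FF, nu_zero]
    | insert t s ht ih =>
      rw [Finset.sum_insert ht, Finset.sum_insert ht]
      have h1 := FF_add H 0 0 (c t • Finsupp.single t 1) (∑ t ∈ s, c t • Finsupp.single t 1)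
      have h2 := FF_smul (φ := φ) (D := D) (c t) (hc t).1 0 (Finsupp.single t 1)
      rw [smul_zero] at h2
      rw [add_zero, h2] at h1
      have h3 := le_abs_self (FF φ D 0 (Finsupp.single t 1))
      have h4 := abs_nonneg (FF φ D 0 (Finsupp.single t 1))
      nlinarith [(hc t).1, (hc t).2]
  refine arch _ (∑ t ∈ l.support, |FF φ D 0 (Finsupp.single t 1)|) fun n => ?_
  have h1 := FF_int H (Finsupp.toMultiset (l.mapRange (fun r => ⌈(n : ℝ) * r⌉₊) (by simp)))
  have h2 : lam (Finsupp.toMultiset (l.mapRange (fun r => ⌈(n : ℝ) * r⌉₊) (by simp))) =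
      (n : ℝ) • l + ∑ t ∈ l.support, ((⌈(n : ℝ) * l t⌉₊ : ℝ) - n * l t) • Finsupp.single t 1 := by
    ext t
    rw [lam_apply, Finsupp.count_toMultiset, Finsupp.mapRange_apply, Finsupp.add_apply,
      Finsupp.finsetSum_apply, Finset.sum_eq_single t]
    · simp
    · intro b _ hb
      simp [hb]
    · intro ht
      simp [Finsupp.notMem_support_iff.mp ht]
  have h3 := hs l.support (fun t => (⌈(n : ℝ) * l t⌉₊ : ℝ) - n * l t) fun t =>
    ⟨sub_nonneg.mpr (Nat.le_ceil _), by
      have := Nat.ceil_lt_add_one (mul_nonneg (Nat.cast_nonneg (α := ℝ) n) (hl t))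
      linarith⟩
  have h4 := FF_add H 0 0 ((n : ℝ) • l)
    (∑ t ∈ l.support, ((⌈(n : ℝ) * l t⌉₊ : ℝ) - n * l t) • Finsupp.single t 1)
  have h5 := FF_smul (φ := φ) (D := D) (n : ℝ) (Nat.cast_nonneg n) 0 l
  rw [smul_zero] at h5
  rw [add_zero, ← h2, h5] at h4
  linarith

theorem exists_b [IsMulTorsionFree G] (H : HQ φ D) :
    ∃ b : (G →₀ ℝ) →ₗ[ℝ] ℝ, ∀ x l, 0 ≤ l → b x ≤ FF φ D x l := by
  have hD := H.nonneg
  let N : (G →₀ ℝ) → ℝ := fun x => ⨅ l : {l : G × G →₀ ℝ // 0 ≤ l}, FF φ D x l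
  have : Nonempty {l : G × G →₀ ℝ // 0 ≤ l} := ⟨⟨0, le_rfl⟩⟩
  have hN : ∀ x l, 0 ≤ l → N x ≤ FF φ D x l := by
    intro x l hl
    refine ciInf_le (f := fun l : {l : G × G →₀ ℝ // 0 ≤ l} => FF φ D x l)
      ⟨-FF φ D (-x) 0, ?_⟩ ⟨l, hl⟩
    rintro _ ⟨m, rfl⟩
    have h1 := FF_add H x (-x) m 0
    rw [add_neg_cancel, add_zero] at h1
    have h2 := FF_real H m m.2
    dsimp only
    linarith
  have hom : ∀ c : ℝ, 0 < c → ∀ x, N (c • x) ≤ c * N x := by
    intro c hc x
    rw [← div_le_iff₀' hc]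
    refine le_ciInf fun l => ?_
    rw [div_le_iff₀' hc, ← FF_smul c hc.le]
    exact hN _ _ (smul_nonneg hc.le l.2)
  obtain ⟨b, -, hb⟩ := exists_extension_of_le_sublinear
    ((0 : (G →₀ ℝ) →ₗ[ℝ] ℝ).toPMap ⊥) N
    (fun c hc x => le_antisymm (hom c hc x) (by
      have := hom c⁻¹ (inv_pos.mpr hc) (c • x)
      rwa [inv_smul_smul₀ hc.ne', le_inv_mul_iff₀ hc] at this))
    (fun x y => le_ciInf_add_ciInf fun l m =>
      (hN _ _ (add_nonneg l.2 m.2)).trans (FF_add H x y l m))
    (by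
      rintro ⟨x, hx⟩
      obtain rfl : x = 0 := hx
      exact le_ciInf fun l => FF_real H l l.2)
  exact ⟨b, fun x l hl => (hb x).trans (hN x l hl)⟩

end

theorem result :
    ∀ (α : Type) (φ : FreeGroup α → ℝ) (D : ℝ),
      (∀ g h : FreeGroup α, |φ (g * h) - φ g - φ h| ≤ D) →
      (∀ D' : ℝ, (∀ g h : FreeGroup α, |φ (g * h) - φ g - φ h| ≤ D') → D ≤ D') →
      (∀ (g : FreeGroup α) (n : ℕ), φ (g ^ n) = (n : ℝ) * φ g) →
      ∃ ψ : FreeGroup α → ℝ,
        (∃ C : ℝ, ∀ g : FreeGroup α, |ψ g - φ g| ≤ C) ∧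
        ∀ g h : FreeGroup α, |ψ (g * h) - ψ g - ψ h| ≤ D / 2 := by
  intro α φ D h1 _ h2
  have H : HQ φ D := ⟨h1, h2⟩
  have hD := H.nonneg
  obtain ⟨b, hb⟩ := exists_b H
  have h3 : ∀ g, b (ee g) ≤ D := by
    intro g
    have := hb (ee g) 0 le_rfl
    rw [FF, map_zero, map_zero, sub_zero, zero_add] at this
    nlinarith [nu_ee g]
  have h4 : ∀ g h, φ g + b (ee g) + (φ h + b (ee h)) - (φ (g * h) + b (ee (g * h))) ≤ D / 2 := by
    intro g h
    have := hb (bd (Finsupp.single (g, h) 1)) (Finsupp.single (g, h) 1)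
      (Finsupp.single_nonneg.mpr zero_le_one)
    rw [FF, sub_self, nu_zero] at this
    simp only [bd, tau, tri, Finsupp.linearCombination_single, one_smul, Multiset.map_cons,
      Multiset.sum_cons, Multiset.map_singleton, Multiset.sum_singleton, ee_inv, H.inv, map_add,
      map_neg] at this
    linarith
  refine ⟨fun g => φ g + b (ee g), ⟨D, fun g => ?_⟩, fun g h => ?_⟩
  · have := h3 g⁻¹
    rw [ee_inv, map_neg] at this
    rw [abs_le]
    constructor <;> linarith [h3 g]
  · have := h4 h⁻¹ g⁻¹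
    rw [← mul_inv_rev, ee_inv, ee_inv, ee_inv, map_neg, map_neg, map_neg, H.inv, H.inv,
      H.inv] at this
    rw [abs_le]
    constructor <;> linarith [h4 g h]

end Pool.Agent.S01761
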