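import Pool.Statements.S01782

set_option autoImplicit false
open Pool Pool.MP_698b85_al

namespace Pool.Agent.S01782

open Polynomial

/-- The affine group of a commutative ring. -/
@[ext] structure Aff (A : Type) [CommRing A] where
  w : A
  q : Aˣ

section
variable {A : Type} [CommRing A]

instance : Mul (Aff A) := ⟨fun x y => ⟨x.w * y.q + y.w, x.q * y.q⟩⟩
instance : One (Aff A) := ⟨⟨0, 1⟩⟩
instance : Inv (Aff A) := ⟨fun x => ⟨-(x.w * (x.q⁻¹ : Aˣ)), x.q⁻¹⟩⟩

@[simp] lemma mul_w (x y : Aff A) : (x * y).w = x.w * y.q + y.w := rfl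
@[simp] lemma mul_q (x y : Aff A) : (x * y).q = x.q * y.q := rfl
@[simp] lemma one_w : (1 : Aff A).w = 0 := rfl
@[simp] lemma one_q : (1 : Aff A).q = 1 := rfl
@[simp] lemma inv_w (x : Aff A) : (x⁻¹).w = -(x.w * (x.q⁻¹ : Aˣ)) := rfl
@[simp] lemma inv_q (x : Aff A) : (x⁻¹).q = x.q⁻¹ := rfl

instance : Group (Aff A) := Group.ofLeftAxioms
  (fun x y z => by
    ext
    · simp only [mul_w, mul_q, Units.val_mul]; ring
    · simp only [mul_q, mul_assoc])
  (fun x => by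
    ext
    · simp
    · simp)
  (fun x => by
    ext
    · simp only [mul_w, inv_w, one_w]
      rw [neg_mul, mul_assoc, Units.inv_mul, mul_one, neg_add_cancel]
    · simp)

lemma comm_eq (z y : Aff A) :
    z⁻¹ * y⁻¹ * z * y = ⟨z.w * (y.q - 1) - y.w * (z.q - 1), 1⟩ := by
  ext
  · simp only [mul_w, inv_w, inv_q]
    have h1 : ((z.q⁻¹ : Aˣ) : A) * z.q = 1 := Units.inv_mul _
    have h2 : ((y.q⁻¹ : Aˣ) : A) * y.q = 1 := Units.inv_mul _
    linear_combination (-(z.w) * ((y.q⁻¹ : Aˣ) : A) * y.q) * h1 + (-(z.w) - y.w * z.q) * h2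
  · simp only [mul_q, inv_q]
    congr 1
    rw [mul_comm (z.q⁻¹) (y.q⁻¹), mul_assoc (y.q⁻¹), inv_mul_cancel, mul_one, inv_mul_cancel]

lemma eng4 (x y : Aff A) :
    (fun z => z⁻¹ * y⁻¹ * z * y)^[4] x
      = ⟨(x.w * (y.q - 1) - y.w * (x.q - 1)) * (y.q - 1) ^ 3, 1⟩ := by
  simp only [Function.iterate_succ, Function.iterate_zero, Function.comp, id, comm_eq]
  ext
  · simp only [Units.val_one]; ring
  · rfl

/-- `x ≡ 1 + i t + j s` modulo the square of the ideal `(t, s)`. -/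
def LL (t s : A) (i j : ℤ) (x : A) : Prop :=
  ∃ a b c : A, x = 1 + i * t + j * s + a * t ^ 2 + b * (t * s) + c * s ^ 2

lemma LL_one (t s : A) : LL t s 0 0 1 := ⟨0, 0, 0, by simp⟩

lemma LL_mul {t s : A} {i j i' j' : ℤ} {x y : A} (hx : LL t s i j x) (hy : LL t s i' j' y) :
    LL t s (i + i') (j + j') (x * y) := by
  obtain ⟨a, b, c, rfl⟩ := hx
  obtain ⟨a', b', c', hy⟩ := hy
  refine ⟨a * y + a' * (1 + i * t + j * s) + i * i', b * y + b' * (1 + i * t + j * s) + i * j' + j * i',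
    c * y + c' * (1 + i * t + j * s) + j * j', ?_⟩
  push_cast
  linear_combination (1 + i * t + j * s) * hy

lemma LL_inv {t s : A} {i j : ℤ} {x y : A} (hx : LL t s i j x) (h : y * x = 1) :
    LL t s (-i) (-j) y := by
  obtain ⟨a, b, c, hx⟩ := hx
  refine ⟨-a * y + i * i * y + a * y * (i * t + j * s), -b * y + 2 * i * j * y + b * y * (i * t + j * s),
    -c * y + j * j * y + c * y * (i * t + j * s), ?_⟩
  push_cast
  rw [hx] at h
  linear_combination (1 - i * t - j * s) * h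

lemma key {t s : A} (ht : t ^ 3 = 0) (hs : s ^ 3 = 0) (h2 : (2 : A) = 0) {i j i' j' : ℤ} {x y : A}
    (hx : LL t s i j x) (hy : LL t s i' j' y) (hp : (2 : ℤ) ∣ i + j - (i' + j')) :
    (x - 1) * (y - 1) ^ 3 = 0 := by
  obtain ⟨a, b, c, rfl⟩ := hx
  obtain ⟨a', b', c', rfl⟩ := hy
  have t4 : t ^ 4 = 0 := by rw [pow_succ, ht, zero_mul]
  have s4 : s ^ 4 = 0 := by rw [pow_succ, hs, zero_mul]
  have hd : (2 : ℤ) ∣ i' * j' * (i * j' + j * i') := by
    obtain ⟨d, hd⟩ := hp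
    have hj : j = 2 * d + i' + j' - i := by linarith
    rcases Int.even_or_odd' i' with ⟨u, hu | hu⟩
    · exact ⟨u * j' * (i * j' + j * i'), by rw [hu]; ring⟩
    rcases Int.even_or_odd' j' with ⟨v, hv | hv⟩
    · exact ⟨i' * v * (i * j' + j * i'), by rw [hv]; ring⟩
    refine Dvd.dvd.mul_left ⟨i * v + j * u + d + u + v + 1, ?_⟩ _
    rw [hj, hu, hv]; ring
  obtain ⟨d, hd⟩ := hd
  have hd' : ((i' : A) * j' * (i * j' + j * i')) = 0 := by
    have := congrArg (Int.cast : ℤ → A) hd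
    push_cast at this
    rw [this, h2, zero_mul]
  have e1 : (1 + (i' : A) * t + j' * s + a' * t ^ 2 + b' * (t * s) + c' * s ^ 2 - 1) ^ 2
      = i' ^ 2 * t ^ 2 + 2 * i' * j' * (t * s) + j' ^ 2 * s ^ 2
        + (2 * i' * b' + 2 * j' * a') * (t ^ 2 * s) + (2 * i' * c' + 2 * j' * b') * (t * s ^ 2)
        + (2 * a' * c' + b' ^ 2) * (t ^ 2 * s ^ 2) := by
    ring_nf
    simp only [ht, hs, t4, s4, mul_zero, zero_mul, add_zero, zero_add]
  have e2 : (1 + (i' : A) * t + j' * s + a' * t ^ 2 + b' * (t * s) + c' * s ^ 2 - 1) ^ 3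
      = 3 * i' ^ 2 * j' * (t ^ 2 * s) + 3 * i' * j' ^ 2 * (t * s ^ 2)
        + (3 * i' ^ 2 * c' + 6 * i' * j' * b' + 3 * j' ^ 2 * a') * (t ^ 2 * s ^ 2) := by
    rw [pow_succ, e1]
    ring_nf
    simp only [ht, hs, t4, s4, mul_zero, zero_mul, add_zero, zero_add]
  have : (1 + (i : A) * t + j * s + a * t ^ 2 + b * (t * s) + c * s ^ 2 - 1) *
      (1 + (i' : A) * t + j' * s + a' * t ^ 2 + b' * (t * s) + c' * s ^ 2 - 1) ^ 3
      = 3 * ((i' : A) * j' * (i * j' + j * i')) * (t ^ 2 * s ^ 2) := by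
    rw [e2]
    ring_nf
    simp only [ht, hs, t4, s4, mul_zero, zero_mul, add_zero, zero_add]
  rw [this, hd', mul_zero, zero_mul]

/-- The subgroup of sequences of affine maps whose multipliers have a common parity. -/
def GG (t s : A) : Subgroup (ℕ → Aff A) where
  carrier := {g | ∃ e : ℤ, ∀ n, ∃ i j : ℤ, (2 : ℤ) ∣ i + j - e ∧ LL t s i j ((g n).q : A)}
  one_mem' := ⟨0, fun _ => ⟨0, 0, by simp, LL_one t s⟩⟩
  mul_mem' := by
    rintro g h ⟨e, he⟩ ⟨f, hf⟩
    refine ⟨e + f, fun n => ?_⟩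
    obtain ⟨i, j, h1, h2⟩ := he n
    obtain ⟨i', j', h1', h2'⟩ := hf n
    refine ⟨i + i', j + j', by omega, ?_⟩
    simpa using LL_mul h2 h2'
  inv_mem' := by
    rintro g ⟨e, he⟩
    refine ⟨-e, fun n => ?_⟩
    obtain ⟨i, j, h1, h2⟩ := he n
    exact ⟨-i, -j, by omega, LL_inv h2 (Units.inv_mul _)⟩

lemma iter_coord (t s : A) (x y : GG t s) (n : ℕ) (k : ℕ) :
    (((fun z => z⁻¹ * y⁻¹ * z * y)^[k] x : GG t s) : ℕ → Aff A) n
      = (fun z => z⁻¹ * ((y : ℕ → Aff A) n)⁻¹ * z * ((y : ℕ → Aff A) n))^[k] ((x : ℕ → Aff A) n) := by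
  induction k with
  | zero => rfl
  | succ k ih =>
    rw [Function.iterate_succ_apply', Function.iterate_succ_apply', ← ih]
    rfl

lemma same {t s : A} (ht : t ^ 3 = 0) (hs : s ^ 3 = 0) (h2 : (2 : A) = 0) (x y : GG t s)
    (h : (2 : ℤ) ∣ x.2.choose - y.2.choose) : (fun z => z⁻¹ * y⁻¹ * z * y)^[4] x = 1 := by
  apply Subtype.ext
  funext n
  rw [iter_coord, eng4]
  obtain ⟨i, j, h1, hx⟩ := x.2.choose_spec n
  obtain ⟨i', j', h1', hy⟩ := y.2.choose_spec n
  have k1 := key ht hs h2 hx hy (by omega)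
  have k2 := key ht hs h2 hy hy (by omega)
  ext
  · show _ = (0 : A)
    linear_combination ((x : ℕ → Aff A) n).w * k2 - ((y : ℕ → Aff A) n).w * k1
  · rfl

lemma main {t s : A} (ht : t ^ 3 = 0) (hs : s ^ 3 = 0) (h2 : (2 : A) = 0) (hn : t ^ 2 * s ^ 2 ≠ 0) :
    ¬ (∀ k : ℕ, 1 ≤ k → ∀ (G : Type) [Group G],
      (∀ S : Set G, S.Infinite →
        ∃ x ∈ S, ∃ y ∈ S, x ≠ y ∧
          (fun z => z⁻¹ * y⁻¹ * z * y)^[k] x = 1 ∧
          (fun z => z⁻¹ * x⁻¹ * z * x)^[k] y = 1) →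
      (∀ S : Set G, S.Infinite →
        ∃ x ∈ S, ∃ y ∈ S, x ≠ y ∧
          ∀ a ∈ Subgroup.closure ({x, y} : Set G),
            ∀ b ∈ Subgroup.closure ({x, y} : Set G),
              (fun z => z⁻¹ * b⁻¹ * z * b)^[k] a = 1)) := by
  intro H
  have h01 : (1 : A) ≠ 0 := fun h => hn (by rw [← mul_one (t ^ 2 * s ^ 2), h, mul_zero])
  let T : Aˣ := ⟨1 + t, 1 - t + t ^ 2, by linear_combination ht, by linear_combination ht⟩
  let U : Aˣ := ⟨1 + s, 1 - s + s ^ 2, by linear_combination hs, by linear_combination hs⟩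
  let X : Aff A := ⟨1, T⟩
  let Y : Aff A := ⟨0, U⟩
  let σ : ℕ → GG t s := fun i => ⟨fun n => if n = i then X else Y, 1, fun n => by
    by_cases h : n = i
    · exact ⟨1, 0, by simp, 0, 0, 0, by simp [h, X, T]⟩
    · exact ⟨0, 1, by simp, 0, 0, 0, by simp [h, Y, U]⟩⟩
  have hσ : Function.Injective σ := by
    intro i j hij
    by_contra h
    have := congrArg (fun g : GG t s => ((g : ℕ → Aff A) i).w) hij
    simp [σ, h, X, Y] at this
    exact h01 this
  obtain ⟨x, ⟨i, rfl⟩, y, ⟨j, rfl⟩, hxy, hE⟩ := H 4 (by norm_num) (GG t s) (by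
    intro S hS
    obtain ⟨x, hx, y, hy, hxy, h⟩ := hS.exists_ne_map_eq_of_mapsTo
      (f := fun g : GG t s => ((g.2.choose : ℤ) : ZMod 2)) (t := Set.univ) (Set.mapsTo_univ _ _)
      Set.finite_univ
    have h' := (ZMod.intCast_eq_intCast_iff_dvd_sub _ _ 2).1 h
    push_cast at h'
    exact ⟨x, hx, y, hy, hxy, same ht hs h2 x y (by omega), same ht hs h2 y x (by omega)⟩)
    (Set.range σ) (Set.infinite_range_of_injective hσ)
  have hij : i ≠ j := fun h => hxy (by rw [h])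
  have h1 : σ i ∈ Subgroup.closure ({σ i, σ j} : Set (GG t s)) := Subgroup.subset_closure (by simp)
  have h3 : σ j ∈ Subgroup.closure ({σ i, σ j} : Set (GG t s)) := Subgroup.subset_closure (by simp)
  have h4 := congrArg (fun g : GG t s => ((g : ℕ → Aff A) i).w)
    (hE _ h1 _ (Subgroup.mul_mem _ h1 h3))
  simp only [iter_coord, eng4] at h4
  simp [σ, hij, X, Y, T, U] at h4
  apply hn
  have t4 : t ^ 4 = 0 := by rw [pow_succ, ht, zero_mul]
  have s4 : s ^ 4 = 0 := by rw [pow_succ, hs, zero_mul]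
  have : ((1 + t) * (1 + s) - 1 - (1 + s) * t) * ((1 + t) * (1 + s) - 1) ^ 3
      = 3 * (t ^ 2 * s ^ 2) := by
    ring_nf
    simp only [ht, hs, t4, s4, mul_zero, zero_mul, add_zero, zero_add]
  rw [this] at h4
  linear_combination h4 - (t ^ 2 * s ^ 2) * h2

end

/-- The negation of the preceding statement: For every k ≥ 1 and group G: if every infinite subset has distinct x,y with [x,_k y]=[y,_k x]=1, then every infinite subset has distinct x,y generating a k-Engel subgroup. -/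
theorem result :
    ¬ (∀ k : ℕ, 1 ≤ k → ∀ (G : Type) [Group G],
      (∀ S : Set G, S.Infinite →
        ∃ x ∈ S, ∃ y ∈ S, x ≠ y ∧
          (fun z => z⁻¹ * y⁻¹ * z * y)^[k] x = 1 ∧
          (fun z => z⁻¹ * x⁻¹ * z * x)^[k] y = 1) →
      (∀ S : Set G, S.Infinite →
        ∃ x ∈ S, ∃ y ∈ S, x ≠ y ∧
          ∀ a ∈ Subgroup.closure ({x, y} : Set G),
            ∀ b ∈ Subgroup.closure ({x, y} : Set G),
              (fun z => z⁻¹ * b⁻¹ * z * b)^[k] a = 1)) := by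
  let f : (ZMod 2)[X] := X ^ 3
  let B := AdjoinRoot f
  let g : B[X] := X ^ 3
  let A := AdjoinRoot g
  have hf : f.Monic := monic_X_pow 3
  have hg : g.Monic := monic_X_pow 3
  have ht0 : (AdjoinRoot.root f) ^ 3 = 0 := by
    have := AdjoinRoot.mk_self (f := f)
    rw [← this, ← AdjoinRoot.mk_X, ← map_pow]
  have ht1 : (AdjoinRoot.root f) ^ 2 ≠ 0 := by
    rw [← AdjoinRoot.mk_X, ← map_pow]
    refine AdjoinRoot.mk_ne_zero_of_degree_lt hf (pow_ne_zero _ X_ne_zero) ?_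
    simp only [f, degree_X_pow]
    norm_num
  have : Nontrivial B := ⟨⟨_, _, ht1⟩⟩
  refine main (A := A) (t := AdjoinRoot.of g (AdjoinRoot.root f)) (s := AdjoinRoot.root g) ?_ ?_ ?_ ?_
  · rw [← map_pow, ht0, map_zero]
  · have := AdjoinRoot.mk_self (f := g)
    rw [← this, ← AdjoinRoot.mk_X, ← map_pow]
  · have h1 : (2 : ZMod 2) = 0 := rfl
    have h2 : (2 : B) = 0 := by
      have := congrArg (AdjoinRoot.of f) h1
      rwa [map_ofNat, map_zero] at this
    have := congrArg (AdjoinRoot.of g) h2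
    rwa [map_ofNat, map_zero] at this
  · rw [← map_pow, ← AdjoinRoot.mk_X (f := g), ← map_pow (AdjoinRoot.mk g), ← AdjoinRoot.mk_C, ← map_mul]
    refine AdjoinRoot.mk_ne_zero_of_degree_lt hg ?_ ?_
    · intro h
      have := congrArg (fun p => coeff p 2) h
      simp only [coeff_C_mul_X_pow, if_true, coeff_zero] at this
      exact ht1 this
    · refine lt_of_le_of_lt (degree_C_mul_X_pow_le _ _) ?_
      simp only [g, degree_X_pow]
      norm_num

end Pool.Agent.S01782
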