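import Pool.Statements.S01800
import Pool.Agent.H.MP_6afe75_al.B

set_option autoImplicit false
open Pool Pool.MP_6afe75_al

namespace Pool.Agent.S01800
open Pool.Agent.H.MP_6afe75_al

theorem result :
    ¬ (∀ (L : Type) [Lattice L] [Finite L],
      (∃ (A : Type) (f : LatticeHom L (Setoid A)), Function.Injective f ∧
        ∀ (x y : L) (a b : A), (f (x ⊔ y)).r a b ↔ ∃ c : A, (f x).r a c ∧ (f y).r c b) →
      (∃ (B : Type) (_ : Finite B) (g : LatticeHom L (Setoid B)), Function.Injective g ∧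
        ∀ (x y : L) (a b : B), (g (x ⊔ y)).r a b ↔ ∃ c : B, (g x).r a c ∧ (g y).r c b)) := by
  intro h
  obtain ⟨B, _, g, hi, hg⟩ := h LL ⟨X, LL.subtype, Subtype.val_injective, fun x y a b => by
    obtain ⟨w, -, k⟩ := comp x.2 y.2
    change (x.1 ⊔ y.1) a b ↔ _
    rw [k.eq]
    exact k a b⟩
  exact no_fin g hi hg

end Pool.Agent.S01800
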