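import Pool.Statements.S01827
import Pool.Agent.H.MP_6d5e8e_al.A

set_option autoImplicit false
open Pool Pool.MP_6d5e8e_al

namespace Pool.Agent.S01827

theorem result :
    ∃ (G : Type) (_ : Group G), Group.FG G ∧ derivedSeries G 2 = ⊥ ∧
      ∃ (V : Type) (_ : AddCommGroup V) (_ : Module (MonoidAlgebra ℤ G) V),
        Nontrivial V ∧
        (∃ v : V, Submodule.span (MonoidAlgebra ℤ G) {v} = ⊤) ∧
        Nonempty (V ≃ₗ[MonoidAlgebra ℤ G] (V × V)) := by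
  open Pool.Agent.H.MP_6d5e8e_al in
  obtain ⟨y, h1, h2, h3, h4, h5⟩ := exists_leavitt
  refine ⟨GG (Module.End ℤ (ℕ → ℤ)), inferInstance, GG_fg, metab, VV y, inferInstance, inferInstance,
    ?_, ⟨⟨vv y 0, Submodule.mem_span_singleton_self _⟩, ?_⟩, ⟨iso y h1 h2 h3 h4 h5⟩⟩
  · exact ⟨⟨⟨vv y 0, Submodule.mem_span_singleton_self _⟩, 0,
      fun h => vv_ne y (congrArg Subtype.val h)⟩⟩
  · rw [eq_top_iff]
    rintro ⟨v, hv⟩ -
    obtain ⟨z, rfl⟩ := Submodule.mem_span_singleton.1 hv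
    exact Submodule.mem_span_singleton.2 ⟨z, rfl⟩

end Pool.Agent.S01827
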