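import Pool.Statements.S01854
import Pool.Agent.H.MP_6f8178_al.Main

set_option autoImplicit false
open Pool Pool.MP_6f8178_al

namespace Pool.Agent.S01854

theorem result :
    ¬ (∀ (p : ℕ) [Fact p.Prime] (k : Type) [Field k] [CharP k p]
      (L : Type) [LieRing L] [LieAlgebra k L] (pmap : L → L),
      (∃ (A : Type) (_ : Ring A) (_ : Algebra k A) (f : L →ₗ[k] A),
          Function.Injective f ∧
          (∀ x y : L, f ⁅x, y⁆ = f x * f y - f y * f x) ∧
          ∀ x : L, f (pmap x) = (f x) ^ p) →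
      (∀ x : L, x ≠ 0 → LinearIndependent k (fun n : ℕ => pmap^[n] x)) →
      NoZeroDivisors (RingQuot (fun a b : UniversalEnvelopingAlgebra k L =>
        ∃ x : L, a = (UniversalEnvelopingAlgebra.ι k x) ^ p ∧
          b = UniversalEnvelopingAlgebra.ι k (pmap x)))) := by
  intro h
  refine Pool.Agent.H.MP_6f8178_al.main (h 3 Pool.Agent.H.MP_6f8178_al.K _ _
    ⟨_, _, _, Pool.Agent.H.MP_6f8178_al.inc _, Pool.Agent.H.MP_6f8178_al.inc_inj _, ?_,
      Pool.Agent.H.MP_6f8178_al.inc_pm _ _⟩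
    (Pool.Agent.H.MP_6f8178_al.noalg _ _ Pool.Agent.H.MP_6f8178_al.M_unit))
  intro x y
  rw [Pool.Agent.H.MP_6f8178_al.br, map_zero, mul_comm, sub_self]

end Pool.Agent.S01854
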