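import Pool.Statements.S01862
import Pool.Agent.H.MP_701827_al.A

set_option autoImplicit false
open Pool Pool.MP_701827_al

namespace Pool.Agent.S01862

open Filter Topology Pool.Agent.H.MP_701827_al

structure DR where
  K : Type
  [inst : DivisionRing K]

attribute [local instance] DR.inst

theorem tower : ∃ (T : ℕ → DR) (i : ∀ n, (T n).K →+* (T (n + 1)).K)
    (J : ∀ n, AddSubgroup (T (n + 1)).K) (p q b : ∀ n, (T (n + 1)).K),
    ∀ n, Good (i n) (J n) (p n) (q n) (b n) := by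
  choose K' inst i J p q b h using fun X : DR => step X.K
  exact ⟨fun n => Nat.rec ⟨ℚ⟩ (fun _ X => @DR.mk (K' X) (inst X)) n, fun n => i _, fun n => J _,
    fun n => p _, fun n => q _, fun n => b _, fun n => h _⟩

theorem limit : ∃ (D : Type) (_ : DivisionRing D) (S : ℕ → Subring D) (J : ℕ → AddSubgroup D)
    (p q b : ℕ → D), Monotone S ∧ (∀ x, ∃ n, x ∈ S n) ∧ (∀ n, ∀ x ∈ J n, x ∈ S (n + 1)) ∧
      (∀ n, ∀ k ∈ S n, ∀ x ∈ J n, k * x ∈ J n ∧ x * k ∈ J n) ∧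
      (∀ n, ∀ x ∈ J n, ∀ y ∈ J n, x * y ∈ J n) ∧ (∀ n, ∀ x ∈ S n, x ∈ J n → x = 0) ∧
      ∀ n, p n - 1 ∈ J n ∧ q n - 1 ∈ J n ∧ b n ∈ J n ∧ q n = b n * (p n)⁻¹ * b n := by
  obtain ⟨T, i, J, p, q, b, h⟩ := tower
  let f : ∀ m n : ℕ, m ≤ n → (T m).K →+* (T n).K := fun m n h =>
    Nat.leRecOn h (@fun k g => (i k).comp g) (RingHom.id _)
  have f0 : ∀ m, f m m le_rfl = RingHom.id _ := fun m => Nat.leRecOn_self _
  have f1 : ∀ m n (h : m ≤ n), f m (n + 1) (Nat.le_succ_of_le h) = (i n).comp (f m n h) :=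
    fun m n h => Nat.leRecOn_succ h _
  have : DirectedSystem (fun n => (T n).K) (f · · ·) :=
    ⟨fun m x => by rw [f0]; rfl, fun k l m h1 h2 x => by
      induction h2 with
      | refl => rw [f0]; rfl
      | step h2 ih => rw [f1 _ _ h2, f1 _ _ (h1.trans h2), RingHom.comp_apply, ih]; rfl⟩
  let o := DirectLimit.Ring.of (fun n => (T n).K) f
  have ho : ∀ n x, o (n + 1) (i n x) = o n x := fun n x => by
    rw [← DirectLimit.Ring.of_f (f := f) (Nat.le_succ n) x, f1 n n le_rfl, f0]; rfl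
  refine ⟨_, inferInstance, fun n => (o n).range, fun n => (J n).map (o (n + 1)),
    fun n => o _ (p n), fun n => o _ (q n), fun n => o _ (b n), monotone_nat_of_le_succ ?_,
    fun x => ?_, ?_, ?_, ?_, ?_, fun n => ⟨⟨_, (h n).hp, by simp⟩, ⟨_, (h n).hq, by simp⟩,
      ⟨_, (h n).hb, rfl⟩, ?_⟩⟩
  · rintro n _ ⟨x, rfl⟩
    exact ⟨_, ho n x⟩
  · obtain ⟨n, y, rfl⟩ := DirectLimit.exists_eq_mk _ x
    exact ⟨n, y, rfl⟩
  · rintro n _ ⟨x, -, rfl⟩
    exact ⟨x, rfl⟩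
  · rintro n _ ⟨k, rfl⟩ _ ⟨x, hx, rfl⟩
    exact ⟨⟨_, (h n).l k x hx, by rw [← ho]; exact map_mul (o _) _ _⟩,
      ⟨_, (h n).r k x hx, by rw [← ho]; exact map_mul (o _) _ _⟩⟩
  · rintro n _ ⟨x, hx, rfl⟩ _ ⟨y, hy, rfl⟩
    exact ⟨_, (h n).m x hx y hy, map_mul (o _) _ _⟩
  · rintro n _ ⟨k, rfl⟩ ⟨x, hx, e⟩
    have : x = i n k := (o (n + 1)).injective (e.trans (ho n k).symm)
    rw [(h n).z k (this ▸ hx), map_zero]
  · exact (congrArg (o (n + 1)) (h n).e).trans (by rw [map_mul, map_mul, map_inv₀])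

theorem result :
    ¬ (∀ (K : Type) [DivisionRing K] (τ : TopologicalSpace K),
      @IsTopologicalRing K τ _ → @T2Space K τ →
      ∃ σ : TopologicalSpace K, τ ≤ σ ∧ @IsTopologicalRing K σ _ ∧ @T2Space K σ ∧
        ∀ x : K, x ≠ 0 → @ContinuousAt K K σ σ (fun y => y⁻¹) x) := by
  intro H
  obtain ⟨D, _, S, J, p, q, b, h1, h2, h3, h4, h5, h6, h7⟩ := limit
  let U : ℕ → AddSubgroup D := fun n => AddSubgroup.closure {x | ∃ m, n ≤ m ∧ x ∈ J m}
  have gen : ∀ {n m x}, n ≤ m → x ∈ J m → x ∈ U n := fun a c => AddSubgroup.subset_closure ⟨_, a, c⟩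
  have anti : ∀ {n m}, n ≤ m → U m ≤ U n := fun a =>
    AddSubgroup.closure_mono fun x ⟨k, c, d⟩ => ⟨k, a.trans c, d⟩
  have lm : ∀ n (x : D), (∀ m, n ≤ m → ∀ y ∈ J m, x * y ∈ U n) → ∀ y ∈ U n, x * y ∈ U n :=
    fun n x a => (AddSubgroup.closure_le ((U n).comap (AddMonoidHom.mulLeft x))).mpr
      fun y ⟨m, c, d⟩ => a m c y d
  have rm : ∀ n (x : D), (∀ m, n ≤ m → ∀ y ∈ J m, y * x ∈ U n) → ∀ y ∈ U n, y * x ∈ U n :=
    fun n x a => (AddSubgroup.closure_le ((U n).comap (AddMonoidHom.mulRight x))).mpr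
      fun y ⟨m, c, d⟩ => a m c y d
  have hB : RingSubgroupsBasis U := by
    refine ⟨fun i j => ⟨max i j, le_inf (anti (le_max_left _ _)) (anti (le_max_right _ _))⟩,
      fun i => ⟨i, ?_⟩, fun x i => ?_, fun x i => ?_⟩
    · rintro _ ⟨x, hx, y, hy, rfl⟩
      refine rm i y (fun m a x hx => lm i x (fun k c y hy => ?_) y hy) x hx
      rcases lt_trichotomy m k with d | rfl | d
      · exact gen c (h4 k x (h1 d (h3 m x hx)) y hy).1
      · exact gen c (h5 m x hx y hy)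
      · exact gen a (h4 m y (h1 d (h3 k y hy)) x hx).2
    · obtain ⟨n, hn⟩ := h2 x
      exact ⟨max i n, fun y hy => anti (le_max_left i n) (lm _ x (fun m a y c =>
        gen a (h4 m x (h1 ((le_max_right _ _).trans a) hn) y c).1) y hy)⟩
    · obtain ⟨n, hn⟩ := h2 x
      exact ⟨max i n, fun y hy => anti (le_max_left i n) (rm _ x (fun m a y c =>
        gen a (h4 m x (h1 ((le_max_right _ _).trans a) hn) y c).2) y hy)⟩
  have sep : ∀ n, ∀ x ∈ U n, x ∈ S n → x = 0 := by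
    intro n
    let W : ℕ → AddSubgroup D := fun k => Nat.rec ⊥ (fun k V => V ⊔ J (n + k)) k
    have w1 : Monotone W := monotone_nat_of_le_succ fun k => le_sup_left
    have w2 : ∀ k, ∀ x ∈ W k, x ∈ S (n + k) ∧ (x ∈ S n → x = 0) := by
      intro k
      induction k with
      | zero => intro x hx; rw [AddSubgroup.mem_bot.mp hx]; exact ⟨zero_mem _, fun _ => rfl⟩
      | succ k ih =>
        intro x hx
        obtain ⟨y, hy, z, hz, rfl⟩ := AddSubgroup.mem_sup.mp hx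
        refine ⟨add_mem (h1 (by omega) (ih y hy).1) (h3 _ z hz), fun a => ?_⟩
        have : z = 0 := h6 _ z (by
          simpa using sub_mem (h1 (Nat.le_add_right n k) a) (ih y hy).1) hz
        rw [this, add_zero] at a ⊢
        exact (ih y hy).2 a
    have w3 : U n ≤ ⨆ k, W k := (AddSubgroup.closure_le _).mpr fun y ⟨m, c, d⟩ => by
      obtain ⟨k, rfl⟩ := Nat.exists_eq_add_of_le c
      exact le_iSup W (k + 1) ((le_sup_right : J (n + k) ≤ W k ⊔ J (n + k)) d)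
    intro x hx
    obtain ⟨k, hk⟩ := (AddSubgroup.mem_iSup_of_directed w1.directed_le).mp (w3 hx)
    exact (w2 k x hk).2
  have ht : @IsTopologicalRing D hB.topology _ := hB.toRingFilterBasis.isTopologicalRing
  obtain ⟨σ, s1, s2, s3, s4⟩ := H D hB.topology ht (by
    let _ := hB.topology
    refine IsTopologicalAddGroup.t2Space_of_zero_sep fun x hx => ?_
    obtain ⟨n, hn⟩ := h2 x
    exact ⟨U n, hB.hasBasis_nhds_zero.mem_of_mem trivial, fun a => hx (sep n x a hn)⟩)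
  have cv : ∀ (u : ℕ → D) (c : D), (∀ n, u n - c ∈ J n) → Tendsto u atTop (@nhds D σ c) :=
    fun u c a => ((hB.hasBasis_nhds c).tendsto_right_iff.mpr fun i _ =>
      (eventually_ge_atTop i).mono fun n hn => gen hn (a n)).mono_right (nhds_mono s1)
  let _ := σ
  have c1 := cv p 1 fun n => (h7 n).1
  have c2 := cv q 1 fun n => (h7 n).2.1
  have c3 := cv b 0 fun n => by rw [sub_zero]; exact (h7 n).2.2.1
  have c4 := (c3.mul ((s4 1 one_ne_zero).tendsto.comp c1)).mul c3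
  rw [mul_zero] at c4
  exact one_ne_zero (tendsto_nhds_unique c2 (c4.congr fun n => (h7 n).2.2.2.symm))

end Pool.Agent.S01862
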