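import Pool.Statements.S01864
import Pool.Agent.H.MP_702bfb_al.Main

set_option autoImplicit false
open Pool Pool.MP_702bfb_al

namespace Pool.Agent.S01864

theorem result :
    ¬ (∀ (R : Type) [NonUnitalNonAssocRing R],
      (∀ x y : R, (x * y) * y = x * (y * y)) →
      (∃ s : Finset R, NonUnitalSubring.closure (s : Set R) = ⊤) →
      (∃ n : ℕ, ∀ x : R, (fun y => y * x)^[n] x = 0) →
      ∃ D : ℕ → AddSubgroup R,
        D 0 = ⊤ ∧
        (∀ k : ℕ, D (k + 1) =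
          AddSubgroup.closure {z : R | ∃ a ∈ D k, ∃ b ∈ D k, z = a * b}) ∧
        ∃ m : ℕ, D m = ⊥) := by
  intro h
  obtain ⟨R, inst, h1, -, h3, h4, h5⟩ := Pool.Agent.H.MP_702bfb_al.main
  obtain ⟨D, h0, hs, m, hm⟩ := h R h1 h3 ⟨3, h4⟩
  exact h5 D h0 hs m hm

end Pool.Agent.S01864
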