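import Pool.Statements.S01870
import Pool.Agent.H.MP_70593a_al.A

set_option autoImplicit false
open Pool Pool.MP_70593a_al

namespace Pool.Agent.S01870

theorem result :
    ¬ (∀ (A : Type) (R : A → A → Prop) (S : Finset (A × A)),
      (∀ p ∈ S, R p.1 p.2) →
      (∀ p ∈ S, (∃ q ∈ S, q.2 = p.1) ∧ (∃ q ∈ S, q.1 = p.2)) →
      (∃ (k : ℕ) (v : ℕ → A) (e : ℕ → ℤ), v k = v 0 ∧
        (∀ i < k, (e i = 1 ∧ (v i, v (i + 1)) ∈ S) ∨ (e i = -1 ∧ (v (i + 1), v i) ∈ S)) ∧
        ∑ i ∈ Finset.range k, e i = 1) →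
      ∀ (n : ℕ) (f : (Fin n → A) → A), 3 ≤ n →
        (∀ (x y : A) (i : Fin n), f (Function.update (fun _ => x) i y) = x) →
        (∀ (x y : Fin n → A), (∀ i, R (x i) (y i)) → R (f x) (f y)) →
        ∃ a : A, R a a) := by
  classical
  intro hH
  let g : Fin 4 → H.MP_70593a_al.A := fun i => H.MP_70593a_al.cl (.gen i)
  let P : Finset (Fin 4 × Fin 4) :=
    Finset.univ.filter fun p => H.MP_70593a_al.B p.1 (H.MP_70593a_al.sw p.2)
  have hmem : ∀ i j : Fin 4, H.MP_70593a_al.B i (H.MP_70593a_al.sw j) →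
      (g i, g j) ∈ P.image fun p => (g p.1, g p.2) := fun i j h =>
    Finset.mem_image.2 ⟨(i, j), Finset.mem_filter.2 ⟨Finset.mem_univ _, h⟩, rfl⟩
  obtain ⟨a, ha⟩ := hH H.MP_70593a_al.A H.MP_70593a_al.R (P.image fun p => (g p.1, g p.2))
    (fun p hp => by
      obtain ⟨q, hq, rfl⟩ := Finset.mem_image.1 hp
      exact H.MP_70593a_al.R_gen _ _ (Finset.mem_filter.1 hq).2)
    (fun p hp => by
      obtain ⟨q, -, rfl⟩ := Finset.mem_image.1 hp
      exact ⟨⟨_, hmem (H.MP_70593a_al.sw q.1) q.1 (Or.inl rfl), rfl⟩,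
        ⟨_, hmem q.2 (H.MP_70593a_al.sw q.2)
          (Or.inl (H.MP_70593a_al.sw_sw _).symm), rfl⟩⟩)
    ⟨3, fun i => if i = 1 then g 2 else if i = 2 then g 3 else g 0,
      fun i => if i = 2 then -1 else 1, by simp, by
        intro i hi
        interval_cases i
        · exact Or.inl ⟨by simp, by simpa using hmem 0 2 (by decide)⟩
        · exact Or.inl ⟨by simp, by simpa using hmem 2 3 (by decide)⟩
        · exact Or.inr ⟨by simp, by simpa using hmem 0 3 (by decide)⟩, by decide⟩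
    4 H.MP_70593a_al.f (by norm_num) H.MP_70593a_al.f_nu H.MP_70593a_al.f_compat
  exact H.MP_70593a_al.no_loop _ ha

end Pool.Agent.S01870
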