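import Pool.Statements.S01882
import Pool.Agent.H.MP_718035_al.Trans

set_option autoImplicit false
open Pool Pool.MP_718035_al

namespace Pool.Agent.S01882

open Pool.Agent.H.MP_718035_al Polynomial Cardinal

abbrev GG := Matrix.SpecialLinearGroup (Fin 2) ℝ
abbrev GP := Matrix.SpecialLinearGroup (Fin 2) ℝ[X]

noncomputable def io : GG →* GP := Matrix.SpecialLinearGroup.map (C : ℝ →+* ℝ[X])
noncomputable def ev (t : ℝ) : GP →* GG := Matrix.SpecialLinearGroup.map (evalRingHom t)

lemma io_apply (a : GG) (i j : Fin 2) : (io a).1 i j = C (a.1 i j) := rfl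
lemma ev_apply (t : ℝ) (a : GP) (i j : Fin 2) : (ev t a).1 i j = (a.1 i j).eval t := rfl

lemma ev_io (t : ℝ) (a : GG) : ev t (io a) = a := by
  ext i j
  show (ev t (io a)).1 i j = a.1 i j
  rw [ev_apply, io_apply, eval_C]

noncomputable def xx (s : ℝ) : GP :=
  ⟨!![1 - C s * X, X; -(C s * C s * X), 1 + C s * X], by rw [Matrix.det_fin_two_of]; ring⟩

noncomputable def xi (s : ℝ) : GP :=
  ⟨!![1 + C s * X, -X; C s * C s * X, 1 - C s * X], by rw [Matrix.det_fin_two_of]; ring⟩

lemma xx_inv (s : ℝ) : (xx s)⁻¹ = xi s := by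
  rw [inv_eq_iff_mul_eq_one]
  ext1 i j
  show ((xx s).1 * (xi s).1) i j = (1 : Matrix (Fin 2) (Fin 2) ℝ[X]) i j
  fin_cases i <;> fin_cases j <;> simp [xx, xi, Matrix.mul_apply, Fin.sum_univ_two] <;> ring

lemma mul_col (a b : GP) (i : Fin 2) : (a * b).1 i 0 = a.1 i 0 * b.1 0 0 + a.1 i 1 * b.1 1 0 := by
  show (a.1 * b.1) i 0 = _
  rw [Matrix.mul_apply, Fin.sum_univ_two]

def L (u : GP) (d : ℕ) (a b : ℝ) : Prop :=
  (∀ k, d < k → (u.1 0 0).coeff k = 0 ∧ (u.1 1 0).coeff k = 0) ∧
    (u.1 0 0).coeff d = a ∧ (u.1 1 0).coeff d = b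

lemma L_io (g : GG) (u : GP) (d : ℕ) (a b : ℝ) (h : L u d a b) :
    L (io g * u) d (g.1 0 0 * a + g.1 0 1 * b) (g.1 1 0 * a + g.1 1 1 * b) := by
  obtain ⟨h1, h2, h3⟩ := h
  refine ⟨fun k hk => ?_, ?_, ?_⟩
  · simp only [mul_col, io_apply, coeff_add, coeff_C_mul, (h1 k hk).1, (h1 k hk).2]
    simp
  · simp only [mul_col, io_apply, coeff_add, coeff_C_mul, h2, h3]
  · simp only [mul_col, io_apply, coeff_add, coeff_C_mul, h2, h3]

lemma L_xx (s : ℝ) (u : GP) (d : ℕ) (a b : ℝ) (h : L u d a b) :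
    L (xx s * u) (d + 1) (b - s * a) (s * (b - s * a)) := by
  obtain ⟨h1, h2, h3⟩ := h
  have e0 : (xx s * u).1 0 0 = u.1 0 0 + X * (u.1 1 0 - C s * u.1 0 0) := by
    rw [mul_col]; simp [xx]; ring
  have e1 : (xx s * u).1 1 0 = u.1 1 0 + X * (C s * (u.1 1 0 - C s * u.1 0 0)) := by
    rw [mul_col]; simp [xx]; ring
  refine ⟨fun k hk => ?_, ?_, ?_⟩
  · obtain ⟨k, rfl⟩ : ∃ j, k = j + 1 := ⟨k - 1, by omega⟩
    have a1 := h1 k (by omega)
    have a2 := h1 (k + 1) (by omega)
    simp only [e0, e1, coeff_add, coeff_X_mul, coeff_sub, coeff_C_mul, a1.1, a1.2, a2.1, a2.2]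
    simp
  · have a2 := h1 (d + 1) (by omega)
    simp only [e0, coeff_add, coeff_X_mul, coeff_sub, coeff_C_mul, a2.1, h2, h3, zero_add]
  · have a2 := h1 (d + 1) (by omega)
    simp only [e1, coeff_add, coeff_X_mul, coeff_sub, coeff_C_mul, a2.2, h2, h3, zero_add]

lemma L_xi (s : ℝ) (u : GP) (d : ℕ) (a b : ℝ) (h : L u d a b) :
    L (xi s * u) (d + 1) (-(b - s * a)) (-(s * (b - s * a))) := by
  obtain ⟨h1, h2, h3⟩ := h
  have e0 : (xi s * u).1 0 0 = u.1 0 0 - X * (u.1 1 0 - C s * u.1 0 0) := by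
    rw [mul_col]; simp [xi]; ring
  have e1 : (xi s * u).1 1 0 = u.1 1 0 - X * (C s * (u.1 1 0 - C s * u.1 0 0)) := by
    rw [mul_col]; simp [xi]; ring
  refine ⟨fun k hk => ?_, ?_, ?_⟩
  · obtain ⟨k, rfl⟩ : ∃ j, k = j + 1 := ⟨k - 1, by omega⟩
    have a1 := h1 k (by omega)
    have a2 := h1 (k + 1) (by omega)
    simp only [e0, e1, coeff_X_mul, coeff_sub, coeff_C_mul, a1.1, a1.2, a2.1, a2.2]
    simp
  · have a2 := h1 (d + 1) (by omega)
    simp only [e0, coeff_X_mul, coeff_sub, coeff_C_mul, a2.1, h2, h3, zero_sub]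
  · have a2 := h1 (d + 1) (by omega)
    simp only [e1, coeff_X_mul, coeff_sub, coeff_C_mul, a2.2, h2, h3, zero_sub]

def lam (s : ℝ) (a : GG) : ℝ := (a.1 1 0 + a.1 1 1 * s) - s * (a.1 0 0 + a.1 0 1 * s)

noncomputable def hh (s : ℝ) (k : GG) : GP := xx s * io k * (xx s)⁻¹

lemma hh_mul (s : ℝ) (k k' : GG) : hh s (k * k') = hh s k * hh s k' := by
  simp [hh, mul_assoc]

lemma L_hh (s : ℝ) (k : GG) (u : GP) (d : ℕ) (a b : ℝ) (h : L u d a b) :
    L (hh s k * u) (d + 2) (-(b - s * a) * lam s k) (s * (-(b - s * a) * lam s k)) := by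
  have := L_xx s _ _ _ _ (L_io k _ _ _ _ (L_xi s u d a b h))
  have e : hh s k * u = xx s * (io k * (xi s * u)) := by simp [hh, xx_inv, mul_assoc]
  rw [e]
  convert this using 1
  · unfold lam; ring
  · unfold lam; ring

lemma io_neg_one : io (-1) = -1 := by
  ext1 i j
  show (io (-1)).1 i j = (-1 : GP).1 i j
  rw [io_apply]
  fin_cases i <;> fin_cases j <;> simp

lemma hh_pm (s : ℝ) (k : GG) (hk : k = 1 ∨ k = -1) : hh s k = io k := by
  rcases hk with rfl | rfl
  · simp [hh]
  · simp [hh, io_neg_one]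

lemma io_comm (k : GG) (hk : k = 1 ∨ k = -1) (u : GP) : u * io k = io k * u := by
  rcases hk with rfl | rfl
  · simp
  · simp [io_neg_one]

inductive XX (H Z : Subgroup GG) (s : ℝ) : GP → Prop
  | base (a : GG) (ha : a ∈ H) : XX H Z s (io a)
  | step (u : GP) (hu : XX H Z s u) (d : ℕ) (p q : ℝ) (hL : L u d p q) (hpq : q - s * p ≠ 0)
      (k : GG) (hk : k ∈ Z) (hl : lam s k ≠ 0) (a : GG) (ha : a ∈ H) : XX H Z s (io a * (hh s k * u))

lemma XX_io (H Z : Subgroup GG) (s : ℝ) (b : GG) (hb : b ∈ H) (u : GP) (hu : XX H Z s u) :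
    XX H Z s (io b * u) := by
  cases hu with
  | base a ha => rw [← map_mul]; exact XX.base _ (H.mul_mem hb ha)
  | step u hu d p q hL hpq k hk hl a ha =>
    rw [← mul_assoc, ← map_mul]
    exact XX.step u hu d p q hL hpq k hk hl _ (H.mul_mem hb ha)

lemma XX_hh (H Z : Subgroup GG) (s : ℝ) (hneg : -1 ∈ H)
    (g1 : ∀ k ∈ Z, lam s k = 0 → k = 1 ∨ k = -1) (g2 : ∀ k ∈ H, lam s k = 0 → k = 1 ∨ k = -1)
    (g3 : ∀ k ∈ H, k.1 1 0 - s * k.1 0 0 ≠ 0)
    (m : GG) (hm : m ∈ Z) (v : GP) (hv : XX H Z s v) : XX H Z s (hh s m * v) := by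
  have star : ∀ m ∈ Z, ∀ u, XX H Z s u → ∀ d p q, L u d p q → q - s * p ≠ 0 →
      XX H Z s (hh s m * u) := by
    intro m hm u hu d p q hL hpq
    by_cases hl : lam s m = 0
    · have := g1 m hm hl
      rw [hh_pm s m this]
      apply XX_io H Z s m _ u hu
      rcases this with rfl | rfl
      · exact H.one_mem
      · exact hneg
    · have := XX.step u hu d p q hL hpq m hm hl 1 H.one_mem
      simpa using this
  have hv' := hv
  cases hv with
  | base a ha =>
    refine star m hm _ hv' 0 (a.1 0 0) (a.1 1 0) ⟨fun k hk => ?_, ?_, ?_⟩ (g3 a ha)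
    · simp only [io_apply, coeff_C, if_neg hk.ne', and_self]
    · simp [io_apply]
    · simp [io_apply]
  | step u hu d p q hL hpq k hk hl a ha =>
    by_cases hla : lam s a = 0
    · have h1 := g2 a ha hla
      rw [← mul_assoc, io_comm a h1, mul_assoc, ← mul_assoc (hh s m), ← hh_mul]
      exact XX_io H Z s a ha _ (star _ (Z.mul_mem hm hk) u hu d p q hL hpq)
    · refine star m hm _ hv' _ _ _ (L_io a _ _ _ _ (L_hh s k u d p q hL)) ?_
      have : ∀ c : ℝ, a.1 1 0 * c + a.1 1 1 * (s * c) - s * (a.1 0 0 * c + a.1 0 1 * (s * c)) =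
          c * lam s a := by intro c; unfold lam; ring
      rw [this]
      exact mul_ne_zero (mul_ne_zero (neg_ne_zero.mpr hpq) hl) hla

def Good (a : GG) : Prop := ¬ (a.1 0 0 = 0 ∧ a.1 1 0 = 1)

lemma det2 (a : GG) : a.1 0 0 * a.1 1 1 - a.1 0 1 * a.1 1 0 = 1 := by
  have := a.2
  rwa [Matrix.det_fin_two] at this

lemma XX_ne (H Z : Subgroup GG) (s : ℝ) (hH : ∀ a ∈ H, Good a) (v : GP) (hv : XX H Z s v) :
    ¬ (v.1 0 0 = 0 ∧ v.1 1 0 = 1) := by
  rintro ⟨h1, h2⟩
  cases hv with
  | base a ha =>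
    rw [io_apply] at h1 h2
    exact hH a ha ⟨by simpa using h1, C_injective (by rw [h2, C_1])⟩
  | step u hu d p q hL hpq k hk hl a ha =>
    obtain ⟨_, h3, h4⟩ := L_io a _ _ _ _ (L_hh s k u d p q hL)
    rw [h1, coeff_zero] at h3
    rw [h2, coeff_one, if_neg (by omega)] at h4
    have hc : -(q - s * p) * lam s k ≠ 0 := mul_ne_zero (neg_ne_zero.mpr hpq) hl
    generalize -(q - s * p) * lam s k = c at *
    apply hc
    have := det2 a
    linear_combination (-c) * this - a.1 1 1 * h3 + a.1 0 1 * h4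

lemma generic (K : Subgroup GG) (hK : #K < continuum) : ∃ s : ℝ,
    (∀ k ∈ K, lam s k = 0 → k = 1 ∨ k = -1) ∧ (∀ k ∈ K, k.1 1 0 - s * k.1 0 0 ≠ 0) := by
  classical
  let P : K → ℝ[X] := fun k => (C (k.1.1 1 0) - X * C (k.1.1 0 0)) *
    (if k.1 = 1 ∨ k.1 = -1 then 1 else
      (C (k.1.1 1 0) + C (k.1.1 1 1) * X) - X * (C (k.1.1 0 0) + C (k.1.1 0 1) * X))
  obtain ⟨s, hs⟩ := avoid hK P (by
    rintro ⟨k, hk⟩
    have d := det2 k
    apply mul_ne_zero
    · intro h
      have h0 := congrArg (eval 0) h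
      have h1 := congrArg (eval 1) h
      simp at h0 h1
      have h2 : k.1 0 0 = 0 := by linarith
      rw [h0, h2] at d
      simp at d
    · split_ifs with h
      · exact one_ne_zero
      · intro h'
        apply h
        have h0 := congrArg (eval 0) h'
        have h1 := congrArg (eval 1) h'
        have h2 := congrArg (eval (-1)) h'
        simp at h0 h1 h2
        have h3 : k.1 0 1 = 0 := by linarith
        have h4 : k.1 1 1 = k.1 0 0 := by linarith
        rw [h3, h4] at d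
        have h5 : (k.1 0 0 - 1) * (k.1 0 0 + 1) = 0 := by linarith
        rcases mul_eq_zero.mp h5 with h6 | h6
        · left
          ext i j
          show k.1 i j = (1 : GG).1 i j
          fin_cases i <;> fin_cases j <;> simp <;> linarith
        · right
          ext i j
          show k.1 i j = (-1 : GG).1 i j
          fin_cases i <;> fin_cases j <;> simp <;> linarith)
  refine ⟨s, fun k hk hl => ?_, fun k hk hl => ?_⟩
  · by_contra h
    apply hs ⟨k, hk⟩
    simp only [P, if_neg h, eval_mul, eval_sub, eval_add, eval_C, eval_X]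
    exact mul_eq_zero_of_right _ hl
  · apply hs ⟨k, hk⟩
    simp only [P, eval_mul, eval_sub, eval_C, eval_X]
    exact mul_eq_zero_of_left hl _

lemma step (H : Subgroup GG) (hneg : -1 ∈ H) (hc : #H < continuum) (hH : ∀ a ∈ H, Good a) (g : GG) :
    ∃ h, IsConj g h ∧ ∀ a ∈ Subgroup.closure (insert h (H : Set GG)), Good a := by
  classical
  have c1 : #(Subgroup.closure (insert g (H : Set GG))) < continuum := by
    apply card_closure _ aleph0_lt_continuum
    exact mk_insert_le.trans_lt (add_lt_of_lt aleph0_le_continuum hc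
      (one_lt_aleph0.trans aleph0_lt_continuum))
  obtain ⟨s, s1, s2⟩ := generic _ c1
  have HK : ∀ k ∈ H, k ∈ Subgroup.closure (insert g (H : Set GG)) :=
    fun k hk => Subgroup.subset_closure (Or.inr hk)
  have gK : g ∈ Subgroup.closure (insert g (H : Set GG)) := Subgroup.subset_closure (Or.inl rfl)
  generalize Subgroup.closure (insert g (H : Set GG)) = Z at *
  have c2 : #(Subgroup.closure (insert (hh s g) (io '' (H : Set GG)))) < continuum := by
    apply card_closure _ aleph0_lt_continuum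
    exact mk_insert_le.trans_lt (add_lt_of_lt aleph0_le_continuum (mk_image_le.trans_lt hc)
      (one_lt_aleph0.trans aleph0_lt_continuum))
  have key : ∀ y ∈ Subgroup.closure (insert (hh s g) (io '' (H : Set GG))),
      ∀ v, XX H Z s v → XX H Z s (y * v) := by
    intro y hy
    induction hy using Subgroup.closure_induction'' with
    | mem x hx =>
      rcases hx with rfl | ⟨a, ha, rfl⟩
      · exact XX_hh H Z s hneg s1 (fun k hk => s1 k (HK k hk)) (fun k hk => s2 k (HK k hk)) g gK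
      · exact XX_io H Z s a ha
    | inv_mem x hx =>
      rcases hx with rfl | ⟨a, ha, rfl⟩
      · have : (hh s g)⁻¹ = hh s g⁻¹ := by simp [hh, mul_assoc]
        rw [this]
        exact XX_hh H Z s hneg s1 (fun k hk => s1 k (HK k hk)) (fun k hk => s2 k (HK k hk)) _
          (Z.inv_mem gK)
      · rw [← map_inv]
        exact XX_io H Z s _ (H.inv_mem ha)
    | one => intro v hv; simpa using hv
    | mul x y _ _ hx hy => intro v hv; rw [mul_assoc]; exact hx _ (hy v hv)
  have key2 : ∀ y ∈ Subgroup.closure (insert (hh s g) (io '' (H : Set GG))),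
      ¬ (y.1 0 0 = 0 ∧ y.1 1 0 = 1) := by
    intro y hy
    have := key y hy _ (XX.base 1 H.one_mem)
    rw [map_one, mul_one] at this
    exact XX_ne H Z s hH y this
  obtain ⟨t, ht⟩ := avoid c2 (fun y => if y.1.1 0 0 = 0 then y.1.1 1 0 - 1 else y.1.1 0 0) (by
    intro y
    split_ifs with h
    · intro h'
      exact key2 y.1 y.2 ⟨h, sub_eq_zero.mp h'⟩
    · exact h)
  refine ⟨ev t (hh s g), ?_, ?_⟩
  · rw [isConj_iff]
    exact ⟨ev t (xx s), by simp [hh, ev_io]⟩
  · intro a ha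
    have : Subgroup.closure (insert (ev t (hh s g)) (H : Set GG)) ≤
        (Subgroup.closure (insert (hh s g) (io '' (H : Set GG)))).map (ev t) := by
      rw [Subgroup.closure_le]
      rintro x (rfl | hx)
      · exact ⟨_, Subgroup.subset_closure (Or.inl rfl), rfl⟩
      · exact ⟨io x, Subgroup.subset_closure (Or.inr ⟨x, hx, rfl⟩), ev_io t x⟩
    obtain ⟨y, hy, rfl⟩ := this ha
    rintro ⟨h1, h2⟩
    rw [ev_apply] at h1 h2
    apply ht ⟨y, hy⟩
    simp only
    split_ifs with h
    · simp [h2]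
    · exact h1

/-- The negation of the preceding statement: Every subgroup of SL_2(R), viewed as an abstract group, that contains a conjugate of every element is the whole group; that is, SL_2(R) is invariably generated. -/
theorem result :
    ¬ (∀ H : Subgroup (Matrix.SpecialLinearGroup (Fin 2) ℝ),
      (∀ g : Matrix.SpecialLinearGroup (Fin 2) ℝ,
        ∃ x : Matrix.SpecialLinearGroup (Fin 2) ℝ, x * g * x⁻¹ ∈ H) →
      H = ⊤) := by
  intro hall
  have hG : #GG ≤ continuum := by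
    refine (mk_subtype_le _).trans ?_
    simp only [Matrix, mk_pi, prod_const, lift_id, mk_real, mk_fin, lift_natCast]
    rw [← power_mul]
    exact (power_le_power_left continuum_ne_zero
      (mul_le_of_le le_rfl natCast_le_aleph0 natCast_le_aleph0)).trans continuum_power_aleph0.le
  obtain ⟨H, h1, h2⟩ := transfinite continuum aleph0_lt_continuum hG Good (-1) (by
    intro a ha
    have : a = 1 ∨ a = -1 := by
      induction ha using Subgroup.closure_induction with
      | mem x hx => exact Or.inr hx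
      | one => exact Or.inl rfl
      | mul x y _ _ hx hy => rcases hx with rfl | rfl <;> rcases hy with rfl | rfl <;> simp
      | inv x _ hx => rcases hx with rfl | rfl <;> simp
    rcases this with rfl | rfl <;> simp [Good]) step
  have := hall H (fun g => by
    obtain ⟨h, hh, hc⟩ := h2 g
    obtain ⟨x, rfl⟩ := isConj_iff.mp hc
    exact ⟨x, hh⟩)
  apply h1 ⟨!![0, -1; 1, 0], by simp [Matrix.det_fin_two_of]⟩ (this ▸ Subgroup.mem_top _)
  simp

end Pool.Agent.S01882
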