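import Pool.Statements.S01898
-- import your own Pool.Agent.* helpers here

set_option autoImplicit false
open Pool Pool.MP_72b122_al

namespace Pool.Agent.S01898

noncomputable section

/-- finitely supported sequences of pairs of integers, written multiplicatively -/
def GG : Type := Multiplicative (ℕ →₀ ℤ × ℤ)

instance : CommGroup GG := inferInstanceAs (CommGroup (Multiplicative (ℕ →₀ ℤ × ℤ)))
instance : Lattice GG := inferInstanceAs (Lattice (ℕ →₀ ℤ × ℤ))

def GG.toAdd (g : GG) : ℕ →₀ ℤ × ℤ := g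
def GG.mk (g : ℕ →₀ ℤ × ℤ) : GG := g

def ev (g : GG) (j : ℕ) : ℤ × ℤ := g.toAdd j

theorem ev_mul (g h : GG) (j : ℕ) : ev (g * h) j = ev g j + ev h j := rfl
theorem ev_inv (g : GG) (j : ℕ) : ev g⁻¹ j = - ev g j := rfl
theorem ev_one (j : ℕ) : ev 1 j = 0 := rfl
theorem ev_sup (g h : GG) (j : ℕ) : ev (g ⊔ h) j = ev g j ⊔ ev h j := rfl
theorem ev_inf (g h : GG) (j : ℕ) : ev (g ⊓ h) j = ev g j ⊓ ev h j := rfl
theorem ev_le (g h : GG) : g ≤ h ↔ ∀ j, ev g j ≤ ev h j := Iff.rfl
theorem ev_ext (g h : GG) (H : ∀ j, ev g j = ev h j) : g = h :=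
  (Finsupp.ext H : g.toAdd = h.toAdd)
theorem ev_tail (g : GG) : ∃ n, ∀ j, n ≤ j → ev g j = 0 := by
  refine ⟨g.toAdd.support.sup id + 1, fun j hj => ?_⟩
  by_contra h
  have : j ≤ g.toAdd.support.sup id := Finset.le_sup (f := id) (Finsupp.mem_support_iff.mpr h)
  omega

def rel (n : ℕ) (g h : GG) : Prop :=
  (∀ j, j < n → ev g j = ev h j) ∧ ∀ j, (ev g j).1 - (ev g j).2 = (ev h j).1 - (ev h j).2

theorem rel_mono {n m : ℕ} (hnm : n ≤ m) {g h : GG} (H : rel m g h) : rel n g h :=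
  ⟨fun j hj => H.1 j (lt_of_lt_of_le hj hnm), H.2⟩

theorem rel_refl (n : ℕ) (g : GG) : rel n g g := ⟨fun _ _ => rfl, fun _ => rfl⟩

theorem rel_trans {n : ℕ} {g h k : GG} (H : rel n g h) (H' : rel n h k) : rel n g k :=
  ⟨fun j hj => (H.1 j hj).trans (H'.1 j hj), fun j => (H.2 j).trans (H'.2 j)⟩

@[reducible] def top : TopologicalSpace GG where
  IsOpen U := ∀ g ∈ U, ∃ n, ∀ h, rel n g h → h ∈ U
  isOpen_univ := fun _ _ => ⟨0, fun _ _ => trivial⟩
  isOpen_inter := fun s t hs ht g hg => by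
    obtain ⟨n, hn⟩ := hs g hg.1
    obtain ⟨m, hm⟩ := ht g hg.2
    exact ⟨max n m, fun h H => ⟨hn h (rel_mono (le_max_left _ _) H),
      hm h (rel_mono (le_max_right _ _) H)⟩⟩
  isOpen_sUnion := fun s hs g ⟨t, ht, hg⟩ => by
    obtain ⟨n, hn⟩ := hs t ht g hg
    exact ⟨n, fun h H => ⟨t, ht, hn h H⟩⟩

attribute [local instance 100000] top

theorem isOpen_def (U : Set GG) : IsOpen U ↔ ∀ g ∈ U, ∃ n, ∀ h, rel n g h → h ∈ U := Iff.rfl

theorem ball_open (n : ℕ) (g : GG) : IsOpen {h | rel n g h} :=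
  fun _ hh => ⟨n, fun _ H => rel_trans hh H⟩

theorem cont2 (f : GG → GG → GG)
    (H : ∀ g g' : GG, ∃ N, ∀ n, N ≤ n → ∀ h h', rel n g h → rel n g' h' →
      rel n (f g g') (f h h')) : Continuous fun p : GG × GG => f p.1 p.2 := by
  rw [continuous_def]
  intro U hU
  rw [isOpen_prod_iff]
  intro g g' hg
  obtain ⟨n, hn⟩ := hU _ hg
  obtain ⟨N, hN⟩ := H g g'
  refine ⟨{h | rel (max n N) g h}, {h | rel (max n N) g' h}, ball_open _ _, ball_open _ _,
    rel_refl _ _, rel_refl _ _, fun p hp => ?_⟩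
  exact hn _ (rel_mono (le_max_left _ _) (hN _ (le_max_right _ _) _ _ hp.1 hp.2))

theorem tg : IsTopologicalGroup GG where
  continuous_mul := cont2 (fun a b => a * b) (fun g g' => ⟨0, fun n _ h h' H H' =>
    ⟨fun j hj => by simp only [ev_mul, H.1 j hj, H'.1 j hj], fun j => by
      have := H.2 j
      have := H'.2 j
      simp only [ev_mul, Prod.fst_add, Prod.snd_add]
      omega⟩⟩)
  continuous_inv := by
    rw [continuous_def]
    intro U hU g hg
    obtain ⟨n, hn⟩ := hU _ hg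
    refine ⟨n, fun h H => hn _ ⟨fun j hj => by simp only [ev_inv, H.1 j hj], fun j => ?_⟩⟩
    have := H.2 j
    simp only [ev_inv, Prod.fst_neg, Prod.snd_neg]
    omega

theorem cont_lat (f : GG → GG → GG) (op : ℤ → ℤ → ℤ)
    (hf : ∀ g h j, ev (f g h) j = (op (ev g j).1 (ev h j).1, op (ev g j).2 (ev h j).2)) :
    Continuous fun p : GG × GG => f p.1 p.2 := by
  apply cont2
  intro g g'
  obtain ⟨a, ha⟩ := ev_tail g
  obtain ⟨b, hb⟩ := ev_tail g'
  refine ⟨max a b, fun n hn h h' H H' => ⟨fun j hj => by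
    simp only [hf, H.1 j hj, H'.1 j hj], fun j => ?_⟩⟩
  by_cases hj : j < n
  · simp only [hf, H.1 j hj, H'.1 j hj]
  · have h1 := H.2 j
    have h2 := H'.2 j
    have h3 := ha j (by omega)
    have h4 := hb j (by omega)
    rw [h3] at h1
    rw [h4] at h2
    have e1 : (ev h j).1 = (ev h j).2 := by simp at h1; omega
    have e2 : (ev h' j).1 = (ev h' j).2 := by simp at h2; omega
    simp [hf, h3, h4, e1, e2]

theorem tl : TopologicalLattice GG where
  continuous_inf := cont_lat (fun a b => a ⊓ b) (fun a b => a ⊓ b) (fun _ _ _ => rfl)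
  continuous_sup := cont_lat (fun a b => a ⊔ b) (fun a b => a ⊔ b) (fun _ _ _ => rfl)

def AA : Subgroup GG where
  carrier := {g | ∀ j, (ev g j).2 = 0}
  one_mem' := fun _ => rfl
  mul_mem' := fun {a b} ha hb j => by simp [ev_mul, ha j, hb j]
  inv_mem' := fun {a} ha j => by simp [ev_inv, ha j]

def BB : Subgroup GG where
  carrier := {g | ∀ j, (ev g j).1 = 0}
  one_mem' := fun _ => rfl
  mul_mem' := fun {a b} ha hb j => by simp [ev_mul, ha j, hb j]
  inv_mem' := fun {a} ha j => by simp [ev_inv, ha j]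

theorem mlm : MulLeftMono GG := ⟨fun a b c h => (ev_le _ _).mpr fun j => by
  rw [ev_mul, ev_mul]
  exact add_le_add le_rfl ((ev_le _ _).mp h j)⟩

theorem mrm : MulRightMono GG := ⟨fun a b c h => (ev_le _ _).mpr fun j => by
  show ev (b * a) j ≤ ev (c * a) j
  rw [ev_mul, ev_mul]
  exact add_le_add ((ev_le _ _).mp h j) le_rfl⟩

theorem result :
    ¬ (∀ (G : Type) [Group G] [Lattice G] [MulLeftMono G] [MulRightMono G]
      [TopologicalSpace G] [IsTopologicalGroup G] [TopologicalLattice G]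
      (A B : Subgroup G),
      A.Normal → B.Normal →
      IsClosed (A : Set G) → IsClosed (B : Set G) →
      (∀ x ∈ A, ∀ y ∈ A, x ⊔ y ∈ A ∧ x ⊓ y ∈ A) →
      (∀ x ∈ B, ∀ y ∈ B, x ⊔ y ∈ B ∧ x ⊓ y ∈ B) →
      ∀ φ : (↥A × ↥B) → G, (∀ p, φ p = (p.1 : G) * (p.2 : G)) →
      Function.Bijective φ →
      (∀ p q : ↥A × ↥B, p ≤ q ↔ φ p ≤ φ q) →
      ∃ e : (↥A × ↥B) ≃ₜ G, ∀ p, e p = φ p) := by
  intro hall
  obtain ⟨e, he⟩ := @hall GG _ _ mlm mrm top tg tl AA BB inferInstance inferInstance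
    (by
      rw [← isOpen_compl_iff]
      intro g hg
      have : ∃ j, (ev g j).2 ≠ 0 := by
        by_contra h
        push Not at h
        exact hg h
      obtain ⟨j, hj⟩ := this
      exact ⟨j + 1, fun h H hh => hj (by rw [H.1 j (Nat.lt_succ_self j)]; exact hh j)⟩)
    (by
      rw [← isOpen_compl_iff]
      intro g hg
      have : ∃ j, (ev g j).1 ≠ 0 := by
        by_contra h
        push Not at h
        exact hg h
      obtain ⟨j, hj⟩ := this
      exact ⟨j + 1, fun h H hh => hj (by rw [H.1 j (Nat.lt_succ_self j)]; exact hh j)⟩)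
    (fun x hx y hy => ⟨fun j => by simp [ev_sup, hx j, hy j], fun j => by
      simp [ev_inf, hx j, hy j]⟩)
    (fun x hx y hy => ⟨fun j => by simp [ev_sup, hx j, hy j], fun j => by
      simp [ev_inf, hx j, hy j]⟩)
    (fun p => (p.1 : GG) * (p.2 : GG)) (fun _ => rfl)
    (by
      constructor
      · intro p q hpq
        have h : ∀ j, ev p.1 j + ev p.2 j = ev q.1 j + ev q.2 j := fun j =>
          congrArg (fun g => ev g j) hpq
        refine Prod.ext (Subtype.ext (ev_ext _ _ fun j => ?_))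
          (Subtype.ext (ev_ext _ _ fun j => ?_))
        · have h1 := congrArg Prod.fst (h j)
          simp only [Prod.fst_add, p.2.2 j, q.2.2 j, add_zero] at h1
          exact Prod.ext h1 (by rw [p.1.2 j, q.1.2 j])
        · have h1 := congrArg Prod.snd (h j)
          simp only [Prod.snd_add, p.1.2 j, q.1.2 j, zero_add] at h1
          exact Prod.ext (by rw [p.2.2 j, q.2.2 j]) h1
      · intro g
        refine ⟨(⟨GG.mk (g.toAdd.mapRange (fun x => (x.1, 0)) rfl), fun j => rfl⟩,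
          ⟨GG.mk (g.toAdd.mapRange (fun x => (0, x.2)) rfl), fun j => rfl⟩), ?_⟩
        refine ev_ext _ _ fun j => ?_
        show ((ev g j).1, (0 : ℤ)) + ((0 : ℤ), (ev g j).2) = ev g j
        simp)
    (by
      intro p q
      constructor
      · intro h
        rw [ev_le]
        intro j
        exact add_le_add ((ev_le _ _).mp h.1 j) ((ev_le _ _).mp h.2 j)
      · intro h
        have h' : ∀ j, ev p.1 j + ev p.2 j ≤ ev q.1 j + ev q.2 j := (ev_le _ _).mp h
        refine ⟨(ev_le _ _).mpr fun j => ⟨?_, ?_⟩, (ev_le _ _).mpr fun j => ⟨?_, ?_⟩⟩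
        · have := (h' j).1
          simpa [p.2.2 j, q.2.2 j] using this
        · rw [p.1.2 j, q.1.2 j]
        · rw [p.2.2 j, q.2.2 j]
        · have := (h' j).2
          simpa [p.1.2 j, q.1.2 j] using this)
  have hU : IsOpen {p : AA × BB | rel 0 1 (p.1 : GG)} :=
    (ball_open 0 1).preimage (continuous_subtype_val.comp continuous_fst)
  have hV := e.isOpenMap _ hU
  obtain ⟨n, hn⟩ := hV 1 ⟨(1, 1), rel_refl 0 1, by rw [he]; simp⟩
  obtain ⟨p, hp, hpe⟩ := hn (GG.mk (Finsupp.single n (1, 1))) ⟨fun j hj => by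
    show (0 : ℤ × ℤ) = Finsupp.single n ((1 : ℤ), (1 : ℤ)) j
    rw [Finsupp.single_eq_of_ne (by omega)], fun j => by
    show (0 : ℤ) - 0 = (Finsupp.single n ((1 : ℤ), (1 : ℤ)) j).1 -
      (Finsupp.single n ((1 : ℤ), (1 : ℤ)) j).2
    by_cases h : j = n
    · subst h; simp
    · rw [Finsupp.single_eq_of_ne h]; simp⟩
  rw [he] at hpe
  have h1 : ev p.1 n + ev p.2 n = (1, 1) := by
    have := congrArg (fun g => ev g n) hpe
    simp only [ev_mul] at this
    rw [this]
    show Finsupp.single n ((1 : ℤ), (1 : ℤ)) n = _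
    simp
  have h2 := hp.2 n
  have h3 := congrArg Prod.fst h1
  simp only [Prod.fst_add, p.2.2 n, p.1.2 n, ev_one] at h2 h3
  simp at h2 h3
  omega

end

end Pool.Agent.S01898
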