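import Pool.Statements.S01910
import Pool.Agent.Lib.helper13.Golod

set_option autoImplicit false
open Pool Pool.MP_734462_al

namespace Pool.Agent.S01910
open Pool.Agent.H13.Golod TensorProduct

section wreath
variable {R W : Type} [CommRing R] [AddCommGroup W] [Module R W]

/-- operators whose range lies in the nilradical multiple of a finitely generated submodule -/
def Sm (g : Module.End R W) : Prop :=
  ∃ P : Submodule R W, P.FG ∧ LinearMap.range g ≤ nilradical R • P

lemma Sm.zero : Sm (0 : Module.End R W) := ⟨⊥, Submodule.fg_bot, by simp⟩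

lemma Sm.add {g h : Module.End R W} (hg : Sm g) (hh : Sm h) : Sm (g + h) := by
  obtain ⟨P, hP, h1⟩ := hg
  obtain ⟨Q, hQ, h2⟩ := hh
  refine ⟨P ⊔ Q, hP.sup hQ, ?_⟩
  rintro _ ⟨w, rfl⟩
  exact Submodule.add_mem _ (Submodule.smul_mono le_rfl le_sup_left (h1 ⟨w, rfl⟩))
    (Submodule.smul_mono le_rfl le_sup_right (h2 ⟨w, rfl⟩))

lemma Sm.mul_left {g : Module.End R W} (hg : Sm g) (h : Module.End R W) : Sm (h * g) := by
  obtain ⟨P, hP, h1⟩ := hg
  refine ⟨P.map h, hP.map h, ?_⟩
  rintro _ ⟨w, rfl⟩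
  rw [← Submodule.map_smul'']
  exact ⟨g w, h1 ⟨w, rfl⟩, rfl⟩

lemma Sm.mul_right {g : Module.End R W} (hg : Sm g) (h : Module.End R W) : Sm (g * h) := by
  obtain ⟨P, hP, h1⟩ := hg
  refine ⟨P, hP, ?_⟩
  rintro _ ⟨w, rfl⟩
  exact h1 ⟨h w, rfl⟩

lemma nil_of_range {P : Type} [AddCommGroup P] [Module R P] [Module.Finite R P]
    (g : Module.End R P) (hg : LinearMap.range g ≤ nilradical R • ⊤) : IsNilpotent g := by
  obtain ⟨p, hp, -, hc, h0⟩ :=
    LinearMap.exists_monic_and_natDegree_eq_and_coeff_mem_pow_and_aeval_eq_zero R g _ hg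
  have hm := hp.as_sum
  rw [hm, map_add, map_pow, Polynomial.aeval_X, map_sum] at h0
  have h1 : g ^ p.natDegree = -∑ i ∈ Finset.range p.natDegree, p.coeff i • g ^ i := by
    rw [eq_neg_iff_add_eq_zero, ← h0]
    congr 1
    refine Finset.sum_congr rfl fun i _ => ?_
    rw [map_mul, Polynomial.aeval_C, map_pow, Polynomial.aeval_X, Algebra.smul_def]
  have h2 : IsNilpotent (g ^ p.natDegree) := by
    rw [h1]
    refine IsNilpotent.neg (Commute.isNilpotent_sum (fun i hi => ?_) (fun i j _ _ => ?_))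
    · have hi' : p.natDegree - i ≠ 0 := by have := Finset.mem_range.1 hi; omega
      have : p.coeff i ∈ nilradical R := Ideal.pow_le_self hi' (hc i)
      obtain ⟨k, hk⟩ := mem_nilradical.1 this
      exact ⟨k, by rw [smul_pow, hk, zero_smul]⟩
    · exact ((Commute.pow_pow_self g i j).smul_left _).smul_right _
  exact IsNilpotent.of_pow h2

lemma Sm.nil {g : Module.End R W} (hg : Sm g) : IsNilpotent g := by
  obtain ⟨P, hP, h1⟩ := hg
  have hle : nilradical R • P ≤ P := Submodule.smul_le_right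
  have hmap : ∀ x ∈ P, g x ∈ P := fun x _ => hle (h1 ⟨x, rfl⟩)
  have : Module.Finite R P := Module.Finite.iff_fg.2 hP
  obtain ⟨n, hn⟩ := nil_of_range (g.restrict hmap) (by
    rintro _ ⟨w, rfl⟩
    have h2 : g w ∈ nilradical R • P := h1 ⟨w, rfl⟩
    exact (Submodule.mem_smul_top_iff _ P _).2 h2)
  refine ⟨n + 1, LinearMap.ext fun w => ?_⟩
  rw [pow_succ, Module.End.mul_apply]
  have h3 := congrArg Subtype.val (LinearMap.congr_fun hn ⟨g w, hle (h1 ⟨w, rfl⟩)⟩)
  rw [Module.End.pow_restrict n hmap] at h3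
  exact h3

lemma Sm.pow_add {a g : Module.End R W} (hg : Sm g) (n : ℕ) : Sm ((a + g) ^ n - a ^ n) := by
  induction n with
  | zero => simpa using Sm.zero
  | succ n ih =>
    have : (a + g) ^ (n + 1) - a ^ (n + 1) = ((a + g) ^ n - a ^ n) * a + (a + g) ^ n * g := by
      rw [pow_succ, pow_succ]; noncomm_ring
    rw [this]
    exact (ih.mul_right _).add (hg.mul_left _)

end wreath

lemma iter_eq {A E : Type} [NonUnitalSemiring A] [Semiring E] (j : A →ₙ* E) (a : A) (n : ℕ) :
    j ((fun x : A => a * x)^[n] a) = j a ^ (n + 1) := by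
  induction n with
  | zero => simp
  | succ n ih => rw [Function.iterate_succ_apply', map_mul, ih, ← pow_succ']

lemma main {R W : Type} [CommRing R] [Algebra ℚ R] [AddCommGroup W] [Module R W] [Module ℚ W]
    [IsScalarTower ℚ R W] (LL : T ℚ →ₐ[ℚ] Module.End R W) (Γ : W →ₗ[R] R) (e1 : W)
    (hL : ∀ v, eps ℚ v = 0 → IsNilpotent (LL v)) (hΓ : ∀ w, Γ w ∈ nilradical R)
    {A : Type} [NonUnitalRing A] [Module ℚ A] [IsScalarTower ℚ A A] [SMulCommClass ℚ A A]
    (huniv : ∀ (B : Type) [NonUnitalRing B] [Module ℚ B] [IsScalarTower ℚ B B]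
          [SMulCommClass ℚ B B],
          (∀ b : B, ∃ n : ℕ, (fun x : B => b * x)^[n] b = 0) →
          Module.rank ℚ B ≤ Cardinal.aleph0 →
            ∃ f : A →ₙₐ[ℚ] B, Function.Surjective f) :
    ∃ (a : Fin 3 → A) (a' : A), ∀ (u : T ℚ) (m : ℕ), ((a' : Unitization ℚ A) *
      FreeAlgebra.lift ℚ (fun j => (a j : Unitization ℚ A)) u) ^ m = 0 →
        Γ (LL u e1) ^ (m + 1) = 0 := by
  let c : Module.End R W := LinearMap.toSpanSingleton R _ e1 ∘ₗ Γ
  have hc : Sm c := by
    refine ⟨Submodule.span R {e1}, Submodule.fg_span_singleton _, ?_⟩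
    rintro _ ⟨w, rfl⟩
    exact Submodule.smul_mem_smul (hΓ w) (Submodule.mem_span_singleton_self _)
  let Ψ : FreeAlgebra ℚ (Option (Fin 3)) →ₐ[ℚ] Module.End R W :=
    FreeAlgebra.lift ℚ (fun o => o.elim c (fun j => LL (FreeAlgebra.ι ℚ j)))
  let N : NonUnitalSubalgebra ℚ (Module.End R W) :=
    { carrier := {x | ∃ v g, eps ℚ v = 0 ∧ Sm g ∧ x = LL v + g}
      add_mem' := by
        rintro _ _ ⟨v, g, hv, hg, rfl⟩ ⟨w, h, hw, hh, rfl⟩
        exact ⟨v + w, g + h, by rw [map_add, hv, hw, add_zero], hg.add hh, by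
          rw [map_add]; abel⟩
      zero_mem' := ⟨0, 0, map_zero _, Sm.zero, by simp⟩
      mul_mem' := by
        rintro _ _ ⟨v, g, hv, hg, rfl⟩ ⟨w, h, hw, hh, rfl⟩
        exact ⟨v * w, LL v * h + g * (LL w + h), by rw [map_mul, hv, zero_mul],
          (hh.mul_left _).add (hg.mul_right _), by rw [map_mul]; noncomm_ring⟩
      smul_mem' := by
        rintro r _ ⟨v, g, hv, hg, rfl⟩
        exact ⟨r • v, r • g, by rw [map_smul, hv, smul_zero],
          by rw [Algebra.smul_def]; exact hg.mul_left _, by rw [map_smul, smul_add]⟩ }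
  let B : NonUnitalSubalgebra ℚ (Module.End R W) :=
    Ψ.range.toNonUnitalSubalgebra ⊓ N
  have hBc : Countable B := by
    have : (B : Set (Module.End R W)).Countable :=
      (Set.countable_range Ψ).mono (fun x hx => hx.1)
    exact this.to_subtype
  obtain ⟨π, hπ⟩ := huniv B (by
    rintro ⟨x, hx⟩
    obtain ⟨v, g, hv, hg, rfl⟩ := hx.2
    obtain ⟨k, hk⟩ := hL v hv
    have h1 := hg.pow_add (a := LL v) k
    rw [hk, sub_zero] at h1
    obtain ⟨l, hl⟩ := IsNilpotent.of_pow h1.nil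
    refine ⟨l, Subtype.ext ?_⟩
    have := iter_eq (MulMemClass.subtype B) ⟨_, hx⟩ l
    refine this.trans ?_
    show (LL v + g) ^ (l + 1) = 0
    rw [pow_succ, hl, zero_mul])
    ((rank_le_card ℚ B).trans Cardinal.mk_le_aleph0)
  have hcB : c ∈ B := ⟨⟨FreeAlgebra.ι ℚ none, by simp [Ψ]⟩, 0, c, map_zero _, hc, by simp⟩
  have hxB : ∀ j, LL (FreeAlgebra.ι ℚ j) ∈ B := fun j =>
    ⟨⟨FreeAlgebra.ι ℚ (some j), by simp [Ψ]⟩, _, 0, eps_x j, Sm.zero, by simp⟩
  choose a ha using fun j => hπ ⟨_, hxB j⟩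
  obtain ⟨a', ha'⟩ := hπ ⟨_, hcB⟩
  refine ⟨a, a', fun u m hm => ?_⟩
  let Θ : Unitization ℚ A →ₐ[ℚ] Module.End R W :=
    Unitization.lift ((NonUnitalSubalgebraClass.subtype B).comp π)
  have hΘ : ∀ x : A, Θ (x : Unitization ℚ A) = (π x : Module.End R W) := by
    intro x
    simp [Θ]
  have h1 : Θ.comp (FreeAlgebra.lift ℚ (fun j => (a j : Unitization ℚ A))) = LL := by
    apply FreeAlgebra.hom_ext
    funext j
    simp only [Function.comp_apply, AlgHom.comp_apply, FreeAlgebra.lift_ι_apply, hΘ, ha]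
  have h2 := congrArg Θ hm
  rw [map_pow, map_mul, map_zero, hΘ, ha'] at h2
  have h3 : Θ (FreeAlgebra.lift ℚ (fun j => (a j : Unitization ℚ A)) u) = LL u := by
    rw [← h1]; rfl
  rw [h3] at h2
  have h6 : ∀ k : ℕ, ((c * LL u) ^ k) e1 = Γ (LL u e1) ^ k • e1 := by
    intro k
    induction k with
    | zero => simp
    | succ k ih =>
      rw [pow_succ', Module.End.mul_apply, ih, map_smul, Module.End.mul_apply]
      show Γ (LL u e1) ^ k • (Γ (LL u e1) • e1) = _
      rw [smul_smul, pow_succ]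
  have h7 := h6 m
  have h2' : (c * LL u) ^ m = 0 := h2
  rw [h2', LinearMap.zero_apply] at h7
  have h8 := congrArg (fun w => Γ (LL u w)) h7
  simp only [map_zero, map_smul, smul_eq_mul] at h8
  rw [pow_succ]
  exact h8.symm


/-- The negation of the preceding statement: For every field F there is an associative nil F-algebra A of at most countable dimension such that every nil F-algebra of at most countable dimension is the image of a surjective algebra homomorphism from A. -/
theorem result :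
    ¬ (∀ (F : Type) [Field F],
      ∃ (A : Type) (_instR : NonUnitalRing A) (_instM : Module F A)
        (_instT : IsScalarTower F A A) (_instC : SMulCommClass F A A),
        (∀ a : A, ∃ n : ℕ, (fun x : A => a * x)^[n] a = 0) ∧
        Module.rank F A ≤ Cardinal.aleph0 ∧
        ∀ (B : Type) [NonUnitalRing B] [Module F B] [IsScalarTower F B B]
          [SMulCommClass F B B],
          (∀ b : B, ∃ n : ℕ, (fun x : B => b * x)^[n] b = 0) →
          Module.rank F B ≤ Cardinal.aleph0 →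
            ∃ f : A →ₙₐ[F] B, Function.Surjective f) := by
  intro H
  obtain ⟨A, _, _, _, _, hnil, hrank, huniv⟩ := H ℚ
  obtain ⟨M, _, _, L, e, hinf, hcyc, hL⟩ := golod (F := ℚ)
  have hA : Countable A := by
    let bA := Module.Basis.ofVectorSpace ℚ A
    have : Countable (Module.Basis.ofVectorSpaceIndex ℚ A) := by
      rw [← Cardinal.mk_le_aleph0_iff, bA.mk_eq_rank'']
      exact hrank
    exact bA.repr.toEquiv.injective.countable
  let b := Module.Basis.ofVectorSpace ℚ M
  have hι : Infinite (Module.Basis.ofVectorSpaceIndex ℚ M) := by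
    rw [← not_finite_iff_infinite]
    intro h
    exact hinf (Module.Finite.of_basis b)
  obtain ⟨σ, hσ⟩ : ∃ σ : Module.Basis.ofVectorSpaceIndex ℚ M → (Fin 3 → A) × A,
      Function.Surjective σ := by
    obtain ⟨s, hs⟩ := exists_surjective_nat ((Fin 3 → A) × A)
    exact ⟨s ∘ Function.invFun (Infinite.natEmbedding _),
      hs.comp (Function.invFun_surjective (Infinite.natEmbedding _).injective)⟩
  choose u hu using fun i => hcyc (b i)
  -- the test elements of `A`
  let ev : (Fin 3 → A) → T ℚ →ₐ[ℚ] Unitization ℚ A := fun a =>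
    FreeAlgebra.lift ℚ (fun j => (a j : Unitization ℚ A))
  have hz : ∀ i, ∃ m : ℕ, (((σ i).2 : Unitization ℚ A) * ev (σ i).1 (u i)) ^ (m + 1) = 0 := by
    intro i
    set y := ((σ i).2 : Unitization ℚ A) * ev (σ i).1 (u i) with hy
    have h1 : y = (y.snd : Unitization ℚ A) := by
      ext
      · simp [hy]
      · simp
    obtain ⟨m, hm⟩ := hnil y.snd
    refine ⟨m, ?_⟩
    rw [h1]
    have := iter_eq (Unitization.inrNonUnitalAlgHom ℚ A : A →ₙ* Unitization ℚ A) y.snd m
    rw [hm] at this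
    exact this.symm.trans (map_zero (Unitization.inrNonUnitalAlgHom ℚ A))
  choose m hm using hz
  let R := ∀ i : Module.Basis.ofVectorSpaceIndex ℚ M,
    AdjoinRoot ((Polynomial.X : Polynomial ℚ) ^ (m i + 3))
  classical
  let t : Module.Basis.ofVectorSpaceIndex ℚ M → R := fun i => Pi.single i (AdjoinRoot.root _)
  have ht0 : ∀ i, t i ∈ nilradical R := by
    intro i
    refine mem_nilradical.2 ⟨m i + 3, ?_⟩
    funext j
    rw [Pi.pow_apply, Pi.zero_apply]
    by_cases hj : j = i
    · subst hj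
      rw [show t j j = AdjoinRoot.root _ from Pi.single_eq_same _ _, ← AdjoinRoot.mk_X, ← map_pow,
        AdjoinRoot.mk_self]
    · rw [show t i j = 0 from Pi.single_eq_of_ne hj _, zero_pow (by omega)]
  have ht1 : ∀ i, t i ^ (m i + 2) ≠ 0 := by
    intro i h
    have h1 := congrFun h i
    rw [Pi.pow_apply, show t i i = AdjoinRoot.root _ from Pi.single_eq_same _ _, ← AdjoinRoot.mk_X, ← map_pow, Pi.zero_apply,
      AdjoinRoot.mk_eq_zero] at h1
    have := Polynomial.natDegree_le_of_dvd h1 (pow_ne_zero _ Polynomial.X_ne_zero)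
    simp at this
  let γ : M →ₗ[ℚ] R := b.constr ℚ t
  let Γ : R ⊗[ℚ] M →ₗ[R] R := γ.liftBaseChange R
  have hγ : ∀ x, γ x ∈ nilradical R := by
    intro x
    rw [Module.Basis.constr_apply, Finsupp.sum]
    refine Submodule.sum_mem _ fun i _ => ?_
    rw [Algebra.smul_def]
    exact Ideal.mul_mem_left _ _ (ht0 i)
  have hΓ : ∀ w, Γ w ∈ nilradical R := by
    intro w
    induction w using TensorProduct.induction_on with
    | zero => rw [map_zero]; exact Submodule.zero_mem _
    | tmul r x => rw [LinearMap.liftBaseChange_tmul]; exact Submodule.smul_mem _ _ (hγ x)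
    | add v w hv hw => rw [map_add]; exact Submodule.add_mem _ hv hw
  obtain ⟨a, a', H⟩ := main (R := R) (W := R ⊗[ℚ] M) ((Module.End.baseChangeHom ℚ R M).comp L) Γ
    ((1 : R) ⊗ₜ[ℚ] e) (fun v hv => (hL v hv).map (Module.End.baseChangeHom ℚ R M)) hΓ huniv
  obtain ⟨i, hi⟩ := hσ (a, a')
  have h1 := hm i
  rw [hi] at h1
  have h2 := H (u i) _ h1
  have h4 : ((Module.End.baseChangeHom ℚ R M).comp L) (u i) ((1 : R) ⊗ₜ[ℚ] e) =
      (1 : R) ⊗ₜ[ℚ] b i := by
    show LinearMap.baseChange R (L (u i)) ((1 : R) ⊗ₜ[ℚ] e) = _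
    rw [LinearMap.baseChange_tmul, hu]
  have h5 : Γ ((1 : R) ⊗ₜ[ℚ] b i) = t i := by
    rw [LinearMap.liftBaseChange_tmul, one_smul, Module.Basis.constr_basis]
  apply ht1 i
  rw [← h5, ← h4]
  exact h2

end Pool.Agent.S01910
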