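import Pool.Statements.S01920
-- import your own Pool.Agent.* helpers here

set_option autoImplicit false
open Pool Pool.MP_73ecfa_al

namespace Pool.Agent.S01920

open Matrix

/-- `K³ ⊕ (Λ⁰ ⊕ Λ¹ ⊕ Λ²)`, where `K³` acts by wedge product and `Λ³` is identified with `Λ⁰`. -/
def Alg (K : Type) : Type := (Fin 3 → K) × K × (Fin 3 → K) × (Fin 3 → K)

variable {K : Type} [Field K]

instance : AddCommGroup (Alg K) :=
  inferInstanceAs (AddCommGroup ((Fin 3 → K) × K × (Fin 3 → K) × (Fin 3 → K)))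

instance : Module K (Alg K) :=
  inferInstanceAs (Module K ((Fin 3 → K) × K × (Fin 3 → K) × (Fin 3 → K)))

instance : Mul (Alg K) := ⟨fun p q =>
  (0, p.1 ⬝ᵥ q.2.2.2 - q.1 ⬝ᵥ p.2.2.2, q.2.1 • p.1 - p.2.1 • q.1,
    p.1 ⨯₃ q.2.2.1 - q.1 ⨯₃ p.2.2.1)⟩

theorem ext4 {p q : Alg K} (h1 : p.1 = q.1) (h2 : p.2.1 = q.2.1) (h3 : p.2.2.1 = q.2.2.1)
    (h4 : p.2.2.2 = q.2.2.2) : p = q :=
  Prod.ext h1 (Prod.ext h2 (Prod.ext h3 h4))

@[simp] theorem mul1 (p q : Alg K) : (p * q).1 = 0 := rfl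
@[simp] theorem mul2 (p q : Alg K) : (p * q).2.1 = p.1 ⬝ᵥ q.2.2.2 - q.1 ⬝ᵥ p.2.2.2 := rfl
@[simp] theorem mul3 (p q : Alg K) : (p * q).2.2.1 = q.2.1 • p.1 - p.2.1 • q.1 := rfl
@[simp] theorem mul4 (p q : Alg K) : (p * q).2.2.2 = p.1 ⨯₃ q.2.2.1 - q.1 ⨯₃ p.2.2.1 := rfl
@[simp] theorem add1 (p q : Alg K) : (p + q).1 = p.1 + q.1 := rfl
@[simp] theorem add2 (p q : Alg K) : (p + q).2.1 = p.2.1 + q.2.1 := rfl
@[simp] theorem add3 (p q : Alg K) : (p + q).2.2.1 = p.2.2.1 + q.2.2.1 := rfl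
@[simp] theorem add4 (p q : Alg K) : (p + q).2.2.2 = p.2.2.2 + q.2.2.2 := rfl
@[simp] theorem zero1 : (0 : Alg K).1 = 0 := rfl
@[simp] theorem zero2 : (0 : Alg K).2.1 = 0 := rfl
@[simp] theorem zero3 : (0 : Alg K).2.2.1 = 0 := rfl
@[simp] theorem zero4 : (0 : Alg K).2.2.2 = 0 := rfl
@[simp] theorem smul1 (c : K) (q : Alg K) : (c • q).1 = c • q.1 := rfl
@[simp] theorem smul2 (c : K) (q : Alg K) : (c • q).2.1 = c * q.2.1 := rfl
@[simp] theorem smul3 (c : K) (q : Alg K) : (c • q).2.2.1 = c • q.2.2.1 := rfl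
@[simp] theorem smul4 (c : K) (q : Alg K) : (c • q).2.2.2 = c • q.2.2.2 := rfl

instance : NonUnitalNonAssocRing (Alg K) where
  left_distrib a b c := by
    apply ext4
    · simp
    · simp; ring
    · simp [add_smul]; abel
    · simp; abel
  right_distrib a b c := by
    apply ext4
    · simp
    · simp; ring
    · simp [add_smul]; abel
    · simp; abel
  zero_mul a := by apply ext4 <;> simp
  mul_zero a := by apply ext4 <;> simp

instance : IsScalarTower K (Alg K) (Alg K) := ⟨fun c a b => by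
  change (c • a) * b = c • (a * b)
  apply ext4
  · simp
  · simp; ring
  · simp [smul_sub, smul_smul, mul_comm]
  · simp [smul_sub]⟩

instance : SMulCommClass K (Alg K) (Alg K) := ⟨fun c a b => by
  change c • (a * b) = a * (c • b)
  apply ext4
  · simp
  · simp; ring
  · simp [smul_sub, smul_smul, mul_comm]
  · simp [smul_sub]⟩

theorem alt (a : Alg K) : a * a = 0 := by apply ext4 <;> simp

/-- The invariant of a product of `k` factors, each of them `X` or `Y`. -/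
def Inv (a b : Fin 3 → K) (k : ℕ) (p : Alg K) : Prop :=
  (∃ s t : K, p.1 = s • a + t • b) ∧ (2 ≤ k → p.1 = 0) ∧
  (3 ≤ k → ∃ s t : K, p.2.2.1 = s • a + t • b) ∧ (4 ≤ k → ∃ r : K, p.2.2.2 = r • (a ⨯₃ b)) ∧
  (5 ≤ k → p.2.1 = 0) ∧ (6 ≤ k → p.2.2.1 = 0) ∧ (7 ≤ k → p.2.2.2 = 0)

theorem inv_neg {a b : Fin 3 → K} {k : ℕ} {p q : Alg K} (h : Inv a b k (p * q)) :
    Inv a b k (q * p) := by
  obtain ⟨-, -, h3, h4, h5, h6, h7⟩ := h
  refine ⟨⟨0, 0, by simp⟩, fun _ => by simp, fun hk => ?_, fun hk => ?_, fun hk => ?_,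
    fun hk => ?_, fun hk => ?_⟩
  · obtain ⟨s, t, h⟩ := h3 hk
    refine ⟨-s, -t, ?_⟩
    rw [mul3] at h ⊢
    rw [← neg_sub, h]; simp [add_comm]
  · obtain ⟨r, h⟩ := h4 hk
    refine ⟨-r, ?_⟩
    rw [mul4] at h ⊢
    rw [← neg_sub, h]; simp
  · have h := h5 hk
    rw [mul2] at h ⊢
    rw [← neg_sub, h]; simp
  · have h := h6 hk
    rw [mul3] at h ⊢
    rw [← neg_sub, h]; simp
  · have h := h7 hk
    rw [mul4] at h ⊢
    rw [← neg_sub, h]; simp

theorem inv_step {a b : Fin 3 → K} {k : ℕ} {p q : Alg K} (hp : ∃ s t : K, p.1 = s • a + t • b)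
    (hk : 2 ≤ k) (h : Inv a b k q) : Inv a b (k + 1) (p * q) := by
  obtain ⟨-, h2, h3, h4, h5, h6, h7⟩ := h
  have hq := h2 hk
  obtain ⟨s, t, hp⟩ := hp
  refine ⟨⟨0, 0, by simp⟩, fun _ => by simp, fun _ => ?_, fun hk => ?_, fun hk => ?_,
    fun hk => ?_, fun hk => ?_⟩
  · refine ⟨q.2.1 * s, q.2.1 * t, ?_⟩
    simp [hq, hp, smul_smul]
  · obtain ⟨s', t', h⟩ := h3 (by omega)
    refine ⟨s * t' - t * s', ?_⟩
    rw [mul4, hq, hp, h]
    ext i
    fin_cases i <;> simp [crossProduct] <;> ring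
  · obtain ⟨r, h⟩ := h4 (by omega)
    rw [mul2, hq, hp, h]
    simp [crossProduct, dotProduct, Fin.sum_univ_three]
    ring
  · simp [hq, h5 (by omega)]
  · simp [hq, h6 (by omega)]

theorem inv_word (x : Fin 2 → Alg K) (w : FreeMagma (Fin 2)) :
    Inv (x 0).1 (x 1).1 w.length (FreeMagma.lift x w) := by
  induction w using FreeMagma.recOnMul with
  | ih1 i =>
    refine ⟨?_, ?_, ?_, ?_, ?_, ?_, ?_⟩
    · fin_cases i
      · exact ⟨1, 0, by simp⟩
      · exact ⟨0, 1, by simp⟩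
    all_goals (intro h; simp [FreeMagma.length] at h)
  | ih2 u v hu hv =>
    rw [map_mul]
    have hl : (u * v).length = u.length + v.length := rfl
    have hu0 := u.length_pos
    have hv0 := v.length_pos
    rw [hl]
    by_cases h1 : 2 ≤ u.length
    · by_cases h2 : 2 ≤ v.length
      · have : FreeMagma.lift x u * FreeMagma.lift x v = 0 := by
          apply ext4 <;> simp [hu.2.1 h1, hv.2.1 h2]
        rw [this]
        exact ⟨⟨0, 0, by simp⟩, fun _ => rfl, fun _ => ⟨0, 0, by simp⟩, fun _ => ⟨0, by simp⟩,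
          fun _ => rfl, fun _ => rfl, fun _ => rfl⟩
      · have h3 : v.length = 1 := by omega
        rw [h3]
        exact inv_neg (inv_step hv.1 h1 hu)
    · have h3 : u.length = 1 := by omega
      by_cases h2 : 2 ≤ v.length
      · rw [h3, add_comm]
        exact inv_step hu.1 h2 hv
      · have h4 : v.length = 1 := by omega
        rw [h3, h4]
        refine ⟨⟨0, 0, by simp⟩, fun _ => rfl, ?_, ?_, ?_, ?_, ?_⟩ <;> (intro h; omega)

theorem two_nil (x : Fin 2 → Alg K) (w : FreeMagma (Fin 2)) (hw : 7 ≤ w.length) :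
    FreeMagma.lift x w = 0 := by
  obtain ⟨-, h2, -, -, h5, h6, h7⟩ := inv_word x w
  exact ext4 (h2 (by omega)) (h5 (by omega)) (h6 (by omega)) (h7 hw)

/-- The four generators. -/
def gens : Fin 4 → Alg K :=
  ![(![1, 0, 0], 0, 0, 0), (![0, 1, 0], 0, 0, 0), (![0, 0, 1], 0, 0, 0), (0, 1, 0, 0)]

/-- The words `x (y (z (x (y (z ⋯ e)))))`. -/
def word : ℕ → FreeMagma (Fin 4)
  | 0 => FreeMagma.of 3
  | n + 1 => FreeMagma.of 0 * (FreeMagma.of 1 * (FreeMagma.of 2 * word n))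

theorem word_length (n : ℕ) : n ≤ (word n).length := by
  induction n with
  | zero => simp
  | succ n ih =>
    have : (word (n + 1)).length = 1 + (1 + (1 + (word n).length)) := rfl
    omega

theorem word_val (n : ℕ) : FreeMagma.lift (gens (K := K)) (word n) = gens 3 := by
  induction n with
  | zero => rfl
  | succ n ih =>
    simp only [word, map_mul, FreeMagma.lift_of, ih]
    apply ext4 <;> simp [gens, crossProduct]

theorem lift_eq {A : Type} [NonUnitalNonAssocRing A] [Module K A] [IsScalarTower K A A]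
    [SMulCommClass K A A] (v : ℕ → A) (w : FreeMagma (Fin 2)) :
    MonoidAlgebra.liftMagma K (FreeMagma.lift v)
      (MonoidAlgebra.single (FreeMagma.map Fin.val w) (1 : K)) =
      FreeMagma.lift (fun i : Fin 2 => v i) w := by
  have : FreeMagma.lift v (FreeMagma.map Fin.val w) = FreeMagma.lift (fun i : Fin 2 => v i) w := by
    induction w using FreeMagma.recOnMul with
    | ih1 i => rfl
    | ih2 u v hu hv => simp only [map_mul, hu, hv]
  simp [this]

theorem result :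
    ¬ (∀ (K : Type) [Field K] (S : Set (MonoidAlgebra K (FreeMagma ℕ))) (n : ℕ), 2 ≤ n →
      (∃ c : ℕ, ∀ (A : Type) [NonUnitalNonAssocRing A] [Module K A]
          [IsScalarTower K A A] [SMulCommClass K A A],
          (∀ a : A, a * a = 0) →
          (∀ f ∈ S, ∀ v : ℕ → A, MonoidAlgebra.liftMagma K (FreeMagma.lift v) f = 0) →
          ∀ (x : Fin n → A) (w : FreeMagma (Fin n)), c ≤ w.length → FreeMagma.lift x w = 0) →
      ∀ (A : Type) [NonUnitalNonAssocRing A] [Module K A]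
          [IsScalarTower K A A] [SMulCommClass K A A],
          (∀ a : A, a * a = 0) →
          (∀ f ∈ S, ∀ v : ℕ → A, MonoidAlgebra.liftMagma K (FreeMagma.lift v) f = 0) →
          ∀ (m : ℕ) (x : Fin m → A), ∃ c : ℕ,
            ∀ w : FreeMagma (Fin m), c ≤ w.length → FreeMagma.lift x w = 0) := by
  intro h
  have h1 := h ℚ {f | ∃ w : FreeMagma (Fin 2), 7 ≤ w.length ∧
      f = MonoidAlgebra.single (FreeMagma.map Fin.val w) (1 : ℚ)} 2 le_rfl
    ⟨7, fun A _ _ _ _ _ hS x w hw => by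
      have h2 := hS _ ⟨w, hw, rfl⟩ (fun n => if n = 0 then x 0 else x 1)
      rw [lift_eq] at h2
      have h3 : (fun i : Fin 2 => if (i : ℕ) = 0 then x 0 else x 1) = x := by
        ext i; fin_cases i <;> simp
      rwa [h3] at h2⟩
    (Alg ℚ) alt (by
      rintro f ⟨w, hw, rfl⟩ v
      rw [lift_eq]
      exact two_nil _ w hw) 4 gens
  obtain ⟨c, hc⟩ := h1
  have h2 := hc (word c) (word_length c)
  rw [word_val] at h2
  have h3 := congrArg (fun p : Alg ℚ => p.2.1) h2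
  simp [gens] at h3

end Pool.Agent.S01920
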