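import Pool.Statements.S01930
import Pool.Agent.H.MP_7538d4_al.C

set_option autoImplicit false
open Pool Pool.MP_7538d4_al

namespace Pool.Agent.S01930

theorem result :
    ¬ (∀ (G : Type) [Group G], IsSimpleGroup G →
      (∀ s : Finset G, Finite (Subgroup.closure (s : Set G))) →
      (∃ H : Subgroup G, Finite H ∧ Finite (Subgroup.centralizer (H : Set G))) →
      ∃ (K : Type) (_ : Field K) (n : ℕ)
        (f : G →* Matrix.GeneralLinearGroup (Fin n) K), Function.Injective f) := by
  open Pool.Agent.H.MP_7538d4_al in
  intro h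
  obtain ⟨K, _, n, f, hf⟩ := h (GLim φ) (lim_simple φ φ_inj φ_norm) (lim_lf φ)
    ⟨(jG φ 0).range, Finite.of_surjective _ (jG φ 0).rangeRestrict_surjective, by
      rw [lim_cent φ φ_inj fun n g hg => (hypn n).cent g fun f => congrArg Units.val (hg f)]
      infer_instance⟩
  exact not_linear lim_pat K n f hf

end Pool.Agent.S01930
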