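import Pool.Statements.S01951
import Pool.Agent.Lib.helper22.H10f
import Pool.Agent.Lib.helper22.Heis

set_option autoImplicit false
open Pool Pool.MP_7692ce_al

namespace Pool.Agent.S01951

open Pool.Agent.Lib.H10

theorem retr {X Y : Type} [AddCommGroup X] [AddCommGroup Y] (R : Set ((X × Y) × (X × Y) × X × Y))
    (T : Submodule ℤ (X →ₗ[ℤ] Y →ₗ[ℤ] ℤ)) (hT : ∀ t, t ∈ T ↔ ∀ r ∈ R, t r.1.1 r.1.2 + t r.2.1.1 r.2.1.2 = t r.2.2.1 r.2.2.2)
    (μ : X →ₗ[ℤ] Y →ₗ[ℤ] T →ₗ[ℤ] ℤ) (hμ : ∀ a b t, μ a b t = t.1 a b) (p : X) (q : Y) (t : T) (ht : t.1 p q ≠ 0) :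
    (∃ r : He μ →* He μ, r.range = Subgroup.closure {⟨p, 0, 0⟩, ⟨0, q, 0⟩} ∧
      ∀ h ∈ Subgroup.closure {⟨p, 0, 0⟩, ⟨0, q, 0⟩}, r h = h) ↔ ∃ (ξ : X →ₗ[ℤ] ℤ) (η : Y →ₗ[ℤ] ℤ), ξ p = 1 ∧ η q = 1 ∧
        ∀ r ∈ R, ξ r.1.1 * η r.1.2 + ξ r.2.1.1 * η r.2.1.2 = ξ r.2.2.1 * η r.2.2.2 := by
  constructor
  · rintro ⟨ρ, h1, h2⟩
    have hp := h2 _ (Subgroup.subset_closure (.inl rfl))
    have hq := h2 _ (Subgroup.subset_closure (.inr rfl))
    choose k l m e using fun a => (He.mem_cl p q (ρ a)).1 (h1 ▸ ⟨a, rfl⟩)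
    have z : ∀ a b : He μ, μ a.x b.y = μ b.x a.y → k a * l b = k b * l a := fun a b h => by
      have : a * b = b * a := by ext1 <;> simp [h, add_comm]
      have := congrArg (fun g => (ρ g).z t) this
      simp only [map_mul] at this
      simp only [e, He.mul_z, map_smul, LinearMap.add_apply, LinearMap.smul_apply, smul_eq_mul, hμ] at this
      exact mul_right_cancel₀ ht (by linarith)
    have k1 : ∀ a b, k (a * b) = k a + k b := fun a b => mul_right_cancel₀ ht (by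
      simpa [e, add_mul] using congrArg (fun g => t.1 g.x q) ((e _).symm.trans (map_mul ρ a b)))
    have l1 : ∀ a b, l (a * b) = l a + l b := fun a b => mul_right_cancel₀ ht (by
      simpa [e, add_mul] using congrArg (fun g => t.1 p g.y) ((e _).symm.trans (map_mul ρ a b)))
    have kp : k ⟨p, 0, 0⟩ = 1 := mul_right_cancel₀ ht (by simpa using congrArg (fun g => t.1 g.x q) ((e _).symm.trans hp))
    have lp : l ⟨p, 0, 0⟩ = 0 := mul_right_cancel₀ ht (by simpa using congrArg (fun g => t.1 p g.y) ((e _).symm.trans hp))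
    have kq : k ⟨0, q, 0⟩ = 0 := mul_right_cancel₀ ht (by simpa using congrArg (fun g => t.1 g.x q) ((e _).symm.trans hq))
    have lq : l ⟨0, q, 0⟩ = 1 := mul_right_cancel₀ ht (by simpa using congrArg (fun g => t.1 p g.y) ((e _).symm.trans hq))
    have l0 : ∀ a c, l ⟨a, 0, c⟩ = 0 := fun a c => by simpa [kp, lp] using z ⟨p, 0, 0⟩ ⟨a, 0, c⟩ (by simp)
    have k0 : ∀ b c, k ⟨0, b, c⟩ = 0 := fun b c => by simpa [kq, lq] using z ⟨0, b, c⟩ ⟨0, q, 0⟩ (by simp)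
    have m1 : ∀ c d, m ⟨0, 0, c + d⟩ = m ⟨0, 0, c⟩ + m ⟨0, 0, d⟩ := fun c d => mul_right_cancel₀ ht (by
      have : (⟨0, 0, c + d⟩ : He μ) = ⟨0, 0, c⟩ * ⟨0, 0, d⟩ := by ext1 <;> simp
      simpa [e, add_mul, k0, hμ] using congrArg (fun g => g.z t) ((e _).symm.trans ((congrArg ρ this).trans (map_mul ρ _ _))))
    have m2 : ∀ a b, m ⟨0, 0, μ a b⟩ = k ⟨a, 0, 0⟩ * l ⟨0, b, 0⟩ := fun a b => mul_right_cancel₀ ht (by
      have : (⟨0, b, 0⟩ * ⟨a, 0, 0⟩ * ⟨0, 0, μ a b⟩ : He μ) = ⟨a, 0, 0⟩ * ⟨0, b, 0⟩ := by ext1 <;> simp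
      have := congrArg (fun g => (ρ g).z t) this
      simp only [map_mul] at this
      simp [e, k0, l0, hμ] at this
      linarith)
    refine ⟨(AddMonoidHom.mk' (fun a => k ⟨a, 0, 0⟩) fun a b => ?_).toIntLinearMap,
      (AddMonoidHom.mk' (fun b => l ⟨0, b, 0⟩) fun a b => ?_).toIntLinearMap, kp, lq, fun r hr => ?_⟩
    · rw [← k1]; congr 1; ext1 <;> simp
    · rw [← l1]; congr 1; ext1 <;> simp
    · have : μ r.1.1 r.1.2 + μ r.2.1.1 r.2.1.2 = μ r.2.2.1 r.2.2.2 := by ext s; simpa [hμ] using (hT _).1 s.2 r hr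
      simpa [m1, m2] using congrArg (fun c => m ⟨0, 0, c⟩) this
  · rintro ⟨ξ, η, a, b, h⟩
    let s : T := ⟨(LinearMap.mul ℤ ℤ).compl₁₂ ξ η, (hT _).2 h⟩
    let ρ : He μ →* He μ := .mk' (fun g => ⟨ξ g.x • p, η g.y • q, g.z s • μ p q⟩) fun g g' => by
      ext1 <;> simp [add_smul, hμ, s, ← mul_smul, mul_comm]
    have : ∀ h ∈ Subgroup.closure {⟨p, 0, 0⟩, ⟨0, q, 0⟩}, ρ h = h := fun g hg => by
      obtain ⟨k, l, m, rfl⟩ := (He.mem_cl ..).1 hg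
      simp [ρ, a, b, hμ, s]
    exact ⟨ρ, le_antisymm (by rintro _ ⟨g, rfl⟩; exact (He.mem_cl ..).2 ⟨_, _, _, rfl⟩) fun g hg => ⟨g, this g hg⟩, this⟩

theorem lin : ∃ (I J : Type) (_ : Finite I) (_ : Finite J) (R : Set (((I →₀ ℤ) × (J →₀ ℤ)) × ((I →₀ ℤ) × (J →₀ ℤ)) × (I →₀ ℤ) × (J →₀ ℤ)))
    (a b : I →₀ ℤ) (q : J →₀ ℤ) (t : (I →₀ ℤ) →ₗ[ℤ] (J →₀ ℤ) →ₗ[ℤ] ℤ),
    (∀ r ∈ R, t r.1.1 r.1.2 + t r.2.1.1 r.2.1.2 = t r.2.2.1 r.2.2.2) ∧ (∀ n : ℕ, t (a + n • b) q ≠ 0) ∧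
    ¬ ComputablePred fun n : ℕ => ∃ (ξ : (I →₀ ℤ) →ₗ[ℤ] ℤ) (η : (J →₀ ℤ) →ₗ[ℤ] ℤ), ξ (a + n • b) = 1 ∧ η q = 1 ∧
      ∀ r ∈ R, ξ r.1.1 * η r.1.2 + ξ r.2.1.1 * η r.2.1.2 = ξ r.2.2.1 * η r.2.2.2 := by
  obtain ⟨N, E, hE⟩ := exists_sq
  let W := Unit ⊕ Fin (N + 1)
  let e : Option W → (Option W →₀ ℤ) := (Finsupp.single · 1)
  let f : W ⊕ Fin E.length → (W ⊕ Fin E.length →₀ ℤ) := (Finsupp.single · 1)
  let o : W := .inl ()
  let u : List W → (Option W →₀ ℤ) := fun l => (l.map fun a => e (some a)).sum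
  let v : List W → (W ⊕ Fin E.length →₀ ℤ) := fun l => (l.map fun a => f (.inl a)).sum
  let R : Set ((_ × _) × (_ × _) × _ × _) := {((e none, f (.inl o)), 0, 0)} ∪
    Set.range (fun a => ((e (some a), f (.inl o)), 0, e (some o), f (.inl a))) ∪
    Set.range fun r => ((u (cond E[r].1 E[r].2.1 [o]), v E[r].2.1), (e none, f (.inr r)), e (some o), v E[r].2.2)
  let F : Fin E.length → ℤ := fun r => Finsupp.lapply (R := ℤ) (.inl o) (v E[r].2.2) -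
    Finsupp.lapply (R := ℤ) (some o) (u (cond E[r].1 E[r].2.1 [o])) * Finsupp.lapply (R := ℤ) (.inl o) (v E[r].2.1)
  let t : (Option W →₀ ℤ) →ₗ[ℤ] (W ⊕ Fin E.length →₀ ℤ) →ₗ[ℤ] ℤ := (LinearMap.mul ℤ ℤ).compl₁₂ (Finsupp.lapply (some o)) (Finsupp.lapply (.inl o)) +
    (LinearMap.mul ℤ ℤ).compl₁₂ (Finsupp.lapply none) (Finsupp.linearCombination ℤ (Sum.elim 0 F))
  have u0 : ∀ l, u l none = 0 := fun l => by induction l <;> simp_all [u, e]
  refine ⟨_, _, inferInstance, inferInstance, R, e (some o) - 3 • e (some (.inr 0)), 3 • e (some o), f (.inl o), t, ?_,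
    fun n => by simp [t, e, f, o]; omega, ?_⟩
  · rintro _ ((rfl | ⟨a, rfl⟩) | ⟨r, rfl⟩)
    · simp [t, e, f]
    · simp [t, e, f, Finsupp.single_apply]
    · simp [t, e, f, u0, F]
  convert hE using 3 with n
  symm
  have hu : ∀ (ξ : (Option W →₀ ℤ) →ₗ[ℤ] ℤ) (s : W → ℤ) c, (∀ a, ξ (e (some a)) = c * s a) → ∀ l, ξ (u l) = c * (l.map s).sum := fun ξ s c h l => by
    induction l <;> simp_all [u, mul_add]
  have hv : ∀ (η : (W ⊕ Fin E.length →₀ ℤ) →ₗ[ℤ] ℤ) (s : W → ℤ), (∀ a, η (f (.inl a)) = s a) → ∀ l, η (v l) = (l.map s).sum := fun η s h l => by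
    induction l <;> simp_all [v]
  refine ⟨fun ⟨σ, a, b⟩ => ?_, fun ⟨ξ, η, a, b, h⟩ => ?_⟩
  · have p : ∀ a, Finsupp.linearCombination ℤ (·.elim 0 (Sum.elim 1 σ)) (e (some a)) = 1 * (Sum.elim 1 σ : W → ℤ) a := by simp [e]
    have q : ∀ a, Finsupp.linearCombination ℤ (Sum.elim (Sum.elim 1 σ) 0) (f (.inl a)) = (Sum.elim 1 σ : W → ℤ) a := by simp [f]
    refine ⟨Finsupp.linearCombination ℤ (·.elim 0 (Sum.elim 1 σ)), Finsupp.linearCombination ℤ (Sum.elim (Sum.elim 1 σ) 0),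
      by simp only [map_add, map_sub, map_nsmul, p]; simp [o, a]; ring, by simp [f, o], ?_⟩
    rintro _ ((rfl | ⟨a, rfl⟩) | ⟨r, rfl⟩)
    · simp [e]
    · simp [p, q, o]
    · have := b _ (List.getElem_mem r.2)
      simp only [hu _ _ _ p, hv _ _ q]
      cases z : E[r].1 <;> simp_all [e, o]
  · have h1 : ξ (e none) = 0 := by simpa [b] using h _ (.inl (.inl rfl))
    have h2 : ∀ a, ξ (e (some a)) = ξ (e (some o)) * η (f (.inl a)) := fun a => by simpa [b] using h _ (.inl (.inr ⟨a, rfl⟩))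
    have h3 : ξ (e (some o)) * (1 - 3 * η (f (.inl (.inr 0))) + 3 * n) = 1 := by
      simp [h2 (.inr 0)] at a
      linarith
    have h4 : ξ (e (some o)) = 1 := (Int.eq_one_or_neg_one_of_mul_eq_one h3).resolve_right fun z => by rw [z] at h3; omega
    have q : ∀ a, η (f (.inl a)) = (Sum.elim 1 (fun i => η (f (.inl (.inr i)))) : W → ℤ) a := by rintro (_ | _); exacts [b, rfl]
    refine ⟨fun i => η (f (.inl (.inr i))), by rw [h4] at h3; dsimp only; omega, fun x hx => ?_⟩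
    obtain ⟨r, rfl⟩ := List.get_of_mem hx
    have := h _ (.inr ⟨r, rfl⟩)
    simp only [hu _ _ _ fun a => (h2 a).trans (congrArg _ (q a)), hv _ _ q, h1, h4] at this
    change cond E[r].1 (E[r].2.1.map _).sum 1 * (E[r].2.1.map _).sum = (E[r].2.2.map _).sum
    generalize E[r].1 = z at this ⊢
    cases z <;> simpa [o] using this

theorem result :
    ∃ (G : Type) (_ : Group G), Group.IsNilpotent G ∧
      ∃ (n : ℕ) (φ : FreeGroup (Fin n) →* G), Function.Surjective φ ∧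
        ¬ ComputablePred (fun L : List (List (Fin n × Bool)) =>
          ∃ r : G →* G,
            r.range = Subgroup.closure {g : G | ∃ w ∈ L, φ (FreeGroup.mk w) = g} ∧
            ∀ h ∈ Subgroup.closure {g : G | ∃ w ∈ L, φ (FreeGroup.mk w) = g}, r h = h) := by
  obtain ⟨I, J, _, _, R, a, b, q, t, ht, h0, hE⟩ := lin
  let T : Submodule ℤ ((I →₀ ℤ) →ₗ[ℤ] (J →₀ ℤ) →ₗ[ℤ] ℤ) :=
    { carrier := {t | ∀ r ∈ R, t r.1.1 r.1.2 + t r.2.1.1 r.2.1.2 = t r.2.2.1 r.2.2.2}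
      add_mem' := fun a b r h => by simp only [LinearMap.add_apply, ← a r h, ← b r h]; ring
      zero_mem' := by simp
      smul_mem' := fun c _ a r h => by simp only [LinearMap.smul_apply, ← a r h, smul_add] }
  let μ : (I →₀ ℤ) →ₗ[ℤ] (J →₀ ℤ) →ₗ[ℤ] T →ₗ[ℤ] ℤ := LinearMap.lflip.toLinearMap ∘ₗ T.subtype.flip
  obtain ⟨k, φ, hφ, g⟩ : ∃ (k : ℕ) (φ : FreeGroup (Fin (3 + k)) →* He μ), _ :=
    exists_gens (He.fg (μ := μ)) [⟨a, 0, 0⟩, He.i1 μ (.ofAdd b), ⟨0, q, 0⟩]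
  have g0 : φ (.mk [(Fin.castAdd k (0 : Fin 3), true)]) = ⟨a, 0, 0⟩ := g (0 : Fin 3)
  have g1 : φ (.of (Fin.castAdd k (1 : Fin 3))) = He.i1 μ (.ofAdd b) := g (1 : Fin 3)
  have g2 : φ (.mk [(Fin.castAdd k (2 : Fin 3), true)]) = ⟨0, q, 0⟩ := g (2 : Fin 3)
  refine ⟨He μ, inferInstance, inferInstance, _, φ, hφ, fun h => hE ?_⟩
  generalize Fin.castAdd k (0 : Fin 3) = i0, Fin.castAdd k (1 : Fin 3) = i1, Fin.castAdd k (2 : Fin 3) = i2 at g0 g1 g2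
  obtain ⟨c, hc, h⟩ := ComputablePred.computable_iff.1 h
  have pr : Primrec fun n => [(i0, true) :: List.replicate n (i1, true), [(i2, true)]] :=
    Primrec.list_cons.comp (Primrec.list_cons.comp (.const _)
      ((Primrec.list_map Primrec.list_range (Primrec.const (i1, true)).to₂).of_eq (by simp))) (.const _)
  refine ComputablePred.computable_iff.2 ⟨_, hc.comp pr.to_comp, funext fun n => ?_⟩
  rw [← congrFun h]
  have w : FreeGroup.mk (List.replicate n (i1, true)) = .of i1 ^ n := by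
    induction n with
    | zero => rfl
    | succ n ih => rw [pow_succ', ← ih]; rfl
  have e : φ (.mk ((i0, true) :: List.replicate n (i1, true))) = ⟨a + n • b, 0, 0⟩ := by
    rw [show ∀ x l, FreeGroup.mk (x :: l) = .mk [x] * .mk l from fun _ _ => rfl, w, map_mul, map_pow, g0, g1, ← map_pow]
    ext1 <;> simp [He.i1]
  rw [← retr R T (fun _ => .rfl) μ (fun _ _ _ => rfl) _ _ ⟨t, ht⟩ (h0 n)]
  have : {x : He μ | ∃ w ∈ [(i0, true) :: List.replicate n (i1, true), [(i2, true)]], φ (FreeGroup.mk w) = x} =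
      {⟨a + n • b, 0, 0⟩, ⟨0, q, 0⟩} := by
    ext x
    simp only [List.mem_cons, List.not_mem_nil, or_false, exists_eq_or_imp, exists_eq_left, e, g2,
      Set.mem_ofPred_eq, Set.mem_insert_iff, Set.mem_singleton_iff, eq_comm (a := x)]
  rw [this]

end Pool.Agent.S01951
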