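import Pool.Statements.S01968
-- import your own Pool.Agent.* helpers here

set_option autoImplicit false
open scoped Pointwise
open Pool Pool.MP_77870d_al

namespace Pool.Agent.S01968

abbrev TT := Multiplicative (ℕ →₀ ZMod 2)
abbrev ZZ := Multiplicative ℤ
abbrev MM := Set ZZ × Set TT

def B : Set TT := {f | ∃ i : ℕ, f = Multiplicative.ofAdd (Finsupp.single i 1)}

lemma B_card (n : ℕ) : ∀ f ∈ B ^ n, (Multiplicative.toAdd f).support.card ≤ n := by
  induction n with
  | zero =>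
    intro f hf
    rw [pow_zero, Set.mem_one] at hf
    subst hf; simp
  | succ n ih =>
    intro f hf
    rw [pow_succ] at hf
    obtain ⟨g, hg, b, ⟨i, rfl⟩, rfl⟩ := hf
    have h1 := ih g hg
    have h2 : (Multiplicative.toAdd (g * Multiplicative.ofAdd (Finsupp.single i (1 : ZMod 2)))).support ⊆
        (Multiplicative.toAdd g).support ∪ {i} := by
      rw [toAdd_mul, toAdd_ofAdd]
      exact Finsupp.support_add.trans (Finset.union_subset_union_right Finsupp.support_single_subset)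
    have h3 := Finset.card_le_card h2
    have h4 := Finset.card_union_le (Multiplicative.toAdd g).support {i}
    simp only [Finset.card_singleton] at h4
    show (Multiplicative.toAdd (g * Multiplicative.ofAdd (Finsupp.single i (1 : ZMod 2)))).support.card ≤ n + 1
    omega

lemma B_ex (n : ℕ) : ∃ f ∈ B ^ n, (Multiplicative.toAdd f).support = Finset.range n := by
  induction n with
  | zero => exact ⟨1, by simp, by simp⟩
  | succ n ih =>
    obtain ⟨g, hg, hs⟩ := ih
    refine ⟨g * Multiplicative.ofAdd (Finsupp.single n 1), ?_, ?_⟩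
    · rw [pow_succ]
      exact Set.mul_mem_mul hg ⟨n, rfl⟩
    · rw [toAdd_mul, toAdd_ofAdd, Finsupp.support_add_eq, hs, Finsupp.support_single_ne_zero _ one_ne_zero]
      · ext x; simp; omega
      · rw [hs, Finsupp.support_single_ne_zero _ one_ne_zero]; simp

lemma B_le {n m : ℕ} (h : B ^ n ⊆ B ^ m) : n ≤ m := by
  obtain ⟨f, hf, hs⟩ := B_ex n
  have := B_card m f (h hf)
  rwa [hs, Finset.card_range] at this

lemma B_ne (n : ℕ) : (B ^ n).Nonempty := by
  obtain ⟨f, hf, -⟩ := B_ex n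
  exact ⟨f, hf⟩

/-- membership in the level `N` piece. -/
def P (N : ℕ) (x : MM) : Prop :=
  (∃ n : ℕ, 0 < n ∧ x.1 = {Multiplicative.ofAdd (n : ℤ)} ∧ x.2 = B ^ n) ∨
  (x.2 = Set.univ ∧ x.1.Nonempty ∧
    ∀ z ∈ x.1, ∀ k : ℤ, z * Multiplicative.ofAdd ((N : ℤ) * k) ∈ x.1)

lemma P_mono {N M : ℕ} (h : N ∣ M) {x : MM} (hx : P N x) : P M x := by
  rcases hx with hx | ⟨h1, h2, h3⟩
  · exact Or.inl hx
  · obtain ⟨c, rfl⟩ := h
    refine Or.inr ⟨h1, h2, fun z hz k => ?_⟩
    have := h3 z hz (c * k)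
    push_cast
    rwa [mul_assoc]

lemma P_ne {N : ℕ} {x : MM} (hx : P N x) : x.1.Nonempty ∧ x.2.Nonempty := by
  rcases hx with ⟨n, -, h1, h2⟩ | ⟨h1, h2, -⟩
  · exact ⟨h1 ▸ Set.singleton_nonempty _, h2 ▸ B_ne n⟩
  · exact ⟨h2, h1 ▸ Set.univ_nonempty⟩

lemma P_mul_right {N : ℕ} {x y : MM} (hx : P N x)
    (hy : y.2 = Set.univ ∧ y.1.Nonempty ∧
      ∀ z ∈ y.1, ∀ k : ℤ, z * Multiplicative.ofAdd ((N : ℤ) * k) ∈ y.1) : P N (x * y) := by
  obtain ⟨h1, h2, h3⟩ := hy
  refine Or.inr ⟨?_, ?_, ?_⟩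
  · rw [Prod.snd_mul, h1]
    exact Set.mul_univ (P_ne hx).2
  · exact (P_ne hx).1.mul h2
  · rintro z ⟨u, hu, v, hv, rfl⟩ k
    exact ⟨u, hu, _, h3 v hv k, (mul_assoc _ _ _).symm⟩

lemma P_mul {N : ℕ} {x y : MM} (hx : P N x) (hy : P N y) : P N (x * y) := by
  rcases hy with hy | hy
  · rcases hx with hx | hx
    · obtain ⟨n, hn, h1, h2⟩ := hx
      obtain ⟨m, hm, h3, h4⟩ := hy
      refine Or.inl ⟨n + m, by omega, ?_, ?_⟩
      · rw [Prod.fst_mul, h1, h3, Set.singleton_mul_singleton, ← ofAdd_add]; push_cast; rfl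
      · rw [Prod.snd_mul, h2, h4, pow_add]
    · rw [mul_comm]; exact P_mul_right (Or.inl hy) hx
  · exact P_mul_right hx hy

def SS : Subsemigroup MM where
  carrier := {x | ∃ N : ℕ, 0 < N ∧ P N x}
  mul_mem' := by
    rintro x y ⟨N, hN, hx⟩ ⟨M, hM, hy⟩
    exact ⟨N * M, Nat.mul_pos hN hM,
      P_mul (P_mono (Dvd.intro _ rfl) hx) (P_mono (Dvd.intro_left _ rfl) hy)⟩

def SN (N : ℕ) : Subsemigroup SS where
  carrier := {x | P N x.1}
  mul_mem' := fun hx hy => P_mul hx hy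

def red (N : ℕ) : ZZ →* Multiplicative (ZMod N) :=
  AddMonoidHom.toMultiplicative (Int.castAddHom (ZMod N))

def phi (N : ℕ) : MM →ₙ* Set (Multiplicative (ZMod N) × TT) where
  toFun x := (red N '' x.1) ×ˢ x.2
  map_mul' x y := by
    rw [Prod.fst_mul, Prod.snd_mul, Set.image_mul, Set.prod_mul_prod_comm]

lemma phi_inj {N : ℕ} {x y : MM} (hx : P N x) (hy : P N y) (h : phi N x = phi N y) : x = y := by
  have h' : (red N '' x.1) ×ˢ x.2 = (red N '' y.1) ×ˢ y.2 := h
  have hne : ((red N '' x.1) ×ˢ x.2).Nonempty := ((P_ne hx).1.image _).prod (P_ne hx).2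
  obtain ⟨e1, e2⟩ := (Set.prod_eq_prod_iff_of_nonempty hne).1 h'
  have sat : ∀ C D : Set ZZ, red N '' C = red N '' D →
      (∀ z ∈ D, ∀ k : ℤ, z * Multiplicative.ofAdd ((N : ℤ) * k) ∈ D) → C ⊆ D := by
    intro C D e hD z hz
    have : red N z ∈ red N '' D := e ▸ Set.mem_image_of_mem _ hz
    obtain ⟨w, hw, hwz⟩ := this
    have h1 : ((Multiplicative.toAdd w : ℤ) : ZMod N) = ((Multiplicative.toAdd z : ℤ) : ZMod N) :=
      congrArg Multiplicative.toAdd hwz
    obtain ⟨k, hk⟩ := (ZMod.intCast_eq_intCast_iff_dvd_sub _ _ _).1 h1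
    have := hD w hw k
    rw [← hk] at this
    simpa using this
  rcases hx with ⟨n, -, h1, h2⟩ | ⟨h1, -, h2⟩
  · rcases hy with ⟨m, -, h3, h4⟩ | ⟨h3, -, h4⟩
    · have e : B ^ n = B ^ m := by rw [← h2, ← h4, e2]
      have : n = m := le_antisymm (B_le e.subset) (B_le e.symm.subset)
      subst this
      exact Prod.ext (h1.trans h3.symm) e2
    · have : B ^ (n + 1) ⊆ B ^ n := by rw [← h2, e2, h3]; exact Set.subset_univ _
      have := B_le this
      omega
  · rcases hy with ⟨m, -, h3, h4⟩ | ⟨h3, -, h4⟩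
    · have : B ^ (m + 1) ⊆ B ^ m := by rw [← h4, ← e2, h1]; exact Set.subset_univ _
      have := B_le this
      omega
    · exact Prod.ext (Set.Subset.antisymm (sat _ _ e1 h4) (sat _ _ e1.symm h2)) e2

lemma tors (N : ℕ) (hN : 0 < N) : Monoid.IsTorsion (Multiplicative (ZMod N) × TT) := by
  intro g
  rw [isOfFinOrder_iff_pow_eq_one]
  refine ⟨N * 2, by omega, Prod.ext ?_ ?_⟩
  · apply Multiplicative.toAdd.injective
    simp [mul_smul]
  · apply Multiplicative.toAdd.injective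
    ext i
    have h2 : ∀ t : ZMod 2, (2 : ZMod 2) * t = 0 := by decide
    simp [mul_assoc, h2]

lemma fin_level (F : Finset SS) : ∃ N : ℕ, 0 < N ∧ ∀ x ∈ F, P N x.1 := by
  classical
  induction F using Finset.induction_on with
  | empty => exact ⟨1, one_pos, by simp⟩
  | insert a F _ ih =>
    obtain ⟨N, hN, h⟩ := ih
    obtain ⟨M, hM, ha⟩ := a.2
    refine ⟨N * M, Nat.mul_pos hN hM, fun x hx => ?_⟩
    rcases Finset.mem_insert.1 hx with rfl | hx
    · exact P_mono (Dvd.intro_left _ rfl) ha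
    · exact P_mono (Dvd.intro _ rfl) (h x hx)

def aa : SS := ⟨({Multiplicative.ofAdd 1}, B), 1, one_pos, Or.inl ⟨1, one_pos, by simp, by simp⟩⟩

def yy (n j : ℕ) : SS :=
  ⟨({z | ((n + 1 : ℕ) : ℤ) ∣ Multiplicative.toAdd z - j}, Set.univ), n + 1, by omega,
    Or.inr ⟨rfl, ⟨Multiplicative.ofAdd (j : ℤ), by simp⟩, fun z hz k => by
      have hz' : ((n + 1 : ℕ) : ℤ) ∣ Multiplicative.toAdd z - j := hz
      show ((n + 1 : ℕ) : ℤ) ∣ Multiplicative.toAdd z + ((n + 1 : ℕ) : ℤ) * k - j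
      rw [add_sub_right_comm]
      exact dvd_add hz' (Dvd.intro _ rfl)⟩⟩

lemma yy_mul (n j : ℕ) : yy n j * aa = yy n (j + 1) := by
  apply Subtype.ext
  refine Prod.ext ?_ ?_
  · show {z : ZZ | ((n + 1 : ℕ) : ℤ) ∣ Multiplicative.toAdd z - j} * {Multiplicative.ofAdd (1 : ℤ)} =
      {z : ZZ | ((n + 1 : ℕ) : ℤ) ∣ Multiplicative.toAdd z - ((j + 1 : ℕ) : ℤ)}
    rw [Set.mul_singleton, Set.image_mul_right]
    ext z
    simp only [Set.mem_preimage, Set.mem_ofPred_eq, toAdd_mul, toAdd_inv, toAdd_ofAdd]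
    have : Multiplicative.toAdd z + -1 - (j : ℤ) = Multiplicative.toAdd z - ((j + 1 : ℕ) : ℤ) := by
      push_cast; ring
    rw [this]
  · show Set.univ * B = Set.univ
    exact Set.univ_mul (by simpa using B_ne 1)

lemma yy_per (n k : ℕ) : yy n (k * (n + 1)) = yy n 0 := by
  apply Subtype.ext
  refine Prod.ext ?_ rfl
  show {z : ZZ | ((n + 1 : ℕ) : ℤ) ∣ Multiplicative.toAdd z - ((k * (n + 1) : ℕ) : ℤ)} =
      {z : ZZ | ((n + 1 : ℕ) : ℤ) ∣ Multiplicative.toAdd z - ((0 : ℕ) : ℤ)}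
  ext z
  simp only [Set.mem_ofPred_eq]
  have h : ((n + 1 : ℕ) : ℤ) ∣ ((k * (n + 1) : ℕ) : ℤ) := by
    exact_mod_cast Dvd.intro_left _ rfl
  rw [Nat.cast_zero, sub_zero]
  exact dvd_sub_left h

lemma yy_ne (n : ℕ) (hn : 0 < n) : yy n n ≠ yy n 0 := by
  intro h
  have h1 : {z : ZZ | ((n + 1 : ℕ) : ℤ) ∣ Multiplicative.toAdd z - ((n : ℕ) : ℤ)} =
      {z : ZZ | ((n + 1 : ℕ) : ℤ) ∣ Multiplicative.toAdd z - ((0 : ℕ) : ℤ)} :=
    congrArg (fun x : SS => x.1.1) h
  have h2 : Multiplicative.ofAdd (n : ℤ) ∈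
      {z : ZZ | ((n + 1 : ℕ) : ℤ) ∣ Multiplicative.toAdd z - ((0 : ℕ) : ℤ)} := by
    rw [← h1]; simp
  have h3 : ((n + 1 : ℕ) : ℤ) ∣ (n : ℤ) := by simpa using h2
  have h4 : n + 1 ∣ n := by exact_mod_cast h3
  have := Nat.le_of_dvd hn h4
  omega

lemma aa_ne : aa * aa ≠ aa := by
  intro h
  have h1 : B * B = B := congrArg (fun x : SS => x.1.2) h
  have : B ^ 2 ⊆ B ^ 1 := by rw [pow_two, h1, pow_one]
  have := B_le this
  omega


/-- The negation of the preceding statement: For every semigroup S: if each finitely generated subsemigroup of S embeds into the semigroup of all subsets of some torsion group, then S itself embeds into the semigroup of all subsets of some torsion group. -/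
theorem result :
    ¬ (∀ (S : Type) [Semigroup S],
      (∀ T : Subsemigroup S, (∃ F : Finset S, Subsemigroup.closure (F : Set S) = T) →
        ∃ (G : Type) (_ : Group G), Monoid.IsTorsion G ∧
          ∃ f : T →ₙ* Set G, Function.Injective f) →
      ∃ (G : Type) (_ : Group G), Monoid.IsTorsion G ∧
        ∃ f : S →ₙ* Set G, Function.Injective f) := by
  intro H
  obtain ⟨G, _, hG, f, hf⟩ := H SS (by
    rintro T ⟨F, rfl⟩
    obtain ⟨N, hN, hF⟩ := fin_level F
    have hle : Subsemigroup.closure (F : Set SS) ≤ SN N :=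
      Subsemigroup.closure_le.2 (fun x hx => hF x hx)
    refine ⟨Multiplicative (ZMod N) × TT, inferInstance, tors N hN,
      (phi N).comp ((MulMemClass.subtype SS).comp (MulMemClass.subtype _)), ?_⟩
    intro x y hxy
    exact Subtype.ext (Subtype.ext (phi_inj (hle x.2) (hle y.2) hxy)))
  have hA : (f aa).Nonempty := by
    rw [Set.nonempty_iff_ne_empty]
    intro h
    apply aa_ne
    apply hf
    rw [map_mul, h, Set.mul_empty]
  obtain ⟨g, hg⟩ := hA
  obtain ⟨n, hn, hgn⟩ := isOfFinOrder_iff_pow_eq_one.1 (hG g)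
  have step : ∀ j k : ℕ, ∀ h ∈ f (yy n j), h * g ^ k ∈ f (yy n (j + k)) := by
    intro j k h hh
    induction k with
    | zero => simpa using hh
    | succ k ih =>
      rw [← add_assoc, ← yy_mul, map_mul, pow_succ, ← mul_assoc]
      exact Set.mul_mem_mul ih hg
  apply yy_ne n hn
  apply hf
  apply Set.Subset.antisymm
  · intro h hh
    have := step n (n * n) h hh
    rw [pow_mul, hgn, one_pow, mul_one, show n + n * n = n * (n + 1) by ring, yy_per] at this
    exact this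
  · intro h hh
    have := step 0 n h hh
    rwa [hgn, mul_one, zero_add] at this

end Pool.Agent.S01968
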