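import Pool.Statements.S01974
import Pool.Agent.H.MP_77f213_al.C

set_option autoImplicit false
open Pool Pool.MP_77f213_al

namespace Pool.Agent.S01974

theorem result :
    ¬ (∀ (G X₀ X₁ : Type) [Group G] [MetricSpace X₀] [MetricSpace X₁]
      [ProperSpace X₀] [ProperSpace X₁] [Nonempty X₀] [Nonempty X₁]
      [MulAction G X₀] [MulAction G X₁] [IsIsometricSMul G X₀] [IsIsometricSMul G X₁]
      [ProperlyDiscontinuousSMul G X₀] [ProperlyDiscontinuousSMul G X₁],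
      (∀ x y : X₀, ∃ γ : ℝ → X₀, γ 0 = x ∧ γ (dist x y) = y ∧
        ∀ s ∈ Set.Icc (0:ℝ) (dist x y), ∀ t ∈ Set.Icc (0:ℝ) (dist x y),
          dist (γ s) (γ t) = |s - t|) →
      (∀ x y : X₁, ∃ γ : ℝ → X₁, γ 0 = x ∧ γ (dist x y) = y ∧
        ∀ s ∈ Set.Icc (0:ℝ) (dist x y), ∀ t ∈ Set.Icc (0:ℝ) (dist x y),
          dist (γ s) (γ t) = |s - t|) →
      (∃ K : Set X₀, IsCompact K ∧ ∀ x : X₀, ∃ g : G, g • x ∈ K) →
      (∃ K : Set X₁, IsCompact K ∧ ∀ x : X₁, ∃ g : G, g • x ∈ K) →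
      (∃ δ : ℝ, ∀ x y z w : X₀,
        min ((dist x w + dist y w - dist x y) / 2) ((dist y w + dist z w - dist y z) / 2) - δ
          ≤ (dist x w + dist z w - dist x z) / 2) →
      (∃ δ : ℝ, ∀ x y z w : X₁,
        min ((dist x w + dist y w - dist x y) / 2) ((dist y w + dist z w - dist y z) / 2) - δ
          ≤ (dist x w + dist z w - dist x z) / 2) →
      ∃ L : ℝ, 1 ≤ L ∧
        (∃ f : X₀ → X₁, ∃ c : ℝ,
          (∀ x y : X₀, dist x y / L - c ≤ dist (f x) (f y) ∧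
              dist (f x) (f y) ≤ L * dist x y + c) ∧
          ∀ z : X₁, ∃ x : X₀, dist (f x) z ≤ c) ∧
        ∀ L' : ℝ, 1 ≤ L' →
          (∃ f : X₀ → X₁, ∃ c : ℝ,
            (∀ x y : X₀, dist x y / L' - c ≤ dist (f x) (f y) ∧
                dist (f x) (f y) ≤ L' * dist x y + c) ∧
            ∀ z : X₁, ∃ x : X₀, dist (f x) z ≤ c) →
          L ≤ L') := by
  intro h
  open Pool.Agent.H.MP_77f213_al in
  have := proper s0
  open Pool.Agent.H.MP_77f213_al in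
  have := proper s1
  open Pool.Agent.H.MP_77f213_al in
  obtain ⟨L, h1, ⟨f, c, h2, h3⟩, h4⟩ := @h (G a0 a1) (X a0) (X a1) _ _ _ _ _ ⟨vx a0 []⟩ ⟨vx a1 []⟩
    _ _ act0.1 act1.1 act0.2.1 act1.2.1 geo geo act0.2.2 act1.2.2 ⟨0, hyp⟩ ⟨0, hyp⟩
  obtain rfl : L = 1 := le_antisymm (le_of_forall_gt_imp_ge_of_dense fun a ha =>
    h4 a ha.le (Pool.Agent.H.MP_77f213_al.yes a ha)) h1
  exact Pool.Agent.H.MP_77f213_al.no f c h2 h3

end Pool.Agent.S01974
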