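import Pool.Statements.S01976
-- import your own Pool.Agent.* helpers here

set_option autoImplicit false
open Pool Pool.MP_783016_al

namespace Pool.Agent.S01976

open Polynomial

abbrev K := (ZMod 2)[X]
abbrev B := K[X]

theorem four : ∀ c : K, c + c + c + c = 0 := fun c => by
  rw [CharTwo.add_self_eq_zero, zero_add, CharTwo.add_self_eq_zero]

theorem c1 (p q : B) : (p * q).coeff 1 = p.coeff 0 * q.coeff 1 + p.coeff 1 * q.coeff 0 := by
  rw [coeff_mul, Finset.Nat.antidiagonal_succ]
  simp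

noncomputable def AA : Subalgebra B (Fin 4 → B) where
  carrier := {P | (∀ i, (P i).coeff 0 = (P 0).coeff 0) ∧ ∑ i, (P i).coeff 1 = 0}
  mul_mem' := by
    rintro P Q ⟨h0, h1⟩ ⟨k0, k1⟩
    refine ⟨fun i => by simp [mul_coeff_zero, h0 i, k0 i], ?_⟩
    have : ∀ i, ((P * Q) i).coeff 1 =
        (P 0).coeff 0 * (Q i).coeff 1 + (P i).coeff 1 * (Q 0).coeff 0 := fun i => by
      rw [Pi.mul_apply, c1, h0 i, k0 i]
    simp only [this, Finset.sum_add_distrib, ← Finset.mul_sum, ← Finset.sum_mul, h1, k1]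
    simp
  add_mem' := by
    rintro P Q ⟨h0, h1⟩ ⟨k0, k1⟩
    exact ⟨fun i => by simp [h0 i, k0 i], by simp [Finset.sum_add_distrib, h1, k1]⟩
  algebraMap_mem' := fun r => ⟨fun i => rfl, by
    simp only [Pi.algebraMap_apply, Fin.sum_univ_four]
    exact four _⟩

instance : IsNoetherianRing AA := by
  have : Module.Finite B AA := Module.Finite.of_injective AA.val.toLinearMap Subtype.val_injective
  exact IsNoetherianRing.of_finite B AA

noncomputable def g : Fin 4 → K := ![1 + X, 1, X, 0]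

def Z (m : ℕ) : Prop := (1 + X : K) ^ m = 1 + X ^ m

theorem sum_g {m : ℕ} (hm : m ≠ 0) : ∑ i, g i ^ m = 0 ↔ Z m := by
  have : ∑ i, g i ^ m = (1 + X) ^ m + (1 + X ^ m) := by
    simp [Fin.sum_univ_four, g, hm, add_assoc]
  rw [this, CharTwo.add_eq_zero]; rfl

theorem Z_pow (k : ℕ) : Z (2 ^ k) := by
  unfold Z
  rw [add_pow_char_pow, one_pow]

theorem not_Z {k t : ℕ} (h0 : 0 < t) (h : t < 2 ^ k) : ¬ Z (2 ^ k + t) := by
  intro hz
  unfold Z at hz
  rw [pow_add, Z_pow k, add_mul, one_mul] at hz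
  have := congrArg (fun p : K => p.coeff t) hz
  simp only [coeff_add, coeff_X_pow_mul', coeff_one_add_X_pow, coeff_one, coeff_X_pow] at this
  rw [if_neg (by omega), if_neg (by omega), if_neg (by omega)] at this
  simp at this

noncomputable def u : AA := algebraMap B AA X

noncomputable def f : AA := ⟨fun i => X * C (g i), fun i => by simp, by
  have := (sum_g one_ne_zero).2 (by simp [Z])
  simpa using this⟩

theorem u_pow (n : ℕ) (i : Fin 4) : (u ^ n).1 i = X ^ n := by
  simp [u]

theorem f_pow (n : ℕ) (i : Fin 4) : (f ^ n).1 i = X ^ n * C (g i ^ n) := by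
  rw [C_pow, ← mul_pow]; rfl

open Classical in
noncomputable def v (m : ℕ) : ℕ := if Z m then m - 1 else m - 2

theorem dvd_iff {m : ℕ} (hm : 2 ≤ m) (n : ℕ) : u ^ n ∣ f ^ m ↔ n ≤ v m := by
  constructor
  · rintro ⟨h, e⟩
    have e1 : ∀ i, X ^ m * C (g i ^ m) = X ^ n * h.1 i := fun i => by
      rw [← f_pow, e, ← u_pow n i]; rfl
    have hlt : n < m := by
      by_contra hn
      obtain ⟨d, rfl⟩ := Nat.exists_eq_add_of_le (not_lt.1 hn)
      have e2 : ∀ i, C (g i ^ m) = (u ^ d * h).1 i := fun i => by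
        apply mul_left_cancel₀ (pow_ne_zero m (X_ne_zero (R := K)))
        rw [e1, pow_add, mul_assoc, ← u_pow d i]; rfl
      have e3 := ((u ^ d * h).2.1 1).trans ((u ^ d * h).2.1 3).symm
      rw [← e2, ← e2] at e3
      have h0 : m ≠ 0 := by omega
      simp [g, h0] at e3
    unfold v
    split_ifs with hz
    · omega
    · by_contra hn
      obtain rfl : m = n + 1 := by omega
      have e2 : ∀ i, X * C (g i ^ (n + 1)) = h.1 i := fun i => by
        apply mul_left_cancel₀ (pow_ne_zero n (X_ne_zero (R := K)))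
        rw [← e1, pow_succ X n, mul_assoc]
      have e3 := h.2.2
      simp only [← e2, coeff_X_mul, coeff_C_zero] at e3
      exact hz ((sum_g (by omega)).1 e3)
  · intro hn
    have h1 : n < m := by unfold v at hn; split_ifs at hn <;> omega
    obtain ⟨d, rfl⟩ := Nat.exists_eq_add_of_lt h1
    refine ⟨⟨fun i => X ^ (d + 1) * C (g i ^ (n + d + 1)), fun i => by simp [pow_succ'], ?_⟩, ?_⟩
    · rcases d with _ | d
      · unfold v at hn
        split_ifs at hn with hz
        · simpa only [zero_add, pow_one, coeff_X_mul, coeff_C_zero] using (sum_g (by omega)).2 hz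
        · omega
      · refine Finset.sum_eq_zero fun i _ => ?_
        rw [coeff_X_pow_mul', if_neg (by omega)]
    · refine Subtype.ext (funext fun i => ?_)
      rw [f_pow]
      change _ = (u ^ n).1 i * (X ^ (d + 1) * C (g i ^ (n + d + 1)))
      rw [u_pow, ← mul_assoc, ← pow_add, add_assoc]

theorem sup_eq {m : ℕ} (hm : 2 ≤ m) :
    sSup {n : ℕ | Ideal.span {f} ^ m ≤ Ideal.span {u} ^ n} = v m := by
  have : {n : ℕ | Ideal.span {f} ^ m ≤ Ideal.span {u} ^ n} = Set.Iic (v m) := by
    ext n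
    simp only [Set.mem_ofPred_eq, Ideal.span_singleton_pow, Ideal.span_singleton_le_span_singleton,
      dvd_iff hm, Set.mem_Iic]
  rw [this, csSup_Iic]

theorem result :
    ¬ (∀ (A : Type) [CommRing A] [IsNoetherianRing A] (I J : Ideal A),
      J ≤ I.radical → (∀ n : ℕ, I ^ n ≠ ⊥) → (⨅ n : ℕ, I ^ n) = ⊥ →
      (∀ m : ℕ, J ^ m ≠ ⊥) →
      ∃ t : ℕ, 0 < t ∧ ∃ M : ℕ, ∀ m : ℕ, M ≤ m →
        ((sSup {n : ℕ | J ^ (m + 1 + t) ≤ I ^ n} : ℕ) : ℤ)
            - ((sSup {n : ℕ | J ^ (m + t) ≤ I ^ n} : ℕ) : ℤ)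
          = ((sSup {n : ℕ | J ^ (m + 1) ≤ I ^ n} : ℕ) : ℤ)
            - ((sSup {n : ℕ | J ^ m ≤ I ^ n} : ℕ) : ℤ)) := by
  intro H
  obtain ⟨t, ht, M, hM⟩ := H AA (Ideal.span {u}) (Ideal.span {f}) (by
      rw [Ideal.span_le, Set.singleton_subset_iff]
      refine ⟨3, Ideal.mem_span_singleton.2 ?_⟩
      have := (dvd_iff (m := 3) (by norm_num) 1).2 (by unfold v; split_ifs <;> norm_num)
      rwa [pow_one] at this)
    (fun n h => by
      rw [Ideal.span_singleton_pow, Ideal.span_singleton_eq_bot] at h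
      have := u_pow n 0
      rw [h] at this
      exact pow_ne_zero n (X_ne_zero (R := K)) this.symm)
    (by
      rw [eq_bot_iff]
      intro x hx
      refine Subtype.ext (funext fun i => Polynomial.ext fun d => ?_)
      have h1 := (Submodule.mem_iInf _).1 hx (d + 1)
      rw [Ideal.span_singleton_pow, Ideal.mem_span_singleton] at h1
      obtain ⟨y, rfl⟩ := h1
      change ((u ^ (d + 1)).1 i * y.1 i).coeff d = 0
      rw [u_pow, coeff_X_pow_mul', if_neg (by omega)])
    (fun n h => by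
      rw [Ideal.span_singleton_pow, Ideal.span_singleton_eq_bot] at h
      have := f_pow n 1
      rw [h] at this
      simp [g] at this
      exact pow_ne_zero n (X_ne_zero (R := K)) this.symm)
  have hD : ∀ j m, M + 2 ≤ m → (v (m + j + t) : ℤ) - v (m + j) = v (m + t) - v m := by
    intro j m hm
    induction j with
    | zero => rfl
    | succ j ih =>
      have := hM (m + j) (by omega)
      rw [sup_eq (by omega), sup_eq (by omega), sup_eq (by omega), sup_eq (by omega)] at this
      rw [← add_assoc]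
      linarith
  have hk := Nat.lt_two_pow_self (n := M + 2 + t)
  set N := 2 ^ (M + 2 + t) with hN
  have h1 := hD (N - t) N (by omega)
  have e1 : N + (N - t) + t = 2 ^ (M + 2 + t + 1) := by rw [pow_succ]; omega
  have v1 : v (N + (N - t) + t) = N + (N - t) + t - 1 := by
    unfold v; rw [if_pos (by rw [e1]; exact Z_pow _)]
  have v2 : v (N + (N - t)) ≤ N + (N - t) - 1 := by unfold v; split_ifs <;> omega
  have v3 : v N = N - 1 := by unfold v; rw [if_pos (Z_pow _)]
  have v4 : v (N + t) = N + t - 2 := by unfold v; rw [if_neg (not_Z ht (by omega))]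
  omega

end Pool.Agent.S01976
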