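import Pool.Statements.S01992
import Pool.Agent.H.MP_791a91_al.Tree
import Pool.Agent.H.MP_791a91_al.Core

set_option autoImplicit false
open Pool Pool.MP_791a91_al

namespace Pool.Agent.S01992

theorem result :
    ¬ (∀ (d : ℕ) (G : Subgroup (Equiv.Perm (List (Fin d)))),
    Group.FG G →
    (∀ g ∈ G, g [] = []) →
    (∀ g ∈ G, ∀ x : Fin d, ∃ y : Fin d, ∃ h ∈ G, ∀ w : List (Fin d), g (x :: w) = y :: h w) →
    (∃ N : Finset (Equiv.Perm (List (Fin d))), ∀ g ∈ G, ∃ k : ℕ, ∀ v : List (Fin d),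
        k ≤ v.length → ∀ h ∈ G, (∀ w : List (Fin d), g (v ++ w) = g v ++ h w) → h ∈ N) →
    ∃ (m : ℕ) (R : Finset (FreeGroup (Fin m))) (Φ : Finset (Monoid.End (FreeGroup (Fin m)))),
      Nonempty (G ≃* PresentedGroup {x : FreeGroup (Fin m) |
        ∃ φ ∈ Submonoid.closure (Φ : Set (Monoid.End (FreeGroup (Fin m)))), ∃ r ∈ R, x = φ r})) := by
  intro h
  obtain ⟨a, b, c, d⟩ := H.MP_791a91_al.selfsim
  obtain ⟨m, R, Φ, ⟨e⟩⟩ := h _ _ a b c d
  refine H.MP_791a91_al.core ((H.MP_791a91_al.iso.trans e).symm.toMonoidHom.comp (PresentedGroup.mk _))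
    ((H.MP_791a91_al.iso.trans e).symm.surjective.comp (PresentedGroup.mk_surjective _)) R Φ fun w => ?_
  rw [← PresentedGroup.mk_eq_one_iff]
  exact map_eq_one_iff _ (H.MP_791a91_al.iso.trans e).symm.injective

end Pool.Agent.S01992
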