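import Pool.Statements.S01994
import Pool.Agent.H.MP_7925a1_al.B

set_option autoImplicit false
open Pool Pool.MP_7925a1_al

namespace Pool.Agent.S01994

theorem result :
    ¬ (∀ (G : Type) [Group G] (H : Subgroup G), H.FiniteIndex →
      (∃ S : Finset (FreeGroup ℕ),
        {w : FreeGroup ℕ | ∀ f : FreeGroup ℕ →* G, f w = 1} =
          ((Subgroup.closure
            {w : FreeGroup ℕ | ∃ s ∈ S, ∃ φ : FreeGroup ℕ →* FreeGroup ℕ, φ s = w}
            : Subgroup (FreeGroup ℕ)) : Set (FreeGroup ℕ))) →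
      ∃ S : Finset (FreeGroup ℕ),
        {w : FreeGroup ℕ | ∀ f : FreeGroup ℕ →* H, f w = 1} =
          ((Subgroup.closure
            {w : FreeGroup ℕ | ∃ s ∈ S, ∃ φ : FreeGroup ℕ →* FreeGroup ℕ, φ s = w}
            : Subgroup (FreeGroup ℕ)) : Set (FreeGroup ℕ))) := by
  intro h
  obtain ⟨Γ, _, H, h1, ⟨S, h2, h3⟩, h4⟩ := H.MP_7925a1_al.main
  obtain ⟨T, hT⟩ := h Γ H h1 ⟨S, Set.Subset.antisymm h3 fun w hw f =>
    (Subgroup.closure_le f.ker).2 (by rintro _ ⟨s, hs, ψ, rfl⟩; exact h2 s hs (f.comp ψ)) hw⟩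
  exact h4 ⟨T, fun s hs => hT.ge (Subgroup.subset_closure ⟨s, hs, MonoidHom.id _, rfl⟩),
    fun w hw => hT.le hw⟩

end Pool.Agent.S01994
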