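import Pool.Statements.S02003
import Pool.Agent.H.MP_79a327_al.Ring

set_option autoImplicit false
open Pool Pool.MP_79a327_al

namespace Pool.Agent.S02003

theorem result :
    ∃ (G : Type) (_ : Group G),
      (∃ P : Set G, (1 : G) ∈ P ∧ (∀ a ∈ P, ∀ b ∈ P, a * b ∈ P) ∧
        (∀ a ∈ P, a⁻¹ ∈ P → a = 1) ∧ (∀ a ∈ P, ∀ x : G, x⁻¹ * a * x ∈ P) ∧
        (∀ a : G, a ∈ P ∨ a⁻¹ ∈ P)) ∧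
      (∀ P : Set G, (1 : G) ∈ P → (∀ a ∈ P, ∀ b ∈ P, a * b ∈ P) →
        (∀ a ∈ P, a⁻¹ ∈ P → a = 1) → (∀ a ∈ P, ∀ x : G, x⁻¹ * a * x ∈ P) →
        (∀ a ∈ P, ∀ x : G, (x⁻¹ * a * x)⁻¹ * a ^ 2 ∈ P) →
        ∃ Q : Set G, P ⊆ Q ∧ (1 : G) ∈ Q ∧ (∀ a ∈ Q, ∀ b ∈ Q, a * b ∈ Q) ∧
          (∀ a ∈ Q, a⁻¹ ∈ Q → a = 1) ∧ (∀ a ∈ Q, ∀ x : G, x⁻¹ * a * x ∈ Q) ∧
          (∀ a : G, a ∈ Q ∨ a⁻¹ ∈ Q) ∧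
          (∀ a ∈ Q, ∀ x : G, (x⁻¹ * a * x)⁻¹ * a ^ 2 ∈ Q)) ∧
      ¬ (∀ P : Set G, (1 : G) ∈ P → (∀ a ∈ P, ∀ b ∈ P, a * b ∈ P) →
        (∀ a ∈ P, a⁻¹ ∈ P → a = 1) → (∀ a ∈ P, ∀ x : G, x⁻¹ * a * x ∈ P) →
        ∃ Q : Set G, P ⊆ Q ∧ (1 : G) ∈ Q ∧ (∀ a ∈ Q, ∀ b ∈ Q, a * b ∈ Q) ∧
          (∀ a ∈ Q, a⁻¹ ∈ Q → a = 1) ∧ (∀ a ∈ Q, ∀ x : G, x⁻¹ * a * x ∈ Q) ∧
          (∀ a : G, a ∈ Q ∨ a⁻¹ ∈ Q)) := by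
  open Pool.Agent.H.MP_79a327_al in
  refine ⟨rd.G, inferInstance, ?_, ?_, ?_⟩
  · obtain ⟨Q, -, h, ht⟩ := WA.total (RD.key (d := rd)) (P := {1})
      ⟨rfl, by simp, by simp, by simp, by simp⟩
    exact ⟨Q, h.one, h.mul, h.anti, h.conj, ht⟩
  · intro P h1 h2 h3 h4 h5
    obtain ⟨Q, hQ, h, ht⟩ := WA.total (RD.key (d := rd)) ⟨h1, h2, h3, h4, h5⟩
    exact ⟨Q, hQ, h.one, h.mul, h.anti, h.conj, ht, h.wa⟩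
  · intro H
    obtain ⟨a1, a2, a3, a4⟩ := rd.P0
    obtain ⟨Q, hQ, -, h2, h3, h4, h5⟩ := H _ a1 a2 a3 a4
    exact rd.not_Ostar h2 h3 h4 h5 fun g b1 b2 b3 b4 => hQ (Or.inr ⟨b1, b2, b3, b4⟩)

end Pool.Agent.S02003
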