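import Pool.Statements.S02012
-- import your own Pool.Agent.* helpers here

set_option autoImplicit false
open Pool Pool.MP_79f901_al

namespace Pool.Agent.S02012


noncomputable section
open Equiv

abbrev W := List (ZMod 2)

/-- tree automorphisms of the binary tree with level one forgotten, acting on level two by translations -/
def Γ : Subgroup (Perm W) where
  carrier := {g | (∀ w, (g w).length = w.length) ∧
    (∀ w n, 2 ≤ n → g (w.take n) = (g w).take n) ∧ (∀ x, g [x] = [x]) ∧
    ∃ a b, ∀ x y, g [x, y] = [x + a, y + b]}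
  one_mem' := ⟨fun _ => rfl, fun _ _ _ => rfl, fun _ => rfl, 0, 0, by simp⟩
  mul_mem' := by
    rintro g h ⟨g1, g2, g3, a, b, g4⟩ ⟨h1, h2, h3, c, d, h4⟩
    refine ⟨fun w => by simp [g1, h1], fun w n hn => by simp [g2 _ _ hn, h2 _ _ hn],
      fun x => by simp [g3, h3], c + a, d + b, fun x y => by simp [g4, h4, add_assoc]⟩
  inv_mem' := by
    rintro g ⟨g1, g2, g3, a, b, g4⟩
    refine ⟨fun w => by simpa using (g1 (g⁻¹ w)).symm, fun w n hn => ?_, fun x => ?_, -a, -b,
      fun x y => ?_⟩
    · apply g.injective; rw [g2 _ _ hn]; simp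
    · apply g.injective; simp [g3]
    · apply g.injective; rw [g4, neg_add_cancel_right, neg_add_cancel_right]; simp

def A (g : Γ) : ZMod 2 := (g.1 [0, 0]).headD 0

theorem A_spec (g : Γ) : ∃ b, ∀ x y, g.1 [x, y] = [x + A g, y + b] := by
  obtain ⟨-, -, -, a, b, h⟩ := g.2
  refine ⟨b, fun x y => ?_⟩
  simp [A, h]

theorem A_mul (g h : Γ) : A (g * h) = A h + A g := by
  obtain ⟨b, hb⟩ := A_spec g
  obtain ⟨c, hc⟩ := A_spec h
  conv_lhs => unfold A
  simp [hb, hc]

theorem A_one : A 1 = 0 := rfl

def f (g : Γ) : W → W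
  | [x] => [x + A g]
  | w => g.1 w

theorem f_single (g : Γ) (x : ZMod 2) : f g [x] = [x + A g] := rfl

theorem f_ne (g : Γ) (w : W) (h : w.length ≠ 1) : f g w = g.1 w := by
  match w, h with
  | [], _ => rfl
  | [_], h => exact absurd rfl h
  | _ :: _ :: _, _ => rfl

theorem f_length (g : Γ) (w : W) : (f g w).length = w.length := by
  by_cases h : w.length = 1
  · obtain ⟨x, rfl⟩ := List.length_eq_one_iff.1 h; rfl
  · rw [f_ne _ _ h, g.2.1]

theorem f_mul (g h : Γ) (w : W) : f (g * h) w = f g (f h w) := by
  by_cases hw : w.length = 1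
  · obtain ⟨x, rfl⟩ := List.length_eq_one_iff.1 hw
    simp [f_single, A_mul, add_assoc]
  · rw [f_ne _ _ hw, f_ne _ _ (by rwa [f_length]), f_ne _ _ hw]; rfl

theorem f_one (w : W) : f 1 w = w := by
  by_cases hw : w.length = 1
  · obtain ⟨x, rfl⟩ := List.length_eq_one_iff.1 hw
    simp [f_single, A_one]
  · rw [f_ne _ _ hw]; rfl

theorem f_inj (g : Γ) : Function.Injective (f g) := by
  intro v w h
  have := congrArg (f g⁻¹) h
  rwa [← f_mul, ← f_mul, inv_mul_cancel, f_one, f_one] at this

theorem f_take (g : Γ) (w : W) (n : ℕ) : f g (w.take n) = (f g w).take n := by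
  match w, n with
  | w, 0 =>
    have := f_length g []
    simpa using this
  | [], n =>
    have h : f g [] = [] := by simpa using f_length g []
    simp [h]
  | [x], n + 1 => simp [f_single]
  | x :: y :: r, 1 =>
    obtain ⟨b, hb⟩ := A_spec g
    have h2 := g.2.2.1 (x :: y :: r) 2 le_rfl
    have h3 : (g.1 (x :: y :: r)).take 1 = ((g.1 (x :: y :: r)).take 2).take 1 := by
      simp [List.take_take]
    rw [f_ne g (x :: y :: r) (by simp), h3, ← h2]
    simp [hb, f_single]
  | x :: y :: r, n + 2 =>
    rw [f_ne _ _ (by simp), f_ne _ _ (by simp), g.2.2.1 _ _ (by omega)]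

theorem f_pre (g : Γ) (v w : W) : v <+: w ↔ f g v <+: f g w := by
  rw [List.prefix_iff_eq_take, List.prefix_iff_eq_take, f_length, ← f_take]
  exact ⟨fun h => congrArg _ h, fun h => f_inj g h⟩

def xr (d : ℕ → ZMod 2) (w : W) : W := w.mapIdx fun i x => x + d i

theorem xr_xr (d : ℕ → ZMod 2) (w : W) : xr d (xr d w) = w := by
  apply List.ext_getElem (by simp [xr])
  intro i h1 h2
  simp only [xr, List.getElem_mapIdx, add_assoc]
  rw [CharTwo.add_self_eq_zero, add_zero]

theorem xr_length (d : ℕ → ZMod 2) (w : W) : (xr d w).length = w.length := by simp [xr]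

def xp (d : ℕ → ZMod 2) : Perm W :=
  Function.Involutive.toPerm (fun w => if w.length = 1 then w else xr d w) (by
    intro w
    by_cases h : w.length = 1 <;> simp [h, xr_length, xr_xr])

theorem xp_apply (d : ℕ → ZMod 2) (w : W) : xp d w = if w.length = 1 then w else xr d w := rfl

def xg (d : ℕ → ZMod 2) : Γ := ⟨xp d, by
  refine ⟨fun w => ?_, fun w n hn => ?_, fun x => by simp [xp_apply], d 0, d 1, fun x y => ?_⟩
  · rw [xp_apply]; split_ifs <;> simp [xr_length]
  · rw [xp_apply, xp_apply]
    by_cases h : w.length = 1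
    · rw [List.take_of_length_le (by omega)]; simp [h, List.take_of_length_le (show w.length ≤ n by omega)]
    · have : (w.take n).length ≠ 1 := by simp; omega
      rw [if_neg h, if_neg this]
      apply List.ext_getElem (by simp [xr])
      intro i h1 h2
      simp [xr]
  · simp [xp_apply, xr]⟩

theorem f_xg (d : ℕ → ZMod 2) (w : W) : f (xg d) w = xr d w := by
  by_cases hw : w.length = 1
  · obtain ⟨x, rfl⟩ := List.length_eq_one_iff.1 hw
    simp [f_single, A, xg, xp_apply, xr]
  · rw [f_ne _ _ hw]; simp [xg, xp_apply, hw]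

def sw : W → W
  | x :: y :: r => y :: x :: r
  | w => w

theorem sw_sw (w : W) : sw (sw w) = w := by
  match w with
  | [] => rfl
  | [_] => rfl
  | _ :: _ :: _ => rfl

theorem sw_length (w : W) : (sw w).length = w.length := by
  match w with
  | [] => rfl
  | [_] => rfl
  | _ :: _ :: _ => rfl

theorem sw_take (w : W) (n : ℕ) (hn : 2 ≤ n) : sw (w.take n) = (sw w).take n := by
  obtain ⟨n, rfl⟩ := Nat.exists_eq_add_of_le' hn
  match w with
  | [] => rfl
  | [_] => rfl
  | _ :: _ :: _ => rfl

def sp : Perm W := Function.Involutive.toPerm sw sw_sw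

theorem sp_apply (w : W) : sp w = sw w := rfl
theorem sp_sp : sp * sp = 1 := by ext1 w; exact sw_sw w

def cj (g : Γ) : Γ := ⟨sp * g.1 * sp, by
  obtain ⟨g1, g2, g3, a, b, g4⟩ := g.2
  refine ⟨fun w => by simp [sp_apply, sw_length, g1], fun w n hn => ?_, fun x => ?_, b, a,
    fun x y => ?_⟩
  · simp [sp_apply, sw_take _ _ hn, g2 _ _ hn]
  · simp [sp_apply, sw, g3]
  · simp [sp_apply, sw, g4]⟩

theorem cj_cj (g : Γ) : cj (cj g) = g := by
  apply Subtype.ext
  show sp * (sp * g.1 * sp) * sp = g.1
  rw [← mul_assoc, ← mul_assoc, sp_sp, one_mul, mul_assoc, sp_sp, mul_one]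

def cjE : Γ ≃* Γ where
  toFun := cj
  invFun := cj
  left_inv := cj_cj
  right_inv := cj_cj
  map_mul' g h := by
    apply Subtype.ext
    show sp * (g.1 * h.1) * sp = (sp * g.1 * sp) * (sp * h.1 * sp)
    simp only [mul_assoc]
    rw [← mul_assoc sp sp, sp_sp, one_mul]

section rist
variable (N : ℕ) (hN : 2 ≤ N) (g : Γ) (hg : ∀ u : W, u.length = N → g.1 u = u)
include hN hg

theorem inv_take (S : Set W) (hS : ∀ u ∈ S, u.length = N) (w : W) :
    (g.1 w).take N ∈ S ↔ w.take N ∈ S := by
  rw [← g.2.2.1 _ _ hN]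
  constructor
  · intro h
    have := hS _ h
    rw [g.2.1] at this
    rwa [hg _ this] at h
  · intro h
    rwa [hg _ (hS _ h)]

theorem fix_short (w : W) (hw : w.length ≤ N) : g.1 w = w := by
  by_cases h2 : 2 ≤ w.length
  · have h := g.2.2.1 (w ++ List.replicate (N - w.length) 0) w.length h2
    rw [hg (w ++ List.replicate (N - w.length) 0) (by simp; omega)] at h
    simpa using h
  · match w, h2 with
    | [], _ => simpa using g.2.1 []
    | [x], _ => exact g.2.2.2.1 x
    | _ :: _ :: _, h => exact absurd (by simp) h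

open Classical in
def rs (S : Set W) (hS : ∀ u ∈ S, u.length = N) : Γ :=
  ⟨Perm.ofSubtype (g.1.subtypePerm (p := fun w => w.take N ∈ S) (inv_take N hN g hg S hS)), by
    have e : ∀ w, Perm.ofSubtype (g.1.subtypePerm (p := fun w => w.take N ∈ S)
        (inv_take N hN g hg S hS)) w = if w.take N ∈ S then g.1 w else w := by
      intro w
      split_ifs with h
      · exact Perm.ofSubtype_apply_of_mem (p := fun w : W => w.take N ∈ S) _ h
      · exact Perm.ofSubtype_apply_of_not_mem (p := fun w : W => w.take N ∈ S) _ h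
    refine ⟨fun w => ?_, fun w n hn => ?_, fun x => ?_, 0, 0, fun x y => ?_⟩
    · rw [e]; split_ifs <;> simp [g.2.1]
    · rw [e, e]
      by_cases h : N ≤ n
      · rw [List.take_take, min_eq_left h]
        split_ifs
        · exact g.2.2.1 _ _ hn
        · rfl
      · have h1 : g.1 (w.take n) = w.take n := fix_short N hN g hg _ (by simp; omega)
        rw [h1]
        split_ifs
        · rw [← g.2.2.1 _ _ hn, h1]
        · rfl
        · rw [← g.2.2.1 _ _ hn, h1]
        · rfl
    · rw [e, g.2.2.2.1]; simp
    · rw [e, fix_short N hN g hg _ (by simpa using hN)]; simp⟩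

open Classical in
theorem rs_apply (S : Set W) (hS : ∀ u ∈ S, u.length = N) (w : W) :
    (rs N hN g hg S hS).1 w = if w.take N ∈ S then g.1 w else w := by
  unfold rs
  split_ifs with h
  · exact Perm.ofSubtype_apply_of_mem (p := fun w : W => w.take N ∈ S) _ h
  · exact Perm.ofSubtype_apply_of_not_mem (p := fun w : W => w.take N ∈ S) _ h

theorem rist_mem (K : Subgroup Γ)
    (hK : ∀ h : Γ, ∀ u : W, u.length = N → (∀ w, ¬ u <+: w → h.1 w = w) → h ∈ K) : g ∈ K := by
  classical
  have key : ∀ S : Finset W, ∀ hS : ∀ u ∈ (S : Set W), u.length = N, rs N hN g hg S hS ∈ K := by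
    intro S
    induction S using Finset.induction_on with
    | empty =>
      intro hS
      have : rs N hN g hg (∅ : Finset W) hS = 1 := by
        apply Subtype.ext; ext1 w; rw [rs_apply]; simp
      rw [this]; exact K.one_mem
    | insert u S hu ih =>
      intro hS
      have hS1 : ∀ v ∈ (S : Set W), v.length = N := fun v hv => hS v (by simp [Finset.mem_coe.1 hv])
      have hS2 : ∀ v ∈ ({u} : Set W), v.length = N := fun v hv => hS v (by
        simp [Set.mem_singleton_iff.1 hv])
      have : rs N hN g hg (insert u S : Finset W) hS =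
          rs N hN g hg {u} hS2 * rs N hN g hg S hS1 := by
        apply Subtype.ext; ext1 w
        simp only [Subgroup.coe_mul, Perm.mul_apply, rs_apply]
        have i1 := inv_take N hN g hg {u} hS2 w
        by_cases h1 : w.take N = u
        · have : w.take N ∉ S := h1 ▸ hu
          simp [h1, hu]
        · by_cases h2 : w.take N ∈ S
          · have : ¬ (g.1 w).take N = u := fun h => h1 (i1.1 h)
            simp [h2, this]
          · simp [h1, h2]
      rw [this]
      refine K.mul_mem (hK _ u (hS2 u rfl) fun w hw => ?_) (ih hS1)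
      rw [rs_apply, if_neg]
      intro h
      apply hw
      rw [← Set.mem_singleton_iff.1 h]
      exact List.take_prefix _ _
  have hfin : {u : W | u.length = N}.Finite := List.finite_length_eq _ N
  have := key hfin.toFinset (by simp)
  convert this using 1
  apply Subtype.ext; ext1 w
  rw [rs_apply]
  split_ifs with h
  · rfl
  · apply fix_short N hN g hg
    simp at h; omega

end rist

abbrev V := {l : List ℕ // ∀ i (h : i < l.length), l.get ⟨i, h⟩ < (fun _ : ℕ => 2) i}

def e : W ≃ V where
  toFun w := ⟨w.map ZMod.val, by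
    intro i h
    simp only [List.get_eq_getElem, List.getElem_map]
    exact ZMod.val_lt _⟩
  invFun v := v.1.map (fun n : ℕ => (n : ZMod 2))
  left_inv w := by simp [List.map_map, Function.comp_def]
  right_inv v := by
    apply Subtype.ext
    apply List.ext_getElem (by simp)
    intro i h1 h2
    simp only [List.getElem_map]
    exact ZMod.val_cast_of_lt (v.2 i h2)

theorem e_length (w : W) : (e w).1.length = w.length := by simp [e]

theorem e_pre (v w : W) : (e v).1 <+: (e w).1 ↔ v <+: w := by
  show v.map ZMod.val <+: w.map ZMod.val ↔ _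
  exact List.prefix_map_iff_of_injective (ZMod.val_injective 2)

def ι : Γ →* Perm V := MonoidHom.toHomPerm
  { toFun := fun g v => e (f g (e.symm v))
    map_one' := by funext v; simp [f_one]; rfl
    map_mul' := by intro g h; funext v; simp [f_mul, Function.End.mul_def] }

theorem ι_apply (g : Γ) (w : W) : ι g (e w) = e (f g w) := by
  show e (f g (e.symm (e w))) = _
  simp

theorem ι_inj : Function.Injective ι := by
  rw [injective_iff_map_eq_one]
  intro g hg
  apply Subtype.ext; ext1 w
  have h := ι_apply g w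
  rw [hg] at h
  have h' : f g w = w := (e.injective h).symm
  by_cases hw : w.length = 1
  · obtain ⟨x, rfl⟩ := List.length_eq_one_iff.1 hw
    exact g.2.2.2.1 x
  · rwa [f_ne _ _ hw] at h'

theorem result :
    ¬ (∀ (m : ℕ → ℕ), (∀ n, 2 ≤ m n) →
    ∀ L : Subgroup (Equiv.Perm {l : List ℕ // ∀ i (h : i < l.length), l.get ⟨i, h⟩ < m i}),
    (∀ g ∈ L, ∀ v w : {l : List ℕ // ∀ i (h : i < l.length), l.get ⟨i, h⟩ < m i},
        (List.IsPrefix v.1 w.1 ↔ List.IsPrefix (g v).1 (g w).1)) →
    (∀ v w : {l : List ℕ // ∀ i (h : i < l.length), l.get ⟨i, h⟩ < m i},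
        v.1.length = w.1.length → ∃ g ∈ L, g v = w) →
    (∀ n : ℕ, ((Subgroup.closure
        {g : Equiv.Perm {l : List ℕ // ∀ i (h : i < l.length), l.get ⟨i, h⟩ < m i} |
          g ∈ L ∧ ∃ u : {l : List ℕ // ∀ i (h : i < l.length), l.get ⟨i, h⟩ < m i},
            u.1.length = n ∧
            ∀ v : {l : List ℕ // ∀ i (h : i < l.length), l.get ⟨i, h⟩ < m i},
              ¬ List.IsPrefix u.1 v.1 → g v = v}).subgroupOf L).index ≠ 0) →
    ∀ φ : L ≃* L,
      ∃! σ : Equiv.Perm {l : List ℕ // ∀ i (h : i < l.length), l.get ⟨i, h⟩ < m i},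
        (∀ v w : {l : List ℕ // ∀ i (h : i < l.length), l.get ⟨i, h⟩ < m i},
          (List.IsPrefix v.1 w.1 ↔ List.IsPrefix (σ v).1 (σ w).1)) ∧
        ∀ g : L, ((φ g : L) : Equiv.Perm {l : List ℕ // ∀ i (h : i < l.length), l.get ⟨i, h⟩ < m i})
          = σ * (g : Equiv.Perm {l : List ℕ // ∀ i (h : i < l.length), l.get ⟨i, h⟩ < m i}) * σ⁻¹) := by
  intro h
  have H := h (fun _ => 2) (fun _ => le_rfl) ι.range ?_ ?_ ?_
    ((MonoidHom.ofInjective ι_inj).symm.trans (cjE.trans (MonoidHom.ofInjective ι_inj)))
  · obtain ⟨σ, ⟨-, hσ⟩, -⟩ := H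
    let d : ℕ → ZMod 2 := fun i => if i = 0 then 1 else 0
    have h1 := hσ (MonoidHom.ofInjective ι_inj (xg d))
    simp only [MulEquiv.trans_apply, MulEquiv.symm_apply_apply, MonoidHom.ofInjective_apply] at h1
    have fix : ∀ w : W, f (cj (xg d)) w = w → σ⁻¹ (e w) = e [] := by
      intro w hw
      have h2 := DFunLike.congr_fun h1 (e w)
      have h3 : ι (cjE (xg d)) (e w) = e w := by
        rw [ι_apply]; exact congrArg e hw
      rw [h3] at h2
      obtain ⟨u, hu⟩ := e.surjective (σ⁻¹ (e w))
      have h4 : ι (xg d) (e u) = e u := by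
        rw [hu]
        apply σ.injective
        simpa using h2.symm
      rw [ι_apply, f_xg] at h4
      have h5 := e.injective h4
      rw [← hu]
      match u, h5 with
      | [], _ => rfl
      | x :: r, h5 =>
        exfalso
        simp [xr, d] at h5
    have a1 := fix [] (by simpa using f_length _ [])
    have a2 := fix [0] (by simp [f_single, A, cj, sp_apply, sw, xg, xp_apply, xr, d])
    have := e.injective (σ⁻¹.injective (a1.trans a2.symm))
    simp at this
  · rintro _ ⟨g, rfl⟩ v w
    obtain ⟨v, rfl⟩ := e.surjective v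
    obtain ⟨w, rfl⟩ := e.surjective w
    rw [ι_apply, ι_apply, e_pre, e_pre, ← f_pre]
  · intro v w hvw
    obtain ⟨v, rfl⟩ := e.surjective v
    obtain ⟨w, rfl⟩ := e.surjective w
    rw [e_length, e_length] at hvw
    refine ⟨_, ⟨xg fun i => w.getD i 0 - v.getD i 0, rfl⟩, ?_⟩
    rw [ι_apply, f_xg]
    congr 1
    apply List.ext_getElem (by simp [xr, hvw])
    intro i h1 h2
    have h3 : i < v.length := by omega
    simp [xr, List.getD_eq_getElem?_getD, h2, h3]
  · intro n
    have hfin : {v : V | v.1.length = n + 2}.Finite := by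
      have := (List.finite_length_eq (ZMod 2) (n + 2)).image e
      refine this.subset fun v hv => ⟨e.symm v, ?_, by simp⟩
      have := e_length (e.symm v)
      simp only [Equiv.apply_symm_apply] at this
      exact this.symm.trans hv
    haveI := hfin.to_subtype
    have hfi : (⨅ v : {v : V | v.1.length = n + 2},
        MulAction.stabilizer ι.range (v : V)).FiniteIndex := by
      apply Subgroup.finiteIndex_iInf
      intro v
      constructor
      rw [MulAction.index_stabilizer]
      refine Set.ncard_ne_zero_of_mem (MulAction.mem_orbit_self _) (hfin.subset ?_)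
      rintro _ ⟨⟨_, g, rfl⟩, rfl⟩
      obtain ⟨w, hw⟩ := e.surjective v.1
      have hv : v.1.1.length = n + 2 := v.2
      show (ι g v.1).1.length = n + 2
      rw [← hw] at hv ⊢
      rw [ι_apply, e_length, f_length, ← e_length, hv]
    refine (Subgroup.finiteIndex_of_le (H := ⨅ v : {v : V | v.1.length = n + 2},
        MulAction.stabilizer ι.range (v : V)) ?_).index_ne_zero
    rintro ⟨_, g, rfl⟩ hg
    rw [Subgroup.mem_iInf] at hg
    rw [Subgroup.mem_subgroupOf]
    refine Subgroup.mem_comap.1 <| rist_mem (n + 2) (by omega) g ?_ (Subgroup.comap ι _) ?_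
    · intro u hu
      have := hg ⟨e u, by simpa [e_length] using hu⟩
      have h2 : ι g (e u) = e u := this
      rw [ι_apply, f_ne _ _ (by omega)] at h2
      exact e.injective h2
    · intro k u hu hk
      apply Subgroup.subset_closure
      refine ⟨⟨k, rfl⟩, e (u.take n), by simp [e_length, hu], fun v hv => ?_⟩
      obtain ⟨v, rfl⟩ := e.surjective v
      rw [e_pre] at hv
      rw [ι_apply]
      congr 1
      by_cases hw : v.length = 1
      · obtain ⟨x, rfl⟩ := List.length_eq_one_iff.1 hw
        have : A k = 0 := by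
          have h0 := k.2.2.1 u 2 le_rfl
          have hlen : ∀ w : W, w.length = n + 2 → w ≠ u → k.1 w = w := by
            intro w hw1 hw2
            apply hk
            intro hp
            exact hw2 (hp.eq_of_length (by omega)).symm
          obtain ⟨b, hb⟩ := A_spec k
          match u, hu with
          | y :: z :: r, hu =>
            have h1 := hlen ((y + 1) :: z :: r) (by simpa using hu) (by simp)
            have h2 := k.2.2.1 ((y + 1) :: z :: r) 2 le_rfl
            rw [h1] at h2
            simp [hb] at h2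
            exact h2.1
        simp [f_single, this]
      · rw [f_ne _ _ hw]
        exact hk _ fun hp => hv ((List.take_prefix _ _).trans hp)

end
end Pool.Agent.S02012
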