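import Pool.Statements.S02025
import Pool.Agent.H.MP_7ab5f9_al.A

set_option autoImplicit false
open Pool Pool.MP_7ab5f9_al

namespace Pool.Agent.S02025

open Pool.Agent.H.MP_4f47f1_al Pool.Agent.H.MP_58728c_al Pool.Agent.H.MP_7ab5f9_al

lemma toPhi (E : Cl)
    (a : ∀ (X Y : Type) [Group X] [Group Y] [Finite X], E X →
      ∀ f : X →* Y, Function.Surjective f → E Y)
    (b : ∀ (X : Type) [Group X] [Finite X] (N₁ N₂ : Subgroup X) [N₁.Normal] [N₂.Normal],
      E (X ⧸ N₁) → E (X ⧸ N₂) → E (X ⧸ (N₁ ⊓ N₂))) : Phi fun X _ => Finite X ∧ E X := by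
  refine ⟨fun _ _ h => h.1, ?_, ?_⟩
  · rintro X Y _ _ f hf ⟨_, h⟩
    exact ⟨Finite.of_surjective f hf, a X Y h f hf⟩
  · rintro X _ N1 N2 _ _ hb ⟨f1, x1⟩ ⟨f2, x2⟩
    have := phi_fin.2.2 X N1 N2 hb f1 f2
    exact ⟨this, a _ _ (b X N1 N2 x1 x2) ((QuotientGroup.quotientMulEquivOfEq hb).trans
      QuotientGroup.quotientBot).toMonoidHom ((QuotientGroup.quotientMulEquivOfEq hb).trans
      QuotientGroup.quotientBot).surjective⟩

/-- For every finite group G, every nonempty formation of finite groups contained in the formation generated by G is itself generated by a single finite group K, i.e. on finite groups it equals the smallest formation containing K. -/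
theorem result :
    ∀ (G : Type) [Group G] [Finite G] (F : ∀ (X : Type), [Group X] → Prop),
      (∀ (X Y : Type) [Group X] [Group Y] [Finite X], F X →
          ∀ f : X →* Y, Function.Surjective f → F Y) →
      (∀ (X : Type) [Group X] [Finite X] (N₁ N₂ : Subgroup X) [N₁.Normal] [N₂.Normal],
          F (X ⧸ N₁) → F (X ⧸ N₂) → F (X ⧸ (N₁ ⊓ N₂))) →
      (∃ (X : Type) (inst : Group X), Finite X ∧ @F X inst) →
      (∀ (H : Type) [Group H] [Finite H], F H →
        ∀ (E : ∀ (X : Type), [Group X] → Prop),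
          (∀ (X Y : Type) [Group X] [Group Y] [Finite X], E X →
              ∀ f : X →* Y, Function.Surjective f → E Y) →
          (∀ (X : Type) [Group X] [Finite X] (N₁ N₂ : Subgroup X) [N₁.Normal] [N₂.Normal],
              E (X ⧸ N₁) → E (X ⧸ N₂) → E (X ⧸ (N₁ ⊓ N₂))) →
          E G → E H) →
      ∃ (K : Type) (instK : Group K), Finite K ∧
        ∀ (H : Type) [Group H] [Finite H],
          (F H ↔
            ∀ (E : ∀ (X : Type), [Group X] → Prop),
              (∀ (X Y : Type) [Group X] [Group Y] [Finite X], E X →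
                  ∀ f : X →* Y, Function.Surjective f → E Y) →
              (∀ (X : Type) [Group X] [Finite X] (N₁ N₂ : Subgroup X) [N₁.Normal] [N₂.Normal],
                  E (X ⧸ N₁) → E (X ⧸ N₂) → E (X ⧸ (N₁ ⊓ N₂))) →
              @E K instK → E H) := by
  rintro G _ _ F a b ⟨X, _, hX⟩ h
  have p := phi_VV G
  obtain ⟨K, _, _, k1, k2⟩ := Pool.Agent.H.MP_7ab5f9_al.main G
    ⟨_, toPhi F a b, (toPhi F a b).triv hX⟩ fun X _ hX => by
      have := hX.1
      exact h X hX.2 (VV G) (fun _ _ _ _ _ x f hf => p.2.1 _ _ f hf x)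
        (fun _ _ _ N1 N2 _ _ x1 x2 => p.qr (QuotientGroup.mk' N1) (QuotientGroup.mk' N2)
          (QuotientGroup.mk' _) (QuotientGroup.mk'_surjective _) (QuotientGroup.mk'_surjective _)
          (QuotientGroup.mk'_surjective _) x1 x2 (by simp [QuotientGroup.ker_mk'])) (VV_self G)
  exact ⟨K, _, inferInstance, fun H _ _ => ⟨fun hH E c d e =>
    (k2 H ⟨inferInstance, hH⟩ _ (toPhi E c d) ⟨inferInstance, e⟩).2, fun hH => hH F a b k1.2⟩⟩

end Pool.Agent.S02025
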