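import Pool.Statements.S02054
import Pool.Agent.H.MP_7ddd63_al.A
import Pool.Agent.H.MP_7ddd63_al.B
import Pool.Agent.H.MP_7ddd63_al.C

set_option autoImplicit false
open Pool Pool.MP_7ddd63_al

namespace Pool.Agent.S02054

theorem result :
    ¬ (∀ (A : Type) (R : Set (List A × List A)) (w : List A),
    (∀ p ∈ R, p.1 ≠ [] ∧ p.2 ≠ []) → w ≠ [] →
    ∀ (src tgt : List A × (List A × List A) × List A × Bool → List A),
    (∀ (x u v y : List A) (b : Bool), src (x, (u, v), y, b) = x ++ (if b then u else v) ++ y) →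
    (∀ (x u v y : List A) (b : Bool), tgt (x, (u, v), y, b) = x ++ (if b then v else u) ++ y) →
    ∀ (path : List (List A × (List A × List A) × List A × Bool) → Prop),
    (∀ l, path l ↔ ((∀ s ∈ l, s.2.1 ∈ R) ∧
        ∀ (i : ℕ) (s t : List A × (List A × List A) × List A × Bool),
          l[i]? = some s → l[i+1]? = some t → tgt s = src t)) →
    ∀ (loop : List (List A × (List A × List A) × List A × Bool) → Prop),
    (∀ l, loop l ↔ (path l ∧ (∀ s ∈ l.head?, src s = w) ∧ (∀ s ∈ l.getLast?, tgt s = w))) →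
    ∀ (move : List (List A × (List A × List A) × List A × Bool) →
        List (List A × (List A × List A) × List A × Bool) → Prop),
    (∀ a b, move a b ↔ (path a ∧ path b ∧
       ((∃ (p q : List (List A × (List A × List A) × List A × Bool)) (x u v y : List A) (c : Bool),
            a = p ++ q ∧ b = p ++ [(x, (u, v), y, c), (x, (u, v), y, !c)] ++ q) ∨
        (∃ (p q : List (List A × (List A × List A) × List A × Bool)) (x u₁ v₁ y u₂ v₂ z : List A),
            a = p ++ [(x, (u₁, v₁), y ++ u₂ ++ z, true), (x ++ v₁ ++ y, (u₂, v₂), z, true)] ++ q ∧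
            b = p ++ [(x ++ u₁ ++ y, (u₂, v₂), z, true), (x, (u₁, v₁), y ++ v₂ ++ z, true)] ++ q)))) →
    ((∃ (V : Type) (Γ : SimpleGraph V)
        (f : List (List A × (List A × List A) × List A × Bool) →
          PresentedGroup {r : FreeGroup V | ∃ s t, Γ.Adj s t ∧
            r = FreeGroup.of s * FreeGroup.of t * (FreeGroup.of s)⁻¹ * (FreeGroup.of t)⁻¹}),
        (∀ p q, loop p → loop q → f (p ++ q) = f p * f q) ∧
        (∀ p q, loop p → loop q → (f p = f q ↔ Quot.mk move p = Quot.mk move q)))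
     ↔ ¬ ∃ g : SemidirectProduct (Multiplicative (ℤ →₀ ℤ)) (Multiplicative ℤ)
            (zpowersHom (MulAut (Multiplicative (ℤ →₀ ℤ)))
              (AddEquiv.toMultiplicative
                (Finsupp.domCongr (Equiv.addRight (1 : ℤ)) : (ℤ →₀ ℤ) ≃+ (ℤ →₀ ℤ)))) →
            List (List A × (List A × List A) × List A × Bool),
          (∀ a, loop (g a)) ∧
          (∀ a b, Quot.mk move (g (a * b)) = Quot.mk move (g a ++ g b)) ∧
          (∀ a b, Quot.mk move (g a) = Quot.mk move (g b) → a = b))) := by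
  intro hH
  have hR : ∀ p ∈ H.MP_8a4945_al.R0, p.1 ≠ [] ∧ p.2 ≠ [] := by
    rintro _ (rfl | rfl | rfl | rfl) <;> decide
  let X := H.MP_7ddd63_al.sys hR [0, 1, 2]
  let o := H.MP_7ddd63_al.cls H.MP_8a4945_al.R0 [0, 1, 2] []
  have ho : X.word o = [0, 1, 2] := H.MP_7ddd63_al.wd_cls (l := []) trivial
  obtain ⟨el, e1, e2, e3⟩ := H.MP_7ddd63_al.link (R := H.MP_8a4945_al.R0) (w := [0, 1, 2])
  have lp : ∀ p q, H.MP_7ddd63_al.loop H.MP_8a4945_al.R0 [0, 1, 2] p → H.MP_7ddd63_al.loop H.MP_8a4945_al.R0 [0, 1, 2] q →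
      H.MP_7ddd63_al.loop H.MP_8a4945_al.R0 [0, 1, 2] (p ++ q) := by
    simp only [H.MP_7ddd63_al.loop_iff]
    exact fun _ _ => H.MP_7ddd63_al.lp_app
  obtain ⟨V, Γ, f, f1, f2⟩ := (hH _ _ [0, 1, 2] hR (by decide) H.MP_7ddd63_al.sr H.MP_7ddd63_al.tg (fun _ _ _ _ _ => rfl)
    (fun _ _ _ _ _ => rfl) (H.MP_7ddd63_al.path _) (fun _ => Iff.rfl) (H.MP_7ddd63_al.loop _ _) (fun _ => Iff.rfl)
    (H.MP_7ddd63_al.move _) (fun _ _ => Iff.rfl)).2 fun ⟨g, g1, g2, g3⟩ =>
      (H.MP_8a4945_al.edge0 X ho).no_wr o ((MonoidHom.mk' (fun a => el (g a)) fun a b =>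
        ((e2 _ _ (g1 _) (lp _ _ (g1 a) (g1 b))).2 (g2 a b)).trans (e1 _ _ (g1 a) (g1 b))).comp SemidirectProduct.inl)
        fun a b h => SemidirectProduct.inl_injective (g3 _ _ ((e2 _ _ (g1 _) (g1 _)).1 h))
  choose s s1 s2 using e3
  let φ := MonoidHom.mk' (fun a => f (s a)) fun a b => ((f2 _ _ (s1 _) (lp _ _ (s1 a) (s1 b))).2
    ((e2 _ _ (s1 _) (lp _ _ (s1 a) (s1 b))).1 (by rw [e1 _ _ (s1 a) (s1 b), s2, s2, s2]))).trans (f1 _ _ (s1 a) (s1 b))
  have hφ : Function.Injective φ := fun a b h => by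
    rw [← s2 a, ← s2 b]
    exact (e2 _ _ (s1 a) (s1 b)).2 ((f2 _ _ (s1 a) (s1 b)).1 h)
  obtain ⟨g, k, τ, c1, c2⟩ := H.MP_8a4945_al.elts X ho
  refine c2 (hφ ?_)
  rw [map_mul, map_mul]
  exact H.MP_7ddd63_al.raag Γ (t := φ τ) fun n i => by simpa using (c1 n i).map φ

end Pool.Agent.S02054
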