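import Pool.Statements.S02080
import Pool.Agent.H.MP_7ffbdd_al.B

set_option autoImplicit false
open Pool Pool.MP_7ffbdd_al

namespace Pool.Agent.S02080
open Finset Pool.Agent.H.MP_16c276_co Pool.Agent.H.MP_cf6e1a_co Pool.Agent.H.MP_7ffbdd_al

def A (i : Fin 43) (l : List ℕ) : Set (Finset (Fin 43)) := {τ | ∃ m ∈ l, bl i m = τ}

theorem o {i : Fin 43} (k : ℕ) (h : k ≤ 43) (f : ℕ) : Q k (A i [f]) := by
  convert one h (bl i f)
  simp [A, eq_comm]

theorem step {i : Fin 43} {k f : ℕ} {t : List ℕ} (g : List ℕ) (hk : k ≤ 43)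
    (h : (∀ r ∈ g, f &&& r = r ∧ ∃ m ∈ t, m &&& r = r) ∧ ∀ m ∈ t, ∃ r ∈ g, r &&& (f &&& m) = f &&& m)
    (a : Q k (A i t)) (b : Q (k + 1) (A i g)) : Q k (A i (f :: t)) := by
  convert rule (one hk (bl i f)) a b fun ρ => ⟨?_, ?_⟩
  · ext
    simp [A, eq_comm]
  · rintro ⟨_, ⟨r, c, rfl⟩, d⟩
    obtain ⟨e, m, p, q⟩ := h.1 r c
    exact ⟨⟨_, rfl, d.trans (image_subset_image (sub1 e))⟩, _, ⟨m, p, rfl⟩,
      d.trans (image_subset_image (sub1 q))⟩
  · rintro ⟨⟨_, rfl, c⟩, _, ⟨m, d, rfl⟩, e⟩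
    obtain ⟨r, p, q⟩ := h.2 m d
    refine ⟨_, ⟨r, p, rfl⟩, fun v hv => ?_⟩
    obtain ⟨x, y, rfl⟩ := mem_image.1 (c hv)
    exact mem_bl.2 (sub1 q (dec_and ▸ mem_inter.2 ⟨y, mem_bl.1 (e hv)⟩))

theorem gad (i : Fin 43) : Q 41 (A i L) :=
  (step [25, 56] (by decide) (by decide) (step [28, 52] (by decide) (by decide) (step [84, 88] (by decide) (by decide) (step [100, 112] (by decide) (by decide) (step [81] (by decide) (by decide) (step [67, 82] (by decide) (by decide) (step [98] (by decide) (by decide) (step [70] (by decide) (by decide) (o _ (by decide) 71)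
    (o _ (by decide) 70))
    (o _ (by decide) 98))
    (step [66] (by decide) (by decide) (o _ (by decide) 82)
    (o _ (by decide) 66)))
    (o _ (by decide) 81))
    (step [96] (by decide) (by decide) (o _ (by decide) 112)
    (o _ (by decide) 96)))
    (step [80] (by decide) (by decide) (o _ (by decide) 88)
    (o _ (by decide) 80)))
    (step [20] (by decide) (by decide) (o _ (by decide) 52)
    (o _ (by decide) 20)))
    (step [24] (by decide) (by decide) (o _ (by decide) 56)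
    (o _ (by decide) 24)))

theorem star (T : Finset (Fin 43)) : Q 42 (insert {0} {τ | ∃ v ∈ T, {0, v} = τ}) := by
  induction T using Finset.induction with
  | empty => simpa using one (by decide) _
  | insert v T h ih =>
    convert rule (one (by decide) {0, v}) ih (one le_rfl {0}) fun ρ => ⟨?_, ?_⟩ using 1
    · ext
      simp only [Set.mem_insert_iff, Set.mem_ofPred_eq, mem_insert, Set.mem_union, Set.mem_singleton_iff]
      grind
    · rintro ⟨_, rfl, a⟩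
      exact ⟨⟨_, rfl, a.trans (by simp)⟩, _, Or.inl rfl, a⟩
    · rintro ⟨⟨_, rfl, a⟩, _, rfl | ⟨w, b, rfl⟩, c⟩
      · exact ⟨_, rfl, c⟩
      · refine ⟨_, rfl, fun x hx => ?_⟩
        have := a hx
        have := c hx
        grind

theorem glob (B : Finset (Fin 43)) : Q 41 (insert {0} {τ | ∃ i ∈ B, τ ∈ A i L}) := by
  have z : ∀ i x, ∃ m ∈ L, {0, ph i x} ⊆ bl i m := fun i x => ((c1.2 x).2.2).imp fun m a => ⟨a.1, by
    simpa [bl, p0.1] using image_subset_image (f := ph i) a.2⟩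
  induction B using Finset.induction with
  | empty => simpa using one (by decide) _
  | insert i B h ih =>
    convert rule (gad i) ih (star (univ.filter fun v => ∃ x, ph i x = v ∧ ∃ j ∈ B, ph j x = v))
      fun ρ => ⟨?_, ?_⟩ using 1
    · ext
      simp only [Set.mem_insert_iff, Set.mem_ofPred_eq, mem_insert, Set.mem_union]
      grind
    · rintro ⟨_, rfl | ⟨_, a, rfl⟩, b⟩
      · obtain ⟨m, c, d⟩ := z i 0
        exact ⟨⟨_, ⟨m, c, rfl⟩, b.trans (Subset.trans (by simp) d)⟩, _, Or.inl rfl, b⟩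
      · obtain ⟨x, rfl, j, c, d⟩ := (mem_filter.1 a).2
        obtain ⟨m, e, f⟩ := z i x
        obtain ⟨m', e', f'⟩ := z j x
        exact ⟨⟨_, ⟨m, e, rfl⟩, b.trans f⟩, _, Or.inr ⟨j, c, m', e', rfl⟩, b.trans (d ▸ f')⟩
    · rintro ⟨⟨_, ⟨m, -, rfl⟩, a⟩, _, rfl | ⟨j, b, m', -, rfl⟩, c⟩
      · exact ⟨_, Or.inl rfl, c⟩
      by_cases d : ρ ⊆ {0}
      · exact ⟨_, Or.inl rfl, d⟩
      obtain ⟨v, e, f⟩ := not_subset.1 d
      obtain ⟨x, -, rfl⟩ := mem_image.1 (a e)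
      obtain ⟨y, -, g⟩ := mem_image.1 (c e)
      obtain rfl := p1 g
      refine ⟨_, Or.inr ⟨_, mem_filter.2 ⟨mem_univ _, y, rfl, j, b, g⟩, rfl⟩, fun w k => ?_⟩
      obtain ⟨u, -, rfl⟩ := mem_image.1 (a k)
      by_contra q
      exact h (two (fun r => by simp [r, p0.1] at f) (fun r => by simp [r, p0.1] at q)
        (fun r => by simp [r] at q) (c e) (c k) ▸ b)


/-- The negation of the preceding statement: For every nonzero monomial ideal I in K[x1..xn], any I-regular sequence of length d in the maximal ideal gives a Stanley decomposition of I (a partition of its monomials into cones u·K[Z]) with every ∣Z∣ at least d, i.e. sdepth I ≥ depth I. -/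
theorem result :
    ¬ (∀ (n : ℕ) (K : Type) [Field K] (I : Ideal (MvPolynomial (Fin n) K)),
      (∃ s : Set (Fin n →₀ ℕ),
        I = Ideal.span ((fun a => MvPolynomial.monomial a (1 : K)) '' s)) →
      I ≠ ⊥ →
      ∀ rs : List (MvPolynomial (Fin n) K),
        (∀ r ∈ rs, MvPolynomial.constantCoeff r = 0) →
        RingTheory.Sequence.IsRegular (↥I) rs →
        ∃ D : Finset ((Fin n →₀ ℕ) × Finset (Fin n)),
          (∀ p ∈ D, rs.length ≤ p.2.card) ∧
          (∀ p ∈ D, ∀ b : Fin n →₀ ℕ, b.support ⊆ p.2 →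
            MvPolynomial.monomial (p.1 + b) (1 : K) ∈ I) ∧
          ∀ a : Fin n →₀ ℕ, MvPolynomial.monomial a (1 : K) ∈ I →
            ∃! p, p ∈ D ∧ ∃ b : Fin n →₀ ℕ, b.support ⊆ p.2 ∧ a = p.1 + b) := by
  intro H
  have m : ∀ b : Fin 43 →₀ ℕ, MvPolynomial.monomial b 1 ∈ J (insert {0} {τ | ∃ i ∈ univ, τ ∈ A i L}) ↔
      G (zs b) := fun b => mon_J.trans ⟨by
    rintro ⟨_, rfl | ⟨i, -, m, a, rfl⟩, c⟩
    exacts [⟨0, 57, by decide, c.trans (by decide)⟩, ⟨i, m, a, c⟩],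
    fun ⟨i, m, a, c⟩ => ⟨_, Or.inr ⟨i, mem_univ _, m, a, rfl⟩, c⟩⟩
  have ne : J (insert {0} {τ | ∃ i ∈ univ, τ ∈ A i L}) ≠ ⊥ := fun e => by
    have := (m (Finsupp.equivFunOnFinite.symm 1)).2 ⟨0, 57, by decide, by simp [zs]⟩
    rw [e] at this
    simp at this
  obtain ⟨rs, r1, r2, r3⟩ := fin (glob univ) ne
  obtain ⟨D, d1, d2, d3⟩ := H 43 ℚ _ ⟨_, rfl⟩ ne rs r2 r3
  have k : ∀ (p : (Fin 43 →₀ ℕ) × Finset (Fin 43)) (a : Fin 43 →₀ ℕ), cn p.1 p.2 a ↔
      ∃ b : Fin 43 →₀ ℕ, b.support ⊆ p.2 ∧ a = p.1 + b := fun p a => ⟨fun h => ⟨a - p.1, fun j e =>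
        by_contra fun f => by simp [(h j).2 f] at e, (add_tsub_cancel_of_le fun j =>
          (em _).elim (h j).1 fun e => ((h j).2 e).ge).symm⟩, by
      rintro ⟨b, c, rfl⟩ j
      exact ⟨by simp, fun e => by simpa using Finsupp.notMem_support_iff.1 fun f => e (c f)⟩⟩
  refine core2 (· ∈ D) (fun p => p.1) Prod.snd (fun p h => ⟨r1 ▸ d1 p h, (m _).1
    (add_zero p.1 ▸ d2 p h 0 (by simp))⟩) (fun b h => ?_) fun b p q c d e f => ?_ <;>
    obtain ⟨b, rfl⟩ := Finsupp.equivFunOnFinite.surjective b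
  · obtain ⟨p, c, -⟩ := d3 b ((m b).2 h)
    exact ⟨p, c.1, (k p b).2 c.2⟩
  · obtain ⟨x, y, z⟩ := (k p b).1 e
    exact (d3 b (z ▸ d2 p c x y)).unique ⟨c, x, y, z⟩ ⟨d, (k q b).1 f⟩

end Pool.Agent.S02080
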