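import Pool.Statements.S02098
import Pool.Agent.H.MP_81db1e_al.Main

set_option autoImplicit false
open Pool Pool.MP_81db1e_al

namespace Pool.Agent.S02098

theorem result :
    ¬ (∀ (k : Type) [Field k] [CharZero k] (R : Type) [Ring R] [Algebra k R],
      (∃ (F : Type) (_ : Field F) (_ : Algebra k F) (A : Type) (_ : Ring A)
          (_ : Algebra F A) (_ : Algebra k A) (_ : IsScalarTower k F A)
          (_ : FiniteDimensional F A) (φ : R →ₐ[k] A), Function.Injective φ) →
      ∃ (F : Type) (_ : Field F) (_ : Algebra k F) (A : Type) (_ : Ring A)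
          (_ : Algebra F A) (_ : Algebra k A) (_ : IsScalarTower k F A)
          (_ : FiniteDimensional F A) (φ : R →ₐ[k] A),
        Function.Injective φ ∧
        ∀ (F' : Type) [Field F'] [Algebra k F'] (A' : Type) [Ring A'] [Algebra F' A']
          [Algebra k A'] [IsScalarTower k F' A'] [FiniteDimensional F' A']
          (φ' : R →ₐ[k] A'), Function.Injective φ' →
          ∀ (ι : Type) (r : ι → R),
            ¬ LinearIndependent F' (fun i => φ' (r i)) →
            ¬ LinearIndependent F (fun i => φ (r i))) := by
  intro h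
  have key : ∀ (k : Type) [Field k] [CharZero k], False := by
    intro k _ _
    obtain ⟨F, iF, aF, A, iA, aA, aA', t, fd, φ, hφ, hh⟩ :=
      h k (Polynomial k × Polynomial k) ⟨RatFunc k, inferInstance, inferInstance,
        RatFunc k × RatFunc k, inferInstance, inferInstance, inferInstance, inferInstance,
        inferInstance, H.MP_81db1e_al.rep (0 : k), H.MP_81db1e_al.rep_inj (0 : k)⟩
    exact H.MP_81db1e_al.not_both φ hφ
      (hh _ _ _ (H.MP_81db1e_al.rep_inj (0 : k)) _ _ (H.MP_81db1e_al.dep 0))
      (hh _ _ _ (H.MP_81db1e_al.rep_inj (1 : k)) _ _ (H.MP_81db1e_al.dep 1))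
  exact key ℚ

end Pool.Agent.S02098
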