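import Pool.Statements.S02146
import Pool.Agent.H.MP_84bb83_al.E

set_option autoImplicit false
open Pool Pool.MP_84bb83_al

namespace Pool.Agent.S02146

open Pool.Agent.H.MP_4f47f1_al Pool.Agent.H.MP_44c8f1_al Pool.Agent.H.MP_58728c_al
  Pool.Agent.H.MP_84bb83_al

def Fo (M : Cl) : Prop :=
  (∀ (A B : Type) [Group A] [Group B], Nonempty (A ≃* B) → M A → M B) ∧ M Unit ∧
    (∀ (G : Type) [Group G] [Finite G] (N : Subgroup G) [N.Normal], M G → M (G ⧸ N)) ∧
    (∀ (G : Type) [Group G] [Finite G] (N₁ N₂ : Subgroup G) [N₁.Normal] [N₂.Normal],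
      M (G ⧸ N₁) → M (G ⧸ N₂) → M (G ⧸ (N₁ ⊓ N₂)))

def toNF (M : Cl) (h : Fo M) : NF where
  mem := fun G _ => Finite G ∧ M G
  ok := by
    refine ⟨fun _ _ h => h.1, ?_, ?_⟩
    · rintro G K _ _ f hf ⟨_, hG⟩
      exact ⟨Finite.of_surjective f hf,
        h.1 _ _ ⟨QuotientGroup.quotientKerEquivOfSurjective f hf⟩ (h.2.2.1 G f.ker hG)⟩
    · rintro G _ N1 N2 _ _ hb ⟨a, x1⟩ ⟨b, x2⟩
      have := phi_fin.2.2 G N1 N2 hb a b
      exact ⟨this, h.1 _ _ ⟨(QuotientGroup.quotientMulEquivOfEq hb).trans QuotientGroup.quotientBot⟩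
        (h.2.2.2 G N1 N2 x1 x2)⟩
  ne := ⟨inferInstance, h.2.1⟩

lemma ofNF (A : NF) : Fo A.mem :=
  ⟨fun _ _ _ _ ⟨e⟩ h => A.ok.iso e h, A.ne,
    fun _ _ _ N _ h => A.ok.2.1 _ _ (QuotientGroup.mk' N) (QuotientGroup.mk'_surjective N) h,
    fun _ _ _ N1 N2 _ _ x1 x2 => A.ok.qr (QuotientGroup.mk' N1) (QuotientGroup.mk' N2)
      (QuotientGroup.mk' _) (QuotientGroup.mk'_surjective _) (QuotientGroup.mk'_surjective _)
      (QuotientGroup.mk'_surjective _) x1 x2 (by simp [QuotientGroup.ker_mk'])⟩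

lemma res_iff (M H : Cl) (h : Fo H) (G : Type) [Group G] [Finite G] :
    (∀ (R : Subgroup G) [R.Normal], H (G ⧸ R) →
      (∀ (N : Subgroup G) [N.Normal], H (G ⧸ N) → R ≤ N) → M R) ↔ M (res (toNF H h).mem G) := by
  have key : ∀ (N : Subgroup G) [N.Normal], H (G ⧸ N) → res (toNF H h).mem G ≤ N :=
    fun N _ hN => sInf_le ⟨inferInstance, inferInstance, hN⟩
  refine ⟨fun h1 => h1 _ (res_mem (toNF H h) G).2 key, fun h1 R _ h2 h3 => ?_⟩
  rwa [le_antisymm (h3 _ (res_mem (toNF H h) G).2) (key R h2)]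

/-- The negation of the preceding statement: There is a saturated (equivalently local) formation of finite groups that equals a product MH of two formations both different from (1), and whenever it equals such a product MH, neither M nor H is saturated. -/
theorem result :
    ¬ (∃ F : (G : Type) → [Group G] → Prop,
      ((∀ (A B : Type) [Group A] [Group B], Nonempty (A ≃* B) → F A → F B) ∧
        F Unit ∧
        (∀ (G : Type) [Group G] [Finite G] (N : Subgroup G) [N.Normal], F G → F (G ⧸ N)) ∧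
        (∀ (G : Type) [Group G] [Finite G] (N₁ N₂ : Subgroup G) [N₁.Normal] [N₂.Normal],
          F (G ⧸ N₁) → F (G ⧸ N₂) → F (G ⧸ (N₁ ⊓ N₂)))) ∧
      (∀ (G : Type) [Group G] [Finite G], F (G ⧸ frattini G) → F G) ∧
      (∃ (M H : (G : Type) → [Group G] → Prop),
        ((∀ (A B : Type) [Group A] [Group B], Nonempty (A ≃* B) → M A → M B) ∧
          M Unit ∧
          (∀ (G : Type) [Group G] [Finite G] (N : Subgroup G) [N.Normal], M G → M (G ⧸ N)) ∧
          (∀ (G : Type) [Group G] [Finite G] (N₁ N₂ : Subgroup G) [N₁.Normal] [N₂.Normal],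
            M (G ⧸ N₁) → M (G ⧸ N₂) → M (G ⧸ (N₁ ⊓ N₂)))) ∧
        ((∀ (A B : Type) [Group A] [Group B], Nonempty (A ≃* B) → H A → H B) ∧
          H Unit ∧
          (∀ (G : Type) [Group G] [Finite G] (N : Subgroup G) [N.Normal], H G → H (G ⧸ N)) ∧
          (∀ (G : Type) [Group G] [Finite G] (N₁ N₂ : Subgroup G) [N₁.Normal] [N₂.Normal],
            H (G ⧸ N₁) → H (G ⧸ N₂) → H (G ⧸ (N₁ ⊓ N₂)))) ∧
        (∃ (G : Type) (_ : Group G), Finite G ∧ Nontrivial G ∧ M G) ∧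
        (∃ (G : Type) (_ : Group G), Finite G ∧ Nontrivial G ∧ H G) ∧
        (∀ (G : Type) [Group G] [Finite G],
          F G ↔ ∀ (R : Subgroup G) [R.Normal], H (G ⧸ R) →
            (∀ (N : Subgroup G) [N.Normal], H (G ⧸ N) → R ≤ N) → M ↥R)) ∧
      (∀ (M H : (G : Type) → [Group G] → Prop),
        ((∀ (A B : Type) [Group A] [Group B], Nonempty (A ≃* B) → M A → M B) ∧
          M Unit ∧
          (∀ (G : Type) [Group G] [Finite G] (N : Subgroup G) [N.Normal], M G → M (G ⧸ N)) ∧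
          (∀ (G : Type) [Group G] [Finite G] (N₁ N₂ : Subgroup G) [N₁.Normal] [N₂.Normal],
            M (G ⧸ N₁) → M (G ⧸ N₂) → M (G ⧸ (N₁ ⊓ N₂)))) →
        ((∀ (A B : Type) [Group A] [Group B], Nonempty (A ≃* B) → H A → H B) ∧
          H Unit ∧
          (∀ (G : Type) [Group G] [Finite G] (N : Subgroup G) [N.Normal], H G → H (G ⧸ N)) ∧
          (∀ (G : Type) [Group G] [Finite G] (N₁ N₂ : Subgroup G) [N₁.Normal] [N₂.Normal],
            H (G ⧸ N₁) → H (G ⧸ N₂) → H (G ⧸ (N₁ ⊓ N₂)))) →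
        (∃ (G : Type) (_ : Group G), Finite G ∧ Nontrivial G ∧ M G) →
        (∃ (G : Type) (_ : Group G), Finite G ∧ Nontrivial G ∧ H G) →
        (∀ (G : Type) [Group G] [Finite G],
          F G ↔ ∀ (R : Subgroup G) [R.Normal], H (G ⧸ R) →
            (∀ (N : Subgroup G) [N.Normal], H (G ⧸ N) → R ≤ N) → M ↥R) →
        (¬ ∀ (G : Type) [Group G] [Finite G], M (G ⧸ frattini G) → M G) ∧
        (¬ ∀ (G : Type) [Group G] [Finite G], H (G ⧸ frattini G) → H G))) := by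
  rintro ⟨F, -, hs, ⟨M, H, hM, hH, nM, nH, hF⟩, hall⟩
  have e1 : ∀ (G : Type) [Group G] [Finite G], F G ↔ (toNF M hM * toNF H hH).mem G := fun G _ _ =>
    (hF G).trans ((res_iff M H hH G).trans
      ⟨fun h => ⟨inferInstance, inferInstance, h⟩, fun h => h.2.2⟩)
  have s1 : Sat (toNF M hM * toNF H hH).mem := fun G _ _ h => (e1 G).1 (hs G ((e1 _).2 h))
  have e2 := fin_main s1
  by_cases hL : LL (toNF M hM) (toNF H hH) = 1
  · rw [hL, one_mul] at e2
    rw [e2] at s1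
    exact (hall M H hM hH nM nH hF).2 fun G _ _ h => (s1 G ⟨inferInstance, h⟩).2
  · obtain ⟨S, _, a, b⟩ := exists_simple _ hL
    refine (hall _ H (ofNF _) hH ⟨S, _, b.1, inferInstance, b⟩ nH fun G _ _ => ?_).1 (sat_LL _ _)
    rw [e1, e2, res_iff _ H hH]
    exact ⟨fun h => h.2, fun h => ⟨inferInstance, h⟩⟩

end Pool.Agent.S02146
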