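import Pool.Statements.S02174
import Pool.Agent.H.MP_874ce0_al.B

set_option autoImplicit false
open Pool Pool.MP_874ce0_al

namespace Pool.Agent.S02174

def RL {L : Type} (σ : L → L) (w : List L) (a b : FreeMonoid L) : Prop :=
  (∃ u : FreeMonoid L, a = u * FreeMonoid.ofList ((FreeMonoid.toList u).reverse.map σ) * u ∧ b = u) ∨
  (∃ u v : FreeMonoid L, a = u * FreeMonoid.ofList ((FreeMonoid.toList u).reverse.map σ) *
      (v * FreeMonoid.ofList ((FreeMonoid.toList v).reverse.map σ)) ∧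
    b = v * FreeMonoid.ofList ((FreeMonoid.toList v).reverse.map σ) * (u * FreeMonoid.ofList ((FreeMonoid.toList u).reverse.map σ))) ∨
  (a = FreeMonoid.ofList w ∧ b = 1)

theorem tr {L M : Type} {σ : L → L} {τ : M → M} (f : L → M) (h : ∀ x, f (σ x) = τ (f x)) {w w' x y} (e : w.map f = w')
    (k : conGen (RL σ w) x y) : conGen (RL τ w') (FreeMonoid.map f x) (FreeMonoid.map f y) := by
  have a : ∀ u, FreeMonoid.map f (.ofList ((FreeMonoid.toList u).reverse.map σ)) =
      .ofList ((FreeMonoid.toList (FreeMonoid.map f u)).reverse.map τ) := fun u => by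
    simp [FreeMonoid.toList_map, ← FreeMonoid.ofList_map, Function.comp_def, h]
  refine (show conGen (RL σ w) ≤ (conGen (RL τ w')).comap _ (FreeMonoid.map f).map_mul from Con.conGen_le.2 fun x y k => .of _ _ ?_) k
  obtain ⟨u, b, c⟩ | ⟨u, v, b, c⟩ | ⟨b, c⟩ := k <;> rw [b, c]
  · exact .inl ⟨FreeMonoid.map f u, by simp only [map_mul, a], rfl⟩
  · exact .inr (.inl ⟨FreeMonoid.map f u, FreeMonoid.map f v, by simp only [map_mul, a], by simp only [map_mul, a]⟩)
  · exact .inr (.inr ⟨e ▸ rfl, rfl⟩)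

open Pool.Agent.H.MP_874ce0_al in
theorem result :
    ¬ (∀ (n : ℕ) (w : List (Fin n ⊕ Fin n)) (c : Con (FreeMonoid (Fin n ⊕ Fin n))),
      c = conGen (fun a b : FreeMonoid (Fin n ⊕ Fin n) =>
        (∃ u : FreeMonoid (Fin n ⊕ Fin n),
          a = u * FreeMonoid.ofList ((FreeMonoid.toList u).reverse.map Sum.swap) * u ∧ b = u) ∨
        (∃ u v : FreeMonoid (Fin n ⊕ Fin n),
          a = u * FreeMonoid.ofList ((FreeMonoid.toList u).reverse.map Sum.swap) *
              (v * FreeMonoid.ofList ((FreeMonoid.toList v).reverse.map Sum.swap)) ∧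
          b = v * FreeMonoid.ofList ((FreeMonoid.toList v).reverse.map Sum.swap) *
              (u * FreeMonoid.ofList ((FreeMonoid.toList u).reverse.map Sum.swap))) ∨
        (a = FreeMonoid.ofList w ∧ b = 1)) →
      ComputablePred (fun x : List (Fin n ⊕ Fin n) => c (FreeMonoid.ofList x) 1) →
      ComputablePred (fun p : List (Fin n ⊕ Fin n) × List (Fin n ⊕ Fin n) =>
        c (FreeMonoid.ofList p.1) (FreeMonoid.ofList p.2))) := by
  intro H
  obtain ⟨Q, _, Tr, q0, q1, loc, hu⟩ := rat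
  obtain ⟨α, e, a1, a2, a3, a4, a5⟩ := wp
  obtain ⟨k, ⟨eq⟩⟩ := Finite.exists_equiv_fin Q
  let := Primcodable.ofEquiv _ eq
  obtain ⟨w, h1, h2⟩ := main r0 some (·.getD true) (fun _ => rfl) α a1 a2 a3 e a4 a5 Tr loc q0 q1 hu
  obtain ⟨n, ⟨ex⟩⟩ := Finite.exists_equiv_fin (Bool ⊕ Option Q)
  let f : (Bool ⊕ Option Q) × Bool → Fin n ⊕ Fin n := fun x => cond x.2 (.inl (ex x.1)) (.inr (ex x.1))
  let g : Fin n ⊕ Fin n → (Bool ⊕ Option Q) × Bool := Sum.elim (fun i => (ex.symm i, true)) fun i => (ex.symm i, false)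
  have fg : ∀ x, f (g x) = x := by rintro (_ | _) <;> simp [f, g]
  have gf : ∀ x, g (f x) = x := by rintro ⟨_, _ | _⟩ <;> simp [f, g]
  have eR : Rel w = RL (fun x => (x.1, !x.2)) w := by
    ext a b
    simp only [Pool.Agent.H.MP_874ce0_al.Rel, RL, FreeGroup.invRev, List.map_reverse]
    rfl
  have key : ∀ x y, conGen (RL Sum.swap (w.map f)) (.ofList x) (.ofList y) ↔ q w (x.map g) = q w (y.map g) := fun x y => by
    rw [q, q, Con.coe_mk', Con.eq, eR]
    refine ⟨tr g (by rintro (_ | _) <;> rfl) (by simp [Function.comp_def, gf]), fun h => ?_⟩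
    simpa [← FreeMonoid.ofList_map, Function.comp_def, fg] using tr (τ := Sum.swap) f (by rintro ⟨_, _ | _⟩ <;> rfl) rfl h
  have pf : Primrec (List.map f) := Primrec.list_map .id ((Primrec.dom_finite f).comp .snd).to₂
  have pg : Primrec (List.map g) := Primrec.list_map .id ((Primrec.dom_finite g).comp .snd).to₂
  obtain ⟨c, hc, h⟩ := ComputablePred.computable_iff.1 h1
  obtain ⟨d, hd, h'⟩ := ComputablePred.computable_iff.1 (H n (w.map f) _ rfl (ComputablePred.computable_iff.2
    ⟨_, hc.comp pg.to_comp, funext fun x => (propext (key x [])).trans (congrFun h _)⟩))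
  refine h2 (ComputablePred.computable_iff.2 ⟨_, hd.comp ((pf.comp .fst).pair (pf.comp .snd)).to_comp, funext fun p => ?_⟩)
  rw [← congrFun h']
  refine propext (Iff.trans ?_ (key ..).symm)
  simp [Function.comp_def, gf]

end Pool.Agent.S02174
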