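import Pool.Statements.S02185
import Pool.Agent.H.MP_8823bb_al.B

set_option autoImplicit false
open Pool Pool.MP_8823bb_al

namespace Pool.Agent.S02185

/-- For every n > 4, the group generated by the Burau matrices of the braid generators and their inverses (the image of B_n, i.e. B_n modulo the Burau kernel) has no nontrivial element of finite order. -/
theorem result :
    ∀ n : ℕ, 4 < n →
      ∀ M ∈ Submonoid.closure
        {A : Matrix (Fin n) (Fin n) (LaurentPolynomial ℤ) |
          ∃ i : ℕ, i + 1 < n ∧
            (A = Matrix.of (fun (a b : Fin n) =>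
                if ((a : ℕ) = i ∧ (b : ℕ) = i) then (1 - LaurentPolynomial.T 1 : LaurentPolynomial ℤ)
                else if ((a : ℕ) = i ∧ (b : ℕ) = i + 1) then (LaurentPolynomial.T 1 : LaurentPolynomial ℤ)
                else if ((a : ℕ) = i + 1 ∧ (b : ℕ) = i) then (1 : LaurentPolynomial ℤ)
                else if ((a : ℕ) = i + 1 ∧ (b : ℕ) = i + 1) then (0 : LaurentPolynomial ℤ)
                else if a = b then (1 : LaurentPolynomial ℤ) else (0 : LaurentPolynomial ℤ))
            ∨ A = Matrix.of (fun (a b : Fin n) =>
                if ((a : ℕ) = i ∧ (b : ℕ) = i) then (0 : LaurentPolynomial ℤ)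
                else if ((a : ℕ) = i ∧ (b : ℕ) = i + 1) then (1 : LaurentPolynomial ℤ)
                else if ((a : ℕ) = i + 1 ∧ (b : ℕ) = i) then (LaurentPolynomial.T (-1) : LaurentPolynomial ℤ)
                else if ((a : ℕ) = i + 1 ∧ (b : ℕ) = i + 1) then (1 - LaurentPolynomial.T (-1) : LaurentPolynomial ℤ)
                else if a = b then (1 : LaurentPolynomial ℤ) else (0 : LaurentPolynomial ℤ)))},
        ∀ k : ℕ, 0 < k → M ^ k = 1 → M = 1 := by
  intro n _ M hM k hk h
  exact Pool.Agent.H.MP_8823bb_al.main n M hM k hk h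

end Pool.Agent.S02185
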