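import Pool.Statements.S02188
import Pool.Agent.H.MP_8859ef_al.Main

set_option autoImplicit false
open Cardinal
open Pool Pool.MP_8859ef_al

namespace Pool.Agent.S02188

open Set Topology Filter H.MP_8859ef_al

theorem result :
    ¬ (∀ (G : Type) [Group G], Cardinal.mk G ≤ 2 ^ Cardinal.continuum →
      ∀ (E : Set (Set G)), E.Countable →
        ∃ t : TopologicalSpace G, @IsTopologicalGroup G t _ ∧ @T2Space G t ∧
          ∀ e ∈ E, @closure G t e =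
            @closure G (sSup {s : TopologicalSpace G | @IsTopologicalGroup G s _ ∧ @T2Space G s}) e) := by
  classical
  intro h
  obtain ⟨X, -, -, x1, x2, x3⟩ : ∃ X : Set Ω, _ ∧ _ ∧ ¬ X.Countable ∧ (∀ x ∈ X, β x x = 1) ∧
    ∀ x ∈ X, ∀ y ∈ X, x ≠ y → β x y = 0 := ex_form.choose_spec
  let E₁ : Set G := range fun d => ⟨(φ d, 0), 0⟩
  let E₂ : Set G := range fun d => ⟨(0, φ d), 0⟩
  obtain ⟨t, h1, h2, h3⟩ := h G (by
    refine (mk_le_of_injective (f := fun g : G => (g.v, g.t)) fun g h H =>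
      G.ext (congrArg Prod.fst H) (congrArg Prod.snd H)).trans (le_trans ?_ (cantor _).le)
    simp) {E₁, E₂} (Set.toFinite _).countable
  have h4 : ∀ x, (⟨(x, 0), 0⟩ : G) ∈ closure E₁ := fun x => by
    obtain ⟨τ, c1, c2, c3⟩ := top ((AddMonoidHom.inr Ω Ω).comp (AddMonoidHom.snd Ω Ω))
      (Or.inl fun _ _ => rfl)
    rw [h3 _ (by simp)]
    refine closure.mono (le_sSup (a := τ) (And.intro c1 c2)) (c3 _ _ fun J => ?_)
    obtain ⟨d, hd⟩ := dens x (J.image Prod.snd)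
    exact ⟨_, ⟨d, rfl⟩, rfl, rfl, fun w hw => ⟨hd _ (Finset.mem_image_of_mem _ hw), rfl⟩⟩
  have h5 : ∀ x, (⟨(0, x), 0⟩ : G) ∈ closure E₂ := fun x => by
    obtain ⟨τ, c1, c2, c3⟩ := top ((AddMonoidHom.inl Ω Ω).comp (AddMonoidHom.fst Ω Ω))
      (Or.inr fun _ _ => rfl)
    rw [h3 _ (by simp)]
    refine closure.mono (le_sSup (a := τ) (And.intro c1 c2)) (c3 _ _ fun J => ?_)
    obtain ⟨d, hd⟩ := dens x (J.image Prod.fst)
    refine ⟨_, ⟨d, rfl⟩, rfl, rfl, fun w hw => ⟨rfl, ?_⟩⟩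
    simpa only [B_def, β_symm w.1] using hd _ (Finset.mem_image_of_mem _ hw)
  have h6 : {p : G × G | p.1 * p.2 * (p.2 * p.1)⁻¹ ≠ ⟨0, 1⟩} ∈ 𝓝 ((1, 1) : G × G) :=
    (isOpen_ne_fun (by fun_prop) continuous_const).mem_nhds fun h => by
      simp only [mul_one, inv_one] at h
      exact zero_ne_one (congrArg G.t h)
  obtain ⟨U, h7, W, h8, h9⟩ := mem_nhds_prod_iff.1 h6
  have h10 : ∀ (x : G) (E U : Set G), x ∈ closure E → U ∈ 𝓝 1 → ∃ y ∈ E, x * y⁻¹ ∈ U :=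
    fun x E U h1 h2 => (mem_closure_iff_nhds.1 h1 {y | x * y⁻¹ ∈ U}
      ((show Continuous fun y : G => x * y⁻¹ by fun_prop).continuousAt.preimage_mem_nhds
        (by simpa using h2))).imp fun y hy => hy.symm
  have h11 : ∀ x, ∃ d, (⟨(x, 0), 0⟩ : G) * (⟨(φ d, 0), 0⟩ : G)⁻¹ ∈ U := fun x =>
    let ⟨_, ⟨d, rfl⟩, h⟩ := h10 _ _ _ (h4 x) h7; ⟨d, h⟩
  have h12 : ∀ x, ∃ d, (⟨(0, x), 0⟩ : G) * (⟨(0, φ d), 0⟩ : G)⁻¹ ∈ W := fun x =>
    let ⟨_, ⟨d, rfl⟩, h⟩ := h10 _ _ _ (h5 x) h8; ⟨d, h⟩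
  choose d hd using h11
  choose d' hd' using h12
  have h13 : ∀ x y, β (x + -φ (d x)) (y + -φ (d' y)) = 0 := fun x y => by
    refine ((by decide : ∀ c : K, c = 0 ∨ c = 1) _).resolve_right fun h =>
      h9 (mk_mem_prod (hd x) (hd' y)) (G.ext ?_ ?_)
    · simp only [mul_v, inv_v]
      abel
    · simp only [mul_v, inv_v, mul_t, inv_t, B_def, Prod.fst_add, Prod.snd_add, Prod.fst_neg,
        Prod.snd_neg, map_zero, neg_zero, add_zero, zero_add, LinearMap.zero_apply, h, map_neg]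
      rfl
  obtain ⟨c, hc⟩ : ∃ c, (X ∩ {x | (d x, d' x) = c}).Infinite := by
    by_contra h
    push Not at h
    exact x1 ((countable_iUnion fun c => (h c).countable).mono fun x hx => mem_iUnion.2 (Exists.intro (d x, d' x) (And.intro hx rfl)))
  obtain ⟨x, hx⟩ := hc.nonempty
  obtain ⟨y, hy, hxy⟩ := hc.exists_notMem_finite (finite_singleton x)
  obtain ⟨z, hz, hxz⟩ := hc.exists_notMem_finite (toFinite {x, y})
  simp only [mem_insert_iff, mem_singleton_iff, not_or] at hxy hxz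
  have e1 := Prod.mk.inj (hy.2.trans hx.2.symm)
  have e2 := Prod.mk.inj (hz.2.trans hx.2.symm)
  have e3 := h13 x x
  have e4 := h13 x y
  have e5 := h13 z x
  have e6 := h13 z y
  simp only [e1.2, e2.1, map_add, LinearMap.add_apply, x2 x hx.1, x3 x hx.1 y hy.1 (Ne.symm hxy),
    x3 z hz.1 x hx.1 hxz.1, x3 z hz.1 y hy.1 hxz.2] at e3 e4 e5 e6
  exact one_ne_zero (α := K) (by linear_combination e3 - e4 - e5 + e6)

end Pool.Agent.S02188
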