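import Pool.Statements.S02194
-- import your own Pool.Agent.* helpers here

set_option autoImplicit false
open Pool Pool.MP_8999af_al

namespace Pool.Agent.S02194

noncomputable section
open Equiv

abbrev AA := ℤ_[2]
abbrev XX := AA × Fin 3

instance : DecidableEq AA := Classical.decEq _

def DD : Type := Perm XX

instance : Group DD := inferInstanceAs (Group (Perm XX))

open Classical in
instance : MetricSpace DD where
  dist x y := if x = y then 0 else 1
  dist_self x := if_pos rfl
  dist_comm x y := by simp only [eq_comm]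
  dist_triangle x y z := by
    by_cases h : x = z
    · rw [if_pos h]
      split_ifs <;> norm_num
    · by_cases h' : x = y
      · subst h'
        simp
      · rw [if_neg h, if_neg h']
        split_ifs <;> norm_num
  eq_of_dist_eq_zero {x y} h := by
    by_contra e
    rw [if_neg e] at h
    exact one_ne_zero h

theorem dd_lt {x y : DD} (h : dist x y < 1) : x = y := by
  by_contra e
  have : dist x y = 1 := if_neg e
  exact this.not_lt h

instance : DiscreteTopology DD := discreteTopology_iff_isOpen_singleton.mpr fun _ =>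
  Metric.isOpen_iff.mpr fun _ hy => ⟨1, one_pos, fun _ hz => (dd_lt hz).trans hy⟩

instance : CompleteSpace DD := Metric.complete_of_cauchySeq_tendsto fun u hu => by
  obtain ⟨N, hN⟩ := Metric.cauchySeq_iff'.mp hu 1 one_pos
  exact ⟨u N, tendsto_atTop_of_eventually_const fun n hn => dd_lt (hN n hn)⟩

instance : IsTopologicalGroup DD where
  continuous_mul := continuous_of_discreteTopology
  continuous_inv := continuous_of_discreteTopology

abbrev GG := Multiplicative AA × DD

def tr (x : AA) : Perm XX := (Equiv.addLeft x).prodCongr (Equiv.refl _)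

theorem tr_apply (x : AA) (p : XX) : tr x p = (x + p.1, p.2) := rfl

theorem tr_add (x y : AA) : tr (x + y) = tr x * tr y := by
  ext p <;> simp [tr_apply, add_assoc]

theorem tr_zero : tr 0 = 1 := by ext p <;> simp [tr_apply]

theorem tr_neg (x : AA) : tr (-x) = (tr x)⁻¹ :=
  eq_inv_of_mul_eq_one_left (by rw [← tr_add, neg_add_cancel, tr_zero])

def hm (s : Perm XX) (e : AA) : GG →* GG where
  toFun g := (1, (s * tr (e * g.1.toAdd) * s⁻¹ : Perm XX))
  map_one' := Prod.ext rfl (by simp [tr_zero]; rfl)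
  map_mul' g h := Prod.ext (one_mul _).symm (by
    change s * tr (e * (g.1.toAdd + h.1.toAdd)) * s⁻¹ =
      s * tr (e * g.1.toAdd) * s⁻¹ * (s * tr (e * h.1.toAdd) * s⁻¹)
    rw [mul_add, tr_add]
    group)

def s1 : Perm XX := swap (0, 0) (0, 1)
def s2 : Perm XX := swap (0, 1) (0, 2)

def UU : Fin 8 → GG →* GG :=
  ![hm s1 1, hm 1 (-1), hm s2 (-1), hm 1 1, hm 1 1, hm s1 (-1), hm 1 (-1), hm s2 1]

def dd : DD := (s1 * s2 * s1⁻¹ * s2⁻¹ : Perm XX)

theorem dd_ne : dd ≠ 1 := fun h => by
  have : (s1 * s2 * s1⁻¹ * s2⁻¹ : Perm XX) (0, 0) = (0, 0) := congrArg (fun f : Perm XX => f (0, 0)) h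
  simp [s1, s2, swap_apply_def] at this

theorem nc : s1 * s2 ≠ s2 * s1 := fun h => dd_ne (by rw [dd, h]; group; rfl)

theorem cm {a b c d : XX} (h1 : a ≠ c) (h2 : a ≠ d) (h3 : b ≠ c) (h4 : b ≠ d) :
    Commute (swap a b) (swap c d) := by
  refine Perm.Disjoint.commute fun x => ?_
  by_cases e : x = a ∨ x = b
  · right
    rcases e with rfl | rfl
    · exact swap_apply_of_ne_of_ne h1 h2
    · exact swap_apply_of_ne_of_ne h3 h4
  · push Not at e
    exact Or.inl (swap_apply_of_ne_of_ne e.1 e.2)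

open Classical in
theorem prod_eq (g : GG) : (List.ofFn fun i => UU i g).prod =
    (1, if g.1.toAdd = 0 then 1 else dd) := by
  have h : (List.ofFn fun i => UU i g).prod = (1, (s1 * (tr g.1.toAdd * s1⁻¹ * (tr g.1.toAdd)⁻¹) *
      (s2 * ((tr g.1.toAdd)⁻¹ * s2⁻¹ * tr g.1.toAdd)) *
      (s1 * (tr g.1.toAdd * s1⁻¹ * (tr g.1.toAdd)⁻¹))⁻¹ *
      (s2 * ((tr g.1.toAdd)⁻¹ * s2⁻¹ * tr g.1.toAdd))⁻¹ : Perm XX)) := by
    simp only [List.ofFn_succ, List.ofFn_zero, List.prod_cons, List.prod_nil, UU]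
    refine Prod.ext ?_ ?_
    · change (1 : Multiplicative AA) * (1 * (1 * (1 * (1 * (1 * (1 * (1 * 1))))))) = 1
      simp
    change s1 * tr (1 * g.1.toAdd) * s1⁻¹ * (1 * tr (-1 * g.1.toAdd) * 1⁻¹ *
      (s2 * tr (-1 * g.1.toAdd) * s2⁻¹ * (1 * tr (1 * g.1.toAdd) * 1⁻¹ *
      (1 * tr (1 * g.1.toAdd) * 1⁻¹ * (s1 * tr (-1 * g.1.toAdd) * s1⁻¹ *
      (1 * tr (-1 * g.1.toAdd) * 1⁻¹ * (s2 * tr (1 * g.1.toAdd) * s2⁻¹ * 1))))))) = _
    rw [neg_one_mul, one_mul g.1.toAdd, tr_neg]
    change _ = (_ : Perm XX)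
    group
  rw [h]
  generalize g.1.toAdd = x
  congr 1
  split_ifs with hx
  · rw [hx, tr_zero]
    change _ = (1 : Perm XX)
    group
  · have e1 : tr x * s1⁻¹ * (tr x)⁻¹ = swap (x, 0) (x, 1) := by
      rw [s1, swap_inv, ← swap_apply_apply]
      simp [tr_apply]
    have e2 : (tr x)⁻¹ * s2⁻¹ * tr x = swap (-x, 1) (-x, 2) := by
      have := swap_apply_apply (tr (-x)) (0, 1) (0, 2)
      rw [tr_neg, inv_inv, ← tr_neg] at this
      rw [s2, swap_inv, ← tr_neg, ← this]
      simp [tr_apply]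
    have hx' : (0 : AA) ≠ x := Ne.symm hx
    have hx2 : (0 : AA) ≠ -x := by simpa using hx
    have hx3 : x ≠ -x := fun h => hx (by
      have : 2 * x = 0 := by linear_combination h
      exact (mul_eq_zero.mp this).resolve_left two_ne_zero)
    rw [e1, e2]
    have c1 : Commute s1 (swap (x, 0) (x, 1)) := cm (by simp [hx']) (by simp) (by simp) (by simp [hx'])
    have c2 : Commute s2 (swap (x, 0) (x, 1)) := cm (by simp) (by simp [hx']) (by simp) (by simp)
    have c3 : Commute s1 (swap (-x, 1) (-x, 2)) := cm (by simp) (by simp) (by simp [hx]) (by simp)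
    have c4 : Commute s2 (swap (-x, 1) (-x, 2)) := cm (by simp [hx]) (by simp) (by simp) (by simp [hx])
    have c5 : Commute (swap (x, (0 : Fin 3)) (x, 1)) (swap (-x, 1) (-x, 2)) :=
      cm (by simp) (by simp) (by simp [hx3]) (by simp)
    generalize swap (x, (0 : Fin 3)) (x, 1) = p at c1 c2 c5
    generalize swap (-x, (1 : Fin 3)) (-x, 2) = q at c3 c4 c5
    change _ = s1 * s2 * s1⁻¹ * s2⁻¹
    have a1 : p * (s2 * q) * p⁻¹ = s2 * q := by
      rw [(c2.symm.mul_right c5).eq, mul_inv_cancel_right]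
    have a2 : q * s1⁻¹ * q⁻¹ = s1⁻¹ := by rw [← c3.inv_left.eq, mul_inv_cancel_right]
    calc _ = s1 * (p * (s2 * q) * p⁻¹) * s1⁻¹ * (s2 * q)⁻¹ := by group
      _ = s1 * s2 * (q * s1⁻¹ * q⁻¹) * s2⁻¹ := by rw [a1]; group
      _ = _ := by rw [a2]

open Classical in
def ap (k : ℕ) (g : GG) : GG :=
  (1, if g.1.toAdd ∈ Metric.ball (0 : AA) (1 / (k + 1 : ℝ)) then 1 else dd)

theorem ap_cont (k : ℕ) : Continuous (ap k) := by
  classical
  refine continuous_const.prodMk ?_
  have h := (IsUltrametricDist.isClopen_ball (0 : AA) (1 / (k + 1 : ℝ))).preimage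
    (f := fun g : GG => g.1.toAdd) (continuous_toAdd.comp continuous_fst)
  refine Continuous.if ?_ continuous_const continuous_const
  intro a ha
  have : frontier {g : GG | g.1.toAdd ∈ Metric.ball (0 : AA) (1 / (k + 1 : ℝ))} = ∅ :=
    h.frontier_eq
  rw [this] at ha
  exact absurd ha (Set.notMem_empty _)

end

theorem result :
    ¬ (∀ (G : Type) [Group G] [MetricSpace G] [IsTopologicalGroup G] [CompleteSpace G],
      (∃ a b : G, a * b ≠ b * a) →
      ∀ (n : ℕ) (U : Fin n → G →* G),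
        (∀ S : Set (G → G),
          (∀ f : G → G, Continuous f → f ∈ S) →
          (∀ (f : ℕ → G → G) (g : G → G), (∀ k, f k ∈ S) →
            (∀ x, Filter.Tendsto (fun k => f k x) Filter.atTop (nhds (g x))) → g ∈ S) →
          (fun x => (List.ofFn (fun i => U i x)).prod) ∈ S) →
        Continuous (fun x => (List.ofFn (fun i => U i x)).prod)) := by
  intro hall
  have h := hall GG ⟨(1, s1), (1, s2), fun h => nc (congrArg Prod.snd h)⟩ 8 UU (by
    intro S h1 h2
    refine h2 ap _ (fun k => h1 _ (ap_cont k)) fun g => ?_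
    rw [prod_eq]
    split_ifs with hg
    · refine tendsto_atTop_of_eventually_const (i₀ := 0) fun k _ => ?_
      rw [ap, if_pos]
      rw [hg]
      exact Metric.mem_ball_self (by positivity)
    · obtain ⟨N, hN⟩ := exists_nat_one_div_lt (norm_pos_iff.mpr hg)
      refine tendsto_atTop_of_eventually_const (i₀ := N) fun k hk => ?_
      rw [ap, if_neg]
      rw [mem_ball_zero_iff, not_lt]
      exact (Nat.one_div_le_one_div hk).trans hN.le)
  have h1 : Continuous fun x : AA => (List.ofFn fun i => UU i (Multiplicative.ofAdd x, 1)).prod.2 :=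
    continuous_snd.comp (h.comp (continuous_ofAdd.prodMk continuous_const))
  have h2 := (isOpen_discrete {(1 : DD)}).preimage h1
  have h3 : IsOpen ({0} : Set AA) := by
    convert h2 using 1
    ext x
    simp only [Set.mem_singleton_iff, Set.mem_preimage, prod_eq, toAdd_ofAdd]
    split_ifs with hx
    · simp [hx]
    · simp [hx, dd_ne]
  obtain ⟨e, he, h4⟩ := Metric.isOpen_iff.mp h3 0 rfl
  obtain ⟨k, hk⟩ := exists_pow_lt_of_lt_one he (show ‖(2 : AA)‖ < 1 from Padic.norm_p_lt_one)
  have := h4 (show (2 : AA) ^ k ∈ _ by rwa [mem_ball_zero_iff, norm_pow])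
  exact pow_ne_zero k two_ne_zero this

end Pool.Agent.S02194
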