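import Pool.Statements.S02197
import Pool.Agent.H.MP_89edc2_al.D

set_option autoImplicit false
open Pool Pool.MP_89edc2_al

namespace Pool.Agent.S02197

theorem result :
    ∃ (G : Type) (_ : Group G),
      (∃ (n : ℕ) (rels : Finset (FreeGroup (Fin n))),
        Nonempty (G ≃* PresentedGroup (rels : Set (FreeGroup (Fin n))))) ∧
      (∃ (S : Finset G), Subgroup.closure (S : Set G) = ⊤ ∧
        ∃ c : ℝ, 1 < c ∧ ∀ k : ℕ,
          c ^ k ≤ (Set.ncard {g : G | ∃ l : List G, l.length ≤ k ∧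
            (∀ x ∈ l, x ∈ S ∨ x⁻¹ ∈ S) ∧ l.prod = g} : ℝ)) ∧
      (∀ c : ℝ, 1 < c → ∃ (S : Finset G), Subgroup.closure (S : Set G) = ⊤ ∧
        ∃ k : ℕ,
          (Set.ncard {g : G | ∃ l : List G, l.length ≤ k ∧
            (∀ x ∈ l, x ∈ S ∨ x⁻¹ ∈ S) ∧ l.prod = g} : ℝ) < c ^ k) := by
  obtain ⟨S, hS, h⟩ := Pool.Agent.H.MP_89edc2_al.big
  refine ⟨Pool.Agent.H.MP_89edc2_al.V, inferInstance, Pool.Agent.H.MP_89edc2_al.pres,
    ⟨S, hS, 2, by norm_num, fun k => ?_⟩, fun c hc => Pool.Agent.H.MP_89edc2_al.small hc⟩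
  exact_mod_cast h k

end Pool.Agent.S02197
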