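import Pool.Statements.S02214
import Pool.Agent.Lib.helper22.FreeEq
import Pool.Agent.Lib.helper22.H10f

set_option autoImplicit false
open Pool Pool.MP_8b7a67_al

namespace Pool.Agent.S02214

open Pool.Agent.Lib.H10 Pool.Agent.Lib.FE Sum
open FreeGroup hiding map_mul map_one map_inv

abbrev F := FreeGroup (Fin 6)

def t0 (p : ℤ × ℤ) : F →* F := lift ![of 0, of 0 ^ p.1 * of 1, of 0 ^ p.2 * of 2, of 3, of 4, of 5]

theorem t0_add (p q : ℤ × ℤ) : (t0 p).comp (t0 q) = t0 (q + p) := by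
  ext1 x
  fin_cases x <;> simp [t0, zpow_add, mul_assoc]

theorem t0_zero : t0 0 = MonoidHom.id F := by
  ext1 x
  fin_cases x <;> simp [t0]

def tv : Multiplicative (ℤ × ℤ) →* MulAut F := .mk' (fun p => (t0 p.toAdd).toMulEquiv (t0 (-p.toAdd)) (by simp [t0_add, t0_zero])
  (by simp [t0_add, t0_zero])) fun p q => MulEquiv.ext fun g => by
    rw [toAdd_mul, add_comm]
    exact (DFunLike.congr_fun (t0_add _ _) g).symm

theorem tv_pow (p : ℤ × ℤ) (k : ℤ) (g : F) : (tv (.ofAdd p) ^ k) g = t0 (k • p) g := by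
  rw [← map_zpow]
  rfl

def D (x : Fin 6) : Bool := x = 4 ∨ x = 5

def al : F →* F := lift fun x => if D x then (of x)⁻¹ else of x

theorem K_t0 (p : ℤ × ℤ) (g : F) : kl D (t0 p g) = t0 p (kl D g) :=
  DFunLike.congr_fun (show (kl D).comp (t0 p) = (t0 p).comp (kl D) from by
    ext1 x
    fin_cases x <;> simp [t0, kl, D]) g

theorem al_K (g : F) : al (kl D g) = kl D g :=
  DFunLike.congr_fun (show al.comp (kl D) = kl D from by
    ext1 x
    fin_cases x <;> simp [al, kl, D]) g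

theorem k5_K (g : F) : kl (· = 5) (kl D g) = kl D g :=
  DFunLike.congr_fun (show (kl (· = 5)).comp (kl D) = kl D from by
    ext1 x
    fin_cases x <;> simp [kl, D]) g

def img : Fin 4 → List (List (ℕ × Bool)) :=
  ![[[(0, true)], [(1, true)], [(2, true)], [(3, true)], [(4, true)], [(5, true)]],
    [[(0, true)], [(0, true), (1, true)], [(2, true)], [(3, true)], [(4, true)], [(5, true)]],
    [[(0, true)], [(1, true)], [(0, true), (2, true)], [(3, true)], [(4, true)], [(5, true)]],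
    [[(0, true)], [(1, true)], [(2, true)], [(3, true)], [(4, false)], [(5, false)]]]

def aut (q : Fin 4) : F →* F := lift fun k : Fin 6 => lift (fun m : ℕ => if h : m < 6 then of (⟨m, h⟩ : Fin 6) else 1)
  (FreeGroup.mk ((img q).getD k.val []))

theorem aut_eq : aut 0 = MonoidHom.id F ∧ aut 1 = t0 (1, 0) ∧ aut 2 = t0 (0, 1) ∧ aut 3 = al := by
  refine ⟨?_, ?_, ?_, ?_⟩ <;> ext1 x <;> fin_cases x <;> simp [aut, img, t0, al, D]

theorem aut_bij (q : Fin 4) : Function.Bijective (aut q) := by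
  obtain ⟨h0, h1, h2, h3⟩ := aut_eq
  fin_cases q
  · exact h0 ▸ Function.bijective_id
  · exact h1 ▸ (tv (.ofAdd (1, 0))).bijective
  · exact h2 ▸ (tv (.ofAdd (0, 1))).bijective
  · refine h3 ▸ Function.Involutive.bijective (DFunLike.congr_fun (show al.comp al = MonoidHom.id F from ?_))
    ext1 x
    fin_cases x <;> simp [al, D]

def rel (q : Fin 4) (x y : F) : Prop := aut q x = y

def Mu (x y z : F) : Prop := rel 0 (x * of 0) (of 0 * x) ∧ rel 0 (y * of 0) (of 0 * y) ∧ rel 0 (z * of 0) (of 0 * z) ∧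
  ∃ Y Y' Y1 Z Z1, rel 3 Y Y ∧ rel 3 Y' Y' ∧ rel 2 Y Y1 ∧ rel 1 Z Z1 ∧
    rel 0 (Y1 * of 4 * of 1 * of 5 * Z1) (Z * (Y' * of 4 * x * of 1) * of 5) ∧ rel 0 (of 1 * of 2 * of 3 * Y') (Y * (z * of 1 * y * of 2) * of 3)

theorem lev1 {Y Y' Z : F} {i : ℤ} (y : kl D Y = Y) (y' : kl D Y' = Y')
    (e : t0 (0, 1) Y * of 4 * of 1 * of 5 * t0 (1, 0) Z = Z * (Y' * of 4 * of 0 ^ i * of 1) * of 5) : t0 (i, 1) Y = Y' := by
  obtain ⟨k, hk⟩ := orbit (tv (.ofAdd (1, 0))) (by simp [tv, t0]) (fun x => by fin_cases x <;> simp [tv, t0, kl])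
    (by rw [map_mul, map_mul, ← y, ← K_t0, k5_K]; simp [kl]) (by rw [map_mul, map_mul, map_mul, ← y', k5_K]; simp [kl]) e
  rw [tv_pow, map_mul, map_mul, ← MonoidHom.comp_apply, t0_add] at hk
  obtain ⟨p, q⟩ := sep (d := 4) (p := (t0 ((0, 1) + k • (1, 0)) Y)⁻¹ * Y') (q := of 0 ^ (i - k)) (kl D) (by simp [kl, D])
    (by rw [map_mul, map_inv, K_t0, y, y']) (by simp [kl, D]) (by
      rw [zpow_sub, eq_mul_inv_of_mul_eq (eq_mul_inv_of_mul_eq (eq_mul_inv_of_mul_eq hk))]
      simp [t0, mul_assoc])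
  obtain rfl : i = k := by linarith [zpow_inj 0 (q.trans (zpow_zero _).symm)]
  simpa using inv_mul_eq_one.1 p

theorem lev2 {Y : F} {i j m : ℤ} (e : of 1 * of 2 * of 3 * t0 (i, 1) Y = Y * (of 0 ^ m * of 1 * of 0 ^ j * of 2) * of 3) : m = i * j := by
  obtain ⟨k, hk⟩ := orbit (tv (.ofAdd (i, 1))) (by simp [tv, t0]) (fun x => by fin_cases x <;> simp [tv, t0, kl])
    (by simp [kl]) (by simp [kl]) e
  rw [tv_pow] at hk
  obtain ⟨p, q⟩ := sep (d := (1 : Fin 6)) (p := of 0 ^ (-(k * i) + m)) (q := of 0 ^ (j - k)) (kl (· = 1)) (by simp [kl])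
    (by simp [kl]) (by simp [kl]) (by
      have := eq_mul_inv_of_mul_eq (eq_mul_inv_of_mul_eq (eq_mul_inv_of_mul_eq hk))
      rw [zpow_sub, zpow_add, this]
      simp [t0, mul_assoc])
  obtain rfl : j = k := by linarith [zpow_inj 0 (q.trans (zpow_zero _).symm)]
  linarith [zpow_inj 0 (p.trans (zpow_zero _).symm)]

theorem mu_iff (x y z : F) : Mu x y z ↔ ∃ i j : ℤ, x = of 0 ^ i ∧ y = of 0 ^ j ∧ z = of 0 ^ (i * j) := by
  obtain ⟨h0, h1, h2, h3⟩ := aut_eq
  simp only [Mu, rel, h0, h1, h2, h3, MonoidHom.id_apply]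
  constructor
  · rintro ⟨a, b, c, Y, Y', _, Z, _, y, y', rfl, rfl, e, e'⟩
    obtain ⟨i, rfl⟩ := cent a
    obtain ⟨j, rfl⟩ := cent b
    obtain ⟨m, rfl⟩ := cent c
    obtain rfl := lev1 (fix_inv D y) (fix_inv D y') e
    exact ⟨i, j, rfl, rfl, congrArg _ (lev2 e')⟩
  · rintro ⟨i, j, rfl, rfl, rfl⟩
    refine ⟨Commute.zpow_self .., Commute.zpow_self .., Commute.zpow_self .., ?_⟩
    obtain ⟨Y, hY⟩ := orbit' (h := of 3) (tv (.ofAdd (i, 1))) (by simp [tv, t0]) (of 1 * of 2) j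
    obtain ⟨Z, hZ⟩ := orbit' (h := of 5) (tv (.ofAdd (1, 0))) (by simp [tv, t0]) (t0 (0, 1) (kl D Y) * of 4 * of 1) i
    refine ⟨kl D Y, kl D (t0 (i, 1) Y), _, Z, _, al_K _, al_K _, rfl, rfl, hZ.trans ?_, ?_⟩
    · rw [tv_pow, map_mul, map_mul, ← MonoidHom.comp_apply, t0_add, K_t0]
      simp [t0, mul_assoc]
    · rw [tv_pow] at hY
      simpa [kl, D, t0, tv, mul_assoc, mul_comm] using congrArg (kl D) hY

theorem sys : ∃ (N : ℕ) (E : List (Fin 4 × List (Fin 6 ⊕ Fin (N + 1)) × List (Fin 6 ⊕ Fin (N + 1)))),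
    ¬ ComputablePred fun n : ℕ => ∃ σ, σ 0 = of 0 ^ n ∧ Sol of rel σ E := by
  have eq : ∀ {γ} {f g : (γ → F) → F}, TD of f → TD of g → SD of rel fun v => f v = g v :=
    fun h k => (SD.atom 0 h k).of_iff fun _ => by simp [rel, aut_eq.1]
  have mu : ∀ {γ} {f g h : (γ → F) → F}, TD of f → TD of g → TD of h → SD of rel fun v => Mu (f v) (g v) (h v) := fun hf hg hh => by
    unfold Mu
    repeat' first | apply SD.ex | apply SD.and | apply SD.atom | apply TD.var | apply TD.mul | apply TD.con | apply hf | apply hg | apply hh | apply hf.re | apply hg.re | apply hh.re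
  refine exists_sys 0 (by simp [rel, aut_eq.1]) [0] (by simp) (fun m n h => by simpa using zpow_inj (0 : Fin 6) (m := m) (n := n) (by simpa using h))
    (SD.of_iff (P := fun v => ∃ a b c d a' b' c' d', Mu a a a' ∧ Mu b b b' ∧ Mu c c c' ∧ Mu d d d' ∧ v () = a' * b' * c' * d') ?_ fun v => ?_)
    (mu (.var _) (.var _) (.var _)) fun x y z => ?_
  · repeat' first | apply mu | apply SD.ex | apply SD.and | apply eq | apply TD.var | apply TD.mul
  · simp only [mu_iff]
    constructor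
    · rintro ⟨_, _, _, _, _, _, _, _, ⟨a, _, rfl, h1, rfl⟩, ⟨b, _, rfl, h2, rfl⟩, ⟨c, _, rfl, h3, rfl⟩, ⟨d, _, rfl, h4, rfl⟩, h⟩
      rw [← zpow_inj _ h1, ← zpow_inj _ h2, ← zpow_inj _ h3, ← zpow_inj _ h4, ← zpow_add, ← zpow_add, ← zpow_add] at h
      exact ⟨(a * a + b * b + c * c + d * d).toNat, by rw [h, ← zpow_natCast, Int.toNat_of_nonneg (by nlinarith [mul_self_nonneg a, mul_self_nonneg b, mul_self_nonneg c, mul_self_nonneg d])]⟩
    · rintro ⟨n, h⟩
      obtain ⟨a, b, c, d, rfl⟩ := Nat.sum_four_squares n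
      exact ⟨_, _, _, _, _, _, _, _, ⟨a, a, rfl, rfl, rfl⟩, ⟨b, b, rfl, rfl, rfl⟩, ⟨c, c, rfl, rfl, rfl⟩, ⟨d, d, rfl, rfl, rfl⟩, by
        simp only [h, pow_add, pow_two, ← Nat.cast_mul, zpow_natCast]⟩
  · rw [mu_iff]
    refine ⟨?_, fun h => ⟨x, y, by simp, by simp, by rw [h, ← Nat.cast_mul, zpow_natCast]⟩⟩
    rintro ⟨i, j, h1, h2, rfl⟩
    rw [← zpow_natCast] at h1 h2
    rw [← zpow_inj _ h1, ← zpow_inj _ h2, ← Nat.cast_mul, zpow_natCast]

variable {V : Type}

def val (σ : V → F) : FreeGroup (Fin 6 ⊕ V × Fin 4) →* F := lift (Sum.elim of fun p => aut p.2 (σ p.1))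

theorem one_eq (E : List (Fin 4 × List (Fin 6 ⊕ V) × List (Fin 6 ⊕ V))) : ∃ W, ∀ σ, val σ W = 1 ↔ Sol of rel σ E := by
  have h0 : ∀ (σ : V → F) g, val σ (map inl g) = g := fun σ =>
    DFunLike.congr_fun (show (val σ).comp (map inl) = MonoidHom.id F from by ext1; simp [val])
  have tw : ∀ q (l : List (Fin 6 ⊕ V)), ∃ W, ∀ σ, val σ W = aut q (ev of σ l) := fun q l => by
    induction l with
    | nil => exact ⟨1, by simp [ev]⟩
    | cons a l ih =>
      obtain ⟨W, h⟩ := ih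
      rcases a with c | v
      · exact ⟨map inl (aut q (of c)) * W, by simp_all [ev]⟩
      · exact ⟨of (inr (v, q)) * W, by simp_all [ev, val]⟩
  induction E with
  | nil => exact ⟨1, by simp [Sol]⟩
  | cons e E ih =>
    obtain ⟨W, h⟩ := ih
    obtain ⟨A, a⟩ := tw e.1 e.2.1
    obtain ⟨B, b⟩ := tw 0 e.2.2
    refine ⟨(A * B⁻¹ * of (inl 0)) ^ 2 * (of (inl 0))⁻¹ ^ 2 * ((W * of (inl 1)) ^ 2 * (of (inl 1))⁻¹ ^ 2)⁻¹ ^ 2, fun σ => ?_⟩
    have : ∀ c, val σ (of (inl c)) = of c := by simp [val]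
    simp only [map_mul, map_pow, map_inv, this, malcev (zero_ne_one' (Fin 6)), h, a, b, Sol, List.forall_mem_cons, mul_inv_eq_one, aut_eq.1]
    rfl

theorem result :
    ¬ (∃ f : ℕ × List ((ℕ ⊕ ℕ) × Bool) × List (ℕ × List (List (ℕ × Bool))) → Bool,
      Computable f ∧
      ∀ (r : ℕ) (w : List ((ℕ ⊕ ℕ) × Bool)) (S : List (ℕ × List (List (ℕ × Bool)))),
        (∀ p ∈ w, ∀ j : ℕ, p.1 = Sum.inr j → j < S.length) →
        (∀ q ∈ S, q.2.length = r ∧
          Function.Bijective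
            (FreeGroup.lift (fun k : Fin r =>
              FreeGroup.lift
                (fun m : ℕ => if h : m < r then FreeGroup.of (⟨m, h⟩ : Fin r) else 1)
                (FreeGroup.mk (q.2.getD k.val [])))
              : FreeGroup (Fin r) → FreeGroup (Fin r))) →
        (f (r, w, S) = true ↔
          ∃ x : ℕ → FreeGroup (Fin r),
            FreeGroup.lift
              (Sum.elim
                (fun m : ℕ => if h : m < r then FreeGroup.of (⟨m, h⟩ : Fin r) else 1)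
                (fun j : ℕ =>
                  FreeGroup.lift (fun k : Fin r =>
                    FreeGroup.lift
                      (fun m : ℕ => if h : m < r then FreeGroup.of (⟨m, h⟩ : Fin r) else 1)
                      (FreeGroup.mk ((S.getD j (0, [])).2.getD k.val [])))
                    (x (S.getD j (0, [])).1)))
              (FreeGroup.mk w) = 1)) := by
  rintro ⟨f, hf, H⟩
  obtain ⟨N, E, hE⟩ := sys
  obtain ⟨W, hW⟩ := one_eq E
  let e : Fin 6 ⊕ Fin (N + 1) × Fin 4 → ℕ ⊕ ℕ := Sum.map (↑) fun p => finProdFinEquiv p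
  let S := List.ofFn fun j : Fin ((N + 1) * 4) => (((finProdFinEquiv.symm j).1 : ℕ), img (finProdFinEquiv.symm j).2)
  let C := (of (inl 0) * (of (inl 0))⁻¹ ^ 2 * ((W * of (inl 1)) ^ 2 * (of (inl 1))⁻¹ ^ 2)⁻¹ ^ 2).toWord
  let L : ℕ → List ((Fin 6 ⊕ Fin (N + 1) × Fin 4) × Bool) := fun n => (inr (0, 0), true) :: (List.replicate n (inl 0, false) ++
    (inl 0, true) :: (inr (0, 0), true) :: (List.replicate n (inl 0, false) ++ C))
  have rp : Primrec fun n => List.replicate n ((inl 0 : ℕ ⊕ ℕ), false) :=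
    (Primrec.list_map Primrec.list_range (Primrec.const ((inl 0 : ℕ ⊕ ℕ), false)).to₂).of_eq (by simp)
  have pr : Primrec fun n => (6, (L n).map fun p => (e p.1, p.2), S) := (Primrec.const _).pair <| Primrec.pair
    ((Primrec.list_cons.comp (.const (e (inr (0, 0)), true)) (Primrec.list_append.comp rp (Primrec.list_cons.comp (.const (inl 0, true))
      (Primrec.list_cons.comp (.const (e (inr (0, 0)), true)) (Primrec.list_append.comp rp (.const (C.map fun p => (e p.1, p.2)))))))).of_eq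
      (by simp [L, e])) (.const _)
  refine hE (ComputablePred.computable_iff.2 ⟨_, hf.comp pr.to_comp, funext fun n => propext (Iff.trans ?_ (H _ _ _ ?_ ?_).symm)⟩)
  · have hv : ∀ σ, val σ (FreeGroup.mk (L n)) = 1 ↔ σ 0 = of 0 ^ n ∧ Sol of rel σ E := fun σ => by
      have w : FreeGroup.mk (List.replicate n (inl 0, false)) = (of (inl 0) : FreeGroup (Fin 6 ⊕ Fin (N + 1) × Fin 4))⁻¹ ^ n := by
        clear H
        induction n with
        | zero => rfl
        | succ n ih => rw [pow_succ', ← ih]; rfl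
      have : ∀ c, val σ (of (inl c)) = of c := by simp [val]
      rw [← hW, ← mul_inv_eq_one (a := σ 0), ← malcev (zero_ne_one' (Fin 6))]
      simp only [L, C, mk_cons _ (_ ++ _), mk_cons (inl _, _) (_ :: _), ← mul_mk, w, mk_toWord, show ∀ x, FreeGroup.mk [(x, true)] = of x from fun _ => rfl,
        map_mul, map_pow, map_inv, this, show val σ (of (inr (0, 0))) = σ 0 by simp [val, aut_eq.1], pow_two, mul_assoc, inv_pow]
    simp only [← hv, ← map.mk, ← MonoidHom.comp_apply]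
    have : ∀ x : ℕ → F, (lift (Sum.elim (fun m : ℕ => if h : m < 6 then of (⟨m, h⟩ : Fin 6) else 1) fun j : ℕ =>
        lift (fun k : Fin 6 => lift (fun m : ℕ => if h : m < 6 then of (⟨m, h⟩ : Fin 6) else 1)
          (FreeGroup.mk ((S.getD j (0, [])).2.getD k.val []))) (x (S.getD j (0, [])).1))).comp (map e) = val fun i : Fin (N + 1) => x i := fun x => by
      ext1 (c | p)
      · simp [e, val]
      · have : S.getD (finProdFinEquiv p) (0, []) = (p.1.1, img p.2) := by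
          rw [List.getD_eq_getElem _ _ (by simp only [S, List.length_ofFn, Fin.is_lt])]
          simp only [S, List.getElem_ofFn, Fin.eta, Equiv.symm_apply_apply]
        simp only [e, val, MonoidHom.comp_apply, map.of, lift_apply_of, Sum.map_inr, Sum.elim_inr, this]
        rfl
    simp only [this]
    exact ⟨fun ⟨σ, h⟩ => ⟨fun i => if h : i < N + 1 then σ ⟨i, h⟩ else 1, by simpa only [Fin.is_lt, dite_true] using h⟩, fun ⟨x, h⟩ => ⟨_, h⟩⟩
  · simp only [List.forall_mem_map]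
    rintro ⟨c | p, _⟩ - j h
    · cases h
    · cases h
      simp only [S, List.length_ofFn, Fin.is_lt]
  · simp only [S, List.forall_mem_ofFn_iff]
    refine fun j => ⟨?_, aut_bij _⟩
    generalize (finProdFinEquiv.symm j).2 = q
    fin_cases q <;> rfl

end Pool.Agent.S02214
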