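import Pool.Statements.S02219
import Pool.Agent.H.MP_8bc403_al.Main

set_option autoImplicit false
open Pool Pool.MP_8bc403_al

namespace Pool.Agent.S02219

theorem result :
    ∃ (G : Type) (_ : Group G) (X Y : Finset G),
      Subgroup.closure (X : Set G) = ⊤ ∧ Subgroup.closure (Y : Set G) = ⊤ ∧
      (∃ N : ℕ, ∀ g : G, ∃ ps : List G, ps.length ≤ N ∧ ps.prod = g ∧
        ∀ p ∈ ps, ∃ w : List G, (∀ x ∈ w, x ∈ X ∨ x⁻¹ ∈ X) ∧ w.reverse = w ∧ w.prod = p) ∧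
      ¬ (∃ N : ℕ, ∀ g : G, ∃ ps : List G, ps.length ≤ N ∧ ps.prod = g ∧
        ∀ p ∈ ps, ∃ w : List G, (∀ x ∈ w, x ∈ Y ∨ x⁻¹ ∈ Y) ∧ w.reverse = w ∧ w.prod = p) := by
  exact ⟨Pool.Agent.H.MP_8bc403_al.G, inferInstance, _, _, Pool.Agent.H.MP_8bc403_al.gen3,
    Pool.Agent.H.MP_8bc403_al.gen2, Pool.Agent.H.MP_8bc403_al.finite_width,
    Pool.Agent.H.MP_8bc403_al.infinite_width⟩

end Pool.Agent.S02219
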