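import Pool.Statements.S02231
import Pool.Agent.H.MP_0c10a3_al.Main

set_option autoImplicit false
open Pool Pool.MP_8e22c2_al

namespace Pool.Agent.S02231

theorem result :
    ∀ (α : Type) [Infinite α],
      ∃ φ : MulAut (FreeGroup α),
        Subgroup.normalClosure ({φ} : Set (MulAut (FreeGroup α))) = ⊤ := by
  intro α _
  obtain ⟨θ, -, -, h⟩ := Pool.Agent.H.MP_0c10a3_al.invol (X := α)
  exact ⟨θ, h⟩

end Pool.Agent.S02231
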