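import Pool.Statements.S02234
import Pool.Agent.H.MP_8ea9e7_al.C

set_option autoImplicit false
open FirstOrder FirstOrder.Language
open Pool Pool.MP_8ea9e7_al

namespace Pool.Agent.S02234

/-- The negation of the preceding statement: For every finite algebra A in a finite signature that is nilpotent (via term-condition central series) and generates a congruence permutable variety V, some finite first-order theory has as models exactly the subdirectly irreducible members of V. -/
theorem result :
    ¬ (∀ (L : FirstOrder.Language.{0,0}), Finite (Σ n, L.Functions n) →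
    (∀ n, IsEmpty (L.Relations n)) →
    ∀ (A : Type) [Finite A] [Nonempty A] [L.Structure A],
    (∀ (B : Type) [L.Structure B],
      (∀ (n : ℕ) (t s : L.Term (Fin n)),
        (∀ v : Fin n → A, t.realize v = s.realize v) →
        ∀ w : Fin n → B, t.realize w = s.realize w) →
      ∀ (α β : B → B → Prop), Equivalence α → Equivalence β →
        (∀ (n : ℕ) (f : L.Functions n) (x y : Fin n → B),
          (∀ i, α (x i) (y i)) → α (Structure.funMap f x) (Structure.funMap f y)) →
        (∀ (n : ℕ) (f : L.Functions n) (x y : Fin n → B),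
          (∀ i, β (x i) (y i)) → β (Structure.funMap f x) (Structure.funMap f y)) →
        ∀ x y : B, (∃ z, α x z ∧ β z y) ↔ (∃ z, β x z ∧ α z y)) →
    (∃ (k : ℕ) (θ : ℕ → A → A → Prop),
      (∀ x y, θ 0 x y) ∧ (∀ x y, θ k x y ↔ x = y) ∧ (∀ i, Equivalence (θ i)) ∧
      (∀ (i n : ℕ) (f : L.Functions n) (x y : Fin n → A),
        (∀ j, θ i (x j) (y j)) → θ i (Structure.funMap f x) (Structure.funMap f y)) ∧
      (∀ i, i < k → ∀ (m n : ℕ) (t : L.Term (Fin m ⊕ Fin n)) (a b : Fin m → A)
        (c d : Fin n → A), (∀ j, θ i (c j) (d j)) →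
        θ (i + 1) (t.realize (Sum.elim a c)) (t.realize (Sum.elim a d)) →
        θ (i + 1) (t.realize (Sum.elim b c)) (t.realize (Sum.elim b d)))) →
    ∃ T : L.Theory, Set.Finite T ∧
      ∀ (B : Type) [L.Structure B],
        (FirstOrder.Language.Theory.Model B T ↔
          ((∀ (n : ℕ) (t s : L.Term (Fin n)),
              (∀ v : Fin n → A, t.realize v = s.realize v) →
              ∀ w : Fin n → B, t.realize w = s.realize w) ∧
            Nontrivial B ∧
            ∃ μ : B → B → Prop, Equivalence μ ∧
              (∀ (n : ℕ) (f : L.Functions n) (x y : Fin n → B),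
                (∀ i, μ (x i) (y i)) → μ (Structure.funMap f x) (Structure.funMap f y)) ∧
              (∃ x y : B, μ x y ∧ x ≠ y) ∧
              ∀ θ : B → B → Prop, Equivalence θ →
                (∀ (n : ℕ) (f : L.Functions n) (x y : Fin n → B),
                  (∀ i, θ (x i) (y i)) → θ (Structure.funMap f x) (Structure.funMap f y)) →
                (∃ x y : B, θ x y ∧ x ≠ y) → ∀ x y : B, μ x y → θ x y))) := by
  intro h
  open Pool.Agent.H.MP_4f5d8b_al Pool.Agent.H.MP_8ea9e7_al in
  refine not_fa (@h Lg ?_ (fun _ => inferInstanceAs (IsEmpty Empty)) LT inferInstance ⟨LL.e⟩ LL.str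
    (fun B _ hB α β ha hb hα hβ x y => ⟨perm hB ha hb hα hβ, perm hB hb ha hβ hα⟩)
    ⟨3, th, fun _ _ => trivial, fun _ _ => Iff.rfl, th_equiv,
      fun i n f x y hxy => th_op i n _ x y hxy,
      fun i hi m n t a b c d hcd ht => th_tc i hi t a b c d hcd ht⟩)
  refine Finite.of_injective (fun s : Σ n, Fin (if n = 0 then 1 else if n = 2 then 3 else 0) =>
    ((⟨s.1 % 3, Nat.mod_lt _ (by norm_num)⟩, ⟨s.2.1 % 3, Nat.mod_lt _ (by norm_num)⟩) :
      Fin 3 × Fin 3)) ?_
  rintro ⟨n, a, ha⟩ ⟨m, b, hb⟩ e
  simp only [Prod.mk.injEq, Fin.mk.injEq] at e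
  have hn : (n = 0 ∨ n = 2) ∧ a < 3 := by split_ifs at ha <;> omega
  have hm : (m = 0 ∨ m = 2) ∧ b < 3 := by split_ifs at hb <;> omega
  obtain rfl : n = m := by omega
  obtain rfl : a = b := by omega
  rfl

end Pool.Agent.S02234
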