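import Pool.Statements.S02240
import Pool.Agent.H.MP_8ef39f_al.D

set_option autoImplicit false
open Pool Pool.MP_8ef39f_al

namespace Pool.Agent.S02240

open Pool.Agent.H.MP_4f47f1_al Pool.Agent.H.MP_8ef39f_al

/-- The negation of the preceding statement: For every finite group G, there are only finitely many formations of finite groups closed under subnormal (equivalently, normal) subgroups that are contained in the formation generated by G. -/
theorem result :
    ¬ (∀ (G : Type) [Group G] [Finite G],
      Set.Finite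
        {F : ∀ (H : Type) [Group H], Prop |
          (∀ (H : Type) [Group H], F H → Finite H) ∧
          (∀ (H K : Type) [Group H] [Group K], (H ≃* K) → F H → F K) ∧
          (∀ (H : Type) [Group H] (N : Subgroup H) [N.Normal], F H → F (H ⧸ N)) ∧
          (∀ (H : Type) [Group H] (N₁ N₂ : Subgroup H) [N₁.Normal] [N₂.Normal],
              F (H ⧸ N₁) → F (H ⧸ N₂) → F (H ⧸ (N₁ ⊓ N₂))) ∧
          (∀ (H : Type) [Group H] (N : Subgroup H), N.Normal → F H → F N) ∧
          (∀ (H : Type) [Group H], F H →
              ∀ F' : ∀ (K : Type) [Group K], Prop,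
                (∀ (K : Type) [Group K], F' K → Finite K) →
                (∀ (K L : Type) [Group K] [Group L], (K ≃* L) → F' K → F' L) →
                (∀ (K : Type) [Group K] (N : Subgroup K) [N.Normal], F' K → F' (K ⧸ N)) →
                (∀ (K : Type) [Group K] (N₁ N₂ : Subgroup K) [N₁.Normal] [N₂.Normal],
                    F' (K ⧸ N₁) → F' (K ⧸ N₂) → F' (K ⧸ (N₁ ⊓ N₂))) →
                F' G → F' H)}) := by
  intro hall
  obtain ⟨G, _, _, h⟩ := Pool.Agent.H.MP_8ef39f_al.main
  refine Set.infinite_of_injective_forall_mem (f := fun k : ℕ => HH G (k + 1)) ?_ (fun k => ?_)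
    (hall G)
  · intro a b e
    have e' : HH G (a + 1) = HH G (b + 1) := e
    rcases lt_trichotomy a b with hab | hab | hab
    · obtain ⟨X, _, h1, h2⟩ := h (a + 1) (b + 1) (by omega)
      exact (h2 (e' ▸ h1)).elim
    · exact hab
    · obtain ⟨X, _, h1, h2⟩ := h (b + 1) (a + 1) (by omega)
      exact (h2 (e' ▸ h1)).elim
  have p := phi_HH G (k + 1)
  refine ⟨p.1, fun _ _ _ _ e x => p.iso e x,
    fun _ _ N _ x => p.2.1 _ _ (QuotientGroup.mk' N) (QuotientGroup.mk'_surjective N) x,
    fun _ _ N1 N2 _ _ x1 x2 => p.qr (QuotientGroup.mk' N1) (QuotientGroup.mk' N2)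
      (QuotientGroup.mk' _) (QuotientGroup.mk'_surjective _) (QuotientGroup.mk'_surjective _)
      (QuotientGroup.mk'_surjective _) x1 x2 (by simp [QuotientGroup.ker_mk']),
    fun _ _ N hN x => x.sub N hN.isSubnormal, fun H _ x F a b c d hG => ?_⟩
  refine (phi_FG G).iso Subgroup.topEquiv (x.1.2.1 ⊤ Subgroup.IsSubnormal.top) F ⟨a, ?_, ?_⟩ hG
  · exact fun X K _ _ f hf hX =>
      b _ _ (QuotientGroup.quotientKerEquivOfSurjective f hf) (c X f.ker hX)
  · exact fun X _ N1 N2 _ _ hb x1 x2 => b _ _ ((QuotientGroup.quotientMulEquivOfEq hb).trans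
      QuotientGroup.quotientBot) (d X N1 N2 x1 x2)

end Pool.Agent.S02240
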