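import Pool.Statements.S02241
-- import your own Pool.Agent.* helpers here

set_option autoImplicit false
open Pool Pool.MP_8f228a_al

namespace Pool.Agent.S02241
open Set

def G : Subgroup (Equiv.Perm ℕ) where
  carrier := {g | ∃ (α : Type) (_ : Finite α) (c : ℕ → α), ∀ x y, c x = c y → x < y → g x < g y}
  one_mem' := ⟨Unit, inferInstance, fun _ => (), fun _ _ _ h => h⟩
  mul_mem' := by
    rintro g h ⟨α, _, c, hc⟩ ⟨β, _, d, hd⟩
    exact ⟨α × β, inferInstance, fun x => (c (h x), d x), fun x y e l =>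
      hc _ _ (congrArg Prod.fst e) (hd _ _ (congrArg Prod.snd e) l)⟩
  inv_mem' := by
    rintro g ⟨α, _, c, hc⟩
    refine ⟨α, inferInstance, fun x => c (g⁻¹ x), fun x y e l => ?_⟩
    rcases lt_trichotomy (g⁻¹ x) (g⁻¹ y) with h | h | h
    · exact h
    · exact absurd (g⁻¹.injective h) l.ne
    · exact absurd (by simpa using hc _ _ e.symm h) l.not_gt

lemma step (u w : ℕ ≃ ℚ) {ι : Type} [Finite ι] (a b : ι → ℕ) (h : ∀ i j, u (a i) < u (a j) ↔ w (b i) < w (b j)) :
    ∃ x y, (∀ j, (u (a j) < u x ↔ w (b j) < w y) ∧ (u x < u (a j) ↔ w y < w (b j))) ∧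
      (∀ j, a j ≠ x ∧ b j < y) ∧ ∀ z < x, ∃ j, a j = z := by
  classical
  haveI := Fintype.ofFinite ι
  have hx : ∃ x, x ∉ range a := (finite_range a).exists_notMem
  let x := Nat.find hx
  have ne : ∀ j, a j ≠ x := fun j e => Nat.find_spec hx ⟨j, e⟩
  obtain ⟨m, m1, m2⟩ := Order.exists_between_finsets
    ((Finset.univ.filter fun j => u (a j) < u x).image fun j => w (b j))
    ((Finset.univ.filter fun j => u x < u (a j)).image fun j => w (b j)) (by
      simp only [Finset.mem_image, Finset.mem_filter]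
      rintro _ ⟨i, hi, rfl⟩ _ ⟨j, hj, rfl⟩
      exact (h i j).1 (hi.2.trans hj.2))
  obtain ⟨m', m3, m4⟩ := Order.exists_between_finsets {m} _
    (fun z hz => Finset.mem_singleton.1 hz ▸ m2)
  obtain ⟨y, y1, y2⟩ := ((Ioo_infinite (m3 m (by simp))).preimage (f := w)
    (by simp)).exists_gt (Finset.univ.sup b)
  simp only [Finset.mem_image, Finset.mem_filter, Finset.mem_univ, true_and, forall_exists_index, and_imp,
    forall_apply_eq_imp_iff₂] at m1 m4
  refine ⟨x, y, fun j => ?_, fun j => ⟨ne j, (Finset.le_sup (Finset.mem_univ j)).trans_lt y2⟩,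
    fun z hz => not_not.1 (Nat.find_min hx hz)⟩
  rcases lt_or_gt_of_ne (u.injective.ne (ne j)) with k | k
  · have := (m1 j k).trans y1.1
    exact ⟨iff_of_true k this, iff_of_false k.not_gt this.not_gt⟩
  · have := y1.2.trans (m4 j k)
    exact ⟨iff_of_false k.not_gt this.not_gt, iff_of_true k this⟩

lemma sur (a : ℕ → ℕ) (hi : Function.Injective a) (e : ℕ) (h : ∀ n, ∀ z < a (2 * n + e), ∃ j, a j = z) :
    Function.Surjective a := fun z => by
  obtain ⟨_, ⟨n, rfl⟩, hn⟩ := (infinite_range_of_injective (f := fun n => a (2 * n + e))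
    fun m n k => by have := hi k; omega).exists_gt z
  exact h n z hn

lemma baf (u w : ℕ ≃ ℚ) : ∃ g ∈ G, ∀ x y, w (g x) < w (g y) ↔ u x < u y := by
  let C : ∀ n : ℕ, (∀ j < n, ℕ × ℕ) → Prop := fun n g =>
    ∀ i hi j hj, u (g i hi).1 < u (g j hj).1 ↔ w (g i hi).2 < w (g j hj).2
  let P : ∀ n : ℕ, (∀ j < n, ℕ × ℕ) → ℕ × ℕ → Prop := fun n g v => C n g →
    (∀ j h, (u (g j h).1 < u v.1 ↔ w (g j h).2 < w v.2) ∧ (u v.1 < u (g j h).1 ↔ w v.2 < w (g j h).2)) ∧
    (n % 2 = 0 → (∀ j h, (g j h).1 ≠ v.1 ∧ (g j h).2 < v.2) ∧ ∀ z < v.1, ∃ j h, (g j h).1 = z) ∧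
    (n % 2 = 1 → (∀ j h, (g j h).2 ≠ v.2 ∧ (g j h).1 < v.1) ∧ ∀ z < v.2, ∃ j h, (g j h).2 = z)
  have st : ∀ n g, ∃ v, P n g v := fun n g => by
    by_cases hc : C n g
    · rcases Nat.mod_two_eq_zero_or_one n with k | k
      · obtain ⟨x, y, h1, h2, h3⟩ := step u w (fun j : Fin n => (g j j.2).1) (fun j : Fin n => (g j j.2).2)
          fun i j => hc _ _ _ _
        exact ⟨(x, y), fun _ => ⟨fun j h => h1 ⟨j, h⟩, fun _ => ⟨fun j h => h2 ⟨j, h⟩, fun z hz =>
          (h3 z hz).elim fun j e => ⟨j, j.2, e⟩⟩, fun h => by omega⟩⟩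
      · obtain ⟨x, y, h1, h2, h3⟩ := step w u (fun j : Fin n => (g j j.2).2) (fun j : Fin n => (g j j.2).1)
          fun i j => (hc _ _ _ _).symm
        exact ⟨(y, x), fun _ => ⟨fun j h => ⟨(h1 ⟨j, h⟩).1.symm, (h1 ⟨j, h⟩).2.symm⟩, fun h => by omega,
          fun _ => ⟨fun j h => h2 ⟨j, h⟩, fun z hz => (h3 z hz).elim fun j e => ⟨j, j.2, e⟩⟩⟩⟩
    · exact ⟨(0, 0), fun h => absurd h hc⟩
  let F : ℕ → ℕ × ℕ := (wellFounded_lt (α := ℕ)).fix fun n g => Classical.epsilon (P n g)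
  have hF : ∀ n, P n (fun j _ => F j) (F n) := fun n => by
    have e : F n = Classical.epsilon (P n fun j _ => F j) := WellFounded.fix_eq _ _ _
    rw [e]
    exact Classical.epsilon_spec (st n _)
  have hC : ∀ n, C n fun j _ => F j := fun n => by
    induction n with
    | zero => exact fun i hi => absurd hi (by omega)
    | succ n ih =>
      intro i hi j hj
      rcases (Nat.lt_succ_iff.1 hi).eq_or_lt with rfl | k <;> rcases (Nat.lt_succ_iff.1 hj).eq_or_lt with rfl | l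
      · simp
      · exact ((hF _ ih).1 j l).2
      · exact ((hF _ ih).1 i k).1
      · exact ih i k j l
  have h0 := fun n => (hF n (hC n)).2.1
  have h1 := fun n => (hF n (hC n)).2.2
  have ne : ∀ i j, i < j → (F i).1 ≠ (F j).1 ∧ (F i).2 ≠ (F j).2 := fun i j h => by
    rcases Nat.mod_two_eq_zero_or_one j with k | k
    · exact ⟨((h0 j k).1 i h).1, ((h0 j k).1 i h).2.ne⟩
    · exact ⟨((h1 j k).1 i h).2.ne, ((h1 j k).1 i h).1⟩
  have i1 : Function.Injective fun n => (F n).1 := Function.Injective.of_lt_imp_ne fun i j h => (ne i j h).1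
  have i2 : Function.Injective fun n => (F n).2 := Function.Injective.of_lt_imp_ne fun i j h => (ne i j h).2
  let a := Equiv.ofBijective _ ⟨i1, sur _ i1 0 fun n z hz =>
    ((h0 _ (by omega)).2 z hz).imp fun _ h => h.2⟩
  let b := Equiv.ofBijective _ ⟨i2, sur _ i2 1 fun n z hz =>
    ((h1 _ (by omega)).2 z hz).imp fun _ h => h.2⟩
  refine ⟨a.symm.trans b, ⟨Prop, inferInstance, fun x => a.symm x % 2 = 0, ?_⟩, ?_⟩
  · intro x y
    obtain ⟨i, rfl⟩ := a.surjective x
    obtain ⟨j, rfl⟩ := a.surjective y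
    simp only [Equiv.trans_apply, Equiv.symm_apply_apply]
    intro e l
    change (F i).1 < (F j).1 at l
    change (F i).2 < (F j).2
    have e := eq_iff_iff.1 e
    rcases lt_trichotomy i j with h | rfl | h
    · rcases Nat.mod_two_eq_zero_or_one j with k | k
      · exact ((h0 j k).1 i h).2
      · by_contra! q
        obtain ⟨m, m1, m2⟩ := (h1 i (by omega)).2 _ (q.lt_of_ne (ne i j h).2.symm)
        have : m = j := i2 m2
        omega
    · exact absurd l (lt_irrefl _)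
    · rcases Nat.mod_two_eq_zero_or_one i with k | k
      · obtain ⟨m, m1, m2⟩ := (h0 j (by omega)).2 _ l
        have : m = i := i1 m2
        omega
      · exact absurd ((h1 i k).1 j h).2 l.not_gt
  · intro x y
    obtain ⟨i, rfl⟩ := a.surjective x
    obtain ⟨j, rfl⟩ := a.surjective y
    simp only [Equiv.trans_apply, Equiv.symm_apply_apply]
    exact (hC (max i j + 1) i (by omega) j (by omega)).symm

theorem result :
    ∃ G : Subgroup (Equiv.Perm ℕ), G ≠ ⊤ ∧
      (∀ a b : ℕ, ∃ g ∈ G, g a = b) ∧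
      ∀ r s : ℕ → ℕ → Prop,
        Nonempty (r ≃r (fun p q : ℚ => p < q)) →
        Nonempty (s ≃r (fun p q : ℚ => p < q)) →
        ∃ g ∈ G, ∀ x y : ℕ, s (g x) (g y) ↔ r x y := by
  refine ⟨G, fun h => ?_, fun a b => ⟨Equiv.swap a b, ⟨Prop × Prop, inferInstance, fun x => (x = a, x = b),
    fun x y e l => ?_⟩, by simp⟩, fun r s ⟨e⟩ ⟨f⟩ => ?_⟩
  · let g : ℕ → ℕ := fun n => 2 * (n.sqrt * n.sqrt + n.sqrt) - n
    have sq : ∀ n, (g n).sqrt = n.sqrt := fun n => by
      have h1 := Nat.sqrt_le n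
      have h2 := Nat.lt_succ_sqrt n
      refine (Nat.eq_sqrt.2 ⟨?_, ?_⟩).symm <;> simp only [g, Nat.succ_eq_add_one, add_mul, mul_add] at * <;> omega
    have inv : Function.Involutive g := fun n => by
      have h2 := Nat.lt_succ_sqrt n
      show 2 * ((g n).sqrt * (g n).sqrt + (g n).sqrt) - g n = n
      rw [sq]
      simp only [g, Nat.succ_eq_add_one, add_mul, mul_add] at h2 ⊢
      omega
    obtain ⟨α, _, c, hc⟩ : inv.toPerm g ∈ G := h ▸ Subgroup.mem_top _
    haveI := Fintype.ofFinite α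
    set m := Fintype.card α
    have k : ∀ i j : Fin (m + 1), c (m * m + i) = c (m * m + j) → ¬ i < j := fun i j e l => by
      have := hc _ _ e (by omega)
      simp only [Function.Involutive.coe_toPerm, g, Nat.sqrt_add_eq m (show (i : ℕ) ≤ m + m by omega),
        Nat.sqrt_add_eq m (show (j : ℕ) ≤ m + m by omega)] at this
      omega
    obtain ⟨i, j, h1, h2⟩ := Fintype.exists_ne_map_eq_of_card_lt (fun i : Fin (m + 1) => c (m * m + i)) (by simp [m])
    exact h1 (le_antisymm (not_lt.1 (k j i h2.symm)) (not_lt.1 (k i j h2)))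
  · simp only [Prod.mk.injEq, eq_iff_iff] at e
    rw [Equiv.swap_apply_of_ne_of_ne, Equiv.swap_apply_of_ne_of_ne] <;> omega
  · obtain ⟨g, g1, g2⟩ := baf e.toEquiv f.toEquiv
    exact ⟨g, g1, fun x y => f.map_rel_iff.symm.trans ((g2 x y).trans e.map_rel_iff)⟩

end Pool.Agent.S02241
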