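import Pool.Statements.S02249
import Pool.Agent.H.MP_8fc759_al.Full

set_option autoImplicit false
open Pool Pool.MP_8fc759_al

namespace Pool.Agent.S02249

theorem result :
    ∀ (X : Type) [Infinite X], ∃ α : MulAut (FreeGroup X),
      (∀ x : FreeGroup X, α x * x⁻¹ ∈ commutator (FreeGroup X)) ∧
      (∀ β : MulAut (FreeGroup X),
        (β ∈ Subgroup.normalClosure ({α} : Set (MulAut (FreeGroup X))) ↔
          ∀ x : FreeGroup X, β x * x⁻¹ ∈ commutator (FreeGroup X))) := by
  intro X _
  obtain ⟨α, h1, h2⟩ := Pool.Agent.H.MP_8fc759_al.main (X := X)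
  have key : ∀ β : MulAut (FreeGroup X), β ∈ Pool.Agent.H.MP_8fc759_al.IAs X ↔
      ∀ x : FreeGroup X, β x * x⁻¹ ∈ commutator (FreeGroup X) := fun β =>
    forall_congr' fun x => by
      rw [← Abelianization.ker_of, MonoidHom.mem_ker, map_mul, map_inv, mul_inv_eq_one]
  exact ⟨α, (key α).1 h1, fun β => by rw [h2, key]⟩

end Pool.Agent.S02249
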