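import Pool.Statements.S02271
import Pool.Agent.H.MP_908eba_al.C

set_option autoImplicit false
open Pool Pool.MP_908eba_al Pool.Agent.H.MP_908eba_al

namespace Pool.Agent.S02271

theorem result :
  ∀ (p q : ℕ) (Γ : Subgroup ((Fin p ⊕ Fin q → ℝ) ≃ᵃ[ℝ] (Fin p ⊕ Fin q → ℝ))),
    (∀ f ∈ Γ, ∀ v : Fin p ⊕ Fin q → ℝ,
      (∑ i : Fin p, (f.linear v (Sum.inl i)) ^ 2) - (∑ j : Fin q, (f.linear v (Sum.inr j)) ^ 2)
        = (∑ i : Fin p, (v (Sum.inl i)) ^ 2) - (∑ j : Fin q, (v (Sum.inr j)) ^ 2)) →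
    (∃ b : Module.Basis (Fin p ⊕ Fin q) ℝ (Fin p ⊕ Fin q → ℝ),
      {w : Fin p ⊕ Fin q → ℝ | ∃ f ∈ Γ, f.linear = LinearEquiv.refl ℝ (Fin p ⊕ Fin q → ℝ) ∧ f 0 = w}
        = (Submodule.span ℤ (Set.range b) : Set (Fin p ⊕ Fin q → ℝ))) →
    {L : Subgroup Γ | ∃ φ : Γ →* ((Fin p ⊕ Fin q → ℝ) ≃ᵃ[ℝ] (Fin p ⊕ Fin q → ℝ)),
        Function.Injective φ ∧
        (∀ g : Γ, ∀ v : Fin p ⊕ Fin q → ℝ,
          (∑ i : Fin p, ((φ g).linear v (Sum.inl i)) ^ 2) - (∑ j : Fin q, ((φ g).linear v (Sum.inr j)) ^ 2)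
            = (∑ i : Fin p, (v (Sum.inl i)) ^ 2) - (∑ j : Fin q, (v (Sum.inr j)) ^ 2)) ∧
        (∃ b : Module.Basis (Fin p ⊕ Fin q) ℝ (Fin p ⊕ Fin q → ℝ),
          {w : Fin p ⊕ Fin q → ℝ | ∃ g : Γ, (φ g).linear = LinearEquiv.refl ℝ (Fin p ⊕ Fin q → ℝ) ∧ φ g 0 = w}
            = (Submodule.span ℤ (Set.range b) : Set (Fin p ⊕ Fin q → ℝ))) ∧
        ∀ g : Γ, g ∈ L ↔ (φ g).linear = LinearEquiv.refl ℝ (Fin p ⊕ Fin q → ℝ)}.Finite := by
  intro p q Γ _ _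
  let B : (Fin p ⊕ Fin q → ℝ) →ₗ[ℝ] (Fin p ⊕ Fin q → ℝ) →ₗ[ℝ] ℝ :=
    LinearMap.mk₂ ℝ (fun v w => ∑ i : Fin p, v (Sum.inl i) * w (Sum.inl i) -
        ∑ j : Fin q, v (Sum.inr j) * w (Sum.inr j))
      (fun u v w => by simp [add_mul, Finset.sum_add_distrib]; ring)
      (fun c v w => by simp [mul_assoc, ← Finset.mul_sum, mul_sub])
      (fun u v w => by simp [mul_add, Finset.sum_add_distrib]; ring)
      (fun c v w => by simp [mul_left_comm _ c, ← Finset.mul_sum, mul_sub])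
  have hs : ∀ v w, B v w = B w v := fun v w => by simp [B, mul_comm]
  have hB : ∀ v, (∀ w, B v w = 0) → v = 0 := by
    intro v h
    ext k
    have := h (Pi.single k 1)
    rcases k with k | k <;> simpa [B, Pi.single_apply] using this
  have main : ∀ S : Set (Subgroup Γ), (∀ L ∈ S, ∃ R : Rl Γ (Fin p ⊕ Fin q → ℝ) (Fin p ⊕ Fin q) B,
      ∀ g, g ∈ L ↔ R.A g = 1) → S.Finite := by
    intro S key
    choose R hR using key
    exact fin_lat hB hs S (fun L => R L.1 L.2) fun i j h =>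
      Subtype.ext (Subgroup.ext fun g => by rw [hR _ i.2, hR _ j.2, h])
  refine main _ ?_
  rintro L ⟨φ, h1, h2, ⟨b, h3⟩, h4⟩
  have e : ∀ g : Γ, ((φ g).linear : Module.End ℝ (Fin p ⊕ Fin q → ℝ)) = 1 ↔
      (φ g).linear = LinearEquiv.refl ℝ _ := fun g =>
    ⟨fun h => LinearEquiv.toLinearMap_injective h, fun h => by rw [h]; rfl⟩
  have f : ∀ (g : Γ) v, φ g v = φ g 0 + (φ g).linear v := fun g v => by
    have := (φ g).map_vadd 0 v
    simpa [add_comm] using this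
  refine ⟨⟨⟨⟨fun g => ((φ g).linear : Module.End ℝ (Fin p ⊕ Fin q → ℝ)),
    (e 1).2 (by rw [map_one]; rfl)⟩, fun g h =>
      congrArg (fun x : (Fin p ⊕ Fin q → ℝ) ≃ᵃ[ℝ] (Fin p ⊕ Fin q → ℝ) =>
        (x.linear : Module.End ℝ (Fin p ⊕ Fin q → ℝ))) (map_mul φ g h)⟩, fun g => φ g 0, fun g h => ?_, fun g h a c => ?_, b,
    fun w => ?_, fun g v w => ?_⟩, fun g => (h4 g).trans (e g).symm⟩
  · rw [map_mul]
    exact f g _
  · refine h1 (AffineEquiv.ext fun v => ?_)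
    rw [f g, f h, c]
    exact congrArg _ (LinearMap.congr_fun a v)
  · rw [← SetLike.mem_coe, ← h3]
    exact exists_congr fun g => and_congr_left' (e g)
  · have Q : ∀ v, B ((φ g).linear v) ((φ g).linear v) = B v v := fun v => by
      simpa [B, pow_two] using h2 g v
    have := Q (v + w)
    simp only [map_add, LinearMap.add_apply, Q v, Q w, hs w v,
      hs ((φ g).linear w) ((φ g).linear v)] at this
    change B ((φ g).linear v) ((φ g).linear w) = B v w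
    linarith

end Pool.Agent.S02271
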