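import Pool.Statements.S02332
import Pool.Agent.H.MP_9442c3_al.B

set_option autoImplicit false
open Pool Pool.MP_9442c3_al Pool.Agent.H.MP_9442c3_al

namespace Pool.Agent.S02332

theorem result :
    ¬ (∀ (r : ℕ), 2 ≤ r → ∀ H : Subgroup (FreeGroup (Fin r)),
      (∀ (n : ℕ) (E I : Finset (Monoid.Coprod (FreeGroup (Fin n)) ↥H)),
        (∃ x : Fin n → FreeGroup (Fin r),
          (∀ w ∈ E, Monoid.Coprod.lift (FreeGroup.lift x) H.subtype w = 1) ∧
          (∀ v ∈ I, Monoid.Coprod.lift (FreeGroup.lift x) H.subtype v ≠ 1)) →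
        (∃ y : Fin n → ↥H,
          (∀ w ∈ E, Monoid.Coprod.lift (FreeGroup.lift y) (MonoidHom.id ↥H) w = 1) ∧
          (∀ v ∈ I, Monoid.Coprod.lift (FreeGroup.lift y) (MonoidHom.id ↥H) v ≠ 1))) →
      (∃ a ∈ H, ∃ b ∈ H, a * b ≠ b * a) ∧
      ∃ K : Subgroup (FreeGroup (Fin r)),
        Function.Bijective (Monoid.Coprod.lift H.subtype K.subtype)) := by
  classical
  intro h
  obtain ⟨-, K, hK⟩ := h 4 (by omega) HH fun n E I ⟨x, hE, hI⟩ => by
    obtain ⟨a, b, hab⟩ := ret_ne (I.image (Monoid.Coprod.lift (FreeGroup.lift x) HH.subtype))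
      (by simpa using hI)
    have e : Monoid.Coprod.lift (FreeGroup.lift fun i => ret a b (x i)) (MonoidHom.id HH) =
        (ret a b).comp (Monoid.Coprod.lift (FreeGroup.lift x) HH.subtype) :=
      Monoid.Coprod.hom_ext (FreeGroup.ext_hom _ _ fun i => by simp) (ret_id a b).symm
    refine ⟨fun i => ret a b (x i), fun w hw => ?_, fun v hv => ?_⟩
    · rw [e, MonoidHom.comp_apply, hE w hw, map_one]
    · rw [e]; exact hab _ (Finset.mem_image_of_mem _ hv)
  exact not_ff K hK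

end Pool.Agent.S02332
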