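import Pool.Statements.S02341
import Pool.Agent.H.MP_94cd9d_al.C

set_option autoImplicit false
open Pool Pool.MP_94cd9d_al

namespace Pool.Agent.S02341

theorem result :
    ∀ c : ℂ, c ≠ 0 →
      IsSimpleRing
        (RingQuot (fun a b : FreeAlgebra ℂ ℤ =>
          ∃ m n : ℤ,
            a = FreeAlgebra.ι ℂ m * FreeAlgebra.ι ℂ n - FreeAlgebra.ι ℂ n * FreeAlgebra.ι ℂ m ∧
            b = ((m - n : ℤ) : ℂ) • FreeAlgebra.ι ℂ (m + n) +
              (if m + n = 0 then
                algebraMap ℂ (FreeAlgebra ℂ ℤ) (c * ((m : ℂ) ^ 3 - (m : ℂ)) / 12)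
               else 0))) := by
  exact fun c hc => Pool.Agent.H.MP_94cd9d_al.main c hc

end Pool.Agent.S02341
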