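import Pool.Statements.S02344
import Pool.Agent.H.MP_94dfa5_al.A

set_option autoImplicit false
open Pool Pool.MP_94dfa5_al

namespace Pool.Agent.S02344

/-- The negation of the preceding statement: If a countable group G is stable in permutations (almost-homomorphisms to finite symmetric groups, in normalized Hamming distance, are close to true homomorphisms), then so is every semidirect product of G by a finite group H. -/
theorem result :
    ¬ (∀ (P : ∀ (K : Type) [Group K], Prop),
      (∀ (K : Type) [Group K], P K ↔
        ∀ (S : Finset K) (ε : ℝ), 0 < ε → ∃ (T : Finset K) (δ : ℝ), 0 < δ ∧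
          ∀ (n : ℕ) (f : K → Equiv.Perm (Fin n)),
            (∀ g ∈ T, ∀ h ∈ T,
              ((Finset.univ.filter (fun i : Fin n => f (g * h) i ≠ (f g * f h) i)).card : ℝ)
                / (n : ℝ) < δ) →
            ∃ ρ : K →* Equiv.Perm (Fin n), ∀ g ∈ S,
              ((Finset.univ.filter (fun i : Fin n => f g i ≠ ρ g i)).card : ℝ) / (n : ℝ) < ε) →
      ∀ (G : Type) [Group G] [Countable G], P G →
        ∀ (H : Type) [Group H] [Finite H] (φ : H →* MulAut G),
          P (SemidirectProduct G H φ)) := by
  intro h
  exact Pool.Agent.H.MP_94dfa5_al.K_not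
    (h (fun K _ => Pool.Agent.H.MP_94dfa5_al.Stable K) (fun _ _ => Iff.rfl)
      Pool.Agent.H.MP_94dfa5_al.G Pool.Agent.H.MP_94dfa5_al.G_stable _ Pool.Agent.H.MP_94dfa5_al.φ)

end Pool.Agent.S02344
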