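import Pool.Statements.S02358
import Pool.Agent.H.MP_954a1f_al.GS
import Pool.Agent.H.MP_954a1f_al.A5

set_option autoImplicit false
open Pool Pool.MP_954a1f_al

namespace Pool.Agent.S02358

open Pool.Agent.H.MP_954a1f_al MonoidAlgebra Module

/-- the semidirect product of a module over the group ring by the group -/
@[ext] structure E (G M : Type) : Type where
  m : M
  g : G

section
variable {G M : Type} [Group G] [AddCommGroup M] [Module (MonoidAlgebra (ZMod 2) G) M]

noncomputable instance : Mul (E G M) := ⟨fun u v => ⟨u.m + o u.g • v.m, u.g * v.g⟩⟩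
noncomputable instance : One (E G M) := ⟨⟨0, 1⟩⟩
noncomputable instance : Inv (E G M) := ⟨fun u => ⟨-(o u.g⁻¹ • u.m), u.g⁻¹⟩⟩

@[simp] lemma mul_m (u v : E G M) : (u * v).m = u.m + o u.g • v.m := rfl
@[simp] lemma mul_g (u v : E G M) : (u * v).g = u.g * v.g := rfl
@[simp] lemma one_m : (1 : E G M).m = 0 := rfl
@[simp] lemma one_g : (1 : E G M).g = 1 := rfl
@[simp] lemma inv_m (u : E G M) : (u⁻¹).m = -(o u.g⁻¹ • u.m) := rfl
@[simp] lemma inv_g (u : E G M) : (u⁻¹).g = u.g⁻¹ := rfl

noncomputable instance : Group (E G M) := Group.ofLeftAxioms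
  (fun u v w => by ext1 <;> simp [o_mul, mul_smul, mul_assoc, add_assoc])
  (fun u => by ext1 <;> simp [o_one])
  (fun u => by ext1 <;> simp)

noncomputable def pr : E G M →* G := MonoidHom.mk' E.g (fun _ _ => rfl)

noncomputable def Emap {G' M' : Type} [Group G'] [AddCommGroup M']
    [Module (MonoidAlgebra (ZMod 2) G') M'] (π : G →* G') (φ : M →+ M')
    (h : ∀ g m, φ (o g • m) = o (π g) • φ m) : E G M →* E G' M' :=
  MonoidHom.mk' (fun u => ⟨φ u.m, π u.g⟩) (fun u v => by ext1 <;> simp [h])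

end

lemma map_iter {G H : Type} [Group G] [Group H] (f : G →* H) (y z : G) (n : ℕ) :
    f ((cm y)^[n] z) = (cm (f y))^[n] (f z) := by
  induction n with
  | zero => rfl
  | succ n ih =>
    rw [Function.iterate_succ_apply', Function.iterate_succ_apply', ← ih]
    simp [cm]

lemma iter1 (Y : E S (R × R)) (z : S) (n : ℕ) : ∃ ε : R × R, ∀ m,
    (cm Y)^[n] ⟨m, z⟩ = ⟨Dn Y.g z n • m + ε, (cm Y.g)^[n] z⟩ := by
  induction n with
  | zero => exact ⟨0, fun m => by simp [Dn]⟩
  | succ n ih =>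
    obtain ⟨ε, h⟩ := ih
    refine ⟨(cm Y ⟨ε, (cm Y.g)^[n] z⟩).m, fun m => ?_⟩
    rw [Function.iterate_succ_apply', Function.iterate_succ_apply', h]
    ext1
    · simp only [cm, mul_m, mul_g, inv_m, inv_g, Dn, Fz, mul_smul, sub_smul, smul_add]
      abel
    · rfl

lemma iter2 (Y : E S (R × R)) (z : S) (hz : (cm Y.g)^[5] z = z) (k : ℕ) (m : R × R) :
    ∃ v : R × R, (cm Y)^[5 * k] ⟨m, z⟩ * (⟨m, z⟩ : E S (R × R))⁻¹ =
      ⟨(∑ l ∈ Finset.range k, Dn Y.g z 5 ^ l) • v, 1⟩ := by
  obtain ⟨ε, h⟩ := iter1 Y z 5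
  rw [hz] at h
  have h2 : (cm Y)^[5 * k] ⟨m, z⟩ =
      ⟨Dn Y.g z 5 ^ k • m + (∑ l ∈ Finset.range k, Dn Y.g z 5 ^ l) • ε, z⟩ := by
    induction k with
    | zero => simp
    | succ k ih =>
      rw [mul_add, mul_one, add_comm, Function.iterate_add_apply, ih, h]
      ext1
      · simp only [smul_add, ← mul_smul, ← pow_succ', Finset.sum_range_succ', Finset.mul_sum,
          add_smul, pow_zero, one_smul, add_assoc]
      · rfl
  refine ⟨(Dn Y.g z 5 - 1) • m + ε, ?_⟩
  rw [h2]
  ext1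
  · simp only [mul_m, inv_m, smul_neg, ← mul_smul, ← o_mul, mul_inv_cancel, o_one, one_smul,
      smul_add, geom_sum_mul]
    rw [sub_smul, one_smul]
    abel
  · simp

abbrev PG (r : Fin 2 → FreeGroup (Fin 2)) : Type :=
  PresentedGroup ({r 0, r 1} : Set (FreeGroup (Fin 2)))
abbrev AG (r : Fin 2 → FreeGroup (Fin 2)) : Type := MonoidAlgebra (ZMod 2) (PG r)

noncomputable def mu (r : Fin 2 → FreeGroup (Fin 2)) : FreeGroup (Fin 2) →* E (PG r) (AG r × AG r) :=
  FreeGroup.lift ![⟨(1, 0), PresentedGroup.of 0⟩, ⟨(0, 1), PresentedGroup.of 1⟩]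

noncomputable def dd (r : Fin 2 → FreeGroup (Fin 2)) : AG r × AG r →ₗ[AG r] AG r :=
  LinearMap.coprod (LinearMap.toSpanSingleton _ _ (o (PresentedGroup.of 0) - 1))
    (LinearMap.toSpanSingleton _ _ (o (PresentedGroup.of 1) - 1))

lemma mu_g (r : Fin 2 → FreeGroup (Fin 2)) (w : FreeGroup (Fin 2)) :
    (mu r w).g = PresentedGroup.mk _ w := by
  have : pr.comp (mu r) = PresentedGroup.mk _ := by
    ext1 i; fin_cases i <;> simp [mu, pr] <;> rfl
  exact DFunLike.congr_fun this w

lemma fox (r : Fin 2 → FreeGroup (Fin 2)) (v : AG r × AG r) (hv : dd r v = 0) :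
    ∃ a b : AG r, v = a • (mu r (r 0)).m + b • (mu r (r 1)).m := by
  let N : Submodule (AG r) (AG r × AG r) := Submodule.span _ {(mu r (r 0)).m, (mu r (r 1)).m}
  let q : E (PG r) (AG r × AG r) →* E (PG r) ((AG r × AG r) ⧸ N) :=
    Emap (MonoidHom.id _) N.mkQ.toAddMonoidHom (fun g m => rfl)
  have hl : FreeGroup.lift (fun i => q (mu r (FreeGroup.of i))) = q.comp (mu r) := by
    ext1 i; simp
  have hr : ∀ w ∈ ({r 0, r 1} : Set (FreeGroup (Fin 2))),
      FreeGroup.lift (fun i => q (mu r (FreeGroup.of i))) w = 1 := by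
    intro w hw
    rw [hl]
    ext1
    · change N.mkQ (mu r w).m = 0
      rw [Submodule.mkQ_apply, Submodule.Quotient.mk_eq_zero]
      refine Submodule.subset_span ?_
      rcases hw with rfl | rfl <;> simp
    · change (mu r w).g = 1
      rw [mu_g]
      exact PresentedGroup.one_of_mem hw
  let δ := PresentedGroup.toGroup hr
  have hδ : ∀ g, (δ g).g = g := by
    have : pr.comp δ = MonoidHom.id _ := by
      ext1 i
      simp only [MonoidHom.comp_apply, δ, PresentedGroup.toGroup.of]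
      exact mu_g r _
    exact DFunLike.congr_fun this
  let Δ : AG r →+ (AG r × AG r) ⧸ N := (Finsupp.liftAddHom fun g : PG r =>
    ((smulAddHom (AG r) _).flip (δ g).m).comp (singleAddHom 1)).comp coeffAddEquiv.toAddMonoidHom
  have hΔ : ∀ g c, Δ (single g c) = (single 1 c : AG r) • (δ g).m := fun g c => by
    simp [Δ, coeffAddEquiv]
  have h1 : ∀ (a : AG r) g, Δ (a * (o g - 1)) = a • (δ g).m := by
    intro a g
    induction a using MonoidAlgebra.induction_linear with
    | zero => simp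
    | add a b ha hb => rw [add_mul, map_add, ha, hb, add_smul]
    | single h c =>
      rw [mul_sub, mul_one, map_sub, o, single_mul_single, hΔ, hΔ, map_mul, mul_m, hδ, smul_add,
        ← mul_smul, o, single_mul_single]
      simp
  have h2 := congrArg Δ hv
  obtain ⟨a, b⟩ := v
  simp only [dd, LinearMap.coprod_apply, LinearMap.toSpanSingleton_apply, smul_eq_mul, map_add, h1,
    map_zero, δ, PresentedGroup.toGroup.of] at h2
  have h3 : N.mkQ (a • (mu r (FreeGroup.of 0)).m + b • (mu r (FreeGroup.of 1)).m) = 0 := h2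
  rw [Submodule.mkQ_apply, Submodule.Quotient.mk_eq_zero, Submodule.mem_span_pair] at h3
  obtain ⟨s, t, h4⟩ := h3
  refine ⟨s, t, ?_⟩
  rw [h4]
  simp [mu]

theorem main (r : Fin 2 → FreeGroup (Fin 2)) (σ : Fin 2 → R) (U : Fin 2 → Submodule (ZMod 2) R)
    (hU : ∀ i, finrank (ZMod 2) (U i) ≤ 12) (hσ : ∀ i a, a * σ i ∈ U i)
    (hr : ∀ i, ∃ v : R × R, FreeGroup.lift
      (![⟨(1, 0), sx⟩, ⟨(0, 1), sy⟩] : Fin 2 → E S (R × R)) (r i) = ⟨σ i • v, 1⟩)
    [Finite (PG r)] : False := by
  classical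
  have hp : pr.comp (FreeGroup.lift (![⟨(1, 0), sx⟩, ⟨(0, 1), sy⟩] : Fin 2 → E S (R × R))) =
      FreeGroup.lift ![sx, sy] := by
    ext1 i; fin_cases i <;> simp [pr]
  have hr2 : ∀ w ∈ ({r 0, r 1} : Set (FreeGroup (Fin 2))), FreeGroup.lift ![sx, sy] w = 1 := by
    have : ∀ i, FreeGroup.lift ![sx, sy] (r i) = 1 := fun i => by
      obtain ⟨v, hv⟩ := hr i
      rw [← hp, MonoidHom.comp_apply, hv]; rfl
    rintro w (rfl | rfl) <;> apply this
  let π : PG r →* S := PresentedGroup.toGroup hr2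
  have hπ : Function.Surjective π := fun g =>
    gen π.range ⟨PresentedGroup.of 0, by simp [π]⟩ ⟨PresentedGroup.of 1, by simp [π]⟩ g
  choose s hs using hπ
  let πA : AG r →+* R := mapDomainRingHom (ZMod 2) π
  have hπA : ∀ g, πA (o g) = o (π g) := fun g => by simp [πA, o]
  let B : Submodule (ZMod 2) (AG r) := Submodule.span _ (Set.range fun n : π.ker => o (n : PG r))
  let Ω : Submodule (ZMod 2) (AG r) :=
    Submodule.span _ (Set.range fun n : π.ker => o (n : PG r) - 1)
  let C : Submodule (ZMod 2) (AG r) := Submodule.span _ (Set.range fun t : S => o (s t))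
  let C' : Submodule (ZMod 2) (AG r) := Submodule.span _ (Set.range fun t : S => o (s t) - 1)
  have mB : ∀ n ∈ π.ker, o n ∈ B := fun n hn => Submodule.subset_span ⟨⟨n, hn⟩, rfl⟩
  have mΩ : ∀ n ∈ π.ker, o n - 1 ∈ Ω := fun n hn => Submodule.subset_span ⟨⟨n, hn⟩, rfl⟩
  have mC : ∀ t, o (s t) ∈ C := fun t => Submodule.subset_span ⟨t, rfl⟩
  have mC' : ∀ t, o (s t) - 1 ∈ C' := fun t => Submodule.subset_span ⟨t, rfl⟩
  have hn : ∀ g, g * (s (π g))⁻¹ ∈ π.ker := fun g => by simp [MonoidHom.mem_ker, hs]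
  have top : ∀ V : Submodule (ZMod 2) (AG r), (∀ g, o g ∈ V) → ∀ a, a ∈ V := by
    intro V hV a
    induction a using MonoidAlgebra.induction_linear with
    | zero => exact V.zero_mem
    | add a b ha hb => exact V.add_mem ha hb
    | single g c => simpa [o] using V.smul_mem c (hV g)
  have hle : ∀ {ι κ : Type} (f : ι → AG r) (g : κ → AG r) (V : Submodule (ZMod 2) (AG r)),
      (∀ i j, f i * g j ∈ V) →
        Submodule.span _ (Set.range f) * Submodule.span _ (Set.range g) ≤ V := by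
    intro ι κ f g V h
    rw [Submodule.span_mul_span, Submodule.span_le]
    rintro _ ⟨_, ⟨i, rfl⟩, _, ⟨j, rfl⟩, rfl⟩
    exact h i j
  have hrange : ∀ g, o g - 1 ∈ LinearMap.range (dd r) := by
    let K : Subgroup (PG r) :=
      { carrier := {g | o g - 1 ∈ LinearMap.range (dd r)}
        one_mem' := ⟨0, by simp [o_one]⟩
        mul_mem' := fun {a b} ha hb => by
          have : o (a * b) - 1 = o a • (o b - 1) + (o a - 1) := by
            rw [o_mul, smul_eq_mul]; noncomm_ring
          rw [Set.mem_ofPred_eq, this]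
          exact Submodule.add_mem _ (Submodule.smul_mem _ _ hb) ha
        inv_mem' := fun {a} ha => by
          have : o a⁻¹ - 1 = -(o a⁻¹ • (o a - 1)) := by
            rw [smul_eq_mul, mul_sub, ← o_mul, inv_mul_cancel, o_one]; noncomm_ring
          rw [Set.mem_ofPred_eq, this]
          exact Submodule.neg_mem _ (Submodule.smul_mem _ _ ha) }
    intro g
    refine PresentedGroup.generated_by _ K (fun i => ?_) g
    fin_cases i
    · exact ⟨(1, 0), by simp [dd]⟩
    · exact ⟨(0, 1), by simp [dd]⟩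
  have hker : ∀ a, πA a = 0 → a ∈ Ω * ⊤ := by
    intro a ha
    have h1 := top ((Ω * ⊤).comap (LinearMap.id - (mapDomainLinearMap (ZMod 2) (ZMod 2) s).comp
      (mapDomainLinearMap (ZMod 2) (ZMod 2) π))) (fun g => by
        have : o g - o (s (π g)) = (o (g * (s (π g))⁻¹) - 1) * o (s (π g)) := by
          rw [sub_mul, ← o_mul]; simp
        simp only [Submodule.mem_comap, LinearMap.sub_apply, LinearMap.id_apply,
          LinearMap.comp_apply, o, mapDomainLinearMap_single]
        exact this ▸ Submodule.mul_mem_mul (mΩ _ (hn g)) trivial) a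
    have h2 : mapDomainLinearMap (ZMod 2) (ZMod 2) π a = 0 := ha
    simpa [h2] using h1
  have hΩ0 : ∀ a ∈ Ω * ⊤, πA a = 0 := by
    intro a ha
    refine Submodule.mul_induction_on ha (fun m hm n _ => ?_) (fun x y hx hy => by simp [hx, hy])
    have : Ω ≤ LinearMap.ker (mapDomainLinearMap (ZMod 2) (ZMod 2) π) := by
      rw [Submodule.span_le]
      rintro _ ⟨n, rfl⟩
      change πA (o (n : PG r) - 1) = 0
      rw [map_sub, hπA, MonoidHom.mem_ker.mp n.2, map_one, o_one, sub_self]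
    have h2 : πA m = 0 := this hm
    rw [map_mul, h2, zero_mul]
  have := Fintype.ofFinite (PG r)
  let ψ : Fin 2 → AG r →ₗ[ZMod 2] R := fun i =>
    (LinearMap.mulRight (ZMod 2) (σ i)).comp (mapDomainLinearMap (ZMod 2) (ZMod 2) π)
  have hψ : ∀ i a, ψ i a = πA a * σ i := fun _ _ => rfl
  refine GS B Ω C C' (fun i => (mu r (r i)).m) (fun i => LinearMap.ker (ψ i)) (mB 1 π.ker.one_mem)
    (hle _ _ _ fun a b => ?_) (hle _ _ _ fun a b => ?_) ?_ ?_ ?_ ?_ ?_ (dd r) ?_
    (hle _ _ _ fun a b => ?_) (hle _ _ _ fun a b => ?_) (fox r) ?_ ?_ ?_ ?_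
  · rw [sub_mul, one_mul, ← o_mul]
    exact B.sub_mem (mB _ (π.ker.mul_mem a.2 b.2)) (mB _ b.2)
  · have : o (a : PG r) * (o (b : PG r) - 1) = (o (a * b : PG r) - 1) - (o (a : PG r) - 1) := by
      rw [o_mul]; noncomm_ring
    rw [this]
    exact Ω.sub_mem (mΩ _ (π.ker.mul_mem a.2 b.2)) (mΩ _ a.2)
  · rw [eq_top_iff]
    refine fun a _ => top _ (fun g => ?_) a
    have : o g = o (g * (s (π g))⁻¹) * o (s (π g)) := by rw [← o_mul]; simp
    rw [this]
    exact Submodule.mul_mem_mul (mB _ (hn g)) (mC _)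
  · rw [eq_top_iff]
    refine fun a _ => top _ (fun g => ?_) a
    have : o g = (o (g * (s (π g))⁻¹) - 1) * o (s (π g)) + o (s (π g)) := by
      rw [sub_mul, ← o_mul]; simp
    rw [this]
    exact Submodule.add_mem_sup (Submodule.mul_mem_mul (mΩ _ (hn g)) trivial) (mC _)
  · exact (finrank_range_le_card _).trans card_S.le
  · have h1 : finrank (ZMod 2) B ≤ Fintype.card π.ker := finrank_range_le_card _
    have h2 := Subgroup.card_eq_card_quotient_mul_card_subgroup π.ker
    rw [Nat.card_congr (QuotientGroup.quotientKerEquivOfSurjective π fun t => ⟨_, hs t⟩).toEquiv,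
      Nat.card_eq_fintype_card, Nat.card_eq_fintype_card, Nat.card_eq_fintype_card, card_S] at h2
    rw [finrank_eq_card_basis (MonoidAlgebra.basis (PG r) (ZMod 2))]
    omega
  · exact (finrank_range_le_card _).trans card_S.le
  · refine fun a _ => top _ (fun g => ?_) a
    have : o g = o (g * (s (π g))⁻¹) + o (g * (s (π g))⁻¹) * (o (s (π g)) - 1) := by
      rw [mul_sub, ← o_mul]; simp
    rw [this]
    exact Submodule.add_mem_sup (mB _ (hn g)) (Submodule.mul_mem_mul (mB _ (hn g)) (mC' _))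
  · have : (o (a : PG r) - 1) * o (b : PG r) = (o (a * b : PG r) - 1) - (o (b : PG r) - 1) := by
      rw [o_mul]; noncomm_ring
    rw [this]
    exact Submodule.sub_mem (LinearMap.range (dd r)) (hrange _) (hrange _)
  · exact Submodule.smul_mem (LinearMap.range (dd r)) _ (hrange _)
  · intro i a ha
    obtain ⟨v, hv⟩ := hr i
    let q : E (PG r) (AG r × AG r) →* E S (R × R) :=
      Emap π (πA.toAddMonoidHom.prodMap πA.toAddMonoidHom) (fun g m => by ext1 <;> simp [hπA])
    have hq : q.comp (mu r) = FreeGroup.lift ![⟨(1, 0), sx⟩, ⟨(0, 1), sy⟩] := by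
      ext1 i; fin_cases i <;> simp [q, Emap, mu, π]
    rw [← hq] at hv
    have h1 := congrArg E.m hv
    obtain ⟨w, hw⟩ : ∃ w, w = (mu r (r i)).m := ⟨_, rfl⟩
    have h2 : (πA w.1, πA w.2) = σ i • v := hw ▸ h1
    have h3 : πA a * σ i = 0 := ha
    have h4 : πA (a * w.1) = 0 := by
      rw [map_mul, show πA w.1 = σ i * v.1 from congrArg Prod.fst h2, ← mul_assoc, h3, zero_mul]
    have h5 : πA (a * w.2) = 0 := by
      rw [map_mul, show πA w.2 = σ i * v.2 from congrArg Prod.snd h2, ← mul_assoc, h3, zero_mul]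
    have h6 : ∀ (b : AG r) (e : AG r × AG r), b ∈ Ω * ⊤ →
        b • e ∈ Ω • (⊤ : Submodule (ZMod 2) (AG r × AG r)) := fun b e hb =>
      Submodule.mul_induction_on hb
        (fun m hm n _ => by rw [mul_smul]; exact Submodule.smul_mem_smul hm trivial)
        (fun x y hx hy => by rw [add_smul]; exact Submodule.add_mem _ hx hy)
    have h7 : a • w = (a * w.1) • ((1, 0) : AG r × AG r) + (a * w.2) • ((0, 1) : AG r × AG r) := by
      ext1 <;> simp
    beta_reduce
    rw [← hw, h7]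
    exact Submodule.add_mem _ (h6 _ _ (hker _ h4)) (h6 _ _ (hker _ h5))
  · intro i a ha
    rw [LinearMap.mem_ker, hψ, hΩ0 a ha, zero_mul]
  · intro i
    have h1 := LinearMap.finrank_range_add_finrank_ker (ψ i)
    have h2 : LinearMap.range (ψ i) ≤ U i := by
      rintro _ ⟨a, rfl⟩; exact hσ i _
    have h3 := Submodule.finrank_mono h2
    have := hU i
    beta_reduce
    omega
  · intro h
    have h1 := hΩ0 _ (mul_le_mul_right le_top Ω (h (mB 1 π.ker.one_mem)))
    rw [o_one, map_one] at h1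
    exact one_ne_zero h1

/-- The negation of the preceding statement: For all a, b ≥ 1, the group with generators x, y and relations x = [x,y,...,y] (a copies of y) and y = [y,x,...,x] (b copies of x) is finite, using left-normed commutators [u,v]=u⁻¹v⁻¹uv. -/
theorem result :
    ¬ (∀ a b : ℕ, 1 ≤ a → 1 ≤ b →
      Finite (PresentedGroup
        ({(fun z : FreeGroup (Fin 2) =>
              z⁻¹ * (FreeGroup.of (1 : Fin 2))⁻¹ * z * FreeGroup.of (1 : Fin 2))^[a]
              (FreeGroup.of (0 : Fin 2)) * (FreeGroup.of (0 : Fin 2))⁻¹,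
          (fun z : FreeGroup (Fin 2) =>
              z⁻¹ * (FreeGroup.of (0 : Fin 2))⁻¹ * z * FreeGroup.of (0 : Fin 2))^[b]
              (FreeGroup.of (1 : Fin 2)) * (FreeGroup.of (1 : Fin 2))⁻¹} :
          Set (FreeGroup (Fin 2))))) := by
  intro H
  obtain ⟨k1, hk1, U1, hU1, h1⟩ := certa
  obtain ⟨k2, hk2, U2, hU2, h2⟩ := certb
  refine @main ![(cm (FreeGroup.of 1))^[5 * k1] (FreeGroup.of 0) * (FreeGroup.of 0)⁻¹,
    (cm (FreeGroup.of 0))^[5 * k2] (FreeGroup.of 1) * (FreeGroup.of 1)⁻¹]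
    ![∑ l ∈ Finset.range k1, Dn sy sx 5 ^ l, ∑ l ∈ Finset.range k2, Dn sx sy 5 ^ l] ![U1, U2]
    (fun i => by fin_cases i <;> assumption) (fun i => by fin_cases i <;> assumption) ?_
    (H (5 * k1) (5 * k2) (by omega) (by omega))
  intro i
  fin_cases i
  · simpa [map_iter] using iter2 ⟨(0, 1), sy⟩ sx pera k1 (1, 0)
  · simpa [map_iter] using iter2 ⟨(1, 0), sx⟩ sy perb k2 (0, 1)

end Pool.Agent.S02358
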