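import Pool.Statements.S02367
import Pool.Agent.H.MP_95e4ab_al.E

set_option autoImplicit false
universe u
open Pool Pool.MP_95e4ab_al

namespace Pool.Agent.S02367

/-- For a left and right artinian ring, if the indecomposable pure-injective modules of finite projective dimension form a closed set in the Ziegler spectrum, then projective dimensions of modules of finite projective dimension are uniformly bounded. -/
theorem result :
  ∀ (R : Type u) [Ring R], IsArtinianRing R → IsArtinianRing Rᵐᵒᵖ →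
  ∀ (PD : ModuleCat.{u} R → ℕ → Prop),
    (∀ (M : ModuleCat.{u} R) (n : ℕ), PD M n ↔
      ∃ (P : ℕ → ModuleCat.{u} R) (d : ∀ i : ℕ, P (i+1) →ₗ[R] P i) (ε : P 0 →ₗ[R] M),
        (∀ i, Module.Projective R (P i)) ∧ Function.Surjective ε ∧
        LinearMap.ker ε = LinearMap.range (d 0) ∧
        (∀ i, LinearMap.ker (d i) = LinearMap.range (d (i+1))) ∧
        (∀ i, n ≤ i → Subsingleton (P (i+1)))) →
  ∀ (Zg : ModuleCat.{u} R → Prop),
    (∀ N : ModuleCat.{u} R, Zg N ↔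
      (Nontrivial N ∧ (∀ A B : Submodule R N, IsCompl A B → A = ⊥ ∨ B = ⊥) ∧
       ∀ (I : Type u), ∃ g : (I → N) →ₗ[R] N,
         ∀ x : I →₀ N, g ⇑x = x.sum (fun _ m => m))) →
    (∀ N : ModuleCat.{u} R, Zg N → (¬ ∃ n, PD N n) →
      ∃ (X Y : ModuleCat.{u} R) (f : X →ₗ[R] Y),
        Module.FinitePresentation R X ∧ Module.FinitePresentation R Y ∧
        (∃ g : X →ₗ[R] N, ∀ h : Y →ₗ[R] N, h ∘ₗ f ≠ g) ∧
        ∀ M : ModuleCat.{u} R, Zg M → (∃ n, PD M n) →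
          ∀ g : X →ₗ[R] M, ∃ h : Y →ₗ[R] M, h ∘ₗ f = g) →
    ∃ n : ℕ, ∀ M : ModuleCat.{u} R, (∃ m, PD M m) → PD M n := by
  intro R _ _ _ PD hPD Zg hZg H
  have hZ : ∀ (N : ModuleCat.{u} R) (p : Pool.Agent.H.MP_95e4ab_al.Pair R),
      Pool.Agent.H.MP_95e4ab_al.AC R N → Pool.Agent.H.MP_95e4ab_al.LOC R N → ¬ p.Cl N → Zg N := by
    intro N p h1 h2 h3
    refine (hZg N).2 ⟨?_, h2.indec, h1.sum⟩
    by_contra hc
    rw [not_nontrivial_iff_subsingleton] at hc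
    exact h3 fun x _ => Subsingleton.elim 0 x ▸ Pool.Agent.H.MP_95e4ab_al.PP.Sat.zero
  obtain ⟨π, hπ⟩ := Pool.Agent.H.MP_95e4ab_al.pdPairs (R := R)
  have hπ' : ∀ (n : ℕ) (M : ModuleCat.{u} R), PD M n ↔ (π n).Cl M :=
    fun n M => (hPD M n).trans (hπ n M)
  by_contra hc
  push Not at hc
  obtain ⟨N, h1, h2, h3, h4⟩ := Pool.Agent.H.MP_95e4ab_al.main π (fun k M hM => by
      obtain ⟨P, d, ε, e1, e2, e3, e4, e5⟩ := (hπ k M).2 hM
      exact (hπ _ M).1 ⟨P, d, ε, e1, e2, e3, e4, fun i hi => e5 i (by omega)⟩)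
    {p | ∀ M : ModuleCat.{u} R, (∃ m, PD M m) → p.Cl M} (fun k => by
      obtain ⟨M, ⟨m, hm⟩, hk⟩ := hc k
      exact ⟨M, fun p hp => hp M ⟨m, hm⟩, fun h => hk ((hπ' k M).2 h)⟩)
  obtain ⟨X, Y, f, hX, hY, ⟨g, hg⟩, hf⟩ := H N (hZ N _ h1 h2 (h4 0))
    (fun ⟨n, hn⟩ => h4 n ((hπ' n N).1 hn))
  obtain ⟨p, hp⟩ := Pool.Agent.H.MP_95e4ab_al.injPair (R := R) X Y f
  obtain ⟨h, hh⟩ := (hp N).1 (h3 p fun M ⟨m, hm⟩ => by
    by_contra hM
    obtain ⟨N', e1, e2, e3, e4⟩ := Pool.Agent.H.MP_95e4ab_al.zl1 M p hM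
    exact e4 ((hp N').2 (hf N' (hZ N' p e1 e2 e4)
      ⟨m, (hπ' m N').2 (e3 _ ((hπ' m M).1 hm))⟩))) g
  exact hg h hh

end Pool.Agent.S02367
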