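import Pool.Statements.S02384
import Pool.Agent.H.MP_96de0f_al.E

set_option autoImplicit false
open Pool Pool.MP_96de0f_al

namespace Pool.Agent.S02384

/-- The negation of the preceding statement: Every abelian ℓ-group satisfies all quasi-identities of ℤ wr ℤ, and for any non-abelian ℓ-group H in that quasi-variety, quasi-identities true in H and all abelian ℓ-groups hold in ℤ wr ℤ; i.e. its quasi-variety covers the abelian one. -/
theorem result :
    ¬ ((∀ (K : Type) [Group K] [Lattice K] [MulLeftMono K] [MulRightMono K],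
      (∀ a b : K, a * b = b * a) →
      ∀ (k m : ℕ) (u v : Fin (m + 1) → Fin (m + 1) → FreeGroup (Fin k)),
        (∀ x : Fin k → Equiv.Perm (ℤ × ℤ),
          (∀ l, ∃ n : ℤ, ∃ f : ℤ →₀ ℤ, ∀ a b : ℤ, x l (a, b) = (a + n, b + f a)) →
          (∀ ω : ℤ × ℤ, Finset.univ.sup' Finset.univ_nonempty (fun i => Finset.univ.inf' Finset.univ_nonempty (fun j => toLex ((FreeGroup.lift x (u i j)) ω))) = toLex ω) →
          (∀ ω : ℤ × ℤ, Finset.univ.sup' Finset.univ_nonempty (fun i => Finset.univ.inf' Finset.univ_nonempty (fun j => toLex ((FreeGroup.lift x (v i j)) ω))) = toLex ω)) →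
        (∀ x : Fin k → K,
          Finset.univ.sup' Finset.univ_nonempty (fun i => Finset.univ.inf' Finset.univ_nonempty (fun j => FreeGroup.lift x (u i j))) = 1 →
          Finset.univ.sup' Finset.univ_nonempty (fun i => Finset.univ.inf' Finset.univ_nonempty (fun j => FreeGroup.lift x (v i j))) = 1)) ∧
    (∀ (H : Type) [Group H] [Lattice H] [MulLeftMono H] [MulRightMono H],
      (∃ a b : H, a * b ≠ b * a) →
      (∀ (k m : ℕ) (u v : Fin (m + 1) → Fin (m + 1) → FreeGroup (Fin k)),
        (∀ x : Fin k → Equiv.Perm (ℤ × ℤ),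
          (∀ l, ∃ n : ℤ, ∃ f : ℤ →₀ ℤ, ∀ a b : ℤ, x l (a, b) = (a + n, b + f a)) →
          (∀ ω : ℤ × ℤ, Finset.univ.sup' Finset.univ_nonempty (fun i => Finset.univ.inf' Finset.univ_nonempty (fun j => toLex ((FreeGroup.lift x (u i j)) ω))) = toLex ω) →
          (∀ ω : ℤ × ℤ, Finset.univ.sup' Finset.univ_nonempty (fun i => Finset.univ.inf' Finset.univ_nonempty (fun j => toLex ((FreeGroup.lift x (v i j)) ω))) = toLex ω)) →
        (∀ x : Fin k → H,
          Finset.univ.sup' Finset.univ_nonempty (fun i => Finset.univ.inf' Finset.univ_nonempty (fun j => FreeGroup.lift x (u i j))) = 1 →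
          Finset.univ.sup' Finset.univ_nonempty (fun i => Finset.univ.inf' Finset.univ_nonempty (fun j => FreeGroup.lift x (v i j))) = 1)) →
      ∀ (k m : ℕ) (u v : Fin (m + 1) → Fin (m + 1) → FreeGroup (Fin k)),
        (∀ x : Fin k → H,
          Finset.univ.sup' Finset.univ_nonempty (fun i => Finset.univ.inf' Finset.univ_nonempty (fun j => FreeGroup.lift x (u i j))) = 1 →
          Finset.univ.sup' Finset.univ_nonempty (fun i => Finset.univ.inf' Finset.univ_nonempty (fun j => FreeGroup.lift x (v i j))) = 1) →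
        (∀ (K : Type) [Group K] [Lattice K] [MulLeftMono K] [MulRightMono K],
          (∀ a b : K, a * b = b * a) →
          ∀ x : Fin k → K,
            Finset.univ.sup' Finset.univ_nonempty (fun i => Finset.univ.inf' Finset.univ_nonempty (fun j => FreeGroup.lift x (u i j))) = 1 →
            Finset.univ.sup' Finset.univ_nonempty (fun i => Finset.univ.inf' Finset.univ_nonempty (fun j => FreeGroup.lift x (v i j))) = 1) →
        (∀ x : Fin k → Equiv.Perm (ℤ × ℤ),
          (∀ l, ∃ n : ℤ, ∃ f : ℤ →₀ ℤ, ∀ a b : ℤ, x l (a, b) = (a + n, b + f a)) →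
          (∀ ω : ℤ × ℤ, Finset.univ.sup' Finset.univ_nonempty (fun i => Finset.univ.inf' Finset.univ_nonempty (fun j => toLex ((FreeGroup.lift x (u i j)) ω))) = toLex ω) →
          (∀ ω : ℤ × ℤ, Finset.univ.sup' Finset.univ_nonempty (fun i => Finset.univ.inf' Finset.univ_nonempty (fun j => toLex ((FreeGroup.lift x (v i j)) ω))) = toLex ω)))) := by
  rintro ⟨-, H⟩
  let u : Fin 2 → Fin 2 → FreeGroup (Fin 2) := fun _ =>
    ![FreeGroup.of 0, (FreeGroup.of 1)⁻¹ * FreeGroup.of 0 * FreeGroup.of 1]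
  let v : Fin 2 → Fin 2 → FreeGroup (Fin 2) := fun _ _ => FreeGroup.of 0
  have e : ∀ {A : Type} [SemilatticeInf A] (f : Fin 2 → A),
      Finset.univ.inf' Finset.univ_nonempty f = f 0 ⊓ f 1 := fun f =>
    le_antisymm (le_inf (Finset.inf'_le _ (Finset.mem_univ _)) (Finset.inf'_le _ (Finset.mem_univ _)))
      (Finset.le_inf' _ _ fun j _ => by fin_cases j <;> simp)
  open Pool.Agent.H.MP_96de0f_al in
  have := H HH HH_nc HH_sat 2 1 u v (fun x h => by
      simp only [u, v, e, Finset.sup'_const] at h ⊢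
      simpa using HH_q (x 0) (x 1) (by simpa using h))
    (fun K _ _ _ _ hc x h => by
      simp only [u, v, e, Finset.sup'_const] at h ⊢
      simpa [hc (x 1)⁻¹] using h)
    ![mkP 0 (Finsupp.single 0 1 : ℤ →₀ ℤ), mkP 1 (0 : ℤ →₀ ℤ)] (fun l => by
      fin_cases l
      · exact ⟨0, _, fun a b => rfl⟩
      · exact ⟨1, _, fun a b => rfl⟩) (by
      rintro ⟨a, b⟩
      simp only [u, e, Finset.sup'_const]
      by_cases ha : a = 0
      · subst ha
        simp [mkP, Equiv.Perm.inv_def, Prod.Lex.toLex_le_toLex]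
      · simp [mkP, Equiv.Perm.inv_def, Prod.Lex.toLex_le_toLex, Finsupp.single_apply, Ne.symm ha]
        split_ifs <;> simp) (0, 0)
  simp [v, Pool.Agent.H.MP_96de0f_al.mkP] at this

end Pool.Agent.S02384
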