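import Pool.Statements.S02387
import Pool.Agent.H.MP_970c5e_al.FS

set_option autoImplicit false
open Pool Pool.MP_970c5e_al

namespace Pool.Agent.S02387

theorem result :
    ∀ (G : Type) [Group G] [Finite G], IsPGroup 2 G →
      (∀ g : G, g ^ 2 = 1 → g ∈ Subgroup.center G) →
      (Subgroup.closure {x : G | ∃ g : G, g ^ 2 = x}).index
        ≤ 2 ^ (2 * Group.rank (Subgroup.center G)) := by
  intro G _ _ _ h
  exact H.MP_970c5e_al.final G h

end Pool.Agent.S02387
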