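import Pool.Statements.S02397
import Pool.Agent.H.MP_977c67_al.Main

set_option autoImplicit false
open Pool Pool.MP_977c67_al

namespace Pool.Agent.S02397

theorem result :
    ∃ (S : Type) (_ : Semigroup S) (α : Type) (_ : Fintype α) (f : α → S),
      Infinite S ∧
      (∀ x : S, (Subsemigroup.closure ({x} : Set S) : Set S).Finite) ∧
      Subsemigroup.closure (Set.range f) = ⊤ ∧
      Language.IsContextFree
        ({w : List (Option α) | ∃ u v : List α, u ≠ [] ∧ v ≠ [] ∧
            (u.map (fun a => ((f a : S) : WithOne S))).prod =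
              (v.map (fun a => ((f a : S) : WithOne S))).prod ∧
            w = u.map some ++ [none] ++ v.reverse.map some} : Language (Option α)) := by
  obtain ⟨h0, h1, h2⟩ := Pool.Agent.H.MP_977c67_al.Lang.lang
  exact ⟨_, inferInstance, _, inferInstance,
    Pool.Agent.H.MP_977c67_al.gen Pool.Agent.H.MP_977c67_al.Lang.g.language,
    Pool.Agent.H.MP_977c67_al.inf _ h1, Pool.Agent.H.MP_977c67_al.per _ h2,
    Pool.Agent.H.MP_977c67_al.gen_top _, Pool.Agent.H.MP_977c67_al.cf _ h0⟩

end Pool.Agent.S02397
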