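import Pool.Statements.S02430
import Pool.Agent.H.MP_98fcd2_al.A

set_option autoImplicit false
open Pool Pool.MP_98fcd2_al

namespace Pool.Agent.S02430

theorem result :
    ¬ (∀ (G : Type) [Group G], Group.FG G → IsSolvable G →
      ∃ S : Finset G, ∀ g : G → G,
        Subgroup.closure ((fun s => (g s)⁻¹ * s * g s) '' (S : Set G)) = ⊤) := by
  intro h
  obtain ⟨S, hS⟩ := h _ (Group.fg_of_surjective (QuotientGroup.mk'_surjective _))
    H.MP_98fcd2_al.solv
  obtain ⟨g, hg⟩ := H.MP_98fcd2_al.main S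
  exact hg (hS g)

end Pool.Agent.S02430
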