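import Pool.Statements.S02434
import Pool.Agent.H.MP_998096_al.Main

set_option autoImplicit false
open Pool Pool.MP_998096_al

namespace Pool.Agent.S02434

theorem result :
    ¬ (∀ (G : Type) [Group G],
      (∀ g : G, g ≠ 1 → ∃ N : Subgroup G, N.Normal ∧ N.index ≠ 0 ∧ g ∉ N) →
      Monoid.IsTorsion G →
      (∀ g : G, Set.Finite {h : G | IsConj g h}) →
      Countable (Subgroup.center G) →
      ∃ (ι : Type) (F : ι → Type) (_ : ∀ i, Group (F i)) (_ : ∀ i, Finite (F i)),
        ∃ f : G →* ((i : ι) → F i),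
          Function.Injective f ∧ ∀ g : G, Set.Finite {i : ι | f g i ≠ 1}) := by
  intro h
  open Pool.Agent.H.MP_998096_al in
  obtain ⟨⟨h1, h2, h3⟩, h4⟩ := wreath π lamG G0_inj G0_tor G0_count
  open Pool.Agent.H.MP_998096_al in
  obtain ⟨ι, Q, _, _, f, hf, hfin⟩ := h (W π) h1 h2 h3 h4
  open Pool.Agent.H.MP_998096_al in
  exact G0_not ι Q (f.comp (emb π π_fin)) (hf.comp (emb_inj π π_fin)) fun g => hfin _

end Pool.Agent.S02434
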