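import Pool.Statements.S02443
import Pool.Agent.H.MP_9aaefc_al.Lin

set_option autoImplicit false
open Pool Pool.MP_9aaefc_al

namespace Pool.Agent.S02443

open MvPowerSeries Module Pool.Agent.H.MP_9aaefc_al

abbrev O (n : ℕ) : Type := MvPowerSeries (Fin n) ℂ

variable {n : ℕ}

/-- series of order at least k -/
def J (n k : ℕ) : Ideal (O n) where
  carrier := {a | (k : ℕ∞) ≤ a.order}
  add_mem' := fun {a b} ha hb => le_trans (le_min ha hb) min_order_le_add
  zero_mem' := by simp
  smul_mem' := fun c a ha => by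
    simp only [Set.mem_ofPred_eq, smul_eq_mul] at *
    exact le_trans (le_trans ha le_add_self) le_order_mul

lemma mem_J {k : ℕ} {a : O n} : a ∈ J n k ↔ (k : ℕ∞) ≤ a.order := Iff.rfl

lemma mem_J' {k : ℕ} {a : O n} : a ∈ J n k ↔ ∀ d, Finsupp.degree d < k → coeff d a = 0 := by
  constructor
  · intro h d hd
    exact coeff_of_lt_order (lt_of_lt_of_le (by exact_mod_cast hd) h)
  · exact fun h => nat_le_order h

lemma J_mul {p q : ℕ} {a b : O n} (ha : a ∈ J n p) (hb : b ∈ J n q) : a * b ∈ J n (p + q) := by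
  rw [mem_J] at *
  push_cast
  exact le_trans (add_le_add ha hb) le_order_mul

lemma J_anti {p q : ℕ} (h : p ≤ q) : J n q ≤ J n p := fun a ha =>
  mem_J'.mpr fun d hd => mem_J'.mp ha d (lt_of_lt_of_le hd h)

lemma J_zero (a : O n) : a ∈ J n 0 := by simp [mem_J]

lemma J_sep {a : O n} (h : ∀ k, a ∈ J n k) : a = 0 := by
  ext d
  simpa using mem_J'.mp (h (Finsupp.degree d + 1)) d (Nat.lt_succ_self _)

lemma J_one {a : O n} : a ∈ J n 1 ↔ constantCoeff a = 0 := by
  rw [mem_J]; exact one_le_order_iff_constCoeff_eq_zero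

lemma J_complete (a : ℕ → O n) (h : ∀ k, a (k + 1) - a k ∈ J n k) :
    ∃ b : O n, ∀ k, b - a k ∈ J n k := by
  have h2 : ∀ k l, a (k + l) - a k ∈ J n k := by
    intro k l
    induction l with
    | zero => simp
    | succ l ih =>
      have : a (k + (l + 1)) - a k = (a (k + l + 1) - a (k + l)) + (a (k + l) - a k) := by
        rw [add_assoc]; ring
      rw [this]
      exact add_mem (J_anti (Nat.le_add_right k l) (h (k + l))) ih
  refine ⟨fun d => coeff d (a (Finsupp.degree d + 1)), fun k => mem_J'.mpr fun d hd => ?_⟩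
  obtain ⟨l, rfl⟩ := Nat.exists_eq_add_of_le (Nat.succ_le_of_lt hd)
  have := mem_J'.mp (h2 (Finsupp.degree d + 1) l) d (Nat.lt_succ_self _)
  rw [map_sub] at this ⊢
  rw [sub_eq_zero] at this ⊢
  exact this.symm

noncomputable def low (n k : ℕ) : Finset (Fin n →₀ ℕ) := (Finsupp.finite_of_degree_lt k).toFinset

lemma mem_low {k : ℕ} {d : Fin n →₀ ℕ} : d ∈ low n k ↔ Finsupp.degree d < k := by
  simp [low]

lemma sub_low (a : O n) (k : ℕ) :
    a - ∑ d ∈ low n k, coeff d a • (monomial d (1 : ℂ) : O n) ∈ J n k := by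
  classical
  refine mem_J'.mpr fun e he => ?_
  rw [map_sub, map_sum, Finset.sum_eq_single e]
  · simp
  · intro d _ hd
    simp [coeff_monomial_ne hd.symm]
  · intro h; exact absurd (mem_low.mpr he) h

lemma mono_ind (P : O n → ℕ → Prop) (h1 : P 1 0) (hX : ∀ i, P (X i) 1)
    (hm : ∀ a b p q, P a p → P b q → P (a * b) (p + q)) (d : Fin n →₀ ℕ) :
    P (monomial d (1 : ℂ)) (Finsupp.degree d) := by
  induction d using Finsupp.induction_linear with
  | zero => simpa using h1
  | add d e hd he =>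
    have := hm _ _ _ _ hd he
    rw [monomial_mul_monomial, mul_one] at this
    rw [map_add]; exact this
  | single i m =>
    rw [← X_pow_eq, Finsupp.degree_single]
    induction m with
    | zero => simpa using h1
    | succ m ih => rw [pow_succ]; exact hm _ _ _ _ ih (hX i)

abbrev Q (n k : ℕ) : Type := O n ⧸ J n k

noncomputable abbrev pr (n k : ℕ) : O n →ₐ[ℂ] Q n k := Ideal.Quotient.mkₐ ℂ (J n k)

lemma pr_eq {k : ℕ} {a b : O n} : pr n k a = pr n k b ↔ a - b ∈ J n k := Ideal.Quotient.eq

lemma pr_surj (k : ℕ) : Function.Surjective (pr n k) := Ideal.Quotient.mkₐ_surjective ℂ _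

lemma pr_low (k : ℕ) (a : O n) :
    pr n k a = ∑ d ∈ low n k, coeff d a • pr n k (monomial d (1 : ℂ)) := by
  rw [pr_eq.mpr (sub_low a k), map_sum]
  simp only [map_smul]

instance (k : ℕ) : FiniteDimensional ℂ (Q n k) := by
  classical
  refine Module.Finite.of_fg_top ⟨(low n k).image (fun d => pr n k (monomial d (1 : ℂ))), ?_⟩
  rw [eq_top_iff]
  intro x _
  obtain ⟨a, rfl⟩ := pr_surj k x
  rw [pr_low]
  refine Submodule.sum_mem _ fun d hd => Submodule.smul_mem _ _ (Submodule.subset_span ?_)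
  simp only [Finset.coe_image, Set.mem_image, Finset.mem_coe]
  exact ⟨d, hd, rfl⟩

lemma Q_ext {k : ℕ} {B : Type} [CommRing B] [Algebra ℂ B] (f g : Q n k →ₐ[ℂ] B)
    (h : ∀ i, f (pr n k (X i)) = g (pr n k (X i))) : f = g := by
  have hm : ∀ d, f (pr n k (monomial d (1 : ℂ))) = g (pr n k (monomial d (1 : ℂ))) := by
    intro d
    refine mono_ind (fun a _ => f (pr n k a) = g (pr n k a)) ?_ h ?_ d
    · simp
    · intro a b _ _ ha hb
      simp only [map_mul, ha, hb]
  ext1 x
  obtain ⟨a, rfl⟩ := pr_surj k x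
  rw [pr_low, map_sum, map_sum]
  refine Finset.sum_congr rfl fun d _ => ?_
  rw [map_smul, map_smul, hm]

lemma hs {M : Fin n → O n} (hM : ∀ i, M i 0 = 0) : HasSubst M :=
  hasSubst_of_constantCoeff_zero hM

/-- substitution as an algebra map -/
noncomputable def sb (M : Fin n → O n) (hM : ∀ i, M i 0 = 0) : O n →ₐ[ℂ] O n :=
  substAlgHom (hs hM)

lemma sb_apply {M : Fin n → O n} (hM : ∀ i, M i 0 = 0) (a : O n) : sb M hM a = subst M a := by
  simp [sb]

lemma sb_X {M : Fin n → O n} (hM : ∀ i, M i 0 = 0) (i : Fin n) : sb M hM (X i) = M i := by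
  rw [sb_apply, subst_X (hs hM)]

lemma sb_J {M : Fin n → O n} (hM : ∀ i, M i 0 = 0) {k : ℕ} {a : O n} (ha : a ∈ J n k) :
    sb M hM a ∈ J n k := by
  rw [sb_apply, mem_J]
  refine le_trans ?_ (le_order_subst (hs hM) a)
  have h1 : (1 : ℕ∞) ≤ ⨅ i, (M i).order :=
    le_iInf fun i => one_le_order_iff_constCoeff_eq_zero.mpr (hM i)
  calc (k : ℕ∞) = 1 * k := (one_mul _).symm
    _ ≤ _ := mul_le_mul' h1 ha

noncomputable def sq (M : Fin n → O n) (hM : ∀ i, M i 0 = 0) (k : ℕ) : Q n k →ₐ[ℂ] Q n k :=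
  Ideal.Quotient.liftₐ (J n k) ((pr n k).comp (sb M hM)) (fun a ha => by
    simp only [AlgHom.comp_apply]
    exact Ideal.Quotient.eq_zero_iff_mem.mpr (sb_J hM ha))

lemma sq_pr {M : Fin n → O n} (hM : ∀ i, M i 0 = 0) (k : ℕ) (a : O n) :
    sq M hM k (pr n k a) = pr n k (sb M hM a) := rfl

noncomputable def rho (n k : ℕ) : Q n (k + 1) →ₐ[ℂ] Q n k :=
  Ideal.Quotient.liftₐ (J n (k + 1)) (pr n k) (fun a ha =>
    Ideal.Quotient.eq_zero_iff_mem.mpr (J_anti (Nat.le_succ k) ha))

lemma rho_pr (k : ℕ) (a : O n) : rho n k (pr n (k + 1) a) = pr n k a := rfl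

lemma unip (L : O n →ₐ[ℂ] O n) (hL : ∀ k, ∀ a ∈ J n k, L a ∈ J n k)
    (hX : ∀ i, L (X i) - X i ∈ J n 2) (j : ℕ) (a : O n) (ha : a ∈ J n j) :
    L a - a ∈ J n (j + 1) := by
  have hm : ∀ d, (monomial d (1 : ℂ) : O n) ∈ J n (Finsupp.degree d) ∧
      L (monomial d (1 : ℂ)) - monomial d (1 : ℂ) ∈ J n (Finsupp.degree d + 1) := by
    intro d
    refine mono_ind (fun a p => a ∈ J n p ∧ L a - a ∈ J n (p + 1)) ?_ ?_ ?_ d
    · exact ⟨J_zero _, by simp⟩
    · intro i
      exact ⟨J_one.mpr (by simp), hX i⟩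
    · rintro a b p q ⟨ha1, ha2⟩ ⟨hb1, hb2⟩
      refine ⟨J_mul ha1 hb1, ?_⟩
      have : L (a * b) - a * b = (L a - a) * L b + a * (L b - b) := by
        rw [map_mul]; ring
      rw [this]
      refine add_mem ?_ ?_
      · have := J_mul ha2 (hL _ _ hb1)
        rwa [add_right_comm] at this
      · rw [add_assoc]; exact J_mul ha1 hb2
  have h1 := sub_low a (j + 1)
  set s := ∑ d ∈ low n (j + 1), coeff d a • (monomial d (1 : ℂ) : O n) with hs
  have h2 : L s - s ∈ J n (j + 1) := by
    rw [hs, map_sum, ← Finset.sum_sub_distrib]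
    refine Submodule.sum_mem _ fun d hd => ?_
    rw [map_smul, ← smul_sub]
    rcases (Nat.lt_succ_iff.mp (mem_low.mp hd)).lt_or_eq with h | h
    · rw [mem_J'.mp ha d h, zero_smul]; exact zero_mem _
    · rw [Algebra.smul_def]
      apply Ideal.mul_mem_left
      rw [← h]; exact (hm d).2
  have : L a - a = (L (a - s) - (a - s)) + (L s - s) := by rw [map_sub]; ring
  rw [this]
  exact add_mem (sub_mem (hL _ _ h1) h1) h2

lemma sb_sb {M N : Fin n → O n} (hM : ∀ i, M i 0 = 0) (hN : ∀ i, N i 0 = 0) (a : O n) :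
    subst (fun j => subst M (N j)) a = sb M hM (sb N hN a) := by
  rw [sb_apply, sb_apply, subst_comp_subst_apply (hs hN) (hs hM)]

theorem result :
    ∀ (n : ℕ) (F H : Fin n → MvPowerSeries (Fin n) ℂ),
      (∀ i, F i 0 = 0) →
      (∃ G : Fin n → MvPowerSeries (Fin n) ℂ, (∀ i, G i 0 = 0) ∧
          (∀ i, MvPowerSeries.subst G (F i) = MvPowerSeries.X i) ∧
          (∀ i, MvPowerSeries.subst F (G i) = MvPowerSeries.X i)) →
      (∀ i, H i 0 = 0) →
      (∃ G : Fin n → MvPowerSeries (Fin n) ℂ, (∀ i, G i 0 = 0) ∧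
          (∀ i, MvPowerSeries.subst G (H i) = MvPowerSeries.X i) ∧
          (∀ i, MvPowerSeries.subst H (G i) = MvPowerSeries.X i)) →
      (∀ i, MvPowerSeries.subst (fun j => MvPowerSeries.subst F (H j)) (F i) = H i) →
      ∃ K : Fin n → MvPowerSeries (Fin n) ℂ, (∀ i, K i 0 = 0) ∧
        (∃ k : ℕ, 1 ≤ k ∧
          (fun M : Fin n → MvPowerSeries (Fin n) ℂ => fun i => MvPowerSeries.subst M (K i))^[k]
              (fun i => MvPowerSeries.X i) = (fun i => MvPowerSeries.X i)) ∧
        (∀ i, MvPowerSeries.subst (fun j => MvPowerSeries.subst F (K j)) (F i) = K i) := by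
  rintro n F H hF ⟨G, hG, hGF, hFG⟩ hH ⟨H', hH', hH'H, -⟩ hrel
  obtain ⟨χ, h1, hm1, hmul, htor⟩ := exists_chi
  choose Kq hKq using fun k => exists_Kalg (sq H hH k) χ h1 hmul
  have hcompat : ∀ k x, Kq k (rho n k x) = rho n k (Kq (k + 1) x) := by
    intro k x
    have := K_natural (sq H hH (k + 1)).toLinearMap (sq H hH k).toLinearMap (rho n k).toLinearMap 1
      (by
        intro a
        obtain ⟨a, rfl⟩ := pr_surj _ a
        simp only [AlgHom.toLinearMap_apply, one_smul, sq_pr, rho_pr])
      χ (by simp) (Kq (k + 1)).toLinearMap (Kq k).toLinearMap (hKq (k + 1)) (hKq k) x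
    simpa using this
  have hK : ∀ i, ∃ b : O n, ∀ k, pr n k b = Kq k (pr n k (X i)) := by
    intro i
    choose a ha using fun k => pr_surj (n := n) k (Kq k (pr n k (X i)))
    obtain ⟨b, hb⟩ := J_complete a (fun k => by
      rw [← pr_eq, ha, ← rho_pr, ha, ← hcompat, rho_pr])
    exact ⟨b, fun k => by rw [← ha, pr_eq]; exact hb k⟩
  choose K hK using hK
  have hK0 : ∀ i, K i 0 = 0 := by
    intro i
    have h0 : pr n 1 (X i) = 0 := Ideal.Quotient.eq_zero_iff_mem.mpr (J_one.mpr (by simp))
    have := hK i 1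
    rw [h0, map_zero] at this
    exact J_one.mp (Ideal.Quotient.eq_zero_iff_mem.mp this)
  have hKs : ∀ k, sq K hK0 k = Kq k := fun k => Q_ext _ _ fun i => by rw [sq_pr, sb_X, hK]
  refine ⟨K, hK0, ?_, ?_⟩
  · -- finite order
    have hinj : Function.Injective (sq H hH 2) := by
      have : (sq H' hH' 2).comp (sq H hH 2) = AlgHom.id ℂ _ := Q_ext _ _ fun i => by
        rw [AlgHom.comp_apply, sq_pr, sq_pr, sb_X, sb_apply, hH'H]; rfl
      exact Function.LeftInverse.injective (g := sq H' hH' 2) fun x => by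
        rw [← AlgHom.comp_apply, this]; rfl
    have hfin := End.finite_hasEigenvalue (sq H hH 2).toLinearMap
    have hne : ∀ l, End.HasEigenvalue (sq H hH 2).toLinearMap l → l ≠ 0 := by
      rintro l hl rfl
      obtain ⟨v, hv⟩ := hl.exists_hasEigenvector
      have h2 := hv.apply_eq_smul
      rw [zero_smul] at h2
      exact hv.2 (hinj (by simpa using h2))
    choose! m hm using htor
    set N := ∏ l ∈ hfin.toFinset, m l with hN
    have hNpos : 1 ≤ N := by
      rw [hN]
      exact Finset.one_le_prod' fun l hl => (hm l (hne l (by simpa using hl))).1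
    have hNpow : ∀ l, End.HasEigenvalue (sq H hH 2).toLinearMap l → χ l ^ N = 1 := by
      intro l hl
      obtain ⟨c, hc⟩ : m l ∣ N := Finset.dvd_prod_of_mem _ (by simpa using hl)
      rw [hc, pow_mul, (hm l (hne l hl)).2, one_pow]
    have hpow : ∀ k (j : ℕ) l, ∀ a ∈ End.maxGenEigenspace (sq H hH k).toLinearMap l,
        (Kq k ^ j) a = χ l ^ j • a := by
      intro k j l a ha
      induction j with
      | zero => simp
      | succ j ih => rw [pow_succ, AlgHom.mul_apply, hKq k l a ha, map_smul, ih, smul_smul, pow_succ']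
    have h2 : ∀ a, (Kq 2 ^ N) a = a := by
      intro a
      refine ind_gen (sq H hH 2).toLinearMap (fun a => (Kq 2 ^ N) a = a) ?_ ?_ ?_ a
      · intro l a ha
        by_cases h0 : a = 0
        · simp [h0]
        · have : End.HasEigenvalue (sq H hH 2).toLinearMap l := by
            rw [End.mem_maxGenEigenspace] at ha
            obtain ⟨k, hk⟩ := ha
            refine End.hasEigenvalue_of_hasGenEigenvalue (k := k) ?_
            rw [End.hasGenEigenvalue_iff, Submodule.ne_bot_iff]
            exact ⟨a, by rw [End.mem_genEigenspace_nat]; exact hk, h0⟩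
          rw [hpow 2 N l a ha, hNpow l this, one_smul]
      · simp
      · intro a b ha hb
        rw [map_add, ha, hb]
    have hprpow : ∀ k (j : ℕ) a, pr n k ((sb K hK0 ^ j) a) = (Kq k ^ j) (pr n k a) := by
      intro k j
      induction j with
      | zero => simp
      | succ j ih =>
        intro a
        rw [pow_succ, pow_succ, AlgHom.mul_apply, AlgHom.mul_apply, ih, ← hKs, sq_pr]
    have hLJ : ∀ (j : ℕ) k, ∀ a ∈ J n k, (sb K hK0 ^ j) a ∈ J n k := by
      intro j k a ha
      rw [← Ideal.Quotient.eq_zero_iff_mem]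
      have := hprpow k j a
      have h0 : pr n k a = 0 := Ideal.Quotient.eq_zero_iff_mem.mpr ha
      rw [h0, map_zero] at this
      exact this
    have hun := unip (sb K hK0 ^ N) (hLJ N) (fun i => by rw [← pr_eq, hprpow, h2])
    have hall : ∀ k a, (Kq k ^ N) a = a := by
      intro k a
      refine ind_gen (sq H hH k).toLinearMap (fun a => (Kq k ^ N) a = a) ?_ ?_ ?_ a
      · intro l a ha
        have hj : ∀ j : ℕ, ∃ b ∈ J n j, pr n k b = (χ l ^ N - 1) ^ j • a := by
          intro j
          induction j with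
          | zero =>
            obtain ⟨b, hb⟩ := pr_surj k a
            exact ⟨b, J_zero _, by simpa using hb⟩
          | succ j ih =>
            obtain ⟨b, hb, hb2⟩ := ih
            refine ⟨_, hun j b hb, ?_⟩
            rw [map_sub, hprpow, hb2, map_smul, hpow k N l a ha, pow_succ, mul_smul, sub_smul,
              one_smul, smul_sub]
        obtain ⟨b, hb, hb2⟩ := hj k
        have h0 : pr n k b = 0 := Ideal.Quotient.eq_zero_iff_mem.mpr hb
        rw [h0] at hb2
        rw [hpow k N l a ha]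
        rcases smul_eq_zero.mp hb2.symm with h | h
        · rw [sub_eq_zero.mp (pow_eq_zero_iff'.mp h).1, one_smul]
        · simp [h]
      · simp
      · intro a b ha hb
        rw [map_add, ha, hb]
    have hLX : ∀ i, (sb K hK0 ^ N) (X i) = X i := by
      intro i
      rw [← sub_eq_zero]
      exact J_sep fun k => by rw [← pr_eq, hprpow, hall]
    have hz : ∀ (j : ℕ) i, ((sb K hK0 ^ j) (X i) : O n) 0 = 0 :=
      fun j i => J_one.mp (hLJ j 1 _ (J_one.mpr (by simp)))
    have hsub : ∀ (j : ℕ) a, subst (fun i => (sb K hK0 ^ j) (X i)) a = (sb K hK0 ^ j) a := by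
      intro j
      induction j with
      | zero =>
        intro a
        simp only [pow_zero, AlgHom.one_apply]
        exact congrFun subst_self a
      | succ j ih =>
        intro a
        have := sb_sb hK0 (hz j) a
        simp only [← sb_apply hK0] at this
        simp only [pow_succ', AlgHom.mul_apply]
        rw [this, sb_apply (hz j), ih]
    have hit : ∀ j : ℕ, (fun M : Fin n → MvPowerSeries (Fin n) ℂ =>
        fun i => MvPowerSeries.subst M (K i))^[j] (fun i => MvPowerSeries.X i) =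
        fun i => (sb K hK0 ^ j) (X i) := by
      intro j
      induction j with
      | zero => rfl
      | succ j ih =>
        rw [Function.iterate_succ_apply', ih]
        funext i
        rw [hsub, pow_succ, AlgHom.mul_apply, sb_X]
    refine ⟨N, hNpos, ?_⟩
    rw [hit]
    funext i
    exact hLX i
  · intro i
    rw [sb_sb hF hK0, ← sub_eq_zero]
    refine J_sep fun k => ?_
    have e1 : ∀ x, sq G hG k (sq F hF k x) = x := by
      have : (sq G hG k).comp (sq F hF k) = AlgHom.id ℂ _ := Q_ext _ _ fun i => by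
        rw [AlgHom.comp_apply, sq_pr, sq_pr, sb_X, sb_apply, hGF]; rfl
      intro x
      rw [← AlgHom.comp_apply, this]; rfl
    have e2 : ∀ x, sq F hF k (sq G hG k x) = x := by
      have : (sq F hF k).comp (sq G hG k) = AlgHom.id ℂ _ := Q_ext _ _ fun i => by
        rw [AlgHom.comp_apply, sq_pr, sq_pr, sb_X, sb_apply, hFG]; rfl
      intro x
      rw [← AlgHom.comp_apply, this]; rfl
    have e3 : ∀ x, sq F hF k (sq H hH k (sq F hF k x)) = sq H hH k x := by
      have : (sq F hF k).comp ((sq H hH k).comp (sq F hF k)) = sq H hH k := Q_ext _ _ fun i => by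
        rw [AlgHom.comp_apply, AlgHom.comp_apply, sq_pr, sq_pr, sq_pr, sq_pr, sb_X, sb_X,
          ← sb_sb hF hH, hrel]
      intro x
      rw [← AlgHom.comp_apply, ← AlgHom.comp_apply, AlgHom.comp_assoc, this]
    have e4 : ∀ x, sq H hH k (sq F hF k x) = sq G hG k (sq H hH k x) := by
      intro x
      rw [← e3 x, e1]
    have e5 : ∀ x, sq H hH k (sq G hG k x) = sq F hF k (sq H hH k x) := by
      intro x
      rw [← e3 (sq G hG k x), e2]
    have p1 := K_natural (sq H hH k).toLinearMap (sq H hH k).toLinearMap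
      ((sq F hF k).toLinearMap + (sq G hG k).toLinearMap) 1
      (by
        intro a
        simp only [LinearMap.add_apply, AlgHom.toLinearMap_apply, map_add, e4, e5, one_smul]
        ring)
      χ (by simp) (Kq k).toLinearMap (Kq k).toLinearMap (hKq k) (hKq k) (pr n k (X i))
    have p2 := K_natural (sq H hH k).toLinearMap (sq H hH k).toLinearMap
      ((sq F hF k).toLinearMap - (sq G hG k).toLinearMap) (-1)
      (by
        intro a
        simp only [LinearMap.sub_apply, AlgHom.toLinearMap_apply, map_sub, e4, e5, neg_smul,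
          one_smul]
        ring)
      χ (fun l => by rw [hmul, hm1]) (Kq k).toLinearMap (Kq k).toLinearMap (hKq k) (hKq k)
      (pr n k (X i))
    simp only [LinearMap.add_apply, LinearMap.sub_apply, AlgHom.toLinearMap_apply, map_add,
      map_sub, one_smul, neg_smul] at p1 p2
    have p3 : Kq k (sq F hF k (pr n k (X i))) = sq G hG k (Kq k (pr n k (X i))) := by
      have : (2 : ℂ) • Kq k (sq F hF k (pr n k (X i))) =
          (2 : ℂ) • sq G hG k (Kq k (pr n k (X i))) := by
        rw [two_smul, two_smul]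
        linear_combination p1 + p2
      exact smul_right_injective _ (two_ne_zero) this
    rw [← pr_eq, ← sq_pr, ← sq_pr, hKs, ← sb_X hF i, ← sq_pr, p3, e2, hK]

end Pool.Agent.S02443
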