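import Pool.Statements.S02454
import Pool.Agent.H.MP_9b0338_al.D

set_option autoImplicit false
open Pool Pool.MP_9b0338_al

namespace Pool.Agent.S02454

theorem result :
    ¬ (∀ (G : Type) [Group G],
      (∃ n : ℕ, ∃ f : FreeGroup (Fin n) →* G, Function.Surjective f ∧
        ∃ r : Finset (FreeGroup (Fin n)), f.ker = Subgroup.normalClosure (r : Set (FreeGroup (Fin n)))) →
      ∀ S T : Finset G,
        Subgroup.closure (S : Set G) = ⊤ →
        Subgroup.closure (T : Set G) = ⊤ →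
        ((∃ D : ℕ, ∀ g : G, ∀ R : ℕ, ∃ h : G,
            R ≤ (SimpleGraph.fromRel (fun a b : G => a⁻¹ * b ∈ S)).dist 1 h ∧
            ∃ p : (SimpleGraph.fromRel (fun a b : G => a⁻¹ * b ∈ S)).Walk g h,
              ∀ v ∈ p.support,
                (SimpleGraph.fromRel (fun a b : G => a⁻¹ * b ∈ S)).dist 1 g ≤
                  (SimpleGraph.fromRel (fun a b : G => a⁻¹ * b ∈ S)).dist 1 v + D) ↔
         (∃ D : ℕ, ∀ g : G, ∀ R : ℕ, ∃ h : G,
            R ≤ (SimpleGraph.fromRel (fun a b : G => a⁻¹ * b ∈ T)).dist 1 h ∧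
            ∃ p : (SimpleGraph.fromRel (fun a b : G => a⁻¹ * b ∈ T)).Walk g h,
              ∀ v ∈ p.support,
                (SimpleGraph.fromRel (fun a b : G => a⁻¹ * b ∈ T)).dist 1 g ≤
                  (SimpleGraph.fromRel (fun a b : G => a⁻¹ * b ∈ T)).dist 1 v + D))) := by
  intro H
  obtain ⟨n, φ, hφ, r, hr, e⟩ := Pool.Agent.H.MP_9b0338_al.gam_fp.out
  have := H (Pool.Agent.H.MP_9b0338_al.Gam × Pool.Agent.H.MP_9b0338_al.Gam)
    ⟨n, φ, hφ, hr.toFinset, by rw [Set.Finite.coe_toFinset, e]⟩ _ _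
    (Pool.Agent.H.MP_9b0338_al.closure_Vee _ Pool.Agent.H.MP_9b0338_al.gam_gen)
    (Pool.Agent.H.MP_9b0338_al.closure_Perp _ Pool.Agent.H.MP_9b0338_al.gam_gen)
  exact Pool.Agent.H.MP_9b0338_al.gam_not_BRD (this.1 Pool.Agent.H.MP_9b0338_al.gam_BRD)

end Pool.Agent.S02454
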