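import Pool.Statements.S02463
import Pool.Agent.H.MP_9bbc25_al.B

set_option autoImplicit false
open Pool Pool.MP_9bbc25_al

namespace Pool.Agent.S02463

theorem result :
    ∀ D : Finset ℕ, (∀ d ∈ D, 0 < d) → 1 ∈ D →
      ∃ S : AddSubmonoid ℕ, ((S : Set ℕ)ᶜ).Finite ∧
        {d : ℕ | 0 < d ∧ ∃ n ∈ S, ∃ k : ℕ,
          (∃ m : Multiset ℕ,
              (∀ a ∈ m, a ∈ S ∧ a ≠ 0 ∧ ∀ b ∈ S, ∀ c ∈ S, b + c = a → b = 0 ∨ c = 0) ∧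
              m.sum = n ∧ Multiset.card m = k) ∧
          (∃ m : Multiset ℕ,
              (∀ a ∈ m, a ∈ S ∧ a ≠ 0 ∧ ∀ b ∈ S, ∀ c ∈ S, b + c = a → b = 0 ∨ c = 0) ∧
              m.sum = n ∧ Multiset.card m = k + d) ∧
          ∀ j : ℕ, k < j → j < k + d →
            ¬ ∃ m : Multiset ℕ,
              (∀ a ∈ m, a ∈ S ∧ a ≠ 0 ∧ ∀ b ∈ S, ∀ c ∈ S, b + c = a → b = 0 ∨ c = 0) ∧
              m.sum = n ∧ Multiset.card m = j} = (D : Set ℕ) := by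
  intro D hD h1
  let P := Pool.Agent.H.MP_9bbc25_al.data D (D.max' ⟨1, h1⟩) hD (D.max'_mem _)
    (fun e he => D.le_max' e he)
  refine ⟨P.S, P.cofin, ?_⟩
  simp only [P.atom_iff, ← P.Fac_iff]
  ext δ
  constructor
  · rintro ⟨h0, x, -, k, hk, hk', hno⟩
    exact P.delta_sub h1 h0 hk hk' hno
  · intro h
    obtain ⟨x, k, hk, hk', hno⟩ := P.delta_sup h
    exact ⟨hD δ h, x, ⟨k, hk⟩, k, hk, hk', hno⟩

end Pool.Agent.S02463
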