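import Pool.Statements.S02470
import Pool.Agent.H.MP_9bf990_al.A

set_option autoImplicit false
open Pool Pool.MP_9bf990_al

namespace Pool.Agent.S02470

theorem result :
    ¬ (∃ F : (G : Type) → [Group G] → Prop,
      (∀ (G : Type) [Group G], F G → Finite G) ∧
      (∀ (G H : Type) [Group G] [Group H], Nonempty (G ≃* H) → F G → F H) ∧
      F Unit ∧
      (∀ (G : Type) [Group G] [Finite G] (N : Subgroup G) [N.Normal], F G → F (G ⧸ N)) ∧
      (∀ (G : Type) [Group G] [Finite G] (N₁ N₂ : Subgroup G) [N₁.Normal] [N₂.Normal],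
          F (G ⧸ N₁) → F (G ⧸ N₂) → F (G ⧸ (N₁ ⊓ N₂))) ∧
      (∀ (G : Type) [Group G] [Finite G], F (G ⧸ frattini G) → F G) ∧
      ¬ (∀ (G : Type) [Group G] [Finite G], F G → ∀ H : Subgroup G, F H) ∧
      (∀ (G : Type) [Group G] [Finite G] (T : Set (Subgroup G)),
        T = {H : Subgroup G | ∀ S : Set (Subgroup G), ⊤ ∈ S →
              (∀ K ∈ S, ∀ L : Subgroup G, L < K →
                (∀ M : Subgroup G, L ≤ M → M ≤ K → M = L ∨ M = K) →
                (∃ N : Subgroup K, ∃ _ : N.Normal, F (K ⧸ N) ∧ N ≤ L.subgroupOf K) →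
                L ∈ S) →
              H ∈ S} →
        ∀ A ∈ T, ∀ B ∈ T, A ⊓ B ∈ T ∧ A ⊔ B ∈ T)) := by
  rintro ⟨F, -, h2, h3, h4, h5, h6, h7, h8⟩
  have hF : Lib.GLS.SF F := by
    refine ⟨fun G H _ _ _ => h2 G H, h4, fun G _ _ N₁ N₂ _ _ h k1 k2 => ?_, h6⟩
    exact h2 _ _ ⟨(QuotientGroup.quotientMulEquivOfEq h).trans QuotientGroup.quotientBot⟩
      (h5 G N₁ N₂ k1 k2)
  exact h7 fun G _ _ hG => H.MP_9bf990_al.her hF h3
    (fun G _ _ A hA B hB => (h8 G (H.MP_9bf990_al.T F G) rfl A hA B hB).2) _ G rfl hG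

end Pool.Agent.S02470
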