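import Pool.Statements.S02504
-- import your own Pool.Agent.* helpers here

set_option autoImplicit false
open Pool Pool.MP_9f8f27_al

namespace Pool.Agent.S02504

noncomputable section
open Polynomial

abbrev KK (m : ℕ) := GaloisField 2 (m + 1)
abbrev XX (m : ℕ) := (KK m)ˣ × KK m
abbrev PP := ∀ m : ℕ, Equiv.Perm (XX m)

instance (m : ℕ) : Fintype (KK m) := Fintype.ofFinite _
instance (m : ℕ) : DecidableEq (KK m) := Classical.decEq _

theorem cardK (m : ℕ) : Fintype.card (KK m) = 2 ^ (m + 1) := by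
  rw [← Nat.card_eq_fintype_card]
  exact GaloisField.card 2 (m + 1) (by omega)

def uu (e : ZMod 2) : PP := fun m =>
  { toFun := fun p => (p.1, p.1 * p.2 + algebraMap _ _ e)
    invFun := fun p => (p.1, (p.1⁻¹ : (KK m)ˣ) * (p.2 - algebraMap _ _ e))
    left_inv := fun p => by simp
    right_inv := fun p => by simp }

def GG : Subgroup PP := Subgroup.closure (Set.range uu)

def gen (e : ZMod 2) : GG := ⟨uu e, Subgroup.subset_closure ⟨e, rfl⟩⟩

open Classical in
def SS : Finset GG := Finset.univ.image gen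

theorem mem_SS (x : GG) : x ∈ SS ↔ ∃ e, gen e = x := by simp [SS]

theorem clos : Subgroup.closure (SS : Set GG) = ⊤ := by
  have : (SS : Set GG) = Subtype.val ⁻¹' (Set.range uu) := by
    ext x
    rw [Finset.mem_coe, mem_SS]
    constructor
    · rintro ⟨e, rfl⟩; exact ⟨e, rfl⟩
    · rintro ⟨e, he⟩; exact ⟨e, Subtype.ext he⟩
  rw [this]
  exact Subgroup.closure_closure_coe_preimage

def NF (n : ℕ) (g : PP) : Prop :=
  ∃ (a : ℕ) (P : (ZMod 2)[X]), a ≤ 2 * n ∧ P.natDegree ≤ 2 * n ∧ ∀ (m : ℕ) (p : XX m),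
    (g m p).1 = p.1 ∧ (p.1 : KK m) ^ n * (g m p).2 = (p.1 : KK m) ^ a * p.2 + aeval (p.1 : KK m) P

theorem NF_succ {n : ℕ} {g : PP} (h : NF n g) : NF (n + 1) g := by
  obtain ⟨a, P, ha, hP, h⟩ := h
  refine ⟨a + 1, X * P, by omega, ?_, fun m p => ⟨(h m p).1, ?_⟩⟩
  · refine natDegree_mul_le.trans ?_
    have := natDegree_X_le (R := ZMod 2)
    omega
  · rw [map_mul, aeval_X]
    linear_combination (p.1 : KK m) * (h m p).2

theorem NF_mul {n : ℕ} {g : PP} (e : ZMod 2) (h : NF n g) : NF (n + 1) (uu e * g) := by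
  obtain ⟨a, P, ha, hP, h⟩ := h
  refine ⟨a + 2, X ^ 2 * P + C e * X ^ (n + 1), by omega, ?_, fun m p => ⟨(h m p).1, ?_⟩⟩
  · refine (natDegree_add_le _ _).trans (max_le ?_ ?_)
    · refine natDegree_mul_le.trans ?_
      have := natDegree_X_pow_le (R := ZMod 2) 2
      omega
    · exact (natDegree_C_mul_X_pow_le _ _).trans (by omega)
  · have h1 : ((uu e * g) m p).2 = (g m p).1 * (g m p).2 + algebraMap _ _ e := rfl
    rw [h1, (h m p).1, map_add, map_mul, map_mul, map_pow, map_pow, aeval_X, aeval_C]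
    linear_combination (p.1 : KK m) ^ 2 * (h m p).2

theorem NF_inv {n : ℕ} {g : PP} (e : ZMod 2) (h : NF n g) : NF (n + 1) ((uu e)⁻¹ * g) := by
  obtain ⟨a, P, ha, hP, h⟩ := h
  refine ⟨a, P - C e * X ^ n, by omega, ?_, fun m p => ⟨(h m p).1, ?_⟩⟩
  · refine (natDegree_sub_le _ _).trans (max_le (by omega) ?_)
    exact (natDegree_C_mul_X_pow_le _ _).trans (by omega)
  · have h1 : (((uu e)⁻¹ * g) m p).2 =
        ((g m p).1⁻¹ : (KK m)ˣ) * ((g m p).2 - algebraMap _ _ e) := rfl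
    rw [h1, (h m p).1, map_sub, map_mul, map_pow, aeval_X, aeval_C]
    have h2 : (p.1 : KK m) * (p.1⁻¹ : (KK m)ˣ) = 1 := Units.mul_inv _
    linear_combination (h m p).2 +
      (p.1 : KK m) ^ n * ((g m p).2 - algebraMap _ _ e) * h2

theorem NF_list (l : List GG) (hl : ∀ x ∈ l, x ∈ SS ∨ x⁻¹ ∈ SS) :
    NF l.length (l.prod : GG) := by
  induction l with
  | nil => exact ⟨0, 0, le_rfl, by simp, fun m p => ⟨rfl, by simp⟩⟩
  | cons x l ih =>
    have ih' := ih fun y hy => hl y (List.mem_cons_of_mem _ hy)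
    rw [List.prod_cons, List.length_cons, Subgroup.coe_mul]
    rcases hl x List.mem_cons_self with h | h
    · obtain ⟨e, rfl⟩ := (mem_SS _).mp h
      exact NF_mul e ih'
    · obtain ⟨e, he⟩ := (mem_SS _).mp h
      rw [← inv_inv x, ← he]
      exact NF_inv e ih'

theorem NF_le {k n : ℕ} {g : PP} (h : NF k g) (hk : k ≤ n) : NF n g := by
  induction hk with
  | refl => exact h
  | step _ ih => exact NF_succ ih

theorem roots_le (m : ℕ) (R : (ZMod 2)[X]) (hR : R ≠ 0) :
    (Finset.univ.filter fun a : (KK m)ˣ => aeval (a : KK m) R = 0).card ≤ R.natDegree := by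
  have h1 : (R.aroots (KK m)).toFinset.card ≤ R.natDegree :=
    (Multiset.toFinset_card_le _).trans ((card_roots' _).trans natDegree_map_le)
  refine le_trans ?_ h1
  refine Finset.card_le_card_of_injOn (fun a => (a : KK m)) ?_ ?_
  · intro a ha
    simp only [Finset.coe_filter, Finset.mem_univ, true_and, Set.mem_ofPred_eq] at ha
    simp [hR, ha]
  · intro a _ b _ h
    exact Units.ext h

theorem fix_le (n m : ℕ) (g : PP) (h : NF n g) (hg : g ≠ 1) :
    (Finset.univ.filter fun p : XX m => g m p = p).card ≤ (2 * n + 1) * 2 ^ (m + 1) := by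
  obtain ⟨a, P, ha, hP, h⟩ := h
  have key : ∃ R : (ZMod 2)[X], R ≠ 0 ∧ R.natDegree ≤ 2 * n ∧ ∃ F : KK m → KK m,
      ∀ p : XX m, g m p = p → aeval (p.1 : KK m) R = 0 ∨ p.2 = F p.1 := by
    by_cases han : a = n
    · subst han
      refine ⟨P, ?_, hP, id, fun p hp => Or.inl ?_⟩
      · rintro rfl
        apply hg
        funext k
        ext1 p
        refine Prod.ext (h k p).1 ?_
        have := (h k p).2
        rw [map_zero, add_zero] at this
        exact mul_left_cancel₀ (pow_ne_zero _ p.1.ne_zero) this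
      · have := (h m p).2
        rw [hp] at this
        linear_combination -this
    · refine ⟨X ^ n - X ^ a, ?_, ?_, fun b => aeval b P / (b ^ n - b ^ a), fun p hp => ?_⟩
      · intro h0
        apply han
        have := congrArg natDegree (sub_eq_zero.mp h0)
        simpa using this.symm
      · refine (natDegree_sub_le _ _).trans (max_le ?_ ?_)
        · exact (natDegree_X_pow_le _).trans (by omega)
        · exact (natDegree_X_pow_le _).trans ha
      · have := (h m p).2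
        rw [hp] at this
        rw [map_sub, map_pow, map_pow, aeval_X]
        by_cases h0 : (p.1 : KK m) ^ n - (p.1 : KK m) ^ a = 0
        · exact Or.inl h0
        · right
          rw [eq_div_iff h0]
          linear_combination this
  obtain ⟨R, hR, hRd, F, hF⟩ := key
  have hsub : (Finset.univ.filter fun p : XX m => g m p = p) ⊆
      ((Finset.univ.filter fun a : (KK m)ˣ => aeval (a : KK m) R = 0) ×ˢ Finset.univ) ∪
        Finset.univ.image (fun a : (KK m)ˣ => (a, F a)) := by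
    intro p hp
    rcases hF p (Finset.mem_filter.mp hp).2 with h1 | h1
    · exact Finset.mem_union_left _ (by simp [h1])
    · exact Finset.mem_union_right _ (Finset.mem_image.mpr ⟨p.1, Finset.mem_univ _, by
        rw [← h1]⟩)
  refine (Finset.card_le_card hsub).trans ((Finset.card_union_le _ _).trans ?_)
  rw [Finset.card_product, Finset.card_univ, cardK, add_mul, one_mul]
  refine add_le_add (Nat.mul_le_mul_right _ ((roots_le m R hR).trans hRd)) ?_
  refine Finset.card_image_le.trans ?_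
  rw [Finset.card_univ, Fintype.card_units, cardK]
  exact Nat.sub_le _ _

theorem approx (n m : ℕ) (hm : n * (2 * n + 1) + 1 ≤ 2 ^ (m + 1)) :
    ∃ φ : GG → Equiv.Perm (Fin ((2 ^ (m + 1) - 1) * 2 ^ (m + 1))),
      φ 1 = 1 ∧ (∀ g h, φ (g * h) = φ g * φ h) ∧
      ∀ g : GG,
        (∃ l : List GG, l.length ≤ n ∧ (∀ x ∈ l, x ∈ SS ∨ x⁻¹ ∈ SS) ∧ l.prod = g) →
        g ≠ 1 →
        1 - 1 / (n : ℝ) ≤
          ((Finset.univ.filter (fun i => φ g i ≠ i)).card : ℝ) /
            (((2 ^ (m + 1) - 1) * 2 ^ (m + 1) : ℕ) : ℝ) := by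
  have hc : Fintype.card (XX m) = (2 ^ (m + 1) - 1) * 2 ^ (m + 1) := by
    rw [Fintype.card_prod, Fintype.card_units, cardK]
  let E := Fintype.equivFinOfCardEq hc
  refine ⟨fun g => E.permCongr ((g : PP) m), ?_, ?_, ?_⟩
  · ext i; simp
  · intro g h; ext i; simp
  · rintro g ⟨l, hl, hl', rfl⟩ hg
    have hn : 0 < n := by
      rcases l with _ | ⟨x, l⟩
      · simp at hg
      · simp at hl; omega
    have h1 := fix_le n m _ (NF_le (NF_list l hl') hl) (fun h => hg (Subtype.ext h))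
    have h2 : (Finset.univ.filter (fun i => E.permCongr (((l.prod : GG) : PP) m) i = i)).card =
        (Finset.univ.filter fun p : XX m => ((l.prod : GG) : PP) m p = p).card := by
      refine Finset.card_equiv E.symm ?_
      intro i
      simp [Equiv.permCongr_apply, Equiv.apply_eq_iff_eq_symm_apply]
    have h3 := Finset.card_filter_add_card_filter_not
      (s := Finset.univ) (fun i => E.permCongr (((l.prod : GG) : PP) m) i = i)
    rw [h2, Finset.card_univ, Fintype.card_fin] at h3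
    obtain ⟨q, hq⟩ : ∃ q, 2 ^ (m + 1) = q + 1 := ⟨2 ^ (m + 1) - 1, by omega⟩
    set A := (Finset.univ.filter fun p : XX m => ((l.prod : GG) : PP) m p = p).card
    set B := (Finset.univ.filter
      (fun i => ¬ E.permCongr (((l.prod : GG) : PP) m) i = i)).card
    change _ ≤ (B : ℝ) / _
    have hq' : n * (2 * n + 1) ≤ q := by omega
    have hd : (2 ^ (m + 1) - 1) * 2 ^ (m + 1) = q * (q + 1) := by rw [hq]; simp
    rw [hd] at h3 ⊢
    rw [hq] at h1
    have hq0 : 0 < q := lt_of_lt_of_le (by positivity) hq'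
    have h4 : n * A ≤ q * (q + 1) := by
      calc n * A ≤ n * ((2 * n + 1) * (q + 1)) := Nat.mul_le_mul_left _ h1
        _ = n * (2 * n + 1) * (q + 1) := by ring
        _ ≤ _ := Nat.mul_le_mul_right _ hq'
    have h5 : (n : ℝ) * A ≤ ((q * (q + 1) : ℕ) : ℝ) := by exact_mod_cast h4
    have h6 : (A : ℝ) + B = ((q * (q + 1) : ℕ) : ℝ) := by exact_mod_cast h3
    have h7 : (0 : ℝ) < ((q * (q + 1) : ℕ) : ℝ) := by positivity
    have h8 : (0 : ℝ) < n := by exact_mod_cast hn
    rw [le_div_iff₀ h7, sub_mul, one_mul, one_div, ← h6, add_comm, add_sub_assoc,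
      add_le_iff_nonpos_right, sub_nonpos, le_inv_mul_iff₀ h8, add_comm, h6]
    exact h5

def poly : List (ZMod 2) → (ZMod 2)[X]
  | [] => 0
  | e :: l => X * poly l + C e

theorem poly_inj : ∀ l l' : List (ZMod 2), l.length = l'.length → poly l = poly l' → l = l'
  | [], [], _, _ => rfl
  | [], _ :: _, h, _ => by simp at h
  | _ :: _, [], h, _ => by simp at h
  | e :: l, e' :: l', h, h' => by
    have h1 : e = e' := by simpa [poly] using congrArg (fun P => coeff P 0) h'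
    subst h1
    have h2 : poly l = poly l' := mul_left_cancel₀ X_ne_zero (add_right_cancel h')
    rw [poly_inj l l' (by simpa using h) h2]

theorem ev (l : List (ZMod 2)) (m : ℕ) (a : (KK m)ˣ) :
    (((l.map gen).prod : GG) : PP) m (a, 0) = (a, aeval (a : KK m) (poly l)) := by
  induction l with
  | nil => simp [poly]
  | cons e l ih =>
    rw [List.map_cons, List.prod_cons, Subgroup.coe_mul, Pi.mul_apply, Equiv.Perm.mul_apply, ih,
      poly, map_add, map_mul, aeval_X, aeval_C]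
    rfl

theorem word_inj (l l' : List (ZMod 2)) (h : l.length = l'.length)
    (h' : (l.map gen).prod = (l'.map gen).prod) : l = l' := by
  apply poly_inj l l' h
  by_contra hne
  have hR := sub_ne_zero.mpr hne
  set m := (poly l - poly l').natDegree with hm
  have h1 := roots_le m _ hR
  rw [Finset.filter_true_of_mem, Finset.card_univ, Fintype.card_units, cardK, ← hm] at h1
  · have := Nat.lt_two_pow_self (n := m + 1)
    omega
  · intro a _
    have h2 := ev l m a
    rw [h', ev] at h2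
    rw [map_sub, sub_eq_zero]
    exact (Prod.ext_iff.mp h2).2.symm

theorem growth (n : ℕ) : 2 ^ n ≤ Nat.card {g : GG //
    ∃ l : List GG, l.length ≤ n ∧ (∀ x ∈ l, x ∈ SS ∨ x⁻¹ ∈ SS) ∧ l.prod = g} := by
  have hT : {x : GG | x ∈ SS ∨ x⁻¹ ∈ SS}.Finite :=
    (SS.finite_toSet.union (SS.finite_toSet.preimage inv_injective.injOn)).subset fun _ h => h
  have := hT.to_subtype
  have hfin : {g : GG |
      ∃ l : List GG, l.length ≤ n ∧ (∀ x ∈ l, x ∈ SS ∨ x⁻¹ ∈ SS) ∧ l.prod = g}.Finite := by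
    refine ((List.finite_length_le {x : GG | x ∈ SS ∨ x⁻¹ ∈ SS} n).image
      (fun l => (l.map Subtype.val).prod)).subset ?_
    rintro g ⟨l, hl, hl', rfl⟩
    refine ⟨l.attachWith _ hl', by simpa using hl, ?_⟩
    exact congrArg List.prod (List.attachWith_map_subtype_val hl')
  have : Finite {g : GG //
    ∃ l : List GG, l.length ≤ n ∧ (∀ x ∈ l, x ∈ SS ∨ x⁻¹ ∈ SS) ∧ l.prod = g} := hfin.to_subtype
  have h1 : Nat.card (List.Vector (ZMod 2) n) = 2 ^ n := by
    rw [Nat.card_eq_fintype_card, card_vector, ZMod.card]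
  rw [← h1]
  refine Nat.card_le_card_of_injective (fun v => ⟨(v.1.map gen).prod, v.1.map gen, by
    simp [v.2], ?_, rfl⟩) ?_
  · intro x hx
    obtain ⟨e, _, rfl⟩ := List.mem_map.mp hx
    exact Or.inl ((mem_SS _).mpr ⟨e, rfl⟩)
  · intro v w h
    exact Subtype.ext (word_inj _ _ (v.2.trans w.2.symm) (congrArg Subtype.val h))

theorem big (B : ℕ) : ∃ m : ℕ, B * (m + 1) ^ 2 ≤ 2 ^ m := by
  refine ⟨3 * (9 * B), ?_⟩
  have h := Nat.lt_two_pow_self (n := 9 * B)
  rw [mul_comm 3, pow_mul]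
  calc B * (9 * B * 3 + 1) ^ 2 ≤ (9 * B + 1) ^ 3 := by nlinarith [Nat.zero_le B]
    _ ≤ _ := Nat.pow_le_pow_left h 3

end

theorem result :
    ¬ (∀ (G : Type) [Group G] (S : Finset G), Subgroup.closure (S : Set G) = ⊤ →
      (∀ n : ℕ, ∃ d : ℕ, 0 < d ∧ ∃ φ : G → Equiv.Perm (Fin d),
        φ 1 = 1 ∧
        (∀ g h : G,
          (∃ l : List G, l.length ≤ n ∧ (∀ x ∈ l, x ∈ S ∨ x⁻¹ ∈ S) ∧ l.prod = g) →
          (∃ l : List G, l.length ≤ n ∧ (∀ x ∈ l, x ∈ S ∨ x⁻¹ ∈ S) ∧ l.prod = h) →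
          ((Finset.univ.filter (fun i : Fin d => φ (g * h) i ≠ (φ g * φ h) i)).card : ℝ)
              / (d : ℝ) ≤ 1 / (n : ℝ)) ∧
        (∀ g : G,
          (∃ l : List G, l.length ≤ n ∧ (∀ x ∈ l, x ∈ S ∨ x⁻¹ ∈ S) ∧ l.prod = g) →
          g ≠ 1 →
          1 - 1 / (n : ℝ) ≤
            ((Finset.univ.filter (fun i : Fin d => φ g i ≠ i)).card : ℝ) / (d : ℝ))) →
      ∃ C : ℕ, 0 < C ∧ ∀ n d : ℕ, 0 < d →
        (∃ φ : G → Equiv.Perm (Fin d),
          φ 1 = 1 ∧
          (∀ g h : G,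
            (∃ l : List G, l.length ≤ C * n ∧ (∀ x ∈ l, x ∈ S ∨ x⁻¹ ∈ S) ∧ l.prod = g) →
            (∃ l : List G, l.length ≤ C * n ∧ (∀ x ∈ l, x ∈ S ∨ x⁻¹ ∈ S) ∧ l.prod = h) →
            ((Finset.univ.filter (fun i : Fin d => φ (g * h) i ≠ (φ g * φ h) i)).card : ℝ)
                / (d : ℝ) ≤ 1 / ((C * n : ℕ) : ℝ)) ∧
          (∀ g : G,
            (∃ l : List G, l.length ≤ C * n ∧ (∀ x ∈ l, x ∈ S ∨ x⁻¹ ∈ S) ∧ l.prod = g) →
            g ≠ 1 →
            1 - 1 / ((C * n : ℕ) : ℝ) ≤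
              ((Finset.univ.filter (fun i : Fin d => φ g i ≠ i)).card : ℝ) / (d : ℝ))) →
        Nat.card {g : G // ∃ l : List G, l.length ≤ n ∧ (∀ x ∈ l, x ∈ S ∨ x⁻¹ ∈ S) ∧ l.prod = g}
          ≤ C * d) := by
  intro hall
  have hd : ∀ m : ℕ, 0 < (2 ^ (m + 1) - 1) * 2 ^ (m + 1) := fun m => by
    have := Nat.lt_two_pow_self (n := m + 1)
    exact Nat.mul_pos (by omega) (by positivity)
  obtain ⟨C, hC, h⟩ := hall GG SS clos (by
    intro n
    obtain ⟨φ, h1, h2, h3⟩ := approx n (n * (2 * n + 1)) Nat.lt_two_pow_self.le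
    exact ⟨_, hd _, φ, h1, fun g h _ _ => by simp [h2], h3⟩)
  obtain ⟨m, hm⟩ := big (4 * (C * (C + 2)) ^ 2)
  obtain ⟨φ, h1, h2, h3⟩ := approx (C * (2 * (m + 1) + C)) m (by
    have h4 : C * (2 * (m + 1) + C) ≤ C * (C + 2) * (m + 1) := by
      rw [mul_assoc]
      exact Nat.mul_le_mul_left _ (by nlinarith [Nat.zero_le (C * m)])
    have h5 : 1 ≤ C * (2 * (m + 1) + C) := Nat.mul_pos hC (by omega)
    set N := C * (2 * (m + 1) + C)
    calc N * (2 * N + 1) + 1 ≤ 4 * N ^ 2 := by nlinarith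
      _ ≤ 4 * (C * (C + 2) * (m + 1)) ^ 2 := by gcongr
      _ = 4 * (C * (C + 2)) ^ 2 * (m + 1) ^ 2 := by ring
      _ ≤ 2 ^ m := hm
      _ ≤ 2 ^ (m + 1) := Nat.pow_le_pow_right (by norm_num) (by omega))
  have h6 := (growth _).trans
    (h (2 * (m + 1) + C) _ (hd m) ⟨φ, h1, fun g h _ _ => by simp [h2]; positivity, h3⟩)
  have h7 := Nat.lt_two_pow_self (n := C)
  have h8 : 2 ^ (2 * (m + 1) + C) = 2 ^ C * (2 ^ (m + 1) * 2 ^ (m + 1)) := by ring
  have h9 : C * ((2 ^ (m + 1) - 1) * 2 ^ (m + 1)) ≤ C * (2 ^ (m + 1) * 2 ^ (m + 1)) :=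
    Nat.mul_le_mul_left _ (Nat.mul_le_mul_right _ (Nat.sub_le _ _))
  have h10 : C * (2 ^ (m + 1) * 2 ^ (m + 1)) < 2 ^ C * (2 ^ (m + 1) * 2 ^ (m + 1)) :=
    Nat.mul_lt_mul_of_pos_right h7 (by positivity)
  omega

end Pool.Agent.S02504
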