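import Pool.Statements.S02525
import Pool.Agent.H.MP_a1472e_al.C

set_option autoImplicit false
open Pool Pool.MP_a1472e_al

namespace Pool.Agent.S02525

theorem result :
    ∀ (G : Type) [Group G],
      (∀ c : ℕ → Set G, Antitone (fun n => Subgroup.centralizer (c n)) →
        ∃ N : ℕ, ∀ n : ℕ, N ≤ n → Subgroup.centralizer (c n) = Subgroup.centralizer (c N)) →
      ∀ X : Set G, (∀ g : G, ∀ x ∈ X, g * x * g⁻¹ ∈ X) →
        (∀ x ∈ X, ∀ y ∈ X, ∃ n : ℕ, (fun z : G => z⁻¹ * y⁻¹ * z * y)^[n] x = 1) →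
        ∀ S : Finset G, (↑S : Set G) ⊆ (Subgroup.closure X : Set G) →
          Group.IsNilpotent (Subgroup.closure (↑S : Set G)) := by
  intro G _ h X hX he S hS
  open Pool.Agent.H.MP_a1472e_al in
  exact (Subgroup.isNilpotent_iff_lowerCentralSeries _).2
    ((main (mc_chain h) (fun x _ => sn_of hX x) he).clos _ S.finite_toSet hS)

end Pool.Agent.S02525
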