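import Pool.Statements.S02538

set_option autoImplicit false
open Pool Pool.MP_a19302_al

namespace Pool.Agent.S02538

abbrev M := ℕ × ℕ → ℚ

def L (n : ℕ) : ℕ := n * (n + 1)

open Classical in
noncomputable def T (φ : ℕ → ℕ → Prop) (a : ℕ) : Module.End ℚ M where
  toFun f := fun x => if φ x.1 x.2 then f (x.1, x.2 + a) else 0
  map_add' f g := by
    funext x
    by_cases h : φ x.1 x.2 <;> simp [h]
  map_smul' c f := by
    funext x
    by_cases h : φ x.1 x.2 <;> simp [h]

open Classical in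
theorem T_apply (φ : ℕ → ℕ → Prop) (a : ℕ) (f : M) (n p : ℕ) :
    T φ a f (n, p) = if φ n p then f (n, p + a) else 0 := rfl

theorem T_mul (φ ψ : ℕ → ℕ → Prop) (a b : ℕ) :
    T φ a * T ψ b = T (fun n p => φ n p ∧ ψ n (p + a)) (a + b) := by
  ext f ⟨n, p⟩
  simp only [Module.End.mul_apply, T_apply]
  by_cases h : φ n p <;> by_cases h' : ψ n (p + a) <;> simp [h, h', add_assoc]

theorem T_congr {φ ψ : ℕ → ℕ → Prop} {a : ℕ} (h : ∀ n p, φ n p ↔ ψ n p) : T φ a = T ψ a := by
  have : φ = ψ := by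
    funext n p
    exact propext (h n p)
  rw [this]

theorem T_one : T (fun _ _ => True) 0 = 1 := by
  ext f ⟨n, p⟩
  simp [T_apply]

noncomputable def S : Module.End ℚ M := T (fun n p => p < L n) 1
noncomputable def P : Module.End ℚ M := T (fun n p => n + 1 ∣ p) 0

noncomputable def W (a b g : ℕ) (c : Bool) : Module.End ℚ M :=
  T (fun n p => (a = 0 ∨ p + a ≤ L n) ∧ (c = true → n + 1 ∣ p + b ∧ n + 1 ∣ g)) a

def Z (N : ℕ) : Set (Module.End ℚ M) := {w | ∃ a b g c, b ≤ a ∧ a ≤ N ∧ g ≤ N ∧ w = W a b g c}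

theorem W_S (a b g : ℕ) (c : Bool) : W a b g c * S = W (a + 1) b g c := by
  unfold W S
  rw [T_mul]
  apply T_congr
  intro n p
  constructor
  · rintro ⟨⟨_, h2⟩, h3⟩
    exact ⟨Or.inr (by omega), h2⟩
  · rintro ⟨h1, h2⟩
    exact ⟨⟨Or.inr (by omega), h2⟩, by omega⟩

theorem W_P0 (a b g : ℕ) : W a b g false * P = W a a 0 true := by
  unfold W P
  rw [T_mul]
  apply T_congr
  intro n p
  simp

theorem W_P1 (a b g : ℕ) (h : b ≤ a) : W a b g true * P = W a a (Nat.gcd g (a - b)) true := by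
  unfold W P
  rw [T_mul]
  apply T_congr
  intro n p
  have e : p + a = (p + b) + (a - b) := by omega
  simp only [forall_true_left, Nat.dvd_gcd_iff]
  constructor
  · rintro ⟨⟨h1, h2, h3⟩, h4⟩
    refine ⟨h1, h4, h3, ?_⟩
    rw [e] at h4
    exact (Nat.dvd_add_right h2).1 h4
  · rintro ⟨h1, h2, h3, h4⟩
    refine ⟨⟨h1, ?_, h3⟩, h2⟩
    rw [e] at h2
    exact (Nat.dvd_add_left h4).1 h2

theorem Z_mul (N : ℕ) : Submodule.span ℚ (Z N) * Submodule.span ℚ {1, S, P} ≤
    Submodule.span ℚ (Z (N + 1)) := by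
  rw [Submodule.span_mul_span]
  apply Submodule.span_mono
  rintro _ ⟨u, ⟨a, b, g, c, h1, h2, h3, rfl⟩, v, hv, rfl⟩
  rcases hv with rfl | rfl | rfl
  · exact ⟨a, b, g, c, h1, by omega, by omega, by simp⟩
  · exact ⟨a + 1, b, g, c, by omega, by omega, by omega, W_S a b g c⟩
  · cases c
    · exact ⟨a, a, 0, true, le_rfl, by omega, by omega, W_P0 a b g⟩
    · refine ⟨a, a, _, true, le_rfl, by omega, ?_, W_P1 a b g h1⟩
      rcases Nat.eq_zero_or_pos g with rfl | hg
      · simp only [Nat.gcd_zero_left]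
        omega
      · have := Nat.gcd_le_left (a - b) hg
        omega

theorem Z_rank (N : ℕ) : Module.Finite ℚ (Submodule.span ℚ (Z N)) ∧
    Module.finrank ℚ (Submodule.span ℚ (Z N)) ≤ 2 * (N + 1) ^ 3 := by
  let w : Fin (N + 1) × Fin (N + 1) × Fin (N + 1) × Bool → Module.End ℚ M :=
    fun x => W x.1 x.2.1 x.2.2.1 x.2.2.2
  have hle : Submodule.span ℚ (Z N) ≤ Submodule.span ℚ (Set.range w) := by
    apply Submodule.span_mono
    rintro _ ⟨a, b, g, c, h1, h2, h3, rfl⟩
    exact ⟨(⟨a, by omega⟩, ⟨b, by omega⟩, ⟨g, by omega⟩, c), rfl⟩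
  have : Module.Finite ℚ (Submodule.span ℚ (Set.range w)) :=
    Module.Finite.span_of_finite ℚ (Set.finite_range w)
  refine ⟨Submodule.finiteDimensional_of_le hle, ?_⟩
  refine (Submodule.finrank_mono hle).trans ((finrank_range_le_card w).trans ?_)
  simp only [Fintype.card_prod, Fintype.card_fin, Fintype.card_bool]
  apply le_of_eq
  ring

noncomputable abbrev A : Subalgebra ℚ (Module.End ℚ M) := Algebra.adjoin ℚ {S, P}

noncomputable def S' : A := ⟨S, Algebra.subset_adjoin (by simp)⟩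
noncomputable def P' : A := ⟨P, Algebra.subset_adjoin (by simp)⟩

noncomputable def V : Submodule ℚ A := Submodule.span ℚ {1, S', P'}

theorem V_pow (n : ℕ) : ∀ x ∈ V ^ n, (x : Module.End ℚ M) ∈ Submodule.span ℚ (Z n) := by
  induction n with
  | zero =>
    intro x hx
    rw [pow_zero, Submodule.mem_one] at hx
    obtain ⟨y, rfl⟩ := hx
    have : (1 : Module.End ℚ M) ∈ Submodule.span ℚ (Z 0) := by
      apply Submodule.subset_span
      refine ⟨0, 0, 0, false, le_rfl, le_rfl, le_rfl, ?_⟩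
      rw [← T_one]
      apply T_congr
      simp
    have h2 := Submodule.smul_mem _ y this
    rw [← Algebra.algebraMap_eq_smul_one] at h2
    exact h2
  | succ n ih =>
    intro x hx
    rw [pow_succ] at hx
    refine Submodule.mul_induction_on hx ?_ ?_
    · intro u hu v hv
      apply Z_mul n
      refine Submodule.mul_mem_mul (ih u hu) ?_
      have : V ≤ (Submodule.span ℚ {1, S, P}).comap A.val.toLinearMap := by
        apply Submodule.span_le.2
        intro z hz
        apply Submodule.subset_span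
        rcases hz with rfl | rfl | rfl
        · exact Or.inl rfl
        · exact Or.inr (Or.inl rfl)
        · exact Or.inr (Or.inr rfl)
      exact this hv
    · intro u v hu hv
      exact Submodule.add_mem _ hu hv

theorem V_rank (n : ℕ) : Module.finrank ℚ ↥(V ^ n) ≤ 2 * (n + 1) ^ 3 := by
  have := (Z_rank n).1
  refine le_trans ?_ (Z_rank n).2
  let f : ↥(V ^ n) →ₗ[ℚ] Submodule.span ℚ (Z n) :=
    LinearMap.codRestrict _ (A.val.toLinearMap.comp (V ^ n).subtype) (fun x => V_pow n x.1 x.2)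
  apply LinearMap.finrank_le_finrank_of_injective (f := f)
  intro x y h
  have := congrArg Subtype.val h
  exact Subtype.ext (Subtype.ext this)

theorem V_top : Algebra.adjoin ℚ (V : Set A) = ⊤ := by
  rw [eq_top_iff, ← Algebra.adjoin_adjoin_coe_preimage]
  apply Algebra.adjoin_mono
  intro z hz
  apply Submodule.subset_span
  rcases hz with h | h
  · exact Or.inr (Or.inl (Subtype.ext h))
  · exact Or.inr (Or.inr (Subtype.ext h))

def H (m r : ℕ) (f : M) : Prop := ∀ n p, (m < n ∨ L n < p + r) → f (n, p) = 0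

theorem A_H (m r : ℕ) (b : A) (f : M) (hf : H m r f) : H m r (b.1 f) := by
  obtain ⟨b, hb⟩ := b
  induction hb using Algebra.adjoin_induction generalizing f with
  | mem x hx =>
    intro n p h
    rcases hx with rfl | rfl
    · simp only [S, T_apply]
      split_ifs
      · exact hf _ _ (by omega)
      · rfl
    · simp only [P, T_apply]
      split_ifs
      · exact hf _ _ (by omega)
      · rfl
  | algebraMap c =>
    intro n p h
    simp [Algebra.algebraMap_eq_smul_one, hf n p h]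
  | add x y _ _ hx hy =>
    intro n p h
    have h1 := hx f hf n p h
    have h2 := hy f hf n p h
    simp only at h1 h2
    simp [h1, h2]
  | mul x y _ _ hx hy =>
    exact hx _ (hy f hf)

noncomputable def I (m : ℕ) : TwoSidedIdeal A := TwoSidedIdeal.mk'
  {a | (∀ f, H m 0 (a.1 f)) ∧ ∀ r f, H m r f → H m (r + 1) (a.1 f)}
  (by
    constructor
    · intro f n p _
      simp
    · intro r f _ n p _
      simp)
  (by
    rintro x y ⟨h1, h2⟩ ⟨h3, h4⟩
    constructor
    · intro f n p h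
      simp [h1 f n p h, h3 f n p h]
    · intro r f hf n p h
      simp [h2 r f hf n p h, h4 r f hf n p h])
  (by
    rintro x ⟨h1, h2⟩
    constructor
    · intro f n p h
      simp [h1 f n p h]
    · intro r f hf n p h
      simp [h2 r f hf n p h])
  (by
    rintro x y ⟨h1, h2⟩
    exact ⟨fun f => A_H m 0 x _ (h1 f), fun r f hf => A_H m _ x _ (h2 r f hf)⟩)
  (by
    rintro x y ⟨h1, h2⟩
    exact ⟨fun f => h1 _, fun r f hf => h2 r _ (A_H m r y f hf)⟩)

theorem mem_I (m : ℕ) (a : A) :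
    a ∈ I m ↔ (∀ f, H m 0 (a.1 f)) ∧ ∀ r f, H m r f → H m (r + 1) (a.1 f) := by
  unfold I
  rw [TwoSidedIdeal.mem_mk']
  rfl

theorem prod_H (m : ℕ) (l : List A) (hl : ∀ a ∈ l, a ∈ I m) (r : ℕ) (hr : l.length = r + 1)
    (f : M) : H m r (l.prod.1 f) := by
  induction l generalizing r with
  | nil => simp at hr
  | cons a l ih =>
    have ha := (mem_I m a).1 (hl a (by simp))
    rw [List.prod_cons]
    cases r with
    | zero => exact ha.1 _
    | succ r =>
      exact ha.2 r _ (ih (fun b hb => hl b (by simp [hb])) r (by simpa using hr))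

theorem I_nil (m : ℕ) : ∃ t : ℕ, ∀ f : Fin t → A, (∀ i, f i ∈ I m) → (List.ofFn f).prod = 0 := by
  refine ⟨L m + 1 + 1, fun f hf => ?_⟩
  apply Subtype.ext
  ext v ⟨n, p⟩
  refine prod_H m _ ?_ (L m + 1) (by simp) v n p ?_
  · intro a ha
    obtain ⟨i, rfl⟩ := (List.mem_ofFn' _ _).1 ha
    exact hf i
  · by_cases h : m < n
    · exact Or.inl h
    · right
      have : L n ≤ L m := Nat.mul_le_mul (by omega) (by omega)
      omega

theorem S_pow (j : ℕ) : S ^ (j + 1) = T (fun n p => p + (j + 1) ≤ L n) (j + 1) := by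
  induction j with
  | zero =>
    rw [zero_add, pow_one]
    exact T_congr (fun n p => by omega)
  | succ j ih =>
    rw [pow_succ, ih, S, T_mul]
    exact T_congr (fun n p => by omega)

noncomputable def q (m : ℕ) : A := P' * S' ^ (m + 1) * P'

theorem q_val (m : ℕ) : (q m).1 = T (fun n p => (n + 1 ∣ p ∧ p + (m + 1) ≤ L n) ∧
    n + 1 ∣ p + (m + 1)) (m + 1) := by
  have : (q m).1 = P * S ^ (m + 1) * P := by
    simp [q, S', P']
  rw [this, S_pow, P, T_mul, T_mul]
  simp

theorem q_mem (m : ℕ) : q m ∈ I m := by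
  rw [mem_I, q_val]
  constructor
  · intro f n p h
    rw [T_apply, if_neg]
    rintro ⟨⟨h1, h2⟩, h3⟩
    have := Nat.le_of_dvd (by omega) ((Nat.dvd_add_right h1).1 h3)
    omega
  · intro r f hf n p h
    rw [T_apply]
    split_ifs
    · exact hf _ _ (by omega)
    · rfl

theorem q_pow (m j : ℕ) : ∀ p, m + 1 ∣ p → p + j * (m + 1) ≤ L m →
    (q m ^ j).1 (fun _ => 1) (m, p) = 1 := by
  induction j with
  | zero => intro p _ _; simp
  | succ j ih =>
    intro p h1 h2
    have e : (j + 1) * (m + 1) = j * (m + 1) + (m + 1) := by ring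
    rw [pow_succ']
    change (q m).1 ((q m ^ j).1 (fun _ => 1)) (m, p) = 1
    rw [q_val, T_apply, if_pos ⟨⟨h1, by omega⟩, Dvd.dvd.add h1 dvd_rfl⟩]
    exact ih _ (Dvd.dvd.add h1 dvd_rfl) (by omega)

theorem result :
    ¬ (∀ (k : Type) [Field k] (A : Type) [Ring A] [Algebra k A],
      Algebra.FiniteType k A →
      (∃ V : Submodule k A, FiniteDimensional k V ∧ (1 : A) ∈ V ∧
          Algebra.adjoin k (V : Set A) = ⊤ ∧
          ∃ C d : ℕ, ∀ n : ℕ, Module.finrank k ↥(V ^ n) ≤ C * (n + 1) ^ d) →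
      ∃ N : TwoSidedIdeal A,
        (∃ m : ℕ, ∀ f : Fin m → A, (∀ i, f i ∈ N) → (List.ofFn f).prod = 0) ∧
        ∀ I : TwoSidedIdeal A,
          (∃ m : ℕ, ∀ f : Fin m → A, (∀ i, f i ∈ I) → (List.ofFn f).prod = 0) → I ≤ N) := by
  intro h
  have hft : Algebra.FiniteType ℚ A := by
    classical
    refine ⟨⟨{S', P'}, ?_⟩⟩
    rw [eq_top_iff, ← Algebra.adjoin_adjoin_coe_preimage]
    apply Algebra.adjoin_mono
    intro z hz
    rcases hz with h | h
    · simp [show z = S' from Subtype.ext h]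
    · simp [show z = P' from Subtype.ext h]
  have hV : Module.Finite ℚ V := Module.Finite.span_of_finite ℚ (Set.toFinite {1, S', P'})
  have hone : (1 : A) ∈ V := by
    apply Submodule.subset_span
    exact Or.inl rfl
  obtain ⟨N, ⟨m, hm⟩, hN⟩ := h ℚ A hft ⟨V, hV, hone, V_top, 2, 3, V_rank⟩
  have h1 : q m ∈ N := hN (I m) (I_nil m) (q_mem m)
  have h2 := hm (fun _ => q m) (fun _ => h1)
  rw [List.ofFn_const, List.prod_replicate] at h2
  have h3 := q_pow m m 0 (dvd_zero _) (by simp [L])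
  rw [h2] at h3
  simp at h3

end Pool.Agent.S02538
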