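import Pool.Statements.S02542
import Pool.Agent.H.MP_a20134_al.Main

set_option autoImplicit false
open Matrix
open Pool Pool.MP_a20134_al

namespace Pool.Agent.S02542

theorem result :
    ¬ (∀ A : Matrix (Fin 5) (Fin 5) ℝ,
      (∀ i j, ∃ q : ℚ, A i j = (q : ℝ)) →
      A.PosDef →
      (∀ i j, 0 < A i j) →
      (∃ m : ℕ, ∃ C : Matrix (Fin 5) (Fin m) ℝ, (∀ i j, 0 ≤ C i j) ∧ A = C * Cᵀ) →
      (∀ ε : ℝ, 0 < ε → ∃ S : Matrix (Fin 5) (Fin 5) ℝ, Sᵀ = S ∧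
          (∀ i j, |S i j - A i j| < ε) ∧
          ¬ ∃ m : ℕ, ∃ C : Matrix (Fin 5) (Fin m) ℝ, (∀ i j, 0 ≤ C i j) ∧ S = C * Cᵀ) →
      ∀ B : Matrix (Fin 5) (Fin 5) ℝ, (∀ i j, 0 ≤ B i j) → A = B * Bᵀ →
        ∀ j i l : Fin 5, ∃ r : ℚ, B i j * B l j = (r : ℝ)) := by
  intro h
  open Pool.Agent.H.MP_a20134_al in
  exact B_irr (h A A_rat A_posDef A_pos ⟨5, B, B_nonneg, A_eq⟩ A_bdry B B_nonneg A_eq 0 0 0)

end Pool.Agent.S02542
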