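import Pool.Statements.S02549
import Pool.Agent.H.MP_a23033_al.Ring

set_option autoImplicit false
open Pool Pool.MP_a23033_al

namespace Pool.Agent.S02549

open Pool.Agent.H.MP_a23033_al MonoidAlgebra

/-- the Magnus group: pairs over the group ring, extended by the Heisenberg group -/
@[ext] structure E : Type where
  a : S
  b : S
  g : G

noncomputable instance : Mul E := ⟨fun u v => ⟨u.a + o u.g * v.a, u.b + o u.g * v.b, u.g * v.g⟩⟩
noncomputable instance : One E := ⟨⟨0, 0, 1⟩⟩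
noncomputable instance : Inv E := ⟨fun u => ⟨o u.g⁻¹ * u.a, o u.g⁻¹ * u.b, u.g⁻¹⟩⟩

@[simp] lemma mul_a (u v : E) : (u * v).a = u.a + o u.g * v.a := rfl
@[simp] lemma mul_b (u v : E) : (u * v).b = u.b + o u.g * v.b := rfl
@[simp] lemma mul_g (u v : E) : (u * v).g = u.g * v.g := rfl
@[simp] lemma one_a : (1 : E).a = 0 := rfl
@[simp] lemma one_b : (1 : E).b = 0 := rfl
@[simp] lemma one_g : (1 : E).g = 1 := rfl
@[simp] lemma inv_a (u : E) : (u⁻¹).a = o u.g⁻¹ * u.a := rfl
@[simp] lemma inv_b (u : E) : (u⁻¹).b = o u.g⁻¹ * u.b := rfl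
@[simp] lemma inv_g (u : E) : (u⁻¹).g = u.g⁻¹ := rfl

noncomputable instance : Group E := Group.ofLeftAxioms
  (fun u v w => by ext1 <;> simp [o_mul, mul_add, mul_assoc, add_assoc])
  (fun u => by ext1 <;> simp [o_one])
  (fun u => by ext1 <;> simp [add_self])

noncomputable def gens : Fin 2 → E := ![⟨1, 0, gx⟩, ⟨0, 1, gy⟩]
noncomputable def mu : FreeGroup (Fin 2) →* E := FreeGroup.lift gens

noncomputable def bh (θ : Fin 2 → E) : S →+* S :=
  mapDomainRingHom (ZMod 2) (be (θ 0).g (θ 1).g)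

lemma bh_o (θ : Fin 2 → E) (g : G) : bh θ (o g) = o (be (θ 0).g (θ 1).g g) := by
  simp [bh, o]

noncomputable def Ph (θ : Fin 2 → E) : E →* E := MonoidHom.mk'
  (fun u => ⟨bh θ u.a * (θ 0).a + bh θ u.b * (θ 1).a, bh θ u.a * (θ 0).b + bh θ u.b * (θ 1).b,
    be (θ 0).g (θ 1).g u.g⟩)
  (fun u v => by
    ext1
    · simp only [mul_a, mul_b, map_add, map_mul, bh_o]; noncomm_ring
    · simp only [mul_a, mul_b, map_add, map_mul, bh_o]; noncomm_ring
    · simp)

lemma Ph_apply (θ : Fin 2 → E) (u : E) : Ph θ u =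
    ⟨bh θ u.a * (θ 0).a + bh θ u.b * (θ 1).a, bh θ u.a * (θ 0).b + bh θ u.b * (θ 1).b,
    be (θ 0).g (θ 1).g u.g⟩ := rfl

lemma lift_eq (θ : Fin 2 → E) (w : FreeGroup (Fin 2)) : FreeGroup.lift θ w = Ph θ (mu w) := by
  have : FreeGroup.lift θ = (Ph θ).comp mu := by
    ext1 i
    fin_cases i <;> simp [mu, gens, Ph_apply, be_x, be_y]
  rw [this]; rfl

lemma mu_lift {α : Type} (a : α → FreeGroup (Fin 2)) (w : FreeGroup α) :
    mu (FreeGroup.lift a w) = FreeGroup.lift (fun j => mu (a j)) w := by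
  have : mu.comp (FreeGroup.lift a) = FreeGroup.lift (fun j => mu (a j)) := by
    ext1 i; simp
  exact DFunLike.congr_fun this w

def W : Set (FreeGroup ℕ) := {w | ∀ f : ℕ → E, FreeGroup.lift f w = 1}

lemma ker_eq : mu.ker = Subgroup.closure
    {x : FreeGroup (Fin 2) | ∃ (f : ℕ → FreeGroup (Fin 2)) (w : FreeGroup ℕ),
      w ∈ W ∧ FreeGroup.lift f w = x} := by
  apply le_antisymm
  · intro w hw
    refine Subgroup.subset_closure ⟨fun n => if n = 0 then FreeGroup.of 0 else FreeGroup.of 1,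
      FreeGroup.map Fin.val w, fun f => ?_, ?_⟩
    · have : (FreeGroup.lift f).comp (FreeGroup.map Fin.val) =
          FreeGroup.lift (fun i : Fin 2 => f i) := by
        ext1 i; simp
      have h2 := DFunLike.congr_fun this w
      rw [MonoidHom.comp_apply, lift_eq, (MonoidHom.mem_ker.mp hw), map_one] at h2
      exact h2
    · have : (FreeGroup.lift (fun n : ℕ => if n = 0 then FreeGroup.of (0 : Fin 2)
          else FreeGroup.of 1)).comp (FreeGroup.map Fin.val) = MonoidHom.id _ := by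
        ext1 i; fin_cases i <;> simp
      exact DFunLike.congr_fun this w
  · rw [Subgroup.closure_le]
    rintro _ ⟨f, w, hw, rfl⟩
    change mu _ = 1
    rw [mu_lift]
    exact hw _

noncomputable def cc : FreeGroup (Fin 2) :=
  (FreeGroup.of 1 * FreeGroup.of 0 * (FreeGroup.of 1)⁻¹) *
  (FreeGroup.of 1 * FreeGroup.of 1 * FreeGroup.of 0 * (FreeGroup.of 1)⁻¹ * (FreeGroup.of 1)⁻¹) *
  (FreeGroup.of 1 * FreeGroup.of 0 * (FreeGroup.of 1)⁻¹)⁻¹ *
  (FreeGroup.of 1 * FreeGroup.of 1 * FreeGroup.of 0 * (FreeGroup.of 1)⁻¹ * (FreeGroup.of 1)⁻¹)⁻¹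

def mk (l m : List G) (g : G) : List G × List G × G := (l, m, g)
noncomputable def ev (t : List G × List G × G) : E := ⟨P t.1, P t.2.1, t.2.2⟩
def tm (t s : List G × List G × G) : List G × List G × G :=
  (t.1 ++ lm [t.2.2] s.1, t.2.1 ++ lm [t.2.2] s.2.1, t.2.2 * s.2.2)
def ti (t : List G × List G × G) : List G × List G × G :=
  (lm [t.2.2⁻¹] t.1, lm [t.2.2⁻¹] t.2.1, t.2.2⁻¹)

lemma P_one (g : G) : P [g] = o g := by simp [P]

lemma ev_tm (t s : List G × List G × G) : ev t * ev s = ev (tm t s) := by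
  ext1 <;> simp [ev, tm, P_app, P_lm, P_one]

lemma ev_ti (t : List G × List G × G) : (ev t)⁻¹ = ev (ti t) := by
  ext1 <;> simp [ev, ti, P_lm, P_one]

lemma mu_cc : mu cc = ⟨P lp + 1, P lq, 1⟩ := by
  have h0 : mu (FreeGroup.of 0) = ev ([1], [], gx) := by simp [mu, gens, ev, P_one, o_one, P_nil]
  have h1 : mu (FreeGroup.of 1) = ev ([], [1], gy) := by simp [mu, gens, ev, P_one, o_one, P_nil]
  simp only [cc, map_mul, map_inv, h0, h1, ev_tm, ev_ti]
  ext1
  · rw [← o_one, ← P_one, ← P_app]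
    exact P_eq _ _ (by decide +kernel)
  · exact P_eq _ _ (by decide +kernel)
  · change _ = (1 : G)
    decide +kernel

lemma surj (g : G) : ∃ w, (mu w).g = g := by
  let π : E →* G := MonoidHom.mk' E.g (fun _ _ => rfl)
  exact gen (π.comp mu).range ⟨FreeGroup.of 0, by simp [mu, gens, π]⟩
    ⟨FreeGroup.of 1, by simp [mu, gens, π]⟩ g

lemma ex_word (l : List G) : ∃ w, mu w = ⟨P l * (P lp + 1), P l * P lq, 1⟩ := by
  induction l with
  | nil => exact ⟨1, by ext1 <;> simp [P_nil]⟩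
  | cons g l ih =>
    obtain ⟨w, hw⟩ := ih
    obtain ⟨v, rfl⟩ := surj g
    refine ⟨v * cc * v⁻¹ * w, ?_⟩
    simp only [map_mul, map_inv, mu_cc, hw]
    have h2 : ∀ s t : S, s + t + s = t := fun s t => by
      rw [add_right_comm, add_self, zero_add]
    ext1
    · simp only [mul_a, mul_g, inv_a, inv_g, mul_one, ← mul_assoc, ← o_mul, mul_inv_cancel, o_one,
        one_mul, h2, P_cons, add_mul]
    · simp only [mul_b, mul_g, inv_b, inv_g, mul_one, ← mul_assoc, ← o_mul, mul_inv_cancel, o_one,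
        one_mul, h2, P_cons, add_mul]
    · simp

lemma mu_h : mu (cc * FreeGroup.of 0) = ⟨P lp, P lq, gx⟩ := by
  rw [map_mul, mu_cc]
  ext1 <;> simp [mu, gens, o_one, add_assoc, add_self]

lemma ker_iff (u v : FreeGroup (Fin 2)) : u⁻¹ * v ∈ mu.ker ↔ mu u = mu v := by
  rw [MonoidHom.mem_ker, map_mul, map_inv, inv_mul_eq_one]

lemma nonprim (A B : Fin 2 → E) (h1 : ∀ j, Ph B (A j) = gens j) (h2 : ∀ j, Ph A (B j) = gens j)
    (i : Fin 2) (hi : A i = ⟨P lp, P lq, gx⟩) : False := by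
  have hc : (be (A 0).g (A 1).g).comp (be (B 0).g (B 1).g) = MonoidHom.id G := by
    ext1 g
    refine gen (MonoidHom.eqLocus _ _) ?_ ?_ g
    · change be _ _ (be _ _ gx) = gx
      rw [be_x]; exact congrArg E.g (h2 0)
    · change be _ _ (be _ _ gy) = gy
      rw [be_y]; exact congrArg E.g (h2 1)
  have hb : ∀ s, bh A (bh B s) = s := by
    intro s
    have : (bh A).comp (bh B) = RingHom.id S := by
      rw [bh, bh, ← mapDomainRingHom_comp, hc, mapDomainRingHom_id]
    exact DFunLike.congr_fun this s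
  have e1 := congrArg E.a (h2 0)
  have e2 := congrArg E.b (h2 0)
  have e3 := congrArg (fun u => bh A u.b) (h1 0)
  have e4 := congrArg (fun u => bh A u.a) (h1 1)
  simp only [Ph_apply, gens, map_add, map_mul, hb, Matrix.cons_val_zero, Matrix.cons_val_one,
    map_zero] at e1 e2 e3 e4
  fin_cases i
  · simp only [Fin.zero_eta] at hi
    simp only [hi] at e1 e2 e3
    refine nonfree _ _ e3 fun u v huv => ⟨(A 1).a * u + (A 1).b * v, ?_⟩
    calc u = 1 * u + 0 * v := by simp
      _ = bh A (B 0).a * (P lp * u + P lq * v) + bh A (B 0).b * ((A 1).a * u + (A 1).b * v) := by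
        rw [← e1, ← e2]; noncomm_ring
      _ = _ := by rw [huv]; simp
  · simp only [Fin.mk_one] at hi
    simp only [hi] at e1 e2 e4
    refine nonfree _ _ e4 fun u v huv => ⟨(A 0).a * u + (A 0).b * v, ?_⟩
    calc u = 1 * u + 0 * v := by simp
      _ = bh A (B 0).b * (P lp * u + P lq * v) + bh A (B 0).a * ((A 0).a * u + (A 0).b * v) := by
        rw [← e1, ← e2]; noncomm_ring
      _ = _ := by rw [huv]; simp

/-- There is a variety of groups (given by laws), a rank r, and an element h of the relatively free group of rank r that is not primitive, together with an injective endomorphism of that group sending h to a primitive element. -/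
theorem result :
    ∃ (W : Set (FreeGroup ℕ)) (r : ℕ) (V : Subgroup (FreeGroup (Fin r))),
      V = Subgroup.closure
        {x : FreeGroup (Fin r) | ∃ (f : ℕ → FreeGroup (Fin r)) (w : FreeGroup ℕ),
          w ∈ W ∧ FreeGroup.lift f w = x} ∧
      ∃ (h : FreeGroup (Fin r)) (g : Fin r → FreeGroup (Fin r)),
        (¬ ∃ (a b : Fin r → FreeGroup (Fin r)) (i : Fin r),
            (∀ j : Fin r, (FreeGroup.lift b (a j))⁻¹ * FreeGroup.of j ∈ V) ∧
            (∀ j : Fin r, (FreeGroup.lift a (b j))⁻¹ * FreeGroup.of j ∈ V) ∧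
            (a i)⁻¹ * h ∈ V) ∧
        (∀ w : FreeGroup (Fin r), FreeGroup.lift g w ∈ V → w ∈ V) ∧
        (∃ (a b : Fin r → FreeGroup (Fin r)) (i : Fin r),
            (∀ j : Fin r, (FreeGroup.lift b (a j))⁻¹ * FreeGroup.of j ∈ V) ∧
            (∀ j : Fin r, (FreeGroup.lift a (b j))⁻¹ * FreeGroup.of j ∈ V) ∧
            (a i)⁻¹ * FreeGroup.lift g h ∈ V) := by
  obtain ⟨w1, hw1⟩ := ex_word lu1
  obtain ⟨w2, hw2⟩ := ex_word lv1
  obtain ⟨g, hg⟩ : ∃ g : Fin 2 → FreeGroup (Fin 2),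
      g = ![w1 * FreeGroup.of 0, w2 * FreeGroup.of 1] := ⟨_, rfl⟩
  have hg0 : mu (g 0) = ⟨P lu1 * (P lp + 1) + 1, P lu1 * P lq, gx⟩ := by
    simp only [hg, Matrix.cons_val_zero, map_mul, hw1]
    ext1 <;> simp [mu, gens, o_one]
  have hg1 : mu (g 1) = ⟨P lv1 * (P lp + 1), P lv1 * P lq + 1, gy⟩ := by
    simp only [hg, Matrix.cons_val_one, Matrix.cons_val_zero, map_mul, hw2]
    ext1 <;> simp [mu, gens, o_one]
  have hP : ∀ w, mu (FreeGroup.lift g w) =
      ⟨((mu w).a * P lu1 + (mu w).b * P lv1) * (P lp + 1) + (mu w).a,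
       ((mu w).a * P lu1 + (mu w).b * P lv1) * P lq + (mu w).b, (mu w).g⟩ := by
    intro w
    rw [mu_lift, lift_eq, Ph_apply]
    simp only [bh, hg0, hg1, be_id, mapDomainRingHom_id, RingHom.id_apply, MonoidHom.id_apply]
    ext1
    · simp only; noncomm_ring
    · simp only; noncomm_ring
    · rfl
  refine ⟨W, 2, mu.ker, ker_eq, cc * FreeGroup.of 0, g, ?_, ?_, ?_⟩
  · rintro ⟨a, b, i, h1, h2, h3⟩
    simp only [ker_iff, mu_lift, lift_eq] at h1 h2 h3
    refine nonprim (fun j => mu (a j)) (fun j => mu (b j)) (fun j => ?_) (fun j => ?_) i ?_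
    · rw [h1]; simp [mu]
    · rw [h2]; simp [mu]
    · rw [h3, mu_h]
  · intro w hw
    rw [MonoidHom.mem_ker] at hw ⊢
    rw [hP] at hw
    have e1 := congrArg E.a hw
    have e2 := congrArg E.b hw
    have e3 := congrArg E.g hw
    simp only [one_a, one_b, one_g] at e1 e2 e3
    obtain ⟨s, hs⟩ : ∃ s, s = (mu w).a * P lu1 + (mu w).b * P lv1 := ⟨_, rfl⟩
    rw [← hs] at e1 e2
    have e4 : s * P lu1 = 0 := by
      calc s * P lu1 = s * P lu1 + (s + s) := by rw [add_self, add_zero]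
        _ = s * P lu1 + (s * (P lp * P lu1 + P lq * P lv1) +
          ((mu w).a * P lu1 + (mu w).b * P lv1)) := by rw [id1, ← hs, mul_one]
        _ = (s * (P lp + 1) + (mu w).a) * P lu1 + (s * P lq + (mu w).b) * P lv1 := by noncomm_ring
        _ = 0 := by rw [e1, e2]; simp
    have e5 : s = 0 := (mul_eq_zero.mp e4).resolve_right u1_ne
    rw [e5, zero_mul, zero_add] at e1 e2
    ext1
    · exact e1
    · exact e2
    · exact e3
  · refine ⟨FreeGroup.of, FreeGroup.of, 0, fun j => by simp, fun j => by simp, ?_⟩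
    rw [ker_iff, hP, mu_h]
    simp only [id1, one_mul, add_self]
    ext1
    · simp only [add_right_comm _ (1 : S), add_self]
      simp [mu, gens]
    · simp [mu, gens]
    · simp [mu, gens]

end Pool.Agent.S02549
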