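import Pool.Statements.S02580
import Pool.Agent.H.MP_a4afae_al.B

set_option autoImplicit false
open Pool Pool.MP_a4afae_al

namespace Pool.Agent.S02580

open Pool.Agent.H.MP_a4afae_al in
/-- The negation of the preceding statement: For a finitely generated group G and prime p, if dim of F_p[G] modulo the (n+1)-th power of its augmentation ideal is at least C·c^n for some c>1, C>0, then G has no finitely additive left-invariant probability mean on its subsets. -/
theorem result :
    ¬ (∀ (G : Type) [Group G], Group.FG G → ∀ p : ℕ, p.Prime →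
      (∃ c : ℝ, 1 < c ∧ ∃ C : ℝ, 0 < C ∧ ∀ n : ℕ,
        C * c ^ n ≤ (Module.finrank (ZMod p)
          (MonoidAlgebra (ZMod p) G ⧸
            ((Submodule.span (ZMod p)
                (Set.range (fun g : G => MonoidAlgebra.of (ZMod p) G g - 1))) ^ (n + 1) :
              Submodule (ZMod p) (MonoidAlgebra (ZMod p) G))) : ℝ)) →
      ¬ ∃ μ : Set G → ℝ, (∀ S, 0 ≤ μ S) ∧ μ Set.univ = 1 ∧
        (∀ A B : Set G, Disjoint A B → μ (A ∪ B) = μ A + μ B) ∧
        ∀ (g : G) (S : Set G), μ ((fun x => g * x) ⁻¹' S) = μ S) := by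
  intro H
  let G := Subgroup.closure ({a, u} : Set (Module.End (ZMod 2) V)ˣ)
  let x : G := ⟨a, Subgroup.subset_closure (by simp)⟩
  let y : G := ⟨u, Subgroup.subset_closure (by simp)⟩
  have hg : Subgroup.closure {x, y} = ⊤ := by
    convert Subgroup.closure_closure_coe_preimage (k := {a, u})
    ext g
    simp [x, y, Subtype.ext_iff]
  let ρ : G →* Module.End (ZMod 2) V := (Units.coeHom _).comp G.subtype
  refine H G ((Group.fg_iff).2 ⟨_, hg, Set.toFinite _⟩) 2 Nat.prime_two
    ⟨10 / 9, by norm_num, 1 / 2, by norm_num, fun n => ?_⟩ (mean x y hg fun L => ?_)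
  · have h1 := big (φ := MonoidAlgebra.lift (ZMod 2) _ G ρ) hg (MonoidAlgebra.lift_of _ _)
      (MonoidAlgebra.lift_of _ _) (n / 6) n (by omega)
    refine le_trans ?_ (Nat.cast_le.2 h1)
    have h2 : (10 / 9 : ℝ) ^ n ≤ 2 ^ (n / 6 + 1) :=
      (pow_le_pow_right₀ (by norm_num) (show n ≤ 6 * (n / 6 + 1) by omega)).trans
        (by rw [pow_mul]; gcongr; norm_num)
    push_cast
    linarith [pow_succ (2 : ℝ) (n / 6)]
  · let A := Algebra.adjoin (ZMod 2) (Set.range (Z L))
    have := fin L
    refine ⟨{ carrier := {g | ρ g ∈ A ∧ ρ g⁻¹ ∈ A}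
              one_mem' := by simp
              mul_mem' := fun h k => ⟨by simpa only [map_mul] using mul_mem h.1 k.1,
                by simpa only [mul_inv_rev, map_mul] using mul_mem k.2 h.2⟩
              inv_mem' := fun h => ⟨h.2, by simpa only [inv_inv] using h.1⟩ },
      .of_injective (β := A) (fun g => ⟨ρ g.1, g.2.1⟩) fun g k e =>
        Subtype.ext (Subtype.ext (Units.ext (congrArg Subtype.val e))), fun i hi => ?_⟩
    have e : ρ ((y ^ i)⁻¹ * x * y ^ i) = 1 + Y i := conj i
    have m : 1 + Y i ∈ A := add_mem (one_mem _) (Algebra.subset_adjoin ⟨⟨i, hi⟩, rfl⟩)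
    refine ⟨e ▸ m, ?_⟩
    rwa [← one_mul (ρ _), ← Y_sq i, mul_assoc, ← e, ← map_mul, mul_inv_cancel, map_one, mul_one, e]

end Pool.Agent.S02580
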