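import Pool.Statements.S02600
import Pool.Agent.H.MP_a761b9_al.B

set_option autoImplicit false
open Pool Pool.MP_a761b9_al

namespace Pool.Agent.S02600

theorem result :
    ¬ (∀ (X : Type) [Group X] [TopologicalSpace X] [IsTopologicalGroup X] [T2Space X],
      (∀ (Y : Type) [Group Y] [TopologicalSpace Y] [IsTopologicalGroup Y] [T2Space Y]
          (f : X →* Y), Continuous f → Function.Injective f → IsClosed (Set.range f)) →
      (∃ (K : Type) (_ : Group K) (_ : TopologicalSpace K) (_ : IsTopologicalGroup K)
          (_ : CompactSpace K) (_ : T2Space K) (f : X →* K),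
          Continuous f ∧ Function.Injective f) →
      CompactSpace X) := by
  intro h
  exact Pool.Agent.H.MP_a761b9_al.not_compact (h Pool.Agent.H.MP_a761b9_al.X1
    Pool.Agent.H.MP_a761b9_al.closedX1
    ⟨Pool.Agent.H.MP_a761b9_al.X0, inferInstance, inferInstance, inferInstance, inferInstance,
      inferInstance, Pool.Agent.H.MP_a761b9_al.id10, Pool.Agent.H.MP_a761b9_al.cont_id10,
      fun _ _ e => e⟩)

end Pool.Agent.S02600
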