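import Pool.Statements.S02607
import Pool.Agent.H.MP_a8364e_al.C

set_option autoImplicit false
open Pool Pool.MP_a8364e_al

namespace Pool.Agent.S02607

theorem result :
    ∃ (G : Type) (_ : Group G), Countable G ∧ Infinite G ∧
      (∀ s : Finset G, ((Subgroup.closure (s : Set G) : Subgroup G) : Set G).Finite) ∧
      Subgroup.center G = ⊥ ∧
      ∀ φ : MulAut G, ∃ g : G, φ = MulAut.conj g := by
  refine ⟨H.MP_a8364e_al.Aff H.MP_a8364e_al.Γ, inferInstance, ?_, ?_, H.MP_a8364e_al.loc_fin,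
    H.MP_a8364e_al.center_bot H.MP_a8364e_al.neg_mem_Γ,
    H.MP_a8364e_al.complete H.MP_a8364e_al.neg_mem_Γ H.MP_a8364e_al.H1 H.MP_a8364e_al.H2⟩
  · exact Function.Injective.countable (f := fun a => (a.v, a.g))
      fun a b h => H.MP_a8364e_al.Aff.ext (congrArg Prod.fst h) (congrArg Prod.snd h)
  · exact Infinite.of_injective (H.MP_a8364e_al.tl H.MP_a8364e_al.Γ)
      fun a b h => congrArg H.MP_a8364e_al.Aff.v h

end Pool.Agent.S02607
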