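import Pool.Statements.S02628
import Pool.Agent.H.MP_25c7a1_al.E

set_option autoImplicit false
open Pool Pool.MP_a9d502_al

namespace Pool.Agent.S02628

theorem result :
    ¬ (∃ F : (G : Type) → [Group G] → Prop,
    (∀ (G : Type) [Group G], F G → Finite G ∧ IsSolvable G) ∧
    F Unit ∧
    (∀ (G H : Type) [Group G] [Group H], (G ≃* H) → F G → F H) ∧
    (∀ (G : Type) [Group G] (N : Subgroup G), N.Normal → F G → F ↥N) ∧
    (∀ (G : Type) [Group G] [Finite G] (N M : Subgroup G),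
        N.Normal → M.Normal → F ↥N → F ↥M → F ↥(N ⊔ M)) ∧
    ¬ ((∀ (G : Type) [Group G] [Finite G] (N : Subgroup G) [N.Normal],
          F G → F (G ⧸ N)) ∧
       (∀ (G : Type) [Group G] [Finite G] (N M : Subgroup G) [N.Normal] [M.Normal],
          F (G ⧸ N) → F (G ⧸ M) → F (G ⧸ (N ⊓ M)))) ∧
    (∀ (G : Type) [Group G] [Finite G], IsSolvable G →
      ∀ A B : Subgroup G, (∀ g : G, ∃ a ∈ A, ∃ b ∈ B, g = a * b) →
        (sSup {N : Subgroup ↥A | N.Normal ∧ F ↥N}).map A.subtype ⊓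
          (sSup {N : Subgroup ↥B | N.Normal ∧ F ↥N}).map B.subtype ≤
          sSup {N : Subgroup G | N.Normal ∧ F ↥N})) := by
  rintro ⟨F, h0, u, h1, h2, h3, h4, h5⟩
  have f : Lib.Fitting.Fit F := ⟨fun G K _ _ ⟨e⟩ => h1 G K e, fun G _ _ => h2 G, h3⟩
  have t : ∀ (G : Type) [Group G], F G → sSup {N : Subgroup G | N.Normal ∧ F N} = ⊤ :=
    fun G _ h => top_unique (le_sSup ⟨inferInstance, f.top.2 h⟩)
  obtain ⟨a, b⟩ := H.MP_25c7a1_al.main F h0 f fun G _ _ s A B _ _ c fA fB e => by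
    have := h5 G s A B fun g => (e g).imp fun _ h => ⟨h.1, h.2.imp fun _ h => ⟨h.1, h.2.symm⟩⟩
    rw [t _ fA, t _ fB, ← MonoidHom.range_eq_map, ← MonoidHom.range_eq_map, Subgroup.range_subtype,
      Subgroup.range_subtype] at this
    obtain ⟨r1, r2⟩ := H.MP_36bee3_al.rad_spec (G := G) f u
    exact f.top.1 (top_unique (c (H.MP_36bee3_al.rad F G) Subgroup.le_normalizer_of_normal this) ▸ r2)
  refine h4 ⟨fun G _ _ => a G, fun G _ _ N M _ _ h h' => b _ (N.map (QuotientGroup.mk' _))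
    (M.map (QuotientGroup.mk' _)) ?_
    (h1 _ _ (QuotientGroup.quotientQuotientEquivQuotient _ _ inf_le_left).symm h)
    (h1 _ _ (QuotientGroup.quotientQuotientEquivQuotient _ _ inf_le_right).symm h')⟩
  refine eq_bot_iff.2 ?_
  rintro _ ⟨⟨x, hx, rfl⟩, y, hy, e⟩
  have := QuotientGroup.eq.1 e
  exact (QuotientGroup.eq_one_iff x).2 ⟨hx, (mul_mem_cancel_left (inv_mem hy)).1 this.2⟩

end Pool.Agent.S02628
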