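import Pool.Statements.S02634
-- import your own Pool.Agent.* helpers here

set_option autoImplicit false
open Pool Pool.MP_aa6e24_al

namespace Pool.Agent.S02634

open Equiv

abbrev A5 := alternatingGroup (Fin 5)
abbrev C2 := Multiplicative (ZMod 2)
abbrev GG := C2 × A5

def w0 : A5 := ⟨swap 0 1 * swap 2 3, by rw [Perm.mem_alternatingGroup]; decide⟩
def c0 : A5 := ⟨swap 0 1 * swap 1 2, by rw [Perm.mem_alternatingGroup]; decide⟩
def z0 : C2 := Multiplicative.ofAdd 1
def t0 : GG := (z0, w0)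

theorem c2sq (a : C2) : a * a = 1 := by
  revert a; decide

theorem cent_perm0 : ∀ w : Perm (Fin 5), (Perm.sign w = 1 ∧ w ≠ 1 ∧ w * w = 1) →
    ∀ g : Perm (Fin 5), (g * w = w * g ∧ Perm.sign g = 1) → g * g = 1 := by
  decide +kernel

theorem cent_perm (w g : Perm (Fin 5)) (h1 : Perm.sign w = 1) (h2 : Perm.sign g = 1) (h3 : w ≠ 1)
    (h4 : w * w = 1) (h5 : g * w = w * g) : g * g = 1 :=
  cent_perm0 w ⟨h1, h3, h4⟩ g ⟨h5, h2⟩

theorem last1 : (1 * t0 * 1⁻¹ * (((1, c0) : GG) * t0 * ((1, c0) : GG)⁻¹)) ^ 2 = 1 := by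
  refine Prod.ext ?_ ?_
  · rw [pow_two]; exact c2sq _
  · apply Subtype.ext; decide

theorem last2 : (1 * t0 * 1⁻¹ * (((1, c0) : GG) * t0 * ((1, c0) : GG)⁻¹)) ≠ 1 := by
  intro h
  have := congrArg Subtype.val (congrArg Prod.snd h)
  revert this; clear h; decide

theorem cent (w g : A5) (h1 : w ≠ 1) (h2 : w * w = 1) (h3 : g * w = w * g) : g * g = 1 := by
  apply Subtype.ext
  refine cent_perm w.1 g.1 (Perm.mem_alternatingGroup.1 w.2) (Perm.mem_alternatingGroup.1 g.2)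
    ?_ ?_ ?_
  · intro h; exact h1 (Subtype.ext h)
  · exact congrArg Subtype.val h2
  · exact congrArg Subtype.val h3

theorem w0_ne : w0 ≠ 1 := by
  intro h
  have := congrArg Subtype.val h
  revert this; decide

theorem w0_sq : w0 * w0 = 1 := by
  apply Subtype.ext; decide

theorem z0_ne : z0 ≠ 1 := by decide

theorem t0_sq : t0 * t0 = 1 := Prod.ext (c2sq _) w0_sq

theorem D_facts (d : GG) (h : (∃ x : GG, d = x * t0 * x⁻¹) ∨
    (∃ x y : GG, d = x * t0 * x⁻¹ * (y * t0 * y⁻¹) ∧ orderOf d = 2)) :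
    d.2 ≠ 1 ∧ d.2 * d.2 = 1 := by
  rcases h with ⟨x, rfl⟩ | ⟨x, y, h, ho⟩
  · constructor
    · intro h
      apply w0_ne
      have : x.2 * w0 * x.2⁻¹ = 1 := h
      simpa [mul_inv_eq_one, mul_eq_left] using this
    · show x.2 * w0 * x.2⁻¹ * (x.2 * w0 * x.2⁻¹) = 1
      have : x.2 * w0 * x.2⁻¹ * (x.2 * w0 * x.2⁻¹) = x.2 * (w0 * w0) * x.2⁻¹ := by group
      rw [this, w0_sq]; group
  · have h1 : d.1 = 1 := by
      rw [h]
      show x.1 * z0 * x.1⁻¹ * (y.1 * z0 * y.1⁻¹) = 1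
      rw [mul_inv_cancel_comm, mul_inv_cancel_comm, c2sq]
    constructor
    · intro h2
      have : d = 1 := Prod.ext h1 h2
      rw [this, orderOf_one] at ho
      omega
    · have := pow_orderOf_eq_one d
      rw [ho, pow_two] at this
      exact congrArg Prod.snd this

theorem miss (d : GG) (hd : d.2 ≠ 1) : ∃ P : Sylow 2 GG, d ∉ (P : Subgroup GG) := by
  by_contra hc
  push Not at hc
  haveI : Fact (Nat.Prime 2) := ⟨Nat.prime_two⟩
  let N : Subgroup GG := ⨅ P : Sylow 2 GG, (P : Subgroup GG)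
  have hN : N.Normal := by
    constructor
    intro n hn g
    rw [Subgroup.mem_iInf] at hn ⊢
    intro P
    have := hn (g⁻¹ • P)
    rw [Sylow.coe_subgroup_smul, Subgroup.mem_pointwise_smul_iff_inv_smul_mem] at this
    simpa using this
  obtain ⟨P0⟩ : Nonempty (Sylow 2 GG) := inferInstance
  have hp : IsPGroup 2 N := P0.isPGroup'.to_le (iInf_le _ P0)
  have hp2 : IsPGroup 2 (N.map (MonoidHom.snd C2 A5)) := hp.map _
  have hn2 : (N.map (MonoidHom.snd C2 A5)).Normal := hN.map _ Prod.snd_surjective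
  rcases hn2.eq_bot_or_eq_top with h | h
  · have : d.2 ∈ N.map (MonoidHom.snd C2 A5) := ⟨d, Subgroup.mem_iInf.2 hc, rfl⟩
    rw [h] at this
    exact hd this
  · have hc0 : c0 ∈ N.map (MonoidHom.snd C2 A5) := by rw [h]; trivial
    obtain ⟨k, hk⟩ := hp2 ⟨c0, hc0⟩
    have hk' : c0 ^ 2 ^ k = 1 := congrArg Subtype.val hk
    have h3 : c0 ^ 3 = 1 := by apply Subtype.ext; decide
    have hcop : Nat.Coprime (2 ^ k) 3 := Nat.Coprime.pow_left _ (by decide)
    have : c0 = 1 := by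
      have h4 := Nat.dvd_gcd (orderOf_dvd_of_pow_eq_one hk') (orderOf_dvd_of_pow_eq_one h3)
      rw [hcop] at h4
      exact orderOf_eq_one_iff.1 (Nat.dvd_one.1 h4)
    have := congrArg Subtype.val this
    revert this; decide

theorem result :
    ¬ (∀ (G : Type) [Group G] [Finite G] (t : G), orderOf t = 2 →
      (∀ d : G, ((∃ x : G, d = x * t * x⁻¹) ∨
          (∃ x y : G, d = x * t * x⁻¹ * (y * t * y⁻¹) ∧ orderOf d = 2)) →
        ∃ P : Sylow 2 G, d ∉ (P : Subgroup G)) →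
      (∀ d : G, ((∃ x : G, d = x * t * x⁻¹) ∨
          (∃ x y : G, d = x * t * x⁻¹ * (y * t * y⁻¹) ∧ orderOf d = 2)) →
        d * t = t * d →
        ∀ P : Sylow 2 (Subgroup.centralizer ({d} : Set G)),
          t ∈ (P : Subgroup (Subgroup.centralizer ({d} : Set G))).map
                (Subgroup.centralizer ({d} : Set G)).subtype) →
      ∀ x y : G, orderOf (x * t * x⁻¹ * (y * t * y⁻¹)) = 2 →
        ∃ z : G, x * t * x⁻¹ * (y * t * y⁻¹) = z * t * z⁻¹) := by
  intro H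
  haveI : Fact (Nat.Prime 2) := ⟨Nat.prime_two⟩
  have ht : orderOf t0 = 2 := by
    apply orderOf_eq_prime
    · rw [pow_two, t0_sq]
    · intro h; exact z0_ne (congrArg Prod.fst h)
  have key := H GG t0 ht (fun d hd => miss d (D_facts d hd).1) ?_ 1 (1, c0) ?_
  · obtain ⟨z, hz⟩ := key
    have h1 : (1 : C2) * z0 * 1⁻¹ * (1 * z0 * 1⁻¹) = z.1 * z0 * z.1⁻¹ := congrArg Prod.fst hz
    rw [mul_inv_cancel_comm, mul_inv_cancel_comm, c2sq] at h1
    exact z0_ne h1.symm
  · intro d hd hdt P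
    obtain ⟨h1, h2⟩ := D_facts d hd
    have hp : IsPGroup 2 (⊤ : Subgroup (Subgroup.centralizer ({d} : Set GG))) := by
      intro g
      refine ⟨1, ?_⟩
      apply Subtype.ext
      apply Subtype.ext
      have hg := g.1.2
      rw [Subgroup.mem_centralizer_singleton_iff] at hg
      show g.1.1 ^ 2 ^ 1 = 1
      rw [pow_one, pow_two]
      exact Prod.ext (c2sq _) (cent d.2 g.1.1.2 h1 h2 (congrArg Prod.snd hg))
    have hP := P.is_maximal' hp le_top
    refine ⟨⟨t0, ?_⟩, ?_, rfl⟩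
    · rw [Subgroup.mem_centralizer_singleton_iff]; exact hdt.symm
    · have : (P : Subgroup (Subgroup.centralizer ({d} : Set GG))) = ⊤ := hP.symm
      rw [this]; trivial
  · exact orderOf_eq_prime last1 last2

end Pool.Agent.S02634
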