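import Pool.Statements.S02647
-- import your own Pool.Agent.* helpers here

set_option autoImplicit false
open Pool Pool.MP_aaf344_al

namespace Pool.Agent.S02647

noncomputable section
open List

section sign
variable {α : Type} [LinearOrder α]

def cc (a b : α) : ℤ := if a < b then 1 else -1

def sg : List α → ℤ
  | [] => 1
  | a :: l => (l.map (cc a)).prod * sg l

theorem sg_ofFn : ∀ (n : ℕ) (f : Fin n → α),
    sg (ofFn f) = ∏ i, ∏ j ∈ Finset.Ioi i, cc (f i) (f j)
  | 0, f => by simp [sg]
  | n + 1, f => by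
    rw [ofFn_succ, sg, sg_ofFn n, Fin.prod_univ_succ, Fin.prod_Ioi_zero, map_ofFn, prod_ofFn]
    simp only [Fin.prod_Ioi_succ, Function.comp]

theorem sign_eq {n : ℕ} (σ : Equiv.Perm (Fin n)) :
    ((Equiv.Perm.sign σ : ℤˣ) : ℤ) = sg (ofFn σ) := by
  rw [sg_ofFn, Equiv.Perm.sign_eq_prod_prod_Ioi, Units.coe_prod]
  refine Finset.prod_congr rfl fun i _ => ?_
  rw [Units.coe_prod]
  refine Finset.prod_congr rfl fun j _ => ?_
  rw [cc]
  split_ifs <;> rfl

theorem sg_pre (u : List α) {l l' : List α} {e : ℤ} (h : l ~ l') (h' : sg l = e * sg l') :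
    sg (u ++ l) = e * sg (u ++ l') := by
  induction u with
  | nil => exact h'
  | cons a u ih =>
    rw [cons_append, cons_append, sg, sg, ih, ((h.append_left u).map _).prod_eq]
    ring

theorem sg_mv1 (a : α) (z : List α) : ∀ Y : List α, a ∉ Y →
    sg (a :: (Y ++ z)) = (-1) ^ Y.length * sg (Y ++ a :: z)
  | [], _ => by simp
  | b :: Y, h => by
    have hab : a ≠ b := fun e => h (e ▸ mem_cons_self)
    have h1 := sg_pre [b] perm_middle.symm (sg_mv1 a z Y fun e => h (mem_cons_of_mem _ e))
    have h2 : cc a b = -cc b a := by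
      unfold cc
      rcases lt_or_gt_of_ne hab with e | e
      · rw [if_pos e, if_neg e.not_gt, neg_neg]
      · rw [if_pos e, if_neg e.not_gt]
    simp only [singleton_append] at h1
    rw [length_cons, pow_succ, cons_append, cons_append, mul_assoc, mul_left_comm, ← h1]
    simp only [sg, map_cons, prod_cons, h2]
    ring

theorem sg_mv (Y z : List α) : ∀ X : List α, X.Disjoint Y →
    sg (X ++ (Y ++ z)) = (-1) ^ (X.length * Y.length) * sg (Y ++ (X ++ z))
  | [], _ => by simp
  | a :: X, h => by
    have h1 := sg_pre [a] (perm_append_comm_assoc X Y z)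
      (sg_mv Y z X fun _ e => h (mem_cons_of_mem _ e))
    simp only [singleton_append] at h1
    rw [cons_append, h1, sg_mv1 a _ Y (h mem_cons_self), length_cons, add_mul, pow_add, one_mul,
      mul_assoc, cons_append]

theorem sg_even {M M' : List (List α)} (h : M ~ M') (z : List α) : M.Pairwise List.Disjoint →
    M.Pairwise (fun P Q => Even (P.length * Q.length)) →
    sg (M.flatten ++ z) = sg (M'.flatten ++ z) := by
  induction h with
  | nil => intros; rfl
  | cons P h ih =>
    intro h1 h2
    have := sg_pre P (e := 1) (h.flatten.append_right z)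
      (by rw [one_mul]; exact ih h1.of_cons h2.of_cons)
    simpa using this
  | swap P Q M =>
    intro h1 h2
    have := sg_mv P (M.flatten ++ z) Q (rel_of_pairwise_cons h1 mem_cons_self)
    rw [(rel_of_pairwise_cons h2 mem_cons_self).neg_one_pow, one_mul] at this
    simpa using this
  | trans h h' ih ih' =>
    intro h1 h2
    rw [ih h1 h2, ih' ((h.pairwise_iff fun e => e.symm).mp h1)
      ((h.pairwise_iff fun e => by rwa [mul_comm]).mp h2)]

theorem sg_odd (X Y m z : List α) (h1 : X.Disjoint m) (h2 : X.Disjoint Y) (h3 : m.Disjoint Y)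
    (hX : Odd X.length) (hY : Odd Y.length) :
    sg (X ++ (m ++ (Y ++ z))) = -1 * sg (Y ++ (m ++ (X ++ z))) := by
  rw [sg_mv m _ X h1, sg_pre m (perm_append_comm_assoc X Y z) (sg_mv Y z X h2), sg_mv Y _ m h3,
    (hX.mul hY).neg_one_pow, pow_mul, hX.neg_one_pow, mul_comm m.length, pow_mul, hY.neg_one_pow]
  have : (-1 : ℤ) ^ m.length * (-1) ^ m.length = 1 := by rw [← mul_pow]; simp
  linear_combination (-sg (Y ++ (m ++ (X ++ z)))) * this

theorem sg_swap (X Y z : List α) (hX : Odd X.length) (hY : Odd Y.length)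
    (A B C : List (List α)) (hn : (A ++ X :: (B ++ Y :: C)).Nodup)
    (hd : (A ++ X :: (B ++ Y :: C)).Pairwise List.Disjoint) :
    sg ((A ++ X :: (B ++ Y :: C)).flatten ++ z) =
      -1 * sg (((A ++ X :: (B ++ Y :: C)).map (Equiv.swap X Y)).flatten ++ z) := by
  have fix : ∀ D : List (List α), X ∉ D → Y ∉ D → D.map (Equiv.swap X Y) = D := fun D a b =>
    (map_congr_left (g := id) fun P hP => Equiv.swap_apply_of_ne_of_ne
      (fun e : P = X => a (e ▸ hP)) (fun e : P = Y => b (e ▸ hP))).trans (map_id D)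
  simp only [nodup_append, nodup_cons, mem_append, mem_cons, not_or] at hn
  rw [map_append, map_cons, map_append, map_cons, Equiv.swap_apply_left, Equiv.swap_apply_right,
    fix A (fun h => hn.2.2 X h X (Or.inl rfl) rfl)
      (fun h => hn.2.2 Y h Y (Or.inr (Or.inr (Or.inl rfl))) rfl),
    fix B hn.2.1.1.1 (fun h => hn.2.1.2.2.2 Y h Y (Or.inl rfl) rfl),
    fix C hn.2.1.1.2.2 hn.2.1.2.2.1.1]
  simp only [pairwise_append, pairwise_cons, mem_append, mem_cons] at hd
  simp only [flatten_append, flatten_cons, append_assoc]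
  refine sg_pre _ ?_ (sg_odd X Y _ _ ?_ (hd.2.1.1 Y (Or.inr (Or.inl rfl))) ?_ hX hY)
  · exact (perm_append_comm_assoc X _ _).trans (((perm_append_comm_assoc X Y _).append_left _).trans
      (perm_append_comm_assoc _ Y _))
  · intro a ha hb
    obtain ⟨P, hP, hP'⟩ := mem_flatten.mp hb
    exact hd.2.1.1 P (Or.inl hP) ha hP'
  · intro a ha hb
    obtain ⟨P, hP, hP'⟩ := mem_flatten.mp ha
    exact hd.2.1.2.2.2 P hP Y (Or.inl rfl) hP' hb

theorem sum_dvd (u z : List α) (M : List (List α)) (hn : M.Nodup) (hd : M.Pairwise List.Disjoint) :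
    (M.length.factorial : ℤ) ∣ ∑ N ∈ M.permutations.toFinset, sg (u ++ (N.flatten ++ z)) := by
  by_cases h : M.Pairwise (fun P Q => Even (P.length * Q.length))
  · rw [Finset.sum_congr rfl (g := fun _ => sg (u ++ (M.flatten ++ z))), Finset.sum_const,
      toFinset_card_of_nodup (nodup_permutations M hn), length_permutations, nsmul_eq_mul]
    · exact dvd_mul_right _ _
    · intro N hN
      have hp := mem_permutations.mp (mem_toFinset.mp hN)
      simpa using sg_pre u (e := 1) (hp.flatten.append_right z)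
        (by rw [one_mul]; exact (sg_even hp.symm z hd h).symm)
  · obtain ⟨X, hX, Y, hY, hne, ho⟩ : ∃ X ∈ M, ∃ Y ∈ M, X ≠ Y ∧ Odd (X.length * Y.length) := by
      by_contra h'
      push Not at h'
      exact h (hn.pairwise_of_forall_ne fun a ha b hb e => Nat.not_odd_iff_even.mp (h' a ha b hb e))
    obtain ⟨oX, oY⟩ := Nat.odd_mul.mp ho
    have hperm : ∀ N, N ~ M → N.map (Equiv.swap X Y) ~ M := by
      intro N hN
      refine (perm_ext_iff_of_nodup ((hN.nodup_iff.mpr hn).map (Equiv.injective _)) hn).mpr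
        fun a => ?_
      rw [mem_map]
      have key : ∀ b ∈ M, Equiv.swap X Y b ∈ M := fun b hb => by
        rw [Equiv.swap_apply_def]
        split_ifs <;> assumption
      constructor
      · rintro ⟨b, hb, rfl⟩
        exact key b (hN.subset hb)
      · intro ha
        exact ⟨_, hN.symm.subset (key a ha), Equiv.swap_apply_self _ _ _⟩
    have hsg : ∀ N, N ~ M → sg (u ++ (N.flatten ++ z)) =
        -1 * sg (u ++ ((N.map (Equiv.swap X Y)).flatten ++ z)) := by
      intro N hN
      refine sg_pre u ((hN.trans (hperm N hN).symm).flatten.append_right z) ?_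
      have n1 := hN.nodup_iff.mpr hn
      have d1 := (hN.pairwise_iff fun e => e.symm).mpr hd
      obtain ⟨A, D, rfl⟩ := append_of_mem (hN.symm.subset hX)
      rcases mem_append.mp (hN.symm.subset hY) with e | e
      · obtain ⟨A', B, rfl⟩ := append_of_mem e
        rw [append_assoc, cons_append] at n1 d1 ⊢
        rw [Equiv.swap_comm]
        exact sg_swap Y X z oY oX A' B D n1 d1
      · obtain ⟨B, C, rfl⟩ := append_of_mem ((mem_cons.mp e).resolve_left hne.symm)
        exact sg_swap X Y z oX oY A B C n1 d1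
    rw [Finset.sum_involution (fun N _ => N.map (Equiv.swap X Y))]
    · exact dvd_zero _
    · intro N hN
      rw [hsg N (mem_permutations.mp (mem_toFinset.mp hN))]
      ring
    · intro N hN h0 e
      have := hsg N (mem_permutations.mp (mem_toFinset.mp hN))
      rw [e] at this
      exact h0 (by linarith)
    · intro N hN
      exact mem_toFinset.mpr (mem_permutations.mpr
        (hperm N (mem_permutations.mp (mem_toFinset.mp hN))))
    · intro N _
      simp [map_map, Function.comp_def]

end sign

section path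
variable {α G : Type} [AddCommGroup G] [DecidableEq G] (d : α → G) (v : G)

def vis0 : G → List α → Multiset G
  | _, [] => 0
  | a, x :: l => a ::ₘ vis0 (a + d x) l

def vis (a : G) (l : List α) : Multiset G := (a + (l.map d).sum) ::ₘ vis0 d a l

omit [DecidableEq G] in
theorem vis_cons (a : G) (x : α) (l : List α) : vis d a (x :: l) = a ::ₘ vis d (a + d x) l := by
  rw [vis, vis, vis0, map_cons, sum_cons, add_assoc, Multiset.cons_swap]

omit [DecidableEq G] in
theorem vis_append (r : List α) : ∀ (c : List α) (a : G),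
    vis d a (c ++ r) = vis0 d a c + vis d (a + (c.map d).sum) r
  | [], a => by simp [vis0]
  | x :: c, a => by
    rw [cons_append, vis_cons, vis_append r c, vis0, map_cons, sum_cons, add_assoc,
      Multiset.cons_add]

omit [DecidableEq G] in
theorem vis_card : ∀ (l : List α) (a : G), (vis d a l).card = l.length + 1
  | [], a => by simp [vis, vis0]
  | x :: l, a => by rw [vis_cons, Multiset.card_cons, vis_card l, length_cons]

inductive FR : G → List α → Prop
  | nil : FR v []
  | cons (a : G) (x : α) (l : List α) : a ≠ v → FR (a + d x) l → FR a (x :: l)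

omit [DecidableEq G] in
theorem FR.deg {a : G} {c : List α} (h : FR d v a c) : a + (c.map d).sum = v := by
  induction h with
  | nil => simp
  | cons a x l _ _ ih => rw [map_cons, sum_cons, ← add_assoc, ih]

def cut : G → List α → List α × List α
  | _, [] => ([], [])
  | a, x :: l => if a = v then ([], x :: l) else (x :: (cut (a + d x) l).1, (cut (a + d x) l).2)

theorem cut_app {a : G} {c : List α} (h : FR d v a c) (r : List α) :
    cut d v a (c ++ r) = (c, r) := by
  induction h with
  | nil => cases r <;> simp [cut]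
  | cons a x l ha _ ih => rw [cons_append, cut, if_neg ha, ih]

theorem cut_ex (n : ℕ) : ∀ (l : List α) (a : G), n < (vis d a l).count v →
    ∃ c r, FR d v a c ∧ l = c ++ r ∧ n < (vis d v r).count v
  | [], a, h => by
    have : a = v := by
      by_contra e
      simp [vis, vis0, Ne.symm e] at h
    subst this
    exact ⟨[], [], FR.nil, rfl, h⟩
  | x :: l, a, h => by
    by_cases e : a = v
    · subst e
      exact ⟨[], x :: l, FR.nil, rfl, h⟩
    · rw [vis_cons, Multiset.count_cons_of_ne (Ne.symm e)] at h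
      obtain ⟨c, r, h1, h2, h3⟩ := cut_ex n l _ h
      exact ⟨x :: c, r, FR.cons a x c e h1, by rw [h2, cons_append], h3⟩

def Lp (L : List α) : Prop := ∃ x c, L = x :: c ∧ FR d v (v + d x) c

def loops : ℕ → List α → List (List α) × List α
  | 0, l => ([], l)
  | _ + 1, [] => ([], [])
  | n + 1, x :: l => ((x :: (cut d v (v + d x) l).1) :: (loops n (cut d v (v + d x) l).2).1,
      (loops n (cut d v (v + d x) l).2).2)

theorem loops_app (z : List α) : ∀ M : List (List α), (∀ L ∈ M, Lp d v L) →
    loops d v M.length (M.flatten ++ z) = (M, z)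
  | [], _ => rfl
  | L :: M, h => by
    obtain ⟨x, c, rfl, hc⟩ := h L mem_cons_self
    rw [length_cons, flatten_cons, append_assoc, cons_append, loops, cut_app d v hc,
      loops_app z M fun L hL => h L (mem_cons_of_mem _ hL)]

theorem loops_ex : ∀ (n : ℕ) (l : List α), n < (vis d v l).count v →
    ∃ (M : List (List α)) (z : List α), (∀ L ∈ M, Lp d v L) ∧ M.length = n ∧ l = M.flatten ++ z
  | 0, l, _ => ⟨[], l, by simp, rfl, rfl⟩
  | n + 1, [], h => by simp [vis, vis0] at h
  | n + 1, x :: l, h => by
    rw [vis_cons, Multiset.count_cons_self] at h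
    obtain ⟨c, r, h1, h2, h3⟩ := cut_ex d v n l _ (Nat.lt_of_succ_lt_succ h)
    obtain ⟨M, z, h4, h5, h6⟩ := loops_ex n r h3
    refine ⟨(x :: c) :: M, z, ?_, by rw [length_cons, h5], by rw [h2, h6]; simp⟩
    intro L hL
    rcases mem_cons.mp hL with rfl | hL
    · exact ⟨x, c, rfl, h1⟩
    · exact h4 L hL

omit [DecidableEq G] in
theorem Lp.deg {L : List α} (h : Lp d v L) : (L.map d).sum = 0 := by
  obtain ⟨x, c, rfl, hc⟩ := h
  have := hc.deg
  rw [add_assoc, add_eq_left] at this
  rwa [map_cons, sum_cons]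

omit [DecidableEq G] in
theorem vis_loops (z : List α) : ∀ M : List (List α), (∀ L ∈ M, Lp d v L) →
    vis d v (M.flatten ++ z) = (M.map (vis0 d v)).sum + vis d v z
  | [], _ => by simp
  | L :: M, h => by
    rw [flatten_cons, append_assoc, vis_append, (h L mem_cons_self).deg, add_zero,
      vis_loops z M fun L hL => h L (mem_cons_of_mem _ hL), map_cons, sum_cons, add_assoc]

def pick (p : ℕ) (μ : Multiset G) : G := Classical.epsilon fun v => p < μ.count v

def key (p : ℕ) (l : List α) : Multiset G × List α × Multiset (List α) × List α :=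
  (vis d 0 l, (cut d (pick p (vis d 0 l)) 0 l).1,
    ((loops d (pick p (vis d 0 l)) p (cut d (pick p (vis d 0 l)) 0 l).2).1 : Multiset (List α)),
    (loops d (pick p (vis d 0 l)) p (cut d (pick p (vis d 0 l)) 0 l).2).2)

theorem key_eq (u z : List α) (M : List (List α)) (hu : FR d v 0 u) (hM : ∀ L ∈ M, Lp d v L)
    (hv : pick M.length (vis d 0 (u ++ (M.flatten ++ z))) = v) :
    key d M.length (u ++ (M.flatten ++ z)) = (vis d 0 (u ++ (M.flatten ++ z)), u, ↑M, z) := by
  rw [key, hv, cut_app d v hu, loops_app d v z M hM]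

theorem decomp [Fintype G] (p : ℕ) (l : List α) (hl : l.length = Fintype.card G * p) :
    ∃ (u z : List α) (M : List (List α)), FR d (pick p (vis d 0 l)) 0 u ∧
      (∀ L ∈ M, Lp d (pick p (vis d 0 l)) L) ∧ M.length = p ∧ l = u ++ (M.flatten ++ z) := by
  have h : ∃ v, p < (vis d 0 l).count v := by
    by_contra h
    push Not at h
    have h1 := Finset.sum_le_sum fun v (_ : v ∈ Finset.univ) => h v
    rw [Multiset.sum_count_eq_card (by simp), vis_card, hl] at h1
    simp at h1
  obtain ⟨c, r, h1, h2, h3⟩ := cut_ex d _ p l 0 (Classical.epsilon_spec h)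
  obtain ⟨M, z, h4, h5, h6⟩ := loops_ex d _ p r h3
  exact ⟨c, z, M, h1, h4, h5, by rw [← h6, ← h2]⟩

end path

theorem homog {F : Type} [Field F] (p : ℕ) (hp : 0 < p) [CharP F p]
    {G : Type} [AddCommGroup G] [Fintype G] [DecidableEq G]
    {A : Type} [Ring A] [Algebra F A] (𝒜 : G → Submodule F A) [GradedAlgebra 𝒜]
    (hc : ∀ a ∈ 𝒜 0, ∀ b ∈ 𝒜 0, a * b = b * a) {α : Type} [LinearOrder α]
    (l0 : List α) (hn : l0.Nodup) (hl : l0.length = Fintype.card G * p)
    (d : α → G) (x : α → A) (hx : ∀ i, x i ∈ 𝒜 (d i)) :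
    ∑ l ∈ l0.permutations.toFinset, sg l • (l.map x).prod = 0 := by
  classical
  rw [← Finset.sum_fiberwise_of_maps_to (g := key d p)
    (t := l0.permutations.toFinset.image (key d p)) fun l hl => Finset.mem_image_of_mem _ hl]
  refine Finset.sum_eq_zero fun k hk => ?_
  obtain ⟨l, hl1, rfl⟩ := Finset.mem_image.mp hk
  have hl2 := mem_permutations.mp (mem_toFinset.mp hl1)
  obtain ⟨u, z, M, h1, h2, h3, h4⟩ := decomp d p l (hl2.length_eq.trans hl)
  set v := pick p (vis d 0 l) with hv
  have hLp : ∀ N, N ~ M → ∀ L ∈ N, Lp d v L := fun N hN L hL => h2 L (hN.subset hL)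
  have hvis : ∀ N, N ~ M → vis d 0 (u ++ (N.flatten ++ z)) = vis d 0 l := by
    intro N hN
    rw [h4, vis_append, vis_append d _ u, h1.deg, vis_loops d v z N (hLp N hN),
      vis_loops d v z M h2, (hN.map _).sum_eq]
  have hkey : ∀ N, N ~ M → key d p (u ++ (N.flatten ++ z)) = (vis d 0 l, u, ↑M, z) := by
    intro N hN
    have := key_eq d v u z N h1 (hLp N hN) (by rw [hvis N hN, hN.length_eq, h3])
    rwa [hvis N hN, hN.length_eq, h3, Multiset.coe_eq_coe.mpr hN] at this
  have hk0 : key d p l = (vis d 0 l, u, ↑M, z) := by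
    have := hkey M (Perm.refl M)
    rwa [← h4] at this
  have hfib : (l0.permutations.toFinset.filter fun l' => key d p l' = key d p l) =
      M.permutations.toFinset.image fun N => u ++ (N.flatten ++ z) := by
    ext l'
    simp only [Finset.mem_filter, Finset.mem_image, mem_toFinset, mem_permutations]
    constructor
    · rintro ⟨e1, e2⟩
      obtain ⟨u', z', M', g1, g2, g3, g4⟩ := decomp d p l' (e1.length_eq.trans hl)
      have := key_eq d _ u' z' M' g1 g2 (by rw [← g4, g3])
      rw [← g4, g3, e2, hk0] at this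
      simp only [Prod.mk.injEq, Multiset.coe_eq_coe] at this
      exact ⟨M', this.2.2.1.symm, by rw [g4, this.2.1, this.2.2.2]⟩
    · rintro ⟨N, hN, rfl⟩
      refine ⟨Perm.trans ?_ hl2, by rw [hkey N hN, hk0]⟩
      rw [h4]
      exact (hN.flatten.append_right z).append_left u
  have hnd : M.flatten.Nodup := by
    have := hl2.nodup_iff.mpr hn
    rw [h4] at this
    exact this.of_append_right.of_append_left
  have hd := (nodup_flatten.mp hnd).2
  have hMn : M.Nodup := hd.imp_of_mem fun {a b} ha _ e e' => by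
    obtain ⟨y, c, rfl, -⟩ := h2 a ha
    exact e mem_cons_self (e' ▸ mem_cons_self)
  have hprod : ∀ N, N ~ M → ((u ++ (N.flatten ++ z)).map x).prod = (l.map x).prod := by
    intro N hN
    rw [h4]
    simp only [map_append, prod_append, map_flatten, prod_flatten, map_map]
    congr 2
    refine (hN.map _).prod_eq' (pairwise_map.mpr (pairwise_of_forall_mem_list fun a ha b hb => ?_))
    have k : ∀ L ∈ N, (L.map x).prod ∈ 𝒜 0 := fun L hL =>
      (hLp N hN L hL).deg ▸ SetLike.list_prod_map_mem_graded L d x fun j _ => hx j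
    exact hc _ (k a ha) _ (k b hb)
  rw [hfib, Finset.sum_image, Finset.sum_congr rfl
    (g := fun N => sg (u ++ (N.flatten ++ z)) • (l.map x).prod), ← Finset.sum_smul]
  · obtain ⟨m, hm⟩ := (Int.natCast_dvd_natCast.mpr (Nat.dvd_factorial hp h3.ge)).trans
      (sum_dvd u z M hMn hd)
    rw [hm, mul_smul, natCast_zsmul, ← Nat.cast_smul_eq_nsmul F, CharP.cast_eq_zero, zero_smul]
  · intro N hN
    rw [hprod N (mem_permutations.mp (mem_toFinset.mp hN))]
  · intro N hN N' hN' e
    have a1 := mem_permutations.mp (mem_toFinset.mp hN)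
    have a2 := mem_permutations.mp (mem_toFinset.mp hN')
    have b1 := loops_app d v z N (hLp N a1)
    have b2 := loops_app d v z N' (hLp N' a2)
    rw [append_cancel_left e, a1.length_eq, ← a2.length_eq, b2] at b1
    exact (Prod.mk.inj b1).1.symm

theorem sum_perm {n : ℕ} {A : Type} [AddCommMonoid A] (f : List (Fin n) → A) :
    ∑ σ : Equiv.Perm (Fin n), f (ofFn σ) = ∑ l ∈ (finRange n).permutations.toFinset, f l := by
  refine Finset.sum_bij (fun σ _ => ofFn σ) ?_ ?_ ?_ fun _ _ => rfl
  · intro σ _
    rw [mem_toFinset, mem_permutations, ofFn_eq_map]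
    exact σ.map_finRange_perm
  · intro σ _ τ _ h
    exact Equiv.ext (congrFun (ofFn_injective h))
  · intro l hl
    rw [mem_toFinset, mem_permutations] at hl
    have h1 : n = l.length := by simpa using hl.length_eq.symm
    have h2 : Function.Injective fun i : Fin n => l.get (i.cast h1) :=
      (nodup_iff_injective_get.mp (hl.nodup_iff.mpr (nodup_finRange n))).comp
        (Fin.cast_injective h1)
    refine ⟨Equiv.ofBijective _ (Finite.injective_iff_bijective.mp h2), Finset.mem_univ _, ?_⟩
    refine ext_get (by simp [h1.symm]) fun i _ _ => ?_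
    simp

end

theorem result :
    ∀ (F : Type) [Field F] (p : ℕ), 0 < p → CharP F p →
    ∀ (G : Type) [AddCommGroup G] [Fintype G] [DecidableEq G]
      (A : Type) [Ring A] [Algebra F A] (𝒜 : G → Submodule F A) [GradedAlgebra 𝒜],
      (∀ a ∈ 𝒜 0, ∀ b ∈ 𝒜 0, a * b = b * a) →
      ∀ x : Fin (Fintype.card G * p) → A,
        ∑ σ : Equiv.Perm (Fin (Fintype.card G * p)),
          ((Equiv.Perm.sign σ : ℤˣ) : ℤ) • (List.ofFn (fun i => x (σ i))).prod = 0 := by
  intro F _ p hp _ G _ _ _ A _ _ 𝒜 _ hc x
  classical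
  let S : MultilinearMap F (fun _ : Fin (Fintype.card G * p) => A) A :=
    ∑ σ : Equiv.Perm (Fin (Fintype.card G * p)), ((Equiv.Perm.sign σ : ℤˣ) : ℤ) •
      (MultilinearMap.mkPiAlgebraFin F _ A).domDomCongr σ
  have hS : ∀ y, S y = ∑ σ : Equiv.Perm (Fin (Fintype.card G * p)),
      ((Equiv.Perm.sign σ : ℤˣ) : ℤ) • (List.ofFn (fun i => y (σ i))).prod := fun y => by
    simp [S]
  have hx : x = fun i => ∑ g : G, (DirectSum.decompose 𝒜 (x i) g : A) := by
    funext i
    rw [← DirectSum.sum_support_decompose 𝒜 (x i)]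
    refine Finset.sum_subset (Finset.subset_univ _) (fun g _ hg => ?_) |>.trans ?_
    · rw [DFinsupp.notMem_support_iff.mp hg]; rfl
    · rw [DirectSum.sum_support_decompose]
  rw [← hS, hx, S.map_sum]
  refine Finset.sum_eq_zero fun r _ => ?_
  rw [hS, ← homog p hp 𝒜 hc (List.finRange _) (List.nodup_finRange _) List.length_finRange r
    (fun i => (DirectSum.decompose 𝒜 (x i) (r i) : A)) (fun i => SetLike.coe_mem _), ← sum_perm]
  refine Finset.sum_congr rfl fun σ _ => ?_
  rw [sign_eq, List.map_ofFn]
  rfl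

end Pool.Agent.S02647
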