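import Pool.Statements.S02653
import Pool.Agent.H.MP_ab6a8b_al.B

set_option autoImplicit false
open Pointwise
open Pool Pool.MP_ab6a8b_al

namespace Pool.Agent.S02653

open Pool.Agent.H.MP_ab6a8b_al Pool.Agent.Lib.Munn Pool.Agent.Lib.Benois FreeGroup

theorem first {Z : Type} {z : Z} (l : List (List (Z × Bool))) (h : T l.flatten ⊆ T [(z, true)]) (k : mk l.flatten ≠ 1) :
    ∃ w ∈ l, mu w = mu [(z, true)] := by
  induction l with
  | nil => exact (k rfl).elim
  | cons w l ih =>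
    rw [List.flatten_cons] at h k
    by_cases e : mk w = 1
    · obtain ⟨v, a, b⟩ := ih (.trans (by simp [T_app, e]) h) (by simpa [← mul_mk, e] using k)
      exact ⟨v, .tail _ a, b⟩
    · have a := (T_left ..).trans h
      have b : mk w = _ := (T_one _ ▸ a (mk_T w) : _ ∨ _).resolve_left e
      exact ⟨w, .head _, Prod.ext (a.antisymm (T_one _ ▸ Set.pair_subset (one_T w) (b ▸ mk_T w))) b⟩

theorem key (gens : List (List (ℕ × Bool))) (hg : ∀ w ∈ gens, w ≠ []) :
    (∃ B ∈ subs (gens ++ gens.map invRev), (∀ a ∈ gens, Gen B (mu a)) ∧ Crit (Subtype.val : {b // b ∈ B} → _)) ↔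
    ∃ (Z : Type) (φ : Set (FreeGroup Z) × FreeGroup Z → Set (FreeGroup ℕ) × FreeGroup ℕ),
      Set.InjOn φ {p | ∃ w, w ≠ [] ∧ p = mu w} ∧ φ '' {p | ∃ w, w ≠ [] ∧ p = mu w} = {q | Gen gens q} ∧
      ∀ x ∈ {p | ∃ w, w ≠ [] ∧ p = mu w}, ∀ y ∈ {p | ∃ w, w ≠ [] ∧ p = mu w},
        φ (x.1 ∪ x.2 • y.1, x.2 * y.2) = ((φ x).1 ∪ (φ x).2 • (φ y).1, (φ x).2 * (φ y).2) := by
  classical
  have g1 : ∀ B : List _, B ⊆ gens ++ gens.map invRev → ∀ a ∈ B, Gen gens (mu a) := fun B h a k =>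
    ⟨[a], by simp, by simpa using h k, by simp⟩
  refine ⟨fun ⟨B, b1, b2, b3⟩ => ?_, fun ⟨Z, φ, h1, h2, h3⟩ => ?_⟩
  · let φ : _ × FreeGroup {b // b ∈ B} → _ := fun p => if h : ∃ w, p = mu w then mu (hat Subtype.val h.choose) else (∅, 1)
    have e : ∀ w, φ (mu w) = mu (hat Subtype.val w) := fun w =>
      (dif_pos ⟨w, rfl⟩).trans (mu_hat (Exists.choose_spec (⟨w, rfl⟩ : ∃ v, mu w = mu v)).symm)
    refine ⟨_, φ, ?_, Set.ext fun q => ?_, ?_⟩
    · rintro _ ⟨u, -, rfl⟩ _ ⟨v, -, rfl⟩ h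
      exact b3.inj (by rwa [e, e] at h)
    · refine Iff.trans ?_ ⟨Gen.trans (g1 B (subs_sub b1)), Gen.trans b2⟩
      rw [gen_hat (β := (Subtype.val : {b // b ∈ B} → _)) (by simp)]
      exact ⟨by rintro ⟨_, ⟨w, a, rfl⟩, rfl⟩; exact ⟨w, a, (e w).symm⟩, fun ⟨w, a, b⟩ => ⟨_, ⟨w, a, rfl⟩, (e w).trans b⟩⟩
    · rintro _ ⟨u, -, rfl⟩ _ ⟨v, -, rfl⟩
      rw [← mu_mul, e, e, e, ← mu_mul, hat_app]
  · have m : ∀ u v a b, u ≠ [] → v ≠ [] → φ (mu u) = mu a → φ (mu v) = mu b → φ (mu (u ++ v)) = mu (a ++ b) := fun u v a b i j k l => by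
      rw [mu_mul, h3 _ ⟨u, i, rfl⟩ _ ⟨v, j, rfl⟩, k, l, mu_mul]
    have s1 : ∀ u, u ≠ [] → Gen gens (φ (mu u)) := fun u i => h2.le ⟨_, ⟨u, i, rfl⟩, rfl⟩
    have s2 : ∀ q, Gen gens q → ∃ u, u ≠ [] ∧ φ (mu u) = q := fun q k => by
      obtain ⟨_, ⟨u, i, rfl⟩, e⟩ := h2.ge k
      exact ⟨u, i, e⟩
    have : ∀ z, ∃ a ∈ gens ++ gens.map invRev, φ (mu [(z, true)]) = mu a := fun z => by
      obtain ⟨l, a, b, c⟩ := s1 [(z, true)] (by simp)
      have : ∃ W : List (List (Z × Bool)), W.flatten ≠ [] ∧ φ (mu W.flatten) = mu l.flatten ∧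
          ∀ w ∈ W, ∃ a ∈ gens ++ gens.map invRev, φ (mu w) = mu a := by
        clear c
        induction l with
        | nil => exact (a rfl).elim
        | cons x l ih =>
          obtain ⟨u, i, e⟩ := s2 _ (g1 _ (List.Subset.refl _) x (b x (.head _)))
          obtain rfl | k := eq_or_ne l []
          · exact ⟨[u], by simpa, by simpa, by simpa using ⟨x, by simpa using b x (.head _), e⟩⟩
          · obtain ⟨W, w1, w2, w3⟩ := ih k fun y k => b y (.tail _ k)
            exact ⟨u :: W, by simp [i], m _ _ _ _ i w1 e w2, List.forall_mem_cons.2 ⟨⟨x, b x (.head _), e⟩, w3⟩⟩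
      obtain ⟨W, w1, w2, w3⟩ := this
      have e := h1 ⟨_, w1, rfl⟩ ⟨[(z, true)], by simp, rfl⟩ (w2.trans c)
      obtain ⟨w, i, j⟩ := first W (congrArg Prod.fst e).le fun k => by
        simpa using red_eq .singleton .nil ((congrArg Prod.snd e).symm.trans k)
      exact j ▸ w3 w i
    choose β b1 b2 using this
    have iv : ∀ u a, u ≠ [] → φ (mu u) = mu a → φ (mu (invRev u)) = mu (invRev a) := fun u a i e => by
      have j : invRev u ≠ [] := by simpa [invRev]
      obtain ⟨l, -, -, f⟩ := s1 _ j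
      generalize l.flatten = b at f
      have e1 : mu (a ++ b ++ a) = mu a := by
        rw [← m _ _ _ _ (by simp [i]) i (m _ _ _ _ i j e f.symm) e, ← e]
        simp [mu, T_app, T_inv, ← inv_mk, ← mul_mk]
      have e2 : mu (b ++ a ++ b) = mu b := by
        rw [← m _ _ _ _ (by simp [i]) j (m _ _ _ _ j i f.symm e) f.symm, f]
        simp [mu, T_app, T_inv, ← inv_mk, ← mul_mk]
      simp only [mu, T_app, ← mul_mk, Prod.mk.injEq, mul_eq_right] at e1 e2
      have := eq_inv_of_mul_eq_one_right e1.2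
      rw [← f, mu_neg]
      refine Prod.ext (Set.Subset.antisymm ?_ ?_) this
      · exact Set.subset_smul_set_iff.2 (by simpa [mu] using (Set.subset_union_right.trans Set.subset_union_left).trans e1.1.le)
      · exact this ▸ (Set.subset_union_right.trans Set.subset_union_left).trans e2.1.le
    have ph : ∀ w, w ≠ [] → φ (mu w) = mu (hat β w) := fun w i => by
      have : ∀ l, φ (mu [l]) = mu (hat β [l]) := by
        rintro ⟨z, _ | _⟩
        exacts [by simpa [hat] using show φ (mu [(z, false)]) = _ from iv [(z, true)] _ (by simp) (b2 z), by simpa [hat] using b2 z]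
      induction w with
      | nil => exact (i rfl).elim
      | cons l w ih =>
        obtain rfl | k := eq_or_ne w []
        exacts [this l, hat_cons l w ▸ m [l] w _ _ (by simp) k (this l) (ih k)]
    let B := (gens ++ gens.map invRev).filter fun a => ∃ z, β z = a
    have hB : ∀ a, a ∈ B ↔ ∃ z, β z = a := fun a => by
      rw [List.mem_filter, decide_eq_true_iff, and_iff_right_iff_imp]
      rintro ⟨z, rfl⟩
      exact b1 z
    refine ⟨B, filter_subs _ _, fun a k => (gen_hat hB).2 ((s2 _ (g1 _ (List.subset_append_left ..) a k)).imp fun w => fun ⟨i, j⟩ => ⟨i, ph w i ▸ j⟩),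
      crit (fun ⟨b, k⟩ => ?_) fun u v i j e => ?_⟩
    · obtain k | k := List.mem_append.1 (List.mem_filter.1 k).1
      · exact hg b k
      · obtain ⟨b, l, rfl⟩ := List.mem_map.1 k
        simpa [invRev] using hg b l
    choose γ hγ using fun b : {b // b ∈ B} => (hB b.1).1 b.2
    let ε : Z → List ({b // b ∈ B} × Bool) := fun z => [(⟨β z, (hB _).2 ⟨z, rfl⟩⟩, true)]
    have c : ∀ u : List ({b // b ∈ B} × Bool), hat ε (u.map (Prod.map γ id)) = u ∧ hat β (u.map (Prod.map γ id)) = hat Subtype.val u := fun u => by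
      induction u with
      | nil => exact ⟨rfl, rfl⟩
      | cons l u ih =>
        rw [List.map_cons, hat_cons, hat_cons (β := β), ih.1, ih.2, hat_cons l u]
        obtain ⟨b, _ | _⟩ := l <;> simp [hat, ε, hγ, invRev]
    rw [← (c u).1, ← (c v).1]
    refine mu_hat (h1 ⟨_, by simpa, rfl⟩ ⟨_, by simpa, rfl⟩ ?_)
    rw [ph _ (by simpa), ph _ (by simpa), (c u).2, (c v).2, e]

theorem result :
    ComputablePred (fun gens : List (List (ℕ × Bool)) =>
      (∀ w ∈ gens, w ≠ []) ∧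
      ∃ (Z : Type) (φ : Set (FreeGroup Z) × FreeGroup Z → Set (FreeGroup ℕ) × FreeGroup ℕ),
        Set.InjOn φ
          {p | ∃ w : List (Z × Bool), w ≠ [] ∧
            p = (Set.range (fun i : ℕ => FreeGroup.mk (w.take i)), FreeGroup.mk w)} ∧
        φ '' {p | ∃ w : List (Z × Bool), w ≠ [] ∧
            p = (Set.range (fun i : ℕ => FreeGroup.mk (w.take i)), FreeGroup.mk w)} =
          {q | ∀ T : Set (Set (FreeGroup ℕ) × FreeGroup ℕ),
            (∀ w ∈ gens, (Set.range (fun i : ℕ => FreeGroup.mk (w.take i)), FreeGroup.mk w) ∈ T) →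
            (∀ x ∈ T, ∀ y ∈ T, (x.1 ∪ x.2 • y.1, x.2 * y.2) ∈ T) →
            (∀ x ∈ T, (x.2⁻¹ • x.1, x.2⁻¹) ∈ T) → q ∈ T} ∧
        ∀ x ∈ {p : Set (FreeGroup Z) × FreeGroup Z | ∃ w : List (Z × Bool), w ≠ [] ∧
            p = (Set.range (fun i : ℕ => FreeGroup.mk (w.take i)), FreeGroup.mk w)},
        ∀ y ∈ {p : Set (FreeGroup Z) × FreeGroup Z | ∃ w : List (Z × Bool), w ≠ [] ∧
            p = (Set.range (fun i : ℕ => FreeGroup.mk (w.take i)), FreeGroup.mk w)},
          φ (x.1 ∪ x.2 • y.1, x.2 * y.2) =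
            ((φ x).1 ∪ (φ x).2 • (φ y).1, (φ x).2 * (φ y).2)) := by
  classical
  refine (((pp_all .id (Primrec.eq.comp .snd (.const [])).not).and (pp_ex (R := fun gens B => (∀ a ∈ gens, Gen B (mu a)) ∧
    Crit (Subtype.val : {b // b ∈ B} → _)) (pr_subs.comp (Primrec.list_append.comp .id (Primrec.list_map .id (pr_inv.comp .snd).to₂)))
    ((pp_all .fst (pp_gen.comp (Primrec.snd.comp .fst) .snd)).and (pp_crit.comp .snd)))).of_eq fun gens =>
      and_congr_right fun h => (key gens h).trans ?_).computablePred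
  simp only [gen_iff]
  rfl

end Pool.Agent.S02653
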