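import Pool.Statements.S02657
import Pool.Agent.H.MP_ab86ea_al.E

set_option autoImplicit false
open Pool Pool.MP_ab86ea_al

namespace Pool.Agent.S02657

theorem result :
    ∀ (G : Type) [Group G],
      (∃ s : G → G → Prop,
        (∀ a b, s a b → s b a → a = b) ∧
        (∀ a b c, s a b → s b c → s a c) ∧
        (∀ a b, s a b ∨ s b a) ∧
        (∀ a b c d, s a b → s (c * a * d) (c * b * d))) →
      ∃ (H : Type) (_ : Group H) (f : G →* H), Function.Injective f ∧
        ∀ r : H → H → Prop,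
          (∀ a, r a a) →
          (∀ a b, r a b → r b a → a = b) →
          (∀ a b c, r a b → r b c → r a c) →
          (∀ a b c d, r a b → r (c * a * d) (c * b * d)) →
          ∃ s : H → H → Prop,
            (∀ a b, r a b → s a b) ∧
            (∀ a b, s a b → s b a → a = b) ∧
            (∀ a b c, s a b → s b c → s a c) ∧
            (∀ a b, s a b ∨ s b a) ∧
            (∀ a b c d, s a b → s (c * a * d) (c * b * d)) := by
  rintro G _ ⟨s, s1, s2, s3, s4⟩
  have cone : ∀ {H : Type} [Group H] (r : H → H → Prop), (∀ a b, r a b → r b a → a = b) →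
      (∀ a b c, r a b → r b c → r a c) → (∀ a b c d, r a b → r (c * a * d) (c * b * d)) →
      Pool.Agent.H.MP_23b8d1_al.NS Set.univ {x | r 1 x ∧ x ≠ 1} := by
    intro H _ r r1 r2 r3
    refine ⟨?_, ?_⟩
    · rintro a ⟨a1, a2⟩ b ⟨b1, b2⟩
      have k : r a (a * b) := by simpa using r3 _ _ a 1 b1
      refine ⟨r2 _ _ _ a1 k, fun e1 => a2 ?_⟩
      rw [e1] at k
      exact r1 _ _ k a1
    · rintro x _ a ⟨a1, a2⟩
      exact ⟨by simpa using r3 _ _ x x⁻¹ a1, by simpa using a2⟩
  obtain ⟨H, _, f, hf, h⟩ := Pool.Agent.H.MP_ab86ea_al.embed G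
    ⟨_, cone s s1 s2 s4, fun k => k.2 rfl, fun g hg => by
      rcases s3 1 g with k | k
      · exact Or.inl ⟨k, hg⟩
      · exact Or.inr ⟨by simpa using s4 _ _ g⁻¹ 1 k, by simpa using hg⟩⟩
  refine ⟨H, inferInstance, f, hf, fun r _ r1 r2 r3 => ?_⟩
  obtain ⟨P, hP, h1, h0, ht⟩ := h _ (cone r r1 r2 r3) fun k => k.2 rfl
  refine ⟨fun x y => x = y ∨ x⁻¹ * y ∈ P, fun x y k => ?_, ?_, ?_, fun x y => ?_, ?_⟩
  · by_cases k' : x = y
    · exact Or.inl k'
    · exact Or.inr (h0 ⟨by simpa using r3 _ _ x⁻¹ 1 k, by simpa [inv_mul_eq_one] using k'⟩)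
  · rintro x y (k | k) (k' | k')
    · exact k
    · exact k
    · exact k'.symm
    · exact absurd (by simpa using hP.mul _ k _ k') h1
  · rintro x y z (rfl | k) (rfl | k')
    · exact Or.inl rfl
    · exact Or.inr k'
    · exact Or.inr k
    · exact Or.inr (by simpa [mul_assoc] using hP.mul _ k _ k')
  · by_cases k : x = y
    · exact Or.inl (Or.inl k)
    · rcases ht (x⁻¹ * y) (by simpa [inv_mul_eq_one] using k) with k' | k'
      · exact Or.inl (Or.inr k')
      · exact Or.inr (Or.inr (by simpa using k'))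
  · rintro a b c d (rfl | k)
    · exact Or.inl rfl
    · exact Or.inr (by simpa [mul_assoc] using hP.cj d⁻¹ trivial _ k)

end Pool.Agent.S02657
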