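import Pool.Statements.S02663
import Pool.Agent.H.MP_aba4aa_al.D

set_option autoImplicit false
open Pool Pool.MP_aba4aa_al

namespace Pool.Agent.S02663

theorem result :
    ∀ k : ℕ, 0 < k → Even k →
      ∃ (G : Type) (_ : Group G),
        Set.ncard {r : G → G → Prop |
          (∀ a, r a a) ∧
          (∀ a b c, r a b → r b c → r a c) ∧
          (∀ a b, r a b → r b a → a = b) ∧
          (∀ a b c d, r a b → r (c * a * d) (c * b * d)) ∧
          (∀ a b, ∃ s, r a s ∧ r b s ∧ ∀ u, r a u → r b u → r s u) ∧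
          (∀ a b, ∃ t, r t a ∧ r t b ∧ ∀ u, r u a → r u b → r u t)} = k := by
  rintro _ hk ⟨k, rfl⟩
  obtain ⟨G, i, h1, h2⟩ := Pool.Agent.H.MP_aba4aa_al.final k (by omega)
  exact ⟨G, i, Pool.Agent.H.MP_aba4aa_al.lat_count G h1 (two_mul k ▸ h2)⟩

end Pool.Agent.S02663
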