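import Pool.Statements.S02666

set_option autoImplicit false
open Pool Pool.MP_abd870_al

namespace Pool.Agent.S02666

open Topology Filter

theorem ring_part {G R : Type} [Group G] [TopologicalSpace G] [Ring R] [TopologicalSpace R]
    [IsTopologicalRing R] (f : G →ₙ* R) (hf : IsInducing f) (W0 : Set G) (h0 : W0 ∈ 𝓝 (1 : G))
    (H : ∀ W ∈ 𝓝 (1 : G), ∃ (τ : G) (N : ℕ), τ ^ N ∉ W0 ∧ ∀ W' ∈ 𝓝 (1 : G),
      ∃ a b c : Fin 4 → G, (∀ i, a i ∈ W ∧ b i ∈ W ∧ c i ∈ W' ∧ a i * τ = τ * a i) ∧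
        a 0 * b 0 = 1 ∧ a 0 * c 0 * b 0 = a 1 * b 1 ∧ a 1 * c 1 * b 1 = a 2 * b 2 ∧
        a 2 * c 2 * b 2 = a 3 * b 3 ∧ a 3 * c 3 * b 3 = τ) : False := by
  rw [hf.nhds_eq_comap] at h0
  obtain ⟨U, hU, hUW⟩ := h0
  have c4 : Continuous fun p : R × R × R × R => p.1 + p.2.1 + p.2.2.1 + p.2.2.2 + f 1 := by fun_prop
  have t4 := c4.tendsto (0, 0, 0, 0)
  simp only [add_zero, zero_add, nhds_prod_eq] at t4
  obtain ⟨U1, h1, X, hX, e1⟩ := mem_prod_iff.1 (t4 hU)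
  obtain ⟨U2, h2, X', hX', e2⟩ := mem_prod_iff.1 hX
  obtain ⟨U3, h3, U4, h4, e3⟩ := mem_prod_iff.1 hX'
  have hU' : U1 ∩ U2 ∩ U3 ∩ U4 ∈ 𝓝 (0 : R) := inter_mem (inter_mem (inter_mem h1 h2) h3) h4
  have c3 : Continuous fun p : R × R × R => p.1 * p.2.1 * p.2.2 := by fun_prop
  have t3 := c3.tendsto (f 1, 0, f 1)
  simp only [mul_zero, zero_mul, nhds_prod_eq] at t3
  obtain ⟨A, hA, Y, hY, e4⟩ := mem_prod_iff.1 (t3 hU')
  obtain ⟨V, hV, B, hB, e5⟩ := mem_prod_iff.1 hY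
  have fc := hf.continuous
  obtain ⟨τ, N, hN, H2⟩ := H (f ⁻¹' (A ∩ B)) (fc.continuousAt (inter_mem hA hB))
  set T : R := ∑ s ∈ Finset.range N, f (τ ^ s) with hT
  have c1 : Continuous fun g : G => T * (f g - f 1) := by fun_prop
  have t1 := c1.tendsto 1
  simp only [sub_self, mul_zero] at t1
  obtain ⟨a, b, c, h, k0, k1, k2, k3, k4⟩ := H2 _ (t1 hV)
  have m : ∀ i, f (a i) * (T * (f (c i) - f 1)) * f (b i) ∈ U1 ∩ U2 ∩ U3 ∩ U4 := fun i =>
    @e4 (f (a i), T * (f (c i) - f 1), f (b i))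
      ⟨(h i).1.1, @e5 (T * (f (c i) - f 1), f (b i)) ⟨(h i).2.2.1, (h i).2.1.2⟩⟩
  have e : ∀ i, f (a i) * (T * (f (c i) - f 1)) * f (b i) =
      T * (f (a i * c i * b i) - f (a i * b i)) := fun i => by
    have : f (a i) * T = T * f (a i) := by
      rw [hT, Finset.mul_sum, Finset.sum_mul]
      refine Finset.sum_congr rfl fun s _ => ?_
      rw [← map_mul, ← map_mul, (Commute.pow_right (h i).2.2.2 s).eq]
    rw [← mul_assoc, this, mul_assoc T, mul_assoc T, mul_sub, sub_mul, ← map_mul, ← map_mul,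
      ← map_mul, ← map_mul, mul_one]
  have tel : T * (f τ - f 1) = f (τ ^ N) - f 1 := by
    rw [hT, Finset.sum_mul]
    have := Finset.sum_range_sub (fun s => f (τ ^ s)) N
    rw [pow_zero] at this
    rw [← this]
    refine Finset.sum_congr rfl fun s _ => ?_
    rw [mul_sub, ← map_mul, ← map_mul, mul_one, pow_succ]
  have fin := @e1 (_, _, _, _)
    ⟨(m 0).1.1.1, @e2 (_, _, _) ⟨(m 1).1.1.2, @e3 (_, _) ⟨(m 2).1.2, (m 3).2⟩⟩⟩
  simp only [Set.mem_preimage, e, k0, k1, k2, k3, k4] at fin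
  refine hN (hUW ?_)
  rw [Set.mem_preimage]
  convert fin using 1
  rw [← sub_eq_iff_eq_add, ← tel]
  noncomm_ring

def GG : Subgroup (ℝ ≃o ℝ) where
  carrier := {g | ∃ K : ℝ, 0 < K ∧ ∀ x y, |g x - g y| ≤ K * |x - y| ∧ |x - y| ≤ K * |g x - g y|}
  one_mem' := ⟨1, one_pos, fun x y => by simp⟩
  mul_mem' := by
    rintro g h ⟨K, hK, k⟩ ⟨L, hL, l⟩
    refine ⟨K * L, mul_pos hK hL, fun x y => ⟨?_, ?_⟩⟩
    · exact (k _ _).1.trans (by rw [mul_assoc]; gcongr; exact (l _ _).1)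
    · exact (l _ _).2.trans (by rw [mul_comm K, mul_assoc]; gcongr; exact (k _ _).2)
  inv_mem' := by
    rintro g ⟨K, hK, k⟩
    refine ⟨K, hK, fun x y => ?_⟩
    have := k (g⁻¹ x) (g⁻¹ y)
    simp only [RelIso.apply_inv_self] at this
    exact this.symm

def Wr (r : ℝ) : Set GG := {g | ∀ x, |g.1 x - x| ≤ r}

theorem Wr_mul {r s : ℝ} {g h : GG} (hg : g ∈ Wr r) (hh : h ∈ Wr s) : g * h ∈ Wr (r + s) := fun x => by
  have := hg (h.1 x)
  have := hh x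
  show |g.1 (h.1 x) - x| ≤ _
  rw [abs_le] at *
  constructor <;> linarith

theorem Wr_inv {r : ℝ} {g : GG} (hg : g ∈ Wr r) : g⁻¹ ∈ Wr r := fun x => by
  have := hg (g.1⁻¹ x)
  rw [RelIso.apply_inv_self, abs_sub_comm] at this
  exact this

theorem Wr_mono {r s : ℝ} (h : r ≤ s) : Wr r ⊆ Wr s := fun _ hg x => (hg x).trans h

@[instance_reducible] def FB : GroupFilterBasis GG where
  sets := {S | ∃ r > 0, S = Wr r}
  nonempty := ⟨_, 1, one_pos, rfl⟩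
  inter_sets := by
    rintro _ _ ⟨r, hr, rfl⟩ ⟨s, hs, rfl⟩
    exact ⟨_, ⟨min r s, lt_min hr hs, rfl⟩,
      Set.subset_inter (Wr_mono (min_le_left _ _)) (Wr_mono (min_le_right _ _))⟩
  one' := by rintro _ ⟨r, hr, rfl⟩ x; simpa using hr.le
  mul' := by
    rintro _ ⟨r, hr, rfl⟩
    refine ⟨_, ⟨r / 2, half_pos hr, rfl⟩, ?_⟩
    rintro _ ⟨g, hg, h, hh, rfl⟩
    simpa using Wr_mul hg hh
  inv' := by rintro _ ⟨r, hr, rfl⟩; exact ⟨_, ⟨r, hr, rfl⟩, fun g hg => Wr_inv hg⟩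
  conj' := by
    rintro g _ ⟨r, hr, rfl⟩
    obtain ⟨K, hK, k⟩ := g.2
    refine ⟨_, ⟨r / K, div_pos hr hK, rfl⟩, fun h hh x => ?_⟩
    have := (k (h.1 (g.1⁻¹ x)) (g.1⁻¹ x)).1
    rw [RelIso.apply_inv_self] at this
    refine this.trans ?_
    rw [← le_div_iff₀' hK]
    exact hh _

theorem mkG (f : ℝ → ℝ) (κ K : ℝ) (hκ : 0 < κ)
    (h : ∀ x y, x ≤ y → κ * (y - x) ≤ f y - f x ∧ f y - f x ≤ K * (y - x)) :
    ∃ g : GG, ∀ x, g.1 x = f x := by
  have sm : StrictMono f := fun x y hxy => by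
    have := (h x y hxy.le).1
    have := mul_pos hκ (sub_pos.2 hxy)
    linarith
  have hK : κ ≤ K := by have := h 0 1 zero_le_one; linarith
  have ab : ∀ x y, κ * |x - y| ≤ |f x - f y| ∧ |f x - f y| ≤ K * |x - y| := fun x y => by
    rcases le_total x y with a | a
    · rw [abs_sub_comm x, abs_sub_comm (f x), abs_of_nonneg (sub_nonneg.2 a),
        abs_of_nonneg (sub_nonneg.2 (sm.monotone a))]
      exact h x y a
    · rw [abs_of_nonneg (sub_nonneg.2 a), abs_of_nonneg (sub_nonneg.2 (sm.monotone a))]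
      exact h y x a
  have fc : Continuous f := (LipschitzWith.of_dist_le' (K := K) fun x y => (ab x y).2).continuous
  have su : Function.Surjective f := fun z => by
    refine mem_range_of_exists_le_of_exists_ge fc ⟨-(|z - f 0| / κ), ?_⟩ ⟨|z - f 0| / κ, ?_⟩
    · have := (h (-(|z - f 0| / κ)) 0 (by simp; positivity)).1
      rw [zero_sub, neg_neg, mul_div_cancel₀ _ hκ.ne'] at this
      linarith [neg_abs_le (z - f 0)]
    · have := (h 0 (|z - f 0| / κ) (by positivity)).1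
      rw [sub_zero, mul_div_cancel₀ _ hκ.ne'] at this
      linarith [le_abs_self (z - f 0)]
  refine ⟨⟨sm.orderIsoOfSurjective f su, K + κ⁻¹, by have := inv_pos.2 hκ; linarith,
    fun x y => ⟨?_, ?_⟩⟩, fun x => rfl⟩
  · refine (ab x y).2.trans ?_
    gcongr
    linarith [inv_pos.2 hκ]
  · have := (ab x y).1
    rw [← le_div_iff₀' hκ, div_eq_inv_mul] at this
    refine this.trans ?_
    show _ ≤ _ * |f x - f y|
    gcongr
    linarith

noncomputable def D (x : ℝ) : ℝ := |x - round x|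

theorem D_lip (x y : ℝ) : D x ≤ D y + |x - y| := by
  refine (round_le x (round y)).trans ?_
  have := abs_add_le (y - round y) (x - y)
  rwa [show y - round y + (x - y) = x - round y by ring] at this

theorem D_int (x : ℝ) (k : ℤ) : D (x + k) = D x := by simp [D]

theorem D_eq (x : ℝ) (k : ℤ) (h : |x - k| ≤ 1 / 2) : D x = |x - k| := by
  refine le_antisymm (round_le x k) ?_
  by_cases e : round x = k
  · rw [D, e]
  · have h1 : (1 : ℝ) ≤ |(round x : ℝ) - k| := by exact_mod_cast Int.one_le_abs (sub_ne_zero.2 e)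
    have := abs_sub_le (round x : ℝ) x k
    rw [abs_sub_comm (round x : ℝ) x] at this
    rw [D]; linarith

theorem D_le (x : ℝ) : 0 ≤ D x ∧ D x ≤ 1 / 2 := ⟨abs_nonneg _, abs_sub_round x⟩

noncomputable def mm (x : ℝ) : ℝ := x + D (x + 1 / 4) - 1 / 4

theorem mm_slope {x y : ℝ} (h : x ≤ y) : 0 ≤ mm y - mm x ∧ mm y - mm x ≤ 2 * (y - x) := by
  have a := D_lip (x + 1 / 4) (y + 1 / 4)
  have b := D_lip (y + 1 / 4) (x + 1 / 4)
  rw [add_sub_add_right_eq_sub, abs_sub_comm, abs_of_nonneg (sub_nonneg.2 h)] at a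
  rw [add_sub_add_right_eq_sub, abs_of_nonneg (sub_nonneg.2 h)] at b
  simp only [mm]
  constructor <;> linarith

theorem mm_int (x : ℝ) (k : ℤ) : mm (x + k) = mm x + k := by
  rw [mm, mm, add_right_comm x (k : ℝ) (1 / 4), D_int]; ring

theorem mm_near (x : ℝ) : |mm x - x| ≤ 1 / 4 := by
  have := D_le (x + 1 / 4)
  rw [mm, abs_le]; constructor <;> linarith

noncomputable def uu (x : ℝ) : ℝ := mm (mm (mm x))

theorem uu_slope {x y : ℝ} (h : x ≤ y) : 0 ≤ uu y - uu x ∧ uu y - uu x ≤ 8 * (y - x) := by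
  have a := mm_slope h
  have b := mm_slope (sub_nonneg.1 a.1)
  have c := mm_slope (sub_nonneg.1 b.1)
  simp only [uu]
  constructor <;> linarith

theorem uu_int (x : ℝ) (k : ℤ) : uu (x + k) = uu x + k := by simp only [uu, mm_int]

theorem uu_near (x : ℝ) : |uu x - x| ≤ 1 := by
  have a := mm_near x
  have b := mm_near (mm x)
  have c := mm_near (mm (mm x))
  rw [abs_le] at *
  simp only [uu]
  constructor <;> linarith

theorem mm_lo (x : ℝ) (h : 0 ≤ x) (h' : x ≤ 1 / 4) : mm x = 2 * x := by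
  have e : |x + 1 / 4 - (0 : ℤ)| = x + 1 / 4 := by push_cast; rw [sub_zero, abs_of_nonneg]; linarith
  rw [mm, D_eq _ 0 (by rw [e]; linarith), e]; ring

theorem mm_hi (x : ℝ) (h : 3 / 4 ≤ x) (h' : x ≤ 1) : mm x = 2 * x - 1 := by
  have e : |x + 1 / 4 - (1 : ℤ)| = x - 3 / 4 := by push_cast; rw [abs_of_nonneg] <;> linarith
  rw [mm, D_eq _ 1 (by rw [e]; linarith), e]; ring

theorem uu_mid (x : ℝ) (h : 1 / 16 ≤ x) (h' : x ≤ 15 / 16) : uu x = 1 / 2 := by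
  have a : uu (1 / 16) = 1 / 2 := by
    rw [uu, mm_lo (1 / 16), mm_lo (2 * (1 / 16)), mm_lo] <;> norm_num
  have b : uu (15 / 16) = 1 / 2 := by
    rw [uu, mm_hi (15 / 16), mm_hi (2 * (15 / 16) - 1), mm_hi] <;> norm_num
  have := (uu_slope h).1
  have := (uu_slope h').1
  linarith

def Per (g : GG) : Prop := ∀ x (k : ℤ), g.1 (x + k) = g.1 x + k

theorem Per.mul {g h : GG} (hg : Per g) (hh : Per h) : Per (g * h) := fun x k => by
  show g.1 (h.1 (x + k)) = g.1 (h.1 x) + k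
  rw [hh, hg]

theorem Per.inv {g : GG} (hg : Per g) : Per g⁻¹ := fun x k => by
  apply g.1.injective
  show g.1 (g.1⁻¹ (x + k)) = g.1 (g.1⁻¹ x + k)
  rw [hg, RelIso.apply_inv_self, RelIso.apply_inv_self]

theorem lemA (c : GG) (hc : Per c) (p : ℝ) (hp : ∀ t, |t| ≤ 1 / 16 → c.1 (p + t) = p + t)
    (ε : ℝ) (h0 : 0 < ε) (h1 : ε ≤ 1) :
    ∃ v : GG, Per v ∧ v ∈ Wr 1 ∧ v * c * v⁻¹ ∈ Wr ε := by
  obtain ⟨v, hv⟩ := mkG (fun x => ε * x + (1 - ε) * (uu (x - p) + p)) ε 9 h0 fun x y h => by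
    have := uu_slope (sub_le_sub_right h p)
    constructor <;> nlinarith
  refine ⟨v, fun x k => ?_, fun x => ?_, fun z => ?_⟩
  · rw [hv, hv, add_sub_right_comm, uu_int]; ring
  · have := uu_near (x - p)
    rw [hv, show ε * x + (1 - ε) * (uu (x - p) + p) - x = (1 - ε) * (uu (x - p) - (x - p)) by ring,
      abs_mul, abs_of_nonneg (sub_nonneg.2 h1)]
    nlinarith [abs_nonneg (uu (x - p) - (x - p))]
  · obtain ⟨x, rfl⟩ := v.1.surjective z
    show |v.1 (c.1 (v.1⁻¹ (v.1 x))) - v.1 x| ≤ ε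
    rw [RelIso.inv_apply_self]
    obtain ⟨k, k1, k2⟩ : ∃ k : ℤ, (k : ℝ) ≤ x - p + 1 / 16 ∧ x - p + 1 / 16 < k + 1 :=
      ⟨_, Int.floor_le _, Int.lt_floor_add_one _⟩
    obtain ⟨t, rfl⟩ : ∃ t, x = p + t + k := ⟨x - p - k, by ring⟩
    by_cases ht : t ≤ 1 / 16
    · rw [hc, hp t (abs_le.2 ⟨by linarith, ht⟩), sub_self, abs_zero]
      exact h0.le
    · have a := c.1.monotone (show p + 1 / 16 ≤ p + t by linarith)
      have b := c.1.monotone (show p + t ≤ p + -(1 / 16) + (1 : ℤ) by push_cast; linarith)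
      rw [hp _ (by rw [abs_of_pos] <;> norm_num)] at a
      rw [hc, hp (-(1 / 16)) (by rw [abs_of_neg] <;> norm_num)] at b
      push_cast at b
      rw [hc, hv, hv, add_sub_right_comm (c.1 (p + t)) (k : ℝ) p, add_sub_right_comm (p + t) (k : ℝ) p,
        uu_int, uu_int,
        uu_mid _ (by linarith) (by linarith), uu_mid _ (by linarith) (by linarith), abs_le]
      constructor <;> nlinarith

noncomputable def ps (y : ℝ) : ℝ := min (max (D y - 1 / 16) 0) (3 / 8)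

theorem lemC (p : ℝ) : ∃ c : GG, Per c ∧ c ∈ Wr 1 ∧ (∀ t, |t| ≤ 1 / 16 → c.1 (p + t) = p + t) ∧
    ∀ t, |t| ≤ 1 / 16 → c.1 (p + t - 1 / 2) = p + t - 1 / 6 := by
  have lip : ∀ x y, ps x ≤ ps y + |x - y| := fun x y => by
    have := D_lip x y
    have := abs_nonneg (x - y)
    simp only [ps, min_def, max_def]
    split_ifs <;> linarith
  obtain ⟨c, hc⟩ := mkG (fun x => x + 8 / 9 * ps (x - p)) (1 / 9) 2 (by norm_num) fun x y h => by
    have a := lip (x - p) (y - p)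
    have b := lip (y - p) (x - p)
    rw [sub_sub_sub_cancel_right, abs_sub_comm, abs_of_nonneg (sub_nonneg.2 h)] at a
    rw [sub_sub_sub_cancel_right, abs_of_nonneg (sub_nonneg.2 h)] at b
    constructor <;> linarith
  refine ⟨c, fun x k => ?_, fun x => ?_, fun t ht => ?_, fun t ht => ?_⟩
  · rw [hc, hc, add_sub_right_comm, ps, ps, D_int]; ring
  · rw [hc, abs_le]
    simp only [ps, min_def, max_def]
    split_ifs <;> constructor <;> linarith
  · have : D t ≤ 1 / 16 := (round_le t 0).trans (by simpa using ht)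
    rw [hc, add_sub_cancel_left, ps, max_eq_right (by linarith), min_eq_left (by norm_num)]
    ring
  · have a := D_lip (-(1 / 2)) (p + t - 1 / 2 - p)
    rw [D_eq _ 0 (by norm_num [abs_of_pos]), show -(1 / 2) - (p + t - 1 / 2 - p) = -t by ring,
      abs_neg] at a
    norm_num [abs_of_pos] at a
    rw [hc, ps, min_eq_right (le_max_of_le_left (by linarith))]
    ring

theorem base (τ : GG) (hτ : ∀ x, τ.1 x = x + 1) (ε : ℝ) (h0 : 0 < ε) (h1 : ε ≤ 1) :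
    ∃ a b c : Fin 4 → GG, (∀ i, a i ∈ Wr 4 ∧ b i ∈ Wr 4 ∧ c i ∈ Wr ε ∧ a i * τ = τ * a i) ∧
        a 0 * b 0 = 1 ∧ a 0 * c 0 * b 0 = a 1 * b 1 ∧ a 1 * c 1 * b 1 = a 2 * b 2 ∧
        a 2 * c 2 * b 2 = a 3 * b 3 ∧ a 3 * c 3 * b 3 = τ := by
  obtain ⟨c0, p0, w0, f0, g0⟩ := lemC (7 / 6)
  obtain ⟨c1, p1, w1, f1, g1⟩ := lemC (5 / 6)
  obtain ⟨c2, p2, w2, f2, g2⟩ := lemC (1 / 2)
  have pτ : Per τ := fun x k => by rw [hτ, hτ]; ring
  have p3 : Per ((c0 * c1 * c2)⁻¹ * τ) := ((p0.mul p1).mul p2).inv.mul pτ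
  have f3 : ∀ t, |t| ≤ 1 / 16 → ((c0 * c1 * c2)⁻¹ * τ).1 (0 + t) = 0 + t := fun t ht => by
    apply (c0 * c1 * c2).1.injective
    show (c0 * c1 * c2).1 ((c0 * c1 * c2).1⁻¹ (τ.1 (0 + t))) = c0.1 (c1.1 (c2.1 (0 + t)))
    rw [RelIso.apply_inv_self, hτ, show 0 + t = 1 / 2 + t - 1 / 2 by ring, g2 t ht,
      show 1 / 2 + t - 1 / 6 = 5 / 6 + t - 1 / 2 by ring, g1 t ht,
      show 5 / 6 + t - 1 / 6 = 7 / 6 + t - 1 / 2 by ring, g0 t ht]
    ring
  obtain ⟨v0, q0, x0, y0⟩ := lemA c0 p0 _ f0 ε h0 h1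
  obtain ⟨v1, q1, x1, y1⟩ := lemA c1 p1 _ f1 ε h0 h1
  obtain ⟨v2, q2, x2, y2⟩ := lemA c2 p2 _ f2 ε h0 h1
  obtain ⟨v3, q3, x3, y3⟩ := lemA _ p3 _ f3 ε h0 h1
  have cm : ∀ g : GG, Per g → g * τ = τ * g := fun g hg => Subtype.ext (RelIso.ext fun x => by
    show g.1 (τ.1 x) = τ.1 (g.1 x)
    rw [hτ, hτ]
    exact_mod_cast hg x 1)
  refine ⟨![v0⁻¹, c0 * v1⁻¹, c0 * c1 * v2⁻¹, c0 * c1 * c2 * v3⁻¹], ![v0, v1, v2, v3],
    ![v0 * c0 * v0⁻¹, v1 * c1 * v1⁻¹, v2 * c2 * v2⁻¹, v3 * ((c0 * c1 * c2)⁻¹ * τ) * v3⁻¹],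
    fun i => ?_, by simp, by simp [mul_assoc], by simp [mul_assoc], by simp [mul_assoc],
    by simp [mul_assoc]⟩
  fin_cases i
  · exact ⟨Wr_mono (by norm_num) (Wr_inv x0), Wr_mono (by norm_num) x0, y0, cm _ q0.inv⟩
  · exact ⟨Wr_mono (by norm_num) (Wr_mul w0 (Wr_inv x1)), Wr_mono (by norm_num) x1, y1,
      cm _ (p0.mul q1.inv)⟩
  · exact ⟨Wr_mono (by norm_num) (Wr_mul (Wr_mul w0 w1) (Wr_inv x2)), Wr_mono (by norm_num) x2, y2,
      cm _ ((p0.mul p1).mul q2.inv)⟩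
  · exact ⟨Wr_mono (by norm_num) (Wr_mul (Wr_mul (Wr_mul w0 w1) w2) (Wr_inv x3)),
      Wr_mono (by norm_num) x3, y3, cm _ (((p0.mul p1).mul p2).mul q3.inv)⟩

theorem result :
    ¬ (∀ (G : Type) [Group G] [TopologicalSpace G] [IsTopologicalGroup G],
      ∃ (R : Type) (_ : Ring R) (_ : TopologicalSpace R),
        IsTopologicalRing R ∧ ∃ f : G →ₙ* R, Topology.IsEmbedding f) := by
  intro h
  let _ : TopologicalSpace GG := FB.topology
  have : IsTopologicalGroup GG := FB.isTopologicalGroup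
  obtain ⟨R, _, _, _, f, hf⟩ := h GG
  have hb := FB.nhds_one_hasBasis
  refine ring_part f hf.isInducing (Wr 1) (FB.mem_nhds_one ⟨1, one_pos, rfl⟩) fun W hW => ?_
  obtain ⟨_, ⟨r, hr, rfl⟩, hW⟩ := hb.mem_iff.1 hW
  obtain ⟨τ, hτ⟩ := mkG (fun x => x + 1) 1 1 one_pos fun x y _ => ⟨by linarith, by linarith⟩
  obtain ⟨σ, hσ⟩ := mkG (fun x => r / 4 * x) (r / 4) (r / 4) (by positivity)
    fun x y _ => ⟨by linarith, by linarith⟩
  have sc : ∀ s g, g ∈ Wr s → MulAut.conj σ g ∈ Wr (r / 4 * s) := fun s g hg z => by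
    obtain ⟨x, rfl⟩ := σ.1.surjective z
    show |σ.1 (g.1 (σ.1⁻¹ (σ.1 x))) - σ.1 x| ≤ _
    rw [RelIso.inv_apply_self, hσ, hσ, ← mul_sub, abs_mul, abs_of_pos (by positivity)]
    gcongr
    exact hg x
  obtain ⟨N, hN⟩ := exists_nat_gt (4 / r)
  have pw : ∀ (n : ℕ) x, (τ ^ n).1 x = x + n := fun n => by
    induction n with
    | zero => simp
    | succ n ih =>
      intro x
      rw [pow_succ]
      show (τ ^ n).1 (τ.1 x) = _
      rw [ih, hτ]; push_cast; ring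
  refine ⟨MulAut.conj σ τ, N, fun hm => ?_, fun W' hW' => ?_⟩
  · rw [← map_pow] at hm
    have : |σ.1 ((τ ^ N).1 (σ.1⁻¹ (σ.1 0))) - σ.1 0| ≤ 1 := hm (σ.1 0)
    rw [RelIso.inv_apply_self, pw, hσ, hσ, zero_add, mul_zero, sub_zero,
      abs_of_nonneg (by positivity)] at this
    rw [div_lt_iff₀ hr] at hN
    linarith
  · obtain ⟨_, ⟨e, he, rfl⟩, hW'⟩ := hb.mem_iff.1 hW'
    obtain ⟨a, b, c, k, k0, k1, k2, k3, k4⟩ := base τ hτ (min 1 (4 / r * e)) (by positivity)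
      (min_le_left _ _)
    refine ⟨fun i => MulAut.conj σ (a i), fun i => MulAut.conj σ (b i), fun i => MulAut.conj σ (c i),
      fun i => ⟨hW ?_, hW ?_, hW' ?_, ?_⟩, ?_, ?_, ?_, ?_, ?_⟩
    · simpa using sc _ _ (k i).1
    · simpa using sc _ _ (k i).2.1
    · refine Wr_mono ?_ (sc _ _ (k i).2.2.1)
      calc r / 4 * min 1 (4 / r * e) ≤ r / 4 * (4 / r * e) := by gcongr; exact min_le_right _ _
        _ = e := by field_simp
    all_goals simp only [← map_mul]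
    · rw [(k i).2.2.2]
    · rw [k0, map_one]
    · rw [k1]
    · rw [k2]
    · rw [k3]
    · rw [k4]

end Pool.Agent.S02666
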