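import Pool.Statements.S02672
import Pool.Agent.H.MP_ac3292_al.C

set_option autoImplicit false
open Pool Pool.MP_ac3292_al

namespace Pool.Agent.S02672

theorem result :
    ¬ (∀ (G : Type) [Group G] (S : Finset G), Subgroup.closure (S : Set G) = ⊤ →
  ∀ (Γ : SimpleGraph G), Γ = SimpleGraph.fromRel (fun g h : G => g⁻¹ * h ∈ S) →
  ∀ (asdimLE : Set G → ℕ → Prop),
    (∀ (Y : Set G) (k : ℕ), asdimLE Y k ↔
      ∀ R : ℕ, ∃ 𝒰 : Set (Set G), (∀ U ∈ 𝒰, U ⊆ Y) ∧ Y ⊆ ⋃₀ 𝒰 ∧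
        (∃ D : ℕ, ∀ U ∈ 𝒰, ∀ a ∈ U, ∀ b ∈ U, Γ.dist a b ≤ D) ∧
        ∀ y ∈ Y, {U ∈ 𝒰 | ∃ z ∈ U, Γ.dist y z ≤ R}.encard ≤ (k + 1 : ℕ∞)) →
  ∀ (m : ℕ), ¬ asdimLE Set.univ (m + 1) →
  ∀ (X : Set G), asdimLE X m →
  (∃ r : ℕ, ∃ Ω : Set G, Ω = {v : G | ∀ x ∈ X, r < Γ.dist v x} ∧
    ∃ C₁ C₂ : (Γ.induce Ω).ConnectedComponent, C₁ ≠ C₂ ∧
      ∀ C : (Γ.induce Ω).ConnectedComponent, (C = C₁ ∨ C = C₂) →
        ∀ D : ℕ, ∃ v : Ω, (Γ.induce Ω).connectedComponentMk v = C ∧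
          ∀ x ∈ X, D < Γ.dist (v : G) x) →
  ∃ H : Subgroup G, asdimLE (H : Set G) (m + 1) ∧
    ((∃ (K : Bool → Subgroup G) (hK : ∀ i, H ≤ K i), (∀ i, H ≠ K i) ∧
        ∃ e : Monoid.PushoutI (fun i : Bool => Subgroup.inclusion (hK i)) ≃* G,
          ∀ (i : Bool) (a : K i), e (Monoid.PushoutI.of i a) = (a : G)) ∨
     (∃ (A : Subgroup G) (B₁ B₂ : Subgroup A) (φ : B₁ ≃* B₂)
        (e : HNNExtension A B₁ B₂ φ ≃* G),
          (∀ a : A, e (HNNExtension.of a) = (a : G)) ∧ H = B₁.map A.subtype))) := by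
  open Pool.Agent.H.MP_ac3292_al Pool.Agent.H.MP_1d7d98_al in
  intro h
  obtain ⟨S, hS⟩ := (inferInstance : Group.FG T4).out
  have hG := SW_gen S hS
  let N := mkNm S hS
  let M := mkNm (SW S) hG
  have hd : ∀ x y, (cay (SW S : Set (W T4))).dist x y = M.ν (x⁻¹ * y) := wd_nu hG
  obtain ⟨γ, γ0, hγ⟩ := N.line
  have γ1 : ∀ i : ℕ, N.ν (γ i) = i := fun i => by simpa [γ0] using hγ 0 i
  have γ2 : ∀ i : ℕ, γ (i + 1 : ℕ) ≠ 1 := fun i e => by
    have := γ1 (i + 1)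
    rw [e, N.one] at this
    omega
  have hΩ : ∀ v : W T4, v.u ≠ 1 ↔ ∀ x ∈ {g : W T4 | g.u = 1},
      0 < (cay (SW S : Set (W T4))).dist v x := fun v => by
    simp only [Nat.pos_iff_ne_zero, ne_eq, (conn hG).dist_eq_zero_iff]
    exact ⟨fun c x d e => c (e ▸ d), fun c d => c v d rfl⟩
  refine (fun ⟨H, _, k⟩ => k.elim (fun ⟨K, hK, h1, e, _⟩ => ?_) fun ⟨A, B, C, φ, e, _⟩ => ?_ :
    ¬ _) <| h (W T4) (SW S) hG
    (cay (SW S : Set (W T4))) rfl _ (fun _ _ => Iff.rfl) 0 (fun h => ?_) {g | g.u = 1}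
    (fun R => ?_) ⟨0, {v | v.u ≠ 1}, Set.ext hΩ,
      SimpleGraph.connectedComponentMk _ ⟨⟨0, γ (0 + 1 : ℕ)⟩, γ2 0⟩,
      SimpleGraph.connectedComponentMk _ ⟨⟨Finsupp.single 1 1, γ (0 + 1 : ℕ)⟩, γ2 0⟩,
      fun e => ?_, fun C c D => ?_⟩
  · obtain ⟨R, hR⟩ := hi M inr cur (fun _ => rfl) (ι := Set (W T4))
    obtain ⟨𝒰, -, c, ⟨D, hD⟩, d⟩ := h R
    choose U U1 U2 using fun g => c (Set.mem_univ g)
    obtain ⟨x, k1, k2⟩ := hR U D fun x y e => hd x y ▸ hD _ (U1 x) x (U2 x) y (e ▸ U2 y)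
    have := le_trans (five _ k1 fun j => by exact ⟨U1 (x j), x j, U2 _, (hd _ _).trans_le (k2 j)⟩)
      (d (x none) trivial)
    norm_num at this
  · obtain ⟨a, ha⟩ := Bx_ex N (M.fin R)
    obtain ⟨D, hD⟩ := bdd (Bx_fin N a) M.ν
    let U : W T4 → Set (W T4) := fun y => {z | z.u = 1 ∧ ∀ p, a < N.ν p → z.f p = y.f p}
    refine ⟨Set.range U, ?_, fun y c => ⟨U y, ⟨y, rfl⟩, c, fun _ _ => rfl⟩, ⟨D, ?_⟩,
      fun y c => ?_⟩
    · rintro _ ⟨y, rfl⟩ z c; exact c.1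
    · rintro _ ⟨y, rfl⟩ x c z d
      rw [hd]
      refine hD _ ((Bx_iff N a x z).2 ⟨by simp [c.1, d.1, N.one], fun p k => ?_⟩)
      rw [c.1, inv_one, one_mul] at k
      rw [c.2 p k, d.2 p k]
    · refine (Set.encard_le_encard (t := {U y}) ?_).trans (by simp)
      rintro _ ⟨⟨x, rfl⟩, z, d, k⟩
      have := ((Bx_iff N a y z).1 (ha ((hd y z).symm.trans_le k))).2
      rw [show y.u = 1 from c] at this
      simp only [inv_one, one_mul] at this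
      ext w
      exact and_congr_right fun _ => forall₂_congr fun p l => by rw [this p l, d.2 p l]
  · have : ∀ i, ∃ a : K i, a ∉ (Subgroup.inclusion (hK i)).range := fun i => by
      obtain ⟨a, c, d⟩ := SetLike.exists_of_lt (lt_of_le_of_ne (hK i) (h1 i))
      exact ⟨⟨a, c⟩, fun ⟨x, k⟩ => d ((show (x : W T4) = a from congrArg Subtype.val k) ▸ x.2)⟩
    choose a ha using this
    exact no_amalg (W_tor T4_tor) _ (fun i => Subgroup.inclusion_injective _) a ha e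
  · exact no_hnn (W_tor T4_tor) φ e
  · have key : ∀ v w : {v : W T4 | v.u ≠ 1},
        ((cay (SW S : Set (W T4))).induce _).Reachable v w → v.1.f 1 = w.1.f 1 := by
      rintro v w ⟨p⟩
      induction p with
      | nil => rfl
      | @cons a b _ e _ ih => exact (SW_st (adj_st e) a.2 b.2).trans ih
    simpa using key _ _ (SimpleGraph.ConnectedComponent.exact e)
  · have key : ∀ f (i : ℕ), ((cay (SW S : Set (W T4))).induce {v | v.u ≠ 1}).Reachable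
        ⟨⟨f, γ (i + 1 : ℕ)⟩, γ2 i⟩ ⟨⟨f, γ (0 + 1 : ℕ)⟩, γ2 0⟩ := fun f i => by
      induction i with
      | zero => rfl
      | succ i ih =>
        refine .trans (SimpleGraph.Adj.reachable ?_) ih
        have c1 : St (S : Set T4) (γ (i + 1 + 1 : ℕ)) (γ (i + 1 : ℕ)) :=
          wd_one hS ((wd_nu hS _ _).trans ((hγ _ _).trans (by omega)))
        have c2 : ∀ x y : T4, x⁻¹ * y ∈ S → (⟨f, x⟩⁻¹ * ⟨f, y⟩ : W T4) ∈ SW S := fun x y k => by
          classical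
          refine Finset.mem_insert_of_mem (Finset.mem_image.2 ⟨_, k, ?_⟩)
          ext1
          · ext; simp [inr, CharTwo.add_self_eq_zero]
          · rfl
        refine (st_adj (c1.imp (c2 _ _) (c2 _ _))).resolve_left fun k => ?_
        have := γ1 (i + 1 + 1)
        rw [show γ (i + 1 + 1 : ℕ) = γ (i + 1 : ℕ) from congrArg W.u k, γ1] at this
        omega
    obtain ⟨a, ha⟩ := Bx_ex N (M.fin D)
    have k2 : ∀ f, ∀ x ∈ {g : W T4 | g.u = 1},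
        D < (cay (SW S : Set (W T4))).dist ⟨f, γ (a + 1 : ℕ)⟩ x := fun f x c => by
      rw [hd]
      refine not_le.1 fun k => ?_
      have := ((Bx_iff N a _ x).1 (ha k)).1
      rw [show x.u = 1 from c, mul_one, N.inv, γ1] at this
      omega
    rcases c with rfl | rfl <;>
      exact ⟨_, SimpleGraph.ConnectedComponent.sound (key _ a), k2 _⟩

end Pool.Agent.S02672
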