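import Pool.Statements.S02686
import Pool.Agent.S03022

set_option autoImplicit false
open Pool Pool.MP_adca84_al

namespace Pool.Agent.S02686

noncomputable section
open FreeGroup S03022

abbrev Task2 := Fin 32 × Finset GG

theorem ex_enum2 : ∃ T : ℕ → Task2, ∀ t : Task2, ∃ k, T k = t ∧ ∀ f ∈ t.2, f ∈ lev k := by
  obtain ⟨e, he⟩ := exists_surjective_nat Task2
  refine ⟨fun k => e (Nat.unpair k).1, fun t => ?_⟩
  obtain ⟨a, rfl⟩ := he t
  obtain ⟨b, hb⟩ := ex_lev (e a).2
  exact ⟨Nat.pair a b, by simp, fun f hf => lev_mono (Nat.right_le_pair a b) (hb f hf)⟩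

def Con2 (k : ℕ) (t : Task2) (c : GG → Fin 32) : Prop :=
  (∀ f ∈ t.2, f ∈ lev k) → t.2.card ≤ 64 →
    ∀ x, ∀ f ∈ t.2, ∀ f' ∈ t.2, c (f⁻¹ * x) ≠ t.1 ∨ c (f'⁻¹ * (of k * x)) ≠ t.1

def Phi2 (D : Fin 32 → Finset GG) : ℝ := ∑ i, √((D i).card : ℝ)

theorem sat2 (T : ℕ → Task2) (k : ℕ) : ∀ D : Fin 32 → Finset GG, Phi2 D ≤ 28 →
    ∃ c : GG → Fin 32, (∀ m < k, Con2 m (T m) c) ∧ ∀ i, ∀ x ∈ D i, c x ≠ i := by
  classical
  induction k with
  | zero =>
    intro D hD
    obtain ⟨i, hi⟩ : ∃ i, D i = ∅ := by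
      by_contra h
      push Not at h
      have : ∑ _i : Fin 32, (1 : ℝ) ≤ Phi2 D := Finset.sum_le_sum fun i _ =>
        Real.one_le_sqrt.mpr (by exact_mod_cast (h i).card_pos)
      simp at this
      linarith
    refine ⟨fun _ => i, fun m hm => absurd hm (Nat.not_lt_zero _), fun j x hx h => ?_⟩
    rw [← h, hi] at hx
    simp at hx
  | succ k ih =>
    intro D hD
    by_cases hact : (∀ f ∈ (T k).2, f ∈ lev k) ∧ (T k).2.card ≤ 64
    swap
    · obtain ⟨c, h1, h2⟩ := ih D hD
      refine ⟨c, fun m hm => ?_, h2⟩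
      rcases Nat.lt_succ_iff_lt_or_eq.mp hm with h | rfl
      · exact h1 m h
      · exact fun a b => absurd ⟨a, b⟩ hact
    obtain ⟨hF, hc⟩ := hact
    let q : GG → Quotient (QuotientGroup.rightRel (lev k)) := Quotient.mk _
    have hq : ∀ x y, q x = q y ↔ y * x⁻¹ ∈ lev k := fun x y =>
      Quotient.eq.trans QuotientGroup.rightRel_apply
    have hq' : ∀ h x, h ∈ lev k → q (h * x) = q x := fun h x hh => by
      rw [eq_comm, hq]; simpa using hh
    let DQ : Quotient (QuotientGroup.rightRel (lev k)) → Fin 32 → Finset GG :=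
      fun Q i => (D i).filter fun x => q x = Q
    have two : ∀ Q Q', Q ≠ Q' → Phi2 (DQ Q) + Phi2 (DQ Q') ≤ 40 := by
      intro Q Q' hne
      have : Phi2 (DQ Q) + Phi2 (DQ Q') ≤ 10 / 7 * Phi2 D := by
        rw [Phi2, Phi2, Phi2, ← Finset.sum_add_distrib, Finset.mul_sum]
        refine Finset.sum_le_sum fun i _ => sq_le _ _ _ (by positivity) (by positivity) ?_
        have h1 : Disjoint (DQ Q i) (DQ Q' i) :=
          Finset.disjoint_filter.mpr fun x _ h h' => hne (h.symm.trans h')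
        have h2 : DQ Q i ∪ DQ Q' i ⊆ D i :=
          Finset.union_subset (Finset.filter_subset _ _) (Finset.filter_subset _ _)
        have h3 := Finset.card_le_card h2
        rw [Finset.card_union_of_disjoint h1] at h3
        exact_mod_cast h3
      linarith
    obtain ⟨x0, hx0⟩ : ∃ x0, ∀ Q, Q ≠ q x0 → Phi2 (DQ Q) ≤ 20 := by
      by_cases h : ∀ Q, Phi2 (DQ Q) ≤ 20
      · exact ⟨1, fun Q _ => h Q⟩
      · push Not at h
        obtain ⟨Q0, h0⟩ := h
        obtain ⟨x0, rfl⟩ := Quotient.exists_rep Q0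
        exact ⟨x0, fun Q hQ => by linarith [two Q _ hQ]⟩
    have key : ∀ Q, ∃ c : GG → Fin 32, (∀ m < k, Con2 m (T m) c) ∧
        (∀ i, ∀ x ∈ DQ Q i, c x ≠ i) ∧
        ∀ r, q r = Q → beg k (r * x0⁻¹) → ∀ f ∈ (T k).2, c (f⁻¹ * r) ≠ (T k).1 := by
      intro Q
      by_cases h : ∃ r, q r = Q ∧ beg k (r * x0⁻¹)
      · obtain ⟨r, rfl, hr⟩ := h
        have h1 := hx0 (q r) fun h => beg_not hr ((hq _ _).mp h.symm)
        let E : Fin 32 → Finset GG := fun i =>
          if i = (T k).1 then (T k).2.image (fun f => f⁻¹ * r) else ∅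
        obtain ⟨c, h2, h3⟩ := ih (fun i => DQ (q r) i ∪ E i) (by
          have h4 : Phi2 E ≤ 8 := by
            rw [Phi2, Finset.sum_eq_single (T k).1 (fun i _ hi => by simp [E, hi]) (by simp)]
            refine Real.sqrt_le_iff.mpr ⟨by norm_num, ?_⟩
            have := (Finset.card_image_le (s := (T k).2) (f := fun f => f⁻¹ * r)).trans hc
            simp only [E, if_true]
            exact_mod_cast this
          have h5 : Phi2 (fun i => DQ (q r) i ∪ E i) ≤ Phi2 (DQ (q r)) + Phi2 E := by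
            rw [Phi2, Phi2, Phi2, ← Finset.sum_add_distrib]
            refine Finset.sum_le_sum fun i _ => le_trans (Real.sqrt_le_sqrt ?_)
              (sq_add ((DQ (q r) i).card : ℝ) ((E i).card : ℝ) (by positivity) (by positivity))
            exact_mod_cast Finset.card_union_le _ _
          linarith)
        refine ⟨c, h2, fun i x hx => h3 i x (Finset.mem_union_left _ hx), ?_⟩
        intro r' hr' hb f hf
        have : r' = r := mul_right_cancel (beg_uniq hb hr (by simpa using (hq _ _).mp hr'.symm))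
        rw [this]
        refine h3 _ _ (Finset.mem_union_right _ ?_)
        simp only [E, if_true]
        exact Finset.mem_image_of_mem _ hf
      · obtain ⟨c, h2, h3⟩ := ih (DQ Q) (le_trans (Finset.sum_le_sum fun i _ =>
          Real.sqrt_le_sqrt (by exact_mod_cast Finset.card_filter_le _ _)) hD)
        exact ⟨c, h2, h3, fun r h1 h2 => absurd ⟨r, h1, h2⟩ h⟩
    choose cc h1 h2 h3 using key
    refine ⟨fun x => cc (q x) x, fun m hm => ?_,
      fun i x hx => h2 (q x) i x (Finset.mem_filter.mpr ⟨hx, rfl⟩)⟩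
    rcases Nat.lt_succ_iff_lt_or_eq.mp hm with h | rfl
    · intro a b x f hf f' hf'
      have := h1 (q x) m h a b x f hf f' hf'
      dsimp only
      rwa [hq' _ _ (inv_mem (lev_mono h.le (a f hf))), hq' _ _ (inv_mem (lev_mono h.le (a f' hf'))),
        hq' _ _ (of_lev h)]
    · intro _ _ x f hf f' hf'
      dsimp only
      rw [hq' _ _ (inv_mem (hF f hf)), hq' _ _ (inv_mem (hF f' hf'))]
      rcases beg_or m (x * x0⁻¹) with h | h
      · exact Or.inl (h3 _ x rfl h f hf)
      · exact Or.inr (h3 _ _ rfl (by rwa [mul_assoc]) f' hf')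

theorem con_closed2 (k : ℕ) (t : Task2) : IsClosed {c | Con2 k t c} := by
  simp only [Con2, Set.ofPred_forall]
  refine isClosed_iInter fun _ => isClosed_iInter fun _ => isClosed_iInter fun x =>
    isClosed_iInter fun f => isClosed_iInter fun _ => isClosed_iInter fun f' =>
      isClosed_iInter fun _ => IsClosed.union ?_ ?_
  · exact (isClosed_discrete {i | i ≠ t.1}).preimage
      (continuous_apply (A := fun _ : GG => Fin 32) (f⁻¹ * x))
  · exact (isClosed_discrete {i | i ≠ t.1}).preimage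
      (continuous_apply (A := fun _ : GG => Fin 32) (f'⁻¹ * (of k * x)))

theorem ex_col2 (T : ℕ → Task2) : ∃ c : GG → Fin 32, ∀ m, Con2 m (T m) c := by
  have hcl : ∀ k, IsClosed {c : GG → Fin 32 | ∀ m < k, Con2 m (T m) c} := fun k => by
    simp only [Set.ofPred_forall]
    exact isClosed_iInter fun m => isClosed_iInter fun _ => con_closed2 m _
  obtain ⟨c, hc⟩ := IsCompact.nonempty_iInter_of_sequence_nonempty_isCompact_isClosed
    (fun k => {c : GG → Fin 32 | ∀ m < k, Con2 m (T m) c})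
    (fun k c hc m hm => hc m (Nat.lt_succ_of_lt hm))
    (fun k => by
      obtain ⟨c, hc, -⟩ := sat2 T k (fun _ => ∅) (by simp [Phi2])
      exact ⟨c, hc⟩)
    (hcl 0).isCompact hcl
  exact ⟨c, fun m => Set.mem_iInter.mp hc (m + 1) m (Nat.lt_succ_self m)⟩

end

theorem result :
    ¬ (∀ (G : Type) [Group G] (n : ℕ) (A : Fin n → Set G),
      (∀ g : G, ∃ i, g ∈ A i) →
      (∀ i j, i ≠ j → Disjoint (A i) (A j)) →
      ∃ i : Fin n, ∃ F : Finset (G × G), F.card ≤ n ∧
        ∀ g : G, ∃ p ∈ F, ∃ a ∈ A i, ∃ b ∈ A i, g = p.1 * a * b⁻¹ * p.2) := by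
  intro hall
  obtain ⟨T, hT⟩ := ex_enum2
  obtain ⟨c, hc⟩ := ex_col2 T
  obtain ⟨i, F, hF, h⟩ := hall S03022.GG 32 (fun i => {x | c x = i}) (fun g => ⟨c g, rfl⟩)
    (fun i j hij => Set.disjoint_left.mpr fun x h1 h2 => hij (h1.symm.trans h2))
  obtain ⟨k, hk, hl⟩ := hT (i, F.image (·.1) ∪ F.image (·.2⁻¹))
  obtain ⟨p, hp, a, ha, b, hb, h1⟩ := h (FreeGroup.of k)
  have h2 := hc k
  rw [hk] at h2
  have h5 : (F.image (·.1) ∪ F.image (·.2⁻¹)).card ≤ 64 := by
    have := Finset.card_union_le (F.image (·.1)) (F.image (·.2⁻¹))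
    have := Finset.card_image_le (s := F) (f := (·.1))
    have := Finset.card_image_le (s := F) (f := (·.2⁻¹))
    omega
  rcases h2 hl h5 (p.2⁻¹ * b) p.2⁻¹ (Finset.mem_union_right _ (Finset.mem_image_of_mem _ hp))
    p.1 (Finset.mem_union_left _ (Finset.mem_image_of_mem _ hp)) with h3 | h3
  · exact h3 (by simpa using hb)
  · rw [h1] at h3
    exact h3 (by simpa [mul_assoc] using ha)

end Pool.Agent.S02686
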