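import Pool.Statements.S02692
import Pool.Agent.H.MP_ae7646_al.B

set_option autoImplicit false
open Pool Pool.MP_ae7646_al

namespace Pool.Agent.S02692

theorem result :
    ¬ (∀ (k : Type) [Field k] (A H : Type) [Ring A] [HopfAlgebra k A] [Ring H] [HopfAlgebra k H],
      FiniteDimensional k A → FiniteDimensional k H →
      ∀ (E : ℕ → Type) [∀ m, Ring (E m)] [∀ m, HopfAlgebra k (E m)],
        (∀ m, ∃ (i : BialgHom k A (E m)) (j : BialgHom k H (E m)),
            Function.Injective i ∧ Function.Injective j ∧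
            Function.Bijective
              (TensorProduct.lift
                (((LinearMap.mul k (E m)).comp i.toLinearMap).compl₂ j.toLinearMap))) →
        ∃ m m' : ℕ, m ≠ m' ∧ Nonempty (BialgEquiv k (E m) (E m'))) := by
  intro h
  obtain ⟨s, hs⟩ := H.MP_ae7646_al.seq
  obtain ⟨m, n, ne, ⟨φ⟩⟩ := h H.MP_ae7646_al.K H.MP_ae7646_al.A
    (MonoidAlgebra H.MP_ae7646_al.K H.MP_ae7646_al.V)
    ⟨H.MP_ae7646_al.span_top (1 : Unit →* _) ▸ Submodule.fg_span (Set.finite_range _)⟩ inferInstance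
    (fun m => H.MP_ae7646_al.E (H.MP_ae7646_al.ch (s m))) fun m =>
      ⟨_, _, H.MP_ae7646_al.iA_inj _, H.MP_ae7646_al.jH_inj _, H.MP_ae7646_al.μ_bij _⟩
  rcases lt_or_gt_of_ne ne with k | k
  · exact (hs m n k).elim φ.symm
  · exact (hs n m k).elim φ

end Pool.Agent.S02692
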