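import Pool.Statements.S02714
import Pool.Agent.H.MP_afddf0_al.Main

set_option autoImplicit false
open Pool Pool.MP_afddf0_al

namespace Pool.Agent.S02714

theorem result :
    ¬ (∀ (p : ℕ) (k : Type) [Field k] [CharP k p], p.Prime →
    ∀ (X : Type) (L : Submodule k (Module.End k (FreeAlgebra k X))),
      FiniteDimensional k L →
      (∀ D ∈ L, ∀ a b : FreeAlgebra k X, D (a * b) = D a * b + a * D b) →
      (∀ D₁ ∈ L, ∀ D₂ ∈ L, D₁ * D₂ - D₂ * D₁ ∈ L) →
      (∀ D ∈ L, D ^ p ∈ L) →
      ∃ (Y : Type) (f : FreeAlgebra k Y →ₐ[k] FreeAlgebra k X),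
        Function.Injective f ∧ Set.range f = {a | ∀ D ∈ L, D a = 0}) := by
  intro h
  obtain ⟨Y, f, hf, hr⟩ := h 2 (ZMod 2) Nat.prime_two (Fin 4)
    (Submodule.span (ZMod 2) {Pool.Agent.H.MP_afddf0_al.D}) inferInstance
    (by
      intro E hE a b
      obtain ⟨c, rfl⟩ := Submodule.mem_span_singleton.1 hE
      simp only [LinearMap.smul_apply, Pool.Agent.H.MP_afddf0_al.D_mul, smul_add,
        smul_mul_assoc, mul_smul_comm]
      exact add_comm _ _)
    (by
      intro E hE E' hE'
      obtain ⟨c, rfl⟩ := Submodule.mem_span_singleton.1 hE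
      obtain ⟨c', rfl⟩ := Submodule.mem_span_singleton.1 hE'
      rw [smul_mul_smul_comm, smul_mul_smul_comm, mul_comm c' c, sub_self]
      exact Submodule.zero_mem _)
    (by
      intro E hE
      obtain ⟨c, rfl⟩ := Submodule.mem_span_singleton.1 hE
      have : (c • Pool.Agent.H.MP_afddf0_al.D : Module.End (ZMod 2) _) ^ 2 = 0 := by
        refine LinearMap.ext fun x => ?_
        simp [sq, Pool.Agent.H.MP_afddf0_al.DD]
      rw [this]
      exact Submodule.zero_mem _)
  refine Pool.Agent.H.MP_afddf0_al.not_free Y f hf fun x => ?_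
  rw [hr]
  constructor
  · intro hx
    exact hx _ (Submodule.mem_span_singleton_self _)
  · intro hx E hE
    obtain ⟨c, rfl⟩ := Submodule.mem_span_singleton.1 hE
    rw [LinearMap.smul_apply, hx, smul_zero]

end Pool.Agent.S02714
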