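import Pool.Statements.S02722
import Pool.Agent.H.MP_b05523_al.Net

set_option autoImplicit false
open Pool Pool.MP_b05523_al

namespace Pool.Agent.S02722
open Pool.Agent.H.MP_b05523_al Topology Filter

theorem result :
    ¬ (∃ (S : Type) (_ : Group S) (_ : TopologicalSpace S),
      IsTopologicalGroup S ∧ T2Space S ∧ LocallyCompactSpace S ∧
        SecondCountableTopology S ∧
          ∀ (G : Type) [Group G] [Countable G], ∃ f : G →* S, Function.Injective f) := by
  rintro ⟨S, _, _, _, _, _, _, hS⟩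
  obtain ⟨U, hU⟩ := (𝓝 (1 : S)).exists_antitone_basis
  let C := compactCovering S
  let K : ℕ → Set S := fun j =>
    insert 1 ((fun t : S × S × S => wd j t.1 t.2.1 t.2.2) '' (C j ×ˢ C j ×ˢ C j))
  have hK : ∀ j, IsCompact (K j) := fun j =>
    (((isCompact_compactCovering S j).prod ((isCompact_compactCovering S j).prod
      (isCompact_compactCovering S j))).image (by unfold wd; fun_prop)).insert 1
  obtain ⟨β, _, hβ⟩ := patterns
  have main : ∀ j, ∃ (m : ℕ) (r : Fin m) (μ : List (Fin m)) (G : Type) (_ : Group G) (gen : β → G)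
      (ψ : Fin m → G), r.1 = 0 ∧ Function.Injective ψ ∧ ψ r = 1 ∧
      (∀ k v u, Rl μ k v u → ∃ a, ψ u = ψ v * gen a) ∧
      ¬ ∃ φ : Fin m → S, φ r = 1 ∧ (∀ k v u, Rl μ k v u → (φ v)⁻¹ * φ u ∈ K j) ∧
        ∀ u v, u ≠ v → (φ u)⁻¹ * φ v ∉ U j := by
    intro j
    obtain ⟨D, hD⟩ := count (hU.mem j) (hK j) (Set.mem_insert _ _)
    obtain ⟨m, r, i, T, a1, a2, a3, a4⟩ := hβ D
    obtain ⟨μ, hμ, h⟩ := hD m r i T a1 a2 a3 (fun μ hμ => (a4 μ hμ).1)
    obtain ⟨-, G, iG, gen, ψ, b1, b2, b3⟩ := a4 μ hμ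
    exact ⟨m, r, μ, G, iG, gen, ψ, a1, b1, b2, b3, h⟩
  choose m r μ G iG gen ψ c0 c1 c2 c3 c4 using main
  obtain ⟨P, _, a, z, b, c, e, ι, e1, e2, e3⟩ := envelope G gen
  let L : FreeGroup (β ⊕ Fin 4) →* P := FreeGroup.lift (Sum.elim a ![z, b, c, e])
  have : Countable L.range := (Set.countable_range L).to_subtype
  obtain ⟨f, hf⟩ := hS L.range
  let g : β ⊕ Fin 4 → L.range := fun s => ⟨L (FreeGroup.of s), _, rfl⟩
  have ga : ∀ s, (g (Sum.inl s)).1 = a s := fun s => by simp [g, L]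
  have gz : (g (Sum.inr 0)).1 = z := by simp [g, L]
  have gb : (g (Sum.inr 1)).1 = b := by simp [g, L]
  have gc : (g (Sum.inr 2)).1 = c := by simp [g, L]
  have ge : (g (Sum.inr 3)).1 = e := by simp [g, L]
  let c' := f (g (Sum.inr 2))
  let e' := f (g (Sum.inr 3))
  have hO : {x : S | c' * (x * e' * x⁻¹) ≠ (x * e' * x⁻¹) * c'} ∈ 𝓝 (1 : S) := by
    refine IsOpen.mem_nhds (isOpen_ne_fun (by fun_prop) (by fun_prop)) ?_
    simp only [Set.mem_ofPred_eq, one_mul, inv_one, mul_one, c', e', ← map_mul]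
    intro h
    apply e2
    have := congrArg Subtype.val (hf h)
    simpa [gc, ge] using this
  obtain ⟨n0, hn0⟩ := hU.mem_iff.1 hO
  choose n hn using fun s => exists_mem_compactCovering (f (g s))
  obtain ⟨j, hj0, hj⟩ : ∃ j, n0 ≤ j ∧ ∀ s, n s ≤ j :=
    ⟨max n0 (Finset.univ.sup n), le_max_left _ _,
      fun s => (Finset.le_sup (f := n) (Finset.mem_univ s)).trans (le_max_right _ _)⟩
  have hC : ∀ s, f (g s) ∈ C j := fun s => compactCovering_subset S (hj s) (hn s)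
  have hw : ∀ s, (wd j (g (Sum.inr 0)) (g (Sum.inl s)) (g (Sum.inr 1))).1 = ι j (gen j s) := by
    intro s
    rw [e1]; simp [wd, ga, gz, gb]
  have hm : ∀ i (hi : i < m j), ι j (ψ j ⟨i, hi⟩) ∈ L.range := by
    intro i
    induction i with
    | zero =>
      intro hi
      rw [show (⟨0, hi⟩ : Fin (m j)) = r j from Fin.ext (c0 j).symm, c2, map_one]
      exact one_mem _
    | succ i ih =>
      intro hi
      obtain ⟨s, hs⟩ := c3 j false ⟨i, by omega⟩ ⟨i + 1, hi⟩ (by simp [Rl])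
      rw [hs, map_mul, ← hw]
      exact mul_mem (ih _) (Subtype.prop _)
  let x : Fin (m j) → L.range := fun v => ⟨ι j (ψ j v), hm v.1 v.2⟩
  refine c4 j ⟨fun v => f (x v), ?_, ?_, ?_⟩
  · have : x (r j) = 1 := Subtype.ext (by simp [x, c2])
    simp [this]
  · intro k v u h
    obtain ⟨s, hs⟩ := c3 j k v u h
    have : x u = x v * wd j (g (Sum.inr 0)) (g (Sum.inl s)) (g (Sum.inr 1)) :=
      Subtype.ext (by rw [Subgroup.coe_mul, hw]; simp [x, hs])
    refine Or.inr ⟨(_, _, _), ⟨hC (Sum.inr 0), hC (Sum.inl s), hC (Sum.inr 1)⟩, ?_⟩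
    simp [this, wd]
  · intro u v huv h
    apply hn0 (hU.antitone hj0 h)
    simp only [c', e', ← map_mul, ← map_inv]
    congr 1
    apply Subtype.ext
    have := e3 j ((ψ j u)⁻¹ * ψ j v) (fun t => huv (c1 j (inv_mul_eq_one.1 t)))
    simpa [x, gc, ge] using this

end Pool.Agent.S02722
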