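import Pool.Statements.S02730
import Pool.Agent.H.MP_b0fe5a_al.E

set_option autoImplicit false
open Pool Pool.MP_b0fe5a_al

namespace Pool.Agent.S02730

theorem result :
    ¬ (∀ (G : Type) [Group G] [Finite G],
      (∀ x y : G, Subgroup.zpowers y = Subgroup.zpowers x → IsConj y x ∨ IsConj y x⁻¹) →
      ∀ P : Sylow 3 G,
        ∀ x y : ↥(P : Subgroup G),
          Subgroup.zpowers y = Subgroup.zpowers x → IsConj y x ∨ IsConj y x⁻¹) := by
  intro H
  exact Pool.Agent.H.MP_b0fe5a_al.not_cut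
    (H _ Pool.Agent.H.MP_b0fe5a_al.cut Pool.Agent.H.MP_b0fe5a_al.SP)

end Pool.Agent.S02730
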