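import Pool.Statements.S02738
import Pool.Agent.H.MP_b1d060_al.D

set_option autoImplicit false
open Filter
open Pool Pool.MP_b1d060_al

namespace Pool.Agent.S02738

theorem result :
    ¬ (∀ (n : ℕ), 3 < n → ∀ (G : Type) [Group G] (S : Finset G),
      Subgroup.closure (S : Set G) = ⊤ →
      ∀ Γ : SimpleGraph G, Γ = SimpleGraph.fromRel (fun g h : G => g⁻¹ * h ∈ S) →
      (¬ ∀ r : ℕ, ∃ (ι : Type) (U : ι → Set G) (D : ℕ),
          (∀ x : G, ∃ i, x ∈ U i) ∧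
          (∀ i, ∀ x ∈ U i, ∀ y ∈ U i, Γ.dist x y ≤ D) ∧
          ∀ x : G, {i : ι | ∃ y ∈ U i, Γ.dist x y ≤ r}.encard ≤ (n : ℕ∞)) →
      (∃ f : (Fin (n - 2) → ℤ) → G,
          (∃ ρ : ℕ → ℕ, ∀ a b, Γ.dist (f a) (f b) ≤ ρ (∑ i, |a i - b i|).toNat) ∧
          (∃ ρ : ℕ → ℕ, Tendsto ρ atTop atTop ∧
              ∀ a b, ρ (∑ i, |a i - b i|).toNat ≤ Γ.dist (f a) (f b)) ∧
          (∃ L : ℕ, ∀ D : ℕ, ∃ x y : G,
              (∀ z, L + D < Γ.dist x (f z)) ∧ (∀ z, L + D < Γ.dist y (f z)) ∧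
              ¬ ∃ p : Γ.Walk x y, ∀ v ∈ p.support, ∀ z, L < Γ.dist v (f z))) →
      ∃ (T : Type) (Γt : SimpleGraph T) (ρ : G →* Equiv.Perm T),
        Γt.IsTree ∧
        (∀ g u v, Γt.Adj u v → Γt.Adj (ρ g u) (ρ g v)) ∧
        (∀ g u v, Γt.Adj u v → ¬ (ρ g u = v ∧ ρ g v = u)) ∧
        (∀ v, ∃ g, ρ g v ≠ v) ∧
        ∀ u v, Γt.Adj u v → ∀ H : Subgroup G, (∀ g, g ∈ H ↔ (ρ g u = u ∧ ρ g v = v)) →
          ∃ K : Subgroup G, K ≤ H ∧ (K.subgroupOf H).index ≠ 0 ∧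
            Nonempty (K ≃* Multiplicative (Fin (n - 2) → ℤ))) := by
  open Pool.Agent.H.MP_ac3292_al Pool.Agent.H.MP_1d7d98_al Pool.Agent.H.MP_b1d060_al in
  intro h
  obtain ⟨S, hS⟩ := (inferInstance : Group.FG T4).out
  have hG := SG_gen S hS
  have N := mkNm S hS
  obtain ⟨M, hd⟩ : ∃ M : Nm GG, ∀ x y, (cay (SG S : Set GG)).dist x y = M.ν (x⁻¹ * y) :=
    ⟨mkNm (SG S) hG, wd_nu hG⟩
  obtain ⟨l, l1, l2, l3, l4⟩ := line N
  let f : (Fin 2 → ℤ) → GG := fun a => (l (a 0), .ofAdd (a 1))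
  have bx : ∀ D, ∃ a, ∀ x y : GG, M.ν (x⁻¹ * y) ≤ D → x.1⁻¹ * y.1 ∈ Bx N a := fun D =>
    let ⟨a, ha⟩ := Bx_ex N ((M.fin D).image Prod.fst)
    ⟨a, fun x y c => ha ⟨_, c, rfl⟩⟩
  have h1 : ¬ ∀ r : ℕ, ∃ (ι : Type) (U : ι → Set GG) (D : ℕ), (∀ x : GG, ∃ i, x ∈ U i) ∧
      (∀ i, ∀ x ∈ U i, ∀ y ∈ U i, (cay (SG S : Set GG)).dist x y ≤ D) ∧
      ∀ x : GG, {i : ι | ∃ y ∈ U i, (cay (SG S : Set GG)).dist x y ≤ r}.encard ≤ ((4 : ℕ) : ℕ∞) := by
    intro h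
    obtain ⟨R, hR⟩ := hi M ((MonoidHom.inl _ _).comp inr) (cur.comp (MonoidHom.fst _ _))
      (fun _ => rfl) (ι := Set GG)
    obtain ⟨ι, U, D, c, hD, d⟩ := h R
    choose j hj using c
    obtain ⟨x, k1, k2⟩ := hR (fun x => U (j x)) D fun x y e =>
      hd x y ▸ hD _ x (hj x) y ((show U (j x) = U (j y) from e) ▸ hj y)
    have := le_trans (five (fun i => j (x i)) (fun a b e => k1 (congrArg U e))
      fun i => by exact ⟨x i, hj _, (hd _ _).trans_le (k2 i)⟩) (d (x none))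
    norm_num at this
  have h2 : ∃ ρ : ℕ → ℕ, ∀ a b, (cay (SG S : Set GG)).dist (f a) (f b) ≤
      ρ (∑ i, |a i - b i|).toNat := by
    obtain ⟨R, hR⟩ := bdd (Bx_fin N 1) fun x => M.ν (x, 1)
    refine ⟨fun n => (R + M.ν (1, .ofAdd 1)) * n, fun a b => ?_⟩
    have c1 := lip M (fun z => (l z, .ofAdd (a 1))) R
      (fun z => by simpa using hR _ (l1 z)) (a 0) (b 0)
    have c2 := lip M (fun z => (l (b 0), .ofAdd z)) (M.ν (1, .ofAdd 1))
      (fun z => by simp [ofAdd_add]) (a 1) (b 1)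
    rw [hd]
    refine (M.tri _ (l (b 0), .ofAdd (a 1)) _).trans ((add_le_add c1 c2).trans ?_)
    dsimp only
    rw [Fin.sum_univ_two, add_mul, Int.abs_eq_natAbs, Int.abs_eq_natAbs]
    gcongr <;> omega
  have h3 : ∃ ρ : ℕ → ℕ, Tendsto ρ atTop atTop ∧
      ∀ a b, ρ (∑ i, |a i - b i|).toNat ≤ (cay (SG S : Set GG)).dist (f a) (f b) := by
    have : ∀ D, ∃ E, ∀ a b, M.ν ((f a)⁻¹ * f b) ≤ D → (∑ i, |a i - b i|).toNat ≤ E := fun D => by
      obtain ⟨a, ha⟩ := bx D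
      obtain ⟨E, hE⟩ := l2 a
      obtain ⟨F, hF⟩ := bdd (M.fin D) fun x => x.2.toAdd.natAbs
      refine ⟨E + F, fun x y c => ?_⟩
      have c1 := hE (x 0) (y 0) (ha (f x) (f y) c)
      have c2 : (-x 1 + y 1).natAbs ≤ F := hF ((f x)⁻¹ * f y) c
      rw [Fin.sum_univ_two, Int.abs_eq_natAbs, Int.abs_eq_natAbs]
      omega
    choose E hE using this
    refine ⟨fun n => Nat.findGreatest (fun D => E D < n) n, tendsto_atTop.2 fun D =>
      (eventually_ge_atTop (D + E D + 1)).mono fun n c =>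
        Nat.le_findGreatest (by omega) (by omega), fun a b => ?_⟩
    rw [hd]
    refine not_lt.1 fun c => ?_
    exact not_lt.2 (hE _ a b c.le)
      (Nat.findGreatest_of_ne_zero (P := fun D => E D < _) rfl (Nat.ne_zero_of_lt c))
  have h4 : ∃ L : ℕ, ∀ D : ℕ, ∃ x y : GG,
      (∀ z, L + D < (cay (SG S : Set GG)).dist x (f z)) ∧
      (∀ z, L + D < (cay (SG S : Set GG)).dist y (f z)) ∧
      ¬ ∃ p : (cay (SG S : Set GG)).Walk x y, ∀ v ∈ p.support, ∀ z,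
        L < (cay (SG S : Set GG)).dist v (f z) := by
    refine ⟨0, fun D => ?_⟩
    obtain ⟨a, ha⟩ := bx (0 + D)
    obtain ⟨u, hu⟩ := N.big (a + 6)
    have k : ∀ c : T4 →₀ ZMod 2, (∀ p, N.ν p = 1 → c p = 0) → ∀ z,
        0 + D < (cay (SG S : Set GG)).dist (⟨c, u⟩, 1) (f z) := fun c hc z => by
      rw [hd]
      refine not_le.1 fun d => ?_
      obtain ⟨d1, d2⟩ := (Bx_iff ..).1 (ha _ _ d)
      change N.ν (u⁻¹ * (l (z 0)).u) ≤ a at d1
      rcases l4 (z 0) with e | ⟨p, e1, e2⟩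
      · have := vis N u (l (z 0)).u
        omega
      · have := vis N u p
        have := d2 p (by dsimp only; omega)
        rw [show (f z).1.f p = 1 from e2, hc p e1] at this
        exact zero_ne_one this
    refine ⟨(⟨0, u⟩, 1), (⟨Finsupp.single 1 1, u⟩, 1), k _ fun _ _ => rfl,
      k _ fun p c => Finsupp.single_eq_of_ne ?_, fun ⟨p, c⟩ => ?_⟩
    · rintro rfl
      simp [N.one] at c
    have key : ∀ (x y : GG) (p : (cay (SG S : Set GG)).Walk x y),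
        (∀ v ∈ p.support, v.1.u ≠ 1) → x.1.f 1 = y.1.f 1 := fun x y p c => by
      induction p with
      | nil => rfl
      | cons e p ih =>
        exact (SG_st (adj_st e) (c _ (by simp)) (c _ (by simp))).trans
          (ih fun v d => c v (by simp [d]))
    simpa using key _ _ p fun v d e => by
      obtain ⟨z, hz⟩ := l3 v.1.f
      have := c v d ![z, v.2.toAdd]
      rw [show f ![z, v.2.toAdd] = v from Prod.ext (hz.trans (W.ext rfl e.symm)) rfl] at this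
      simp at this
  obtain ⟨T, Γ, ρ, t1, -, -, t2, t3⟩ := h 4 (by norm_num) GG (SG S) hG
    (cay (SG S : Set GG)) rfl h1 ⟨f, h2, h3, h4⟩
  obtain ⟨v⟩ := t1.connected.nonempty
  obtain ⟨g, hg⟩ := t2 v
  obtain ⟨p⟩ := t1.connected.preconnected (ρ g v) v
  obtain ⟨w, hw⟩ : ∃ w, Γ.Adj (ρ g v) w := by
    generalize ρ g v = u at p hg
    cases p with
    | nil => exact absurd rfl hg
    | cons e _ => exact ⟨_, e⟩
  obtain ⟨K, -, -, ⟨e⟩⟩ := t3 _ _ hw ((MulAction.stabilizer _ _).comap ρ ⊓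
    (MulAction.stabilizer _ _).comap ρ) fun _ => Iff.rfl
  exact noZ2 K e

end Pool.Agent.S02738
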