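import Pool.Statements.S02743
import Pool.Agent.H.MP_b21f3c_al.D

set_option autoImplicit false
open Pool Pool.MP_b21f3c_al

namespace Pool.Agent.S02743

theorem result :
    ∀ (U : (G : Type) → [Group G] → Prop),
      (∀ (G : Type) [Group G], U G ↔
        ∃ (n : ℕ) (s : Fin (n + 1) → Subgroup G), s 0 = ⊥ ∧ s (Fin.last n) = ⊤ ∧
          (∀ i, (s i).Normal) ∧
          ∀ i : Fin n, s i.castSucc ≤ s i.succ ∧
            ∃ g ∈ s i.succ, ∀ x ∈ s i.succ, ∃ k : ℤ, x * (g ^ k)⁻¹ ∈ s i.castSucc) →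
      ∀ (Mem : ((G : Type) → [Group G] → Prop) → Prop),
        (∀ H : (G : Type) → [Group G] → Prop, Mem H ↔
          ((∀ (G G' : Type) [Group G] [Group G'], Finite G → Nonempty (G ≃* G') → H G → H G') ∧
           (∀ (G : Type) [Group G] [Finite G] (N : Subgroup G) [N.Normal], H G → H (G ⧸ N)) ∧
           (∀ (G : Type) [Group G] [Finite G] (N₁ N₂ : Subgroup G) [N₁.Normal] [N₂.Normal],
              N₁ ⊓ N₂ = ⊥ → H (G ⧸ N₁) → H (G ⧸ N₂) → H G) ∧
           (∀ (G : Type) [Group G] [Finite G] (K : Subgroup G), H G → H ↥K) ∧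
           (∀ (G : Type) [Group G] [Finite G], H (G ⧸ frattini G) → H G) ∧
           (∀ (G : Type) [Group G] [Finite G], U G → H G) ∧
           (∀ (G : Type) [Group G] [Finite G], H G → ∀ A B : Subgroup G, A.Normal → B.Normal →
              U ↥A → U ↥B → U ↥(A ⊔ B)))) →
        ∃ H : (G : Type) → [Group G] → Prop, Mem H ∧
          ∀ H' : (G : Type) → [Group G] → Prop, Mem H' →
            ∀ (G : Type) [Group G] [Finite G], H' G → H G := by
  intro U hU Mem hM
  have hss : ∀ (G : Type) [Group G] [Finite G], U G ↔ H.MP_b21f3c_al.SS G := fun G _ _ =>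
    (hU G).trans ⟨H.MP_b21f3c_al.Ser.ss, fun h => h.ser ⊥ inferInstance⟩
  refine ⟨H.MP_b21f3c_al.H0, (hM _).2 ⟨fun G G' _ _ _ ⟨e⟩ h => h.inj e.symm.toMonoidHom e.symm.injective,
    fun G _ _ N _ h => h.img _ (QuotientGroup.mk'_surjective N),
    fun G _ _ N₁ N₂ _ _ => H.MP_b21f3c_al.H0.rz N₁ N₂,
    fun G _ _ K h => h.inj K.subtype K.subtype_injective, fun G _ _ h => h.sat,
    fun G _ _ h => ((hss G).1 h).h0, fun G _ _ h A B hA hB sA sB => (hss _).2 ?_⟩, ?_⟩
  · refine H.MP_b21f3c_al.rad (h.inj (A ⊔ B).subtype (A ⊔ B).subtype_injective)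
      (hA.subgroupOf (A ⊔ B)) (hB.subgroupOf (A ⊔ B)) ?_ ?_ ?_
    · exact ((hss _).1 sA).img (Subgroup.subgroupOfEquivOfLe le_sup_left).symm.toMonoidHom
        (MulEquiv.surjective _)
    · exact ((hss _).1 sB).img (Subgroup.subgroupOfEquivOfLe le_sup_right).symm.toMonoidHom
        (MulEquiv.surjective _)
    · rw [← Subgroup.subgroupOf_sup le_sup_left le_sup_right, Subgroup.subgroupOf_self]
  · intro F hF G _ _ hG
    obtain ⟨h1, h2, h3, h4, h5, -, h7⟩ := (hM F).1 hF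
    exact H.MP_b21f3c_al.mx ⟨fun G H _ _ _ => h1 G H inferInstance, h2, h3, h5⟩ h4
      (fun G _ _ h A B hA hB sA sB => (hss _).1 (h7 G h A B hA hB ((hss _).2 sA) ((hss _).2 sB))) hG

end Pool.Agent.S02743
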