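import Pool.Statements.S02745
import Pool.Agent.H.MP_b2231e_al.Main

set_option autoImplicit false
open Pool Pool.MP_b2231e_al

namespace Pool.Agent.S02745

theorem result :
  ∀ (G : Type) [Group G],
    (∀ g : G, {h : G | IsConj g h}.Finite) →
    (∃ (ι : Type) (F : ι → Type) (inst : ∀ i, Group (F i)) (_ : ∀ i, Finite (F i))
        (f : ↥(commutator G) →* ((i : ι) → F i)),
        Function.Injective f ∧ ∀ x, {i : ι | f x i ≠ 1}.Finite) →
    (∃ (ι : Type) (F : ι → Type) (inst : ∀ i, Group (F i)) (_ : ∀ i, Finite (F i))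
        (f : (G ⧸ Subgroup.center G) →* ((i : ι) → F i)),
        Function.Injective f ∧ ∀ x, {i : ι | f x i ≠ 1}.Finite) := by
  rintro G _ hFC ⟨ι, F, _, _, f, hf, hfin⟩
  exact (Pool.Agent.H.MP_b2231e_al.thmB hFC f hf hfin).emb

end Pool.Agent.S02745
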