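import Pool.Statements.S02756
import Pool.Agent.H.MP_b29e0e_al.A

set_option autoImplicit false
open Pool Pool.MP_b29e0e_al

namespace Pool.Agent.S02756

theorem result :
    ¬ (∀ (K : Type) [Field K] [IsAlgClosed K] (V : Type) [AddCommGroup V] [Module K V]
      [FiniteDimensional K V] (A As : Module.End K V) (q : K),
      q ≠ 0 → (∀ n : ℕ, 0 < n → q ^ n ≠ 1) →
      Nontrivial V →
      (∃ d : ℕ, ∃ θ : Fin (d + 1) → K, Function.Injective θ ∧
        (∀ i, Module.End.eigenspace A (θ i) ≠ ⊥) ∧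
        (⨆ i, Module.End.eigenspace A (θ i)) = ⊤ ∧
        ∀ i : Fin (d + 1), Submodule.map As (Module.End.eigenspace A (θ i)) ≤
          ⨆ (j : Fin (d + 1)) (_ : (j : ℕ) ≤ (i : ℕ) + 1 ∧ (i : ℕ) ≤ (j : ℕ) + 1),
            Module.End.eigenspace A (θ j)) →
      (∃ d : ℕ, ∃ θ : Fin (d + 1) → K, Function.Injective θ ∧
        (∀ i, Module.End.eigenspace As (θ i) ≠ ⊥) ∧
        (⨆ i, Module.End.eigenspace As (θ i)) = ⊤ ∧
        ∀ i : Fin (d + 1), Submodule.map A (Module.End.eigenspace As (θ i)) ≤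
          ⨆ (j : Fin (d + 1)) (_ : (j : ℕ) ≤ (i : ℕ) + 1 ∧ (i : ℕ) ≤ (j : ℕ) + 1),
            Module.End.eigenspace As (θ j)) →
      (∀ W : Submodule K V, (∀ v ∈ W, A v ∈ W) → (∀ v ∈ W, As v ∈ W) → W = ⊥ ∨ W = ⊤) →
      (∃ γ γs ϱ ϱs : K,
        A * (A ^ 2 * As - (q ^ 2 + q⁻¹ ^ 2) • (A * As * A) + As * A ^ 2
              - γ • (A * As + As * A) - ϱ • As)
          = (A ^ 2 * As - (q ^ 2 + q⁻¹ ^ 2) • (A * As * A) + As * A ^ 2
              - γ • (A * As + As * A) - ϱ • As) * A ∧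
        As * (As ^ 2 * A - (q ^ 2 + q⁻¹ ^ 2) • (As * A * As) + A * As ^ 2
              - γs • (A * As + As * A) - ϱs • A)
          = (As ^ 2 * A - (q ^ 2 + q⁻¹ ^ 2) • (As * A * As) + A * As ^ 2
              - γs • (A * As + As * A) - ϱs • A) * As) →
      ∃ X : ZMod 4 → ZMod 4 → Module.End K V,
        (∀ i j : ZMod 4, j - i = 2 → X i j * X j i = 1) ∧
        (∀ i j k : ZMod 4,
          ((j - i = 1 ∧ k - j = 1) ∨ (j - i = 1 ∧ k - j = 2) ∨ (j - i = 2 ∧ k - j = 1)) →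
          q • (X i j * X j k) - q⁻¹ • (X j k * X i j) = (q - q⁻¹) • (1 : Module.End K V)) ∧
        (∀ i j k l : ZMod 4, j - i = 1 → k - j = 1 → l - k = 1 →
          X i j ^ 3 * X k l - (q ^ 2 + 1 + q⁻¹ ^ 2) • (X i j ^ 2 * X k l * X i j)
            + (q ^ 2 + 1 + q⁻¹ ^ 2) • (X i j * X k l * X i j ^ 2) - X k l * X i j ^ 3 = 0) ∧
        (∀ W : Submodule K V,
          (∀ i j : ZMod 4, (j - i = 1 ∨ j - i = 2) → ∀ v ∈ W, X i j v ∈ W) →
          W = ⊥ ∨ W = ⊤) ∧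
        (∃ a b c : K, A = a • X 0 1 + b • X 1 2 + c • (1 : Module.End K V)) ∧
        (∃ a b c : K, As = a • X 2 3 + b • X 3 0 + c • (1 : Module.End K V))) := by
  intro H
  have hq : ((2 : ℂ) ^ 2 + (2 : ℂ)⁻¹ ^ 2) = ((17 / 4 : ℚ) : ℂ) := by norm_num
  let f := Pool.Agent.Lib.helper12.Idem.fK ℂ 4
  let A0 := Pool.Agent.H.MP_b29e0e_al.A0
  let B0 := Pool.Agent.H.MP_b29e0e_al.B0
  have okA := Pool.Agent.H.MP_b29e0e_al.okA
  have okB := Pool.Agent.H.MP_b29e0e_al.okB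
  have r1 := congrArg f Pool.Agent.H.MP_b29e0e_al.r1
  have r2 := congrArg f Pool.Agent.H.MP_b29e0e_al.r2
  simp only [f, map_add, map_sub, map_mul, map_pow, map_zero, map_one,
    Pool.Agent.Lib.helper12.Idem.fK_smul] at r1 r2
  obtain ⟨X, -, hW, hS, -, ⟨a, b, c, hA⟩, ⟨a', b', c', hB⟩⟩ :=
    H ℂ (Fin 4 → ℂ) (f A0) (f B0) 2 two_ne_zero
      (fun n hn h => by
        have h2 : (2 : ℕ) ^ n = 1 := by exact_mod_cast h
        have := Nat.one_lt_two_pow hn.ne'
        omega)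
      inferInstance
      ⟨3, fun i => (Pool.Agent.H.MP_b29e0e_al.θ i : ℂ), Pool.Agent.Lib.helper12.Idem.inj ℂ okA,
        Pool.Agent.Lib.helper12.Idem.ne_bot ℂ okA, Pool.Agent.Lib.helper12.Idem.sup_top ℂ okA,
        fun i => by
          rw [Pool.Agent.Lib.helper12.Idem.single_eq ℂ i]
          refine Pool.Agent.Lib.helper12.Idem.map_le ℂ okA okA _ _ _ ?_
          revert i; decide +kernel⟩
      ⟨3, fun i => (Pool.Agent.H.MP_b29e0e_al.φ i : ℂ), Pool.Agent.Lib.helper12.Idem.inj ℂ okB,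
        Pool.Agent.Lib.helper12.Idem.ne_bot ℂ okB, Pool.Agent.Lib.helper12.Idem.sup_top ℂ okB,
        fun i => by
          rw [Pool.Agent.Lib.helper12.Idem.single_eq ℂ i]
          refine Pool.Agent.Lib.helper12.Idem.map_le ℂ okB okB _ _ _ ?_
          revert i; decide +kernel⟩
      (Pool.Agent.H.MP_b29e0e_al.irr)
      ⟨0, 0, 0, ((100 : ℚ) : ℂ), by
        rw [hq]
        simp only [zero_smul, sub_zero]
        rw [r1, r2]
        simp⟩
  let g := LinearMap.toMatrixAlgEquiv' (R := ℂ) (n := Fin 4)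
  have gf : ∀ M, g (f M) = M.map (algebraMap ℚ ℂ) := fun M =>
    g.apply_symm_apply (M.map (algebraMap ℚ ℂ))
  have w : ∀ i j k : ZMod 4, j - i = 1 → k - j = 1 →
      Pool.Agent.H.MP_b29e0e_al.Wy ℂ (g (X i j)) (g (X j k)) := fun i j k h1 h2 => by
    have := congrArg g (hW i j k (Or.inl ⟨h1, h2⟩))
    simp only [map_sub, map_smul, map_mul, map_one] at this
    unfold Pool.Agent.H.MP_b29e0e_al.Wy
    linear_combination (norm := module) (2 : ℂ) • this
  have s : ∀ i j k l : ZMod 4, j - i = 1 → k - j = 1 → l - k = 1 →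
      Pool.Agent.H.MP_b29e0e_al.T (0 : ℂ) (g (X i j)) (g (X k l)) = 0 := fun i j k l h1 h2 h3 => by
    have := congrArg g (hS i j k l h1 h2 h3)
    simp only [map_sub, map_add, map_smul, map_mul, map_zero, pow_succ, pow_zero, one_mul,
      mul_assoc] at this
    unfold Pool.Agent.H.MP_b29e0e_al.T
    simp only [mul_assoc]
    linear_combination (norm := module) (16 : ℂ) • this
  have hA' := congrArg g hA
  have hB' := congrArg g hB
  simp only [gf, map_add, map_smul, map_one] at hA' hB'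
  exact Pool.Agent.H.MP_b29e0e_al.final _ _ _ _ (w 0 1 2 (by decide) (by decide))
    (w 1 2 3 (by decide) (by decide)) (w 2 3 0 (by decide) (by decide))
    (w 3 0 1 (by decide) (by decide)) (s 0 1 2 3 (by decide) (by decide) (by decide))
    (s 1 2 3 0 (by decide) (by decide) (by decide)) a b c a' b' c' hA' hB'

end Pool.Agent.S02756
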