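import Pool.Statements.S02766
import Pool.Agent.H.MP_b39e30_al.A

set_option autoImplicit false
open Pool Pool.MP_b39e30_al

namespace Pool.Agent.S02766

theorem result :
    ¬ (∀ (G : Type) [Group G],
      (∃ S : Ordinal.{0} → Subgroup G,
        Monotone S ∧
        (∀ α : Ordinal.{0}, ∀ g : G, g ∈ S α →
          g = 1 ∨ ∃ β : Ordinal.{0}, β < α ∧ g ∈ S (Order.succ β)) ∧
        (∀ α : Ordinal.{0}, ∀ a : G, a ∈ S (Order.succ α) →
          ∀ b : G, b ∈ S α → a * b * a⁻¹ ∈ S α) ∧
        (∀ α : Ordinal.{0}, ∀ F : Set G, F.Finite →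
          F ⊆ (S (Order.succ α) : Set G) →
          ∃ n : ℕ, ∀ h0 : G, h0 ∈ Subgroup.closure F →
            ∀ hs : List G, hs.length = n →
              (∀ b : G, b ∈ hs → b ∈ Subgroup.closure F) →
                hs.foldl (fun a b : G => a⁻¹ * b⁻¹ * a * b) h0 ∈ S α) ∧
        (∃ β : Ordinal.{0}, S β = ⊤)) →
      ∀ x : G,
        (∃ n : ℕ, ∀ g : G, (fun y : G => y⁻¹ * x⁻¹ * y * x)^[n] g = 1) ↔
          x ∈ Subgroup.closure
            {y : G | ∃ n : ℕ, ∃ K : ℕ → Subgroup G,
              K 0 = Subgroup.zpowers y ∧ K n = ⊤ ∧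
              ∀ i : ℕ, i < n → (K i ≤ K (i + 1) ∧
                ∀ a : G, a ∈ K (i + 1) → ∀ b : G, b ∈ K i → a * b * a⁻¹ ∈ K i)}) := by
  open Pool.Agent.H.MP_a1472e_al Pool.Agent.H.MP_b39e30_al in
  intro h
  classical
  have h1 := (h GG ⟨fun α => if α = 0 then ⊥ else ⊤, ?_, ?_, ?_, ?_, 1, by simp⟩ x0).1
    ⟨74, fun g => eng sq g x0⟩
  · refine x0_not ((Subgroup.closure_le ((KJ II).comap (GJ II).subtype)).2 ?_ h1)
    rintro g ⟨n, K, h0, h1, h2⟩
    exact subn h0 h1 h2
  · intro a b e
    by_cases ha : a = 0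
    · simp [ha]
    · have : b ≠ 0 := fun hb => ha (le_zero_iff.1 (hb ▸ e))
      simp [ha, this]
  · intro α g hg
    by_cases ha : α = 0
    · left; simpa [ha] using hg
    · exact Or.inr ⟨0, pos_iff_ne_zero.2 ha, by simp⟩
  · intro α a _ b hb
    by_cases ha : α = 0
    · simp_all
    · simp [ha]
  · intro α F hF _
    obtain ⟨c, hc⟩ := good F hF (Set.subset_univ _)
    refine ⟨c, fun g hg l hl hm => ?_⟩
    have : ∀ (l : List GG) k g, g ∈ (Subgroup.closure F).lowerCentralSeries k →
        (∀ b ∈ l, b ∈ Subgroup.closure F) → l.foldl (fun a b : GG => a⁻¹ * b⁻¹ * a * b) g ∈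
          (Subgroup.closure F).lowerCentralSeries (k + l.length) := by
      intro l
      induction l with
      | nil => exact fun k g h _ => h
      | cons b l ih =>
        intro k g h hb
        rw [List.foldl_cons, List.length_cons, add_comm l.length, ← add_assoc]
        refine ih _ _ ?_ fun c hc => hb c (by simp [hc])
        simpa [commutatorElement_def] using
          Subgroup.commutator_mem_commutator (inv_mem h) (inv_mem (hb b (by simp)))
    have := this l 0 g hg hm
    rw [zero_add, hl, hc] at this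
    rw [Subgroup.mem_bot.1 this]
    exact one_mem _

end Pool.Agent.S02766
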