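import Pool.Statements.S02774

set_option autoImplicit false
open Pool Pool.MP_b442e4_al

namespace Pool.Agent.S02774
noncomputable section

/-- laws of the variety generated by the symmetric group of degree three -/
def laws : Set (FreeGroup ℕ) :=
  {(FreeGroup.of 0) ^ 6,
   (FreeGroup.of 0) ^ 2 * (FreeGroup.of 1) ^ 2 * ((FreeGroup.of 1) ^ 2 * (FreeGroup.of 0) ^ 2)⁻¹}

theorem laws_iff (A : Type) [Group A] :
    (∀ w ∈ laws, ∀ f : ℕ → A, FreeGroup.lift f w = 1) ↔
      (∀ x : A, x ^ 6 = 1) ∧ (∀ x y : A, x ^ 2 * y ^ 2 = y ^ 2 * x ^ 2) := by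
  constructor
  · intro h
    constructor
    · intro x
      have := h _ (Set.mem_insert _ _) (fun _ => x)
      simpa using this
    · intro x y
      have := h _ (Set.mem_insert_of_mem _ rfl) (fun n => if n = 0 then x else y)
      simp only [map_mul, map_pow, map_inv, FreeGroup.lift_apply_of] at this
      rw [mul_inv_eq_one] at this
      simpa using this
  · rintro ⟨h1, h2⟩ w hw f
    rcases hw with rfl | rfl
    · simp [h1]
    · simp only [map_mul, map_pow, map_inv, FreeGroup.lift_apply_of]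
      rw [mul_inv_eq_one]; exact h2 _ _

abbrev V := ℝ →₀ ZMod 3

@[ext] structure P where
  v : V
  u : ℤˣ

instance : Mul P := ⟨fun a b => ⟨a.v + a.u • b.v, a.u * b.u⟩⟩
instance : One P := ⟨⟨0, 1⟩⟩
instance : Inv P := ⟨fun a => ⟨-(a.u • a.v), a.u⟩⟩

@[simp] theorem mul_v (a b : P) : (a * b).v = a.v + a.u • b.v := rfl
@[simp] theorem mul_u (a b : P) : (a * b).u = a.u * b.u := rfl
@[simp] theorem one_v : (1 : P).v = 0 := rfl
@[simp] theorem one_u : (1 : P).u = 1 := rfl
@[simp] theorem inv_v (a : P) : (a⁻¹).v = -(a.u • a.v) := rfl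
@[simp] theorem inv_u (a : P) : (a⁻¹).u = a.u := rfl

instance : Group P := Group.ofLeftAxioms
  (by intro a b c; ext1 <;> simp [mul_smul, add_assoc, mul_assoc])
  (by intro a; ext1 <;> simp)
  (by intro a; ext1 <;> simp)

theorem V3 (v : V) : v + v + v = 0 := by
  ext r
  simp only [Finsupp.add_apply, Finsupp.zero_apply]
  generalize v r = x
  revert x; decide

def sgn : P →* ℤˣ where
  toFun a := a.u
  map_one' := rfl
  map_mul' _ _ := rfl

def t : P := ⟨0, -1⟩
def inl (v : V) : P := ⟨v, 1⟩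

theorem inl_add (v w : V) : inl (v + w) = inl v * inl w := by
  ext1 <;> simp [inl]
theorem inl_zero : inl 0 = 1 := rfl
theorem t_sq : t * t = 1 := by ext1 <;> simp [t]
theorem t_inl (v : V) : t * inl v = (inl v)⁻¹ * t := by ext1 <;> simp [t, inl]
theorem inl_cube (v : V) : inl v * inl v * inl v = 1 := by
  rw [← inl_add, ← inl_add, V3, inl_zero]
theorem P_cases (a : P) : a = inl a.v ∨ a = inl a.v * t := by
  rcases Int.units_eq_one_or a.u with h | h
  · left; ext1 <;> simp [inl, h]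
  · right; ext1 <;> simp [inl, t, h]

theorem P_laws : (∀ x : P, x ^ 6 = 1) ∧ (∀ x y : P, x ^ 2 * y ^ 2 = y ^ 2 * x ^ 2) := by
  have key : ∀ x : P, ∃ v, x ^ 2 = inl v := by
    intro x
    refine ⟨(x ^ 2).v, ?_⟩
    ext1
    · simp [inl]
    · simp [inl, pow_two]
  constructor
  · intro x
    obtain ⟨v, hv⟩ := key x
    have : x ^ 6 = x ^ 2 * x ^ 2 * x ^ 2 := by group
    rw [this, hv, inl_cube]
  · intro x y
    obtain ⟨v, hv⟩ := key x
    obtain ⟨w, hw⟩ := key y
    rw [hv, hw, ← inl_add, ← inl_add, add_comm]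

section proj
variable {A : Type} [Group A] (h6 : ∀ x : A, x ^ 6 = 1)
  (h2 : ∀ x y : A, x ^ 2 * y ^ 2 = y ^ 2 * x ^ 2)
include h2

theorem comm3 {a b : A} (ha : a ^ 3 = 1) (hb : b ^ 3 = 1) : a * b = b * a := by
  have e : ∀ c : A, c ^ 3 = 1 → c = (c ^ 2) ^ 2 := by
    intro c hc
    calc c = c ^ 3 * c := by rw [hc, one_mul]
      _ = (c ^ 2) ^ 2 := by group
  rw [e a ha, e b hb]
  exact h2 _ _

/-- elements of order dividing three inverted by `τ` -/
def M (τ : A) : Subgroup A where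
  carrier := {a | a ^ 3 = 1 ∧ τ * a = a⁻¹ * τ}
  one_mem' := by simp
  mul_mem' := by
    rintro a b ⟨ha, ha'⟩ ⟨hb, hb'⟩
    have c : Commute a b := comm3 h2 ha hb
    refine ⟨by rw [c.mul_pow, ha, hb, one_mul], ?_⟩
    rw [← mul_assoc, ha', mul_assoc, hb', c.eq, mul_inv_rev, mul_assoc]
  inv_mem' := by
    rintro a ⟨ha, ha'⟩
    refine ⟨by rw [inv_pow, ha, inv_one], ?_⟩
    have : τ = a * (τ * a) := by rw [ha']; group
    calc τ * a⁻¹ = a * (τ * a) * a⁻¹ := by rw [← this]
      _ = a⁻¹⁻¹ * τ := by group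

instance Mcomm (τ : A) : CommGroup (M h2 τ) :=
  { (inferInstance : Group (M h2 τ)) with
    mul_comm := fun a b => Subtype.ext (comm3 h2 a.2.1 b.2.1) }

include h6 in
theorem proj {B : Type} [Group B] (π : A →* B) (hπ : Function.Surjective π) (φ : P →* B) :
    ∃ ψ : P →* A, π.comp ψ = φ := by
  obtain ⟨g, hg⟩ := hπ (φ t)
  set τ := g ^ 3 with hτ
  have hττ : τ * τ = 1 := by rw [hτ, ← pow_add]; exact h6 g
  have hφt : φ t * φ t = 1 := by rw [← map_mul, t_sq, map_one]
  have hπτ : π τ = φ t := by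
    rw [hτ, map_pow, hg, pow_succ, pow_two, hφt, one_mul]
  have lift1 : ∀ v : V, ∃ c : M h2 τ, π c = φ (inl v) := by
    intro v
    obtain ⟨x, hx⟩ := hπ (φ (inl v))
    have hb3 : φ (inl v) * φ (inl v) * φ (inl v) = 1 := by
      rw [← map_mul, ← map_mul, inl_cube, map_one]
    have hbt : φ t * φ (inl v) = (φ (inl v))⁻¹ * φ t := by
      rw [← map_mul, t_inl, map_mul, map_inv]
    set b := φ (inl v)
    set a := x ^ 2 with ha
    have ha3 : a ^ 3 = 1 := by rw [ha, ← pow_mul]; exact h6 x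
    have hτi : τ⁻¹ = τ := inv_eq_of_mul_eq_one_right hττ
    set a' := τ * a⁻¹ * τ with ha'
    have ha'3 : a' ^ 3 = 1 := by
      have : a' = τ * a⁻¹ * τ⁻¹ := by rw [hτi]
      rw [this, conj_pow, inv_pow, ha3]; group
    have c : Commute a a' := comm3 h2 ha3 ha'3
    refine ⟨⟨a * a', by rw [c.mul_pow, ha3, ha'3, one_mul], ?_⟩, ?_⟩
    · rw [mul_inv_rev, ha', mul_inv_rev, mul_inv_rev, hτi, inv_inv]
      have c' := c.eq
      rw [ha'] at c'
      calc τ * (a * (τ * a⁻¹ * τ)) = τ * (a * τ) * a⁻¹ * τ := by group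
        _ = τ * (a * τ) * a⁻¹ * τ := rfl
    · show π (a * a') = b
      rw [ha', ha]
      simp only [map_mul, map_inv, map_pow, hx, hπτ]
      have hb2 : (b ^ 2)⁻¹ = b := by
        rw [pow_two]; exact inv_eq_of_mul_eq_one_right hb3
      rw [hb2, hbt, mul_assoc b⁻¹, hφt]
      group
  choose c hc using lift1
  have c3 : ∀ r : ℝ, (zmultiplesHom (Additive (M h2 τ)) (Additive.ofMul (c (Finsupp.single r 1)))) (3 : ℕ) = 0 := by
    intro r
    have := (c (Finsupp.single r 1)).2.1
    simp only [zmultiplesHom_apply, natCast_zsmul]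
    rw [← ofMul_pow]
    congr 1
    exact Subtype.ext this
  let L : V →+ Additive (M h2 τ) :=
    Finsupp.liftAddHom (fun r => ZMod.lift 3 ⟨_, c3 r⟩)
  let ℓ : V → A := fun v => (Additive.toMul (L v) : M h2 τ)
  have ℓadd : ∀ v w, ℓ (v + w) = ℓ v * ℓ w := by
    intro v w; simp [ℓ]
  have ℓneg : ∀ v, ℓ (-v) = (ℓ v)⁻¹ := by
    intro v; simp [ℓ]
  have ℓ0 : ℓ 0 = 1 := by simp [ℓ]
  have ℓτ : ∀ v, τ * ℓ v = (ℓ v)⁻¹ * τ := fun v => (Additive.toMul (L v)).2.2
  have ℓ1 : ∀ r, π (ℓ (Finsupp.single r 1)) = φ (inl (Finsupp.single r 1)) := by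
    intro r
    rw [← hc]
    congr 1
    have : L (Finsupp.single r 1) = Additive.ofMul (c (Finsupp.single r 1)) := by
      simp only [L, Finsupp.liftAddHom_apply_single]
      have := ZMod.lift_coe 3 ⟨_, c3 r⟩ 1
      simpa using this
    simp [ℓ, this]
  have ℓπ : ∀ v, π (ℓ v) = φ (inl v) := by
    intro v
    induction v using Finsupp.induction_linear with
    | zero => rw [ℓ0, inl_zero, map_one, map_one]
    | add v w hv hw => rw [ℓadd, inl_add, map_mul, map_mul, hv, hw]
    | single r k =>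
      have hk : k = 0 ∨ k = 1 ∨ k = 1 + 1 := by revert k; decide
      rcases hk with rfl | rfl | rfl
      · rw [Finsupp.single_zero, ℓ0, inl_zero, map_one, map_one]
      · exact ℓ1 r
      · rw [Finsupp.single_add, ℓadd, inl_add, map_mul, map_mul, ℓ1]
  let ψ : P →* A := MonoidHom.mk' (fun a => ℓ a.v * (if a.u = 1 then 1 else τ)) (by
    intro a b
    have hne : (-1 : ℤˣ) ≠ 1 := by decide
    rcases Int.units_eq_one_or a.u with h | h <;> rcases Int.units_eq_one_or b.u with h' | h'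
    · simp [h, h', ℓadd]
    · simp [h, h', ℓadd, hne, mul_assoc]
    · simp [h, h', ℓadd, hne, mul_assoc, ℓneg, ℓτ]
    · simp only [mul_v, mul_u, h, h', ℓadd, hne, Units.neg_smul, one_smul, ℓneg, if_false,
        mul_neg, mul_one, neg_neg, if_true]
      rw [mul_assoc, ← mul_assoc τ, ℓτ, mul_assoc, hττ, mul_one])
  refine ⟨ψ, ?_⟩
  ext a
  have hne : (-1 : ℤˣ) ≠ 1 := by decide
  have ψt : ψ t = τ := by simp [ψ, t, ℓ0, hne]
  have ψi : ∀ v, ψ (inl v) = ℓ v := by intro v; simp [ψ, inl]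
  rcases P_cases a with h | h
  · rw [h, MonoidHom.comp_apply, ψi, ℓπ]
  · rw [h, MonoidHom.comp_apply, map_mul, map_mul, ψi, ψt, ℓπ, hπτ, map_mul]

end proj

theorem P_uncountable : ¬ Countable P := by
  intro h
  have : Function.Injective (fun r : ℝ => inl (Finsupp.single r 1)) := by
    intro r s hrs
    have : (Finsupp.single r 1 : V) = Finsupp.single s 1 := congrArg P.v hrs
    exact Finsupp.single_left_injective (by decide) this
  have := this.countable
  exact not_countable (α := ℝ) this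

theorem countable_of_closure {H : Type} [Group H] (s : Set H) (hs : s.Countable)
    (h : Subgroup.closure s = ⊤) : Countable H := by
  have := hs.to_subtype
  have hsurj : Function.Surjective (FreeGroup.lift (fun x : s => (x : H))) := by
    rw [FreeGroup.lift_surjective_iff_closure_range_eq_top]
    simpa using h
  exact hsurj.countable

theorem comm_laws (K : Type) [CommGroup K] (h : ∀ x : K, x ^ 6 = 1) :
    ∀ w ∈ laws, ∀ f : ℕ → K, FreeGroup.lift f w = 1 :=
  (laws_iff K).2 ⟨h, fun _ _ => mul_comm _ _⟩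

theorem hom3 (θ : P →* Multiplicative (ZMod 3)) : θ = 1 := by
  have inv : ∀ a : P, a * a = 1 → θ a = 1 := by
    intro a ha
    have : θ a * θ a = 1 := by rw [← map_mul, ha, map_one]
    revert this
    generalize θ a = x
    revert x; decide
  have h1 : θ t = 1 := inv t t_sq
  have h2 : ∀ v, θ (inl v) = 1 := by
    intro v
    have := inv (inl v * t) (by ext1 <;> simp [inl, t])
    rwa [map_mul, h1, mul_one] at this
  ext1 a
  rcases P_cases a with h | h
  · rw [h, h2]; rfl
  · rw [h, map_mul, h1, h2]; rfl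

theorem hom2 (θ : P →* ℤˣ) : θ = 1 ∨ θ = sgn := by
  have h2 : ∀ v, θ (inl v) = 1 := by
    intro v
    have : θ (inl v) * θ (inl v) * θ (inl v) = 1 := by
      rw [← map_mul, ← map_mul, inl_cube, map_one]
    rwa [Int.units_mul_self, one_mul] at this
  rcases Int.units_eq_one_or (θ t) with h1 | h1
  · left
    ext1 a
    rcases P_cases a with h | h
    · rw [h, h2]; rfl
    · rw [h, map_mul, h1, h2]; rfl
  · right
    ext1 a
    rcases P_cases a with h | h
    · rw [h, h2]; rfl
    · rw [h, map_mul, h1, h2, map_mul]; rfl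

theorem result :
    ¬ (∀ (S : Set (FreeGroup ℕ)) (G : Type) [Group G],
    (∀ w ∈ S, ∀ f : ℕ → G, FreeGroup.lift f w = 1) →
    (∀ (A B : Type) [Group A] [Group B],
      (∀ w ∈ S, ∀ f : ℕ → A, FreeGroup.lift f w = 1) →
      (∀ w ∈ S, ∀ f : ℕ → B, FreeGroup.lift f w = 1) →
      ∀ (π : A →* B), Function.Surjective π →
        ∀ (φ : G →* B), ∃ ψ : G →* A, π.comp ψ = φ) →
    ¬ Group.FG G →
    ∃ (I : Type) (H : I → Type) (_ : ∀ i, Group (H i)) (ι : ∀ i, H i →* G),
      (∀ i,
        (∀ w ∈ S, ∀ f : ℕ → H i, FreeGroup.lift f w = 1) ∧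
        (∃ s : Set (H i), s.Countable ∧ Subgroup.closure s = ⊤) ∧
        (∀ (A B : Type) [Group A] [Group B],
          (∀ w ∈ S, ∀ f : ℕ → A, FreeGroup.lift f w = 1) →
          (∀ w ∈ S, ∀ f : ℕ → B, FreeGroup.lift f w = 1) →
          ∀ (π : A →* B), Function.Surjective π →
            ∀ (φ : H i →* B), ∃ ψ : H i →* A, π.comp ψ = φ)) ∧
      (∀ (K : Type) [Group K],
        (∀ w ∈ S, ∀ f : ℕ → K, FreeGroup.lift f w = 1) →
        ∀ g : ∀ i, H i →* K, ∃! θ : G →* K, ∀ i, θ.comp (ι i) = g i)) := by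
  intro h
  have hP := (laws_iff P).2 P_laws
  obtain ⟨I, H, inst, ι, hH, hU⟩ := h laws P hP
    (fun A B _ _ hA _ π hπ φ =>
      proj ((laws_iff A).1 hA).1 ((laws_iff A).1 hA).2 π hπ φ)
    (by
      intro hfg
      obtain ⟨s, hs, hf⟩ := Group.fg_iff.1 hfg
      exact P_uncountable (countable_of_closure s hf.countable hs))
  classical
  have l2 := comm_laws ℤˣ (by decide)
  have l3 := comm_laws (Multiplicative (ZMod 3)) (by decide)
  -- every hom from a factor to a group of the variety extends, killing the other factors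
  have ext1 : ∀ (K : Type) [Group K], (∀ w ∈ laws, ∀ f : ℕ → K, FreeGroup.lift f w = 1) →
      ∀ i (f : H i →* K), ∃ θ : P →* K, θ.comp (ι i) = f ∧ ∀ j, j ≠ i → θ.comp (ι j) = 1 := by
    intro K _ hK i f
    obtain ⟨θ, hθ, -⟩ := hU K hK (Function.update (fun j => (1 : H j →* K)) i f)
    refine ⟨θ, by rw [hθ, Function.update_self], fun j hj => ?_⟩
    rw [hθ, Function.update_of_ne hj]
  have triv : ∀ j, sgn.comp (ι j) = 1 → ι j = 1 := by
    intro j hj
    have hu : ∀ x, (ι j x).u = 1 := fun x => DFunLike.congr_fun hj x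
    ext x r
    · let f : H j →* Multiplicative (ZMod 3) :=
        MonoidHom.mk' (fun y => Multiplicative.ofAdd ((ι j y).v r)) (by
          intro a b
          simp [hu, ofAdd_add])
      obtain ⟨θ, hθ, -⟩ := ext1 _ l3 j f
      rw [hom3 θ] at hθ
      have := DFunLike.congr_fun hθ x
      have h2 : Multiplicative.ofAdd ((ι j x).v r) = 1 := this.symm
      simpa using h2
    · simp [hu]
  by_cases hall : ∀ j, sgn.comp (ι j) = 1
  · obtain ⟨θ, -, hθ⟩ := hU ℤˣ l2 (fun _ => 1)
    have e1 := hθ sgn hall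
    have e2 := hθ 1 (fun _ => rfl)
    have := DFunLike.congr_fun (e1.trans e2.symm) t
    revert this
    show ¬ ((-1 : ℤˣ) = 1)
    decide
  · push Not at hall
    obtain ⟨i, hi⟩ := hall
    obtain ⟨θ, hθ, hθ'⟩ := ext1 _ l2 i (sgn.comp (ι i))
    have hθs : θ = sgn := by
      rcases hom2 θ with h1 | h1
      · exfalso; apply hi; rw [← hθ, h1]; rfl
      · exact h1
    have hj : ∀ j, j ≠ i → ι j = 1 := fun j hj => triv j (hθs ▸ hθ' j hj)
    obtain ⟨η, hη, hη'⟩ := ext1 (H i) (hH i).1 i (MonoidHom.id _)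
    obtain ⟨θ0, -, hθ0⟩ := hU P hP ι
    have e1 := hθ0 (MonoidHom.id P) (fun _ => rfl)
    have e2 := hθ0 ((ι i).comp η) (by
      intro j
      by_cases hji : j = i
      · subst hji; rw [MonoidHom.comp_assoc, hη]; rfl
      · rw [MonoidHom.comp_assoc, hη' j hji, hj j hji]; simp)
    have hsurj : Function.Surjective (ι i) := by
      intro a
      exact ⟨η a, (DFunLike.congr_fun (e2.trans e1.symm) a)⟩
    obtain ⟨s, hs, hs'⟩ := (hH i).2.1
    have := countable_of_closure s hs hs'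
    exact P_uncountable hsurj.countable

end
end Pool.Agent.S02774
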