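import Pool.Statements.S02837
import Pool.Agent.H.MP_b83182_al.Main

set_option autoImplicit false
open scoped TensorProduct
open Pool Pool.MP_b83182_al

namespace Pool.Agent.S02837

theorem result :
    ∃ (L : Type) (_ : LieRing L) (_ : LieAlgebra ℝ L),
      FiniteDimensional ℝ L ∧
      (∃ n : ℕ, LieModule.lowerCentralSeries ℝ L L n = ⊥) ∧
      ∃ k : ℕ, 1 < k ∧
        ∃ (M : Fin k → Type) (_ : ∀ i, LieRing (M i)) (_ : ∀ i, LieAlgebra ℚ (M i)),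
          (∀ i, Nonempty (L ≃ₗ⁅ℝ⁆ ℝ ⊗[ℚ] M i)) ∧
          (∀ i j, Nonempty (M i ≃ₗ⁅ℚ⁆ M j) → i = j) ∧
          ∀ (N : Type) (_ : LieRing N) (_ : LieAlgebra ℚ N),
            Nonempty (L ≃ₗ⁅ℝ⁆ ℝ ⊗[ℚ] N) → ∃ i, Nonempty (N ≃ₗ⁅ℚ⁆ M i) := by
  obtain ⟨k, hk, r, h1, h2, h3⟩ := H.MP_b83182_al.main
  exact ⟨H.MP_b83182_al.L, inferInstance, inferInstance, inferInstance, ⟨3, H.MP_b83182_al.nilp⟩,
    k, hk, fun i => H.MP_b83182_al.M (r i), inferInstance, inferInstance,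
    fun i => H.MP_b83182_al.form (h1 i), h2, h3⟩

end Pool.Agent.S02837
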