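import Pool.Statements.S02845
import Pool.Agent.Lib.helper23.MinF

set_option autoImplicit false
open Pool Pool.MP_b90438_al

namespace Pool.Agent.S02845

open Set Filter Topology Pool.Agent.Lib.helper23.MinB Pool.Agent.Lib.helper23.MinC
  Pool.Agent.Lib.helper23.MinF

theorem result :
  ∀ (G : Type) [Group G] [t : TopologicalSpace G] [IsTopologicalGroup G] [T2Space G]
    [LocallyCompactSpace G],
    (∀ (H : Subgroup G) (τ : TopologicalSpace H),
        TopologicalSpace.induced (Subtype.val : H → G) t ≤ τ →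
        @IsTopologicalGroup H τ _ → @T2Space H τ →
        τ = TopologicalSpace.induced (Subtype.val : H → G) t) →
    TopologicalSpace.MetrizableSpace G := by
  intro G _ _ _ _ _ h
  obtain ⟨C, c1, -, c2⟩ := local_compact_nhds (univ_mem (f := 𝓝 (1 : G)))
  obtain ⟨K, k1, k2, -⟩ := gd1 (fun _ _ => True) (fun _ _ => ⟨_, c1, trivial⟩)
    (fun _ _ _ _ _ => trivial) c1
  haveI : CompactSpace K := isCompact_iff_compactSpace.1 (c2.of_isClosed_subset k2.closed k1)
  obtain ⟨V, v1, v2⟩ := cfc (G := K) fun Γ _ => by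
    let e := Γ.equivMapOfInjective K.subtype Subtype.val_injective
    have e1 : IsInducing e := IsInducing.subtypeVal.of_comp_iff.1
      (IsInducing.subtypeVal.comp IsInducing.subtypeVal : IsInducing fun x : Γ => x.1.1)
    haveI : Countable (Γ.map K.subtype) := e.surjective.countable
    obtain ⟨u, hu⟩ := exists_surjective_nat (Γ.map K.subtype)
    haveI := fc (G := Γ.map K.subtype) (fun σ a1 a2 a3 _ => h _ σ a3 a1 a2) (fun U hU => by
      obtain ⟨F, f1, f2⟩ := preM_sub pre_c Γ _ (e1.continuous.tendsto' 1 1 e.map_one hU)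
      refine ⟨_, f1.image e, e.surjective.forall.2 fun x => ?_⟩
      obtain ⟨g, g1, g2⟩ := f2 x
      exact ⟨_, ⟨g, g1, rfl⟩, by simpa using g2⟩)
      ⟨fun n => {x | x = u n → x = 1}, fun n => by
        by_cases k : u n = 1
        · simp [k]
        · exact mem_of_superset (compl_singleton_mem_nhds (Ne.symm k)) fun x a b => (a b).elim,
        fun x hx => (hu x).elim fun n e => hx n e.symm⟩
    rw [e1.nhds_eq_comap, map_one]
    infer_instance
  obtain ⟨U, u1, u2⟩ := k2
  choose W w1 w2 using fun n => (mem_nhds_subtype _ _ _).1 (v1 n)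
  exact metr (lc_fc ⟨fun n => U n ∩ W n, fun n => inter_mem (u1 n) (w1 n), fun x hx =>
    congrArg Subtype.val (v2 ⟨x, u2 x fun n => ⟨x, (hx n).1, by simp⟩⟩ fun n => w2 n (hx n).2)⟩)

end Pool.Agent.S02845
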