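import Pool.Statements.S02852
import Pool.Agent.H.MP_b93de1_al.Main

set_option autoImplicit false
open Pool Pool.MP_b93de1_al

namespace Pool.Agent.S02852

theorem result :
    ¬ (∀ (G X : Type) [Group G] [MulAction G X], FaithfulSMul G X → Infinite G →
      MulAction.IsMultiplyPretransitive G X 2 →
      (∀ x : X, ∀ S : Finset G,
        ((↑S : Set G) ⊆ (MulAction.stabilizer G x : Set G)) →
          IsSolvable (Subgroup.closure (↑S : Set G))) →
      ∃ (K : Type) (_ : Field K) (V : Type) (_ : AddCommGroup V) (_ : Module K V),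
        FiniteDimensional K V ∧ ∃ ρ : Representation K G V,
          Nontrivial V ∧
          (∀ W : Submodule K V, (∀ g : G, ∀ v ∈ W, ρ g v ∈ W) → W = ⊥ ∨ W = ⊤) ∧
          ∃ g : G, ρ g ≠ 1) := by
  intro h
  obtain ⟨h1, h2, h3, h4⟩ := Pool.Agent.H.MP_b93de1_al.main
    (K := Pool.Agent.H.MP_b93de1_al.K) Pool.Agent.H.MP_b93de1_al.Phi
    Pool.Agent.H.MP_b93de1_al.Mc_loc Pool.Agent.H.MP_b93de1_al.Mc_rep
    Pool.Agent.H.MP_b93de1_al.z (fun y => Pool.Agent.H.MP_b93de1_al.Phi_z y)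
  obtain ⟨F, _, V, _, _, hfd, ρ, _, _, g, hg⟩ :=
    h _ _ inferInstance h1 h2 (fun _ S _ => h3 S)
  exact hg (h4 F V ρ g)

end Pool.Agent.S02852
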