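import Pool.Statements.S02856
import Pool.Agent.H.MP_b97972_al.B

set_option autoImplicit false
open Pool Pool.MP_b97972_al

namespace Pool.Agent.S02856

/-- The negation of the preceding statement: For a nonempty Latin square, if its determinant in commuting symbol variables factors over ℂ into distinct irreducibles, each raised to its own degree, then the square is a group multiplication table up to reordering rows and relabelling symbols. -/
theorem result :
    ¬ (∀ (n : ℕ), 0 < n → ∀ (L : Fin n → Fin n → Fin n),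
    (∀ i, Function.Bijective (L i)) →
    (∀ j, Function.Bijective (fun i => L i j)) →
    (∃ (k : ℕ) (P : Fin k → MvPolynomial (Fin n) ℂ) (c : ℂ), c ≠ 0 ∧
      (∀ j, Irreducible (P j)) ∧
      (∀ i j, i ≠ j → ¬ Associated (P i) (P j)) ∧
      (Matrix.of (fun i j => (MvPolynomial.X (L i j) : MvPolynomial (Fin n) ℂ))).det
        = MvPolynomial.C c * ∏ j, P j ^ (P j).totalDegree) →
    ∃ (G : Type) (_ : Group G) (a : Fin n ≃ G) (b : Fin n ≃ G) (e : G ≃ Fin n),
      ∀ i j, L i j = e (a i * b j)) := by
  intro H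
  let e : Pool.Agent.H.MP_b97972_al.I ≃ Fin 16 :=
    (Equiv.sumCongr finSumFinEquiv finSumFinEquiv).trans (finSumFinEquiv (m := 4 + 4) (n := 4 + 4))
  let q : Fin 8 ⊕ Bool ≃ Fin 10 :=
    (Equiv.sumCongr (Equiv.refl _) finTwoEquiv.symm).trans (finSumFinEquiv (m := 8) (n := 2))
  obtain ⟨G, _, a, b, f, h⟩ := H 16 (by norm_num)
    (fun i j => Pool.Agent.H.MP_b97972_al.T (e.symm i) (e.symm j))
    (fun i => (Pool.Agent.H.MP_b97972_al.T_row (e.symm i)).comp e.symm.bijective)
    (fun j => (Pool.Agent.H.MP_b97972_al.T_col (e.symm j)).comp e.symm.bijective)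
    ⟨10, fun j => Pool.Agent.H.MP_b97972_al.PP (q.symm j), 1, one_ne_zero,
      fun j => Pool.Agent.H.MP_b97972_al.PP_irr _,
      fun i j hij => Pool.Agent.H.MP_b97972_al.PP_na _ _ (fun hh => hij (q.symm.injective hh)), by
        rw [map_one, one_mul, Equiv.prod_comp q.symm
          (fun j => Pool.Agent.H.MP_b97972_al.PP j ^ (Pool.Agent.H.MP_b97972_al.PP j).totalDegree),
          ← Pool.Agent.H.MP_b97972_al.det_main, ← Matrix.det_submatrix_equiv_self e.symm]
        rfl⟩
  exact Pool.Agent.H.MP_b97972_al.not_group (fun i => a (e i)) (fun j => b (e j)) f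
    (fun i j => by simpa using h (e i) (e j))

end Pool.Agent.S02856
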