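import Pool.Statements.S02863
import Pool.Agent.H.MP_b9977e_al.Main

set_option autoImplicit false
open Pool Pool.MP_b9977e_al

namespace Pool.Agent.S02863

theorem result :
    ∀ (S : AddSubmonoid ℕ), {n : ℕ | n ∉ S}.Finite →
    ∀ (F : ℕ), F ∉ S → (∀ n : ℕ, F < n → n ∈ S) →
    ∀ (e : ℕ) (g : Fin e → ℕ), Function.Injective g →
      Set.range g = {x : ℕ | x ∈ S ∧ x ≠ 0 ∧ ∀ a ∈ S, ∀ b ∈ S, a + b = x → a = 0 ∨ b = 0} →
    ∀ (f : MvPolynomial (Fin e) ℚ) (d : ℕ),
      f ∈ RingHom.ker (MvPolynomial.aeval (fun i : Fin e => (Polynomial.X : Polynomial ℚ) ^ g i)) →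
      MvPolynomial.IsWeightedHomogeneous (fun i : Fin e => g i) f d →
      f ∉ Ideal.span (Set.range (MvPolynomial.X : Fin e → MvPolynomial (Fin e) ℚ)) *
            RingHom.ker (MvPolynomial.aeval (fun i : Fin e => (Polynomial.X : Polynomial ℚ) ^ g i)) →
      d ≤ e * (Set.ncard {γ : ℕ | γ ∈ S ∧ γ < F} - 1) + ∑ i, g i + 1 := by
  intro S _ F hF hF' e g hinj hg f d hf hh hn
  by_contra hlt
  push Not at hlt
  apply hn
  have hg1 : ∀ i, g i ∈ S ∧ g i ≠ 0 := by
    intro i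
    have : g i ∈ Set.range g := ⟨i, rfl⟩
    rw [hg] at this
    exact ⟨this.1, this.2.1⟩
  have hfact := Pool.Agent.H.MP_b9977e_al.exists_fact S e g hg
  apply Pool.Agent.H.MP_b9977e_al.mem_mul S e g hfact d (by omega) _ f hf hh
  intro i j hij
  obtain ⟨i0, -, hi0⟩ := Finset.exists_min_image Finset.univ g ⟨i, Finset.mem_univ i⟩
  have hz := Pool.Agent.H.MP_b9977e_al.zhai S F hF hF' e g (fun i => (hg1 i).1)
    (fun i => Nat.pos_of_ne_zero (hg1 i).2) hfact i0
  have hF0 : F ≠ 0 := by rintro rfl; exact hF S.zero_mem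
  have hη : 1 ≤ Set.ncard {γ : ℕ | γ ∈ S ∧ γ < F} := by
    have hfin : {γ : ℕ | γ ∈ S ∧ γ < F}.Finite := (Set.finite_lt_nat F).subset (fun x hx => hx.2)
    exact (Set.ncard_pos hfin).2 ⟨0, S.zero_mem, by omega⟩
  have hj : j ∈ Finset.univ.erase i := by simp [hij.symm]
  have hsum : g i + g j + (e - 2) * g i0 ≤ ∑ k, g k := by
    rw [← Finset.add_sum_erase _ _ (Finset.mem_univ i), ← Finset.add_sum_erase _ _ hj, add_assoc]
    have h1 : ((Finset.univ.erase i).erase j).card = e - 2 := by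
      rw [Finset.card_erase_of_mem hj, Finset.card_erase_of_mem (Finset.mem_univ i)]
      simp only [Finset.card_univ, Fintype.card_fin]
      omega
    have h2 := Finset.card_nsmul_le_sum ((Finset.univ.erase i).erase j) g (g i0)
      (fun k _ => hi0 k (Finset.mem_univ k))
    rw [h1, smul_eq_mul] at h2
    exact Nat.add_le_add_left (Nat.add_le_add_left h2 _) _
  have he : 2 ≤ e := by
    have h1 := i.2
    have h2 := j.2
    have h3 : i.1 ≠ j.1 := fun h => hij (Fin.ext h)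
    omega
  obtain ⟨e', rfl⟩ : ∃ e', e = e' + 2 := ⟨e - 2, by omega⟩
  obtain ⟨η, hη'⟩ : ∃ η, Set.ncard {γ : ℕ | γ ∈ S ∧ γ < F} = η + 1 :=
    ⟨Set.ncard {γ : ℕ | γ ∈ S ∧ γ < F} - 1, by omega⟩
  rw [hη'] at hz hlt
  simp only [Nat.add_sub_cancel] at hsum hlt
  have hm : 1 ≤ g i0 := Nat.pos_of_ne_zero (hg1 i0).2
  have hbig : F + g i + g j < d := by
    zify at hsum hlt hm ⊢
    push_cast at hz
    have : (0 : ℤ) ≤ e' * (g i0 - 1) := mul_nonneg (by positivity) (by linarith)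
    nlinarith
  exact ⟨d - g i - g j, hF' _ (by omega), by omega⟩

end Pool.Agent.S02863
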