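import Pool.Statements.S02868
import Pool.Agent.H.MP_b9e986_al.I

set_option autoImplicit false
open CategoryTheory CategoryTheory.Limits
open Pool Pool.MP_b9e986_al

namespace Pool.Agent.S02868

/-- The negation of the preceding statement: For nonzero finitely generated modules M, N over a Noetherian local ring R with Tor_i(M,N)=0 for all i>0, dim R/ann M + dim R/ann N = dim R + dim R/ann(M⊗N). -/
theorem result :
    ¬ (∀ (R : Type) [CommRing R] [IsNoetherianRing R] [IsLocalRing R]
      (M N : Type) [AddCommGroup M] [Module R M] [Module.Finite R M]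
      [AddCommGroup N] [Module R N] [Module.Finite R N],
      Nontrivial M → Nontrivial N →
      (∀ i : ℕ, 0 < i →
        CategoryTheory.Limits.IsZero
          (((CategoryTheory.Tor (ModuleCat R) i).obj (ModuleCat.of R M)).obj (ModuleCat.of R N))) →
      ringKrullDim (R ⧸ Module.annihilator R M) + ringKrullDim (R ⧸ Module.annihilator R N)
        = ringKrullDim R + ringKrullDim (R ⧸ Module.annihilator R (TensorProduct R M N))) := by
  intro h
  obtain ⟨R, _, _, _, σ, hz⟩ := PS.exists_R
  have e := h R σ.M σ.N inferInstance inferInstance σ.tor_zero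
  have h1 := add_le_add σ.dimM σ.dimN_ge
  have h2 := add_le_add (σ.dimR_le hz) (PS.dim_zero _ (σ.tensor_ann hz))
  rw [e] at h1
  exact absurd (h1.trans h2) (by decide)

end Pool.Agent.S02868
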