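import Pool.Statements.S02871
import Pool.Agent.H.MP_ba91e3_al.E

set_option autoImplicit false
open Pool Pool.MP_ba91e3_al Pool.Agent.H.MP_ba91e3_al

namespace Pool.Agent.S02871

theorem result :
  ∃ (A : ℕ → Type) (_ : ∀ n, NonUnitalCStarAlgebra (A n))
    (F : ∀ m n : ℕ, ((Fin m → ℕ) →+ (Fin n → ℕ)) → (A m →⋆ₙₐ[ℂ] A n))
    (φ : ∀ n k : ℕ, Matrix (Fin k) (Fin k) (A n) → (Fin n → ℕ)),
    (∀ n : ℕ, F n n (AddMonoidHom.id (Fin n → ℕ)) = NonUnitalStarAlgHom.id ℂ (A n)) ∧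
    (∀ (m n l : ℕ) (f : (Fin m → ℕ) →+ (Fin n → ℕ)) (g : (Fin n → ℕ) →+ (Fin l → ℕ)),
      F m l (g.comp f) = (F n l g).comp (F m n f)) ∧
    (∀ (n k l : ℕ) (p : Matrix (Fin k) (Fin k) (A n)) (q : Matrix (Fin l) (Fin l) (A n)),
      p * p = p → p.conjTranspose = p → q * q = q → q.conjTranspose = q →
      ((φ n k p = φ n l q ↔
          ∃ v : Matrix (Fin l) (Fin k) (A n), v.conjTranspose * v = p ∧ v * v.conjTranspose = q) ∧
        φ n (k + l) (Matrix.reindex finSumFinEquiv finSumFinEquiv (Matrix.fromBlocks p 0 0 q))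
          = φ n k p + φ n l q)) ∧
    (∀ (n : ℕ) (x : Fin n → ℕ), ∃ (k : ℕ) (p : Matrix (Fin k) (Fin k) (A n)),
      p * p = p ∧ p.conjTranspose = p ∧ φ n k p = x) ∧
    (∀ (m n : ℕ) (f : (Fin m → ℕ) →+ (Fin n → ℕ)) (k : ℕ) (p : Matrix (Fin k) (Fin k) (A m)),
      p * p = p → p.conjTranspose = p →
      φ n k (p.map (fun x => F m n f x)) = f (φ m k p)) := by
  
  obtain ⟨A, _, ⟨D⟩⟩ := ex_RD
  refine ⟨fun n => Alg D (Fin n → ℕ), fun n => inferInstance, fun m n f => Fm f,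
    fun n k p => φ p, fun n => ?_, fun m n l f g => ?_,
    fun n k l p q h1 h2 h3 h4 => ⟨φ_iff h1 h2 h3 h4, φ_add h1 h2 h3 h4⟩,
    fun n x => ⟨1, fun _ _ => PP D x, ?_, ?_, φ_PP x⟩, fun m n f k p h1 h2 => ?_⟩
  · ext1 a
    exact at_ext fun ρ => (at_Fm _ a ρ).trans (by rw [pull_id]; rfl)
  · ext1 a
    exact at_ext fun ρ => (at_Fm _ a ρ).trans (by rw [pull_comp]; rfl)
  · ext1
    rw [Matrix.mul_apply, Fin.sum_univ_one]
    exact at_ext fun ρ => (ρ.hp x).1.1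
  · ext1
    exact at_ext fun ρ => (ρ.hp x).1.2
  · funext l
    exact key1 h1 h2 ((base D (Pi.evalAddMonoidHom (fun _ => ℕ) l)).pull f)


end Pool.Agent.S02871
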