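import Pool.Statements.S02877
import Pool.Agent.H.MP_baf2fc_al.Main

set_option autoImplicit false
open Pool Pool.MP_baf2fc_al

namespace Pool.Agent.S02877

theorem result :
    ∀ (k : Type) [Field k] (α : Type)
      (R : Subalgebra k (MonoidAlgebra k (FreeGroup α))),
      R.FG → R ≠ ⊥ →
        ∃ f : R →ₐ[k] LaurentPolynomial k, f.range ≠ ⊥ := by
  exact H.MP_baf2fc_al.main

end Pool.Agent.S02877
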