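import Pool.Statements.S02883
import Pool.Agent.H.MP_bb8083_al.Main

set_option autoImplicit false
open scoped Pointwise
open Pool Pool.MP_bb8083_al

namespace Pool.Agent.S02883

theorem result :
    ∀ (G : Type) [Group G] (n : ℕ) (A : Fin n → Set G),
      Pairwise (fun i j => Disjoint (A i) (A j)) →
      (⋃ i, A i) = Set.univ →
      ∃ i : Fin n, ∃ H : Subgroup G,
        ((A i * (A i)⁻¹) ^ (4 ^ (n - 1)) : Set G) = (H : Set G) ∧
        H.index ≠ 0 ∧ H.index ≤ n := by
  intro G _ n A _ hA
  exact Pool.Agent.H.MP_bb8083_al.main n A fun g => Set.mem_iUnion.1 (hA ▸ Set.mem_univ g)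

end Pool.Agent.S02883
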