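import Pool.Statements.S02886
import Pool.Agent.H.MP_bbd7c2_al.Main

set_option autoImplicit false
open Pool Pool.MP_bbd7c2_al

namespace Pool.Agent.S02886

theorem result :
    ¬ (∀ (G : Type) [Group G] [Finite G] (π : Set ℕ), (∀ p ∈ π, p.Prime) →
    (∃ (k : ℕ) (s : ℕ → Subgroup G), s 0 = ⊥ ∧ s k = ⊤ ∧ (∀ i ≤ k, (s i).Normal) ∧
      (∀ i < k, s i ≤ s (i + 1)) ∧
      ∀ i < k, (∀ q : ℕ, q.Prime → q ∣ Nat.card (s (i + 1)) / Nat.card (s i) → q ∉ π) ∨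
        ∃ p ∈ π, ∃ e : ℕ, Nat.card (s (i + 1)) / Nat.card (s i) = p ^ e) →
    ∀ (H : Subgroup G), (∀ q : ℕ, q.Prime → q ∣ Nat.card H → q ∈ π) →
      (∀ q : ℕ, q.Prime → q ∣ H.index → q ∉ π) →
    ∀ (a b : ℕ),
      (∃ t : ℕ → Subgroup H, t 0 = ⊥ ∧ t a = ⊤ ∧ (∀ i ≤ a, (t i).Normal) ∧
        (∀ i < a, t i ≤ t (i + 1)) ∧
        ∀ i < a, ∃ c : ℕ, (fun K : Subgroup H => ⁅K, t (i + 1)⁆)^[c] (t (i + 1)) ≤ t i) →
      (∀ p ∈ π, ∃ (k : ℕ) (s : ℕ → Subgroup G) (T : Finset ℕ), T.card ≤ b ∧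
        s 0 = ⊥ ∧ s k = ⊤ ∧ (∀ i ≤ k, (s i).Normal) ∧ (∀ i < k, s i ≤ s (i + 1)) ∧
        ∀ i < k, (¬ p ∣ Nat.card (s (i + 1)) / Nat.card (s i)) ∨
          (i ∈ T ∧ ∃ e : ℕ, Nat.card (s (i + 1)) / Nat.card (s i) = p ^ e)) →
      ∃ (k : ℕ) (s : ℕ → Subgroup G) (T : Finset ℕ), T.card ≤ a - 1 + b ∧
        s 0 = ⊥ ∧ s k = ⊤ ∧ (∀ i ≤ k, (s i).Normal) ∧ (∀ i < k, s i ≤ s (i + 1)) ∧
        ∀ i < k, (∀ q : ℕ, q.Prime → q ∣ Nat.card (s (i + 1)) / Nat.card (s i) → q ∉ π) ∨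
          (i ∈ T ∧ (∀ q : ℕ, q.Prime → q ∣ Nat.card (s (i + 1)) / Nat.card (s i) → q ∈ π) ∧
            ∃ c : ℕ, (fun K : Subgroup G => ⁅K, s (i + 1)⁆)^[c] (s (i + 1)) ≤ s i)) := by
  intro h
  obtain ⟨H, h1, h2⟩ := Pool.Agent.H.MP_bbd7c2_al.hall7
  have key := h Pool.Agent.H.MP_bbd7c2_al.W7 {2, 3}
    (by
      intro p hp
      rcases hp with rfl | rfl <;> norm_num)
    (by
      obtain ⟨k, s, T, _, h0, hk, hn, hle, hr⟩ := Pool.Agent.H.MP_bbd7c2_al.sol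
      refine ⟨k, s, h0, hk, hn, hle, fun i hi => ?_⟩
      rw [Pool.Agent.H.MP_bbd7c2_al.ratio (hle i hi)]
      rcases hr i hi with h | h
      · exact h
      · exact h.2.elim)
    H h1 h2 2 2 (Pool.Agent.H.MP_bbd7c2_al.fit h1)
    (by
      intro p hp
      rcases hp with rfl | rfl
      · obtain ⟨k, s, T, hT, h0, hk, hn, hle, hr⟩ := Pool.Agent.H.MP_bbd7c2_al.len2
        refine ⟨k, s, T, hT, h0, hk, hn, hle, fun i hi => ?_⟩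
        rw [Pool.Agent.H.MP_bbd7c2_al.ratio (hle i hi)]
        exact hr i hi
      · obtain ⟨k, s, T, hT, h0, hk, hn, hle, hr⟩ := Pool.Agent.H.MP_bbd7c2_al.len3
        refine ⟨k, s, T, hT, h0, hk, hn, hle, fun i hi => ?_⟩
        rw [Pool.Agent.H.MP_bbd7c2_al.ratio (hle i hi)]
        exact hr i hi)
  obtain ⟨k, s, T, hT, h0, hk, hn, hle, hr⟩ := key
  have := Pool.Agent.H.MP_bbd7c2_al.lower (m := 2 - 1 + 2) ⟨k, s, T, hT, h0, hk, hn, hle, by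
    intro i hi
    have := hr i hi
    rw [Pool.Agent.H.MP_bbd7c2_al.ratio (hle i hi)] at this
    rcases this with h | h
    · exact Or.inl h
    · exact Or.inr ⟨h.1, h.2.1⟩⟩
  omega

end Pool.Agent.S02886
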