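import Pool.Statements.S02888
import Pool.Agent.H.MP_bc5942_al.Main

set_option autoImplicit false
open Pool Pool.MP_bc5942_al

namespace Pool.Agent.S02888

theorem result :
    ¬ (∀ (G : Type) [Group G] (A B : Subgroup G),
    (∀ g : G, ∃ a ∈ A, ∃ b ∈ B, g = a * b) →
    (∃ n : ℕ, ∃ s : Fin (n+1) → Subgroup G, s 0 = ⊥ ∧ s (Fin.last n) = A ∧
      ∀ i : Fin n, s i.castSucc ≤ s i.succ ∧
        ((s i.castSucc).subgroupOf (s i.succ)).Normal ∧
        (s i.castSucc).subgroupOf (s i.succ) ≠ ⊤ ∧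
        ∀ M : Subgroup (s i.succ), M.Normal →
          (s i.castSucc).subgroupOf (s i.succ) ≤ M →
          M = (s i.castSucc).subgroupOf (s i.succ) ∨ M = ⊤) →
    (∃ n : ℕ, ∃ s : Fin (n+1) → Subgroup G, s 0 = ⊥ ∧ s (Fin.last n) = B ∧
      ∀ i : Fin n, s i.castSucc ≤ s i.succ ∧
        ((s i.castSucc).subgroupOf (s i.succ)).Normal ∧
        (s i.castSucc).subgroupOf (s i.succ) ≠ ⊤ ∧
        ∀ M : Subgroup (s i.succ), M.Normal →
          (s i.castSucc).subgroupOf (s i.succ) ≤ M →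
          M = (s i.castSucc).subgroupOf (s i.succ) ∨ M = ⊤) →
    (∃ n : ℕ, ∃ s : Fin (n+1) → Subgroup G, s 0 = ⊥ ∧ s (Fin.last n) = ⊤ ∧
      ∀ i : Fin n, s i.castSucc ≤ s i.succ ∧
        ((s i.castSucc).subgroupOf (s i.succ)).Normal ∧
        (s i.castSucc).subgroupOf (s i.succ) ≠ ⊤ ∧
        ∀ M : Subgroup (s i.succ), M.Normal →
          (s i.castSucc).subgroupOf (s i.succ) ≤ M →
          M = (s i.castSucc).subgroupOf (s i.succ) ∨ M = ⊤)) := by
  intro h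
  exact Pool.Agent.H.MP_bc5942_al.none (h _ _ _ Pool.Agent.H.MP_bc5942_al.fac
    (Pool.Agent.H.MP_bc5942_al.series _ fun _ => rfl)
    (Pool.Agent.H.MP_bc5942_al.series _ fun _ => rfl))

end Pool.Agent.S02888
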