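import Pool.Statements.S02892
import Pool.Agent.H.MP_bcc032_al.Main

set_option autoImplicit false
open Pool Pool.MP_bcc032_al

namespace Pool.Agent.S02892

theorem result :
    ¬ (∀ d s n : ℕ, ∃ N : ℕ, ∀ (k : Type) [Field k] (r : Fin s → FreeAlgebra k (Fin d)),
      (∀ i, r i ∈ Submodule.span k
        {a : FreeAlgebra k (Fin d) | ∃ w : FreeMonoid (Fin d),
          w.length ≤ n ∧ a = (w.toList.map (FreeAlgebra.ι k)).prod}) →
      (∃ p q : FreeAlgebra k (Fin d),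
        p ∉ TwoSidedIdeal.span (Set.range r) ∧ q ∉ TwoSidedIdeal.span (Set.range r) ∧
        p * q ∈ TwoSidedIdeal.span (Set.range r)) →
      ∃ p q : FreeAlgebra k (Fin d),
        p ∈ Submodule.span k
          {a : FreeAlgebra k (Fin d) | ∃ w : FreeMonoid (Fin d),
            w.length < N ∧ a = (w.toList.map (FreeAlgebra.ι k)).prod} ∧
        q ∈ Submodule.span k
          {a : FreeAlgebra k (Fin d) | ∃ w : FreeMonoid (Fin d),
            w.length < N ∧ a = (w.toList.map (FreeAlgebra.ι k)).prod} ∧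
        p ∉ TwoSidedIdeal.span (Set.range r) ∧ q ∉ TwoSidedIdeal.span (Set.range r) ∧
        p * q ∈ TwoSidedIdeal.span (Set.range r)) := by
  intro h
  obtain ⟨N, hN⟩ := h 4 6 2
  obtain ⟨p, hNp, hp⟩ := Nat.exists_infinite_primes N
  obtain ⟨q, rfl⟩ : ∃ q, p = q + 1 := ⟨p - 1, by have := hp.pos; omega⟩
  have : Fact (Nat.Prime (q + 1)) := ⟨hp⟩
  obtain ⟨a, b, ha, hb, ha0, hb0, hab⟩ := hN (ZMod (q + 1)) (Pool.Agent.H.MP_bcc032_al.rels _)
    (Pool.Agent.H.MP_bcc032_al.deg _)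
    ⟨_, _, Pool.Agent.H.MP_bcc032_al.g1_not _, Pool.Agent.H.MP_bcc032_al.w_not _ q,
      Pool.Agent.H.MP_bcc032_al.zdJ _ q⟩
  exact Pool.Agent.H.MP_bcc032_al.low _ (q + 1) N hNp a b ha hb ha0 hb0 hab

end Pool.Agent.S02892
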