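import Pool.Statements.S02924

set_option autoImplicit false
open Pool Pool.MP_be2783_al

namespace Pool.Agent.S02924

abbrev V : Type := ℤ →₀ ZMod 3

/-- sign -/
def sg (n : ℤ) : ℤ := ((Int.negOnePow n : ℤˣ) : ℤ)

lemma sg_add (n m : ℤ) : sg (n + m) = sg n * sg m := by
  simp [sg, Int.negOnePow_add]

lemma sg_zero : sg 0 = 1 := by simp [sg]

lemma sg_neg (n : ℤ) : sg (-n) = sg n := by simp [sg]

lemma sg_sq (n : ℤ) : sg n * sg n = 1 := by
  unfold sg
  rw [← Units.val_mul, Int.units_mul_self]; rfl

lemma sg_one : sg 1 = -1 := by simp [sg]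

/-- shift -/
noncomputable def T (n : ℤ) : V →ₗ[ZMod 3] V := Finsupp.lmapDomain (ZMod 3) (ZMod 3) (fun i => i + n)

lemma T_single (n i : ℤ) (a : ZMod 3) : T n (Finsupp.single i a) = Finsupp.single (i + n) a := by
  simp [T, Finsupp.mapDomain_single]

lemma T_zero (v : V) : T 0 v = v := by
  induction v using Finsupp.induction_linear with
  | zero => simp
  | add a b ha hb => simp [ha, hb]
  | single i a => simp [T_single]

lemma T_T (n m : ℤ) (v : V) : T n (T m v) = T (n + m) v := by
  induction v using Finsupp.induction_linear with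
  | zero => simp
  | add a b ha hb => simp [ha, hb]
  | single i a => simp only [T_single]; congr 1; ring

open Classical in
/-- sparse indicator -/
noncomputable def hh (d : ℤ) : ZMod 3 :=
  if ∃ N : ℕ, d = ((N.factorial + N : ℕ) : ℤ) then 1 else 0

noncomputable def K (i j : ℤ) : ZMod 3 := (sg i : ZMod 3) * hh (j - i)

noncomputable def beta : V →ₗ[ZMod 3] V →ₗ[ZMod 3] ZMod 3 :=
  Finsupp.linearCombination (ZMod 3) (fun i => Finsupp.linearCombination (ZMod 3) (K i))

lemma beta_single (i j : ℤ) (a b : ZMod 3) :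
    beta (Finsupp.single i a) (Finsupp.single j b) = a * b * K i j := by
  simp [beta, mul_assoc]

lemma beta_T (n : ℤ) (v w : V) : beta (T n v) (T n w) = (sg n : ZMod 3) * beta v w := by
  induction v using Finsupp.induction_linear with
  | zero => simp
  | add a b ha hb => simp [ha, hb, mul_add]
  | single i a =>
    induction w using Finsupp.induction_linear with
    | zero => simp
    | add c d hc hd => simp only [map_add, hc, hd, mul_add]
    | single j b =>
      simp only [T_single, beta_single, K, sg_add]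
      have : j + n - (i + n) = j - i := by ring
      rw [this]; push_cast; ring

noncomputable def psi : V →ₗ[ZMod 3] ZMod 3 :=
  Finsupp.linearCombination (ZMod 3) (fun i => (sg i : ZMod 3))

lemma psi_single (i : ℤ) (a : ZMod 3) : psi (Finsupp.single i a) = a * (sg i : ZMod 3) := by
  simp [psi]

lemma psi_T (n : ℤ) (v : V) : psi (T n v) = (sg n : ZMod 3) * psi v := by
  induction v using Finsupp.induction_linear with
  | zero => simp
  | add a b ha hb => simp [ha, hb, mul_add]
  | single i a =>
    simp only [T_single, psi_single, sg_add]; push_cast; ring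

lemma beta_shift (n m : ℤ) (v : V) :
    beta (T n v) (T m v) = ∑ i ∈ v.support, ∑ j ∈ v.support, v i * v j * K (i + n) (j + m) := by
  have hv : v = ∑ i ∈ v.support, Finsupp.single i (v i) := (Finsupp.sum_single v).symm
  conv_lhs => rw [hv]
  simp only [map_sum, LinearMap.sum_apply, T_single, beta_single]
  rw [Finset.sum_comm]

lemma fact_gap (M N : ℕ) (h : M < N) : M.factorial + M ≤ N.factorial := by
  obtain ⟨L, rfl⟩ : ∃ L, N = L + 1 := ⟨N - 1, by omega⟩
  have h1 : M.factorial ≤ L.factorial := Nat.factorial_le (by omega)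
  have h2 : 1 ≤ L.factorial := L.factorial_pos
  rw [Nat.factorial_succ]
  nlinarith

lemma key (v : V) (hv : v ≠ 0) (k : ℤ) (hk : k ≠ 0) :
    ∃ n : ℤ, beta v (T (n * k) v) ≠ beta (T (n * k) v) v := by
  classical
  have hne : v.support.Nonempty := Finsupp.support_nonempty_iff.mpr hv
  set i0 := v.support.min' hne with hi0
  set j0 := v.support.max' hne with hj0
  have hi0m : i0 ∈ v.support := Finset.min'_mem _ _
  have hj0m : j0 ∈ v.support := Finset.max'_mem _ _
  have hlo : ∀ i ∈ v.support, i0 ≤ i := fun i hi => Finset.min'_le _ _ hi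
  have hup : ∀ i ∈ v.support, i ≤ j0 := fun i hi => Finset.le_max' _ _ hi
  obtain ⟨d, hd⟩ : ∃ d : ℕ, j0 - i0 = d := ⟨(j0 - i0).toNat, by have := hlo _ hj0m; omega⟩
  have hkpos : 0 < k.natAbs := Int.natAbs_pos.mpr hk
  set N : ℕ := d + k.natAbs * (2 * d + 3) with hN
  have hNbig : 3 * d + 3 ≤ N := by rw [hN]; nlinarith
  have hkN : k.natAbs ≤ N := by rw [hN]; nlinarith
  have hdiv : k ∣ ((N.factorial + N : ℕ) : ℤ) - d := by
    have h1 : k.natAbs ∣ N.factorial := Nat.dvd_factorial hkpos hkN
    have h2 : k ∣ (N.factorial : ℤ) := Int.natAbs_dvd.mp (Int.natCast_dvd_natCast.mpr h1)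
    have h3 : k ∣ ((k.natAbs * (2 * d + 3) : ℕ) : ℤ) := by
      push_cast
      exact Dvd.dvd.mul_right (by simp) _
    have : ((N.factorial + N : ℕ) : ℤ) - d = (N.factorial : ℤ) + ((k.natAbs * (2 * d + 3) : ℕ) : ℤ) := by
      rw [hN]; push_cast; ring
    rw [this]; exact dvd_add h2 h3
  obtain ⟨n, hn⟩ := hdiv
  refine ⟨n, ?_⟩
  have hm : n * k = ((N.factorial + N : ℕ) : ℤ) - d := by rw [hn]; ring
  have e1 : beta v (T (n * k) v) = v i0 * v j0 * (sg i0 : ZMod 3) := by
    have := beta_shift 0 (n * k) v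
    rw [T_zero] at this
    rw [this]
    have hz : ∀ i ∈ v.support, ∀ j ∈ v.support, (i ≠ i0 ∨ j ≠ j0) →
        v i * v j * K (i + 0) (j + n * k) = 0 := by
      intro i hi j hj hij
      have h1 := hlo i hi
      have h2 := hup i hi
      have h3 := hlo j hj
      have h4 := hup j hj
      have : hh (j + n * k - (i + 0)) = 0 := by
        unfold hh
        rw [if_neg]
        rintro ⟨M, hM⟩
        rw [hm] at hM
        rcases lt_trichotomy M N with h | h | h
        · have := fact_gap M N h
          omega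
        · subst h; omega
        · have := fact_gap N M h
          omega
      simp only [K, this, mul_zero]
    rw [Finset.sum_eq_single i0, Finset.sum_eq_single j0]
    · have : hh (j0 + n * k - (i0 + 0)) = 1 := by
        unfold hh
        rw [if_pos]
        exact ⟨N, by rw [hm]; omega⟩
      simp only [K, this]; simp
    · intro j hj hne'; exact hz _ hi0m _ hj (Or.inr hne')
    · intro h; exact absurd hj0m h
    · intro i hi hne'
      exact Finset.sum_eq_zero (fun j hj => hz _ hi _ hj (Or.inl hne'))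
    · intro h; exact absurd hi0m h
  have e2 : beta (T (n * k) v) v = 0 := by
    have := beta_shift (n * k) 0 v
    rw [T_zero] at this
    rw [this]
    refine Finset.sum_eq_zero (fun i hi => Finset.sum_eq_zero (fun j hj => ?_))
    have h1 := hlo i hi
    have h4 := hup j hj
    have : hh (j + 0 - (i + n * k)) = 0 := by
      unfold hh
      rw [if_neg]
      rintro ⟨M, hM⟩
      rw [hm] at hM
      omega
    simp only [K, this, mul_zero]
  rw [e1, e2]
  have a1 : v i0 ≠ 0 := Finsupp.mem_support_iff.mp hi0m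
  have a2 : v j0 ≠ 0 := Finsupp.mem_support_iff.mp hj0m
  have a3 : (sg i0 : ZMod 3) ≠ 0 := by
    intro h
    have := congrArg (fun x : ℤ => (x : ZMod 3)) (sg_sq i0)
    simp only [Int.cast_mul, h] at this
    revert this; decide
  have : Fact (Nat.Prime 3) := ⟨by norm_num⟩
  exact mul_ne_zero (mul_ne_zero a1 a2) a3

/-- the embedding of Z/3 into Z/9 -/
def io (x : ZMod 3) : ZMod 9 := 3 * (x.val : ZMod 9)

lemma io_add (x y : ZMod 3) : io (x + y) = io x + io y := by revert x y; decide
lemma io_neg (x : ZMod 3) : io (-x) = - io x := by revert x; decide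
lemma io_zero : io 0 = 0 := by decide
lemma io_three (x : ZMod 3) : 3 * io x = 0 := by revert x; decide
lemma io_inj (x y : ZMod 3) (h : io x = io y) : x = y := by revert x y; decide
lemma io_sg (n : ℤ) (x : ZMod 3) : io ((sg n : ZMod 3) * x) = (sg n : ZMod 9) * io x := by
  rcases Int.units_eq_one_or (Int.negOnePow n) with h | h <;> simp [sg, h, io_neg]

lemma sg_sq9 (n : ℤ) : (sg n : ZMod 9) * (sg n : ZMod 9) = 1 := by
  rw [← Int.cast_mul, sg_sq]; simp

lemma V_three (v : V) : v + v + v = 0 := by
  ext i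
  simp only [Finsupp.add_apply, Finsupp.zero_apply]
  generalize v i = x
  revert x; decide

@[ext] structure G (e : ZMod 9) : Type where
  v : V
  z : ZMod 9
  n : ℤ

variable {e : ZMod 9}

noncomputable instance : Mul (G e) :=
  ⟨fun g h => ⟨g.v + T g.n h.v, g.z + (sg g.n : ZMod 9) * h.z + e * io (beta g.v (T g.n h.v)), g.n + h.n⟩⟩
noncomputable instance : One (G e) := ⟨⟨0, 0, 0⟩⟩
noncomputable instance : Inv (G e) :=
  ⟨fun g => ⟨- T (-g.n) g.v, (sg g.n : ZMod 9) * (- g.z + e * io (beta g.v g.v)), - g.n⟩⟩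

lemma mul_v (g h : G e) : (g * h).v = g.v + T g.n h.v := rfl
lemma mul_z (g h : G e) :
    (g * h).z = g.z + (sg g.n : ZMod 9) * h.z + e * io (beta g.v (T g.n h.v)) := rfl
lemma mul_n (g h : G e) : (g * h).n = g.n + h.n := rfl
lemma one_v : (1 : G e).v = 0 := rfl
lemma one_z : (1 : G e).z = 0 := rfl
lemma one_n : (1 : G e).n = 0 := rfl
lemma inv_v (g : G e) : (g⁻¹).v = - T (-g.n) g.v := rfl
lemma inv_z (g : G e) : (g⁻¹).z = (sg g.n : ZMod 9) * (- g.z + e * io (beta g.v g.v)) := rfl
lemma inv_n (g : G e) : (g⁻¹).n = - g.n := rfl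

noncomputable instance : Group (G e) :=
  Group.ofLeftAxioms
    (fun a b c => by
      ext1
      · simp only [mul_v, mul_n, map_add, T_T, add_assoc]
      · simp only [mul_z, mul_v, mul_n, map_add, LinearMap.add_apply, io_add, sg_add, ← T_T,
          beta_T, io_sg]
        push_cast; ring
      · simp only [mul_n, add_assoc])
    (fun a => by
      ext1
      · simp only [mul_v, one_v, one_n, T_zero, zero_add]
      · simp [mul_z, one_v, one_z, one_n, sg_zero, io_zero]
      · simp only [mul_n, one_n, zero_add])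
    (fun a => by
      ext1
      · simp only [mul_v, inv_v, inv_n, one_v, neg_add_cancel]
      · simp only [mul_z, inv_v, inv_z, inv_n, one_z, map_neg, LinearMap.neg_apply, io_neg, beta_T,
          io_sg, sg_neg]
        ring
      · simp only [mul_n, inv_n, one_n, neg_add_cancel])

/-- central-ish elements -/
def cc (z : ZMod 9) : G e := ⟨0, z, 0⟩

lemma cube (g : G e) (hg : g.n = 0) : g * g * g = cc (3 * g.z) := by
  ext1
  · simp only [mul_v, mul_n, hg, add_zero, T_zero, cc, V_three]
  · simp only [mul_z, mul_v, mul_n, hg, add_zero, T_zero, cc, sg_zero, map_add,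
      LinearMap.add_apply, io_add]
    have := io_three (beta g.v g.v)
    push_cast
    linear_combination e * this
  · simp only [mul_n, hg, cc, add_zero]

lemma comm_eq (g h : G e) (hg : g.n = 0) (hh : h.n = 0) :
    g * h = cc (e * (io (beta g.v h.v) - io (beta h.v g.v))) * (h * g) := by
  ext1
  · simp only [mul_v, hg, hh, T_zero, cc]; abel
  · simp only [mul_z, mul_v, hg, hh, T_zero, cc, sg_zero, map_zero, LinearMap.zero_apply, io_zero]
    push_cast; ring
  · simp only [mul_n, hg, hh, cc]; simp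

lemma conj_v (g h : G e) (hh : h.n = 0) : (g * h * g⁻¹).v = T g.n h.v := by
  simp only [mul_v, mul_n, inv_v, hh, add_zero, map_neg, T_T, add_neg_cancel, T_zero]
  abel

lemma conj_n (g h : G e) (hh : h.n = 0) : (g * h * g⁻¹).n = 0 := by
  simp only [mul_n, inv_n, hh]; ring

lemma cc_comm (g : G e) (hg : g.n = 0) (z : ZMod 9) : g * cc z = cc z * g := by
  ext1
  · simp [mul_v, cc, T_zero]
  · simp [mul_z, cc, hg, sg_zero, io_zero, add_comm]
  · simp [mul_n, cc]

lemma cc_mul (y z : ZMod 9) : (cc y : G e) * cc z = cc (y + z) := by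
  ext1
  · simp [mul_v, cc]
  · simp [mul_z, cc, sg_zero, io_zero]
  · simp [mul_n, cc]

/-- degree homomorphism -/
def deg : G e →* Multiplicative ℤ where
  toFun g := Multiplicative.ofAdd g.n
  map_one' := rfl
  map_mul' _ _ := rfl

lemma zpow_n (g : G e) (m : ℤ) : (g ^ m).n = m * g.n := by
  have := map_zpow (deg (e := e)) g m
  have h2 : Multiplicative.toAdd (deg (g ^ m)) = Multiplicative.toAdd (deg g ^ m) := by rw [this]
  rw [toAdd_zpow] at h2
  simpa [deg] using h2

def A : Subgroup (G 1) where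
  carrier := {g | 3 * g.z = io (psi g.v)}
  mul_mem' := by
    intro a b ha hb
    simp only [Set.mem_ofPred_eq] at *
    simp only [mul_z, mul_v, map_add, io_add, psi_T, io_sg]
    have := io_three (beta a.v (T a.n b.v))
    linear_combination ha + (sg a.n : ZMod 9) * hb + this
  one_mem' := by simp [one_z, one_v, io_zero]
  inv_mem' := by
    intro a ha
    simp only [Set.mem_ofPred_eq] at *
    simp only [inv_z, inv_v, map_neg, io_neg, psi_T, io_sg, sg_neg]
    have := io_three (beta a.v a.v)
    linear_combination (-(sg a.n : ZMod 9)) * ha + (sg a.n : ZMod 9) * this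

def B : Subgroup (G (-1)) where
  carrier := {g | 3 * g.z = 0}
  mul_mem' := by
    intro a b ha hb
    simp only [Set.mem_ofPred_eq] at *
    simp only [mul_z]
    have := io_three (beta a.v (T a.n b.v))
    linear_combination ha + (sg a.n : ZMod 9) * hb - this
  one_mem' := by simp [one_z]
  inv_mem' := by
    intro a ha
    simp only [Set.mem_ofPred_eq] at *
    simp only [inv_z]
    have := io_three (beta a.v a.v)
    linear_combination (-(sg a.n : ZMod 9)) * ha - (sg a.n : ZMod 9) * this

open DihedralGroup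

lemma getx {U : Type} [Group U] (i : U →* G e) (p : U →* DihedralGroup 9)
    (hp : Function.Surjective p) :
    ∃ x u : U, (i x).n = 0 ∧ p x = r 2 ∧ p u = sr 0 := by
  obtain ⟨a, ha⟩ := hp (r 1)
  obtain ⟨u, hu⟩ := hp (sr 0)
  refine ⟨a * u * a⁻¹ * u⁻¹, u, ?_, ?_, hu⟩
  · simp only [map_mul, map_inv, mul_n, inv_n]; ring
  · simp only [map_mul, map_inv, ha, hu]; decide

lemma noB {U : Type} [Group U] (i : U →* G (-1)) (hi : Function.Injective i)
    (hB : ∀ u, i u ∈ B) (p : U →* DihedralGroup 9) (hp : Function.Surjective p) : False := by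
  obtain ⟨x, u, hx, hpx, hu⟩ := getx i p hp
  have h1 := cube (i x) hx
  have h2 : 3 * (i x).z = 0 := hB x
  rw [h2] at h1
  have h3 : x * x * x = 1 := by
    apply hi
    rw [map_mul, map_mul, h1, map_one]; rfl
  have h4 := congrArg p h3
  rw [map_mul, map_mul, hpx, map_one] at h4
  revert h4; decide

lemma noA {U : Type} [Group U] (i : U →* G 1) (hi : Function.Injective i)
    (hA : ∀ u, i u ∈ A) (p : U →* DihedralGroup 9) (hp : Function.Surjective p) : False := by
  obtain ⟨x, u, hx, hpx, hu⟩ := getx i p hp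
  have h1 := cube (i x) hx
  have h2 : 3 * (i x).z = io (psi (i x).v) := hA x
  have h3 : i (x * x * x) = cc (3 * (i x).z) := by rw [map_mul, map_mul, h1]
  have h4 : p (x * x * x) = r 6 := by rw [map_mul, map_mul, hpx]; decide
  have hz : 3 * (i x).z ≠ 0 := by
    intro h
    rw [h] at h3
    have : x * x * x = 1 := by
      apply hi
      rw [h3, map_one]; rfl
    rw [this, map_one] at h4
    revert h4; decide
  have hv : (i x).v ≠ 0 := by
    intro h
    rw [h, map_zero, io_zero] at h2
    exact hz h2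
  have hk : (i u).n ≠ 0 := by
    intro h
    have h5 := cc_comm (i u) h (3 * (i x).z)
    rw [← h3, ← map_mul, ← map_mul] at h5
    have h6 := congrArg p (hi h5)
    rw [map_mul p u, map_mul p _ u, h4, hu] at h6
    revert h6; decide
  obtain ⟨n, hn⟩ := key _ hv _ hk
  set y : U := u ^ n * x * (u ^ n)⁻¹ with hy
  have hyn : (i y).n = 0 := by
    rw [hy, map_mul, map_mul, map_inv]; exact conj_n _ _ hx
  have hyv : (i y).v = T (n * (i u).n) (i x).v := by
    rw [hy, map_mul, map_mul, map_inv, conj_v _ _ hx, map_zpow, zpow_n]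
  have hpy : p x * p y = p y * p x := by
    rw [hy, map_mul, map_mul, map_inv, hpx]
    generalize p (u ^ n) = d
    revert d; decide
  have h7 := comm_eq (i x) (i y) hx hyn
  rw [hyv] at h7
  set w := io (beta (i x).v (T (n * (i u).n) (i x).v)) - io (beta (T (n * (i u).n) (i x).v) (i x).v)
    with hw
  have hw0 : w ≠ 0 := by
    intro h
    exact hn (io_inj _ _ (sub_eq_zero.mp h))
  have hw3 : 3 * w = 0 := by
    rw [hw, mul_sub, io_three, io_three, sub_zero]
  have hcase : w = 3 * (i x).z ∨ w = 3 * (i x).z + 3 * (i x).z := by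
    revert hw0 hw3 hz
    generalize w = a
    generalize (i x).z = b
    revert a b; decide
  rw [one_mul] at h7
  rcases hcase with h | h
  · rw [h, ← h3, ← map_mul, ← map_mul, ← map_mul] at h7
    have h8 := congrArg p (hi h7)
    rw [map_mul p x y, map_mul p (x * x * x), map_mul p y x, h4, hpy] at h8
    have h9 : (r 6 : DihedralGroup 9) = 1 := by
      simpa using h8.symm
    revert h9; decide
  · rw [h, ← cc_mul, ← h3, ← map_mul, ← map_mul, ← map_mul, ← map_mul] at h7
    have h8 := congrArg p (hi h7)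
    rw [map_mul p x y, map_mul p (x * x * x * (x * x * x)), map_mul p y x, map_mul p (x * x * x),
      h4, hpy] at h8
    have h9 : (r 6 * r 6 : DihedralGroup 9) = 1 := by
      simpa using h8.symm
    revert h9; decide

def H : Subgroup (A × B) where
  carrier := {g | g.1.1.v = g.2.1.v ∧ g.1.1.n = g.2.1.n}
  mul_mem' := by
    rintro a b ⟨h1, h2⟩ ⟨h3, h4⟩
    constructor
    · simp only [Prod.fst_mul, Prod.snd_mul, Subgroup.coe_mul, mul_v, h1, h2, h3]
    · simp only [Prod.fst_mul, Prod.snd_mul, Subgroup.coe_mul, mul_n, h2, h4]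
  one_mem' := ⟨rfl, rfl⟩
  inv_mem' := by
    rintro a ⟨h1, h2⟩
    constructor
    · simp only [Prod.fst_inv, Prod.snd_inv, Subgroup.coe_inv, inv_v, h1, h2]
    · simp only [Prod.fst_inv, Prod.snd_inv, Subgroup.coe_inv, inv_n, h2]

/-- the dihedral element attached to a rotation part and a sign -/
def dd (z s : ZMod 9) : DihedralGroup 9 := if s = 1 then r z else sr (-z)

lemma dd_mul (z y s t : ZMod 9) (hs : s = 1 ∨ s = -1) (ht : t = 1 ∨ t = -1) :
    dd (z + s * y) (s * t) = dd z s * dd y t := by
  rcases hs with rfl | rfl <;> rcases ht with rfl | rfl <;> revert z y <;> decide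

lemma sg_cases (n : ℤ) : (sg n : ZMod 9) = 1 ∨ (sg n : ZMod 9) = -1 := by
  rcases Int.units_eq_one_or (Int.negOnePow n) with h | h <;> simp [sg, h]

noncomputable def phi : H →* DihedralGroup 9 :=
  MonoidHom.mk' (fun g => dd (g.1.1.1.z + g.1.2.1.z) (sg g.1.1.1.n : ZMod 9)) (by
    rintro ⟨a, h1, h2⟩ ⟨b, h3, h4⟩
    rw [← dd_mul _ _ _ _ (sg_cases _) (sg_cases _)]
    simp only [Subgroup.coe_mul, Prod.fst_mul, Prod.snd_mul, mul_z, mul_n, sg_add, ← h1, ← h2, ← h3]
    congr 1
    · ring
    · push_cast; ring)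

lemma phi_surj : Function.Surjective phi := by
  have hA1 : (⟨Finsupp.single 0 1, 1, 0⟩ : G 1) ∈ A := by
    show 3 * (1 : ZMod 9) = io (psi (Finsupp.single 0 1))
    rw [psi_single, sg_zero]; decide
  have hB1 : (⟨Finsupp.single 0 1, 0, 0⟩ : G (-1)) ∈ B := by
    show 3 * (0 : ZMod 9) = 0
    simp
  have hA2 : (⟨0, 0, 1⟩ : G 1) ∈ A := by
    show 3 * (0 : ZMod 9) = io (psi 0)
    rw [map_zero]; decide
  have hB2 : (⟨0, 0, 1⟩ : G (-1)) ∈ B := by
    show 3 * (0 : ZMod 9) = 0
    simp
  let a : H := ⟨(⟨_, hA1⟩, ⟨_, hB1⟩), rfl, rfl⟩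
  let b : H := ⟨(⟨_, hA2⟩, ⟨_, hB2⟩), rfl, rfl⟩
  have ha : phi a = r 1 := by
    show dd (1 + 0) (sg 0 : ZMod 9) = r 1
    rw [sg_zero]; decide
  have hb : phi b = sr 0 := by
    show dd (0 + 0) (sg 1 : ZMod 9) = sr 0
    rw [sg_one]; decide
  have hall : ∀ d : DihedralGroup 9, ∃ m : Fin 9, ∃ l : Fin 2,
      (r 1 : DihedralGroup 9) ^ (m : ℕ) * (sr 0) ^ (l : ℕ) = d := by decide
  intro d
  obtain ⟨m, l, h⟩ := hall d
  exact ⟨a ^ (m : ℕ) * b ^ (l : ℕ), by rw [map_mul, map_pow, map_pow, ha, hb, h]⟩

theorem result :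
    ¬ (∀ (A B : Type) [Group A] [Group B],
      (∃ H : Subgroup (A × B), ∃ f : H →* DihedralGroup 9, Function.Surjective f) →
      ((∃ H : Subgroup A, ∃ f : H →* DihedralGroup 9, Function.Surjective f) ∨
       (∃ H : Subgroup B, ∃ f : H →* DihedralGroup 9, Function.Surjective f))) := by
  intro h
  rcases h A B ⟨H, phi, phi_surj⟩ with ⟨U, p, hp⟩ | ⟨U, p, hp⟩
  · exact noA (A.subtype.comp U.subtype)
      (A.subtype_injective.comp U.subtype_injective) (fun u => u.1.2) p hp
  · exact noB (B.subtype.comp U.subtype)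
      (B.subtype_injective.comp U.subtype_injective) (fun u => u.1.2) p hp

end Pool.Agent.S02924
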