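import Pool.Statements.S02941

set_option autoImplicit false
open Pool Pool.MP_bfcf3a_al

namespace Pool.Agent.S02941

open Matrix

/-- A permutation that keeps every 2-subset in its orbit keeps every point in its orbit. -/
lemma point_orbit {Ω : Type} [Fintype Ω] (h3 : 3 ≤ Fintype.card Ω)
    (G : Subgroup (Equiv.Perm Ω)) (σ : Equiv.Perm Ω)
    (hσ : ∀ a b : Ω, a ≠ b → ∃ g ∈ G, ({g a, g b} : Set Ω) = {σ a, σ b}) (a : Ω) :
    ∃ g ∈ G, g a = σ a := by
  classical
  -- points with a non-trivial orbit
  have key : ∀ x : Ω, (∃ k ∈ G, k x ≠ x) → ∃ g ∈ G, g x = σ x := by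
    rintro x ⟨k, hk, hkx⟩
    obtain ⟨g, hg, he⟩ := hσ x (k x) hkx.symm
    have : σ x ∈ ({g x, g (k x)} : Set Ω) := by rw [he]; simp
    rcases this with h | h
    · exact ⟨g, hg, h.symm⟩
    · exact ⟨g * k, G.mul_mem hg hk, by simpa using h.symm⟩
  by_cases ha : ∃ k ∈ G, k a ≠ a
  · exact key a ha
  push Not at ha
  refine ⟨1, G.one_mem, ?_⟩
  -- a is fixed by G; then a lies in {σ a, σ b} for every b ≠ a
  by_contra hne
  have hne' : a ≠ σ a := by simpa using hne
  have hall : ∀ b : Ω, a ≠ b → σ b = a := by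
    intro b hb
    obtain ⟨g, hg, he⟩ := hσ a b hb
    have : a ∈ ({σ a, σ b} : Set Ω) := by rw [← he, ha g hg]; simp
    rcases this with h | h
    · exact absurd h hne'
    · exact (Set.mem_singleton_iff.mp h).symm
  have hcard : 1 < (Finset.univ.erase a).card := by
    rw [Finset.card_erase_of_mem (Finset.mem_univ a), Finset.card_univ]
    omega
  obtain ⟨b, hb, c, hc, hbc⟩ := Finset.one_lt_card.mp hcard
  have hb' := (Finset.mem_erase.mp hb).1
  have hc' := (Finset.mem_erase.mp hc).1
  exact hbc (σ.injective ((hall b hb'.symm).trans (hall c hc'.symm).symm))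

/-- For every finite set with at least 3 points and every permutation group G on it, the real
closure of G is its strong 2-closure. -/
theorem result :
    ∀ (Ω : Type) [Fintype Ω], 3 ≤ Fintype.card Ω →
      ∀ G : Subgroup (Equiv.Perm Ω),
        ({σ : Equiv.Perm Ω |
            ∀ W : Submodule ℝ (Ω → ℝ),
              (∀ g ∈ G, ∀ f ∈ W, (fun x => f (g x)) ∈ W) →
                ∀ f ∈ W, (fun x => f (σ x)) ∈ W} : Set (Equiv.Perm Ω)) =
        ({σ : Equiv.Perm Ω |
            ∀ a b : Ω, a ≠ b →
              ∃ g ∈ G, ({g a, g b} : Set Ω) = {σ a, σ b}} : Set (Equiv.Perm Ω)) := by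
  classical
  intro Ω _ h3 G
  ext σ
  simp only [Set.mem_ofPred_eq]
  constructor
  · intro hσ a b _
    let M : Matrix Ω Ω ℝ := fun x y =>
      if ∃ g ∈ G, ({g a, g b} : Set Ω) = {x, y} then 1 else 0
    have hsymm : ∀ x y, M x y = M y x := by
      intro x y
      simp only [M, Set.pair_comm x y]
    have hinv : ∀ k ∈ G, ∀ x y, M (k x) (k y) = M x y := by
      intro k hk x y
      have : (∃ g ∈ G, ({g a, g b} : Set Ω) = {k x, k y}) ↔
          (∃ g ∈ G, ({g a, g b} : Set Ω) = {x, y}) := by
        constructor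
        · rintro ⟨g, hg, he⟩
          refine ⟨k⁻¹ * g, G.mul_mem (G.inv_mem hk) hg, ?_⟩
          have := congrArg (Set.image (k⁻¹ : Equiv.Perm Ω)) he
          simpa [Set.image_pair] using this
        · rintro ⟨g, hg, he⟩
          refine ⟨k * g, G.mul_mem hk hg, ?_⟩
          have := congrArg (Set.image (k : Equiv.Perm Ω)) he
          simpa [Set.image_pair] using this
      simp only [M, this]
    have hH : M.IsHermitian := by
      ext x y
      simp [conjTranspose_apply, hsymm y x]
    -- the eigenspaces are invariant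
    have heig : ∀ (c : ℝ) (f : Ω → ℝ), M *ᵥ f = c • f →
        M *ᵥ (fun x => f (σ x)) = c • (fun x => f (σ x)) := by
      intro c f hf
      let W : Submodule ℝ (Ω → ℝ) :=
        { carrier := {f | M *ᵥ f = c • f}
          add_mem' := by
            intro u v hu hv
            simp only [Set.mem_ofPred_eq] at hu hv ⊢
            rw [mulVec_add, hu, hv, smul_add]
          zero_mem' := by simp
          smul_mem' := by
            intro r u hu
            simp only [Set.mem_ofPred_eq] at hu ⊢
            rw [mulVec_smul, hu, smul_comm] }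
      refine hσ W ?_ f hf
      intro k hk u hu
      have hu' : M *ᵥ u = c • u := hu
      show M *ᵥ (fun x => u (k x)) = c • (fun x => u (k x))
      funext x
      have h1 := congrFun hu' (k x)
      simp only [mulVec, dotProduct, Pi.smul_apply, smul_eq_mul] at h1 ⊢
      rw [← h1, ← Equiv.sum_comp k (fun y => M (k x) y * u y)]
      exact Finset.sum_congr rfl fun y _ => by rw [hinv k hk]
    -- hence composition with σ commutes with M
    have hcomm : ∀ f : Ω → ℝ, M *ᵥ (fun x => f (σ x)) = fun x => (M *ᵥ f) (σ x) := by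
      let L₁ : EuclideanSpace ℝ Ω →ₗ[ℝ] (Ω → ℝ) :=
        (mulVecLin M) ∘ₗ (LinearMap.funLeft ℝ ℝ σ) ∘ₗ (WithLp.linearEquiv 2 ℝ (Ω → ℝ)).toLinearMap
      let L₂ : EuclideanSpace ℝ Ω →ₗ[ℝ] (Ω → ℝ) :=
        (LinearMap.funLeft ℝ ℝ σ) ∘ₗ (mulVecLin M) ∘ₗ (WithLp.linearEquiv 2 ℝ (Ω → ℝ)).toLinearMap
      have hL : L₁ = L₂ := by
        apply hH.eigenvectorBasis.toBasis.ext
        intro j
        have h1 := hH.mulVec_eigenvectorBasis j
        have h2 := heig _ _ h1
        show M *ᵥ (fun x => (hH.eigenvectorBasis.toBasis j).ofLp (σ x)) =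
          fun x => (M *ᵥ (hH.eigenvectorBasis.toBasis j).ofLp) (σ x)
        rw [OrthonormalBasis.coe_toBasis, h2, h1]
        rfl
      intro f
      exact LinearMap.congr_fun hL (WithLp.toLp 2 f)
    have h1 := congrFun (hcomm (Pi.single (σ b) 1)) a
    have h2 : (fun x => (Pi.single (σ b) (1 : ℝ) : Ω → ℝ) (σ x)) = Pi.single b 1 := by
      funext x
      simp [Pi.single_apply]
    rw [h2] at h1
    simp only [mulVec_single_one, col_apply] at h1
    have h4 : M a b = 1 := by
      simp only [M]
      rw [if_pos ⟨1, G.one_mem, by simp⟩]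
    by_contra hcon
    have h5 : M (σ a) (σ b) = 0 := by
      simp only [M]
      rw [if_neg hcon]
    rw [h4, h5] at h1
    exact one_ne_zero h1
  · intro hσ W hW f hf
    haveI : Fintype G := Fintype.ofFinite G
    let S : Ω → Ω → ℝ := fun x y => ∑ g : G, f ((g : Equiv.Perm Ω) x) * f ((g : Equiv.Perm Ω) y)
    have hsymm : ∀ x y, S x y = S y x := by
      intro x y
      simp only [S, mul_comm]
    have hinv : ∀ k ∈ G, ∀ x y, S (k x) (k y) = S x y := by
      intro k hk x y
      simp only [S]
      rw [← Equiv.sum_comp (Equiv.mulRight (⟨k, hk⟩ : G))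
        (fun g : G => f ((g : Equiv.Perm Ω) x) * f ((g : Equiv.Perm Ω) y))]
      simp
    have hS : ∀ x y, S (σ x) (σ y) = S x y := by
      intro x y
      by_cases hxy : x = y
      · subst hxy
        obtain ⟨g, hg, he⟩ := point_orbit h3 G σ hσ x
        rw [← he, hinv g hg]
      · obtain ⟨g, hg, he⟩ := hσ x y hxy
        rcases Set.pair_eq_pair_iff.mp he with ⟨h1, h2⟩ | ⟨h1, h2⟩
        · rw [← h1, ← h2, hinv g hg]
        · rw [← h1, ← h2, hinv g hg, hsymm]
    rw [← Subspace.forall_mem_dualAnnihilator_apply_eq_zero_iff]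
    intro φ hφ
    rw [Submodule.mem_dualAnnihilator] at hφ
    let h : Ω → ℝ := fun x => φ (fun j => if x = j then 1 else 0)
    have hrep : ∀ u : Ω → ℝ, φ u = ∑ x, u x * h x := by
      intro u
      rw [LinearMap.pi_apply_eq_sum_univ φ u]
      simp [h]
    have hsq : ∀ τ : Equiv.Perm Ω,
        ∑ g : G, (φ (fun x => f ((g : Equiv.Perm Ω) (τ x)))) ^ 2 =
          ∑ x, ∑ y, h x * h y * S (τ x) (τ y) := by
      intro τ
      simp only [hrep, sq, Finset.sum_mul_sum]
      simp only [S, Finset.mul_sum]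
      rw [Finset.sum_comm]
      refine Finset.sum_congr rfl fun x _ => ?_
      rw [Finset.sum_comm]
      refine Finset.sum_congr rfl fun y _ => ?_
      refine Finset.sum_congr rfl fun g _ => ?_
      ring
    have h0 : ∑ g : G, (φ (fun x => f ((g : Equiv.Perm Ω) (σ x)))) ^ 2 = 0 := by
      rw [hsq σ]
      simp only [hS]
      have := hsq 1
      simp only [Equiv.Perm.coe_one, id] at this
      rw [← this]
      refine Finset.sum_eq_zero fun g _ => ?_
      rw [hφ _ (hW g g.2 f hf)]
      simp
    rw [Finset.sum_eq_zero_iff_of_nonneg (fun g _ => sq_nonneg _)] at h0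
    have := h0 1 (Finset.mem_univ _)
    simpa using this

end Pool.Agent.S02941
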