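import Pool.Statements.S02958
-- import your own Pool.Agent.* helpers here

set_option autoImplicit false
open Pool Pool.MP_c12e41_al

namespace Pool.Agent.S02958

noncomputable section
open MonoidAlgebra

abbrev KK := ZMod 2

@[ext] structure WW where
  f : ℤ → KK
  s : ℤ

instance : Group WW where
  mul x y := ⟨fun i => x.f i + y.f (i - x.s), x.s + y.s⟩
  one := ⟨0, 0⟩
  inv x := ⟨fun i => -x.f (i + x.s), -x.s⟩
  mul_assoc x y z := by
    ext i
    · change x.f i + y.f (i - x.s) + z.f (i - (x.s + y.s)) =
        x.f i + (y.f (i - x.s) + z.f (i - x.s - y.s))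
      rw [add_assoc, sub_sub]
    · exact add_assoc _ _ _
  one_mul x := by
    ext i
    · change 0 + x.f (i - 0) = x.f i
      simp
    · exact zero_add _
  mul_one x := by
    ext i
    · exact add_zero _
    · exact add_zero _
  inv_mul_cancel x := by
    ext i
    · change -x.f (i + x.s) + x.f (i - -x.s) = 0
      rw [sub_neg_eq_add, neg_add_cancel]
    · exact neg_add_cancel _

theorem mul_f (x y : WW) (i : ℤ) : (x * y).f i = x.f i + y.f (i - x.s) := rfl
theorem mul_s (x y : WW) : (x * y).s = x.s + y.s := rfl

def dl (j : ℤ) : ℤ → KK := fun i => if i = j then 1 else 0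

def GG : Subgroup WW := Subgroup.closure {⟨dl 0, 0⟩, ⟨0, 1⟩}

def aa : GG := ⟨⟨dl 0, 0⟩, Subgroup.subset_closure (Or.inl rfl)⟩
def tt : GG := ⟨⟨0, 1⟩, Subgroup.subset_closure (Or.inr rfl)⟩

theorem tt_pow (k : ℕ) : ((tt ^ k : GG) : WW) = ⟨0, k⟩ := by
  induction k with
  | zero => rfl
  | succ k ih =>
    rw [pow_succ, Subgroup.coe_mul, ih]
    ext i
    · simp [mul_f, tt]
    · simp [mul_s, tt]

def bb (k : ℕ) : GG := tt ^ k * aa * (tt ^ k)⁻¹

theorem bb_val (k : ℕ) : (bb k : WW) = ⟨dl k, 0⟩ := by
  have h : (⟨dl k, 0⟩ : WW) * (tt ^ k : GG) = (tt ^ k * aa : GG) := by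
    rw [Subgroup.coe_mul, tt_pow]
    ext i
    · simp [mul_f, aa, dl, sub_eq_zero]
    · simp [mul_s, aa]
  rw [bb, Subgroup.coe_mul, ← h, Subgroup.coe_inv, mul_inv_cancel_right]

theorem bb_sq (k : ℕ) : bb k * bb k = 1 := by
  apply Subtype.ext
  rw [Subgroup.coe_mul, bb_val]
  ext i
  · rw [mul_f, sub_zero]
    exact CharTwo.add_self_eq_zero _
  · rfl

theorem bb_comm (k m : ℕ) : bb k * bb m = bb m * bb k := by
  apply Subtype.ext
  rw [Subgroup.coe_mul, Subgroup.coe_mul, bb_val, bb_val]
  ext i
  · rw [mul_f, mul_f, sub_zero, add_comm]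
  · rfl

theorem bb_zero : bb 0 = aa := by simp [bb]

abbrev RR := MonoidAlgebra KK GG

def pair (F : GG → KK) : RR →+ KK :=
  (Finsupp.linearCombination KK F).toAddMonoidHom.comp coeffAddEquiv.toAddMonoidHom

theorem pair_single (F : GG → KK) (g : GG) (c : KK) : pair F (single g c) = c * F g := by
  simp [pair]

theorem pair_add (F F' : GG → KK) (x : RR) :
    pair (fun g => F g + F' g) x = pair F x + pair F' x := by
  induction x using induction_linear with
  | zero => simp
  | add x y hx hy => rw [map_add, map_add, map_add, hx, hy]; ring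
  | single g c => simp only [pair_single]; ring

theorem pair_right (F : GG → KK) (h : GG) (x : RR) :
    pair F (x * single h 1) = pair (fun g => F (g * h)) x := by
  induction x using induction_linear with
  | zero => simp
  | add x y hx hy => rw [add_mul, map_add, map_add, hx, hy]
  | single g c => simp [pair_single]

theorem pair_left (F : GG → KK) (h : GG) (c : KK) (x : RR) :
    pair F (single h c * x) = c * pair (fun g => F (h * g)) x := by
  induction x using induction_linear with
  | zero => simp
  | add x y hx hy => rw [mul_add, map_add, map_add, hx, hy, mul_add]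
  | single g c => simp [pair_single, mul_assoc]

def al : RR := (1 + single tt 1) * (1 + single aa 1)

theorem two_zero (x : RR) : x + x = 0 := by
  ext g
  exact CharTwo.add_self_eq_zero _

theorem kill (E : (ℤ → KK) → ℤ → KK)
    (hE : ∀ f s, E (fun i => f i + dl 0 (i - s)) s = E f s) (x : RR) (hx : x * al = 0) :
    pair (fun g => E g.1.f g.1.s + E g.1.f (g.1.s + 1)) x = 0 := by
  have h1 : ∀ y : RR, pair (fun g => g.1.f g.1.s * E g.1.f g.1.s) (y * (1 + single aa 1)) =
      pair (fun g => E g.1.f g.1.s) y := by
    intro y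
    rw [mul_add, mul_one, map_add, pair_right, ← pair_add]
    congr 2
    funext g
    have e1 : (g * aa).1.f = fun i => g.1.f i + dl 0 (i - g.1.s) := rfl
    have e2 : (g * aa).1.s = g.1.s := add_zero _
    rw [e1, e2, hE]
    simp only [dl, sub_self, if_true]
    rw [add_mul, ← add_assoc, CharTwo.add_self_eq_zero, zero_add, one_mul]
  have h2 := h1 (x * (1 + single tt 1))
  rw [mul_assoc, ← al, hx, map_zero, mul_add, mul_one, map_add, pair_right, ← pair_add] at h2
  rw [h2]
  congr 2
  funext g
  have e1 : (g * tt).1.f = g.1.f := funext fun i => add_zero _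
  rw [e1]
  rfl

def ww (n : ℕ) (g : GG) : KK := g.1.f g.1.s * g.1.f (g.1.s + n + 1)

theorem invar (n : ℕ) (h : GG) : ∀ x : RR, x * al = 0 →
    pair (ww n) (single h 1 * x) = pair (ww n) x := by
  obtain ⟨h, hh⟩ := h
  induction hh using Subgroup.closure_induction with
  | mem y hy =>
    intro x hx
    rw [pair_left, one_mul]
    rcases hy with rfl | rfl
    · have := kill (fun f s => (if s ≤ 0 then f (n + 1) else 0) +
        (if -(n + 1 : ℤ) < s then f (-(n + 1)) else 0)) (by
          intro f s
          congr 1
          · split_ifs with h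
            · simp only [dl]
              rw [if_neg (by omega), add_zero]
            · rfl
          · split_ifs with h
            · simp only [dl]
              rw [if_neg (by omega), add_zero]
            · rfl) x hx
      rw [← add_zero (pair (ww n) x), ← this, ← pair_add]
      congr 2
      funext g
      change (dl 0 (0 + g.1.s) + g.1.f (0 + g.1.s - 0)) *
        (dl 0 (0 + g.1.s + n + 1) + g.1.f (0 + g.1.s + n + 1 - 0)) = _
      simp only [zero_add, sub_zero, ww, dl]
      generalize g.1.s = s
      by_cases h1 : s = 0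
      · subst h1
        rw [if_pos rfl, if_neg (by omega), if_pos le_rfl, if_pos (by omega), if_neg (by omega),
          if_pos (by omega)]
        simp only [zero_add]
        generalize g.1.f 0 = p, g.1.f (n + 1) = q, g.1.f (-(n + 1)) = r
        revert p q r
        decide
      by_cases h2 : s = -(n + 1 : ℤ)
      · subst h2
        rw [if_neg h1, if_pos (by omega), if_pos (by omega), if_neg (by omega), if_pos (by omega),
          if_pos (by omega)]
        generalize g.1.f (-(n + 1) + n + 1) = p, g.1.f (n + 1) = q, g.1.f (-(n + 1)) = r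
        revert p q r
        decide
      · have e1 : s + 1 ≤ 0 ↔ s ≤ 0 := by omega
        have e2 : -(n + 1 : ℤ) < s + 1 ↔ -(n + 1 : ℤ) < s := by omega
        rw [if_neg h1, if_neg (by omega)]
        simp only [e1, e2, zero_add, CharTwo.add_self_eq_zero, add_zero]
    · congr 2
      funext g
      change (0 + g.1.f (1 + g.1.s - 1)) * (0 + g.1.f (1 + g.1.s + n + 1 - 1)) = _
      rw [zero_add, zero_add, ww]
      congr 2 <;> ring
  | one => intro x _; exact congrArg _ (one_mul x)
  | mul y z hy hz ihy ihz =>
    intro x hx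
    have : single (⟨y * z, mul_mem hy hz⟩ : GG) (1 : KK) = single ⟨y, hy⟩ 1 * single ⟨z, hz⟩ 1 := by
      rw [single_mul_single, one_mul]; rfl
    rw [this, mul_assoc, ihy _ (by rw [mul_assoc, hx, mul_zero]), ihz x hx]
  | inv y hy ih =>
    intro x hx
    rw [← ih _ (by rw [mul_assoc, hx, mul_zero]), ← mul_assoc, single_mul_single]
    have : (⟨y, hy⟩ : GG) * ⟨y⁻¹, inv_mem hy⟩ = 1 := Subtype.ext (mul_inv_cancel y)
    rw [this, mul_one, ← one_def, one_mul]

theorem invar' (n : ℕ) (r x : RR) (hx : x * al = 0) :
    pair (ww n) (r * x) = pair (fun _ => 1) r * pair (ww n) x := by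
  induction r using induction_linear with
  | zero => simp
  | add r r' h h' => rw [add_mul, map_add, map_add, h, h', add_mul]
  | single g c =>
    have := invar n g x hx
    rw [pair_left, one_mul] at this
    rw [pair_left, this, pair_single, mul_one]

def rho (m : ℕ) : RR :=
  (1 + single (bb 0) 1) * (1 + single (bb (m + 1)) 1) *
    ∑ k ∈ Finset.range (m + 1), single tt 1 ^ k

theorem sq0 (k : ℕ) : (1 + single (bb k) 1 : RR) * (1 + single (bb k) 1) = 0 := by
  rw [mul_add, mul_one, add_mul, one_mul, single_mul_single, bb_sq, mul_one, ← one_def,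
    add_comm (single (bb k) 1), two_zero]

theorem rho_al (m : ℕ) : rho m * al = 0 := by
  have h0 : (1 + single tt 1 : RR) = 1 - single tt 1 := by
    rw [sub_eq_add_neg, neg_eq_of_add_eq_zero_left (two_zero _)]
  have h1 : (single tt 1 : RR) ^ (m + 1) * (1 + single (bb 0) 1) =
      (1 + single (bb (m + 1)) 1) * single tt 1 ^ (m + 1) := by
    rw [mul_add, add_mul, mul_one, one_mul, single_pow, single_mul_single, single_mul_single,
      bb_zero, bb, inv_mul_cancel_right, mul_comm (1 : KK)]
  have h2 : (1 + single (bb (m + 1)) 1 : RR) * (1 + single (bb 0) 1) =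
      (1 + single (bb 0) 1) * (1 + single (bb (m + 1)) 1) := by
    simp only [mul_add, add_mul, mul_one, one_mul, single_mul_single, bb_comm 0]
    abel
  rw [rho, al, h0, ← bb_zero, mul_assoc, ← mul_assoc (∑ k ∈ _, _), geom_sum_mul_neg, sub_mul,
    one_mul, h1, mul_sub, mul_assoc, h2, ← mul_assoc, sq0, zero_mul, mul_assoc, ← mul_assoc _ _
      (_ ^ _), sq0, zero_mul, mul_zero, sub_zero]

theorem pair_rho (n m : ℕ) : pair (ww n) (rho m) = if n = m then 1 else 0 := by
  rw [rho, Finset.mul_sum, map_sum]
  have key : ∀ k ∈ Finset.range (m + 1), pair (ww n)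
      ((1 + single (bb 0) 1) * (1 + single (bb (m + 1)) 1) * single tt 1 ^ k) =
      if k = 0 then (if n = m then 1 else 0) else 0 := by
    intro k hk
    have hk' := Finset.mem_range.mp hk
    simp only [mul_add, add_mul, mul_one, one_mul, single_pow, single_mul_single, map_add,
      pair_single, one_pow, ww, Subgroup.coe_mul, bb_val, tt_pow, mul_f, mul_s, dl, zero_add,
      Pi.zero_apply, add_zero, sub_zero, mul_zero]
    push_cast
    split_ifs <;> first | omega | simp
  rw [Finset.sum_congr rfl key, Finset.sum_ite_eq']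
  simp

end

theorem result :
    ¬ (∀ (K : Type) [Field K] (G : Type) [Group G] (a : MonoidAlgebra K G),
      ∃ s : Finset (MonoidAlgebra K G),
        ((Submodule.span (MonoidAlgebra K G) (s : Set (MonoidAlgebra K G)) :
            Set (MonoidAlgebra K G)) = {x : MonoidAlgebra K G | x * a = 0})) := by
  intro hall
  obtain ⟨s, hs⟩ := hall KK GG al
  have hm : ∀ x : RR, x ∈ Submodule.span RR (s : Set RR) ↔ x * al = 0 := fun x =>
    Set.ext_iff.mp hs x
  obtain ⟨n, m, hne, h⟩ := Finite.exists_ne_map_eq_of_infinite
    (fun (n : ℕ) (x : s) => pair (ww n) x)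
  have key : ∀ x ∈ Submodule.span RR (s : Set RR), pair (ww n) x = pair (ww m) x := by
    intro x hx
    induction hx using Submodule.span_induction with
    | mem x hx => exact congrFun h ⟨x, hx⟩
    | zero => simp
    | add x y _ _ h1 h2 => rw [map_add, map_add, h1, h2]
    | smul r x hx h1 =>
      rw [smul_eq_mul, invar' n r x ((hm x).mp hx), invar' m r x ((hm x).mp hx), h1]
  have := key _ ((hm _).mpr (rho_al n))
  rw [pair_rho, pair_rho, if_pos rfl, if_neg hne.symm] at this
  exact one_ne_zero this

end Pool.Agent.S02958
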