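import Pool.Statements.S02978
import Pool.Agent.H.MP_c3451b_al.C

set_option autoImplicit false
open Pool Pool.MP_c3451b_al

namespace Pool.Agent.S02978

theorem result :
    ¬ (∀ a b c d : Equiv.Perm (ℕ → Bool),
      (∀ x j, a x j ≠ x j ↔ j = 0) →
      (∀ x j, b x j ≠ x j ↔ ∃ k, j = k + 1 ∧ x k = false ∧ (∀ i < k, x i = true) ∧ k % 3 ≠ 2) →
      (∀ x j, c x j ≠ x j ↔ ∃ k, j = k + 1 ∧ x k = false ∧ (∀ i < k, x i = true) ∧ k % 3 ≠ 1) →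
      (∀ x j, d x j ≠ x j ↔ ∃ k, j = k + 1 ∧ x k = false ∧ (∀ i < k, x i = true) ∧ k % 3 ≠ 0) →
      ∀ G : Subgroup (Equiv.Perm (ℕ → Bool)),
        G = Subgroup.closure ({a, b, c, d} : Set (Equiv.Perm (ℕ → Bool))) →
        ∀ (n : ℕ) (A : Fin n → Subgroup G), (∀ i, (A i).FG) →
          ∀ g : G, (∀ f : Fin n → G, (∀ i, f i ∈ A i) → (List.ofFn f).prod ≠ g) →
            ∃ N : Subgroup G, N.FiniteIndex ∧
              ∀ f : Fin n → G, (∀ i, f i ∈ A i) → ∀ m ∈ N, (List.ofFn f).prod * m ≠ g) := by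
  exact Pool.Agent.H.MP_c3451b_al.main

end Pool.Agent.S02978
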