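import Pool.Statements.S03016
import Pool.Agent.H.MP_37d31d_al.Main

set_option autoImplicit false
open Pool Pool.MP_c8c3c9_al

namespace Pool.Agent.S03016

theorem result :
    ¬ (∀ (X : Type) [Rack X] [Finite X],
      (∀ y z : X, Relation.EqvGen (fun a b : X => ∃ x : X, Shelf.act x a = b) y z) →
      ∀ x : X, ∃ w : X, ∀ z : X,
        Function.minimalPeriod (Shelf.act x) z ∣ Function.minimalPeriod (Shelf.act x) w) := by
  intro h
  obtain ⟨X, _, _, hc, x, hx⟩ := Pool.Agent.H.MP_37d31d_al.quandle
  have hE := Relation.EqvGen.is_equivalence (fun a b : X => ∃ x : X, Shelf.act x a = b)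
  have key : ∀ g ∈ Subgroup.closure (Set.range (Rack.act' : X → Equiv.Perm X)), ∀ a : X,
      Relation.EqvGen (fun a b : X => ∃ x : X, Shelf.act x a = b) a (g a) := by
    intro g hg
    induction hg using Subgroup.closure_induction with
    | mem z hz =>
      obtain ⟨t, rfl⟩ := hz
      exact fun a => Relation.EqvGen.rel _ _ ⟨t, rfl⟩
    | one => exact fun a => hE.refl _
    | mul s t _ _ h1 h2 => exact fun a => hE.trans (h2 a) (h1 _)
    | inv s _ h1 =>
      intro a
      have := h1 (s⁻¹ a)
      rw [← Equiv.Perm.mul_apply, mul_inv_cancel, Equiv.Perm.one_apply] at this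
      exact hE.symm this
  obtain ⟨z, hz⟩ := h X (fun a b => by
    obtain ⟨g, hg, rfl⟩ := hc a b
    exact key g hg a) x
  obtain ⟨y, hy⟩ := hx z
  exact hy (hz y)

end Pool.Agent.S03016
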