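import Pool.Statements.S03041
import Pool.Agent.H.MP_c9c98b_al.Main

set_option autoImplicit false
open Pool Pool.MP_c9c98b_al

namespace Pool.Agent.S03041

theorem result :
    ∃ (G : Type) (hG : Group G),
      (∀ (E : Type) (hE : Group E) (f : E →* G), Function.Surjective f →
        f.ker ≤ Subgroup.center E →
        ∀ g : E, g ≠ 1 →
          ∃ (H : Type) (hH : Group H) (φ : E →* H), Group.IsNilpotent H ∧ φ g ≠ 1) ∧
      ∃ (E₁ : Type) (h₁ : Group E₁) (f₁ : E₁ →* G)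
        (E₂ : Type) (h₂ : Group E₂) (f₂ : E₂ →* E₁),
        Function.Surjective f₁ ∧ f₁.ker ≤ Subgroup.center E₁ ∧
        Function.Surjective f₂ ∧ f₂.ker ≤ Subgroup.center E₂ ∧
        ∃ g : E₂, g ≠ 1 ∧
          ∀ (H : Type) (hH : Group H) (φ : E₂ →* H), Group.IsNilpotent H → φ g = 1 := by
  obtain ⟨f₁, h₁, k₁⟩ := Pool.Agent.H.MP_c9c98b_al.ext1
  obtain ⟨f₂, h₂, k₂⟩ := Pool.Agent.H.MP_c9c98b_al.ext2
  exact ⟨Pool.Agent.H.MP_c9c98b_al.G, inferInstance, Pool.Agent.H.MP_c9c98b_al.part1,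
    _, inferInstance, f₁, _, inferInstance, f₂, h₁, k₁, h₂, k₂, _,
    Pool.Agent.H.MP_c9c98b_al.z_ne, Pool.Agent.H.MP_c9c98b_al.z_dies⟩

end Pool.Agent.S03041
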