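import Pool.Statements.S03052
import Pool.Agent.H.MP_cacfbf_al.Main

set_option autoImplicit false
open Pool Pool.MP_cacfbf_al

namespace Pool.Agent.S03052

theorem result :
    ¬ (∀ (p : ℕ), p.Prime → ∀ (F : Type) [Field F] [CharP F p] (L : Type) [LieRing L] [LieAlgebra F L]
    (f : L → L),
    (∀ (a : F) (x : L), f (a • x) = a ^ p • f x) →
    (∀ x y : L, (LieAlgebra.ad F L x ^ p) y = ⁅f x, y⁆) →
    (∀ x y : L,
      UniversalEnvelopingAlgebra.ι F (f (x + y)) - UniversalEnvelopingAlgebra.ι F (f x)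
        - UniversalEnvelopingAlgebra.ι F (f y)
      = (UniversalEnvelopingAlgebra.ι F x + UniversalEnvelopingAlgebra.ι F y) ^ p
        - UniversalEnvelopingAlgebra.ι F x ^ p - UniversalEnvelopingAlgebra.ι F y ^ p) →
    ∀ R : NonUnitalSubalgebra F (RingQuot (fun a b : UniversalEnvelopingAlgebra F L =>
        ∃ x : L, a = UniversalEnvelopingAlgebra.ι F x ^ p ∧ b = UniversalEnvelopingAlgebra.ι F (f x))),
    (∃ m : ℕ, ∃ φ : FreeAlgebra F (Fin m), φ ≠ 0 ∧
      ∀ r : Fin m → RingQuot (fun a b : UniversalEnvelopingAlgebra F L =>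
        ∃ x : L, a = UniversalEnvelopingAlgebra.ι F x ^ p ∧ b = UniversalEnvelopingAlgebra.ι F (f x)),
        (∀ i, r i ∈ R) → FreeAlgebra.lift F r φ = 0) →
    ∀ n : ℕ, 1 ≤ n →
      (∃ t : ℕ, 1 ≤ t ∧
        ∀ r : Fin (2 * n) → RingQuot (fun a b : UniversalEnvelopingAlgebra F L =>
          ∃ x : L, a = UniversalEnvelopingAlgebra.ι F x ^ p ∧ b = UniversalEnvelopingAlgebra.ι F (f x)),
          (∀ i, r i ∈ R) →
          (∑ σ : Equiv.Perm (Fin (2 * n)),
            ((Equiv.Perm.sign σ : ℤˣ) : ℤ) • (List.ofFn fun i => r (σ i)).prod) ^ t = 0) →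
      (∀ m : ℕ, 1 ≤ m → m < n →
        ¬ ∃ t : ℕ, 1 ≤ t ∧
          ∀ r : Fin (2 * m) → RingQuot (fun a b : UniversalEnvelopingAlgebra F L =>
            ∃ x : L, a = UniversalEnvelopingAlgebra.ι F x ^ p ∧ b = UniversalEnvelopingAlgebra.ι F (f x)),
            (∀ i, r i ∈ R) →
            (∑ σ : Equiv.Perm (Fin (2 * m)),
              ((Equiv.Perm.sign σ : ℤˣ) : ℤ) • (List.ofFn fun i => r (σ i)).prod) ^ t = 0) →
      ∃ k : ℕ, n = p ^ k) := by
  open Pool.Agent.H.MP_cacfbf_al in
  intro h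
  have key : ∀ r : Fin 4 → U, (∀ i, r i ∈ NonUnitalAlgHom.range emb) → st r = 0 := by
    intro r hr
    choose m hm using hr
    obtain rfl : r = fun i => emb (m i) := funext fun i => (hm i).symm
    exact st_emb m
  obtain ⟨k, hk⟩ := h 3 Nat.prime_three F L f f_smul f_ad f_add (NonUnitalAlgHom.range emb)
    ⟨4, st (fun i : Fin 4 => FreeAlgebra.ι F i), st_ne, fun r hr => by
      have := key r hr
      simpa only [st, map_add, map_sub, map_mul, FreeAlgebra.lift_ι_apply] using this⟩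
    2 (by norm_num)
    ⟨1, le_rfl, fun r hr => by
      rw [pow_one]
      exact (expand r).trans (key r hr)⟩
    (by
      intro m h1 h2
      obtain rfl : m = 1 := by omega
      rintro ⟨t, -, ht⟩
      have := ht ![a, b] (by
        intro i
        fin_cases i
        · exact ⟨_, emb_a⟩
        · exact ⟨_, emb_b⟩)
      apply comm_ne t
      rw [← this]
      congr 1
      have hu : (Finset.univ : Finset (Equiv.Perm (Fin 2))) = {1, Equiv.swap 0 1} := by decide
      change _ = ∑ σ : Equiv.Perm (Fin 2),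
        ((Equiv.Perm.sign σ : ℤˣ) : ℤ) • (List.ofFn fun i => (![a, b] : Fin 2 → U) (σ i)).prod
      rw [hu, Finset.sum_pair (by decide)]
      simp [List.ofFn_succ, sub_eq_add_neg])
  rcases k with _ | k
  · simp at hk
  · rw [pow_succ] at hk; omega

end Pool.Agent.S03052
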