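import Pool.Statements.S03057
import Pool.Agent.H.MP_cb5d7d_al.F

set_option autoImplicit false
open Pool Pool.MP_cb5d7d_al

namespace Pool.Agent.S03057

theorem result : ∃ (G : Type) (_ : Group G) (_ : Countable G),
    (derivedSet {c : G → G → G → ℤ |
        (∀ a b d, c a b d = 0 ∨ c a b d = 1 ∨ c a b d = -1) ∧
        (∀ a b d, c a b d = 0 ↔ (a = b ∨ b = d ∨ a = d)) ∧
        (∀ g₁ g₂ g₃ g₄, c g₂ g₃ g₄ - c g₁ g₃ g₄ + c g₁ g₂ g₄ - c g₁ g₂ g₃ = 0) ∧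
        (∀ g a b d, c (g * a) (g * b) (g * d) = c a b d)}).Nonempty ∧
    ¬ Nonempty ((derivedSet {c : G → G → G → ℤ |
        (∀ a b d, c a b d = 0 ∨ c a b d = 1 ∨ c a b d = -1) ∧
        (∀ a b d, c a b d = 0 ↔ (a = b ∨ b = d ∨ a = d)) ∧
        (∀ g₁ g₂ g₃ g₄, c g₂ g₃ g₄ - c g₁ g₃ g₄ + c g₁ g₂ g₄ - c g₁ g₂ g₃ = 0) ∧
        (∀ g a b d, c (g * a) (g * b) (g * d) = c a b d)}) ≃ₜ (ℕ → Bool)) := by
  exact ⟨Pool.Agent.H.MP_cb5d7d_al.G, inferInstance, inferInstance,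
    Pool.Agent.H.MP_cb5d7d_al.main⟩

end Pool.Agent.S03057
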