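import Pool.Statements.S03060
import Pool.Agent.H.MP_cb8b78_al.B

set_option autoImplicit false
open Pool Pool.MP_cb8b78_al

namespace Pool.Agent.S03060

theorem result :
    ¬ (∀ (G : Type) [Group G] [Group.FG G],
    (∀ P : ∀ (H : Type) [Group H], Prop,
      (∀ (H : Type) [Group H] [Finite H], P H) →
      (∀ (H : Type) [CommGroup H], P H) →
      (∀ (H K : Type) [Group H] [Group K], Nonempty (H ≃* K) → P H → P K) →
      (∀ (H : Type) [Group H] (K : Subgroup H), P H → P K) →
      (∀ (H : Type) [Group H] (N : Subgroup H) [N.Normal], P H → P (H ⧸ N)) →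
      (∀ (H : Type) [Group H] (N : Subgroup H) [N.Normal], P N → P (H ⧸ N) → P H) →
      (∀ (H : Type) [Group H] (S : Set (Subgroup H)),
        DirectedOn (fun A B => A ≤ B) S → sSup S = ⊤ → (∀ K ∈ S, P K) → P H) →
      P G) →
    (¬ ∃ K : Subgroup G, K.FiniteIndex ∧ Group.IsNilpotent K) →
    ∃ (H : Subgroup G) (N : Subgroup H) (_ : N.Normal),
      Group.FG (H ⧸ N) ∧ derivedSeries (H ⧸ N) 2 = ⊥ ∧
      ¬ ∃ K : Subgroup (H ⧸ N), K.FiniteIndex ∧ Group.IsNilpotent K) := by
  intro h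
  obtain ⟨H, N, hN, h1, h2, h3⟩ := h Pool.Agent.H.MP_cb8b78_al.GG (by
    intro P hfin hcomm _ _ _ hext hdir
    apply hext _ Pool.Agent.H.MP_cb8b78_al.MM
    · have hLF : Pool.Agent.H.MP_cb8b78_al.LF (⊤ : Subgroup Pool.Agent.H.MP_cb8b78_al.MM) := by
        have := Pool.Agent.H.MP_cb8b78_al.MM_LF.comap _
          Pool.Agent.H.MP_cb8b78_al.MM.subtype_injective
        rwa [Subgroup.comap_subtype, Subgroup.subgroupOf_self] at this
      apply hdir _ {K | (K : Set Pool.Agent.H.MP_cb8b78_al.MM).Finite}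
      · intro A hA B hB
        refine ⟨A ⊔ B, ?_, le_sup_left, le_sup_right⟩
        have := hLF (A ∪ B) (Set.Finite.union hA hB) (by simp)
        rwa [Subgroup.closure_union, Subgroup.closure_eq, Subgroup.closure_eq] at this
      · rw [eq_top_iff]
        intro x _
        have := hLF {x} (Set.finite_singleton x) (by simp)
        exact (le_sSup (a := Subgroup.closure {x}) this) (Subgroup.mem_closure_singleton_self x)
      · intro K hK
        haveI : Finite K := Set.Finite.to_subtype hK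
        exact hfin K
    · haveI : IsCyclic (Pool.Agent.H.MP_cb8b78_al.GG ⧸ Pool.Agent.H.MP_cb8b78_al.MM) := by
        refine ⟨⟨QuotientGroup.mk Pool.Agent.H.MP_cb8b78_al.gt, ?_⟩⟩
        intro q
        obtain ⟨g, rfl⟩ := QuotientGroup.mk_surjective q
        obtain ⟨k, hk⟩ := Pool.Agent.H.MP_cb8b78_al.cyc g
        refine ⟨k, ?_⟩
        have := (QuotientGroup.eq_one_iff _).2 hk
        simp only [QuotientGroup.mk_mul, QuotientGroup.mk_inv, QuotientGroup.mk_zpow] at this
        exact (mul_inv_eq_one.1 this).symm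
      exact @hcomm _ IsCyclic.commGroup)
    (Pool.Agent.H.MP_cb8b78_al.not_vn Pool.Agent.H.MP_cb8b78_al.MM_LF
      Pool.Agent.H.MP_cb8b78_al.ga_mem Pool.Agent.H.MP_cb8b78_al.not_per)
  exact h3 (Pool.Agent.H.MP_cb8b78_al.section_vn Pool.Agent.H.MP_cb8b78_al.MM_LF
    Pool.Agent.H.MP_cb8b78_al.cyc Pool.Agent.H.MP_cb8b78_al.kers H N h1 h2)

end Pool.Agent.S03060
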