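import Pool.Statements.S03062
import Pool.Agent.H.MP_cbaa56_al.B

set_option autoImplicit false
open Pool Pool.MP_cbaa56_al

namespace Pool.Agent.S03062

theorem result :
    ¬ (∀ (n : ℕ) (w : List (Fin n)),
      (¬ ∃ u v x : List (Fin n), u ≠ [] ∧ v ≠ [] ∧ x ≠ [] ∧ w = u ++ v ∧ w = x ++ u) →
      ComputablePred
        (fun S : List (List (Fin n ⊕ ℕ) × List (Fin n ⊕ ℕ)) =>
          ∃ σ : ℕ → List (Fin n),
            ∀ e ∈ S,
              conGen (fun x y : FreeMonoid (Fin n) => x = FreeMonoid.ofList w ∧ y = 1)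
                (FreeMonoid.ofList (e.1.flatMap (Sum.elim (fun a => [a]) σ)))
                (FreeMonoid.ofList (e.2.flatMap (Sum.elim (fun a => [a]) σ))))) := by
  intro h
  refine Pool.Agent.H.MP_cbaa56_al.und ?_
  convert h 3 _ Pool.Agent.H.MP_cbaa56_al.hW using 2 with S
  have e : ∀ (σ : ℕ → List (Fin 3)) (u : List (Fin 3 ⊕ ℕ)), (u.map (Sum.elim (fun a => H.MP_cbaa56_al.mk H.MP_cbaa56_al.W [a])
      fun i => H.MP_cbaa56_al.mk H.MP_cbaa56_al.W (σ i))).prod =
      H.MP_cbaa56_al.mk H.MP_cbaa56_al.W (u.flatMap (Sum.elim (fun a => [a]) σ)) := fun σ u => by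
    induction u with
    | nil => rfl
    | cons a u ih => rw [List.map_cons, List.prod_cons, ih, List.flatMap_cons, H.MP_cbaa56_al.mk_append]; cases a <;> rfl
  constructor
  · rintro ⟨σ, k⟩
    choose τ hτ using fun i => H.MP_cbaa56_al.mk_surj _ (σ i)
    obtain rfl := funext hτ
    exact ⟨τ, fun x hx => (Con.eq _).1 ((e ..).symm.trans ((k x hx).trans (e ..)))⟩
  · rintro ⟨τ, k⟩
    exact ⟨_, fun x hx => (e τ _).trans (Eq.trans ((Con.eq _).2 (k x hx)) (e τ _).symm)⟩

end Pool.Agent.S03062
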