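import Pool.Statements.S03082
import Pool.Agent.H.MP_cd2797_al.A

set_option autoImplicit false
open CategoryTheory CategoryTheory.Limits
open Pool Pool.MP_cd2797_al

namespace Pool.Agent.S03082

theorem result :
    ¬ (∀ (R : Type) [Ring R] (C : Set (ModuleCat.{0} R)) (L : ModuleCat.{0} R → Prop),
    (∀ M : ModuleCat.{0} R, L M ↔
      ∃ (ι : Type) (_ : Preorder ι) (_ : IsDirected ι (· ≤ ·)) (_ : Nonempty ι)
        (F : ι ⥤ ModuleCat.{0} R) (c : Cocone F),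
        Nonempty (IsColimit c) ∧ Nonempty (c.pt ≅ M) ∧ ∀ i, F.obj i ∈ C) →
    (∀ (M N : ModuleCat.{0} R) (s : N ⟶ M) (r : M ⟶ N), s ≫ r = 𝟙 N → L M → L N) →
    ∀ (ι : Type) (_ : Preorder ι) (_ : IsDirected ι (· ≤ ·)) (_ : Nonempty ι)
      (F : ι ⥤ ModuleCat.{0} R) (c : Cocone F),
      Nonempty (IsColimit c) → (∀ i, L (F.obj i)) → L c.pt) := by
  intro h
  have key : ∀ M : ModuleCat.{0} ℤ, (∃ p : ℕ, p.Prime ∧ H.MP_cd2797_al.Q p M) ↔
      ∃ (ι : Type) (_ : Preorder ι) (_ : IsDirected ι (· ≤ ·)) (_ : Nonempty ι)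
        (F : ι ⥤ ModuleCat.{0} ℤ) (c : Cocone F),
        Nonempty (IsColimit c) ∧ Nonempty (c.pt ≅ M) ∧ ∀ i, F.obj i ∈ H.MP_cd2797_al.CC := by
    intro M
    constructor
    · rintro ⟨p, hp, hQ⟩
      exact H.MP_cd2797_al.Q_lim hp M hQ
    · rintro ⟨ι, _, _, _, F, c, ⟨hc⟩, ⟨e⟩, hF⟩
      obtain ⟨p, hp, hQ⟩ := H.MP_cd2797_al.lim_Q F c hc hF
      exact ⟨p, hp, hQ.retr e.inv.hom.toAddMonoidHom e.hom.hom.toAddMonoidHom
        (fun x => ConcreteCategory.congr_hom e.inv_hom_id x)⟩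
  obtain ⟨F, c, h1, h2, h3⟩ := H.MP_cd2797_al.union_colim (R := ℤ) (ℕ →₀ ℚ) H.MP_cd2797_al.AA
    (fun a b hab f hf i hi => hf i (hab.trans hi))
    (fun f => ⟨f.support.sup id + 1, fun i hi => by
      by_contra h0
      have := Finset.le_sup (f := id) (Finsupp.mem_support_iff.mpr h0)
      simp only [id] at this
      omega⟩)
  obtain ⟨p, -, hQ⟩ := h ℤ H.MP_cd2797_al.CC _ key
    (by
      rintro M N s r e ⟨p, hp, hQ⟩
      exact ⟨p, hp, hQ.retr s.hom.toAddMonoidHom r.hom.toAddMonoidHom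
        (fun x => ConcreteCategory.congr_hom e x)⟩)
    ℕ _ inferInstance inferInstance F c h1 (fun j => by
      obtain ⟨p, hj, hp⟩ := Nat.exists_infinite_primes j
      rw [h3 j]
      exact ⟨p, hp, H.MP_cd2797_al.AA_Q j p hp hj⟩)
  rw [h2] at hQ
  exact H.MP_cd2797_al.not_Q p hQ

end Pool.Agent.S03082
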