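import Pool.Statements.S03098
-- import your own Pool.Agent.* helpers here

set_option autoImplicit false
open Pool Pool.MP_ce123d_al

namespace Pool.Agent.S03098

def o : ℕ → ℕ
  | 0 => 1
  | k + 1 => (2 * k + 3) * o k

theorem o_odd : ∀ k, Odd (o k)
  | 0 => odd_one
  | k + 1 => Odd.mul ⟨k + 1, by ring⟩ (o_odd k)

theorem o_pos (k : ℕ) : 0 < o k := (o_odd k).pos

theorem o_dvd {k l : ℕ} (h : k ≤ l) : o k ∣ o l := by
  induction h with
  | refl => exact dvd_rfl
  | step _ ih => exact ih.mul_left _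

abbrev UU := ℤ × ZMod 2

def pr (k : ℕ) (w : UU) : ZMod (o k) × ZMod 2 := ((w.1 : ZMod (o k)), w.2)

theorem pr_add (k : ℕ) (w w' : UU) : pr k (w + w') = pr k w + pr k w' := by
  simp [pr]

theorem pr_surj (k : ℕ) (v : ZMod (o k) × ZMod 2) : ∃ w, pr k w = v := by
  obtain ⟨n, hn⟩ := ZMod.intCast_surjective v.1
  exact ⟨(n, v.2), by simp [pr, hn]⟩

inductive SS
  | z
  | u (w : UU)
  | y (k : ℕ)
  | a (k : ℕ)
  | b (k : ℕ) (w : UU)
  | c (k : ℕ) (v : ZMod (o k) × ZMod 2)

open SS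

def mul : SS → SS → SS
  | u w, u w' => u (w + w')
  | b k w, u w' => b k (w + w')
  | c k v, u w' => c k (v + pr k w')
  | y i, y j => y (i + j + 1)
  | a i, y j => a (i + j + 1)
  | y i, b k w => b (i + k + 1) w
  | a i, b k w => c (i + k) (pr (i + k) w)
  | _, _ => z

instance : Semigroup SS where
  mul := mul
  mul_assoc p q r := by
    change mul (mul p q) r = mul p (mul q r)
    cases p <;> cases q <;> cases r <;> simp only [mul, add_assoc, pr_add] <;>
      first | rfl | (congr 1; omega)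
    rename_i i j k w
    rw [show i + (j + 1) + k = i + (j + (k + 1)) by omega]

theorem mul_def (p q : SS) : p * q = mul p q := rfl

def TT : Subsemigroup SS where
  carrier := {s | ∀ w, s = u w → w.2 = (w.1 : ZMod 2)}
  mul_mem' := by
    intro p q hp hq w hw
    rw [mul_def] at hw
    cases p <;> cases q <;> simp only [mul, reduceCtorEq] at hw
    rename_i w1 w2
    have h := u.inj hw
    rw [← h, Prod.snd_add, Prod.fst_add, hp w1 rfl, hq w2 rfl, Int.cast_add]

theorem mz : z ∈ TT := fun _ h => by cases h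
theorem my (k : ℕ) : y k ∈ TT := fun _ h => by cases h
theorem ma (k : ℕ) : a k ∈ TT := fun _ h => by cases h
theorem mb (k : ℕ) (w : UU) : b k w ∈ TT := fun _ h => by cases h
theorem mc (k : ℕ) (v : ZMod (o k) × ZMod 2) : c k v ∈ TT := fun _ h => by cases h
def dg (n : ℤ) : UU := (n, n)
theorem dg_add (m n : ℤ) : dg (m + n) = dg m + dg n := by simp [dg]
theorem dg_zero : dg 0 = 0 := by simp [dg]
theorem mu (n : ℤ) : u (dg n) ∈ TT := fun _ h => by cases h; rfl
theorem mu' (w : UU) (h : u w ∈ TT) : w = dg w.1 := Prod.ext rfl (h w rfl)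

theorem split (w w0 w1 : UU) (h : ∀ n, w1 ≠ w0 + dg n) :
    (∃ n, w = w0 + dg n) ∨ ∃ n, w = w1 + dg n := by
  have h1 : w1.2 ≠ w0.2 + ((w1.1 - w0.1 : ℤ) : ZMod 2) := fun h' =>
    h (w1.1 - w0.1) (Prod.ext (by simp [dg]) h')
  by_cases h2 : w.2 = w0.2 + ((w.1 - w0.1 : ℤ) : ZMod 2)
  · exact Or.inl ⟨w.1 - w0.1, Prod.ext (by simp [dg]) h2⟩
  · refine Or.inr ⟨w.1 - w1.1, Prod.ext (by simp [dg]) ?_⟩
    change w.2 = w1.2 + ((w.1 - w1.1 : ℤ) : ZMod 2)
    push_cast at h1 h2 ⊢
    revert h1 h2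
    generalize (w.1 : ZMod 2) = p, (w0.1 : ZMod 2) = q, (w1.1 : ZMod 2) = r, w.2 = s,
      w0.2 = t, w1.2 = x
    revert p q r s t x
    decide

theorem c01 (n : ℤ) : ((0, 1) : UU) ≠ 0 + dg n := by
  intro h
  have h1 : (0 : ℤ) = n := by simpa [dg] using congrArg Prod.fst h
  subst h1
  simp [dg] at h

theorem gen (P : Subsemigroup SS) (h1 : u (dg 1) ∈ P) (h2 : u (dg (-1)) ∈ P) (h3 : y 0 ∈ P)
    (h4 : a 0 ∈ P) (w0 w1 : UU) (h : ∀ n, w1 ≠ w0 + dg n) (h5 : b 0 w0 ∈ P) (h6 : b 0 w1 ∈ P) :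
    TT ≤ P := by
  have hu : ∀ n, u (dg n) ∈ P := by
    intro n
    induction n using Int.induction_on with
    | zero => exact P.mul_mem h1 h2
    | succ n ih => rw [dg_add]; exact P.mul_mem ih h1
    | pred n ih => rw [sub_eq_add_neg, dg_add]; exact P.mul_mem ih h2
  have hy : ∀ k, y k ∈ P := by
    intro k
    induction k with
    | zero => exact h3
    | succ k ih => exact P.mul_mem ih h3
  have ha : ∀ k, a k ∈ P := by
    intro k
    induction k with
    | zero => exact h4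
    | succ k ih => exact P.mul_mem ih h3
  have hb0 : ∀ w, b 0 w ∈ P := by
    intro w
    rcases split w w0 w1 h with ⟨n, rfl⟩ | ⟨n, rfl⟩
    · exact P.mul_mem h5 (hu n)
    · exact P.mul_mem h6 (hu n)
  intro s hs
  cases s with
  | z => exact P.mul_mem h4 h4
  | u w => rw [mu' w hs]; exact hu _
  | y k => exact hy k
  | a k => exact ha k
  | b k w =>
    cases k with
    | zero => exact hb0 w
    | succ k => exact P.mul_mem (hy k) (hb0 w)
  | c k v =>
    obtain ⟨w, rfl⟩ := pr_surj k v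
    exact P.mul_mem (ha k) (hb0 w)

theorem coh (G : SS → SS) (hT : ∀ s ∈ TT, G s ∈ TT)
    (hm : ∀ s ∈ TT, ∀ t ∈ TT, G (s * t) = G s * G t)
    (hi : ∀ s ∈ TT, ∀ t ∈ TT, G s = G t → s = t) : ∀ t ∈ TT, ∃ s ∈ TT, G s = t := by
  have idem : ∀ s : SS, s * s = s → s = z ∨ s = u 0 := by
    intro s hs
    rw [mul_def] at hs
    cases s <;> simp only [mul, reduceCtorEq] at hs
    · exact Or.inl rfl
    · right
      have := u.inj hs
      rw [add_eq_left.mp this]
    · have := y.inj hs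
      omega
  have m0 : u 0 ∈ TT := dg_zero ▸ mu 0
  have hz : G z = z := by
    rcases idem (G z) (hm z mz z mz).symm with h | h
    · exact h
    · have h1 := hm _ mz _ m0
      rcases idem (G (u 0)) (by rw [← hm _ m0 _ m0]; rfl) with h2 | h2
      · rw [h2] at h1
        change G z = _ at h1
        rw [h] at h1
        cases h1
      · cases hi _ mz _ m0 (h.trans h2.symm)
  have nz : ∀ s ∈ TT, s ≠ z → G s ≠ z := fun s hs h h' => h (hi _ hs _ mz (h'.trans hz.symm))
  have he : G (u 0) = u 0 := by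
    rcases idem (G (u 0)) (by rw [← hm _ m0 _ m0]; rfl) with h2 | h2
    · exact absurd h2 (nz _ m0 (by simp))
    · exact h2
  have hu1 : ∀ n, ∃ m, G (u (dg n)) = u (dg m) := by
    intro n
    have h1 := hm _ (mu n) _ (mu (-n))
    change G (u (dg n + dg (-n))) = _ at h1
    rw [← dg_add, add_neg_cancel, dg_zero, he, mul_def] at h1
    have h2 := hT _ (mu n)
    generalize G (u (dg n)) = p at h1 h2
    generalize G (u (dg (-n))) = q at h1
    cases p <;> cases q <;> simp only [mul, reduceCtorEq] at h1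
    exact ⟨_, congrArg u (mu' _ h2)⟩
  obtain ⟨m, hm1⟩ := hu1 1
  have hu : ∀ n, G (u (dg n)) = u (dg (n * m)) := by
    intro n
    induction n using Int.induction_on with
    | zero => rw [zero_mul, dg_zero, he]
    | succ n ih =>
      have := hm _ (mu n) _ (mu 1)
      rw [ih, hm1] at this
      rw [add_mul, one_mul, dg_add, dg_add]
      exact this
    | pred n ih =>
      have := hm _ (mu (-n - 1)) _ (mu 1)
      change G (u (dg _ + dg _)) = _ at this
      rw [← dg_add, sub_add_cancel, ih, hm1] at this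
      obtain ⟨k, hk⟩ := hu1 (-n - 1)
      rw [hk] at this ⊢
      have h2 : -n * m = k + m := congrArg Prod.fst (u.inj this)
      congr 2
      linear_combination -h2
  have hm0 : m ≠ 0 := by
    rintro rfl
    have := hi _ (mu 1) _ m0 (by rw [hm1, he, dg_zero])
    simpa [dg] using u.inj this
  obtain ⟨r, hr⟩ : ∃ r, G (y 0) = y r := by
    have h1 := nz _ (my 1) (by simp)
    have h2 := hm _ (my 0) _ (my 0)
    have h3 := hm _ (my 0) _ m0
    change G (y 1) = _ at h2
    change G z = _ at h3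
    rw [h2, mul_def] at h1
    rw [hz, he, mul_def] at h3
    generalize G (y 0) = p at h1 h3
    cases p <;> simp [mul] at h1 h3 ⊢
  obtain ⟨i, hi0⟩ : ∃ i, G (a 0) = a i := by
    have h1 := nz _ (ma 1) (by simp)
    have h2 := hm _ (ma 0) _ (my 0)
    have h3 := hm _ (ma 0) _ (ma 0)
    change G (a 1) = _ at h2
    change G z = _ at h3
    rw [h2, hr, mul_def] at h1
    rw [hz, mul_def] at h3
    generalize G (a 0) = p at h1 h3
    cases p <;> simp [mul] at h1 h3 ⊢
  have ha : ∀ k, G (a k) = a (i + k * (r + 1)) := by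
    intro k
    induction k with
    | zero => simpa using hi0
    | succ k ih =>
      have := hm _ (ma k) _ (my 0)
      rw [ih, hr] at this
      rw [show i + (k + 1) * (r + 1) = i + k * (r + 1) + r + 1 by ring]
      exact this
  have hb : ∀ w, ∃ j w', G (b 0 w) = b j w' := by
    intro w
    have h1 := nz _ (mc 0 (pr 0 w)) (by simp)
    have h0 := nz _ (mb 0 w) (by simp)
    have h2 := hm _ (ma 0) _ (mb 0 w)
    have h3 := hm _ (mb 0 w) _ m0
    change G (c 0 (pr 0 w)) = _ at h2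
    change G (b 0 (w + 0)) = _ at h3
    rw [h2, hi0, mul_def] at h1
    rw [add_zero, he, mul_def] at h3
    generalize G (b 0 w) = p at h0 h1 h3
    cases p <;> simp [mul] at h0 h1 h3 ⊢
  have key : ∀ w j w', G (b 0 w) = b j w' → ∀ (k : ℕ) (n : ℤ),
      pr k (dg n) = 0 ↔ pr (i + k * (r + 1) + j) (dg (n * m)) = 0 := by
    intro w j w' h k n
    have h1 := hm _ (ma k) _ (mb 0 w)
    rw [ha, h] at h1
    change G (c k (pr k w)) = c _ (pr _ w') at h1
    have h2 := hm _ (mc k (pr k w)) _ (mu n)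
    rw [h1, hu] at h2
    change G (c k (pr k w + pr k (dg n))) = c _ (pr _ w' + pr _ (dg (n * m))) at h2
    constructor
    · intro h3
      rw [h3, add_zero, h1] at h2
      simpa using h2
    · intro h3
      rw [h3, add_zero, ← h1] at h2
      simpa using hi _ (mc _ _) _ (mc _ _) h2
  have prz : ∀ (k : ℕ) (n : ℤ), pr k (dg n) = 0 ↔ (o k : ℤ) ∣ n ∧ (2 : ℤ) ∣ n := by
    intro k n
    rw [pr, Prod.mk_eq_zero]
    exact and_congr (ZMod.intCast_zmod_eq_zero_iff_dvd _ _)
      (ZMod.intCast_zmod_eq_zero_iff_dvd _ 2)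
  have idx : ∀ w j w', G (b 0 w) = b j w' → i = 0 ∧ r = 0 ∧ j = 0 := by
    intro w j w' h
    set k := m.natAbs with hk
    have hk0 : 0 < k := Int.natAbs_pos.mpr hm0
    have h1 := ((prz _ _).mp ((key w j w' h k (2 * o k)).mp
      ((prz _ _).mpr ⟨dvd_mul_left _ _, dvd_mul_right _ _⟩))).1
    by_contra hne
    have h2 : k + 1 ≤ i + k * (r + 1) + j := by
      have : r ≤ k * r := Nat.le_mul_of_pos_left _ hk0
      rw [mul_add, mul_one]
      omega
    have h3 := (Int.natCast_dvd_natCast.mpr (o_dvd h2)).trans h1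
    have h4 : (2 * k + 3) * o k ∣ (2 * k) * o k := by
      have := Int.natAbs_dvd_natAbs.mpr h3
      rw [Int.natAbs_natCast, Int.natAbs_mul, Int.natAbs_mul, Int.natAbs_natCast, ← hk] at this
      rw [mul_right_comm]
      exact this
    have h5 := Nat.le_of_dvd (by omega) (Nat.dvd_of_mul_dvd_mul_right (o_pos k) h4)
    omega
  obtain ⟨j0, w0, hw0⟩ := hb 0
  obtain ⟨j1, w1, hw1⟩ := hb (0, 1)
  obtain ⟨rfl, rfl, rfl⟩ := idx _ _ _ hw0
  obtain ⟨-, -, rfl⟩ := idx _ _ _ hw1
  have key' : ∀ (k : ℕ) (n : ℤ), (o k : ℤ) ∣ n * m ∧ (2 : ℤ) ∣ n * m →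
      (o k : ℤ) ∣ n ∧ (2 : ℤ) ∣ n := by
    intro k n h
    refine (prz _ _).mp ((key _ _ _ hw0 k n).mpr ((prz _ _).mpr ?_))
    simpa using h
  have hmm : m * m = 1 := by
    have h1 : ¬ (2 : ℤ) ∣ m := fun h => by
      have := (key' 0 1 ⟨by simp [o], by simpa using h⟩).2
      omega
    by_contra h2
    obtain ⟨k, hk⟩ : ∃ k, m.natAbs = 2 * k + 3 := by
      refine ⟨(m.natAbs - 3) / 2, ?_⟩
      have : m ≠ 1 := fun h => h2 (by rw [h]; rfl)
      have : m ≠ -1 := fun h => h2 (by rw [h]; rfl)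
      omega
    have h3 := (key' (k + 1) (2 * o k) ⟨?_, Dvd.intro (o k * m) (by ring)⟩).1
    · have h4 : (2 * k + 3) * o k ∣ 2 * o k := by exact_mod_cast h3
      have h5 := Nat.le_of_dvd (by omega) (Nat.dvd_of_mul_dvd_mul_right (o_pos k) h4)
      omega
    · rw [o, ← hk, Nat.cast_mul, mul_comm _ m]
      exact mul_dvd_mul (Int.natAbs_dvd.mpr dvd_rfl) (dvd_mul_left _ _)
  let P : Subsemigroup SS :=
    { carrier := {t | ∃ s ∈ TT, G s = t}
      mul_mem' := by
        rintro _ _ ⟨s, hs, rfl⟩ ⟨t, ht, rfl⟩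
        exact ⟨s * t, TT.mul_mem hs ht, hm s hs t ht⟩ }
  refine gen P ⟨_, mu m, by rw [hu, hmm]⟩ ⟨_, mu (-m), by rw [hu, neg_mul, hmm]⟩
    ⟨_, my 0, hr⟩ ⟨_, ma 0, hi0⟩ w0 w1 ?_ ⟨_, mb _ _, hw0⟩ ⟨_, mb _ _, hw1⟩
  intro n hn
  have h1 := hm _ (mb 0 0) _ (mu (n * m))
  rw [hw0, hu, mul_assoc, hmm, mul_one] at h1
  change G (b 0 (0 + dg (n * m))) = b 0 (w0 + dg n) at h1
  rw [← hn, ← hw1] at h1
  have h2 := hi _ (mb _ _) _ (mb _ _) h1
  exact c01 _ (b.inj h2).2.symm

def dd (w : UU) : UU := (2 * w.1, w.2)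

def ff : SS → SS
  | z => z
  | u w => u (dd w)
  | y k => y k
  | a k => a k
  | b k w => b k (dd w)
  | c k v => c k (2 * v.1, v.2)

def fh : SS →ₙ* SS where
  toFun := ff
  map_mul' p q := by
    rw [mul_def, mul_def]
    cases p <;> cases q <;> simp [mul, ff, dd, pr, mul_add]

theorem dd_inj (w w' : UU) (h : dd w = dd w') : w = w' := by
  simp only [dd, Prod.mk.injEq] at h
  exact Prod.ext (by omega) h.2

theorem ff_inj : Function.Injective ff := by
  intro p q h
  cases p <;> cases q <;> simp only [ff, reduceCtorEq] at h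
  · rfl
  · rw [dd_inj _ _ (u.inj h)]
  · exact h
  · exact h
  · rw [(b.inj h).1, dd_inj _ _ (b.inj h).2]
  · rename_i k v k' v'
    obtain rfl := (c.inj h).1
    have h1 := eq_of_heq (c.inj h).2
    simp only [Prod.mk.injEq] at h1
    have h2 : IsUnit ((2 : ℕ) : ZMod (o k)) :=
      (ZMod.isUnit_iff_coprime 2 (o k)).mpr (Nat.coprime_two_left.mpr (o_odd k))
    rw [Nat.cast_ofNat] at h2
    rw [Prod.ext (h2.mul_left_cancel h1.1) h1.2]

theorem result :
    ¬ (∀ (S : Type) [Semigroup S] (T : Subsemigroup S),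
      (∃ G : Finset S, Subsemigroup.closure (G : Set S) = T) →
      (∃ F : Finset S, ∀ u : S, u ∉ T → ∃ v ∈ F, v ∉ T ∧
        ((u = v ∨ ∃ t ∈ T, u = v * t) ∧ (v = u ∨ ∃ t ∈ T, v = u * t)) ∧
        ((u = v ∨ ∃ t ∈ T, u = t * v) ∧ (v = u ∨ ∃ t ∈ T, v = t * u))) →
      (∀ f : T →ₙ* T, Function.Injective f → Function.Surjective f) →
      ∀ f : S →ₙ* S, Function.Injective f → Function.Surjective f) := by
  classical
  intro hall
  have h := hall SS TT ?_ ?_ ?_ fh ff_inj
  · obtain ⟨s, hs⟩ := h (u (1, 0))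
    change ff s = _ at hs
    cases s <;> simp only [ff, reduceCtorEq] at hs
    have : 2 * _ = (1 : ℤ) := congrArg Prod.fst (u.inj hs)
    omega
  · refine ⟨{u (dg 1), u (dg (-1)), y 0, a 0, b 0 0, b 0 (0, 1)}, le_antisymm ?_ ?_⟩
    · rw [Subsemigroup.closure_le]
      intro s hs
      simp only [Finset.coe_insert, Finset.coe_singleton, Set.mem_insert_iff,
        Set.mem_singleton_iff] at hs
      rcases hs with rfl | rfl | rfl | rfl | rfl | rfl
      exacts [mu _, mu _, my _, ma _, mb _ _, mb _ _]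
    · refine gen _ ?_ ?_ ?_ ?_ 0 (0, 1) c01 ?_ ?_ <;>
        exact Subsemigroup.subset_closure (by simp)
  · refine ⟨{u (0, 1)}, fun s hs => ⟨u (0, 1), by simp, fun h => ?_, ?_⟩⟩
    · simpa using h _ rfl
    · cases s with
      | u w =>
        rcases split w 0 (0, 1) c01 with ⟨n, rfl⟩ | ⟨n, rfl⟩
        · rw [zero_add] at hs
          exact absurd (mu n) hs
        · have e : ((0, 1) : UU) = (0, 1) + dg n + dg (-n) := by
            rw [add_assoc, ← dg_add, add_neg_cancel, dg_zero, add_zero]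
          refine ⟨⟨Or.inr ⟨_, mu n, rfl⟩, Or.inr ⟨_, mu (-n), congrArg u e⟩⟩,
            Or.inr ⟨_, mu n, congrArg u (add_comm _ _)⟩,
            Or.inr ⟨_, mu (-n), congrArg u (e.trans (add_comm _ _))⟩⟩
      | z => exact absurd mz hs
      | y k => exact absurd (my k) hs
      | a k => exact absurd (ma k) hs
      | b k w => exact absurd (mb k w) hs
      | c k v => exact absurd (mc k v) hs
  · intro g hg t
    obtain ⟨s, hs, h⟩ := coh (fun s => if h : s ∈ TT then (g ⟨s, h⟩ : SS) else z)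
      (fun s hs => by simp [hs])
      (fun s hs t ht => by
        simp only [hs, ht, TT.mul_mem hs ht, dite_true]
        exact congrArg Subtype.val (g.map_mul ⟨s, hs⟩ ⟨t, ht⟩))
      (fun s hs t ht h => by
        simp only [hs, ht, dite_true] at h
        exact congrArg Subtype.val (hg (Subtype.ext h))) t t.2
    simp only [hs, dite_true] at h
    exact ⟨⟨s, hs⟩, Subtype.ext h⟩

end Pool.Agent.S03098
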