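import Pool.Statements.S03116
import Pool.Agent.S03022

set_option autoImplicit false
open Pointwise
open Pool Pool.MP_cfdc37_al

namespace Pool.Agent.S03116

theorem result :
    ¬ (∀ n : ℕ, 1 ≤ n →
    (∀ (G : Type) [Group G] (A : Fin n → Set G),
      (⋃ i, A i) = Set.univ → Pairwise (fun i j => Disjoint (A i) (A j)) →
      ∃ i : Fin n, ∃ F : Finset G, F.card ≤ n ∧ (F : Set G) * A i * (A i)⁻¹ = Set.univ) ∧
    (∃ (G : Type) (_ : Group G), ∃ A : Fin n → Set G,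
      (⋃ i, A i) = Set.univ ∧ Pairwise (fun i j => Disjoint (A i) (A j)) ∧
      ∀ i : Fin n, ∀ F : Finset G, (F : Set G) * A i * (A i)⁻¹ = Set.univ → n ≤ F.card)) := by
  intro hall
  obtain ⟨T, hT⟩ := S03022.ex_enum
  obtain ⟨c, hc⟩ := S03022.ex_col T
  obtain ⟨i, F, hF, h⟩ := (hall 16 (by norm_num)).1 S03022.GG (fun i => {x | c x = i})
    (Set.eq_univ_of_forall fun x => Set.mem_iUnion.mpr ⟨c x, rfl⟩)
    (fun i j hij => Set.disjoint_left.mpr fun x h1 h2 => hij (h1.symm.trans h2))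
  obtain ⟨k, hk, hl⟩ := hT (i, F)
  obtain ⟨_, ⟨f, hf, -⟩, -⟩ := Set.eq_univ_iff_forall.mp h 1
  obtain ⟨_, ⟨f', hf', a, ha, rfl⟩, b, hb, h1⟩ :=
    Set.eq_univ_iff_forall.mp h (FreeGroup.of k * f)
  have h2 := hc k
  rw [hk] at h2
  rcases h2 hl hF (f * b⁻¹) f hf f' hf' with h3 | h3
  · exact h3 (by simpa using hb)
  · rw [← mul_assoc (FreeGroup.of k), ← h1] at h3
    exact h3 (by simpa [mul_assoc] using ha)

end Pool.Agent.S03116
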