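import Pool.Statements.S03142
import Pool.Agent.H.MP_cbaa56_al.B

set_option autoImplicit false
open Pool Pool.MP_d1ce81_al

namespace Pool.Agent.S03142

theorem result :
    ¬ (∀ (n : ℕ) (w : List (Fin n)),
    (∃ (k : ℕ) (g : Fin k → ((conGen (fun x y : FreeMonoid (Fin n) => x = FreeMonoid.ofList w ∧ y = 1)).Quotient)ˣ),
      Subgroup.closure (Set.range g) = ⊤ ∧
      ComputablePred (fun S : List (List ((Fin k ⊕ ℕ) × Bool) × List ((Fin k ⊕ ℕ) × Bool)) =>
        ∃ σ : ℕ → ((conGen (fun x y : FreeMonoid (Fin n) => x = FreeMonoid.ofList w ∧ y = 1)).Quotient)ˣ,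
          ∀ e ∈ S,
            (e.1.map (fun p => if p.2 = true then Sum.elim g σ p.1 else (Sum.elim g σ p.1)⁻¹)).prod =
            (e.2.map (fun p => if p.2 = true then Sum.elim g σ p.1 else (Sum.elim g σ p.1)⁻¹)).prod)) →
    ComputablePred (fun S : List (List (Fin n ⊕ ℕ) × List (Fin n ⊕ ℕ)) =>
      ∃ σ : ℕ → (conGen (fun x y : FreeMonoid (Fin n) => x = FreeMonoid.ofList w ∧ y = 1)).Quotient,
        ∀ e ∈ S,
          (e.1.map (Sum.elim (fun a => (conGen (fun x y : FreeMonoid (Fin n) => x = FreeMonoid.ofList w ∧ y = 1)).mk' (FreeMonoid.of a)) σ)).prod =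
          (e.2.map (Sum.elim (fun a => (conGen (fun x y : FreeMonoid (Fin n) => x = FreeMonoid.ofList w ∧ y = 1)).mk' (FreeMonoid.of a)) σ)).prod)) := by
  intro h
  have u := H.MP_cbaa56_al.unit_eq H.MP_cbaa56_al.hW (by simp [H.MP_cbaa56_al.W])
  refine Pool.Agent.H.MP_cbaa56_al.und (h 3 _ ⟨0, Fin.elim0, eq_top_iff.2 fun x _ => u x ▸ one_mem _, ?_⟩)
  exact ComputablePred.computable_iff.2 ⟨fun _ => true, .const _, funext fun S => by
    simpa using ⟨fun _ => 1, fun _ _ _ => (u _).trans (u _).symm⟩⟩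

end Pool.Agent.S03142
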