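import Pool.Statements.S03148
import Pool.Agent.H.MP_d25222_al.Kron

set_option autoImplicit false
open CategoryTheory CategoryTheory.MonoidalCategory CategoryTheory.Limits
open Pool Pool.MP_d25222_al

namespace Pool.Agent.S03148

theorem result :
    ¬ (∀ (p : ℕ) (k : Type) [Field k] [CharP k p], p.Prime →
      ∀ (G : Type) [Group G] [Finite G] (M : Rep k G), FiniteDimensional k M.V →
        ∃ P Q : Polynomial ℚ, Q ≠ 0 ∧
          (Q : PowerSeries ℚ) *
              PowerSeries.mk (fun n : ℕ =>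
                ((sInf {d : ℕ | ∃ N P' : Rep k G, Projective P' ∧
                    Nonempty ((fun X : Rep k G => X ⊗ M)^[n] (𝟙_ (Rep k G)) ≅ N ⊞ P') ∧
                    Module.finrank k N.V = d} : ℕ) : ℚ)) =
            (P : PowerSeries ℚ)) := by
  intro h
  obtain ⟨P, Q, hQ, hPQ⟩ := h 2 (ZMod 2) Nat.prime_two Pool.Agent.H.MP_d25222_al.G
    Pool.Agent.H.MP_d25222_al.MM inferInstance
  refine Pool.Agent.H.MP_d25222_al.not_rational P Q hQ ?_
  rw [← hPQ]
  congr 2
  funext n
  rw [← Pool.Agent.H.MP_d25222_al.dl_XX0, ← Pool.Agent.H.MP_d25222_al.core_eq]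
  rfl

end Pool.Agent.S03148
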