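import Pool.Statements.S03150
import Pool.Agent.H.MP_d25c28_al.B

set_option autoImplicit false
open Pool Pool.MP_d25c28_al

namespace Pool.Agent.S03150

/-- The negation of the preceding statement: For every e there is a bound B such that every almost symmetric numerical semigroup with e minimal generators has at most B pseudo-Frobenius numbers, i.e. type at most B. -/
theorem result :
    ¬ (∀ e : ℕ, ∃ B : ℕ, ∀ S : Set ℕ,
      0 ∈ S →
      (∀ a ∈ S, ∀ b ∈ S, a + b ∈ S) →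
      Sᶜ.Finite →
      (∀ f : ℕ, f ∉ S → (∀ y : ℕ, f < y → y ∈ S) →
        ∀ x : ℕ, x ≤ f → x ∉ S → f - x ∉ S →
          ∀ s ∈ S, s ≠ 0 → x + s ∈ S) →
      {s : ℕ | s ∈ S ∧ s ≠ 0 ∧ ¬ ∃ a ∈ S, ∃ b ∈ S, a ≠ 0 ∧ b ≠ 0 ∧ a + b = s}.ncard = e →
      {x : ℕ | x ∉ S ∧ ∀ s ∈ S, s ≠ 0 → x + s ∈ S}.ncard ≤ B) := by
  intro h
  obtain ⟨B, hB⟩ := h 8
  obtain ⟨A, Q, T, F, hA, hat, hF, hbig, has, hQ, hQ'⟩ := Pool.Agent.Cube.mainA 0 B
  have hfin : ((T : Set ℕ)ᶜ).Finite :=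
    (Set.finite_le_nat F).subset fun y hy => not_lt.1 fun h' => hy (hbig y h')
  have := hB T T.zero_mem (fun a ha b hb => T.add_mem ha hb) hfin ?_ ?_
  · have h2 : Q.card ≤ {x : ℕ | x ∉ (T : Set ℕ) ∧ ∀ s ∈ (T : Set ℕ), s ≠ 0 → x + s ∈ (T : Set ℕ)}.ncard := by
      rw [← Set.ncard_coe_finset]
      refine Set.ncard_le_ncard (fun x hx => ?_) (hfin.subset fun x hx => hx.1)
      obtain ⟨a1, a2, a3⟩ := hQ' x hx
      exact ⟨a2, has x a1 a2 a3⟩
    omega
  · intro f hf hf'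
    have : f = F := by
      rcases lt_trichotomy f F with h | h | h
      · exact absurd (hf' F h) hF
      · exact h
      · exact absurd (hbig f h) hf
    subst this
    exact has
  · change (Pool.Agent.Cube.atoms T).ncard = 8
    rw [hat, Set.ncard_coe_finset, hA]

end Pool.Agent.S03150
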