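import Pool.Statements.S03160
import Pool.Agent.H.MP_d30538_al.A

set_option autoImplicit false
open Pool Pool.MP_d30538_al Pool.Agent.H.MP_d30538_al

namespace Pool.Agent.S03160

theorem result :
    ¬ (∀ (α : Type) (r₁ r₂ r₃ x : FreeGroup α) (n : ℕ), 0 < n →
      x ∈ Subgroup.normalClosure ({r₁} : Set (FreeGroup α)) ⊓
          Subgroup.normalClosure ({r₂} : Set (FreeGroup α)) ⊓
          Subgroup.normalClosure ({r₃} : Set (FreeGroup α)) →
      x ^ n ∈
        (⁅Subgroup.normalClosure ({r₁} : Set (FreeGroup α)),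
            Subgroup.normalClosure ({r₂} : Set (FreeGroup α)) ⊓
              Subgroup.normalClosure ({r₃} : Set (FreeGroup α))⁆ ⊔
          ⁅Subgroup.normalClosure ({r₂} : Set (FreeGroup α)),
            Subgroup.normalClosure ({r₁} : Set (FreeGroup α)) ⊓
              Subgroup.normalClosure ({r₃} : Set (FreeGroup α))⁆ ⊔
          ⁅Subgroup.normalClosure ({r₃} : Set (FreeGroup α)),
            Subgroup.normalClosure ({r₁} : Set (FreeGroup α)) ⊓
              Subgroup.normalClosure ({r₂} : Set (FreeGroup α))⁆) →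
      x ∈
        (⁅Subgroup.normalClosure ({r₁} : Set (FreeGroup α)),
            Subgroup.normalClosure ({r₂} : Set (FreeGroup α)) ⊓
              Subgroup.normalClosure ({r₃} : Set (FreeGroup α))⁆ ⊔
          ⁅Subgroup.normalClosure ({r₂} : Set (FreeGroup α)),
            Subgroup.normalClosure ({r₁} : Set (FreeGroup α)) ⊓
              Subgroup.normalClosure ({r₃} : Set (FreeGroup α))⁆ ⊔
          ⁅Subgroup.normalClosure ({r₃} : Set (FreeGroup α)),
            Subgroup.normalClosure ({r₁} : Set (FreeGroup α)) ⊓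
              Subgroup.normalClosure ({r₂} : Set (FreeGroup α))⁆)) := by
  intro H
  obtain ⟨a, ha⟩ : ∃ a : FreeGroup Bool, a = FreeGroup.of true := ⟨_, rfl⟩
  obtain ⟨b, hb⟩ : ∃ b : FreeGroup Bool, b = FreeGroup.of false := ⟨_, rfl⟩
  let ρ : FreeGroup Bool →* W := FreeGroup.lift fun i => cond i A B
  have ra : ρ a = A := by simp [ρ, ha]
  have rb : ρ b = B := by simp [ρ, hb]
  have key := H Bool a (a ^ 4) (b * a ^ 2 * b⁻¹ * (a ^ 4)⁻¹)
    (a ^ 4 * (b * a * b⁻¹) * (a ^ 4)⁻¹ * (b * a * b⁻¹)⁻¹) 2 (by norm_num)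
  have m1 : a ∈ Subgroup.normalClosure ({a} : Set (FreeGroup Bool)) :=
    Subgroup.subset_normalClosure rfl
  have m2 : a ^ 4 ∈ Subgroup.normalClosure ({a ^ 4} : Set (FreeGroup Bool)) :=
    Subgroup.subset_normalClosure rfl
  have m3 : b * a ^ 2 * b⁻¹ * (a ^ 4)⁻¹ ∈
      Subgroup.normalClosure ({b * a ^ 2 * b⁻¹ * (a ^ 4)⁻¹} : Set (FreeGroup Bool)) :=
    Subgroup.subset_normalClosure rfl
  have l1 : Subgroup.normalClosure ({a} : Set (FreeGroup Bool)) ≤ S1.comap ρ :=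
    Subgroup.normalClosure_le_normal (by simpa [ra] using A1)
  have l2 : Subgroup.normalClosure ({a ^ 4} : Set (FreeGroup Bool)) ≤ S2.comap ρ :=
    Subgroup.normalClosure_le_normal (by simpa [ra] using A4)
  have l3 : Subgroup.normalClosure ({b * a ^ 2 * b⁻¹ * (a ^ 4)⁻¹} : Set (FreeGroup Bool)) ≤
      S3.comap ρ := Subgroup.normalClosure_le_normal (by simpa [ra, rb] using A3)
  have n1 : (Subgroup.normalClosure ({a} : Set (FreeGroup Bool))).Normal := inferInstance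
  have n2 : (Subgroup.normalClosure ({a ^ 4} : Set (FreeGroup Bool))).Normal := inferInstance
  have n3 : (Subgroup.normalClosure
    ({b * a ^ 2 * b⁻¹ * (a ^ 4)⁻¹} : Set (FreeGroup Bool))).Normal := inferInstance
  generalize Subgroup.normalClosure ({a} : Set (FreeGroup Bool)) = R1 at *
  generalize Subgroup.normalClosure ({a ^ 4} : Set (FreeGroup Bool)) = R2 at *
  generalize Subgroup.normalClosure
    ({b * a ^ 2 * b⁻¹ * (a ^ 4)⁻¹} : Set (FreeGroup Bool)) = R3 at *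
  have x1 : b * a * b⁻¹ ∈ R1 := n1.conj_mem _ m1 _
  have t1 : a ^ 4 ∈ R1 := R1.pow_mem m1 _
  have s1 : b * a ^ 2 * b⁻¹ * (a ^ 4)⁻¹ ∈ R1 :=
    R1.mul_mem (n1.conj_mem _ (R1.pow_mem m1 _) _) (R1.inv_mem t1)
  have w1 : a ^ 4 * (b * a * b⁻¹) * (a ^ 4)⁻¹ * (b * a * b⁻¹)⁻¹ ∈ R1 :=
    R1.mul_mem (n1.conj_mem _ x1 _) (R1.inv_mem x1)
  have w2 : a ^ 4 * (b * a * b⁻¹) * (a ^ 4)⁻¹ * (b * a * b⁻¹)⁻¹ ∈ R2 := by
    convert R2.mul_mem m2 (n2.conj_mem _ (R2.inv_mem m2) (b * a * b⁻¹)) using 1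
    group
  have w3 : a ^ 4 * (b * a * b⁻¹) * (a ^ 4)⁻¹ * (b * a * b⁻¹)⁻¹ ∈ R3 := by
    convert R3.mul_mem (R3.inv_mem m3) (n3.conj_mem _ m3 (b * a * b⁻¹)) using 1
    group
  have hD := key ⟨⟨w1, w2⟩, w3⟩ (by
    have c1 := Subgroup.commutator_mem_commutator x1
      (show _ ∈ R2 ⊓ R3 from ⟨R2.inv_mem w2, R3.inv_mem w3⟩)
    have c2 := Subgroup.commutator_mem_commutator m2 (show _ ∈ R1 ⊓ R3 from ⟨s1, m3⟩)
    convert Subgroup.mul_mem _ (Subgroup.mem_sup_left (Subgroup.mem_sup_right c2))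
      (Subgroup.mem_sup_left (Subgroup.mem_sup_left c1)) using 1
    have e : b * a ^ 2 * b⁻¹ = (b * a * b⁻¹) * (b * a * b⁻¹) := by
      simp [pow_two, mul_assoc]
    rw [e]
    generalize b * a * b⁻¹ = x
    generalize a ^ 4 = t
    simp [commutatorElement_def, pow_two, mul_assoc])
  have hle : ⁅R1, R2 ⊓ R3⁆ ⊔ ⁅R2, R1 ⊓ R3⁆ ⊔ ⁅R3, R1 ⊓ R2⁆ ≤ S0.comap ρ := by
    refine sup_le (sup_le ?_ ?_) ?_ <;> refine Subgroup.commutator_le.2 fun g hg h hh => ?_ <;>
      simp only [commutatorElement_def, Subgroup.mem_comap, map_mul, map_inv]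
    · exact comm1 (l1 hg) (l2 hh.1) (l3 hh.2)
    · exact comm2 (l2 hg).1 (l3 hh.2).1 (S2.even (l2 hg)) (S3.even (l3 hh.2))
    · exact comm2 (l3 hg).1 (l2 hh.2).1 (S3.even (l3 hg)) (S2.even (l2 hh.2))
  have := hle hD
  simp only [Subgroup.mem_comap, map_mul, map_inv, map_pow, ra, rb] at this
  exact notS0 this

end Pool.Agent.S03160
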