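import Pool.Statements.S03165
import Pool.Agent.H.MP_d35c37_al.Dec

set_option autoImplicit false
open Pool Pool.MP_d35c37_al

namespace Pool.Agent.S03165

open Pool.Agent.H.MP_d35c37_al Pool.Agent.H.MP_ab6a8b_al Pool.Agent.Lib.Munn Pool.Agent.Lib.IMon Pool.Agent.Lib.Benois
open FreeGroup hiding map_mul map_one map_inv
open scoped Pointwise

abbrev FS (m : ℕ) := FreeSemigroup (Fin m ⊕ Fin m)

def ee {m : ℕ} : Fin m ⊕ Fin m → Fin m × Bool := Sum.elim (·, true) (·, false)

def tw {m : ℕ} (w : FS m) : List (Fin m × Bool) := (w.head :: w.tail).map ee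

theorem ee_bij {m : ℕ} : Function.Bijective (ee (m := m)) := ⟨by rintro (_ | _) (_ | _) <;> simp [ee], by
  rintro ⟨i, _ | _⟩
  exacts [⟨.inr i, rfl⟩, ⟨.inl i, rfl⟩]⟩

theorem tw_mul {m : ℕ} (u v : FS m) : tw (u * v) = tw u ++ tw v := by simp [tw]
theorem tw_ne {m : ℕ} (u : FS m) : tw u ≠ [] := by simp [tw]
theorem tw_inj {m : ℕ} : Function.Injective (tw (m := m)) := fun ⟨_, _⟩ ⟨_, _⟩ h => by simpa using ee_bij.1.list_map h
theorem tw_surj {m : ℕ} {a : List (Fin m × Bool)} (h : a ≠ []) : ∃ u, tw u = a := by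
  obtain ⟨_ | ⟨x, l⟩, rfl⟩ := ee_bij.2.list_map a
  exacts [(h rfl).elim, ⟨⟨x, l⟩, rfl⟩]

theorem mu_nil {X : Type} {w : List (X × Bool)} (h : mu w = mu []) : w = [] := by
  classical
  obtain _ | ⟨a, w⟩ := w
  · rfl
  · have : mk [a] ∈ T ([] : List _) := (congrArg Prod.fst h).le (T_left [a] w (mk_T _))
    rw [T_nil] at this
    simpa using red_eq .singleton .nil this

theorem hat_ne {X Z : Type} {β : Z → List (X × Bool)} (h : ∀ z, β z ≠ []) {w} (k : w ≠ []) : hat β w ≠ [] := by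
  obtain _ | ⟨⟨z, _ | _⟩, w⟩ := w
  exacts [(k rfl).elim, by simp [hat, invRev, h], by simp [hat, h]]

section
variable {inv : ∀ m, FS m → FS m} {W : ∀ m, FS m → FS m → Prop} (hi : ∀ m w, tw (inv m w) = invRev (tw w))
  (hW : ∀ m u v, W m u v ↔ ((∃ w, u = w * inv m w * w ∧ v = w) ∨ ∃ w w', u = w * inv m w * (w' * inv m w') ∧ v = w' * inv m w' * (w * inv m w)))
include hi hW

theorem sg {m} (R : FS m → FS m → Prop) (u v) : conGen (fun u v => W m u v ∨ R u v) u v ↔
    q (fun a b => ∃ u v, R u v ∧ tw u = a ∧ tw v = b) (tw u) = q _ (tw v) := by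
  refine ⟨fun h => ?_, fun h => ?_⟩
  · induction h with
    | of x y h =>
      obtain (⟨w, a, b⟩ | ⟨w, w', a, b⟩) | h := (or_congr_left (hW ..)).1 h
      · simp only [a, b, tw_mul, hi, q_app, q1]
      · simp only [a, b, tw_mul, hi, q_app, q2]
      · exact q_rel ⟨x, y, h, rfl, rfl⟩
    | refl => rfl
    | symm _ h => exact h.symm
    | trans _ _ h k => exact h.trans k
    | mul _ _ h k => simp only [tw_mul, q_app, h, k]
  let c := conGen fun u v => W m u v ∨ R u v
  let K : Con (FreeMonoid (Fin m × Bool)) :=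
    { r := fun a b => a = 1 ∧ b = 1 ∨ ∃ u v, tw u = a.toList ∧ tw v = b.toList ∧ c u v
      iseqv := ⟨fun a => (eq_or_ne a 1).imp (fun h => ⟨h, h⟩) fun h => (tw_surj (a := a.toList) h).elim fun u h => ⟨u, u, h, h, c.refl u⟩,
        Or.imp And.symm fun ⟨u, v, a, b, h⟩ => ⟨v, u, b, a, c.symm h⟩, by
          rintro _ _ _ (⟨rfl, rfl⟩ | ⟨u, v, a, b, h⟩) (⟨k, rfl⟩ | ⟨u', v', a', b', h'⟩)
          exacts [.inl ⟨rfl, rfl⟩, (tw_ne _ a').elim, (tw_ne _ (k ▸ b :)).elim,
            .inr ⟨u, v', a, b', c.trans h (tw_inj (b.trans a'.symm) ▸ h')⟩]⟩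
      mul' := by
        rintro _ _ _ _ (⟨rfl, rfl⟩ | ⟨u, v, a, b, h⟩) (⟨rfl, rfl⟩ | ⟨u', v', a', b', h'⟩)
        exacts [.inl ⟨rfl, rfl⟩, .inr ⟨u', v', a', b', h'⟩, .inr ⟨u, v, by simpa, by simpa, h⟩,
          .inr ⟨u * u', v * v', by simp [tw_mul, a, a'], by simp [tw_mul, b, b'], c.mul h h'⟩] }
  have := q_ind (c := K) (fun a => by
    obtain rfl | k := eq_or_ne a []
    · exact K.refl _
    obtain ⟨u, rfl⟩ := tw_surj k
    exact .inr ⟨_, u, by simp only [tw_mul, hi]; rfl, rfl, .of _ _ (.inl ((hW ..).2 (.inl ⟨u, rfl, rfl⟩)))⟩) (fun a b => by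
    obtain rfl | k := eq_or_ne a []
    · simpa using K.refl _
    obtain rfl | l := eq_or_ne b []
    · simpa using K.refl _
    obtain ⟨u, rfl⟩ := tw_surj k
    obtain ⟨v, rfl⟩ := tw_surj l
    exact .inr ⟨_, _, by simp only [tw_mul, hi]; rfl, by simp only [tw_mul, hi]; rfl, .of _ _ (.inl ((hW ..).2 (.inr ⟨u, v, rfl, rfl⟩)))⟩) (by
    rintro _ _ ⟨u, v, h, rfl, rfl⟩
    exact .inr ⟨u, v, rfl, rfl, .of _ _ (.inr h)⟩) h
  obtain k | ⟨u', v', a, b, k⟩ := this
  · exact (tw_ne u k.1).elim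
  · exact tw_inj a ▸ tw_inj b ▸ k

theorem key {n} (gens : List ((Fin n ⊕ Fin n) × List (Fin n ⊕ Fin n))) :
    Cr (2 * ((gens.map fun g => tw ⟨g.1, g.2⟩).map List.length).sum) {m | H.MP_5c1719_al.K (au (gens.map fun g => tw ⟨g.1, g.2⟩)) m} ↔
    ∃ (m : ℕ) (R : List (FS m × FS m)), Nonempty (Subsemigroup.closure {x : (conGen (W n)).Quotient | ∃ g ∈ gens,
      x = ((⟨g.1, g.2⟩ : FS n) : (conGen (W n)).Quotient) ∨ x = ((inv n ⟨g.1, g.2⟩ : FS n) : (conGen (W n)).Quotient)} ≃*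
      (conGen fun u v : FS m => W m u v ∨ (u, v) ∈ R).Quotient) := by
  classical
  have m0 : ∀ u v, conGen (W n) u v ↔ mu (tw u) = mu (tw v) := fun u v => by
    have := sg hi hW (fun _ _ => False) u v
    simp only [or_false] at this
    refine this.trans ⟨fun h => ?_, munn⟩
    have e : ∀ u : List (Fin n × Bool), hat (fun x => [(x, true)]) u = u := fun u => by
      induction u with
      | nil => rfl
      | cons l u ih => rw [hat_cons, ih]; obtain ⟨_, _ | _⟩ := l <;> rfl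
    simpa only [e] using q_mu (β := fun x => [(x, true)]) (by simp) h
  let Mu : (conGen (W n)).Quotient → _ := fun x => Con.liftOn x (fun u => mu (tw u)) fun u v => (m0 u v).1
  have m1 : Function.Injective Mu := fun x y => Con.induction_on₂ x y fun u v h => (Con.eq _).2 ((m0 u v).2 h)
  have m2 : ∀ x y a b, Mu x = mu a → Mu y = mu b → Mu (x * y) = mu (a ++ b) := fun x y => Con.induction_on₂ x y fun u v a b h k =>
    (congrArg mu (tw_mul u v)).trans (mu_app h k)
  set L := gens.map fun g => tw ⟨g.1, g.2⟩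
  have l0 : ∀ a ∈ L, a ≠ [] := List.forall_mem_map.2 fun _ _ => tw_ne _
  generalize hG : Subsemigroup.closure (M := (conGen (W n)).Quotient) _ = G
  have m3 : ∀ x, x ∈ G ↔ Gen L (Mu x) := fun x => by
    refine ⟨fun h => ?_, fun ⟨l, a, b, c⟩ => ?_⟩
    · rw [← hG] at h
      induction h using Subsemigroup.closure_induction with
      | mem x h =>
        obtain ⟨g, h, rfl | rfl⟩ := h
        · exact ⟨[tw ⟨g.1, g.2⟩], by simp, by simpa using .inl (List.mem_map_of_mem h), by simp; rfl⟩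
        · exact ⟨[invRev (tw ⟨g.1, g.2⟩)], by simp, by
            simpa only [List.mem_singleton, forall_eq] using List.mem_append_right _ (List.mem_map_of_mem (List.mem_map_of_mem h)), by
              simp [← hi]; rfl⟩
      | mul x y _ _ h k =>
        obtain ⟨l, a, b, c⟩ := h
        obtain ⟨l', -, b', c'⟩ := k
        exact ⟨l ++ l', by simp [a], List.forall_mem_append.2 ⟨b, b'⟩, by rw [List.flatten_append, m2 _ _ _ _ c.symm c'.symm]⟩
    suffices ∃ y ∈ G, Mu y = mu l.flatten from this.elim fun y h => m1 (h.2.trans c) ▸ h.1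
    have d : ∀ a ∈ L ++ L.map invRev, ∃ y ∈ G, Mu y = mu a := by
      simp only [List.forall_mem_append, List.forall_mem_map, L, ← hG]
      exact ⟨fun g h => ⟨_, Subsemigroup.subset_closure ⟨g, h, .inl rfl⟩, rfl⟩,
        fun g h => ⟨_, Subsemigroup.subset_closure ⟨g, h, .inr rfl⟩, congrArg mu (hi ..)⟩⟩
    clear c
    induction l with
    | nil => exact (a rfl).elim
    | cons x l ih =>
      obtain ⟨y, i, j⟩ := d x (b x (.head _))
      obtain rfl | k := eq_or_ne l []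
      · exact ⟨y, i, by simpa⟩
      · obtain ⟨z, i', j'⟩ := ih k fun y k => b y (.tail _ k)
        exact ⟨_, mul_mem i i', m2 _ _ _ _ j j'⟩
  have rg : ∀ {Z : Type} (β : Z → List (Fin n × Bool)), (∀ x, Gen L x ↔ ∃ w, w ≠ [] ∧ mu (hat β w) = x) →
      {m | H.MP_5c1719_al.K (au L) m} = Set.range fun w => mu (hat β w) := fun β h => Set.ext fun x => by
    rw [Set.mem_ofPred_eq, K_au, h]
    exact ⟨by rintro (rfl | ⟨w, -, h⟩); exacts [⟨[], rfl⟩, ⟨w, h⟩], fun ⟨w, h⟩ => (eq_or_ne w []).imp (fun k => by rw [← h, k]; rfl) fun k => ⟨w, k, h⟩⟩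
  refine ⟨fun h => ?_, fun ⟨m, R, ⟨ψ⟩⟩ => ?_⟩
  · have hβ : ∀ x, Gen L x ↔ ∃ w, w ≠ [] ∧ mu (hat L.get w) = x := fun x => gen_hat fun a => List.mem_iff_get
    have b0 : ∀ z, L.get z ≠ [] := fun z => l0 _ (List.get_mem ..)
    obtain ⟨N, hN⟩ := suf (fun z => List.single_le_sum (by simp) _ (List.mem_map_of_mem (List.get_mem L z))) (rg _ hβ ▸ h)
    obtain ⟨R, hR⟩ : ∃ R : List (FS L.length × FS L.length), ∀ u v, (u, v) ∈ R ↔ RN L.get N (tw u) (tw v) :=
      have f := (List.finite_length_le _ N).preimage (tw_inj (m := L.length)).injOn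
      ⟨((f.prod f).subset (s := _) (t := {p | RN L.get N (tw p.1) (tw p.2)}) fun p h => ⟨h.1, h.2.1⟩).toFinset.toList, by simp⟩
    have c : ∀ u v, conGen (fun u v => W _ u v ∨ (u, v) ∈ R) u v ↔ mu (hat L.get (tw u)) = mu (hat L.get (tw v)) := fun u v => by
      rw [sg hi hW]
      refine ⟨q_mu (by rintro _ _ ⟨u, v, h, rfl, rfl⟩; exact ((hR ..).1 h).2.2), fun h => q_mono (fun a b k => ?_) (hN _ _ h)⟩
      obtain rfl | i := eq_or_ne a []
      · rw [by_contra fun j => hat_ne b0 j (mu_nil k.2.2.symm)]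
      obtain rfl | j := eq_or_ne b []
      · exact (hat_ne b0 i (mu_nil k.2.2)).elim
      obtain ⟨u, rfl⟩ := tw_surj i
      obtain ⟨v, rfl⟩ := tw_surj j
      exact q_rel ⟨u, v, (hR ..).2 k, rfl, rfl⟩
    choose s hs using fun u : FS L.length => tw_surj (hat_ne b0 (tw_ne u))
    have e : ∀ u, Mu (s u) = mu (hat L.get (tw u)) := fun u => congrArg mu (hs u)
    let F : (conGen fun u v => W _ u v ∨ (u, v) ∈ R).Quotient → G := fun x => Con.liftOn x
      (fun u => ⟨s u, (m3 _).2 ((hβ _).2 ⟨_, tw_ne u, (e u).symm⟩)⟩) fun u v h => Subtype.ext (m1 (by rw [e, e, (c u v).1 h]))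
    have inj : Function.Injective F := fun x y => Con.induction_on₂ x y fun u v h =>
      (Con.eq _).2 ((c u v).2 ((e u).symm.trans ((congrArg (fun x : G => Mu x.1) h).trans (e v))))
    have ml : ∀ x y, F (x * y) = F x * F y := fun x y => Con.induction_on₂ x y fun u v => Subtype.ext (m1 <|
      (e _).trans (by rw [tw_mul, hat_app]; exact (m2 _ _ _ _ (e u) (e v)).symm))
    refine ⟨_, R, ⟨(MulEquiv.ofBijective (⟨F, ml⟩ : _ →ₙ* G) ⟨inj, fun x => ?_⟩).symm⟩⟩
    · obtain ⟨w, i, j⟩ := (hβ _).1 ((m3 _).1 x.2)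
      obtain ⟨u, rfl⟩ := tw_surj i
      exact ⟨u, Subtype.ext (m1 ((e u).trans j))⟩
  let φ : FS m → _ := fun u => Mu (ψ.symm u).1
  have p1 : ∀ u v a b, φ u = mu a → φ v = mu b → φ (u * v) = mu (a ++ b) := fun u v a b h k => by
    simp only [φ, Con.coe_mul, map_mul]
    exact m2 _ _ _ _ h k
  have p2 : ∀ u v, φ u = φ v ↔ conGen (fun u v => W m u v ∨ (u, v) ∈ R) u v := fun u v =>
    m1.eq_iff.trans (Subtype.val_inj.trans (ψ.symm.injective.eq_iff.trans (Con.eq _)))
  have p3 : ∀ u, Gen L (φ u) := fun u => (m3 _).1 (ψ.symm u).2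
  have iv : ∀ u a, φ u = mu a → φ (inv m u) = mu (invRev a) := fun u a e => by
    obtain ⟨l, -, -, f⟩ := p3 (inv m u)
    generalize l.flatten = b at f
    have e1 : mu (a ++ b ++ a) = mu a := by
      rw [← p1 _ _ _ _ (p1 _ _ _ _ e f.symm) e, ← e, p2]
      exact .of _ _ (.inl ((hW ..).2 (.inl ⟨u, rfl, rfl⟩)))
    have e2 : mu (b ++ a ++ b) = mu b := by
      rw [← p1 _ _ _ _ (p1 _ _ _ _ f.symm e) f.symm, f, p2]
      exact .of _ _ (.inl ((hW ..).2 (.inl ⟨inv m u, by rw [tw_inj (show tw (inv m (inv m u)) = tw u by simp [hi])], rfl⟩)))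
    simp only [mu, T_app, ← mul_mk, Prod.mk.injEq, mul_eq_right] at e1 e2
    have := eq_inv_of_mul_eq_one_right e1.2
    rw [← f, mu_neg]
    refine Prod.ext (Set.Subset.antisymm ?_ ?_) this
    · exact Set.subset_smul_set_iff.2 (by simpa [mu] using (Set.subset_union_right.trans Set.subset_union_left).trans e1.1.le)
    · exact this ▸ (Set.subset_union_right.trans Set.subset_union_left).trans e2.1.le
  choose β hβ using fun y : Fin m => show ∃ a, φ (.of (.inl y)) = mu a from (p3 _).elim fun l h => ⟨_, h.2.2.symm⟩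
  have p4 : ∀ u, φ u = mu (hat β (tw u)) := fun u => by
    have : ∀ x, φ (.of x) = mu (hat β (tw (.of x))) := by
      rintro (y | y)
      · simpa [hat, tw, ee] using hβ y
      · rw [← tw_inj (show tw (inv m (.of (.inl y))) = tw (.of (.inr y)) from hi ..), iv _ _ (hβ y), hi, hat_inv]
        simp [hat, tw, ee]
    induction u using FreeSemigroup.recOnMul with
    | ih1 x => exact this x
    | ih2 x y h k => rw [tw_mul, hat_app, p1 _ _ _ _ h k]
  have p5 : ∀ u, φ u ≠ mu [] := fun u h => by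
    obtain ⟨_ | ⟨a, l⟩, i, j, k⟩ := p3 u
    · exact i rfl
    have := (List.append_eq_nil_iff.1 (mu_nil (k.trans h))).1
    obtain j | j := List.mem_append.1 (j a (.head _))
    · exact l0 a j this
    · obtain ⟨b, j', rfl⟩ := List.mem_map.1 j
      exact l0 b j' (by simpa [invRev] using this)
  rw [rg β fun x => ⟨fun h => ?_, fun ⟨w, i, j⟩ => ?_⟩]
  · obtain ⟨B, hB⟩ := (Set.finite_range fun y => (β y).length).bddAbove
    obtain ⟨N, hN⟩ := ((R.finite_toSet.image fun p => (tw p.1).length + (tw p.2).length)).bddAbove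
    suffices h : FP β by convert nec (fun z => hB ⟨z, rfl⟩) h _
    refine ⟨N, fun a b h => ?_⟩
    obtain rfl | i := eq_or_ne a [] <;> obtain rfl | j := eq_or_ne b []
    · rfl
    · obtain ⟨u, rfl⟩ := tw_surj j
      exact (p5 u ((p4 u).trans h.symm)).elim
    · obtain ⟨u, rfl⟩ := tw_surj i
      exact (p5 u ((p4 u).trans h)).elim
    obtain ⟨u, rfl⟩ := tw_surj i
    obtain ⟨v, rfl⟩ := tw_surj j
    refine q_mono ?_ ((sg hi hW _ u v).1 ((p2 u v).1 (by rw [p4, p4, h])))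
    rintro _ _ ⟨u, v, k, rfl, rfl⟩
    have := hN ⟨_, k, rfl⟩
    exact q_rel ⟨by simp at this; omega, by simp at this; omega, by rw [← p4, ← p4, p2]; exact .of _ _ (.inr k)⟩
  · obtain ⟨l, i, j, rfl⟩ := id h
    obtain ⟨u, e⟩ : ∃ u, tw u = l.flatten := tw_surj fun e => by
      obtain _ | ⟨a, l⟩ := l
      · exact i rfl
      have := (List.append_eq_nil_iff.1 e).1
      obtain j | j := List.mem_append.1 (j a (.head _))
      · exact l0 a j this
      · obtain ⟨b, j', rfl⟩ := List.mem_map.1 j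
        exact l0 b j' (by simpa [invRev] using this)
    obtain ⟨v, k⟩ := Con.induction_on (C := fun x => ∃ v : FS m, ↑v = x) (ψ ⟨u, (m3 _).2 (e ▸ h :)⟩) fun v => ⟨v, rfl⟩
    exact ⟨tw v, tw_ne v, by rw [← p4, ← e]; simp only [φ, k, MulEquiv.symm_apply_apply]; rfl⟩
  · obtain ⟨u, rfl⟩ := tw_surj i
    exact j ▸ p4 u ▸ p3 u

end

theorem result :
    ∀ (inv : ∀ m : ℕ, FreeSemigroup (Fin m ⊕ Fin m) → FreeSemigroup (Fin m ⊕ Fin m)),
      (∀ (m : ℕ) (w : FreeSemigroup (Fin m ⊕ Fin m)),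
        inv m w = MulOpposite.unop
          (FreeSemigroup.lift (fun a : Fin m ⊕ Fin m => MulOpposite.op (FreeSemigroup.of a.swap)) w)) →
    ∀ (W : ∀ m : ℕ, FreeSemigroup (Fin m ⊕ Fin m) → FreeSemigroup (Fin m ⊕ Fin m) → Prop),
      (∀ (m : ℕ) (u v : FreeSemigroup (Fin m ⊕ Fin m)),
        W m u v ↔ ((∃ w, u = w * inv m w * w ∧ v = w) ∨
          ∃ w w', u = w * inv m w * (w' * inv m w') ∧ v = w' * inv m w' * (w * inv m w))) →
    ∀ n : ℕ, 2 ≤ n →
      ComputablePred (fun gens : List ((Fin n ⊕ Fin n) × List (Fin n ⊕ Fin n)) =>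
        ∃ (m : ℕ) (R : List (FreeSemigroup (Fin m ⊕ Fin m) × FreeSemigroup (Fin m ⊕ Fin m))),
          Nonempty
            (↥(Subsemigroup.closure
                {x : (conGen (W n)).Quotient |
                  ∃ g ∈ gens,
                    x = ((FreeSemigroup.mk g.1 g.2 : FreeSemigroup (Fin n ⊕ Fin n)) :
                          (conGen (W n)).Quotient) ∨
                    x = ((inv n (FreeSemigroup.mk g.1 g.2) : FreeSemigroup (Fin n ⊕ Fin n)) :
                          (conGen (W n)).Quotient)}) ≃*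
              (conGen (fun u v : FreeSemigroup (Fin m ⊕ Fin m) =>
                  W m u v ∨ (u, v) ∈ R)).Quotient)) := by
  intro inv hi W hW n _
  have h : ∀ m (w : FS m), tw (inv m w) = invRev (tw w) := fun m w => by
    rw [hi]
    induction w using FreeSemigroup.recOnMul with
    | ih1 x => cases x <;> rfl
    | ih2 x y h k => rw [map_mul, MulOpposite.unop_mul, tw_mul, tw_mul, h, k, invRev_append]
  have a : Primrec fun gens : List ((Fin n ⊕ Fin n) × List (Fin n ⊕ Fin n)) => gens.map fun g => tw ⟨g.1, g.2⟩ :=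
    Primrec.list_map .id (Primrec.list_map (Primrec.list_cons.comp (Primrec.fst.comp .snd) (Primrec.snd.comp .snd))
      ((Primrec.dom_finite ee).comp .snd).to₂).to₂
  have b : Primrec (List.sum : List ℕ → ℕ) := (Primrec.list_foldr (h := fun _ (p : ℕ × ℕ) => p.1 + p.2) .id (.const 0)
    ((Primrec.nat_add.comp .fst .snd).comp .snd).to₂).of_eq fun l => List.sum_eq_foldr.symm
  exact ((pp_Cr.comp (pr_au.comp a) (Primrec.nat_mul.comp (.const 2) (b.comp (Primrec.list_map a
    (Primrec.list_length.comp .snd).to₂)))).of_eq fun g => key h hW g).computablePred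

end Pool.Agent.S03165
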