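import Pool.Statements.S03180
-- import your own Pool.Agent.* helpers here

set_option autoImplicit false
open Pool Pool.MP_d4d493_al

namespace Pool.Agent.S03180

noncomputable section

abbrev FF := HahnSeries ℤ ℂ

def eu (x : FF) : FF where
  coeff n := n * x.coeff n
  isPWO_support' := x.isPWO_support.mono fun n hn h => hn (by simp [h])

theorem eu_coeff (x : FF) (n : ℤ) : (eu x).coeff n = n * x.coeff n := rfl

theorem eu_supp (x : FF) : (eu x).support ⊆ x.support := fun n hn h => hn (by simp [eu_coeff, h])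

def de : FF →ₗ[ℂ] FF where
  toFun := eu
  map_add' x y := by ext n; simp [eu_coeff, mul_add]
  map_smul' c x := by ext n; simp [eu_coeff]; ring

theorem de_mul (x y : FF) : de (x * y) = x * de y + de x * y := by
  ext n
  change (eu (x * y)).coeff n = (x * eu y + eu x * y).coeff n
  rw [HahnSeries.coeff_add, HahnSeries.coeff_mul_right' y.isPWO_support (eu_supp y),
    HahnSeries.coeff_mul_left' x.isPWO_support (eu_supp x), eu_coeff, HahnSeries.coeff_mul,
    Finset.mul_sum, ← Finset.sum_add_distrib]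
  refine Finset.sum_congr rfl fun p hp => ?_
  rw [eu_coeff, eu_coeff, ← (Finset.mem_antidiagonal.mp hp).2.2]
  push_cast
  ring

theorem wr (u v : FF) (hu : u ≠ 0) (h : u * de v - de u * v = 0) : ∃ c : ℂ, v = c • u := by
  obtain ⟨q, rfl⟩ : ∃ q, v = q * u := ⟨v / u, (div_mul_cancel₀ v hu).symm⟩
  rw [de_mul] at h
  have h1 : de q = 0 := by
    have : u * u * de q = 0 := by linear_combination h
    exact (mul_eq_zero.mp this).resolve_left (mul_ne_zero hu hu)
  refine ⟨q.coeff 0, ?_⟩
  rw [← HahnSeries.single_zero_mul_eq_smul]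
  congr 1
  ext n
  rw [HahnSeries.coeff_single]
  split_ifs with hn
  · rw [hn]
  · have : (n : ℂ) * q.coeff n = 0 := congrArg (fun z : FF => z.coeff n) h1
    exact (mul_eq_zero.mp this).resolve_left (Int.cast_ne_zero.mpr hn)

theorem inf_dim : ¬ Module.Finite ℂ FF := by
  intro h
  have : LinearIndependent ℂ fun n : ℤ => (HahnSeries.single n (1 : ℂ) : FF) := by
    rw [linearIndependent_iff']
    intro s g hg i hi
    have := congrArg (fun z : FF => z.coeff i) hg
    simp only [HahnSeries.coeff_sum, HahnSeries.coeff_smul, HahnSeries.coeff_single,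
      smul_eq_mul, mul_ite, mul_one, mul_zero, HahnSeries.coeff_zero] at this
    rwa [Finset.sum_ite_eq, if_pos hi] at this
  have := this.finite
  exact not_finite ℤ

def LL : Type := FF × FF

instance : AddCommGroup LL := inferInstanceAs (AddCommGroup (FF × FF))
instance : Module ℂ LL := inferInstanceAs (Module ℂ (FF × FF))

def mk (u w : FF) : LL := (u, w)

instance : LieRing LL where
  bracket x y := mk 0 (x.1 * de y.1 - de x.1 * y.1)
  add_lie x y z := Prod.ext (add_zero _).symm (by
    change (x.1 + y.1) * de z.1 - de (x.1 + y.1) * z.1 =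
      x.1 * de z.1 - de x.1 * z.1 + (y.1 * de z.1 - de y.1 * z.1)
    rw [map_add]; ring)
  lie_add x y z := Prod.ext (add_zero _).symm (by
    change x.1 * de (y.1 + z.1) - de x.1 * (y.1 + z.1) =
      x.1 * de y.1 - de x.1 * y.1 + (x.1 * de z.1 - de x.1 * z.1)
    rw [map_add]; ring)
  lie_self x := Prod.ext rfl (by
    change x.1 * de x.1 - de x.1 * x.1 = 0
    ring)
  leibniz_lie x y z := Prod.ext (add_zero _).symm (by
    change x.1 * de 0 - de x.1 * 0 = 0 * de z.1 - de 0 * z.1 + (y.1 * de 0 - de y.1 * 0)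
    rw [map_zero]; ring)

theorem br (x y : LL) : ⁅x, y⁆ = mk 0 (x.1 * de y.1 - de x.1 * y.1) := rfl

instance : LieAlgebra ℂ LL where
  lie_smul c x y := Prod.ext (smul_zero c).symm (by
    change x.1 * de (c • y.1) - de x.1 * (c • y.1) = c • (x.1 * de y.1 - de x.1 * y.1)
    rw [map_smul, ← HahnSeries.single_zero_mul_eq_smul, ← HahnSeries.single_zero_mul_eq_smul,
      ← HahnSeries.single_zero_mul_eq_smul]
    ring)

def inl : FF →ₗ[ℂ] LL := LinearMap.inl ℂ FF FF
def inr : FF →ₗ[ℂ] LL := LinearMap.inr ℂ FF FF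

theorem cen (w : FF) (u : LL) : ⁅inr w, u⁆ = 0 := Prod.ext rfl (by
  change 0 * de u.1 - de 0 * u.1 = 0
  rw [map_zero]; ring)

end

theorem result :
    ¬ (∀ (K : Type) (L : Type) [Field K] [IsAlgClosed K] [LieRing L] [LieAlgebra K L],
      (∀ x y z : L, ⁅x, ⁅y, z⁆⁆ = 0) →
      (∀ x : L, (∃ y : L, ⁅x, y⁆ ≠ 0) →
        ∃ W : Submodule K L, FiniteDimensional K W ∧
          ∀ y : L, ⁅x, y⁆ = 0 →
            ∃ w ∈ W, ∃ z : L, (∀ u : L, ⁅z, u⁆ = 0) ∧ y = w + z) →
      ∀ x : L, x ≠ 0 →
        ∃ I : LieIdeal K L, x ∉ I ∧ FiniteDimensional K (L ⧸ (I : Submodule K L))) := by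
  intro hall
  obtain ⟨I, hI, hfin⟩ := hall ℂ LL
    (fun x y z => Prod.ext rfl (by
      change x.1 * de 0 - de x.1 * 0 = 0
      rw [map_zero]; ring))
    (by
      rintro x ⟨y, hy⟩
      have hx : x.1 ≠ 0 := fun h => hy (Prod.ext rfl (by
        change x.1 * de y.1 - de x.1 * y.1 = 0
        rw [h, map_zero]; ring))
      refine ⟨Submodule.span ℂ {inl x.1}, inferInstance, fun z hz => ?_⟩
      obtain ⟨c, hc⟩ := wr x.1 z.1 hx (congrArg Prod.snd hz)
      refine ⟨c • inl x.1, Submodule.smul_mem _ _ (Submodule.mem_span_singleton_self _),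
        inr z.2, cen _, Prod.ext ?_ ?_⟩
      · exact hc.trans (add_zero _).symm
      · change z.2 = c • 0 + z.2
        rw [smul_zero, zero_add])
    (inr 1) (fun h => one_ne_zero (congrArg Prod.snd h))
  obtain ⟨f, hf, hf'⟩ := Submodule.exists_le_ker_of_notMem (p := (I : Submodule ℂ LL)) hI
  let g := (I : Submodule ℂ LL).mkQ.comp inl
  have h1 : ∀ u ∈ LinearMap.ker g, ∀ v, f (inr (u * de v - de u * v)) = 0 := by
    intro u hu v
    have h : inl u ∈ I := (Submodule.Quotient.mk_eq_zero _).mp hu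
    exact hf' (lie_mem_left ℂ LL I (inl u) (inl v) h)
  have h2 : ∀ u ∈ LinearMap.ker g, ∀ v ∈ LinearMap.ker g, u * de v - de u * v = 0 := by
    intro u hu v hv
    by_contra h
    have a1 := h1 u hu (v * (u * de v - de u * v)⁻¹)
    have a2 := h1 v hv (u * (u * de v - de u * v)⁻¹)
    have a3 := mul_inv_cancel₀ h
    generalize (u * de v - de u * v)⁻¹ = w at a1 a2 a3
    have a4 : u * de (v * w) - de u * (v * w) - (v * de (u * w) - de v * (u * w)) = 1 + 1 := by
      rw [de_mul, de_mul]
      linear_combination 2 * a3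
    have a5 := congrArg (fun z => f (inr z)) a4
    simp only [map_add] at a5
    rw [map_sub, map_sub, a1, a2] at a5
    apply hf
    linear_combination (-1 / 2) * a5
  have h3 : (LinearMap.ker g).FG := by
    by_cases h : LinearMap.ker g = ⊥
    · rw [h]; exact Submodule.fg_bot
    · obtain ⟨u, hu, hu0⟩ := Submodule.exists_mem_ne_zero_of_ne_bot h
      refine ⟨{u}, le_antisymm (by simpa using hu) fun v hv => ?_⟩
      obtain ⟨c, rfl⟩ := wr u v hu0 (h2 u hu v hv)
      exact Submodule.smul_mem _ _ (Submodule.subset_span (by simp))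
  exact inf_dim ⟨Submodule.fg_of_fg_map_of_fg_inf_ker g (IsNoetherian.noetherian _)
    (by rwa [top_inf_eq])⟩

end Pool.Agent.S03180
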