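import Pool.Statements.S03186
import Pool.Agent.H.MP_d5772f_al.A

set_option autoImplicit false
open Pool Pool.MP_d5772f_al

namespace Pool.Agent.S03186

theorem result :
    ¬ (∀ (G : Type) [Group G] [Finite G] (T : Sylow 2 G) (t : G),
      t ∈ (T : Subgroup G) →
      (∀ x ∈ (T : Subgroup G), x * t = t * x) →
      orderOf t = 2 →
      ∀ g : G, ∃ c ∈ Subgroup.centralizer ({t} : Set G), Odd (orderOf (g * c))) := by
  exact Pool.Agent.H.MP_d5772f_al.main

end Pool.Agent.S03186
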