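import Pool.Statements.S03188
import Pool.Agent.H.MP_d581c5_al.Main

set_option autoImplicit false
open scoped Pointwise Classical
open Pool Pool.MP_d581c5_al

namespace Pool.Agent.S03188

theorem result :
    ¬ (∀ (G : Type) [Group G] (L : G → ℝ),
      (∀ g, 0 ≤ L g) → L 1 = 0 → (∀ g, L g⁻¹ = L g) →
      (∀ g h, L (g * h) ≤ L g + L h) →
      (∃ C : ℝ, 0 < C ∧ ∃ d : ℕ, ∀ r : ℝ, 0 ≤ r → ∀ S X : Finset G,
          (∀ s ∈ S, L s ≤ r) →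
          (S.card : ℝ) * (X.card : ℝ) ≤ C * (1 + r) ^ d * ((S * X).card : ℝ)) →
      ∃ C : ℝ, 0 < C ∧ ∃ d : ℕ, ∀ r : ℝ, 0 ≤ r →
        ∀ (A B : Finset G) (f g : G → ℂ), (∀ y ∈ A, L y ≤ r) →
          ∑ x ∈ A * B, ‖∑ p ∈ (A ×ˢ B).filter (fun p => p.1 * p.2 = x), f p.1 * g p.2‖ ^ 2
            ≤ (C * (1 + r) ^ d) ^ 2 * (∑ y ∈ A, ‖f y‖ ^ 2) * (∑ z ∈ B, ‖g z‖ ^ 2)) := by
  intro h
  refine Pool.Agent.H.MP_d581c5_al.notRD ?_
  have := h Pool.Agent.H.MP_d581c5_al.G Pool.Agent.H.MP_d581c5_al.L (fun g => Nat.cast_nonneg _)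
    (by simp [Pool.Agent.H.MP_d581c5_al.L, Pool.Agent.H.MP_d581c5_al.Ln_one])
    (fun g => by simp [Pool.Agent.H.MP_d581c5_al.L, Pool.Agent.H.MP_d581c5_al.Ln_inv])
    (fun g k => by
      simp only [Pool.Agent.H.MP_d581c5_al.L]
      exact_mod_cast Pool.Agent.H.MP_d581c5_al.Ln_mul g k)
    (by convert Pool.Agent.H.MP_d581c5_al.RE; rfl)
  convert this <;> rfl

end Pool.Agent.S03188
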