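import Pool.Statements.S03208
import Pool.Agent.H.MP_d7a7a6_al.C

set_option autoImplicit false
open Pool Pool.MP_d7a7a6_al

namespace Pool.Agent.S03208

theorem result :
    ¬ (∃ f : ℕ → ℕ, ∀ (F : Type) [Field F] (R : Type) [NonUnitalRing R] [Module F R]
      [IsScalarTower F R R] [SMulCommClass F R R],
      (∃ n : ℕ, ∀ x : Fin n → R,
        (List.ofFn (fun i => (Unitization.inr (x i) : Unitization F R))).prod = 0) →
      ∀ d : ℕ, ∀ g : Fin d → (Unitization F R)ˣ,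
        (∀ i, ∃ r : R, ((g i : (Unitization F R)ˣ) : Unitization F R) = 1 + Unitization.inr r) →
        (∀ r : R, ∃ u ∈ Subgroup.closure (Set.range g),
          (u : Unitization F R) = 1 + Unitization.inr r) →
        Module.rank F R ≤ (f d : Cardinal)) := by
  rintro ⟨f, hf⟩
  have h1 := H.MP_d7a7a6_al.rank_ge (f 8 + 1)
  have h2 := hf (ZMod 2) (H.MP_d7a7a6_al.R (f 8 + 1))
    ⟨f 8 + 1 + 1, fun y => H.MP_d7a7a6_al.W_big _ _ (by
      have := H.MP_d7a7a6_al.prod_mem (f 8 + 1)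
        (List.ofFn fun i => (Unitization.inr (y i) : H.MP_d7a7a6_al.U (f 8 + 1))) fun u hu => by
          obtain ⟨i, rfl⟩ := List.mem_ofFn.1 hu
          exact H.MP_d7a7a6_al.inr_mem _ _
      rwa [List.length_ofFn] at this)⟩
    8 (fun a => (H.MP_d7a7a6_al.unit_ee (f 8 + 1) a).unit) (fun a => ⟨_, rfl⟩)
    (fun r => H.MP_d7a7a6_al.gen_all (H.MP_d7a7a6_al.ee (f 8 + 1)) _ (fun _ => rfl)
      (H.MP_d7a7a6_al.top_mem _) (H.MP_d7a7a6_al.rot_zero _) (f 8 + 1)
      (H.MP_d7a7a6_al.W_big _) _ (H.MP_d7a7a6_al.inr_mem _ r))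
  have h3 := h1.trans h2
  rw [Nat.cast_le] at h3
  omega

end Pool.Agent.S03208
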