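import Pool.Statements.S03236
import Pool.Agent.H.MP_da3691_al.B
import Pool.Agent.Lib.helper21.PR

set_option autoImplicit false
open Pool Pool.MP_da3691_al

namespace Pool.Agent.S03236

open Pool.Agent.H.MP_ed747a_al Pool.Agent.H.MP_da3691_al Pool.Agent.Lib.H10 Pool.Agent.Lib.helper21.PR Equiv

abbrev Wd := List ((ℕ ⊕ Bool) × Bool)

def iv (w : Wd) : Wd := (w.map fun p => (p.1, !p.2)).reverse
def pw (w : Wd) (n : ℕ) : Wd := (List.range n).flatMap fun _ => w
def fin (B C : Wd) (l : List Wd) : Wd := ((List.range l.length).flatMap fun i => pw C i ++ l.getD i [] ++ pw B (i + 1) ++ iv (pw C i ++ l.getD i [])) ++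
  iv ((List.range l.length).flatMap fun i => pw C i ++ pw B (i + 1) ++ iv (pw C i))
def ws (tr : Fin 5 ⊕ ℕ → Wd) (d₀ d₁ d₂ : Wd) (S : List (Unit × List (Fin 5 ⊕ ℕ) × List (Fin 5 ⊕ ℕ))) : List Wd :=
  S.flatMap fun e => ((e.2.1 ++ e.2.2).flatMap fun x => [tr x, d₂ ++ tr x ++ iv d₂]) ++
    [d₁ ++ (iv (e.2.2.flatMap tr) ++ e.2.1.flatMap tr) ++ iv d₁, d₀ ++ (iv (e.2.2.flatMap tr) ++ e.2.1.flatMap tr) ++ iv d₀]

variable {F : Type} [Group F] (g : Bool → F) (σ : ℕ → F)

def ew (w : Wd) : F := (w.map fun p => if p.2 then Sum.elim σ g p.1 else (Sum.elim σ g p.1)⁻¹).prod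

theorem ew_app (u w : Wd) : ew g σ (u ++ w) = ew g σ u * ew g σ w := by simp [ew]
theorem ew_iv (w : Wd) : ew g σ (iv w) = (ew g σ w)⁻¹ := by
  induction w with
  | nil => simp [ew, iv]
  | cons p w ih => obtain ⟨p, _ | _⟩ := p <;> simp_all [ew, iv]
theorem ew_fm {ι : Type} (l : List ι) (f : ι → Wd) : ew g σ (l.flatMap f) = (l.map fun i => ew g σ (f i)).prod := by
  induction l with
  | nil => rfl
  | cons i l ih => simp [ew_app, ih]
theorem ew_pw (w : Wd) (n : ℕ) : ew g σ (pw w n) = ew g σ w ^ n := by simp [pw, ew_fm]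

attribute [local irreducible] Primrec in
theorem und1 (ρ : F →* Perm X) (hρ : Function.Injective ρ) (ha : ρ (g false) = c⁻¹) (hb : ρ (g true) = On [true] c⁻¹)
    (hg : Subgroup.closure {g false, g true} = ⊤) : ¬ ComputablePred fun w => ∃ σ, ew g σ w = 1 := fun hc => by
  classical
  have hΓ : ρ.range = .closure {c⁻¹, On [true] c⁻¹} := by
    rw [MonoidHom.range_eq_map, ← hg, MonoidHom.map_closure, Set.image_pair, ha, hb]
  have hV : ∀ f, ρ f ∈ V ⊓ Mo := fun f => (hΓ.trans_le ((Subgroup.closure_le _).2 (by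
    rintro _ (rfl | rfl)
    · exact inv_mem ⟨e_mem true, c_mo⟩
    · exact ⟨on_mem _ (inv_mem (e_mem true)), on_mo _ (inv_mem c_mo)⟩))) ⟨f, rfl⟩
  have : ∀ f : F, ∃ w, ∀ σ, ew g σ w = f := fun f => by
    induction hg.ge (Subgroup.mem_top f) using Subgroup.closure_induction with
    | mem x h => rcases h with rfl | rfl <;> exact ⟨[(.inr _, true)], fun _ => mul_one _⟩
    | one => exact ⟨[], fun _ => rfl⟩
    | mul _ _ _ _ i j => exact i.elim fun u i => j.elim fun w j => ⟨u ++ w, fun σ => by rw [ew_app, i, j]⟩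
    | inv _ _ i => exact i.elim fun u i => ⟨iv u, fun σ => by rw [ew_iv, i]⟩
  have : ∀ a, ∃ w, ∀ σ, ρ (ew g σ w) = On a c := fun a => (on_in hΓ a).elim fun f h => (this f).imp fun w k σ => by rw [k, h]
  choose wd hw using this
  have h0 : ∀ σ, ρ (ew g σ (wd [])) = c := fun σ => (hw _ σ).trans (on_nil c)
  have kl : ∀ i, Lf (On (β 1 ++ cs i) c) (On (cs i) c) := fun i => by
    have : ∀ j, j ≠ 1 → Commute (On (β 1 ++ cs i) c) (On (β j) c) := fun j h => comm_on c fun w => on_not _ fun ⟨u, d⟩ =>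
      h (β_disj (d.symm.trans (cat_append ..)))
    exact ⟨this 0 (by simp), this 2 (by simp), fun w => by simp only [β, List.replicate, List.cons_append, List.nil_append, on_cons _ (_ :: _),
      on_cons false (cs i), cat_cons, cat_nil, on1, if_true]⟩
  let k : Fin 5 → Res ρ.range := fun i => ⟨On (cs i) c, _, on_in hΓ _, kl i⟩
  let tr : Fin 5 ⊕ ℕ → Wd := Sum.elim (fun i => wd (β 1 ++ cs i)) fun n => [(.inl n, true)]
  have pt : Primrec tr := (Primrec.sumCasesOn .id ((Primrec.dom_finite fun i => wd (β 1 ++ cs i)).comp .snd).to₂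
    (Primrec.list_cons.comp ((Primrec.sumInl.comp .snd).pair (.const true)) (.const [])).to₂).of_eq (by rintro (_ | _) <;> rfl)
  have pr : Primrec fun S => fin (wd (β 0)) (wd []) (ws tr (wd [true] ++ iv (wd [])) (iv (wd [])) (iv (pw (wd []) 2)) S) := by
    have : Primrec (fin (wd (β 0)) (wd [])) := by unfold fin iv pw; fun_prop
    refine this.comp ?_
    unfold ws iv; fun_prop
  obtain ⟨φ, hφ, e⟩ := ComputablePred.computable_iff.1 hc
  refine und (k := k) (fun f ⟨_, ⟨u, a⟩, b⟩ => res_mem (a ▸ (hV u).1) b.2.2) (fun _ => rfl)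
    (ComputablePred.computable_iff.2 ⟨_, hφ.comp pr.to_comp, funext fun S => ?_⟩)
  rw [← congrFun e]
  have z1 : ∀ σ l, ew g σ (fin (wd (β 0)) (wd []) l) = 1 ↔ ∀ w ∈ l, Commute (ρ (ew g σ w)) (On (β 0) c) := fun σ l => by
    rw [← hρ.eq_iff, fin]
    simp only [ew_app, ew_iv, ew_fm, ew_pw, map_mul, map_inv, map_list_prod, List.map_map, Function.comp_def, map_pow, h0, hw, map_one, mul_inv_eq_one]
    rw [merge _ (fun i => (hV _).1) fun i => (hV _).2]
    exact ⟨fun h w a => by obtain ⟨i, b, rfl⟩ := List.getElem_of_mem a; simpa [b] using h i b, fun h i b => h _ (by simp [b])⟩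
  have cm : ∀ {δ f : Perm X} {a}, (∀ w, δ (cat a w) = cat (β 0) w) → (Commute (δ * f * δ⁻¹) (On (β 0) c) ↔ Commute f (On a c)) := fun h => by
    rw [← conj_on h, Commute.conj_iff]
  have z2 : ∀ σ, ew g σ (fin (wd (β 0)) (wd []) (ws tr (wd [true] ++ iv (wd [])) (iv (wd [])) (iv (pw (wd []) 2)) S)) = 1 ↔ ∀ e ∈ S,
      (∀ x ∈ e.2.1 ++ e.2.2, Commute (ρ (ew g σ (tr x))) (On (β 0) c) ∧ Commute (ρ (ew g σ (tr x))) (On (β 2) c)) ∧ ∀ w,
      (e.2.1.map fun x => ρ (ew g σ (tr x))).prod (cat (β 1) w) = (e.2.2.map fun x => ρ (ew g σ (tr x))).prod (cat (β 1) w) := fun σ => by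
    simp only [z1, ws, List.forall_mem_flatMap, List.forall_mem_append (l₂ := [_, _]), List.forall_mem_cons, List.not_mem_nil, false_imp_iff, implies_true,
      and_true, ew_app, ew_iv, ew_pw, map_mul, map_inv, map_pow, h0, hw]
    refine forall₂_congr fun p _ => and_congr (forall₂_congr fun x _ => and_congr_right' (cm fun w => Perm.inv_eq_iff_eq.2 (c_β 0 2 w).symm)) ?_
    rw [cm (a := β 1) (δ := c⁻¹) fun w => Perm.inv_eq_iff_eq.2 (c_β 0 1 w).symm, cm (a := β 1 ++ [false]) fun w => by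
      rw [Perm.mul_apply, cat_append, (Perm.inv_eq_iff_eq (f := c)).2 (c_β 0 1 _).symm]
      simp only [β, List.replicate, List.cons_append, List.nil_append, cat_cons, cat_nil, on1, if_true, c00]]
    refine ⟨fun h w => ?_, fun h => ?_⟩
    · simpa only [ew_fm, map_list_prod, List.map_map, Function.comp_def] using Perm.inv_eq_iff_eq.1
        (triv (mul_mem (inv_mem (hV _).1) (hV _).1) h.1 h.2 w)
    have : ∀ w, ((ρ (ew g σ (p.2.2.flatMap tr)))⁻¹ * ρ (ew g σ (p.2.1.flatMap tr))) (cat (β 1) w) = cat (β 1) w := fun w =>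
      Perm.inv_eq_iff_eq.2 (by simpa only [ew_fm, map_list_prod, List.map_map, Function.comp_def] using h w)
    exact ⟨comm_on c this, comm_on c fun w => by rw [cat_append, this]⟩
  have z3 : ∀ (σ : ℕ → F) (τ : ℕ → Res ρ.range) (u w : List (Fin 5 ⊕ ℕ)), (∀ n, .inr n ∈ u ++ w → Lf (ρ (σ n)) (τ n)) →
      (∀ x ∈ u ++ w, Lf (ρ (ew g σ (tr x))) (Sum.elim k τ x).1) ∧ (ev k τ u = ev k τ w ↔ ∀ y,
      (u.map fun x => ρ (ew g σ (tr x))).prod (cat (β 1) y) = (w.map fun x => ρ (ew g σ (tr x))).prod (cat (β 1) y)) := fun σ τ u w h => by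
    have : ∀ x ∈ u ++ w, Lf (ρ (ew g σ (tr x))) (Sum.elim k τ x).1 := by
      rintro (i | n) a
      · exact (hw _ σ).symm ▸ kl i
      · simpa [tr, ew] using h n a
    refine ⟨this, ?_⟩
    simp only [lf_prod fun x a => this x (List.mem_append_left _ a), lf_prod fun x a => this x (List.mem_append_right _ a), (cat_inj _).eq_iff,
      Subtype.ext_iff, ev, Subgroup.val_list_prod, List.map_map, Function.comp_def, Perm.ext_iff]
  refine propext ⟨fun ⟨τ, h⟩ => ?_, fun ⟨σ, h⟩ => ?_⟩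
  · choose _ a b using fun n => (τ n).2
    choose σ a using a
    have := fun p : Unit × _ × _ => z3 σ τ p.2.1 p.2.2 fun n _ => a n ▸ b n
    exact ⟨σ, (z2 σ).2 fun p d => ⟨fun x f => ⟨((this p).1 x f).1, ((this p).1 x f).2.1⟩, (this p).2.1 (h p d)⟩⟩
  · have : ∀ n, ∃ f : Res ρ.range, Commute (ρ (σ n)) (On (β 0) c) ∧ Commute (ρ (σ n)) (On (β 2) c) → Lf (ρ (σ n)) f := fun n => by
      by_cases a : Commute (ρ (σ n)) (On (β 0) c) ∧ Commute (ρ (σ n)) (On (β 2) c)
      · exact (ex_lf (hV _).1 (hV _).2 a.1 a.2).elim fun f b => ⟨⟨f, _, ⟨_, rfl⟩, b⟩, fun _ => b⟩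
      · exact ⟨1, fun b => absurd b a⟩
    choose τ a using this
    exact ⟨τ, fun p d => (z3 σ τ _ _ fun n f => a n (by simpa [tr, ew] using ((z2 σ).1 h p d).1 _ f)).2.2 ((z2 σ).1 h p d).2⟩

theorem result :
    ¬ (∀ rels : Set (FreeGroup Bool),
      rels = {(FreeGroup.of false * (FreeGroup.of true)⁻¹) *
                ((FreeGroup.of false)⁻¹ * FreeGroup.of true * FreeGroup.of false) *
                (FreeGroup.of false * (FreeGroup.of true)⁻¹)⁻¹ *
                ((FreeGroup.of false)⁻¹ * FreeGroup.of true * FreeGroup.of false)⁻¹,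
              (FreeGroup.of false * (FreeGroup.of true)⁻¹) *
                ((FreeGroup.of false)⁻¹ * (FreeGroup.of false)⁻¹ * FreeGroup.of true *
                  FreeGroup.of false * FreeGroup.of false) *
                (FreeGroup.of false * (FreeGroup.of true)⁻¹)⁻¹ *
                ((FreeGroup.of false)⁻¹ * (FreeGroup.of false)⁻¹ * FreeGroup.of true *
                  FreeGroup.of false * FreeGroup.of false)⁻¹} →
      ComputablePred (fun w : List ((ℕ ⊕ Bool) × Bool) =>
        ∃ σ : ℕ → PresentedGroup rels,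
          (w.map (fun p : (ℕ ⊕ Bool) × Bool =>
            (if p.2 then
                Sum.elim σ (fun b : Bool => (PresentedGroup.of b : PresentedGroup rels)) p.1
              else
                (Sum.elim σ (fun b : Bool => (PresentedGroup.of b : PresentedGroup rels)) p.1)⁻¹ :
              PresentedGroup rels))).prod = 1)) := by
  intro h
  have hc : ∀ f, Commute (c⁻¹ * (On [true] c⁻¹)⁻¹) (On [true, true] f) := fun f => comm_on f fun w => by
    simp only [map_inv, inv_inv, Perm.mul_apply, cat_cons, cat_nil, on1, if_true, c1]; rfl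
  have h1 : c * On [true] c⁻¹ * c⁻¹ = On [true, true] c⁻¹ := conj_on (g := c) (fun w => by simp only [cat_cons, c1]) _
  have h2 : c * c * On [true] c⁻¹ * c⁻¹ * c⁻¹ = On [true, true] (On [true] c⁻¹) := by
    rw [on_cons true [true] (On _ _), ← on_cons true [true] c⁻¹, ← on_cons, ← conj_on (g := c) (a := [true, true]) (b := [true, true, true]) (fun w => by simp only [cat_cons, c1]), ← h1]
    simp only [mul_assoc]
  have key : ∀ A B : Perm X, A = c⁻¹ → B = On [true] c⁻¹ → Commute (A * B⁻¹) (A⁻¹ * B * A) ∧ Commute (A * B⁻¹) (A⁻¹ * A⁻¹ * B * A * A) := by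
    rintro _ _ rfl rfl
    rw [inv_inv, h1, h2]
    exact ⟨hc _, hc _⟩
  refine und1 PresentedGroup.of (PresentedGroup.toGroup (f := fun b => cond b (On [true] c⁻¹) c⁻¹) ?_) (faith (a := .of false) (b := .of true) ?_ ?_ _
    (PresentedGroup.toGroup.of _) (PresentedGroup.toGroup.of _) ?_) (PresentedGroup.toGroup.of _) (PresentedGroup.toGroup.of _) ?_ (h _ rfl)
  · have := key (FreeGroup.lift (fun b => cond b (On [true] c⁻¹) c⁻¹) (.of false)) (FreeGroup.lift (fun b => cond b (On [true] c⁻¹) c⁻¹) (.of true))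
      FreeGroup.lift_apply_of FreeGroup.lift_apply_of
    generalize FreeGroup.lift (fun b => cond b (On [true] c⁻¹) c⁻¹) = l at this ⊢
    rintro _ (rfl | rfl) <;> simp only [map_mul, map_inv]
    exacts [commutatorElement_eq_one_iff_commute.2 this.1, commutatorElement_eq_one_iff_commute.2 this.2]
  · exact commutatorElement_eq_one_iff_commute.1 (PresentedGroup.one_of_mem (.inl rfl))
  · exact commutatorElement_eq_one_iff_commute.1 (PresentedGroup.one_of_mem (.inr rfl))
  all_goals rw [← PresentedGroup.closure_range_of, Bool.range_eq]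

end Pool.Agent.S03236
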