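import Pool.Statements.S03238
-- import your own Pool.Agent.* helpers here

set_option autoImplicit false
open Pool Pool.MP_da5d41_al

namespace Pool.Agent.S03238

inductive E : Type
  | a (i j : ℕ) (h : j ≤ i)
  | x
  | b (i j : ℕ) (h : j < i)
  | g (j : ℕ)
  | y
  | p (n : ℕ)
  | t

namespace E

def le : E → E → Prop
  | a i j _, a i' j' _ => i ≤ i' ∧ j ≤ j'
  | a _ j _, x => j = 0
  | a i j _, b i' j' _ => i ≤ i' ∧ j ≤ j'
  | a _ j _, g j' => j ≤ j'
  | a _ _ _, y => True
  | a i _ _, p n => i ≤ n
  | a _ _ _, t => True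
  | x, a _ _ _ => False
  | x, x => True
  | x, b _ _ _ => False
  | x, g _ => True
  | x, y => True
  | x, p _ => False
  | x, t => True
  | b _ _ _, a _ _ _ => False
  | b _ _ _, x => False
  | b i j _, b i' j' _ => i ≤ i' ∧ j ≤ j'
  | b _ j _, g j' => j ≤ j'
  | b _ _ _, y => True
  | b _ _ _, p _ => False
  | b _ _ _, t => True
  | g _, a _ _ _ => False
  | g _, x => False
  | g _, b _ _ _ => False
  | g j, g j' => j ≤ j'
  | g _, y => True
  | g _, p _ => False
  | g _, t => True
  | y, a _ _ _ => False
  | y, x => False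
  | y, b _ _ _ => False
  | y, g _ => False
  | y, y => True
  | y, p _ => False
  | y, t => True
  | p _, a _ _ _ => False
  | p _, x => False
  | p _, b _ _ _ => False
  | p _, g _ => False
  | p _, y => False
  | p n, p m => n ≤ m
  | p _, t => True
  | t, a _ _ _ => False
  | t, x => False
  | t, b _ _ _ => False
  | t, g _ => False
  | t, y => False
  | t, p _ => False
  | t, t => True

def sup : E → E → E
  | a i j _, a i' j' _ => a (max i i') (max j j') (by omega)
  | a _ j _, x => if j = 0 then x else g j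
  | a i j _, b i' j' _ => b (max (max i i') (max j j' + 1)) (max j j') (by omega)
  | a _ j _, g j' => g (max j j')
  | a _ _ _, y => y
  | a i _ _, p n => p (max i n)
  | a _ _ _, t => t
  | x, a _ j _ => if j = 0 then x else g j
  | x, x => x
  | x, b _ j _ => g j
  | x, g j => g j
  | x, y => y
  | x, p _ => t
  | x, t => t
  | b i j _, a i' j' _ => b (max (max i i') (max j j' + 1)) (max j j') (by omega)
  | b _ j _, x => g j
  | b i j _, b i' j' _ => b (max i i') (max j j') (by omega)
  | b _ j _, g j' => g (max j j')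
  | b _ _ _, y => y
  | b _ _ _, p _ => t
  | b _ _ _, t => t
  | g j, a _ j' _ => g (max j j')
  | g j, x => g j
  | g j, b _ j' _ => g (max j j')
  | g j, g j' => g (max j j')
  | g _, y => y
  | g _, p _ => t
  | g _, t => t
  | y, a _ _ _ => y
  | y, x => y
  | y, b _ _ _ => y
  | y, g _ => y
  | y, y => y
  | y, p _ => t
  | y, t => t
  | p n, a i _ _ => p (max i n)
  | p _, x => t
  | p _, b _ _ _ => t
  | p _, g _ => t
  | p _, y => t
  | p n, p m => p (max n m)
  | p _, t => t
  | t, _ => t

def inf : E → E → E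
  | a i j _, a i' j' _ => a (min i i') (min j j') (by omega)
  | a i _ _, x => a i 0 (by omega)
  | a i j _, b i' j' _ => a (min i i') (min j j') (by omega)
  | a i j _, g j' => a i (min j j') (by omega)
  | a i j h, y => a i j h
  | a i j _, p n => a (min i n) (min j n) (by omega)
  | a i j h, t => a i j h
  | x, a i _ _ => a i 0 (by omega)
  | x, x => x
  | x, b i _ _ => a i 0 (by omega)
  | x, g _ => x
  | x, y => x
  | x, p n => a n 0 (by omega)
  | x, t => x
  | b i j _, a i' j' _ => a (min i i') (min j j') (by omega)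
  | b i _ _, x => a i 0 (by omega)
  | b i j _, b i' j' _ => b (min i i') (min j j') (by omega)
  | b i j _, g j' => b i (min j j') (by omega)
  | b i j h, y => b i j h
  | b i j _, p n => a (min i n) (min j n) (by omega)
  | b i j h, t => b i j h
  | g j, a i' j' _ => a i' (min j j') (by omega)
  | g _, x => x
  | g j, b i' j' _ => b i' (min j j') (by omega)
  | g j, g j' => g (min j j')
  | g j, y => g j
  | g j, p n => a n (min j n) (by omega)
  | g j, t => g j
  | y, a i j h => a i j h
  | y, x => x
  | y, b i j h => b i j h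
  | y, g j => g j
  | y, y => y
  | y, p n => a n n le_rfl
  | y, t => y
  | p n, a i j _ => a (min i n) (min j n) (by omega)
  | p n, x => a n 0 (by omega)
  | p n, b i j _ => a (min i n) (min j n) (by omega)
  | p n, g j => a n (min j n) (by omega)
  | p n, y => a n n le_rfl
  | p n, p m => p (min n m)
  | p n, t => p n
  | t, z => z

theorem le_refl' (u : E) : le u u := by
  cases u <;> simp [le]

theorem le_trans' (u v w : E) (h1 : le u v) (h2 : le v w) : le u w := by
  cases u <;> cases v <;> cases w <;> simp only [le] at * <;> omega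

theorem le_antisymm' (u v : E) (h1 : le u v) (h2 : le v u) : u = v := by
  cases u <;> cases v <;> simp only [le] at * <;> simp <;> omega

theorem le_sup_left' (u v : E) : le u (sup u v) := by
  cases u <;> cases v <;> simp only [sup] <;> (try split_ifs) <;> simp only [le] <;> omega

theorem le_sup_right' (u v : E) : le v (sup u v) := by
  cases u <;> cases v <;> simp only [sup] <;> (try split_ifs) <;> simp only [le] <;> omega

theorem sup_le' (u v w : E) (h1 : le u w) (h2 : le v w) : le (sup u v) w := by
  cases u <;> cases v <;> cases w <;> simp only [sup] <;> (try split_ifs) <;>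
    simp only [le] at * <;> omega

theorem inf_le_left' (u v : E) : le (inf u v) u := by
  cases u <;> cases v <;> simp only [inf] <;> simp only [le] <;> omega

theorem inf_le_right' (u v : E) : le (inf u v) v := by
  cases u <;> cases v <;> simp only [inf] <;> simp only [le] <;> omega

theorem le_inf' (u v w : E) (h1 : le u v) (h2 : le u w) : le u (inf v w) := by
  cases u <;> cases v <;> cases w <;> simp only [inf] <;>
    simp only [le] at * <;> omega

instance : Lattice E where
  le := le
  le_refl := le_refl'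
  le_trans := le_trans'
  le_antisymm := le_antisymm'
  sup := sup
  le_sup_left := le_sup_left'
  le_sup_right := le_sup_right'
  sup_le := sup_le'
  inf := inf
  inf_le_left := inf_le_left'
  inf_le_right := inf_le_right'
  le_inf := le_inf'

def enc : E → ℕ × ℕ × ℕ
  | a i j _ => (i, j, 0)
  | x => (0, 0, 1)
  | b i j _ => (i, j, 2)
  | g j => (j, 0, 3)
  | y => (0, 0, 4)
  | p n => (n, 0, 5)
  | t => (0, 0, 6)

theorem enc_inj : Function.Injective enc := by
  intro u v h
  cases u <;> cases v <;> simp [enc] at h ⊢ <;> omega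

def sz : E → ℕ
  | a i _ _ => i
  | x => 0
  | b i _ _ => i
  | g j => j
  | y => 0
  | p n => n
  | t => 0

theorem fin_sz (N : ℕ) : {u : E | sz u ≤ N}.Finite := by
  have h1 : (Set.Iic ((N, N, 6) : ℕ × ℕ × ℕ)).Finite := Set.finite_Iic _
  refine (h1.preimage enc_inj.injOn).subset ?_
  intro u hu
  cases u <;> simp [sz, enc] at hu ⊢ <;> omega

def Tx (N : ℕ) : E → Prop
  | a i _ _ => i ≤ N
  | x => False
  | b i _ _ => i ≤ N + 1
  | g j => j ≤ N
  | y => True
  | p n => n ≤ N
  | t => True

def Ty (N : ℕ) : E → Prop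
  | a i j _ => i ≤ N + 1 ∧ j ≤ N
  | x => True
  | b i _ _ => i ≤ N + 1
  | g j => j ≤ N
  | y => False
  | p n => n ≤ N + 1
  | t => True

theorem Tx_sup (N : ℕ) (u v : E) (h1 : Tx N u) (h2 : Tx N v) : Tx N (sup u v) := by
  cases u <;> cases v <;> simp only [sup] <;> (try split_ifs) <;> simp only [Tx] at * <;> omega

theorem Tx_inf (N : ℕ) (u v : E) (h1 : Tx N u) (h2 : Tx N v) : Tx N (inf u v) := by
  cases u <;> cases v <;> simp only [inf] <;> simp only [Tx] at * <;> omega

theorem Ty_sup (N : ℕ) (u v : E) (h1 : Ty N u) (h2 : Ty N v) : Ty N (sup u v) := by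
  cases u <;> cases v <;> simp only [sup] <;> (try split_ifs) <;> simp only [Ty] at * <;> omega

theorem Ty_inf (N : ℕ) (u v : E) (h1 : Ty N u) (h2 : Ty N v) : Ty N (inf u v) := by
  cases u <;> cases v <;> simp only [inf] <;> simp only [Ty] at * <;> omega

theorem Tx_fin (N : ℕ) : {u : E | Tx N u}.Finite := by
  refine (fin_sz (N + 1)).subset ?_
  intro u hu
  cases u <;> simp [sz, Tx] at hu ⊢ <;> omega

theorem Ty_fin (N : ℕ) : {u : E | Ty N u}.Finite := by
  refine (fin_sz (N + 1)).subset ?_
  intro u hu
  cases u <;> simp [sz, Ty] at hu ⊢ <;> omega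

theorem Tx_of (N : ℕ) (u : E) (h : sz u ≤ N) (hx : u ≠ x) : Tx N u := by
  cases u <;> simp [sz, Tx] at h hx ⊢ <;> omega

theorem Ty_of (N : ℕ) (u : E) (h : sz u ≤ N) (hy : u ≠ y) : Ty N u := by
  cases u <;> simp [sz, Ty] at h hy ⊢ <;> omega

theorem gen (S : Set E) (hx : x ∈ S) (hy : y ∈ S) (hp : p 0 ∈ S) (hq : b 1 0 (by omega) ∈ S)
    (hs : ∀ u v, u ∈ S → v ∈ S → sup u v ∈ S) (hi : ∀ u v, u ∈ S → v ∈ S → inf u v ∈ S)
    (u : E) : u ∈ S := by
  have hP : ∀ n, p n ∈ S := by
    intro n
    induction n with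
    | zero => exact hp
    | succ n ih =>
      have h1 := hs _ _ (hi _ _ (hs _ _ (hi _ _ ih hy) hq) hx) hp
      simp only [sup, inf] at h1
      have e : max (max (max n 1) (max n 0 + 1)) 0 = n + 1 := by omega
      rwa [e] at h1
  have hA : ∀ i j (h : j ≤ i), a i j h ∈ S := by
    intro i j h
    have h1 := hs _ _ (hi _ _ (hP i) hx) (hi _ _ (hP j) hy)
    simp only [sup, inf] at h1
    convert h1 using 2 <;> omega
  have hB : ∀ i j (h : j < i), b i j h ∈ S := by
    intro i j h
    have h1 := hs _ _ (hA i j h.le) hq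
    simp only [sup] at h1
    convert h1 using 2 <;> omega
  cases u with
  | a i j h => exact hA i j h
  | x => exact hx
  | b i j h => exact hB i j h
  | g j => exact hs _ _ hx (hB (j + 1) j (by omega))
  | y => exact hy
  | p n => exact hP n
  | t => exact hs _ _ hy hp

end E

open E in
theorem result :
    ¬ (∀ (L : Type) [Lattice L], Infinite L →
      (∃ G : Set L, G.Finite ∧
        ⋂₀ {S : Set L | G ⊆ S ∧ SupClosed S ∧ InfClosed S} = Set.univ) →
      ∃ A : Set L, A.Finite ∧ IsAntichain (· ≤ ·) A ∧
        (⋂₀ {S : Set L | A ⊆ S ∧ SupClosed S ∧ InfClosed S}).Infinite) := by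
  intro H
  have hinf : Infinite E := Infinite.of_injective E.p (fun n m h => by simpa using h)
  obtain ⟨A, hA, hanti, hI⟩ := H E hinf ⟨{E.x, E.y, E.p 0, E.b 1 0 (by omega)}, by simp, by
    rw [Set.eq_univ_iff_forall]
    rintro u S ⟨hG, hs, hi⟩
    exact gen S (hG (by simp)) (hG (by simp)) (hG (by simp)) (hG (by simp))
      (fun u v hu hv => hs hu hv) (fun u v hu hv => hi hu hv) u⟩
  obtain ⟨N, hN⟩ := (hA.image sz).bddAbove
  have hN' : ∀ u ∈ A, sz u ≤ N := fun u hu => hN ⟨u, hu, rfl⟩
  apply hI
  by_cases hx : E.x ∈ A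
  · have hy : E.y ∉ A := fun hy => hanti hx hy (by simp) (show E.le E.x E.y from trivial)
    refine (Ty_fin N).subset (Set.sInter_subset_of_mem ⟨?_, ?_, ?_⟩)
    · intro u hu
      exact Ty_of N u (hN' u hu) (fun h => hy (h ▸ hu))
    · intro u hu v hv
      exact Ty_sup N u v hu hv
    · intro u hu v hv
      exact Ty_inf N u v hu hv
  · refine (Tx_fin N).subset (Set.sInter_subset_of_mem ⟨?_, ?_, ?_⟩)
    · intro u hu
      exact Tx_of N u (hN' u hu) (fun h => hx (h ▸ hu))
    · intro u hu v hv
      exact Tx_sup N u v hu hv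
    · intro u hu v hv
      exact Tx_inf N u v hu hv

end Pool.Agent.S03238
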