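import Pool.Statements.S03263
import Pool.Agent.Lib.helper8.Heis5

set_option autoImplicit false
open Pool Pool.MP_dc5bfb_al

namespace Pool.Agent.S03263

theorem result :
  ∃ k : ℕ, ∃ X : Set (ℤ → Fin k),
    (∀ x : ℤ → Fin k, (∀ N : ℕ, ∃ y ∈ X, ∀ i : ℤ, |i| ≤ (N : ℤ) → y i = x i) → x ∈ X) ∧
    (∀ x ∈ X, (fun n : ℤ => x (n + 1)) ∈ X ∧ (fun n : ℤ => x (n - 1)) ∈ X) ∧
    ∃ G : Subgroup (Equiv.Perm X),
      (∀ φ ∈ G,
        (∀ x y : X, (∀ n : ℤ, (y : ℤ → Fin k) n = (x : ℤ → Fin k) (n + 1)) →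
          ∀ n : ℤ, ((φ y : X) : ℤ → Fin k) n = ((φ x : X) : ℤ → Fin k) (n + 1)) ∧
        ∃ r : ℕ, ∀ x y : X,
          (∀ i : ℤ, |i| ≤ (r : ℤ) → (x : ℤ → Fin k) i = (y : ℤ → Fin k) i) →
          ((φ x : X) : ℤ → Fin k) 0 = ((φ y : X) : ℤ → Fin k) 0) ∧
      (∃ m : Set G → ℝ, (∀ A, 0 ≤ m A) ∧ m Set.univ = 1 ∧
        (∀ A B, Disjoint A B → m (A ∪ B) = m A + m B) ∧
        (∀ (g : G) (A : Set G), m ((fun h : G => g * h) '' A) = m A)) ∧
      ∃ g : G, ¬ IsOfFinOrder g ∧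
        ∃ S : Finset G, ∀ ε : ℝ, 0 < ε → ∃ N : ℕ, ∀ n : ℕ, N ≤ n →
          ∃ l : List G, (∀ s ∈ l, s ∈ S ∨ s⁻¹ ∈ S) ∧ l.prod = g ^ n ∧
            (l.length : ℝ) ≤ ε * (n : ℝ) := by
  open Pool.Agent.Lib.helper8.Heis in
  classical
  obtain ⟨n, hn⟩ := heis_act
  obtain ⟨α, -⟩ := hn (Fin n) id Function.injective_id
  let e : H ≃* α.perm.range := MonoidHom.ofInjective α.perm_inj
  refine ⟨n, α.X, α.closed, fun x hx => ⟨α.shift 1 x hx, α.shift (-1) x hx⟩, α.perm.range,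
    ?_, ?_, e gZ, ?_, ([gX, gY, gZ].map e).toFinset, ?_⟩
  · rintro _ ⟨g, rfl⟩
    constructor
    · intro x y h j
      have h1 : y.1 = fun j => x.1 (j + 1) := funext h
      rw [α.perm_val, α.perm_val, h1, α.comm _ 1 _ x.2]
    · obtain ⟨r, hr⟩ := α.loc g
      exact ⟨r, fun x y h => hr _ x.2 _ y.2 0 fun i hi => by simpa using h i hi⟩
  · obtain ⟨m, h1, h2, h3, h4⟩ := mean_ex
    refine ⟨fun A => m (e ⁻¹' A), fun A => h1 _, h2, fun A B h => ?_, fun g A => ?_⟩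
    · beta_reduce
      rw [Set.preimage_union]
      exact h3 _ _ (h.preimage _)
    · beta_reduce
      rw [← h4 (e.symm g) (e ⁻¹' A)]
      congr 1
      ext h
      simp only [Set.mem_preimage, Set.mem_image]
      constructor
      · rintro ⟨a, ha, h5⟩
        refine ⟨e.symm a, by simpa using ha, ?_⟩
        rw [← map_mul, h5]; simp
      · rintro ⟨a, ha, rfl⟩
        exact ⟨e a, ha, by simp⟩
  · intro h
    apply gZ_inf
    simpa using e.symm.toMonoidHom.isOfFinOrder h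
  · intro ε hε
    obtain ⟨N, hN⟩ := gZ_dist ε hε
    refine ⟨N, fun k hk => ?_⟩
    obtain ⟨l, h1, h2, h3⟩ := hN k hk
    refine ⟨l.map e, ?_, ?_, by simpa using h3⟩
    · intro s hs
      obtain ⟨a, ha, rfl⟩ := List.mem_map.1 hs
      rw [← map_inv, List.mem_toFinset, List.mem_toFinset]
      exact (h1 a ha).imp (List.mem_map_of_mem) (List.mem_map_of_mem)
    · rw [← map_list_prod, h2, map_pow]

end Pool.Agent.S03263
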