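import Pool.Statements.S03280
import Pool.Agent.H.MP_de34bb_al.Main

set_option autoImplicit false
open Pool Pool.MP_de34bb_al

namespace Pool.Agent.S03280

theorem result :
    ¬ (∀ (G : Type) [Group G] [Finite G] (A L : Subgroup G),
      IsCyclic A → Nat.card A = 4 →
      (∀ g : G, (∀ x ∈ A, g * x * g⁻¹ ∈ A → x = 1) ∨ (∀ x ∈ A, g * x * g⁻¹ ∈ A)) →
      L ≠ ⊥ →
      ⁅L, L⁆ = L →
      (∀ N : Subgroup G, N ≤ L → (∀ l ∈ L, ∀ n ∈ N, l * n * l⁻¹ ∈ N) →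
          N = L ∨ N ≤ Subgroup.centralizer (L : Set G)) →
      (∃ n : ℕ, ∃ H : ℕ → Subgroup G, H 0 = L ∧ H n = ⊤ ∧
          ∀ i < n, H i ≤ H (i + 1) ∧ ∀ x ∈ H (i + 1), ∀ y ∈ H i, x * y * x⁻¹ ∈ H i) →
      A ⊓ (L ⊔ Subgroup.centralizer (L : Set G)) = ⊥ →
      A ≤ Subgroup.centralizer (L : Set G)) := by
  intro h
  have key := h Pool.Agent.H.MP_de34bb_al.GL4 Pool.Agent.H.MP_de34bb_al.d.range
    Pool.Agent.H.MP_de34bb_al.L Pool.Agent.H.MP_de34bb_al.cyc_A Pool.Agent.H.MP_de34bb_al.card_A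
    Pool.Agent.H.MP_de34bb_al.ti Pool.Agent.H.MP_de34bb_al.L_ne
    Pool.Agent.H.MP_de34bb_al.L_perfect Pool.Agent.H.MP_de34bb_al.L_quasi
    ⟨1, fun i => if i = 0 then Pool.Agent.H.MP_de34bb_al.L else ⊤, by simp, by simp, by
      intro i hi
      obtain rfl : i = 0 := by omega
      refine ⟨by simp, fun x _ y hy => ?_⟩
      simp only [if_true] at hy ⊢
      exact Pool.Agent.H.MP_de34bb_al.L_normal x y hy⟩
    Pool.Agent.H.MP_de34bb_al.meet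
  have h1 := Pool.Agent.H.MP_de34bb_al.meet
  rw [inf_eq_left.2 (key.trans le_sup_right)] at h1
  have h2 := Pool.Agent.H.MP_de34bb_al.card_A
  rw [h1, Subgroup.card_bot] at h2
  omega

end Pool.Agent.S03280
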