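import Pool.Statements.S03284
import Pool.Agent.H.MP_debbfb_al.A

set_option autoImplicit false
open Pool Pool.MP_debbfb_al

namespace Pool.Agent.S03284

theorem result :
    ¬ (∀ (G : Type) [Group G],
      (∀ s : Finset G, Finite (Subgroup.closure (s : Set G))) →
      ∀ A B : Subgroup G,
        (∀ s : Finset G, (s : Set G) ⊆ (A : Set G) →
          Group.IsNilpotent (Subgroup.closure (s : Set G))) →
        (∀ s : Finset G, (s : Set G) ⊆ (B : Set G) →
          Group.IsNilpotent (Subgroup.closure (s : Set G))) →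
        (∀ g : G, ∃ a ∈ A, ∃ b ∈ B, g = a * b) →
        ∀ s : Finset G, IsSolvable (Subgroup.closure (s : Set G))) := by
  open Pool.Agent.H.MP_debbfb_al Pool.Agent.H.MP_1d00e6_al Pool.Agent.H.MP_7538d4_al in
  intro h
  classical
  have hi := jG_inj (H.MP_debbfb_al.ψ 2) fun n => (H.MP_debbfb_al.ψ_spec n).1
  let A := uni (H.MP_debbfb_al.ψ 2) fun n => (Wr.inr : _ →* (H.MP_debbfb_al.sq 2 n).G).range
  let B := uni (H.MP_debbfb_al.ψ 2) fun n => (H.MP_debbfb_al.sq 2 n).st.range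
  have hA : IsPGroup 2 A := uni_pgroup _ _ (by
      rintro n _ ⟨_, ⟨a, rfl⟩, rfl⟩
      exact ((H.MP_debbfb_al.ψ_spec n).2.1 a).imp fun _ h => h.symm)
    fun n => (H.MP_debbfb_al.sq 2 n).pB.of_surjective _ (MonoidHom.rangeRestrict_surjective _)
  have hB : IsPGroup 2 B := uni_pgroup _ _ (by
      rintro n _ ⟨_, ⟨a, rfl⟩, rfl⟩
      exact ((H.MP_debbfb_al.ψ_spec n).2.2.1 a).imp fun _ h => h.symm)
    fun n => (H.MP_debbfb_al.sq 2 n).pB.of_surjective _ (MonoidHom.rangeRestrict_surjective _)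
  have hN : ∀ C : Subgroup (GLim (H.MP_debbfb_al.ψ 2)), IsPGroup 2 C → ∀ s : Finset (GLim (H.MP_debbfb_al.ψ 2)),
      (s : Set (GLim (H.MP_debbfb_al.ψ 2))) ⊆ C → Group.IsNilpotent (Subgroup.closure (s : Set (GLim (H.MP_debbfb_al.ψ 2)))) :=
    fun C hC s hs => by
      have := lim_lf _ s
      exact (hC.to_le ((Subgroup.closure_le _).2 hs)).isNilpotent
  let f : S5 →* GLim (H.MP_debbfb_al.ψ 2) := (jG (H.MP_debbfb_al.ψ 2) 0).comp (Wr.inl.comp (Pi.constMonoidHom _ _))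
  have hf : Function.Injective f := fun x y e => congrFun (congrArg Wr.f (hi 0 e)) ()
  have : Group.IsSolvable _ := h _ (lim_lf (H.MP_debbfb_al.ψ 2)) A B (hN A hA) (hN B hB) (fun g => by
    obtain ⟨n, hn⟩ := exG _ g
    obtain ⟨x, rfl⟩ := hn n le_rfl
    obtain ⟨a, b, e⟩ := (H.MP_debbfb_al.ψ_spec n).2.2.2 x
    exact ⟨_, mem_uni _ _ (n + 1) ⟨a, rfl⟩, _, mem_uni _ _ (n + 1) ⟨b, rfl⟩, by
      rw [← jG_b, e, map_mul]⟩) (Finset.univ.image f)
  exact Equiv.Perm.not_isSolvable_fin_5 (Group.isSolvable_of_isSolvable_injective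
    (f := f.codRestrict (Subgroup.closure (Finset.univ.image f : Set _)) fun x =>
      Subgroup.subset_closure (by simp)) fun x y e => hf (Subtype.ext_iff.1 e))

end Pool.Agent.S03284
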