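import Pool.Statements.S03302

set_option autoImplicit false
open Pool Pool.MP_e00c87_al

namespace Pool.Agent.S03302

open QuaternionGroup

/-- cubes of 3-elements lie in a normal 3-subgroup -/
def FF (H : Type) [Group H] : Prop :=
  ∀ t : H, (∃ b : ℕ, t ^ 3 ^ b = 1) → ∃ B : Subgroup H, B.Normal ∧ IsPGroup 3 B ∧ t ^ 3 ∈ B

instance : Fact (Nat.Prime 3) := ⟨by norm_num⟩

lemma FF_quot (H K : Type) [Group H] [Group K] [Finite H] (f : H →* K)
    (hf : Function.Surjective f) (h : FF H) : FF K := by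
  rintro t ⟨b, hb⟩
  have : Finite K := Finite.of_surjective f hf
  have h1 : IsPGroup 3 (Subgroup.zpowers t) := by
    obtain ⟨k, -, hk⟩ := (Nat.dvd_prime_pow Nat.prime_three).mp (orderOf_dvd_of_pow_eq_one hb)
    exact IsPGroup.of_card (by rw [Nat.card_zpowers, hk])
  obtain ⟨S, hS⟩ := h1.exists_le_sylow
  obtain ⟨S', rfl⟩ := Sylow.mapSurjective_surjective hf 3 S
  obtain ⟨u, hu, rfl⟩ := hS (Subgroup.mem_zpowers t)
  obtain ⟨k, hk⟩ := S'.isPGroup' ⟨u, hu⟩
  obtain ⟨B, hB1, hB2, hB3⟩ := h u ⟨k, congrArg Subtype.val hk⟩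
  exact ⟨B.map f, hB1.map f hf, hB2.map f, u ^ 3, hB3, map_pow f u 3⟩

lemma FF_sub (H K₁ K₂ : Type) [Group H] [Group K₁] [Group K₂] (f₁ : H →* K₁) (f₂ : H →* K₂)
    (h1 : FF K₁) (h2 : FF K₂) : FF ↥(f₁.prod f₂).range := by
  rintro t ⟨b, hb⟩
  have hb' : (t : K₁ × K₂) ^ 3 ^ b = 1 := congrArg Subtype.val hb
  obtain ⟨A, hA1, hA2, hA3⟩ := h1 (t : K₁ × K₂).1 ⟨b, congrArg Prod.fst hb'⟩
  obtain ⟨B, hB1, hB2, hB3⟩ := h2 (t : K₁ × K₂).2 ⟨b, congrArg Prod.snd hb'⟩
  refine ⟨(A.prod B).subgroupOf _, inferInstance, IsPGroup.comap_subtype ?_, hA3, hB3⟩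
  rintro ⟨⟨x, y⟩, hx, hy⟩
  obtain ⟨k, hk⟩ := hA2 ⟨x, hx⟩
  obtain ⟨l, hl⟩ := hB2 ⟨y, hy⟩
  have hk' : x ^ 3 ^ k = 1 := congrArg Subtype.val hk
  have hl' : y ^ 3 ^ l = 1 := congrArg Subtype.val hl
  refine ⟨k + l, Subtype.ext (Prod.ext ?_ ?_)⟩
  · show x ^ 3 ^ (k + l) = 1
    rw [pow_add, pow_mul, hk', one_pow]
  · show y ^ 3 ^ (k + l) = 1
    rw [pow_add, mul_comm, pow_mul, hl', one_pow]

lemma FF_sat (H K : Type) [Group H] [Group K] [Finite H] (f : H →* K)
    (hf : Function.Surjective f) (hM : ∀ M : Subgroup H, IsCoatom M → f.ker ≤ M) (h : FF K) :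
    FF H := by
  rintro t ⟨b, hb⟩
  obtain ⟨W, hW1, hW2, hW3⟩ := h (f t) ⟨b, by rw [← map_pow, hb, map_one]⟩
  have : Finite K := Finite.of_surjective f hf
  set M := W.comap f with hMdef
  have hMn : M.Normal := hW1.comap f
  have ht : t ^ 3 ∈ M := by rw [hMdef, Subgroup.mem_comap, map_pow]; exact hW3
  have h1 : IsPGroup 3 (Subgroup.zpowers (⟨t ^ 3, ht⟩ : M)) := by
    have : (⟨t ^ 3, ht⟩ : M) ^ 3 ^ b = 1 := Subtype.ext (by
      show (t ^ 3) ^ 3 ^ b = 1
      rw [← pow_mul, mul_comm, pow_mul, hb, one_pow])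
    obtain ⟨k, -, hk⟩ := (Nat.dvd_prime_pow Nat.prime_three).mp (orderOf_dvd_of_pow_eq_one this)
    exact IsPGroup.of_card (by rw [Nat.card_zpowers, hk])
  obtain ⟨S, hS⟩ := h1.exists_le_sylow
  have h2 := S.normalizer_sup_eq_top
  set A : Subgroup H := (S : Subgroup M).map M.subtype with hA
  have h3 : M ≤ A ⊔ f.ker := by
    intro x hx
    let g : M →* W := (f.comp M.subtype).codRestrict W (fun y => y.2)
    have hg : Function.Surjective g := by
      rintro ⟨w, hw⟩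
      obtain ⟨y, rfl⟩ := hf w
      exact ⟨⟨y, hw⟩, rfl⟩
    have h4 : ((S.mapSurjective hg : Sylow 3 W) : Subgroup W) = ⊤ :=
      ((S.mapSurjective hg).is_maximal' (hW2.to_subgroup ⊤) le_top).symm
    have h5 : g ⟨x, hx⟩ ∈ ((S.mapSurjective hg : Sylow 3 W) : Subgroup W) := by
      rw [h4]; trivial
    obtain ⟨s, hs, hs2⟩ := h5
    have h6 : f s = f x := congrArg Subtype.val hs2
    have : x = s * ((s : H)⁻¹ * x) := by simp
    rw [this]
    refine Subgroup.mul_mem_sup ⟨s, hs, rfl⟩ ?_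
    rw [MonoidHom.mem_ker, map_mul, map_inv, h6, inv_mul_cancel]
  have h7 : Subgroup.normalizer (A : Set H) = ⊤ := by
    by_contra hne
    obtain ⟨N, hN, hle⟩ := (eq_top_or_exists_le_coatom _).resolve_left hne
    apply hN.1
    rw [eq_top_iff, ← h2]
    exact sup_le hle (h3.trans (sup_le (Subgroup.le_normalizer.trans hle) (hM N hN)))
  exact ⟨A, Subgroup.normalizer_eq_top_iff.mp h7, S.isPGroup'.map _,
    ⟨_, hS (Subgroup.mem_zpowers _), rfl⟩⟩

abbrev Q : Type := QuaternionGroup 2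

def sg : Q → Q
  | a i => if i = 0 then a 0 else if i = 1 then xa 0 else if i = 2 then a 2 else xa 2
  | xa i => if i = 0 then xa 3 else if i = 1 then a 3 else if i = 2 then xa 1 else a 1

lemma sg_mul : ∀ x y : Q, sg (x * y) = sg x * sg y := by decide
lemma sg3 : ∀ x : Q, sg (sg (sg x)) = x := by decide

abbrev P : Type := Q × Q × Q

def tf (x : P) : P := (sg x.2.2, x.1, x.2.1)

def tau : MulAut P where
  toFun := tf
  invFun x := (x.2.1, x.2.2, sg (sg x.1))
  left_inv x := by simp [tf, sg3]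
  right_inv x := by simp [tf, sg3]
  map_mul' x y := by simp [tf, sg_mul]

lemma tau3 (x : P) : (tau ^ 3) x = (sg x.1, sg x.2.1, sg x.2.2) := rfl

lemma tau9 : tau ^ 9 = 1 := by
  ext1 x
  have : tau ^ 9 = tau ^ 3 * (tau ^ 3 * tau ^ 3) := by group
  rw [this, MulAut.mul_apply, MulAut.mul_apply, tau3, tau3, tau3]
  simp [sg3]

def act : Multiplicative (ZMod 9) →* MulAut P :=
  MonoidHom.mk' (fun i => tau ^ (Multiplicative.toAdd i).val) (fun i j => by
    rw [← pow_add, toAdd_mul, ZMod.val_add]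
    exact (pow_eq_pow_mod _ tau9).symm)

abbrev G : Type := P ⋊[act] Multiplicative (ZMod 9)

instance : Finite G := Finite.of_equiv _ SemidirectProduct.equivProd.symm

open SemidirectProduct

lemma P_two : IsPGroup 2 P := IsPGroup.of_card (n := 9) (by
  simp [Nat.card_eq_fintype_card, QuaternionGroup.card])

def R : Subgroup G := (rightHom : G →* Multiplicative (ZMod 9)).ker

instance : R.Normal := MonoidHom.normal_ker _

lemma R_eq : R = (inl : P →* G).range := range_inl_eq_ker_rightHom.symm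

lemma R_two : IsPGroup 2 R := by
  rw [R_eq]
  exact P_two.of_surjective (inl : P →* G).rangeRestrict (MonoidHom.rangeRestrict_surjective _)

lemma FF_C9 : FF (Multiplicative (ZMod 9)) := fun t _ =>
  ⟨⊤, inferInstance, (IsPGroup.of_card (n := 2) (by simp)).to_subgroup ⊤, trivial⟩

lemma two_comm : ∀ q : Q, ∃ u v : Q, q = (u⁻¹ * sg u) * (v⁻¹ * sg v) := by decide

lemma R_le (H : Type) [Group H] (h : FF H) (f : G →* H) (hf : Function.Surjective f) :
    R ≤ f.ker := by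
  let t : G := inr (Multiplicative.ofAdd 1)
  obtain ⟨B, hB1, hB2, hB3⟩ := h (f t) ⟨2, by
    rw [← map_pow, ← map_pow]
    have : (Multiplicative.ofAdd (1 : ZMod 9)) ^ 3 ^ 2 = 1 := by decide
    rw [this, map_one, map_one]⟩
  have hd : Disjoint B (R.map f) :=
    IsPGroup.disjoint_of_ne 3 2 (by norm_num) _ _ hB2 (R_two.map f)
  have hc : ∀ u : P, f (inl (u⁻¹ * (tau ^ 3) u)) = 1 := by
    intro u
    have h1 := Subgroup.commute_of_normal_of_disjoint B (R.map f) hB1
      (Subgroup.Normal.map inferInstance f hf) hd _ _ hB3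
      ⟨inl u, by rw [R_eq]; exact ⟨u, rfl⟩, rfl⟩
    have h2 : (inl ((tau ^ 3) u) : G) = t ^ 3 * inl u * (t ^ 3)⁻¹ := by
      have := inl_aut (φ := act) (Multiplicative.ofAdd 1 ^ 3) u
      rw [map_inv, map_pow (inr : Multiplicative (ZMod 9) →* G)] at this
      exact this
    rw [map_mul, map_mul, h2, map_mul, map_mul, map_inv, map_inv, map_inv, map_pow, h1.eq]
    simp
  rw [R_eq]
  rintro _ ⟨⟨x, y, z⟩, rfl⟩
  obtain ⟨u1, v1, h1⟩ := two_comm x
  obtain ⟨u2, v2, h2⟩ := two_comm y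
  obtain ⟨u3, v3, h3⟩ := two_comm z
  have : ((x, y, z) : P) = ((u1, u2, u3)⁻¹ * (tau ^ 3) (u1, u2, u3)) *
      ((v1, v2, v3)⁻¹ * (tau ^ 3) (v1, v2, v3)) := by
    rw [tau3, tau3, h1, h2, h3]; rfl
  rw [MonoidHom.mem_ker, this, map_mul, map_mul, hc, hc, mul_one]

/-- central elements of Q -/
def cen (q : Q) : Bool := q = a 0 || q = a 2

def cenP (x : P) : Bool := cen x.1 && cen x.2.1 && cen x.2.2

def prods : ℕ → P → List P
  | 0, _ => [1]
  | n + 1, x => prods n (tf x) ++ (prods n (tf x)).map (fun y => x * y)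

def g0 : P := (a 1, 1, 1)

lemma gen1 : ∀ x y z : Q, cenP (x, y, z) = true ∨
    (prods 6 (x, y, z)).any (fun w => cenP (w⁻¹ * g0)) = true := by decide +kernel

lemma gen2 : ∀ x y z : Q, (prods 6 g0).any (fun w => cenP (w⁻¹ * (x, y, z))) = true := by
  decide +kernel

lemma prods_mem (W : Subgroup P) (hW : ∀ x ∈ W, tf x ∈ W) (n : ℕ) :
    ∀ x ∈ W, ∀ w ∈ prods n x, w ∈ W := by
  induction n with
  | zero => intro x _ w hw; simp only [prods, List.mem_singleton] at hw; rw [hw]; exact W.one_mem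
  | succ n ih =>
    intro x hx w hw
    simp only [prods, List.mem_append, List.mem_map] at hw
    rcases hw with hw | ⟨y, hy, rfl⟩
    · exact ih _ (hW x hx) w hw
    · exact W.mul_mem hx (ih _ (hW x hx) y hy)

lemma irred (W : Subgroup P) (hW : ∀ x ∈ W, tf x ∈ W) (hZ : ∀ x, cenP x = true → x ∈ W)
    (x : P) (hx : x ∈ W) (hx2 : ¬ cenP x = true) : W = ⊤ := by
  have h0 : g0 ∈ W := by
    obtain ⟨w, hw, hw2⟩ := List.any_eq_true.mp ((gen1 x.1 x.2.1 x.2.2).resolve_left hx2)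
    have := W.mul_mem (prods_mem W hW 6 x hx w hw) (hZ _ hw2)
    simpa using this
  rw [eq_top_iff]
  intro y _
  obtain ⟨w, hw, hw2⟩ := List.any_eq_true.mp (gen2 y.1 y.2.1 y.2.2)
  have := W.mul_mem (prods_mem W hW 6 g0 h0 w hw) (hZ _ hw2)
  simpa using this

lemma cen_comm : ∀ x y : Q, cen x = true → x * y = y * x := by decide
lemma cen_sg : ∀ x : Q, cen x = true → sg x = x := by decide
lemma cen_sq : ∀ x : Q, cen x = true → ∃ y : Q, x = y * y := by decide
lemma cen_mul : ∀ x y : Q, cen x = true → cen y = true → cen (x * y) = true := by decide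
lemma cen_inv : ∀ x : Q, cen x = true → cen x⁻¹ = true := by decide
lemma cen_conj : ∀ x y : Q, cen (x⁻¹ * y * x * y⁻¹) = true := by decide
lemma cen_self : ∀ x : Q, cen x = true → x * x = 1 := by decide

lemma cenP_iff (x : P) : cenP x = true ↔ cen x.1 = true ∧ cen x.2.1 = true ∧ cen x.2.2 = true := by
  simp [cenP, and_assoc]

def ZP : Subgroup P where
  carrier := {x | cenP x = true}
  mul_mem' := by
    intro x y hx hy
    simp only [Set.mem_ofPred_eq, cenP_iff] at *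
    exact ⟨cen_mul _ _ hx.1 hy.1, cen_mul _ _ hx.2.1 hy.2.1, cen_mul _ _ hx.2.2 hy.2.2⟩
  one_mem' := by decide
  inv_mem' := by
    intro x hx
    simp only [Set.mem_ofPred_eq, cenP_iff] at *
    exact ⟨cen_inv _ hx.1, cen_inv _ hx.2.1, cen_inv _ hx.2.2⟩

lemma ZP_comm (z : P) (hz : z ∈ ZP) (y : P) : z * y = y * z := by
  have := (cenP_iff z).mp hz
  exact Prod.ext (cen_comm _ _ this.1) (Prod.ext (cen_comm _ _ this.2.1) (cen_comm _ _ this.2.2))

lemma ZP_tf (z : P) (hz : z ∈ ZP) : tf z ∈ ZP := by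
  have := (cenP_iff z).mp hz
  refine (cenP_iff _).mpr ⟨?_, this.1, this.2.1⟩
  show cen (sg z.2.2) = true
  rw [cen_sg _ this.2.2]; exact this.2.2

lemma ZP_tau (k : ℕ) (z : P) (hz : z ∈ ZP) : (tau ^ k) z ∈ ZP := by
  induction k with
  | zero => exact hz
  | succ k ih => rw [pow_succ', MulAut.mul_apply]; exact ZP_tf _ ih

lemma ZP_tau3 (z : P) (hz : z ∈ ZP) : (tau ^ 3) z = z := by
  have := (cenP_iff z).mp hz
  rw [tau3, cen_sg _ this.1, cen_sg _ this.2.1, cen_sg _ this.2.2]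

instance : ZP.Normal := ⟨fun z hz y => by rw [← ZP_comm z hz y]; simpa using hz⟩

lemma conj_inl (t : G) (x : P) :
    t * inl x * t⁻¹ = inl (t.left * act t.right x * t.left⁻¹) := by
  ext1 <;> simp

lemma FF_proper (K : Subgroup G) (hK : K ≠ ⊤) : FF K := by
  rintro t ⟨b, hb⟩
  have hb' : (t : G) ^ 3 ^ b = 1 := congrArg Subtype.val hb
  by_cases h3 : (t : G).right ^ 3 = 1
  · have h1 : (t : G) ^ 3 ∈ R := by
      show rightHom ((t : G) ^ 3) = 1
      rw [map_pow]; exact h3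
    obtain ⟨k, hk⟩ := R_two ⟨_, h1⟩
    have hk' : ((t : G) ^ 3) ^ 2 ^ k = 1 := congrArg Subtype.val hk
    have h2 : ((t : G) ^ 3) ^ 3 ^ b = 1 := by rw [← pow_mul, mul_comm, pow_mul, hb', one_pow]
    have h4 := pow_gcd_eq_one.mpr ⟨hk', h2⟩
    have h5 : Nat.Coprime (2 ^ k) (3 ^ b) := Nat.Coprime.pow _ _ (by norm_num)
    rw [h5, pow_one] at h4
    exact ⟨⊥, inferInstance, IsPGroup.of_bot, Subtype.ext h4⟩
  have hgen : ∀ j : Multiplicative (ZMod 9), ∃ m : ℕ, (t : G).right ^ m = j := by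
    have : ∀ i : Multiplicative (ZMod 9), i ^ 3 ≠ 1 → ∀ j, ∃ m : Fin 9, i ^ (m : ℕ) = j := by decide
    intro j
    obtain ⟨m, hm⟩ := this _ h3 j
    exact ⟨m, hm⟩
  have hgen' : ∀ j : Multiplicative (ZMod 9), ∃ s ∈ K, (∃ m : ℕ, s = (t : G) ^ m) ∧ s.right = j := by
    intro j
    obtain ⟨m, hm⟩ := hgen j
    refine ⟨(t : G) ^ m, K.pow_mem t.2 m, ⟨m, rfl⟩, ?_⟩
    rw [← rightHom_eq_right, map_pow, rightHom_eq_right, hm]
  set A : Subgroup P := K.comap inl with hA
  have hAZ : A ≤ ZP := by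
    intro x hx
    by_contra hx2
    have hW : A ⊔ ZP = ⊤ := by
      refine irred _ ?_ (fun z hz => Subgroup.mem_sup_right hz) x (Subgroup.mem_sup_left hx) hx2
      intro w hw
      obtain ⟨y, hy, z, hz, rfl⟩ := Subgroup.mem_sup_of_normal_right.mp hw
      obtain ⟨s, hs, -, hs2⟩ := hgen' (Multiplicative.ofAdd 1)
      have h1 : s.left * tf y * s.left⁻¹ ∈ A := by
        have := K.mul_mem (K.mul_mem hs hy) (K.inv_mem hs)
        rw [conj_inl, hs2] at this
        exact this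
      have h2 : (tf y)⁻¹ * s.left * tf y * s.left⁻¹ ∈ ZP :=
        (cenP_iff _).mpr ⟨cen_conj _ _, cen_conj _ _, cen_conj _ _⟩
      have h4 : tf (y * z) = (s.left * tf y * s.left⁻¹) *
          (((tf y)⁻¹ * s.left * tf y * s.left⁻¹)⁻¹ * tf z) := by
        have := map_mul tau y z
        change tf (y * z) = tf y * tf z at this
        rw [this]
        group
      rw [h4]
      exact Subgroup.mul_mem_sup h1 (ZP.mul_mem (ZP.inv_mem h2) (ZP_tf z hz))
    have hZA : ZP ≤ A := by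
      intro z hz
      have h0 := (cenP_iff z).mp hz
      obtain ⟨y1, h1⟩ := cen_sq _ h0.1
      obtain ⟨y2, h2⟩ := cen_sq _ h0.2.1
      obtain ⟨y3, h3⟩ := cen_sq _ h0.2.2
      have hy : ((y1, y2, y3) : P) ∈ A ⊔ ZP := by rw [hW]; trivial
      obtain ⟨u, hu, v, hv, huv⟩ := Subgroup.mem_sup_of_normal_right.mp hy
      have h5 : z = (y1, y2, y3) * (y1, y2, y3) := Prod.ext h1 (Prod.ext h2 h3)
      have h0v := (cenP_iff v).mp hv
      have h6 : v * v = 1 :=
        Prod.ext (cen_self _ h0v.1) (Prod.ext (cen_self _ h0v.2.1) (cen_self _ h0v.2.2))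
      have : z = u * u := by
        rw [h5, ← huv, mul_assoc, ← mul_assoc v, ZP_comm v hv u, mul_assoc, h6, mul_one]
      rw [this]; exact A.mul_mem hu hu
    rw [sup_eq_left.mpr hZA] at hW
    apply hK
    rw [eq_top_iff]
    intro g _
    obtain ⟨s, hs, -, hs2⟩ := hgen' g.right
    have h1 : g * s⁻¹ ∈ R := by
      show rightHom (g * s⁻¹) = 1
      rw [map_mul, map_inv, rightHom_eq_right, hs2, mul_inv_cancel]
    rw [R_eq] at h1
    obtain ⟨y, hy⟩ := h1
    have h2 : y ∈ A := by rw [hW]; trivial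
    have := K.mul_mem (show inl y ∈ K from h2) hs
    rw [hy] at this
    simpa using this
  have hcomm : ∀ g : K, Commute (t ^ 3) g := by
    intro g
    obtain ⟨s, hs, ⟨m, hm⟩, hs2⟩ := hgen' (g : G).right
    have h1 : (g : G) * s⁻¹ ∈ R := by
      show rightHom ((g : G) * s⁻¹) = 1
      rw [map_mul, map_inv, rightHom_eq_right, hs2, mul_inv_cancel]
    rw [R_eq] at h1
    obtain ⟨y, hy⟩ := h1
    have h2 : y ∈ ZP := hAZ (show inl y ∈ K by rw [hy]; exact K.mul_mem g.2 (K.inv_mem hs))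
    have h4 : Commute ((t : G) ^ 3) (inl y) := by
      have h5 := conj_inl ((t : G) ^ 3) y
      have h6 : act ((t : G) ^ 3).right y = y := by
        rw [← rightHom_eq_right, map_pow, map_pow]
        show ((tau ^ _) ^ 3) y = y
        rw [← pow_mul, mul_comm, pow_mul]
        exact MulAction.mem_stabilizer_iff.mp
          ((MulAction.stabilizer (MulAut P) y).pow_mem (ZP_tau3 y h2) _)
      rw [h6, ← ZP_comm y h2, mul_inv_cancel_right] at h5
      exact mul_inv_eq_iff_eq_mul.mp h5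
    have h7 : (g : G) = inl y * (t : G) ^ m := by rw [hy, ← hm]; simp
    apply Subtype.ext
    show (t : G) ^ 3 * g = g * (t : G) ^ 3
    rw [h7]
    exact (h4.mul_right (Commute.pow_pow_self _ _ _)).eq
  refine ⟨Subgroup.zpowers (t ^ 3), ⟨?_⟩, ?_, Subgroup.mem_zpowers _⟩
  · rintro _ ⟨k, rfl⟩ g
    rw [← ((hcomm g).zpow_left k).eq, mul_inv_cancel_right]
    exact ⟨k, rfl⟩
  · have : (t ^ 3) ^ 3 ^ b = 1 := by rw [← pow_mul, mul_comm, pow_mul, hb, one_pow]
    obtain ⟨k, -, hk⟩ := (Nat.dvd_prime_pow Nat.prime_three).mp (orderOf_dvd_of_pow_eq_one this)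
    exact IsPGroup.of_card (by rw [Nat.card_zpowers, hk])

lemma no_map (E : Type) [Field E] [CharP E 2] (fr : E →+* E) (hfr : ∀ x, fr (fr x) = x)
    (φ : E × E → G)
    (h1 : ∀ x : E × E, x.2 + fr x.2 + fr x.1 * x.1 = 0 → φ x ∈ R)
    (h2 : ∀ g ∈ R, ∃ x : E × E, x.2 + fr x.2 + fr x.1 * x.1 = 0 ∧ φ x = g)
    (h3 : ∀ x y : E × E, x.2 + fr x.2 + fr x.1 * x.1 = 0 → y.2 + fr y.2 + fr y.1 * y.1 = 0 →
      φ (x.1 + y.1, x.2 + y.2 - x.1 * fr y.1) = φ x * φ y) : False := by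
  have two : (2 : E) = 0 := CharP.cast_eq_zero E 2
  have hR : ∀ p : P, (inl p : G) ∈ R := fun p => by rw [R_eq]; exact ⟨p, rfl⟩
  have key : ∀ x y : E × E, x.2 + fr x.2 + fr x.1 * x.1 = 0 → y.2 + fr y.2 + fr y.1 * y.1 = 0 →
      φ x * φ y = φ (0, y.1 * fr x.1 - x.1 * fr y.1) * (φ y * φ x) := by
    intro x y hx hy
    rw [← h3 x y hx hy, ← h3 y x hy hx, ← h3]
    · congr 1
      ext
      · simp [add_comm]
      · simp; ring
    · simp [hfr]; ring
    · simp only [map_add, map_sub, map_mul, hfr]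
      linear_combination hx + hy
  obtain ⟨s, hs, es⟩ := h2 _ (hR (a 1, 1, 1))
  obtain ⟨s0, hs0, es0⟩ := h2 _ (hR (xa 0, 1, 1))
  obtain ⟨s1, hs1, es1⟩ := h2 _ (hR (1, a 1, 1))
  obtain ⟨s2, hs2, es2⟩ := h2 _ (hR (1, xa 0, 1))
  have h00 : φ (0, 0) = 1 := by
    have := h3 (0, 0) (0, 0) (by simp) (by simp)
    simpa using this
  have ha : s.1 ≠ 0 := by
    intro h
    have := key s s0 hs hs0
    rw [h, es, es0] at this
    simp only [map_zero, mul_zero, zero_mul, sub_zero, h00, one_mul, ← map_mul] at this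
    have := inl_injective this
    revert this; decide
  obtain ⟨w, hw⟩ : ∃ w, w = s2.1 * fr s1.1 := ⟨_, rfl⟩
  have hc : s2.1 * fr s1.1 - s1.1 * fr s2.1 = w - fr w := by
    rw [hw, map_mul, hfr]; ring
  have k1 := key s1 s2 hs1 hs2
  rw [hc, es1, es2] at k1
  have hw0 : w + fr w ≠ 0 := by
    intro h
    have : w - fr w = 0 := by linear_combination h - fr w * two
    rw [this, h00, one_mul, ← map_mul, ← map_mul] at k1
    have := inl_injective k1
    revert this; decide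
  have hfa : fr s.1 ≠ 0 := (map_ne_zero fr).mpr ha
  obtain ⟨y1, hy1⟩ : ∃ y1, y1 = w / fr s.1 := ⟨_, rfl⟩
  obtain ⟨y2, hy2⟩ : ∃ y2, y2 = w / (w + fr w) * (fr y1 * y1) := ⟨_, rfl⟩
  have hy : y2 + fr y2 + fr y1 * y1 = 0 := by
    have hw1 : fr w + w ≠ 0 := by rwa [add_comm]
    rw [hy2, map_mul, map_mul, map_div₀, map_add, hfr, hfr]
    have : w / (w + fr w) + fr w / (fr w + w) = 1 := by
      rw [add_comm (fr w) w, ← add_div, div_self hw0]
    linear_combination (fr y1 * y1) * this + (fr y1 * y1) * two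
  have k2 := key s (y1, y2) hs hy
  have hc2 : y1 * fr s.1 - s.1 * fr y1 = w - fr w := by
    rw [hy1, map_div₀, hfr]; field_simp
  simp only [hc2] at k2
  have hm := h1 (y1, y2) hy
  rw [R_eq] at hm
  obtain ⟨p, hp⟩ := hm
  rw [es, ← hp] at k2
  have k3 : φ (0, w - fr w) = inl (1, a 2, 1) := by
    rw [eq_comm, ← eq_mul_inv_iff_mul_eq, ← map_mul, ← map_mul, ← map_inv, ← map_mul] at k1
    rw [k1]; congr 1
  rw [k3, ← map_mul, ← map_mul, ← map_mul] at k2
  have k4 := congrArg (fun x : P => x.2.1) (inl_injective k2)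
  simp only [Prod.snd_mul, Prod.fst_mul, one_mul, mul_one] at k4
  have k5 : (a 2 : Q) = 1 := by simpa using k4.symm
  revert k5; decide

theorem result :
    ¬ (∀ (F : ∀ (H : Type) [Group H], Prop),
    (∀ (H K : Type) [Group H] [Group K] [Finite H] (f : H →* K),
        Function.Surjective f → F H → F K) →
    (∀ (H K₁ K₂ : Type) [Group H] [Group K₁] [Group K₂] [Finite H]
        (f₁ : H →* K₁) (f₂ : H →* K₂),
        Function.Surjective f₁ → Function.Surjective f₂ → F K₁ → F K₂ →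
        F ↥(f₁.prod f₂).range) →
    (∀ (H K : Type) [Group H] [Group K] [Finite H] (f : H →* K),
        Function.Surjective f → (∀ M : Subgroup H, IsCoatom M → f.ker ≤ M) →
        F K → F H) →
    ∀ (G : Type) [Group G] [Finite G],
      IsSolvable G → ¬ F G → (∀ K : Subgroup G, K ≠ ⊤ → F ↥K) →
      ∀ (p : ℕ) [Fact p.Prime] (R : Subgroup G),
        R = sInf {K : Subgroup G | ∃ (H : Type) (_ : Group H) (_ : Finite H),
              F H ∧ ∃ f : G →* H, Function.Surjective f ∧ f.ker = K} →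
        (∃ P : Sylow p G, (P : Subgroup G) = R) →
        ∃ n : ℕ, 0 < n ∧
          ∃ φ : GaloisField p (2 * n) × GaloisField p (2 * n) → G,
            (∀ x : GaloisField p (2 * n) × GaloisField p (2 * n),
                x.2 + x.2 ^ (p ^ n) + x.1 ^ (p ^ n + 1) = 0 → φ x ∈ R) ∧
            (∀ g ∈ R, ∃ x : GaloisField p (2 * n) × GaloisField p (2 * n),
                x.2 + x.2 ^ (p ^ n) + x.1 ^ (p ^ n + 1) = 0 ∧ φ x = g) ∧
            (∀ x y : GaloisField p (2 * n) × GaloisField p (2 * n),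
                x.2 + x.2 ^ (p ^ n) + x.1 ^ (p ^ n + 1) = 0 →
                y.2 + y.2 ^ (p ^ n) + y.1 ^ (p ^ n + 1) = 0 →
                φ (x.1 + y.1, x.2 + y.2 - x.1 * y.1 ^ (p ^ n)) = φ x * φ y)) := by
  intro h
  obtain ⟨n, hn, φ, h1, h2, h3⟩ := h FF FF_quot (fun H K₁ K₂ _ _ _ _ f₁ f₂ _ _ => FF_sub H K₁ K₂ f₁ f₂)
    FF_sat G
    (by
      have : Group.IsNilpotent P := P_two.isNilpotent
      exact solvable_of_ker_le_range (inl : P →* G) rightHom range_inl_eq_ker_rightHom.symm.le)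
    (by
      intro hG
      have := R_le G hG (MonoidHom.id G) Function.surjective_id
        (show (inl (a 1, 1, 1) : G) ∈ R by rw [R_eq]; exact ⟨_, rfl⟩)
      rw [MonoidHom.mem_ker, MonoidHom.id_apply, ← map_one (inl : P →* G)] at this
      have := inl_injective this
      revert this; decide)
    FF_proper 2 R
    (by
      apply le_antisymm
      · refine le_sInf ?_
        rintro K ⟨H, _, _, hH, f, hf, rfl⟩
        exact R_le H hH f hf
      · exact sInf_le ⟨_, _, inferInstance, FF_C9, rightHom, rightHom_surjective, rfl⟩)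
    ⟨R_two.toSylow (by
      rw [R, Subgroup.index_ker, MonoidHom.range_eq_top.mpr rightHom_surjective]
      simp), rfl⟩
  refine no_map (GaloisField 2 (2 * n)) (iterateFrobenius _ 2 n) ?_ φ ?_ ?_ ?_
  · intro x
    have := Fintype.ofFinite (GaloisField 2 (2 * n))
    rw [iterateFrobenius_def, iterateFrobenius_def, ← pow_mul, ← pow_add, ← two_mul,
      ← GaloisField.card 2 (2 * n) (by omega), Nat.card_eq_fintype_card, FiniteField.pow_card]
  · simpa only [iterateFrobenius_def, pow_succ] using h1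
  · simpa only [iterateFrobenius_def, pow_succ] using h2
  · simpa only [iterateFrobenius_def, pow_succ] using h3

end Pool.Agent.S03302
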