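import Pool.Statements.S03304
import Pool.Agent.H.MP_e032dc_al.Main

set_option autoImplicit false
open Pool Pool.MP_e032dc_al

namespace Pool.Agent.S03304

theorem result :
    ¬ (∀ (Ω : Type) [Infinite Ω] (p : ℕ), p.Prime →
      ∀ G : Subgroup (Equiv.Perm Ω),
        (∀ g ∈ G, {x : Ω | g x ≠ x}.Finite) →
        (∀ g ∈ G, ∃ n : ℕ, g ^ (p ^ n) = 1) →
        (∀ x y : Ω, ∃ g ∈ G, g x = y) →
        (∀ F : Set Ω, F.Finite → ∃ B : Set Ω, F ⊆ B ∧ B.Finite ∧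
            ∀ h ∈ G, (⇑h '' B = B ∨ Disjoint (⇑h '' B) B)) →
        (∀ g ∈ G, ∀ x : Ω, ∀ h ∈ G,
            (⇑h '' Set.range (fun n : ℤ => (g ^ n) x) = Set.range (fun n : ℤ => (g ^ n) x) ∨
             Disjoint (⇑h '' Set.range (fun n : ℤ => (g ^ n) x))
               (Set.range (fun n : ℤ => (g ^ n) x)))) →
        ∃ H : Subgroup (Equiv.Perm Ω), H ≤ G ∧
          ¬ (∀ a ∈ H, {b : Equiv.Perm Ω | ∃ c ∈ H, b = c * a * c⁻¹}.Finite) ∧
          ∀ K : Subgroup (Equiv.Perm Ω), K < H →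
            ∀ a ∈ K, {b : Equiv.Perm Ω | ∃ c ∈ K, b = c * a * c⁻¹}.Finite) := by
  intro h
  obtain ⟨A, _, _⟩ := Pool.Agent.H.MP_e032dc_al.exists_pru
  haveI : Infinite A := Pool.Agent.H.MP_e032dc_al.inf_A
  open Pool.Agent.H.MP_e032dc_al in
  obtain ⟨H, h1, h2, h3⟩ := h A 2 Nat.prime_two (G0 A)
    (fun g ⟨_, n, hn⟩ => (B_fin A n).subset fun x hx => by_contra fun h => hx (hn x h))
    (fun g ⟨hg, n, hn⟩ => ⟨n, Equiv.ext fun x => sub_eq_zero.1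
      (B_zero.1 (by simpa [D] using pow_mem_D hg (supp_D hn x) n))⟩)
    G0_tr
    (fun F hF => by
      obtain ⟨n, hn⟩ := fin_sub hF
      exact ⟨_, fun x hx => by simpa using hn x hx, ball_fin 0 n, fun g hg => block hg.1 0 n⟩)
    (fun g hg x c hc => by
      obtain ⟨j, hj⟩ := G0_cyc hg.1 x
      rw [hj]
      exact block hc.1 x j)
  obtain ⟨K, k1, a, k2, k3⟩ :=
    Pool.Agent.H.MP_e032dc_al.no_mnfc (fun g hg => (h1 hg).1) (fun g hg => (h1 hg).2) h2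
  exact k3 (h3 K k1 a k2)

end Pool.Agent.S03304
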