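import Pool.Statements.S03319
import Pool.Agent.H.MP_e12dda_al.E

set_option autoImplicit false
open Pool Pool.MP_e12dda_al

namespace Pool.Agent.S03319

theorem result :
    ∃ (G : Type) (_ : AddCommGroup G),
      (∀ (n : ℕ) (x : G), n ≠ 0 → n • x = 0 → x = 0) ∧
      (∀ a b : G, a ≠ 0 → b ≠ 0 → ∃ n : ℕ, n ≠ 0 ∧
        ∀ p : ℕ, p.Prime → ∀ k : ℕ,
          (∃ y : G, p ^ k • y = a) → ∃ y : G, p ^ k • y = n • b) ∧
      (∀ a b : G, a ≠ 0 →
        (∀ p : ℕ, p.Prime → ∀ k : ℕ,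
          (∃ y : G, p ^ k • y = a) → ∃ y : G, p ^ k • y = b) →
        ∃ f : G →+ G, f a = b) ∧
      ¬ (∀ a b : G, a ≠ 0 → b ≠ 0 →
        (∀ p : ℕ, p.Prime → ∀ k : ℕ,
          ((∃ y : G, p ^ k • y = a) ↔ ∃ y : G, p ^ k • y = b)) →
        ∃ f : G ≃+ G, f a = b) := by
  obtain ⟨G, inst, tf, od, ht, ft, a0, c0, ha0, hc0, hn⟩ := Pool.Agent.H.MP_e12dda_al.exists_G
  have odp : ∀ p : ℕ, p.Prime → p ≠ 2 → ∀ (k : ℕ) (x : G), ∃ y, p ^ k • y = x := by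
    intro p hp h2 k x
    refine od _ (fun h => h2 ?_) x
    exact ((Nat.prime_dvd_prime_iff_eq Nat.prime_two hp).1 (Nat.prime_two.dvd_of_dvd_pow h)).symm
  have hle : ∀ (k j : ℕ) (a' y : G), (¬ ∃ y : G, 2 • y = a') → 2 ^ j • y = 2 ^ k • a' → j ≤ k := by
    intro k j a' y ha' e
    by_contra hlt
    obtain ⟨i, rfl⟩ : ∃ i, j = k + 1 + i := ⟨j - (k + 1), by omega⟩
    apply ha'
    refine ⟨2 ^ i • y, ?_⟩
    have : 2 ^ k • (2 • 2 ^ i • y - a') = 0 := by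
      rw [smul_sub, ← e, smul_smul, smul_smul, sub_eq_zero]
      congr 1
      ring
    exact sub_eq_zero.1 (tf _ _ (by positivity) this)
  refine ⟨G, inst, tf, ?_, ?_, ?_⟩
  · intro a b ha _
    obtain ⟨k, a', rfl, ha'⟩ := ht a ha
    refine ⟨2 ^ k, by positivity, fun p hp j hj => ?_⟩
    by_cases h2 : p = 2
    · subst h2
      obtain ⟨y, hy⟩ := hj
      obtain ⟨i, rfl⟩ := Nat.exists_eq_add_of_le (hle k j a' y ha' hy)
      exact ⟨2 ^ i • b, by rw [smul_smul, pow_add]⟩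
    · exact odp p hp h2 j _
  · intro a b ha h
    obtain ⟨k, a', rfl, ha'⟩ := ht a ha
    obtain ⟨y, rfl⟩ := h 2 Nat.prime_two k ⟨a', rfl⟩
    obtain ⟨f, hf⟩ := ft a' ha' y
    exact ⟨f, by rw [map_nsmul, hf]⟩
  · intro h
    have key : ∀ x : G, (¬ ∃ y : G, 2 • y = x) → ∀ k : ℕ, (∃ y : G, 2 ^ k • y = x) ↔ k = 0 := by
      intro x hx k
      constructor
      · rintro ⟨y, hy⟩
        have := hle 0 k x y hx (by simpa using hy)
        omega
      · rintro rfl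
        exact ⟨x, by simp⟩
    obtain ⟨f, hf⟩ := h a0 c0 (fun e => ha0 ⟨0, by simp [e]⟩) (fun e => hc0 ⟨0, by simp [e]⟩) (by
      intro p hp k
      by_cases h2 : p = 2
      · subst h2
        rw [key a0 ha0, key c0 hc0]
      · exact ⟨fun _ => odp p hp h2 k _, fun _ => odp p hp h2 k _⟩)
    exact hn f hf

end Pool.Agent.S03319
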