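import Pool.Statements.S03322
import Pool.Agent.H.MP_e13a39_al.A

set_option autoImplicit false
open Pool Pool.MP_e13a39_al

namespace Pool.Agent.S03322

/-- The negation of the preceding statement: Every group variety (as a fully invariant subgroup of laws in the countable free group) is an irredundant join of varieties, none of which is the join of two proper subvarieties. -/
theorem result :
    ¬ (∀ A : Subgroup (FreeGroup ℕ),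
      (∀ φ : FreeGroup ℕ →* FreeGroup ℕ, ∀ w ∈ A, φ w ∈ A) →
      ∃ S : Set (Subgroup (FreeGroup ℕ)),
        (∀ N ∈ S, ∀ φ : FreeGroup ℕ →* FreeGroup ℕ, ∀ w ∈ N, φ w ∈ N) ∧
        sInf S = A ∧
        (∀ N ∈ S, sInf (S \ {N}) ≠ A) ∧
        (∀ N ∈ S, ¬ ∃ M₁ M₂ : Subgroup (FreeGroup ℕ),
            (∀ φ : FreeGroup ℕ →* FreeGroup ℕ, ∀ w ∈ M₁, φ w ∈ M₁) ∧
            (∀ φ : FreeGroup ℕ →* FreeGroup ℕ, ∀ w ∈ M₂, φ w ∈ M₂) ∧
            N < M₁ ∧ N < M₂ ∧ M₁ ⊓ M₂ = N)) := by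
  intro h
  obtain ⟨A, a1, a2, a3⟩ := Pool.Agent.H.MP_e13a39_al.split
  obtain ⟨S, s1, s2, s3, s4⟩ := h A a1
  obtain ⟨N, hN⟩ : S.Nonempty := Set.nonempty_iff_ne_empty.2 fun e => a2 (by simp [← s2, e])
  have hA : A ≤ sInf (S \ {N}) := s2 ▸ sInf_le_sInf Set.sdiff_subset
  have hM : Pool.Agent.H.MP_e13a39_al.FI (sInf (S \ {N})) := fun φ w hw =>
    Subgroup.mem_sInf.2 fun K hK => s1 K hK.1 φ w (Subgroup.mem_sInf.1 hw K hK)
  have hNM : ∀ w ∈ N, w ∈ sInf (S \ {N}) → w ∈ A := fun w h1 h2 => s2 ▸ Subgroup.mem_sInf.2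
    fun K hK => (em (K = N)).elim (· ▸ h1) fun e => Subgroup.mem_sInf.1 h2 K ⟨hK, e⟩
  obtain ⟨W₀, W₁, b1, b2, b3, b4, b5, b6, b7⟩ := a3 _ hM fun e => s3 N hN (le_antisymm e hA)
  generalize sInf (S \ {N}) = M at *
  have hn := Pool.Agent.H.MP_e13a39_al.FI.normal (s1 N hN)
  refine s4 N hN ⟨N ⊔ M ⊓ W₀, N ⊔ M ⊓ W₁,
    Pool.Agent.H.MP_e13a39_al.FI.sup (s1 N hN) fun φ w hw => ⟨hM φ w hw.1, b1 φ w hw.2⟩,
    Pool.Agent.H.MP_e13a39_al.FI.sup (s1 N hN) fun φ w hw => ⟨hM φ w hw.1, b2 φ w hw.2⟩,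
    left_lt_sup.2 fun e => b6 fun w hw => hNM w (e hw) hw.1,
    left_lt_sup.2 fun e => b7 fun w hw => hNM w (e hw) hw.1,
    le_antisymm (fun x hx => ?_) (le_inf le_sup_left le_sup_left)⟩
  obtain ⟨n, h1, a, h2, rfl⟩ := Subgroup.mem_sup_of_normal_left.1 hx.1
  obtain ⟨m, h3, b, h4, e⟩ := Subgroup.mem_sup_of_normal_left.1 hx.2
  have e' : a * b⁻¹ = n⁻¹ * m := by rw [mul_inv_eq_iff_eq_mul, mul_assoc, e, inv_mul_cancel_left]
  have h5 := hNM _ (e' ▸ N.mul_mem (N.inv_mem h1) h3) (M.mul_mem h2.1 (M.inv_mem h4.1))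
  exact N.mul_mem h1 ((s2 ▸ sInf_le hN : A ≤ N) (b5 ⟨h2.2, by simpa using W₁.mul_mem (b4 h5) h4.2⟩))

end Pool.Agent.S03322
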