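import Pool.Statements.S03339
import Pool.Agent.H.MP_e21d7a_al.B
import Pool.Agent.H.MP_e21d7a_al.D

set_option autoImplicit false
open Pool Pool.MP_e21d7a_al

namespace Pool.Agent.S03339

/-- For the rank-4 system A and the rank-5 cyclic system B, every infinite reduced word's inversion roots, normalized to coordinate sum 1 (i.e. viewed projectively), have exactly one accumulation point. -/
theorem result :
    (∀ (M : CoxeterMatrix (Fin 4)), (∀ i j : Fin 4, i ≠ j → M i j = 0) →
      ∀ (G : Matrix (Fin 4) (Fin 4) ℝ),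
        (∀ i j : Fin 4, G i j =
          if i = j then 1
          else if (i = 0 ∧ j = 1) ∨ (i = 1 ∧ j = 0) then -2
          else if (i = 2 ∧ j = 3) ∨ (i = 3 ∧ j = 2) then -6
          else -1) →
      ∀ (σ : Fin 4 → Matrix (Fin 4) (Fin 4) ℝ),
        (∀ i a b : Fin 4, σ i a b = (if a = b then (1 : ℝ) else 0) - (if a = i then 2 * G i b else 0)) →
      ∀ s : ℕ → Fin 4,
        (∀ k : ℕ, M.toCoxeterSystem.IsReduced (List.ofFn fun j : Fin k => s j)) →
        ∃! x : Fin 4 → ℝ, AccPt x (Filter.principal (Set.range fun k : ℕ =>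
          (∑ i, (Matrix.mulVec (List.ofFn fun j : Fin k => σ (s j)).prod
              (Pi.single (s k) (1 : ℝ) : Fin 4 → ℝ)) i)⁻¹ •
            Matrix.mulVec (List.ofFn fun j : Fin k => σ (s j)).prod
              (Pi.single (s k) (1 : ℝ) : Fin 4 → ℝ)))) ∧
    (∀ (M : CoxeterMatrix (Fin 5)),
        (∀ i j : Fin 5, i ≠ j → M i j = if i - j = 1 ∨ j - i = 1 then 0 else 2) →
      ∀ (G : Matrix (Fin 5) (Fin 5) ℝ),
        (∀ i j : Fin 5, G i j =
          if i = j then 1
          else if i - j = 1 ∨ j - i = 1 then -2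
          else 0) →
      ∀ (σ : Fin 5 → Matrix (Fin 5) (Fin 5) ℝ),
        (∀ i a b : Fin 5, σ i a b = (if a = b then (1 : ℝ) else 0) - (if a = i then 2 * G i b else 0)) →
      ∀ s : ℕ → Fin 5,
        (∀ k : ℕ, M.toCoxeterSystem.IsReduced (List.ofFn fun j : Fin k => s j)) →
        ∃! x : Fin 5 → ℝ, AccPt x (Filter.principal (Set.range fun k : ℕ =>
          (∑ i, (Matrix.mulVec (List.ofFn fun j : Fin k => σ (s j)).prod
              (Pi.single (s k) (1 : ℝ) : Fin 5 → ℝ)) i)⁻¹ •
            Matrix.mulVec (List.ofFn fun j : Fin k => σ (s j)).prod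
              (Pi.single (s k) (1 : ℝ) : Fin 5 → ℝ)))) := by
  open Pool.Agent.H.MP_e21d7a_al in
  refine ⟨fun M _ G hG σ hσ s hr => sysA σ (fun i v => ?_) s
    (fun k e => desc_not s hr (k + 1) (e ▸ desc_self s k)),
    fun M hM G hG σ hσ s hr => sysB M (fun a b h => ?_) σ (fun i v => ?_) s hr⟩
  · ext a
    simp only [Matrix.mulVec, dotProduct, Fin.sum_univ_four, hσ, hG]
    fin_cases i <;> fin_cases a <;> simp [Pool.Agent.H.MP_e21d7a_al.sA] <;> ring
  · have h1 : ∀ a b : Fin 5, Pool.Agent.H.MP_e21d7a_al.cm a b →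
        a ≠ b ∧ ¬ (a - b = 1 ∨ b - a = 1) := by decide
    rw [hM a b (h1 a b h).1, if_neg (h1 a b h).2]
  · ext a
    simp only [Matrix.mulVec, dotProduct, Fin.sum_univ_five, hσ, hG]
    fin_cases i <;> fin_cases a <;> simp +decide [Pool.Agent.H.MP_e21d7a_al.sB] <;> ring

end Pool.Agent.S03339
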