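import Pool.Statements.S03341
import Pool.Agent.H.MP_e2537c_al.D

set_option autoImplicit false
open Real
open Pool Pool.MP_e2537c_al

namespace Pool.Agent.S03341

open Pool.Agent.H.MP_e2537c_al

def Tr (Γ : Subgroup (Circle ≃ₜ Circle)) (n : ℕ) : Prop :=
  ∀ x y : Fin n → Circle,
    (∃ t : Fin n → ℝ, StrictMono t ∧ (∀ i j, t j < t i + 2 * π) ∧
        ∀ i, x i = Circle.exp (t i)) →
    (∃ s : Fin n → ℝ, StrictMono s ∧ (∀ i j, s j < s i + 2 * π) ∧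
        ∀ i, y i = Circle.exp (s i)) →
    ∃ γ ∈ Γ, ∀ i, x i = γ (y i)

def down (H : Subgroup (ℝ ≃o ℝ)) : Subgroup (Circle ≃ₜ Circle) where
  carrier := {γ | ∃ h ∈ H, ∀ t, γ (Circle.exp t) = Circle.exp (h t)}
  mul_mem' := by
    rintro γ δ ⟨h, hh, h1⟩ ⟨k, hk, h2⟩
    exact ⟨h * k, H.mul_mem hh hk, fun t => by rw [Homeomorph.mul_apply, h2, h1, mul_ap]⟩
  one_mem' := ⟨1, H.one_mem, fun t => rfl⟩
  inv_mem' := by
    rintro γ ⟨h, hh, h1⟩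
    refine ⟨h⁻¹, H.inv_mem hh, fun t => ?_⟩
    rw [Homeomorph.inv_apply, Homeomorph.symm_apply_eq, h1, ap_inv]

lemma main : ∃ Γ : Subgroup (Circle ≃ₜ Circle), Tr Γ 4 ∧ ¬ Tr Γ 9 := by
  have ht : Cyc (fun i : Fin 10 => ((i : ℕ) : ℝ) / 2) := by
    refine ⟨fun i j hij => ?_, fun i j => ?_⟩
    · have : ((i : ℕ) : ℝ) < (j : ℕ) := by exact_mod_cast hij
      simp only; linarith
    · have h1 : ((j : ℕ) : ℝ) < (10 : ℕ) := by exact_mod_cast j.2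
      have h2 : (0 : ℝ) ≤ (i : ℕ) := by positivity
      have := Real.pi_gt_three
      push_cast at h1
      linarith
  set t : Fin 10 → ℝ := fun i => ((i : ℕ) : ℝ) / 2
  have hb : Cyc (fun i : Fin 9 => t i.castSucc) :=
    ⟨ht.1.comp Fin.strictMono_castSucc, fun i j => ht.2 _ _⟩
  have ha : Cyc (fun i : Fin 9 => t i.succ) :=
    ⟨ht.1.comp Fin.strictMono_succ, fun i j => ht.2 _ _⟩
  obtain ⟨H, hG, h1, h2⟩ := exists_group (a := fun i : Fin 9 => t i.succ) hb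
    (fun h => absurd (ht.exp_inj h) (by decide))
  refine ⟨down H, ?_, fun h => ?_⟩
  · rintro x y ⟨t, ht1, ht2, ht3⟩ ⟨s, hs1, hs2, hs3⟩
    obtain ⟨f, hf, hf'⟩ := h1 s t ⟨hs1, hs2⟩ ⟨ht1, ht2⟩
    obtain ⟨γ, hγ⟩ := desc (hG hf)
    exact ⟨γ, ⟨f, hf, hγ⟩, fun i => by rw [ht3, hs3, hγ, hf']⟩
  · obtain ⟨γ, ⟨f, hf, hγ⟩, h3⟩ := h (fun i => Circle.exp (t i.succ))
      (fun i => Circle.exp (t i.castSucc)) ⟨_, ha.1, ha.2, fun _ => rfl⟩
      ⟨_, hb.1, hb.2, fun _ => rfl⟩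
    exact h2 f hf fun i => by rw [← hγ]; exact (h3 i).symm

theorem result :
    ∃ n : ℕ, 4 ≤ n ∧ ∃ Γ : Subgroup (Circle ≃ₜ Circle),
      (∀ x y : Fin n → Circle,
        (∃ t : Fin n → ℝ, StrictMono t ∧ (∀ i j, t j < t i + 2 * π) ∧
            ∀ i, x i = Circle.exp (t i)) →
        (∃ s : Fin n → ℝ, StrictMono s ∧ (∀ i j, s j < s i + 2 * π) ∧
            ∀ i, y i = Circle.exp (s i)) →
        ∃ γ ∈ Γ, ∀ i, x i = γ (y i)) ∧
      ¬ (∀ x y : Fin (n + 1) → Circle,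
        (∃ t : Fin (n + 1) → ℝ, StrictMono t ∧ (∀ i j, t j < t i + 2 * π) ∧
            ∀ i, x i = Circle.exp (t i)) →
        (∃ s : Fin (n + 1) → ℝ, StrictMono s ∧ (∀ i j, s j < s i + 2 * π) ∧
            ∀ i, y i = Circle.exp (s i)) →
        ∃ γ ∈ Γ, ∀ i, x i = γ (y i)) := by
  obtain ⟨Γ, h4, h9⟩ := main
  by_contra hcon
  have key : ∀ n, 4 ≤ n → Tr Γ n := by
    intro n hn
    induction n, hn using Nat.le_induction with
    | base => exact h4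
    | succ n hn ih =>
      by_contra h
      exact hcon ⟨n, hn, Γ, ih, h⟩
  exact h9 (key 9 (by norm_num))

end Pool.Agent.S03341
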