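import Pool.Statements.S03384
import Pool.Agent.H.MP_e6182f_al.A

set_option autoImplicit false
open CategoryTheory
open Pool Pool.MP_e6182f_al

namespace Pool.Agent.S03384

theorem result :
    ¬ (∀ (R : Type) [Ring R] (D : ModuleCat.{0} R → Prop) (N : ModuleCat.{0} R),
      (∃ (J : Type) (_ : SmallCategory J) (_ : IsFiltered J) (F : J ⥤ ModuleCat.{0} R),
        (∀ j : J, ∃ (n : ℕ) (M : Fin n → ModuleCat.{0} R), (∀ i, D (M i)) ∧
          ∃ (f : (F.obj j : Type) →ₗ[R] DirectSum (Fin n) (fun i => (M i : Type)))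
            (g : DirectSum (Fin n) (fun i => (M i : Type)) →ₗ[R] (F.obj j : Type)),
            g ∘ₗ f = LinearMap.id) ∧
        ∃ c : Limits.Cocone F, Nonempty (Limits.IsColimit c) ∧ Nonempty (c.pt ≅ N)) ↔
      (∃ (J : Type) (_ : SmallCategory J) (_ : IsFiltered J) (F : J ⥤ ModuleCat.{0} R),
        (∀ j : J, ∃ (ι : Type) (M : ι → ModuleCat.{0} R), (∀ i, D (M i)) ∧
          ∃ (f : (F.obj j : Type) →ₗ[R] DirectSum ι (fun i => (M i : Type)))
            (g : DirectSum ι (fun i => (M i : Type)) →ₗ[R] (F.obj j : Type)),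
            g ∘ₗ f = LinearMap.id) ∧
        ∃ c : Limits.Cocone F, Nonempty (Limits.IsColimit c) ∧ Nonempty (c.pt ≅ N))) := by
  intro h
  open Pool.Agent.H.MP_e6182f_al in
  obtain ⟨F, hF, hc⟩ := is_lim
  open Pool.Agent.H.MP_e6182f_al in
  obtain ⟨J, _, _, G, hG, c, ⟨hc⟩, ⟨e⟩⟩ :=
    (h RR (fun X => X = ModuleCat.of RR WW) (ModuleCat.of RR NN)).2
      ⟨ℕ, inferInstance, inferInstance, F,
        fun j => ⟨ℕ, fun _ => ModuleCat.of RR WW, fun _ => rfl, hF j⟩, hc⟩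
  open Pool.Agent.H.MP_e6182f_al in
  refine not_lim G (fun j => ?_) c hc e
  obtain ⟨n, M, hM, f, g, hfg⟩ := hG j
  open Pool.Agent.H.MP_e6182f_al in
  exact (Phi.sum (fun i => (M i : Type)) fun i => by
    rw [hM i]
    exact Phi_MM.prod Phi_Z0).retr f g hfg

end Pool.Agent.S03384
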