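import Pool.Statements.S03422
-- import your own Pool.Agent.* helpers here

set_option autoImplicit false
open Pool Pool.MP_e8da98_al

namespace Pool.Agent.S03422

/-! ### The wreath product with a cyclic group of order three -/

abbrev X := ZMod 3
abbrev R (G : Type) := MonoidAlgebra X G

@[ext] structure W (G : Type) where
  f : R G
  g : G

section wreath
variable {G : Type} [Group G]

noncomputable instance : Mul (W G) :=
  ⟨fun a b => ⟨a.f + MonoidAlgebra.of X G a.g * b.f, a.g * b.g⟩⟩
noncomputable instance : One (W G) := ⟨⟨0, 1⟩⟩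
noncomputable instance : Inv (W G) :=
  ⟨fun a => ⟨-(MonoidAlgebra.of X G a.g⁻¹ * a.f), a.g⁻¹⟩⟩

lemma mul_f (a b : W G) : (a * b).f = a.f + MonoidAlgebra.of X G a.g * b.f := rfl
lemma mul_g (a b : W G) : (a * b).g = a.g * b.g := rfl
lemma one_f : (1 : W G).f = 0 := rfl
lemma one_g : (1 : W G).g = 1 := rfl
lemma inv_f (a : W G) : (a⁻¹).f = -(MonoidAlgebra.of X G a.g⁻¹ * a.f) := rfl
lemma inv_g (a : W G) : (a⁻¹).g = a.g⁻¹ := rfl

noncomputable instance : Group (W G) := Group.ofLeftAxioms
  (fun a b c => W.ext (by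
    simp only [mul_f, mul_g, map_mul, mul_add, mul_assoc, add_assoc]) (mul_assoc _ _ _))
  (fun a => W.ext (by rw [mul_f, one_f, one_g, map_one, one_mul, zero_add]) (one_mul _))
  (fun a => W.ext (by rw [mul_f, inv_f, inv_g, one_f, neg_add_cancel]) (inv_mul_cancel _))

noncomputable def proj : W G →* G := MonoidHom.mk' W.g (fun _ _ => rfl)

lemma add_self (f : R G) : f + (f + f) = 0 := by
  rw [← one_smul X f, ← add_smul, ← add_smul, show (1 + (1 + 1) : X) = 0 from rfl, zero_smul]

noncomputable def Wmap {Q : Type} [Group Q] (π : G →* Q) : W G →* W Q :=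
  MonoidHom.mk' (fun a => ⟨MonoidAlgebra.mapDomainRingHom X π a.f, π a.g⟩) (fun a b =>
    W.ext (by
      simp only [mul_f, map_add, map_mul]
      congr 2
      simp) (map_mul π _ _))

instance {Q : Type} [Finite Q] : Finite (W Q) := by
  have : Finite (Q →₀ X) := Finite.of_injective _ DFunLike.coe_injective
  have : Finite (R Q) := Finite.of_equiv _ (MonoidAlgebra.coeffEquiv (R := X) (M := Q)).symm
  exact Finite.of_injective (fun a : W Q => (a.f, a.g)) (fun a b h =>
    W.ext (congrArg Prod.fst h) (congrArg Prod.snd h))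

lemma add_mem' {K : Subgroup (W G)} {f f' : R G} (h : (⟨f, 1⟩ : W G) ∈ K)
    (h' : (⟨f', 1⟩ : W G) ∈ K) : (⟨f + f', 1⟩ : W G) ∈ K := by
  have : (⟨f + f', 1⟩ : W G) = ⟨f, 1⟩ * ⟨f', 1⟩ :=
    W.ext (by rw [mul_f, map_one, one_mul]) (mul_one _).symm
  rw [this]
  exact K.mul_mem h h'

/-- the part of an overgroup of the top group that lies in the base group is a left ideal -/
def idl (K : Subgroup (W G)) (hK : ∀ g, (⟨0, g⟩ : W G) ∈ K) : Ideal (R G) where
  carrier := {f | (⟨f, 1⟩ : W G) ∈ K}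
  zero_mem' := K.one_mem
  add_mem' := add_mem'
  smul_mem' := by
    intro c f hf
    rw [smul_eq_mul]
    induction c using MonoidAlgebra.induction_linear with
    | zero => rw [zero_mul]; exact K.one_mem
    | add c c' hc hc' => rw [add_mul]; exact add_mem' hc hc'
    | single h c =>
      have h1 : (⟨MonoidAlgebra.single h 1 * f, 1⟩ : W G) ∈ K := by
        have : (⟨MonoidAlgebra.single h 1 * f, 1⟩ : W G) = ⟨0, h⟩ * ⟨f, 1⟩ * ⟨0, h⁻¹⟩ :=
          W.ext (by simp [mul_f]) (by simp [mul_g])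
        rw [this]
        exact K.mul_mem (K.mul_mem (hK _) hf) (hK _)
      have hc : ∀ c : X, c = 0 ∨ c = 1 ∨ c = 1 + 1 := by decide
      rcases hc c with rfl | rfl | rfl
      · rw [MonoidAlgebra.single_zero, zero_mul]; exact K.one_mem
      · exact h1
      · rw [MonoidAlgebra.single_add, add_mul]; exact add_mem' h1 h1

lemma top_of (K : Subgroup (W G)) (hK : ∀ g, (⟨0, g⟩ : W G) ∈ K) (h : idl K hK = ⊤) : K = ⊤ := by
  rw [Subgroup.eq_top_iff']
  rintro ⟨f, g⟩
  have : (⟨f, g⟩ : W G) = ⟨f, 1⟩ * ⟨0, g⟩ := W.ext (by simp [mul_f]) (one_mul _).symm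
  rw [this]
  exact K.mul_mem (show f ∈ idl K hK from h ▸ Submodule.mem_top) (hK g)

theorem wreath (hfg : Group.FG G) (hp : IsPGroup 3 G)
    (hrf : ∀ T : Finset G, ∃ (Q : Type) (_ : Group Q) (_ : Finite Q) (π : G →* Q),
      Set.InjOn π T) (s : R G) (t : G)
    (hL : ∀ S : R G, S * (1 + s * (MonoidAlgebra.of X G t - 1)) ≠ 1) :
    Group.FG (W G) ∧ IsPGroup 3 (W G) ∧
      (∀ g : W G, g ≠ 1 → ∃ N : Subgroup (W G), N.Normal ∧ N.index ≠ 0 ∧ g ∉ N) ∧
      ∃ H : Subgroup (W G), IsCoatom H ∧ ¬ H.Normal := by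
  classical
  let i : G →* W G := MonoidHom.mk' (fun g => ⟨0, g⟩) fun a b => W.ext (by simp [mul_f]) rfl
  refine ⟨?_, ?_, ?_, ?_⟩
  · obtain ⟨S, hS, hf⟩ := Group.fg_iff.1 hfg
    refine Group.fg_iff.2 ⟨insert ⟨1, 1⟩ (i '' S), ?_, (hf.image _).insert _⟩
    have h1 : ∀ g, (⟨0, g⟩ : W G) ∈ Subgroup.closure (insert ⟨1, 1⟩ (i '' S)) := fun g => by
      apply Subgroup.closure_mono (Set.subset_insert _ _)
      rw [← MonoidHom.map_closure, hS]
      exact ⟨g, trivial, rfl⟩
    exact top_of _ h1 ((Ideal.eq_top_iff_one _).2 (Subgroup.subset_closure (Set.mem_insert _ _)))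
  · intro w
    obtain ⟨k, hk⟩ := hp w.g
    have h1 : (w ^ 3 ^ k).g = 1 := (map_pow proj w _).trans hk
    refine ⟨k + 1, ?_⟩
    rw [pow_succ, pow_mul, pow_three]
    refine W.ext ?_ (by simp only [mul_g, h1, mul_one, one_g])
    simp only [mul_f, h1, map_one, one_mul, add_self, one_f]
  · intro w hw
    obtain ⟨Q, _, _, π, hπ⟩ := hrf (w.f.coeff.support ∪ {1, w.g})
    refine ⟨(Wmap π).ker, inferInstance, Subgroup.FiniteIndex.index_ne_zero, fun h => hw ?_⟩
    rw [MonoidHom.mem_ker] at h
    have h1 : π w.g = π 1 := by rw [map_one]; exact congrArg W.g h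
    have h2 : MonoidAlgebra.mapDomainRingHom X π w.f = 0 := congrArg W.f h
    refine W.ext ?_ (hπ (by simp) (by simp) h1 : w.g = 1)
    have h3 : Finsupp.mapDomain π w.f.coeff = 0 := by
      simpa using congrArg MonoidAlgebra.coeff h2
    ext a
    by_contra ha
    have ha' : a ∈ w.f.coeff.support := Finsupp.mem_support_iff.2 ha
    have := Finsupp.mapDomain_apply' _ w.f.coeff (Finset.coe_subset.2 Finset.subset_union_left) hπ
      (a := a) (by simp [Finsupp.mem_support_iff.1 ha'])
    rw [h3] at this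
    exact ha this.symm
  · obtain ⟨m, hm, hle⟩ := Ideal.exists_le_maximal
      (Ideal.span {1 + s * (MonoidAlgebra.of X G t - 1)}) (fun h => by
        obtain ⟨S, hS⟩ := Ideal.mem_span_singleton'.1 ((Ideal.eq_top_iff_one _).1 h)
        exact hL S hS)
    let M : Subgroup (W G) :=
      { carrier := {w | w.f ∈ m}
        one_mem' := m.zero_mem
        mul_mem' := fun ha hb => m.add_mem ha (m.mul_mem_left _ hb)
        inv_mem' := fun ha => m.neg_mem (m.mul_mem_left _ ha) }
    have h1 : (⟨1, 1⟩ : W G) ∉ M := fun h => hm.ne_top ((Ideal.eq_top_iff_one _).2 h)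
    refine ⟨M, ⟨fun h => h1 (h ▸ Subgroup.mem_top _), fun K hK => ?_⟩, fun hN => h1 ?_⟩
    · have h0 : ∀ g, (⟨0, g⟩ : W G) ∈ K := fun g => hK.le m.zero_mem
      refine top_of K h0 (hm.out.2 _ (lt_of_le_of_ne (fun f hf => hK.le hf) fun h => hK.ne ?_))
      refine le_antisymm hK.le fun w hw => ?_
      have : (⟨w.f, 1⟩ : W G) = w * ⟨0, w.g⁻¹⟩ := W.ext (by simp [mul_f]) (by simp [mul_g])
      change w.f ∈ m
      rw [h]
      change (⟨w.f, 1⟩ : W G) ∈ K
      rw [this]
      exact K.mul_mem hw (h0 _)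
    · have h2 : ((⟨1, 1⟩ : W G) * ⟨0, t⟩ * (⟨1, 1⟩ : W G)⁻¹).f ∈ m :=
        hN.conj_mem ⟨0, t⟩ m.zero_mem ⟨1, 1⟩
      have h3 : ((⟨1, 1⟩ : W G) * ⟨0, t⟩ * (⟨1, 1⟩ : W G)⁻¹).f =
          -(MonoidAlgebra.of X G t - 1) := by
        simp only [mul_f, mul_g, inv_f, inv_one, map_one, mul_zero, add_zero, one_mul, mul_one,
          mul_neg]
        abel
      rw [h3] at h2
      have h4 := m.add_mem (hle (Ideal.mem_span_singleton_self _)) (m.mul_mem_left s h2)
      rw [mul_neg, add_neg_cancel_right] at h4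
      exact h4

end wreath

/-! ### The Gupta-Sidki group -/

def ar (c : X) : List X → List X
  | [] => []
  | x :: w => (x + c) :: w

def tt (k : X) : List X → List X
  | [] => []
  | x :: w => x :: (if x = 0 then tt k w else ar (k * x) w)

lemma ar_add (c d : X) (w : List X) : ar c (ar d w) = ar (c + d) w := by
  cases w with
  | nil => rfl
  | cons x w => simp only [ar]; congr 1; ring

lemma ar_zero (w : List X) : ar 0 w = w := by cases w <;> simp [ar]

lemma tt_add (k l : X) (w : List X) : tt k (tt l w) = tt (k + l) w := by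
  induction w with
  | nil => rfl
  | cons x w ih =>
    simp only [tt]
    split_ifs
    · rw [ih]
    · rw [ar_add, add_mul]

lemma tt_zero (w : List X) : tt 0 w = w := by
  induction w with
  | nil => rfl
  | cons x w ih => simp [tt, ih, ar_zero]

def aP (c : X) : Equiv.Perm (List X) :=
  ⟨ar c, ar (-c), fun w => by rw [ar_add, neg_add_cancel, ar_zero],
    fun w => by rw [ar_add, add_neg_cancel, ar_zero]⟩

def tP (k : X) : Equiv.Perm (List X) :=
  ⟨tt k, tt (-k), fun w => by rw [tt_add, neg_add_cancel, tt_zero],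
    fun w => by rw [tt_add, add_neg_cancel, tt_zero]⟩

lemma aP_mul (c d : X) : aP c * aP d = aP (c + d) := Equiv.ext (ar_add c d)
lemma tP_mul (c d : X) : tP c * tP d = tP (c + d) := Equiv.ext (tt_add c d)
lemma aP_zero : aP 0 = 1 := Equiv.ext ar_zero
lemma tP_zero : tP 0 = 1 := Equiv.ext tt_zero

def tau (p : X × X) : Equiv.Perm (List X) := aP p.1 * tP p.2 * aP (-p.1)

def pr (u : List (X × X)) : Equiv.Perm (List X) := (u.map tau).prod

def sh (c : X) (u : List (X × X)) : List (X × X) := u.map fun p => (p.1 + c, p.2)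

lemma pr_cons (p : X × X) (u : List (X × X)) : pr (p :: u) = tau p * pr u := by simp [pr]
lemma pr_append (u v : List (X × X)) : pr (u ++ v) = pr u * pr v := by simp [pr]

lemma a_pr (c : X) (u : List (X × X)) : aP c * pr u = pr (sh c u) * aP c := by
  induction u with
  | nil => simp [pr, sh]
  | cons p u ih =>
    have : sh c (p :: u) = (p.1 + c, p.2) :: sh c u := rfl
    rw [this, pr_cons, pr_cons, mul_assoc, ← ih]
    simp only [tau, ← mul_assoc, aP_mul]
    rw [mul_assoc _ (aP _) (aP c), aP_mul, add_comm c]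
    congr 3
    ring

lemma el_mul (u v : List (X × X)) (c d : X) :
    pr u * aP c * (pr v * aP d) = pr (u ++ sh c v) * aP (c + d) := by
  rw [pr_append, ← aP_mul, mul_assoc, ← mul_assoc (aP c), a_pr]
  simp only [mul_assoc]

lemma tau_app (p : X × X) (x : X) (w : List X) : tau p (x :: w) =
    x :: (if p.1 = x then tP p.2 else aP (p.2 * (x - p.1))) w := by
  change ar p.1 (tt p.2 (ar (-p.1) (x :: w))) = _
  simp only [ar, tt, ← sub_eq_add_neg, sub_add_cancel, sub_eq_zero, eq_comm (a := x)]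
  split_ifs <;> rfl

lemma sect (x : X) (u : List (X × X)) : ∃ v : List (X × X),
    v.length = u.countP (fun p => p.1 = x) ∧
    (v.length = u.length → ∃ k, pr v * aP (u.map fun p => p.2 * (x - p.1)).sum = tP k) ∧
    ∀ w, pr u (x :: w) = x :: (pr v * aP (u.map fun p => p.2 * (x - p.1)).sum) w := by
  induction u with
  | nil => exact ⟨[], rfl, fun _ => ⟨0, by simp [pr, aP_zero, tP_zero]⟩,
      fun w => by simp [pr, aP_zero]⟩
  | cons p u ih =>
    obtain ⟨v, h1, h2, h3⟩ := ih
    by_cases h : p.1 = x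
    · have e : pr ((0, p.2) :: v) * aP ((p :: u).map fun p => p.2 * (x - p.1)).sum =
          tP p.2 * (pr v * aP (u.map fun p => p.2 * (x - p.1)).sum) := by
        simp [pr_cons, tau, aP_zero, h, mul_assoc]
      refine ⟨(0, p.2) :: v, by simp [h, h1], fun hl => ?_, fun w => ?_⟩
      · obtain ⟨k, hk⟩ := h2 (by simpa using hl)
        exact ⟨_, by rw [e, hk, tP_mul]⟩
      · rw [pr_cons, Equiv.Perm.mul_apply, h3, tau_app, if_pos h, e]; rfl
    · refine ⟨sh (p.2 * (x - p.1)) v, by simp [h, h1, sh], fun hl => ?_, fun w => ?_⟩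
      · have := List.countP_le_length (p := fun p : X × X => p.1 = x) (l := u)
        simp only [sh, List.length_map, List.length_cons] at hl
        omega
      · rw [pr_cons, Equiv.Perm.mul_apply, h3, tau_app, if_neg h, List.map_cons, List.sum_cons,
          ← aP_mul, ← mul_assoc, ← a_pr, mul_assoc]
        rfl

lemma pr_nil (u : List (X × X)) : pr u [] = [] := by
  induction u with
  | nil => rfl
  | cons p u ih => rw [pr_cons, Equiv.Perm.mul_apply, ih]; rfl

lemma of_sect (u : List (X × X)) (h : ∀ x, ∃ (g : Equiv.Perm (List X)) (e : ℕ), g ^ 3 ^ e = 1 ∧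
    ∀ w, pr u (x :: w) = x :: g w) : ∃ e, pr u ^ 3 ^ e = 1 := by
  choose g e h1 h2 using h
  refine ⟨∑ x, e x, Equiv.ext fun w => ?_⟩
  rcases w with _ | ⟨x, w⟩
  · exact Equiv.Perm.pow_apply_eq_self_of_apply_eq_self (pr_nil u) _
  · have : ∀ m, (pr u ^ m) (x :: w) = x :: (g x ^ m) w := by
      intro m
      induction m with
      | zero => rfl
      | succ m ih => rw [pow_succ', Equiv.Perm.mul_apply, ih, h2, pow_succ']; rfl
    obtain ⟨d, hd⟩ := Nat.exists_eq_add_of_le
      (Finset.single_le_sum (f := e) (fun _ _ => Nat.zero_le _) (Finset.mem_univ x))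
    rw [this, hd, pow_add, pow_mul, h1, one_pow]
    rfl

lemma three (k : X) : k + (k + k) = 0 := by revert k; decide

lemma period (n : ℕ) : ∀ u : List (X × X), u.length < n → ∀ c, ∃ e, (pr u * aP c) ^ 3 ^ e = 1 := by
  induction n with
  | zero => simp
  | succ n ih =>
    have A : ∀ u : List (X × X), u.length < n + 1 → ∃ e, pr u ^ 3 ^ e = 1 := fun u hu =>
      of_sect u fun x => by
        obtain ⟨v, h1, h2, h3⟩ := sect x u
        by_cases h : v.length = u.length
        · obtain ⟨k, hk⟩ := h2 h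
          exact ⟨_, 1, by rw [hk, pow_one, pow_three, tP_mul, tP_mul, three, tP_zero], h3⟩
        · have := List.countP_le_length (p := fun p : X × X => p.1 = x) (l := u)
          obtain ⟨e, he⟩ := ih v (by omega) (u.map fun p => p.2 * (x - p.1)).sum
          exact ⟨_, e, he, h3⟩
    intro u hu c
    by_cases hc : c = 0
    · rw [hc, aP_zero, mul_one]
      exact A u hu
    have e3 : (pr u * aP c) ^ 3 = pr (u ++ sh c (u ++ sh c u)) := by
      rw [pow_three, el_mul, el_mul, three, aP_zero, mul_one]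
    obtain ⟨e, he⟩ := of_sect (u ++ sh c (u ++ sh c u)) fun x => by
      obtain ⟨v, h1, -, h3⟩ := sect x (u ++ sh c (u ++ sh c u))
      have k1 : ∀ u : List (X × X), (u ++ sh c (u ++ sh c u)).countP (fun p => p.1 = x) =
          u.length := by
        intro u
        simp only [sh, List.countP_append, List.map_append, List.countP_map, List.map_map]
        induction u with
        | nil => rfl
        | cons p u ih =>
          simp only [List.countP_cons, List.length_cons, ← ih, Function.comp]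
          have : ∀ c x y : X, c ≠ 0 → (if decide (y = x) = true then 1 else 0) +
              (if decide (y + c = x) = true then 1 else 0) +
              (if decide (y + c + c = x) = true then 1 else 0) = 1 := by decide
          have := this c x p.1 hc
          omega
      have k2 : ∀ u : List (X × X),
          ((u ++ sh c (u ++ sh c u)).map fun p => p.2 * (x - p.1)).sum = 0 := by
        intro u
        simp only [sh, List.map_append, List.sum_append, List.map_map]
        induction u with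
        | nil => rfl
        | cons p u ih =>
          simp only [List.map_cons, List.sum_cons, Function.comp] at ih ⊢
          linear_combination ih + three (p.2 * (x - p.1 - c))
      obtain ⟨e, he⟩ := A v (by rw [h1, k1]; exact hu)
      rw [k2, aP_zero, mul_one] at h3
      exact ⟨_, e, he, h3⟩
    exact ⟨e + 1, by rw [pow_succ', pow_mul, e3, he]⟩

def GG : Subgroup (Equiv.Perm (List X)) := Subgroup.closure {aP 1, tP 1}

lemma GG_ind {P : Equiv.Perm (List X) → Prop} (ha : ∀ c, P (aP c)) (ht : ∀ c, P (tP c))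
    (hm : ∀ g h, P g → P h → P (g * h)) (g : Equiv.Perm (List X)) (hg : g ∈ GG) : P g := by
  induction hg using Subgroup.closure_induction'' with
  | one => exact aP_zero ▸ ha 0
  | mem g hg => rcases hg with rfl | rfl; exacts [ha _, ht _]
  | inv_mem g hg => rcases hg with rfl | rfl; exacts [ha (-1), ht (-1)]
  | mul g h _ _ hg hh => exact hm g h hg hh

lemma GG_form : ∀ g ∈ GG, ∃ u c, g = pr u * aP c :=
  GG_ind (fun c => ⟨[], c, by simp [pr]⟩) (fun c => ⟨[(0, c)], 0, by simp [pr, tau, aP_zero]⟩) (by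
    rintro _ _ ⟨u, c, rfl⟩ ⟨v, d, rfl⟩
    exact ⟨_, _, el_mul _ _ _ _⟩)

lemma ar_len (c : X) (w : List X) : (ar c w).length = w.length := by cases w <;> rfl

lemma tt_len (c : X) (w : List X) : (tt c w).length = w.length := by
  induction w with
  | nil => rfl
  | cons x w ih => simp only [tt]; split_ifs <;> simp [ih, ar_len]

lemma GG_len : ∀ g ∈ GG, ∀ w, (g w).length = w.length :=
  GG_ind ar_len tt_len fun g h hg hh w => by rw [Equiv.Perm.mul_apply, hg, hh]

def level (n : ℕ) : GG →* Equiv.Perm {w : List X // w.length ≤ n} :=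
  MonoidHom.mk' (fun g => Equiv.Perm.subtypePerm (g : Equiv.Perm (List X))
    (fun w => by rw [GG_len _ g.2])) (fun _ _ => rfl)

/-- a word that ends with `n` zeros -/
def Z (n : ℕ) (w : List X) : Prop := ∃ v, w = v ++ List.replicate n 0

lemma Z_ar (c : X) (n : ℕ) (w : List X) (h : Z (n + 1) w) : Z n (ar c w) := by
  obtain ⟨_ | ⟨x, v⟩, rfl⟩ := h
  · exact ⟨[0 + c], rfl⟩
  · exact ⟨(x + c) :: (v ++ [0]), by simp [ar, List.replicate_succ]⟩

lemma tt_rep (c : X) (n : ℕ) : tt c (List.replicate n 0) = List.replicate n 0 := by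
  induction n with
  | zero => rfl
  | succ n ih => simp [List.replicate_succ, tt, ih]

lemma Z_tt (c : X) (n : ℕ) (w : List X) (h : Z (n + 1) w) : Z n (tt c w) := by
  obtain ⟨v, rfl⟩ := h
  induction v with
  | nil => exact ⟨[0], by rw [List.nil_append, tt_rep]; rfl⟩
  | cons x v ih =>
    simp only [List.cons_append, tt]
    split_ifs
    · obtain ⟨v', h⟩ := ih
      exact ⟨x :: v', by rw [h]; rfl⟩
    · obtain ⟨v', h⟩ := Z_ar (c * x) n _ ⟨v, rfl⟩
      exact ⟨x :: v', by rw [h]; rfl⟩

lemma GG_Z : ∀ g ∈ GG, ∃ N, ∀ n w, Z (n + N) w → Z n (g w) :=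
  GG_ind (fun c => ⟨1, Z_ar c⟩) (fun c => ⟨1, Z_tt c⟩) (by
    rintro g h ⟨N, hN⟩ ⟨M, hM⟩
    exact ⟨N + M, fun n w hw => hN _ _ (hM _ _ (by rwa [add_assoc]))⟩)

/-! ### The renormalisation -/

abbrev V := List X → X

def S (φ : V) : V := fun w => φ w + φ (ar 1 w) + φ (ar 2 w)
def D (φ : V) : V := fun w => φ (tt 1 w) - φ w
def L1 (φ : V) : V := fun w => φ w + S (D φ) w
def L2 (φ : V) : V := fun w => φ w + (D φ w - S (D φ) w)

def U1 (ψ : V) : V
  | [] => 0
  | x :: w => if x = 0 then ψ w else S (D ψ) w - D ψ w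

def U2 (ψ : V) : V
  | [] => 0
  | x :: w => if x = 0 then ψ w else D ψ (ar (-x) w) - S (D ψ) (ar (-x) w)

lemma X_cases (x : X) : x = 0 ∨ x = 1 ∨ x = 2 := by revert x; decide

lemma S_cons (φ : V) (x : X) (w : List X) :
    S φ (x :: w) = φ (0 :: w) + φ (1 :: w) + φ (2 :: w) := by
  rcases X_cases x with rfl | rfl | rfl
  · rfl
  · change φ (1 :: w) + φ (2 :: w) + φ (0 :: w) = _; ring
  · change φ (2 :: w) + φ (0 :: w) + φ (1 :: w) = _; ring

lemma S_ar (φ : V) (c : X) (w : List X) : S φ (ar c w) = S φ w := by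
  cases w with
  | nil => rfl
  | cons x w => rw [ar, S_cons, S_cons]

lemma D_cons (φ : V) (w : List X) : D φ (0 :: w) = φ (0 :: tt 1 w) - φ (0 :: w) ∧
    D φ (1 :: w) = φ (1 :: ar 1 w) - φ (1 :: w) ∧ D φ (2 :: w) = φ (2 :: ar 2 w) - φ (2 :: w) :=
  ⟨rfl, rfl, rfl⟩

lemma L1U1 (ψ : V) (x : X) (w : List X) : L1 (U1 ψ) (x :: w) = if x = 0 then L2 ψ w else 0 := by
  have h1 : ¬ (1 : X) = 0 := by decide
  have h2 : ¬ (2 : X) = 0 := by decide
  have e : D ψ w + D ψ (ar 1 w) + D ψ (ar 2 w) = S (D ψ) w := rfl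
  have e' : ψ (tt 1 w) - ψ w = D ψ w := rfl
  rw [L1, S_cons, (D_cons _ w).1, (D_cons _ w).2.1, (D_cons _ w).2.2]
  simp only [U1, L2, if_true, if_neg h1, if_neg h2, S_ar]
  split_ifs
  · linear_combination e' - e + three (D ψ w)
  · linear_combination e' - e + three (D ψ w)

lemma L2U2 (ψ : V) (x : X) (w : List X) : L2 (U2 ψ) (x :: w) = if x = 0 then L1 ψ w else 0 := by
  have h1 : ¬ (1 : X) = 0 := by decide
  have h2 : ¬ (2 : X) = 0 := by decide
  have n1 : (-1 : X) = 2 := rfl
  have n2 : (-2 : X) = 1 := rfl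
  have a1 : (1 + 2 : X) = 0 := rfl
  have a2 : (2 + 1 : X) = 0 := rfl
  have e : D ψ w + D ψ (ar 1 w) + D ψ (ar 2 w) = S (D ψ) w := rfl
  have e' : ψ (tt 1 w) - ψ w = D ψ w := rfl
  rw [L2, S_cons]
  rcases X_cases x with rfl | rfl | rfl <;>
    simp only [(D_cons _ w).1, (D_cons _ w).2.1, (D_cons _ w).2.2, U2, L1, if_true, if_neg h1,
      if_neg h2, S_ar, n1, n2, ar_add, a1, a2, ar_zero]
  · linear_combination e - three (D ψ w)
  · linear_combination e - e' - three (D ψ w)
  · linear_combination e - e' - three (D ψ w)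

def ph : ℕ → V
  | 0 => fun w => if w = [0, 0] ∨ w = [1, 0] then 1 else 0
  | n + 1 => U1 (U2 (ph n))

lemma ph_zero (n : ℕ) : ph n (List.replicate (2 * n + 2) 0) = 1 := by
  induction n with
  | zero => rfl
  | succ n ih =>
    rw [show 2 * (n + 1) + 2 = 2 * n + 2 + 1 + 1 by ring, List.replicate_succ, List.replicate_succ]
    simpa only [ph, U1, U2, if_true] using ih

lemma ph_L (n : ℕ) : ∀ v : List X, v.length = 2 * n → L1 (ph n) (v ++ [0, 0]) = 0 := by
  induction n with
  | zero =>
    intro v hv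
    rw [List.length_eq_zero_iff.1 hv]
    decide
  | succ n ih =>
    rintro (_ | ⟨x, _ | ⟨y, v⟩⟩) hv
    · simp at hv
    · simp only [List.length_singleton] at hv
      omega
    · simp only [List.length_cons] at hv
      rw [ph, List.cons_append, L1U1, List.cons_append, L2U2, ih v (by omega)]
      simp

noncomputable def rho : GG →* Module.End X V where
  toFun g := LinearMap.funLeft X X ((g⁻¹ : GG) : Equiv.Perm (List X))
  map_one' := rfl
  map_mul' g h := by rw [mul_inv_rev]; rfl

theorem result :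
    ¬ (∀ (p : ℕ), p.Prime → ∀ (G : Type) [Group G], Group.FG G → IsPGroup p G →
      (∀ g : G, g ≠ 1 → ∃ N : Subgroup G, N.Normal ∧ N.index ≠ 0 ∧ g ∉ N) →
      ∀ H : Subgroup G, IsCoatom H → H.Normal) := by
  intro H
  let a : GG := ⟨aP 1, Subgroup.subset_closure (by simp)⟩
  let t : GG := ⟨tP 1, Subgroup.subset_closure (by simp)⟩
  refine (fun ⟨h1, h2, h3, M, h4, h5⟩ => h5 (H 3 Nat.prime_three _ h1 h2 h3 M h4) : _ → False)
    (wreath (G := GG) ?_ ?_ ?_
      (1 + MonoidAlgebra.of X GG a⁻¹ + MonoidAlgebra.of X GG a) t⁻¹ ?_)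
  · exact (Group.fg_iff_subgroup_fg _).2 ((Subgroup.fg_iff _).2 ⟨_, rfl, by simp⟩)
  · rintro ⟨g, hg⟩
    obtain ⟨u, c, rfl⟩ := GG_form g hg
    obtain ⟨e, he⟩ := period _ u (Nat.lt_succ_self _) c
    exact ⟨e, Subtype.ext he⟩
  · intro T
    have : ∀ p : GG × GG, ∃ w : List X, (p.1 : Equiv.Perm (List X)) w = (p.2 : Equiv.Perm _) w →
        p.1 = p.2 := by
      intro p
      by_cases h : p.1 = p.2
      · exact ⟨[], fun _ => h⟩
      · by_contra hc
        push Not at hc
        exact h (Subtype.ext (Equiv.ext fun w => (hc w).1))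
    choose wit hwit using this
    have : Finite {w : List X // w.length ≤ (T ×ˢ T).sup fun p => (wit p).length} :=
      (List.finite_length_le X _).to_subtype
    refine ⟨_, inferInstance, inferInstance, level ((T ×ˢ T).sup fun p => (wit p).length), ?_⟩
    intro g hg h hh e
    apply hwit (g, h)
    exact congrArg Subtype.val (Equiv.congr_fun e ⟨wit (g, h),
      Finset.le_sup (f := fun p => (wit p).length) (Finset.mk_mem_product hg hh)⟩)
  · intro s hs
    let r := MonoidAlgebra.lift X (Module.End X V) GG rho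
    have k1 : ∀ s : R GG, ∃ N, ∀ n, N ≤ n → r s (L1 (ph n)) (List.replicate (2 * n + 2) 0) = 0 := by
      intro s
      induction s using MonoidAlgebra.induction_linear with
      | zero => exact ⟨0, fun n _ => by simp⟩
      | add s s' h h' =>
        obtain ⟨N, h⟩ := h
        obtain ⟨N', h'⟩ := h'
        exact ⟨N + N', fun n hn => by
          rw [map_add, LinearMap.add_apply, Pi.add_apply, h n (by omega), h' n (by omega), add_zero]⟩
      | single g c =>
        obtain ⟨N, hN⟩ := GG_Z _ (g⁻¹).2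
        refine ⟨N, fun n hn => ?_⟩
        obtain ⟨v, hv⟩ := hN 2 (List.replicate (2 * n + 2) 0)
          ⟨List.replicate (2 * n - N) 0, by rw [← List.replicate_add]; congr 1; omega⟩
        have hl := GG_len _ (g⁻¹).2 (List.replicate (2 * n + 2) 0)
        rw [hv] at hl
        simp only [List.length_append, List.length_replicate] at hl
        rw [MonoidAlgebra.lift_single]
        change c * L1 (ph n) (((g⁻¹ : GG) : Equiv.Perm (List X)) _) = 0
        rw [hv]
        exact mul_eq_zero_of_right _ (ph_L n v (by omega))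
    obtain ⟨N, hN⟩ := k1 s
    have k2 : r (1 + (1 + MonoidAlgebra.of X GG a⁻¹ + MonoidAlgebra.of X GG a) *
        (MonoidAlgebra.of X GG t⁻¹ - 1)) (ph N) = L1 (ph N) := by
      simp only [r, map_add, map_mul, map_sub, map_one, MonoidAlgebra.lift_of]
      rfl
    have k3 := hN N le_rfl
    rw [← k2, ← Module.End.mul_apply, ← map_mul, hs, map_one, Module.End.one_apply, ph_zero] at k3
    exact absurd k3 (by decide)

end Pool.Agent.S03422
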