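import Pool.Statements.S03452
import Pool.Agent.H.MP_ead43b_al.A

set_option autoImplicit false
open Pool Pool.MP_ead43b_al

namespace Pool.Agent.S03452

theorem result :
    ¬ (∀ (G : Type) [Group G],
      (∀ S : Finset G, IsSolvable (Subgroup.closure (S : Set G))) →
      ∀ A B : Subgroup G,
        (∀ a ∈ A, IsOfFinOrder a) →
        (∀ b ∈ B, IsOfFinOrder b) →
        (∀ g : G, ∃ a ∈ A, ∃ b ∈ B, g = a * b) →
        Monoid.IsTorsion G) := by
  open Pool.Agent.H.MP_1d00e6_al Pool.Agent.H.MP_7538d4_al in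
  intro h
  let ψ := H.MP_ead43b_al.ψ
  let X := H.MP_ead43b_al.sq
  have hi := jG_inj ψ fun n => H.MP_ead43b_al.φ_inj (X n)
  have hP : ∀ C : Subgroup (GLim ψ), IsPGroup 2 C → ∀ a ∈ C, IsOfFinOrder a := fun C hC a ha => by
    obtain ⟨k, hk⟩ := hC ⟨a, ha⟩
    exact isOfFinOrder_iff_pow_eq_one.2 ⟨_, by positivity, congrArg Subtype.val hk⟩
  have := h (GLim ψ) (lim_solv ψ) _ _
    (hP _ (uni_pgroup ψ _ (fun n => H.MP_ead43b_al.φ_B (X n)) fun n => (X n).stab_p _))
    (hP _ (uni_pgroup ψ _ (fun n => H.MP_ead43b_al.φ_A (X n)) fun n => (X n).stab_p _))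
    (fun g => by
      obtain ⟨n, hn⟩ := exG _ g
      obtain ⟨x, rfl⟩ := hn n le_rfl
      obtain ⟨k, hk⟩ := (Set.finite_range fun i => ((X n).act x (X n).u i).natAbs).bddAbove
      exact H.MP_ead43b_al.cover k n x fun i => by
        have := hk ⟨i, rfl⟩
        rw [Int.abs_eq_natAbs]
        simp only [X] at this
        omega)
    (jG ψ 0 (Wr.inl fun _ => Multiplicative.ofAdd 1))
  rw [(hi 0).isOfFinOrder_iff] at this
  obtain ⟨k, hk, e⟩ := isOfFinOrder_iff_pow_eq_one.1 this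
  rw [← map_pow] at e
  have := congrArg Multiplicative.toAdd (congrFun (congrArg Wr.f e) ())
  simp [Wr.inl] at this
  omega

end Pool.Agent.S03452
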