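import Pool.Statements.S03463
import Pool.Agent.H.MP_ec79b7_al.Main

set_option autoImplicit false
open Pool Pool.MP_ec79b7_al

namespace Pool.Agent.S03463

theorem result :
    ∀ (G : Type) [Group G] [Lattice G] [MulLeftMono G] [MulRightMono G],
      (∀ x y : G, ∃ n : ℕ, (fun z : G => z⁻¹ * y⁻¹ * z * y)^[n] x = 1) →
      ∀ g : G, g ≠ 1 →
        ∃ (H : Type) (_ : Group H) (_ : LinearOrder H) (_ : MulLeftMono H)
          (_ : MulRightMono H) (f : G →* H),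
          (∀ a b : G, f (a ⊔ b) = f a ⊔ f b) ∧
          (∀ a b : G, f (a ⊓ b) = f a ⊓ f b) ∧
          f g ≠ 1 := by
  intro G _ _ _ _ hE g hg
  have : 1 ≤ g ⊔ g⁻¹ := one_le_mabs g
  obtain ⟨N, hN, hu, ht, hc⟩ := H.MP_ec79b7_al.normal_value hE this fun h =>
    hg (le_antisymm (h ▸ le_sup_left) (inv_le_one'.1 (h ▸ le_sup_right)))
  obtain ⟨H, i1, i2, i3, i4, f, h1, h2, h3⟩ := H.MP_ec79b7_al.quot hN ht hc
  exact ⟨H, i1, i2, i3, i4, f, h1, h2, fun h => hu (hN.sup2 (h3 g h).1 (h3 g h).2)⟩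

end Pool.Agent.S03463
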