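import Pool.Statements.S03482
import Pool.Agent.H.MP_ed747a_al.B

set_option autoImplicit false
open Pool Pool.MP_ed747a_al

namespace Pool.Agent.S03482

open Pool.Agent.H.MP_ed747a_al Pool.Agent.Lib.H10 Equiv Filter Topology

def Tab (f : Perm X) (D : List (List Bool × List Bool)) : Prop :=
  (∀ w : X, ∃ p ∈ D, ∀ i : ℕ, ∀ h : i < p.1.length, w i = p.1.get ⟨i, h⟩) ∧ ∀ p ∈ D, ∀ w, f (cat p.1 w) = cat p.2 w

theorem tab_at {f : Perm X} {D} (h : Tab f D) (y : X) : ∃ p ∈ D, ∀ w, (∀ i < p.1.length, w i = y i) → cat p.1 (sh p.1.length w) = w :=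
  (h.1 y).imp fun _ a => ⟨a.1, fun w b => cat_sh (y := w) fun i d => by simp [cat, d, b i d, a.2 i d]⟩

theorem tab_eq {f g : Perm X} {D} (h : Tab f D) (k : Tab g D) : f = g := Perm.ext fun y => by
  obtain ⟨p, a, b⟩ := tab_at h y
  rw [← b y fun _ _ => rfl, h.2 p a, k.2 p a]

theorem tab_iff (f : Perm X) : f ∈ V ↔ ∃ D, Tab f D := by
  refine ⟨fun h => ?_, fun ⟨D, h⟩ y => ?_⟩
  · choose K M h using h
    obtain ⟨t, -, ht⟩ := isCompact_univ.elim_nhds_subcover (fun y => {w | ∀ i < K y, w i = y i}) fun y _ => cyl y (K y)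
    refine ⟨t.toList.map fun y => (List.ofFn fun i : Fin (K y) => y i, List.ofFn fun i : Fin (M y) => f y i), fun w => ?_, ?_⟩
    · obtain ⟨y, a, b⟩ := Set.mem_iUnion₂.1 (ht (Set.mem_univ w))
      exact ⟨_, List.mem_map_of_mem (Finset.mem_toList.2 a), fun i d => by simpa using b i (by simpa using d)⟩
    · simp only [List.forall_mem_map]
      intro y _ w
      have := h y (cat (List.ofFn fun i : Fin (K y) => y i) w) (by simp +contextual [cat])
      exact ext_at (M y) (fun i a => by simp [this.1 i a, cat, a]) fun i => by simp [this.2, cat]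
  · obtain ⟨p, a, b⟩ := tab_at h y
    refine ⟨p.1.length, p.2.length, fun w d => ?_⟩
    rw [← b w d, ← b y fun _ _ => rfl, h.2 p a, h.2 p a]
    exact ⟨fun i => cat_lt _ _, fun i => by rw [cat_add, cat_add]⟩

theorem result :
    ¬ (ComputablePred (fun S : List (List ((ℕ ⊕ List (List Bool × List Bool)) × Bool)) =>
      ∃ σ : ℕ → Equiv.Perm (ℕ → Bool),
      ∃ τ : List (List Bool × List Bool) → Equiv.Perm (ℕ → Bool),
        (∀ n : ℕ, ∃ D : List (List Bool × List Bool),
            (∀ w : ℕ → Bool, ∃ p ∈ D, ∀ i : ℕ, ∀ h : i < p.1.length, w i = p.1.get ⟨i, h⟩) ∧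
            ∀ p ∈ D, ∀ w : ℕ → Bool,
              σ n (fun k => if h : k < p.1.length then p.1.get ⟨k, h⟩ else w (k - p.1.length)) =
                (fun k => if h : k < p.2.length then p.2.get ⟨k, h⟩ else w (k - p.2.length))) ∧
        (∀ e ∈ S, ∀ x ∈ e, ∀ D : List (List Bool × List Bool), x.1 = Sum.inr D →
            (∀ w : ℕ → Bool, ∃ p ∈ D, ∀ i : ℕ, ∀ h : i < p.1.length, w i = p.1.get ⟨i, h⟩) ∧
            ∀ p ∈ D, ∀ w : ℕ → Bool,
              τ D (fun k => if h : k < p.1.length then p.1.get ⟨k, h⟩ else w (k - p.1.length)) =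
                (fun k => if h : k < p.2.length then p.2.get ⟨k, h⟩ else w (k - p.2.length))) ∧
        ∀ e ∈ S,
          (e.map (fun x => if x.2 then Sum.elim σ τ x.1 else (Sum.elim σ τ x.1)⁻¹)).prod = 1)) := by
  intro hc
  classical
  let k : Fin 5 → V := fun i => ⟨On (cs i) c, on_mem _ (e_mem true)⟩
  choose T hT using fun i => (tab_iff _).1 (k i).2
  let l : Bool → Fin 5 ⊕ ℕ → (ℕ ⊕ List (List Bool × List Bool)) × Bool := fun b x => (x.elim (.inr ∘ T) .inl, b)
  have pl : ∀ b, Primrec (l b) := fun b => .pair ((Primrec.sumCasesOn .id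
    (Primrec.sumInr.comp ((Primrec.dom_finite T).comp .snd)).to₂ (Primrec.sumInl.comp .snd).to₂).of_eq (by rintro (_ | _) <;> rfl)) (.const b)
  have pr : Primrec fun S : List (Unit × List (Fin 5 ⊕ ℕ) × List (Fin 5 ⊕ ℕ)) =>
      S.map fun e => e.2.1.map (l true) ++ (e.2.2.map (l false)).reverse :=
    .list_map .id (Primrec.list_append.comp (.list_map (Primrec.fst.comp (.comp .snd .snd)) ((pl _).comp .snd).to₂)
      (Primrec.list_reverse.comp (.list_map (Primrec.snd.comp (.comp .snd .snd)) ((pl _).comp .snd).to₂))).to₂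
  obtain ⟨φ, hφ, e⟩ := ComputablePred.computable_iff.1 hc
  refine und (k := k) le_rfl (fun _ => rfl) (ComputablePred.computable_iff.2 ⟨_, hφ.comp pr.to_comp, funext fun S => ?_⟩)
  rw [← congrFun e]
  have z : ∀ (σ : ℕ → V) (τ : List (List Bool × List Bool) → Perm X) (u w : List (Fin 5 ⊕ ℕ)), (∀ i, .inl i ∈ u ++ w → τ (T i) = k i) →
      (((u.map (l true) ++ (w.map (l false)).reverse).map fun x => if x.2 then Sum.elim (fun n => (σ n).1) τ x.1 else
        (Sum.elim (fun n => (σ n).1) τ x.1)⁻¹).prod = 1 ↔ ev k σ u = ev k σ w) := fun σ τ u w a => by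
    have : ∀ x ∈ u ++ w, Sum.elim (fun n => (σ n).1) τ (x.elim (.inr ∘ T) .inl) = V.subtype (Sum.elim k σ x) := by
      rintro (i | i) b
      exacts [a i b, rfl]
    rw [← V.subtype_injective.eq_iff, ev, ev, map_list_prod, map_list_prod, iff_comm, ← mul_inv_eq_one, iff_comm, List.prod_inv_reverse, List.map_append, List.prod_append,
      List.map_reverse, List.map_map, List.map_map, List.map_map, List.map_map, List.map_map]
    refine Eq.to_iff (congrArg (· = 1) (congrArg₂ (· * ·) (congrArg _ (List.map_congr_left fun x b => this x (by simp [b])))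
      (congrArg (·.reverse.prod) (List.map_congr_left fun x b => congrArg (·⁻¹) (this x (by simp [b]))))))
  refine propext ⟨fun ⟨σ, h⟩ => ?_, fun ⟨σ, τ, h1, h2, h3⟩ => ⟨fun n => ⟨σ n, (tab_iff _).2 (h1 n)⟩, fun p a => ?_⟩⟩
  · have ht : ∀ i, Tab (Classical.epsilon (Tab · (T i))) (T i) := fun i => Classical.epsilon_spec (p := (Tab · (T i))) ⟨_, hT i⟩
    refine ⟨fun n => σ n, fun D => Classical.epsilon (Tab · D), fun n => (tab_iff _).1 (σ n).2, ?_, ?_⟩ <;> simp only [List.forall_mem_map]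
    · intro p _ x b D d
      obtain ⟨i, rfl⟩ : ∃ i, T i = D := by
        simp only [List.mem_append, List.mem_reverse, List.mem_map] at b
        rcases b with ⟨i | i, -, rfl⟩ | ⟨i | i, -, rfl⟩ <;> simp [l] at d <;> exact ⟨i, d⟩
      exact ht i
    · exact fun p a => (z σ _ _ _ fun i _ => tab_eq (ht i) (hT i)).2 (h p a)
  · refine (z _ τ _ _ fun i b => ?_).1 (h3 _ (List.mem_map_of_mem a))
    rcases List.mem_append.1 b with b | b
    · exact tab_eq (h2 _ (List.mem_map_of_mem a) (l true (.inl i)) (by simp [List.mem_map_of_mem b]) _ rfl) (hT i)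
    · exact tab_eq (h2 _ (List.mem_map_of_mem a) (l false (.inl i)) (by simp [List.mem_map_of_mem b]) _ rfl) (hT i)

end Pool.Agent.S03482
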