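import Pool.Statements.S03501
import Pool.Agent.H.MP_f0391a_al.E

set_option autoImplicit false
open Pool Pool.MP_f0391a_al

namespace Pool.Agent.S03501

theorem result :
  ∀ K : Ideal (MvPowerSeries ℕ ℚ),
    K = Ideal.span {f : MvPowerSeries ℕ ℚ |
      ∀ s : ℕ →₀ ℕ, (∀ i, s i ≤ 1) → MvPowerSeries.coeff s f = 0} →
  ∀ T : Set (MvPowerSeries ℕ ℚ),
    T = {f : MvPowerSeries ℕ ℚ |
      (∀ σ : Equiv.Perm ℕ,
        (∃ S : Set ℕ, ∀ i j : ℕ, i ≠ j →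
          ((Nat.testBit (σ j) (σ i) = true ∨ Nat.testBit (σ i) (σ j) = true) ↔
            ((Nat.testBit j i = true ∨ Nat.testBit i j = true) ↔ (i ∈ S ↔ j ∈ S)))) →
        ∀ s : ℕ →₀ ℕ,
          MvPowerSeries.coeff (Finsupp.equivMapDomain σ s) f = MvPowerSeries.coeff s f) ∧
      ∃ N : ℕ, ∀ s : ℕ →₀ ℕ, N ≤ s.sum (fun _ e => e) → MvPowerSeries.coeff s f = 0} →
  ∃ (ι : Type) (x : ι → MvPowerSeries ℕ ℚ ⧸ K),
    (∀ i, ∃ d : ℕ, ∃ f ∈ T, Ideal.Quotient.mk K f = x i ∧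
        ∀ s : ℕ →₀ ℕ, MvPowerSeries.coeff s f ≠ 0 → s.sum (fun _ e => e) = d) ∧
    AlgebraicIndependent ℚ x ∧
    Algebra.adjoin ℚ (Set.range x) = Algebra.adjoin ℚ (Ideal.Quotient.mk K '' T) := by
  intro K hK T hT
  have hK' : K = H.MP_f0391a_al.KI := hK.trans (Ideal.span_eq H.MP_f0391a_al.KI)
  have hT' : T = H.MP_f0391a_al.TT := hT
  subst hK' hT'
  obtain ⟨ι, x, h1, h2, h3⟩ := H.MP_f0391a_al.main
  refine ⟨ι, x, fun i => ?_, h2, le_antisymm ?_ ?_⟩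
  · obtain ⟨d, hd⟩ := h1 i
    exact ⟨d, H.MP_f0391a_al.lift_H hd⟩
  · refine Algebra.adjoin_mono ?_
    rintro _ ⟨i, rfl⟩
    obtain ⟨d, hd⟩ := h1 i
    obtain ⟨f, hf, h4, _⟩ := H.MP_f0391a_al.lift_H hd
    exact ⟨f, hf, h4⟩
  · refine Algebra.adjoin_le ?_
    rintro _ ⟨f, hf, rfl⟩
    exact H.MP_f0391a_al.mk_T hf _ h3

end Pool.Agent.S03501
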