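import Pool.Statements.S03516
import Pool.Agent.H.MP_f1c158_al.Hopf

set_option autoImplicit false
open Pool Pool.MP_f1c158_al

namespace Pool.Agent.S03516

open Pool.Agent.H.MP_f1c158_al

theorem result :
    ¬ (∀ (k : Type) [Field k] (H : Type) [Ring H] [HopfAlgebra k H]
    (R : Type) [Ring R] [Algebra k R] (act : H →ₐ[k] Module.End k R),
    (∀ (h : H) (x y : R), act h (x * y) =
        TensorProduct.lift ((LinearMap.mul k R).compl₁₂
          (act.toLinearMap.flip x) (act.toLinearMap.flip y))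
          (Coalgebra.comul (R := k) h)) →
    (∀ h : H, act h 1 = algebraMap k R (Coalgebra.counit (R := k) h)) →
    ∀ (n N : ℕ) (a : Fin N → Fin (n + 1) → R) (g : Fin N → Fin n → H)
      (σ : Fin N → Equiv.Perm (Fin n)),
    (∀ r : Fin n → R, ∑ j, a j 0 *
        (List.ofFn fun i : Fin n => act (g j i) (r (σ j i)) * a j i.succ).prod = 0) →
    (∃ (M : ℕ) (u w : Fin M → R) (τ : Fin M → Equiv.Perm (Fin n))
        (s : Fin M → Fin n → R),
      ∑ m, u m * (∑ j ∈ Finset.univ.filter (fun j => σ j = τ m), a j 0 *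
        (List.ofFn fun i : Fin n => act (g j i) (s m (σ j i)) * a j i.succ).prod)
        * w m = 1) →
    ∃ (m : ℕ) (p : FreeAlgebra k (Fin m)), p ≠ 0 ∧
      ∀ r : Fin m → R, FreeAlgebra.lift k r p = 0) := by
  intro h
  obtain ⟨m, p, hp, h⟩ := h ℚ H T act act_mul act_one 2 2 ![![1, 1, 1], ![-1, 1, 1]]
    (fun _ _ => g 0 2 2) ![1, Equiv.swap 0 1] (fun r => by
      obtain ⟨c, hc⟩ := cen (r 0)
      obtain ⟨d, hd⟩ := cen (r 1)
      simp [act_g, hc 2 2 le_rfl le_rfl, hd 2 2 le_rfl le_rfl, ← map_mul, mul_comm])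
    ⟨1, fun _ => 1, fun _ => 1, fun _ => 1, fun _ _ => 1, by
      have : ¬ Equiv.swap (0 : Fin 2) 1 = 1 := by decide
      simp [act_g, Finset.sum_filter, this]⟩
  exact hp (notPI m p h)

end Pool.Agent.S03516
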