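import Pool.Statements.S03530
import Pool.Agent.H.MP_f345de_al.A

set_option autoImplicit false
open Pool Pool.MP_f345de_al Pool.Agent.H.MP_f345de_al Subgroup commutatorElement

namespace Pool.Agent.S03530

def b0 (x : ℚ) : ℚ := ⌊x⌋ + max ((x - ⌊x⌋) / 2 + 1 / 2) (max (x - ⌊x⌋ + 1 / 4) (2 * (x - ⌊x⌋) - 1 / 2))
lemma hb (n : ℤ) {x : ℚ} (h1 : n ≤ x) (h2 : x < n + 1) :
    b0 x = n + max ((x - n) / 2 + 1 / 2) (max (x - n + 1 / 4) (2 * (x - n) - 1 / 2)) := by
  rw [b0, Int.floor_eq_iff.2 ⟨h1, h2⟩]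
lemma b1 (n : ℤ) {x : ℚ} (h1 : n ≤ x) (h2 : x ≤ n + 1 / 2) : b0 x = (x + n + 1) / 2 := by
  rw [hb n h1 (by linarith), max_eq_left (max_le (by linarith) (by linarith))]; ring
lemma b2 (n : ℤ) {x : ℚ} (h1 : n + 1 / 2 ≤ x) (h2 : x ≤ n + 3 / 4) : b0 x = x + 1 / 4 := by
  rw [hb n (by linarith) (by linarith), max_eq_left (a := x - n + 1 / 4) (by linarith), max_eq_right (by linarith)]; ring
lemma b3 (n : ℤ) {x : ℚ} (h1 : n + 3 / 4 ≤ x) (h2 : x ≤ n + 1) : b0 x = 2 * x - n - 1 / 2 := by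
  rcases h2.eq_or_lt with rfl | h2
  · rw [b1 (n + 1) (by simp) (by simp)]; push_cast; ring
  rw [hb n (by linarith) h2, max_eq_right (a := x - n + 1 / 4) (by linarith), max_eq_right (by linarith)]; ring
lemma bm : StrictMono b0 := fun x y h => by
  have x1 := Int.floor_le x
  have x2 := Int.lt_floor_add_one x
  have y1 := Int.floor_le y
  rcases (Int.floor_mono h.le).eq_or_lt with e | e
  · rw [b0, b0, e]
    exact add_lt_add_right (max_lt_max (by linarith) (max_lt_max (by linarith) (by linarith))) _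
  have : (⌊x⌋ : ℚ) + 1 ≤ ⌊y⌋ := by exact_mod_cast e
  rw [b0, b0]
  have h1 := le_max_left ((y - ⌊y⌋) / 2 + 1 / 2) (max (y - ⌊y⌋ + 1 / 4) (2 * (y - ⌊y⌋) - 1 / 2))
  have h2 : max ((x - ⌊x⌋) / 2 + 1 / 2) (max (x - ⌊x⌋ + 1 / 4) (2 * (x - ⌊x⌋) - 1 / 2)) < 3 / 2 :=
    max_lt (by linarith) (max_lt (by linarith) (by linarith))
  linarith
lemma bb (x : ℚ) : b0 (b0 (b0 x)) = x + 1 := by
  have x1 := Int.floor_le x
  have x2 := Int.lt_floor_add_one x
  generalize ⌊x⌋ = n at x1 x2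
  rcases le_total x (n + 1 / 2) with h | h
  · rw [b1 n x1 h, b2 n (x := _ / 2) (by linarith) (by linarith), b3 n (by linarith) (by linarith)]; ring
  rcases le_total x (n + 3 / 4) with k | k
  · rw [b2 n h k, b3 n (x := _ + _) (by linarith) (by linarith), b1 (n + 1) (by push_cast; linarith)
      (by push_cast; linarith)]; push_cast; ring
  · rw [b3 n k x2.le, b1 (n + 1) (x := _ - _) (by push_cast; linarith) (by push_cast; linarith),
      b2 (n + 1) (by push_cast; linarith) (by push_cast; linarith)]; push_cast; ring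
def g0 (x : ℚ) : ℚ := b0 (x + 1 / 4)
lemma g1 (n : ℤ) {x : ℚ} (h1 : n ≤ x) (h2 : x ≤ n + 1 / 4) : g0 x = (x + n) / 2 + 5 / 8 := by
  rw [g0, b1 n (by linarith) (by linarith)]; ring
lemma g2 (n : ℤ) {x : ℚ} (h1 : n + 1 / 4 ≤ x) (h2 : x ≤ n + 1 / 2) : g0 x = x + 1 / 2 := by
  rw [g0, b2 n (by linarith) (by linarith)]; ring
lemma g3 (n : ℤ) {x : ℚ} (h1 : n + 1 / 2 ≤ x) (h2 : x ≤ n + 3 / 4) : g0 x = 2 * x - n := by
  rw [g0, b3 n (by linarith) (by linarith)]; ring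
lemma g4 (n : ℤ) {x : ℚ} (h1 : n + 3 / 4 ≤ x) (h2 : x ≤ n + 1) : g0 x = (x + n) / 2 + 9 / 8 := by
  rw [g0, b1 (n + 1) (by push_cast; linarith) (by push_cast; linarith)]; push_cast; ring
lemma gg (x : ℚ) : g0 (g0 (g0 (g0 (g0 x)))) = x + 3 := by
  have x1 := Int.floor_le x
  have x2 := (Int.lt_floor_add_one x).le
  generalize ⌊x⌋ = n at x1 x2
  rcases le_total x (n + 1 / 4) with h1 | h1
  · rw [g1 n x1 h1, g3 n (x := _ + _), g2 (n + 1) (x := _ - _), g4 (n + 1) (x := _ + _), g3 (n + 2)] <;>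
      push_cast <;> linarith
  rcases le_total x (n + 1 / 2) with h2 | h2
  · rw [g2 n h1 h2, g4 n (x := _ + _), g3 (n + 1) (x := _ + _), g1 (n + 2) (x := _ - _), g3 (n + 2)] <;>
      push_cast <;> linarith
  rcases le_total x (n + 5 / 8) with h3 | h3
  · rw [g3 n h2, g1 (n + 1) (x := _ - _), g3 (n + 1) (x := _ + _), g2 (n + 2) (x := _ - _), g4 (n + 2)] <;>
      push_cast <;> linarith
  rcases le_total x (n + 3 / 4) with h4 | h4
  · rw [g3 n h2, g2 (n + 1) (x := _ - _), g4 (n + 1) (x := _ + _), g3 (n + 2) (x := _ + _), g1 (n + 3)] <;>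
      push_cast <;> linarith
  · rw [g4 n h4 x2, g3 (n + 1) (x := _ + _), g1 (n + 2) (x := _ - _), g3 (n + 2) (x := _ + _), g2 (n + 3)] <;>
      push_cast <;> linarith

def β : ℚ ≃o ℚ := bm.orderIsoOfRightInverse b0 (fun x => b0 (b0 (x - 1))) fun x => by rw [bb]; ring
def α : ℚ ≃o ℚ := OrderIso.addRight (1 / 4)
def φ : FreeGroup Bool →* (ℚ ≃o ℚ) := FreeGroup.lift fun b => cond b α β

theorem result :
    ¬ (∀ (α : Type) (H : Subgroup (FreeGroup α)) [H.Normal],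
      (∃ o : LinearOrder (FreeGroup α ⧸ H),
          ∀ a b c : FreeGroup α ⧸ H, a ≤ b → a * c ≤ b * c) →
      ∃ o : LinearOrder (FreeGroup α ⧸ ⁅H, H⁆),
        (∀ a b c : FreeGroup α ⧸ ⁅H, H⁆, a ≤ b → c * a ≤ c * b) ∧
        (∀ a b c : FreeGroup α ⧸ ⁅H, H⁆, a ≤ b → a * c ≤ b * c)) := by
  intro h
  set ι := QuotientGroup.kerLift φ
  obtain ⟨q, hq⟩ := exists_surjective_nat ℚ
  let f : FreeGroup Bool ⧸ φ.ker → Lex (ℕ → ℚ) := fun a => toLex fun n => ι a⁻¹ (q n)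
  have fi : Function.Injective f := fun a b e => inv_injective (QuotientGroup.kerLift_injective φ
    (OrderIso.ext (funext fun x => (hq x).elim fun n k => k ▸ congrFun e n)))
  obtain ⟨o, o1, o2⟩ := h Bool φ.ker ⟨.lift' f fi, fun a b c (k : f a ≤ f b) => show f _ ≤ f _ from by
    rcases k.eq_or_lt with e | ⟨i, i1, i2⟩
    · rw [fi e]
    exact le_of_lt ⟨i, fun j hj => by simpa [f] using i1 j hj, by simpa [f] using i2⟩⟩
  have : MulLeftMono (FreeGroup Bool ⧸ ⁅φ.ker, φ.ker⁆) := ⟨fun c a b => o1 a b c⟩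
  have : MulRightMono (FreeGroup Bool ⧸ ⁅φ.ker, φ.ker⁆) := ⟨fun c a b => o2 a b c⟩
  set π := QuotientGroup.mk' ⁅φ.ker, φ.ker⁆
  set x := FreeGroup.of true
  set y := FreeGroup.of false
  have hx : φ x = α := FreeGroup.lift_apply_of
  have hy : φ y = β := FreeGroup.lift_apply_of
  have hu : x ^ 4 * (y ^ 3)⁻¹ ∈ φ.ker := by
    rw [MonoidHom.mem_ker, map_mul, map_inv, mul_inv_eq_one, map_pow, map_pow, hx, hy]
    ext t; simp only [pow_succ, pow_zero, one_mul]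
    show t + 1 / 4 + 1 / 4 + 1 / 4 + 1 / 4 = b0 (b0 (b0 t)); rw [bb]; ring
  have hv : (y * x) ^ 5 * (x ^ 12)⁻¹ ∈ φ.ker := by
    rw [MonoidHom.mem_ker, map_mul, map_inv, mul_inv_eq_one, map_pow, map_pow, map_mul, hx, hy]
    ext t; simp only [pow_succ, pow_zero, one_mul]
    show g0 (g0 (g0 (g0 (g0 t)))) = t + 1 / 4 + 1 / 4 + 1 / 4 + 1 / 4 + 1 / 4 + 1 / 4 + 1 / 4 + 1 / 4 + 1 / 4 +
      1 / 4 + 1 / 4 + 1 / 4
    rw [gg]; ring
  have hc : ∀ a : FreeGroup Bool, Abelianization.of a = 1 → π a ∈ commutator _ := fun a ha => by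
    have := mem_map_of_mem π ((QuotientGroup.eq_one_iff a).1 ha)
    rw [_root_.commutator, map_commutator] at this
    exact commutator_mono le_top le_top this
  have hg : closure {π x, π y} = ⊤ := by
    rw [← Set.image_pair, ← MonoidHom.map_closure, show ({x, y} : Set _) = Set.range FreeGroup.of by
      ext; simp [x, y, eq_comm, or_comm], FreeGroup.closure_range_of]
    exact map_top_of_surjective _ (QuotientGroup.mk'_surjective _)
  have := (inferInstance : φ.ker.Normal).map π (QuotientGroup.mk'_surjective _)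
  obtain ⟨⟨S, s1, s2⟩, s3⟩ := key (φ.ker.map π) (by
      rintro _ ⟨a, ha, rfl⟩ _ ⟨b, hb, rfl⟩
      rw [← commutatorElement_eq_one_iff_commute, ← map_commutatorElement]
      exact (QuotientGroup.eq_one_iff _).2 (commutator_mem_commutator ha hb))
    (by simpa only [← map_mul, mul_inv_cancel_right] using hg)
    (hc (x * ((x ^ 4 * (y ^ 3)⁻¹) ^ 5 * ((y * x) ^ 5 * (x ^ 12)⁻¹) ^ 3)) (by
      apply Additive.ofMul.injective; simp; abel))
    (hc (y * ((x ^ 4 * (y ^ 3)⁻¹) ^ 7 * ((y * x) ^ 5 * (x ^ 12)⁻¹) ^ 4)) (by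
      apply Additive.ofMul.injective; simp; abel))
    (mem_map_of_mem π (inv_mem (mul_mem (pow_mem hu 5) (pow_mem hv 3))))
    (mem_map_of_mem π (inv_mem (mul_mem (pow_mem hu 7) (pow_mem hv 4))))
  have e : π ⁅x, y⁆ ∈ (⊥ : Subgroup _) := by
    rw [← noPerf s1 (s2 ▸ s3), s2, map_commutatorElement]
    exact commutator_mem_commutator (mem_top _) (mem_top _)
  have e : φ ⁅x, y⁆ = 1 := commutator_le_left _ _ ((QuotientGroup.eq_one_iff _).1 e)
  rw [map_commutatorElement, commutatorElement_eq_one_iff_mul_comm, hx, hy] at e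
  have e : b0 0 + 1 / 4 = g0 0 := congrArg (fun f : ℚ ≃o ℚ => f 0) e
  rw [b1 0 (by simp) (by simp), g1 0 (by simp) (by simp)] at e
  norm_num at e

end Pool.Agent.S03530
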