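import Pool.Statements.S03533
import Pool.Agent.H.MP_36a0ac_al.Main

set_option autoImplicit false
open Pool Pool.MP_f38670_al

namespace Pool.Agent.S03533

theorem result :
    ∃ (K : Type) (_ : Field K) (L : Type) (_ : LieRing L) (_ : LieAlgebra K L),
      ¬ FiniteDimensional K L ∧
        ∀ H : LieSubalgebra K L, H ≠ ⊤ → FiniteDimensional K H := by
  exact ⟨H.MP_36a0ac_al.K, inferInstance, H.MP_36a0ac_al.L, inferInstance, inferInstance,
    H.MP_36a0ac_al.not_fd, H.MP_36a0ac_al.proper_fd⟩

end Pool.Agent.S03533
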