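import Pool.Statements.S03547

set_option autoImplicit false
universe u
open Pool Pool.MP_f49b6d_al

namespace Pool.Agent.S03547

open Cardinal

lemma act {G : Type u} [Group G] {I : Type*} [LinearOrder I] [WellFoundedLT I]
    (H K : I → Subgroup G) (hHK : ∀ i, H i ≤ K i) (hKH : ∀ i j, i < j → K i ≤ H j) :
    ∃ (A : I → G → Prop) (l : G → ℕ), (∀ i g, ∀ e ∈ H i, A i g → A i (g * e)) ∧
      (∀ i g, ∀ e ∈ K i, ¬ A i g → ¬ A i (g * e) → e ∈ H i) ∧
      ∀ g (T : Finset I), (∀ i ∈ T, A i g) → T.card ≤ l g := by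
  classical
  obtain ⟨_, wf⟩ := exists_wellFoundedLT (α := G)
  have hne : ∀ i g, ({h | g⁻¹ * h ∈ K i} : Set G).Nonempty := fun i g => ⟨g, by simp⟩
  let m : I → G → G := fun i g => wf.wf.min {h | g⁻¹ * h ∈ K i} (hne i g)
  have hm : ∀ i g, g⁻¹ * m i g ∈ K i := fun i g => wf.wf.min_mem _ (hne i g)
  have hmin : ∀ i g h, g⁻¹ * h ∈ K i → m i g ≤ h := fun i g h hh =>
    not_lt.1 (wf.wf.not_lt_min {h | g⁻¹ * h ∈ K i} hh)
  have hinv : ∀ i g e, e ∈ K i → m i (g * e) = m i g := by
    intro i g e he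
    apply le_antisymm
    · apply hmin
      have := (K i).mul_mem ((K i).inv_mem he) (hm i g)
      simpa [mul_assoc] using this
    · apply hmin
      have := (K i).mul_mem he (hm i (g * e))
      simpa [mul_assoc] using this
  refine ⟨fun i g => g⁻¹ * m i g ∉ H i, fun g => {i | g⁻¹ * m i g ∉ H i}.ncard, ?_, ?_, ?_⟩
  · intro i g e he h
    rwa [hinv _ g e (hHK _ he), mul_inv_rev, mul_assoc,
      Subgroup.mul_mem_cancel_left _ ((H _).inv_mem he)]
  · intro i g e he h1 h2
    push Not at h1 h2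
    rw [hinv _ g _ he, mul_inv_rev, mul_assoc, Subgroup.mul_mem_cancel_right _ h1] at h2
    simpa using (H _).inv_mem h2
  · intro g T hT
    have : {i | g⁻¹ * m i g ∉ H i}.Finite := by
      let T := {i | g⁻¹ * m i g ∉ H i}
      have hT : StrictAnti fun i : T => m i g := by
        intro i j hij
        have h1 := hKH i j hij (hm i g)
        refine lt_of_le_of_ne (hmin _ _ _ (hHK _ h1)) fun h => j.2 ?_
        have h' : m j g = m i g := h
        rw [h']
        exact h1
      have : WellFoundedGT T := hT.wellFoundedGT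
      exact Finite.of_wellFoundedLT_wellFoundedGT T
    rw [← Set.ncard_coe_finset]
    exact Set.ncard_le_ncard (fun i hi => hT i hi) this

lemma card_closure {G : Type u} [Group G] (s : Set G) :
    #(Subgroup.closure s) ≤ max #s ℵ₀ := by
  rcases s.eq_empty_or_nonempty with rfl | h
  · rw [Subgroup.closure_empty]
    exact le_max_of_le_right (lt_aleph0_of_finite _).le
  have := h.to_subtype
  rw [FreeGroup.closure_eq_range, ← mk_freeGroup]
  exact mk_range_le

def Good {G : Type u} [Group G] (c : G → ℕ) : Prop :=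
  ∀ F : Set G, #F < #G → ∀ n, ∃ K : Set G, #K < #G ∧ ∀ g, ∃ k ∈ K, ∀ f ∈ F, c (f * (k * g)) ≠ n

lemma good_count (G : Type u) [Group G] (hG : #G = ℵ₀) : ∃ c : G → ℕ, Good c := by
  have : Countable G := mk_le_aleph0_iff.1 hG.le
  have : Infinite G := infinite_iff.2 hG.ge
  obtain ⟨c, hc⟩ := exists_injective_nat G
  refine ⟨c, fun F hF n => ?_⟩
  rw [hG] at hF ⊢
  have hF' : F.Finite := lt_aleph0_iff_set_finite.1 hF
  obtain ⟨k, -, hk⟩ := Set.infinite_univ.exists_notMem_finite
    (hF'.image2 (fun a b => a⁻¹ * b) hF')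
  refine ⟨{1, k}, lt_aleph0_iff_set_finite.2 (Set.toFinite _), fun g => ?_⟩
  by_contra h
  push Not at h
  obtain ⟨a, ha, h1⟩ := h 1 (by simp)
  obtain ⟨b, hb, h2⟩ := h k (by simp)
  have e := hc (h1.trans h2.symm)
  rw [one_mul, ← mul_assoc] at e
  exact hk ⟨b, hb, a, ha, by simp [mul_right_cancel e]⟩

lemma good_reg (G : Type u) [Group G] [LinearOrder G] [WellFoundedLT G] (hG : ℵ₀ < #G)
    (ho : ord #G = Ordinal.type (α := G) (· < ·))
    (hb : ∀ F : Set G, #F < #G → ∃ a, ∀ f ∈ F, f < a) : ∃ c : G → ℕ, Good c := by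
  classical
  obtain ⟨A, l, h1, h2, h3⟩ := act (fun a : G => Subgroup.closure (Set.Iio a))
    (fun a => Subgroup.closure (Set.Iic a)) (fun a => Subgroup.closure_mono Set.Iio_subset_Iic_self)
    (fun a b h => Subgroup.closure_mono (Set.Iic_subset_Iio.2 h))
  have hfin : ∀ F : Set G, F.Finite → #F < #G := fun F hF =>
    (lt_aleph0_iff_set_finite.2 hF).trans hG
  have key : ∀ n (a : G), ∃ K : Set G, K.Finite ∧ ∀ g, ∃ k ∈ K, ∃ T : Finset G, T.card = n ∧
      ∀ i ∈ T, a ≤ i ∧ A i (g * k) := by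
    intro n
    induction n with
    | zero => exact fun a => ⟨{1}, Set.toFinite _, fun g => ⟨1, rfl, ∅, rfl, by simp⟩⟩
    | succ n ih =>
      intro a
      have hne : ({x | x ∉ Subgroup.closure (Set.Iio a)} : Set G).Nonempty := by
        by_contra hc
        have : Subgroup.closure (Set.Iio a) = ⊤ := eq_top_iff.2 fun x _ => by
          by_contra hx
          exact hc ⟨x, hx⟩
        have h := card_closure (Set.Iio a)
        rw [this, mk_congr Subgroup.topEquiv.toEquiv] at h
        exact absurd h (not_le.2 (max_lt (mk_Iio_lt a ho) hG))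
      let x := wellFounded_lt.min _ hne
      have hx : x ∉ Subgroup.closure (Set.Iio a) := wellFounded_lt.min_mem _ hne
      have hax : a ≤ x := not_lt.1 fun h => hx (Subgroup.subset_closure h)
      have hxx : x ∉ Subgroup.closure (Set.Iio x) := fun h => hx ((Subgroup.closure_le _).2
        (fun y hy => by
          by_contra hc
          exact wellFounded_lt.not_lt_min {x | x ∉ Subgroup.closure (Set.Iio a)} hc hy) h)
      obtain ⟨b, hb⟩ := hb {x} (hfin _ (Set.toFinite _))
      have hxb := hb x rfl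
      obtain ⟨K, hK, h⟩ := ih b
      refine ⟨K ∪ (fun k => k * x) '' K, hK.union (hK.image _), fun g => ?_⟩
      obtain ⟨k, hk, T, hT, h⟩ := h g
      have hxT : x ∉ T := fun h' => absurd (h x h').1 (not_le.2 hxb)
      by_cases hA : A x (g * k)
      · refine ⟨k, Or.inl hk, insert x T, by rw [Finset.card_insert_of_notMem hxT, hT], ?_⟩
        intro i hi
        rcases Finset.mem_insert.1 hi with rfl | hi
        · exact ⟨hax, hA⟩
        · exact ⟨hax.trans (hxb.le.trans (h i hi).1), (h i hi).2⟩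
      · refine ⟨k * x, Or.inr ⟨k, hk, rfl⟩, insert x T,
          by rw [Finset.card_insert_of_notMem hxT, hT], ?_⟩
        intro i hi
        rw [← mul_assoc]
        rcases Finset.mem_insert.1 hi with rfl | hi
        · refine ⟨hax, ?_⟩
          by_contra hc
          exact hxx (h2 _ _ _ (Subgroup.subset_closure (Set.mem_Iic.2 le_rfl)) hA hc)
        · exact ⟨hax.trans (hxb.le.trans (h i hi).1),
            h1 _ _ _ (Subgroup.subset_closure (hxb.trans_le (h i hi).1)) (h i hi).2⟩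
  refine ⟨fun g => l g⁻¹, fun F hF n => ?_⟩
  obtain ⟨a, ha⟩ := hb F hF
  obtain ⟨K, hK, h⟩ := key (n + 1) a
  refine ⟨(fun k => k⁻¹) '' K, hfin _ (hK.image _), fun g => ?_⟩
  obtain ⟨k, hk, T, hT, h⟩ := h g⁻¹
  refine ⟨k⁻¹, ⟨k, hk, rfl⟩, fun f hf => ?_⟩
  have := h3 (g⁻¹ * k * f⁻¹) T fun i hi => h1 _ _ _
    (Subgroup.inv_mem _ (Subgroup.subset_closure ((ha f hf).trans_le (h i hi).1))) (h i hi).2
  simp only [mul_inv_rev, inv_inv]
  omega

lemma good_sing (G : Type u) [Group G] [LinearOrder G] [WellFoundedLT G] (hG : ℵ₀ < #G)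
    (ho : ord #G = Ordinal.type (α := G) (· < ·))
    (S : Set G) (hS : #S < #G) (hc : ∀ a, ∃ s ∈ S, a ≤ s) : ∃ c : G → ℕ, Good c := by
  classical
  have hlim : ∀ c < #G, Order.succ c < #G := by
    intro c hc'
    by_contra h
    have h1 : ∀ d < #G, d ≤ c := fun d hd => Order.lt_succ_iff.1 (hd.trans_le (not_lt.1 h))
    have h2 : (Set.univ : Set G) ⊆ ⋃ s ∈ S, Set.Iic s := fun a _ => by
      obtain ⟨s, hs, h⟩ := hc a
      exact Set.mem_biUnion hs h
    have h3 := (mk_le_mk_of_subset h2).trans (mk_biUnion_le _ _)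
    rw [mk_univ] at h3
    refine absurd h3 (not_le.2 (mul_lt_of_lt hG.le hS (lt_of_le_of_lt (ciSup_le' fun s => h1 _ ?_) hc')))
    rw [← Set.Iio_insert]
    exact mk_insert_le.trans_lt (add_lt_of_lt hG.le (mk_Iio_lt _ ho) (one_lt_aleph0.trans hG))
  let B : Cardinal.{u} → Set G := fun c => {a | #(Set.Iio a) < c}
  have hB : ∀ c < #G, #(B c) = c := by
    intro c hc
    obtain ⟨j, hj⟩ := Ordinal.typein_surj (fun a b : G => a < b) (ho ▸ ord_lt_ord.2 hc)
    have : B c = Set.Iio j := by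
      ext a
      change (Ordinal.typein (fun a b : G => a < b) a).card < c ↔ a < j
      rw [← lt_ord, ← hj, Ordinal.typein_lt_typein]
    rw [this]
    change (Ordinal.typein (fun a b : G => a < b) j).card = c
    rw [hj, card_ord]
  have hmono : ∀ c d, c ≤ d → Subgroup.closure (B c) ≤ Subgroup.closure (B d) := fun c d h =>
    Subgroup.closure_mono fun a ha => lt_of_lt_of_le ha h
  obtain ⟨A, l, h1, h2, h3⟩ := act (fun c => Subgroup.closure (B c))
    (fun c => Subgroup.closure (B (Order.succ c))) (fun c => hmono _ _ (Order.le_succ c))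
    (fun c d h => hmono _ _ (Order.succ_le_of_lt h))
  refine ⟨l, fun F hF n => ?_⟩
  have key : ∀ n (c : Cardinal.{u}), c < #G → ℵ₀ ≤ c → #F ≤ c → ∃ y : G, ∃ T : Finset Cardinal.{u},
      T.card = n ∧ ∀ i ∈ T, c ≤ i ∧ ∀ f ∈ F, A i (f * y) := by
    intro n
    induction n with
    | zero => exact fun c _ _ _ => ⟨1, ∅, rfl, by simp⟩
    | succ n ih =>
      intro c hc hc0 hFc
      obtain ⟨y, T, hT, h⟩ := ih _ (hlim c hc) (hc0.trans (Order.le_succ c))
        (hFc.trans (Order.le_succ c))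
      obtain ⟨x, hx, hA⟩ : ∃ x ∈ Subgroup.closure (B (Order.succ c)), ∀ f ∈ F, A c (f * y * x) := by
        by_contra hn
        push Not at hn
        have hw : ∀ f : G, ∃ w, ∀ x ∈ Subgroup.closure (B (Order.succ c)), ¬ A c (f * y * x) →
            w⁻¹ * x ∈ Subgroup.closure (B c) := by
          intro f
          by_cases he : ∃ w ∈ Subgroup.closure (B (Order.succ c)), ¬ A c (f * y * w)
          · obtain ⟨w, hw, hA⟩ := he
            refine ⟨w, fun x hx hA' => h2 c _ _ (Subgroup.mul_mem _ (Subgroup.inv_mem _ hw) hx) hA ?_⟩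
            rwa [mul_assoc (f * y), mul_inv_cancel_left]
          · exact ⟨1, fun x hx hA => absurd ⟨x, hx, hA⟩ he⟩
        choose w hw using hw
        have hsub : B (Order.succ c) ⊆ Set.image2 (fun f z => w f * z) F (Subgroup.closure (B c)) := by
          intro x hx
          obtain ⟨f, hf, hA⟩ := hn x (Subgroup.subset_closure hx)
          exact ⟨f, hf, _, hw f x (Subgroup.subset_closure hx) hA, by simp⟩
        have h4 := (mk_le_mk_of_subset hsub).trans mk_image2_le
        rw [hB _ (hlim c hc)] at h4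
        have h5 := card_closure (B c)
        rw [hB c hc, max_eq_left hc0] at h5
        have h6 := h4.trans ((mul_le_mul' hFc h5).trans (mul_eq_self hc0).le)
        exact absurd h6 (not_le.2 (Order.lt_succ c))
      have hcT : c ∉ T := fun h' => absurd (h c h').1 (not_le.2 (Order.lt_succ c))
      refine ⟨y * x, insert c T, by rw [Finset.card_insert_of_notMem hcT, hT], fun i hi => ?_⟩
      rcases Finset.mem_insert.1 hi with rfl | hi
      · exact ⟨le_rfl, fun f hf => by rw [← mul_assoc]; exact hA f hf⟩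
      · refine ⟨(Order.le_succ c).trans (h i hi).1, fun f hf => ?_⟩
        rw [← mul_assoc]
        exact h1 _ _ _ (hmono _ _ (h i hi).1 hx) ((h i hi).2 f hf)
  have key2 : ∀ s : G, ∃ y : G, ∀ g ≤ s, ∀ f ∈ F, l (f * (y * g)) ≠ n := by
    intro s
    obtain ⟨y, T, hT, h⟩ := key (n + 1) (max (Order.succ #(Set.Iio s)) (max ℵ₀ #F))
      (max_lt (hlim _ (mk_Iio_lt s ho)) (max_lt hG hF)) (by simp) (by simp)
    refine ⟨y, fun g hg f hf => ?_⟩
    have := h3 (f * y * g) T fun i hi => h1 _ _ _ (Subgroup.subset_closure ?_) ((h i hi).2 f hf)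
    · rw [← mul_assoc]
      omega
    · exact (mk_le_mk_of_subset (Set.Iio_subset_Iio hg)).trans_lt
        ((Order.lt_succ _).trans_le ((le_max_left _ _).trans (h i hi).1))
  choose y hy using key2
  refine ⟨y '' S, mk_image_le.trans_lt hS, fun g => ?_⟩
  obtain ⟨s, hs, hg⟩ := hc g
  exact ⟨y s, ⟨s, hs, rfl⟩, hy s g hg⟩

lemma good_ex (G : Type u) [Group G] [Infinite G] : ∃ c : G → ℕ, Good c := by
  rcases (infinite_iff.1 (inferInstance : Infinite G)).eq_or_lt with hG | hG
  · exact good_count G hG.symm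
  obtain ⟨_, _, ho⟩ := exists_ord_eq_type_lt G
  by_cases h : ∃ S : Set G, #S < #G ∧ ∀ a, ∃ s ∈ S, a ≤ s
  · obtain ⟨S, hS, h⟩ := h
    exact good_sing G hG ho S hS h
  · push Not at h
    exact good_reg G hG ho h


/-- Every infinite group G has a coloring by natural numbers whose color classes are all ∣G∣-small. A class A is ∣G∣-small if, whenever fewer than ∣G∣ left (right) translates of L cover G, fewer than ∣G∣ left (right) translates of L minus A also cover G. -/
theorem result :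
    ∀ (G : Type u) [Group G] [Infinite G],
      ∃ f : G → ℕ, ∀ n : ℕ,
        (∀ L : Set G,
          (∃ F : Set G, Cardinal.mk F < Cardinal.mk G ∧
              ∀ g : G, ∃ x ∈ F, ∃ y ∈ L, g = x * y) →
          (∃ F : Set G, Cardinal.mk F < Cardinal.mk G ∧
              ∀ g : G, ∃ x ∈ F, ∃ y ∈ L, f y ≠ n ∧ g = x * y)) ∧
        (∀ L : Set G,
          (∃ F : Set G, Cardinal.mk F < Cardinal.mk G ∧
              ∀ g : G, ∃ x ∈ F, ∃ y ∈ L, g = y * x) →
          (∃ F : Set G, Cardinal.mk F < Cardinal.mk G ∧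
              ∀ g : G, ∃ x ∈ F, ∃ y ∈ L, f y ≠ n ∧ g = y * x)) := by
  intro G _ _
  obtain ⟨c, hc⟩ := good_ex G
  have hG := infinite_iff.1 (inferInstance : Infinite G)
  refine ⟨fun g => Nat.pair (c g) (c g⁻¹), fun n => ⟨?_, ?_⟩⟩
  · rintro L ⟨F, hF, hL⟩
    obtain ⟨K, hK, h⟩ := hc ((fun x => x⁻¹) '' F) (mk_image_le.trans_lt hF) n.unpair.1
    refine ⟨Set.image2 (fun k f => k⁻¹ * f) K F, mk_image2_le.trans_lt (mul_lt_of_lt hG hK hF),
      fun g => ?_⟩
    obtain ⟨k, hk, h⟩ := h g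
    obtain ⟨x, hx, y, hy, e⟩ := hL (k * g)
    refine ⟨_, ⟨k, hk, x, hx, rfl⟩, y, hy, fun e' => h x⁻¹ ⟨x, hx, rfl⟩ ?_, ?_⟩
    · rw [e, inv_mul_cancel_left, ← e', Nat.unpair_pair]
    · rw [mul_assoc, ← e, inv_mul_cancel_left]
  · rintro L ⟨F, hF, hL⟩
    obtain ⟨K, hK, h⟩ := hc F hF n.unpair.2
    refine ⟨Set.image2 (fun k f => f * k) K F, mk_image2_le.trans_lt (mul_lt_of_lt hG hK hF),
      fun g => ?_⟩
    obtain ⟨k, hk, h⟩ := h g⁻¹
    obtain ⟨x, hx, y, hy, e⟩ := hL (g * k⁻¹)
    have e2 : x * (k * g⁻¹) = y⁻¹ := by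
      rw [eq_mul_inv_of_mul_eq e.symm]
      group
    refine ⟨_, ⟨k, hk, x, hx, rfl⟩, y, hy, fun e' => h x hx ?_, ?_⟩
    · rw [e2, ← e', Nat.unpair_pair]
    · rw [← mul_assoc, ← e, inv_mul_cancel_right]

end Pool.Agent.S03547
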