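import Pool.Statements.S03570
import Pool.Agent.H.MP_f67ce1_al.Main

set_option autoImplicit false
open Pool Pool.MP_f67ce1_al

namespace Pool.Agent.S03570

theorem result :
    ¬ (∀ (R : Type) [Ring R], (∀ I : Submodule R R, Module.Projective R I) →
      (∃ n : ℕ, ∀ l : List R, l.length = n →
          (∀ x ∈ l, ∀ J : TwoSidedIdeal R,
            ((∃ y : R, y ∉ J) ∧ ∀ a b : R, (∀ r : R, a * r * b ∈ J) → a ∈ J ∨ b ∈ J) →
              x ∈ J) →
          l.prod = 0) ∧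
      ∀ (S : Type) [Ring S] (f : R →+* S), Function.Surjective f →
        (∀ x : R, f x = 0 ↔
          ∀ J : TwoSidedIdeal R,
            ((∃ y : R, y ∉ J) ∧ ∀ a b : R, (∀ r : R, a * r * b ∈ J) → a ∈ J ∨ b ∈ J) →
              x ∈ J) →
        ∀ I : Submodule S S, Module.Projective S I) := by
  intro h
  obtain ⟨⟨n, hn⟩, -⟩ := h Pool.Agent.H.MP_f67ce1_al.R Pool.Agent.H.MP_f67ce1_al.hered
  refine Pool.Agent.H.MP_f67ce1_al.L_ne n (hn _ (Pool.Agent.H.MP_f67ce1_al.L_len n) ?_)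
  intro x hx J hJ
  obtain ⟨i, rfl⟩ := Pool.Agent.H.MP_f67ce1_al.L_mem n x hx
  exact (hJ.2 _ _ fun r => by rw [Pool.Agent.H.MP_f67ce1_al.u_sq]; exact J.zero_mem).elim id id

end Pool.Agent.S03570
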