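import Pool.Statements.S03579
import Pool.Agent.H.MP_f762b7_al.Main

set_option autoImplicit false
open Pool Pool.MP_f762b7_al

namespace Pool.Agent.S03579

theorem result :
    ∀ (p : ℕ), p.Prime → ∀ (k : Type) [Field k] [CharP k p],
      ∃ f : ↥(integralClosure (Polynomial k) (AlgebraicClosure (FractionRing (Polynomial k))))
          →ₗ[Polynomial k] Polynomial k, f ≠ 0 := by
  intro p hp k _ _
  exact Pool.Agent.H.MP_f762b7_al.main p hp k

end Pool.Agent.S03579
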