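import Pool.Statements.S03584
import Pool.Agent.H.MP_f7bfdf_al.B

set_option autoImplicit false
open Pool Pool.MP_f7bfdf_al

namespace Pool.Agent.S03584

theorem result :
    ¬ (∃ (G : Type) (_ : Group G),
      (∀ H : Subgroup G, H.FG → IsFreeGroup H) ∧
      (∃ a b : G, a * b ≠ b * a) ∧
      frattini G ≠ ⊥) := by
  rintro ⟨G, _, hL, ⟨a, b, hab⟩, h⟩
  refine h (eq_bot_iff.2 fun s hs => by_contra fun h1 => ?_)
  obtain ⟨M, h2, h3⟩ := Pool.Agent.H.MP_f7bfdf_al.main hL hab h1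
  exact h3 (frattini_le_coatom h2 hs)

end Pool.Agent.S03584
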