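import Pool.Statements.S03595
import Pool.Agent.H.MP_f8d790_al.A

set_option autoImplicit false
open Pool Pool.MP_f8d790_al

namespace Pool.Agent.S03595

theorem result :
    ∀ (G : Type) [Group G] [TopologicalSpace G] [IsTopologicalGroup G] [CompactSpace G]
      [T2Space G] [Infinite G],
      (∀ f : G → G,
          (Subgroup.closure (Set.range (fun x : G => f x * x * (f x)⁻¹))).topologicalClosure = ⊤) ↔
        ∃ N : Subgroup G, N.Normal ∧ IsClosed (N : Set G) ∧ IsConnected (N : Set G) ∧
          (∀ a ∈ N, ∀ b ∈ N, a * b = b * a) ∧ TotallyDisconnectedSpace (G ⧸ N) := by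
  intro G _ _ _ _ _ _
  refine ⟨fun h => ?_, fun ⟨N, h1, h2, _, h3, _⟩ f => H.MP_f8d790_al.back N h3 _
    (Subgroup.isClosed_topologicalClosure _) h2 fun x => ⟨f x,
      Subgroup.le_topologicalClosure _ (Subgroup.subset_closure ⟨x, rfl⟩)⟩⟩
  have m (x : G) : (fun y => x * y) '' connectedComponent 1 = connectedComponent x := by
    simpa [connectedComponentIn_univ, (mul_left_surjective x).range_eq] using
      (Homeomorph.mulLeft x).image_connectedComponentIn (Set.mem_univ 1)
  refine ⟨Subgroup.connectedComponentOfOne G, ⟨fun x hx g => ?_⟩, isClosed_connectedComponent,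
    isConnected_connectedComponent, fun a ha b hb => H.MP_f8d790_al.fwd (fun H h1 h2 => ?_) ha hb,
    totallyDisconnectedSpace_iff_connectedComponent_subsingleton.2 fun q => ?_⟩
  · have := (show Continuous fun y : G => g * y * g⁻¹ by fun_prop).image_connectedComponent_subset 1
      ⟨x, hx, rfl⟩
    rwa [mul_one, mul_inv_cancel] at this
  · choose f hf using h2
    exact eq_top_iff.2 ((h f).ge.trans (Subgroup.topologicalClosure_minimal _
      ((Subgroup.closure_le _).2 (Set.range_subset_iff.2 hf)) h1))
  · have e (x : G) : (QuotientGroup.mk : G → G ⧸ Subgroup.connectedComponentOfOne G) ⁻¹' {↑x} =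
        connectedComponent x := by
      rw [← m]
      ext y
      exact ⟨fun k => ⟨_, QuotientGroup.eq.1 (Eq.symm k), by simp⟩, fun ⟨z, a, b⟩ =>
        (QuotientGroup.eq.2 (by rw [← b, inv_mul_cancel_left]; exact a)).symm⟩
    obtain ⟨x, rfl⟩ := QuotientGroup.mk_surjective q
    have := (QuotientGroup.isQuotientMap_mk _).isCoinducing.preimage_connectedComponent (fun q => by
      obtain ⟨y, rfl⟩ := QuotientGroup.mk_surjective q
      exact e y ▸ isConnected_connectedComponent) x
    rw [← e, Set.preimage_eq_preimage QuotientGroup.mk_surjective] at this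
    exact this ▸ Set.subsingleton_singleton

end Pool.Agent.S03595
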