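import Pool.Statements.S03609
import Pool.Agent.H.MP_fb3574_al.D
-- import your own Pool.Agent.* helpers here

set_option autoImplicit false
open Pool Pool.MP_fb3574_al Pool.Agent.H.MP_fb3574_al

namespace Pool.Agent.S03609

theorem result :
    ∀ C : (∀ (G : Type) [Group G], Prop),
      (∀ (G H : Type) [Group G] [Group H], (G ≃* H) → C G → C H) →
      (∀ (G : Type) [Group G] (H : Subgroup G), C G → C ↥H) →
      (∀ (G : Type) [Group G] (N : Subgroup G) [N.Normal], C G → C (G ⧸ N)) →
      (∀ (ι : Type) [DecidableEq ι] (G : ι → Type) [∀ i, Group (G i)],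
        (∀ i, C (G i)) → C ↥(⨆ i, (MonoidHom.mulSingle G i).range)) →
      (∀ (G : Type) [Group G], Finite ↥(commutator G) → C G) →
      (∀ (G : Type) [Group G], (∀ g : G, {h : G | IsConj g h}.Finite) →
        (∃ p : ℕ, p.Prime ∧
          Nonempty (↥(commutator G) ≃* ↥(⨆ n : ℕ, rootsOfUnity (p ^ n) ℂ))) → C G) →
      ∀ (G : Type) [Group G], (∀ g : G, {h : G | IsConj g h}.Finite) → C G := by
  intro C hiso hsub hquo hdr hA hB G _ hFC
  classical
  have hker : ∀ (F K : Type) [Group F] [Group K] (f : F →* K), C f.range → C (F ⧸ f.ker) :=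
    fun F K _ _ f h => hiso _ _ (QuotientGroup.quotientKerEquivRange f).symm h
  have qsd : ∀ (F κ : Type) [Group F] (R : κ → Subgroup F) [∀ k, (R k).Normal] (π : F →* G),
      Function.Surjective π → (∀ k, C (F ⧸ R k)) → (∀ w, {k | w ∉ R k}.Finite) →
      (∀ w, (∀ k, w ∈ R k) → π w = 1) → C G := by
    intro F κ _ R _ π hπ h1 h2 h3
    let f : F →* ↥(⨆ k, (MonoidHom.mulSingle (fun k => F ⧸ R k) k).range) :=
      (MonoidHom.pi fun k => QuotientGroup.mk' (R k)).codRestrict _ fun w =>
        Submonoid.pi_mem_of_mulSingle_mem_aux (h2 w).toFinset _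
          (fun k hk => (QuotientGroup.eq_one_iff _).2 (by simpa using hk))
          fun k _ => Subgroup.mem_iSup_of_mem k ⟨_, rfl⟩
    let θ := f.rangeRestrict.liftOfSurjective f.rangeRestrict_surjective ⟨π, fun w hw =>
      h3 w fun k => (QuotientGroup.eq_one_iff _).1
        (congrFun (congrArg Subtype.val (congrArg Subtype.val hw)) k)⟩
    have hθ : Function.Surjective θ := fun g => by
      obtain ⟨w, rfl⟩ := hπ g
      exact ⟨f.rangeRestrict w, MonoidHom.liftOfRightInverse_comp_apply _ _ _ _ _⟩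
    exact hiso _ _ (QuotientGroup.quotientKerEquivOfSurjective θ hθ)
      (hquo _ _ (hsub _ _ (hdr _ _ h1)))
  obtain ⟨κ, ρ, r1, r2, r3⟩ := step1 hFC
  have hs : Function.Surjective (FreeGroup.lift id : FreeGroup G →* G) := fun g =>
    ⟨.of g, by simp⟩
  obtain ⟨Λ, K, _, k1, k2, k3⟩ := step2 hFC ρ _ hs (fun w hw => tors hFC _ hw) r2 r3
  let f : ∀ l, FreeGroup G →* FreeGroup G ⧸ K l := fun l =>
    ph (fun g => (FreeGroup.of g : FreeGroup G ⧸ K l))
      {g | (FreeGroup.of g : FreeGroup G ⧸ K l) ∉ Subgroup.center _}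
  have hf : ∀ l, ∀ w ∈ commutator (FreeGroup G), f l w = w := fun l w hw =>
    iso1 (g := QuotientGroup.mk' (K l)) (fun g => by
      by_cases h : (FreeGroup.of g : FreeGroup G ⧸ K l) ∈ Subgroup.center _
      · simp only [f]
        rw [ph_out (not_not.2 h)]
        simpa using h
      · simp only [f]
        rw [ph_in h]
        simp) hw
  let R : Option (κ ⊕ Λ) → Subgroup (FreeGroup G) := fun o =>
    o.elim (commutator _) (Sum.elim (fun k => (ρ k).ker) fun l => (f l).ker)
  haveI : ∀ o, (R o).Normal := by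
    rintro (_ | k | l) <;> simp only [R, Option.elim, Sum.elim_inl, Sum.elim_inr] <;> infer_instance
  refine qsd _ _ R _ hs ?_ (fun w => ?_) fun w h => k3 w (h none) (fun k => h (some (.inl k)))
    fun l => (QuotientGroup.eq_one_iff _).1 ((hf l w (h none)).symm.trans (h (some (.inr l))))
  · rintro (_ | k | l)
    · refine hA (Abelianization (FreeGroup G)) ?_
      rw [(commutator_eq_bot_iff _).2 inferInstance]
      infer_instance
    · obtain ⟨S, h1, h2⟩ := r1 k
      exact hker _ _ _ (hA _ (schur hFC h1 h2))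
    · exact hker _ _ _ (hsub _ _ ((k1 l).2.elim (hA _) (hB _ (k1 l).1)))
  · obtain ⟨Y, hY, hd⟩ := fdep w
    refine ((((r2 w).image Sum.inl).union ((hY.biUnion fun g _ => k2 (.of g)).image Sum.inr)).image
      some).insert none |>.subset ?_
    rintro (_ | k | l) h
    · exact Or.inl rfl
    · exact Or.inr ⟨_, Or.inl ⟨k, h, rfl⟩, rfl⟩
    · refine Or.inr ⟨_, Or.inr ⟨l, ?_, rfl⟩, rfl⟩
      by_contra hn
      exact h (hd _ (f l) 1 fun g hg => ph_out fun h' => hn (Set.mem_biUnion hg h'))

end Pool.Agent.S03609
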