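import Pool.Statements.S03621
import Pool.Agent.H.MP_fcd401_al.Fin

set_option autoImplicit false
open Pool Pool.MP_fcd401_al

namespace Pool.Agent.S03621

theorem result :
    ∃ (G : Type) (_ : Group G), Group.FG G ∧
      (∀ g : G, g ≠ 1 → ∃ H : Subgroup G, H.FiniteIndex ∧ g ∉ H) ∧
      ∃ α : ℝ, Irrational α ∧
        Filter.Tendsto
          (fun n : ℕ =>
            Real.log ((Set.ncard {H : Subgroup G | H.index ≠ 0 ∧ H.index ≤ n} : ℕ) : ℝ) /
              Real.log ((Nat.factorial n : ℕ) : ℝ))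
          Filter.atTop (nhds α) := by
  open Pool.Agent.H.MP_fcd401_al in
  have hθ : Irrational (√2 - 1) := by simpa using irrational_sqrt_two.sub_natCast 1
  have s1 : 1 < √2 := Real.lt_sqrt_of_sq_lt (by norm_num)
  have s2 : √2 < 2 := (Real.sqrt_lt' (by norm_num)).2 (by norm_num)
  generalize hb : √2 - 1 = β at hθ
  have b0 : 0 < β := by linarith
  have b1 : β < 1 := by linarith
  have f1 : ∀ n : ℕ, (1 : ℝ) ≤ n.factorial := fun n => by exact_mod_cast n.factorial_pos
  have ex : ∀ n : ℕ, ∃ t ⊆ (Finset.univ : Finset (Equiv.Perm (ZMod (n + 8)))),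
      t.card = ⌊((n + 8).factorial : ℝ) ^ β⌋₊ := fun n => Finset.exists_subset_card_eq (by
    rw [Finset.card_univ, Fintype.card_perm, ZMod.card]
    exact Nat.floor_le_of_le (Real.rpow_le_self_of_one_le (f1 _) b1.le))
  choose D _ hD using ex
  have hap := ap D β hθ b0 b1
  obtain ⟨r0, hr⟩ := hap 7
  have h7 : ∀ x, ¬ Per (lb D β) 7 r0 x := fun x h => by have := hr x h; omega
  have up := upper D β r0 h7 hap β b0.le b1.le fun n => by
    rw [hD]; exact Nat.floor_le (by positivity)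
  refine ⟨Hs D β (r0 + 1), inferInstance, ?_, fun g hg => ?_, β, hθ,
    asym _ β (10 ^ 16) (fun n hn => ?_) fun n hn => (up n hn).2⟩
  · exact (Group.fg_iff_subgroup_fg _).2 ((Subgroup.fg_iff _).2 ⟨_, rfl,
      ((gens_fin _ _).preimage (io_inj D).injOn).insert _⟩)
  · obtain ⟨a, ha⟩ : ∃ a, g.1 a ≠ 1 := by
      by_contra hc
      push Not at hc
      exact hg (Subtype.ext (funext hc))
    exact ⟨(ev D β r0 a).ker, inferInstance, ha⟩
  · obtain ⟨m, rfl⟩ : ∃ m, n = m + 8 := ⟨n - 8, by omega⟩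
    have l := lower D β r0 h7 m (up _ hn).1
    rw [hD] at l
    have o1 : (1 : ℝ) ≤ ((m + 8).factorial : ℝ) ^ β := Real.one_le_rpow (f1 _) b0.le
    have o2 := Nat.lt_floor_add_one (((m + 8).factorial : ℝ) ^ β)
    have o3 : (1 : ℝ) ≤ ⌊((m + 8).factorial : ℝ) ^ β⌋₊ := by
      exact_mod_cast (Nat.one_le_floor_iff _).2 o1
    have l' := (Nat.cast_le (α := ℝ)).2 l
    linarith

end Pool.Agent.S03621
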