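import Pool.Statements.S03646
import Pool.Agent.H.MP_fedac3_al.I

set_option autoImplicit false
open Pool Pool.MP_fedac3_al

namespace Pool.Agent.S03646

theorem result :
    ¬ (∀ (G : Type) [Group G] [Finite G], IsSolvable G →
      {F : (H : Type) → [Group H] → Prop |
        ((∀ (H : Type) [Group H], F H → Finite H) ∧
         (∀ (H K : Type) [Group H] [Group K], Nonempty (H ≃* K) → F H → F K) ∧
         (∀ (H : Type) [Group H] (N : Subgroup H), N.Normal → F H → F ↥N) ∧
         (∀ (H : Type) [Group H] (N M : Subgroup H), N.Normal → M.Normal →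
            F ↥N → F ↥M → F ↥(N ⊔ M))) ∧
        ∀ Q : (H : Type) → [Group H] → Prop,
          ((∀ (H : Type) [Group H], Q H → Finite H) ∧
           (∀ (H K : Type) [Group H] [Group K], Nonempty (H ≃* K) → Q H → Q K) ∧
           (∀ (H : Type) [Group H] (N : Subgroup H), N.Normal → Q H → Q ↥N) ∧
           (∀ (H : Type) [Group H] (N M : Subgroup H), N.Normal → M.Normal →
              Q ↥N → Q ↥M → Q ↥(N ⊔ M))) →
          Q G → ∀ (H : Type) [Group H], F H → Q H}.Finite) := by
  exact fun h => H.MP_fedac3_al.main (@h (H.MP_fedac3_al.D (ZMod 3)) _ _ H.MP_fedac3_al.sol)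

end Pool.Agent.S03646
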