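import Pool.Statements.S03650
import Pool.Agent.H.MP_feeeae_al.A

set_option autoImplicit false
open Pool Pool.MP_feeeae_al

namespace Pool.Agent.S03650

/-- The negation of the preceding statement: If G is the topological full group of a group of homeomorphisms of the Cantor set and G acts highly transitively on a dense invariant set, then every bounded real cocycle of positive degree on G is the coboundary of a bounded cochain. -/
theorem result :
    ¬ (∀ (Γ G : Subgroup ((ℕ → Bool) ≃ₜ (ℕ → Bool))) (S : Set (ℕ → Bool)),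
      (∀ g : (ℕ → Bool) ≃ₜ (ℕ → Bool), g ∈ G ↔
          ∀ x : ℕ → Bool, ∃ U : Set (ℕ → Bool), IsClopen U ∧ x ∈ U ∧
            ∃ γ ∈ Γ, ∀ y ∈ U, g y = γ y) →
      Dense S →
      (∀ g ∈ G, ∀ x ∈ S, g x ∈ S) →
      (∀ (n : ℕ) (a b : Fin n → (ℕ → Bool)), Function.Injective a → Function.Injective b →
          (∀ i, a i ∈ S) → (∀ i, b i ∈ S) → ∃ g ∈ G, ∀ i, g (a i) = b i) →
      ∀ (n : ℕ) (f : (Fin (n + 1) → G) → ℝ), (∃ C : ℝ, ∀ x, |f x| ≤ C) →
        (∀ g : Fin (n + 1 + 1) → G,
            f (fun i => g i.succ) +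
              ∑ j : Fin (n + 1 + 1), (-1 : ℝ) ^ (j.val + 1) *
                f (Fin.contractNth j (fun a b => a * b) g) = 0) →
        ∃ h : (Fin n → G) → ℝ, (∃ C : ℝ, ∀ x, |h x| ≤ C) ∧
          ∀ g : Fin (n + 1) → G,
            h (fun i => g i.succ) +
              ∑ j : Fin (n + 1), (-1 : ℝ) ^ (j.val + 1) *
                h (Fin.contractNth j (fun a b => a * b) g) = f g) := by
  open Pool.Agent.H.MP_feeeae_al in
  intro H
  obtain ⟨h, ⟨C, b⟩, k⟩ := H G G {fun _ => false}ᶜ (fun g => ⟨fun m x => ⟨_, isClopen_univ, trivial, g, m, fun _ _ => rfl⟩, fun m => by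
      obtain ⟨U, a, b, γ, c, d⟩ := m fun _ => false
      obtain ⟨l, c⟩ := mem.1 c
      exact mem.2 ⟨l, Filter.EventuallyEq.trans (Filter.mem_of_superset (a.isOpen.mem_nhds b) d) c⟩⟩)
    (dense_compl_singleton_iff_not_open.2 fun o => by
      obtain ⟨n, c⟩ := (lim.eventually (o.mem_nhds rfl)).exists
      simpa using congrFun c n)
    (fun g m x a c => a (g.injective (c.trans (G0 m).symm))) trans 1
    (fun g => ρ (Φ (g 0)) 0 + ρ (Φ (g 1)) 0 - ρ (Φ (g 0 * g 1)) 0)
    ⟨1, fun g => by simpa [Real.dist_eq] using ((ρ (Φ (g 0))).dist_map_map_zero_lt (ρ (Φ (g 1)))).le⟩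
    (fun g => by simp [Fin.sum_univ_succ, Fin.contractNth, mul_assoc]; ring)
  refine nb (fun g => h fun _ => g) C (fun _ => b _) fun g g' => ?_
  have := k ![g, g']
  simp only [Fin.sum_univ_succ] at this
  rw [show (fun i : Fin 1 => ![g, g'] i.succ) = fun _ => g' by funext i; fin_cases i; rfl,
    show Fin.contractNth (0 : Fin 2) (fun a b => a * b) ![g, g'] = fun _ => g * g' by funext i; fin_cases i; rfl,
    show Fin.contractNth (Fin.succ 0 : Fin 2) (fun a b => a * b) ![g, g'] = fun _ => g by funext i; fin_cases i; rfl] at this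
  simp at this ⊢
  linarith

end Pool.Agent.S03650
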