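import Pool.Statements.S03678

set_option autoImplicit false
open Pool Pool.MP_01e6d0_an

namespace Pool.Agent.S03678

open scoped InnerProductSpace
open Polynomial

section abstr
variable {H : Type} [NormedAddCommGroup H] [InnerProductSpace ℝ H]

/-- the functional is unbounded on the subspace -/
def Unb (α : H →ₗ[ℝ] ℝ) (U : Submodule ℝ H) : Prop :=
  ∀ δ : ℝ, 0 < δ → ∃ η ∈ U, α η = 1 ∧ ‖η‖ < δ

theorem Unb.inf {α : H →ₗ[ℝ] ℝ} {U : Submodule ℝ H} (hU : Unb α U) (h : H) :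
    Unb α (U ⊓ (ℝ ∙ h)ᗮ) := by
  by_cases hz : ∀ u ∈ U, ⟪h, u⟫_ℝ = 0
  · intro δ hδ
    obtain ⟨η, h1, h2, h3⟩ := hU δ hδ
    exact ⟨η, ⟨h1, Submodule.mem_orthogonal_singleton_iff_inner_right.2 (hz η h1)⟩, h2, h3⟩
  push Not at hz
  obtain ⟨u1, hu1, hne⟩ := hz
  obtain ⟨u, hu, hu'⟩ : ∃ u ∈ U, ⟪h, u⟫_ℝ = 1 :=
    ⟨(⟪h, u1⟫_ℝ)⁻¹ • u1, U.smul_mem _ hu1, by rw [inner_smul_right, inv_mul_cancel₀ hne]⟩
  intro δ hδ
  set A := ‖h‖ * |α u| + 1 with hA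
  set B := 1 + ‖h‖ * ‖u‖ with hB
  have hA0 : 0 < A := by positivity
  have hB0 : 0 < B := by positivity
  obtain ⟨η, h1, h2, h3⟩ := hU (min (1 / (2 * A)) (δ / (2 * B))) (by positivity)
  have h4 : ‖η‖ < 1 / (2 * A) := h3.trans_le (min_le_left _ _)
  have h5 : ‖η‖ < δ / (2 * B) := h3.trans_le (min_le_right _ _)
  set c := ⟪h, η⟫_ℝ with hc
  have hc1 : |c| ≤ ‖h‖ * ‖η‖ := abs_real_inner_le_norm h η
  have hn := norm_nonneg η
  have h6 : |c * α u| ≤ 1 / 2 := by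
    rw [abs_mul]
    rw [lt_div_iff₀ (by positivity)] at h4
    have : |c| * |α u| ≤ ‖h‖ * ‖η‖ * |α u| := by gcongr
    nlinarith
  have h7 : 1 / 2 ≤ 1 - c * α u := by linarith [le_abs_self (c * α u)]
  refine ⟨(1 - c * α u)⁻¹ • (η - c • u), ⟨U.smul_mem _ (U.sub_mem h1 (U.smul_mem _ hu)), ?_⟩, ?_, ?_⟩
  · apply Submodule.mem_orthogonal_singleton_iff_inner_right.2
    rw [inner_smul_right, inner_sub_right, inner_smul_right, hu', ← hc]; ring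
  · rw [map_smul, map_sub, map_smul, h2, smul_eq_mul, smul_eq_mul, inv_mul_cancel₀ (by linarith)]
  · rw [norm_smul, Real.norm_of_nonneg (by positivity), inv_mul_lt_iff₀ (by linarith)]
    have h8 : ‖η - c • u‖ ≤ ‖η‖ * B := by
      refine (norm_sub_le _ _).trans ?_
      rw [norm_smul, Real.norm_eq_abs]
      have : |c| * ‖u‖ ≤ ‖h‖ * ‖η‖ * ‖u‖ := by gcongr
      rw [hB]; linarith
    rw [lt_div_iff₀ (by positivity)] at h5
    nlinarith

/-- invariant of the construction -/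
def Good (α : H →ₗ[ℝ] ℝ) (W F : Submodule ℝ H) : Prop :=
  F ≤ W ∧ FiniteDimensional ℝ F ∧ Unb α (W ⊓ Fᗮ)

theorem Good.ext {α : H →ₗ[ℝ] ℝ} {W F : Submodule ℝ H} (hF : Good α W F) (h : H) (hh : h ∈ W) :
    Good α W (F ⊔ ℝ ∙ h) := by
  obtain ⟨h1, h2, h3⟩ := hF
  refine ⟨sup_le h1 ((Submodule.span_singleton_le_iff_mem _ _).2 hh), inferInstance, ?_⟩
  rw [← Submodule.inf_orthogonal, ← inf_assoc]
  exact h3.inf h

theorem step0 {α : H →ₗ[ℝ] ℝ} {W F : Submodule ℝ H} (hW : ∀ h : H, (∀ w ∈ W, ⟪h, w⟫_ℝ = 0) → h = 0)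
    (f : H) (hf : f ∉ W) (hF : Good α W F) (g : H) (hg : g ∈ W ⊓ Fᗮ) (hg0 : g ≠ 0) :
    ∃ φ ψ : H, φ ≠ 0 ∧ ψ ≠ 0 ∧ φ ∈ W ⊓ Fᗮ ∧ ψ ∈ W ⊓ Fᗮ ∧ ⟪φ, ψ⟫_ℝ = 0 ∧ α φ = 0 ∧
      ⟪f, ψ⟫_ℝ = 0 ∧ ∃ c : ℝ, g = φ + c • ψ ∨ g = ψ := by
  obtain ⟨h1, h2, h3⟩ := hF
  set U := W ⊓ Fᗮ with hU
  have perp : ∀ {a b : H}, b ∈ (ℝ ∙ a)ᗮ → ⟪a, b⟫_ℝ = 0 :=
    fun h => Submodule.mem_orthogonal_singleton_iff_inner_right.1 h
  by_cases ha : α g = 0
  · obtain ⟨η, ⟨⟨e1, e2⟩, e3⟩, e4, _⟩ := ((h3.inf g).inf f) 1 one_pos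
    refine ⟨g, η, hg0, ?_, hg, e1, perp e2, ha, perp e3, 0, Or.inl (by simp)⟩
    rintro rfl; simp at e4
  by_cases hb : ⟪f, g⟫_ℝ = 0
  · obtain ⟨η, ⟨e1, e2⟩, e4, _⟩ := (h3.inf g) 1 one_pos
    obtain ⟨ζ, ⟨⟨d1, d2⟩, d3⟩, d4, _⟩ := ((h3.inf g).inf η) 1 one_pos
    refine ⟨η - ζ, g, ?_, hg0, U.sub_mem e1 d1, hg, ?_, by simp [e4, d4], hb, 0, Or.inr rfl⟩
    · intro h
      have h4 : η = ζ := sub_eq_zero.1 h
      have h5 := perp d3
      rw [← h4, inner_self_eq_zero] at h5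
      rw [h5] at e4; simp at e4
    · rw [real_inner_comm, inner_sub_right, perp e2, perp d2, sub_zero]
  have hgg : ⟪g, g⟫_ℝ ≠ 0 := fun h => hg0 (inner_self_eq_zero.1 h)
  obtain ⟨u, hu, hfu, hgu⟩ : ∃ u ∈ U, ⟪f, u⟫_ℝ = 0 ∧ ⟪g, u⟫_ℝ ≠ 0 := by
    by_contra hcon
    push Not at hcon
    apply hf
    obtain ⟨f0, hf0, f1, hf1, rfl⟩ := F.exists_add_mem_mem_orthogonal f
    have hfU : ∀ u ∈ U, ⟪f0 + f1, u⟫_ℝ = ⟪f1, u⟫_ℝ := by
      intro u hu
      rw [inner_add_left, Submodule.inner_right_of_mem_orthogonal hf0 hu.2, zero_add]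
    have key : f1 - (⟪f0 + f1, g⟫_ℝ / ⟪g, g⟫_ℝ) • g = 0 := by
      apply hW
      intro w hw
      obtain ⟨w0, hw0, w1, hw1, rfl⟩ := F.exists_add_mem_mem_orthogonal w
      have hw1U : w1 ∈ U := ⟨by simpa using W.sub_mem hw (h1 hw0), hw1⟩
      have a1 : ⟪f1, w0⟫_ℝ = 0 := Submodule.inner_left_of_mem_orthogonal hw0 hf1
      have a2 : ⟪g, w0⟫_ℝ = 0 := Submodule.inner_left_of_mem_orthogonal hw0 hg.2
      have a3 := hcon (w1 - (⟪f0 + f1, w1⟫_ℝ / ⟪f0 + f1, g⟫_ℝ) • g)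
        (U.sub_mem hw1U (U.smul_mem _ hg))
        (by rw [inner_sub_right, inner_smul_right]; field_simp; ring)
      rw [inner_sub_right, inner_smul_right, hfU w1 hw1U] at a3
      rw [inner_sub_left, inner_smul_left, inner_add_right, inner_add_right, a1, a2]
      simp only [conj_trivial, zero_add]
      have a4 : ⟪g, w1⟫_ℝ = ⟪f1, w1⟫_ℝ / ⟪f0 + f1, g⟫_ℝ * ⟪g, g⟫_ℝ := by linarith
      rw [a4]; field_simp; ring
    rw [sub_eq_zero.1 key]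
    exact W.add_mem (h1 hf0) (W.smul_mem _ hg.1)
  set a := α g with ha'
  set b := ⟪g, u⟫_ℝ with hb'
  set q := a * ⟪u, u⟫_ℝ - b * α u with hq
  obtain ⟨η, ⟨⟨⟨e1, e2⟩, e3⟩, e5⟩, e4, e6⟩ := (((h3.inf g).inf f).inf u)
    (min 1 (b ^ 2 / (4 * |a * q| + 1))) (by positivity)
  have hη : η ≠ 0 := by rintro rfl; simp at e4
  have hδ : 0 < ⟪η, η⟫_ℝ := real_inner_self_pos.2 hη
  have hδ2 : ⟪η, η⟫_ℝ * (4 * |a * q| + 1) ≤ b ^ 2 := by
    have t1 : ‖η‖ < 1 := e6.trans_le (min_le_left _ _)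
    have t2 : ‖η‖ < b ^ 2 / (4 * |a * q| + 1) := e6.trans_le (min_le_right _ _)
    rw [lt_div_iff₀ (by positivity)] at t2
    have t3 : ⟪η, η⟫_ℝ ≤ ‖η‖ := by
      rw [real_inner_self_eq_norm_sq]; nlinarith [norm_nonneg η]
    have t4 : ⟪η, η⟫_ℝ * (4 * |a * q| + 1) ≤ ‖η‖ * (4 * |a * q| + 1) := by gcongr
    linarith
  obtain ⟨s, hs⟩ := exists_quadratic_eq_zero (a := a * ⟪η, η⟫_ℝ) (b := -b) (c := q)
    (mul_ne_zero ha hδ.ne') ⟨Real.sqrt (discrim (a * ⟪η, η⟫_ℝ) (-b) q), by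
      rw [Real.mul_self_sqrt]
      unfold discrim
      have := le_abs_self (a * q)
      nlinarith⟩
  set ψ := u + s • η with hψ
  have p1 : ⟪g, ψ⟫_ℝ = b := by rw [hψ, inner_add_right, inner_smul_right, perp e2]; ring
  have p2 : ⟪ψ, ψ⟫_ℝ = ⟪u, u⟫_ℝ + s * s * ⟪η, η⟫_ℝ := by
    have := perp e5
    have h' : ⟪η, u⟫_ℝ = 0 := by rw [real_inner_comm]; exact this
    simp only [hψ, inner_add_right, inner_add_left, inner_smul_right, inner_smul_left, this, h',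
      conj_trivial]
    ring
  have p3 : α ψ = α u + s := by simp [hψ, e4]
  have p4 : ⟪f, ψ⟫_ℝ = 0 := by rw [hψ, inner_add_right, inner_smul_right, perp e3, hfu]; ring
  have p5 : ψ ≠ 0 := by
    intro h; rw [h, inner_zero_right] at p1; exact hgu p1.symm
  have p6 : ⟪ψ, ψ⟫_ℝ ≠ 0 := fun h => p5 (inner_self_eq_zero.1 h)
  have p7 : ψ ∈ U := U.add_mem hu (U.smul_mem _ e1)
  refine ⟨g - (b / ⟪ψ, ψ⟫_ℝ) • ψ, ψ, ?_, p5, U.sub_mem hg (U.smul_mem _ p7), p7, ?_, ?_, p4,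
    b / ⟪ψ, ψ⟫_ℝ, Or.inl (by simp)⟩
  · intro h
    apply hb
    rw [sub_eq_zero.1 h, inner_smul_right, p4, mul_zero]
  · rw [inner_sub_left, inner_smul_left, p1]; simp only [conj_trivial]; field_simp; ring
  · rw [map_sub, map_smul, smul_eq_mul, p3, ← ha']
    field_simp
    rw [p2]; linarith

theorem step {α : H →ₗ[ℝ] ℝ} {W : Submodule ℝ H} (hW : ∀ h : H, (∀ w ∈ W, ⟪h, w⟫_ℝ = 0) → h = 0)
    (f : H) (hf : f ∉ W) (F : Submodule ℝ H) (hF : Good α W F) (g : H) (hg : g ∈ W) :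
    ∃ p : H × H, p.1 ≠ 0 ∧ p.2 ≠ 0 ∧ p.1 ∈ W ⊓ Fᗮ ∧ p.2 ∈ W ⊓ Fᗮ ∧ ⟪p.1, p.2⟫_ℝ = 0 ∧ α p.1 = 0 ∧
      ⟪f, p.2⟫_ℝ = 0 ∧ g ∈ (F ⊔ ℝ ∙ p.1) ⊔ ℝ ∙ p.2 := by
  haveI := hF.2.1
  obtain ⟨g0, hg0, g1, hg1, rfl⟩ := F.exists_add_mem_mem_orthogonal g
  by_cases h : g1 = 0
  · obtain ⟨η, e1, e4, _⟩ := hF.2.2 1 one_pos
    obtain ⟨φ, ψ, a1, a2, a3, a4, a5, a6, a7, _⟩ :=
      step0 hW f hf hF η e1 (by rintro rfl; simp at e4)
    refine ⟨(φ, ψ), a1, a2, a3, a4, a5, a6, a7, ?_⟩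
    rw [h, add_zero]
    exact Submodule.mem_sup_left (Submodule.mem_sup_left hg0)
  · obtain ⟨φ, ψ, a1, a2, a3, a4, a5, a6, a7, c, hc⟩ :=
      step0 hW f hf hF g1 ⟨by simpa using W.sub_mem hg (hF.1 hg0), hg1⟩ h
    refine ⟨(φ, ψ), a1, a2, a3, a4, a5, a6, a7, ?_⟩
    refine Submodule.add_mem _ (Submodule.mem_sup_left (Submodule.mem_sup_left hg0)) ?_
    rcases hc with hc | hc <;> rw [hc]
    · exact Submodule.add_mem _
        (Submodule.mem_sup_left (Submodule.mem_sup_right (Submodule.mem_span_singleton_self _)))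
        (Submodule.mem_sup_right (Submodule.smul_mem _ _ (Submodule.mem_span_singleton_self _)))
    · exact Submodule.mem_sup_right (Submodule.mem_span_singleton_self _)

theorem main_abs {α : H →ₗ[ℝ] ℝ} {W : Submodule ℝ H}
    (hW : ∀ h : H, (∀ w ∈ W, ⟪h, w⟫_ℝ = 0) → h = 0)
    (f : H) (hf : f ∉ W) (hα : Unb α W) (g : ℕ → H) (hg : ∀ k, g k ∈ W) :
    ∃ e : ℕ → H, (∀ n, e n ≠ 0) ∧ (∀ m n, m ≠ n → ⟪e m, e n⟫_ℝ = 0) ∧
      (∀ n, α (e n) = 0 ∨ ⟪f, e n⟫_ℝ = 0) ∧ ∀ k, g k ∈ Submodule.span ℝ (Set.range e) := by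
  have hs : ∀ (F : {F : Submodule ℝ H // Good α W F}) (k : ℕ), ∃ p : H × H,
      p.1 ≠ 0 ∧ p.2 ≠ 0 ∧ p.1 ∈ W ⊓ F.1ᗮ ∧ p.2 ∈ W ⊓ F.1ᗮ ∧ ⟪p.1, p.2⟫_ℝ = 0 ∧ α p.1 = 0 ∧
      ⟪f, p.2⟫_ℝ = 0 ∧ g k ∈ (F.1 ⊔ ℝ ∙ p.1) ⊔ ℝ ∙ p.2 :=
    fun F k => step hW f hf F.1 F.2 (g k) (hg k)
  choose P hP using hs
  have h0 : Good α W ⊥ := ⟨bot_le, inferInstance, by simpa using hα⟩
  let F : ℕ → {F : Submodule ℝ H // Good α W F} := fun n =>
    Nat.rec ⟨⊥, h0⟩ (fun k G => ⟨(G.1 ⊔ ℝ ∙ (P G k).1) ⊔ ℝ ∙ (P G k).2,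
      (G.2.ext _ (hP G k).2.2.1.1).ext _ (hP G k).2.2.2.1.1⟩) n
  have hF : ∀ n, (F (n + 1)).1 = ((F n).1 ⊔ ℝ ∙ (P (F n) n).1) ⊔ ℝ ∙ (P (F n) n).2 := fun n => rfl
  have hmono : Monotone (fun n => (F n).1) :=
    monotone_nat_of_le_succ (fun n => by rw [hF]; exact le_sup_of_le_left le_sup_left)
  let e : ℕ → H := fun n => if n % 2 = 0 then (P (F (n / 2)) (n / 2)).1 else (P (F (n / 2)) (n / 2)).2
  have e1 : ∀ n, e n ∈ (F (n / 2 + 1)).1 := by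
    intro n
    rw [hF]
    simp only [e]
    split_ifs
    · exact Submodule.mem_sup_left (Submodule.mem_sup_right (Submodule.mem_span_singleton_self _))
    · exact Submodule.mem_sup_right (Submodule.mem_span_singleton_self _)
  have e2 : ∀ n, e n ∈ (F (n / 2)).1ᗮ := by
    intro n
    simp only [e]
    split_ifs
    · exact (hP _ _).2.2.1.2
    · exact (hP _ _).2.2.2.1.2
  have e3 : ∀ m n, m < n → ⟪e m, e n⟫_ℝ = 0 := by
    intro m n hmn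
    by_cases h : m / 2 = n / 2
    · have a1 : m % 2 = 0 := by omega
      have a2 : ¬ n % 2 = 0 := by omega
      simp only [e, a1, a2, if_true, if_false, h]
      exact (hP _ _).2.2.2.2.1
    · exact Submodule.inner_right_of_mem_orthogonal
        (hmono (show m / 2 + 1 ≤ n / 2 by omega) (e1 m)) (e2 n)
  have e4 : ∀ n, (F n).1 ≤ Submodule.span ℝ (Set.range e) := by
    intro n
    induction n with
    | zero => exact bot_le
    | succ n ih =>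
      rw [hF]
      refine sup_le (sup_le ih ?_) ?_ <;> rw [Submodule.span_singleton_le_iff_mem] <;>
        apply Submodule.subset_span
      · exact ⟨2 * n, by simp [e]⟩
      · refine ⟨2 * n + 1, ?_⟩
        have a1 : (2 * n + 1) / 2 = n := by omega
        have a2 : ¬ (2 * n + 1) % 2 = 0 := by omega
        simp only [e, a1, a2, if_false]
  refine ⟨e, ?_, ?_, ?_, fun k => e4 (k + 1) ?_⟩
  · intro n
    simp only [e]
    split_ifs
    · exact (hP _ _).1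
    · exact (hP _ _).2.1
  · intro m n hmn
    rcases lt_or_gt_of_ne hmn with h | h
    · exact e3 m n h
    · rw [real_inner_comm]; exact e3 n m h
  · intro n
    simp only [e]
    split_ifs
    · exact Or.inl (hP _ _).2.2.2.2.2.1
    · exact Or.inr (hP _ _).2.2.2.2.2.2.1
  · rw [hF]; exact (hP _ _).2.2.2.2.2.2.2

end abstr

/-- the bilinear form -/
noncomputable def B (p q : ℝ[X]) : ℝ := ∫ t in (0:ℝ)..1, p.eval t * q.eval t

theorem eq_zero_of_Icc (p : ℝ[X]) (h : ∀ t ∈ Set.Icc (0 : ℝ) 1, p.eval t = 0) : p = 0 :=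
  Polynomial.eq_zero_of_infinite_isRoot p ((Set.Icc_infinite zero_lt_one).mono h)

theorem B_def (p : ℝ[X]) (h : B p p = 0) : p = 0 := by
  apply eq_zero_of_Icc
  by_contra hcon
  push Not at hcon
  obtain ⟨t, ht, hne⟩ := hcon
  have : 0 < B p p := by
    unfold B
    exact intervalIntegral.integral_pos (f := fun t => p.eval t * p.eval t) zero_lt_one (by fun_prop)
      (fun x _ => mul_self_nonneg _) ⟨t, ht, mul_self_pos.2 hne⟩
  exact this.ne' h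

/-- the core -/
@[reducible] noncomputable def core : InnerProductSpace.Core ℝ ℝ[X] where
  inner := B
  conj_inner_symm x y := by simp [B, mul_comm]
  re_inner_nonneg x := by
    simp only [B, RCLike.re_to_real]
    exact intervalIntegral.integral_nonneg zero_le_one (fun t _ => mul_self_nonneg _)
  add_left x y z := by
    simp only [B, eval_add, add_mul]
    exact intervalIntegral.integral_add (Continuous.intervalIntegrable (by fun_prop) _ _)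
      (Continuous.intervalIntegrable (by fun_prop) _ _)
  smul_left x y r := by
    simp [B, mul_assoc]
  definite := B_def

theorem exists_sys : ∃ e : ℕ → ℝ[X], (∀ n, e n ≠ 0) ∧ (∀ m n, m ≠ n → B (e m) (e n) = 0) ∧
      (∀ n, (e n).eval 0 = 0 ∨ B 1 (e n) = 0) ∧
      ∀ k, (X - C 2) * X ^ k ∈ Submodule.span ℝ (Set.range e) := by
  letI : InnerProductSpace.Core ℝ ℝ[X] := core
  letI : NormedAddCommGroup ℝ[X] := InnerProductSpace.Core.toNormedAddCommGroup (𝕜 := ℝ)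
  letI : InnerProductSpace ℝ ℝ[X] := InnerProductSpace.ofCore inferInstance
  have hin : ∀ p q : ℝ[X], ⟪p, q⟫_ℝ = B p q := fun _ _ => rfl
  let W : Submodule ℝ ℝ[X] := LinearMap.ker (Polynomial.leval (2 : ℝ))
  have hWm : ∀ p, p ∈ W ↔ p.eval 2 = 0 := fun p => by simp [W]
  refine main_abs (α := Polynomial.leval (0 : ℝ)) (W := W) ?_ 1 (by simp [hWm]) ?_
    (fun k => (X - C 2) * X ^ k) (fun k => by simp [hWm])
  · intro h hh
    have h1 := hh ((X - C 2) ^ 2 * h) (by simp [hWm])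
    have h2 : B ((X - C 2) * h) ((X - C 2) * h) = 0 := by
      rw [← h1, hin]; unfold B
      congr 1; ext t; simp; ring
    rcases mul_eq_zero.1 (B_def _ h2) with h3 | h3
    · exact absurd h3 (X_sub_C_ne_zero 2)
    · exact h3
  · intro δ hδ
    obtain ⟨j, hj⟩ := exists_nat_one_div_lt (show 0 < δ ^ 2 by positivity)
    refine ⟨(1 - C (1 / 2) * X) * (1 - X) ^ j, by simp [hWm], by simp, ?_⟩
    apply lt_of_pow_lt_pow_left₀ 2 hδ.le
    rw [← real_inner_self_eq_norm_sq, hin]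
    refine lt_of_le_of_lt ?_ hj
    have h1 : ∫ t in (0:ℝ)..1, (1 - t) ^ j = 1 / (j + 1) := by
      rw [intervalIntegral.integral_comp_sub_left (fun x => x ^ j) 1]; simp
    rw [← h1]
    unfold B
    apply intervalIntegral.integral_mono_on zero_le_one
      (Continuous.intervalIntegrable (by fun_prop) _ _)
      (Continuous.intervalIntegrable (by fun_prop) _ _)
    intro t ht
    simp only [eval_mul, eval_sub, eval_one, eval_C, eval_X, eval_pow]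
    have a1 : 0 ≤ (1 - t) ^ j := pow_nonneg (by linarith [ht.2]) _
    have a2 : (1 - t) ^ j ≤ 1 := pow_le_one₀ (by linarith [ht.2]) (by linarith [ht.1])
    have a3 : 0 ≤ 1 - 1 / 2 * t := by linarith [ht.2]
    have a4 : 1 - 1 / 2 * t ≤ 1 := by linarith [ht.1]
    have a5 : (1 - 1 / 2 * t) * (1 - t) ^ j ≤ (1 - t) ^ j := by nlinarith
    have a6 : 0 ≤ (1 - 1 / 2 * t) * (1 - t) ^ j := by positivity
    nlinarith

theorem result :
    ¬ (∀ φ : ℕ → ℝ → ℝ,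
      (∀ n, ContinuousOn (φ n) (Set.Icc (0:ℝ) 1)) →
      (∀ n, ∃ t ∈ Set.Icc (0:ℝ) 1, φ n t ≠ 0) →
      (∀ m n : ℕ, m ≠ n → ∫ t in (0:ℝ)..1, φ m t * φ n t = 0) →
      (∀ g : ℝ → ℝ, ContinuousOn g (Set.Icc (0:ℝ) 1) → ∀ ε : ℝ, ε > 0 →
        ∃ s : Finset ℕ, ∃ c : ℕ → ℝ,
          ∀ t ∈ Set.Icc (0:ℝ) 1, |g t - ∑ i ∈ s, c i * φ i t| < ε) →
      ∀ f : ℝ → ℝ, ContinuousOn f (Set.Icc (0:ℝ) 1) → ∀ ε : ℝ, ε > 0 →
        ∃ s : Finset ℕ, (∀ i ∈ s, ∫ t in (0:ℝ)..1, f t * φ i t ≠ 0) ∧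
          ∃ c : ℕ → ℝ, ∀ t ∈ Set.Icc (0:ℝ) 1, |f t - ∑ i ∈ s, c i * φ i t| < ε) := by
  intro h
  obtain ⟨e, e1, e2, e3, e4⟩ := exists_sys
  have hspan : ∀ p : ℝ[X], (X - C 2) * p ∈ Submodule.span ℝ (Set.range e) := by
    intro p
    induction p using Polynomial.induction_on' with
    | add p q hp hq => rw [mul_add]; exact Submodule.add_mem _ hp hq
    | monomial n a =>
      have : (X - C 2) * monomial n a = a • ((X - C 2) * X ^ n : ℝ[X]) := by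
        rw [← C_mul_X_pow_eq_monomial, smul_eq_C_mul]; ring
      rw [this]; exact Submodule.smul_mem _ _ (e4 n)
  obtain ⟨s, hs, c, hc⟩ := h (fun n t => (e n).eval t) (fun n => by fun_prop)
    (fun n => by
      by_contra hcon
      push Not at hcon
      exact e1 n (eq_zero_of_Icc _ hcon)) e2
    (by
      intro g hg ε hε
      obtain ⟨p, hp⟩ := exists_polynomial_near_of_continuousOn 0 1 (fun t => g t / (t - 2))
        (hg.div (by fun_prop) (fun t ht => by linarith [ht.2])) (ε / 2) (by positivity)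
      obtain ⟨c, hc⟩ := Finsupp.mem_span_range_iff_exists_finsupp.1 (hspan p)
      refine ⟨c.support, c, fun t ht => ?_⟩
      have h1 : ∑ i ∈ c.support, c i * (e i).eval t = (t - 2) * p.eval t := by
        have := congrArg (eval t) hc
        simpa [Finsupp.sum, eval_finsetSum] using this
      have h2 : t - 2 ≠ 0 := by linarith [ht.2]
      have h3 : g t - (t - 2) * p.eval t = (2 - t) * (p.eval t - g t / (t - 2)) := by
        field_simp; ring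
      rw [h1, h3, abs_mul, abs_of_pos (by linarith [ht.2])]
      have h4 := hp t ht
      have h5 := abs_nonneg (p.eval t - g t / (t - 2))
      nlinarith [ht.1])
    (fun _ => 1) continuousOn_const 1 one_pos
  have h1 := hc 0 ⟨le_rfl, zero_le_one⟩
  have h2 : ∑ i ∈ s, c i * (e i).eval 0 = 0 := by
    apply Finset.sum_eq_zero
    intro i hi
    rcases e3 i with h3 | h3
    · rw [h3, mul_zero]
    · exact absurd (by simpa [B] using h3) (hs i hi)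
  simp [h2] at h1

end Pool.Agent.S03678
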