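import Pool.Statements.S03687
import Pool.Agent.H.MP_03548f_an.Riesz
import Pool.Agent.H.MP_03548f_an.Limit

set_option autoImplicit false
open MeasureTheory
open Pool Pool.MP_03548f_an

namespace Pool.Agent.S03687

open Pool.Agent.H.MP_03548f_an Set

lemma ent_eq (μ : Measure (ℕ → ℕ)) {m : ℕ} (f : ℕ → Fin m) (n : ℕ) :
    ∑ w : Fin n → Fin m,
      Real.negMulLog ((μ {x : ℕ → ℕ | ∀ i : Fin n, f (x i.val) = w i}).toReal) =
      ent μ (Wd f n) := by
  refine Finset.sum_congr rfl fun w _ => ?_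
  have : {x : ℕ → ℕ | ∀ i : Fin n, f (x i.val) = w i} = Wd f n ⁻¹' {w} := by
    ext x
    simp only [mem_ofPred_eq, mem_preimage, mem_singleton_iff, funext_iff, Wd]
  rw [this]; rfl

lemma phi_Wd {m N : ℕ} (f : ℕ → Fin m) (a : Fin m) {t : ℕ} (ht : t < N) (x : ℕ → ℕ) :
    phi a t (Wd f N x) = if f (x t) = a then 1 else 0 := by
  rw [phi, dif_pos ht]; rfl

lemma mean_phi (μ : Measure (ℕ → ℕ)) [IsProbabilityMeasure μ] (h : MeasurePreserving (sh 1) μ μ)
    {m N : ℕ} (f : ℕ → Fin m) (a : Fin m) {t : ℕ} (ht : t < N) :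
    ∑ w, pr μ (Wd f N) w * phi a t w = μ.real {x | f (x 0) = a} := by
  rw [← bridge μ (meas_Wd f N)]
  simp only [phi_Wd f a ht]
  have h1 := int_comp μ (meas_lt f 0) (sh_mp h t) (fun b => if b = a then 1 else 0)
  simp only [sh, zero_add] at h1
  have hm : MeasurableSet {x : ℕ → ℕ | f (x 0) = a} := meas_lt f 0 (measurableSet_singleton a)
  rw [h1, ← integral_indicator_one hm]
  congr 1
  funext x
  simp [indicator]

lemma clopen_cyl {m : ℕ} (f : ℕ → Fin m) (a : Fin m) : IsClopen {x : ℕ → ℕ | f (x 0) = a} := by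
  have : Continuous fun x : ℕ → ℕ => f (x 0) :=
    (continuous_of_discreteTopology (f := f)).comp (continuous_apply 0)
  exact (isClopen_discrete {a}).preimage this

theorem result :
    ∀ (μ ν : Measure (ℕ → ℕ)),
      IsProbabilityMeasure μ → IsProbabilityMeasure ν →
      MeasurePreserving (fun (x : ℕ → ℕ) (n : ℕ) => x (n + 1)) μ μ →
      MeasurePreserving (fun (x : ℕ → ℕ) (n : ℕ) => x (n + 1)) ν ν →
      (∃ m : ℕ, ∃ f : ℕ → Fin m, ∃ c : ℝ, 0 < c ∧ ∀ n : ℕ,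
        c * (n : ℝ) ≤ ∑ w : Fin n → Fin m,
          Real.negMulLog ((μ {x : ℕ → ℕ | ∀ i : Fin n, f (x i.val) = w i}).toReal)) →
      (∃ m : ℕ, ∃ f : ℕ → Fin m, ∃ c : ℝ, 0 < c ∧ ∀ n : ℕ,
        c * (n : ℝ) ≤ ∑ w : Fin n → Fin m,
          Real.negMulLog ((ν {x : ℕ → ℕ | ∀ i : Fin n, f (x i.val) = w i}).toReal)) →
      ∃ ξ : Measure ((ℕ → ℕ) × (ℕ → ℕ)),
        IsProbabilityMeasure ξ ∧
        MeasurePreserving
          (Prod.map (fun (x : ℕ → ℕ) (n : ℕ) => x (n + 1))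
                    (fun (x : ℕ → ℕ) (n : ℕ) => x (n + 1))) ξ ξ ∧
        ξ.map Prod.fst = μ ∧ ξ.map Prod.snd = ν ∧
        ∃ a b : ℕ,
          ξ ({p : (ℕ → ℕ) × (ℕ → ℕ) | p.1 0 = a} ∩ {p | p.2 0 = b}) ≠
            μ {x : ℕ → ℕ | x 0 = a} * ν {y : ℕ → ℕ | y 0 = b} := by
  rintro μ ν hμ hν sμ sν ⟨m, f, c, hc, hH⟩ ⟨m', f', c', hc', hH'⟩
  simp only [ent_eq] at hH hH'
  obtain ⟨a, d, hd, ha⟩ := innov_fwd μ sμ f hc hH
  obtain ⟨b, d', hd', hb⟩ := innov_bwd ν sν f' hc' hH'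
  set E : Set (ℕ → ℕ) := {x | f (x 0) = a} with hE
  set F : Set (ℕ → ℕ) := {x | f' (x 0) = b} with hF
  have hQ : IsClopen (E ×ˢ F) := (clopen_cyl f a).prod (clopen_cyl f' b)
  have step : ∀ N : ℕ, ∃ ξ : Measure ((ℕ → ℕ) × (ℕ → ℕ)), IsProbabilityMeasure ξ ∧
      ξ.map Prod.fst = μ ∧ ξ.map Prod.snd = ν ∧
      ∀ t < N, μ.real E * ν.real F + d * d' ≤ ξ.real (TT t ⁻¹' (E ×ˢ F)) := by
    intro N
    obtain ⟨R, r0, r1, r2, r3⟩ := riesz (pr μ (Wd f N)) (pr ν (Wd f' N)) (pr_nonneg μ _)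
      (pr_nonneg ν _) (pr_sum μ (meas_Wd f N)) (pr_sum ν (meas_Wd f' N)) a b
    obtain ⟨ξ, x0, x1, x2, x3⟩ := coup μ ν (meas_Wd f N) (meas_Wd f' N) R r0 r1 r2
    refine ⟨ξ, x0, x1, x2, fun t ht => ?_⟩
    obtain ⟨q, q', hq, hq', hr⟩ := r3 t ht
    have e1 : ξ.real (TT t ⁻¹' (E ×ˢ F)) =
        ∫ p, phi a t (Wd f N p.1) * phi b t (Wd f' N p.2) ∂ξ := by
      rw [← integral_indicator_one ((TT_cont t).measurable hQ.isOpen.measurableSet)]
      congr 1
      funext p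
      rw [phi_Wd f a ht, phi_Wd f' b ht]
      by_cases h1 : f (p.1 t) = a <;> by_cases h2 : f' (p.2 t) = b <;>
        simp [indicator, TT, sh, hE, hF, h1, h2]
    rw [e1, x3, hr, mean_phi μ sμ f a ht, mean_phi ν sν f' b ht]
    have e2 : d ≤ ∑ w, pr μ (Wd f N) w * (phi a t w - q w) ^ 2 := by
      rw [← bridge μ (meas_Wd f N) (fun w => (phi a t w - q w) ^ 2)]
      refine (ha t fun u => q fun i => if h : i.val < t then u ⟨i, h⟩ else a).trans (le_of_eq ?_)
      congr 1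
      funext x
      rw [phi_Wd f a ht, hq (Wd f N x) _ fun i hi => ?_]
      simp only at hi
      simp only [dif_pos hi, Wd]
    have e3 : d' ≤ ∑ w, pr ν (Wd f' N) w * (phi b t w - q' w) ^ 2 := by
      rw [← bridge ν (meas_Wd f' N) (fun w => (phi b t w - q' w) ^ 2)]
      refine (hb N fun u => q' fun i => u ⟨i - (t + 1), by have := i.2; omega⟩).trans
        (le_of_eq ?_)
      rw [← int_comp ν (W := fun x => (f' (x 0), Wd f' N (sh 1 x)))
        ((meas_lt f' 0).prodMk ((meas_Wd f' N).comp sν.measurable)) (sh_mp sν t)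
        (fun p => ((if p.1 = b then 1 else 0) -
          q' fun i => p.2 ⟨i - (t + 1), by have := i.2; omega⟩) ^ 2)]
      congr 1
      funext x
      rw [phi_Wd f' b ht, hq' (Wd f' N x) _ fun i hi => ?_]
      · simp only [sh, zero_add]
        rfl
      · simp only at hi
        simp only [Wd, sh]
        exact congrArg (fun j => f' (x j)) (by omega)
    have e4 := mul_le_mul e2 e3 hd'.le (hd.le.trans e2)
    linarith
  choose ξ x0 x1 x2 x3 using step
  obtain ⟨η, y0, y1, y2, y3, y4⟩ := limit μ ν sμ sν _ hQ _ ξ x0 x1 x2 x3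
  refine ⟨η, y0, y1, y2, y3, ?_⟩
  by_contra hcon
  push Not at hcon
  have m0 : Measurable fun x : ℕ → ℕ => x 0 := measurable_pi_apply 0
  have m1 : Measurable fun p : (ℕ → ℕ) × (ℕ → ℕ) => (p.1 0, p.2 0) :=
    (m0.comp measurable_fst).prodMk (m0.comp measurable_snd)
  have key : η.map (fun p : (ℕ → ℕ) × (ℕ → ℕ) => (p.1 0, p.2 0)) =
      (μ.map fun x => x 0).prod (ν.map fun x => x 0) := by
    refine Measure.ext_of_singleton fun r => ?_
    obtain ⟨i, j⟩ := r
    rw [Measure.map_apply m1 (measurableSet_singleton _), ← singleton_prod_singleton,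
      Measure.prod_prod, Measure.map_apply m0 (measurableSet_singleton _),
      Measure.map_apply m0 (measurableSet_singleton _)]
    exact hcon i j
  have k2 := congrArg (fun ρ : Measure (ℕ × ℕ) => ρ ({i | f i = a} ×ˢ {j | f' j = b})) key
  rw [Measure.prod_prod, Measure.map_apply m1 (MeasurableSet.of_discrete),
    Measure.map_apply m0 (MeasurableSet.of_discrete),
    Measure.map_apply m0 (MeasurableSet.of_discrete)] at k2
  have k3 : η.real (E ×ˢ F) = μ.real E * ν.real F := by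
    rw [measureReal_def, measureReal_def, measureReal_def, ← ENNReal.toReal_mul]
    exact congrArg ENNReal.toReal k2
  have := mul_pos hd hd'
  linarith

end Pool.Agent.S03687
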