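import Pool.Statements.S03690
import Pool.Agent.H.MP_0396c7_an.B

set_option autoImplicit false
open Filter
open Pool Pool.MP_0396c7_an Pool.Agent.H.MP_0396c7_an

namespace Pool.Agent.S03690

theorem result :
    ¬ (∀ (X : Type) [MetricSpace X] [CompactSpace X] (T : X → X), Continuous T →
      (∀ U V : Set X, IsOpen U → IsOpen V → U.Nonempty → V.Nonempty →
        ∃ n : ℕ, 1 ≤ n ∧ (V ∩ T^[n] ⁻¹' U).Nonempty) →
      (∀ a : ℕ → ℕ, StrictMono a → ∀ ε : ℝ, 0 < ε → ∀ δ : ℝ, 0 < δ →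
        ∀ᶠ n in atTop, ∀ F : Finset X,
          (∀ x ∈ F, ∀ y ∈ F, x ≠ y → ∃ i < n, ε ≤ dist (T^[a i] x) (T^[a i] y)) →
          (F.card : ℝ) ≤ Real.exp (δ * n)) →
      ∀ ε : ℝ, 0 < ε → ∃ δ : ℝ, 0 < δ ∧ ∀ x y : X, dist x y < δ →
        ∀ᶠ n in atTop,
          (∑ i ∈ Finset.range n, dist (T^[i] x) (T^[i] y)) / (n : ℝ) < ε) := by
  intro h
  let _ : MetricSpace XX := TopologicalSpace.metrizableSpaceMetric _
  set A : XX := ⟨_, one_mem⟩
  set B : XX := ⟨_, zero_mem⟩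
  have hD : 0 < dist A B := dist_pos.2 (fun h => by simpa [A, B] using congrFun (congrArg Subtype.val h) 0)
  obtain ⟨δ, hδ, hm⟩ := h XX TT TT_cont Pool.Agent.H.MP_0396c7_an.trans
    (fun a _ => null dist continuous_dist dist_self a) (dist A B / 4) (by positivity)
  obtain ⟨i, hi⟩ := dense_pt.exists_dist_lt A hδ
  obtain ⟨j, hj⟩ := dense_pt.exists_dist_lt B hδ
  have fA : ∀ l, TT^[l] A = A := fun l => Subtype.ext (funext (fun m => TT_iter l A m))
  have fB : ∀ l, TT^[l] B = B := fun l => Subtype.ext (funext (fun m => TT_iter l B m))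
  have h1 := (tendsto_add_atTop_nat j).eventually (hm A _ hi)
  have h2 := (tendsto_add_atTop_nat i).eventually (hm B _ hj)
  obtain ⟨n, ⟨a1, a2⟩, a3⟩ := ((h1.and h2).and (eventually_gt_atTop (i + j))).exists
  simp only [fA, fB, TT_pt] at a1 a2
  have a3' : (i:ℝ) + j < n := by exact_mod_cast a3
  have i0 : (0:ℝ) ≤ i := Nat.cast_nonneg _
  have j0 : (0:ℝ) ≤ j := Nat.cast_nonneg _
  rw [div_lt_iff₀ (by push_cast; linarith), add_comm n, Finset.sum_range_add] at a1 a2
  have s1 : 0 ≤ ∑ l ∈ Finset.range j, dist A (pt (l + i)) := Finset.sum_nonneg (fun _ _ => dist_nonneg)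
  have s2 : 0 ≤ ∑ l ∈ Finset.range i, dist B (pt (l + j)) := Finset.sum_nonneg (fun _ _ => dist_nonneg)
  have s3 : ∑ _l ∈ Finset.range n, dist A B ≤ ∑ l ∈ Finset.range n, dist A (pt (j + l + i)) +
      ∑ l ∈ Finset.range n, dist B (pt (i + l + j)) := by
    rw [← Finset.sum_add_distrib]
    refine Finset.sum_le_sum (fun l _ => ?_)
    rw [show i + l + j = j + l + i by ring]
    exact dist_triangle_right _ _ _
  rw [Finset.sum_const, Finset.card_range, nsmul_eq_mul] at s3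
  push_cast at a1 a2
  nlinarith

end Pool.Agent.S03690
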