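import Pool.Statements.S03716
import Pool.Agent.H.MP_05b6ce_an.A

set_option autoImplicit false
open Pool Pool.MP_05b6ce_an

namespace Pool.Agent.S03716

theorem result :
    ¬ (∀ (a b φ : ℕ → ℂ),
    (∀ g : ℕ → ℂ, Summable (fun n => ‖g n‖ ^ 2) →
      Summable (fun n => ‖∑ k ∈ Finset.range (n+1), a k * g (n-k)‖ ^ 2) ∧
      Summable (fun n => ‖∑ k ∈ Finset.range (n+1), b k * g (n-k)‖ ^ 2) ∧
      (∑' n, ‖∑ k ∈ Finset.range (n+1), a k * g (n-k)‖ ^ 2) +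
        (∑' n, ‖∑ k ∈ Finset.range (n+1), b k * g (n-k)‖ ^ 2) = ∑' n, ‖g n‖ ^ 2) →
    (∀ g : ℕ → ℂ, Summable (fun n => ‖g n‖ ^ 2) →
      (∀ j : ℕ, ∑' n, a n * starRingEnd ℂ (g (n + j)) = 0) → g = 0) →
    0 < (a 0).re → (a 0).im = 0 →
    (∀ n, ∑ k ∈ Finset.range (n+1), a k * φ (n-k) = b n) →
    ∀ f c : ℕ → ℂ, Summable (fun n => ‖f n‖ ^ 2) →
      (∀ m, Filter.Tendsto (fun N => ∑ n ∈ Finset.range N, starRingEnd ℂ (φ n) * f (m+n))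
        Filter.atTop (nhds (c m))) →
      Summable (fun m => ‖c m‖ ^ 2) →
      IsLUB {x : ℝ | ∃ g : ℕ → ℂ, Summable (fun n => ‖g n‖ ^ 2) ∧
          x = (∑' n, ‖f n + ∑ k ∈ Finset.range (n+1), b k * g (n-k)‖ ^ 2) - ∑' n, ‖g n‖ ^ 2}
        ((∑' m, ‖f m‖ ^ 2) + ∑' m, ‖c m‖ ^ 2)) := by
  intro h
  obtain ⟨a, b, h1, h2, h3, h4, h5, h6⟩ := Pool.Agent.H.MP_05b6ce_an.main
  obtain ⟨f, f0, f1, f2⟩ := Pool.Agent.H.MP_05b6ce_an.exists_f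
  have f3 : Summable fun n => ‖(f n : ℂ)‖ ^ 2 := by simpa using f1
  have h7 := h a b (fun n => (Pool.Agent.H.MP_05b6ce_an.ph n : ℂ)) h1 h2 h3 h4 h5
    (fun n => (f n : ℂ)) (fun _ => 0) f3 (fun m => by
      have := (Complex.continuous_ofReal.tendsto 0).comp (f2 m)
      simpa [Function.comp_def] using this) (by simpa using summable_zero)
  have h8 := h6 _ f3 fun g hg => by simpa using h7.1 ⟨g, hg, rfl⟩
  simp [f0] at h8

end Pool.Agent.S03716
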