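import Pool.Statements.S03733
import Pool.Agent.H.MP_e9aa5f_an.G

set_option autoImplicit false
open MeasureTheory AddCircle
open Pool Pool.MP_0811ac_an

namespace Pool.Agent.S03733

theorem result :
    ∀ φ : UnitAddCircle → ℂ,
      AEStronglyMeasurable φ haarAddCircle →
      eLpNorm φ ⊤ haarAddCircle < ⊤ →
      (∀ f : UnitAddCircle → ℂ,
        (AEStronglyMeasurable f haarAddCircle ∧ eLpNorm f ⊤ haarAddCircle < ⊤ ∧
          ∀ n : ℤ, n < 0 → fourierCoeff f n = 0) →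
        ∃ g : UnitAddCircle → ℂ,
          (AEStronglyMeasurable g haarAddCircle ∧ eLpNorm g ⊤ haarAddCircle < ⊤ ∧
            ∀ n : ℤ, n < 0 → fourierCoeff g n = 0) ∧
          ∀ n : ℤ, 0 ≤ n → fourierCoeff g n = fourierCoeff (fun t => φ t * f t) n) →
      IsLUB
        {r : ℝ | ∃ c : ℂ, r = ‖c‖ ∧
          ¬ ((∀ f : UnitAddCircle → ℂ,
                (AEStronglyMeasurable f haarAddCircle ∧ eLpNorm f ⊤ haarAddCircle < ⊤ ∧
                  ∀ n : ℤ, n < 0 → fourierCoeff f n = 0) →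
                (∀ n : ℤ, 0 ≤ n → fourierCoeff (fun t => (φ t - c) * f t) n = 0) →
                f =ᵐ[haarAddCircle] 0) ∧
             (∀ g : UnitAddCircle → ℂ,
                (AEStronglyMeasurable g haarAddCircle ∧ eLpNorm g ⊤ haarAddCircle < ⊤ ∧
                  ∀ n : ℤ, n < 0 → fourierCoeff g n = 0) →
                ∃ f : UnitAddCircle → ℂ,
                  (AEStronglyMeasurable f haarAddCircle ∧ eLpNorm f ⊤ haarAddCircle < ⊤ ∧
                    ∀ n : ℤ, n < 0 → fourierCoeff f n = 0) ∧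
                  ∀ n : ℤ, 0 ≤ n →
                    fourierCoeff (fun t => (φ t - c) * f t) n = fourierCoeff g n))}
        (eLpNorm φ ⊤ haarAddCircle).toReal := by
  intro φ h1 h2 h
  simp only [H.MP_e9aa5f_an.HH_iff] at h ⊢
  have hφ := H.MP_e9aa5f_an.bd_top h1 h2
  obtain ⟨N, hN⟩ := H.MP_e9aa5f_an.tb_ex hφ h
  refine ⟨?_, fun b hb => H.MP_e9aa5f_an.lower h1 h2 fun c hc => ?_⟩
  · rintro r ⟨c, rfl, hc⟩
    by_contra h3
    exact hc (H.MP_e9aa5f_an.upper hφ hN (not_le.1 h3))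
  · by_contra h3
    exact hc.not_ge (hb ⟨c, rfl, fun h4 => h3 h4.2⟩)

end Pool.Agent.S03733
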