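import Pool.Statements.S03740
import Pool.Agent.H.MP_090684_an.D

set_option autoImplicit false
open Pool Pool.MP_090684_an

namespace Pool.Agent.S03740

open Pool.Agent.H.MP_090684_an Complex Filter Topology Set Metric Real in
theorem result :
    ¬ (∀ (n : ℕ) (G : Set ℂ) (γ : Fin n → ℝ → ℂ),
      0 < n → IsOpen G → IsConnected G → Bornology.IsBounded G →
      (∀ j, AnalyticOnNhd ℝ (γ j) Set.univ) →
      (∀ j, Function.Periodic (γ j) 1) →
      (∀ j, Set.InjOn (γ j) (Set.Ico 0 1)) →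
      (∀ j t, deriv (γ j) t ≠ 0) →
      (∀ i j, i ≠ j → Disjoint (Set.range (γ i)) (Set.range (γ j))) →
      frontier G = ⋃ j, Set.range (γ j) →
      ((∀ α : Fin n → ℂ, ∃ U : Set ℂ, IsOpen U ∧ closure G ⊆ U ∧
          ∃ f : ℂ → ℂ, DifferentiableOn ℂ f U ∧
            ∀ j, (∫ t in (0:ℝ)..1, f (γ j t) * (((‖deriv (γ j) t‖ : ℝ)) : ℂ)) = α j) ↔
        ¬ ∃ c : ℂ, ∃ r₁ r₂ : ℝ, 0 < r₁ ∧ r₁ < r₂ ∧
            G = {z : ℂ | r₁ < ‖z - c‖ ∧ ‖z - c‖ < r₂})) := by
  intro H
  obtain ⟨φ, R, S, m, m0, inj, hK, bd⟩ := main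
  have p2 := Real.two_pi_pos
  set w : Fin 4 → ℝ → ℂ := fun j t => circleMap (c j) (r j) (2 * π * t) with hw
  have ws : ∀ j t, w j t ∈ sphere (c j) (r j) := fun j t => circleMap_mem_sphere _ (r0' j).le _
  have wK : ∀ j t, w j t ∈ K := fun j t => (sK j (ws j t)).1
  have rg : ∀ j, range (fun t => φ (w j t)) = φ '' sphere (c j) (r j) := fun j => by
    rw [← abs_of_pos (r0' j), ← range_circleMap, ← range_comp]
    exact (mul_left_surjective₀ p2.ne').range_comp (φ ∘ circleMap (c j) (r j))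
  have dv : ∀ j t, deriv (fun t => φ (w j t)) t =
      R (w j t) ^ 2 * ((2 * π : ℝ) • (circleMap 0 (r j) (2 * π * t) * I)) := fun j t =>
    ((hK _ (wK j t)).2.1.comp_of_eq t ((hasDerivAt_circleMap (c j) (r j) _).scomp t
      ((hasDerivAt_id t).const_mul (2 * π))) rfl).deriv.trans (by simp)
  have o : IsOpen (φ '' V ρ ρ⁻¹) := isOpen_iff_mem_nhds.2 (by
    rintro _ ⟨z, hz, rfl⟩
    have k := hK z (VK hz)
    rw [← k.1.hasStrictDerivAt.map_nhds_eq (k.2.1.deriv ▸ pow_ne_zero 2 k.2.2.1)]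
    exact image_mem_map ((Vo _ _).mem_nhds hz))
  have cφ : ContinuousOn φ K := fun z hz => (hK z hz).1.continuousAt.continuousWithinAt
  have cK := Kc.image_of_continuousOn cφ
  have cl : closure (φ '' V ρ ρ⁻¹) = φ '' K := by
    refine (closure_minimal (image_mono VK) cK.isClosed).antisymm ?_
    rintro _ ⟨z, hz, rfl⟩
    by_cases b : z ∈ V ρ ρ⁻¹
    · exact subset_closure ⟨z, b, rfl⟩
    · obtain ⟨j, hj⟩ := Ks hz b
      exact (hK z hz).1.continuousAt.continuousWithinAt.mem_closure_image (sK j hj).2.2.1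
  have dj : ∀ i j, i ≠ j → Disjoint (range fun t => φ (w i t)) (range fun t => φ (w j t)) := by
    intro i j n
    refine disjoint_left.2 ?_
    rintro _ ⟨s, rfl⟩ ⟨t, h⟩
    exact n ((sK j (ws j t)).2.2.2 i (inj (wK j t) (wK i s) h ▸ ws i s))
  have fr : frontier (φ '' V ρ ρ⁻¹) = ⋃ j, range fun t => φ (w j t) := by
    rw [o.frontier_eq, cl]
    simp only [rg]
    ext z
    constructor
    · rintro ⟨⟨v, hv, rfl⟩, n⟩
      obtain ⟨j, hj⟩ := Ks hv fun b => n ⟨v, b, rfl⟩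
      exact mem_iUnion.2 ⟨j, v, hj, rfl⟩
    · intro h
      obtain ⟨j, v, hv, rfl⟩ := mem_iUnion.1 h
      exact ⟨⟨v, (sK j hv).1, rfl⟩, fun ⟨u, hu, e⟩ =>
        (sK j hv).2.1 (inj (VK hu) (sK j hv).1 e ▸ hu)⟩
  obtain ⟨U, hU, sU, f, hf, hI⟩ := (H 4 (φ '' V ρ ρ⁻¹) (fun j t => φ (w j t)) (by norm_num) o
    ⟨⟨_, 3, Vb (by norm_num [ρ]) (by norm_num [ρ]), rfl⟩, Vc.image _ (cφ.mono VK)⟩
    (cK.isBounded.subset (image_mono VK))
    (fun j t _ => ((hK _ (wK j t)).1.restrictScalars (𝕜 := ℝ)).fun_comp_of_eq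
      ((analyticOnNhd_circleMap _ _ _ trivial).fun_comp (analyticAt_const.mul analyticAt_id)) rfl)
    (fun j t => by simp only [hw, mul_add, mul_one, periodic_circleMap _ _ _])
    (fun j s hs t ht h => mul_left_cancel₀ p2.ne' (injOn_circleMap_of_abs_sub_le' (a := 0)
      (b := 2 * π) (r0' j).ne' (by simp) ⟨by nlinarith [hs.1], by nlinarith [hs.2]⟩
      ⟨by nlinarith [ht.1], by nlinarith [ht.2]⟩ (inj (wK j s) (wK j t) h)))
    (fun j t => by
      rw [dv]
      exact mul_ne_zero (pow_ne_zero 2 (hK _ (wK j t)).2.2.1) (smul_ne_zero p2.ne'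
        (mul_ne_zero (circleMap_ne_center (r0' j).ne') I_ne_zero)))
    dj fr).2 (by
      rintro ⟨x, p, q, hp, hq, h⟩
      refine nann _ (fun j => ?_) (fun j => range_nonempty _) dj x p q hp hq (h ▸ fr)
      rw [rg]
      exact ((isCompact_sphere _ _).image_of_continuousOn
        (cφ.mono fun z hz => (sK j hz).1)).isClosed) (Pi.single 0 1)
  have key : ∀ j, (r j : ℂ) * (∮ z in C(0, r j), f (φ (c j + z)) * S (c j + z) * R (c j + z)) =
      I * m j * (Pi.single 0 1 : Fin 4 → ℂ) j := fun j => by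
    have e := intervalIntegral.smul_integral_comp_mul_left (a := 0) (b := 1) (fun θ =>
      deriv (circleMap 0 (r j)) θ • (f (φ (c j + circleMap 0 (r j) θ)) *
        S (c j + circleMap 0 (r j) θ) * R (c j + circleMap 0 (r j) θ))) (2 * π)
    rw [mul_zero, mul_one] at e
    rw [← hI j, circleIntegral, ← e, ← intervalIntegral.integral_smul,
      ← intervalIntegral.integral_const_mul, ← intervalIntegral.integral_const_mul]
    refine intervalIntegral.integral_congr fun t _ => ?_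
    have n : ‖circleMap 0 (r j) (2 * π * t)‖ = r j := by
      rw [norm_circleMap_zero, abs_of_pos (r0' j)]
    have b := bd j _ n
    have v : c j + circleMap 0 (r j) (2 * π * t) = w j t := by simp [hw, circleMap]
    simp only [dv, deriv_circleMap, v, norm_mul, norm_pow, norm_smul, n, norm_I,
      Real.norm_of_nonneg p2.le] at b ⊢
    simp only [smul_eq_mul, real_smul, ofReal_mul, ofReal_pow, ← mul_conj', ofReal_one]
    linear_combination (r j * I * (((2:ℝ) : ℂ) * π) * f (φ (w j t)) * R (w j t) : ℂ) * b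
  have C := cauchy3 ρ ρ⁻¹ ρ0 (by norm_num [ρ]) (by norm_num [ρ])
    (fun z => f (φ z) * S z * R z) fun z h1 h2 => by
      have k := hK z ⟨h1, h2⟩
      exact (((hf.differentiableAt (hU.mem_nhds (sU (cl ▸ ⟨z, ⟨h1, h2⟩, rfl⟩)))).comp z
        k.1.differentiableAt).mul k.2.2.2.2).mul k.2.2.2.1
  have k0 := key 0
  have k1 : ∀ j, (∮ z in C(0, ρ), f (φ (a j + z)) * S (a j + z) * R (a j + z)) = 0 := fun j =>
    (mul_eq_zero.1 ((key j.succ).trans (by simp))).resolve_left (ofReal_ne_zero.2 ρ0.ne')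
  simp only [k1, Finset.sum_const_zero] at C
  simp only [c, r, Fin.cons_zero, zero_add, C, mul_zero, Pi.single_eq_same, mul_one] at k0
  exact mul_ne_zero I_ne_zero m0 k0.symm

end Pool.Agent.S03740
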