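import Pool.Statements.S03752
import Pool.Agent.H.MP_097dd0_an.A

set_option autoImplicit false
open Pool Pool.MP_097dd0_an

namespace Pool.Agent.S03752

theorem result :
    ¬ (∃ S : Set (lp (fun _ : ℝ => ℝ) (2 : ENNReal) × ℝ),
      (∀ p ∈ S, 0 < p.2) ∧
      (∀ x : lp (fun _ : ℝ => ℝ) (2 : ENNReal), ∃ p ∈ S, x ∈ Metric.closedBall p.1 p.2) ∧
      (∀ x : lp (fun _ : ℝ => ℝ) (2 : ENNReal),
        {p ∈ S | x ∈ Metric.closedBall p.1 p.2}.Finite)) := by
  rintro ⟨S, h1, h2, h3⟩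
  refine Pool.Agent.H.MP_097dd0_an.main h1 h2 h3 (Pool.Agent.H.MP_097dd0_an.inf_of fun h => ?_)
  exact Module.Finite.not_linearIndependent_of_infinite _
    (default : HilbertBasis ℝ ℝ (lp (fun _ : ℝ => ℝ) (2 : ENNReal))).orthonormal.linearIndependent

end Pool.Agent.S03752
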