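import Pool.Statements.S03759
-- import your own Pool.Agent.* helpers here

set_option autoImplicit false
open Pool Pool.MP_09f91e_an

namespace Pool.Agent.S03759

noncomputable def LA : List (ℝ × ℝ × Matrix (Fin 3) (Fin 3) ℝ) :=
    [(3 / 4, 1, !![49 / 37, 0, 0; 0, 1, 0; 0, 0, 1]),
     (1 / 4, 49, !![1 / 37, 0, 0; 0, 1, 0; 0, 0, 1])]

noncomputable def LB : List (ℝ × ℝ × Matrix (Fin 3) (Fin 3) ℝ) :=
    [(1 / 4, 1, !![31 / 13, 18 / 13, 0; 18 / 13, 31 / 13, 0; 0, 0, 1]),
     (3 / 4, 49, !![7 / 13, -6 / 13, 0; -6 / 13, 7 / 13, 0; 0, 0, 1])]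

noncomputable def LL : List (ℝ × ℝ × Matrix (Fin 3) (Fin 3) ℝ) :=
    [(3 / 40, 1, !![187033 / 48133, -148176 / 48133, 0; 46548 / 48133, -7811 / 48133, 0; 0, 0, 1]),
     (1 / 40, 49, !![3817 / 48133, -3024 / 48133, 0; 46548 / 48133, -7811 / 48133, 0; 0, 0, 1]),
     (9 / 40, 1, !![82951 / 48133, 104898 / 48133, 0; 39990 / 48133, 146815 / 48133, 0; 0, 0, 1]),
     (27 / 40, 49, !![22735 / 48133, -18390 / 48133, 0; -20226 / 48133, 23527 / 48133, 0; 0, 0, 1])]

theorem result :
    ∃ s1 s2 : ℝ, 0 < s1 ∧ 0 < s2 ∧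
    ∃ L : List (ℝ × ℝ × Matrix (Fin 3) (Fin 3) ℝ),
      (∀ P : List (ℝ × ℝ × Matrix (Fin 3) (Fin 3) ℝ) → Prop,
        P [((1 : ℝ), s1, (1 : Matrix (Fin 3) (Fin 3) ℝ))] →
        P [((1 : ℝ), s2, (1 : Matrix (Fin 3) (Fin 3) ℝ))] →
        (∀ A B : List (ℝ × ℝ × Matrix (Fin 3) (Fin 3) ℝ), P A → P B →
          ∀ t : ℝ, 0 < t → t < 1 →
          ∀ n : Fin 3 → ℝ, n ≠ 0 →
          ∀ EA EB : Matrix (Fin 3) (Fin 3) ℝ,
            t • EA + (1 - t) • EB = 1 →
            (∃ c : Fin 3 → ℝ, EA - EB = Matrix.vecMulVec n c) →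
            Matrix.vecMul n
              ((A.map (fun p => (p.1 * p.2.1) • p.2.2)).sum * EA
                - (B.map (fun p => (p.1 * p.2.1) • p.2.2)).sum * EB) = 0 →
            P (A.map (fun p => (t * p.1, p.2.1, p.2.2 * EA))
                ++ B.map (fun p => ((1 - t) * p.1, p.2.1, p.2.2 * EB)))) →
        P L) ∧
      ∃ a ∈ L, ∃ b ∈ L,
        0 < (Matrix.adjugate a.2.2).trace ∧ (Matrix.adjugate b.2.2).trace < 0 := by
  refine ⟨1, 49, by norm_num, by norm_num, LL, ?_, ?_⟩
  · intro P h1 h2 hs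
    have hA : P LA := by
      have := hs _ _ h1 h2 (3 / 4) (by norm_num) (by norm_num) ![1, 0, 0]
        (fun h => by simpa using congrFun h 0)
        !![49 / 37, 0, 0; 0, 1, 0; 0, 0, 1]
        !![1 / 37, 0, 0; 0, 1, 0; 0, 0, 1]
        (by ext i j; fin_cases i <;> fin_cases j <;> simp <;> norm_num)
        ⟨![48 / 37, 0, 0], by
          ext i j; fin_cases i <;> fin_cases j <;> simp [Matrix.vecMulVec_apply] <;> norm_num⟩
        (by
          ext j
          fin_cases j <;>
            simp [Matrix.vecMul, dotProduct, Fin.sum_univ_three, Matrix.mul_apply,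
              Matrix.one_apply] <;> norm_num)
      convert this using 1
      simp only [LA, List.map_cons, List.map_nil, List.cons_append, List.nil_append,
        Matrix.one_mul, Matrix.mul_fin_three]
      norm_num
    have hB : P LB := by
      have := hs _ _ h1 h2 (1 / 4) (by norm_num) (by norm_num) ![1, 1, 0]
        (fun h => by simpa using congrFun h 0)
        !![31 / 13, 18 / 13, 0; 18 / 13, 31 / 13, 0; 0, 0, 1]
        !![7 / 13, -6 / 13, 0; -6 / 13, 7 / 13, 0; 0, 0, 1]
        (by ext i j; fin_cases i <;> fin_cases j <;> simp <;> norm_num)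
        ⟨![24 / 13, 24 / 13, 0], by
          ext i j; fin_cases i <;> fin_cases j <;> simp [Matrix.vecMulVec_apply] <;> norm_num⟩
        (by
          ext j
          fin_cases j <;>
            simp [Matrix.vecMul, dotProduct, Fin.sum_univ_three, Matrix.mul_apply,
              Matrix.one_apply] <;> norm_num)
      convert this using 1
      simp only [LB, List.map_cons, List.map_nil, List.cons_append, List.nil_append,
        Matrix.one_mul, Matrix.mul_fin_three]
      norm_num
    have hL : P LL := by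
      have := hs _ _ hA hB (1 / 10) (by norm_num) (by norm_num) ![2, 1, 0]
        (fun h => by simpa using congrFun h 0)
        !![141229 / 48133, -111888 / 48133, 0; 46548 / 48133, -7811 / 48133, 0; 0, 0, 1]
        !![37789 / 48133, 12432 / 48133, 0; -5172 / 48133, 54349 / 48133, 0; 0, 0, 1]
        (by ext i j; fin_cases i <;> fin_cases j <;> simp <;> norm_num)
        ⟨![51720 / 48133, -62160 / 48133, 0], by
          ext i j; fin_cases i <;> fin_cases j <;> simp [Matrix.vecMulVec_apply] <;> norm_num⟩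
        (by
          ext j
          fin_cases j <;>
            simp [LA, LB, Matrix.vecMul, dotProduct, Fin.sum_univ_three, Matrix.mul_apply,
              Matrix.one_apply] <;> norm_num)
      convert this using 1
      simp only [LA, LB, LL, List.map_cons, List.map_nil, List.cons_append, List.nil_append,
        Matrix.one_mul, Matrix.mul_fin_three]
      norm_num
    exact hL
  · refine ⟨(3 / 40, 1, !![187033 / 48133, -148176 / 48133, 0; 46548 / 48133, -7811 / 48133, 0; 0, 0, 1]), by simp [LL],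
      (1 / 40, 49, !![3817 / 48133, -3024 / 48133, 0; 46548 / 48133, -7811 / 48133, 0; 0, 0, 1]), by simp [LL], ?_, ?_⟩
    · simp [Matrix.adjugate_fin_three, Matrix.trace_fin_three]
      norm_num
    · simp [Matrix.adjugate_fin_three, Matrix.trace_fin_three]
      norm_num

end Pool.Agent.S03759
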