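import Pool.Statements.S03785
-- import your own Pool.Agent.* helpers here

set_option autoImplicit false
open Pool Pool.MP_0bc80f_an

namespace Pool.Agent.S03785


open Set Filter Topology

lemma diag {a b : ℝ} (φ ψ : Icc a b → ℝ) (hφ : Monotone φ) (hψ : Monotone ψ)
    (hlt : ∀ u, φ u < ψ u) (D : Icc a b → Icc a b → Prop) (h1 : ∀ x y, D x y → x ≤ y)
    (h2 : ∀ x y, D x y → ψ x ≤ φ y) (h3 : ∀ x y, D x y → ∃ m, D x m ∧ D m y)
    (x0 y0 : Icc a b) (h0 : D x0 y0) : False := by
  have step : ∀ (r : ℝ) (P : {P : Icc a b × Icc a b // D P.1 P.2}),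
      ∃ Q : {P : Icc a b × Icc a b // D P.1 P.2},
        P.1.1 ≤ Q.1.1 ∧ Q.1.2 ≤ P.1.2 ∧ (ψ Q.1.2 ≤ r ∨ r ≤ φ Q.1.1) := by
    rintro r ⟨⟨x, y⟩, hxy⟩
    obtain ⟨m, hm1, hm2⟩ := h3 x y hxy
    obtain ⟨m', hm3, hm4⟩ := h3 m y hm2
    by_cases hr : φ m' ≤ r
    · exact ⟨⟨(x, m), hm1⟩, le_rfl, h1 _ _ hm2, Or.inl ((h2 _ _ hm3).trans hr)⟩
    · exact ⟨⟨(m', y), hm4⟩, (h1 _ _ hm1).trans (h1 _ _ hm3), le_rfl, Or.inr (not_le.1 hr).le⟩
  choose nx hnx using step
  obtain ⟨e, he⟩ := exists_surjective_nat ℚ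
  let P : ℕ → {P : Icc a b × Icc a b // D P.1 P.2} :=
    fun k => Nat.rec ⟨(x0, y0), h0⟩ (fun k Q => nx (e k : ℝ) Q) k
  have hP : ∀ k, P (k + 1) = nx (e k : ℝ) (P k) := fun k => rfl
  have m1 : Monotone (fun k => (P k).1.1) :=
    monotone_nat_of_le_succ (fun k => by rw [hP]; exact (hnx _ _).1)
  have m2 : Antitone (fun k => (P k).1.2) :=
    antitone_nat_of_succ_le (fun k => by rw [hP]; exact (hnx _ _).2.1)
  have hle : ∀ k l, (P k).1.1 ≤ (P l).1.2 := fun k l =>
    (m1 (le_max_left k l)).trans ((h1 _ _ (P (max k l)).2).trans (m2 (le_max_right k l)))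
  have hbd : BddAbove (range (fun k => ((P k).1.1 : ℝ))) :=
    ⟨b, by rintro _ ⟨k, rfl⟩; exact ((P k).1.1).2.2⟩
  have hu1 : ∀ k, ((P k).1.1 : ℝ) ≤ ⨆ k, ((P k).1.1 : ℝ) := fun k => le_ciSup hbd k
  have hu2 : ∀ l, (⨆ k, ((P k).1.1 : ℝ)) ≤ ((P l).1.2 : ℝ) := fun l => ciSup_le (fun k => hle k l)
  let u : Icc a b := ⟨⨆ k, ((P k).1.1 : ℝ), (((P 0).1.1).2.1).trans (hu1 0),
    (hu2 0).trans ((P 0).1.2).2.2⟩
  obtain ⟨r, hr1, hr2⟩ := exists_rat_btwn (hlt u)
  obtain ⟨k, rfl⟩ := he r
  have h4 : (P (k + 1)).1.1 ≤ u := hu1 (k + 1)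
  have h5 : u ≤ (P (k + 1)).1.2 := hu2 (k + 1)
  rcases (hnx (e k : ℝ) (P k)).2.2 with h | h
  · rw [← hP] at h
    exact absurd ((hψ h5).trans h) (not_le.2 hr2)
  · rw [← hP] at h
    exact absurd (h.trans (hφ h4)) (not_le.2 hr1)

lemma nojump {a b : ℝ} (m : Icc a b → Icc a b → Icc a b) (hid : ∀ x, m x x = x)
    (hmed : ∀ x y z w, m (m x y) (m z w) = m (m x z) (m y w))
    (hl : ∀ y, StrictMono (fun x => m x y)) (hr : ∀ x, StrictMono (m x))
    (g : Icc a b → Icc a b) (hg : Monotone g) (hgm : ∀ x y, g (m x y) = m (g x) (g y))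
    (s p q : Icc a b) (hpq : p < q) (R : Icc a b → Icc a b → Prop)
    (hR : ∀ t t', R t t' → g t ≤ p ∧ q ≤ g t') (hR1 : ∀ t t', R t t' → R (m s t) (m s t'))
    (hR2 : ∀ t t', R t t' → R (m t s) (m t' s)) (t0 t1 : Icc a b) (h01 : t0 ≤ t1)
    (hR0 : R t0 t1) : False := by
  let S : Icc a b → Icc a b → Icc a b → Icc a b := fun w u v => m (m w u) (m v w)
  have Ssym : ∀ w u v, S w u v = S w v u := fun w u v => hmed _ _ _ _
  have Shom : ∀ w u1 u2 v1 v2, S w (m u1 u2) (m v1 v2) = m (S w u1 v1) (S w u2 v2) := by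
    intro w u1 u2 v1 v2
    have e1 : m w (m u1 u2) = m (m w u1) (m w u2) := by rw [hmed, hid]
    have e2 : m (m v1 v2) w = m (m v1 w) (m v2 w) := by rw [hmed v1 w, hid]
    show m (m w (m u1 u2)) (m (m v1 v2) w) = _
    rw [e1, e2, hmed]
  have Sr : ∀ w u, StrictMono (S w u) := fun w u x y h => hr _ (hl w h)
  have Sl : ∀ w v, Monotone (fun u => S w u v) := fun w v x y h => by
    show S w x v ≤ S w y v
    rw [Ssym w x, Ssym w y]; exact (Sr w v).monotone h
  have Sg : ∀ w u v, g (S w u v) = S (g w) (g u) (g v) := fun w u v => by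
    show g (m (m w u) (m v w)) = _
    rw [hgm, hgm, hgm]
  refine diag (fun u => (S (g s) (g u) p : ℝ)) (fun u => (S (g s) (g u) q : ℝ))
    (fun x y h => Sl _ _ (hg h)) (fun x y h => Sl _ _ (hg h)) (fun u => Sr _ _ hpq)
    (fun x y => x ≤ y ∧ ∃ t t', R t t' ∧ S s y t = S s x t') (fun x y h => h.1) ?_ ?_ t0 t1
    ⟨h01, t0, t1, hR0, Ssym _ _ _⟩
  · rintro x y ⟨-, t, t', hRt, hS⟩
    have h1 := congrArg g hS
    rw [Sg, Sg] at h1
    have h2 : S (g s) (g x) q ≤ S (g s) (g x) (g t') := (Sr _ _).monotone (hR _ _ hRt).2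
    have h3 : S (g s) (g y) (g t) ≤ S (g s) (g y) p := (Sr _ _).monotone (hR _ _ hRt).1
    exact h2.trans (h1.symm.le.trans h3)
  · rintro x y ⟨hxy, t, t', hRt, hS⟩
    refine ⟨m x y, ⟨?_, m s t, m s t', hR1 _ _ hRt, ?_⟩, ⟨?_, m t s, m t' s, hR2 _ _ hRt, ?_⟩⟩
    · have := (hr x).monotone hxy
      rwa [hid] at this
    · rw [Shom, hS, ← Shom, hid]
    · have := (hl y).monotone hxy
      simp only [hid] at this
      exact this
    · rw [Shom, ← hS, ← Shom, hid]

lemma cont_g {a b : ℝ} (m : Icc a b → Icc a b → Icc a b) (hid : ∀ x, m x x = x)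
    (hmed : ∀ x y z w, m (m x y) (m z w) = m (m x z) (m y w))
    (hl : ∀ y, StrictMono (fun x => m x y)) (hr : ∀ x, StrictMono (m x))
    (g : Icc a b → Icc a b) (hg : Monotone g) (hgm : ∀ x y, g (m x y) = m (g x) (g y)) :
    Continuous g := by
  refine continuous_iff_continuousAt.2 (fun s => tendsto_order.2 ⟨fun p hp => ?_, fun q hq => ?_⟩)
  · by_cases h : ∃ t, t < s ∧ p < g t
    · obtain ⟨t, ht, hpt⟩ := h
      filter_upwards [Ioi_mem_nhds ht] with t' ht' using hpt.trans_le (hg (le_of_lt ht'))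
    push Not at h
    by_cases h' : ∃ t, t < s
    · obtain ⟨t, ht⟩ := h'
      refine (nojump m hid hmed hl hr g hg hgm s p (g s) hp (fun t t' => t < s ∧ t' = s) ?_ ?_ ?_
        t s ht.le ⟨ht, rfl⟩).elim
      · rintro t t' ⟨h1, rfl⟩
        exact ⟨h t h1, le_rfl⟩
      · rintro t t' ⟨h1, rfl⟩
        exact ⟨(hr _ h1).trans_eq (hid _), hid _⟩
      · rintro t t' ⟨h1, rfl⟩
        exact ⟨(hl _ h1).trans_eq (hid _), hid _⟩
    · push Not at h'
      exact Eventually.of_forall (fun t => hp.trans_le (hg (h' t)))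
  · by_cases h : ∃ t, s < t ∧ g t < q
    · obtain ⟨t, ht, hpt⟩ := h
      filter_upwards [Iio_mem_nhds ht] with t' ht' using (hg (le_of_lt ht')).trans_lt hpt
    push Not at h
    by_cases h' : ∃ t, s < t
    · obtain ⟨t, ht⟩ := h'
      refine (nojump m hid hmed hl hr g hg hgm s (g s) q hq (fun t t' => t = s ∧ s < t') ?_ ?_ ?_
        s t ht.le ⟨rfl, ht⟩).elim
      · rintro t t' ⟨rfl, h1⟩
        exact ⟨le_rfl, h t' h1⟩
      · rintro t t' ⟨rfl, h1⟩
        exact ⟨hid _, (hid _).symm.trans_lt (hr _ h1)⟩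
      · rintro t t' ⟨rfl, h1⟩
        exact ⟨hid _, (hid _).symm.trans_lt (hl _ h1)⟩
    · push Not at h'
      exact Eventually.of_forall (fun t => (hg (h' t)).trans_lt hq)

lemma mono_of_sep {ι I J : Type*} [Fintype ι] [DecidableEq ι] [Preorder I] [Preorder J]
    (F : (ι → I) → J) (h : ∀ x i, Monotone (fun t => F (Function.update x i t))) :
    Monotone F := by
  intro x y hxy
  have key : ∀ T : Finset ι, F x ≤ F (fun i => if i ∈ T then y i else x i) := by
    intro T
    induction T using Finset.induction_on with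
    | empty => simp
    | insert j T hj ih =>
      refine ih.trans ?_
      have e1 : (fun i => if i ∈ T then y i else x i)
          = Function.update (fun i => if i ∈ T then y i else x i) j (x j) := by
        funext i
        by_cases hi : i = j
        · subst hi; simp [hj]
        · simp [Function.update_of_ne hi]
      have e2 : (fun i => if i ∈ insert j T then y i else x i)
          = Function.update (fun i => if i ∈ T then y i else x i) j (y j) := by
        funext i
        by_cases hi : i = j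
        · subst hi; simp
        · simp [Function.update_of_ne hi, hi]
      rw [e2, e1]
      simpa using h (fun i => if i ∈ T then y i else x i) j (hxy j)
  simpa using key Finset.univ

lemma lower {ι I J : Type*} [Fintype ι] [DecidableEq ι] [LinearOrder I] [TopologicalSpace I]
    [OrderTopology I] [DenselyOrdered I] [LinearOrder J] [TopologicalSpace J] [OrderTopology J]
    (F : (ι → I) → J) (hF : Monotone F) (h : ∀ x i, Continuous (fun t => F (Function.update x i t)))
    (x : ι → I) (p : J) (hp : p < F x) : ∀ᶠ y in 𝓝 x, p < F y := by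
  have key : ∀ T : Finset ι, ∃ z : ι → I, p < F z ∧ (∀ i ∈ T, Ici (z i) ∈ 𝓝 (x i)) ∧
      ∀ i ∉ T, z i = x i := by
    intro T
    induction T using Finset.induction_on with
    | empty => exact ⟨x, hp, by simp, by simp⟩
    | insert j T hj ih =>
      obtain ⟨z, hz1, hz2, hz3⟩ := ih
      have hU : {t | p < F (Function.update z j t)} ∈ 𝓝 (x j) := by
        refine (isOpen_lt continuous_const (h z j)).mem_nhds ?_
        show p < F (Function.update z j (x j))
        rw [← hz3 j hj, Function.update_eq_self]; exact hz1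
      have : ∃ t, p < F (Function.update z j t) ∧ Ici t ∈ 𝓝 (x j) := by
        by_cases h' : ∃ l, l < x j
        · obtain ⟨l, hl, hsub⟩ := exists_Ioc_subset_of_mem_nhds hU h'
          obtain ⟨t, ht1, ht2⟩ := exists_between hl
          exact ⟨t, hsub ⟨ht1, ht2.le⟩, Ici_mem_nhds ht2⟩
        · push Not at h'
          exact ⟨x j, (mem_of_mem_nhds hU :), Eventually.of_forall (fun t => h' t)⟩
      obtain ⟨t, ht1, ht2⟩ := this
      refine ⟨Function.update z j t, ht1, fun i hi => ?_, fun i hi => ?_⟩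
      · by_cases hij : i = j
        · subst hij; simpa using ht2
        · rw [Function.update_of_ne hij]
          exact hz2 i ((Finset.mem_insert.1 hi).resolve_left hij)
      · have hij : i ≠ j := fun e => hi (e ▸ Finset.mem_insert_self _ _)
        rw [Function.update_of_ne hij]
        exact hz3 i (fun e => hi (Finset.mem_insert_of_mem e))
  obtain ⟨z, hz1, hz2, -⟩ := key Finset.univ
  have : ∀ᶠ y in 𝓝 x, ∀ i, z i ≤ y i := by
    rw [eventually_all]
    intro i
    exact (continuous_apply i).continuousAt.eventually (hz2 i (Finset.mem_univ _))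
  filter_upwards [this] with y hy using hz1.trans_le (hF hy)

theorem result :
    ∀ (a b : ℝ), a < b → ∀ (n : ℕ), 2 ≤ n →
      ∀ F : (Fin n → Set.Icc a b) → Set.Icc a b,
        (∀ x : Set.Icc a b, F (fun _ => x) = x) →
        (∀ M : Fin n → Fin n → Set.Icc a b,
            F (fun i => F (M i)) = F (fun j => F (fun i => M i j))) →
        (∀ (x : Fin n → Set.Icc a b) (i : Fin n),
            StrictMono (fun t : Set.Icc a b => F (Function.update x i t))) →
        Continuous F := by
  intro a b hab n hn F hrefl hbi hmono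
  have hF : Monotone F := mono_of_sep F (fun x i => (hmono x i).monotone)
  let i0 : Fin n := ⟨0, by omega⟩
  let i1 : Fin n := ⟨1, by omega⟩
  have h10 : i1 ≠ i0 := by simp [i0, i1, Fin.ext_iff]
  let m : Icc a b → Icc a b → Icc a b := fun x y => F (Function.update (fun _ => y) i0 x)
  have hid : ∀ x, m x x = x := fun x => by
    show F (Function.update (fun _ => x) i0 x) = x
    rw [Function.update_eq_self i0 (fun _ => x)]; exact hrefl x
  have hgen : ∀ (u v : Fin n → Icc a b), F (fun i => m (u i) (v i)) = m (F u) (F v) := by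
    intro u v
    refine (hbi (fun i => Function.update (fun _ => v i) i0 (u i))).trans ?_
    show _ = F _
    congr 1
    funext j
    by_cases hj : j = i0
    · subst hj; simp
    · simp [Function.update_of_ne hj]
  have hupd : ∀ (c : Fin n → Icc a b) (i : Fin n) (x y : Icc a b),
      F (Function.update c i (m x y))
        = m (F (Function.update c i x)) (F (Function.update c i y)) := by
    intro c i x y
    rw [← hgen]
    congr 1
    funext j
    by_cases hj : j = i
    · subst hj; simp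
    · simp [Function.update_of_ne hj, hid]
  have hmed : ∀ x y z w, m (m x y) (m z w) = m (m x z) (m y w) := by
    intro x y z w
    rw [← hgen (Function.update (fun _ => z) i0 x) (Function.update (fun _ => w) i0 y)]
    show F _ = _
    congr 1
    funext j
    by_cases hj : j = i0
    · subst hj; simp
    · simp [Function.update_of_ne hj]
  have hl : ∀ y, StrictMono (fun x => m x y) := fun y => hmono _ _
  have hr : ∀ x, StrictMono (m x) := by
    intro x y y' hy
    have h1 := hmono (Function.update (fun _ => y) i0 x) i1 hy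
    have e1 : Function.update (Function.update (fun _ => y) i0 x) i1 y
        = Function.update (fun _ => y) i0 x := by
      funext j
      by_cases hj : j = i1
      · subst hj; simp [Function.update_of_ne h10]
      · simp [Function.update_of_ne hj]
    simp only [e1] at h1
    refine h1.trans_le (hF (fun j => ?_))
    by_cases hj : j = i1
    · subst hj; simp [Function.update_of_ne h10]
    · by_cases hj' : j = i0
      · subst hj'; simp [Function.update_of_ne hj]
      · simp [Function.update_of_ne hj, Function.update_of_ne hj', hy.le]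
  have hsep : ∀ x i, Continuous (fun t => F (Function.update x i t)) := fun x i =>
    cont_g m hid hmed hl hr _ (hmono x i).monotone (hupd x i)
  refine continuous_iff_continuousAt.2 (fun x => tendsto_order.2 ⟨fun p hp => ?_, fun q hq => ?_⟩)
  · exact lower F hF hsep x p hp
  · exact lower (ι := Fin n) (I := (Icc a b)ᵒᵈ) (J := (Icc a b)ᵒᵈ) F (fun x y h => hF h) hsep x q hq

end Pool.Agent.S03785
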