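import Pool.Statements.S03796
import Pool.Agent.H.MP_0c4bbf_an.B

set_option autoImplicit false
open Pool Pool.MP_0c4bbf_an

namespace Pool.Agent.S03796

theorem result :
    ¬ (∀ (n : ℕ) (K : Set (EuclideanSpace ℂ (Fin n))),
      IsCompact K →
      K ⊆ Metric.sphere (0 : EuclideanSpace ℂ (Fin n)) 1 →
      (¬ ∃ f : EuclideanSpace ℂ (Fin n) → ℂ,
          ContinuousOn f (Metric.closedBall (0 : EuclideanSpace ℂ (Fin n)) 1) ∧
          DifferentiableOn ℂ f (Metric.ball (0 : EuclideanSpace ℂ (Fin n)) 1) ∧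
          {z | z ∈ Metric.closedBall (0 : EuclideanSpace ℂ (Fin n)) 1 ∧ f z = 0} = K) →
      ∃ z ∈ Metric.closedBall (0 : EuclideanSpace ℂ (Fin n)) 1, z ∉ K ∧
        ∀ f : EuclideanSpace ℂ (Fin n) → ℂ,
          ContinuousOn f (Metric.closedBall (0 : EuclideanSpace ℂ (Fin n)) 1) →
          DifferentiableOn ℂ f (Metric.ball (0 : EuclideanSpace ℂ (Fin n)) 1) →
          (∀ w ∈ K, f w = 0) → f z = 0) := by
  intro h
  obtain ⟨K, h1, h2, h3, h4, -⟩ :=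
    H.MP_0c4bbf_an.main (E := EuclideanSpace ℂ (Fin 2)) (by simp)
  obtain ⟨z, z1, z2, z3⟩ := h 2 K h1 h2 h3
  obtain ⟨f, f1, f2, f3, f4⟩ := h4 z z1 z2
  exact f4 (z3 f f1 f2 f3)

end Pool.Agent.S03796
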