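import Pool.Statements.S03803
import Pool.Agent.H.MP_0d212c.E

set_option autoImplicit false
open Pool Pool.MP_0d212c_an

namespace Pool.Agent.S03803

theorem result :
    ∀ (E : Type) [NormedAddCommGroup E] [NormedSpace ℝ E] [CompleteSpace E],
      (∀ F : Submodule ℝ E, TopologicalSpace.IsSeparable (F : Set E) →
          TopologicalSpace.SeparableSpace (F →L[ℝ] ℝ)) →
      ∃ f : E → ℝ, ContDiff ℝ 1 f ∧ (∃ x, f x ≠ 0) ∧
        Bornology.IsBounded (Function.support f) := by
  intro E _ _ _ h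
  obtain ⟨g, g1, -, g2⟩ := (H.MP_0d212c.frag_of_asplund h).bump
  exact ⟨g, g1, g2⟩

end Pool.Agent.S03803
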