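import Pool.Statements.S03813
import Pool.Agent.H.MP_0dd021_an.F

set_option autoImplicit false
open Filter Topology MeasureTheory
open scoped ENNReal
open Pool Pool.MP_0dd021_an

namespace Pool.Agent.S03813

open Pool.Agent.H.MP_0dd021_an Finset

def Stp (g : ℝ → ℂ) : Prop := ∃ (m : ℕ) (t : Fin (m + 1) → ℝ) (c : Fin m → ℂ),
  StrictMono t ∧ t 0 = 0 ∧ t (Fin.last m) = 1 ∧
  ∀ i : Fin m, ∀ x ∈ Set.Ioo (t i.castSucc) (t i.succ), g x = c i

lemma locate {m : ℕ} {t : Fin (m + 1) → ℝ} (h0 : t 0 = 0) (h1 : t (Fin.last m) = 1) {x : ℝ}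
    (k0 : 0 ≤ x) (k1 : x ≤ 1) (k : ∀ j, t j ≠ x) :
    ∃ i : Fin m, x ∈ Set.Ioo (t i.castSucc) (t i.succ) := by
  classical
  obtain ⟨j, hj, h⟩ := exists_max_image {j | t j < x} id
    ⟨0, by simpa using (h0.le.trans k0).lt_of_ne (k 0)⟩
  simp only [mem_filter, mem_univ, true_and, id] at hj h
  obtain ⟨i, rfl⟩ := Fin.eq_castSucc_of_ne_last (x := j) fun e => by
    rw [e, h1] at hj; linarith
  exact ⟨i, hj, (le_of_not_gt fun e => (h _ e).not_gt i.castSucc_lt_succ).lt_of_ne' (k _)⟩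

lemma Stp.st {g : ℝ → ℂ} (h : Stp g) : St (fun θ => g (rep θ)) ∧
    ∃ A, ∀ᵐ x ∂volume.restrict (Set.Icc (0 : ℝ) 1), ‖g x‖ ≤ A := by
  classical
  obtain ⟨m, t, c, -, h0, h1, h⟩ := h
  refine ⟨⟨univ.image fun j => (t j : TT), fun x y k hz => ?_⟩, ∑ i, ‖c i‖, ?_⟩
  · have k1 : ∀ j (n : ℤ), n + t j ∉ Set.Icc x y := fun j n e =>
      hz _ e (by simp [coe_int])
    have e := floor_eq k fun n => by simpa [h0] using k1 0 n
    obtain ⟨i, hi⟩ := locate h0 h1 (Int.fract_nonneg x) (Int.fract_lt_one x).le fun j hj =>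
      k1 j ⌊x⌋ (by simp [hj, k])
    have := k1 i.succ ⌊y⌋
    simp only [rep_coe, Int.fract, e, Set.mem_Icc, not_and, not_le] at this hi ⊢
    rw [h i _ hi, h i _ ⟨by linarith [hi.1], by linarith [this (by linarith [hi.2])]⟩]
  · filter_upwards [ae_restrict_mem measurableSet_Icc, ae_restrict_of_ae
      (compl_mem_ae_iff.2 ((Set.finite_range t).measure_zero _))] with x hx k
    obtain ⟨i, hi⟩ := locate h0 h1 hx.1 hx.2 fun j hj => k ⟨j, hj⟩
    rw [h i _ hi]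
    exact single_le_sum (fun _ _ => norm_nonneg _) (mem_univ i)

lemma stp {W : TT → ℂ} (h : St W) : Stp fun x => W x := by
  classical
  obtain ⟨B, h⟩ := h
  set s : Finset ℝ := insert 0 (insert 1 (B.image rep)) with hs
  obtain ⟨m, hm⟩ : ∃ m, #s = m + 1 :=
    Nat.exists_eq_succ_of_ne_zero (card_pos.2 (insert_nonempty _ _)).ne'
  have s1 : ∀ x ∈ s, 0 ≤ x ∧ x ≤ 1 := fun x hx => by
    simp only [hs, mem_insert, mem_image] at hx
    rcases hx with rfl | rfl | ⟨y, -, rfl⟩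
    exacts [⟨le_rfl, zero_le_one⟩, ⟨zero_le_one, le_rfl⟩, ⟨rep_nonneg y, (rep_lt y).le⟩]
  have s2 : ∀ x ∈ s, ∃ j, s.orderEmbOfFin hm j = x := fun x hx =>
    (s.range_orderEmbOfFin hm).ge hx
  have s3 := fun j => s1 _ (s.orderEmbOfFin_mem hm j)
  refine ⟨m, s.orderEmbOfFin hm, fun i => W ((s.orderEmbOfFin hm i.castSucc +
    s.orderEmbOfFin hm i.succ) / 2 : ℝ), (s.orderEmbOfFin hm).strictMono, ?_, ?_, fun i x hx => ?_⟩
  · obtain ⟨j, hj⟩ := s2 0 (by simp [hs])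
    exact le_antisymm (hj ▸ (s.orderEmbOfFin hm).monotone (Fin.zero_le j)) (s3 _).1
  · obtain ⟨j, hj⟩ := s2 1 (by simp [hs])
    exact le_antisymm (s3 _).2 (hj ▸ (s.orderEmbOfFin hm).monotone (Fin.le_last j))
  have k : ∀ z ∈ Set.Ioo (s.orderEmbOfFin hm i.castSucc) (s.orderEmbOfFin hm i.succ),
      (z : TT) ∉ B := fun z hz e => by
    obtain ⟨j, rfl⟩ := s2 z (by
      rw [← rep_of ((s3 _).1.trans hz.1.le) (hz.2.trans_le (s3 _).2)]
      exact mem_insert_of_mem (mem_insert_of_mem (mem_image_of_mem _ e)))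
    have a := (s.orderEmbOfFin hm).lt_iff_lt.1 hz.1
    have b := (s.orderEmbOfFin hm).lt_iff_lt.1 hz.2
    exact (Fin.castSucc_lt_iff_succ_le.1 a).not_gt b
  have a := hx.1
  have b := hx.2
  rcases le_total x ((s.orderEmbOfFin hm i.castSucc + s.orderEmbOfFin hm i.succ) / 2) with e | e
  · exact h _ _ e fun z hz => k z ⟨by linarith [hz.1], by linarith [hz.2]⟩
  · exact (h _ _ e fun z hz => k z ⟨by linarith [hz.1], by linarith [hz.2]⟩).symm

lemma ae_fract {P : ℝ → Prop} (h : ∀ᵐ x ∂volume.restrict (Set.Icc (0 : ℝ) 1), P x) :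
    ∀ᵐ x : ℝ, P (rep x) := by
  rw [ae_restrict_iff' measurableSet_Icc] at h
  filter_upwards [ae_all_iff.2 fun n : ℤ =>
    (measurePreserving_sub_right volume (n : ℝ)).quasiMeasurePreserving.ae h] with x hx
  exact rep_coe x ▸ hx ⌊x⌋ ⟨Int.fract_nonneg x, (Int.fract_lt_one x).le⟩

lemma ae_rep : ∀ᵐ x : ℝ ∂volume.restrict (Set.Icc (0 : ℝ) 1), rep (x : TT) = x := by
  filter_upwards [ae_restrict_mem measurableSet_Icc, ae_restrict_of_ae
    (compl_mem_ae_iff.2 (measure_singleton (1 : ℝ)))] with x hx k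
  exact rep_of hx.1 (hx.2.lt_of_ne k)

lemma cf_eq (W : TT → ℂ) (n : ℤ) : ∫ x in (0 : ℝ)..1,
    Complex.exp (-(2 * (Real.pi : ℂ) * Complex.I * (n : ℂ) * (x : ℂ))) * W x =
      fourierCoeff W n := by
  simp [fourierCoeff_eq_intervalIntegral W n 0, fourier_coe_apply, -fourier_apply]

lemma mb_iff {p C : ℝ} (hp : 0 < p) (hC : 0 ≤ C) (K : ℤ → ℂ) : (∀ a : ℤ →₀ ℂ,
    ∑' n : ℤ, ENNReal.ofReal ‖∑ k ∈ a.support, K (n - k) * a k‖ ^ p
      ≤ ENNReal.ofReal C ^ p * ∑ k ∈ a.support, ENNReal.ofReal ‖a k‖ ^ p) ↔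
    ∀ (S T : Finset ℤ) (a : ℤ → ℂ), ∑ n ∈ T, ‖∑ m ∈ S, K (n - m) * a m‖ ^ p ≤
      C ^ p * ∑ m ∈ S, ‖a m‖ ^ p := by
  classical
  simp only [ENNReal.tsum_eq_iSup_sum, iSup_le_iff,
    ENNReal.ofReal_rpow_of_nonneg (norm_nonneg _) hp.le, ENNReal.ofReal_rpow_of_nonneg hC hp.le,
    ← ENNReal.ofReal_sum_of_nonneg fun _ _ => Real.rpow_nonneg (norm_nonneg _) p,
    ← ENNReal.ofReal_mul (Real.rpow_nonneg hC p)]
  refine ⟨fun h S T a => ?_, fun h a T => ENNReal.ofReal_le_ofReal (h _ _ _)⟩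
  let b : ℤ →₀ ℂ := Finsupp.onFinset S (fun m => if m ∈ S then a m else 0) fun m => by
    simp +contextual
  have k := h b T
  have e : ∀ φ : ℤ → ℂ → ℂ, (∀ m, φ m 0 = 0) → ∑ m ∈ b.support, φ m (b m) = ∑ m ∈ S, φ m (a m) :=
    fun φ h0 => (Finsupp.onFinset_sum _ h0).trans (sum_congr rfl fun m hm => by rw [if_pos hm])
  have e' : ∑ m ∈ b.support, ‖b m‖ ^ p = ∑ m ∈ S, ‖a m‖ ^ p :=
    (Finsupp.onFinset_sum _ (g := fun _ z => ‖z‖ ^ p) fun _ => by simp [hp.ne']).trans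
      (sum_congr rfl fun m hm => by rw [if_pos hm])
  rw [ENNReal.ofReal_le_ofReal_iff (by positivity), e'] at k
  exact (sum_congr rfl fun n _ => by
    rw [e (fun m z => K (n - m) * z) fun _ => mul_zero _]).ge.trans k

theorem result :
  ∀ (cf : (ℝ → ℂ) → ℤ → ℂ),
    (∀ (g : ℝ → ℂ) (n : ℤ), cf g n =
      ∫ x in (0:ℝ)..1, Complex.exp (-(2 * (Real.pi : ℂ) * Complex.I * (n : ℂ) * (x : ℂ))) * g x) →
  ∀ (Step : (ℝ → ℂ) → Prop),
    (∀ g : ℝ → ℂ, Step g ↔ ∃ (m : ℕ) (t : Fin (m + 1) → ℝ) (c : Fin m → ℂ),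
      StrictMono t ∧ t 0 = 0 ∧ t (Fin.last m) = 1 ∧
      ∀ i : Fin m, ∀ x ∈ Set.Ioo (t i.castSucc) (t i.succ), g x = c i) →
  ∀ (p : ℝ), 1 < p → p ≠ 2 →
  ∀ (Mb : (ℝ → ℂ) → ℝ → Prop),
    (∀ (g : ℝ → ℂ) (C : ℝ), Mb g C ↔ ∀ a : ℤ →₀ ℂ,
      ∑' n : ℤ, ENNReal.ofReal ‖∑ k ∈ a.support, cf g (n - k) * a k‖ ^ p
        ≤ ENNReal.ofReal C ^ p * ∑ k ∈ a.support, ENNReal.ofReal ‖a k‖ ^ p) →
  ∀ f : ℝ → ℂ,
    (∀ ε : ℝ≥0∞, 0 < ε → ∃ g : ℝ → ℂ, Step g ∧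
      eLpNorm (fun x => f x - g x) ⊤ (volume.restrict (Set.Icc (0:ℝ) 1)) < ε) →
    (∃ C : ℝ, Mb f C) →
    ∃ g : ℕ → ℝ → ℂ, (∀ j, Step (g j)) ∧ (∃ C : ℝ, ∀ j, Mb (g j) C) ∧
      Tendsto (fun j => eLpNorm (fun x => g j x - f x) ⊤ (volume.restrict (Set.Icc (0:ℝ) 1)))
        atTop (𝓝 0) := by
  intro cf hcf Step hS p hp _ Mb hMb f hf ⟨C, hC⟩
  have hpq := Real.HolderConjugate.conjExponent hp
  obtain ⟨E, hE, h⟩ := approx hpq
  have ε0 : ∀ j : ℕ, (0 : ℝ) < 1 / (j + 1) := fun j => by positivity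
  choose g hg hg' using fun j : ℕ => hf _ (ENNReal.ofReal_pos.2 (ε0 j))
  have g1 := fun j => Stp.st ((hS _).1 (hg j))
  have g2 : ∀ j : ℕ, ∀ᵐ x ∂volume.restrict (Set.Icc (0 : ℝ) 1), ‖f x - g j x‖ ≤ 1 / (j + 1) :=
    fun j => (ae_le_eLpNormEssSup (f := fun x => f x - g j x)).mono fun x hx => by
      have := hx.trans (eLpNorm_exponent_top.ge.trans (hg' j).le)
      rwa [← ofReal_norm, ENNReal.ofReal_le_ofReal_iff (ε0 j).le] at this
  have fm : AEMeasurable f (volume.restrict (Set.Icc (0 : ℝ) 1)) := by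
    refine aemeasurable_of_tendsto_metrizable_ae' (fun j => (g1 j).1.meas.aemeasurable) ?_
    filter_upwards [ae_all_iff.2 g2, ae_rep] with x hx k
    simp only [k]
    exact tendsto_iff_norm_sub_tendsto_zero.2 (squeeze_zero (fun _ => norm_nonneg _)
      (fun j => by rw [norm_sub_rev]; exact hx j) tendsto_one_div_add_atTop_nhds_zero_nat)
  obtain ⟨A, hA⟩ := (g1 0).2
  let f' : ℝ → ℂ := fun x => if ‖fm.mk f x‖ ≤ |A| + 1 then fm.mk f x else 0
  have f1 : Measurable f' := Measurable.ite (measurableSet_le fm.measurable_mk.norm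
    measurable_const) fm.measurable_mk measurable_const
  have f2 : ∀ x, ‖f' x‖ ≤ |A| + 1 := fun x => by
    simp only [f']
    split_ifs with h
    exacts [h, by simp; positivity]
  have f3 : ∀ᵐ x ∂volume.restrict (Set.Icc (0 : ℝ) 1), f' x = f x := by
    filter_upwards [fm.ae_eq_mk, hA, g2 0] with x h1 h2 h3
    have := norm_le_norm_add_norm_sub' (f x) (g 0 x)
    simp only [f', ← h1]
    rw [if_pos (by norm_num at h3; linarith [le_abs_self A])]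
  have f4 : cf f = fourierCoeff fun θ : TT => f' (rep θ) := funext fun n => by
    rw [hcf, ← cf_eq]
    refine intervalIntegral.integral_congr_ae ?_
    filter_upwards [(ae_restrict_iff' measurableSet_Icc).1 (f3.and ae_rep)] with x hx k
    rw [Set.uIoc_of_le zero_le_one] at k
    rw [(hx ⟨k.1.le, k.2⟩).2, (hx ⟨k.1.le, k.2⟩).1]
  have C0 : 0 < |C| + 1 := by positivity
  have f5 : Mu p p.conjExponent (fun θ => f' (rep θ)) (|C| + 1) := by
    refine of_lp hpq C0 ((mb_iff hpq.pos C0.le _).1 fun a => ?_)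
    rw [← f4]
    refine ((hMb _ _).1 hC a).trans ?_
    gcongr
    linarith [le_abs_self C]
  choose W W1 W2 W3 using fun j : ℕ => h _ _ _ _ _ (f1.comp rep_meas) (fun θ => f2 _) f5 C0.le
    (g1 j).1 (ε0 j) (ae_fract (P := fun x => ‖f' x - g j x‖ ≤ 1 / (j + 1)) (by
      filter_upwards [f3, g2 j] with x h1 h2
      rwa [h1]))
  refine ⟨fun j x => W j x, fun j => (hS _).2 (stp (W1 j)), ⟨2 * (E * (|C| + 1)), fun j => ?_⟩, ?_⟩
  · rw [hMb, show cf (fun x => W j x) = fourierCoeff (W j) from funext fun n => by rw [hcf, cf_eq]]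
    exact (mb_iff hpq.pos (by positivity) _).2 (Bd.lp hpq (by positivity) (W2 j))
  · have l := ENNReal.tendsto_ofReal ((tendsto_one_div_add_atTop_nhds_zero_nat (𝕜 := ℝ)).const_mul
      (4 + 4 * (|A| + 1)))
    rw [mul_zero, ENNReal.ofReal_zero] at l
    refine tendsto_of_tendsto_of_tendsto_of_le_of_le tendsto_const_nhds l (fun _ => zero_le)
      fun j => ?_
    simp only [eLpNorm_exponent_top]
    refine eLpNormEssSup_le_of_ae_bound ?_
    filter_upwards [ae_restrict_of_ae (W3 j), f3, ae_rep] with x h1 h2 h3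
    rwa [Function.comp, h3, h2] at h1

end Pool.Agent.S03813
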