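import Pool.Statements.S03816
import Pool.Agent.H.MP_0de7f2_an.E

set_option autoImplicit false
open Pool Pool.MP_0de7f2_an

namespace Pool.Agent.S03816

/-- The negation of the preceding statement: If T is a maximal triangular algebra on a complex Hilbert space (its diagonal T ∩ T* is a masa) and P ∈ T is an orthogonal projection, then the compression PTP on the range of P is a maximal triangular algebra there. -/
theorem result :
    ¬ (∀ (H : Type) [NormedAddCommGroup H] [InnerProductSpace ℂ H] [CompleteSpace H]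
    (T : Subalgebra ℂ (H →L[ℂ] H)),
    (Set.centralizer {x | x ∈ T ∧ star x ∈ T} = {x | x ∈ T ∧ star x ∈ T} ∧
      ∀ B : Subalgebra ℂ (H →L[ℂ] H), T ≤ B →
        Set.centralizer {x | x ∈ B ∧ star x ∈ B} = {x | x ∈ B ∧ star x ∈ B} → B = T) →
    ∀ (K : Submodule ℂ H) [CompleteSpace K],
      K.subtypeL ∘L K.orthogonalProjection ∈ T →
      ∃ S : Subalgebra ℂ (K →L[ℂ] K),
        (S : Set (K →L[ℂ] K)) =
          (fun A : H →L[ℂ] H => K.orthogonalProjection ∘L A ∘L K.subtypeL) ''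
            (T : Set (H →L[ℂ] H)) ∧
        Set.centralizer {x | x ∈ S ∧ star x ∈ S} = {x | x ∈ S ∧ star x ∈ S} ∧
        ∀ B : Subalgebra ℂ (K →L[ℂ] K), S ≤ B →
          Set.centralizer {x | x ∈ B ∧ star x ∈ B} = {x | x ∈ B ∧ star x ∈ B} → B = S) := by
  intro h
  obtain ⟨u, τ, e, h0, h1, he, h2, h3⟩ := Pool.Agent.H.MP_0de7f2_an.model
  obtain ⟨T, g, t1, t2, t3⟩ := Pool.Agent.H.MP_0de7f2_an.main h0 h1 he h2 h3
  obtain ⟨S, hS, -, hm⟩ := h _ T t1 (Pool.Agent.H.MP_0de7f2_an.cl g) t2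
  exact t3 (Pool.Agent.H.MP_0de7f2_an.cl g) (Pool.Agent.H.MP_0de7f2_an.cl g).orthogonalProjectionOnto
    (Pool.Agent.H.MP_0de7f2_an.cl g).subtypeL
    (fun v => Submodule.orthogonalProjectionOnto_mem_subspace_eq_self v) (fun _ => rfl)
    (Submodule.adjoint_subtypeL _) S hS hm

end Pool.Agent.S03816
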