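import Pool.Statements.S03817
import Pool.Agent.H.MP_0e2194_an.Par

set_option autoImplicit false
open Pool Pool.MP_0e2194_an

namespace Pool.Agent.S03817

theorem result :
  ∀ l1 l2 : ℝ, l1 + l2 > 0 →
    ∃ (f : (Fin 2 → UnitAddCircle) → (Fin 2 → UnitAddCircle))
      (F : (Fin 2 → ℝ) → (Fin 2 → ℝ)),
      ContDiff ℝ (⊤ : ℕ∞) F ∧
      (∀ x : Fin 2 → ℝ,
        f (fun i => ((x i : ℝ) : UnitAddCircle)) = fun i => ((F x i : ℝ) : UnitAddCircle)) ∧
      MeasureTheory.MeasurePreserving f MeasureTheory.volume MeasureTheory.volume ∧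
      Ergodic f MeasureTheory.volume ∧
      ∀ᵐ x ∂(MeasureTheory.volume : MeasureTheory.Measure (Fin 2 → ℝ)),
        Filter.Tendsto (fun n : ℕ => (1 / (n : ℝ)) * Real.log ‖fderiv ℝ (F^[n]) x‖)
          Filter.atTop (nhds (max l1 l2)) ∧
        Filter.Tendsto (fun n : ℕ => (1 / (n : ℝ)) * Real.log |(fderiv ℝ (F^[n]) x).det|)
          Filter.atTop (nhds (l1 + l2)) := by
  intro l1 l2 h
  have h1 := Pool.Agent.H.Flex.main (L := max l1 l2) (μ := min l1 l2) min_le_max
    (by rw [max_add_min]; exact h)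
  rw [max_add_min] at h1
  exact h1

end Pool.Agent.S03817
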