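import Pool.Statements.S03819
import Pool.Agent.H.MP_0e9c6a_an.Fin

set_option autoImplicit false
open MeasureTheory
open Pool Pool.MP_0e9c6a_an

namespace Pool.Agent.S03819

theorem result :
    ∀ (c : ℂ) (ε : ℝ), 0 < ε → ∀ (E : Set ℝ), MeasurableSet E → 0 < volume E →
      ∀ f : ℝ → ℂ, MemLp f 2 volume →
        (∀ᵐ t ∂(volume.restrict E), f t = 0) →
        (∀ᵐ t ∂(volume.restrict E),
          Filter.Tendsto
            (fun δ : ℝ =>
              (∫ τ in {τ : ℝ | δ < |t - τ|}, f τ / ((t - τ : ℝ) : ℂ)) +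
                c * ∫ τ in Set.Iic t, ((Real.exp (ε * (τ - t)) : ℝ) : ℂ) * f τ)
            (nhdsWithin 0 (Set.Ioi 0)) (nhds 0)) →
        f =ᵐ[volume] 0 := by
  intro c ε hε E hE hp f hf h0 h1
  exact Pool.Agent.H.MP_0e9c6a_an.main c ε hε E hE hp f hf h0 h1

end Pool.Agent.S03819
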