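import Pool.Statements.S03829
import Pool.Agent.H.MP_0f8a1e_an.I

set_option autoImplicit false
open Pool Pool.MP_0f8a1e_an

namespace Pool.Agent.S03829

/-- For every dimension, γ in (0,1], positive reaction f and open connected uniformly C^{2,γ} domain with star-shaped complement, −Δu=f(u), u=0 on the boundary has a bounded positive C² solution, and any two agree on the closure. -/
theorem result :
    ∀ (n : ℕ) (γ : ℝ), 0 < γ → γ ≤ 1 →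
    ∀ (f : ℝ → ℝ), ContDiff ℝ 1 f →
      (∀ K : ℝ, ∃ C : ℝ, ∀ s ∈ Set.Icc (-K) K, ∀ t ∈ Set.Icc (-K) K,
        |deriv f s - deriv f t| ≤ C * |s - t| ^ γ) →
      f 0 = 0 → f 1 = 0 → (∀ t : ℝ, 1 < t → f t < 0) → deriv f 1 < 0 →
      (∀ t : ℝ, 0 < t → t < 1 → 0 < f t) → 0 < deriv f 0 →
    ∀ Ω : Set (EuclideanSpace ℝ (Fin (n + 1))), IsOpen Ω → IsConnected Ω →
      (∃ r : ℝ, 0 < r ∧ ∃ M : ℝ, ∀ x ∈ frontier Ω,
        ∃ R : EuclideanSpace ℝ (Fin (n + 1)) ≃ₗᵢ[ℝ] EuclideanSpace ℝ (Fin (n + 1)),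
        ∃ φ : (Fin n → ℝ) → ℝ, ContDiff ℝ 2 φ ∧
          (∀ y, |φ y| ≤ M) ∧
          (∀ y, ‖fderiv ℝ φ y‖ ≤ M) ∧
          (∀ y, ‖fderiv ℝ (fderiv ℝ φ) y‖ ≤ M) ∧
          (∀ y z, ‖fderiv ℝ (fderiv ℝ φ) y - fderiv ℝ (fderiv ℝ φ) z‖ ≤ M * ‖y - z‖ ^ γ) ∧
          ∀ z ∈ Metric.ball x r,
            (z ∈ Ω ↔ φ (fun i : Fin n => R (z - x) (Fin.castSucc i)) < R (z - x) (Fin.last n))) →
      (∃ x₀ : EuclideanSpace ℝ (Fin (n + 1)), StarConvex ℝ x₀ Ωᶜ) →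
      (∃ u : EuclideanSpace ℝ (Fin (n + 1)) → ℝ,
          ContDiffOn ℝ 2 u Ω ∧ ContinuousOn u (closure Ω) ∧
          (∃ C : ℝ, ∀ x ∈ Ω, |u x| ≤ C) ∧
          (∀ x ∈ Ω, -(∑ i : Fin (n + 1),
              iteratedFDeriv ℝ 2 u x (fun _ => EuclideanSpace.single i (1 : ℝ))) = f (u x)) ∧
          (∀ x ∈ frontier Ω, u x = 0) ∧ (∀ x ∈ Ω, 0 < u x)) ∧
      ∀ u v : EuclideanSpace ℝ (Fin (n + 1)) → ℝ,
        (ContDiffOn ℝ 2 u Ω ∧ ContinuousOn u (closure Ω) ∧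
          (∃ C : ℝ, ∀ x ∈ Ω, |u x| ≤ C) ∧
          (∀ x ∈ Ω, -(∑ i : Fin (n + 1),
              iteratedFDeriv ℝ 2 u x (fun _ => EuclideanSpace.single i (1 : ℝ))) = f (u x)) ∧
          (∀ x ∈ frontier Ω, u x = 0) ∧ (∀ x ∈ Ω, 0 < u x)) →
        (ContDiffOn ℝ 2 v Ω ∧ ContinuousOn v (closure Ω) ∧
          (∃ C : ℝ, ∀ x ∈ Ω, |v x| ≤ C) ∧
          (∀ x ∈ Ω, -(∑ i : Fin (n + 1),
              iteratedFDeriv ℝ 2 v x (fun _ => EuclideanSpace.single i (1 : ℝ))) = f (v x)) ∧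
          (∀ x ∈ frontier Ω, v x = 0) ∧ (∀ x ∈ Ω, 0 < v x)) →
        ∀ x ∈ closure Ω, u x = v x := by
  intro n γ _ _ f h _ f0 f1 hn d1 hp d0 Ω ho hc ⟨r, r0, M, hM⟩ ⟨o, hs⟩
  have := Pool.Agent.H.MP_0f8a1e_an.main h f0 f1 hn d1 hp d0 ho hc (fun hne =>
    Pool.Agent.H.MP_0f8a1e_an.gm_of (V := Fin n → ℝ) (M := M)
      (ContinuousLinearMap.pi fun i => EuclideanSpace.proj (Fin.castSucc i))
      (fun y => (pi_norm_le_iff_of_nonneg (norm_nonneg _)).2 fun i => PiLp.norm_apply_le y _)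
      (Fin.last n) (by ext i; simp [Pool.Agent.H.MP_0f8a1e_an.eb, Fin.castSucc_ne_last]) ho hne r0
      fun x hx => by
        obtain ⟨R, φ, a1, -, -, a2, -, a3⟩ := hM x hx
        exact ⟨R, φ, fun y _ => ⟨a1.contDiffAt, a2 y⟩, a3⟩) hs
  simpa only [Pool.Agent.H.MP_0f8a1e_an.IsS, Pool.Agent.H.MP_0f8a1e_an.lap_eq] using this

end Pool.Agent.S03829
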