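import Pool.Statements.S03831
import Pool.Agent.H.MP_0fc439_an.Main

set_option autoImplicit false
open Pool Pool.MP_0fc439_an

namespace Pool.Agent.S03831

theorem result :
    ∀ (F : ℕ → Type) [∀ n, NormedAddCommGroup (F n)] [∀ n, NormedSpace ℝ (F n)]
      [∀ n, FiniteDimensional ℝ (F n)] [∀ n, Nontrivial (F n)],
      ∃ (X : Type) (_ : NormedAddCommGroup X) (_ : NormedSpace ℝ X) (_ : CompleteSpace X),
        ¬ Dense {T : X →L[ℝ] lp F 1 | ∃ x : X, ‖x‖ ≤ 1 ∧ ‖T x‖ = ‖T‖} := by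
  intro F _ _ _ _
  have := fun n => FiniteDimensional.complete ℝ (F n)
  exact ⟨Pool.Agent.H.MP_0fc439_an.X', inferInstance, inferInstance, inferInstance,
    Pool.Agent.H.MP_0fc439_an.nd⟩

end Pool.Agent.S03831
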