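import Pool.Statements.S03845
-- import your own Pool.Agent.* helpers here
import Pool.Agent.H.MP_10e324_an.A

set_option autoImplicit false
open Filter Topology
open Pool Pool.MP_10e324_an

namespace Pool.Agent.S03845

theorem result :
    ∀ α : ℂ → ℂ, AnalyticOnNhd ℂ α (Metric.ball (0:ℂ) 1) →
      (∃ a ∈ Metric.ball (0:ℂ) 1, ∃ b ∈ Metric.ball (0:ℂ) 1, α a ≠ α b) →
      ((∀ f : ℂ → ℂ, AnalyticOnNhd ℂ f (Metric.ball (0:ℂ) 1) →
          (∀ z : ℕ → ℂ, (∀ n, z n ∈ Metric.ball (0:ℂ) 1) →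
            Tendsto (fun n => ‖z n‖) atTop (𝓝 1) →
            (∀ K : Set ℂ, K ⊆ f '' Metric.ball (0:ℂ) 1 → IsCompact K →
              {n : ℕ | f (z n) ∈ K}.Finite) →
            (∀ K : Set ℂ, K ⊆ α '' Metric.ball (0:ℂ) 1 → IsCompact K →
              {n : ℕ | α (z n) ∈ K}.Finite)) →
          ∃ φ : ℂ → ℂ, AnalyticOnNhd ℂ φ (α '' Metric.ball (0:ℂ) 1) ∧
            ∀ w ∈ Metric.ball (0:ℂ) 1, f w = φ (α w))
        ↔ Set.InjOn α (Metric.ball (0:ℂ) 1)) := by
  intro α hα hn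
  refine ⟨fun h a ha b hb e => ?_, fun hi f hf _ => ?_⟩
  · obtain ⟨ψ, h1, h2⟩ := Pool.Agent.H.MP_10e324_an.beta hα hn
    have h3 : AnalyticOnNhd ℂ (fun z => ψ (α z)) (Metric.ball 0 1) :=
      (h1.comp hα.differentiableOn (Set.mapsTo_image _ _)).analyticOnNhd Metric.isOpen_ball
    obtain ⟨Φ, h4, h5⟩ := Pool.Agent.H.MP_10e324_an.onto h3 h2
    obtain ⟨φ, -, h6⟩ := h (fun z => Φ (ψ (α z)) + z)
      (((h4.comp_differentiableOn h3.differentiableOn).add differentiableOn_id).analyticOnNhd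
        Metric.isOpen_ball) fun z hz _ hK K K1 K2 => by
      obtain ⟨C, hC⟩ := K2.exists_bound_of_continuousOn
        (h4.continuous.comp_continuousOn (h1.continuousOn.mono K1))
      refine (hK _ (fun w _ => h5 w) (isCompact_closedBall 0 (C + 1))).subset fun n hn => ?_
      exact mem_closedBall_zero_iff.mpr ((norm_add_le _ _).trans
        (add_le_add (hC _ hn) (mem_ball_zero_iff.mp (hz n)).le))
    have h7 := h6 a ha
    rw [e, ← h6 b hb] at h7
    exact add_left_cancel h7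
  · refine ⟨fun w => f (Function.invFunOn α (Metric.ball 0 1) w),
      hf.comp (Pool.Agent.H.MP_10e324_an.inv_an hα hn hi) ?_, fun w hw => ?_⟩
    · rintro _ ⟨z, hz, rfl⟩
      rwa [hi.leftInvOn_invFunOn hz]
    · exact congrArg f (hi.leftInvOn_invFunOn hw).symm

end Pool.Agent.S03845
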