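import Pool.Statements.S03851

set_option autoImplicit false
open Pool Pool.MP_115f17_an

namespace Pool.Agent.S03851

open Filter Topology ZeroAtInfty

/-- the space c0 -/
abbrev X : Type := C₀(ℕ, ℝ)

lemma abs_le_norm (w : X) (i : ℕ) : |w i| ≤ ‖w‖ := by
  rw [← ZeroAtInftyContinuousMap.norm_toBCF_eq_norm]
  exact w.toBCF.norm_coe_le_norm i

lemma norm_le (w : X) {C : ℝ} (hC : 0 ≤ C) (h : ∀ i, |w i| ≤ C) : ‖w‖ ≤ C := by
  rw [← ZeroAtInftyContinuousMap.norm_toBCF_eq_norm]
  exact (BoundedContinuousFunction.norm_le hC).2 h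

lemma tend (w : X) : Tendsto w atTop (𝓝 0) := by
  have := w.zero_at_infty'
  rwa [cocompact_eq_atTop] at this

/-- build an element of c0 -/
def mk (f : ℕ → ℝ) (h : Tendsto f atTop (𝓝 0)) : X :=
  ⟨⟨f, continuous_of_discreteTopology⟩, by rwa [cocompact_eq_atTop]⟩

/-- twice the backward shift -/
noncomputable def T : X →L[ℝ] X :=
  LinearMap.mkContinuous
    { toFun := fun w => mk (fun i => 2 * w (i + 1)) (by
        simpa using ((tendsto_add_atTop_iff_nat 1).2 (tend w)).const_mul 2)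
      map_add' := fun a b => by
        ext i
        show 2 * (a (i + 1) + b (i + 1)) = 2 * a (i + 1) + 2 * b (i + 1)
        ring
      map_smul' := fun c a => by
        ext i
        show 2 * (c * a (i + 1)) = c * (2 * a (i + 1))
        ring } 2 (fun w => norm_le _ (by positivity) fun i => by
      show |2 * w (i + 1)| ≤ _
      rw [abs_mul, abs_two]
      have := abs_le_norm w (i + 1)
      linarith)

lemma T_iter (k : ℕ) : ∀ (w : X) (i : ℕ), (T^[k] w) i = 2 ^ k * w (k + i) := by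
  induction k with
  | zero => intro w i; simp
  | succ k ih =>
    intro w i
    rw [Function.iterate_succ_apply, ih]
    show 2 ^ k * (2 * w (k + i + 1)) = _
    rw [show k + 1 + i = k + i + 1 by ring]
    ring

/-- enumeration of rational words, empty at 0 -/
def word (p : ℕ) : List ℚ :=
  if p = 0 then [] else (Encodable.decode (α := List ℚ) (p - 1)).getD []

/-- truncation -/
def clip (j t : ℝ) : ℝ := max (-j) (min j t)

lemma clip_le {j : ℝ} (hj : 0 ≤ j) (t : ℝ) : |clip j t| ≤ j ∧ |clip j t| ≤ |t| := by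
  unfold clip
  have h1 := le_abs_self t
  have h2 := neg_abs_le t
  have h3 := abs_nonneg t
  constructor <;> rw [abs_le] <;> constructor
  · exact le_max_left _ _
  · exact max_le (by linarith) (min_le_left _ _)
  · exact le_max_of_le_right (le_min (by linarith) h2)
  · exact max_le (by linarith) ((min_le_right _ _).trans h1)

lemma clip_eq {j t : ℝ} (h : |t| ≤ j) : clip j t = t := by
  unfold clip
  rw [abs_le] at h
  rw [min_eq_right h.2, max_eq_right h.1]

/-- the symbol sequence -/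
noncomputable def z (m : ℕ) : ℝ :=
  clip (Nat.log 2 m) (((word (padicValNat 2 (Nat.log 2 m))).getD
    (m % (word (padicValNat 2 (Nat.log 2 m))).length) 0 : ℚ) : ℝ)

lemma z_le (m : ℕ) : |z m| ≤ m := by
  refine (clip_le (Nat.cast_nonneg _) _).1.trans ?_
  exact_mod_cast Nat.log_le_self 2 m

lemma lin_tend (a b : ℝ) : Tendsto (fun i : ℕ => (a * i + b) / 2 ^ i) atTop (𝓝 0) := by
  have h1 := (tendsto_pow_const_div_const_pow_of_one_lt 1 (r := 2) (by norm_num)).const_mul a
  have h2 := (tendsto_pow_const_div_const_pow_of_one_lt 0 (r := 2) (by norm_num)).const_mul b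
  have := h1.add h2
  simp only [mul_zero, add_zero] at this
  refine this.congr fun i => ?_
  ring

/-- the vector -/
noncomputable def x : X := mk (fun m => z m / 2 ^ m) (by
  refine squeeze_zero_norm (fun m => ?_) (lin_tend 1 0)
  rw [norm_div, Real.norm_eq_abs, Real.norm_eq_abs, abs_of_pos (by positivity : (0 : ℝ) < 2 ^ m)]
  gcongr
  simpa using z_le m)

lemma orbit (k i : ℕ) : (T^[k] x) i = z (k + i) / 2 ^ i := by
  rw [T_iter]
  show 2 ^ k * (z (k + i) / 2 ^ (k + i)) = _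
  rw [pow_add]
  field_simp

lemma approx (y : X) (ε : ℝ) (hε : 0 < ε) : ∃ (w : List ℚ) (M : ℝ), 0 < w.length ∧
    (∀ i, |((w.getD i 0 : ℚ) : ℝ)| ≤ M) ∧
    (∀ i < w.length, |((w.getD i 0 : ℚ) : ℝ) / 2 ^ i - y i| ≤ ε) ∧
    ∀ i, w.length ≤ i → (4 * i + M) / 2 ^ i + |y i| ≤ ε := by
  obtain ⟨L0, hL0⟩ := eventually_atTop.1 ((tend y).norm.eventually
    (ge_mem_nhds (show ‖(0 : ℝ)‖ < ε / 2 by simpa using hε)))
  choose r hr using fun i : ℕ => exists_rat_near (y i * 2 ^ i) hε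
  set M : ℝ := ∑ i ∈ Finset.range L0, |(r i : ℝ)| with hM
  have hM0 : 0 ≤ M := Finset.sum_nonneg fun _ _ => abs_nonneg _
  obtain ⟨L1, hL1⟩ := eventually_atTop.1 ((lin_tend 4 M).eventually
    (ge_mem_nhds (show (0 : ℝ) < ε / 2 by positivity)))
  refine ⟨List.ofFn (n := L0 + L1 + 1) fun i => if (i : ℕ) < L0 then r i else 0, M, by simp, ?_,
    ?_, ?_⟩
  · intro i
    rw [List.getD_eq_getElem?_getD, List.getElem?_ofFn]
    split_ifs with h1 h2
    · exact Finset.single_le_sum (f := fun i => |(r i : ℝ)|) (fun _ _ => abs_nonneg _)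
        (Finset.mem_range.2 h2)
    · simpa using hM0
    · simpa using hM0
  · intro i hi
    rw [List.length_ofFn] at hi
    rw [List.getD_eq_getElem?_getD, List.getElem?_ofFn, dif_pos hi]
    simp only [Option.getD_some]
    split_ifs with h2
    · have h3 := hr i
      have h4 : (1 : ℝ) ≤ 2 ^ i := one_le_pow₀ (by norm_num)
      have e : (r i : ℝ) / 2 ^ i - y i = -(y i * 2 ^ i - r i) / 2 ^ i := by field_simp; ring
      rw [e, abs_div, abs_neg, abs_of_pos (by positivity : (0 : ℝ) < 2 ^ i),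
        div_le_iff₀ (by positivity)]
      nlinarith
    · have := hL0 i (by omega)
      simp only [Rat.cast_zero, zero_div, zero_sub, abs_neg]
      rw [Real.norm_eq_abs] at this
      linarith
  · intro i hi
    rw [List.length_ofFn] at hi
    have h1 := hL0 i (by omega)
    have h2 := hL1 i (by omega)
    rw [Real.norm_eq_abs] at h1
    linarith

lemma good (y : X) (ε : ℝ) (hε : 0 < ε) (w : List ℚ) (M : ℝ)
    (h1 : ∀ i, |((w.getD i 0 : ℚ) : ℝ)| ≤ M)
    (h2 : ∀ i < w.length, |((w.getD i 0 : ℚ) : ℝ) / 2 ^ i - y i| ≤ ε)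
    (h3 : ∀ i, w.length ≤ i → (4 * i + M) / 2 ^ i + |y i| ≤ ε)
    (j : ℕ) (hw : word (padicValNat 2 (j + 2)) = w) (hM : M ≤ j) (hL : w.length ≤ 2 ^ j)
    (t : ℕ) (ht1 : 4 * 2 ^ j ≤ w.length * t) (ht2 : w.length * t < 6 * 2 ^ j) :
    ‖T^[w.length * t] x - y‖ ≤ ε := by
  have hM0 : 0 ≤ M := (abs_nonneg _).trans (h1 0)
  have hlog : ∀ m, 4 * 2 ^ j ≤ m → m < 8 * 2 ^ j → Nat.log 2 m = j + 2 := fun m a b =>
    Nat.log_eq_of_pow_le_of_lt_pow (by rw [pow_add]; omega) (by rw [pow_add, pow_add]; omega)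
  refine norm_le _ hε.le fun i => ?_
  show |(T^[w.length * t] x) i - y i| ≤ ε
  rw [orbit]
  by_cases hi : i < w.length
  · have : z (w.length * t + i) = ((w.getD i 0 : ℚ) : ℝ) := by
      unfold z
      rw [hlog _ (by omega) (by omega), hw, Nat.mul_add_mod, Nat.mod_eq_of_lt hi]
      apply clip_eq
      push_cast
      linarith [h1 i]
    rw [this]
    exact h2 i hi
  · have h4 : |z (w.length * t + i)| ≤ 4 * i + M := by
      by_cases hc : w.length * t + i < 8 * 2 ^ j
      · unfold z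
        rw [hlog _ (by omega) hc, hw]
        refine (clip_le (Nat.cast_nonneg _) _).2.trans ((h1 _).trans ?_)
        have : (0 : ℝ) ≤ i := Nat.cast_nonneg _
        linarith
      · refine (z_le _).trans ?_
        have : w.length * t + i ≤ 4 * i := by omega
        have : ((w.length * t + i : ℕ) : ℝ) ≤ 4 * i := by exact_mod_cast this
        linarith
    refine (abs_sub _ _).trans (le_trans ?_ (h3 i (not_lt.1 hi)))
    rw [abs_div, abs_of_pos (by positivity : (0 : ℝ) < 2 ^ i)]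
    gcongr

lemma freq (U : Set X) (hU : IsOpen U) (hne : U.Nonempty) :
    ∃ δ : ℝ, 0 < δ ∧ ∀ᶠ n : ℕ in Filter.atTop,
      δ * (n : ℝ) ≤ (({k : ℕ | k < n ∧ (⇑T)^[k] x ∈ U}.ncard : ℕ) : ℝ) := by
  obtain ⟨y, hy⟩ := hne
  obtain ⟨ε, hε, hball⟩ := Metric.nhds_basis_closedBall.mem_iff.1 (hU.mem_nhds hy)
  obtain ⟨w, M, hw0, h1, h2, h3⟩ := approx y ε hε
  set L := w.length with hL
  set p := Encodable.encode w + 1 with hp
  have hword : word p = w := by simp [word, hp]
  set D := 2 ^ (p + 1) with hD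
  have hD0 : 0 < D := by positivity
  obtain ⟨N, hN⟩ := exists_nat_ge M
  refine ⟨1 / (2 * L * 2 ^ (2 * D + 3)), by positivity, ?_⟩
  filter_upwards [eventually_ge_atTop (2 ^ (2 * D + N + L + 2))] with n hn
  have hn0 : n ≠ 0 := by
    have : 0 < 2 ^ (2 * D + N + L + 2) := by positivity
    omega
  set J := Nat.log 2 n with hJ
  have hJ1 : 2 * D + N + L + 2 ≤ J := Nat.le_log_of_pow_le (by norm_num) hn
  have hJ2 : 2 ^ J ≤ n := Nat.pow_log_le_self 2 hn0
  have hJ3 : n < 2 ^ (J + 1) := Nat.lt_pow_succ_log_self (by norm_num) n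
  obtain ⟨s, hs1, hs2⟩ : ∃ s, D * (s + 1) ≤ J ∧ J < D * (s + 2) := by
    have a1 := Nat.div_add_mod J D
    have a2 := Nat.mod_lt J hD0
    have a3 : 1 ≤ J / D := (Nat.le_div_iff_mul_le hD0).2 (by omega)
    refine ⟨J / D - 1, ?_, ?_⟩
    · rw [Nat.sub_add_cancel a3]; omega
    · rw [show J / D - 1 + 2 = J / D + 1 by omega, mul_add]; omega
  have hDp : D = 2 * 2 ^ p := by rw [hD, pow_succ]; ring
  have hp0 : 0 < 2 ^ p := by positivity
  obtain ⟨j, hj⟩ : ∃ j, j + 2 = 2 ^ p * (2 * s + 1) := by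
    refine ⟨2 ^ p * (2 * s + 1) - 2, ?_⟩
    have : 2 ^ p * (2 * s + 1) = D * s + 2 ^ p := by rw [hDp]; ring
    rw [mul_add] at hs2
    omega
  have hj' : j + 2 = D * s + 2 ^ p := by rw [hj, hDp]; ring
  rw [mul_add] at hs1 hs2
  have hval : padicValNat 2 (j + 2) = p := by
    rw [hj, padicValNat.mul (by positivity) (by omega), padicValNat.prime_pow,
      padicValNat.eq_zero_of_not_dvd (by omega), add_zero]
  have hjN : N ≤ j := by omega
  have hjL : L ≤ 2 ^ j := (show L ≤ j by omega).trans (Nat.lt_two_pow_self).le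
  have hbig : 8 * 2 ^ j ≤ n := by
    refine le_trans ?_ hJ2
    calc 8 * 2 ^ j = 2 ^ (j + 3) := by ring
      _ ≤ 2 ^ J := Nat.pow_le_pow_right (by norm_num) (by omega)
  have hsmall : n ≤ 2 ^ j * 2 ^ (2 * D + 3) := by
    refine hJ3.le.trans ?_
    rw [← pow_add]
    exact Nat.pow_le_pow_right (by norm_num) (by omega)
  set a := 4 * 2 ^ j / L + 1 with ha
  set c := 2 ^ j / L with hc
  have b1 := Nat.div_add_mod (4 * 2 ^ j) L
  have b2 := Nat.mod_lt (4 * 2 ^ j) hw0
  have b3 := Nat.div_add_mod (2 ^ j) L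
  have b4 := Nat.mod_lt (2 ^ j) hw0
  have b5 : 1 ≤ c := (Nat.le_div_iff_mul_le hw0).2 (by omega)
  have hLa : L * a = L * (4 * 2 ^ j / L) + L := by rw [ha]; ring
  have hsub : ((Finset.Ico a (a + c)).image fun t => L * t : Set ℕ) ⊆
      {k : ℕ | k < n ∧ (⇑T)^[k] x ∈ U} := by
    intro k hk
    simp only [Finset.coe_image, Finset.coe_Ico, Set.mem_image, Set.mem_Ico] at hk
    obtain ⟨t, ⟨ht1, ht2⟩, rfl⟩ := hk
    have c1 : L * a ≤ L * t := Nat.mul_le_mul_left _ ht1
    have c2 : L * t < L * (a + c) := Nat.mul_lt_mul_of_pos_left ht2 hw0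
    rw [mul_add] at c2
    rw [← hc] at b3
    refine ⟨by omega, hball ?_⟩
    rw [mem_closedBall_iff_norm]
    refine good y ε hε w M h1 h2 h3 j (by rw [hval, hword]) ?_ hjL t (by rw [← hL]; omega)
      (by rw [← hL]; omega)
    exact hN.trans (by exact_mod_cast hjN)
  have hfin : {k : ℕ | k < n ∧ (⇑T)^[k] x ∈ U}.Finite :=
    (Set.finite_lt_nat n).subset fun k hk => hk.1
  have hcard := Set.ncard_le_ncard hsub hfin
  rw [Set.ncard_coe_finset, Finset.card_image_of_injective _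
    (fun a b h => Nat.eq_of_mul_eq_mul_left hw0 h), Nat.card_Ico, Nat.add_sub_cancel_left] at hcard
  have hfinal : n ≤ c * (2 * L * 2 ^ (2 * D + 3)) := by
    have d1 : L ≤ L * c := Nat.le_mul_of_pos_right _ b5
    rw [← hc] at b3
    have d2 : 2 ^ j ≤ 2 * (L * c) := by omega
    calc n ≤ 2 ^ j * 2 ^ (2 * D + 3) := hsmall
      _ ≤ (2 * (L * c)) * 2 ^ (2 * D + 3) := Nat.mul_le_mul_right _ d2
      _ = _ := by ring
  rw [one_div, inv_mul_le_iff₀ (by positivity)]
  have e1 : (n : ℝ) ≤ c * (2 * L * 2 ^ (2 * D + 3)) := by exact_mod_cast hfinal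
  have e2 : (c : ℝ) ≤ ({k : ℕ | k < n ∧ (⇑T)^[k] x ∈ U}.ncard : ℕ) := by exact_mod_cast hcard
  calc (n : ℝ) ≤ c * (2 * L * 2 ^ (2 * D + 3)) := e1
    _ ≤ ({k : ℕ | k < n ∧ (⇑T)^[k] x ∈ U}.ncard : ℕ) * (2 * L * 2 ^ (2 * D + 3)) := by gcongr
    _ = _ := by ring

lemma dead (s m : ℕ) (h1 : 2 ^ (2 * s + 1) ≤ m) (h2 : m < 2 ^ (2 * s + 1 + 1)) : z m = 0 := by
  unfold z
  rw [Nat.log_eq_of_pow_le_of_lt_pow h1 h2, padicValNat.eq_zero_of_not_dvd (by omega)]
  simp only [word, if_true, List.length_nil, Nat.mod_zero, List.getD_nil, Rat.cast_zero]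
  exact clip_eq (by simp; positivity)

/-- Twice the backward shift on c0, with a frequently hypercyclic vector vanishing on every other dyadic block. -/
theorem result :
    ∃ (𝕜 : Type) (_ : RCLike 𝕜) (X : Type) (_ : NormedAddCommGroup X)
      (_ : NormedSpace 𝕜 X) (_ : CompleteSpace X) (T : X →L[𝕜] X) (x : X),
      (∀ U : Set X, IsOpen U → U.Nonempty →
        ∃ δ : ℝ, 0 < δ ∧ ∀ᶠ n : ℕ in Filter.atTop,
          δ * (n : ℝ) ≤ (({k : ℕ | k < n ∧ (⇑T)^[k] x ∈ U}.ncard : ℕ) : ℝ)) ∧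
      ∃ U : Set X, IsOpen U ∧ U.Nonempty ∧
        ∀ A : Set ℕ, A ⊆ {k : ℕ | (⇑T)^[k] x ∈ U} →
          ¬ ∃ d : ℝ, 0 < d ∧
            Filter.Tendsto
              (fun n : ℕ => (({k : ℕ | k < n ∧ k ∈ A}.ncard : ℕ) : ℝ) / (n : ℝ))
              Filter.atTop (nhds d) := by
  refine ⟨ℝ, inferInstance, X, inferInstance, inferInstance, inferInstance, T, x, freq,
    {w | 0 < w 0}, ?_, ?_, ?_⟩
  · refine isOpen_lt continuous_const (LipschitzWith.continuous (K := 1) ?_)
    refine LipschitzWith.of_dist_le_mul fun a b => ?_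
    simpa [dist_eq_norm] using abs_le_norm (a - b) 0
  · refine ⟨mk (fun i => (0 * i + 1) / 2 ^ i) (lin_tend 0 1), ?_⟩
    show (0 : ℝ) < (0 * (0 : ℕ) + 1) / 2 ^ 0
    norm_num
  · rintro A hA ⟨d, hd, ht⟩
    have t0 : Tendsto (fun s : ℕ => 2 * s + 1) atTop atTop :=
      tendsto_atTop_mono (f := id) (fun s => by simp only [id]; omega) tendsto_id
    have t1 : Tendsto (fun s : ℕ => 2 ^ (2 * s + 1)) atTop atTop :=
      (tendsto_pow_atTop_atTop_of_one_lt (by norm_num : (1 : ℕ) < 2)).comp t0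
    have t2 : Tendsto (fun s : ℕ => 2 ^ (2 * s + 1 + 1)) atTop atTop :=
      tendsto_atTop_mono (fun s => Nat.pow_le_pow_right (by norm_num) (by omega)) t1
    have l1 := (ht.comp t1).div_const 2
    have l2 := ht.comp t2
    have : d / 2 = d := by
      refine tendsto_nhds_unique l1 (l2.congr fun s => ?_)
      have hset : {k : ℕ | k < 2 ^ (2 * s + 1 + 1) ∧ k ∈ A} = {k : ℕ | k < 2 ^ (2 * s + 1) ∧ k ∈ A} := by
        ext k
        constructor
        · rintro ⟨h1, h2⟩
          refine ⟨?_, h2⟩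
          by_contra h3
          have h4 : 0 < (T^[k] x) 0 := hA h2
          rw [orbit, add_zero, dead s k (not_lt.1 h3) h1] at h4
          simp at h4
        · rintro ⟨h1, h2⟩
          exact ⟨h1.trans_le (Nat.pow_le_pow_right (by norm_num) (by omega)), h2⟩
      simp only [Function.comp_apply, hset]
      push_cast
      rw [pow_succ (2 : ℝ) (2 * s + 1), div_div]
    linarith

end Pool.Agent.S03851
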