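import Pool.Statements.S03857
import Pool.Agent.H.MP_11e589.E

set_option autoImplicit false
open Pool Pool.MP_11e589_an

namespace Pool.Agent.S03857

/-- For every nonseparable real Banach space X spanned densely by a weakly compact set, and every C, there are two spaces isomorphic to X whose Banach–Mazur distance exceeds C (so the Banach–Mazur diameter of X's isomorphism class is infinite). -/
theorem result :
    ∀ (X : Type) [NormedAddCommGroup X] [NormedSpace ℝ X] [CompleteSpace X],
      ¬ TopologicalSpace.SeparableSpace X →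
      (∃ K : Set X, IsCompact ((toWeakSpace ℝ X) '' K) ∧
        Dense ((Submodule.span ℝ K : Submodule ℝ X) : Set X)) →
      ∀ C : ℝ, ∃ (Y : Type) (_ : NormedAddCommGroup Y) (_ : NormedSpace ℝ Y)
        (Z : Type) (_ : NormedAddCommGroup Z) (_ : NormedSpace ℝ Z),
        Nonempty (X ≃L[ℝ] Y) ∧ Nonempty (X ≃L[ℝ] Z) ∧
        ∀ T : Y ≃L[ℝ] Z,
          C < ‖(T : Y →L[ℝ] Z)‖ * ‖(T.symm : Z →L[ℝ] Y)‖ := by
  intro X _ _ _ hs ⟨K, k1, k2⟩ C
  exact Pool.Agent.H.MP_11e589.main hs k1 k2 C

end Pool.Agent.S03857
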