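import Pool.Statements.S03864
import Pool.Agent.H.MP_125cfc_an.Lift

set_option autoImplicit false
open Filter Topology
open Pool Pool.MP_125cfc_an

namespace Pool.Agent.S03864

theorem result :
    ¬ (∀ (d N : ℕ) (m : Fin N → ℝ), (∀ i, 0 < m i) →
  ∀ (Ω : Set (Fin N → EuclideanSpace ℝ (Fin d))),
    (∀ x, x ∈ Ω ↔ ∀ i j, i ≠ j → x i ≠ x j) →
  ∀ (H : Set ((Fin N → EuclideanSpace ℝ (Fin d)) × (Fin N → EuclideanSpace ℝ (Fin d)))),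
    (∀ p, p ∈ H ↔ ∃ γ γ' : ℝ → (Fin N → EuclideanSpace ℝ (Fin d)),
       ∃ aₘ aₚ : Fin N → EuclideanSpace ℝ (Fin d),
       γ 0 = p.1 ∧ γ' 0 = p.2 ∧ (∀ t, γ t ∈ Ω) ∧ (∀ t, HasDerivAt γ (γ' t) t) ∧
       (∀ t, HasDerivAt γ' (fun i => ∑ j ∈ Finset.univ.erase i,
            (m j / ‖γ t j - γ t i‖ ^ 3) • (γ t j - γ t i)) t) ∧
       aₘ ∈ Ω ∧ aₚ ∈ Ω ∧
       Tendsto (fun t : ℝ => t⁻¹ • γ t) atTop (𝓝 aₚ) ∧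
       Tendsto (fun t : ℝ => |t|⁻¹ • γ t) atBot (𝓝 aₘ)) →
  ∀ (S : (Fin N → EuclideanSpace ℝ (Fin d)) × (Fin N → EuclideanSpace ℝ (Fin d)) →
        (Fin N → EuclideanSpace ℝ (Fin d)) × (Fin N → EuclideanSpace ℝ (Fin d))),
    (∀ (γ γ' : ℝ → (Fin N → EuclideanSpace ℝ (Fin d))) (aₘ aₚ : Fin N → EuclideanSpace ℝ (Fin d)),
       (∀ t, γ t ∈ Ω) → (∀ t, HasDerivAt γ (γ' t) t) →
       (∀ t, HasDerivAt γ' (fun i => ∑ j ∈ Finset.univ.erase i,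
            (m j / ‖γ t j - γ t i‖ ^ 3) • (γ t j - γ t i)) t) →
       aₘ ∈ Ω → aₚ ∈ Ω →
       Tendsto (fun t : ℝ => t⁻¹ • γ t) atTop (𝓝 aₚ) →
       Tendsto (fun t : ℝ => |t|⁻¹ • γ t) atBot (𝓝 aₘ) →
       S (γ 0, γ' 0) = (aₘ, aₚ)) →
  ∀ (P₀ : Set ((Fin N → EuclideanSpace ℝ (Fin d)) × (Fin N → EuclideanSpace ℝ (Fin d)))),
    (∀ p, p ∈ P₀ ↔ p ∈ H ∧ ∑ i, m i • p.1 i = 0 ∧ ∑ i, m i • p.2 i = 0 ∧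
        ∑ i, m i * inner ℝ (p.1 i) (p.2 i) = 0) →
  ∀ (S₀ : Set ((Fin N → EuclideanSpace ℝ (Fin d)) × (Fin N → EuclideanSpace ℝ (Fin d)))),
    (∀ q, q ∈ S₀ ↔ q.1 ∈ Ω ∧ q.2 ∈ Ω ∧ ∑ i, m i • q.1 i = 0 ∧ ∑ i, m i • q.2 i = 0 ∧
        ∑ i, m i * ‖q.1 i‖ ^ 2 = ∑ i, m i * ‖q.2 i‖ ^ 2) →
  ∀ p ∈ P₀, ∃ (U W : Set ((Fin N → EuclideanSpace ℝ (Fin d)) × (Fin N → EuclideanSpace ℝ (Fin d)))),
    IsOpen U ∧ IsOpen W ∧ p ∈ U ∧ S p ∈ W ∧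
    ∃ T : (Fin N → EuclideanSpace ℝ (Fin d)) × (Fin N → EuclideanSpace ℝ (Fin d)) →
          (Fin N → EuclideanSpace ℝ (Fin d)) × (Fin N → EuclideanSpace ℝ (Fin d)),
      (∀ q ∈ P₀ ∩ U, S q ∈ S₀ ∩ W ∧ T (S q) = q) ∧
      (∀ r ∈ S₀ ∩ W, T r ∈ P₀ ∩ U ∧ S (T r) = r) ∧
      ContDiffOn ℝ ((⊤ : ℕ∞) : WithTop ℕ∞) S (P₀ ∩ U) ∧
      ContDiffOn ℝ ((⊤ : ℕ∞) : WithTop ℕ∞) T (S₀ ∩ W)) := by
  intro h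
  classical
  obtain ⟨a, b, am, ap, γ, γ', ha, ham, hap, hγ⟩ := H.BiH.family
  let C : (Fin 3 → H.BiH.E4) × (Fin 3 → H.BiH.E4) → (Fin 3 → H.BiH.E4) × (Fin 3 → H.BiH.E4) →
      Prop := fun p q => ∃ δ δ' : ℝ → Fin 3 → H.BiH.E4, (δ 0, δ' 0) = p ∧
    (∀ t i j, i ≠ j → δ t i ≠ δ t j) ∧ (∀ t, HasDerivAt δ (δ' t) t) ∧
    (∀ t, HasDerivAt δ' (H.BiH.NF H.BiH.ms (δ t)) t) ∧
    Tendsto (fun t : ℝ => t⁻¹ • δ t) atTop (𝓝 q.2) ∧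
    Tendsto (fun t : ℝ => |t|⁻¹ • δ t) atBot (𝓝 q.1)
  let S : (Fin 3 → H.BiH.E4) × (Fin 3 → H.BiH.E4) → (Fin 3 → H.BiH.E4) × (Fin 3 → H.BiH.E4) :=
    fun p => if hp : ∃ q, C p q then hp.choose else 0
  have hS : ∀ p q, C p q → S p = q := fun p q hq => by
    have hp : ∃ q, C p q := ⟨q, hq⟩
    simp only [S, dif_pos hp]
    obtain ⟨δ, δ', e, a1, a2, a3, a4, a5⟩ := hp.choose_spec
    obtain ⟨ε, ε', e', b1, b2, b3, b4, b5⟩ := hq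
    have := H.BiH.nbody_uniq _ a1 a2 a3 b1 b2 b3 (e.trans e'.symm)
    subst this
    exact Prod.ext (tendsto_nhds_unique a5 b5) (tendsto_nhds_unique a4 b4)
  have h1 := h 4 3 H.BiH.ms (fun i => by fin_cases i <;> simp [H.BiH.ms])
    {x | ∀ i j, i ≠ j → x i ≠ x j} (fun _ => Iff.rfl) _ (fun _ => Iff.rfl) S
    (fun δ δ' _ _ a1 a2 a3 _ _ a4 a5 => hS _ _ ⟨δ, δ', rfl, a1, a2, a3, a4, a5⟩)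
    _ (fun _ => Iff.rfl) _ (fun _ => Iff.rfl)
  let p : ℝ → (Fin 3 → H.BiH.E4) × (Fin 3 → H.BiH.E4) :=
    fun θ => (H.BiH.cfg θ 1 0 0, H.BiH.cfg θ 0 b a)
  have hp : ∀ θ, S (p θ) = (am, ap) := fun θ => by
    obtain ⟨a1, a2, a3, a4, a5, a6, a7⟩ := hγ θ
    exact hS _ _ ⟨γ θ, γ' θ, Prod.ext a1 a2, a3, a4, a5, a6, a7⟩
  obtain ⟨U, W, hU, -, hpU, -, T, hT, -⟩ := h1 (p 0) (by
    obtain ⟨a1, a2, a3, a4, a5, a6, a7⟩ := hγ 0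
    exact ⟨⟨γ 0, γ' 0, am, ap, a1, a2, a3, a4, a5, ham, hap, a6, a7⟩, H.BiH.cfg_com,
      H.BiH.cfg_com, H.BiH.cfg_inner⟩)
  have hT' : ∀ θ, p θ ∈ U → T (am, ap) = p θ := fun θ hθ => by
    obtain ⟨a1, a2, a3, a4, a5, a6, a7⟩ := hγ θ
    rw [← hp θ]
    exact (hT (p θ) ⟨⟨⟨γ θ, γ' θ, am, ap, a1, a2, a3, a4, a5, ham, hap, a6, a7⟩, H.BiH.cfg_com,
      H.BiH.cfg_com, H.BiH.cfg_inner⟩, hθ⟩).2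
  have cp : Continuous p := (H.BiH.cfg_cont _ _ _).prodMk (H.BiH.cfg_cont _ _ _)
  have e1 : ∀ᶠ θ in 𝓝[>] (0 : ℝ), p θ ∈ U :=
    nhdsWithin_le_nhds (cp.continuousAt.preimage_mem_nhds (hU.mem_nhds hpU))
  obtain ⟨θ, hθ, h2⟩ := (e1.and (Ioo_mem_nhdsGT Real.pi_pos)).exists
  have e2 := congrArg (fun q => q.2 2 3) ((hT' θ hθ).symm.trans (hT' 0 hpU))
  have h3 := Real.sin_pos_of_pos_of_lt_pi h2.1 h2.2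
  simp [p, H.BiH.cfg, H.BiH.PP, H.BiH.QQ, H.BiH.RR, ha.ne', h3.ne'] at e2

end Pool.Agent.S03864
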