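import Pool.Statements.S03881
import Pool.Agent.H.MP_13a5bb_an.C

set_option autoImplicit false
open TopologicalSpace
open Pool Pool.MP_13a5bb_an

namespace Pool.Agent.S03881

theorem result :
    ∀ (k : ℕ), 1 < k →
    ∀ (S : Subalgebra ℂ (MvPowerSeries (Fin k) ℂ)),
      (∀ p : MvPolynomial (Fin k) ℂ, (p : MvPowerSeries (Fin k) ℂ) ∈ S) →
      ∀ (t₁ t₂ : TopologicalSpace S),
        @IsTopologicalRing S t₁ _ →
        @ContinuousSMul ℂ S _ _ t₁ →
        @TopologicalSpace.IsCompletelyMetrizableSpace S t₁ →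
        (∀ n : Fin k →₀ ℕ,
          @Continuous S ℂ t₁ _ (fun a => MvPowerSeries.coeff n (a : MvPowerSeries (Fin k) ℂ))) →
        @IsTopologicalRing S t₂ _ →
        @ContinuousSMul ℂ S _ _ t₂ →
        @TopologicalSpace.IsCompletelyMetrizableSpace S t₂ →
        t₁ = t₂ := by
  intro k hk S hS t₁ t₂ a1 a2 a3 a4 b1 b2 b3
  have : Nonempty (Fin k) := ⟨⟨0, by omega⟩⟩
  exact H.MP_13a5bb_an.fin S hS t₁ t₂ a1 a2 a3 a4 b1 b2 b3

end Pool.Agent.S03881
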