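import Pool.Statements.S03896
-- import your own Pool.Agent.* helpers here

set_option autoImplicit false
open Polynomial
open Pool Pool.MP_15266c_an

namespace Pool.Agent.S03896

noncomputable def QQ : Polynomial ℂ := C (40 / 41) * X ^ 2 + C (40 / 41)

noncomputable def PP : Polynomial ℂ :=
  C 103300 * X ^ 5 - C 81180 * X ^ 4 + C 135445 * X ^ 3 - C 83686 * X ^ 2 + C 32145 * X - C 2506

noncomputable def F1 : Polynomial ℂ := C 10 * X ^ 2 - C 5 * X + C 1

noncomputable def F2 : Polynomial ℂ := C 51650 * X ^ 2 - C 6647 * X + C 32145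

lemma QQ_deg : QQ.natDegree = 2 := by unfold QQ; compute_degree!

lemma PP_deg : PP.natDegree = 5 := by unfold PP; compute_degree!

lemma F1_deg : F1.natDegree = 2 := by unfold F1; compute_degree!

lemma F2_deg : F2.natDegree = 2 := by unfold F2; compute_degree!

lemma der : derivative PP = F1 * F2 := by
  apply Polynomial.funext
  intro z
  simp [PP, F1, F2]
  ring

lemma QQ_eval (z : ℂ) : ‖QQ.eval z‖ ≤ 1 ↔
    (z.re ^ 2 - z.im ^ 2 + 1) ^ 2 + (2 * z.re * z.im) ^ 2 ≤ (41 / 40) ^ 2 := by
  have h : QQ.eval z = ((40 / 41 * (z.re ^ 2 - z.im ^ 2 + 1) : ℝ) : ℂ)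
      + ((40 / 41 * (2 * z.re * z.im) : ℝ) : ℂ) * Complex.I := by
    conv_lhs => rw [← Complex.re_add_im z]
    simp only [QQ, eval_add, eval_mul, eval_C, eval_pow, eval_X]
    push_cast
    linear_combination (40 / 41 * (z.im : ℂ) ^ 2) * Complex.I_sq
  rw [h, Complex.norm_add_mul_I, Real.sqrt_le_left zero_le_one]
  constructor <;> intro h <;> nlinarith

lemma quad (a b c : ℝ) (z : ℂ) (hd : b ^ 2 < 4 * a * c) (ha : 0 < a)
    (h : (a : ℂ) * z ^ 2 - (b : ℂ) * z + (c : ℂ) = 0) :
    z.re = b / (2 * a) ∧ z.im ^ 2 = c / a - b ^ 2 / (4 * a ^ 2) := by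
  have h1 := congrArg Complex.re h
  have h2 := congrArg Complex.im h
  simp [pow_two] at h1 h2
  have him : z.im ≠ 0 := by
    intro h0
    rw [h0] at h1
    nlinarith [sq_nonneg (2 * a * z.re - b)]
  have hre : z.re = b / (2 * a) := by
    have : z.im * (2 * a * z.re - b) = 0 := by linarith
    rcases mul_eq_zero.mp this with h3 | h3
    · exact absurd h3 him
    · field_simp; linarith
  refine ⟨hre, ?_⟩
  rw [hre] at h1
  field_simp at h1 ⊢
  linarith

theorem result :
    ¬ (∀ (P Q : Polynomial ℂ), 1 ≤ Q.natDegree → Q.natDegree < P.natDegree → Q ∣ P →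
      (∀ z ∈ P.roots, ‖Q.eval z‖ ≤ 1) →
      P.natDegree - Q.natDegree ≤
        (Multiset.filter (fun z => ‖Q.eval z‖ ≤ 1) (Polynomial.derivative P).roots).card) := by
  intro h
  have h1 := h PP QQ (by rw [QQ_deg]; norm_num) (by rw [QQ_deg, PP_deg]; norm_num) ?_ ?_
  · rw [PP_deg, QQ_deg, der] at h1
    have n1 : F1 ≠ 0 := fun h0 => by simpa [h0] using F1_deg
    have n2 : F2 ≠ 0 := fun h0 => by simpa [h0] using F2_deg
    rw [roots_mul (mul_ne_zero n1 n2), Multiset.filter_add, Multiset.card_add] at h1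
    have a1 : Multiset.filter (fun z => ‖QQ.eval z‖ ≤ 1) F1.roots = 0 := by
      rw [Multiset.filter_eq_nil]
      intro z hz
      have hz' : F1.eval z = 0 := (mem_roots n1).mp hz
      have := quad 10 5 1 z (by norm_num) (by norm_num) (by simpa [F1] using hz')
      rw [QQ_eval, mul_pow, this.2, this.1]
      norm_num
    have a2 : (Multiset.filter (fun z => ‖QQ.eval z‖ ≤ 1) F2.roots).card ≤ 2 :=
      le_trans (Multiset.card_le_card (Multiset.filter_le _ _)) (F2_deg ▸ card_roots' F2)
    rw [a1] at h1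
    simp at h1
    omega
  · refine ⟨C (41 / 40) * (C 10 * X - C 1) * (C 10330 * X ^ 2 - C 7085 * X + C 2506), ?_⟩
    apply Polynomial.funext
    intro z
    simp [PP, QQ]
    ring
  · intro z hz
    have n0 : PP ≠ 0 := fun h0 => by simpa [h0] using PP_deg
    have hz' : PP.eval z = 0 := (mem_roots n0).mp hz
    have e : PP.eval z = (z ^ 2 + 1) * (10 * z - 1) * (10330 * z ^ 2 - 7085 * z + 2506) := by
      simp [PP]; ring
    rw [e] at hz'
    rcases mul_eq_zero.mp hz' with h2 | h2
    · rcases mul_eq_zero.mp h2 with h3 | h3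
      · have : QQ.eval z = 0 := by
          simp only [QQ, eval_add, eval_mul, eval_C, eval_pow, eval_X]
          linear_combination (40 / 41 : ℂ) * h3
        rw [this]; simp
      · have : z = ((1 / 10 : ℝ) : ℂ) := by push_cast; linear_combination (1 / 10 : ℂ) * h3
        rw [QQ_eval, this, Complex.ofReal_re, Complex.ofReal_im]
        norm_num
    · have := quad 10330 7085 2506 z (by norm_num) (by norm_num) (by simpa using h2)
      rw [QQ_eval, mul_pow, this.2, this.1]
      norm_num

end Pool.Agent.S03896
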