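import Pool.Statements.S03908
import Pool.Agent.H.MP_160a79_an.C

set_option autoImplicit false
universe u
open Pool Pool.MP_160a79_an

namespace Pool.Agent.S03908

theorem result :
    ¬ (∀ (X : Type u) [NormedAddCommGroup X] [NormedSpace ℝ X] [CompleteSpace X],
      Function.Surjective (NormedSpace.inclusionInDoubleDual ℝ X) →
      ¬ TopologicalSpace.SeparableSpace X →
      ∃ N : X → ℝ,
        (∀ x y : X, N (x + y) ≤ N x + N y) ∧
        (∀ (c : ℝ) (x : X), N (c • x) = |c| * N x) ∧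
        (∃ a b : ℝ, 0 < a ∧ 0 < b ∧ ∀ x : X, a * ‖x‖ ≤ N x ∧ N x ≤ b * ‖x‖) ∧
        ∀ s : ℕ → X, (∀ n, N (s n) = 1) →
          Filter.Tendsto (fun p : ℕ × ℕ => N (s p.1 + s p.2)) Filter.atTop (nhds 2) →
          ∃ x : X, Filter.Tendsto s Filter.atTop (nhds x)) := by
  intro h
  classical
  obtain ⟨W, _, _, _, hW⟩ := H.MP_160a79_an.exW
  obtain ⟨X, _, _, _, x, ev, G⟩ := H.MP_160a79_an.exG (H.MP_160a79_an.Fm.her (W := W))
    H.MP_160a79_an.Fm.sg (0, ∅)
  obtain ⟨N, h1, h2, ⟨a, b, ha, hb, h3⟩, h4⟩ := h (ULift.{u} X)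
    (H.MP_160a79_an.rtr ContinuousLinearEquiv.ulift
      (H.MP_160a79_an.refl G H.MP_160a79_an.Fm.her H.MP_160a79_an.Fm.wf))
    fun _ => H.MP_160a79_an.nsep G hW (ULift.down_surjective.denseRange.separableSpace
      continuous_uliftDown)
  obtain ⟨s, s1, s2, s3⟩ := H.MP_160a79_an.main G hW (N := fun v => N (ULift.up v))
    (fun v w => h1 (ULift.up v) (ULift.up w)) (fun c v => h2 c (ULift.up v)) ha hb
    fun v => h3 (ULift.up v)
  obtain ⟨v, hv⟩ := h4 (fun n => ULift.up (s n)) s1 s2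
  exact s3 ((continuous_uliftDown.tendsto v).comp hv).cauchySeq

end Pool.Agent.S03908
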