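import Pool.Statements.S03921
-- import your own Pool.Agent.* helpers here
import Pool.Agent.H.MP_16fe1e_an.A

set_option autoImplicit false
open Pool Pool.MP_16fe1e_an

namespace Pool.Agent.S03921

theorem result :
    ∀ l : List (ℝ → ℝ),
      (∀ g ∈ l, Set.MapsTo g (Set.Icc (0:ℝ) 1) (Set.Icc (0:ℝ) 1) ∧
        ∃ F : ℝ → ℝ, ∀ x ∈ Set.Icc (0:ℝ) 1, HasDerivWithinAt F (g x) (Set.Icc (0:ℝ) 1) x) →
      IsConnected ((fun x : ℝ => (x, (l.foldr (fun g h => g ∘ h) id) x)) '' Set.Icc (0:ℝ) 1) := by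
  exact Pool.Agent.H.MP_16fe1e_an.fin

end Pool.Agent.S03921
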