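import Pool.Statements.S03926
-- import your own Pool.Agent.* helpers here

set_option autoImplicit false
open Pool Pool.MP_171342_an

namespace Pool.Agent.S03926

def Ach (x : ℕ → ℝ) : Set ℝ := {s | ∃ A : Set ℕ, s = ∑' n, A.indicator x n}

lemma ach_compact (x : ℕ → ℝ) (hx : Summable x) : IsCompact (Ach x) := by
  classical
  have hc : Continuous (fun b : ℕ → Bool => ∑' n, (if b n = true then x n else 0)) := by
    refine continuous_tsum (u := fun n => ‖x n‖) ?_ hx.norm ?_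
    · intro n
      exact (continuous_of_discreteTopology (f := fun c : Bool => if c = true then x n else 0)).comp
        (continuous_apply n)
    · intro n b
      split_ifs <;> simp
  have : Ach x = Set.range (fun b : ℕ → Bool => ∑' n, (if b n = true then x n else 0)) := by
    ext s
    constructor
    · rintro ⟨A, rfl⟩
      refine ⟨fun n => decide (n ∈ A), ?_⟩
      refine tsum_congr fun n => ?_
      simp [Set.indicator_apply]
    · rintro ⟨b, rfl⟩
      refine ⟨{n | b n = true}, ?_⟩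
      refine tsum_congr fun n => ?_
      simp [Set.indicator_apply]
  rw [this]
  exact isCompact_range hc

lemma ach_step (x : ℕ → ℝ) (hx : Summable x) (s : ℝ) :
    s ∈ Ach x ↔ s ∈ Ach (fun n => x (n+1)) ∨ s - x 0 ∈ Ach (fun n => x (n+1)) := by
  classical
  have key : ∀ A : Set ℕ, ∑' n, A.indicator x n =
      A.indicator x 0 + ∑' n, {m | m + 1 ∈ A}.indicator (fun n => x (n+1)) n := by
    intro A
    rw [(hx.indicator A).tsum_eq_zero_add]
    congr 1
  constructor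
  · rintro ⟨A, rfl⟩
    rw [key]
    by_cases h : 0 ∈ A
    · right
      exact ⟨{m | m + 1 ∈ A}, by simp [h]⟩
    · left
      exact ⟨{m | m + 1 ∈ A}, by simp [h]⟩
  · rintro (⟨A, h⟩ | ⟨A, h⟩)
    · refine ⟨{m | ∃ k ∈ A, m = k + 1}, ?_⟩
      rw [key, h]
      have : {m | m + 1 ∈ {m | ∃ k ∈ A, m = k + 1}} = A := by ext m; simp
      rw [this]; simp
    · refine ⟨{m | m = 0 ∨ ∃ k ∈ A, m = k + 1}, ?_⟩
      rw [key]
      have : {m | m + 1 ∈ {m | m = 0 ∨ ∃ k ∈ A, m = k + 1}} = A := by ext m; simp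
      rw [this, ← h]; simp

lemma ach_scale (x : ℕ → ℝ) (c : ℝ) (hc : c ≠ 0) (s : ℝ) :
    s ∈ Ach (fun n => x n / c) ↔ c * s ∈ Ach x := by
  classical
  have key : ∀ A : Set ℕ, ∑' n, A.indicator (fun n => x n / c) n = (∑' n, A.indicator x n) / c := by
    intro A
    rw [← tsum_div_const]
    refine tsum_congr fun n => ?_
    simp only [Set.indicator_apply]
    split_ifs <;> simp
  constructor
  · rintro ⟨A, rfl⟩
    refine ⟨A, ?_⟩
    rw [key]; field_simp
  · rintro ⟨A, h⟩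
    refine ⟨A, ?_⟩
    rw [key, ← h]; field_simp

noncomputable def y (n : ℕ) : ℝ := (4 - ((n % 3 : ℕ) : ℝ)) / 6 ^ (n / 3 + 1)

lemma y_pos (n : ℕ) : 0 < y n := by
  have : ((n % 3 : ℕ) : ℝ) < 3 := by exact_mod_cast Nat.mod_lt n (by norm_num)
  unfold y
  apply div_pos (by linarith) (by positivity)

lemma y_add (n : ℕ) : y (n + 1 + 1 + 1) = y n / 6 := by
  unfold y
  have h1 : (n + 1 + 1 + 1) % 3 = n % 3 := by omega
  have h2 : (n + 1 + 1 + 1) / 3 = n / 3 + 1 := by omega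
  rw [h1, h2, pow_succ _ (n / 3 + 1)]
  field_simp

lemma y_le (n : ℕ) : y n ≤ (2/3 : ℝ) ^ n := by
  induction n using Nat.strong_induction_on with
  | _ n ih =>
    match n with
    | 0 => norm_num [y]
    | 1 => norm_num [y]
    | 2 => norm_num [y]
    | k + 3 =>
      have := ih k (by omega)
      rw [show k + 3 = k + 1 + 1 + 1 from rfl, y_add, pow_succ, pow_succ, pow_succ]
      have : (0:ℝ) < (2/3) ^ k := by positivity
      linarith

lemma y_summable : Summable y :=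
  Summable.of_nonneg_of_le (fun n => (y_pos n).le) y_le
    (summable_geometric_of_lt_one (by norm_num) (by norm_num))

def E0 : Set ℝ := Ach y

lemma E0_compact : IsCompact E0 := ach_compact y y_summable

def D (d : ℝ) : Prop := d = 0 ∨ d = 2 ∨ d = 3 ∨ d = 4 ∨ d = 5 ∨ d = 6 ∨ d = 7 ∨ d = 9

lemma E0_iff (z : ℝ) : z ∈ E0 ↔ ∃ d, D d ∧ 6 * z - d ∈ E0 := by
  have s1 : Summable (fun n => y (n+1)) := (summable_nat_add_iff 1).2 y_summable
  have s2 : Summable (fun n => y (n+1+1)) := (summable_nat_add_iff 1).2 s1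
  have e3 : (fun n => y (n+1+1+1)) = fun n => y n / 6 := funext y_add
  have y0 : y 0 = 2/3 := by norm_num [y]
  have y1 : y (0+1) = 1/2 := by norm_num [y]
  have y2 : y (0+1+1) = 1/3 := by norm_num [y]
  have h : ∀ u, u ∈ Ach (fun n => y (n+1+1+1)) ↔ 6 * u ∈ E0 := by
    intro u; rw [e3, ach_scale _ _ (by norm_num)]; rfl
  have h2 : ∀ u, u ∈ Ach (fun n => y (n+1+1)) ↔ 6 * u ∈ E0 ∨ 6 * u - 2 ∈ E0 := by
    intro u; rw [ach_step _ s2, h, h, y2]; ring_nf
  have h1 : ∀ u, u ∈ Ach (fun n => y (n+1)) ↔ (6 * u ∈ E0 ∨ 6 * u - 2 ∈ E0) ∨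
      (6 * u - 3 ∈ E0 ∨ 6 * u - 5 ∈ E0) := by
    intro u; rw [ach_step _ s1, h2, h2, y1]; ring_nf
  have h0 : z ∈ E0 ↔ ((6 * z ∈ E0 ∨ 6 * z - 2 ∈ E0) ∨ (6 * z - 3 ∈ E0 ∨ 6 * z - 5 ∈ E0)) ∨
      ((6 * z - 4 ∈ E0 ∨ 6 * z - 6 ∈ E0) ∨ (6 * z - 7 ∈ E0 ∨ 6 * z - 9 ∈ E0)) := by
    show z ∈ Ach y ↔ _
    rw [ach_step _ y_summable, h1, h1, y0]; ring_nf
  rw [h0]
  simp only [D, or_and_right, exists_or, exists_eq_left, sub_zero]
  tauto

lemma zero_mem : (0:ℝ) ∈ E0 := ⟨∅, by simp⟩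

lemma D_bd {d : ℝ} (h : D d) : 0 ≤ d ∧ d ≤ 9 := by
  rcases h with h | h | h | h | h | h | h | h <;> subst h <;> norm_num

lemma D_cases {d : ℝ} (h : D d) : d = 0 ∨ d = 2 ∨ 3 ≤ d := by
  rcases h with h | h | h | h | h | h | h | h <;> subst h <;> norm_num

lemma E0_bd {z : ℝ} (hz : z ∈ E0) : 0 ≤ z ∧ z ≤ 9/5 := by
  obtain ⟨m, hm, hm'⟩ := E0_compact.exists_isLeast ⟨0, zero_mem⟩
  obtain ⟨M, hM, hM'⟩ := E0_compact.exists_isGreatest ⟨0, zero_mem⟩
  obtain ⟨d, hd, h⟩ := (E0_iff m).1 hm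
  obtain ⟨d', hd', h'⟩ := (E0_iff M).1 hM
  have := hm' h
  have := hM' h'
  have := hm' hz
  have := hM' hz
  have := D_bd hd
  have := D_bd hd'
  constructor <;> linarith

lemma pow_small (c δ : ℝ) (hδ : 0 < δ) : ∃ n : ℕ, c / 6 ^ n < δ := by
  obtain ⟨n, hn⟩ := pow_unbounded_of_one_lt (c / δ) (by norm_num : (1:ℝ) < 6)
  refine ⟨n, ?_⟩
  rw [div_lt_iff₀ (by positivity)]
  rw [div_lt_iff₀ hδ] at hn
  linarith

lemma sub_E0 (J : Set ℝ) (hJ : ∀ z ∈ J, |z| ≤ 2) (h : ∀ z ∈ J, ∃ d, D d ∧ 6 * z - d ∈ J) :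
    J ⊆ E0 := by
  have key : ∀ n : ℕ, ∀ z ∈ J, ∃ e ∈ E0, |z - e| ≤ 2 / 6 ^ n := by
    intro n
    induction n with
    | zero => intro z hz; exact ⟨0, zero_mem, by simpa using hJ z hz⟩
    | succ n ih =>
      intro z hz
      obtain ⟨d, hd, hz'⟩ := h z hz
      obtain ⟨e, he, hb⟩ := ih _ hz'
      refine ⟨(d + e) / 6, (E0_iff _).2 ⟨d, hd, by convert he using 1; ring⟩, ?_⟩
      have : z - (d + e) / 6 = (6 * z - d - e) / 6 := by ring
      rw [this, abs_div, pow_succ, ← div_div]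
      norm_num
      linarith
  intro z hz
  rw [← E0_compact.isClosed.closure_eq, Metric.mem_closure_iff]
  intro δ hδ
  obtain ⟨n, hn⟩ := pow_small 2 δ hδ
  obtain ⟨e, he, hb⟩ := key n z hz
  exact ⟨e, he, by rw [Real.dist_eq]; linarith⟩

lemma Icc_sub : Set.Icc (2/5 : ℝ) (7/5) ⊆ E0 := by
  apply sub_E0
  · rintro z ⟨h1, h2⟩; rw [abs_le]; constructor <;> linarith
  · rintro z ⟨h1, h2⟩
    by_cases a2 : 6 * z ≤ 17/5
    · exact ⟨2, by simp [D], by constructor <;> linarith⟩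
    by_cases a3 : 6 * z ≤ 22/5
    · exact ⟨3, by simp [D], by constructor <;> linarith⟩
    by_cases a4 : 6 * z ≤ 27/5
    · exact ⟨4, by simp [D], by constructor <;> linarith⟩
    by_cases a5 : 6 * z ≤ 32/5
    · exact ⟨5, by simp [D], by constructor <;> linarith⟩
    by_cases a6 : 6 * z ≤ 37/5
    · exact ⟨6, by simp [D], by constructor <;> linarith⟩
    · exact ⟨7, by simp [D], by constructor <;> linarith⟩

lemma symm_mem {z : ℝ} (hz : z ∈ E0) : 9/5 - z ∈ E0 := by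
  have : {u : ℝ | 9/5 - u ∈ E0} ⊆ E0 := by
    apply sub_E0
    · intro u hu
      have := E0_bd hu
      rw [abs_le]; constructor <;> linarith
    · intro u hu
      obtain ⟨d, hd, h⟩ := (E0_iff _).1 hu
      refine ⟨9 - d, ?_, ?_⟩
      · rcases hd with h | h | h | h | h | h | h | h <;> subst h <;> norm_num [D]
      · show _ ∈ E0
        convert h using 1; ring
  apply this
  show _ ∈ E0
  convert hz using 1; ring

lemma not_div {z : ℝ} (hz : z ∉ E0) (h2 : z < 2) : z / 6 ∉ E0 := by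
  intro h
  obtain ⟨d, hd, h⟩ := (E0_iff _).1 h
  have := E0_bd h
  rcases D_cases hd with rfl | rfl | hd
  · apply hz; convert h using 1; ring
  · linarith
  · linarith

lemma gap0 {z : ℝ} (h1 : 3/10 < z) (h2 : z < 1/3) : z ∉ E0 := by
  intro h
  obtain ⟨d, hd, h⟩ := (E0_iff _).1 h
  have := E0_bd h
  rcases D_cases hd with rfl | rfl | hd <;> linarith

lemma div_pow_le (c : ℝ) (hc : 0 ≤ c) (q : ℝ) (hq : 1 ≤ q) (n : ℕ) : c / q ^ n ≤ c :=
  div_le_self hc (one_le_pow₀ hq)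

lemma gapz (m : ℕ) : (8/25 : ℝ) / 6 ^ m ∉ E0 := by
  induction m with
  | zero => exact gap0 (by norm_num) (by norm_num)
  | succ m ih =>
    rw [pow_succ, ← div_div]
    have := div_pow_le (8/25) (by norm_num) 6 (by norm_num) m
    exact not_div ih (by linarith)

lemma gapb (c : ℝ) (h1 : 1/15 < c) (h2 : c < 1/10) (j : ℕ) : 2/5 - c / 6 ^ j ∉ E0 := by
  induction j with
  | zero => exact gap0 (by norm_num; linarith) (by norm_num; linarith)
  | succ j ih =>
    intro h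
    obtain ⟨d, hd, h⟩ := (E0_iff _).1 h
    have hb := E0_bd h
    have := div_pow_le c (by linarith) 6 (by norm_num) j
    have : 0 < c / 6 ^ j := by
      have : 0 < c := by linarith
      positivity
    rw [pow_succ, ← div_div] at h hb
    rcases D_cases hd with rfl | rfl | hd
    · linarith
    · apply ih; convert h using 1; ring
    · linarith

lemma gapc (i : ℕ) : (12/35 : ℝ) - (1/70) / 36 ^ i ∉ E0 := by
  induction i with
  | zero => exact gap0 (by norm_num) (by norm_num)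
  | succ j ih =>
    intro h
    obtain ⟨d, hd, h⟩ := (E0_iff _).1 h
    have hb := E0_bd h
    have := div_pow_le (1/70) (by norm_num) 36 (by norm_num) j
    have : (0:ℝ) < (1/70) / 36 ^ j := by positivity
    rw [pow_succ, ← div_div] at h hb
    rcases D_cases hd with rfl | rfl | hd
    · linarith
    · apply not_div ih (by linarith); convert h using 1; ring
    · linarith

lemma ptc (i : ℕ) : (12/35 : ℝ) - (13/140) / 36 ^ i ∈ E0 := by
  induction i with
  | zero =>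
    refine (E0_iff _).2 ⟨0, by simp [D], (E0_iff _).2 ⟨9, by simp [D], ?_⟩⟩
    convert zero_mem using 1; norm_num
  | succ j ih =>
    refine (E0_iff _).2 ⟨2, by simp [D], (E0_iff _).2 ⟨0, by simp [D], ?_⟩⟩
    convert ih using 1
    rw [pow_succ, ← div_div]; ring

def P (S : Set ℝ) (n : ℕ) : Prop :=
  ∃ F : Set ℝ, F.Finite ∧ ∀ z, z ∈ S ↔ ∃ f ∈ F, ∃ e ∈ E0, z = f + e / 6 ^ n

lemma D_fin : {d | D d}.Finite := by
  have : {d | D d} = {0, 2, 3, 4, 5, 6, 7, 9} := by ext d; simp [D]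
  rw [this]; exact Set.toFinite _

lemma P_all {S : Set ℝ} (h : P S 0) (n : ℕ) : P S n := by
  induction n with
  | zero => exact h
  | succ n ih =>
    obtain ⟨F, hF, h⟩ := ih
    refine ⟨Set.image2 (fun f d => f + d / 6 ^ (n+1)) F {d | D d}, hF.image2 _ D_fin, ?_⟩
    intro z
    rw [h]
    constructor
    · rintro ⟨f, hf, e, he, rfl⟩
      obtain ⟨d, hd, he'⟩ := (E0_iff _).1 he
      refine ⟨_, ⟨f, hf, d, hd, rfl⟩, _, he', ?_⟩
      rw [pow_succ]; field_simp; ring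
    · rintro ⟨_, ⟨f, hf, d, hd, rfl⟩, e, he, rfl⟩
      refine ⟨f, hf, (d + e) / 6, (E0_iff _).2 ⟨d, hd, by convert he using 1; ring⟩, ?_⟩
      simp only
      rw [pow_succ]; field_simp; ring

def Iso (S : Set ℝ) (g : ℝ) : Prop :=
  g ∈ S ∧ ∀ η > 0, (∃ z, g - η < z ∧ z < g ∧ z ∉ S) ∧ (∃ z, g < z ∧ z < g + η ∧ z ∉ S)

lemma iso_of_gap {S : Set ℝ} (h : P S 0) {g u : ℝ} (hg : g ∈ S) (hu : u < g)
    (hgap : ∀ z, u < z → z < g → z ∉ S) : Iso S g := by
  refine ⟨hg, fun η hη => ⟨?_, ?_⟩⟩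
  · refine ⟨(max u (g - η) + g) / 2, ?_, ?_, hgap _ ?_ ?_⟩
    · have := le_max_right u (g - η); linarith
    · have : max u (g - η) < g := max_lt hu (by linarith)
      linarith
    · have := le_max_left u (g - η); linarith
    · have : max u (g - η) < g := max_lt hu (by linarith)
      linarith
  · obtain ⟨n, hn⟩ := pow_small 2 (g - u) (by linarith)
    obtain ⟨F, hF, hS⟩ := P_all h n
    obtain ⟨ρ, hρ, hρ'⟩ : ∃ ρ > 0, ∀ f ∈ F, g < f → g + ρ ≤ f := by
      by_cases hne : {f ∈ F | g < f}.Nonempty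
      · obtain ⟨f0, hf0, hmin⟩ := Set.exists_min_image _ id (hF.sep (fun f => g < f)) hne
        exact ⟨f0 - g, by linarith [hf0.2], fun f hf hgf => by
          have : f0 ≤ f := hmin f ⟨hf, hgf⟩
          linarith⟩
      · exact ⟨1, one_pos, fun f hf hgf => absurd ⟨f, hf, hgf⟩ hne⟩
    obtain ⟨m, hm⟩ := pow_small (8/25) (min ρ η) (lt_min hρ hη)
    have hp : (0:ℝ) < (8/25) / 6 ^ m := by positivity
    have hle := div_pow_le ((8/25) / 6 ^ m) hp.le 6 (by norm_num) n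
    have hp2 : (0:ℝ) < (8/25) / 6 ^ m / 6 ^ n := by positivity
    have := min_le_left ρ η
    have := min_le_right ρ η
    refine ⟨g + (8/25) / 6 ^ m / 6 ^ n, by linarith, by linarith, ?_⟩
    intro hz
    obtain ⟨f, hf, e, he, hfe⟩ := (hS _).1 hz
    have heb := E0_bd he
    have h6 : (0:ℝ) < 6 ^ n := by positivity
    have e0 : 0 ≤ e / 6 ^ n := div_nonneg heb.1 h6.le
    have e1 : e / 6 ^ n ≤ 2 / 6 ^ n := div_le_div_of_nonneg_right (by linarith) h6.le
    rcases lt_trichotomy f g with hfg | hfg | hfg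
    · have hfS : f ∈ S := (hS f).2 ⟨f, hf, 0, zero_mem, by simp⟩
      exact hgap f (by linarith) hfg hfS
    · subst hfg
      have : (8/25) / 6 ^ m = e := by
        have := add_left_cancel hfe
        exact (div_left_inj' h6.ne').1 this
      exact gapz m (this ▸ he)
    · have := hρ' f hf hfg
      linarith

lemma left_end {S : Set ℝ} (hc : IsClosed S) (h : P S 0) {a : ℝ} (ha : a ∈ S)
    (hl : ∀ u, u < a → ¬ Set.Icc u a ⊆ S) (δ : ℝ) (hδ : 0 < δ) : ∃ g, Iso S g ∧ |a - g| < δ := by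
  obtain ⟨u, ⟨hu1, hu2⟩, hu⟩ := Set.not_subset.1 (hl (a - δ / 2) (by linarith))
  have hK : IsCompact (Set.Icc u a ∩ S) := isCompact_Icc.inter_right hc
  obtain ⟨g, ⟨⟨hg1, hg2⟩, hg⟩, hmin⟩ := hK.exists_isLeast ⟨a, ⟨hu2, le_rfl⟩, ha⟩
  have hug : u < g := lt_of_le_of_ne hg1 (by rintro rfl; exact hu hg)
  refine ⟨g, iso_of_gap h hg hug ?_, by rw [abs_lt]; constructor <;> linarith⟩
  intro z h1 h2 hz
  have : g ≤ z := hmin ⟨⟨h1.le, by linarith⟩, hz⟩
  linarith

lemma iso_neg {S : Set ℝ} {g : ℝ} (h : Iso {z | -z ∈ S} g) : Iso S (-g) := by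
  refine ⟨h.1, fun η hη => ?_⟩
  obtain ⟨⟨z, h1, h2, h3⟩, ⟨w, h4, h5, h6⟩⟩ := h.2 η hη
  exact ⟨⟨-w, by linarith, by linarith, h6⟩, ⟨-z, by linarith, by linarith, h3⟩⟩

lemma right_end {S : Set ℝ} (hc : IsClosed S) (h : P {z | -z ∈ S} 0) {a : ℝ} (ha : a ∈ S)
    (hl : ∀ u, a < u → ¬ Set.Icc a u ⊆ S) (δ : ℝ) (hδ : 0 < δ) : ∃ g, Iso S g ∧ |a - g| < δ := by
  obtain ⟨g, hg, hb⟩ := left_end (S := {z | -z ∈ S}) (hc.preimage continuous_neg) h (a := -a)
    (by simpa using ha) (fun u hu hs => hl (-u) (by linarith) (fun z hz => by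
      have : -z ∈ {z | -z ∈ S} := hs ⟨by linarith [hz.2], by linarith [hz.1]⟩
      simpa using this)) δ hδ
  refine ⟨-g, iso_neg hg, ?_⟩
  rw [abs_lt] at hb ⊢
  constructor <;> linarith

lemma iso_comp {S : Set ℝ} {g : ℝ} (h : Iso S g) : connectedComponentIn S g = {g} := by
  have hg : g ∈ connectedComponentIn S g := mem_connectedComponentIn h.1
  refine Set.eq_singleton_iff_unique_mem.2 ⟨hg, fun w hw => ?_⟩
  have ho := (isPreconnected_connectedComponentIn (F := S) (x := g)).ordConnected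
  rcases lt_trichotomy w g with hwg | hwg | hwg
  · obtain ⟨z, h1, h2, h3⟩ := (h.2 (g - w) (by linarith)).1
    exact absurd (connectedComponentIn_subset _ _ (ho.out hw hg ⟨by linarith, h2.le⟩)) h3
  · exact hwg
  · obtain ⟨z, h1, h2, h3⟩ := (h.2 (w - g) (by linarith)).2
    exact absurd (connectedComponentIn_subset _ _ (ho.out hg hw ⟨h1.le, by linarith⟩)) h3

lemma comp_compact {S : Set ℝ} (hc : IsCompact S) {p : ℝ} (hp : p ∈ S) :
    IsCompact (connectedComponentIn S p) := by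
  rw [connectedComponentIn_eq_image hp]
  have : CompactSpace S := isCompact_iff_compactSpace.1 hc
  exact isClosed_connectedComponent.isCompact.image continuous_subtype_val

noncomputable def x0 : ℕ → ℝ
  | 0 => 2/35
  | n + 1 => y n

lemma x0_summable : Summable x0 := (summable_nat_add_iff 1).1 y_summable

lemma E1_iff (z : ℝ) : z ∈ Ach x0 ↔ z ∈ E0 ∨ z - 2/35 ∈ E0 := ach_step x0 x0_summable z

lemma P1 : P (Ach x0) 0 := by
  refine ⟨{0, 2/35}, Set.toFinite _, fun z => ?_⟩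
  rw [E1_iff]
  constructor
  · rintro (h | h)
    · exact ⟨0, by simp, z, h, by simp⟩
    · exact ⟨2/35, by simp, _, h, by simp⟩
  · rintro ⟨f, (rfl | rfl), e, he, rfl⟩
    · left; simpa using he
    · right; simpa using he

lemma P2 : P {z | -z ∈ Ach x0} 0 := by
  refine ⟨{-9/5, -9/5 - 2/35}, Set.toFinite _, fun z => ?_⟩
  show -z ∈ Ach x0 ↔ _
  rw [E1_iff]
  constructor
  · rintro (h | h)
    · exact ⟨-9/5, by simp, _, symm_mem h, by ring⟩
    · exact ⟨-9/5 - 2/35, by simp, _, symm_mem h, by ring⟩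
  · rintro ⟨f, (rfl | rfl), e, he, rfl⟩
    · left; convert symm_mem he using 1; ring
    · right; convert symm_mem he using 1; ring

lemma small36 (c δ : ℝ) (hc : 0 ≤ c) (hδ : 0 < δ) : ∃ n : ℕ, c / 36 ^ (n+1) < δ := by
  obtain ⟨n, hn⟩ := pow_small c δ hδ
  refine ⟨n, lt_of_le_of_lt ?_ hn⟩
  apply div_le_div_of_nonneg_left hc (by positivity)
  calc (6:ℝ) ^ n ≤ 36 ^ n := pow_le_pow_left₀ (by norm_num) (by norm_num) n
    _ ≤ 36 ^ (n+1) := pow_le_pow_right₀ (by norm_num) (by omega)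

lemma nota (i : ℕ) : (1/90 : ℝ) - (13/140) / 36 ^ (i+1) ∉ Ach x0 := by
  rw [E1_iff]
  have hp : (0:ℝ) < (13/140) / 36 ^ (i+1) := by positivity
  rintro (h | h)
  · have h1 := gapb (13/140) (by norm_num) (by norm_num) (2 * i)
    have hq : (0:ℝ) < (13/140) / 6 ^ (2 * i) := by positivity
    apply not_div (not_div h1 (by linarith)) (by linarith)
    convert h using 1
    rw [pow_mul, pow_succ (36:ℝ), ← div_div]; norm_num; ring
  · have := E0_bd h
    linarith

lemma notb (i : ℕ) : (2/5 : ℝ) - (1/70) / 36 ^ (i+1) ∉ Ach x0 := by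
  rw [E1_iff]
  rintro (h | h)
  · apply gapb (6/70) (by norm_num) (by norm_num) (2 * (i+1) + 1)
    convert h using 1
    rw [pow_succ (6:ℝ), pow_mul]; norm_num; field_simp; ring
  · apply gapc (i+1)
    convert h using 1; ring

theorem result :
    ¬ (∀ x : ℕ → ℝ, (∀ n, 0 < x n) → Summable x →
    ∀ E : Set ℝ, E = {s | ∃ A : Set ℕ, s = ∑' n, A.indicator x n} →
    (E.Nonempty ∧ IsCompact E ∧ closure (interior E) = E ∧
      ∀ p ∈ E, (connectedComponentIn E p).Nontrivial →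
        sInf (connectedComponentIn E p) ∈ closure {y ∈ E | connectedComponentIn E y = {y}} ∧
        sSup (connectedComponentIn E p) ∈ closure {y ∈ E | connectedComponentIn E y = {y}}) →
    ∀ a b : ℝ, a ≠ b →
      (∃ c, a < c ∧ Set.Icc a c ⊆ E) → (∀ y, y < a → ¬ Set.Icc y a ⊆ E) →
      (∃ c, b < c ∧ Set.Icc b c ⊆ E) → (∀ y, y < b → ¬ Set.Icc y b ⊆ E) →
      ∃ ε : ℝ, ε > 0 ∧ ∃ t : ℝ,
        E ∩ Set.Icc (a - ε) a = (fun z => z + t) '' (E ∩ Set.Icc (b - ε) b)) := by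
  intro H
  have hK : IsCompact (Ach x0) := ach_compact x0 x0_summable
  have hsub : E0 ⊆ Ach x0 := fun z hz => (E1_iff z).2 (Or.inl hz)
  have ha : Set.Icc (1/90 : ℝ) (1/30) ⊆ Ach x0 := by
    rintro z ⟨h1, h2⟩
    apply hsub
    refine (E0_iff _).2 ⟨0, by simp [D], (E0_iff _).2 ⟨0, by simp [D], Icc_sub ⟨?_, ?_⟩⟩⟩ <;>
      linarith
  have hb : Set.Icc (2/5 : ℝ) (7/5) ⊆ Ach x0 := Icc_sub.trans hsub
  refine absurd (H x0 (fun n => by
      cases n with
      | zero => norm_num [x0]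
      | succ n => exact y_pos n) x0_summable (Ach x0) rfl
    ⟨⟨0, hsub zero_mem⟩, hK, ?_, ?_⟩ (1/90) (2/5) (by norm_num) ⟨1/30, by norm_num, ha⟩ ?_
    ⟨7/5, by norm_num, hb⟩ ?_) ?_
  rotate_left 4
  · rintro ⟨ε, hε, t, ht⟩
    have h1 : (1/90 : ℝ) ∈ Ach x0 ∩ Set.Icc (1/90 - ε) (1/90) :=
      ⟨ha ⟨le_rfl, by norm_num⟩, by linarith, le_rfl⟩
    rw [ht] at h1
    obtain ⟨z, ⟨-, -, hz⟩, hz'⟩ := h1
    have h2 : (2/5 + t : ℝ) ∈ Ach x0 ∩ Set.Icc (1/90 - ε) (1/90) := by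
      rw [ht]
      exact ⟨2/5, ⟨hb ⟨le_rfl, by norm_num⟩, by linarith, le_rfl⟩, rfl⟩
    have h3 := h2.2.2
    simp only at hz'
    obtain ⟨i, hi⟩ := small36 (13/140) ε (by norm_num) hε
    have hp : (0:ℝ) < (13/140) / 36 ^ (i+1) := by positivity
    have h4 : (2/5 - (13/140) / 36 ^ (i+1) + t : ℝ) ∈ Ach x0 ∩ Set.Icc (1/90 - ε) (1/90) := by
      rw [ht]
      refine ⟨2/5 - (13/140) / 36 ^ (i+1), ⟨(E1_iff _).2 (Or.inr ?_), by linarith, by linarith⟩, rfl⟩
      convert ptc (i+1) using 1; ring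
    apply nota i
    convert h4.1 using 1
    linarith
  · apply Set.Subset.antisymm (closure_minimal interior_subset hK.isClosed)
    intro z hz
    rw [Metric.mem_closure_iff]
    intro δ hδ
    obtain ⟨n, hn⟩ := pow_small 1 δ hδ
    obtain ⟨F, -, hS⟩ := P_all P1 n
    obtain ⟨f, hf, e, he, rfl⟩ := (hS z).1 hz
    have h6 : (0:ℝ) < 6 ^ n := by positivity
    refine ⟨f + 1 / 6 ^ n, ?_, ?_⟩
    · rw [mem_interior]
      refine ⟨Set.Ioo (f + (2/5) / 6 ^ n) (f + (7/5) / 6 ^ n), ?_, isOpen_Ioo, ?_, ?_⟩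
      · rintro w ⟨h1, h2⟩
        refine (hS w).2 ⟨f, hf, (w - f) * 6 ^ n, Icc_sub ⟨?_, ?_⟩, by field_simp; ring⟩
        · rw [← div_le_iff₀ h6]; linarith
        · rw [← le_div_iff₀ h6]; linarith
      · have : (2/5 : ℝ) / 6 ^ n < 1 / 6 ^ n := div_lt_div_of_pos_right (by norm_num) h6
        linarith
      · have : (1 : ℝ) / 6 ^ n < (7/5) / 6 ^ n := div_lt_div_of_pos_right (by norm_num) h6
        linarith
    · have heb := E0_bd he
      rw [Real.dist_eq, show f + e / 6 ^ n - (f + 1 / 6 ^ n) = (e - 1) / 6 ^ n by ring, abs_div,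
        abs_of_pos h6]
      refine lt_of_le_of_lt (div_le_div_of_nonneg_right ?_ h6.le) hn
      rw [abs_le]; constructor <;> linarith
  · intro p hp _
    have hC := comp_compact hK hp
    have hne : (connectedComponentIn (Ach x0) p).Nonempty := ⟨p, mem_connectedComponentIn hp⟩
    constructor
    · have hm := hC.sInf_mem hne
      rw [Metric.mem_closure_iff]
      intro δ hδ
      obtain ⟨g, hg, hb⟩ := left_end hK.isClosed P1 (connectedComponentIn_subset _ _ hm) (by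
        intro u hu hs
        have h1 := isPreconnected_Icc.subset_connectedComponentIn ⟨hu.le, le_rfl⟩ hs ⟨le_rfl, hu.le⟩
        rw [← connectedComponentIn_eq hm] at h1
        have := csInf_le hC.bddBelow h1
        linarith) δ hδ
      exact ⟨g, ⟨hg.1, iso_comp hg⟩, hb⟩
    · have hm := hC.sSup_mem hne
      rw [Metric.mem_closure_iff]
      intro δ hδ
      obtain ⟨g, hg, hb⟩ := right_end hK.isClosed P2 (connectedComponentIn_subset _ _ hm) (by
        intro u hu hs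
        have h1 := isPreconnected_Icc.subset_connectedComponentIn ⟨le_rfl, hu.le⟩ hs ⟨hu.le, le_rfl⟩
        rw [← connectedComponentIn_eq hm] at h1
        have := le_csSup hC.bddAbove h1
        linarith) δ hδ
      exact ⟨g, ⟨hg.1, iso_comp hg⟩, hb⟩
  · intro u hu hs
    obtain ⟨i, hi⟩ := small36 (13/140) (1/90 - u) (by norm_num) (by linarith)
    have hp : (0:ℝ) < (13/140) / 36 ^ (i+1) := by positivity
    exact nota i (hs ⟨by linarith, by linarith⟩)
  · intro u hu hs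
    obtain ⟨i, hi⟩ := small36 (1/70) (2/5 - u) (by norm_num) (by linarith)
    have hp : (0:ℝ) < (1/70) / 36 ^ (i+1) := by positivity
    exact notb i (hs ⟨by linarith, by linarith⟩)

end Pool.Agent.S03926
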