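import Pool.Statements.S03935
import Pool.Agent.H.MP_17a4eb_an.A

set_option autoImplicit false
open Pool Pool.MP_17a4eb_an

namespace Pool.Agent.S03935

theorem result :
    ∀ (A : Type) [NormedRing A] [NormedAlgebra ℂ A] [CompleteSpace A] (a : A),
      (∃ b : A, b * a = 1) →
      (∀ z : ℂ, ‖z‖ < 1 → ∃ b : A, b * (a - algebraMap ℂ A z) = 1) →
      (∀ α : ℝ, 1 < α → ∃ z : ℂ, ‖z‖ < α ∧ ∀ b : A, b * (a - algebraMap ℂ A z) ≠ 1) →
      ∀ K : Set ℂ, IsCompact K → K ⊆ Metric.ball (0 : ℂ) 1 →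
        ∃ U : Set ℂ, IsOpen U ∧ K ⊆ U ∧
          ∃ g : ℂ → A, DifferentiableOn ℂ g U ∧
            (∀ z ∈ K, g z * (a - algebraMap ℂ A z) = 1) ∧
            (∀ z ∈ K, ∀ w ∈ K, g z - g w = (z - w) • (g z * g w)) := by
  intro A _ _ _ a _ h _ K hK sub
  obtain ⟨r, r1, hr⟩ := exists_lt_subset_ball hK.isClosed sub
  obtain ⟨G, h1, h2⟩ := H.MP_17a4eb_an.disc h (le_max_right r 0) (max_lt r1 one_pos)
  have s : Metric.ball (0 : ℂ) r ⊆ Metric.closedBall 0 (max r 0) :=
    Metric.ball_subset_closedBall.trans (Metric.closedBall_subset_closedBall (le_max_left _ _))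
  classical
  let g : ℂ → A := fun z => if hz : z ∈ Metric.closedBall 0 (max r 0) then G ⟨z, hz⟩ else 0
  have e (z) (hz : z ∈ Metric.ball (0 : ℂ) r) : g z = G ⟨z, s hz⟩ := dif_pos (s hz)
  have k (z) (hz : z ∈ Metric.ball (0 : ℂ) r) (w) (hw : w ∈ Metric.ball (0 : ℂ) r) :
      g z - g w = (z - w) • (g z * g w) := by rw [e z hz, e w hw, h2]
  refine ⟨_, Metric.isOpen_ball, hr, g, fun z hz => ?_, fun z hz => by rw [e z (hr hz), h1],
    fun z hz w hw => k z (hr hz) w (hr hw)⟩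
  have c : ContinuousOn g (Metric.closedBall 0 (max r 0)) := continuousOn_iff_continuous_domRestrict.2
    (G.continuous.congr fun z => (show g z = G z from dif_pos z.2).symm)
  refine (hasDerivWithinAt_iff_tendsto_slope.2 ((((c.mono s z hz).mono Set.sdiff_subset).mul_const
    (g z)).congr' (eventually_mem_nhdsWithin.mono fun w hw => ?_))).differentiableWithinAt
  rw [slope_def_module, k w hw.1 z hz, inv_smul_smul₀ (sub_ne_zero.2 hw.2)]

end Pool.Agent.S03935
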