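import Pool.Statements.S03944
import Pool.Agent.H.MP_f44585_an.D

set_option autoImplicit false
open Pool Pool.MP_18663b_an

namespace Pool.Agent.S03944

theorem result :
    ¬ (∀ r : ℕ, 2 ≤ r →
    ∀ D : ℝ → Prop,
      (∀ y : ℝ, D y ↔
        ∀ ε : ℝ, 0 < ε → ∃ K : ℕ, ∃ N₀ : ℕ, ∀ N : ℕ, N₀ ≤ N →
          ∃ k : ℕ, 1 ≤ k ∧ k ≤ K ∧
            (∑ w : Fin k → Fin r,
                Real.negMulLog
                  ((((Finset.range N).filter (fun n : ℕ =>
                      ∀ i : Fin k,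
                        ⌊(r : ℝ) ^ (n + i.val + 1) * y⌋ % (r : ℤ) = ((w i : ℕ) : ℤ))).card : ℝ)
                    / (N : ℝ))) / (k : ℝ) < ε) →
      ∀ x : ℝ, x ≠ 0 → D x → D x⁻¹) := by
  have key (r : ℕ) (hr : 2 ≤ r) := H.MP_f44585_an.main hr (F := fun y => (1 + y)⁻¹)
    (F' := fun y => -((1 + y) ^ 2)⁻¹) (fun y hy => by
      have := (hasStrictDerivAt_inv (x := 1 + y) (by positivity)).comp y
        ((hasStrictDerivAt_id y).const_add 1)
      rw [mul_one] at this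
      exact this)
    ((Set.countable_range fun q : ℚ => √(-q : ℝ)⁻¹ - 1).mono fun y ⟨hy, h⟩ => by
      obtain ⟨q, hq⟩ := not_not.1 h
      exact ⟨q, by simp [hq, Real.sqrt_sq (show 0 ≤ 1 + y by positivity)]⟩)
  intro G
  obtain ⟨d, h1, h2⟩ := key 2 le_rfl
  have y0 : 0 ≤ H.MP_f44585_an.val 2 d := tsum_nonneg fun n => by positivity
  have h := G 2 le_rfl _ (fun _ => Iff.rfl) (1 + H.MP_f44585_an.val 2 d) (by positivity)
  simp only [mul_comm (((2 : ℕ) : ℝ) ^ _)] at h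
  obtain ⟨K, N, hN⟩ := h (fun ε hε => by
    obtain ⟨N, hN⟩ := Filter.eventually_atTop.1 ((H.MP_f44585_an.det le_rfl 1 h1).eventually
      (gt_mem_nhds hε))
    exact ⟨1, N, fun n hn => ⟨1, le_rfl, le_rfl, by simpa using hN n hn⟩⟩) (1 / 2) one_half_pos
  obtain ⟨n, hn, h⟩ := ((Filter.eventually_ge_atTop N).and
    ((Filter.eventually_all_finset (Finset.Icc 1 K)).2 fun k hk =>
      (H.MP_f44585_an.ent le_rfl h2 k).eventually (lt_mem_nhds (a := 1 / 2 * (k : ℝ)) (by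
        have k0 : (1 : ℝ) ≤ k := by exact_mod_cast (Finset.mem_Icc.1 hk).1
        norm_num
        nlinarith [Real.log_two_gt_d9])))).exists
  obtain ⟨k, k1, k2, h3⟩ := hN n hn
  rw [div_lt_iff₀ (by positivity)] at h3
  exact h3.not_gt (h k (Finset.mem_Icc.2 ⟨k1, k2⟩))

end Pool.Agent.S03944
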