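import Pool.Statements.S03954
-- import your own Pool.Agent.* helpers here
import Pool.Agent.H.MP_196b75_an.A

set_option autoImplicit false
open Pool Pool.MP_196b75_an

namespace Pool.Agent.S03954

open Pool.Agent.H.MP_196b75_an Pool.Agent.H.MP_70d5b9_an Complex in
theorem result :
    ¬ (∀ g : ℂ → ℂ, DifferentiableOn ℂ g (Metric.ball (0 : ℂ) 1) → g 0 = 0 → deriv g 0 = 1 →
      (∀ z : ℂ, z ∈ Metric.ball (0 : ℂ) 1 → z ≠ 0 →
        ‖(deriv g z - 1) - (g z - z) / z‖ + ‖(deriv g z - 1) + (g z - z) / z‖ < 2) →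
      ∀ h : ℂ → ℂ, DifferentiableOn ℂ h (Metric.ball (0 : ℂ) 1) → h 0 = 0 → deriv h 0 = 1 →
        Set.InjOn h (Metric.ball (0 : ℂ) 1) →
        ∀ z : ℂ, 0 < ‖z‖ → ‖z‖ < 1 →
          (∑' n : ℕ, (iteratedDeriv n g 0 / (n.factorial : ℂ)) *
              (iteratedDeriv n h 0 / (n.factorial : ℂ)) * z ^ n) ≠ 0) := by
  intro h
  obtain ⟨c, hc⟩ : ∃ c : ℂ, c = 5000 / 2501 - 100 / 2501 * I := ⟨_, rfl⟩
  obtain ⟨u, hu⟩ : ∃ u : ℂ, u = -(99999 / 100000) * I := ⟨_, rfl⟩
  obtain ⟨L, hL⟩ : ∃ L : ℂ, L = 2 * -c * u + 3 * (c * (c + 1) / 2) * u ^ 2 +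
    c * (c + 1) * (c + 2) / 6 * u ^ 3 := ⟨_, rfl⟩
  have u1 : ‖u‖ = 99999 / 100000 := by simp [hu]
  have L1 : 12.045 < ‖L‖ := by
    refine (sq_lt_sq₀ (by norm_num) (norm_nonneg _)).mp ?_
    rw [Complex.sq_norm, normSq_apply, hL, hc, hu]
    simp [pow_succ]
    norm_num
  have L0 : L ≠ 0 := norm_pos_iff.mp (by linarith)
  have d : ∀ z : ℂ, HasDerivAt (fun z : ℂ => z - (2 * z ^ 2 + 3 * z ^ 3 - z ^ 4) / L)
      (1 - (4 * z + 9 * z ^ 2 - 4 * z ^ 3) / L) z := fun z =>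
    ((hasDerivAt_id' z).fun_sub ((((hasDerivAt_pow 2 z).const_mul 2).fun_add
      ((hasDerivAt_pow 3 z).const_mul 3)).fun_sub (hasDerivAt_pow 4 z) |>.div_const L)).congr_deriv
      (by simp; ring)
  have c0 := Real.cos_arctan_pos (-1 / 50)
  have e : sp (Real.arctan (-1 / 50)) = fun z => z * EE c 0 z := by
    ext z
    rw [sp, cc, EE, hc, Nat.cast_zero, add_zero]
  have m0 : (0 : ℂ) ∈ Metric.ball (0 : ℂ) 1 := Metric.mem_ball_self one_pos
  refine h _ (fun z _ => (d z).differentiableAt.differentiableWithinAt) (by simp)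
    (by simpa using (d 0).deriv) (fun z hz z0 => ?_) _ (fun z hz =>
      (sp_der _ (ball_KK hz)).differentiableAt.differentiableWithinAt) (by simp [sp])
    (by simpa using (sp_der _ (ball_KK m0)).deriv) (sp_inj c0) u (by linarith) (by linarith) ?_
  · rw [(d z).deriv, show 1 - (4 * z + 9 * z ^ 2 - 4 * z ^ 3) / L - 1 - (z - (2 * z ^ 2 + 3 * z ^ 3
      - z ^ 4) / L - z) / z = -z * (2 + 6 * z - 3 * z ^ 2) / L by field_simp; ring,
      show 1 - (4 * z + 9 * z ^ 2 - 4 * z ^ 3) / L - 1 + (z - (2 * z ^ 2 + 3 * z ^ 3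
      - z ^ 4) / L - z) / z = -z * (6 + 12 * z - 5 * z ^ 2) / L by field_simp; ring,
      norm_div, norm_div, ← add_div, div_lt_iff₀ (by linarith), norm_mul, norm_mul, ← mul_add,
      norm_neg]
    nlinarith [bound hz, mem_ball_zero_iff.mp hz, norm_nonneg z]
  have g : ∀ n : ℕ, iteratedDeriv n (fun z : ℂ => z - (2 * z ^ 2 + 3 * z ^ 3 - z ^ 4) / L) 0 =
      (if n = 1 then 1 else 0) - ((if n = 2 then 4 else 0) + (if n = 3 then 18 else 0) -
        (if n = 4 then 24 else 0)) / L := fun n => by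
    simp (disch := fun_prop) only [iteratedDeriv_fun_add, iteratedDeriv_fun_sub,
      iteratedDeriv_div_const, iteratedDeriv_const_mul_field, iteratedDeriv_fun_pow_zero,
      iteratedDeriv_fun_id_zero]
    norm_num [Nat.factorial]
  have k : ∀ n : ℕ, iteratedDeriv (n + 1) (fun z => z * EE c 0 z) 0 =
      (n + 1) * ∏ j ∈ Finset.range n, -(c + j) := fun n => by
    rw [iter c n 0 m0]
    simp [EE]
  rw [tsum_eq_sum (s := Finset.range 5) fun n hn => by
    have : 5 ≤ n := by simpa using hn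
    rw [g, if_neg (by omega), if_neg (by omega), if_neg (by omega), if_neg (by omega)]
    simp]
  simp only [Finset.sum_range_succ, Finset.range_zero, Finset.sum_empty, g, e, k 0, k 1, k 2, k 3,
    Finset.prod_range_succ, Finset.prod_empty, Nat.factorial]
  norm_num
  field_simp
  linear_combination (1728 * u) * hL

end Pool.Agent.S03954
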