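import Pool.Statements.S03969
import Pool.Agent.H.MP_1ac4dc_an.B

set_option autoImplicit false
open Pool Pool.MP_1ac4dc_an

namespace Pool.Agent.S03969

theorem result :
    ∀ m : ℕ, 2 ≤ m → ∀ z : ℂ,
      (∑' k : ℕ, ((Nat.factorial (m * k) : ℂ) /
          ((Nat.factorial ((m + 1) * k) : ℂ) * (Nat.factorial k : ℂ))) * z ^ k) = 0 →
      z.im = 0 := by
  intro m hm z h
  exact Pool.Agent.H.MP_1ac4dc_an.real_zeros m (by omega) z h

end Pool.Agent.S03969
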