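import Pool.Statements.S03971
import Pool.Agent.H.MP_1b39b5.D

set_option autoImplicit false
open Pool Pool.MP_1b39b5_an

namespace Pool.Agent.S03971

/-- For real Banach spaces X, Y: if X embeds isomorphically into a weakly compactly generated Banach space and X, Y are homeomorphic in their weak topologies, then Y also embeds isomorphically into a weakly compactly generated Banach space. -/
theorem result :
    ∀ (X Y : Type) [NormedAddCommGroup X] [NormedSpace ℝ X] [CompleteSpace X]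
      [NormedAddCommGroup Y] [NormedSpace ℝ Y] [CompleteSpace Y],
      (∃ (Z : Type) (_ : NormedAddCommGroup Z) (_ : NormedSpace ℝ Z) (_ : CompleteSpace Z),
        (∃ K : Set Z, IsCompact (toWeakSpace ℝ Z '' K) ∧
          Dense (Submodule.span ℝ K : Set Z)) ∧
        ∃ T : X →L[ℝ] Z, ∃ c : ℝ, 0 < c ∧ ∀ x : X, c * ‖x‖ ≤ ‖T x‖) →
      Nonempty (WeakSpace ℝ X ≃ₜ WeakSpace ℝ Y) →
      (∃ (Z : Type) (_ : NormedAddCommGroup Z) (_ : NormedSpace ℝ Z) (_ : CompleteSpace Z),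
        (∃ K : Set Z, IsCompact (toWeakSpace ℝ Z '' K) ∧
          Dense (Submodule.span ℝ K : Set Z)) ∧
        ∃ T : Y →L[ℝ] Z, ∃ c : ℝ, 0 < c ∧ ∀ y : Y, c * ‖y‖ ≤ ‖T y‖) := by
  intro X Y _ _ _ _ _ _ ⟨Z, _, _, _, ⟨K, k1, k2⟩, T, c, c0, hT⟩ ⟨e⟩
  exact Pool.Agent.H.MP_1b39b5.main k1 k2 T c0 hT e

end Pool.Agent.S03971
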