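import Pool.Statements.S03988
import Pool.Agent.H.MP_1c6fe5_an.A

set_option autoImplicit false
open Pool Pool.MP_1c6fe5_an

namespace Pool.Agent.S03988

open Pool.Agent.H.MP_1c6fe5_an in
theorem result :
    ¬ (∀ (S : Type) [Semigroup S] (W : (S → ℝ) → Prop),
      (∀ f : S → ℝ, W f ↔
        ∃ F : lp (fun _ : S => ℝ) ⊤, (∀ t, F t = f t) ∧
          IsCompact (closure (toWeakSpace ℝ (lp (fun _ : S => ℝ) ⊤) ''
            {G : lp (fun _ : S => ℝ) ⊤ | ∃ s : S, ∀ t : S, G t = f (s * t)}))) →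
      (∃ m : (S → ℝ) → ℝ,
        (∀ f g : S → ℝ, W f → W g → m (f + g) = m f + m g) ∧
        (∀ (c : ℝ) (f : S → ℝ), W f → m (c • f) = c * m f) ∧
        (∀ f : S → ℝ, W f → (∀ t, 0 ≤ f t) → 0 ≤ m f) ∧
        m (fun _ => 1) = 1 ∧
        (∀ (s : S) (f : S → ℝ), W f → m (fun t => f (s * t)) = m f)) →
      ∀ (X : Type) [NormedAddCommGroup X] [NormedSpace ℝ X] [CompleteSpace X]
        (C : Set (StrongDual ℝ X)) (T : S → StrongDual ℝ X → StrongDual ℝ X),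
        C.Nonempty → Convex ℝ C → TopologicalSpace.IsSeparable C →
        IsCompact (StrongDual.toWeakDual '' C) →
        (∀ s, Set.MapsTo (T s) C C) →
        (∀ s t : S, ∀ φ ∈ C, T (s * t) φ = T s (T t φ)) →
        (∀ s : S, ∀ φ ∈ C, ∀ ψ ∈ C, ‖T s φ - T s ψ‖ ≤ ‖φ - ψ‖) →
        (∀ s : S, ContinuousOn
          (fun ω => StrongDual.toWeakDual (T s (StrongDual.toWeakDual.symm ω)))
          (StrongDual.toWeakDual '' C)) →
        ∃ φ ∈ C, ∀ s : S, T s φ = φ) := by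
  intro h
  obtain ⟨φ, hφ, hT⟩ := h S _ (fun f => Iff.rfl)
    ⟨fun f => f (c OnePoint.infty), fun _ _ _ _ => rfl, fun _ _ _ => rfl, fun _ _ h => h _, rfl,
      fun s f ⟨F, hF, hK⟩ => const_of_wap f F hF hK (s.m OnePoint.infty) OnePoint.infty⟩
    C(K, ℝ) {φ | ‖φ‖ ≤ 1 ∧ φ 1 = 1} T ⟨δ OnePoint.infty, δ_norm _, rfl⟩ (states _).1
    (sep_gen (fun n => δ n) (δ OnePoint.infty) (fun n => δ_norm n) (δ_norm _) e 1 summ expand _)
    (states _).2 (fun s φ hφ => ⟨(T_norm s φ).trans hφ.1, hφ.2⟩) (fun _ _ _ _ => rfl)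
    (fun s φ _ ψ _ => T_norm s (φ - ψ))
    (fun s => (WeakDual.continuous_of_continuous_eval fun g =>
      WeakDual.eval_continuous (g.comp s.m)).continuousOn)
  have key : ∀ n : ℕ, φ (e 0) = e 0 n := by
    intro n
    have h1 : φ ((e 0).comp (c n).m) = φ (e 0) := congrArg (fun ψ => ψ (e 0)) (hT (c n))
    have h2 : (e 0).comp (c n).m = e 0 n • (1 : C(K, ℝ)) := by
      ext x
      simp [c, S.m]
    rw [← h1, h2, map_smul, hφ.2, smul_eq_mul, mul_one]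
  have h3 : e 0 (0 : ℕ) = e 0 (1 : ℕ) := (key 0).symm.trans (key 1)
  have h4 : (1 : ℝ) = 0 := h3
  exact one_ne_zero h4

end Pool.Agent.S03988
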