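import Pool.Statements.S03996
import Pool.Agent.H.MP_1dc5fb_an.L

set_option autoImplicit false
open MeasureTheory
open Pool Pool.MP_1dc5fb_an

namespace Pool.Agent.S03996

/-- The negation of the preceding statement: For every d≥2, positive reaction f, α>0 and Lipschitz epigraph Ω, any two weak solutions of −Δu=f(u) in Ω, u+α∂_νu=0 on ∂Ω, with 0<u≤1 (continuous up to the boundary, locally H¹), coincide on Ω. -/
theorem result :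
    ¬ (∀ (n : ℕ), 1 ≤ n →
    ∀ f : ℝ → ℝ, ContDiff ℝ 1 f →
    (∃ C γ : NNReal, 0 < γ ∧ γ < 1 ∧ HolderOnWith C γ (deriv f) (Set.Icc (0:ℝ) 1)) →
    f 0 = 0 → f 1 = 0 → (∀ s ∈ Set.Ioo (0:ℝ) 1, 0 < f s) →
    0 < deriv f 0 → deriv f 1 < 0 →
    ∀ α : ℝ, 0 < α →
    ∀ φ : (Fin n → ℝ) → ℝ, (∃ K : NNReal, LipschitzWith K φ) →
    ∀ Ω : Set (EuclideanSpace ℝ (Fin (n+1))),
    Ω = {x | φ (fun i => x (Fin.castSucc i)) < x (Fin.last n)} →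
    ∀ u v : EuclideanSpace ℝ (Fin (n+1)) → ℝ,
    (∀ w : EuclideanSpace ℝ (Fin (n+1)) → ℝ, (w = u ∨ w = v) →
      ContDiffOn ℝ 1 w Ω ∧ ContinuousOn w (closure Ω) ∧
      (∀ x ∈ Ω, 0 < w x ∧ w x ≤ 1) ∧
      (∀ R : ℝ, IntegrableOn (fun x => ‖gradient w x‖ ^ 2) (Ω ∩ Metric.ball 0 R)) ∧
      (∀ ψ : EuclideanSpace ℝ (Fin (n+1)) → ℝ, ContDiff ℝ 1 ψ → HasCompactSupport ψ →
        (∫ x in Ω, inner ℝ (gradient w x) (gradient ψ x))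
          + (1/α) * (∫ x in frontier Ω, w x * ψ x ∂(Measure.hausdorffMeasure (n:ℝ)))
          = ∫ x in Ω, f (w x) * ψ x)) →
    Set.EqOn u v Ω) := by
  intro h
  obtain ⟨G, β, l, β0, l0, hσ, U1, U2, h1, h2, h3⟩ := H.MP_1dc5fb_an.geo
  obtain ⟨f1, f2, f3, f4, f5, f6, f7⟩ := H.MP_1dc5fb_an.ff_p l0
  have := h 1 le_rfl _ f1 f2 f3 f4 f5 f6 f7 β⁻¹ (inv_pos.2 β0) (fun z => G.φ (z 0))
    ⟨_, (LipschitzWith.of_dist_le_mul (K := ⟨G.L, G.hL⟩) G.lip).comp (LipschitzWith.eval 0)⟩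
    (H.MP_1dc5fb_an.eq2 ⁻¹' G.Ω) rfl ((fun p => 1 - U1 p) ∘ H.MP_1dc5fb_an.eq2)
    ((fun p => 1 - U2 p) ∘ H.MP_1dc5fb_an.eq2) fun w hw => by
      rw [Nat.cast_one]
      rcases hw with hw | hw
      · exact H.MP_1dc5fb_an.conv β0 hσ h1 rfl hw
      · exact H.MP_1dc5fb_an.conv β0 hσ h2 rfl hw
  refine h3 fun p hp => ?_
  have := this (x := H.MP_1dc5fb_an.eq2.symm p) (by simpa using hp)
  simpa using this

end Pool.Agent.S03996
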