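import Pool.Statements.S03998
import Pool.Agent.H.MP_1dc7bd_an.D

set_option autoImplicit false
open Filter Topology
open scoped symmDiff
open Pool Pool.MP_1dc7bd_an

namespace Pool.Agent.S03998

theorem result :
    ¬ (∀ (X : Type) [TopologicalSpace X] [CompactSpace X] [TopologicalSpace.MetrizableSpace X]
      [TotallyDisconnectedSpace X] [MeasurableSpace X] [BorelSpace X],
      (∀ x : X, (𝓝[≠] x).NeBot) →
      ∀ (T : X ≃ₜ X) (μ : MeasureTheory.Measure X),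
        MeasureTheory.IsProbabilityMeasure μ →
        MeasureTheory.MeasurePreserving (⇑T) μ μ →
        (∀ x : X, Dense {y : X | ∃ n : ℕ, (⇑T)^[n] x = y ∨ (⇑T.symm)^[n] x = y}) →
        (∃ n : ℕ → ℕ, StrictMono n ∧ (∀ k, 0 < n k) ∧
          ∀ B : Set X, MeasurableSet B →
            Tendsto (fun k => μ (((⇑T)^[n k] ⁻¹' B) ∆ B)) atTop (𝓝 0)) →
        ∀ A : Set X, IsClopen A → μ A ≠ 0 →
          ∀ S : X → X,
            (∀ x ∈ A, ∃ r : ℕ, 0 < r ∧ S x = (⇑T)^[r] x ∧ (⇑T)^[r] x ∈ A ∧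
              ∀ j : ℕ, 0 < j → j < r → (⇑T)^[j] x ∉ A) →
            ∃ n : ℕ → ℕ, StrictMono n ∧ (∀ k, 0 < n k) ∧
              ∀ B : Set X, MeasurableSet B → B ⊆ A →
                Tendsto (fun k => μ ((A ∩ S^[n k] ⁻¹' B) ∆ B)) atTop (𝓝 0)) := by
  intro h
  obtain ⟨μ, h1, h2, h3, h4⟩ := H.MP_1dc7bd_an.all
  obtain ⟨e1, e2⟩ := h4 7 (by norm_num)
  have hs := H.MP_1dc7bd_an.co_sub (j := 7) (by norm_num)
  have hA : μ (H.MP_1dc7bd_an.co 0) ≠ 0 := fun h0 => by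
    have := MeasureTheory.measure_mono_null hs h0
    rw [MeasureTheory.Measure.real, this] at e1
    norm_num at e1
  obtain ⟨n, n1, -, n3⟩ := h (H.MP_1dc7bd_an.X H.MP_1dc7bd_an.z)
    (H.MP_1dc7bd_an.perfect _ H.MP_1dc7bd_an.hper H.MP_1dc7bd_an.hap) (H.MP_1dc7bd_an.T _) μ h1 h2
    (H.MP_1dc7bd_an.minimal _ H.MP_1dc7bd_an.hper)
    ⟨H.MP_1dc7bd_an.N, H.MP_1dc7bd_an.N_mono, H.MP_1dc7bd_an.N_pos, h3⟩ _
    (H.MP_1dc7bd_an.co_clopen 0) hA H.MP_1dc7bd_an.S (fun x _ => by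
      obtain ⟨r, a, -, b⟩ := H.MP_1dc7bd_an.S_ret x
      exact ⟨r, a, b⟩)
  have l1 := n3 _ (H.MP_1dc7bd_an.co_clopen 7).1.measurableSet hs
  rw [← ENNReal.tendsto_toReal_zero_iff] at l1
  obtain ⟨k, k1, k2⟩ := ((l1.eventually (gt_mem_nhds (by norm_num : (0 : ℝ) < 1 / 1000))).and
    (n1.tendsto_atTop.eventually (eventually_ge_atTop (H.MP_1dc7bd_an.P 7 ^ 2)))).exists
  have k3 := e2 _ k2
  have k4 : μ.real (H.MP_1dc7bd_an.co 7) ≤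
      μ.real (H.MP_1dc7bd_an.co 7 ∩ H.MP_1dc7bd_an.S^[n k] ⁻¹' H.MP_1dc7bd_an.co 7) +
      μ.real ((H.MP_1dc7bd_an.co 0 ∩ H.MP_1dc7bd_an.S^[n k] ⁻¹' H.MP_1dc7bd_an.co 7) ∆
        H.MP_1dc7bd_an.co 7) := by
    refine le_trans (MeasureTheory.measureReal_mono fun x hx => ?_)
      (MeasureTheory.measureReal_union_le _ _)
    by_cases hx2 : x ∈ H.MP_1dc7bd_an.S^[n k] ⁻¹' H.MP_1dc7bd_an.co 7
    · exact Or.inl ⟨hx, hx2⟩
    · exact Or.inr (Or.inr ⟨hx, fun h => hx2 h.2⟩)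
  have k5 : μ.real ((H.MP_1dc7bd_an.co 0 ∩ H.MP_1dc7bd_an.S^[n k] ⁻¹' H.MP_1dc7bd_an.co 7) ∆
        H.MP_1dc7bd_an.co 7) < 1 / 1000 := k1
  rw [e1] at k4
  norm_num at k3 k4 k5
  linarith

end Pool.Agent.S03998
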