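import Pool.Statements.S04003
import Pool.Agent.H.MP_2f7009_an.B

set_option autoImplicit false
open Pool Pool.MP_1e94b9_an Pool.Agent.H.MP_2f7009_an Set Metric

namespace Pool.Agent.S04003

theorem result :
    ∀ (X : Type) [NormedAddCommGroup X] [NormedSpace ℝ X] [CompleteSpace X]
      [TopologicalSpace.SeparableSpace X],
      (¬ ∃ T : (lp (fun _ : ℕ => ℝ) 1) →L[ℝ] X, ∃ c : ℝ, 0 < c ∧ ∀ a, c * ‖a‖ ≤ ‖T a‖) →
      closure (convexHull ℝ
        {f : X →L[ℝ] ℝ | f ∈ Metric.closedBall (0 : X →L[ℝ] ℝ) 1 ∧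
          ∃ x : X, ∀ g ∈ Metric.closedBall (0 : X →L[ℝ] ℝ) 1, g ≠ f → g x < f x})
        = Metric.closedBall (0 : X →L[ℝ] ℝ) 1 := by
  intro X _ _ _ _ hX
  refine (closure_minimal (convexHull_min (fun f hf => hf.1) (convex_closedBall _ _))
    isClosed_closedBall).antisymm fun f hf => by_contra fun hc => ?_
  obtain ⟨F, u, h1, h2⟩ := geometric_hahn_banach_closed_point (convex_convexHull ℝ _).closure
    isClosed_closure hc
  obtain ⟨b, b1, b2⟩ := exists_between h2
  obtain ⟨B, h3, h4⟩ := cover hX F b1 (E := {d | ∃ y, Sm y d}) fun d ⟨y, h⟩ => ⟨h.1, h1 d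
    (subset_closure (subset_convexHull ℝ _ ⟨mem_closedBall_zero_iff.2 h.1, y,
      fun g hg => h.exp g (mem_closedBall_zero_iff.1 hg)⟩))⟩
  exact b2.not_ge (closure_minimal (convexHull_min (iUnion_subset h4)
    (convex_halfSpace_le F.toLinearMap.isLinear b)) (isClosed_le F.continuous continuous_const)
    (ienv B (fun y d h => mem_iUnion.1 (h3 ⟨y, h⟩)) hf))

end Pool.Agent.S04003
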