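import Pool.Statements.S04011
import Pool.Agent.H.MP_1f345d_an.Chain

set_option autoImplicit false
open Filter Topology
open Pool Pool.MP_1f345d_an

namespace Pool.Agent.S04011

open Pool.Agent.H.MP_1f345d_an

abbrev E := Fin 2 → ZeroAtInftyContinuousMap ℕ ℂ

lemma cocp : cocompact ℕ = atTop := by rw [cocompact_eq_cofinite, Nat.cofinite_eq_atTop]

lemma tends (x : E) (i : Fin 2) : Tendsto (x i) atTop (𝓝 0) := by
  have := (x i).zero_at_infty'
  rwa [cocp] at this

lemma apply_le {x y : E} (i : Fin 2) (n : ℕ) : ‖y i n - x i n‖ ≤ dist y x := by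
  have h1 := dist_le_pi_dist y x i
  have h2 := BoundedContinuousFunction.dist_coe_le_dist (f := (y i).toBCF) (g := (x i).toBCF) n
  rw [ZeroAtInftyContinuousMap.dist_toBCF_eq_dist, dist_eq_norm] at h2
  exact h2.trans h1

lemma dist_le {x y : E} {r : ℝ} (hr : 0 ≤ r) (h : ∀ i n, ‖y i n - x i n‖ ≤ r) : dist y x ≤ r := by
  refine (dist_pi_le_iff hr).2 fun i => ?_
  rw [← ZeroAtInftyContinuousMap.dist_toBCF_eq_dist]
  refine (BoundedContinuousFunction.dist_le hr).2 fun n => ?_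
  rw [dist_eq_norm]
  exact h i n

def U (K : Set (Fin 2 → ℝ)) (u : Fin 2 → ℕ → ℂ) (η : ℝ) : Set E :=
  {x | ∃ M : ℕ, ∃ η' < η, ∀ l ∈ K, ∃ k ≤ M, ∀ i n,
    ‖((Real.exp ((k : ℝ) * l i) : ℝ) : ℂ) * x i (n + k) - u i n‖ ≤ η'}

lemma U_open {K : Set (Fin 2 → ℝ)} {Λ : ℝ} (hΛ : 0 ≤ Λ) (hK : ∀ l ∈ K, ∀ i, l i ≤ Λ)
    (u : Fin 2 → ℕ → ℂ) (η : ℝ) : IsOpen (U K u η) := by
  rw [Metric.isOpen_iff]
  rintro x ⟨M, η', hη, hx⟩
  have hp : 0 < Real.exp (M * Λ) := Real.exp_pos _
  refine ⟨(η - η') / (2 * Real.exp (M * Λ)), div_pos (by linarith) (by positivity),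
    fun y hy => ⟨M, (η + η') / 2, by linarith, fun l hl => ?_⟩⟩
  obtain ⟨k, hk, h⟩ := hx l hl
  refine ⟨k, hk, fun i n => ?_⟩
  have h1 := apply_le (x := x) (y := y) i (n + k)
  rw [Metric.mem_ball, lt_div_iff₀ (by positivity)] at hy
  have h2 : Real.exp (k * l i) ≤ Real.exp (M * Λ) := by
    refine Real.exp_le_exp.2 ?_
    have : (k : ℝ) ≤ M := by exact_mod_cast hk
    have h0 : (0 : ℝ) ≤ k := by positivity
    nlinarith [hK l hl i]
  have h3 : ((Real.exp ((k : ℝ) * l i) : ℝ) : ℂ) * y i (n + k) - u i n =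
      (((Real.exp ((k : ℝ) * l i) : ℝ) : ℂ) * x i (n + k) - u i n) +
        ((Real.exp ((k : ℝ) * l i) : ℝ) : ℂ) * (y i (n + k) - x i (n + k)) := by ring
  rw [h3]
  refine (norm_add_le _ _).trans ?_
  rw [norm_mul, Complex.norm_real, Real.norm_eq_abs, abs_of_pos (Real.exp_pos _)]
  have h4 : Real.exp (k * l i) * ‖y i (n + k) - x i (n + k)‖ ≤ Real.exp (M * Λ) * dist y x :=
    mul_le_mul h2 h1 (norm_nonneg _) hp.le
  linarith [h i n]

lemma exp_small {A δ y : ℝ} (hA : 0 ≤ A) (hδ : 0 < δ) (hy : y ≤ -(A / δ)) :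
    Real.exp y * A ≤ δ := by
  have h1 := Real.add_one_le_exp (-y)
  have h2 : Real.exp y * Real.exp (-y) = 1 := by rw [← Real.exp_add]; simp
  have h3 : A = A / δ * δ := by field_simp
  have h4 : A / δ ≤ Real.exp (-y) := by linarith
  have h5 := Real.exp_pos y
  calc Real.exp y * A = Real.exp y * (A / δ) * δ := by rw [mul_assoc, ← h3]
    _ ≤ Real.exp y * Real.exp (-y) * δ :=
        mul_le_mul_of_nonneg_right (mul_le_mul_of_nonneg_left h4 h5.le) hδ.le
    _ = δ := by rw [h2, one_mul]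

lemma U_dense {a h : ℝ} (ha : 0 < a) (hh : 0 ≤ h) (hha : h ≤ a / 20) {c : Fin 2 → ℝ}
    (hc : ∀ i, a ≤ c i) (u : Fin 2 → ℕ → ℂ) (N : ℕ) (hN : 0 < N)
    (hu : ∀ i n, N ≤ n → u i n = 0) {η : ℝ} (hη : 0 < η) : Dense (U (D c h) u η) := by
  classical
  rw [Metric.dense_iff]
  intro x0 ρ hρ
  obtain ⟨A, hA0, hA⟩ : ∃ A : ℝ, 0 ≤ A ∧ ∀ i n, ‖u i n‖ ≤ A := by
    refine ⟨∑ i, ∑ n ∈ Finset.range N, ‖u i n‖, by positivity, fun i n => ?_⟩
    rcases Nat.lt_or_ge n N with hn | hn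
    · refine le_trans ?_ (Finset.single_le_sum
        (f := fun i => ∑ n ∈ Finset.range N, ‖u i n‖) (fun _ _ => by positivity) (Finset.mem_univ i))
      exact Finset.single_le_sum (f := fun n => ‖u i n‖) (fun _ _ => norm_nonneg _)
        (Finset.mem_range.2 hn)
    · rw [hu i n hn, norm_zero]; positivity
  have hNr : (1 : ℝ) ≤ N := by exact_mod_cast hN
  set τ : ℝ := min 1 (η / (4 * (A + 1))) with hτ
  have hτ0 : 0 < τ := by positivity
  have hτ1 : τ ≤ 1 := min_le_left _ _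
  have hτ2 : τ * (4 * (A + 1)) ≤ η := by
    rw [← le_div_iff₀ (by positivity)]; exact min_le_right _ _
  set L : ℝ := 1 + A / (η / 2) with hL
  have hL0 : 0 < L := by positivity
  obtain ⟨T0, hT0⟩ : ∃ T0 : ℕ, (∀ i j, T0 ≤ j → ‖x0 i j‖ ≤ ρ / 3) ∧ A / (ρ / 3) ≤ a * T0 := by
    have h1 : ∀ i, ∀ᶠ j in atTop, ‖x0 i j‖ ≤ ρ / 3 := fun i =>
      (tends x0 i).norm.eventually_le_const (by simp; linarith)
    obtain ⟨T1, hT1⟩ := eventually_atTop.1 (eventually_all.2 h1)
    obtain ⟨T2, hT2⟩ := exists_nat_ge (A / (ρ / 3) / a)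
    refine ⟨max T1 T2, fun i j hj => hT1 j (le_trans (le_max_left _ _) hj) i, ?_⟩
    rw [div_le_iff₀ ha] at hT2
    have : (T2 : ℝ) ≤ (max T1 T2 : ℕ) := by exact_mod_cast le_max_right _ _
    nlinarith
  obtain ⟨t2, S, W, s1, s2, s3, s4⟩ := lemB (L := L / N) (τ := τ / N) ha (by positivity)
    (by positivity) hh hha hc T0
  obtain ⟨M, hM⟩ := exists_nat_ge t2
  have hSM : ∀ r ∈ S, T0 ≤ r ∧ r ≤ M := fun r hr =>
    ⟨by exact_mod_cast (s1 r hr).1, by exact_mod_cast (s1 r hr).2.trans hM⟩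
  let z : Fin 2 → ℕ → ℂ := fun i j => if j < N * T0 then x0 i j else
    if j / N ∈ S then ((Real.exp (-(N * W (j / N) i)) : ℝ) : ℂ) * u i (j % N) else 0
  have hz0 : ∀ i, Tendsto (z i) (cocompact ℕ) (𝓝 0) := by
    intro i
    rw [cocp]
    refine tendsto_const_nhds.congr' ?_
    filter_upwards [eventually_ge_atTop (N * T0), eventually_ge_atTop (N * (M + 1))] with j h1 h2
    have h3 : j / N ∉ S := fun hh => by
      have := (hSM _ hh).2
      have h4 : M + 1 ≤ j / N := (Nat.le_div_iff_mul_le hN).2 (by rw [mul_comm]; exact h2)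
      omega
    simp only [z, if_neg (not_lt.2 h1), if_neg h3]
  let x : E := fun i => ⟨⟨z i, continuous_of_discreteTopology⟩, hz0 i⟩
  have hx : ∀ i j, x i j = z i j := fun _ _ => rfl
  refine ⟨x, ?_, N * M, η / 2, by linarith, fun l hl => ?_⟩
  · rw [Metric.mem_ball]
    refine lt_of_le_of_lt (dist_le (r := 2 * (ρ / 3)) (by positivity) fun i j => ?_) (by linarith)
    rw [hx]
    by_cases h1 : j < N * T0
    · simp only [z, if_pos h1, sub_self, norm_zero]; positivity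
    · have h2 : T0 ≤ j := le_trans (Nat.le_mul_of_pos_left _ hN) (not_lt.1 h1)
      have h3 := hT0.1 i j h2
      refine (norm_sub_le _ _).trans ?_
      have : ‖z i j‖ ≤ ρ / 3 := by
        simp only [z, if_neg h1]
        split_ifs with h4
        · rw [norm_mul, Complex.norm_real, Real.norm_eq_abs, abs_of_pos (Real.exp_pos _)]
          refine (mul_le_mul_of_nonneg_left (hA _ _) (Real.exp_pos _).le).trans ?_
          refine exp_small hA0 (by positivity) ?_
          have e1 := (s2 _ h4 i).1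
          have e2 := (s1 _ h4).1
          have e3 : a * T0 ≤ c i * ((j / N : ℕ) : ℝ) :=
            mul_le_mul (hc i) e2 (by positivity) (by linarith [hc i])
          have e4 : 0 ≤ a * T0 := by positivity
          nlinarith [hT0.2]
        · rw [norm_zero]; positivity
      linarith
  · obtain ⟨r, hr, hl'⟩ := s4 l hl
    refine ⟨N * r, Nat.mul_le_mul_left _ (hSM r hr).2, fun i n => ?_⟩
    have h1 : ¬ n + N * r < N * T0 := by
      have := Nat.mul_le_mul_left N (hSM r hr).1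
      omega
    have h2 : (n + N * r) / N = n / N + r := Nat.add_mul_div_left _ _ hN
    have h3 : (n + N * r) % N = n % N := Nat.add_mul_mod_self_left _ _ _
    have hτ' : |((N * r : ℕ) : ℝ) * l i - N * W r i| ≤ τ := by
      have e1 := hl' i
      rw [le_div_iff₀ (by positivity)] at e1
      have e2 : ((N * r : ℕ) : ℝ) * l i - N * W r i = (r * l i - W r i) * N := by
        push_cast; ring
      rw [e2, abs_mul, abs_of_pos (show (0 : ℝ) < N by positivity)]
      exact e1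
    rw [hx]
    simp only [z, if_neg h1, h2, h3]
    rcases Nat.lt_or_ge n N with hn | hn
    · rw [Nat.div_eq_of_lt hn, Nat.mod_eq_of_lt hn, zero_add, if_pos hr, ← mul_assoc,
        ← Complex.ofReal_mul, ← Real.exp_add, ← sub_eq_add_neg]
      have e1 : ∀ (w : ℝ) (v : ℂ), (w : ℂ) * v - v = ((w - 1 : ℝ) : ℂ) * v := by
        intro w v; push_cast; ring
      rw [e1, norm_mul, Complex.norm_real, Real.norm_eq_abs]
      have e2 := Real.abs_exp_sub_one_le (hτ'.trans hτ1)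
      have e3 := mul_le_mul e2 (hA i n) (norm_nonneg _) (by positivity)
      have e4 := mul_le_mul_of_nonneg_right hτ' hA0
      nlinarith
    · rw [hu i n hn, sub_zero]
      split_ifs with h4
      · rw [← mul_assoc, ← Complex.ofReal_mul, ← Real.exp_add, norm_mul, Complex.norm_real,
          Real.norm_eq_abs, abs_of_pos (Real.exp_pos _)]
        refine (mul_le_mul_of_nonneg_left (hA _ _) (Real.exp_pos _).le).trans ?_
        refine exp_small hA0 (by positivity) ?_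
        have e0 : 1 ≤ n / N := (Nat.le_div_iff_mul_le hN).2 (by omega)
        have e1 := s3 r hr _ h4 (by omega) i
        have e2 := (abs_le.1 hτ').2
        have e3 : (N : ℝ) * (W r i + L / N) ≤ N * W (n / N + r) i :=
          mul_le_mul_of_nonneg_left e1 (by positivity)
        have e4 : (N : ℝ) * (W r i + L / N) = N * W r i + L := by field_simp
        linarith
      · rw [mul_zero, norm_zero]; positivity

theorem result :
    ∀ a b h : ℝ, 0 < a → 0 < b → 0 < h →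
      ∃ x y : ℕ → ℂ, Tendsto x atTop (𝓝 0) ∧ Tendsto y atTop (𝓝 0) ∧
        ∀ lam mu : ℝ,
          (∃ ε : ℕ → Bool, lam = a + h * ∑' m : ℕ, (if ε m then (3/4 : ℝ) * (1/4 : ℝ) ^ m else 0)) →
          (∃ δ : ℕ → Bool, mu = b + h * ∑' m : ℕ, (if δ m then (3/4 : ℝ) * (1/4 : ℝ) ^ m else 0)) →
          ∀ u v : ℕ → ℂ, Tendsto u atTop (𝓝 0) → Tendsto v atTop (𝓝 0) →
            ∀ η : ℝ, 0 < η → ∃ k : ℕ, ∀ n : ℕ,
              ‖((Real.exp ((k : ℝ) * lam) : ℝ) : ℂ) * x (n + k) - u n‖ < η ∧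
              ‖((Real.exp ((k : ℝ) * mu) : ℝ) : ℂ) * y (n + k) - v n‖ < η := by
  intro a b h ha hb hh
  have hm : 0 < min a b := lt_min ha hb
  obtain ⟨J, hJ⟩ : ∃ J : ℕ, h / 4 ^ J ≤ min a b / 20 := by
    obtain ⟨J, hJ⟩ := pow_unbounded_of_one_lt (h / (min a b / 20)) (show (1 : ℝ) < 4 by norm_num)
    refine ⟨J, ?_⟩
    rw [div_lt_iff₀ (by positivity)] at hJ
    rw [div_le_iff₀ (by positivity)]
    linarith
  obtain ⟨cc, h1, h2⟩ := subdiv J ![a, b] hh.le
  have hc0 : ∀ i, min a b ≤ ![a, b] i := by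
    intro i; fin_cases i
    · exact min_le_left _ _
    · exact min_le_right _ _
  have hc1 : ∀ i, ![a, b] i ≤ a + b := by
    intro i; fin_cases i
    · simp; linarith
    · simp; linarith
  have hs : 0 ≤ h / 4 ^ J := by positivity
  let tg : (Σ N : ℕ, (Fin 2 → Fin N → ℕ)) → Fin 2 → ℕ → ℂ := fun p i n =>
    if hn : n < p.1 then TopologicalSpace.denseSeq ℂ (p.2 i ⟨n, hn⟩) else 0
  have hd := dense_iInter_of_isOpen (ι := ℕ × (Σ N : ℕ, (Fin 2 → Fin N → ℕ)) × ℕ)
    (f := fun p => U (D (cc p.1) (h / 4 ^ J)) (tg p.2.1) (1 / ((p.2.2 : ℝ) + 1))) ?_ ?_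
  · obtain ⟨x, hx⟩ := hd.nonempty
    rw [Set.mem_iInter] at hx
    refine ⟨x 0, x 1, tends x 0, tends x 1, fun lam mu hl hm u v hu hv η hη => ?_⟩
    have hl' : ![lam, mu] ∈ D ![a, b] h := by
      intro i; fin_cases i
      · exact hl
      · exact hm
    obtain ⟨j, -, hj⟩ := h2 _ hl'
    have hw : ∀ i, Tendsto (![u, v] i) atTop (𝓝 0) := by
      intro i; fin_cases i
      · exact hu
      · exact hv
    have e1 : ∀ i, ∀ᶠ n in atTop, ‖![u, v] i n‖ < η / 2 := fun i =>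
      (hw i).norm.eventually_lt_const (by simp; linarith)
    obtain ⟨N, hN⟩ := eventually_atTop.1 (eventually_all.2 e1)
    have e2 : ∀ (i : Fin 2) (n : Fin N), ∃ m : ℕ,
        dist (![u, v] i n) (TopologicalSpace.denseSeq ℂ m) < η / 2 := fun i n =>
      Metric.denseRange_iff.1 (TopologicalSpace.denseRange_denseSeq ℂ) _ _ (by linarith)
    choose g hg using e2
    obtain ⟨m, hm'⟩ := exists_nat_one_div_lt (show 0 < η / 2 by linarith)
    obtain ⟨M, η', hη', hU⟩ := hx (j, ⟨N, g⟩, m)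
    obtain ⟨k, -, hk⟩ := hU _ hj
    have e3 : ∀ i n, ‖tg ⟨N, g⟩ i n - ![u, v] i n‖ < η / 2 := by
      intro i n
      simp only [tg]
      split_ifs with hn
      · have := hg i ⟨n, hn⟩
        rwa [dist_comm, dist_eq_norm] at this
      · rw [zero_sub, norm_neg]
        exact hN n (not_lt.1 hn) i
    have e4 : ∀ i n, ‖((Real.exp ((k : ℝ) * ![lam, mu] i) : ℝ) : ℂ) * x i (n + k) -
        ![u, v] i n‖ < η := by
      intro i n
      have f1 := hk i n
      have f2 := e3 i n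
      have f3 := norm_sub_le_norm_sub_add_norm_sub
        (((Real.exp ((k : ℝ) * ![lam, mu] i) : ℝ) : ℂ) * x i (n + k)) (tg ⟨N, g⟩ i n)
        (![u, v] i n)
      simp only at hη' f1
      linarith
    exact ⟨k, fun n => ⟨e4 0 n, e4 1 n⟩⟩
  · intro p
    refine U_open (Λ := a + b + h) (by positivity) (fun l hl i => ?_) _ _
    linarith [(D_bd hs hl i).2, (h1 p.1 i).2, hc1 i]
  · intro p
    refine U_dense hm hs hJ (fun i => (hc0 i).trans (h1 p.1 i).1) _ (p.2.1.1 + 1) (by omega)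
      (fun i n hn => ?_) (by positivity)
    simp only [tg]
    rw [dif_neg (by omega)]

end Pool.Agent.S04011
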