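import Pool.Statements.S04016
import Pool.Agent.H.MP_1fc4c0_an.E

set_option autoImplicit false
open Pool Pool.MP_1fc4c0_an

namespace Pool.Agent.S04016

theorem result :
    ¬ (∀ p : ℤ → ℝ, (∀ n, 0 ≤ p n) → Summable p → ∑' n, p n = 1 →
      (∀ t : ℝ, t ∈ Set.Ioo 0 (2 * Real.pi) →
        ‖∑' n : ℤ, (p n : ℂ) * Complex.exp (Complex.I * (t : ℂ) * (n : ℂ))‖ < 1) →
      ((∃ C : ℝ, ∀ t : ℝ, t ∈ Set.Ioo 0 (2 * Real.pi) →
          ‖1 - ∑' n : ℤ, (p n : ℂ) * Complex.exp (Complex.I * (t : ℂ) * (n : ℂ))‖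
            ≤ C * (1 - ‖∑' n : ℤ, (p n : ℂ) * Complex.exp (Complex.I * (t : ℂ) * (n : ℂ))‖)) ↔
       (∃ C : ℝ, ∀ n : ℕ,
          (n : ℝ) * ∑' k : ℤ,
            |((fun f : ℤ → ℝ => fun m : ℤ => ∑' j : ℤ, f j * p (m - j))^[n]
                (fun m : ℤ => if m = 0 then (1 : ℝ) else 0)) k
              - ((fun f : ℤ → ℝ => fun m : ℤ => ∑' j : ℤ, f j * p (m - j))^[n + 1]
                (fun m : ℤ => if m = 0 then (1 : ℝ) else 0)) k| ≤ C))) := by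
  open Pool.Agent.H.MP_1fc4c0_an Finset in
  intro H
  obtain ⟨μ, h0, h1, hs, m0, m1, hg⟩ := core
  have hh : ∀ t : ℝ, t ∈ Set.Ioo 0 (2 * Real.pi) → ∃ r : ℝ,
      ∑' n : ℤ, (μ n : ℂ) * Complex.exp (Complex.I * (t : ℂ) * (n : ℂ)) = r ∧ 0 ≤ r ∧ r < 1 := by
    intro t ht
    have : Real.cos t < 1 := lt_of_le_of_ne (Real.cos_le_one t) fun h => ht.1.ne'
      ((Real.cos_eq_one_iff_of_lt_of_lt (by linarith [ht.1, Real.pi_pos]) ht.2).1 h)
    convert hat h0 h1 hs m0 m1 this using 7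
    push_cast; ring_nf
  obtain ⟨C, hC⟩ := (H μ h0 h1.summable h1.tsum_eq fun t ht => by
    obtain ⟨r, e, r0, r1⟩ := hh t ht
    rwa [e, Complex.norm_real, Real.norm_of_nonneg r0]).1 ⟨1, fun t ht => by
    obtain ⟨r, e, r0, r1⟩ := hh t ht
    rw [e, ← Complex.ofReal_one, ← Complex.ofReal_sub, Complex.norm_real, Complex.norm_real,
      Real.norm_of_nonneg r0, Real.norm_of_nonneg (by linarith), one_mul]⟩
  have e : (fun f : ℤ → ℝ => fun m : ℤ => ∑' j : ℤ, f j * μ (m - j)) =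
      fun g : ℤ → ℝ => fun m => ∑' i : ℤ, μ i * g (m - i) := by
    funext f m
    rw [← (Equiv.subLeft m).tsum_eq]
    simp [mul_comm]
  rw [e] at hC
  change ∀ n : ℕ, (n : ℝ) * ∑' k, |c μ n k - c μ (n + 1) k| ≤ C at hC
  have C0 : 0 ≤ C := by simpa using hC 0
  obtain ⟨j, hj⟩ := exists_nat_gt (44 * C)
  obtain ⟨a, b, f, E, δ, a0, ab, hab, d0, hE, f1, f2, f3, f4⟩ := hg j
  have a1 : (0 : ℝ) < a := by exact_mod_cast a0
  have E0 : (0 : ℝ) < E.card := by exact_mod_cast hE.card_pos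
  have F0 : 0 ≤ ∑' x, |f x| := tsum_nonneg fun _ => abs_nonneg _
  have b1 := card_nsmul_le_sum E _ δ fun x hx => (f4 x hx).trans (tel ab f x)
  have b2 : ∀ n ∈ Ico a b, ∑ x ∈ E, |D μ n f x - D μ (n + 1) f x| ≤ C / a * (22 * δ * E.card) := by
    intro n hn
    refine (young h0 h1 n f1 f2 E).trans (mul_le_mul ?_ f3 F0 (by positivity))
    rw [le_div_iff₀' a1]
    refine le_trans (mul_le_mul_of_nonneg_right ?_ (tsum_nonneg fun _ => abs_nonneg _)) (hC n)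
    exact_mod_cast (mem_Ico.1 hn).1
  have b3 := sum_le_card_nsmul _ _ _ b2
  rw [sum_comm] at b1
  rw [Nat.card_Ico, nsmul_eq_mul, Nat.cast_sub ab] at b3
  rw [nsmul_eq_mul] at b1
  have b4 : (1 : ℝ) * (E.card * δ) ≤ (b - a) * (C / a) * 22 * (E.card * δ) := by linarith
  have b5 := le_of_mul_le_mul_right b4 (by positivity)
  have b6 := mul_le_mul_of_nonneg_right hab (by positivity : 0 ≤ C / a * 22)
  have b7 : 2 * (a : ℝ) * (C / a * 22) = 44 * C := by field_simp; ring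
  nlinarith

end Pool.Agent.S04016
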