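import Pool.Statements.S04018
import Pool.Agent.H.MP_1fc8c4_an.C

set_option autoImplicit false
open Pool Pool.MP_1fc8c4_an

namespace Pool.Agent.S04018

theorem result :
    ¬ (∀ (S0 : Set (EuclideanSpace ℂ (Fin 2) → EuclideanSpace ℂ (Fin 2)))
    (NLC : Set (EuclideanSpace ℂ (Fin 2) → ℝ → EuclideanSpace ℂ (Fin 2))),
  (∀ g, g ∈ S0 ↔ ∃ (h : EuclideanSpace ℂ (Fin 2) → ℝ → EuclideanSpace ℂ (Fin 2))
      (v : EuclideanSpace ℂ (Fin 2) → ℝ → EuclideanSpace ℂ (Fin 2)),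
      (∀ t : ℝ, DifferentiableOn ℂ (fun z => h z t) (Metric.ball (0 : EuclideanSpace ℂ (Fin 2)) 1) ∧
        h 0 t = 0 ∧
        fderiv ℂ (fun z => h z t) 0 = ContinuousLinearMap.id ℂ (EuclideanSpace ℂ (Fin 2)) ∧
        ∀ z ∈ Metric.ball (0 : EuclideanSpace ℂ (Fin 2)) 1, z ≠ 0 → 0 < (inner ℂ z (h z t)).re) ∧
      (∀ z ∈ Metric.ball (0 : EuclideanSpace ℂ (Fin 2)) 1,
        MeasureTheory.StronglyMeasurable (fun t : ℝ => h z t)) ∧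
      (∀ z ∈ Metric.ball (0 : EuclideanSpace ℂ (Fin 2)) 1,
        (∀ t : ℝ, 0 ≤ t → v z t ∈ Metric.ball (0 : EuclideanSpace ℂ (Fin 2)) 1 ∧
          IntervalIntegrable (fun s => h (v z s) s) MeasureTheory.volume 0 t ∧
          v z t = z - ∫ s in (0:ℝ)..t, h (v z s) s) ∧
        Filter.Tendsto (fun t : ℝ => ((Real.exp t : ℝ) : ℂ) • v z t) Filter.atTop (nhds (g z)))) →
  (∀ F, F ∈ NLC ↔
      (∀ t : ℝ, 0 ≤ t →
        DifferentiableOn ℂ (fun z => F z t) (Metric.ball (0 : EuclideanSpace ℂ (Fin 2)) 1) ∧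
        Set.InjOn (fun z => F z t) (Metric.ball (0 : EuclideanSpace ℂ (Fin 2)) 1) ∧
        F 0 t = 0 ∧
        fderiv ℂ (fun z => F z t) 0 =
          ((Real.exp t : ℝ) : ℂ) • ContinuousLinearMap.id ℂ (EuclideanSpace ℂ (Fin 2))) ∧
      (∀ s t : ℝ, 0 ≤ s → s ≤ t →
        (fun z => F z s) '' Metric.ball (0 : EuclideanSpace ℂ (Fin 2)) 1 ⊆
          (fun z => F z t) '' Metric.ball (0 : EuclideanSpace ℂ (Fin 2)) 1) ∧
      (∀ r : ℝ, r < 1 → ∃ M : ℝ, ∀ t : ℝ, 0 ≤ t → ∀ z : EuclideanSpace ℂ (Fin 2),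
        ‖z‖ ≤ r → ‖F z t‖ ≤ M * Real.exp t)) →
  ∀ f ∈ S0,
    (∃ L : (EuclideanSpace ℂ (Fin 2) → EuclideanSpace ℂ (Fin 2)) → ℂ,
      (∀ g1 g2 : EuclideanSpace ℂ (Fin 2) → EuclideanSpace ℂ (Fin 2),
        DifferentiableOn ℂ g1 (Metric.ball (0 : EuclideanSpace ℂ (Fin 2)) 1) →
        DifferentiableOn ℂ g2 (Metric.ball (0 : EuclideanSpace ℂ (Fin 2)) 1) →
        ∀ a b : ℂ, L (a • g1 + b • g2) = a * L g1 + b * L g2) ∧
      (∃ K : Set (EuclideanSpace ℂ (Fin 2)), K ⊆ Metric.ball (0 : EuclideanSpace ℂ (Fin 2)) 1 ∧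
        IsCompact K ∧ ∃ C : ℝ, ∀ g : EuclideanSpace ℂ (Fin 2) → EuclideanSpace ℂ (Fin 2),
          DifferentiableOn ℂ g (Metric.ball (0 : EuclideanSpace ℂ (Fin 2)) 1) →
          ∀ M : ℝ, (∀ z ∈ K, ‖g z‖ ≤ M) → ‖L g‖ ≤ C * M) ∧
      (∀ g ∈ S0, (L g).re ≤ (L f).re) ∧
      (∃ g ∈ S0, L g ≠ L f)) →
    ∀ F1 ∈ NLC, ∀ F2 ∈ NLC,
      (∀ z ∈ Metric.ball (0 : EuclideanSpace ℂ (Fin 2)) 1, F1 z 0 = f z) →
      (∀ z ∈ Metric.ball (0 : EuclideanSpace ℂ (Fin 2)) 1, F2 z 0 = f z) →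
      ∀ t : ℝ, 0 ≤ t → ∀ z ∈ Metric.ball (0 : EuclideanSpace ℂ (Fin 2)) 1, F1 z t = F2 z t) := by
  intro h
  have h1 := h {g | H.MP_1fc8c4_an.InS0 g} {F | H.MP_1fc8c4_an.InNLC F} (fun _ => Iff.rfl)
    (fun _ => Iff.rfl) H.MP_1fc8c4_an.ff H.MP_1fc8c4_an.ff_S0
    ⟨fun g => g H.MP_1fc8c4_an.zs 0, fun g1 g2 _ _ a b => by simp,
      ⟨{H.MP_1fc8c4_an.zs}, by
        have := H.MP_1fc8c4_an.zs_norm
        simp only [Set.singleton_subset_iff, mem_ball_zero_iff]; linarith,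
        isCompact_singleton, 1, fun g _ M hM => by
          rw [one_mul]
          exact (PiLp.norm_apply_le _ 0).trans (hM _ rfl)⟩,
      fun g hg => by
        have h2 := H.MP_1fc8c4_an.S0_bound hg _ H.MP_1fc8c4_an.zs_norm
        have h3 := (Complex.re_le_norm _).trans ((PiLp.norm_apply_le _ 0).trans h2)
        simp only [H.MP_1fc8c4_an.ff_zs]
        simpa using h3,
      ⟨fun z => z, H.MP_1fc8c4_an.id_S0, by
        simp only [H.MP_1fc8c4_an.ff_zs]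
        simp only [H.MP_1fc8c4_an.zs, H.MP_1fc8c4_an.mk0]
        norm_num⟩⟩
    (H.MP_1fc8c4_an.FF (fun _ => 0))
    (H.MP_1fc8c4_an.FF_NLC _ (by simp) (fun s t _ hst => by
      simpa using hst))
    (H.MP_1fc8c4_an.FF H.MP_1fc8c4_an.cc)
    (H.MP_1fc8c4_an.FF_NLC _ H.MP_1fc8c4_an.cc1 H.MP_1fc8c4_an.cc2)
    (fun z _ => by simp [H.MP_1fc8c4_an.FF, H.MP_1fc8c4_an.ff])
    (fun z _ => by simp [H.MP_1fc8c4_an.FF, H.MP_1fc8c4_an.ff, H.MP_1fc8c4_an.cc])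
    1 zero_le_one H.MP_1fc8c4_an.zt (by
      have := H.MP_1fc8c4_an.zt_norm
      simp only [mem_ball_zero_iff]; linarith)
  exact H.MP_1fc8c4_an.differ h1

end Pool.Agent.S04018
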