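import Pool.Statements.S04025
import Pool.Agent.H.MP_2001a4_an.F

set_option autoImplicit false
open Pool Pool.MP_2001a4_an

namespace Pool.Agent.S04025

theorem result :
    ∀ (A : Type) [NonUnitalCStarAlgebra A] (C : Type) [CStarAlgebra C],
      Nontrivial A → Nontrivial C →
      (∃ S : ℕ → NonUnitalStarSubalgebra ℂ A, Monotone S ∧
          (∀ n, FiniteDimensional ℂ (Submodule.span ℂ (S n : Set A))) ∧
          Dense (⋃ n, (S n : Set A))) →
      (∃ S : ℕ → NonUnitalStarSubalgebra ℂ C, Monotone S ∧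
          (∀ n, FiniteDimensional ℂ (Submodule.span ℂ (S n : Set C))) ∧
          Dense (⋃ n, (S n : Set C))) →
      (∀ (D : Type) [CStarAlgebra D], Nontrivial D →
          ∀ φ : A →⋆ₙₐ[ℂ] D, ¬ Function.Surjective φ) →
      ∃ (B : Type) (_ : CStarAlgebra B) (ι : A →⋆ₙₐ[ℂ] B) (π : B →⋆ₐ[ℂ] C),
        Function.Injective ι ∧ Function.Surjective π ∧
        Set.range ι = {b : B | π b = 0} ∧
        ∀ I : TwoSidedIdeal B, IsClosed (I : Set B) →
          Set.range ι ⊆ (I : Set B) ∨ (I : Set B) ⊆ Set.range ι := by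
  intro A _ C _ _ _ hA hC h
  exact Pool.Agent.H.MP_2001a4_an.main A C hA hC h

end Pool.Agent.S04025
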