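import Pool.Statements.S04040
import Pool.Agent.H.MP_20f905_an.F

set_option autoImplicit false
open Filter Topology MeasureTheory
open scoped Classical
open Pool Pool.MP_20f905_an

namespace Pool.Agent.S04040

theorem result :
    ¬ (Filter.Eventually
      (fun T : {T : ℝ ≃ᵐ ℝ // MeasurePreserving (T : ℝ → ℝ) (volume.restrict (Set.Icc (0:ℝ) 1))
            (volume.restrict (Set.Icc (0:ℝ) 1))} =>
        ∀ S : ℝ ≃ᵐ ℝ,
          MeasurePreserving (S : ℝ → ℝ) (volume.restrict (Set.Icc (0:ℝ) 1))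
            (volume.restrict (Set.Icc (0:ℝ) 1)) →
          (∀ A : Set ℝ, MeasurableSet A → ∀ ε : ℝ, 0 < ε →
            Tendsto (fun N : ℕ =>
              (((Finset.Icc 1 N).filter (fun n : ℕ =>
                  (volume.restrict (Set.Icc (0:ℝ) 1))
                    (symmDiff
                      ((((T.1.symm : ℝ ≃ᵐ ℝ) : ℝ → ℝ)^[n] ∘ (S : ℝ → ℝ) ∘
                          ((T.1 : ℝ ≃ᵐ ℝ) : ℝ → ℝ)^[n]) ⁻¹' A) A)
                    < ENNReal.ofReal ε)).card : ℝ) / (N : ℝ))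
              atTop (𝓝 1)) →
          ∀ᵐ x ∂(volume.restrict (Set.Icc (0:ℝ) 1)), S x = x)
      (@residual
        {T : ℝ ≃ᵐ ℝ // MeasurePreserving (T : ℝ → ℝ) (volume.restrict (Set.Icc (0:ℝ) 1))
            (volume.restrict (Set.Icc (0:ℝ) 1))}
        (TopologicalSpace.generateFrom
          {U | ∃ T₀ : {T : ℝ ≃ᵐ ℝ // MeasurePreserving (T : ℝ → ℝ)
                  (volume.restrict (Set.Icc (0:ℝ) 1)) (volume.restrict (Set.Icc (0:ℝ) 1))},
              ∃ A : Set ℝ, MeasurableSet A ∧ ∃ δ : ℝ, 0 < δ ∧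
              U = {S : {T : ℝ ≃ᵐ ℝ // MeasurePreserving (T : ℝ → ℝ)
                      (volume.restrict (Set.Icc (0:ℝ) 1)) (volume.restrict (Set.Icc (0:ℝ) 1))} |
                    (volume.restrict (Set.Icc (0:ℝ) 1))
                      (symmDiff (((S.1 : ℝ ≃ᵐ ℝ) : ℝ → ℝ) ⁻¹' A)
                        (((T₀.1 : ℝ ≃ᵐ ℝ) : ℝ → ℝ) ⁻¹' A)) < ENNReal.ofReal δ}}))) := by
  intro H
  have e := Pool.Agent.H.MP_20f905_an.fz_eq
  rw [e] at H
  obtain ⟨U, u1, u2, u3, u4⟩ := mem_residual_iff.1 H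
  obtain ⟨V, hV⟩ := (u3.insert Set.univ).exists_eq_range (Set.insert_nonempty _ _)
  have v : ∀ j, V j = Set.univ ∨ V j ∈ U := fun j =>
    Set.mem_insert_iff.1 (hV ▸ Set.mem_range_self j)
  obtain ⟨T, S, a, b, c⟩ := Pool.Agent.H.MP_20f905_an.main V
    (fun j => (v j).elim (fun z => z ▸ isOpen_univ) (u1 _))
    (fun j => (v j).elim (fun z => z ▸ dense_univ) (u2 _))
  refine b (u4 (a := T) (fun t ht => ?_) S.1 S.2 fun A hA ε hε => ?_)
  · obtain ⟨j, rfl⟩ : t ∈ Set.range V := hV ▸ Set.mem_insert_of_mem _ ht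
    exact a j
  · refine Pool.Agent.H.MP_20f905_an.markov (Pool.Agent.H.MP_20f905_an.cst T S A)
      (fun _ => measureReal_nonneg) (c A hA) hε _ fun n hn => ?_
    rw [← Pool.Agent.H.MP_20f905_an.cj_eq,
      ENNReal.lt_ofReal_iff_toReal_lt (measure_ne_top _ _)]
    exact hn

end Pool.Agent.S04040
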