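import Pool.Statements.S04052
import Pool.Agent.H.MP_d01728_an.G

set_option autoImplicit false
open Pool Pool.MP_223851_an

namespace Pool.Agent.S04052

/-- The negation of the preceding statement: For every bounded convex open set in R^n, with Robin eigenvalues defined by min-max over C^1 functions (boundary term via (n-1)-Hausdorff measure), the gap between the second and first eigenvalue strictly increases in the Robin parameter for positive parameters. -/
theorem result :
    ¬ (∀ (n : ℕ), 1 ≤ n →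
    ∀ (Ω : Set (EuclideanSpace ℝ (Fin n))),
      IsOpen Ω → Convex ℝ Ω → Bornology.IsBounded Ω → Ω.Nonempty →
    ∀ (lam : ℝ → ℕ → ℝ),
      (∀ (α : ℝ) (k : ℕ), lam α k =
        sInf {r : ℝ | ∃ V : Submodule ℝ (EuclideanSpace ℝ (Fin n) → ℝ),
          Module.finrank ℝ V = k ∧
          (∀ v ∈ V, ContDiff ℝ 1 v) ∧
          (∀ v ∈ V, v ≠ 0 → 0 < ∫ x in Ω, v x ^ 2) ∧
          r = sSup {q : ℝ | ∃ v ∈ V, v ≠ 0 ∧
            q = ((∫ x in Ω, ‖fderiv ℝ v x‖ ^ 2) +
                  α * ∫ x in frontier Ω, v x ^ 2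
                    ∂(MeasureTheory.Measure.hausdorffMeasure ((n : ℝ) - 1))) /
                (∫ x in Ω, v x ^ 2)}}) →
      StrictMonoOn (fun α : ℝ => lam α 2 - lam α 1) (Set.Ioi (0 : ℝ))) := by
  intro hH
  obtain ⟨c, c0, hc⟩ := H.MP_d01728_an.conv
  obtain ⟨a, α, a0, a1, α0, α1, h⟩ := H.MP_d01728_an.nomono
  have := hH 3 (by norm_num) (H.MP_d01728_an.Om a) H.MP_d01728_an.Om_o (H.MP_d01728_an.Om_cv a0)
    (H.MP_d01728_an.Om_bd a0 a1) ⟨0, H.MP_d01728_an.Om_0 a0⟩
    (fun γ k => sInf (H.MP_d01728_an.Ls (H.MP_d01728_an.Om a) (γ * c) k))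
    (fun γ k => by simp only [hc, ← mul_assoc]; rfl)
    (show α / c ∈ Set.Ioi (0 : ℝ) from div_pos α0 c0) (show 1 / c ∈ Set.Ioi (0 : ℝ) from div_pos one_pos c0)
    (div_lt_div_of_pos_right α1 c0)
  simp only [div_mul_cancel₀ _ c0.ne'] at this
  linarith

end Pool.Agent.S04052
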