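import Pool.Statements.S04054
import Pool.Agent.H.MP_22f2dc_an.A

set_option autoImplicit false
open Pool Pool.MP_22f2dc_an

namespace Pool.Agent.S04054

open Pool.Agent.H.MP_22f2dc_an

/-- The negation of the preceding statement: Take nonconstant C1 weak solutions u, v of div(A grad u)=0 on a connected open set in R^n, n≥2, with A symmetric, uniformly elliptic and Lipschitz. If u vanishes on a connected smooth hypersurface S and v on a nonempty open proper piece of S, then v vanishes on all of S. -/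
theorem result :
    ¬ (∀ (n : ℕ), 2 ≤ n →
  ∀ (Ω : Set (EuclideanSpace ℝ (Fin n))), IsOpen Ω → IsConnected Ω →
  ∀ (A : EuclideanSpace ℝ (Fin n) → Matrix (Fin n) (Fin n) ℝ) (K E : ℝ), 0 < K →
    (∀ x ∈ Ω, ∀ i j, A x i j = A x j i) →
    (∀ x ∈ Ω, ∀ ξ : EuclideanSpace ℝ (Fin n),
        K⁻¹ * ‖ξ‖ ^ 2 ≤ ∑ i, ∑ j, A x i j * ξ i * ξ j ∧
        ∑ i, ∑ j, A x i j * ξ i * ξ j ≤ K * ‖ξ‖ ^ 2) →
    (∀ x ∈ Ω, ∀ y ∈ Ω, ∀ i j, |A x i j - A y i j| ≤ E * dist x y) →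
  ∀ (u v : EuclideanSpace ℝ (Fin n) → ℝ),
    ContDiffOn ℝ 1 u Ω → ContDiffOn ℝ 1 v Ω →
    (¬ ∃ c : ℝ, ∀ x ∈ Ω, u x = c) →
    (¬ ∃ c : ℝ, ∀ x ∈ Ω, v x = c) →
    (∀ φ : EuclideanSpace ℝ (Fin n) → ℝ,
        ContDiff ℝ ((⊤ : ℕ∞) : WithTop ℕ∞) φ → HasCompactSupport φ → tsupport φ ⊆ Ω →
        ∫ x, ∑ i, ∑ j, A x i j * fderiv ℝ u x (EuclideanSpace.single j 1)
            * fderiv ℝ φ x (EuclideanSpace.single i 1) = 0) →
    (∀ φ : EuclideanSpace ℝ (Fin n) → ℝ,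
        ContDiff ℝ ((⊤ : ℕ∞) : WithTop ℕ∞) φ → HasCompactSupport φ → tsupport φ ⊆ Ω →
        ∫ x, ∑ i, ∑ j, A x i j * fderiv ℝ v x (EuclideanSpace.single j 1)
            * fderiv ℝ φ x (EuclideanSpace.single i 1) = 0) →
  ∀ (S Sig : Set (EuclideanSpace ℝ (Fin n))),
    S ⊆ Ω → IsConnected S →
    (∀ p ∈ S, ∃ (U : Set (EuclideanSpace ℝ (Fin n))) (f : EuclideanSpace ℝ (Fin n) → ℝ),
        IsOpen U ∧ p ∈ U ∧ ContDiff ℝ ((⊤ : ℕ∞) : WithTop ℕ∞) f ∧
        (∀ x ∈ U, fderiv ℝ f x ≠ 0) ∧ S ∩ U = {x | x ∈ U ∧ f x = 0}) →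
    Sig ⊆ S → Sig.Nonempty → Sig ≠ S →
    (∃ O : Set (EuclideanSpace ℝ (Fin n)), IsOpen O ∧ Sig = S ∩ O) →
    (∀ x ∈ S, u x = 0) →
    (∀ x ∈ Sig, v x = 0) →
    ∀ x ∈ S, v x = 0) := by
  intro h
  obtain ⟨r, hr, K, hK, hL, hB⟩ := radius
  have hcv : Convex ℝ (Metric.ball (0 : E) r ∩ {p : E | p 2 = 0}) :=
    (convex_ball _ _).inter ((convex_singleton (0 : ℝ)).linear_preimage (X 2 : E →ₗ[ℝ] ℝ))
  have h0 : (0 : E) ∈ Metric.ball (0 : E) r := Metric.mem_ball_self hr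
  have hs : ∀ (i : Fin 3) (c : ℝ), |c| < r →
      (EuclideanSpace.single i c : E) ∈ Metric.ball (0 : E) r := by
    intro i c hc
    simpa using hc
  have hp : (EuclideanSpace.single 0 (r / 3) + EuclideanSpace.single 1 (r / 3) : E) ∈
      Metric.ball (0 : E) r := by
    rw [mem_ball_zero_iff]
    refine (norm_add_le _ _).trans_lt ?_
    simp only [PiLp.norm_single, Real.norm_eq_abs]
    rw [abs_of_pos (by positivity)]
    linarith
  have hv : v (EuclideanSpace.single 0 (r / 3) + EuclideanSpace.single 1 (r / 3)) ≠ 0 := by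
    have : max (r / 3) 0 = r / 3 := max_eq_left (by positivity)
    simp [v, m, this, hr.ne']
  have hout : ∀ φ : E → ℝ, tsupport φ ⊆ Metric.ball (0 : E) r →
      ∀ x, x ∉ Metric.ball (0 : E) r → fderiv ℝ φ x = 0 := by
    intro φ hφ x hx
    by_contra hc
    exact hx (hφ (support_fderiv_subset ℝ hc))
  refine hv (h 3 (by norm_num) (Metric.ball 0 r) Metric.isOpen_ball
    ((convex_ball _ _).isConnected ⟨0, h0⟩) A 2 K (by norm_num) (fun x _ => A_symm x)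
    (fun x hx => A_ell x (hB x hx).2)
    (fun x hx y hy => A_lip x y _ (mul_nonneg hK dist_nonneg) (hL x hx y hy))
    (fun q => q 2) v (cX 2).contDiffOn v_cd.contDiffOn ?_ ?_ ?_ ?_
    (Metric.ball (0 : E) r ∩ {p : E | p 2 = 0})
    ((Metric.ball (0 : E) r ∩ {p : E | p 2 = 0}) ∩ {p : E | p 0 < 0})
    Set.inter_subset_left (hcv.isConnected ⟨0, h0, rfl⟩) ?_ Set.inter_subset_left ?_ ?_
    ⟨_, isOpen_lt (X 0).continuous continuous_const, rfl⟩ (fun x hx => hx.2) ?_ _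
    ⟨hp, by simp⟩)
  · rintro ⟨c, hc⟩
    have h1 := hc 0 h0
    have h2 := hc _ (hs 2 (r / 2) (by rw [abs_of_pos (by positivity)]; linarith))
    simp at h1 h2
    linarith
  · rintro ⟨c, hc⟩
    have h1 := hc 0 h0
    have h2 := hc _ hp
    have : v 0 = 0 := by simp [v]
    exact hv (by rw [h2, ← h1, this])
  · intro φ hφ hc _
    simp only [sum_u _ fun i => fderiv ℝ φ _ (EuclideanSpace.single i 1)]
    exact weak (fun _ => 0) (fun _ => 0) (fun _ => 1) φ contDiff_const contDiff_const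
      contDiff_const (hφ.of_le (by exact_mod_cast le_top)) hc (by simp)
  · intro φ hφ hc hsu
    rw [← weak W0 W1 W2 φ W0_cd W1_cd W2_cd (hφ.of_le (by exact_mod_cast le_top)) hc W_div]
    refine MeasureTheory.integral_congr_ae (Filter.Eventually.of_forall fun x => ?_)
    by_cases hx : x ∈ Metric.ball (0 : E) r
    · exact sum_v x (hB x hx).1 fun i => fderiv ℝ φ x (EuclideanSpace.single i 1)
    · simp [hout φ hsu x hx]
  · intro p hp'
    refine ⟨Metric.ball 0 r, fun q => q 2, Metric.isOpen_ball, hp'.1, cX 2, fun x _ hx => ?_, ?_⟩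
    · rw [(hX 2 x).fderiv] at hx
      have := congrArg (fun L : E →L[ℝ] ℝ => L (EuclideanSpace.single 2 1)) hx
      simp [X_apply] at this
    · ext x
      simp only [Set.mem_inter_iff, Set.mem_ofPred_eq]
      tauto
  · refine ⟨EuclideanSpace.single 0 (-(r / 2)), ⟨hs 0 _ ?_, by simp⟩, by simpa using hr⟩
    rw [abs_neg, abs_of_pos (by positivity)]; linarith
  · intro he
    have : (0 : E) ∈ (Metric.ball (0 : E) r ∩ {p : E | p 2 = 0}) ∩ {p : E | p 0 < 0} := by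
      rw [he]; exact ⟨h0, rfl⟩
    simpa using this.2
  · rintro x ⟨⟨-, h1⟩, h2⟩
    have h1 : x 2 = 0 := h1
    have h2 : x 0 < 0 := h2
    simp [v, m, h1, max_eq_right h2.le]

end Pool.Agent.S04054
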