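import Pool.Statements.S04060
import Pool.Agent.H.MP_c2fecd.D

set_option autoImplicit false
open Pool Pool.MP_234257_an

namespace Pool.Agent.S04060

/-- The negation of the preceding statement: For real Banach spaces X, Y with a bi-Lipschitz bijection between them, if X has an equivalent locally uniformly rotund norm then so does Y. -/
theorem result :
    ¬ (∀ (X Y : Type) [NormedAddCommGroup X] [NormedSpace ℝ X] [CompleteSpace X]
    [NormedAddCommGroup Y] [NormedSpace ℝ Y] [CompleteSpace Y],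
    (∃ f : X ≃ Y, ∃ K₁ K₂ : NNReal, LipschitzWith K₁ f ∧ LipschitzWith K₂ f.symm) →
    (∃ N : X → ℝ, (∀ x y : X, N (x + y) ≤ N x + N y) ∧
      (∀ (a : ℝ) (x : X), N (a • x) = |a| * N x) ∧
      (∃ c C : ℝ, 0 < c ∧ 0 < C ∧ ∀ x : X, c * ‖x‖ ≤ N x ∧ N x ≤ C * ‖x‖) ∧
      (∀ x : X, N x = 1 → ∀ ε : ℝ, 0 < ε → ∃ δ : ℝ, 0 < δ ∧
        ∀ y : X, N y = 1 → 2 - δ < N (x + y) → N (x - y) < ε)) →
    (∃ N : Y → ℝ, (∀ x y : Y, N (x + y) ≤ N x + N y) ∧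
      (∀ (a : ℝ) (x : Y), N (a • x) = |a| * N x) ∧
      (∃ c C : ℝ, 0 < c ∧ 0 < C ∧ ∀ x : Y, c * ‖x‖ ≤ N x ∧ N x ≤ C * ‖x‖) ∧
      (∀ x : Y, N x = 1 → ∀ ε : ℝ, 0 < ε → ∃ δ : ℝ, 0 < δ ∧
        ∀ y : Y, N y = 1 → 2 - δ < N (x + y) → N (x - y) < ε))) := by
  intro h
  have F : H.MP_c2fecd.Fr (Z := Lib.helper23.LF.FreeSp (0 : lp (fun _ : ℝ => ℝ) ⊤)) 0
    (Lib.helper23.LF.del 0) := H.MP_c2fecd.fr_free _
  obtain ⟨β, f, f1, f2⟩ := H.MP_c2fecd.bary F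
  have : CompleteSpace (Lib.helper23.LF.FreeSp (0 : lp (fun _ : ℝ => ℝ) ⊤)) :=
    Submodule.topologicalClosure.completeSpace _
  obtain ⟨N, n1, n2, ⟨c, C, c0, C0, n3⟩, n4⟩ := h _ _ ⟨f, 2, 2, f1, f2⟩ F.lur
  obtain ⟨x, u, u0, u1, u2, u3⟩ := H.MP_c2fecd.day (fun x => N (0, x))
    (fun x y => by simpa using n1 (0, x) (0, y)) (fun a x => by simpa using n2 a (0, x)) C0
    fun x => by simpa using (n3 (0, x)).2
  have p : ∀ v, v ≠ 0 → 0 < N (0, v) := fun v hv =>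
    (mul_pos c0 (by simpa using hv)).trans_le (n3 (0, v)).1
  have m := p _ u1
  rw [u2] at m
  have i := inv_pos.2 m
  obtain ⟨δ, d0, hd⟩ := n4 ((N (0, x))⁻¹ • (0, x + u))
    (by rw [n2, u2, abs_of_pos i, inv_mul_cancel₀ m.ne']) _ (mul_pos i (mul_pos two_pos (p u u0)))
  have := hd ((N (0, x))⁻¹ • (0, x - u)) (by rw [n2, u3, abs_of_pos i, inv_mul_cancel₀ m.ne']) (by
    rw [← smul_add, Prod.mk_add_mk, add_add_sub_cancel, ← Prod.mk_add_mk, ← two_smul ℝ, n2, n2,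
      abs_of_pos i, abs_two, mul_left_comm, inv_mul_cancel₀ m.ne']
    linarith)
  rw [← smul_sub, Prod.mk_sub_mk, add_sub_sub_cancel, sub_self, show ((0 : β.ker), u + u) =
    (2 : ℝ) • (0, u) by simp [two_smul], n2, n2, abs_of_pos i, abs_two] at this
  exact this.false

end Pool.Agent.S04060
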