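import Pool.Statements.S04080
import Pool.Agent.H.MP_24fbf1_an.A

set_option autoImplicit false
open Pool Pool.MP_24fbf1_an

namespace Pool.Agent.S04080

open Pool.Agent.H.MP_24fbf1_an

/-- The negation of the preceding statement: If f is operator Lipschitz on [a,b] (uniform bound on ‖f(A)−f(B)‖ by C‖A−B‖ for self-adjoint A,B with spectrum in [a,b]) and has nonzero derivative at every point of [a,b], then its inverse is operator Lipschitz on the interval between f(a) and f(b). -/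
theorem result :
    ¬ (∀ (f : ℝ → ℝ) (a b : ℝ),
      (ContinuousOn f (Set.Icc a b) ∧
        ∃ C : ℝ, ∀ (H : Type) [NormedAddCommGroup H] [InnerProductSpace ℂ H] [CompleteSpace H],
          ∀ A B : H →L[ℂ] H, IsSelfAdjoint A → IsSelfAdjoint B →
            spectrum ℝ A ⊆ Set.Icc a b → spectrum ℝ B ⊆ Set.Icc a b →
              ‖cfc f A - cfc f B‖ ≤ C * ‖A - B‖) →
      (∀ x ∈ Set.Icc a b, ∃ d : ℝ, d ≠ 0 ∧ HasDerivWithinAt f d (Set.Icc a b) x) →
      ∃ g : ℝ → ℝ, (∀ x ∈ Set.Icc a b, g (f x) = x) ∧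
        (ContinuousOn g (Set.uIcc (f a) (f b)) ∧
          ∃ C : ℝ, ∀ (H : Type) [NormedAddCommGroup H] [InnerProductSpace ℂ H] [CompleteSpace H],
            ∀ A B : H →L[ℂ] H, IsSelfAdjoint A → IsSelfAdjoint B →
              spectrum ℝ A ⊆ Set.uIcc (f a) (f b) → spectrum ℝ B ⊆ Set.uIcc (f a) (f b) →
                ‖cfc g A - cfc g B‖ ≤ C * ‖A - B‖)) := by
  intro hh
  obtain ⟨g, hg, -, C, hC⟩ := hh f 0 1
    ⟨f_cont.continuousOn, 10, fun K _ _ _ A B hA hB sA sB => f_ol hA sA hB sB⟩ f_ne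
  refine not_lip C fun x hx y hy => ?_
  have hsp : ∀ z ∈ Set.Icc (0 : ℝ) (1 / 2),
      spectrum ℝ (algebraMap ℝ (ℂ →L[ℂ] ℂ) (f z)) ⊆ Set.uIcc (f 0) (f 1) := fun z hz =>
    (CFC.spectrum_algebraMap_subset (f z)).trans (Set.singleton_subset_iff.2 (f_mem hz))
  have := hC ℂ (algebraMap ℝ _ (f x)) (algebraMap ℝ _ (f y)) (cfc_predicate_algebraMap _)
    (cfc_predicate_algebraMap _) (hsp x hx) (hsp y hy)
  rw [cfc_algebraMap, cfc_algebraMap, ← map_sub, ← map_sub, norm_algebraMap', norm_algebraMap',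
    hg x ⟨hx.1, by linarith [hx.2]⟩, hg y ⟨hy.1, by linarith [hy.2]⟩] at this
  exact this

end Pool.Agent.S04080
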