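import Pool.Statements.S04088
import Pool.Agent.H.MP_260e18_an.B

set_option autoImplicit false
open MeasureTheory
open Pool Pool.MP_260e18_an

namespace Pool.Agent.S04088

theorem result :
    ¬ (∀ (f : ℝ → ℂ) (Λ : Set ℝ),
      Integrable f volume →
      ¬ (f =ᵐ[volume] 0) →
      Λ.Nonempty →
      (∃ M : ℕ, ∀ x : ℝ, (Λ ∩ Set.Ico x (x + 1)).encard ≤ (M : ℕ∞)) →
      (∀ᵐ x ∂(volume : Measure ℝ),
        Summable (fun l : Λ => ‖f (x - (l : ℝ))‖) ∧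
        ∑' l : Λ, f (x - (l : ℝ)) = 0) →
      ∃ D : ℝ, 0 < D ∧
        ∀ ε : ℝ, 0 < ε → ∃ R : ℝ, 0 < R ∧
          ∀ r : ℝ, R ≤ r → ∀ x : ℝ,
            |((Λ ∩ Set.Ico x (x + r)).ncard : ℝ) - D * r| ≤ ε * r) := by
  intro H
  obtain ⟨f, Λ, h1, h2, h3, h4, h5, h6⟩ := Pool.Agent.H.MP_260e18_an.main
  obtain ⟨D, _, hD⟩ := H f Λ h1 h2 h3 ⟨24, h4⟩ (Filter.Eventually.of_forall h5)
  obtain ⟨R, hR, hD⟩ := hD (1 / 2) (by norm_num)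
  obtain ⟨N, hN⟩ := exists_nat_ge R
  have a1 := (abs_le.1 (hD N hN (-(1 / 2)))).2
  have a2 := (abs_le.1 (hD N hN (-(1 / 2) - N))).1
  have a3 : (6 : ℝ) * N ≤ (Λ ∩ Set.Ico (-(1 / 2)) (-(1 / 2) + N)).ncard := by
    exact_mod_cast (h6 N).1
  have a4 : ((Λ ∩ Set.Ico (-(1 / 2) - N) (-(1 / 2) - N + N)).ncard : ℝ) ≤ 4 * N := by
    exact_mod_cast (h6 N).2
  linarith

end Pool.Agent.S04088
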