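import Pool.Statements.S04089
import Pool.Agent.H.MP_26275f_an.Main

set_option autoImplicit false
open scoped ZeroAtInfty
open Pool Pool.MP_26275f_an Pool.Agent.H.MP_26275f_an

namespace Pool.Agent.S04089

theorem result :
  ∃ (X : Type) (_ : NormedAddCommGroup X) (_ : NormedSpace ℝ X) (_ : CompleteSpace X),
    (∀ φ : (X →L[ℝ] ℝ) →L[ℝ] ℝ, ∃ x : X, ∀ f : X →L[ℝ] ℝ, φ f = f x) ∧
    (∃ D : Set X, Dense D ∧ Cardinal.mk D = Cardinal.continuum) ∧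
    (∀ D : Set X, Dense D → Cardinal.continuum ≤ Cardinal.mk D) ∧
    (∃ (I : Type) (e : I → X), ∀ x : X, ∃! a : I → ℝ, HasSum (fun i => a i • e i) x) ∧
    ∀ Y : Submodule ℝ X, IsClosed (Y : Set X) → ¬ FiniteDimensional ℝ Y →
      ∃ K : ℝ, ∀ E : Submodule ℝ (ℕ →C₀ ℝ), FiniteDimensional ℝ E →
        ∃ T : E →ₗ[ℝ] X, (∀ v, T v ∈ Y) ∧ ∀ v : E, ‖v‖ ≤ ‖T v‖ ∧ ‖T v‖ ≤ K * ‖v‖ := by
  refine ⟨Y, inferInstance, inferInstance, inferInstance, reflY, dense_ex, fun _ h => card_le h,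
    ⟨ℝ, u, fun y => ⟨_, hasSum_u y, fun _ h => uniq h⟩⟩, fun Z _ hZ => ⟨12, fun V hV => ?_⟩⟩
  exact c0_rep (V := V) hZ
    (fun j => { toFun := fun x => x.1 j, map_add' := fun _ _ => rfl, map_smul' := fun _ _ => rfl })
    (fun j x => x.1.toBCF.norm_coe_le_norm j)
    fun x h => (BoundedContinuousFunction.norm_le (f := x.1.toBCF) (by norm_num)).mpr h

end Pool.Agent.S04089
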