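import Pool.Statements.S04098
import Pool.Agent.H.MP_268976_an.B

set_option autoImplicit false
open Pool Pool.MP_268976_an

namespace Pool.Agent.S04098

open Finset Filter Pool.Agent.H.MP_268976_an

lemma exists_S (x : ℕ →₀ ℂ) : ∃ S, ∀ m, v S ≤ m → x m = 0 := by
  refine ⟨x.support.sup id + 1, fun m hm => ?_⟩
  by_contra h
  have h1 : m ∈ x.support := Finsupp.mem_support_iff.2 h
  have h2 : id m ≤ x.support.sup id := Finset.le_sup h1
  have := le_v (x.support.sup id + 1)
  simp only [id] at h2 this hm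
  omega

lemma tsum_lhs (x : ℕ →₀ ℂ) (N : ℕ) (hN : ∀ m, N ≤ m → x m = 0) (t : ℝ) :
    ∑' k : ℕ, ‖(if k = 0 then (0 : ℂ) else (a (k - 1) : ℂ) * x (k - 1))
      + (b k : ℂ) * x k + (a k : ℂ) * x (k + 1) - (t : ℂ) * x k‖ ^ 2 =
    ∑ k ∈ range (N + 1), (C (fun m => (x m).re) k - t * (x k).re) ^ 2 +
      ∑ k ∈ range (N + 1), (C (fun m => (x m).im) k - t * (x k).im) ^ 2 := by
  rw [tsum_eq_sum (s := range (N + 1)), ← sum_add_distrib]
  · refine sum_congr rfl fun k _ => ?_
    rw [Complex.sq_norm, Complex.normSq_apply]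
    unfold C
    split_ifs <;> simp <;> ring
  · intro k hk
    simp only [mem_range, not_lt] at hk
    rw [hN k (by omega), hN (k + 1) (by omega), hN (k - 1) (by omega)]
    simp

lemma tsum_rhs (x : ℕ →₀ ℂ) (N : ℕ) (hN : ∀ m, N ≤ m → x m = 0) :
    ∑' k : ℕ, ‖x k‖ ^ 2 =
    ∑ k ∈ range (N + 1), (x k).re ^ 2 + ∑ k ∈ range (N + 1), (x k).im ^ 2 := by
  rw [tsum_eq_sum (s := range (N + 1)), ← sum_add_distrib]
  · refine sum_congr rfl fun k _ => ?_
    rw [Complex.sq_norm, Complex.normSq_apply]; ring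
  · intro k hk
    simp only [mem_range, not_lt] at hk
    rw [hN k (by omega)]
    simp

lemma tsum_pos (x : ℕ →₀ ℂ) (hx : x ≠ 0) : 0 < ∑' k : ℕ, ‖x k‖ ^ 2 := by
  obtain ⟨k, hk⟩ : ∃ k, x k ≠ 0 := by
    by_contra h
    push Not at h
    exact hx (Finsupp.ext h)
  have hs : Summable fun k => ‖x k‖ ^ 2 := by
    apply summable_of_ne_finset_zero (s := x.support)
    intro m hm
    rw [Finsupp.notMem_support_iff.1 hm]; simp
  exact hs.tsum_pos (fun _ => by positivity) k (by positivity)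

/-- the set in the statement -/
def SS : Set ℝ := {t : ℝ | ∀ ε : ℝ, 0 < ε → ∀ n : ℕ, ∃ V : Submodule ℂ (ℕ →₀ ℂ),
              Module.finrank ℂ V = n ∧ ∀ x ∈ V,
                ∑' k : ℕ, ‖(if k = 0 then (0 : ℂ) else (a (k - 1) : ℂ) * x (k - 1))
                    + (b k : ℂ) * x k + (a k : ℂ) * x (k + 1) - (t : ℂ) * x k‖ ^ 2
                  ≤ ε ^ 2 * ∑' k : ℕ, ‖x k‖ ^ 2}

lemma not_mem_of_bd (t c : ℝ) (hc : 0 < c)
    (h : ∀ (z : ℕ → ℝ) (S : ℕ), (∀ m, v S ≤ m → z m = 0) →
      c ^ 2 * ∑ k ∈ range (v S + 1), z k ^ 2 ≤ ∑ k ∈ range (v S + 1), (C z k - t * z k) ^ 2) :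
    t ∉ SS := by
  intro ht
  obtain ⟨V, hV, hV'⟩ := ht (c / 2) (by positivity) 1
  have hne : V ≠ ⊥ := by
    intro h0; rw [h0] at hV; simp at hV
  obtain ⟨x, hxV, hx0⟩ := Submodule.exists_mem_ne_zero_of_ne_bot hne
  obtain ⟨S, hS⟩ := exists_S x
  have h1 := hV' x hxV
  have h2 := tsum_pos x hx0
  rw [tsum_lhs x _ hS] at h1
  rw [tsum_rhs x _ hS] at h1 h2
  have h3 := h (fun m => (x m).re) S (fun m hm => by simp [hS m hm])
  have h4 := h (fun m => (x m).im) S (fun m hm => by simp [hS m hm])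
  nlinarith [mul_pos (pow_pos hc 2) h2]

/-- the approximate null vector of block j -/
noncomputable def e (j : ℕ) : ℕ →₀ ℂ :=
  Finsupp.onFinset (range (v (j + 1))) (fun m => if blk m = j then (φ m : ℂ) else 0) (by
    intro m hm
    have : blk m = j := by
      by_contra h
      simp [h] at hm
    rw [mem_range, ← this]
    exact (blk_spec m).2)

lemma e_apply (j m : ℕ) : e j m = if blk m = j then (φ m : ℂ) else 0 := rfl

lemma zero_mem : (0 : ℝ) ∈ SS := by
  intro ε hε n
  obtain ⟨j0, hj0⟩ : ∃ j0, 32 / (K j0 : ℝ) ^ 2 ≤ ε ^ 2 := by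
    have h1 : Tendsto (fun j => (K j : ℝ)) atTop atTop := tendsto_natCast_atTop_atTop.comp K_tendsto
    obtain ⟨j, hj⟩ := (h1.eventually_ge_atTop (32 / ε ^ 2)).exists
    refine ⟨j, ?_⟩
    have hK : (1 : ℝ) ≤ K j := by exact_mod_cast K_pos j
    rw [div_le_iff₀ (by positivity)] at hj ⊢
    have : (K j : ℝ) ≤ (K j : ℝ) ^ 2 := by nlinarith
    nlinarith [pow_pos hε 2]
  have hli : LinearIndependent ℂ (fun i : Fin n => e (j0 + i)) := by
    rw [Fintype.linearIndependent_iff]
    intro g hg i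
    have := congrArg (fun f : ℕ →₀ ℂ => f (pk (j0 + i))) hg
    simp only [Finsupp.coe_finsetSum, Finset.sum_apply, Finsupp.coe_smul, Pi.smul_apply, e_apply,
      blk_pk, φ_pk, smul_eq_mul, Finsupp.coe_zero, Pi.zero_apply] at this
    rw [sum_eq_single i] at this
    · simpa using this
    · intro i' _ hne
      have : j0 + (i : ℕ) ≠ j0 + (i' : ℕ) := by
        intro h; apply hne; ext; omega
      rw [if_neg this, mul_zero]
    · simp
  refine ⟨Submodule.span ℂ (Set.range fun i : Fin n => e (j0 + i)), ?_, ?_⟩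
  · rw [finrank_span_eq_card hli]; simp
  · intro x hx
    have hP : (∀ m, x m = x (pk (blk m)) * φ m) ∧ ∀ m, blk m < j0 → x m = 0 := by
      induction hx using Submodule.span_induction with
      | mem y hy =>
        obtain ⟨i, rfl⟩ := hy
        constructor
        · intro m
          simp only [e_apply, blk_pk, φ_pk]
          split_ifs <;> simp
        · intro m hm
          rw [e_apply, if_neg (by omega)]
      | zero => simp
      | add y z _ _ hy hz =>
        constructor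
        · intro m
          simp only [Finsupp.coe_add, Pi.add_apply]
          rw [hy.1 m, hz.1 m]
          ring
        · intro m hm
          simp [hy.2 m hm, hz.2 m hm]
      | smul c y _ hy =>
        constructor
        · intro m
          simp only [Finsupp.coe_smul, Pi.smul_apply, smul_eq_mul]
          rw [hy.1 m]
          ring
        · intro m hm
          simp [hy.2 m hm]
    obtain ⟨S, hS⟩ := exists_S x
    rw [tsum_lhs x _ hS, tsum_rhs x _ hS]
    have h3 := small (y := fun m => (x m).re) (fun m => by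
      show (x m).re = (x (pk (blk m))).re * φ m
      rw [hP.1 m]; simp) j0 (fun m hm => by simp [hP.2 m hm]) S
      (fun m hm => by simp [hS m hm])
    have h4 := small (y := fun m => (x m).im) (fun m => by
      show (x m).im = (x (pk (blk m))).im * φ m
      rw [hP.1 m]; simp) j0 (fun m hm => by simp [hP.2 m hm]) S
      (fun m hm => by simp [hS m hm])
    have h5 : 0 ≤ ∑ k ∈ range (v S + 1), (x k).re ^ 2 := sum_nonneg fun _ _ => by positivity
    have h6 : 0 ≤ ∑ k ∈ range (v S + 1), (x k).im ^ 2 := sum_nonneg fun _ _ => by positivity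
    simp only [zero_mul, sub_zero]
    nlinarith [mul_le_mul_of_nonneg_right hj0 h5, mul_le_mul_of_nonneg_right hj0 h6]

/-- Counterexample: a factorised Jacobi matrix with sparse domain walls, whose essential spectrum has least point 0 and omits 1/2. -/
theorem result :
    ¬ (∀ (a b : ℕ → ℝ), (∀ n, 0 < a n) →
      Filter.Tendsto b Filter.atTop Filter.atTop →
      Filter.Tendsto (fun n => a n ^ 2 / (b n * b (n + 1))) Filter.atTop (nhds (1 / 4 : ℝ)) →
      (∀ u : ℕ → ℂ, Summable (fun k => ‖u k‖ ^ 2) →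
        (∀ k : ℕ, (if k = 0 then (0 : ℂ) else (a (k - 1) : ℂ) * u (k - 1))
            + (b k : ℂ) * u k + (a k : ℂ) * u (k + 1) = Complex.I * u k) → u = 0) →
      ∀ S : Set ℝ,
        S = {t : ℝ | ∀ ε : ℝ, 0 < ε → ∀ n : ℕ, ∃ V : Submodule ℂ (ℕ →₀ ℂ),
              Module.finrank ℂ V = n ∧ ∀ x ∈ V,
                ∑' k : ℕ, ‖(if k = 0 then (0 : ℂ) else (a (k - 1) : ℂ) * x (k - 1))
                    + (b k : ℂ) * x k + (a k : ℂ) * x (k + 1) - (t : ℂ) * x k‖ ^ 2
                  ≤ ε ^ 2 * ∑' k : ℕ, ‖x k‖ ^ 2} →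
        ∀ ρ : ℝ, IsLeast S ρ → S = Set.Ici ρ) := by
  intro H
  have h1 := H a b a_pos b_tendsto ratio_tendsto deficiency SS rfl 0 ⟨zero_mem, by
    intro t ht
    by_contra hneg
    have hneg : t < 0 := not_le.1 hneg
    refine not_mem_of_bd t (-t) (by linarith) (fun z S hS => ?_) ht
    rw [neg_sq]
    exact neg_bd z _ (hS _ le_rfl) t hneg⟩
  have h2 : (1 / 2 : ℝ) ∈ SS := by rw [h1]; simp
  refine not_mem_of_bd (1 / 2) (1 / 8) (by norm_num) (fun z S hS => ?_) h2
  have := gap z S hS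
  norm_num at this ⊢
  exact this

end Pool.Agent.S04098
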