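import Pool.Statements.S04108

set_option autoImplicit false
open Pool Pool.MP_275f89_an

namespace Pool.Agent.S04108

/-- The negation of the preceding statement: Every commutative, associative, monotone operation on distance distribution functions with identity ε₀ is causal: if F₁≤F₂ and G₁≤G₂ on (−∞,a] with a>0, then τ(F₁,G₁)≤τ(F₂,G₂) on (−∞,a]. -/
theorem result :
    ¬ (∀ D : Set (ℝ → ℝ),
      D = {F : ℝ → ℝ | Monotone F ∧ (∀ x, 0 ≤ F x ∧ F x ≤ 1) ∧ (∀ x : ℝ, x ≤ 0 → F x = 0) ∧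
            ∀ x : ℝ, ContinuousWithinAt F (Set.Iio x) x} →
      ∀ τ : (ℝ → ℝ) → (ℝ → ℝ) → (ℝ → ℝ),
        (∀ F ∈ D, ∀ G ∈ D, τ F G ∈ D) →
        (∀ F ∈ D, ∀ G ∈ D, τ F G = τ G F) →
        (∀ F ∈ D, ∀ G ∈ D, ∀ H ∈ D, τ (τ F G) H = τ F (τ G H)) →
        (∀ F ∈ D, τ F (fun x : ℝ => if 0 < x then (1 : ℝ) else 0) = F) →
        (∀ F₁ ∈ D, ∀ F₂ ∈ D, ∀ G ∈ D, F₁ ≤ F₂ → τ F₁ G ≤ τ F₂ G) →
        ∀ a : ℝ, 0 < a →
          ∀ F₁ ∈ D, ∀ F₂ ∈ D, ∀ G₁ ∈ D, ∀ G₂ ∈ D,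
            (∀ x : ℝ, x ≤ a → F₁ x ≤ F₂ x) →
            (∀ x : ℝ, x ≤ a → G₁ x ≤ G₂ x) →
            ∀ x : ℝ, x ≤ a → τ F₁ G₁ x ≤ τ F₂ G₂ x) := by
  intro h
  classical
  set e : ℝ → ℝ := fun x : ℝ => if 0 < x then (1 : ℝ) else 0 with he
  let D : Set (ℝ → ℝ) := {F : ℝ → ℝ | Monotone F ∧ (∀ x, 0 ≤ F x ∧ F x ≤ 1) ∧
    (∀ x : ℝ, x ≤ 0 → F x = 0) ∧ ∀ x : ℝ, ContinuousWithinAt F (Set.Iio x) x}
  let τ : (ℝ → ℝ) → (ℝ → ℝ) → (ℝ → ℝ) := fun F G =>
    if F = e ∨ G = e ∨ (F 2 = 1 ∧ G 2 = 1) then F ⊓ G else 0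
  have hle : ∀ F ∈ D, F ≤ e := fun F hF x => by
    simp only [he]
    split_ifs with h1
    · exact (hF.2.1 x).2
    · exact (hF.2.2.1 x (not_lt.1 h1)).le
  have h0 : ∀ F ∈ D, 0 ≤ F := fun F hF x => (hF.2.1 x).1
  have e2 : e 2 = 1 := by simp [he]
  have z1 : (0 : ℝ → ℝ) ≠ e := fun h1 => by simpa [e2] using congrFun h1 2
  have zD : (0 : ℝ → ℝ) ∈ D :=
    ⟨monotone_const, fun x => by simp, fun _ _ => rfl, fun _ => continuousWithinAt_const⟩
  have iD : ∀ F ∈ D, ∀ G ∈ D, F ⊓ G ∈ D := fun F hF G hG =>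
    ⟨hF.1.inf hG.1, fun x => ⟨le_min (hF.2.1 x).1 (hG.2.1 x).1, (min_le_left _ _).trans (hF.2.1 x).2⟩,
      fun x hx => by simp [hF.2.2.1 x hx, hG.2.2.1 x hx],
      fun x => (hF.2.2.2 x).inf (hG.2.2.2 x)⟩
  have tD : ∀ F ∈ D, ∀ G ∈ D, τ F G ∈ D := fun F hF G hG => by
    simp only [τ]
    split_ifs
    · exact iD F hF G hG
    · exact zD
  have tc : ∀ F G, τ F G = τ G F := fun F G => by
    simp only [τ]
    rw [inf_comm]
    exact if_congr (by tauto) rfl rfl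
  have te : ∀ F ∈ D, τ F e = F := fun F hF => by
    simp only [τ]
    rw [if_pos (by simp), inf_eq_left.2 (hle F hF)]
  have tz : ∀ F ∈ D, τ F 0 = 0 := fun F hF => by
    simp only [τ]
    rw [inf_eq_right.2 (h0 F hF), ite_self]
  have tl : ∀ F ∈ D, ∀ G ∈ D, τ F G ≤ F ⊓ G := fun F hF G hG => by
    simp only [τ]
    split_ifs
    · exact le_rfl
    · exact h0 _ (iD F hF G hG)
  have t1 : ∀ F G, F 2 = 1 → G 2 = 1 → τ F G = F ⊓ G := fun F G a b => if_pos (by tauto)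
  have t2 : ∀ F G, F ≠ e → G ≠ e → F 2 ≠ 1 → τ F G = 0 := fun F G a b c => if_neg (by tauto)
  have t3 : ∀ F ∈ D, ∀ G ∈ D, G ≠ e → τ F G ≠ e := fun F hF G hG a b =>
    a (le_antisymm (hle G hG) (b ▸ (tl F hF G hG).trans inf_le_right))
  have step : ∀ c : ℝ, 0 ≤ c → (fun x : ℝ => if c < x then (1 : ℝ) else 0) ∈ D := by
    intro c hc
    refine ⟨fun x y hxy => ?_, fun x => ?_, fun x hx => if_neg (by linarith), fun x => ?_⟩
    · dsimp only
      split_ifs with a b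
      · exact le_rfl
      · linarith
      · exact zero_le_one
      · exact le_rfl
    · dsimp only
      split_ifs <;> norm_num
    · by_cases a : c < x
      · refine (continuousWithinAt_const (b := (1 : ℝ))).congr_of_eventuallyEq ?_ (if_pos a)
        filter_upwards [nhdsWithin_le_nhds (lt_mem_nhds a)] with y hy using if_pos hy
      · refine (continuousWithinAt_const (b := (0 : ℝ))).congr (fun y hy => if_neg ?_) (if_neg a)
        have : y < x := hy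
        linarith
  have half : ∀ F ∈ D, ∀ G ∈ D, (fun x => (F x + G x) / 2) ∈ D := fun F hF G hG =>
    ⟨fun x y hxy => by
      have a := hF.1 hxy
      have b := hG.1 hxy
      dsimp only
      linarith, fun x => by
      have a := hF.2.1 x
      have b := hG.2.1 x
      dsimp only
      constructor <;> linarith [a.1, a.2, b.1, b.2],
      fun x hx => by simp [hF.2.2.1 x hx, hG.2.2.1 x hx],
      fun x => ((hF.2.2.2 x).add (hG.2.2.2 x)).div_const 2⟩
  have m1 := half _ (step 0 le_rfl) _ (step 1 zero_le_one)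
  have m2 := half _ (step 0 le_rfl) _ zD
  have key := h D rfl τ tD (fun F _ G _ => tc F G) ?_ te ?_ 1 one_pos _ m1 _ m2 _ m1 _ m2
    (fun x hx => by simp [not_lt.2 hx]) (fun x hx => by simp [not_lt.2 hx]) 1 le_rfl
  · have ne : (fun x : ℝ => ((if 0 < x then (1 : ℝ) else 0) + (0 : ℝ → ℝ) x) / 2) ≠ e := fun h1 => by
      have := congrFun h1 2
      norm_num [he] at this
    rw [t1 _ _ (by norm_num) (by norm_num), t2 _ _ ne ne (by norm_num)] at key
    norm_num at key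
  · intro F hF G hG H hH
    by_cases a : F = e
    · rw [a, tc e G, te G hG, tc e, te _ (tD G hG H hH)]
    by_cases b : G = e
    · rw [b, te F hF, tc e H, te H hH]
    by_cases c : H = e
    · rw [c, te G hG, te _ (tD F hF G hG)]
    by_cases a' : F 2 = 1
    · by_cases b' : G 2 = 1
      · by_cases c' : H 2 = 1
        · rw [t1 F G a' b', t1 G H b' c', t1 _ H (by simp [a', b']) c', t1 F _ a' (by simp [b', c']),
            inf_assoc]
        · rw [tc G H, t2 H G c b c', tz F hF, tc _ H, t2 H _ c (t3 F hF G hG b) c']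
      · rw [t2 G H b c b', tc F G, t2 G F b a b', tz F hF, tc 0 H, tz H hH]
    · rw [t2 F G a b a', tc 0 H, tz H hH, t2 F _ a (t3 G hG H hH c) a']
  · intro F₁ h1 F₂ h2 G hG hF
    by_cases a : F₂ = e ∨ G = e ∨ (F₂ 2 = 1 ∧ G 2 = 1)
    · exact (tl F₁ h1 G hG).trans ((inf_le_inf_right G hF).trans (if_pos a).ge)
    · have b : ¬ (F₁ = e ∨ G = e ∨ (F₁ 2 = 1 ∧ G 2 = 1)) := by
        rintro (b | b | b)
        · exact a (Or.inl (le_antisymm (hle _ h2) (b ▸ hF)))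
        · exact a (Or.inr (Or.inl b))
        · exact a (Or.inr (Or.inr ⟨le_antisymm (h2.2.1 2).2 (b.1 ▸ hF 2), b.2⟩))
      exact (if_neg b).le.trans (h0 _ (tD F₂ h2 G hG))

end Pool.Agent.S04108
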