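import Pool.Statements.S04115
import Pool.Agent.H.MP_281b2c_an.G

set_option autoImplicit false
open Pool Pool.MP_281b2c_an

namespace Pool.Agent.S04115

/-- If f is holomorphic on the unit disk with f(0)=0, f'(0)=1, and for every R>0 the area integral over ∣w∣<R of the number of preimages of w in the disk is at most πR², then ∣f(z)∣ ≤ ∣z∣/(1−∣z∣)² on the disk. -/
theorem result :
    ∀ f : ℂ → ℂ,
      DifferentiableOn ℂ f (Metric.ball (0 : ℂ) 1) →
      f 0 = 0 →
      deriv f 0 = 1 →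
      (∀ R : ℝ, 0 < R →
        (∫⁻ w in Metric.ball (0 : ℂ) R,
            ENat.toENNReal (Set.encard {z : ℂ | z ∈ Metric.ball (0 : ℂ) 1 ∧ f z = w}))
          ≤ ENNReal.ofReal (Real.pi * R ^ 2)) →
      ∀ z ∈ Metric.ball (0 : ℂ) 1, ‖f z‖ ≤ ‖z‖ / (1 - ‖z‖) ^ 2 := by
  intro f hf f0 f1 hA z hz
  exact Pool.Agent.H.MP_281b2c_an.main f hf f0 f1 hA z hz

end Pool.Agent.S04115
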