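import Pool.Statements.S04122
import Pool.Agent.H.MP_28611e_an.D

set_option autoImplicit false
open MeasureTheory Filter Topology
open Pool Pool.MP_28611e_an

namespace Pool.Agent.S04122

/-- The negation of the preceding statement: For 0<γ_k<1/4, if μ is the equilibrium (minimal log-energy, finite) probability measure of the Cantor set K(γ), its Jacobi recurrence coefficients a_n, b_n each differ by o(1) from some Bohr almost periodic sequence. -/
theorem result :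
    ¬ (∀ γ : ℕ → ℝ, (∀ k, 0 < γ k ∧ γ k < 1/4) →
  ∀ μ : Measure ℝ, IsProbabilityMeasure μ →
  μ {x : ℝ | ∃ s : ℕ, 1 < |List.foldl (fun (y : ℝ) (k : ℕ) => if k = 0 then 2 * y * (y - 1) / γ 0 + 1 else (y ^ 2 - 1) / (2 * γ k) + 1) x (List.range s)|} = 0 →
  (∫⁻ x, ∫⁻ y, (if x = y then (⊤ : ENNReal) else ENNReal.ofReal (-Real.log |x - y|)) ∂μ ∂μ) < ⊤ →
  (∀ ν : Measure ℝ, IsProbabilityMeasure ν →
    ν {x : ℝ | ∃ s : ℕ, 1 < |List.foldl (fun (y : ℝ) (k : ℕ) => if k = 0 then 2 * y * (y - 1) / γ 0 + 1 else (y ^ 2 - 1) / (2 * γ k) + 1) x (List.range s)|} = 0 →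
    (∫⁻ x, ∫⁻ y, (if x = y then (⊤ : ENNReal) else ENNReal.ofReal (-Real.log |x - y|)) ∂μ ∂μ)
      ≤ (∫⁻ x, ∫⁻ y, (if x = y then (⊤ : ENNReal) else ENNReal.ofReal (-Real.log |x - y|)) ∂ν ∂ν)) →
  ∀ p : ℕ → Polynomial ℝ, (∀ n, (p n).natDegree = n ∧ 0 < (p n).leadingCoeff) →
  (∀ m n, ∫ x, (p m).eval x * (p n).eval x ∂μ = if m = n then 1 else 0) →
  ∃ c d : ℤ → ℝ,
    (∀ ε : ℝ, 0 < ε → ∃ L : ℕ, ∀ m : ℤ, ∃ τ : ℤ, m ≤ τ ∧ τ ≤ m + L ∧ ∀ n : ℤ, |c (n + τ) - c n| < ε) ∧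
    (∀ ε : ℝ, 0 < ε → ∃ L : ℕ, ∀ m : ℤ, ∃ τ : ℤ, m ≤ τ ∧ τ ≤ m + L ∧ ∀ n : ℤ, |d (n + τ) - d n| < ε) ∧
    Tendsto (fun n : ℕ => (∫ x, x * (p n).eval x * (p (n + 1)).eval x ∂μ) - c n) atTop (𝓝 0) ∧
    Tendsto (fun n : ℕ => (∫ x, x * (p n).eval x * (p n).eval x ∂μ) - d n) atTop (𝓝 0)) := by
  open Pool.Agent.H.MP_28611e_an Pool.Agent.H.MP_7f7d18_an Set Polynomial in
  intro h
  obtain ⟨Y, hY, -, gap⟩ := gapB
  have y1 := fun j => (hY j).1
  obtain ⟨μ, H⟩ := exMs y1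
  have := H.pr
  obtain ⟨p, p1, p2, p3⟩ := H.on y1
  have fo : ∀ (s : ℕ) (x : ℝ), List.foldl (fun (y : ℝ) (k : ℕ) => if k = 0 then
      2 * y * (y - 1) / (1 / (2 * (1 + Y 0))) + 1 else (y ^ 2 - 1) / (2 * (1 / (2 * (1 + Y k)))) + 1)
        x (List.range (s + 1)) = F Y 0 (s + 1) (2 * x - 1) := fun s x => by
    induction s with
    | zero => simp [F, div_eq_mul_inv]; ring
    | succ s ih =>
      rw [List.range_succ, List.foldl_append, ih, F.eq_2 Y 0 _ (s + 1)]
      have := y1 (s + 1)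
      simp only [List.foldl_cons, List.foldl_nil, Nat.succ_ne_zero, if_false, zero_add]
      generalize F Y 0 (s + 1) (2 * x - 1) = w
      field_simp
      ring
  have eK : {x : ℝ | ∃ s : ℕ, 1 < |List.foldl (fun (y : ℝ) (k : ℕ) => if k = 0 then
      2 * y * (y - 1) / (1 / (2 * (1 + Y 0))) + 1 else (y ^ 2 - 1) / (2 * (1 / (2 * (1 + Y k)))) + 1)
        x (List.range s)|} = (fun x => 2 * x - 1) ⁻¹' (K Y 0)ᶜ := by
    ext x
    simp only [mem_ofPred_eq, mem_preimage, mem_compl_iff, K, not_forall, not_le]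
    constructor
    · rintro ⟨_ | s, hs⟩
      · refine ⟨0, ?_⟩
        change 1 < |x| at hs
        change 1 < |2 * x - 1|
        rw [lt_abs] at *
        exact hs.imp (fun a => by linarith) fun a => by linarith
      · exact ⟨_, fo s x ▸ hs⟩
    · rintro ⟨_ | s, hs⟩
      · refine ⟨1, ?_⟩
        rw [fo 0 x]
        change 1 < |2 * x - 1| at hs
        have := (one_lt_sq_iff_one_lt_abs _).2 hs
        exact lt_abs.2 (Or.inl (lt_add_of_pos_right _ (mul_pos (sub_pos.2 this) (by linarith [y1 0]))))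
      · exact ⟨_, (fo s x).symm ▸ hs⟩
  have m1 : Measurable fun x : ℝ => 2 * x - 1 := by fun_prop
  have m2 : Measurable fun x : ℝ => (x + 1) / 2 := by fun_prop
  have en : ∀ ν : Measure ℝ, IsProbabilityMeasure ν → (∫⁻ x, ∫⁻ y, (if x = y then (⊤ : ENNReal)
      else ENNReal.ofReal (-Real.log |x - y|)) ∂ν ∂ν) =
      ∫⁻ x, U 2 (ν.map fun x => 2 * x - 1) x ∂(ν.map fun x => 2 * x - 1) := fun ν _ => by
    rw [lintegral_map (U_meas _ _) m1]
    congr 1; ext x
    rw [U, lintegral_map (k_meas' _ _) m1]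
    congr 1; ext y
    rw [k, show 2 * x - 1 - (2 * y - 1) = 2 * (x - y) by ring, abs_mul, abs_two,
      div_mul_cancel_left₀ two_ne_zero, Real.log_inv]
    simp
  have mm : ((μ 0).map fun x => (x + 1) / 2).map (fun x => 2 * x - 1) = μ 0 := by
    rw [Measure.map_map m1 m2, show ((fun x : ℝ => 2 * x - 1) ∘ fun x => (x + 1) / 2) = id from
      funext fun x => by simp; ring, Measure.map_id]
  have i := Measure.isProbabilityMeasure_map (μ := μ 0) m2.aemeasurable
  have mK := (K_closed (Y := Y) 0).measurableSet.compl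
  obtain ⟨e1, e2⟩ := (H.eqm hY).2.2.2 2 two_pos (by norm_num) fun x hx y hy =>
    (Metric.dist_le_diam_of_mem K_cpt.isBounded hx hy).trans K_diam
  have d1 : (C 2 * X - C 1 : ℝ[X]).natDegree = 1 := by compute_degree!
  have d2 : (C 2 * X - C 1 : ℝ[X]).leadingCoeff = 2 := by rw [leadingCoeff, d1]; simp [coeff_one]
  have ev : ∀ n x, ((p n).comp (C 2 * X - C 1)).eval ((x + 1) / 2) = (p n).eval x := fun n x => by
    rw [eval_comp]; congr 1; simp; ring
  obtain ⟨c, -, c1, -, c2, -⟩ := h (fun k => 1 / (2 * (1 + Y k))) (fun k => by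
      have := y1 k
      exact ⟨by positivity, one_div_lt_one_div_of_lt (by norm_num) (by linarith)⟩) _ i
    (by rw [eK, ← Measure.map_apply m1 mK, mm]; exact H.aeK 0) (by rwa [en _ i, mm])
    (fun ν hν k => by
      rw [en _ i, mm, en _ hν]
      rw [eK, ← Measure.map_apply m1 mK] at k
      exact e2 _ (Measure.isProbabilityMeasure_map m1.aemeasurable) k)
    (fun n => (p n).comp (C 2 * X - C 1)) (fun n => by
      rw [natDegree_comp, leadingCoeff_comp (by omega), d1, d2, mul_one]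
      exact ⟨(p1 n).1, mul_pos (p1 n).2 (by positivity)⟩)
    fun m n => by
      rw [integral_map m2.aemeasurable (Continuous.aestronglyMeasurable (by fun_prop))]
      simpa only [ev] using p2 m n
  refine notAP0 (a := fun n => √(A Y (n + 1) 0) / 2) (δ := 1 / 40) (by norm_num)
    (fun τ h0 M => (gap τ h0 M).imp fun k hk => ⟨hk.1, by linarith [hk.2]⟩) (c := c)
    (fun ε hε => ?_) (c2.congr fun n => ?_)
  · obtain ⟨L, hL⟩ := c1 ε hε
    obtain ⟨τ, t1, -, t2⟩ := hL 1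
    lift τ to ℕ using by omega
    exact ⟨τ, by omega, t2⟩
  · rw [integral_map m2.aemeasurable (Continuous.aestronglyMeasurable (by fun_prop))]
    simp only [ev, div_mul_eq_mul_div, add_mul, one_mul]
    rw [integral_div, integral_add (H.int 0 (by fun_prop)) (H.int 0 (by fun_prop)), p3, p2]
    simp

end Pool.Agent.S04122
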