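import Pool.Statements.S04125
import Pool.Agent.H.MP_288ee9_an.C

set_option autoImplicit false
open MeasureTheory
open Pool Pool.MP_288ee9_an

namespace Pool.Agent.S04125

theorem result :
    ∃ (d : ℕ) (E : Set (EuclideanSpace ℝ (Fin d))),
      0 < d ∧ MeasurableSet E ∧ volume E < ⊤ ∧
      (¬ ∃ B : Set (EuclideanSpace ℝ (Fin d)),
          (∀ b ∈ B, ∀ b' ∈ B, b ≠ b' →
            ∫ x in E, Complex.exp (-2 * (Real.pi : ℂ) * Complex.I * ((inner ℝ x b : ℝ) : ℂ)) *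
              starRingEnd ℂ (Complex.exp (-2 * (Real.pi : ℂ) * Complex.I * ((inner ℝ x b' : ℝ) : ℂ))) = 0) ∧
          (∀ f : EuclideanSpace ℝ (Fin d) → ℂ, MemLp f 2 (volume.restrict E) →
            (∀ b ∈ B, ∫ x in E, f x *
              starRingEnd ℂ (Complex.exp (-2 * (Real.pi : ℂ) * Complex.I * ((inner ℝ x b : ℝ) : ℂ))) = 0) →
            f =ᵐ[volume.restrict E] 0)) ∧
      ∃ S : Set (EuclideanSpace ℝ (Fin d) × EuclideanSpace ℝ (Fin d)),
        (∀ p ∈ S, ∀ q ∈ S, p ≠ q →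
          ∫ x, (E.indicator (fun _ => (1 : ℂ)) (x - p.1) *
                Complex.exp (-2 * (Real.pi : ℂ) * Complex.I * ((inner ℝ x p.2 : ℝ) : ℂ))) *
              starRingEnd ℂ (E.indicator (fun _ => (1 : ℂ)) (x - q.1) *
                Complex.exp (-2 * (Real.pi : ℂ) * Complex.I * ((inner ℝ x q.2 : ℝ) : ℂ))) = 0) ∧
        (∀ f : EuclideanSpace ℝ (Fin d) → ℂ, MemLp f 2 volume →
          (∀ p ∈ S, ∫ x, f x *
              starRingEnd ℂ (E.indicator (fun _ => (1 : ℂ)) (x - p.1) *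
                Complex.exp (-2 * (Real.pi : ℂ) * Complex.I * ((inner ℝ x p.2 : ℝ) : ℂ))) = 0) →
          f =ᵐ[volume] 0) :=
  Pool.Agent.H.MP_288ee9_an.main

end Pool.Agent.S04125
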