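import Pool.Statements.S04134
import Pool.Agent.H.MP_28dc43.A

set_option autoImplicit false
open Pool Pool.MP_28dc43_an

namespace Pool.Agent.S04134

theorem result :
    ¬ (∃ (X : Type) (_ : NormedAddCommGroup X) (_ : NormedSpace ℝ X) (_ : CompleteSpace X),
      (∃ M : Set X, Dense ((Submodule.span ℝ M : Submodule ℝ X) : Set X) ∧
        ∃ c : ℝ, 0 < c ∧ ∀ x : X, ∃ f : X →L[ℝ] ℝ,
          Set.Countable {m ∈ M | f m ≠ 0} ∧ ‖f‖ ≤ 1 ∧ c * ‖x‖ ≤ |f x|) ∧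
      ∃ T : BoundedContinuousFunction (Set.Iic (Cardinal.aleph.{0} 2).ord) ℝ →L[ℝ] X,
        ∃ c : ℝ, 0 < c ∧ ∀ g, c * ‖g‖ ≤ ‖T g‖) := by
  rintro ⟨X, _, _, _, ⟨M, hM, c, hc, hN⟩, T, c', hc', hT⟩
  exact Pool.Agent.H.MP_28dc43.main hM hc hN T hc' hT

end Pool.Agent.S04134
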