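import Pool.Statements.S04150

set_option autoImplicit false
open Pool Pool.MP_299699_an

namespace Pool.Agent.S04150

open scoped InnerProductSpace

/-- real Hilbert space -/
abbrev H : Type := lp (fun _ : ℕ => ℝ) 2
/-- the space, with the maximum norm -/
abbrev X : Type := H × ℝ

lemma decomp (g : X →L[ℝ] ℝ) : ∃ h : H, ∀ x : X, g x = ⟪h, x.1⟫_ℝ + x.2 * g (0, 1) := by
  refine ⟨(InnerProductSpace.toDual ℝ H).symm (g.comp (ContinuousLinearMap.inl ℝ H ℝ)), fun x => ?_⟩
  rw [InnerProductSpace.toDual_symm_apply]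
  have : x = (x.1, 0) + x.2 • ((0, 1) : X) := by ext <;> simp
  conv_lhs => rw [this]
  rw [map_add, map_smul]
  simp

lemma refl : Function.Surjective (NormedSpace.inclusionInDoubleDual ℝ X) := by
  intro F
  let A : H →L[ℝ] (X →L[ℝ] ℝ) :=
    ((ContinuousLinearMap.compL ℝ X H ℝ).flip (ContinuousLinearMap.fst ℝ H ℝ)).comp (innerSL ℝ)
  obtain ⟨a, ha⟩ : ∃ a : H, ∀ h, ⟪a, h⟫_ℝ = F (A h) :=
    ⟨(InnerProductSpace.toDual ℝ H).symm (F.comp A), fun h => by
      rw [InnerProductSpace.toDual_symm_apply]; rfl⟩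
  refine ⟨(a, F (ContinuousLinearMap.snd ℝ H ℝ)), ?_⟩
  ext g
  obtain ⟨h, hh⟩ := decomp g
  have hg : g = A h + g (0, 1) • ContinuousLinearMap.snd ℝ H ℝ := by
    refine ContinuousLinearMap.ext fun x => ?_
    rw [hh x]
    simp [A, mul_comm]
  rw [NormedSpace.dual_def, hh, real_inner_comm, ha]
  conv_rhs => rw [hg]
  rw [map_add, map_smul]
  simp [mul_comm]

/-- the convex set -/
def C : Set X := {x | ‖x.1‖ ≤ 1 ∧ x.2 = 0}

lemma C_closed : IsClosed C :=
  (isClosed_le (continuous_fst.norm) continuous_const).inter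
    (isClosed_eq continuous_snd continuous_const)

lemma C_convex : Convex ℝ C := by
  intro x hx y hy s t hs ht hst
  refine ⟨?_, by simp [hx.2, hy.2]⟩
  simp only [Prod.fst_add, Prod.smul_fst]
  refine (norm_add_le _ _).trans ?_
  rw [norm_smul, norm_smul, Real.norm_of_nonneg hs, Real.norm_of_nonneg ht]
  nlinarith [hx.1, hy.1]

lemma C_wcompact : IsCompact ((toWeakSpace ℝ X) '' C) := by
  have hK := WeakDual.isCompact_closedBall (𝕜 := ℝ) (E := H) 0 1
  let Φ : WeakDual ℝ H → WeakSpace ℝ X := fun φ =>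
    toWeakSpace ℝ X ((InnerProductSpace.toDual ℝ H).symm (WeakDual.toStrongDual φ), 0)
  have hΦ : Continuous Φ := by
    apply WeakBilin.continuous_of_continuous_eval
    intro g
    obtain ⟨h, hh⟩ := decomp g
    have : (fun φ => (topDualPairing ℝ X).flip (Φ φ) g) = fun φ : WeakDual ℝ H => φ h := by
      funext φ
      change g ((InnerProductSpace.toDual ℝ H).symm (WeakDual.toStrongDual φ), 0) = _
      rw [hh, real_inner_comm, InnerProductSpace.toDual_symm_apply]
      simp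
    rw [this]
    exact WeakDual.eval_continuous h
  convert hK.image hΦ using 1
  ext z
  constructor
  · rintro ⟨x, hx, rfl⟩
    refine ⟨StrongDual.toWeakDual (InnerProductSpace.toDual ℝ H x.1), ?_, ?_⟩
    · simpa using hx.1
    · simp only [Φ]
      congr 1
      ext <;> simp [hx.2]
  · rintro ⟨φ, hφ, rfl⟩
    refine ⟨_, ⟨?_, rfl⟩, rfl⟩
    simpa using hφ

lemma dist_C {x y : X} (hx : x ∈ C) (hy : y ∈ C) : dist x y = ‖x.1 - y.1‖ := by
  rw [Prod.dist_eq, hx.2, hy.2, dist_self, dist_eq_norm]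
  exact max_eq_left (norm_nonneg _)

lemma normal (K : Set X) (hK : K ⊆ C) (hc : Convex ℝ K) (h : ∃ a ∈ K, ∃ b ∈ K, a ≠ b) :
    ∃ x ∈ K, ∃ r : ℝ, r < Metric.diam K ∧ ∀ y ∈ K, dist x y ≤ r := by
  obtain ⟨a, ha, b, hb, hab⟩ := h
  have hbd : Bornology.IsBounded K := by
    refine (Metric.isBounded_closedBall (x := (0 : X)) (r := 1)).subset fun x hx => ?_
    rw [mem_closedBall_zero_iff, Prod.norm_def, (hK hx).2]
    simpa using (hK hx).1
  have hm : (1 / 2 : ℝ) • a + (1 / 2 : ℝ) • b ∈ K :=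
    hc ha hb (by norm_num) (by norm_num) (by norm_num)
  have hd : 0 < dist a b := dist_pos.2 hab
  have hD : dist a b ≤ Metric.diam K := Metric.dist_le_diam_of_mem hbd ha hb
  refine ⟨_, hm, Real.sqrt (Metric.diam K ^ 2 - dist a b ^ 2 / 4), ?_, fun y hy => ?_⟩
  · rw [Real.sqrt_lt' (by linarith)]
    nlinarith
  · apply Real.le_sqrt_of_sq_le
    have h1 : dist a y ≤ Metric.diam K := Metric.dist_le_diam_of_mem hbd ha hy
    have h2 : dist b y ≤ Metric.diam K := Metric.dist_le_diam_of_mem hbd hb hy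
    rw [dist_C (hK hm) (hK hy), dist_C (hK ha) (hK hb)]
    rw [dist_C (hK ha) (hK hy)] at h1
    rw [dist_C (hK hb) (hK hy)] at h2
    have hp := parallelogram_law_with_norm ℝ (a.1 - y.1) (b.1 - y.1)
    have e1 : a.1 - y.1 - (b.1 - y.1) = a.1 - b.1 := by abel
    have e2 : ((1 / 2 : ℝ) • a + (1 / 2 : ℝ) • b).1 - y.1 =
        (1 / 2 : ℝ) • (a.1 - y.1 + (b.1 - y.1)) := by
      simp only [Prod.fst_add, Prod.smul_fst]
      module
    rw [e2, norm_smul, Real.norm_of_nonneg (by norm_num)]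
    rw [e1] at hp
    have h3 := norm_nonneg (a.1 - y.1)
    have h4 := norm_nonneg (b.1 - y.1)
    nlinarith [mul_le_mul h1 h1 h3 (h3.trans h1), mul_le_mul h2 h2 h4 (h4.trans h2)]

/-- a separated sequence -/
noncomputable def e (n : ℕ) : X := (lp.single 2 n (1 : ℝ), 1 / ((n : ℝ) + 1))

lemma S_closed : IsClosed (Set.range e) := by
  apply Metric.isClosed_of_pairwise_le_dist (ε := 1) one_pos
  rintro _ ⟨n, rfl⟩ _ ⟨m, rfl⟩ hne
  have hnm : n ≠ m := fun h => hne (by rw [h])
  refine le_trans ?_ (le_max_left _ _ : dist (e n).1 (e m).1 ≤ _)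
  rw [dist_eq_norm]
  have := lp.norm_apply_le_norm (p := 2) (by norm_num) ((e n).1 - (e m).1) n
  simpa [e, lp.single_apply, Pi.single_apply, hnm] using this

/-- Counterexample in the maximum-norm sum of a Hilbert space and a line. -/
theorem result :
    ¬ (∀ (X : Type) [NormedAddCommGroup X] [NormedSpace ℝ X] [CompleteSpace X],
    Function.Surjective (NormedSpace.inclusionInDoubleDual ℝ X) →
    ∀ (C : Set X), IsClosed C → Convex ℝ C → IsCompact ((toWeakSpace ℝ X) '' C) →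
    (∀ K : Set X, K ⊆ C → Convex ℝ K → (∃ a ∈ K, ∃ b ∈ K, a ≠ b) →
        ∃ x ∈ K, ∃ r : ℝ, r < Metric.diam K ∧ ∀ y ∈ K, dist x y ≤ r) →
    ∀ f : X → X, (∀ x ∈ C, ∀ y ∈ C, dist (f x) (f y) ≤ dist x y) →
    IsClosed {z : X | ∃ x ∈ C, z = x - f x}) := by
  intro hH
  have hcl := hH X refl C C_closed C_convex C_wcompact normal
    (fun x => (x.1, Metric.infDist x (Set.range e))) (by
      intro x _ y _
      rw [Prod.dist_eq]
      refine max_le (le_max_left _ _) ?_
      simpa using (Metric.lipschitz_infDist_pt (Set.range e)).dist_le_mul x y)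
  have h0 : (0 : X) ∈ {z : X | ∃ x ∈ C, z = x - (x.1, Metric.infDist x (Set.range e))} := by
    refine hcl.closure_subset (Metric.mem_closure_iff.2 fun ε hε => ?_)
    obtain ⟨n, hn⟩ := exists_nat_one_div_lt hε
    refine ⟨_, ⟨((e n).1, 0), ⟨?_, rfl⟩, rfl⟩, ?_⟩
    · simp [e, lp.norm_single]
    · have h1 : Metric.infDist (((e n).1, 0) : X) (Set.range e) ≤ dist (((e n).1, 0) : X) (e n) :=
        Metric.infDist_le_dist_of_mem ⟨n, rfl⟩
      have h2 : dist (((e n).1, 0) : X) (e n) = 1 / ((n : ℝ) + 1) := by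
        rw [Prod.dist_eq, dist_self, max_eq_right dist_nonneg]
        simp only [e, dist_zero_left, Real.norm_eq_abs]
        exact abs_of_pos (by positivity)
      rw [dist_zero_left, Prod.norm_def]
      simp only [Prod.fst_sub, sub_self, norm_zero, Prod.snd_sub, zero_sub, norm_neg,
        Real.norm_eq_abs, abs_of_nonneg Metric.infDist_nonneg]
      rw [max_eq_right Metric.infDist_nonneg]
      linarith
  obtain ⟨x, hx, hx0⟩ := h0
  have h1 := congrArg Prod.snd hx0
  simp only [Prod.snd_zero, Prod.snd_sub, hx.2, zero_sub, zero_eq_neg] at h1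
  obtain ⟨n, hn⟩ := (S_closed.mem_iff_infDist_zero (Set.range_nonempty e)).2 h1
  have h2 := congrArg Prod.snd hn
  rw [hx.2] at h2
  simp only [e] at h2
  have : (0 : ℝ) < 1 / ((n : ℝ) + 1) := by positivity
  linarith

end Pool.Agent.S04150
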