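import Pool.Statements.S04172
import Pool.Agent.H.MP_15aca8.E

set_option autoImplicit false
open Pool Pool.MP_2b27bc_an

namespace Pool.Agent.S04172

theorem result :
    ¬ (∀ (X : Type) [NormedAddCommGroup X] [NormedSpace ℝ X] [CompleteSpace X],
      (∀ Y : Submodule ℝ X, IsClosed (Y : Set X) →
          TopologicalSpace.SeparableSpace Y →
          TopologicalSpace.SeparableSpace (Y →L[ℝ] ℝ)) →
      ∃ N : X → ℝ, Continuous N ∧
        (∀ x : X, N x = 0 → x = 0) ∧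
        (∀ (c : ℝ) (x : X), N (c • x) = |c| * N x) ∧
        (∀ x y : X, N (x + y) ≤ N x + N y) ∧
        (∀ x : X, x ≠ 0 → DifferentiableAt ℝ N x)) := by
  intro h
  obtain ⟨N, h1, h2, h3, h4, h5⟩ := h C(H.MP_15aca8.KK, ℝ) fun Y _ hY =>
    H.MP_15aca8.asplund OnePoint.infty H.MP_15aca8.count_closed Y hY
  obtain ⟨C, c1, c2⟩ := (Seminorm.of N h4 h3).bound_of_continuous_normedSpace h1
  obtain ⟨a, -, x, x1, -, x2⟩ := H.MP_15aca8.whole (Seminorm.of N h4 h3) c2 c1.le h2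
  refine x2 ⟨fderiv ℝ N x, fun v => (h5 x ?_).hasFDerivAt.hasLineDerivAt v⟩
  rintro rfl
  simp at x1

end Pool.Agent.S04172
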