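import Pool.Statements.S04194
import Pool.Agent.H.MP_2cf295_an.A

set_option autoImplicit false
open Pool Pool.MP_2cf295_an

namespace Pool.Agent.S04194

theorem result :
    ¬ (∀ E : Set ℤ,
    (∀ φ : C(UnitAddCircle, ℂ) → ℂ,
      (∀ f g : C(UnitAddCircle, ℂ),
          (∀ n ∉ E, fourierCoeff (⇑f) n = 0) →
          (∀ n ∉ E, fourierCoeff (⇑g) n = 0) →
          φ (f + g) = φ f + φ g) →
      (∀ (c : ℂ) (f : C(UnitAddCircle, ℂ)),
          (∀ n ∉ E, fourierCoeff (⇑f) n = 0) → φ (c • f) = c * φ f) →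
      (∀ (a : UnitAddCircle) (f : C(UnitAddCircle, ℂ)),
          (∀ n ∉ E, fourierCoeff (⇑f) n = 0) →
          φ (f.comp (ContinuousMap.mk (fun x : UnitAddCircle => x + a)
            (continuous_add_right a))) = φ f) →
      ∃ C : ℝ, ∀ f : C(UnitAddCircle, ℂ),
          (∀ n ∉ E, fourierCoeff (⇑f) n = 0) → ‖φ f‖ ≤ C * ‖f‖)
    ↔
    (∃ C : ℝ, ∀ (s : Finset ℤ) (c : ℤ → ℂ), (↑s ⊆ E) →
        ∑ n ∈ s, ‖c n‖ ≤ C * ‖∑ n ∈ s, c n • (fourier n : C(UnitAddCircle, ℂ))‖)) := by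
  intro h
  refine Pool.Agent.H.MP_2cf295_an.not_sidon ((h {n | Odd n}).1 fun φ _ h2 h3 => ⟨0, fun f hf => ?_⟩)
  have h4 := h3 ((1 / 2 : ℝ) : UnitAddCircle) f hf
  rw [Pool.Agent.H.MP_2cf295_an.half_shift f hf, h2 (-1) f hf] at h4
  have h5 : φ f = 0 := by linear_combination (-1 / 2 : ℂ) * h4
  simp [h5]

end Pool.Agent.S04194
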