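import Pool.Statements.S04200
import Pool.Agent.H.MP_2d1ae5_an.K

set_option autoImplicit false
open MeasureTheory
open Pool Pool.MP_2d1ae5_an

namespace Pool.Agent.S04200

theorem result :
    ¬ (∀ t : ℕ → ℝ, (∀ n, t n ∈ Set.Ioo (-1 : ℝ) 0) → Monotone t →
    Filter.Tendsto t Filter.atTop (nhds 0) →
  ∀ M δ : ℝ, 0 < δ → ∃ C : ℝ,
    ∀ (v : ℝ → EuclideanSpace ℝ (Fin 3) → EuclideanSpace ℝ (Fin 3))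
      (p : ℝ → EuclideanSpace ℝ (Fin 3) → ℝ),
    ContDiffOn ℝ (⊤ : ℕ∞) (Function.uncurry v) (Set.Ioo (-1 : ℝ) 0 ×ˢ Set.univ) →
    ContDiffOn ℝ (⊤ : ℕ∞) (Function.uncurry p) (Set.Ioo (-1 : ℝ) 0 ×ˢ Set.univ) →
    (∀ s ∈ Set.Ioo (-1 : ℝ) 0, ∀ x : EuclideanSpace ℝ (Fin 3),
      deriv (fun τ => v τ x) s + fderiv ℝ (v s) x (v s x)
        - ∑ i : Fin 3, fderiv ℝ (fun y => fderiv ℝ (v s) y (EuclideanSpace.basisFun (Fin 3) ℝ i)) x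
            (EuclideanSpace.basisFun (Fin 3) ℝ i)
        + gradient (p s) x = 0) →
    (∀ s ∈ Set.Ioo (-1 : ℝ) 0, ∀ x : EuclideanSpace ℝ (Fin 3),
      LinearMap.trace ℝ (EuclideanSpace ℝ (Fin 3)) (fderiv ℝ (v s) x).toLinearMap = 0) →
    (∃ K : ℝ, ∀ s ∈ Set.Ioo (-1 : ℝ) 0, ∫⁻ x, ‖v s x‖ₑ ^ 2 ≤ ENNReal.ofReal K) →
    (∫⁻ s in Set.Ioo (-1 : ℝ) 0, ∫⁻ x, ‖fderiv ℝ (v s) x‖ₑ ^ 2) < ⊤ →
    (⨆ n, eLpNorm (v (t n)) 3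
        (volume.restrict (Metric.ball (0 : EuclideanSpace ℝ (Fin 3)) δ))) = ENNReal.ofReal M →
    ∃ r > 0, ∀ (s : ℝ) (x : EuclideanSpace ℝ (Fin 3)),
      s ∈ Set.Ioo (-r) 0 → ‖x‖ < r → ‖v s x‖ ≤ C) := by
  intro h
  obtain ⟨t, h1, h2, h3, h4⟩ := Pool.Agent.H.MP_2d1ae5_an.main
  obtain ⟨C, hC⟩ := h t h1 h2 h3 1 1 one_pos
  obtain ⟨v, p, ⟨a1, a2, a3, a4, a5, a6⟩, a7, a8⟩ := h4 C
  obtain ⟨r, hr, hb⟩ := hC v p a1 a2 a3 a4 a5 a6 a7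
  obtain ⟨n, b1, b2⟩ := (a8.and (h3.eventually (lt_mem_nhds (neg_neg_of_pos hr)))).exists
  exact absurd (hb (t n) 0 ⟨b2, (h1 n).2⟩ (by simpa using hr)) (not_le.2 b1)

end Pool.Agent.S04200
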