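import Pool.Statements.S04202
import Pool.Agent.H.MP_2d5ed4_an.A

set_option autoImplicit false
open Filter Topology
open Pool Pool.MP_2d5ed4_an

namespace Pool.Agent.S04202

theorem result :
    ¬ (∀ (X : Type) [AddCommGroup X] [Module ℂ X] [UniformSpace X] [IsUniformAddGroup X]
      [ContinuousSMul ℂ X] [LocallyConvexSpace ℝ X] [CompleteSpace X]
      [TopologicalSpace.MetrizableSpace X] (T : ℂ → (X →L[ℂ] X)),
      T 0 = ContinuousLinearMap.id ℂ X →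
      (∀ z w : ℂ, T (z + w) = (T z).comp (T w)) →
      (∀ x : X, Continuous (fun z : ℂ => T z x)) →
      (∀ (x : X) (z : ℂ), ∃ v : X,
        Tendsto (fun h : ℂ => h⁻¹ • (T (z + h) x - T z x)) (𝓝[≠] (0 : ℂ)) (𝓝 v)) →
      (∀ z : ℂ, z ≠ 0 → ∃ y : X, Dense (Set.range (fun n : ℕ => (⇑(T z))^[n] y))) →
      ∃ y : X, ∀ z : ℂ, z ≠ 0 → Dense (Set.range (fun n : ℕ => (⇑(T z))^[n] y))) := by
  intro h
  obtain ⟨y, a⟩ := @h H.MP_2d5ed4_an.E _ _ _ _ _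
    (@NormedSpace.toLocallyConvexSpace _ _ NormedSpace.complexToReal) _ _ H.MP_2d5ed4_an.T H.MP_2d5ed4_an.T0 H.MP_2d5ed4_an.Ta
    (fun x => Differentiable.continuous (H.MP_2d5ed4_an.Td x))
    (fun x z => ⟨_, (H.MP_2d5ed4_an.Td x z).hasDerivAt.tendsto_slope_zero⟩) fun _ => H.MP_2d5ed4_an.hyp
  obtain ⟨z, b, c⟩ := H.MP_2d5ed4_an.nc y
  exact c (a z b)

end Pool.Agent.S04202
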