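import Pool.Statements.S04204
-- import your own Pool.Agent.* helpers here

set_option autoImplicit false
open Pool Pool.MP_2d773b_an

namespace Pool.Agent.S04204


noncomputable def G (y : ℝ) : ℝ := Real.sqrt y - Real.sqrt (-y)

lemma G_neg (y : ℝ) : G (-y) = - G y := by simp [G]

lemma abs_G_le (y : ℝ) : |G y| ≤ 1 + |y| := by
  have h1 : Real.sqrt y ≤ 1 + |y| := by
    apply Real.sqrt_le_iff.mpr
    refine ⟨by positivity, ?_⟩
    nlinarith [le_abs_self y, abs_nonneg y]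
  have h2 : Real.sqrt (-y) ≤ 1 + |y| := by
    apply Real.sqrt_le_iff.mpr
    refine ⟨by positivity, ?_⟩
    nlinarith [neg_abs_le y, abs_nonneg y]
  have h3 := Real.sqrt_nonneg y
  have h4 := Real.sqrt_nonneg (-y)
  unfold G
  rw [abs_le]
  constructor <;> linarith

lemma key_ineq (r a D : ℝ) (hr : 0 < r) (ha : r ≤ a) (hD : 0 < D) :
    a / 2 < 4 / r * D + G (a ^ 2 - D) := by
  have ha0 : 0 < a := lt_of_lt_of_le hr ha
  have hK : 0 < 4 / r * D := by positivity
  by_cases h : D ≤ 3 * a ^ 2 / 4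
  · have h1 : a / 2 ≤ Real.sqrt (a ^ 2 - D) := by
      apply Real.le_sqrt_of_sq_le
      nlinarith
    have h2 : Real.sqrt (-(a ^ 2 - D)) = 0 := by
      apply Real.sqrt_eq_zero_of_nonpos
      nlinarith
    unfold G
    rw [h2]
    linarith
  · push Not at h
    set w := Real.sqrt D with hw
    have hw0 : 0 < w := Real.sqrt_pos.mpr hD
    have hw2 : w ^ 2 = D := Real.sq_sqrt hD.le
    have h1 : Real.sqrt (-(a ^ 2 - D)) ≤ w := by
      apply Real.sqrt_le_sqrt
      nlinarith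
    have h2 := Real.sqrt_nonneg (a ^ 2 - D)
    have h3 : a / 2 < w := by
      by_contra hc
      push Not at hc
      nlinarith
    have h4 : 2 * w ≤ 4 / r * D := by
      rw [← hw2, div_mul_eq_mul_div, le_div_iff₀ hr]
      nlinarith
    unfold G
    linarith

abbrev E := EuclideanSpace ℝ (Fin 1)

lemma main (u : ℝ → E → ℝ) (l : E → ℝ) (hl : ∀ x y, l x - ‖y - x‖ ≤ l y)
    (hu : ContinuousOn (fun q : ℝ × E => u q.1 q.2) (Set.Icc (0:ℝ) 1 ×ˢ (Set.univ : Set E)))
    (hT : ∀ x, u 1 x = l x)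
    (hs : ∀ φ : ℝ → E → ℝ, ContDiff ℝ ((⊤ : ℕ∞) : WithTop ℕ∞) (fun q : ℝ × E => φ q.1 q.2) →
        ∀ t0 ∈ Set.Ioo (0:ℝ) 1, ∀ x0 : E,
          IsLocalMin (fun q : ℝ × E => u q.1 q.2 - φ q.1 q.2) (t0, x0) →
            deriv (fun s => φ s x0) t0 + G (u t0 x0) ≤ 0)
    (x1 : E) (hx1 : 0 < l x1) : 1 / 64 ≤ u (1 / 2) x1 := by
  set r := Real.sqrt (l x1 / 4) with hr
  have hr0 : 0 < r := Real.sqrt_pos.mpr (by linarith)
  have hr2 : r ^ 2 = l x1 / 4 := Real.sq_sqrt (by linarith)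
  set ρ := l x1 / 2 with hρ
  have hρ0 : 0 < ρ := by linarith
  set K := 4 / r with hK
  set A : ℝ → ℝ := fun t => (r + (1 - t) / 4) ^ 2 with hA
  set v : ℝ × E → ℝ := fun q => Real.exp (-(K * (1 - q.1))) * (u q.1 q.2 - A q.1) with hv
  set C : Set (ℝ × E) := Set.Icc (1 / 4 : ℝ) 1 ×ˢ Metric.closedBall x1 ρ with hC
  have hCc : IsCompact C := isCompact_Icc.prod (isCompact_closedBall x1 ρ)
  have hCsub : C ⊆ Set.Icc (0:ℝ) 1 ×ˢ (Set.univ : Set E) := by
    intro q hq
    exact ⟨⟨by linarith [hq.1.1], hq.1.2⟩, trivial⟩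
  have hvc : ContinuousOn v C := by
    apply ContinuousOn.mul
    · fun_prop
    · apply ContinuousOn.sub (hu.mono hCsub)
      fun_prop
  obtain ⟨B, hB⟩ := hCc.exists_bound_of_continuousOn hvc
  have hmem : ((1 / 2 : ℝ), x1) ∈ C := ⟨⟨by norm_num, by norm_num⟩, Metric.mem_closedBall_self hρ0.le⟩
  have hB0 : 0 ≤ B := le_trans (norm_nonneg _) (hB _ hmem)
  by_contra hcon
  push Not at hcon
  have hA2 : 1 / 64 ≤ A (1 / 2) := by
    simp only [hA]
    nlinarith
  have hvneg : v (1 / 2, x1) < 0 := by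
    simp only [hv]
    apply mul_neg_of_pos_of_neg (Real.exp_pos _)
    linarith
  set ε := - v (1 / 2, x1) / 2 with hε
  have hε0 : 0 < ε := by linarith
  set M := (B + 1) / ρ ^ 2 with hM
  have hM0 : 0 < M := by positivity
  set N := 4 * B / ε with hN
  have hN0 : 0 ≤ N := by positivity
  set Φ : ℝ × E → ℝ := fun q => v q + M * ‖q.2 - x1‖ ^ 2 + ε * Real.exp (N * (1 / 2 - q.1)) with hΦ
  have hΦc : ContinuousOn Φ C := by
    apply ContinuousOn.add
    · apply ContinuousOn.add hvc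
      fun_prop
    · fun_prop
  obtain ⟨P, hPC, hPmin⟩ := hCc.exists_isMinOn ⟨_, hmem⟩ hΦc
  obtain ⟨t0, x0⟩ := P
  have hΦP : Φ (t0, x0) < 0 := by
    have h1 : Φ (t0, x0) ≤ Φ (1 / 2, x1) := hPmin hmem
    have h2 : Φ (1 / 2, x1) = - ε := by
      simp only [hΦ]
      simp
      linarith
    linarith
  have hexp := Real.exp_pos (N * (1 / 2 - t0))
  have hnn : 0 ≤ M * ‖x0 - x1‖ ^ 2 := by positivity
  have hvB : -B ≤ v (t0, x0) := by
    have := hB _ hPC
    rw [Real.norm_eq_abs, abs_le] at this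
    exact this.1
  have hΦP' : v (t0, x0) + M * ‖x0 - x1‖ ^ 2 + ε * Real.exp (N * (1 / 2 - t0)) < 0 := hΦP
  have hεe : 0 < ε * Real.exp (N * (1 / 2 - t0)) := by positivity
  have hvP : v (t0, x0) < 0 := by linarith
  have hxb : ‖x0 - x1‖ ≤ ρ := by
    have := hPC.2
    rwa [Metric.mem_closedBall, dist_eq_norm] at this
  have ht1 : t0 < 1 := by
    rcases lt_or_eq_of_le hPC.1.2 with h | h
    · exact h
    · exfalso
      simp only at h
      subst h
      have h1 : v (1, x0) = l x0 - r ^ 2 := by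
        simp only [hv, hA]
        simp [hT]
      have h2 := hl x1 x0
      linarith
  have ht2 : 1 / 4 < t0 := by
    rcases lt_or_eq_of_le hPC.1.1 with h | h
    · exact h
    · exfalso
      simp only at h
      subst h
      have h1 : N * (1 / 2 - 1 / 4) + 1 ≤ Real.exp (N * (1 / 2 - 1 / 4)) := Real.add_one_le_exp _
      have h2 : ε * (N * (1 / 2 - 1 / 4)) = B := by
        rw [hN]; field_simp; ring
      nlinarith
  have hxb' : ‖x0 - x1‖ < ρ := by
    rcases lt_or_eq_of_le hxb with h | h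
    · exact h
    · exfalso
      rw [h] at hΦP'
      have : M * ρ ^ 2 = B + 1 := by rw [hM]; field_simp
      linarith
  have hnhds : C ∈ nhds (t0, x0) := by
    apply prod_mem_nhds
    · exact Icc_mem_nhds ht2 ht1
    · apply Metric.closedBall_mem_nhds_of_mem
      rwa [Metric.mem_ball, dist_eq_norm]
  have hloc : IsLocalMin Φ (t0, x0) := hPmin.isLocalMin hnhds
  set c := Φ (t0, x0) with hc
  set φ : ℝ → E → ℝ := fun t x => A t + Real.exp (K * (1 - t)) *
    (c - M * ‖x - x1‖ ^ 2 - ε * Real.exp (N * (1 / 2 - t))) with hφ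
  have hdiff : ∀ q : ℝ × E, u q.1 q.2 - φ q.1 q.2 = Real.exp (K * (1 - q.1)) * (Φ q - c) := by
    intro q
    have h1 : Real.exp (K * (1 - q.1)) * Real.exp (-(K * (1 - q.1))) = 1 := by
      rw [← Real.exp_add]; simp
    simp only [hφ, hΦ, hv]
    linear_combination (-(u q.1 q.2 - A q.1)) * h1
  have hφs : ContDiff ℝ ((⊤ : ℕ∞) : WithTop ℕ∞) (fun q : ℝ × E => φ q.1 q.2) := by
    simp only [hφ, hA]
    have h1 : ContDiff ℝ ((⊤ : ℕ∞) : WithTop ℕ∞) (fun q : ℝ × E => ‖q.2 - x1‖ ^ 2) :=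
      (contDiff_snd.sub contDiff_const).norm_sq ℝ
    fun_prop
  have hmin : IsLocalMin (fun q : ℝ × E => u q.1 q.2 - φ q.1 q.2) (t0, x0) := by
    have h0 : u t0 x0 - φ t0 x0 = 0 := by
      have := hdiff (t0, x0)
      simp only at this
      rw [this, ← hc]; simp
    filter_upwards [hloc] with q hq
    rw [hdiff q, h0]
    apply mul_nonneg (Real.exp_pos _).le
    linarith
  have hres := hs φ hφs t0 ⟨by linarith, ht1⟩ x0 hmin
  set ψ0 := c - M * ‖x0 - x1‖ ^ 2 with hψ0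
  have hder : HasDerivAt (fun s => φ s x0)
      (2 * (r + (1 - t0) / 4) * (-1 / 4) + (Real.exp (K * (1 - t0)) * (K * (-1)) *
        (ψ0 - ε * Real.exp (N * (1 / 2 - t0))) + Real.exp (K * (1 - t0)) *
          (0 - ε * (Real.exp (N * (1 / 2 - t0)) * (N * (-1)))))) t0 := by
    simp only [hφ, hA]
    apply HasDerivAt.add
    · have h1 : HasDerivAt (fun t : ℝ => r + (1 - t) / 4) (-1 / 4) t0 := by
        simpa using (((hasDerivAt_id t0).const_sub 1).div_const 4).const_add r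
      have h2 := h1.fun_pow 2
      simpa using h2
    · apply HasDerivAt.mul
      · apply HasDerivAt.exp
        simpa using ((hasDerivAt_id t0).const_sub 1).const_mul K
      · apply HasDerivAt.sub (hasDerivAt_const _ _)
        apply HasDerivAt.const_mul
        apply HasDerivAt.exp
        exact ((hasDerivAt_id t0).const_sub (1 / 2)).const_mul N
  rw [hder.deriv] at hres
  set a := r + (1 - t0) / 4 with ha
  have hra : r ≤ a := by linarith
  set D := A t0 - u t0 x0 with hD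
  have hvD : v (t0, x0) = ψ0 - ε * Real.exp (N * (1 / 2 - t0)) := by
    have : c = v (t0, x0) + M * ‖x0 - x1‖ ^ 2 + ε * Real.exp (N * (1 / 2 - t0)) := rfl
    linarith
  have hED : Real.exp (K * (1 - t0)) * v (t0, x0) = - D := by
    have h1 : Real.exp (K * (1 - t0)) * Real.exp (-(K * (1 - t0))) = 1 := by
      rw [← Real.exp_add]; simp
    simp only [hv]
    linear_combination (u t0 x0 - A t0) * h1
  have hD0 : 0 < D := by
    have : Real.exp (K * (1 - t0)) * v (t0, x0) < 0 := mul_neg_of_pos_of_neg (Real.exp_pos _) hvP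
    linarith
  have hk := key_ineq r a D hr0 hra hD0
  have hu0 : u t0 x0 = a ^ 2 - D := by
    simp only [hD, hA, ha]; ring
  rw [← hvD, hu0] at hres
  have hpos : 0 ≤ Real.exp (K * (1 - t0)) * (ε * (Real.exp (N * (1 / 2 - t0)) * N)) := by positivity
  have h5 : Real.exp (K * (1 - t0)) * (K * (-1)) * v (t0, x0) = K * D := by
    linear_combination (-K) * hED
  rw [h5] at hres
  nlinarith

theorem result :
    ¬ (∀ (T : ℝ), 0 < T → ∀ (n d : ℕ), 1 ≤ n → 1 ≤ d →
  ∀ (b : ℝ → EuclideanSpace ℝ (Fin n) → EuclideanSpace ℝ (Fin n))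
    (σ : ℝ → EuclideanSpace ℝ (Fin n) → Fin n → Fin d → ℝ)
    (g : ℝ → EuclideanSpace ℝ (Fin n) → ℝ → (Fin d → ℝ) → ℝ)
    (h : EuclideanSpace ℝ (Fin n) → ℝ)
    (K k α p : ℝ),
    ContinuousOn (fun q : ℝ × EuclideanSpace ℝ (Fin n) => b q.1 q.2)
      (Set.Icc (0:ℝ) T ×ˢ (Set.univ : Set (EuclideanSpace ℝ (Fin n)))) →
    ContinuousOn (fun q : ℝ × EuclideanSpace ℝ (Fin n) => σ q.1 q.2)
      (Set.Icc (0:ℝ) T ×ˢ (Set.univ : Set (EuclideanSpace ℝ (Fin n)))) →
    ContinuousOn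
      (fun q : ℝ × EuclideanSpace ℝ (Fin n) × ℝ × (Fin d → ℝ) => g q.1 q.2.1 q.2.2.1 q.2.2.2)
      (Set.Icc (0:ℝ) T ×ˢ (Set.univ : Set (EuclideanSpace ℝ (Fin n) × ℝ × (Fin d → ℝ)))) →
    Continuous h →
    0 < K → 0 ≤ k → 1 < α → α ≤ 2 → 1 ≤ p → p < α / (α - 1) →
    (∀ t ∈ Set.Icc (0:ℝ) T, ∀ x x' : EuclideanSpace ℝ (Fin n),
      ‖b t 0‖ + Real.sqrt (∑ i, ∑ j, (σ t x i j) ^ 2) ≤ K ∧
      ‖b t x - b t x'‖ + Real.sqrt (∑ i, ∑ j, (σ t x i j - σ t x' i j) ^ 2) ≤ K * ‖x - x'‖) →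
    (∀ t ∈ Set.Icc (0:ℝ) T, ∀ (x : EuclideanSpace ℝ (Fin n)) (y : ℝ) (z : Fin d → ℝ),
      Real.sign y * g t x y z
        ≤ k * (1 + ‖x‖ ^ p + |y| + (Real.sqrt (∑ j, z j ^ 2)) ^ α)) →
    (∀ t ∈ Set.Icc (0:ℝ) T, ∀ (x : EuclideanSpace ℝ (Fin n)) (y : ℝ) (z : Fin d → ℝ),
      |g t x y z| + |h x|
        ≤ k * (1 + ‖x‖ ^ p + Real.exp (k * |y| ^ (2 / (α / (α - 1)))) + ∑ j, z j ^ 2)) →
    ∃ u : ℝ → EuclideanSpace ℝ (Fin n) → ℝ,
      ContinuousOn (fun q : ℝ × EuclideanSpace ℝ (Fin n) => u q.1 q.2)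
        (Set.Icc (0:ℝ) T ×ˢ (Set.univ : Set (EuclideanSpace ℝ (Fin n)))) ∧
      (∀ x, u T x = h x) ∧
      ∀ φ : ℝ → EuclideanSpace ℝ (Fin n) → ℝ,
        ContDiff ℝ ((⊤ : ℕ∞) : WithTop ℕ∞)
          (fun q : ℝ × EuclideanSpace ℝ (Fin n) => φ q.1 q.2) →
        ∀ t0 ∈ Set.Ioo (0:ℝ) T, ∀ x0 : EuclideanSpace ℝ (Fin n),
          (IsLocalMin (fun q : ℝ × EuclideanSpace ℝ (Fin n) => u q.1 q.2 - φ q.1 q.2) (t0, x0) →
            deriv (fun s => φ s x0) t0 + fderiv ℝ (φ t0) x0 (b t0 x0)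
              + (1 / 2) * ∑ i, ∑ j, (∑ l, σ t0 x0 i l * σ t0 x0 j l)
                  * fderiv ℝ (fun y => fderiv ℝ (φ t0) y) x0
                      (EuclideanSpace.single i (1:ℝ)) (EuclideanSpace.single j (1:ℝ))
              + g t0 x0 (u t0 x0)
                  (fun j => ∑ i, σ t0 x0 i j * fderiv ℝ (φ t0) x0 (EuclideanSpace.single i (1:ℝ)))
              ≤ 0) ∧
          (IsLocalMax (fun q : ℝ × EuclideanSpace ℝ (Fin n) => u q.1 q.2 - φ q.1 q.2) (t0, x0) →
            0 ≤ deriv (fun s => φ s x0) t0 + fderiv ℝ (φ t0) x0 (b t0 x0)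
              + (1 / 2) * ∑ i, ∑ j, (∑ l, σ t0 x0 i l * σ t0 x0 j l)
                  * fderiv ℝ (fun y => fderiv ℝ (φ t0) y) x0
                      (EuclideanSpace.single i (1:ℝ)) (EuclideanSpace.single j (1:ℝ))
              + g t0 x0 (u t0 x0)
                  (fun j => ∑ i, σ t0 x0 i j * fderiv ℝ (φ t0) x0 (EuclideanSpace.single i (1:ℝ))))) := by
  intro H
  have hn : ∀ x : E, |x 0| ≤ ‖x‖ := fun x => by
    simpa using PiLp.norm_apply_le x 0
  obtain ⟨u, hu, hT, hs⟩ := H 1 one_pos 1 1 le_rfl le_rfl (fun _ _ => 0) (fun _ _ _ _ => 0)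
    (fun _ _ y _ => G y) (fun x => x 0) 1 1 2 1 continuousOn_const continuousOn_const
    (by unfold G; fun_prop) (by fun_prop) one_pos zero_le_one (by norm_num) le_rfl le_rfl (by norm_num)
    (by intro t _ x x'; simp)
    (by
      intro t _ x y z
      have h1 : Real.sign y * G y ≤ |G y| := by
        rcases Real.sign_apply_eq y with h | h | h <;> rw [h]
        · simpa using neg_le_abs (G y)
        · simp
        · simpa using le_abs_self (G y)
      have h2 := abs_G_le y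
      have h3 : 0 ≤ ‖x‖ ^ (1:ℝ) := by positivity
      have h4 : 0 ≤ (Real.sqrt (∑ j, z j ^ 2)) ^ (2:ℝ) := by positivity
      linarith)
    (by
      intro t _ x y z
      have h2 := abs_G_le y
      have h3 := hn x
      have h4 : 0 ≤ ∑ j, z j ^ 2 := by positivity
      have h5 : (2:ℝ) / (2 / (2 - 1)) = 1 := by norm_num
      have h6 := Real.add_one_le_exp |y|
      rw [h5, Real.rpow_one, Real.rpow_one, one_mul, one_mul]
      linarith)
  clear H
  have hA : ∀ x : E, 0 < x 0 → 1 / 64 ≤ u (1 / 2) x := by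
    intro x hx
    refine main u (fun x => x 0) ?_ hu hT ?_ x hx
    · intro x y
      have := hn (y - x)
      simp only [PiLp.sub_apply] at this
      linarith [neg_abs_le (y 0 - x 0)]
    · intro φ hφ t0 ht0 x0 hm
      simpa using (hs φ hφ t0 ht0 x0).1 hm
  have hB : ∀ x : E, x 0 < 0 → 1 / 64 ≤ - u (1 / 2) x := by
    intro x hx
    refine main (fun t x => - u t x) (fun x => - x 0) ?_ hu.neg (fun x => by rw [hT]) ?_ x (by linarith)
    · intro x y
      have := hn (y - x)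
      simp only [PiLp.sub_apply] at this
      linarith [le_abs_self (y 0 - x 0)]
    · intro φ hφ t0 ht0 x0 hm
      have hm' : IsLocalMax (fun q : ℝ × E => u q.1 q.2 - (fun t x => - φ t x) q.1 q.2) (t0, x0) := by
        have := hm.neg
        have e : (fun q : ℝ × E => u q.1 q.2 - (fun t x => - φ t x) q.1 q.2) =
            fun q : ℝ × E => - (- u q.1 q.2 - φ q.1 q.2) := by
          funext q
          ring
        rw [e]
        exact this
      have h1 := (hs (fun t x => - φ t x) hφ.neg t0 ht0 x0).2 hm'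
      have h2 : deriv (fun s => - φ s x0) t0 = - deriv (fun s => φ s x0) t0 := deriv.fun_neg
      rw [h2] at h1
      rw [G_neg]
      simp at h1
      linarith
  set f : ℝ → ℝ := fun τ => u (1 / 2) (EuclideanSpace.single 0 τ) with hf
  have hfc : Continuous f := by
    have h1 : Continuous (fun τ : ℝ => ((1 / 2 : ℝ), (EuclideanSpace.single (0 : Fin 1) τ : E))) := by
      have : (fun τ : ℝ => (EuclideanSpace.single (0 : Fin 1) τ : E)) = fun τ : ℝ => τ • (EuclideanSpace.single (0 : Fin 1) (1:ℝ) : E) := by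
        funext τ
        ext i
        fin_cases i
        simp
      refine continuous_const.prodMk ?_
      have h3 : Continuous (fun τ : ℝ => τ • (EuclideanSpace.single (0 : Fin 1) (1:ℝ) : E)) := by
        fun_prop
      rw [← this] at h3
      exact h3
    exact hu.comp_continuous h1 (fun τ => ⟨⟨by norm_num, by norm_num⟩, trivial⟩)
  have h1 : 1 / 64 ≤ f 0 := by
    have ht : Filter.Tendsto f (nhdsWithin 0 (Set.Ioi 0)) (nhds (f 0)) :=
      hfc.continuousAt.continuousWithinAt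
    refine ge_of_tendsto ht ?_
    filter_upwards [self_mem_nhdsWithin] with τ hτ
    exact hA _ (by simpa using hτ)
  have h2 : f 0 ≤ - (1 / 64) := by
    have ht : Filter.Tendsto f (nhdsWithin 0 (Set.Iio 0)) (nhds (f 0)) :=
      hfc.continuousAt.continuousWithinAt
    refine le_of_tendsto ht ?_
    filter_upwards [self_mem_nhdsWithin] with τ hτ
    have := hB (EuclideanSpace.single 0 τ) (by simpa using hτ)
    simp only [hf]
    linarith
  linarith

end Pool.Agent.S04204
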