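import Pool.Statements.S04216
import Pool.Agent.H.MP_2e654e_an.A

set_option autoImplicit false
open Pool Pool.MP_2e654e_an

namespace Pool.Agent.S04216

open Pool.Agent.H.MP_2e654e_an Complex Filter Topology

noncomputable def h (z : ℂ) : ℂ := cos (z + I) * cos (z - I)

noncomputable def f (z : ℂ) : ℂ := h z * F z

theorem h_diff : Differentiable ℂ h := by unfold h; fun_prop

theorem f_diff : Differentiable ℂ f := h_diff.mul F_diff

theorem h_le (z : ℂ) : ‖h z‖ ≤ Real.exp (2 * |z.im| + 2) := by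
  unfold h
  have h1 := (norm_cos_le_cosh (z + I)).trans (cosh_le_exp_abs _)
  have h2 := (norm_cos_le_cosh (z - I)).trans (cosh_le_exp_abs _)
  rw [norm_mul]
  refine (mul_le_mul h1 h2 (norm_nonneg _) (Real.exp_pos _).le).trans ?_
  rw [← Real.exp_add, Real.exp_le_exp]
  simp only [add_im, sub_im, I_im]
  have a1 := abs_add_le z.im 1
  have a2 := abs_sub z.im 1
  rw [abs_one] at a1 a2
  linarith

theorem f_le (z : ℂ) : ‖f z‖ ≤ Real.exp (2 * z.im ^ 2 + 3) := by
  unfold f
  rw [norm_mul]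
  refine (mul_le_mul (h_le z) (F_le_sq z) (norm_nonneg _) (Real.exp_pos _).le).trans ?_
  rw [← Real.exp_add, Real.exp_le_exp, ← sq_abs]
  nlinarith [sq_nonneg (|z.im| - 1)]

theorem cos_zero_im {u : ℂ} (hu : cos u = 0) : u.im = 0 ∧ ∃ j : ℤ, u.re = (2 * j + 1) * Real.pi / 2 := by
  obtain ⟨j, hj⟩ := Complex.cos_eq_zero_iff.1 hu
  have : u = (((2 * j + 1) * Real.pi / 2 : ℝ) : ℂ) := by push_cast; exact hj
  exact ⟨by rw [this]; exact Complex.ofReal_im _, j, by rw [this]; exact Complex.ofReal_re _⟩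

theorem f_zero (z : ℂ) (hz : f z = 0) : |z.im| < 2 := by
  unfold f h at hz
  rcases mul_eq_zero.1 hz with hz | hz
  · rcases mul_eq_zero.1 hz with hz | hz
    · have := (cos_zero_im hz).1
      simp only [add_im, I_im] at this
      rw [abs_lt]; constructor <;> linarith
    · have := (cos_zero_im hz).1
      simp only [sub_im, I_im] at this
      rw [abs_lt]; constructor <;> linarith
  · rw [F_zero z hz]; norm_num

theorem f_real (x : ℝ) : (f x).im = 0 := by
  have h1 : (h x).im = 0 := by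
    have : cos ((x : ℂ) - I) = (starRingEnd ℂ) (cos (x + I)) := by
      rw [← Complex.cos_conj]; simp [sub_eq_add_neg]
    unfold h
    rw [this, Complex.mul_conj]
    exact Complex.ofReal_im _
  unfold f
  rw [mul_im, h1, F_real]; ring

theorem f_even (z : ℂ) : f (-z) = f z := by
  unfold f h
  rw [F_even]
  have e1 : -z + I = -(z - I) := by ring
  have e2 : -z - I = -(z + I) := by ring
  rw [e1, e2, Complex.cos_neg, Complex.cos_neg]; ring

theorem f_order (ε : ℝ) (hε : 0 < ε) :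
    ∃ R : ℝ, ∀ z : ℂ, R ≤ ‖z‖ → ‖f z‖ ≤ Real.exp (‖z‖ ^ (1 + ε)) := by
  set δ : ℝ := min (ε / 2) 1 with hδ
  have d0 : 0 < δ := lt_min (by linarith) one_pos
  obtain ⟨A, hA, hF⟩ := F_le_pow δ d0 (min_le_right _ _)
  obtain ⟨R, hR⟩ := eventually_atTop.1
    ((tendsto_rpow_atTop d0).eventually (eventually_ge_atTop (A + 4)))
  refine ⟨max R 1, fun z hz => ?_⟩
  have h1 : 1 ≤ ‖z‖ := (le_max_right _ _).trans hz
  have h2 := hR ‖z‖ ((le_max_left _ _).trans hz)
  unfold f
  rw [norm_mul]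
  refine (mul_le_mul (h_le z) (hF z) (norm_nonneg _) (Real.exp_pos _).le).trans ?_
  rw [← Real.exp_add, Real.exp_le_exp]
  have h3 : ‖z‖ ^ (1 + δ + δ) ≤ ‖z‖ ^ (1 + ε) :=
    Real.rpow_le_rpow_of_exponent_le h1 (by have := min_le_left (ε / 2) 1; linarith)
  rw [Real.rpow_add (by linarith), Real.rpow_add (by linarith), Real.rpow_one] at h3
  have h4 : |z.im| ≤ ‖z‖ := Complex.abs_im_le_norm z
  set t := ‖z‖ ^ δ
  have h5 : ‖z‖ ≤ ‖z‖ * t := by nlinarith
  have h6 : (‖z‖ * t) * (A + 4) ≤ ‖z‖ * t * t :=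
    mul_le_mul_of_nonneg_left h2 (by nlinarith)
  nlinarith

theorem f_type (C R₀ : ℝ) : ∃ z : ℂ, R₀ ≤ ‖z‖ ∧ Real.exp (C * ‖z‖) < ‖f z‖ := by
  obtain ⟨N, hN⟩ := exists_nat_ge (C + 1)
  set S : ℝ := ∑ k ∈ Finset.range N, (R k : ℝ)
  set y : ℝ := max (max R₀ 0) (S + 1)
  have y0 : 0 ≤ y := (le_max_right _ _).trans (le_max_left _ _)
  have y1 : R₀ ≤ y := (le_max_left _ _).trans (le_max_left _ _)
  have y2 : S + 1 ≤ y := le_max_right _ _
  have hn : ‖(y : ℂ) * I‖ = y := by simp [abs_of_nonneg y0]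
  refine ⟨y * I, by rw [hn]; exact y1, ?_⟩
  have h1 : 1 ≤ ‖h (y * I)‖ := by
    unfold h
    have e1 : (y : ℂ) * I + I = ((y + 1 : ℝ) : ℂ) * I := by push_cast; ring
    have e2 : (y : ℂ) * I - I = ((y - 1 : ℝ) : ℂ) * I := by push_cast; ring
    rw [e1, e2, Complex.cos_mul_I, Complex.cos_mul_I, ← Complex.ofReal_cosh,
      ← Complex.ofReal_cosh, norm_mul, Complex.norm_real, Complex.norm_real, Real.norm_eq_abs,
      Real.norm_eq_abs, abs_of_pos (Real.cosh_pos _), abs_of_pos (Real.cosh_pos _)]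
    exact one_le_mul_of_one_le_of_one_le (Real.one_le_cosh _) (Real.one_le_cosh _)
  have h2 := F_ge_im N y
  unfold f
  rw [hn, norm_mul]
  have h3 : Real.exp (C * y) < Real.exp (N * y - S) := Real.exp_lt_exp.2 (by nlinarith)
  nlinarith [norm_nonneg (F (y * I))]

theorem deriv_le (k : ℕ) (z : ℂ) (hz : |z.im| < 2) :
    ‖iteratedDeriv (2 * k) f z‖ ≤ Real.exp 19 * (k.factorial * (2 * Real.exp 4) ^ k) := by
  rcases Nat.eq_zero_or_pos k with rfl | hk
  · simp only [mul_zero, iteratedDeriv_zero, Nat.factorial_zero, Nat.cast_one, pow_zero, mul_one]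
    refine (f_le z).trans (Real.exp_le_exp.2 ?_)
    rw [← sq_abs]; nlinarith [abs_nonneg z.im]
  have hk' : (0 : ℝ) < k := by exact_mod_cast hk
  have hs : 0 < Real.sqrt k := Real.sqrt_pos.2 hk'
  have h1 := Complex.norm_iteratedDeriv_le_of_forall_mem_sphere_norm_le (c := z)
    (C := Real.exp (19 + k * 4)) (f := f) (2 * k) hs f_diff.diffContOnCl (by
      intro w hw
      refine (f_le w).trans (Real.exp_le_exp.2 ?_)
      have a1 : ‖w - z‖ = Real.sqrt k := by simpa [dist_eq_norm] using hw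
      have a2 : |(w - z).im| ≤ Real.sqrt k := a1 ▸ Complex.abs_im_le_norm _
      have a3 : |w.im| ≤ 2 + Real.sqrt k := by
        have : w.im = z.im + (w - z).im := by simp
        rw [this]; linarith [abs_add_le z.im (w - z).im]
      have a4 := Real.sq_sqrt hk'.le
      rw [← sq_abs]
      nlinarith [abs_nonneg w.im, sq_nonneg (Real.sqrt k - 2)])
  refine h1.trans ?_
  rw [pow_mul, Real.sq_sqrt hk'.le, div_le_iff₀ (by positivity), Real.exp_add, Real.exp_nat_mul]
  have h2 : (2 * k).factorial ≤ k.factorial * (2 * k) ^ k := by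
    rw [two_mul, ← Nat.factorial_mul_ascFactorial]
    exact Nat.mul_le_mul_left _ (Nat.ascFactorial_le_pow_add k k)
  have h3 : ((2 * k).factorial : ℝ) ≤ k.factorial * (2 * k) ^ k := by exact_mod_cast h2
  calc ((2 * k).factorial : ℝ) * (Real.exp 19 * Real.exp 4 ^ k)
      ≤ (k.factorial * (2 * k) ^ k) * (Real.exp 19 * Real.exp 4 ^ k) :=
        mul_le_mul_of_nonneg_right h3 (by positivity)
    _ = _ := by rw [mul_pow, mul_pow]; ring

noncomputable def T (lam : ℝ) (k : ℕ) (z : ℂ) : ℂ :=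
  (-(lam : ℂ)) ^ k / ((Nat.factorial k : ℕ) : ℂ) * iteratedDeriv (2 * k) f z

theorem T_le (lam : ℝ) (hl : 0 < lam) (k : ℕ) (z : ℂ) (hz : |z.im| < 2) :
    ‖T lam k z‖ ≤ Real.exp 19 * (lam * (2 * Real.exp 4)) ^ k := by
  unfold T
  rw [norm_mul, norm_div, norm_pow, norm_neg, Complex.norm_real, Complex.norm_natCast,
    Real.norm_eq_abs, abs_of_pos hl]
  have hf : (0 : ℝ) < k.factorial := by exact_mod_cast k.factorial_pos
  refine (mul_le_mul_of_nonneg_left (deriv_le k z hz) (by positivity)).trans (le_of_eq ?_)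
  rw [mul_pow lam]; field_simp

theorem T_diff (lam : ℝ) (k : ℕ) : Differentiable ℂ (T lam k) := by
  unfold T
  refine Differentiable.const_mul ?_ _
  exact (f_diff.contDiff (n := ((2 * k + 1 : ℕ) : WithTop ℕ∞))).differentiable_iteratedDeriv _
    (by exact_mod_cast Nat.lt_succ_self _)

theorem min_mod (g : ℂ → ℂ) (U : Set ℂ) (hg : DifferentiableOn ℂ g U) (z : ℂ) (r m : ℝ)
    (hr : 0 < r) (hm : 0 < m) (hU : Metric.closedBall z r ⊆ U)
    (h1 : ∀ w ∈ Metric.sphere z r, m ≤ ‖g w‖) (h2 : ‖g z‖ < m) :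
    ∃ w ∈ Metric.closedBall z r, g w = 0 := by
  by_contra hc
  push Not at hc
  have hd : DifferentiableOn ℂ (fun w => (g w)⁻¹) (Metric.closedBall z r) :=
    (hg.mono hU).inv hc
  have h3 := Complex.norm_le_of_forall_mem_frontier_norm_le (U := Metric.ball z r)
    (f := fun w => (g w)⁻¹) (C := m⁻¹) Metric.isBounded_ball
    (by
      refine DifferentiableOn.diffContOnCl ?_
      rwa [closure_ball z hr.ne'])
    (by
      intro w hw
      rw [frontier_ball z hr.ne'] at hw
      rw [norm_inv]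
      exact inv_anti₀ hm (h1 w hw)) (z := z) (subset_closure (Metric.mem_ball_self hr))
  rw [norm_inv] at h3
  have h4 : 0 < ‖g z‖ := norm_pos_iff.2 (hc z (Metric.mem_closedBall_self hr.le))
  have := (inv_le_inv₀ h4 hm).1 h3
  linarith

noncomputable def z0 : ℂ := Real.pi / 2 + I

theorem h_per (w : ℂ) (n : ℕ) : h (w + n * (2 * Real.pi)) = h w := by
  unfold h
  have e1 : w + n * (2 * Real.pi) + I = w + I + n * (2 * Real.pi) := by ring
  have e2 : w + n * (2 * Real.pi) - I = w - I + n * (2 * Real.pi) := by ring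
  rw [e1, e2, Complex.cos_add_nat_mul_two_pi, Complex.cos_add_nat_mul_two_pi]

theorem h_z0 : h z0 = 0 := by
  unfold h z0
  simp

theorem z0_im : z0.im = 1 := by simp [z0]
theorem z0_re : z0.re = Real.pi / 2 := by simp [z0]

theorem h_min : ∃ m : ℝ, 0 < m ∧ ∀ w ∈ Metric.sphere z0 (1 / 2), m ≤ ‖h w‖ := by
  obtain ⟨w0, hw0, hmin⟩ := (isCompact_sphere z0 (1 / 2)).exists_isMinOn
    ⟨z0 + 1 / 2, by simp⟩ h_diff.continuous.norm.continuousOn
  refine ⟨‖h w0‖, norm_pos_iff.2 ?_, fun w hw => hmin hw⟩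
  have a1 : ‖w0 - z0‖ = 1 / 2 := by simpa [dist_eq_norm] using hw0
  have a2 : |(w0 - z0).im| ≤ 1 / 2 := a1 ▸ Complex.abs_im_le_norm _
  have a3 : |(w0 - z0).re| ≤ 1 / 2 := a1 ▸ Complex.abs_re_le_norm _
  rw [sub_im, z0_im, abs_le] at a2
  rw [sub_re, z0_re, abs_le] at a3
  intro h0
  unfold h at h0
  rcases mul_eq_zero.1 h0 with h0 | h0
  · have := (cos_zero_im h0).1
    simp only [add_im, I_im] at this
    linarith [a2.1]
  · obtain ⟨b1, j, b2⟩ := cos_zero_im h0
    simp only [sub_im, I_im, sub_re, I_re, sub_zero] at b1 b2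
    have hj : j = 0 := by
      have p3 := Real.pi_gt_three
      have c1 : (j : ℝ) < 1 := by
        by_contra hh
        push Not at hh
        nlinarith [a3.2]
      have c2 : (-1 : ℝ) < j := by
        by_contra hh
        push Not at hh
        nlinarith [a3.1]
      have c3 : j < 1 := by exact_mod_cast c1
      have c4 : -1 < j := by exact_mod_cast c2
      omega
    have : w0 - z0 = 0 := by
      apply Complex.ext
      · rw [sub_re, z0_re, b2, hj]; simp
      · rw [sub_im, z0_im]; simpa using b1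
    rw [this] at a1
    norm_num at a1

theorem result :
    ¬ (∀ f : ℂ → ℂ, Differentiable ℂ f →
      (∀ x : ℝ, (f (x : ℂ)).im = 0) →
      (∀ z : ℂ, f (-z) = f z) →
      (∀ ε : ℝ, 0 < ε → ∃ R : ℝ, ∀ z : ℂ, R ≤ ‖z‖ → ‖f z‖ ≤ Real.exp (‖z‖ ^ (1 + ε))) →
      (∀ C R : ℝ, ∃ z : ℂ, R ≤ ‖z‖ ∧ Real.exp (C * ‖z‖) < ‖f z‖) →
      ∀ Δ : ℝ, 0 < Δ → (∀ z : ℂ, f z = 0 → |z.im| < Δ) →
      ∀ lam : ℝ, 0 < lam →
      ∀ g : ℂ → ℂ,
        (∀ z : ℂ, g z = ∑' k : ℕ,
          (-(lam : ℂ)) ^ k / ((Nat.factorial k : ℕ) : ℂ) * iteratedDeriv (2 * k) f z) →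
        {z : ℂ | g z = 0 ∧ (z.im ≠ 0 ∨ deriv g z = 0)}.Finite) := by
  intro H
  obtain ⟨m, hm, hmin⟩ := h_min
  set q : ℝ := min (1 / 2) (m / (16 * Real.exp 19)) with hq
  have q0 : 0 < q := lt_min (by norm_num) (by positivity)
  have q1 : q ≤ 1 / 2 := min_le_left _ _
  have q2 : Real.exp 19 * q ≤ m / 16 := by
    have := mul_le_mul_of_nonneg_left (min_le_right (1 / 2) (m / (16 * Real.exp 19)))
      (Real.exp_pos 19).le
    refine this.trans (le_of_eq ?_)
    field_simp
  set lam : ℝ := q / (2 * Real.exp 4) with hlam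
  have l0 : 0 < lam := by positivity
  have hT : ∀ k z, |z.im| < 2 → ‖T lam k z‖ ≤ Real.exp 19 * q ^ k := by
    intro k z hz
    have := T_le lam l0 k z hz
    rwa [show lam * (2 * Real.exp 4) = q by rw [hlam]; field_simp] at this
  have hs : Summable fun k : ℕ => Real.exp 19 * q ^ k :=
    (summable_geometric_of_lt_one q0.le (by linarith)).mul_left _
  set g : ℂ → ℂ := fun z => ∑' k, T lam k z with hg
  have hfin := H f f_diff f_real f_even f_order f_type 2 (by norm_num) f_zero lam l0 g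
    (fun z => rfl)
  have hU : IsOpen {z : ℂ | |z.im| < 2} :=
    isOpen_lt (continuous_abs.comp Complex.continuous_im) continuous_const
  have gd : DifferentiableOn ℂ g {z : ℂ | |z.im| < 2} :=
    Complex.differentiableOn_tsum_of_summable_norm hs
      (fun k => (T_diff lam k).differentiableOn) hU (fun k w hw => hT k w hw)
  have close : ∀ z : ℂ, |z.im| < 2 → ‖g z - f z‖ ≤ m / 8 := by
    intro z hz
    have s1 : Summable fun k => T lam k z := Summable.of_norm_bounded hs fun k => hT k z hz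
    have e : g z - f z = ∑' k, T lam (k + 1) z := by
      have := s1.tsum_eq_zero_add
      simp only [hg, this]
      simp [T]
    rw [e]
    have s2 : HasSum (fun k : ℕ => Real.exp 19 * q * (1 / 2) ^ k) (Real.exp 19 * q * 2) :=
      hasSum_geometric_two.mul_left _
    refine (tsum_of_norm_bounded s2 fun k => (hT _ z hz).trans ?_).trans (by linarith)
    rw [pow_succ', ← mul_assoc]
    exact mul_le_mul_of_nonneg_left (pow_le_pow_left₀ q0.le q1 k) (by positivity)
  have zeros : ∀ K : ℕ, ∃ w : ℂ, g w = 0 ∧ w.im ≠ 0 ∧ (K : ℝ) ≤ w.re := by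
    intro K
    set a : ℂ := R K * (2 * Real.pi) with ha
    have a_im : a.im = 0 := by simp [ha]
    have a_re : a.re = R K * (2 * Real.pi) := by simp [ha]
    have strip : ∀ w ∈ Metric.closedBall (z0 + a) (1 / 2),
        1 / 2 ≤ w.im ∧ w.im ≤ 3 / 2 ∧ (R K : ℝ) * (2 * Real.pi) ≤ w.re := by
      intro w hw
      have a1 : ‖w - (z0 + a)‖ ≤ 1 / 2 := by simpa [dist_eq_norm] using hw
      have a2 := (Complex.abs_im_le_norm _).trans a1
      have a3 := (Complex.abs_re_le_norm _).trans a1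
      rw [sub_im, add_im, z0_im, a_im, abs_le] at a2
      rw [sub_re, add_re, z0_re, a_re, abs_le] at a3
      have := Real.pi_gt_three
      exact ⟨by linarith [a2.1], by linarith [a2.2], by linarith [a3.1]⟩
    have strip2 : Metric.closedBall (z0 + a) (1 / 2) ⊆ {z : ℂ | |z.im| < 2} := by
      intro w hw
      obtain ⟨b1, b2, -⟩ := strip w hw
      show |w.im| < 2
      rw [abs_lt]; constructor <;> linarith
    obtain ⟨w, hw, hw0⟩ := min_mod g _ gd (z0 + a) (1 / 2) (m / 4) (by norm_num)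
      (by positivity) strip2 (by
        intro w hw
        have b1 := close w (strip2 (Metric.sphere_subset_closedBall hw))
        have b2 : w - a ∈ Metric.sphere z0 (1 / 2) := by
          rw [mem_sphere_iff_norm] at hw ⊢
          rw [← hw]; congr 1; ring
        have b3 := hmin _ b2
        have b4 : ‖w - a‖ ≤ 5 := by
          have c1 : ‖w - a - z0‖ = 1 / 2 := mem_sphere_iff_norm.1 b2
          have c2 : ‖z0‖ ≤ 3 := by
            refine (Complex.norm_le_abs_re_add_abs_im _).trans ?_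
            rw [z0_re, z0_im, abs_of_pos (by positivity), abs_one]
            linarith [Real.pi_lt_four]
          have c3 := norm_add_le (w - a - z0) z0
          rw [sub_add_cancel] at c3
          linarith
        have b5 := F_near K _ b4
        have b6 := h_per (w - a) (R K)
        rw [← ha, sub_add_cancel] at b5 b6
        have b7 : m / 2 ≤ ‖f w‖ := by
          unfold f
          rw [norm_mul, b6]
          nlinarith [norm_nonneg (h (w - a))]
        have b8 := norm_sub_le (g w) (g w - f w)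
        rw [sub_sub_cancel] at b8
        linarith) (by
        have b1 := close _ (strip2 (Metric.mem_closedBall_self (by norm_num)))
        have b2 : f (z0 + a) = 0 := by
          unfold f
          rw [ha, h_per, h_z0, zero_mul]
        rw [b2, sub_zero] at b1
        linarith)
    obtain ⟨b1, -, b3⟩ := strip w hw
    refine ⟨w, hw0, by linarith, le_trans ?_ b3⟩
    have c1 := R_ge' K
    have c2 : (K : ℝ) ≤ 2 ^ K := by exact_mod_cast (Nat.lt_two_pow_self (n := K)).le
    have c3 : (0 : ℝ) ≤ 2 ^ K := by positivity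
    nlinarith [Real.pi_gt_three]
  obtain ⟨B, hB⟩ := (hfin.image Complex.re).bddAbove
  obtain ⟨K, hK⟩ := exists_nat_gt B
  obtain ⟨w, h1, h2, h3⟩ := zeros K
  have := hB ⟨w, ⟨h1, Or.inl h2⟩, rfl⟩
  linarith

end Pool.Agent.S04216
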