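import Pool.Statements.S04217
-- import your own Pool.Agent.* helpers here
import Pool.Agent.H.MP_2e8a17_an.B

set_option autoImplicit false
open Filter Topology
open Pool Pool.MP_2e8a17_an

namespace Pool.Agent.S04217

theorem result :
    ∀ g : ℂ → EReal, Measurable g →
      ∃ a : ℕ → ℂ, (∃ C : ℝ, ∀ n : ℕ, ‖a n‖ ≤ C) ∧
        ∀ᵐ θ : ℝ,
          (∀ x : ℝ, g (Complex.exp ((θ : ℂ) * Complex.I)) = (x : EReal) →
            Tendsto
              (fun r : ℝ => ∑' n : ℕ, a n * ((r : ℂ) * Complex.exp ((θ : ℂ) * Complex.I)) ^ n)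
              (nhdsWithin (1 : ℝ) (Set.Iio 1)) (nhds (x : ℂ))) ∧
          (g (Complex.exp ((θ : ℂ) * Complex.I)) = ⊤ →
            Tendsto
              (fun r : ℝ => ‖∑' n : ℕ, a n * ((r : ℂ) * Complex.exp ((θ : ℂ) * Complex.I)) ^ n‖)
              (nhdsWithin (1 : ℝ) (Set.Iio 1)) atTop ∧
            Tendsto
              (fun r : ℝ => (∑' n : ℕ, a n * ((r : ℂ) * Complex.exp ((θ : ℂ) * Complex.I)) ^ n) /
                ((‖∑' n : ℕ, a n * ((r : ℂ) * Complex.exp ((θ : ℂ) * Complex.I)) ^ n‖ : ℝ) : ℂ))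
              (nhdsWithin (1 : ℝ) (Set.Iio 1)) (nhds (1 : ℂ))) ∧
          (g (Complex.exp ((θ : ℂ) * Complex.I)) = ⊥ →
            Tendsto
              (fun r : ℝ => ‖∑' n : ℕ, a n * ((r : ℂ) * Complex.exp ((θ : ℂ) * Complex.I)) ^ n‖)
              (nhdsWithin (1 : ℝ) (Set.Iio 1)) atTop ∧
            Tendsto
              (fun r : ℝ => (∑' n : ℕ, a n * ((r : ℂ) * Complex.exp ((θ : ℂ) * Complex.I)) ^ n) /
                ((‖∑' n : ℕ, a n * ((r : ℂ) * Complex.exp ((θ : ℂ) * Complex.I)) ^ n‖ : ℝ) : ℂ))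
              (nhdsWithin (1 : ℝ) (Set.Iio 1)) (nhds (-1 : ℂ))) := by
  intro g hg
  obtain ⟨a, a1, a2⟩ := Pool.Agent.H.MP_2e8a17_an.main
    (fun k t => (Pool.Agent.H.MP_2e8a17_an.cl k (g (Pool.Agent.H.MP_f44585_an.ee t)) : ℝ))
    (fun k => Complex.measurable_ofReal.comp (measurable_const.max (measurable_const.min
      (hg.comp Pool.Agent.H.MP_0447a2_lc.ee_cont.measurable))).ereal_toReal)
    fun k t => by simpa using Pool.Agent.H.MP_2e8a17_an.cl_le k _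
  refine ⟨a, ⟨2, a1⟩, (Pool.Agent.H.MP_2e8a17_an.per (p := fun z => ∀ K, ∀ᶠ r : ℝ in 𝓝[<] 1,
    ∃ k, K ≤ k ∧ ‖∑' n, a n * (r * z) ^ n - (Pool.Agent.H.MP_2e8a17_an.cl k (g z) : ℝ)‖ ≤
      6 * ‖((Pool.Agent.H.MP_2e8a17_an.cl (k + 1) (g z) : ℝ) : ℂ) -
        (Pool.Agent.H.MP_2e8a17_an.cl k (g z) : ℝ)‖ + 10 * (1 / 2) ^ k) a2).mono fun θ h => ?_⟩
  have p1 : ∀ k : ℕ, (1 / 2 : ℝ) ^ k ≤ 1 := fun k => pow_le_one₀ (by norm_num) (by norm_num)
  refine ⟨fun x hx => Metric.tendsto_nhds.mpr fun ε hε => ?_,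
    fun hx => Pool.Agent.H.MP_2e8a17_an.inf (by simp) fun K => (h K).mono fun r ⟨k, k1, k2⟩ =>
      ⟨k, k1, ?_⟩,
    fun hx => Pool.Agent.H.MP_2e8a17_an.inf (by simp) fun K => (h K).mono fun r ⟨k, k1, k2⟩ =>
      ⟨k, k1, ?_⟩⟩
  · obtain ⟨n, hn⟩ := exists_pow_lt_of_lt_one (by positivity : 0 < ε / 10) (y := 1 / 2) (by norm_num)
    obtain ⟨m, hm⟩ := exists_nat_ge |x|
    filter_upwards [h (max n m)] with r ⟨k, k1, k2⟩
    have e : ∀ j : ℕ, m ≤ j → Pool.Agent.H.MP_2e8a17_an.cl j x = x := fun j hj => by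
      have := abs_le.mp (hm.trans (Nat.cast_le.mpr hj))
      rw [Pool.Agent.H.MP_2e8a17_an.cl_coe, min_eq_right this.2, max_eq_right this.1]
    rw [hx, e k (by omega), e (k + 1) (by omega), sub_self, norm_zero] at k2
    have := pow_le_pow_of_le_one (a := (1 / 2 : ℝ)) (by norm_num) (by norm_num)
      ((le_max_left n m).trans k1)
    rw [dist_eq_norm]
    linarith
  · simp only [hx, Pool.Agent.H.MP_2e8a17_an.cl_top] at k2
    push_cast at k2
    rw [add_sub_cancel_left, norm_one] at k2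
    rw [one_mul]
    linarith [p1 k]
  · simp only [hx, Pool.Agent.H.MP_2e8a17_an.cl_bot] at k2
    push_cast at k2
    rw [show -((k : ℂ) + 1) - -k = -1 by ring, norm_neg, norm_one] at k2
    rw [neg_one_mul]
    linarith [p1 k]

end Pool.Agent.S04217
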