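import Pool.Statements.S04226
-- import your own Pool.Agent.* helpers here

set_option autoImplicit false
open Pool Pool.MP_2eee10_an

namespace Pool.Agent.S04226

noncomputable def F (a b c : ℝ) : ℝ := (2808 * c + 2847 * a) / (4621 * c + 889 * b + 145 * a)

def S (x : ℕ → ℝ) : Prop := (∀ n, 0 < x n) ∧ ∀ n, x (n + 3) = F (x n) (x (n + 1)) (x (n + 2))

noncomputable def sol (y : ℕ → ℝ) : ℕ → ℝ
  | 0 => y 0
  | 1 => y 1
  | 2 => y 2
  | n + 3 => F (sol y n) (sol y (n + 1)) (sol y (n + 2))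

lemma contr {a b c e : ℝ} (he : e ≤ 1 / 100) (ha : |a - 1| ≤ e) (hb : |b - 1| ≤ e)
    (hc : |c - 1| ≤ e) : |F a b c - 1| ≤ 97 / 100 * e := by
  rw [abs_le] at ha hb hc
  have hd : 0 < 4621 * c + 889 * b + 145 * a := by linarith [ha.1, hb.1, hc.1]
  have he0 : 0 ≤ e := by linarith [ha.1, ha.2]
  have h1 : 5598 * e ≤ (4621 * c + 889 * b + 145 * a) * e :=
    mul_le_mul_of_nonneg_right (by linarith [ha.1, hb.1, hc.1]) he0
  rw [F, div_sub_one hd.ne', abs_div, abs_of_pos hd, div_le_iff₀ hd, abs_le]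
  constructor <;> nlinarith [ha.1, hb.1, hc.1, ha.2, hb.2, hc.2]

lemma ind3 {P : ℕ → Prop} (h0 : P 0) (h1 : P 1) (h2 : P 2)
    (h : ∀ n, P n → P (n + 1) → P (n + 2) → P (n + 3)) (n : ℕ) : P n := by
  have : ∀ n, P n ∧ P (n + 1) ∧ P (n + 2) := by
    intro n
    induction n with
    | zero => exact ⟨h0, h1, h2⟩
    | succ n ih => exact ⟨ih.2.1, ih.2.2, h n ih.1 ih.2.1 ih.2.2⟩
  exact (this n).1

noncomputable def per (n : ℕ) : ℝ := if n % 3 = 0 then 6 else if n % 3 = 1 then 2 / 3 else 1 / 3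

theorem result :
    ¬ (∀ (k : ℕ), 1 ≤ k → ∀ (α A : ℝ) (β B : Fin k → ℝ), 0 ≤ α → 0 ≤ A →
    (∀ j, 0 ≤ β j) → (∀ j, 0 ≤ B j) →
    ∀ S : (ℕ → ℝ) → Prop,
      (∀ x : ℕ → ℝ, S x ↔ ((∀ n, 0 < x n) ∧
        ∀ n : ℕ, k ≤ n →
          (0 < A + ∑ j : Fin k, B j * x (n - 1 - (j : ℕ)) ∧
           x n = (α + ∑ j : Fin k, β j * x (n - 1 - (j : ℕ))) /
                 (A + ∑ j : Fin k, B j * x (n - 1 - (j : ℕ)))))) →
      (∀ y : ℕ → ℝ, (∀ i : ℕ, i < k → 0 < y i) →
        ∃ x : ℕ → ℝ, S x ∧ ∀ i : ℕ, i < k → x i = y i) →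
      (∀ x : ℕ → ℝ, S x → ∃ M : ℝ, ∀ n, x n ≤ M) →
      ∀ xbar : ℝ, 0 ≤ xbar →
        xbar * (A + ∑ j : Fin k, B j * xbar) = α + ∑ j : Fin k, β j * xbar →
        (∀ ε : ℝ, 0 < ε → ∃ δ : ℝ, 0 < δ ∧ ∀ x : ℕ → ℝ, S x →
          (∀ i : ℕ, i < k → |x i - xbar| < δ) → ∀ n : ℕ, k ≤ n → |x n - xbar| < ε) →
        (∃ γ : ℝ, 0 < γ ∧ ∀ x : ℕ → ℝ, S x →
          (∀ i : ℕ, i < k → |x i - xbar| < γ) →
          Filter.Tendsto x Filter.atTop (nhds xbar)) →
        ∀ x : ℕ → ℝ, S x → Filter.Tendsto x Filter.atTop (nhds xbar)) := by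
  intro H
  have h := H 3 (by norm_num) 0 0 ![2808, 0, 2847] ![4621, 889, 145] le_rfl le_rfl
    (fun j => by fin_cases j <;> simp) (fun j => by fin_cases j <;> simp) S ?_ ?_ ?_ 1 zero_le_one
    (by simp [Fin.sum_univ_three]; norm_num) ?_ ?_ per ?_
  · have h2 := h.comp (Filter.tendsto_atTop_mono (f := id) (g := fun n : ℕ => 3 * n)
      (fun n => by simp only [id]; omega) Filter.tendsto_id)
    have h3 : per ∘ (fun n : ℕ => 3 * n) = fun _ => 6 := by
      funext n; simp [per]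
    rw [h3] at h2
    have := tendsto_nhds_unique h2 tendsto_const_nhds
    norm_num at this
  · intro x
    constructor
    · rintro ⟨h1, h2⟩
      refine ⟨h1, fun n hn => ?_⟩
      obtain ⟨m, rfl⟩ : ∃ m, n = m + 3 := ⟨n - 3, by omega⟩
      have := h1 m
      have := h1 (m + 1)
      have := h1 (m + 2)
      simp [Fin.sum_univ_three, h2, F]
      positivity
    · rintro ⟨h1, h2⟩
      refine ⟨h1, fun n => ?_⟩
      have := (h2 (n + 3) (by omega)).2
      simpa [Fin.sum_univ_three, F] using this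
  · intro y hy
    refine ⟨sol y, ⟨ind3 (hy 0 (by norm_num)) (hy 1 (by norm_num)) (hy 2 (by norm_num)) ?_,
      fun n => by rw [sol]⟩, fun i hi => by interval_cases i <;> rfl⟩
    intro n h0 h1 h2
    rw [sol, F]
    positivity
  · rintro x ⟨h1, h2⟩
    have := h1 0
    have := h1 1
    have := h1 2
    refine ⟨x 0 + x 1 + x 2 + 20, ind3 (by linarith) (by linarith) (by linarith) ?_⟩
    intro n _ _ _
    have := h1 n
    have := h1 (n + 1)
    have := h1 (n + 2)
    have : x (n + 3) ≤ 20 := by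
      rw [h2, F, div_le_iff₀ (by positivity)]; linarith
    linarith
  · intro ε hε
    refine ⟨min (ε / 2) (1 / 100), by positivity, fun x hx hi n _ => ?_⟩
    have : |x n - 1| ≤ min (ε / 2) (1 / 100) := by
      refine ind3 (P := fun n => |x n - 1| ≤ min (ε / 2) (1 / 100)) (hi 0 (by norm_num)).le
        (hi 1 (by norm_num)).le (hi 2 (by norm_num)).le (fun n h0 h1 h2 => ?_) n
      have := contr (min_le_right _ _) h0 h1 h2
      have h3 : 0 ≤ min (ε / 2) (1 / 100) := by positivity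
      rw [hx.2]; linarith
    linarith [min_le_left (ε / 2) (1 / 100)]
  · refine ⟨98 / 10000, by norm_num, fun x hx hi => ?_⟩
    have : ∀ n, |x n - 1| ≤ 1 / 100 * (99 / 100) ^ n := by
      refine ind3 ?_ ?_ ?_ fun n h0 h1 h2 => ?_
      · linarith [hi 0 (by norm_num)]
      · linarith [hi 1 (by norm_num)]
      · linarith [hi 2 (by norm_num)]
      · have hp : (0:ℝ) < (99 / 100) ^ n := by positivity
        have hq : ((99:ℝ) / 100) ^ n ≤ 1 := pow_le_one₀ (by norm_num) (by norm_num)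
        rw [pow_succ] at h1
        rw [pow_succ, pow_succ] at h2
        have := contr (e := 1 / 100 * (99 / 100) ^ n) (by linarith) h0 (h1.trans (by linarith))
          (h2.trans (by linarith))
        rw [hx.2, pow_succ, pow_succ, pow_succ]; linarith
    rw [tendsto_iff_norm_sub_tendsto_zero]
    refine squeeze_zero (fun n => norm_nonneg _) this ?_
    have h5 := (tendsto_pow_atTop_nhds_zero_of_lt_one (r := (99 / 100 : ℝ)) (by norm_num)
      (by norm_num)).const_mul (1 / 100)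
    rwa [mul_zero] at h5
  · refine ⟨fun n => by unfold per; split_ifs <;> norm_num, fun n => ?_⟩
    have : n % 3 = 0 ∨ n % 3 = 1 ∨ n % 3 = 2 := by omega
    rcases this with h | h | h <;> simp [per, F, Nat.add_mod, h] <;> norm_num

end Pool.Agent.S04226
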