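import Pool.Statements.S04229
import Pool.Agent.H.MP_cf3d36_an.B

set_option autoImplicit false
open Pool Pool.MP_2f01a7_an Pool.Agent.H.MP_cf3d36_an

namespace Pool.Agent.S04229

theorem result :
    ∃ T : C(ℕ → Bool, ℝ) ≃L[ℝ] C(unitInterval, ℝ),
      ∀ f : C(ℕ → Bool, ℝ), (∀ x, 0 ≤ f x) → ∀ y, 0 ≤ (T f) y := by
  have := unc
  exact (main unitInterval).2

end Pool.Agent.S04229
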