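import Pool.Statements.S04248
import Pool.Agent.H.MP_3070fc_an.B

set_option autoImplicit false
open Pool Pool.MP_3070fc_an

namespace Pool.Agent.S04248

/-- The negation of the preceding statement: Every faithful C^∞ circle action of a finitely generated group with an exceptional minimal set can be joined, by a C^∞-continuous path of faithful C^∞ actions, to a minimal action, with each intermediate action before the endpoint having an exceptional minimal set. -/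
theorem result :
    ¬ (∀ (G : Type) [Group G] [Group.FG G] (φ₀ : G → Circle → Circle),
    (φ₀ 1 = id ∧ (∀ g h : G, φ₀ (g * h) = φ₀ g ∘ φ₀ h) ∧ Function.Injective φ₀ ∧
      ∀ (g : G) (k : ℕ), ContDiff ℝ (k : WithTop ℕ∞) (fun θ : ℝ => (φ₀ g (Circle.exp θ) : ℂ))) →
    (∃ K : Set Circle, IsClosed K ∧ K.Nonempty ∧ (∀ g : G, φ₀ g '' K ⊆ K) ∧
      (∀ L : Set Circle, L ⊆ K → IsClosed L → L.Nonempty → (∀ g : G, φ₀ g '' L ⊆ L) → L = K) ∧
      K.Infinite ∧ K ≠ Set.univ) →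
    ∃ φ : ℝ → G → Circle → Circle, φ 0 = φ₀ ∧
      (∀ t ∈ Set.Icc (0:ℝ) 1, φ t 1 = id ∧ (∀ g h : G, φ t (g * h) = φ t g ∘ φ t h) ∧
        Function.Injective (φ t) ∧
        ∀ (g : G) (k : ℕ), ContDiff ℝ (k : WithTop ℕ∞) (fun θ : ℝ => (φ t g (Circle.exp θ) : ℂ))) ∧
      (∀ (g : G) (k : ℕ), ∀ t₀ ∈ Set.Icc (0:ℝ) 1, ∀ ε > (0:ℝ), ∃ δ > (0:ℝ),
        ∀ t ∈ Set.Icc (0:ℝ) 1, |t - t₀| < δ → ∀ θ : ℝ,
          ‖iteratedDeriv k (fun s : ℝ => (φ t g (Circle.exp s) : ℂ)) θ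
            - iteratedDeriv k (fun s : ℝ => (φ t₀ g (Circle.exp s) : ℂ)) θ‖ < ε) ∧
      (∀ t ∈ Set.Ico (0:ℝ) 1, ∃ K : Set Circle, IsClosed K ∧ K.Nonempty ∧
        (∀ g : G, φ t g '' K ⊆ K) ∧
        (∀ L : Set Circle, L ⊆ K → IsClosed L → L.Nonempty → (∀ g : G, φ t g '' L ⊆ L) → L = K) ∧
        K.Infinite ∧ K ≠ Set.univ) ∧
      (∀ x : Circle, Dense {y : Circle | ∃ g : G, φ 1 g x = y})) := by
  intro h
  obtain ⟨G, hG, hD, ⟨K, k1, k2, k3, k4, k5⟩, z, hz, t, ht, h1, h2⟩ := Pool.Agent.H.MP_3070fc_an.ex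
  obtain ⟨φ, -, h3, -, -, h4⟩ := h G (fun g => g.1)
    ⟨rfl, fun _ _ => rfl, fun _ _ e => Subtype.ext (Equiv.ext (congrFun e)),
      fun g => Pool.Agent.H.MP_3070fc_an.D_sm (hD g.2)⟩
    ⟨K, k1, k2, fun g => k3 g.1 g.2, fun L a b c d => k4 L a b c fun g hg => d ⟨g, hg⟩, k5⟩
  obtain ⟨a, b, c, d⟩ := h3 1 (by simp)
  exact h2 (congrArg Subtype.val (Pool.Agent.H.MP_3070fc_an.nomin (φ 1) a b c
    (fun g => Pool.Agent.H.MP_3070fc_an.cont_of (d g 0).continuous) h4 ⟨z, hz⟩ ⟨t, ht⟩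
    fun g h => Subtype.ext (h1 g.1 g.2 h.1 h.2)))

end Pool.Agent.S04248
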