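import Pool.Statements.S04252

set_option autoImplicit false
open Filter Topology
open Pool Pool.MP_309e42_an

namespace Pool.Agent.S04252

open FormalMultilinearSeries Nat

noncomputable def c (n : ℕ) : ℂ := (-1) ^ n / (2 * n + 1)!

lemma c0 (n : ℕ) : c n ≠ 0 := by
  have : ((2 * n + 1)! : ℂ) ≠ 0 := by exact_mod_cast factorial_ne_zero _
  simp [c, this]

lemma rad : (ofScalars ℂ c).radius = ⊤ := by
  refine radius_eq_top_of_summable_norm _ fun r => ?_
  refine (Real.summable_pow_div_factorial r).of_nonneg_of_le (fun _ => by positivity) fun n => ?_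
  rw [ofScalars_norm, div_eq_inv_mul]
  gcongr
  simp only [c, norm_div, norm_pow, norm_neg, norm_one, one_pow, Complex.norm_natCast, one_div]
  gcongr
  omega

noncomputable def f : ℂ → ℂ := ofScalarsSum c

lemma ps : HasFPowerSeriesOnBall f (ofScalars ℂ c) 0 ⊤ :=
  rad ▸ (ofScalars ℂ c).hasFPowerSeriesOnBall (by simp [rad])

lemma fd : Differentiable ℂ f := fun z => (ps.analyticAt_of_mem (by simp)).differentiableAt

lemma it (n : ℕ) : iteratedDeriv n f 0 ≠ 0 := by
  rw [iteratedDeriv, ← ps.factorial_smul, ofScalars_apply_eq]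
  simp [c0, factorial_ne_zero]

lemma fs (w : ℂ) : f (w ^ 2) * w = Complex.sin w := by
  rw [f, ofScalars_sum_eq, Complex.sin_eq_tsum, ← tsum_mul_right]
  congr 1; ext n
  rw [c, smul_eq_mul, ← pow_mul]; ring

lemma sb (w : ℂ) : ‖Complex.sin w‖ ≤ Real.exp ‖w‖ := by
  have a := (Complex.norm_exp_le_exp_norm (-w * Complex.I))
  have b := (Complex.norm_exp_le_exp_norm (w * Complex.I))
  have := norm_sub_le (Complex.exp (-w * Complex.I)) (Complex.exp (w * Complex.I))
  rw [Complex.sin]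
  simp only [norm_mul, norm_neg, Complex.norm_I, mul_one, norm_div, Complex.norm_ofNat] at *
  linarith

lemma cd {t : ℝ} (ht : 0 ≤ t) : Nat.card {n : ℕ // iteratedDeriv n f 0 ≠ 0 ∧ (n : ℝ) ≤ t} = ⌊t⌋₊ + 1 := by
  rw [← Nat.card_fin (⌊t⌋₊ + 1)]
  refine Nat.card_congr ((Equiv.subtypeEquivRight fun n => ?_).trans Fin.equivSubtype.symm)
  simp [it, Nat.lt_succ_iff, Nat.le_floor_iff ht]

theorem result :
    ¬ (∀ f : ℂ → ℂ, Differentiable ℂ f → (∃ z w : ℂ, f z ≠ f w) →
    ∀ ρ Δ : ℝ,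
      (∀ ε : ℝ, 0 < ε → ∀ᶠ r : ℝ in atTop, ∀ z : ℂ, ‖z‖ = r →
          ‖f z‖ ≤ Real.exp (r ^ (ρ + ε))) →
      Tendsto (fun ξ : ℝ => Filter.limsup (fun t : ℝ =>
          (((Nat.card {n : ℕ // iteratedDeriv n f 0 ≠ 0 ∧ (n : ℝ) ≤ t} : ℕ) : ℝ) -
            ((Nat.card {n : ℕ // iteratedDeriv n f 0 ≠ 0 ∧ (n : ℝ) ≤ ξ * t} : ℕ) : ℝ)) /
            ((1 - ξ) * t)) atTop)
        (𝓝[<] (1 : ℝ)) (𝓝 Δ) →
      ρ * Δ < 1 →
      ¬ ∃ a : ℂ, ∃ γ : ℝ → ℂ, Continuous γ ∧
          Tendsto (fun t : ℝ => ‖γ t‖) atTop atTop ∧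
          Tendsto (fun t : ℝ => f (γ t)) atTop (𝓝 a)) := by
  intro H
  refine H f fd ⟨0, (Real.pi : ℂ) ^ 2, ?_⟩ (1 / 2) 1 (fun ε hε => ?_) ?_ (by norm_num)
    ⟨0, fun t => (t : ℂ) ^ 2, by fun_prop, ?_, ?_⟩
  · have := fs Real.pi
    rw [Complex.sin_pi, _root_.mul_eq_zero] at this
    rw [this.resolve_right (by simp [Real.pi_ne_zero])]
    simpa using it 0
  · filter_upwards [eventually_ge_atTop 1] with r hr z hz
    obtain ⟨w, rfl⟩ := IsAlgClosed.exists_pow_nat_eq z two_pos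
    rw [norm_pow] at hz
    have w1 : 1 ≤ ‖w‖ := by nlinarith [norm_nonneg w]
    have := sb w
    rw [← fs, norm_mul] at this
    refine ((le_mul_of_one_le_right (norm_nonneg _) w1).trans this).trans (Real.exp_le_exp.2 ?_)
    rw [← hz, ← Real.rpow_natCast, ← Real.rpow_mul (norm_nonneg _)]
    exact Real.self_le_rpow_of_one_le w1 (by push_cast; linarith)
  · refine tendsto_const_nhds.congr' ?_
    filter_upwards [Ioo_mem_nhdsLT (zero_lt_one (α := ℝ))] with ξ hξ
    refine (Tendsto.limsup_eq ?_).symm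
    have d : 1 - ξ ≠ 0 := (sub_pos.2 hξ.2).ne'
    have := ((tendsto_nat_floor_div_atTop (R := ℝ)).sub
      (tendsto_nat_floor_mul_div_atTop hξ.1.le)).div_const (1 - ξ)
    rw [div_self d] at this
    refine this.congr' ?_
    filter_upwards [eventually_gt_atTop 0] with t ht
    rw [cd ht.le, cd (mul_pos hξ.1 ht).le]
    push_cast
    field_simp
    ring
  · simpa using tendsto_pow_atTop (α := ℝ) two_ne_zero
  · refine squeeze_zero_norm' ?_ tendsto_inv_atTop_zero
    filter_upwards [eventually_gt_atTop 0] with t ht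
    have := congrArg norm (fs t)
    rw [norm_mul, ← Complex.ofReal_sin, Complex.norm_real, Complex.norm_real, Real.norm_of_nonneg ht.le] at this
    rw [inv_eq_one_div, le_div_iff₀ ht, this]
    exact Real.abs_sin_le_one t

end Pool.Agent.S04252
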