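import Pool.Statements.S04269
import Pool.Agent.H.MP_321233_an.Ker

set_option autoImplicit false
open Pool Pool.MP_321233_an

namespace Pool.Agent.S04269

theorem result :
    ∃ Λ : ℕ → ℂ, Function.Injective Λ ∧ (∀ n, ‖Λ n‖ < 1) ∧
      (∃ ζ : ℂ, ‖ζ‖ = 1 ∧ ζ ∉ closure (Set.range Λ)) ∧
      ∀ f : ℕ → ℂ, Summable (fun n => ‖f n‖ ^ 2) →
        ∃ c : ℕ → ℂ, Filter.Tendsto
          (fun N : ℕ => ∑' n : ℕ,
            ‖f n - ∑ k ∈ Finset.range N, c k * (starRingEnd ℂ (Λ k)) ^ n‖ ^ 2)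
          Filter.atTop (nhds 0) := by
  obtain ⟨Λ, h1, h2, h3, h4⟩ := Pool.Agent.H.MP_321233_an.main
  refine ⟨Λ, h1, h2, ⟨-1, by simp, fun h => ?_⟩, h4⟩
  have h5 : IsClosed (insert 1 (Set.range Λ)) := h3.isCompact_insert_range.isClosed
  rcases closure_minimal (Set.subset_insert _ _) h5 h with h6 | ⟨n, hn⟩
  · norm_num at h6
  · have := h2 n
    rw [hn] at this
    simp at this

end Pool.Agent.S04269
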