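import Pool.Statements.S04274
-- import your own Pool.Agent.* helpers here
import Pool.Agent.H.MP_32357e_an.A

set_option autoImplicit false
open Pool Pool.MP_32357e_an

namespace Pool.Agent.S04274

theorem result :
    ¬ (∀ f F : ℂ → ℂ,
      AnalyticOnNhd ℂ f (Metric.ball (0:ℂ) 1) →
      Set.InjOn f (Metric.ball (0:ℂ) 1) →
      F 0 = 0 →
      (∀ z ∈ Metric.ball (0:ℂ) 1, HasDerivAt F (f z) z) →
      ∃ C : ℝ, ∀ z ∈ Metric.ball (0:ℂ) 1,
        (1 - ‖z‖ ^ 2) * ‖f z‖ / (1 + ‖F z‖ ^ 2) ≤ C) := by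
  intro h
  have h1 : DifferentiableOn ℂ Pool.Agent.H.MP_32357e_an.FF (Metric.ball 0 1) := fun z hz =>
    (Pool.Agent.H.MP_32357e_an.FF_der hz).differentiableAt.differentiableWithinAt
  obtain ⟨C, hC⟩ := h Pool.Agent.H.MP_32357e_an.ff Pool.Agent.H.MP_32357e_an.FF
    (((h1.deriv Metric.isOpen_ball).congr fun z hz =>
      (Pool.Agent.H.MP_32357e_an.FF_der hz).deriv.symm).analyticOnNhd Metric.isOpen_ball)
    Pool.Agent.H.MP_32357e_an.ff_inj (by simp [Pool.Agent.H.MP_32357e_an.FF])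
    fun z hz => Pool.Agent.H.MP_32357e_an.FF_der hz
  obtain ⟨n, hn⟩ := exists_nat_gt (10 * C)
  obtain ⟨z, h2, h3, h4⟩ := Pool.Agent.H.MP_32357e_an.pts n
  have := hC z h2
  rw [h3, norm_zero, zero_pow two_ne_zero, add_zero, div_one] at this
  linarith

end Pool.Agent.S04274
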