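import Pool.Statements.S04282
import Pool.Agent.H.MP_d2b9e5.B

set_option autoImplicit false
open Pool Pool.MP_32963f_an

namespace Pool.Agent.S04282

theorem result :
    ¬ (∀ (K : Type) [TopologicalSpace K] [CompactSpace K] [T2Space K],
      (∀ s : Set K, s.Nonempty → ∃ x ∈ s, ∃ U : Set K, IsOpen U ∧ U ∩ s = {x}) →
      (∃ (I : Type) (x : I → C(K, ℝ)) (f : I → (C(K, ℝ) →L[ℝ] ℝ)),
        (∀ i j : I, i = j → f i (x j) = 1) ∧
        (∀ i j : I, i ≠ j → f i (x j) = 0) ∧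
        Dense (Submodule.span ℝ (Set.range x) : Set C(K, ℝ)) ∧
        (∀ y : C(K, ℝ), (∀ i, f i y = 0) → y = 0) ∧
        ∃ c : ℝ, 0 < c ∧ ∀ y : C(K, ℝ),
          ∃ g ∈ Submodule.span ℝ (Set.range f), ‖g‖ ≤ 1 ∧ c * ‖y‖ ≤ |g y|) →
      ∃ (E : Type) (_ : NormedAddCommGroup E) (_ : NormedSpace ℝ E) (_ : CompleteSpace E),
        ∃ S : Set (WeakSpace ℝ E), IsCompact S ∧ Nonempty (K ≃ₜ S)) := by
  intro H
  obtain ⟨F, hF, hc⟩ := Pool.Agent.H.MP_d2b9e5.exF Pool.Agent.H.MP_d2b9e5.Om2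
  have hinf : Infinite Pool.Agent.H.MP_d2b9e5.Om := by
    by_contra hn
    have := not_infinite_iff_finite.1 hn
    exact Pool.Agent.H.MP_d2b9e5.Om1 Set.countable_univ
  obtain ⟨I, x, f, h1, h2, h3, h4⟩ := hF.mb
  obtain ⟨E, _, _, _, S, -, ⟨e⟩⟩ := H _ (hF.sc hc) ⟨I, x, f, h1, h2, h3, fun y hy => by
    obtain ⟨φ, p1, -, p3⟩ := h4 y
    have h0 : φ y = 0 := by
      clear p3
      induction p1 using Submodule.span_induction with
      | mem g hg => obtain ⟨i, rfl⟩ := hg; exact hy i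
      | zero => rfl
      | add a b _ _ ha hb => rw [ContinuousLinearMap.add_apply, ha, hb, add_zero]
      | smul c a _ ha => rw [ContinuousLinearMap.smul_apply, ha, smul_zero]
    rw [h0, abs_zero] at p3
    exact norm_le_zero_iff.1 (by linarith), 1 / 2, by norm_num, h4⟩
  exact hF.ne Pool.Agent.H.MP_d2b9e5.Om1 S e

end Pool.Agent.S04282
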