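import Pool.Statements.S04285
-- import your own Pool.Agent.* helpers here
import Pool.Agent.H.MP_32de40_an.B

set_option autoImplicit false
open MeasureTheory
open Pool Pool.MP_32de40_an

namespace Pool.Agent.S04285

theorem result :
  ∀ (ω : ℝ → ℝ) (L : ℝ),
    ContinuousOn ω (Set.Ioo 0 1) →
    MonotoneOn ω (Set.Ioo 0 1) →
    (∀ t ∈ Set.Ioo (0:ℝ) 1, 0 < ω t) →
    Filter.Tendsto ω (nhdsWithin 0 (Set.Ioi 0)) (nhds 0) →
    AntitoneOn (fun t => ω t / t) (Set.Ioo 0 1) →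
    Filter.Tendsto ω (nhdsWithin 1 (Set.Iio 1)) (nhds L) →
    ∀ f : ℂ → ℂ,
      DifferentiableOn ℂ f (Metric.ball 0 1) →
      ContinuousOn f (Metric.closedBall 0 1) →
      (∃ C : ℝ, ∃ δ₀ ∈ Set.Ioo (0:ℝ) 1, ∀ δ ∈ Set.Ioo 0 δ₀, ∀ x h : ℝ, |h| ≤ δ →
          ‖f (Complex.exp (((x + h : ℝ) : ℂ) * Complex.I))
            - f (Complex.exp ((x : ℂ) * Complex.I))‖ ≤ C * ω δ) →
      (∃ z ∈ Metric.ball (0:ℂ) 1, f z ≠ 0) →
      ∀ Θ : ℂ → ℂ,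
        DifferentiableOn ℂ Θ (Metric.ball 0 1) →
        (∀ z ∈ Metric.ball (0:ℂ) 1, ‖Θ z‖ ≤ 1) →
        (∀ᵐ θ : ℝ, ∃ w : ℂ, ‖w‖ = 1 ∧
          Filter.Tendsto (fun r : ℝ => Θ ((r : ℂ) * Complex.exp ((θ : ℂ) * Complex.I)))
            (nhdsWithin 1 (Set.Iio 1)) (nhds w)) →
        ((MeasureTheory.volume {θ : ℝ | ¬ ∃ r > (0:ℝ), ∃ g : ℂ → ℂ,
              DifferentiableOn ℂ g (Metric.ball (Complex.exp ((θ:ℂ) * Complex.I)) r) ∧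
              Set.EqOn g Θ (Metric.ball (Complex.exp ((θ:ℂ) * Complex.I)) r ∩ Metric.ball 0 1)} = 0 ∧
          ∃ C : ℝ, ∀ ζ : ℂ, ‖ζ‖ = 1 → ∀ r > (0:ℝ), ∀ g : ℂ → ℂ,
            DifferentiableOn ℂ g (Metric.ball ζ r) →
            Set.EqOn g Θ (Metric.ball ζ r ∩ Metric.ball 0 1) →
            ‖f ζ‖ ≤ C * (if 1 < ‖deriv g ζ‖ then ω (1 / ‖deriv g ζ‖) else L))
         ↔
         (∃ ε ∈ Set.Ioo (0:ℝ) 1, ∃ C : ℝ, ∀ z ∈ Metric.ball (0:ℂ) 1, ‖Θ z‖ < ε →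
            ‖f z‖ ≤ C * (if 1 - ‖z‖ < 1 then ω (1 - ‖z‖) else L))) := by
  intro ω L _ h1 h2 h0 h3 h4 f fd fc ⟨C, δ, ⟨d0, d1⟩, hm⟩ ⟨u, hu, u0⟩ Θ td t1 hl
  have hW := H.MP_32de40_an.md h1 h2 h3 h4
  constructor
  · rintro ⟨hs, A, hA⟩
    refine ⟨1 / 2, by norm_num, _, fun z hz hb => H.MP_32de40_an.dir1 hW fd fc td t1 hl
      (ae_iff.mpr hs) (C := A) (fun ζ hζ r r0 g g1 g2 D0 => ?_) hz hb⟩
    simpa only [div_lt_one D0] using hA ζ hζ r r0 g g1 g2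
  · rintro ⟨ε, ⟨e0, e1⟩, A, hA⟩
    constructor
    · refine measure_mono_null (fun θ hθ => ?_) (H.MP_32de40_an.null fd fc hu u0)
      by_contra f0
      obtain ⟨d, p0, p1, h⟩ := H.MP_32de40_an.dir2 (W := fun t => if t < 1 then ω t else L)
        (h0.congr' (Filter.mem_of_superset (Ioo_mem_nhdsGT one_pos) fun t ht => (if_pos ht.2).symm))
        fc hA (H.MP_5011cf_an.ex_norm θ) f0
      obtain ⟨g, g1, g2, -⟩ := H.MP_32de40_an.cont td t1 hl (H.MP_5011cf_an.ex_norm θ) p0 p1 e0 h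
      exact hθ ⟨d / 8, by linarith, g, g1, g2⟩
    · obtain ⟨B, B0, hB⟩ := H.MP_32de40_an.tam hW fd fc d0 (C := C) fun s hs x h l => by
        simpa only [if_pos (hs.2.trans d1), H.MP_5011cf_an.ex] using hm s hs x h l
      obtain ⟨K, hK⟩ := H.MP_32de40_an.dir3 hW fc td t1 hl e0 B0 hA hB
      refine ⟨K, fun ζ hζ r r0 g g1 g2 => ?_⟩
      split_ifs with h
      · simpa only [if_pos ((div_lt_one (one_pos.trans h)).mpr h)] using hK ζ hζ r r0 g g1 g2 _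
          (one_div_pos.mpr (one_pos.trans h)) (fun _ => rfl) fun l => absurd h l.not_gt
      · simpa only [if_neg (lt_irrefl (1 : ℝ))] using hK ζ hζ r r0 g g1 g2 1 one_pos
          (fun l => absurd l h) fun _ => rfl

end Pool.Agent.S04285
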