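import Pool.Statements.S04304
import Pool.Agent.H.MP_9d0e4c_an.Unique

set_option autoImplicit false
open Pool Pool.MP_349896_an

namespace Pool.Agent.S04304

theorem result :
    ¬ (∀ (𝕜 : Type) [RCLike 𝕜] (Y : Type) [NormedAddCommGroup Y] [NormedSpace 𝕜 Y] [CompleteSpace Y],
      (∃ (Z : Type) (_ : NormedAddCommGroup Z) (_ : NormedSpace 𝕜 Z),
          CompleteSpace Z ∧ Nonempty ((Z →L[𝕜] 𝕜) ≃ₗᵢ[𝕜] Y)) →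
      ∃ (X : Type) (_ : NormedAddCommGroup X) (_ : NormedSpace 𝕜 X),
        CompleteSpace X ∧ Nonempty ((X →L[𝕜] 𝕜) ≃ₗᵢ[𝕜] Y) ∧
        sInf ((fun T : X →L[𝕜] X =>
            sSup {r : ℝ | ∃ (x : X) (f : X →L[𝕜] 𝕜),
              ‖x‖ = 1 ∧ ‖f‖ = 1 ∧ f x = 1 ∧ r = ‖f (T x)‖}) ''
            {T : X →L[𝕜] X | ‖T‖ = 1})
          =
        sInf ((fun T : Y →L[𝕜] Y =>
            sSup {r : ℝ | ∃ (y : Y) (g : Y →L[𝕜] 𝕜),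
              ‖y‖ = 1 ∧ ‖g‖ = 1 ∧ g y = 1 ∧ r = ‖g (T y)‖}) ''
            {T : Y →L[𝕜] Y | ‖T‖ = 1})) := by
  intro h
  obtain ⟨Z, _, _, _, ⟨Φ⟩, h1⟩ := h ℝ (H.MP_9d0e4c_an.X →L[ℝ] ℝ)
    ⟨H.MP_9d0e4c_an.X, inferInstance, inferInstance, inferInstance, ⟨LinearIsometryEquiv.refl ℝ _⟩⟩
  obtain ⟨I⟩ := H.MP_9d0e4c_an.X_unique Φ
  have : Nontrivial Z := I.toEquiv.nontrivial
  obtain ⟨R, hR, h2⟩ := H.MP_9d0e4c_an.up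
  refine absurd h1 (ne_of_gt (lt_of_le_of_lt (b := 1 / 30) ?_ (lt_of_lt_of_le (b := 1 / 22)
    (by norm_num) ?_)))
  · refine le_trans (csInf_le ⟨0, ?_⟩ ⟨R, hR, rfl⟩) h2
    rintro _ ⟨T, -, rfl⟩
    exact H.MP_a8e783_an.numRad_nonneg T
  · refine le_csInf ⟨_, ContinuousLinearMap.id ℝ _, ContinuousLinearMap.norm_id, rfl⟩ ?_
    rintro _ ⟨T, hT, rfl⟩
    exact H.MP_9d0e4c_an.low I T hT

end Pool.Agent.S04304
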