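import Pool.Statements.S04305
import Pool.Agent.H.MP_349fe0_an.Main

set_option autoImplicit false
open Pool Pool.MP_349fe0_an

namespace Pool.Agent.S04305

theorem result :
    ∀ ε : ℝ, 0 < ε →
      ∃ f : lp (fun _ : ℕ => ℝ) 1 →
          BoundedContinuousFunction (Set.Iic (Ordinal.omega0 ^ Ordinal.omega0 : Ordinal.{0})) ℝ,
        ∃ r : ℝ, 0 < r ∧
          ∀ x y : lp (fun _ : ℕ => ℝ) 1,
            r * dist x y ≤ dist (f x) (f y) ∧
              dist (f x) (f y) ≤ (1 + ε) * r * dist x y := by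
  exact Pool.Agent.H.MP_349fe0_an.main

end Pool.Agent.S04305
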