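import Pool.Statements.S04308
import Pool.Agent.H.MP_a1e890.K

set_option autoImplicit false
open Filter Topology
open Pool Pool.MP_34b873_an

namespace Pool.Agent.S04308

/-- The negation of the preceding statement: If every quotient of a real Banach space X by a closed subspace has an equivalent norm that is Fréchet differentiable away from 0, then X has an equivalent norm whose dual norm on X* is locally uniformly rotund. -/
theorem result :
    ¬ (∀ (X : Type) [NormedAddCommGroup X] [NormedSpace ℝ X] [CompleteSpace X],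
    (∀ Y : Submodule ℝ X, IsClosed (Y : Set X) →
      ∃ p : Seminorm ℝ X,
        (∃ c C : ℝ, 0 < c ∧ ∀ x : X,
          c * Metric.infDist x (Y : Set X) ≤ p x ∧ p x ≤ C * Metric.infDist x (Y : Set X)) ∧
        ∀ x : X, x ∉ Y → DifferentiableAt ℝ (fun z : X => p z) x) →
    ∃ N : Seminorm ℝ X,
      (∃ c C : ℝ, 0 < c ∧ ∀ x : X, c * ‖x‖ ≤ N x ∧ N x ≤ C * ‖x‖) ∧
      ∀ (f : X →L[ℝ] ℝ) (g : ℕ → (X →L[ℝ] ℝ)),
        Tendsto (fun n : ℕ =>
            2 * (sSup ((fun x : X => f x) '' {x : X | N x ≤ 1})) ^ 2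
            + 2 * (sSup ((fun x : X => g n x) '' {x : X | N x ≤ 1})) ^ 2
            - (sSup ((fun x : X => (f + g n) x) '' {x : X | N x ≤ 1})) ^ 2)
          atTop (𝓝 0) →
        Tendsto g atTop (𝓝 f)) := by
  intro h
  obtain ⟨I, _, _, _, _, _, _, hc⟩ := H.MP_a1e890.exI
  obtain ⟨p, ⟨c, C, c0, p1⟩, n2⟩ := h (BoundedContinuousFunction I ℝ) (fun Y hY => by
    obtain ⟨n, hn⟩ : ∃ n : Seminorm ℝ (BoundedContinuousFunction I ℝ), ∀ x,
        n x = Metric.infDist x (Y : Set (BoundedContinuousFunction I ℝ)) :=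
      ⟨(normSeminorm ℝ _).comp Y.mkQ, fun x => QuotientAddGroup.norm_mk (S := Y.toAddSubgroup) x⟩
    obtain ⟨q, q1, q2⟩ := H.MP_a1e890.quot (n := n) (fun y => by
      simpa [hn] using Metric.infDist_le_dist_of_mem (x := y) Y.zero_mem) (fun χ t t0 h1 h2 y => by
        have k : ∀ z ∈ Y, χ y ≤ t * dist y z := fun z hz => by
          have := (abs_le.1 (h1 (y - z))).2
          rwa [map_sub, h2 z (by rw [hn, Metric.infDist_zero_of_mem hz]), sub_zero,
            ← dist_eq_norm] at this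
        rcases t0.eq_or_lt with rfl | t0
        · simpa using k 0 Y.zero_mem
        · rw [hn, ← inv_mul_le_iff₀ t0]
          exact (Metric.le_infDist ⟨0, Y.zero_mem⟩).2 fun z hz => (inv_mul_le_iff₀ t0).2 (k z hz)) hc
    refine ⟨q, ⟨1 / 3, 2, by norm_num, fun x => ⟨?_, hn x ▸ (q1 x).2⟩⟩, fun x hx => ?_⟩
    · linarith [hn x, (q1 x).1]
    · obtain ⟨Φ, h⟩ := q2 x (hn x ▸ (hY.notMem_iff_infDist_pos ⟨0, Y.zero_mem⟩).1 hx)
      exact h.differentiableAt)
  refine H.MP_a1e890.noLUR hc (p := p) c0 (by simp) (fun x => (p1 x).1)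
    (N := fun f => sSup ((fun x => f x) '' {x | p x ≤ 1})) (fun f x hx => ?_) (fun f R hR => ?_)
    fun f g h => tendsto_iff_norm_sub_tendsto_zero.1 (n2 f g h)
  · refine le_csSup ⟨‖f‖ * c⁻¹, ?_⟩ ⟨x, hx, rfl⟩
    rintro _ ⟨y, hy, rfl⟩
    exact (le_abs_self _).trans (f.le_opNorm_of_le (by
      rw [← one_div, le_div_iff₀' c0]
      exact (p1 y).1.trans hy))
  · refine csSup_le ⟨_, 0, by simp, rfl⟩ ?_
    rintro _ ⟨y, hy, rfl⟩
    exact hR y hy

end Pool.Agent.S04308
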