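import Pool.Statements.S04311
import Pool.Agent.H.MP_354547_an.D

set_option autoImplicit false
open Metric
open Pool Pool.MP_354547_an

namespace Pool.Agent.S04311

theorem result :
  ∀ (D : Set (EuclideanSpace ℝ (Fin 2))) (u : EuclideanSpace ℝ (Fin 2) → ℝ),
    IsOpen D →
    (0 : EuclideanSpace ℝ (Fin 2)) ∈ frontier D →
    (∃ r : ℝ, 0 < r ∧ ∃ R : EuclideanSpace ℝ (Fin 2) ≃ₗᵢ[ℝ] EuclideanSpace ℝ (Fin 2),
      ∃ f : ℝ → ℝ, ∃ L : NNReal, LipschitzWith L f ∧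
        ∀ x ∈ ball (0 : EuclideanSpace ℝ (Fin 2)) r, (x ∈ D ↔ f ((R x) 0) < (R x) 1)) →
    DifferentiableOn ℝ u (ball (0 : EuclideanSpace ℝ (Fin 2)) 2) →
    (∀ s : ℝ, s < 2 → ∃ C : NNReal,
      LipschitzOnWith C (fderiv ℝ u) (closedBall (0 : EuclideanSpace ℝ (Fin 2)) s)) →
    (∀ φ : EuclideanSpace ℝ (Fin 2) → ℝ, ContDiff ℝ 2 φ → HasCompactSupport φ →
      tsupport φ ⊆ ball (0 : EuclideanSpace ℝ (Fin 2)) 2 →
      ∫ x, u x * (∑ i : Fin 2,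
          fderiv ℝ (fun y => fderiv ℝ φ y (EuclideanSpace.single i (1 : ℝ))) x
            (EuclideanSpace.single i (1 : ℝ)))
        = ∫ x, x 0 * D.indicator (fun _ => (1 : ℝ)) x * φ x) →
    (∀ x ∈ ball (0 : EuclideanSpace ℝ (Fin 2)) 2, x ∉ closure D → u x = 0) →
    ∃ ρ : ℝ, 0 < ρ ∧ ∃ R : EuclideanSpace ℝ (Fin 2) ≃ₗᵢ[ℝ] EuclideanSpace ℝ (Fin 2),
      ∃ g : ℝ → ℝ, ContDiff ℝ 1 g ∧
        ∀ x ∈ ball (0 : EuclideanSpace ℝ (Fin 2)) ρ, (x ∈ D ↔ g ((R x) 0) < (R x) 1) := by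
  rintro D u hD h0 ⟨r, hr, R, f, L, fL, hf⟩ hu hl hw hz
  have hu1 : ContDiffOn ℝ 1 u (ball 0 2) := by
    rw [show (1 : WithTop ℕ∞) = 0 + 1 from rfl, contDiffOn_succ_iff_fderiv_of_isOpen isOpen_ball]
    refine ⟨hu, by simp, contDiffOn_zero.2 fun x hx => ?_⟩
    obtain ⟨s, s1, s2⟩ := exists_between (mem_ball_zero_iff.1 hx)
    obtain ⟨C, hC⟩ := hl s s2
    exact (hC.continuousOn.continuousAt (Filter.mem_of_superset (isOpen_ball.mem_nhds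
      (mem_ball_zero_iff.2 s1)) ball_subset_closedBall)).continuousWithinAt
  obtain ⟨g, hg, e⟩ := Pool.Agent.H.MP_354547_an.globalize
    (Pool.Agent.H.MP_354547_an.main hD h0 hr R fL hf hu1 hw hz)
  obtain ⟨δ, δ0, hδ⟩ := Metric.eventually_nhds_iff.1 e
  refine ⟨min r δ, lt_min hr δ0, R, g, hg, fun x hx => ?_⟩
  rw [mem_ball_zero_iff, lt_min_iff] at hx
  rw [hf x (mem_ball_zero_iff.2 hx.1), hδ]
  rw [dist_zero_right]
  exact (PiLp.norm_apply_le (R x) 0).trans_lt (by rw [R.norm_map]; exact hx.2)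

end Pool.Agent.S04311
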