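import Pool.Statements.S04314
import Pool.Agent.H.MP_355d06_an.A

set_option autoImplicit false
open scoped BoundedContinuousFunction
open Pool Pool.MP_355d06_an

namespace Pool.Agent.S04314

theorem result :
    ¬ (∃ (Γ : Type), ¬ Countable Γ ∧ ∃ f : (ℕ →ᵇ ℝ) → (Γ → ℝ),
      (∀ x : ℕ →ᵇ ℝ, ∀ ε : ℝ, 0 < ε → {i : Γ | ε ≤ |f x i|}.Finite) ∧
      (∀ R : ℝ, ∃ S : ℝ, ∀ x y : ℕ →ᵇ ℝ, dist x y ≤ R → ∀ i : Γ, |f x i - f y i| ≤ S) ∧
      (∀ S : ℝ, ∃ R : ℝ, ∀ x y : ℕ →ᵇ ℝ, (∀ i : Γ, |f x i - f y i| ≤ S) → dist x y ≤ R)) := by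
  classical
  rintro ⟨Γ, -, f, h1, h2, h3⟩
  obtain ⟨S, hS⟩ := h2 1
  obtain ⟨M, M1, M2⟩ : ∃ M : ℝ, 1 ≤ M ∧ S ≤ M := ⟨max 1 S, le_max_left _ _, le_max_right _ _⟩
  obtain ⟨R, hR⟩ := h3 (4 * M)
  obtain ⟨k, hk⟩ := exists_nat_gt R
  obtain ⟨e, he⟩ : ∃ e : (ℕ → ℕ) → ℕ →ᵇ ℝ, ∀ x n, e x n = min (x n) k :=
    ⟨fun x => .ofNormedAddCommGroupDiscrete (fun n => (min (x n) k : ℕ)) k fun n => by
      rw [Real.norm_natCast]; exact_mod_cast min_le_right _ _, fun _ _ => by simp⟩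
  obtain ⟨r, hr⟩ : ∃ r : (ℕ → ℕ) → Γ → ℤ, ∀ x i, r x i = if |f (e x) i| < 2 * M then 0 else ⌊f (e x) i⌋ :=
    ⟨_, fun _ _ => rfl⟩
  have r1 : ∀ x i, |f (e x) i - r x i| ≤ 2 * M := fun x i => by
    rw [hr]
    split_ifs with c
    · simpa using c.le
    · rw [Int.self_sub_floor, abs_of_nonneg (Int.fract_nonneg _)]
      linarith [Int.fract_lt_one (f (e x) i)]
  have r2 : ∀ x, {z | ∃ y, dist (e x) (e y) ≤ 1 ∧ r y = z}.Finite := fun x => by
    have := (h1 (e x) M (by linarith)).to_subtype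
    refine Set.Finite.of_finite_image (f := fun z (i : {i | M ≤ |f (e x) i|}) => z i)
      ((Set.Finite.pi' fun i : {i | M ≤ |f (e x) i|} => Set.finite_Icc ⌊f (e x) i - 3 * M⌋ ⌈f (e x) i + 3 * M⌉).subset ?_) ?_
    · rintro _ ⟨_, ⟨y, a, rfl⟩, rfl⟩ i
      have := abs_le.mp (hS _ _ a i)
      have := abs_le.mp (r1 y i)
      exact ⟨Int.floor_le_iff.mpr (by linarith), Int.le_ceil_iff.mpr (by linarith)⟩
    · rintro _ ⟨y, a, rfl⟩ _ ⟨y', a', rfl⟩ h
      funext i
      by_cases c : M ≤ |f (e x) i|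
      · exact congrFun h ⟨i, c⟩
      · have := abs_sub_abs_le_abs_sub (f (e y) i) (f (e x) i)
        have := abs_sub_abs_le_abs_sub (f (e y') i) (f (e x) i)
        have := hS _ _ (dist_comm (e x) _ ▸ a) i
        have := hS _ _ (dist_comm (e x) _ ▸ a') i
        rw [hr, hr, if_pos (by linarith), if_pos (by linarith)]
  have r3 : ∀ x, ∃ m, ∀ z ∈ {z | ∃ y, dist (e x) (e y) ≤ 1 ∧ r y = z}, (∀ n < m, Function.invFun r z n =
      Function.invFun r (r x) n) → z = r x := fun x => ((Filter.eventually_all_finite (r2 x)).mpr fun z hz => by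
    by_cases c : Function.invFun r z = Function.invFun r (r x)
    · obtain ⟨y, -, rfl⟩ := hz
      refine .of_forall fun _ _ => ?_
      rw [← Function.invFun_eq (f := r) ⟨y, rfl⟩, c, Function.invFun_eq (f := r) ⟨x, rfl⟩]
    · obtain ⟨n, hn⟩ := Function.ne_iff.mp c
      exact (Filter.eventually_gt_atTop n).mono fun m a b => (hn (b n a)).elim).exists
  choose m hm using r3
  obtain ⟨x, x1, x2, x3, p, x4, x5⟩ := H.MP_355d06_an.hex
    (fun x => (List.range (m x)).map (Function.invFun r (r x))) k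
  have x6 : ∀ a, r (x a) = r (x 0) := fun a => by
    induction a using Fin.induction with
    | zero => rfl
    | succ a ih =>
      have u := x1 a.succ a.castSucc
      have v : m (x a.succ) = m (x a.castSucc) := by simpa using congrArg List.length u
      rw [v, List.map_inj_left] at u
      refine (hm _ _ ⟨_, (BoundedContinuousFunction.dist_le zero_le_one).mpr fun n => ?_, rfl⟩
        fun n hn => u n (List.mem_range.mpr hn)).trans ih
      have a1 : (x a.succ n : ℝ) ≤ x a.castSucc n + 1 := by exact_mod_cast x3 _ _ (by simp; omega) n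
      have a2 : (x a.castSucc n : ℝ) ≤ x a.succ n + 1 := by exact_mod_cast x3 _ _ (by simp) n
      rw [he, he, min_eq_left (by exact_mod_cast x2 _ n), min_eq_left (by exact_mod_cast x2 _ n), Real.dist_eq, abs_le]
      constructor <;> linarith
  have := (BoundedContinuousFunction.dist_coe_le_dist p).trans (hR (e (x 0)) (e (x (Fin.last k))) fun i => by
    have := abs_le.mp (r1 (x 0) i)
    have := abs_le.mp (r1 (x (Fin.last k)) i)
    rw [x6] at this
    rw [abs_le]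
    constructor <;> linarith)
  simp [he, x4, x5] at this
  linarith

end Pool.Agent.S04314
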