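import Pool.Statements.S04332
import Pool.Agent.H.MP_36a5e2_an.C

set_option autoImplicit false
open Pool Pool.MP_36a5e2_an

namespace Pool.Agent.S04332

theorem result :
    ¬ (∀ f : EuclideanSpace ℂ (Fin 2) → EuclideanSpace ℂ (Fin 2),
      (∃ F : ℝ → EuclideanSpace ℂ (Fin 2) → EuclideanSpace ℂ (Fin 2),
        (∀ z, F 0 z = f z) ∧
        (∀ t : ℝ, 0 ≤ t →
          DifferentiableOn ℂ (F t) (Metric.ball (0 : EuclideanSpace ℂ (Fin 2)) 1) ∧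
          Set.InjOn (F t) (Metric.ball (0 : EuclideanSpace ℂ (Fin 2)) 1) ∧
          F t 0 = 0 ∧
          fderiv ℂ (F t) 0 =
            ((Real.exp t : ℝ) : ℂ) • ContinuousLinearMap.id ℂ (EuclideanSpace ℂ (Fin 2))) ∧
        (∀ s t : ℝ, 0 ≤ s → s ≤ t →
          F s '' Metric.ball (0 : EuclideanSpace ℂ (Fin 2)) 1 ⊆
            F t '' Metric.ball (0 : EuclideanSpace ℂ (Fin 2)) 1) ∧
        (∀ r : ℝ, r < 1 → ∃ C : ℝ, ∀ t : ℝ, 0 ≤ t →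
          ∀ z : EuclideanSpace ℂ (Fin 2), ‖z‖ ≤ r → ‖F t z‖ ≤ C * Real.exp t)) →
      ∀ m : ℕ, 3 ≤ m →
        ‖EuclideanSpace.proj (0 : Fin 2)
            (iteratedFDeriv ℂ m f 0 (fun _ => EuclideanSpace.single (0 : Fin 2) (1 : ℂ)))‖
          / (m.factorial : ℝ) ≤ (m : ℝ)) := by
  intro h
  obtain ⟨g, s1⟩ := H.MP_36a5e2_an.S1
  obtain ⟨Φ, s2⟩ := H.MP_36a5e2_an.S2
  have h1 := h (H.MP_36a5e2_an.FF 0) ⟨H.MP_36a5e2_an.FF, fun _ => rfl,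
    H.MP_36a5e2_an.chain s1 s2 _ H.MP_36a5e2_an.T0_pos⟩ 3 le_rfl
  have h2 := H.MP_36a5e2_an.big
  have h3 : ((Nat.factorial 3 : ℕ) : ℝ) = 6 := by norm_num [Nat.factorial]
  rw [h3] at h1
  push_cast at h1
  linarith

end Pool.Agent.S04332
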