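import Pool.Statements.S04348
import Pool.Agent.Lib.helper20.C0

set_option autoImplicit false
open MeasureTheory
open scoped ENNReal
open Pool Pool.MP_37b4fc_an

namespace Pool.Agent.S04348

open Pool.Agent.Lib.helper20.C0 Filter Topology

lemma tend_of_le (f : ℕ → ℝ) (x : X) (h : ∀ n, |f n| ≤ |ev n x|) : Tendsto f atTop (𝓝 0) :=
  squeeze_zero_norm h (by simpa using (tend x).abs)

lemma wle (x : X) (n : ℕ) : |(1 / 4 : ℝ) ^ n * ev n x| ≤ |ev n x| := by
  rw [abs_mul, abs_of_pos (by positivity)]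
  exact mul_le_of_le_one_left (abs_nonneg _) (pow_le_one₀ (by norm_num) (by norm_num))

noncomputable def ι : X →L[ℝ] X := LinearMap.mkContinuous
  { toFun := fun x => mk (fun n => (1 / 4 : ℝ) ^ n * ev n x) (tend_of_le _ x (wle x))
    map_add' := fun x y => ext fun n => by simp only [ev_mk, map_add]; ring
    map_smul' := fun c x => ext fun n => by
      simp only [ev_mk, map_smul, smul_eq_mul, RingHom.id_apply]; ring } 1
  (fun x => by
    rw [one_mul]
    exact norm_le _ _ (norm_nonneg _) fun n => (wle x n).trans (abs_le_norm x n))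

lemma ev_ι (x : X) (n : ℕ) : ev n (ι x) = (1 / 4 : ℝ) ^ n * ev n x := rfl

lemma ι_inj : Function.Injective ι := by
  intro x y h
  refine ext fun n => ?_
  have := congrArg (ev n) h
  rw [ev_ι, ev_ι] at this
  exact mul_left_cancel₀ (by positivity) this

lemma minle (c : ℝ) (hc : 0 ≤ c) (u : ℝ) : |min c (|u|)| ≤ |u| := by
  rw [abs_of_nonneg (le_min hc (abs_nonneg _))]; exact min_le_right _ _

noncomputable def U (x : X) : X :=
  mk (fun n => min (|ev 0 x|) (|ev n x|)) (tend_of_le _ x fun n => minle _ (abs_nonneg _) _)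

noncomputable def V (x : X) : X :=
  mk (fun n => min (4 ^ n * |ev 0 x|) (|ev n x|)) (tend_of_le _ x fun n => minle _ (by positivity) _)

lemma ev_U (x : X) (n : ℕ) : ev n (U x) = min (|ev 0 x|) (|ev n x|) := rfl
lemma ev_V (x : X) (n : ℕ) : ev n (V x) = min (4 ^ n * |ev 0 x|) (|ev n x|) := rfl

lemma dif (x y : X) (n : ℕ) : |(|ev n x|) - (|ev n y|)| ≤ ‖x - y‖ := by
  refine (abs_abs_sub_abs_le_abs_sub _ _).trans ?_
  rw [← map_sub]; exact abs_le_norm _ _

lemma U_lip (x y : X) : ‖U x - U y‖ ≤ 1 * ‖x - y‖ := by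
  rw [one_mul]
  refine norm_le _ _ (norm_nonneg _) fun n => ?_
  rw [map_sub, ev_U, ev_U]
  exact (abs_min_sub_min_le_max _ _ _ _).trans (max_le (dif x y 0) (dif x y n))

lemma UV (x : X) : U (ι x) = ι (V x) := by
  refine ext fun n => ?_
  rw [ev_U, ev_ι, ev_ι, ev_ι, ev_V, mul_min_of_nonneg _ _ (by positivity), abs_mul, abs_mul,
    ← mul_assoc, ← mul_pow, abs_of_pos (a := (1 / 4 : ℝ) ^ n) (by positivity)]
  norm_num

lemma V_cont : Continuous V := by
  refine Metric.continuous_iff.2 fun x ε hε => ?_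
  obtain ⟨N, hN⟩ := eventually_atTop.1
    ((tend x).abs.eventually (eventually_lt_nhds (show |(0:ℝ)| < ε / 4 by simpa using hε)))
  refine ⟨ε / 4 / 4 ^ N, by positivity, fun y hy => ?_⟩
  rw [dist_eq_norm] at hy ⊢
  have h4 : (1:ℝ) ≤ 4 ^ N := one_le_pow₀ (by norm_num)
  have h1 : ‖y - x‖ ≤ ε / 4 := hy.le.trans (div_le_self (by positivity) h4)
  refine lt_of_le_of_lt (norm_le _ (ε / 2) (by positivity) fun n => ?_) (by linarith)
  rw [map_sub, ev_V, ev_V]
  rcases le_total N n with h | h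
  · have a1 := hN n h
    have a2 := abs_le.1 (dif y x n)
    have a3 := min_le_right (4 ^ n * |ev 0 x|) (|ev n x|)
    have a4 := min_le_right (4 ^ n * |ev 0 y|) (|ev n y|)
    have a5 : 0 ≤ min (4 ^ n * |ev 0 x|) (|ev n x|) := le_min (by positivity) (abs_nonneg _)
    have a6 : 0 ≤ min (4 ^ n * |ev 0 y|) (|ev n y|) := le_min (by positivity) (abs_nonneg _)
    rw [abs_le]; constructor <;> linarith [a2.1, a2.2]
  · refine (abs_min_sub_min_le_max _ _ _ _).trans (max_le ?_ (by linarith [dif y x n]))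
    rw [← mul_sub, abs_mul, abs_of_pos (by positivity)]
    have : (4:ℝ) ^ n ≤ 4 ^ N := pow_le_pow_right₀ (by norm_num) h
    rw [lt_div_iff₀ (by positivity)] at hy
    have h3 : (4:ℝ) ^ n * |(|ev 0 y|) - (|ev 0 x|)| ≤ 4 ^ N * ‖y - x‖ := by
      have := dif y x 0
      gcongr
    linarith

lemma bdd (c : X) (t : ℝ) (ht : 0 < t) : BddBelow (Set.range fun y : X => ‖c - ι y‖ + t * ‖y‖) :=
  ⟨0, by rintro _ ⟨y, rfl⟩; positivity⟩

lemma K_le (c : X) (s : ℝ) (hs : 0 ≤ s) (hc : ∀ n, |ev n c| ≤ s * (1 / 2) ^ n) (t : ℝ) (ht : 0 < t) :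
    ‖t ^ (-(1 / 2 : ℝ)) * ⨅ y : X, (‖c - ι y‖ + t * ‖y‖)‖ ≤ 2 * s := by
  set r := Real.sqrt t with hr
  have hr0 : 0 < r := Real.sqrt_pos.2 ht
  have hrt : r * r = t := Real.mul_self_sqrt ht.le
  have e1 : t ^ (-(1 / 2 : ℝ)) = r⁻¹ := by rw [Real.rpow_neg ht.le, hr, Real.sqrt_eq_rpow]
  let f : ℕ → ℝ := fun n => if |ev n c| ≤ s * r then 0 else 4 ^ n * ev n c
  have hf : Tendsto f atTop (𝓝 0) := by
    apply tendsto_const_nhds.congr'
    filter_upwards [(tendsto_pow_atTop_nhds_zero_of_lt_one (r := (1 / 2 : ℝ)) (by norm_num)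
      (by norm_num)).eventually (eventually_le_nhds hr0)] with n hn
    simp only [f]
    rw [if_pos ((hc n).trans (mul_le_mul_of_nonneg_left hn hs))]
  have h1 : ‖c - ι (mk f hf)‖ ≤ s * r := by
    refine norm_le _ _ (by positivity) fun n => ?_
    rw [map_sub, ev_ι, ev_mk]
    simp only [f]
    split_ifs with h
    · simpa using h
    · rw [← mul_assoc, ← mul_pow]; norm_num; positivity
  have h2 : ‖mk f hf‖ ≤ s / r := by
    refine norm_le _ _ (by positivity) fun n => ?_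
    rw [ev_mk]
    simp only [f]
    split_ifs with h
    · simp; positivity
    · have h3 : s * r < s * (1 / 2) ^ n := lt_of_lt_of_le (not_le.1 h) (hc n)
      have h4 : r < (1 / 2) ^ n := lt_of_mul_lt_mul_left h3 hs
      have h5 : (4:ℝ) ^ n * (1 / 2) ^ n * (1 / 2) ^ n = 1 := by
        rw [← mul_pow, ← mul_pow]; norm_num
      rw [abs_mul, abs_of_pos (by positivity), le_div_iff₀ hr0]
      have := hc n
      calc (4:ℝ) ^ n * |ev n c| * r ≤ 4 ^ n * (s * (1 / 2) ^ n) * (1 / 2) ^ n := by gcongr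
        _ = s := by linear_combination s * h5
  have h3 := ciInf_le (bdd c t ht) (mk f hf)
  have h4 : 0 ≤ ⨅ y : X, (‖c - ι y‖ + t * ‖y‖) := le_ciInf fun y => by positivity
  have h5 : t * ‖mk f hf‖ ≤ s * r := by
    calc _ ≤ t * (s / r) := by gcongr
      _ = _ := by rw [← hrt]; field_simp
  rw [e1, Real.norm_eq_abs, abs_of_nonneg (by positivity), ← div_eq_inv_mul, div_le_iff₀ hr0]
  linarith

lemma K_ge (c : X) (n : ℕ) (t : ℝ) (ht : (1 / 4 : ℝ) ^ n ≤ t) :
    |ev n c| ≤ ⨅ y : X, (‖c - ι y‖ + t * ‖y‖) := by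
  refine le_ciInf fun y => ?_
  have h1 := abs_le_norm (c - ι y) n
  have h2 := abs_le_norm y n
  have h3 : ev n c = ev n (c - ι y) + (1 / 4 : ℝ) ^ n * ev n y := by rw [map_sub, ev_ι]; ring
  have h4 : |(1 / 4 : ℝ) ^ n * ev n y| ≤ t * ‖y‖ := by
    rw [abs_mul, abs_of_pos (by positivity)]
    have : 0 ≤ t := le_trans (by positivity) ht
    gcongr
  rw [h3]
  exact (abs_add_le _ _).trans (by linarith)

lemma N_le (c : X) (s : ℝ) (hs : 0 ≤ s) (hc : ∀ n, |ev n c| ≤ s * (1 / 2) ^ n) :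
    eLpNorm (fun t : ℝ => t ^ (-(1 / 2 : ℝ)) * ⨅ y : X, (‖c - ι y‖ + t * ‖y‖)) ∞
      ((volume.restrict (Set.Ioi (0:ℝ))).withDensity (fun t => ENNReal.ofReal t⁻¹)) ≤
      ENNReal.ofReal (2 * s) := by
  rw [eLpNorm_exponent_top]
  apply eLpNormEssSup_le_of_ae_bound
  refine (withDensity_absolutelyContinuous _ _).ae_le ?_
  filter_upwards [ae_restrict_mem measurableSet_Ioi] with t ht
  exact K_le c s hs hc t ht

noncomputable def a0 : X := mk (fun n => if n = 0 then 0 else (1 / 2 : ℝ) ^ n) (by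
  apply (tendsto_pow_atTop_nhds_zero_of_lt_one (r := (1 / 2 : ℝ)) (by norm_num)
    (by norm_num)).congr'
  filter_upwards [eventually_gt_atTop 0] with n hn
  rw [if_neg hn.ne'])

lemma ev_a0 (n : ℕ) : ev n a0 = if n = 0 then 0 else (1 / 2 : ℝ) ^ n := rfl

theorem result :
    ¬ (∀ (E0 E1 F0 F1 : Type)
      [NormedAddCommGroup E0] [NormedSpace ℝ E0] [CompleteSpace E0]
      [NormedAddCommGroup E1] [NormedSpace ℝ E1] [CompleteSpace E1]
      [NormedAddCommGroup F0] [NormedSpace ℝ F0] [CompleteSpace F0]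
      [NormedAddCommGroup F1] [NormedSpace ℝ F1] [CompleteSpace F1]
      (ιA : E1 →L[ℝ] E0) (ιB : F1 →L[ℝ] F0),
      Function.Injective ιA → Function.Injective ιB →
      ∀ (U : E0 → F0) (V : E1 → F1) (M0 M1 : ℝ),
        (∀ a b : E0, ‖U a - U b‖ ≤ M0 * ‖a - b‖) →
        (∀ x : E1, U (ιA x) = ιB (V x)) →
        (∀ x : E1, ‖V x‖ ≤ M1 * ‖x‖) →
        Continuous V →
        ∀ θ : ℝ, 0 < θ → θ < 1 → ∀ p : ℝ≥0∞, 1 ≤ p →
        ∀ a : E0,
          eLpNorm (fun t : ℝ => t ^ (-θ) * ⨅ y : E1, (‖a - ιA y‖ + t * ‖y‖)) p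
            ((volume.restrict (Set.Ioi (0:ℝ))).withDensity (fun t => ENNReal.ofReal t⁻¹)) < ∞ →
          ∀ ε : ℝ≥0∞, 0 < ε → ∃ δ : ℝ≥0∞, 0 < δ ∧ ∀ b : E0,
            eLpNorm (fun t : ℝ => t ^ (-θ) * ⨅ y : E1, (‖b - ιA y‖ + t * ‖y‖)) p
              ((volume.restrict (Set.Ioi (0:ℝ))).withDensity (fun t => ENNReal.ofReal t⁻¹)) < ∞ →
            eLpNorm (fun t : ℝ => t ^ (-θ) * ⨅ y : E1, (‖(b - a) - ιA y‖ + t * ‖y‖)) p
              ((volume.restrict (Set.Ioi (0:ℝ))).withDensity (fun t => ENNReal.ofReal t⁻¹)) < δ →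
            eLpNorm (fun t : ℝ => t ^ (-θ) * ⨅ z : F1, (‖(U b - U a) - ιB z‖ + t * ‖z‖)) p
              ((volume.restrict (Set.Ioi (0:ℝ))).withDensity (fun t => ENNReal.ofReal t⁻¹)) < ε) := by
  intro H
  obtain ⟨δ, hδ, h⟩ := H X X X X ι ι ι_inj ι_inj U V 1 1 U_lip UV
    (fun x => by
      rw [one_mul]
      exact norm_le _ _ (norm_nonneg _) fun n =>
        (minle _ (by positivity) _).trans (abs_le_norm x n))
    V_cont (1 / 2) (by norm_num) (by norm_num) ∞ le_top a0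
    (lt_of_le_of_lt (N_le a0 1 zero_le_one fun n => by
      rw [ev_a0]; split_ifs
      · simp
      · rw [abs_of_pos (by positivity), one_mul]) ENNReal.ofReal_lt_top)
    (ENNReal.ofReal (1 / 2)) (by simp)
  obtain ⟨r, -, hr1, hr2⟩ := ENNReal.lt_iff_exists_real_btwn.1 hδ
  have hr : 0 < r := ENNReal.ofReal_pos.1 hr1
  set s := min (r / 2) 1 with hs
  have hs0 : 0 < s := by positivity
  have h1 := h (a0 + s • e 0)
    (lt_of_le_of_lt (N_le _ 1 zero_le_one fun n => by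
      rw [map_add, map_smul, ev_a0, ev_e]; split_ifs with hn
      · subst hn
        have : s ≤ 1 := min_le_right (r / 2) 1
        simpa [abs_of_pos hs0] using this
      · simp) ENNReal.ofReal_lt_top)
    (lt_of_le_of_lt ((N_le _ s hs0.le fun n => by
      rw [add_sub_cancel_left, map_smul, ev_e]; split_ifs with hn
      · subst hn
        simp [abs_of_pos hs0]
      · simp; positivity).trans (ENNReal.ofReal_le_ofReal
        (by linarith [min_le_left (r / 2) 1]))) hr2)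
  obtain ⟨n, hn, hn0⟩ := (((tendsto_pow_atTop_nhds_zero_of_lt_one (r := (1 / 2 : ℝ)) (by norm_num)
      (by norm_num)).eventually (eventually_le_nhds hs0)).and (eventually_gt_atTop 0)).exists
  have hc : |ev n (U (a0 + s • e 0) - U a0)| = (1 / 2) ^ n := by
    have hp : (0:ℝ) < (1 / 2) ^ n := by positivity
    rw [map_sub, ev_U, ev_U]
    simp only [map_add, map_smul, ev_a0, ev_e, if_true, if_neg hn0.ne', smul_eq_mul, mul_one,
      mul_zero, zero_add, add_zero, abs_zero, abs_of_pos hs0, abs_of_pos hp]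
    rw [min_eq_right hn, min_eq_left hp.le, sub_zero, abs_of_pos hp]
  rw [eLpNorm_exponent_top] at h1
  have h2 := ae_le_eLpNormEssSup (f := fun t : ℝ => t ^ (-(1 / 2 : ℝ)) *
    ⨅ z : X, (‖(U (a0 + s • e 0) - U a0) - ι z‖ + t * ‖z‖))
    (μ := (volume.restrict (Set.Ioi (0:ℝ))).withDensity (fun t => ENNReal.ofReal t⁻¹))
  have hac : volume.restrict (Set.Ioi (0:ℝ)) ≪
      (volume.restrict (Set.Ioi (0:ℝ))).withDensity (fun t => ENNReal.ofReal t⁻¹) := by
    apply withDensity_absolutelyContinuous' (by fun_prop)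
    filter_upwards [ae_restrict_mem measurableSet_Ioi] with t ht
    have : 0 < t := ht
    simpa using this
  have h3 := hac.ae_le h2
  have hq : (0:ℝ) < (1 / 4) ^ n := by positivity
  have h4 : ∀ᵐ t ∂(volume.restrict (Set.Ioi (0:ℝ))),
      t ∉ Set.Icc ((1 / 4 : ℝ) ^ n) (4 * (1 / 4) ^ n) := by
    filter_upwards [h3] with t ht hm
    have h5 := lt_of_le_of_lt ht h1
    rw [← ofReal_norm, ENNReal.ofReal_lt_ofReal_iff (by norm_num)] at h5
    have h6 := K_ge (U (a0 + s • e 0) - U a0) n t hm.1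
    rw [hc] at h6
    have ht0 : 0 < t := lt_of_lt_of_le hq hm.1
    have h7 : Real.sqrt t ≤ 2 * (1 / 2) ^ n := by
      apply Real.sqrt_le_iff.2 ⟨by positivity, hm.2.trans (le_of_eq ?_)⟩
      rw [mul_pow, ← pow_mul, mul_comm n 2, pow_mul]; norm_num
    have hr0 : 0 < Real.sqrt t := Real.sqrt_pos.2 ht0
    rw [Real.rpow_neg ht0.le, ← Real.sqrt_eq_rpow] at h5
    have h8 := (le_abs_self _).trans_lt h5
    rw [← div_eq_inv_mul, div_lt_iff₀ hr0] at h8
    linarith
  have hsub : Set.Icc ((1 / 4 : ℝ) ^ n) (4 * (1 / 4) ^ n) ⊆ Set.Ioi 0 :=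
    fun t ht => lt_of_lt_of_le hq ht.1
  rw [← measure_eq_zero_iff_ae_notMem, Measure.restrict_apply measurableSet_Icc,
    Set.inter_eq_left.2 hsub, Real.volume_Icc,
    ENNReal.ofReal_eq_zero] at h4
  linarith

end Pool.Agent.S04348
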