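import Pool.Statements.S04351
import Pool.Agent.H.MP_2f7009_an.B

set_option autoImplicit false
open Pool Pool.MP_37ff87_an Pool.Agent.H.MP_2f7009_an Set Metric

namespace Pool.Agent.S04351

theorem result :
    ∀ (X : Type) [NormedAddCommGroup X] [NormedSpace ℝ X] [CompleteSpace X]
      [TopologicalSpace.SeparableSpace X],
      TopologicalSpace.IsSeparable
          {f : X →L[ℝ] ℝ | ∃ x : X, ‖x‖ = 1 ∧
            ∀ v : X, HasLineDerivAt ℝ (fun y : X => ‖y‖) (f v) x v} →
        TopologicalSpace.SeparableSpace (X →L[ℝ] ℝ) := by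
  intro X _ _ _ _ ⟨c, c1, c2⟩
  rcases subsingleton_or_nontrivial X with hX | hX
  · infer_instance
  obtain ⟨e, he⟩ := (c1.insert 0).exists_eq_range (insert_nonempty _ _)
  set Y := (Submodule.span ℝ (range e)).topologicalClosure
  refine TopologicalSpace.isSeparable_univ_iff.1 (((countable_range e).isSeparable.span
    (R := ℝ)).closure.mono fun g _ => by_contra fun hg => ?_)
  obtain ⟨f, -, f1, f2⟩ := riesz_lemma_of_lt_one (F := Y) (Submodule.isClosed_topologicalClosure _)
    ⟨g, hg⟩ (show (3 / 4 : ℝ) < 1 by norm_num)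
  have h := ienv (fun n => closedBall (e n) (1 / 2)) (fun y d h => by
    have y0 : y ≠ 0 := by
      rintro rfl
      obtain ⟨v, hv⟩ := exists_ne (0 : X)
      have := h.exp (-d) (by simpa using h.1) fun h' => ?_
      · simp at this
      obtain ⟨ψ, p1, p2⟩ := exists_dual_vector ℝ v (norm_ne_zero_iff.2 hv)
      have e1 := not_not.1 (mt (h.exp ψ p1.le) (by simp))
      rw [← e1] at h'
      have := congrArg (fun φ => φ v) h'
      simp only [_root_.neg_apply, p2, RCLike.ofReal_real_eq_id, id] at this
      linarith [norm_pos_iff.2 hv]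
    have n0 := norm_pos_iff.2 y0
    obtain ⟨a, a1, a2⟩ := Metric.mem_closure_iff.1 (c2 (a := d) ⟨‖y‖⁻¹ • y,
      norm_smul_inv_norm y0, fun v => by
        have := (HasDerivAt.const_mul ‖y‖⁻¹ (h.2.2 (‖y‖ • v))).congr_deriv
          (g' := d v) (by rw [map_smul, smul_eq_mul, inv_mul_cancel_left₀ n0.ne'])
        refine this.congr_of_eventuallyEq (.of_forall fun t => ?_)
        beta_reduce
        rw [← norm_smul_of_nonneg (inv_nonneg.2 n0.le), smul_add, smul_comm t,
          inv_smul_smul₀ n0.ne']⟩) (1 / 2) (by norm_num)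
    obtain ⟨n, rfl⟩ := he.le (mem_insert_of_mem _ a1)
    exact ⟨n, a2.le⟩) (mem_closedBall_zero_iff.2 f1.le)
  have := closure_minimal (convexHull_min (t := cthickening (1 / 2) (Y : Set (X →L[ℝ] ℝ)))
    (iUnion_subset fun n φ hφ => mem_cthickening_of_dist_le φ (e n) _ _
      (Submodule.le_topologicalClosure _ (Submodule.subset_span ⟨n, rfl⟩)) (by
      rw [dist_eq_norm]
      refine ContinuousLinearMap.opNorm_le_bound _ (by norm_num) fun x => ?_
      have k : ∀ x, φ x ≤ e n x + 1 / 2 * ‖x‖ := fun x => W_le (fun ψ hψ => by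
        have := (le_abs_self _).trans (((ψ - e n).le_opNorm x).trans
          (mul_le_mul_of_nonneg_right (mem_closedBall_iff_norm.1 hψ) (norm_nonneg _)))
        rw [_root_.sub_apply] at this
        linarith) hφ
      have k1 := k x
      have k2 := k (-x)
      rw [map_neg, map_neg, norm_neg] at k2
      rw [_root_.sub_apply, Real.norm_eq_abs, abs_le]
      constructor <;> linarith)) (Y.convex.cthickening _)) isClosed_cthickening h
  obtain ⟨z, z1, z2⟩ := mem_thickening_iff.1 (cthickening_subset_thickening'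
    (show (0 : ℝ) < 3 / 4 by norm_num) (by norm_num) _ this)
  exact (f2 z z1).not_gt (by rwa [← dist_eq_norm])

end Pool.Agent.S04351
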