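import Pool.Statements.S04353
import Pool.Agent.H.MP_38279d_an.C

set_option autoImplicit false
open Pool Pool.MP_38279d_an

namespace Pool.Agent.S04353

theorem result :
    ∃ f : Set ℕ → Submodule ℝ
        (lp (fun _ : ℕ => ℝ) (1 : ENNReal) →L[ℝ] ZeroAtInftyContinuousMap ℕ ℝ),
      Function.Injective f ∧
      ∀ s : Set ℕ,
        IsClosed (f s : Set (lp (fun _ : ℕ => ℝ) (1 : ENNReal) →L[ℝ]
            ZeroAtInftyContinuousMap ℕ ℝ)) ∧
        ∀ T ∈ f s,
          ∀ A : lp (fun _ : ℕ => ℝ) (1 : ENNReal) →L[ℝ] lp (fun _ : ℕ => ℝ) (1 : ENNReal),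
          ∀ B : ZeroAtInftyContinuousMap ℕ ℝ →L[ℝ] ZeroAtInftyContinuousMap ℕ ℝ,
            B.comp (T.comp A) ∈ f s := by
  open Pool.Agent.H.MP_38279d_an Filter Topology in
  obtain ⟨Φ, h1, h2⟩ := funcs
  let f : Set ℕ → Submodule ℝ (L1 →L[ℝ] C0) := fun s =>
    { carrier := {S | ∀ (A : L1 →L[ℝ] L1) (B : C0 →L[ℝ] C0), ∀ k ∈ s,
        Tendsto (fun j => Φ (Nat.pair k j) (B.comp (S.comp A))) atTop (𝓝 0)}
      add_mem' := fun {S T} hS hT A B k hk => by
        simpa [ContinuousLinearMap.add_comp, ContinuousLinearMap.comp_add] using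
          (hS A B k hk).add (hT A B k hk)
      zero_mem' := fun A B k _ => by simp
      smul_mem' := fun c S hS A B k hk => by
        simpa [ContinuousLinearMap.smul_comp, ContinuousLinearMap.comp_smul] using
          (hS A B k hk).const_mul c }
  have key : ∀ s t : Set ℕ, f s = f t → s ⊆ t := fun s t h k hk => by
    by_contra hn
    obtain ⟨T, t1, t2⟩ := h2 {n | n.unpair.1 = k}
    have a : T ∈ f t := fun A B k' hk' => by
      have z := tendsto_const_div_atTop_nhds_zero_nat (4 * ‖A‖ * ‖B‖)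
      refine squeeze_zero_norm (fun j => ?_) (z.comp (tendsto_add_atTop_nat 1))
      refine (t2 _ (fun e => hn ?_) A B).trans ?_
      · have : k' = k := by simpa using e
        exact this ▸ hk'
      · have : (j : ℝ) ≤ Nat.pair k' j := by exact_mod_cast Nat.right_le_pair k' j
        have := mul_nonneg (mul_nonneg (by norm_num : (0 : ℝ) ≤ 4) (norm_nonneg A)) (norm_nonneg B)
        simp only [Function.comp]
        push_cast
        gcongr
    rw [← h] at a
    have b := a (ContinuousLinearMap.id ℝ _) (ContinuousLinearMap.id ℝ _) k hk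
    have c : ∀ j, Φ (Nat.pair k j) T = 1 := fun j => t1 _ (by simp)
    simp [c] at b
  refine ⟨f, fun s t h => (key s t h).antisymm (key t s h.symm), fun s => ⟨?_, ?_⟩⟩
  · refine isClosed_of_closure_subset fun S hS A B k hk => Metric.tendsto_nhds.2 fun ε hε => ?_
    have p : 0 < ‖B‖ * ‖A‖ + 1 := add_pos_of_nonneg_of_pos
      (mul_nonneg (norm_nonneg B) (norm_nonneg A)) one_pos
    obtain ⟨T, hT, hd⟩ := (Metric.mem_closure_iff (α := L1 →L[ℝ] C0)).1 hS (ε / 2 / (‖B‖ * ‖A‖ + 1)) (by positivity)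
    filter_upwards [Metric.tendsto_nhds.1 (hT A B k hk) (ε / 2) (by positivity)] with j hj
    replace hd : ‖S - T‖ < _ := (dist_eq_norm S T).symm.trans_lt hd
    rw [lt_div_iff₀ p] at hd
    rw [Real.dist_eq, sub_zero] at hj ⊢
    have a := h1 (Nat.pair k j) (B.comp ((S - T).comp A))
    have b := B.opNorm_comp_le ((S - T).comp A)
    have c := mul_le_mul_of_nonneg_left ((S - T).opNorm_comp_le A) (norm_nonneg B)
    have e : Φ (Nat.pair k j) (B.comp ((S - T).comp A)) = Φ (Nat.pair k j) (B.comp (S.comp A)) -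
        Φ (Nat.pair k j) (B.comp (T.comp A)) := by
      have : B.comp (S.comp A) = B.comp ((S - T).comp A) + B.comp (T.comp A) :=
        ContinuousLinearMap.ext fun x => by simp
      rw [this, map_add]
      ring
    rw [e] at a
    have d := abs_sub_abs_le_abs_sub (Φ (Nat.pair k j) (B.comp (S.comp A)))
      (Φ (Nat.pair k j) (B.comp (T.comp A)))
    nlinarith [norm_nonneg (S - T)]
  · intro T hT A B A' B' k hk
    exact hT (A.comp A') (B'.comp B) k hk

end Pool.Agent.S04353
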