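import Pool.Statements.S04361
import Pool.Agent.H.MP_38bb9b_an.A

set_option autoImplicit false
open Pool Pool.MP_38bb9b_an

namespace Pool.Agent.S04361

theorem result :
    ∀ n : ℕ, 1 ≤ n → ∃ C : ℝ, 0 < C ∧ ∀ K : Set ℂ, IsCompact K → K.Nonempty →
      C * (⨅ p : {p : Polynomial ℂ // p.Monic ∧ p.natDegree = n},
            Real.sqrt (∫ z in K, ‖(Polynomial.derivative p.1).eval z‖ ^ 2)) ≤
        (⨅ m : ℕ,
            (⨅ q : {q : Polynomial ℂ // q.Monic ∧ q.natDegree = m + 1},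
                sSup ((fun z => ‖q.1.eval z‖) '' K)) ^ ((1 : ℝ) / ((m : ℝ) + 1))) ^ n := by
  intro n hn
  obtain ⟨m, rfl⟩ : ∃ m, n = m + 1 := ⟨n - 1, by omega⟩
  set D : ℝ := (m + 1) * (8 * 5 ^ m * 3 ^ (m + 1) * (2 * m + 1)) with hD
  have hD0 : 0 < D := by positivity
  refine ⟨D⁻¹, by positivity, fun K hK hne => ?_⟩
  set c : ℝ := ⨅ m : ℕ, (⨅ q : {q : Polynomial ℂ // q.Monic ∧ q.natDegree = m + 1},
    sSup ((fun z => ‖q.1.eval z‖) '' K)) ^ ((1 : ℝ) / ((m : ℝ) + 1)) with hc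
  have hnn : ∀ k : ℕ, 0 ≤ ⨅ q : {q : Polynomial ℂ // q.Monic ∧ q.natDegree = k + 1},
      sSup ((fun z => ‖q.1.eval z‖) '' K) := fun k =>
    Real.iInf_nonneg fun q => Real.sSup_nonneg (by rintro _ ⟨z, -, rfl⟩; exact norm_nonneg _)
  have hc0 : 0 ≤ c := Real.iInf_nonneg fun k => Real.rpow_nonneg (hnn k) _
  have key : ∀ l : ℝ, c < l → D⁻¹ * (⨅ p : {p : Polynomial ℂ // p.Monic ∧ p.natDegree = m + 1},
      Real.sqrt (∫ z in K, ‖(Polynomial.derivative p.1).eval z‖ ^ 2)) ≤ l ^ (m + 1) := by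
    intro l hl
    have hl0 : 0 < l := hc0.trans_lt hl
    obtain ⟨N, hN⟩ := exists_lt_of_ciInf_lt hl
    have h1 : (⨅ q : {q : Polynomial ℂ // q.Monic ∧ q.natDegree = N + 1},
        sSup ((fun z => ‖q.1.eval z‖) '' K)) < l ^ (N + 1) := by
      have h2 := pow_lt_pow_left₀ hN (Real.rpow_nonneg (hnn N) _) (Nat.succ_ne_zero N)
      rw [one_div] at h2
      have h3 := Real.rpow_inv_natCast_pow (hnn N) (Nat.succ_ne_zero N)
      push_cast at h3
      rwa [h3] at h2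
    haveI : Nonempty {q : Polynomial ℂ // q.Monic ∧ q.natDegree = N + 1} :=
      ⟨⟨Polynomial.X ^ (N + 1), Polynomial.monic_X_pow _, Polynomial.natDegree_X_pow _⟩⟩
    obtain ⟨q, hq⟩ := exists_lt_of_ciInf_lt h1
    have hb : BddAbove ((fun z => ‖q.1.eval z‖) '' K) :=
      (hK.image (q.1.continuous.norm)).bddAbove
    obtain ⟨p, p1, p2, p3⟩ := H.MP_38bb9b_an.main m K hK q.1 q.2.1 N q.2.2 l hl0
      (fun z hz => (le_csSup hb ⟨z, hz, rfl⟩).trans hq.le)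
    rw [inv_mul_le_iff₀ hD0]
    refine (ciInf_le ⟨0, ?_⟩ (⟨p, p1, p2⟩ :
      {p : Polynomial ℂ // p.Monic ∧ p.natDegree = m + 1})).trans p3
    rintro _ ⟨p, rfl⟩
    exact Real.sqrt_nonneg _
  have h2 : Filter.Tendsto (fun l : ℝ => l ^ (m + 1)) (nhdsWithin c (Set.Ioi c))
      (nhds (c ^ (m + 1))) :=
    ((continuous_pow (m + 1)).tendsto c).mono_left nhdsWithin_le_nhds
  exact ge_of_tendsto h2 (eventually_mem_nhdsWithin.mono fun l hl => key l hl)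

end Pool.Agent.S04361
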