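import Pool.Statements.S04368
-- import your own Pool.Agent.* helpers here

set_option autoImplicit false
open Filter Topology
open Pool Pool.MP_393faa_an

namespace Pool.Agent.S04368

/-- index set -/
abbrev I : Type := ℤ × Bool

/-- the space -/
abbrev H : Type := lp (fun _ : I => ℂ) 2

theorem summ (z : H) : Summable (fun p => ‖z p‖ ^ 2) := by
  have := (lp.memℓp z).summable (by simp)
  simpa using this

theorem norm_sq (z : H) : ‖z‖ ^ 2 = ∑' p, ‖z p‖ ^ 2 := by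
  have := lp.norm_rpow_eq_tsum (p := 2) (by simp) z
  simpa using this

theorem summ_aux (a : I → ℂ) (π : I ≃ I) (C : ℝ) (h : ∀ i, ‖a i‖ ≤ C) (z : H) :
    Summable (fun p => ‖a p * z (π p)‖ ^ 2) := by
  refine Summable.of_nonneg_of_le (fun _ => by positivity) (fun p => ?_)
    ((π.summable_iff.2 (summ z)).mul_left (C ^ 2))
  simp only [Function.comp, norm_mul, mul_pow]
  gcongr; exact h p

/-- weighted composition operator -/
noncomputable def op (a : I → ℂ) (π : I ≃ I) (C : ℝ) (h : ∀ i, ‖a i‖ ≤ C) : H →L[ℂ] H :=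
  LinearMap.mkContinuous
    { toFun := fun z => ⟨fun p => a p * z (π p), memℓp_gen (by simpa using summ_aux a π C h z)⟩
      map_add' := fun x y => by ext p; simp [mul_add]
      map_smul' := fun c x => by ext p; simp; ring } C (by
    intro z
    have hC : 0 ≤ C := (norm_nonneg _).trans (h (0, true))
    refine (sq_le_sq₀ (norm_nonneg _) (by positivity)).1 ?_
    rw [mul_pow, norm_sq, norm_sq, ← π.tsum_eq (fun p => ‖z p‖ ^ 2), ← tsum_mul_left]
    refine Summable.tsum_le_tsum (fun p => ?_) (summ_aux a π C h z)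
      ((π.summable_iff.2 (summ z)).mul_left (C ^ 2))
    show ‖a p * z (π p)‖ ^ 2 ≤ _
    simp only [norm_mul, mul_pow]
    gcongr; exact h p)

theorem op_apply (a : I → ℂ) (π : I ≃ I) (C : ℝ) (h : ∀ i, ‖a i‖ ≤ C) (z : H) (p : I) :
    op a π C h z p = a p * z (π p) := rfl

theorem op_norm (a : I → ℂ) (π : I ≃ I) (C : ℝ) (h : ∀ i, ‖a i‖ ≤ C) : ‖op a π C h‖ ≤ C :=
  LinearMap.mkContinuous_norm_le _ ((norm_nonneg _).trans (h (0, true))) _

theorem le_op_norm (a : I → ℂ) (C : ℝ) (h : ∀ i, ‖a i‖ ≤ C) (p : I) :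
    ‖a p‖ ≤ ‖op a (Equiv.refl _) C h‖ := by
  have h1 := (op a (Equiv.refl _) C h).le_opNorm (lp.single 2 p (1 : ℂ))
  rw [lp.norm_single (by simp), norm_one, mul_one] at h1
  refine le_trans ?_ h1
  have h2 := lp.norm_apply_le_norm (by simp) (op a (Equiv.refl _) C h (lp.single 2 p (1 : ℂ))) p
  rw [op_apply, Equiv.refl_apply, lp.single_apply_self, mul_one] at h2
  exact h2

/-- diagonal unit -/
noncomputable def dg (a b : I → ℂ) (C D : ℝ) (ha : ∀ i, ‖a i‖ ≤ C) (hb : ∀ i, ‖b i‖ ≤ D)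
    (hab : ∀ i, a i * b i = 1) : (H →L[ℂ] H)ˣ where
  val := op a (Equiv.refl _) C ha
  inv := op b (Equiv.refl _) D hb
  val_inv := by
    ext1 z; ext p
    show a p * (b p * z p) = z p
    rw [← mul_assoc, hab, one_mul]
  inv_val := by
    ext1 z; ext p
    show b p * (a p * z p) = z p
    rw [← mul_assoc, mul_comm (b p), hab, one_mul]

/-- the shift on indices -/
def sh : I ≃ I := Equiv.prodCongr (Equiv.addRight 1) (Equiv.refl _)

/-- the bilateral shift -/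
noncomputable def S : H →L[ℂ] H := op (fun _ => 1) sh 1 (fun _ => by simp)

theorem S_apply (z : H) (p : I) : S z p = z (p.1 + 1, p.2) := by
  rw [S, op_apply, one_mul]; rfl

theorem S_iso (z : H) : ‖S z‖ = ‖z‖ := by
  apply (sq_eq_sq₀ (norm_nonneg _) (norm_nonneg _)).1
  rw [norm_sq, norm_sq, ← sh.tsum_eq (fun p => ‖z p‖ ^ 2)]
  simp only [S_apply]; rfl

theorem S_pow_iso (n : ℕ) (z : H) : ‖(S ^ n) z‖ = ‖z‖ := by
  induction n with
  | zero => simp
  | succ n ih => rw [pow_succ', mul_apply_eq_comp, S_iso, ih]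

theorem S_pow_apply (n : ℕ) (z : H) (p : I) : (S ^ n) z p = z (p.1 + n, p.2) := by
  induction n generalizing p with
  | zero => simp
  | succ n ih =>
    have : (S ^ (n + 1)) z = S ((S ^ n) z) := by rw [pow_succ']; rfl
    rw [this, S_apply, ih]
    have : p.1 + 1 + (n : ℤ) = p.1 + ((n + 1 : ℕ) : ℤ) := by push_cast; ring
    simp only [this]

/-- weights -/
noncomputable def a (p : I) : ℂ := if p.1 = 0 then (if p.2 then 2 else 1 / 2) else 1
/-- inverse weights -/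
noncomputable def b (p : I) : ℂ := if p.1 = 0 then (if p.2 then 1 / 2 else 2) else 1
/-- better weights -/
noncomputable def a' (p : I) : ℂ := a p * (if p.2 then 1 else 2)
/-- inverse better weights -/
noncomputable def b' (p : I) : ℂ := b p * (if p.2 then 1 else 1 / 2)

theorem ha (p : I) : ‖a p‖ ≤ 2 := by unfold a; split_ifs <;> norm_num
theorem hb (p : I) : ‖b p‖ ≤ 2 := by unfold b; split_ifs <;> norm_num
theorem ha' (p : I) : ‖a' p‖ ≤ 2 := by unfold a' a; split_ifs <;> norm_num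
theorem hb' (p : I) : ‖b' p‖ ≤ 1 := by unfold b' b; split_ifs <;> norm_num
theorem hab (p : I) : a p * b p = 1 := by unfold a b; split_ifs <;> norm_num
theorem hab' (p : I) : a' p * b' p = 1 := by unfold a' b' a b; split_ifs <;> norm_num

/-- the canonical similarity -/
noncomputable def L : (H →L[ℂ] H)ˣ := dg a b 2 2 ha hb hab
/-- the better similarity -/
noncomputable def M : (H →L[ℂ] H)ˣ := dg a' b' 2 1 ha' hb' hab'

theorem Linv_apply (z : H) : (↑L⁻¹ : H →L[ℂ] H) z =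
    z + (lp.single 2 (0, true) (-(1 / 2) * z (0, true)) + lp.single 2 (0, false) (z (0, false))) := by
  ext p
  show b p * z p = _
  obtain ⟨k, c⟩ := p
  simp only [lp.coeFn_add, Pi.add_apply, lp.single_apply, Pi.single_apply, b]
  by_cases hk : k = 0
  · subst hk; cases c <;> simp <;> ring
  · simp [hk]

theorem coord_zero (y : H) (c : Bool) : Tendsto (fun n : ℕ => ‖y ((n : ℤ), c)‖) atTop (𝓝 0) := by
  have h1 : Function.Injective (fun n : ℕ => (((n : ℤ), c) : I)) := fun m n h => by simpa using h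
  have h2 := ((summ y).comp_injective h1).tendsto_atTop_zero
  have h3 := h2.sqrt
  simpa [Function.comp_def] using h3

theorem result :
    ¬ (∀ (H : Type) [NormedAddCommGroup H] [InnerProductSpace ℂ H] [CompleteSpace H]
      (T S : H →L[ℂ] H) (L : (H →L[ℂ] H)ˣ),
      (∀ x : H, ‖S x‖ = ‖x‖) →
      T = (↑L⁻¹ : H →L[ℂ] H) * S * (↑L : H →L[ℂ] H) →
      (∀ x : H, Tendsto (fun n : ℕ => ‖(T ^ n) x‖) atTop (𝓝 ‖(↑L : H →L[ℂ] H) x‖)) →
      ‖(↑L : H →L[ℂ] H)‖ * ‖(↑L⁻¹ : H →L[ℂ] H)‖ =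
        sInf {r : ℝ | ∃ (M : (H →L[ℂ] H)ˣ) (S' : H →L[ℂ] H),
          (∀ x : H, ‖S' x‖ = ‖x‖) ∧
          T = (↑M⁻¹ : H →L[ℂ] H) * S' * (↑M : H →L[ℂ] H) ∧
          r = ‖(↑M : H →L[ℂ] H)‖ * ‖(↑M⁻¹ : H →L[ℂ] H)‖}) := by
  intro h
  have h1 := h H ((↑L⁻¹ : H →L[ℂ] H) * S * (↑L : H →L[ℂ] H)) S L S_iso rfl (by
    intro x
    have e : ∀ n : ℕ, (((↑L⁻¹ : H →L[ℂ] H) * S * (↑L : H →L[ℂ] H)) ^ n) x =
        (↑L⁻¹ : H →L[ℂ] H) ((S ^ n) ((↑L : H →L[ℂ] H) x)) := by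
      intro n
      rw [Units.conj_pow']; rfl
    simp only [e, Linv_apply]
    set y := (↑L : H →L[ℂ] H) x
    rw [tendsto_iff_dist_tendsto_zero]
    have t1 := ((coord_zero y true).const_mul (1 / 2)).add (coord_zero y false)
    rw [mul_zero, add_zero] at t1
    refine squeeze_zero (fun _ => dist_nonneg) (fun n => ?_) t1
    rw [Real.dist_eq, ← S_pow_iso n y]
    refine (abs_norm_sub_norm_le _ _).trans ?_
    rw [add_sub_cancel_left]
    refine (norm_add_le _ _).trans ?_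
    rw [lp.norm_single (by simp), lp.norm_single (by simp), S_pow_apply, S_pow_apply, norm_mul]
    simp)
  have h2 : (2 : ℝ) ≤ ‖(↑L : H →L[ℂ] H)‖ := by
    have := le_op_norm a 2 ha (0, true)
    exact le_trans (by simp [a]) this
  have h3 : (2 : ℝ) ≤ ‖(↑L⁻¹ : H →L[ℂ] H)‖ := by
    have := le_op_norm b 2 hb (0, false)
    exact le_trans (by simp [b]) this
  have h4 : ‖(↑M : H →L[ℂ] H)‖ ≤ 2 := op_norm _ _ _ ha'
  have h5 : ‖(↑M⁻¹ : H →L[ℂ] H)‖ ≤ 1 := op_norm _ _ _ hb'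
  have h6 : ‖(↑L : H →L[ℂ] H)‖ * ‖(↑L⁻¹ : H →L[ℂ] H)‖ ≤
      ‖(↑M : H →L[ℂ] H)‖ * ‖(↑M⁻¹ : H →L[ℂ] H)‖ := by
    rw [h1]
    refine csInf_le ⟨0, ?_⟩ ⟨M, S, S_iso, ?_, rfl⟩
    · rintro r ⟨_, _, _, _, rfl⟩; positivity
    · ext1 z; ext p
      show b p * S ((↑L : H →L[ℂ] H) z) p = b' p * S ((↑M : H →L[ℂ] H) z) p
      rw [S_apply, S_apply]
      show b p * (a (p.1 + 1, p.2) * z (p.1 + 1, p.2)) = b' p * (a' (p.1 + 1, p.2) * z (p.1 + 1, p.2))
      unfold a' b'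
      obtain ⟨k, c⟩ := p
      cases c <;> simp <;> ring
  have h7 : ‖(↑M : H →L[ℂ] H)‖ * ‖(↑M⁻¹ : H →L[ℂ] H)‖ ≤ 2 * 1 := by gcongr
  have h8 : (2 : ℝ) * 2 ≤ ‖(↑L : H →L[ℂ] H)‖ * ‖(↑L⁻¹ : H →L[ℂ] H)‖ := by gcongr
  linarith

end Pool.Agent.S04368
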