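import Pool.Statements.S04402
import Pool.Agent.Lib.helper18.IidUnit

set_option autoImplicit false
open MeasureTheory Filter Topology
open Pool Pool.MP_3c0e9a_an

namespace Pool.Agent.S04402

open Pool.Agent.Lib.helper18.IidUnit ProbabilityTheory Set

noncomputable abbrev μ : Measure ℝ := volume.restrict (Icc (0 : ℝ) 1)

instance : IsProbabilityMeasure μ := prob_unit

noncomputable def e (m : ℕ) : ℝ := (1 / 2) ^ (m + 2)

theorem e_pos (m : ℕ) : 0 < e m := by unfold e; positivity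
theorem e_le (m : ℕ) : e m ≤ 1 := pow_le_one₀ (by norm_num) (by norm_num)
theorem e_anti {a b : ℕ} (h : a ≤ b) : e b ≤ e a :=
  pow_le_pow_of_le_one (by norm_num) (by norm_num) (by omega)

theorem μ_Iio (m : ℕ) : μ.real (Iio (e m)) = e m := by
  rw [measureReal_def, Measure.restrict_apply measurableSet_Iio]
  have : Iio (e m) ∩ Icc 0 1 = Ico 0 (e m) := by
    ext x
    simp only [mem_inter_iff, mem_Iio, mem_Icc, mem_Ico]
    exact ⟨fun h => ⟨h.2.1, h.1⟩, fun h => ⟨h.2, h.1, h.2.le.trans (e_le m)⟩⟩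
  rw [this, Real.volume_Ico, sub_zero, ENNReal.toReal_ofReal (e_pos m).le]

noncomputable def M (y : ℝ) : ℕ := ⌊y⁻¹⌋₊

theorem M_meas : Measurable M := measurable_inv.nat_floor

theorem μ_M (m : ℕ) : μ {y | m + 1 ≤ M y} = ENNReal.ofReal (1 / ((m + 1 : ℕ) : ℝ)) := by
  have hm : (1 : ℝ) ≤ ((m + 1 : ℕ) : ℝ) := by exact_mod_cast Nat.le_add_left 1 m
  have : {y | m + 1 ≤ M y} = Ioc 0 (1 / ((m + 1 : ℕ) : ℝ)) := by
    ext y
    simp only [M, mem_ofPred_eq, mem_Ioc]
    rw [Nat.le_floor_iff' (by omega)]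
    constructor
    · intro h
      have h1 : 0 < y := inv_pos.1 (by linarith)
      exact ⟨h1, by rw [one_div]; exact (le_inv_comm₀ (by linarith) h1).1 h⟩
    · rintro ⟨h1, h2⟩
      rw [one_div] at h2
      exact (le_inv_comm₀ (by linarith) h1).2 h2
  rw [this, Measure.restrict_apply measurableSet_Ioc, inter_eq_left.2, Real.volume_Ioc, sub_zero]
  exact fun y hy => ⟨hy.1.le, hy.2.trans ((div_le_one (by linarith)).2 hm)⟩

noncomputable def v (m : ℕ) (y : ℝ) : ℝ := (Iio (e m)).indicator (fun _ => (e m)⁻¹) y - 1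

theorem v_meas (m : ℕ) : Measurable (v m) :=
  (measurable_const.indicator measurableSet_Iio).sub measurable_const

section
variable {ξ : ℕ → ℝ → ℝ} (hm : ∀ k, Measurable (ξ k)) (hl : ∀ k, μ.map (ξ k) = μ)
include hm

theorem X_eq (k m : ℕ) : v m ∘ ξ k =
    fun s => (ξ k ⁻¹' Iio (e m)).indicator (fun _ => (e m)⁻¹) s - 1 := by
  have := hm
  funext s
  simp only [Function.comp, v, indicator, mem_preimage]

theorem ind_int (k m : ℕ) (ν : Measure ℝ) [IsFiniteMeasure ν] :
    Integrable ((ξ k ⁻¹' Iio (e m)).indicator (fun _ => (e m)⁻¹)) ν :=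
  (integrable_const _).indicator (hm k measurableSet_Iio)

theorem X_int (k m : ℕ) : Integrable (v m ∘ ξ k) μ := by
  rw [X_eq hm]; exact (ind_int hm k m μ).sub (integrable_const _)

noncomputable def U (k m : ℕ) : Lp ℝ 1 μ := (memLp_one_iff_integrable.2 (X_int hm k m)).toLp _

theorem U_coe (k m : ℕ) : U hm k m =ᵐ[μ] v m ∘ ξ k := MemLp.coeFn_toLp _

include hl

theorem pre (k : ℕ) {s : Set ℝ} (hs : MeasurableSet s) : μ (ξ k ⁻¹' s) = μ s := by
  rw [← Measure.map_apply (hm k) hs, hl]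

theorem ind_val (k m : ℕ) :
    ∫ s, (ξ k ⁻¹' Iio (e m)).indicator (fun _ => (e m)⁻¹) s ∂μ = 1 := by
  rw [integral_indicator_const _ (hm k measurableSet_Iio), measureReal_def,
    pre hm hl k measurableSet_Iio, ← measureReal_def, μ_Iio, smul_eq_mul,
    mul_inv_cancel₀ (e_pos m).ne']

theorem X_mean (k m : ℕ) : ∫ s, (v m ∘ ξ k) s ∂μ = 0 := by
  rw [X_eq hm, integral_sub (ind_int hm k m μ) (integrable_const _), ind_val hm hl]
  simp

theorem U_norm (k m : ℕ) : ‖U hm k m‖ ≤ 2 := by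
  rw [L1.norm_eq_integral_norm]
  have h1 : ∫ s, ‖U hm k m s‖ ∂μ ≤
      ∫ s, ((ξ k ⁻¹' Iio (e m)).indicator (fun _ => (e m)⁻¹) s + 1) ∂μ := by
    refine integral_mono_ae (L1.integrable_coeFn _).norm
      ((ind_int hm k m μ).add (integrable_const _)) ?_
    filter_upwards [U_coe hm k m] with s hs
    rw [hs, X_eq hm]
    refine (norm_sub_le _ _).trans ?_
    rw [norm_one, Real.norm_of_nonneg]
    exact indicator_nonneg (fun _ _ => (inv_pos.2 (e_pos m)).le) _
  rw [integral_add (ind_int hm k m μ) (integrable_const _), ind_val hm hl] at h1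
  simp only [integral_const, probReal_univ, smul_eq_mul, mul_one] at h1
  linarith

theorem weak1 (hi : iIndepFun ξ μ) (x : Lp ℝ 1 μ →L[ℝ] ℝ) (m : ℕ) (η : ℝ) (hη : 0 < η) :
    ∀ᶠ k in atTop, x (U hm k m) < η := by
  by_contra hc
  rw [not_eventually] at hc
  obtain ⟨φ, hφ, h1⟩ := extraction_of_frequently_atTop hc
  have hi2 : iIndepFun (fun i => v m ∘ ξ (φ i)) μ :=
    (hi.precomp hφ.injective).comp (fun _ => v m) fun _ => v_meas m
  have hid : ∀ i, IdentDistrib (v m ∘ ξ (φ i)) (v m ∘ ξ (φ 0)) μ μ := fun i =>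
    IdentDistrib.comp ⟨(hm _).aemeasurable, (hm _).aemeasurable, by rw [hl, hl]⟩ (v_meas m)
  have h2 := strong_law_Lp (p := 1) le_rfl ENNReal.one_ne_top (fun i => v m ∘ ξ (φ i))
    (memLp_one_iff_integrable.2 (X_int hm _ m)) (fun i j hij => hi2.indepFun hij) hid
  rw [X_mean hm hl] at h2
  set A : ℕ → Lp ℝ 1 μ := fun n => (n : ℝ)⁻¹ • ∑ i ∈ Finset.range n, U hm (φ i) m with hA
  have h3 : Tendsto A atTop (𝓝 0) := by
    rw [tendsto_zero_iff_norm_tendsto_zero]
    have := (ENNReal.tendsto_toReal ENNReal.zero_ne_top).comp h2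
    refine this.congr fun n => ?_
    rw [Lp.norm_def]
    simp only [Function.comp]
    congr 1
    refine eLpNorm_congr_ae ?_
    have a1 : ∀ᵐ s ∂μ, ∀ i, U hm (φ i) m s = (v m ∘ ξ (φ i)) s :=
      ae_all_iff.2 fun i => U_coe hm _ m
    filter_upwards [Lp.coeFn_smul (n : ℝ)⁻¹ (∑ i ∈ Finset.range n, U hm (φ i) m),
      Lp.coeFn_fun_finsetSum (Finset.range n) (fun i => U hm (φ i) m), a1] with s b1 b2 b3
    rw [hA]
    simp only
    rw [b1, Pi.smul_apply, b2]
    simp only [b3, Function.comp, sub_zero]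
  have h4 := (x.continuous.tendsto 0).comp h3
  rw [map_zero] at h4
  have h5 : η ≤ 0 := by
    refine ge_of_tendsto h4 ?_
    filter_upwards [eventually_ge_atTop 1] with n hn
    have hn' : (0 : ℝ) < n := by exact_mod_cast hn
    simp only [Function.comp, hA, map_smul, map_sum, smul_eq_mul]
    have := Finset.card_nsmul_le_sum (Finset.range n) (fun i => x (U hm (φ i) m)) η
      (fun i _ => not_lt.1 (h1 i))
    rw [Finset.card_range, nsmul_eq_mul] at this
    rw [inv_mul_eq_div, le_div_iff₀ hn']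
    linarith
  linarith

theorem weak2 (hi : iIndepFun ξ μ) (x : Lp ℝ 1 μ →L[ℝ] ℝ) (m : ℕ) (η : ℝ) (hη : 0 < η) :
    ∀ᶠ k in atTop, ‖x (U hm k m)‖ < η := by
  filter_upwards [weak1 hm hl hi x m η hη, weak1 hm hl hi (-x) m η hη] with k h1 h2
  rw [_root_.neg_apply] at h2
  rw [Real.norm_eq_abs, abs_lt]
  exact ⟨by linarith, h1⟩

theorem inMeasure (hi : iIndepFun ξ μ) (x : Lp ℝ 1 μ →L[ℝ] ℝ) :
    TendstoInMeasure μ (fun n t => x (U hm n (M (ξ n t)))) atTop (fun _ => (0 : ℝ)) := by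
  rw [tendstoInMeasure_iff_norm]
  intro ε hε
  rw [ENNReal.tendsto_nhds_zero]
  intro δ hδ
  have h1 : Tendsto (fun m : ℕ => ENNReal.ofReal (1 / ((m + 1 : ℕ) : ℝ))) atTop (𝓝 0) := by
    have := ENNReal.tendsto_ofReal (tendsto_one_div_add_atTop_nhds_zero_nat (𝕜 := ℝ))
    simpa using this
  obtain ⟨m0, hm0⟩ := (ENNReal.tendsto_nhds_zero.1 h1 δ hδ).exists
  have h2 : ∀ᶠ k in atTop, ∀ m ∈ Finset.range (m0 + 1), ‖x (U hm k m)‖ < ε :=
    (Finset.eventually_all _).2 fun m _ => weak2 hm hl hi x m ε hε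
  filter_upwards [h2] with k hk
  refine le_trans ?_ hm0
  rw [← μ_M, ← pre hm hl k (measurableSet_le measurable_const M_meas)]
  refine measure_mono fun t ht => ?_
  simp only [mem_ofPred_eq, sub_zero, mem_preimage] at ht ⊢
  by_contra hc
  exact absurd (hk _ (Finset.mem_range.2 (by omega))) (not_lt.2 ht)

end

noncomputable def XS (S : Set ℝ) : Lp ℝ 1 μ →L[ℝ] ℝ :=
  (L1.integralCLM (α := ℝ) (E := ℝ) (μ := μ.restrict S)) ∘L (LpToLpRestrictCLM ℝ ℝ ℝ μ 1 S)

theorem XS_apply (S : Set ℝ) (g : Lp ℝ 1 μ) : XS S g = ∫ s in S, g s ∂μ := by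
  rw [XS, ContinuousLinearMap.comp_apply, ← L1.integral_eq, L1.integral_eq_integral]
  exact integral_congr_ae (LpToLpRestrictCLM_coeFn ℝ S g)

theorem result :
    ¬ (∀ f : ℕ → ℝ → MeasureTheory.Lp ℝ 1 (MeasureTheory.volume.restrict (Set.Icc (0:ℝ) 1)),
      (∀ n, MeasureTheory.AEStronglyMeasurable (f n)
          (MeasureTheory.volume.restrict (Set.Icc (0:ℝ) 1))) →
      (∃ C : ℝ, ∀ n, ∀ᵐ t ∂(MeasureTheory.volume.restrict (Set.Icc (0:ℝ) 1)), ‖f n t‖ ≤ C) →
      (∀ x : MeasureTheory.Lp ℝ 1 (MeasureTheory.volume.restrict (Set.Icc (0:ℝ) 1)) →L[ℝ] ℝ,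
          MeasureTheory.TendstoInMeasure (MeasureTheory.volume.restrict (Set.Icc (0:ℝ) 1))
            (fun n t => x (f n t)) atTop (fun _ => (0:ℝ))) →
      ∃ φ : ℕ → ℕ, StrictMono φ ∧
        ∀ x : MeasureTheory.Lp ℝ 1 (MeasureTheory.volume.restrict (Set.Icc (0:ℝ) 1)) →L[ℝ] ℝ,
          ∀ᵐ t ∂(MeasureTheory.volume.restrict (Set.Icc (0:ℝ) 1)),
            Tendsto (fun k => x (f (φ k) t)) atTop (𝓝 (0:ℝ))) := by
  intro H
  obtain ⟨ξ, hm, hi, hl⟩ := exists_iid μ
  obtain ⟨φ, hφ, h⟩ := H (fun k t => U hm k (M (ξ k t)))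
    (fun k => ((continuous_of_discreteTopology (f := U hm k)).comp_stronglyMeasurable
      (M_meas.comp (hm k)).stronglyMeasurable).aestronglyMeasurable)
    ⟨2, fun k => Eventually.of_forall fun t => U_norm hm hl _ _⟩ (inMeasure hm hl hi)
  set S : Set ℝ := ⋃ j, ξ (φ j) ⁻¹' Iio (e j) with hS
  have Sm : MeasurableSet S := MeasurableSet.iUnion fun j => hm _ measurableSet_Iio
  have S1 : μ.real S ≤ 1 / 2 := by
    have a1 : HasSum e (1 / 2) := by
      have := hasSum_geometric_two.mul_right (1 / 4 : ℝ)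
      have e1 : e = fun i => (1 / 2) ^ i * (1 / 4) := by
        funext n; rw [e, pow_add]; norm_num
      have e2 : (1 / 2 : ℝ) = 2 * (1 / 4) := by norm_num
      rw [e1]; nth_rewrite 2 [e2]; exact this
    have a2 : μ S ≤ ENNReal.ofReal (1 / 2) := by
      refine (measure_iUnion_le _).trans (le_of_eq ?_)
      rw [← a1.tsum_eq, ENNReal.ofReal_tsum_of_nonneg (fun n => (e_pos n).le) a1.summable]
      refine tsum_congr fun j => ?_
      rw [pre hm hl _ measurableSet_Iio]
      nth_rewrite 2 [← μ_Iio j]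
      rw [ofReal_measureReal]
    exact ENNReal.toReal_le_of_le_ofReal (by norm_num) a2
  have big : ∀ j m, j ≤ m → 1 / 2 ≤ XS S (U hm (φ j) m) := by
    intro j m hjm
    rw [XS_apply, integral_congr_ae (ae_restrict_of_ae (U_coe hm (φ j) m)), X_eq hm,
      integral_sub (ind_int hm _ m _) (integrable_const _),
      setIntegral_eq_integral_of_forall_compl_eq_zero, ind_val hm hl]
    · simp only [integral_const, MeasurableSet.univ, measureReal_restrict_apply, univ_inter,
        smul_eq_mul, mul_one]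
      linarith
    · intro s hs
      refine indicator_of_notMem (fun hc => hs ?_) _
      exact mem_iUnion.2 ⟨j, lt_of_lt_of_le (mem_Iio.1 hc) (e_anti hjm)⟩
  set s : ℕ → Set ℝ := fun j => ξ (φ j) ⁻¹' {y | j + 1 ≤ M y} with hs
  have m0 : ∀ j, MeasurableSet {y | j + 1 ≤ M y} := fun j =>
    measurableSet_le measurable_const M_meas
  have sm : ∀ j, MeasurableSet (s j) := fun j => hm _ (m0 j)
  have si : iIndepSet s μ := by
    rw [iIndepSet_iff_meas_biInter sm]
    intro T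
    exact (hi.precomp hφ.injective).measure_inter_preimage_eq_mul T fun j _ => m0 j
  have sd : ∑' j, μ (s j) = ⊤ := by
    by_contra hc
    have a1 := ENNReal.summable_toReal hc
    apply Real.not_summable_one_div_natCast
    rw [← summable_nat_add_iff 1]
    refine a1.congr fun j => ?_
    rw [hs]
    simp only
    rw [pre hm hl _ (m0 j), μ_M, ENNReal.toReal_ofReal (by positivity)]
  have l1 := measure_limsup_eq_one sm si sd
  have l0 : μ (limsup s atTop) = 0 := by
    rw [measure_eq_zero_iff_ae_notMem]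
    filter_upwards [h (XS S)] with t ht hc
    rw [mem_limsup_iff_frequently_mem] at hc
    obtain ⟨j, j1, j2⟩ := (hc.and_eventually (ht.eventually (gt_mem_nhds one_half_pos))).exists
    have j3 : j + 1 ≤ M (ξ (φ j) t) := j1
    linarith [big j _ (le_trans (Nat.le_succ j) j3)]
  rw [l0] at l1
  exact zero_ne_one l1

end Pool.Agent.S04402
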