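import Pool.Statements.S04412
import Pool.Agent.H.MP_3d1c33_an.D

set_option autoImplicit false
open Filter Topology
open Pool Pool.MP_3d1c33_an

namespace Pool.Agent.S04412

theorem result :
    ¬ (∀ (𝕜 : Type) [RCLike 𝕜] (E : Type) [NormedAddCommGroup E] [NormedSpace 𝕜 E]
      [CompleteSpace E],
      (∃ v : ℕ → (E →L[𝕜] E),
        (∀ n, v n ≠ 0) ∧
        (∀ n m, (v n).comp (v m) = if n = m then v n else 0) ∧
        (∀ x : E, Tendsto (fun N => ∑ n ∈ Finset.range N, v n x) atTop (𝓝 x))) →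
      ∃ w : ℕ → (E →L[𝕜] E),
        (∀ n, w n ≠ 0) ∧
        (∀ n m, (w n).comp (w m) = if n = m then w n else 0) ∧
        (∀ x : E, Tendsto (fun N => ∑ n ∈ Finset.range N, w n x) atTop (𝓝 x)) ∧
        (∀ n, ‖w n‖ = 1)) := by
  intro h
  obtain ⟨w, h0, h1, h2, h3⟩ := h ℝ Pool.Agent.H.MP_3d1c33_an.E Pool.Agent.H.MP_3d1c33_an.has_dec
  exact Pool.Agent.H.MP_3d1c33_an.no_normal w h0 h1 h2 h3

end Pool.Agent.S04412
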