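import Pool.Statements.S04418
import Pool.Agent.H.MP_3d411c_an.G

set_option autoImplicit false
open Pool Pool.MP_3d411c_an

namespace Pool.Agent.S04418

theorem result :
    ¬ (∀ (R : Type) [NonUnitalNormedCommRing R] [NormedSpace ℂ R] [IsScalarTower ℂ R R]
      [SMulCommClass ℂ R R] [CompleteSpace R],
      (∀ x : R, spectrum ℂ (Unitization.inr x : Unitization ℂ R) ⊆ {0}) →
      (∃ a : ℝ → R, (∀ s t : ℝ, 0 < s → 0 < t → a (s + t) = a s * a t) ∧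
          ∃ t : ℝ, 0 < t ∧ a t ≠ 0) →
      ∃ b : ℝ → R, (∀ s t : ℝ, 0 < s → 0 < t → b (s + t) = b s * b t) ∧
          (∃ t : ℝ, 0 < t ∧ b t ≠ 0) ∧ ContinuousOn b (Set.Ioi 0)) := by
  intro h
  obtain ⟨R, _, _, _, _, _, h1, -, ⟨a, h2, h3, -⟩, h4⟩ := Pool.Agent.H.MP_3d411c_an.main
  obtain ⟨b, hb, ⟨t, ht, hne⟩, hc⟩ := h R
    (fun x => by rw [← Unitization.quasispectrum_eq_spectrum_inr]; exact h1 x)
    ⟨a, h2, 1, one_pos, h3 1 one_pos⟩
  exact hne (h4 b hb hc t ht)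

end Pool.Agent.S04418
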