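import Pool.Statements.S04440
import Pool.Agent.H.MP_3fbb5c_an.E

set_option autoImplicit false
open Filter Topology
open Pool Pool.MP_3fbb5c_an

namespace Pool.Agent.S04440

open Pool.Agent.H.MP_3fbb5c_an

section
variable {X Y : Type} [NormedAddCommGroup X] [NormedSpace ℂ X] [NormedAddCommGroup Y]
  [NormedSpace ℂ Y] (e : X ≃L[ℂ] Y)

lemma tr_an {f : Y → Y} (h : AnalyticAt ℂ f 0) : AnalyticAt ℂ (e.symm ∘ f ∘ e) 0 :=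
  (e.symm.analyticAt _).comp (h.comp_of_eq (e.analyticAt 0) (map_zero e))

lemma tr_ev {f g : Y → Y} (h : f =ᶠ[𝓝 0] g) : e.symm ∘ f ∘ e =ᶠ[𝓝 0] e.symm ∘ g ∘ e := by
  have t : Tendsto e (𝓝 0) (𝓝 0) := e.continuous.tendsto' _ _ (map_zero e)
  filter_upwards [t.eventually h] with x hx
  simp only [Function.comp, hx]

lemma tr_id {f g : Y → Y} (h : f ∘ g =ᶠ[𝓝 0] id) :
    (e.symm ∘ f ∘ e) ∘ (e.symm ∘ g ∘ e) =ᶠ[𝓝 0] id := by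
  filter_upwards [tr_ev e h] with x hx
  simpa using hx

lemma tr_3 {f g : Y → Y} (h : f ∘ g ∘ f =ᶠ[𝓝 0] g) :
    (e.symm ∘ f ∘ e) ∘ (e.symm ∘ g ∘ e) ∘ (e.symm ∘ f ∘ e) =ᶠ[𝓝 0] e.symm ∘ g ∘ e := by
  filter_upwards [tr_ev e h] with x hx
  simpa using hx

lemma tr_it (f : Y → Y) (k : ℕ) : (e.symm ∘ f ∘ e)^[k] = e.symm ∘ f^[k] ∘ e := by
  induction k with
  | zero => ext x; simp
  | succ k ih => rw [Function.iterate_succ, ih]; ext x; simp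

end

theorem result :
    ¬ (∀ n : ℕ, 2 ≤ n → ∀ f : (Fin n → ℂ) → (Fin n → ℂ),
      (AnalyticAt ℂ f 0 ∧ f 0 = 0 ∧
        ∃ g : (Fin n → ℂ) → (Fin n → ℂ), AnalyticAt ℂ g 0 ∧ g 0 = 0 ∧
          g ∘ f =ᶠ[𝓝 (0 : Fin n → ℂ)] id ∧ f ∘ g =ᶠ[𝓝 (0 : Fin n → ℂ)] id) →
      (∃ h : (Fin n → ℂ) → (Fin n → ℂ),
        (AnalyticAt ℂ h 0 ∧ h 0 = 0 ∧
          ∃ g : (Fin n → ℂ) → (Fin n → ℂ), AnalyticAt ℂ g 0 ∧ g 0 = 0 ∧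
            g ∘ h =ᶠ[𝓝 (0 : Fin n → ℂ)] id ∧ h ∘ g =ᶠ[𝓝 (0 : Fin n → ℂ)] id) ∧
        f ∘ h ∘ f =ᶠ[𝓝 (0 : Fin n → ℂ)] h) →
      ∃ h : (Fin n → ℂ) → (Fin n → ℂ),
        (AnalyticAt ℂ h 0 ∧ h 0 = 0 ∧
          ∃ g : (Fin n → ℂ) → (Fin n → ℂ), AnalyticAt ℂ g 0 ∧ g 0 = 0 ∧
            g ∘ h =ᶠ[𝓝 (0 : Fin n → ℂ)] id ∧ h ∘ g =ᶠ[𝓝 (0 : Fin n → ℂ)] id) ∧
        f ∘ h ∘ f =ᶠ[𝓝 (0 : Fin n → ℂ)] h ∧
        ∃ k : ℕ, 0 < k ∧ h^[k] =ᶠ[𝓝 (0 : Fin n → ℂ)] id) := by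
  intro H
  let e : (Fin 3 → ℂ) ≃L[ℂ] ℂ × ℂ × ℂ := ContinuousLinearEquiv.ofFinrankEq (by simp)
  have pa : ∀ t : ℂ, AnalyticAt ℂ (PP t) 0 := fun t => PP_an (τ := fun _ => t) analyticAt_const
  have pi2 : PP (Real.pi * Complex.I) ∘ PP (-(Real.pi * Complex.I)) =ᶠ[𝓝 0] id := by
    simpa using P_inv (t := -(Real.pi * Complex.I)) (by rw [norm_neg]; exact npi)
  obtain ⟨σ, ⟨a1, a2, g, a3, a4, _, a6⟩, a7, k, hk, a8⟩ := H 3 (by norm_num)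
    (e.symm ∘ FF aa HH ∘ e)
    ⟨tr_an e F_an, by simp [F0], e.symm ∘ GG ∘ e, tr_an e G_an, by simp [GG, PP_at],
      tr_id e GF, tr_id e FG⟩
    ⟨e.symm ∘ PP (Real.pi * Complex.I) ∘ e, ⟨tr_an e (pa _), by simp [PP_at],
      e.symm ∘ PP (-(Real.pi * Complex.I)) ∘ e, tr_an e (pa _), by simp [PP_at],
      tr_id e (P_inv npi), tr_id e pi2⟩, tr_3 e FPF⟩
  have b1 := tr_an e.symm a1
  have b3 := tr_an e.symm a3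
  have b6 := tr_id e.symm a6
  have b4 : (e.symm.symm ∘ g ∘ e.symm) 0 = 0 := by simp [a4]
  refine no_rev (σ := e.symm.symm ∘ σ ∘ e.symm) good (fun w => by simp [aa]) b1 (by simp [a2])
    ?_ ?_ hk ?_
  · have c1 := (b4.symm ▸ b1.differentiableAt.hasFDerivAt :
      HasFDerivAt (e.symm.symm ∘ σ ∘ e.symm) (fderiv ℂ (e.symm.symm ∘ σ ∘ e.symm) 0)
        ((e.symm.symm ∘ g ∘ e.symm) 0)).comp 0 b3.differentiableAt.hasFDerivAt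
    have c2 := c1.unique ((hasFDerivAt_id 0).congr_of_eventuallyEq b6)
    intro y
    exact ⟨_, DFunLike.congr_fun c2 y⟩
  · filter_upwards [tr_ev e.symm a7] with x hx
    simpa using hx
  · rw [tr_it]
    filter_upwards [tr_ev e.symm a8] with x hx
    simpa using hx

end Pool.Agent.S04440
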