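import Pool.Statements.S04442
-- import your own Pool.Agent.* helpers here

set_option autoImplicit false
open Filter Topology NNReal
open Pool Pool.MP_3fe7c1_an

namespace Pool.Agent.S04442

open MeasureTheory BoundedContinuousFunction

abbrev P := (ℝ≥0 →ᵇ ℂ) × Lp ℂ 1 (volume : Measure ℝ)

def XS : Submodule ℂ P where
  carrier := {x | Tendsto x.1 atTop (𝓝 0) ∧
    ∀ᵐ s : ℝ, 0 ≤ s → x.2 s = (Real.exp s : ℂ) * x.1 s.toNNReal}
  add_mem' := by
    rintro x y ⟨h1, h2⟩ ⟨h3, h4⟩
    refine ⟨by simpa [Pi.add_def] using h1.add h3, ?_⟩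
    filter_upwards [h2, h4, Lp.coeFn_add x.2 y.2] with s a b c hs
    simp only [Prod.snd_add, Prod.fst_add, c, Pi.add_apply, a hs, b hs, BoundedContinuousFunction.add_apply]
    ring
  zero_mem' := by
    refine ⟨tendsto_const_nhds (x := (0 : ℂ)), ?_⟩
    filter_upwards [Lp.coeFn_zero ℂ 1 (volume : Measure ℝ)] with s c hs
    simp [c]
  smul_mem' := by
    rintro c x ⟨h1, h2⟩
    refine ⟨by simpa using h1.const_smul c, ?_⟩
    filter_upwards [h2, Lp.coeFn_smul c x.2] with s a b hs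
    simp only [Prod.smul_snd, Prod.smul_fst, b, Pi.smul_apply, a hs, BoundedContinuousFunction.smul_apply, smul_eq_mul]
    ring

lemma XS_closed : IsClosed (XS : Set P) := by
  refine isClosed_of_closure_subset fun x hx => ?_
  obtain ⟨u, hu, hl⟩ := mem_closure_iff_seq_limit.1 hx
  have h1 : Tendsto (fun n => (u n).1) atTop (𝓝 x.1) := (continuous_fst.tendsto x).comp hl
  have h2 : Tendsto (fun n => (u n).2) atTop (𝓝 x.2) := (continuous_snd.tendsto x).comp hl
  constructor
  · rw [Metric.tendsto_nhds]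
    intro ε hε
    obtain ⟨n, hn⟩ := ((Metric.tendsto_nhds.1 h1) (ε / 2) (by linarith)).exists
    filter_upwards [Metric.tendsto_nhds.1 (hu n).1 (ε / 2) (by linarith)] with s hs
    have := (u n).1.dist_coe_le_dist (g := x.1) s
    have h3 := dist_triangle_left (x.1 s) 0 ((u n).1 s)
    linarith
  · obtain ⟨ns, hns, hae⟩ := (tendstoInMeasure_of_tendsto_Lp h2).exists_seq_tendsto_ae
    have h4 : ∀ᵐ s : ℝ, ∀ n, 0 ≤ s → (u n).2 s = (Real.exp s : ℂ) * (u n).1 s.toNNReal :=
      ae_all_iff.2 fun n => (hu n).2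
    filter_upwards [hae, h4] with s a b hs
    have h5 : Tendsto (fun i => (u (ns i)).1 s.toNNReal) atTop (𝓝 (x.1 s.toNNReal)) :=
      ((BoundedContinuousFunction.evalCLM ℂ s.toNNReal).continuous.tendsto x.1).comp
        (h1.comp hns.tendsto_atTop)
    refine tendsto_nhds_unique a ?_
    simp only [b _ hs]
    exact h5.const_mul _

instance : CompleteSpace XS := XS_closed.completeSpace_coe

noncomputable def sh (t : ℝ≥0) : C(ℝ≥0, ℝ≥0) := ⟨fun s => s + t, by fun_prop⟩
noncomputable def shR (t : ℝ≥0) : C(ℝ, ℝ) := ⟨fun s => s + t, by fun_prop⟩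
lemma shR_mp (t : ℝ≥0) : MeasurePreserving (shR t) volume volume :=
  measurePreserving_add_right volume (t : ℝ)

noncomputable def TP (t : ℝ≥0) : P →L[ℂ] P :=
  (compContinuousCLM ℂ ℂ (sh t)).prodMap
    ((Real.exp (-t) : ℂ) • (Lp.compMeasurePreservingₗᵢ ℂ (shR t) (shR_mp t)).toContinuousLinearMap)

lemma TP1 (t : ℝ≥0) (x : P) (s : ℝ≥0) : (TP t x).1 s = x.1 (s + t) := rfl
lemma TP2' (t : ℝ≥0) (x : P) : (TP t x).2 = (Real.exp (-t) : ℂ) •
    Lp.compMeasurePreserving (shR t) (shR_mp t) x.2 := rfl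
lemma TP2 (t : ℝ≥0) (x : P) : ∀ᵐ s : ℝ, (TP t x).2 s = (Real.exp (-t) : ℂ) * x.2 (s + t) := by
  rw [TP2']
  filter_upwards [Lp.coeFn_smul (Real.exp (-t) : ℂ) (Lp.compMeasurePreserving (shR t) (shR_mp t) x.2),
    Lp.coeFn_compMeasurePreserving x.2 (shR_mp t)] with s a b
  rw [a, Pi.smul_apply, b]; rfl
lemma TP2n (t : ℝ≥0) (x : P) : ‖(TP t x).2‖ = Real.exp (-t) * ‖x.2‖ := by
  rw [TP2', norm_smul, Lp.norm_compMeasurePreserving, Complex.norm_real, Real.norm_of_nonneg (Real.exp_pos _).le]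

lemma TP_mem (t : ℝ≥0) (x : P) (hx : x ∈ XS) : TP t x ∈ XS := by
  constructor
  · exact hx.1.comp (tendsto_atTop_mono (f := id) (fun s => le_self_add) tendsto_id)
  · filter_upwards [TP2 t x, (shR_mp t).quasiMeasurePreserving.ae hx.2] with s a b hs
    have b' := b (by simp only [shR, ContinuousMap.coe_mk]; positivity)
    simp only [shR, ContinuousMap.coe_mk] at b'
    rw [a, b', TP1, Real.toNNReal_add hs t.coe_nonneg, Real.toNNReal_coe, ← mul_assoc, ← Complex.ofReal_mul,
      ← Real.exp_add]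
    congr 3; ring

noncomputable def T (t : ℝ≥0) : XS →L[ℂ] XS := (TP t).restrict (TP_mem t)
lemma T_val (t : ℝ≥0) (x : XS) : (T t x : P) = TP t x := rfl

lemma T_zero : T 0 = 1 := by
  ext x : 2
  rw [T_val]
  refine Prod.ext ?_ ?_
  · ext s; simp [TP1]
  · refine Lp.ext ?_
    filter_upwards [TP2 0 x] with s a
    simpa using a

lemma T_add (s t : ℝ≥0) : T (s + t) = T s * T t := by
  ext x : 2
  show TP (s + t) x = TP s (TP t x)
  refine Prod.ext ?_ ?_
  · ext u; simp [TP1, add_assoc]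
  · refine Lp.ext ?_
    filter_upwards [TP2 (s + t) x, TP2 s (TP t x), (shR_mp s).quasiMeasurePreserving.ae (TP2 t x)]
      with u a b c
    simp only [shR, ContinuousMap.coe_mk] at c
    rw [a, b, c, ← mul_assoc, ← Complex.ofReal_mul, ← Real.exp_add, NNReal.coe_add, add_assoc]
    congr 3; ring

lemma T_cont (x : XS) : Continuous fun t : ℝ≥0 => T t x := by
  refine Continuous.subtype_mk (f := fun t => TP t x) ?_ _
  refine Continuous.prodMk (f := fun t => (TP t x).1) (g := fun t => (TP t x).2) ?_ ?_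
  · have hu : UniformContinuous (x.1.1 : ℝ≥0 → ℂ) :=
      x.1.1.continuous.uniformContinuous_of_tendsto_cocompact (by rw [cocompact_eq_atTop]; exact x.2.1)
    rw [Metric.continuous_iff]
    intro t ε hε
    obtain ⟨δ, hδ, h⟩ := Metric.uniformContinuous_iff.1 hu (ε / 2) (by linarith)
    refine ⟨δ, hδ, fun a ha => ?_⟩
    refine lt_of_le_of_lt ((BoundedContinuousFunction.dist_le (C := ε / 2) (by linarith)).2 fun s => ?_)
      (by linarith)
    rw [TP1, TP1]
    refine (h ?_).le
    simpa [NNReal.dist_eq] using ha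
  · simp only [TP2']
    refine Continuous.smul (f := fun t : ℝ≥0 => (Real.exp (-t) : ℂ)) (by fun_prop) ?_
    refine Continuous.compMeasurePreservingLp continuous_const ?_ shR_mp (by simp)
    refine ContinuousMap.continuous_of_continuous_uncurry _ ?_
    show Continuous fun p : ℝ≥0 × ℝ => p.2 + (p.1 : ℝ)
    fun_prop

lemma T_stable (x : XS) : Tendsto (fun t : ℝ≥0 => T t x) atTop (𝓝 0) := by
  rw [tendsto_subtype_rng]
  show Tendsto (fun t => ((TP t x).1, (TP t x).2)) atTop (𝓝 ((0 : ℝ≥0 →ᵇ ℂ), (0 : Lp ℂ 1 volume)))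
  refine Tendsto.prodMk_nhds ?_ ?_
  · rw [Metric.tendsto_nhds]
    intro ε hε
    obtain ⟨a, ha⟩ := eventually_atTop.1 (Metric.tendsto_nhds.1 x.2.1 (ε / 2) (by linarith))
    filter_upwards [eventually_ge_atTop a] with t ht
    refine lt_of_le_of_lt ((BoundedContinuousFunction.dist_le (C := ε / 2) (by linarith)).2 fun s => ?_)
      (by linarith)
    rw [TP1]
    exact (ha _ (ht.trans le_add_self)).le
  · rw [tendsto_zero_iff_norm_tendsto_zero]
    simp only [TP2n]
    have := (Real.tendsto_exp_neg_atTop_nhds_zero.comp (NNReal.tendsto_coe_atTop.2 tendsto_id)).mul_const ‖x.1.2‖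
    simpa [Function.comp_def] using this

lemma T_big (t : ℝ≥0) : 1 ≤ ‖T t‖ := by
  set δ : ℝ := Real.exp (-(t + 2)) with hδ
  have δ0 : 0 < δ := Real.exp_pos _
  have δ1 : δ ≤ 1 := Real.exp_le_one_iff.2 (by have := t.2; linarith)
  set b : ℝ → ℝ := fun s => max 0 (1 - |s - t| / δ) with hb
  have bc : Continuous b := by fun_prop
  have b0 : ∀ s, 0 ≤ b s := fun s => le_max_left _ _
  have b1 : ∀ s, b s ≤ 1 := fun s => max_le zero_le_one (by have := div_nonneg (abs_nonneg (s - t)) δ0.le; linarith)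
  have bz : ∀ s, s ∉ Set.Icc (t - δ) (t + δ) → b s = 0 := by
    intro s hs
    refine max_eq_left ?_
    have : δ ≤ |s - t| := by
      by_contra h
      have := abs_lt.1 (not_le.1 h)
      exact hs ⟨by linarith [this.1], by linarith [this.2]⟩
    have := (one_le_div δ0).2 this
    linarith
  let f : ℝ≥0 →ᵇ ℂ := BoundedContinuousFunction.ofNormedAddCommGroup (fun s => (b s : ℂ)) (by fun_prop) 1
    (fun s => by rw [Complex.norm_real, Real.norm_of_nonneg (b0 _)]; exact b1 _)
  have fn : ‖f‖ ≤ 1 := BoundedContinuousFunction.norm_ofNormedAddCommGroup_le _ zero_le_one _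
  let g : ℝ → ℂ := fun s => (Real.exp s : ℂ) * b s
  have gc : Continuous g := by fun_prop
  have gs : HasCompactSupport g := HasCompactSupport.intro (K := Set.Icc (t - δ) (t + δ)) isCompact_Icc
    fun s hs => by simp [g, bz s hs]
  have gi : Integrable g := gc.integrable_of_hasCompactSupport gs
  have gn : ‖gi.toL1 g‖ ≤ 1 := by
    rw [Integrable.norm_toL1_eq_lintegral_enorm, ← integral_norm_eq_lintegral_enorm gi.1]
    have h1 : ∫ s, ‖g s‖ ≤ ∫ s, (Set.Icc ((t : ℝ) - δ) (t + δ)).indicator (fun _ => Real.exp (t + 1)) s := by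
      refine integral_mono gi.norm ((integrable_indicator_iff measurableSet_Icc).2 (by simp)) fun s => ?_
      by_cases hs : s ∈ Set.Icc ((t : ℝ) - δ) (t + δ)
      · simp only [Set.indicator_of_mem hs, g, norm_mul, Complex.norm_real, Real.norm_of_nonneg (b0 _),
          Real.norm_of_nonneg (Real.exp_pos _).le]
        have : Real.exp s ≤ Real.exp (t + 1) := Real.exp_le_exp.2 (by linarith [hs.2])
        nlinarith [b0 s, b1 s, Real.exp_pos s]
      · simp [Set.indicator_of_notMem hs, g, bz s hs]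
    rw [integral_indicator measurableSet_Icc, setIntegral_const, Real.volume_real_Icc_of_le (by linarith),
      smul_eq_mul] at h1
    have h2 : δ * Real.exp (t + 1) = Real.exp (-1) := by rw [hδ, ← Real.exp_add]; congr 1; ring
    have h3 : Real.exp (-1) * Real.exp 1 = 1 := by rw [← Real.exp_add]; simp
    have h4 : (2 : ℝ) ≤ Real.exp 1 := by have := Real.add_one_le_exp 1; linarith
    nlinarith [Real.exp_pos (-1)]
  have hm : ((f, gi.toL1 g) : P) ∈ XS := by
    constructor
    · refine tendsto_const_nhds.congr' ?_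
      filter_upwards [eventually_ge_atTop (t + 2)] with s hs
      have : (t : ℝ) + 2 ≤ s := by exact_mod_cast hs
      show (0 : ℂ) = (b s : ℂ)
      rw [bz s (fun h => by linarith [h.2])]; simp
    · filter_upwards [gi.coeFn_toL1] with s a hs
      show (gi.toL1 g) s = _ * (b (s.toNNReal : ℝ≥0) : ℂ)
      rw [a, Real.coe_toNNReal _ hs]
  have h1 : ‖(⟨_, hm⟩ : XS)‖ ≤ 1 := by
    show ‖((f, gi.toL1 g) : P)‖ ≤ 1
    exact max_le fn gn
  have h2 : 1 ≤ ‖T t ⟨_, hm⟩‖ := by
    refine le_trans ?_ (norm_fst_le (TP t (f, gi.toL1 g)))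
    refine le_trans ?_ ((TP t (f, gi.toL1 g)).1.norm_coe_le_norm 0)
    rw [TP1]
    show 1 ≤ ‖(b ((0 + t : ℝ≥0)) : ℂ)‖
    simp [hb]
  have h3 := (T t).le_opNorm ⟨_, hm⟩
  nlinarith [norm_nonneg (T t)]

lemma int_bound (x : XS) (θ : ℝ → ℂ) (hθ : Continuous θ) (h1 : ∀ t, ‖θ t‖ ≤ 1) (R : ℝ) (hR : 0 ≤ R) :
    ‖∫ t in (0 : ℝ)..R, θ t • T t.toNNReal x‖ ≤ ‖x.1.2‖ := by
  have hc : Continuous fun t : ℝ => θ t • T t.toNNReal x :=
    hθ.smul ((T_cont x).comp continuous_real_toNNReal)
  have hi := hc.intervalIntegrable (μ := volume) 0 R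
  have key : ∀ v : XS, ‖v.1.1‖ ≤ ‖x.1.2‖ → ‖v.1.2‖ ≤ ‖x.1.2‖ → ‖v‖ ≤ ‖x.1.2‖ :=
    fun v a b => max_le a b
  apply key
  · refine (BoundedContinuousFunction.norm_le (norm_nonneg _)).2 fun s => ?_
    let L : XS →L[ℂ] ℂ := (BoundedContinuousFunction.evalCLM ℂ s).comp
      ((ContinuousLinearMap.fst ℂ _ _).comp XS.subtypeL)
    have hL : ∀ v : XS, v.1.1 s = L v := fun v => rfl
    rw [hL, ← L.intervalIntegral_comp_comm hi]
    have gi : Integrable (fun t : ℝ => ‖x.1.2 (t + s)‖) :=
      (L1.integrable_coeFn x.1.2).norm.comp_add_right (s : ℝ)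
    refine (intervalIntegral.norm_integral_le_of_norm_le hR (g := fun t => ‖x.1.2 (t + s)‖) ?_
      gi.intervalIntegrable).trans ?_
    · filter_upwards [(shR_mp s).quasiMeasurePreserving.ae x.2.2] with t a ht
      simp only [shR, ContinuousMap.coe_mk] at a
      have hts : 0 ≤ t + s := by have := ht.1.le; positivity
      rw [a hts, map_smul, norm_smul, norm_mul, Real.toNNReal_add ht.1.le s.coe_nonneg, Real.toNNReal_coe]
      have : L (T t.toNNReal x) = x.1.1 (t.toNNReal + s) := by rw [add_comm]; rfl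
      rw [this]
      gcongr
      rw [Complex.norm_real, Real.norm_of_nonneg (Real.exp_pos _).le]
      exact (h1 t).trans (Real.one_le_exp hts)
    · rw [intervalIntegral.integral_of_le hR, L1.norm_eq_integral_norm,
        ← integral_add_right_eq_self (fun t => ‖x.1.2 t‖) (s : ℝ)]
      exact setIntegral_le_integral gi (Eventually.of_forall fun _ => norm_nonneg _)
  · let L : XS →L[ℂ] Lp ℂ 1 (volume : Measure ℝ) := (ContinuousLinearMap.snd ℂ _ _).comp XS.subtypeL
    have hL : ∀ v : XS, v.1.2 = L v := fun v => rfl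
    rw [hL (∫ t in (0 : ℝ)..R, θ t • T t.toNNReal x), ← L.intervalIntegral_comp_comm hi]
    refine (intervalIntegral.norm_integral_le_of_norm_le hR (g := fun t => Real.exp (-t) * ‖x.1.2‖) ?_
      (Continuous.intervalIntegrable (by fun_prop) _ _)).trans ?_
    · refine Eventually.of_forall fun t ht => ?_
      rw [map_smul, norm_smul]
      have : ‖L (T t.toNNReal x)‖ = Real.exp (-t) * ‖x.1.2‖ := by
        have := TP2n t.toNNReal x
        rw [Real.coe_toNNReal _ ht.1.le] at this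
        exact this
      rw [this]
      exact mul_le_of_le_one_left (by positivity) (h1 t)
    · rw [intervalIntegral.integral_mul_const, intervalIntegral.integral_comp_neg Real.exp, integral_exp]
      refine mul_le_of_le_one_left (norm_nonneg _) ?_
      simp [(Real.exp_pos _).le]

theorem result :
    ¬ (∀ (X : Type) [NormedAddCommGroup X] [NormedSpace ℂ X] [CompleteSpace X]
      (T : ℝ≥0 → (X →L[ℂ] X)),
      T 0 = 1 →
      (∀ s t : ℝ≥0, T (s + t) = T s * T t) →
      (∀ x : X, Continuous (fun t : ℝ≥0 => T t x)) →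
      (∀ (x : X) (y : X →L[ℂ] ℂ), Tendsto (fun t : ℝ≥0 => y (T t x)) atTop (𝓝 0)) →
      (¬ ∃ M ω : ℝ, 0 < ω ∧ ∀ t : ℝ≥0, ‖T t‖ ≤ M * Real.exp (-ω * (t : ℝ))) →
      ∀ a : ℝ≥0 → ℝ, (∀ t, 0 < a t) → Antitone a → Tendsto a atTop (𝓝 0) →
        ∃ (x : X) (y : X →L[ℂ] ℂ), ∀ t : ℝ≥0, a t ≤ ‖y (T t x)‖) := by
  intro H
  have ha : Tendsto (fun t : ℝ≥0 => 1 / (1 + (t : ℝ))) atTop (𝓝 0) :=
    tendsto_const_nhds.div_atTop (tendsto_atTop_add_const_left _ _ (NNReal.tendsto_coe_atTop.2 tendsto_id))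
  obtain ⟨x, y, h⟩ := H XS T T_zero T_add T_cont
    (fun x y => by simpa [Function.comp_def] using (y.continuous.tendsto 0).comp (T_stable x))
    (by
      rintro ⟨M, ω, hω, h⟩
      have h1 : Tendsto (fun t : ℝ≥0 => M * Real.exp (-(ω * t))) atTop (𝓝 (M * 0)) :=
        (Real.tendsto_exp_neg_atTop_nhds_zero.comp
          ((NNReal.tendsto_coe_atTop.2 tendsto_id).const_mul_atTop hω)).const_mul M
      obtain ⟨t, ht⟩ := (h1.eventually (gt_mem_nhds (show M * 0 < 1 by simp))).exists
      have := (T_big t).trans (h t)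
      rw [neg_mul] at this
      linarith)
    (fun t => 1 / (1 + (t : ℝ))) (fun t => by positivity)
    (fun s t hst => one_div_le_one_div_of_le (by positivity) (by simpa using hst)) ha
  set w : ℝ → ℂ := fun t => y (T t.toNNReal x) with hw
  have wc : Continuous w := y.continuous.comp ((T_cont x).comp continuous_real_toNNReal)
  have w0 : ∀ t, w t ≠ 0 := fun t h0 => by
    have h1 := h t.toNNReal
    have h2 : y (T t.toNNReal x) = 0 := h0
    rw [h2, norm_zero] at h1
    exact absurd h1 (not_le.2 (by positivity))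
  set θ : ℝ → ℂ := fun t => (‖w t‖ : ℂ) / w t with hθ
  have θc : Continuous θ := Continuous.div (by fun_prop) wc w0
  have θ1 : ∀ t, ‖θ t‖ ≤ 1 := fun t => by simp [hθ, div_self (norm_ne_zero_iff.2 (w0 t))]
  set C := ‖y‖ * ‖x.1.2‖
  have C0 : 0 ≤ C := by positivity
  set R := Real.exp (C + 1) - 1 with hR
  have R0 : 0 ≤ R := by have := Real.one_le_exp (show 0 ≤ C + 1 by linarith); linarith
  have hc : Continuous fun t : ℝ => θ t • T t.toNNReal x :=
    θc.smul ((T_cont x).comp continuous_real_toNNReal)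
  have h1 := (y.le_opNorm _).trans
    (mul_le_mul_of_nonneg_left (int_bound x θ θc θ1 R R0) (norm_nonneg y))
  rw [← y.intervalIntegral_comp_comm (hc.intervalIntegrable 0 R)] at h1
  have h2 : (fun t : ℝ => y (θ t • T t.toNNReal x)) = fun t => ((‖w t‖ : ℝ) : ℂ) := by
    funext t
    rw [map_smul, smul_eq_mul]
    exact div_mul_cancel₀ _ (w0 t)
  rw [h2, intervalIntegral.integral_ofReal, Complex.norm_real] at h1
  have h3 : ∫ t in (0 : ℝ)..R, 1 / (1 + t) ≤ ∫ t in (0 : ℝ)..R, ‖w t‖ := by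
    refine intervalIntegral.integral_mono_on R0 ?_ (wc.norm.intervalIntegrable _ _) fun t ht => ?_
    · refine ContinuousOn.intervalIntegrable ?_
      rw [Set.uIcc_of_le R0]
      exact continuousOn_const.div (by fun_prop) fun t ht => by have := ht.1; positivity
    · have := h t.toNNReal
      rwa [Real.coe_toNNReal _ ht.1] at this
  rw [intervalIntegral.integral_comp_add_left (fun t => 1 / t), integral_one_div_of_pos (by simp) (by linarith)] at h3
  have h4 : (1 + R) / (1 + 0) = Real.exp (C + 1) := by rw [hR]; ring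
  rw [h4, Real.log_exp] at h3
  have := le_abs_self (∫ t in (0 : ℝ)..R, ‖w t‖)
  rw [Real.norm_eq_abs] at h1
  linarith

end Pool.Agent.S04442
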