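import Pool.Statements.S04455
import Pool.Agent.H.MP_410a69_an.C

set_option autoImplicit false
open Pool Pool.MP_410a69_an

namespace Pool.Agent.S04455

theorem result :
    ∀ w : ℝ → ℝ, Measurable w → (∀ x, 0 ≤ w x) → (∃ M : ℝ, ∀ x, w x ≤ M) →
      (∀ a b : ℝ, -1 ≤ a → a < b → b ≤ 1 → 0 < ∫ x in a..b, w x) →
      Filter.Tendsto
        (fun k : ℕ =>
          (sInf {t : ℝ | ∃ q : Polynomial ℝ, q.Monic ∧ q.natDegree = k ∧
              t = Real.sqrt (∫ x in (-1:ℝ)..1, (q.eval x) ^ 2 * w x)}) ^ ((1:ℝ) / k))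
        Filter.atTop (nhds (1 / 2)) →
      ∀ η : ℝ, 0 < η → ∃ ε : ℝ, 0 < ε ∧
        ∀ E : Set ℝ, MeasurableSet E →
          E ⊆ {x : ℝ | x ∈ Set.Icc (-1:ℝ) 1 ∧ 0 < w x} →
          MeasureTheory.volume ({x : ℝ | x ∈ Set.Icc (-1:ℝ) 1 ∧ 0 < w x} \ E) ≤ ENNReal.ofReal ε →
          1 / 2 - η ≤ sSup {c : ℝ | ∃ F : Set ℝ, IsCompact F ∧ F ⊆ E ∧
            c = sInf {s : ℝ | ∃ n : ℕ, 1 ≤ n ∧
              s = (sInf {t : ℝ | ∃ q : Polynomial ℝ, q.Monic ∧ q.natDegree = n ∧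
                    t = sSup ((fun x => |q.eval x|) '' F)}) ^ ((1:ℝ) / n)}} := by
  intro w hm h0 ⟨M, hM⟩ _ hlim η hη
  have tnn : ∀ (F : Set ℝ) (n : ℕ), ∀ t ∈ {t : ℝ | ∃ q : Polynomial ℝ, q.Monic ∧ q.natDegree = n ∧
      t = sSup ((fun x => |q.eval x|) '' F)}, 0 ≤ t := by
    rintro F n t ⟨q, -, -, rfl⟩
    exact Real.sSup_nonneg (by rintro y ⟨x, -, rfl⟩; exact abs_nonneg _)
  have snn : ∀ (F : Set ℝ), ∀ s ∈ {s : ℝ | ∃ n : ℕ, 1 ≤ n ∧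
      s = (sInf {t : ℝ | ∃ q : Polynomial ℝ, q.Monic ∧ q.natDegree = n ∧
        t = sSup ((fun x => |q.eval x|) '' F)}) ^ ((1:ℝ) / n)}, 0 ≤ s := by
    rintro F s ⟨n, -, rfl⟩
    exact Real.rpow_nonneg (Real.sInf_nonneg (tnn F n)) _
  by_cases hc0 : 1 / 2 - η ≤ 0
  · refine ⟨1, one_pos, fun E _ _ _ => hc0.trans (Real.sSup_nonneg ?_)⟩
    rintro c ⟨F, -, -, rfl⟩
    exact Real.sInf_nonneg (snn F)
  obtain ⟨ε, hε, h⟩ := Pool.Agent.H.MP_410a69_an.main hm h0 hM hlim (1 / 2 - η) (not_le.1 hc0)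
    (by linarith)
  refine ⟨ε / 2, by positivity, fun E hE hEW hvol => ?_⟩
  by_contra hlt
  rw [not_le] at hlt
  have hEf : MeasureTheory.volume E ≠ ⊤ := by
    refine ne_top_of_le_ne_top ?_ (MeasureTheory.measure_mono (fun x hx => (hEW hx).1))
    simp
  obtain ⟨F, hFE, hFc, hF⟩ := hE.exists_isCompact_sdiff_lt hEf
    (ε := ENNReal.ofReal (ε / 2)) (by simpa using hε)
  have hbdd : BddAbove {c : ℝ | ∃ F : Set ℝ, IsCompact F ∧ F ⊆ E ∧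
      c = sInf {s : ℝ | ∃ n : ℕ, 1 ≤ n ∧
        s = (sInf {t : ℝ | ∃ q : Polynomial ℝ, q.Monic ∧ q.natDegree = n ∧
          t = sSup ((fun x => |q.eval x|) '' F)}) ^ ((1:ℝ) / n)}} := by
    refine ⟨1, ?_⟩
    rintro c ⟨F, -, hFE, rfl⟩
    refine (csInf_le ⟨0, snn F⟩ ⟨1, le_rfl, rfl⟩).trans ?_
    rw [Nat.cast_one, div_one, Real.rpow_one]
    refine (csInf_le ⟨0, tnn F 1⟩ ⟨Polynomial.X, Polynomial.monic_X, Polynomial.natDegree_X, rfl⟩).trans ?_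
    refine Real.sSup_le ?_ zero_le_one
    rintro y ⟨x, hx, rfl⟩
    have := (hEW (hFE hx)).1
    simpa [abs_le] using this
  have h1 := (le_csSup hbdd ⟨F, hFc, hFE, rfl⟩).trans_lt hlt
  obtain ⟨s, ⟨n, hn, rfl⟩, hs⟩ := exists_lt_of_csInf_lt (by exact ⟨_, 1, le_rfl, rfl⟩) h1
  have hn0 : n ≠ 0 := by omega
  have h2 : sInf {t : ℝ | ∃ q : Polynomial ℝ, q.Monic ∧ q.natDegree = n ∧
      t = sSup ((fun x => |q.eval x|) '' F)} < (1 / 2 - η) ^ n := by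
    rw [← Real.rpow_inv_natCast_pow (Real.sInf_nonneg (tnn F n)) hn0, ← one_div]
    exact pow_lt_pow_left₀ hs (Real.rpow_nonneg (Real.sInf_nonneg (tnn F n)) _) hn0
  obtain ⟨t, ⟨q, hq, hqd, rfl⟩, ht⟩ := exists_lt_of_csInf_lt
    (by exact ⟨_, Polynomial.X ^ n, Polynomial.monic_X_pow n, Polynomial.natDegree_X_pow n, rfl⟩) h2
  refine h F hFc.measurableSet ?_ q hq (by omega) (fun x hx => ?_)
  · calc _ ≤ MeasureTheory.volume (({x : ℝ | x ∈ Set.Icc (-1:ℝ) 1 ∧ 0 < w x} \ E) ∪ (E \ F)) := by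
          refine MeasureTheory.measure_mono (fun x hx => ?_)
          by_cases hxE : x ∈ E
          · exact Or.inr ⟨hxE, hx.2⟩
          · exact Or.inl ⟨hx.1, hxE⟩
      _ ≤ ENNReal.ofReal (ε / 2) + ENNReal.ofReal (ε / 2) :=
          (MeasureTheory.measure_union_le _ _).trans (add_le_add hvol hF.le)
      _ = _ := by rw [← ENNReal.ofReal_add (by positivity) (by positivity), add_halves]
  · rw [hqd]
    refine le_trans (le_csSup (hFc.bddAbove_image ?_) ⟨x, hx, rfl⟩) ht.le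
    exact (q.continuous.abs).continuousOn

end Pool.Agent.S04455
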