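import Pool.Statements.S04462
-- import your own Pool.Agent.* helpers here

set_option autoImplicit false
open Filter Topology
open Pool Pool.MP_413ec1_an

namespace Pool.Agent.S04462

lemma inter {D : Type} [NormedCommRing D] [NormedAlgebra ℂ D] [CompleteSpace D]
    {E : Type} [NormedAddCommGroup E] [NormedSpace ℂ E] [CompleteSpace E]
    (J : D →L[ℂ] E) (a : D) (A : E →L[ℂ] E) (h : ∀ f, A (J f) = J (a * f)) (f : D) :
    NormedSpace.exp A (J f) = J (NormedSpace.exp a * f) := by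
  have h1 := (ContinuousLinearMap.apply ℂ E (J f)).hasSum
    (NormedSpace.exp_series_hasSum_exp' (𝕂 := ℂ) A)
  have h2 := J.hasSum ((NormedSpace.exp_series_hasSum_exp' (𝕂 := ℂ) a).mul_right f)
  have h3 : ∀ (n : ℕ) f, (A ^ n) (J f) = J (a ^ n * f) := by
    intro n
    induction n with
    | zero => intro f; simp
    | succ n ih =>
      intro f
      rw [pow_succ, pow_succ, mul_assoc, ← ih, ← h]; rfl
  refine h1.unique ?_
  have : (fun n : ℕ => (ContinuousLinearMap.apply ℂ E (J f)) (((n.factorial : ℂ)⁻¹) • A ^ n)) =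
      fun n : ℕ => J ((((n.factorial : ℂ)⁻¹) • a ^ n) * f) := by
    funext n
    rw [smul_mul_assoc, map_smul, map_smul, ← h3]; rfl
  rw [this]; exact h2

lemma gen {E : Type} [NormedAddCommGroup E] [NormedSpace ℂ E] [CompleteSpace E]
    (A : E →L[ℂ] E) (x y : E) :
    Tendsto (fun t : ℝ => t⁻¹ • (NormedSpace.exp (t • A) x - x)) (𝓝[>] 0) (𝓝 y) ↔ y = A x := by
  have h1 := hasDerivAt_exp_smul_const (𝕂 := ℝ) A 0
  have h2 : HasDerivAt (fun t : ℝ => NormedSpace.exp (t • A) x) (A x) 0 := by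
    have := ((ContinuousLinearMap.apply ℂ E x).restrictScalars ℝ).hasFDerivAt.comp_hasDerivAt
      (0:ℝ) h1
    simpa using! this
  have h3 := h2.tendsto_slope_zero_right
  simp only [zero_add, zero_smul, NormedSpace.exp_zero, one_apply_eq_self] at h3
  exact ⟨fun h => tendsto_nhds_unique h h3, fun h => h ▸ h3⟩

lemma abstract {D : Type} [NormedCommRing D] [NormedAlgebra ℂ D] [CompleteSpace D]
    (E : Type) [NormedAddCommGroup E] [NormedSpace ℂ E] [CompleteSpace E]
    (J : D →L[ℂ] E) (hJ : DenseRange J) (a b c : D) (hab : a * b = 1) (hc : (1 + b) * c = 1)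
    (ha : ∀ f, ‖J (a * f)‖ ≤ 4 * ‖J f‖) (hb : ∀ f, ‖J (b * f)‖ ≤ (2/3) * ‖J f‖)
    (hea : ∀ (t : ℝ) f, ‖J (NormedSpace.exp (t • a) * f)‖ ≤ ‖J f‖)
    (heb : ∀ (t : ℝ) f, ‖J (NormedSpace.exp (t • b) * f)‖ ≤ ‖J f‖)
    (h1 : 1 ≤ ‖J 1‖) (hw : ∀ ε > 0, ∃ n : ℕ, ‖J (((1 - b) * c) ^ n)‖ ≤ ε)
    (H : ∀ (T S : ℝ → E →L[ℂ] E),
      T 0 = 1 → S 0 = 1 →
      (∀ s t : ℝ, 0 ≤ s → 0 ≤ t → T (s + t) = T s * T t) →
      (∀ s t : ℝ, 0 ≤ s → 0 ≤ t → S (s + t) = S s * S t) →
      (∀ x : E, ContinuousOn (fun t : ℝ => T t x) (Set.Ici 0)) →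
      (∀ x : E, ContinuousOn (fun t : ℝ => S t x) (Set.Ici 0)) →
      (∃ M : ℝ, ∀ t : ℝ, 0 ≤ t → ‖T t‖ ≤ M) →
      (∃ M : ℝ, ∀ t : ℝ, 0 ≤ t → ‖S t‖ ≤ M) →
      (∀ x y : E,
        Tendsto (fun t : ℝ => t⁻¹ • (T t x - x)) (𝓝[>] 0) (𝓝 y) ↔
          Tendsto (fun t : ℝ => t⁻¹ • (S t y - y)) (𝓝[>] 0) (𝓝 x)) →
      ∀ V : E →L[ℂ] E,
        (∀ x y : E, Tendsto (fun t : ℝ => t⁻¹ • (T t x - x)) (𝓝[>] 0) (𝓝 y) →
          V (y - x) = y + x) →
        ∃ C : ℝ, ∀ n : ℕ, ‖V ^ n‖ ≤ C) : False := by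
  have ext : ∀ (g : D) (C : ℝ), 0 ≤ C → (∀ f, ‖J (g * f)‖ ≤ C * ‖J f‖) →
      ∃ R : E →L[ℂ] E, (∀ f, R (J f) = J (g * f)) ∧ ‖R‖ ≤ C := by
    intro g C hC h
    refine ⟨(J.toLinearMap ∘ₗ LinearMap.mulLeft ℂ g).extendOfNorm J.toLinearMap, fun f => ?_, ?_⟩
    · exact LinearMap.extendOfNorm_eq (e := J.toLinearMap) hJ ⟨C, h⟩ f
    · exact LinearMap.opNorm_extendOfNorm_le (e := J.toLinearMap) hJ hC h
  obtain ⟨A, hA, -⟩ := ext a 4 (by norm_num) ha
  obtain ⟨B, hB, hBn⟩ := ext b (2/3) (by norm_num) hb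
  have hAB : ∀ x, A (B x) = x := by
    intro x
    refine hJ.induction_on (p := fun x => A (B x) = x) x (isClosed_eq (by fun_prop) (by fun_prop)) ?_
    intro f
    rw [hB, hA, ← mul_assoc, hab, one_mul]
  have hBA : ∀ x, B (A x) = x := by
    intro x
    refine hJ.induction_on (p := fun x => B (A x) = x) x (isClosed_eq (by fun_prop) (by fun_prop)) ?_
    intro f
    rw [hA, hB, ← mul_assoc, mul_comm b, hab, one_mul]
  have : NormedAlgebra ℚ (E →L[ℂ] E) := NormedAlgebra.restrictScalars ℚ ℂ _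
  have sg : ∀ (A : E →L[ℂ] E) (s t : ℝ), NormedSpace.exp ((s + t) • A) =
      NormedSpace.exp (s • A) * NormedSpace.exp (t • A) := by
    intro A s t
    rw [add_smul, NormedSpace.exp_add_of_commute]
    exact ((Commute.refl A).smul_left s).smul_right t
  have ct : ∀ (A : E →L[ℂ] E) (x : E), Continuous (fun t : ℝ => NormedSpace.exp (t • A) x) := by
    intro A x
    have h1 : Continuous (fun t : ℝ => NormedSpace.exp (t • A)) :=
      continuous_iff_continuousAt.2 fun t => (hasDerivAt_exp_smul_const (𝕂 := ℝ) A t).continuousAt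
    exact (ContinuousLinearMap.apply ℂ E x).continuous.comp h1
  have bd : ∀ (A : E →L[ℂ] E) (a : D), (∀ f, A (J f) = J (a * f)) →
      (∀ (t : ℝ) f, ‖J (NormedSpace.exp (t • a) * f)‖ ≤ ‖J f‖) →
      ∀ t : ℝ, ‖NormedSpace.exp (t • A)‖ ≤ 1 := by
    intro A a hA he t
    refine ContinuousLinearMap.opNorm_le_bound _ zero_le_one fun x => ?_
    refine hJ.induction_on (p := fun x => ‖NormedSpace.exp (t • A) x‖ ≤ 1 * ‖x‖) x
      (isClosed_le (by fun_prop) (by fun_prop)) ?_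
    intro f
    rw [inter J (t • a) (t • A) (fun f => by
      rw [smul_mul_assoc, J.map_smul_of_tower, ← hA]; rfl), one_mul]
    exact he t f
  obtain ⟨u, hu⟩ := isUnit_one_sub_of_norm_lt_one (x := B) (by linarith)
  have hu' : ∀ x, (u⁻¹ : (E →L[ℂ] E)ˣ).1 (x - B x) = x := by
    intro x
    have : ((u⁻¹ : (E →L[ℂ] E)ˣ).1 * u.1) x = x := by rw [Units.inv_mul]; rfl
    rw [hu] at this
    exact this
  set V : E →L[ℂ] E := (1 + B) * (u⁻¹ : (E →L[ℂ] E)ˣ).1 with hV
  have hV' : ∀ x, V (x - B x) = x + B x := by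
    intro x
    show (1 + B) ((u⁻¹ : (E →L[ℂ] E)ˣ).1 (x - B x)) = _
    rw [hu']; rfl
  obtain ⟨C, hC⟩ := H (fun t => NormedSpace.exp (t • A)) (fun t => NormedSpace.exp (t • B))
    (by simp) (by simp) (fun s t _ _ => sg A s t) (fun s t _ _ => sg B s t)
    (fun x => (ct A x).continuousOn) (fun x => (ct B x).continuousOn)
    ⟨1, fun t _ => bd A a hA hea t⟩ ⟨1, fun t _ => bd B b hB heb t⟩
    (fun x y => by
      rw [gen, gen]
      constructor
      · rintro rfl; exact (hBA x).symm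
      · rintro rfl; exact (hAB y).symm) V
    (fun x y h => by
      rw [gen] at h
      subst h
      have := hV' (A x)
      rwa [hBA] at this)
  have hVw : ∀ f, V (J ((1 - b) * c * f)) = J f := by
    intro f
    have := hV' (J (c * f))
    rw [hB, ← map_sub, ← map_add] at this
    have e1 : (1 - b) * c * f = c * f - b * (c * f) := by ring
    have e2 : c * f + b * (c * f) = f := by linear_combination f * hc
    rw [e1, this, e2]
  have hVn : ∀ n : ℕ, (V ^ n) (J (((1 - b) * c) ^ n)) = J 1 := by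
    intro n
    induction n with
    | zero => simp
    | succ n ih =>
      rw [pow_succ V, pow_succ' ((1 - b) * c)]
      show (V ^ n) (V _) = _
      rw [hVw, ih]
  have hC0 : 0 ≤ C := (norm_nonneg _).trans (hC 0)
  obtain ⟨n, hn⟩ := hw (1 / (C + 1)) (by positivity)
  have h2 := (V ^ n).le_opNorm (J (((1 - b) * c) ^ n))
  rw [hVn] at h2
  have h3 : ‖V ^ n‖ * ‖J (((1 - b) * c) ^ n)‖ ≤ C * (1 / (C + 1)) := by
    have := hC n
    gcongr
  have h4 : C * (1 / (C + 1)) < 1 := by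
    rw [mul_one_div, div_lt_one (by positivity)]; linarith
  linarith

lemma osc (e : ℝ → ℂ) (p p' a a' : ℝ → ℝ) (K L : ℝ) (hK : 0 < K)
    (he : ∀ s ∈ Set.Icc (2:ℝ) 3, HasDerivAt e (Complex.I * p s * e s) s)
    (he1 : ∀ s ∈ Set.Icc (2:ℝ) 3, ‖e s‖ = 1)
    (hp : ∀ s ∈ Set.Icc (2:ℝ) 3, HasDerivAt p (p' s) s)
    (hp' : ∀ s ∈ Set.Icc (2:ℝ) 3, |p' s| ≤ L)
    (ha : ∀ s ∈ Set.Icc (2:ℝ) 3, HasDerivAt a (a' s) s)
    (ha1 : ∀ s ∈ Set.Icc (2:ℝ) 3, |a s| ≤ 1) (ha2 : ∀ s ∈ Set.Icc (2:ℝ) 3, |a' s| ≤ 2)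
    (hcp : ContinuousOn p' (Set.Icc 2 3)) (hca : ContinuousOn a' (Set.Icc 2 3)) :
    ‖∫ s in (2:ℝ)..3, (a s : ℂ) * e s‖ ≤
      2 / K + L / K ^ 2 + ∫ s in (2:ℝ)..3, K ^ 2 / (p s ^ 2 + K ^ 2) := by
  have hu : Set.uIcc (2:ℝ) 3 = Set.Icc 2 3 := Set.uIcc_of_le (by norm_num)
  have hpos : ∀ s, 0 < p s ^ 2 + K ^ 2 := fun s => by positivity
  set h : ℝ → ℝ := fun s => a s * (p s / (p s ^ 2 + K ^ 2)) with hh
  set h' : ℝ → ℝ := fun s => a' s * (p s / (p s ^ 2 + K ^ 2)) +
    a s * (p' s * (K ^ 2 - p s ^ 2) / (p s ^ 2 + K ^ 2) ^ 2) with hh'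
  have hd : ∀ s ∈ Set.Icc (2:ℝ) 3, HasDerivAt h (h' s) s := by
    intro s hs
    have h1 := (hp s hs).fun_div (((hp s hs).fun_pow 2).add_const (K ^ 2)) (hpos s).ne'
    refine ((ha s hs).fun_mul h1).congr_deriv ?_
    simp only [hh']
    norm_num
    left
    field_simp
    ring
  have cp : ContinuousOn p (Set.Icc 2 3) := fun s hs => (hp s hs).continuousAt.continuousWithinAt
  have ca : ContinuousOn a (Set.Icc 2 3) := fun s hs => (ha s hs).continuousAt.continuousWithinAt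
  have ce : ContinuousOn e (Set.Icc 2 3) := fun s hs => (he s hs).continuousAt.continuousWithinAt
  have ch : ContinuousOn h (Set.Icc 2 3) := fun s hs => (hd s hs).continuousAt.continuousWithinAt
  have ch' : ContinuousOn h' (Set.Icc 2 3) := by
    simp only [hh']
    refine (hca.mul (cp.div (by fun_prop) fun s _ => (hpos s).ne')).add
      (ca.mul (ContinuousOn.div (by fun_prop) (by fun_prop) fun s _ => (pow_pos (hpos s) 2).ne'))
  have cq : ContinuousOn (fun s => K ^ 2 / (p s ^ 2 + K ^ 2)) (Set.Icc 2 3) :=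
    ContinuousOn.div (by fun_prop) (by fun_prop) fun s _ => (hpos s).ne'
  have hq : ∀ s, |p s / (p s ^ 2 + K ^ 2)| ≤ 1 / (2 * K) := by
    intro s
    rw [abs_div, abs_of_pos (hpos s), div_le_div_iff₀ (hpos s) (by positivity)]
    nlinarith [sq_nonneg (|p s| - K), sq_abs (p s)]
  have hhb : ∀ s ∈ Set.Icc (2:ℝ) 3, |h s| ≤ 1 / (2 * K) := by
    intro s hs
    simp only [hh]
    rw [abs_mul]
    calc _ ≤ 1 * (1 / (2 * K)) := mul_le_mul (ha1 s hs) (hq s) (abs_nonneg _) zero_le_one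
      _ = _ := one_mul _
  have hhb' : ∀ s ∈ Set.Icc (2:ℝ) 3, |h' s| ≤ 1 / K + L / K ^ 2 := by
    intro s hs
    simp only [hh']
    refine (abs_add_le _ _).trans (add_le_add ?_ ?_)
    · rw [abs_mul]
      calc _ ≤ 2 * (1 / (2 * K)) := mul_le_mul (ha2 s hs) (hq s) (abs_nonneg _) zero_le_two
        _ = _ := by field_simp
    · rw [abs_mul]
      have hL : 0 ≤ L := (abs_nonneg _).trans (hp' s hs)
      have h1 : |p' s * (K ^ 2 - p s ^ 2) / (p s ^ 2 + K ^ 2) ^ 2| ≤ L / K ^ 2 := by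
        rw [abs_div, abs_mul, abs_of_pos (pow_pos (hpos s) 2),
          div_le_div_iff₀ (pow_pos (hpos s) 2) (by positivity)]
        have h2 : |K ^ 2 - p s ^ 2| ≤ p s ^ 2 + K ^ 2 := by
          rw [abs_le]; constructor <;> nlinarith [sq_nonneg K, sq_nonneg (p s)]
        have h3 : K ^ 2 ≤ p s ^ 2 + K ^ 2 := by nlinarith [sq_nonneg (p s)]
        calc _ ≤ L * (p s ^ 2 + K ^ 2) * (p s ^ 2 + K ^ 2) := by
              have := hp' s hs
              gcongr
          _ = _ := by ring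
      calc _ ≤ 1 * (L / K ^ 2) := mul_le_mul (ha1 s hs) h1 (abs_nonneg _) zero_le_one
        _ = _ := one_mul _
  have hG : ∀ s ∈ Set.uIcc (2:ℝ) 3, HasDerivAt (fun s => e s * (h s : ℂ))
      (Complex.I * p s * e s * (h s : ℂ) + e s * (h' s : ℂ)) s := by
    intro s hs
    rw [hu] at hs
    exact (he s hs).fun_mul (hd s hs).ofReal_comp
  have cr : ∀ {g : ℝ → ℝ}, ContinuousOn g (Set.Icc 2 3) →
      ContinuousOn (fun s => (g s : ℂ)) (Set.Icc 2 3) :=
    fun hg => Complex.continuous_ofReal.comp_continuousOn hg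
  have i1 : IntervalIntegrable (fun s => Complex.I * p s * e s * (h s : ℂ) + e s * (h' s : ℂ))
      MeasureTheory.volume 2 3 := by
    apply ContinuousOn.intervalIntegrable
    rw [hu]
    exact (((continuousOn_const.mul (cr cp)).mul ce).mul (cr ch)).add (ce.mul (cr ch'))
  have ftc := intervalIntegral.integral_eq_sub_of_hasDerivAt hG i1
  have i2 : IntervalIntegrable (fun s => (a s : ℂ) * e s * ((K ^ 2 / (p s ^ 2 + K ^ 2) : ℝ) : ℂ) +
      Complex.I * e s * (h' s : ℂ)) MeasureTheory.volume 2 3 := by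
    apply ContinuousOn.intervalIntegrable
    rw [hu]
    exact (((cr ca).mul ce).mul (cr cq)).add ((continuousOn_const.mul ce).mul (cr ch'))
  have hsplit : ∫ s in (2:ℝ)..3, (a s : ℂ) * e s =
      (∫ s in (2:ℝ)..3, ((a s : ℂ) * e s * ((K ^ 2 / (p s ^ 2 + K ^ 2) : ℝ) : ℂ) +
      Complex.I * e s * (h' s : ℂ))) - Complex.I * (e 3 * (h 3 : ℂ) - e 2 * (h 2 : ℂ)) := by
    rw [← ftc, ← intervalIntegral.integral_const_mul,
      ← intervalIntegral.integral_sub i2 (i1.const_mul _)]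
    refine intervalIntegral.integral_congr fun s _ => ?_
    have h1 : ((p s : ℂ) ^ 2 + (K : ℂ) ^ 2) ≠ 0 := by exact_mod_cast (hpos s).ne'
    simp only [hh]
    push_cast
    field_simp
    ring_nf
    simp only [Complex.I_sq]
    ring
  have i3 : IntervalIntegrable (fun s => K ^ 2 / (p s ^ 2 + K ^ 2)) MeasureTheory.volume 2 3 := by
    apply ContinuousOn.intervalIntegrable
    rw [hu]; exact cq
  have b1 : ‖∫ s in (2:ℝ)..3, ((a s : ℂ) * e s * ((K ^ 2 / (p s ^ 2 + K ^ 2) : ℝ) : ℂ) +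
      Complex.I * e s * (h' s : ℂ))‖ ≤
      ∫ s in (2:ℝ)..3, (K ^ 2 / (p s ^ 2 + K ^ 2) + (1 / K + L / K ^ 2)) := by
    refine intervalIntegral.norm_integral_le_of_norm_le (by norm_num)
      (Eventually.of_forall fun s hs => ?_) (i3.add intervalIntegrable_const)
    have hs' : s ∈ Set.Icc (2:ℝ) 3 := Set.Ioc_subset_Icc_self hs
    refine (norm_add_le _ _).trans (add_le_add ?_ ?_)
    · rw [norm_mul, norm_mul, he1 s hs', Complex.norm_real, Complex.norm_real, Real.norm_eq_abs,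
        Real.norm_eq_abs, abs_of_pos (div_pos (by positivity) (hpos s)), mul_one]
      exact mul_le_of_le_one_left (div_pos (by positivity) (hpos s)).le (ha1 s hs')
    · rw [norm_mul, norm_mul, he1 s hs', Complex.norm_real, Complex.norm_I, Real.norm_eq_abs,
        one_mul, one_mul]
      exact hhb' s hs'
  rw [intervalIntegral.integral_add i3 intervalIntegrable_const, intervalIntegral.integral_const]
    at b1
  have b2 : ‖Complex.I * (e 3 * (h 3 : ℂ) - e 2 * (h 2 : ℂ))‖ ≤ 1 / K := by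
    have m3 : (3:ℝ) ∈ Set.Icc (2:ℝ) 3 := by norm_num
    have m2 : (2:ℝ) ∈ Set.Icc (2:ℝ) 3 := by norm_num
    rw [norm_mul, Complex.norm_I, one_mul]
    refine (norm_sub_le _ _).trans ?_
    rw [norm_mul, norm_mul, he1 3 m3, he1 2 m2, Complex.norm_real, Complex.norm_real,
      Real.norm_eq_abs, Real.norm_eq_abs]
    have := hhb 3 m3
    have := hhb 2 m2
    have : 1 / K = 1 / (2 * K) + 1 / (2 * K) := by field_simp; ring
    linarith
  rw [hsplit]
  refine (norm_sub_le _ _).trans ?_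
  have : 2 / K = 1 / K + 1 / K := by ring
  norm_num at b1 b2 this ⊢
  linarith

noncomputable def q (d : ℝ × ℝ × ℝ) (s : ℝ) : ℝ := d.1 + d.2.1 / s ^ 2 - 2 * d.2.2 / (1 + s ^ 2)

lemma sublevel (ε : ℝ) (hε : 0 < ε) : ∃ κ > 0, ∀ d : ℝ × ℝ × ℝ, ‖d‖ = 1 →
    ∫ s in (2:ℝ)..3, κ ^ 2 / (q d s ^ 2 + κ ^ 2) ≤ ε := by
  have hK : IsCompact (Metric.sphere (0 : ℝ × ℝ × ℝ) 1) := isCompact_sphere _ _
  have key := hK.eventually_forall_of_forall_eventually (x₀ := (0:ℝ))
    (P := fun κ d => ∫ s in (2:ℝ)..3, κ ^ 2 / (q d s ^ 2 + κ ^ 2) ≤ ε) (by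
    intro d0 hd0
    have hd0' : d0 ≠ 0 := by
      rintro rfl; simp at hd0
    have hfin : {s : ℝ | s ≠ 0 ∧ q d0 s = 0}.Finite := by
      let P : Polynomial ℝ := Polynomial.C d0.1 * Polynomial.X ^ 4 +
        Polynomial.C (d0.1 + d0.2.1 - 2 * d0.2.2) * Polynomial.X ^ 2 + Polynomial.C d0.2.1
      have hP : P ≠ 0 := by
        intro h
        have h4 := congrArg (fun P => Polynomial.coeff P 4) h
        have h2 := congrArg (fun P => Polynomial.coeff P 2) h
        have h0 := congrArg (fun P => Polynomial.coeff P 0) h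
        simp [P, Polynomial.coeff_X_pow, Polynomial.coeff_C, -map_sub, -map_add] at h4 h2 h0
        apply hd0'
        ext
        · exact h4
        · exact h0
        · simp; linarith
      refine (Polynomial.finite_setOfPred_isRoot hP).subset ?_
      rintro s ⟨hs, hq⟩
      have h1 : (1 + s ^ 2) ≠ 0 := by positivity
      simp only [q] at hq
      field_simp at hq
      simp only [Set.mem_ofPred_eq, Polynomial.IsRoot.def, P, Polynomial.eval_add,
        Polynomial.eval_mul, Polynomial.eval_C, Polynomial.eval_pow, Polynomial.eval_X]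
      linear_combination hq
    have ht : Tendsto (fun z : ℝ × (ℝ × ℝ × ℝ) =>
        ∫ s in (2:ℝ)..3, z.1 ^ 2 / (q z.2 s ^ 2 + z.1 ^ 2)) (𝓝 (0, d0))
        (𝓝 (∫ s in (2:ℝ)..3, (0:ℝ))) := by
      refine intervalIntegral.tendsto_integral_filter_of_dominated_convergence (fun _ => 1)
        (Eventually.of_forall fun z => ?_) (Eventually.of_forall fun z => ?_)
        intervalIntegrable_const ?_
      · apply Measurable.aestronglyMeasurable
        unfold q
        fun_prop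
      · refine Eventually.of_forall fun s _ => ?_
        rw [Real.norm_eq_abs, abs_of_nonneg (by positivity)]
        exact div_le_one_of_le₀ (by nlinarith [sq_nonneg (q z.2 s)]) (by positivity)
      · filter_upwards [hfin.countable.ae_notMem MeasureTheory.volume] with s hs hs'
        rw [Set.uIoc_of_le (by norm_num)] at hs'
        have hs0 : s ≠ 0 := by linarith [hs'.1]
        have hq : q d0 s ≠ 0 := fun h => hs ⟨hs0, h⟩
        have hc : ContinuousAt (fun z : ℝ × (ℝ × ℝ × ℝ) => z.1 ^ 2 / (q z.2 s ^ 2 + z.1 ^ 2))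
            (0, d0) := by
          apply ContinuousAt.div
          · fun_prop
          · unfold q; fun_prop
          · simpa using hq
        simpa using hc.tendsto
    simp only [intervalIntegral.integral_zero] at ht
    exact ht.eventually (eventually_le_nhds hε))
  obtain ⟨κ, h1, h2⟩ := ((key.filter_mono (nhdsWithin_le_nhds (s := Set.Ioi 0))).and
    self_mem_nhdsWithin).exists
  exact ⟨κ, h2, fun d hd => h1 d (by simpa using hd)⟩

abbrev D : Type := C(Set.Icc (2:ℝ) 3, ℂ)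

lemma ne0 (s : Set.Icc (2:ℝ) 3) : ((s : ℝ) : ℂ) ≠ 0 := by
  have := s.2.1
  exact_mod_cast (by linarith : (s : ℝ) ≠ 0)

lemma ne1 (s : Set.Icc (2:ℝ) 3) : (1 - Complex.I * ((s : ℝ) : ℂ)⁻¹) ≠ 0 := by
  intro h
  have := congrArg Complex.re h
  rw [← Complex.ofReal_inv] at this
  simp at this

noncomputable def z : D := ⟨fun s => ((s : ℝ) : ℂ), by fun_prop⟩
noncomputable def zi : D := ⟨fun s => ((s : ℝ) : ℂ)⁻¹, Continuous.inv₀ (by fun_prop) ne0⟩
noncomputable def cc : D := ⟨fun s => (1 - Complex.I * ((s : ℝ) : ℂ)⁻¹)⁻¹,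
  Continuous.inv₀ (continuous_const.sub (continuous_const.mul zi.continuous)) ne1⟩
noncomputable def aa : D := Complex.I • z
noncomputable def bb : D := (-Complex.I) • zi

lemma exp_apply (g : D) (s : Set.Icc (2:ℝ) 3) : (NormedSpace.exp g) s = Complex.exp (g s) := by
  have h1 := (ContinuousMap.evalCLM ℂ s).hasSum (NormedSpace.exp_series_hasSum_exp' (𝕂 := ℂ) g)
  have h2 := NormedSpace.exp_series_hasSum_exp' (𝕂 := ℂ) (g s)
  rw [Complex.exp_eq_exp_ℂ]
  exact h1.unique h2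

def Idx : Type := ℝ × ℝ × ℕ × ℕ
instance : TopologicalSpace Idx := ⊥
instance : DiscreteTopology Idx := ⟨rfl⟩

noncomputable def m (t u : ℝ) (k l : ℕ) : D :=
  NormedSpace.exp (t • aa) * NormedSpace.exp (u • bb) * ((1/4 : ℂ) • z) ^ k * ((3/2 : ℂ) • zi) ^ l

lemma m_apply (t u : ℝ) (k l : ℕ) (s : Set.Icc (2:ℝ) 3) : m t u k l s =
    ((((s:ℝ) / 4) ^ k * (3 / (2 * (s:ℝ))) ^ l : ℝ) : ℂ) *
      Complex.exp (Complex.I * ((t * s - u / s : ℝ) : ℂ)) := by
  simp only [m, ContinuousMap.mul_apply, ContinuousMap.pow_apply, exp_apply, ← Complex.exp_add,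
    ContinuousMap.smul_apply, aa, bb, z, zi, ContinuousMap.coe_mk, smul_eq_mul, Complex.real_smul]
  push_cast
  have := ne0 s
  rw [mul_assoc, mul_comm]
  congr 2
  · congr 1; ring
  · congr 1; field_simp
  · ring

lemma amp_le (k l : ℕ) (s : ℝ) (hs : s ∈ Set.Icc (2:ℝ) 3) : |(s / 4) ^ k * (3 / (2 * s)) ^ l| ≤ 1 := by
  have h1 := hs.1
  have h2 := hs.2
  have : 0 < s := by linarith
  rw [abs_of_nonneg (by positivity)]
  refine mul_le_one₀ (pow_le_one₀ (by positivity) (by linarith)) (by positivity)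
    (pow_le_one₀ (by positivity) ?_)
  rw [div_le_one (by positivity)]; linarith

lemma m_norm (t u : ℝ) (k l : ℕ) : ‖m t u k l‖ ≤ 1 := by
  refine (ContinuousMap.norm_le _ zero_le_one).2 fun s => ?_
  rw [m_apply, norm_mul, Complex.norm_exp_I_mul_ofReal, mul_one, Complex.norm_real]
  exact amp_le k l s s.2

lemma pc (f : D) : Continuous (fun s : ℝ => f (Set.projIcc 2 3 (by norm_num) s)) :=
  f.continuous.comp continuous_projIcc

noncomputable def Lam : D →L[ℂ] ℂ := LinearMap.mkContinuous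
  { toFun := fun f => ∫ s in (2:ℝ)..3, f (Set.projIcc 2 3 (by norm_num) s)
    map_add' := fun f g => by
      rw [← intervalIntegral.integral_add ((pc f).intervalIntegrable _ _)
        ((pc g).intervalIntegrable _ _)]
      rfl
    map_smul' := fun c f => by
      rw [RingHom.id_apply, ← intervalIntegral.integral_smul]; rfl } 1 (fun f => by
    have := intervalIntegral.norm_integral_le_of_norm_le_const (a := (2:ℝ)) (b := 3) (C := ‖f‖)
      (f := fun s : ℝ => f (Set.projIcc 2 3 (by norm_num) s)) (fun s _ => f.norm_coe_le_norm _)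
    norm_num at this
    simpa using this)

lemma Lam_apply (f : D) : Lam f = ∫ s in (2:ℝ)..3, f (Set.projIcc 2 3 (by norm_num) s) := rfl

lemma Lam_le (f : D) : ‖Lam f‖ ≤ ‖f‖ := by
  have := intervalIntegral.norm_integral_le_of_norm_le_const (a := (2:ℝ)) (b := 3) (C := ‖f‖)
    (f := fun s : ℝ => f (Set.projIcc 2 3 (by norm_num) s)) (fun s _ => f.norm_coe_le_norm _)
  norm_num at this
  exact this

lemma Lam_m_le (f : D) (j : Idx) : ‖Lam (f * m j.1 j.2.1 j.2.2.1 j.2.2.2)‖ ≤ ‖f‖ := by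
  refine (Lam_le _).trans ((norm_mul_le _ _).trans ?_)
  exact mul_le_of_le_one_right (norm_nonneg _) (m_norm _ _ _ _)

open BoundedContinuousFunction in
noncomputable def J0 : D →L[ℂ] (Idx →ᵇ ℂ) := LinearMap.mkContinuous
  { toFun := fun f => ofNormedAddCommGroupDiscrete
      (fun j : Idx => Lam (f * m j.1 j.2.1 j.2.2.1 j.2.2.2)) ‖f‖ (Lam_m_le f)
    map_add' := fun f g => by
      ext j
      show Lam ((f + g) * _) = Lam (f * _) + Lam (g * _)
      rw [add_mul, map_add]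
    map_smul' := fun c f => by
      ext j
      show Lam ((c • f) * _) = c • Lam (f * _)
      rw [smul_mul_assoc, map_smul] } 1 (fun f => by
    rw [one_mul]
    exact (norm_le (norm_nonneg f)).2 (Lam_m_le f))

lemma J0_ge (f : D) (t u : ℝ) (k l : ℕ) : ‖Lam (f * m t u k l)‖ ≤ ‖J0 f‖ :=
  (J0 f).norm_coe_le_norm ((t, u, k, l) : Idx)

lemma J0_le (f : D) (C : ℝ) (hC : 0 ≤ C) (h : ∀ t u k l, ‖Lam (f * m t u k l)‖ ≤ C) :
    ‖J0 f‖ ≤ C :=
  (BoundedContinuousFunction.norm_le hC).2 fun j => h j.1 j.2.1 j.2.2.1 j.2.2.2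

lemma kpow (k : ℕ) (x : ℝ) (h0 : 0 ≤ x) (h1 : x ≤ 3/4) : (k : ℝ) * x ^ (k - 1) ≤ 3 := by
  cases k with
  | zero => simp
  | succ k =>
    have h2 : 1 + (k : ℝ) * (1/3) ≤ (1 + 1/3) ^ k := one_add_mul_le_pow (by norm_num) k
    have h3 : x ^ k * (1 + 1/3 : ℝ) ^ k ≤ 1 := by
      rw [← mul_pow]; exact pow_le_one₀ (by positivity) (by linarith)
    have h4 : 0 ≤ x ^ k := by positivity
    have h5 := mul_le_mul_of_nonneg_left h2 h4
    simp only [Nat.add_sub_cancel]
    push_cast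
    nlinarith

lemma decay (ε : ℝ) (hε : 0 < ε) : ∃ n : ℕ, ‖J0 (((1 - bb) * cc) ^ n)‖ ≤ ε := by
  obtain ⟨κ, hκ, hsub⟩ := sublevel (ε / 2) (by positivity)
  obtain ⟨n, hn⟩ := exists_nat_gt ((2 / κ + 1 / κ ^ 2) / (ε / 2))
  have hn0 : (0:ℝ) < n := lt_trans (by positivity) hn
  refine ⟨n, J0_le _ _ hε.le fun t u k l => ?_⟩
  set v : ℝ × ℝ × ℝ := (t, u, n) with hv
  set R : ℝ := ‖v‖ with hR
  have hu : |u| ≤ R := (norm_fst_le v.2).trans (norm_snd_le v)
  have hnR : (n:ℝ) ≤ R := by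
    have : |(n:ℝ)| ≤ R := (norm_snd_le v.2).trans (norm_snd_le v)
    exact (le_abs_self _).trans this
  have hR0 : 0 < R := lt_of_lt_of_le hn0 hnR
  have hd : ‖R⁻¹ • v‖ = 1 := by
    rw [norm_smul, norm_inv, Real.norm_eq_abs, abs_of_pos hR0, inv_mul_cancel₀ hR0.ne']
  have hsI : ∀ s : ℝ, (s : ℂ) - Complex.I ≠ 0 := by
    intro s h; have := congrArg Complex.im h; simp at this
  have hsI' : ∀ s : ℝ, (s : ℂ) + Complex.I ≠ 0 := by
    intro s h; have := congrArg Complex.im h; simp at this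
  have h := osc (fun s => Complex.exp (Complex.I * ((t * s - u / s : ℝ) : ℂ)) *
      (((s : ℂ) + Complex.I) / ((s : ℂ) - Complex.I)) ^ n)
    (fun s => t + u / s ^ 2 - 2 * n / (1 + s ^ 2))
    (fun s => - (2 * u / s ^ 3) + 4 * n * s / (1 + s ^ 2) ^ 2)
    (fun s => (s / 4) ^ k * (3 / (2 * s)) ^ l)
    (fun s => (k * (s / 4) ^ (k - 1) * (1 / 4)) * (3 / (2 * s)) ^ l +
      (s / 4) ^ k * (l * (3 / (2 * s)) ^ (l - 1) * (- (3 / (2 * s ^ 2))))) (κ * R) R (by positivity)
    ?_ ?_ ?_ ?_ ?_ (fun s hs => amp_le k l s hs) ?_ ?_ ?_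
  · have e1 : Lam (((1 - bb) * cc) ^ n * m t u k l) = ∫ s in (2:ℝ)..3,
        (((s / 4) ^ k * (3 / (2 * s)) ^ l : ℝ) : ℂ) *
        (Complex.exp (Complex.I * ((t * s - u / s : ℝ) : ℂ)) *
          (((s : ℂ) + Complex.I) / ((s : ℂ) - Complex.I)) ^ n) := by
      rw [Lam_apply]
      refine intervalIntegral.integral_congr fun s hs => ?_
      rw [Set.uIcc_of_le (by norm_num)] at hs
      simp only [Set.projIcc_of_mem _ hs, ContinuousMap.mul_apply, ContinuousMap.pow_apply, m_apply]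
      have e2 : (1 - bb) ⟨s, hs⟩ * cc ⟨s, hs⟩ = ((s : ℂ) + Complex.I) / ((s : ℂ) - Complex.I) := by
        have h0 : (s : ℂ) ≠ 0 := ne0 ⟨s, hs⟩
        have h1 := hsI s
        show (1 - (-Complex.I) * (s : ℂ)⁻¹) * (1 - Complex.I * (s : ℂ)⁻¹)⁻¹ = _
        field_simp
        ring
      rw [e2]; ring
    have e2 : ∫ s in (2:ℝ)..3, (κ * R) ^ 2 / ((t + u / s ^ 2 - 2 * n / (1 + s ^ 2)) ^ 2 + (κ * R) ^ 2)
        = ∫ s in (2:ℝ)..3, κ ^ 2 / (q (R⁻¹ • v) s ^ 2 + κ ^ 2) := by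
      refine intervalIntegral.integral_congr fun s _ => ?_
      have : t + u / s ^ 2 - 2 * n / (1 + s ^ 2) = R * q (R⁻¹ • v) s := by
        simp only [q, hv, Prod.smul_mk, smul_eq_mul]
        field_simp
      simp only [this]
      have : 0 < q (R⁻¹ • v) s ^ 2 + κ ^ 2 := by positivity
      field_simp
    rw [e1]
    refine h.trans ?_
    rw [e2]
    have h1 := hsub _ hd
    have h2 : 2 / (κ * R) + R / (κ * R) ^ 2 = (2 / κ + 1 / κ ^ 2) / R := by field_simp
    have h3 : (2 / κ + 1 / κ ^ 2) / R ≤ ε / 2 := by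
      rw [div_le_iff₀ hR0]
      rw [div_lt_iff₀ (by positivity)] at hn
      nlinarith
    linarith
  · intro s hs
    have hs0 : s ≠ 0 := by linarith [hs.1]
    have h1 : HasDerivAt (fun s : ℝ => t * s - u / s) (t + u / s ^ 2) s := by
      refine (((hasDerivAt_id' s).const_mul t).fun_sub
        ((hasDerivAt_const s u).fun_div (hasDerivAt_id' s) hs0)).congr_deriv ?_
      ring
    have h2 := (h1.ofReal_comp.const_mul Complex.I).cexp
    have h3 : HasDerivAt (fun s : ℝ => (s : ℂ)) 1 s := (hasDerivAt_id' s).ofReal_comp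
    have h4 := ((h3.add_const Complex.I).fun_div (h3.sub_const Complex.I) (hsI s)).fun_pow n
    refine (h2.fun_mul h4).congr_deriv ?_
    have e1 : (1 + (s:ℂ) ^ 2) = ((s : ℂ) + Complex.I) * ((s : ℂ) - Complex.I) := by
      linear_combination Complex.I_sq
    have h5 := hsI s
    have h6 := hsI' s
    cases n with
    | zero => simp; ring
    | succ n =>
      simp only [Nat.add_sub_cancel, pow_succ (((s : ℂ) + Complex.I) / ((s : ℂ) - Complex.I)) n]
      push_cast
      rw [e1]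
      field_simp
      ring
  · intro s _
    have : ‖(s : ℂ) + Complex.I‖ = ‖(s : ℂ) - Complex.I‖ := by
      rw [← Complex.norm_conj]; simp [sub_eq_add_neg]
    rw [norm_mul, Complex.norm_exp_I_mul_ofReal, norm_pow, norm_div, this,
      div_self (norm_ne_zero_iff.2 (hsI s))]
    simp
  · intro s hs
    have hs0 : s ≠ 0 := by linarith [hs.1]
    have h1 : (1 + s ^ 2) ≠ 0 := by positivity
    refine ((((hasDerivAt_const s u).fun_div ((hasDerivAt_id' s).fun_pow 2)
      (pow_ne_zero 2 hs0)).const_add t).fun_sub ((hasDerivAt_const s (2 * (n:ℝ))).fun_div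
      (((hasDerivAt_id' s).fun_pow 2).const_add 1) h1)).congr_deriv ?_
    field_simp
    ring
  · intro s hs
    have h1 := hs.1
    have h2 := hs.2
    have hs0 : 0 < s := by linarith
    refine (abs_add_le _ _).trans ?_
    have b1 : |-(2 * u / s ^ 3)| ≤ R / 2 := by
      rw [abs_neg, abs_div, abs_mul, abs_of_pos (pow_pos hs0 3), div_le_iff₀ (pow_pos hs0 3)]
      have : (2:ℝ) ^ 3 ≤ s ^ 3 := by gcongr
      norm_num at this ⊢
      nlinarith
    have b2 : |4 * n * s / (1 + s ^ 2) ^ 2| ≤ R / 2 := by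
      rw [abs_of_nonneg (by positivity), div_le_iff₀ (by positivity)]
      have : (5:ℝ) ^ 2 ≤ (1 + s ^ 2) ^ 2 := by gcongr; nlinarith
      have : (n:ℝ) * s ≤ R * 3 := by gcongr
      nlinarith
    linarith
  · intro s hs
    have hs0 : s ≠ 0 := by linarith [hs.1]
    have h1 : HasDerivAt (fun s : ℝ => 3 / (2 * s)) (- (3 / (2 * s ^ 2))) s := by
      refine ((hasDerivAt_const s (3:ℝ)).fun_div ((hasDerivAt_id' s).const_mul 2)
        (mul_ne_zero two_ne_zero hs0)).congr_deriv ?_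
      field_simp
      ring
    exact (((hasDerivAt_id' s).div_const 4).fun_pow k).fun_mul (h1.fun_pow l)
  · intro s hs
    have h1 := hs.1
    have h2 := hs.2
    have hs0 : 0 < s := by linarith
    have c1 : s / 4 ≤ 3 / 4 := by linarith
    have c2 : 3 / (2 * s) ≤ 3 / 4 := by
      apply div_le_div_of_nonneg_left <;> linarith
    have c3 : 3 / (2 * s ^ 2) ≤ 3 / 8 := by
      apply div_le_div_of_nonneg_left <;> nlinarith
    have d1 := kpow k (s / 4) (by positivity) c1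
    have d2 := kpow l (3 / (2 * s)) (by positivity) c2
    have d3 : (s / 4) ^ k ≤ 1 := pow_le_one₀ (by positivity) (by linarith)
    have d4 : (3 / (2 * s)) ^ l ≤ 1 := pow_le_one₀ (by positivity) (by linarith)
    have f1 : (k * (s / 4) ^ (k - 1) * (1 / 4)) * (3 / (2 * s)) ^ l ≤ (3 * (1 / 4)) * 1 := by
      gcongr
    have f2 : (s / 4) ^ k * (l * (3 / (2 * s)) ^ (l - 1) * (3 / (2 * s ^ 2))) ≤ 1 * (3 * (3 / 8)) := by
      gcongr
    have f3 : 0 ≤ (k * (s / 4) ^ (k - 1) * (1 / 4)) * (3 / (2 * s)) ^ l := by positivity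
    have f4 : 0 ≤ (s / 4) ^ k * (l * (3 / (2 * s)) ^ (l - 1) * (3 / (2 * s ^ 2))) := by positivity
    rw [abs_le]
    constructor <;> nlinarith
  · refine ContinuousOn.add (ContinuousOn.neg (ContinuousOn.div (by fun_prop) (by fun_prop) ?_))
      (ContinuousOn.div (by fun_prop) (by fun_prop) ?_)
    · intro s hs
      have : 0 < s := by linarith [hs.1]
      positivity
    · intro s _; positivity
  · have g1 : ContinuousOn (fun s : ℝ => 3 / (2 * s)) (Set.Icc 2 3) :=
      ContinuousOn.div (by fun_prop) (by fun_prop) fun s hs => by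
        have : 0 < s := by linarith [hs.1]
        positivity
    have g2 : ContinuousOn (fun s : ℝ => 3 / (2 * s ^ 2)) (Set.Icc 2 3) :=
      ContinuousOn.div (by fun_prop) (by fun_prop) fun s hs => by
        have : 0 < s := by linarith [hs.1]
        positivity
    exact (ContinuousOn.mul (by fun_prop) (g1.pow l)).add
      (ContinuousOn.mul (by fun_prop) ((continuousOn_const.mul (g1.pow _)).mul g2.neg))

theorem result :
    ¬ (∀ (E : Type) [NormedAddCommGroup E] [NormedSpace ℂ E] [CompleteSpace E]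
      (T S : ℝ → E →L[ℂ] E),
      T 0 = 1 → S 0 = 1 →
      (∀ s t : ℝ, 0 ≤ s → 0 ≤ t → T (s + t) = T s * T t) →
      (∀ s t : ℝ, 0 ≤ s → 0 ≤ t → S (s + t) = S s * S t) →
      (∀ x : E, ContinuousOn (fun t : ℝ => T t x) (Set.Ici 0)) →
      (∀ x : E, ContinuousOn (fun t : ℝ => S t x) (Set.Ici 0)) →
      (∃ M : ℝ, ∀ t : ℝ, 0 ≤ t → ‖T t‖ ≤ M) →
      (∃ M : ℝ, ∀ t : ℝ, 0 ≤ t → ‖S t‖ ≤ M) →
      (∀ x y : E,
        Tendsto (fun t : ℝ => t⁻¹ • (T t x - x)) (𝓝[>] 0) (𝓝 y) ↔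
          Tendsto (fun t : ℝ => t⁻¹ • (S t y - y)) (𝓝[>] 0) (𝓝 x)) →
      ∀ V : E →L[ℂ] E,
        (∀ x y : E, Tendsto (fun t : ℝ => t⁻¹ • (T t x - x)) (𝓝[>] 0) (𝓝 y) →
          V (y - x) = y + x) →
        ∃ C : ℝ, ∀ n : ℕ, ‖V ^ n‖ ≤ C) := by
  intro H
  let E := (LinearMap.range J0.toLinearMap).topologicalClosure
  have hcs : CompleteSpace E := (Submodule.isClosed_topologicalClosure _).completeSpace_coe
  let J : D →L[ℂ] E := J0.codRestrict E fun f => Submodule.le_topologicalClosure _ ⟨f, rfl⟩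
  have hJ : DenseRange J := by
    intro x
    rw [Topology.IsEmbedding.subtypeVal.closure_eq_preimage_closure_image, ← Set.range_comp]
    exact x.2
  refine @abstract D _ _ _ E inferInstance inferInstance hcs J hJ aa bb cc ?_ ?_ ?_ ?_ ?_ ?_ ?_
    decay (@H E inferInstance inferInstance hcs)
  · ext s
    have := ne0 s
    show Complex.I * ((s:ℝ):ℂ) * (-Complex.I * ((s:ℝ):ℂ)⁻¹) = 1
    field_simp
    simp
  · ext s
    have := ne1 s
    show (1 + -Complex.I * ((s:ℝ):ℂ)⁻¹) * (1 - Complex.I * ((s:ℝ):ℂ)⁻¹)⁻¹ = 1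
    rw [neg_mul, ← sub_eq_add_neg, mul_inv_cancel₀ this]
  · intro f
    show ‖J0 (aa * f)‖ ≤ 4 * ‖J0 f‖
    refine J0_le _ _ (by positivity) fun t u k l => ?_
    have : aa * f * m t u k l = (4 * Complex.I) • (f * m t u (k+1) l) := by
      ext s
      simp only [m, aa, ContinuousMap.mul_apply, ContinuousMap.pow_apply, ContinuousMap.smul_apply,
        smul_eq_mul]
      ring
    rw [this, map_smul, norm_smul]
    have := J0_ge f t u (k+1) l
    simpa using this
  · intro f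
    show ‖J0 (bb * f)‖ ≤ (2/3) * ‖J0 f‖
    refine J0_le _ _ (by positivity) fun t u k l => ?_
    have : bb * f * m t u k l = (-(2/3 * Complex.I)) • (f * m t u k (l+1)) := by
      ext s
      simp only [m, bb, ContinuousMap.mul_apply, ContinuousMap.pow_apply, ContinuousMap.smul_apply,
        smul_eq_mul]
      ring
    rw [this, map_smul, norm_smul]
    have := J0_ge f t u k (l+1)
    simpa using this
  · intro t' f
    show ‖J0 (_ * f)‖ ≤ ‖J0 f‖
    refine J0_le _ _ (by positivity) fun t u k l => ?_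
    have : NormedSpace.exp (t' • aa) * f * m t u k l = f * m (t' + t) u k l := by
      ext s
      simp only [ContinuousMap.mul_apply, m, exp_apply, ContinuousMap.smul_apply, add_smul,
        Complex.exp_add]
      ring
    rw [this]
    exact J0_ge f _ _ _ _
  · intro t' f
    show ‖J0 (_ * f)‖ ≤ ‖J0 f‖
    refine J0_le _ _ (by positivity) fun t u k l => ?_
    have : NormedSpace.exp (t' • bb) * f * m t u k l = f * m t (t' + u) k l := by
      ext s
      simp only [ContinuousMap.mul_apply, m, exp_apply, ContinuousMap.smul_apply, add_smul,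
        Complex.exp_add]
      ring
    rw [this]
    exact J0_ge f _ _ _ _
  · show 1 ≤ ‖J0 1‖
    have := J0_ge 1 0 0 0 0
    rw [Lam_apply] at this
    simp [m, exp_apply] at this
    norm_num at this
    exact this

end Pool.Agent.S04462
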