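import Pool.Statements.S04474
-- import your own Pool.Agent.* helpers here
import Pool.Agent.H.MP_41f43f_an.A

set_option autoImplicit false
open MeasureTheory
open Pool Pool.MP_41f43f_an

namespace Pool.Agent.S04474

theorem result :
    ¬ (∀ n : ℕ, 1 ≤ n →
  ∀ g : ℝ → ℂ, MemLp g 2 volume →
    Integrable g volume →
    Integrable (fun p : ℝ × ℝ => ∫ t : ℝ, g t
        * Complex.exp (-(Real.pi : ℂ) * (((t - p.1) ^ 2 : ℝ) : ℂ))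
        * Complex.exp (-2 * (Real.pi : ℂ) * Complex.I * (p.2 : ℂ) * (t : ℂ)))
      (volume : Measure (ℝ × ℝ)) →
    (∀ t : ℝ, g (-t) = -g t) →
  ∀ Γ : Set (ℝ × ℝ),
    (∃ C : ℕ, ∀ z : ℝ × ℝ,
      (Γ ∩ (Set.Ico z.1 (z.1 + 1) ×ˢ Set.Ico z.2 (z.2 + 1))).Finite ∧
      (Γ ∩ (Set.Ico z.1 (z.1 + 1) ×ˢ Set.Ico z.2 (z.2 + 1))).ncard ≤ C) →
    Filter.liminf (fun R : ℝ => ⨅ z : ℝ × ℝ,
        ((Γ ∩ (Set.Ico z.1 (z.1 + R) ×ˢ Set.Ico z.2 (z.2 + R))).ncard : ℝ) / R ^ 2)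
      Filter.atTop = ((n : ℝ) + 1) / (n : ℝ) →
    ¬ ∃ A B : ℝ, 0 < A ∧ 0 < B ∧ ∀ f : ℝ → ℂ, MemLp f 2 volume →
      Summable (fun γ : Γ => ‖∫ t : ℝ, f t * (starRingEnd ℂ)
          (Complex.exp (2 * (Real.pi : ℂ) * Complex.I * (((γ : ℝ × ℝ).2 : ℝ) : ℂ) * (t : ℂ))
            * g (t - (γ : ℝ × ℝ).1))‖ ^ 2) ∧
      A * (∫ t : ℝ, ‖f t‖ ^ 2) ≤ (∑' γ : Γ, ‖∫ t : ℝ, f t * (starRingEnd ℂ)
          (Complex.exp (2 * (Real.pi : ℂ) * Complex.I * (((γ : ℝ × ℝ).2 : ℝ) : ℂ) * (t : ℂ))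
            * g (t - (γ : ℝ × ℝ).1))‖ ^ 2) ∧
      (∑' γ : Γ, ‖∫ t : ℝ, f t * (starRingEnd ℂ)
          (Complex.exp (2 * (Real.pi : ℂ) * Complex.I * (((γ : ℝ × ℝ).2 : ℝ) : ℂ) * (t : ℂ))
            * g (t - (γ : ℝ × ℝ).1))‖ ^ 2) ≤ B * (∫ t : ℝ, ‖f t‖ ^ 2)) := by
  intro H
  refine H 1 le_rfl Pool.Agent.H.MP_41f43f_an.g (Pool.Agent.H.MP_41f43f_an.g_mem 2)
    (memLp_one_iff_integrable.mp (Pool.Agent.H.MP_41f43f_an.g_mem 1))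
    Pool.Agent.H.MP_41f43f_an.s0 Pool.Agent.H.MP_41f43f_an.g_odd
    (Set.range Pool.Agent.H.MP_41f43f_an.ph) ⟨8, fun z => ?_⟩ ?_
    ⟨1, 1, one_pos, one_pos, fun f hf => ?_⟩
  · obtain ⟨h1, -, h2⟩ := Pool.Agent.H.MP_41f43f_an.cnt2 z 1 le_rfl
    refine ⟨h1, ?_⟩
    norm_num at h2
    exact_mod_cast h2
  · rw [Pool.Agent.H.MP_41f43f_an.dens]
    norm_num
  · have h := Pool.Agent.H.MP_41f43f_an.frame f hf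
    exact ⟨h.summable, by rw [h.tsum_eq, one_mul], by rw [h.tsum_eq, one_mul]⟩

end Pool.Agent.S04474
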