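import Pool.Statements.S04478
import Pool.Agent.H.MP_420470_an.A

set_option autoImplicit false
open scoped ContDiff
open Pool Pool.MP_420470_an

namespace Pool.Agent.S04478

theorem result :
    ¬ (∀ (n N : ℕ), 2 ≤ n → 1 ≤ N →
  ∀ (Ω : Set (Fin n → ℂ)) (Ω' : Set (Fin N → ℂ)),
  (IsOpen Ω ∧ IsConnected Ω ∧ Bornology.IsBounded Ω ∧
    ∃ ρ : (Fin n → ℂ) → ℝ, ContDiff ℝ ∞ ρ ∧ Ω = {z | ρ z < 0} ∧
      ∀ z ∈ frontier Ω, fderiv ℝ ρ z ≠ 0 ∧
        ∀ v : Fin n → ℂ, v ≠ 0 → fderiv ℝ ρ z v = 0 →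
          fderiv ℝ ρ z (Complex.I • v) = 0 →
          0 < fderiv ℝ (fderiv ℝ ρ) z v v
              + fderiv ℝ (fderiv ℝ ρ) z (Complex.I • v) (Complex.I • v)) →
  (IsOpen Ω' ∧ IsConnected Ω' ∧ Bornology.IsBounded Ω' ∧
    ∃ ρ : (Fin N → ℂ) → ℝ, ContDiff ℝ ∞ ρ ∧ Ω' = {z | ρ z < 0} ∧
      ∀ z ∈ frontier Ω', fderiv ℝ ρ z ≠ 0 ∧
        ∀ v : Fin N → ℂ, v ≠ 0 → fderiv ℝ ρ z v = 0 →
          fderiv ℝ ρ z (Complex.I • v) = 0 →
          0 < fderiv ℝ (fderiv ℝ ρ) z v v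
              + fderiv ℝ (fderiv ℝ ρ) z (Complex.I • v) (Complex.I • v)) →
  ∀ f : (Fin n → ℂ) → (Fin N → ℂ), ContDiff ℝ ∞ f → DifferentiableOn ℂ f Ω →
    Set.MapsTo f Ω Ω' →
    (∀ K : Set (Fin N → ℂ), IsCompact K → K ⊆ Ω' → IsCompact (Ω ∩ f ⁻¹' K)) →
  ∀ p ∈ closure Ω, ∃ k : ℕ,
    ∀ g : (Fin n → ℂ) → (Fin N → ℂ), ContDiff ℝ ∞ g → DifferentiableOn ℂ g Ω →
      Set.MapsTo g Ω Ω' →
      (∀ K : Set (Fin N → ℂ), IsCompact K → K ⊆ Ω' → IsCompact (Ω ∩ g ⁻¹' K)) →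
      (∀ m : ℕ, m ≤ k → iteratedFDeriv ℝ m g p = iteratedFDeriv ℝ m f p) →
      Set.EqOn g f Ω) := by
  intro h
  obtain ⟨ψ, h1, h2, h3, ⟨C, h4⟩, h5⟩ := H.MP_420470_an.exFlat
  have hr : ContDiff ℝ ∞ fun w : Fin 3 → ℂ => ‖ψ (w 0)‖ ^ 2 :=
    (contDiff_norm_sq ℝ).comp (h1.comp (contDiff_apply ℝ ℂ 0))
  obtain ⟨ε, e0, e1, e2, e3⟩ := H.MP_420470_an.small ![1, 0, 0] hr (C := C ^ 2)
    fun z => pow_le_pow_left₀ (norm_nonneg _) (h4 _) 2
  have A := H.MP_420470_an.spsc (N := 2) ![1, 0] (r := fun _ => 0) contDiff_const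
    (fun _ => le_rfl) (fun _ => zero_le_one) (by simp)
    (fun z _ => by
      rw [fderiv_fun_const, fderiv_zero]
      exact (ContinuousLinearMap.opNorm_zero).trans_le zero_le_one) _ rfl
  have A' := H.MP_420470_an.spsc ![1, 0, 0] (contDiff_const.mul hr) (fun z => by positivity)
    e1 e2 e3 _ rfl
  obtain ⟨F, hF⟩ : ∃ F : ℝ → (Fin 2 → ℂ) → Fin 3 → ℂ,
    F = fun (s : ℝ) z => ![z 0, z 1, s * ψ (z 0)] := ⟨_, rfl⟩
  generalize hΩ : {z : Fin 2 → ℂ |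
    H.MP_420470_an.B 2 (z - ![1, 0]) (z - ![1, 0]) - 1 - 0 < 0} = Ω at A
  generalize hΩ' : {z : Fin 3 → ℂ | H.MP_420470_an.B 3 (z - ![1, 0, 0]) (z - ![1, 0, 0]) - 1 -
    ε ^ 2 * ‖ψ (z 0)‖ ^ 2 < 0} = Ω' at A'
  have m1 : ∀ z, z ∈ Ω ↔ ‖z 0 - 1‖ ^ 2 + ‖z 1‖ ^ 2 < 1 := fun z => by
    rw [← hΩ, Set.mem_ofPred_eq, H.MP_420470_an.B_self, Fin.sum_univ_two, sub_zero, sub_neg]
    simp
  have m2 : ∀ s, s ^ 2 = ε ^ 2 → ∀ z, F s z ∈ Ω' ↔ z ∈ Ω := fun s hs z => by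
    rw [m1]
    simp [← hΩ', H.MP_420470_an.B_self, Fin.sum_univ_three, hF, mul_pow, hs]
    constructor <;> intro <;> linarith
  have c0 : ContDiff ℝ ∞ fun z : Fin 2 → ℂ => ψ (z 0) := h1.comp (contDiff_apply ℝ ℂ 0)
  have c1 : ∀ s, ContDiff ℝ ∞ (F s) := fun s => by
    rw [hF]
    refine contDiff_pi.2 fun i => ?_
    fin_cases i
    · exact contDiff_apply ℝ ℂ 0
    · exact contDiff_apply ℝ ℂ 1
    · exact contDiff_const.mul c0
  have c2 : ∀ s, DifferentiableOn ℂ (F s) Ω := fun s => by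
    rw [hF]
    refine differentiableOn_pi.2 fun i => ?_
    fin_cases i
    · exact (differentiable_apply 0).differentiableOn
    · exact (differentiable_apply 1).differentiableOn
    · refine (differentiableOn_const _).mul
        (h2.comp (differentiable_apply 0).differentiableOn fun z hz => ?_)
      have := (m1 z).1 hz
      have h6 := Complex.abs_re_le_norm (z 0 - 1)
      rw [abs_le, Complex.sub_re, Complex.one_re] at h6
      change 0 < (z 0).re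
      nlinarith [norm_nonneg (z 0 - 1), sq_nonneg ‖z 1‖]
  have c3 : ∀ s, s ^ 2 = ε ^ 2 → ∀ K : Set (Fin 3 → ℂ), IsCompact K → K ⊆ Ω' →
      IsCompact (Ω ∩ F s ⁻¹' K) := fun s hs K hK hK' => by
    have : F s ⁻¹' K ⊆ Ω := fun z hz => (m2 s hs z).1 (hK' hz)
    rw [Set.inter_eq_right.2 this]
    exact Metric.isCompact_of_isClosed_isBounded (hK.isClosed.preimage (c1 s).continuous)
      (A.2.2.1.subset this)
  have hp : (0 : Fin 2 → ℂ) ∈ closure Ω := by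
    have : Filter.Tendsto (fun t : ℝ => (![t, 0] : Fin 2 → ℂ)) (nhdsWithin 0 (Set.Ioi 0))
        (nhds 0) := by
      refine Filter.Tendsto.mono_left (Continuous.tendsto' (by fun_prop) _ _ ?_) nhdsWithin_le_nhds
      simp
    refine mem_closure_of_tendsto this ?_
    filter_upwards [Ioo_mem_nhdsGT zero_lt_one] with t ht
    rw [m1]
    simp only [Matrix.cons_val_zero, Matrix.cons_val_one, norm_zero]
    rw [← Complex.ofReal_one, ← Complex.ofReal_sub, Complex.norm_real, Real.norm_eq_abs, sq_abs]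
    nlinarith [ht.1, ht.2]
  obtain ⟨k, hk⟩ := h 2 3 le_rfl (by norm_num) Ω Ω' A A' (F ε) (c1 ε) (c2 ε)
    (fun z => (m2 ε rfl z).2) (c3 ε rfl) 0 hp
  have := hk (F (-ε)) (c1 _) (c2 _) (fun z => (m2 _ (neg_sq ε) z).2) (c3 _ (neg_sq ε))
    (fun m _ => ?_) ((m1 ![1, 0]).2 (by simp))
  · have := congrFun this 2
    simp [hF, neg_eq_iff_add_eq_zero, h3, e0.ne'] at this
  · have hm : (m : WithTop ℕ∞) ≤ ∞ := by exact_mod_cast le_top
    let L : ℂ →L[ℝ] Fin 3 → ℂ := ContinuousLinearMap.single ℝ (fun _ => ℂ) 2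
    have e : F (-ε) = F ε + L ∘ (fun z => (-2 * ε) • ψ (z 0)) := by
      ext z i
      fin_cases i <;> simp [hF, L]
      ring
    have z0 : iteratedFDeriv ℝ m (fun z : Fin 2 → ℂ => ψ (z 0)) 0 = 0 := by
      have := (ContinuousLinearMap.proj (R := ℝ) (φ := fun _ : Fin 2 => ℂ) 0).iteratedFDeriv_comp_right
        h1 0 hm
      rw [map_zero, h5] at this
      exact this.trans (by ext; simp)
    rw [e, iteratedFDeriv_add_apply ((c1 ε).of_le hm).contDiffAt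
      ((L.contDiff.comp (c0.const_smul _)).of_le hm).contDiffAt,
      L.iteratedFDeriv_comp_left (c0.const_smul _).contDiffAt hm,
      iteratedFDeriv_const_smul_apply' (c0.of_le hm).contDiffAt, z0]
    ext; simp

end Pool.Agent.S04478
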