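import Pool.Statements.S04486
-- import your own Pool.Agent.* helpers here

set_option autoImplicit false
open MeasureTheory ProbabilityTheory
open Pool Pool.MP_42c79c_an

namespace Pool.Agent.S04486

noncomputable def W {n : ℕ} (i j : Fin n) : ℝ := if i = j then 1 else if j < i then -3 / 4 else 0

theorem lu (n : ℕ) : ∀ (A : Matrix (Fin (n + 1)) (Fin (n + 1)) ℝ) (ε t : ℝ), 0 ≤ ε →
    2 ^ n * ε ≤ 1 / 10 → 0 ≤ t → (∀ i j, j ≠ Fin.last n → |A i j - W i j| ≤ ε) →
    (∀ i, t ≤ A i (Fin.last n)) → ∃ L U : Matrix (Fin (n + 1)) (Fin (n + 1)) ℝ,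
      (∀ i j, i < j → L i j = 0) ∧ (∀ i, L i i = 1) ∧ (∀ i j, |L i j| ≤ 1) ∧
      (∀ i j, j < i → U i j = 0) ∧ A = L * U ∧ (3 / 2) ^ n * t ≤ U (Fin.last n) (Fin.last n) := by
  induction n with
  | zero =>
    intro A ε t _ _ _ _ h
    refine ⟨1, A, fun i j h => absurd h (by omega), fun i => by simp, fun i j => ?_,
      fun i j h => absurd h (by omega), by simp, by simpa using h 0⟩
    rw [Subsingleton.elim (α := Fin 1) i j]; simp
  | succ n ih =>
    intro A ε t h0 h1 ht hW hl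
    have h2 : (1 : ℝ) ≤ 2 ^ n := one_le_pow₀ (by norm_num)
    have hε : ε ≤ 1 / 20 := by rw [pow_succ] at h1; nlinarith
    have hz : (0 : Fin (n + 2)) ≠ Fin.last (n + 1) := by simp [Fin.ext_iff]
    have p := abs_le.1 (hW 0 0 hz)
    simp only [W, if_true] at p
    have p0 : 0 < A 0 0 := by linarith [p.1]
    have hm : ∀ i : Fin (n + 1), -1 ≤ A i.succ 0 / A 0 0 ∧ A i.succ 0 / A 0 0 ≤ -1 / 2 := by
      intro i
      have q := abs_le.1 (hW i.succ 0 hz)
      simp only [W, Fin.succ_ne_zero, if_false, Fin.succ_pos, if_true] at q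
      rw [le_div_iff₀ p0, div_le_iff₀ p0]
      constructor <;> linarith [q.1, q.2, p.1, p.2]
    obtain ⟨L, U, l1, l2, l3, u1, e, g⟩ := ih
      (Matrix.of fun i j => A i.succ j.succ - A i.succ 0 / A 0 0 * A 0 j.succ) (2 * ε)
      (3 / 2 * t) (by linarith) (by rw [pow_succ] at h1; linarith) (by linarith)
      (fun i j hj => by
        have hj' : j.succ ≠ Fin.last (n + 1) := by
          rw [← Fin.succ_last]; exact fun h => hj (Fin.succ_injective _ h)
        have q1 := hW i.succ j.succ hj'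
        have q2 := hW 0 j.succ hj'
        have w : W i.succ j.succ = W i j := by simp [W]
        have w0 : W 0 j.succ = 0 := by simp [W, (Fin.succ_ne_zero j).symm]
        rw [w] at q1
        rw [w0, sub_zero] at q2
        have q3 : |A i.succ 0 / A 0 0 * A 0 j.succ| ≤ 1 * ε := by
          rw [abs_mul]
          exact mul_le_mul (abs_le.2 ⟨(hm i).1, by linarith [(hm i).2]⟩) q2 (abs_nonneg _)
            (by norm_num)
        rw [Matrix.of_apply, sub_right_comm]
        exact (abs_sub _ _).trans (by linarith))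
      (fun i => by
        have q1 := hl i.succ
        have q2 := hl 0
        rw [Matrix.of_apply, Fin.succ_last]
        nlinarith [(hm i).2])
    refine ⟨Matrix.of (Fin.cons (Fin.cons 1 0) fun i => Fin.cons (A i.succ 0 / A 0 0) (L i)),
      Matrix.of (Fin.cons (A 0) fun i => Fin.cons 0 (U i)), ?_, ?_, ?_, ?_, ?_, ?_⟩
    · intro i j
      refine Fin.cases ?_ (fun i => ?_) i <;> refine Fin.cases ?_ (fun j => ?_) j <;> simp
      exact l1 i j
    · intro i
      refine Fin.cases ?_ (fun i => ?_) i <;> simp [l2]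
    · intro i j
      refine Fin.cases ?_ (fun i => ?_) i <;> refine Fin.cases ?_ (fun j => ?_) j
      · simp
      · simp
      · simpa using abs_le.2 ⟨(hm i).1, by linarith [(hm i).2]⟩
      · simpa using l3 i j
    · intro i j
      refine Fin.cases ?_ (fun i => ?_) i <;> refine Fin.cases ?_ (fun j => ?_) j <;> simp
      exact u1 i j
    · ext i j
      rw [Matrix.mul_apply, Fin.sum_univ_succ]
      refine Fin.cases ?_ (fun i => ?_) i <;> refine Fin.cases ?_ (fun j => ?_) j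
      · simp
      · simp
      · simp [p0.ne']
      · have := congrFun (congrFun e i) j
        rw [Matrix.mul_apply, Matrix.of_apply] at this
        simp only [Matrix.of_apply, Fin.cons_succ, Fin.cons_zero]
        linarith
    · rw [← Fin.succ_last]
      simp only [Matrix.of_apply, Fin.cons_succ]
      rw [pow_succ, mul_assoc]
      exact g

theorem gauss (w δ : ℝ) (h0 : 0 ≤ δ) (h1 : |w| + δ ≤ 2) :
    ENNReal.ofReal (δ / 16) ≤ gaussianReal 0 1 (Set.Icc (w - δ) (w + δ)) := by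
  rw [gaussianReal_apply 0 one_ne_zero]
  refine le_trans ?_ (setLIntegral_mono' measurableSet_Icc
    (f := fun _ => ENNReal.ofReal (1 / 27)) fun y hy => ?_)
  · rw [setLIntegral_const, Real.volume_Icc, ← ENNReal.ofReal_mul (by norm_num)]
    exact ENNReal.ofReal_le_ofReal (by linarith)
  · refine ENNReal.ofReal_le_ofReal ?_
    have a1 := le_abs_self w
    have a2 := neg_abs_le w
    have h2 : y ^ 2 ≤ 4 := by nlinarith [hy.1, hy.2]
    have h3 : Real.exp (-2) ≤ Real.exp (-(y - 0) ^ 2 / (2 * 1)) :=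
      Real.exp_le_exp.2 (by linarith)
    have h4 : 1 / 9 ≤ Real.exp (-2) := by
      rw [Real.exp_neg, one_div]
      refine inv_anti₀ (Real.exp_pos _) ?_
      rw [show (2 : ℝ) = 1 + 1 by norm_num, Real.exp_add]
      nlinarith [Real.exp_one_lt_three, Real.exp_pos 1]
    have h5 : (1 / 3 : ℝ) ≤ (√(2 * Real.pi * 1))⁻¹ := by
      rw [one_div]
      refine inv_anti₀ (by positivity) (Real.sqrt_le_iff.2 ⟨by norm_num, ?_⟩)
      linarith [Real.pi_lt_four]
    have := mul_le_mul h5 (h4.trans h3) (by norm_num) (by positivity)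
    simp only [gaussianPDFReal, NNReal.coe_one]
    linarith

theorem result :
    ¬ (∃ c₁ c₂ : ℝ, 0 < c₂ ∧ ∀ n : ℕ, ∀ σ : ℝ, 0 < σ → σ ≤ 1 →
    ∀ Abar : Matrix (Fin n) (Fin n) ℝ,
    (∀ v : Fin n → ℝ, ∑ i, (Abar.mulVec v i) ^ 2 ≤ ∑ i, v i ^ 2) →
    ∀ x : ℝ, 1 ≤ x →
    (Measure.pi fun _ : Fin n => Measure.pi fun _ : Fin n => gaussianReal 0 1)
      {G : Fin n → Fin n → ℝ | ∃ π : Equiv.Perm (Fin n), ∃ L U : Matrix (Fin n) (Fin n) ℝ,
        (∀ i j, i < j → L i j = 0) ∧ (∀ i, L i i = 1) ∧ (∀ i j, |L i j| ≤ 1) ∧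
        (∀ i j, j < i → U i j = 0) ∧
        (Matrix.of fun i j => Abar (π i) j + σ * G (π i) j) = L * U ∧
        x * ((n : ℝ) / σ) ^ c₁ * (⨆ i, ⨆ j, |Abar i j + σ * G i j|) < ⨆ i, ⨆ j, |U i j|}
      ≤ ENNReal.ofReal ((2 : ℝ) ^ (-(c₂ * x)))) := by
  rintro ⟨c₁, c₂, hc, h⟩
  obtain ⟨k, hk⟩ := exists_nat_ge c₁
  have hK : 0 < 1 / (60 * (1 / c₂ + 1)) := by positivity
  obtain ⟨N, hN, N1⟩ := (((tendsto_pow_const_div_const_pow_of_one_lt (k + 3)
    (by norm_num : (1 : ℝ) < 3 / 2)).eventually (gt_mem_nhds hK)).and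
    (Filter.eventually_ge_atTop 1)).exists
  obtain ⟨n, rfl⟩ : ∃ n, N = n + 1 := ⟨N - 1, by omega⟩
  have n0 : (0 : ℝ) ≤ n := Nat.cast_nonneg n
  obtain ⟨x, hx⟩ : ∃ x : ℝ, x = (1 / c₂ + 1) * (10 * ((n + 1 : ℕ) : ℝ) ^ 3) := ⟨_, rfl⟩
  have m1 : (1 : ℝ) ≤ ((n + 1 : ℕ) : ℝ) := by push_cast; linarith
  have m3 : (1 : ℝ) ≤ ((n + 1 : ℕ) : ℝ) ^ 3 := one_le_pow₀ m1
  have c0 : 0 < 1 / c₂ := by positivity
  have x1 : 1 ≤ x := by rw [hx]; nlinarith
  have h1 := h (n + 1) 1 one_pos le_rfl 0 (fun v => by simp; positivity) x x1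
  let w : Fin (n + 1) → Fin (n + 1) → ℝ := fun i j => if j = Fin.last n then 3 / 2 else W i j
  have hw : ∀ i j, |w i j| ≤ 3 / 2 := fun i j => by
    simp only [w, W]
    split_ifs <;> norm_num [abs_le]
  obtain ⟨δ, hδ⟩ : ∃ δ : ℝ, δ = (1 / 2) ^ n / 16 := ⟨_, rfl⟩
  have d0 : 0 ≤ δ := by rw [hδ]; positivity
  have d1 : δ ≤ 1 / 16 := by
    rw [hδ]; gcongr; exact pow_le_one₀ (by norm_num) (by norm_num)
  have h2 := le_trans (measure_mono (s := Set.univ.pi fun i => Set.univ.pi fun j =>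
    Set.Icc (w i j - δ) (w i j + δ)) fun G hG => ?_) h1
  · simp only [Measure.pi_pi] at h2
    have h3 := le_trans (Finset.prod_le_prod' fun i _ => Finset.prod_le_prod' fun j _ =>
      gauss (w i j) δ d0 (by linarith [hw i j])) h2
    simp only [Finset.prod_const, Finset.card_univ, Fintype.card_fin] at h3
    rw [← ENNReal.ofReal_pow (by positivity), ← ENNReal.ofReal_pow (by positivity),
      ENNReal.ofReal_le_ofReal_iff (by positivity), hδ,
      show (1 / 2 : ℝ) ^ n / 16 / 16 = (2 ^ (n + 8))⁻¹ by rw [pow_add, one_div, inv_pow]; field_simp; norm_num,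
      inv_pow, inv_pow, ← pow_mul, ← pow_mul, ← Real.rpow_natCast, ← Real.rpow_neg (by norm_num),
      Real.rpow_le_rpow_left_iff (by norm_num), hx, ← mul_assoc c₂, mul_add c₂,
      mul_one_div_cancel hc.ne']
      at h3
    push_cast at h3 m3
    nlinarith [mul_pos hc (lt_of_lt_of_le one_pos m3), sq_nonneg ((n : ℝ) + 1)]
  · have hb : ∀ i j, |G i j - w i j| ≤ δ := fun i j => by
      have := hG i trivial j trivial
      exact abs_le.2 ⟨by linarith [this.1], by linarith [this.2]⟩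
    obtain ⟨L, U, l1, l2, l3, u1, e, g⟩ := lu n (Matrix.of G) δ 1 d0
      (by rw [hδ, ← mul_div_assoc, ← mul_pow]; norm_num) zero_le_one
      (fun i j hj => by simpa [w, hj] using hb i j)
      (fun i => by
        have := (abs_le.1 (hb i (Fin.last n))).1
        simp only [w, if_true] at this
        change 1 ≤ G i _
        linarith)
    refine ⟨1, L, U, l1, l2, l3, u1, by simpa using e, ?_⟩
    have s1 : (⨆ i, ⨆ j, |(0 : Matrix (Fin (n + 1)) (Fin (n + 1)) ℝ) i j + 1 * G i j|) ≤ 2 :=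
      ciSup_le fun i => ciSup_le fun j => by
        have := abs_sub_abs_le_abs_sub (G i j) (w i j)
        simp only [Matrix.zero_apply, one_mul, zero_add]
        linarith [hb i j, hw i j]
    have s2 : (3 / 2 : ℝ) ^ n ≤ ⨆ i, ⨆ j, |U i j| :=
      le_trans (by linarith [le_abs_self (U (Fin.last n) (Fin.last n))])
        ((Finite.le_ciSup (fun j => |U (Fin.last n) j|) (Fin.last n)).trans
          (Finite.le_ciSup (fun i => ⨆ j, |U i j|) (Fin.last n)))
    have s3 : (((n + 1 : ℕ) : ℝ) / 1) ^ c₁ ≤ ((n + 1 : ℕ) : ℝ) ^ k := by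
      rw [div_one, ← Real.rpow_natCast]
      exact Real.rpow_le_rpow_of_exponent_le m1 hk
    refine lt_of_le_of_lt (mul_le_mul (mul_le_mul_of_nonneg_left s3 (by linarith)) s1
      (Real.iSup_nonneg fun i => Real.iSup_nonneg fun j => abs_nonneg _) (by positivity))
      (lt_of_lt_of_le ?_ s2)
    rw [div_lt_div_iff₀ (by positivity) (by positivity), pow_add, pow_succ (3 / 2 : ℝ)] at hN
    rw [hx]
    nlinarith [pow_pos (by norm_num : (0 : ℝ) < 3 / 2) n]

end Pool.Agent.S04486
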