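import Pool.Statements.S04488
import Pool.Agent.H.MP_42c941_an.C

set_option autoImplicit false
open MeasureTheory
open Pool Pool.MP_42c941_an

namespace Pool.Agent.S04488

theorem result :
    ¬ (∀ (Γ : Type) [Group Γ], Group.FG Γ →
    (∀ (F : Finset Γ) (ε : ℝ), 0 < ε → ∃ S : Finset Γ, S.Nonempty ∧
        ∀ g ∈ F, ((((fun x => g * x) '' (S : Set Γ)) \ (S : Set Γ)).ncard : ℝ) < ε * (S.card : ℝ)) →
    {a : {a : Γ → C(ℕ → Bool, ℕ → Bool) //
          a 1 = ContinuousMap.id (ℕ → Bool) ∧ ∀ g h : Γ, a (g * h) = (a g).comp (a h)} |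
      IsClosed {ν : {μ : ProbabilityMeasure (ℕ → Bool) //
                  ∀ g : Γ, (μ : Measure (ℕ → Bool)).map (⇑(a.1 g)) = (μ : Measure (ℕ → Bool))} |
        ∀ s : Set (ℕ → Bool), MeasurableSet s → (∀ g : Γ, ⇑(a.1 g) ⁻¹' s = s) →
          (ν.1 : Measure (ℕ → Bool)) s = 0 ∨ (ν.1 : Measure (ℕ → Bool)) s = 1}} ∈ residual _) := by
  intro h
  have := H.MP_42c941_an.baire
  obtain ⟨a, d, k, hd, hk, h1, h2⟩ := H.MP_42c941_an.model
  have h3 := h H.MP_42c941_an.G inferInstance (fun F ε hε => by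
    have := (Filter.eventually_all_finset F).2 fun g _ =>
      (H.MP_42c941_an.folner g).eventually (gt_mem_nhds hε)
    obtain ⟨n, hn⟩ := this.exists
    refine ⟨_, H.MP_42c941_an.box_ne n, fun g hg => ?_⟩
    exact (div_lt_iff₀ (Nat.cast_pos.2 (H.MP_42c941_an.box_ne n).card_pos)).1 (hn g hg))
  obtain ⟨x, ⟨x1, x2⟩, hx⟩ := (dense_of_mem_residual h3).inter_open_nonempty _
    ((H.MP_42c941_an.open_R hd H.MP_42c941_an.RT H.MP_42c941_an.T).inter
      (H.MP_42c941_an.open_R hd H.MP_42c941_an.RU H.MP_42c941_an.U)) ⟨a, h1, h2⟩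
  exact H.MP_42c941_an.main x (continuous_fst.comp hd) (H.MP_42c941_an.patch x d k hk x1 x2) hx

end Pool.Agent.S04488
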