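import Pool.Statements.S04492
import Pool.Agent.H.MP_42dd51_an.E

set_option autoImplicit false
open scoped Classical
open Pool Pool.MP_42dd51_an

namespace Pool.Agent.S04492

open Pool.Agent.H.MP_42dd51_an in
theorem result :
    ¬ (∀ (X Y : Type) [MetricSpace X] [MetricSpace Y],
      (∀ r : ℝ, 0 < r → ∃ N : ℕ, ∀ x : X, (Metric.closedBall x r).encard ≤ (N : ℕ∞)) →
      (∀ r : ℝ, 0 < r → ∃ N : ℕ, ∀ y : Y, (Metric.closedBall y r).encard ≤ (N : ℕ∞)) →
      (∃ φ : ↥((StarAlgebra.adjoin ℂ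
                {a : lp (fun _ : X => ℂ) 2 →L[ℂ] lp (fun _ : X => ℂ) 2 |
                  ∃ r : ℝ, ∀ x x' : X, r < dist x x' →
                    inner ℂ (lp.single 2 x (1 : ℂ) : lp (fun _ : X => ℂ) 2)
                      (a (lp.single 2 x' (1 : ℂ) : lp (fun _ : X => ℂ) 2)) = 0}).topologicalClosure)
            →⋆ₙₐ[ℂ]
            ↥((StarAlgebra.adjoin ℂ
                {b : lp (fun _ : Y => ℂ) 2 →L[ℂ] lp (fun _ : Y => ℂ) 2 |
                  ∃ r : ℝ, ∀ y y' : Y, r < dist y y' →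
                    inner ℂ (lp.single 2 y (1 : ℂ) : lp (fun _ : Y => ℂ) 2)
                      (b (lp.single 2 y' (1 : ℂ) : lp (fun _ : Y => ℂ) 2)) = 0}).topologicalClosure),
          Function.Injective φ) →
      ∃ f : X → Y,
        (∀ r : ℝ, 0 < r → ∃ s : ℝ, 0 < s ∧
            ∀ x x' : X, dist x x' ≤ r → dist (f x) (f x') ≤ s) ∧
        ∃ N : ℕ, ∀ y : Y, (f ⁻¹' {y}).encard ≤ (N : ℕ∞)) := by
  intro h
  obtain ⟨U, hU, hU'⟩ := exists_Phi
  have hS : ∀ (Z : Type) (d : Z → Z → ℝ), {a : E2 Z →L[ℂ] E2 Z | ∃ r : ℝ, ∀ x x' : Z, r < d x x' →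
      inner ℂ (sg x) (a (sg x')) = 0} = FPs Z d := by
    intro Z d
    ext a
    simp only [FPs, ent, inner_sg]
  obtain ⟨f, hf, M, hM⟩ := h X Y (fun r _ => ulf_of ballX r) (fun r _ => ulf_of ballY r) (by
    rw [← hS (X × Bool) (fun y y' => (dY y y' : ℝ))] at hU'
    obtain ⟨φ, hφ, _⟩ := exists_hom hU _ (hS X dist) _ (by
      rw [hS X dist]
      exact hU')
    exact ⟨φ, hφ⟩)
  obtain ⟨s, _, hs⟩ := hf 1 one_pos
  exact no_map' f s hs M hM

end Pool.Agent.S04492
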