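import Pool.Statements.S04499
import Pool.Agent.H.MP_435399_an.D

set_option autoImplicit false
open MeasureTheory Filter Topology
open Pool Pool.MP_435399_an

namespace Pool.Agent.S04499

theorem result :
    ∀ (z : ℕ → ℂ), (∀ n, ‖z n‖ < 1) →
      (∃ h : ℂ → ℂ, DifferentiableOn ℂ h (Metric.ball (0 : ℂ) 1) ∧
        IntegrableOn (fun w => ‖h w‖ ^ 2) (Metric.ball (0 : ℂ) 1) ∧
        ∃ ε : ℝ, 0 < ε ∧ ∀ (s : Finset ℕ) (a : ℕ → ℂ),
          ε ≤ ∫ w in Metric.ball (0 : ℂ) 1,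
            ‖h w - ∑ n ∈ s, a n * ((1 - z n * w) ^ 2)⁻¹‖ ^ 2) →
      ∀ (S : ℕ → Finset ℕ) (c : ℕ → ℕ → ℂ) (f : ℂ → ℂ),
        DifferentiableOn ℂ f (Metric.ball (0 : ℂ) 1) →
        IntegrableOn (fun w => ‖f w‖ ^ 2) (Metric.ball (0 : ℂ) 1) →
        Tendsto (fun j : ℕ => ∫ w in Metric.ball (0 : ℂ) 1,
            ‖(∑ n ∈ S j, c j n * ((1 - z n * w) ^ 2)⁻¹) - f w‖ ^ 2) atTop (𝓝 0) →
        ∀ (c0 : ℂ) (r : ℝ), 0 < r → Metric.ball c0 r ⊆ {w : ℂ | 1 < ‖w‖} →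
          TendstoUniformlyOn
            (fun (j : ℕ) (w : ℂ) => ∑ n ∈ S j, c j n * ((1 - z n * w) ^ 2)⁻¹)
            (fun _ => (0 : ℂ)) atTop (Metric.ball c0 r) →
          ∀ w ∈ Metric.ball (0 : ℂ) 1, f w = 0 := by
  rintro z hz ⟨h, hd, hi, ε, hε, H⟩ S c f fd fi ht c0 r hr hs hu
  obtain ⟨F, a1, a2, a3, a4⟩ := Pool.Agent.H.MP_435399_an.exF hz hd
    ((memLp_two_iff_integrable_sq_norm
      (hd.continuousOn.aestronglyMeasurable measurableSet_ball)).2 hi) hε H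
  exact Pool.Agent.H.MP_435399_an.main hz a1 a2 a3 a4 S c fd
    ((memLp_two_iff_integrable_sq_norm
      (fd.continuousOn.aestronglyMeasurable measurableSet_ball)).2 fi) ht hr
    (hs (Metric.mem_ball_self hr)) hu

end Pool.Agent.S04499
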