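import Pool.Statements.S04505
-- import your own Pool.Agent.* helpers here
import Pool.Agent.H.MP_438bde_an.E

set_option autoImplicit false
open Filter Topology
open Pool Pool.MP_438bde_an

namespace Pool.Agent.S04505

theorem result :
  ∀ (X : Type) [NormedAddCommGroup X] [NormedSpace ℝ X] [CompleteSpace X],
    (∀ φ : (X →L[ℝ] ℝ) →L[ℝ] ℝ, ∃ x : X, ∀ f : X →L[ℝ] ℝ, φ f = f x) →
    ∀ (T : X → Set (X →L[ℝ] ℝ)) (T0 : X → (X →L[ℝ] ℝ)),
      (∀ x y : X, ∀ f ∈ T x, ∀ g ∈ T y, 0 ≤ (f - g) (x - y)) →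
      (∀ (x : X) (f : X →L[ℝ] ℝ),
          (∀ y : X, ∀ g ∈ T y, 0 ≤ (f - g) (x - y)) → f ∈ T x) →
      (∀ R : ℝ, ∃ M : ℝ, ∀ x : X, ‖x‖ ≤ R → ‖T0 x‖ ≤ M) →
      (∀ F : Submodule ℝ X, FiniteDimensional ℝ F →
          ∀ φ : (X →L[ℝ] ℝ) →L[ℝ] ℝ, Continuous (fun x : F => φ (T0 (x : X)))) →
      (∀ (u : ℕ → X) (v : X) (y : ℕ → (X →L[ℝ] ℝ)),
          (∀ f : X →L[ℝ] ℝ, Tendsto (fun j => f (u j)) atTop (𝓝 (f v))) →
          (∀ j, y j ∈ T (u j)) →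
          (∃ C : ℝ, ∀ j, ‖y j‖ ≤ C) →
          (∀ ε : ℝ, 0 < ε → ∀ᶠ j in atTop, (T0 (u j)) (u j - v) ≤ ε) →
          ((∀ φ : (X →L[ℝ] ℝ) →L[ℝ] ℝ,
              Tendsto (fun j => φ (T0 (u j))) atTop (𝓝 (φ (T0 v)))) ∧
            Tendsto (fun j => (T0 (u j)) (u j - v)) atTop (𝓝 0))) →
      (∀ M : ℝ, ∃ R : ℝ, ∀ x : X, ∀ y ∈ T x, R ≤ ‖x‖ → M * ‖x‖ ≤ (y + T0 x) x) →
      ∀ f : X →L[ℝ] ℝ, ∃ x : X, ∃ y ∈ T x, y + T0 x = f := by
  intro X _ _ _ hr T T0 hm hx hB _ hps hco f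
  obtain ⟨R, hR⟩ := hco (‖f‖ + 1)
  obtain ⟨p, hp, h⟩ := Pool.Agent.H.MP_438bde_an.main hr {p | p.2 ∈ T p.1}
    (fun p hp q hq => hm _ _ _ hp _ hq) (fun p h => hx _ _ fun y g hg => h (y, g) hg)
    (fun x => T0 x - f) (fun R => by
      obtain ⟨M, hM⟩ := hB R
      exact ⟨M + ‖f‖, fun x hx => (norm_sub_le _ _).trans (by linarith [hM x hx])⟩)
    (fun u v y h1 h2 h3 h4 => by
      have a1 : Tendsto (fun j => f (u j - v)) atTop (𝓝 0) := by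
        simpa only [map_sub, sub_self] using (h1 f).sub_const (f v)
      obtain ⟨b1, b2⟩ := hps u v y h1 h2 h3 fun ε hε => by
        filter_upwards [h4 _ (half_pos hε), a1.eventually (gt_mem_nhds (half_pos hε))] with j c1 c2
        rw [ContinuousLinearMap.sub_apply] at c1
        linarith
      refine ⟨fun x => (b1 (ContinuousLinearMap.apply ℝ ℝ x)).sub_const (f x), ?_⟩
      simpa only [ContinuousLinearMap.sub_apply, sub_zero] using b2.sub a1) R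
    (fun p hp h => by
      have a1 := hR _ _ hp h
      have a2 := (Pool.Agent.H.MP_438bde_an.low f p.1).2
      simp only [ContinuousLinearMap.sub_apply, ContinuousLinearMap.add_apply] at a1 ⊢
      linarith)
  exact ⟨p.1, p.2, hp, by rw [← sub_eq_zero, add_sub_assoc]; exact h⟩

end Pool.Agent.S04505
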