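import Pool.Statements.S04518

set_option autoImplicit false
open MeasureTheory
open scoped Pointwise
open Pool Pool.MP_4442a2_an

namespace Pool.Agent.S04518

open scoped InnerProductSpace ENNReal
open Set

abbrev V := EuclideanSpace ℝ (Fin 400)

lemma tang {d : ℝ} (hd : 0 < d) : 5 / 4 - d ^ 2 / 4 ≤ d ^ (-(1 / 2) : ℝ) := by
  set r := d ^ (-(1 / 2) : ℝ) with hr
  have r0 : 0 < r := Real.rpow_pos_of_pos hd _
  have e : r ^ 4 * d ^ 2 = 1 := by
    rw [hr, ← Real.rpow_natCast, ← Real.rpow_mul hd.le, ← Real.rpow_natCast d 2, ← Real.rpow_add hd]; norm_num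
  have h1 : 0 ≤ 4 * r ^ 5 - 5 * r ^ 4 + 1 := by
    have : 4 * r ^ 5 - 5 * r ^ 4 + 1 = (r - 1) ^ 2 * (4 * r ^ 3 + 3 * r ^ 2 + 2 * r + 1) := by ring
    rw [this]; positivity
  have h4 : 0 < r ^ 4 := by positivity
  by_contra h
  push Not at h
  nlinarith

lemma low (μ : Measure V) [IsProbabilityMeasure μ] (h : ∀ᵐ x ∂μ, ‖x‖ ^ 2 ≤ 1 / 2) :
    1 ≤ ∫⁻ x, ∫⁻ y, (edist x y) ^ (-(1 / 2) : ℝ) ∂μ ∂μ := by
  have hi : Integrable (fun y : V => y) μ :=
    Integrable.of_bound aestronglyMeasurable_id 1 (h.mono fun x hx => by nlinarith [norm_nonneg x])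
  set m := ∫ y, y ∂μ with hm
  have nn : ∀ x y : V, ‖x‖ ^ 2 ≤ 1 / 2 → ‖y‖ ^ 2 ≤ 1 / 2 → 0 ≤ 1 + ⟪x, y⟫_ℝ / 2 := fun x y hx hy => by
    have := norm_add_sq_real x y
    nlinarith [sq_nonneg ‖x + y‖]
  have step : ∀ x : V, (∀ᵐ y ∂μ, 0 ≤ 1 + ⟪x, y⟫_ℝ / 2) →
      ENNReal.ofReal (1 + ⟪x, m⟫_ℝ / 2) = ∫⁻ y, ENNReal.ofReal (1 + ⟪x, y⟫_ℝ / 2) ∂μ := fun x hx => by
    have i1 : Integrable (fun y => ⟪x, y⟫_ℝ / 2) μ := (hi.const_inner x).div_const 2
    rw [← ofReal_integral_eq_lintegral_ofReal (f := fun y => 1 + ⟪x, y⟫_ℝ / 2) ((integrable_const 1).add i1) hx]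
    congr 1
    rw [integral_add (integrable_const 1) i1, integral_div, integral_inner hi]; simp [hm]
  have a1 : ∀ᵐ x ∂μ, ENNReal.ofReal (1 + ⟪x, m⟫_ℝ / 2) ≤ ∫⁻ y, (edist x y) ^ (-(1 / 2) : ℝ) ∂μ := by
    filter_upwards [h] with x hx
    rw [step x (h.mono fun y hy => nn x y hx hy)]
    refine lintegral_mono_ae (h.mono fun y hy => ?_)
    by_cases e : x = y
    · rw [e, edist_self, ENNReal.zero_rpow_of_neg (by norm_num)]; exact le_top
    · have hd : 0 < dist x y := dist_pos.2 e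
      rw [edist_dist, ENNReal.ofReal_rpow_of_pos hd]
      refine ENNReal.ofReal_le_ofReal (le_trans ?_ (tang hd))
      rw [dist_eq_norm, norm_sub_sq_real]
      linarith
  refine le_trans ?_ (lintegral_mono_ae a1)
  have mm : ‖m‖ ^ 2 ≤ 1 := by
    have : ‖m‖ ≤ 1 := by
      simpa using norm_integral_le_of_norm_le_const (C := 1) (h.mono fun x hx => by nlinarith [norm_nonneg x])
    nlinarith [norm_nonneg m]
  simp only [real_inner_comm m]
  rw [← step m (h.mono fun y hy => by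
    have := norm_add_sq_real m y
    nlinarith [sq_nonneg ‖m + y‖]), ENNReal.one_le_ofReal, real_inner_self_eq_norm_sq]
  nlinarith [sq_nonneg ‖m‖]

lemma J (s : ℝ) (hs : s ∈ Icc (0 : ℝ) 1) :
    ∫⁻ u in Icc (0 : ℝ) 1, (ENNReal.ofReal (|s - u| / 10)) ^ (-(1 / 2) : ℝ) ≤ 16 := by
  have i0 := intervalIntegral.intervalIntegrable_rpow' (a := 0) (b := 1) (r := -(1 / 2)) (by norm_num)
  have v0 : ∫ x in (0 : ℝ)..1, x ^ (-(1 / 2) : ℝ) = 2 := by
    rw [integral_rpow (Or.inl (by norm_num))]; norm_num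
  have pt : ∀ d : ℝ, 0 < d → (ENNReal.ofReal (d / 10)) ^ (-(1 / 2) : ℝ) ≤ ENNReal.ofReal (4 * d ^ (-(1 / 2) : ℝ)) := by
    intro d hd
    rw [ENNReal.ofReal_rpow_of_pos (by positivity)]
    refine ENNReal.ofReal_le_ofReal ?_
    have h1 : (d / 10) ^ (-(1 / 2) : ℝ) ≤ (d / 16) ^ (-(1 / 2) : ℝ) :=
      Real.rpow_le_rpow_of_nonpos (by positivity) (by linarith) (by norm_num)
    have h2 : (16 : ℝ) ^ (-(1 / 2) : ℝ) = 1 / 4 := by
      rw [show (16 : ℝ) = 4 ^ (2 : ℝ) by norm_num, ← Real.rpow_mul (by norm_num)]; norm_num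
    rw [Real.div_rpow hd.le (show (0 : ℝ) ≤ 16 by norm_num), h2] at h1
    linarith
  have b1 : ∫⁻ u in Ioo (s - 1) s, (ENNReal.ofReal (|s - u| / 10)) ^ (-(1 / 2) : ℝ) ≤ 8 := by
    have i1 := (i0.comp_sub_left s).symm.const_mul 4
    rw [sub_zero, intervalIntegrable_iff_integrableOn_Ioo_of_le (by linarith)] at i1
    calc _ ≤ ∫⁻ u in Ioo (s - 1) s, ENNReal.ofReal (4 * (s - u) ^ (-(1 / 2) : ℝ)) :=
          setLIntegral_mono' measurableSet_Ioo fun u hu => by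
            rw [abs_of_pos (sub_pos.2 hu.2)]; exact pt _ (sub_pos.2 hu.2)
      _ = ENNReal.ofReal (∫ u in Ioo (s - 1) s, 4 * (s - u) ^ (-(1 / 2) : ℝ)) :=
          (ofReal_integral_eq_lintegral_ofReal i1 ((ae_restrict_iff' measurableSet_Ioo).2 (ae_of_all _ fun u hu => by
            have := Real.rpow_nonneg (sub_pos.2 hu.2).le (-(1 / 2) : ℝ)
            simp only [Pi.zero_apply]; positivity))).symm
      _ = 8 := by
          rw [← integral_Ioc_eq_integral_Ioo, ← intervalIntegral.integral_of_le (by linarith),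
            intervalIntegral.integral_const_mul,
            intervalIntegral.integral_comp_sub_left (fun x : ℝ => x ^ (-(1 / 2) : ℝ)), sub_self, sub_sub_cancel, v0]
          norm_num
  have b2 : ∫⁻ u in Ioo s (s + 1), (ENNReal.ofReal (|s - u| / 10)) ^ (-(1 / 2) : ℝ) ≤ 8 := by
    have i1 := (i0.comp_sub_right s).const_mul 4
    rw [zero_add, add_comm 1 s, intervalIntegrable_iff_integrableOn_Ioo_of_le (by linarith)] at i1
    calc _ ≤ ∫⁻ u in Ioo s (s + 1), ENNReal.ofReal (4 * (u - s) ^ (-(1 / 2) : ℝ)) :=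
          setLIntegral_mono' measurableSet_Ioo fun u hu => by
            rw [abs_sub_comm, abs_of_pos (sub_pos.2 hu.1)]; exact pt _ (sub_pos.2 hu.1)
      _ = ENNReal.ofReal (∫ u in Ioo s (s + 1), 4 * (u - s) ^ (-(1 / 2) : ℝ)) :=
          (ofReal_integral_eq_lintegral_ofReal i1 ((ae_restrict_iff' measurableSet_Ioo).2 (ae_of_all _ fun u hu => by
            have := Real.rpow_nonneg (sub_pos.2 hu.1).le (-(1 / 2) : ℝ)
            simp only [Pi.zero_apply]; positivity))).symm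
      _ = 8 := by
          rw [← integral_Ioc_eq_integral_Ioo, ← intervalIntegral.integral_of_le (by linarith),
            intervalIntegral.integral_const_mul,
            intervalIntegral.integral_comp_sub_right (fun x : ℝ => x ^ (-(1 / 2) : ℝ)), sub_self, add_sub_cancel_left, v0]
          norm_num
  have sub : Icc (0 : ℝ) 1 ≤ᵐ[volume] (Ioo (s - 1) s ∪ Ioo s (s + 1) : Set ℝ) := by
    filter_upwards [Measure.ae_ne volume s, Measure.ae_ne volume (s - 1), Measure.ae_ne volume (s + 1)] with u h1 h2 h3 hu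
    rcases lt_or_gt_of_ne h1 with h | h
    · exact Or.inl ⟨lt_of_le_of_ne (by linarith [hu.1, hs.2]) h2.symm, h⟩
    · exact Or.inr ⟨h, lt_of_le_of_ne (by linarith [hu.2, hs.1]) h3⟩
  calc _ ≤ _ := lintegral_mono' (Measure.restrict_mono_ae sub) le_rfl
    _ ≤ _ := lintegral_union_le _ _ _
    _ ≤ 8 + 8 := add_le_add b1 b2
    _ = 16 := by norm_num

noncomputable def φ (σ : ℝ) (i : Fin 400) (s : ℝ) : V := EuclideanSpace.single i (σ * (1 - s / 10))
lemma φ_meas (σ i) : Measurable (φ σ i) := by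
  have : φ σ i = fun s => (σ * (1 - s / 10)) • EuclideanSpace.single i (1 : ℝ) := by
    ext s j; simp [φ, Pi.single_apply]
  rw [this]; fun_prop
noncomputable def μ (σ : ℝ) : Measure V :=
  ∑ i, (400 : ℝ≥0∞)⁻¹ • (volume.restrict (Icc (0 : ℝ) 1)).map (φ σ i)

lemma μ_prob (σ : ℝ) : IsProbabilityMeasure (μ σ) := ⟨by
  simp only [μ, Measure.coe_finset_sum, Finset.sum_apply, Measure.smul_apply,
    Measure.map_apply (φ_meas σ _) MeasurableSet.univ]
  simp
  exact ENNReal.mul_inv_cancel (by norm_num) (by norm_num)⟩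

lemma μ_null (σ : ℝ) (K : Set V) (hK : MeasurableSet K) (h : ∀ i, ∀ s ∈ Icc (0 : ℝ) 1, φ σ i s ∈ K) : μ σ Kᶜ = 0 := by
  simp only [μ, Measure.coe_finset_sum, Finset.sum_apply, Measure.smul_apply,
    Measure.map_apply (φ_meas σ _) hK.compl]
  refine Finset.sum_eq_zero fun i _ => ?_
  rw [Measure.restrict_apply (φ_meas σ i hK.compl)]
  have : φ σ i ⁻¹' Kᶜ ∩ Icc 0 1 = ∅ := eq_empty_of_forall_notMem fun s hs => hs.1 (h i s hs.2)
  rw [this]; simp

lemma μ_le (σ : ℝ) (f : V → ℝ≥0∞) (c : Fin 400 → ℝ≥0∞) (h : ∀ i, ∫⁻ s in Icc (0 : ℝ) 1, f (φ σ i s) ≤ c i) :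
    ∫⁻ x, f x ∂(μ σ) ≤ (400 : ℝ≥0∞)⁻¹ * ∑ i, c i := by
  rw [μ, lintegral_finset_sum_measure, Finset.mul_sum]
  refine Finset.sum_le_sum fun i _ => ?_
  rw [lintegral_smul_measure, smul_eq_mul]
  gcongr
  exact (lintegral_map_le _ _).trans (h i)

lemma up (σ : ℝ) (hσ : σ ^ 2 = 1) :
    ∫⁻ x, ∫⁻ y, (edist x y) ^ (-(1 / 2) : ℝ) ∂(μ σ) ∂(μ σ) ≤ ENNReal.ofReal (47 / 50) := by
  have inner : ∀ i, ∀ s ∈ Icc (0 : ℝ) 1,
      ∫⁻ y, (edist (φ σ i s) y) ^ (-(1 / 2) : ℝ) ∂(μ σ) ≤ ENNReal.ofReal (47 / 50) := fun i s hs => by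
    refine (μ_le σ _ (fun j => ENNReal.ofReal (9 / 10) + if j = i then 16 else 0) fun j => ?_).trans ?_
    · by_cases e : j = i
      · subst e
        rw [if_pos rfl]
        refine le_add_left (le_trans (le_of_eq ?_) (J s hs))
        congr 1; ext u
        rw [edist_dist, φ, φ, EuclideanSpace.dist_single_same, Real.dist_eq]
        congr 2
        have : |σ| = 1 := by rw [← sq_eq_sq₀ (abs_nonneg _) zero_le_one, sq_abs, hσ]; norm_num
        rw [← mul_sub, abs_mul, this, one_mul, show 1 - s / 10 - (1 - u / 10) = (u - s) / 10 by ring, abs_div,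
          abs_sub_comm]
        norm_num
      · rw [if_neg e, add_zero]
        refine (setLIntegral_mono' measurableSet_Icc (g := fun _ => ENNReal.ofReal (9 / 10)) fun u hu => ?_).trans
          (by simp)
        have h1 : (100 / 81 : ℝ) ≤ dist (φ σ i s) (φ σ j u) := by
          refine le_of_sq_le_sq ?_ dist_nonneg
          rw [dist_eq_norm, norm_sub_sq_real, φ, φ, EuclideanSpace.inner_single_left]
          simp [e, Ne.symm e, mul_pow, hσ]
          nlinarith [hs.1, hs.2, hu.1, hu.2]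
        rw [edist_dist, ENNReal.ofReal_rpow_of_pos (by linarith)]
        refine ENNReal.ofReal_le_ofReal ((Real.rpow_le_rpow_of_nonpos (by norm_num) h1 (by norm_num)).trans ?_)
        rw [show (100 / 81 : ℝ) = (10 / 9) ^ (2 : ℝ) by norm_num, ← Real.rpow_mul (by norm_num)]
        norm_num
    · rw [Finset.sum_add_distrib, Finset.sum_ite_eq']
      simp only [Finset.sum_const, Finset.card_univ, Fintype.card_fin, Finset.mem_univ, if_true, nsmul_eq_mul]
      rw [show (400 : ℝ≥0∞)⁻¹ = ENNReal.ofReal (400⁻¹) by rw [ENNReal.ofReal_inv_of_pos (by norm_num)]; simp,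
        show ((400 : ℕ) : ℝ≥0∞) = ENNReal.ofReal 400 by simp, show (16 : ℝ≥0∞) = ENNReal.ofReal 16 by simp,
        ← ENNReal.ofReal_mul (by norm_num), ← ENNReal.ofReal_add (by norm_num) (by norm_num),
        ← ENNReal.ofReal_mul (by norm_num)]
      norm_num
  refine (μ_le σ _ (fun _ => ENNReal.ofReal (47 / 50)) fun i => ?_).trans ?_
  · exact (setLIntegral_mono' measurableSet_Icc (inner i)).trans (by simp)
  · simp only [Finset.sum_const, Finset.card_univ, Fintype.card_fin, nsmul_eq_mul]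
    rw [← mul_assoc, show ((400 : ℕ) : ℝ≥0∞) = 400 by simp, ENNReal.inv_mul_cancel (by norm_num) (by norm_num), one_mul]

def K (σ : ℝ) : Set V := Metric.closedBall 0 1 ∩ {x | ∀ i, 0 ≤ σ * x i}
lemma K_closed (σ : ℝ) : IsClosed {x : V | ∀ i, 0 ≤ σ * x i} := by
  simp only [setOf_forall]
  exact isClosed_iInter fun i => isClosed_le continuous_const (by fun_prop)
lemma K_cpt (σ : ℝ) : IsCompact (K σ) := (isCompact_closedBall _ _).inter_right (K_closed σ)
lemma K_conv (σ : ℝ) : Convex ℝ (K σ) := (convex_closedBall _ _).inter fun x hx y hy a b ha hb _ i => by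
  have h1 := mul_nonneg ha (hx i)
  have h2 := mul_nonneg hb (hy i)
  simp only [PiLp.add_apply, PiLp.smul_apply, smul_eq_mul]
  linarith
lemma K_int (σ : ℝ) (hσ : σ ^ 2 = 1) : (interior (K σ)).Nonempty := by
  have ho : IsOpen (Metric.ball (0 : V) 1 ∩ {x | ∀ i, 0 < σ * x i}) := by
    refine Metric.isOpen_ball.inter ?_
    simp only [setOf_forall]
    exact isOpen_iInter_of_finite fun i => isOpen_lt continuous_const (by fun_prop)
  have hsub : Metric.ball (0 : V) 1 ∩ {x | ∀ i, 0 < σ * x i} ⊆ K σ :=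
    fun x hx => ⟨Metric.ball_subset_closedBall hx.1, fun i => (hx.2 i).le⟩
  refine ⟨WithLp.toLp 2 fun _ => σ / 40, interior_maximal hsub ho ⟨?_, fun i => ?_⟩⟩
  · rw [mem_ball_zero_iff, EuclideanSpace.norm_eq, Real.sqrt_lt' one_pos]
    simp [div_pow, hσ]; norm_num
  · show 0 < σ * (σ / 40)
    nlinarith
lemma φ_mem (σ : ℝ) (hσ : σ ^ 2 = 1) (i) (s : ℝ) (hs : s ∈ Icc (0 : ℝ) 1) : φ σ i s ∈ K σ := by
  have : |σ| = 1 := by rw [← sq_eq_sq₀ (abs_nonneg _) zero_le_one, sq_abs, hσ]; norm_num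
  refine ⟨?_, fun j => ?_⟩
  · simp [φ, this, abs_le]
    constructor <;> linarith [hs.1, hs.2]
  · simp only [φ, PiLp.single_apply]
    split_ifs
    · rw [← mul_assoc, ← sq, hσ]; linarith [hs.2]
    · simp

theorem result :
    ¬ (∀ (N : ℕ) (α : ℝ), 2 ≤ N → 0 < α → α < (N : ℝ) →
    ∀ Cap : Set (EuclideanSpace ℝ (Fin N)) → ENNReal,
      (∀ K : Set (EuclideanSpace ℝ (Fin N)),
        Cap K = (⨅ (μ : Measure (EuclideanSpace ℝ (Fin N)))
                  (_ : IsProbabilityMeasure μ) (_ : μ Kᶜ = 0),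
                  ∫⁻ x, ∫⁻ y, (edist x y) ^ (α - (N : ℝ)) ∂μ ∂μ)⁻¹) →
      ∀ K₀ K₁ : Set (EuclideanSpace ℝ (Fin N)),
        IsCompact K₀ → Convex ℝ K₀ → (interior K₀).Nonempty →
        IsCompact K₁ → Convex ℝ K₁ → (interior K₁).Nonempty →
        ∀ t : ℝ, 0 ≤ t → t ≤ 1 →
          ENNReal.ofReal t * Cap K₁ ^ (1 / ((N : ℝ) - α))
            + ENNReal.ofReal (1 - t) * Cap K₀ ^ (1 / ((N : ℝ) - α))
            ≤ Cap (t • K₁ + (1 - t) • K₀) ^ (1 / ((N : ℝ) - α))) := by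
  intro h
  have key := h 400 (400 - 1 / 2) (by norm_num) (by norm_num) (by norm_num) _ (fun _ => rfl) (K (-1)) (K 1)
    (K_cpt _) (K_conv _) (K_int _ (by norm_num)) (K_cpt _) (K_conv _) (K_int _ (by norm_num)) (1 / 2)
    (by norm_num) (by norm_num)
  have e1 : (400 - 1 / 2 - ((400 : ℕ) : ℝ) : ℝ) = -(1 / 2) := by norm_num
  have e2 : (1 / (((400 : ℕ) : ℝ) - (400 - 1 / 2)) : ℝ) = 2 := by norm_num
  have e3 : (1 - 1 / 2 : ℝ) = 1 / 2 := by norm_num
  simp only [e1, e2, e3] at key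
  have hK : ∀ σ : ℝ, σ ^ 2 = 1 → 1 < ((⨅ (ν : Measure V) (_ : IsProbabilityMeasure ν) (_ : ν (K σ)ᶜ = 0),
      ∫⁻ x, ∫⁻ y, (edist x y) ^ (-(1 / 2) : ℝ) ∂ν ∂ν)⁻¹) ^ (2 : ℝ) := fun σ hσ => by
    refine ENNReal.one_lt_rpow (ENNReal.one_lt_inv.2 (lt_of_le_of_lt ?_
      (show ENNReal.ofReal (47 / 50) < 1 by rw [ENNReal.ofReal_lt_one]; norm_num))) two_pos
    exact iInf_le_of_le (μ σ) (iInf_le_of_le (μ_prob σ) (iInf_le_of_le
      (μ_null σ _ (K_cpt σ).measurableSet (φ_mem σ hσ)) (up σ hσ)))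
  have hM : ((⨅ (ν : Measure V) (_ : IsProbabilityMeasure ν) (_ : ν ((1 / 2 : ℝ) • K 1 + (1 / 2 : ℝ) • K (-1))ᶜ = 0),
      ∫⁻ x, ∫⁻ y, (edist x y) ^ (-(1 / 2) : ℝ) ∂ν ∂ν)⁻¹) ^ (2 : ℝ) ≤ 1 := by
    refine ENNReal.rpow_le_one (ENNReal.inv_le_one.2 ?_) two_pos.le
    refine le_iInf fun ν => le_iInf fun _ => le_iInf fun hν => low ν ?_
    filter_upwards [mem_ae_iff.2 hν] with z hz
    obtain ⟨_, ⟨x, hx, rfl⟩, _, ⟨y, hy, rfl⟩, rfl⟩ := hz
    have h1 : ‖x‖ ≤ 1 := by simpa using hx.1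
    have h2 : ‖y‖ ≤ 1 := by simpa using hy.1
    have h3 : ⟪x, y⟫_ℝ ≤ 0 := by
      rw [PiLp.inner_apply]
      refine Finset.sum_nonpos fun i _ => ?_
      have a := hx.2 i
      have b := hy.2 i
      simp only [RCLike.inner_apply, conj_trivial]
      nlinarith
    simp only
    rw [← smul_add, norm_smul, mul_pow, norm_add_sq_real]
    norm_num
    nlinarith [norm_nonneg x, norm_nonneg y]
  have hh : ENNReal.ofReal (1 / 2) ≠ 0 := by simp
  have : (1 : ℝ≥0∞) = ENNReal.ofReal (1 / 2) * 1 + ENNReal.ofReal (1 / 2) * 1 := by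
    rw [mul_one, ← ENNReal.ofReal_add (by norm_num) (by norm_num)]; norm_num
  refine absurd (key.trans hM) (not_le.2 ?_)
  conv_lhs => rw [this]
  exact ENNReal.add_lt_add ((ENNReal.mul_lt_mul_iff_right hh ENNReal.ofReal_ne_top).2 (hK 1 (by norm_num)))
    ((ENNReal.mul_lt_mul_iff_right hh ENNReal.ofReal_ne_top).2 (hK (-1) (by norm_num)))

end Pool.Agent.S04518
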