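import Pool.Statements.S04524
import Pool.Agent.H.MP_4470cb_an.E

set_option autoImplicit false
open MeasureTheory Filter Topology
open Pool Pool.MP_4470cb_an

namespace Pool.Agent.S04524

open Pool.Agent.H.MP_4470cb_an TopologicalSpace Finset in
theorem result :
    ¬ (∀ p : ℕ, 2 ≤ p → ∀ c : ℕ → ℤ, StrictMono c →
      {μ : {ν : ProbabilityMeasure UnitAddCircle //
              (ν : Measure UnitAddCircle).map (fun x : UnitAddCircle => p • x)
                = (ν : Measure UnitAddCircle)} |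
        (∀ x : UnitAddCircle, (μ.1 : Measure UnitAddCircle) {x} = 0) ∧
        ¬ (∀ f : C(UnitAddCircle, ℝ),
            Tendsto (fun n : ℕ => ∫ x, f (c n • x) ∂(μ.1 : Measure UnitAddCircle))
              atTop (𝓝 (∫ x, f x)))} ∈ residual _) := by
  classical
  intro H
  have cl : IsClosed {ν : ProbabilityMeasure UnitAddCircle |
      (ν : Measure UnitAddCircle).map (fun x : UnitAddCircle => 2 • x) = ν} := by
    have := isClosed_eq (ProbabilityMeasure.continuous_map (Ω := UnitAddCircle)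
      (f := fun x : UnitAddCircle => 2 • x) (by fun_prop)) continuous_id
    convert this using 1
    exact Set.ext fun ν => ⟨fun h => Subtype.ext h, fun h => congrArg Subtype.val h⟩
  have : CompactSpace PP := isCompact_iff_compactSpace.1 cl.isCompact
  have : SecondCountableTopology PP := by
    have : MetrizableSpace PP := Topology.IsEmbedding.subtypeVal.metrizableSpace
    let _ := metrizableSpaceMetric PP
    infer_instance
  have ne : Nonempty PP := ⟨(per (k := 1) (z := 0) le_rfl (by simp)).choose⟩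
  have hb := isBasis_countableBasis PP
  obtain ⟨o, ho, -⟩ := hb.exists_subset_of_mem_open (Set.mem_univ ne.some) isOpen_univ
  have := (countable_countableBasis PP).to_subtype
  have : Nonempty (countableBasis PP × {a : ℤ // a ≠ 0} × ℕ × ℕ) := ⟨⟨o, ho⟩, ⟨1, one_ne_zero⟩, 0, 0⟩
  obtain ⟨s, hs⟩ := exists_surjective_nat (countableBasis PP × {a : ℤ // a ≠ 0} × ℕ × ℕ)
  choose V V1 V2 V3 m0 V4 using fun n => step (hb.isOpen (s n).1.2)
    (nonempty_of_mem_countableBasis (s n).1.2) (s n).2.1.2 (ω := Complex.I ^ (s n).2.2.1) (by simp)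
    (ε := 1 / (((s n).2.2.2 : ℝ) + 1)) (τ := 1 / 2 / 2 / 2 ^ n) (by positivity)
    (by rw [div_le_one (by positivity)]; simp) (by positivity)
  have ex : ∀ n b : ℕ, ∃ c : ℕ, b < c ∧ ∀ i ≤ n, ∀ μ ∈ V i,
      ∫ x, (Complex.I ^ (s i).2.2.1 * fourier ((s i).2.1 * c) x).re
        ∂(μ.1 : Measure UnitAddCircle) ≤ 3 * (1 / (((s i).2.2.2 : ℝ) + 1)) := fun n b => by
    obtain ⟨m, hm⟩ : ∃ m, m = (range (n + 1)).sup m0 + (b + 1) := ⟨_, rfl⟩
    choose B B1 B2 using fun i : Fin (n + 1) => V4 i (m + 1) (by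
      have := le_sup (f := m0) (mem_range.2 i.2)
      omega)
    obtain ⟨c, c1, c2⟩ := exists_mem_notMem_of_card_lt_card
      (s := range (b + 1) ∪ univ.biUnion B) (t := range (2 ^ (m + 1))) (by
        have a1 : b + 1 < 2 ^ m := lt_of_le_of_lt (by omega) Nat.lt_two_pow_self
        have a2 : ((univ.biUnion B).card : ℝ) ≤ 2 ^ m := by
          refine le_trans (Nat.cast_le.2 card_biUnion_le) ?_
          rw [Nat.cast_sum]
          refine (sum_le_sum fun i _ => B1 i).trans ?_
          have := (hasSum_geometric_two' (1 / 2 : ℝ)).summable.sum_le_tsum (range (n + 1))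
            fun _ _ => by positivity
          rw [tsum_geometric_two', ← Fin.sum_univ_eq_sum_range] at this
          rw [← sum_mul, pow_succ]
          nlinarith [show (0 : ℝ) < 2 ^ m by positivity]
        have a3 : (univ.biUnion B).card ≤ 2 ^ m := by exact_mod_cast a2
        have := card_union_le (range (b + 1)) (univ.biUnion B)
        rw [card_range] at this ⊢
        omega)
    simp only [mem_union, mem_biUnion, mem_range, mem_univ, true_and, not_or, not_exists] at c1 c2
    exact ⟨c, by omega, fun i hi => B2 ⟨i, by omega⟩ c c1 (c2.2 _)⟩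
  choose g g1 g2 using ex
  obtain ⟨c, c0, c1⟩ : ∃ c : ℕ → ℕ, c 0 = g 0 0 ∧ ∀ n, c (n + 1) = g (n + 1) (c n) :=
    ⟨fun n => Nat.rec (g 0 0) (fun n b => g (n + 1) b) n, rfl, fun _ => rfl⟩
  have c2 : ∀ n, ∃ b, c n = g n b := fun n => by
    cases n
    exacts [⟨_, c0⟩, ⟨_, c1 _⟩]
  have r1 := H 2 le_rfl (fun n => c n) (strictMono_nat_of_lt_succ fun n => by
    rw [c1]; exact_mod_cast g1 _ _)
  have r2 : (⋂ t, ⋃ n, ⋃ _ : (s n).2 = t, V n) ∈ residual PP := countable_iInter_mem.2 fun t =>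
    residual_of_dense_open (isOpen_iUnion fun n => isOpen_iUnion fun _ => V1 n)
      (hb.dense_iff.2 fun o ho _ => by
        obtain ⟨n, hn⟩ := hs (⟨o, ho⟩, t)
        obtain ⟨μ, hμ⟩ := V2 n
        exact ⟨μ, by simpa [hn] using V3 n hμ, Set.mem_iUnion₂.2 ⟨n, by rw [hn], hμ⟩⟩)
  obtain ⟨μ, ⟨-, h1⟩, h2⟩ := (dense_of_mem_residual (inter_mem r1 r2)).nonempty
  refine h1 (weyl _ _ fun a ha => ?_)
  rw [Metric.tendsto_nhds]
  intro ε hε
  obtain ⟨e, he⟩ := exists_nat_one_div_lt (show 0 < ε / 6 by positivity)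
  have : ∀ j : ℕ, ∀ᶠ n in atTop, (Complex.I ^ j *
      ∫ x, fourier (a * c n) x ∂(μ.1 : Measure UnitAddCircle)).re ≤ 3 * (1 / ((e : ℝ) + 1)) := by
    intro j
    obtain ⟨i, hi, h⟩ := Set.mem_iUnion₂.1 (Set.mem_iInter.1 h2 (⟨a, ha⟩, j, e))
    filter_upwards [eventually_ge_atTop i] with n hn
    obtain ⟨b, hb⟩ := c2 n
    have := g2 n b i hn μ h
    rw [hi, ← hb] at this
    rw [← integral_const_mul]
    exact (integral_re (f := fun x => Complex.I ^ j * fourier (a * c n) x)
      (int _ (by fun_prop))).symm.trans_le this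
  filter_upwards [this 0, this 1, this 2, this 3] with n a0 a1 a2 a3
  generalize ∫ x, fourier (a * c n) x ∂(μ.1 : Measure UnitAddCircle) = w at *
  simp [pow_succ] at a0 a1 a2 a3
  rw [dist_zero_right]
  refine (Complex.norm_le_abs_re_add_abs_im w).trans_lt ?_
  rw [one_div] at he
  have b1 : |w.re| ≤ 3 * ((e : ℝ) + 1)⁻¹ := abs_le.2 ⟨by linarith, a0⟩
  have b2 : |w.im| ≤ 3 * ((e : ℝ) + 1)⁻¹ := abs_le.2 ⟨by linarith, by linarith⟩
  linarith

end Pool.Agent.S04524
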