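import Pool.Statements.S04527
import Pool.Agent.H.MP_449b18_an.A

set_option autoImplicit false
open Pointwise
open Pool Pool.MP_449b18_an

namespace Pool.Agent.S04527

theorem result :
    ∀ (Γ : Type) [Group Γ] [DecidableEq Γ] (S : Finset Γ),
      Subgroup.closure (S : Set Γ) = ⊤ →
      ((∃ P : Polynomial ℝ, ∀ (r : ℕ) (F G H : Finset Γ) (f g h : Γ → ℂ),
          F ⊆ (insert 1 (S ∪ S⁻¹)) ^ r →
          ‖∑ x ∈ F, ∑ y ∈ G, ∑ z ∈ H, (if x * y * z = 1 then f x * g y * h z else 0)‖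
            ≤ P.eval (r : ℝ) *
              (Real.sqrt (∑ x ∈ F, ‖f x‖ ^ 2) * Real.sqrt (∑ y ∈ G, ‖g y‖ ^ 2) *
                Real.sqrt (∑ z ∈ H, ‖h z‖ ^ 2)))
        ↔
       (∃ P : Polynomial ℝ, ∀ (r : ℕ) (A B C : Finset Γ),
          A ⊆ (insert 1 (S ∪ S⁻¹)) ^ r →
          (((A ×ˢ B ×ˢ C).filter (fun t => t.1 * t.2.1 * t.2.2 = 1)).card : ℝ)
            ≤ P.eval (r : ℝ) * Real.sqrt ((A.card : ℝ) * B.card * C.card))) := by
  intro Γ _ _ S _
  constructor
  · rintro ⟨P, hP⟩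
    refine ⟨P, fun r A B C hA => ?_⟩
    have := hP r A B C 1 1 1 hA
    rw [Real.sqrt_mul' _ (Nat.cast_nonneg _), Real.sqrt_mul' _ (Nat.cast_nonneg _)]
    simp only [Finset.card_filter, Finset.sum_product]
    simp only [Pi.one_apply, mul_one, norm_one, one_pow, Finset.sum_const, nsmul_eq_mul] at this
    refine le_trans (le_of_eq ?_) this
    rw [← Complex.norm_natCast]
    push_cast
    rfl
  · rintro ⟨P, hP⟩
    obtain ⟨m, hm⟩ : ∃ m, m = (insert 1 (S ∪ S⁻¹)).card := ⟨_, rfl⟩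
    refine ⟨2 + P * (8 * ((m : Polynomial ℝ) * Polynomial.X) * (2 * ((m : Polynomial ℝ) * Polynomial.X) + 1)),
      fun r F G H f g h hF => ?_⟩
    have P0 : 0 ≤ P.eval (r : ℝ) := by
      have := hP r {1} {1} {1} (by simp [Finset.one_mem_pow])
      simp only [Finset.card_singleton, Nat.cast_one, mul_one, Real.sqrt_one] at this
      exact (Nat.cast_nonneg _).trans this
    have hL : F.card ≤ 2 ^ (m * r) := by
      refine (Finset.card_le_card hF).trans (Finset.card_pow_le.trans ?_)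
      rw [pow_mul, ← hm]
      exact Nat.pow_le_pow_left Nat.lt_two_pow_self.le _
    have := Pool.Agent.H.MP_449b18_an.scaled (G := G) (H := H) (fun x => norm_nonneg (f x))
      (fun x => norm_nonneg (g x)) (fun x => norm_nonneg (h x)) hL P0 fun A B C hA => by
        rw [Pool.Agent.H.MP_449b18_an.T_one]; exact hP r A B C (hA.trans hF)
    refine le_trans ?_ (this.trans (le_of_eq (by simp)))
    refine norm_sum_le_of_le _ fun x _ => norm_sum_le_of_le _ fun y _ =>
      norm_sum_le_of_le _ fun z _ => ?_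
    split_ifs <;> simp

end Pool.Agent.S04527
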