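import Pool.Statements.S04536
-- import your own Pool.Agent.* helpers here

set_option autoImplicit false
open Pool Pool.MP_45d43b_an

namespace Pool.Agent.S04536


open Filter Topology

abbrev X := ZeroAtInftyContinuousMap ℕ ℝ

noncomputable def mk (f : ℕ → ℝ) (hf : Tendsto f atTop (𝓝 0)) : X :=
  { toFun := f
    continuous_toFun := continuous_of_discreteTopology
    zero_at_infty' := by rwa [cocompact_eq_cofinite, Nat.cofinite_eq_atTop] }

lemma mk_apply (f : ℕ → ℝ) (hf : Tendsto f atTop (𝓝 0)) (n : ℕ) : mk f hf n = f n := rfl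

lemma tend (x : X) : Tendsto x atTop (𝓝 0) := by
  have := x.zero_at_infty'
  rwa [cocompact_eq_cofinite, Nat.cofinite_eq_atTop] at this

lemma abs_le_norm (x : X) (n : ℕ) : |x n| ≤ ‖x‖ := by
  have := x.toBCF.norm_coe_le_norm n
  simpa using this

lemma norm_le (x : X) (c : ℝ) (hc : 0 ≤ c) (h : ∀ n, |x n| ≤ c) : ‖x‖ ≤ c := by
  rw [← ZeroAtInftyContinuousMap.norm_toBCF_eq_norm]
  exact (BoundedContinuousFunction.norm_le hc).mpr (fun n => by simpa using h n)

noncomputable def F (x : X) : X :=
  mk (fun n => Nat.casesOn n (1 - ‖x‖) (fun m => x m)) (by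
    rw [← tendsto_add_atTop_iff_nat 1]
    exact tend x)

lemma F_zero (x : X) : F x 0 = 1 - ‖x‖ := rfl
lemma F_succ (x : X) (n : ℕ) : F x (n + 1) = x n := rfl

lemma F_lip : LipschitzWith 1 F := by
  apply LipschitzWith.of_dist_le_mul
  intro x y
  rw [dist_eq_norm, dist_eq_norm, NNReal.coe_one, one_mul]
  apply norm_le _ _ (norm_nonneg _)
  intro n
  rw [ZeroAtInftyContinuousMap.sub_apply]
  cases n with
  | zero =>
    rw [F_zero, F_zero]
    have := abs_norm_sub_norm_le y x
    rw [norm_sub_rev y x] at this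
    convert this using 2
    ring
  | succ m =>
    rw [F_succ, F_succ, ← ZeroAtInftyContinuousMap.sub_apply]
    exact abs_le_norm _ _

noncomputable def e (k : ℕ) : X :=
  mk (fun n => if n = k then 1 else 0) (by
    apply tendsto_const_nhds.congr'
    filter_upwards [eventually_gt_atTop k] with n hn
    simp [hn.ne'])

lemma e_apply (k n : ℕ) : e k n = if n = k then 1 else 0 := rfl

lemma norm_e (k : ℕ) : ‖e k‖ = 1 := by
  apply le_antisymm
  · apply norm_le _ _ zero_le_one
    intro n
    rw [e_apply]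
    split_ifs <;> simp
  · have := abs_le_norm (e k) k
    simpa [e_apply] using this

lemma F_e (k : ℕ) : F (e k) = e (k + 1) := by
  ext n
  cases n with
  | zero => rw [F_zero, norm_e, e_apply]; simp
  | succ m => rw [F_succ, e_apply, e_apply]; simp

lemma iter_e (k : ℕ) : F^[k] (e 0) = e k := by
  induction k with
  | zero => rfl
  | succ m ih => rw [Function.iterate_succ_apply', ih, F_e]

lemma no_fix (x : X) : F x ≠ x := by
  intro h
  have h1 : ∀ n, x n = 1 - ‖x‖ := by
    intro n
    induction n with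
    | zero => rw [← F_zero, h]
    | succ m ih => rw [← ih, ← F_succ x m, h]
  have h2 : (1 - ‖x‖ : ℝ) = 0 := by
    have h3 : Tendsto x atTop (𝓝 (1 - ‖x‖)) := by
      have : (x : ℕ → ℝ) = fun _ => 1 - ‖x‖ := funext h1
      rw [this]
      exact tendsto_const_nhds
    exact tendsto_nhds_unique h3 (tend x)
  have h4 : ‖x‖ ≤ 0 := norm_le x 0 le_rfl (fun n => by rw [h1, h2]; simp)
  linarith

lemma sum_apply' (s : Finset ℕ) (g : ℕ → X) (n : ℕ) : (∑ i ∈ s, g i) n = ∑ i ∈ s, g i n := by
  classical
  induction s using Finset.induction_on with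
  | empty => simp
  | insert a s ha ih => rw [Finset.sum_insert ha, Finset.sum_insert ha, ZeroAtInftyContinuousMap.add_apply, ih]

lemma weak_null (f : X →L[ℝ] ℝ) : Tendsto (fun k => f (e k)) atTop (𝓝 0) := by
  have hs : Summable (fun k => |f (e k)|) := by
    apply summable_of_sum_range_le (c := ‖f‖) (fun k => abs_nonneg _)
    intro N
    set y : X := ∑ k ∈ Finset.range N, (Real.sign (f (e k))) • e k with hy
    have h1 : f y = ∑ k ∈ Finset.range N, |f (e k)| := by
      rw [hy, map_sum]
      apply Finset.sum_congr rfl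
      intro k _
      rw [map_smul, smul_eq_mul]
      rcases lt_trichotomy (f (e k)) 0 with h | h | h
      · rw [Real.sign_of_neg h, abs_of_neg h]; ring
      · rw [h]; simp
      · rw [Real.sign_of_pos h, abs_of_pos h]; ring
    have h2 : ‖y‖ ≤ 1 := by
      apply norm_le _ _ zero_le_one
      intro n
      rw [hy, sum_apply']
      simp only [ZeroAtInftyContinuousMap.smul_apply, e_apply, smul_eq_mul, mul_ite, mul_one, mul_zero]
      rw [Finset.sum_ite_eq]
      split_ifs
      · rcases Real.sign_apply_eq (f (e n)) with h | h | h <;> rw [h] <;> simp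
      · simp
    have h3 := f.le_opNorm y
    rw [← h1]
    calc f y ≤ ‖f y‖ := le_abs_self _
      _ ≤ ‖f‖ * ‖y‖ := h3
      _ ≤ ‖f‖ := mul_le_of_le_one_right f.opNorm_nonneg h2
  exact (tendsto_zero_iff_abs_tendsto_zero _).mpr hs.tendsto_atTop_zero

lemma weak_tend : Tendsto (fun k => toWeakSpace ℝ X (e k)) atTop (𝓝 (toWeakSpace ℝ X 0)) := by
  have hinj : Function.Injective (topDualPairing ℝ X).flip := by
    intro x y h
    apply (SeparatingDual.eq_iff_forall_dual_eq (R := ℝ)).mpr
    intro g
    exact LinearMap.congr_fun h g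
  refine (WeakBilin.tendsto_iff_forall_eval_tendsto (topDualPairing ℝ X).flip hinj).mpr ?_
  intro f
  have := weak_null f
  show Tendsto (fun k => f (e k)) atTop (𝓝 (f 0))
  rw [map_zero]
  exact this

theorem result :
    ¬ (∀ (S : Type) [CommSemigroup S] (C : Set (ZeroAtInftyContinuousMap ℕ ℝ))
      (T : S → ZeroAtInftyContinuousMap ℕ ℝ → ZeroAtInftyContinuousMap ℕ ℝ),
      C.Nonempty → IsClosed C → Convex ℝ C →
      (∀ s, Set.MapsTo (T s) C C) →
      (∀ s, LipschitzOnWith 1 (T s) C) →
      (∀ s t, ∀ x ∈ C, T (s * t) x = T s (T t x)) →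
      (∃ c ∈ C, IsCompact (closure
        (toWeakSpace ℝ (ZeroAtInftyContinuousMap ℕ ℝ) '' Set.range (fun s => T s c)))) →
      ∃ x ∈ C, ∀ s, T s x = x) := by
  intro H
  obtain ⟨x, -, hx⟩ := H (Multiplicative ℕ) Set.univ (fun s => F^[Multiplicative.toAdd s])
    Set.univ_nonempty isClosed_univ convex_univ (fun s => Set.mapsTo_univ _ _)
    (fun s => by
      have := F_lip.iterate (Multiplicative.toAdd s)
      rw [one_pow] at this
      exact this.lipschitzOnWith)
    (fun s t x _ => by
      rw [toAdd_mul, Function.iterate_add_apply])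
    ⟨e 0, trivial, by
      have hc := weak_tend.isCompact_insert_range
      refine hc.of_isClosed_subset isClosed_closure (closure_minimal ?_ hc.isClosed)
      rintro _ ⟨_, ⟨s, rfl⟩, rfl⟩
      refine Set.mem_insert_of_mem _ ⟨Multiplicative.toAdd s, ?_⟩
      simp only [iter_e]⟩
  exact no_fix x (hx (Multiplicative.ofAdd 1))

end Pool.Agent.S04536
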