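import Pool.Statements.S04545
import Pool.Agent.H.MP_471c81_an.C

set_option autoImplicit false
open Pool Pool.MP_471c81_an

namespace Pool.Agent.S04545

theorem result :
    ∀ (X : Type) [NormedAddCommGroup X] [NormedSpace ℝ X] [CompleteSpace X]
      [TopologicalSpace.SeparableSpace X],
      Function.Surjective (NormedSpace.inclusionInDoubleDual ℝ X) →
      ∀ (Y : Submodule ℝ X), IsClosed (Y : Set X) →
      ∀ (N : Seminorm ℝ Y),
        (∃ c C : ℝ, 0 < c ∧ 0 < C ∧ ∀ y : Y, c * ‖y‖ ≤ N y ∧ N y ≤ C * ‖y‖) →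
        (∀ y : Y, y ≠ 0 → DifferentiableAt ℝ (⇑N) y) →
        ∃ M : Seminorm ℝ X,
          (∃ c C : ℝ, 0 < c ∧ 0 < C ∧ ∀ x : X, c * ‖x‖ ≤ M x ∧ M x ≤ C * ‖x‖) ∧
          (∀ x : X, x ≠ 0 → DifferentiableAt ℝ (⇑M) x) ∧
          ∀ y : Y, M (y : X) = N y := by
  intro X _ _ _ _ hrefl Y hY N ⟨c, C, hc, hC, h⟩ hd
  have h1 : TopologicalSpace.SeparableSpace (StrongDual ℝ (StrongDual ℝ X)) :=
    hrefl.denseRange.separableSpace (NormedSpace.inclusionInDoubleDual ℝ X).continuous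
  have h2 : TopologicalSpace.SeparableSpace (StrongDual ℝ X) :=
    Pool.Agent.H.MP_471c81_an.sep_of_dual
  exact Pool.Agent.H.MP_471c81_an.main hrefl Y hY N hc hC (fun y => (h y).1) (fun y => (h y).2) hd

end Pool.Agent.S04545
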