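import Pool.Statements.S04554
-- import your own Pool.Agent.* helpers here

set_option autoImplicit false
open Pool Pool.MP_483d01_an

namespace Pool.Agent.S04554

open MeasureTheory Set

def pi6 : Equiv.Perm (Fin 6) := ⟨![5, 4, 3, 1, 0, 2], ![4, 3, 5, 2, 1, 0], by decide, by decide⟩

noncomputable def Tm (v : Fin 6 → ℝ) : ℝ → ℝ := fun x : ℝ => x + ∑ j : Fin 6,
  (Set.Ico (∑ i ∈ (Finset.univ : Finset (Fin 6)).filter (fun i : Fin 6 => i < j), v i)
    ((∑ i ∈ (Finset.univ : Finset (Fin 6)).filter (fun i : Fin 6 => i < j), v i) + v j)).indicator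
  (fun _ : ℝ => (∑ i ∈ (Finset.univ : Finset (Fin 6)).filter (fun i : Fin 6 => pi6 i < pi6 j), v i) -
    ∑ i ∈ (Finset.univ : Finset (Fin 6)).filter (fun i : Fin 6 => i < j), v i) x

lemma Tm_meas (v : Fin 6 → ℝ) : Measurable (Tm v) :=
  measurable_id.add (Finset.measurable_sum _ fun _ _ => measurable_const.indicator measurableSet_Ico)

lemma Tm_eq (v : Fin 6 → ℝ) (x : ℝ) : Tm v x = x +
    ((if 0 ≤ x ∧ x < v 0 then v 1 + v 2 + v 3 + v 4 + v 5 else 0) +
    (if v 0 ≤ x ∧ x < v 0 + v 1 then v 2 + v 3 + v 4 + v 5 - v 0 else 0) +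
    (if v 0 + v 1 ≤ x ∧ x < v 0 + v 1 + v 2 then v 3 + v 4 + v 5 - (v 0 + v 1) else 0) +
    (if v 0 + v 1 + v 2 ≤ x ∧ x < v 0 + v 1 + v 2 + v 3 then v 4 - (v 0 + v 1 + v 2) else 0) +
    (if v 0 + v 1 + v 2 + v 3 ≤ x ∧ x < v 0 + v 1 + v 2 + v 3 + v 4 then
      - (v 0 + v 1 + v 2 + v 3) else 0) +
    (if v 0 + v 1 + v 2 + v 3 + v 4 ≤ x ∧ x < v 0 + v 1 + v 2 + v 3 + v 4 + v 5 then
      v 3 + v 4 - (v 0 + v 1 + v 2 + v 3 + v 4) else 0)) := by
  have p0 : pi6 0 = 5 := rfl
  have p1 : pi6 1 = 4 := rfl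
  have p2 : pi6 2 = 3 := rfl
  have p3 : pi6 3 = 1 := rfl
  have p4 : pi6 4 = 0 := rfl
  have p5 : pi6 5 = 2 := rfl
  simp only [Tm, Finset.sum_filter, Fin.sum_univ_six, p0, p1, p2, p3, p4, p5, indicator, mem_Ico]
  simp

noncomputable def AA : ℝ := √2 / 10

lemma AA_bd : 0 < AA ∧ AA < 1 / 6 := by
  unfold AA
  refine ⟨by positivity, ?_⟩
  have : √2 < 3 / 2 := by rw [Real.sqrt_lt' (by norm_num)]; norm_num
  linarith

noncomputable def va : Fin 6 → ℝ := ![AA, AA, 1 - 6 * AA, AA, AA, 2 * AA]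

noncomputable def vb : Fin 6 → ℝ := ![0, 1, 0, 0, 1, 0]

noncomputable def g0 (x : ℝ) : ℝ :=
  if x < AA then x + AA else if x < 2 * AA then x - AA else if x < 1 - 2 * AA then x + 2 * AA
  else x + 4 * AA - 1

noncomputable def h0 (y : ℝ) : ℝ :=
  if y < AA then y + AA else if y < 2 * AA then y - AA else if y < 4 * AA then y + 1 - 4 * AA
  else y - 2 * AA

lemma g0_meas : Measurable g0 := by
  unfold g0
  refine Measurable.ite measurableSet_Iio (by fun_prop) (Measurable.ite measurableSet_Iio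
    (by fun_prop) (Measurable.ite measurableSet_Iio (by fun_prop) (by fun_prop)))

lemma h0_meas : Measurable h0 := by
  unfold h0
  refine Measurable.ite measurableSet_Iio (by fun_prop) (Measurable.ite measurableSet_Iio
    (by fun_prop) (Measurable.ite measurableSet_Iio (by fun_prop) (by fun_prop)))

lemma g0_mem {x : ℝ} (h : x ∈ Ico (0 : ℝ) 1) : g0 x ∈ Ico (0 : ℝ) (0 + 1) ∧ h0 (g0 x) = x := by
  obtain ⟨a0, a1⟩ := AA_bd
  obtain ⟨h1, h2⟩ := h
  unfold g0 h0
  refine ⟨⟨?_, ?_⟩, ?_⟩ <;> split_ifs <;> linarith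

lemma h0_mem {x : ℝ} (h : x ∈ Ico (0 : ℝ) (0 + 1)) : h0 x ∈ Ico (0 : ℝ) 1 ∧ g0 (h0 x) = x := by
  obtain ⟨a0, a1⟩ := AA_bd
  obtain ⟨h1, h2⟩ := h
  unfold g0 h0
  refine ⟨⟨?_, ?_⟩, ?_⟩ <;> split_ifs <;> linarith

lemma Ta {x : ℝ} (h : x ∈ Ico (0 : ℝ) 1) : Tm va x ∈ Ico (0 : ℝ) 1 ∧
    (g0 (Tm va x) = g0 x + 2 * AA ∨ g0 (Tm va x) + 1 = g0 x + 2 * AA) := by
  obtain ⟨a0, a1⟩ := AA_bd
  obtain ⟨h1, h2⟩ := h
  have key : ∀ c : ℝ, Tm va x = x + c → (0 ≤ x + c ∧ x + c < 1) →
      (g0 (x + c) = g0 x + 2 * AA ∨ g0 (x + c) + 1 = g0 x + 2 * AA) →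
      Tm va x ∈ Ico (0 : ℝ) 1 ∧
        (g0 (Tm va x) = g0 x + 2 * AA ∨ g0 (Tm va x) + 1 = g0 x + 2 * AA) :=
    fun c e e1 e2 => by rw [e]; exact ⟨e1, e2⟩
  have e0 : va 0 = AA := rfl
  have e1 : va 1 = AA := rfl
  have e2 : va 2 = 1 - 6 * AA := rfl
  have e3 : va 3 = AA := rfl
  have e4 : va 4 = AA := rfl
  have e5 : va 5 = 2 * AA := rfl
  have hT := Tm_eq va x
  rw [e0, e1, e2, e3, e4, e5] at hT
  rcases lt_or_ge x AA with c1 | c1
  · refine key (1 - AA) ?_ ⟨by linarith, by linarith⟩ (Or.inl ?_)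
    · rw [hT, if_pos ⟨h1, c1⟩]; repeat rw [if_neg (fun h => by linarith [h.1, h.2])]
      ring
    · unfold g0; split_ifs <;> linarith
  rcases lt_or_ge x (2 * AA) with c2 | c2
  · refine key (1 - 3 * AA) ?_ ⟨by linarith, by linarith⟩ (Or.inl ?_)
    · rw [hT, if_neg (fun h => by linarith [h.1, h.2]), if_pos ⟨by linarith, by linarith⟩]
      repeat rw [if_neg (fun h => by linarith [h.1, h.2])]
      ring
    · unfold g0; split_ifs <;> linarith
  rcases lt_or_ge x (1 - 4 * AA) with c3 | c3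
  · refine key (2 * AA) ?_ ⟨by linarith, by linarith⟩ (Or.inl ?_)
    · rw [hT, if_neg (fun h => by linarith [h.1, h.2]), if_neg (fun h => by linarith [h.1, h.2]),
        if_pos ⟨by linarith, by linarith⟩]
      repeat rw [if_neg (fun h => by linarith [h.1, h.2])]
      ring
    · unfold g0; split_ifs <;> linarith
  rcases lt_or_ge x (1 - 3 * AA) with c4 | c4
  · refine key (5 * AA - 1) ?_ ⟨by linarith, by linarith⟩ (Or.inr ?_)
    · rw [hT, if_neg (fun h => by linarith [h.1, h.2]), if_neg (fun h => by linarith [h.1, h.2]),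
        if_neg (fun h => by linarith [h.1, h.2]), if_pos ⟨by linarith, by linarith⟩]
      repeat rw [if_neg (fun h => by linarith [h.1, h.2])]
      ring
    · unfold g0; split_ifs <;> linarith
  rcases lt_or_ge x (1 - 2 * AA) with c5 | c5
  · refine key (3 * AA - 1) ?_ ⟨by linarith, by linarith⟩ (Or.inr ?_)
    · rw [hT, if_neg (fun h => by linarith [h.1, h.2]), if_neg (fun h => by linarith [h.1, h.2]),
        if_neg (fun h => by linarith [h.1, h.2]), if_neg (fun h => by linarith [h.1, h.2]),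
        if_pos ⟨by linarith, by linarith⟩, if_neg (fun h => by linarith [h.1, h.2])]
      ring
    · unfold g0; split_ifs <;> linarith
  · refine key (4 * AA - 1) ?_ ⟨by linarith, by linarith⟩ (Or.inl ?_)
    · rw [hT, if_neg (fun h => by linarith [h.1, h.2]), if_neg (fun h => by linarith [h.1, h.2]),
        if_neg (fun h => by linarith [h.1, h.2]), if_neg (fun h => by linarith [h.1, h.2]),
        if_neg (fun h => by linarith [h.1, h.2]), if_pos ⟨by linarith, by linarith⟩]
      ring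
    · unfold g0; split_ifs <;> linarith

noncomputable def gg (x : ℝ) : AddCircle (1 : ℝ) := (g0 x : ℝ)

noncomputable def hh (z : AddCircle (1 : ℝ)) : ℝ := h0 (AddCircle.equivIco 1 0 z)

noncomputable def al : AddCircle (1 : ℝ) := ((2 * AA : ℝ) : AddCircle (1 : ℝ))

lemma gg_meas : Measurable gg := AddCircle.measurable_mk'.comp g0_meas

lemma hh_meas : Measurable hh :=
  h0_meas.comp (measurable_subtype_coe.comp (AddCircle.measurableEquivIco 1 0).measurable)

lemma hh_mem (z : AddCircle (1 : ℝ)) : hh z ∈ Ico (0 : ℝ) 1 :=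
  (h0_mem (AddCircle.equivIco 1 0 z).2).1

lemma gg_hh (z : AddCircle (1 : ℝ)) : gg (hh z) = z := by
  unfold gg hh
  rw [(h0_mem (AddCircle.equivIco 1 0 z).2).2]
  exact (AddCircle.equivIco 1 0).symm_apply_apply z

lemma hh_gg {x : ℝ} (h : x ∈ Ico (0 : ℝ) 1) : hh (gg x) = x := by
  unfold gg hh
  rw [AddCircle.equivIco_coe_eq (g0_mem h).1]
  exact (g0_mem h).2

lemma gg_T {x : ℝ} (h : x ∈ Ico (0 : ℝ) 1) : gg (Tm va x) = al + gg x := by
  unfold gg al
  rw [← AddCircle.coe_add, add_comm]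
  rcases (Ta h).2 with e | e
  · rw [e]
  · rw [← e, AddCircle.coe_add_period]

lemma T_hh (z : AddCircle (1 : ℝ)) : Tm va (hh z) = hh (al + z) := by
  rw [← hh_gg (Ta (hh_mem z)).1, gg_T (hh_mem z), gg_hh]

lemma circ (ν : Measure (AddCircle (1 : ℝ))) [IsProbabilityMeasure ν]
    (h : ν.map (fun z => al + z) = ν) : ν = AddCircle.haarAddCircle := by
  have hd : DenseRange (· • al : ℤ → AddCircle (1 : ℝ)) := by
    refine AddCircle.denseRange_zsmul_coe_iff.2 ?_
    have : 2 * AA / 1 = √2 / (5 : ℕ) := by unfold AA; push_cast; ring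
    rw [this]
    exact irrational_sqrt_two.div_natCast (by norm_num)
  have m1 : MeasurePreserving (fun z => al + z) ν ν := ⟨by fun_prop, h⟩
  have m2 : MeasurePreserving (fun z => -al + z) ν ν := by
    refine ⟨by fun_prop, ?_⟩
    conv_lhs => rw [← h]
    rw [Measure.map_map (by fun_prop) (by fun_prop)]
    simp [Function.comp_def]
  have m3 : ∀ n : ℤ, MeasurePreserving (fun z => n • al + z) ν ν := by
    intro n
    induction n using Int.induction_on with
    | zero => simp only [zero_smul, zero_add]; exact MeasurePreserving.id ν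
    | succ n ih =>
      convert m1.comp ih using 1
      funext z; simp only [Function.comp, add_smul, one_smul]; abel
    | pred n ih =>
      convert m2.comp ih using 1
      funext z; simp only [Function.comp, sub_smul, one_smul]; abel
  have inv : ν.IsAddLeftInvariant := by
    constructor
    intro w
    refine ext_of_forall_integral_eq_of_IsFiniteMeasure fun f => ?_
    rw [integral_map (by fun_prop) f.continuous.aestronglyMeasurable]
    have hc : Continuous fun w : AddCircle (1 : ℝ) => ∫ z, f (w + z) ∂ν := by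
      have := continuous_parametric_integral_of_continuous (μ := ν)
        (f := fun w z : AddCircle (1 : ℝ) => f (w + z)) (by fun_prop) isCompact_univ
      simpa using this
    refine hd.induction_on w (isClosed_eq hc continuous_const) fun n => ?_
    rw [← integral_map (φ := fun z => n • al + z) (by fun_prop) f.continuous.aestronglyMeasurable,
      (m3 n).map_eq]
  have e := Measure.isAddInvariant_eq_smul_of_compactSpace ν AddCircle.haarAddCircle
  have e2 := congrArg (fun m : Measure (AddCircle (1 : ℝ)) => m univ) e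
  simp only [measure_univ, Measure.smul_apply, ENNReal.smul_def, smul_eq_mul, mul_one] at e2
  rw [e, ENNReal.smul_def, ← e2, one_smul]

lemma sum_va : ∑ i, va i = 1 := by
  simp only [Fin.sum_univ_six, va]
  simp
  ring

lemma UE_a : ∃! μ : Measure ℝ, IsProbabilityMeasure μ ∧ μ (Ico (0 : ℝ) (∑ i, va i))ᶜ = 0 ∧
    μ.map (Tm va) = μ := by
  rw [sum_va]
  refine ⟨AddCircle.haarAddCircle.map hh, ⟨Measure.isProbabilityMeasure_map hh_meas.aemeasurable,
    ?_, ?_⟩, ?_⟩
  · rw [Measure.map_apply hh_meas measurableSet_Ico.compl]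
    have : hh ⁻¹' (Ico (0 : ℝ) 1)ᶜ = ∅ := by
      ext z; simp only [mem_preimage, mem_compl_iff, hh_mem z, not_true, mem_empty_iff_false]
    rw [this, measure_empty]
  · rw [Measure.map_map (Tm_meas _) hh_meas]
    have : Tm va ∘ hh = hh ∘ fun z => al + z := funext T_hh
    rw [this, ← Measure.map_map hh_meas (by fun_prop), map_add_left_eq_self]
  · rintro μ ⟨h1, h2, h3⟩
    have hae : ∀ᵐ x ∂μ, x ∈ Ico (0 : ℝ) 1 := h2
    have := Measure.isProbabilityMeasure_map (μ := μ) gg_meas.aemeasurable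
    rw [← circ (μ.map gg), Measure.map_map hh_meas gg_meas,
      Measure.map_congr (f := hh ∘ gg) (g := id) (hae.mono fun x hx => hh_gg hx), Measure.map_id]
    rw [Measure.map_map (by fun_prop) gg_meas]
    conv_rhs => rw [← h3]
    rw [Measure.map_map gg_meas (Tm_meas _)]
    exact Measure.map_congr (hae.mono fun x hx => (gg_T hx).symm)

lemma per {t s : ℝ} (h0 : 0 ≤ s) (h1 : s < t) :
    Tm (va + t • vb) (AA + s) = 1 - 2 * AA + t + s ∧
    Tm (va + t • vb) (1 - 2 * AA + t + s) = AA + s := by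
  obtain ⟨a0, a1⟩ := AA_bd
  have e0 : (va + t • vb) 0 = AA := by simp [va, vb]
  have e1 : (va + t • vb) 1 = AA + t := by simp [va, vb]
  have e2 : (va + t • vb) 2 = 1 - 6 * AA := by simp [va, vb]
  have e3 : (va + t • vb) 3 = AA := by simp [va, vb]
  have e4 : (va + t • vb) 4 = AA + t := by simp [va, vb]
  have e5 : (va + t • vb) 5 = 2 * AA := by simp [va, vb]
  constructor
  · rw [Tm_eq, e0, e1, e2, e3, e4, e5, if_neg (fun h => by linarith [h.1, h.2]),
      if_pos ⟨by linarith, by linarith⟩]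
    repeat rw [if_neg (fun h => by linarith [h.1, h.2])]
    ring
  · rw [Tm_eq, e0, e1, e2, e3, e4, e5, if_neg (fun h => by linarith [h.1, h.2]),
      if_neg (fun h => by linarith [h.1, h.2]), if_neg (fun h => by linarith [h.1, h.2]),
      if_neg (fun h => by linarith [h.1, h.2]), if_pos ⟨by linarith, by linarith⟩,
      if_neg (fun h => by linarith [h.1, h.2])]
    ring

noncomputable def two (x y : ℝ) : Measure ℝ :=
  (2 : ENNReal)⁻¹ • Measure.dirac x + (2 : ENNReal)⁻¹ • Measure.dirac y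

lemma two_ok {t s : ℝ} (h0 : 0 ≤ s) (h1 : s < t) :
    IsProbabilityMeasure (two (AA + s) (1 - 2 * AA + t + s)) ∧
    two (AA + s) (1 - 2 * AA + t + s) (Ico (0 : ℝ) (∑ i, (va + t • vb) i))ᶜ = 0 ∧
    (two (AA + s) (1 - 2 * AA + t + s)).map (Tm (va + t • vb)) =
      two (AA + s) (1 - 2 * AA + t + s) := by
  obtain ⟨a0, a1⟩ := AA_bd
  refine ⟨⟨by simp [two, ENNReal.inv_two_add_inv_two]⟩, ?_, ?_⟩
  · have e : ∑ i, (va + t • vb) i = 1 + 2 * t := by
      simp only [Pi.add_apply, Finset.sum_add_distrib, sum_va]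
      simp [Fin.sum_univ_six, vb]
      ring
    have m1 : AA + s ∈ Ico (0 : ℝ) (1 + 2 * t) := ⟨by linarith, by linarith⟩
    have m2 : 1 - 2 * AA + t + s ∈ Ico (0 : ℝ) (1 + 2 * t) := ⟨by linarith, by linarith⟩
    rw [e, two, Measure.add_apply, Measure.smul_apply, Measure.smul_apply, Measure.dirac_apply,
      Measure.dirac_apply, indicator_of_notMem (by simpa using m1),
      indicator_of_notMem (by simpa using m2)]
    simp
  · rw [two, Measure.map_add _ _ (Tm_meas _), Measure.map_smul, Measure.map_smul,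
      Measure.map_dirac' (Tm_meas _), Measure.map_dirac' (Tm_meas _), (per h0 h1).1, (per h0 h1).2,
      add_comm]

lemma not_UE {t : ℝ} (ht : 0 < t) : ¬ ∃! μ : Measure ℝ, IsProbabilityMeasure μ ∧
    μ (Ico (0 : ℝ) (∑ i, (va + t • vb) i))ᶜ = 0 ∧ μ.map (Tm (va + t • vb)) = μ := by
  intro h
  obtain ⟨a0, a1⟩ := AA_bd
  have e := h.unique (two_ok le_rfl ht) (two_ok (s := t / 2) (by linarith) (by linarith))
  have e2 := congrArg (fun m : Measure ℝ => m {AA}) e
  have n1 : AA + t / 2 ∉ ({AA} : Set ℝ) := fun h => by rw [mem_singleton_iff] at h; linarith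
  have n2 : 1 - 2 * AA + t + t / 2 ∉ ({AA} : Set ℝ) := fun h => by
    rw [mem_singleton_iff] at h; linarith
  simp only [two, Measure.add_apply, Measure.smul_apply, Measure.dirac_apply,
    indicator_of_notMem n1, indicator_of_notMem n2] at e2
  simp at e2

theorem result :
    ¬ (∀ (d : ℕ) (π : Equiv.Perm (Fin d)) (UE : (Fin d → ℝ) → Prop),
    (∀ v : Fin d → ℝ, UE v ↔ ∃! μ : MeasureTheory.Measure ℝ,
        MeasureTheory.IsProbabilityMeasure μ ∧
        μ ((Set.Ico (0 : ℝ) (∑ i : Fin d, v i))ᶜ) = 0 ∧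
        MeasureTheory.Measure.map (fun x : ℝ => x + ∑ j : Fin d,
          (Set.Ico (∑ i ∈ (Finset.univ : Finset (Fin d)).filter (fun i : Fin d => i < j), v i)
             ((∑ i ∈ (Finset.univ : Finset (Fin d)).filter (fun i : Fin d => i < j), v i) + v j)).indicator
            (fun _ : ℝ => (∑ i ∈ (Finset.univ : Finset (Fin d)).filter (fun i : Fin d => π i < π j), v i) -
                      ∑ i ∈ (Finset.univ : Finset (Fin d)).filter (fun i : Fin d => i < j), v i) x) μ = μ) →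
    ∀ a b : Fin d → ℝ, (∀ i, 0 < a i) → UE a →
      ∃ ε : ℝ, 0 < ε ∧
        ∀ᵐ t : ℝ ∂(MeasureTheory.volume.restrict (Set.Ioo (-ε) ε)), UE (a + t • b)) := by
  intro h
  obtain ⟨a0, a1⟩ := AA_bd
  obtain ⟨ε, hε, hae⟩ := h 6 pi6 _ (fun _ => Iff.rfl) va vb (fun i => by
    fin_cases i <;> simp [va] <;> linarith) UE_a
  have h1 := (ae_restrict_of_ae_restrict_of_subset
    (Ioo_subset_Ioo_left (show -ε ≤ 0 by linarith)) hae).and
    (ae_restrict_mem (μ := volume) (measurableSet_Ioo (a := 0) (b := ε)))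
  have : (ae (volume.restrict (Ioo (0 : ℝ) ε))).NeBot := ae_restrict_neBot.2 (by simp [hε])
  obtain ⟨t, h2, h3⟩ := h1.exists
  exact not_UE h3.1 h2

end Pool.Agent.S04554
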