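import Pool.Statements.S04558
import Pool.Agent.H.MP_48d627_an.E

set_option autoImplicit false
open Pool Pool.MP_48d627_an Pool.Agent.H.MP_48d627_an Metric Set

namespace Pool.Agent.S04558

theorem result :
    ¬ (∀ φ : ℂ → ℂ, DifferentiableOn ℂ φ (Metric.ball (0:ℂ) 1) →
      Set.MapsTo φ (Metric.ball (0:ℂ) 1) (Metric.ball (0:ℂ) 1) →
      (∀ z ∈ Metric.ball (0:ℂ) 1, φ z ≠ z) →
      ∀ H : Set (ℂ → ℂ),
        (∀ f : ℂ → ℂ, f ∈ H ↔
          (DifferentiableOn ℂ f (Metric.ball (0:ℂ) 1) ∧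
           (∀ z : ℂ, z ∉ Metric.ball (0:ℂ) 1 → f z = 0) ∧
           ∃ M : ℝ, ∀ r : ℝ, 0 ≤ r → r < 1 →
             intervalIntegral
               (fun θ : ℝ => ‖f ((r:ℂ) * Complex.exp ((θ:ℂ) * Complex.I))‖ ^ 2)
               0 (2 * Real.pi) MeasureTheory.volume ≤ M)) →
      ∀ μ : ℂ,
        (∀ g ∈ H, ∃! f : ℂ → ℂ, f ∈ H ∧
            (Metric.ball (0:ℂ) 1).indicator (f ∘ φ) - μ • f = g) ↔
        ((∃ n : ℕ, ∃ e : Fin n → ℂ → ℂ, ∀ f ∈ H,
            (Metric.ball (0:ℂ) 1).indicator (f ∘ φ) = μ • f →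
            ∃ c : Fin n → ℂ, f = ∑ i, c i • e i) ∧
         (∃ n : ℕ, ∃ e : Fin n → ℂ → ℂ, ∀ g ∈ H, ∃ c : Fin n → ℂ, ∃ f ∈ H,
            g = (Metric.ball (0:ℂ) 1).indicator (f ∘ φ) - μ • f + ∑ i, c i • e i))) := by
  intro h
  have m : ∀ z ∈ ball (0 : ℂ) 1, ps (sg z + 1) ∈ ball (0 : ℂ) 1 := fun z hz =>
    ps_mem (om_one (sg_mem hz))
  have mj : ∀ f : ℂ → ℂ, DifferentiableOn ℂ f (ball 0 1) → Bd f → Maj Om fun w => f (ps w) :=
    fun f h1 h2 => (hm1 h1 h2).comp ps_diff fun _ => ps_mem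
  have ev : ∀ F : ℂ → ℂ, ∀ z ∈ ball (0 : ℂ) 1, (ball 0 1).indicator
      (((ball 0 1).indicator fun z => F (sg z)) ∘ fun z => ps (sg z + 1)) z = F (sg z + 1) :=
    fun F z hz => by
      rw [indicator_of_mem hz, Function.comp_apply, indicator_of_mem (m z hz),
        sg_ps (om_one (sg_mem hz))]
  have h1 := (h (fun z => ps (sg z + 1))
    (ps_diff.comp (sg_diff.add_const 1) fun z hz => om_one (sg_mem hz)) m
    (fun z hz e => by
      have := congrArg sg e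
      rw [sg_ps (om_one (sg_mem hz))] at this
      simp at this)
    {f | DifferentiableOn ℂ f (ball 0 1) ∧ (∀ z : ℂ, z ∉ ball (0 : ℂ) 1 → f z = 0) ∧ Bd f}
    (fun _ => Iff.rfl) (Complex.exp (-2))).2
    ⟨⟨1, fun _ => (ball 0 1).indicator fun z => Complex.exp (-2 * sg z), fun f hf he => ?_⟩,
      0, Fin.elim0, fun g hg => ?_⟩
  · have z0 : (0 : ℂ → ℂ) ∈ {f : ℂ → ℂ | DifferentiableOn ℂ f (ball 0 1) ∧
        (∀ z : ℂ, z ∉ ball (0 : ℂ) 1 → f z = 0) ∧ Bd f} :=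
      ⟨differentiableOn_const _, fun _ _ => rfl, 0, fun _ _ _ => by simp⟩
    have := (h1 0 z0).unique ⟨back maj0, funext fun z => ?_⟩ ⟨z0, by simp⟩
    · have h2 := congrFun this 0
      rw [indicator_of_mem (mem_ball_self one_pos)] at h2
      exact Complex.exp_ne_zero _ h2
    · by_cases hz : z ∈ ball (0 : ℂ) 1
      · rw [Pi.sub_apply, ev (fun w => Complex.exp (-2 * w)) z hz, Pi.smul_apply,
          indicator_of_mem hz, smul_eq_mul, ← Complex.exp_add, Pi.zero_apply, sub_eq_zero]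
        congr 1
        ring
      · simp [indicator_of_notMem hz]
  · obtain ⟨a, ha⟩ := kern (mj f hf.1 hf.2.2) fun w hw => by
      have := congrFun he (ps w)
      rwa [indicator_of_mem (ps_mem hw), Function.comp_apply, sg_ps hw] at this
    refine ⟨fun _ => a, funext fun z => ?_⟩
    by_cases hz : z ∈ ball (0 : ℂ) 1
    · have := ha _ (sg_mem hz)
      rw [ps_sg hz] at this
      simp [indicator_of_mem hz, this]
    · simp [indicator_of_notMem hz, hf.2.1 z hz]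
  · obtain ⟨F, h1, h2⟩ := surj (mj g hg.1 hg.2.2)
    refine ⟨Fin.elim0, _, back h1, funext fun z => ?_⟩
    by_cases hz : z ∈ ball (0 : ℂ) 1
    · have := h2 _ (sg_mem hz)
      rw [ps_sg hz] at this
      rw [Finset.univ_eq_empty, Finset.sum_empty, add_zero, Pi.sub_apply, ev F z hz, Pi.smul_apply,
        indicator_of_mem hz, smul_eq_mul, this]
    · simp [indicator_of_notMem hz, hg.2.1 z hz]

end Pool.Agent.S04558
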