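import Pool.Statements.S04561
import Pool.Agent.H.MP_496271_an.G

set_option autoImplicit false
open Pool Pool.MP_496271_an

namespace Pool.Agent.S04561

theorem result :
    ∀ Λ : ℕ → ((Submodule.span ℂ {f : BoundedContinuousFunction (Metric.ball (0:ℂ) 1) ℂ |
        ∃ F : ℂ → ℂ, DifferentiableOn ℂ F (Metric.ball (0:ℂ) 1) ∧ ∀ z : Metric.ball (0:ℂ) 1, f z = F (z : ℂ)}) →L[ℂ] ℂ),
      (∀ φ : Submodule.span ℂ {f : BoundedContinuousFunction (Metric.ball (0:ℂ) 1) ℂ |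
          ∃ F : ℂ → ℂ, DifferentiableOn ℂ F (Metric.ball (0:ℂ) 1) ∧ ∀ z : Metric.ball (0:ℂ) 1, f z = F (z : ℂ)},
        (∃ F : ℂ → ℂ, (∀ z : Metric.ball (0:ℂ) 1,
            (φ : BoundedContinuousFunction (Metric.ball (0:ℂ) 1) ℂ) z = F (z : ℂ)) ∧
          ∀ᵐ θ : ℝ, ∃ w : ℂ, ‖w‖ = 1 ∧
            Filter.Tendsto (fun r : ℝ => F ((r : ℂ) * Complex.exp ((θ : ℂ) * Complex.I)))
              (nhdsWithin (1 : ℝ) (Set.Iio 1)) (nhds w)) →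
        ∃ C : ℝ, ∀ n : ℕ, ‖Λ n φ‖ ≤ C) →
      ∃ C : ℝ, ∀ n : ℕ, ‖Λ n‖ ≤ C := by
  exact H.MP_496271_an.final

end Pool.Agent.S04561
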