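import Pool.Statements.S04563
-- import your own Pool.Agent.* helpers here

set_option autoImplicit false
open Pool Pool.MP_498e64_an

namespace Pool.Agent.S04563

lemma local_inv {M A : Type} [Monoid M] [Fintype A] (S : Finset M) (μ : (↥S → A) → A)
    (h : Function.Injective (fun (x : M → A) (m : M) => μ (fun s => x (s.1 * m)))) :
    ∃ T : Finset M, ∀ x y : M → A,
      (∀ t ∈ T, μ (fun s => x (s.1 * t)) = μ (fun s => y (s.1 * t))) → x 1 = y 1 := by
  classical
  let _ : TopologicalSpace A := ⊥
  have : DiscreteTopology A := ⟨rfl⟩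
  have hc : ∀ t : M, Continuous fun x : M → A => μ (fun s => x (s.1 * t)) := fun t =>
    continuous_of_discreteTopology.comp (continuous_pi fun s => continuous_apply _)
  have hK : IsCompact {p : (M → A) × (M → A) | p.1 1 ≠ p.2 1} := by
    refine IsClosed.isCompact ?_
    exact (isClosed_discrete {q : A × A | q.1 ≠ q.2}).preimage
      (f := fun p : (M → A) × (M → A) => (p.1 1, p.2 1)) (by fun_prop)
  obtain ⟨T, hT⟩ := hK.elim_finite_subfamily_closed
    (fun t : M => {p : (M → A) × (M → A) | μ (fun s => p.1 (s.1 * t)) = μ (fun s => p.2 (s.1 * t))})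
    (fun t => isClosed_eq ((hc t).comp continuous_fst) ((hc t).comp continuous_snd)) (by
      rw [← Set.disjoint_iff_inter_eq_empty, Set.disjoint_left]
      intro p hp hq
      rw [Set.mem_iInter] at hq
      exact hp (congrFun (h (funext hq)) 1))
  refine ⟨T, fun x y hxy => ?_⟩
  by_contra hne
  rw [← Set.disjoint_iff_inter_eq_empty] at hT
  exact Set.disjoint_left.mp hT (show (x, y) ∈ _ from hne) (Set.mem_iInter₂.mpr hxy)

lemma surj_of_finite {M A : Type} [Monoid M] [Fintype A] (S : Finset M) (μ : (↥S → A) → A)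
    (z : M → A) (h : ∀ F : Finset M, ∃ x : M → A, ∀ t ∈ F, μ (fun s => x (s.1 * t)) = z t) :
    ∃ x : M → A, ∀ t, μ (fun s => x (s.1 * t)) = z t := by
  classical
  let _ : TopologicalSpace A := ⊥
  have : DiscreteTopology A := ⟨rfl⟩
  have hc : ∀ t : M, Continuous fun x : M → A => μ (fun s => x (s.1 * t)) := fun t =>
    continuous_of_discreteTopology.comp (continuous_pi fun s => continuous_apply _)
  by_contra hn
  obtain ⟨T, hT⟩ := (isCompact_univ (X := M → A)).elim_finite_subfamily_closed
    (fun t : M => {x : M → A | μ (fun s => x (s.1 * t)) = z t})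
    (fun t => isClosed_eq (hc t) continuous_const) (by
      rw [← Set.disjoint_iff_inter_eq_empty, Set.disjoint_left]
      intro p _ hq
      exact hn ⟨p, Set.mem_iInter.mp hq⟩)
  obtain ⟨x, hx⟩ := h T
  rw [← Set.disjoint_iff_inter_eq_empty] at hT
  exact Set.disjoint_left.mp hT (Set.mem_univ x) (Set.mem_iInter₂.mpr hx)

theorem result :
    ∀ (M : Type) [Monoid M],
      (∀ N : Submonoid M, N.FG →
        ∀ (A : Type) [Fintype A] (S : Finset N) (μ : (↥S → A) → A),
          Function.Injective (fun (x : N → A) (m : N) => μ (fun s => x (s.1 * m))) →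
          Function.Surjective (fun (x : N → A) (m : N) => μ (fun s => x (s.1 * m)))) →
      ∀ (A : Type) [Fintype A] (S : Finset M) (μ : (↥S → A) → A),
        Function.Injective (fun (x : M → A) (m : M) => μ (fun s => x (s.1 * m))) →
        Function.Surjective (fun (x : M → A) (m : M) => μ (fun s => x (s.1 * m))) := by
  intro M _ hloc A _ S μ hinj z
  classical
  obtain ⟨T, hT⟩ := local_inv S μ hinj
  suffices h : ∃ x : M → A, ∀ t, μ (fun s => x (s.1 * t)) = z t by
    obtain ⟨x, hx⟩ := h
    exact ⟨x, funext hx⟩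
  refine surj_of_finite S μ z fun F => ?_
  let N : Submonoid M := Submonoid.closure ((S ∪ T ∪ F : Finset M) : Set M)
  have hS : ∀ s ∈ S, s ∈ N := fun s hs => Submonoid.subset_closure (by simp [hs])
  have hTN : ∀ s ∈ T, s ∈ N := fun s hs => Submonoid.subset_closure (by simp [hs])
  have hF : ∀ s ∈ F, s ∈ N := fun s hs => Submonoid.subset_closure (by simp [hs])
  let S' : Finset N := S.subtype (· ∈ N)
  let ι : S → S' := fun s => ⟨⟨s.1, hS s.1 s.2⟩, Finset.mem_subtype.mpr s.2⟩
  let μ' : (↥S' → A) → A := fun u => μ fun s => u (ι s)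
  let ext : (N → A) → M → A := fun x m => if h : m ∈ N then x ⟨m, h⟩ else z m
  have hext : ∀ (x : N → A) (m : N), ext x m = x m := fun x m => dif_pos m.2
  have key : ∀ (x : N → A) (m : N),
      μ (fun s => ext x (s.1 * m)) = μ' (fun s => x (s.1 * m)) := by
    intro x m
    simp only [μ']
    congr 1
    funext s
    exact hext x ((ι s).1 * m)
  have hinj' : Function.Injective (fun (x : N → A) (m : N) => μ' (fun s => x (s.1 * m))) := by
    intro x y hxy
    funext m
    have := hT (fun u => ext x (u * m)) (fun u => ext y (u * m)) (fun t ht => by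
      have h1 := congrFun hxy (⟨t, hTN t ht⟩ * m)
      simp only [← key] at h1
      simpa [mul_assoc] using h1)
    simpa [hext] using this
  obtain ⟨x, hx⟩ := hloc N ⟨S ∪ T ∪ F, rfl⟩ A S' μ' hinj' (fun m => z m)
  refine ⟨ext x, fun t ht => ?_⟩
  have := congrFun hx ⟨t, hF t ht⟩
  simp only [← key] at this
  exact this

end Pool.Agent.S04563
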