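import Pool.Statements.S04566
import Pool.Agent.H.MP_4998f1_an.A

set_option autoImplicit false
open Pool Pool.MP_4998f1_an

namespace Pool.Agent.S04566

theorem result :
    ¬ (∀ (X : Type) [NormedAddCommGroup X] [NormedSpace ℂ X] [CompleteSpace X]
    (A : Subalgebra ℂ (X →L[ℂ] X)) (U : (X →L[ℂ] X)ˣ)
    (S : Set (WeakDual.characterSpace ℂ A)) (P : Set (WeakDual.characterSpace ℂ A)),
    IsClosed (A : Set (X →L[ℂ] X)) →
    (∀ a ∈ A, ∀ b ∈ A, a * b = b * a) →
    (∀ a ∈ A, ‖a * a‖ = ‖a‖ ^ 2) →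
    (∀ a ∈ A, U.val * a * U.inv ∈ A) →
    (∀ a ∈ A, U.inv * a * U.val ∈ A) →
    S = ⋂₀ {K : Set (WeakDual.characterSpace ℂ A) | IsClosed K ∧
          ∀ a : A, ∃ χ ∈ K, ∀ ψ : WeakDual.characterSpace ℂ A, ‖ψ a‖ ≤ ‖χ a‖} →
    P = {χ : WeakDual.characterSpace ℂ A | ∃ n : ℕ, 0 < n ∧
          ∀ (a : X →L[ℂ] X) (ha : a ∈ A) (b : X →L[ℂ] X) (hb : b ∈ A),
            b = (U ^ n).val * a * (U ^ n).inv → χ (⟨b, hb⟩ : A) = χ (⟨a, ha⟩ : A)} →
    IsMeagre {x : S | x.val ∈ P} →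
    spectrum ℂ U.val ⊆ Metric.sphere (0 : ℂ) 1 →
    (∀ (a : X →L[ℂ] X) (ha : a ∈ A), IsUnit a → IsUnit (⟨a, ha⟩ : A)) →
    ∀ a ∈ A, ∀ μ : ℂ,
      (μ ∈ spectrum ℂ (a * U.val) ↔
        ¬ ∀ c ∈ A, ∃! b, b ∈ A ∧ c = μ • b - a * (U.val * b * U.inv))) := by
  intro h
  open Pool.Agent.H.MP_4998f1_an in
  have k := h X A U _ _ A_closed ?_ ?_ ?_ ?_ rfl rfl meagre specU ?_ _ (ml_mem hol_a) (-1)
  · refine absurd (k.2 fun h1 => ?_) (spectrum.notMem_iff.2 ?_)
    · obtain ⟨b, ⟨hb, h2⟩, -⟩ := h1 1 A.one_mem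
      rw [hb.2, conj1] at h2
      have h3 := congrArg (fun T : X →L[ℂ] X => T 1 (Circle.exp Real.pi, ⟨0, by norm_num, by norm_num⟩)) h2
      simp [Ex, Z, wp, wm] at h3
    · have := unit1.neg
      convert this using 1
      simp only [map_neg, map_one, neg_add_rev]
      abel
  · intro a ha b hb
    rw [ha.2, hb.2]
    ext g x
    simp [mul_left_comm]
  · intro a ha
    have e : a * a = ml (a 1 * a 1) := by
      conv_lhs => rw [ha.2]
      ext g x; simp [mul_assoc]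
    rw [e, norm_ml]
    conv_rhs => rw [ha.2, norm_ml, sq, ← CStarRing.norm_star_mul_self]
    apply le_antisymm <;> rw [BoundedContinuousFunction.norm_le (norm_nonneg _)] <;> intro x
    · exact le_of_eq_of_le (by simp) ((star (a 1) * a 1).norm_coe_le_norm x)
    · exact le_of_eq_of_le (by simp) ((a 1 * a 1).norm_coe_le_norm x)
  · intro a ha
    rw [ha.2, conj1]
    exact ml_mem (ha.1.rot _ fun t ht => by rw [w_eq, max_eq_right (by linarith)])
  · intro a ha
    rw [ha.2, conj2]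
    exact ml_mem (ha.1.rot _ fun t ht => by
      rw [ContinuousMap.neg_apply, w_eq, max_eq_right (by linarith), neg_zero])
  · rintro a ha ⟨u, rfl⟩
    have e : u.val 1 * u.inv 1 = 1 := by
      have h1 : u.val (u.inv 1) = 1 := by
        change (u.val * u.inv) 1 = 1
        rw [u.val_inv]; rfl
      rw [ha.2] at h1
      exact h1
    have e' : ∀ x, u.val 1 x * u.inv 1 x = 1 := fun x => congrArg (fun f : X => f x) e
    have hg : Hol (u.inv 1) := (ha.1.inv fun s _ => left_ne_zero_of_mul_eq_one (e' _)).congr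
      fun s _ => eq_inv_of_mul_eq_one_right (e' _)
    refine ⟨⟨⟨_, ha⟩, ⟨_, ml_mem hg⟩, Subtype.ext ?_, Subtype.ext ?_⟩, rfl⟩
    · change u.val * ml (u.inv 1) = 1
      rw [ha.2]
      ext g x
      simp only [ContinuousLinearMap.mul_apply, ml_apply, ← mul_assoc, e, one_mul,
        ContinuousLinearMap.one_apply]
    · change ml (u.inv 1) * u.val = 1
      conv_lhs => rw [ha.2]
      ext g x
      simp only [ContinuousLinearMap.mul_apply, ml_apply, ← mul_assoc, mul_comm (u.inv 1) (u.val 1), e,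
        one_mul, ContinuousLinearMap.one_apply]

end Pool.Agent.S04566
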