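import Pool.Statements.S04585
import Pool.Agent.H.MP_4a5259_an.Main

set_option autoImplicit false
open MeasureTheory Filter Topology
open Pool Pool.MP_4a5259_an Pool.Agent.H.MP_4a5259_an

namespace Pool.Agent.S04585

theorem result :
    ∃ (X : Type) (_ : NormedAddCommGroup X) (_ : NormedSpace ℝ X) (_ : CompleteSpace X),
      Function.Surjective (NormedSpace.inclusionInDoubleDual ℝ X) ∧
      ¬ FiniteDimensional ℝ X ∧
      ∀ f : ℕ → ℝ → X,
        (∀ n, StronglyMeasurable (f n)) →
        (∃ C : NNReal, ∀ n, eLpNorm (f n) 1 (volume.restrict (Set.Icc (0 : ℝ) 1)) ≤ (C : ENNReal)) →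
        (∀ φ : StrongDual ℝ X,
          TendstoInMeasure (volume.restrict (Set.Icc (0 : ℝ) 1))
            (fun n t => φ (f n t)) atTop (fun _ => (0 : ℝ))) →
        ∃ g : ℕ → ℕ, StrictMono g ∧
          ∀ φ : StrongDual ℝ X,
            ∀ᵐ t ∂(volume.restrict (Set.Icc (0 : ℝ) 1)),
              Tendsto (fun k => φ (f (g k) t)) atTop (𝓝 0) := by
  refine ⟨StrongDual ℝ E, inferInstance, inferInstance, inferInstance, fun Ψ => ?_, fun h => ?_,
    fun f hf ⟨C, hC⟩ hm => ?_⟩
  · refine ⟨Ψ.comp (NormedSpace.inclusionInDoubleDual ℝ E), ContinuousLinearMap.ext fun Φ => ?_⟩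
    obtain ⟨x, hx⟩ := refl Φ
    have e : Φ = NormedSpace.inclusionInDoubleDual ℝ E x := ContinuousLinearMap.ext hx
    rw [e]
    rfl
  · refine Module.Finite.not_linearIndependent_of_infinite (R := ℝ) cl
      (linearIndependent_iff'.mpr fun s c hs i hi => ?_)
    have h1 := congrArg (fun φ : StrongDual ℝ E => φ (e i)) hs
    have h2 : ∀ j, cl j (e i) = (Pi.single i 1 : ℕ → ℝ) j := fun j => congrFun (co_e i) j
    simpa [h2, Pi.single_apply, hi] using h1
  · have hi : ∀ n, Integrable (f n) (volume.restrict (Set.Icc (0 : ℝ) 1)) := fun n =>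
      memLp_one_iff_integrable.mp
        ⟨(hf n).aestronglyMeasurable, (hC n).trans_lt ENNReal.coe_lt_top⟩
    obtain ⟨g, hg, h⟩ := main f hi (C := C) (fun n => by
      rw [integral_norm_eq_lintegral_enorm (hi n).1, ← eLpNorm_one_eq_lintegral_enorm]
      exact ENNReal.toReal_le_coe_of_le_coe (hC n))
      fun x => hm (NormedSpace.inclusionInDoubleDual ℝ E x)
    refine ⟨g, hg, fun φ => ?_⟩
    obtain ⟨x, hx⟩ := refl φ
    simpa only [hx] using h x

end Pool.Agent.S04585
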