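import Pool.Statements.S04592
import Pool.Agent.H.MP_4b13b5_an.A

set_option autoImplicit false
open Matrix
open Pool Pool.MP_4b13b5_an

namespace Pool.Agent.S04592

theorem result :
    ¬ (∀ n : ℕ, Convex ℝ {a : Fin n → ℝ |
      (∀ z : ℂ, 1 ≤ ‖z‖ → z ^ n + ∑ j : Fin n, ((a j : ℝ) : ℂ) * z ^ (n - (j.val + 1)) ≠ 0) ∧
      ∀ R : Matrix (Fin n) (Fin n) ℝ, R.PosDef →
        (∃ r : ℕ → ℝ, ∀ i j : Fin n, R i j = r (Int.natAbs ((i.val : ℤ) - (j.val : ℤ)))) →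
        ∀ z : ℂ, 1 ≤ ‖z‖ →
          z ^ n + ∑ j : Fin n, ((((R * (1 + R)⁻¹) *ᵥ a) j : ℝ) : ℂ) * z ^ (n - (j.val + 1)) ≠ 0}) := by
  intro h
  have h3 := h 3
  have hu := Pool.Agent.H.MP_4b13b5_an.stab_u
  have hv := Pool.Agent.H.MP_4b13b5_an.stab_v
  have hm := h3 (x := Pool.Agent.H.MP_4b13b5_an.u) (y := Pool.Agent.H.MP_4b13b5_an.v)
    ⟨hu _ (Pool.Agent.H.MP_4b13b5_an.near_self _),
      fun R hR hT => hu _ (Pool.Agent.H.MP_4b13b5_an.near R hR hT _)⟩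
    ⟨hv _ (Pool.Agent.H.MP_4b13b5_an.near_self _),
      fun R hR hT => hv _ (Pool.Agent.H.MP_4b13b5_an.near R hR hT _)⟩
    (a := 1 / 2) (b := 1 / 2) (by norm_num) (by norm_num) (by norm_num)
  have h2 := hm.2 Pool.Agent.H.MP_4b13b5_an.R0 Pool.Agent.H.MP_4b13b5_an.R0_pd
    ⟨_, Pool.Agent.H.MP_4b13b5_an.R0_toep⟩
  rw [Pool.Agent.H.MP_4b13b5_an.image_mid] at h2
  exact Pool.Agent.H.MP_4b13b5_an.not_stab h2

end Pool.Agent.S04592
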