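import Pool.Statements.S04606
import Pool.Agent.H.MP_4bee3f_an.A

set_option autoImplicit false
open MeasureTheory
open Pool Pool.MP_4bee3f_an

namespace Pool.Agent.S04606

theorem result :
    ¬ (∀ (n : ℕ), 2 ≤ n → ∀ (k : ℕ) (Ω : Set (EuclideanSpace ℝ (Fin n))), IsOpen Ω → IsConnected Ω →
  ∀ (A : Fin n → Fin n → Fin n → EuclideanSpace ℝ (Fin n) → ℝ)
    (B : Fin n → Fin n → EuclideanSpace ℝ (Fin n) → ℝ)
    (c : Fin n → EuclideanSpace ℝ (Fin n) → ℝ)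
    (u : Fin n → EuclideanSpace ℝ (Fin n) → ℝ)
    (J : EuclideanSpace ℝ (Fin n) → ℝ),
  (∀ x ∈ Ω, ∀ ξ : Fin n → ℝ, ξ ≠ 0 →
      (Matrix.of fun i l => ∑ j, ξ j * A j i l x).det ≠ 0) →
  (∀ i, ∀ x ∈ Ω, ∃ C : NNReal, ∃ U ∈ nhds x, LipschitzOnWith C (u i) (U ∩ Ω)) →
  (∀ᵐ x ∂(volume.restrict Ω), ∀ i,
      ∑ j, ∑ l, A j i l x * fderiv ℝ (u l) x (EuclideanSpace.single j 1)
        + ∑ l, B i l x * u l x = c i x) →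
  (∀ x ∈ Ω, J x ≠ 0) →
  (∀ᵐ x ∂(volume.restrict Ω),
      (Matrix.of fun i j => fderiv ℝ (u i) x (EuclideanSpace.single j 1)).det = J x) →
  (((∀ j i l, ContDiffOn ℝ k (A j i l) Ω ∧ ∀ x ∈ Ω, ∃ C : NNReal, ∃ U ∈ nhds x,
        LipschitzOnWith C (iteratedFDeriv ℝ k (A j i l)) (U ∩ Ω)) ∧
    (∀ i l, ContDiffOn ℝ k (B i l) Ω ∧ ∀ x ∈ Ω, ∃ C : NNReal, ∃ U ∈ nhds x,
        LipschitzOnWith C (iteratedFDeriv ℝ k (B i l)) (U ∩ Ω)) ∧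
    (∀ i, ContDiffOn ℝ k (c i) Ω ∧ ∀ x ∈ Ω, ∃ C : NNReal, ∃ U ∈ nhds x,
        LipschitzOnWith C (iteratedFDeriv ℝ k (c i)) (U ∩ Ω)) ∧
    (ContDiffOn ℝ k J Ω ∧ ∀ x ∈ Ω, ∃ C : NNReal, ∃ U ∈ nhds x,
        LipschitzOnWith C (iteratedFDeriv ℝ k J) (U ∩ Ω)) →
    ∀ i, ContDiffOn ℝ (k + 1) (u i) Ω ∧ ∀ x ∈ Ω, ∃ C : NNReal, ∃ U ∈ nhds x,
        LipschitzOnWith C (iteratedFDeriv ℝ (k + 1) (u i)) (U ∩ Ω)) ∧
   ((∀ j i l, ContDiffOn ℝ (k + 1) (A j i l) Ω) ∧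
    (∀ i l, ContDiffOn ℝ (k + 1) (B i l) Ω) ∧
    (∀ i, ContDiffOn ℝ (k + 1) (c i) Ω) ∧
    ContDiffOn ℝ (k + 1) J Ω →
    ∀ i, ContDiffOn ℝ (k + 2) (u i) Ω))) := by
  intro H
  open Pool.Agent.H.MP_4bee3f_an in
  obtain ⟨r, r0, r1, hr⟩ : ∃ r : ℝ, 0 < r ∧ r ≤ 1 ∧ ∀ x ∈ Metric.ball (0 : E) r, J x ≠ 0 := by
    have := (lJ.choose_spec.continuousOn.continuousAt (Metric.ball_mem_nhds _ one_pos)).eventually_ne
      (show J 0 ≠ 0 by simp [J, q, h])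
    obtain ⟨r, r0, hr⟩ := Metric.mem_nhds_iff.1 this
    exact ⟨min r 1, lt_min r0 one_pos, min_le_right _ _, fun x hx =>
      hr (Metric.ball_subset_ball (min_le_left _ _) hx)⟩
  open Pool.Agent.H.MP_4bee3f_an in
  have ae : ∀ᵐ x ∂(volume.restrict (Metric.ball (0 : E) r)), x ≠ 0 :=
    ae_restrict_of_ae (by simp [ae_iff])
  open Pool.Agent.H.MP_4bee3f_an in
  obtain ⟨C, U, hU, hC⟩ := ((H 2 le_rfl 0 (Metric.ball 0 r) Metric.isOpen_ball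
    ((convex_ball _ _).isConnected (Metric.nonempty_ball.2 r0)) A (fun _ _ _ => 0) c u J
    (fun x _ ξ hξ h => hξ (by
      simp [Matrix.det_fin_two, A] at h
      funext i; fin_cases i <;> simp <;> nlinarith [sq_nonneg (ξ 0), sq_nonneg (ξ 1)]))
    (fun i x _ => (lu i).loc r1 x) (ae.mono fun x hx => (eqn hx).1) hr
    (ae.mono fun x hx => (eqn hx).2)).1 ⟨fun j i l => (Agent.H.MP_4bee3f_an.Lp.const _).zero r1,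
      fun _ _ => (Agent.H.MP_4bee3f_an.Lp.const _).zero r1, fun i => (lc i).zero r1, lJ.zero r1⟩ 0).2 0
      (Metric.mem_ball_self r0)
  exact Pool.Agent.H.MP_4bee3f_an.nolip (Filter.inter_mem hU (Metric.ball_mem_nhds _ r0)) hC

end Pool.Agent.S04606
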