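import Pool.Statements.S04611
import Pool.Agent.H.MP_4c66eb_an.C

set_option autoImplicit false
open Pool Pool.MP_4c66eb_an

namespace Pool.Agent.S04611

theorem result :
    ∀ (n : ℕ) (f : ℕ → ℝ), f n ≠ 0 →
      (∀ z : ℂ, (∑ k ∈ Finset.range (n + 1), (f k : ℂ) * z ^ k) = 0 →
          z.im = 0 ∧ z.re < 0) →
      ∀ z ∈ (∑ k ∈ Finset.range (n + 1),
          Polynomial.C (((f k * f (n - k) * (n.choose k : ℝ)) : ℝ) : ℂ) *
            (ascPochhammer ℂ k * ascPochhammer ℂ (n - k) -
              (ascPochhammer ℂ k).comp (Polynomial.X + 1) *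
                (ascPochhammer ℂ (n - k)).comp (Polynomial.X - 1))).roots,
        z.im = 0 ∧ z.re < 0 := by
  intro n f hf hz z hr
  have ns : Pool.Agent.H.MP_4c66eb_an.NS n (fun k => (f k : ℂ)) := ⟨Complex.ofReal_ne_zero.mpr hf, hz⟩
  obtain ⟨P0, hP⟩ := Polynomial.mem_roots'.mp hr
  rcases Pool.Agent.H.MP_4c66eb_an.fin n _ ns.had (fun k hk => by
      rw [Nat.sub_sub_self hk, Nat.choose_symm hk]; ring)
    (fun z => Polynomial.eval z (∑ k ∈ Finset.range (n + 1),
          Polynomial.C (((f k * f (n - k) * (n.choose k : ℝ)) : ℝ) : ℂ) *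
            (ascPochhammer ℂ k * ascPochhammer ℂ (n - k) -
              (ascPochhammer ℂ k).comp (Polynomial.X + 1) *
                (ascPochhammer ℂ (n - k)).comp (Polynomial.X - 1))))
    (fun z => by
      simp only [Polynomial.eval_finsetSum, Polynomial.eval_mul, Polynomial.eval_sub,
        Polynomial.eval_comp, Polynomial.eval_C, Polynomial.eval_add, Polynomial.eval_X,
        Polynomial.eval_one, Pool.Agent.H.MP_4c66eb_an.rf_eval]
      push_cast
      rfl) with h | h
  · exact absurd (Polynomial.funext (fun w => by rw [Polynomial.eval_zero]; exact h w)) P0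
  · exact h z hP

end Pool.Agent.S04611
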