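import Pool.Statements.S04614
import Pool.Agent.H.MP_4c8440_an.C

set_option autoImplicit false
open Pool Pool.MP_4c8440_an

namespace Pool.Agent.S04614

theorem result :
    ¬ (∀ (n : ℕ) (Ω V : Set (Fin n → ℂ)) (ρ : (Fin n → ℂ) → ℝ),
    IsOpen Ω → IsConnected Ω → Bornology.IsBounded Ω →
    ContDiff ℝ ((⊤ : ℕ∞) : WithTop ℕ∞) ρ →
    Ω = {z | ρ z < 0} →
    (∀ z ∈ frontier Ω, fderiv ℝ ρ z ≠ 0) →
    (∀ z ∈ frontier Ω, ∀ w : Fin n → ℂ, fderiv ℝ ρ z w = 0 →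
        fderiv ℝ ρ z (Complex.I • w) = 0 →
        0 ≤ iteratedFDeriv ℝ 2 ρ z ![w, w]
          + iteratedFDeriv ℝ 2 ρ z ![Complex.I • w, Complex.I • w]) →
    V ⊆ Ω →
    (∀ p ∈ Ω, ∃ r > 0, Metric.ball p r ⊆ Ω ∧
        ∃ g : (Fin n → ℂ) → ℂ, DifferentiableOn ℂ g (Metric.ball p r) ∧
          (∃ z ∈ Metric.ball p r, g z ≠ 0) ∧
          ∀ z ∈ Metric.ball p r, (z ∈ V ↔ g z = 0)) →
    Disjoint (closure V)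
      (⋂₀ {K : Set (Fin n → ℂ) | IsClosed K ∧ K ⊆ closure Ω ∧
          ∀ f : (Fin n → ℂ) → ℂ, ContinuousOn f (closure Ω) → DifferentiableOn ℂ f Ω →
            ∃ k ∈ K, ∀ z ∈ closure Ω, ‖f z‖ ≤ ‖f k‖}) →
    ∃ f : (Fin n → ℂ) → ℂ, DifferentiableOn ℂ f Ω ∧
      (∃ M : ℝ, ∀ z ∈ Ω, ‖f z‖ ≤ M) ∧
      (∃ z ∈ Ω, f z ≠ 0) ∧
      ∀ v ∈ V, f v = 0) := by
  intro H
  open Pool.Agent.H.MP_4c8440_an in
  obtain ⟨f, df, ⟨M, hM⟩, ⟨z, hz, k⟩, hV⟩ := H 2 Ω V ρ Ωo Ωc Ωb ρc rfl grad' levi' (fun _ h => h.1) Vloc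
    (Set.disjoint_left.2 fun p hp h => (Set.sInter_subset_of_mem bdry h).2 (VO hp))
  exact k (Pool.Agent.H.MP_4c8440_an.uniq df hM hV z hz)

end Pool.Agent.S04614
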