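import Pool.Statements.S04636
import Pool.Agent.H.MP_4e7b39_an.B

set_option autoImplicit false
open Pool Pool.MP_4e7b39_an

namespace Pool.Agent.S04636

theorem result :
    ¬ (∀ T : ℝ × ℝ → ℝ × ℝ, Continuous T →
      ∃ L : List (ℝ × ℝ → ℝ × ℝ),
        (∀ S ∈ L, Continuous S ∧
          (∀ a b c : ℝ, (S ((S (a, b)).1, c)).1 = (S (a, (S (b, c)).1)).1) ∧
          (∀ a b c : ℝ, (S ((S (a, b)).2, c)).2 = (S (a, (S (b, c)).2)).2)) ∧
        T = L.foldr (fun S R => S ∘ R) id) := by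
  intro h
  obtain ⟨L, hL, e1⟩ := h (H.MP_4e7b39_an.e ∘ H.MP_4e7b39_an.sp ∘ H.MP_4e7b39_an.e.symm)
    (H.MP_4e7b39_an.e.continuous.comp
      (H.MP_4e7b39_an.sp_cont.comp H.MP_4e7b39_an.e.symm.continuous))
  have h2 := (H.MP_4e7b39_an.ind L fun S hS => ⟨(hL S hS).1, (hL S hS).2.1⟩).2
  rw [← e1] at h2
  refine H.MP_4e7b39_an.not_tame ?_
  simpa using h2 (H.MP_4e7b39_an.e.isProperMap.comp
      (H.MP_4e7b39_an.sp_proper.comp H.MP_4e7b39_an.e.symm.isProperMap))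
    (H.MP_4e7b39_an.e.injective.comp
      (H.MP_4e7b39_an.sp_inj.comp H.MP_4e7b39_an.e.symm.injective)) _ H.MP_4e7b39_an.tame0

end Pool.Agent.S04636
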