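import Pool.Statements.S04654
import Pool.Agent.H.MP_5067f1_an.C

set_option autoImplicit false
open Pool Pool.MP_5067f1_an

namespace Pool.Agent.S04654

/-- The negation of the preceding statement: For every a<b and every real sequence with nonincreasing absolute values tending to 0 (equal absolute values forcing equal terms), exactly one continuous f on [a,b] has it as its polynomial best-approximation errors, each signed by the first nonzero top coefficient. -/
theorem result :
    ¬ (∀ a b : ℝ, a < b → ∀ e : ℕ → ℝ,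
      Antitone (fun n => |e n|) →
      Filter.Tendsto e Filter.atTop (nhds 0) →
      (∀ n, |e n| = |e (n + 1)| → e n = e (n + 1)) →
      ∃! x : C(Set.Icc a b, ℝ), ∃ P : ℕ → Polynomial ℝ,
        (∀ k : ℕ, (P k).degree < (k : WithBot ℕ) ∧
          ∀ q : Polynomial ℝ, q.degree < (k : WithBot ℕ) →
            ‖x - (P k).toContinuousMapOn (Set.Icc a b)‖ ≤
              ‖x - q.toContinuousMapOn (Set.Icc a b)‖) ∧
        ∀ n : ℕ,
          (‖x - (P n).toContinuousMapOn (Set.Icc a b)‖ = 0 ∧ e n = 0) ∨
          ∃ m : ℕ, n ≤ m ∧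
            (∀ k : ℕ, n ≤ k → k < m → (P (k + 1)).coeff k = 0) ∧
            (P (m + 1)).coeff m ≠ 0 ∧
            e n = Real.sign ((P (m + 1)).coeff m) *
              ‖x - (P n).toContinuousMapOn (Set.Icc a b)‖) := by
  intro h
  obtain ⟨x, -, hx⟩ := h (-1) 1 (by norm_num) H5067.err H5067.err_anti H5067.err_zero H5067.err_eq
  have h0 : |(0 : ℝ)| ≤ 1 / 1000 := by norm_num
  have h1 : |(1 / 1000 : ℝ)| ≤ 1 / 1000 := by norm_num
  exact H5067.xx_ne h0 h1 ((hx _ (H5067.main h0)).trans (hx _ (H5067.main h1)).symm)

end Pool.Agent.S04654
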