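import Pool.Statements.S04656
import Pool.Agent.H.MP_50702e_an.C

set_option autoImplicit false
open MeasureTheory
open Pool Pool.MP_50702e_an

namespace Pool.Agent.S04656

theorem result :
    ¬ (∀ (H : Type) [NormedAddCommGroup H] [InnerProductSpace ℂ H] [CompleteSpace H]
      [TopologicalSpace.SeparableSpace H] (S : H →L[ℂ] H),
      (∃ (E : Type) (_ : NormedAddCommGroup E) (_ : InnerProductSpace ℂ E) (_ : CompleteSpace E)
          (V : H →ₗᵢ[ℂ] E) (N : E →L[ℂ] E),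
          IsStarNormal N ∧ N.comp V.toContinuousLinearMap = V.toContinuousLinearMap.comp S) →
      ∃ (μ : Measure ℂ) (K : Set ℂ) (R : Submodule ℂ (Lp ℂ 2 μ)) (φ : ℂ → ℂ) (U : H ≃ₗᵢ[ℂ] R),
        IsFiniteMeasure μ ∧ IsCompact K ∧ μ Kᶜ = 0 ∧
        R = (Submodule.span ℂ
              {f : Lp ℂ 2 μ | ∃ p q : Polynomial ℂ, (∀ z ∈ K, q.eval z ≠ 0) ∧
                (f : ℂ → ℂ) =ᵐ[μ] fun z => p.eval z / q.eval z}).topologicalClosure ∧
        MemLp φ ⊤ μ ∧ (∃ f ∈ R, (f : ℂ → ℂ) =ᵐ[μ] φ) ∧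
        ∀ x : H, ((U (S x) : Lp ℂ 2 μ) : ℂ → ℂ) =ᵐ[μ]
          fun z => φ z * ((U x : Lp ℂ 2 μ) : ℂ → ℂ) z) := by
  intro h
  obtain ⟨μ, K, R, φ, U, h1, h2, h3, h4, -, -, h5⟩ :=
    h Pool.Agent.H.MP_50702e_an.Hs Pool.Agent.H.MP_50702e_an.S
      ⟨Pool.Agent.H.MP_50702e_an.E, inferInstance, inferInstance, inferInstance,
        Pool.Agent.H.MP_50702e_an.Hs.subtypeₗᵢ, Pool.Agent.H.MP_50702e_an.N,
        Pool.Agent.H.MP_50702e_an.N_normal, rfl⟩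
  exact Pool.Agent.H.MP_50702e_an.main μ K R φ U h1 h2 h3 h4 h5

end Pool.Agent.S04656
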