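import Pool.Statements.S04668
import Pool.Agent.H.MP_7fb4a2_an.E

set_option autoImplicit false
open Pool Pool.MP_5139aa_an Pool.Agent.H.MP_7fb4a2_an

namespace Pool.Agent.S04668

theorem result :
    ¬ (∀ (X Y : Type) [MetricSpace X] [CompactSpace X] [MetricSpace Y] [CompactSpace Y]
      (T : X ≃ₜ X) (S : Y ≃ₜ Y) (π : X → Y),
      Continuous π → Function.Surjective π → (∀ x, π (T x) = S (π x)) →
      (∃ (H : Type) (_ : NormedAddCommGroup H) (_ : InnerProductSpace ℂ H) (_ : CompleteSpace H)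
          (U : H ≃ₗᵢ[ℂ] H) (f : X → H),
          Function.Injective f ∧ (∀ x, ‖f x‖ ≤ 1) ∧ (∀ x, f (T x) = U (f x)) ∧
          ∀ v : H, Continuous (fun x => inner ℂ v (f x))) →
      (∃ (H : Type) (_ : NormedAddCommGroup H) (_ : InnerProductSpace ℂ H) (_ : CompleteSpace H)
          (U : H ≃ₗᵢ[ℂ] H) (g : Y → H),
          Function.Injective g ∧ (∀ y, ‖g y‖ ≤ 1) ∧ (∀ y, g (S y) = U (g y)) ∧
          ∀ v : H, Continuous (fun y => inner ℂ v (g y)))) := by
  intro h
  let _ : MetricSpace (WB ℂ H0) := TopologicalSpace.metrizableSpaceMetric _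
  let _ : MetricSpace (Set.range pp) := TopologicalSpace.metrizableSpaceMetric _
  have : CompactSpace (Set.range pp) := isCompact_iff_compactSpace.1 (isCompact_range pp_cont)
  obtain ⟨H, _, _, _, U, g, hi, -, he, hc⟩ := h (WB ℂ H0) (Set.range pp) (WU (UU mu0))
    (sh.subtype pp_mem) (fun x => ⟨pp x, x, rfl⟩) (pp_cont.subtype_mk _)
    (by rintro ⟨_, x, rfl⟩; exact ⟨x, rfl⟩) (fun x => Subtype.ext (pp_sh x))
    ⟨H0, _, _, inferInstance, UU mu0, fun x => (toWeakSpace ℂ H0).symm x.1,
      (toWeakSpace ℂ H0).symm.injective.comp Subtype.val_injective, fun x => x.2, fun x => rfl,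
      fun v => (weak_inner v).comp continuous_subtype_val⟩
  have := core3 U (fun y => g (Set.inclusion Xf_sub y))
    (fun w => (hc w).comp (continuous_inclusion _)) (fun y => he (Set.inclusion Xf_sub y)) (yy 0 1 0)
  exact yy_ne 0 (Set.inclusion_injective _ (hi this))

end Pool.Agent.S04668
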