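import Pool.Statements.S04672
import Pool.Agent.H.MP_51cccb_an.C

set_option autoImplicit false
open Pool Pool.MP_51cccb_an

namespace Pool.Agent.S04672

/-- The negation of the preceding statement: For every univalent f on the unit disk with f(0)=0, f'(0)=1 and log(f(z)/z)=2Σγ_k z^k, the sum Σ k∣γ_k∣ r^k is O(1/(1−r)) as r→1 from below. -/
theorem result :
    ¬ (∀ (f : ℂ → ℂ) (γ : ℕ → ℂ),
      AnalyticOnNhd ℂ f (Metric.ball (0 : ℂ) 1) →
      Set.InjOn f (Metric.ball (0 : ℂ) 1) →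
      f 0 = 0 →
      deriv f 0 = 1 →
      (∀ z : ℂ, ‖z‖ < 1 → z ≠ 0 →
        ∃ s : ℂ, HasSum (fun k : ℕ => γ (k + 1) * z ^ (k + 1)) s ∧
          f z = z * Complex.exp (2 * s)) →
      Asymptotics.IsBigO (nhdsWithin (1 : ℝ) (Set.Iio 1))
        (fun r : ℝ => ∑' k : ℕ, ((k : ℝ) + 1) * ‖γ (k + 1)‖ * r ^ (k + 1))
        (fun r : ℝ => 1 / (1 - r))) := by
  intro h
  exact H.MP_51cccb_an.notO (h H.MP_51cccb_an.f H.MP_51cccb_an.γ H.MP_51cccb_an.f_an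
    (fun z hz y hy e => H.MP_51cccb_an.inj (mem_ball_zero_iff.1 hz) (mem_ball_zero_iff.1 hy) e)
    (by simp [H.MP_51cccb_an.f]) H.MP_51cccb_an.f_deriv fun z hz _ => H.MP_51cccb_an.γ_ser hz)

end Pool.Agent.S04672
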