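import Pool.Statements.S04674
-- import your own Pool.Agent.* helpers here

set_option autoImplicit false
open Pool Pool.MP_51da40_an

namespace Pool.Agent.S04674


open Complex

noncomputable def g (z : ℂ) : ℂ := z ^ 2 * (z - 19 / 10)

lemma g_cont : Continuous g := by unfold g; fun_prop

lemma g_deriv (z : ℂ) : HasStrictDerivAt g (z * (3 * z - 19 / 5)) z := by
  have h1 : HasStrictDerivAt (fun z : ℂ => z ^ 2) (2 * z) z := by
    simpa using hasStrictDerivAt_pow 2 z
  have h2 : HasStrictDerivAt (fun z : ℂ => z - 19 / 10) 1 z :=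
    (hasStrictDerivAt_id z).sub_const _
  have h3 := h1.fun_mul h2
  have e : z * (3 * z - 19 / 5) = 2 * z * (z - 19 / 10) + z ^ 2 * 1 := by ring
  rw [e]
  exact h3

lemma g_norm (z : ℂ) : ‖z‖ ^ 2 * |19 / 10 - ‖z‖| ≤ ‖g z‖ := by
  unfold g
  rw [norm_mul, norm_pow]
  apply mul_le_mul_of_nonneg_left _ (by positivity)
  have := abs_norm_sub_norm_le (19 / 10 : ℂ) z
  rw [norm_sub_rev (19 / 10 : ℂ) z] at this
  have e : ‖(19 / 10 : ℂ)‖ = 19 / 10 := by
    rw [norm_div]; simp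
  rwa [e] at this

lemma descend (ζ z1 : ℂ) (hζ : ‖ζ‖ = 1) (h1 : g z1 = (121 / 125 : ℝ) * ζ) (hz1 : ‖z1‖ < 19 / 15) :
    ∃ K : Set ℂ, IsPreconnected K ∧ z1 ∈ K ∧
      (∀ z ∈ K, ∃ t : ℝ, 1 / 10000 ≤ t ∧ t ≤ 121 / 125 ∧ g z = t * ζ) ∧
      ∃ y ∈ K, ‖y‖ ≤ 1 / 50 := by
  set S : Set ℂ := g ⁻¹' ((fun t : ℝ => (t : ℂ) * ζ) '' Set.Icc (1 / 10000) (121 / 125)) with hS
  have hScl : IsClosed S := by
    apply IsClosed.preimage g_cont
    apply IsCompact.isClosed
    exact isCompact_Icc.image (by fun_prop)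
  have hz1S : z1 ∈ S := ⟨121 / 125, ⟨by norm_num, le_rfl⟩, h1.symm⟩
  set K := connectedComponentIn S z1 with hK
  have hKS : K ⊆ S := connectedComponentIn_subset S z1
  have hKp : IsPreconnected K := isPreconnected_connectedComponentIn
  have hz1K : z1 ∈ K := mem_connectedComponentIn hz1S
  have hKt : ∀ z ∈ K, ∃ t : ℝ, 1 / 10000 ≤ t ∧ t ≤ 121 / 125 ∧ g z = t * ζ := by
    intro z hz
    obtain ⟨t, ht, h⟩ := hKS hz
    exact ⟨t, ht.1, ht.2, h.symm⟩
  have hnorm : ∀ (z : ℂ) (t : ℝ), 0 ≤ t → g z = t * ζ → ‖g z‖ = t := by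
    intro z t ht h
    rw [h, norm_mul, hζ, mul_one, Complex.norm_real, Real.norm_eq_abs, abs_of_nonneg ht]
  have hKb : ∀ z ∈ K, ‖z‖ < 19 / 15 := by
    intro z hz
    by_contra hc
    push Not at hc
    have := hKp.intermediate_value hz1K hz (f := fun z : ℂ => ‖z‖) (by fun_prop)
    obtain ⟨y, hy, hy2⟩ := this ⟨hz1.le, hc⟩
    simp only at hy2
    obtain ⟨t, ht1, ht2, ht3⟩ := hKt y hy
    have h2 := hnorm y t (by linarith) ht3
    have h3 := g_norm y
    rw [hy2, h2, abs_of_pos (by norm_num)] at h3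
    linarith
  have hKcl : IsClosed K := by
    apply isClosed_of_closure_subset
    exact hKp.closure.subset_connectedComponentIn (subset_closure hz1K) (closure_minimal hKS hScl)
  have hKc : IsCompact K := by
    apply Metric.isCompact_of_isClosed_isBounded hKcl
    apply (Metric.isBounded_closedBall (x := (0:ℂ)) (r := 19 / 15)).subset
    intro z hz
    simpa using (hKb z hz).le
  obtain ⟨y, hyK, hymin⟩ := hKc.exists_isMinOn ⟨z1, hz1K⟩ (f := fun z => ‖g z‖)
    (g_cont.norm.continuousOn)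
  obtain ⟨t, ht1, ht2, ht3⟩ := hKt y hyK
  have hyt := hnorm y t (by linarith) ht3
  have hyb := hKb y hyK
  refine ⟨K, hKp, hz1K, hKt, y, hyK, ?_⟩
  have hteq : t = 1 / 10000 := by
    by_contra hne
    have hlt : 1 / 10000 < t := lt_of_le_of_ne ht1 (Ne.symm hne)
    have hy0 : y ≠ 0 := by
      intro h
      rw [h] at hyt
      simp [g] at hyt
      linarith
    have hy1 : 3 * y - 19 / 5 ≠ 0 := by
      intro h
      have : y = 19 / 15 := by linear_combination h / 3
      rw [this, norm_div] at hyb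
      simp at hyb
    have hd := (g_deriv y).hasStrictFDerivAt_equiv (mul_ne_zero hy0 hy1)
    set φ := hd.toOpenPartialHomeomorph g with hφ
    have hφg : (φ : ℂ → ℂ) = g := hd.toOpenPartialHomeomorph_coe
    have hys : y ∈ φ.source := hd.mem_toOpenPartialHomeomorph_source
    have hyt' : g y ∈ φ.target := by rw [← hφg]; exact φ.map_source hys
    obtain ⟨δ, hδ, hball⟩ := Metric.isOpen_iff.mp φ.open_target _ hyt'
    set t' := max (1 / 10000) (t - δ / 2) with ht'
    have ht'1 : 1 / 10000 ≤ t' := le_max_left _ _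
    have ht'2 : t - δ / 2 ≤ t' := le_max_right _ _
    have ht'3 : t' < t := max_lt hlt (by linarith)
    have hmem : ∀ τ ∈ Set.Icc t' t, (τ : ℂ) * ζ ∈ φ.target := by
      intro τ hτ
      apply hball
      rw [Metric.mem_ball, dist_eq_norm, ht3, ← sub_mul, norm_mul, hζ, mul_one, ← Complex.ofReal_sub,
        Complex.norm_real, Real.norm_eq_abs, abs_lt]
      constructor <;> linarith [hτ.1, hτ.2]
    have hcont : ContinuousOn (fun τ : ℝ => φ.symm ((τ : ℂ) * ζ)) (Set.Icc t' t) :=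
      φ.continuousOn_symm.comp (by fun_prop) hmem
    have hpre := isPreconnected_Icc.image _ hcont
    have hg : ∀ τ ∈ Set.Icc t' t, g (φ.symm ((τ : ℂ) * ζ)) = τ * ζ := by
      intro τ hτ
      rw [← hφg]
      exact φ.right_inv (hmem τ hτ)
    have hsub : (fun τ : ℝ => φ.symm ((τ : ℂ) * ζ)) '' Set.Icc t' t ⊆ connectedComponentIn S y := by
      apply hpre.subset_connectedComponentIn
      · refine ⟨t, ⟨ht'3.le, le_rfl⟩, ?_⟩
        simp only
        rw [← ht3, ← hφg]
        exact φ.left_inv hys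
      · rintro _ ⟨τ, hτ, rfl⟩
        exact ⟨τ, ⟨by linarith [hτ.1], by linarith [hτ.2]⟩, (hg τ hτ).symm⟩
    rw [← connectedComponentIn_eq hyK] at hsub
    have h5 := hymin (hsub ⟨t', ⟨le_rfl, ht'3.le⟩, rfl⟩)
    have h6 := hnorm _ t' (by linarith) (hg t' ⟨le_rfl, ht'3.le⟩)
    simp only [Set.mem_ofPred_eq] at h5
    rw [h6, hyt] at h5
    linarith
  have h3 := g_norm y
  rw [hyt, hteq, abs_of_pos (by linarith)] at h3
  by_contra hc
  push Not at hc
  nlinarith

lemma start : ∃ δ : ℝ, 0 < δ ∧ ∀ θ : ℝ, |θ| < δ →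
    ∃ z : ℂ, ‖z - 11 / 10‖ < 1 / 100 ∧ g z = (121 / 125 : ℝ) * (- exp (θ * I)) := by
  have h1 := (g_deriv (11 / 10)).map_nhds_eq (by norm_num)
  have h2 : g '' Metric.ball (11 / 10 : ℂ) (1 / 100) ∈ nhds (g (11 / 10)) := by
    rw [← h1]
    exact Filter.image_mem_map (Metric.ball_mem_nhds _ (by norm_num))
  have h3 : Continuous (fun θ : ℝ => ((121 / 125 : ℝ) : ℂ) * (- exp (θ * I))) := by fun_prop
  have h4 : ((121 / 125 : ℝ) : ℂ) * (- exp (((0:ℝ) : ℂ) * I)) = g (11 / 10) := by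
    unfold g
    push_cast
    simp
    norm_num
  have h5 := h3.continuousAt (x := 0)
  have h6 := h5.preimage_mem_nhds (by rw [h4]; exact h2)
  obtain ⟨δ, hδ, hb⟩ := Metric.mem_nhds_iff.mp h6
  refine ⟨δ, hδ, fun θ hθ => ?_⟩
  obtain ⟨z, hz, hz2⟩ := hb (show θ ∈ Metric.ball (0:ℝ) δ by simpa using hθ)
  exact ⟨z, by rwa [Metric.mem_ball, dist_eq_norm] at hz, hz2⟩

noncomputable def P (N : ℕ) : Polynomial ℂ :=
  (Polynomial.X ^ 2 * (Polynomial.X - Polynomial.C (19 / 10))) ^ N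
    - Polynomial.C (((1 + (1 / 10000) ^ N : ℝ) : ℂ))

lemma P_eval (N : ℕ) (z : ℂ) : (P N).eval z = g z ^ N - ((1 + (1 / 10000) ^ N : ℝ) : ℂ) := by
  simp [P, g]

lemma P_monic (N : ℕ) (hN : 0 < N) : (P N).Monic ∧ (P N).natDegree = 3 * N := by
  have h1 : (Polynomial.X ^ 2 * (Polynomial.X - Polynomial.C (19 / 10 : ℂ))).Monic :=
    (Polynomial.monic_X_pow 2).mul (Polynomial.monic_X_sub_C _)
  have h2 : (Polynomial.X ^ 2 * (Polynomial.X - Polynomial.C (19 / 10 : ℂ))).natDegree = 3 := by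
    rw [(Polynomial.monic_X_pow 2).natDegree_mul (Polynomial.monic_X_sub_C _),
      Polynomial.natDegree_X_pow, Polynomial.natDegree_X_sub_C]
  have h3 : ((Polynomial.X ^ 2 * (Polynomial.X - Polynomial.C (19 / 10 : ℂ))) ^ N).natDegree = 3 * N := by
    rw [h1.natDegree_pow, h2, mul_comm]
  constructor
  · apply (h1.pow N).sub_of_left
    apply lt_of_le_of_lt Polynomial.degree_C_le
    apply Polynomial.natDegree_pos_iff_degree_pos.mp
    rw [h3]
    omega
  · unfold P
    rw [Polynomial.natDegree_sub_C, h3]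

lemma E_bdd (N : ℕ) (hN : 0 < N) : Bornology.IsBounded {w : ℂ | ‖(P N).eval w‖ ≤ 1} := by
  apply (Metric.isBounded_closedBall (x := (0:ℂ)) (r := 3)).subset
  intro z hz
  simp only [Set.mem_ofPred_eq, P_eval] at hz
  have h0 : (1 / 10000 : ℝ) ^ N ≤ 1 := pow_le_one₀ (by norm_num) (by norm_num)
  have h00 : (0:ℝ) ≤ (1 / 10000 : ℝ) ^ N := by positivity
  have h1 : ‖g z ^ N‖ ≤ 3 := by
    have := norm_sub_norm_le (g z ^ N) ((1 + (1 / 10000) ^ N : ℝ) : ℂ)
    rw [Complex.norm_real, Real.norm_eq_abs, abs_of_nonneg (by linarith)] at this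
    linarith
  rw [norm_pow] at h1
  simp only [Metric.mem_closedBall, dist_zero_right]
  by_contra hc
  push Not at hc
  have h2 := g_norm z
  rw [abs_of_neg (by linarith)] at h2
  have h3 : 9 ≤ ‖g z‖ := by nlinarith
  have h4 : ‖g z‖ ≤ ‖g z‖ ^ N := le_self_pow₀ (by linarith) hN.ne'
  linarith

lemma exp_pow (N : ℕ) (θ : ℝ) : exp (θ * I) ^ N = exp (((N * θ : ℝ) : ℂ) * I) := by
  rw [← Complex.exp_nat_mul]
  push_cast
  ring_nf

lemma separ (N : ℕ) (hN : 0 < N) (hev : Even N) (j k : ℕ) (hjk : j < k) (hk : 2 * k ≤ N)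
    (K : Set ℂ) (hK : IsPreconnected K) (hKE : K ⊆ {w : ℂ | ‖(P N).eval w‖ ≤ 1})
    (x y : ℂ) (hx : x ∈ K) (hy : y ∈ K)
    (hgx : g x = (121 / 125 : ℝ) * (- exp ((2 * Real.pi * j / N : ℝ) * I)))
    (hgy : g y = (121 / 125 : ℝ) * (- exp ((2 * Real.pi * k / N : ℝ) * I))) : False := by
  have hNr : (0:ℝ) < N := by exact_mod_cast hN
  set α : ℝ := (2 * j + 1) * Real.pi / N with hα
  have him : ∀ θ : ℝ, (((121 / 125 : ℝ) : ℂ) * (- exp (θ * I)) * exp (((-α : ℝ) : ℂ) * I)).im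
      = - (121 / 125) * Real.sin (θ - α) := by
    intro θ
    have : ((121 / 125 : ℝ) : ℂ) * (- exp (θ * I)) * exp (((-α : ℝ) : ℂ) * I)
        = ((-(121 / 125) : ℝ) : ℂ) * exp (((θ - α : ℝ) : ℂ) * I) := by
      have e : (((θ - α : ℝ) : ℂ) * I) = θ * I + ((-α : ℝ) : ℂ) * I := by push_cast; ring
      rw [e, Complex.exp_add]
      push_cast
      ring
    rw [this, Complex.im_ofReal_mul, Complex.exp_ofReal_mul_I_im]
  have hpi := Real.pi_pos
  have hkr : (j : ℝ) + 1 ≤ k := by exact_mod_cast hjk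
  have hkN : 2 * (k : ℝ) ≤ N := by exact_mod_cast hk
  have hj0 : (0:ℝ) ≤ j := by positivity
  have s1 : Real.sin (2 * Real.pi * j / N - α) < 0 := by
    have e : 2 * Real.pi * j / N - α = - (Real.pi / N) := by rw [hα]; field_simp; ring
    rw [e, Real.sin_neg, neg_lt_zero]
    apply Real.sin_pos_of_pos_of_lt_pi (by positivity)
    rw [div_lt_iff₀ hNr]
    nlinarith
  have s2 : 0 < Real.sin (2 * Real.pi * k / N - α) := by
    have e : 2 * Real.pi * k / N - α = (2 * (k - j) - 1) * Real.pi / N := by rw [hα]; field_simp; ring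
    rw [e]
    apply Real.sin_pos_of_pos_of_lt_pi
    · apply div_pos _ hNr
      nlinarith
    · rw [div_lt_iff₀ hNr]
      nlinarith
  have hc : Continuous (fun z : ℂ => (g z * exp (((-α : ℝ) : ℂ) * I)).im) := by
    have := g_cont
    fun_prop
  have := hK.intermediate_value hy hx hc.continuousOn
  obtain ⟨w, hw, hw2⟩ := this (show (0:ℝ) ∈ _ from ⟨by rw [hgy, him]; linarith, by rw [hgx, him]; linarith⟩)
  simp only at hw2
  set r := (g w * exp (((-α : ℝ) : ℂ) * I)).re with hr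
  have h1 : g w * exp (((-α : ℝ) : ℂ) * I) = (r : ℂ) := by
    apply Complex.ext
    · simp [hr]
    · rw [hw2]; simp
  have h2 : g w = r * exp ((α : ℂ) * I) := by
    rw [← h1, mul_assoc, ← Complex.exp_add]
    push_cast
    simp
  have h3 : exp ((α : ℂ) * I) ^ N = -1 := by
    rw [exp_pow]
    have e : (N : ℝ) * α = (2 * j + 1) * Real.pi := by rw [hα]; field_simp
    rw [e]
    have e2 : ((((2 * j + 1) * Real.pi : ℝ) : ℂ)) * I = (j : ℕ) * (2 * Real.pi * I) + Real.pi * I := by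
      push_cast; ring
    rw [e2, Complex.exp_add, Complex.exp_nat_mul_two_pi_mul_I, Complex.exp_pi_mul_I]
    simp
  have h4 := hKE hw
  simp only [Set.mem_ofPred_eq, P_eval] at h4
  rw [h2, mul_pow, h3] at h4
  have h5 : (r : ℂ) ^ N * -1 - ((1 + (1 / 10000) ^ N : ℝ) : ℂ)
      = ((-(r ^ N + (1 + (1 / 10000) ^ N)) : ℝ) : ℂ) := by push_cast; ring
  rw [h5, Complex.norm_real, Real.norm_eq_abs, abs_neg] at h4
  have h6 : 0 ≤ r ^ N := hev.pow_nonneg r
  have h7 : (0:ℝ) < (1 / 10000 : ℝ) ^ N := by positivity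
  rw [abs_of_pos (by linarith)] at h4
  linarith

theorem result :
    ¬ (∀ c : ℝ, 0 < c → ∀ ε : ℝ, 0 < ε → ∃ N : ℕ, ∀ n : ℕ, N ≤ n →
      ∀ f : Polynomial ℂ, f.Monic → f.natDegree = n →
        ∀ s : Finset (Set ℂ),
          (∀ C ∈ s, (∃ z : ℂ, ‖f.eval z‖ ≤ 1 ∧
              connectedComponentIn {w : ℂ | ‖f.eval w‖ ≤ 1} z = C) ∧
            1 + c < Metric.diam C) →
          (s.card : ℝ) ≤ ε * (n : ℝ)) := by
  intro H
  obtain ⟨δ, hδ, hstart⟩ := start
  obtain ⟨L, hL⟩ := exists_nat_gt (Real.pi / δ)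
  have hpi := Real.pi_pos
  have hL0 : (0:ℝ) < L := lt_trans (by positivity) hL
  have hL1 : 0 < L := by exact_mod_cast hL0
  obtain ⟨N0, hN0⟩ := H (1 / 20) (by norm_num) (1 / (12 * L)) (by positivity)
  set J := N0 + 1 with hJ
  set N := 2 * L * J with hN
  have hNpos : 0 < N := by positivity
  have hNr : (0:ℝ) < N := by exact_mod_cast hNpos
  have hev : Even N := ⟨L * J, by rw [hN]; ring⟩
  have hJN : 2 * J ≤ N := by rw [hN]; nlinarith
  have hex : ∀ j : Fin J, ∃ z : ℂ, ‖z - 11 / 10‖ < 1 / 100 ∧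
      g z = (121 / 125 : ℝ) * (- exp ((2 * Real.pi * (j : ℕ) / N : ℝ) * I)) := by
    intro j
    apply hstart
    rw [abs_of_nonneg (by positivity), div_lt_iff₀ hNr]
    have h1 : ((j : ℕ) : ℝ) < J := by exact_mod_cast j.2
    have h2 : (N : ℝ) = 2 * L * J := by rw [hN]; push_cast; ring
    rw [div_lt_iff₀ hδ] at hL
    have h3 : (0:ℝ) ≤ (j : ℕ) := by positivity
    rw [h2]
    nlinarith
  choose z hz1 hz2 using hex
  set E := {w : ℂ | ‖(P N).eval w‖ ≤ 1} with hE
  have hcomp : ∀ j : Fin J, z j ∈ E ∧ 1 + 1 / 20 < Metric.diam (connectedComponentIn E (z j)) := by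
    intro j
    have hn1 : ‖z j‖ < 19 / 15 := by
      have := norm_sub_norm_le (z j) (11 / 10)
      have e : ‖(11 / 10 : ℂ)‖ = 11 / 10 := by rw [norm_div]; simp
      have := hz1 j
      linarith
    have hn2 : 109 / 100 < ‖z j‖ := by
      have := norm_sub_norm_le (11 / 10) (z j)
      have e : ‖(11 / 10 : ℂ)‖ = 11 / 10 := by rw [norm_div]; simp
      have h3 := hz1 j
      rw [norm_sub_rev] at h3
      linarith
    obtain ⟨K, hKp, hzK, hKt, y, hyK, hy⟩ := descend _ (z j)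
      (by rw [norm_neg, Complex.norm_exp_ofReal_mul_I]) (hz2 j) hn1
    have hKE : K ⊆ E := by
      intro w hw
      obtain ⟨t, ht1, ht2, ht3⟩ := hKt w hw
      simp only [hE, Set.mem_ofPred_eq, P_eval]
      have h1 : (- exp ((2 * Real.pi * (j : ℕ) / N : ℝ) * I)) ^ N = 1 := by
        rw [hev.neg_pow, exp_pow]
        have e : (N : ℝ) * (2 * Real.pi * (j : ℕ) / N) = (j : ℕ) * (2 * Real.pi) := by field_simp
        rw [e]
        have e2 : ((((j : ℕ) * (2 * Real.pi) : ℝ) : ℂ)) * I = (j : ℕ) * (2 * Real.pi * I) := by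
          push_cast; ring
        rw [e2, Complex.exp_nat_mul_two_pi_mul_I]
      rw [ht3, mul_pow, h1, mul_one, ← Complex.ofReal_pow, ← Complex.ofReal_sub, Complex.norm_real,
        Real.norm_eq_abs, abs_le]
      have h2 : (1 / 10000 : ℝ) ^ N ≤ t ^ N := pow_le_pow_left₀ (by norm_num) ht1 N
      have h3 : t ^ N ≤ 1 := pow_le_one₀ (by linarith) (by linarith)
      have h4 : (0:ℝ) ≤ (1 / 10000 : ℝ) ^ N := by positivity
      constructor <;> linarith
    refine ⟨hKE hzK, ?_⟩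
    have hsub : K ⊆ connectedComponentIn E (z j) := hKp.subset_connectedComponentIn hzK hKE
    have hb : Bornology.IsBounded (connectedComponentIn E (z j)) :=
      (E_bdd N hNpos).subset (connectedComponentIn_subset _ _)
    have h1 := Metric.dist_le_diam_of_mem hb (hsub hzK) (hsub hyK)
    rw [dist_eq_norm] at h1
    have h2 := norm_sub_norm_le (z j) y
    linarith
  have hinj : Function.Injective (fun j : Fin J => connectedComponentIn E (z j)) := by
    intro j k hjk
    simp only at hjk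
    have hj := mem_connectedComponentIn (hcomp j).1
    have hk := mem_connectedComponentIn (hcomp k).1
    rw [← hjk] at hk
    rcases lt_trichotomy j k with h | h | h
    · exact (separ N hNpos hev j k h (by have := k.2; omega) _ isPreconnected_connectedComponentIn
        (connectedComponentIn_subset _ _) _ _ hj hk (hz2 j) (hz2 k)).elim
    · exact h
    · exact (separ N hNpos hev k j h (by have := j.2; omega) _ isPreconnected_connectedComponentIn
        (connectedComponentIn_subset _ _) _ _ hk hj (hz2 k) (hz2 j)).elim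
  classical
  have hfin := hN0 (3 * N) (by omega) (P N) (P_monic N hNpos).1 (P_monic N hNpos).2
    (Finset.univ.image (fun j : Fin J => connectedComponentIn E (z j))) (by
      intro C hC
      obtain ⟨j, -, rfl⟩ := Finset.mem_image.mp hC
      exact ⟨⟨z j, (hcomp j).1, rfl⟩, (hcomp j).2⟩)
  rw [Finset.card_image_of_injective _ hinj, Finset.card_univ, Fintype.card_fin] at hfin
  have h2 : ((3 * N : ℕ) : ℝ) = 6 * L * J := by rw [hN]; push_cast; ring
  have h3 : 1 / (12 * (L : ℝ)) * (6 * L * J) = J / 2 := by field_simp; ring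
  have h4 : (0:ℝ) < J := by exact_mod_cast Nat.succ_pos N0
  rw [h2, h3] at hfin
  linarith

end Pool.Agent.S04674
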