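import Pool.Statements.S04676
-- import your own Pool.Agent.* helpers here

set_option autoImplicit false
open Pool Pool.MP_529e31_an

namespace Pool.Agent.S04676

def rr : ℕ → ℕ
  | 0 => 1
  | j + 1 => (j + 8 * rr j ^ 2 + 1).factorial + rr j + 1

lemma rr_mono : StrictMono rr := strictMono_nat_of_lt_succ fun j => by
  show rr j < (j + 8 * rr j ^ 2 + 1).factorial + rr j + 1
  omega

lemma rr_pos (j : ℕ) : 1 ≤ rr j := rr_mono.monotone (Nat.zero_le j)

lemma pow_le_exp {n : ℕ} {r : ℝ} (h : ((n + 1).factorial : ℝ) ≤ r) : r ^ n ≤ Real.exp r := by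
  have h0 : (0:ℝ) < (n + 1).factorial := by exact_mod_cast Nat.factorial_pos _
  have hr : 0 < r := by linarith
  refine le_trans ?_ (Real.pow_div_factorial_le_exp r hr.le (n + 1))
  rw [le_div_iff₀ h0, pow_succ]
  gcongr

theorem result :
    ¬ (∀ ρ : ℝ, 0 < ρ → ∀ S : Set ℂ,
      (∀ f : ℂ → ℂ, Differentiable ℂ f →
        (∃ A B : ℝ, 0 < A ∧ 0 < B ∧ ∀ z : ℂ, ‖f z‖ ≤ B * Real.exp (A * ‖z‖ ^ ρ)) →
        (Bornology.IsBounded (f '' S) ↔ Bornology.IsBounded (Set.range f))) →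
      ∀ k : ℂ → ℝ, Continuous k → (∀ z : ℂ, 0 < k z) →
        (∀ A : ℝ, 0 < A →
          Asymptotics.IsLittleO (Filter.cocompact ℂ) (fun z : ℂ => Real.exp (A * ‖z‖ ^ ρ)) k) →
        ∃ k' : ℂ → ℝ, Continuous k' ∧ (∀ z : ℂ, 0 < k' z) ∧
          (∀ A : ℝ, 0 < A →
            Asymptotics.IsLittleO (Filter.cocompact ℂ) (fun z : ℂ => Real.exp (A * ‖z‖ ^ ρ)) k') ∧
          ∃ C : ℝ, 0 < C ∧
            ∀ f : ℂ → ℂ, Differentiable ℂ f →
              (∃ A B : ℝ, 0 < A ∧ 0 < B ∧ ∀ z : ℂ, ‖f z‖ ≤ B * Real.exp (A * ‖z‖ ^ ρ)) →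
              (∀ z ∈ S, ‖f z‖ ≤ k' z) → ∀ z : ℂ, ‖f z‖ ≤ C * k z) := by
  intro H
  refine Exists.elim (H 1 one_pos (⋃ j, Metric.sphere (0:ℂ) (rr j)) ?_
    (fun z => Real.exp (‖z‖ ^ 2)) (by fun_prop) (fun z => Real.exp_pos _) ?_) ?_
  rotate_left 2
  · rintro k' ⟨hc, hp, ho, C, hC, hk⟩
    obtain ⟨M, hM⟩ : ∃ M : ℝ, ∀ z : ℂ, Real.exp ‖z‖ / k' z ≤ M := by
      have h1 := (ho 1 one_pos).bound one_pos
      obtain ⟨t, ht, h2⟩ := Filter.hasBasis_cocompact.eventually_iff.1 h1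
      have hcont : Continuous fun z : ℂ => Real.exp ‖z‖ / k' z :=
        Continuous.div (by fun_prop) hc fun z => (hp z).ne'
      obtain ⟨M, hM⟩ := ht.bddAbove_image hcont.continuousOn
      refine ⟨max M 1, fun z => ?_⟩
      by_cases hz : z ∈ t
      · exact le_max_of_le_left (hM ⟨z, hz, rfl⟩)
      · have h3 := h2 hz
        simp only [Real.rpow_one, one_mul, Real.norm_eq_abs, abs_of_pos (Real.exp_pos _),
          abs_of_pos (hp z)] at h3
        exact le_max_of_le_right ((div_le_one (hp z)).2 h3)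
    have hM0 : 0 < M := lt_of_lt_of_le (div_pos (Real.exp_pos _) (hp 0)) (hM 0)
    have hM' : ∀ z : ℂ, M⁻¹ * Real.exp ‖z‖ ≤ k' z := by
      intro z
      have := hM z
      rw [div_le_iff₀ (hp z)] at this
      rw [inv_mul_le_iff₀ hM0]; exact this
    obtain ⟨j, hj⟩ := pow_unbounded_of_one_lt (M * C) (by norm_num : (1:ℝ) < 2)
    set n := j + 8 * rr j ^ 2 with hn
    have hr : (1:ℝ) ≤ rr j := by exact_mod_cast rr_pos j
    have hnorm : ∀ z : ℂ, ‖((M⁻¹ : ℝ) : ℂ) * (z / (rr j : ℂ)) ^ n‖ = M⁻¹ * (‖z‖ / rr j) ^ n := by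
      intro z
      rw [norm_mul, norm_pow, norm_div, Complex.norm_real, Complex.norm_natCast,
        Real.norm_of_nonneg (inv_pos.2 hM0).le]
    have hle : ∀ z : ℂ, (‖z‖ / rr j) ^ n ≤ ‖z‖ ^ n := fun z =>
      pow_le_pow_left₀ (by positivity) (div_le_self (norm_nonneg _) hr) n
    have key := hk (fun z => ((M⁻¹ : ℝ) : ℂ) * (z / (rr j : ℂ)) ^ n) (by fun_prop) ?_ ?_
      (2 * (rr j : ℂ))
    · rw [hnorm] at key
      have e1 : ‖(2 * (rr j : ℂ))‖ = 2 * rr j := by simp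
      rw [e1, mul_div_assoc, div_self (by linarith), mul_one, inv_mul_le_iff₀ hM0, hn, pow_add,
        pow_mul] at key
      have e2 : Real.exp ((2 * (rr j : ℝ)) ^ 2) ≤ ((2:ℝ) ^ 8) ^ (rr j ^ 2) := by
        have : (2 * (rr j : ℝ)) ^ 2 = ((rr j ^ 2 : ℕ) : ℝ) * 4 := by push_cast; ring
        rw [this, Real.exp_nat_mul]
        refine pow_le_pow_left₀ (Real.exp_pos _).le ?_ _
        have h4 : Real.exp 4 = Real.exp 1 ^ 4 := by rw [← Real.exp_nat_mul]; norm_num
        have h5 : Real.exp 1 ≤ 4 := by linarith [Real.exp_one_lt_d9]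
        rw [h4]
        calc Real.exp 1 ^ 4 ≤ 4 ^ 4 := pow_le_pow_left₀ (Real.exp_pos _).le h5 _
          _ = 2 ^ 8 := by norm_num
      have e3 : (0:ℝ) < ((2:ℝ) ^ 8) ^ (rr j ^ 2) := by positivity
      generalize ((2:ℝ) ^ 8) ^ (rr j ^ 2) = q at *
      have : M * (C * Real.exp ((2 * (rr j : ℝ)) ^ 2)) ≤ M * (C * q) := by gcongr
      nlinarith
    · refine ⟨1, M⁻¹ * n.factorial, one_pos, by positivity, fun z => ?_⟩
      rw [hnorm, Real.rpow_one, one_mul, mul_assoc]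
      refine mul_le_mul_of_nonneg_left ((hle z).trans ?_) (inv_pos.2 hM0).le
      have := Real.pow_div_factorial_le_exp ‖z‖ (norm_nonneg z) n
      rw [div_le_iff₀ (by positivity)] at this
      linarith
    · intro z hz
      obtain ⟨i, hi⟩ := Set.mem_iUnion.1 hz
      rw [mem_sphere_zero_iff_norm] at hi
      rw [hnorm]
      refine le_trans (mul_le_mul_of_nonneg_left ?_ (inv_pos.2 hM0).le) (hM' z)
      rcases le_or_gt i j with h | h
      · have h1 : (rr i : ℝ) ≤ rr j := by exact_mod_cast rr_mono.monotone h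
        refine le_trans (pow_le_one₀ (by positivity) ?_) (Real.one_le_exp (norm_nonneg _))
        rw [hi, div_le_one (by linarith)]; exact h1
      · refine (hle z).trans (pow_le_exp ?_)
        have h1 : rr (j + 1) ≤ rr i := rr_mono.monotone h
        have h2 : (n + 1).factorial ≤ rr (j + 1) := by
          show _ ≤ (j + 8 * rr j ^ 2 + 1).factorial + rr j + 1
          rw [hn]; omega
        rw [hi]; exact_mod_cast h2.trans h1
  · intro f hf _
    refine ⟨fun h => ?_, fun h => h.subset (Set.image_subset_range _ _)⟩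
    obtain ⟨B, hB⟩ := isBounded_iff_forall_norm_le.1 h
    refine isBounded_iff_forall_norm_le.2 ⟨B, ?_⟩
    rintro _ ⟨z, rfl⟩
    obtain ⟨j, hj⟩ := exists_nat_gt ‖z‖
    have h1 : (j : ℝ) ≤ rr j := by exact_mod_cast rr_mono.id_le j
    have hr : (1:ℝ) ≤ rr j := by exact_mod_cast rr_pos j
    refine Complex.norm_le_of_forall_mem_frontier_norm_le (U := Metric.ball 0 (rr j))
      Metric.isBounded_ball hf.diffContOnCl (fun w hw => ?_) (subset_closure ?_)
    · rw [frontier_ball _ (by linarith)] at hw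
      exact hB _ ⟨w, Set.mem_iUnion.2 ⟨j, hw⟩, rfl⟩
    · rw [mem_ball_zero_iff]; linarith
  · intro A hA
    have h1 : Filter.Tendsto (fun r : ℝ => r ^ 2 - A * r) Filter.atTop Filter.atTop := by
      have : (fun r : ℝ => r ^ 2 - A * r) = fun r => r * (r + -A) := by funext r; ring
      rw [this]
      exact Filter.tendsto_id.atTop_mul_atTop₀ (Filter.tendsto_atTop_add_const_right _ _ Filter.tendsto_id)
    simp only [Real.rpow_one]
    exact Real.isLittleO_exp_comp_exp_comp.2 (h1.comp (tendsto_norm_cocompact_atTop (E := ℂ)))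

end Pool.Agent.S04676
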