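import Pool.Statements.S04677
-- import your own Pool.Agent.* helpers here

set_option autoImplicit false
open Pool Pool.MP_52d740_an

namespace Pool.Agent.S04677

open Filter Topology Finset

def sh (z : ℤ → ℕ) (m : ℤ) : ℕ := z (m + 1)

lemma sh_iter (j : ℕ) (z : ℤ → ℕ) : sh^[j] z = fun m => z (m + j) := by
  induction j with
  | zero => simp
  | succ j ih =>
    rw [Function.iterate_succ_apply', ih]
    funext m
    simp only [sh]
    congr 1; push_cast; ring

noncomputable def val (f : (ℤ → ℕ) → ℝ) (n : ℕ) (x : ℤ → ℕ) : ℝ :=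
  Real.exp (∑ j ∈ range n, f (sh^[j] x))

noncomputable def Z (A : Set (ℤ → ℕ)) (f : (ℤ → ℕ) → ℝ) (n : ℕ) : ℝ :=
  ∑ w : Fin n → Fin 3, sSup (val f n '' {x | x ∈ A ∧ ∀ i : Fin n, x ((i : ℕ) : ℤ) = (w i : ℕ)})

lemma Z_le {ι : Type} (A : Set (ℤ → ℕ)) (f : (ℤ → ℕ) → ℝ) (n : ℕ) (R : Finset ι)
    (c : ι → ℕ → ℕ) (E1 E2 : ℝ) (h1 : 0 ≤ E1) (h2 : 0 ≤ E2)
    (h : ∀ x ∈ A, val f n x ≤ E2 ∨ (val f n x ≤ E1 ∧ ∃ r ∈ R, ∀ i < n, c r i = x i)) :
    Z A f n ≤ 3 ^ n * E2 + R.card * E1 := by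
  classical
  have key : ∀ w : Fin n → Fin 3,
      sSup (val f n '' {x | x ∈ A ∧ ∀ i : Fin n, x ((i : ℕ) : ℤ) = (w i : ℕ)}) ≤
      E2 + ∑ r ∈ R, if (∀ i : Fin n, c r i = w i) then E1 else 0 := by
    intro w
    have h0 : 0 ≤ ∑ r ∈ R, if (∀ i : Fin n, c r i = w i) then E1 else 0 :=
      sum_nonneg fun r _ => by split_ifs <;> simp [h1]
    refine Real.sSup_le ?_ (by linarith)
    rintro _ ⟨x, ⟨hx, hw⟩, rfl⟩
    rcases h x hx with h3 | ⟨h3, r, hr, hc⟩
    · linarith
    · have := single_le_sum (f := fun r => if (∀ i : Fin n, c r i = w i) then E1 else 0)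
        (fun r _ => by split_ifs <;> simp [h1]) hr
      rw [if_pos fun i : Fin n => (hc i i.2).trans (hw i)] at this
      linarith
  refine (sum_le_sum fun w _ => key w).trans ?_
  rw [sum_add_distrib, sum_comm]
  refine add_le_add (by simp) ?_
  rw [← nsmul_eq_mul, ← sum_const]
  refine sum_le_sum fun r _ => ?_
  rw [← sum_filter, sum_const, nsmul_eq_mul]
  refine mul_le_of_le_one_left h1 ?_
  norm_cast
  refine card_le_one.2 fun a ha b hb => ?_
  funext i
  exact Fin.ext (((mem_filter.1 ha).2 i).symm.trans ((mem_filter.1 hb).2 i))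

lemma Z_ge {ι : Type} (A : Set (ℤ → ℕ)) (hA : ∀ x ∈ A, ∀ i, x i < 3) (f : (ℤ → ℕ) → ℝ) (n : ℕ)
    (B : ℝ) (hB : ∀ x ∈ A, val f n x ≤ B) (R : Finset ι) (x : ι → ℤ → ℕ) (hx : ∀ r, x r ∈ A)
    (hinj : ∀ r ∈ R, ∀ r' ∈ R, (∀ i : ℕ, i < n → x r i = x r' i) → r = r') :
    ∑ r ∈ R, val f n (x r) ≤ Z A f n := by
  classical
  let ω : ι → Fin n → Fin 3 := fun r i => ⟨x r i, hA _ (hx r) _⟩
  let S : (Fin n → Fin 3) → ℝ := fun w =>
    sSup (val f n '' {x | x ∈ A ∧ ∀ i : Fin n, x ((i : ℕ) : ℤ) = (w i : ℕ)})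
  calc _ ≤ ∑ r ∈ R, S (ω r) := sum_le_sum fun r _ =>
        le_csSup ⟨B, by rintro _ ⟨y, hy, rfl⟩; exact hB y hy.1⟩ ⟨x r, ⟨hx r, fun i => rfl⟩, rfl⟩
    _ = ∑ w ∈ R.image ω, S w := by
        refine (sum_image fun r hr r' hr' h => hinj r hr r' hr' fun i hi => ?_).symm
        exact congrArg Fin.val (congrFun h ⟨i, hi⟩)
    _ ≤ _ := sum_le_sum_of_subset_of_nonneg (subset_univ _) fun w _ _ =>
        Real.sSup_nonneg (by rintro _ ⟨y, -, rfl⟩; exact (Real.exp_pos _).le)

def len (n : ℕ) : ℕ := n * 2 ^ n + 1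

lemma len_inj : Function.Injective len := by
  apply StrictMono.injective
  refine strictMono_nat_of_lt_succ fun n => ?_
  have : 0 < 2 ^ n := by positivity
  simp only [len, pow_succ]
  nlinarith

noncomputable def g (l : ℕ) : ℕ := Function.invFun len l

lemma g_len (n : ℕ) : g (len n) = n := Function.leftInverse_invFun len_inj n

noncomputable def p (l : ℕ) (t : ℤ) : ℕ :=
  if t % l = 0 then 2 else
    if (((t % l).toNat - 1) / g l).testBit (((t % l).toNat - 1) % g l) then 1 else 0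

lemma p_lt (l : ℕ) (t : ℤ) : p l t < 3 := by unfold p; split_ifs <;> norm_num

lemma p_two (l : ℕ) (t : ℤ) : p l t = 2 ↔ (l : ℤ) ∣ t := by
  rw [Int.dvd_iff_emod_eq_zero]; unfold p; split_ifs <;> simp [*]

lemma p_congr (l : ℕ) {t u : ℤ} (h : (l : ℤ) ∣ t - u) : p l t = p l u := by
  have : t % l = u % l :=
    Int.emod_eq_emod_iff_emod_sub_eq_zero.2 (Int.emod_eq_zero_of_dvd h)
  simp only [p, this]

def G (c : ℕ) (x : ℤ → ℕ) (i : ℤ) (l : ℕ) : Prop :=
  x i = c ∧ x (i + l) = c ∧ ∀ s : ℕ, 0 < s → s < l → x (i + s) ≠ c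

def X : Set (ℤ → ℕ) :=
  {x | (∀ i, x i < 3) ∧ ∀ (i : ℤ) (l : ℕ), 0 < l → G 2 x i l → ∀ t, x (i + t) = p l t}

lemma G_clopen (c : ℕ) (i : ℤ) (l : ℕ) : IsClopen {x | G c x i l} := by
  have h : ∀ j : ℤ, IsClopen {x : ℤ → ℕ | x j = c} := fun j =>
    (isClopen_discrete {c}).preimage (continuous_apply j)
  have : {x | G c x i l} = {x | x i = c} ∩ ({x | x (i + l) = c} ∩
      ⋂ s ∈ Finset.Ioo 0 l, {x | x (i + s) = c}ᶜ) := by
    ext x; simp [G]
  rw [this]
  exact (h _).inter ((h _).inter (isClopen_biInter_finset fun s _ => (h _).compl))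

lemma X_closed : IsClosed X := by
  have : X = (⋂ i, {x : ℤ → ℕ | x i < 3}) ∩ ⋂ (i : ℤ) (l : ℕ) (_ : 0 < l) (t : ℤ),
      ({x | G 2 x i l}ᶜ ∪ {x | x (i + t) = p l t}) := by
    ext x
    simp only [X, Set.mem_ofPred_eq, Set.mem_inter_iff, Set.mem_iInter, Set.mem_union,
      Set.mem_compl_iff, ← imp_iff_not_or]
    exact and_congr Iff.rfl ⟨fun h i l hl t hg => h i l hl hg t, fun h i l hl hg t => h i l hl t hg⟩
  rw [this]
  refine (isClosed_iInter fun i => ?_).inter (isClosed_iInter fun i => isClosed_iInter fun l =>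
    isClosed_iInter fun _ => isClosed_iInter fun t => (G_clopen 2 i l).compl.isClosed.union ?_)
  · exact (isClosed_discrete {a | a < 3}).preimage (continuous_apply i)
  · exact isClosed_eq (continuous_apply (i + t)) continuous_const

lemma X_compact : IsCompact X :=
  (isCompact_univ_pi fun _ : ℤ => (Set.finite_Iio 3).isCompact).of_isClosed_subset X_closed
    fun _ hx i _ => hx.1 i

lemma X_shift {x : ℤ → ℕ} (hx : x ∈ X) (r : ℤ) : (fun m => x (m + r)) ∈ X := by
  refine ⟨fun i => hx.1 _, fun i l hl ⟨h1, h2, h3⟩ t => ?_⟩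
  have := hx.2 (i + r) l hl ⟨h1, by rw [add_right_comm]; exact h2, fun s a b => by
    rw [add_right_comm]; exact h3 s a b⟩ t
  rw [add_right_comm] at this
  exact this

lemma p_mem (l : ℕ) (hl : 0 < l) : p l ∈ X := by
  refine ⟨p_lt l, fun i l' hl' ⟨h1, h2, h3⟩ t => ?_⟩
  rw [p_two] at h1 h2
  have h4 : l ∣ l' := by exact_mod_cast (dvd_add_right h1).1 h2
  have h5 : l = l' := by
    by_contra hne
    exact h3 l hl (lt_of_le_of_ne (Nat.le_of_dvd hl' h4) hne)
      ((p_two _ _).2 (dvd_add h1 (dvd_refl _)))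
  subst h5
  exact p_congr l (by simpa using h1)

def π (x : ℤ → ℕ) : ℤ → ℕ := fun i => if x i = 2 then 1 else 0

lemma π_cont : Continuous π := continuous_pi fun i =>
  (continuous_of_discreteTopology (f := fun a : ℕ => if a = 2 then 1 else 0)).comp
    (continuous_apply i)

lemma π_one (x : ℤ → ℕ) (i : ℤ) : π x i = 1 ↔ x i = 2 := by unfold π; split_ifs <;> simp [*]

lemma G_π (x : ℤ → ℕ) (i : ℤ) (l : ℕ) : G 1 (π x) i l ↔ G 2 x i l := by simp [G, π_one]

lemma Y_lt : ∀ y ∈ π '' X, ∀ i, y i < 3 := by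
  rintro _ ⟨x, -, rfl⟩ i
  unfold π; split_ifs <;> norm_num

lemma Y_word (n : ℕ) {x : ℤ → ℕ} (hx : x ∈ X) : ∃ r ∈ range (n + 1) ×ˢ range (n + 1),
    ∀ i < n, (if r.1 ≤ i ∧ r.2 ∣ i - r.1 then 1 else 0) = π x (i : ℕ) := by
  classical
  by_cases h0 : ∃ a : ℕ, a < n ∧ x a = 2
  swap
  · refine ⟨(n, 0), by simp, fun i hi => ?_⟩
    rw [if_neg (by omega), π, if_neg fun h => h0 ⟨i, hi, h⟩]
  obtain ⟨ha1, ha2⟩ := Nat.find_spec h0
  set a := Nat.find h0 with ha
  have hmin : ∀ i < a, x (i : ℕ) ≠ 2 := fun i hi h => Nat.find_min h0 hi ⟨by omega, h⟩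
  by_cases h1 : ∃ s : ℕ, 0 < s ∧ a + s < n ∧ x (a + s) = 2
  swap
  · refine ⟨(a, 0), by simp; omega, fun i hi => ?_⟩
    simp only [π, zero_dvd_iff]
    refine if_congr ⟨fun h => ?_, fun h => ?_⟩ rfl rfl
    · have : i = a := by omega
      rw [this]; exact ha2
    · by_contra hc
      rcases lt_or_ge i a with h2 | h2
      · exact hmin i h2 h
      · refine h1 ⟨i - a, by omega, by omega, ?_⟩
        rw [← h]; congr 1; omega
  obtain ⟨hl1, hl2, hl3⟩ := Nat.find_spec h1
  set l := Nat.find h1 with hl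
  have hG := hx.2 a l hl1 ⟨ha2, hl3, fun s s1 s2 h => Nat.find_min h1 s2 ⟨s1, by omega, h⟩⟩
  refine ⟨(a, l), by simp; omega, fun i hi => ?_⟩
  simp only [π]
  rcases lt_or_ge i a with h2 | h2
  · rw [if_neg (by omega), if_neg (hmin i h2)]
  · have := hG ((i - a : ℕ) : ℤ)
    rw [show (a : ℤ) + ((i - a : ℕ) : ℤ) = i by omega] at this
    simp only [this, p_two, Int.natCast_dvd_natCast, h2, true_and]

lemma period_sum (u : ℕ → ℝ) (l : ℕ) (h : ∀ j, u (j + l) = u j) (q r : ℕ) :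
    ∑ j ∈ range (q * l), u (j + r) = q * ∑ j ∈ range l, u j := by
  have h1 : ∀ r, ∑ j ∈ range l, u (j + r) = ∑ j ∈ range l, u j := by
    intro r
    induction r with
    | zero => rfl
    | succ r ih =>
      have e1 := sum_range_succ (fun j => u (j + r)) l
      have e2 := sum_range_succ' (fun j => u (j + r)) l
      simp only [zero_add] at e2
      rw [add_comm l r, h] at e1
      have e3 : ∑ j ∈ range l, u (j + (r + 1)) = ∑ j ∈ range l, u (j + 1 + r) :=
        sum_congr rfl fun j _ => by congr 1; omega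
      linarith
  induction q with
  | zero => simp
  | succ q ih =>
    rw [add_mul, one_mul, sum_range_add, ih, Nat.cast_add, add_mul, Nat.cast_one, one_mul,
      ← h1 (q * l + r)]
    congr 1
    exact sum_congr rfl fun j _ => by congr 1; omega

lemma block_sum (u : ℕ → ℝ) (n J : ℕ) :
    ∑ j ∈ range J, ∑ i ∈ range n, u (j * n + i) = ∑ m ∈ range (J * n), u m := by
  induction J with
  | zero => simp
  | succ J ih => rw [sum_range_succ, ih, add_mul, one_mul, sum_range_add]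

lemma val_le {A : Set (ℤ → ℕ)} (hA : ∀ x ∈ A, ∀ j : ℕ, sh^[j] x ∈ A) {f : (ℤ → ℕ) → ℝ} {B : ℝ}
    (hB : ∀ x ∈ A, f x ≤ B) (n : ℕ) : ∀ x ∈ A, val f n x ≤ Real.exp (n * B) := by
  intro x hx
  refine Real.exp_le_exp.2 ((sum_le_sum fun j _ => hB _ (hA x hx j)).trans ?_)
  simp

lemma X_it : ∀ x ∈ X, ∀ j : ℕ, sh^[j] x ∈ X := fun x hx j => by rw [sh_iter]; exact X_shift hx _

lemma Y_it : ∀ y ∈ π '' X, ∀ j : ℕ, sh^[j] y ∈ π '' X := by
  rintro _ ⟨x, hx, rfl⟩ j
  exact ⟨_, X_it x hx j, by rw [sh_iter, sh_iter]; rfl⟩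

lemma avg_nonneg (F : (ℤ → ℕ) → ℝ) (B : ℝ) (hB : ∀ x ∈ X, |F x| ≤ B)
    (H : ∀ φ : (ℤ → ℕ) → ℝ, Continuous φ → ∃ L : ℝ,
      Tendsto (fun n : ℕ => Real.log (Z (π '' X) φ n) / n) atTop (𝓝 L) ∧
      Tendsto (fun n : ℕ => Real.log (Z X (fun x => φ (π x) + F x) n) / n) atTop (𝓝 L))
    (l : ℕ) (hl : 0 < l) : 0 ≤ ∑ j ∈ range l, F (sh^[j] (p l)) := by
  classical
  by_contra hneg
  set A := ∑ j ∈ range l, F (sh^[j] (p l)) with hA
  have hA0 : A < 0 := not_le.1 hneg
  have hB0 : 0 ≤ B := (abs_nonneg _).trans (hB _ (p_mem l hl))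
  set M := B + 2 - A with hM
  have hM0 : 0 ≤ M := by linarith
  let C : Set (ℤ → ℕ) := ⋃ a ∈ range l, {y | G 1 y (-(a : ℤ)) l}
  have hC : IsClopen C := isClopen_biUnion_finset fun a _ => G_clopen 1 _ l
  let φ : (ℤ → ℕ) → ℝ := fun y => if y ∈ C then 0 else -M
  have hφ : Continuous φ := by
    refine Continuous.if ?_ continuous_const continuous_const
    intro a ha
    have : frontier C = ∅ := hC.frontier_eq
    exact absurd (this ▸ ha : a ∈ (∅ : Set _)) (Set.notMem_empty a)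
  have hφ0 : ∀ y, φ y ≤ 0 := fun y => by simp only [φ]; split_ifs <;> linarith
  obtain ⟨L, h1, h2⟩ := H φ hφ
  have hl' : (0:ℝ) < l := by exact_mod_cast hl
  have L0 : 0 ≤ L := by
    refine ge_of_tendsto' h1 fun n => div_nonneg (Real.log_nonneg ?_) (Nat.cast_nonneg n)
    have := Z_ge (π '' X) Y_lt φ n _ (val_le Y_it (fun y _ => hφ0 y) n) {()} (fun _ => π (p l))
      (fun _ => ⟨_, p_mem l hl, rfl⟩) (fun _ _ _ _ _ => rfl)
    rw [sum_singleton, val, sum_eq_zero, Real.exp_zero] at this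
    · exact this
    intro j _
    refine if_pos (Set.mem_biUnion (x := j % l) (mem_coe.2 (mem_range.2 (Nat.mod_lt j hl))) ?_)
    have hd : (l : ℤ) ∣ -((j % l : ℕ) : ℤ) + j := by
      refine ⟨(j / l : ℕ), ?_⟩
      have := Nat.mod_add_div j l
      push_cast at this ⊢
      zify at this
      linarith
    rw [sh_iter]
    refine (G_π (fun m => p l (m + j)) _ l).2 ⟨(p_two _ _).2 hd, (p_two _ _).2 ?_, fun s s1 s2 h => ?_⟩
    · rw [add_right_comm]; exact dvd_add hd (dvd_refl _)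
    · rw [p_two, add_right_comm, dvd_add_right hd, Int.natCast_dvd_natCast] at h
      exact absurd (Nat.le_of_dvd s1 h) (by omega)
  have up : ∀ q : ℕ, Z X (fun x => φ (π x) + F x) (q * l) ≤ (l + 1) * Real.exp (q * A) := by
    intro q
    have := Z_le X (fun x => φ (π x) + F x) (q * l) (range l) (fun r i => p l (i + r))
      (Real.exp (q * A)) (Real.exp ((q * l : ℕ) * (B - M))) (Real.exp_pos _).le (Real.exp_pos _).le
      (by
        intro x hx
        by_cases hc : ∃ j : ℕ, π (sh^[j] x) ∈ C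
        · right
          obtain ⟨j, hj⟩ := hc
          obtain ⟨a, -, ha⟩ := Set.mem_iUnion₂.1 hj
          have h3 := (X_it x hx j).2 _ l hl ((G_π _ _ _).1 ha)
          rw [sh_iter] at h3
          have hl0 : (l : ℤ) ≠ 0 := by exact_mod_cast hl.ne'
          have hr0 := Int.emod_nonneg ((a : ℤ) - j) hl0
          have hr1 := Int.emod_lt_of_pos ((a : ℤ) - j) (show (0:ℤ) < l by exact_mod_cast hl)
          set r := (((a : ℤ) - j) % l).toNat with hr
          have hr2 : (r : ℤ) = ((a : ℤ) - j) % l := Int.toNat_of_nonneg hr0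
          have hx' : x = fun t => p l (t + r) := by
            funext t
            have := h3 (t + a - j)
            simp only at this
            rw [show -(a : ℤ) + (t + a - j) + j = t by ring] at this
            rw [this]
            apply p_congr
            rw [hr2, Int.emod_def]
            exact ⟨((a : ℤ) - j) / l, by ring⟩
          refine ⟨Real.exp_le_exp.2 ?_, r, mem_range.2 (by omega), fun i _ => by rw [hx']⟩
          have h4 := period_sum (fun j => F (sh^[j] (p l))) l (fun j => by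
            simp only [sh_iter]
            congr 1; funext m
            exact p_congr l ⟨1, by push_cast; ring⟩) q r
          rw [← h4]
          refine sum_le_sum fun j _ => ?_
          have : sh^[j] x = sh^[j + r] (p l) := by
            rw [hx', sh_iter, sh_iter]; funext m; congr 1; push_cast; ring
          rw [← this]
          linarith [hφ0 (π (sh^[j] x))]
        · left
          refine Real.exp_le_exp.2 ((sum_le_sum (g := fun _ => B - M) fun j _ => ?_).trans
            (by rw [sum_const, card_range, nsmul_eq_mul]))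
          have h3 : φ (π (sh^[j] x)) = -M := if_neg fun h => hc ⟨j, h⟩
          have := (abs_le.1 (hB _ (X_it x hx j))).2
          simp only [h3]; linarith)
    rw [card_range] at this
    have h3 : (3:ℝ) ^ (q * l) * Real.exp ((q * l : ℕ) * (B - M)) ≤ Real.exp (q * A) := by
      have h4 : (3:ℝ) ≤ Real.exp 2 := by linarith [Real.add_one_le_exp (2:ℝ)]
      calc _ ≤ Real.exp 2 ^ (q * l) * Real.exp ((q * l : ℕ) * (B - M)) := by gcongr
        _ = Real.exp ((q * l : ℕ) * A) := by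
            rw [← Real.exp_nat_mul, ← Real.exp_add, hM]; congr 1; ring
        _ ≤ _ := by
            apply Real.exp_le_exp.2
            have : (q : ℝ) ≤ (q * l : ℕ) := by exact_mod_cast Nat.le_mul_of_pos_right q hl
            nlinarith
    linarith
  have pos : ∀ n, 0 < Z X (fun x => φ (π x) + F x) n := fun n => by
    have := Z_ge X (fun x hx => hx.1) (fun x => φ (π x) + F x) n _
      (val_le (B := B) X_it (fun x hx => by linarith [hφ0 (π x), (abs_le.1 (hB x hx)).2]) n)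
      {()} (fun _ => p l) (fun _ => p_mem l hl) (fun _ _ _ _ _ => rfl)
    rw [sum_singleton] at this
    exact lt_of_lt_of_le (Real.exp_pos _) this
  have h3 := h2.comp (tendsto_id.atTop_mul_const' hl)
  have h4 : Tendsto (fun q : ℕ => Real.log (l + 1) / l / q + A / l) atTop (𝓝 (0 + A / l)) :=
    (tendsto_const_div_atTop_nhds_zero_nat _).add_const _
  have h5 : L ≤ 0 + A / l := by
    refine le_of_tendsto_of_tendsto h3 h4 ?_
    filter_upwards [eventually_gt_atTop 0] with q hq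
    have hq' : (0:ℝ) < q := by exact_mod_cast hq
    have := Real.log_le_log (pos _) (up q)
    rw [Real.log_mul (by positivity) (Real.exp_pos _).ne', Real.log_exp] at this
    show Real.log (Z X _ (q * l)) / ((q * l : ℕ) : ℝ) ≤ _
    push_cast
    calc _ ≤ (Real.log (l + 1) + q * A) / (q * l) := by gcongr
      _ = _ := by field_simp
  have : A / l < 0 := div_neg_of_neg_of_pos hA0 hl'
  linarith

lemma p_block (n j i : ℕ) (hj : j < 2 ^ n) (hi : i < n) :
    p (len n) ((i : ℤ) + ((j * n + 1 : ℕ) : ℤ)) = if j.testBit i then 1 else 0 := by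
  have h1 : j * n + i + 1 < len n := by
    have : (j + 1) * n ≤ 2 ^ n * n := Nat.mul_le_mul_right n hj
    simp only [len]; nlinarith
  have h2 : ((i : ℤ) + ((j * n + 1 : ℕ) : ℤ)) % (len n : ℕ) = ((j * n + i + 1 : ℕ) : ℤ) := by
    rw [show (i : ℤ) + ((j * n + 1 : ℕ) : ℤ) = ((j * n + i + 1 : ℕ) : ℤ) by push_cast; ring]
    exact Int.emod_eq_of_lt (by positivity) (by exact_mod_cast h1)
  rw [p, h2, if_neg (by omega), Int.toNat_natCast, Nat.add_sub_cancel, g_len, add_comm, mul_comm,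
    Nat.add_mul_div_left _ _ (by omega), Nat.add_mul_mod_self_left, Nat.div_eq_of_lt hi,
    Nat.mod_eq_of_lt hi, zero_add]

lemma pow_gap (n : ℕ) : (3 / 2 : ℝ) ^ n + n / 2 ≤ 2 ^ n := by
  induction n with
  | zero => simp
  | succ n ih =>
    have : (1:ℝ) ≤ (3 / 2) ^ n := one_le_pow₀ (by norm_num)
    have : (0:ℝ) ≤ n := Nat.cast_nonneg n
    rw [pow_succ, pow_succ]; push_cast; linarith

lemma main (F : (ℤ → ℕ) → ℝ) (hF : ContinuousOn F X)
    (H : ∀ φ : (ℤ → ℕ) → ℝ, Continuous φ → ∃ L : ℝ,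
      Tendsto (fun n : ℕ => Real.log (Z (π '' X) φ n) / n) atTop (𝓝 L) ∧
      Tendsto (fun n : ℕ => Real.log (Z X (fun x => φ (π x) + F x) n) / n) atTop (𝓝 L)) :
    False := by
  classical
  obtain ⟨B, hB⟩ := X_compact.exists_bound_of_continuousOn hF
  have hav := avg_nonneg F B hB H
  obtain ⟨L, h1, h2⟩ := H (fun _ => 0) continuous_const
  have L0 : L ≤ 0 := by
    have h3 : Tendsto (fun n : ℕ => 2 * (Real.log (n + 1) / n)) atTop (𝓝 (2 * 0)) := by
      refine Tendsto.const_mul 2 ?_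
      have h4 := (Real.tendsto_pow_log_div_mul_add_atTop 1 (-1) 1 one_ne_zero).comp
        (tendsto_atTop_add_const_right atTop (1:ℝ) tendsto_natCast_atTop_atTop)
      refine h4.congr fun n => ?_
      simp
    rw [mul_zero] at h3
    refine le_of_tendsto_of_tendsto' h1 h3 fun n => ?_
    have hv : ∀ y, val (fun _ => 0) n y = 1 := fun y => by simp [val]
    have u1 := Z_le (π '' X) (fun _ => 0) n (range (n + 1) ×ˢ range (n + 1))
      (fun r i => if r.1 ≤ i ∧ r.2 ∣ i - r.1 then 1 else 0) 1 0 zero_le_one le_rfl (by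
        rintro _ ⟨x, hx, rfl⟩
        exact Or.inr ⟨(hv _).le, Y_word n hx⟩)
    have u2 := Z_ge (π '' X) Y_lt (fun _ => 0) n 1 (fun y _ => (hv y).le) {()} (fun _ => π (p 1))
      (fun _ => ⟨_, p_mem 1 one_pos, rfl⟩) (fun _ _ _ _ _ => rfl)
    rw [sum_singleton, hv] at u2
    rw [card_product, card_range] at u1
    push_cast at u1
    have u3 := Real.log_le_log (by linarith) u1
    rw [mul_zero, zero_add, mul_one, Real.log_mul (by positivity) (by positivity)] at u3
    rw [← mul_div_assoc]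
    exact div_le_div_of_nonneg_right (by linarith) (Nat.cast_nonneg n)
  have L1 : Real.log (3 / 2) ≤ L := by
    refine ge_of_tendsto h2 ?_
    filter_upwards [eventually_gt_atTop 0,
      (tendsto_natCast_atTop_atTop (R := ℝ)).eventually_ge_atTop (2 * B)] with n hn hnB
    have hl : 0 < len n := Nat.succ_pos _
    have u1 := Z_ge X (fun x hx => hx.1) (fun x => (fun _ => (0:ℝ)) (π x) + F x) n _
      (val_le (B := B) X_it (fun x hx => by linarith [(abs_le.1 (hB x hx)).2]) n)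
      (range (2 ^ n)) (fun j => sh^[j * n + 1] (p (len n))) (fun j => X_it _ (p_mem _ hl) _) (by
        intro j hj j' hj' h
        rw [mem_range] at hj hj'
        refine Nat.eq_of_testBit_eq fun i => ?_
        rcases lt_or_ge i n with hi | hi
        · have := h i hi
          simp only [sh_iter] at this
          rw [p_block n j i hj hi, p_block n j' i hj' hi] at this
          cases h3 : j.testBit i <;> cases h4 : j'.testBit i <;> simp_all
        · have h5 : 2 ^ n ≤ 2 ^ i := Nat.pow_le_pow_right (by norm_num) hi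
          rw [Nat.testBit_eq_false_of_lt (by omega), Nat.testBit_eq_false_of_lt (by omega)])
    have u2 := hav (len n) hl
    rw [len, sum_range_succ', mul_comm,
      ← block_sum (fun m => F (sh^[m + 1] (p (2 ^ n * n + 1)))) n (2 ^ n)] at u2
    have u3 : ∑ j ∈ range (2 ^ n), (1 + ∑ i ∈ range n, F (sh^[j * n + i + 1] (p (2 ^ n * n + 1)))) ≤
        ∑ j ∈ range (2 ^ n), val (fun x => (fun _ => (0:ℝ)) (π x) + F x) n
          (sh^[j * n + 1] (p (len n))) := by
      refine sum_le_sum fun j _ => ?_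
      rw [add_comm]
      refine le_trans (le_of_eq ?_) (Real.add_one_le_exp _)
      congr 1
      refine sum_congr rfl fun i _ => ?_
      show _ = 0 + F _
      rw [zero_add, ← Function.iterate_add_apply, len, mul_comm n]
      congr 2; omega
    rw [sum_add_distrib, sum_const, card_range, nsmul_eq_mul, mul_one] at u3
    have u4 := (abs_le.1 (hB _ (X_it _ (p_mem (2 ^ n * n + 1) (Nat.succ_pos _)) 0))).2
    have u5 := pow_gap n
    push_cast at u3
    have u6 : (3 / 2 : ℝ) ^ n ≤ Z X (fun x => (fun _ => (0:ℝ)) (π x) + F x) n := by linarith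
    have u7 := Real.log_le_log (by positivity) u6
    rw [Real.log_pow] at u7
    rw [le_div_iff₀ (by exact_mod_cast hn)]
    linarith
  have : 0 < Real.log (3 / 2) := Real.log_pos (by norm_num)
  linarith

theorem result :
    ∃ (k : ℕ) (X Y : Set (ℤ → ℕ)) (π : (ℤ → ℕ) → (ℤ → ℕ)),
      X.Nonempty ∧ IsClosed X ∧ (∀ x : ℤ → ℕ, x ∈ X ↔ (fun m : ℤ => x (m + 1)) ∈ X) ∧
      (∀ x ∈ X, ∀ i : ℤ, x i < k) ∧
      Y.Nonempty ∧ IsClosed Y ∧ (∀ y : ℤ → ℕ, y ∈ Y ↔ (fun m : ℤ => y (m + 1)) ∈ Y) ∧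
      (∀ y ∈ Y, ∀ i : ℤ, y i < k) ∧
      ContinuousOn π X ∧ Set.MapsTo π X Y ∧ Set.SurjOn π X Y ∧
      (∀ x ∈ X, π (fun m : ℤ => x (m + 1)) = (fun m : ℤ => π x (m + 1))) ∧
      ¬ ∃ F : (ℤ → ℕ) → ℝ, ContinuousOn F X ∧
        ∀ φ : (ℤ → ℕ) → ℝ, ContinuousOn φ Y →
          ∃ L : ℝ,
          Filter.Tendsto (fun n : ℕ => Real.log (∑ w : Fin n → Fin k,
            sSup ((fun x : ℤ → ℕ => Real.exp (∑ j ∈ Finset.range n,
              φ ((fun (z : ℤ → ℕ) (m : ℤ) => z (m + 1))^[j] x))) ''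
              {x : ℤ → ℕ | x ∈ Y ∧ ∀ i : Fin n, x ((i : ℕ) : ℤ) = ((w i : ℕ))})) / (n : ℝ))
            Filter.atTop (nhds L) ∧
          Filter.Tendsto (fun n : ℕ => Real.log (∑ w : Fin n → Fin k,
            sSup ((fun x : ℤ → ℕ => Real.exp (∑ j ∈ Finset.range n,
              (φ (π ((fun (z : ℤ → ℕ) (m : ℤ) => z (m + 1))^[j] x))
                + F ((fun (z : ℤ → ℕ) (m : ℤ) => z (m + 1))^[j] x)))) ''
              {x : ℤ → ℕ | x ∈ X ∧ ∀ i : Fin n, x ((i : ℕ) : ℤ) = ((w i : ℕ))})) / (n : ℝ))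
            Filter.atTop (nhds L) := by
  refine ⟨3, X, π '' X, π, ⟨_, p_mem 1 one_pos⟩, X_closed, fun x => ⟨fun h => X_shift h 1, fun h => ?_⟩,
    fun x hx => hx.1, ⟨_, _, p_mem 1 one_pos, rfl⟩, (X_compact.image π_cont).isClosed,
    fun y => ⟨?_, ?_⟩, Y_lt, π_cont.continuousOn, Set.mapsTo_image _ _, Set.surjOn_image _ _,
    fun x _ => rfl, ?_⟩
  · simpa using X_shift h (-1)
  · rintro ⟨x, hx, rfl⟩
    exact ⟨_, X_shift hx 1, rfl⟩
  · rintro ⟨x, hx, h⟩
    refine ⟨_, X_shift hx (-1), ?_⟩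
    funext m
    have := congrFun h (m + -1)
    simp only [neg_add_cancel_right] at this
    exact this
  · rintro ⟨F, hF, H⟩
    exact main F hF fun φ hφ => H φ hφ.continuousOn

end Pool.Agent.S04677
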