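import Pool.Statements.S04685
import Pool.Agent.H.MP_0d212c.E

set_option autoImplicit false
open Pool Pool.MP_539630_an

namespace Pool.Agent.S04685

theorem result :
  ∀ (X : Type) [NormedAddCommGroup X] [NormedSpace ℝ X] [CompleteSpace X],
    (∃ ρ : (X →L[ℝ] ℝ) → (X →L[ℝ] ℝ) → ℝ,
      (∀ f g : X →L[ℝ] ℝ, ‖f‖ ≤ 1 → ‖g‖ ≤ 1 → (ρ f g = 0 ↔ f = g)) ∧
      (∀ f g : X →L[ℝ] ℝ, ‖f‖ ≤ 1 → ‖g‖ ≤ 1 → ρ f g = ρ g f) ∧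
      (∀ f g k : X →L[ℝ] ℝ, ‖f‖ ≤ 1 → ‖g‖ ≤ 1 → ‖k‖ ≤ 1 →
          ρ f k ≤ ρ f g + ρ g k) ∧
      ∀ ε : ℝ, 0 < ε → ∀ M : Set (X →L[ℝ] ℝ), M.Nonempty →
        M ⊆ {f : X →L[ℝ] ℝ | ‖f‖ ≤ 1} →
        ∃ Ω : Set (X →L[ℝ] ℝ),
          @IsOpen (X →L[ℝ] ℝ)
            (TopologicalSpace.induced (fun f : X →L[ℝ] ℝ => (⇑f : X → ℝ))
              Pi.topologicalSpace) Ω ∧
          (M ∩ Ω).Nonempty ∧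
          ∀ f ∈ M ∩ Ω, ∀ g ∈ M ∩ Ω, ρ f g < ε) →
    ∃ b : X → ℝ, (∃ K : NNReal, LipschitzWith K b) ∧
      Bornology.IsBounded (Function.support b) ∧ (∃ x : X, b x ≠ 0) ∧
      ∀ x : X, ∃ L : X →L[ℝ] ℝ, ∀ h : X,
        HasDerivAt (fun t : ℝ => b (x + t • h)) (L h) 0 := by
  rintro X _ _ _ ⟨ρ, r1, r2, r3, r4⟩
  refine H.MP_0d212c.gat_bump (fun f g => ρ (H.MP_0d212c.evB f) (H.MP_0d212c.evB g))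
    (fun f g h => ?_) fun ε hε B hB => ?_
  · have a := r3 _ _ _ f.2 g.2 f.2
    rw [(r1 _ _ f.2 f.2).2 rfl, r2 _ _ g.2 f.2] at a
    exact Subtype.ext (WeakDual.toStrongDual.injective ((r1 _ _ f.2 g.2).1
      (le_antisymm h (by linarith))))
  · obtain ⟨Ω, o1, ⟨_, ⟨f, f1, rfl⟩, f2⟩, o3⟩ := r4 ε hε (H.MP_0d212c.evB '' B) (hB.2.image _) (by
      rintro _ ⟨f, -, rfl⟩
      exact f.2)
    obtain ⟨V, v1, rfl⟩ := isOpen_induced_iff.1 o1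
    exact ⟨_, v1.preimage (continuous_pi H.MP_0d212c.evB_cont), ⟨f, f2, f1⟩,
      fun f hf g hg => (o3 _ ⟨⟨f, hf.2, rfl⟩, hf.1⟩ _ ⟨⟨g, hg.2, rfl⟩, hg.1⟩).le⟩

end Pool.Agent.S04685
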