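import Pool.Statements.S04693
import Pool.Agent.H.MP_53fbd4_an.A

set_option autoImplicit false
open Pool Pool.MP_53fbd4_an

namespace Pool.Agent.S04693

theorem result :
    ∀ (X : Type) [NormedAddCommGroup X] [NormedSpace ℝ X] [CompleteSpace X] (e : ℕ → X),
      (∀ x : X, ∃! a : ℕ → ℝ, HasSum (fun n => a n • e n) x) →
      (∀ (s : Finset ℕ) (a ε : ℕ → ℝ), (∀ n, ε n = 1 ∨ ε n = -1) →
          ‖∑ n ∈ s, (ε n * a n) • e n‖ ≤ ‖∑ n ∈ s, a n • e n‖) →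
      ∃ U : ℕ → Set (WeakSpace ℝ X),
        (∀ n, IsOpen (U n) ∧
            (U n ∩ (toWeakSpace ℝ X) '' Metric.closedBall (0 : X) 1).Nonempty) ∧
        ∀ V : Set (WeakSpace ℝ X), IsOpen V →
          (V ∩ (toWeakSpace ℝ X) '' Metric.closedBall (0 : X) 1).Nonempty →
            ∃ n, U n ∩ (toWeakSpace ℝ X) '' Metric.closedBall (0 : X) 1 ⊆ V := by
  intro X _ _ _ e he hun
  obtain ⟨U, h1, h2⟩ := Pool.Agent.H.MP_53fbd4_an.main e he hun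
  refine ⟨U, fun n => ⟨(h1 n).1, ?_⟩, ?_⟩
  · obtain ⟨y, y1, y2⟩ := (h1 n).2
    exact ⟨_, y2, y, mem_closedBall_zero_iff.2 y1, rfl⟩
  · rintro V hV ⟨_, v1, v, v2, rfl⟩
    obtain ⟨n, hn⟩ := h2 V hV v (mem_closedBall_zero_iff.1 v2) v1
    refine ⟨n, ?_⟩
    rintro _ ⟨y1, y, y2, rfl⟩
    exact hn y (mem_closedBall_zero_iff.1 y2) y1

end Pool.Agent.S04693
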