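import Pool.Statements.S04695
-- import your own Pool.Agent.* helpers here
import Pool.Agent.H.MP_540347_an.E

set_option autoImplicit false
open Pool Pool.MP_540347_an

namespace Pool.Agent.S04695

theorem result :
    ∀ p : ℝ, 1 < p → ∀ c : ℝ, 0 ≤ c → c < max p (p / (p - 1)) - 1 →
      ∃ (n : ℕ) (H : Type) (_ : NormedAddCommGroup H) (_ : InnerProductSpace ℝ H)
        (_ : CompleteSpace H)
        (D : Set (EuclideanSpace ℝ (Fin n))) (x₀ : EuclideanSpace ℝ (Fin n))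
        (u v : EuclideanSpace ℝ (Fin n) → H),
        IsOpen D ∧ IsConnected D ∧ x₀ ∈ D ∧
        InnerProductSpace.HarmonicOnNhd u D ∧ InnerProductSpace.HarmonicOnNhd v D ∧
        (∀ x ∈ D,
          ∑ i : Fin n, ‖fderiv ℝ v x (EuclideanSpace.single i (1 : ℝ))‖ ^ 2 ≤
            ∑ i : Fin n, ‖fderiv ℝ u x (EuclideanSpace.single i (1 : ℝ))‖ ^ 2) ∧
        ‖v x₀‖ ≤ ‖u x₀‖ ∧
        ∃ h : EuclideanSpace ℝ (Fin n) → ℝ,
          InnerProductSpace.HarmonicOnNhd h D ∧ (∀ x ∈ D, ‖u x‖ ^ p ≤ h x) ∧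
          ∃ ε : ℝ, 0 < ε ∧
            ∀ g : EuclideanSpace ℝ (Fin n) → ℝ,
              InnerProductSpace.HarmonicOnNhd g D →
              (∀ x ∈ D, ‖v x‖ ^ p ≤ g x) →
              c ^ p * h x₀ + ε ≤ g x₀ := by
  exact Pool.Agent.H.MP_540347_an.main

end Pool.Agent.S04695
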