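import Pool.Statements.S04698
import Pool.Agent.H.MP_541d58_an.A

set_option autoImplicit false
open Pool Pool.MP_541d58_an

namespace Pool.Agent.S04698

theorem result :
    ¬ (∃ 𝒯 : Set (Set (lp (fun _ : ℝ => ℝ) (2 : ENNReal))),
      (∀ C ∈ 𝒯, IsClosed C ∧ Convex ℝ C ∧ (interior C).Nonempty ∧ Bornology.IsBounded C) ∧
      𝒯.PairwiseDisjoint id ∧
      ⋃₀ 𝒯 = Set.univ) := by
  rintro ⟨F, h1, h2, h3⟩
  refine Pool.Agent.H.MP_541d58_an.main (fun C hC => ⟨(h1 C hC).1, (h1 C hC).2.1, (h1 C hC).2.2.1⟩) h2 h3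
    fun C hC e => ?_
  have hb := (h1 C hC).2.2.2
  rw [e] at hb
  haveI : Nontrivial (lp (fun _ : ℝ => ℝ) (2 : ENNReal)) := by
    classical
    refine ⟨lp.single 2 0 1, 0, fun h => ?_⟩
    have := congrArg (fun f : lp (fun _ : ℝ => ℝ) (2 : ENNReal) => f 0) h
    simp at this
  exact NormedSpace.unbounded_univ ℝ _ hb

end Pool.Agent.S04698
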