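import Pool.Statements.S04702
import Pool.Agent.H.MP_54c5a6.E

set_option autoImplicit false
open Pool Pool.MP_54c5a6_an

namespace Pool.Agent.S04702

theorem result :
    ¬ (∀ (X : Type) [NormedAddCommGroup X] [NormedSpace ℂ X] [CompleteSpace X],
      (∃ A : Set (WeakDual ℂ X),
          ({φ : WeakDual ℂ X | ∀ x : X, ‖φ x‖ ≤ ‖x‖} ⊆ closure A) ∧
          (∃ (Γ : Type) (h : WeakDual ℂ X → (Γ → ℝ)),
              ContinuousOn h {φ : WeakDual ℂ X | ∀ x : X, ‖φ x‖ ≤ ‖x‖} ∧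
              Set.InjOn h {φ : WeakDual ℂ X | ∀ x : X, ‖φ x‖ ≤ ‖x‖} ∧
              A = {φ : WeakDual ℂ X | ∀ x : X, ‖φ x‖ ≤ ‖x‖} ∩
                    h ⁻¹' {y : Γ → ℝ | Set.Countable {γ : Γ | y γ ≠ 0}}) ∧
          (∀ a ∈ A, ∀ b ∈ A, ∀ t : ℝ, 0 ≤ t → t ≤ 1 →
              ((t : ℂ) • a + ((1 : ℂ) - (t : ℂ)) • b) ∈ A) ∧
          (∀ a ∈ A, ((-1 : ℂ) • a) ∈ A)) →
      (∃ A : Set (WeakDual ℂ X),
          ({φ : WeakDual ℂ X | ∀ x : X, ‖φ x‖ ≤ ‖x‖} ⊆ closure A) ∧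
          (∃ (Γ : Type) (h : WeakDual ℂ X → (Γ → ℝ)),
              ContinuousOn h {φ : WeakDual ℂ X | ∀ x : X, ‖φ x‖ ≤ ‖x‖} ∧
              Set.InjOn h {φ : WeakDual ℂ X | ∀ x : X, ‖φ x‖ ≤ ‖x‖} ∧
              A = {φ : WeakDual ℂ X | ∀ x : X, ‖φ x‖ ≤ ‖x‖} ∩
                    h ⁻¹' {y : Γ → ℝ | Set.Countable {γ : Γ | y γ ≠ 0}}) ∧
          (∀ a ∈ A, ∀ b ∈ A, ∀ s t : ℂ, ‖s‖ + ‖t‖ ≤ 1 → (s • a + t • b) ∈ A))) := by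
  intro H
  exact Pool.Agent.H.MP_54c5a6.nocon (H _ Pool.Agent.H.MP_54c5a6.hyp)

end Pool.Agent.S04702
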