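import Pool.Statements.S04707

set_option autoImplicit false
open Pool Pool.MP_555292_an

namespace Pool.Agent.S04707

open Filter Topology

/-- achievement set -/
def E (a : ℕ → ℝ) : Set ℝ := {s : ℝ | ∃ A : Set ℕ, s = ∑' n, A.indicator a n}

lemma E_closed {a : ℕ → ℝ} (h0 : ∀ n, 0 ≤ a n) (hs : Summable a) : IsClosed (E a) := by
  have hc : Continuous fun ε : ℕ → Bool => ∑' n, if ε n = true then a n else 0 := by
    refine continuous_tsum (fun n => ?_) hs (fun n ε => ?_)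
    · exact (continuous_of_discreteTopology (f := fun b : Bool => if b = true then a n else 0)).comp
        (continuous_apply n)
    · split_ifs
      · rw [Real.norm_of_nonneg (h0 n)]
      · simpa using h0 n
  have : E a = Set.range fun ε : ℕ → Bool => ∑' n, if ε n = true then a n else 0 := by
    classical
    ext s
    constructor
    · rintro ⟨A, rfl⟩
      exact ⟨fun n => decide (n ∈ A), by simp [Set.indicator_apply]⟩
    · rintro ⟨ε, rfl⟩
      exact ⟨{n | ε n = true}, by simp [Set.indicator_apply]⟩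
  rw [this]
  exact (isCompact_range hc).isClosed

lemma E_step {a : ℕ → ℝ} (hs : Summable a) (s : ℝ) :
    s ∈ E a ↔ ∃ s' ∈ E (fun n => a (n + 1)), s = s' ∨ s = a 0 + s' := by
  classical
  constructor
  · rintro ⟨A, rfl⟩
    refine ⟨_, ⟨{n | n + 1 ∈ A}, rfl⟩, ?_⟩
    rw [(hs.indicator A).tsum_eq_zero_add]
    by_cases h : 0 ∈ A
    · right; simp [Set.indicator_apply, h]
    · left; simp [Set.indicator_apply, h]
  · rintro ⟨_, ⟨A, rfl⟩, rfl | rfl⟩
    · refine ⟨{n | n ≠ 0 ∧ n - 1 ∈ A}, ?_⟩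
      rw [(hs.indicator _).tsum_eq_zero_add]
      simp [Set.indicator_apply]
    · refine ⟨{n | n = 0 ∨ n - 1 ∈ A}, ?_⟩
      rw [(hs.indicator _).tsum_eq_zero_add]
      simp [Set.indicator_apply]

lemma E_smul (a : ℕ → ℝ) (q s : ℝ) : s ∈ E (fun n => q * a n) ↔ ∃ s' ∈ E a, s = q * s' := by
  have key : ∀ A : Set ℕ, ∑' n, A.indicator (fun n => q * a n) n = q * ∑' n, A.indicator a n := by
    intro A
    rw [← tsum_mul_left]
    refine tsum_congr fun n => ?_
    by_cases h : n ∈ A <;> simp [h]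
  constructor
  · rintro ⟨A, rfl⟩
    exact ⟨_, ⟨A, rfl⟩, key A⟩
  · rintro ⟨_, ⟨A, rfl⟩, rfl⟩
    exact ⟨A, (key A).symm⟩

lemma zero_mem (a : ℕ → ℝ) : (0 : ℝ) ∈ E a := ⟨∅, by simp⟩

lemma E_bd {a : ℕ → ℝ} (h0 : ∀ n, 0 ≤ a n) (hs : Summable a) {s : ℝ} (h : s ∈ E a) :
    0 ≤ s ∧ s ≤ ∑' n, a n := by
  obtain ⟨A, rfl⟩ := h
  exact ⟨tsum_nonneg fun n => Set.indicator_nonneg (fun i _ => h0 i) n,
    (hs.indicator A).tsum_le_tsum (fun n => Set.indicator_le_self' (fun i _ => h0 i) n) hs⟩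

lemma coind {K : Set ℝ} (hK : IsClosed K) (h0 : (0 : ℝ) ∈ K) (F : Set ℝ)
    (hF : ∀ f ∈ F, ∀ e ∈ K, f + 1 / 9 * e ∈ K) (P : Set ℝ) (hb : ∀ s ∈ P, |s| ≤ 100)
    (hP : ∀ s ∈ P, ∃ f ∈ F, ∃ s' ∈ P, s = f + 1 / 9 * s') : P ⊆ K := by
  have key : ∀ n : ℕ, ∀ s ∈ P, ∃ e ∈ K, |s - e| ≤ 100 * (1 / 9) ^ n := by
    intro n
    induction n with
    | zero => intro s hs; exact ⟨0, h0, by simpa using hb s hs⟩
    | succ n ih =>
      intro s hs
      obtain ⟨f, hf, s', hs', rfl⟩ := hP s hs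
      obtain ⟨e, he, he'⟩ := ih s' hs'
      refine ⟨_, hF f hf e he, ?_⟩
      rw [abs_le] at he' ⊢
      rw [pow_succ]
      constructor <;> linarith [he'.1, he'.2]
  intro s hs
  refine hK.closure_subset (Metric.mem_closure_iff.2 fun ε hε => ?_)
  obtain ⟨n, hn⟩ := exists_pow_lt_of_lt_one (show 0 < ε / 100 by positivity)
    (show (1 / 9 : ℝ) < 1 by norm_num)
  obtain ⟨e, he, he'⟩ := key n s hs
  exact ⟨e, he, by rw [Real.dist_eq]; linarith⟩

/-- the fast convergent sequence 18, 3, 18/9, 3/9, and so on -/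
noncomputable def x (n : ℕ) : ℝ := (if n % 2 = 0 then 18 else 3) * (1 / 9) ^ (n / 2)
/-- the multigeometric sequence 7, 6, 5, 3 with ratio 1/9 -/
noncomputable def y (n : ℕ) : ℝ :=
  (if n % 4 = 0 then 7 else if n % 4 = 1 then 6 else if n % 4 = 2 then 5 else 3) * (1 / 9) ^ (n / 4)

lemma x_pos (n : ℕ) : 0 < x n := by unfold x; split_ifs <;> positivity
lemma y_pos (n : ℕ) : 0 < y n := by unfold y; split_ifs <;> positivity

lemma x_add (n : ℕ) : x (n + 2) = 1 / 9 * x n := by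
  unfold x
  rw [Nat.add_mod_right, Nat.add_div_right _ (by norm_num), pow_succ]; ring
lemma y_add (n : ℕ) : y (n + 4) = 1 / 9 * y n := by
  unfold y
  rw [Nat.add_mod_right, Nat.add_div_right _ (by norm_num), pow_succ]; ring

lemma x0 : x 0 = 18 := by norm_num [x]
lemma x1 : x 1 = 3 := by norm_num [x]
lemma y0 : y 0 = 7 := by norm_num [y]
lemma y1 : y 1 = 6 := by norm_num [y]
lemma y2 : y 2 = 5 := by norm_num [y]
lemma y3 : y 3 = 3 := by norm_num [y]

lemma x_sum : Summable x := by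
  have : ∀ n, x n ≤ 18 * (1 / 3) ^ n := by
    intro n
    induction n using Nat.twoStepInduction with
    | zero => norm_num [x0]
    | one => norm_num [x1]
    | more n h _ => rw [x_add, pow_add]; linarith
  exact Summable.of_nonneg_of_le (fun n => (x_pos n).le) this
    ((summable_geometric_of_lt_one (by norm_num) (by norm_num)).mul_left _)

lemma y_sum : Summable y := by
  have : ∀ n, y n ≤ 33 * (3 / 5) ^ n := by
    intro n
    induction n using Nat.strong_induction_on with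
    | _ n ih =>
      match n with
      | 0 => norm_num [y0]
      | 1 => norm_num [y1]
      | 2 => norm_num [y2]
      | 3 => norm_num [y3]
      | n + 4 =>
        have := ih n (by omega)
        have h : (0 : ℝ) < (3 / 5) ^ n := by positivity
        rw [y_add, pow_add]; nlinarith
  exact Summable.of_nonneg_of_le (fun n => (y_pos n).le) this
    ((summable_geometric_of_lt_one (by norm_num) (by norm_num)).mul_left _)

lemma Ex_iff (s : ℝ) : s ∈ E x ↔ ∃ d ∈ ({0, 3, 18, 21} : Set ℝ), ∃ s' ∈ E x, s = d + 1 / 9 * s' := by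
  have h1 := (summable_nat_add_iff 1).2 x_sum
  have e : (fun n => x (n + 1 + 1)) = fun n => 1 / 9 * x n := funext x_add
  simp only [E_step x_sum s, E_step h1, e, E_smul, zero_add, x0, x1]
  constructor
  · rintro ⟨_, ⟨_, ⟨s', hs', rfl⟩, rfl | rfl⟩, rfl | rfl⟩
    · exact ⟨0, by simp, s', hs', by ring⟩
    · exact ⟨18, by simp, s', hs', by ring⟩
    · exact ⟨3, by simp, s', hs', by ring⟩
    · exact ⟨21, by simp, s', hs', by ring⟩
  · rintro ⟨d, hd, s', hs', rfl⟩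
    simp only [Set.mem_insert_iff, Set.mem_singleton_iff] at hd
    rcases hd with rfl | rfl | rfl | rfl
    · exact ⟨_, ⟨_, ⟨s', hs', rfl⟩, Or.inl rfl⟩, Or.inl (by ring)⟩
    · exact ⟨_, ⟨_, ⟨s', hs', rfl⟩, Or.inr rfl⟩, Or.inl (by ring)⟩
    · exact ⟨_, ⟨_, ⟨s', hs', rfl⟩, Or.inl rfl⟩, Or.inr (by ring)⟩
    · exact ⟨_, ⟨_, ⟨s', hs', rfl⟩, Or.inr rfl⟩, Or.inr (by ring)⟩

/-- subsums of 7, 6, 5, 3 -/
def FF : Set ℝ := {f | ∃ a b c d : Bool, f = (if a then 7 else 0) + (if b then 6 else 0) +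
  (if c then 5 else 0) + (if d then 3 else 0)}

lemma Ey_iff (s : ℝ) : s ∈ E y ↔ ∃ f ∈ FF, ∃ s' ∈ E y, s = f + 1 / 9 * s' := by
  have h1 := (summable_nat_add_iff 1).2 y_sum
  have h2 := (summable_nat_add_iff 1).2 h1
  have h3 := (summable_nat_add_iff 1).2 h2
  have e : (fun n => y (n + 1 + 1 + 1 + 1)) = fun n => 1 / 9 * y n := funext y_add
  have b : ∀ (c u v : ℝ), (u = v ∨ u = c + v) ↔ ∃ a : Bool, u = (if a then c else 0) + v := by
    intro c u v; simp
  simp only [E_step y_sum s, E_step h1, E_step h2, E_step h3, e, E_smul, zero_add, y0, y1, b]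
  rw [show (1 + 1 : ℕ) = 2 from rfl, show (2 + 1 : ℕ) = 3 from rfl, y2, y3]
  constructor
  · rintro ⟨_, ⟨_, ⟨_, ⟨_, ⟨s', hs', rfl⟩, d, rfl⟩, c, rfl⟩, b, rfl⟩, a, rfl⟩
    exact ⟨_, ⟨a, b, c, d, rfl⟩, s', hs', by ring⟩
  · rintro ⟨_, ⟨a, b, c, d, rfl⟩, s', hs', rfl⟩
    exact ⟨_, ⟨_, ⟨_, ⟨_, ⟨s', hs', rfl⟩, d, rfl⟩, c, rfl⟩, b, rfl⟩, a, by ring⟩

lemma FF_cases {f : ℝ} (h : f ∈ FF) : f = 0 ∨ f = 3 ∨ f = 5 ∨ (6 ≤ f ∧ f ≤ 15) ∨ f = 16 ∨ f = 18 ∨
    f = 21 := by
  obtain ⟨a, b, c, d, rfl⟩ := h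
  cases a <;> cases b <;> cases c <;> cases d <;> norm_num

lemma FF_mem (k : ℕ) (h : k = 0 ∨ k = 3 ∨ (5 ≤ k ∧ k ≤ 16) ∨ k = 18 ∨ k = 21) : (k : ℝ) ∈ FF := by
  have : ∃ a b c d : Bool, k = (if a then 7 else 0) + (if b then 6 else 0) +
      (if c then 5 else 0) + (if d then 3 else 0) := by
    rcases h with rfl | rfl | ⟨h1, h2⟩ | rfl | rfl
    · decide
    · decide
    · interval_cases k <;> decide
    · decide
    · decide
  obtain ⟨a, b, c, d, rfl⟩ := this
  exact ⟨a, b, c, d, by cases a <;> cases b <;> cases c <;> cases d <;> norm_num⟩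

lemma tail_add (n : ℕ) : ∑' k, x (n + 2 + 1 + k) = 1 / 9 * ∑' k, x (n + 1 + k) := by
  rw [← tsum_mul_left]
  refine tsum_congr fun k => ?_
  rw [← x_add]; congr 1; ring

lemma tot_x : ∑' k, x k = 189 / 8 := by
  have h := x_sum.sum_add_tsum_nat_add 2
  simp only [x_add, tsum_mul_left, Finset.sum_range_succ, Finset.range_zero, Finset.sum_empty, x0,
    x1] at h
  linarith

lemma tot_y : ∑' k, y k = 189 / 8 := by
  have h := y_sum.sum_add_tsum_nat_add 4
  simp only [y_add, tsum_mul_left, Finset.sum_range_succ, Finset.range_zero, Finset.sum_empty, y0,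
    y1, y2, y3] at h
  linarith

lemma tail0 : ∑' k, x (0 + 1 + k) = 45 / 8 := by
  have h := x_sum.sum_add_tsum_nat_add 1
  simp only [tot_x, Finset.sum_range_succ, Finset.range_zero, Finset.sum_empty, x0] at h
  simp only [zero_add, add_comm 1]
  linarith

lemma tail1 : ∑' k, x (1 + 1 + k) = 21 / 8 := by
  have h := x_sum.sum_add_tsum_nat_add 2
  simp only [tot_x, Finset.sum_range_succ, Finset.range_zero, Finset.sum_empty, x0, x1] at h
  simp only [show 1 + 1 = 2 from rfl, add_comm 2]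
  linarith

lemma fast (n : ℕ) : ∑' k, x (n + 1 + k) < x n := by
  induction n using Nat.twoStepInduction with
  | zero => rw [tail0, x0]; norm_num
  | one => rw [tail1, x1]; norm_num
  | more n h _ => rw [tail_add, x_add]; linarith

/-- filled gaps -/
def G : Set ℝ := {t : ℝ | ∃ n : ℕ, Even n ∧ ∃ F : Finset ℕ, F ⊆ Finset.range n ∧
              (∑ i ∈ F, x i) + (∑' k, x (n + 1 + k)) < t ∧
              t < (∑ i ∈ F, x i) + x n}

lemma sum_split (n : ℕ) (F : Finset ℕ) (hF : F ⊆ Finset.range (n + 2)) :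
    ∑ i ∈ F, x i = (if 0 ∈ F then 18 else 0) + (if 1 ∈ F then 3 else 0) +
      1 / 9 * ∑ i ∈ (Finset.range n).filter (fun i => i + 2 ∈ F), x i := by
  have h1 : ∑ i ∈ F, x i = ∑ i ∈ Finset.range (n + 2), if i ∈ F then x i else 0 := by
    rw [← Finset.sum_filter, Finset.filter_mem_eq_inter, Finset.inter_eq_right.2 hF]
  rw [h1, Finset.sum_range_succ', Finset.sum_range_succ', Finset.sum_filter, Finset.mul_sum]
  simp only [zero_add, x0, x1]
  have : ∀ i, (if i + 1 + 1 ∈ F then x (i + 1 + 1) else 0) =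
      1 / 9 * (if i + 2 ∈ F then x i else 0) := by
    intro i
    split_ifs
    · exact x_add i
    · simp
  simp only [this]
  ring

lemma G_down {t : ℝ} (h : t ∈ G) : (45 / 8 ≤ t ∧ t ≤ 18) ∨
    ∃ d ∈ ({0, 3, 18, 21} : Set ℝ), ∃ t' ∈ G, t = d + 1 / 9 * t' := by
  obtain ⟨n, hn, F, hF, h1, h2⟩ := h
  match n, hn with
  | 0, _ =>
    left
    have : F = ∅ := by simpa using hF
    rw [this] at h1 h2
    rw [tail0] at h1
    rw [x0] at h2
    simp only [Finset.sum_empty] at h1 h2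
    constructor <;> linarith
  | 1, hn => exact absurd hn (by decide)
  | n + 2, hn =>
    right
    rw [sum_split n F hF] at h1 h2
    rw [tail_add] at h1
    rw [x_add] at h2
    refine ⟨(if 0 ∈ F then 18 else 0) + (if 1 ∈ F then 3 else 0), ?_,
      9 * (t - ((if 0 ∈ F then 18 else 0) + (if 1 ∈ F then 3 else 0))),
      ⟨n, by simpa [Nat.even_add] using hn, _, Finset.filter_subset _ _, by linarith, by linarith⟩,
      by ring⟩
    split_ifs <;> norm_num

lemma G_up {t d : ℝ} (hd : d ∈ ({0, 3, 18, 21} : Set ℝ)) (h : t ∈ G) : d + 1 / 9 * t ∈ G := by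
  obtain ⟨n, hn, F, hF, h1, h2⟩ := h
  obtain ⟨B, hB, hB'⟩ : ∃ B : Finset ℕ, B ⊆ Finset.range 2 ∧
      d = (if 0 ∈ B then 18 else 0) + (if 1 ∈ B then 3 else 0) := by
    simp only [Set.mem_insert_iff, Set.mem_singleton_iff] at hd
    rcases hd with rfl | rfl | rfl | rfl
    · exact ⟨∅, by simp, by simp⟩
    · exact ⟨{1}, by decide, by simp⟩
    · exact ⟨{0}, by decide, by simp⟩
    · exact ⟨{0, 1}, by decide, by norm_num⟩
  have hsub : B ∪ F.image (· + 2) ⊆ Finset.range (n + 2) := by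
    intro i hi
    simp only [Finset.mem_union, Finset.mem_image] at hi
    rcases hi with hi | ⟨j, hj, rfl⟩
    · have := Finset.mem_range.1 (hB hi); simp; omega
    · have := Finset.mem_range.1 (hF hj); simp; omega
  have hfil : (Finset.range n).filter (fun i => i + 2 ∈ B ∪ F.image (· + 2)) = F := by
    ext i
    simp only [Finset.mem_filter, Finset.mem_union, Finset.mem_image, add_left_inj,
      exists_eq_right]
    constructor
    · rintro ⟨_, h | h⟩
      · have := Finset.mem_range.1 (hB h); omega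
      · exact h
    · exact fun h => ⟨hF h, Or.inr h⟩
  have e0 : (0 ∈ B ∪ F.image (· + 2)) ↔ 0 ∈ B := by simp
  have e1 : (1 ∈ B ∪ F.image (· + 2)) ↔ 1 ∈ B := by simp
  have hs := sum_split n _ hsub
  rw [hfil] at hs
  simp only [e0, e1] at hs
  rw [← hB'] at hs
  refine ⟨n + 2, by simpa [Nat.even_add] using hn, _, hsub, ?_, ?_⟩
  · rw [hs, tail_add]; linarith
  · rw [hs, x_add]; linarith

lemma C_sub {t : ℝ} (h1 : 45 / 8 ≤ t) (h2 : t ≤ 18) : t ∈ E x ∪ G := by
  rcases h1.eq_or_lt with rfl | h1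
  · exact Or.inl ((Ex_iff _).2 ⟨3, by simp, 189 / 8, ⟨Set.univ, by simp [tot_x]⟩, by norm_num⟩)
  rcases h2.eq_or_lt with rfl | h2
  · exact Or.inl ((Ex_iff _).2 ⟨18, by simp, 0, zero_mem _, by norm_num⟩)
  exact Or.inr ⟨0, by decide, ∅, by simp, by rw [tail0]; simpa using h1, by rw [x0]; simpa using h2⟩

lemma G_bd {t : ℝ} (h : t ∈ G) : |t| ≤ 100 := by
  obtain ⟨n, _, F, hF, h1, h2⟩ := h
  have a1 : 0 ≤ ∑ i ∈ F, x i := Finset.sum_nonneg fun i _ => (x_pos i).le
  have a2 : 0 ≤ ∑' k, x (n + 1 + k) := tsum_nonneg fun i => (x_pos _).le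
  have a3 : ∑ i ∈ F, x i ≤ ∑' k, x k := x_sum.sum_le_tsum _ fun i _ => (x_pos i).le
  have a4 : x n ≤ ∑' k, x k := x_sum.le_tsum _ fun i _ => (x_pos i).le
  rw [tot_x] at a3 a4
  rw [abs_le]; constructor <;> linarith

lemma S_sub : E x ∪ G ⊆ E y := by
  refine coind (E_closed (fun n => (y_pos n).le) y_sum) (zero_mem _) FF
    (fun f hf e he => (Ey_iff _).2 ⟨f, hf, e, he, rfl⟩) _ ?_ ?_
  · rintro s (hs | hs)
    · have := E_bd (fun n => (x_pos n).le) x_sum hs
      rw [tot_x] at this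
      rw [abs_le]; constructor <;> linarith [this.1, this.2]
    · exact G_bd hs
  · have hD : ∀ d ∈ ({0, 3, 18, 21} : Set ℝ), d ∈ FF := by
      intro d hd
      simp only [Set.mem_insert_iff, Set.mem_singleton_iff] at hd
      rcases hd with rfl | rfl | rfl | rfl
      · exact_mod_cast FF_mem 0 (by omega)
      · exact_mod_cast FF_mem 3 (by omega)
      · exact_mod_cast FF_mem 18 (by omega)
      · exact_mod_cast FF_mem 21 (by omega)
    rintro s (hs | hs)
    · obtain ⟨d, hd, s', hs', rfl⟩ := (Ex_iff _).1 hs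
      exact ⟨d, hD d hd, s', Or.inl hs', rfl⟩
    · rcases G_down hs with ⟨h1, h2⟩ | ⟨d, hd, s', hs', rfl⟩
      · by_cases h : s ≤ 17
        · have b1 := Nat.floor_le (a := s - 5 / 8) (by linarith)
          have b2 := Nat.lt_floor_add_one (s - 5 / 8)
          have b3 : 5 ≤ ⌊s - 5 / 8⌋₊ := Nat.le_floor (by push_cast; linarith)
          have b4 : ⌊s - 5 / 8⌋₊ < 17 := (Nat.floor_lt (by linarith)).2 (by push_cast; linarith)
          exact ⟨_, FF_mem ⌊s - 5 / 8⌋₊ (by omega), 9 * (s - ⌊s - 5 / 8⌋₊),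
            C_sub (by linarith) (by linarith), by ring⟩
        · exact ⟨_, FF_mem 16 (by omega), 9 * (s - 16), C_sub (by linarith) (by linarith),
            by push_cast; ring⟩
      · exact ⟨d, hD d hd, s', Or.inr hs', rfl⟩

/-- auxiliary invariant set -/
def P : Set ℝ := {s | s ∈ E y ∨ (s - 18 ∈ E y ∧ s - 18 ≤ 45 / 8) ∨ (s + 18 ∈ E y ∧ 0 ≤ s)}

lemma P_step {s : ℝ} (hs : s ∈ P) : (45 / 8 ≤ s ∧ s ≤ 18) ∨
    ∃ d ∈ ({0, 3, 18, 21} : Set ℝ), ∃ s' ∈ P, s = d + 1 / 9 * s' := by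
  have hb : ∀ e ∈ E y, 0 ≤ e ∧ e ≤ 189 / 8 := fun e he => by
    have := E_bd (fun n => (y_pos n).le) y_sum he
    rwa [tot_y] at this
  rcases hs with hs | ⟨hs, hs1⟩ | ⟨hs, hs1⟩
  · obtain ⟨f, hf, e, he, rfl⟩ := (Ey_iff _).1 hs
    obtain ⟨e0, e1⟩ := hb e he
    rcases FF_cases hf with rfl | rfl | rfl | ⟨h1, h2⟩ | rfl | rfl | rfl
    · exact Or.inr ⟨0, by simp, e, Or.inl he, rfl⟩
    · exact Or.inr ⟨3, by simp, e, Or.inl he, rfl⟩
    · by_cases h : e ≤ 45 / 8
      · exact Or.inr ⟨3, by simp, e + 18, Or.inr (Or.inl (by simpa using ⟨he, h⟩)), by ring⟩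
      · left; constructor <;> linarith
    · left; constructor <;> linarith
    · by_cases h : 18 ≤ e
      · exact Or.inr ⟨18, by simp, e - 18, Or.inr (Or.inr (by simpa using ⟨he, h⟩)), by ring⟩
      · left; constructor <;> linarith
    · exact Or.inr ⟨18, by simp, e, Or.inl he, rfl⟩
    · exact Or.inr ⟨21, by simp, e, Or.inl he, rfl⟩
  · obtain ⟨f, hf, e, he, h0⟩ := (Ey_iff _).1 hs
    obtain ⟨e0, e1⟩ := hb e he
    rcases FF_cases hf with rfl | rfl | rfl | ⟨h1, h2⟩ | rfl | rfl | rfl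
    · exact Or.inr ⟨18, by simp, e, Or.inl he, by linarith⟩
    · exact Or.inr ⟨21, by simp, e, Or.inl he, by linarith⟩
    · exact Or.inr ⟨21, by simp, e + 18, Or.inr (Or.inl (by
        rw [add_sub_cancel_right]; exact ⟨he, by linarith⟩)), by linarith⟩
    all_goals linarith
  · obtain ⟨f, hf, e, he, h0⟩ := (Ey_iff _).1 hs
    obtain ⟨e0, e1⟩ := hb e he
    rcases FF_cases hf with rfl | rfl | rfl | ⟨h1, h2⟩ | rfl | rfl | rfl
    · linarith
    · linarith
    · linarith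
    · linarith
    · exact Or.inr ⟨0, by simp, e - 18, Or.inr (Or.inr (by
        rw [sub_add_cancel]; exact ⟨he, by linarith⟩)), by linarith⟩
    · exact Or.inr ⟨0, by simp, e, Or.inl he, by linarith⟩
    · exact Or.inr ⟨3, by simp, e, Or.inl he, by linarith⟩

lemma sub_S : E y ⊆ E x ∪ G := by
  have key : P \ (E x ∪ G) ⊆ E x := by
    refine coind (E_closed (fun n => (x_pos n).le) x_sum) (zero_mem _) {0, 3, 18, 21}
      (fun f hf e he => (Ex_iff _).2 ⟨f, hf, e, he, rfl⟩) _ ?_ ?_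
    · have hb : ∀ e ∈ E y, 0 ≤ e ∧ e ≤ 189 / 8 := fun e he => by
        have := E_bd (fun n => (y_pos n).le) y_sum he
        rwa [tot_y] at this
      rintro s ⟨hs | ⟨hs, _⟩ | ⟨hs, _⟩, _⟩ <;>
        (have := hb _ hs; rw [abs_le]; constructor <;> linarith [this.1, this.2])
    · rintro s ⟨hs, hs'⟩
      rcases P_step hs with ⟨h1, h2⟩ | ⟨d, hd, s', h1, rfl⟩
      · exact absurd (C_sub h1 h2) hs'
      · refine ⟨d, hd, s', ⟨h1, ?_⟩, rfl⟩
        rintro (h | h)
        · exact hs' (Or.inl ((Ex_iff _).2 ⟨d, hd, s', h, rfl⟩))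
        · exact hs' (Or.inr (G_up hd h))
  intro s hs
  by_contra h
  exact h (Or.inl (key ⟨Or.inl hs, h⟩))

/-- The adjoint Cantorval of (18, 3; 1/9) is the achievement set of (7, 6, 5, 3; 1/9). -/
theorem result :
    ∃ x : ℕ → ℝ, (∀ n, 0 < x n) ∧ Summable x ∧
      (∀ n, ∑' k, x (n + 1 + k) < x n) ∧
      ∃ y : ℕ → ℝ, (∀ n, 0 < y n) ∧ Summable y ∧
        {s : ℝ | ∃ A : Set ℕ, s = ∑' n, A.indicator y n} =
          {s : ℝ | ∃ A : Set ℕ, s = ∑' n, A.indicator x n} ∪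
          {t : ℝ | ∃ n : ℕ, Even n ∧ ∃ F : Finset ℕ, F ⊆ Finset.range n ∧
              (∑ i ∈ F, x i) + (∑' k, x (n + 1 + k)) < t ∧
              t < (∑ i ∈ F, x i) + x n} :=
  ⟨x, x_pos, x_sum, fast, y, y_pos, y_sum, Set.Subset.antisymm sub_S S_sub⟩

end Pool.Agent.S04707
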