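import Pool.Statements.S04716
import Pool.Agent.H.MP_563d58_an.K

set_option autoImplicit false
open MeasureTheory Filter Topology
open Pool Pool.MP_563d58_an

namespace Pool.Agent.S04716

theorem result :
    ¬ (∀ S : Set (ℝ → ℂ),
    (∀ f ∈ S, Function.Periodic f (2 * Real.pi) ∧ AEStronglyMeasurable f volume ∧
        eLpNorm f (⊤ : ENNReal) volume < ⊤) →
    (∀ f : ℝ → ℂ, Continuous f → Function.Periodic f (2 * Real.pi) → f ∈ S) →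
    (∀ f ∈ S, ∀ g ∈ S, f + g ∈ S) →
    (∀ f ∈ S, ∀ g ∈ S, f * g ∈ S) →
    (∀ c : ℂ, ∀ f ∈ S, c • f ∈ S) →
    (∀ f ∈ S, (fun t => star (f t)) ∈ S) →
    (∀ (F : ℕ → ℝ → ℂ) (f : ℝ → ℂ), (∀ n, F n ∈ S) → Function.Periodic f (2 * Real.pi) →
        AEStronglyMeasurable f volume →
        Tendsto (fun n => eLpNorm (F n - f) (⊤ : ENNReal) volume) atTop (𝓝 0) → f ∈ S) →
    ∀ A : Set (ℝ → ℂ),
      A = {f | f ∈ S ∧ ∀ n : ℕ, 0 < n →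
        ∫ t in (0:ℝ)..(2 * Real.pi), f t * Complex.exp ((n : ℂ) * (t : ℂ) * Complex.I) = 0} →
    ∀ φ : (ℝ → ℂ) → ℂ,
      φ (fun _ => 1) = 1 →
      (∀ f ∈ A, ∀ g ∈ A, φ (f + g) = φ f + φ g) →
      (∀ c : ℂ, ∀ f ∈ A, φ (c • f) = c * φ f) →
      (∀ f ∈ A, ∀ g ∈ A, φ (f * g) = φ f * φ g) →
      (∀ f ∈ A, ∀ g ∈ A, f =ᵐ[volume] g → φ f = φ g) →
      ∀ (m : ℕ) (F : Fin m → ℝ → ℂ), (∀ i, F i ∈ A) →
        ∀ ε : ℝ, 0 < ε → ∃ z : ℂ, ‖z‖ < 1 ∧ ∀ i,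
          ‖(∫ t in (0:ℝ)..(2 * Real.pi),
              F i t * (((1 - ‖z‖ ^ 2) / ‖Complex.exp ((t : ℂ) * Complex.I) - z‖ ^ 2 : ℝ) : ℂ))
              / (2 * (Real.pi : ℂ)) - φ (F i)‖ < ε) := by
  intro h
  obtain ⟨G, h1, ε, hε, h2⟩ := H.MP_563d58_an.key
  obtain ⟨z, hz, h3⟩ := h H.MP_563d58_an.SS
    (fun f ⟨a, φ, ⟨B, b⟩, _⟩ => ⟨a, b.1, b.top⟩)
    (fun f a b => ⟨b, _, H.MP_563d58_an.rel_ct a b⟩)
    (fun f ⟨a, φ, b⟩ g ⟨c, ψ, d⟩ => ⟨a.add c, _, b.add d⟩)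
    (fun f ⟨a, φ, b⟩ g ⟨c, ψ, d⟩ => ⟨a.mul c, _, b.mul d⟩)
    (fun c f ⟨a, φ, b⟩ => ⟨a.smul c, _, b.smul c⟩)
    (fun f ⟨a, φ, b⟩ => ⟨a.comp star, _, b.star⟩)
    (fun F f a b c d => ⟨b, H.MP_563d58_an.rel_lim (fun n => (a n).2) fun ε hε =>
      (d.eventually (ge_mem_nhds (ENNReal.ofReal_pos.2 hε))).mono fun n hn =>
        H.MP_563d58_an.bn_of hε.le ((a n).2.choose_spec.1.choose_spec.1.sub c) hn⟩)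
    _ rfl H.MP_563d58_an.χ
    (by
      rw [(H.MP_563d58_an.rel_ct continuous_const fun _ => rfl).χ]
      simp [H.MP_563d58_an.II])
    (fun f ⟨⟨_, φ, a⟩, _⟩ g ⟨⟨_, ψ, b⟩, _⟩ => by
      rw [(a.add b).χ, a.χ, b.χ]
      exact integral_add (H.MP_563d58_an.ci φ) (H.MP_563d58_an.ci ψ))
    (fun c f ⟨⟨_, φ, a⟩, _⟩ => by
      rw [(a.smul c).χ, a.χ]
      exact integral_const_mul _ _)
    (fun f ⟨⟨_, φ, a⟩, c⟩ g ⟨⟨_, ψ, b⟩, d⟩ => by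
      rw [(a.mul b).χ, a.χ, b.χ, H.MP_563d58_an.II_mul a ((H.MP_563d58_an.ng_iff _).2 c) b
        ((H.MP_563d58_an.ng_iff _).2 d)])
    (fun f ⟨⟨_, φ, a⟩, _⟩ g ⟨⟨_, ψ, b⟩, _⟩ c => by rw [a.χ, b.χ, a.uniq b c])
    4 (fun i t => G i (H.MP_563d58_an.E t))
    (fun i => ⟨⟨H.MP_563d58_an.E_per _, (h1 i).2⟩,
      (H.MP_563d58_an.ng_iff _).1 (h1 i).1.choose_spec.ng⟩) ε hε
  obtain ⟨i, hi⟩ := h2 ⟨z, mem_ball_zero_iff.2 hz⟩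
  refine hi.not_gt ?_
  rw [← (h1 i).1.choose_spec.pf.2 ⟨z, mem_ball_zero_iff.2 hz⟩, H.MP_563d58_an.m_int]
  exact h3 i

end Pool.Agent.S04716
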