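import Pool.Statements.S04718
import Pool.Agent.H.MP_9d0e4c_an.Unique

set_option autoImplicit false
open Pool Pool.MP_565a2b_an

namespace Pool.Agent.S04718

theorem result :
    ¬ ((∀ (X : Type) [NormedAddCommGroup X] [NormedSpace ℝ X] [CompleteSpace X],
      (∀ (Z : Type) [NormedAddCommGroup Z] [NormedSpace ℝ Z] [CompleteSpace Z],
        Nonempty ((Z →L[ℝ] ℝ) ≃ₗᵢ[ℝ] (X →L[ℝ] ℝ)) → Nonempty (Z ≃ₗᵢ[ℝ] X)) →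
      sInf {s : ℝ | ∃ T : (X →L[ℝ] ℝ) →L[ℝ] (X →L[ℝ] ℝ), ‖T‖ = 1 ∧
          s = sSup {r : ℝ | ∃ (x : X →L[ℝ] ℝ) (f : (X →L[ℝ] ℝ) →L[ℝ] ℝ),
            ‖x‖ = 1 ∧ ‖f‖ = 1 ∧ f x = 1 ∧ r = ‖f (T x)‖}}
        = sInf {s : ℝ | ∃ T : X →L[ℝ] X, ‖T‖ = 1 ∧
          s = sSup {r : ℝ | ∃ (x : X) (f : X →L[ℝ] ℝ),
            ‖x‖ = 1 ∧ ‖f‖ = 1 ∧ f x = 1 ∧ r = ‖f (T x)‖}}) ∧
    (∀ (X : Type) [NormedAddCommGroup X] [NormedSpace ℂ X] [CompleteSpace X],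
      (∀ (Z : Type) [NormedAddCommGroup Z] [NormedSpace ℂ Z] [CompleteSpace Z],
        Nonempty ((Z →L[ℂ] ℂ) ≃ₗᵢ[ℂ] (X →L[ℂ] ℂ)) → Nonempty (Z ≃ₗᵢ[ℂ] X)) →
      sInf {s : ℝ | ∃ T : (X →L[ℂ] ℂ) →L[ℂ] (X →L[ℂ] ℂ), ‖T‖ = 1 ∧
          s = sSup {r : ℝ | ∃ (x : X →L[ℂ] ℂ) (f : (X →L[ℂ] ℂ) →L[ℂ] ℂ),
            ‖x‖ = 1 ∧ ‖f‖ = 1 ∧ f x = 1 ∧ r = ‖f (T x)‖}}
        = sInf {s : ℝ | ∃ T : X →L[ℂ] X, ‖T‖ = 1 ∧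
          s = sSup {r : ℝ | ∃ (x : X) (f : X →L[ℂ] ℂ),
            ‖x‖ = 1 ∧ ‖f‖ = 1 ∧ f x = 1 ∧ r = ‖f (T x)‖}})) := by
  intro h
  have h1 := h.1 H.MP_9d0e4c_an.X fun Z _ _ _ ⟨Φ⟩ => H.MP_9d0e4c_an.X_unique Φ
  obtain ⟨R, hR, h2⟩ := H.MP_9d0e4c_an.up
  refine absurd h1 (ne_of_lt (lt_of_le_of_lt (b := 1 / 30) ?_ (lt_of_lt_of_le (b := 1 / 22)
    (by norm_num) ?_)))
  · refine le_trans (csInf_le ⟨0, ?_⟩ ⟨R, hR, rfl⟩) h2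
    rintro _ ⟨T, -, rfl⟩
    exact H.MP_a8e783_an.numRad_nonneg T
  · refine le_csInf ⟨_, ContinuousLinearMap.id ℝ _, ContinuousLinearMap.norm_id, rfl⟩ ?_
    rintro _ ⟨T, hT, rfl⟩
    exact H.MP_9d0e4c_an.low (LinearIsometryEquiv.refl ℝ _) T hT

end Pool.Agent.S04718
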