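import Pool.Statements.S04719

set_option autoImplicit false
open Pool Pool.MP_565f87_an

namespace Pool.Agent.S04719

/-- For every monoid whose finitely generated submonoids are all finite, every injective cellular automaton over a finite alphabet (finite memory set, local rule applied to shifted configurations) is surjective. -/
theorem result :
    ∀ (M : Type) [Monoid M],
      (∀ s : Finset M, (Submonoid.closure (s : Set M) : Set M).Finite) →
      ∀ (k : ℕ) (τ : (M → Fin k) → (M → Fin k)),
        (∃ S : Finset M, ∃ μ : ({a : M // a ∈ S} → Fin k) → Fin k,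
          ∀ (x : M → Fin k) (m : M), τ x m = μ (fun s => x (m * s.1))) →
        Function.Injective τ → Function.Surjective τ := by
  intro M _ hM k τ ⟨S, μ, hτ⟩ hi y
  classical
  have hc : ∀ m, Continuous fun x : M → Fin k => τ x m := fun m => by
    simp only [hτ]
    exact (continuous_of_discreteTopology (f := μ)).comp (by fun_prop)
  obtain ⟨N, hN⟩ := (isClosed_discrete {p : Fin k × Fin k | p.1 ≠ p.2}
    |>.preimage (f := fun p : (M → Fin k) × (M → Fin k) => (p.1 1, p.2 1))
      (by fun_prop)).isCompact.elim_finite_subfamily_closed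
    (fun m : M => {p | τ p.1 m = τ p.2 m})
    (fun m => isClosed_eq ((hc m).comp continuous_fst) ((hc m).comp continuous_snd))
    (by
      rw [← Set.disjoint_iff_inter_eq_empty, Set.disjoint_left]
      intro p hp hp'
      exact hp (congrFun (hi (funext (Set.mem_iInter.1 hp'))) 1))
  have h1 : ∀ (x x' : M → Fin k) (m : M), (∀ n ∈ N, τ x (m * n) = τ x' (m * n)) → x m = x' m := by
    intro x x' m h
    by_contra h2
    rw [← Set.disjoint_iff_inter_eq_empty, Set.disjoint_left] at hN
    refine hN (a := (fun a => x (m * a), fun a => x' (m * a)))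
      (by simpa using h2) (Set.mem_iInter₂.2 fun n hn => ?_)
    have := h n hn
    simp only [hτ, Set.mem_ofPred_eq, ← mul_assoc] at this ⊢
    exact this
  have h2 : ∀ E : Finset M, ∃ x, ∀ m ∈ E, τ x m = y m := by
    intro E
    let F : Set M := Set.image2 (· * ·) (E : Set M) (Submonoid.closure ((S ∪ N : Finset M) : Set M))
    have hF : Finite F := (E.finite_toSet.image2 _ (hM _)).to_subtype
    have hcl : ∀ m ∈ F, ∀ s ∈ S ∪ N, m * s ∈ F := by
      rintro _ ⟨e, he, a, ha, rfl⟩ s hs
      exact ⟨e, he, a * s, mul_mem ha (Submonoid.subset_closure hs), (mul_assoc _ _ _).symm⟩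
    let ex : (F → Fin k) → M → Fin k := fun u m => if h : m ∈ F then u ⟨m, h⟩ else y m
    have hT : Function.Injective fun (u : F → Fin k) (m : F) => τ (ex u) m := by
      intro u v h
      funext m
      have := h1 (ex u) (ex v) m fun n hn =>
        congrFun h ⟨_, hcl m m.2 n (Finset.mem_union_right _ hn)⟩
      simpa [ex] using this
    obtain ⟨u, hu⟩ := Finite.surjective_of_injective hT fun m => y m
    exact ⟨ex u, fun m hm => congrFun hu ⟨m, m, hm, 1, one_mem _, mul_one m⟩⟩
  obtain ⟨x, -, hx⟩ := isCompact_univ.inter_iInter_nonempty (fun m : M => {x | τ x m = y m})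
    (fun m => isClosed_eq (hc m) continuous_const) fun E => by
      obtain ⟨x, hx⟩ := h2 E
      exact ⟨x, trivial, Set.mem_iInter₂.2 hx⟩
  exact ⟨x, funext (Set.mem_iInter.1 hx)⟩

end Pool.Agent.S04719
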