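import Pool.Statements.S04722
-- import your own Pool.Agent.* helpers here
import Pool.Agent.H.MP_5691a6_an.A

set_option autoImplicit false
open MeasureTheory Real ComplexConjugate
open Pool Pool.MP_5691a6_an

namespace Pool.Agent.S04722

open Pool.Agent.H.MP_5691a6_an Pool.Agent.H.MP_4002ad_an in
theorem result :
    ¬ (∀ (d : ℕ), 0 < d →
    ∀ (g : EuclideanSpace ℝ (Fin d) → ℂ) (T S : Set (EuclideanSpace ℝ (Fin d))),
      MemLp g 2 volume → HasCompactSupport g →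
      (∀ t₁ ∈ T, ∀ s₁ ∈ S, ∀ t₂ ∈ T, ∀ s₂ ∈ S, (t₁ ≠ t₂ ∨ s₁ ≠ s₂) →
        ∫ x, (g (x - t₁) * Complex.exp (2 * π * Complex.I * ((@inner ℝ _ _ s₁ x : ℝ) : ℂ))) *
          conj (g (x - t₂) * Complex.exp (2 * π * Complex.I * ((@inner ℝ _ _ s₂ x : ℝ) : ℂ))) = 0) →
      (∀ t ∈ T, ∀ s ∈ S,
        ∫ x, (g (x - t) * Complex.exp (2 * π * Complex.I * ((@inner ℝ _ _ s x : ℝ) : ℂ))) *
          conj (g (x - t) * Complex.exp (2 * π * Complex.I * ((@inner ℝ _ _ s x : ℝ) : ℂ))) = 1) →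
      (∀ f : EuclideanSpace ℝ (Fin d) → ℂ, MemLp f 2 volume →
        (∀ t ∈ T, ∀ s ∈ S,
          ∫ x, f x * conj (g (x - t) * Complex.exp (2 * π * Complex.I * ((@inner ℝ _ _ s x : ℝ) : ℂ))) = 0) →
        f =ᵐ[volume] 0) →
      ∃ Ω : Set (EuclideanSpace ℝ (Fin d)),
        MeasurableSet Ω ∧ 0 < volume Ω ∧ volume Ω < ⊤ ∧
        (∀ᵐ x ∂volume, ‖g x‖ = (volume Ω).toReal ^ (-(1 / 2 : ℝ)) * Ω.indicator (fun _ => (1 : ℝ)) x) ∧
        (∀ᵐ x ∂volume, ∃! l, l ∈ T ∧ x - l ∈ Ω) ∧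
        (∀ l ∈ S, ∀ m ∈ S, l ≠ m →
          ∫ x in Ω, Complex.exp (2 * π * Complex.I * ((@inner ℝ _ _ l x : ℝ) : ℂ)) *
            conj (Complex.exp (2 * π * Complex.I * ((@inner ℝ _ _ m x : ℝ) : ℂ))) = 0) ∧
        (∀ f : EuclideanSpace ℝ (Fin d) → ℂ, MemLp f 2 (volume.restrict Ω) →
          (∀ l ∈ S, ∫ x in Ω, f x * conj (Complex.exp (2 * π * Complex.I * ((@inner ℝ _ _ l x : ℝ) : ℂ))) = 0) →
          f =ᵐ[volume.restrict Ω] 0)) := by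
  intro H
  obtain ⟨b, hb⟩ := basis
  refine (H 2 two_pos gg (Set.range tt) (Set.range ss)
    (mem2 gg_meas.aestronglyMeasurable (by rw [gg_one]; simp)) supp ?_ ?_ ?_).elim
    fun Ω h => nconst _ Ω h.2.2.2.1
  · rintro _ ⟨a, rfl⟩ _ ⟨c, rfl⟩ _ ⟨a', rfl⟩ _ ⟨c', rfl⟩ hne
    refine (ww _ _ _ _).trans ?_
    rw [← hb (a', c'), ← hb (a, c)]
    refine b.orthonormal.2 fun h => ?_
    simp only [Prod.mk.injEq] at h
    simp [h.1, h.2] at hne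
  · rintro _ ⟨a, rfl⟩ _ ⟨c, rfl⟩
    refine (ww _ _ _ _).trans ?_
    rw [← hb (a, c), inner_self_eq_norm_sq_to_K, b.orthonormal.1]
    simp
  · intro f hf h
    have h1 : hf.toLp f = 0 := by
      refine b.repr.injective (lp.ext (funext fun i => ?_))
      rw [b.repr_apply_apply, hb, w_inn, map_zero]
      refine Eq.trans (integral_congr_ae ?_) (h _ ⟨i.1, rfl⟩ _ ⟨i.2, rfl⟩)
      filter_upwards [hf.coeFn_toLp] with x hx
      rw [hx]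
      rfl
    exact hf.coeFn_toLp.symm.trans (h1 ▸ Lp.coeFn_zero _ _ _)

end Pool.Agent.S04722
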