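import Pool.Statements.S04734
import Pool.Agent.H.MP_5876d3_an.C

set_option autoImplicit false
open Pool Pool.MP_5876d3_an

namespace Pool.Agent.S04734

theorem result :
    ¬ (∀ (a : ℝ), 0 < a → ∀ q : ℝ → ℂ, Function.Periodic q a →
    MeasureTheory.LocallyIntegrable q MeasureTheory.volume →
    ∀ c dc s ds : ℝ → ℂ → ℝ → ℂ,
    (∀ (x₀ : ℝ) (z : ℂ), Continuous (c x₀ z) ∧ Continuous (dc x₀ z) ∧
      Continuous (s x₀ z) ∧ Continuous (ds x₀ z) ∧
      ∀ x : ℝ,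
        (c x₀ z x = 1 + ∫ t in x₀..x, dc x₀ z t) ∧
        (dc x₀ z x = ∫ t in x₀..x, (q t - z) * c x₀ z t) ∧
        (s x₀ z x = ∫ t in x₀..x, ds x₀ z t) ∧
        (ds x₀ z x = 1 + ∫ t in x₀..x, (q t - z) * s x₀ z t)) →
    ∀ z : ℂ,
      (⨅ x₀ ∈ Set.Icc (0 : ℝ) a, analyticOrderAt (fun w : ℂ => s x₀ w (x₀ + a)) z) +
        (⨅ x₀ ∈ Set.Icc (0 : ℝ) a, analyticOrderAt (fun w : ℂ => dc x₀ w (x₀ + a)) z)
        < analyticOrderAt (fun w : ℂ => (c 0 w a + ds 0 w a) ^ 2 - 4) z →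
      (⨅ x₀ ∈ Set.Icc (0 : ℝ) a, analyticOrderAt (fun w : ℂ => s x₀ w (x₀ + a)) z) +
        (⨅ x₀ ∈ Set.Icc (0 : ℝ) a, analyticOrderAt (fun w : ℂ => dc x₀ w (x₀ + a)) z) = 0) := by
  intro H
  open Pool.Agent.H.MP_5876d3_an Real Complex in
  choose c dc c1 c2 c3 c4 C1 C2 dC1 dC2 cW using fun x0 => exists_y x0 1 0
  open Pool.Agent.H.MP_5876d3_an Real Complex in
  choose s ds s1 s2 s3 s4 S1 S2 dS1 dS2 sW using fun x0 => exists_y x0 0 1
  have ct : ∀ {f g : ℝ → ℂ}, (∀ x, HasDerivAt f (g x) x) → Continuous f := fun h =>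
    continuous_iff_continuousAt.mpr fun x => (h x).continuousAt
  open Pool.Agent.H.MP_5876d3_an Real Complex in
  have h := H (2 * π) (by positivity) QQ QQ_per QQ_cont.locallyIntegrable c dc s ds
    (fun x0 m => ⟨ct (c1 x0 m), ct (c2 x0 m), ct (s1 x0 m), ct (s2 x0 m), fun x =>
      ⟨by rw [ftc (c1 x0 m) (ct (c2 x0 m)) x0 x, c3],
       by rw [ftc (c2 x0 m) ((QQ_cont.sub continuous_const).mul (ct (c1 x0 m))) x0 x, c4,
          zero_add],
       by rw [ftc (s1 x0 m) (ct (s2 x0 m)) x0 x, s3, zero_add],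
       by rw [ftc (s2 x0 m) ((QQ_cont.sub continuous_const).mul (ct (s1 x0 m))) x0 x, s4]⟩⟩) 0
  open Pool.Agent.H.MP_5876d3_an Real Complex in
  have m0 : (0 : ℝ) ∈ Set.Icc 0 (2 * π) := ⟨le_rfl, by positivity⟩
  open Pool.Agent.H.MP_5876d3_an Real Complex in
  have en : ee 0 (0 + 2 * π) ≠ 0 := Complex.exp_ne_zero _
  open Pool.Agent.H.MP_5876d3_an Real Complex in
  have kn : (2 * π * I / 99 : ℂ) ≠ 0 := by simp [Real.pi_ne_zero]
  have n0 := Pool.Agent.H.MP_5876d3_an.hh_ne 0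
  obtain ⟨v1, v2⟩ := Pool.Agent.H.MP_5876d3_an.vals
  open Pool.Agent.H.MP_5876d3_an Real Complex in
  have p1 : analyticOrderAt (fun w : ℂ => s 0 w (0 + 2 * π)) 0 = (1 : ℕ) := by
    have := dS1 0
    refine ord_eq (g := fun m => ee 0 (0 + 2 * π) * (-(2 * π * I / 99 * (FF 0 ^ 2 / (I * hh 0)))
      + m * S1 0 m)) (by fun_prop) 1 (fun m => by rw [(sW 0 m).1]; ring) ?_
    simp only [zero_mul, add_zero]
    exact mul_ne_zero en (neg_ne_zero.mpr (mul_ne_zero kn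
      (div_ne_zero (pow_ne_zero 2 v1) (mul_ne_zero I_ne_zero n0))))
  open Pool.Agent.H.MP_5876d3_an Real Complex in
  have r1 : analyticOrderAt (fun w : ℂ => dc 0 w (0 + 2 * π)) 0 = (1 : ℕ) := by
    have := dC2 0
    refine ord_eq (g := fun m => ee 0 (0 + 2 * π) * (2 * π * I / 99 *
      ((uu 0 * FF 0 + I * hh 0) ^ 2 / (I * hh 0)) + m * C2 0 m)) (by fun_prop) 1
      (fun m => by rw [(cW 0 m).2]; field_simp; ring) ?_
    simp only [zero_mul, add_zero]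
    exact mul_ne_zero en (mul_ne_zero kn
      (div_ne_zero (pow_ne_zero 2 v2) (mul_ne_zero I_ne_zero n0)))
  open Pool.Agent.H.MP_5876d3_an Real Complex in
  have d3 : ((3 : ℕ) : ℕ∞) ≤ analyticOrderAt
      (fun w : ℂ => (c 0 w (2 * π) + ds 0 w (2 * π)) ^ 2 - 4) 0 := by
    have := dC1 0; have := dC2 0; have := dS1 0; have := dS2 0
    set k := 2 * π * I / 99 / (I * hh 0) with hk
    set G := uu 0 * FF 0 + I * hh 0 with hG
    refine ord_ge (g := fun m => ee 0 (0 + 2 * π) ^ 2 * (4 * k * FF 0 * G * (C1 0 m - S2 0 m)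
      + m * (C1 0 m - S2 0 m) ^ 2 + 4 * (k * G ^ 2 * S1 0 m - k * FF 0 ^ 2 * C2 0 m
        + m * C2 0 m * S1 0 m))) (by fun_prop) 3 fun m => ?_
    have w : ∀ x, HasDerivAt (fun x => c 0 m x * ds 0 m x - dc 0 m x * s 0 m x) 0 x := fun x =>
      (((c1 0 m x).mul (s2 0 m x)).sub ((c2 0 m x).mul (s1 0 m x))).congr_deriv (by ring)
    have w1 := is_const_of_deriv_eq_zero (fun x => (w x).differentiableAt)
      (fun x => (w x).deriv) (2 * π) 0
    simp only [c3, c4, s3, s4] at w1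
    have a1 : c 0 m (2 * π) = ee 0 (0 + 2 * π) * (1 + m * (k * G * FF 0) + m ^ 2 * C1 0 m) := by
      have := (cW 0 m).1
      rw [zero_add] at this ⊢
      rw [this, hk, hG]; field_simp; ring
    have a2 : dc 0 m (2 * π) = ee 0 (0 + 2 * π) * (m * (k * G ^ 2) + m ^ 2 * C2 0 m) := by
      have := (cW 0 m).2
      rw [zero_add] at this ⊢
      rw [this, hk, hG]; field_simp; ring
    have a3 : s 0 m (2 * π) = ee 0 (0 + 2 * π) * (-(m * (k * FF 0 ^ 2)) + m ^ 2 * S1 0 m) := by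
      have := (sW 0 m).1
      rw [zero_add] at this ⊢
      rw [this, hk]; field_simp; ring
    have a4 : ds 0 m (2 * π) = ee 0 (0 + 2 * π) * (1 - m * (k * G * FF 0) + m ^ 2 * S2 0 m) := by
      have := (sW 0 m).2
      rw [zero_add] at this ⊢
      rw [this, hk, hG]; field_simp; ring
    rw [a1, a2, a3, a4] at w1
    rw [a1, a4]
    linear_combination 4 * w1
  open Pool.Agent.H.MP_5876d3_an Real Complex in
  have p2 : ((1 : ℕ) : ℕ∞) ≤ ⨅ x₀ ∈ Set.Icc (0 : ℝ) (2 * π),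
      analyticOrderAt (fun w : ℂ => s x₀ w (x₀ + 2 * π)) 0 := by
    refine le_iInf₂ fun x0 _ => ?_
    have := dS1 x0
    exact ord_ge (g := fun m => ee x0 (x0 + 2 * π) *
      (-(2 * π * I / 99 * (FF x0 ^ 2 / (I * hh x0))) + m * S1 x0 m)) (by fun_prop) 1
      (fun m => by rw [(sW x0 m).1]; ring)
  have h2 := h (lt_of_le_of_lt (add_le_add ((iInf₂_le 0 m0).trans p1.le)
    ((iInf₂_le 0 m0).trans r1.le)) (lt_of_lt_of_le (by norm_num) d3))
  rw [(add_eq_zero.mp h2).1] at p2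
  simp at p2

end Pool.Agent.S04734
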