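import Pool.Statements.S04738
import Pool.Agent.H.MP_5915c0_an.A

set_option autoImplicit false
open scoped Topology
open Pool Pool.MP_5915c0_an

namespace Pool.Agent.S04738

theorem result :
    ¬ (∀ (n d N : ℕ) (z : Fin n → ℂ) (U : Set (Fin n → ℂ)) (ρ : (Fin n → ℂ) → (Fin d → ℝ))
    (Γ : Set (Fin d → ℝ)) (p : (Fin n → ℂ) → EuclideanSpace ℂ (Fin N)) (q : (Fin n → ℂ) → ℂ)
    (g : (Fin n → ℂ) → EuclideanSpace ℂ (Fin N)),
    IsOpen U → z ∈ U → AnalyticOnNhd ℝ ρ U → ρ z = 0 →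
    Function.Surjective (fderiv ℝ ρ z) →
    (∀ v : Fin n → ℂ, ∃ a b : Fin n → ℂ,
      fderiv ℝ ρ z a = 0 ∧ fderiv ℝ ρ z b = 0 ∧ v = a + Complex.I • b) →
    IsOpen Γ → Convex ℝ Γ → Γ.Nonempty → (0 : Fin d → ℝ) ∉ Γ →
    (∀ x ∈ Γ, ∀ t : ℝ, 0 < t → t • x ∈ Γ) →
    AnalyticOnNhd ℂ p U → AnalyticOnNhd ℂ q U → ¬ (∀ᶠ w in 𝓝 z, q w = 0) →
    AnalyticOnNhd ℂ g {w | w ∈ U ∧ ρ w ∈ Γ} →
    (∀ w ∈ U, ρ w ∈ Γ → q w • g w = p w) →
    (∀ w ∈ U, ρ w ∈ Γ → ‖g w‖ < 1) →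
    (∀ m ∈ U, ρ m = 0 →
      Filter.Tendsto (fun w => ‖g w‖) (𝓝[{w | w ∈ U ∧ ρ w ∈ Γ}] m) (𝓝 1)) →
    ∃ V ∈ 𝓝 z, ∃ F : (Fin n → ℂ) → EuclideanSpace ℂ (Fin N),
      AnalyticOnNhd ℂ F V ∧ ∀ w ∈ V, w ∈ U → ρ w ∈ Γ → F w = g w) := by
  open H.MP_5915c0_an in
  intro HH
  obtain ⟨V, hV, F, hF, h⟩ := HH 2 2 2 0 (Metric.ball 0 (1 / 4)) ρ {x | ∀ i, 0 < x i} p q
    (fun w => (q w)⁻¹ • p w) Metric.isOpen_ball (Metric.mem_ball_self (by norm_num))
    (ρ.analyticOnNhd _) (map_zero _)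
    (by
      rw [ρ.fderiv]
      exact fun x => ⟨fun i => x i * Complex.I, by ext i; simp [ρ]⟩)
    (fun v => by
      rw [ρ.fderiv]
      exact ⟨fun i => (v i).re, fun i => (v i).im, by ext i; simp [ρ], by ext i; simp [ρ],
        by ext i; simp [Complex.ext_iff]⟩)
    (by
      rw [Set.ofPred_forall]
      exact isOpen_iInter_of_finite fun i => isOpen_lt continuous_const (by fun_prop))
    (by
      rw [Set.ofPred_forall]
      exact convex_iInter fun i => (convex_Ioi (0 : ℝ)).linear_preimage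
        (LinearMap.proj (R := ℝ) (φ := fun _ : Fin 2 => ℝ) i))
    ⟨1, fun _ => one_pos⟩ (fun h => lt_irrefl _ (h 0)) (fun x hx t ht i => mul_pos ht (hx i))
    (fun w _ => ap w) (fun w _ => aq w)
    (fun h => by
      have := AnalyticOnNhd.eq_of_eventuallyEq (f := q) (g := fun _ => 0) (fun w _ => aq w)
        analyticOnNhd_const h
      have := congrFun this ![1, 0]
      simp [q, c, Complex.ext_iff] at this)
    (fun w hw => ((aq w).inv (nrm hw.1 (hw.2 0) (hw.2 1)).1).smul (ap w))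
    (fun w a b => smul_inv_smul₀ (nrm a (b 0) (b 1)).1 _)
    (fun w a b => (nrm a (b 0) (b 1)).2.1)
    (fun m _ hm => tendsto_of_tendsto_of_tendsto_of_le_of_le'
      (by
        have := ((lim (congrFun hm 0) (congrFun hm 1)).const_mul 4).const_sub 1
        rwa [mul_zero, sub_zero] at this)
      tendsto_const_nhds
      (eventually_nhdsWithin_of_forall fun w hw => (nrm hw.1 (hw.2 0) (hw.2 1)).2.2)
      (eventually_nhdsWithin_of_forall fun w hw => (nrm hw.1 (hw.2 0) (hw.2 1)).2.1.le))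
  exact noext hV hF h

end Pool.Agent.S04738
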