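import Pool.Statements.S04759
-- import your own Pool.Agent.* helpers here

set_option autoImplicit false
open Set
open Pool Pool.MP_5b6163_an

namespace Pool.Agent.S04759

open Filter Topology

def enc : Bool → Bool → Fin 4
  | false, false => 0
  | true, false => 1
  | false, true => 2
  | true, true => 3

def bit (c : ℕ) (z : Fin 4) : Bool := if c = 0 then (z = 1 ∨ z = 3) else (z = 2 ∨ z = 3)

lemma bit0_enc (u v : Bool) : bit 0 (enc u v) = u := by revert u v; decide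
lemma bit1_enc (u v : Bool) : bit 1 (enc u v) = v := by revert u v; decide
lemma enc_bit (z : Fin 4) : enc (bit 0 z) (bit 1 z) = z := by revert z; decide

lemma fin_ext {z w : Fin 4} (h0 : bit 0 z = bit 0 w) (h1 : bit 1 z = bit 1 w) : z = w := by
  rw [← enc_bit z, ← enc_bit w, h0, h1]

def M (c : ℕ) (p i : ℤ) : Prop := ∃ k : ℕ, i = p + 2 ^ (2 * k + c)

open Classical in
noncomputable def pt (p q : ℤ) : ℤ → Fin 4 := fun i => enc (decide (M 0 p i)) (decide (M 1 q i))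

def X : Set (ℤ → Fin 4) :=
  {x | ∀ N : ℕ, ∃ p q : ℤ, p ≤ q ∧ ∀ i : ℤ, |i| ≤ N → x i = pt p q i}

def sh (n : ℤ) (x : ℤ → Fin 4) : ℤ → Fin 4 := fun i => x (i + n)

lemma bit0_pt (p q i : ℤ) : bit 0 (pt p q i) = true ↔ M 0 p i := by
  simp [pt, bit0_enc]

lemma bit1_pt (p q i : ℤ) : bit 1 (pt p q i) = true ↔ M 1 q i := by
  simp [pt, bit1_enc]

lemma M_shift (c : ℕ) (p i n : ℤ) : M c p (i + n) ↔ M c (p - n) i := by
  constructor
  · rintro ⟨k, hk⟩; exact ⟨k, by linarith⟩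
  · rintro ⟨k, hk⟩; exact ⟨k, by linarith⟩

lemma sh_pt (n p q : ℤ) : sh n (pt p q) = pt (p - n) (q - n) := by
  funext i
  apply fin_ext
  · rw [Bool.eq_iff_iff, bit0_pt, ← M_shift, ← bit0_pt p q]; rfl
  · rw [Bool.eq_iff_iff, bit1_pt, ← M_shift, ← bit1_pt p q]; rfl

lemma pt_mem {p q : ℤ} (h : p ≤ q) : pt p q ∈ X := fun _ => ⟨p, q, h, fun _ _ => rfl⟩

lemma sh_mem {x : ℤ → Fin 4} (hx : x ∈ X) (n : ℤ) : sh n x ∈ X := by
  intro N
  obtain ⟨p, q, hpq, h⟩ := hx (N + n.natAbs)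
  refine ⟨p - n, q - n, by linarith, fun i hi => ?_⟩
  rw [← sh_pt]
  refine h (i + n) ?_
  have := abs_add_le i n
  push_cast
  linarith

lemma pow_uniq {a b k : ℕ} (h : (4 : ℤ) ^ b - 4 ^ a = 3 * 4 ^ k) : a = k := by
  have ha : (0 : ℤ) < 4 ^ a := by positivity
  have hk : (0 : ℤ) < 4 ^ k := by positivity
  have hab : a < b := by
    have : (4 : ℤ) ^ a < 4 ^ b := by linarith
    exact (pow_lt_pow_iff_right₀ (by norm_num)).1 this
  have hkb : k < b := by
    have : (4 : ℤ) ^ k < 4 ^ b := by linarith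
    exact (pow_lt_pow_iff_right₀ (by norm_num)).1 this
  obtain ⟨d, rfl⟩ : ∃ d, b = d + 1 := ⟨b - 1, by omega⟩
  have h1 : (4 : ℤ) ^ a ≤ 4 ^ d := pow_le_pow_right₀ (by norm_num) (by omega)
  have h2 : (4 : ℤ) ^ k ≤ 4 ^ d := pow_le_pow_right₀ (by norm_num) (by omega)
  rw [pow_succ] at h
  have h3 : (4 : ℤ) ^ a = 4 ^ k := by linarith
  exact pow_right_injective₀ (by norm_num) (by norm_num) h3

lemma M_uniq {c k : ℕ} {p p' : ℤ} (h1 : M c p' (p + 2 ^ (2 * k + c)))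
    (h2 : M c p' (p + 2 ^ (2 * (k + 1) + c))) : p' = p := by
  obtain ⟨a, ha⟩ := h1
  obtain ⟨b, hb⟩ := h2
  have e : ∀ j : ℕ, (2 : ℤ) ^ (2 * j + c) = 4 ^ j * 2 ^ c := by
    intro j; rw [pow_add, pow_mul]; norm_num
  rw [e, e] at ha hb
  have hc : (0 : ℤ) < 2 ^ c := by positivity
  have : (4 : ℤ) ^ b - 4 ^ a = 3 * 4 ^ k := by
    apply mul_right_cancel₀ hc.ne'
    rw [pow_succ] at hb
    linarith
  have := pow_uniq this
  subst this
  linarith

lemma struct0 {x : ℤ → Fin 4} (hx : x ∈ X) {p : ℤ} {k : ℕ}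
    (h1 : bit 0 (x (p + 2 ^ (2 * k + 0))) = true)
    (h2 : bit 0 (x (p + 2 ^ (2 * (k + 1) + 0))) = true) (i : ℤ) :
    bit 0 (x i) = true ↔ M 0 p i := by
  obtain ⟨p', q', -, h⟩ := hx (i.natAbs + (p + 2 ^ (2 * k + 0)).natAbs +
    (p + 2 ^ (2 * (k + 1) + 0)).natAbs)
  rw [h _ (by push_cast; linarith [abs_nonneg i, abs_nonneg (p + 2 ^ (2 * (k + 1) + 0))]),
    bit0_pt] at h1
  rw [h _ (by push_cast; linarith [abs_nonneg i, abs_nonneg (p + 2 ^ (2 * k + 0))]),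
    bit0_pt] at h2
  rw [h i (by
    push_cast
    linarith [abs_nonneg (p + 2 ^ (2 * k + 0)), abs_nonneg (p + 2 ^ (2 * (k + 1) + 0))]),
    bit0_pt, M_uniq h1 h2]

lemma struct1 {x : ℤ → Fin 4} (hx : x ∈ X) {p : ℤ} {k : ℕ}
    (h1 : bit 1 (x (p + 2 ^ (2 * k + 1))) = true)
    (h2 : bit 1 (x (p + 2 ^ (2 * (k + 1) + 1))) = true) (i : ℤ) :
    bit 1 (x i) = true ↔ M 1 p i := by
  obtain ⟨p', q', -, h⟩ := hx (i.natAbs + (p + 2 ^ (2 * k + 1)).natAbs +
    (p + 2 ^ (2 * (k + 1) + 1)).natAbs)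
  rw [h _ (by push_cast; linarith [abs_nonneg i, abs_nonneg (p + 2 ^ (2 * (k + 1) + 1))]),
    bit1_pt] at h1
  rw [h _ (by push_cast; linarith [abs_nonneg i, abs_nonneg (p + 2 ^ (2 * k + 1))]),
    bit1_pt] at h2
  rw [h i (by
    push_cast
    linarith [abs_nonneg (p + 2 ^ (2 * k + 1)), abs_nonneg (p + 2 ^ (2 * (k + 1) + 1))]),
    bit1_pt, M_uniq h1 h2]

lemma eq_pt {x : ℤ → Fin 4} (hx : x ∈ X) {p q : ℤ} {k : ℕ}
    (h1 : bit 0 (x (p + 2 ^ (2 * k + 0))) = true)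
    (h2 : bit 0 (x (p + 2 ^ (2 * (k + 1) + 0))) = true)
    (h3 : bit 1 (x (q + 2 ^ (2 * k + 1))) = true)
    (h4 : bit 1 (x (q + 2 ^ (2 * (k + 1) + 1))) = true) : x = pt p q := by
  funext i
  apply fin_ext
  · rw [Bool.eq_iff_iff, struct0 hx h1 h2, bit0_pt]
  · rw [Bool.eq_iff_iff, struct1 hx h3 h4, bit1_pt]

lemma le_of_pt_mem {p q : ℤ} (h : pt p q ∈ X) : p ≤ q := by
  obtain ⟨p', q', hpq, h⟩ := h (p.natAbs + q.natAbs + 8)
  have b : ∀ j : ℕ, j ≤ 3 → |(2 : ℤ) ^ j| ≤ 8 := by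
    intro j hj; interval_cases j <;> norm_num
  have e0 : ∀ k : ℕ, k ≤ 1 → M 0 p' (p + 2 ^ (2 * k + 0)) := by
    intro k hk
    rw [← bit0_pt p' q', ← h, bit0_pt]
    · exact ⟨k, rfl⟩
    · push_cast
      linarith [abs_add_le p (2 ^ (2 * k + 0)), b (2 * k + 0) (by omega), abs_nonneg q]
  have e1 : ∀ k : ℕ, k ≤ 1 → M 1 q' (q + 2 ^ (2 * k + 1)) := by
    intro k hk
    rw [← bit1_pt p' q', ← h, bit1_pt]
    · exact ⟨k, rfl⟩
    · push_cast
      linarith [abs_add_le q (2 ^ (2 * k + 1)), b (2 * k + 1) (by omega), abs_nonneg p]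
  rw [← M_uniq (e0 0 (by omega)) (e0 1 le_rfl), ← M_uniq (e1 0 (by omega)) (e1 1 le_rfl)]
  exact hpq

lemma tends_of_ev {y : ℕ → ℤ → Fin 4} {x : ℤ → Fin 4} (h : ∀ i, ∀ᶠ k in atTop, y k i = x i) :
    Tendsto y atTop (𝓝 x) :=
  tendsto_pi_nhds.2 fun i => tendsto_const_nhds.congr' ((h i).mono fun _ hk => hk.symm)

lemma ev_of_tends {y : ℕ → ℤ → Fin 4} {x : ℤ → Fin 4} (h : Tendsto y atTop (𝓝 x)) (i : ℤ) :
    ∀ᶠ k in atTop, y k i = x i := by
  have := tendsto_pi_nhds.1 h i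
  rwa [nhds_discrete, tendsto_pure] at this

lemma X_closed : IsClosed X := by
  refine isClosed_of_closure_subset fun x hx => ?_
  obtain ⟨y, hy, hl⟩ := mem_closure_iff_seq_limit.1 hx
  intro N
  have : ∀ᶠ k in atTop, ∀ i ∈ Set.Icc (-(N : ℤ)) N, y k i = x i :=
    (eventually_all_finite (Set.finite_Icc _ _)).2 fun i _ => ev_of_tends hl i
  obtain ⟨k, hk⟩ := this.exists
  obtain ⟨p, q, hpq, h⟩ := hy k N
  exact ⟨p, q, hpq, fun i hi => by rw [← hk i (abs_le.1 hi), h i hi]⟩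

lemma approx {x : ℤ → Fin 4} (hx : x ∈ X) : ∃ p q : ℕ → ℤ, (∀ N, p N ≤ q N) ∧
    Tendsto (fun N => pt (p N) (q N)) atTop (𝓝 x) := by
  choose p q hpq h using hx
  refine ⟨p, q, hpq, tends_of_ev fun i => ?_⟩
  filter_upwards [eventually_ge_atTop i.natAbs] with N hN
  refine (h N i ?_).symm
  have : ((i.natAbs : ℕ) : ℤ) ≤ N := by exact_mod_cast hN
  rwa [Int.natCast_natAbs] at this

lemma pow_gap {u w : ℕ} (h : u ≠ w) : (2 : ℤ) ^ u ≤ 2 * |2 ^ u - 2 ^ w| := by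
  have hu : (0 : ℤ) < 2 ^ u := by positivity
  rcases lt_or_gt_of_ne h with h | h
  · have : (2 : ℤ) ^ (u + 1) ≤ 2 ^ w := pow_le_pow_right₀ (by norm_num) h
    rw [pow_succ] at this
    rw [abs_of_nonpos (by linarith)]
    linarith
  · have : (2 : ℤ) ^ (w + 1) ≤ 2 ^ u := pow_le_pow_right₀ (by norm_num) h
    rw [pow_succ] at this
    have hw : (0 : ℤ) < 2 ^ w := by positivity
    rw [abs_of_nonneg (by linarith)]
    linarith

lemma M_ev {c c' : ℕ} (hc : c < 2) (hc' : c' < 2) (p t : ℤ) :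
    ∀ᶠ k : ℕ in atTop, (M c' p (t + 2 ^ (2 * k + c)) ↔ (c = c' ∧ t = p)) := by
  filter_upwards [eventually_ge_atTop (2 * (p - t).natAbs)] with k hk
  constructor
  · rintro ⟨l, hl⟩
    by_cases he : 2 * k + c = 2 * l + c'
    · rw [he] at hl
      exact ⟨by omega, by linarith⟩
    · exfalso
      have h1 := pow_gap he
      have h2 : (2 : ℤ) ^ (2 * k + c) - 2 ^ (2 * l + c') = p - t := by linarith
      rw [h2] at h1
      have h3 : k < 2 ^ (2 * k + c) :=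
        lt_of_lt_of_le Nat.lt_two_pow_self (Nat.pow_le_pow_right (by norm_num) (by omega))
      have h4 : (k : ℤ) < 2 ^ (2 * k + c) := by exact_mod_cast h3
      have h5 : (2 : ℤ) * ((p - t).natAbs : ℤ) ≤ k := by exact_mod_cast hk
      rw [Int.natCast_natAbs] at h5
      linarith
  · rintro ⟨rfl, rfl⟩
    exact ⟨k, rfl⟩

def one (c : ℕ) : ℤ → Fin 4 := fun i => enc (decide (c = 0 ∧ i = 0)) (decide (c = 1 ∧ i = 0))

lemma lim0 (p q : ℤ) : Tendsto (fun k : ℕ => sh (p + 2 ^ (2 * k + 0)) (pt p q)) atTop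
    (𝓝 (one 0)) := by
  refine tends_of_ev fun i => ?_
  filter_upwards [M_ev (c := 0) (c' := 0) (by omega) (by omega) p (i + p),
    M_ev (c := 0) (c' := 1) (by omega) (by omega) q (i + p)] with k h1 h2
  simp only [sh, pt, one, ← add_assoc, h1, h2]
  simp

lemma lim1 (p q : ℤ) : Tendsto (fun k : ℕ => sh (q + 2 ^ (2 * k + 1)) (pt p q)) atTop
    (𝓝 (one 1)) := by
  refine tends_of_ev fun i => ?_
  filter_upwards [M_ev (c := 1) (c' := 0) (by omega) (by omega) p (i + q),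
    M_ev (c := 1) (c' := 1) (by omega) (by omega) q (i + q)] with k h1 h2
  simp only [sh, pt, one, ← add_assoc, h1, h2]
  simp

lemma comm {g : (ℤ → Fin 4) → (ℤ → Fin 4)}
    (hg : ∀ x ∈ X, g (fun i => x (i + 1)) = fun i => g x (i + 1)) {x : ℤ → Fin 4} (hx : x ∈ X)
    (n : ℤ) : g (sh n x) = sh n (g x) := by
  have step : ∀ m : ℤ, g (sh (m + 1) x) = fun i => g (sh m x) (i + 1) := by
    intro m
    rw [← hg _ (sh_mem hx m)]
    congr 1
    funext i
    simp only [sh]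
    congr 1; ring
  induction n using Int.induction_on with
  | zero =>
    have : ∀ y : ℤ → Fin 4, sh 0 y = y := fun y => by funext i; simp [sh]
    rw [this, this]
  | succ n ih =>
    rw [step, ih]
    funext i
    simp only [sh]
    congr 1; ring
  | pred n ih =>
    have h := step (-(n : ℤ) - 1)
    rw [sub_add_cancel, ih] at h
    funext i
    have := congrFun h (i - 1)
    simp only [sub_add_cancel] at this
    rw [← this]
    simp only [sh]
    congr 1; ring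

lemma tends_g {g : (ℤ → Fin 4) → (ℤ → Fin 4)} (hc : ContinuousOn g X) {y : ℕ → ℤ → Fin 4}
    {x : ℤ → Fin 4} (hy : ∀ k, y k ∈ X) (h : Tendsto y atTop (𝓝 x)) (i : ℤ) :
    ∀ᶠ k in atTop, g (y k) i = g x i := by
  have hx : x ∈ X := X_closed.mem_of_tendsto h (Eventually.of_forall hy)
  exact ev_of_tends ((hc x hx).tendsto.comp
    (tendsto_nhdsWithin_iff.2 ⟨h, Eventually.of_forall hy⟩)) i

lemma injunctive (g : (ℤ → Fin 4) → (ℤ → Fin 4)) (hm : MapsTo g X X) (hc : ContinuousOn g X)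
    (hg : ∀ x ∈ X, g (fun i => x (i + 1)) = fun i => g x (i + 1)) (hs : SurjOn g X X) :
    InjOn g X := by
  obtain ⟨x, hx, hgx⟩ := hs (pt_mem (le_refl (0 : ℤ)))
  obtain ⟨P, Q, hPQ, hl⟩ := approx hx
  have t := tends_g hc (fun N => pt_mem (hPQ N)) hl
  obtain ⟨N, n1, n2, n3, n4⟩ := ((t (0 + 2 ^ (2 * 0 + 0))).and ((t (0 + 2 ^ (2 * (0 + 1) + 0))).and
    ((t (0 + 2 ^ (2 * 0 + 1))).and (t (0 + 2 ^ (2 * (0 + 1) + 1)))))).exists
  have hpq := hPQ N
  have h00 : g (pt (P N) (Q N)) = pt 0 0 := by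
    refine eq_pt (k := 0) (hm (pt_mem hpq)) ?_ ?_ ?_ ?_
    · rw [n1, hgx, bit0_pt]; exact ⟨0, rfl⟩
    · rw [n2, hgx, bit0_pt]; exact ⟨1, rfl⟩
    · rw [n3, hgx, bit1_pt]; exact ⟨0, rfl⟩
    · rw [n4, hgx, bit1_pt]; exact ⟨1, rfl⟩
  generalize P N = p at hpq h00
  generalize Q N = q at hpq h00
  have L0 : ∀ p' q' : ℤ, p' ≤ q' → ∀ᶠ k : ℕ in atTop,
      g (pt p' q') (p' - p + 2 ^ (2 * k + 0)) = g (one 0) (-p) := by
    intro p' q' h
    filter_upwards [tends_g hc (fun k => sh_mem (pt_mem h) _) (lim0 p' q') (-p)] with k hk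
    rw [← hk, comm hg (pt_mem h)]
    simp only [sh]
    congr 1; ring
  have L1 : ∀ p' q' : ℤ, p' ≤ q' → ∀ᶠ k : ℕ in atTop,
      g (pt p' q') (q' - q + 2 ^ (2 * k + 1)) = g (one 1) (-q) := by
    intro p' q' h
    filter_upwards [tends_g hc (fun k => sh_mem (pt_mem h) _) (lim1 p' q') (-q)] with k hk
    rw [← hk, comm hg (pt_mem h)]
    simp only [sh]
    congr 1; ring
  have a0 : bit 0 (g (one 0) (-p)) = true := by
    obtain ⟨k, hk⟩ := (L0 p q hpq).exists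
    rw [← hk, h00, bit0_pt]
    exact ⟨k, by ring⟩
  have a1 : bit 1 (g (one 1) (-q)) = true := by
    obtain ⟨k, hk⟩ := (L1 p q hpq).exists
    rw [← hk, h00, bit1_pt]
    exact ⟨k, by ring⟩
  have key : ∀ p' q' : ℤ, p' ≤ q' → g (pt p' q') = pt (p' - p) (q' - q) := by
    intro p' q' h
    obtain ⟨K, hK⟩ := eventually_atTop.1 ((L0 p' q' h).and (L1 p' q' h))
    refine eq_pt (k := K) (hm (pt_mem h)) ?_ ?_ ?_ ?_
    · rw [(hK K le_rfl).1, a0]
    · rw [(hK (K + 1) (by omega)).1, a0]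
    · rw [(hK K le_rfl).2, a1]
    · rw [(hK (K + 1) (by omega)).2, a1]
  have hqp : q ≤ p := by
    have h1 := hm (pt_mem (le_refl (0 : ℤ)))
    rw [key 0 0 le_rfl] at h1
    have := le_of_pt_mem h1
    linarith
  have hpq' : q = p := le_antisymm hqp hpq
  subst hpq'
  have fin : ∀ y ∈ X, ∀ i, g y i = y (i + q) := by
    intro y hy i
    obtain ⟨P', Q', hPQ', hl'⟩ := approx hy
    obtain ⟨k, h1, h2⟩ := ((tends_g hc (fun N => pt_mem (hPQ' N)) hl' i).and
      (ev_of_tends hl' (i + q))).exists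
    rw [← h1, ← h2, key _ _ (hPQ' k), ← sh_pt]
    rfl
  intro y hy z hz h
  funext i
  have h1 := fin y hy (i - q)
  have h2 := fin z hz (i - q)
  rw [sub_add_cancel] at h1 h2
  rw [← h1, ← h2, h]

def f (x : ℤ → Fin 4) : ℤ → Fin 4 := fun i => enc (bit 0 (x (i + 1))) (bit 1 (x i))

lemma f_inj : Function.Injective f := by
  intro x y h
  funext i
  apply fin_ext
  · have := congrArg (bit 0) (congrFun h (i - 1))
    simpa [f, bit0_enc] using this
  · have := congrArg (bit 1) (congrFun h i)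
    simpa [f, bit1_enc] using this

lemma f_pt (p q : ℤ) : f (pt p q) = pt (p - 1) q := by
  funext i
  apply fin_ext
  · rw [Bool.eq_iff_iff, bit0_pt, ← M_shift, ← bit0_pt p q, f, bit0_enc]
  · rw [Bool.eq_iff_iff, bit1_pt, ← bit1_pt p q, f, bit1_enc]

theorem result :
    ∃ n : ℕ, ∃ X : Set (ℤ → Fin n),
      IsClosed X ∧
      (∀ x : ℤ → Fin n, x ∈ X ↔ (fun i => x (i + 1)) ∈ X) ∧
      (∀ f : (ℤ → Fin n) → (ℤ → Fin n),
        MapsTo f X X → ContinuousOn f X →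
        (∀ x ∈ X, f (fun i => x (i + 1)) = fun i => f x (i + 1)) →
        SurjOn f X X → InjOn f X) ∧
      ¬ (∀ f : (ℤ → Fin n) → (ℤ → Fin n),
        MapsTo f X X → ContinuousOn f X →
        (∀ x ∈ X, f (fun i => x (i + 1)) = fun i => f x (i + 1)) →
        InjOn f X → SurjOn f X X) := by
  refine ⟨4, X, X_closed, fun x => ⟨fun hx => sh_mem hx 1, fun hx => ?_⟩, injunctive, fun h => ?_⟩
  · have := sh_mem hx (-1)
    convert this using 1
    funext i
    simp [sh]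
  · have hs := h f ?_ ?_ (fun x _ => rfl) f_inj.injOn
    · obtain ⟨x, hx, hfx⟩ := hs (pt_mem (le_refl (0 : ℤ)))
      have : f x = f (pt 1 0) := by rw [hfx, f_pt]; norm_num
      rw [f_inj this] at hx
      have := le_of_pt_mem hx
      omega
    · intro x hx N
      obtain ⟨p, q, hpq, hh⟩ := hx (N + 1)
      refine ⟨p - 1, q, by linarith, fun i hi => ?_⟩
      rw [← f_pt]
      simp only [f]
      rw [hh (i + 1), hh i]
      · push_cast; linarith
      · push_cast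
        have := abs_add_le i 1
        rw [abs_one] at this
        linarith
    · refine Continuous.continuousOn (continuous_pi fun i => ?_)
      have h1 : Continuous fun z : Fin 4 × Fin 4 => enc (bit 0 z.1) (bit 1 z.2) :=
        continuous_of_discreteTopology
      have h2 : Continuous fun x : ℤ → Fin 4 => (x (i + 1), x i) :=
        (continuous_apply (i + 1)).prodMk (continuous_apply i)
      exact h1.comp h2

end Pool.Agent.S04759
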