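import Pool.Statements.S04785
import Pool.Agent.H.MP_5d54af_an.C

set_option autoImplicit false
open scoped BigOperators
open Pool Pool.MP_5d54af_an

namespace Pool.Agent.S04785

theorem result :
    ∀ (a : ℕ → ℂ) (f : ℂ → ℂ),
      (∀ z : ℂ, HasSum (fun k : ℕ => a k * z ^ k) (f z)) →
      (∀ z : ℂ, f z ≠ 0) →
      (∃ z w : ℂ, f z ≠ f w) →
      ∀ ε : ℝ, 0 < ε →
        ∃ z₀ : ℂ, ∃ n : ℕ,
          (∑ k ∈ Finset.range (n + 1), a k * z₀ ^ k) = 0 ∧ ‖f z₀‖ < ε := by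
  intro a f hs h0 hn e he
  exact H.MP_5d54af_an.final hs h0 hn he

end Pool.Agent.S04785
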