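import Pool.Statements.S04793
import Pool.Agent.H.MP_5d8c24_an.D

set_option autoImplicit false
open MeasureTheory
open Pool Pool.MP_5d8c24_an

namespace Pool.Agent.S04793

theorem result :
    ∀ (α : Type) (mα : MeasurableSpace α) (_ : StandardBorelSpace α) (μ : Measure α),
      IsProbabilityMeasure μ → NoAtoms μ →
      Filter.Eventually
        (fun T : {e : α ≃ᵐ α // MeasurePreserving e.toFun μ μ} =>
          ∀ F : MeasurableSpace α, F ≤ mα →
            (∀ s, MeasurableSet[F] s →
              (∃ t, MeasurableSet[F] t ∧ μ (symmDiff (Set.preimage T.1.toFun s) t) = 0) ∧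
              (∃ t, MeasurableSet[F] t ∧ μ (symmDiff (Set.preimage T.1.invFun s) t) = 0)) →
            (∃ s, MeasurableSet[F] s ∧ 0 < μ s ∧ μ s < 1) →
            ∃ G : MeasurableSpace α, G ≤ F ∧
              (∀ s, MeasurableSet[G] s →
                (∃ t, MeasurableSet[G] t ∧ μ (symmDiff (Set.preimage T.1.toFun s) t) = 0) ∧
                (∃ t, MeasurableSet[G] t ∧ μ (symmDiff (Set.preimage T.1.invFun s) t) = 0)) ∧
              (∃ s, MeasurableSet[G] s ∧ 0 < μ s ∧ μ s < 1) ∧
              ∃ s, MeasurableSet[F] s ∧ ∀ t, MeasurableSet[G] t → μ (symmDiff s t) ≠ 0)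
        (@residual {e : α ≃ᵐ α // MeasurePreserving e.toFun μ μ}
          (⨅ (A : Set α) (B : Set α) (_ : MeasurableSet A) (_ : MeasurableSet B),
            TopologicalSpace.induced
              (fun T : {e : α ≃ᵐ α // MeasurePreserving e.toFun μ μ} =>
                μ (symmDiff (Set.preimage T.1.toFun A) B))
              inferInstance)) := by
  intro α mα _ μ _ hn
  have : NullSingletonClass μ := hn
  filter_upwards [Pool.Agent.H.MP_5d8c24_an.gen' (μ := μ)] with T hT F hF hinv hs
  exact Pool.Agent.H.MP_5d8c24_an.final F T.1 T.2 hT.1 hT.2 hF hinv hs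

end Pool.Agent.S04793
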