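import Pool.Statements.S04808
-- import your own Pool.Agent.* helpers here

set_option autoImplicit false
open Pool Pool.MP_5e6479_an

namespace Pool.Agent.S04808

lemma notpoly (f : ℂ → ℂ) (h0 : ∀ z, f z ≠ 0) (a b : ℂ) (hab : ‖f a‖ ≠ ‖f b‖) :
    ¬ ∃ p : Polynomial ℂ, ∀ z, f z = p.eval z := by
  rintro ⟨p, hp⟩
  by_cases hd : 0 < p.degree
  · obtain ⟨z, hz⟩ := Complex.exists_root hd
    exact h0 z (by rw [hp]; exact hz)
  · push Not at hd
    rw [Polynomial.eq_C_of_degree_le_zero hd] at hp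
    apply hab
    rw [hp, hp]; simp

lemma lower (h : ℂ → ℂ) (hd : Differentiable ℂ h) (δ : ℝ)
    (hδ : ∀ z : ℂ, ¬ (z.re ≤ 0 ∨ Real.sin z.im = 0) → δ ≤ ‖h z‖) (z : ℂ) (hz : 0 < z.re) :
    δ ≤ ‖h z‖ := by
  by_cases hs : Real.sin z.im = 0
  · have hc : Continuous fun t : ℝ => ‖h (z + t * Complex.I)‖ :=
      (hd.continuous.comp (by fun_prop)).norm
    have ht := (hc.tendsto 0).mono_left (nhdsWithin_le_nhds (s := Set.Ioi (0:ℝ)))
    simp only [Complex.ofReal_zero, zero_mul, add_zero] at ht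
    refine ge_of_tendsto ht ?_
    filter_upwards [Ioo_mem_nhdsGT Real.pi_pos] with t ht
    apply hδ
    have h1 : 0 < Real.sin t := Real.sin_pos_of_pos_of_lt_pi ht.1 ht.2
    have h2 : Real.cos z.im ≠ 0 := by
      intro h2
      have := Real.sin_sq_add_cos_sq z.im
      rw [hs, h2] at this; norm_num at this
    simp only [Complex.add_re, Complex.mul_re, Complex.ofReal_re, Complex.I_re, mul_zero,
      Complex.ofReal_im, Complex.I_im, mul_one, sub_self, add_zero, Complex.add_im,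
      Complex.mul_im, Real.sin_add, hs, zero_mul, zero_add, mul_eq_zero, not_or, not_le]
    exact ⟨hz, h2, h1.ne'⟩
  · exact hδ z (by push Not; exact ⟨hz, hs⟩)

lemma far (h : ℂ → ℂ) (hd : Differentiable ℂ h) (δ M : ℝ) (hδ0 : 0 < δ)
    (hδ : ∀ z : ℂ, 0 < z.re → δ ≤ ‖h z‖)
    (hM : ∀ z : ℂ, Real.sin z.im = 0 → ‖h z‖ ≤ M) (z : ℂ) (hz : 16 * M / δ ≤ z.re) :
    ‖h z‖ ≤ 2 * M := by
  have hδM : δ ≤ M := (hδ 1 (by simp)).trans (hM 1 (by simp))
  have hM0 : 0 < M := hδ0.trans_le hδM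
  have hR : 16 ≤ z.re := by
    refine le_trans ?_ hz
    rw [le_div_iff₀ hδ0]; nlinarith
  set k : ℤ := ⌊z.im / Real.pi⌋ with hk
  set c : ℂ := ⟨z.re, k * Real.pi⟩ with hc
  have hpi := Real.pi_pos
  have hk1 : (k:ℝ) * Real.pi ≤ z.im := by
    have := Int.floor_le (z.im / Real.pi)
    rwa [le_div_iff₀ hpi] at this
  have hk2 : z.im < (k + 1) * Real.pi := by
    have := Int.lt_floor_add_one (z.im / Real.pi)
    rwa [div_lt_iff₀ hpi] at this
  have hdist : dist z c ≤ 4 := by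
    rw [Complex.dist_of_re_eq (by simp [hc]), Real.dist_eq, abs_le]
    simp only [hc]
    constructor <;> nlinarith [Real.pi_le_four]
  have hball : ∀ w ∈ Metric.ball c z.re, 0 < w.re := by
    intro w hw
    have h1 : |(w - c).re| ≤ ‖w - c‖ := Complex.abs_re_le_norm _
    rw [mem_ball_iff_norm] at hw
    have h2 := (abs_le.1 h1).1
    simp only [Complex.sub_re, hc] at h2 hw
    linarith
  have hne : ∀ w : ℂ, 0 < w.re → h w ≠ 0 := by
    intro w hw h0
    have := hδ w hw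
    rw [h0] at this; simp at this; linarith
  have hinv : ∀ w : ℂ, 0 < w.re → ‖(h w)⁻¹‖ ≤ 1 / δ := by
    intro w hw
    rw [norm_inv, one_div]
    exact inv_anti₀ hδ0 (hδ w hw)
  have hcre : 0 < c.re := by simp only [hc]; linarith
  have key := Complex.dist_le_div_mul_dist_of_mapsTo_ball (f := fun w => (h w)⁻¹) (c := c)
    (R₁ := z.re) (R₂ := 2 / δ) (z := z)
    (fun w hw => ((hd w).inv (hne w (hball w hw))).differentiableWithinAt)
    (fun w hw => by
      rw [mem_closedBall_iff_norm]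
      refine (norm_sub_le _ _).trans ?_
      have := hinv w (hball w hw)
      have := hinv c hcre
      have e : 2 / δ = 1 / δ + 1 / δ := by ring
      linarith)
    (by rw [Metric.mem_ball]; linarith)
  have hcM : ‖h c‖ ≤ M := hM c (by simp [hc, Real.sin_int_mul_pi])
  have h1 : 1 / M ≤ ‖(h c)⁻¹‖ := by
    rw [norm_inv, one_div]
    exact inv_anti₀ (hδ0.trans_le (hδ c hcre)) hcM
  have h2 : 2 / δ / z.re * dist z c ≤ 1 / (2 * M) := by
    have hz' : 16 * M ≤ z.re * δ := by rwa [div_le_iff₀ hδ0] at hz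
    have : 2 / δ / z.re * dist z c ≤ 2 / δ / z.re * 4 :=
      mul_le_mul_of_nonneg_left hdist (by positivity)
    refine this.trans ?_
    have hzp : 0 < z.re := by linarith
    rw [div_div, div_mul_eq_mul_div, div_le_div_iff₀ (by positivity) (by positivity)]
    nlinarith
  have h3 : 1 / (2 * M) ≤ ‖(h z)⁻¹‖ := by
    have h4 := norm_sub_norm_le ((h c)⁻¹) ((h z)⁻¹)
    rw [← dist_eq_norm, dist_comm] at h4
    have e : 1 / M = 1 / (2 * M) + 1 / (2 * M) := by field_simp; ring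
    linarith
  have hzp : 0 < ‖h z‖ := hδ0.trans_le (hδ z (by linarith))
  rw [norm_inv, one_div, inv_le_inv₀ (by positivity) hzp] at h3
  exact h3

lemma bdd (h : ℂ → ℂ) (hd : Differentiable ℂ h) (R M : ℝ)
    (h1 : ∀ z : ℂ, z.re ≤ 0 → ‖h z‖ ≤ M) (h2 : ∀ z : ℂ, R ≤ z.re → ‖h z‖ ≤ M)
    (h3 : ∀ z : ℂ, Real.sin z.im = 0 → ‖h z‖ ≤ M) (z : ℂ) : ‖h z‖ ≤ M := by
  by_cases a1 : z.re ≤ 0
  · exact h1 z a1
  by_cases a2 : R ≤ z.re
  · exact h2 z a2
  push Not at a1 a2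
  set k : ℤ := ⌊z.im / Real.pi⌋ with hk
  have hpi := Real.pi_pos
  have hk1 : (k:ℝ) * Real.pi ≤ z.im := by
    have := Int.floor_le (z.im / Real.pi)
    rwa [le_div_iff₀ hpi] at this
  have hk2 : z.im < (k + 1) * Real.pi := by
    have := Int.lt_floor_add_one (z.im / Real.pi)
    rwa [div_lt_iff₀ hpi] at this
  rcases hk1.eq_or_lt with e | hk1
  · exact h3 z (by rw [← e, Real.sin_int_mul_pi])
  set U : Set ℂ := Set.Ioo 0 R ×ℂ Set.Ioo ((k:ℝ) * Real.pi) ((k + 1) * Real.pi) with hU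
  have hUo : IsOpen U := isOpen_Ioo.reProdIm isOpen_Ioo
  refine Complex.norm_le_of_forall_mem_frontier_norm_le (U := U)
    ((Metric.isBounded_Ioo _ _).reProdIm (Metric.isBounded_Ioo _ _)) hd.diffContOnCl ?_
    (subset_closure ⟨⟨a1, a2⟩, hk1, hk2⟩)
  intro w hw
  rw [hUo.frontier_eq] at hw
  obtain ⟨hw1, hw2⟩ := hw
  have hw3 : w ∈ Set.Icc 0 R ×ℂ Set.Icc ((k:ℝ) * Real.pi) ((k + 1) * Real.pi) := by
    refine closure_minimal ?_ (isClosed_Icc.reProdIm isClosed_Icc) hw1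
    intro v hv
    exact ⟨Set.Ioo_subset_Icc_self hv.1, Set.Ioo_subset_Icc_self hv.2⟩
  obtain ⟨⟨b1, b2⟩, b3, b4⟩ := hw3
  rcases b1.eq_or_lt with e | b1
  · exact h1 w e.ge
  rcases b2.eq_or_lt with e | b2
  · exact h2 w e.ge
  rcases b3.eq_or_lt with e | b3
  · exact h3 w (by rw [← e, Real.sin_int_mul_pi])
  rcases b4.eq_or_lt with e | b4
  · refine h3 w ?_
    rw [e]
    exact_mod_cast Real.sin_int_mul_pi (k + 1)
  exact absurd ⟨⟨b1, b2⟩, b3, b4⟩ hw2

theorem result :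
    ¬ (∀ E : Set ℂ, IsClosed E →
      (∃ f : ℂ → ℂ, Differentiable ℂ f ∧
          (¬ ∃ p : Polynomial ℂ, ∀ z, f z = p.eval z) ∧
          ∃ M : ℝ, ∀ z ∈ E, ‖f z‖ ≤ M) →
      (∃ g : ℂ → ℂ, Differentiable ℂ g ∧
          (¬ ∃ p : Polynomial ℂ, ∀ z, g z = p.eval z) ∧
          ∃ δ : ℝ, 0 < δ ∧ ∀ z ∉ E, δ ≤ ‖g z‖) →
      ∃ h : ℂ → ℂ, Differentiable ℂ h ∧
          (¬ ∃ p : Polynomial ℂ, ∀ z, h z = p.eval z) ∧
          (∃ M : ℝ, ∀ z ∈ E, ‖h z‖ ≤ M) ∧
          ∃ δ : ℝ, 0 < δ ∧ ∀ z ∉ E, δ ≤ ‖h z‖) := by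
  intro H
  have hE : IsClosed {z : ℂ | z.re ≤ 0 ∨ Real.sin z.im = 0} :=
    (isClosed_le Complex.continuous_re continuous_const).union
      (isClosed_eq (Real.continuous_sin.comp Complex.continuous_im) continuous_const)
  have hn : ∀ z : ℂ, ‖Complex.exp (Complex.I * Complex.exp z)‖
      = Real.exp (-(Real.exp z.re * Real.sin z.im)) := by
    intro z
    rw [Complex.norm_exp]
    simp [Complex.exp_im]
  obtain ⟨h, hd, hp, ⟨M, hM⟩, δ, hδ0, hδ⟩ := H _ hE
    ⟨fun z => Complex.exp (Complex.I * Complex.exp z), by fun_prop,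
      notpoly _ (fun z => Complex.exp_ne_zero _) 0 ⟨0, Real.pi / 2⟩ (by
        rw [hn, hn]; simp [eq_comm (a := (1:ℝ))]), Real.exp 1, by
        intro z hz
        rw [hn]
        apply Real.exp_le_exp.2
        rcases hz with hz | hz
        · have h1 : Real.exp z.re ≤ 1 := Real.exp_le_one_iff.2 hz
          have h2 := Real.exp_pos z.re
          nlinarith [Real.neg_one_le_sin z.im]
        · rw [hz]; simp⟩
    ⟨Complex.exp, Complex.differentiable_exp,
      notpoly _ Complex.exp_ne_zero 0 1 (by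
        rw [Complex.norm_exp, Complex.norm_exp]; simp [eq_comm (a := (1:ℝ))]), 1, one_pos, by
        intro z hz
        rw [Complex.norm_exp]
        apply Real.one_le_exp
        by_contra h0
        exact hz (Or.inl (by linarith))⟩
  have hlow := lower h hd δ hδ
  have hδM : δ ≤ M := (hlow 1 (by simp)).trans (hM 1 (Or.inr (by simp)))
  have hfar := far h hd δ M hδ0 hlow (fun z hz => hM z (Or.inr hz))
  have hb := bdd h hd (16 * M / δ) (2 * M) (fun z hz => by linarith [hM z (Or.inl hz)]) hfar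
    (fun z hz => by linarith [hM z (Or.inr hz)])
  apply hp
  refine ⟨Polynomial.C (h 0), fun z => ?_⟩
  rw [Polynomial.eval_C]
  refine hd.apply_eq_apply_of_bounded ?_ z 0
  rw [isBounded_iff_forall_norm_le]
  exact ⟨2 * M, by rintro _ ⟨w, rfl⟩; exact hb w⟩

end Pool.Agent.S04808
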