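import Pool.Statements.S04810
import Pool.Agent.H.MP_a71740_an.N

set_option autoImplicit false
open Pool Pool.MP_5e7086_an

namespace Pool.Agent.S04810

/-- The negation of the preceding statement: There are 0<p<1, a metric space M and an infinite-dimensional real Banach space X such that X maps boundedly into the free p-space of M with a bounded left inverse, i.e. X is isomorphic to a complemented subspace. -/
theorem result :
    ¬ (∃ (p : ℝ), 0 < p ∧ p < 1 ∧
    ∃ (M : Type) (_ : MetricSpace M)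
      (F : Type) (_ : AddCommGroup F) (_ : Module ℝ F)
      (N : F → ℝ) (ι : (M →₀ ℝ) →ₗ[ℝ] F),
      (∀ x, 0 ≤ N x) ∧ (∀ x, N x = 0 ↔ x = 0) ∧
      (∀ (c : ℝ) (x : F), N (c • x) = |c| * N x) ∧
      (∀ x y, N (x + y) ^ p ≤ N x ^ p + N y ^ p) ∧
      (∀ s : ℕ → F, (∀ ε > 0, ∃ K : ℕ, ∀ m ≥ K, ∀ n ≥ K, N (s m - s n) < ε) →
          ∃ z, Filter.Tendsto (fun n => N (s n - z)) Filter.atTop (nhds 0)) ∧
      (∀ μ : M →₀ ℝ, μ.sum (fun _ a => a) = 0 →
         IsGLB {t : ℝ | ∃ (n : ℕ) (b : Fin n → ℝ) (u v : Fin n → M),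
             μ = ∑ j, b j • (Finsupp.single (u j) (1:ℝ) - Finsupp.single (v j) (1:ℝ)) ∧
             t = ∑ j, |b j| ^ p * dist (u j) (v j) ^ p} (N (ι μ) ^ p)) ∧
      (∀ z : F, ∀ ε > 0, ∃ μ : M →₀ ℝ, μ.sum (fun _ a => a) = 0 ∧ N (z - ι μ) < ε) ∧
      ∃ (X : Type) (_ : NormedAddCommGroup X) (_ : NormedSpace ℝ X),
        CompleteSpace X ∧ ¬ FiniteDimensional ℝ X ∧
        ∃ (T : X →ₗ[ℝ] F) (S : F →ₗ[ℝ] X),
          (∃ C : ℝ, ∀ x, N (T x) ≤ C * ‖x‖) ∧
          (∃ C : ℝ, ∀ y, ‖S y‖ ≤ C * N y) ∧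
          ∀ x, S (T x) = x) := by
  rintro ⟨p, hp0, hp1, M, _, F, _, _, N, ι, n0, n1, n2, n3, n4, n5, n6, X, _, _, _, hX, T, S,
    ⟨C1, t1⟩, ⟨C2, t2⟩, t3⟩
  apply hX
  have hB : Pool.Agent.H.MP_1a7c10_an.IsPBanach ℝ p F N :=
    ⟨n0, fun x => (n1 x).1, n2, n3, fun w hw => by
      obtain ⟨z, hz⟩ := n4 w hw
      refine ⟨z, fun ε hε => ?_⟩
      obtain ⟨k, hk⟩ := Filter.eventually_atTop.mp (hz.eventually (gt_mem_nhds hε))
      exact ⟨k, hk⟩⟩
  have hS : Pool.Agent.H.MP_1a7c10_an.SchurP ℝ p N := by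
    rcases isEmpty_or_nonempty M with hM | ⟨⟨o⟩⟩
    · intro A hA _ _
      exfalso
      apply hA
      refine (Set.finite_singleton (0 : F)).subset (fun z _ => ?_)
      rw [Set.mem_singleton_iff, ← n1]
      refine le_antisymm (le_of_forall_pos_le_add (fun ε hε => ?_)) (n0 z)
      obtain ⟨μ, -, hμ⟩ := n6 z ε hε
      rw [Subsingleton.elim μ 0, map_zero, sub_zero] at hμ
      linarith
    · let σ : (M →₀ ℝ) →ₗ[ℝ] ℝ := Finsupp.linearCombination ℝ (fun _ => (1:ℝ))
      have σe : ∀ v : M →₀ ℝ, σ v = v.sum (fun _ a => a) := fun v => by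
        simp [σ, Finsupp.linearCombination_apply]
      have σs : ∀ x, σ (Finsupp.single x 1) = 1 := fun x => by simp [σ]
      let P : (M →₀ ℝ) →ₗ[ℝ] (M →₀ ℝ) := LinearMap.id - σ.smulRight (Finsupp.single o 1)
      have Pe : ∀ v, P v = v - σ v • Finsupp.single o 1 := fun v => rfl
      have P0 : ∀ v, (P v).sum (fun _ a => a) = 0 := fun v => by
        rw [← σe, Pe, map_sub, map_smul, σs]; simp
      have N0 : N 0 = 0 := (n1 0).2 rfl
      refine Pool.Agent.H.MP_a71740_an.schurP_of (o := o) hp0 hp1 hB (ι.comp P)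
        ⟨⟨hp0, fun a b => by rw [map_add]; exact n3 _ _, fun t a => by
          rw [map_smul, n2, Real.mul_rpow (abs_nonneg _) (n0 _), Real.norm_eq_abs]⟩,
          ?_, fun x y => ?_, fun q C hC hq q0 q1 v => ?_⟩ (fun w η hη => ?_)
      · rw [LinearMap.comp_apply, Pe, σs, one_smul, sub_self, map_zero, N0,
          Real.zero_rpow hp0.ne']
      · refine (n5 _ (P0 _)).1 ⟨1, fun _ => 1, fun _ => x, fun _ => y, ?_, by simp⟩
        rw [Pe, map_sub, σs, σs]; simp
      · have hg := n5 _ (P0 v)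
        have key : ∀ t ∈ {t : ℝ | ∃ (n : ℕ) (b : Fin n → ℝ) (u w : Fin n → M),
             P v = ∑ j, b j • (Finsupp.single (u j) (1:ℝ) - Finsupp.single (w j) (1:ℝ)) ∧
             t = ∑ j, |b j| ^ p * dist (u j) (w j) ^ p}, q v ≤ C * t := by
          rintro t ⟨n, b, u, w, e1, rfl⟩
          have a1 := hq.add (P v) (σ v • Finsupp.single o 1)
          rw [hq.smul, q0, mul_zero, add_zero] at a1
          have e2 : P v + σ v • Finsupp.single o 1 = v := by rw [Pe]; abel
          rw [e2, e1] at a1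
          refine a1.trans ((hq.sum _ _).trans ?_)
          rw [Finset.mul_sum]
          refine Finset.sum_le_sum (fun j _ => ?_)
          rw [hq.smul, Real.norm_eq_abs, mul_left_comm]
          exact mul_le_mul_of_nonneg_left (q1 _ _) (by positivity)
        rcases hC.eq_or_lt with rfl | hC'
        · obtain ⟨t, ht⟩ := hg.nonempty
          simpa using key t ht
        · rw [← div_le_iff₀' hC']
          exact hg.2 (fun t ht => by rw [div_le_iff₀' hC']; exact key t ht)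
      · obtain ⟨μ, m1, m2⟩ := n6 w η hη
        refine ⟨μ, ?_⟩
        rw [LinearMap.comp_apply, Pe, σe, m1, zero_smul, sub_zero]
        exact m2
  refine Pool.Agent.H.MP_a71740_an.findim_of_schurP hp0 hp1 hS T (c := 1 / (|C2| + 1))
    (by positivity) (fun z => ?_) t1
  have a1 := t2 (T z)
  rw [t3] at a1
  rw [one_div, inv_mul_le_iff₀ (by positivity)]
  have := mul_le_mul_of_nonneg_right (le_abs_self C2) (n0 (T z))
  have := n0 (T z)
  linarith

end Pool.Agent.S04810
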