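import Pool.Statements.S04822
import Pool.Agent.H.MP_5fe217_an.A

set_option autoImplicit false
open Pool Pool.MP_5fe217_an

namespace Pool.Agent.S04822

theorem result :
    ¬ (∀ n : ℕ, 2 ≤ n →
  ∀ A : EuclideanSpace ℂ (Fin n) →L[ℂ] EuclideanSpace ℂ (Fin n),
  (∃ c : ℝ, (∀ z : EuclideanSpace ℂ (Fin n), ‖z‖ = 1 → c ≤ (inner ℂ z (A z)).re) ∧
     ∀ μ : ℂ, Module.End.HasEigenvalue A.toLinearMap μ → μ.re < 2 * c) →
  ∀ f : EuclideanSpace ℂ (Fin n) → EuclideanSpace ℂ (Fin n),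
  (DifferentiableOn ℂ f (Metric.ball 0 1) ∧ Set.InjOn f (Metric.ball 0 1) ∧ f 0 = 0 ∧
     fderiv ℂ f 0 = ContinuousLinearMap.id ℂ (EuclideanSpace ℂ (Fin n)) ∧
     ∀ z ∈ Metric.ball (0 : EuclideanSpace ℂ (Fin n)) 1, z ≠ 0 →
       0 < (inner ℂ z ((fderiv ℂ f z).inverse (A (f z)))).re) →
  ((∃ L : (EuclideanSpace ℂ (Fin n) → EuclideanSpace ℂ (Fin n)) → ℂ,
      ((∀ g₁ g₂ : EuclideanSpace ℂ (Fin n) → EuclideanSpace ℂ (Fin n),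
          DifferentiableOn ℂ g₁ (Metric.ball 0 1) → DifferentiableOn ℂ g₂ (Metric.ball 0 1) →
          L (g₁ + g₂) = L g₁ + L g₂) ∧
       (∀ (c : ℂ) (g : EuclideanSpace ℂ (Fin n) → EuclideanSpace ℂ (Fin n)),
          DifferentiableOn ℂ g (Metric.ball 0 1) → L (c • g) = c * L g) ∧
       ∃ K : Set (EuclideanSpace ℂ (Fin n)), IsCompact K ∧ K ⊆ Metric.ball 0 1 ∧
         ∃ C : ℝ, ∀ g : EuclideanSpace ℂ (Fin n) → EuclideanSpace ℂ (Fin n),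
           DifferentiableOn ℂ g (Metric.ball 0 1) →
           ∀ M : ℝ, (∀ x ∈ K, ‖g x‖ ≤ M) → ‖L g‖ ≤ C * M) ∧
      (∃ g₁ g₂ : EuclideanSpace ℂ (Fin n) → EuclideanSpace ℂ (Fin n),
        (DifferentiableOn ℂ g₁ (Metric.ball 0 1) ∧ Set.InjOn g₁ (Metric.ball 0 1) ∧ g₁ 0 = 0 ∧
          fderiv ℂ g₁ 0 = ContinuousLinearMap.id ℂ (EuclideanSpace ℂ (Fin n)) ∧
          ∀ z ∈ Metric.ball (0 : EuclideanSpace ℂ (Fin n)) 1, z ≠ 0 →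
            0 < (inner ℂ z ((fderiv ℂ g₁ z).inverse (A (g₁ z)))).re) ∧
        (DifferentiableOn ℂ g₂ (Metric.ball 0 1) ∧ Set.InjOn g₂ (Metric.ball 0 1) ∧ g₂ 0 = 0 ∧
          fderiv ℂ g₂ 0 = ContinuousLinearMap.id ℂ (EuclideanSpace ℂ (Fin n)) ∧
          ∀ z ∈ Metric.ball (0 : EuclideanSpace ℂ (Fin n)) 1, z ≠ 0 →
            0 < (inner ℂ z ((fderiv ℂ g₂ z).inverse (A (g₂ z)))).re) ∧
        (L g₁).re ≠ (L g₂).re) ∧
      ∀ g : EuclideanSpace ℂ (Fin n) → EuclideanSpace ℂ (Fin n),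
        (DifferentiableOn ℂ g (Metric.ball 0 1) ∧ Set.InjOn g (Metric.ball 0 1) ∧ g 0 = 0 ∧
          fderiv ℂ g 0 = ContinuousLinearMap.id ℂ (EuclideanSpace ℂ (Fin n)) ∧
          ∀ z ∈ Metric.ball (0 : EuclideanSpace ℂ (Fin n)) 1, z ≠ 0 →
            0 < (inner ℂ z ((fderiv ℂ g z).inverse (A (g z)))).re) →
        (L g).re ≤ (L f).re) ↔
   (∃ L : (EuclideanSpace ℂ (Fin n) → EuclideanSpace ℂ (Fin n)) → ℂ,
      ((∀ g₁ g₂ : EuclideanSpace ℂ (Fin n) → EuclideanSpace ℂ (Fin n),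
          DifferentiableOn ℂ g₁ (Metric.ball 0 1) → DifferentiableOn ℂ g₂ (Metric.ball 0 1) →
          L (g₁ + g₂) = L g₁ + L g₂) ∧
       (∀ (c : ℂ) (g : EuclideanSpace ℂ (Fin n) → EuclideanSpace ℂ (Fin n)),
          DifferentiableOn ℂ g (Metric.ball 0 1) → L (c • g) = c * L g) ∧
       ∃ K : Set (EuclideanSpace ℂ (Fin n)), IsCompact K ∧ K ⊆ Metric.ball 0 1 ∧
         ∃ C : ℝ, ∀ g : EuclideanSpace ℂ (Fin n) → EuclideanSpace ℂ (Fin n),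
           DifferentiableOn ℂ g (Metric.ball 0 1) →
           ∀ M : ℝ, (∀ x ∈ K, ‖g x‖ ≤ M) → ‖L g‖ ≤ C * M) ∧
      (∃ g₁ g₂ : EuclideanSpace ℂ (Fin n) → EuclideanSpace ℂ (Fin n),
        (DifferentiableOn ℂ g₁ (Metric.ball 0 1) ∧ g₁ 0 = 0 ∧ fderiv ℂ g₁ 0 = A ∧
          ∀ z ∈ Metric.ball (0 : EuclideanSpace ℂ (Fin n)) 1, z ≠ 0 → 0 < (inner ℂ z (g₁ z)).re) ∧
        (DifferentiableOn ℂ g₂ (Metric.ball 0 1) ∧ g₂ 0 = 0 ∧ fderiv ℂ g₂ 0 = A ∧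
          ∀ z ∈ Metric.ball (0 : EuclideanSpace ℂ (Fin n)) 1, z ≠ 0 → 0 < (inner ℂ z (g₂ z)).re) ∧
        (L g₁).re ≠ (L g₂).re) ∧
      ∀ g : EuclideanSpace ℂ (Fin n) → EuclideanSpace ℂ (Fin n),
        (DifferentiableOn ℂ g (Metric.ball 0 1) ∧ g 0 = 0 ∧ fderiv ℂ g 0 = A ∧
          ∀ z ∈ Metric.ball (0 : EuclideanSpace ℂ (Fin n)) 1, z ≠ 0 → 0 < (inner ℂ z (g z)).re) →
        (L g).re ≤ (L (fun z => (fderiv ℂ f z).inverse (A (f z)))).re))) := by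
  intro h
  have h1 := h 2 le_rfl H.MP_5fe217_an.I1 ⟨1, fun z hz => by
      have h3 : (inner ℂ z z).re = ‖z‖ ^ 2 := inner_self_eq_norm_sq (𝕜 := ℂ) z
      show 1 ≤ (inner ℂ z z).re
      rw [h3, hz]; norm_num, fun μ hμ => by
      obtain ⟨v, hv⟩ := hμ.exists_hasEigenvector
      have h3 : v = μ • v := hv.apply_eq_smul
      have h4 : (μ - 1) • v = 0 := by rw [sub_smul, one_smul, ← h3, sub_self]
      have h5 : μ = 1 := sub_eq_zero.1 ((smul_eq_zero.1 h4).resolve_right hv.2)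
      rw [h5]; norm_num⟩ _ H.MP_5fe217_an.ph_St
  obtain ⟨L, hL, ⟨g1, g2, s1, s2, hne⟩, hmax⟩ := h1.2 ⟨H.MP_5fe217_an.LL, H.MP_5fe217_an.LL_lin,
    ⟨fun z => z, fun z => H.MP_1fc8c4_an.mk (H.MP_1fc8c4_an.hh (z 0)) (z 1),
      ⟨differentiableOn_id, rfl, fderiv_id, fun z _ hz => by
        have h3 : (inner ℂ z z).re = ‖z‖ ^ 2 := inner_self_eq_norm_sq (𝕜 := ℂ) z
        have h4 := norm_pos_iff.2 hz
        rw [h3]; positivity⟩,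
      ⟨H.MP_1fc8c4_an.prod_diff (ψ := fun w => w) H.MP_1fc8c4_an.hh_diff differentiableOn_id,
        H.MP_1fc8c4_an.ext2 (by simp [H.MP_1fc8c4_an.hh]) (by simp), by
        rw [H.MP_1fc8c4_an.prod_fderiv (ψ := fun w => w) H.MP_1fc8c4_an.hh_deriv (hasDerivAt_id 0),
          one_smul], fun z hz hz0 =>
        H.MP_5fe217_an.inner_mk_pos hz0 (H.MP_1fc8c4_an.re_cayley' (H.MP_1fc8c4_an.comp_lt hz 0))⟩,
      by rw [H.MP_5fe217_an.LL_id, H.MP_5fe217_an.LL_hh]; norm_num⟩,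
    fun g hg => by
      rw [H.MP_5fe217_an.LL_f]
      exact H.MP_5fe217_an.LL_le g hg.1 hg.2.1 hg.2.2.1 hg.2.2.2⟩
  exact hne (H.MP_5fe217_an.not_supp hL hmax g1 g2 s1 s2)

end Pool.Agent.S04822
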