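import Pool.Statements.S04834
import Pool.Agent.H.MP_6079fc_an.B

set_option autoImplicit false
open Pool Pool.MP_6079fc_an

namespace Pool.Agent.S04834

open Pool.Agent.H.MP_6079fc_an in
theorem result :
    ¬ (∀ (n q k : ℕ) (δ : EuclideanSpace ℂ (Fin n) → ℝ) (K : NNReal),
    (∀ s, 0 ≤ δ s) → Continuous δ →
    Filter.Tendsto δ (Filter.cocompact _) (nhds 0) →
    LipschitzWith K δ →
    (∃ C : ℝ, ∀ s, ‖s‖ * δ s ≤ C) →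
    (∀ a b : EuclideanSpace ℂ (Fin n), (∀ ζ : ℂ, ‖ζ‖ ≤ 1 → 0 < δ (a + ζ • b)) →
       (∫ θ in (0:ℝ)..(2 * Real.pi),
          Real.log (δ (a + Complex.exp ((θ : ℂ) * Complex.I) • b)))
        ≤ 2 * Real.pi * Real.log (δ a)) →
    ∀ ε : ℝ, 0 < ε → ε * (K : ℝ) < 1 →
    ∀ (f : Fin k → EuclideanSpace ℂ (Fin n) → (Fin q → ℂ))
      (g : EuclideanSpace ℂ (Fin n) → (Fin q → ℂ)),
      (∀ i, DifferentiableOn ℂ (f i) {s | 0 < δ s} ∧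
        ∃ N : ℕ, ∃ C : ℝ, ∀ z, 0 < δ z → δ z ^ N * ‖f i z‖ ≤ C) →
      (DifferentiableOn ℂ g {s | 0 < δ s} ∧
        ∃ N : ℕ, ∃ C : ℝ, ∀ z, 0 < δ z → δ z ^ N * ‖g z‖ ≤ C) →
      (∃ M : ℝ, ∃ N : ℕ, ∀ s, 0 < δ s →
        ∃ u : Fin k → EuclideanSpace ℂ (Fin n) → ℂ,
          (∀ i, DifferentiableOn ℂ (u i) (Metric.ball s (ε * δ s))) ∧
          (∀ z ∈ Metric.ball s (ε * δ s), g z = ∑ i, u i z • f i z) ∧
          (∀ i, ∀ z ∈ Metric.ball s (ε * δ s), ‖u i z‖ < M / δ s ^ N)) →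
      ∃ h : Fin k → EuclideanSpace ℂ (Fin n) → ℂ,
        (∀ i, DifferentiableOn ℂ (h i) {s | 0 < δ s} ∧
          ∃ N : ℕ, ∃ C : ℝ, ∀ z, 0 < δ z → δ z ^ N * ‖h i z‖ ≤ C) ∧
        ∀ z, 0 < δ z → g z = ∑ i, h i z • f i z) := by
  intro H
  obtain ⟨h, h1, h2⟩ := H 1 1 2 δ 1 δ0 δL.continuous
    (squeeze_zero δ0 δe (Real.tendsto_exp_neg_atTop_nhds_zero.comp
      tendsto_norm_cocompact_atTop))
    δL ⟨1, fun s => (mul_le_mul_of_nonneg_left (δe s) (norm_nonneg _)).trans (by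
      rw [Real.exp_neg, ← div_eq_mul_inv, div_le_one (Real.exp_pos _)]
      linarith [Real.add_one_le_exp ‖s‖])⟩ δs (1 / 2) (by norm_num) (by norm_num)
    f (F 0) (fun i => mem _ (by fin_cases i <;> simp)) (mem 0 (by simp)) ⟨3, 0, lc⟩
  exact gl h h1 h2

end Pool.Agent.S04834
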