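import Pool.Statements.S04841
import Pool.Agent.Lib.helper8.Heis4

set_option autoImplicit false
open Pool Pool.MP_60e615_an

namespace Pool.Agent.S04841

theorem result :
    ∃ (k : ℕ) (X : Set (ℤ → ℕ)), X.Nonempty ∧ IsClosed X ∧ (∀ x ∈ X, ∀ n : ℤ, x n < k) ∧
      (∀ x : ℤ → ℕ, x ∈ X ↔ (fun n : ℤ => x (n + 1)) ∈ X) ∧
      ∃ ρ : ℤ × ℤ × ℤ → Equiv.Perm X, Function.Injective ρ ∧
        (∀ a b c a' b' c' : ℤ,
          ρ (a + a', b + b', c + c' + a * b') = ρ (a, b, c) * ρ (a', b', c')) ∧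
        (∀ g : ℤ × ℤ × ℤ, Continuous (ρ g)) ∧
        (∀ g : ℤ × ℤ × ℤ, ∀ p q : X,
          ((q : ℤ → ℕ) = fun n : ℤ => (p : ℤ → ℕ) (n + 1)) →
            (((ρ g q : X) : ℤ → ℕ) = fun n : ℤ => ((ρ g p : X) : ℤ → ℕ) (n + 1))) := by
  open Pool.Agent.Lib.helper8.Heis in
  obtain ⟨n, hn⟩ := heis_act
  obtain ⟨α, hα⟩ := hn ℕ Fin.val Fin.val_injective
  refine ⟨n, α.X, α.ne, α.isClosed, ?_, α.shift_iff 1,
    fun g => α.perm ⟨g.1, g.2.1, g.2.2⟩, ?_, ?_, fun g => α.cont _, ?_⟩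
  · intro x hx j
    obtain ⟨i, hi⟩ := hα x hx j
    rw [hi]; exact i.2
  · intro a b h
    have := α.perm_inj h
    simp only [H.mk.injEq] at this
    exact Prod.ext this.1 (Prod.ext this.2.1 this.2.2)
  · intro a b c a' b' c'
    rw [← map_mul]
    rfl
  · intro g p q h
    rw [α.perm_val, α.perm_val, h]
    exact α.comm _ 1 _ p.2

end Pool.Agent.S04841
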