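import Pool.Statements.S04844
import Pool.Agent.H.MP_613746_an.Main

set_option autoImplicit false
open Filter Topology
open Pool Pool.MP_613746_an

namespace Pool.Agent.S04844

theorem result :
    ¬ (∀ (X : Type) [MetricSpace X] [CompactSpace X] [Nonempty X]
      (f g : X → X), Continuous f → Continuous g → f ∘ g = g ∘ f →
      ∃ x : X,
        (∀ U ∈ 𝓝 x, ∃ N : ℕ, ∀ m : ℕ, ∃ k : ℕ, m ≤ k ∧ k ≤ m + N ∧ f^[k] x ∈ U) ∧
        (∀ U ∈ 𝓝 x, ∃ N : ℕ, ∀ m : ℕ, ∃ k : ℕ, m ≤ k ∧ k ≤ m + N ∧ g^[k] x ∈ U)) := by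
  intro h
  open Pool.Agent.H.MP_613746_an in
  have : CompactSpace XX := isCompact_iff_compactSpace.mp XX_closed.isCompact
  open Pool.Agent.H.MP_613746_an in
  have : Nonempty XX := XX_nonempty.to_subtype
  open Pool.Agent.H.MP_613746_an in
  obtain ⟨x, h1, h2⟩ := @h XX (TopologicalSpace.metrizableSpaceMetric XX) ‹_› ‹_›
    (sh (1, 0)) (sh (0, 1)) (sh_cont _) (sh_cont _) sh_comm
  exact Pool.Agent.H.MP_613746_an.main x h1 h2

end Pool.Agent.S04844
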