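import Pool.Statements.S04846
import Pool.Agent.H.MP_6153ad_an.B

set_option autoImplicit false
open scoped FourierTransform
open Pool Pool.MP_6153ad_an

namespace Pool.Agent.S04846

/-- The negation of the preceding statement: For a compact metrizable real flow with mean dimension below a>0 and each r-periodic set of covering dimension at most ⌊ar⌋, there is a continuous injective shift-equivariant map into functions bounded by 1 whose Fourier transform is supported in [-a,a]. -/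
theorem result :
    ¬ (∀ (X : Type) [TopologicalSpace X] [CompactSpace X] [TopologicalSpace.MetrizableSpace X]
    [AddAction ℝ X] [ContinuousVAdd ℝ X] (a : ℝ), 0 < a →
    (∃ c : ℝ, c < a ∧ ∀ (k : ℕ) (α : Fin k → Set X), (∀ i, IsOpen (α i)) →
      (⋃ i, α i) = Set.univ →
      ∃ n : ℕ, 0 < n ∧ ∃ (m : ℕ) (γ : Fin m → Set X), (∀ j, IsOpen (γ j)) ∧
        (⋃ j, γ j) = Set.univ ∧
        (∀ j, ∃ s : Fin n → Fin k, γ j ⊆ {x | ∀ i : Fin n, ((i : ℕ) : ℝ) +ᵥ x ∈ α (s i)}) ∧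
        ∀ x : X, (({j : Fin m | x ∈ γ j}.ncard : ℝ) - 1 < c * n)) →
    (∀ r : ℝ, 0 < r → ∀ (k : ℕ) (α : Fin k → Set X), (∀ i, IsOpen (α i)) →
      {x : X | r +ᵥ x = x} ⊆ ⋃ i, α i →
      ∃ (m : ℕ) (γ : Fin m → Set X), (∀ j, IsOpen (γ j)) ∧
        {x : X | r +ᵥ x = x} ⊆ ⋃ j, γ j ∧
        (∀ j, ∃ i, γ j ∩ {x : X | r +ᵥ x = x} ⊆ α i) ∧
        ∀ x ∈ {x : X | r +ᵥ x = x}, {j : Fin m | x ∈ γ j}.ncard ≤ ⌊a * r⌋₊ + 1) →
    ∃ Φ : X → C(ℝ, ℝ), Continuous Φ ∧ Function.Injective Φ ∧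
      (∀ (x : X) (t : ℝ), |Φ x t| ≤ 1) ∧
      (∀ (x : X) (φ : SchwartzMap ℝ ℂ), HasCompactSupport (⇑φ) →
        Disjoint (tsupport (⇑φ)) (Set.Icc (-a) a) →
        ∫ t, ((Φ x t : ℝ) : ℂ) * 𝓕 (⇑φ : ℝ → ℂ) t = 0) ∧
      ∀ (r : ℝ) (x : X) (t : ℝ), Φ (r +ᵥ x) t = Φ x (t + r)) := by
  intro h
  obtain ⟨Φ, h1, h2, -, h4, h5⟩ := h Pool.Agent.H.MP_6153ad_an.S3 1 one_pos
    Pool.Agent.H.MP_6153ad_an.hyp_mdim Pool.Agent.H.MP_6153ad_an.hyp_per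
  exact Pool.Agent.H.MP_6153ad_an.no_embed Φ h1 h2 h4 h5

end Pool.Agent.S04846
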