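import Pool.Statements.S04862
import Pool.Agent.H.MP_63a02b_an.C

set_option autoImplicit false
open Pool Pool.MP_63a02b_an

namespace Pool.Agent.S04862

theorem result :
    ¬ (∀ (𝕂 : Type) [RCLike 𝕂] (X : Type) [AddCommGroup X] [Module 𝕂 X] [UniformSpace X]
      [IsUniformAddGroup X] [CompleteSpace X] [TopologicalSpace.MetrizableSpace X]
      [TopologicalSpace.SeparableSpace X] [ContinuousSMul 𝕂 X] (T : X →L[𝕂] X),
      ((∃ x : X, Dense (Set.range (fun n : ℕ => (T ^ n) x))) ∧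
        Dense {x : X | ∃ n : ℕ, 0 < n ∧ (T ^ n) x = x}) →
      (∀ U V : Set X, IsOpen U → IsOpen V → U.Nonempty → V.Nonempty →
        ∃ N : ℕ, ∀ n : ℕ, N ≤ n → ((⇑(T ^ n)) ⁻¹' V ∩ U).Nonempty) →
      (∃ x : X, ∀ U : Set X, IsOpen U → U.Nonempty →
        ∃ δ : ℝ, 0 < δ ∧ ∃ N₀ : ℕ, ∀ N : ℕ, N₀ ≤ N →
          δ * (N : ℝ) ≤ (Nat.card {n : ℕ // n < N ∧ (T ^ n) x ∈ U} : ℝ)) →
      ∃ X₀ : Set X, Dense X₀ ∧ ∃ S : X → X, (∀ x ∈ X₀, S x ∈ X₀) ∧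
        ∀ x ∈ X₀, Summable (fun n : ℕ => (T ^ n) x) ∧
          Summable (fun n : ℕ => S^[n] x) ∧ T (S x) = x) := by
  intro h
  obtain ⟨X, _, _, _, _, T, φ, hd, hφ, x0, hx0⟩ := Pool.Agent.H.MP_63a02b_an.model
  obtain ⟨x, hx⟩ := Pool.Agent.H.MP_63a02b_an.fhc hd
  have hc : Dense (Set.range (fun n : ℕ => (T ^ n) x)) := by
    rw [dense_iff_inter_open]
    intro U hU hU'
    obtain ⟨δ, δ0, N, hN⟩ := hx U hU hU'
    have a1 := hN (N + 1) (by omega)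
    have a2 : (0 : ℝ) < δ * ((N + 1 : ℕ) : ℝ) := by positivity
    have a3 : 0 < Nat.card {n : ℕ // n < N + 1 ∧ (T ^ n) x ∈ U} := by
      exact_mod_cast a2.trans_le a1
    obtain ⟨⟨n, hn⟩⟩ := (Nat.card_pos_iff.mp a3).1
    exact ⟨_, hn.2, n, rfl⟩
  obtain ⟨X₀, h1, S, h2, h3⟩ := h ℝ X T ⟨⟨x, hc⟩, Pool.Agent.H.MP_63a02b_an.periodic hd⟩
    (Pool.Agent.H.MP_63a02b_an.mixing hd) ⟨x, hx⟩
  have h4 : ∀ y ∈ X₀, φ y = 0 := fun y hy =>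
    Pool.Agent.H.MP_63a02b_an.obstruction φ hφ h2 h3 hy
  exact hx0 ((isClosed_eq φ.continuous continuous_const).closure_subset_iff.mpr h4 (h1 x0))

end Pool.Agent.S04862
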