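import Pool.Statements.S04889
-- import your own Pool.Agent.* helpers here

set_option autoImplicit false
open Pool Pool.MP_65dae3_an

namespace Pool.Agent.S04889


def p (k : ℕ) : ℕ := (Nat.unpair (k / 2)).1
def q (k : ℕ) : ℕ := (Nat.unpair (k / 2)).2
noncomputable def w (k : ℕ) : ℝ := (1 / 10) ^ k
def s1 (k : ℕ) : ℤ := if Nat.sqrt (p k) ≠ Nat.sqrt (q k) then 1 else 0
def s2 (k : ℕ) : ℤ := if Nat.sqrt (p k) ≠ Nat.sqrt (q k) then (if k % 2 = 0 then 1 else -1) else 0
noncomputable def z (i : ℕ) : ℝ :=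
  (∑' k : p ⁻¹' {i}, (s1 k : ℝ) * w k) + ∑' k : q ⁻¹' {i}, (s2 k : ℝ) * w k
noncomputable def x (n : ℕ) : ℝ := if n % 2 = 0 then z (n / 2) else w (n / 2)
def b (t : Bool) : ℤ := if t = true then 1 else 0
def c (ε : ℕ → Bool) (k : ℕ) : ℤ :=
  b (ε (2 * k + 1)) + b (ε (2 * p k)) * s1 k + b (ε (2 * q k)) * s2 k

lemma w_pos (k : ℕ) : 0 < w k := by unfold w; positivity

lemma hs_congr {f g : ℕ → ℝ} {a a' : ℝ} (h : HasSum f a) (h1 : ∀ k, g k = f k) (h2 : a' = a) :
    HasSum g a' := by
  have : g = f := funext h1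
  rw [this, h2]
  exact h

lemma hasSum_w : HasSum w (10 / 9) := by
  have := hasSum_geometric_of_lt_one (r := (1 / 10 : ℝ)) (by norm_num) (by norm_num)
  exact hs_congr this (fun k => rfl) (by norm_num)

lemma summable_bdd (d : ℕ → ℤ) (M : ℤ) (hd : ∀ k, |d k| ≤ M) :
    Summable (fun k => (d k : ℝ) * w k) := by
  refine Summable.of_norm_bounded (hasSum_w.summable.mul_left (M : ℝ)) ?_
  intro k
  rw [Real.norm_eq_abs, abs_mul, abs_of_pos (w_pos k)]
  apply mul_le_mul_of_nonneg_right _ (w_pos k).le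
  exact_mod_cast hd k

lemma uniq (d : ℕ → ℤ) (hd : ∀ k, |d k| ≤ 4) (h : HasSum (fun k => (d k : ℝ) * w k) 0) (n : ℕ) :
    d n = 0 := by
  have step : ∀ n, HasSum (fun k => (d (k + n) : ℝ) * w k) 0 →
      d n = 0 ∧ HasSum (fun k => (d (k + (n + 1)) : ℝ) * w k) 0 := by
    intro n hn
    have h1 := (hasSum_nat_add_iff' 1).mpr hn
    have h2 : HasSum (fun k => (d (k + (n + 1)) : ℝ) * w k) (-10 * d n) := by
      have h3 := h1.mul_left 10
      refine hs_congr h3 ?_ ?_
      · intro k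
        have : k + 1 + n = k + (n + 1) := by ring
        rw [this]
        unfold w
        ring
      · simp [w]
    have h4 : ‖(-10 * d n : ℝ)‖ ≤ 4 * (10 / 9) := by
      refine h2.norm_le_of_bounded (hasSum_w.mul_left 4) ?_
      intro k
      rw [Real.norm_eq_abs, abs_mul, abs_of_pos (w_pos k)]
      apply mul_le_mul_of_nonneg_right _ (w_pos k).le
      exact_mod_cast hd _
    have h5 : d n = 0 := by
      rw [Real.norm_eq_abs, abs_le] at h4
      have h6 : (d n : ℝ) < 1 := by linarith [h4.1]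
      have h7 : (-1 : ℝ) < d n := by linarith [h4.2]
      have h8 : d n < 1 := by exact_mod_cast h6
      have h9 : -1 < d n := by exact_mod_cast h7
      omega
    refine ⟨h5, ?_⟩
    simpa [h5] using h2
  have all : ∀ n, HasSum (fun k => (d (k + n) : ℝ) * w k) 0 := by
    intro n
    induction n with
    | zero => simpa using h
    | succ m ih => exact (step m ih).2
  exact (step n (all n)).1

lemma b_cases (t : Bool) : b t = 0 ∨ b t = 1 := by cases t <;> simp [b]

lemma s1_abs (k : ℕ) : |s1 k| ≤ 1 := by unfold s1; split_ifs <;> simp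
lemma s2_abs (k : ℕ) : |s2 k| ≤ 1 := by unfold s2; split_ifs <;> simp

lemma bs_abs (t : Bool) (s : ℤ) (hs : |s| ≤ 1) : |b t * s| ≤ 1 := by
  rcases b_cases t with h | h <;> rw [h] <;> simp [hs]

lemma fib (s : ℕ → ℤ) (hs : ∀ k, |s k| ≤ 1) (g : ℕ → ℕ) (a : ℕ → Bool) :
    HasSum (fun i => (b (a i) : ℝ) * ∑' k : g ⁻¹' {i}, (s k : ℝ) * w k)
      (∑' k, ((b (a (g k)) * s k : ℤ) : ℝ) * w k) := by
  have h1 := (summable_bdd (fun k => b (a (g k)) * s k) 1
    (fun k => bs_abs _ _ (hs k))).hasSum.tsum_fiberwise g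
  refine hs_congr h1 ?_ rfl
  intro i
  rw [← tsum_mul_left]
  apply tsum_congr
  rintro ⟨k, hk⟩
  have : g k = i := hk
  simp only [this]
  push_cast
  ring

lemma c_abs (ε : ℕ → Bool) (k : ℕ) : -1 ≤ c ε k ∧ c ε k ≤ 3 := by
  unfold c s1 s2
  rcases b_cases (ε (2 * k + 1)) with h1 | h1 <;>
  rcases b_cases (ε (2 * p k)) with h2 | h2 <;>
  rcases b_cases (ε (2 * q k)) with h3 | h3 <;>
  rw [h1, h2, h3] <;> split_ifs <;> simp

lemma hasSum_x (ε : ℕ → Bool) :
    HasSum (fun n => if ε n = true then x n else 0) (∑' k, (c ε k : ℝ) * w k) := by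
  have h1 := fib s1 s1_abs p (fun i => ε (2 * i))
  have h2 := fib s2 s2_abs q (fun i => ε (2 * i))
  have g1 := summable_bdd (fun k => b (ε (2 * p k)) * s1 k) 1 (fun k => bs_abs _ _ (s1_abs k))
  have g2 := summable_bdd (fun k => b (ε (2 * q k)) * s2 k) 1 (fun k => bs_abs _ _ (s2_abs k))
  have g3 := summable_bdd (fun k => b (ε (2 * k + 1))) 1
    (fun k => by rcases b_cases (ε (2 * k + 1)) with h | h <;> rw [h] <;> simp)
  have he : HasSum (fun k => (fun n => if ε n = true then x n else 0) (2 * k))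
      ((∑' k, ((b (ε (2 * p k)) * s1 k : ℤ) : ℝ) * w k) +
        ∑' k, ((b (ε (2 * q k)) * s2 k : ℤ) : ℝ) * w k) := by
    refine hs_congr (h1.add h2) ?_ rfl
    intro k
    have e1 : 2 * k % 2 = 0 := by omega
    have e2 : 2 * k / 2 = k := by omega
    have e3 : x (2 * k) = z k := by
      unfold x
      rw [if_pos e1, e2]
    simp only [e3, b, z]
    split_ifs <;> simp
  have ho : HasSum (fun k => (fun n => if ε n = true then x n else 0) (2 * k + 1))
      (∑' k, ((b (ε (2 * k + 1)) : ℤ) : ℝ) * w k) := by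
    refine hs_congr g3.hasSum ?_ rfl
    intro k
    have e1 : ¬ ((2 * k + 1) % 2 = 0) := by omega
    have e2 : (2 * k + 1) / 2 = k := by omega
    have e3 : x (2 * k + 1) = w k := by
      unfold x
      rw [if_neg e1, e2]
    simp only [e3, b]
    split_ifs <;> simp
  have := HasSum.even_add_odd (f := fun n => if ε n = true then x n else 0) he ho
  refine hs_congr this (fun _ => rfl) ?_
  rw [← g1.tsum_add g2, ← (g1.add g2).tsum_add g3]
  apply tsum_congr
  intro k
  unfold c
  push_cast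
  ring

lemma c_eq (ε ε' : ℕ → Bool)
    (h : ∑' n, (if ε n = true then x n else 0) = ∑' n, (if ε' n = true then x n else 0)) (k : ℕ) :
    c ε k = c ε' k := by
  rw [(hasSum_x ε).tsum_eq, (hasSum_x ε').tsum_eq] at h
  have g1 := summable_bdd (c ε) 3 (fun k => by have := c_abs ε k; rw [abs_le]; omega)
  have g2 := summable_bdd (c ε') 3 (fun k => by have := c_abs ε' k; rw [abs_le]; omega)
  have h1 := g1.hasSum.sub g2.hasSum
  rw [h, sub_self] at h1
  have := uniq (fun k => c ε k - c ε' k)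
    (fun k => by have := c_abs ε k; have := c_abs ε' k; rw [abs_le]; omega)
    (hs_congr h1 (by intro k; push_cast; ring) rfl) k
  omega

lemma same_block (ε ε' : ℕ → Bool) (h : ∀ k, c ε k = c ε' k) (i j : ℕ)
    (hi : ε (2 * i) ≠ ε' (2 * i)) (hj : ε (2 * j) ≠ ε' (2 * j)) : Nat.sqrt i = Nat.sqrt j := by
  by_contra hne
  have k0 := h (2 * Nat.pair i j)
  have k1 := h (2 * Nat.pair i j + 1)
  have e0 : 2 * Nat.pair i j / 2 = Nat.pair i j := by omega
  have e1 : (2 * Nat.pair i j + 1) / 2 = Nat.pair i j := by omega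
  have e2 : 2 * Nat.pair i j % 2 = 0 := by omega
  have e3 : ¬ ((2 * Nat.pair i j + 1) % 2 = 0) := by omega
  simp only [c, s1, s2, p, q, e0, e1, e2, e3, Nat.unpair_pair, ne_eq, hne, not_false_eq_true,
    if_true, if_false] at k0 k1
  have a1 := b_cases (ε (2 * (2 * Nat.pair i j) + 1))
  have a2 := b_cases (ε' (2 * (2 * Nat.pair i j) + 1))
  have a3 := b_cases (ε (2 * (2 * Nat.pair i j + 1) + 1))
  have a4 := b_cases (ε' (2 * (2 * Nat.pair i j + 1) + 1))
  revert k0 k1 hi hj
  cases ε (2 * i) <;> cases ε' (2 * i) <;> cases ε (2 * j) <;> cases ε' (2 * j) <;>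
    simp only [show b true = 1 from rfl, show b false = 0 from rfl] <;> intros <;>
    first | contradiction | omega

lemma b_inj (s t : Bool) (h : b s = b t) : s = t := by
  cases s <;> cases t <;> simp [b] at h ⊢

lemma det (ε ε' : ℕ → Bool) (h : ∀ k, c ε k = c ε' k) (h2 : ∀ i, ε (2 * i) = ε' (2 * i)) :
    ε = ε' := by
  funext n
  rcases Nat.even_or_odd' n with ⟨k, rfl | rfl⟩
  · exact h2 k
  · have := h k
    unfold c at this
    rw [h2, h2] at this
    apply b_inj
    omega

lemma fin_fiber (t : ℝ) :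
    Finite {ε : ℕ → Bool // ∑' n, (if ε n = true then x n else 0) = t} := by
  rcases isEmpty_or_nonempty {ε : ℕ → Bool // ∑' n, (if ε n = true then x n else 0) = t} with h | h
  · infer_instance
  obtain ⟨ε0⟩ := h
  have hc : ∀ ε ε' : {ε : ℕ → Bool // ∑' n, (if ε n = true then x n else 0) = t},
      ∀ k, c ε.1 k = c ε'.1 k := fun ε ε' => c_eq _ _ (ε.2.trans ε'.2.symm)
  have hB : ∃ B : ℕ, ∀ ε : {ε : ℕ → Bool // ∑' n, (if ε n = true then x n else 0) = t},
      ∀ j, ε.1 (2 * j) ≠ ε0.1 (2 * j) → Nat.sqrt j = B := by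
    by_cases hex : ∃ ε1 : {ε : ℕ → Bool // ∑' n, (if ε n = true then x n else 0) = t},
        ∃ j1, ε1.1 (2 * j1) ≠ ε0.1 (2 * j1)
    · obtain ⟨ε1, j1, h1⟩ := hex
      refine ⟨Nat.sqrt j1, fun ε j hj => ?_⟩
      by_contra hne
      have a1 : ε1.1 (2 * j) = ε0.1 (2 * j) := by
        by_contra hh
        exact hne (same_block _ _ (hc ε1 ε0) j j1 hh h1)
      have a2 : ε.1 (2 * j1) = ε0.1 (2 * j1) := by
        by_contra hh
        exact hne (same_block _ _ (hc ε ε0) j j1 hj hh)
      exact hne (same_block _ _ (hc ε ε1) j j1 (by rw [a1]; exact hj) (by rw [a2]; exact h1.symm))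
    · push Not at hex
      exact ⟨0, fun ε j hj => absurd (hex ε j) hj⟩
  obtain ⟨B, hB⟩ := hB
  refine Finite.of_injective
    (fun ε => fun j : Fin ((B + 1) * (B + 1)) => ε.1 (2 * j.1)) ?_
  intro ε ε' hεε
  apply Subtype.ext
  apply det _ _ (hc ε ε')
  intro i
  by_cases hi : i < (B + 1) * (B + 1)
  · exact congrFun hεε ⟨i, hi⟩
  · have hne : Nat.sqrt i ≠ B := by
      intro hh
      have := Nat.lt_succ_sqrt i
      rw [hh] at this
      exact hi this
    have a1 : ε.1 (2 * i) = ε0.1 (2 * i) := by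
      by_contra hh
      exact hne (hB ε i hh)
    have a2 : ε'.1 (2 * i) = ε0.1 (2 * i) := by
      by_contra hh
      exact hne (hB ε' i hh)
    rw [a1, a2]

def cs (N k : ℕ) : ℤ :=
  if Nat.sqrt (p k) ≠ Nat.sqrt (q k) ∧ (Nat.sqrt (p k) = N ∨ (Nat.sqrt (q k) = N ∧ k % 2 = 0))
  then 1 else 0

def E (N i : ℕ) (n : ℕ) : Bool :=
  if n % 2 = 0 then decide (n / 2 = N * N + i)
  else decide (cs N (n / 2) - b (decide (p (n / 2) = N * N + i)) * s1 (n / 2)
    - b (decide (q (n / 2) = N * N + i)) * s2 (n / 2) = 1)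

lemma E_even (N i k : ℕ) : E N i (2 * k) = decide (k = N * N + i) := by
  have e1 : 2 * k % 2 = 0 := by omega
  have e2 : 2 * k / 2 = k := by omega
  simp [E, e1, e2]

lemma E_odd (N i k : ℕ) : E N i (2 * k + 1) = decide (cs N k - b (decide (p k = N * N + i)) * s1 k
    - b (decide (q k = N * N + i)) * s2 k = 1) := by
  have e1 : ¬ ((2 * k + 1) % 2 = 0) := by omega
  have e2 : (2 * k + 1) / 2 = k := by omega
  simp only [E, e1, e2, if_false]

lemma c_E (N i : ℕ) (hi : i < N) (k : ℕ) : c (E N i) k = cs N k := by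
  have hs : Nat.sqrt (N * N + i) = N := Nat.sqrt_add_eq N (by omega)
  unfold c
  rw [E_even, E_even, E_odd]
  by_cases h1 : p k = N * N + i <;> by_cases h2 : q k = N * N + i
  · simp [cs, s1, s2, h1, h2, b]
  · by_cases h3 : Nat.sqrt (q k) = N
    · simp [cs, s1, s2, h1, h2, b, hs, h3]
    · have h4 : ¬ N = Nat.sqrt (q k) := fun h => h3 h.symm
      simp [cs, s1, s2, h1, h2, b, hs, h3, h4]
  · by_cases h3 : Nat.sqrt (p k) = N <;> by_cases h4 : k % 2 = 0 <;>
      simp [cs, s1, s2, h1, h2, b, hs, h3, h4]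
  · simp only [h1, h2, decide_false, show b false = 0 from rfl, zero_mul, sub_zero, add_zero]
    unfold cs
    split_ifs <;> simp [b]

theorem result :
    ∃ x : ℕ → ℝ, Summable (fun n => |x n|) ∧
      (∀ N : ℕ, ∃ t : ℝ, ∃ k : ℕ, N ≤ k ∧
        Cardinal.mk {ε : ℕ → Bool // ∑' n, (if ε n = true then x n else 0) = t} = (k : Cardinal)) ∧
      (∀ t : ℝ,
        Cardinal.mk {ε : ℕ → Bool // ∑' n, (if ε n = true then x n else 0) = t} ≠ Cardinal.aleph0 ∧
        Cardinal.mk {ε : ℕ → Bool // ∑' n, (if ε n = true then x n else 0) = t} ≠ Cardinal.continuum) := by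
  refine ⟨x, ?_, ?_, ?_⟩
  · have := (hasSum_x (fun _ => true)).summable
    simp only [if_true] at this
    exact this.abs
  · intro N
    set t : ℝ := ∑' k, (cs N k : ℝ) * w k with ht
    have := fin_fiber t
    refine ⟨t, Nat.card {ε : ℕ → Bool // ∑' n, (if ε n = true then x n else 0) = t}, ?_, ?_⟩
    · have hmem : ∀ i : Fin N, ∑' n, (if E N i n = true then x n else 0) = t := by
        intro i
        rw [(hasSum_x _).tsum_eq, ht]
        apply tsum_congr
        intro k
        rw [c_E N i i.2]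
      have := Nat.card_le_card_of_injective
        (fun i : Fin N => (⟨E N i, hmem i⟩ :
          {ε : ℕ → Bool // ∑' n, (if ε n = true then x n else 0) = t})) (by
          intro i j hij
          have h1 : E N i = E N j := congrArg Subtype.val hij
          have h2 := congrFun h1 (2 * (N * N + i))
          rw [E_even, E_even] at h2
          simp at h2
          exact Fin.ext h2)
      simpa using this
    · exact (Nat.cast_card).symm
  · intro t
    have := fin_fiber t
    have h := Cardinal.lt_aleph0_of_finite {ε : ℕ → Bool // ∑' n, (if ε n = true then x n else 0) = t}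
    exact ⟨h.ne, (h.trans Cardinal.aleph0_lt_continuum).ne⟩

end Pool.Agent.S04889
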