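import Pool.Statements.S04934
import Pool.Agent.H.MP_6ac155.A

set_option autoImplicit false
open Pool Pool.MP_6ac155_an

namespace Pool.Agent.S04934

/-- The negation of the preceding statement: There is a real Banach space with the diametral local diameter two property (slices of the unit ball) that fails the diametral diameter two property (relatively weakly open subsets of the unit ball). -/
theorem result :
    ¬ (∃ (X : Type) (_ : NormedAddCommGroup X) (_ : NormedSpace ℝ X) (_ : CompleteSpace X),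
      (∀ (f : X →L[ℝ] ℝ) (α : ℝ), 0 < α → ∀ x : X, ‖x‖ = 1 → ‖f‖ - α < f x →
        ∀ ε : ℝ, 0 < ε → ∃ y : X, ‖y‖ ≤ 1 ∧ ‖f‖ - α < f y ∧ 2 - ε < ‖x - y‖) ∧
      ¬ (∀ (n : ℕ) (g : Fin n → (X →L[ℝ] ℝ)) (δ : ℝ), 0 < δ → ∀ x : X, ‖x‖ = 1 →
        ∀ ε : ℝ, 0 < ε → ∃ y : X, ‖y‖ ≤ 1 ∧ (∀ i, |g i (y - x)| < δ) ∧ 2 - ε < ‖x - y‖)) := by
  rintro ⟨X, _, _, _, h, hn⟩
  refine hn fun n g δ hδ x hx ε hε => Pool.Agent.H.MP_6ac155.fin ⊤ ?_ g (fun _ => trivial) hx hδ ε hε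
  intro f _ x hx δ ε hδ hε
  have h1 := f.le_opNorm x
  rw [hx, mul_one, Real.norm_eq_abs] at h1
  have h2 := le_abs_self (f x)
  obtain ⟨y, g1, g2, g3⟩ := h f (‖f‖ - f x + δ) (by linarith) x hx (by linarith) ε hε
  exact ⟨y, g1, by linarith, g3⟩

end Pool.Agent.S04934
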