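import Pool.Statements.S04942
import Pool.Agent.H.MP_6afacc_an.D

set_option autoImplicit false
open Pool Pool.MP_6afacc_an

namespace Pool.Agent.S04942

theorem result :
    ¬ (∀ (X : Type) [NormedAddCommGroup X] [NormedSpace ℝ X] [CompleteSpace X],
    ∀ (q γ : ℝ), 1 < q → q ≤ 2 →
    (∀ x y : X, ‖x‖ = 1 → ‖y‖ = 1 → ∀ u : ℝ, 0 < u →
        (‖x + u • y‖ + ‖x - u • y‖) / 2 - 1 ≤ γ * u ^ q) →
    ∀ D : Set X, (∀ g ∈ D, ‖g‖ = 1) → (∀ g ∈ D, -g ∈ D) →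
    Dense ((Submodule.span ℝ D : Submodule ℝ X) : Set X) →
    ∀ (f : ℕ → X) (F : ℕ → X →L[ℝ] ℝ) (φ : ℕ → X) (a : ℕ → ℝ),
    (∀ m, ‖F m‖ = 1 ∧ F m (f m) = ‖f m‖) →
    (∀ m, φ m ∈ D ∧ ∀ g ∈ D, F m g ≤ F m (φ m)) →
    (∀ m, ∀ b : ℝ, ‖f m - a m • φ m‖ ≤ ‖f m - b • φ m‖) →
    (∀ m, f (m + 1) = f m - a m • φ m) →
    Filter.Tendsto f Filter.atTop (nhds 0)) := by
  intro h
  obtain ⟨X, _, _, _, γ, D, f, φ, F, a, h1, h2, h3, h4, h5, h6, h7, h8, h9⟩ :=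
    Pool.Agent.H.MP_6afacc_an.cex
  have := (h X 2 γ one_lt_two le_rfl (fun x y hx hy u _ => by
    rw [Real.rpow_two]; exact h1 x y hx hy u) D h2 h3 h4 f F φ a h5 h6 h7 h8).norm
  rw [norm_zero] at this
  exact absurd (ge_of_tendsto' this h9) (by norm_num)

end Pool.Agent.S04942
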