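import Pool.Statements.S04955
-- import your own Pool.Agent.* helpers here
import Pool.Agent.H.MP_6c2b6a_an.A

set_option autoImplicit false
open Pool Pool.MP_6c2b6a_an

namespace Pool.Agent.S04955

theorem result :
    ∀ (X : Type) [NormedAddCommGroup X] [NormedSpace ℝ X] [CompleteSpace X],
      (∃ φ : (X →L[ℝ] ℝ) →L[ℝ] ℝ, ∀ x : X, ∃ f : X →L[ℝ] ℝ, φ f ≠ f x) →
      ∃ A : Set (X × (X →L[ℝ] ℝ)),
        (∀ p ∈ A, ∀ q ∈ A, 0 ≤ (p.2 - q.2) (p.1 - q.1)) ∧
        (∀ z : X × (X →L[ℝ] ℝ), (∀ p ∈ A, 0 ≤ (z.2 - p.2) (z.1 - p.1)) → z ∈ A) ∧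
        ∃ (x : X) (xs : X →L[ℝ] ℝ) (α β : ℝ), 0 < α ∧ 0 < β ∧
          (∃ c : ℝ, -(α * β) < c ∧ ∀ p ∈ A, c ≤ (p.2 - xs) (p.1 - x)) ∧
          ∀ p ∈ A, ¬ (‖p.1 - x‖ < α ∧ ‖p.2 - xs‖ < β) := by
  rintro X _ _ _ ⟨φ, hφ⟩
  obtain ⟨C, y, f, W, Wc, yW, yC, hf, y0, hW⟩ := Pool.Agent.H.MP_6c2b6a_an.basis φ hφ
  have C0 : 0 ≤ C := (norm_nonneg _).trans (yC 0)
  have hq : ∀ (v : X) (g : X →L[ℝ] ℝ) (σ : ℝ), v ∈ W →
      (∀ n, f n v = 2 * σ + g (y (n + 1)) + g (y n)) → -σ ^ 2 ≤ g v := fun v g σ hv h =>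
    Pool.Agent.H.MP_6c2b6a_an.quad y _ v g σ y0 (hW v hv).2 h
  have e0 : ∀ n, f n (y 1) - f 0 (y n) + (-f 0) (y (n + 1)) + 2 * f 0 (y n) + 2 * f 0 (y (n + 1))
      = 2 + f n (y 1) - f n (y 1) := fun n => by
    rcases n with _ | n <;> simp [hf] <;> norm_num
  refine ⟨{p | p.1 ∈ W ∧ ∀ n, f n p.1 = p.2 (y (n + 1)) + p.2 (y n)}, fun p hp q hq' => ?_,
    fun z hz => ?_, y 1, -f 0, 2 * (C + 1), 1 / (C + 1), by positivity, by positivity,
    ⟨-1, by field_simp; norm_num, fun p hp => ?_⟩, fun p hp ⟨_, h⟩ => ?_⟩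
  · simpa using hq _ (p.2 - q.2) 0 (W.sub_mem hp.1 hq'.1) fun n => by
      simp only [map_sub, sub_apply, hp.2, hq'.2]; ring
  · have h1 : ∀ (x : X) (g : X →L[ℝ] ℝ), x ∈ W → (∀ n, f n x = g (y (n + 1)) + g (y n)) → g x = 0 →
        z.2 x + g z.1 = 0 := fun x g hx hg h0 => by
      by_contra hc
      have := hz (((z.2 z.1 + 1) / (z.2 x + g z.1)) • (x, g)) ⟨W.smul_mem _ hx, fun n => by
        simp [hg, mul_add]⟩
      simp only [Prod.smul_fst, Prod.smul_snd, map_sub, sub_apply, map_smul, smul_apply, h0,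
        smul_eq_mul] at this
      linarith [div_mul_cancel₀ (z.2 z.1 + 1) hc]
    have h2 : z.1 ∈ W := Pool.Agent.H.MP_438bde_an.sep W Wc _ fun g hg => by
      simpa using h1 0 g W.zero_mem (fun n => by simp [hg _ (yW _)]) (map_zero g)
    obtain ⟨σ, hσ⟩ : ∃ σ, ∀ n, f n z.1 = 2 * σ + z.2 (y (n + 1)) + z.2 (y n) := by
      refine ⟨(f 0 z.1 - z.2 (y 1) - z.2 (y 0)) / 2, fun n => ?_⟩
      induction n with
      | zero => ring
      | succ n ih =>
        have := h1 (y (n + 2) - y n) (f n - f (n + 1)) (W.sub_mem (yW _) (yW _)) (fun k => by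
          simp only [map_sub, sub_apply, hf]
          split_ifs <;> first | omega | norm_num) (by simp [hf])
        simp only [map_sub, sub_apply] at this
        linarith
    have := hz (z.1 - σ • y 1, z.2 + σ • f 0) ⟨W.sub_mem h2 (W.smul_mem _ (yW _)), fun n => by
      have := e0 n
      simp only [map_sub, map_smul, add_apply, smul_apply, smul_eq_mul, hσ, neg_apply] at this ⊢
      linear_combination (-σ) * this⟩
    obtain rfl : σ = 0 := by
      simp [hf] at this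
      nlinarith
    exact ⟨h2, by simpa using hσ⟩
  · simpa using hq _ (p.2 - -f 0) (-1) (W.sub_mem hp.1 (yW 1)) fun n => by
      have := e0 n
      simp only [map_sub, sub_apply, hp.2, neg_apply] at this ⊢
      linarith
  · have h1 : ∀ n, |(p.2 - -f 0) (y n)| ≤ C / (C + 1) := fun n =>
      ((p.2 - -f 0).le_opNorm _).trans ((mul_le_mul h.le (yC n) (norm_nonneg _)
        (by positivity)).trans_eq (by ring))
    have h2 : C / (C + 1) < 1 := by rw [div_lt_one (by positivity)]; linarith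
    have := ge_of_tendsto' (b := 2 - 2 * (C / (C + 1))) (hW _ (W.sub_mem (yW 1) hp.1)).1 fun n => by
      have a1 := le_of_abs_le (h1 n)
      have a2 := le_of_abs_le (h1 (n + 1))
      have := e0 n
      simp only [map_sub, sub_apply, hp.2, neg_apply] at this a1 a2 ⊢
      linarith
    linarith

end Pool.Agent.S04955
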