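import Pool.Statements.S04961
import Pool.Agent.H.MP_6c36f4_an.A

set_option autoImplicit false
open MeasureTheory
open Pool Pool.MP_6c36f4_an

namespace Pool.Agent.S04961

open Pool.Agent.H.MP_6c36f4_an Filter
open scoped ComplexConjugate

lemma cj (f : EE → ℂ) (hf : MemLp f 2 (volume.restrict Om)) :
    Integrable (fun x => f x * conj (x 1)) (volume.restrict Om) := by
  have h := w_mem one_le_two (by norm_num)
  rw [ENNReal.ofReal_ofNat] at h
  exact hf.integrable_mul (h.congr_norm
    (Complex.continuous_conj.comp (continuous_apply 1)).aestronglyMeasurable (by simp))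

lemma sq_eq (s : Set EE) : ∫ x in s, x 1 * conj (x 1) = (∫ x in s, ‖x 1‖ ^ 2 : ℝ) := by
  simp only [Complex.mul_conj', ← integral_complex_ofReal, Complex.ofReal_pow]

lemma sq_low (n : ℕ) {s : Set EE} (h1 : bS n ⊆ s) (h2 : s ⊆ Om) :
    (2 ^ n / 2) ^ 2 * VV n ≤ ∫ x in s, ‖x 1‖ ^ 2 := by
  have h := w_mem one_le_two (by norm_num)
  rw [ENNReal.ofReal_ofNat] at h
  have i : IntegrableOn (fun x : EE => ‖x 1‖ ^ 2) Om := h.integrable_norm_pow two_ne_zero
  refine le_trans ?_ (setIntegral_mono_set (i.mono_set h2) (Eventually.of_forall fun _ =>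
    sq_nonneg _) h1.eventuallyLE)
  have := setIntegral_ge_of_const_le_real (bS_meas n) (by simp [vol_bS]) (fun x hx =>
    pow_le_pow_left₀ (by positivity) (mem_Bx.1 hx).2.1.le 2) (i.mono_set (bS_sub n))
  rwa [Measure.real, vol_bS, ENNReal.toReal_ofReal (VV_pos n).le] at this

theorem result : ∃ n : ℕ, 1 ≤ n ∧ ∃ Ω : Set (Fin n → ℂ), IsOpen Ω ∧ IsConnected Ω ∧
    ∃ a b : ℝ, 1 < a ∧ a < b ∧ ∀ p : ℝ, 1 < p →
      ((∃ C : ℝ, ∀ f g : (Fin n → ℂ) → ℂ,
          MemLp f 2 (volume.restrict Ω) →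
          MemLp f (ENNReal.ofReal p) (volume.restrict Ω) →
          DifferentiableOn ℂ g Ω →
          MemLp g 2 (volume.restrict Ω) →
          (∀ h : (Fin n → ℂ) → ℂ, DifferentiableOn ℂ h Ω → MemLp h 2 (volume.restrict Ω) →
              ∫ z in Ω, (f z - g z) * (starRingEnd ℂ) (h z) = 0) →
          eLpNorm g (ENNReal.ofReal p) (volume.restrict Ω)
            ≤ ENNReal.ofReal C * eLpNorm f (ENNReal.ofReal p) (volume.restrict Ω))
        ↔ (a ≤ p ∧ p ≤ b)) := by
  refine ⟨2, one_le_two, Om, Om_open, Om_conn, 3 / 2, 3, by norm_num, by norm_num, fun p hp => ?_⟩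
  have hpq := Real.HolderConjugate.conjExponent hp
  set q := p.conjExponent
  have p0 := hpq.pos
  have e1 := hpq.inv_add_inv_eq_one
  have w2 := w_mem one_le_two (by norm_num)
  rw [ENNReal.ofReal_ofNat] at w2
  have wd : ∀ c : ℂ, DifferentiableOn ℂ (fun x : EE => c * x 1) Om := fun c => by fun_prop
  set N := ∫ x in Om, ‖x 1‖ ^ 2 with hN
  have N0 : 0 < N := lt_of_lt_of_le (mul_pos (by positivity) (VV_pos 0))
    (sq_low 0 (bS_sub 0) le_rfl)
  have orth : ∀ (f : EE → ℂ) (c : ℂ), MemLp f 2 (volume.restrict Om) →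
      ∫ x in Om, (f x - c * x 1) * conj (x 1) = (∫ x in Om, f x * conj (x 1)) - c * N :=
    fun f c hf => by
    simp only [sub_mul, mul_assoc]
    rw [integral_sub (cj f hf) ((cj _ w2).const_mul c), integral_const_mul, sq_eq]
  constructor
  · rintro ⟨C, hC⟩
    have key : ∀ m n : ℕ, 2 ^ m * VV m ^ q⁻¹ * (2 ^ n * VV n ^ p⁻¹) ≤ 8 * N * |C| := fun m n => by
      have Vm := VV_pos m
      have Vn := VV_pos n
      have f2 := w2.indicator (bS_meas m)
      set d := ∫ x in bS m, ‖x 1‖ ^ 2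
      have d0 := sq_low m le_rfl (bS_sub m)
      have k := hC _ (fun x => (d / N : ℝ) * x 1) f2 ⟨f2.1, (w_up p0 m).trans_lt
        ENNReal.ofReal_lt_top⟩ (wd _) (w2.const_mul _) fun h h1 h2 => by
        obtain ⟨c, hc⟩ := span h1 h2
        rw [setIntegral_congr_fun Om_open.measurableSet (g := fun x => conj c *
          (((bS m).indicator (fun x : EE => x 1) x - (d / N : ℝ) * x 1) * conj (x 1)))
          fun x hx => by simp only [hc x hx, map_mul]; ring, integral_const_mul, orth _ _ f2]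
        simp only [← Set.indicator_mul_left (bS m) (fun x : EE => x 1) fun x => conj (x 1)]
        rw [setIntegral_indicator (bS_meas m), Set.inter_eq_right.2 (bS_sub m), sq_eq,
          ← Complex.ofReal_mul, div_mul_cancel₀ _ N0.ne', sub_self, mul_zero]
      have d1 : 0 ≤ d / N := div_nonneg (le_trans (by positivity) d0) N0.le
      have k2 := (mul_le_mul_right (w_low p0 n) ‖((d / N : ℝ) : ℂ)‖ₑ).trans
        ((eLpNorm_const_smul _ _ _ _).ge.trans (k.trans (mul_le_mul'
        (ENNReal.ofReal_le_ofReal (le_abs_self C)) (w_up p0 m))))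
      rw [← ofReal_norm, Complex.norm_real, Real.norm_of_nonneg d1, ← ENNReal.ofReal_mul d1,
        ← ENNReal.ofReal_mul (abs_nonneg _), ENNReal.ofReal_le_ofReal_iff (by positivity),
        one_div] at k2
      have e : VV m = VV m ^ q⁻¹ * VV m ^ p⁻¹ := by
        rw [← Real.rpow_add Vm, add_comm, e1, Real.rpow_one]
      refine le_of_mul_le_mul_right ?_ (by positivity : 0 < 2 ^ m * VV m ^ p⁻¹ / (8 * N))
      calc _ = (2 ^ m / 2) ^ 2 * (VV m ^ q⁻¹ * VV m ^ p⁻¹) / N * (2 ^ n / 2 * VV n ^ p⁻¹) := by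
            field_simp
            ring
        _ ≤ d / N * (2 ^ n / 2 * VV n ^ p⁻¹) := by
            rw [← e]
            gcongr
        _ ≤ _ := k2.trans_eq (by field_simp)
    have V0 := VV_pos 0
    constructor <;> by_contra! h
    · have : 2 / 3 < p⁻¹ := by rw [lt_inv_comm₀ (by norm_num) p0]; linarith
      obtain ⟨m, hm⟩ := (((gro (s := q⁻¹) (by linarith)).atTop_mul_const (by positivity :
        0 < 2 ^ 0 * VV 0 ^ p⁻¹)).eventually_gt_atTop (8 * N * |C|)).exists
      exact hm.not_ge (key m 0)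
    · have : p⁻¹ < 1 / 3 := by rw [inv_lt_comm₀ p0 (by norm_num)]; linarith
      obtain ⟨m, hm⟩ := (((gro (s := p⁻¹) (by linarith)).const_mul_atTop (by positivity :
        0 < 2 ^ 0 * VV 0 ^ q⁻¹)).eventually_gt_atTop (8 * N * |C|)).exists
      exact hm.not_ge (key 0 m)
  · rintro ⟨h1, h2⟩
    have wp := w_mem hp.le h2
    have wq := w_mem hpq.symm.lt.le (by nlinarith [hpq.sub_one_mul_conj, hpq.symm.pos])
    refine ⟨(eLpNorm (fun x : EE => x 1) (ENNReal.ofReal p) (volume.restrict Om) *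
      eLpNorm (fun x : EE => x 1) (ENNReal.ofReal q) (volume.restrict Om)).toReal * N⁻¹,
      fun f g f2 _ hg g2 ho => ?_⟩
    obtain ⟨c, hc⟩ := span hg g2
    have k := ho (fun x => x 1) (by fun_prop) w2
    rw [setIntegral_congr_fun Om_open.measurableSet (g := fun x => (f x - c * x 1) * conj (x 1))
      fun x hx => by simp only [hc x hx], orth f c f2, sub_eq_zero] at k
    have := hpq.ennrealOfReal
    have k2 := (enorm_integral_le_lintegral_enorm _).trans (eLpNorm_one_eq_lintegral_enorm.ge.trans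
      (eLpNorm_smul_le_mul_eLpNorm (p := ENNReal.ofReal p) (q := ENNReal.ofReal q)
      (f := fun x : EE => conj (x 1))
      (Complex.continuous_conj.comp (continuous_apply 1)).aestronglyMeasurable f2.1))
    simp only [Pi.smul_apply', smul_eq_mul, k] at k2
    rw [eLpNorm_congr_norm_ae (f := fun x : EE => conj (x 1)) (g := fun x : EE => x 1) (by simp),
      enorm_mul, ← ofReal_norm (N : ℂ), Complex.norm_real, Real.norm_of_nonneg N0.le] at k2
    rw [eLpNorm_congr_ae (g := c • fun x : EE => x 1)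
      ((ae_restrict_mem Om_open.measurableSet).mono hc), eLpNorm_const_smul,
      ENNReal.ofReal_mul ENNReal.toReal_nonneg, ENNReal.ofReal_toReal
      (ENNReal.mul_ne_top wp.2.ne wq.2.ne), ENNReal.ofReal_inv_of_pos N0]
    have k3 := (ENNReal.le_div_iff_mul_le (Or.inl (ENNReal.ofReal_pos.2 N0).ne')
      (Or.inl ENNReal.ofReal_ne_top)).2 k2
    refine (mul_le_mul_left k3 _).trans_eq ?_
    rw [div_eq_mul_inv]
    ring

end Pool.Agent.S04961
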