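import Pool.Statements.S04970
import Pool.Agent.H.MP_1fc4c0_an.E

set_option autoImplicit false
open Pool Pool.MP_6d7699_an

namespace Pool.Agent.S04970

theorem result :
    ¬ (∀ μ : ℤ → ℝ, (∀ k, 0 ≤ μ k) → HasSum μ 1 →
      (∀ t : ℝ, 0 < |t| → |t| ≤ Real.pi →
        ‖∑' k : ℤ, (μ k : ℂ) * Complex.exp (((t * (k : ℝ) : ℝ) : ℂ) * Complex.I)‖ < 1) →
      (∃ C : ℝ, ∀ t : ℝ, 0 < |t| → |t| ≤ Real.pi →
        ‖1 - ∑' k : ℤ, (μ k : ℂ) * Complex.exp (((t * (k : ℝ) : ℝ) : ℂ) * Complex.I)‖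
          ≤ C * (1 - ‖∑' k : ℤ, (μ k : ℂ) * Complex.exp (((t * (k : ℝ) : ℝ) : ℂ) * Complex.I)‖)) →
      ∃ A : ℝ, 0 < A ∧ ∀ f : ℤ → ℝ, Summable (fun k => |f k|) → ∀ lam : ℝ, 0 < lam →
        MeasureTheory.Measure.count
          {k : ℤ | ENNReal.ofReal (lam ^ 2) <
            ∑' n : ℕ, ENNReal.ofReal (((n : ℝ) + 1) *
              (∑' j : ℤ,
                (Nat.iterate (fun g : ℤ → ℝ => fun m => ∑' i : ℤ, μ i * g (m - i)) (n + 1)
                    (fun m => if m = 0 then (1 : ℝ) else 0) j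
                  - Nat.iterate (fun g : ℤ → ℝ => fun m => ∑' i : ℤ, μ i * g (m - i)) (n + 2)
                    (fun m => if m = 0 then (1 : ℝ) else 0) j) * f (k - j)) ^ 2)}
          ≤ ENNReal.ofReal (A * (∑' k : ℤ, |f k|) / lam)) := by
  open Pool.Agent.H.MP_1fc4c0_an Finset in
  intro H
  obtain ⟨μ, h0, h1, hs, m0, m1, hg⟩ := core
  have hh : ∀ t : ℝ, 0 < |t| → |t| ≤ Real.pi → Real.cos t < 1 := fun t t0 t1 =>
    lt_of_le_of_ne (Real.cos_le_one t) fun h => abs_pos.1 t0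
      ((Real.cos_eq_one_iff_of_lt_of_lt (by linarith [abs_le.1 t1, Real.pi_pos])
        (by linarith [abs_le.1 t1, Real.pi_pos])).1 h)
  obtain ⟨A, A0, hA⟩ := H μ h0 h1 (fun t t0 t1 => by
    obtain ⟨r, e, r0, r1⟩ := hat h0 h1 hs m0 m1 (hh t t0 t1)
    rwa [e, Complex.norm_real, Real.norm_of_nonneg r0]) ⟨1, fun t t0 t1 => by
    obtain ⟨r, e, r0, r1⟩ := hat h0 h1 hs m0 m1 (hh t t0 t1)
    rw [e, ← Complex.ofReal_one, ← Complex.ofReal_sub, Complex.norm_real, Complex.norm_real,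
      Real.norm_of_nonneg r0, Real.norm_of_nonneg (by linarith), one_mul]⟩
  obtain ⟨j, hj⟩ := exists_nat_gt (3 * (23 * A) ^ 2)
  obtain ⟨a, b, f, E, δ, a0, ab, hab, d0, hE, f1, f2, f3, f4⟩ := hg j
  have a1 : (0 : ℝ) < a := by exact_mod_cast a0
  have E0 : (0 : ℝ) < E.card := by exact_mod_cast hE.card_pos
  have h := hA f f2 (23 * A * δ) (by positivity)
  change MeasureTheory.Measure.count {k : ℤ | ENNReal.ofReal ((23 * A * δ) ^ 2) <
    ∑' n : ℕ, ENNReal.ofReal (((n : ℝ) + 1) *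
      (∑' i : ℤ, (c μ (n + 1) i - c μ (n + 1 + 1) i) * f (k - i)) ^ 2)} ≤ _ at h
  simp only [dif h0 h1 _ f1] at h
  obtain ⟨a, rfl⟩ := Nat.exists_eq_add_one.2 a0
  obtain ⟨b, rfl⟩ := Nat.exists_eq_add_one.2 (a0.trans_le ab)
  have hsub : (E : Set ℤ) ⊆ {k : ℤ | ENNReal.ofReal ((23 * A * δ) ^ 2) < ∑' n : ℕ, ENNReal.ofReal
      (((n : ℝ) + 1) * (D μ (n + 1) f k - D μ (n + 1 + 1) f k) ^ 2)} := by
    intro x hx
    refine lt_of_lt_of_le ?_ (ENNReal.sum_le_tsum (Ico a b))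
    rw [← ENNReal.ofReal_sum_of_nonneg fun _ _ => by positivity]
    have b1 := (f4 x hx).trans (tel ab f x)
    rw [← sum_Ico_add' _ a b 1] at b1
    have b2 := (pow_le_pow_left₀ d0.le b1 2).trans sq_sum_le_card_mul_sum_sq
    rw [Nat.card_Ico, Nat.cast_sub (by omega)] at b2
    simp only [sq_abs] at b2
    have b3 : ((a : ℝ) + 1) * ∑ n ∈ Ico a b, (D μ (n + 1) f x - D μ (n + 1 + 1) f x) ^ 2 ≤
        ∑ n ∈ Ico a b, ((n : ℝ) + 1) * (D μ (n + 1) f x - D μ (n + 1 + 1) f x) ^ 2 := by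
      rw [mul_sum]
      refine sum_le_sum fun n hn => mul_le_mul_of_nonneg_right ?_ (by positivity)
      have : (a : ℝ) ≤ n := by exact_mod_cast (mem_Ico.1 hn).1
      linarith
    have b4 : 0 ≤ ∑ n ∈ Ico a b, (D μ (n + 1) f x - D μ (n + 1 + 1) f x) ^ 2 := by positivity
    have b5 := mul_le_mul_of_nonneg_right hab b4
    have b6 := mul_le_mul_of_nonneg_right b2 (by positivity : (0 : ℝ) ≤ j + 1)
    have b7 := mul_le_mul_of_nonneg_right hj.le (sq_nonneg δ)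
    have b8 : 0 < (23 * A * δ) ^ 2 := by positivity
    push_cast at b5
    refine (ENNReal.ofReal_lt_ofReal_iff (by nlinarith)).2 (by nlinarith)
  have h2 := (MeasureTheory.measure_mono hsub).trans h
  rw [MeasureTheory.Measure.count_apply_finset, ← ENNReal.ofReal_natCast,
    ENNReal.ofReal_le_ofReal_iff (div_nonneg (mul_nonneg A0.le
      (tsum_nonneg fun _ => abs_nonneg _)) (by positivity)), le_div_iff₀ (by positivity)] at h2
  have := mul_le_mul_of_nonneg_left f3 A0.le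
  have : 0 < A * δ * E.card := by positivity
  linarith

end Pool.Agent.S04970
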