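import Pool.Statements.S04971
import Pool.Agent.H.MP_6dace2_an.E

set_option autoImplicit false
open Filter Topology Asymptotics Real
open Pool Pool.MP_6dace2_an

namespace Pool.Agent.S04971

open Pool.Agent.H.MP_6dace2_an

theorem result :
  ∀ (n : ℕ) (z : Fin n → ℂ) (δ μ ν : Fin n → ℝ) (E : Fin n → ℝ → Set ℂ) (D R : ℝ),
    Function.Injective z →
    (∃ k l, δ k ≠ δ l) →
    (∀ k, 0 < μ k) → (∀ k, 0 < ν k) →
    (∀ k r, IsClosed (E k r)) →
    (∀ k, ∀ ε > 0, ∀ᶠ r in 𝓝[>] (0:ℝ), E k r ⊆ Metric.ball (z k) ε) →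
    (∀ k, Tendsto (fun r : ℝ =>
        (⨅ m : ℕ, ⨆ w : Fin (m+2) → E k r,
          (∏ i : Fin (m+2), ∏ j ∈ Finset.Ioi i, ‖(w i : ℂ) - (w j : ℂ)‖)
            ^ ((2:ℝ) / (((m:ℝ) + 2) * ((m:ℝ) + 1)))) / (μ k * r ^ (ν k)))
        (𝓝[>] 0) (𝓝 1)) →
    D = (∑ k, δ k / ν k) / (∑ k, 1 / ν k) →
    R = 2 * π * (∑ k, (δ k - D) ^ 2 / (ν k) ^ 2 * Real.log (μ k)
        + ∑ k, ∑ l ∈ Finset.univ.erase k,
            (δ k - D) * (δ l - D) / (ν k * ν l) * Real.log ‖z k - z l‖) →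
    (fun r : ℝ =>
        (⨅ (u : ℂ → ℝ) (_ : LocallyLipschitz u ∧ (∃ c : ℝ, Tendsto u (cocompact ℂ) (𝓝 c)) ∧
              ∀ k, ∀ x ∈ E k r, u x = δ k),
            ∫⁻ x, (‖fderiv ℝ u x‖₊ : ENNReal) ^ 2).toReal
        - (-(2 * π) * ∑ k, (δ k - D) ^ 2 / (ν k * Real.log r) + R * (1 / Real.log r) ^ 2))
      =o[𝓝[>] 0] (fun r : ℝ => (1 / Real.log r) ^ 2) := by
  intro n z δ μ ν E D R hz hne hμ hν hcl hE htd hD hR
  change ∀ k, Tendsto (fun r : ℝ => td (E k r) / (μ k * r ^ ν k)) (𝓝[>] 0) (𝓝 1) at htd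
  change (fun r : ℝ => (cap δ (fun k => E k r)).toReal - _) =o[_] _
  obtain ⟨k0, -⟩ := hne
  have hW : 0 < ∑ k, 1 / ν k :=
    Finset.sum_pos (fun k _ => one_div_pos.2 (hν k)) ⟨k0, Finset.mem_univ _⟩
  obtain ⟨a, ha⟩ : ∃ a : Fin n → ℝ, ∀ k, a k = (δ k - D) / ν k := ⟨_, fun _ => rfl⟩
  have hsa : ∑ k, a k = 0 := by
    have : ∀ k, a k = δ k / ν k - D * (1 / ν k) := fun k => by rw [ha]; ring
    simp only [this, Finset.sum_sub_distrib, ← Finset.mul_sum]
    rw [hD]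
    field_simp
    ring
  obtain ⟨β, hβ⟩ : ∃ β : Fin n → ℝ, ∀ k, β k = a k * log (μ k) +
    ∑ l ∈ Finset.univ.erase k, a l * log ‖z k - z l‖ := ⟨_, fun _ => rfl⟩
  obtain ⟨c', hc'⟩ : ∃ c' : ℝ, c' = (∑ k, β k / ν k) / ∑ k, 1 / ν k := ⟨_, rfl⟩
  obtain ⟨p, hp⟩ : ∃ p : Fin n → ℝ, ∀ k, p k = (β k - c') / ν k := ⟨_, fun _ => rfl⟩
  have hsp : ∑ k, p k = 0 := by
    have : ∀ k, p k = β k / ν k - c' * (1 / ν k) := fun k => by rw [hp]; ring
    simp only [this, Finset.sum_sub_distrib, ← Finset.mul_sum]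
    rw [hc']
    field_simp
    ring
  have hRp : R = 2 * π * ∑ k, p k * δ k := by
    have h1 : ∀ k, p k * δ k = D * p k + (a k * β k - c' * a k) := fun k => by
      rw [hp, ha]; ring
    simp only [h1, Finset.sum_add_distrib, Finset.sum_sub_distrib, ← Finset.mul_sum, hsa, hsp]
    rw [hR, ← Finset.sum_add_distrib]
    simp only [mul_zero, zero_add, sub_zero]
    congr 1
    refine Finset.sum_congr rfl fun k _ => ?_
    rw [hβ, mul_add, Finset.mul_sum]
    congr 1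
    · rw [ha]; ring
    · exact Finset.sum_congr rfl fun l _ => by rw [ha, ha]; ring
  have hA : ∑ k, a k * δ k = ∑ k, (δ k - D) ^ 2 / ν k := by
    have h1 : ∀ k, a k * δ k = D * a k + (δ k - D) ^ 2 / ν k := fun k => by rw [ha]; ring
    simp only [h1, Finset.sum_add_distrib, ← Finset.mul_sum, hsa, mul_zero, zero_add]
  obtain ⟨γ, hγ, hγ0⟩ : ∃ γ : ℝ, (∀ k l, δ k ≠ δ l → γ ≤ |δ k - δ l|) ∧ 0 < γ := by
    have h1 : ∀ᶠ γ : ℝ in 𝓝 0, ∀ k l, δ k ≠ δ l → γ ≤ |δ k - δ l| := by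
      refine eventually_all.2 fun k => eventually_all.2 fun l => ?_
      by_cases h : δ k = δ l
      · simp [h]
      · filter_upwards [eventually_le_nhds (abs_pos.2 (sub_ne_zero.2 h))] with γ h2 _ using h2
    exact ((h1.filter_mono nhdsWithin_le_nhds).and (self_mem_nhdsWithin (s := Set.Ioi (0:ℝ)))).exists
  obtain ⟨C, hC⟩ : ∃ C : ℝ, C = ∑ k, (|a k| + |p k|) := ⟨_, rfl⟩
  obtain ⟨C', hC'⟩ : ∃ C' : ℝ, C' = ∑ k, (|a k| + |p k|) * |δ k| := ⟨_, rfl⟩
  have hC0 : 0 ≤ C := hC ▸ Finset.sum_nonneg fun _ _ => by positivity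
  have hC0' : 0 ≤ C' := hC' ▸ Finset.sum_nonneg fun _ _ => by positivity
  have hT : Tendsto (fun r : ℝ => -log r) (𝓝[>] 0) atTop :=
    tendsto_neg_atBot_atTop.comp tendsto_log_nhdsGT_zero
  have ht : Tendsto (fun r : ℝ => (-log r)⁻¹) (𝓝[>] 0) (𝓝 0) := hT.inv_tendsto_atTop
  obtain ⟨e, he⟩ : ∃ e : Fin n → ℝ → ℝ, ∀ k r, e k r = -log (td (E k r) / (μ k * r ^ ν k)) :=
    ⟨_, fun _ _ => rfl⟩
  have he0 : ∀ k, Tendsto (e k) (𝓝[>] 0) (𝓝 0) := fun k => by
    have := ((htd k).log one_ne_zero).neg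
    rw [log_one, neg_zero] at this
    exact this.congr fun r => (he k r).symm
  have hpos : ∀ k, ∀ᶠ r in 𝓝[>] (0:ℝ), 0 < td (E k r) ∧
      -log (td (E k r)) = ν k * -log r + (e k r - log (μ k)) := fun k => by
    filter_upwards [(htd k).eventually (lt_mem_nhds zero_lt_one), self_mem_nhdsWithin] with r h1 h2
    have h3 : 0 < r ^ ν k := rpow_pos_of_pos h2 _
    have h4 := mul_pos (hμ k) h3
    have h5 : 0 < td (E k r) := (div_pos_iff_of_pos_right h4).1 h1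
    refine ⟨h5, ?_⟩
    rw [he, log_div h5.ne' h4.ne', log_mul (hμ k).ne' h3.ne', log_rpow h2]
    ring
  have hφ : ∀ k, Tendsto (fun r => a k * e k r + (-log r)⁻¹ * (p k * (e k r - log (μ k)) -
      ∑ l ∈ Finset.univ.erase k, p l * log ‖z k - z l‖)) (𝓝[>] 0) (𝓝 0) := fun k => by
    have := ((he0 k).const_mul (a k)).add (ht.mul ((((he0 k).sub_const (log (μ k))).const_mul
      (p k)).sub_const (∑ l ∈ Finset.univ.erase k, p l * log ‖z k - z l‖)))
    simpa using this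
  rw [isLittleO_iff]
  intro c0 hc0
  obtain ⟨K, hK⟩ : ∃ K : ℝ, K = 2 * π * (12 * (1 + C) / γ * C' + 4 * (C + C ^ 2 * 2)) := ⟨_, rfl⟩
  have hK0 : 0 ≤ K := by rw [hK]; positivity
  obtain ⟨ω, hω, hω1, hω2⟩ : ∃ ω : ℝ, 0 < ω ∧ ω * K ≤ c0 ∧ ω * (1 + C) ≤ γ / 4 := by
    refine ⟨min (c0 / (K + 1)) (γ / 4 / (1 + C)), by positivity, ?_, ?_⟩
    · have h1 : min (c0 / (K + 1)) (γ / 4 / (1 + C)) * (K + 1) ≤ c0 := by
        rw [← le_div_iff₀ (by positivity)]
        exact min_le_left _ _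
      have h2 : 0 < min (c0 / (K + 1)) (γ / 4 / (1 + C)) := by positivity
      linarith
    · rw [← le_div_iff₀ (by positivity)]
      exact min_le_right _ _
  obtain ⟨s, M, hs, hs1, hM, hsep⟩ := exists_sep hz hω
  have hLe : ∀ k, ∀ᶠ r in 𝓝[>] (0:ℝ), -log s + ω < ν k * -log r + (e k r - log (μ k)) := fun k =>
    ((hT.const_mul_atTop (hν k)).atTop_add ((he0 k).sub_const (log (μ k)))).eventually
      (eventually_gt_atTop _)
  filter_upwards [eventually_all.2 hpos, eventually_all.2 hLe,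
    eventually_all.2 fun k => hE k s hs, hT.eventually (eventually_ge_atTop 1),
    eventually_all.2 fun k => Metric.tendsto_nhds.1 (hφ k) ω hω] with r h1 h2 h3 h4 h5
  obtain ⟨T, hTd⟩ : ∃ T, T = -log r := ⟨_, rfl⟩
  have hlog : log r = -T := by rw [hTd, neg_neg]
  rw [← hTd] at h1 h2 h4 h5
  have hT0 : 0 < T := by linarith
  obtain ⟨t, htd'⟩ : ∃ t, t = T⁻¹ := ⟨_, rfl⟩
  rw [← htd'] at h5
  have ht0 : 0 < t := by rw [htd']; positivity
  have ht1 : t ≤ 1 := by rw [htd']; exact inv_le_one_of_one_le₀ h4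
  have htT : t * T = 1 := by rw [htd']; field_simp
  obtain ⟨q, hq⟩ : ∃ q : Fin n → ℝ, ∀ k, q k = a k * t + p k * t ^ 2 := ⟨_, fun _ => rfl⟩
  have hsq : ∑ k, q k = 0 := by
    simp only [hq, Finset.sum_add_distrib, ← Finset.sum_mul, hsa, hsp]
    ring
  have hqb : ∀ k, |q k| ≤ (|a k| + |p k|) * t := fun k => by
    rw [hq]
    refine (abs_add_le _ _).trans ?_
    rw [abs_mul, abs_mul, abs_of_pos ht0, abs_of_pos (pow_pos ht0 2)]
    have : |p k| * t ^ 2 ≤ |p k| * t := mul_le_mul_of_nonneg_left (by nlinarith) (abs_nonneg _)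
    linarith
  have hS : ∑ k, |q k| ≤ C * t := by
    rw [hC, Finset.sum_mul]
    exact Finset.sum_le_sum fun k _ => hqb k
  have hS0 : 0 ≤ ∑ k, |q k| := Finset.sum_nonneg fun _ _ => abs_nonneg _
  have hP : |∑ k, q k * δ k| ≤ C' * t := by
    refine (Finset.abs_sum_le_sum_abs _ _).trans ?_
    rw [hC', Finset.sum_mul]
    refine Finset.sum_le_sum fun k _ => ?_
    rw [abs_mul, mul_right_comm]
    exact mul_le_mul_of_nonneg_right (hqb k) (abs_nonneg _)
  have hτ : ω * t + (∑ k, |q k|) * ω ≤ ω * (1 + C) * t := by nlinarith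
  have main := two_sided (E := fun k => E k r) (δ := δ) (q := q) (c := D + c' * t) (θ := ω * t)
    hs hs1 hM hω hsep (fun k => hcl k r) (fun k x hx => by simpa [dist_eq_norm] using h3 k hx)
    (fun k => (h1 k).1) (fun k => by linarith [(h1 k).2, h2 k]) hsq (by positivity) (fun k => ?_)
    hγ0 hγ (by nlinarith [mul_nonneg hω.le (by linarith : 0 ≤ 1 + C)])
  · have e1 : -(2 * π) * ∑ k, (δ k - D) ^ 2 / (ν k * log r) + R * (1 / log r) ^ 2
        = 2 * π * ∑ k, q k * δ k := by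
      have f1 : ∀ k, (δ k - D) ^ 2 / (ν k * log r) = -t * ((δ k - D) ^ 2 / ν k) := fun k => by
        rw [hlog, htd']
        have := hν k
        field_simp
      have f2 : ∀ k, q k * δ k = t * (a k * δ k) + t ^ 2 * (p k * δ k) := fun k => by
        rw [hq]; ring
      have f3 : (1 / log r) ^ 2 = t ^ 2 := by rw [hlog, htd', one_div, inv_neg, neg_sq]
      simp only [f1, f2, f3, Finset.sum_add_distrib, ← Finset.mul_sum, hA, hRp]
      ring
    have f3 : ‖(1 / log r) ^ 2‖ = t ^ 2 := by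
      rw [hlog, htd', one_div, inv_neg, neg_sq, Real.norm_eq_abs, abs_of_nonneg (sq_nonneg _)]
    rw [e1, f3, Real.norm_eq_abs]
    refine main.trans ?_
    calc _ ≤ 2 * π * (12 * (ω * (1 + C) * t) / γ * (C' * t) +
            4 * (C * t * (ω * t) + (C * t) ^ 2 * (2 * ω))) := by gcongr
      _ = ω * K * t ^ 2 := by rw [hK]; ring
      _ ≤ c0 * t ^ 2 := by gcongr
  · have g1 := h5 k
    rw [Real.dist_eq, sub_zero] at g1
    have g2 : ∑ j, q j * Lam z (fun k => -log (td (E k r))) k j = q k * -log (td (E k r)) -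
        (t * ∑ l ∈ Finset.univ.erase k, a l * log ‖z k - z l‖ +
          t ^ 2 * ∑ l ∈ Finset.univ.erase k, p l * log ‖z k - z l‖) := by
      rw [← Finset.add_sum_erase _ _ (Finset.mem_univ k), Finset.mul_sum, Finset.mul_sum,
        ← Finset.sum_add_distrib, sub_eq_add_neg, ← Finset.sum_neg_distrib]
      congr 1
      · simp [Lam]
      · refine Finset.sum_congr rfl fun l hl => ?_
        simp only [Lam, if_neg (Finset.ne_of_mem_erase hl).symm, hq]
        ring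
    have g3 : D + c' * t + ∑ j, q j * Lam z (fun k => -log (td (E k r))) k j - δ k
        = t * (a k * e k r + t * (p k * (e k r - log (μ k)) -
          ∑ l ∈ Finset.univ.erase k, p l * log ‖z k - z l‖)) := by
      have i1 : a k * ν k = δ k - D := by
        rw [ha, div_mul_cancel₀ _ (hν k).ne']
      have i2 : p k * ν k = β k - c' := by
        rw [hp, div_mul_cancel₀ _ (hν k).ne']
      rw [g2, (h1 k).2, hq]
      rw [hβ] at i2
      linear_combination (t * T) * i1 + (δ k - D) * htT + (t ^ 2 * T) * i2 +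
        (a k * log (μ k) + ∑ l ∈ Finset.univ.erase k, a l * log ‖z k - z l‖ - c') * t * htT
    rw [g3, abs_mul, abs_of_pos ht0, mul_comm]
    exact mul_le_mul_of_nonneg_right g1.le ht0.le

end Pool.Agent.S04971
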