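import Pool.Statements.S04980
import Pool.Agent.H.MP_6ded3d_an.C

set_option autoImplicit false
open MeasureTheory Set
open Pool Pool.MP_6ded3d_an

namespace Pool.Agent.S04980

theorem result :
    ¬ (∀ (n : ℕ), 2 ≤ n →
  ∀ (Ω : Set (EuclideanSpace ℝ (Fin n))), IsOpen Ω → IsConnected Ω → Bornology.IsBounded Ω →
  ∀ (opNorm : Matrix (Fin n) (Fin n) ℝ → ℝ),
    (∀ A : Matrix (Fin n) (Fin n) ℝ,
      opNorm A = ‖LinearMap.toContinuousLinearMap (Matrix.toEuclideanLin A)‖) →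
  ∀ (FD : (EuclideanSpace ℝ (Fin n) → EuclideanSpace ℝ (Fin n)) →
      (EuclideanSpace ℝ (Fin n) → Matrix (Fin n) (Fin n) ℝ) → Prop),
    (∀ (f : EuclideanSpace ℝ (Fin n) → EuclideanSpace ℝ (Fin n))
       (Df : EuclideanSpace ℝ (Fin n) → Matrix (Fin n) (Fin n) ℝ),
      FD f Df ↔
      ((∀ i : Fin n, LocallyIntegrableOn (fun x => WithLp.ofLp (f x) i) Ω) ∧
       (∀ i j : Fin n, LocallyIntegrableOn (fun x => Df x i j) Ω) ∧
       (∀ φ : EuclideanSpace ℝ (Fin n) → ℝ,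
          ContDiff ℝ ((⊤ : ℕ∞) : WithTop ℕ∞) φ → HasCompactSupport φ → tsupport φ ⊆ Ω →
          ∀ i j : Fin n,
            ∫ x in Ω, WithLp.ofLp (f x) i * fderiv ℝ φ x (EuclideanSpace.single j (1 : ℝ))
              = - ∫ x in Ω, Df x i j * φ x) ∧
       LocallyIntegrableOn (fun x => (Df x).det) Ω ∧
       (∀ᵐ x ∂(volume.restrict Ω), 0 ≤ (Df x).det) ∧
       ∃ K : EuclideanSpace ℝ (Fin n) → ℝ, Measurable K ∧ (∀ x ∈ Ω, 1 ≤ K x) ∧
         ∀ᵐ x ∂(volume.restrict Ω), opNorm (Df x) ^ n ≤ K x * (Df x).det)) →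
  ∀ (KI : (EuclideanSpace ℝ (Fin n) → Matrix (Fin n) (Fin n) ℝ) → EuclideanSpace ℝ (Fin n) → ℝ),
    (∀ (Df : EuclideanSpace ℝ (Fin n) → Matrix (Fin n) (Fin n) ℝ) (x : EuclideanSpace ℝ (Fin n)),
      KI Df x = if 0 < (Df x).det
        then opNorm (Df x).adjugate ^ n / (Df x).det ^ (n - 1) else 1) →
  ∀ p : ℝ, 1 < p →
  ∀ g : EuclideanSpace ℝ (Fin n) → EuclideanSpace ℝ (Fin n),
    ContinuousOn g (closure Ω) → InjOn g (closure Ω) → g '' closure Ω = closure (g '' Ω) →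
    (∃ Dg : EuclideanSpace ℝ (Fin n) → Matrix (Fin n) (Fin n) ℝ,
      FD g Dg ∧ ∫⁻ x in Ω, ENNReal.ofReal (KI Dg x ^ p) < ⊤) →
  ∀ (f : EuclideanSpace ℝ (Fin n) → EuclideanSpace ℝ (Fin n))
    (Df : EuclideanSpace ℝ (Fin n) → Matrix (Fin n) (Fin n) ℝ),
    ContinuousOn f (closure Ω) → InjOn f (closure Ω) → f '' closure Ω = closure (g '' Ω) →
    (∀ x ∈ frontier Ω, f x = g x) → FD f Df →
    (∀ (h : EuclideanSpace ℝ (Fin n) → EuclideanSpace ℝ (Fin n))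
       (Dh : EuclideanSpace ℝ (Fin n) → Matrix (Fin n) (Fin n) ℝ),
       ContinuousOn h (closure Ω) → InjOn h (closure Ω) → h '' closure Ω = closure (g '' Ω) →
       (∀ x ∈ frontier Ω, h x = g x) → FD h Dh →
       ∫⁻ x in Ω, ENNReal.ofReal (KI Df x ^ p) ≤ ∫⁻ x in Ω, ENNReal.ofReal (KI Dh x ^ p)) →
    (f '' Ω = g '' Ω ∧ ContDiffOn ℝ ((⊤ : ℕ∞) : WithTop ℕ∞) f Ω ∧
      ∃ f' : EuclideanSpace ℝ (Fin n) → EuclideanSpace ℝ (Fin n),
        MapsTo f' (g '' Ω) Ω ∧ (∀ x ∈ Ω, f' (f x) = x) ∧ (∀ y ∈ g '' Ω, f (f' y) = y) ∧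
        ContDiffOn ℝ ((⊤ : ℕ∞) : WithTop ℕ∞) f' (g '' Ω))) := by
  intro H
  open Pool.Agent.H.MP_6ded3d_an Metric in
  have r0 : (1 / 2 : ℝ) ≠ 0 := by norm_num
  open Pool.Agent.H.MP_6ded3d_an Metric in
  have bs : ball c (1 / 2) ⊆ closedBall c (1 / 2) := ball_subset_closedBall
  open Pool.Agent.H.MP_6ded3d_an Metric in
  have H' := H 2 le_rfl (ball c (1 / 2)) isOpen_ball
    ((convex_ball _ _).isConnected (nonempty_ball.2 (by norm_num))) isBounded_ball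
    (fun A => ‖cm A‖) (fun _ => rfl) _ (fun _ _ => Iff.rfl) (fun D x => KI (D x)) (fun _ _ => rfl) 2
    (by norm_num) g (closure_ball c r0 ▸ gc) (closure_ball c r0 ▸ gi) gim
  open Pool.Agent.H.MP_6ded3d_an Metric in
  refine notsm ((fun F => H' ⟨Dg, F, ?_⟩ g Dg (closure_ball c r0 ▸ gc) (closure_ball c r0 ▸ gi) gim
    (fun _ _ => rfl) F ?_) ⟨fun i => ?_, fun i j => (ion (Dc i j)).locallyIntegrableOn,
      fun φ h1 h2 h3 i j => wg i φ h1 h2 h3 j, ?_, ?_, fun _ => 4, measurable_const,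
      fun _ _ => by norm_num, ?_⟩).2.1
  · open Pool.Agent.H.MP_6ded3d_an Metric in
    refine (setLIntegral_mono' measurableSet_ball (g := fun _ => ENNReal.ofReal 16) fun x hx =>
      ENNReal.ofReal_le_ofReal ?_).trans_lt ?_
    · open Pool.Agent.H.MP_6ded3d_an Metric in
      have := KIg (bs hx)
      open Pool.Agent.H.MP_6ded3d_an Metric in
      have := tb (bs hx)
      rw [Real.rpow_two]; nlinarith
    · rw [setLIntegral_const]
      exact ENNReal.mul_lt_top ENNReal.ofReal_lt_top measure_ball_lt_top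
  · rintro h D h1 h2 h3 h4 ⟨-, a, b, d, e, K, -, -, f⟩
    simp only [Real.rpow_two]
    exact Pool.Agent.H.MP_6ded3d_an.minim h1 h2 h3 h4 a (fun i φ h1 h2 h3 j => b φ h1 h2 h3 i j) d e f
  · open Pool.Agent.H.MP_6ded3d_an Metric in
    exact (ion ((EuclideanSpace.proj (𝕜 := ℝ) i).continuous.comp_continuousOn gc)).locallyIntegrableOn
  · open Pool.Agent.H.MP_6ded3d_an Metric in
    exact (ion (qc.congr fun x hx => Ddet hx)).locallyIntegrableOn
  · open Pool.Agent.H.MP_6ded3d_an Metric in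
    refine (ae_restrict_mem measurableSet_ball).mono fun x hx => ?_
    open Pool.Agent.H.MP_6ded3d_an Metric in
    nlinarith [(KIg (bs hx)).2.2, sq_nonneg ‖cm (Dg x)‖]
  · open Pool.Agent.H.MP_6ded3d_an Metric in
    exact (ae_restrict_mem measurableSet_ball).mono fun x hx => (KIg (bs hx)).2.2

end Pool.Agent.S04980
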