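import Pool.Statements.S04981
import Pool.Agent.H.MP_6df72f_an.A

set_option autoImplicit false
open Filter Topology
open Pool Pool.MP_6df72f_an

namespace Pool.Agent.S04981

/-- For real or complex scalars, every basic sequence of functionals on a closed subspace G of a Banach space E extends termwise to a sequence of functionals on E that is itself a basic sequence in the dual of E. -/
theorem result :
    ∀ (𝕂 : Type) [RCLike 𝕂] (E : Type) [NormedAddCommGroup E] [NormedSpace 𝕂 E]
      [CompleteSpace E] (G : Submodule 𝕂 E), IsClosed (G : Set E) →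
      ∀ φ : ℕ → (G →L[𝕂] 𝕂),
        ((∀ n, φ n ≠ 0) ∧
          ∀ y ∈ (Submodule.span 𝕂 (Set.range φ)).topologicalClosure,
            ∃! a : ℕ → 𝕂,
              Tendsto (fun N => ∑ i ∈ Finset.range N, a i • φ i) atTop (𝓝 y)) →
        ∃ f : ℕ → (E →L[𝕂] 𝕂),
          (∀ n, (f n).comp G.subtypeL = φ n) ∧
          (∀ n, f n ≠ 0) ∧
          ∀ y ∈ (Submodule.span 𝕂 (Set.range f)).topologicalClosure,
            ∃! a : ℕ → 𝕂,
              Tendsto (fun N => ∑ i ∈ Finset.range N, a i • f i) atTop (𝓝 y) := by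
  intro 𝕂 _ E _ _ _ G _ φ hφ
  let Q : (E →L[𝕂] 𝕂) →L[𝕂] (G →L[𝕂] 𝕂) :=
    (ContinuousLinearMap.compL 𝕂 G E 𝕂).flip G.subtypeL
  have hQ : Function.Surjective Q := by
    intro ψ
    obtain ⟨g, hg, -⟩ := exists_extension_norm_eq G ψ
    exact ⟨g, ContinuousLinearMap.ext fun x => hg x⟩
  exact H.MP_6df72f_an.main Q hQ φ hφ.1 hφ.2

end Pool.Agent.S04981
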