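import Pool.Statements.S04988
import Pool.Agent.H.MP_6eec66_an.C

set_option autoImplicit false
open Pool Pool.MP_6eec66_an

namespace Pool.Agent.S04988

theorem result :
    ¬ (∀ (𝓕 : Set (Finset ℕ)),
    (∀ A ∈ 𝓕, ∀ B : Finset ℕ, B ⊆ A → B ∈ 𝓕) →
    (∀ i : ℕ, ({i} : Finset ℕ) ∈ 𝓕) →
    (∀ M : Set ℕ, M.Infinite → ∃ A : Finset ℕ, (↑A : Set ℕ) ⊆ M ∧ A ∉ 𝓕) →
    ∀ (E : Type) [NormedAddCommGroup E] [NormedSpace ℝ E] [CompleteSpace E] (e : ℕ → E),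
      Dense (Submodule.span ℝ (Set.range e) : Set E) →
      (∀ (n : ℕ) (a : ℕ → ℝ),
        ‖∑ i ∈ Finset.range n, a i • e i‖ =
          sSup ((fun F : Finset ℕ => ∑ i ∈ F ∩ Finset.range n, |a i|) '' 𝓕)) →
      ∀ Y : Submodule ℝ (E →L[ℝ] ℝ), IsClosed (Y : Set (E →L[ℝ] ℝ)) →
        ¬ FiniteDimensional ℝ Y →
        ∃ (f : ℕ → (E →L[ℝ] ℝ)) (c : ℝ), 0 < c ∧ (∀ i, f i ∈ Y ∧ ‖f i‖ ≤ 1) ∧
          ∀ (n : ℕ) (a : ℕ → ℝ),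
            c * ∑ i ∈ Finset.range n, |a i| ≤ ‖∑ i ∈ Finset.range n, a i • f i‖) := by
  intro h
  obtain ⟨E, _, _, _, e, f, h1, h2, h3⟩ := H.MP_6eec66_an.ex
  obtain ⟨g, c, hc, hg, h4⟩ := h H.MP_6eec66_an.fam (fun _ hA _ hB => H.MP_6eec66_an.fam_sub hA hB)
    H.MP_6eec66_an.fam_single H.MP_6eec66_an.fam_cpt E e h1 h2
    (Submodule.span ℝ (Set.range f)).topologicalClosure
    (Submodule.isClosed_topologicalClosure _) (H.MP_6eec66_an.not_fin h3)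
  exact H.MP_6eec66_an.no_l1 h3 g hc hg h4

end Pool.Agent.S04988
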