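import Pool.Statements.S05004
-- import your own Pool.Agent.* helpers here
import Pool.Agent.H.MP_826cdb_an.B

set_option autoImplicit false
open Pool Pool.MP_700ccb_an

namespace Pool.Agent.S05004

theorem result :
    ¬ (∀ (X : Type) [NormedAddCommGroup X] [NormedSpace ℝ X] [CompleteSpace X]
      (A : X →L[ℝ] (X →L[ℝ] ℝ)) (B : X → Set (X →L[ℝ] ℝ)),
      (∀ x : X, 0 ≤ A x x) →
      (∀ (x y : X) (u v : X →L[ℝ] ℝ), u ∈ B x → v ∈ B y → 0 ≤ (u - v) (x - y)) →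
      (∀ (x : X) (u : X →L[ℝ] ℝ),
          (∀ (y : X) (v : X →L[ℝ] ℝ), v ∈ B y → 0 ≤ (u - v) (x - y)) → u ∈ B x) →
      ((∀ (x y : X) (u v : X →L[ℝ] ℝ), u ∈ B x → v ∈ B y →
          0 ≤ ((A x + u) - (A y + v)) (x - y)) ∧
        (∀ (x : X) (w : X →L[ℝ] ℝ),
          (∀ (y : X) (v : X →L[ℝ] ℝ), v ∈ B y → 0 ≤ (w - (A y + v)) (x - y)) →
            ∃ u ∈ B x, w = A x + u))) := by
  obtain ⟨X, _, _, _, G, l, z, κ, hm, hx, hz, hκ, ⟨a, ha, ha0⟩, ⟨b, hb, hb1⟩, hG⟩ :=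
    Pool.Agent.H.MP_826cdb_an.ex1
  have hn : ∀ f, (z, f) ∉ G := fun f hf => by
    rcases hG _ hf with h | h <;> linarith [h.1]
  intro h
  obtain ⟨f, hf, -⟩ := (h X (κ • l.smulRight l) (fun x => {f | (x, f) ∈ G})
    (fun x => by simpa using mul_nonneg hκ (mul_self_nonneg (l x)))
    (fun x y f g hf hg => hm _ hf _ hg) (fun x f hf => hx _ fun q hq => hf _ _ hq)).2 z 0
    fun y g hg => by
      rcases hG _ hg with h1 | h1 <;> have h2 := h1.1 <;> have h3 := h1.2 <;>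
      simp only [zero_sub, neg_apply, add_apply, smul_apply, ContinuousLinearMap.smulRight_apply,
        smul_eq_mul, map_sub l, hz] at h2 h3 ⊢ <;> rw [h2] <;> linarith
  exact hn f hf

end Pool.Agent.S05004
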