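import Pool.Statements.S05009
-- import your own Pool.Agent.* helpers here
import Pool.Agent.H.MP_707689_an.B

set_option autoImplicit false
open scoped InnerProductSpace MeasureTheory
open Pool Pool.MP_707689_an

namespace Pool.Agent.S05009

theorem result :
  ∀ (H : Type) [NormedAddCommGroup H] [InnerProductSpace ℂ H] [CompleteSpace H]
    (A₁ A₂ B₁ B₂ : H →L[ℂ] H),
    IsSelfAdjoint A₁ → IsSelfAdjoint A₂ → IsSelfAdjoint B₁ → IsSelfAdjoint B₂ →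
    Commute A₁ A₂ → Commute B₁ B₂ →
    Summable (fun k : ℕ =>
      sInf {r : ℝ | ∃ F : H →L[ℂ] H,
        Module.rank ℂ (LinearMap.range (F : H →ₗ[ℂ] H)) ≤ (k : Cardinal) ∧
        r = ‖(A₁ - B₁) - F‖} / Real.sqrt ((k : ℝ) + 1)) →
    Summable (fun k : ℕ =>
      sInf {r : ℝ | ∃ F : H →L[ℂ] H,
        Module.rank ℂ (LinearMap.range (F : H →ₗ[ℂ] H)) ≤ (k : Cardinal) ∧
        r = ‖(A₂ - B₂) - F‖} / Real.sqrt ((k : ℝ) + 1)) →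
    (∀ x : H, ∃ μ : MeasureTheory.Measure (ℝ × ℝ),
      MeasureTheory.IsFiniteMeasure μ ∧ μ ≪ MeasureTheory.volume ∧
      ∀ s t : ℝ,
        ⟪x, ((∑' n : ℕ, ((n.factorial : ℂ)⁻¹) • (((Complex.I * (s : ℂ)) • A₁) ^ n)) *
              (∑' n : ℕ, ((n.factorial : ℂ)⁻¹) • (((Complex.I * (t : ℂ)) • A₂) ^ n))) x⟫_ℂ =
          ∫ p, Complex.exp (Complex.I * ((s * p.1 + t * p.2 : ℝ) : ℂ)) ∂μ) →
    ∀ x : H, ∃ y : H,
      Filter.Tendsto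
        (fun t : ℝ =>
          (∑' n : ℕ, ((n.factorial : ℂ)⁻¹) • (((-(Complex.I * (t : ℂ))) • B₁) ^ n))
            ((∑' n : ℕ, ((n.factorial : ℂ)⁻¹) • (((Complex.I * (t : ℂ)) • A₁) ^ n)) x))
        Filter.atTop (nhds y) := by
  intro H _ _ _ A₁ A₂ B₁ B₂ a1 a2 b1 b2 c c' h1 h2 hf x
  obtain ⟨u, hu, eu⟩ := Pool.Agent.H.MP_707689_an.ray0 (H := H)
  simp only [(eu A₁ A₂ _).1, (eu B₁ B₂ _).2]
  refine Pool.Agent.H.MP_707689_an.main a1 a2 b1 b2 c c' (Pool.Agent.H.MP_135e37_an.apx h1)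
    (Pool.Agent.H.MP_135e37_an.apx h2) (fun x => ?_) hu x
  obtain ⟨μ, _, m, hf⟩ := hf x
  obtain ⟨k, ki, hk⟩ := Pool.Agent.H.MP_707689_an.ac m
  refine ⟨k, ki, fun ξ => ?_⟩
  rw [← hk, ← hf, Pool.Agent.H.MP_707689_an.ex1 _ _ c]
  rfl

end Pool.Agent.S05009
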