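import Pool.Statements.S05041
import Pool.Agent.H.MP_7235ad_an.Main

set_option autoImplicit false
open Pool Pool.MP_7235ad_an

namespace Pool.Agent.S05041

theorem result :
    ∃ (m : Fin 4 → ℝ) (x : Fin 4 → ℝ → EuclideanSpace ℝ (Fin 3)),
      (∀ i, 0 < m i) ∧
      (∀ i, ContDiff ℝ 2 (x i)) ∧
      (∀ t : ℝ, ∀ i j : Fin 4, i ≠ j → x i t ≠ x j t) ∧
      (∀ t : ℝ, ∀ i : Fin 4,
        deriv (deriv (x i)) t =
          ∑ j ∈ Finset.univ.erase i, (m j / ‖x j t - x i t‖ ^ 3) • (x j t - x i t)) ∧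
      (∀ t : ℝ, ∑ i, m i • x i t = 0) ∧
      (∀ t : ℝ,
        (1 / 2 : ℝ) * ∑ i, m i * ‖deriv (x i) t‖ ^ 2
          - (1 / 2 : ℝ) * ∑ i, ∑ j ∈ Finset.univ.erase i, m i * m j / ‖x i t - x j t‖ < 0) ∧
      (∀ t : ℝ, AffineIndependent ℝ (fun i => x i t)) ∧
      (∃ R : ℝ, ∀ i : Fin 4, ∀ t : ℝ, ‖x i t‖ ≤ R) := by
  obtain ⟨m, q, v, h1, h2, h3, h4, h5, h6, h7, h8, h9⟩ := H.Wien.main
  have e : ∀ i, deriv (q i) = v i := fun i => funext fun t => (h3 i t).deriv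
  refine ⟨m, q, h1, h2, h5, fun t i => by rw [e]; exact (h4 i t).deriv, h6, fun t => ?_, h8, h9⟩
  have e2 : ∀ i, ∑ j ∈ Finset.univ.erase i, m i * m j / ‖q i t - q j t‖ =
      ∑ j, m i * m j / ‖q i t - q j t‖ := fun i => Finset.sum_erase _ (by simp)
  have := h7 t
  simp only [e, e2]
  simp only [Fin.sum_univ_four, sub_self, norm_zero, div_zero, norm_sub_rev (q 1 t) (q 0 t),
    norm_sub_rev (q 2 t) (q 0 t), norm_sub_rev (q 3 t) (q 0 t), norm_sub_rev (q 2 t) (q 1 t),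
    norm_sub_rev (q 3 t) (q 1 t), norm_sub_rev (q 3 t) (q 2 t), mul_comm (m 1) (m 0),
    mul_comm (m 2) (m 0), mul_comm (m 3) (m 0), mul_comm (m 2) (m 1), mul_comm (m 3) (m 1),
    mul_comm (m 3) (m 2)] at this ⊢
  linarith

end Pool.Agent.S05041
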