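import Pool.Statements.S05043
import Pool.Agent.H.MP_725863_an.C

set_option autoImplicit false
open Pool Pool.MP_725863_an

namespace Pool.Agent.S05043

open Pool.Agent.H.MP_725863_an Filter Topology

theorem result :
    ∀ T : NNReal → (lp (fun _ : ℕ => ℝ) 1 →L[ℝ] lp (fun _ : ℕ => ℝ) 1),
      T 0 = ContinuousLinearMap.id ℝ (lp (fun _ : ℕ => ℝ) 1) →
      (∀ s t : NNReal, T (s + t) = (T s).comp (T t)) →
      (∀ x : lp (fun _ : ℕ => ℝ) 1, Continuous fun t : NNReal => T t x) →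
      (∀ (t : NNReal) (x : lp (fun _ : ℕ => ℝ) 1), (∀ n : ℕ, 0 ≤ x n) →
          ∀ n : ℕ, 0 ≤ (T t x) n) →
      (∀ (t : NNReal) (x : lp (fun _ : ℕ => ℝ) 1), (∀ n : ℕ, 0 ≤ x n) →
          ‖T t x‖ = ‖x‖) →
      Function.Bijective (T 1) →
      Filter.Tendsto T (nhds 0)
        (nhds (ContinuousLinearMap.id ℝ (lp (fun _ : ℕ => ℝ) 1))) := by
  intro T T0 Ta Tc Tp Tn Tb
  have mk : ∀ t, Mk (T t) := fun t => Mk.of (Tp t) fun i => by
    rw [← Pv.norm (Tp t _ (δ_pv i)), Tn t _ (δ_pv i), δ_norm]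
  have pw : ∀ t (m : ℕ), T t ^ m = T (m * t) := fun t m => by
    induction m with
    | zero => rw [pow_zero, Nat.cast_zero, zero_mul, T0]; rfl
    | succ m ih => rw [pow_succ, ih, Nat.cast_succ, add_mul, one_mul, Ta]; rfl
  obtain ⟨M0, M1, M2⟩ := (T 1).exists_preimage_norm_le Tb.2
  set M := max M0 1
  have hM : 1 ≤ M := le_max_right _ _
  have lo : ∀ t ≤ 1, ∀ x, ‖x‖ ≤ M * ‖T t x‖ := fun t ht x => by
    obtain ⟨y, y1, y2⟩ := M2 (T 1 x)
    rw [Tb.1 y1] at y2
    refine y2.trans (mul_le_mul (le_max_left _ _) ?_ (norm_nonneg _) (by linarith))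
    rw [← tsub_add_cancel_of_le ht, Ta]
    exact (mk _).le _
  obtain ⟨k, hk⟩ := exists_nat_ge (2 / (1 / (4 * M)) ^ 2)
  rw [div_le_iff₀ (by positivity)] at hk
  have hk' : 2 ≤ (k + 1 : ℝ) * (1 / (4 * M)) ^ 2 := hk.trans (by gcongr; linarith)
  set c := 64 * M ^ 2 * (8 * M * (k + 2))
  have c0 : 0 ≤ c := by positivity
  have t0 : Tendsto (fun n : ℕ => ((n : NNReal))⁻¹) atTop (𝓝 0) := tendsto_inv_atTop_nhds_zero_nat
  have h1 : ∀ j, ∀ᶠ n : ℕ in atTop, n * ε (T (n : NNReal)⁻¹) j ≤ c := fun j => by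
    have hK : IsCompact ((fun t => T t (δ j)) '' Set.Icc 0 1) := isCompact_Icc.image (Tc _)
    have := hK.mem_prod_nhdsSet_of_forall (l := atTop) (s := {p : ℕ × E |
      ‖D {i | 1 / 4 < ε (T (p.1 : NNReal)⁻¹) i} p.2‖ ≤ 1 / (16 * M)}) fun y _ => by
      have e1 : Tendsto (fun n : ℕ => ‖D {i | 1 / 4 < ε (T (n : NNReal)⁻¹) i} y‖) atTop
          (𝓝 (∑' _ : ℕ, (0 : ℝ))) := by
        simp only [← (hsn _).tsum_eq]
        refine tendsto_tsum_of_dominated_convergence (hsn y).summable (fun i => ?_)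
          (Eventually.of_forall fun n i => ?_)
        · have e2 : Tendsto (fun n : ℕ => ‖T (n : NNReal)⁻¹ (δ i) - δ i‖) atTop
              (𝓝 ‖T 0 (δ i) - δ i‖) := ((((Tc (δ i)).tendsto 0).comp t0).sub_const _).norm
          rw [T0, ContinuousLinearMap.id_apply, sub_self, norm_zero] at e2
          refine tendsto_const_nhds.congr' ((e2.eventually (gt_mem_nhds
            (show (0 : ℝ) < 1 / 4 by norm_num))).mono fun n hn => ?_)
          exact (abs_eq_zero.2 (D_not (W := {i | 1 / 4 < ε (T (n : NNReal)⁻¹) i}) y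
            fun hi => ((ε_le _ i).trans_lt hn).not_gt hi)).symm
        · rw [Real.norm_eq_abs, abs_abs]
          by_cases hi : i ∈ {i | 1 / 4 < ε (T (n : NNReal)⁻¹) i}
          · rw [D_mem y hi]
          · rw [D_not y hi, abs_zero]
            exact abs_nonneg _
      rw [tsum_zero] at e1
      have d0 : 0 < 1 / (32 * M) := by positivity
      refine mem_of_superset (prod_mem_prod (e1.eventually (gt_mem_nhds d0))
        (Metric.ball_mem_nhds y d0)) fun p hp => ?_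
      have e2 : ∀ W z, ‖D W z‖ ≤ 1 * ‖z‖ := fun W => bnd (D W) 1 fun i => by
        by_cases hi : i ∈ W
        · rw [D_δ hi, δ_norm]
        · rw [D_δ' hi, norm_zero]
          exact zero_le_one
      have e3 := e2 {i | 1 / 4 < ε (T (p.1 : NNReal)⁻¹) i} (p.2 - y)
      have e4 := hp.1
      have e5 := mem_ball_iff_norm.1 hp.2
      rw [map_sub] at e3
      have e6 := norm_le_insert' (D {i | 1 / 4 < ε (T (p.1 : NNReal)⁻¹) i} p.2)
        (D {i | 1 / 4 < ε (T (p.1 : NNReal)⁻¹) i} y)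
      have e7 : 1 / (16 * M) = 2 * (1 / (32 * M)) := by
        field_simp
        ring
      simp only [Set.mem_ofPred_eq] at e4 ⊢
      linarith
    refine (Eventually.curry this).mono fun n hn => ?_
    have le1 : ∀ m ≤ n, (m : NNReal) * (n : NNReal)⁻¹ ≤ 1 := fun m hm =>
      div_le_one_of_le₀ (Nat.cast_le.2 hm) zero_le
    refine lemC (mk _) hM (fun m hm x => by rw [pw]; exact lo _ (le1 m hm) x) hk' j fun m hm => ?_
    rw [pw]
    exact ((le_abs_self _).trans (σ_le _)).trans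
      (hn.self_of_nhdsSet _ ⟨_, ⟨zero_le, le1 m hm.le⟩, rfl⟩)
  have h2 : ∀ j (t : NNReal), ‖T t (δ j) - δ j‖ ≤ 2 * c * t := fun j t => by
    have e1 : Tendsto (fun n : ℕ => (⌊t * n⌋₊ : NNReal) * (n : NNReal)⁻¹) atTop (𝓝 t) := by
      rw [← NNReal.tendsto_coe]
      have := (tendsto_nat_floor_mul_div_atTop t.2).comp tendsto_natCast_atTop_atTop
      exact this
    refine le_of_tendsto ((((Tc (δ j)).tendsto t).comp e1).sub_const (δ j)).norm
      (((h1 j).and (eventually_gt_atTop 0)).mono fun n hn => ?_)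
    have e2 : ∀ m : ℕ, ‖(T (n : NNReal)⁻¹ ^ m) (δ j) - δ j‖ ≤ m * (2 * ε (T (n : NNReal)⁻¹) j) := by
      intro m
      induction m with
      | zero => simp
      | succ m ih =>
        have := ((mk (n : NNReal)⁻¹).pow m).le (T (n : NNReal)⁻¹ (δ j) - δ j)
        rw [map_sub, ← mul_apply_eq_comp, ← pow_succ] at this
        refine (norm_sub_le_norm_sub_add_norm_sub _ ((T (n : NNReal)⁻¹ ^ m) (δ j)) _).trans ?_
        rw [Nat.cast_succ]
        linarith [(mk (n : NNReal)⁻¹).le_ε j]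
    have e3 := e2 ⌊t * n⌋₊
    rw [pw] at e3
    refine e3.trans ?_
    have e4 : (⌊t * n⌋₊ : ℝ) ≤ t * n := by exact_mod_cast Nat.floor_le (zero_le (a := t * n))
    have e5 : 0 ≤ ε (T (n : NNReal)⁻¹) j := by
      linarith [(norm_nonneg _).trans ((mk (n : NNReal)⁻¹).le_ε j)]
    nlinarith [mul_le_mul_of_nonneg_right e4 e5, mul_le_mul_of_nonneg_left hn.1 t.2]
  rw [tendsto_iff_norm_sub_tendsto_zero]
  refine squeeze_zero (fun _ => norm_nonneg _) (fun t => ContinuousLinearMap.opNorm_le_bound _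
    (show 0 ≤ 2 * c * (t : ℝ) by positivity) (bnd _ _ fun j => h2 j t)) ?_
  have : Continuous fun t : NNReal => 2 * c * (t : ℝ) := by fun_prop
  simpa using this.tendsto 0

end Pool.Agent.S05043
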