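import Pool.Statements.S05050

set_option autoImplicit false
open Pool Pool.MP_7364f6_an

namespace Pool.Agent.S05050

open Finset

/-- frequently recurrent vectors -/
def FRec {X : Type} [NormedAddCommGroup X] [NormedSpace ℝ X] (T : X →L[ℝ] X) : Set X :=
  {x : X | ∀ U ∈ nhds x, ∃ δ : ℝ, 0 < δ ∧ ∃ N : ℕ, ∀ n : ℕ, N ≤ n →
          δ * (n : ℝ) ≤ ((Set.ncard {k : ℕ | k < n ∧ (T ^ k) x ∈ U} : ℕ) : ℝ)}

section abstract
variable {X : Type} [NormedAddCommGroup X] [NormedSpace ℝ X]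

theorem near_periodic (T : X →L[ℝ] X)
    (hT : ∀ (x : X) (n : ℕ), ∑ j ∈ range n, ‖(T ^ j) x‖ ≤ 2 * n * ‖x‖)
    (x0 : X) (d : ℕ) (hd : 0 < d) (hx0 : (T ^ d) x0 = x0) (ε : ℝ) (hε : 0 < ε) (x : X)
    (hx : ‖x - x0‖ < ε / (8 * d)) (n : ℕ) :
    (1 / (2 * d) : ℝ) * n ≤ ((Set.ncard {k : ℕ | k < n ∧ (T ^ k) x ∈ Metric.ball x ε} : ℕ) : ℝ) := by
  classical
  have hdR : (1 : ℝ) ≤ d := by exact_mod_cast hd
  set z := x - x0 with hz
  have hper : ∀ m : ℕ, (T ^ (d * m)) x0 = x0 := by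
    intro m
    induction m with
    | zero => simp
    | succ m ih => rw [Nat.mul_succ, pow_add, mul_apply_eq_comp, hx0, ih]
  let A : Finset ℕ := (range ((n + d - 1) / d)).image (fun m => d * m)
  let B : Finset ℕ := (range n).filter (fun k => ε / 2 ≤ ‖(T ^ k) z‖)
  let G : Finset ℕ := (range n).filter (fun k => (T ^ k) x ∈ Metric.ball x ε)
  have hG : {k : ℕ | k < n ∧ (T ^ k) x ∈ Metric.ball x ε} = (G : Set ℕ) := by
    ext k; simp [G]
  rw [hG, Set.ncard_coe_finset]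
  have hA : A.card = (n + d - 1) / d := by
    rw [Finset.card_image_of_injective _ (mul_right_injective₀ hd.ne'), card_range]
  have hA2 : n ≤ d * A.card := by
    rw [hA]
    have h1 := Nat.div_add_mod (n + d - 1) d
    have h2 := Nat.mod_lt (n + d - 1) hd
    omega
  have hsub : A ⊆ G ∪ B := by
    intro k hk
    simp only [A, mem_image, mem_range] at hk
    obtain ⟨m, hm, rfl⟩ := hk
    have hlt : d * m < n := by
      have h1 := Nat.div_mul_le_self (n + d - 1) d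
      have h2 : (m + 1) * d ≤ (n + d - 1) / d * d := Nat.mul_le_mul_right d hm
      have h3 : (m + 1) * d = d * m + d := by ring
      omega
    by_cases hb : ε / 2 ≤ ‖(T ^ (d * m)) z‖
    · exact mem_union_right _ (mem_filter.2 ⟨mem_range.2 hlt, hb⟩)
    · refine mem_union_left _ (mem_filter.2 ⟨mem_range.2 hlt, ?_⟩)
      rw [Metric.mem_ball, dist_eq_norm]
      have h1 : (T ^ (d * m)) x - x = (T ^ (d * m)) z - z := by
        rw [hz, map_sub, hper]; abel
      rw [h1]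
      have h2 : ε / (8 * d) ≤ ε / 2 := by
        apply div_le_div_of_nonneg_left hε.le (by norm_num); linarith
      have := norm_sub_le ((T ^ (d * m)) z) z
      push Not at hb
      linarith
  have hB : (B.card : ℝ) * (ε / 2) ≤ 2 * n * (ε / (8 * d)) := by
    calc (B.card : ℝ) * (ε / 2) = ∑ _k ∈ B, ε / 2 := by simp
      _ ≤ ∑ k ∈ B, ‖(T ^ k) z‖ := sum_le_sum (fun k hk => (mem_filter.1 hk).2)
      _ ≤ ∑ k ∈ range n, ‖(T ^ k) z‖ :=
          sum_le_sum_of_subset_of_nonneg (filter_subset _ _) (fun _ _ _ => norm_nonneg _)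
      _ ≤ 2 * n * ‖z‖ := hT z n
      _ ≤ 2 * n * (ε / (8 * d)) := by gcongr
  have hB2 : (B.card : ℝ) ≤ n / (2 * d) := by
    have h1 : 2 * n * (ε / (8 * d)) = (n / (2 * d) : ℝ) * (ε / 2) := by field_simp; ring
    rw [h1] at hB
    exact le_of_mul_le_mul_right hB (by linarith)
  have h3 : (A.card : ℝ) ≤ G.card + B.card := by
    exact_mod_cast (card_le_card hsub).trans (card_union_le _ _)
  have h4 : (n : ℝ) ≤ d * A.card := by exact_mod_cast hA2
  have h5 : (n : ℝ) / d ≤ A.card := by rw [div_le_iff₀ (by linarith)]; linarith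
  have h6 : (1 / (2 * d) : ℝ) * n = n / d - n / (2 * d) := by field_simp; ring
  rw [h6]; linarith

theorem not_meagre [CompleteSpace X] (T : X →L[ℝ] X)
    (hT : ∀ (x : X) (n : ℕ), ∑ j ∈ range n, ‖(T ^ j) x‖ ≤ 2 * n * ‖x‖)
    (hP : Dense {x0 : X | ∃ d : ℕ, 0 < d ∧ (T ^ d) x0 = x0}) : ¬ IsMeagre (FRec T) := by
  intro hm
  let G : ℕ → Set X := fun m => {x | ∃ δ : ℝ, 0 < δ ∧ ∀ n : ℕ,
    δ * (n : ℝ) ≤ ((Set.ncard {k : ℕ | k < n ∧ (T ^ k) x ∈ Metric.ball x (1 / (m + 1))} : ℕ) : ℝ)}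
  have hG : ∀ m, G m ∈ residual X := by
    intro m
    refine Filter.mem_of_superset (residual_of_dense_open isOpen_interior ?_) interior_subset
    refine hP.mono ?_
    rintro x0 ⟨d, hd, hx0⟩
    rw [mem_interior_iff_mem_nhds]
    have hdR : (0 : ℝ) < d := by exact_mod_cast hd
    have hε : (0 : ℝ) < 1 / (m + 1) := by positivity
    refine Filter.mem_of_superset (Metric.ball_mem_nhds x0 (ε := (1 / (m + 1)) / (8 * d)) (by positivity)) ?_
    intro x hx
    rw [Metric.mem_ball, dist_eq_norm] at hx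
    exact ⟨1 / (2 * d), by positivity, near_periodic T hT x0 d hd hx0 _ hε x hx⟩
  have h1 : (⋂ m, G m) ∈ residual X := countable_iInter_mem.2 hG
  have h2 : FRec T ∈ residual X := by
    refine Filter.mem_of_superset h1 ?_
    intro x hx U hU
    obtain ⟨ε, hε, hball⟩ := Metric.mem_nhds_iff.1 hU
    obtain ⟨m, hm⟩ := exists_nat_one_div_lt hε
    obtain ⟨δ, hδ, h⟩ := Set.mem_iInter.1 hx m
    refine ⟨δ, hδ, 0, fun n _ => (h n).trans ?_⟩
    have : {k : ℕ | k < n ∧ (T ^ k) x ∈ Metric.ball x (1 / (m + 1))} ⊆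
        {k : ℕ | k < n ∧ (T ^ k) x ∈ U} := by
      rintro k ⟨hk, hk2⟩
      exact ⟨hk, hball (Metric.ball_subset_ball hm.le hk2)⟩
    exact_mod_cast Set.ncard_le_ncard this ((Set.finite_lt_nat n).subset (fun k hk => hk.1))
  have h3 : (∅ : Set X) ∈ residual X := by
    have := Filter.inter_mem h2 hm
    simpa using this
  have := dense_of_mem_residual h3
  simpa using this.nonempty

theorem not_frec (T : X →L[ℝ] X) (y : X) (hy : ∀ j : ℕ, 0 < j → 1 ≤ ‖(T ^ j) y - y‖) :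
    y ∉ FRec T := by
  intro h
  obtain ⟨δ, hδ, N, hN⟩ := h (Metric.ball y 1) (Metric.ball_mem_nhds y one_pos)
  obtain ⟨n, hn⟩ := exists_nat_gt (max (N : ℝ) (1 / δ))
  have h1 : N ≤ n := by exact_mod_cast ((le_max_left _ _).trans hn.le)
  have h2 := hN n h1
  have h3 : {k : ℕ | k < n ∧ (T ^ k) y ∈ Metric.ball y 1} ⊆ {0} := by
    rintro k ⟨_, hk⟩
    by_contra hne
    have := hy k (Nat.pos_of_ne_zero hne)
    rw [Metric.mem_ball, dist_eq_norm] at hk
    linarith
  have h4 := Set.ncard_le_ncard h3 (Set.finite_singleton 0)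
  rw [Set.ncard_singleton] at h4
  have h5 : ((Set.ncard {k : ℕ | k < n ∧ (T ^ k) y ∈ Metric.ball y 1} : ℕ) : ℝ) ≤ 1 := by
    exact_mod_cast h4
  have h6 : 1 / δ < n := (le_max_right _ _).trans_lt hn
  rw [div_lt_iff₀ hδ] at h6
  linarith

end abstract

/-- weights -/
noncomputable def w (t : ℕ) : ℝ := 1 / Real.sqrt (t + 1)

theorem w_pos (t : ℕ) : 0 < w t := by unfold w; positivity

theorem w_anti {a b : ℕ} (h : a ≤ b) : w b ≤ w a := by
  unfold w
  apply one_div_le_one_div_of_le (by positivity)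
  apply Real.sqrt_le_sqrt
  have : (a : ℝ) ≤ b := by exact_mod_cast h
  linarith

theorem w_le (t : ℕ) : w t ≤ 2 * (Real.sqrt (t + 1) - Real.sqrt t) := by
  unfold w
  have h1 : 0 < Real.sqrt (t + 1) := by positivity
  have h2 : 0 ≤ Real.sqrt t := Real.sqrt_nonneg _
  have h3 : Real.sqrt (t + 1) ^ 2 = t + 1 := Real.sq_sqrt (by positivity)
  have h4 : Real.sqrt t ^ 2 = t := Real.sq_sqrt (by positivity)
  rw [div_le_iff₀ h1]
  nlinarith [sq_nonneg (Real.sqrt (t + 1) - Real.sqrt t)]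

theorem sum_w (a n : ℕ) (h : n ≤ a + 1) :
    ∑ j ∈ range n, w (a - j) ≤ 2 * (Real.sqrt (a + 1) - Real.sqrt ((a + 1 - n : ℕ))) := by
  induction n with
  | zero => simp
  | succ n ih =>
    rw [sum_range_succ]
    have h1 := ih (by omega)
    have h2 := w_le (a - n)
    have h3 : a + 1 - (n + 1) = a - n := by omega
    have h4 : ((a + 1 - n : ℕ) : ℝ) = ((a - n : ℕ) : ℝ) + 1 := by
      have : a + 1 - n = (a - n) + 1 := by omega
      rw [this]; push_cast; ring
    rw [h3]; rw [h4] at h1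
    linarith

theorem sum_w' (a n : ℕ) (h : n ≤ a + 1) : ∑ j ∈ range n, w (a - j) ≤ 2 * n * w a := by
  refine (sum_w a n h).trans ?_
  unfold w
  have h1 : 0 < Real.sqrt (a + 1) := by positivity
  have h3 : Real.sqrt (a + 1) ^ 2 = a + 1 := Real.sq_sqrt (by positivity)
  have h2 : 0 ≤ Real.sqrt ((a + 1 - n : ℕ)) := Real.sqrt_nonneg _
  have h4 : Real.sqrt ((a + 1 - n : ℕ)) ^ 2 = a + 1 - n := by
    rw [Real.sq_sqrt (by positivity)]; push_cast [h]; ring
  have h5 : Real.sqrt ((a + 1 - n : ℕ)) ≤ Real.sqrt (a + 1) := by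
    apply Real.sqrt_le_sqrt; push_cast [h]; have : (0 : ℝ) ≤ n := by positivity
    linarith
  rw [mul_one_div, le_div_iff₀ h1]
  nlinarith

theorem sum_cyc (M : ℕ) (n : ℕ) : ∀ i : ZMod (M + 1),
    ∑ j ∈ range n, w (i - (j : ZMod (M + 1))).val ≤ 2 * n * w i.val := by
  induction n using Nat.strong_induction_on with
  | _ n ih =>
    intro i
    have hlt : i.val < M + 1 := ZMod.val_lt i
    have key : ∀ m, m ≤ i.val + 1 →
        ∑ j ∈ range m, w (i - (j : ZMod (M + 1))).val ≤ 2 * m * w i.val := by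
      intro m hm
      refine le_of_eq_of_le (sum_congr rfl ?_) (sum_w' i.val m hm)
      intro j hj
      have hj := mem_range.1 hj
      have h1 : (j : ZMod (M + 1)).val = j := ZMod.val_natCast_of_lt (by omega)
      rw [ZMod.val_sub (by rw [h1]; omega), h1]
    by_cases h : n ≤ i.val + 1
    · exact key n h
    · obtain ⟨m, rfl⟩ : ∃ m, n = (i.val + 1) + m := ⟨n - (i.val + 1), by omega⟩
      rw [sum_range_add]
      have h1 := key (i.val + 1) le_rfl
      have h2 := ih m (by omega) (-1)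
      have h3 : ∀ j : ℕ, i - ((i.val + 1 + j : ℕ) : ZMod (M + 1)) = -1 - (j : ZMod (M + 1)) := by
        intro j; push_cast; rw [ZMod.natCast_zmod_val]; ring
      simp only [h3]
      have h4 : w (-1 : ZMod (M + 1)).val ≤ w i.val := by
        apply w_anti; rw [ZMod.val_neg_one]; omega
      have h5 : 2 * (m : ℝ) * w (-1 : ZMod (M + 1)).val ≤ 2 * m * w i.val := by gcongr
      push_cast at h1 ⊢
      linarith

/-- index set -/
abbrev I : Type := Σ k : ℕ, ZMod ((2 ^ (k + 1) - 1) + 1)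

/-- the permutation -/
def σ : Equiv.Perm I := Equiv.sigmaCongrRight (fun _ => Equiv.subRight 1)

theorem σ_pow (j : ℕ) (k : ℕ) (i : ZMod ((2 ^ (k + 1) - 1) + 1)) :
    (σ ^ j) (⟨k, i⟩ : I) = ⟨k, i - j⟩ := by
  induction j with
  | zero => simp
  | succ j ih =>
    rw [pow_succ', Equiv.Perm.mul_apply, ih]
    simp [σ, sub_sub]

/-- the weight -/
noncomputable def v (p : I) : ℝ := w p.2.val

theorem v_pos (p : I) : 0 < v p := w_pos _

theorem sum_v (p : I) (n : ℕ) : ∑ j ∈ range n, v ((σ ^ j) p) ≤ 2 * n * v p := by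
  obtain ⟨k, i⟩ := p
  refine le_of_eq_of_le (sum_congr rfl (fun j _ => ?_)) (sum_cyc _ n i)
  rw [σ_pow]; rfl

theorem v_step (p : I) : v (σ p) ≤ 3 * v p := by
  have := sum_v p 2
  simp [sum_range_succ] at this
  linarith

/-- the space -/
abbrev X : Type := lp (fun _ : I => ℝ) 1

theorem summ (z : X) : Summable (fun p => |z p|) := by
  have := (lp.memℓp z).summable (by simp)
  simpa using this

theorem norm_eq (z : X) : ‖z‖ = ∑' p, |z p| := by
  rw [lp.norm_eq_tsum_rpow (by simp)]; simp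

theorem mem_of (f : I → ℝ) (h : Summable (fun p => |f p|)) : Memℓp f 1 :=
  memℓp_gen (by simpa using h)

theorem summ_aux (z : X) : Summable (fun p => |v (σ p) / v p * z p|) := by
  refine Summable.of_nonneg_of_le (fun _ => abs_nonneg _) (fun p => ?_) ((summ z).mul_left 3)
  rw [abs_mul, abs_of_pos (div_pos (v_pos _) (v_pos _))]
  gcongr
  rw [div_le_iff₀ (v_pos _)]; exact v_step p

/-- the operator, as a linear map -/
noncomputable def T0 : X →ₗ[ℝ] X where
  toFun z := ⟨fun p => v p / v (σ.symm p) * z (σ.symm p), mem_of _ (by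
    rw [← σ.summable_iff]
    simpa [Function.comp_def] using summ_aux z)⟩
  map_add' x y := by
    ext p
    simp [mul_add]
  map_smul' c x := by
    ext p
    simp; ring

theorem T0_apply (z : X) (p : I) : T0 z (σ p) = v (σ p) / v p * z p := by
  simp [T0]

/-- the operator -/
noncomputable def T : X →L[ℝ] X := T0.mkContinuous 3 (by
  intro z
  rw [norm_eq, norm_eq, ← σ.tsum_eq, ← tsum_mul_left]
  simp only [T0_apply]
  refine Summable.tsum_le_tsum (fun p => ?_) (summ_aux z) ((summ z).mul_left 3)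
  rw [abs_mul, abs_of_pos (div_pos (v_pos _) (v_pos _))]
  gcongr
  rw [div_le_iff₀ (v_pos _)]; exact v_step p)

theorem T_pow (j : ℕ) (z : X) (p : I) : (T ^ j) z ((σ ^ j) p) = v ((σ ^ j) p) / v p * z p := by
  induction j with
  | zero => simp [(v_pos p).ne']
  | succ j ih =>
    have e1 : (T ^ (j + 1)) z = T0 ((T ^ j) z) := by rw [pow_succ']; rfl
    have e2 : (σ ^ (j + 1)) p = σ ((σ ^ j) p) := by rw [pow_succ']; rfl
    rw [e1, e2, T0_apply, ih]
    have := (v_pos ((σ ^ j) p)).ne'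
    have := (v_pos p).ne'
    field_simp

theorem cesaro (z : X) (n : ℕ) : ∑ j ∈ range n, ‖(T ^ j) z‖ ≤ 2 * n * ‖z‖ := by
  have h1 : ∀ j : ℕ, Summable (fun p => |(T ^ j) z ((σ ^ j) p)|) := fun j =>
    ((σ ^ j).summable_iff (f := fun p => |(T ^ j) z p|)).2 (summ _)
  have h2 : ∀ j : ℕ, ‖(T ^ j) z‖ = ∑' p, |(T ^ j) z ((σ ^ j) p)| := fun j => by
    rw [norm_eq, ← (σ ^ j).tsum_eq]
  simp only [h2]
  rw [← Summable.tsum_finsetSum (fun j _ => h1 j), norm_eq, ← tsum_mul_left]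
  refine Summable.tsum_le_tsum (fun p => ?_) (summable_sum (fun j _ => h1 j))
    ((summ z).mul_left _)
  simp only [T_pow, abs_mul, abs_of_pos (div_pos (v_pos _) (v_pos _))]
  rw [← sum_mul, ← sum_div]
  gcongr
  rw [div_le_iff₀ (v_pos _)]; exact sum_v p n

theorem per_add {x y : X} (hx : ∃ d : ℕ, 0 < d ∧ (T ^ d) x = x) (hy : ∃ d : ℕ, 0 < d ∧ (T ^ d) y = y) :
    ∃ d : ℕ, 0 < d ∧ (T ^ d) (x + y) = x + y := by
  have hper : ∀ (x0 : X) (d : ℕ), (T ^ d) x0 = x0 → ∀ m : ℕ, (T ^ (d * m)) x0 = x0 := by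
    intro x0 d hx0 m
    induction m with
    | zero => simp
    | succ m ih => rw [Nat.mul_succ, pow_add, mul_apply_eq_comp, hx0, ih]
  obtain ⟨d, hd, hx⟩ := hx
  obtain ⟨e, he, hy⟩ := hy
  refine ⟨d * e, Nat.mul_pos hd he, ?_⟩
  rw [map_add, hper x d hx, mul_comm, hper y e hy]

theorem dense_per : Dense {x0 : X | ∃ d : ℕ, 0 < d ∧ (T ^ d) x0 = x0} := by
  classical
  intro z
  refine mem_closure_of_tendsto (lp.hasSum_single (by simp) z) (Filter.Eventually.of_forall ?_)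
  intro s
  induction s using Finset.induction_on with
  | empty => exact ⟨1, one_pos, by simp⟩
  | insert p s hp ih =>
    rw [sum_insert hp]
    refine per_add ?_ ih
    obtain ⟨k, i⟩ := p
    refine ⟨(2 ^ (k + 1) - 1) + 1, Nat.succ_pos _, ?_⟩
    have hfix : (σ ^ ((2 ^ (k + 1) - 1) + 1)) (⟨k, i⟩ : I) = ⟨k, i⟩ := by
      rw [σ_pow, ZMod.natCast_self, sub_zero]
    ext q
    obtain ⟨q, rfl⟩ := (σ ^ ((2 ^ (k + 1) - 1) + 1)).surjective q
    rw [T_pow]
    by_cases hq : q = ⟨k, i⟩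
    · subst hq
      rw [hfix, div_self (v_pos _).ne', one_mul]
    · rw [lp.single_apply_ne _ _ _ hq, lp.single_apply_ne, mul_zero]
      intro h
      apply hq
      rw [← hfix] at h
      exact (σ ^ ((2 ^ (k + 1) - 1) + 1)).injective h

theorem two_pow_eq (k : ℕ) : (2 ^ (k + 1) - 1) + 1 = 2 ^ (k + 1) := by
  have : 0 < 2 ^ (k + 1) := by positivity
  omega

theorem val_half (k : ℕ) : ((2 ^ k : ℕ) : ZMod ((2 ^ (k + 1) - 1) + 1)).val = 2 ^ k := by
  apply ZMod.val_natCast_of_lt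
  rw [two_pow_eq, pow_succ]
  have : 0 < 2 ^ k := by positivity
  omega

/-- the non-recurrent vector -/
noncomputable def y : X := ⟨fun p => if p.2.val = 2 ^ p.1 then v p else 0, mem_of _ (by
  let g : ℕ → I := fun k => ⟨k, ((2 ^ k : ℕ) : ZMod ((2 ^ (k + 1) - 1) + 1))⟩
  have hg : Function.Injective g := fun a b h => congrArg Sigma.fst h
  rw [← hg.summable_iff]
  · have hr : Summable (fun k : ℕ => (1 / Real.sqrt 2) ^ k) := by
      apply summable_geometric_of_lt_one (by positivity)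
      rw [div_lt_one (by positivity)]
      exact Real.lt_sqrt_of_sq_lt (by norm_num)
    refine Summable.of_nonneg_of_le (fun _ => abs_nonneg _) (fun k => ?_) hr
    simp only [Function.comp, g, val_half, if_true, v]
    rw [abs_of_pos (w_pos _), w, one_div_pow]
    apply one_div_le_one_div_of_le (by positivity)
    apply Real.le_sqrt_of_sq_le
    rw [← pow_mul, mul_comm, pow_mul, Real.sq_sqrt (by norm_num)]
    push_cast; linarith
  · rintro ⟨k, i⟩ hp
    rw [if_neg, abs_zero]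
    intro h
    apply hp
    refine ⟨k, ?_⟩
    simp only [g]
    congr 1
    simp only at h
    rw [← h, ZMod.natCast_zmod_val])⟩

theorem y_far (j : ℕ) (hj : 0 < j) : 1 ≤ ‖(T ^ j) y - y‖ := by
  obtain ⟨k, m, ⟨t, rfl⟩, rfl⟩ := Nat.exists_eq_two_pow_mul_odd hj.ne'
  let p : I := ⟨k, ((2 ^ k : ℕ) : ZMod ((2 ^ (k + 1) - 1) + 1))⟩
  have h1 : (σ ^ (2 ^ k * (2 * t + 1))) p = ⟨k, 0⟩ := by
    rw [σ_pow]
    congr 1
    have : 2 ^ k * (2 * t + 1) = ((2 ^ (k + 1) - 1) + 1) * t + 2 ^ k := by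
      rw [two_pow_eq]; ring
    rw [this, Nat.cast_add, Nat.cast_mul, ZMod.natCast_self]; ring
  have h2 := T_pow (2 ^ k * (2 * t + 1)) y p
  rw [h1] at h2
  have h3 : y p = v p := by
    simp only [y, p, val_half, if_true]
  have h4 : y ⟨k, 0⟩ = 0 := by
    have : (0 : ℕ) ≠ 2 ^ k := by positivity
    simp only [y, ZMod.val_zero, if_neg this]
  have h5 : v ⟨k, 0⟩ = 1 := by simp [v, w]
  rw [h3, h5, div_mul_cancel₀ _ (v_pos _).ne'] at h2
  have h6 := lp.norm_apply_le_norm (by simp) ((T ^ (2 ^ k * (2 * t + 1))) y - y) ⟨k, 0⟩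
  rw [lp.coeFn_sub, Pi.sub_apply, h2, h4] at h6
  simpa using h6

theorem result :
    ¬ (∀ (𝕜 : Type) [RCLike 𝕜] (X : Type) [AddCommGroup X] [Module 𝕜 X] [Module ℝ X]
      [IsScalarTower ℝ 𝕜 X] [UniformSpace X] [IsUniformAddGroup X] [CompleteSpace X]
      [TopologicalSpace.MetrizableSpace X] [ContinuousSMul 𝕜 X] [LocallyConvexSpace ℝ X]
      (T : X →L[𝕜] X),
      {x : X | ∀ U ∈ nhds x, ∃ δ : ℝ, 0 < δ ∧ ∃ N : ℕ, ∀ n : ℕ, N ≤ n →
          δ * (n : ℝ) ≤ ((Set.ncard {k : ℕ | k < n ∧ (T ^ k) x ∈ U} : ℕ) : ℝ)} = Set.univ ∨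
      IsMeagre {x : X | ∀ U ∈ nhds x, ∃ δ : ℝ, 0 < δ ∧ ∃ N : ℕ, ∀ n : ℕ, N ≤ n →
          δ * (n : ℝ) ≤ ((Set.ncard {k : ℕ | k < n ∧ (T ^ k) x ∈ U} : ℕ) : ℝ)}) := by
  intro h
  rcases h ℝ X T with h | h
  · exact not_frec T y y_far (by
      have : FRec T = Set.univ := h
      rw [this]; trivial)
  · exact not_meagre T cesaro dense_per h

end Pool.Agent.S05050
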