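import Pool.Statements.S05067
import Pool.Agent.H.MP_74fee8_an.E

set_option autoImplicit false
open Pool Pool.MP_74fee8_an

namespace Pool.Agent.S05067

theorem result :
    ∀ (A B : Type) [NonUnitalRing A] [Module ℂ A] [IsScalarTower ℂ A A] [SMulCommClass ℂ A A]
      [UniformSpace A] [IsUniformAddGroup A] [IsTopologicalRing A] [ContinuousSMul ℂ A]
      [CompleteSpace A] [T2Space A]
      [NonUnitalRing B] [Module ℂ B] [IsScalarTower ℂ B B] [SMulCommClass ℂ B B]
      [UniformSpace B] [IsUniformAddGroup B] [IsTopologicalRing B] [ContinuousSMul ℂ B]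
      [CompleteSpace B] [T2Space B],
      (∃ p : ℕ → Seminorm ℂ A, WithSeminorms p ∧ ∀ n : ℕ, ∀ x y : A, p n (x * y) ≤ p n x * p n y) →
      (∃ q : ℕ → Seminorm ℂ B, WithSeminorms q ∧ ∀ n : ℕ, ∀ x y : B, q n (x * y) ≤ q n x * q n y) →
      (∀ a : A, (∀ b : A, ∃ c : A, a * b + c = (a * b) * c ∧ a * b + c = c * (a * b)) → a = 0) →
      ∀ φ : A ≃+* B, (∀ (z : ℂ) (x : A), φ (z • x) = z • φ x) → Continuous φ := by
  intro A B _ _ _ _ _ _ _ _ _ _ _ _ _ _ _ _ _ _ _ _ ⟨q, wq, hq⟩ ⟨p, wp, hp⟩ ss φ hφ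
  let T : A →ₗ[ℂ] B := ⟨⟨φ, map_add φ⟩, hφ⟩
  have fp := H.MP_74fee8_an.Fr.of wp hp
  have fp' : H.MP_74fee8_an.Fr fun m => (p m).comp T :=
    ⟨fun x hx => φ.injective ((fp.sep _ hx).trans (map_zero φ).symm), fun u hu => by
      obtain ⟨f, hf⟩ := fp.cpl (fun n => T (u n))
        (by simpa only [← map_sub, Seminorm.comp_apply] using hu)
      obtain ⟨g, rfl⟩ : ∃ g, T g = f := φ.surjective f
      exact ⟨g, by simpa only [← map_sub, Seminorm.comp_apply] using hf⟩,
      fun m x y => (congrArg (p m) (map_mul φ x y)).trans_le (hp m _ _)⟩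
  refine wq.continuous_of_isBounded wp T (.of_real fun m => ?_)
  obtain ⟨k, C, h⟩ := H.MP_74fee8_an.bnd fp'.fa (H.MP_74fee8_an.Fr.of wq hq).fa
    (H.MP_74fee8_an.ssU ss) m
  refine ⟨Finset.range (k + 1), C, fun x => ?_⟩
  have := h (x : Unitization ℂ A)
  simp only [H.MP_74fee8_an.U_apply, Unitization.fst_inr, Unitization.snd_inr, norm_zero,
    zero_add] at this
  exact (Seminorm.le_finset_sup_apply (p := fun m => (p m).comp T)
    (Finset.self_mem_range_succ m)).trans this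

end Pool.Agent.S05067
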