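import Pool.Statements.S05072
import Pool.Agent.H.MP_75b936_an.A

set_option autoImplicit false
open Pool Pool.MP_75b936_an

namespace Pool.Agent.S05072

/-- The negation of the preceding statement: For any continuous f_1..f_n not all zero there are a rational combination R of them, defined on an open interval I, such that no antiderivative of R on I equals on I a rational combination of superpositions of the f_i. -/
theorem result :
    ¬ (∀ n : ℕ, ∀ f : Fin n → ℝ → ℝ, (∀ i, Continuous (f i)) → (∃ i x, f i x ≠ 0) →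
      ∃ (R : ℝ → ℝ) (I : Set ℝ), IsOpen I ∧ I.OrdConnected ∧ I.Nonempty ∧
        (∃ P Q : MvPolynomial (Fin n) ℤ, MvPolynomial.constantCoeff P = 0 ∧
          ((∀ x ∈ I, R x = MvPolynomial.aeval (fun i => f i x) P) ∨
           (MvPolynomial.constantCoeff Q = 0 ∧
             ∀ x ∈ I, MvPolynomial.aeval (fun i => f i x) Q ≠ 0 ∧
               R x = MvPolynomial.aeval (fun i => f i x) P /
                 MvPolynomial.aeval (fun i => f i x) Q))) ∧
        ¬ ∃ F : ℝ → ℝ, (∀ x ∈ I, HasDerivAt F (R x) x) ∧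
          ∃ P Q : MvPolynomial (Fin n × List (Fin n)) ℤ, MvPolynomial.constantCoeff P = 0 ∧
            ((∀ x ∈ I, F x =
                MvPolynomial.aeval
                  (fun v : Fin n × List (Fin n) => f v.1 (v.2.foldr (fun j y => f j y) x)) P) ∨
             (MvPolynomial.constantCoeff Q = 0 ∧
               ∀ x ∈ I,
                 MvPolynomial.aeval
                   (fun v : Fin n × List (Fin n) => f v.1 (v.2.foldr (fun j y => f j y) x)) Q ≠ 0 ∧
                 F x =
                   MvPolynomial.aeval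
                     (fun v : Fin n × List (Fin n) => f v.1 (v.2.foldr (fun j y => f j y) x)) P /
                   MvPolynomial.aeval
                     (fun v : Fin n × List (Fin n) => f v.1 (v.2.foldr (fun j y => f j y) x)) Q))) := by
  intro h
  obtain ⟨g, hg, hg'⟩ := H.MP_75b936_an.main
  obtain ⟨R, I, h1, h2, h3, ⟨P, Q, -, h4⟩, h5⟩ := h 4 (H.MP_75b936_an.fam g)
    (H.MP_75b936_an.fam_cont hg) ⟨1, 0, by
      show (0 : ℝ) + 1 / 2 ≠ 0
      norm_num⟩
  apply h5
  rcases h4 with h4 | ⟨-, h4⟩
  · obtain ⟨F, h6, j, k, h7⟩ := hg' P 1 I h1 h2 h3 fun x _ => by simp [H.MP_75b936_an.ev]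
    refine ⟨F, fun x hx => ?_, _, _, H.MP_75b936_an.dec_const j,
      Or.inr ⟨H.MP_75b936_an.dec_const k, h7⟩⟩
    rw [h4 x hx]
    simpa [H.MP_75b936_an.ev] using h6 x hx
  · obtain ⟨F, h6, j, k, h7⟩ := hg' P Q I h1 h2 h3 fun x hx => (h4 x hx).1
    refine ⟨F, fun x hx => ?_, _, _, H.MP_75b936_an.dec_const j,
      Or.inr ⟨H.MP_75b936_an.dec_const k, h7⟩⟩
    rw [(h4 x hx).2]
    exact h6 x hx

end Pool.Agent.S05072
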