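import Pool.Statements.S05077
import Pool.Agent.H.MP_760d08_an.Main

set_option autoImplicit false
open Pool Pool.MP_760d08_an

namespace Pool.Agent.S05077

theorem result :
    ∀ (X : Type) [NormedAddCommGroup X] [NormedSpace ℝ X] [CompleteSpace X]
      [UniformConvexSpace X] (U : X → X),
      Set.MapsTo U (Metric.closedBall (0 : X) 1) (Metric.closedBall (0 : X) 1) →
      (∀ x ∈ Metric.closedBall (0 : X) 1, ∀ y ∈ Metric.closedBall (0 : X) 1,
          ‖U x - U y‖ ≤ ‖x - y‖) →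
      ∀ x ∈ Metric.closedBall (0 : X) 1, ∃ p ∈ Metric.closedBall (0 : X) 1, U p = p ∧
        ∀ f : X →L[ℝ] ℝ,
          Filter.Tendsto
            (fun n : ℕ => f ((((n : ℝ) + 1)⁻¹) • ∑ j ∈ Finset.range (n + 1), U^[j] x))
            Filter.atTop (nhds (f p)) := by
  intro X _ _ _ _ U hm h x hx
  obtain ⟨p, hp, hf, ht⟩ := Pool.Agent.H.MP_760d08_an.baillon hm h hx
  refine ⟨p, hp, hf, fun f => ?_⟩
  simpa [Pool.Agent.H.MP_760d08_an.yy] using ht f

end Pool.Agent.S05077
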