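import Pool.Statements.S05086
-- import your own Pool.Agent.* helpers here

set_option autoImplicit false
open Pool Pool.MP_7697ea_an

namespace Pool.Agent.S05086

def ff : ℕ → ℝ
  | 0 => 64000000
  | 1 => 211200000
  | 2 => 252000000
  | 3 => 128960000
  | 4 => 26886000
  | 5 => 2898120
  | 6 => 178361
  | 7 => 6363
  | 8 => 123
  | 9 => 1
  | _ => 0

lemma lst : List.Nat.antidiagonalTuple 3 9 = [![0, 0, 9], ![0, 1, 8], ![0, 2, 7], ![0, 3, 6], ![0, 4, 5], ![0, 5, 4], ![0, 6, 3], ![0, 7, 2], ![0, 8, 1], ![0, 9, 0], ![1, 0, 8], ![1, 1, 7], ![1, 2, 6], ![1, 3, 5], ![1, 4, 4], ![1, 5, 3], ![1, 6, 2], ![1, 7, 1], ![1, 8, 0], ![2, 0, 7], ![2, 1, 6], ![2, 2, 5], ![2, 3, 4], ![2, 4, 3], ![2, 5, 2], ![2, 6, 1], ![2, 7, 0], ![3, 0, 6], ![3, 1, 5], ![3, 2, 4], ![3, 3, 3], ![3, 4, 2], ![3, 5, 1], ![3, 6, 0], ![4, 0, 5], ![4, 1, 4], ![4, 2, 3], ![4, 3, 2], ![4, 4, 1], ![4, 5, 0], ![5, 0, 4], ![5, 1, 3], ![5, 2, 2], ![5, 3, 1], ![5, 4, 0], ![6, 0, 3], ![6,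 1, 2], ![6, 2, 1], ![6, 3, 0], ![7, 0, 2], ![7, 1, 1], ![7, 2, 0], ![8, 0, 1], ![8, 1, 0], ![9, 0, 0]] := by
  decide +kernel

lemma key (z : ℂ) : ∑ k ∈ Finset.Nat.antidiagonalTuple 3 9,
            (Nat.multinomial Finset.univ k : ℂ) * (∏ i, (ff (k i) : ℂ)) *
              Matrix.det (Matrix.of (fun i j : Fin 3 =>
                (ascPochhammer ℂ (k i)).eval (z + ((j : ℕ) : ℂ) - ((i : ℕ) : ℂ)))) =
    619315200000000000 * (z + 2) *
      (180891835219 * z ^ 2 + 560172385063 * z + 436273805292) := by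
  have h : ∀ F : (Fin 3 → ℕ) → ℂ, ∑ k ∈ Finset.Nat.antidiagonalTuple 3 9, F k =
      ((List.Nat.antidiagonalTuple 3 9).map F).sum := fun F => rfl
  rw [h, lst]
  simp only [List.map_cons, List.map_nil, List.sum_cons, List.sum_nil, Matrix.det_fin_three,
    Matrix.of_apply, Fin.prod_univ_three, Nat.multinomial_univ_three, Matrix.cons_val_zero,
    Matrix.cons_val_one, Matrix.cons_val_two, Matrix.head_cons, Matrix.tail_cons,
    Matrix.cons_val, ascPochhammer_succ_eval, ascPochhammer_zero, Polynomial.eval_one, ff,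
    Fin.val_zero, Fin.val_one, Fin.val_two]
  norm_num [Nat.factorial]
  ring

theorem result :
    ¬ (∀ (n : ℕ) (f : ℕ → ℝ), f n ≠ 0 →
      (∀ z : ℂ, ∑ k ∈ Finset.range (n + 1), (f k : ℂ) * z ^ k = 0 → z.im = 0 ∧ z.re < 0) →
      ∀ r : ℕ, 2 ≤ r →
        (∃ w : ℂ, ∑ k ∈ Finset.Nat.antidiagonalTuple r n,
            (Nat.multinomial Finset.univ k : ℂ) * (∏ i, (f (k i) : ℂ)) *
              Matrix.det (Matrix.of (fun i j : Fin r =>
                (ascPochhammer ℂ (k i)).eval (w + ((j : ℕ) : ℂ) - ((i : ℕ) : ℂ)))) ≠ 0) →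
        ∀ z : ℂ, ∑ k ∈ Finset.Nat.antidiagonalTuple r n,
            (Nat.multinomial Finset.univ k : ℂ) * (∏ i, (f (k i) : ℂ)) *
              Matrix.det (Matrix.of (fun i j : Fin r =>
                (ascPochhammer ℂ (k i)).eval (z + ((j : ℕ) : ℂ) - ((i : ℕ) : ℂ)))) = 0 →
          z.im = 0 ∧ z.re < 0) := by
  intro h
  have h1 := h 9 ff (by simp [ff]) ?_ 3 (by norm_num) ⟨0, by rw [key]; norm_num⟩
    ((-560172385063 + Complex.I * (Real.sqrt (4 * 180891835219 * 436273805292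
      - 560172385063 ^ 2) : ℝ)) / (2 * 180891835219)) ?_
  · have h2 := h1.1
    have hs : 0 < Real.sqrt (4 * 180891835219 * 436273805292 - 560172385063 ^ 2) :=
      Real.sqrt_pos.mpr (by norm_num)
    generalize Real.sqrt (4 * 180891835219 * 436273805292 - 560172385063 ^ 2) = s at h2 hs
    have h3 : ((-560172385063 + Complex.I * (s : ℝ)) / (2 * 180891835219) : ℂ)
        = ((-560172385063 / (2 * 180891835219) : ℝ) : ℂ)
          + ((s / (2 * 180891835219) : ℝ) : ℂ) * Complex.I := by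
      push_cast; ring
    rw [h3] at h2
    simp only [Complex.add_im, Complex.ofReal_im, Complex.mul_im, Complex.ofReal_re,
      Complex.I_im, Complex.I_re] at h2
    have : 0 < s / (2 * 180891835219) := by positivity
    linarith
  · intro z hz
    have e : ∑ k ∈ Finset.range (9 + 1), (ff k : ℂ) * z ^ k = (z + 1) ^ 3 * (z + 20) ^ 6 := by
      simp [Finset.sum_range_succ, ff]; ring
    rw [e] at hz
    rcases mul_eq_zero.mp hz with h1 | h1
    · have : z = -1 := by
        have := (pow_eq_zero_iff (by norm_num : 3 ≠ 0)).mp h1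
        linear_combination this
      rw [this]; simp
    · have : z = -20 := by
        have := (pow_eq_zero_iff (by norm_num : 6 ≠ 0)).mp h1
        linear_combination this
      rw [this]; simp
  · rw [key]
    have hs : (Real.sqrt (4 * 180891835219 * 436273805292 - 560172385063 ^ 2)) ^ 2
        = 4 * 180891835219 * 436273805292 - 560172385063 ^ 2 := Real.sq_sqrt (by norm_num)
    generalize Real.sqrt (4 * 180891835219 * 436273805292 - 560172385063 ^ 2) = s at hs
    have hs' : (s : ℂ) ^ 2 = 4 * 180891835219 * 436273805292 - 560172385063 ^ 2 := by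
      exact_mod_cast hs
    apply mul_eq_zero_of_right
    field_simp
    linear_combination (-1 : ℂ) * hs' + (s : ℂ) ^ 2 * Complex.I_sq

end Pool.Agent.S05086
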