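import Pool.Statements.S05087
import Pool.Agent.H.MP_76c0db_an.F

set_option autoImplicit false
open Pool Pool.MP_76c0db_an

namespace Pool.Agent.S05087

/-- For every C^2 orientation-preserving circle diffeomorphism with irrational rotation number τ, and every ε>0, some C^2 conjugate H∘F∘H⁻¹ is within ε of the rotation x↦x+τ in C^2 norm. -/
theorem result :
    ∀ F : CircleDeg1Lift, ContDiff ℝ 2 (F : ℝ → ℝ) →
      (∀ x : ℝ, 0 < deriv (F : ℝ → ℝ) x) →
      Irrational (CircleDeg1Lift.translationNumber F) →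
      ∀ ε : ℝ, 0 < ε →
        ∃ H : CircleDeg1Lift, ∃ Hinv : ℝ → ℝ,
          ContDiff ℝ 2 (H : ℝ → ℝ) ∧
          (∀ x : ℝ, 0 < deriv (H : ℝ → ℝ) x) ∧
          Function.LeftInverse Hinv H ∧
          Function.RightInverse Hinv H ∧
          ∀ x : ℝ,
            |H (F (Hinv x)) - x - CircleDeg1Lift.translationNumber F| < ε ∧
            |deriv (fun y : ℝ => H (F (Hinv y))) x - 1| < ε ∧
            |deriv (deriv (fun y : ℝ => H (F (Hinv y)))) x| < ε := by
  exact Pool.Agent.H.MP_76c0db_an.final

end Pool.Agent.S05087
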