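import Pool.Statements.S05104
import Pool.Agent.H.MP_791656_an.B

set_option autoImplicit false
open Pool Pool.MP_791656_an

namespace Pool.Agent.S05104

/-- The negation of the preceding statement: For every bounded convex nonempty open plane set with area A, polar moment of inertia I about its centroid, and first Dirichlet eigenvalue λ (Rayleigh infimum), 9π²/2 < λA³/I ≤ 12π². -/
theorem result :
    ¬ (∀ (Ω : Set (EuclideanSpace ℝ (Fin 2))), IsOpen Ω → Convex ℝ Ω →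
      Bornology.IsBounded Ω → Ω.Nonempty →
      ∀ (A I lam : ℝ) (c : EuclideanSpace ℝ (Fin 2)),
        A = (MeasureTheory.volume Ω).toReal →
        c = A⁻¹ • ∫ x in Ω, x →
        I = ∫ x in Ω, ‖x - c‖ ^ 2 →
        lam = sInf {r : ℝ | ∃ u : EuclideanSpace ℝ (Fin 2) → ℝ,
          ContDiff ℝ 1 u ∧ HasCompactSupport u ∧ tsupport u ⊆ Ω ∧ u ≠ 0 ∧
          r = (∫ x, ‖fderiv ℝ u x‖ ^ 2) / (∫ x, u x ^ 2)} →
        9 / 2 * Real.pi ^ 2 < lam * A ^ 3 / I ∧ lam * A ^ 3 / I ≤ 12 * Real.pi ^ 2) := by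
  intro h
  obtain ⟨h1, h2⟩ := h H.MP_791656_an.Ω H.MP_791656_an.op H.MP_791656_an.cvx H.MP_791656_an.bdd
    ⟨!₂[1, 0], H.MP_791656_an.mem.2 (by norm_num)⟩ _ _ _ _ rfl rfl rfl rfl
  have h3 := H.MP_791656_an.s3
  have hπ := Real.pi_pos
  have hI := H.MP_791656_an.steiner H.MP_791656_an.bdd
    (by rw [H.MP_791656_an.area]; positivity) rfl !₂[4, 0]
  have e : ∀ x : EuclideanSpace ℝ (Fin 2), ‖x - !₂[4, 0]‖ ^ 2 = (x 0 - 4) ^ 2 + x 1 ^ 2 := by
    intro x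
    rw [EuclideanSpace.norm_sq_eq, Fin.sum_univ_two]
    simp
  simp only [e, H.MP_791656_an.inert] at hI
  generalize hS : {r : ℝ | ∃ u : EuclideanSpace ℝ (Fin 2) → ℝ, ContDiff ℝ 1 u ∧
    HasCompactSupport u ∧ tsupport u ⊆ H.MP_791656_an.Ω ∧ u ≠ 0 ∧
    r = (∫ x, ‖fderiv ℝ u x‖ ^ 2) / (∫ x, u x ^ 2)} = S at h1 h2
  have hl : Real.pi ^ 2 / 36 ≤ sInf S := by
    refine le_csInf (Set.nonempty_iff_ne_empty.2 fun e => ?_) ?_
    · rw [e, Real.sInf_empty, zero_mul, zero_div] at h1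
      nlinarith
    · rw [← hS]
      rintro _ ⟨u, hu, hc, ht, h0, rfl⟩
      refine (le_div_iff₀ ?_).2 (H.MP_791656_an.eig hu hc ht)
      obtain ⟨x, hx⟩ := Function.ne_iff.1 h0
      exact (hu.continuous.fun_pow 2).integral_pos_of_hasCompactSupport_nonneg_nonzero
        (hc.mono fun x hx h => hx (by simp [h])) (fun x => sq_nonneg _) (pow_ne_zero 2 hx)
  have h0 : 0 ≤ ∫ x in H.MP_791656_an.Ω, ‖x - (MeasureTheory.volume H.MP_791656_an.Ω).toReal⁻¹ •
    ∫ x in H.MP_791656_an.Ω, x‖ ^ 2 := MeasureTheory.integral_nonneg fun _ => sq_nonneg _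
  generalize ∫ x in H.MP_791656_an.Ω, ‖x - (MeasureTheory.volume H.MP_791656_an.Ω).toReal⁻¹ •
    ∫ x in H.MP_791656_an.Ω, x‖ ^ 2 = J at h1 h2 hI h0
  have hJ : 0 < J := h0.lt_of_ne fun e => by
    rw [← e, div_zero] at h1
    nlinarith
  rw [H.MP_791656_an.area, div_le_iff₀ hJ, div_pow, show √3 ^ 3 = 3 * √3 by
    rw [pow_succ, Real.sq_sqrt (by norm_num)], ← div_div, ← mul_div_assoc,
    div_le_iff₀ (by positivity)] at h2
  rw [le_div_iff₀ (by positivity)] at hI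
  nlinarith [mul_le_mul_of_nonneg_left hI (sq_nonneg Real.pi)]

end Pool.Agent.S05104
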