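import Pool.Statements.S05106
import Pool.Agent.H.MP_7987d1_an.A

set_option autoImplicit false
open Pool Pool.MP_7987d1_an

namespace Pool.Agent.S05106

theorem result :
    ¬ (∀ m : ℕ, m + 1 ≤ 8 → ∀ u : EuclideanSpace ℝ (Fin (m + 1)) × ℝ → ℝ,
    ContDiffOn ℝ 2 u {p | p.2 < 0} →
    (∀ x : EuclideanSpace ℝ (Fin (m + 1)), ∀ t : ℝ, t < 0 →
      |u (x, t)| ≤ 1 ∧
      (∑ i : Fin (m + 1), iteratedFDeriv ℝ 2 (fun y => u (y, t)) x
          (fun _ => EuclideanSpace.single i (1 : ℝ)))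
        - deriv (fun s => u (x, s)) t = u (x, t) ^ 3 - u (x, t) ∧
      0 < fderiv ℝ (fun y => u (y, t)) x (EuclideanSpace.single (Fin.last m) (1 : ℝ)) ∧
      0 ≤ deriv (fun s => u (x, s)) t) →
    ∃ ν : EuclideanSpace ℝ (Fin (m + 1)), ‖ν‖ = 1 ∧
      ∃ g : ℝ → ℝ, ∀ x : EuclideanSpace ℝ (Fin (m + 1)), ∀ t : ℝ, t < 0 →
        u (x, t) = g (inner ℝ ν x)) := by
  intro H
  open Pool.Agent.H.MP_7987d1_an in
  obtain ⟨ν, -, g, hg⟩ := H 2 (by norm_num) u u_smooth.contDiffOn fun x t _ => by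
    have h0 : 0 < u (x, t) := sg_pos _
    have h1 : 0 < 1 - u (x, t) := sub_pos.2 (sg_lt _)
    rw [u_lap, (u_dt x t).deriv, (u_dx x t).fderiv]
    refine ⟨abs_le.2 ⟨by linarith, by linarith⟩, by ring, ?_, by positivity⟩
    simp only [P, smul_apply, PiLp.proj_apply, smul_eq_mul, PiLp.single_eq_same]
    positivity
  have h := (hg 0 (-1) (by norm_num)).trans (hg 0 (-2) (by norm_num)).symm
  have h2 := Pool.Agent.H.MP_7987d1_an.sg_inj h
  norm_num at h2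

end Pool.Agent.S05106
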