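import Pool.Statements.S05124
import Pool.Agent.H.MP_7b2682_an.C

set_option autoImplicit false
open Topology
open Pool Pool.MP_7b2682_an

namespace Pool.Agent.S05124

theorem result :
    ¬ (∀ (𝕜 : Type) [RCLike 𝕜] (X : Type) [NormedAddCommGroup X] [NormedSpace 𝕜 X]
      [CompleteSpace X] (T : X →L[𝕜] X),
      Dense {x : X | ∀ U ∈ 𝓝 x, ∃ δ : ℝ, 0 < δ ∧ ∃ N₀ : ℕ, ∀ N : ℕ, N₀ ≤ N →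
          δ * (N : ℝ) ≤ (({n : ℕ | 1 ≤ n ∧ n ≤ N ∧ (T ^ n) x ∈ U}.ncard : ℕ) : ℝ)} →
      ∃ M : Submodule 𝕜 X, Dense (M : Set X) ∧
        (M : Set X) ⊆ {x : X | ∀ U ∈ 𝓝 x, ∃ δ : ℝ, 0 < δ ∧ ∃ N₀ : ℕ, ∀ N : ℕ, N₀ ≤ N →
          δ * (N : ℝ) ≤ (({n : ℕ | 1 ≤ n ∧ n ≤ N ∧ (T ^ n) x ∈ U}.ncard : ℕ) : ℝ)}) := by
  intro h
  obtain ⟨M, h1, h2⟩ := h ℂ _ (H.MP_7b2682_an.T ℂ) H.MP_7b2682_an.fr_dense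
  obtain ⟨v, hv, e⟩ := H.MP_7b2682_an.sub_hit M h1
  obtain ⟨δ, hδ, N₀, hN⟩ := h2 hv _ (Metric.ball_mem_nhds v (show (0 : ℝ) < 1 / 4 by norm_num))
  obtain ⟨M₀, hM⟩ := H.MP_7b2682_an.block e hδ
  exact (hM (M₀ + N₀ + 1) (by omega)).not_ge (hN _ (by omega))

end Pool.Agent.S05124
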