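import Pool.Statements.S05135
import Pool.Agent.H.MP_7c460f_an.E

set_option autoImplicit false
open MeasureTheory
open Pool Pool.MP_7c460f_an

namespace Pool.Agent.S05135

theorem result :
  ∀ (D : Set (Fin 3 → ℝ)), IsOpen D → IsConnected D → Bornology.IsBounded D →
  ∀ (f : (Fin 3 → ℝ) → ℂ), MemLp f 2 (volume.restrict D) →
  ¬ (f =ᵐ[volume.restrict D] 0) →
  ∀ (F : EuclideanSpace ℂ (Fin 3) → ℂ),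
  (∀ z, F z = ∫ x in D, f x * Complex.exp (Complex.I * ∑ i, WithLp.ofLp z i * (x i : ℂ))) →
  ∀ (L₁ L₂ : MvPolynomial (Fin 3) ℂ), 1 ≤ L₁.totalDegree → 1 ≤ L₂.totalDegree →
  ∀ (V₁ V₂ : Set (EuclideanSpace ℂ (Fin 3))),
  V₁ = {z | MvPolynomial.eval (WithLp.ofLp z) L₁ = 0} →
  V₂ = {z | MvPolynomial.eval (WithLp.ofLp z) L₂ = 0} →
  ∀ (ρ₁ ρ₂ : EuclideanSpace ℂ (Fin 3) → ℝ),
  ContDiff ℝ ((⊤ : ℕ∞) : WithTop ℕ∞) ρ₁ → ContDiff ℝ ((⊤ : ℕ∞) : WithTop ℕ∞) ρ₂ →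
  (∀ z, 0 < ρ₁ z) → (∀ z, 0 < ρ₂ z) →
  (∀ N : ℕ, ∃ C : ℝ, ∀ z, ρ₁ z * (1 + ‖z‖) ^ N ≤ C) →
  (∀ N : ℕ, ∃ C : ℝ, ∀ z, ρ₂ z * (1 + ‖z‖) ^ N ≤ C) →
  ∀ (m₁ m₂ : Measure (EuclideanSpace ℂ (Fin 3))),
  m₁ = ((Measure.hausdorffMeasure (4 : ℝ)).restrict V₁).withDensity (fun z => ENNReal.ofReal (ρ₁ z)) →
  m₂ = ((Measure.hausdorffMeasure (4 : ℝ)).restrict V₂).withDensity (fun z => ENNReal.ofReal (ρ₂ z)) →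
  (∀ x : Fin 3 → ℝ, MemLp (fun z : EuclideanSpace ℂ (Fin 3) =>
      Complex.exp (Complex.I * ∑ i, WithLp.ofLp z i * (x i : ℂ))) 2 m₁) →
  (∀ x : Fin 3 → ℝ, MemLp (fun z : EuclideanSpace ℂ (Fin 3) =>
      Complex.exp (Complex.I * ∑ i, WithLp.ofLp z i * (x i : ℂ))) 2 m₂) →
  (∀ h : EuclideanSpace ℂ (Fin 3) → ℂ, MemLp h 2 m₁ →
      (∀ᵐ u₂ ∂m₂, Integrable (fun u₁ => h u₁ * F (u₁ + u₂)) m₁) ∧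
      MemLp (fun u₂ => ∫ u₁, h u₁ * F (u₁ + u₂) ∂m₁) 2 m₂) →
  (∃ p₁ ∈ V₁, ∃ p₂ ∈ V₂, ∃ Q₁ Q₂ : MvPolynomial (Fin 3) ℂ,
      ∃ U₁ U₂ : Set (EuclideanSpace ℂ (Fin 3)),
      IsOpen U₁ ∧ IsOpen U₂ ∧ p₁ ∈ U₁ ∧ p₂ ∈ U₂ ∧
      V₁ ∩ U₁ = {z | MvPolynomial.eval (WithLp.ofLp z) Q₁ = 0} ∩ U₁ ∧
      V₂ ∩ U₂ = {z | MvPolynomial.eval (WithLp.ofLp z) Q₂ = 0} ∩ U₂ ∧
      LinearIndependent ℂ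
        ![fun i : Fin 3 => MvPolynomial.eval (WithLp.ofLp p₁) (MvPolynomial.pderiv i Q₁),
          fun i : Fin 3 => MvPolynomial.eval (WithLp.ofLp p₂) (MvPolynomial.pderiv i Q₂)]) →
  ∀ (n : ℕ) (g : Fin n → EuclideanSpace ℂ (Fin 3) → ℂ),
  ∃ h : EuclideanSpace ℂ (Fin 3) → ℂ, MemLp h 2 m₁ ∧
    ∀ c : Fin n → ℂ,
      ¬ ((fun u₂ => ∫ u₁, h u₁ * F (u₁ + u₂) ∂m₁) =ᵐ[m₂] fun u₂ => ∑ k, c k * g k u₂) := by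
  exact H.MP_7c460f_an.final

end Pool.Agent.S05135
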