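import Pool.Statements.S05140
import Pool.Agent.H.MP_7c4fde_an.E

set_option autoImplicit false
open Pool Pool.MP_7c4fde_an

namespace Pool.Agent.S05140

theorem result :
    ¬ (∀ (X : Type) [NormedAddCommGroup X] [NormedSpace ℂ X] [CompleteSpace X]
      [TopologicalSpace.SeparableSpace X],
      ¬ FiniteDimensional ℂ X →
      ∀ T : X →L[ℂ] X, spectrum ℂ T = {0} →
        ∃ F : X →L[ℂ] X,
          Module.finrank ℂ (LinearMap.range (F : X →ₗ[ℂ] X)) = 1 ∧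
          spectrum ℂ (T + F) = {0}) := by
  intro h
  have := Pool.Agent.H.MP_7c4fde_an.sepL1
  obtain ⟨F, h1, h2⟩ := h _ Pool.Agent.H.MP_7c4fde_an.not_fin _ Pool.Agent.H.MP_7c4fde_an.spec_T
  obtain ⟨v, hv, hF⟩ := finrank_eq_one_iff'.1 h1
  have hx : (v : Pool.Agent.H.MP_7c4fde_an.L1) ≠ 0 := fun h => hv (Subtype.ext h)
  obtain ⟨g, -, hg⟩ := exists_dual_vector ℂ (v : Pool.Agent.H.MP_7c4fde_an.L1)
    (norm_ne_zero_iff.2 hx)
  have hn : (‖(v : Pool.Agent.H.MP_7c4fde_an.L1)‖ : ℂ) ≠ 0 := by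
    exact_mod_cast norm_ne_zero_iff.2 hx
  have e : F = ((‖(v : Pool.Agent.H.MP_7c4fde_an.L1)‖ : ℂ)⁻¹ • g.comp F).smulRight v.1 := by
    refine ContinuousLinearMap.ext fun y => ?_
    obtain ⟨c, hc⟩ := hF ⟨F y, y, rfl⟩
    have hc' : c • v.1 = F y := congrArg Subtype.val hc
    rw [ContinuousLinearMap.smulRight_apply, smul_apply, ContinuousLinearMap.comp_apply, ← hc',
      map_smul, hg]
    congr 1
    change c = (‖v.1‖ : ℂ)⁻¹ * (c * (‖v.1‖ : ℂ))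
    field_simp
  refine Pool.Agent.H.MP_7c4fde_an.no_rank_one v.1 hx _ ?_ (e ▸ h2)
  intro h0
  rw [h0] at e
  obtain ⟨y, hy⟩ := v.2
  apply hx
  rw [← hy]
  change F y = 0
  rw [e]; simp

end Pool.Agent.S05140
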