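import Pool.Statements.S05150
import Pool.Agent.H.MP_7cb37e_an.D

set_option autoImplicit false
open Pool Pool.MP_7cb37e_an

namespace Pool.Agent.S05150

theorem result :
    ¬ (∀ (X : Set ℂ), IsCompact X →
      ∀ R : Set C(X, ℂ),
        R = closure {g : C(X, ℂ) | ∃ p q : Polynomial ℂ,
              (∀ z ∈ X, q.eval z ≠ 0) ∧ ∀ z : X, g z = p.eval (z : ℂ) / q.eval (z : ℂ)} →
        (∀ (x : X) (D : C(X, ℂ) → ℂ),
            (∀ f ∈ R, ∀ g ∈ R, D (f + g) = D f + D g) →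
            (∀ c : ℂ, ∀ f ∈ R, D (c • f) = c * D f) →
            (∀ f ∈ R, ∀ g ∈ R, D (f * g) = f x * D g + g x * D f) →
            (∃ C : ℝ, ∀ f ∈ R, ∀ M : ℝ, (∀ z : X, ‖f z‖ ≤ M) → ‖D f‖ ≤ C * M) →
            ∀ f ∈ R, D f = 0) →
        ∀ F : Set X, IsClosed F → ∀ x : X, x ∉ F →
          ∃ f ∈ R, f x = 1 ∧ ∀ y ∈ F, f y = 0) := by
  intro h
  obtain ⟨N, r, G⟩ := H.MP_7cb37e_an.ex_good
  haveI : CompactSpace (H.MP_7cb37e_an.XX N r) :=
    isCompact_iff_compactSpace.1 H.MP_7cb37e_an.XX_compact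
  obtain ⟨f, a, b, c⟩ := h (H.MP_7cb37e_an.XX N r) H.MP_7cb37e_an.XX_compact _ rfl
    (fun x D => H.MP_7cb37e_an.noD (H.MP_7cb37e_an.A0 _).topologicalClosure rfl x (G.big x.2) D)
    {z | z.1.re = -1 ∨ z.1.re = 1}
    ((isClosed_eq (by fun_prop) continuous_const).union
      (isClosed_eq (by fun_prop) continuous_const)) ⟨0, G.zero⟩ (by simp)
  exact G.nonreg a b c

end Pool.Agent.S05150
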