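import Pool.Statements.S05168
import Pool.Agent.H.MP_7dd24e_an.C

set_option autoImplicit false
open MeasureTheory
open Pool Pool.MP_7dd24e_an

namespace Pool.Agent.S05168

open Set Metric Pool.Agent.H.MP_7dd24e_an in
/-- The negation of the preceding statement: If two nested topological spheres in R^3 bound a shell whose Newtonian potential is constant in the inner cavity, then the two surfaces are the images of concentric spheres of radii 1 and k<1 under one invertible affine map. -/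
theorem result :
    ¬ (∀ (S S₁ U T₁ : Set (EuclideanSpace ℝ (Fin 3))),
    Nonempty (S ≃ₜ Metric.sphere (0 : EuclideanSpace ℝ (Fin 3)) 1) →
    Nonempty (S₁ ≃ₜ Metric.sphere (0 : EuclideanSpace ℝ (Fin 3)) 1) →
    IsOpen U → IsConnected U → Bornology.IsBounded U → frontier U = S →
    IsOpen T₁ → IsConnected T₁ → Bornology.IsBounded T₁ → frontier T₁ = S₁ →
    closure T₁ ⊆ U →
    (∃ c : ℝ, ∀ P ∈ T₁, ∫ M in U \ closure T₁, (dist P M)⁻¹ = c) →
    ∃ (f : EuclideanSpace ℝ (Fin 3) ≃ᵃ[ℝ] EuclideanSpace ℝ (Fin 3)) (k : ℝ),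
      0 < k ∧ k < 1 ∧
      S = f '' Metric.sphere (0 : EuclideanSpace ℝ (Fin 3)) 1 ∧
      S₁ = f '' Metric.sphere (0 : EuclideanSpace ℝ (Fin 3)) k) := by
  intro H
  obtain ⟨δ, K, T, c, δ0, δ1, hK, hT, hTK, hne, hs, hb, hc⟩ := main
  obtain ⟨h1, h2, h3⟩ := star hK hT hTK hne hs
  have a1 : ‖δ • b 0‖ = δ := by rw [norm_smul, b1, mul_one, Real.norm_of_nonneg δ0.le]
  have hU : IsOpen (ball (δ • b 0) 1 ∪ ball (-(δ • b 0)) 1) := isOpen_ball.union isOpen_ball
  have aux : ∀ a : E, ‖a‖ = δ → ∀ x ∈ closedBall a 1, ∀ τ ∈ Ico (0 : ℝ) 1, τ • x ∈ ball a 1 := by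
    intro a ha x hx τ hτ
    rw [mem_ball_iff_norm, show τ • x - a = τ • (x - a) - (1 - τ) • a by module]
    refine (norm_sub_le _ _).trans_lt ?_
    rw [norm_smul, norm_smul, ha, Real.norm_of_nonneg hτ.1, Real.norm_of_nonneg (sub_nonneg.2 hτ.2.le)]
    nlinarith [mem_closedBall_iff_norm.1 hx, hτ.1, hτ.2]
  obtain ⟨h4, h5, h6⟩ := star ((isCompact_closedBall (δ • b 0) 1).union
    (isCompact_closedBall (-(δ • b 0)) 1)) hU (union_subset_union ball_subset_closedBall
      ball_subset_closedBall) ⟨_, Or.inl (mem_closedBall_self zero_le_one)⟩ fun x hx τ hτ =>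
      hx.imp (fun h => aux _ a1 x h τ hτ) fun h => aux _ (by rw [norm_neg, a1]) x h τ hτ
  obtain ⟨f, k, -, -, h7, -⟩ := H _ _ _ T h6 h3 hU h5 (isBounded_ball.union isBounded_ball) rfl hT h2
    (hK.isBounded.subset hTK) rfl (h1 ▸ hb.trans ((ball_subset_ball' (by
      rw [dist_zero_left, a1]; linarith)).trans subset_union_left)) ⟨c, h1 ▸ hc⟩
  rw [hU.frontier_eq, h4] at h7
  obtain ⟨h, hh⟩ : ∃ h : ℝ, h ^ 2 = 1 - δ ^ 2 / 4 := ⟨_, Real.sq_sqrt (by nlinarith)⟩
  have n1 : ∀ t : ℝ, ‖t • b 0 + h • b 1‖ ^ 2 = t ^ 2 + h ^ 2 := fun t => by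
    rw [nsq, norm_smul, b1]; simp [b]
  have m1 : ∀ t : ℝ, ((t - 1) ^ 2 = 1 / 4 ∨ (t + 1) ^ 2 = 1 / 4) → 1 / 4 ≤ (t - 1) ^ 2 →
      1 / 4 ≤ (t + 1) ^ 2 → ‖f.symm ((t * δ) • b 0 + h • b 1)‖ = 1 := by
    intro t t1 t2 t3
    have e1 := n1 ((t - 1) * δ)
    have e2 := n1 ((t + 1) * δ)
    have d2 : 0 < δ ^ 2 := by positivity
    have : (t * δ) • b 0 + h • b 1 ∈ f '' sphere 0 1 := by
      rw [← h7]
      simp only [mem_diff, mem_union, mem_closedBall_iff_norm, mem_ball_iff_norm, not_or, not_lt]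
      rw [show (t * δ) • b 0 + h • b 1 - δ • b 0 = ((t - 1) * δ) • b 0 + h • b 1 by module,
        show (t * δ) • b 0 + h • b 1 - -(δ • b 0) = ((t + 1) * δ) • b 0 + h • b 1 by module]
      rw [mul_pow] at e1 e2
      refine ⟨t1.imp (fun h => ?_) fun h => ?_, ?_, ?_⟩
      · exact (abs_le_of_sq_le_sq' (by rw [e1, h]; linarith) zero_le_one).2
      · exact (abs_le_of_sq_le_sq' (by rw [e2, h]; linarith) zero_le_one).2
      · exact (abs_le_of_sq_le_sq' (by rw [e1]; nlinarith) (norm_nonneg _)).2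
      · exact (abs_le_of_sq_le_sq' (by rw [e2]; nlinarith) (norm_nonneg _)).2
    obtain ⟨y, hy, h8⟩ := this
    rw [← h8, f.symm_apply_apply]
    exact mem_sphere_zero_iff_norm.1 hy
  have p1 := m1 (-3 / 2) (by norm_num) (by norm_num) (by norm_num)
  have p2 := m1 (-1 / 2) (by norm_num) (by norm_num) (by norm_num)
  have p3 := m1 (3 / 2) (by norm_num) (by norm_num) (by norm_num)
  have h8 : (-1 / 2 * δ) • b 0 + h • b 1 = AffineMap.lineMap ((-3 / 2 * δ) • b 0 + h • b 1)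
      ((3 / 2 * δ) • b 0 + h • b 1) (1 / 3 : ℝ) := by
    rw [AffineMap.lineMap_apply_module]; module
  rw [h8, AffineEquiv.apply_lineMap, AffineMap.lineMap_apply_module] at p2
  refine absurd p2 (norm_combo_lt_of_ne p1.le p3.le (fun h9 => ?_) (by norm_num) (by norm_num)
    (by norm_num)).ne
  have h10 := congrArg (fun z : E => z 0) (f.symm.injective h9)
  have h11 : -3 / 2 * δ = 3 / 2 * δ := by
    simpa only [b, PiLp.add_apply, PiLp.smul_apply, PiLp.single_apply, if_true, smul_eq_mul, mul_one,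
      add_left_inj] using h10
  linarith

end Pool.Agent.S05168
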