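import Pool.Statements.S05170
import Pool.Agent.H.MP_7de1bc_an.A

set_option autoImplicit false
open Filter Topology
open Pool Pool.MP_7de1bc_an Pool.Agent.H.MP_7de1bc_an

namespace Pool.Agent.S05170

theorem result :
    ¬ (∀ (X : Type) [NormedAddCommGroup X] [NormedSpace ℝ X] [CompleteSpace X]
      [TopologicalSpace.SeparableSpace X],
      (¬ ∃ (T : lp (fun _ : ℕ => ℝ) (1 : ENNReal) →L[ℝ] X) (c : ℝ),
          0 < c ∧ ∀ y, c * ‖y‖ ≤ ‖T y‖) ↔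
      ∃ (p : Seminorm ℝ X) (a b : ℝ), 0 < a ∧ 0 < b ∧
        (∀ x : X, a * ‖x‖ ≤ p x ∧ p x ≤ b * ‖x‖) ∧
        ∀ u : ℕ → X, (∀ n, p (u n) = 1) →
          Tendsto (fun k : ℕ × ℕ => p (u k.1 + u k.2)) atTop (𝓝 2) →
          ∀ f : X →L[ℝ] ℝ, CauchySeq (fun n => f (u n))) := by
  intro h
  obtain ⟨p, a, b, a0, b0, hp, hw⟩ := (h _).1 no_l1
  obtain ⟨u, h1, h2, f, hf⟩ := no_wcr δ δ_ex p a0 b0 hp
  exact hf (hw u h1 h2 f)

end Pool.Agent.S05170
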