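import Pool.Statements.S05185
import Pool.Agent.H.MP_7e8329_an.G

set_option autoImplicit false
open Pool Pool.MP_7e8329_an

namespace Pool.Agent.S05185

/-- For every annulus between two disjoint smooth Jordan curves and every harmonic ψ taking distinct constants on them, some concentric circular annulus of the same area has α (boundary integral of ∣∇ψ∣² over Dirichlet energy) no larger. -/
theorem result :
    ∀ (γ₁ γ₂ : ℝ → ℂ),
      ContDiff ℝ (⊤ : ℕ∞) γ₁ → ContDiff ℝ (⊤ : ℕ∞) γ₂ →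
      Function.Periodic γ₁ 1 → Function.Periodic γ₂ 1 →
      Set.InjOn γ₁ (Set.Ico 0 1) → Set.InjOn γ₂ (Set.Ico 0 1) →
      (∀ t, deriv γ₁ t ≠ 0) → (∀ t, deriv γ₂ t ≠ 0) →
      Disjoint (Set.range γ₁) (Set.range γ₂) →
      ∀ (U : Set ℂ), IsOpen U → IsConnected U → Bornology.IsBounded U →
        frontier U = Set.range γ₁ ∪ Set.range γ₂ →
      ∀ (ψ : ℂ → ℝ), ContDiff ℝ 2 ψ →
        (∀ z ∈ U, iteratedFDeriv ℝ 2 ψ z ![(1 : ℂ), 1]
            + iteratedFDeriv ℝ 2 ψ z ![Complex.I, Complex.I] = 0) →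
      ∀ (c₁ c₂ : ℝ), c₁ ≠ c₂ →
        (∀ t, ψ (γ₁ t) = c₁) → (∀ t, ψ (γ₂ t) = c₂) →
      ∃ a b : ℝ, 0 < a ∧ a < b ∧
        Real.pi * (b ^ 2 - a ^ 2) = (MeasureTheory.volume U).toReal ∧
        (1 / a + 1 / b) / Real.log (b / a) ≤
          (∫ z in frontier U, ‖fderiv ℝ ψ z‖ ^ 2
              ∂(MeasureTheory.Measure.hausdorffMeasure 1)) /
          (∫ z in U, ‖fderiv ℝ ψ z‖ ^ 2) := by
  intro γ₁ γ₂ a1 a2 b1 b2 c1 c2 d1 d2 dis U hU hcon hb fr ψ hψ hh c₁ c₂ hc e1 e2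
  refine Pool.Agent.H.MP_7e8329_an.main3 (Pool.Agent.H.MP_7e8329_an.mkCrv a1 b1 c1 d1)
    (Pool.Agent.H.MP_7e8329_an.mkCrv a2 b2 c2 d2) dis hU hcon hb fr hψ (fun z hz => ⟨hψ.contDiffAt, ?_⟩)
    hc e1 e2
  filter_upwards [hU.mem_nhds hz] with w hw
  rw [InnerProductSpace.laplacian_eq_iteratedFDeriv_complexPlane]
  exact hh w hw

end Pool.Agent.S05185
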