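import Pool.Statements.S05202
import Pool.Agent.H.MP_7f688b_an.D

set_option autoImplicit false
open MeasureTheory
open Pool Pool.MP_7f688b_an

namespace Pool.Agent.S05202

theorem result :
    ¬ (∀ (d : ℕ) (E : Set (EuclideanSpace ℝ (Fin d))),
    MeasurableSet E → 0 < volume E → volume E < ⊤ →
    (∃ Λ : Set (EuclideanSpace ℝ (Fin d)),
      (∀ l ∈ Λ, ∀ l' ∈ Λ, l ≠ l' →
        ∫ x in E, Complex.exp (2 * (Real.pi : ℂ) * Complex.I * ((inner ℝ x (l - l') : ℝ) : ℂ)) = 0) ∧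
      (∀ f : EuclideanSpace ℝ (Fin d) → ℂ, MemLp f 2 (volume.restrict E) →
        (∀ l ∈ Λ, ∫ x in E, f x * Complex.exp (-(2 * (Real.pi : ℂ) * Complex.I * ((inner ℝ x l : ℝ) : ℂ))) = 0) →
        f =ᵐ[volume.restrict E] 0)) →
    ∃ S : Set (EuclideanSpace ℝ (Fin d) × EuclideanSpace ℝ (Fin d)),
      (∀ p ∈ S, ∀ q ∈ S, p ≠ q →
        ∫ x, (E.indicator (fun _ => (1 : ℂ)) (x - p.1) *
              Complex.exp (-(2 * (Real.pi : ℂ) * Complex.I * ((inner ℝ x p.2 : ℝ) : ℂ)))) *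
            starRingEnd ℂ (E.indicator (fun _ => (1 : ℂ)) (x - q.1) *
              Complex.exp (-(2 * (Real.pi : ℂ) * Complex.I * ((inner ℝ x q.2 : ℝ) : ℂ)))) = 0) ∧
      (∀ f : EuclideanSpace ℝ (Fin d) → ℂ, MemLp f 2 volume →
        (∀ p ∈ S, ∫ x, f x * starRingEnd ℂ (E.indicator (fun _ => (1 : ℂ)) (x - p.1) *
              Complex.exp (-(2 * (Real.pi : ℂ) * Complex.I * ((inner ℝ x p.2 : ℝ) : ℂ)))) = 0) →
        f =ᵐ[volume] 0)) := by
  intro H
  open Pool.Agent.H.MP_7f688b_an in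
  have vE : volume (EE tt) = 6 := by
    rw [EE, vol_fin, CC, Finset.card_image_of_injective _ (inj2 t_inj)]; simp
  open Pool.Agent.H.MP_7f688b_an in
  obtain ⟨S, hO, hC⟩ := H 3 (EE tt) (cl_ms _) (by rw [vE]; norm_num) (by rw [vE]; norm_num)
    ⟨Set.range fun p : Fin 6 × Z => ll p.1 + vec p.2, by
      rintro _ ⟨p, rfl⟩ _ ⟨q, rfl⟩ hne
      rw [← orth q.1 p.1 q.2 p.2 hne.symm]
      congr 1
      ext x
      rw [ch, ← neg_sub (ll p.1 + vec p.2), inner_neg_right]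
      push_cast; ring_nf, by
      intro f hf h
      exact spec (CC tt) ll hadam f hf fun k n => h _ ⟨(k, n), rfl⟩⟩
  open Pool.Agent.H.MP_7f688b_an in
  refine nogabor t_sid t_inj (by decide +kernel) notil S (fun s hs s' hs' hne => ?_)
    (fun f hf => ?_)
  · open Pool.Agent.H.MP_7f688b_an in
    rw [uE_inner t_inj, ← hO s hs s' hs' hne]
    apply integral_congr_ae
    open Pool.Agent.H.MP_7f688b_an in
    filter_upwards [uE_coe t_inj s.1 s.2] with x hx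
    rw [hx]; rfl
  · have := hC f (Lp.memLp f) fun p hp => by
      rw [← hf p hp, Pool.Agent.H.MP_7f688b_an.uE_inner Pool.Agent.H.MP_7f688b_an.t_inj]; rfl
    exact Lp.ext (this.trans (Lp.coeFn_zero ℂ 2 volume).symm)

end Pool.Agent.S05202
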