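import Pool.Statements.S05205
import Pool.Agent.H.MP_7f7d18_an.B

set_option autoImplicit false
open Pool Pool.MP_7f7d18_an

namespace Pool.Agent.S05205

theorem result :
    ∀ (K : Set ℝ), IsCompact K → ∀ (D : ℝ), Metric.diam K < D →
    ∀ (μ : MeasureTheory.Measure ℝ), MeasureTheory.IsProbabilityMeasure μ → μ Kᶜ = 0 →
    (∫⁻ x, ∫⁻ y, (if x = y then (⊤ : ENNReal) else ENNReal.ofReal (Real.log (D / |x - y|))) ∂μ ∂μ) < ⊤ →
    (∀ ν : MeasureTheory.Measure ℝ, MeasureTheory.IsProbabilityMeasure ν → ν Kᶜ = 0 →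
      (∫⁻ x, ∫⁻ y, (if x = y then (⊤ : ENNReal) else ENNReal.ofReal (Real.log (D / |x - y|))) ∂μ ∂μ)
        ≤ (∫⁻ x, ∫⁻ y, (if x = y then (⊤ : ENNReal) else ENNReal.ofReal (Real.log (D / |x - y|))) ∂ν ∂ν)) →
    ∀ p : ℝ, 1 ≤ p → ∀ n : ℕ, 1 ≤ n → ∀ P : Polynomial ℝ, P.Monic → P.natDegree = n →
      (2 : ℝ) ^ p / Real.sqrt Real.pi * Real.Gamma ((p + 1) / 2) / Real.Gamma (p / 2 + 1)
        * (D * Real.exp (-(∫⁻ x, ∫⁻ y, (if x = y then (⊤ : ENNReal) else ENNReal.ofReal (Real.log (D / |x - y|))) ∂μ ∂μ).toReal)) ^ ((n : ℝ) * p)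
      ≤ ∫ x, |P.eval x| ^ p ∂μ := by
  intro K hK D hD μ hμ hμK hE hmin p hp n hn P hP hPn
  subst hPn
  exact Pool.Agent.H.MP_7f7d18_an.final hK hμK (Metric.diam_nonneg.trans_lt hD)
    (Pool.Agent.H.MP_7f7d18_an.frostman hK hD hμK hE hmin) (by linarith) hP hn

end Pool.Agent.S05205
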