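import Pool.Statements.S05209
import Pool.Agent.H.MP_a2f955_an.D

set_option autoImplicit false
open MeasureTheory
open Pool Pool.MP_8048c5_an

namespace Pool.Agent.S05209

theorem result :
    ∀ A : ℝ, 0 < A → ∀ f : ℝ → ℂ,
      AEMeasurable f (volume.restrict (Set.Ioo (-A) A)) →
      (∃ C : ℝ, ∀ s : Finset ℝ, (∀ x ∈ s, x ∈ Set.Ioo (-A) A) →
        ∀ c : ℝ → ℂ, ∀ M : ℝ,
          (∀ t : ℝ, ‖∑ x ∈ s, c x * Complex.exp (Complex.I * (x : ℂ) * (t : ℂ))‖ ≤ M) →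
          ‖∑ x ∈ s, c x * f x‖ ≤ C * M) →
      ∃ g : ℝ → ℂ, (∀ x ∈ Set.Ioo (-A) A, g x = f x) ∧ AEMeasurable g volume ∧
        ∃ C : ℝ, ∀ s : Finset ℝ, ∀ c : ℝ → ℂ, ∀ M : ℝ,
          (∀ t : ℝ, ‖∑ x ∈ s, c x * Complex.exp (Complex.I * (x : ℂ) * (t : ℂ))‖ ≤ M) →
          ‖∑ x ∈ s, c x * g x‖ ≤ C * M := by
  intro A hA f hm ⟨C, hC⟩
  have hI : Pool.Agent.H.MP_a2f955_an.Iv (ENNReal.ofReal A) = Set.Ioo (-A) A := by
    ext x
    simp only [Pool.Agent.H.MP_a2f955_an.Iv, Set.mem_ofPred_eq, Set.mem_Ioo,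
      ENNReal.ofReal_lt_ofReal_iff hA, abs_lt]
  have hR : Pool.Agent.H.MP_a2f955_an.InR (ENNReal.ofReal A) f := by
    refine ⟨C * 1, ?_⟩
    rintro _ ⟨c, hc, h1, rfl⟩
    exact hC c.support (fun x hx => hI ▸ hc x hx) c 1 h1
  obtain ⟨F, h1, h2, h3, -⟩ := Pool.Agent.H.MP_a2f955_an.ext_norm hR (hI ▸ hm)
  refine ⟨F, fun x hx => h1 x (hI ▸ hx), h2, Pool.Agent.H.MP_a2f955_an.nrm ⊤ F,
    fun s c M hM => ?_⟩
  have := Pool.Agent.H.MP_a2f955_an.bound h3 (c := ∑ x ∈ s, Finsupp.single x (c x))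
    (fun l _ => by simp [Pool.Agent.H.MP_a2f955_an.Iv]) (r := M) fun t => by
      simp only [map_sum, Pool.Agent.H.MP_a2f955_an.PL_single]
      exact hM t
  simpa only [map_sum, Pool.Agent.H.MP_a2f955_an.PL_single] using this

end Pool.Agent.S05209
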