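import Pool.Statements.S05212
import Pool.Agent.H.MP_807847_an.A

set_option autoImplicit false
open Real
open Pool Pool.MP_807847_an

namespace Pool.Agent.S05212
open Pool.Agent.H.MP_807847_an MeasureTheory Filter Topology

noncomputable def co (n : ℤ) : ℂ := (n.sign : ℂ) * B n.natAbs

lemma fou (n : ℤ) (x : ℝ) :
    fourier n (x : AddCircle (2 * π)) = Complex.exp (((n * x : ℝ) : ℂ) * Complex.I) := by
  rw [fourier_coe_apply]
  congr 1
  have : (π : ℂ) ≠ 0 := by exact_mod_cast pi_ne_zero
  push_cast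
  field_simp

lemma part (x : ℝ) (N : ℕ) :
    ∑ n ∈ Finset.Icc (-(N : ℤ)) (N : ℤ), co n * fourier n (x : AddCircle (2 * π))
      = 2 * Complex.I * ((∑ n ∈ Finset.range (N + 1), B n * sin (n * x) : ℝ) : ℂ) := by
  induction N with
  | zero => simp [co]
  | succ N ih =>
    have e : Finset.Icc (-((N + 1 : ℕ) : ℤ)) ((N + 1 : ℕ) : ℤ)
        = insert ((N + 1 : ℕ) : ℤ) (insert (-((N + 1 : ℕ) : ℤ)) (Finset.Icc (-(N : ℤ)) N)) := by
      ext n; simp only [Finset.mem_Icc, Finset.mem_insert]; omega
    rw [e, Finset.sum_insert (by simp only [Finset.mem_Icc, Finset.mem_insert]; omega),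
      Finset.sum_insert (by simp only [Finset.mem_Icc]; omega), ih,
      Finset.sum_range_succ _ (N + 1), fou, fou]
    simp only [co, Int.sign_neg, Int.natAbs_neg, Int.natAbs_natCast,
      Int.sign_eq_one_of_pos (show (0:ℤ) < ((N + 1 : ℕ) : ℤ) by omega),
      Complex.exp_mul_I, ← Complex.ofReal_cos, ← Complex.ofReal_sin, Int.cast_neg, neg_mul,
      cos_neg, sin_neg, Int.cast_natCast]
    push_cast
    ring

lemma odd_sin (n : ℕ) (x : ℝ) : B n * sin (n * (π - x)) = B n * sin (n * x) := by
  by_cases h : Odd n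
  · rw [mul_sub, sin_sub, sin_nat_mul_pi, cos_nat_mul_pi, h.neg_one_pow]; ring
  · rw [B_even n h]; simp

def K : Set ℝ := insert 0 (Set.range fun k => u (k + 1))

lemma K_cpt : IsCompact K := u_lim.isCompact_insert_range

lemma K_null (x : ℝ) (hx : x ∈ K) :
    ∀ᶠ N in atTop, ∑ n ∈ Finset.range N, B n * sin (n * x) = 0 := by
  rcases hx with rfl | ⟨k, rfl⟩
  · simp
  · exact B_null k

instance : Fact (0 < 2 * π) := ⟨by positivity⟩

noncomputable def mu (g : ℕ → ℝ) : Measure (AddCircle (2 * π)) :=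
  Measure.sum fun k => ENNReal.ofReal (c k) • Measure.dirac (g k : AddCircle (2 * π))

instance (g : ℕ → ℝ) : IsFiniteMeasure (mu g) := ⟨by
  simp only [mu, Measure.sum_apply _ MeasurableSet.univ, Measure.smul_apply, measure_univ,
    smul_eq_mul, mul_one]
  rw [← ENNReal.ofReal_tsum_of_nonneg (fun k => (c_pos k).le) c_sum]
  exact ENNReal.ofReal_lt_top⟩

lemma mu_int (g : ℕ → ℝ) (n : ℤ) : HasSum
    (fun k => (c k : ℂ) * fourier n (g k : AddCircle (2 * π))) (∫ t, fourier n t ∂(mu g)) := by
  have := hasSum_integral_sum_dirac (c := fun k => ENNReal.ofReal (c k))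
    (x := fun k => (g k : AddCircle (2 * π))) (f := fun t => fourier n t)
    (fun _ => ENNReal.ofReal_ne_top) (by
      simp only [fou, Complex.norm_exp_ofReal_mul_I, ENNReal.toReal_ofReal (c_pos _).le, mul_one]
      exact c_sum)
  simp only [ENNReal.toReal_ofReal (c_pos _).le, Complex.real_smul] at this
  exact this

noncomputable def nu : Measure (AddCircle (2 * π)) :=
  mu (fun k => u (k + 1)) + mu (fun k => π - u (k + 1))

lemma nu_int (n : ℤ) : (∫ t, fourier (-n) t ∂nu) * co (-n)
    = 2 * Complex.I * ((B n.natAbs * m n.natAbs : ℝ) : ℂ) := by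
  by_cases h : Odd n.natAbs
  swap
  · simp [co, B_even _ h]
  have hi : ∀ g, Integrable (fun t => fourier (-n) t) (mu g) := fun g =>
    (BoundedContinuousFunction.mkOfCompact (fourier (-n))).integrable _
  have h1 := (mu_int (fun k => u (k + 1)) (-n)).add (mu_int (fun k => π - u (k + 1)) (-n))
  rw [nu, integral_add_measure (hi _) (hi _)]
  have hs : Summable fun k => c k * sin (n.natAbs * u (k + 1)) :=
    Summable.of_norm_bounded c_sum fun k => csin _ k
  have h2 := (Complex.hasSum_ofReal.2 hs.hasSum).mul_left (-2 * Complex.I * n.sign)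
  have h3 : ∀ x : ℝ, fourier (-n) (x : AddCircle (2 * π))
      + fourier (-n) ((π - x : ℝ) : AddCircle (2 * π))
      = -2 * Complex.I * n.sign * (sin (n.natAbs * x) : ℝ) := by
    intro x
    rw [fou, fou]
    simp only [Complex.exp_mul_I, ← Complex.ofReal_cos, ← Complex.ofReal_sin, Int.cast_neg,
      neg_mul, cos_neg, sin_neg, mul_sub, sin_sub, cos_sub, sin_int_mul_pi, cos_int_mul_pi,
      (Int.natAbs_odd.1 h).neg_one_zpow]
    have : sin (n * x) = n.sign * sin (n.natAbs * x) := by
      rcases Int.natAbs_eq n with e | e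
      · have hp : 0 < n := by have := h.pos; omega
        rw [Int.sign_eq_one_of_pos hp]
        conv_lhs => rw [e]
        simp
      · have hp : n < 0 := by have := h.pos; omega
        rw [Int.sign_eq_neg_one_of_neg hp]
        conv_lhs => rw [e]
        simp
    rw [this]
    push_cast
    ring
  have h4 : (fun k => (c k : ℂ) * fourier (-n) (u (k + 1) : AddCircle (2 * π))
      + (c k : ℂ) * fourier (-n) ((π - u (k + 1) : ℝ) : AddCircle (2 * π)))
      = fun k => -2 * Complex.I * n.sign * ((c k * sin (n.natAbs * u (k + 1)) : ℝ) : ℂ) := by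
    funext k
    rw [← mul_add, h3]
    push_cast
    ring
  rw [h4] at h1
  rw [h1.unique h2]
  have h5 : (n.sign : ℂ) * n.sign = 1 := by
    have hn : n ≠ 0 := by have := h.pos; omega
    rcases hn.lt_or_gt with hp | hp
    · rw [Int.sign_eq_neg_one_of_neg hp]; simp
    · rw [Int.sign_eq_one_of_pos hp]; simp
  simp only [co, Int.sign_neg, Int.natAbs_neg, m]
  push_cast
  linear_combination (2 * Complex.I * (B n.natAbs : ℂ) *
    ∑' k, (c k : ℂ) * Complex.sin ((n.natAbs : ℂ) * (u (k + 1) : ℂ))) * h5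

theorem result :
    ¬ (∀ (a : ℤ → ℂ) (F : Set (AddCircle (2 * π))) (μ : MeasureTheory.Measure (AddCircle (2 * π))),
      Filter.Tendsto a Filter.cofinite (nhds 0) →
      IsClosed F →
      (∀ t ∈ F, Filter.Tendsto
        (fun N : ℕ => ∑ n ∈ Finset.Icc (-(N : ℤ)) (N : ℤ), a n * fourier n t)
        Filter.atTop (nhds 0)) →
      MeasureTheory.IsFiniteMeasure μ →
      μ Fᶜ = 0 →
      Summable (fun n : ℤ => ‖∫ t, fourier (-n) t ∂μ‖ * ‖a (-n)‖) →
      ∑' n : ℤ, (∫ t, fourier (-n) t ∂μ) * a (-n) = 0) := by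
  intro H
  have hc : Continuous fun x : ℝ => (x : AddCircle (2 * π)) := AddCircle.continuous_mk' _
  set F : Set (AddCircle (2 * π)) := (fun x : ℝ => (x : AddCircle (2 * π))) '' K ∪
    (fun x : ℝ => ((π - x : ℝ) : AddCircle (2 * π))) '' K with hF
  have hFc : IsClosed F :=
    ((K_cpt.image hc).union (K_cpt.image (hc.comp (by fun_prop)))).isClosed
  obtain ⟨hs, hpos⟩ := pairing
  have hZ : HasSum (fun n : ℤ => B n.natAbs * m n.natAbs)
      (∑' n, B n * m n + ∑' n, B n * m n - B 0 * m 0) :=
    HasSum.of_nat_of_neg (f := fun n : ℤ => B n.natAbs * m n.natAbs)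
      (by simpa using hs.hasSum) (by simpa using hs.hasSum)
  have hZ2 := (Complex.hasSum_ofReal.2 hZ).mul_left (2 * Complex.I)
  have := H co F nu ?_ hFc ?_ (by unfold nu; infer_instance) ?_ ?_
  · simp only [nu_int] at this
    rw [hZ2.tsum_eq, B_even 0 (by simp)] at this
    have h2 : (2 * Complex.I) ≠ 0 := by simp
    have h3 := Complex.ofReal_eq_zero.1 ((mul_eq_zero.1 this).resolve_left h2)
    linarith
  · rw [tendsto_zero_iff_norm_tendsto_zero]
    have h1 : Tendsto Int.natAbs cofinite atTop := by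
      refine tendsto_atTop.2 fun b => ?_
      refine (Set.finite_Icc (-(b:ℤ)) b).subset fun n hn => ?_
      simp only [Set.mem_compl_iff, Set.mem_ofPred_eq, not_le] at hn
      constructor <;> omega
    refine squeeze_zero (fun _ => norm_nonneg _) (fun n => ?_)
      (by simpa using (B_lim.comp h1).norm)
    rw [co, norm_mul, Complex.norm_real, Real.norm_eq_abs]
    refine mul_le_of_le_one_left (abs_nonneg _) ?_
    rcases lt_trichotomy n 0 with h | rfl | h
    · rw [Int.sign_eq_neg_one_of_neg h]; simp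
    · simp
    · rw [Int.sign_eq_one_of_pos h]; simp
  · rintro t (⟨x, hx, rfl⟩ | ⟨x, hx, rfl⟩)
    · refine tendsto_const_nhds.congr' ?_
      filter_upwards [(tendsto_add_atTop_nat 1).eventually (K_null x hx)] with N hN
      rw [part, hN]; simp
    · refine tendsto_const_nhds.congr' ?_
      filter_upwards [(tendsto_add_atTop_nat 1).eventually (K_null x hx)] with N hN
      rw [part]
      simp only [odd_sin]
      rw [hN]; simp
  · have h1 : ∀ g : ℕ → ℝ, (∀ k, (g k : AddCircle (2 * π)) ∈ F) → mu g Fᶜ = 0 := by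
      intro g hg
      simp [mu, Measure.sum_apply _ hFc.measurableSet.compl, hg]
    rw [nu, Measure.add_apply, h1, h1, add_zero]
    · exact fun k => Or.inr ⟨_, Or.inr ⟨k, rfl⟩, rfl⟩
    · exact fun k => Or.inl ⟨_, Or.inr ⟨k, rfl⟩, rfl⟩
  · simp only [← norm_mul, nu_int]
    exact hZ2.summable.norm

end Pool.Agent.S05212
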