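import Pool.Statements.S05217
import Pool.Agent.H.MP_81537f_an.F

set_option autoImplicit false
open Pool Pool.MP_81537f_an

namespace Pool.Agent.S05217

/-- For every p ≥ 1, if f with f(0)=1 lies in V_{2p} but not V_{2p−2}, then f's Taylor series never has 2p+2 consecutive zero coefficients. V_{2p} means: a real entire function of genus ≤ 2p+1 with only real zeros, times exp(−a z^{2p+2}) with a ≥ 0. -/
theorem result :
    ∀ p : ℕ, 1 ≤ p → ∀ f : ℂ → ℂ,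
      (∃ (c : ℂ) (m : ℕ) (a : ℝ) (β : Polynomial ℝ) (y : ℕ → ℝ),
        0 ≤ a ∧ β.natDegree ≤ 2 * p + 1 ∧ Summable (fun n => |y n| ^ (2 * p + 2)) ∧
        ∀ z : ℂ, f z = c * z ^ m *
          Complex.exp (-(a : ℂ) * z ^ (2 * p + 2) + Polynomial.aeval z β) *
          ∏' n, ((1 - (y n : ℂ) * z) *
            Complex.exp (∑ j ∈ Finset.Icc 1 (2 * p + 1), ((y n : ℂ) * z) ^ j / (j : ℂ)))) →
      (¬ ∃ (c : ℂ) (m : ℕ) (a : ℝ) (β : Polynomial ℝ) (y : ℕ → ℝ),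
        0 ≤ a ∧ β.natDegree ≤ 2 * p - 1 ∧ Summable (fun n => |y n| ^ (2 * p)) ∧
        ∀ z : ℂ, f z = c * z ^ m *
          Complex.exp (-(a : ℂ) * z ^ (2 * p) + Polynomial.aeval z β) *
          ∏' n, ((1 - (y n : ℂ) * z) *
            Complex.exp (∑ j ∈ Finset.Icc 1 (2 * p - 1), ((y n : ℂ) * z) ^ j / (j : ℂ)))) →
      f 0 = 1 →
      ¬ ∃ n : ℕ, ∀ j : ℕ, j < 2 * p + 2 → iteratedDeriv (n + j) f 0 = 0 := by
  rintro p _ f ⟨c, m, a, β, y, ha, hβ, hy, hf⟩ hV h0 ⟨n, hn⟩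
  obtain ⟨h1, S, hS⟩ := Pool.Agent.H.MP_81537f_an.main p f c m a β y ha hβ hy hf h0 n hn
  obtain ⟨c', m', a', β', y', b1, b2, b3, b4⟩ :=
    Pool.Agent.H.MP_81537f_an.polycase (2 * p - 1) f S hS (by simp [h0]) h1
  exact hV ⟨c', m', a', β', y', b1, b2, b3 _ (by omega), b4 _⟩

end Pool.Agent.S05217
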