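import Pool.Statements.S05220
import Pool.Agent.H.MP_816d1e_an.D

set_option autoImplicit false
open MeasureTheory
open Pool Pool.MP_816d1e_an

namespace Pool.Agent.S05220

/-- The negation of the preceding statement: Let K be a compact non-polar subset of the reals whose logarithmic equilibrium measure equals the h-Hausdorff measure restricted to K, for some continuous nondecreasing h with h(0)=0. Then K has Hausdorff dimension 0. -/
theorem result :
    ¬ (∀ (K : Set ℝ), IsCompact K →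
  ∀ (h : NNReal → NNReal), Continuous h → Monotone h → h 0 = 0 →
  ∀ (μ : Measure ℝ), IsProbabilityMeasure μ → μ Kᶜ = 0 →
  (∃ ν : Measure ℝ, IsProbabilityMeasure ν ∧ ν Kᶜ = 0 ∧
      (∫⁻ x, ∫⁻ y, (if x = y then (⊤ : ENNReal)
          else ENNReal.ofReal (Real.log (Metric.diam K + 1) - Real.log (dist x y))) ∂ν ∂ν) < ⊤) →
  (∀ ν : Measure ℝ, IsProbabilityMeasure ν → ν Kᶜ = 0 →
      (∫⁻ x, ∫⁻ y, (if x = y then (⊤ : ENNReal)
          else ENNReal.ofReal (Real.log (Metric.diam K + 1) - Real.log (dist x y))) ∂μ ∂μ)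
        ≤ (∫⁻ x, ∫⁻ y, (if x = y then (⊤ : ENNReal)
          else ENNReal.ofReal (Real.log (Metric.diam K + 1) - Real.log (dist x y))) ∂ν ∂ν)) →
  μ = (Measure.mkMetric (fun r : ENNReal => ((h r.toNNReal : NNReal) : ENNReal))).restrict K →
  dimH K = 0) := by
  intro H
  have hK := Pool.Agent.H.MP_816d1e_an.K_compact
  have hR : 1 ≤ Metric.diam Pool.Agent.H.MP_816d1e_an.K + 1 := by
    linarith [Metric.diam_nonneg (s := Pool.Agent.H.MP_816d1e_an.K)]
  obtain ⟨c, hc⟩ := Pool.Agent.H.MP_816d1e_an.mu_pot _ hR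
  have hd : ∀ x ∈ Pool.Agent.H.MP_816d1e_an.K, ∀ y ∈ Pool.Agent.H.MP_816d1e_an.K,
      |x - y| ≤ Metric.diam Pool.Agent.H.MP_816d1e_an.K + 1 := fun x hx y hy => by
    have := Metric.dist_le_diam_of_mem hK.isBounded hx hy
    rw [Real.dist_eq] at this
    linarith
  have hE := fun (ν : Measure ℝ) [IsProbabilityMeasure ν] hν =>
    Pool.Agent.H.MP_816d1e_an.energy_min _ _ hd Pool.Agent.H.MP_816d1e_an.mu ν
      Pool.Agent.H.MP_816d1e_an.mu_K hν _ ENNReal.ofReal_ne_top hc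
  have h0 := (hE Pool.Agent.H.MP_816d1e_an.mu Pool.Agent.H.MP_816d1e_an.mu_K).1
  refine Pool.Agent.H.MP_816d1e_an.dim_ne (H _ hK Pool.Agent.H.MP_816d1e_an.hh
    Pool.Agent.H.MP_816d1e_an.hh_cont Pool.Agent.H.MP_816d1e_an.hh_mono
    Pool.Agent.H.MP_816d1e_an.hh_zero Pool.Agent.H.MP_816d1e_an.mu inferInstance
    Pool.Agent.H.MP_816d1e_an.mu_K
    ⟨Pool.Agent.H.MP_816d1e_an.mu, inferInstance, Pool.Agent.H.MP_816d1e_an.mu_K, ?_⟩ ?_
    Pool.Agent.H.MP_816d1e_an.mu_eq)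
  · exact h0.trans_lt ENNReal.ofReal_lt_top
  · intro ν hν1 hν
    exact h0.trans_le (hE ν hν).2

end Pool.Agent.S05220
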