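import Pool.Statements.S05232
-- import your own Pool.Agent.* helpers here
import Pool.Agent.H.MP_826cdb_an.B

set_option autoImplicit false
open Pool Pool.MP_826cdb_an

namespace Pool.Agent.S05232

theorem result :
    ¬ (∀ (X : Type) [NormedAddCommGroup X] [NormedSpace ℝ X] [CompleteSpace X]
      (A B : Set (X × (X →L[ℝ] ℝ))),
      (∀ (x y : X) (a b : X →L[ℝ] ℝ), (x, a) ∈ A → (y, b) ∈ A → 0 ≤ (a - b) (x - y)) →
      (∀ (z : X) (c : X →L[ℝ] ℝ),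
          (∀ (x : X) (a : X →L[ℝ] ℝ), (x, a) ∈ A → 0 ≤ (c - a) (z - x)) → (z, c) ∈ A) →
      (∀ (x y : X) (a b : X →L[ℝ] ℝ), (x, a) ∈ B → (y, b) ∈ B → 0 ≤ (a - b) (x - y)) →
      (∀ (z : X) (c : X →L[ℝ] ℝ),
          (∀ (x : X) (a : X →L[ℝ] ℝ), (x, a) ∈ B → 0 ≤ (c - a) (z - x)) → (z, c) ∈ B) →
      ({x : X | ∃ a : X →L[ℝ] ℝ, (x, a) ∈ A} ∩
          interior {x : X | ∃ b : X →L[ℝ] ℝ, (x, b) ∈ B}).Nonempty →
      (∀ (x y : X) (a b a' b' : X →L[ℝ] ℝ),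
          (x, a) ∈ A → (x, b) ∈ B → (y, a') ∈ A → (y, b') ∈ B →
          0 ≤ ((a + b) - (a' + b')) (x - y)) ∧
      (∀ (z : X) (c : X →L[ℝ] ℝ),
          (∀ (x : X) (a b : X →L[ℝ] ℝ), (x, a) ∈ A → (x, b) ∈ B →
              0 ≤ (c - (a + b)) (z - x)) →
          ∃ (a b : X →L[ℝ] ℝ), (z, a) ∈ A ∧ (z, b) ∈ B ∧ c = a + b)) := by
  obtain ⟨X, _, _, _, G, l, z, κ, hm, hx, hz, hκ, ⟨a, ha, ha0⟩, ⟨b, hb, hb1⟩, hG⟩ :=
    Pool.Agent.H.MP_826cdb_an.ex1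
  have hn : ∀ f, (z, f) ∉ G := fun f hf => by
    rcases hG _ hf with h | h <;> linarith [h.1]
  intro h
  have hB := Pool.Agent.H.MP_826cdb_an.NC_mm l z hz
  have hi : a.1 ∈ interior {x : X | ∃ b : X →L[ℝ] ℝ, (x, b) ∈ Pool.Agent.H.MP_826cdb_an.NC l} := by
    refine interior_maximal (t := {x | l x < 1 / 2}) (fun x hx => ?_)
      (isOpen_lt l.continuous continuous_const) (by show l _ < 1 / 2; linarith)
    exact ⟨0, le_of_lt hx, 0, le_rfl, by simp, by simp⟩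
  obtain ⟨f, -, hf, -⟩ := (h X G (Pool.Agent.H.MP_826cdb_an.NC l)
    (fun x y f g hf hg => hm _ hf _ hg) (fun x f hf => hx _ fun q hq => hf _ _ hq)
    (fun x y f g hf hg => hB.1 _ hf _ hg) (fun x f hf => hB.2 _ fun q hq => hf _ _ hq)
    ⟨a.1, ⟨a.2, ha⟩, hi⟩).2 z 0 (by
      rintro x f g hf ⟨h1, c, -, rfl, h2⟩
      rcases hG _ hf with h3 | h3
      · have h4 : l x = 0 := h3.1
        obtain rfl : c = 0 := by simpa [h4] using h2
        simpa using h3.2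
      · linarith [h3.1])
  exact hn f hf

end Pool.Agent.S05232
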