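import Pool.Statements.S05247
import Pool.Agent.H.MP_42dd51_an.E

set_option autoImplicit false
open Classical
open Pool Pool.MP_832ffe_an

namespace Pool.Agent.S05247

open Pool.Agent.H.MP_42dd51_an in
theorem result :
  ∃ (X Y : Type) (_ : MetricSpace X) (_ : MetricSpace Y),
    (∀ r : ℝ, ∃ N : ℕ, ∀ x : X,
        (Metric.closedBall x r).Finite ∧ (Metric.closedBall x r).ncard ≤ N) ∧
    (∀ r : ℝ, ∃ N : ℕ, ∀ y : Y,
        (Metric.closedBall y r).Finite ∧ (Metric.closedBall y r).ncard ≤ N) ∧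
    (∃ Φ : (lp (fun _ : X => ℂ) 2 →L[ℂ] lp (fun _ : X => ℂ) 2) →
        (lp (fun _ : Y => ℂ) 2 →L[ℂ] lp (fun _ : Y => ℂ) 2),
      (∀ a ∈ closure {T : lp (fun _ : X => ℂ) 2 →L[ℂ] lp (fun _ : X => ℂ) 2 |
              ∃ r : ℝ, ∀ x x' : X, r < dist x x' → (T (lp.single 2 x (1 : ℂ))) x' = 0},
        ∀ b ∈ closure {T : lp (fun _ : X => ℂ) 2 →L[ℂ] lp (fun _ : X => ℂ) 2 |
              ∃ r : ℝ, ∀ x x' : X, r < dist x x' → (T (lp.single 2 x (1 : ℂ))) x' = 0},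
        ∀ c : ℂ,
          Φ (a + b) = Φ a + Φ b ∧ Φ (c • a) = c • Φ a ∧
          Φ (a * b) = Φ a * Φ b ∧ Φ (star a) = star (Φ a)) ∧
      Set.InjOn Φ (closure {T : lp (fun _ : X => ℂ) 2 →L[ℂ] lp (fun _ : X => ℂ) 2 |
              ∃ r : ℝ, ∀ x x' : X, r < dist x x' → (T (lp.single 2 x (1 : ℂ))) x' = 0}) ∧
      (∀ a ∈ closure {T : lp (fun _ : X => ℂ) 2 →L[ℂ] lp (fun _ : X => ℂ) 2 |
              ∃ r : ℝ, ∀ x x' : X, r < dist x x' → (T (lp.single 2 x (1 : ℂ))) x' = 0},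
        Φ a ∈ closure {S : lp (fun _ : Y => ℂ) 2 →L[ℂ] lp (fun _ : Y => ℂ) 2 |
              ∃ r : ℝ, ∀ y y' : Y, r < dist y y' → (S (lp.single 2 y (1 : ℂ))) y' = 0}) ∧
      (∀ a ∈ closure {T : lp (fun _ : X => ℂ) 2 →L[ℂ] lp (fun _ : X => ℂ) 2 |
              ∃ r : ℝ, ∀ x x' : X, r < dist x x' → (T (lp.single 2 x (1 : ℂ))) x' = 0},
        IsCompactOperator a → IsCompactOperator (Φ a))) ∧
    ¬ ∃ f : X → Y,
        (∀ r : ℝ, ∃ s : ℝ, ∀ x x' : X, dist x x' ≤ r → dist (f x) (f x') ≤ s) ∧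
        (∃ N : ℕ, ∀ y : Y, (f ⁻¹' {y}).Finite ∧ (f ⁻¹' {y}).ncard ≤ N) := by
  obtain ⟨U, hU, hU'⟩ := exists_Phi
  have hS : ∀ (Z : Type) [MetricSpace Z], {a : E2 Z →L[ℂ] E2 Z | ∃ r : ℝ, ∀ x x' : Z,
      r < dist x x' → a (sg x) x' = 0} = FPs Z dist := by
    intro Z _
    ext a
    simp only [FPs, ent, Set.mem_ofPred_eq]
    exact exists_congr fun r => ⟨fun h x x' hx => h x' x (by rwa [dist_comm]),
      fun h x x' hx => h x' x (by rwa [dist_comm])⟩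
  have hu : ∀ (Z : Type) [MetricSpace Z], (∀ r : ℝ, ∃ N : ℕ, ∀ x : Z,
      (Metric.closedBall x r).encard ≤ (N : ℕ∞)) → ∀ r : ℝ, ∃ N : ℕ, ∀ x : Z,
      (Metric.closedBall x r).Finite ∧ (Metric.closedBall x r).ncard ≤ N := by
    intro Z _ h r
    obtain ⟨N, hN⟩ := h r
    refine ⟨N, fun x => ?_⟩
    have hf := Set.finite_of_encard_le_coe (hN x)
    refine ⟨hf, ?_⟩
    have := hN x
    rw [← hf.cast_ncard_eq] at this
    exact_mod_cast this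
  refine ⟨X, Y, inferInstance, inferInstance, hu X (ulf_of ballX), hu Y (ulf_of ballY),
    ⟨Phi U, fun a _ b _ c => ⟨Phi_add U a b, Phi_smul U c a, Phi_mul hU a b, Phi_star U a⟩,
      (Phi_inj hU).injOn, ?_, fun a _ ha => Phi_compact U a ha⟩, ?_⟩
  · intro a ha
    have h1 : a ∈ closure (FPs X dist) := hS X ▸ ha
    have h2 : Phi U a ∈ closure (FPs Y dist) := Phi_closure _ _ hU' a h1
    rw [← hS Y] at h2
    exact h2
  · rintro ⟨f, hf, M, hM⟩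
    obtain ⟨s, hs⟩ := hf 1
    refine no_map' f s hs M fun y => ?_
    rw [← (hM y).1.cast_ncard_eq]
    exact_mod_cast (hM y).2

end Pool.Agent.S05247
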