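import Pool.Statements.S05272
import Pool.Agent.H.MP_85663e_an.Main

set_option autoImplicit false
open Pool Pool.MP_85663e_an

namespace Pool.Agent.S05272

theorem result :
    ¬ (∀ (n m : ℕ) (E : Set (Fin n → ℝ)), (0 : Fin n → ℝ) ∈ E →
      ∃ V : Set (Fin n → ℝ),
        (∃ (k : ℕ) (f : Fin k → MvPolynomial (Fin n) ℝ)
            (g : Fin k → Finset (MvPolynomial (Fin n) ℝ)),
            V = ⋃ i : Fin k, {x : Fin n → ℝ | MvPolynomial.eval x (f i) = 0 ∧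
                ∀ p ∈ g i, 0 < MvPolynomial.eval x p}) ∧
        (0 : Fin n → ℝ) ∈ V ∧
        (∀ F : (Fin n → ℝ) → ℝ, ContDiff ℝ m F → (∀ x ∈ E, F x = 0) →
          ∃ G : (Fin n → ℝ) → ℝ, ContDiff ℝ m G ∧ (∀ x ∈ V, G x = 0) ∧
            ∀ j : ℕ, j ≤ m → iteratedFDeriv ℝ j G 0 = iteratedFDeriv ℝ j F 0) ∧
        (∀ G : (Fin n → ℝ) → ℝ, ContDiff ℝ m G → (∀ x ∈ V, G x = 0) →
          ∃ F : (Fin n → ℝ) → ℝ, ContDiff ℝ m F ∧ (∀ x ∈ E, F x = 0) ∧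
            ∀ j : ℕ, j ≤ m → iteratedFDeriv ℝ j F 0 = iteratedFDeriv ℝ j G 0)) := by
  intro h
  obtain ⟨V, ⟨k, f, g, hV⟩, -, h1, h2⟩ := h 2 6 Pool.Agent.H.MP_85663e_an.EE
    (by simp [Pool.Agent.H.MP_85663e_an.EE])
  exact Pool.Agent.H.MP_85663e_an.main f g V hV h1 h2

end Pool.Agent.S05272
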