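import Pool.Statements.S05281
import Pool.Agent.H.MP_86dbc5_an.F

set_option autoImplicit false
open MeasureTheory
open Pool Pool.MP_86dbc5_an

namespace Pool.Agent.S05281

/-- In Aut([0,1],λ) with the weak topology (coded by the measures of T⁻¹I∩J over rational intervals I, J), the set of squares S∘S is analytic and every analytic subset of Baire space continuously reduces to it, i.e. it is Σ¹₁-complete. -/
theorem result :
    MeasureTheory.AnalyticSet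
      {c : (ℚ × ℚ) × (ℚ × ℚ) → ℝ | ∃ S : unitInterval ≃ᵐ unitInterval,
        MeasureTheory.MeasurePreserving (⇑S) volume volume ∧
        c = fun p => (volume ((⇑(S.trans S)) ⁻¹'
              {x : unitInterval | ((p.1.1 : ℚ) : ℝ) ≤ (x : ℝ) ∧ (x : ℝ) ≤ ((p.1.2 : ℚ) : ℝ)} ∩
              {x : unitInterval | ((p.2.1 : ℚ) : ℝ) ≤ (x : ℝ) ∧ (x : ℝ) ≤ ((p.2.2 : ℚ) : ℝ)})).toReal} ∧
    ∀ B : Set (ℕ → ℕ), MeasureTheory.AnalyticSet B →
      ∃ f : (ℕ → ℕ) → ((ℚ × ℚ) × (ℚ × ℚ) → ℝ), Continuous f ∧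
        (∀ y : ℕ → ℕ, ∃ T : unitInterval ≃ᵐ unitInterval,
          MeasureTheory.MeasurePreserving (⇑T) volume volume ∧
          f y = fun p => (volume ((⇑T) ⁻¹'
              {x : unitInterval | ((p.1.1 : ℚ) : ℝ) ≤ (x : ℝ) ∧ (x : ℝ) ≤ ((p.1.2 : ℚ) : ℝ)} ∩
              {x : unitInterval | ((p.2.1 : ℚ) : ℝ) ≤ (x : ℝ) ∧ (x : ℝ) ≤ ((p.2.2 : ℚ) : ℝ)})).toReal) ∧
        ∀ y : ℕ → ℕ, (y ∈ B ↔ ∃ S : unitInterval ≃ᵐ unitInterval,
          MeasureTheory.MeasurePreserving (⇑S) volume volume ∧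
          f y = fun p => (volume ((⇑(S.trans S)) ⁻¹'
              {x : unitInterval | ((p.1.1 : ℚ) : ℝ) ≤ (x : ℝ) ∧ (x : ℝ) ≤ ((p.1.2 : ℚ) : ℝ)} ∩
              {x : unitInterval | ((p.2.1 : ℚ) : ℝ) ≤ (x : ℝ) ∧ (x : ℝ) ≤ ((p.2.2 : ℚ) : ℝ)})).toReal) := by
  exact ⟨Pool.Agent.H.MP_86dbc5_an.analytic_sq, fun B hB => Pool.Agent.H.MP_86dbc5_an.hard hB⟩

end Pool.Agent.S05281
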