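import Pool.Statements.S05295
import Pool.Agent.H.MP_88e1ca_an.B

set_option autoImplicit false
open Pool Pool.MP_88e1ca_an

namespace Pool.Agent.S05295

theorem result :
    ∃ (k : ℕ) (X : Set (ℕ → Fin k)) (f : (ℕ → Fin k) → (ℕ → Fin k)),
      (∀ x : ℕ → Fin k, (∀ m : ℕ, ∃ y ∈ X, ∀ i < m, y i = x i) → x ∈ X) ∧
      (∀ x ∈ X, (fun i => x (i + 1)) ∈ X) ∧
      Set.MapsTo f X X ∧ Set.InjOn f X ∧ Set.SurjOn f X X ∧
      (∀ x ∈ X, f (fun i => x (i + 1)) = fun i => f x (i + 1)) ∧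
      (∃ r : ℕ, ∀ x ∈ X, ∀ y ∈ X, (∀ i ≤ r, x i = y i) → f x 0 = f y 0) ∧
      (∀ R : ℕ, ∃ n : ℕ, ∃ x ∈ X, ∃ y ∈ X,
        (∀ i ≤ R, x i = y i) ∧ f^[n] x 0 ≠ f^[n] y 0) ∧
      (∀ ε : ℝ, 0 < ε → ∃ N : ℕ, ∀ n ≥ N, ∃ r : ℕ, (r : ℝ) ≤ ε * n ∧
        ∀ x ∈ X, ∀ y ∈ X, (∀ i ≤ r, x i = y i) → f^[n] x 0 = f^[n] y 0) := by
  open Pool.Agent.H.MP_88e1ca_an in
  let e : A ≃ Fin (Fintype.card A) := Fintype.equivFin A
  let F : (ℕ → Fin (Fintype.card A)) → (ℕ → Fin (Fintype.card A)) :=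
    fun x i => e (f (fun j => e.symm (x j)) i)
  have hit : ∀ (n : ℕ) (x : ℕ → Fin (Fintype.card A)),
      F^[n] x = fun i => e (f^[n] (fun j => e.symm (x j)) i) := by
    intro n x
    induction n with
    | zero => funext i; simp
    | succ n ih =>
      rw [Function.iterate_succ_apply', ih, Function.iterate_succ_apply']
      funext i
      simp [F]
  refine ⟨Fintype.card A, {x | (fun j => e.symm (x j)) ∈ X}, F, ?_, ?_, ?_, ?_, ?_, ?_, ?_, ?_, ?_⟩
  · intro x h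
    apply X_closed
    intro m
    obtain ⟨y, hy, h1⟩ := h m
    exact ⟨_, hy, fun i hi => by rw [h1 i hi]⟩
  · intro x hx
    exact X_sh hx
  · intro x hx
    have := X_f hx
    simpa [F] using this
  · intro x _ y _ h
    have h1 : f (fun j => e.symm (x j)) = f (fun j => e.symm (y j)) := by
      funext i
      exact e.injective (congrFun h i)
    funext i
    exact e.symm.injective (congrFun (f_inj h1) i)
  · intro x hx
    refine ⟨fun i => e (g (fun j => e.symm (x j)) i), ?_, ?_⟩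
    · have := X_g hx
      simpa using this
    · funext i
      simp [F, f_g]
  · intro x _
    rfl
  · refine ⟨2, fun x _ y _ h => ?_⟩
    have h1 : Ag (1 + 2) (fun j => e.symm (x j)) (fun j => e.symm (y j)) :=
      fun i hi => congrArg e.symm (h i (by omega))
    exact congrArg e (f_ag h1 0 (by omega))
  · intro R
    obtain ⟨n, x, hx, y, hy, h1, h2⟩ := unbounded R
    refine ⟨n, fun i => e (x i), by simpa using hx, fun i => e (y i), by simpa using hy,
      fun i hi => congrArg e (h1 i hi), ?_⟩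
    rw [hit, hit]
    simpa using h2
  · intro ε hε
    obtain ⟨N, hN⟩ := sublinear ε hε
    refine ⟨N, fun n hn => ?_⟩
    obtain ⟨r, hr, h⟩ := hN n hn
    refine ⟨r, hr, fun x hx y hy hxy => ?_⟩
    rw [hit, hit]
    exact congrArg e (h _ hx _ hy fun i hi => by rw [hxy i hi])

end Pool.Agent.S05295
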