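import Pool.Statements.S05310
import Pool.Agent.H.MP_89f94c_an.I

set_option autoImplicit false
open Pool Pool.MP_89f94c_an

namespace Pool.Agent.S05310

open Filter Topology Set Pool.Agent.H.MP_89f94c_an

attribute [local irreducible] ml geo

set_option maxHeartbeats 300000

variable {a b c : B} {N : ℕ → ℕ} {C : ℝ}

theorem NE (X : Cx a N C) (pb : Sup (0 < ·) b) (pc : Sup (0 < ·) c) (e : a = b * c) (K : ℕ)
    (h : ∀ k ≥ K, tr a N c k = tr a N c (k + 1)) : False := by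
  have h1 : ∀ k ≥ K, tr a N c K = tr a N c k := fun k hk => by
    induction hk with
    | refl => rfl
    | step hk ih => rw [ih, h _ hk]
  have hK := (X.hh K).2.2.2.2.1
  have s : Sup (0 ≤ ·) (em (N K) c * αk a N K) := fun u hu => by
    by_contra d
    have u0 : (0 : ℝ) < -u := by exact_mod_cast neg_pos.mpr (not_le.mp d)
    refine hu ((mul_eq_zero.mp (norm_le_zero_iff.mp ?_ : tr a N c K u = 0)).resolve_left (ex_ne _ _))
    have t := (tendsto_pow_atTop_nhds_zero_of_lt_one (show (0 : ℝ) ≤ 1 / 16 by norm_num)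
      (by norm_num)).const_mul (‖c‖ * 6 / -u)
    rw [mul_zero] at t
    refine ge_of_tendsto t ((eventually_ge_atTop (K + 1)).mono fun k hk => ?_)
    obtain ⟨k, rfl⟩ := Nat.exists_eq_add_of_le' (show 1 ≤ k by omega)
    obtain ⟨-, a1, a2, -, a3, -⟩ := X.hh (k + 1)
    obtain ⟨-, -, -, -, -, a4, -, -, -, a5⟩ := X.hh k
    have a6 : (16 : ℝ) ^ (k + 1) ≤ Hk C (k + 1) := by
      rw [one_div, inv_pow, ← div_eq_inv_mul, le_div_iff₀ (by positivity)] at a2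
      have : (0 : ℝ) < 16 ^ (k + 1) := by positivity
      linarith
    have a7 : (16 : ℝ) ^ (k + 1) * 16 ^ (k + 1) ≤ N (k + 1) :=
      calc _ ≤ Hk C (k + 1) ^ 2 * 1 * 1 := by rw [sq, mul_one, mul_one]; gcongr
        _ ≤ Hk C (k + 1) ^ 50 * (k + 1) * N k ^ 2 := by
            gcongr
            · linarith
            · norm_num
            · simp
            · exact one_le_pow₀ a4
        _ ≤ _ := a5
    have a8 : Real.exp (N (k + 1) * u) ≤ (16 ^ (k + 1) * 16 ^ (k + 1) * -u : ℝ)⁻¹ := by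
      rw [show (N (k + 1) : ℝ) * u = -(N (k + 1) * -u) by ring, Real.exp_neg]
      exact inv_anti₀ (by positivity) ((mul_le_mul_of_nonneg_right a7 u0.le).trans
        (by linarith [Real.add_one_le_exp ((N (k + 1) : ℝ) * -u)]))
    rw [h1 _ (by omega : k + 1 ≥ K), tr, norm_mul, ex_norm]
    calc _ ≤ (16 ^ (k + 1) * 16 ^ (k + 1) * -u : ℝ)⁻¹ * (‖c‖ * (6 * 16 ^ (k + 1))) :=
          mul_le_mul a8 ((co_le _ _).trans (nm (em_le a3 _) (X.inv _).2)) (norm_nonneg _) (by positivity)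
      _ = _ := by rw [one_div, inv_pow]; field_simp
  have := (em_sup hK pb).mul s (R := (0 < ·)) fun _ _ a b => by linarith [a.1]
  rw [← mul_assoc, ← em_mul hK pb pc, ← e, (X.inv K).1] at this
  exact lt_irrefl _ (this 0 (by simp [co_one]))

theorem lam (X : Cx a N C) (m : ℕ) {l : ℚ} (hl : l = (N (m + 1) : ℚ)⁻¹ - (N m : ℚ)⁻¹) :
    l < 0 ∧ (N m : ℝ)⁻¹ / 2 ≤ ‖(l : ℂ)‖ ∧ ∀ r : ℝ, 0 ≤ r → ‖ex r l‖ ≤ 1 := by
  have p : 0 < (N m : ℚ)⁻¹ := inv_pos.mpr (by exact_mod_cast X.N0 m)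
  have := X.t8 m
  have l0 : l < 0 := by linarith
  have l1 : (l : ℝ) < 0 := by exact_mod_cast l0
  refine ⟨l0, ?_, fun r hr => by rw [ex_norm, Real.exp_le_one_iff]; nlinarith⟩
  rw [Complex.norm_ratCast, abs_of_neg l1]
  simpa using (Rat.cast_le (K := ℝ)).mpr (show (N m : ℚ)⁻¹ / 2 ≤ -l by linarith)

theorem S1 (X : Cx a N C) {k m : ℕ} (hk : k ≤ m) {l : ℚ}
    (hl : l = (N (m + 1) : ℚ)⁻¹ - (N m : ℚ)⁻¹) :
    ‖tA a N k l - l * if k = m then 1 / 16 else 0‖ ≤ ‖(l : ℂ)‖ * ((1 / 2) ^ k / 1000) := by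
  obtain ⟨-, h1, h2, -, h, -⟩ := X.hh k
  obtain ⟨g0, -, -, -, g4, g3, g5⟩ := numH h1 h2
  obtain ⟨l0, -, l1⟩ := lam X m hl
  have p : ∀ k, 0 < (N k : ℚ)⁻¹ := fun k => inv_pos.mpr (by exact_mod_cast X.N0 k)
  obtain ⟨hu, su⟩ := X.hu3 k
  obtain ⟨w, hw⟩ := al_D h hu
  have i := al_mul h (p k) g4 hu
  have e3 : em (N k) a = em (N k) (cut (Iic (N k : ℚ)⁻¹) a) + em (N k) (cut (Ioi (N k : ℚ)⁻¹) a) := by
    rw [← em_add h]; congr 1
    exact ext' fun u => by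
      simp only [map_add, co_cut, mem_Iic, mem_Ioi, ← not_le]
      by_cases c : u ≤ (N k : ℚ)⁻¹ <;> simp [c]
  have n1 : ‖em (N k) a * al (cut (Iic (N k : ℚ)⁻¹) a) ((1 / 16) ^ k) (N k : ℚ)⁻¹ (N k) - 1‖ ≤
      (1 / 2) ^ k / 2000 := by
    rw [e3, add_mul, i, add_sub_cancel_left]
    refine (nm (X.far k le_rfl).1 ((al_le g4 (by simp [h.ne']) hu).trans
      (le_trans (by gcongr; norm_num) g5))).trans ?_
    have : (1 / 16 : ℝ) ^ k ≤ (1 / 2) ^ k := by gcongr; norm_num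
    linarith
  have n2 : (1 / 2 : ℝ) ^ k ≤ 1 := pow_le_one₀ (by norm_num) (by norm_num)
  obtain ⟨g, g1, g2⟩ := logL (em_isD h _) (em_isD h a) i (X.inv k).1 hw (n1.trans (by linarith))
  obtain ⟨U, hU⟩ : ∃ U, U = uu (cut (Iic (N k : ℚ)⁻¹) a) ((1 / 16) ^ k) (N k : ℚ)⁻¹ (N k) := ⟨_, rfl⟩
  have d1 := (iw_D (γ := (1 / 16) ^ k) (t := (N k : ℚ)⁻¹) (ς := N k)).mul'
    (em_isD h (cut (Iic (N k : ℚ)⁻¹) a - (((1 / 16 : ℝ) ^ k : ℝ) : ℂ) • dl (N k : ℚ)⁻¹))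
  obtain ⟨U', hU'⟩ : ∃ U, U = (-((N k : ℚ)⁻¹ : ℚ) : ℂ) • iw ((1 / 16) ^ k) (N k : ℚ)⁻¹ (N k) *
    em (N k) (cut (Iic (N k : ℚ)⁻¹) a - (((1 / 16 : ℝ) ^ k : ℝ) : ℂ) • dl (N k : ℚ)⁻¹) +
    iw ((1 / 16) ^ k) (N k : ℚ)⁻¹ (N k) * emD (N k) (cut (Iic (N k : ℚ)⁻¹) a -
      (((1 / 16 : ℝ) ^ k : ℝ) : ℂ) • dl (N k : ℚ)⁻¹) := ⟨_, rfl⟩
  rw [← hU', ← uu, ← hU] at d1
  have e1 : emD (N k) (cut (Iic (N k : ℚ)⁻¹) a) * al (cut (Iic (N k : ℚ)⁻¹) a) ((1 / 16) ^ k)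
      (N k : ℚ)⁻¹ (N k) = (((N k : ℚ)⁻¹ : ℚ) : ℂ) • 1 + U' - U' * U * geo U := by
    have a1 := iw_mul h (p k) g4
    have a2 : emD (N k) ((((1 / 16 : ℝ) ^ k : ℝ) : ℂ) • dl (N k : ℚ)⁻¹) =
        (((N k : ℚ)⁻¹ : ℚ) : ℂ) • em (N k) ((((1 / 16 : ℝ) ^ k : ℝ) : ℂ) • dl (N k : ℚ)⁻¹) :=
      (em_isD h _).uniq (by
        rw [em_dl h (p k), smul_comm]; exact (rel_dl (fun u => (u : ℂ)) _).smul _)
    have a3 := geo_mul hu
    rw [al, ← hU]
    rw [← hU] at a3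
    rw [uu, em_sub h] at hU
    rw [em_sub h, emD_sub h, a2] at hU'
    generalize (((1 / 16 : ℝ) ^ k : ℝ) : ℂ) • dl (N k : ℚ)⁻¹ = D at *
    rw [neg_smul, Algebra.smul_def, Algebra.smul_def] at hU'
    rw [Algebra.smul_def]
    generalize geo U = G at *
    generalize algebraMap ℂ B _ = τ at *
    linear_combination (τ + U') * a3 - G * hU' - τ * G * hU + τ * G * a1
  rw [← hU] at su hu
  have su' := d1.sup su
  have t8 := X.t8 k
  have z1 : co l (U' * U * geo U) = 0 := Sup.zero (P := (· < l)) ((su'.mul su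
    (R := (· < l)) fun s t a b => by linarith [X.tle hk, p k, p (m + 1)]).mul
    (Sup.geo (su.mono fun u a => by linarith [p k]) hu) fun s t a b => by linarith) (lt_irrefl l)
  have z2 : ex (N k) l * co l U = if k = m then 1 / 16 else 0 := by
    split_ifs with d
    · subst d
      rw [hU, uu, X.cut3, iw, smul_mul_assoc, map_smul, co_dl_mul, co_em h,
        show l - -(N k : ℚ)⁻¹ = (N (k + 1) : ℚ)⁻¹ by rw [hl]; ring, if_pos (p _), co_cut,
        if_pos (mem_Iio.mpr (by linarith [p k])), X.val, hl, sub_eq_add_neg, ex_add]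
      have a1 : ex (N k) (N (k + 1) : ℚ)⁻¹ * ex (-N k) (N (k + 1) : ℚ)⁻¹ = 1 := by
        rw [ex_mul, add_neg_cancel, ex0]
      have a2 : ex (N k) (-(N k : ℚ)⁻¹) = ex (-N k) (N k : ℚ)⁻¹ := by simp [ex]
      have a3 := ex_ne (-N k) (N k : ℚ)⁻¹
      rw [a2, smul_eq_mul]
      generalize ex (-N k) (N k : ℚ)⁻¹ = x at *
      generalize ex (-N k) (N (k + 1) : ℚ)⁻¹ = y at *
      generalize ex (N k) (N (k + 1) : ℚ)⁻¹ = z at *
      push_cast
      field_simp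
      linear_combination (1 / 16) ^ k * a1
    · rw [su.zero (not_le.mpr (by
        linarith [X.tle (show k + 1 ≤ m by omega), p k, p (m + 1)])), mul_zero]
  have := g2 l
  rw [map_sub, e1, map_sub, map_add, map_smul, co_one, if_neg l0.ne, z1, d1 l] at this
  rw [← z2, tA, show ex (N k) l * co l (emD (N k) a * αk a N k) - l * (ex (N k) l * co l U) =
    l * (ex (N k) l * co l g) by simp at this ⊢; linear_combination ex (N k) l * this, norm_mul]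
  gcongr
  exact (nm (l1 _ h.le) (co_le g l)).trans (by linarith)

theorem S2 (X : Cx a N C) (m : ℕ) {l : ℚ} (hl : l = (N (m + 1) : ℚ)⁻¹ - (N m : ℚ)⁻¹) {x y : B}
    (hx : ‖((N (m + 1) : ℝ) : ℂ) • x‖ ≤ Hk C (m + 1)) (hy : ‖y‖ ≤ Hk C (m + 1)) :
    ‖ex (N (m + 1)) l * co l (x * y)‖ ≤ ‖(l : ℂ)‖ / 1000 := by
  obtain ⟨-, l2, l1⟩ := lam X m hl
  obtain ⟨-, h1, -, -, h, -⟩ := X.hh (m + 1)
  obtain ⟨-, -, -, -, h', a4, -, -, -, a5⟩ := X.hh m
  have := nm hx hy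
  rw [smul_mul_assoc, norm_smul, Complex.norm_real, Real.norm_of_nonneg h.le] at this
  have a1 : Hk C (m + 1) * Hk C (m + 1) * 2000 * N m ≤ N (m + 1) :=
    calc _ ≤ Hk C (m + 1) * Hk C (m + 1) * Hk C (m + 1) * N m := by gcongr; linarith
      _ = Hk C (m + 1) ^ 3 * 1 * N m := by ring
      _ ≤ Hk C (m + 1) ^ 50 * (m + 1) * N m ^ 2 := by
          gcongr
          · linarith
          · norm_num
          · simp
          · exact le_self_pow₀ a4 (by norm_num)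
      _ ≤ _ := a5
  have a2 : ‖x * y‖ * 2000 * N m ≤ 1 := le_of_mul_le_mul_left (by nlinarith) h
  refine (nm (l1 _ h.le) (co_le _ l)).trans (le_trans ?_ (div_le_div_of_nonneg_right l2 (by norm_num)))
  rw [one_mul, le_div_iff₀ (by norm_num), le_div_iff₀ (by norm_num), ← one_div, le_div_iff₀ h']
  linarith

theorem nofac (X : Cx a N C) (pb : Sup (0 < ·) b) (pc : Sup (0 < ·) c) (e : a = b * c)
    (n : 2 * (‖b‖ * ‖c‖) ≤ C) : False := by
  obtain ⟨j, hj⟩ := eventually_atTop.mp ((((T_tend b N X.all).mul_const ‖c‖).mul_const 12).eventually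
    (ge_mem_nhds (a := (Real.exp 255 * 10 ^ 5)⁻¹) (by rw [zero_mul, zero_mul]; positivity)))
  choose! ε h1 h2 using fun k hk => X.st1 pb pc e n k (hj k hk)
  choose q hq using X.dvd
  have fr : ∃ᶠ l in atTop, ε l ≠ ε (l + 1) := by
    rw [frequently_atTop]
    by_contra hc
    push Not at hc
    obtain ⟨K, hK⟩ := hc
    have : ∀ k ≥ max K j, ε k = ε (max K j) := fun k hk => by
      induction hk with
      | refl => rfl
      | step hk ih => rw [← hK _ (le_of_max_le_left hk), ih]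
    rcases h1 _ (le_max_right K j) with ⟨a1, -⟩ | ⟨a1, -⟩
    · exact NE X pb pc e (max K j) fun k hk => ((h1 k (le_of_max_le_right hk)).resolve_right fun d => by
        simpa [this k hk, a1] using d.1).2
    · exact NE X pc pb (e.trans (mul_comm _ _)) (max K j) fun k hk =>
        ((h1 k (le_of_max_le_right hk)).resolve_left fun d => by simpa [this k hk, a1] using d.1).2
  obtain ⟨k, ne, hk, sm⟩ := (fr.and_eventually ((eventually_ge_atTop j).and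
    ((((T_tend b (fun k => N (k + 1) * q (k + 1)) fun d hd => ((tendsto_add_atTop_nat 1).eventually
      (X.all d hd)).mono fun k h => h.mul_right _).mul_const ‖c‖).mul_const (6 * 16 ^ j)).eventually
      (ge_mem_nhds (a := 1 / 100 / 2) (by norm_num))))).exists
  obtain ⟨g, g1, g2⟩ := X.logT pb pc e j _ sm (by norm_num)
  obtain ⟨l, hl⟩ : ∃ l, l = (N (k + 1 + 1) : ℚ)⁻¹ - (N (k + 1) : ℚ)⁻¹ := ⟨_, rfl⟩
  obtain ⟨l0, -, l1⟩ := lam X _ hl
  have ε1 : ∀ i ≥ j, ‖ε i‖ ≤ 1 := fun i hi => by rcases h1 i hi with a | a <;> simp [a.1]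
  have u1 : ‖tb a N b c j l‖ ≤ ‖(l : ℂ)‖ / 200 := by
    have : ψ ((N (k + 1) * q (k + 1) : ℕ) : ℝ) l = -1 := by
      have a1 : (N (k + 1) : ℂ) ≠ 0 := by exact_mod_cast (X.N0 _).ne'
      have a2 : (q (k + 1) : ℂ) ≠ 0 := by
        have := X.N0 (k + 1 + 1)
        rw [hq] at this
        exact_mod_cast (Nat.pos_of_mul_pos_left this).ne'
      rw [ψ, ← Complex.exp_pi_mul_I, ← mul_one (Complex.exp (_ * Complex.I)),
        ← Complex.exp_int_mul_two_pi_mul_I (-q (k + 1)), ← Complex.exp_add, hl, hq (k + 1)]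
      congr 1
      push_cast; field_simp; ring
    have a1 := g2 l
    rw [map_sub, co_T, this] at a1
    rw [tb, show co l (be b c (N j) (αk a N j)) = l * co l g * (-1 / 2) by linear_combination -a1 / 2]
    refine (nm (l1 _ (X.hh j).2.2.2.2.1.le) (nm (nm le_rfl ((co_le g l).trans g1))
      (show _ ≤ 1 / 2 by norm_num))).trans_eq (by ring)
  have s1 : ∀ i ≤ k, ‖tA a N i l‖ ≤ ‖(l : ℂ)‖ * ((1 / 2) ^ i / 1000) := fun i hi => by
    simpa [show i ≠ k + 1 by omega] using S1 X (show i ≤ k + 1 by omega) hl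
  have u2 : ∀ i ≥ j, i ≤ k → ‖tb a N b c j l - tb a N b c i l‖ ≤
      ‖(l : ℂ)‖ * (3 * (1 - (1 / 2) ^ i) / 1000) := fun i hi => by
    induction hi with
    | refl =>
      have : (1 / 2 : ℝ) ^ j ≤ 1 := pow_le_one₀ (by norm_num) (by norm_num)
      intro; rw [sub_self, norm_zero]; have := sub_nonneg.mpr this; positivity
    | @step i hi ih =>
      intro h
      rw [show tb a N b c j l - tb a N b c (i + 1) l = tb a N b c j l - tb a N b c i l +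
        ε i * (tA a N i l - tA a N (i + 1) l) by linear_combination h2 i hi l]
      exact (na (ih (by omega)) (nm (ε1 i hi) (ns (s1 i (by omega)) (s1 (i + 1) h)))).trans_eq
        (by rw [Nat.succ_eq_add_one]; ring)
  obtain ⟨V, Z⟩ := X.zn pb pc e n (k + 1 + 1) (X.hh _).2.2.2.2.1
  have h := (X.hh (k + 1 + 1)).2.2.2.2.1
  have bc : 0 ≤ ‖b‖ * ‖c‖ := by positivity
  have u3 : ‖tb a N b c (k + 1 + 1) l‖ ≤ ‖(l : ℂ)‖ / 1000 := S2 X _ hl (by
    rw [← smul_mul_assoc]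
    exact (nm (emD_le h b h.le le_rfl) (em_le h c)).trans (by linarith [Z.nbc])) Z.n1
  have u4 : ‖tA a N (k + 1 + 1) l‖ ≤ ‖(l : ℂ)‖ / 1000 := S2 X _ hl
    ((emD_le h a h.le le_rfl).trans (X.nA.trans (by linarith [Z.E1.2.1]))) Z.n1
  have u5 := S1 X (le_refl (k + 1)) hl
  rw [if_pos rfl] at u5
  have ε2 : ‖ε (k + 1) - ε k‖ = 1 := by
    rcases h1 k hk with a | a <;> rcases h1 (k + 1) (by omega) with d | d <;> simp_all
  have u6 := ns (ns (ns (ns (ns u1 (u2 k hk le_rfl)) u3) (nm (ε1 k hk) (s1 k le_rfl)))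
    ((norm_neg _).trans_le (nm (ε1 (k + 1) (by omega)) u4))) (nm ε2.le u5)
  replace u6 : ‖(ε (k + 1) - ε k) * (l * (1 / 16))‖ ≤ _ := le_of_eq_of_le (congrArg norm (by
    linear_combination -h2 k hk l - h2 (k + 1) (by omega) l)) u6
  rw [norm_mul, ε2, norm_mul] at u6
  have l2 : 0 < ‖(l : ℂ)‖ := norm_pos_iff.mpr (by exact_mod_cast l0.ne)
  rw [pow_succ, show ‖(1 / 16 : ℂ)‖ = 1 / 16 by simp] at u6
  nlinarith [mul_pos l2 (show (0 : ℝ) < (1 / 2) ^ k by positivity)]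

theorem result :
    ¬ (∃ M : ℝ, 1 ≤ M ∧
      ∀ a : ℚ → ℂ, (∀ q : ℚ, q ≤ 0 → a q = 0) → Summable (fun q : ℚ => ‖a q‖) →
        ∃ b c : ℚ → ℂ,
          (∀ q : ℚ, q ≤ 0 → b q = 0) ∧ (∀ q : ℚ, q ≤ 0 → c q = 0) ∧
          Summable (fun q : ℚ => ‖b q‖) ∧ Summable (fun q : ℚ => ‖c q‖) ∧
          (∀ q : ℚ, a q = ∑' r : ℚ, b r * c (q - r)) ∧
          (∑' q : ℚ, ‖b q‖) * (∑' q : ℚ, ‖c q‖) ≤ M * ∑' q : ℚ, ‖a q‖) := by
  rintro ⟨M, hM, H⟩
  obtain ⟨a, N, X⟩ := exCx (10 ^ 8 * Real.exp 255 + 4 * M) (by linarith)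
  obtain ⟨b, c, b1, c1, b2, c2, e, n⟩ := H (fun u => co u a) (fun q hq => X.pos.zero hq.not_gt)
    (hs a).summable
  have hb : ∑' q, ‖b q‖ = ‖mk b b2‖ := (hs (mk b b2)).tsum_eq
  have hc : ∑' q, ‖c q‖ = ‖mk c c2‖ := (hs (mk c c2)).tsum_eq
  rw [(hs a).tsum_eq, hb, hc] at n
  refine nofac X (b := mk b b2) (c := mk c c2) (fun u hu => lt_of_not_ge fun h => hu (b1 u h))
    (fun u hu => lt_of_not_ge fun h => hu (c1 u h))
    (ext' fun u => (e u).trans (co_mul (mk b b2) (mk c c2) u).tsum_eq) ?_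
  nlinarith [X.nA, Real.exp_pos 255]

end Pool.Agent.S05310
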