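import Pool.Statements.S05311
import Pool.Agent.H.MP_0d212c.E

set_option autoImplicit false
open Pool Pool.MP_8a3d3f_an

namespace Pool.Agent.S05311

theorem result :
    ∀ (X : Type) [NormedAddCommGroup X] [NormedSpace ℝ X] [CompleteSpace X]
      (Y : Type) [NormedAddCommGroup Y] [NormedSpace ℝ Y] [CompleteSpace Y],
      (∃ N : X → ℝ, (∀ x y : X, N (x + y) ≤ N x + N y) ∧
          (∀ (t : ℝ) (x : X), N (t • x) = |t| * N x) ∧
          (∃ a b : ℝ, 0 < a ∧ 0 < b ∧ ∀ x : X, a * ‖x‖ ≤ N x ∧ N x ≤ b * ‖x‖) ∧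
          ∀ x : X, x ≠ 0 → DifferentiableAt ℝ N x) →
      (∃ f : X → Y, (∃ L : NNReal, LipschitzWith L f) ∧
          ∃ c : ℝ, 0 < c ∧ ∀ x : X, ∀ r : ℝ, 0 < r →
            Metric.ball (f x) (c * r) ⊆ f '' Metric.ball x r) →
      ∃ φ : Y → ℝ, (∀ y : Y, DifferentiableAt ℝ φ y) ∧ φ ≠ 0 ∧
          Bornology.IsBounded (Function.support φ) := by
  rintro X _ _ _ Y _ _ _ ⟨N, -, -, ⟨a, b, a0, b0, n3⟩, n4⟩ ⟨f, ⟨L, hf⟩, c, hc, hq⟩
  have h1 : Differentiable ℝ fun x => Real.smoothTransition (2 - N x) := fun x => by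
    rcases eq_or_ne x 0 with rfl | e
    · refine (differentiableAt_const (1 : ℝ)).congr_of_eventuallyEq ?_
      filter_upwards [Metric.ball_mem_nhds (0 : X) (inv_pos.2 b0)] with y hy
      rw [mem_ball_zero_iff, ← one_div, lt_div_iff₀ b0] at hy
      exact Real.smoothTransition.one_of_one_le (by linarith [(n3 y).2])
    · exact ((Real.smoothTransition.contDiff (n := 1)).differentiable one_ne_zero _).comp x
        ((n4 x e).const_sub 2)
  obtain ⟨g, g1, -, ⟨y, g2⟩, g3⟩ := (H.MP_0d212c.dent_of_quot h1 ⟨0, by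
      rw [Real.smoothTransition.one_of_one_le (by have := (n3 0).2; simp at this; linarith)]
      exact one_ne_zero⟩
    ((Metric.isBounded_closedBall (x := 0) (r := 2 / a)).subset fun x hx => by
      rw [mem_closedBall_zero_iff, le_div_iff₀ a0]
      by_contra c
      exact hx (Real.smoothTransition.zero_of_nonpos (by linarith [(n3 x).1]))) hf hc hq).frag.bump
  exact ⟨g, g1.differentiable one_ne_zero, fun e => g2 (congrFun e y), g3⟩

end Pool.Agent.S05311
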