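import Pool.Statements.S05316
-- import your own Pool.Agent.* helpers here
import Pool.Agent.H.MP_8a8b2f_an.A

set_option autoImplicit false
open Pool Pool.MP_8a8b2f_an

namespace Pool.Agent.S05316

theorem result :
    ¬ (∀ (H : Type) [NormedAddCommGroup H] [InnerProductSpace ℂ H] [CompleteSpace H]
      (T : ℝ → H →L[ℂ] H),
      T 0 = ContinuousLinearMap.id ℂ H →
      (∀ s t : ℝ, 0 ≤ s → 0 ≤ t → T (s + t) = (T s).comp (T t)) →
      (∀ x : H, ContinuousOn (fun t : ℝ => T t x) (Set.Ici 0)) →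
      (∀ t : ℝ, 0 ≤ t → ‖T t‖ ≤ 1) →
      ∀ m : ℝ, 0 < m →
      (∀ x y : H,
        Filter.Tendsto (fun h : ℝ => ((h : ℂ)⁻¹) • (T h x - x))
          (nhdsWithin 0 (Set.Ioi 0)) (nhds y) →
        ∀ μ : ℂ, μ.re < 0 → m * |μ.re| * ‖x‖ ≤ ‖μ • x - y‖) →
      ∃ m₁ : ℝ, 0 < m₁ ∧ ∀ t : ℝ, 0 ≤ t → ∀ x : H, m₁ * ‖x‖ ≤ ‖T t x‖) := by
  intro hyp
  open Pool.Agent.H.MP_8a8b2f_an in
  have h0 : T 0 = ContinuousLinearMap.id ℂ H := by
    ext1 f; exact Subtype.ext (S_zero f)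
  open Pool.Agent.H.MP_8a8b2f_an in
  have h1 : ∀ s t : ℝ, 0 ≤ s → 0 ≤ t → T (s + t) = (T s).comp (T t) := fun s t hs ht => by
    ext1 f; exact Subtype.ext (S_add hs ht f)
  open Pool.Agent.H.MP_8a8b2f_an in
  have h2 : ∀ x : H, ContinuousOn (fun t : ℝ => T t x) (Set.Ici 0) := fun x =>
    ((S_cont x).subtype_mk _).continuousOn
  open Pool.Agent.H.MP_8a8b2f_an in
  have h3 : ∀ t : ℝ, 0 ≤ t → ‖T t‖ ≤ 1 := fun t _ =>
    (T t).opNorm_le_bound zero_le_one fun f => S_one t f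
  open Pool.Agent.H.MP_8a8b2f_an in
  obtain ⟨m, hm, h⟩ := hyp H T h0 h1 h2 h3 (1 / 60) (by norm_num) (fun x y hxy μ hμ => by
    have hs : 0 < -μ.re := neg_pos.mpr hμ
    have a := key T h0 h1 h2 h3 x y hxy μ hμ (-μ.re)⁻¹ (by positivity)
    have b := low (-μ.re)⁻¹ (by positivity) x (Complex.exp (-μ * ((-μ.re)⁻¹ : ℝ))) (by
      rw [Complex.norm_exp, Complex.re_mul_ofReal, Complex.neg_re, mul_inv_cancel₀ hs.ne'])
    rw [mul_inv_cancel₀ hs.ne', ← div_eq_mul_inv, le_div_iff₀ hs] at a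
    have c := mul_le_mul_of_nonneg_right b hs.le
    have d := mul_le_mul_of_nonneg_right Real.exp_one_lt_d9.le (norm_nonneg (μ • x - y))
    rw [abs_of_neg hμ]
    nlinarith [norm_nonneg (μ • x - y)])
  open Pool.Agent.H.MP_8a8b2f_an in
  obtain ⟨x, hx, hx2⟩ := small (2 / m) (by positivity)
  have := (h (2 / m) (by positivity) x).trans hx2
  rw [hx, mul_one, le_div_iff₀ (by positivity), mul_add, mul_div_cancel₀ _ hm.ne'] at this
  linarith

end Pool.Agent.S05316
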