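import Pool.Statements.S05328
-- import your own Pool.Agent.* helpers here

set_option autoImplicit false
open Filter Topology
open Pool Pool.MP_8ba4a6_an

namespace Pool.Agent.S05328

theorem result :
    ¬ (∀ (f : ℝ → ℝ → ℝ) (xbar : ℝ),
      ContinuousOn (fun p : ℝ × ℝ => f p.1 p.2) (Set.Ioi (0:ℝ) ×ˢ Set.Ioi (0:ℝ)) →
      (∀ x y : ℝ, 0 < x → 0 < y → 0 < f x y) →
      (∀ x₁ x₂ y : ℝ, 0 < x₁ → x₁ ≤ x₂ → 0 < y → f x₂ y ≤ f x₁ y) →
      (∀ x y₁ y₂ : ℝ, 0 < x → 0 < y₁ → y₁ < y₂ → f x y₂ < f x y₁) →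
      (∀ x₁ x₂ : ℝ, 0 < x₁ → x₁ < x₂ → x₂ * f x₂ x₂ < x₁ * f x₁ x₁) →
      0 < xbar →
      f xbar xbar = 1 →
      (∀ y : ℝ, 0 < y → f y y = 1 → y = xbar) →
      (∀ ε : ℝ, 0 < ε → ∃ δ : ℝ, 0 < δ ∧
        ∀ x : ℕ → ℝ, 0 < x 0 → 0 < x 1 →
          (∀ n : ℕ, x (n + 2) = x (n + 1) * f (x (n + 1)) (x n)) →
          |x 0 - xbar| + |x 1 - xbar| < δ →
          ∀ n : ℕ, |x n - xbar| < ε) →
      (∃ γ : ℝ, 0 < γ ∧
        ∀ x : ℕ → ℝ, 0 < x 0 → 0 < x 1 →
          (∀ n : ℕ, x (n + 2) = x (n + 1) * f (x (n + 1)) (x n)) →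
          |x 0 - xbar| + |x 1 - xbar| < γ →
          Tendsto x atTop (𝓝 xbar)) →
      ∀ x : ℕ → ℝ, 0 < x 0 → 0 < x 1 →
        (∀ n : ℕ, x (n + 2) = x (n + 1) * f (x (n + 1)) (x n)) →
        Tendsto x atTop (𝓝 xbar)) := by
  intro h
  have hψ : ∀ a b : ℝ, 0 < a → a < b →
      max ((3 - b) / 2) (1 / (2 * b ^ 2)) < max ((3 - a) / 2) (1 / (2 * a ^ 2)) := by
    intro a b ha hab
    refine max_lt_max (by linarith) (one_div_lt_one_div_of_lt (by positivity) ?_)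
    nlinarith
  have hpos : ∀ y : ℝ, 0 < y → 0 < max ((3 - y) / 2) (1 / (2 * y ^ 2)) :=
    fun y hy => lt_max_of_lt_right (by positivity)
  have h1 : max ((3 - (1:ℝ)) / 2) (1 / (2 * 1 ^ 2)) = 1 := by norm_num
  have hloc : ∀ y : ℝ, |y - 1| < 1 / 4 → max ((3 - y) / 2) (1 / (2 * y ^ 2)) = (3 - y) / 2 := by
    intro y hy
    rw [abs_lt] at hy
    apply max_eq_left
    rw [div_le_iff₀ (by nlinarith)]
    have h2 : 9 / 16 ≤ y ^ 2 := by nlinarith
    nlinarith [mul_le_mul (show (7 / 8 : ℝ) ≤ (3 - y) / 2 by linarith) h2 (by norm_num)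
      (by linarith)]
  have key : ∀ (δ : ℝ) (x : ℕ → ℝ), δ ≤ 1 / 4 → 0 < x 0 → 0 < x 1 →
      (∀ n : ℕ, x (n + 2) = x (n + 1) *
        (max ((3 - x n) / 2) (1 / (2 * x n ^ 2)) / x (n + 1))) →
      |x 0 - 1| + |x 1 - 1| < δ → ∀ n, |x n - 1| < δ * 2 * (3 / 4) ^ n ∧ |x n - 1| < δ := by
    intro δ x hδ _ _ hx hd
    have a0 := abs_nonneg (x 0 - 1)
    have a1 := abs_nonneg (x 1 - 1)
    have : ∀ n, (|x n - 1| < δ * 2 * (3 / 4) ^ n ∧ |x n - 1| < δ) ∧
        (|x (n + 1) - 1| < δ * 2 * (3 / 4) ^ (n + 1) ∧ |x (n + 1) - 1| < δ) := by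
      intro n
      induction n with
      | zero => norm_num; refine ⟨⟨?_, ?_⟩, ?_, ?_⟩ <;> linarith
      | succ n ih =>
        refine ⟨ih.2, ?_⟩
        have hp : 0 < x (n + 1) := by have := abs_lt.1 ih.2.2; linarith
        have e : x (n + 1 + 1) - 1 = -(1 / 2) * (x n - 1) := by
          rw [hx n, hloc _ (ih.1.2.trans_le hδ)]; field_simp; ring
        rw [e, abs_mul]
        have b0 := abs_nonneg (x n - 1)
        have : |(-(1 / 2) : ℝ)| = 1 / 2 := by norm_num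
        rw [this, pow_succ, pow_succ]
        constructor <;> linarith [ih.1.1, ih.1.2]
    exact fun n => (this n).1
  have := h (fun x y => max ((3 - y) / 2) (1 / (2 * y ^ 2)) / x) 1
    (by
      refine ContinuousOn.div (ContinuousOn.sup (f := fun p : ℝ × ℝ => (3 - p.2) / 2) (g := fun p : ℝ × ℝ => 1 / (2 * p.2 ^ 2))
        (by fun_prop) ?_) (by fun_prop)
        (fun p hp => ne_of_gt hp.1)
      refine ContinuousOn.div (by fun_prop) (by fun_prop) (fun p hp => ?_)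
      have : (0:ℝ) < p.2 := hp.2
      positivity)
    (fun x y hx hy => div_pos (hpos y hy) hx)
    (fun a b y ha hab hy => div_le_div_of_nonneg_left (hpos y hy).le ha hab)
    (fun x a b hx ha hab => div_lt_div_of_pos_right (hψ a b ha hab) hx)
    (fun a b ha hab => by
      have hb : 0 < b := ha.trans hab
      rw [mul_div_cancel₀ _ ha.ne', mul_div_cancel₀ _ hb.ne']; exact hψ a b ha hab)
    one_pos (by norm_num)
    (fun y hy e => by
      rw [div_eq_one_iff_eq hy.ne'] at e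
      rcases lt_trichotomy y 1 with h | h | h
      · have := hψ y 1 hy h; linarith
      · exact h
      · have := hψ 1 y one_pos h; linarith)
    (fun ε hε => ⟨min ε (1 / 4), by positivity, fun x a b c d n =>
      (key _ x (min_le_right _ _) a b c d n).2.trans_le (min_le_left _ _)⟩)
    ⟨1 / 4, by norm_num, fun x a b c d => by
      rw [tendsto_iff_dist_tendsto_zero]
      refine squeeze_zero (fun _ => dist_nonneg) (fun n => (key _ x le_rfl a b c d n).1.le) ?_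
      simpa using (tendsto_pow_atTop_nhds_zero_of_lt_one (r := (3 / 4 : ℝ)) (by norm_num)
        (by norm_num)).const_mul (1 / 4 * 2 : ℝ)⟩
    (fun n => if n % 4 < 2 then 2 else 1 / 2) (by norm_num) (by norm_num)
    (fun n => by
      have : n % 4 = 0 ∨ n % 4 = 1 ∨ n % 4 = 2 ∨ n % 4 = 3 := by omega
      rcases this with h | h | h | h <;> simp [Nat.add_mod, h] <;> norm_num)
  obtain ⟨N, hN⟩ := Metric.tendsto_atTop.1 this (1 / 2) (by norm_num)
  have := hN (4 * N) (by omega)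
  norm_num [Real.dist_eq] at this

end Pool.Agent.S05328
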