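import Pool.Statements.S05340
import Pool.Agent.H.MP_8cad90_an.Main
import Pool.Agent.Lib.helper18.Renorm

set_option autoImplicit false
open Pool Pool.MP_8cad90_an

namespace Pool.Agent.S05340

theorem result :
    ¬ (∀ (𝕜 : Type) [RCLike 𝕜] (E : Type) [NormedAddCommGroup E] [NormedSpace 𝕜 E]
      [CompleteSpace E], ¬ FiniteDimensional 𝕜 E →
      ∃ G : Submodule 𝕜 E, 2 ≤ Module.rank 𝕜 G ∧
        ∃ x : E, x ≠ 0 ∧ ∀ g ∈ G, ∀ α : 𝕜, ‖g‖ ≤ ‖g + α • x‖) := by
  intro h
  open Pool.Agent.H.MP_8cad90_an in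
  obtain ⟨E, i1, i2, i3, e, he⟩ := Pool.Agent.Lib.helper18.exists_renorm ℝ HH (NN ph ee ww) 1 _
    one_pos good.NN_low good.NN_up good.NN_add NN_smul
  have hinf : ¬ FiniteDimensional ℝ E := fun hf =>
    Pool.Agent.H.MP_8cad90_an.HH_infinite (e.toLinearEquiv.finiteDimensional)
  obtain ⟨G, hG, x, hx, hgx⟩ := h ℝ E hinf
  obtain ⟨f, hf⟩ := exists_linearIndependent_of_le_rank (R := ℝ) (M := G) (n := 2)
    (by simpa using hG)
  have hpair : LinearIndependent ℝ ![f 0, f 1] := by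
    convert hf using 1
    ext i; fin_cases i <;> rfl
  rw [LinearIndependent.pair_iff] at hpair
  refine Pool.Agent.H.MP_8cad90_an.good.main (e (f 0)) (e (f 1)) (e x) ?_ ?_ ?_ ?_
  · intro s hs
    have h1 : e ((f 0 : E) + s • (f 1 : E)) = 0 := by rw [map_add, map_smul]; exact hs
    have h2 : (f 0 : E) + s • (f 1 : E) = 0 := e.injective (by rw [h1, map_zero])
    have h3 : (1 : ℝ) • f 0 + s • f 1 = 0 := by
      apply Subtype.ext
      simpa using h2
    exact one_ne_zero (hpair 1 s h3).1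
  · intro hs
    have h2 : (f 1 : E) = 0 := e.injective (by rw [hs, map_zero])
    have h3 : (0 : ℝ) • f 0 + (1 : ℝ) • f 1 = 0 := by
      apply Subtype.ext
      simpa using h2
    exact one_ne_zero (hpair 0 1 h3).2
  · intro hs
    exact hx (e.injective (by rw [hs, map_zero]))
  · intro s α
    have := hgx ((f 0 : E) + s • (f 1 : E)) (G.add_mem (f 0).2 (G.smul_mem s (f 1).2)) α
    rw [he, he] at this
    simpa using this

end Pool.Agent.S05340
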