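import Pool.Statements.S05384
import Pool.Agent.H.MP_908b95_an.F

set_option autoImplicit false
open Pool Pool.MP_908b95_an

namespace Pool.Agent.S05384

/-- The negation of the preceding statement: If T on a Hilbert space has spectrum in the closed disc and each Möbius image φ(T) equals ΓTΓ⁻¹ with ‖Γ‖, ‖Γ⁻¹‖ bounded by one constant C, then some invertible S makes STS⁻¹ homogeneous (every φ(STS⁻¹) unitarily equivalent to STS⁻¹). -/
theorem result :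
    ¬ (∀ (H : Type) [NormedAddCommGroup H] [InnerProductSpace ℂ H] [CompleteSpace H]
      (T : H →L[ℂ] H),
      spectrum ℂ T ⊆ Metric.closedBall (0 : ℂ) 1 →
      (∃ C : ℝ, ∀ (θ : ℝ) (a : ℂ), ‖a‖ < 1 →
        ∃ Γ : (H →L[ℂ] H)ˣ,
          ‖(Γ : H →L[ℂ] H)‖ ≤ C ∧
          ‖((Γ⁻¹ : (H →L[ℂ] H)ˣ) : H →L[ℂ] H)‖ ≤ C ∧
          Complex.exp ((θ : ℂ) * Complex.I) •
              ((T - a • (1 : H →L[ℂ] H)) *
                Ring.inverse ((1 : H →L[ℂ] H) - (starRingEnd ℂ a) • T))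
            = (Γ : H →L[ℂ] H) * T * ((Γ⁻¹ : (H →L[ℂ] H)ˣ) : H →L[ℂ] H)) →
      ∃ S : (H →L[ℂ] H)ˣ, ∀ (θ : ℝ) (a : ℂ), ‖a‖ < 1 →
        ∃ U ∈ unitary (H →L[ℂ] H),
          Complex.exp ((θ : ℂ) * Complex.I) •
              (((S : H →L[ℂ] H) * T * ((S⁻¹ : (H →L[ℂ] H)ˣ) : H →L[ℂ] H)
                  - a • (1 : H →L[ℂ] H)) *
                Ring.inverse ((1 : H →L[ℂ] H) - (starRingEnd ℂ a) •
                  ((S : H →L[ℂ] H) * T * ((S⁻¹ : (H →L[ℂ] H)ˣ) : H →L[ℂ] H))))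
            = U * ((S : H →L[ℂ] H) * T * ((S⁻¹ : (H →L[ℂ] H)ˣ) : H →L[ℂ] H)) * star U) := by
  intro h
  let E := lp (fun _ : ℕ => ℂ) 2
  let F := lp (fun _ : ℤ => ℂ) 2
  let e : HilbertBasis ℕ ℂ E := default
  let ε : HilbertBasis ℤ ℂ F := default
  obtain ⟨d⟩ := Pool.Agent.H.MP_908b95_an.nonempty_data e
  let s := Pool.Agent.H.MP_908b95_an.sqSplit E
  obtain ⟨C, hC⟩ := Pool.Agent.H.MP_908b95_an.TT_pos d s ε
  obtain ⟨X, hX⟩ := h (WithLp 2 (E × E)) (Pool.Agent.H.MP_908b95_an.TT d s)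
    (Pool.Agent.H.MP_908b95_an.TT_spec d s) ⟨C, fun θ a ha => by
      obtain ⟨Γ, h1, h2, h3, -⟩ := hC _ a (Complex.norm_exp_ofReal_mul_I θ) ha
      exact ⟨Γ, h1, h2, h3⟩⟩
  exact Pool.Agent.H.MP_908b95_an.not_homog d s ε X hX

end Pool.Agent.S05384
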