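import Pool.Statements.S05386
import Pool.Agent.H.MP_90924b_an.A

set_option autoImplicit false
open Pool Pool.MP_90924b_an

namespace Pool.Agent.S05386

theorem result :
    ¬ (∀ (N : ℕ) (ρ q c : ℝ), 0 < ρ → ρ < 1 → 0 < q → q < 1 → 0 < c →
    ∀ (e₀ : EuclideanSpace ℂ (Fin N)), ‖e₀‖ = 1 →
    ∀ (A : Set (EuclideanSpace ℂ (Fin N))), A.Countable → A ⊆ Metric.ball 0 1 →
    (∀ a ∈ A, ‖a‖ < ρ ∨
      (|(1 - inner ℂ e₀ a).im| ≤ c * (1 - inner ℂ e₀ a).re ∧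
        ‖a‖ ^ 2 - ‖inner ℂ e₀ a‖ ^ 2 ≤ q * (1 - ‖inner ℂ e₀ a‖ ^ 2) ∧
        (1 - inner ℂ e₀ a).re ≤ 1 / (c ^ 2 + 1))) →
    (∃ f : EuclideanSpace ℂ (Fin N) → ℂ,
      DifferentiableOn ℂ f (Metric.ball 0 1) ∧
      (∃ M : ℝ, ∀ z ∈ Metric.ball (0 : EuclideanSpace ℂ (Fin N)) 1, ‖f z‖ ≤ M) ∧
      (∃ z ∈ Metric.ball (0 : EuclideanSpace ℂ (Fin N)) 1, f z ≠ 0) ∧
      {z | z ∈ Metric.ball (0 : EuclideanSpace ℂ (Fin N)) 1 ∧ f z = 0} =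
        {z | z ∈ Metric.ball (0 : EuclideanSpace ℂ (Fin N)) 1 ∧
          ∃ a ∈ A, inner ℂ a z = (((‖a‖ ^ 2 : ℝ)) : ℂ)}) →
    Summable (fun a : A => 1 - ‖(a : EuclideanSpace ℂ (Fin N))‖ ^ 2)) := by
  intro h
  obtain ⟨A, h1, h2, h3, h4, h5⟩ := H.MP_90924b_an.main
  exact h5 (h 2 (3 / 4) (1 / 2) 1 (by norm_num) (by norm_num) (by norm_num) (by norm_num) one_pos
    _ (by simp) A h1 h2 h3 h4)

end Pool.Agent.S05386
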