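import Pool.Statements.S05388
import Pool.Agent.H.MP_90e313_an.C

set_option autoImplicit false
open Pool Pool.MP_90e313_an

namespace Pool.Agent.S05388

theorem result :
    ¬ (∀ (𝕜 : Type) [RCLike 𝕜] (E : Type) [NormedAddCommGroup E] [NormedSpace 𝕜 E] [CompleteSpace E],
      (∃ e : ℕ → E, ∀ x : E, ∃! a : ℕ → 𝕜,
          Filter.Tendsto (fun n : ℕ => ∑ i ∈ Finset.range n, a i • e i) Filter.atTop (nhds x)) →
      ∃ e : ℕ → E,
        (∀ x : E, ∃! a : ℕ → 𝕜,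
          Filter.Tendsto (fun n : ℕ => ∑ i ∈ Finset.range n, a i • e i) Filter.atTop (nhds x)) ∧
        ∀ (a : ℕ → 𝕜) (m n : ℕ), m ≤ n →
          ‖∑ i ∈ Finset.range m, a i • e i‖ ≤
            sInf {K : ℝ | ∃ f : ℕ → E,
                (∀ x : E, ∃! b : ℕ → 𝕜,
                  Filter.Tendsto (fun k : ℕ => ∑ i ∈ Finset.range k, b i • f i) Filter.atTop (nhds x)) ∧
                ∀ (b : ℕ → 𝕜) (p q : ℕ), p ≤ q →
                  ‖∑ i ∈ Finset.range p, b i • f i‖ ≤ K * ‖∑ i ∈ Finset.range q, b i • f i‖} *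
              ‖∑ i ∈ Finset.range n, a i • e i‖) := by
  intro h
  obtain ⟨f, h1, h2⟩ := h ℝ Pool.Agent.H.MP_90e313_an.E
    ⟨_, Pool.Agent.H.MP_90e313_an.basis 0⟩
  refine Pool.Agent.H.MP_90e313_an.no_mono f h1 fun a m n hmn =>
    (h2 a m n hmn).trans (mul_le_of_le_one_left (norm_nonneg _) ?_)
  exact Pool.Agent.H.MP_90e313_an.inf_le
    (fun K => ⟨_, Pool.Agent.H.MP_90e313_an.basis K, Pool.Agent.H.MP_90e313_an.const K⟩)
    Pool.Agent.H.MP_90e313_an.const_tend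

end Pool.Agent.S05388
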