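import Pool.Statements.S05406

set_option autoImplicit false
open Pool Pool.MP_91c8d1_an

namespace Pool.Agent.S05406

/-- States seen at one level: a time stamp and a word. -/
structure St where
  t : ℕ
  w : List Bool

instance : TopologicalSpace St := ⊥
instance : DiscreteTopology St := ⟨rfl⟩

/-- Points: a binary sequence and a finite binary word. -/
structure Pt where
  z : ℕ → Bool
  v : List Bool

def jj (n : ℕ) : ℕ := 2 ^ (2 * n + 2)

def bits (n : ℕ) (z : ℕ → Bool) : List Bool := List.ofFn (fun i : Fin (2 * n + 5) => z i)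

def S (n : ℕ) (x : Pt) : List Bool := (x.v ++ bits n x.z).drop (2 * (x.v.length - jj n))

def P (x : Pt) (n : ℕ) : St :=
  if x.v.length = 0 then ⟨0, bits n x.z⟩
  else if x.v.length < jj (n + 1) then ⟨x.v.length, S n x⟩
  else ⟨0, bits n (fun i => Nat.testBit x.v.length i)⟩

def F (b : Bool) (x : Pt) : Pt := ⟨x.z, b :: x.v⟩

def par (x : Pt) : Pt := ⟨x.z, x.v.tail⟩

open Classical in
noncomputable def lab (x : Pt) : Fin 4 :=
  if x.v.length = 0 then 0
  else if ∃ m, x.v.length + 1 = jj (m + 1) then 1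
  else if ∃ m, jj m ≤ x.v.length ∧ x.v.length < jj (m + 1) ∧ (S m x).head? = some true then 2
  else 3

lemma jj_mono : StrictMono jj := by
  intro a b h
  unfold jj
  exact Nat.pow_lt_pow_right (by norm_num) (by omega)

lemma jj_ge (n : ℕ) : 4 ≤ jj n := by
  have : jj 0 ≤ jj n := jj_mono.monotone (Nat.zero_le n)
  simpa [jj] using this

lemma lt_jj (n : ℕ) : n < jj n := by
  unfold jj
  have := Nat.lt_two_pow_self (n := 2 * n + 2)
  omega

lemma jj_succ (n : ℕ) : 2 * jj n + (2 * n + 5) + 1 ≤ jj (n + 1) := by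
  unfold jj
  have h1 : 2 ^ (2 * (n + 1) + 2) = 4 * 2 ^ (2 * n + 2) := by
    rw [show 2 * (n + 1) + 2 = (2 * n + 2) + 2 by ring, pow_add]; ring
  have h2 := Nat.lt_two_pow_self (n := 2 * n + 2)
  omega

lemma bits_length (n : ℕ) (z : ℕ → Bool) : (bits n z).length = 2 * n + 5 := by
  simp [bits]

lemma bits_eq_iff (n : ℕ) (z w : ℕ → Bool) :
    bits n z = bits n w ↔ ∀ i < 2 * n + 5, z i = w i := by
  unfold bits
  rw [List.ofFn_inj, funext_iff]
  constructor
  · intro h i hi
    exact h ⟨i, hi⟩
  · intro h i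
    exact h i i.2

lemma bits_test (n a b : ℕ) :
    bits n (fun i => Nat.testBit a i) = bits n (fun i => Nat.testBit b i) ↔
      a ≡ b [MOD 2 ^ (2 * n + 5)] := by
  rw [bits_eq_iff]
  unfold Nat.ModEq
  constructor
  · intro h
    apply Nat.eq_of_testBit_eq
    intro i
    rw [Nat.testBit_mod_two_pow, Nat.testBit_mod_two_pow]
    by_cases hi : i < 2 * n + 5
    · simp [hi, h i hi]
    · simp [hi]
  · intro h i hi
    have := congrArg (fun c => Nat.testBit c i) h
    simpa [Nat.testBit_mod_two_pow, hi] using this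

lemma S_length (n : ℕ) (x : Pt) :
    (S n x).length = x.v.length + (2 * n + 5) - 2 * (x.v.length - jj n) := by
  simp [S, bits_length]

lemma S_F_lt (n : ℕ) (b : Bool) (x : Pt) (h : x.v.length < jj n) : S n (F b x) = b :: S n x := by
  have h1 : x.v.length + 1 - jj n = 0 := by omega
  have h2 : x.v.length - jj n = 0 := by omega
  simp [S, F, h1, h2]

lemma S_F_ge (n : ℕ) (b : Bool) (x : Pt) (h : jj n ≤ x.v.length) :
    S n (F b x) = (S n x).tail := by
  have h1 : 2 * (x.v.length + 1 - jj n) = (2 * (x.v.length - jj n) + 1) + 1 := by omega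
  simp only [S, F, List.length_cons, List.cons_append]
  rw [h1, List.drop_succ_cons, List.tail_drop]

lemma F_len (b : Bool) (x : Pt) : (F b x).v.length = x.v.length + 1 := rfl

lemma St_eq (a b : ℕ) (u w : List Bool) : (⟨a, u⟩ : St) = ⟨b, w⟩ ↔ a = b ∧ u = w := by
  simp

lemma lab_zero (x : Pt) : lab x = 0 ↔ x.v.length = 0 := by
  unfold lab
  split_ifs with h1 h2 h3 <;> simp [h1]

lemma lab_one (x : Pt) : lab x = 1 ↔ ∃ m, x.v.length + 1 = jj (m + 1) := by
  unfold lab
  split_ifs with h1 h2 h3
  · simp only [h1]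
    constructor
    · intro h; exact absurd h (by decide)
    · rintro ⟨m, hm⟩
      have := jj_ge (m + 1)
      omega
  · simp [h2]
  · simp [h2]
  · simp [h2]

lemma level_unique {t m n : ℕ} (h1 : jj m ≤ t) (h2 : t < jj (m + 1)) (h3 : jj n ≤ t)
    (h4 : t < jj (n + 1)) : m = n := by
  have a : m < n + 1 := jj_mono.lt_iff_lt.1 (lt_of_le_of_lt h1 h4)
  have b : n < m + 1 := jj_mono.lt_iff_lt.1 (lt_of_le_of_lt h3 h2)
  omega

lemma lab_two (x : Pt) (n : ℕ) (h1 : jj n ≤ x.v.length) (h2 : x.v.length + 1 < jj (n + 1)) :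
    lab x = 2 ↔ (S n x).head? = some true := by
  have h0 := jj_ge n
  have hn : ¬ ∃ m, x.v.length + 1 = jj (m + 1) := by
    rintro ⟨m, hm⟩
    have a : n < m + 1 := jj_mono.lt_iff_lt.1 (by omega)
    have b : m + 1 < n + 1 := jj_mono.lt_iff_lt.1 (by omega)
    omega
  unfold lab
  rw [if_neg (by omega), if_neg hn]
  split_ifs with h3
  · obtain ⟨m, a, b, c⟩ := h3
    have := level_unique a b h1 (by omega)
    subst this
    simp [c]
  · constructor
    · intro h; exact absurd h (by decide)
    · intro h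
      exact absurd ⟨n, h1, by omega, h⟩ h3

lemma list_eq_iff (u w : List Bool) (hl : u.length = w.length)
    (hh : u.head? = some true ↔ w.head? = some true) : u = w ↔ u.tail = w.tail := by
  constructor
  · intro h; rw [h]
  · intro h
    cases u with
    | nil =>
      cases w with
      | nil => rfl
      | cons c w => simp at hl
    | cons a u =>
      cases w with
      | nil => simp at hl
      | cons c w =>
        simp only [List.head?_cons, Option.some.injEq, List.tail_cons] at hh h
        rw [h]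
        congr 1
        cases a <;> cases c <;> simp_all

lemma P_mid (x : Pt) (n : ℕ) (h0 : x.v.length ≠ 0) (h : x.v.length < jj (n + 1)) :
    P x n = ⟨x.v.length, S n x⟩ := by
  unfold P
  rw [if_neg h0, if_pos h]

lemma P_big (x : Pt) (n : ℕ) (h : jj (n + 1) ≤ x.v.length) :
    P x n = ⟨0, bits n (fun i => Nat.testBit x.v.length i)⟩ := by
  have := jj_ge (n + 1)
  unfold P
  rw [if_neg (by omega), if_neg (by omega)]

lemma P_zero (x : Pt) (n : ℕ) (h : x.v.length = 0) : P x n = ⟨0, bits n x.z⟩ := by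
  unfold P
  rw [if_pos h]

lemma not_modEq {n m : ℕ} (h : n < m) : ¬ jj (n + 1) ≡ jj (m + 1) [MOD 2 ^ (2 * n + 5)] := by
  rw [← bits_test, bits_eq_iff]
  intro hh
  have := hh (2 * n + 4) (by omega)
  simp only [jj, Nat.testBit_two_pow] at this
  have e1 : 2 * (n + 1) + 2 = 2 * n + 4 := by ring
  have e2 : 2 * (m + 1) + 2 ≠ 2 * n + 4 := by omega
  simp [e1] at this
  omega

lemma mixed (b : Bool) (x y : Pt) (n : ℕ) (hl : lab x = lab y) (hx0 : x.v.length ≠ 0)
    (hx : x.v.length < jj (n + 1)) (hy : jj (n + 1) ≤ y.v.length) :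
    P x n = P y n ↔ P (F b x) n = P (F b y) n := by
  rw [P_mid x n hx0 hx, P_big y n hy, P_big (F b y) n (by rw [F_len]; omega), St_eq]
  rcases Nat.lt_or_ge (x.v.length + 1) (jj (n + 1)) with h | h
  · rw [P_mid (F b x) n (by rw [F_len]; omega) (by rw [F_len]; omega), St_eq, F_len]
    simp [hx0]
  · rw [P_big (F b x) n (by rw [F_len]; omega), St_eq, bits_test, F_len, F_len]
    have e : x.v.length + 1 = jj (n + 1) := by omega
    have h1 : lab y = 1 := by rw [← hl, lab_one]; exact ⟨n, e⟩
    obtain ⟨m, hm⟩ := (lab_one y).1 h1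
    have hnm : n + 1 < m + 1 := jj_mono.lt_iff_lt.1 (by omega)
    have := not_modEq (n := n) (m := m) (by omega)
    rw [e, hm]
    simp [hx0, this]

lemma key (b : Bool) (x y : Pt) (n : ℕ) (hl : lab x = lab y) :
    P x n = P y n ↔ P (F b x) n = P (F b y) n := by
  have g0 := jj_ge n
  have g1 := jj_succ n
  by_cases hx0 : x.v.length = 0
  · have hy0 : y.v.length = 0 := by rw [← lab_zero, ← hl, lab_zero]; exact hx0
    rw [P_zero x n hx0, P_zero y n hy0, P_mid (F b x) n (by rw [F_len]; omega) (by rw [F_len]; omega),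
      P_mid (F b y) n (by rw [F_len]; omega) (by rw [F_len]; omega), St_eq, St_eq,
      S_F_lt n b x (by omega), S_F_lt n b y (by omega), F_len, F_len]
    have ex : x.v = [] := List.length_eq_zero_iff.1 hx0
    have ey : y.v = [] := List.length_eq_zero_iff.1 hy0
    simp [S, ex, ey]
  have hy0 : y.v.length ≠ 0 := by
    intro h
    apply hx0
    rw [← lab_zero, hl, lab_zero]; exact h
  rcases Nat.lt_or_ge x.v.length (jj (n + 1)) with hx | hx
  · rcases Nat.lt_or_ge y.v.length (jj (n + 1)) with hy | hy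
    · rw [P_mid x n hx0 hx, P_mid y n hy0 hy, St_eq]
      rcases Nat.lt_or_ge (x.v.length + 1) (jj (n + 1)) with h | h
      · rw [P_mid (F b x) n (by rw [F_len]; omega) (by rw [F_len]; omega)]
        rcases Nat.lt_or_ge (y.v.length + 1) (jj (n + 1)) with k | k
        · rw [P_mid (F b y) n (by rw [F_len]; omega) (by rw [F_len]; omega), St_eq, F_len, F_len]
          by_cases e : x.v.length = y.v.length
          · rcases Nat.lt_or_ge x.v.length (jj n) with l | l
            · rw [S_F_lt n b x l, S_F_lt n b y (by omega)]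
              simp
            · rw [S_F_ge n b x l, S_F_ge n b y (by omega)]
              have hh : (S n x).head? = some true ↔ (S n y).head? = some true := by
                rw [← lab_two x n l h, ← lab_two y n (by omega) k, hl]
              have hlen : (S n x).length = (S n y).length := by
                rw [S_length, S_length, e]
              rw [← list_eq_iff _ _ hlen hh]
              simp
          · simp [e]
        · rw [P_big (F b y) n (by rw [F_len]; omega), St_eq, F_len]
          have : x.v.length ≠ y.v.length := by omega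
          simp [this]
      · rw [P_big (F b x) n (by rw [F_len]; omega)]
        rcases Nat.lt_or_ge (y.v.length + 1) (jj (n + 1)) with k | k
        · rw [P_mid (F b y) n (by rw [F_len]; omega) (by rw [F_len]; omega), St_eq, F_len, F_len]
          have : x.v.length ≠ y.v.length := by omega
          simp [this]
        · rw [P_big (F b y) n (by rw [F_len]; omega), St_eq, F_len, F_len]
          have e : x.v.length = y.v.length := by omega
          have a1 : S n x = [] := by
            rw [← List.length_eq_zero_iff, S_length]; omega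
          have a2 : S n y = [] := by
            rw [← List.length_eq_zero_iff, S_length]; omega
          simp [e, a1, a2]
    · exact mixed b x y n hl hx0 hx hy
  · rcases Nat.lt_or_ge y.v.length (jj (n + 1)) with hy | hy
    · rw [eq_comm, mixed b y x n hl.symm hy0 hy hx, eq_comm]
    · rw [P_big x n hx, P_big y n hy, P_big (F b x) n (by rw [F_len]; omega),
        P_big (F b y) n (by rw [F_len]; omega), St_eq, St_eq, bits_test, bits_test, F_len, F_len]
      simp only [true_and]
      exact ⟨fun h => h.add_right 1, fun h => Nat.ModEq.add_right_cancel' 1 h⟩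

lemma det (x y : Pt) (n : ℕ) (h0 : x.v.length ≠ 0) (h1 : x.v.length ≤ jj n)
    (h : P y n = P x n) : y.v = x.v ∧ bits n y.z = bits n x.z := by
  have g1 := jj_succ n
  rw [P_mid x n h0 (by omega)] at h
  by_cases hy0 : y.v.length = 0
  · rw [P_zero y n hy0, St_eq] at h
    omega
  rcases Nat.lt_or_ge y.v.length (jj (n + 1)) with hy | hy
  · rw [P_mid y n hy0 hy, St_eq] at h
    obtain ⟨e, h⟩ := h
    have a1 : x.v.length - jj n = 0 := by omega
    have a2 : y.v.length - jj n = 0 := by omega
    simp only [S, a1, a2, mul_zero, List.drop_zero] at h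
    exact List.append_inj h e
  · rw [P_big y n hy, St_eq] at h
    omega

lemma Pt_ext (x y : Pt) (h1 : x.z = y.z) (h2 : x.v = y.v) : x = y := by
  cases x; cases y; simp_all

lemma aux_inj (x y : Pt) (h : P y = P x) (h0 : x.v.length ≠ 0) : y = x := by
  have hd : ∀ n, x.v.length ≤ n → y.v = x.v ∧ bits n y.z = bits n x.z := fun n hn =>
    det x y n h0 (by have := lt_jj n; omega) (congrFun h n)
  apply Pt_ext
  · funext i
    exact (bits_eq_iff _ _ _).1 (hd (x.v.length + i) (by omega)).2 i (by omega)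
  · exact (hd _ le_rfl).1

lemma P_inj : Function.Injective P := by
  intro x y h
  by_cases hx0 : x.v.length = 0
  · by_cases hy0 : y.v.length = 0
    · apply Pt_ext
      · funext i
        have := congrFun h i
        rw [P_zero x i hx0, P_zero y i hy0, St_eq, bits_eq_iff] at this
        exact this.2 i (by omega)
      · rw [List.length_eq_zero_iff.1 hx0, List.length_eq_zero_iff.1 hy0]
    · exact aux_inj y x h hy0
  · exact (aux_inj x y h.symm hx0).symm

noncomputable instance : MetricSpace Pt :=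
  MetricSpace.induced P P_inj (PiNat.metricSpace (E := fun _ : ℕ => St))

lemma pin_dist (a b c d : ℕ → St) (h : ∀ n, a n = b n ↔ c n = d n) :
    @dist _ (PiNat.dist (E := fun _ : ℕ => St)) a b = @dist _ (PiNat.dist (E := fun _ : ℕ => St)) c d := by
  by_cases e : a = b
  · have e2 : c = d := funext fun n => (h n).1 (congrFun e n)
    rw [e, e2, PiNat.dist_self, PiNat.dist_self]
  · have e2 : c ≠ d := fun e2 => e (funext fun n => (h n).2 (congrFun e2 n))
    rw [PiNat.dist_eq_of_ne e, PiNat.dist_eq_of_ne e2]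
    congr 1
    apply le_antisymm
    · by_contra hh
      exact PiNat.apply_firstDiff_ne e2 ((h _).1 (PiNat.apply_eq_of_lt_firstDiff (not_le.1 hh)))
    · by_contra hh
      exact PiNat.apply_firstDiff_ne e ((h _).2 (PiNat.apply_eq_of_lt_firstDiff (not_le.1 hh)))

lemma dist_F (b : Bool) (x y : Pt) (hl : lab x = lab y) : dist x y = dist (F b x) (F b y) :=
  pin_dist _ _ _ _ (fun n => key b x y n hl)

lemma nhds_iff (l : Filter Pt) (x : Pt) : l ≤ nhds x ↔ ∀ n, ∀ᶠ y in l, P y n = P x n := by
  have e : nhds x = Filter.comap P (nhds (P x)) := nhds_induced P x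
  rw [e, ← Filter.map_le_iff_le_comap]
  change Filter.Tendsto P l (nhds (P x)) ↔ _
  rw [tendsto_pi_nhds]
  simp only [nhds_discrete, Filter.tendsto_pure]

lemma ultra_bits (U : Ultrafilter Pt) (c : Pt → ℕ → Bool) :
    ∃ z : ℕ → Bool, ∀ n, ∀ᶠ y in (U : Filter Pt), bits n (c y) = bits n z := by
  have h : ∀ i, ∃ a : Bool, ∀ᶠ y in (U : Filter Pt), c y i = a := by
    intro i
    by_cases hh : ∀ᶠ y in (U : Filter Pt), c y i = true
    · exact ⟨true, hh⟩
    · refine ⟨false, ?_⟩
      rw [← Ultrafilter.eventually_not] at hh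
      exact hh.mono fun y hy => by simpa using hy
  choose z hz using h
  refine ⟨z, fun n => ?_⟩
  have : ∀ᶠ y in (U : Filter Pt), ∀ i ∈ Finset.range (2 * n + 5), c y i = z i :=
    (Filter.eventually_all_finset _).2 fun i _ => hz i
  refine this.mono fun y hy => ?_
  rw [bits_eq_iff]
  intro i hi
  exact hy i (Finset.mem_range.2 hi)

instance : CompactSpace Pt := by
  refine ⟨isCompact_iff_ultrafilter_le_nhds.2 fun U _ => ?_⟩
  by_cases hA : ∃ v : List Bool, ∀ᶠ y in (U : Filter Pt), y.v = v
  · obtain ⟨v, hv⟩ := hA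
    obtain ⟨z, hz⟩ := ultra_bits U (fun y => y.z)
    refine ⟨⟨z, v⟩, trivial, (nhds_iff _ _).2 fun n => ?_⟩
    filter_upwards [hv, hz n] with y h1 h2
    simp only [P, S, h1, h2]
  · obtain ⟨z, hz⟩ := ultra_bits U (fun y i => Nat.testBit y.v.length i)
    refine ⟨⟨z, []⟩, trivial, (nhds_iff _ _).2 fun n => ?_⟩
    have hb : ∀ᶠ y in (U : Filter Pt), jj (n + 1) ≤ y.v.length := by
      have hf := List.finite_length_lt Bool (jj (n + 1))
      have : ∀ᶠ y in (U : Filter Pt), ∀ v ∈ {l : List Bool | l.length < jj (n + 1)}, ¬ y.v = v := by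
        rw [Filter.eventually_all_finite hf]
        intro v _
        rw [Ultrafilter.eventually_not]
        exact fun h => hA ⟨v, h⟩
      refine this.mono fun y hy => ?_
      by_contra hh
      exact hy y.v (not_le.1 hh) rfl
    filter_upwards [hb, hz n] with y h1 h2
    rw [P_big y n h1, P_zero _ n rfl, h2]

lemma lab_congr (x y : Pt) (n : ℕ) (hv : y.v = x.v) (hb : bits n y.z = bits n x.z)
    (hn : x.v.length < jj n) : lab y = lab x := by
  have : ∀ m, jj m ≤ x.v.length → S m y = S m x := by
    intro m hm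
    have hmn : m < n := jj_mono.lt_iff_lt.1 (by omega)
    have : bits m y.z = bits m x.z := by
      rw [bits_eq_iff] at hb ⊢
      intro i hi
      exact hb i (by omega)
    simp only [S, hv, this]
  have e : (∃ m, jj m ≤ x.v.length ∧ x.v.length < jj (m + 1) ∧ (S m y).head? = some true) ↔
      (∃ m, jj m ≤ x.v.length ∧ x.v.length < jj (m + 1) ∧ (S m x).head? = some true) := by
    constructor
    · rintro ⟨m, a, b, c⟩
      exact ⟨m, a, b, by rw [← this m a]; exact c⟩
    · rintro ⟨m, a, b, c⟩
      exact ⟨m, a, b, by rw [this m a]; exact c⟩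
  rw [← hv] at e
  unfold lab
  rw [← hv]
  by_cases h1 : y.v.length = 0
  · rw [if_pos h1, if_pos h1]
  · rw [if_neg h1, if_neg h1]
    by_cases h2 : ∃ m, y.v.length + 1 = jj (m + 1)
    · rw [if_pos h2, if_pos h2]
    · rw [if_neg h2, if_neg h2]
      by_cases h3 : ∃ m, jj m ≤ y.v.length ∧ y.v.length < jj (m + 1) ∧ (S m y).head? = some true
      · rw [if_pos h3, if_pos (e.1 h3)]
      · rw [if_neg h3, if_neg (fun h => h3 (e.2 h))]

def piece (k : Fin 4) : Set Pt := {x | lab x = k}

lemma open_img (b : Bool) (k : Fin 4) : IsOpen (F b '' piece k) := by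
  rw [isOpen_iff_mem_nhds]
  rintro _ ⟨x, hx, rfl⟩
  have h1 := (nhds_iff _ _).1 (le_refl (nhds (F b x))) (x.v.length + 1)
  have g := lt_jj (x.v.length + 1)
  refine Filter.mem_of_superset h1 fun y hy => ?_
  obtain ⟨e1, e2⟩ := det (F b x) y (x.v.length + 1) (by rw [F_len]; omega) (by rw [F_len]; omega) hy
  refine ⟨par y, ?_, ?_⟩
  · change lab (par y) = k
    rw [lab_congr x (par y) (x.v.length + 1) (by simp [par, e1, F]) e2 (by omega)]
    exact hx
  · apply Pt_ext
    · rfl
    · simp [F, par, e1]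

lemma F_inj (b c : Bool) (x y : Pt) (h : F b x = F c y) : b = c ∧ x = y := by
  have h1 : x.z = y.z := by simpa [F] using congrArg Pt.z h
  have h2 : b :: x.v = c :: y.v := congrArg Pt.v h
  simp only [List.cons.injEq] at h2
  exact ⟨h2.1, Pt_ext x y h1 h2.2⟩

lemma disj (b : Bool) (i j : Fin 4) (h : i ≠ j) : Disjoint (F b '' piece i) (F b '' piece j) := by
  rw [Set.disjoint_left]
  rintro _ ⟨x, hx, rfl⟩ ⟨y, hy, e⟩
  have := (F_inj _ _ _ _ e).2
  subst this
  exact h (hx.symm.trans hy)

lemma par_F (b : Bool) (x : Pt) : par (F b x) = x := rfl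

lemma cong (b : Bool) (k : Fin 4) : Set.BijOn par (F b '' piece k) (piece k) ∧
    ∀ x ∈ F b '' piece k, ∀ y ∈ F b '' piece k, dist (par x) (par y) = dist x y := by
  refine ⟨⟨?_, ?_, ?_⟩, ?_⟩
  · rintro _ ⟨x, hx, rfl⟩
    exact hx
  · rintro _ ⟨x, _, rfl⟩ _ ⟨y, _, rfl⟩ h
    rw [par_F, par_F] at h
    rw [h]
  · intro x hx
    exact ⟨F b x, ⟨x, hx, rfl⟩, rfl⟩
  · rintro _ ⟨x, hx, rfl⟩ _ ⟨y, hy, rfl⟩
    exact dist_F b x y (hx.trans hy.symm)

theorem result :
    ¬ (∀ (X : Type) [MetricSpace X] [CompactSpace X] [Nonempty X]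
      [MeasurableSpace X] [BorelSpace X],
      ¬ ∃ (n m : ℕ) (A C : Fin n → Set X) (B D : Fin m → Set X)
          (f : Fin n → X → X) (g : Fin m → X → X),
        1 ≤ n ∧ 1 ≤ m ∧
        (∀ i j : Fin n, i ≠ j → Disjoint (A i) (A j)) ∧
        (∀ i j : Fin m, i ≠ j → Disjoint (B i) (B j)) ∧
        (∀ (i : Fin n) (j : Fin m), Disjoint (A i) (B j)) ∧
        (∀ i : Fin n, MeasurableSet (A i)) ∧
        (∀ j : Fin m, MeasurableSet (B j)) ∧
        (∀ i : Fin n, Set.BijOn (f i) (A i) (C i) ∧
          ∀ x ∈ A i, ∀ y ∈ A i, dist (f i x) (f i y) = dist x y) ∧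
        (∀ j : Fin m, Set.BijOn (g j) (B j) (D j) ∧
          ∀ x ∈ B j, ∀ y ∈ B j, dist (g j x) (g j y) = dist x y) ∧
        (⋃ i, C i) = Set.univ ∧
        (⋃ j, D j) = Set.univ) := by
  intro H
  letI : MeasurableSpace Pt := borel Pt
  haveI : BorelSpace Pt := ⟨rfl⟩
  haveI : Nonempty Pt := ⟨⟨fun _ => false, []⟩⟩
  have hc : (⋃ k, piece k) = Set.univ := by
    rw [Set.eq_univ_iff_forall]
    intro x
    exact Set.mem_iUnion.2 ⟨lab x, rfl⟩
  refine H Pt ⟨4, 4, fun k => F false '' piece k, piece, fun k => F true '' piece k, piece,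
    fun _ => par, fun _ => par, by norm_num, by norm_num, disj false, disj true, ?_,
    fun k => (open_img false k).measurableSet, fun k => (open_img true k).measurableSet,
    cong false, cong true, hc, hc⟩
  intro i j
  rw [Set.disjoint_left]
  rintro _ ⟨x, _, rfl⟩ ⟨y, _, e⟩
  exact absurd (F_inj _ _ _ _ e).1 (by decide)

end Pool.Agent.S05406
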