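import Pool.Statements.S05408
import Pool.Agent.H.MP_922b93_an.B

set_option autoImplicit false
open Pool Pool.MP_922b93_an

namespace Pool.Agent.S05408

theorem result :
    ¬ (∀ n : ℕ, 2 ≤ n →
      ∀ f : EuclideanSpace ℂ (Fin n) → ℂ,
        ContinuousOn f (Metric.closedBall 0 1) →
        DifferentiableOn ℂ f (Metric.ball 0 1) →
        f 0 = 0 →
        ∃ γ : ℝ → EuclideanSpace ℂ (Fin n), ∃ ζ : EuclideanSpace ℂ (Fin n), ∃ C : ℝ,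
          ‖ζ‖ = 1 ∧
          ContinuousOn γ (Set.Ico 0 1) ∧
          (∀ t ∈ Set.Ico (0 : ℝ) 1, γ t ∈ Metric.ball 0 1 ∧ f (γ t) = 0) ∧
          Filter.Tendsto γ (nhdsWithin 1 (Set.Iio 1)) (nhds ζ) ∧
          (∀ t ∈ Set.Ico (0 : ℝ) 1, ‖ζ - γ t‖ ≤ C * (1 - ‖γ t‖))) := by
  intro h
  obtain ⟨f, f1, f2, f3, f4, f5⟩ := H.MP_922b93_an.main
  obtain ⟨γ, ζ, C, h1, h2, h3, h4, h5⟩ := h 2 le_rfl f f1 f2 f3
  have e0 := Ico_mem_nhdsLT (show (0 : ℝ) < 1 by norm_num)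
  have e1 : f ζ = 0 := tendsto_nhds_unique ((f1 ζ (by simp [h1])).tendsto.comp
    (tendsto_nhdsWithin_iff.2 ⟨h4, Filter.eventually_of_mem e0 fun t ht =>
      Metric.ball_subset_closedBall (h3 t ht).1⟩))
    (tendsto_const_nhds.congr' (Filter.eventually_of_mem e0 fun t ht => (h3 t ht).2.symm))
  have e2 : 0 < ‖1 - ζ 0‖ := norm_pos_iff.2 (sub_ne_zero.2 fun e => by simpa [e1] using f4 ζ e.symm)
  have e3 : ∀ x : H.MP_922b93_an.E, 0 < ‖1 - x 0‖ → ContinuousAt H.MP_922b93_an.D x := fun x hx => by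
    unfold H.MP_922b93_an.D
    fun_prop (disch := positivity)
  have e4 : ∀ t ∈ Set.Ico (0 : ℝ) 1, ‖γ t‖ < 1 ∧ 0 < ‖1 - γ t 0‖ := fun t ht =>
    have := mem_ball_zero_iff.1 (h3 t ht).1
    ⟨this, norm_pos_iff.2 (sub_ne_zero.2 fun e => by
      simpa [← e] using (PiLp.norm_apply_le (γ t) 0).trans_lt this)⟩
  have e5 : 0 < H.MP_922b93_an.D (γ 0) := div_pos
    (by nlinarith [(e4 0 (by simp)).1, norm_nonneg (γ 0)]) (pow_pos (e4 0 (by simp)).2 2)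
  have e6 := tendsto_one_div_add_atTop_nhds_zero_nat (𝕜 := ℝ)
  obtain ⟨k, ⟨k1, k2⟩, k3⟩ := (((e6.eventually (ge_mem_nhds e2)).and (e6.eventually
    (ge_mem_nhds e5))).and (tendsto_natCast_atTop_atTop.eventually_ge_atTop C)).exists
  obtain ⟨m, m0, hm⟩ := f5 k
  obtain ⟨s, s0, s1, hs⟩ := hm ζ h1 k1
  have e7 := (e3 ζ e2).tendsto.comp h4
  rw [show H.MP_922b93_an.D ζ = 0 by simp [H.MP_922b93_an.D, h1]] at e7
  obtain ⟨t, t1, t2⟩ := ((e7.eventually (ge_mem_nhds s0)).and e0).exists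
  have e8 : Set.Icc 0 t ⊆ Set.Ico 0 1 := Set.Icc_subset_Ico_right t2.2
  obtain ⟨u, u1, u2⟩ := intermediate_value_Icc' t2.1 (f := H.MP_922b93_an.D ∘ γ)
    (fun u hu => (e3 _ (e4 u (e8 hu)).2).comp_continuousWithinAt ((h2 u (e8 hu)).mono e8))
    ⟨t1, s1.trans k2⟩
  have := hs _ (e4 u (e8 u1)).1 u2 ((h5 u (e8 u1)).trans (by nlinarith [(e4 u (e8 u1)).1]))
  rw [(h3 u (e8 u1)).2, norm_zero] at this
  exact this.not_gt m0

end Pool.Agent.S05408
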