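import Pool.Statements.S05424
import Pool.Agent.H.MP_355d06_an.B

set_option autoImplicit false
open scoped ENNReal
open Pool Pool.MP_9323ee_an

namespace Pool.Agent.S05424

theorem result :
    ¬ (∃ f : lp (fun _ : ℕ => ℝ) ∞ → lp (fun _ : ℝ => ℝ) ∞,
      (∃ K : NNReal, LipschitzWith K f) ∧
      (∃ K : NNReal, AntilipschitzWith K f) ∧
      ∀ x : lp (fun _ : ℕ => ℝ) ∞, ∀ ε : ℝ, 0 < ε →
        Set.Finite {γ : ℝ | ε ≤ |f x γ|}) := by
  rintro ⟨f, ⟨K, h1⟩, ⟨L, h2⟩, h3⟩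
  have e := (lpBCFₗᵢ (α := ℕ) ℝ ℝ).symm.isometry.dist_eq
  refine H.MP_355d06_an.nc (fun x => f ((lpBCFₗᵢ ℝ ℝ).symm x)) (fun x => h3 _)
    (fun R => ⟨K * R, fun x y h i => ?_⟩) fun S => ⟨L * S, fun x y h => ?_⟩
  · refine (lp.norm_apply_le_norm ENNReal.top_ne_zero (f _ - f _) i).trans ?_
    rw [← dist_eq_norm]
    exact (h1.dist_le_mul _ _).trans (by rw [e]; gcongr)
  · rw [← e]
    refine (h2.le_mul_dist _ _).trans ?_
    gcongr
    rw [dist_eq_norm]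
    exact lp.norm_le_of_forall_le ((abs_nonneg _).trans (h 0)) h

end Pool.Agent.S05424
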