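import Pool.Statements.S05428
-- import your own Pool.Agent.* helpers here

set_option autoImplicit false
open Pool Pool.MP_935ebb_an

namespace Pool.Agent.S05428

open Filter Topology

theorem mean_of_locFin (G : Type) [Group G]
    (hG : ∀ s : Finset G, ∃ K : Subgroup G, (K : Set G).Finite ∧ (s : Set G) ⊆ K) :
    ∃ μ : Set G → ℝ, (∀ A, 0 ≤ μ A) ∧ μ Set.univ = 1 ∧
        (∀ A B : Set G, Disjoint A B → μ (A ∪ B) = μ A + μ B) ∧
        (∀ (g : G) (A : Set G), μ ((fun x => g * x) '' A) = μ A) := by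
  classical
  choose K hK hsK using hG
  let U : Ultrafilter (Finset G) := Ultrafilter.of atTop
  have hU : (U : Filter (Finset G)) ≤ atTop := Ultrafilter.of_le _
  let d : Set G → Finset G → ℝ := fun A s => ((A ∩ K s).ncard : ℝ) / ((K s : Set G).ncard : ℝ)
  have hpos : ∀ s, (0 : ℝ) < ((K s : Set G).ncard : ℝ) := fun s => by
    exact_mod_cast (Set.ncard_pos (hK s)).2 ⟨1, (K s).one_mem⟩
  have hex : ∀ A, ∃ c, Tendsto (d A) U (𝓝 c) := by
    intro A
    have h1 : ∀ s, d A s ∈ Set.Icc (0 : ℝ) 1 := by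
      intro s
      refine ⟨by positivity, ?_⟩
      rw [div_le_one (hpos s)]
      exact_mod_cast Set.ncard_le_ncard Set.inter_subset_right (hK s)
    obtain ⟨c, _, hc⟩ := isCompact_Icc.ultrafilter_le_nhds (U.map (d A))
      (by rw [le_principal_iff]; exact Filter.mem_map.2 (Eventually.of_forall h1))
    exact ⟨c, hc⟩
  choose μ hμ using hex
  refine ⟨μ, fun A => ge_of_tendsto' (hμ A) (fun s => by positivity), ?_, ?_, ?_⟩
  · refine tendsto_nhds_unique (hμ _) ?_
    have : d Set.univ = fun _ => 1 := by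
      ext s; simp only [d, Set.univ_inter]; exact div_self (hpos s).ne'
    rw [this]; exact tendsto_const_nhds
  · intro A B hAB
    refine tendsto_nhds_unique (hμ _) ?_
    have : d (A ∪ B) = fun s => d A s + d B s := by
      ext s
      simp only [d]
      rw [Set.union_inter_distrib_right, Set.ncard_union_eq
        (hAB.mono Set.inter_subset_left Set.inter_subset_left)
        ((hK s).subset Set.inter_subset_right) ((hK s).subset Set.inter_subset_right)]
      push_cast; ring
    rw [this]; exact (hμ A).add (hμ B)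
  · intro g A
    refine tendsto_nhds_unique (hμ _) ((hμ A).congr' ?_)
    filter_upwards [hU (eventually_ge_atTop {g})] with s hs
    have hg : g ∈ K s := hsK s (hs (Finset.mem_singleton_self g))
    have : (fun x => g * x) '' A ∩ K s = (fun x => g * x) '' (A ∩ K s) := by
      ext x
      constructor
      · rintro ⟨⟨a, ha, rfl⟩, h2⟩
        exact ⟨a, ⟨ha, by simpa using (K s).mul_mem ((K s).inv_mem hg) h2⟩, rfl⟩
      · rintro ⟨a, ⟨ha, h2⟩, rfl⟩
        exact ⟨⟨a, ha, rfl⟩, (K s).mul_mem hg h2⟩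
    simp only [d]
    rw [this, Set.ncard_image_of_injective _ (mul_right_injective g)]

/-- the group: a central extension of an elementary abelian 2-group -/
@[ext] structure G where
  v : ℕ → ZMod 2
  a : ℕ × ℕ → ZMod 2

/-- the cocycle -/
def t (v w : ℕ → ZMod 2) : ℕ × ℕ → ZMod 2 := fun p => v p.1 * w p.2

instance : Group G where
  mul x y := ⟨x.v + y.v, x.a + y.a + t x.v y.v⟩
  one := ⟨0, 0⟩
  inv x := ⟨-x.v, -x.a + t x.v x.v⟩
  mul_assoc x y z := by
    apply G.ext
    · exact add_assoc _ _ _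
    · show x.a + y.a + t x.v y.v + z.a + t (x.v + y.v) z.v =
        x.a + (y.a + z.a + t y.v z.v) + t x.v (y.v + z.v)
      ext p; simp [t]; ring
  one_mul x := by
    apply G.ext
    · exact zero_add _
    · show 0 + x.a + t 0 x.v = x.a
      ext p; simp [t]
  mul_one x := by
    apply G.ext
    · exact add_zero _
    · show x.a + 0 + t x.v 0 = x.a
      ext p; simp [t]
  inv_mul_cancel x := by
    apply G.ext
    · exact neg_add_cancel _
    · show -x.a + t x.v x.v + x.a + t (-x.v) x.v = 0
      ext p; simp only [t, Pi.add_apply, Pi.neg_apply, Pi.zero_apply]; ring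

theorem mul_v (x y : G) : (x * y).v = x.v + y.v := rfl
theorem mul_a (x y : G) : (x * y).a = x.a + y.a + t x.v y.v := rfl
theorem one_v : (1 : G).v = 0 := rfl

theorem locFin (s : Finset G) : ∃ K : Subgroup G, (K : Set G).Finite ∧ (s : Set G) ⊆ K := by
  let V : Submodule (ZMod 2) (ℕ → ZMod 2) := Submodule.span _ (G.v '' s)
  have hV : (V : Set (ℕ → ZMod 2)).Finite := by
    have : Module.Finite (ZMod 2) V := Module.Finite.span_of_finite _ (s.finite_toSet.image _)
    exact Set.finite_coe_iff.1 (Module.finite_of_finite (ZMod 2))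
  let W : Submodule (ZMod 2) (ℕ × ℕ → ZMod 2) := Submodule.span _ (G.a '' s ∪ Set.image2 t V V)
  have hW : (W : Set (ℕ × ℕ → ZMod 2)).Finite := by
    have : Module.Finite (ZMod 2) W :=
      Module.Finite.span_of_finite _ ((s.finite_toSet.image _).union (hV.image2 _ hV))
    exact Set.finite_coe_iff.1 (Module.finite_of_finite (ZMod 2))
  have ht : ∀ v ∈ V, ∀ w ∈ V, t v w ∈ W := fun v hv w hw =>
    Submodule.subset_span (Or.inr (Set.mem_image2_of_mem hv hw))
  refine ⟨{ carrier := {x | x.v ∈ V ∧ x.a ∈ W}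
            mul_mem' := fun {x y} hx hy =>
              ⟨V.add_mem hx.1 hy.1, W.add_mem (W.add_mem hx.2 hy.2) (ht _ hx.1 _ hy.1)⟩
            one_mem' := ⟨V.zero_mem, W.zero_mem⟩
            inv_mem' := fun {x} hx =>
              ⟨V.neg_mem hx.1, W.add_mem (W.neg_mem hx.2) (ht _ hx.1 _ hx.1)⟩ }, ?_, ?_⟩
  · refine (hV.image2 G.mk hW).subset ?_
    rintro ⟨v, a⟩ ⟨h1, h2⟩
    exact Set.mem_image2_of_mem h1 h2
  · intro x hx
    exact ⟨Submodule.subset_span ⟨x, hx, rfl⟩, Submodule.subset_span (Or.inl ⟨x, hx, rfl⟩)⟩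

theorem comm_v {x y : G} (h : x * y = y * x) : x.v = 0 ∨ y.v = 0 ∨ x.v = y.v := by
  have h1 : t x.v y.v = t y.v x.v := by
    have := congrArg G.a h
    rw [mul_a, mul_a, add_comm y.a] at this
    exact add_left_cancel this
  by_contra hc
  push Not at hc
  obtain ⟨hx, hy, hxy⟩ := hc
  obtain ⟨i, hi⟩ := Function.ne_iff.1 hx
  obtain ⟨j, hj⟩ := Function.ne_iff.1 hy
  obtain ⟨k, hk⟩ := Function.ne_iff.1 hxy
  have a1 := congrFun h1 (i, k)
  have a2 := congrFun h1 (j, k)
  have a3 := congrFun h1 (i, j)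
  simp only [t, Pi.zero_apply] at a1 a2 a3 hi hj
  revert a1 a2 a3 hi hj hk
  generalize x.v i = p1
  generalize x.v j = p2
  generalize x.v k = p3
  generalize y.v i = q1
  generalize y.v j = q2
  generalize y.v k = q3
  revert p1 p2 p3 q1 q2 q3
  decide

/-- sign character -/
def sg (c : ZMod 2) : ℂ := if c = 0 then 1 else -1

theorem sg_add (a b : ZMod 2) : sg (a + b) = sg a * sg b := by
  have h : (1 + 1 : ZMod 2) = 0 := rfl
  have hc : ∀ c : ZMod 2, c = 0 ∨ c = 1 := by decide
  rcases hc a with rfl | rfl <;> rcases hc b with rfl | rfl <;> simp [sg, h]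

theorem sg_norm (a : ZMod 2) : ‖sg a‖ = 1 := by unfold sg; split_ifs <;> simp

/-- the algebra -/
abbrev L : Type := lp (fun _ : G => ℂ) 1

theorem summ (z : L) : Summable (fun p => ‖z p‖) := by
  have := (lp.memℓp z).summable (by simp)
  simpa using this

theorem norm_eq (z : L) : ‖z‖ = ∑' p, ‖z p‖ := by
  rw [lp.norm_eq_tsum_rpow (by simp)]; simp

theorem summ' (z : L) (c : G → ℂ) (hc : ∀ x, ‖c x‖ ≤ 1) : Summable (fun p => ‖z p * c p‖) :=
  Summable.of_nonneg_of_le (fun _ => norm_nonneg _)
    (fun p => by rw [norm_mul]; exact mul_le_of_le_one_right (norm_nonneg _) (hc p)) (summ z)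

/-- pairing with a bounded function -/
noncomputable def pair (c : G → ℂ) (hc : ∀ x, ‖c x‖ ≤ 1) : L →L[ℂ] ℂ :=
  LinearMap.mkContinuous
    { toFun := fun z => ∑' x, z x * c x
      map_add' := fun y z => by
        rw [← Summable.tsum_add (summ' y c hc).of_norm (summ' z c hc).of_norm]
        simp [add_mul]
      map_smul' := fun a z => by
        simp [← tsum_mul_left, mul_assoc] } 1 (by
      intro z
      rw [one_mul, norm_eq]
      refine (norm_tsum_le_tsum_norm (summ' z c hc)).trans ?_
      exact Summable.tsum_le_tsum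
        (fun p => by rw [norm_mul]; exact mul_le_of_le_one_right (norm_nonneg _) (hc p))
        (summ' z c hc) (summ z))

theorem pair_apply (c : G → ℂ) (hc : ∀ x, ‖c x‖ ≤ 1) (z : L) : pair c hc z = ∑' x, z x * c x := rfl

open Classical in
theorem pair_single (c : G → ℂ) (hc : ∀ x, ‖c x‖ ≤ 1) (g : G) :
    pair c hc (lp.single 1 g (1 : ℂ)) = c g := by
  rw [pair_apply, tsum_eq_single g]
  · rw [lp.single_apply_self, one_mul]
  · intro x hx; rw [lp.single_apply_ne _ _ _ hx, zero_mul]

/-- the characters -/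
noncomputable def φ (i : ℕ) : L →L[ℂ] ℂ := pair (fun x => sg (x.v i)) (fun _ => (sg_norm _).le)

theorem φ_mul (i : ℕ) (f g h : L) (hh : ∀ x : G, h x = ∑' y : G, f y * g (y⁻¹ * x)) :
    φ i h = φ i f * φ i g := by
  have s1 := summ' f (fun x => sg (x.v i)) (fun _ => (sg_norm _).le)
  have s2 := summ' g (fun x => sg (x.v i)) (fun _ => (sg_norm _).le)
  let e : G × G ≃ G × G :=
    { toFun := fun p => (p.2, p.2⁻¹ * p.1)
      invFun := fun p => (p.1 * p.2, p.1)
      left_inv := fun p => by simp
      right_inv := fun p => by simp }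
  have s3 := summable_mul_of_summable_norm s1 s2
  simp only [φ, pair_apply]
  rw [tsum_mul_tsum_of_summable_norm s1 s2, ← e.tsum_eq]
  refine Eq.trans ?_ (e.summable_iff.2 s3).tsum_prod.symm
  congr 1
  ext x
  rw [hh, ← tsum_mul_right]
  congr 1
  ext y
  have : sg (x.v i) = sg (y.v i) * sg ((y⁻¹ * x).v i) := by
    rw [← sg_add]
    congr 1
    have : x = y * (y⁻¹ * x) := by simp
    conv_lhs => rw [this, mul_v]
    rfl
  simp only [e, Equiv.coe_fn_mk, Function.comp]
  rw [this]; ring

/-- all characters together -/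
noncomputable def Φ : L →ₗ[ℂ] (ℕ → ℂ) := LinearMap.pi (fun i => (φ i).toLinearMap)

theorem mem_I (f : L) : f ∈ LinearMap.ker Φ ↔ ∀ i, φ i f = 0 := by
  simp [Φ, funext_iff]

theorem result :
    ¬ (∀ (G : Type) [Group G],
      (∃ μ : Set G → ℝ, (∀ A, 0 ≤ μ A) ∧ μ Set.univ = 1 ∧
        (∀ A B : Set G, Disjoint A B → μ (A ∪ B) = μ A + μ B) ∧
        (∀ (g : G) (A : Set G), μ ((fun x => g * x) '' A) = μ A)) →
      ∀ I : Submodule ℂ (lp (fun _ : G => ℂ) 1),
        IsClosed (I : Set (lp (fun _ : G => ℂ) 1)) →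
        (∀ f g : lp (fun _ : G => ℂ) 1, g ∈ I → ∀ h : lp (fun _ : G => ℂ) 1,
          (∀ x : G, h x = ∑' y : G, f y * g (y⁻¹ * x)) → h ∈ I) →
        (∀ f g : lp (fun _ : G => ℂ) 1, g ∈ I → ∀ h : lp (fun _ : G => ℂ) 1,
          (∀ x : G, h x = ∑' y : G, g y * f (y⁻¹ * x)) → h ∈ I) →
        (∀ H : Subgroup G, (∀ a ∈ H, ∀ b ∈ H, a * b = b * a) →
          ∃ s : Finset (lp (fun _ : G => ℂ) 1),
            (∀ v ∈ s, ∀ x : G, x ∉ H → v x = 0) ∧
            ∀ f : lp (fun _ : G => ℂ) 1, (∀ x : G, x ∉ H → f x = 0) →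
              f ∈ I ⊔ Submodule.span ℂ (s : Set (lp (fun _ : G => ℂ) 1))) →
        FiniteDimensional ℂ (lp (fun _ : G => ℂ) 1 ⧸ I)) := by
  classical
  intro h
  have hfin := h G (mean_of_locFin G locFin) (LinearMap.ker Φ) (by
      have : ((LinearMap.ker Φ : Submodule ℂ L) : Set L) = ⋂ i, {f | φ i f = 0} := by
        ext f; simp only [SetLike.mem_coe, mem_I, Set.mem_iInter, Set.mem_ofPred_eq]
      rw [this]
      exact isClosed_iInter (fun i => isClosed_eq (φ i).continuous continuous_const))
    (by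
      intro f g hg k hk
      rw [mem_I] at hg ⊢
      intro i; rw [φ_mul i f g k hk, hg i, mul_zero])
    (by
      intro f g hg k hk
      rw [mem_I] at hg ⊢
      intro i; rw [φ_mul i g f k hk, hg i, zero_mul])
    (by
      intro H hH
      obtain ⟨u, hu, hHu⟩ : ∃ u ∈ H, ∀ x ∈ H, x.v = 0 ∨ x.v = u.v := by
        by_cases h0 : ∀ x ∈ H, x.v = 0
        · exact ⟨1, H.one_mem, fun x hx => Or.inl (h0 x hx)⟩
        · push Not at h0
          obtain ⟨u, hu, hu0⟩ := h0
          refine ⟨u, hu, fun x hx => ?_⟩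
          rcases comm_v (hH x hx u hu) with h1 | h1 | h1
          · exact Or.inl h1
          · exact absurd h1 hu0
          · exact Or.inr h1
      refine ⟨{lp.single 1 (1 : G) (1 : ℂ), lp.single 1 u (1 : ℂ)}, ?_, ?_⟩
      · intro v hv x hx
        simp only [Finset.mem_insert, Finset.mem_singleton] at hv
        rcases hv with rfl | rfl
        · exact lp.single_apply_ne _ _ _ (fun e => hx (e ▸ H.one_mem))
        · exact lp.single_apply_ne _ _ _ (fun e => hx (e ▸ hu))
      · intro f hf
        let c0 : G → ℂ := fun x => if x.v = 0 then 1 else 0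
        let c1 : G → ℂ := fun x => if x.v = 0 then 0 else 1
        have h0 : ∀ x, ‖c0 x‖ ≤ 1 := fun x => by simp only [c0]; split_ifs <;> simp
        have h1 : ∀ x, ‖c1 x‖ ≤ 1 := fun x => by simp only [c1]; split_ifs <;> simp
        have e : f = (f - (pair c0 h0 f • lp.single 1 (1 : G) (1 : ℂ) +
            pair c1 h1 f • lp.single 1 u (1 : ℂ))) + (pair c0 h0 f • lp.single 1 (1 : G) (1 : ℂ) +
            pair c1 h1 f • lp.single 1 u (1 : ℂ)) := by abel
        rw [e]
        refine Submodule.add_mem_sup ?_ (Submodule.add_mem _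
          (Submodule.smul_mem _ _ (Submodule.subset_span (by simp)))
          (Submodule.smul_mem _ _ (Submodule.subset_span (by simp))))
        rw [mem_I]
        intro i
        rw [map_sub, map_add, map_smul, map_smul, sub_eq_zero]
        simp only [φ, pair_single, smul_eq_mul]
        simp only [pair_apply]
        rw [← tsum_mul_right, ← tsum_mul_right, ← Summable.tsum_add
          ((summ' f c0 h0).of_norm.mul_right _) ((summ' f c1 h1).of_norm.mul_right _)]
        congr 1
        ext x
        by_cases hx : x ∈ H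
        · by_cases hx0 : x.v = 0
          · simp [c0, c1, hx0, one_v]
          · have := (hHu x hx).resolve_left hx0
            simp only [c0, c1, if_neg hx0]
            rw [this]; ring
        · rw [hf x hx]; ring)
  let F : ℕ → L := fun j => lp.single 1 (1 : G) (1 : ℂ) - lp.single 1 (⟨Pi.single j 1, 0⟩ : G) (1 : ℂ)
  have hF : ∀ j, Φ (F j) = Pi.single j (2 : ℂ) := by
    intro j
    ext i
    show φ i (F j) = _
    simp only [F, map_sub, φ, pair_single, one_v]
    by_cases hij : i = j
    · subst hij; simp [sg]; norm_num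
    · simp [sg, hij]
  have hli : LinearIndependent ℂ (fun j => (LinearMap.ker Φ).mkQ (F j)) := by
    apply LinearIndependent.of_comp ((LinearMap.ker Φ).liftQ Φ le_rfl)
    have : ((LinearMap.ker Φ).liftQ Φ le_rfl) ∘ (fun j => (LinearMap.ker Φ).mkQ (F j)) =
        fun j => Pi.single j (2 : ℂ) := by
      ext j : 1
      simp [hF]
    rw [this, linearIndependent_iff']
    intro s g hs j hj
    have := congrFun hs j
    simpa [Finset.sum_apply, Pi.single_apply, hj] using this
  exact Module.Finite.not_linearIndependent_of_infinite _ hli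

end Pool.Agent.S05428
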