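import Pool.Statements.S05434
import Pool.Agent.H.MP_937f58_an.B

set_option autoImplicit false
open Pool Pool.MP_937f58_an

namespace Pool.Agent.S05434

theorem result :
    ¬ (∀ (G : Type) [TopologicalSpace G] [Group G] [IsTopologicalGroup G] [PolishSpace G],
      Topology.IsEmbedding
        (fun (g : G)
            (f : {f : G → ℝ //
              (∃ C : ℝ, ∀ x : G, |f x| ≤ C) ∧
              (∀ ε : ℝ, 0 < ε → ∃ V ∈ nhds (1 : G), ∀ v ∈ V, ∀ x : G, |f (v * x) - f x| < ε) ∧
              ¬ ∃ s : ℕ → G, ∃ a b : ℝ, a < b ∧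
                ∀ P M : Finset ℕ, Disjoint P M →
                  ∃ x : G, (∀ n ∈ P, f (s n * x) < a) ∧ (∀ n ∈ M, b < f (s n * x))}) =>
          f.1 g)) := by
  intro h
  have hP : PolishSpace (Multiplicative H.MP_937f58_an.C0) :=
    inferInstanceAs (PolishSpace H.MP_937f58_an.C0)
  have hE := (h (Multiplicative H.MP_937f58_an.C0)).isInducing
  obtain ⟨F, hF, h1, h2⟩ := H.MP_937f58_an.main
  have h3 : Filter.Tendsto (fun x : H.MP_937f58_an.C0 => Multiplicative.ofAdd x) F
      (nhds (Multiplicative.ofAdd 0)) := by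
    rw [hE.tendsto_nhds_iff, tendsto_pi_nhds]
    intro f
    exact h2 (fun x => f.1 (Multiplicative.ofAdd x)) f.2.2.2 f.2.2.1
  have h4 : Filter.Tendsto (fun x : H.MP_937f58_an.C0 => x) F (nhds 0) := h3
  have h5 := h4.eventually (Metric.ball_mem_nhds (0 : H.MP_937f58_an.C0) one_pos)
  obtain ⟨x, hx1, hx2⟩ := (h1.and h5).exists
  have h7 : dist x 0 = ‖x‖ := dist_zero_right x
  have h6 : ‖x‖ < 1 := h7 ▸ Metric.mem_ball.1 hx2
  exact absurd h6 (not_lt.2 hx1)

end Pool.Agent.S05434
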