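import Pool.Statements.S05438
import Pool.Agent.H.MP_938f3b.C

set_option autoImplicit false
open Pool Pool.MP_938f3b_an

namespace Pool.Agent.S05438

/-- The negation of the preceding statement: Every real Banach space admitting a bi-Lipschitz map into the space of bounded real sequences with sup norm carries a norm, equivalent to its own, whose unit sphere contains no nontrivial segment (strictly convex). -/
theorem result :
    ¬ (∀ (X : Type) [NormedAddCommGroup X] [NormedSpace ℝ X] [CompleteSpace X],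
      (∃ f : X → lp (fun _ : ℕ => ℝ) ⊤, ∃ K₁ K₂ : NNReal,
          LipschitzWith K₁ f ∧ AntilipschitzWith K₂ f) →
      ∃ N : X → ℝ, ∃ c C : ℝ, 0 < c ∧ 0 < C ∧
        (∀ x : X, c * ‖x‖ ≤ N x ∧ N x ≤ C * ‖x‖) ∧
        (∀ x y : X, N (x + y) ≤ N x + N y) ∧
        (∀ (r : ℝ) (x : X), N (r • x) = |r| * N x) ∧
        (∀ x y : X, N x = 1 → N y = 1 → x ≠ y → N ((1 / 2 : ℝ) • (x + y)) < 1)) := by
  intro h
  have : CompleteSpace H.MP_938f3b.D.topologicalClosure := Submodule.topologicalClosure.completeSpace _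
  obtain ⟨N, c, C, c0, -, n0, n1, n2, n3⟩ := h _ H.MP_938f3b.emb
  obtain ⟨x, y, h1, h2, h3, h4⟩ := H.MP_938f3b.nsc N c0 n0 n1 n2
  exact (n3 x y h1 h2 h3).not_ge h4

end Pool.Agent.S05438
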