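import Pool.Statements.S05460
import Pool.Agent.H.MP_95bae3_an.A

set_option autoImplicit false
open Pool Pool.MP_95bae3_an Pool.Agent.H.MP_95bae3_an

namespace Pool.Agent.S05460

theorem result :
    ¬ (∀ (G : Type) [Group G] [Countable G],
      (∀ (F : Finset G) (ε : ℝ), 0 < ε → ∃ A : Set G, A.Finite ∧ A.Nonempty ∧
          ∀ g ∈ F, ((symmDiff ((fun x => g * x) '' A) A).ncard : ℝ) < ε * (A.ncard : ℝ)) →
      ∀ (X : Type) [NormedAddCommGroup X] [NormedSpace ℝ X] [CompleteSpace X]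
        [TopologicalSpace.SeparableSpace X] (ρ : G →* (X ≃ₗᵢ[ℝ] X)),
      ∃ N : X → ℝ,
        (∀ x y : X, N (x + y) ≤ N x + N y) ∧
        (∀ (c : ℝ) (x : X), N (c • x) = |c| * N x) ∧
        (∃ a b : ℝ, 0 < a ∧ 0 < b ∧ ∀ x : X, a * ‖x‖ ≤ N x ∧ N x ≤ b * ‖x‖) ∧
        (∀ (g : G) (x : X), N (ρ g x) = N x) ∧
        (∀ x y : X, N x = 1 → N y = 1 → x ≠ y → N ((1 / 2 : ℝ) • (x + y)) < 1)) := by
  intro h
  obtain ⟨N, n1, n2, ⟨a, b, a0, b0, n3⟩, n4, n5⟩ := h G folner X ρ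
  have k : ∀ (s : ℚ) h0 h1, N ⟨m s, mem s h0 h1⟩ = N ⟨m 1, one_mem⟩ := fun s h0 h1 =>
    eq_of_abs_sub_le_all fun ε hε => by
      obtain ⟨n, hn⟩ := exists_nat_one_div_lt (div_pos hε b0)
      obtain ⟨g, hg⟩ := near s h0 h1 n
      set x : X := ⟨m s, mem s h0 h1⟩
      set y := ρ g ⟨m 1, one_mem⟩
      have e : b * ‖y - x‖ ≤ ε := (le_div_iff₀' b0).1 (hg.trans hn.le)
      have := n1 x (y - x)
      have := n1 y (x - y)
      have := (n3 (y - x)).2
      have := (n3 (x - y)).2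
      rw [← n4 g ⟨m 1, one_mem⟩, abs_le]
      simp only [add_sub_cancel, norm_sub_rev x y] at *
      constructor <;> linarith
  set x : X := ⟨m 1, one_mem⟩
  set y : X := ⟨m (0 : ℚ), mem 0 le_rfl one_pos⟩
  have ne : x ≠ y := fun h => by simpa [x, y, m] using congrArg (fun z : X => z.1 1) h
  have x0 : 0 < N x := lt_of_lt_of_le (mul_pos a0 (norm_pos_iff.2 fun h => by
    simpa [x, m] using congrArg (fun z : X => z.1 1) h)) (n3 x).1
  have u : ∀ z, N z = N x → N ((N x)⁻¹ • z) = 1 := fun z hz => by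
    rw [n2, hz, abs_of_pos (inv_pos.2 x0), inv_mul_cancel₀ x0.ne']
  refine (n5 _ _ (u x rfl) (u y (k 0 le_rfl one_pos)) fun h => ne (smul_right_injective _
    (inv_pos.2 x0).ne' h)).ne ?_
  rw [← smul_add, smul_comm]
  refine u _ (Eq.trans (congrArg N (Subtype.ext (lp.ext (funext fun c => ?_))))
    (k (1 / 2) (by norm_num) (by norm_num)))
  change 1 / 2 * (m 1 c + m (0 : ℚ) c) = m (1 / 2 : ℚ) c
  simp only [m]
  split_ifs
  · norm_num
  · ring

end Pool.Agent.S05460
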