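import Pool.Statements.S05466
import Pool.Agent.H.MP_95eb0c_an.A

set_option autoImplicit false
open MeasureTheory Filter Topology
open Pool Pool.MP_95eb0c_an

namespace Pool.Agent.S05466

/-- The negation of the preceding statement: For ideal gas γ>1, any sequence of bounded weak solutions of 1D Lagrangian gas dynamics on t>0 with uniform bounds τ,p bounded away from 0 and ∣v∣≤V, converging weak-* in L^∞, has velocity and pressure converging in L¹ on every compact subset. -/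
theorem result :
    ¬ (∀ (γ : ℝ), 1 < γ →
  ∀ (τe ve pe : ℕ → ℝ × ℝ → ℝ) (τ v p : ℝ × ℝ → ℝ) (τm τM pm pM V : ℝ),
  0 < τm → τm ≤ τM → 0 < pm → pm ≤ pM →
  (∀ n, AEStronglyMeasurable (τe n) (volume.restrict {z : ℝ × ℝ | 0 < z.2}) ∧
        AEStronglyMeasurable (ve n) (volume.restrict {z : ℝ × ℝ | 0 < z.2}) ∧
        AEStronglyMeasurable (pe n) (volume.restrict {z : ℝ × ℝ | 0 < z.2})) →
  (∀ n, ∀ᵐ z ∂(volume.restrict {z : ℝ × ℝ | 0 < z.2}),
        τm ≤ τe n z ∧ τe n z ≤ τM ∧ pm ≤ pe n z ∧ pe n z ≤ pM ∧ |ve n z| ≤ V) →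
  (∀ n, ∀ φ : ℝ × ℝ → ℝ, ContDiff ℝ ((⊤ : ℕ∞) : WithTop ℕ∞) φ → HasCompactSupport φ →
      tsupport φ ⊆ {z : ℝ × ℝ | 0 < z.2} →
      (∫ z in {z : ℝ × ℝ | 0 < z.2},
          (τe n z * fderiv ℝ φ z (0, 1) - ve n z * fderiv ℝ φ z (1, 0))) = 0 ∧
      (∫ z in {z : ℝ × ℝ | 0 < z.2},
          (ve n z * fderiv ℝ φ z (0, 1) + pe n z * fderiv ℝ φ z (1, 0))) = 0 ∧
      (∫ z in {z : ℝ × ℝ | 0 < z.2},
          ((ve n z ^ 2 / 2 + pe n z * τe n z / (γ - 1)) * fderiv ℝ φ z (0, 1)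
            + pe n z * ve n z * fderiv ℝ φ z (1, 0))) = 0) →
  AEStronglyMeasurable τ (volume.restrict {z : ℝ × ℝ | 0 < z.2}) →
  AEStronglyMeasurable v (volume.restrict {z : ℝ × ℝ | 0 < z.2}) →
  AEStronglyMeasurable p (volume.restrict {z : ℝ × ℝ | 0 < z.2}) →
  (∃ C : ℝ, ∀ᵐ z ∂(volume.restrict {z : ℝ × ℝ | 0 < z.2}),
      |τ z| ≤ C ∧ |v z| ≤ C ∧ |p z| ≤ C) →
  (∀ g : ℝ × ℝ → ℝ, Integrable g (volume.restrict {z : ℝ × ℝ | 0 < z.2}) →
      Tendsto (fun n => ∫ z in {z : ℝ × ℝ | 0 < z.2}, τe n z * g z) atTop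
        (𝓝 (∫ z in {z : ℝ × ℝ | 0 < z.2}, τ z * g z)) ∧
      Tendsto (fun n => ∫ z in {z : ℝ × ℝ | 0 < z.2}, ve n z * g z) atTop
        (𝓝 (∫ z in {z : ℝ × ℝ | 0 < z.2}, v z * g z)) ∧
      Tendsto (fun n => ∫ z in {z : ℝ × ℝ | 0 < z.2}, pe n z * g z) atTop
        (𝓝 (∫ z in {z : ℝ × ℝ | 0 < z.2}, p z * g z))) →
  ∀ K : Set (ℝ × ℝ), IsCompact K → K ⊆ {z : ℝ × ℝ | 0 < z.2} →
    Tendsto (fun n => ∫ z in K, |ve n z - v z|) atTop (𝓝 0) ∧
    Tendsto (fun n => ∫ z in K, |pe n z - p z|) atTop (𝓝 0)) := by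
  intro h
  have hs : MeasurableSet {z : ℝ × ℝ | 0 < z.2} := measurableSet_lt measurable_const measurable_snd
  have m := H.MP_95eb0c_an.r_meas
  have hK : IsCompact (Set.Icc ((0 : ℝ), (1 : ℝ)) (1, 2)) := isCompact_Icc
  have key := (h 2 (by norm_num) (fun n z => 4 + (-1) * H.MP_95eb0c_an.r n z)
    (fun n z => 0 + 1 * H.MP_95eb0c_an.r n z) (fun n z => 2 + 1 * H.MP_95eb0c_an.r n z)
    (fun _ => 4) (fun _ => 0) (fun _ => 2) 3 5 1 3 1 (by norm_num) (by norm_num) (by norm_num)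
    (by norm_num)
    (fun n => ⟨(((m n).const_mul _).const_add _).aestronglyMeasurable,
      (((m n).const_mul _).const_add _).aestronglyMeasurable,
      (((m n).const_mul _).const_add _).aestronglyMeasurable⟩)
    (fun n => .of_forall fun z => by
      rcases H.MP_95eb0c_an.r_val n z with e | e <;> simp only [e] <;> norm_num)
    (fun n φ a b c => ⟨H.MP_95eb0c_an.sol a b c n 4 0 (-1) _ fun z => by ring,
      H.MP_95eb0c_an.sol a b c n 0 2 1 _ fun z => by ring,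
      H.MP_95eb0c_an.sol a b c n (15 / 2) 1 2 _ fun z => by
        rcases H.MP_95eb0c_an.r_val n z with e | e <;> simp only [e] <;> ring⟩)
    aestronglyMeasurable_const aestronglyMeasurable_const aestronglyMeasurable_const
    ⟨4, .of_forall fun z => by norm_num⟩
    (fun g hg => ⟨H.MP_95eb0c_an.weak hs hg _ _, H.MP_95eb0c_an.weak hs hg _ _,
      H.MP_95eb0c_an.weak hs hg _ _⟩) _ hK
    (fun z hz => lt_of_lt_of_le one_pos hz.1.2)).1
  simp only [zero_add, one_mul, sub_zero, H.MP_95eb0c_an.r_abs] at key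
  have e := tendsto_nhds_unique key tendsto_const_nhds
  rw [setIntegral_const, Measure.real, Set.Icc_prod_eq, Measure.volume_eq_prod,
    Measure.prod_prod] at e
  norm_num at e

end Pool.Agent.S05466
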