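import Pool.Statements.S05488
import Pool.Agent.H.MP_97b573_an.B

set_option autoImplicit false
open Pool Pool.MP_97b573_an

namespace Pool.Agent.S05488

open Pool.Agent.H.MP_97b573_an

def J : Set (ℚ → ℂ) := {g | (∀ q : ℚ, q < 0 → g q = 0) ∧ Summable (fun q : ℚ => ‖g q‖ * ω q) ∧
  ∀ s : ℚ, 0 ≤ s → ∑' q : ℚ, g q * (φ (q + s) : ℂ) = 0}

theorem term_le (g : ℚ → ℂ) (hg : ∀ q : ℚ, q < 0 → g q = 0) (s : ℚ) (hs : 0 ≤ s) (q : ℚ) :
    ‖g q * (φ (q + s) : ℂ)‖ ≤ 2 * ω s * (‖g q‖ * ω q) := by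
  rcases lt_or_ge q 0 with h | h
  · simp [hg q h]
  · rw [norm_mul]
    have h1 := φ_le_ω (q + s) (add_nonneg h hs)
    have h2 := ω_add h hs
    have h3 : ‖(φ (q + s) : ℂ)‖ ≤ 2 * (ω q * ω s) := by linarith
    refine (mul_le_mul_of_nonneg_left h3 (norm_nonneg _)).trans (le_of_eq (by ring))

theorem term_summ (g : ℚ → ℂ) (hg : ∀ q : ℚ, q < 0 → g q = 0)
    (h : Summable (fun q : ℚ => ‖g q‖ * ω q)) (s : ℚ) (hs : 0 ≤ s) :
    Summable fun q => g q * (φ (q + s) : ℂ) :=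
  Summable.of_norm_bounded (h.mul_left _) (term_le g hg s hs)

theorem summ_add (f g : ℚ → ℂ) (hf : Summable (fun q : ℚ => ‖f q‖ * ω q))
    (hg : Summable (fun q : ℚ => ‖g q‖ * ω q)) (c : ℂ) :
    Summable (fun q : ℚ => ‖f q + c * g q‖ * ω q) := by
  refine Summable.of_nonneg_of_le (fun q => mul_nonneg (norm_nonneg _) (ω_pos q).le)
    (fun q => ?_) (hf.add (hg.mul_left ‖c‖))
  have h1 := norm_add_le (f q) (c * g q)
  rw [norm_mul] at h1
  exact (mul_le_mul_of_nonneg_right h1 (ω_pos q).le).trans (le_of_eq (by ring))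

theorem J_zero : (0 : ℚ → ℂ) ∈ J := ⟨fun _ _ => rfl, by simp, by simp⟩

theorem J_lin (f : ℚ → ℂ) (hf : f ∈ J) (g : ℚ → ℂ) (hg : g ∈ J) (c : ℂ) : f + c • g ∈ J := by
  refine ⟨fun q hq => by simp [hf.1 q hq, hg.1 q hq], summ_add f g hf.2.1 hg.2.1 c,
    fun s hs => ?_⟩
  have h1 := (term_summ f hf.1 hf.2.1 s hs).hasSum.add
    ((term_summ g hg.1 hg.2.1 s hs).hasSum.mul_left c)
  rw [hf.2.2 s hs, hg.2.2 s hs, mul_zero, add_zero] at h1
  rw [← h1.tsum_eq]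
  refine tsum_congr fun q => ?_
  simp only [Pi.add_apply, Pi.smul_apply, smul_eq_mul]; ring

def sh : ℚ × ℚ ≃ ℚ × ℚ where
  toFun x := (x.2, x.1 - x.2)
  invFun y := (y.1 + y.2, y.1)
  left_inv x := by simp
  right_inv y := by simp

theorem J_conv (a : ℚ → ℂ) (ha0 : ∀ q : ℚ, q < 0 → a q = 0)
    (ha : Summable (fun q : ℚ => ‖a q‖ * ω q)) (g : ℚ → ℂ) (hg : g ∈ J) :
    (fun t : ℚ => ∑' s : ℚ, a s * g (t - s)) ∈ J := by
  have h1 : Summable fun x : ℚ × ℚ => (‖a x.1‖ * ω x.1) * (‖g x.2‖ * ω x.2) :=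
    ha.mul_of_nonneg hg.2.1 (fun q => mul_nonneg (norm_nonneg _) (ω_pos q).le)
      (fun q => mul_nonneg (norm_nonneg _) (ω_pos q).le)
  have h2 : Summable fun x : ℚ × ℚ => (‖a x.2‖ * ω x.2) * (‖g (x.1 - x.2)‖ * ω (x.1 - x.2)) :=
    sh.summable_iff.2 h1
  have h3 : Summable fun x : ℚ × ℚ => ‖a x.2 * g (x.1 - x.2)‖ * ω x.1 := by
    refine Summable.of_nonneg_of_le (fun q => mul_nonneg (norm_nonneg _) (ω_pos _).le)
      (fun x => ?_) h2
    rcases lt_or_ge x.2 0 with h | h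
    · simp [ha0 _ h]
    rcases lt_or_ge (x.1 - x.2) 0 with h' | h'
    · simp [hg.1 _ h']
    have := ω_add h h'
    rw [add_sub_cancel] at this
    rw [norm_mul]
    exact (mul_le_mul_of_nonneg_left this (by positivity)).trans (le_of_eq (by ring))
  have h4 : ∀ t : ℚ, t < 0 → ∀ s : ℚ, a s * g (t - s) = 0 := by
    intro t ht s
    rcases lt_or_ge s 0 with h | h
    · simp [ha0 _ h]
    · simp [hg.1 (t - s) (by linarith)]
  have h5 : ∀ t : ℚ, Summable fun s : ℚ => ‖a s * g (t - s)‖ := fun t =>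
    (summable_mul_right_iff (ω_pos t).ne').1 (h3.prod_factor t)
  refine ⟨fun t ht => by simp [h4 t ht], ?_, fun τ hτ => ?_⟩
  · refine Summable.of_nonneg_of_le (fun q => mul_nonneg (norm_nonneg _) (ω_pos _).le)
      (fun t => ?_) h3.prod
    simp only
    rw [tsum_mul_right]
    exact mul_le_mul_of_nonneg_right (norm_tsum_le_tsum_norm (h5 t)) (ω_pos _).le
  · have h6 : Summable (Function.uncurry fun t s : ℚ => a s * g (t - s) * (φ (t + τ) : ℂ)) := by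
      refine Summable.of_norm_bounded (h3.mul_left (2 * ω τ)) fun x => ?_
      exact term_le (fun t => a x.2 * g (t - x.2)) (fun t ht => h4 t ht _) τ hτ x.1
    simp only [← tsum_mul_right]
    rw [← h6.tsum_comm]
    refine (tsum_congr fun s => ?_).trans tsum_zero
    rcases lt_or_ge s 0 with h | h
    · simp [ha0 _ h]
    have h7 := hg.2.2 (s + τ) (add_nonneg h hτ)
    rw [← (Equiv.addRight s).tsum_eq]
    simp only [Equiv.coe_addRight, add_sub_cancel_right, mul_assoc, add_assoc]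
    rw [tsum_mul_left, h7, mul_zero]

theorem J_closed (f : ℚ → ℂ) (hf0 : ∀ q : ℚ, q < 0 → f q = 0)
    (hf : Summable (fun q : ℚ => ‖f q‖ * ω q))
    (h : ∀ ε : ℝ, 0 < ε → ∃ g ∈ J, ∑' q : ℚ, ‖f q - g q‖ * ω q < ε) : f ∈ J := by
  refine ⟨hf0, hf, fun s hs => ?_⟩
  rw [← norm_le_zero_iff]
  refine le_of_forall_pos_le_add fun ε hε => ?_
  have hw := ω_pos s
  obtain ⟨g, hg, h1⟩ := h (ε / (2 * ω s)) (by positivity)
  have h2 : Summable (fun q : ℚ => ‖f q - g q‖ * ω q) := by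
    simpa [sub_eq_add_neg] using summ_add f g hf hg.2.1 (-1)
  have h3 := ((term_summ f hf0 hf s hs).hasSum.sub (term_summ g hg.1 hg.2.1 s hs).hasSum).tsum_eq
  rw [hg.2.2 s hs, sub_zero] at h3
  rw [← h3]
  refine (tsum_of_norm_bounded (h2.hasSum.mul_left (2 * ω s)) fun q => ?_).trans ?_
  · rw [← sub_mul]
    exact term_le (fun q => f q - g q) (fun q hq => by simp [hf0 q hq, hg.1 q hq]) s hs q
  · rw [lt_div_iff₀ (by positivity)] at h1
    linarith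

noncomputable def f0 : ℚ → ℂ := Function.extend t (fun i => (1 / 2 : ℂ) ^ i) 0

theorem f0_t (i : ℕ) : f0 (t i) = (1 / 2 : ℂ) ^ i := t_inj.extend_apply _ _ i

theorem f0_off (q : ℚ) (h : q ∉ Set.range t) : f0 q = 0 := by
  unfold f0
  rw [Function.extend_apply' _ _ _ h]; rfl

theorem f0_mem : f0 ∈ J := by
  refine ⟨fun q hq => f0_off q ?_, ?_, fun s hs => ?_⟩
  · rintro ⟨i, rfl⟩
    linarith [t_pos i]
  · rw [← t_inj.summable_iff (fun q hq => by simp [f0_off q hq])]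
    refine Summable.of_nonneg_of_le (fun q => mul_nonneg (norm_nonneg _) (ω_pos _).le)
      (fun i => ?_) summable_geometric_two
    simp only [Function.comp, f0_t, norm_pow]
    have : ‖(1 / 2 : ℂ)‖ = 1 / 2 := by simp
    rw [this]
    exact mul_le_of_le_one_right (by positivity) (ω_t i)
  · refine HasSum.tsum_eq ?_
    rw [← t_inj.hasSum_iff (fun q hq => by simp [f0_off q hq])]
    simpa only [Function.comp_def, f0_t] using hasSum_φ s hs

noncomputable def e0 : ℚ → ℂ := fun q => if q = 1 / 8 then 1 else 0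

theorem e0_not : e0 ∉ J := by
  intro h
  have h1 := h.2.2 0 le_rfl
  rw [tsum_eq_single (1 / 8) (fun q hq => by simp only [e0, if_neg hq, zero_mul])] at h1
  rw [add_zero, φ_g0] at h1
  simp [e0] at h1

theorem e0_summ : Summable (fun q : ℚ => ‖e0 q‖ * ω q) :=
  summable_of_ne_finset_zero (s := {1 / 8}) fun q hq => by
    have : q ≠ 1 / 8 := by simpa using hq
    simp only [e0, if_neg this, norm_zero, zero_mul]

theorem e0_zero (q : ℚ) (h : (q : ℝ) ≤ t 1) : e0 q = 0 := by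
  have h1 : q ≤ t 1 := by exact_mod_cast h
  have h2 : t 1 = 1 / 17 := by simp [t, p]
  have : q ≠ 1 / 8 := by rintro rfl; rw [h2] at h1; norm_num at h1
  simp only [e0, if_neg this]

theorem result :
    ¬ (∀ ω : ℚ → ℝ,
    (∀ q : ℚ, 0 ≤ q → 0 < ω q) →
    (∀ s t : ℚ, 0 ≤ s → 0 ≤ t → ω (s + t) ≤ ω s * ω t) →
    (∀ t : ℚ, 0 < t →
      Filter.Tendsto (fun n : ℕ => ω ((n : ℚ) * t) ^ ((1 : ℝ) / (n : ℝ)))
        Filter.atTop (nhds 0)) →
    ∀ I : Set (ℚ → ℂ),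
      (∀ f ∈ I, (∀ q : ℚ, q < 0 → f q = 0) ∧ Summable (fun q : ℚ => ‖f q‖ * ω q)) →
      (0 : ℚ → ℂ) ∈ I →
      (∀ f ∈ I, ∀ g ∈ I, f + g ∈ I) →
      (∀ c : ℂ, ∀ f ∈ I, c • f ∈ I) →
      (∀ a : ℚ → ℂ, (∀ q : ℚ, q < 0 → a q = 0) →
         Summable (fun q : ℚ => ‖a q‖ * ω q) →
         ∀ f ∈ I, (fun t : ℚ => ∑' s : ℚ, a s * f (t - s)) ∈ I) →
      (∀ f : ℚ → ℂ, (∀ q : ℚ, q < 0 → f q = 0) →
         Summable (fun q : ℚ => ‖f q‖ * ω q) →
         (∀ ε : ℝ, 0 < ε → ∃ g ∈ I, ∑' q : ℚ, ‖f q - g q‖ * ω q < ε) → f ∈ I) →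
      (I = {(0 : ℚ → ℂ)} ∨ ∃ α : ℝ, 0 ≤ α ∧
        (I = {f : ℚ → ℂ | (∀ q : ℚ, q < 0 → f q = 0) ∧
                Summable (fun q : ℚ => ‖f q‖ * ω q) ∧
                ∀ q : ℚ, (q : ℝ) < α → f q = 0} ∨
         I = {f : ℚ → ℂ | (∀ q : ℚ, q < 0 → f q = 0) ∧
                Summable (fun q : ℚ => ‖f q‖ * ω q) ∧
                ∀ q : ℚ, (q : ℝ) ≤ α → f q = 0}))) := by
  intro H
  have h := H ω (fun q _ => ω_pos q) (fun _ _ hs ht => ω_add hs ht) ω_rad J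
    (fun f hf => ⟨hf.1, hf.2.1⟩) J_zero
    (fun f hf g hg => by simpa using J_lin f hf g hg 1)
    (fun c f hf => by simpa using J_lin 0 J_zero f hf c) J_conv J_closed
  have hne : f0 (t 1) ≠ 0 := by rw [f0_t]; norm_num
  have hneg : ∀ q : ℚ, q < 0 → e0 q = 0 := fun q hq => e0_zero q (by
    have := t_pos 1
    exact_mod_cast (by linarith : q ≤ t 1))
  rcases h with h | ⟨α, -, h | h⟩
  · have h1 := f0_mem
    rw [h] at h1
    exact hne (congrFun h1 _)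
  · have h1 := f0_mem
    rw [h] at h1
    have h2 : α ≤ t 1 := not_lt.1 fun hh => hne (h1.2.2 _ hh)
    exact e0_not (h ▸ ⟨hneg, e0_summ, fun q hq => e0_zero q (by linarith)⟩)
  · have h1 := f0_mem
    rw [h] at h1
    have h2 : α < t 1 := not_le.1 fun hh => hne (h1.2.2 _ hh)
    exact e0_not (h ▸ ⟨hneg, e0_summ, fun q hq => e0_zero q (by linarith)⟩)

end Pool.Agent.S05488
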