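import Pool.Statements.S05490
import Pool.Agent.Lib.helper20.C0

set_option autoImplicit false
open Filter Topology
open Pool Pool.MP_97ee8d_an

namespace Pool.Agent.S05490


open Pool.Agent.Lib.helper20.C0

lemma summ (x : X) : Summable (fun k => (1 / 2 : ℝ) ^ k * ev k x) := by
  refine Summable.of_norm_bounded (summable_geometric_two.mul_right ‖x‖) ?_
  intro k
  rw [Real.norm_eq_abs, abs_mul, abs_of_pos (by positivity)]
  exact mul_le_mul_of_nonneg_left (abs_le_norm x k) (by positivity)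

lemma tail_bound (x : X) (m : ℕ) (hx : ∀ k, k < m → ev k x = 0) :
    |∑' k, (1 / 2 : ℝ) ^ k * ev k x| ≤ 2 * (1 / 2) ^ m * ‖x‖ := by
  have h1 := (summ x).sum_add_tsum_nat_add m
  have h2 : ∑ k ∈ Finset.range m, (1 / 2 : ℝ) ^ k * ev k x = 0 := by
    apply Finset.sum_eq_zero
    intro k hk
    rw [hx k (Finset.mem_range.mp hk), mul_zero]
  rw [h2, zero_add] at h1
  rw [← h1]
  have h3 : HasSum (fun k => (1 / 2 : ℝ) ^ k * ((1 / 2) ^ m * ‖x‖)) (2 * ((1 / 2) ^ m * ‖x‖)) :=
    hasSum_geometric_two.mul_right _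
  have h4 := tsum_of_norm_bounded (f := fun k => (1 / 2 : ℝ) ^ (k + m) * ev (k + m) x) h3 (by
    intro k
    rw [Real.norm_eq_abs, abs_mul, abs_of_pos (by positivity), pow_add, mul_assoc]
    apply mul_le_mul_of_nonneg_left _ (by positivity)
    exact mul_le_mul_of_nonneg_left (abs_le_norm x _) (by positivity))
  rw [Real.norm_eq_abs] at h4
  linarith

noncomputable def f : X →L[ℝ] ℝ :=
  LinearMap.mkContinuous
    { toFun := fun x => ∑' k, (1 / 2 : ℝ) ^ k * ev k x
      map_add' := fun x y => by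
        rw [← (summ x).tsum_add (summ y)]
        apply tsum_congr
        intro k
        rw [map_add]
        ring
      map_smul' := fun c x => by
        simp only [RingHom.id_apply, smul_eq_mul]
        rw [← tsum_mul_left]
        apply tsum_congr
        intro k
        rw [map_smul, smul_eq_mul]
        ring } 2 (fun x => by
      have := tail_bound x 0 (fun k hk => absurd hk (Nat.not_lt_zero k))
      simpa using this)

lemma f_apply (x : X) : f x = ∑' k, (1 / 2 : ℝ) ^ k * ev k x := rfl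

lemma f_e (k : ℕ) : f (e k) = (1 / 2) ^ k := by
  rw [f_apply]
  simp only [ev_e, mul_ite, mul_one, mul_zero]
  rw [tsum_ite_eq]

lemma f_gap (y : X) (c : ℝ) (N : ℕ) (hN : N ≠ 0) (h1 : ∀ k, |ev k y| ≤ c) (h2 : |ev N y| ≤ c / 2) :
    f y - ev 0 y ≤ c - c * (1 / 2) ^ (N + 1) := by
  have s1 : Summable (fun k => (1 / 2 : ℝ) ^ k * c) := summable_geometric_two.mul_right c
  have s2 := s1.sub (summ y)
  have h3 := s2.sum_le_tsum {0, N} (fun k _ => by
    have := (abs_le.mp (h1 k)).2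
    have h5 : (0:ℝ) ≤ (1 / 2) ^ k := by positivity
    nlinarith)
  rw [s1.tsum_sub (summ y), tsum_mul_right, tsum_geometric_two, Finset.sum_pair hN.symm,
    ← f_apply] at h3
  have h4 := (abs_le.mp h2).2
  have h5 : (0:ℝ) ≤ (1 / 2) ^ N := by positivity
  rw [pow_succ]
  simp only [pow_zero, one_mul] at h3
  nlinarith

noncomputable def D : X × ℝ →L[ℝ] ℝ :=
  ContinuousLinearMap.snd ℝ X ℝ - f.comp (ContinuousLinearMap.fst ℝ X ℝ)

noncomputable def E : Submodule ℝ (X × ℝ) := LinearMap.ker (D : X × ℝ →ₗ[ℝ] ℝ)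

lemma mem_E (p : X × ℝ) : p ∈ E ↔ p.2 = f p.1 := by
  simp [E, D, sub_eq_zero]

instance : CompleteSpace E := D.isClosed_ker.completeSpace_coe

noncomputable def ι : X →L[ℝ] E :=
  ((ContinuousLinearMap.id ℝ X).prod f).codRestrict E (fun _ => (mem_E _).mpr rfl)

noncomputable def π : E →L[ℝ] X := (ContinuousLinearMap.fst ℝ X ℝ).comp E.subtypeL

lemma π_ι (x : X) : π (ι x) = x := rfl

lemma ι_π (y : E) : ι (π y) = y := by
  apply Subtype.ext
  apply Prod.ext
  · rfl
  · exact ((mem_E _).mp y.2).symm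

lemma normE (y : E) : ‖y‖ = max ‖π y‖ |f (π y)| := by
  have h : ‖y‖ = max ‖y.1.1‖ ‖y.1.2‖ := rfl
  rw [h, (mem_E _).mp y.2]
  rfl

lemma coord_le (y : E) (k : ℕ) : |ev k (π y)| ≤ ‖y‖ := by
  rw [normE]
  exact le_trans (abs_le_norm _ k) (le_max_left _ _)

lemma f_le (y : E) : |f (π y)| ≤ ‖y‖ := by
  rw [normE]
  exact le_max_right _ _

lemma normE_le (y : E) (c : ℝ) (hc : 0 ≤ c) (h1 : ∀ k, |ev k (π y)| ≤ c) (h2 : |f (π y)| ≤ c) :
    ‖y‖ ≤ c := by
  rw [normE]
  exact max_le (norm_le _ _ hc h1) h2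

noncomputable def Q (N m : ℕ) : E →L[ℝ] E := ι.comp ((trunc (N + m)).comp π)

lemma Q_apply (N m : ℕ) (y : E) : Q N m y = ι (trunc (N + m) (π y)) := rfl

lemma Q_fdd (N : ℕ) :
    (∀ n, FiniteDimensional ℝ (LinearMap.range (Q N n : E →ₗ[ℝ] E))) ∧
    (∀ n m, (Q N n).comp (Q N m) = Q N (min n m)) ∧
    (∀ x : E, Tendsto (fun n => Q N n x) atTop (𝓝 x)) := by
  refine ⟨fun n => ?_, fun n m => ?_, fun x => ?_⟩
  · have hfin : (((fun k => ι (e k)) '' (Finset.range (N + n) : Set ℕ))).Finite :=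
      (Finset.finite_toSet _).image _
    have := FiniteDimensional.span_of_finite ℝ hfin
    refine Submodule.finiteDimensional_of_le
      (S₂ := Submodule.span ℝ ((fun k => ι (e k)) '' (Finset.range (N + n) : Set ℕ))) ?_
    rintro _ ⟨y, rfl⟩
    show Q N n y ∈ _
    rw [Q_apply, trunc_eq, map_sum]
    apply Submodule.sum_mem
    intro k hk
    rw [map_smul]
    exact Submodule.smul_mem _ _ (Submodule.subset_span ⟨k, hk, rfl⟩)
  · ext1 y
    rw [ContinuousLinearMap.comp_apply, Q_apply, Q_apply, Q_apply, π_ι, trunc_trunc]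
    have : min (N + n) (N + m) = N + min n m := by omega
    rw [this]
  · have h1 := (trunc_tendsto (π x)).comp (tendsto_add_atTop_nat N)
    have h2 := (ι.continuous.tendsto _).comp h1
    rw [ι_π] at h2
    refine h2.congr ?_
    intro n
    simp only [Function.comp, Q_apply, add_comm]

lemma Q_norm (N m : ℕ) : ‖Q N m‖ ≤ 1 + 2 * (1 / 2) ^ N := by
  apply ContinuousLinearMap.opNorm_le_bound _ (by positivity)
  intro y
  have h0 : (0:ℝ) ≤ 2 * (1 / 2) ^ N * ‖y‖ := by positivity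
  have hπ : ‖π y‖ ≤ ‖y‖ := norm_le _ _ (norm_nonneg _) (coord_le y)
  apply normE_le _ _ (by positivity)
  · intro k
    rw [Q_apply, π_ι]
    have := abs_le_norm (trunc (N + m) (π y)) k
    have := norm_trunc_le (N + m) (π y)
    linarith
  · rw [Q_apply, π_ι]
    have h1 := tail_bound (π y - trunc (N + m) (π y)) N (by
      intro k hk
      rw [map_sub, ev_trunc, if_pos (by omega), sub_self])
    rw [← f_apply, map_sub] at h1
    have h2 : ‖π y - trunc (N + m) (π y)‖ ≤ ‖y‖ := by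
      apply norm_le _ _ (norm_nonneg _)
      intro k
      rw [map_sub, ev_trunc]
      split_ifs
      · simp
      · simpa using coord_le y k
    have h3 := f_le y
    have h4 : 2 * (1 / 2 : ℝ) ^ N * ‖π y - trunc (N + m) (π y)‖ ≤ 2 * (1 / 2) ^ N * ‖y‖ :=
      mul_le_mul_of_nonneg_left h2 (by positivity)
    have h5 := abs_sub_abs_le_abs_sub (f (trunc (N + m) (π y))) (f (π y))
    rw [abs_sub_comm] at h5
    linarith

lemma fixed (φ : E →L[ℝ] ℝ) (P : E →L[ℝ] E) (hP : ‖P‖ ≤ 1) (hPP : ∀ x, P (P x) = P x)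
    (x0 : E) (δ : ℝ) (hδ : 0 < δ) (hφ : ∀ w, ‖w‖ ≥ φ w) (h : ∀ w, ‖w - x0‖ < δ → ‖w‖ ≤ φ w)
    (hx : ‖P x0 - x0‖ < δ / 2) (w : E) : φ (P w) = φ w := by
  have key : ∀ z : E, P z = 0 → 0 ≤ φ z := by
    intro z hz
    set t := δ / 2 / (‖z‖ + 1) with ht
    have ht0 : 0 < t := by positivity
    have h1 : ‖t • z‖ ≤ δ / 2 := by
      rw [norm_smul, Real.norm_eq_abs, abs_of_pos ht0, ht, div_mul_eq_mul_div,
        div_le_iff₀ (by positivity)]
      nlinarith [norm_nonneg z]
    have h2 : ‖P x0 + t • z - x0‖ < δ := by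
      have : P x0 + t • z - x0 = (P x0 - x0) + t • z := by abel
      rw [this]
      linarith [norm_add_le (P x0 - x0) (t • z)]
    have h3 := h _ h2
    have h4 : P (P x0 + t • z) = P x0 := by rw [map_add, map_smul, hz, hPP, smul_zero, add_zero]
    have h5 := P.le_opNorm (P x0 + t • z)
    rw [h4] at h5
    have h6 := hφ (P x0)
    rw [map_add, map_smul, smul_eq_mul] at h3
    have h7 : ‖P‖ * ‖P x0 + t • z‖ ≤ ‖P x0 + t • z‖ := mul_le_of_le_one_left (norm_nonneg _) hP
    have h8 : 0 ≤ t * φ z := by linarith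
    exact nonneg_of_mul_nonneg_right h8 ht0 |> fun h => by
      by_contra hc
      push Not at hc
      nlinarith
  have h1 := key (w - P w) (by rw [map_sub, hPP, sub_self])
  have h2 := key (P w - w) (by rw [map_sub, hPP, sub_self])
  rw [map_sub] at h1 h2
  linarith

lemma small (F : Submodule ℝ E) [FiniteDimensional ℝ F] :
    ∃ N : ℕ, N ≠ 0 ∧ ∀ y ∈ F, ‖y‖ ≤ 1 → |ev N (π y)| ≤ 1 / 2 := by
  have := FiniteDimensional.proper_real F
  obtain ⟨s, -, hs, hcov⟩ := finite_cover_balls_of_compact (isCompact_closedBall (0 : F) 1)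
    (e := 1 / 4) (by norm_num)
  have h1 : ∀ᶠ N in atTop, ∀ y ∈ s, |ev N (π (y : E))| < 1 / 4 := by
    rw [eventually_all_finite hs]
    intro y _
    have := (tend (π (y : E))).abs
    rw [abs_zero] at this
    exact this.eventually_lt_const (by norm_num)
  obtain ⟨N, hN1, hN2⟩ := (h1.and (eventually_gt_atTop 0)).exists
  refine ⟨N, hN2.ne', fun y hy hy1 => ?_⟩
  have := hcov (show (⟨y, hy⟩ : F) ∈ Metric.closedBall (0 : F) 1 by
    have h0 : dist y (0 : E) ≤ 1 := by rwa [dist_zero_right]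
    exact h0)
  simp only [Set.mem_iUnion] at this
  obtain ⟨z, hz, hyz⟩ := this
  have h2 : dist y (z : E) < 1 / 4 := hyz
  rw [dist_eq_norm] at h2
  have h3 := coord_le (y - z) N
  rw [map_sub, map_sub] at h3
  have h4 := hN1 z hz
  have h5 := abs_sub_abs_le_abs_sub (ev N (π y)) (ev N (π z))
  linarith

lemma not_mono (P : ℕ → E →L[ℝ] E)
    (h1 : ∀ n, FiniteDimensional ℝ (LinearMap.range (P n : E →ₗ[ℝ] E)))
    (h2 : ∀ n m, (P n).comp (P m) = P (min n m))
    (h3 : ∀ x : E, Tendsto (fun n => P n x) atTop (𝓝 x)) (h4 : ∀ n, ‖P n‖ ≤ 1) : False := by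
  set x1 : E := ι (e 0 + e 1) with hx1
  set x2 : E := ι (e 0 - (1 / 2 : ℝ) • e 1) with hx2
  have e1 := Metric.tendsto_nhds.mp (h3 x1) (1 / 8 / 2) (by norm_num)
  have e2 := Metric.tendsto_nhds.mp (h3 x2) (1 / 8 / 2) (by norm_num)
  obtain ⟨n, hn1, hn2⟩ := (e1.and e2).exists
  rw [dist_eq_norm] at hn1 hn2
  have hPP : ∀ x, P n (P n x) = P n x := by
    intro x
    have := h2 n n
    rw [min_self] at this
    rw [← ContinuousLinearMap.comp_apply, this]
  have fix1 := fixed (f.comp π) (P n) (h4 n) hPP x1 (1 / 8) (by norm_num)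
    (fun w => le_trans (le_abs_self _) (f_le w)) (by
      intro w hw
      have a1 := f_le (w - x1)
      have a2 : f (π x1) = 3 / 2 := by
        rw [hx1, π_ι, map_add, f_e, f_e]; norm_num
      rw [map_sub, map_sub, a2, abs_le] at a1
      show ‖w‖ ≤ f (π w)
      apply normE_le _ _ (by linarith)
      · intro k
        have a3 := coord_le (w - x1) k
        rw [map_sub, map_sub, hx1, π_ι, map_add, ev_e, ev_e, abs_le] at a3
        rw [abs_le]
        split_ifs at a3 <;> first | omega | (constructor <;> linarith [a3.1, a3.2])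
      · rw [abs_of_pos (by linarith)]) hn1
  have fix2 := fixed ((ev 0).comp π) (P n) (h4 n) hPP x2 (1 / 8) (by norm_num)
    (fun w => le_trans (le_abs_self _) (coord_le w 0)) (by
      intro w hw
      have a1 := f_le (w - x2)
      have a2 : f (π x2) = 3 / 4 := by
        rw [hx2, π_ι, map_sub, map_smul, f_e, f_e]; norm_num
      rw [map_sub, map_sub, a2, abs_le] at a1
      have a3 : ∀ k, |ev k (π w) - ((if k = 0 then 1 else 0) - 1 / 2 * (if k = 1 then 1 else 0))|
          ≤ ‖w - x2‖ := by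
        intro k
        have a3 := coord_le (w - x2) k
        rwa [map_sub, map_sub, hx2, π_ι, map_sub, map_smul, ev_e, ev_e, smul_eq_mul] at a3
      have a4 := a3 0
      simp only [if_true, zero_ne_one, if_false, mul_zero, sub_zero, abs_le] at a4
      show ‖w‖ ≤ ev 0 (π w)
      apply normE_le _ _ (by linarith)
      · intro k
        by_cases hk : k = 0
        · rw [hk, abs_of_pos (by linarith)]
        · have a5 := a3 k
          rw [abs_le] at a5 ⊢
          split_ifs at a5 <;> first | omega | (constructor <;> linarith [a5.1, a5.2])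
      · rw [abs_le]
        constructor <;> linarith) hn2
  have := h1 n
  obtain ⟨N, hN0, hN⟩ := small (LinearMap.range (P n : E →ₗ[ℝ] E))
  set x : E := ι (∑ k ∈ Finset.range (N + 2), e (k + 1)) with hx
  have b1 : f (π x) = 1 - (1 / 2) ^ (N + 2) := by
    rw [hx, π_ι, map_sum]
    simp only [f_e]
    induction (N + 2) with
    | zero => simp
    | succ m ih => rw [Finset.sum_range_succ, ih]; ring
  have b2 : ∀ k, ev k (π x) = if k ∈ (Finset.range (N + 2)).image (fun j => j + 1) then 1 else 0 := by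
    intro k
    rw [hx, π_ι, map_sum]
    simp only [ev_e]
    rw [← Finset.sum_image (f := fun j => if k = j then (1:ℝ) else 0) (g := fun j => j + 1)
      (fun a _ b _ h => by simpa using h), Finset.sum_ite_eq]
  have b3 : ev 0 (π x) = 0 := by rw [b2]; simp
  have b4 : (0:ℝ) < (1 / 2) ^ (N + 2) := by positivity
  have b5 : (1 / 2 : ℝ) ^ (N + 2) ≤ 1 := pow_le_one₀ (by norm_num) (by norm_num)
  have b6 : ‖x‖ ≤ 1 := by
    apply normE_le _ _ zero_le_one
    · intro k
      rw [b2]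
      split_ifs <;> simp
    · rw [b1, abs_le]
      constructor <;> linarith
  have b7 : ‖P n x‖ ≤ 1 := by
    have := (P n).le_opNorm x
    nlinarith [h4 n, norm_nonneg x, norm_nonneg (P n)]
  have b8 := f_gap (π (P n x)) 1 N hN0 (fun k => le_trans (coord_le _ k) b7)
    (hN _ ⟨x, rfl⟩ b7)
  have c1 : f (π (P n x)) = f (π x) := fix1 x
  have c2 : ev 0 (π (P n x)) = ev 0 (π x) := fix2 x
  rw [c1, c2, b1, b3] at b8
  rw [pow_succ (1 / 2 : ℝ) (N + 1)] at b8 b4
  linarith

theorem result :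
    ¬ (∀ (𝕜 : Type) [RCLike 𝕜] (E : Type) [NormedAddCommGroup E] [NormedSpace 𝕜 E]
      [CompleteSpace E],
      (∃ P : ℕ → E →L[𝕜] E,
          (∀ n, FiniteDimensional 𝕜 (LinearMap.range (P n : E →ₗ[𝕜] E))) ∧
          (∀ n m, (P n).comp (P m) = P (min n m)) ∧
          (∀ x : E, Tendsto (fun n => P n x) atTop (𝓝 x))) →
      ∃ P : ℕ → E →L[𝕜] E,
        ((∀ n, FiniteDimensional 𝕜 (LinearMap.range (P n : E →ₗ[𝕜] E))) ∧
          (∀ n m, (P n).comp (P m) = P (min n m)) ∧
          (∀ x : E, Tendsto (fun n => P n x) atTop (𝓝 x))) ∧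
        ∀ Q : ℕ → E →L[𝕜] E,
          ((∀ n, FiniteDimensional 𝕜 (LinearMap.range (Q n : E →ₗ[𝕜] E))) ∧
            (∀ n m, (Q n).comp (Q m) = Q (min n m)) ∧
            (∀ x : E, Tendsto (fun n => Q n x) atTop (𝓝 x))) →
          ∀ c : ℝ, (∀ m, ‖Q m‖ ≤ c) → ∀ n, ‖P n‖ ≤ c) := by
  intro H
  obtain ⟨P, ⟨h1, h2, h3⟩, h4⟩ := H ℝ E ⟨Q 0, Q_fdd 0⟩
  apply not_mono P h1 h2 h3
  intro n
  have h5 : ∀ N : ℕ, ‖P n‖ ≤ 1 + 2 * (1 / 2) ^ N := fun N => h4 (Q N) (Q_fdd N) _ (Q_norm N) n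
  have h6 : Tendsto (fun N : ℕ => 1 + 2 * (1 / 2 : ℝ) ^ N) atTop (𝓝 (1 + 2 * 0)) :=
    ((tendsto_pow_atTop_nhds_zero_of_lt_one (by norm_num) (by norm_num)).const_mul 2).const_add 1
  have := ge_of_tendsto' h6 h5
  linarith

end Pool.Agent.S05490
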