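import Pool.Statements.S05499
-- import your own Pool.Agent.* helpers here

set_option autoImplicit false
open MeasureTheory
open Pool Pool.MP_98de44_an

namespace Pool.Agent.S05499

lemma dich {Z : Type} [MeasurableSpace Z] {ν : Measure Z} {S : Z → Z} (hS : Ergodic S ν)
    {f : Z → ℂ} (hf : Measurable f) {c : ℂ} (h : ∀ᵐ z ∂ν, f (S z) = c * f z) :
    (∀ᵐ z ∂ν, f z = 0) ∨ (c ≠ 0 ∧ ∀ᵐ z ∂ν, f z ≠ 0) := by
  have hm : MeasurableSet {z | f z = 0} := hf (measurableSet_singleton 0)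
  by_cases hc : c = 0
  · left
    have h1 : ∀ᵐ z ∂ν, f (S z) = 0 := by
      filter_upwards [h] with z hz
      rw [hz, hc, zero_mul]
    have h2 := hS.toMeasurePreserving.measure_preimage hm.compl.nullMeasurableSet
    rw [ae_iff] at h1 ⊢
    exact h2.symm.trans h1
  · have h1 : S ⁻¹' {z | f z = 0} =ᵐ[ν] {z | f z = 0} := by
      filter_upwards [h] with z hz
      show (f (S z) = 0) = (f z = 0)
      rw [hz]; simp [hc]
    rcases hS.quasiErgodic.ae_empty_or_univ₀ hm.nullMeasurableSet h1 with h2 | h2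
    · right
      refine ⟨hc, ?_⟩
      filter_upwards [h2] with z hz h0
      exact cast hz h0
    · left
      filter_upwards [h2] with z hz
      have : z ∈ {z | f z = 0} := by
        have e : ({z | f z = 0} : Set Z) z = (Set.univ : Set Z) z := hz
        show ({z | f z = 0} : Set Z) z
        rw [e]; trivial
      exact this

lemma ratio {Z : Type} [MeasurableSpace Z] {ν : Measure Z} {S : Z → Z} (hS : Ergodic S ν)
    {p q : Z → ℂ} (hp : Measurable p) (hq : Measurable q) {c : ℂ} (hc : c ≠ 0)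
    (h1 : ∀ᵐ z ∂ν, p (S z) = c * p z) (h2 : ∀ᵐ z ∂ν, q (S z) = c * q z)
    (h0 : ∀ᵐ z ∂ν, q z ≠ 0) : ∃ k : ℂ, ∀ᵐ z ∂ν, p z = k * q z := by
  obtain ⟨k, hk⟩ := hS.ae_eq_const_of_ae_eq_comp_ae (g := fun z => p z / q z)
    (hp.div hq).aestronglyMeasurable (by
      filter_upwards [h1, h2] with z a b
      show p (S z) / q (S z) = p z / q z
      rw [a, b, mul_div_mul_left _ _ hc])
  refine ⟨k, ?_⟩
  filter_upwards [hk, h0] with z a b
  have a' : p z / q z = k := a
  rw [← a', div_mul_cancel₀ _ b]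

lemma eig {α : Type} [MeasurableSpace α] {μ : Measure α} [SigmaFinite μ] [NeZero μ] {T : α → α}
    (hT : MeasurePreserving T μ μ) (hE : Ergodic (Prod.map T T) (μ.prod μ))
    {h : α → ℂ} (hm : Measurable h) {e : ℂ} (h1 : ∀ᵐ y ∂μ, h (T y) = e * h y)
    (h0 : ∀ᵐ y ∂μ, h y ≠ 0) : e = 1 := by
  have h0' : ∀ᵐ y ∂μ, h (T y) ≠ 0 := hT.quasiMeasurePreserving.ae h0
  have he : e ≠ 0 := by
    obtain ⟨y, a, b⟩ := (h1.and h0').exists
    intro h2
    rw [h2, zero_mul] at a
    exact b a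
  obtain ⟨k, hk⟩ := ratio hE (p := fun z => h z.2) (q := fun z => h z.1)
    (hm.comp measurable_snd) (hm.comp measurable_fst) he
    (Measure.quasiMeasurePreserving_snd.ae h1) (Measure.quasiMeasurePreserving_fst.ae h1)
    (Measure.quasiMeasurePreserving_fst.ae h0)
  obtain ⟨u, hu⟩ := (Measure.ae_ae_of_ae_prod hk).exists
  have hu' : ∀ᵐ y ∂μ, h (T y) = k * h u := hT.quasiMeasurePreserving.ae hu
  obtain ⟨y, a, b, c, d⟩ := (h1.and (h0.and (hu.and hu'))).exists
  simp only at c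
  have : e * h y = 1 * h y := by rw [← a, d, ← c, one_mul]
  exact mul_right_cancel₀ b this

theorem result :
    ∀ (α : Type) [MeasurableSpace α] [StandardBorelSpace α]
      (μ : MeasureTheory.Measure α) [MeasureTheory.SigmaFinite μ] (T : α ≃ᵐ α),
      μ Set.univ = ⊤ →
      MeasureTheory.MeasurePreserving (⇑T) μ μ →
      MeasureTheory.Conservative (⇑T) μ →
      Ergodic (Prod.map ⇑T ⇑T) (μ.prod μ) →
      ∀ (f : α × α → ℂ), Measurable f → ∀ c : ℂ,
        (f ∘ Prod.map ⇑T ⇑T =ᵐ[μ.prod μ] fun x => c * f x) →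
        ∃ a : ℂ, f =ᵐ[μ.prod μ] fun _ => a := by
  intro α _ _ μ _ T hμ hT _ hE f hf c h
  have : NeZero μ := ⟨fun h0 => by simp [h0] at hμ⟩
  have h' : ∀ᵐ z ∂(μ.prod μ), f (Prod.map T T z) = c * f z := h
  rcases dich hE hf h' with h0 | ⟨hc, h0⟩
  · exact ⟨0, h0⟩
  have m1 : MeasurePreserving (Prod.map id T) (μ.prod μ) (μ.prod μ) :=
    (MeasurePreserving.id μ).prod hT
  have m2 : MeasurePreserving (Prod.map T id) (μ.prod μ) (μ.prod μ) :=
    hT.prod (MeasurePreserving.id μ)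
  obtain ⟨e, he⟩ := ratio hE (p := fun z => f (Prod.map id T z)) (q := f)
    (hf.comp m1.measurable) hf hc (m1.quasiMeasurePreserving.ae h') h' h0
  have e1 : e = 1 := by
    obtain ⟨x, a, b⟩ := ((Measure.ae_ae_of_ae_prod he).and (Measure.ae_ae_of_ae_prod h0)).exists
    exact eig hT hE (h := fun y => f (x, y)) (hf.comp measurable_prodMk_left) a b
  have h2 : ∀ᵐ z ∂(μ.prod μ), f (T z.1, z.2) = c * f z := by
    filter_upwards [m2.quasiMeasurePreserving.ae he, h'] with z a b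
    have a' : f (Prod.map T T z) = e * f (T z.1, z.2) := a
    rw [← b, a', e1, one_mul]
  have c1 : c = 1 := by
    have s1 := (Measure.measurePreserving_swap (μ := μ) (ν := μ)).quasiMeasurePreserving
    obtain ⟨y, a, b⟩ := ((Measure.ae_ae_of_ae_prod (s1.ae h2)).and
      (Measure.ae_ae_of_ae_prod (s1.ae h0))).exists
    exact eig hT hE (h := fun x => f (x, y)) (hf.comp measurable_prodMk_right) a b
  refine hE.ae_eq_const_of_ae_eq_comp_ae hf.aestronglyMeasurable ?_
  filter_upwards [h'] with z a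
  rw [c1, one_mul] at a
  exact a

end Pool.Agent.S05499
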