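import Pool.Statements.S05519
import Pool.Agent.H.MP_9a8732_an.A

set_option autoImplicit false
open Filter Topology
open Pool Pool.MP_9a8732_an

namespace Pool.Agent.S05519

theorem result :
  ∀ (D : Set (EuclideanSpace ℝ (Fin 2))) (u : EuclideanSpace ℝ (Fin 2) → ℝ),
    IsOpen D → IsConnected D →
    (∀ p ∈ frontier D, ∃ ρ : ℝ, 0 < ρ ∧
      ∃ R : EuclideanSpace ℝ (Fin 2) ≃ₗᵢ[ℝ] EuclideanSpace ℝ (Fin 2),
      ∃ g : ℝ → ℝ, ∃ L : NNReal, LipschitzWith L g ∧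
        ∀ x ∈ Metric.ball p ρ,
          (x ∈ D ↔ g (EuclideanSpace.proj (0 : Fin 2) (R (x - p)))
                      < EuclideanSpace.proj (1 : Fin 2) (R (x - p)))) →
    (0 : EuclideanSpace ℝ (Fin 2)) ∈ frontier D →
    ContDiffOn ℝ 1 u (Metric.ball 0 2) →
    (∀ ρ : ℝ, ρ < 2 → ∃ L : NNReal,
      LipschitzOnWith L (fderiv ℝ u) (Metric.closedBall 0 ρ)) →
    (∀ φ : EuclideanSpace ℝ (Fin 2) → ℝ, ContDiff ℝ 1 φ → HasCompactSupport φ →
      tsupport φ ⊆ Metric.ball 0 2 →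
      ∫ x, (∑ i : Fin 2, fderiv ℝ u x (EuclideanSpace.single i (1 : ℝ))
              * fderiv ℝ φ x (EuclideanSpace.single i (1 : ℝ)))
        = - ∫ x, EuclideanSpace.proj (0 : Fin 2) x
              * D.indicator (fun _ => (1 : ℝ)) x * φ x) →
    (∀ x ∈ Metric.ball (0 : EuclideanSpace ℝ (Fin 2)) 2, x ∉ closure D → u x = 0) →
    ∀ (r s : ℕ → ℝ) (v w : EuclideanSpace ℝ (Fin 2) → ℝ),
      (∀ n, 0 < r n) → (∀ n, 0 < s n) →
      Tendsto r atTop (𝓝 0) → Tendsto s atTop (𝓝 0) →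
      TendstoLocallyUniformly (fun n x => u (r n • x) / r n ^ 3) v atTop →
      TendstoLocallyUniformly (fun n x => u (s n • x) / s n ^ 3) w atTop →
      v = w := by
  intro D u hD _ hL h0 hu _ hw hz r s v w r0 s0 hr hs hv hw'
  obtain ⟨ρ, hρ, R, g, L, gL, hg⟩ := hL 0 h0
  refine H.MP_9a8732_an.uniq hD h0 hρ R gL (fun x hx => by simpa using hg x hx) hu
    (fun φ h2 hc hs => ?_) hz
    (tendsto_nhdsWithin_iff.2 ⟨hr, Eventually.of_forall r0⟩)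
    (tendsto_nhdsWithin_iff.2 ⟨hs, Eventually.of_forall s0⟩) hv hw'
  rw [H.MP_9a8732_an.ibp hu h2 hc hs]
  exact neg_eq_iff_eq_neg.2 (hw φ (h2.of_le one_le_two) hc hs)

end Pool.Agent.S05519
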