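import Pool.Statements.S05526
import Pool.Agent.H.MP_9b2fd3_an.A

set_option autoImplicit false
open Pool Pool.MP_9b2fd3_an

namespace Pool.Agent.S05526

open Pool.Agent.H.MP_9b2fd3_an Pool.Agent.H.MP_0dad12_an

theorem result :
    ¬ (∀ (H : Type) [NormedAddCommGroup H] [InnerProductSpace ℂ H] [CompleteSpace H]
      [TopologicalSpace.SeparableSpace H]
      (K : Type) [NormedAddCommGroup K] [InnerProductSpace ℂ K] [CompleteSpace K]
      [TopologicalSpace.SeparableSpace K]
      (M : VonNeumannAlgebra H) (N : VonNeumannAlgebra K),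
      (∀ z ∈ M, (∀ x ∈ M, x * z = z * x) → ∃ c : ℂ, z = c • (1 : H →L[ℂ] H)) →
      (∀ z ∈ N, (∀ x ∈ N, x * z = z * x) → ∃ c : ℂ, z = c • (1 : K →L[ℂ] K)) →
      (¬ ∃ s : Finset (H →L[ℂ] H), s.card ≤ 4 ∧
          ∀ x ∈ M, x ∈ Submodule.span ℂ (s : Set (H →L[ℂ] H))) →
      (¬ ∃ s : Finset (K →L[ℂ] K), s.card ≤ 4 ∧
          ∀ x ∈ N, x ∈ Submodule.span ℂ (s : Set (K →L[ℂ] K))) →
      ∀ φ : {a : H →L[ℂ] H // a ∈ M ∧ IsSelfAdjoint a} →
            {b : K →L[ℂ] K // b ∈ N ∧ IsSelfAdjoint b},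
        Function.Bijective φ →
        (∀ a b, Commute a.1 b.1 ↔ Commute (φ a).1 (φ b).1) →
        ∃ J : (H →L[ℂ] H) → (K →L[ℂ] K),
          Set.BijOn J (M : Set (H →L[ℂ] H)) (N : Set (K →L[ℂ] K)) ∧
          (∀ x ∈ M, ∀ y ∈ M, ∀ c : ℂ,
            J (x + y) = J x + J y ∧ J (c • x) = c • J x ∧
            J (star x) = star (J x) ∧
            J (x * y + y * x) = J x * J y + J y * J x) ∧
          ∀ a : {a : H →L[ℂ] H // a ∈ M ∧ IsSelfAdjoint a},
            ∃ b : H →L[ℂ] H, IsSelfAdjoint b ∧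
              b ∈ Set.centralizer (Set.centralizer ({a.1} : Set (H →L[ℂ] H))) ∧
              J b = (φ a).1) := by
  intro hh
  classical
  have main : ∀ (H : Type) [NormedAddCommGroup H] [InnerProductSpace ℂ H] [CompleteSpace H]
      (b : HilbertBasis LL ℂ H), False := by
    intro H _ _ _ b
    have : TopologicalSpace.SeparableSpace H := by
      rw [← TopologicalSpace.isSeparable_univ_iff]
      have := (((Set.countable_range b).isSeparable).span (R := ℂ)).closure
      rwa [← Submodule.topologicalClosure_coe, b.dense_span] at this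
    obtain ⟨L, R, h⟩ := exists_reg b
    let M : VonNeumannAlgebra H :=
      { toStarSubalgebra := StarSubalgebra.centralizer ℂ (Set.range R)
        centralizer_centralizer' := Set.centralizer_centralizer_centralizer _ }
    have hM : ∀ x, x ∈ M ↔ ∀ g, Commute (R g) x := by
      intro x
      refine (StarSubalgebra.mem_centralizer_iff ℂ).trans ⟨fun e g => (e _ ⟨g, rfl⟩).1, ?_⟩
      rintro e _ ⟨g, rfl⟩
      exact ⟨e g, by rw [h.starR]; exact e _⟩
    have hL : ∀ g, L g ∈ M := fun g => (hM _).2 fun k => h.LR k g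
    have f1 : ∀ z ∈ M, (∀ x ∈ M, x * z = z * x) → ∃ c : ℂ, z = c • (1 : H →L[ℂ] H) :=
      fun z hz e => h.scalar ((hM z).1 hz) fun g hg =>
        h.coef0 ((hM z).1 hz) id (fun k => (e _ (hL k)).symm) (LL.icc hg)
    have l0 : lamp 0 ≠ 1 := fun e => by simpa [lamp] using congrArg LL.f e
    have f2 : ¬ ∃ s : Finset (H →L[ℂ] H), s.card ≤ 4 ∧
        ∀ x ∈ M, x ∈ Submodule.span ℂ (s : Set (H →L[ℂ] H)) := by
      rintro ⟨s, -, hs⟩
      have h1 : LinearIndependent ℂ L := by
        refine LinearIndependent.of_comp (ContinuousLinearMap.apply ℂ H (b 1)).toLinearMap ?_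
        have : ⇑(ContinuousLinearMap.apply ℂ H (b 1)).toLinearMap ∘ L = b := by
          ext g
          simp [h.hL]
        rw [this]
        exact b.orthonormal.linearIndependent
      have := h1.finite_of_le_span_finite L s (Set.range_subset_iff.2 fun g => hs _ (hL g))
      exact LL.icc l0 (Set.toFinite _)
    let u : ℕ → H →L[ℂ] H := fun k => L (lamp k)
    have u1 : ∀ k, u k * u k = 1 := fun k => by rw [h.mulL, lamp_sq, h.oneL]
    have u0 : ∀ k, star (u k) = u k := fun k => by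
      rw [h.starL, inv_eq_of_mul_eq_one_right (lamp_sq k)]
    have : Nontrivial H := ⟨⟨_, _, b.orthonormal.ne_zero 1⟩⟩
    have u2 : ∀ k, ‖u k‖ ≤ 1 := fun k => by
      have := CStarRing.norm_star_mul_self (x := u k)
      rw [u0, u1, norm_one] at this
      nlinarith [norm_nonneg (u k)]
    have u3 : ∀ i j, Commute (u i) (u j) := fun i j => by
      change _ = _
      rw [h.mulL, h.mulL, (lamp_comm rfl j).eq]
    have tM : ∀ n, tl u n ∈ M ∧ IsSelfAdjoint (tl u n) := fun n =>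
      ⟨(hM _).2 fun g => comm_tl u2 fun k => h.LR _ _, by
        rw [IsSelfAdjoint, tl, tsum_star]
        simp [u0]⟩
    have key : ∀ x ∈ M, Commute x (tl u 0) ↔ Commute x (tl u 1) := by
      intro x hx
      refine ⟨fun e => comm_tl u2 fun k => of_comm_tl u1 u2 u3 e (k + 1), fun e => ?_⟩
      have e' := of_comm_tl u1 u2 u3 e
      refine comm_tl u2 fun k => ?_
      refine h.comm ((hM x).1 hx) (fun k => lamp (k + 1)) e' fun g => ?_
      by_cases hg : g.n = 0
      · exact Or.inl (lamp_comm hg _)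
      · exact Or.inr fun k _ => lamp_inf (by simpa using hg)
    let φ := Equiv.swap (α := {a : H →L[ℂ] H // a ∈ M ∧ IsSelfAdjoint a}) ⟨_, tM 1⟩ ⟨_, tM 0⟩
    have p1 : ∀ x ∈ M, ∀ c, Commute x (φ c).1 ↔ Commute x c.1 := by
      intro x hx c
      simp only [φ, Equiv.swap_apply_def]
      split_ifs with e1 e2
      · rw [e1]
        exact key x hx
      · rw [e2]
        exact (key x hx).symm
      · rfl
    obtain ⟨J, j1, j2, j3⟩ := hh H H M M f1 f1 f2 f2 φ φ.bijective fun x y => by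
      rw [p1 _ (φ x).2.1, Commute.symm_iff (a := (φ x).1), p1 _ y.2.1, Commute.symm_iff]
    have J1 : J 1 = 1 := by
      obtain ⟨y, hy, e⟩ := j1.surjOn (one_mem M)
      have e1 := (j2 1 (one_mem M) y hy 0).2.2.2
      rw [one_mul, mul_one, (j2 y hy y hy 0).1, e, one_mul, mul_one, ← two_smul ℂ,
        ← two_smul ℂ] at e1
      exact (smul_right_injective _ two_ne_zero e1).symm
    have cM : ∀ c ∈ M, ∀ d ∈ Set.centralizer (Set.centralizer ({c} : Set (H →L[ℂ] H))),
        d ∈ M ∧ ∀ D, Commute D c → Commute D d := by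
      intro c hc d hd
      have : ∀ D, Commute D c → Commute D d := fun D e => hd D (by
        rintro _ rfl
        exact e.symm.eq)
      exact ⟨(hM d).2 fun g => this _ ((hM c).1 hc g), this⟩
    obtain ⟨D, D1, D2⟩ := exists_diag b fun g => g.f 0 = 0
    obtain ⟨E, E1, E2⟩ := exists_diag b fun g => g = 1 ∨ g = lamp 0
    have Da : Commute D (tl u 1) := comm_tl u2 fun k => (D1 h _).2 fun g => by
      simp [lamp, show (k : ℤ) + 1 ≠ 0 by omega]
    have Dt : ¬ Commute D (u 0) := fun e => by simpa [lamp] using (D1 h _).1 e 1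
    have Et : Commute E (u 0) := (E1 h _).2 fun g => by
      rw [mul_eq_one_iff_inv_eq, inv_eq_of_mul_eq_one_right (lamp_sq 0), mul_eq_left, or_comm,
        eq_comm (b := g)]
    have Ea : ¬ Commute E (tl u 0) := fun e => by
      have := (E1 h _).1 (of_comm_tl u1 u2 u3 e 1) 1
      simp only [mul_one, true_or, iff_true] at this
      rcases this with e | e <;> simpa [lamp] using DFunLike.congr_fun (congrArg LL.f e) 1
    obtain ⟨d0, -, a0, b0⟩ := j3 ⟨_, tM 1⟩
    obtain ⟨d1, -, a1, b1⟩ := j3 ⟨tl u 1 + 1, add_mem (tM 1).1 (one_mem M),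
      (tM 1).2.add (IsSelfAdjoint.one _)⟩
    obtain ⟨d2, -, a2, b2⟩ := j3 ⟨u 0, hL _, u0 0⟩
    rw [Equiv.swap_apply_left] at b0
    have n1 : tl u 1 + 1 ≠ tl u 1 := by simp
    have n2 : tl u 1 + 1 ≠ tl u 0 := fun e =>
      Dt (of_comm_tl u1 u2 u3 (n := 0) (e ▸ Da.add_right (Commute.one_right D)) 0)
    have n3 : u 0 ≠ tl u 1 := fun e => Dt (e ▸ Da)
    have n4 : u 0 ≠ tl u 0 := fun e => Ea (e ▸ Et)
    rw [Equiv.swap_apply_of_ne_of_ne (mt Subtype.ext_iff.1 n1) (mt Subtype.ext_iff.1 n2)] at b1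
    rw [Equiv.swap_apply_of_ne_of_ne (mt Subtype.ext_iff.1 n3) (mt Subtype.ext_iff.1 n4)] at b2
    dsimp only at b0 b1 b2
    obtain ⟨m0, c0⟩ := cM _ (tM 1).1 d0 a0
    obtain ⟨m1, c1⟩ := cM _ (add_mem (tM 1).1 (one_mem M)) d1 a1
    obtain ⟨m2, c2⟩ := cM _ (hL _) d2 a2
    have sm : ∀ (c : ℂ), ∀ x ∈ M, c • x ∈ M := fun c x hx => M.toStarSubalgebra.smul_mem hx c
    have e1 : d0 + (3⁻¹ : ℂ) • 1 = d2 + (3⁻¹ : ℂ) • d1 := by
      refine j1.injOn (add_mem m0 (sm _ _ (one_mem M))) (add_mem m2 (sm _ _ m1)) ?_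
      rw [(j2 _ m0 _ (sm _ _ (one_mem M)) 0).1, (j2 _ m2 _ (sm _ _ m1) 0).1,
        (j2 _ m1 _ m1 _).2.1, (j2 _ (one_mem M) _ m1 _).2.1, J1, b0, b1, b2, smul_add,
        ← add_assoc, ← tl_succ u2]
    have e2 : Commute D d2 := by
      rw [← sub_eq_iff_eq_add.2 e1]
      exact ((c0 D Da).add_right ((Commute.one_right D).smul_right _)).sub_right
        ((c1 D (Da.add_right (Commute.one_right D))).smul_right _)
    obtain ⟨c, hc⟩ := h.scalar ((hM _).1 m2) fun g hg => by
      by_cases e : g = lamp 0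
      · exact D2 _ e2 (by simp) g (by simp [e, lamp])
      · exact E2 _ (c2 E Et) (Or.inl rfl) g (by simp [hg, e])
    rw [hc, (j2 _ (one_mem M) _ m1 _).2.1, J1] at b2
    exact Dt (b2 ▸ (Commute.one_right D).smul_right c)
  exact main (lp (fun _ : LL => ℂ) 2) default

end Pool.Agent.S05526
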