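import Pool.Statements.S05534
-- import your own Pool.Agent.* helpers here
import Pool.Agent.H.MP_826cdb_an.C

set_option autoImplicit false
open Pool Pool.MP_9c3653_an

namespace Pool.Agent.S05534

theorem result :
    ¬ (∀ (X : Type) [NormedAddCommGroup X] [NormedSpace ℝ X] [CompleteSpace X]
      (A : X → Set (X →L[ℝ] ℝ)),
      (∀ x y : X, ∀ f ∈ A x, ∀ g ∈ A y, 0 ≤ (f - g) (x - y)) →
      (∀ (x : X) (f : X →L[ℝ] ℝ),
          (∀ y : X, ∀ g ∈ A y, 0 ≤ (f - g) (x - y)) → f ∈ A x) →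
      Convex ℝ {x : X | (A x).Nonempty} →
      ∀ U : Set X, IsOpen U → Convex ℝ U →
        (U ∩ {x : X | (A x).Nonempty}).Nonempty →
        ∀ x ∈ U, ∀ f : X →L[ℝ] ℝ,
          (∀ y ∈ U, ∀ g ∈ A y, 0 ≤ (f - g) (x - y)) → f ∈ A x) := by
  obtain ⟨X, _, _, _, G, l, z, ⟨hm, hx⟩, hc, hz, hn, ⟨a, ha, ha0⟩, hG⟩ :=
    Pool.Agent.H.MP_826cdb_an.ex2
  intro h
  exact hn 0 (h X (fun x => {f | (x, f) ∈ G}) (fun x y f hf g hg => hm _ hf _ hg)
    (fun x f hf => hx _ fun q hq => hf _ _ hq) hc {x | 0 < l x}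
    (isOpen_lt continuous_const l.continuous) (convex_halfSpace_gt l.toLinearMap.isLinear 0)
    ⟨a.1, ha0, a.2, ha⟩ z hz 0 fun y hy g hg => by simpa using hG _ hg hy)

end Pool.Agent.S05534
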