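import Pool.Statements.S05544
-- import your own Pool.Agent.* helpers here
import Pool.Agent.H.MP_826cdb_an.B

set_option autoImplicit false
open Pool Pool.MP_9cd69f_an

namespace Pool.Agent.S05544

theorem result :
    ¬ (∀ (X : Type) [NormedAddCommGroup X] [NormedSpace ℝ X] [CompleteSpace X]
    (A B : X → Set (X →L[ℝ] ℝ)),
    (∃ S : Submodule ℝ (X × (X →L[ℝ] ℝ)), ∀ (x : X) (f : X →L[ℝ] ℝ), f ∈ A x ↔ (x, f) ∈ S) →
    ((∀ (x y : X) (f g : X →L[ℝ] ℝ), f ∈ A x → g ∈ A y → 0 ≤ (f - g) (x - y)) ∧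
      (∀ (x : X) (f : X →L[ℝ] ℝ),
        (∀ (y : X) (g : X →L[ℝ] ℝ), g ∈ A y → 0 ≤ (f - g) (x - y)) → f ∈ A x)) →
    ((∀ (x y : X) (f g : X →L[ℝ] ℝ), f ∈ B x → g ∈ B y → 0 ≤ (f - g) (x - y)) ∧
      (∀ (x : X) (f : X →L[ℝ] ℝ),
        (∀ (y : X) (g : X →L[ℝ] ℝ), g ∈ B y → 0 ≤ (f - g) (x - y)) → f ∈ B x)) →
    (∀ z : X, ∃ t : ℝ, 0 < t ∧ ∃ a b : X, (A a).Nonempty ∧ (B b).Nonempty ∧ z = t • (a - b)) →
    ((∀ (x y : X) (f g : X →L[ℝ] ℝ),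
        (∃ f₁ ∈ A x, ∃ f₂ ∈ B x, f = f₁ + f₂) →
        (∃ g₁ ∈ A y, ∃ g₂ ∈ B y, g = g₁ + g₂) → 0 ≤ (f - g) (x - y)) ∧
      (∀ (x : X) (f : X →L[ℝ] ℝ),
        (∀ (y : X) (g : X →L[ℝ] ℝ), (∃ g₁ ∈ A y, ∃ g₂ ∈ B y, g = g₁ + g₂) →
          0 ≤ (f - g) (x - y)) →
        ∃ f₁ ∈ A x, ∃ f₂ ∈ B x, f = f₁ + f₂))) := by
  obtain ⟨X, _, _, _, G, l, z, κ, hm, hx, hz, hκ, ⟨a, ha, ha0⟩, ⟨b, hb, hb1⟩, hG⟩ :=
    Pool.Agent.H.MP_826cdb_an.ex1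
  have hn : ∀ f, (z, f) ∉ G := fun f hf => by
    rcases hG _ hf with h | h <;> linarith [h.1]
  intro h
  have hB := Pool.Agent.H.MP_826cdb_an.MM.prod ⟨hm, hx⟩
    (Pool.Agent.H.MP_826cdb_an.NC_mm (ContinuousLinearMap.id ℝ ℝ) (1 / 2) rfl)
  obtain ⟨m, hm1⟩ : ∃ m : X × ℝ →L[ℝ] ℝ, ∀ p, m p = l p.1 - p.2 :=
    ⟨l.comp (ContinuousLinearMap.fst ℝ X ℝ) - ContinuousLinearMap.snd ℝ X ℝ, fun _ => rfl⟩
  obtain ⟨-, -, f, hf, -⟩ := (h (X × ℝ) (fun p => {f | m p = 0 ∧ ∃ c : ℝ, f = c • m})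
    (fun p => {f | (p.1, f.comp (ContinuousLinearMap.inl ℝ X ℝ)) ∈ G ∧
      (p.2, f.comp (ContinuousLinearMap.inr ℝ X ℝ)) ∈
        Pool.Agent.H.MP_826cdb_an.NC (ContinuousLinearMap.id ℝ ℝ)})
    ⟨(m.ker).prod (Submodule.span ℝ {m}), fun p f => by
      simp [Submodule.mem_span_singleton, eq_comm]⟩
    ⟨by
      rintro p q _ _ ⟨h1, c, rfl⟩ ⟨h2, d, rfl⟩
      simp [h1, h2], fun p f hf => by
      have h1 : ∀ c : ℝ, 0 ≤ f p - c * m p := fun c => by simpa using hf 0 _ ⟨map_zero m, c, rfl⟩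
      have h2 := Pool.Agent.H.MP_826cdb_an.slope fun c _ => h1 c
      have h3 := Pool.Agent.H.MP_826cdb_an.slope (A := f p) (B := -m p) fun c _ => by
        linarith [h1 (-c)]
      have h4 : m p = 0 := by linarith
      exact ⟨h4, _, Pool.Agent.H.MP_826cdb_an.mult f m (0, -1) (by simp [hm1]) fun v hv => by
        simpa using hf (p - v) 0 ⟨by rw [map_sub, h4, hv, sub_zero], 0, by simp⟩⟩⟩
    ⟨fun x y f g hf hg => hB.1 (x, f) hf (y, g) hg, fun x f hf => hB.2 (x, f) fun q hq => hf _ _ hq⟩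
    (fun p => by
      have h0 : 0 < 2 * |m p| + 1 := by positivity
      refine ⟨2 * |m p| + 1, h0, (a.1 + (2 * |m p| + 1)⁻¹ • p.1, (2 * |m p| + 1)⁻¹ * l p.1),
        (a.1, (2 * |m p| + 1)⁻¹ * m p), ⟨0, by simp [hm1 (_, _), ha0], 0, by simp⟩,
        ⟨a.2.coprod 0, by simpa using ha, ?_, 0, le_rfl, by simp, by simp⟩, ?_⟩
      · show (2 * |m p| + 1)⁻¹ * m p ≤ 1 / 2
        rw [inv_mul_le_iff₀ h0]; linarith [le_abs_self (m p)]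
      · refine Prod.ext ?_ ?_
        · simp [smul_smul, mul_inv_cancel₀ h0.ne']
        · show p.2 = (2 * |m p| + 1) * ((2 * |m p| + 1)⁻¹ * l p.1 - (2 * |m p| + 1)⁻¹ * m p)
          rw [← mul_sub, mul_inv_cancel_left₀ h0.ne', hm1]; ring)).2 (z, 1 / 2) 0 (by
      rintro y _ ⟨_, ⟨h1, c, rfl⟩, g, ⟨h2, h3, d, -, h4, h5⟩, rfl⟩
      have h6 : m (z, 1 / 2) = 0 := by rw [hm1, hz, sub_self]
      have h7 := hm1 y
      have h8 : y.2 ≤ 1 / 2 := h3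
      rcases hG _ h2 with h9 | h9
      · have h10 : y.2 = 0 := by linarith [h9.1]
        obtain rfl : d = 0 := by simpa [h10] using h5
        have h11 := Pool.Agent.H.MP_826cdb_an.spl g ((z, 1 / 2) - y)
        rw [show g.comp (ContinuousLinearMap.inr ℝ X ℝ) = _ from h4] at h11
        have h12 := h9.2
        simp only [zero_sub, neg_apply, add_apply, smul_apply, map_sub m, h1, h6, h11,
          Prod.fst_sub, smul_eq_mul] at h12 ⊢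
        linarith
      · linarith [h9.1])
  exact hn _ hf.1

end Pool.Agent.S05544
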