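import Pool.Statements.S05547
import Pool.Agent.H.MP_9ce036_an.F

set_option autoImplicit false
open Pool Pool.MP_9ce036_an

namespace Pool.Agent.S05547

open H.MP_9ce036_an Set Filter Topology Real Complex

lemma Xy (σ l : ℝ) : y (X σ l 0) = 0 := by simp [X, ye]

lemma XΩ {σ l : ℝ} (h : 7 / 4 < σ) (l0 : 0 < l) (l1 : l ≤ 1) : X σ l ∈ Ω \ {!₂[1, 0]} := by
  refine ⟨mem.2 ⟨by simp [X], ?_⟩, fun e => by simpa [X, l0.ne', (by linarith : σ ≠ 0)] using congrArg (· 1) e⟩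
  have a : 2 / σ ≤ 8 / 7 := by rw [div_le_iff₀ (by linarith)]; linarith
  have b : 1 / σ ^ 2 ≤ 1 / 2 := by rw [div_le_iff₀ (by positivity)]; nlinarith
  have : ‖X σ l 1‖ < 1 := by
    rw [show X σ l 1 = ((-l / σ * rexp (-(σ - 2 / σ - 1 / σ ^ 2) / 2) : ℝ) : ℂ) from rfl, norm_real, norm_mul, norm_div, norm_neg, norm_of_nonneg l0.le,
      norm_of_nonneg (by linarith), norm_of_nonneg (exp_pos _).le]
    exact mul_lt_one_of_nonneg_of_lt_one_left (by positivity) ((div_lt_one (by linarith)).2 (by linarith))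
      (exp_le_one_iff.2 (by linarith))
  simpa [ρ0, Xy, (H.MP_4c8440_an.gz _).1] using this

lemma Xn {σ R : ℝ} (h : 7 / 4 < σ) (R0 : 0 < R) (k : 1 - 1 / σ ≤ R) : 0 < n R (X σ 1) ∧ Real.log (n R (X σ 1)) =
    R ^ 2 / 2 - (1 + σ - 4 / σ) / 2 + R ^ 2 * Real.log ((σ - 1) / R) - (1 + R ^ 2) * Real.log σ := by
  have s0 : 0 < σ := by linarith
  have d0 : 0 < 1 - 1 / σ := sub_pos.2 ((div_lt_one s0).2 (by linarith))
  have a : ‖Complex.log (X σ 1 0)‖ / π = 1 - 1 / σ := by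
    have := pi_pos
    have := mul_pos pi_pos (one_div_pos.2 s0)
    rw [show X σ 1 0 = cexp ((-(π * (1 - 1 / σ)) : ℝ) * I) by
      rw [← Complex.exp_periodic]; simp only [X, PiLp.toLp_apply, Matrix.cons_val_zero]; push_cast; ring_nf,
      Complex.log_exp (by simp only [mul_I_im, ofReal_re]; linarith) (by simp only [mul_I_im, ofReal_re]; nlinarith),
      norm_mul, norm_I, norm_real, norm_neg, norm_of_nonneg (by positivity)]
    field_simp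
  have b : ‖X σ 1 1‖ = rexp (-(σ - 2 / σ - 1 / σ ^ 2) / 2 - Real.log σ) := by
    rw [show X σ 1 1 = ((-1 / σ * rexp (-(σ - 2 / σ - 1 / σ ^ 2) / 2) : ℝ) : ℂ) from rfl, norm_real, norm_mul, norm_div, norm_neg, norm_one, norm_of_nonneg s0.le,
      norm_of_nonneg (exp_pos _).le, Real.exp_sub, Real.exp_log s0]
    ring
  rw [n, a, b, min_eq_left k, ee R0 d0, ← Real.exp_add, ← Real.exp_add, Real.log_exp, Xy,
    show (σ - 1) / R = (1 - 1 / σ) / R * σ by field_simp, Real.log_mul (by positivity) s0.ne']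
  exact ⟨exp_pos _, by ring⟩

theorem result :
  ∃ (n : ℕ) (Ω : Set (EuclideanSpace ℂ (Fin n))) (w : EuclideanSpace ℂ (Fin n)),
    IsOpen Ω ∧ IsConnected Ω ∧ Bornology.IsBounded Ω ∧ w ∈ Ω ∧
    (∃ ρ : EuclideanSpace ℂ (Fin n) → ℝ, ContDiff ℝ ((⊤ : ℕ∞) : WithTop ℕ∞) ρ ∧
      Ω = {z | ρ z < 0} ∧
      ∀ z : EuclideanSpace ℂ (Fin n), ρ z = 0 →
        fderiv ℝ ρ z ≠ 0 ∧
        ∀ ξ : EuclideanSpace ℂ (Fin n), ξ ≠ 0 → fderiv ℝ ρ z ξ = 0 →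
          fderiv ℝ ρ z (Complex.I • ξ) = 0 →
          0 < fderiv ℝ (fderiv ℝ ρ) z ξ ξ
              + fderiv ℝ (fderiv ℝ ρ) z (Complex.I • ξ) (Complex.I • ξ)) ∧
    ¬ ∃ f : EuclideanSpace ℂ (Fin n) → ℝ, ContDiffOn ℝ 2 f (Ω \ {w}) ∧
      ∀ z ∈ Ω \ {w}, ((f z : ℝ) : EReal) =
        sSup {t : EReal | ∃ u : EuclideanSpace ℂ (Fin n) → EReal, t = u z ∧
          UpperSemicontinuousOn u Ω ∧
          (∀ y ∈ Ω, u y < 0) ∧
          (∃ C : ℝ, ∃ δ : ℝ, 0 < δ ∧ ∀ y ∈ Ω, y ≠ w → ‖y - w‖ < δ →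
              u y ≤ ((Real.log ‖y - w‖ + C : ℝ) : EReal)) ∧
          ∀ a ∈ Ω, ∀ b : EuclideanSpace ℂ (Fin n), ∀ r : ℝ, 0 < r →
            (∀ ζ : ℂ, ‖ζ‖ ≤ r → a + ζ • b ∈ Ω) →
            ∫⁻ θ in Set.Icc (0 : ℝ) (2 * Real.pi),
                EReal.toENNReal (-(u (a + ((r : ℂ) * Complex.exp ((θ : ℂ) * Complex.I)) • b)))
              ≤ ENNReal.ofReal (2 * Real.pi) * EReal.toENNReal (-(u a))} := by
  refine ⟨2, Ω, !₂[1, 0], Ωo, Ωc, Ωb, mem.2 ⟨by simp, by simp [ρ0, y, (H.MP_4c8440_an.gz _).1]⟩,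
    ⟨ρ, ρc, rfl, fun z h => ⟨grad h, fun ξ ξ0 _ _ => levi h ξ0⟩⟩, fun ⟨f, cf, hf⟩ => ?_⟩
  have ca {σ : ℝ} (h : 7 / 4 < σ) := cf.contDiffAt ((Ωo.sdiff isClosed_singleton).mem_nhds (XΩ h one_pos le_rfl))
  have cX (σ l : ℝ) (h : σ ≠ 0) : ContDiffAt ℝ 2 (fun p : ℝ × ℝ => X p.1 p.2) (σ, l) := (contDiffAt_piLp 2).2 fun i => by
    have : ContDiff ℝ 2 fun t : ℝ => (t : ℂ) := ofRealCLM.contDiff
    fin_cases i
    · show ContDiffAt ℝ 2 (fun p : ℝ × ℝ => cexp (π * (I + I * (p.1⁻¹ : ℝ)))) _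
      fun_prop (disch := simpa)
    · show ContDiffAt ℝ 2 (fun p : ℝ × ℝ => ((-p.2 / p.1 * rexp (-(p.1 - 2 / p.1 - 1 / p.1 ^ 2) / 2) : ℝ) : ℂ)) _
      fun_prop (disch := simp [h])
  have lo {ε : ℝ} (h : |ε| < 1 / 4) (e0 : ε ≠ 0) : ((1 - |ε|) ^ 2 / 2 - (3 + ε - 4 / (2 + ε)) / 2 + (1 - |ε|) ^ 2 *
      Real.log ((1 + ε) / (1 - |ε|))) / (1 + (1 - |ε|) ^ 2) ≤ f (X (2 + ε) 1) + Real.log (2 + ε) := by
    have := abs_pos.2 e0
    have b := abs_lt.1 h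
    obtain ⟨u, v, hu⟩ := comp (R := 1 - |ε|) (by linarith) (by linarith)
    obtain ⟨p, q⟩ := Xn (σ := 2 + ε) (R := 1 - |ε|) (by linarith) (by linarith) (by
      have : 1 / 4 ≤ 1 / (2 + ε) := by gcongr <;> linarith
      linarith)
    have : u (X (2 + ε) 1) ≤ f (X (2 + ε) 1) := by
      rw [hf _ (XΩ (σ := 2 + ε) (by linarith) one_pos le_rfl)]; exact le_sSup ⟨u, rfl, hu⟩
    rw [v _ p, q, EReal.coe_le_coe_iff, sub_div, mul_div_cancel_left₀ _ (by positivity)] at this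
    ring_nf at this ⊢
    linarith
  refine jump (m := fun ε => f (X (2 + ε) 1) + Real.log (2 + ε)) (K := 6) (κ := 1 / 4) ?_ (by norm_num) ?_ ?_ ?_
  · refine (ContDiffAt.comp (g := f) 0 (by simpa using ca (σ := 2) (by norm_num)) ((cX _ 1 (by norm_num)).comp 0
      (f := fun ε : ℝ => (2 + ε, (1 : ℝ))) (by fun_prop))).add (by fun_prop (disch := norm_num))
  · have t : Tendsto (fun a : ℝ => a ^ 2 + a⁻¹ ^ 2 - 2) (𝓝[<] 1) (𝓝[>] 0) := tendsto_nhdsWithin_iff.2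
      ⟨(ContinuousAt.tendsto (by fun_prop (disch := norm_num))).mono_left nhdsWithin_le_nhds |>.trans_eq (by norm_num), by
        filter_upwards [Ioo_mem_nhdsLT one_pos] with a ha
        have := mul_inv_cancel₀ ha.1.ne'
        have : 0 < a⁻¹ - a := sub_pos.2 (ha.2.trans ((one_lt_inv₀ ha.1).2 ha.2))
        simp only [mem_Ioi]; nlinarith⟩
    refine t.frequently (Eventually.frequently ?_)
    filter_upwards [Ioo_mem_nhdsLT (show (1 / 2 : ℝ) < 1 by norm_num), t self_mem_nhdsWithin] with a ha s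
    have s : 0 < a ^ 2 + a⁻¹ ^ 2 - 2 := s
    rw [add_sub_cancel]
    have u {ε} (hε : ε ∈ Ioo (0 : ℝ) 1) : f (X (a ^ 2 + a⁻¹ ^ 2) (1 - ε)) ≤ (1 - ε) * -Real.log (a ^ 2 + a⁻¹ ^ 2) := by
      rw [← EReal.coe_le_coe_iff, hf _ (XΩ (by linarith) (by linarith [hε.2]) (by linarith [hε.1]))]
      refine sSup_le fun _ ⟨u, e, p, q, ⟨C, δ, d0, r⟩, k⟩ => e ▸ ub ha.1.le ha.2 p q k d0 r (by linarith [hε.2])
        (by linarith [hε.1]) hε.1
    have s : 7 / 4 < a ^ 2 + a⁻¹ ^ 2 := by linarith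
    generalize a ^ 2 + a⁻¹ ^ 2 = σ at *
    have := le_of_tendsto_of_tendsto (b := 𝓝[>] 0) (((ca s).continuousAt.tendsto.comp ((cX σ 1 (by linarith)).continuousAt.tendsto.comp
      (Continuous.tendsto' (f := fun ε : ℝ => (σ, 1 - ε)) (by fun_prop) 0 _ (by simp)))).mono_left nhdsWithin_le_nhds)
      ((Continuous.tendsto' (f := fun ε : ℝ => (1 - ε) * -Real.log σ) (by fun_prop) 0 _ rfl).mono_left nhdsWithin_le_nhds)
      (mem_of_superset (Ioo_mem_nhdsGT one_pos) fun ε => u)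
    linarith
  · filter_upwards [Ioo_mem_nhdsGT (show (0 : ℝ) < 1 / 4 by norm_num)] with ε h
    refine le_trans ?_ (lo (by rw [abs_of_pos h.1]; exact h.2) h.1.ne')
    have a := Real.one_sub_inv_le_log_of_pos (x := (1 + ε) / (1 - ε)) (div_pos (by linarith [h.1]) (by linarith [h.2]))
    have b : 2 * ε * (1 - ε) ≤ 1 - ((1 + ε) / (1 - ε))⁻¹ := by
      rw [inv_div, le_sub_comm, div_le_iff₀ (by linarith [h.1])]; nlinarith [h.1, pow_pos h.1 3]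
    have c : 2 - ε ≤ 4 / (2 + ε) := by rw [le_div_iff₀ (by linarith [h.1])]; nlinarith [sq_nonneg ε]
    rw [abs_of_pos h.1, le_div_iff₀ (by positivity)]
    nlinarith [mul_le_mul_of_nonneg_left (b.trans a) (sq_nonneg (1 - ε)), h.1, h.2, pow_pos h.1 2, pow_pos h.1 3,
      mul_nonneg (sq_nonneg ε) (sq_nonneg (1 - ε))]
  · filter_upwards [Ioo_mem_nhdsLT (show (-1 / 4 : ℝ) < 0 by norm_num)] with ε h
    refine le_trans ?_ (lo (by rw [abs_of_neg h.2]; linarith [h.1]) h.2.ne)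
    have c : 2 - ε + ε ^ 2 / 2 ≤ 4 / (2 + ε) := by
      rw [le_div_iff₀ (by linarith [h.1])]; nlinarith [mul_nonneg (sq_nonneg ε) (neg_nonneg.2 h.2.le)]
    rw [abs_of_neg h.2, sub_neg_eq_add, div_self (by linarith [h.1]), Real.log_one, le_div_iff₀ (by positivity)]
    nlinarith [mul_nonneg (sq_nonneg ε) (show 0 ≤ 1 - (1 + ε) ^ 2 by nlinarith [h.1, h.2])]

end Pool.Agent.S05547
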