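import Pool.Statements.S05550
import Pool.Agent.H.MP_9d0e4c_an.Layer

set_option autoImplicit false
open Pool Pool.MP_9d0e4c_an

namespace Pool.Agent.S05550

theorem result :
    ¬ (∀ (𝕜 : Type) [RCLike 𝕜] (X : Type) [NormedAddCommGroup X] [NormedSpace ℝ X]
      [NormedSpace 𝕜 X] [IsScalarTower ℝ 𝕜 X] [CompleteSpace X],
      (∀ (f : ℝ → X) (K : NNReal), LipschitzWith K f →
        ∀ᵐ t ∂(MeasureTheory.volume : MeasureTheory.Measure ℝ), DifferentiableAt ℝ f t) →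
      (⨅ T : {T : X →L[𝕜] X // ‖T‖ = 1},
          ⨆ p : {p : X × (X →L[𝕜] 𝕜) // ‖p.1‖ = 1 ∧ ‖p.2‖ = 1 ∧ p.2 p.1 = 1},
            ‖p.1.2 (T.1 p.1.1)‖)
        =
      (⨅ T : {T : (X →L[𝕜] 𝕜) →L[𝕜] (X →L[𝕜] 𝕜) // ‖T‖ = 1},
          ⨆ p : {p : (X →L[𝕜] 𝕜) × ((X →L[𝕜] 𝕜) →L[𝕜] 𝕜) //
                  ‖p.1‖ = 1 ∧ ‖p.2‖ = 1 ∧ p.2 p.1 = 1},
            ‖p.1.2 (T.1 p.1.1)‖)) := by
  intro h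
  have key : ∀ (Y : Type) [NormedAddCommGroup Y] [NormedSpace ℝ Y] (T : Y →L[ℝ] Y),
      (⨆ p : {p : Y × (Y →L[ℝ] ℝ) // ‖p.1‖ = 1 ∧ ‖p.2‖ = 1 ∧ p.2 p.1 = 1}, ‖p.1.2 (T p.1.1)‖) =
        H.MP_a8e783_an.numRad T := fun Y _ _ T => by
    refine congrArg sSup (Set.ext fun r => ⟨?_, ?_⟩)
    · rintro ⟨⟨⟨x, f⟩, h1, h2, h3⟩, rfl⟩
      exact ⟨x, f, h1, h2, h3, rfl⟩
    · rintro ⟨x, f, h1, h2, h3, rfl⟩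
      exact ⟨⟨⟨x, f⟩, h1, h2, h3⟩, rfl⟩
  have h1 := h ℝ H.MP_9d0e4c_an.X H.MP_9d0e4c_an.X_rnp
  simp only [key] at h1
  obtain ⟨R, hR, h2⟩ := H.MP_9d0e4c_an.up
  have h3 := ciInf_le (f := fun T : {T : (H.MP_9d0e4c_an.X →L[ℝ] ℝ) →L[ℝ]
    (H.MP_9d0e4c_an.X →L[ℝ] ℝ) // ‖T‖ = 1} => H.MP_a8e783_an.numRad T.1)
    ⟨0, by rintro _ ⟨T, rfl⟩; exact H.MP_a8e783_an.numRad_nonneg _⟩ ⟨R, hR⟩
  have : Nonempty {T : H.MP_9d0e4c_an.X →L[ℝ] H.MP_9d0e4c_an.X // ‖T‖ = 1} :=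
    ⟨⟨ContinuousLinearMap.id ℝ _, ContinuousLinearMap.norm_id⟩⟩
  have h4 := le_ciInf (f := fun T : {T : H.MP_9d0e4c_an.X →L[ℝ] H.MP_9d0e4c_an.X // ‖T‖ = 1} =>
    H.MP_a8e783_an.numRad T.1) fun T => H.MP_9d0e4c_an.low (LinearIsometryEquiv.refl ℝ _) T.1 T.2
  linarith

end Pool.Agent.S05550
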