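import Pool.Statements.S05573
import Pool.Agent.H.MP_9e511b_an.C

set_option autoImplicit false
open Pool Pool.MP_9e511b_an

namespace Pool.Agent.S05573

/-- For every dimension d ≥ 1 and every p > d there is c < 1 such that, for all nonempty bounded open Ω in R^d, the first p-Laplacian Dirichlet eigenvalue times the p-torsion is at most c·∣Ω∣^(p−1). -/
theorem result :
    ∀ d : ℕ, 1 ≤ d → ∀ p : ℝ, (d : ℝ) < p →
      ∃ c : ℝ, c < 1 ∧
        ∀ Ω : Set (EuclideanSpace ℝ (Fin d)), IsOpen Ω → Bornology.IsBounded Ω → Ω.Nonempty →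
          ∀ ψ : EuclideanSpace ℝ (Fin d) → ℝ, ContDiff ℝ (⊤ : ℕ∞) ψ → HasCompactSupport ψ →
            tsupport ψ ⊆ Ω → ψ ≠ 0 →
            (⨅ φ : {φ : EuclideanSpace ℝ (Fin d) → ℝ //
                  ContDiff ℝ (⊤ : ℕ∞) φ ∧ HasCompactSupport φ ∧ tsupport φ ⊆ Ω ∧ φ ≠ 0},
                (∫ x, ‖fderiv ℝ φ.1 x‖ ^ p) / (∫ x, |φ.1 x| ^ p)) *
              ((∫ x, |ψ x|) ^ p / (∫ x, ‖fderiv ℝ ψ x‖ ^ p))
            ≤ c * ((MeasureTheory.volume Ω).toReal) ^ (p - 1) := by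
  intro d hd p hp
  haveI : Nonempty (Fin d) := ⟨⟨0, hd⟩⟩
  exact Pool.Agent.H.MP_9e511b_an.main (E := EuclideanSpace ℝ (Fin d)) MeasureTheory.volume p
    (by simpa using hp)

end Pool.Agent.S05573
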