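import Pool.Statements.S05584
import Pool.Agent.H.MP_9f272e_an.C

set_option autoImplicit false
open Pool Pool.MP_9f272e_an

namespace Pool.Agent.S05584

open H.MP_9f272e_an Set Metric Filter Topology Complex

def G (n : ℕ) (s : Finset (ℂ × ℂ) × (E → ℂ) × Set E × ℝ) : Prop :=
  (∀ ρ, St s.1 ∅ s.2.1 (c / 8 * (2 - (1 / 2) ^ n)) ((1 + (1 / 2) ^ n) / 6) 1 ρ s.2.2.1) ∧ IsCompact s.2.2.1 ∧ s.2.2.2 < 1

def T (n : ℕ) (s t : Finset (ℂ × ℂ) × (E → ℂ) × Set E × ℝ) : Prop :=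
  t.2.2.1 ⊆ s.2.2.1 ∧ s.2.2.2 ≤ t.2.2.2 ∧ 1 - (1 / 2) ^ n ≤ t.2.2.2 ∧
    (∀ x, ‖x‖ ≤ s.2.2.2 → ‖t.2.1 x - s.2.1 x‖ ≤ c / 16 * (1 / 2) ^ n) ∧ ∀ x ∈ t.2.2.1, ‖x‖ = 1 →
      (∃ r ∈ Icc (1 - (1 / 2) ^ n) t.2.2.2, 3 / 4 * c < ‖t.2.1 ((r : ℂ) • x)‖) ∧
        ∃ r ∈ Icc (1 - (1 / 2) ^ n) t.2.2.2, ‖t.2.1 ((r : ℂ) • x)‖ < c / 4

lemma c0 : 0 < c := by unfold c; positivity

lemma sq : ∃ s : ℕ → _, ∀ n, G n (s n) ∧ T n (s n) (s (n + 1)) := by
  have c0 := c0
  have st n s (h : G n s) : ∃ t, G (n + 1) t ∧ T n s t := by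
    have a : (0 : ℝ) < (1 / 2) ^ n := by positivity
    have b : (1 / 2 : ℝ) ^ n ≤ 1 := pow_le_one₀ (by norm_num) (by norm_num)
    obtain ⟨M, hM⟩ := exists_pow_lt_of_lt_one (show 0 < (1 / 2 : ℝ) ^ n / 6 by positivity) (show (2 / 3 : ℝ) < 1 by norm_num)
    obtain ⟨C, f, S, k⟩ := iter (h.1 (1 - (1 / 2) ^ n)) (by linarith) (by linarith) h.2.2 M (c / 16 * (1 / 2) ^ n)
      (by positivity) (by nlinarith)
    obtain ⟨O, R, h1, h2, h3, h4, h5, h6, h7⟩ := swap S (by linarith) (by linarith) h.2.2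
      (β' := (1 + (1 / 2) ^ (n + 1)) / 6) (by rw [pow_succ, pow_succ]; nlinarith)
    refine ⟨(C, f, O, R), ⟨fun ρ => by convert h6 ρ using 1; ring, h1, h5⟩, h2, h3, h4, k, fun x p q => ?_⟩
    obtain ⟨⟨r, u, v⟩, r', u', v'⟩ := h7 x p q
    exact ⟨⟨r, u, lt_of_le_of_lt (by nlinarith) v⟩, r', u', v'.trans_le (by nlinarith)⟩
  choose nx h1 h2 using st
  have z : G 0 ({(2, 0)}, 0, closedBall 0 2, 0) := ⟨fun ρ => ⟨by simp [V], by simp, fun D _ =>
    mem_nhdsSet_iff_forall.2 fun x a => closedBall_mem_nhds_of_mem (by simp [a.1]), fun x _ => by simp; positivity,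
      by simp [c0], ⟨0, one_pos, by simp⟩, 0, one_pos, fun h p a a' _ _ _ k => by
        have m : MapsTo (fun z : ℂ => (!₂[z, 0] : E)) (ball 0 1) (ball 0 1) := fun z k => by
          simpa [EuclideanSpace.norm_eq] using k
        have := har (H := fun z => h !₂[z, 0]) (b := 1 / 2) (p.1.1.comp ((differentiable_piLp 2).2 fun i => by
          fin_cases i <;> simp).differentiableOn m) (fun z k => p.2 _ (mem_ball_zero_iff.1 (m k)).le) one_pos (by simp)
        have k := k _ (Finset.mem_singleton_self _) 0 (by simp)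
        rw [show pt (2, 0) 0 = !₂[1 / 2, 0] by ext i; fin_cases i <;> simp [pt, V, map_ofNat]; norm_num] at k
        rw [show (!₂[0, 0] : E) = 0 by ext i; fin_cases i <;> rfl] at this
        linarith⟩, isCompact_closedBall _ _, one_pos⟩
  let q (n : ℕ) : {s // G n s} := Nat.rec ⟨_, z⟩ (fun n s => ⟨nx n s.1 s.2, h1 _ _ _⟩) n
  exact ⟨fun n => (q n).1, fun n => ⟨(q n).2, h2 _ _ (q n).2⟩⟩

theorem result :
    ¬ (∀ n : ℕ, 2 ≤ n →
    ∀ f : EuclideanSpace ℂ (Fin n) → ℂ,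
      DifferentiableOn ℂ f (Metric.ball (0 : EuclideanSpace ℂ (Fin n)) 1) →
      (∃ C : ℝ, ∀ z ∈ Metric.ball (0 : EuclideanSpace ℂ (Fin n)) 1, ‖f z‖ ≤ C) →
    ∀ μ : MeasureTheory.Measure (EuclideanSpace ℂ (Fin n)),
      MeasureTheory.IsFiniteMeasure μ →
      μ (Metric.sphere (0 : EuclideanSpace ℂ (Fin n)) 1)ᶜ = 0 →
      (∀ g : EuclideanSpace ℂ (Fin n) → ℂ,
        ContinuousOn g (Metric.closedBall (0 : EuclideanSpace ℂ (Fin n)) 1) →
        DifferentiableOn ℂ g (Metric.ball (0 : EuclideanSpace ℂ (Fin n)) 1) →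
        ∫ z, g z ∂μ = g 0) →
      μ {ζ | ζ ∈ Metric.sphere (0 : EuclideanSpace ℂ (Fin n)) 1 ∧
          ¬ ∃ L : ℂ, Filter.Tendsto (fun r : ℝ => f ((r : ℂ) • ζ))
              (nhdsWithin 1 (Set.Iio 1)) (nhds L)} = 0) := by
  intro H
  have c0 := c0
  obtain ⟨s, hs⟩ := sq
  have mR : Monotone fun n => (s n).2.2.2 := monotone_nat_of_le_succ fun n => (hs n).2.2.1
  have l1 : Tendsto (fun n : ℕ => 1 - (1 / 2 : ℝ) ^ n) atTop (𝓝 1) := by
    simpa using (tendsto_pow_atTop_nhds_zero_of_lt_one (r := (1 / 2 : ℝ)) (by norm_num) (by norm_num)).const_sub 1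
  have eR {r : ℝ} (h : r < 1) : ∃ k, r < (s k).2.2.2 :=
    let ⟨k, a⟩ := (l1.eventually_const_lt h).exists; ⟨_, a.trans_le (hs k).2.2.2.1⟩
  set d := fun n x => (s (n + 1)).2.1 x - (s n).2.1 x with hd
  have db k x (h : ‖x‖ ≤ (s k).2.2.2) j : ‖d (j + k) x‖ ≤ c / 8 / 2 / 2 ^ j :=
    ((hs _).2.2.2.2.1 x (h.trans (mR (k.le_add_left j)))).trans (by
      rw [div_div c, div_eq_mul_one_div _ (2 ^ j), ← one_div_pow, show (8 : ℝ) * 2 = 16 by norm_num]
      exact mul_le_mul_of_nonneg_left (pow_le_pow_of_le_one (by norm_num) (by norm_num) (j.le_add_right k)) (by positivity))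
  have sm k x h := (summable_geometric_two' (c / 8)).of_norm_bounded (db k x h)
  have e k x (h : ‖x‖ ≤ (s k).2.2.2) : (s 0).2.1 x + ∑' n, d n x = (s k).2.1 x + ∑' n, d (n + k) x := by
    rw [← ((summable_nat_add_iff (f := fun n => d n x) k).1 (sm k x h)).sum_add_tsum_nat_add k, Finset.sum_range_sub fun n => (s n).2.1 x]
    ring
  have tl k x h := tsum_of_norm_bounded (hasSum_geometric_two' (c / 8)) (db k x h)
  have df n x h := ((hs n).1.1 0).d x h
  obtain ⟨μ, m1, m2, m3, m4⟩ := rep (isClosed_iInter fun n => (hs n).1.2.1.isClosed) (κ := 1 / 12) (by norm_num)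
    fun h dh a a0 p q => by
      have P : Pos h := ⟨dh, fun x => mp one_pos dh p⟩
      refine a0.eq_or_lt.elim (fun e => by simpa [← e] using P.2 0 (by simp)) fun a0 => ?_
      have cl : IsClosed (sphere (0 : E) 1 ∩ (fun x => (h x).re) ⁻¹' Iic (a / 2)) := ContinuousOn.preimage_isClosed_of_isClosed
        (continuous_re.comp_continuousOn (dh.2.mono (closure_ball (0 : E) one_ne_zero ▸ sphere_subset_closedBall)))
          isClosed_sphere isClosed_Iic
      obtain ⟨n, hn⟩ := ((isCompact_sphere (0 : E) 1).of_isClosed_subset cl inter_subset_left).elim_directed_family_closed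
        (fun n => (s n).2.2.1) (fun n => (hs n).1.2.1.isClosed) (eq_empty_of_forall_notMem fun x ⟨u, v⟩ => by
          linarith [q x v (by simpa using u.1), show (h x).re ≤ a / 2 from u.2])
            (antitone_nat_of_succ_le fun n => (hs n).2.1).directed_ge
      have S := (hs n).1.1 0
      obtain ⟨t, t1, k⟩ := S.u
      refine le_trans ?_ (k h P (a / 2) (a / 2) (by linarith) le_rfl (by simp [Lo]) fun D u μ v => ?_)
      · nlinarith [pow_pos (show (0 : ℝ) < 1 / 2 by norm_num) n]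
      have u : D ∈ (s n).1 ∪ ∅ := by simpa
      refine mp (H := fun μ => h (pt D μ)) one_pos ⟨dpt P (S.v D u), dh.2.comp (by unfold pt; fun_prop) fun μ k => ?_⟩
        (fun μ k => not_lt.1 fun w => eq_empty_iff_forall_notMem.1 hn (pt D μ)
          ⟨⟨by simpa using ((pt1 (S.v D u)).2 k).1, w.le⟩, subset_of_mem_nhdsSet (S.o D u) ((pt1 (S.v D u)).2 k)⟩)
            (v.trans t1.le)
      rw [closure_ball _ one_ne_zero, mem_closedBall_zero_iff] at k ⊢
      exact k.eq_or_lt.elim (fun e => ((pt1 (S.v D u)).2 e).1.le) fun e => ((pt1 (S.v D u)).1.1 e).le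
  refine m4 (MeasureTheory.measure_mono_null ?_ (H 2 le_rfl
    (fun x => (s 0).2.1 x + ∑' n, d n x) (fun x h => DifferentiableAt.differentiableWithinAt ?_)
      ⟨3 + c, fun x h => ?_⟩ μ m1 m2 m3))
  · refine fun x ⟨u, v⟩ => ⟨u, fun ⟨L, hL⟩ => ?_⟩
    obtain ⟨δ, δ1, hδ⟩ := (nhdsLT_basis (1 : ℝ)).eventually_iff.1 (Metric.tendsto_nhds.1 hL (c / 8) (by positivity))
    obtain ⟨n, a, b⟩ := ((l1.eventually_const_lt δ1).and (l1.eventually_const_lt one_pos)).exists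
    have u : ‖x‖ = 1 := by simpa using u
    obtain ⟨⟨r, p, q⟩, r', p', q'⟩ := (hs n).2.2.2.2.2 x (mem_iInter.1 v _) u
    have k {r : ℝ} (p : r ∈ Icc (1 - (1 / 2) ^ n) (s (n + 1)).2.2.2) : ‖(s (n + 1)).2.1 ((r : ℂ) • x) - L‖ < c / 4 := by
      have w : ‖(r : ℂ) • x‖ ≤ (s (n + 1)).2.2.2 := by simpa [norm_smul, u, abs_of_pos (b.trans_le p.1)] using p.2
      have := hδ ⟨a.trans_le p.1, p.2.trans_lt (hs _).1.2.2⟩
      rw [e _ _ w, dist_eq_norm, add_sub_right_comm] at this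
      linarith [tl _ _ w, norm_le_add_norm_add ((s (n + 1)).2.1 ((r : ℂ) • x) - L) (∑' j, d (j + (n + 1)) ((r : ℂ) • x))]
    linarith [k p, k p', norm_sub_norm_le ((s (n + 1)).2.1 ((r : ℂ) • x)) L, norm_sub_norm_le L
      ((s (n + 1)).2.1 ((r' : ℂ) • x)), norm_sub_rev L ((s (n + 1)).2.1 ((r' : ℂ) • x))]
  · obtain ⟨k, hk⟩ := eR (mem_ball_zero_iff.1 h)
    obtain ⟨δ, δ0, hδ⟩ : ∃ δ > 0, ‖x‖ + δ + δ = (s k).2.2.2 := ⟨_, half_pos (sub_pos.2 hk), by ring⟩
    have n {y z : E} (a : y ∈ ball x δ) (b : z ∈ ball y δ) : ‖z‖ ≤ (s k).2.2.2 := by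
      linarith [norm_sub_norm_le y x, norm_sub_norm_le z y, mem_ball_iff_norm.1 a, mem_ball_iff_norm.1 b]
    have dd j y (a : ‖y‖ ≤ (s k).2.2.2) : DifferentiableAt ℂ (d j) y :=
      (df _ y (a.trans (hs k).1.2.2.le)).1.sub (df _ y (a.trans (hs k).1.2.2.le)).1
    have x0 := mem_ball_self (x := x) δ0
    exact ((df k x (mem_ball_zero_iff.1 h).le).1.add (hasFDerivAt_tsum_of_isPreconnected
      (((summable_geometric_two' (c / 8)).mul_left 2).div_const δ) isOpen_ball (convex_ball x δ).isPreconnected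
        (fun j y a => (dd (j + k) y (n a (mem_ball_self δ0))).hasFDerivAt) (fun j y a =>
          norm_fderiv_le_div_of_mapsTo_ball (fun z b => (dd _ z (n a b)).differentiableWithinAt) (fun z b =>
            (dist_le_norm_add_norm _ _).trans (by linarith [db k z (n a b) j, db k y (n a (mem_ball_self δ0)) j])) δ0)
              x0 (sm k x hk.le) x0).differentiableAt).congr_of_eventuallyEq
                (mem_of_superset (ball_mem_nhds x δ0) fun y a => e k y (n a (mem_ball_self δ0)))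
  · obtain ⟨k, hk⟩ := eR (mem_ball_zero_iff.1 h)
    rw [e k x hk.le]
    refine (norm_add_le _ _).trans ?_
    nlinarith [tl k x hk.le, (df k x (mem_ball_zero_iff.1 h).le).2, pow_pos (show (0 : ℝ) < 1 / 2 by norm_num) k]

end Pool.Agent.S05584
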