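import Pool.Statements.S05597
import Pool.Agent.H.MP_9fb148_an.B

set_option autoImplicit false
open Pool Pool.MP_9fb148_an

namespace Pool.Agent.S05597

theorem result :
    ∀ (n d m : ℕ), 0 < n → 0 < m →
      ∀ (A : Fin d → Matrix (Fin n) (Fin n) ℂ) (γ : Fin d → Matrix (Fin m) (Fin m) ℂ),
        (∀ j, (A j).IsHermitian) →
        (∀ j, (γ j).IsHermitian) →
        (∀ j, γ j * γ j = 1) →
        (∀ j k, j ≠ k → γ j * γ k = -(γ k * γ j)) →
        ∃ x : Fin d → ℝ,
          (∑ j : Fin d,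
            Matrix.kronecker (A j - ((x j : ℂ)) • (1 : Matrix (Fin n) (Fin n) ℂ)) (γ j)).det = 0 := by
  intro n d m hn hm A γ hA hγ h1 h2
  haveI : Nonempty (Fin n × Fin m) := ⟨(⟨0, hn⟩, ⟨0, hm⟩)⟩
  have key : ∀ x : Fin d → ℝ,
      (∑ j, Matrix.kronecker (A j) (1 : Matrix (Fin m) (Fin m) ℂ) *
          Matrix.kronecker (1 : Matrix (Fin n) (Fin n) ℂ) (γ j) -
        ∑ j, x j • Matrix.kronecker (1 : Matrix (Fin n) (Fin n) ℂ) (γ j)) =
      ∑ j : Fin d,
        Matrix.kronecker (A j - ((x j : ℂ)) • (1 : Matrix (Fin n) (Fin n) ℂ)) (γ j) := by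
    intro x
    rw [← Finset.sum_sub_distrib]
    refine Finset.sum_congr rfl fun j _ => ?_
    simp only [Matrix.kronecker]
    rw [← Matrix.mul_kronecker_mul]
    ext p q
    simp [sub_mul, mul_assoc]
  obtain ⟨x, hx⟩ := Pool.Agent.H.MP_9fb148_an.herm
    (fun j => Matrix.kronecker (1 : Matrix (Fin n) (Fin n) ℂ) (γ j))
    (fun j => Matrix.kronecker (A j) (1 : Matrix (Fin m) (Fin m) ℂ)) (by
      intro j
      simp only [Matrix.kronecker]
      rw [← Matrix.mul_kronecker_mul, h1]; simp) (by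
      intro j k hjk
      simp only [Matrix.kronecker]
      rw [← Matrix.mul_kronecker_mul, ← Matrix.mul_kronecker_mul, h2 j k hjk]
      ext p q; simp) (by
      intro j k
      simp only [Matrix.kronecker]
      rw [← Matrix.mul_kronecker_mul, ← Matrix.mul_kronecker_mul]; simp) (by
      intro x
      rw [key]
      unfold Matrix.IsHermitian
      rw [Matrix.conjTranspose_sum]
      refine Finset.sum_congr rfl fun j _ => ?_
      simp only [Matrix.kronecker]
      rw [Matrix.conjTranspose_kronecker, (hγ j).eq, Matrix.conjTranspose_sub, (hA j).eq]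
      simp)
  refine ⟨x, ?_⟩
  rw [key, Matrix.isUnit_iff_isUnit_det, isUnit_iff_ne_zero, not_not] at hx
  exact hx

end Pool.Agent.S05597
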