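import Pool.Statements.S05601
import Pool.Agent.H.MP_9fe0db_an.C

set_option autoImplicit false
open Pool Pool.MP_9fe0db_an

namespace Pool.Agent.S05601

theorem result :
    ∀ (X : Type) [NormedAddCommGroup X] [NormedSpace ℝ X] [CompleteSpace X],
    ∀ p q : ℝ, 1 < p → p ≤ 2 → 2 ≤ q →
    (∃ N : X → ℝ,
        ((∀ x y : X, N (x + y) ≤ N x + N y) ∧
          (∀ (c : ℝ) (x : X), N (c • x) = |c| * N x) ∧
          ∃ a b : ℝ, 0 < a ∧ 0 < b ∧ ∀ x : X, a * ‖x‖ ≤ N x ∧ N x ≤ b * ‖x‖) ∧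
        ∃ K : ℝ, 0 < K ∧ ∀ ε : ℝ, 0 < ε → ε ≤ 2 → ∀ x y : X, N x = 1 → N y = 1 →
          ε ≤ N (x - y) → K * ε ^ q ≤ 1 - N ((1 / 2 : ℝ) • (x + y))) →
    (∃ N : X → ℝ,
        ((∀ x y : X, N (x + y) ≤ N x + N y) ∧
          (∀ (c : ℝ) (x : X), N (c • x) = |c| * N x) ∧
          ∃ a b : ℝ, 0 < a ∧ 0 < b ∧ ∀ x : X, a * ‖x‖ ≤ N x ∧ N x ≤ b * ‖x‖) ∧
        ∃ K : ℝ, 0 < K ∧ ∀ t : ℝ, 0 < t → t ≤ 1 → ∀ x y : X, N x = 1 → N y = 1 →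
          (N (x + t • y) + N (x - t • y)) / 2 - 1 ≤ K * t ^ p) →
    ∃ N : X → ℝ,
        ((∀ x y : X, N (x + y) ≤ N x + N y) ∧
          (∀ (c : ℝ) (x : X), N (c • x) = |c| * N x) ∧
          ∃ a b : ℝ, 0 < a ∧ 0 < b ∧ ∀ x : X, a * ‖x‖ ≤ N x ∧ N x ≤ b * ‖x‖) ∧
        (∃ K : ℝ, 0 < K ∧ ∀ ε : ℝ, 0 < ε → ε ≤ 2 → ∀ x y : X, N x = 1 → N y = 1 →
          ε ≤ N (x - y) → K * ε ^ q ≤ 1 - N ((1 / 2 : ℝ) • (x + y))) ∧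
        ∃ K : ℝ, 0 < K ∧ ∀ t : ℝ, 0 < t → t ≤ 1 → ∀ x y : X, N x = 1 → N y = 1 →
          (N (x + t • y) + N (x - t • y)) / 2 - 1 ≤ K * t ^ p := by
  rintro X _ _ _ p q hp1 hp hq ⟨N1, ⟨a1, s1, a, b, ha, hb, e1⟩, K1, hK1, c1⟩
    ⟨N2, ⟨a2, s2, a', b', ha', hb', e2⟩, K2, hK2, c2⟩
  have pos : ∀ (N : X → ℝ) (r : ℝ), 0 < r → (∀ x, r * ‖x‖ ≤ N x) → ∀ x, N x = 0 → x = 0 :=
    fun N r hr h x hx => by
      have h1 := h x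
      rw [hx] at h1
      refine norm_le_zero_iff.1 ?_
      by_contra hn
      have := mul_pos hr (not_le.1 hn)
      linarith
  have h1 : Pool.Agent.H.MP_9fe0db_an.IsN N1 := ⟨a1, s1, pos N1 a ha fun x => (e1 x).1⟩
  have h2 : Pool.Agent.H.MP_9fe0db_an.IsN N2 := ⟨a2, s2, pos N2 a' ha' fun x => (e2 x).1⟩
  obtain ⟨c, hc, hcv⟩ := Pool.Agent.H.MP_9fe0db_an.conv_all h1 hq hK1 c1
  obtain ⟨C, hC, hsm⟩ := Pool.Agent.H.MP_9fe0db_an.smooth_all h2 (by linarith) hp hq hK2 c2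
  have cmp : ∀ (N M : X → ℝ) (r s A : ℝ), 0 < s → 0 ≤ A → A ≤ r / s → (∀ x, N x ≤ s * ‖x‖) →
      (∀ x, r * ‖x‖ ≤ M x) → ∀ x, A * N x ≤ M x := fun N M r s A hs hA h hN hM x => by
    rw [le_div_iff₀ hs] at h
    have t1 := mul_le_mul_of_nonneg_left (hN x) hA
    have t2 := mul_le_mul_of_nonneg_right h (norm_nonneg x)
    linarith [hM x]
  have hA : 0 < min (a' / b) (a / b') := by positivity
  obtain ⟨N, hN, ⟨D, hD, hND⟩, r1, r2⟩ := Pool.Agent.H.MP_9fe0db_an.main h1 h2 (by linarith) hp hq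
    hc hC hA (cmp N1 N2 a' b _ hb hA.le (min_le_left _ _) (fun x => (e1 x).2) fun x => (e2 x).1)
    (cmp N2 N1 a b' _ hb' hA.le (min_le_right _ _) (fun x => (e2 x).2) fun x => (e1 x).1) hcv hsm
  refine ⟨N, ⟨hN.add, hN.smul, a' / D, b', by positivity, hb', fun x => ⟨?_, ?_⟩⟩, r1, r2⟩
  · rw [div_mul_eq_mul_div, div_le_iff₀ hD]
    linarith [(e2 x).1, (hND x).2]
  · linarith [(e2 x).2, (hND x).1]

end Pool.Agent.S05601
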