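import Pool.Statements.S05609
import Pool.Agent.H.MP_a0704c_an.C

set_option autoImplicit false
open Pool Pool.MP_a0704c_an

namespace Pool.Agent.S05609

theorem result :
    Nonempty (C(OnePoint ℕ × StoneCech ℕ × StoneCech ℕ, ℝ) ≃L[ℝ] C(StoneCech ℕ × StoneCech ℕ, ℝ)) :=
  Pool.Agent.H.MP_a0704c_an.isos.2.map fun a => a.symm

end Pool.Agent.S05609
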