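import Pool.Statements.S05624
-- import your own Pool.Agent.* helpers here
import Pool.Agent.H.MP_a13136_an.C

set_option autoImplicit false
open Finset
open Pool Pool.MP_a13136_an

namespace Pool.Agent.S05624

theorem result :
    ¬ (∀ p : ℝ, 1 < p → p < 2 → ∀ P : Polynomial ℂ, ∀ r : ℝ, 0 ≤ r → ∀ x : Fin 2 → ℂ,
    r ^ p * (‖x 0‖ ^ p + ‖x 1‖ ^ p) <
      ‖(Matrix.mulVec (Polynomial.aeval ((((2:ℝ) ^ (-1 / p) : ℝ) : ℂ) • !![(1:ℂ), -1; 1, 1]) P) x) 0‖ ^ p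
      + ‖(Matrix.mulVec (Polynomial.aeval ((((2:ℝ) ^ (-1 / p) : ℝ) : ℂ) • !![(1:ℂ), -1; 1, 1]) P) x) 1‖ ^ p →
    ∃ N : ℕ, ∃ y : ℕ → ℂ, (∀ j : ℕ, N ≤ j → y j = 0) ∧
      r ^ p * (∑ j ∈ Finset.range N, ‖y j‖ ^ p) <
        ∑ n ∈ Finset.range (N + P.natDegree + 1),
          ‖∑ k ∈ Finset.range (n + 1), P.coeff k * y (n - k)‖ ^ p) := by
  intro h
  have hR : 0 < Pool.Agent.H.MP_a13136_an.RC := by
    unfold Pool.Agent.H.MP_a13136_an.RC Pool.Agent.H.MP_a13136_an.ep; norm_num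
  have hr : (Pool.Agent.H.MP_a13136_an.RC ^ ((7:ℝ)/12)) ^ ((12:ℝ)/7) =
      Pool.Agent.H.MP_a13136_an.RC := by
    rw [← Real.rpow_mul hR.le]; norm_num
  obtain ⟨N, y, hy, hlt⟩ := h (12/7) (by norm_num) (by norm_num) Pool.Agent.H.MP_a13136_an.PP
    (Pool.Agent.H.MP_a13136_an.RC ^ ((7:ℝ)/12)) (by positivity) ![1, 0] (by
      rw [hr]
      have := Pool.Agent.H.MP_a13136_an.lower
      simpa using this)
  rw [hr] at hlt
  exact absurd hlt (not_lt.mpr (Pool.Agent.H.MP_a13136_an.upper N y hy))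

end Pool.Agent.S05624
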