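import Pool.Statements.S05625
import Pool.Agent.H.MP_f44585_an.D

set_option autoImplicit false
open Pool Pool.MP_a16150_an

namespace Pool.Agent.S05625

theorem result :
    ∀ r : ℕ, 2 ≤ r → ∃ x : ℝ,
      (∀ k : ℕ, 1 ≤ k → ∀ w : Fin k → Fin r,
        Filter.Tendsto
          (fun N : ℕ =>
            ((((Finset.range N).filter
                (fun i => ∀ j : Fin k,
                  ⌊x * (r : ℝ) ^ (i + (j : ℕ) + 1)⌋ % (r : ℤ) = ((w j : ℕ) : ℤ))).card : ℝ)
              / (N : ℝ)))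
          Filter.atTop (nhds (1 / (r : ℝ) ^ k))) ∧
      (∀ ε : ℝ, 0 < ε → ∃ n : ℕ, 1 ≤ n ∧ ∃ N0 : ℕ, ∀ N : ℕ, N0 ≤ N →
        ∑ w : Fin n → Fin r,
          Real.negMulLog
            ((((Finset.range N).filter
                (fun i => ∀ j : Fin n,
                  ⌊x⁻¹ * (r : ℝ) ^ (i + (j : ℕ) + 1)⌋ % (r : ℤ) = ((w j : ℕ) : ℤ))).card : ℝ)
              / (N : ℝ)) < ε * n) := by
  have key (r : ℕ) (hr : 2 ≤ r) := H.MP_f44585_an.main hr (F := fun y => (1 + y)⁻¹)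
    (F' := fun y => -((1 + y) ^ 2)⁻¹) (fun y hy => by
      have := (hasStrictDerivAt_inv (x := 1 + y) (by positivity)).comp y
        ((hasStrictDerivAt_id y).const_add 1)
      rw [mul_one] at this
      exact this)
    ((Set.countable_range fun q : ℚ => √(-q : ℝ)⁻¹ - 1).mono fun y ⟨hy, h⟩ => by
      obtain ⟨q, hq⟩ := not_not.1 h
      exact ⟨q, by simp [hq, Real.sqrt_sq (show 0 ≤ 1 + y by positivity)]⟩)
  intro r hr
  obtain ⟨d, h1, h2⟩ := key r hr
  refine ⟨_, fun k _ => H.MP_f44585_an.normal hr h2 k, fun ε hε => ⟨1, le_rfl, ?_⟩⟩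
  simpa using Filter.eventually_atTop.1 ((H.MP_f44585_an.det hr 1 h1).eventually (gt_mem_nhds hε))

end Pool.Agent.S05625
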