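import Pool.Statements.S05628

set_option autoImplicit false
open MeasureTheory
open Pool Pool.MP_a19bc9_an

namespace Pool.Agent.S05628

/-- The radial profile: rho * sin (log (1 - log (1 - rho))). -/
noncomputable def G (ρ : ℝ) : ℝ := ρ * Real.sin (Real.log (1 - Real.log (1 - ρ)))

lemma abs_log_sub_le {a b m : ℝ} (hm : 0 < m) (ha : m ≤ a) (hb : m ≤ b) :
    |Real.log a - Real.log b| ≤ |a - b| / m := by
  have ha0 : 0 < a := lt_of_lt_of_le hm ha
  have hb0 : 0 < b := lt_of_lt_of_le hm hb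
  have key : ∀ x y : ℝ, m ≤ x → m ≤ y → Real.log x - Real.log y ≤ |x - y| / m := by
    intro x y hx hy
    have hx0 : 0 < x := lt_of_lt_of_le hm hx
    have hy0 : 0 < y := lt_of_lt_of_le hm hy
    rw [← Real.log_div hx0.ne' hy0.ne']
    have h1 := Real.log_le_sub_one_of_pos (div_pos hx0 hy0)
    have h2 : x / y - 1 = (x - y) / y := by field_simp
    have h3 : (x - y) / y ≤ |x - y| / y := by
      gcongr; exact le_abs_self _
    have h4 : |x - y| / y ≤ |x - y| / m := by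
      gcongr
    linarith
  rw [abs_le]
  constructor
  · have := key b a hb ha
    rw [abs_sub_comm] at this
    linarith
  · exact key a b ha hb

lemma osc (κ : ℝ) (hκ : 1 ≤ κ) (η : ℝ) (hη : 0 < η) (θ0 : ℝ) :
    ∃ ρ : ℝ, 0 < ρ ∧ ρ < 1 ∧ ∀ ρ' : ℝ, ρ' < 1 → (1 - ρ) / κ ≤ 1 - ρ' → 1 - ρ' ≤ κ * (1 - ρ) →
      |G ρ' - Real.sin θ0| < η := by
  set K := Real.log κ with hK
  have hK0 : 0 ≤ K := Real.log_nonneg hκ
  have hκ0 : 0 < κ := by linarith
  -- choose a large angle congruent to θ0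
  obtain ⟨m, hm⟩ : ∃ m : ℕ, K + 2 * K / η + 2 * κ / η + 1 - θ0 < m * (2 * Real.pi) := by
    obtain ⟨m, hm⟩ := exists_nat_gt ((K + 2 * K / η + 2 * κ / η + 1 - θ0) / (2 * Real.pi))
    refine ⟨m, ?_⟩
    rwa [div_lt_iff₀ (by positivity)] at hm
  set θ := θ0 + m * (2 * Real.pi) with hθ
  have hsin : Real.sin θ = Real.sin θ0 := Real.sin_add_nat_mul_two_pi θ0 m
  have hθbig : K + 2 * K / η + 2 * κ / η + 1 < θ := by linarith
  have h1 : 0 ≤ 2 * K / η := by positivity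
  have h2 : 0 < 2 * κ / η := by positivity
  set s := Real.exp θ - 1 with hs
  have hsθ : θ ≤ s := by have := Real.add_one_le_exp θ; linarith
  have hs0 : 0 < s := by linarith
  refine ⟨1 - Real.exp (-s), ?_, ?_, ?_⟩
  · have : Real.exp (-s) < 1 := by rw [Real.exp_lt_one_iff]; linarith
    linarith
  · have := Real.exp_pos (-s); linarith
  · intro ρ' hρ' hlo hhi
    simp only [sub_sub_cancel] at hlo hhi
    have hpos : 0 < 1 - ρ' := by linarith
    have hl1 : -s - K ≤ Real.log (1 - ρ') := by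
      have := Real.log_le_log (by positivity) hlo
      rwa [Real.log_div (Real.exp_pos _).ne' hκ0.ne', Real.log_exp] at this
    have hl2 : Real.log (1 - ρ') ≤ K - s := by
      have := Real.log_le_log hpos hhi
      rw [Real.log_mul hκ0.ne' (Real.exp_pos _).ne', Real.log_exp] at this
      linarith
    set s' := - Real.log (1 - ρ') with hs'
    have hm0 : 0 < 1 + s - K := by linarith
    have hlog : |Real.log (1 + s') - Real.log (1 + s)| ≤ |(1 + s') - (1 + s)| / (1 + s - K) :=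
      abs_log_sub_le hm0 (by linarith) (by linarith)
    have hlogs : Real.log (1 + s) = θ := by
      rw [hs]; simp
    have habs : |(1 + s') - (1 + s)| ≤ K := by
      rw [abs_le]; constructor <;> linarith
    have hq : |(1 + s') - (1 + s)| / (1 + s - K) ≤ K / (1 + s - K) := by gcongr
    have hq2 : K / (1 + s - K) < η / 2 := by
      rw [div_lt_iff₀ hm0]
      have : 2 * K / η < 1 + s - K := by linarith
      rw [div_lt_iff₀ hη] at this
      nlinarith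
    have hsinl : |Real.sin (Real.log (1 + s')) - Real.sin θ| ≤ |Real.log (1 + s') - θ| :=
      Real.abs_sin_sub_sin_le _ _
    have hsmall : 1 - ρ' < η / 2 := by
      have h3 : Real.exp (-s) * s < 1 := by
        have := Real.add_one_le_exp s
        have h4 : Real.exp (-s) * Real.exp s = 1 := by rw [← Real.exp_add]; simp
        have h5 := Real.exp_pos (-s)
        nlinarith
      have h6 : 2 * κ / η < s := by linarith
      rw [div_lt_iff₀ hη] at h6
      have h5 := Real.exp_pos (-s)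
      have : κ * Real.exp (-s) < η / 2 := by nlinarith
      linarith
    have hG : G ρ' = ρ' * Real.sin (Real.log (1 + s')) := by
      simp [G, hs', sub_eq_add_neg]
    rw [hG, ← hsin]
    have hb : |Real.sin (Real.log (1 + s'))| ≤ 1 := Real.abs_sin_le_one _
    have e : ρ' * Real.sin (Real.log (1 + s')) - Real.sin θ =
        (Real.sin (Real.log (1 + s')) - Real.sin θ) - (1 - ρ') * Real.sin (Real.log (1 + s')) := by
      ring
    rw [e]
    have t1 := abs_sub (Real.sin (Real.log (1 + s')) - Real.sin θ)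
      ((1 - ρ') * Real.sin (Real.log (1 + s')))
    have t2 : |(1 - ρ') * Real.sin (Real.log (1 + s'))| ≤ 1 - ρ' := by
      rw [abs_mul, abs_of_pos hpos]
      nlinarith
    rw [hlogs] at hlog
    linarith

lemma G_abs_le {ρ : ℝ} (h0 : 0 ≤ ρ) : |G ρ| ≤ ρ := by
  unfold G
  rw [abs_mul, abs_of_nonneg h0]
  have := Real.abs_sin_le_one (Real.log (1 - Real.log (1 - ρ)))
  nlinarith

lemma G_contOn : ContinuousOn G (Set.Ico 0 1) := by
  unfold G
  refine continuousOn_id.mul (Real.continuous_sin.comp_continuousOn ?_)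
  refine ContinuousOn.log (continuousOn_const.sub (ContinuousOn.log (by fun_prop) ?_)) ?_
  · intro x hx; have := hx.2; linarith
  · intro x hx
    have h1 : Real.log (1 - x) ≤ 0 := Real.log_nonpos (by linarith [hx.2]) (by linarith [hx.1])
    linarith

/-- the Moebius map of the disc -/
noncomputable def mob (z w : ℂ) : ℂ := (1 - w * starRingEnd ℂ z)⁻¹ * (z - w)

lemma den_bounds {z w : ℂ} (hz : ‖z‖ < 1) (hw : ‖w‖ < 1) :
    1 - ‖z‖ ≤ ‖1 - w * starRingEnd ℂ z‖ ∧ ‖1 - w * starRingEnd ℂ z‖ ≤ 2 := by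
  have h1 : ‖w * starRingEnd ℂ z‖ ≤ ‖z‖ := by
    rw [norm_mul, Complex.norm_conj]
    nlinarith [norm_nonneg z, norm_nonneg w]
  constructor
  · have := norm_sub_norm_le (1 : ℂ) (w * starRingEnd ℂ z)
    simp only [norm_one] at this
    linarith
  · have := norm_sub_le (1 : ℂ) (w * starRingEnd ℂ z)
    simp only [norm_one] at this
    linarith

lemma mob_id {z w : ℂ} (hz : ‖z‖ < 1) (hw : ‖w‖ < 1) :
    (1 - ‖mob z w‖ ^ 2) * ‖1 - w * starRingEnd ℂ z‖ ^ 2 = (1 - ‖z‖ ^ 2) * (1 - ‖w‖ ^ 2) := by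
  have hd := (den_bounds hz hw).1
  have hd0 : ‖1 - w * starRingEnd ℂ z‖ ≠ 0 := by
    intro h; rw [h] at hd; linarith
  have h1 : ‖mob z w‖ ^ 2 * ‖1 - w * starRingEnd ℂ z‖ ^ 2 = ‖z - w‖ ^ 2 := by
    unfold mob
    rw [norm_mul, norm_inv]
    field_simp
  have h2 : ‖1 - w * starRingEnd ℂ z‖ ^ 2 - ‖z - w‖ ^ 2 = (1 - ‖z‖ ^ 2) * (1 - ‖w‖ ^ 2) := by
    simp only [Complex.sq_norm, Complex.normSq_apply, Complex.sub_re, Complex.sub_im,
      Complex.mul_re, Complex.mul_im, Complex.conj_re, Complex.conj_im, Complex.one_re,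
      Complex.one_im]
    ring
  nlinarith

lemma mob_bounds {z w : ℂ} (hz : ‖z‖ < 1) (hw : ‖w‖ < 1) :
    ‖mob z w‖ ^ 2 < 1 ∧ (1 - ‖w‖ ^ 2) / (4 / (1 - ‖z‖) ^ 2) ≤ 1 - ‖mob z w‖ ^ 2 ∧
      1 - ‖mob z w‖ ^ 2 ≤ (4 / (1 - ‖z‖) ^ 2) * (1 - ‖w‖ ^ 2) := by
  have hid := mob_id hz hw
  obtain ⟨hd1, hd2⟩ := den_bounds hz hw
  set d := ‖1 - w * starRingEnd ℂ z‖
  set M := 1 - ‖mob z w‖ ^ 2
  have hz0 := norm_nonneg z
  have hw0 := norm_nonneg w
  have ha : 0 < 1 - ‖z‖ := by linarith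
  have hd0 : 0 < d := by linarith
  have hz2 : 0 < 1 - ‖z‖ ^ 2 := by nlinarith
  have hw2 : 0 < 1 - ‖w‖ ^ 2 := by nlinarith
  have hM : 0 < M := by
    have : 0 < M * d ^ 2 := by rw [hid]; positivity
    by_contra hneg
    have : M * d ^ 2 ≤ 0 := mul_nonpos_of_nonpos_of_nonneg (not_lt.1 hneg) (by positivity)
    linarith
  refine ⟨by simp only [M] at hM; linarith, ?_, ?_⟩
  · rw [div_div_eq_mul_div, div_le_iff₀ (by norm_num : (0 : ℝ) < 4)]
    have h1 : (1 - ‖z‖) ^ 2 ≤ 1 - ‖z‖ ^ 2 := by nlinarith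
    have h2 : d ^ 2 ≤ 4 := by nlinarith
    calc (1 - ‖w‖ ^ 2) * (1 - ‖z‖) ^ 2 ≤ (1 - ‖w‖ ^ 2) * (1 - ‖z‖ ^ 2) := by gcongr
      _ = M * d ^ 2 := by rw [hid]; ring
      _ ≤ M * 4 := by gcongr
  · rw [div_mul_eq_mul_div, le_div_iff₀ (by positivity)]
    have h1 : (1 - ‖z‖) ^ 2 ≤ d ^ 2 := by gcongr
    calc M * (1 - ‖z‖) ^ 2 ≤ M * d ^ 2 := by gcongr
      _ = (1 - ‖z‖ ^ 2) * (1 - ‖w‖ ^ 2) := hid
      _ ≤ 4 * (1 - ‖w‖ ^ 2) := by gcongr; nlinarith

/-- the unit disc inside `Fin 1 → ℂ` -/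
def BB : Set (Fin 1 → ℂ) := {x : Fin 1 → ℂ | ∑ j, ‖x j‖ ^ 2 < 1}

lemma BB_open : IsOpen BB := by
  unfold BB
  exact isOpen_lt (by fun_prop) continuous_const

lemma mem_BB {x : Fin 1 → ℂ} : x ∈ BB ↔ ‖x 0‖ < 1 := by
  unfold BB
  simp only [Set.mem_ofPred_eq, Finset.univ_unique, Fin.default_eq_zero, Finset.sum_singleton]
  constructor
  · intro h; nlinarith [norm_nonneg (x 0)]
  · intro h; nlinarith [norm_nonneg (x 0)]

lemma BB_vol_lt : volume BB < ⊤ := by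
  have : BB ⊆ Metric.closedBall 0 1 := by
    intro x hx
    rw [mem_BB] at hx
    rw [mem_closedBall_zero_iff, pi_norm_le_iff_of_nonneg zero_le_one]
    intro i
    have : i = 0 := Subsingleton.elim _ _
    rw [this]; exact hx.le
  exact lt_of_le_of_lt (measure_mono this) measure_closedBall_lt_top

lemma BB_vol_pos : 0 < volume BB :=
  BB_open.measure_pos _ ⟨0, by rw [mem_BB]; simp⟩

/-- the point of modulus `r` in the direction of `x` -/
noncomputable def pt (r : ℝ) (x : Fin 1 → ℂ) : ℂ := ((r / ‖x 0‖ : ℝ) : ℂ) * x 0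

lemma norm_pt_le {r : ℝ} (hr : 0 ≤ r) (x : Fin 1 → ℂ) : ‖pt r x‖ ≤ r := by
  unfold pt
  by_cases h : ‖x 0‖ = 0
  · simp [h, hr]
  · rw [norm_mul, Complex.norm_real, Real.norm_eq_abs, abs_of_nonneg (by positivity)]
    field_simp
    exact le_rfl

lemma norm_pt {r : ℝ} (hr : 0 ≤ r) {x : Fin 1 → ℂ} (h : x ≠ 0) : ‖pt r x‖ = r := by
  unfold pt
  have h0 : ‖x 0‖ ≠ 0 := by
    intro h1
    apply h
    funext i
    have : i = 0 := Subsingleton.elim _ _
    rw [this]; simpa using h1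
  rw [norm_mul, Complex.norm_real, Real.norm_eq_abs, abs_of_nonneg (by positivity)]
  field_simp

/-- the real average -/
noncomputable def av (z : ℂ) (r : ℝ) : ℝ :=
  ((volume BB).toReal)⁻¹ * ∫ x in BB, G (‖mob z (pt r x)‖ ^ 2)

lemma meas_integrand (z : ℂ) (r : ℝ) :
    Measurable fun x : Fin 1 → ℂ => G (‖mob z (pt r x)‖ ^ 2) := by
  unfold G mob pt
  fun_prop

lemma av_contOn {z : ℂ} (hz : ‖z‖ < 1) : ContinuousOn (av z) (Set.Ioo 0 1) := by
  unfold av
  refine continuousOn_const.mul ?_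
  have : IsFiniteMeasure (volume.restrict BB) := ⟨by simpa using BB_vol_lt⟩
  refine continuousOn_of_dominated (bound := fun _ => (1 : ℝ)) ?_ ?_ (integrable_const _) ?_
  · intro r _; exact (meas_integrand z r).aestronglyMeasurable
  · intro r hr
    refine Filter.Eventually.of_forall fun x => ?_
    have h1 : ‖pt r x‖ < 1 := lt_of_le_of_lt (norm_pt_le hr.1.le x) hr.2
    have h2 := (mob_bounds hz h1).1
    exact (G_abs_le (by positivity)).trans h2.le
  · refine Filter.Eventually.of_forall fun x => ?_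
    have hc : ContinuousOn (fun r : ℝ => ‖mob z (pt r x)‖ ^ 2) (Set.Ioo 0 1) := by
      unfold mob
      refine (ContinuousOn.norm (ContinuousOn.mul (ContinuousOn.inv₀ ?_ ?_) ?_)).pow 2
      · unfold pt; fun_prop
      · intro r hr
        have h1 : ‖pt r x‖ < 1 := lt_of_le_of_lt (norm_pt_le hr.1.le x) hr.2
        have := (den_bounds hz h1).1
        intro h; rw [h] at this; simp at this; linarith
      · unfold pt; fun_prop
    refine G_contOn.comp hc ?_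
    intro r hr
    have h1 : ‖pt r x‖ < 1 := lt_of_le_of_lt (norm_pt_le hr.1.le x) hr.2
    exact ⟨by positivity, (mob_bounds hz h1).1⟩

lemma av_near {z : ℂ} (hz : ‖z‖ < 1) (η : ℝ) (hη : 0 < η) (θ0 : ℝ) :
    ∃ r ∈ Set.Ioo (0 : ℝ) 1, |av z r - Real.sin θ0| ≤ η := by
  have hz0 := norm_nonneg z
  have hκ : 1 ≤ 4 / (1 - ‖z‖) ^ 2 := by
    rw [le_div_iff₀ (by have : 0 < 1 - ‖z‖ := by linarith
                        positivity)]
    nlinarith
  obtain ⟨ρ, h0, h1, h⟩ := osc _ hκ η hη θ0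
  have hr1 : Real.sqrt ρ < 1 := by
    rw [Real.sqrt_lt' one_pos]; linarith
  refine ⟨Real.sqrt ρ, ⟨Real.sqrt_pos.2 h0, hr1⟩, ?_⟩
  have : IsFiniteMeasure (volume.restrict BB) := ⟨by simpa using BB_vol_lt⟩
  have hv : 0 < (volume BB).toReal := ENNReal.toReal_pos BB_vol_pos.ne' BB_vol_lt.ne
  have hae : ∀ᵐ x ∂(volume.restrict BB),
      ‖G (‖mob z (pt (Real.sqrt ρ) x)‖ ^ 2) - Real.sin θ0‖ ≤ η := by
    have h00 : ∀ᵐ x ∂(volume.restrict BB), x ≠ (0 : Fin 1 → ℂ) := by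
      apply ae_restrict_of_ae
      exact Measure.ae_ne volume 0
    filter_upwards [h00] with x hx
    have hn := norm_pt (Real.sqrt_nonneg ρ) hx
    have hlt : ‖pt (Real.sqrt ρ) x‖ < 1 := by rw [hn]; exact hr1
    obtain ⟨b1, b2, b3⟩ := mob_bounds hz hlt
    rw [hn, Real.sq_sqrt h0.le] at b2 b3
    exact (h _ b1 b2 b3).le
  have hint : Integrable (fun x => G (‖mob z (pt (Real.sqrt ρ) x)‖ ^ 2)) (volume.restrict BB) := by
    refine Integrable.mono' (integrable_const (1 : ℝ)) (meas_integrand z _).aestronglyMeasurable ?_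
    refine Filter.Eventually.of_forall fun x => ?_
    have h1 : ‖pt (Real.sqrt ρ) x‖ < 1 := lt_of_le_of_lt (norm_pt_le (Real.sqrt_nonneg _) x) hr1
    have h2 := (mob_bounds hz h1).1
    exact (G_abs_le (by positivity)).trans h2.le
  have hb := norm_integral_le_of_norm_le_const hae
  rw [integral_sub hint (integrable_const _), integral_const] at hb
  simp only [measureReal_restrict_apply_univ, smul_eq_mul, Real.norm_eq_abs] at hb
  unfold av
  have e : ((volume BB).toReal)⁻¹ * (∫ x in BB, G (‖mob z (pt (Real.sqrt ρ) x)‖ ^ 2))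
      - Real.sin θ0 = ((volume BB).toReal)⁻¹ * ((∫ x in BB, G (‖mob z (pt (Real.sqrt ρ) x)‖ ^ 2))
      - (volume BB).toReal * Real.sin θ0) := by
    field_simp
  rw [e, abs_mul, abs_of_pos (inv_pos.2 hv), inv_mul_le_iff₀ hv]
  simpa [Measure.real, mul_comm] using hb

lemma av_gt {z : ℂ} (hz : ‖z‖ < 1) : ∃ r ∈ Set.Ioo (0 : ℝ) 1, G (‖z‖ ^ 2) < av z r := by
  have h1 : ‖z‖ ^ 2 < 1 := by nlinarith [norm_nonneg z]
  obtain ⟨r, hr, h⟩ := av_near hz ((1 - ‖z‖ ^ 2) / 2) (by linarith) (Real.pi / 2)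
  refine ⟨r, hr, ?_⟩
  rw [Real.sin_pi_div_two, abs_le] at h
  have := (abs_le.1 (G_abs_le (ρ := ‖z‖ ^ 2) (by positivity))).2
  linarith [h.1]

lemma av_lt {z : ℂ} (hz : ‖z‖ < 1) : ∃ r ∈ Set.Ioo (0 : ℝ) 1, av z r < G (‖z‖ ^ 2) := by
  have h1 : ‖z‖ ^ 2 < 1 := by nlinarith [norm_nonneg z]
  obtain ⟨r, hr, h⟩ := av_near hz ((1 - ‖z‖ ^ 2) / 2) (by linarith) (-(Real.pi / 2))
  refine ⟨r, hr, ?_⟩
  rw [Real.sin_neg, Real.sin_pi_div_two, abs_le] at h
  have := (abs_le.1 (G_abs_le (ρ := ‖z‖ ^ 2) (by positivity))).1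
  linarith [h.2]

lemma av_eq {z : ℂ} (hz : ‖z‖ < 1) : ∃ r ∈ Set.Ioo (0 : ℝ) 1, av z r = G (‖z‖ ^ 2) := by
  obtain ⟨r1, h1, h1'⟩ := av_gt hz
  obtain ⟨r2, h2, h2'⟩ := av_lt hz
  have := isPreconnected_Ioo.intermediate_value h2 h1 (av_contOn hz)
  obtain ⟨r, hr, hr'⟩ := this ⟨h2'.le, h1'.le⟩
  exact ⟨r, hr, hr'⟩

/-- the test function -/
noncomputable def uu (x : Fin 1 → ℂ) : ℂ := ((G (‖x 0‖ ^ 2) : ℝ) : ℂ)

/-- the involution in dimension one -/
noncomputable def phi (z w : Fin 1 → ℂ) : Fin 1 → ℂ :=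
  (1 - ∑ j, w j * starRingEnd ℂ (z j))⁻¹ •
        (z - ((∑ j, w j * starRingEnd ℂ (z j)) / (∑ j, z j * starRingEnd ℂ (z j))) • z
          - ((Real.sqrt (1 - ∑ j, ‖z j‖ ^ 2) : ℝ) : ℂ) •
              (w - ((∑ j, w j * starRingEnd ℂ (z j)) / (∑ j, z j * starRingEnd ℂ (z j))) • z))

lemma phi_eq (z w : Fin 1 → ℂ) : phi z w 0 = mob (z 0) (w 0) := by
  simp only [phi, Finset.univ_unique, Fin.default_eq_zero, Finset.sum_singleton, Pi.smul_apply,
    Pi.sub_apply, smul_eq_mul, mob]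
  by_cases h : z 0 = 0
  · simp [h]
  · have h' : starRingEnd ℂ (z 0) ≠ 0 := by simpa using h
    have : w 0 * starRingEnd ℂ (z 0) / (z 0 * starRingEnd ℂ (z 0)) * z 0 = w 0 := by
      field_simp
    rw [this]; simp

/-- Disproof for n = 1 with the radial function rho * sin (log (1 - log (1 - rho))), rho the squared modulus. -/
theorem result :
    ¬ (∀ n : ℕ, 1 ≤ n →
  ∀ (φ : (Fin n → ℂ) → (Fin n → ℂ) → (Fin n → ℂ)),
    (∀ z w, φ z w = (1 - ∑ j, w j * starRingEnd ℂ (z j))⁻¹ •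
        (z - ((∑ j, w j * starRingEnd ℂ (z j)) / (∑ j, z j * starRingEnd ℂ (z j))) • z
          - ((Real.sqrt (1 - ∑ j, ‖z j‖ ^ 2) : ℝ) : ℂ) •
              (w - ((∑ j, w j * starRingEnd ℂ (z j)) / (∑ j, z j * starRingEnd ℂ (z j))) • z))) →
  ∀ (B : Set (Fin n → ℂ)), B = {x : Fin n → ℂ | ∑ j, ‖x j‖ ^ 2 < 1} →
  ∀ (avg : ((Fin n → ℂ) → ℂ) → (Fin n → ℂ) → ℝ → ℂ),
    (∀ u z r, avg u z r = ((MeasureTheory.volume B).toReal : ℂ)⁻¹ *
        ∫ x in B, u (φ z (((r / Real.sqrt (∑ j, ‖x j‖ ^ 2) : ℝ) : ℂ) • x))) →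
  ∀ u : (Fin n → ℂ) → ℂ, ContinuousOn u B → (∃ M : ℝ, ∀ z ∈ B, ‖u z‖ ≤ M) →
    (∀ z ∈ B, ∃ r : ℝ, 0 < r ∧ r < 1 ∧ avg u z r = u z) →
    ∀ z ∈ B, ∀ r : ℝ, 0 < r → r < 1 → avg u z r = u z) := by
  intro H
  have H1 := H 1 le_rfl phi (fun _ _ => rfl) BB rfl _ (fun _ _ _ => rfl) uu
  have key : ∀ (z : Fin 1 → ℂ) (r : ℝ), ((MeasureTheory.volume BB).toReal : ℂ)⁻¹ *
        ∫ x in BB, uu (phi z (((r / Real.sqrt (∑ j, ‖x j‖ ^ 2) : ℝ) : ℂ) • x))
          = ((av (z 0) r : ℝ) : ℂ) := by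
    intro z r
    unfold av
    rw [Complex.ofReal_mul, Complex.ofReal_inv, ← integral_complex_ofReal]
    congr 2
    funext x
    unfold uu
    rw [phi_eq]
    simp [pt]
  have hc : ContinuousOn uu BB := by
    unfold uu
    refine Complex.continuous_ofReal.comp_continuousOn (G_contOn.comp (by fun_prop) ?_)
    intro x hx
    rw [mem_BB] at hx
    exact ⟨by positivity, by nlinarith [norm_nonneg (x 0)]⟩
  have hb : ∃ M : ℝ, ∀ z ∈ BB, ‖uu z‖ ≤ M := by
    refine ⟨1, fun x hx => ?_⟩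
    rw [mem_BB] at hx
    unfold uu
    rw [Complex.norm_real, Real.norm_eq_abs]
    exact (G_abs_le (by positivity)).trans (by nlinarith [norm_nonneg (x 0)])
  have H2 := H1 hc hb (by
    intro z hz
    rw [mem_BB] at hz
    obtain ⟨r, hr, h⟩ := av_eq hz
    refine ⟨r, hr.1, hr.2, ?_⟩
    rw [key, h]; rfl)
  obtain ⟨r, hr, h⟩ := av_gt (z := 0) (by simp)
  have H3 := H2 0 (by rw [mem_BB]; simp) r hr.1 hr.2
  rw [key] at H3
  unfold uu at H3
  have H4 := Complex.ofReal_injective H3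
  simp only [Pi.zero_apply] at H4
  linarith

end Pool.Agent.S05628
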