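import Pool.Statements.S05635
-- import your own Pool.Agent.* helpers here

set_option autoImplicit false
open scoped ContDiff
open Pool Pool.MP_a1b43b_an

namespace Pool.Agent.S05635

lemma routh (a b c : ℝ) (ha : 0 < a) (hc : 0 < c) (h : c < a * b) (z : ℂ)
    (hz : z ^ 3 + a * z ^ 2 + b * z + c = 0) : z.re < 0 := by
  by_contra h0
  push Not at h0
  have hb : 0 < b := by
    by_contra hb
    push Not at hb
    nlinarith
  have h1 := congrArg Complex.re hz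
  have h2 := congrArg Complex.im hz
  simp [pow_succ] at h1 h2
  set x := z.re
  set y := z.im
  by_cases hy : y = 0
  · rw [hy] at h1
    have : 0 ≤ x * x * x + a * (x * x) + b * x := by positivity
    nlinarith
  · have h3 : y * (3 * x ^ 2 - y ^ 2 + 2 * a * x + b) = 0 := by linarith
    have h4 : y ^ 2 = 3 * x ^ 2 + 2 * a * x + b := by
      have := (mul_eq_zero.1 h3).resolve_left hy
      linarith
    have h5 : x ^ 3 - 3 * x * y ^ 2 + a * (x ^ 2 - y ^ 2) + b * x + c = 0 := by linarith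
    rw [h4] at h5
    have : 0 ≤ 8 * x ^ 3 + 8 * a * x ^ 2 + 2 * a ^ 2 * x + 2 * b * x := by positivity
    nlinarith

noncomputable def w (v : Fin 3 → ℝ) : ℝ := (1 + v 0 ^ 2 + v 1 ^ 2)⁻¹
noncomputable def o (v : Fin 3 → ℝ) : ℝ := 1 + Real.exp (v 2)
noncomputable def A (v : Fin 3 → ℝ) : ℝ := -(1 / 20) * (1 - (o v)⁻¹) * (2 * w v ^ 2 - w v)

noncomputable def F (v : Fin 3 → ℝ) : Fin 3 → ℝ :=
  ![A v * v 0 - o v * v 1, A v * v 1 + o v * v 0, -v 2 - (1 - w v)]

lemma den_pos (v : Fin 3 → ℝ) : 0 < 1 + v 0 ^ 2 + v 1 ^ 2 := by positivity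
lemma o_pos (v : Fin 3 → ℝ) : 0 < o v := by unfold o; positivity

lemma F_smooth : ContDiff ℝ ∞ F := by
  have hw : ContDiff ℝ ∞ w := by
    unfold w
    exact ContDiff.inv (by fun_prop) fun v => (den_pos v).ne'
  have ho : ContDiff ℝ ∞ o := by unfold o; fun_prop
  have hi : ContDiff ℝ ∞ (fun v => (o v)⁻¹) := ho.inv fun v => (o_pos v).ne'
  have hA : ContDiff ℝ ∞ A := by unfold A; fun_prop
  rw [contDiff_pi]
  intro i
  fin_cases i <;> simp only [F] <;> simp <;> fun_prop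

noncomputable def J (v : Fin 3 → ℝ) : Matrix (Fin 3) (Fin 3) ℝ :=
  let x := v 0
  let y := v 1
  let E := o v - 1
  let Au := -(1 / 20) * (1 - (o v)⁻¹) * (w v ^ 2 - 4 * w v ^ 3)
  let Az := -(1 / 20) * (E / o v ^ 2) * (2 * w v ^ 2 - w v)
  !![A v + 2 * x ^ 2 * Au, 2 * x * y * Au - o v, x * Az - E * y;
     2 * x * y * Au + o v, A v + 2 * y ^ 2 * Au, y * Az + E * x;
     -2 * x * w v ^ 2, -2 * y * w v ^ 2, -1]

lemma F_jac (v : Fin 3 → ℝ) : LinearMap.toMatrix' (fderiv ℝ F v).toLinearMap = J v := by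
  have h0 := hasFDerivAt_apply (𝕜 := ℝ) (0 : Fin 3) v
  have h1 := hasFDerivAt_apply (𝕜 := ℝ) (1 : Fin 3) v
  have h2 := hasFDerivAt_apply (𝕜 := ℝ) (2 : Fin 3) v
  have hw : HasFDerivAt w _ v := (hasDerivAt_inv (den_pos v).ne').comp_hasFDerivAt v
    (((h0.pow 2).const_add 1).add (h1.pow 2))
  have ho : HasFDerivAt o _ v := h2.exp.const_add 1
  have hi : HasFDerivAt (fun v => (o v)⁻¹) _ v :=
    (hasDerivAt_inv (o_pos v).ne').comp_hasFDerivAt v ho
  have hA : HasFDerivAt A _ v :=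
    ((hi.const_sub 1).const_mul (-(1 / 20))).mul (((hw.pow 2).const_mul 2).sub hw)
  have f0 := (hA.mul h0).sub (ho.mul h1)
  have f1 := (hA.mul h1).add (ho.mul h0)
  have f2 := h2.neg.sub (hw.const_sub 1)
  have hd : DifferentiableAt ℝ F v := F_smooth.differentiable (by simp) v
  have e : ∀ i, ∀ L : (Fin 3 → ℝ) →L[ℝ] ℝ, HasFDerivAt (fun v => F v i) L v → ∀ u, fderiv ℝ F v u i = L u := by
    intro i L hL u
    have := ((hasFDerivAt_pi'.1 hd.hasFDerivAt) i).unique hL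
    rw [← this]; rfl
  have hE : Real.exp (v 2) = o v - 1 := by unfold o; ring
  have hw2 : (1 + v 0 ^ 2 + v 1 ^ 2)⁻¹ = w v := rfl
  ext i j
  rw [LinearMap.toMatrix'_apply]
  fin_cases i
  · refine (e 0 _ f0 _).trans ?_
    fin_cases j <;> simp [J, hE, ← inv_pow, hw2, A] <;> ring
  · refine (e 1 _ f1 _).trans ?_
    fin_cases j <;> simp [J, hE, ← inv_pow, hw2, A] <;> ring
  · refine (e 2 _ f2 _).trans ?_
    fin_cases j <;> simp [J, hE, ← inv_pow, hw2, A] <;> ring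

lemma cubic (M : Matrix (Fin 3) (Fin 3) ℝ) (z : ℂ) (h : Polynomial.aeval z M.charpoly = 0) :
    z ^ 3 + ((-(M 0 0 + M 1 1 + M 2 2) : ℝ) : ℂ) * z ^ 2
      + ((M 0 0 * M 1 1 - M 0 1 * M 1 0 + M 0 0 * M 2 2 - M 0 2 * M 2 0
        + M 1 1 * M 2 2 - M 1 2 * M 2 1 : ℝ) : ℂ) * z + ((-M.det : ℝ) : ℂ) = 0 := by
  rw [← h, Matrix.charpoly, Matrix.det_fin_three, Matrix.det_fin_three]
  simp [Matrix.charmatrix_apply_eq, Matrix.charmatrix_apply_ne]
  ring

lemma ineq (w o t A D G : ℝ) (hw0 : 0 < w) (hw1 : w ≤ 1) (ho : 1 < o) (ht : t * o = 1)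
    (hA : A = -(1 / 20) * (1 - t) * (2 * w ^ 2 - w))
    (hD : D = -(1 / 10) * (1 - t) * ((4 * w - 3) * w ^ 2))
    (hG : G = -(1 / 20) * ((1 - t) * t) * (2 * w ^ 2 - w) * (2 * (1 - w) * w)) :
    0 < 1 - D ∧ 0 < A * (D - A) - A * G + o ^ 2 - o * (o - 1) * (2 * (1 - w) * w) ∧
    A * (D - A) - A * G + o ^ 2 - o * (o - 1) * (2 * (1 - w) * w)
      < (1 - D) * (A * (D - A) + o ^ 2 - D + G) := by
  have ht0 : 0 < t := by
    by_contra h; push Not at h; nlinarith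
  have ht1 : t < 1 := by nlinarith
  have c1 : |2 * w ^ 2 - w| ≤ 1 := abs_le.2 ⟨by nlinarith, by nlinarith⟩
  have c2 : |(4 * w - 3) * w ^ 2| ≤ 1 :=
    abs_le.2 ⟨by nlinarith [mul_pos hw0 hw0, mul_pos hw0 (mul_pos hw0 hw0)],
      by nlinarith [mul_nonneg (sub_nonneg.2 hw1) (mul_pos hw0 hw0).le,
        mul_nonneg (sub_nonneg.2 hw1) hw0.le]⟩
  have m0 : 0 ≤ 2 * (1 - w) * w := by have := sub_nonneg.2 hw1; positivity
  have m1 : 2 * (1 - w) * w ≤ 1 / 2 := by nlinarith [sq_nonneg (w - 1 / 2)]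
  have s1 : |1 - t| ≤ 1 := abs_le.2 ⟨by linarith, by linarith⟩
  have t1 : |t| ≤ 1 := abs_le.2 ⟨by linarith, by linarith⟩
  have m2 : |2 * (1 - w) * w| ≤ 1 := abs_le.2 ⟨by linarith, by linarith⟩
  have e20 : |-(1 / 20 : ℝ)| = 1 / 20 := by norm_num
  have e10 : |-(1 / 10 : ℝ)| = 1 / 10 := by norm_num
  have bA : |A| ≤ 1 / 20 := by
    rw [hA, abs_mul, abs_mul, e20]
    calc _ ≤ (1:ℝ) / 20 * 1 * 1 := by gcongr
      _ = _ := by norm_num
  have bD : |D| ≤ 1 / 10 := by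
    rw [hD, abs_mul, abs_mul, e10]
    calc _ ≤ (1:ℝ) / 10 * 1 * 1 := by gcongr
      _ = _ := by norm_num
  have bG : |G| ≤ 1 / 20 := by
    rw [hG, abs_mul, abs_mul, abs_mul, e20, abs_mul (1 - t)]
    calc _ ≤ (1:ℝ) / 20 * (1 * 1) * 1 * 1 := by gcongr
      _ = _ := by norm_num
  have bT : |t * (2 * w ^ 2 - w) * (1 + A)| ≤ 2 := by
    have : |1 + A| ≤ 2 := by rw [abs_le] at bA ⊢; constructor <;> linarith [bA.1, bA.2]
    rw [abs_mul, abs_mul]
    calc _ ≤ (1:ℝ) * 1 * 2 := by gcongr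
      _ = _ := by norm_num
  have b1 : |A * (D - A)| ≤ 1 / 20 := by
    have : |D - A| ≤ 1 := by
      rw [abs_le] at bA bD ⊢; constructor <;> linarith [bA.1, bA.2, bD.1, bD.2]
    rw [abs_mul]
    calc _ ≤ (1:ℝ) / 20 * 1 := by gcongr
      _ = _ := by norm_num
  have b2 : |A * G| ≤ 1 / 20 := by
    rw [abs_mul]
    calc _ ≤ (1:ℝ) / 20 * (1 / 20) := by gcongr
      _ ≤ _ := by norm_num
  rw [abs_le] at bA bD bG bT b1 b2
  have o2 : 1 < o ^ 2 := by nlinarith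
  refine ⟨by linarith [bD.2], ?_, ?_⟩
  · have : o * (o - 1) * (2 * (1 - w) * w) ≤ o * (o - 1) * (1 / 2) :=
      mul_le_mul_of_nonneg_left m1 (by nlinarith)
    nlinarith [b1.1, b2.2]
  · obtain ⟨K, hK⟩ : ∃ K, K = A * (D - A) + o ^ 2 - D + G + 1 := ⟨_, rfl⟩
    have K0 : 0 < K := by linarith [b1.1, bD.2, bG.1]
    have K1 : K ≤ 3 * o ^ 2 := by linarith [b1.2, bD.1, bG.2]
    have e : (1 - D) * (A * (D - A) + o ^ 2 - D + G)
        - (A * (D - A) - A * G + o ^ 2 - o * (o - 1) * (2 * (1 - w) * w))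
        = -D * K + G * (1 + A) + o * (o - 1) * (2 * (1 - w) * w) := by rw [hK]; ring
    have e2 : o * (o - 1) = (1 - t) * o ^ 2 := by linear_combination o * ht
    have e3 : -D * K + G * (1 + A) + o * (o - 1) * (2 * (1 - w) * w)
        = 2 * (1 - t) * w * (1 / 20 * w * K + (1 - w) * (o ^ 2 - 1 / 5 * (w * K)
          - 1 / 20 * (t * (2 * w ^ 2 - w) * (1 + A)))) := by
      rw [e2, hD, hG]; ring
    have K2 : w * K ≤ K := by nlinarith
    have p1 : 0 ≤ o ^ 2 - 1 / 5 * (w * K) - 1 / 20 * (t * (2 * w ^ 2 - w) * (1 + A)) := by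
      linarith [bT.2]
    have p2 : 0 ≤ 1 - w := sub_nonneg.2 hw1
    have p3 : 0 < 1 - t := by linarith
    rw [← sub_pos, e, e3]
    positivity

lemma hurwitz (v : Fin 3 → ℝ) (z : ℂ) (h : Polynomial.aeval z (J v).charpoly = 0) :
    z.re < 0 := by
  have hw0 : 0 < w v := inv_pos.2 (den_pos v)
  have hw : w v * (1 + v 0 ^ 2 + v 1 ^ 2) = 1 := inv_mul_cancel₀ (den_pos v).ne'
  have hw1 : w v ≤ 1 := by nlinarith [sq_nonneg (v 0), sq_nonneg (v 1)]
  have ho : 1 < o v := by unfold o; linarith [Real.exp_pos (v 2)]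
  have ht : (o v)⁻¹ * o v = 1 := inv_mul_cancel₀ (o_pos v).ne'
  obtain ⟨h1, h2, h3⟩ := ineq (w v) (o v) (o v)⁻¹ (A v) _ _ hw0 hw1 ho ht rfl rfl rfl
  have h4 := cubic _ z h
  have hE : (o v - 1) / o v ^ 2 = (1 - (o v)⁻¹) * (o v)⁻¹ := by
    have := (o_pos v).ne'
    field_simp
  have hu : v 0 ^ 2 * w v = 1 - w v - v 1 ^ 2 * w v := by linarith
  refine routh _ _ _ ?_ ?_ ?_ z h4
  · refine h1.trans_eq ?_
    simp only [J, A, hE, Matrix.of_apply, Matrix.cons_val', Matrix.cons_val_zero,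
      Matrix.cons_val_one, Matrix.cons_val]
    grind
  · refine h2.trans_eq ?_
    rw [Matrix.det_fin_three]
    simp only [J, A, hE, Matrix.of_apply, Matrix.cons_val', Matrix.cons_val_zero,
      Matrix.cons_val_one, Matrix.cons_val]
    grind
  · refine lt_of_eq_of_lt ?_ (h3.trans_eq ?_)
    · rw [Matrix.det_fin_three]
      simp only [J, A, hE, Matrix.of_apply, Matrix.cons_val', Matrix.cons_val_zero,
        Matrix.cons_val_one, Matrix.cons_val]
      grind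
    · congr 1
      · simp only [J, A, hE, Matrix.of_apply, Matrix.cons_val', Matrix.cons_val_zero,
          Matrix.cons_val_one, Matrix.cons_val]
        grind
      · simp only [J, A, hE, Matrix.of_apply, Matrix.cons_val', Matrix.cons_val_zero,
          Matrix.cons_val_one, Matrix.cons_val]
        grind

theorem result :
    ∃ F : (Fin 3 → ℝ) → (Fin 3 → ℝ),
      ContDiff ℝ ∞ F ∧ F 0 = 0 ∧
      (∀ (x : Fin 3 → ℝ) (z : ℂ),
        Polynomial.aeval z
            (LinearMap.toMatrix' (fderiv ℝ F x).toLinearMap).charpoly = 0 →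
          z.re < 0) ∧
      ∃ γ : ℝ → (Fin 3 → ℝ), ∃ T : ℝ, 0 < T ∧
        (∀ t : ℝ, HasDerivAt γ (F (γ t)) t) ∧
        (∀ t : ℝ, γ (t + T) = γ t) ∧
        ∃ t : ℝ, γ t ≠ γ 0 := by
  set q : ℝ := 1 + Real.exp (-(1 / 2)) with hq
  have hq0 : 0 < q := by positivity
  set γ : ℝ → Fin 3 → ℝ := fun t => ![Real.cos (q * t), Real.sin (q * t), -(1 / 2)] with hγ
  refine ⟨F, F_smooth, ?_, fun x z h => hurwitz x z (by rwa [F_jac] at h), γ, 2 * Real.pi / q,
    by positivity, ?_, ?_, Real.pi / q, ?_⟩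
  · ext i
    fin_cases i <;> simp [F, w]
  · intro t
    have hw : w (γ t) = 1 / 2 := by
      simp only [w, hγ, Matrix.cons_val_zero, Matrix.cons_val_one]
      rw [add_assoc, Real.cos_sq_add_sin_sq]; norm_num
    have ho : o (γ t) = q := by simp [o, hγ, hq]
    have hA : A (γ t) = 0 := by unfold A; rw [hw]; norm_num
    rw [hasDerivAt_pi]
    intro i
    fin_cases i
    · exact ((hasDerivAt_id t).const_mul q).cos.congr_deriv (by simp only [F, hA, ho]; simp [hγ]; ring)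
    · exact ((hasDerivAt_id t).const_mul q).sin.congr_deriv (by simp only [F, hA, ho]; simp [hγ]; ring)
    · exact (hasDerivAt_const t (-(1 / 2) : ℝ)).congr_deriv (by simp only [F, hw]; simp [hγ]; norm_num)
  · intro t
    have : q * (t + 2 * Real.pi / q) = q * t + 2 * Real.pi := by field_simp
    simp only [hγ, this, Real.cos_add_two_pi, Real.sin_add_two_pi]
  · intro h
    have h1 := congrFun h 0
    have : q * (Real.pi / q) = Real.pi := by field_simp
    simp [hγ, this] at h1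
    norm_num at h1

end Pool.Agent.S05635
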