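import Pool.Statements.S05639
import Pool.Agent.H.MP_a1e890.F

set_option autoImplicit false
open Pool Pool.MP_a1e890_an

namespace Pool.Agent.S05639

/-- For every norm equivalent to the sup norm on continuous real functions on the ordinal interval [0,ω₁], and every ε>0, some equivalent norm that is C¹ away from 0 differs from it by less than ε on the unit ball. -/
theorem result :
    ∀ p : Seminorm ℝ (BoundedContinuousFunction (Set.Iic (Cardinal.aleph.{0} 1).ord) ℝ),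
      (∃ c : ℝ, 0 < c ∧ ∀ x, c * ‖x‖ ≤ p x) →
      (∃ C : ℝ, 0 < C ∧ ∀ x, p x ≤ C * ‖x‖) →
      ∀ ε : ℝ, 0 < ε →
        ∃ q : Seminorm ℝ (BoundedContinuousFunction (Set.Iic (Cardinal.aleph.{0} 1).ord) ℝ),
          (∃ c : ℝ, 0 < c ∧ ∀ x, c * ‖x‖ ≤ q x) ∧
          (∃ C : ℝ, 0 < C ∧ ∀ x, q x ≤ C * ‖x‖) ∧
          ContDiffOn ℝ 1 (fun x => q x) {x | x ≠ 0} ∧
          ∀ x, ‖x‖ ≤ 1 → |p x - q x| < ε := by
  rintro p ⟨c, c0, p1⟩ ⟨C, C0, p2⟩ ε e0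
  have := H.MP_a1e890.ord_unc
  obtain ⟨q, q1, q2⟩ := H.MP_a1e890.approx H.MP_a1e890.ord_hc p c0 C0 p1 p2 (half_pos e0)
  refine ⟨q, ⟨c, c0, fun x => (p1 x).trans (q1 x).1⟩, ⟨C + ε / 2, by positivity, fun x => ?_⟩,
    H.MP_a1e890.c1_on isOpen_ne q2, fun x hx => abs_lt.2 ⟨?_, ?_⟩⟩
  · linarith [(q1 x).2, p2 x]
  · nlinarith [(q1 x).2]
  · linarith [(q1 x).1]

end Pool.Agent.S05639
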