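import Pool.Statements.S05654
import Pool.Agent.H.MP_a2b00d_an.A

set_option autoImplicit false
open Filter Topology
open Pool Pool.MP_a2b00d_an

namespace Pool.Agent.S05654

theorem result :
    ¬ (∀ x : ℕ → FreeGroup ℕ → ℂ,
      (∀ n, Summable (fun g => ‖x n g‖) ∧ ∑' g, x n g = 0) →
      Tendsto (fun n => ∑' g, ‖x n g‖) atTop (𝓝 0) →
      ∃ a : FreeGroup ℕ → ℂ, Summable (fun g => ‖a g‖) ∧ ∑' g, a g = 0 ∧
        ∃ y : ℕ → FreeGroup ℕ → ℂ,
          (∀ n, Summable (fun g => ‖y n g‖) ∧ ∑' g, y n g = 0) ∧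
          Tendsto (fun n => ∑' g, ‖y n g‖) atTop (𝓝 0) ∧
          ∀ n g, x n g = ∑' h, a h * y n (h⁻¹ * g)) := by
  intro h
  classical
  have s (g : FreeGroup ℕ) : HasSum (H.MP_a2b00d_an.dl g) 1 := by
    simpa [← H.MP_a2b00d_an.dl_apply] using hasSum_ite_eq g (1 : ℂ)
  obtain ⟨a, h1, h2, y, h3, -, h4⟩ := h (fun n g => if n < 4 then
    H.MP_a2b00d_an.dl 1 g - H.MP_a2b00d_an.dl (.of n)⁻¹ g else 0) (fun n => by
      split_ifs
      · exact ⟨((s _).sub (s _)).summable.norm, by simpa using ((s 1).sub (s _)).tsum_eq⟩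
      · simp [summable_zero]) (tendsto_const_nhds.congr' ((eventually_ge_atTop 4).mono fun n hn => by
        simp [hn.not_gt]))
  exact H.MP_a2b00d_an.main h1 h2 (fun i => (h3 i).1) fun i hi g => by simpa [hi] using h4 i g

end Pool.Agent.S05654
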