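import Pool.Statements.S05680
import Pool.Agent.H.MP_a50f86_an.A

set_option autoImplicit false
open Pool Pool.MP_a50f86_an

namespace Pool.Agent.S05680

theorem result :
    ¬ (∀ n : ℕ, 3 ≤ n → ∀ Ω : Set (EuclideanSpace ℝ (Fin n)),
    IsOpen Ω → Bornology.IsBounded Ω → Convex ℝ Ω →
    (∃ U : Set (EuclideanSpace ℝ (Fin n)), ∃ ρ : EuclideanSpace ℝ (Fin n) → ℝ,
        IsOpen U ∧ closure Ω ⊆ U ∧ ContDiffOn ℝ ((⊤ : ℕ∞) : WithTop ℕ∞) ρ U ∧
        Ω = {x | x ∈ U ∧ ρ x < 0} ∧ ∀ x ∈ frontier Ω, fderiv ℝ ρ x ≠ 0) →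
    ∀ p ∈ Ω, ∀ u v : EuclideanSpace ℝ (Fin n),
      ‖u‖ = ‖v‖ → inner ℝ u v = 0 → u ≠ 0 →
      ∃ f : ℂ → EuclideanSpace ℝ (Fin n),
        (∃ r : ℝ, 0 < r ∧
          (ContDiffOn ℝ 2 f (Metric.ball (0 : ℂ) 1) ∧
            (∀ z ∈ Metric.ball (0 : ℂ) 1, f z ∈ Ω) ∧
            (∀ z ∈ Metric.ball (0 : ℂ) 1,
              ‖fderiv ℝ f z (1 : ℂ)‖ = ‖fderiv ℝ f z Complex.I‖ ∧
              inner ℝ (fderiv ℝ f z (1 : ℂ)) (fderiv ℝ f z Complex.I) = 0) ∧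
            (∀ z ∈ Metric.ball (0 : ℂ) 1,
              fderiv ℝ (fun w => fderiv ℝ f w (1 : ℂ)) z (1 : ℂ) +
                fderiv ℝ (fun w => fderiv ℝ f w Complex.I) z Complex.I = 0)) ∧
          f 0 = p ∧ fderiv ℝ f 0 (1 : ℂ) = r • u ∧ fderiv ℝ f 0 Complex.I = r • v ∧
          ∀ g : ℂ → EuclideanSpace ℝ (Fin n), ∀ s : ℝ, 0 < s →
            (ContDiffOn ℝ 2 g (Metric.ball (0 : ℂ) 1) ∧
              (∀ z ∈ Metric.ball (0 : ℂ) 1, g z ∈ Ω) ∧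
              (∀ z ∈ Metric.ball (0 : ℂ) 1,
                ‖fderiv ℝ g z (1 : ℂ)‖ = ‖fderiv ℝ g z Complex.I‖ ∧
                inner ℝ (fderiv ℝ g z (1 : ℂ)) (fderiv ℝ g z Complex.I) = 0) ∧
              (∀ z ∈ Metric.ball (0 : ℂ) 1,
                fderiv ℝ (fun w => fderiv ℝ g w (1 : ℂ)) z (1 : ℂ) +
                  fderiv ℝ (fun w => fderiv ℝ g w Complex.I) z Complex.I = 0)) →
            g 0 = p → fderiv ℝ g 0 (1 : ℂ) = s • u → fderiv ℝ g 0 Complex.I = s • v →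
            s ≤ r) ∧
        (∀ h : ℂ → EuclideanSpace ℝ (Fin n),
          (∃ r : ℝ, 0 < r ∧
            (ContDiffOn ℝ 2 h (Metric.ball (0 : ℂ) 1) ∧
              (∀ z ∈ Metric.ball (0 : ℂ) 1, h z ∈ Ω) ∧
              (∀ z ∈ Metric.ball (0 : ℂ) 1,
                ‖fderiv ℝ h z (1 : ℂ)‖ = ‖fderiv ℝ h z Complex.I‖ ∧
                inner ℝ (fderiv ℝ h z (1 : ℂ)) (fderiv ℝ h z Complex.I) = 0) ∧
              (∀ z ∈ Metric.ball (0 : ℂ) 1,
                fderiv ℝ (fun w => fderiv ℝ h w (1 : ℂ)) z (1 : ℂ) +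
                  fderiv ℝ (fun w => fderiv ℝ h w Complex.I) z Complex.I = 0)) ∧
            h 0 = p ∧ fderiv ℝ h 0 (1 : ℂ) = r • u ∧ fderiv ℝ h 0 Complex.I = r • v ∧
            ∀ g : ℂ → EuclideanSpace ℝ (Fin n), ∀ s : ℝ, 0 < s →
              (ContDiffOn ℝ 2 g (Metric.ball (0 : ℂ) 1) ∧
                (∀ z ∈ Metric.ball (0 : ℂ) 1, g z ∈ Ω) ∧
                (∀ z ∈ Metric.ball (0 : ℂ) 1,
                  ‖fderiv ℝ g z (1 : ℂ)‖ = ‖fderiv ℝ g z Complex.I‖ ∧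
                  inner ℝ (fderiv ℝ g z (1 : ℂ)) (fderiv ℝ g z Complex.I) = 0) ∧
                (∀ z ∈ Metric.ball (0 : ℂ) 1,
                  fderiv ℝ (fun w => fderiv ℝ g w (1 : ℂ)) z (1 : ℂ) +
                    fderiv ℝ (fun w => fderiv ℝ g w Complex.I) z Complex.I = 0)) →
              g 0 = p → fderiv ℝ g 0 (1 : ℂ) = s • u → fderiv ℝ g 0 Complex.I = s • v →
              s ≤ r) →
          Set.EqOn h f (Metric.ball (0 : ℂ) 1)) ∧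
        Set.InjOn f (Metric.ball (0 : ℂ) 1) ∧
        (∀ z ∈ Metric.ball (0 : ℂ) 1, fderiv ℝ f z (1 : ℂ) ≠ 0) ∧
        (∀ K : Set (EuclideanSpace ℝ (Fin n)), IsCompact K → K ⊆ Ω →
          IsCompact (Metric.ball (0 : ℂ) 1 ∩ f ⁻¹' K))) := by
  intro HH
  obtain ⟨ρ, dρ, bd, cv, gr, sub, ins⟩ := H.MP_a50f86_an.dom
  have op : IsOpen {x | ρ x < 0} := isOpen_lt dρ.continuous continuous_const
  obtain ⟨f, -, uq, -⟩ := HH 4 (by norm_num) _ op bd cv ⟨Set.univ, ρ, isOpen_univ,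
    Set.subset_univ _, dρ.contDiffOn, by simp, fun x hx => gr x (op.frontier_eq ▸ hx).2⟩ 0
    (ins 0 (by simp) (by simp) (by simp)) (EuclideanSpace.single 0 1) (EuclideanSpace.single 1 1)
    (by simp) (by simp [EuclideanSpace.inner_single_left]) (by simp)
  have key : ∀ c : ℝ, |c| ≤ 1 → Set.EqOn (H.MP_a50f86_an.disc c) f (Metric.ball 0 1) := by
    refine fun c hc => uq _ ⟨1, one_pos, ⟨?_, fun z hz => ?_, fun z _ => ?_, fun z _ => ?_⟩,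
      by simp [H.MP_a50f86_an.disc], ?_, ?_, fun g s _ ⟨a1, a2, _, a4⟩ b0 b1 b2 =>
        H.MP_a50f86_an.schwarz a1 a4 b0 (fun z hz => sub _ (a2 z hz)) (by simp [b1]) (by simp [b2])⟩
    · unfold H.MP_a50f86_an.disc
      fun_prop
    · rw [mem_ball_zero_iff] at hz
      have n : ‖z * z‖ ≤ 1 := by rw [norm_mul]; nlinarith [norm_nonneg z]
      have k : ∀ t : ℝ, |t| ≤ ‖z * z‖ → |c * t| ≤ 1 := fun t ht => by
        rw [abs_mul]; exact mul_le_one₀ hc (abs_nonneg _) (ht.trans n)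
      refine ins _ ?_ ?_ ?_
      · have : ‖z‖ ^ 2 < 1 := by nlinarith [norm_nonneg z]
        rw [Complex.sq_norm, Complex.normSq_apply] at this
        simpa [H.MP_a50f86_an.disc, H.MP_a50f86_an.P, sq] using this
      · simpa [H.MP_a50f86_an.disc, H.MP_a50f86_an.P] using k _ (Complex.abs_re_le_norm _)
      · simpa [H.MP_a50f86_an.disc, H.MP_a50f86_an.P] using k _ (Complex.abs_im_le_norm _)
    · simp only [H.MP_a50f86_an.ddisc, EuclideanSpace.norm_eq, PiLp.inner_apply, Fin.sum_univ_four]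
      simp [H.MP_a50f86_an.P]
      exact ⟨by congr 1; ring, by ring⟩
    · simp [H.MP_a50f86_an.dd, mul_assoc]
    · simp [H.MP_a50f86_an.ddisc, H.MP_a50f86_an.P]
    · simp [H.MP_a50f86_an.ddisc, H.MP_a50f86_an.P]
  have m : (1 / 2 : ℂ) ∈ Metric.ball (0 : ℂ) 1 := by simp; norm_num
  have := congrArg (· 2) ((key 0 (by simp) m).trans (key 1 (by simp) m).symm)
  simp [H.MP_a50f86_an.disc, H.MP_a50f86_an.P] at this

end Pool.Agent.S05680
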