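import Pool.Statements.S05682
import Pool.Agent.H.MP_a51306_an.E

set_option autoImplicit false
open Filter Topology
open Pool Pool.MP_a51306_an

namespace Pool.Agent.S05682

/-- The negation of the preceding statement: For every countable group: if every asymptotically multiplicative sequence of unitary-matrix maps (operator norm) is close to true representations, then the same holds with the normalized Hilbert–Schmidt norm. -/
theorem result :
    ¬ (∀ (G : Type) [Group G] [Countable G],
      (∀ (k : ℕ → ℕ) (φ : ∀ n : ℕ, G → Matrix.unitaryGroup (Fin (k n)) ℂ),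
        (∀ g h : G, Tendsto (fun n : ℕ =>
            ‖Matrix.toEuclideanCLM (𝕜 := ℂ)
              ((φ n (g * h)).val - (φ n g).val * (φ n h).val)‖) atTop (𝓝 0)) →
        ∃ ρ : ∀ n : ℕ, G →* Matrix.unitaryGroup (Fin (k n)) ℂ,
          ∀ g : G, Tendsto (fun n : ℕ =>
            ‖Matrix.toEuclideanCLM (𝕜 := ℂ) ((φ n g).val - (ρ n g).val)‖) atTop (𝓝 0)) →
      (∀ (k : ℕ → ℕ) (φ : ∀ n : ℕ, G → Matrix.unitaryGroup (Fin (k n)) ℂ),
        (∀ g h : G, Tendsto (fun n : ℕ =>
            (Matrix.trace (Matrix.conjTranspose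
                ((φ n (g * h)).val - (φ n g).val * (φ n h).val) *
              ((φ n (g * h)).val - (φ n g).val * (φ n h).val))).re / (k n : ℝ))
            atTop (𝓝 0)) →
        ∃ ρ : ∀ n : ℕ, G →* Matrix.unitaryGroup (Fin (k n)) ℂ,
          ∀ g : G, Tendsto (fun n : ℕ =>
            (Matrix.trace (Matrix.conjTranspose ((φ n g).val - (ρ n g).val) *
              ((φ n g).val - (ρ n g).val))).re / (k n : ℝ)) atTop (𝓝 0))) := by
  intro h
  exact Pool.Agent.H.MP_a51306_an.not_hs (h Pool.Agent.H.MP_a51306_an.GG fun k φ hφ =>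
    Pool.Agent.H.MP_a51306_an.stable (ι := fun n => Fin (k n)) φ hφ)

end Pool.Agent.S05682
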