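import Pool.Statements.S05690
import Pool.Agent.H.MP_a56edf_an.Main

set_option autoImplicit false
open Pool Pool.MP_a56edf_an

namespace Pool.Agent.S05690

open Pool.Agent.H.MP_a56edf_an in
theorem result :
    ¬ (∀ (𝕜 : Type) [RCLike 𝕜] (E : Type) [NormedAddCommGroup E] [NormedSpace 𝕜 E]
      [CompleteSpace E] [TopologicalSpace.SeparableSpace E] (lam : ℝ), 1 ≤ lam →
      (∀ δ : ℝ, 0 < δ → ∀ Q : Set E, IsCompact Q → ∀ ε : ℝ, 0 < ε →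
        ∃ u : E →L[𝕜] E, FiniteDimensional 𝕜 (LinearMap.range (u : E →ₗ[𝕜] E)) ∧
          u.comp u = u ∧ ‖u‖ ≤ lam + δ ∧ ∀ x ∈ Q, ‖u x - x‖ ≤ ε) →
      (∀ Q : Set E, IsCompact Q → ∀ ε : ℝ, 0 < ε →
        ∃ u : E →L[𝕜] E, FiniteDimensional 𝕜 (LinearMap.range (u : E →ₗ[𝕜] E)) ∧
          u.comp u = u ∧ ‖u‖ ≤ lam ∧ ∀ x ∈ Q, ‖u x - x‖ ≤ ε)) := by
  intro h
  obtain ⟨R, h1, h2, h3, h4⟩ := h ℝ Y 1 le_rfl (fun δ hδ K hK ε hε => by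
      obtain ⟨N, h1, h2⟩ := pap δ hδ K hK ε hε
      exact ⟨P N, P_fin N, P_idem N, h1, h2⟩) {T (H.MP_f9d380_an.u 0), T (H.MP_f9d380_an.u 1)}
    (Set.toFinite _).isCompact (1 / 10) (by norm_num)
  exact no_proj R h1 h2 h3 (h4 _ (Or.inl rfl)) (h4 _ (Or.inr rfl))

end Pool.Agent.S05690
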