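import Pool.Statements.S05711
import Pool.Agent.H.MP_a6b860_an.D

set_option autoImplicit false
open MeasureTheory
open scoped FourierTransform
open Pool Pool.MP_a6b860_an

namespace Pool.Agent.S05711

theorem result :
    ∀ d : ℕ, 1 ≤ d →
      ∀ F : Lp ℂ 2 (volume : Measure (EuclideanSpace ℝ (Fin d))) ≃ₗᵢ[ℂ]
          Lp ℂ 2 (volume : Measure (EuclideanSpace ℝ (Fin d))),
        (∀ f : Lp ℂ 2 (volume : Measure (EuclideanSpace ℝ (Fin d))),
            Integrable (⇑f) volume →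
              (⇑(F f)) =ᵐ[volume] 𝓕 (⇑f)) →
        ∃ U : Lp ℂ 2 (volume : Measure (EuclideanSpace ℝ (Fin d))) ≃ₗᵢ[ℂ]
            Lp ℂ 2 (volume : Measure (EuclideanSpace ℝ (Fin d))),
          ∀ f g : Lp ℂ 2 (volume : Measure (EuclideanSpace ℝ (Fin d))),
            (∀ᵐ x ∂volume, ‖f x‖ = ‖g x‖) →
            (∀ᵐ x ∂volume, ‖(F f) x‖ = ‖(F g) x‖) →
            (∀ᵐ x ∂volume, ‖(U f) x‖ = ‖(U g) x‖) →
            ∃ c : ℂ, ‖c‖ = 1 ∧ f = c • g := by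
  intro d hd F _
  obtain ⟨U, hU⟩ := Pool.Agent.H.MP_a6b860_an.main d hd
  exact ⟨U, fun f g h1 _ h3 => hU f g h1 h3⟩

end Pool.Agent.S05711
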