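import Pool.Statements.S05716
import Pool.Agent.H.MP_a0704c_an.C

set_option autoImplicit false
open Pool Pool.MP_a6e7fb_an

namespace Pool.Agent.S05716

theorem result :
    ¬ (∀ (K₁ K₂ : Type) [MetricSpace K₁] [CompactSpace K₁] [Infinite K₁]
      [MetricSpace K₂] [CompactSpace K₂] [Infinite K₂],
      Nonempty (ContinuousMap (StoneCech ℕ × StoneCech ℕ × K₁) ℝ ≃L[ℝ]
        ContinuousMap (StoneCech ℕ × StoneCech ℕ × K₂) ℝ) →
      Nonempty (ContinuousMap K₁ ℝ ≃L[ℝ] ContinuousMap K₂ ℝ)) := by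
  intro h
  obtain ⟨a⟩ := Pool.Agent.H.MP_a0704c_an.isos.1
  obtain ⟨T⟩ := @h (OnePoint ℕ) (ℕ → Bool) (TopologicalSpace.metrizableSpaceMetric _)
    (inferInstanceAs (CompactSpace (OnePoint ℕ))) inferInstance
    (TopologicalSpace.metrizableSpaceMetric _) (inferInstanceAs (CompactSpace (ℕ → Bool)))
    inferInstance ⟨(Pool.Agent.H.MP_a0704c_an.hiso ((Homeomorph.prodComm _ _).trans
      (Homeomorph.prodAssoc _ _ _))).trans a.symm⟩
  exact Pool.Agent.H.MP_a0704c_an.noiso T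

end Pool.Agent.S05716
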