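import Pool.Statements.S05720
import Pool.Agent.H.MP_a7579f_an.K

set_option autoImplicit false
open Pool Pool.MP_a7579f_an

namespace Pool.Agent.S05720

theorem result :
    ¬ (∀ (H X : Subalgebra ℂ (BoundedContinuousFunction (Metric.ball (0:ℂ) 1) ℂ)),
      (∀ f, f ∈ H ↔ ∃ F : ℂ → ℂ, DifferentiableOn ℂ F (Metric.ball 0 1) ∧
          ∀ z : Metric.ball (0:ℂ) 1, F z = f z) →
      X ≤ H →
      IsClosed (X : Set (BoundedContinuousFunction (Metric.ball (0:ℂ) 1) ℂ)) →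
      (∀ F : ℂ → ℂ, ContinuousOn F (Metric.closedBall 0 1) →
          DifferentiableOn ℂ F (Metric.ball 0 1) →
          ∃ f ∈ X, ∀ z : Metric.ball (0:ℂ) 1, f z = F z) →
      ¬ Dense {φ : WeakDual.characterSpace ℂ X |
          ∃ z : Metric.ball (0:ℂ) 1, ∀ f : X, φ f = f.1 z} →
      ∃ χ ψ : WeakDual.characterSpace ℂ X, χ ≠ ψ ∧
        (∃ c : ℝ, c < 2 ∧ ∀ f : X, ‖f‖ ≤ 1 → ‖χ f - ψ f‖ ≤ c) ∧
        ¬ ∃ ρ : WeakDual.characterSpace ℂ H,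
            ∀ f (hX : f ∈ X) (hH : f ∈ H), ρ ⟨f, hH⟩ = χ ⟨f, hX⟩) := by
  intro h
  obtain ⟨χ, ψ, h1, ⟨c, hc, h2⟩, h3⟩ := h H.MP_a7579f_an.H H.MP_a7579f_an.X (fun _ => Iff.rfl)
    inf_le_left H.MP_a7579f_an.X_cl
    (fun F a b => (H.MP_a7579f_an.A_X a b).imp fun _ h => ⟨h.1, h.2.2⟩) H.MP_a7579f_an.not_dense
  obtain ⟨τ, t1, t2⟩ := H.MP_a7579f_an.toCh χ
  obtain ⟨σ, s1, s2⟩ := H.MP_a7579f_an.toCh ψ
  have : CompleteSpace H.MP_a7579f_an.H := H.MP_a7579f_an.H_cl.completeSpace_coe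
  have h4 := H.MP_a7579f_an.main t1 s1 hc
    (fun f hf h => by rw [t2 ⟨f, hf⟩, s2 ⟨f, hf⟩]; exact h2 _ h) fun ⟨ρ, r1, r2⟩ =>
      h3 ⟨WeakDual.CharacterSpace.equivAlgHom.symm r1.hom, fun f hX hH =>
        (r2 f hX).trans (t2 ⟨f, hX⟩)⟩
  exact h1 (WeakDual.CharacterSpace.ext fun f => by rw [← t2, ← s2, h4 _ f.2])

end Pool.Agent.S05720
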