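import Pool.Statements.S05730
import Pool.Agent.H.MP_a7cd30_an.B

set_option autoImplicit false
open MeasureTheory
open Pool Pool.MP_a7cd30_an

namespace Pool.Agent.S05730

theorem result :
    ¬ (∀ τ : TopologicalSpace
        {e : ℝ ≃ᵐ ℝ // MeasurePreserving (⇑e) (volume.restrict (Set.Icc (0:ℝ) 1))
          (volume.restrict (Set.Icc (0:ℝ) 1))},
      τ = (⨅ (A : Set ℝ) (_ : MeasurableSet A) (B : Set ℝ) (_ : MeasurableSet B),
            TopologicalSpace.induced
              (fun T : {e : ℝ ≃ᵐ ℝ // MeasurePreserving (⇑e) (volume.restrict (Set.Icc (0:ℝ) 1))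
                  (volume.restrict (Set.Icc (0:ℝ) 1))} =>
                ((volume.restrict (Set.Icc (0:ℝ) 1)) ((⇑T.1) ⁻¹' A ∩ B)).toReal)
              (inferInstance : TopologicalSpace ℝ)) →
      ∀ K : Set {e : ℝ ≃ᵐ ℝ // MeasurePreserving (⇑e) (volume.restrict (Set.Icc (0:ℝ) 1))
          (volume.restrict (Set.Icc (0:ℝ) 1))},
        @IsCompact _ τ K →
        @IsMeagre _ τ
          {T : {e : ℝ ≃ᵐ ℝ // MeasurePreserving (⇑e) (volume.restrict (Set.Icc (0:ℝ) 1))
              (volume.restrict (Set.Icc (0:ℝ) 1))} |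
            ∃ R S : {e : ℝ ≃ᵐ ℝ // MeasurePreserving (⇑e) (volume.restrict (Set.Icc (0:ℝ) 1))
                (volume.restrict (Set.Icc (0:ℝ) 1))},
              S ∈ K ∧
              Filter.EventuallyEq (ae (volume.restrict (Set.Icc (0:ℝ) 1)))
                (⇑T.1) (fun x => R.1.symm (S.1 (R.1 x)))}) := by
  intro h
  have h1 := h Pool.Agent.H.MP_a7cd30_an.tau rfl _ (Pool.Agent.H.MP_a7cd30_an.isCompact_preimage
    (Pool.Agent.H.MP_a7cd30_an.isCompact_K0.prod Pool.Agent.H.MP_a7cd30_an.isCompact_K0))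
  apply Pool.Agent.H.MP_a7cd30_an.not_meagre
  convert h1 using 1
  symm
  refine Set.eq_univ_of_forall fun S => ?_
  obtain ⟨R, T, hT, hS⟩ := Pool.Agent.H.MP_a7cd30_an.conj_mem S
  exact ⟨R, T, hT, Filter.EventuallyEq.of_eq hS⟩

end Pool.Agent.S05730
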