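import Pool.Statements.S05749
import Pool.Agent.H.MP_a9f24d_an.F

set_option autoImplicit false
open Pool Pool.MP_a9f24d_an

namespace Pool.Agent.S05749

open Pool.Agent.H.MP_a9f24d_an MeasureTheory Filter Topology MvPolynomial

lemma ext_bound {n : ℕ} {K : Set (Fin n → ℂ)} {z : Fin n → ℂ} {v : ℝ}
    (h : IsLUB {t : ℝ | ∃ k : ℕ, 1 ≤ k ∧ ∃ p : MvPolynomial (Fin n) ℂ, p.totalDegree ≤ k ∧
        (∀ x ∈ K, ‖MvPolynomial.eval x p‖ ≤ 1) ∧
        t = Real.log ‖MvPolynomial.eval z p‖ / (k : ℝ)} v) {B : ℝ} (hB : Real.exp v ≤ B)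
    (hne : K.Nonempty) (k : ℕ) (p : MvPolynomial (Fin n) ℂ) (t : ℝ) (hp : p.totalDegree ≤ k)
    (ht : ∀ x ∈ K, ‖eval x p‖ ≤ t) : ‖eval z p‖ ≤ t * B ^ k := by
  have t0 : 0 ≤ t := (norm_nonneg _).trans (ht _ hne.some_mem)
  have B0 : 0 < B := (Real.exp_pos v).trans_le hB
  rcases Nat.eq_zero_or_pos k with rfl | hk
  · rw [totalDegree_eq_zero_iff_eq_C.1 (Nat.le_zero.1 hp)] at ht ⊢
    simpa using ht _ hne.some_mem
  refine le_of_forall_pos_le_add fun η η0 => ?_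
  obtain ⟨s, hs⟩ : ∃ s, s = t + η / B ^ k := ⟨_, rfl⟩
  have ts : t < s := hs ▸ lt_add_of_pos_right _ (by positivity)
  have s0 : 0 < s := t0.trans_lt ts
  have e : t * B ^ k + η = s * B ^ k := by rw [hs]; field_simp
  have nq : ∀ x, ‖eval x (C ((s⁻¹ : ℝ) : ℂ) * p)‖ = s⁻¹ * ‖eval x p‖ := fun x => by
    rw [map_mul, eval_C, norm_mul, Complex.norm_real, Real.norm_of_nonneg (by positivity)]
  have := h.1 ⟨k, hk, C ((s⁻¹ : ℝ) : ℂ) * p, (totalDegree_mul _ _).trans (by simpa using hp),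
    fun x hx => by rw [nq, inv_mul_le_iff₀ s0]; linarith [ht x hx], rfl⟩
  rw [nq, div_le_iff₀ (by exact_mod_cast hk)] at this
  have h2 := (Real.le_exp_log _).trans (Real.exp_le_exp.2 this)
  rw [mul_comm v, Real.exp_nat_mul, inv_mul_le_iff₀ s0] at h2
  rw [e]
  exact h2.trans (mul_le_mul_of_nonneg_left (pow_le_pow_left₀ (Real.exp_pos v).le hB k) s0.le)

theorem result :
  ∀ (n : ℕ), 2 ≤ n → ∀ (K : Set (Fin n → ℂ)), IsCompact K →
    (∃ V : (Fin n → ℂ) → ℝ, Continuous V ∧ ∀ z : Fin n → ℂ,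
      IsLUB {t : ℝ | ∃ k : ℕ, 1 ≤ k ∧ ∃ p : MvPolynomial (Fin n) ℂ, p.totalDegree ≤ k ∧
        (∀ x ∈ K, ‖MvPolynomial.eval x p‖ ≤ 1) ∧
        t = Real.log ‖MvPolynomial.eval z p‖ / (k : ℝ)} (V z)) →
    ∀ (ν : MeasureTheory.Measure (Fin n → ℂ)) [MeasureTheory.IsFiniteMeasure ν], ν Kᶜ = 0 →
    ((∀ ε : ℝ, 0 < ε → ∃ C : ℝ, ∀ (k : ℕ) (p : MvPolynomial (Fin n) ℂ), p.totalDegree ≤ k →
        ∀ x ∈ K, ‖MvPolynomial.eval x p‖ ^ 2 ≤
          C * (1 + ε) ^ (2 * k) * ∫ y, ‖MvPolynomial.eval y p‖ ^ 2 ∂ν)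
    ↔
    ∃ d : ℝ,
      Filter.Tendsto (fun k : ℕ =>
        (sSup {s : ℝ | ∃ z : {α : Fin n → Fin (k+1) // ∑ i, (α i : ℕ) ≤ k} → (Fin n → ℂ),
            (∀ a, z a ∈ K) ∧
            s = ‖Matrix.det (Matrix.of (fun a b : {α : Fin n → Fin (k+1) // ∑ i, (α i : ℕ) ≤ k} =>
                  ∏ i, z a i ^ ((b.1 i : ℕ))))‖}) ^
          ((1 : ℝ) / (∑ a : {α : Fin n → Fin (k+1) // ∑ i, (α i : ℕ) ≤ k},
                        ∑ i, ((a.1 i : ℕ) : ℝ))))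
        Filter.atTop (nhds d) ∧
      Filter.Tendsto (fun k : ℕ =>
        (∫ z, ‖Matrix.det (Matrix.of (fun a b : {α : Fin n → Fin (k+1) // ∑ i, (α i : ℕ) ≤ k} =>
                  ∏ i, z a i ^ ((b.1 i : ℕ))))‖ ^ 2
            ∂(MeasureTheory.Measure.pi
                (fun _ : {α : Fin n → Fin (k+1) // ∑ i, (α i : ℕ) ≤ k} => ν))) ^
          ((1 : ℝ) / (2 * ∑ a : {α : Fin n → Fin (k+1) // ∑ i, (α i : ℕ) ≤ k},
                        ∑ i, ((a.1 i : ℕ) : ℝ))))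
        Filter.atTop (nhds d)) := by
  rintro n hn K hK ⟨V, hV, hl⟩ ν _ hν
  have hν' : ∀ᵐ x ∂ν, x ∈ K := hν
  have hne : K.Nonempty := by
    by_contra h
    have := (hl 0).1 ⟨1, le_rfl, C (Real.exp (V 0 + 1) : ℂ), by simp,
      fun x hx => (h ⟨x, hx⟩).elim, rfl⟩
    rw [eval_C, Complex.norm_real, Real.norm_of_nonneg (Real.exp_pos _).le, Real.log_exp] at this
    simp at this
    linarith
  have V0 : ∀ x ∈ K, V x ≤ 0 := fun x hx => (hl x).2 (by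
    rintro _ ⟨k, hk, p, hp, h1, rfl⟩
    exact div_nonpos_of_nonpos_of_nonneg (Real.log_nonpos (norm_nonneg _) (h1 x hx)) (by positivity))
  have loc : ∀ δ > 0, ∃ r > 0, ∀ x ∈ K, Loc K x r (1 + δ) := by
    intro δ d0
    obtain ⟨r, r0, hr⟩ := hK.exists_cthickening_subset_open
      (isOpen_lt hV (continuous_const (y := Real.log (1 + δ))))
      (fun x hx => (V0 x hx).trans_lt (Real.log_pos (by linarith)))
    refine ⟨r, r0, fun x hx k p t hp ht z hz => ext_bound (hl z) ?_ hne k p t hp ht⟩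
    have : V z < Real.log (1 + δ) := hr (Metric.closedBall_subset_cthickening hx r hz)
    exact (Real.exp_le_exp.2 this.le).trans (Real.exp_log (by linarith)).le
  obtain ⟨r1, r10, h1⟩ := loc 1 one_pos
  have hA := (h1 _ hne.some_mem).bd r10 (by norm_num)
  constructor
  · intro h
    exact to_lims (by omega) hK hne hA ν hν' h
  · rintro ⟨d, l1, l2⟩ ε e0
    obtain ⟨a, b⟩ := of_lims (by omega) hK hne hA ν l1 l2
    obtain ⟨δ, d0, hd⟩ : ∃ δ : ℝ, 0 < δ ∧ (1 + δ) * (1 + δ) ≤ 1 + ε :=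
      ⟨min 1 (ε / 3), by positivity, by
        nlinarith [min_le_left 1 (ε / 3), min_le_right 1 (ε / 3), lt_min one_pos (show 0 < ε / 3 by positivity)]⟩
    obtain ⟨r, r0, hr⟩ := loc δ d0
    obtain ⟨k0, hk0⟩ := core hK hne ν hν' (D_pos hK hne hA) a b r0 (R := Metric.diam K + 1)
      (by positivity) (B := 1 + δ) (by linarith) d0
    refine ⟨(1 + ε) ^ (2 * k0), fun k p hp x hx => ?_⟩
    refine (hk0 (k0 + k) (by omega) x (fun w hw => ?_) (hr x hx) p (by omega)).trans ?_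
    · linarith [Metric.dist_le_diam_of_mem hK.isBounded hw hx]
    · refine mul_le_mul_of_nonneg_right ?_ (integral_nonneg fun _ => by positivity)
      rw [← pow_add, ← mul_add]
      exact pow_le_pow_left₀ (by positivity) hd _

end Pool.Agent.S05749
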