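import Pool.Statements.S05764
import Pool.Agent.H.MP_aafae6.C

set_option autoImplicit false
open Pool Pool.MP_aafae6_an

namespace Pool.Agent.S05764

/-- The negation of the preceding statement: If a real Banach space has an equivalent norm whose Y-lower semicontinuous envelope is Gâteaux differentiable off zero for every norming subspace Y of the dual, then it embeds isomorphically into a weakly compactly generated Banach space. -/
theorem result :
    ¬ (∀ (X : Type) [NormedAddCommGroup X] [NormedSpace ℝ X] [CompleteSpace X],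
    (∃ N : X → ℝ,
      (∀ x y : X, N (x + y) ≤ N x + N y) ∧
      (∀ (r : ℝ) (x : X), N (r • x) = |r| * N x) ∧
      (∃ a b : ℝ, 0 < a ∧ 0 < b ∧ ∀ x : X, a * ‖x‖ ≤ N x ∧ N x ≤ b * ‖x‖) ∧
      ∀ Y : Submodule ℝ (X →L[ℝ] ℝ),
        (∃ c : ℝ, 0 < c ∧ ∀ x : X,
          c * N x ≤ sSup {r : ℝ | ∃ f ∈ Y, (∀ z : X, f z ≤ N z) ∧ f x = r}) →
        ∀ x : X, x ≠ 0 → ∃ g : X →L[ℝ] ℝ, ∀ h : X,
          HasDerivAt
            (fun t : ℝ => sSup {r : ℝ | ∃ f ∈ Y, (∀ z : X, f z ≤ N z) ∧ f (x + t • h) = r})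
            (g h) 0) →
    ∃ (Z : Type) (_ : NormedAddCommGroup Z) (_ : NormedSpace ℝ Z) (_ : CompleteSpace Z),
      (∃ K : Set Z, IsCompact ((toWeakSpace ℝ Z) '' K) ∧
        Dense ((Submodule.span ℝ K : Submodule ℝ Z) : Set Z)) ∧
      ∃ T : X →L[ℝ] Z, ∃ c : ℝ, 0 < c ∧ ∀ x : X, c * ‖x‖ ≤ ‖T x‖) := by
  intro H
  open Pool.Agent.H.MP_aafae6 in
  obtain ⟨X, _, _, _, e, e0, e1, e2, e3⟩ := tal
  obtain ⟨σ, hσ⟩ := exists_surjective_nat (List ℕ)
  open Pool.Agent.H.MP_aafae6 in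
  obtain ⟨Z, _, _, _, ⟨K, k1, k2⟩, T, c, c0, hT⟩ := H X (env (fun k => k.casesOn
    (Metric.closedBall 0 1) fun k => (fun b => ((1 / 2 : ℝ) ^ (k + 1)) • e b) ''
      {b | ∀ i < (σ k).length, b i = (σ k).getD i 0}) subset_rfl (fun k => by
        cases k with
        | zero => simp
        | succ k =>
          rintro _ ⟨b, -, rfl⟩
          rw [norm_smul, Real.norm_of_nonneg (by positivity)]
          exact mul_le_of_le_one_right (by positivity) (e1 b)) (fun k => by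
        cases k with
        | zero => exact ⟨0, by simp⟩
        | succ k => exact ⟨_, fun i => (σ k).getD i 0, fun _ _ => rfl, rfl⟩)
    fun S s1 s2 s3 s4 => den e0 s2 s3 (Set.forall_mem_range.2 fun a ε hε =>
      co e2 e1 s1 s2 s3 a (fun l ε hε => by
        obtain ⟨k, hk⟩ := hσ ((List.range l).map a)
        have p : (0 : ℝ) < (1 / 2) ^ (k + 1) := by positivity
        obtain ⟨η, η0, h⟩ := s4 (k + 1) _ (mul_pos p hε)
        refine ⟨η, η0, fun u hu v hv => ?_⟩
        obtain ⟨_, ⟨b, b1, rfl⟩, b2⟩ := h u hu v hv _ ⟨a, fun i hi => by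
          simp only [hk, List.length_map, List.length_range] at hi
          simp [hk, hi], rfl⟩
        refine ⟨b, fun i hi => (b1 i (by simpa [hk] using hi)).trans (by simp [hk, hi]), ?_⟩
        simp only [map_smul, smul_eq_mul, abs_mul, abs_of_pos p, ← mul_sub] at b2
        exact lt_of_mul_lt_mul_left b2 p.le) hε))
  open Pool.Agent.H.MP_aafae6 in
  obtain ⟨N, n1, n2⟩ := far2 k1 k2 T c0 hT e (cs e2) one_pos
  open Pool.Agent.H.MP_aafae6 in
  obtain ⟨n, a, h⟩ := dia (fun n => N (σ n)) fun γ => by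
    obtain ⟨l, hl⟩ := n1 γ
    obtain ⟨n, rfl⟩ := hσ l
    exact ⟨n, hl⟩
  choose γ g1 g2 g3 using h
  obtain ⟨f, f1, f2⟩ := e3 n (Set.range γ) (by
    rintro _ ⟨i, rfl⟩ _ ⟨j, rfl⟩ k
    exact ⟨fun m hm => (g2 j m hm).trans (g2 i m hm).symm, fun d => k (by
      rw [g3, g3] at d
      rw [d])⟩)
  refine Set.infinite_range_of_injective (f := γ) (fun i j d => ?_) ((n2 f f1 (σ n)).subset ?_)
  · rw [← g3 i, d, g3]
  · rintro _ ⟨i, rfl⟩
    exact ⟨g1 i, by simp [f2]⟩

end Pool.Agent.S05764
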