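import Pool.Statements.S05776
import Pool.Agent.H.MP_ab96c2_an.C

set_option autoImplicit false
open Pool Pool.MP_ab96c2_an

namespace Pool.Agent.S05776

theorem result :
    ¬ (∀ (Ω : Set ℂ), IsOpen Ω → Bornology.IsBounded Ω → SimplyConnectedSpace Ω →
    ∀ (v : ℂ → ℝ), ContDiffOn ℝ 2 v Ω →
      (∀ z ∈ Ω, fderiv ℝ (fun w => fderiv ℝ v w (1 : ℂ)) z (1 : ℂ)
          + fderiv ℝ (fun w => fderiv ℝ v w Complex.I) z Complex.I = -2) →
      ContinuousOn v (closure Ω) →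
      (∀ z ∈ frontier Ω, v z = 0) →
      Set.encard {z : ℂ | z ∈ Ω ∧ fderiv ℝ v z = 0}
        ≤ 2 * ENat.card (ConnectedComponents
              {z : ℂ | z ∈ Ω ∧ IsLocalMax (fun w : ℂ => Metric.infDist w Ωᶜ) z}) - 1) := by
  intro h
  obtain ⟨v, h1, h2, h3, h4, h5⟩ := Agent.H.Tors.main
  have h6 := h _ Agent.H.Tors.Om_open Agent.H.Tors.Om_bdd Agent.H.Tors.Om_sc v h1 h2 h3 h4
  haveI := isPreconnected_iff_preconnectedSpace.1 Agent.H.Tors.S_pre
  have h7 : ENat.card (ConnectedComponents {z : ℂ | z ∈ Agent.H.Tors.Om ∧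
      IsLocalMax Agent.H.Tors.d z}) ≤ 1 := ENat.card_le_one_iff_subsingleton _ |>.2 inferInstance
  have h8 : (2 : ℕ∞) ≤ 2 * 1 - 1 := h5.trans (h6.trans (tsub_le_tsub_right (by gcongr; exact h7) 1))
  exact absurd h8 (by decide)

end Pool.Agent.S05776
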