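import Pool.Statements.S05779
-- import your own Pool.Agent.* helpers here

set_option autoImplicit false
open Pool Pool.MP_abc713_an

namespace Pool.Agent.S05779

open Set Filter Topology

abbrev E := ZeroAtInftyContinuousMap ℕ ℝ

lemma cocp : cocompact ℕ = atTop := by rw [cocompact_eq_cofinite, Nat.cofinite_eq_atTop]

def mk (f : ℕ → ℝ) (h : Tendsto f atTop (𝓝 0)) : E :=
  ⟨⟨f, continuous_of_discreteTopology⟩, by rwa [cocp]⟩

lemma mk_apply (f : ℕ → ℝ) (h : Tendsto f atTop (𝓝 0)) (n : ℕ) : mk f h n = f n := rfl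

lemma tends (x : E) : Tendsto x atTop (𝓝 0) := by
  have := x.zero_at_infty'
  rwa [cocp] at this

lemma ev_le (x : E) (a : ℕ) : |x a| ≤ ‖x‖ := by
  rw [← ZeroAtInftyContinuousMap.norm_toBCF_eq_norm]
  exact x.toBCF.norm_coe_le_norm a

lemma norm_le {x : E} {r : ℝ} (hr : 0 ≤ r) (h : ∀ a, |x a| ≤ r) : ‖x‖ ≤ r := by
  rw [← ZeroAtInftyContinuousMap.norm_toBCF_eq_norm]
  exact (BoundedContinuousFunction.norm_le hr).2 h

lemma w_le (x : E) (n : ℕ) : |((n : ℝ) + 2) / (n + 1) * x (n + 1)| ≤ 2 * |x (n + 1)| := by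
  rw [abs_mul, abs_of_nonneg (by positivity)]
  refine mul_le_mul_of_nonneg_right ?_ (abs_nonneg _)
  rw [div_le_iff₀ (by positivity)]
  have : (0 : ℝ) ≤ n := by positivity
  linarith

noncomputable def Tl : E →ₗ[ℝ] E where
  toFun x := mk (fun n => ((n : ℝ) + 2) / (n + 1) * x (n + 1)) (by
    refine squeeze_zero_norm (fun n => w_le x n) ?_
    have := (((tends x).comp (tendsto_add_atTop_nat 1)).abs).const_mul 2
    simpa using this)
  map_add' x y := by ext n; simp [mk_apply, mul_add]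
  map_smul' c x := by ext n; simp [mk_apply]; ring

noncomputable def TT : E →L[ℝ] E := Tl.mkContinuous 2 fun x =>
  norm_le (by positivity) fun n => (w_le x n).trans (by linarith [ev_le x (n + 1)])

lemma TT_pow (k : ℕ) (x : E) (m : ℕ) :
    (TT ^ k) x m = ((m : ℝ) + k + 1) / (m + 1) * x (m + k) := by
  induction k generalizing m with
  | zero => simp; field_simp
  | succ k ih =>
    have : (TT ^ (k + 1)) x = TT ((TT ^ k) x) := by rw [pow_succ']; rfl
    rw [this]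
    change ((m : ℝ) + 2) / (m + 1) * (TT ^ k) x (m + 1) = _
    rw [ih, show m + 1 + k = m + (k + 1) by ring]
    push_cast
    field_simp
    ring

abbrev I : Type := (Σ L : ℕ, (Fin L → ℕ)) × ℕ

noncomputable def tg (k : I) (m : ℕ) : ℝ :=
  if h : m < k.1.1 then TopologicalSpace.denseSeq ℝ (k.1.2 ⟨m, h⟩) else 0

noncomputable def MM (k : I) : ℝ := ∑ m ∈ Finset.range k.1.1, ((m : ℝ) + 1) * |tg k m|

lemma MM_nonneg (k : I) : 0 ≤ MM k := Finset.sum_nonneg fun _ _ => by positivity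

lemma tg_le (k : I) (m : ℕ) : ((m : ℝ) + 1) * |tg k m| ≤ MM k := by
  rcases Nat.lt_or_ge m k.1.1 with h | h
  · exact Finset.single_le_sum (f := fun m : ℕ => ((m : ℝ) + 1) * |tg k m|)
      (fun _ _ => by positivity) (Finset.mem_range.2 h)
  · rw [tg, dif_neg (not_lt.2 h), abs_zero, mul_zero]; exact MM_nonneg k

lemma ex_s (k : I) : ∃ s : ℕ, k.1.1 ≤ 2 ^ s ∧ MM k * (k.2 + 1) ≤ 2 ^ s := by
  obtain ⟨s, hs⟩ := pow_unbounded_of_one_lt (k.1.1 + MM k * (k.2 + 1)) (show (1 : ℝ) < 2 by norm_num)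
  have h1 : 0 ≤ MM k * (k.2 + 1) := mul_nonneg (MM_nonneg k) (by positivity)
  have h2 : (0 : ℝ) ≤ k.1.1 := by positivity
  refine ⟨s, ?_, by linarith⟩
  have : (k.1.1 : ℝ) ≤ 2 ^ s := by linarith
  exact_mod_cast this

noncomputable def ss (k : I) : ℕ := (ex_s k).choose

noncomputable def ty (i : ℕ) : ℕ := padicValNat 2 (Nat.log 2 i + 1)

open Classical in
noncomputable def pat (e : ℕ → I) (i : ℕ) : ℝ :=
  if MM (e (ty i / 2)) ^ 2 ≤ i then
    ((i % 2 ^ ss (e (ty i / 2)) : ℕ) + 1 : ℝ) * tg (e (ty i / 2)) (i % 2 ^ ss (e (ty i / 2))) / (i + 1)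
  else 0

lemma pat_tends (e : ℕ → I) : Tendsto (pat e) atTop (𝓝 0) := by
  rw [Metric.tendsto_atTop]
  intro ε hε
  obtain ⟨N, hN⟩ := exists_nat_gt (1 / ε ^ 2)
  refine ⟨N, fun i hi => ?_⟩
  rw [Real.dist_eq, sub_zero, pat]
  split_ifs with h
  · have h1 := tg_le (e (ty i / 2)) (i % 2 ^ ss (e (ty i / 2)))
    have h0 := MM_nonneg (e (ty i / 2))
    rw [abs_div, abs_mul, abs_of_nonneg (by positivity), abs_of_nonneg (a := (i : ℝ) + 1)
      (by positivity), div_lt_iff₀ (by positivity)]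
    refine lt_of_le_of_lt h1 (lt_of_pow_lt_pow_left₀ 2 (by positivity) (lt_of_le_of_lt h ?_))
    have h2 : (N : ℝ) ≤ i := by exact_mod_cast hi
    rw [div_lt_iff₀ (by positivity)] at hN
    have h3 : 1 ≤ ε ^ 2 * (i + 1) := by nlinarith [sq_nonneg ε]
    have h4 : (0 : ℝ) ≤ i := by positivity
    nlinarith
  · simpa using hε

lemma close (e : ℕ → I) (y : E) (t : ℕ) (hy : ∀ i, ty i = t → y i = pat e i) (u : E)
    (hu : ∀ m, u m = tg (e (t / 2)) m) {η : ℝ} (hη : 1 / (((e (t / 2)).2 : ℝ) + 1) ≤ η) :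
    ∃ J : ℕ, ∀ j, J ≤ j → padicValNat 2 (j + 1 + 1) = t → ∀ n, 2 ^ (j + 1) ≤ n →
      n < 2 ^ (j + 1) + 2 ^ j → 2 ^ ss (e (t / 2)) ∣ n → ‖(TT ^ n) y - u‖ ≤ η := by
  set k := e (t / 2) with hk
  have hη0 : 0 < η := lt_of_lt_of_le (by positivity) hη
  obtain ⟨s1, s2⟩ : k.1.1 ≤ 2 ^ ss k ∧ MM k * (k.2 + 1) ≤ 2 ^ ss k := (ex_s k).choose_spec
  obtain ⟨N1, hN1⟩ := Metric.tendsto_atTop.1 (tends y) (η / 4) (by positivity)
  obtain ⟨N2, hN2⟩ := exists_nat_ge (MM k ^ 2)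
  refine ⟨N1 + N2 + k.1.1, fun j hj ht n h1 h2 h3 => norm_le hη0.le fun m => ?_⟩
  have hj2 : j < 2 ^ j := Nat.lt_two_pow_self
  have p1 : 2 ^ (j + 1) = 2 * 2 ^ j := by ring
  have p2 : 2 ^ (j + 1 + 1) = 4 * 2 ^ j := by ring
  change |(TT ^ n) y m - u m| ≤ η
  rw [TT_pow, hu]
  rcases Nat.lt_or_ge (m + n) (2 ^ (j + 1 + 1)) with h | h
  · have e1 : ty (m + n) = t := by
      rw [ty, (Nat.log_eq_iff (Or.inl (Nat.succ_ne_zero j))).2 ⟨by omega, h⟩, ht]
    have e2 : MM k ^ 2 ≤ ((m + n : ℕ) : ℝ) := hN2.trans (by exact_mod_cast (by omega))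
    have e3 : (m + n) % 2 ^ ss k = m % 2 ^ ss k := by
      obtain ⟨c, rfl⟩ := h3
      exact Nat.add_mul_mod_self_left _ _ _
    rw [hy _ e1, pat, e1, ← hk, if_pos e2, e3]
    have e4 : ((m : ℝ) + n + 1) / (m + 1) * ((((m % 2 ^ ss k : ℕ) : ℝ) + 1) * tg k (m % 2 ^ ss k) /
        (((m + n : ℕ) : ℝ) + 1)) = (((m % 2 ^ ss k : ℕ) : ℝ) + 1) * tg k (m % 2 ^ ss k) / (m + 1) := by
      push_cast; field_simp
    rw [e4]
    rcases Nat.lt_or_ge m (2 ^ ss k) with h4 | h4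
    · rw [Nat.mod_eq_of_lt h4, mul_div_cancel_left₀ _ (by positivity), sub_self, abs_zero]
      exact hη0.le
    · rw [tg.eq_1 k m, dif_neg (by omega), sub_zero, abs_div, abs_mul,
        abs_of_nonneg (by positivity), abs_of_nonneg (a := (m : ℝ) + 1) (by positivity),
        div_le_iff₀ (by positivity)]
      refine (tg_le k _).trans ?_
      have f1 : ((2 : ℝ) ^ ss k) ≤ m := by exact_mod_cast h4
      rw [div_le_iff₀ (by positivity)] at hη
      have f2 : MM k * 1 ≤ MM k * (η * (k.2 + 1)) := mul_le_mul_of_nonneg_left hη (MM_nonneg k)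
      nlinarith
  · rw [tg, dif_neg (by omega), sub_zero, abs_mul, abs_of_nonneg (by positivity)]
    have f1 := (hN1 (m + n) (by omega)).le
    rw [Real.dist_eq, sub_zero] at f1
    have f2 : ((m : ℝ) + n + 1) / (m + 1) ≤ 4 := by
      rw [div_le_iff₀ (by positivity)]
      have : n ≤ 3 * m := by omega
      have : (n : ℝ) ≤ 3 * m := by exact_mod_cast this
      linarith
    nlinarith [mul_le_mul f2 f1 (abs_nonneg _) (by norm_num)]

lemma approx (e : ℕ → I) (he : Function.Surjective e) (U : Set E) (hU : IsOpen U)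
    (hne : U.Nonempty) : ∃ (a : ℕ) (u : E), (∀ m, u m = tg (e a) m) ∧
      ∀ v : E, ‖v - u‖ ≤ 1 / (((e a).2 : ℝ) + 1) → v ∈ U := by
  obtain ⟨x, hx⟩ := hne
  obtain ⟨ε, hε, hb⟩ := Metric.isOpen_iff.1 hU x hx
  obtain ⟨L, hL⟩ := Metric.tendsto_atTop.1 (tends x) (ε / 3) (by positivity)
  choose g hg using fun m : Fin L =>
    Metric.denseRange_iff.1 (TopologicalSpace.denseRange_denseSeq ℝ) (x m) (ε / 3) (by positivity)
  obtain ⟨r, hr⟩ := exists_nat_one_div_lt (show 0 < ε / 3 by positivity)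
  obtain ⟨a, ha⟩ := he (⟨L, g⟩, r)
  have h0 : Tendsto (tg (e a)) atTop (𝓝 0) := by
    refine tendsto_const_nhds.congr' ?_
    filter_upwards [eventually_ge_atTop (e a).1.1] with m hm
    rw [tg, dif_neg (not_lt.2 hm)]
  refine ⟨a, mk _ h0, fun _ => rfl, fun v hv => hb ?_⟩
  have h1 : ‖mk _ h0 - x‖ ≤ ε / 3 := norm_le (by positivity) fun m => by
    change |tg (e a) m - x m| ≤ _
    rw [ha, tg]
    split_ifs with h
    · rw [abs_sub_comm]; exact (hg ⟨m, h⟩).le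
    · have := (hL m (not_lt.1 h)).le
      rw [Real.dist_eq, sub_zero] at this
      rwa [zero_sub, abs_neg]
  rw [Metric.mem_ball, dist_eq_norm]
  have h2 := norm_sub_le_norm_sub_add_norm_sub v (mk _ h0) x
  have h3 : ((e a).2 : ℝ) = r := by rw [ha]
  rw [h3] at hv
  linarith

lemma fhc (e : ℕ → I) (he : Function.Surjective e) (w : ℕ) (hw : w < 2) (y : E)
    (hy : ∀ i, ty i % 2 = w → y i = pat e i) (U : Set E) (hU : IsOpen U) (hne : U.Nonempty) :
    ∃ δ : ℝ, 0 < δ ∧ ∀ᶠ N : ℕ in Filter.atTop,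
      δ * (N : ℝ) ≤ (({n : ℕ | n < N ∧ (TT ^ n) y ∈ U}.ncard : ℕ) : ℝ) := by
  obtain ⟨a, u, hu, hv⟩ := approx e he U hU hne
  have ha : (2 * a + w) / 2 = a := by omega
  obtain ⟨J, hJ⟩ := close e y (2 * a + w) (fun i hi => hy i (by omega)) u (by rwa [ha]) le_rfl
  rw [ha] at hJ
  set t := 2 * a + w with ht
  set s := ss (e a) with hs
  set p := 2 ^ t with hp
  have hp0 : 0 < p := by positivity
  refine ⟨1 / 2 ^ (s + 2 * p + 3), by positivity, ?_⟩
  filter_upwards [eventually_ge_atTop (2 ^ (J + s + 3 * p + 3))] with N hN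
  have hN0 : N ≠ 0 := by have : 0 < 2 ^ (J + s + 3 * p + 3) := by positivity
                         omega
  set l := Nat.log 2 N with hl
  have l1 : 2 ^ l ≤ N := Nat.pow_log_le_self 2 hN0
  have l2 : N < 2 ^ (l + 1) := Nat.lt_pow_succ_log_self (by norm_num) N
  have l3 : J + s + 3 * p + 3 ≤ l := Nat.le_log_of_pow_le (by norm_num) hN
  obtain ⟨j, j1, j2, j3⟩ : ∃ j, padicValNat 2 (j + 1 + 1) = t ∧ j + 2 ≤ l ∧ l < j + 2 + 2 * p := by
    have q1 := Nat.div_add_mod (l - p) (2 * p)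
    have q2 := Nat.mod_lt (l - p) (show 0 < 2 * p by omega)
    have q3 : 1 ≤ (l - p) / (2 * p) := (Nat.le_div_iff_mul_le (by omega)).2 (by omega)
    have q4 : 2 * p * 1 ≤ 2 * p * ((l - p) / (2 * p)) := Nat.mul_le_mul_left _ q3
    refine ⟨2 * p * ((l - p) / (2 * p)) + p - 2, ?_, by omega, by omega⟩
    have q5 : 2 * p * ((l - p) / (2 * p)) + p - 2 + 1 + 1 = 2 ^ t * (2 * ((l - p) / (2 * p)) + 1) := by
      rw [← hp]
      have : p * (2 * ((l - p) / (2 * p)) + 1) = 2 * p * ((l - p) / (2 * p)) + p := by ring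
      omega
    rw [q5, padicValNat.mul (by positivity) (by omega), padicValNat.prime_pow,
      padicValNat.eq_zero_of_not_dvd (by omega), add_zero]
  obtain ⟨d, hd⟩ : ∃ d, j = s + d := ⟨j - s, by omega⟩
  have hsub : ((Finset.range (2 ^ d)).image fun r => 2 ^ (j + 1) + 2 ^ s * r : Finset ℕ) ⊆
      (Finset.range N).filter fun n => ‖(TT ^ n) y - u‖ ≤ 1 / (((e a).2 : ℝ) + 1) := by
    intro n hn
    obtain ⟨r, hr, rfl⟩ := Finset.mem_image.1 hn
    rw [Finset.mem_range] at hr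
    have b1 : 2 ^ s * r < 2 ^ j := by
      rw [hd, pow_add]; exact Nat.mul_lt_mul_of_pos_left hr (by positivity)
    have b2 : 2 ^ (j + 2) ≤ 2 ^ l := Nat.pow_le_pow_right (by norm_num) j2
    have b3 : 2 ^ (j + 2) = 4 * 2 ^ j := by ring
    have b4 : 2 ^ (j + 1) = 2 * 2 ^ j := by ring
    refine Finset.mem_filter.2 ⟨Finset.mem_range.2 (by omega),
      hJ j (by omega) j1 _ (by omega) (by omega) ?_⟩
    exact dvd_add (pow_dvd_pow 2 (by omega)) (dvd_mul_right _ _)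
  have c1 := Finset.card_le_card hsub
  rw [Finset.card_image_of_injective _ fun r r' h =>
    Nat.eq_of_mul_eq_mul_left (by positivity) (Nat.add_left_cancel h), Finset.card_range] at c1
  have c2 : ((Finset.range N).filter
      fun n => ‖(TT ^ n) y - u‖ ≤ 1 / (((e a).2 : ℝ) + 1)).card ≤
      {n : ℕ | n < N ∧ (TT ^ n) y ∈ U}.ncard := by
    rw [← Set.ncard_coe_finset]
    refine Set.ncard_le_ncard (fun n hn => ?_) ((Set.finite_lt_nat N).subset fun n hn => hn.1)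
    simp only [Finset.coe_filter, Finset.mem_range, mem_ofPred_eq] at hn
    exact ⟨hn.1, hv _ hn.2⟩
  have c3 : N ≤ 2 ^ d * 2 ^ (s + 2 * p + 3) := by
    rw [← pow_add]
    exact l2.le.trans (Nat.pow_le_pow_right (by norm_num) (by omega))
  have c4 : (N : ℝ) ≤ 2 ^ d * 2 ^ (s + 2 * p + 3) := by exact_mod_cast c3
  have c5 : ((2 : ℝ) ^ d) ≤ (({n : ℕ | n < N ∧ (TT ^ n) y ∈ U}.ncard : ℕ) : ℝ) := by
    exact_mod_cast c1.trans c2
  rw [div_mul_eq_mul_div, one_mul, div_le_iff₀ (by positivity)]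
  exact c4.trans (mul_le_mul_of_nonneg_right c5 (by positivity))

lemma dense_tg : TopologicalSpace.SeparableSpace E := by
  obtain ⟨e, he⟩ := exists_surjective_nat I
  refine ⟨⟨{u | ∃ a, ∀ m, u m = tg (e a) m}, ?_, ?_⟩⟩
  · have : {u : E | ∃ a, ∀ m, u m = tg (e a) m} = ⋃ a, {u : E | ∀ m, u m = tg (e a) m} := by
      ext u; simp
    rw [this]
    refine countable_iUnion fun a => Set.Subsingleton.countable fun u hu v hv => ?_
    ext m; rw [hu m, hv m]
  · rw [dense_iff_inter_open]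
    intro U hU hne
    obtain ⟨a, u, hu, hv⟩ := approx e he U hU hne
    exact ⟨u, hv u (by rw [sub_self, norm_zero]; positivity), a, hu⟩

theorem result :
    ∃ (𝕜 : Type) (_ : RCLike 𝕜) (X : Type) (_ : NormedAddCommGroup X)
      (_ : NormedSpace 𝕜 X) (_ : CompleteSpace X)
      (_ : TopologicalSpace.SeparableSpace X) (_ : Nontrivial X)
      (T : X →L[𝕜] X),
      ∀ x : X, ∃ y z : X, x = y + z ∧
        (∀ U : Set X, IsOpen U → U.Nonempty →
          ∃ δ : ℝ, 0 < δ ∧ ∀ᶠ N : ℕ in Filter.atTop,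
            δ * (N : ℝ) ≤ (({n : ℕ | n < N ∧ (T ^ n) y ∈ U}.ncard : ℕ) : ℝ)) ∧
        (∀ U : Set X, IsOpen U → U.Nonempty →
          ∃ δ : ℝ, 0 < δ ∧ ∀ᶠ N : ℕ in Filter.atTop,
            δ * (N : ℝ) ≤ (({n : ℕ | n < N ∧ (T ^ n) z ∈ U}.ncard : ℕ) : ℝ)) := by
  obtain ⟨e, he⟩ := exists_surjective_nat I
  have hnt : Nontrivial E := by
    have h0 : Tendsto (fun n : ℕ => if n = 0 then (1 : ℝ) else 0) atTop (𝓝 0) := by
      refine tendsto_const_nhds.congr' ?_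
      filter_upwards [eventually_ge_atTop 1] with m hm
      rw [if_neg (by omega)]
    refine ⟨⟨mk _ h0, 0, fun h => ?_⟩⟩
    have := congrArg (fun x : E => x 0) h
    simp [mk_apply] at this
  refine ⟨ℝ, inferInstance, E, inferInstance, inferInstance, inferInstance, dense_tg, hnt, TT,
    fun x => ?_⟩
  have h1 : Tendsto (fun i => if ty i % 2 = 0 then pat e i else x i - pat e i) atTop (𝓝 0) := by
    refine Tendsto.if' (pat_tends e) ?_
    simpa using (tends x).sub (pat_tends e)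
  refine ⟨mk _ h1, x - mk _ h1, by abel, fhc e he 0 (by norm_num) _ fun i hi => ?_,
    fhc e he 1 (by norm_num) _ fun i hi => ?_⟩
  · rw [mk_apply, if_pos hi]
  · change x i - mk _ h1 i = _
    rw [mk_apply, if_neg (by omega)]; ring

end Pool.Agent.S05779
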