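import Pool.Statements.S05788
import Pool.Agent.H.MP_aca27d_an.D

set_option autoImplicit false
open Pool Pool.MP_aca27d_an

namespace Pool.Agent.S05788

theorem result :
    ¬ (∀ (E F : Type) [NormedAddCommGroup E] [NormedSpace ℝ E] [CompleteSpace E]
      [NormedAddCommGroup F] [NormedSpace ℝ F] [CompleteSpace F],
      ((¬ ∃ (T : E →L[ℝ] F) (C : ℝ), ∀ x : E, ‖x‖ ≤ C * ‖T x‖) ∧
       (¬ ∃ (T : F →L[ℝ] E) (C : ℝ), ∀ y : F, ‖y‖ ≤ C * ‖T y‖)) →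
      ((¬ ∃ (T : (E × E) →L[ℝ] (F × F)) (C : ℝ), ∀ x : E × E, ‖x‖ ≤ C * ‖T x‖) ∧
       (¬ ∃ (T : (F × F) →L[ℝ] (E × E)) (C : ℝ), ∀ y : F × F, ‖y‖ ≤ C * ‖T y‖))) := by
  intro h
  obtain ⟨x, hx, h1, h2⟩ := H.MP_aca27d_an.exists_family
  refine (h (H.MP_aca27d_an.Sp x H.MP_aca27d_an.SI) (H.MP_aca27d_an.Sp x H.MP_aca27d_an.SK)
    ⟨H.MP_aca27d_an.noembed hx (Set.countable_singleton _) ?_ h1,
      H.MP_aca27d_an.noembed hx (Set.countable_range _) ?_ h2⟩).1 (H.MP_aca27d_an.embed x)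
  · exact Submodule.subset_span
  · rintro _ ⟨i, rfl⟩
    exact ⟨_, rfl⟩

end Pool.Agent.S05788
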