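import Pool.Statements.S05789
import Pool.Agent.H.MP_acb846_an.B

set_option autoImplicit false
open Pool Pool.MP_acb846_an

namespace Pool.Agent.S05789

theorem result :
    ∃ T : lp (fun _ : ℚ => ℂ) 2 →L[ℂ] lp (fun _ : ℚ => ℂ) 2,
      ∀ M : Submodule ℂ (lp (fun _ : ℚ => ℂ) 2),
        (IsClosed (M : Set (lp (fun _ : ℚ => ℂ) 2)) ∧ ∀ x ∈ M, T x ∈ M) ↔
          (M = ⊥ ∨ M = ⊤ ∨
            ∃ t : ℝ,
              (∀ f : lp (fun _ : ℚ => ℂ) 2, f ∈ M ↔ ∀ q : ℚ, t < (q : ℝ) → f q = 0) ∨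
              (∀ f : lp (fun _ : ℚ => ℂ) 2, f ∈ M ↔ ∀ q : ℚ, t ≤ (q : ℝ) → f q = 0)) := by
  exact Pool.Agent.H.MP_acb846_an.mainQ

end Pool.Agent.S05789
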