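import Pool.Statements.S05794
import Pool.Agent.H.MP_ad3787_an.D

set_option autoImplicit false
open Pool Pool.MP_ad3787_an

namespace Pool.Agent.S05794

open Pool.Agent.H.MP_ad3787_an Polynomial Finset

abbrev J (N : ℕ) : Type := {α : Fin 1 → ℕ // α ∈ Finset.filter (fun α : Fin 1 → ℕ => ∑ i, α i ≤ N)
  (Fintype.piFinset fun _ : Fin 1 => Finset.range (N + 1))}

noncomputable def VM {N : ℕ} (y : J N → Fin 1 → ℂ) : Matrix (J N) (J N) ℂ :=
  Matrix.of fun a b => ∏ i, y a i ^ (b.1 i)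

lemma J_le {N : ℕ} (b : J N) : b.1 0 ≤ N := by
  simpa using (mem_filter.1 b.2).2

def eqv (N : ℕ) : J N ≃ Fin (N + 1) where
  toFun b := ⟨b.1 0, Nat.lt_succ_of_le (J_le b)⟩
  invFun j := ⟨fun _ => j, by simp [Nat.lt_succ_iff.1 j.2]⟩
  left_inv b := by ext i; simp [Subsingleton.elim i 0]
  right_inv j := rfl

lemma card_J (N : ℕ) : Fintype.card (J N) = N + 1 := by simpa using Fintype.card_congr (eqv N)

lemma det_ne {N : ℕ} (v : Fin (N + 1) → ℂ) (hv : Function.Injective v) :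
    (VM fun (a : J N) (_ : Fin 1) => v (eqv N a)).det ≠ 0 := by
  have : (VM fun (a : J N) (_ : Fin 1) => v (eqv N a)) =
      (Matrix.vandermonde v).submatrix (eqv N) (eqv N) := by
    ext a b; simp [VM, eqv]
  rw [this, Matrix.det_submatrix_equiv_self]
  exact Matrix.det_vandermonde_ne_zero_iff.2 hv

lemma lagrange {N : ℕ} {K : Set (Fin 1 → ℂ)} {x : J N → Fin 1 → ℂ} (hx : ∀ a, x a ∈ K)
    (hm : ∀ y : J N → Fin 1 → ℂ, (∀ a, y a ∈ K) → ‖(VM y).det‖ ≤ ‖(VM x).det‖) (h0 : (VM x).det ≠ 0)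
    (b : J N) : ∃ l : ℂ[X], l.natDegree ≤ N ∧ l.eval (x b 0) = 1 ∧ (∀ b', b' ≠ b → l.eval (x b' 0) = 0) ∧
      ∀ y ∈ K, ‖l.eval (y 0)‖ ≤ 1 := by
  let l : ℂ[X] := ∑ j : J N, monomial (j.1 0) ((VM x).adjugate j b / (VM x).det)
  have ev : ∀ y : Fin 1 → ℂ, l.eval (y 0) = (VM (Function.update x b y)).det / (VM x).det := fun y => by
    have : VM (Function.update x b y) = (VM x).updateRow b fun j => ∏ i, y i ^ (j.1 i) := by
      ext a' j
      by_cases h : a' = b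
      · subst h; simp [VM]
      · simp [VM, h]
    rw [this, ← Matrix.cramer_transpose_apply, Matrix.cramer_eq_adjugate_mulVec,
      ← Matrix.adjugate_transpose]
    simp [l, Matrix.mulVec, dotProduct, eval_finsetSum, sum_div, div_mul_eq_mul_div]
  refine ⟨l, natDegree_sum_le_of_forall_le _ _ fun j _ => (natDegree_monomial_le _).trans (J_le j),
    ?_, fun b' hb => ?_, fun y hy => ?_⟩
  · rw [ev, Function.update_eq_self, div_self h0]
  · rw [ev, Matrix.det_zero_of_row_eq hb, zero_div]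
    funext j
    simp [VM, hb]
  · rw [ev, norm_div, div_le_one (norm_pos_iff.2 h0)]
    refine hm _ fun a => ?_
    by_cases h : a = b
    · subst h; simpa using hy
    · simpa [h] using hx a

theorem result :
    ¬ (∀ (d : ℕ) (K : Set (Fin d → ℂ)), IsCompact K →
      (∃ Φ : (Fin d → ℂ) → ℝ, Continuous Φ ∧ ∀ z : Fin d → ℂ,
        IsLUB {t : ℝ | t = 1 ∨ ∃ p : MvPolynomial (Fin d) ℂ, 1 ≤ p.totalDegree ∧
          (∀ x ∈ K, ‖MvPolynomial.eval x p‖ ≤ 1) ∧
          t = ‖MvPolynomial.eval z p‖ ^ ((1 : ℝ) / (p.totalDegree : ℝ))} (Φ z)) →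
      ∃ c : ℝ, 1 < c ∧
        ∀ F : (N : ℕ) → {α : Fin d → ℕ // α ∈ Finset.filter (fun α : Fin d → ℕ => ∑ i, α i ≤ N)
              (Fintype.piFinset fun _ : Fin d => Finset.range (N + 1))} → (Fin d → ℂ),
          (∀ N : ℕ, (∀ a, F N a ∈ K) ∧
            ∀ y : {α : Fin d → ℕ // α ∈ Finset.filter (fun α : Fin d → ℕ => ∑ i, α i ≤ N)
              (Fintype.piFinset fun _ : Fin d => Finset.range (N + 1))} → (Fin d → ℂ),
              (∀ a, y a ∈ K) →
              ‖(Matrix.of (fun a b : {α : Fin d → ℕ // α ∈ Finset.filter (fun α : Fin d → ℕ => ∑ i, α i ≤ N)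
                  (Fintype.piFinset fun _ : Fin d => Finset.range (N + 1))} =>
                  ∏ i, y a i ^ (b.1 i))).det‖ ≤
              ‖(Matrix.of (fun a b : {α : Fin d → ℕ // α ∈ Finset.filter (fun α : Fin d → ℕ => ∑ i, α i ≤ N)
                  (Fintype.piFinset fun _ : Fin d => Finset.range (N + 1))} =>
                  ∏ i, F N a i ^ (b.1 i))).det‖) →
          ∃ C : ℝ, ∀ n : ℕ, ∀ p : MvPolynomial (Fin d) ℂ, p.totalDegree ≤ n →
            (∀ a, ‖MvPolynomial.eval (F ⌈c * (n : ℝ)⌉₊ a) p‖ ≤ 1) →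
            ∀ z ∈ K, ‖MvPolynomial.eval z p‖ ≤ C) := by
  intro H
  obtain ⟨F, hF⟩ := seq
  have rt : ∀ k, ∃ z, (F k).eval z = 0 := fun k =>
    Complex.exists_root (natDegree_pos_iff_degree_pos.1 (hF k).1.1)
  obtain ⟨z0, hz0⟩ := rt 0
  have hK : IsCompact {z : Fin 1 → ℂ | z 0 ∈ KK F} := by
    have := isCompact_univ_pi fun _ : Fin 1 => KK_cpt hF
    convert this using 1
    ext z; simp [Fin.forall_fin_one]
  obtain ⟨c, c1, hc⟩ := H 1 {z : Fin 1 → ℂ | z 0 ∈ KK F} hK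
    (regular (KK_cpt hF) ⟨z0, root_mem hF hz0⟩ fun ε e0 => loc1 hF e0)
  have fek : ∀ N : ℕ, ∃ x : J N → Fin 1 → ℂ, (∀ a, x a ∈ {z : Fin 1 → ℂ | z 0 ∈ KK F}) ∧
      ∀ y : J N → Fin 1 → ℂ, (∀ a, y a ∈ {z : Fin 1 → ℂ | z 0 ∈ KK F}) →
        ‖(VM y).det‖ ≤ ‖(VM x).det‖ := fun N => by
    obtain ⟨x, hx, hm⟩ := (isCompact_univ_pi fun _ : J N => hK).exists_isMaxOn
      (f := fun y => ‖(VM y).det‖) ⟨fun _ _ => z0, fun _ _ => root_mem hF hz0⟩
      (Continuous.matrix_det (continuous_matrix fun a b => by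
        simp only [VM, Matrix.of_apply]; fun_prop)).norm.continuousOn
    exact ⟨x, fun a => hx a trivial, fun y hy => hm fun a _ => hy a⟩
  choose x hx hm using fek
  obtain ⟨C, hC⟩ := hc x fun N => ⟨hx N, hm N⟩
  obtain ⟨k, hk⟩ := exists_nat_gt (max c C)
  have k1 : c < k := (le_max_left _ _).trans_lt hk
  have k2 : C < k := (le_max_right _ _).trans_lt hk
  obtain ⟨M, p, M1, M2, hp, hM⟩ := (hF k).2.2.2.2
  have c0 : 0 < c := by linarith
  obtain ⟨n, hn⟩ : ∃ n, n = ⌊(M : ℝ) / c⌋₊ := ⟨_, rfl⟩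
  have n1 : c * n ≤ M := by
    rw [hn, ← le_div_iff₀' c0]; exact Nat.floor_le (by positivity)
  have n2 : (M : ℝ) < c * (n + 1) := by
    rw [hn, ← div_lt_iff₀' c0]; exact Nat.lt_floor_add_one _
  have n3 : p.natDegree ≤ n := by
    rw [hn]
    refine Nat.le_floor ?_
    rw [le_div_iff₀' c0]
    have : (k : ℝ) * p.natDegree ≤ M := by exact_mod_cast M2
    exact (mul_le_mul_of_nonneg_right k1.le (by positivity)).trans this
  have m1 : ⌈c * n⌉₊ ≤ M := Nat.ceil_le.2 n1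
  have m2 : M ≤ ⌈c * n⌉₊ + k := by
    have := Nat.le_ceil (c * n)
    have : (M : ℝ) ≤ ⌈c * n⌉₊ + k := by linarith
    exact_mod_cast this
  generalize hm' : ⌈c * n⌉₊ = m at m1 m2
  have G0 : F (k + 1) ≠ 0 := fun e => by rw [e] at M1; simp at M1
  have d0 : (VM (x m)).det ≠ 0 := by
    have cd := (card_roots G0 fun e he => (hF (k + 1)).1.2 e (by simp [he])).2
    obtain ⟨S, hS, cS⟩ := exists_subset_card_eq (s := (F (k + 1)).roots.toFinset) (n := m + 1) (by omega)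
    let v := (S.equivFinOfCardEq cS).symm
    have := det_ne (fun j => (v j : ℂ)) (Subtype.val_injective.comp v.injective)
    refine norm_pos_iff.1 ((norm_pos_iff.2 this).trans_le (hm m _ fun a => ?_))
    have := hS (v (eqv m a)).2
    rw [Multiset.mem_toFinset, mem_roots G0] at this
    exact root_mem hF this
  have key := hM m m2 m1 (J m) (fun a => x m a 0) (card_J m)
    (fun a => Set.mem_iInter.1 (hx m a) (k + 1)) fun b => by
      obtain ⟨l, l1, l2, l3, l4⟩ := lagrange (hx m) (hm m) d0 b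
      exact ⟨l, l1, l2, l3, fun e he => l4 (fun _ => e) (root_mem hF he)⟩
  obtain ⟨z, hz⟩ := rt k
  have := hC n (up p) ((up_deg p).trans n3) (by
    subst hm'
    intro a
    rw [up_eval]; exact key a) (fun _ => z) (root_mem hF hz)
  rw [up_eval] at this
  have h2 := hp z hz
  have h3 : (k : ℝ) < 2 ^ k := by exact_mod_cast k.lt_two_pow_self
  linarith

end Pool.Agent.S05794
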