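import Pool.Statements.S05808
import Pool.Agent.H.MP_ae5379_an.A

set_option autoImplicit false
open Pool Pool.MP_ae5379_an

namespace Pool.Agent.S05808

/-- The negation of the preceding statement: For every real or complex Banach space with numerical index 1 (every operator numerical radius equals its norm), every extreme point f of the dual unit ball and every extreme point x of the unit ball satisfy ∣f(x)∣ = 1. -/
theorem result :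
    ¬ (∀ (𝕜 : Type) [RCLike 𝕜] (X : Type) [NormedAddCommGroup X] [NormedSpace 𝕜 X] [CompleteSpace X],
    (∀ T : X →L[𝕜] X, ∀ ε : ℝ, 0 < ε →
      ∃ (x : X) (f : X →L[𝕜] 𝕜), ‖x‖ = 1 ∧ ‖f‖ = 1 ∧ f x = 1 ∧ ‖T‖ - ε < ‖f (T x)‖) →
    ∀ (f : X →L[𝕜] 𝕜) (x : X),
      (‖f‖ ≤ 1 ∧ ∀ g : X →L[𝕜] 𝕜, ‖f + g‖ ≤ 1 → ‖f - g‖ ≤ 1 → g = 0) →
      (‖x‖ ≤ 1 ∧ ∀ y : X, ‖x + y‖ ≤ 1 → ‖x - y‖ ≤ 1 → y = 0) →
      ‖f x‖ = 1) := by
  intro h
  have h1 := h ℝ H.MP_ae5379_an.X H.MP_ae5379_an.index_one (H.MP_ae5379_an.ev (0, √2))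
    H.MP_ae5379_an.x0
    ⟨H.MP_ae5379_an.ev_norm _, H.MP_ae5379_an.ev_ext _ irrational_sqrt_two⟩
    ⟨H.MP_ae5379_an.x0_norm, H.MP_ae5379_an.x0_ext⟩
  rw [H.MP_ae5379_an.ev_apply, H.MP_ae5379_an.x0_apply] at h1
  simp at h1

end Pool.Agent.S05808
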