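import Pool.Statements.S05817
-- import your own Pool.Agent.* helpers here
import Pool.Agent.H.MP_af15e5_an.C

set_option autoImplicit false
open Pool Pool.MP_af15e5_an

namespace Pool.Agent.S05817

theorem result :
    ∀ α β : ℝ, 1 ≤ α → 1 ≤ β →
    ∀ φ : ℂ → ℂ, DifferentiableOn ℂ φ (Metric.ball (0 : ℂ) 1) →
    (∀ x : ℂ, ‖x‖ = 1 → ∀ z : ℂ, ‖z‖ < 1 →
      (∑' n : ℕ, (iteratedDeriv n φ 0 / (n.factorial : ℂ)) *
        (iteratedDeriv n (fun w : ℂ => (1 + x * w) ^ (α : ℂ) * (1 - w) ^ (-(β : ℂ))) 0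
          / (n.factorial : ℂ)) * z ^ n) ≠ 0) →
    (∀ x : ℂ, ‖x‖ = 1 → ∀ z : ℂ, ‖z‖ < 1 →
      (∑' n : ℕ, (iteratedDeriv n φ 0 / (n.factorial : ℂ)) *
        (iteratedDeriv n (fun w : ℂ => (1 + x * w) ^ ((α : ℂ) - 1) * (1 - w) ^ (-(β : ℂ))) 0
          / (n.factorial : ℂ)) * z ^ n) ≠ 0) := by
  intro α β hα hβ φ hφ H x hx z hz
  exact Pool.Agent.H.MP_af15e5_an.final α β hα hβ φ hφ H x hx z hz

end Pool.Agent.S05817
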