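import Pool.Statements.S05845
import Pool.Agent.H.MP_b07b06_an.Main

set_option autoImplicit false
open Pool Pool.MP_b07b06_an

namespace Pool.Agent.S05845

open Pool.Agent.H.MP_b07b06_an in
theorem result :
    ∃ (d n : ℕ) (f : Fin n → EuclideanSpace ℝ (Fin d) → EuclideanSpace ℝ (Fin d))
      (K : Set (EuclideanSpace ℝ (Fin d))),
      (∀ i, Differentiable ℝ (f i)) ∧
      (∀ i, ∃ c : NNReal, ContractingWith c (f i)) ∧
      K.Nonempty ∧ IsCompact K ∧ K = ⋃ i, f i '' K ∧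
      ¬ ∃ L : ℝ, Filter.Tendsto
        (fun δ : ℝ =>
          Real.log ((sInf {m : ℕ | ∃ s : Finset (EuclideanSpace ℝ (Fin d)),
              s.card = m ∧ K ⊆ ⋃ x ∈ s, Metric.closedBall x δ} : ℕ) : ℝ)
            / (-Real.log δ))
        (nhdsWithin 0 (Set.Ioi 0)) (nhds L) := by
  obtain ⟨L, hL⟩ := beta_bound
  obtain ⟨n1, hn1⟩ := pow_unbounded_of_one_lt (4 * L) (by norm_num : (1 : ℝ) < 16)
  have hn : 4 * L ≤ 16 ^ (n1 + 2) :=
    le_trans hn1.le (pow_le_pow_right₀ (by norm_num) (by omega))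
  obtain ⟨b, hb⟩ := exists_b (n1 + 2) (by omega)
  let e : ℝ ≃ₗᵢ[ℝ] EuclideanSpace ℝ (Fin 1) := (OrthonormalBasis.singleton (Fin 1) ℝ).repr
  have hd : ∀ i, Differentiable ℝ (ff b i) := fun i x =>
    (hb.ff_deriv hL hn i x).choose_spec.1.differentiableAt
  refine ⟨1, 3, fun i => e ∘ ff b i ∘ e.symm, e '' KK b, fun i => ?_, fun i => ?_, ?_, ?_, ?_,
    hb.no_limit e⟩
  · exact e.toContinuousLinearEquiv.differentiable.comp
      ((hd i).comp e.symm.toContinuousLinearEquiv.differentiable)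
  · refine ⟨3 / 4, by norm_num, ?_⟩
    have h1 : LipschitzWith (3 / 4) (ff b i) := by
      refine lipschitzWith_of_nnnorm_deriv_le (hd i) fun x => ?_
      obtain ⟨d, h1, h2⟩ := hb.ff_deriv hL hn i x
      rw [h1.deriv, ← NNReal.coe_le_coe]
      simpa using h2
    simpa using e.lipschitz.comp (h1.comp e.symm.lipschitz)
  · exact ⟨e 0, 0, Or.inl rfl, rfl⟩
  · exact hb.KK_compact.image e.continuous
  · conv_lhs => rw [hb.KK_eq]
    rw [Set.image_iUnion]
    refine Set.iUnion_congr fun i => ?_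
    simp only [Set.image_image, Function.comp, e.symm_apply_apply]

end Pool.Agent.S05845
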