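import Pool.Statements.S05873
import Pool.Agent.H.MP_b405c8_an.B

set_option autoImplicit false
open Pool Pool.MP_b405c8_an

namespace Pool.Agent.S05873

/-- In a unital C*-algebra, if some operation makes the positive invertible elements a commutative group whose translations preserve the usual order, then the algebra's own multiplication is commutative. -/
theorem result :
    ∀ (A : Type) [CStarAlgebra A] [PartialOrder A] [StarOrderedRing A],
    ∀ (op : A → A → A),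
      (∀ a b : A, (0 ≤ a ∧ IsUnit a) → (0 ≤ b ∧ IsUnit b) →
          (0 ≤ op a b ∧ IsUnit (op a b))) →
      (∀ a b c : A, (0 ≤ a ∧ IsUnit a) → (0 ≤ b ∧ IsUnit b) → (0 ≤ c ∧ IsUnit c) →
          op (op a b) c = op a (op b c)) →
      (∀ a b : A, (0 ≤ a ∧ IsUnit a) → (0 ≤ b ∧ IsUnit b) → op a b = op b a) →
      (∃ e : A, (0 ≤ e ∧ IsUnit e) ∧
          (∀ a : A, (0 ≤ a ∧ IsUnit a) → op e a = a) ∧
          (∀ a : A, (0 ≤ a ∧ IsUnit a) → ∃ b : A, (0 ≤ b ∧ IsUnit b) ∧ op a b = e)) →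
      (∀ a b c : A, (0 ≤ a ∧ IsUnit a) → (0 ≤ b ∧ IsUnit b) → (0 ≤ c ∧ IsUnit c) →
          a ≤ b → op a c ≤ op b c) →
      ∀ x y : A, x * y = y * x := by
  intro A _ _ _ op h1 h2 h3 ⟨e, he, h4, h5⟩ h6
  classical
  let op' : selfAdjoint A → selfAdjoint A → selfAdjoint A := fun a b =>
    if h : IsSelfAdjoint (op a b) then ⟨op a b, h⟩ else 0
  have co : ∀ a b : selfAdjoint A, H.MP_b405c8_an.P 1 a → H.MP_b405c8_an.P 1 b →
      (op' a b : A) = op a b := by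
    intro a b ha hb
    have := h1 a b ((H.MP_b405c8_an.P_iff a).1 ha) ((H.MP_b405c8_an.P_iff b).1 hb)
    simp only [op', dif_pos (IsSelfAdjoint.of_nonneg this.1)]
  have cl : ∀ a b : selfAdjoint A, H.MP_b405c8_an.P 1 a → H.MP_b405c8_an.P 1 b →
      H.MP_b405c8_an.P 1 (op' a b) := by
    intro a b ha hb
    rw [H.MP_b405c8_an.P_iff, co a b ha hb]
    exact h1 a b ((H.MP_b405c8_an.P_iff a).1 ha) ((H.MP_b405c8_an.P_iff b).1 hb)
  have he' : H.MP_b405c8_an.P 1 (⟨e, IsSelfAdjoint.of_nonneg he.1⟩ : selfAdjoint A) :=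
    (H.MP_b405c8_an.P_iff _).2 he
  refine H.MP_b405c8_an.all_comm (op := op') (e := ⟨e, IsSelfAdjoint.of_nonneg he.1⟩)
    ⟨cl, fun a b c ha hb hc => Subtype.ext ?_, fun a b ha hb => Subtype.ext ?_, he',
      fun a ha => Subtype.ext ?_, fun a ha => ?_, fun a b c ha hb hc hab => ?_⟩
  · rw [co _ _ (cl _ _ ha hb) hc, co _ _ ha hb, co _ _ ha (cl _ _ hb hc), co _ _ hb hc]
    exact h2 _ _ _ ((H.MP_b405c8_an.P_iff a).1 ha) ((H.MP_b405c8_an.P_iff b).1 hb)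
      ((H.MP_b405c8_an.P_iff c).1 hc)
  · rw [co _ _ ha hb, co _ _ hb ha]
    exact h3 _ _ ((H.MP_b405c8_an.P_iff a).1 ha) ((H.MP_b405c8_an.P_iff b).1 hb)
  · rw [co _ _ he' ha]
    exact h4 _ ((H.MP_b405c8_an.P_iff a).1 ha)
  · obtain ⟨b, hb, hab⟩ := h5 _ ((H.MP_b405c8_an.P_iff a).1 ha)
    have hb' : H.MP_b405c8_an.P 1 (⟨b, IsSelfAdjoint.of_nonneg hb.1⟩ : selfAdjoint A) :=
      (H.MP_b405c8_an.P_iff _).2 hb
    exact ⟨_, hb', Subtype.ext (by rw [co _ _ ha hb']; exact hab)⟩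
  · change (op' a c : A) ≤ op' b c
    rw [co _ _ ha hc, co _ _ hb hc]
    exact h6 _ _ _ ((H.MP_b405c8_an.P_iff a).1 ha) ((H.MP_b405c8_an.P_iff b).1 hb)
      ((H.MP_b405c8_an.P_iff c).1 hc) hab

end Pool.Agent.S05873
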