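import Pool.Statements.S05892
import Pool.Agent.H.MP_b6a3e4_an.C

set_option autoImplicit false
open scoped NNReal ENNReal
open Pool Pool.MP_b6a3e4_an

namespace Pool.Agent.S05892

theorem result :
    ¬ (∀ (X : Type) [AddCommGroup X] [Module ℂ X] [UniformSpace X] [IsUniformAddGroup X]
    [ContinuousSMul ℂ X] [LocallyConvexSpace ℝ X] [TopologicalSpace.MetrizableSpace X]
    [CompleteSpace X] [TopologicalSpace.SeparableSpace X]
    (T : X →L[ℂ] X) (a : ℝ≥0) (b : ℝ≥0∞), (a : ℝ≥0∞) < b →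
    (∀ α : ℝ≥0, a < α → (α : ℝ≥0∞) < b →
      Dense ((Submodule.span ℂ {x : X | ∃ z : ℂ, ‖z‖₊ < α ∧ T x = z • x}) : Set X) ∧
      Dense ((Submodule.span ℂ {x : X | ∃ z : ℂ, α < ‖z‖₊ ∧ T x = z • x}) : Set X)) →
    ∃ x : X, ∀ z : ℂ, (a : ℝ≥0∞) * (‖z‖₊ : ℝ≥0∞) < 1 → 1 < b * (‖z‖₊ : ℝ≥0∞) →
      Dense (Set.range (fun n : ℕ => ((z • T) ^ n) x))) := by
  intro h
  obtain ⟨X, _, _, T, _, _, h1, h2⟩ := Pool.Agent.H.MP_b6a3e4_an.main
  obtain ⟨x, hx⟩ := h X T 2 8 (by norm_num) fun α a1 a2 =>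
    ⟨h1 (· < α) (Or.inl fun r hr => hr.trans_lt (by exact_mod_cast a1)),
      h1 (α < ·) (Or.inr fun r hr => lt_of_lt_of_le (by exact_mod_cast a2) hr)⟩
  obtain ⟨r, hr, h3⟩ := h2 x
  have r0 : 0 < r := by linarith [hr.1]
  refine h3 (hx _ ?_ ?_)
  · norm_cast
    rw [← NNReal.coe_lt_coe]
    simp only [NNReal.coe_mul, coe_nnnorm, Complex.norm_real, norm_inv, Real.norm_of_nonneg r0.le]
    rw [← div_eq_mul_inv, div_lt_iff₀ r0]
    norm_num
    linarith [hr.1]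
  · norm_cast
    rw [← NNReal.coe_lt_coe]
    simp only [NNReal.coe_mul, coe_nnnorm, Complex.norm_real, norm_inv, Real.norm_of_nonneg r0.le]
    rw [← div_eq_mul_inv, lt_div_iff₀ r0]
    norm_num
    linarith [hr.2]

end Pool.Agent.S05892
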