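import Pool.Statements.S05908
import Pool.Agent.H.MP_b7ec12_an.A
import Pool.Agent.H.MP_b7ec12_an.B
import Pool.Agent.H.MP_b7ec12_an.C

set_option autoImplicit false
open MeasureTheory
open Pool Pool.MP_b7ec12_an

namespace Pool.Agent.S05908

open Pool.Agent.H.MP_b7ec12_an Set Filter Topology

theorem result :
    ¬ (∀ (T : ℝ), 0 < T →
  ∀ (b X f ft : ℝ → (Fin 2 → ℝ) → (Fin 2 → ℝ)) (Df : ℝ → (Fin 2 → ℝ) → Fin 2 → (Fin 2 → ℝ)),
  Measurable (Function.uncurry b) →
  (∀ (t : ℝ) (x : Fin 2 → ℝ) (k : Fin 2 → ℤ), b t (x + (fun i => (k i : ℝ))) = b t x) →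
  Measurable (Function.uncurry X) →
  (∀ᵐ x ∂(volume.restrict (Set.pi Set.univ fun _ : Fin 2 => Set.Ico (0:ℝ) 1)),
     X 0 x = x ∧ IntegrableOn (fun t => b t (X t x)) (Set.Icc 0 T) ∧
     ∀ t ∈ Set.Icc (0:ℝ) T, X t x = x + ∫ s in (0:ℝ)..t, b s (X s x)) →
  (∀ t ∈ Set.Icc (0:ℝ) T,
     Measure.map (fun x i => Int.fract (X t x i))
       (volume.restrict (Set.pi Set.univ fun _ : Fin 2 => Set.Ico (0:ℝ) 1))
     = volume.restrict (Set.pi Set.univ fun _ : Fin 2 => Set.Ico (0:ℝ) 1)) →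
  ContinuousOn (Function.uncurry f) (Set.Icc (0:ℝ) T ×ˢ (Set.univ : Set (Fin 2 → ℝ))) →
  (∀ (t : ℝ) (x : Fin 2 → ℝ) (k : Fin 2 → ℤ), f t (x + (fun i => (k i : ℝ))) = f t x) →
  Measurable (Function.uncurry ft) →
  Measurable (Function.uncurry Df) →
  (∀ R : ℝ,
     IntegrableOn (Function.uncurry ft) (Set.Ioo (0:ℝ) T ×ˢ Metric.closedBall (0 : Fin 2 → ℝ) R) ∧
     IntegrableOn (Function.uncurry Df) (Set.Ioo (0:ℝ) T ×ˢ Metric.closedBall (0 : Fin 2 → ℝ) R)) →
  (∀ φ : ℝ × (Fin 2 → ℝ) → ℝ, ContDiff ℝ 1 φ → HasCompactSupport φ →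
     tsupport φ ⊆ Set.Ioo (0:ℝ) T ×ˢ (Set.univ : Set (Fin 2 → ℝ)) →
     ((∫ p, fderiv ℝ φ p ((1:ℝ), (0 : Fin 2 → ℝ)) • f p.1 p.2)
        = - ∫ p, φ p • ft p.1 p.2) ∧
     ∀ j : Fin 2,
       (∫ p, fderiv ℝ φ p ((0:ℝ), (Pi.single j (1:ℝ) : Fin 2 → ℝ)) • f p.1 p.2)
         = - ∫ p, φ p • Df p.1 p.2 j) →
  (∀ᵐ x ∂(volume.restrict (Set.pi Set.univ fun _ : Fin 2 => Set.Ico (0:ℝ) 1)),
     IntegrableOn (fun t => ft t (X t x) + ∑ j : Fin 2, b t (X t x) j • Df t (X t x) j)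
       (Set.Ioo (0:ℝ) T)) →
  ∀ᵐ x ∂(volume.restrict (Set.pi Set.univ fun _ : Fin 2 => Set.Ico (0:ℝ) 1)),
     ∃ h : ℝ → (Fin 2 → ℝ), IntegrableOn h (Set.Icc (0:ℝ) T) ∧
       ∀ t ∈ Set.Icc (0:ℝ) T, f t (X t x) = f 0 (X 0 x) + ∫ s in (0:ℝ)..t, h s) := by
  intro H
  obtain ⟨c, h, cc, cm, cp, hl, hp, h0, h1, hz, hc⟩ := cant
  obtain ⟨ρ, ρ', ρd, ρc', ρb, ρp, ρ0, ρ1, ρs, ρz⟩ := rho
  have ρc : Continuous ρ := continuous_iff_continuousAt.2 fun y => (ρd y).continuousAt
  have hcont := hl.continuous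
  obtain ⟨S, hS, S0, S1⟩ := tau hcont hp h0 hz
  have hσ : 0 < S 1 := S0 ▸ S.strictMono one_pos
  let b : ℝ → (Fin 2 → ℝ) → (Fin 2 → ℝ) := fun _ p =>
    if |Int.fract (p 1) - 1 / 2| < h (p 0) then
      ![1 / h (p 0), (Int.fract (p 1) - 1 / 2) / h (p 0) * (deriv h (p 0) / h (p 0))] else 0
  let X : ℝ → (Fin 2 → ℝ) → (Fin 2 → ℝ) := fun t p =>
    ![(fl h S t (p 0, p 1)).1, (fl h S t (p 0, p 1)).2]
  let f : ℝ → (Fin 2 → ℝ) → (Fin 2 → ℝ) := fun _ p _ => avg c ρ (p 0) (p 1) - p 0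
  let Df : ℝ → (Fin 2 → ℝ) → Fin 2 → (Fin 2 → ℝ) := fun _ p j _ =>
    ![dx c ρ (p 0) (p 1) - 1, dy c ρ ρ' (p 0) (p 1)] j
  have Dm : MeasurableSet (Set.pi Set.univ fun _ : Fin 2 => Set.Ico (0 : ℝ) 1) :=
    MeasurableSet.univ_pi fun _ => measurableSet_Ico
  have Xout : ∀ p : Fin 2 → ℝ, ¬ |p 1 - 1 / 2| < h (p 0) → ∀ t, X t p = p := fun p g t => by
    simp only [X, fl, if_neg g]
    ext i; fin_cases i <;> rfl
  have bout : ∀ p ∈ Set.pi Set.univ fun _ : Fin 2 => Set.Ico (0 : ℝ) 1,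
      ¬ |p 1 - 1 / 2| < h (p 0) → ∀ t, b t p = 0 := fun p hp g t => by
    simp only [b, Int.fract_eq_self.2 (hp 1 trivial), if_neg g]
  have Xin : ∀ p : Fin 2 → ℝ, |p 1 - 1 / 2| < h (p 0) → ∃ u : ℝ, |u| < 1 ∧
      p 1 = 1 / 2 + u * h (p 0) ∧
      ∀ t, X t p = ![S.symm (S (p 0) + t), 1 / 2 + u * h (S.symm (S (p 0) + t))] := fun p g => by
    have e : 0 < h (p 0) := (abs_nonneg _).trans_lt g
    refine ⟨(p 1 - 1 / 2) / h (p 0), ?_, by field_simp; ring, fun t => by simp only [X, fl, if_pos g]⟩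
    rwa [abs_div, abs_of_pos e, div_lt_one e]
  have bin : ∀ u : ℝ, |u| < 1 → ∀ x t, b t ![x, 1 / 2 + u * h x] =
      (1 / h x) • ![1, 0] + (deriv h x / h x) • ![0, u] := fun u hu x t => by
    simp only [b, Matrix.cons_val_zero, Matrix.cons_val_one, fr hu (h0 x) (h1 x), add_sub_cancel_left]
    rcases (h0 x).eq_or_lt with e | e
    · simp [← e]
    · rw [if_pos (by rw [abs_mul, abs_of_pos e]; nlinarith), mul_div_cancel_right₀ _ e.ne']
      ext i; fin_cases i <;> simp [mul_comm]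
  have fin : ∀ u : ℝ, |u| < 1 → ∀ x, avg c ρ x (1 / 2 + u * h x) = c x ∧
      dx c ρ x (1 / 2 + u * h x) = 0 ∧ dy c ρ ρ' x (1 / 2 + u * h x) = 0 := fun u hu x => by
    refine flat (ρ0 _) fun x' hx => ?_
    have a1 : |1 / 2 + u * h x - 1 / 2| = |u| * h x := by
      rw [add_sub_cancel_left, abs_mul, abs_of_nonneg (h0 x)]
    have a2 := ρs (1 / 2 + u * h x) (by rw [a1]; nlinarith [h0 x, h1 x, abs_nonneg u])
    rw [a1] at a2
    rcases (h0 x).eq_or_lt with e | e
    · have a3 : |x' - x| ≤ 0 := (hx.trans a2).trans (by rw [← e, mul_zero])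
      rw [sub_eq_zero.1 (abs_nonpos_iff.1 a3)]
    · exact hc _ _ (by nlinarith)
  have ac : ∀ a b, AbsolutelyContinuousOnInterval h a b := fun a b =>
    hl.lipschitzOnWith.absolutelyContinuousOnInterval
  have c1 := fun (x : ℝ) (t : ℝ) (ht : 0 ≤ t) =>
    cov hS h0 hz (φ := fun _ => 1) (fun _ _ => intervalIntegrable_const) x ht
  have c2 := fun (x : ℝ) (t : ℝ) (ht : 0 ≤ t) =>
    cov hS h0 hz (fun a b => (ac a b).intervalIntegrable_deriv) x ht
  have fc : Continuous fun p : ℝ × (Fin 2 → ℝ) => f p.1 p.2 := continuous_pi fun _ =>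
    ((avg_cont cc ρc).comp (f := fun p : ℝ × (Fin 2 → ℝ) => (p.2 0, p.2 1)) (by fun_prop)).sub
      (by fun_prop)
  have Dfm : Measurable (Function.uncurry Df) := by
    refine measurable_pi_lambda _ fun j => measurable_pi_lambda _ fun _ => ?_
    fin_cases j
    · exact ((dx_meas cc ρc).comp (f := fun p : ℝ × (Fin 2 → ℝ) => (p.2 0, p.2 1))
        (by fun_prop)).sub measurable_const
    · exact (dy_meas cc ρc ρc').comp (f := fun p : ℝ × (Fin 2 → ℝ) => (p.2 0, p.2 1)) (by fun_prop)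
  have e2 := volume_preserving_finTwoArrow ℝ
  have Dfi : ∀ R : ℝ, IntegrableOn (Function.uncurry Df)
      (Set.Ioo (0 : ℝ) (S 1) ×ˢ Metric.closedBall (0 : Fin 2 → ℝ) R) := fun R => by
    rcases lt_or_ge R 0 with hR | hR
    · simp [Metric.closedBall_eq_empty.2 hR]
    have a1 := (e2.integrableOn_comp_preimage MeasurableEquiv.finTwoArrow.measurableEmbedding).2
      (dx_int cc cm ρc ρ0 ρ1 hR)
    have a2 : IntegrableOn (fun p : Fin 2 → ℝ => dx c ρ (p 0) (p 1) + 1) (Metric.closedBall 0 R) := by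
      refine (a1.mono_set fun p hp => ?_).add (integrableOn_const measure_closedBall_lt_top.ne)
      rw [mem_closedBall_zero_iff, pi_norm_le_iff_of_nonneg hR] at hp
      exact ⟨abs_le.1 (hp 0), abs_le.1 (hp 1)⟩
    have a3 := Integrable.comp_snd a2 (volume.restrict (Set.Ioo (0 : ℝ) (S 1)))
    rw [Measure.prod_restrict] at a3
    refine a3.mono' Dfm.aestronglyMeasurable (.of_forall fun p => ?_)
    have a4 := dx_nonneg (x := p.2 0) cm (ρ0 (p.2 1))
    refine (pi_norm_le_iff_of_nonneg (by linarith)).2 fun j =>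
      (pi_norm_le_iff_of_nonneg (by linarith)).2 fun _ => ?_
    fin_cases j
    · exact abs_le.2 ⟨by simp [Function.uncurry, Df]; linarith, by simp [Function.uncurry, Df]; linarith⟩
    · exact (dy_le cc cm (ρ0 _) (ρb _)).trans (by linarith)
  have key := H (S 1) hσ b X f 0 Df ?_ ?_ ?_ ?_ ?_ fc.continuousOn ?_ measurable_const Dfm
    (fun R => ⟨integrableOn_zero, Dfi R⟩) ?_ ?_
  · obtain ⟨x0, hx0⟩ : ∃ x ∈ Ioo (0 : ℝ) 1, h x ≠ 0 :=
      Measure.exists_mem_of_measure_ne_zero_of_ae (μ := volume) (by simp) (ae_restrict_of_ae hz)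
    let U : Set (Fin 2 → ℝ) := (Set.pi Set.univ fun _ : Fin 2 => Set.Ioo (0 : ℝ) 1) ∩
      {p | |p 1 - 1 / 2| < h (p 0)}
    have Uo : IsOpen U := (isOpen_set_pi finite_univ fun _ _ => isOpen_Ioo).inter
      (isOpen_lt (by fun_prop) (by fun_prop))
    have Un : U.Nonempty := ⟨![x0, 1 / 2], fun i _ => by
      fin_cases i
      · exact hx0.1
      · exact ⟨by simp, by simp; norm_num⟩, by simpa using (h0 x0).lt_of_ne' hx0.2⟩
    obtain ⟨p, hp, g, gi, hg⟩ := Measure.exists_mem_of_measure_ne_zero_of_ae (Uo.measure_ne_zero _ Un)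
      (ae_restrict_of_ae_restrict_of_subset
        (fun p hp i hi => Ioo_subset_Ico_self (hp.1 i hi)) key)
    obtain ⟨u, hu, -, hX⟩ := Xin p hp.2
    have gi0 : IntervalIntegrable g volume 0 (S 1) :=
      (intervalIntegrable_iff_integrableOn_Icc_of_le hσ.le).2 gi
    have gi1 : IntervalIntegrable (fun s => g s 0) volume 0 (S 1) :=
      (intervalIntegrable_iff_integrableOn_Icc_of_le hσ.le).2 (Integrable.eval gi 0)
    have ki := gi1.add (c1 (p 0) _ hσ.le).1
    have hk : ∀ t ∈ Icc 0 (S 1), c (S.symm (S (p 0) + t)) = c (p 0) +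
        ∫ s in (0 : ℝ)..t, (g s 0 + 1 / h (S.symm (S (p 0) + s))) := fun t ht => by
      have sub : uIcc 0 t ⊆ uIcc 0 (S 1) := uIcc_subset_uIcc left_mem_uIcc (Icc_subset_uIcc ht)
      have a1 := congrFun (hg t ht) 0
      have a2 := (ContinuousLinearMap.proj (R := ℝ) (φ := fun _ : Fin 2 => ℝ) 0
        ).intervalIntegral_comp_comm (gi0.mono_set sub)
      simp only [ContinuousLinearMap.proj_apply] at a2
      simp only [hX, f, Matrix.cons_val_zero, Matrix.cons_val_one, (fin u hu _).1, Pi.add_apply,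
        ← a2, add_zero, OrderIso.symm_apply_apply] at a1
      rw [intervalIntegral.integral_add (gi1.mono_set sub) (c1 (p 0) t ht.1).1, (c1 (p 0) t ht.1).2]
      simp only [intervalIntegral.integral_const, smul_eq_mul, mul_one]
      linarith
    have hz0 : ∫ s in (0 : ℝ)..S 1, (g s 0 + 1 / h (S.symm (S (p 0) + s))) = 0 := by
      rw [intervalIntegral.integral_of_le hσ.le, integral_Ioc_eq_integral_Ioo]
      refine setIntegral_eq_zero_of_ae_eq_zero ?_
      filter_upwards [ki.ae_hasDerivAt_integral, nullt hS (S (p 0))] with t a1 a2 ht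
      have a3 := (a1 (Icc_subset_uIcc (Ioo_subset_Icc_self ht)) 0 left_mem_uIcc).const_add (c (p 0))
      refine a3.unique ((hasDerivAt_const t (c (S.symm (S (p 0) + t)))).congr_of_eventuallyEq ?_)
      have a4 : Continuous fun s => |S.symm (S (p 0) + s) - S.symm (S (p 0) + t)| := by
        have := S.symm.continuous
        fun_prop
      filter_upwards [Icc_mem_nhds ht.1 ht.2, (a4.tendsto' t 0 (by simp)).eventually_lt_const
        ((h0 _).lt_of_ne' a2)] with s b1 b2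
      rw [← hk s b1, hc _ _ b2]
    have a1 := hk (S 1) (right_mem_Icc.2 hσ.le)
    have a2 := cp (p 0) 1
    rw [hz0, ← S1, OrderIso.symm_apply_apply] at a1
    rw [Int.cast_one] at a2
    linarith
  · have m1 := hcont.measurable
    have m2 := measurable_deriv h
    have m3 : Measurable (Int.fract : ℝ → ℝ) := measurable_fract
    refine Measurable.ite (measurableSet_lt (by fun_prop) (by fun_prop))
      (measurable_pi_lambda _ fun j => ?_) measurable_const
    fin_cases j <;> simp only [Fin.zero_eta, Fin.mk_one, Matrix.cons_val_zero, Matrix.cons_val_one] <;>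
      fun_prop
  · intro t x k
    have : deriv h (x 0 + k 0) = deriv h (x 0) := by
      rw [← deriv_comp_add_const]; simp only [hp]
    simp only [b, Pi.add_apply, Int.fract_add_intCast, hp, this]
  · have := (fl_meas (S := S) hcont).comp
      (f := fun q : ℝ × (Fin 2 → ℝ) => (q.1, q.2 0, q.2 1)) (by fun_prop)
    refine measurable_pi_lambda _ fun j => ?_
    fin_cases j
    · exact this.fst
    · exact this.snd
  · refine (ae_restrict_mem Dm).mono fun p hp => ?_
    by_cases g : |p 1 - 1 / 2| < h (p 0)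
    · obtain ⟨u, hu, e, hX⟩ := Xin p g
      simp only [hX, bin u hu, add_zero, OrderIso.symm_apply_apply]
      refine ⟨by rw [← e]; ext i; fin_cases i <;> rfl,
        (intervalIntegrable_iff_integrableOn_Icc_of_le hσ.le).1
          (((c1 _ _ hσ.le).1.smul_continuousOn continuousOn_const).add
            ((c2 _ _ hσ.le).1.smul_continuousOn continuousOn_const)), fun t ht => ?_⟩
      rw [intervalIntegral.integral_add ((c1 _ _ ht.1).1.smul_continuousOn continuousOn_const)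
        ((c2 _ _ ht.1).1.smul_continuousOn continuousOn_const), intervalIntegral.integral_smul_const,
        intervalIntegral.integral_smul_const, (c1 _ _ ht.1).2, (c2 _ _ ht.1).2,
        (ac _ _).integral_deriv_eq_sub]
      ext i; fin_cases i
      · simp
      · simp [e]; ring
    · simp [Xout p g, bout p hp g]
  · intro t _
    have a1 : (Set.pi Set.univ fun _ : Fin 2 => Set.Ico (0 : ℝ) 1) =
        MeasurableEquiv.finTwoArrow ⁻¹' (Ico (0 : ℝ) 1 ×ˢ Ico (0 : ℝ) 1) := by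
      ext p; simp [Fin.forall_fin_two]
    have a2 := e2.restrict_preimage (measurableSet_Ico.prod measurableSet_Ico :
      MeasurableSet (Ico (0 : ℝ) 1 ×ˢ Ico (0 : ℝ) 1))
    rw [← a1] at a2
    have a3 := ((a2.symm _).comp ((mp hcont hp h0 h1 hS S0 S1 t).comp a2)).map_eq
    refine Eq.trans ?_ a3
    congr 1
    funext p i; fin_cases i <;> rfl
  · intro t x k
    ext i
    simp only [f, Pi.add_apply, avg_per cc cp ρp]
    ring
  · intro φ hφ hs hsub
    have : (volume : Measure (ℝ × (Fin 2 → ℝ))).IsAddHaarMeasure :=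
      inferInstanceAs (((volume : Measure ℝ).prod (volume : Measure (Fin 2 → ℝ))).IsAddHaarMeasure)
    obtain ⟨R, hR⟩ := hs.isCompact.isBounded.exists_norm_le
    have sub : tsupport φ ⊆ Set.Ioo (0 : ℝ) (S 1) ×ˢ Metric.closedBall (0 : Fin 2 → ℝ) R :=
      fun p hp => ⟨(hsub hp).1, mem_closedBall_zero_iff.2 ((norm_snd_le p).trans (hR p hp))⟩
    refine ⟨weak volume (fun p : ℝ × (Fin 2 → ℝ) => f p.1 p.2) (fun _ => 0) _ fc
      stronglyMeasurable_const (.of_forall fun p => ⟨∅, countable_empty, fun s _ => ?_⟩) φ hφ hs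
      integrableOn_zero, fun j => weak volume (fun p : ℝ × (Fin 2 → ℝ) => f p.1 p.2)
        (fun p => Df p.1 p.2 j) _ fc ((measurable_pi_apply j).comp Dfm).stronglyMeasurable ?_
        φ hφ hs (Integrable.eval ((Dfi R).mono_set sub) j)⟩
    · simpa [f] using hasDerivAt_const s _
    · fin_cases j
      · have a1 : ∀ᵐ p : ℝ × (Fin 2 → ℝ), p.2 1 ∉ {y | ρ y = 0} :=
          ((Measure.quasiMeasurePreserving_eval (fun _ : Fin 2 => (volume : Measure ℝ)) 1).comp
            Measure.quasiMeasurePreserving_snd).ae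
            (measure_eq_zero_iff_ae_notMem.1 (ρz.measure_zero _))
        filter_upwards [a1] with p hp
        refine ⟨∅, countable_empty, fun s _ => hasDerivAt_pi.2 fun _ => ?_⟩
        simpa [f, Df] using ((avg_dx cc (p.2 0 + s) hp).comp_const_add (p.2 0) s).fun_sub
          ((hasDerivAt_id s).const_add (p.2 0))
      · refine .of_forall fun p => ⟨(fun s => p.2 1 + s) ⁻¹' {y | ρ y = 0},
          ρz.preimage (add_right_injective _), fun s hs => hasDerivAt_pi.2 fun _ => ?_⟩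
        simpa [f, Df] using ((avg_dy cc ρd (p.2 0) hs).comp_const_add (p.2 1) s).sub_const (p.2 0)
  · refine (ae_restrict_mem Dm).mono fun p hp => ?_
    by_cases g : |p 1 - 1 / 2| < h (p 0)
    · obtain ⟨u, hu, e, hX⟩ := Xin p g
      have := ((intervalIntegrable_iff_integrableOn_Ioo_of_le hσ.le).1
        ((c1 (p 0) _ hσ.le).1.smul_continuousOn
          (continuousOn_const (c := fun _ : Fin 2 => (-1 : ℝ)))))
      refine IntegrableOn.congr_fun this (fun t _ => ?_) measurableSet_Ioo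
      ext i
      simp only [hX, bin u hu, Df, Matrix.cons_val_zero, Matrix.cons_val_one, (fin u hu _).2]
      simp
    · simp [Xout p g, bout p hp g]

end Pool.Agent.S05908
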