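import Pool.Statements.S05912
import Pool.Agent.H.MP_b82e9e_an.A

set_option autoImplicit false
open Filter Topology
open Pool Pool.MP_b82e9e_an

namespace Pool.Agent.S05912

/-- The negation of the preceding statement: For any type Z, nonempty-valued F, r∈[0,1]: if the Cesàro values v_{n+1}(z)=sup over plays of (1/(n+1))Σ_{t≤n} r(s(t+1)) converge uniformly, then for any probability weights θ^k with Σ∣θ^k_{t+1}-θ^k_t∣→0, the values sup over plays of Σ θ^k_t r(s(t+1)) converge uniformly to some w. -/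
theorem result :
    ¬ (∀ (Z : Type) (F : Z → Set Z) (r : Z → ℝ),
      (∀ z, (F z).Nonempty) →
      (∀ z, 0 ≤ r z ∧ r z ≤ 1) →
      (∃ w : Z → ℝ, TendstoUniformly
          (fun (n : ℕ) (z : Z) =>
            sSup {x : ℝ | ∃ s : ℕ → Z, s 0 = z ∧ (∀ t, s (t + 1) ∈ F (s t)) ∧
              x = ∑' t, (if t < n + 1 then 1 / ((n : ℝ) + 1) else 0) * r (s (t + 1))})
          w atTop) →
      ∀ θ : ℕ → ℕ → ℝ,
        (∀ k t, 0 ≤ θ k t) →
        (∀ k, HasSum (θ k) 1) →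
        Tendsto (fun k => ∑' t, |θ k (t + 1) - θ k t|) atTop (𝓝 0) →
        ∃ w : Z → ℝ, TendstoUniformly
          (fun (k : ℕ) (z : Z) =>
            sSup {x : ℝ | ∃ s : ℕ → Z, s 0 = z ∧ (∀ t, s (t + 1) ∈ F (s t)) ∧
              x = ∑' t, θ k t * r (s (t + 1))})
          w atTop) := by
  intro h
  obtain ⟨w, hw⟩ := h H.MP_b82e9e_an.Z H.MP_b82e9e_an.F H.MP_b82e9e_an.r H.MP_b82e9e_an.F_ne
    (fun z => ⟨H.MP_b82e9e_an.r_nonneg z, H.MP_b82e9e_an.r_le_one z⟩)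
    ⟨_, H.MP_b82e9e_an.ces_unif⟩ H.MP_b82e9e_an.th H.MP_b82e9e_an.th_nonneg
    H.MP_b82e9e_an.th_sum H.MP_b82e9e_an.th_tendsto
  exact H.MP_b82e9e_an.not_conv w hw

end Pool.Agent.S05912
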