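import Pool.Statements.S05958
import Pool.Agent.Lib.helper18.RootLoc

set_option autoImplicit false
open Polynomial Filter
open Pool Pool.MP_bcdbe1_an

namespace Pool.Agent.S05958
open Pool.Agent.Lib.helper18.RootLoc Complex

noncomputable def P : Polynomial ℂ :=
  C (-69126960 - 124788720 * I) * X + C (-2756160 - 6079320 * I) * X ^ 2
    + C (245980 + 693980 * I) * X ^ 3 + C (2835 + 14040 * I) * X ^ 4
    + C (-60 - 3588 * I) * X ^ 5 + C 10 * X ^ 6

noncomputable def Q1 : Polynomial ℂ :=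
  C (19665040 - 421276720 * I) + C (8623680 + 10305360 * I) * X
    + C (497940 - 12270060 * I) * X ^ 2 + C (91340 + 56160 * I) * X ^ 3
    + C (-300 - 17940 * I) * X ^ 4 + C 60 * X ^ 5

noncomputable def Q2 : Polynomial ℂ :=
  C (35872000 - 629412928 * I) + C (14031600 + 15022800 * I) * X
    + C (447540 - 15283980 * I) * X ^ 2 + C (108140 + 56160 * I) * X ^ 3
    + C (-300 - 17940 * I) * X ^ 4 + C 60 * X ^ 5

theorem e1 : (P.comp (X + C ((20 : ℝ) : ℂ)) - P.comp (X - C ((20 : ℝ) : ℂ))) *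
    C (1 / (2 * ((20 : ℝ) : ℂ))) = Q1 := by
  apply Polynomial.funext
  intro z
  simp only [P, Q1, eval_mul, eval_sub, eval_comp, eval_add, eval_C, eval_X, eval_pow]
  push_cast
  ring

theorem e2 : (P.comp (X + C ((22 : ℝ) : ℂ)) - P.comp (X - C ((22 : ℝ) : ℂ))) *
    C (1 / (2 * ((22 : ℝ) : ℂ))) = Q2 := by
  apply Polynomial.funext
  intro z
  simp only [P, Q2, eval_mul, eval_sub, eval_comp, eval_add, eval_C, eval_X, eval_pow]
  push_cast
  ring

theorem e0 (z : ℂ) : P.derivative.eval z =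
    60 * ((z - (10 + 4 * I)) * (z - (9 - 7 * I)) * (z - (-7)) * (z - (-9 + 2 * I)) *
      (z - (2 + 300 * I))) := by
  simp only [P, derivative_add, derivative_mul, derivative_C, derivative_X, derivative_X_pow,
    eval_mul, eval_add, eval_C, eval_X, eval_pow, eval_zero, eval_one]
  push_cast
  have h : I ^ 2 = -1 := I_sq
  have h3 : I ^ 3 = -I := by rw [pow_succ, h]; ring
  have h4 : I ^ 4 = 1 := I_pow_four
  ring_nf
  simp only [h, h3, h4]
  ring

theorem d1 : Q1.natDegree ≤ 5 := by unfold Q1; compute_degree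
theorem d2 : Q2.natDegree ≤ 5 := by unfold Q2; compute_degree

theorem ev1 (z : ℂ) : Q1.eval z = (19665040 - 421276720 * I) + z * ((8623680 + 10305360 * I)
    + z * ((497940 - 12270060 * I) + z * ((91340 + 56160 * I) + z * ((-300 - 17940 * I)
    + z * 60)))) := by
  simp only [Q1, eval_mul, eval_add, eval_C, eval_X, eval_pow]; ring

theorem ev1' (z : ℂ) : Q1.derivative.eval z = (8623680 + 10305360 * I)
    + z * (2 * (497940 - 12270060 * I) + z * (3 * (91340 + 56160 * I)
    + z * (4 * (-300 - 17940 * I) + z * 300))) := by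
  simp only [Q1, derivative_add, derivative_mul, derivative_C, derivative_X, derivative_X_pow,
    eval_mul, eval_add, eval_C, eval_X, eval_pow, eval_zero, eval_one]
  push_cast; ring

theorem ev2 (z : ℂ) : Q2.eval z = (35872000 - 629412928 * I) + z * ((14031600 + 15022800 * I)
    + z * ((447540 - 15283980 * I) + z * ((108140 + 56160 * I) + z * ((-300 - 17940 * I)
    + z * 60)))) := by
  simp only [Q2, eval_mul, eval_add, eval_C, eval_X, eval_pow]; ring

theorem ev2' (z : ℂ) : Q2.derivative.eval z = (14031600 + 15022800 * I)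
    + z * (2 * (447540 - 15283980 * I) + z * (3 * (108140 + 56160 * I)
    + z * (4 * (-300 - 17940 * I) + z * 300))) := by
  simp only [Q2, derivative_add, derivative_mul, derivative_C, derivative_X, derivative_X_pow,
    eval_mul, eval_add, eval_C, eval_X, eval_pow, eval_zero, eval_one]
  push_cast; ring

noncomputable def zs : Fin 5 → ℂ :=
  ![⟨1.91850, -26.47269⟩, ⟨0.36643, -6.27806⟩, ⟨0.35902, 5.74768⟩, ⟨0.36380, 24.22751⟩,
    ⟨1.99224, 301.77556⟩]

theorem loc1 : ∀ w ∈ Q1.roots, ∃ i, ‖w - zs i‖ < 1 / 2000 := by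
  refine roots_located Q1 5 d1 zs _ (by norm_num) ?_ ?_
  · intro i j hij
    refine le_trans ?_ (Complex.abs_im_le_norm _)
    rw [le_abs]
    fin_cases i <;> fin_cases j <;> first | exact absurd rfl hij | (simp [zs]; norm_num)
  · intro i
    rw [ev1, ev1']
    refine mul_norm_lt _ _ _ _ (by norm_num) ?_
    fin_cases i <;> (simp [zs]; norm_num)

theorem up1 (w : ℂ) (hw : w ∈ Q1.roots) : 0.3585 ≤ w.re ∧ w.re ≤ 1.9928 := by
  obtain ⟨i, hi⟩ := loc1 w hw
  have h := (Complex.abs_re_le_norm _).trans_lt hi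
  rw [abs_lt, Complex.sub_re] at h
  have : 0.35902 ≤ (zs i).re ∧ (zs i).re ≤ 1.99224 := by
    fin_cases i <;> (simp [zs]; try norm_num)
  constructor <;> linarith [h.1, h.2, this.1, this.2]

theorem lo2 : ∃ w ∈ Q2.roots, w.re ≤ 0.3543 := by
  obtain ⟨w, hw, hi⟩ := exists_root_near Q2 5 d2 ⟨0.35371, 6.21551⟩ (1 / 2000) (by norm_num) (by
    rw [ev2, ev2']
    refine mul_norm_lt _ _ _ _ (by norm_num) ?_
    simp; norm_num)
  refine ⟨w, hw, ?_⟩
  have h := (Complex.abs_re_le_norm _).trans_lt hi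
  rw [abs_lt, Complex.sub_re] at h
  have := h.2
  simp only at this
  linarith

theorem hi2 : ∃ w ∈ Q2.roots, 1.99 ≤ w.re := by
  obtain ⟨w, hw, hi⟩ := exists_root_near Q2 5 d2 ⟨1.99062, 302.14853⟩ (1 / 2000) (by norm_num) (by
    rw [ev2, ev2']
    refine mul_norm_lt _ _ _ _ (by norm_num) ?_
    simp; norm_num)
  refine ⟨w, hw, ?_⟩
  have h := (Complex.abs_re_le_norm _).trans_lt hi
  rw [abs_lt, Complex.sub_re] at h
  have := h.1
  simp only at this
  linarith

theorem up0 (w : ℂ) (hw : w ∈ P.derivative.roots) : -9 ≤ w.re ∧ w.re ≤ 10 := by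
  have h : P.derivative.eval w = 0 := isRoot_of_mem_roots hw
  rw [e0] at h
  simp only [mul_eq_zero, sub_eq_zero] at h
  rcases h with h | (((h | h) | h) | h) | h
  · norm_num at h
  all_goals (rw [h]; simp; try norm_num)

theorem bdd (q : Polynomial ℂ) :
    BddAbove {x : ℝ | ∃ z ∈ q.roots, ∃ w ∈ q.roots, x = z.re - w.re} := by
  classical
  refine Set.Finite.bddAbove ?_
  refine ((q.roots.toFinset ×ˢ q.roots.toFinset).finite_toSet.image
    (fun t : ℂ × ℂ => t.1.re - t.2.re)).subset ?_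
  rintro x ⟨z, hz, w, hw, rfl⟩
  exact ⟨(z, w), by simp only [Finset.coe_product, Set.mem_prod, Finset.mem_coe,
    Multiset.mem_toFinset]; exact ⟨hz, hw⟩, rfl⟩

theorem result :
    ¬ (∀ W : Polynomial ℂ → ℝ,
      (∀ q : Polynomial ℂ,
        W q = sSup {x : ℝ | ∃ z ∈ q.roots, ∃ w ∈ q.roots, x = z.re - w.re}) →
      ∀ p : Polynomial ℂ,
        AntitoneOn
          (fun l : ℝ =>
            W ((p.comp (X + C (l : ℂ)) - p.comp (X - C (l : ℂ))) * C (1 / (2 * (l : ℂ)))))
          (Set.Ioi (W (derivative p))) ∧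
        Tendsto
          (fun l : ℝ =>
            W ((p.comp (X + C (l : ℂ)) - p.comp (X - C (l : ℂ))) * C (1 / (2 * (l : ℂ)))))
          atTop (nhds 0)) := by
  intro H
  have h := (H (fun q => sSup {x : ℝ | ∃ z ∈ q.roots, ∃ w ∈ q.roots, x = z.re - w.re})
    (fun _ => rfl) P).1
  have h0 : sSup {x : ℝ | ∃ z ∈ P.derivative.roots, ∃ w ∈ P.derivative.roots,
      x = z.re - w.re} ≤ 19 := by
    refine Real.sSup_le ?_ (by norm_num)
    rintro x ⟨z, hz, w, hw, rfl⟩
    linarith [(up0 z hz).2, (up0 w hw).1]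
  have h1 := h (a := 20) (b := 22) (lt_of_le_of_lt h0 (by norm_num))
    (lt_of_le_of_lt h0 (by norm_num)) (by norm_num)
  simp only [e1, e2] at h1
  have h2 : sSup {x : ℝ | ∃ z ∈ Q1.roots, ∃ w ∈ Q1.roots, x = z.re - w.re} ≤ 1.635 := by
    refine Real.sSup_le ?_ (by norm_num)
    rintro x ⟨z, hz, w, hw, rfl⟩
    linarith [(up1 z hz).2, (up1 w hw).1]
  obtain ⟨w, hw, hw'⟩ := lo2
  obtain ⟨z, hz, hz'⟩ := hi2
  have h3 := le_csSup (bdd Q2) ⟨z, hz, w, hw, rfl⟩
  linarith

end Pool.Agent.S05958
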