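import Pool.Statements.S05971
import Pool.Agent.H.MP_bdf9ed_an.B

set_option autoImplicit false
open Pool Pool.MP_bdf9ed_an

namespace Pool.Agent.S05971

open Set Finsupp Pool.Agent.H.MP_bdf9ed_an

theorem result :
    ∀ A : Set ℝ, MeasurableSet A → (0 : ℝ) ∈ A → A ⊆ Set.Ici (0 : ℝ) →
      ∃ B : Set ℝ, MeasurableSet B ∧
        {α : ℝ | 0 ≤ α ∧ ∀ x ∈ B, ∃ y ∈ B, |x - y| = α} = A := by
  classical
  intro A hA h0 hs
  obtain ⟨X, hX, ind⟩ := exX
  simp only [← E_eq] at ind
  obtain ⟨N, hN⟩ : ∃ N : Set ℝ, N = E X '' {v | Good v} ∪ ⋃ σ : Bool,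
    (fun a => E X (single a (1, if σ then 1 else -1))) '' (Ioi 0 \ A) := ⟨_, rfl⟩
  have rep : ∀ y ∈ N, ∃ v, E X v = y ∧ v ≠ 0 ∧ (∀ a, v a ≠ 0 → 0 < (v a).1 ∧ (v a).1 ≤ 1) ∧
      ∀ a, (v a).1 = 1 → a ∈ Ioi 0 \ A ∧ (y = X a + a ∨ y = X a - a) := by
    rw [hN]
    rintro _ (⟨v, hv, rfl⟩ | h)
    · refine ⟨v, rfl, hv.1, fun a h => ⟨(hv.2 a h).1, (hv.2 a h).2.le⟩, fun a h => ?_⟩
      exact absurd h (hv.2 a fun e => by simp [e] at h).2.ne
    · obtain ⟨σ, b, hb, rfl⟩ := mem_iUnion.1 h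
      refine ⟨_, rfl, by simp, fun a h => ?_, fun a h => ?_⟩
      · obtain rfl := (single_apply_ne_zero.1 h).1
        simp
      · obtain rfl := (single_apply_ne_zero.1 (fun e => by simp [e] at h :
          single b ((1 : ℚ), if σ then (1 : ℚ) else -1) a ≠ 0)).1
        refine ⟨hb, ?_⟩
        cases σ <;> simp [E_single, sub_eq_add_neg]
  refine ⟨Nᶜ, .compl ?_, Subset.antisymm ?_ fun α hα => ⟨hs hα, fun x hx => ?_⟩⟩
  · rw [hN]
    refine (borel hX ind).union (.iUnion fun σ => MeasurableSet.image_of_measurable_injOn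
      (measurableSet_Ioi.diff hA) ?_ fun a _ b _ e => ?_)
    · simp only [E_single]
      fun_prop
    · refine single_left_injective (b := ((1 : ℚ), if σ then (1 : ℚ) else -1)) (by simp)
        (sub_eq_zero.1 (ind _ (fun x => ?_) (by rw [map_sub, sub_eq_zero]; exact e)))
      simp only [Finsupp.sub_apply, single_apply]
      by_cases h1 : a = x <;> by_cases h2 : b = x <;> simp [h1, h2]
  · rintro α ⟨h1, h2⟩
    by_contra hn
    have p : 0 < α := h1.lt_of_ne fun e => hn (e ▸ h0)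
    obtain ⟨y, hy, e⟩ := h2 (X α) fun h => by
      obtain ⟨v, e, -, v1, v2⟩ := rep _ h
      have n1 : (v α).1 ≠ 1 := fun h => by rcases (v2 α h).2 with h | h <;> linarith
      have := ind (v - single α (1, 0)) (fun a => ?_) (by simp [e, E_single])
      · exact n1 (by simp [sub_eq_zero.1 this])
      by_cases h : α = a
      · subst h
        simp [sub_eq_zero, n1]
      · simpa [single_apply, h] using fun h => by_contra fun h1 => (v1 a h1).1.ne' h
    refine hy (hN ▸ Or.inr (mem_iUnion.2 ?_))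
    rcases (abs_eq h1).1 e with e | e
    · exact ⟨false, α, ⟨p, hn⟩, by simp [E_single]; linarith⟩
    · exact ⟨true, α, ⟨p, hn⟩, by simp [E_single]; linarith⟩
  · by_contra hn
    push Not at hn
    have h1 : (0 : ℝ) ≤ α := hs hα
    have p : 0 < α := h1.lt_of_ne fun e => hn x hx (by simp [e])
    obtain ⟨v, e, v0, v1, v2⟩ := rep (x + α) (by_contra fun h => hn _ h (by simp [abs_of_pos p]))
    obtain ⟨w, f, -, w1, w2⟩ := rep (x - α) (by_contra fun h => hn _ h (by simp [abs_of_pos p]))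
    have q : ∀ u : ℝ →₀ ℚ × ℚ, (∀ a, u a ≠ 0 → 0 < (u a).1 ∧ (u a).1 ≤ 1) →
        ∀ a, 0 ≤ (u a).1 ∧ (u a).1 ≤ 1 := fun u h a => by
      by_cases e : u a = 0
      · simp [e]
      · exact ⟨(h a e).1.le, (h a e).2⟩
    refine hx (hN ▸ Or.inl ⟨(1 / 2 : ℚ) • (v + w), ⟨fun h => ?_, fun a h => ?_⟩, ?_⟩)
    · obtain ⟨a, ha⟩ := support_nonempty_iff.2 v0
      have := congrArg (fun u : ℝ →₀ ℚ × ℚ => (u a).1) h
      simp at this
      linarith [(v1 a (mem_support_iff.1 ha)).1, (q w w1 a).1]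
    · have a1 := q v v1 a
      have a2 := q w w1 a
      have a3 : 0 < (v a).1 ∨ 0 < (w a).1 := by
        by_contra h'
        push Not at h'
        have b1 : v a = 0 := by_contra fun e => (v1 a e).1.not_ge h'.1
        have b2 : w a = 0 := by_contra fun e => (w1 a e).1.not_ge h'.2
        simp [b1, b2] at h
      have a4 : (v a).1 < 1 ∨ (w a).1 < 1 := by
        by_contra h'
        push Not at h'
        obtain ⟨⟨b1, b2⟩, b3⟩ := v2 a (a1.2.antisymm h'.1)
        have b4 := (w2 a (a2.2.antisymm h'.2)).2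
        have b1 : 0 < a := b1
        refine b2 ((show α = a by rcases b3 with b3 | b3 <;> rcases b4 with b4 | b4 <;> linarith) ▸ hα)
      simp only [Finsupp.smul_apply, Finsupp.add_apply, Prod.smul_fst, Prod.fst_add, smul_eq_mul]
      constructor
      · rcases a3 with h | h <;> linarith
      · rcases a4 with h | h <;> linarith
    · rw [map_smul, map_add, e, f, Rat.smul_def]
      push_cast
      ring

end Pool.Agent.S05971
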