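import Pool.Statements.S05978
-- import your own Pool.Agent.* helpers here
import Pool.Agent.H.MP_be6048_an.A

set_option autoImplicit false
open MeasureTheory
open Pool Pool.MP_be6048_an

namespace Pool.Agent.S05978

theorem result :
    ¬ (∀ G : Set ℂ, IsOpen G → Convex ℝ G → Bornology.IsBounded G →
      (∀ x : ℝ, x ∈ Set.Icc (-1 : ℝ) 1 → (x : ℂ) ∈ G) →
      ∀ n k : ℕ, 1 ≤ k → k ≤ n →
      ∀ q : ENNReal, 1 ≤ q →
      ∀ P : Polynomial ℂ, P.natDegree = n → (∀ z ∈ G, P.eval z ≠ 0) →
        (∀ Q : Polynomial ℂ, Q.natDegree = n → (∀ z ∈ G, Q.eval z ≠ 0) →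
          eLpNorm (fun x : ℝ => ((⇑Polynomial.derivative)^[k] Q).eval (x : ℂ)) q
              (volume.restrict (Set.Icc (-1 : ℝ) 1)) /
            eLpNorm (fun x : ℝ => Q.eval (x : ℂ)) ⊤
              (volume.restrict (Set.Icc (-1 : ℝ) 1))
          ≤
          eLpNorm (fun x : ℝ => ((⇑Polynomial.derivative)^[k] P).eval (x : ℂ)) q
              (volume.restrict (Set.Icc (-1 : ℝ) 1)) /
            eLpNorm (fun x : ℝ => P.eval (x : ℂ)) ⊤
              (volume.restrict (Set.Icc (-1 : ℝ) 1))) →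
        ∀ z : ℂ, P.eval z = 0 → z ∈ frontier G) := by
  intro H
  open Pool.Agent.H.MP_be6048_an Polynomial in
  obtain ⟨a, ha, b, hb, h1, h2⟩ := ext
  open Pool.Agent.H.MP_be6048_an Polynomial in
  have key := H G G_open G_conv (Metric.isBounded_ball.subset Set.inter_subset_right) G_seg 2 1
    le_rfl (by norm_num) 2 (by norm_num) (C 1 * ((X - C a) * (X - C b)))
    (by rw [C_1, one_mul, natDegree_mul (X_sub_C_ne_zero a) (X_sub_C_ne_zero b)]; simp)
    (fun z hz h => by
      simp only [C_1, one_mul, eval_mul, eval_sub, eval_X, eval_C, mul_eq_zero, sub_eq_zero] at h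
      rcases h with rfl | rfl
      exacts [ha hz, hb hz])
    (fun Q hQ h0 => by
      obtain ⟨l, a', b', hl, rfl⟩ := fac Q hQ
      have ha' : a' ∉ G := fun h => h0 a' h (by simp)
      have hb' : b' ∉ G := fun h => h0 b' h (by simp)
      rw [ratio l a' b' hl ha' hb', ratio 1 a b one_ne_zero ha hb]
      exact ENNReal.ofReal_le_ofReal (Real.sqrt_le_sqrt (h2 a' ha' b' hb')))
  open Pool.Agent.H.MP_be6048_an in
  rcases G_fr (key b (by simp)) with e2 | e2
  · rcases G_fr (key a (by simp)) with e1 | e1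
    · linarith [line a b e1 e2]
    · have := far b a e1
      rw [N_comm, D_comm] at this
      linarith
  · linarith [far a b e2]

end Pool.Agent.S05978
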