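import Pool.Statements.S05980
import Pool.Agent.H.MP_be6c88_an.A

set_option autoImplicit false
open Pool Pool.MP_be6c88_an

namespace Pool.Agent.S05980

theorem result :
    ¬ (∃ (X : Type) (_ : NormedAddCommGroup X) (_ : NormedSpace ℝ X),
      CompleteSpace X ∧ ¬ FiniteDimensional ℝ X ∧
      (∀ x : X, x ≠ 0 → DifferentiableAt ℝ (fun y : X => ‖y‖) x) ∧
      ∃ 𝒞 : Set (Set X),
        (∀ B ∈ 𝒞, ∃ c : X, ∃ r : ℝ, 0 < r ∧ B = Metric.closedBall c r) ∧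
        ⋃₀ 𝒞 = Set.univ ∧
        ∀ B ∈ 𝒞, {B' ∈ 𝒞 | (B ∩ B').Nonempty}.Finite) := by
  rintro ⟨X, _, _, _, h1, h2, 𝒞, h3, h4, h5⟩
  choose! c r h3 h6 using h3
  have cov : ∀ x, ∃ p ∈ (fun B => (c B, r B)) '' 𝒞, dist x p.1 ≤ p.2 := fun x => by
    obtain ⟨B, a, b⟩ := Set.eq_univ_iff_forall.mp h4 x
    exact ⟨_, ⟨B, a, rfl⟩, by rwa [h6 B a] at b⟩
  have fin : ∀ p ∈ (fun B => (c B, r B)) '' 𝒞,
      {q ∈ (fun B => (c B, r B)) '' 𝒞 | dist p.1 q.1 ≤ p.2 + q.2}.Finite := by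
    rintro _ ⟨B, a, rfl⟩
    refine ((h5 B a).image fun B => (c B, r B)).subset ?_
    rintro _ ⟨⟨D, b, rfl⟩, e⟩
    obtain ⟨y, y1, y2⟩ := exists_dist_le_le (h3 B a).le (h3 D b).le (e.trans_eq (add_comm _ _))
    exact ⟨D, ⟨b, y, by rw [h6 B a]; exact Metric.mem_closedBall'.mpr y1, by rw [h6 D b]; exact y2⟩, rfl⟩
  obtain ⟨Q, q1, q2, q3⟩ := H.MP_be6c88_an.minl cov fun x => by
    obtain ⟨p, a, b⟩ := cov x
    exact (fin p a).subset fun q e => ⟨e.1, by linarith [dist_triangle_left p.1 q.1 x, e.2]⟩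
  exact H.MP_be6c88_an.core h1 h2 (fun p hp => by obtain ⟨B, a, rfl⟩ := q1 hp; exact h3 B a) q2
    (fun p hp => (fin p (q1 hp)).subset fun q e => ⟨q1 e.1, e.2⟩) q3

end Pool.Agent.S05980
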