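import Pool.Statements.S05985
import Pool.Agent.H.MP_2f7009_an.C

set_option autoImplicit false
open Pool Pool.MP_bec4cd_an Pool.Agent.H.MP_2f7009_an Set Metric

namespace Pool.Agent.S05985

theorem result :
    ∀ (X : Type) [NormedAddCommGroup X] [NormedSpace ℝ X] [CompleteSpace X],
      TopologicalSpace.SeparableSpace X →
      ¬ TopologicalSpace.SeparableSpace (X →L[ℝ] ℝ) →
      ∃ K : Set X, K ⊆ Metric.sphere (0 : X) 1 ∧ Nonempty (K ≃ₜ (ℕ → Bool)) ∧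
        ∃ ε : ℝ, 0 < ε ∧
          ∀ x ∈ K, ∀ y ∈ K, x ≠ y →
            ∀ f g : X →L[ℝ] ℝ, ‖f‖ = 1 → f x = 1 → ‖g‖ = 1 → g y = 1 →
              ε ≤ ‖f - g‖ := by
  intro X _ _ _ h1 h2
  obtain ⟨φ, p1, p2, p3⟩ := cantor (mt big h2)
  have inj : Function.Injective φ := fun σ τ h => by_contra fun hc => by
    obtain ⟨f, f1, f2⟩ := exists_dual_vector ℝ (φ σ) (by simp [p2])
    have f3 : f (φ σ) = 1 := by simpa [p2] using f2
    have := p3 σ τ hc f f f1 f3 f1 (h ▸ f3)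
    norm_num at this
  refine ⟨range φ, forall_mem_range.2 fun σ => mem_sphere_zero_iff_norm.2 (p2 σ),
    ⟨(p1.isClosedEmbedding inj).isEmbedding.toHomeomorph.symm⟩, 1 / 2, by norm_num, ?_⟩
  rintro _ ⟨σ, rfl⟩ _ ⟨τ, rfl⟩ h
  exact p3 σ τ fun h' => h (h' ▸ rfl)

end Pool.Agent.S05985
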