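import Pool.Statements.S05991
import Pool.Agent.H.MP_bf1b21_an.A

set_option autoImplicit false
open Pool Pool.MP_bf1b21_an

namespace Pool.Agent.S05991

theorem result :
    ∃ (K : Type) (_ : TopologicalSpace K) (_ : CompactSpace K) (_ : T2Space K),
      Infinite K ∧
      ∃ 𝓑 : Set (Set C(K, ℝ)),
        (∀ B ∈ 𝓑, ∃ (x : C(K, ℝ)) (r : ℝ), 0 < r ∧ B = Metric.closedBall x r) ∧
        ⋃₀ 𝓑 = Set.univ ∧
        ∀ B ∈ 𝓑, {B' : Set C(K, ℝ) | B' ∈ 𝓑 ∧ (B ∩ B').Nonempty}.Finite := by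
  obtain ⟨c, h1, h2⟩ := H.MP_bf1b21_an.klee fun Z h => H.MP_bf1b21_an.ext Z (h.trans_le H.MP_bf1b21_an.card)
  refine ⟨(ℕ → Bool) → Bool, inferInstance, inferInstance, inferInstance, inferInstance,
    Set.range fun x => Metric.closedBall (c x) 1, ?_, Set.eq_univ_of_forall fun x => ⟨_, ⟨x, rfl⟩, h1 x⟩, ?_⟩
  · rintro _ ⟨x, rfl⟩
    exact ⟨_, 1, one_pos, rfl⟩
  · rintro _ ⟨x, rfl⟩
    refine (Set.finite_singleton (Metric.closedBall (c x) 1)).subset ?_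
    rintro _ ⟨⟨y, rfl⟩, z, a, b⟩
    rcases h2 y x with h | h
    · simp [h]
    · linarith [dist_triangle_left (c y) (c x) z, Metric.mem_closedBall.mp a, Metric.mem_closedBall.mp b]

end Pool.Agent.S05991
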