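import Pool.Statements.S05997
-- import your own Pool.Agent.* helpers here

set_option autoImplicit false
open Pool Pool.MP_bfe0f8_an

namespace Pool.Agent.S05997

open Filter Topology Set

structure Hyp (I : Set ℝ) (F : ℝ → ℝ → ℝ) : Prop where
  conn : I.OrdConnected
  mem : ∀ x ∈ I, ∀ y ∈ I, F x y ∈ I
  idem : ∀ x ∈ I, F x x = x
  med : ∀ x ∈ I, ∀ y ∈ I, ∀ u ∈ I, ∀ v ∈ I, F (F x y) (F u v) = F (F x u) (F y v)
  m2 : ∀ x ∈ I, StrictMonoOn (F x) I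
  m1 : ∀ y ∈ I, StrictMonoOn (fun x => F x y) I

variable {I : Set ℝ} {F : ℝ → ℝ → ℝ}

theorem Hyp.swap (h : Hyp I F) : Hyp I (fun x y => F y x) :=
  ⟨h.conn, fun x hx y hy => h.mem y hy x hx, h.idem,
    fun x hx y hy u hu v hv => h.med v hv u hu y hy x hx, h.m1, h.m2⟩

theorem Hyp.neg (h : Hyp I F) : Hyp {x | -x ∈ I} (fun x y => -F (-x) (-y)) := by
  refine ⟨⟨fun x hx y hy z hz => h.conn.out hy hx ⟨neg_le_neg hz.2, neg_le_neg hz.1⟩⟩,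
    fun x hx y hy => ?_, fun x hx => ?_, fun x hx y hy u hu v hv => ?_,
    fun x hx a ha b hb hab => ?_, fun x hx a ha b hb hab => ?_⟩
  · show - -F (-x) (-y) ∈ I
    rw [neg_neg]; exact h.mem _ hx _ hy
  · rw [h.idem _ hx, neg_neg]
  · simp only [neg_neg]; rw [h.med _ hx _ hy _ hu _ hv]
  · exact neg_lt_neg (h.m2 _ hx hb ha (neg_lt_neg hab))
  · exact neg_lt_neg (h.m1 _ hx hb ha (neg_lt_neg hab))

theorem Hyp.le1 (h : Hyp I F) {a b y : ℝ} (ha : a ∈ I) (hb : b ∈ I) (hy : y ∈ I) (hab : a ≤ b) :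
    F a y ≤ F b y := (h.m1 y hy).monotoneOn ha hb hab

theorem Hyp.le2 (h : Hyp I F) {a b y : ℝ} (ha : a ∈ I) (hb : b ∈ I) (hy : y ∈ I) (hab : a ≤ b) :
    F y a ≤ F y b := (h.m2 y hy).monotoneOn ha hb hab

def Big (I : Set ℝ) (F : ℝ → ℝ → ℝ) (x0 u v : ℝ) : Prop :=
  u ∈ I ∧ v ∈ I ∧ ∃ x ∈ I, x0 < x ∧ F x u ≤ F x0 v

theorem Big.lt (h : Hyp I F) {x0 u v : ℝ} (h0 : x0 ∈ I) (b : Big I F x0 u v) : u < v := by
  obtain ⟨hu, hv, x, hx, h1, h2⟩ := b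
  have := (h.m1 u hu h0 hx h1).trans_le h2
  exact ((h.m2 x0 h0).lt_iff_lt hu hv).1 this

theorem Big.left (h : Hyp I F) {x0 u v z : ℝ} (h0 : x0 ∈ I) (hz : z ∈ I) (b : Big I F x0 u v) :
    Big I F x0 (F z u) (F z v) := by
  obtain ⟨hu, hv, x, hx, h1, h2⟩ := b
  refine ⟨h.mem _ hz _ hu, h.mem _ hz _ hv, F x0 x, h.mem _ h0 _ hx, ?_, ?_⟩
  · have := h.m2 x0 h0 h0 hx h1
    rwa [h.idem _ h0] at this
  · rw [h.med _ h0 _ hx _ hz _ hu]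
    refine (h.le2 (h.mem _ hx _ hu) (h.mem _ h0 _ hv) (h.mem _ h0 _ hz) h2).trans (le_of_eq ?_)
    rw [h.med _ h0 _ hz _ h0 _ hv, h.idem _ h0]

theorem Big.right (h : Hyp I F) {x0 u v z : ℝ} (h0 : x0 ∈ I) (hz : z ∈ I) (b : Big I F x0 u v) :
    Big I F x0 (F u z) (F v z) := by
  obtain ⟨hu, hv, x, hx, h1, h2⟩ := b
  refine ⟨h.mem _ hu _ hz, h.mem _ hv _ hz, F x x0, h.mem _ hx _ h0, ?_, ?_⟩
  · have := h.m1 x0 h0 h0 hx h1
    simp only at this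
    rwa [h.idem _ h0] at this
  · rw [h.med _ hx _ h0 _ hu _ hz]
    refine (h.le1 (h.mem _ hx _ hu) (h.mem _ h0 _ hv) (h.mem _ h0 _ hz) h2).trans (le_of_eq ?_)
    rw [h.med _ h0 _ hv _ h0 _ hz, h.idem _ h0]

theorem Big.split (h : Hyp I F) {x0 u v : ℝ} (h0 : x0 ∈ I) (b : Big I F x0 u v) :
    Big I F x0 u (F u v) ∧ Big I F x0 (F u v) v := by
  have h1 := b.left h h0 b.1
  have h2 := b.right h h0 b.2.1
  rw [h.idem _ b.1] at h1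
  rw [h.idem _ b.2.1] at h2
  exact ⟨h1, h2⟩

theorem Big.mono (h : Hyp I F) {x0 u v w : ℝ} (hw : w ∈ I) (hwu : w ≤ u) (b : Big I F x0 u v) :
    Big I F x0 w v := by
  obtain ⟨hu, hv, x, hx, h1, h2⟩ := b
  exact ⟨hw, hv, x, hx, h1, (h.le2 hw hu hx hwu).trans h2⟩

theorem step (h : Hyp I F) {x0 : ℝ} (h0 : x0 ∈ I) (Λ : ℝ → ℝ) (hΛ : MonotoneOn Λ I)
    (p : ℝ × ℝ) (b : Big I F x0 p.1 p.2) : ∃ q : ℝ × ℝ, Big I F x0 q.1 q.2 ∧ p.1 ≤ q.1 ∧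
      Big I F x0 q.2 p.2 ∧ Λ q.2 - Λ q.1 ≤ (Λ p.2 - Λ p.1) / 2 := by
  obtain ⟨b1, b2⟩ := b.split h h0
  obtain ⟨b3, b4⟩ := b2.split h h0
  have l1 := hΛ b4.1 b4.2.1 (b4.lt h h0).le
  rcases le_total (Λ (F p.1 p.2) - Λ p.1) ((Λ p.2 - Λ p.1) / 2) with c | c
  · exact ⟨(p.1, F p.1 p.2), b1, le_rfl, b2, c⟩
  · exact ⟨(F p.1 p.2, F (F p.1 p.2) p.2), b3, (b1.lt h h0).le, b4, by simp only; linarith⟩

theorem key (h : Hyp I F) {x0 y0 x1 t : ℝ} (h0 : x0 ∈ I) (hy : y0 ∈ I) (h1 : x1 ∈ I)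
    (h01 : x0 < x1) (ht : F x0 y0 < t) : ∃ x ∈ I, x0 < x ∧ F x y0 < t := by
  by_contra hc
  push Not at hc
  have htI : t ∈ I := h.conn.out (h.mem _ h0 _ hy) (h.mem _ h1 _ hy) ⟨ht.le, hc x1 h1 h01⟩
  set Λ : ℝ → ℝ := fun u => F x0 (F y0 u) with hΛ
  have hm : MonotoneOn Λ I := fun a ha b hb hab =>
    h.le2 (h.mem _ hy _ ha) (h.mem _ hy _ hb) h0 (h.le2 ha hb hy hab)
  have b0 : Big I F x0 x0 x1 := by
    have hx := h.mem _ h0 _ h1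
    have l : x0 < F x0 x1 := by
      have := h.m2 x0 h0 h0 h1 h01
      rwa [h.idem _ h0] at this
    refine ⟨h0, h1, _, hx, l, ?_⟩
    have := h.le2 h0 hx hx l.le
    rwa [h.idem _ hx] at this
  choose! g g1 g2 g3 g4 using step h h0 Λ hm
  set s : ℕ → ℝ × ℝ := fun n => g^[n] (x0, x1) with hs
  have ss : ∀ n, s (n + 1) = g (s n) := fun n => Function.iterate_succ_apply' _ _ _
  have sb : ∀ n, Big I F x0 (s n).1 (s n).2 := by
    intro n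
    induction n with
    | zero => exact b0
    | succ n ih => rw [ss]; exact g1 _ ih
  have ma : Monotone fun n => (s n).1 :=
    monotone_nat_of_le_succ fun n => by rw [ss]; exact g2 _ (sb n)
  have mb : Antitone fun n => (s n).2 :=
    antitone_nat_of_succ_le fun n => by rw [ss]; exact ((g3 _ (sb n)).lt h h0).le
  have ab : ∀ n k, (s n).1 ≤ (s k).2 := fun n k =>
    (ma (le_max_left n k)).trans (((sb _).lt h h0).le.trans (mb (le_max_right n k)))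
  set m : ℝ := ⨆ n, (s n).1 with hm'
  have am : ∀ n, (s n).1 ≤ m := fun n =>
    le_ciSup (f := fun n => (s n).1) ⟨(s 0).2, by rintro _ ⟨n, rfl⟩; exact ab n 0⟩ n
  have mb' : ∀ k, m ≤ (s k).2 := fun k => ciSup_le fun n => ab n k
  have mI : m ∈ I := h.conn.out (sb 0).1 (sb 0).2.1 ⟨am 0, mb' 0⟩
  have len : ∀ n, Λ (s n).2 - Λ (s n).1 ≤ (Λ x1 - Λ x0) * (1 / 2) ^ n := by
    intro n
    induction n with
    | zero => simp [hs]
    | succ n ih =>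
      have := g4 _ (sb n)
      rw [ss, pow_succ]; linarith
  have gap : Λ m < F t (F x0 m) := by
    have := h.m1 _ (h.mem _ h0 _ mI) (h.mem _ h0 _ hy) htI ht
    simp only at this
    rwa [h.med _ h0 _ hy _ h0 _ mI, h.idem _ h0] at this
  have up : ∀ n, F t (F x0 m) ≤ Λ (s n).2 := by
    intro n
    have b1 : Big I F x0 m (s n).2 := (g3 _ (sb n)).mono h mI (by rw [← ss]; exact mb' _)
    obtain ⟨-, -, x, hx, c1, c2⟩ := b1.left h h0 hy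
    refine le_trans ?_ c2
    have e : F x (F y0 m) = F (F x y0) (F x m) := by
      rw [h.med _ hx _ hy _ hx _ mI, h.idem _ hx]
    rw [e]
    exact (h.le1 htI (h.mem _ hx _ hy) (h.mem _ h0 _ mI) (hc x hx c1)).trans
      (h.le2 (h.mem _ h0 _ mI) (h.mem _ hx _ mI) (h.mem _ hx _ hy) (h.le1 h0 hx mI c1.le))
  have t0 : Tendsto (fun n : ℕ => (Λ x1 - Λ x0) * (1 / 2 : ℝ) ^ n) atTop (𝓝 ((Λ x1 - Λ x0) * 0)) :=
    (tendsto_pow_atTop_nhds_zero_of_lt_one (by norm_num) (by norm_num)).const_mul _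
  have : F t (F x0 m) - Λ m ≤ (Λ x1 - Λ x0) * 0 := by
    refine ge_of_tendsto' t0 fun n => ?_
    have := hm (sb n).1 mI (am n)
    linarith [len n, up n]
  linarith

theorem up1 (h : Hyp I F) {x0 y0 t : ℝ} (h0 : x0 ∈ I) (hy : y0 ∈ I) (ht : F x0 y0 < t) :
    ∃ x' ∈ I, F x' y0 < t ∧ ∀ᶠ x in 𝓝 x0, x ∈ I → x ≤ x' := by
  by_cases hx : ∃ x1 ∈ I, x0 < x1
  · obtain ⟨x1, h1, h01⟩ := hx
    obtain ⟨x, hx, c1, c2⟩ := key h h0 hy h1 h01 ht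
    exact ⟨x, hx, c2, (eventually_le_nhds c1).mono fun _ a _ => a⟩
  · push Not at hx
    exact ⟨x0, h0, ht, Eventually.of_forall hx⟩

theorem up2 (h : Hyp I F) {x0 y0 t : ℝ} (h0 : x0 ∈ I) (hy : y0 ∈ I) (ht : F x0 y0 < t) :
    ∀ᶠ p : ℝ × ℝ in 𝓝 (x0, y0), p.1 ∈ I → p.2 ∈ I → F p.1 p.2 < t := by
  obtain ⟨x', hx', c1, c2⟩ := up1 h h0 hy ht
  obtain ⟨y', hy', c3, c4⟩ := up1 h.swap hy hx' c1
  filter_upwards [c2.prod_nhds c4] with p hp a b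
  exact ((h.le1 a hx' b (hp.1 a)).trans (h.le2 b hy' hx' (hp.2 b))).trans_lt c3

theorem result :
    ∀ (I : Set ℝ), I.OrdConnected → ∀ F : ℝ → ℝ → ℝ,
      (∀ x ∈ I, ∀ y ∈ I, F x y ∈ I) →
      (∀ x ∈ I, F x x = x) →
      (∀ x ∈ I, ∀ y ∈ I, ∀ u ∈ I, ∀ v ∈ I,
        F (F x y) (F u v) = F (F x u) (F y v)) →
      (∀ x ∈ I, StrictMonoOn (F x) I) →
      (∀ y ∈ I, StrictMonoOn (fun x => F x y) I) →
      ContinuousOn (Function.uncurry F) (I ×ˢ I) := by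
  intro I a F b c d e f
  have h : Hyp I F := ⟨a, b, c, d, e, f⟩
  rintro ⟨x0, y0⟩ ⟨h0, hy⟩
  refine tendsto_order.2 ⟨fun t ht => ?_, fun t ht => ?_⟩
  · have h1 := up2 h.neg (x0 := -x0) (y0 := -y0) (t := -t) (by simpa using h0) (by simpa using hy)
      (by simpa using ht)
    have h2 : Tendsto (fun p : ℝ × ℝ => (-p.1, -p.2)) (𝓝 (x0, y0)) (𝓝 (-x0, -y0)) :=
      (continuous_fst.neg.prodMk continuous_snd.neg).tendsto (x0, y0)
    rw [eventually_nhdsWithin_iff]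
    filter_upwards [h2.eventually h1] with p hp hI
    have := hp (by simpa using hI.1) (by simpa using hI.2)
    simpa [Function.uncurry] using this
  · rw [eventually_nhdsWithin_iff]
    filter_upwards [up2 h h0 hy ht] with p hp hI
    exact hp hI.1 hI.2

end Pool.Agent.S05997
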