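import Pool.Statements.S06006

set_option autoImplicit false
open MeasureTheory
open Pool Pool.MP_c09e54_an

namespace Pool.Agent.S06006

/-- The negation of the preceding statement: Any two bounded Lebesgue measurable subsets of the reals of equal measure become, after deleting null sets, equidecomposable: finitely many disjoint measurable pieces of one, moved by isometries of the line, exactly tile the other. -/
theorem result :
    ¬ (∀ A B : Set ℝ, NullMeasurableSet A volume → NullMeasurableSet B volume →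
      Bornology.IsBounded A → Bornology.IsBounded B → volume A = volume B →
      ∃ E₁ E₂ : Set ℝ, volume E₁ = 0 ∧ volume E₂ = 0 ∧
        ∃ (n : ℕ) (P : Fin n → Set ℝ) (f : Fin n → ℝ → ℝ),
          (∀ i, NullMeasurableSet (P i) volume) ∧
          (∀ i, Isometry (f i)) ∧
          Pairwise (fun i j => Disjoint (P i) (P j)) ∧
          Pairwise (fun i j => Disjoint (f i '' P i) (f j '' P j)) ∧
          (⋃ i, P i) = A \ E₁ ∧
          (⋃ i, f i '' P i) = B \ E₂) := by
  intro h
  have hq : volume (Set.range ((↑) : ℚ → ℝ)) < 1 := by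
    rw [(Set.countable_range _).measure_zero]; exact zero_lt_one
  obtain ⟨U, hU1, hU2, hU3⟩ := Set.exists_isOpen_lt_of_lt _ _ hq
  have hK : IsCompact (Set.Icc (0 : ℝ) 1 \ U) := isCompact_Icc.diff hU2
  have hfin : volume (Set.Icc (0 : ℝ) 1 \ U) ≠ ⊤ := hK.measure_lt_top.ne
  have hpos : volume (Set.Icc (0 : ℝ) 1 \ U) ≠ 0 := by
    intro h0
    have h1 := measure_le_inter_add_sdiff volume (Set.Icc (0 : ℝ) 1) U
    rw [h0, add_zero, Real.volume_Icc] at h1
    have h2 := (h1.trans (measure_mono Set.inter_subset_right)).trans_lt hU3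
    simp at h2
  set K := Set.Icc (0 : ℝ) 1 \ U with hKdef
  have hm : 0 < (volume K).toReal := ENNReal.toReal_pos hpos hfin
  obtain ⟨E₁, E₂, -, h2, n, P, f, -, hf, -, -, h3, h4⟩ :=
    h K (Set.Icc 0 (volume K).toReal) hK.measurableSet.nullMeasurableSet
      measurableSet_Icc.nullMeasurableSet hK.isBounded (Metric.isBounded_Icc _ _)
      (by rw [Real.volume_Icc, sub_zero, ENNReal.ofReal_toReal hfin])
  have ho : ∀ i, IsOpen (f i '' K)ᶜ := fun i =>
    (hK.image (hf i).continuous).isClosed.isOpen_compl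
  have hd : ∀ i, Dense (f i '' K)ᶜ := by
    intro i
    rw [← interior_eq_empty_iff_dense_compl]
    by_contra hne
    obtain ⟨y, hy⟩ := Set.nonempty_iff_ne_empty.2 hne
    obtain ⟨x, -, rfl⟩ := interior_subset hy
    obtain ⟨q, hq⟩ := Rat.denseRange_cast.exists_mem_open
      (isOpen_interior.preimage (hf i).continuous) ⟨x, hy⟩
    obtain ⟨z, hz, hz'⟩ := interior_subset hq
    rw [(hf i).injective hz'] at hz
    exact hz.2 (hU1 ⟨q, rfl⟩)
  have hV : IsOpen (Set.Ioo 0 (volume K).toReal ∩ ⋂ i, (f i '' K)ᶜ) :=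
    isOpen_Ioo.inter (isOpen_iInter_of_finite ho)
  have hne := (dense_iInter_of_isOpen ho hd).inter_open_nonempty _ isOpen_Ioo
    (Set.nonempty_Ioo.2 hm)
  refine (hV.measure_pos volume hne).ne' (measure_mono_null (fun y hy => ?_) h2)
  by_contra hy'
  have h5 : y ∈ ⋃ i, f i '' P i := by
    rw [h4]; exact ⟨Set.Ioo_subset_Icc_self hy.1, hy'⟩
  obtain ⟨i, x, hx, rfl⟩ := Set.mem_iUnion.1 h5
  have h6 : x ∈ K \ E₁ := h3 ▸ Set.mem_iUnion.2 ⟨i, hx⟩
  exact Set.mem_iInter.1 hy.2 i ⟨x, h6.1, rfl⟩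

end Pool.Agent.S06006
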