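import Pool.Statements.S06028
import Pool.Agent.H.MP_c1f8f0_an.C

set_option autoImplicit false
open Pool Pool.MP_c1f8f0_an

namespace Pool.Agent.S06028

theorem result :
    ¬ (∀ w σ : ℂ → ℝ,
    ((∀ z ∈ Metric.ball (0:ℂ) 1, 0 ≤ w z) ∧ UpperSemicontinuousOn w (Metric.ball (0:ℂ) 1) ∧
      ∀ z : ℂ, ∀ r : ℝ, 0 < r → Metric.closedBall z r ⊆ Metric.ball (0:ℂ) 1 →
        w z ≤ (2 * Real.pi)⁻¹ *
          ∫ θ in (0:ℝ)..2 * Real.pi, w (z + (r:ℂ) * Complex.exp ((θ:ℂ) * Complex.I))) →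
    ((∀ z ∈ Metric.ball (0:ℂ) 1, 0 ≤ σ z) ∧ UpperSemicontinuousOn σ (Metric.ball (0:ℂ) 1) ∧
      ∀ z : ℂ, ∀ r : ℝ, 0 < r → Metric.closedBall z r ⊆ Metric.ball (0:ℂ) 1 →
        σ z ≤ (2 * Real.pi)⁻¹ *
          ∫ θ in (0:ℝ)..2 * Real.pi, σ (z + (r:ℂ) * Complex.exp ((θ:ℂ) * Complex.I))) →
    ((∃ C : NNReal, ∀ f : ℂ → ℂ, Measurable f → (∃ M : ℝ, ∀ z, ‖f z‖ ≤ M) →
        (∃ s : ℝ, s < 1 ∧ ∀ z : ℂ, s < ‖z‖ → f z = 0) →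
        ∫⁻ z in Metric.ball (0:ℂ) 1,
            ‖∫ ζ in Metric.ball (0:ℂ) 1,
                f ζ * (σ ζ : ℂ) / (1 - z * starRingEnd ℂ ζ) ^ 2‖ₑ ^ 2 * ENNReal.ofReal (w z)
          ≤ (C : ENNReal) * ∫⁻ ζ in Metric.ball (0:ℂ) 1, ‖f ζ‖ₑ ^ 2 * ENNReal.ofReal (σ ζ)) ↔
     (∃ C : NNReal, ∀ f : ℂ → ℂ, Measurable f → (∃ M : ℝ, ∀ z, ‖f z‖ ≤ M) →
        (∃ s : ℝ, s < 1 ∧ ∀ z : ℂ, s < ‖z‖ → f z = 0) →
        ∫⁻ z in Metric.ball (0:ℂ) 1,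
            (∫⁻ ζ in Metric.ball (0:ℂ) 1,
                ‖f ζ‖ₑ * ENNReal.ofReal (σ ζ) / ‖1 - z * starRingEnd ℂ ζ‖ₑ ^ 2) ^ 2
              * ENNReal.ofReal (w z)
          ≤ (C : ENNReal) * ∫⁻ ζ in Metric.ball (0:ℂ) 1, ‖f ζ‖ₑ ^ 2 * ENNReal.ofReal (σ ζ)))) := by
  intro H
  open Pool.Agent.H.MP_c1f8f0_an in
  refine notPlus sig_meas (fun _ _ => le_rfl) (u := w) (fun z hz => ?_)
    ((H w sig ⟨fun z hz => div_nonneg (sub_nonneg.2 (sq_lt hz).le) (by positivity),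
      w_cont.upperSemicontinuousOn, w_sub⟩ ⟨fun z _ => phi_nonneg _,
      sig_cont.upperSemicontinuousOn, sig_sub⟩).1 (bdd.imp fun C h f a b _ => h f a b))
  have z1 := mem_ball_zero_iff.1 hz
  have a := Pool.Agent.H.MP_c1f8f0_an.one_add_ne z
  have b := norm_add_le 1 z
  rw [norm_one] at b
  exact div_le_div_of_nonneg_left (sub_nonneg.2 (Pool.Agent.H.MP_c1f8f0_an.sq_lt hz).le)
    (pow_pos (by linarith) 2) (by nlinarith [norm_nonneg (1 + z)])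

end Pool.Agent.S06028
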