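import Pool.Statements.S06033
import Pool.Agent.H.MP_c2be6c_an.D

set_option autoImplicit false
open Pool Pool.MP_c2be6c_an

namespace Pool.Agent.S06033

theorem result :
  ∃ (H : Type) (_ : NormedAddCommGroup H) (_ : InnerProductSpace ℂ H) (_ : CompleteSpace H)
    (E : Set (Submodule ℂ H)),
    (∀ M ∈ E, IsClosed (M : Set H)) ∧
    (⊥ : Submodule ℂ H) ∈ E ∧ (⊤ : Submodule ℂ H) ∈ E ∧
    (∀ A ∈ E, ∀ B ∈ E, A ⊓ B ∈ E) ∧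
    (∀ A ∈ E, ∀ B ∈ E, (A ⊔ B).topologicalClosure ∈ E) ∧
    (∀ A ∈ E, ∀ B ∈ E, ∀ C ∈ E,
      A ⊓ (B ⊔ C).topologicalClosure = ((A ⊓ B) ⊔ (A ⊓ C)).topologicalClosure) ∧
    (∀ A ∈ E, ∃ B ∈ E, A ⊓ B = ⊥ ∧ (A ⊔ B).topologicalClosure = ⊤) ∧
    (∀ S ⊆ E, ∃ M ∈ E, (∀ N ∈ S, N ≤ M) ∧ ∀ M' ∈ E, (∀ N ∈ S, N ≤ M') → M ≤ M') ∧
    (∀ M : Submodule ℂ H, IsClosed (M : Set H) →
      (∀ s : Finset H, ∀ ε : ℝ, 0 < ε → ∃ N ∈ E, ∀ x ∈ s, ∀ y z : H,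
        y ∈ N → x - y ∈ N.orthogonal → z ∈ M → x - z ∈ M.orthogonal → ‖y - z‖ < ε) →
      M ∈ E) ∧
    ∃ M : Submodule ℂ H, IsClosed (M : Set H) ∧ M ∉ E ∧
      ∀ T : H →L[ℂ] H, (∀ N ∈ E, ∀ x ∈ N, T x ∈ N) → ∀ x ∈ M, T x ∈ M := by
  open Pool.Agent.H.MP_c2be6c_an MeasureTheory Set in
  refine ⟨G, inferInstance, inferInstance, inferInstance, {W | ∃ E, MeasurableSet E ∧ N E = W}, ?_, ⟨_, .univ, N1⟩,
    ⟨_, .empty, N0⟩, ?_, ?_, ?_, ?_, fun S hS => ?_, fun W c h => sc c fun s ε p => ?_, _,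
    ContinuousLinearMap.isClosed_ker _, fun ⟨E, a, b⟩ => ne a b, fun A h x => inv A fun E a => h _ ⟨E, a, rfl⟩⟩
  · rintro _ ⟨E, -, rfl⟩
    exact Nc E
  · rintro _ ⟨E, a, rfl⟩ _ ⟨F, b, rfl⟩
    exact ⟨_, a.union b, (Ni a b).symm⟩
  · rintro _ ⟨E, a, rfl⟩ _ ⟨F, b, rfl⟩
    exact ⟨_, a.inter b, (Ns a b).symm⟩
  · rintro _ ⟨E, a, rfl⟩ _ ⟨F, b, rfl⟩ _ ⟨D, c, rfl⟩
    rw [Ns b c, Ni a (b.inter c), Ni a b, Ni a c, Ns (a.union b) (a.union c), union_inter_distrib_left]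
  · rintro _ ⟨E, a, rfl⟩
    exact ⟨_, ⟨_, a.compl, rfl⟩, by rw [Ni a a.compl, union_compl_self, N1], by rw [Ns a a.compl, inter_compl_self, N0]⟩
  · obtain ⟨D, a, b, c⟩ := Measure.exists_ae_subset_biUnion_countable mu
      (C := {E | MeasurableSet E ∧ ∀ W ∈ S, W ≤ N E}) fun _ h => h.1
    have d := MeasurableSet.sUnion b fun _ h => (a h).1
    refine ⟨_, ⟨_, d, rfl⟩, fun W p => ?_, ?_⟩
    · obtain ⟨F, q, rfl⟩ := hS p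
      refine (Nle d q).2 ?_
      filter_upwards [(ae_ball_iff b).2 fun E r => (Nle (a r).1 q).1 ((a r).2 _ p)] with x r ⟨E, u, v⟩ using r E u v
    rintro _ ⟨F, q, rfl⟩ r
    exact (Nle q d).2 (c F ⟨q, r⟩)
  obtain ⟨_, ⟨E, a, rfl⟩, b⟩ := h s ε p
  exact ⟨E, a, b⟩

end Pool.Agent.S06033
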