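import Pool.Statements.S06045
import Pool.Agent.H.MP_c3b115_an.F

set_option autoImplicit false
open Filter Topology
open Pool Pool.MP_c3b115_an

namespace Pool.Agent.S06045

theorem result :
    ∃ (c t : ℕ → ℂ), (∀ n, t n ≠ 0) ∧ Tendsto t atTop (cocompact ℂ) ∧
      Summable (fun n => ‖c n‖ / ‖t n‖ ^ 2) ∧
      (∀ ρ : ℝ, ∀ R : ℝ, ∃ r > R,
        r ^ ρ < ValueDistribution.characteristic
          (fun z : ℂ => ∑' n, c n / (z - t n) ^ 2) ⊤ r) ∧
      {z : ℂ | 0 < meromorphicOrderAt (fun w : ℂ => ∑' n, c n / (w - t n) ^ 2) z}.Finite := by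
  obtain ⟨c, t, -, h1, h2, h3, h4, h5⟩ := Pool.Agent.H.MP_c3b115_an.main
  exact ⟨c, t, h1, h2, h3, h4, by rw [h5]; exact Set.finite_empty⟩

end Pool.Agent.S06045
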