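import Pool.Statements.S06062
-- import your own Pool.Agent.* helpers here
import Pool.Agent.H.MP_c46510_an.B

set_option autoImplicit false
open Pool Pool.MP_c46510_an

namespace Pool.Agent.S06062

theorem result :
    ¬ (∀ ψ : ℝ → ℂ, MeasureTheory.MemLp ψ 2 MeasureTheory.volume →
    (∃ B : ℝ, B < 1 ∧ ∀ f : ℝ → ℂ, MeasureTheory.MemLp f 2 MeasureTheory.volume →
      ∀ S : Finset (ℤ × ℤ),
        ∑ p ∈ S, ‖∫ x : ℝ, f x * (starRingEnd ℂ)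
            (((Real.sqrt 2 ^ p.1 : ℝ) : ℂ) * ψ ((2 : ℝ) ^ p.1 * x - (p.2 : ℝ)))‖ ^ 2
          ≤ B * ∫ x : ℝ, ‖f x‖ ^ 2) →
    ∃ ψ' : ℝ → ℂ, MeasureTheory.MemLp ψ' 2 MeasureTheory.volume ∧
      ∀ f : ℝ → ℂ, MeasureTheory.MemLp f 2 MeasureTheory.volume →
        HasSum (fun p : ℤ × ℤ =>
            ‖∫ x : ℝ, f x * (starRingEnd ℂ)
              (((Real.sqrt 2 ^ p.1 : ℝ) : ℂ) * ψ ((2 : ℝ) ^ p.1 * x - (p.2 : ℝ)))‖ ^ 2
            + ‖∫ x : ℝ, f x * (starRingEnd ℂ)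
              (((Real.sqrt 2 ^ p.1 : ℝ) : ℂ) * ψ' ((2 : ℝ) ^ p.1 * x - (p.2 : ℝ)))‖ ^ 2)
          (∫ x : ℝ, ‖f x‖ ^ 2)) := by
  intro H
  obtain ⟨ψ, h1, h2⟩ := Pool.Agent.H.MP_c46510_an.final
  obtain ⟨ψ', m, h3⟩ := H ψ (MeasureTheory.Lp.memLp ψ) ⟨1 / 4, by norm_num, fun f hf S => by
    simp only [Pool.Agent.H.MP_c46510_an.br _ _ hf (MeasureTheory.Lp.memLp ψ),
      Pool.Agent.H.MP_c46510_an.bn hf, MeasureTheory.Lp.toLp_coeFn]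
    exact h1 _ S⟩
  refine h2 (m.toLp ψ') fun f => ?_
  have h4 := h3 f (MeasureTheory.Lp.memLp f)
  simp only [Pool.Agent.H.MP_c46510_an.br _ _ (MeasureTheory.Lp.memLp f) (MeasureTheory.Lp.memLp ψ),
    Pool.Agent.H.MP_c46510_an.br _ _ (MeasureTheory.Lp.memLp f) m,
    Pool.Agent.H.MP_c46510_an.bn (MeasureTheory.Lp.memLp f), MeasureTheory.Lp.toLp_coeFn] at h4
  exact h4

end Pool.Agent.S06062
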