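import Pool.Statements.S06070
-- import your own Pool.Agent.* helpers here
import Pool.Agent.H.MP_826cdb_an.B

set_option autoImplicit false
open Pool Pool.MP_c4dd1f_an

namespace Pool.Agent.S06070

theorem result :
    ¬ (∀ (X : Type) [NormedAddCommGroup X] [NormedSpace ℝ X] [CompleteSpace X]
      (A : X → Set (X →L[ℝ] ℝ)),
      (∀ (x y : X) (xs ys : X →L[ℝ] ℝ), xs ∈ A x → ys ∈ A y → 0 ≤ (xs - ys) (x - y)) →
      (∀ (x : X) (xs : X →L[ℝ] ℝ),
          (∀ (y : X) (ys : X →L[ℝ] ℝ), ys ∈ A y → 0 ≤ (xs - ys) (x - y)) → xs ∈ A x) →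
      Convex ℝ (closure {x : X | (A x).Nonempty})) := by
  obtain ⟨X, _, _, _, G, l, z, κ, hm, hx, hz, hκ, ⟨a, ha, ha0⟩, ⟨b, hb, hb1⟩, hG⟩ :=
    Pool.Agent.H.MP_826cdb_an.ex1
  have hn : ∀ f, (z, f) ∉ G := fun f hf => by
    rcases hG _ hf with h | h <;> linarith [h.1]
  intro h
  have h1 := h X (fun x => {f | (x, f) ∈ G}) (fun x y f g hf hg => hm _ hf _ hg)
    (fun x f hf => hx _ fun q hq => hf _ _ hq) (subset_closure ⟨a.2, ha⟩) (subset_closure ⟨b.2, hb⟩)
    (show (0 : ℝ) ≤ 1 / 2 by norm_num) (show (0 : ℝ) ≤ 1 / 2 by norm_num) (by norm_num)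
  have h2 := closure_minimal (t := {x | l x = 0} ∪ {x | l x = 1}) (by
    rintro x ⟨f, hf⟩
    exact (hG _ hf).imp And.left And.left)
    ((isClosed_eq l.continuous continuous_const).union (isClosed_eq l.continuous continuous_const)) h1
  simp only [Set.mem_union, Set.mem_setOf_eq, map_add, map_smul, ha0, hb1] at h2
  norm_num at h2

end Pool.Agent.S06070
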