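import Pool.Statements.S06071
import Pool.Agent.H.MP_c4f5bb_an.A

set_option autoImplicit false
open Pool Pool.MP_c4f5bb_an

namespace Pool.Agent.S06071

theorem result :
    ∀ (X : Type) [NormedAddCommGroup X] [NormedSpace ℝ X] [CompleteSpace X] (n : ℕ), 2 ≤ n →
      ∃ (r : Set X → Set X) (L : ℝ),
        (∀ S : Set X, S.Nonempty → S.Finite → S.ncard ≤ n →
          (r S).Nonempty ∧ (r S).Finite ∧ (r S).ncard ≤ n - 1) ∧
        (∀ S : Set X, S.Nonempty → S.Finite → S.ncard ≤ n - 1 → r S = S) ∧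
        (∀ S T : Set X, S.Nonempty → S.Finite → S.ncard ≤ n →
          T.Nonempty → T.Finite → T.ncard ≤ n →
          Metric.hausdorffDist (r S) (r T) ≤ L * Metric.hausdorffDist S T) := by
  intro X _ _ _ n hn
  refine ⟨Pool.Agent.H.MP_c4f5bb_an.ret n, 1 + 48 * n ^ 2 * (n + 1),
    fun S h1 h2 h3 => Pool.Agent.H.MP_c4f5bb_an.ret_card hn h1 h2 h3,
    fun S _ _ h3 => Pool.Agent.H.MP_c4f5bb_an.ret_of_ne (by omega),
    fun S T h1 h2 h3 g1 g2 g3 => Pool.Agent.H.MP_c4f5bb_an.ret_lip hn h1 h2 h3 g1 g2 g3⟩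

end Pool.Agent.S06071
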