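import Pool.Statements.S06082

set_option autoImplicit false
open scoped ENNReal
open Pool Pool.MP_c5b4b2_an

namespace Pool.Agent.S06082

instance fact4 : Fact (1 ≤ (4 : ℝ≥0∞)) := ⟨by norm_num⟩

/-- the space -/
abbrev E : Type := PiLp (4 : ℝ≥0∞) (fun _ : Fin 2 => ℂ)

theorem norm4 (x : E) : ‖x‖ ^ 4 = ‖x 0‖ ^ 4 + ‖x 1‖ ^ 4 := by
  rw [PiLp.norm_eq_of_nat 4 (by norm_num), Fin.sum_univ_two, one_div]
  exact Real.rpow_inv_natCast_pow (by positivity) (by norm_num)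

theorem nsq (a b : ℂ) (t : ℝ) :
    ‖a + (t : ℂ) * b‖ ^ 2 = ‖a‖ ^ 2 + 2 * t * ((starRingEnd ℂ) a * b).re + t ^ 2 * ‖b‖ ^ 2 := by
  simp only [Complex.sq_norm, Complex.normSq_apply, Complex.add_re, Complex.add_im, Complex.mul_re,
    Complex.mul_im, Complex.ofReal_re, Complex.ofReal_im, Complex.conj_re, Complex.conj_im]
  ring

theorem re_eq (x : E) (f : E →L[ℂ] ℂ) (hx : ‖x‖ = 1) (hf : ‖f‖ = 1) (hfx : f x = 1) (y : E) :
    (f y).re = ‖x 0‖ ^ 2 * ((starRingEnd ℂ) (x 0) * y 0).re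
      + ‖x 1‖ ^ 2 * ((starRingEnd ℂ) (x 1) * y 1).re := by
  set A0 := ‖x 0‖ ^ 2 with hA0
  set A1 := ‖x 1‖ ^ 2 with hA1
  set B0 := ((starRingEnd ℂ) (x 0) * y 0).re with hB0
  set B1 := ((starRingEnd ℂ) (x 1) * y 1).re with hB1
  set C0 := ‖y 0‖ ^ 2 with hC0
  set C1 := ‖y 1‖ ^ 2 with hC1
  set r := (f y).re with hr
  have h1 : A0 ^ 2 + A1 ^ 2 = 1 := by
    have := norm4 x
    rw [hx] at this
    rw [hA0, hA1]; linarith
  let g : ℝ → ℝ := fun t => (A0 + 2 * t * B0 + t ^ 2 * C0) ^ 2 + (A1 + 2 * t * B1 + t ^ 2 * C1) ^ 2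
    - (1 + t * r) ^ 4
  have hg : ∀ t, 0 ≤ g t := by
    intro t
    have e1 := norm4 (x + (t : ℂ) • y)
    have e0 : (x + (t : ℂ) • y) 0 = x 0 + (t : ℂ) * y 0 := by simp
    have e0' : (x + (t : ℂ) • y) 1 = x 1 + (t : ℂ) * y 1 := by simp
    rw [e0, e0'] at e1
    have e2 := nsq (x 0) (y 0) t
    have e3 := nsq (x 1) (y 1) t
    have e4 : |1 + t * r| ≤ ‖x + (t : ℂ) • y‖ := by
      have a1 := f.le_opNorm (x + (t : ℂ) • y)
      rw [hf, one_mul] at a1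
      have a2 : (f (x + (t : ℂ) • y)).re = 1 + t * r := by
        rw [map_add, map_smul, hfx]; simp [hr]
      rw [← a2]
      exact (Complex.abs_re_le_norm _).trans a1
    have e5 : (1 + t * r) ^ 4 ≤ ‖x + (t : ℂ) • y‖ ^ 4 := by
      rw [← (by decide : Even 4).pow_abs]
      exact pow_le_pow_left₀ (abs_nonneg _) e4 4
    have e6 : ‖x 0 + (t : ℂ) * y 0‖ ^ 4 = (A0 + 2 * t * B0 + t ^ 2 * C0) ^ 2 := by
      rw [← e2]; ring
    have e7 : ‖x 1 + (t : ℂ) * y 1‖ ^ 4 = (A1 + 2 * t * B1 + t ^ 2 * C1) ^ 2 := by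
      rw [← e3]; ring
    simp only [g]; linarith
  have hg0 : g 0 = 0 := by simp only [g]; linarith
  have hmin : IsLocalMin g 0 := Filter.Eventually.of_forall (fun t => by rw [hg0]; exact hg t)
  have hd : HasDerivAt g (4 * A0 * B0 + 4 * A1 * B1 - 4 * r) 0 := by
    have i := hasDerivAt_id (0 : ℝ)
    have d0 := ((((i.const_mul 2).mul_const B0).const_add A0).add ((i.pow 2).mul_const C0)).pow 2
    have d1 := ((((i.const_mul 2).mul_const B1).const_add A1).add ((i.pow 2).mul_const C1)).pow 2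
    have d2 := ((i.mul_const r).const_add 1).pow 4
    exact ((d0.add d1).sub d2).congr_deriv (by simp; ring)
  have := hmin.hasDerivAt_eq_zero hd
  linarith

theorem f_eq (x : E) (f : E →L[ℂ] ℂ) (hx : ‖x‖ = 1) (hf : ‖f‖ = 1) (hfx : f x = 1) (y : E) :
    f y = ((‖x 0‖ ^ 2 : ℝ) : ℂ) * ((starRingEnd ℂ) (x 0) * y 0)
      + ((‖x 1‖ ^ 2 : ℝ) : ℂ) * ((starRingEnd ℂ) (x 1) * y 1) := by
  have h1 := re_eq x f hx hf hfx y
  have h2 := re_eq x f hx hf hfx (Complex.I • y)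
  rw [map_smul] at h2
  apply Complex.ext
  · rw [h1, Complex.add_re, Complex.re_ofReal_mul, Complex.re_ofReal_mul]
  · rw [Complex.add_im, Complex.im_ofReal_mul, Complex.im_ofReal_mul]
    simp only [smul_eq_mul, PiLp.smul_apply, Complex.mul_re, Complex.mul_im, Complex.I_re,
      Complex.I_im, Complex.conj_re, Complex.conj_im] at h2 ⊢
    linarith

/-- the operator -/
noncomputable def T0 : E →ₗ[ℂ] E where
  toFun x := WithLp.toLp 4 ![x 0 + 36 * x 1, -3 * x 1]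
  map_add' x y := by
    ext i; fin_cases i <;> simp <;> ring
  map_smul' c x := by
    ext i; fin_cases i <;> simp <;> ring

/-- the operator, continuous -/
noncomputable def T : E →L[ℂ] E := LinearMap.toContinuousLinearMap T0

theorem T_0 (x : E) : T x 0 = x 0 + 36 * x 1 := rfl
theorem T_1 (x : E) : T x 1 = -3 * x 1 := rfl

theorem poly1 (s t : ℝ) (hs : 0 ≤ s) (ht : 0 ≤ t) (h : s ^ 4 + t ^ 4 = 1) :
    |s ^ 4 - 3 * t ^ 4| + 36 * s ^ 3 * t ≤ 2062 / 100 := by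
  have k : ∀ l : ℝ, 0 ≤ l → 4 * l ^ 3 * s ^ 3 * t ≤ 3 * l ^ 4 * s ^ 4 + t ^ 4 := by
    intro l hl
    have : 0 ≤ (l * s - t) ^ 2 * (3 * l ^ 2 * s ^ 2 + 2 * l * s * t + t ^ 2) := by positivity
    nlinarith
  have k1 := k (726 / 1000) (by norm_num)
  have k2 := k (8 / 10) (by norm_num)
  have hs4 : 0 ≤ s ^ 4 := by positivity
  have ht4 : 0 ≤ t ^ 4 := by positivity
  rcases abs_cases (s ^ 4 - 3 * t ^ 4) with ⟨h1, _⟩ | ⟨h1, _⟩ <;> rw [h1] <;> linarith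

theorem radius (x : E) (f : E →L[ℂ] ℂ) (hx : ‖x‖ = 1) (hf : ‖f‖ = 1) (hfx : f x = 1) :
    ‖f (T x)‖ ≤ 2062 / 100 := by
  have h1 := f_eq x f hx hf hfx (T x)
  have h4 := norm4 x
  rw [hx] at h4
  have h2 : f (T x) = ((‖x 0‖ ^ 4 - 3 * ‖x 1‖ ^ 4 : ℝ) : ℂ)
      + 36 * ((‖x 0‖ ^ 2 : ℝ) : ℂ) * ((starRingEnd ℂ) (x 0) * x 1) := by
    rw [h1, T_0, T_1]
    have a0 : (starRingEnd ℂ) (x 0) * x 0 = ((‖x 0‖ ^ 2 : ℝ) : ℂ) := by
      rw [Complex.conj_mul']; push_cast; ring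
    have a1 : (starRingEnd ℂ) (x 1) * x 1 = ((‖x 1‖ ^ 2 : ℝ) : ℂ) := by
      rw [Complex.conj_mul']; push_cast; ring
    push_cast at a0 a1 ⊢
    linear_combination (‖x 0‖ : ℂ) ^ 2 * a0 - 3 * (‖x 1‖ : ℂ) ^ 2 * a1
  rw [h2]
  refine (norm_add_le _ _).trans ?_
  have h3 := poly1 ‖x 0‖ ‖x 1‖ (norm_nonneg _) (norm_nonneg _) (by linarith)
  rw [Complex.norm_real, Real.norm_eq_abs, norm_mul, norm_mul, norm_mul, Complex.norm_real,
    Complex.norm_conj, Real.norm_of_nonneg (by positivity)]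
  have : ‖(36 : ℂ)‖ = 36 := by simp
  rw [this]
  linarith

theorem norm_T : 3622 / 100 ≤ ‖T‖ := by
  let x : E := WithLp.toLp 4 ![3, 10]
  have h1 : ‖x‖ ^ 4 = 10081 := by
    rw [norm4]; simp [x]; norm_num
  have h2 : ‖T x‖ ^ 4 = 363 ^ 4 + 30 ^ 4 := by
    rw [norm4, T_0, T_1]
    have a : x 0 + 36 * x 1 = 363 := by simp [x]; norm_num
    have b : -3 * x 1 = -30 := by simp [x]; norm_num
    rw [a, b]; simp
  have h3 := pow_le_pow_left₀ (norm_nonneg _) (T.le_opNorm x) 4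
  rw [mul_pow, h1, h2] at h3
  by_contra hlt
  push Not at hlt
  have h4 := pow_le_pow_left₀ (norm_nonneg _) hlt.le 4
  norm_num at h3 h4
  linarith

theorem rhs : (4 : ℝ) ^ (1 / 4 : ℝ) * (4 / (4 - 1) : ℝ) ^ ((4 - 1) / 4 : ℝ) ≤ 17548 / 10000 := by
  have h1 : ((4 : ℝ) ^ (1 / 4 : ℝ)) ^ 4 = 4 := by
    rw [← Real.rpow_natCast, ← Real.rpow_mul (by norm_num)]; norm_num
  have h2 : ((4 / (4 - 1) : ℝ) ^ ((4 - 1) / 4 : ℝ)) ^ 4 = (4 / 3) ^ 3 := by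
    rw [← Real.rpow_natCast, ← Real.rpow_mul (by norm_num)]; norm_num
  apply le_of_pow_le_pow_left₀ (n := 4) (by norm_num) (by norm_num)
  rw [mul_pow, h1, h2]; norm_num

theorem result :
    ¬ (∀ (p : ℝ≥0∞) [Fact (1 ≤ p)], 1 < p → p ≠ ⊤ →
      sInf {c : ℝ | ∃ T : PiLp p (fun _ : Fin 2 => ℂ) →L[ℂ] PiLp p (fun _ : Fin 2 => ℂ),
          ‖T‖ = 1 ∧
          c = sSup {s : ℝ | ∃ (x : PiLp p (fun _ : Fin 2 => ℂ))
                (f : PiLp p (fun _ : Fin 2 => ℂ) →L[ℂ] ℂ),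
                ‖x‖ = 1 ∧ ‖f‖ = 1 ∧ f x = 1 ∧ s = ‖f (T x)‖}}
        = 1 / (p.toReal ^ (1 / p.toReal) *
            (p.toReal / (p.toReal - 1)) ^ ((p.toReal - 1) / p.toReal))) := by
  intro h
  have h4 := h 4 (by norm_num) (by norm_num)
  have ht : (4 : ℝ≥0∞).toReal = 4 := by norm_num
  rw [ht] at h4
  have hN := norm_T
  have hpos : 0 < ‖T‖ := by linarith
  let S : E →L[ℂ] E := ((‖T‖⁻¹ : ℝ) : ℂ) • T
  have hS : ‖S‖ = 1 := by
    simp only [S]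
    rw [norm_smul, Complex.norm_real, Real.norm_of_nonneg (by positivity)]
    field_simp
  have hle : sInf {c : ℝ | ∃ T : E →L[ℂ] E, ‖T‖ = 1 ∧
          c = sSup {s : ℝ | ∃ (x : E) (f : E →L[ℂ] ℂ),
                ‖x‖ = 1 ∧ ‖f‖ = 1 ∧ f x = 1 ∧ s = ‖f (T x)‖}} ≤ 2062 / 3622 := by
    refine csInf_le_of_le (b := sSup {s : ℝ | ∃ (x : E) (f : E →L[ℂ] ℂ),
                ‖x‖ = 1 ∧ ‖f‖ = 1 ∧ f x = 1 ∧ s = ‖f (S x)‖}) ⟨0, ?_⟩ ⟨S, hS, rfl⟩ ?_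
    · rintro c ⟨T', _, rfl⟩
      apply Real.sSup_nonneg
      rintro s ⟨x, f, _, _, _, rfl⟩
      exact norm_nonneg _
    · apply Real.sSup_le _ (by norm_num)
      rintro s ⟨x, f, hx, hf, hfx, rfl⟩
      have h1 := radius x f hx hf hfx
      have h2 : f (S x) = ((‖T‖⁻¹ : ℝ) : ℂ) * f (T x) := by simp [S]
      rw [h2, norm_mul, Complex.norm_real, Real.norm_of_nonneg (by positivity), inv_mul_le_iff₀ hpos]
      linarith
  rw [h4] at hle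
  have h5 := rhs
  have h6 : 0 < (4 : ℝ) ^ (1 / 4 : ℝ) * (4 / (4 - 1) : ℝ) ^ ((4 - 1) / 4 : ℝ) := by positivity
  rw [div_le_iff₀ h6] at hle
  linarith

end Pool.Agent.S06082
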