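import Pool.Statements.S06096
import Pool.Agent.H.MP_15aca8.G
import Pool.Agent.H.MP_15aca8.F

set_option autoImplicit false
open Filter Topology
open Pool Pool.MP_c718d4_an

namespace Pool.Agent.S06096

theorem result :
    ¬ (∀ (X : Type) [NormedAddCommGroup X] [NormedSpace ℝ X] [CompleteSpace X],
      (∀ Y : Submodule ℝ X, TopologicalSpace.SeparableSpace (↥Y) →
          TopologicalSpace.SeparableSpace (↥Y →L[ℝ] ℝ)) →
      (∃ p : Seminorm ℝ X,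
          (∃ c C : ℝ, 0 < c ∧ 0 < C ∧ ∀ x : X, c * ‖x‖ ≤ p x ∧ p x ≤ C * ‖x‖) ∧
          ∀ x y : X, p x = 1 → p y = 1 → x ≠ y → p (x + y) < 2) →
      ∃ q : Seminorm ℝ X,
        (∃ c C : ℝ, 0 < c ∧ 0 < C ∧ ∀ x : X, c * ‖x‖ ≤ q x ∧ q x ≤ C * ‖x‖) ∧
        ∀ x : X, q x = 1 → ∀ u : ℕ → X, (∀ n, q (u n) ≤ 1) →
          Tendsto (fun n => q (x + u n)) atTop (𝓝 1) →
          Tendsto (fun n => q (x - u n)) atTop (𝓝 1) →
          Tendsto (fun n => q (u n)) atTop (𝓝 0)) := by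
  intro h
  obtain ⟨N, n1, n2, n3, n4⟩ := H.MP_15aca8.day H.MP_15aca8.fn_bd
    (fun x _ hε => H.MP_15aca8.fn_fin x hε) H.MP_15aca8.fn_inj
  obtain ⟨q, ⟨c, C, hc, hC, h1⟩, h2⟩ := h C(H.MP_15aca8.K1, ℝ)
    (H.MP_15aca8.asplund H.MP_15aca8.o1 H.MP_15aca8.count1) ⟨Seminorm.of N n1 n2, n3, n4⟩
  obtain ⟨x, hx⟩ := H.MP_15aca8.nomlur q hc hC h1
  choose y y1 y2 y3 using hx
  have t0 : Tendsto (fun i : ℕ => 1 / ((i : ℝ) + 1)) atTop (𝓝 0) :=
    tendsto_one_div_add_atTop_nhds_zero_nat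
  have two : ∀ u v, 2 * q v ≤ q (u + v) + q (u - v) := fun u v => by
    have := map_sub_le_add q (u + v) (u - v)
    rwa [show u + v - (u - v) = (2 : ℝ) • v by module, map_smul_eq_mul, Real.norm_two] at this
  have a1 : ∀ i, q (y i) ≤ q x + 1 / (i + 1) := fun i => by linarith [two x (y i), y2 i, y3 i]
  have a2 : 0 < q x := (half_pos hc).trans_le (by
    simpa using ge_of_tendsto' (t0.const_add (q x)) fun i => (y1 i).trans (a1 i))
  have up : ∀ (v) (e : ℝ), q (x + v) ≤ q x + e → 0 ≤ e →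
      q ((q x)⁻¹ • x + (q x + 1)⁻¹ • v) ≤ 1 + (q x)⁻¹ * e := fun v e h1 h2 => by
    have b : (q x)⁻¹ • x + (q x + 1)⁻¹ • v =
        ((q x)⁻¹ - (q x + 1)⁻¹) • x + (q x + 1)⁻¹ • (x + v) := by module
    have b1 : (q x + 1)⁻¹ ≤ (q x)⁻¹ := inv_anti₀ a2 (by linarith)
    have b2 : 0 < (q x + 1)⁻¹ := by positivity
    rw [b]
    refine (map_add_le_add q _ _).trans ?_
    rw [map_smul_eq_mul, map_smul_eq_mul, Real.norm_of_nonneg (sub_nonneg.2 b1),
      Real.norm_of_nonneg b2.le]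
    have b3 := inv_mul_cancel₀ a2.ne'
    nlinarith [mul_le_mul_of_nonneg_left h1 b2.le, mul_le_mul_of_nonneg_right b1 h2]
  have e1 : q ((q x)⁻¹ • x) = 1 := by
    rw [map_smul_eq_mul, Real.norm_of_nonneg (inv_pos.2 a2).le, inv_mul_cancel₀ a2.ne']
  have u1 := fun i => up (y i) _ (y2 i) (by positivity)
  have u2 := fun i => up (-y i) _ (by rw [← sub_eq_add_neg]; exact y3 i) (by positivity)
  simp only [smul_neg, ← sub_eq_add_neg] at u2
  have u3 : ∀ i, 2 ≤ q ((q x)⁻¹ • x + (q x + 1)⁻¹ • y i) + q ((q x)⁻¹ • x - (q x + 1)⁻¹ • y i) :=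
    fun i => by
      have := map_add_le_add q ((q x)⁻¹ • x + (q x + 1)⁻¹ • y i) ((q x)⁻¹ • x - (q x + 1)⁻¹ • y i)
      rwa [add_add_sub_cancel, ← two_smul ℝ, map_smul_eq_mul, e1, Real.norm_two, mul_one] at this
  have t1 : Tendsto (fun i : ℕ => 1 + (q x)⁻¹ * (1 / ((i : ℝ) + 1))) atTop (𝓝 1) := by
    simpa using (t0.const_mul (q x)⁻¹).const_add 1
  have t2 : Tendsto (fun i : ℕ => 1 - (q x)⁻¹ * (1 / ((i : ℝ) + 1))) atTop (𝓝 1) := by
    simpa using (t0.const_mul (q x)⁻¹).const_sub 1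
  have e2 : ∀ i, q ((q x + 1)⁻¹ • y i) = (q x + 1)⁻¹ * q (y i) := fun i => by
    rw [map_smul_eq_mul, Real.norm_of_nonneg (by positivity)]
  have := h2 _ e1 (fun i => (q x + 1)⁻¹ • y i) (fun i => by
      rw [e2, inv_mul_le_iff₀ (by positivity), mul_one]
      refine (a1 i).trans (add_le_add le_rfl ?_)
      rw [div_le_one (by positivity)]
      linarith [(Nat.cast_nonneg i : (0 : ℝ) ≤ i)])
    (tendsto_of_tendsto_of_tendsto_of_le_of_le t2 t1 (fun i => by linarith [u2 i, u3 i]) u1)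
    (tendsto_of_tendsto_of_tendsto_of_le_of_le t2 t1 (fun i => by linarith [u1 i, u3 i]) u2)
  have a3 : 0 < (q x + 1)⁻¹ * (c / 2) := by positivity
  refine absurd (ge_of_tendsto' this fun i => ?_) (not_le.2 a3)
  rw [e2]
  exact mul_le_mul_of_nonneg_left (y1 i) (by positivity)

end Pool.Agent.S06096
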