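import Pool.Statements.S06121
import Pool.Agent.H.MP_c8dc36_an.Main

set_option autoImplicit false
open Pool Pool.MP_c8dc36_an

namespace Pool.Agent.S06121

theorem result :
    ∀ (A₁ A₂ : Type) [NonUnitalCStarAlgebra A₁] [PartialOrder A₁] [StarOrderedRing A₁]
      [NonUnitalCStarAlgebra A₂] [PartialOrder A₂] [StarOrderedRing A₂] (T : A₁ → A₂),
      (∀ a : A₁, 0 ≤ a → 0 ≤ T a) →
      (∀ b : A₂, 0 ≤ b → ∃ a : A₁, 0 ≤ a ∧ T a = b) →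
      (∀ f g : A₁, 0 ≤ f → 0 ≤ g → ‖T f + T g‖ = ‖T (f + g)‖) →
      ∀ f g : A₁, 0 ≤ f → 0 ≤ g → T (f + g) = T f + T g := by
  intro A₁ A₂ _ _ _ _ _ _ T hpos hsurj hT f g hf hg
  have := Pool.Agent.H.MP_c8dc36_an.main (A := A₂) (B := AddSubmonoid.nonneg A₁)
    (fun a => ⟨T a.1, hpos a.1 a.2⟩)
    (fun b => by
      obtain ⟨a, ha, hb⟩ := hsurj b.1 b.2
      exact ⟨⟨a, ha⟩, Subtype.ext hb⟩)
    (fun a b => hT a.1 b.1 a.2 b.2) ⟨f, hf⟩ ⟨g, hg⟩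
  exact congrArg Subtype.val this

end Pool.Agent.S06121
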