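import Pool.Statements.S06128
import Pool.Agent.H.MP_c979e5_an.A

set_option autoImplicit false
open Pool Pool.MP_c979e5_an

namespace Pool.Agent.S06128

theorem result :
    ¬ (∀ N : ℕ, 1 ≤ N →
    (∀ p : Polynomial ℂ, p.natDegree = N → p.coeff 0 = 0 → p.coeff 1 = 1 →
        Set.InjOn (fun z => p.eval z) (Metric.ball (0 : ℂ) 1) →
        Metric.ball (0 : ℂ) (1 / (4 * Real.cos (Real.pi / ((N : ℝ) + 2)) ^ 2)) ⊆
          (fun z => p.eval z) '' Metric.ball (0 : ℂ) 1) ∧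
    (∀ p : Polynomial ℂ,
      (p.natDegree = N ∧ p.coeff 0 = 0 ∧ p.coeff 1 = 1 ∧
        Set.InjOn (fun z => p.eval z) (Metric.ball (0 : ℂ) 1) ∧
        Metric.ball (0 : ℂ) (1 / (4 * Real.cos (Real.pi / ((N : ℝ) + 2)) ^ 2)) ⊆
          (fun z => p.eval z) '' Metric.ball (0 : ℂ) 1 ∧
        ∀ r : ℝ, 1 / (4 * Real.cos (Real.pi / ((N : ℝ) + 2)) ^ 2) < r →
          ¬ (Metric.ball (0 : ℂ) r ⊆ (fun z => p.eval z) '' Metric.ball (0 : ℂ) 1))
      ↔
      ∃ α : ℝ, ∀ z : ℂ, p.eval z =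
        Complex.exp (-((α : ℂ) * Complex.I)) *
          ∑ j ∈ Finset.Icc 1 N,
            (((Polynomial.derivative (Polynomial.Chebyshev.U ℝ ((N : ℤ) - (j : ℤ) + 1))).eval
                  (Real.cos (Real.pi / ((N : ℝ) + 2))) *
                (Polynomial.Chebyshev.U ℝ ((j : ℤ) - 1)).eval
                  (Real.cos (Real.pi / ((N : ℝ) + 2))) /
                (Polynomial.derivative (Polynomial.Chebyshev.U ℝ (N : ℤ))).eval
                  (Real.cos (Real.pi / ((N : ℝ) + 2))) : ℝ) : ℂ) *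
              (z * Complex.exp ((α : ℂ) * Complex.I)) ^ j)) := by
  intro h
  obtain ⟨h1, h2, h3, h4, h5⟩ := Pool.Agent.H.MP_c979e5_an.main
  have h6 := (h 3 (by norm_num)).1 _ h1 h2 h3 h4
  have e : ((3 : ℕ) : ℝ) + 2 = 5 := by norm_num
  rw [e] at h6
  exact h5 h6

end Pool.Agent.S06128
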