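import Pool.Statements.S06130
import Pool.Agent.H.MP_c98abc_an.A

set_option autoImplicit false
open Pool Pool.MP_c98abc_an

namespace Pool.Agent.S06130

theorem result :
    ¬ (∀ (d : ℕ) (σ : Fin d → List (Fin d)),
    Irreducible (Matrix.of (fun i j : Fin d => (((σ j).count i : ℕ) : ℚ))).charpoly →
    (∃ r : ℝ, 1 < r ∧
      (r : ℂ) ∈ ((Matrix.of (fun i j : Fin d => (((σ j).count i : ℕ) : ℚ))).charpoly.map
        (algebraMap ℚ ℂ)).roots ∧
      ∀ z ∈ ((Matrix.of (fun i j : Fin d => (((σ j).count i : ℕ) : ℚ))).charpoly.map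
        (algebraMap ℚ ℂ)).roots, z ≠ (r : ℂ) → ‖z‖ < 1) →
    |(Matrix.of (fun i j : Fin d => (((σ j).count i : ℕ) : ℚ))).det| = 1 →
    ∀ f : (ℤ → Fin d) → ℝ, Continuous f →
      ¬ ∃ (n : ℕ → ℤ) (a b : ℝ), a < b ∧
        ∀ P Q : Finset ℕ, Disjoint P Q →
          ∃ x : ℤ → Fin d,
            (∀ m : ℤ, ∀ k : ℕ, ∃ N : ℕ, ∃ c : Fin d,
              List.IsInfix (List.ofFn (fun i : Fin k => x (m + ((i : ℕ) : ℤ))))
                ((fun w : List (Fin d) => w.flatMap σ)^[N] [c])) ∧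
            (∀ j ∈ P, f (fun t => x (t + n j)) < a) ∧
            (∀ j ∈ Q, b < f (fun t => x (t + n j)))) := by
  intro h
  refine h 2 Agent.H.PisT.sg ?_ ?_ ?_ (fun x => ((x 0 : ℕ) : ℝ))
    ((continuous_of_discreteTopology (f := fun c : Fin 2 => ((c : ℕ) : ℝ))).comp
      (continuous_apply 0)) ⟨fun j => -(Agent.H.PisT.l j : ℤ), 1 / 3, 2 / 3, by norm_num,
      fun P Q hd => ⟨Agent.H.PisT.X fun j => decide (j ∈ Q),
        fun m k => ⟨_, 0, Agent.H.PisT.legal _ m k⟩, fun j hj => ?_, fun j hj => ?_⟩⟩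
  · rw [Agent.H.PisT.mat, Agent.H.PisT.cp]; exact Agent.H.PisT.irr
  · rw [Agent.H.PisT.mat, Agent.H.PisT.cp]; exact Agent.H.PisT.pis
  · rw [Agent.H.PisT.mat]; norm_num [Matrix.det_fin_two]
  · simp [Agent.H.PisT.X_val, Finset.disjoint_left.1 hd hj]
  · simp [Agent.H.PisT.X_val, hj]
    norm_num

end Pool.Agent.S06130
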