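import Pool.Statements.S06153
import Pool.Agent.H.MP_cb17ae_an.A

set_option autoImplicit false
open Pool Pool.MP_cb17ae_an

namespace Pool.Agent.S06153

theorem result :
    ∀ (B : Type) [NormedRing B] [NormedAlgebra ℂ B] [CompleteSpace B] (φ : (ℝ → ℂ) → B),
      (∀ f g : ℝ → ℂ, ContDiff ℝ (⊤ : ℕ∞) f → ContDiff ℝ (⊤ : ℕ∞) g →
          φ (f + g) = φ f + φ g) →
      (∀ f g : ℝ → ℂ, ContDiff ℝ (⊤ : ℕ∞) f → ContDiff ℝ (⊤ : ℕ∞) g →
          φ (f * g) = φ f * φ g) →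
      (∀ (c : ℂ) (f : ℝ → ℂ), ContDiff ℝ (⊤ : ℕ∞) f → φ (c • f) = c • φ f) →
      (∀ f g : ℝ → ℂ, ContDiff ℝ (⊤ : ℕ∞) f → ContDiff ℝ (⊤ : ℕ∞) g →
          Set.EqOn f g (Set.Icc (0 : ℝ) 1) → φ f = φ g) →
      (∀ b : B, ∃ f : ℝ → ℂ, ContDiff ℝ (⊤ : ℕ∞) f ∧ φ f = b) →
      ∃ n : ℕ, ∃ C : ℝ, ∀ f : ℝ → ℂ, ContDiff ℝ (⊤ : ℕ∞) f →
        ‖φ f‖ ≤ C * ∑ k ∈ Finset.range (n + 1),
          sSup ((fun x : ℝ => ‖iteratedDeriv k f x‖) '' Set.Icc (0 : ℝ) 1) := by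
  intro B _ _ _ φ h1 h2 h3 h4 h5
  let _ : NormedCommRing B := { ‹NormedRing B› with
    mul_comm := fun a b => by
      obtain ⟨f, hf, rfl⟩ := h5 a
      obtain ⟨g, hg, rfl⟩ := h5 b
      rw [← h2 f g hf hg, ← h2 g f hg hf, mul_comm] }
  have o : φ 1 = 1 := by
    obtain ⟨f, hf, e⟩ := h5 1
    rw [← mul_one (φ 1), ← e, ← h2 1 f contDiff_const hf, one_mul]
  have cx : ContDiff ℝ (⊤ : ℕ∞) fun x : ℝ => (x : ℂ) := Complex.ofRealCLM.contDiff
  have ea : ∀ μ : ℂ, φ (fun x => x - μ) = φ (↑) - μ • 1 := fun μ => by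
    rw [sub_eq_add_neg, ← neg_smul, ← o, ← h3 _ 1 contDiff_const,
      ← h1 _ (-μ • 1) cx (contDiff_const (c := -μ • (1 : ℂ)))]
    congr 1
    ext
    simp [sub_eq_add_neg]
  have hd : ∀ l ∈ Set.Icc (0 : ℝ) 1, ∀ f g : ℝ → ℂ, ContDiff ℝ (⊤ : ℕ∞) g →
      (∀ x, f x = f l + (x - l) * g x) → φ f = f l • 1 + (φ (↑) - (l : ℂ) • 1) * φ g := by
    intro l _ f g hg e
    have := cx.sub (contDiff_const (c := (l : ℂ)))
    rw [← ea, ← o, ← h3 _ 1 contDiff_const, ← h2 _ _ this hg,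
      ← h1 (f l • 1) (_ * g) (contDiff_const (c := f l • (1 : ℂ))) (this.mul hg)]
    congr 1
    ext x
    simpa using e x
  let G : Ideal B :=
    { carrier := {b | ∃ n : ℕ, ∃ C ≥ 0, ∀ f : ℝ → ℂ, ContDiff ℝ (⊤ : ℕ∞) f → ∀ M : ℝ,
        (∀ k ≤ n, ∀ x ∈ Set.Icc (0 : ℝ) 1, ‖iteratedDeriv k f x‖ ≤ M) → ‖b * φ f‖ ≤ C * M}
      zero_mem' := ⟨0, 0, le_rfl, by simp⟩
      add_mem' := by
        rintro a b ⟨n, C, C0, h⟩ ⟨m, D, D0, k⟩
        refine ⟨n + m, C + D, by positivity, fun f hf M hM => ?_⟩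
        rw [add_mul, add_mul]
        exact norm_add_le_of_le (h f hf M fun k l => hM k (by omega))
          (k f hf M fun k l => hM k (by omega))
      smul_mem' := by
        rintro a b ⟨n, C, C0, h⟩
        refine ⟨n, ‖a‖ * C, by positivity, fun f hf M hM => ?_⟩
        rw [smul_eq_mul, mul_assoc, mul_assoc]
        exact (norm_mul_le _ _).trans (mul_le_mul_of_nonneg_left (h f hf M hM) (norm_nonneg _)) }
  have : G = ⊤ := by
    refine H.MP_cb17ae_an.top (a := φ (↑)) (fun l hl b => ?_) (fun μ hμ => ?_) G ?_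
    · obtain ⟨f, hf, rfl⟩ := h5 b
      obtain ⟨g, g1, g2, -⟩ := H.MP_cb17ae_an.had hl hf
      exact ⟨_, _, hd l hl f g g1 g2⟩
    · obtain ⟨s, hs⟩ : ∃ s : ℝ, ∀ x : ℝ, (x : ℂ) - μ + (s * (expNegInvGlue (-x) +
          expNegInvGlue (x - 1)) : ℝ) * Complex.I ≠ 0 := by
        by_cases c : μ.im = 0
        · refine ⟨1, fun x e => hμ x ?_ (Complex.ext (by
            simpa [sub_eq_zero, eq_comm] using congrArg Complex.re e) (by simpa using c))⟩
          have := congrArg Complex.im e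
          simp only [Complex.add_im, Complex.sub_im, Complex.ofReal_im, c, Complex.mul_I_im,
            Complex.ofReal_re, Complex.zero_im, sub_zero, zero_add, one_mul,
            add_eq_zero_iff_of_nonneg (expNegInvGlue.nonneg _) (expNegInvGlue.nonneg _),
            expNegInvGlue.zero_iff_nonpos] at this
          exact ⟨by linarith [this.1], by linarith [this.2]⟩
        · exact ⟨0, fun x e => c (by simpa using congrArg Complex.im e)⟩
      have c : ContDiff ℝ (⊤ : ℕ∞) fun x : ℝ => (x : ℂ) - μ + (s * (expNegInvGlue (-x) +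
          expNegInvGlue (x - 1)) : ℝ) * Complex.I := (cx.sub contDiff_const).add
        ((cx.comp (contDiff_const.mul ((expNegInvGlue.contDiff.comp contDiff_neg).add
          (expNegInvGlue.contDiff.comp (contDiff_id.sub contDiff_const))))).mul contDiff_const)
      rw [← ea, h4 _ _ (cx.sub contDiff_const) c fun x hx => by
        simp [expNegInvGlue.zero_of_nonpos, hx.1, hx.2]]
      refine .of_mul_eq_one (φ fun x => (_ : ℂ)⁻¹) (((h2 _ _ c (c.inv hs)).symm.trans ?_).trans o)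
      congr 1
      ext x
      exact mul_inv_cancel₀ (hs x)
    · rintro l hl b ⟨n, C, C0, h⟩
      refine ⟨n + 1, ‖b‖ + C, by positivity, fun f hf M hM => ?_⟩
      obtain ⟨g, g1, g2, g3⟩ := H.MP_cb17ae_an.had hl hf
      rw [hd l hl f g g1 g2, mul_add, ← mul_assoc, mul_comm b (_ - _), add_mul]
      refine norm_add_le_of_le ?_ (h g g1 M fun k l => g3 k M (hM _ (by omega)))
      rw [mul_smul_comm, mul_one, norm_smul, mul_comm]
      exact mul_le_mul_of_nonneg_left (hM 0 (by omega) l hl) (norm_nonneg _)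
  obtain ⟨n, C, -, h⟩ : (1 : B) ∈ G := this ▸ Submodule.mem_top
  refine ⟨n, C, fun f hf => (one_mul (φ f)) ▸ h f hf _ fun k hk x hx => ?_⟩
  refine le_trans (le_csSup (isCompact_Icc.bddAbove_image (hf.continuous_iteratedDeriv k
    (by exact_mod_cast le_top)).norm.continuousOn) ⟨x, hx, rfl⟩) ?_
  exact Finset.single_le_sum (f := fun k => sSup ((fun x : ℝ => ‖iteratedDeriv k f x‖) ''
    Set.Icc (0 : ℝ) 1)) (fun i _ => Real.sSup_nonneg (by rintro _ ⟨y, -, rfl⟩; positivity))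
    (Finset.mem_range_succ_iff.2 hk)

end Pool.Agent.S06153
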