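import Pool.Statements.S06164
import Pool.Agent.H.MP_28611e_an.D

set_option autoImplicit false
open MeasureTheory Filter Topology
open Pool Pool.MP_cc1b6d_an

namespace Pool.Agent.S06164

/-- The negation of the preceding statement: For a regular polynomial sequence whose Julia set is a totally disconnected subset of the real line, the Jacobi recurrence coefficients of its equilibrium measure converge to a Bohr almost periodic two-sided sequence. -/
theorem result :
    ¬ (∀ (f : ℕ → Polynomial ℂ) (F : ℕ → ℂ → ℂ) (J : Set ℂ),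
      (∃ A₁ A₂ A₃ : ℝ, 0 < A₁ ∧ 0 ≤ A₂ ∧ 0 < A₃ ∧
        ∀ n, 2 ≤ (f n).natDegree ∧ A₁ ≤ ‖(f n).leadingCoeff‖ ∧
          (∀ j, ‖(f n).coeff j‖ ≤ A₂ * ‖(f n).leadingCoeff‖) ∧
          Real.log ‖(f n).leadingCoeff‖ ≤ A₃ * ((f n).natDegree : ℝ)) →
      (∀ z, F 0 z = z) →
      (∀ n z, F (n + 1) z = (f n).eval (F n z)) →
      J = frontier {z : ℂ | ∃ M : ℝ, ∀ n, ‖F n z‖ ≤ M} →
      J ⊆ {z : ℂ | z.im = 0} →
      IsTotallyDisconnected J →
      ∀ μ : Measure ℂ, IsProbabilityMeasure μ → NoAtoms μ → μ Jᶜ = 0 →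
      (∫⁻ z, ∫⁻ w, ENNReal.ofReal (Real.log ((Metric.diam J + 1) / ‖z - w‖)) ∂μ ∂μ) < ⊤ →
      (∀ ν : Measure ℂ, IsProbabilityMeasure ν → NoAtoms ν → ν Jᶜ = 0 →
        (∫⁻ z, ∫⁻ w, ENNReal.ofReal (Real.log ((Metric.diam J + 1) / ‖z - w‖)) ∂μ ∂μ) ≤
          (∫⁻ z, ∫⁻ w, ENNReal.ofReal (Real.log ((Metric.diam J + 1) / ‖z - w‖)) ∂ν ∂ν)) →
      ∀ (a b : ℕ → ℝ) (P : ℕ → Polynomial ℝ),
        (∀ n, 0 < a n) →
        P 0 = 1 →
        P 1 = Polynomial.X - Polynomial.C (b 0) →
        (∀ n, P (n + 2) = (Polynomial.X - Polynomial.C (b (n + 1))) * P (n + 1)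
                - Polynomial.C (a n ^ 2) * P n) →
        (∀ n m, n ≠ m → ∫ z, (P n).eval z.re * (P m).eval z.re ∂μ = 0) →
        ∃ α β : ℤ → ℝ,
          (∀ ε > 0, ∃ L : ℕ, ∀ m : ℤ, ∃ τ : ℤ, m ≤ τ ∧ τ ≤ m + (L : ℤ) ∧
            ∀ k : ℤ, |α (k + τ) - α k| < ε ∧ |β (k + τ) - β k| < ε) ∧
          Tendsto (fun n : ℕ => |a n - α (n : ℤ)| + |b n - β (n : ℤ)|) atTop (𝓝 0)) := by
  open Pool.Agent.H.MP_28611e_an Pool.Agent.H.MP_7f7d18_an Set Polynomial in
  intro h
  obtain ⟨Y, hY, hL, gap⟩ := gapB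
  have y1 := fun j => (hY j).1
  obtain ⟨μ, H⟩ := exMs y1
  have := H.pr
  have iso := Complex.isometry_ofReal
  have mo := Complex.continuous_ofReal.measurable
  have cK := (K_cpt (Y := Y)).image Complex.continuous_ofReal
  have sub : Complex.ofReal '' K Y 0 ⊆ {z : ℂ | z.im = 0} := by rintro _ ⟨x, -, rfl⟩; simp
  have dm := iso.diam_image (K Y 0)
  obtain ⟨e1, e2⟩ := (H.eqm hY).2.2.2 (Metric.diam (K Y 0) + 1) (by positivity)
    (by linarith [K_diam (Y := Y)]) fun x hx y hy =>
    (Metric.dist_le_diam_of_mem K_cpt.isBounded hx hy).trans (by linarith)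
  have en : ∀ D, ∀ ν : Measure ℝ, IsProbabilityMeasure ν → (∀ x, ν {x} = 0) →
      (∫⁻ z, ∫⁻ w, ENNReal.ofReal (Real.log (D / ‖z - w‖)) ∂ν.map Complex.ofReal
        ∂ν.map Complex.ofReal) = ∫⁻ x, U D ν x ∂ν := fun D ν _ na => by
    rw [iso.isClosedEmbedding.measurableEmbedding.lintegral_map]
    congr 1; ext x
    rw [iso.isClosedEmbedding.measurableEmbedding.lintegral_map]
    refine lintegral_congr_ae ((ae_ne (na x)).mono fun y hy => ?_)
    simp only [k, if_neg hy.symm, ← Complex.ofReal_sub, Complex.norm_real, Real.norm_eq_abs]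
  have d1 : ∀ n, (C (1 + Y n : ℂ) * X ^ 2 - C (Y n : ℂ)).natDegree = 2 := fun n => by
    rw [natDegree_sub_C, natDegree_C_mul_X_pow]
    exact_mod_cast (show 1 + Y n ≠ 0 by linarith [y1 n])
  have d2 : ∀ n, ‖(C (1 + Y n : ℂ) * X ^ 2 - C (Y n : ℂ)).leadingCoeff‖ = 1 + Y n := fun n => by
    rw [leadingCoeff, d1, coeff_sub, coeff_C_mul_X_pow, if_pos rfl, coeff_C, if_neg two_ne_zero,
      sub_zero, ← Complex.ofReal_one, ← Complex.ofReal_add, Complex.norm_real,
      Real.norm_of_nonneg (by linarith [y1 n])]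
  have na := no_atom e1
  obtain ⟨α, β, c1, c2⟩ := h (fun n => C (1 + Y n : ℂ) * X ^ 2 - C (Y n : ℂ))
    (F (fun j => (Y j : ℂ)) 0) (Complex.ofReal '' K Y 0)
    ⟨1, 1, 5000, one_pos, zero_le_one, by norm_num, fun n => by
      have := hY n
      rw [d1, d2]
      refine ⟨le_rfl, by linarith, fun j => ?_,
        (Real.log_le_self (by linarith)).trans (by push_cast; linarith)⟩
      rw [coeff_sub, coeff_C_mul_X_pow, coeff_C]
      split_ifs with a b
      · omega
      · rw [sub_zero, ← Complex.ofReal_one, ← Complex.ofReal_add, Complex.norm_real,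
          Real.norm_of_nonneg (by linarith), one_mul]
      · rw [zero_sub, norm_neg, Complex.norm_real, Real.norm_of_nonneg (by linarith)]; linarith
      · simp; linarith⟩
    (fun _ => rfl) (fun n z => by simp [F]; ring)
    (by
      rw [filled hY, cK.isClosed.frontier_eq, eq_comm, sdiff_eq_left, disjoint_left]
      intro z hz hi
      have := interior_mono (t := Complex.im ⁻¹' {0}) sub hi
      simp [Complex.interior_preimage_im] at this)
    sub (iso.isClosedEmbedding.isEmbedding.isTotallyDisconnected_image.2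
      (isTotallyDisconnected_iff_lt.2 fun x _ y _ l => by
        by_contra k
        push Not at k
        have := measure_mono_null (fun z hz => not_not.1 fun a => k z a hz) (null y1 hL)
        simp at this
        linarith))
    ((μ 0).map Complex.ofReal) (Measure.isProbabilityMeasure_map mo.aemeasurable)
    ⟨fun z => by
      rw [Measure.map_apply mo (measurableSet_singleton z)]
      exact measure_mono_null (t := {z.re}) (fun x hx => by simp [← show _ = z from hx]) (na _)⟩
    (by rw [Measure.map_apply mo cK.measurableSet.compl, preimage_compl,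
      preimage_image_eq _ Complex.ofReal_injective]; exact H.aeK 0)
    (by rwa [en _ _ inferInstance na, dm])
    (fun ν _ nν hν => by
      have ae : ∀ᵐ z ∂ν, z ∈ Complex.ofReal '' K Y 0 := hν
      have mr := Complex.measurable_re
      have e : (ν.map Complex.re).map Complex.ofReal = ν := by
        rw [Measure.map_map mo mr]
        refine (Measure.map_congr (ae.mono ?_)).trans Measure.map_id
        rintro _ ⟨x, -, rfl⟩; simp
      have i := Measure.isProbabilityMeasure_map (μ := ν) mr.aemeasurable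
      rw [en _ _ inferInstance na, ← e, en _ _ i fun x => ?_, dm]
      · refine e2 _ i ?_
        refine (ae_map_iff mr.aemeasurable (K_closed 0).measurableSet).2 (ae.mono ?_)
        rintro _ ⟨x, hx, rfl⟩; exact hx
      · have := nν.measure_singleton (x : ℂ)
        rwa [← e, Measure.map_apply mo (measurableSet_singleton _), ← image_singleton,
          preimage_image_eq _ Complex.ofReal_injective] at this)
    (fun n => √(A Y (n + 1) 0)) 0 (fun n => P Y n 0) (fun n => Real.sqrt_pos.2 (Apos y1 n 0))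
    (P0 0) (by simp [P1]) (fun n => by simp [P2, Real.sq_sqrt (Apos y1 n 0).le])
    fun n m k => by
      rw [iso.isClosedEmbedding.integral_map]
      exact H.ne y1 0 k
  refine notAP0 (δ := 1 / 20) (by norm_num) gap (c := α) (fun ε hε => ?_)
    (tendsto_zero_iff_abs_tendsto_zero _ |>.2 (squeeze_zero (fun _ => abs_nonneg _)
      (fun n => le_add_of_nonneg_right (abs_nonneg _)) c2))
  obtain ⟨L, hL⟩ := c1 ε hε
  obtain ⟨τ, t1, -, t2⟩ := hL 1
  lift τ to ℕ using by omega
  exact ⟨τ, by omega, fun n => (t2 n).1⟩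

end Pool.Agent.S06164
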