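import Pool.Statements.S06172

set_option autoImplicit false
open Pool Pool.MP_cc91a5_an

namespace Pool.Agent.S06172

open Finset

/-- the full one-sided two-shift -/
abbrev X : Type := ℕ → Bool

/-- the shift -/
def T (x : X) : X := fun n => x (n + 1)

lemma T_cont : Continuous T := by unfold T; fun_prop

/-- score of a letter in a state -/
def c (p b : Bool) : ℝ := if b then (if p then -1 else 1) else 0
/-- parity of the current run of false letters -/
def δ (p b : Bool) : Bool := if b then false else !p

/-- signed count of runs by parity -/
def F : ℕ → Bool → X → ℝ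
  | 0, _, _ => 0
  | m + 1, p, x => c p (x 0) + F m (δ p (x 0)) (T x)

/-- state after n letters -/
def st : ℕ → Bool → X → Bool
  | 0, p, _ => p
  | m + 1, p, x => st m (δ p (x 0)) (T x)

lemma F_cont (m : ℕ) : Continuous fun q : Bool × X => F m q.1 q.2 := by
  induction m with
  | zero => exact continuous_const
  | succ m ih =>
    have h0 : Continuous fun q : Bool × X => (q.1, q.2 0) := by fun_prop
    have h1 : Continuous fun q : Bool × Bool => c q.1 q.2 := continuous_of_discreteTopology
    have h2 : Continuous fun q : Bool × Bool => δ q.1 q.2 := continuous_of_discreteTopology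
    exact (h1.comp h0).add (ih.comp ((h2.comp h0).prodMk (T_cont.comp continuous_snd)))

lemma F_state (m : ℕ) : ∀ p p' x, |F m p x - F m p' x| ≤ 2 := by
  induction m with
  | zero => intro p p' x; simp [F]
  | succ m ih =>
    intro p p' x
    simp only [F]
    cases h : x 0
    · simpa [c] using ih _ _ _
    · cases p <;> cases p' <;> simp [c, δ] <;> norm_num

lemma F_add (n m : ℕ) : ∀ p x, F (n + m) p x = F n p x + F m (st n p x) (T^[n] x) := by
  induction n with
  | zero => intro p x; simp [F, st]
  | succ n ih =>
    intro p x
    rw [show n + 1 + m = (n + m) + 1 by ring]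
    simp only [F, st, ih, Function.iterate_succ, Function.comp_apply]
    ring

lemma F_congr (n : ℕ) : ∀ p (x y : X), (∀ k < n, (T^[k] x) 0 = (T^[k] y) 0) → F n p x = F n p y := by
  induction n with
  | zero => intro p x y _; rfl
  | succ n ih =>
    intro p x y h
    have h0 : x 0 = y 0 := h 0 (Nat.succ_pos n)
    simp only [F, h0]
    rw [ih _ (T x) (T y) fun k hk => h (k + 1) (Nat.succ_lt_succ hk)]

/-- prepend a letter -/
def cons (b : Bool) (y : X) : X := fun n => Nat.casesOn n b y

/-- prepend a word -/
def app : List Bool → X → X
  | [], y => y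
  | b :: w, y => cons b (app w y)

lemma app_append (u v : List Bool) (y : X) : app (u ++ v) y = app u (app v y) := by
  induction u with
  | nil => rfl
  | cons b u ih => simp [app, ih]

lemma cons_cont (b : Bool) : Continuous (cons b) := by
  refine continuous_pi fun n => ?_
  cases n with
  | zero => exact continuous_const
  | succ n => exact continuous_apply n

lemma app_cont (w : List Bool) : Continuous (app w) := by
  induction w with
  | nil => exact continuous_id
  | cons b w ih => exact (cons_cont b).comp ih

/-- Birkhoff sum along a word -/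
def W (g : X → ℝ) : List Bool → X → ℝ
  | [], _ => 0
  | b :: w, y => g (app (b :: w) y) + W g w y

lemma W_eq (g : X → ℝ) (w : List Bool) (y : X) :
    ∑ k ∈ range w.length, g (T^[k] (app w y)) = W g w y := by
  induction w with
  | nil => simp [W]
  | cons b w ih =>
    rw [List.length_cons, sum_range_succ', W, ← ih, add_comm]
    rfl

lemma W_append (g : X → ℝ) (u v : List Bool) (y : X) :
    W g (u ++ v) y = W g u (app v y) + W g v y := by
  induction u with
  | nil => simp [W]
  | cons b u ih =>
    simp only [List.cons_append, W, ih, app, app_append]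
    ring

lemma W_cont {g : X → ℝ} (hg : Continuous g) (w : List Bool) : Continuous (W g w) := by
  induction w with
  | nil => exact continuous_const
  | cons b w ih => exact (hg.comp (app_cont _)).add ih

lemma F_rep (N m : ℕ) : ∀ (p : Bool) (y : X), F (N + m) p (app (List.replicate N false) y) =
    F m (if Even N then p else !p) y := by
  induction N with
  | zero => intro p y; simp [app]
  | succ N ih =>
    intro p y
    rw [show N + 1 + m = (N + m) + 1 by ring, List.replicate_succ]
    have : T (app (false :: List.replicate N false) y) = app (List.replicate N false) y := rfl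
    have h0 : app (false :: List.replicate N false) y 0 = false := rfl
    simp only [F, this, h0, ih, c, δ, Nat.even_add_one]
    by_cases h : Even N <;> simp [h]

lemma rep_apply (N : ℕ) (y : X) : ∀ i < N, app (List.replicate N false) y i = false := by
  induction N with
  | zero => intro i hi; omega
  | succ N ih =>
    intro i hi
    cases i with
    | zero => rfl
    | succ i => exact ih i (by omega)

lemma near (h : X → ℝ) (hh : Continuous h) (η : ℝ) (hη : 0 < η) : ∃ N0, ∀ N, N0 ≤ N → ∀ y,
    |h (app (List.replicate N false) y) - h (fun _ => false)| < η := by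
  have h1 : {x | |h x - h (fun _ => false)| < η} ∈ nhds (fun _ : ℕ => false) :=
    (isOpen_lt (by fun_prop) continuous_const).mem_nhds (by simpa using hη)
  obtain ⟨_, ⟨x, n, rfl⟩, h2, h3⟩ :=
    (PiNat.isTopologicalBasis_cylinders (fun _ : ℕ => Bool)).mem_nhds_iff.1 h1
  refine ⟨n, fun N hN y => h3 fun i hi => ?_⟩
  rw [rep_apply N y i (by omega)]
  exact h2 i hi

lemma F_zero (n : ℕ) : ∀ p, F n p (fun _ => false) = 0 := by
  induction n with
  | zero => intro p; rfl
  | succ n ih =>
    intro p
    have : T (fun _ => false) = fun _ => false := rfl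
    simp [F, this, ih, c]

lemma words {g : X → ℝ} (hg : Continuous g) (g0 : g (fun _ => false) = 0) (j : ℕ) :
    ∃ u v : List Bool, j ≤ u.length ∧ j ≤ v.length ∧
      (∀ m y, F (u.length + m) false (app u y) = j + F m false y) ∧
      (∀ m y, F (v.length + m) false (app v y) = -j + F m false y) ∧
      ∀ y, |W g v y - W g u y| ≤ j := by
  induction j with
  | zero => exact ⟨[], [], le_rfl, le_rfl, by simp [app], by simp [app], by simp⟩
  | succ j ih =>
    obtain ⟨u, v, hu, hv, hu', hv', h⟩ := ih
    obtain ⟨N1, hN1⟩ := near _ (W_cont hg v) (1 / 3) (by norm_num)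
    obtain ⟨N2, hN2⟩ := near _ hg (1 / 3) (by norm_num)
    set N := 2 * (N1 + N2) with hN
    have hev : Even N := ⟨N1 + N2, by omega⟩
    have hod : ¬ Even (N + 1) := by simp [Nat.even_add_one, hev]
    refine ⟨u ++ (List.replicate N false ++ [true]), v ++ (List.replicate (N + 1) false ++ [true]),
      by simp; omega, by simp; omega, fun m y => ?_, fun m y => ?_, fun y => ?_⟩
    · rw [app_append, List.length_append, add_assoc, hu', app_append, List.length_append,
        List.length_replicate, add_assoc, F_rep, if_pos hev, add_comm _ m]
      have : T (app [true] y) = y := rfl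
      have h0 : app [true] y 0 = true := rfl
      simp [F, this, h0, c, δ]
      ring
    · rw [app_append, List.length_append, add_assoc, hv', app_append, List.length_append,
        List.length_replicate, add_assoc, F_rep, if_neg hod, add_comm _ m]
      have : T (app [true] y) = y := rfl
      have h0 : app [true] y 0 = true := rfl
      simp [F, this, h0, c, δ]
      ring
    · rw [W_append, W_append g u]
      have e : W g (List.replicate (N + 1) false ++ [true]) y =
          g (app (List.replicate (N + 1) false) (app [true] y)) +
            W g (List.replicate N false ++ [true]) y := by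
        rw [← app_append]; rfl
      rw [e, app_append, app_append]
      have a1 := hN1 (N + 1) (by omega) (app [true] y)
      have a2 := hN1 N (by omega) (app [true] y)
      have a3 := hN2 (N + 1) (by omega) (app [true] y)
      have a4 := h (app (List.replicate N false) (app [true] y))
      rw [g0] at a3
      rw [abs_lt] at a1 a2 a3
      rw [abs_le] at a4 ⊢
      push_cast
      constructor <;> linarith [a1.1, a1.2, a2.1, a2.2, a3.1, a3.2, a4.1, a4.2]

attribute [local instance] PiNat.metricSpace

/-- Counterexample on the full two-shift: the signed count of runs by parity. -/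
theorem result :
    ¬ (∀ (X : Type) [MetricSpace X] [CompactSpace X] (T : X → X), Continuous T →
      ∀ f : ℕ → X → ℝ, (∀ n, Continuous (f n)) →
        (∃ C : ℝ, ∀ n m : ℕ, 1 ≤ n → 1 ≤ m → ∀ x : X,
            |f (n + m) x - f n x - f m (T^[n] x)| ≤ C) →
        (∃ ε : ℝ, 0 < ε ∧ ∃ K : ℝ, ∀ n : ℕ, 1 ≤ n → ∀ x y : X,
            (∀ k : ℕ, k < n → dist (T^[k] x) (T^[k] y) < ε) →
              |f n x - f n y| ≤ K) →
        ∃ g : X → ℝ, Continuous g ∧ ∃ B : ℝ, ∀ n : ℕ, 1 ≤ n → ∀ x : X,
            |f n x - ∑ k ∈ Finset.range n, g (T^[k] x)| ≤ B) := by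
  intro H
  obtain ⟨g, hg, B, hB⟩ := @H X PiNat.metricSpace (inferInstanceAs (CompactSpace (ℕ → Bool))) T
    T_cont (fun n x => F n false x)
    (fun n => (F_cont n).comp (continuous_const.prodMk continuous_id))
    ⟨2, fun n m _ _ x => by
      rw [F_add, add_sub_cancel_left]
      exact F_state _ _ _ _⟩
    ⟨1, one_pos, 0, fun n _ x y h => by
      rw [F_congr n false x y fun k hk =>
        PiNat.apply_eq_of_dist_lt (n := 0) (by simpa using h k hk) le_rfl]
      simp⟩
  have g0 : g (fun _ => false) = 0 := by
    by_contra hne
    have hpos : 0 < |g (fun _ => false)| := abs_pos.2 hne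
    obtain ⟨n, hn⟩ := exists_nat_gt (B / |g (fun _ => false)|)
    have h1 := hB (n + 1) (by omega) (fun _ => false)
    have h2 : ∀ k, T^[k] (fun _ => false) = fun _ => false := fun k =>
      Function.iterate_fixed rfl k
    simp only [F_zero, h2, sum_const, card_range, nsmul_eq_mul, zero_sub, abs_neg, abs_mul,
      Nat.abs_cast] at h1
    rw [div_lt_iff₀ hpos] at hn
    push_cast at h1
    nlinarith
  obtain ⟨j, hj⟩ := exists_nat_gt (2 * B)
  obtain ⟨u, v, hu, hv, hu', hv', h⟩ := words hg g0 (j + 1)
  have h1 := hB u.length (by omega) (app u fun _ => false)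
  have h2 := hB v.length (by omega) (app v fun _ => false)
  have h3 := hu' 0 fun _ => false
  have h4 := hv' 0 fun _ => false
  have h5 := h fun _ => false
  simp only [add_zero, F] at h3 h4
  rw [W_eq, h3] at h1
  rw [W_eq, h4] at h2
  rw [abs_le] at h1 h2 h5
  push_cast at *
  linarith [h1.1, h1.2, h2.1, h2.2, h5.1, h5.2]

end Pool.Agent.S06172
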