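import Pool.Statements.S06198
import Pool.Agent.H.MP_cea7e0_an.A

set_option autoImplicit false
open Pool Pool.MP_cea7e0_an

namespace Pool.Agent.S06198

/-- The negation of the preceding statement: For n≥0, r≥2, d≥r and a real sequence f_0..f_n (zero elsewhere) with f_0,f_n>0 and all Toeplitz minors of order ≤d nonnegative, if the Pochhammer–determinant polynomial P_n^r is nonzero then all its roots have negative real part and all its coefficients are positive. -/
theorem result :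
    ¬ (∀ (n r d : ℕ), 2 ≤ r → r ≤ d → ∀ f : ℤ → ℝ,
      (∀ k : ℤ, (k < 0 ∨ (n : ℤ) < k) → f k = 0) →
      0 < f 0 → 0 < f (n : ℤ) →
      (∀ m : ℕ, m ≤ d → ∀ a b : Fin m → ℤ, StrictMono a → StrictMono b →
          0 ≤ (Matrix.of fun s t => f (a s - b t)).det) →
      ∀ P : Polynomial ℝ,
        P = ∑ k ∈ Finset.Nat.antidiagonalTuple r n,
          Polynomial.C ((Nat.multinomial Finset.univ k : ℝ) * ∏ i, f ((k i : ℕ) : ℤ)) *
          (Matrix.of fun (i j : Fin r) => (ascPochhammer ℝ (k i)).comp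
              (Polynomial.X + Polynomial.C (((j : ℕ) : ℝ) - ((i : ℕ) : ℝ)))).det →
        P ≠ 0 →
        (∀ z : ℂ, Polynomial.aeval z P = 0 → z.re < 0) ∧
        (∀ i : ℕ, i ≤ P.natDegree → 0 < P.coeff i)) := by
  intro h
  exact Pool.Agent.H.MP_cea7e0_an.not_stable (h 16 2 2 le_rfl le_rfl Pool.Agent.H.MP_cea7e0_an.f
    Pool.Agent.H.MP_cea7e0_an.f_zero
    (by norm_num [Pool.Agent.H.MP_cea7e0_an.f, Pool.Agent.H.MP_cea7e0_an.F])
    (by rw [Pool.Agent.H.MP_cea7e0_an.f_nat]; norm_num [Pool.Agent.H.MP_cea7e0_an.F])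
    Pool.Agent.H.MP_cea7e0_an.minors Pool.Agent.H.MP_cea7e0_an.P rfl
    Pool.Agent.H.MP_cea7e0_an.P_ne).1

end Pool.Agent.S06198
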