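import Pool.Statements.S06207
-- import your own Pool.Agent.* helpers here

set_option autoImplicit false
open Pool Pool.MP_ced77a_an

namespace Pool.Agent.S06207

lemma core2 {X : Type} [NormedAddCommGroup X] [NormedSpace ℂ X] [CompleteSpace X]
    (T : X →L[ℂ] X) (hT : ∀ (c : ℂ) (φ : X →L[ℂ] ℂ), φ.comp T = c • φ → φ = 0) (x : X)
    (hd : Dense (Submodule.span ℂ (Set.range (fun n : ℕ => (T ^ n) x)) : Set X))
    (E : Type) [NormedAddCommGroup E] [NormedSpace ℂ E] [CompleteSpace E] [Nontrivial E]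
    (π : E →ₗ[ℂ] (X →L[ℂ] ℂ)) (W : E →L[ℂ] E) (hW : ∀ e z, π (W e) z = π e (T z))
    (K : ℝ) (hK : 0 < K)
    (hn : ∀ L : X →L[ℂ] X, Commute T L → ∀ e e' : E, (∀ z, π e' z = π e (L z)) →
      ‖e'‖ ≤ K * ‖L x‖ * ‖e‖) : False := by
  have hpow : ∀ n z, (T ^ (n+1)) z = T ((T ^ n) z) := fun n z => by rw [pow_succ']; rfl
  have hnorm : ∀ (L : X →L[ℂ] X) (B : E →L[ℂ] E), Commute T L →
      (∀ (e : E) z, π (B e) z = π e (L z)) → ‖B‖ ≤ K * ‖L x‖ := by
    intro L B hL hB
    exact B.opNorm_le_bound (by positivity) fun e => hn L hL e (B e) (hB e)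
  have hspan : ∀ z ∈ Submodule.span ℂ (Set.range (fun n : ℕ => (T ^ n) x)),
      ∃ (L : X →L[ℂ] X) (B : E →L[ℂ] E), Commute T L ∧ Commute W B ∧
        (∀ (e : E) z, π (B e) z = π e (L z)) ∧ L x = z := by
    intro z hz
    induction hz using Submodule.span_induction with
    | mem z hz =>
      obtain ⟨n, rfl⟩ := hz
      refine ⟨T ^ n, W ^ n, (Commute.refl T).pow_right n, (Commute.refl W).pow_right n, ?_, rfl⟩
      induction n with
      | zero => intro e z; rfl
      | succ n ih =>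
        intro e z
        rw [pow_succ W, hpow]
        exact (ih (W e) z).trans (hW e _)
    | zero => exact ⟨0, 0, Commute.zero_right _, Commute.zero_right _, fun e z => by simp, rfl⟩
    | add a b _ _ ha hb =>
      obtain ⟨L, B, h1, h2, h3, rfl⟩ := ha
      obtain ⟨L', B', h1', h2', h3', rfl⟩ := hb
      exact ⟨L + L', B + B', h1.add_right h1', h2.add_right h2', fun e z => by
        simp [h3, h3'], rfl⟩
    | smul c a _ ha =>
      obtain ⟨L, B, h1, h2, h3, rfl⟩ := ha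
      exact ⟨c • L, c • B, h1.smul_right c, h2.smul_right c, fun e z => by simp [h3], rfl⟩
  obtain ⟨l, hl⟩ := spectrum.nonempty W
  let A : X →L[ℂ] X := algebraMap ℂ (X →L[ℂ] X) l - T
  have hA : ∀ z, A z = l • z - T z := fun z => rfl
  have hx : x ∈ closure (Set.range A) := by
    by_contra hx
    have hconv : Convex ℝ (Set.range A) := by
      rintro _ ⟨a, rfl⟩ _ ⟨b, rfl⟩ s t _ _ _
      exact ⟨s • a + t • b, by simp [map_add, A.map_smul_of_tower]⟩
    obtain ⟨f, u, h1, h2⟩ := RCLike.geometric_hahn_banach_closed_point (𝕜 := ℂ) hconv.closure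
      isClosed_closure hx
    have hu : 0 < u := by simpa using h1 0 (subset_closure ⟨0, by simp⟩)
    have hf : f = 0 := by
      apply hT l
      ext z
      by_contra hne
      have hne' : f (A z) ≠ 0 := by
        intro h; apply hne
        rw [hA, map_sub, map_smul, sub_eq_zero] at h
        exact h.symm
      have := h1 (A (((u : ℂ) / f (A z)) • z)) (subset_closure ⟨_, rfl⟩)
      rw [map_smul, map_smul, smul_eq_mul, div_mul_cancel₀ _ hne'] at this
      simp at this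
    subst hf
    simp at h2
    linarith
  obtain ⟨_, ⟨z0, rfl⟩, hz0⟩ := Metric.mem_closure_iff.1 hx (1 / K) (by positivity)
  have hop : IsOpen {z | dist x (A z) < 1 / K} :=
    isOpen_lt (by fun_prop) continuous_const
  obtain ⟨z, hz1, hz2⟩ := hd.exists_mem_open hop ⟨z0, hz0⟩
  obtain ⟨L, B, h1, h2, h3, rfl⟩ := hspan z hz1
  have hTA : Commute T A := Commute.sub_right (Algebra.commutes l T).symm (Commute.refl T)
  have hLA : Commute L A := Commute.sub_right (Algebra.commutes l L).symm h1.symm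
  let A' : E →L[ℂ] E := algebraMap ℂ (E →L[ℂ] E) l - W
  have hA' : ∀ e, A' e = l • e - W e := fun e => rfl
  have hBA : Commute B A' := Commute.sub_right (Algebra.commutes l B).symm h2.symm
  have h4 := hnorm (1 - L * A) (1 - A' * B) ((Commute.one_right T).sub_right (h1.mul_right hTA)) (by
    intro e z
    have e1 : π (A' (B e)) z = π (B e) (A z) := by
      rw [hA, hA', map_sub, map_sub, map_smul, map_smul, ← hW]; rfl
    show π (e - A' (B e)) z = π e (z - L (A z))
    rw [map_sub, map_sub, ← h3, ← e1]; rfl)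
  have h5 : (1 - L * A) x = x - A (L x) := by rw [hLA.eq]; rfl
  rw [h5] at h4
  have h6 : dist x (A (L x)) < 1 / K := hz2
  rw [lt_div_iff₀ hK, dist_eq_norm] at h6
  have h7 := isUnit_one_sub_of_norm_lt_one (x := 1 - A' * B) (by linarith)
  rw [sub_sub_cancel, hBA.symm.isUnit_mul_iff] at h7
  exact spectrum.mem_iff.1 hl h7.1

open BoundedContinuousFunction in
lemma core {X : Type} [NormedAddCommGroup X] [NormedSpace ℂ X] [CompleteSpace X]
    (T : X →L[ℂ] X) (hT : ∀ (c : ℂ) (φ : X →L[ℂ] ℂ), φ.comp T = c • φ → φ = 0) (x : X)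
    (v : ℕ → ℝ) (hv : ∀ n, 0 < v n) (μ : ℝ) (hμ : ∀ n, v (n+1) ≤ μ * v n) (M : ℝ) (hM : 0 < M)
    (key : ∀ (g : X →L[ℂ] ℂ) (N : ℝ), 0 ≤ N → (∀ n, ‖g ((T ^ n) x)‖ ≤ N * v n) →
      ∀ n z, ‖g ((T ^ n) z)‖ ≤ M * N * v n * ‖z‖)
    (g0 : X →L[ℂ] ℂ) (hg0 : g0 ≠ 0) (N0 : ℝ) (hN0 : ∀ n, ‖g0 ((T ^ n) x)‖ ≤ N0 * v n)
    (hd : Dense (Submodule.span ℂ (Set.range (fun n : ℕ => (T ^ n) x)) : Set X)) : False := by
  have hvc : ∀ n, ((v n : ℝ) : ℂ) ≠ 0 := fun n => by exact_mod_cast (hv n).ne'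
  let E : Submodule ℂ ((X →L[ℂ] ℂ) × (ℕ →ᵇ ℂ)) :=
    { carrier := {p | ∀ n, p.1 ((T ^ n) x) = (v n : ℂ) * p.2 n}
      add_mem' := by
        intro a b ha hb n
        show a.1 ((T ^ n) x) + b.1 ((T ^ n) x) = (v n : ℂ) * (a.2 n + b.2 n)
        rw [ha n, hb n, mul_add]
      zero_mem' := by intro n; simp
      smul_mem' := by
        intro c a ha n
        show c * a.1 ((T ^ n) x) = (v n : ℂ) * (c * a.2 n)
        rw [ha n]; ring }
  have hEc : IsClosed (E : Set ((X →L[ℂ] ℂ) × (ℕ →ᵇ ℂ))) := by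
    have : (E : Set ((X →L[ℂ] ℂ) × (ℕ →ᵇ ℂ))) =
        ⋂ n, {p | p.1 ((T ^ n) x) = (v n : ℂ) * p.2 n} := by
      ext p; simp only [Set.mem_iInter]; rfl
    rw [this]
    refine isClosed_iInter fun n => isClosed_eq ?_ ?_
    · fun_prop
    · fun_prop
  have hcs : CompleteSpace E := hEc.completeSpace_coe
  let w : ℕ →ᵇ ℂ := ofNormedAddCommGroupDiscrete (fun n => ((v (n+1) / v n : ℝ) : ℂ)) μ (by
    intro n
    rw [Complex.norm_real, Real.norm_eq_abs, abs_of_pos (div_pos (hv _) (hv _)), div_le_iff₀ (hv n)]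
    exact hμ n)
  have hw : ∀ n, w n = ((v (n+1) / v n : ℝ) : ℂ) := fun n => rfl
  let sh : (ℕ →ᵇ ℂ) →L[ℂ] (ℕ →ᵇ ℂ) := (ContinuousLinearMap.mul ℂ (ℕ →ᵇ ℂ) w).comp
    (compContinuousCLM ℂ ℂ ⟨fun n : ℕ => n + 1, continuous_of_discreteTopology⟩)
  have hsh : ∀ u n, sh u n = w n * u (n+1) := fun u n => rfl
  let pre : (X →L[ℂ] ℂ) →L[ℂ] (X →L[ℂ] ℂ) := (ContinuousLinearMap.compL ℂ X X ℂ).flip T
  have hpre : ∀ g z, pre g z = g (T z) := fun g z => rfl
  have hpow : ∀ n z, (T ^ (n+1)) z = T ((T ^ n) z) := fun n z => by rw [pow_succ']; rfl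
  let W : E →L[ℂ] E := ((pre.prodMap sh).comp E.subtypeL).codRestrict E (by
    intro e n
    have := e.2 (n+1)
    show pre e.1.1 ((T ^ n) x) = (v n : ℂ) * sh e.1.2 n
    rw [hpre, hsh, hw, ← hpow, this]
    push_cast
    field_simp [hvc n])
  have hb : ∀ (e : E) n, ‖e.1.1 ((T ^ n) x)‖ ≤ ‖e.1.2‖ * v n := by
    intro e n
    rw [e.2 n, norm_mul, Complex.norm_real, Real.norm_eq_abs, abs_of_pos (hv n), mul_comm]
    exact mul_le_mul_of_nonneg_right (norm_coe_le_norm _ _) (hv n).le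
  let u0 : ℕ →ᵇ ℂ := ofNormedAddCommGroupDiscrete (fun n => g0 ((T ^ n) x) / (v n : ℂ)) N0 (by
    intro n
    rw [norm_div, Complex.norm_real, Real.norm_eq_abs, abs_of_pos (hv n), div_le_iff₀ (hv n)]
    exact hN0 n)
  have he0 : (g0, u0) ∈ E := by
    intro n
    show g0 ((T ^ n) x) = (v n : ℂ) * (g0 ((T ^ n) x) / (v n : ℂ))
    field_simp [hvc n]
  have hnt : Nontrivial E := ⟨⟨⟨_, he0⟩, 0, fun h => hg0 (congrArg (fun e : E => e.1.1) h)⟩⟩
  have hv0 := hv 0
  refine @core2 X _ _ _ T hT x hd E inferInstance inferInstance hcs hnt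
    ((LinearMap.fst ℂ _ _).comp E.subtype) W (fun e z => rfl) ((M * v 0 + 1) * M) (by positivity) ?_
  intro L hL e e' hB
  have hB' : ∀ z, e'.1.1 z = e.1.1 (L z) := hB
  have h2 : ‖e'.1.2‖ ≤ M * ‖L x‖ * ‖e.1‖ := by
    refine (norm_le (by positivity)).2 fun n => ?_
    have h1 := e'.2 n
    rw [hB'] at h1
    have h3 : L ((T ^ n) x) = (T ^ n) (L x) := by
      have := (hL.pow_left n).eq
      exact (congrArg (fun A : X →L[ℂ] X => A x) this).symm
    have h4 := key e.1.1 _ (norm_nonneg e.1.2) (hb e) n (L x)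
    rw [← h3, h1, norm_mul, Complex.norm_real, Real.norm_eq_abs, abs_of_pos (hv n)] at h4
    have h5 : ‖e.1.2‖ ≤ ‖e.1‖ := norm_snd_le e.1
    have h6 : ‖e'.1.2 n‖ ≤ M * ‖e.1.2‖ * ‖L x‖ := by
      apply le_of_mul_le_mul_left _ (hv n)
      linarith
    calc _ ≤ M * ‖e.1.2‖ * ‖L x‖ := h6
      _ ≤ M * ‖e.1‖ * ‖L x‖ := by gcongr
      _ = _ := by ring
  have h1 : ‖e'.1.1‖ ≤ M * ‖e'.1.2‖ * v 0 := by
    refine ContinuousLinearMap.opNorm_le_bound _ (by positivity) fun z => ?_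
    simpa using key e'.1.1 _ (norm_nonneg e'.1.2) (hb e') 0 z
  have h0 : 0 ≤ M * ‖L x‖ * ‖e.1‖ := by positivity
  have h3 : M * v 0 * ‖e'.1.2‖ ≤ M * v 0 * (M * ‖L x‖ * ‖e.1‖) := by gcongr
  have h4 : 0 ≤ M * v 0 * (M * ‖L x‖ * ‖e.1‖) := by positivity
  show ‖e'.1‖ ≤ (M * v 0 + 1) * M * ‖L x‖ * ‖e.1‖
  rw [Prod.norm_def e'.1]
  apply max_le <;> nlinarith

theorem result :
    ∀ (X : Type) [NormedAddCommGroup X] [NormedSpace ℂ X] [CompleteSpace X]
      (T : X →L[ℂ] X),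
      (∀ (c : ℂ) (φ : X →L[ℂ] ℂ), φ.comp T = c • φ → φ = 0) →
      ∀ x : X,
        (interior (closure (convexHull ℝ (Set.range (fun n : ℕ => (T ^ n) x))))).Nonempty →
        closure (convexHull ℝ (Set.range (fun n : ℕ => (T ^ n) x))) = Set.univ := by
  intro X _ _ _ T hT x hint
  by_contra hne
  set O : Set X := Set.range (fun n : ℕ => (T ^ n) x) with hO
  set C : Set X := closure (convexHull ℝ O) with hC
  have hCconv : Convex ℝ C := (convex_convexHull ℝ O).closure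
  have hmin : ∀ K : Set X, Convex ℝ K → IsClosed K → (∀ n, (T ^ n) x ∈ K) → C ⊆ K := by
    intro K h1 h2 h3
    exact closure_minimal (convexHull_min (by rintro _ ⟨n, rfl⟩; exact h3 n) h1) h2
  have hOC : ∀ n, (T ^ n) x ∈ C := fun n => subset_closure (subset_convexHull ℝ O ⟨n, rfl⟩)
  have hpow : ∀ n z, (T ^ (n+1)) z = T ((T ^ n) z) := fun n z => by rw [pow_succ']; rfl
  have hTC : ∀ c ∈ C, T c ∈ C := by
    refine hmin (T ⁻¹' C) ?_ (isClosed_closure.preimage T.continuous) (fun n => ?_)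
    · exact hCconv.linear_preimage (T.restrictScalars ℝ).toLinearMap
    · show T _ ∈ C
      rw [← hpow]; exact hOC _
  have hTnC : ∀ n, ∀ c ∈ C, (T ^ n) c ∈ C := by
    intro n c hc
    induction n with
    | zero => exact hc
    | succ n ih => rw [hpow]; exact hTC _ ih
  obtain ⟨y, hy1, hy2⟩ : (interior C ∩ convexHull ℝ O).Nonempty := by
    obtain ⟨y0, hy0⟩ := hint
    exact mem_closure_iff.1 (interior_subset hy0) _ isOpen_interior hy0
  obtain ⟨r, hr, hball⟩ := Metric.nhds_basis_closedBall.mem_iff.1 (mem_interior_iff_mem_nhds.1 hy1)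
  have hyp : ∀ h : X, ‖h‖ ≤ r → y + h ∈ C := fun h hh => hball (by simpa using hh)
  have hym : ∀ h : X, ‖h‖ ≤ r → y - h ∈ C := fun h hh => hball (by simpa using hh)
  obtain ⟨z0, hz0⟩ := (Set.ne_univ_iff_exists_notMem _).1 hne
  obtain ⟨f, u, hf1, hf2⟩ := RCLike.geometric_hahn_banach_closed_point (𝕜 := ℂ) hCconv
    isClosed_closure hz0
  have hf1' : ∀ c ∈ C, (f c).re < u := hf1
  have hf0 : f ≠ 0 := by
    rintro rfl
    have := hf1 _ (hOC 0)
    simp at this hf2
    linarith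
  set μ : ℝ := ‖T‖ + 2 with hμ
  have hμ1 : 1 < μ := by have := norm_nonneg T; linarith
  have hμ0 : 0 < μ := by linarith
  set q : ℝ := μ⁻¹ with hq
  have hq0 : 0 < q := inv_pos.2 hμ0
  have hq1 : q < 1 := inv_lt_one_of_one_lt₀ hμ1
  have hqμ : q * μ = 1 := inv_mul_cancel₀ hμ0.ne'
  set S : X →L[ℂ] X := (q : ℂ) • T with hS
  have hSn : ‖S‖ < 1 := by
    rw [hS, norm_smul, Complex.norm_real, Real.norm_eq_abs, abs_of_pos hq0]
    nlinarith
  set R : X →L[ℂ] X := ∑' n, S ^ n with hR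
  have hRS : R * (1 - S) = 1 := geom_series_mul_neg S hSn
  set f0 : X →L[ℂ] ℂ := f.comp R with hf0def
  have hrel : ∀ c, f0 c - q * f0 (T c) = f c := by
    intro c
    have : f ((R * (1 - S)) c) = f c := by rw [hRS]; rfl
    rw [← this]
    show _ = f0 (c - (q : ℂ) • T c)
    rw [map_sub, map_smul, smul_eq_mul]
  have hf00 : f0 ≠ 0 := by
    intro h
    apply hf0
    ext c
    rw [← hrel, h]; simp
  have hsum : ∀ c ∈ C, (f0 c).re ≤ u * (1 - q)⁻¹ := by
    intro c hc
    have h1 : HasSum (fun n => S ^ n) R := (summable_geometric_of_norm_lt_one hSn).hasSum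
    have h2 : HasSum (fun n => (S ^ n) c) (R c) := (ContinuousLinearMap.apply ℂ X c).hasSum h1
    have h3 := Complex.hasSum_re (f.hasSum h2)
    have h4 := (hasSum_geometric_of_lt_one hq0.le hq1).mul_left u
    refine hasSum_le (fun n => ?_) h3 h4
    have : f ((S ^ n) c) = ((q ^ n : ℝ) : ℂ) * f ((T ^ n) c) := by
      rw [hS, smul_pow]; simp
    rw [this, Complex.re_ofReal_mul, mul_comm u]
    exact mul_le_mul_of_nonneg_left (hf1' _ (hTnC n c hc)).le (by positivity)
  set a : ℝ := u * (1 - q)⁻¹ + 1 with ha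
  set φ : X → ℝ := fun c => a - (f0 c).re with hφ
  have hφ1 : ∀ c ∈ C, 1 ≤ φ c := fun c hc => by
    have := hsum c hc
    simp only [hφ]; linarith
  have hφT : ∀ c ∈ C, φ (T c) ≤ μ * φ c := by
    intro c hc
    have h1 := congrArg Complex.re (hrel c)
    rw [Complex.sub_re, Complex.re_ofReal_mul] at h1
    have h2 := hf1' c hc
    have h3 : a * (1 - q) = u + (1 - q) := by
      have : (1 - q) ≠ 0 := by linarith
      rw [ha]; field_simp
    have h4 : q * φ (T c) ≤ φ c := by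
      simp only [hφ]; nlinarith
    calc φ (T c) = μ * (q * φ (T c)) := by rw [← mul_assoc, mul_comm μ, hqμ, one_mul]
      _ ≤ _ := mul_le_mul_of_nonneg_left h4 hμ0.le
  have hφaff : ∀ (b c : X) (s t : ℝ), s + t = 1 → φ (s • b + t • c) = s * φ b + t * φ c := by
    intro b c s t hst
    simp only [hφ, map_add, f0.map_smul_of_tower, Complex.add_re, Complex.smul_re, smul_eq_mul]
    linear_combination (-a) * hst
  have hφc : Continuous φ := by
    simp only [hφ]; fun_prop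
  obtain ⟨M0, hM0, hM⟩ : ∃ M0 : ℝ, 0 < M0 ∧ ∀ n, φ ((T ^ n) y) ≤ M0 * φ ((T ^ n) x) := by
    refine convexHull_min (t := {y | ∃ M0 : ℝ, 0 < M0 ∧ ∀ n, φ ((T ^ n) y) ≤ M0 * φ ((T ^ n) x)})
      ?_ ?_ hy2
    · rintro _ ⟨k, rfl⟩
      refine ⟨μ ^ k, by positivity, fun n => ?_⟩
      have e : ∀ k, (T ^ n) ((T ^ k) x) = (T ^ k) ((T ^ n) x) := fun k => by
        show (T ^ n * T ^ k) x = (T ^ k * T ^ n) x
        rw [← pow_add, ← pow_add, add_comm]
      simp only [e]
      induction k with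
      | zero => simp
      | succ k ih =>
        rw [hpow, pow_succ' μ, mul_assoc]
        exact (hφT _ (hTnC k _ (hOC n))).trans (mul_le_mul_of_nonneg_left ih hμ0.le)
    · rintro b ⟨M1, h1, hb⟩ c ⟨M2, h2, hc⟩ s t hs ht hst
      refine ⟨M1 + M2, by positivity, fun n => ?_⟩
      rw [map_add, (T ^ n).map_smul_of_tower, (T ^ n).map_smul_of_tower, hφaff _ _ _ _ hst]
      have h3 := hφ1 _ (hOC n)
      have h4 := mul_le_mul_of_nonneg_left (hb n) hs
      have h5 := mul_le_mul_of_nonneg_left (hc n) ht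
      have h6 : 0 ≤ M1 * φ ((T ^ n) x) := by positivity
      have h7 : 0 ≤ M2 * φ ((T ^ n) x) := by positivity
      nlinarith
  refine core T hT x (fun n => φ ((T ^ n) x)) (fun n => by linarith [hφ1 _ (hOC n)]) μ
    (fun n => by simp only [hpow]; exact hφT _ (hOC n)) (M0 / r) (by positivity) ?_ f0 hf00
    (M0 * (‖x‖ + 1) / r) ?_ ?_
  · intro g N hN hg n z
    have hgC : ∀ c ∈ C, ‖g c‖ ≤ N * φ c := by
      refine hmin {c | ‖g c‖ ≤ N * φ c} ?_ (isClosed_le (by fun_prop) (by fun_prop)) hg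
      intro b hb c hc s t hs ht hst
      show ‖g _‖ ≤ _
      rw [hφaff _ _ _ _ hst, map_add, g.map_smul_of_tower, g.map_smul_of_tower]
      have h1 := norm_add_le (s • g b) (t • g c)
      rw [norm_smul, norm_smul, Real.norm_eq_abs, Real.norm_eq_abs, abs_of_nonneg hs,
        abs_of_nonneg ht] at h1
      have h4 := mul_le_mul_of_nonneg_left (show ‖g b‖ ≤ N * φ b from hb) hs
      have h5 := mul_le_mul_of_nonneg_left (show ‖g c‖ ≤ N * φ c from hc) ht
      linarith
    have hh : ∀ h : X, ‖h‖ ≤ r → ‖g ((T ^ n) h)‖ ≤ N * (M0 * φ ((T ^ n) x)) := by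
      intro h hh
      have h1 := hgC _ (hTnC n _ (hyp h hh))
      have h2 := hgC _ (hTnC n _ (hym h hh))
      have h3 : φ ((T ^ n) (y + h)) + φ ((T ^ n) (y - h)) = 2 * φ ((T ^ n) y) := by
        simp only [hφ, map_add, map_sub, Complex.add_re, Complex.sub_re]; ring
      have h4 := norm_sub_le (g ((T ^ n) (y + h))) (g ((T ^ n) (y - h)))
      have h5 : g ((T ^ n) (y + h)) - g ((T ^ n) (y - h)) = 2 * g ((T ^ n) h) := by
        simp only [map_add, map_sub]; ring
      rw [h5, norm_mul] at h4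
      have h6 := mul_le_mul_of_nonneg_left (hM n) hN
      simp only [Complex.norm_ofNat] at h4
      nlinarith
    by_cases hz : z = 0
    · subst hz; simp
    have hzp : 0 < ‖z‖ := norm_pos_iff.2 hz
    have h1 := hh ((r / ‖z‖) • z) (by
      rw [norm_smul, Real.norm_eq_abs, abs_of_pos (by positivity)]; field_simp; rfl)
    rw [(T ^ n).map_smul_of_tower, g.map_smul_of_tower, norm_smul, Real.norm_eq_abs,
      abs_of_pos (by positivity)] at h1
    calc _ = (‖z‖ / r) * (r / ‖z‖ * ‖g ((T ^ n) z)‖) := by field_simp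
      _ ≤ (‖z‖ / r) * (N * (M0 * φ ((T ^ n) x))) := by gcongr
      _ = _ := by ring
  · intro n
    obtain ⟨ω, hω1, hω2⟩ := Complex.exists_norm_eq_mul_self (f0 ((T ^ n) x))
    have hx1 : 0 < ‖x‖ + 1 := by positivity
    have h1 := hφ1 _ (hTnC n _ (hyp ((r / (‖x‖ + 1)) • ω • x) (by
      rw [norm_smul, norm_smul, hω1, Real.norm_eq_abs, abs_of_pos (by positivity), one_mul,
        div_mul_eq_mul_div, div_le_iff₀ hx1]
      nlinarith)))
    have h2 := hM n
    simp only [hφ] at h1 h2 ⊢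
    rw [map_add, map_add, (T ^ n).map_smul_of_tower, f0.map_smul_of_tower, map_smul, map_smul,
      smul_eq_mul, ← hω2, Complex.add_re, Complex.smul_re, Complex.ofReal_re, smul_eq_mul] at h1
    calc _ = ((‖x‖ + 1) / r) * (r / (‖x‖ + 1) * ‖f0 ((T ^ n) x)‖) := by field_simp
      _ ≤ ((‖x‖ + 1) / r) * (M0 * (a - (f0 ((T ^ n) x)).re)) :=
        mul_le_mul_of_nonneg_left (by linarith) (by positivity)
      _ = _ := by ring
  · have : (Submodule.span ℂ O).topologicalClosure = ⊤ := by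
      apply Submodule.eq_top_of_nonempty_interior'
      refine hint.mono (interior_mono (hmin _ ?_ (Submodule.isClosed_topologicalClosure _) ?_))
      · exact ((Submodule.span ℂ O).topologicalClosure.restrictScalars ℝ).convex
      · intro n
        exact Submodule.le_topologicalClosure _ (Submodule.subset_span ⟨n, rfl⟩)
    exact Submodule.dense_iff_topologicalClosure_eq_top.2 this

end Pool.Agent.S06207
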