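import Pool.Statements.S06212
import Pool.Agent.H.MP_cf2fa9_an.A

set_option autoImplicit false
open ComplexOrder
open Pool Pool.MP_cf2fa9_an

namespace Pool.Agent.S06212

theorem result :
    ¬ (∀ k : ℕ, 2 ≤ k → ∀ η : FreeGroup (Fin k) → ℂ,
    Summable (fun h => ‖η h‖ ^ 2) → η ≠ 0 →
    ¬ ∀ (n : ℕ) (g : Fin n → FreeGroup (Fin k)) (c : Fin n → ℂ),
      0 ≤ ∑ i, ∑ j, starRingEnd ℂ (c i) * c j *
        ((((1 / Real.sqrt (2 * (k : ℝ) - 1)) ^ (FreeGroup.toWord ((g i)⁻¹ * g j)).length : ℝ) : ℂ)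
          - ∑' h, starRingEnd ℂ (η h) * η (((g i)⁻¹ * g j)⁻¹ * h))) := by
  intro H
  refine H 5 (by norm_num) (fun h => if h = 1 then 2 / 5 else 0)
    (summable_of_ne_finset_zero (s := {1}) fun h hh => by simp at hh; simp [hh])
    (fun h => by simpa using congrFun h 1) fun n g c => ?_
  refine le_of_le_of_eq (Pool.Agent.H.MP_cf2fa9_an.pd n g c) ?_
  refine Finset.sum_congr rfl fun i _ => Finset.sum_congr rfl fun j _ => ?_
  have h3 : Real.sqrt (2 * ((5 : ℕ) : ℝ) - 1) = 3 := by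
    rw [Real.sqrt_eq_iff_mul_self_eq (by norm_num) (by norm_num)]; norm_num
  rw [h3, tsum_eq_single 1 fun h hh => by simp [hh]]
  congr 1
  simp only [Pool.Agent.H.MP_cf2fa9_an.f, Pool.Agent.H.MP_cf2fa9_an.δ_apply, FreeGroup.norm,
    mul_one, inv_eq_one, if_true, map_div₀, map_ofNat]
  push_cast
  split_ifs <;> ring

end Pool.Agent.S06212
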