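import Pool.Statements.S06226
import Pool.Agent.H.MP_d01728_an.I

set_option autoImplicit false
open Pool Pool.MP_d01728_an

namespace Pool.Agent.S06226

/-- The negation of the preceding statement: For every bounded convex domain in R^d, every convex potential continuous up to the boundary and every α>0, the Robin gap λ1−λ0 of −Δ+V (given by min-max) is at least the Robin gap of −d²/dx² on the interval of the same diameter. -/
theorem result :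
    ¬ (∀ (d : ℕ), 1 ≤ d → ∀ (Ω : Set (EuclideanSpace ℝ (Fin d))), IsOpen Ω → Convex ℝ Ω →
  Bornology.IsBounded Ω → Ω.Nonempty →
  ∀ (V : EuclideanSpace ℝ (Fin d) → ℝ), ConvexOn ℝ Ω V → ContinuousOn V (closure Ω) →
  ∀ α : ℝ, 0 < α →
  ∀ lam0 lam1 mu0 mu1 : ℝ,
  IsGLB {t : ℝ | ∃ u : EuclideanSpace ℝ (Fin d) → ℝ, ContDiff ℝ 1 u ∧
      0 < (∫ x in Ω, u x ^ 2) ∧
      t = ((∫ x in Ω, (‖fderiv ℝ u x‖ ^ 2 + V x * u x ^ 2)) +
            α * (Real.pi ^ (((d:ℝ) - 1) / 2) / Real.Gamma (((d:ℝ) - 1) / 2 + 1) / 2 ^ ((d:ℝ) - 1)) *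
            (∫ x in frontier Ω, u x ^ 2 ∂(MeasureTheory.Measure.hausdorffMeasure ((d:ℝ) - 1))))
          / (∫ x in Ω, u x ^ 2)} lam0 →
  IsGLB {t : ℝ | ∃ u w : EuclideanSpace ℝ (Fin d) → ℝ, ContDiff ℝ 1 u ∧ ContDiff ℝ 1 w ∧
      0 < (∫ x in Ω, u x ^ 2) * (∫ x in Ω, w x ^ 2) - (∫ x in Ω, u x * w x) ^ 2 ∧
      IsLUB {s : ℝ | ∃ a b : ℝ, (a ≠ 0 ∨ b ≠ 0) ∧
        s = ((∫ x in Ω, (‖fderiv ℝ (fun y => a * u y + b * w y) x‖ ^ 2 +
                  V x * (a * u x + b * w x) ^ 2)) +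
              α * (Real.pi ^ (((d:ℝ) - 1) / 2) / Real.Gamma (((d:ℝ) - 1) / 2 + 1) / 2 ^ ((d:ℝ) - 1)) *
              (∫ x in frontier Ω, (a * u x + b * w x) ^ 2
                  ∂(MeasureTheory.Measure.hausdorffMeasure ((d:ℝ) - 1))))
            / (∫ x in Ω, (a * u x + b * w x) ^ 2)} t} lam1 →
  IsGLB {t : ℝ | ∃ u : ℝ → ℝ, ContDiff ℝ 1 u ∧
      0 < (∫ x in Set.Ioo (-(Metric.diam Ω / 2)) (Metric.diam Ω / 2), u x ^ 2) ∧
      t = ((∫ x in Set.Ioo (-(Metric.diam Ω / 2)) (Metric.diam Ω / 2), deriv u x ^ 2) +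
            α * (u (-(Metric.diam Ω / 2)) ^ 2 + u (Metric.diam Ω / 2) ^ 2))
          / (∫ x in Set.Ioo (-(Metric.diam Ω / 2)) (Metric.diam Ω / 2), u x ^ 2)} mu0 →
  IsGLB {t : ℝ | ∃ u w : ℝ → ℝ, ContDiff ℝ 1 u ∧ ContDiff ℝ 1 w ∧
      0 < (∫ x in Set.Ioo (-(Metric.diam Ω / 2)) (Metric.diam Ω / 2), u x ^ 2) *
          (∫ x in Set.Ioo (-(Metric.diam Ω / 2)) (Metric.diam Ω / 2), w x ^ 2) -
          (∫ x in Set.Ioo (-(Metric.diam Ω / 2)) (Metric.diam Ω / 2), u x * w x) ^ 2 ∧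
      IsLUB {s : ℝ | ∃ a b : ℝ, (a ≠ 0 ∨ b ≠ 0) ∧
        s = ((∫ x in Set.Ioo (-(Metric.diam Ω / 2)) (Metric.diam Ω / 2),
                  deriv (fun y => a * u y + b * w y) x ^ 2) +
              α * ((a * u (-(Metric.diam Ω / 2)) + b * w (-(Metric.diam Ω / 2))) ^ 2 +
                   (a * u (Metric.diam Ω / 2) + b * w (Metric.diam Ω / 2)) ^ 2))
            / (∫ x in Set.Ioo (-(Metric.diam Ω / 2)) (Metric.diam Ω / 2),
                  (a * u x + b * w x) ^ 2)} t} mu1 →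
  mu1 - mu0 ≤ lam1 - lam0) := by
  intro hH
  obtain ⟨c, c0, hc⟩ := H.MP_d01728_an.conv
  have k0 : 0 < 1 / 100 * (Real.pi ^ ((((3 : ℕ) : ℝ) - 1) / 2) /
      Real.Gamma ((((3 : ℕ) : ℝ) - 1) / 2 + 1) / 2 ^ (((3 : ℕ) : ℝ) - 1)) * c := by
    have := Real.Gamma_pos_of_pos (show 0 < (((3 : ℕ) : ℝ) - 1) / 2 + 1 by norm_num)
    have := Real.pi_pos
    positivity
  obtain ⟨a, a0, a1, l0, l1, h0, h1, h⟩ := H.MP_d01728_an.A01 k0
  obtain ⟨d1, d3⟩ := H.MP_d01728_an.dia a0 a1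
  obtain ⟨m0, m1, g0, g1, g⟩ := H.MP_d01728_an.B01 d1 d3
  have := hH 3 (by norm_num) (H.MP_d01728_an.Om a) H.MP_d01728_an.Om_o (H.MP_d01728_an.Om_cv a0)
    (H.MP_d01728_an.Om_bd a0 a1) ⟨0, H.MP_d01728_an.Om_0 a0⟩ (fun _ => 0)
    (convexOn_const 0 (H.MP_d01728_an.Om_cv a0)) continuousOn_const (1 / 100) (by norm_num)
    l0 l1 m0 m1 (by simp only [hc, ← mul_assoc, zero_mul, add_zero]; exact h0)
    (by simp only [hc, ← mul_assoc, zero_mul, add_zero]; exact h1) g0 g1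
  linarith

end Pool.Agent.S06226
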