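import Pool.Statements.S06255
import Pool.Agent.H.MP_d2b9e5.A

set_option autoImplicit false
open Pool Pool.MP_d2b9e5_an

namespace Pool.Agent.S06255

theorem result :
  ∀ (W : Type) [LinearOrder W] [WellFoundedLT W],
    ¬ (Set.univ : Set W).Countable →
    (∀ a : W, (Set.Iio a).Countable) →
    ∀ ρ : W → W → ℕ,
      (∀ α β γ : W, α < β → β < γ →
        ρ α γ ≤ max (ρ α β) (ρ β γ) ∧ ρ α β ≤ max (ρ α γ) (ρ β γ) ∧
          0 < ρ α β ∧ ρ α γ ≠ ρ β γ) →
      ∀ K : Set (W → Bool),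
        K = closure (Set.range (fun p : ℕ × W =>
          fun ξ : W => decide (ξ ≤ p.2 ∧ (ξ = p.2 ∨ ρ ξ p.2 ≤ p.1)))) →
        ∃ (I : Type) (x : I → BoundedContinuousFunction (↥K) ℝ)
          (f : I → (BoundedContinuousFunction (↥K) ℝ →L[ℝ] ℝ)),
          (∀ i j : I, (i = j → f j (x i) = 1) ∧ (i ≠ j → f j (x i) = 0)) ∧
          (Submodule.span ℝ (Set.range x)).topologicalClosure = ⊤ ∧
          (∀ v : BoundedContinuousFunction (↥K) ℝ, (∀ i, f i v = 0) → v = 0) ∧
          ∃ c : ℝ, 0 < c ∧ ∀ v : BoundedContinuousFunction (↥K) ℝ, ∀ t : ℝ, t < c * ‖v‖ →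
            ∃ φ ∈ Submodule.span ℝ (Set.range f), ‖φ‖ ≤ 1 ∧ t < |φ v| := by
  intro W _ _ hU hC ρ hρ K hK
  have hinf : Infinite W := by
    by_contra h
    have := not_infinite_iff_finite.1 h
    exact hU Set.countable_univ
  have hnm : ∀ a : W, ∃ b, a < b := fun a => by
    by_contra h
    push Not at h
    exact hU (((hC a).insert a).mono fun b _ => (h b).eq_or_lt)
  have hfin : ∀ (n : ℕ) (a : W), {ξ | ξ ≤ a ∧ (ξ = a ∨ ρ ξ a ≤ n)}.Finite := fun n a => by
    have h1 : {ξ | ξ < a ∧ ρ ξ a ≤ n}.Finite := by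
      refine Set.Finite.of_finite_image (f := fun ξ => ρ ξ a)
        ((Set.finite_Iic n).subset ?_) fun x hx y hy e => ?_
      · rintro _ ⟨x, hx, rfl⟩; exact hx.2
      · rcases lt_trichotomy x y with h | h | h
        · exact absurd e (hρ x y a h hy.1).2.2.2
        · exact h
        · exact absurd e.symm (hρ y x a h hx.1).2.2.2
    refine (h1.insert a).subset fun x hx => ?_
    rcases hx.1.eq_or_lt with h | h
    · exact Or.inl h
    · exact hx.2.imp id fun h' => ⟨h, h'⟩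
  let F : ℕ → W → Finset W := fun n a => (hfin n a).toFinset
  have hF : ∀ n a ξ, ξ ∈ F n a ↔ ξ ≤ a ∧ (ξ = a ∨ ρ ξ a ≤ n) := fun n a ξ =>
    Set.Finite.mem_toFinset _
  have hO : Pool.Agent.H.MP_d2b9e5.OM F := by
    refine ⟨fun n a => (hF _ _ _).2 ⟨le_rfl, Or.inl rfl⟩, fun n a b hb => ((hF _ _ _).1 hb).1,
      fun n a b hb c hc => ?_, fun a n m hnm b hb => ?_,
      fun a b hb => ⟨ρ b a, (hF _ _ _).2 ⟨hb, Or.inr le_rfl⟩⟩, fun a => ?_⟩
    · obtain ⟨h1, h2⟩ := (hF _ _ _).1 hb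
      rcases h1.eq_or_lt with e | hba
      · rw [e]
      rcases hc.eq_or_lt with e | hcb
      · rw [e]; exact iff_of_true hb ((hF _ _ _).2 ⟨le_rfl, Or.inl rfl⟩)
      have h3 := h2.resolve_left hba.ne
      obtain ⟨r1, r2, -⟩ := hρ c b a hcb hba
      rw [hF, hF]
      constructor
      · rintro ⟨-, h4⟩
        exact ⟨hc, Or.inr (r2.trans (max_le (h4.resolve_left (hcb.trans hba).ne) h3))⟩
      · rintro ⟨-, h4⟩
        exact ⟨hc.trans h1, Or.inr (r1.trans (max_le (h4.resolve_left hcb.ne) h3))⟩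
    · obtain ⟨h1, h2⟩ := (hF _ _ _).1 hb
      exact (hF _ _ _).2 ⟨h1, h2.imp id fun h => h.trans hnm⟩
    · ext b
      rw [hF, Finset.mem_singleton]
      refine ⟨fun h => h.2.elim id fun h2 => h.1.eq_or_lt.elim id fun h3 => ?_,
        fun h => ⟨h.le, Or.inl h⟩⟩
      obtain ⟨c, hc⟩ := hnm a
      exact absurd (hρ b a c h3 hc).2.2.1 (by omega)
  obtain rfl : K = Pool.Agent.H.MP_d2b9e5.KK F := by
    rw [hK, Pool.Agent.H.MP_d2b9e5.KK]
    congr 2
    funext p ξ
    exact decide_eq_decide.2 (hF _ _ _).symm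
  obtain ⟨I, x, f, h1, h2, h3, h4⟩ := hO.mb
  let e := ContinuousMap.linearIsometryBoundedOfCompact (Pool.Agent.H.MP_d2b9e5.KK F) ℝ ℝ
  let T : (C(Pool.Agent.H.MP_d2b9e5.KK F, ℝ) →L[ℝ] ℝ) →ₗ[ℝ]
      (BoundedContinuousFunction (Pool.Agent.H.MP_d2b9e5.KK F) ℝ →L[ℝ] ℝ) :=
    { toFun := fun g => g.comp e.symm.toContinuousLinearEquiv.toContinuousLinearMap
      map_add' := fun _ _ => rfl
      map_smul' := fun _ _ => rfl }
  have key : ∀ v, ∃ φ ∈ Submodule.span ℝ (Set.range fun i => T (f i)), ‖φ‖ ≤ 1 ∧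
      1 / 2 * ‖v‖ ≤ |φ v| := fun v => by
    obtain ⟨g, g1, g2, g3⟩ := h4 (e.symm v)
    refine ⟨T g, ?_, ContinuousLinearMap.opNorm_le_bound _ zero_le_one fun w => ?_, ?_⟩
    · have := Submodule.apply_mem_span_image_of_mem_span T g1
      rwa [← Set.range_comp] at this
    · have := g.le_of_opNorm_le g2 (e.symm w)
      rwa [e.symm.norm_map] at this
    · rwa [e.symm.norm_map] at g3
  refine ⟨I, fun i => e (x i), fun i => T (f i), fun i j => ⟨fun h => ?_, fun h => ?_⟩, ?_,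
    fun v hv => ?_, 1 / 2, by norm_num, fun v t ht => ?_⟩
  · change f j (e.symm (e (x i))) = 1
    rw [e.symm_apply_apply]; exact h1 j i h.symm
  · change f j (e.symm (e (x i))) = 0
    rw [e.symm_apply_apply]; exact h2 j i h.symm
  · rw [← Submodule.dense_iff_topologicalClosure_eq_top]
    refine (e.surjective.denseRange.dense_image e.continuous h3).mono ?_
    rintro _ ⟨y, hy, rfl⟩
    have := Submodule.apply_mem_span_image_of_mem_span e.toLinearEquiv.toLinearMap hy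
    rwa [← Set.range_comp] at this
  · obtain ⟨φ, p1, -, p3⟩ := key v
    have h0 : φ v = 0 := by
      clear p3
      induction p1 using Submodule.span_induction with
      | mem g hg => obtain ⟨i, rfl⟩ := hg; exact hv i
      | zero => rfl
      | add a b _ _ ha hb => rw [ContinuousLinearMap.add_apply, ha, hb, add_zero]
      | smul c a _ ha => rw [ContinuousLinearMap.smul_apply, ha, smul_zero]
    rw [h0, abs_zero] at p3
    exact norm_le_zero_iff.1 (by linarith)
  · obtain ⟨φ, p1, p2, p3⟩ := key v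
    exact ⟨φ, p1, p2, ht.trans_le p3⟩

end Pool.Agent.S06255
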