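import Pool.Statements.S06274
import Pool.Agent.H.MP_d4a912_an.A

set_option autoImplicit false
open Filter Topology
open Pool Pool.MP_d4a912_an Pool.Agent.H.MP_d4a912_an

namespace Pool.Agent.S06274

theorem result :
    ¬ (∀ (X : Type) [NormedAddCommGroup X] [NormedSpace ℝ X] [CompleteSpace X],
      (∀ x : ℕ → X, (∀ n, ‖x n‖ = 1) →
        Tendsto (fun p : ℕ × ℕ => ‖x p.1 + x p.2‖) atTop (𝓝 2) →
        ∀ f : X →L[ℝ] ℝ, CauchySeq (fun n => f (x n))) ↔
      (∀ F : ℕ → ((X →L[ℝ] ℝ) →L[ℝ] ℝ), (∀ n, ‖F n‖ = 1) →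
        Tendsto (fun p : ℕ × ℕ => ‖F p.1 + F p.2‖) atTop (𝓝 2) →
        ∀ f : X →L[ℝ] ℝ, CauchySeq (fun n => F n f))) := by
  intro h
  have p0 : ∀ n, 0 < ‖F n‖ := fun n => by linarith [F_ge n, e1 (n + 1, n + 1)]
  have n1 : ∀ n, ‖‖F n‖⁻¹ • F n‖ = 1 := fun n =>
    (norm_smul_of_nonneg (inv_nonneg.2 (p0 n).le) (F n)).trans (inv_mul_cancel₀ (p0 n).ne')
  have ti : Tendsto (fun n => ‖F n‖⁻¹) atTop (𝓝 1) := by simpa using F_lim.inv₀ one_ne_zero
  have t1 : Tendsto (Prod.fst : ℕ × ℕ → ℕ) atTop atTop := by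
    rw [← prod_atTop_atTop_eq]
    exact tendsto_fst
  have t2 : Tendsto (Prod.snd : ℕ × ℕ → ℕ) atTop atTop := by
    rw [← prod_atTop_atTop_eq]
    exact tendsto_snd
  have t3 := ((ti.comp t1).add (ti.comp t2)).mul (e_lim.const_sub 1)
  rw [sub_zero, mul_one, one_add_one_eq_two] at t3
  obtain ⟨l, hl⟩ := cauchySeq_tendsto_of_complete ((h X).1 wcr (fun n => ‖F n‖⁻¹ • F n) n1
    (tendsto_of_tendsto_of_tendsto_of_le_of_le t3 tendsto_const_nhds (fun p => by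
      refine le_trans ?_ (le_F _ (p.1 + 1, p.2 + 1))
      simp only [_root_.add_apply, _root_.smul_apply, F_ρ, χ, true_or, or_true, if_true, one_mul,
        smul_eq_mul, Function.comp_apply, ← add_mul]
      exact mul_le_mul_of_nonneg_left (c_ge _) (by positivity)) fun p =>
        (norm_add_le (‖F p.1‖⁻¹ • F p.1) (‖F p.2‖⁻¹ • F p.2)).trans_eq
          ((congrArg₂ (· + ·) (n1 _) (n1 _)).trans one_add_one_eq_two)) (ρ 0))
  have c1 : √(c (0, 0) 0) = 1 := by simp [c, D_diag, w]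
  have s0 : Tendsto (fun n : ℕ => 2 * n) atTop atTop := tendsto_id.const_mul_atTop' two_pos
  have l1 := tendsto_nhds_unique (hl.comp s0) ((ti.comp s0).congr fun n => by
    simp [F_ρ, χ, c1])
  have l2 := tendsto_nhds_unique (hl.comp ((tendsto_add_atTop_nat 1).comp s0))
    ((tendsto_const_nhds (x := (0 : ℝ))).congr fun n => by simp [F_ρ, χ])
  exact one_ne_zero (l1.symm.trans l2)

end Pool.Agent.S06274
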