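import Pool.Statements.S06280

set_option autoImplicit false
open Pool Pool.MP_d4c9a2_an

namespace Pool.Agent.S06280

open Filter Topology
open scoped ContDiff

/-- the space -/
abbrev E : Type := Fin 3 → ℂ

theorem lemA (g : E → ℂ) (hg : ContDiff ℂ ω g) (D : ℕ) (hD : ∀ (t : ℂ) (v : E), g (t • v) = t ^ D * g v)
    (m : ℕ) (hm : m ≠ D) : iteratedFDeriv ℂ m g 0 = 0 := by
  have h1 := congrFun (iteratedFDeriv_comp_const_smul (2 : ℂ) (hg.of_le (le_top : (m : ℕ∞ω) ≤ ω))) 0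
  have h2 : (fun z => g ((2 : ℂ) • z)) = ((2 : ℂ) ^ D) • g := by
    ext z; simp [hD]
  rw [h2, iteratedFDeriv_const_smul_apply (hg.of_le (le_top : (m : ℕ∞ω) ≤ ω)).contDiffAt,
    smul_zero] at h1
  have h3 : ((2 : ℂ) ^ D - 2 ^ m) • iteratedFDeriv ℂ m g 0 = 0 := by
    rw [sub_smul, h1, sub_self]
  rcases smul_eq_zero.1 h3 with h | h
  · exfalso
    have : (2 : ℂ) ^ D = 2 ^ m := sub_eq_zero.1 h
    have h4 : (2 : ℕ) ^ D = 2 ^ m := by exact_mod_cast this
    exact hm (Nat.pow_right_injective le_rfl h4).symm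
  · exact h

theorem lemB (g : E → ℂ) (hg : ContDiff ℂ ω g) (D : ℕ) (hD : ∀ (t : ℂ) (v : E), g (t • v) = t ^ D * g v)
    (v : E) (hv : g v ≠ 0) : iteratedFDeriv ℂ D g 0 ≠ 0 := by
  intro h0
  have hall : ∀ m, iteratedFDeriv ℂ m g 0 = 0 := by
    intro m
    by_cases hm : m = D
    · rw [hm]; exact h0
    · exact lemA g hg D hD m hm
  obtain ⟨p, r, hp⟩ : AnalyticAt ℂ g 0 := hg.contDiffAt.analyticAt
  have hz : ∀ y ∈ Metric.eball (0 : E) r, g y = 0 := by
    intro y hy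
    have := hp.hasSum_iteratedFDeriv hy
    simp only [hall, zero_apply, smul_zero, zero_add] at this
    exact this.unique hasSum_zero
  have h1 : Tendsto (fun t : ℂ => t • v) (𝓝[≠] 0) (𝓝 0) := by
    have : Continuous (fun t : ℂ => t • v) := by fun_prop
    have h2 := this.tendsto 0
    rw [zero_smul] at h2
    exact h2.mono_left nhdsWithin_le_nhds
  have h2 := h1.eventually (Metric.eball_mem_nhds (0 : E) hp.r_pos)
  obtain ⟨t, ht, ht0⟩ := (h2.and self_mem_nhdsWithin).exists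
  have h3 := hz _ ht
  rw [hD] at h3
  exact mul_ne_zero (pow_ne_zero _ ht0) hv h3

theorem lemC (F : E → E) (hF : ContDiff ℂ ω F) (m : ℕ) :
    iteratedFDeriv ℂ m F 0 = 0 ↔ ∀ i, iteratedFDeriv ℂ m (fun v => F v i) 0 = 0 := by
  have key : ∀ i, iteratedFDeriv ℂ m (fun v => F v i) 0 =
      (ContinuousLinearMap.proj i : E →L[ℂ] ℂ).compContinuousMultilinearMap
        (iteratedFDeriv ℂ m F 0) := fun i =>
    (ContinuousLinearMap.proj i : E →L[ℂ] ℂ).iteratedFDeriv_comp_left hF.contDiffAt le_top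
  constructor
  · intro h i
    rw [key, h]; ext; simp
  · intro h
    ext u i
    have := congrArg (fun L => L u) ((key i).symm.trans (h i))
    simpa using this

/-- the monomial map -/
def f (z : E) : E := ![z 0 ^ 2 * z 2, z 0 * z 1 ^ 3, z 1 ^ 2 * z 2 ^ 3]

theorem f_cd : ContDiff ℂ ω f := by
  rw [contDiff_pi]
  intro i
  fin_cases i <;> simp [f] <;> fun_prop

theorem fk_cd (k : ℕ) : ContDiff ℂ ω (f^[k]) := by
  induction k with
  | zero => exact contDiff_id
  | succ k ih => rw [Function.iterate_succ']; exact f_cd.comp ih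

theorem f_det (z : E) : (fderiv ℂ f z).det = 20 * z 0 ^ 2 * z 1 ^ 4 * z 2 ^ 3 := by
  have a : ∀ i : Fin 3, HasFDerivAt (fun v : E => v i) (ContinuousLinearMap.proj i : E →L[ℂ] ℂ) z :=
    fun i => hasFDerivAt_apply i z
  have h0 := ((a 0).pow 2).mul (a 2)
  have h1 := (a 0).mul ((a 1).pow 3)
  have h2 := ((a 1).pow 2).mul ((a 2).pow 3)
  have hdf : DifferentiableAt ℂ f z := (f_cd.differentiable (by simp)).differentiableAt
  have key : ∀ (i : Fin 3) (v : E), fderiv ℂ f z v i = fderiv ℂ (fun w => f w i) z v := by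
    intro i v
    rw [(hasFDerivAt_pi'.1 hdf.hasFDerivAt i).fderiv]; rfl
  have k0 : fderiv ℂ (fun w => f w 0) z = _ := h0.fderiv
  have k1 : fderiv ℂ (fun w => f w 1) z = _ := h1.fderiv
  have k2 : fderiv ℂ (fun w => f w 2) z = _ := h2.fderiv
  rw [ContinuousLinearMap.det, ← LinearMap.det_toMatrix', Matrix.det_fin_three]
  simp only [LinearMap.toMatrix'_apply, ContinuousLinearMap.coe_coe, key, k0, k1, k2]
  simp
  ring

/-- degrees of the components of the iterates -/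
def r : ℕ → ℕ × ℕ × ℕ
  | 0 => (1, 1, 1)
  | k + 1 => (2 * (r k).1 + (r k).2.2, (r k).1 + 3 * (r k).2.1, 2 * (r k).2.1 + 3 * (r k).2.2)

theorem homog (k : ℕ) (t : ℂ) (v : E) :
    f^[k] (t • v) 0 = t ^ (r k).1 * f^[k] v 0 ∧ f^[k] (t • v) 1 = t ^ (r k).2.1 * f^[k] v 1 ∧
      f^[k] (t • v) 2 = t ^ (r k).2.2 * f^[k] v 2 := by
  induction k with
  | zero => simp [r]
  | succ k ih =>
    obtain ⟨h0, h1, h2⟩ := ih
    simp only [Function.iterate_succ_apply', r]
    generalize f^[k] (t • v) = a at *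
    generalize f^[k] v = b at *
    simp [f, h0, h1, h2]
    refine ⟨by ring, by ring, by ring⟩

theorem fk_one (k : ℕ) : f^[k] (fun _ => 1) = fun _ => 1 := by
  apply Function.iterate_fixed
  ext i; fin_cases i <;> simp [f]

theorem r_le (k : ℕ) : (r k).1 ≤ (r k).2.2 := by
  induction k with
  | zero => simp [r]
  | succ k ih => simp only [r]; omega

theorem order_eq (k : ℕ) :
    sInf {m : ℕ | iteratedFDeriv ℂ m (f^[k]) 0 ≠ 0} = min (r k).1 (r k).2.1 := by
  have cd : ∀ i, ContDiff ℂ ω (fun v => f^[k] v i) := fun i => contDiff_pi.1 (fk_cd k) i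
  have n0 := lemB _ (cd 0) _ (fun t v => (homog k t v).1) (fun _ => 1) (by rw [fk_one]; simp)
  have n1 := lemB _ (cd 1) _ (fun t v => (homog k t v).2.1) (fun _ => 1) (by rw [fk_one]; simp)
  have z0 := lemA _ (cd 0) _ (fun t v => (homog k t v).1)
  have z1 := lemA _ (cd 1) _ (fun t v => (homog k t v).2.1)
  have z2 := lemA _ (cd 2) _ (fun t v => (homog k t v).2.2)
  apply IsLeast.csInf_eq
  constructor
  · intro h
    rw [lemC _ (fk_cd k)] at h
    rcases min_choice (r k).1 (r k).2.1 with e | e <;> rw [e] at h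
    · exact n0 (h 0)
    · exact n1 (h 1)
  · intro m hm
    by_contra hlt
    apply hm
    rw [lemC _ (fk_cd k)]
    have := r_le k
    intro i
    fin_cases i
    · exact z0 m (by omega)
    · exact z1 m (by omega)
    · exact z2 m (by omega)

/-- the complex eigenvalue -/
def μ : ℂ := ⟨2, 1⟩

theorem μ_pow (k : ℕ) : (μ ^ k).re = ((r k).1 : ℝ) + (r k).2.1 - (r k).2.2 ∧
    (μ ^ k).im = ((r k).2.1 : ℝ) - (r k).1 := by
  induction k with
  | zero => simp [r]
  | succ k ih =>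
    rw [pow_succ, Complex.mul_re, Complex.mul_im, ih.1, ih.2]
    simp only [r, μ]
    push_cast
    constructor <;> ring

theorem r_mod (k : ℕ) :
    ((((r (k + 1)).1 : ℤ) + (r (k + 1)).2.1 - (r (k + 1)).2.2) % 5 = 2 ∧
      (((r (k + 1)).2.1 : ℤ) - (r (k + 1)).1) % 5 = 1) ∨
    ((((r (k + 1)).1 : ℤ) + (r (k + 1)).2.1 - (r (k + 1)).2.2) % 5 = 3 ∧
      (((r (k + 1)).2.1 : ℤ) - (r (k + 1)).1) % 5 = 4) := by
  induction k with
  | zero => simp [r]
  | succ k ih =>
    rw [r]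
    generalize r (k + 1) = q at *
    push_cast
    omega

theorem im_ne (k : ℕ) (hk : 0 < k) : (μ ^ k).im ≠ 0 := by
  obtain ⟨k, rfl⟩ : ∃ j, k = j + 1 := ⟨k - 1, by omega⟩
  rw [(μ_pow _).2]
  intro h
  have h1 : (((r (k + 1)).2.1 : ℤ) - (r (k + 1)).1) = 0 := by exact_mod_cast h
  have := r_mod k
  omega

theorem μ_ne : μ ≠ 0 := by
  intro h
  have := congrArg Complex.im h
  simp [μ] at this

theorem vanish (H : ℂ → ℝ) (hc : Continuous H) (hh : ∀ (s : ℝ) (w : ℂ), 0 ≤ s → H (s * w) = s * H w)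
    (K : ℕ) (hK : ∀ k, K ≤ k → H (μ ^ k) = 0) (w : ℂ) : H w = 0 := by
  have hn : 0 < ‖μ‖ := norm_pos_iff.2 μ_ne
  let ν : Circle := ⟨μ / (‖μ‖ : ℂ), by
    simp [Submonoid.unitSphere, hn.ne']⟩
  have hν : (ν : ℂ) = μ / (‖μ‖ : ℂ) := rfl
  have hνk : ∀ k : ℕ, μ ^ k = ((‖μ‖ ^ k : ℝ) : ℂ) * (ν : ℂ) ^ k := by
    intro k
    have : (‖μ‖ : ℂ) ≠ 0 := by exact_mod_cast hn.ne'
    rw [hν, div_pow]; push_cast; field_simp
  have surj : Function.Surjective (AddCircle.toCircle : AddCircle (1 : ℝ) → Circle) := by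
    intro c
    obtain ⟨b, hb⟩ := (AddCircle.homeomorphCircle (T := 1) one_ne_zero).surjective c
    exact ⟨b, by rw [← hb, AddCircle.homeomorphCircle_apply]⟩
  obtain ⟨a, ha⟩ := surj ν
  have hd : DenseRange (· • a : ℤ → AddCircle (1 : ℝ)) := by
    rw [AddCircle.denseRange_zsmul_iff, addOrderOf_eq_zero_iff']
    intro n hn0 h
    have h1 := AddCircle.toCircle_nsmul a n
    rw [h, AddCircle.toCircle_zero, ha] at h1
    have h2 : (ν : ℂ) ^ n = 1 := by rw [← Circle.coe_pow, ← h1]; rfl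
    apply im_ne n hn0
    rw [hνk, h2, mul_one, Complex.ofReal_im]
  have hcirc : ∀ b : AddCircle (1 : ℝ), H (AddCircle.toCircle b : Circle) = 0 := by
    intro b
    have h1 : MapClusterPt b atTop (· • a : ℕ → AddCircle (1 : ℝ)) :=
      ((mapClusterPt_atTop_nsmul_tfae b a).out 0 3).2 (hd b)
    have h2 : IsClosed {b : AddCircle (1 : ℝ) | H (AddCircle.toCircle b : Circle) = 0} := by
      apply isClosed_eq _ continuous_const
      exact hc.comp (continuous_subtype_val.comp AddCircle.continuous_toCircle)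
    refine h2.mem_of_mapClusterPt h1 ?_
    filter_upwards [eventually_ge_atTop K] with k hk
    have h3 := hK k hk
    rw [hνk, hh _ _ (by positivity)] at h3
    have h4 : H ((ν : ℂ) ^ k) = 0 := (mul_eq_zero.1 h3).resolve_left (by positivity)
    show H (AddCircle.toCircle (k • a) : Circle) = 0
    rw [AddCircle.toCircle_nsmul, ha, Circle.coe_pow]; exact h4
  by_cases hw : w = 0
  · have := hh 0 0 le_rfl
    simpa [hw] using this
  · have hwn : 0 < ‖w‖ := norm_pos_iff.2 hw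
    let c : Circle := ⟨w / (‖w‖ : ℂ), by simp [Submonoid.unitSphere, hwn.ne']⟩
    obtain ⟨b, hb⟩ := surj c
    have h1 := hcirc b
    rw [hb] at h1
    have h2 : w = (‖w‖ : ℂ) * (c : ℂ) := by
      have : (‖w‖ : ℂ) ≠ 0 := by exact_mod_cast hwn.ne'
      show w = (‖w‖ : ℂ) * (w / (‖w‖ : ℂ))
      field_simp
    rw [h2, hh _ _ hwn.le, h1, mul_zero]

/-- absolute imaginary part along the orbit -/
noncomputable def B (j : ℕ) (w : ℂ) : ℝ := |(μ ^ j * w).im|

theorem B_cont (j : ℕ) : Continuous (B j) := by unfold B; fun_prop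

theorem B_hom (j : ℕ) (s : ℝ) (w : ℂ) (hs : 0 ≤ s) : B j (s * w) = s * B j w := by
  unfold B
  rw [mul_left_comm, Complex.im_ofReal_mul, abs_mul, abs_of_nonneg hs]

theorem B_pow (j k : ℕ) : B j (μ ^ k) =
    ((r (k + j)).1 : ℝ) + (r (k + j)).2.1 - 2 * ((min (r (k + j)).1 (r (k + j)).2.1 : ℕ) : ℝ) := by
  unfold B
  rw [← pow_add, add_comm j k, (μ_pow _).2]
  push_cast
  rcases le_total ((r (k + j)).1 : ℝ) (r (k + j)).2.1 with h | h
  · rw [min_eq_left h, abs_of_nonneg (by linarith)]; ring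
  · rw [min_eq_right h, abs_of_nonpos (by linarith)]; ring

/-- the filtered sequence -/
noncomputable def G (j : ℕ) (w : ℂ) : ℝ := B (j + 3) w - 8 * B (j + 2) w + 21 * B (j + 1) w - 20 * B j w

/-- the orders -/
def c (k : ℕ) : ℕ := min (r k).1 (r k).2.1

theorem G_pow (j k : ℕ) : G j (μ ^ k) =
    -2 * ((c (k + 3 + j) : ℝ) - 8 * c (k + 2 + j) + 21 * c (k + 1 + j) - 20 * c (k + j)) := by
  unfold G c
  simp only [B_pow]
  have e3 : k + 3 + j = k + j + 1 + 1 + 1 := by ring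
  have e2 : k + 2 + j = k + j + 1 + 1 := by ring
  have e1 : k + 1 + j = k + j + 1 := by ring
  have f3 : k + (j + 3) = k + j + 1 + 1 + 1 := by ring
  have f2 : k + (j + 2) = k + j + 1 + 1 := by ring
  have f1 : k + (j + 1) = k + j + 1 := by ring
  rw [e3, e2, e1, f3, f2, f1]
  generalize ((min (r (k + j + 1 + 1 + 1)).1 (r (k + j + 1 + 1 + 1)).2.1 : ℕ) : ℝ) = m3
  generalize ((min (r (k + j + 1 + 1)).1 (r (k + j + 1 + 1)).2.1 : ℕ) : ℝ) = m2
  generalize ((min (r (k + j + 1)).1 (r (k + j + 1)).2.1 : ℕ) : ℝ) = m1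
  generalize ((min (r (k + j)).1 (r (k + j)).2.1 : ℕ) : ℝ) = m0
  simp only [r]
  push_cast
  ring

theorem B_diff (D j : ℕ) (hj : j < D) :
    DifferentiableAt ℝ (fun t : ℝ => B j ((μ ^ D)⁻¹ * (1 + t * Complex.I))) 0 := by
  unfold B
  apply DifferentiableAt.abs
  · have : (fun t : ℝ => (μ ^ j * ((μ ^ D)⁻¹ * (1 + t * Complex.I))).im) =
        fun t : ℝ => (μ ^ j * (μ ^ D)⁻¹).im + t * (μ ^ j * (μ ^ D)⁻¹).re := by
      ext t; rw [← mul_assoc]
      generalize μ ^ j * (μ ^ D)⁻¹ = q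
      simp [Complex.mul_im]; ring
    rw [this]; fun_prop
  · obtain ⟨e, rfl⟩ : ∃ e, D = j + (e + 1) := ⟨D - j - 1, by omega⟩
    have h1 : μ ^ j * ((μ ^ (j + (e + 1)))⁻¹ * (1 + ((0 : ℝ) : ℂ) * Complex.I)) = (μ ^ (e + 1))⁻¹ := by
      have := μ_ne
      rw [pow_add]; field_simp; simp
    rw [h1, Complex.inv_im]
    apply div_ne_zero (neg_ne_zero.2 (im_ne _ (Nat.succ_pos e)))
    exact (Complex.normSq_pos.2 (pow_ne_zero _ μ_ne)).ne'

theorem no_rec (d : ℕ) (a : Fin d → ℤ) (K : ℕ)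
    (h : ∀ k, K ≤ k → (c (k + d) : ℤ) = ∑ i : Fin d, a i * (c (k + i) : ℤ)) : False := by
  have h' : ∀ k, K ≤ k → (c (k + d) : ℝ) = ∑ i : Fin d, (a i : ℝ) * (c (k + i) : ℝ) := by
    intro k hk; exact_mod_cast h k hk
  let H : ℂ → ℝ := fun w => G d w - ∑ i : Fin d, (a i : ℝ) * G i w
  have hH : ∀ w, H w = 0 := by
    apply vanish H _ _ K
    · intro k hk
      simp only [H, G_pow]
      rw [h' (k + 3) (by omega), h' (k + 2) (by omega), h' (k + 1) (by omega), h' k hk]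
      simp only [Finset.mul_sum, ← Finset.sum_sub_distrib, ← Finset.sum_add_distrib]
      apply Finset.sum_eq_zero
      intro i _; ring
    · have := B_cont
      simp only [H, G]; fun_prop
    · intro s w hs
      simp only [H, G, B_hom _ s w hs, mul_sub, Finset.mul_sum]
      congr 1
      · ring
      · apply Finset.sum_congr rfl; intro i _; ring
  let γ : ℝ → ℂ := fun t => (μ ^ (d + 3))⁻¹ * (1 + t * Complex.I)
  have e : (abs : ℝ → ℝ) = fun t => 8 * B (d + 2) (γ t) - 21 * B (d + 1) (γ t) + 20 * B d (γ t) +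
      ∑ i : Fin d, (a i : ℝ) * (B (i + 3) (γ t) - 8 * B (i + 2) (γ t) + 21 * B (i + 1) (γ t)
        - 20 * B i (γ t)) := by
    ext t
    have h1 := hH (γ t)
    have h2 : B (d + 3) (γ t) = |t| := by
      unfold B
      simp only [γ]
      rw [← mul_assoc, mul_inv_cancel₀ (pow_ne_zero _ μ_ne)]
      simp
    simp only [H, G] at h1
    linarith
  apply not_differentiableAt_abs_zero
  rw [e]
  have q := B_diff (d + 3)
  refine ((((q _ (by omega)).const_mul 8).sub ((q _ (by omega)).const_mul 21)).add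
    ((q _ (by omega)).const_mul 20)).add (DifferentiableAt.fun_sum (fun i _ => ?_))
  have hi := i.2
  exact (((((q _ (by omega)).sub ((q _ (by omega)).const_mul 8)).add
    ((q _ (by omega)).const_mul 21)).sub ((q _ (by omega)).const_mul 20))).const_mul _

theorem result :
    ¬ (∀ (n : ℕ) (f : (Fin n → ℂ) → (Fin n → ℂ)),
      AnalyticAt ℂ f 0 → f 0 = 0 →
      (fderiv ℂ f 0).det = 0 →
      (∀ ε : ℝ, 0 < ε → ∃ z : Fin n → ℂ, ‖z‖ < ε ∧ (fderiv ℂ f z).det ≠ 0) →
      ∃ (d : ℕ) (a : Fin d → ℤ) (K : ℕ), ∀ k : ℕ, K ≤ k →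
        ((sInf {m : ℕ | iteratedFDeriv ℂ m (f^[k + d]) 0 ≠ 0} : ℕ) : ℤ) =
          ∑ i : Fin d, a i *
            ((sInf {m : ℕ | iteratedFDeriv ℂ m (f^[k + (i : ℕ)]) 0 ≠ 0} : ℕ) : ℤ)) := by
  intro h
  obtain ⟨d, a, K, hK⟩ := h 3 f f_cd.contDiffAt.analyticAt
    (by ext i; fin_cases i <;> simp [f]) (by rw [f_det]; simp) (by
      intro ε hε
      refine ⟨fun _ => ((ε / 2 : ℝ) : ℂ), ?_, ?_⟩
      · rw [pi_norm_const, Complex.norm_real, Real.norm_of_nonneg (by positivity)]; linarith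
      · rw [f_det]
        have : ((ε / 2 : ℝ) : ℂ) ≠ 0 := by exact_mod_cast (by positivity : (ε / 2 : ℝ) ≠ 0)
        exact mul_ne_zero (mul_ne_zero (mul_ne_zero (by norm_num) (pow_ne_zero _ this))
          (pow_ne_zero _ this)) (pow_ne_zero _ this))
  simp only [order_eq] at hK
  exact no_rec d a K hK

end Pool.Agent.S06280
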