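import Pool.Statements.S06302

set_option autoImplicit false
open Pool Pool.MP_d610ab_an

namespace Pool.Agent.S06302

open Complex Filter Topology

noncomputable def g (u : ℂ) : ℂ := log ((1 + u) / (1 - u))

lemma re_pos {u : ℂ} (hu : ‖u‖ < 1) : 0 < ((1 + u) / (1 - u)).re := by
  have h1 : 1 - u ≠ 0 := fun h => by rw [← sub_eq_zero.1 h] at hu; simp at hu
  have h2 : normSq u < 1 := by rw [normSq_eq_norm_sq]; nlinarith [norm_nonneg u]
  rw [div_re, ← add_div]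
  refine div_pos ?_ (normSq_pos.2 h1)
  simp [normSq_apply] at h2 ⊢
  linarith

lemma g_deriv {u : ℂ} (hu : ‖u‖ < 1) : HasDerivAt g (2 / (1 - u ^ 2)) u := by
  have h1 : 1 - u ≠ 0 := fun h => by rw [← sub_eq_zero.1 h] at hu; simp at hu
  have h2 : 1 + u ≠ 0 := fun h => by rw [eq_neg_of_add_eq_zero_right h] at hu; simp at hu
  have h3 : 1 - u ^ 2 ≠ 0 := by rw [show 1 - u ^ 2 = (1 - u) * (1 + u) by ring]; exact mul_ne_zero h1 h2
  have := (((hasDerivAt_id u).const_add 1).div ((hasDerivAt_id u).const_sub 1) h1).clog (Or.inl (re_pos hu))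
  refine this.congr_deriv ?_
  simp only [id, Pi.div_apply]
  field_simp
  ring

lemma g_im {u : ℂ} (hu : ‖u‖ < 1) : |(g u).im| < Real.pi / 2 := by
  rw [g, log_im]; exact abs_arg_lt_pi_div_two_iff.2 (Or.inl (re_pos hu))

lemma g_inj {u v : ℂ} (hu : ‖u‖ < 1) (hv : ‖v‖ < 1) (h : g u = g v) : u = v := by
  have a : ∀ u : ℂ, ‖u‖ < 1 → (1 + u) / (1 - u) ≠ 0 := fun u hu h => by
    have := re_pos hu
    rw [h] at this; simp at this
  have b : ∀ u : ℂ, ‖u‖ < 1 → 1 - u ≠ 0 := fun u hu h => by rw [← sub_eq_zero.1 h] at hu; simp at hu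
  have := congrArg exp h
  rw [g, g, exp_log (a u hu), exp_log (a v hv), div_eq_div_iff (b u hu) (b v hv)] at this
  linear_combination this / 2

lemma g_zero : g 0 = 0 := by simp [g]

lemma bdd (φ : ℂ → ℂ) (hd : DifferentiableOn ℂ φ (Metric.ball 0 1)) (h0 : φ 0 = 0) (h1 : deriv φ 0 = 1)
    (hne : ∀ u, ‖u‖ < 1 → u ≠ 0 → φ u ≠ 0) : ∃ C : ℝ, ∀ z : ℂ, 2 < ‖z‖ → ‖(φ z⁻¹)⁻¹ - z‖ ≤ C := by
  have hb : Metric.ball (0 : ℂ) 1 ∈ 𝓝 (0 : ℂ) := Metric.ball_mem_nhds _ one_pos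
  have d1 := (Complex.differentiableOn_dslope hb).2 hd
  have n1 : ∀ u ∈ Metric.ball (0 : ℂ) 1, dslope φ 0 u ≠ 0 := fun u hu => by
    by_cases h : u = 0
    · rw [h, dslope_same, h1]; exact one_ne_zero
    · rw [dslope_of_ne _ h, slope_def_field, h0]
      simpa using ⟨hne u (by simpa using hu) h, h⟩
  have d2 := (Complex.differentiableOn_dslope hb).2 (d1.inv n1)
  obtain ⟨C, hC⟩ := (isCompact_closedBall (0 : ℂ) (1 / 2)).exists_bound_of_continuousOn
    (d2.continuousOn.mono (Metric.closedBall_subset_ball (by norm_num)))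
  refine ⟨C, fun z hz => ?_⟩
  have z0 : z ≠ 0 := by rintro rfl; norm_num at hz
  have hz1 : ‖z⁻¹‖ ≤ 1 / 2 := by rw [norm_inv, one_div]; exact inv_anti₀ two_pos hz.le
  have := hC z⁻¹ (by simpa using hz1)
  have p0 := hne z⁻¹ (by linarith) (inv_ne_zero z0)
  rw [dslope_of_ne _ (inv_ne_zero z0), slope_def_field, Pi.inv_apply, Pi.inv_apply, dslope_same, h1,
    dslope_of_ne _ (inv_ne_zero z0), slope_def_field, h0] at this
  have e : (((φ z⁻¹ - 0) / (z⁻¹ - 0))⁻¹ - 1⁻¹) / (z⁻¹ - 0) = (φ z⁻¹)⁻¹ - z := by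
    simp only [sub_zero]; field_simp
  rwa [e] at this

noncomputable def ζ (z : ℂ) : ℂ := g z⁻¹
noncomputable def q (z : ℂ) : ℂ := -2 / (z ^ 2 - 1)

lemma inv_lt {z : ℂ} (hz : 1 < ‖z‖) : ‖z⁻¹‖ < 1 := by rw [norm_inv]; exact inv_lt_one_of_one_lt₀ hz
lemma z0 {z : ℂ} (hz : 1 < ‖z‖) : z ≠ 0 := by rintro rfl; norm_num at hz
lemma sq_ge {z : ℂ} : ‖z‖ ^ 2 - 1 ≤ ‖z ^ 2 - 1‖ := by
  have := norm_sub_norm_le (z ^ 2) 1
  rwa [norm_pow, norm_one] at this
lemma sq_ne {z : ℂ} (hz : 1 < ‖z‖) : z ^ 2 - 1 ≠ 0 := fun h => by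
  have := sq_ge (z := z)
  rw [h, norm_zero] at this; nlinarith
lemma ζ_deriv {z : ℂ} (hz : 1 < ‖z‖) : HasDerivAt ζ (q z) z := by
  have := (g_deriv (inv_lt hz)).comp z (hasDerivAt_inv (z0 hz))
  refine this.congr_deriv ?_
  have h1 := z0 hz
  have h2 := sq_ne hz
  have h3 : 1 - z⁻¹ ^ 2 = (z ^ 2 - 1) / z ^ 2 := by field_simp
  rw [h3, q]; field_simp
lemma q_deriv {z : ℂ} (hz : 1 < ‖z‖) : HasDerivAt q (z * q z ^ 2) z := by
  have h2 := sq_ne hz
  have := (hasDerivAt_const z (-2 : ℂ)).div ((hasDerivAt_pow 2 z).sub_const 1) h2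
  refine this.congr_deriv ?_
  simp only [q]; field_simp; norm_num; ring
lemma q_ne {z : ℂ} (hz : 1 < ‖z‖) : q z ≠ 0 := div_ne_zero (by norm_num) (sq_ne hz)
lemma ζ_ne {z : ℂ} (hz : 1 < ‖z‖) : ζ z ≠ 0 := fun h =>
  inv_ne_zero (z0 hz) (g_inj (inv_lt hz) (by simp) (h.trans g_zero.symm))

lemma dd {F F1 P P1 : ℂ → ℂ} (h1 : ∀ z, 1 < ‖z‖ → HasDerivAt F (F1 z) z)
    (h2 : ∀ z, 1 < ‖z‖ → HasDerivAt F1 (F1 z * P z) z) (h3 : ∀ z, 1 < ‖z‖ → F1 z ≠ 0)
    (h4 : ∀ z, 1 < ‖z‖ → HasDerivAt P (P1 z) z) (z : ℂ) (hz : 1 < ‖z‖) :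
    deriv (deriv F) z / deriv F z = P z ∧ deriv (fun w => deriv (deriv F) w / deriv F w) z = P1 z := by
  have ho : ∀ z : ℂ, 1 < ‖z‖ → ∀ᶠ w in 𝓝 z, 1 < ‖w‖ := fun z hz =>
    (isOpen_lt continuous_const continuous_norm).mem_nhds hz
  have a : ∀ z, 1 < ‖z‖ → deriv (deriv F) z / deriv F z = P z := fun z hz => by
    have e : deriv F =ᶠ[𝓝 z] F1 := (ho z hz).mono fun w hw => (h1 w hw).deriv
    rw [e.deriv_eq, (h2 z hz).deriv, (h1 z hz).deriv, mul_div_cancel_left₀ _ (h3 z hz)]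
  refine ⟨a z hz, ?_⟩
  have e : (fun w => deriv (deriv F) w / deriv F w) =ᶠ[𝓝 z] P := (ho z hz).mono a
  rw [e.deriv_eq, (h4 z hz).deriv]

noncomputable def f0 (z : ℂ) : ℂ := (ζ z / 2)⁻¹
lemma f0_d {z : ℂ} (hz : 1 < ‖z‖) : HasDerivAt f0 (-2 * q z / ζ z ^ 2) z := by
  have h := ζ_ne hz
  have := ((ζ_deriv hz).div_const 2).inv (div_ne_zero h two_ne_zero)
  refine this.congr_deriv ?_
  field_simp
lemma f0_dd (z : ℂ) (hz : 1 < ‖z‖) : deriv (deriv f0) z / deriv f0 z = -2 * q z / ζ z + z * q z ∧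
    deriv (fun w => deriv (deriv f0) w / deriv f0 w) z =
      -2 * z * q z ^ 2 / ζ z + 2 * q z ^ 2 / ζ z ^ 2 + (q z + z * (z * q z ^ 2)) := by
  refine dd (F1 := fun z => -2 * q z / ζ z ^ 2) (P := fun z => -2 * q z / ζ z + z * q z)
    (P1 := fun z => -2 * z * q z ^ 2 / ζ z + 2 * q z ^ 2 / ζ z ^ 2 + (q z + z * (z * q z ^ 2)))
    (fun z hz => f0_d hz) (fun z hz => ?_) (fun z hz => ?_) (fun z hz => ?_) z hz
  · have h := ζ_ne hz
    have := ((q_deriv hz).const_mul (-2)).div ((ζ_deriv hz).pow 2) (pow_ne_zero 2 h)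
    refine this.congr_deriv ?_
    simp only [Pi.pow_apply]; field_simp; push_cast; ring
  · exact div_ne_zero (mul_ne_zero (by norm_num) (q_ne hz)) (pow_ne_zero 2 (ζ_ne hz))
  · have h := ζ_ne hz
    have := (((q_deriv hz).const_mul (-2)).div (ζ_deriv hz) h).add ((hasDerivAt_id z).mul (q_deriv hz))
    refine this.congr_deriv ?_
    simp only [id]; field_simp; ring

noncomputable def p (n : ℕ) : ℂ := n + 4 * I
noncomputable def l (n : ℕ) : ℂ := 2 * Real.pi * I / p n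
lemma p_ne (n : ℕ) : p n ≠ 0 := fun h => by
  have := congrArg im h
  simp [p] at this
lemma l_ne (n : ℕ) : l n ≠ 0 := div_ne_zero two_pi_I_ne_zero (p_ne n)
lemma l_norm (n : ℕ) (hn : 0 < n) : ‖l n‖ ≤ 8 / n := by
  have h1 : (n : ℝ) ≤ ‖p n‖ := by simpa [p] using re_le_norm (p n)
  have h2 : (0 : ℝ) < n := by exact_mod_cast hn
  rw [l, norm_div]
  gcongr
  simp [abs_of_pos Real.pi_pos]
  linarith [Real.pi_le_four]
lemma exp_inj (n : ℕ) {a b : ℂ} (ha : |a.im| < Real.pi / 2) (hb : |b.im| < Real.pi / 2)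
    (h : exp (l n * a) = exp (l n * b)) : a = b := by
  obtain ⟨k, hk⟩ := exp_eq_exp_iff_exists_int.1 h
  have e : a = b + k * p n := by
    apply mul_left_cancel₀ (l_ne n)
    rw [hk, l]; field_simp [p_ne n]
  have h2 := congrArg im e
  simp [p] at h2
  have h3 : |(k : ℝ)| < 1 := by
    have a1 := abs_lt.1 ha
    have a2 := abs_lt.1 hb
    rw [abs_lt]; constructor <;> linarith [Real.pi_le_four, a1.1, a1.2, a2.1, a2.2]
  have : k = 0 := by
    have : |k| < 1 := by exact_mod_cast h3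
    exact Int.abs_lt_one_iff.1 this
  rw [e, this]; simp

noncomputable def E (n : ℕ) (z : ℂ) : ℂ := exp (l n * ζ z)
noncomputable def Fn (n : ℕ) (z : ℂ) : ℂ := ((E n z - 1) / (2 * l n))⁻¹
lemma E_ne (n : ℕ) {z : ℂ} (hz : 1 < ‖z‖) : E n z - 1 ≠ 0 := fun h =>
  ζ_ne hz (exp_inj n (g_im (inv_lt hz)) (by simpa using Real.pi_pos) (by simpa [E] using sub_eq_zero.1 h))
lemma E_d (n : ℕ) {z : ℂ} (hz : 1 < ‖z‖) : HasDerivAt (E n) (E n z * (l n * q z)) z :=
  ((ζ_deriv hz).const_mul (l n)).cexp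
lemma Fn_d (n : ℕ) {z : ℂ} (hz : 1 < ‖z‖) : HasDerivAt (Fn n) (-2 * l n ^ 2 * (E n z * q z) / (E n z - 1) ^ 2) z := by
  have h := E_ne n hz
  have h2 := l_ne n
  have := (((E_d n hz).sub_const 1).div_const (2 * l n)).inv (div_ne_zero h (mul_ne_zero two_ne_zero h2))
  refine this.congr_deriv ?_
  field_simp
lemma Fn_dd (n : ℕ) (z : ℂ) (hz : 1 < ‖z‖) :
    deriv (deriv (Fn n)) z / deriv (Fn n) z = -l n * (q z * (E n z + 1)) / (E n z - 1) + z * q z ∧
    deriv (fun w => deriv (deriv (Fn n)) w / deriv (Fn n) w) z =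
      -l n * z * q z ^ 2 * (E n z + 1) / (E n z - 1) + 2 * l n ^ 2 * q z ^ 2 * E n z / (E n z - 1) ^ 2
        + (q z + z * (z * q z ^ 2)) := by
  refine dd (F1 := fun z => -2 * l n ^ 2 * (E n z * q z) / (E n z - 1) ^ 2)
    (P := fun z => -l n * (q z * (E n z + 1)) / (E n z - 1) + z * q z)
    (P1 := fun z => -l n * z * q z ^ 2 * (E n z + 1) / (E n z - 1) + 2 * l n ^ 2 * q z ^ 2 * E n z / (E n z - 1) ^ 2
        + (q z + z * (z * q z ^ 2)))
    (fun z hz => Fn_d n hz) (fun z hz => ?_) (fun z hz => ?_) (fun z hz => ?_) z hz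
  · have h := E_ne n hz
    have := (((E_d n hz).mul (q_deriv hz)).const_mul (-2 * l n ^ 2)).div (((E_d n hz).sub_const 1).pow 2)
      (pow_ne_zero 2 h)
    refine this.congr_deriv ?_
    simp only [Pi.pow_apply, Pi.mul_apply]; field_simp; push_cast; ring
  · exact div_ne_zero (mul_ne_zero (mul_ne_zero (by norm_num) (pow_ne_zero 2 (l_ne n)))
      (mul_ne_zero (exp_ne_zero _) (q_ne hz))) (pow_ne_zero 2 (E_ne n hz))
  · have h := E_ne n hz
    have := ((((q_deriv hz).mul ((E_d n hz).add_const 1)).const_mul (-l n)).div ((E_d n hz).sub_const 1) h).add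
      ((hasDerivAt_id z).mul (q_deriv hz))
    refine this.congr_deriv ?_
    simp only [id, Pi.mul_apply]; field_simp; ring

lemma g_diff : DifferentiableOn ℂ g (Metric.ball 0 1) := fun u hu =>
  (g_deriv (by simpa using hu)).differentiableAt.differentiableWithinAt

theorem result :
    ¬ (∀ (f : ℂ → ℂ) (F : ℕ → ℂ → ℂ),
      (DifferentiableOn ℂ f {z : ℂ | 1 < ‖z‖} ∧ Set.InjOn f {z : ℂ | 1 < ‖z‖} ∧
        ∃ C : ℝ, ∀ z : ℂ, 2 < ‖z‖ → ‖f z - z‖ ≤ C) →
      (∀ n : ℕ, DifferentiableOn ℂ (F n) {z : ℂ | 1 < ‖z‖} ∧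
        Set.InjOn (F n) {z : ℂ | 1 < ‖z‖} ∧
        ∃ C : ℝ, ∀ z : ℂ, 2 < ‖z‖ → ‖F n z - z‖ ≤ C) →
      (∀ ε : ℝ, 0 < ε → ∃ N : ℕ, ∀ n : ℕ, N ≤ n → ∀ z : ℂ, 1 < ‖z‖ →
        (‖z‖ ^ 2 - 1) ^ 2 *
          ‖(deriv (fun w => deriv (deriv (F n)) w / deriv (F n) w) z
              - (1 / 2 : ℂ) * (deriv (deriv (F n)) z / deriv (F n) z) ^ 2)
            - (deriv (fun w => deriv (deriv f) w / deriv f w) z
              - (1 / 2 : ℂ) * (deriv (deriv f) z / deriv f z) ^ 2)‖ ≤ ε) →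
      (∀ ε : ℝ, 0 < ε → ∃ N : ℕ, ∀ n : ℕ, N ≤ n → ∀ z : ℂ, 1 < ‖z‖ →
        (‖z‖ ^ 2 - 1) *
          ‖deriv (deriv (F n)) z / deriv (F n) z - deriv (deriv f) z / deriv f z‖ ≤ ε)) := by
  intro h
  have key := h f0 Fn ⟨fun z hz => (f0_d hz).differentiableAt.differentiableWithinAt, fun z hz w hw e => ?_, ?_⟩
    (fun n => ⟨fun z hz => (Fn_d n hz).differentiableAt.differentiableWithinAt, fun z hz w hw e => ?_, ?_⟩)
    (fun ε hε => ?_)
  · obtain ⟨N, hN⟩ := key (1 / 8) (by norm_num)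
    set n := N + 200 with hn
    have hn' : (200 : ℝ) ≤ n := by rw [hn]; push_cast; linarith [Nat.cast_nonneg (α := ℝ) N]
    have hx : 1 < Real.exp n := Real.one_lt_exp_iff.2 (by linarith)
    set x : ℝ := (Real.exp n + 1) / (Real.exp n - 1) with hxd
    have x1 : 1 < x := by rw [hxd, one_lt_div (by linarith)]; linarith
    have hz : 1 < ‖(x : ℂ)‖ := by rw [norm_real, Real.norm_eq_abs, abs_of_pos (by linarith)]; exact x1
    have hζ : ζ x = n := by
      have e : (1 + x⁻¹) / (1 - x⁻¹) = Real.exp n := by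
        have : Real.exp n - 1 ≠ 0 := by linarith
        have : Real.exp n + 1 ≠ 0 := by linarith
        rw [hxd]; field_simp; ring
      have e2 : (1 + (x : ℂ)⁻¹) / (1 - (x : ℂ)⁻¹) = exp n := by
        have := congrArg (fun t : ℝ => (t : ℂ)) e
        push_cast at this
        exact this
      rw [ζ, g, e2, log_exp (by simpa using Real.pi_pos) (by simpa using Real.pi_pos.le)]
    have hE : E n x = exp (-(4 * I * l n)) := by
      rw [E, hζ, exp_eq_exp_iff_exists_int]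
      refine ⟨1, ?_⟩
      have : (n : ℂ) = p n - 4 * I := by simp [p]
      rw [this, l]; field_simp [p_ne n]; push_cast; ring
    have hl := l_norm n (by omega)
    have hl2 : ‖l n‖ ≤ 1 / 25 := hl.trans (by rw [div_le_div_iff₀ (by linarith) (by norm_num)]; linarith)
    have b1 : ‖E n x - 1‖ ≤ 8 * ‖l n‖ := by
      have hh : ‖-(4 * I * l n)‖ = 4 * ‖l n‖ := by simp
      rw [hE]
      refine (norm_exp_sub_one_le (by rw [hh]; linarith)).trans (by rw [hh]; linarith)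
    have k := hN n (by omega) x hz
    rw [(Fn_dd n x hz).1, (f0_dd x hz).1, hζ] at k
    have hEn := E_ne n hz
    have n0 : (n : ℂ) ≠ 0 := by exact_mod_cast (show n ≠ 0 by omega)
    have e : -l n * (q x * (E n x + 1)) / (E n x - 1) + x * q x - (-2 * q x / n + x * q x) =
        -q x * (2 * l n / (E n x - 1) - (2 / n - l n)) := by
      clear_value n x
      field_simp; ring
    have hq : (‖(x : ℂ)‖ ^ 2 - 1) * ‖-q x‖ = 2 := by
      have : (x : ℂ) ^ 2 - 1 = ((x ^ 2 - 1 : ℝ) : ℂ) := by push_cast; ring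
      have h1 : 0 < x ^ 2 - 1 := sub_pos.2 (one_lt_pow₀ x1 two_ne_zero)
      rw [norm_neg, q, norm_div, this, norm_real, norm_real, Real.norm_eq_abs, Real.norm_eq_abs, sq_abs,
        abs_of_pos h1]
      simp; field_simp
    rw [e, norm_mul, ← mul_assoc, hq] at k
    have b2 : 1 / 4 ≤ ‖2 * l n / (E n x - 1)‖ := by
      rw [norm_div, le_div_iff₀ (norm_pos_iff.2 hEn)]; simp; linarith
    have b3 : ‖2 / (n : ℂ) - l n‖ ≤ 1 / 100 + 1 / 25 := by
      refine (norm_sub_le _ _).trans (add_le_add ?_ hl2)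
      rw [norm_div, Complex.norm_natCast, div_le_div_iff₀ (by linarith) (by norm_num)]; simp; linarith
    linarith [norm_sub_norm_le (2 * l n / (E n x - 1)) (2 / n - l n)]
  · have : ζ z = ζ w := by
      have := inv_injective e
      linear_combination 2 * this
    exact inv_injective (g_inj (inv_lt hz) (inv_lt hw) this)
  · refine bdd (fun u => g u / 2) (g_diff.div_const 2) (by simp [g_zero]) ?_ fun u hu u0 e => ?_
    · rw [((g_deriv (u := 0) (by simp)).div_const 2).deriv]; norm_num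
    · exact u0 (g_inj hu (by simp) (by rw [g_zero]; linear_combination 2 * e))
  · have h1 := inv_injective e
    have h2 := l_ne n
    field_simp at h1
    have h3 : E n z = E n w := by linear_combination h1
    exact inv_injective (g_inj (inv_lt hz) (inv_lt hw) (exp_inj n (g_im (inv_lt hz)) (g_im (inv_lt hw)) h3))
  · have h2 := l_ne n
    refine bdd (fun u => (exp (l n * g u) - 1) / (2 * l n)) ((((g_diff.const_mul _).cexp).sub_const 1).div_const _)
      (by simp [g_zero]) ?_ fun u hu u0 e => ?_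
    · rw [(((((g_deriv (u := 0) (by simp)).const_mul (l n)).cexp).sub_const 1).div_const (2 * l n)).deriv, g_zero]
      simp; field_simp
    · have h3 : exp (l n * g u) = exp (l n * 0) := by
        have := (div_eq_zero_iff.1 e).resolve_right (mul_ne_zero two_ne_zero h2)
        simpa using sub_eq_zero.1 this
      exact u0 (g_inj hu (by simp) (by
        rw [g_zero]; exact exp_inj n (g_im hu) (by simpa using Real.pi_pos) h3))
  · obtain ⟨N, hN⟩ := exists_nat_gt (128 / ε)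
    refine ⟨N + 1, fun n hn z hz => ?_⟩
    rw [(Fn_dd n z hz).1, (f0_dd z hz).1, (Fn_dd n z hz).2, (f0_dd z hz).2]
    have h1 := E_ne n hz
    have h2 := ζ_ne hz
    have e : -l n * z * q z ^ 2 * (E n z + 1) / (E n z - 1) + 2 * l n ^ 2 * q z ^ 2 * E n z / (E n z - 1) ^ 2
        + (q z + z * (z * q z ^ 2)) - 1 / 2 * (-l n * (q z * (E n z + 1)) / (E n z - 1) + z * q z) ^ 2 -
        (-2 * z * q z ^ 2 / ζ z + 2 * q z ^ 2 / ζ z ^ 2 + (q z + z * (z * q z ^ 2))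
          - 1 / 2 * (-2 * q z / ζ z + z * q z) ^ 2) = -(1 / 2) * (l n * q z) ^ 2 := by
      field_simp; ring
    rw [e]
    have hn' : (N : ℝ) + 1 ≤ n := by exact_mod_cast hn
    have hN0 : (0 : ℝ) ≤ N := Nat.cast_nonneg N
    have hl := l_norm n (by omega)
    have hq : (‖z‖ ^ 2 - 1) * ‖q z‖ ≤ 2 := by
      rw [q, norm_div, ← mul_div_assoc, div_le_iff₀ (norm_pos_iff.2 (sq_ne hz))]
      have := sq_ge (z := z)
      simp; linarith
    have hp : 0 ≤ (‖z‖ ^ 2 - 1) * ‖q z‖ := mul_nonneg (by nlinarith) (norm_nonneg _)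
    have e2 : (‖z‖ ^ 2 - 1) ^ 2 * ‖-(1 / 2) * (l n * q z) ^ 2‖ = 1 / 2 * ‖l n‖ ^ 2 * ((‖z‖ ^ 2 - 1) * ‖q z‖) ^ 2 := by
      simp; ring
    rw [e2]
    have c1 : ((‖z‖ ^ 2 - 1) * ‖q z‖) ^ 2 ≤ 2 ^ 2 := by gcongr
    have c2 : ‖l n‖ ^ 2 ≤ (8 / n) ^ 2 := by gcongr
    have c3 : (8 / n : ℝ) ^ 2 * 2 ≤ ε := by
      rw [div_lt_iff₀ hε] at hN
      rw [div_pow, div_mul_eq_mul_div, div_le_iff₀ (by nlinarith)]
      have : (n : ℝ) ≤ n ^ 2 := by nlinarith
      nlinarith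
    nlinarith [mul_le_mul c2 c1 (sq_nonneg _) (sq_nonneg _)]

end Pool.Agent.S06302
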