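import Pool.Statements.S06315
import Pool.Agent.H.MP_36cdb9.K

set_option autoImplicit false
open Pool Pool.MP_d6e406_an

namespace Pool.Agent.S06315

/-- A separable real Banach space contains no isomorphic copy of ℓ1 iff it has an equivalent norm whose dual norm's unit-sphere points are all extreme points of the dual ball and points of weak-to-norm continuity on that ball. -/
theorem result : ∀ (X : Type) [NormedAddCommGroup X] [NormedSpace ℝ X] [CompleteSpace X] [TopologicalSpace.SeparableSpace X],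
    (¬ ∃ T : lp (fun _ : ℕ => ℝ) 1 →L[ℝ] X, ∃ c : ℝ, 0 < c ∧ ∀ y, c * ‖y‖ ≤ ‖T y‖) ↔
    ∃ N : X → ℝ, (∀ x y, N (x + y) ≤ N x + N y) ∧ (∀ (r : ℝ) (x : X), N (r • x) = |r| * N x) ∧
      (∃ c C : ℝ, 0 < c ∧ ∀ x, c * ‖x‖ ≤ N x ∧ N x ≤ C * ‖x‖) ∧
      ∀ f : X →L[ℝ] ℝ, (∀ x, f x ≤ N x) → (∀ ε : ℝ, 0 < ε → ∃ x, N x ≤ 1 ∧ 1 - ε < f x) →
        (f ∈ Set.extremePoints ℝ {g : X →L[ℝ] ℝ | ∀ x, g x ≤ N x} ∧
         ∀ ε : ℝ, 0 < ε → ∃ F : Finset ((X →L[ℝ] ℝ) →L[ℝ] ℝ), ∃ δ : ℝ, 0 < δ ∧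
           ∀ g : X →L[ℝ] ℝ, (∀ x, g x ≤ N x) → (∀ φ ∈ F, |φ (g - f)| < δ) → ‖g - f‖ < ε) := by
  intro X _ _ _ _
  refine ⟨H.MP_36cdb9.alur, ?_⟩
  rintro ⟨N, -, n2, ⟨a, b, ha, n3⟩, h⟩ ⟨T, c, hc, hT⟩
  obtain ⟨f, f1, f2, ε, hε, f3⟩ := H.MP_36cdb9.noPC T hc hT n2 ha n3
  obtain ⟨F, δ, d, e⟩ := (h f f1 f2).2 ε hε
  obtain ⟨g, g1, g2, g3⟩ := f3 F δ d
  exact (e g g1 g2).not_ge g3

end Pool.Agent.S06315
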