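import Pool.Statements.S06331
import Pool.Agent.H.MP_d75d7a_an.Main

set_option autoImplicit false
open Filter Topology
open Pool Pool.MP_d75d7a_an

namespace Pool.Agent.S06331

theorem result :
    ∃ a : ℕ → ℝ,
      (¬ ∃ L : ℝ, Tendsto (fun n => ∑ i ∈ Finset.range n, a i) atTop (𝓝 L)) ∧
      (∃ τ : Equiv.Perm ℕ, ∃ L : ℝ,
        Tendsto (fun n => ∑ i ∈ Finset.range n, a (τ i)) atTop (𝓝 L)) ∧
      (∃ L : ℝ, ∃ σ : Equiv.Perm ℕ,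
        ((∀ b : ℕ → ℝ,
            (∃ M : ℝ, Tendsto (fun n => ∑ i ∈ Finset.range n, b i) atTop (𝓝 M)) →
            ∃ M : ℝ, Tendsto (fun n => ∑ i ∈ Finset.range n, b (σ i)) atTop (𝓝 M)) ∧
          (∃ b : ℕ → ℝ,
            (¬ ∃ M : ℝ, Tendsto (fun n => ∑ i ∈ Finset.range n, b i) atTop (𝓝 M)) ∧
            ∃ M : ℝ, Tendsto (fun n => ∑ i ∈ Finset.range n, b (σ i)) atTop (𝓝 M))) ∧
        Tendsto (fun n => ∑ i ∈ Finset.range n, a (σ i)) atTop (𝓝 L)) ∧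
      (∃ L : ℝ, ¬ ∃ σ : Equiv.Perm ℕ,
        ((∀ b : ℕ → ℝ,
            (∃ M : ℝ, Tendsto (fun n => ∑ i ∈ Finset.range n, b i) atTop (𝓝 M)) →
            ∃ M : ℝ, Tendsto (fun n => ∑ i ∈ Finset.range n, b (σ i)) atTop (𝓝 M)) ∧
          (∃ b : ℕ → ℝ,
            (¬ ∃ M : ℝ, Tendsto (fun n => ∑ i ∈ Finset.range n, b i) atTop (𝓝 M)) ∧
            ∃ M : ℝ, Tendsto (fun n => ∑ i ∈ Finset.range n, b (σ i)) atTop (𝓝 M))) ∧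
        Tendsto (fun n => ∑ i ∈ Finset.range n, a (σ i)) atTop (𝓝 L)) := by
  open Pool.Agent.H.MP_d75d7a_an in
  refine ⟨bb, bb_div, ⟨s0, 0, s0_zero⟩, ⟨0, s0, ⟨s0_pres, bb, bb_div, 0, s0_zero⟩, s0_zero⟩, 1, ?_⟩
  rintro ⟨σ, ⟨h1, -⟩, h2⟩
  exact one_ne_zero (Pool.Agent.H.MP_d75d7a_an.no_other σ h1 h2)

end Pool.Agent.S06331
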