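import Pool.Statements.S06340
import Pool.Agent.H.MP_d7d6c7_an.D

set_option autoImplicit false
open Filter Topology
open scoped ZeroAtInfty
open Pool Pool.MP_d7d6c7_an

namespace Pool.Agent.S06340

/-- The negation of the preceding statement: Every real Banach space with no isomorphic copy of c_0 has the Gelfand-Phillips property: each set on which every weak-star null sequence of functionals converges uniformly to 0 has compact norm closure. -/
theorem result :
    ¬ (∀ (X : Type) [NormedAddCommGroup X] [NormedSpace ℝ X] [CompleteSpace X],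
      (¬ ∃ (T : (ℕ →C₀ ℝ) →L[ℝ] X) (c : ℝ), 0 < c ∧ ∀ x, ‖x‖ ≤ c * ‖T x‖) →
      ∀ C : Set X,
        (∀ f : ℕ → (X →L[ℝ] ℝ),
            (∀ x : X, Tendsto (fun n => f n x) atTop (𝓝 0)) →
            ∀ ε : ℝ, 0 < ε → ∀ᶠ n in atTop, ∀ x ∈ C, |f n x| ≤ ε) →
        IsCompact (closure C)) := by
  intro H
  classical
  have hM := Pool.Agent.H.MP_d7d6c7_an.model
  set x : ℕ → Pool.Agent.H.MP_d7d6c7_an.XX :=
    fun m => Pool.Agent.H.MP_d7d6c7_an.io (Finsupp.single (.inl m) 1) with hx
  have hc := H Pool.Agent.H.MP_d7d6c7_an.XX ?_ (Set.range x) ?_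
  · obtain ⟨a, -, φ, hφ, hl⟩ := hc.tendsto_subseq (x := x) (fun n => subset_closure ⟨n, rfl⟩)
    obtain ⟨N, hN⟩ := Metric.cauchySeq_iff.mp hl.cauchySeq 1 one_pos
    have h1 := hN N le_rfl (N + 1) (Nat.le_succ N)
    have h2 := hM.sep (a := φ N) (b := φ (N + 1)) (hφ (Nat.lt_succ_self N)).ne
    rw [dist_eq_norm] at h1
    exact absurd h1 (not_lt.mpr h2)
  · rintro ⟨T, c, hc, hT⟩
    let e : ℕ → (ℕ →C₀ ℝ) := fun i =>
      { toFun := Pi.single i 1
        continuous_toFun := continuous_of_discreteTopology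
        zero_at_infty' := by
          rw [Filter.cocompact_eq_cofinite, Nat.cofinite_eq_atTop]
          refine tendsto_const_nhds.congr' ?_
          filter_upwards [eventually_gt_atTop i] with n hn
          simp [hn.ne'] }
    have he : ∀ i n, e i n = (Pi.single i 1 : ℕ → ℝ) n := fun _ _ => rfl
    have hsum : ∀ (F : Finset ℕ) (ε : ℕ → ℝ) (n : ℕ),
        (∑ i ∈ F, ε i • e i) n = if n ∈ F then ε n else 0 := by
      intro F ε n
      induction F using Finset.induction_on with
      | empty => simp
      | insert a F ha ih =>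
        rw [Finset.sum_insert ha, ZeroAtInftyContinuousMap.add_apply, ih,
          ZeroAtInftyContinuousMap.smul_apply, he]
        by_cases hn : n = a
        · subst hn; simp [ha]
        · simp [hn]
    have hW : Pool.Agent.H.MP_d7d6c7_an.WX (fun i => T (e i)) ‖T‖ := by
      intro F ε hε
      have h1 : ‖∑ i ∈ F, ε i • e i‖ ≤ 1 := by
        rw [← ZeroAtInftyContinuousMap.norm_toBCF_eq_norm]
        refine (BoundedContinuousFunction.norm_le zero_le_one).mpr (fun n => ?_)
        have : (∑ i ∈ F, ε i • e i).toBCF n = (∑ i ∈ F, ε i • e i) n := rfl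
        rw [this, hsum]
        split_ifs
        · exact hε n
        · simp
      have h2 := T.le_opNorm (∑ i ∈ F, ε i • e i)
      simp only [map_sum, map_smul] at h2
      exact h2.trans (mul_le_of_le_one_right T.opNorm_nonneg h1)
    obtain ⟨i, hi⟩ := hM.noC0 hW c⁻¹ (inv_pos.mpr hc)
    have h3 : (1 : ℝ) ≤ ‖e i‖ := by
      rw [← ZeroAtInftyContinuousMap.norm_toBCF_eq_norm]
      have := (e i).toBCF.norm_coe_le_norm i
      have h4 : (e i).toBCF i = 1 := by
        have : (e i).toBCF i = e i i := rfl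
        rw [this, he]; simp
      rw [h4] at this
      simpa using this
    have h5 := hT (e i)
    have h6 : c * ‖T (e i)‖ < c * c⁻¹ := mul_lt_mul_of_pos_left hi hc
    rw [mul_inv_cancel₀ hc.ne'] at h6
    linarith
  · intro f hf ε hε
    filter_upwards [hM.limited f hf ε hε] with n hn
    rintro _ ⟨m, rfl⟩
    exact hn m

end Pool.Agent.S06340
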