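import Pool.Statements.S06344
import Pool.Agent.H.MP_d85bbb_an.A

set_option autoImplicit false
open Pool Pool.MP_d85bbb_an Pool.Agent.H.MP_d85bbb_an Filter Topology Set Metric

namespace Pool.Agent.S06344

theorem result :
    ¬ (∀ (X : Type) [NormedAddCommGroup X] [NormedSpace ℝ X] [CompleteSpace X],
      Function.Surjective (NormedSpace.inclusionInDoubleDual ℝ X) →
      (∀ x : X, x ≠ 0 → ∃ f : X →L[ℝ] ℝ,
          ∀ v : X, HasLineDerivAt ℝ (fun y : X => ‖y‖) (f v) x v) →
      ∀ E : Subspace ℝ X, IsClosed (E : Set X) →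
        (∀ ε : ℝ, 0 < ε →
          ∀ (K : Type) [TopologicalSpace K] [CompactSpace K] [T2Space K]
            (T : ↥E →L[ℝ] C(K, ℝ)),
            ∃ S : X →L[ℝ] C(K, ℝ), (∀ e : ↥E, S (e : X) = T e) ∧ ‖S‖ ≤ (1 + ε) * ‖T‖) →
        ∀ (K : Type) [TopologicalSpace K] [CompactSpace K] [T2Space K]
          (T : ↥E →L[ℝ] C(K, ℝ)),
          ∃ S : X →L[ℝ] C(K, ℝ), (∀ e : ↥E, S (e : X) = T e) ∧ ‖S‖ ≤ ‖T‖) := by
  intro h
  set E : Subspace ℝ X := (ap (pr 0 1)).ker
  set c : ℕ → E := fun i => ⟨cx i, rfl⟩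
  have := h X ap6 (fun x hx => ?_) E (ContinuousLinearMap.isClosed_ker _)
    fun ε hε K _ _ _ T => ?_
  · set B := WeakDual.toStrongDual ⁻¹' closedBall (0 : StrongDual ℝ E) 1
    have hB : CompactSpace B := isCompact_iff_compactSpace.1 (WeakDual.isCompact_closedBall 0 1)
    have t1 : ∀ (e : E) (k : B), ‖k.1 e‖ ≤ 1 * ‖e‖ := fun e k =>
      (WeakDual.toStrongDual k.1).le_of_opNorm_le (mem_closedBall_zero_iff.1 k.2) e
    obtain ⟨S, s1, s2⟩ := this B (LinearMap.mkContinuous
      { toFun := fun e => ⟨fun k => k.1 e,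
          (WeakDual.eval_continuous e).comp continuous_subtype_val⟩
        map_add' := fun a b => ContinuousMap.ext fun k => map_add k.1 a b
        map_smul' := fun a b => ContinuousMap.ext fun k => map_smul k.1 a b } 1
      fun e => (ContinuousMap.norm_le _ (by positivity)).2 (t1 e))
    replace s2 := s2.trans (LinearMap.mkContinuous_norm_le _ zero_le_one _)
    have v1 : ∀ n, 1 ≤ 2 * ‖pr (u n) 1‖ := fun n => (u1 n).ge.trans (n1 (pr (u n) 1))
    have v2 : ∀ n, ‖pr (u n) 1‖ ≤ 4 := fun n => (n3 _ _).trans_eq (by norm_num [u1])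
    have b0 : (0 : WeakDual ℝ E) ∈ B := mem_closedBall_self (α := StrongDual ℝ E) zero_le_one
    have key : ∀ σ : ℝ, |σ| = 1 → 1 / 4 ≤ σ * S px ⟨0, b0⟩ := by
      intro σ hσ
      have v0 : ∀ n, 0 < ‖pr (u n) 1‖ := fun n => by linarith [v1 n]
      have v3 : ∀ n, |σ / ‖pr (u n) 1‖| * ‖pr (u n) 1‖ = 1 := fun n => by
        rw [abs_div, hσ, abs_norm, one_div_mul_cancel (v0 n).ne']
      set k : ℕ → B := fun n => ⟨StrongDual.toWeakDual ((ap
        ((σ / ‖pr (u n) 1‖) • pr (u n) 1)).comp E.subtypeL), (mem_closedBall_zero_iff (E := StrongDual ℝ E)).2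
          (ContinuousLinearMap.opNorm_le_bound _ zero_le_one fun e : E => ((ap _).le_opNorm e.1).trans_eq
            (by rw [ap3, norm_smul, Real.norm_eq_abs, v3]; rfl))⟩
      have k0 : Tendsto k atTop (𝓝 ⟨0, b0⟩) := by
        refine tendsto_subtype_rng.2 (tendsto_iff_forall_eval_tendsto_topDualPairing.2 fun e => ?_)
        obtain ⟨g, hg⟩ := ap5 e.1
        have g0 : Tendsto (fun n => 2 * ‖g n‖) atTop (𝓝 0) := by
          have := (Real.continuous_sqrt.tendsto' _ _ Real.sqrt_zero).comp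
            ((lp.memℓp g).summable (by norm_num)).tendsto_atTop_zero
          simpa [Function.comp_def, Real.sqrt_sq_eq_abs] using this.const_mul 2
        refine squeeze_zero_norm (fun n => ?_) g0
        have : ap (pr (u n) 1) e = inner ℝ g (u n) := by
          rw [pr_eq, map_add, one_smul, _root_.add_apply, hg, show ap (pr 0 1) e = 0 from e.2,
            add_zero]
        change ‖ap ((σ / ‖pr (u n) 1‖) • pr (u n) 1) e‖ ≤ _
        rw [map_smul, _root_.smul_apply, norm_smul, this]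
        refine mul_le_mul ?_ (by simp [u, lp.inner_single_right]) (norm_nonneg _) two_pos.le
        exact le_of_mul_le_mul_right ((v3 n).trans_le (v1 n)) (v0 n)
      refine ge_of_tendsto' ((((S px).continuous.tendsto _).comp k0).const_mul σ) fun n => ?_
      obtain ⟨y, y2⟩ := ap4 ((ContinuousMap.evalCLM ℝ (k n)).comp S)
      have y3 : ‖y‖ ≤ 1 := (ap3 y).ge.trans (y2 ▸ ContinuousLinearMap.opNorm_le_bound _ zero_le_one
        fun x => ((S x).norm_coe_le_norm _).trans (S.le_of_opNorm_le s2 x))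
      have y4 : y.1 = (σ / ‖pr (u n) 1‖) • u n := lp.ext (funext fun i =>
        (DFunLike.congr_fun y2 (cx i)).trans (DFunLike.congr_fun (s1 (c i)) (k n)))
      have σ2 : σ * σ = 1 := by rw [← abs_mul_abs_self, hσ, one_mul]
      have y5 : pr (u n) (σ * ‖pr (u n) 1‖ * y.2) = (σ * ‖pr (u n) 1‖) • y := Prod.ext (by
        change u n = (σ * ‖pr (u n) 1‖) • y.1
        rw [y4, smul_smul, mul_assoc, mul_div_cancel₀ _ (v0 n).ne', σ2, one_smul]) rfl
      have y6 := mn n (y5.symm ▸ (norm_smul _ _).trans_le (by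
        rw [Real.norm_eq_abs, abs_mul, hσ, one_mul, abs_norm]
        exact mul_le_of_le_one_right (norm_nonneg _) y3))
      have y7 : y.2 = S px (k n) := DFunLike.congr_fun y2 px
      rw [Function.comp_apply, ← y7]
      nlinarith [v0 n, v2 n]
    linarith [key 1 abs_one, key (-1) (by simp)]
  · obtain ⟨f, f1, f2⟩ := exists_dual_vector'' ℝ x
    refine ⟨f, smooth f1 f2 fun g g1 g2 => ?_⟩
    obtain ⟨y, rfl⟩ := ap4 f
    obtain ⟨z, rfl⟩ := ap4 g
    have : 2 ≤ ‖y + z‖ := le_of_mul_le_mul_right (le_trans (by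
      have : ap y x = ‖x‖ := f2
      rw [map_add, _root_.add_apply, this, g2, two_mul]
      exact le_abs_self _) (ap3 (y + z) ▸ (ap (y + z)).le_opNorm x)) (norm_pos_iff.2 hx)
    rw [sc (ap3 y ▸ f1) (ap3 z ▸ g1) this]
  · have T1 := T.opNorm_nonneg
    rcases T1.eq_or_lt with T0 | T0
    · exact ⟨0, fun e => (norm_le_zero_iff.1 (by simpa [← T0] using T.le_opNorm e)).symm, by
        rw [ContinuousLinearMap.opNorm_zero]
        positivity⟩
    choose f f1 f2 using fun k => exists_extension_norm_eq E ((ContinuousMap.evalCLM ℝ k).comp T)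
    choose y y2 using fun k => ap4 (f k)
    have y3 : ∀ k e, T e k = ap (y k) e := fun k e => y2 k ▸ (f1 k e).symm
    obtain ⟨τ, hτ⟩ := sel y (fun i => (T (c i)).continuous.congr fun k => y3 k (c i))
      (c := ‖T‖) (d := (1 + ε) * ‖T‖) (fun k => by
        rw [← ap3, y2, f2]
        exact ContinuousLinearMap.opNorm_le_bound _ T1
          fun e => ((T e).norm_coe_le_norm _).trans (T.le_opNorm e)) T1
      (lt_mul_of_one_lt_left T0 (by linarith))
    set Q : X →L[ℝ] E := (ContinuousLinearMap.id ℝ _ - (ap (pr 0 1)).smulRight px).codRestrict E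
      fun x => show ap (pr 0 1) (x - ap (pr 0 1) x • px) = 0 by simp [ap2, pr]
    refine ⟨T.comp Q + (ap (pr 0 1)).smulRight τ, fun e => ?_, ContinuousLinearMap.opNorm_le_bound _
      (by positivity) fun x => (ContinuousMap.norm_le _ (by positivity)).2 fun k => ?_⟩
    · have e0 : ap (pr 0 1) e = 0 := e.2
      have : Q e = e := Subtype.ext (show e.1 - ap (pr 0 1) e • px = e.1 by
        rw [e0, zero_smul, sub_zero])
      simp [this, e0]
    · have : (T.comp Q + (ap (pr 0 1)).smulRight τ) x k = ap (pr (y k).1 (τ k)) x := by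
        have b : T (Q x) k = ap (pr (y k).1 (y k).2) (x - ap (pr 0 1) x • px) := y3 k (Q x)
        change T (Q x) k + ap (pr 0 1) x * τ k = _
        rw [b, map_sub, map_smul, ap2, pr_eq (y k).1 (τ k)]
        nth_rw 1 [pr_eq (y k).1]
        simp only [map_add, map_smul, _root_.add_apply, _root_.smul_apply, smul_eq_mul, pr]
        ring
      rw [this]
      exact (ap _).le_of_opNorm_le ((ap3 _).trans_le (hτ k)) x

end Pool.Agent.S06344
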