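import Pool.Statements.S06346
import Pool.Agent.H.MP_d890fe_an.A

set_option autoImplicit false
open Pool Pool.MP_d890fe_an

namespace Pool.Agent.S06346

open Pool.Agent.H.MP_d890fe_an in
theorem result :
    ¬ (∀ (S : Type) [Semigroup S] [Nonempty S],
    (∀ (E : Type) [NormedAddCommGroup E] [NormedSpace ℝ E] [CompleteSpace E]
       (C : Set (WeakDual ℝ E)) (T : S → WeakDual ℝ E → WeakDual ℝ E),
       C.Nonempty → Convex ℝ C → IsCompact C →
       (∃ D : Set (WeakDual ℝ E), D.Countable ∧ D ⊆ C ∧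
          ∀ x ∈ C, ∀ ε : ℝ, 0 < ε → ∃ d ∈ D, ∀ e : E, |x e - d e| ≤ ε * ‖e‖) →
       (∀ s : S, Set.MapsTo (T s) C C) →
       (∀ s t : S, ∀ x ∈ C, T (s * t) x = T s (T t x)) →
       (∀ s : S, ∀ x ∈ C, ∀ y ∈ C, ∀ r : ℝ,
          (∀ e : E, |x e - y e| ≤ r * ‖e‖) →
          ∀ e : E, |T s x e - T s y e| ≤ r * ‖e‖) →
       (∀ s : S, ContinuousOn (T s) C) →
       ∃ x ∈ C, ∀ s : S, T s x = x) →
    ∃ m : lp (fun _ : S => ℝ) ⊤ →L[ℝ] ℝ,
      m 1 = 1 ∧
      (∀ g : lp (fun _ : S => ℝ) ⊤, (∀ t : S, 0 ≤ g t) → 0 ≤ m g) ∧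
      ∀ f : lp (fun _ : S => ℝ) ⊤,
        (∃ K : Set (WeakSpace ℝ (lp (fun _ : S => ℝ) ⊤)), IsCompact K ∧
          ∀ g : lp (fun _ : S => ℝ) ⊤, (∃ s : S, ∀ t : S, g t = f (s * t)) →
            toWeakSpace ℝ (lp (fun _ : S => ℝ) ⊤) g ∈ K) →
        ∀ s : S, ∀ g : lp (fun _ : S => ℝ) ⊤, (∀ t : S, g t = f (s * t)) → m g = m f) := by
  intro h
  obtain ⟨m, h1, -, h3⟩ := h S (by
    rintro E _ _ _ C T ⟨z, hz⟩ - - ⟨D, hD, -, hD'⟩ hm hT hn -
    have e1 : ∀ (s : S) (u : ℝ), T s (T (c u) z) = T (c (s.1 u)) z := fun s u =>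
      (hT s (c u) z hz).symm
    have e2 : ∀ u v : ℝ, T (c u) z = T (c v) z := by
      intro u v
      have key : ∀ ε : ℝ, 0 < ε → ∀ w : E, |T (c u) z w - T (c v) z w| ≤ 2 * ε * ‖w‖ := by
        intro ε hε
        choose d hd hd' using fun x : ℝ => hD' _ (hm (c x) hz) ε hε
        haveI := hD.to_subtype
        obtain ⟨x, y, hxy, hd2⟩ : ∃ x y : ℝ, x ≠ y ∧ d x = d y := by
          by_contra! hc
          have : Function.Injective (fun x : ℝ => (⟨d x, hd x⟩ : D)) := fun x y hh => by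
            by_contra h'
            exact hc x y h' (congrArg Subtype.val hh)
          exact not_countable (α := ℝ) this.countable
        obtain ⟨s, hs1, hs2⟩ := two x y u v hxy
        have := hn s _ (hm (c x) hz) _ (hm (c y) hz) (2 * ε) (fun w => by
          have a1 := hd' x w
          have a2 := hd' y w
          rw [hd2] at a1
          have := abs_sub_le (T (c x) z w) (d y w) (T (c y) z w)
          rw [abs_sub_comm (d y w)] at this
          linarith)
        rwa [e1, e1, hs1, hs2] at this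
      apply DFunLike.ext
      intro w
      apply sub_eq_zero.1
      apply abs_nonpos_iff.1
      apply le_of_forall_pos_le_add
      intro ε hε
      have := key (ε / (2 * (‖w‖ + 1))) (by positivity) w
      refine this.trans ?_
      have h0 : 0 < ‖w‖ + 1 := by positivity
      rw [zero_add]
      calc _ ≤ 2 * (ε / (2 * (‖w‖ + 1))) * (‖w‖ + 1) := by gcongr; linarith
        _ = ε := by field_simp
    exact ⟨T (c 0) z, hm _ hz, fun s => by rw [e1, e2]⟩)
  have a1 := h3 (e 0) wap (c 0) 1 (fun t => by simp [e_apply, mul_val, c])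
  have a2 := h3 (e 0) wap (c 1) 0 (fun t => by simp [e_apply, mul_val, c])
  rw [h1] at a1
  rw [map_zero, ← a1] at a2
  exact zero_ne_one a2

end Pool.Agent.S06346
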