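import Pool.Statements.S06374
import Pool.Agent.H.MP_db815c_an.E

set_option autoImplicit false
open Pool Pool.MP_db815c_an

namespace Pool.Agent.S06374

theorem result :
    ¬ (∀ a b : ℕ → ℂ, Memℓp a 2 → Memℓp b 2 →
      (∀ c : ℕ → ℂ, Memℓp c 2 →
        (∀ k : ℕ, ∑' n : ℕ, a n * starRingEnd ℂ (c (n + k)) = 0) → c = 0) →
      (∀ c : ℕ → ℂ, Memℓp c 2 →
        (∀ k : ℕ, ∑' n : ℕ, b n * starRingEnd ℂ (c (n + k)) = 0) → c = 0) →
      ∀ A : lp (fun _ : ℕ => ℂ) 2 →L[ℂ] lp (fun _ : ℕ => ℂ) 2,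
        (∀ j m : ℕ, (A (lp.single 2 j 1) : ℕ → ℂ) m =
          ∑ n ∈ Finset.range (j + 1),
            (if j - n ≤ m then starRingEnd ℂ (b n) * a (m + n - j) else 0)) →
        A ∈ (StarAlgebra.adjoin ℂ
          {T : lp (fun _ : ℕ => ℂ) 2 →L[ℂ] lp (fun _ : ℕ => ℂ) 2 |
            ∃ φ : AddCircle (1 : ℝ) → ℂ,
              MeasureTheory.MemLp φ ⊤ AddCircle.haarAddCircle ∧
              ∀ i j : ℕ, (T (lp.single 2 j 1) : ℕ → ℂ) i
                = fourierCoeff φ ((i : ℤ) - (j : ℤ))}).topologicalClosure) := by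
  intro hh
  obtain ⟨A, h1, h2⟩ := H.MP_db815c_an.final
  refine h2 (H.MP_db815c_an.comm_alg _ H.MP_db815c_an.G_star H.MP_db815c_an.G_le ?_
    (hh _ _ (lp.memℓp _) (lp.memℓp _) H.MP_db815c_an.cyc_g H.MP_db815c_an.cyc_h A h1))
  rintro B ⟨ψ, hψ, hB⟩
  exact H.MP_db815c_an.toep_comm hψ hB

end Pool.Agent.S06374
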