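import Pool.Statements.S06383
import Pool.Agent.H.MP_dc9a2a_an.C

set_option autoImplicit false
open Pool Pool.MP_dc9a2a_an

namespace Pool.Agent.S06383

theorem result :
    ∀ (G : Type) [NormedAddCommGroup G] [NormedSpace ℝ G] [CompleteSpace G]
      [TopologicalSpace.SeparableSpace G],
      (∀ (F : Type) [NormedAddCommGroup F] [NormedSpace ℝ F] [FiniteDimensional ℝ F]
          (E : Submodule ℝ F) (T : E →ₗᵢ[ℝ] G) (ε : ℝ), 0 < ε →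
          ∃ S : F →ₗ[ℝ] G, (∀ x : E, S (x : F) = T x) ∧
            ∀ x : F, (1 - ε) * ‖x‖ ≤ ‖S x‖ ∧ ‖S x‖ ≤ (1 + ε) * ‖x‖) →
      ∃ H : Subgroup (G ≃ₗᵢ[ℝ] G),
        (∀ s : Finset (G ≃ₗᵢ[ℝ] G),
            (↑s : Set (G ≃ₗᵢ[ℝ] G)) ⊆ (H : Set (G ≃ₗᵢ[ℝ] G)) →
            ((Subgroup.closure (↑s : Set (G ≃ₗᵢ[ℝ] G)) : Subgroup (G ≃ₗᵢ[ℝ] G)) :
              Set (G ≃ₗᵢ[ℝ] G)).Finite) ∧
        (∀ g : G ≃ₗᵢ[ℝ] G, ∀ s : Finset G, ∀ ε : ℝ, 0 < ε →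
            ∃ h ∈ H, ∀ x ∈ s, ‖h x - g x‖ < ε) := by
  intro G _ _ _ _ hG
  obtain ⟨K, m, f, d⟩ := Pool.Agent.H.MP_dc9a2a_an.main hG
  refine ⟨⨆ n, K n, fun s hs => ?_, fun g s ε hε => ?_⟩
  · choose! n hn using fun u (hu : u ∈ s) =>
      (Subgroup.mem_iSup_of_directed m.directed_le).1 (hs hu)
    exact (f (s.sup n)).subset ((Subgroup.closure_le _).2 fun u hu =>
      m (Finset.le_sup hu) (hn u hu))
  · obtain ⟨n, h, a, b⟩ := d g s ε hε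
    exact ⟨h, le_iSup K n a, b⟩

end Pool.Agent.S06383
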