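import Pool.Statements.S06389
-- import your own Pool.Agent.* helpers here
import Pool.Agent.H.MP_dd1f31_an.B

set_option autoImplicit false
open Pool Pool.MP_dd1f31_an

namespace Pool.Agent.S06389

theorem result :
    ∃ p : ℕ → Polynomial ℝ,
      (∀ n, ∀ z : ℂ, Polynomial.aeval z (p n) = 0 → z.im = 0 ∧ z.re ≤ 0) ∧
      TendstoLocallyUniformly (fun n (z : ℂ) => Polynomial.aeval z (p n))
        (fun z : ℂ => ∑' k : ℕ,
          ((Real.sqrt (k : ℝ) / ((Nat.factorial k : ℝ) ^ 2) : ℝ) : ℂ) * z ^ k)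
        Filter.atTop := by
  obtain ⟨p, h1, h2⟩ := Pool.Agent.H.MP_dd1f31_an.lp (a := 1 / 2) (by norm_num) le_rfl
  refine ⟨p, h1, Metric.tendstoLocallyUniformly_iff.2 fun ε e0 x =>
    ⟨Metric.closedBall 0 (‖x‖ + 1), Metric.closedBall_mem_nhds_of_mem (by simp), ?_⟩⟩
  filter_upwards [h2 (‖x‖ + 1) ε e0] with n hn y hy
  rw [dist_comm, dist_eq_norm]
  simpa only [Real.sqrt_eq_rpow, show (1 : ℝ) - 1 / 2 = 1 / 2 by norm_num] using hn y (by simpa using hy)

end Pool.Agent.S06389
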