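import Pool.Statements.S06399
import Pool.Agent.H.MP_36cdb9.F
import Pool.Agent.H.MP_36cdb9.H

set_option autoImplicit false
open Pool Pool.MP_dd9902_an

namespace Pool.Agent.S06399

/-- For every separable real Banach space X with no bounded-below operator from ℓ_1 into X, the dual X* carries a norm equivalent to the dual norm that is locally uniformly rotund: N(g_n)→N(f) and N(f+g_n)→2N(f) imply N(g_n−f)→0. -/
theorem result :
  ∀ (X : Type) [NormedAddCommGroup X] [NormedSpace ℝ X] [CompleteSpace X]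
    [TopologicalSpace.SeparableSpace X],
    (¬ ∃ T : (lp (fun _ : ℕ => ℝ) 1) →L[ℝ] X, ∃ c : ℝ, 0 < c ∧ ∀ x, c * ‖x‖ ≤ ‖T x‖) →
    ∃ N : (X →L[ℝ] ℝ) → ℝ,
      (∃ a b : ℝ, 0 < a ∧ 0 < b ∧ ∀ f : X →L[ℝ] ℝ, a * ‖f‖ ≤ N f ∧ N f ≤ b * ‖f‖) ∧
      (∀ f g : X →L[ℝ] ℝ, N (f + g) ≤ N f + N g) ∧
      (∀ (t : ℝ) (f : X →L[ℝ] ℝ), N (t • f) = |t| * N f) ∧
      (∀ (f : X →L[ℝ] ℝ) (g : ℕ → X →L[ℝ] ℝ),
        Filter.Tendsto (fun n => N (g n)) Filter.atTop (nhds (N f)) →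
        Filter.Tendsto (fun n => N (f + g n)) Filter.atTop (nhds (2 * N f)) →
        Filter.Tendsto (fun n => N (g n - f)) Filter.atTop (nhds 0)) := by
  intro X _ _ _ _ h
  obtain ⟨C, -, hC⟩ := H.MP_36cdb9.deco h
  exact H.MP_36cdb9.mot (Y := X →L[ℝ] ℝ) C hC

end Pool.Agent.S06399
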