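import Pool.Statements.S06401
-- import your own Pool.Agent.* helpers here

set_option autoImplicit false
open Pool Pool.MP_ddde1e_an

namespace Pool.Agent.S06401

open Set Filter Topology

lemma exK (n : ℕ → ℕ) (hn : StrictMono n)
    (h : Tendsto (fun k : ℕ => n (k + 1) - n k) atTop atTop) :
    ∃ K : ℕ → ℕ, K 0 = 0 ∧ StrictMono K ∧ ∀ i k, K i ≤ k → 2 ^ i ≤ n (k + 1) - n k := by
  choose K' hK' using fun i : ℕ => eventually_atTop.1 (h.eventually_ge_atTop (2 ^ i))
  refine ⟨fun i => Nat.rec 0 (fun i a => max (a + 1) (K' (i + 1))) i, rfl,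
    strictMono_nat_of_lt_succ fun i => lt_of_lt_of_le (Nat.lt_succ_self _) (le_max_left _ _), ?_⟩
  intro i k hk
  cases i with
  | zero => have := hn (Nat.lt_succ_self k); simp only [Nat.succ_eq_add_one] at this; omega
  | succ i => exact hK' _ k (le_trans (le_max_right _ _) hk)

def idx (n : ℕ → ℕ) (r : ℕ) : ℕ := Nat.findGreatest (fun k => n k ≤ r) r

lemma idx_eq {n : ℕ → ℕ} (hn : StrictMono n) {k r : ℕ} (h1 : n k ≤ r) (h2 : r < n (k + 1)) :
    idx n r = k := by
  rw [idx, Nat.findGreatest_eq_iff]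
  refine ⟨(hn.id_le k).trans h1, fun _ => h1, fun m hm _ hc => ?_⟩
  have := hn.monotone (show k + 1 ≤ m from hm)
  omega

noncomputable def dl (n K : ℕ → ℕ) (t : ℕ → ℝ) (i : ℕ) (F : ℕ → ℝ) (r : ℕ) : ℝ :=
  if n (K i) ≤ r then
    Int.fract (t (idx n r) - ∑ j ∈ Finset.Ico (n (idx n r)) (n (idx n r + 1)), F j) /
      ((n (idx n r + 1) - n (idx n r) : ℕ) : ℝ) else 0

noncomputable def Ps (n K : ℕ → ℕ) (t : ℕ → ℝ) : ℕ → ℕ → ℝ
  | 0 => fun _ => 0
  | i + 1 => fun j => Ps n K t i j + dl n K t i (Ps n K t i) (j % n (K (i + 1)))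

lemma Ps_eq (n K : ℕ → ℕ) (t : ℕ → ℝ) (i j : ℕ) :
    Ps n K t i j = ∑ l ∈ Finset.range i, dl n K t l (Ps n K t l) (j % n (K (l + 1))) := by
  induction i with
  | zero => simp [Ps]
  | succ i ih => rw [Finset.sum_range_succ, ← ih]; rfl

lemma dl_le {n K : ℕ → ℕ} (hn : StrictMono n) (hK : ∀ i k, K i ≤ k → 2 ^ i ≤ n (k + 1) - n k)
    (t : ℕ → ℝ) (i : ℕ) (F : ℕ → ℝ) (r : ℕ) : ‖dl n K t i F r‖ ≤ (1 / 2) ^ i := by
  unfold dl
  split_ifs with h
  · have h1 : K i ≤ idx n r := Nat.le_findGreatest ((hn.id_le _).trans h) h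
    have h2 : ((2 : ℝ) ^ i) ≤ ((n (idx n r + 1) - n (idx n r) : ℕ) : ℝ) := by
      exact_mod_cast hK i _ h1
    rw [Real.norm_of_nonneg (div_nonneg (Int.fract_nonneg _) (by positivity)), one_div_pow]
    exact div_le_div₀ zero_le_one (Int.fract_lt_one _).le (by positivity) h2
  · rw [norm_zero]; positivity

lemma block {n K : ℕ → ℕ} (hn : StrictMono n) (hK0 : K 0 = 0) (hK : StrictMono K) (t : ℕ → ℝ)
    (k : ℕ) : ((∑ j ∈ Finset.Ico (n k) (n (k + 1)),
      ∑' l, dl n K t l (Ps n K t l) (j % n (K (l + 1))) : ℝ) : UnitAddCircle) = (t k : ℝ) := by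
  obtain ⟨i, h1, h2⟩ : ∃ i, K i ≤ k ∧ k < K (i + 1) := by
    refine ⟨Nat.findGreatest (fun i => K i ≤ k) k, ?_, ?_⟩
    · exact Nat.findGreatest_spec (P := fun i => K i ≤ k) (Nat.zero_le k) (by simp [hK0])
    · by_contra hc
      have h3 := not_lt.1 hc
      have := Nat.le_findGreatest (P := fun i => K i ≤ k) ((hK.id_le _).trans h3) h3
      simp only [id] at this
      omega
  have hlt := hn (Nat.lt_succ_self k)
  have e : ∀ j ∈ Finset.Ico (n k) (n (k + 1)),
      ∑' l, dl n K t l (Ps n K t l) (j % n (K (l + 1))) = Ps n K t i j +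
        Int.fract (t k - ∑ j ∈ Finset.Ico (n k) (n (k + 1)), Ps n K t i j) /
          ((n (k + 1) - n k : ℕ) : ℝ) := by
    intro j hj
    rw [Finset.mem_Ico] at hj
    have hj2 : j < n (K (i + 1)) := lt_of_lt_of_le hj.2 (hn.monotone h2)
    rw [tsum_eq_sum (s := Finset.range (i + 1)), Finset.sum_range_succ, ← Ps_eq,
      Nat.mod_eq_of_lt hj2, dl, if_pos ((hn.monotone h1).trans hj.1), idx_eq hn hj.1 hj.2]
    intro l hl
    rw [Finset.mem_range, not_lt] at hl
    have h3 : j < n (K l) := lt_of_lt_of_le hj2 (hn.monotone (hK.monotone hl))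
    rw [dl, if_neg]
    have := Nat.mod_le j (n (K (l + 1)))
    omega
  rw [Finset.sum_congr rfl e, Finset.sum_add_distrib, Finset.sum_const, Nat.card_Ico, nsmul_eq_mul,
    mul_div_cancel₀ _ (by exact_mod_cast (show n (k + 1) - n k ≠ 0 by
      simp only [Nat.succ_eq_add_one] at hlt; omega)),
    AddCircle.coe_add, AddCircle.coe_fract, ← AddCircle.coe_add, add_sub_cancel]

lemma sep {X : Type} [MetricSpace X] [CompactSpace X] (T : X ≃ₜ X) (C : Set (X × X))
    (hC : IsClosed C) (hd : ∀ p ∈ C, p.1 ≠ p.2) (hT : ∀ a b, (a, b) ∈ C ↔ (T a, T b) ∈ C)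
    {x y : X} (h : (x, y) ∈ C) : ∃ ε : ℝ, 0 < ε ∧ ∀ m : ℕ,
      ε ≤ dist ((⇑T)^[m] x) ((⇑T)^[m] y) ∧ ε ≤ dist ((⇑T.symm)^[m] x) ((⇑T.symm)^[m] y) := by
  obtain ⟨p, hp, hmin⟩ := hC.isCompact.exists_isMinOn ⟨_, h⟩
    (continuous_dist (α := X)).continuousOn
  refine ⟨dist p.1 p.2, dist_pos.2 (hd p hp), fun m => ⟨?_, ?_⟩⟩
  · refine hmin (a := ((⇑T)^[m] x, (⇑T)^[m] y)) ?_
    induction m with
    | zero => exact h
    | succ m ih => rw [Function.iterate_succ_apply', Function.iterate_succ_apply']; exact (hT _ _).1 ih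
  · refine hmin (a := ((⇑T.symm)^[m] x, (⇑T.symm)^[m] y)) ?_
    induction m with
    | zero => exact h
    | succ m ih =>
      rw [Function.iterate_succ_apply', Function.iterate_succ_apply', hT]
      simpa using ih

noncomputable def skew {G : Type} [AddCommGroup G] [TopologicalSpace G] [IsTopologicalAddGroup G]
    (u : G) (c : G → ℝ) (hc : Continuous c) : (G × UnitAddCircle) ≃ₜ (G × UnitAddCircle) where
  toFun p := (p.1 + u, p.2 + (c p.1 : ℝ))
  invFun p := (p.1 - u, p.2 - (c (p.1 - u) : ℝ))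
  left_inv p := by simp
  right_inv p := by simp
  continuous_toFun := (continuous_fst.add continuous_const).prodMk
    (continuous_snd.add ((AddCircle.continuous_mk' 1).comp (hc.comp continuous_fst)))
  continuous_invFun := (continuous_fst.sub continuous_const).prodMk
    (continuous_snd.sub ((AddCircle.continuous_mk' 1).comp
      (hc.comp (continuous_fst.sub continuous_const))))

lemma skew_iter {G : Type} [AddCommGroup G] [TopologicalSpace G] [IsTopologicalAddGroup G]
    (u : G) (c : G → ℝ) (hc : Continuous c) (y : ℝ) (m : ℕ) :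
    (skew u c hc)^[m] (0, (y : UnitAddCircle)) =
      (m • u, ((y + ∑ j ∈ Finset.range m, c (j • u) : ℝ) : UnitAddCircle)) := by
  induction m with
  | zero => simp
  | succ m ih =>
    rw [Function.iterate_succ_apply', ih, Finset.sum_range_succ, succ_nsmul, ← add_assoc,
      AddCircle.coe_add _ (y + _)]
    rfl

theorem result :
    ∀ n : ℕ → ℕ, StrictMono n →
      Filter.Tendsto (fun k : ℕ => n (k + 1) - n k) Filter.atTop Filter.atTop →
      ∀ φ : ℕ → ℝ, (∃ C : ℝ, ∀ k : ℕ, |φ k| ≤ C) →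
        ∃ (X : Type) (_ : MetricSpace X) (_ : CompactSpace X) (T : X ≃ₜ X),
          (∀ x y : X, x ≠ y → ∃ ε : ℝ, 0 < ε ∧ ∀ m : ℕ,
              ε ≤ dist ((⇑T)^[m] x) ((⇑T)^[m] y) ∧
              ε ≤ dist ((⇑T.symm)^[m] x) ((⇑T.symm)^[m] y)) ∧
          ∃ (x₀ : X) (f : X → ℝ), Continuous f ∧
            ∀ k : ℕ, f ((⇑T)^[n k] x₀) = φ k := by
  rintro n hn hg φ ⟨C, hC⟩
  obtain ⟨K, hK0, hK, hK2⟩ := exK n hn hg
  have hC0 : 0 ≤ C := (abs_nonneg _).trans (hC 0)
  have hq : ∀ i, NeZero (n (K (i + 1))) := fun i =>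
    ⟨by have := hn.id_le (K (i + 1)); have := hK.id_le (i + 1); simp only [id] at *; omega⟩
  let a : ℕ → ℝ := fun k => (φ k + C) / (4 * (C + 1))
  let t : ℕ → ℝ := fun k => a (k + 1) - a k
  let G : Type := ∀ i, ZMod (n (K (i + 1)))
  let c : G → ℝ := fun g => ∑' l, dl n K t l (Ps n K t l) (g l).val
  have hc : Continuous c := continuous_tsum (u := fun l => (1 / 2 : ℝ) ^ l)
    (fun l => (continuous_of_discreteTopology
      (f := fun z : ZMod (n (K (l + 1))) => dl n K t l (Ps n K t l) z.val)).comp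
        (continuous_apply l)) summable_geometric_two fun l g => dl_le hn hK2 t l _ _
  have hcj : ∀ j : ℕ, c (j • (1 : G)) = ∑' l, dl n K t l (Ps n K t l) (j % n (K (l + 1))) := by
    intro j
    refine tsum_congr fun l => ?_
    rw [← ZMod.val_natCast]
    simp [G]
  let _ : MetricSpace (G × UnitAddCircle) := TopologicalSpace.metrizableSpaceMetric _
  refine ⟨G × UnitAddCircle, inferInstance, inferInstance, skew 1 c hc, fun x y hxy => ?_,
    (0, ((a 0 - ∑ j ∈ Finset.range (n 0), c (j • 1) : ℝ) : UnitAddCircle)),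
    fun p => 4 * (C + 1) * ‖p.2‖ - C, by fun_prop, fun k => ?_⟩
  · by_cases h : x.1 = y.1
    · refine sep _ {p | p.1 - p.2 = x - y} (isClosed_eq (by fun_prop) continuous_const)
        (fun p hp he => hxy ?_) (fun u v => ?_) rfl
      · rw [mem_ofPred_eq, he, sub_self] at hp
        exact sub_eq_zero.1 hp.symm
      · simp only [mem_ofPred_eq, Prod.ext_iff, Prod.fst_sub, Prod.snd_sub, h, sub_self, skew,
          Homeomorph.homeomorph_mk_coe, Equiv.coe_fn_mk, add_sub_add_right_eq_sub]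
        refine and_congr_right fun h1 => ?_
        rw [sub_eq_zero.1 h1, add_sub_add_right_eq_sub]
    · refine sep _ {p : (G × UnitAddCircle) × (G × UnitAddCircle) | p.1.1 - p.2.1 = x.1 - y.1} 
        (isClosed_eq (by fun_prop) continuous_const) (fun p hp he => h ?_) (fun u v => ?_) rfl
      · rw [mem_ofPred_eq, he, sub_self] at hp
        exact sub_eq_zero.1 hp.symm
      · simp only [mem_ofPred_eq, skew, Homeomorph.homeomorph_mk_coe, Equiv.coe_fn_mk,
          add_sub_add_right_eq_sub]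
  · have key : ∀ k, ((a 0 - ∑ j ∈ Finset.range (n 0), c (j • 1) +
        ∑ j ∈ Finset.range (n k), c (j • 1) : ℝ) : UnitAddCircle) = (a k : ℝ) := by
      intro k
      induction k with
      | zero => rw [sub_add_cancel]
      | succ k ih =>
        rw [← Finset.sum_range_add_sum_Ico _ (hn.monotone (Nat.le_succ k)), ← add_assoc,
          AddCircle.coe_add, ih]
        simp only [hcj]
        rw [block hn hK0 hK t k, ← AddCircle.coe_add]
        simp only [t, add_sub_cancel]
    rw [skew_iter, key]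
    have h1 := abs_le.1 (hC k)
    have h2 : 0 ≤ a k := div_nonneg (by linarith [h1.1]) (by positivity)
    have h3 : a k ≤ 1 / 2 := by
      rw [div_le_iff₀ (by positivity)]; linarith [h1.2]
    simp only
    rw [(AddCircle.norm_coe_eq_abs_iff 1 one_ne_zero).2 (by rw [abs_of_nonneg h2]; simpa using h3),
      abs_of_nonneg h2]
    simp only [a]
    field_simp
    ring

end Pool.Agent.S06401
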