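import Pool.Statements.S06418
-- import your own Pool.Agent.* helpers here

set_option autoImplicit false
open Pool Pool.MP_def338_an

namespace Pool.Agent.S06418

open Filter Topology

def k (j : ℕ) : ℕ := [443, 214, 103, 52, 25, 14, 5].getD j 0
def T (j : ℕ) : ℕ := [329560, 159448, 77272, 37720, 17752, 8152, 2776].getD j 0
def val (a : ℕ) : ℕ := ∑ j ∈ Finset.range 7, if a.testBit j then k j else 0
def tab : List ℕ := [348, 254, 8728, 616, 1120, 284, 190, 5200, 552, 1056, 6144, 364, 5136, 8744,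
    4444, 222, 300, 584, 1088, 4380, 158, 8492, 520, 1024, 12572, 332, 238, 8712,
    2664, 3168, 268, 174, 5184, 2600, 3104, 560, 2412, 5120, 372, 4428, 206, 2348,
    2632, 308, 592, 142, 10540, 2568, 3072, 528, 2380, 2286, 340, 246, 4302, 608,
    2222, 276, 182, 4238, 544, 6664, 7168, 356, 6476, 2254, 4436, 214, 292, 576,
    2190, 4372, 150, 8484, 512, 10382, 12564, 324, 230, 6350, 2656, 4310, 260, 166,
    6286, 2592, 4246, 1584, 2404, 376, 1396, 4420, 198, 2340, 312, 1332, 1616, 134,
    10532, 2560, 9524, 1552, 2372, 344, 250, 1270, 4294, 1632, 280, 186, 1206, 4230,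
    1568, 6656, 360, 1380, 6468, 2246, 218, 296, 1316, 1600, 2182, 154, 1174, 9508,
    1536, 10374, 328, 234, 1254, 6342, 3680, 264, 170, 1190, 6278, 3616, 5270, 2408,
    3428, 368, 4424, 202, 1222, 3364, 304, 4360, 138, 1158, 11556, 3584, 12552, 2376,
    2282, 336, 242, 4298, 2312, 2218, 272, 178, 4234, 5254, 10410, 7680, 352, 6472,
    2250, 3270, 210, 288, 6408, 2186, 3206, 146, 8480, 14600, 10378, 11398, 320, 226,
    6346, 7366, 4306, 256, 162, 6282, 7302, 4242, 8448, 2400, 888, 1392, 4416, 194,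
    2336, 824, 1328, 4352, 130, 10528, 9016, 9520, 12544, 2368, 856, 762, 1266, 4290,
    2304, 792, 698, 1202, 4226, 252, 8984, 872, 1376, 6464, 188, 730, 808, 1312,
    6400, 2178, 666, 1170, 9504, 220, 10370, 840, 746, 1250, 156, 4826, 776, 682,
    1186, 6274, 236, 5266, 2920, 3424, 880, 172, 714, 1218, 3360, 816, 4872, 650,
    1154, 11552, 204, 13064, 2888, 2794, 848, 140, 4810, 2824, 2730, 784, 690, 2284,
    5250, 244, 4300, 864, 2220, 2762, 180, 722, 800, 6920, 2698, 3202, 658, 2252,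
    15112, 212, 11394, 832, 738, 6858, 148, 4818, 768, 674, 6794, 7298, 228, 6348,
    2912, 4308, 1904, 164, 706, 2848, 4244, 1840, 4864, 642, 11040, 12436, 196, 13056,
    2880, 2786, 1872, 132, 4802, 2816, 2722, 1808, 1714, 2276, 248, 1268, 4292, 1888,
    2212, 184, 1204, 1746, 1824, 6912, 2690, 5904, 1682, 2244, 216, 1236, 14096, 1856,
    1762, 152, 1172, 5842, 1792, 1698, 6786, 232, 1252, 6340, 3936, 5332, 168, 1188,
    1730, 3872, 5268, 8360, 5888, 1666, 12064, 200, 1220, 14080, 3904, 3810, 136, 1156,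
    5826, 3840, 3746, 8328, 2280, 3300, 240, 4296, 5316, 2216, 3236, 176, 4232, 5252,
    10408, 7936, 3714, 12424, 2248, 3268, 208]

lemma rep : ∀ d < 385, val (tab.getD d 0 / 128) = val (tab.getD d 0 % 128) + (29 + d) := by
  decide +kernel

noncomputable def R (n : ℕ) : ℝ := T (n % 7) / (329560 * 385 ^ (n / 7))
noncomputable def x (n : ℕ) : ℝ := 384 * k (n % 7) / (329560 * 385 ^ (n / 7))

lemma R_mk (q j : ℕ) (hj : j < 7) : R (7 * q + j) = T j / (329560 * 385 ^ q) := by
  unfold R
  rw [show (7 * q + j) % 7 = j by omega, show (7 * q + j) / 7 = q by omega]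

lemma x_mk (q j : ℕ) (hj : j < 7) : x (7 * q + j) = 384 * k j / (329560 * 385 ^ q) := by
  unfold x
  rw [show (7 * q + j) % 7 = j by omega, show (7 * q + j) / 7 = q by omega]

lemma R_top (q : ℕ) : R (7 * q + 7) = 856 / (329560 * 385 ^ q) := by
  have := R_mk (q + 1) 0 (by norm_num)
  rw [show 7 * q + 7 = 7 * (q + 1) + 0 by ring, this]
  simp only [T, List.getD_cons_zero, pow_succ]
  field_simp
  norm_num

lemma step (q j : ℕ) (hj : j < 7) : 0 < R (7 * q + j) ∧
    R (7 * q + j) - R (7 * q + j + 1) = x (7 * q + j) ∧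
    1064 / (329560 * 385 ^ q) ≤ R (7 * q + j) - 2 * R (7 * q + j + 1) := by
  have hp : (0:ℝ) < 329560 * 385 ^ q := by positivity
  rw [R_mk q j hj, x_mk q j hj]
  by_cases h6 : j = 6
  · subst h6
    rw [add_assoc, R_top]
    simp only [T, k, List.getD_cons_succ, List.getD_cons_zero]
    refine ⟨by positivity, by field_simp; norm_num, ?_⟩
    rw [← mul_div_assoc, ← sub_div]
    apply div_le_div_of_nonneg_right _ hp.le
    norm_num
  · rw [add_assoc, R_mk q (j + 1) (by omega), ← mul_div_assoc, ← sub_div, ← sub_div]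
    have hj5 : j ≤ 5 := by omega
    refine ⟨div_pos ?_ hp, ?_, div_le_div_of_nonneg_right ?_ hp.le⟩
    · interval_cases j <;> simp [T]
    · congr 1
      interval_cases j <;> simp [T, k] <;> norm_num
    · interval_cases j <;> simp [T] <;> norm_num

lemma step' (n : ℕ) : 0 < R n ∧ R n - R (n + 1) = x n ∧
    1064 / (329560 * 385 ^ (n / 7)) ≤ R n - 2 * R (n + 1) := by
  have := step (n / 7) (n % 7) (Nat.mod_lt _ (by norm_num))
  rwa [Nat.div_add_mod] at this

lemma R_pos (n : ℕ) : 0 < R n := (step' n).1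
lemma R_sub (n : ℕ) : R n - R (n + 1) = x n := (step' n).2.1
lemma R_half (n : ℕ) : 2 * R (n + 1) < R n := by
  have := (step' n).2.2
  have h : (0:ℝ) < 1064 / (329560 * 385 ^ (n / 7)) := by positivity
  linarith
lemma R_zero : R 0 = 1 := by simp [R, T]
lemma x_pos (n : ℕ) : 0 < x n := by
  have := R_sub n; have := R_half n; have := R_pos (n + 1); linarith

lemma R_le (n : ℕ) : R n ≤ (1 / 2) ^ n := by
  induction n with
  | zero => simp [R_zero]
  | succ n ih => have := R_half n; rw [pow_succ]; linarith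

lemma R_lim : Tendsto R atTop (𝓝 0) :=
  squeeze_zero (fun n => (R_pos n).le) R_le
    (tendsto_pow_atTop_nhds_zero_of_lt_one (by norm_num) (by norm_num))

lemma tail (m : ℕ) : HasSum (fun i => x (i + m)) (R m) := by
  rw [hasSum_iff_tendsto_nat_of_nonneg (fun i => (x_pos _).le)]
  have h : ∀ n, ∑ i ∈ Finset.range n, x (i + m) = R m - R (n + m) := by
    intro n
    induction n with
    | zero => simp
    | succ n ih =>
      rw [Finset.sum_range_succ, ih, ← R_sub, show n + 1 + m = n + m + 1 by ring]; ring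
  simp only [h]
  have := (R_lim.comp (tendsto_add_atTop_nat m)).const_sub (R m)
  rw [sub_zero] at this
  exact this

lemma x_sum : Summable x := by simpa using (tail 0).summable

noncomputable def a (n : ℕ) : ℝ := 1 - 2 * R (n + 1) / R n

lemma a_lam (n : ℕ) : (1 - a n) / 2 = R (n + 1) / R n := by
  unfold a; ring

lemma a_prod (n : ℕ) : ∏ i ∈ Finset.range n, (1 - a i) / 2 = R n := by
  induction n with
  | zero => simp [R_zero]
  | succ n ih =>
    rw [Finset.prod_range_succ, ih, a_lam]
    have := (R_pos n).ne'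
    field_simp

lemma a_x (n : ℕ) : (∏ i ∈ Finset.range n, (1 - a i) / 2) * (1 - (1 - a n) / 2) = x n := by
  rw [a_prod, a_lam, ← R_sub]
  have := (R_pos n).ne'
  field_simp

noncomputable def f (ε : ℕ → Bool) (n : ℕ) : ℝ := if ε n = true then x n else 0

lemma f_sum (ε : ℕ → Bool) : Summable (f ε) := by
  refine Summable.of_nonneg_of_le (fun n => ?_) (fun n => ?_) x_sum
  · unfold f; split_ifs; exact (x_pos n).le; exact le_rfl
  · unfold f; split_ifs; exact le_rfl; exact (x_pos n).le

lemma w_cases (u v : ℕ → Bool) (n : ℕ) : f u n - f v n = 0 ∨ |f u n - f v n| = x n := by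
  unfold f
  cases u n <;> cases v n <;> simp [abs_of_pos (x_pos n)]

lemma w_le (u v : ℕ → Bool) (n : ℕ) : |f u n - f v n| ≤ x n := by
  rcases w_cases u v n with h | h
  · rw [h, abs_zero]; exact (x_pos n).le
  · exact h.le

lemma w_tail (u v : ℕ → Bool) (m : ℕ) : |∑' i, (f u (i + m) - f v (i + m))| ≤ R m := by
  rw [← Real.norm_eq_abs]
  exact tsum_of_norm_bounded (tail m) (fun i => w_le u v _)

lemma gap (u v : ℕ → Bool) (Q : ℕ) :
    ∑' n, f u n - ∑' n, f v n ≠ 900 / (329560 * 385 ^ Q) := by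
  have hp : (0:ℝ) < 329560 * 385 ^ Q := by positivity
  have hs : Summable fun n => f u n - f v n := (f_sum u).sub (f_sum v)
  rw [← (f_sum u).tsum_sub (f_sum v)]
  intro he
  by_cases hex : ∃ n, n < 7 * Q + 7 ∧ f u n - f v n ≠ 0
  · classical
    set m := Nat.find hex with hm
    obtain ⟨hm1, hm2⟩ := Nat.find_spec hex
    rw [← hm] at hm1 hm2
    have h0 : ∑ i ∈ Finset.range m, (f u i - f v i) = 0 := by
      apply Finset.sum_eq_zero
      intro i hi
      have hi' := Finset.mem_range.1 hi
      have := Nat.find_min hex hi'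
      push Not at this
      exact this (by omega)
    have h1 := hs.sum_add_tsum_nat_add (m + 1)
    rw [Finset.sum_range_succ, h0, he] at h1
    have h2 := w_tail u v (m + 1)
    have h3 := (w_cases u v m).resolve_left hm2
    have h4 := (step' m).2.2
    have h5 := R_sub m
    have h6 : (1064:ℝ) / (329560 * 385 ^ Q) ≤ 1064 / (329560 * 385 ^ (m / 7)) := by
      apply div_le_div_of_nonneg_left (by norm_num) (by positivity)
      have : (385:ℝ) ^ (m / 7) ≤ 385 ^ Q := pow_le_pow_right₀ (by norm_num) (by omega)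
      linarith
    have h7 : (900:ℝ) / (329560 * 385 ^ Q) < 1064 / (329560 * 385 ^ Q) :=
      div_lt_div_of_pos_right (by norm_num) hp
    have h8 : (0:ℝ) < 900 / (329560 * 385 ^ Q) := by positivity
    rw [abs_le] at h2
    rcases abs_cases (f u m - f v m) with h | h <;> linarith [h.1, h2.1, h2.2]
  · push Not at hex
    have h0 : ∑ i ∈ Finset.range (7 * Q + 7), (f u i - f v i) = 0 :=
      Finset.sum_eq_zero fun i hi => hex i (Finset.mem_range.1 hi)
    have h1 := hs.sum_add_tsum_nat_add (7 * Q + 7)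
    rw [h0, he, zero_add] at h1
    have h2 := w_tail u v (7 * Q + 7)
    rw [h1, R_top] at h2
    have h7 : (856:ℝ) / (329560 * 385 ^ Q) < 900 / (329560 * 385 ^ Q) :=
      div_lt_div_of_pos_right (by norm_num) hp
    linarith [le_abs_self ((900:ℝ) / (329560 * 385 ^ Q))]

lemma blk (A : ℕ → ℕ) : HasSum (fun q => (384 * val (A q) : ℝ) / (329560 * 385 ^ q))
    (∑' n, f (fun n => (A (n / 7)).testBit (n % 7)) n) := by
  rw [hasSum_iff_tendsto_nat_of_nonneg (fun i => by positivity)]
  have h1 := ((f_sum fun n => (A (n / 7)).testBit (n % 7)).hasSum.tendsto_sum_nat).comp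
    (tendsto_id.const_mul_atTop' (show 0 < 7 by norm_num))
  refine h1.congr fun Q => ?_
  simp only [Function.comp, id]
  induction Q with
  | zero => simp
  | succ Q ih =>
    rw [Finset.sum_range_succ, ← ih, mul_add, mul_one, Finset.sum_range_add]
    congr 1
    simp only [val]
    push_cast
    rw [Finset.mul_sum, Finset.sum_div]
    refine Finset.sum_congr rfl fun j hj => ?_
    have hj' := Finset.mem_range.1 hj
    unfold f
    beta_reduce
    rw [show (7 * Q + j) % 7 = j by omega, show (7 * Q + j) / 7 = Q by omega, x_mk Q j hj']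
    split_ifs <;> simp

lemma fill (t : ℝ) (ht : t ∈ Set.Ico (0:ℝ) 1) : ∃ u v : ℕ → Bool,
    29 / 856 + 384 / 856 * t = ∑' n, f u n - ∑' n, f v n := by
  set d := Real.digits t 385 with hd
  have h1 := Real.hasSum_ofDigitsTerm_digits t (b := 385) (by norm_num) ht
  rw [← hd] at h1
  refine ⟨_, _, HasSum.unique ?_ ((blk fun q => tab.getD (d q) 0 / 128).sub
    (blk fun q => tab.getD (d q) 0 % 128))⟩
  have h2 := ((hasSum_geometric_of_lt_one (r := (1 / 385 : ℝ)) (by norm_num)
    (by norm_num)).mul_left (384 * 29 / 329560)).add (h1.mul_left (384 / 856))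
  have e1 : (384 * 29 / 329560 : ℝ) * (1 - 1 / 385)⁻¹ = 29 / 856 := by norm_num
  rw [e1] at h2
  have e2 : (fun q => 384 * 29 / 329560 * (1 / 385 : ℝ) ^ q + 384 / 856 * Real.ofDigitsTerm d q)
      = fun q => (384 * val (tab.getD (d q) 0 / 128) : ℝ) / (329560 * 385 ^ q)
        - (384 * val (tab.getD (d q) 0 % 128) : ℝ) / (329560 * 385 ^ q) := by
    funext q
    rw [rep _ (d q).2]
    unfold Real.ofDigitsTerm
    push_cast
    rw [one_div, inv_pow, pow_succ]
    field_simp
    ring
  rw [e2] at h2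
  exact h2

theorem result :
    ¬ (∀ a : ℕ → ℝ, (∀ n, 0 < a n ∧ a n < 1) →
      ∀ C : Set ℝ,
        C = Set.range (fun ε : ℕ → Bool =>
          ∑' n, if ε n = true then
            (∏ i ∈ Finset.range n, (1 - a i) / 2) * (1 - (1 - a n) / 2) else 0) →
        (interior {z : ℝ | ∃ u ∈ C, ∃ v ∈ C, z = u - v}).Nonempty →
        (0 : ℝ) ∈ interior {z : ℝ | ∃ u ∈ C, ∃ v ∈ C, z = u - v}) := by
  intro H
  have hf : (fun ε : ℕ → Bool => ∑' n, if ε n = true then
      (∏ i ∈ Finset.range n, (1 - a i) / 2) * (1 - (1 - a n) / 2) else 0)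
      = fun ε => ∑' n, f ε n := by
    funext ε
    simp only [a_x, f]
  have h0 := H a (fun n => by
      have h1 := R_pos n
      have h2 := R_pos (n + 1)
      have h3 := R_half n
      unfold a
      constructor
      · rw [sub_pos, div_lt_one h1]; exact h3
      · have : 0 < 2 * R (n + 1) / R n := by positivity
        linarith) _ rfl (by
      rw [hf]
      refine ⟨100 / 856, mem_interior.2 ⟨Set.Ioo (29 / 856) (413 / 856), ?_, isOpen_Ioo,
        by norm_num, by norm_num⟩⟩
      intro z hz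
      obtain ⟨u, v, h⟩ := fill ((856 * z - 29) / 384)
        ⟨by linarith [hz.1], by linarith [hz.2]⟩
      exact ⟨_, ⟨u, rfl⟩, _, ⟨v, rfl⟩, by rw [← h]; ring⟩)
  rw [hf, mem_interior_iff_mem_nhds] at h0
  have hl : Tendsto (fun Q : ℕ => (900:ℝ) / (329560 * 385 ^ Q)) atTop (𝓝 0) :=
    tendsto_const_nhds.div_atTop
      ((tendsto_pow_atTop_atTop_of_one_lt (by norm_num)).const_mul_atTop (by norm_num))
  obtain ⟨Q, _, ⟨u, rfl⟩, _, ⟨v, rfl⟩, h⟩ := (hl.eventually h0).exists
  exact gap u v Q h.symm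

end Pool.Agent.S06418
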