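import Pool.Statements.S06419
-- import your own Pool.Agent.* helpers here
import Pool.Agent.H.MP_df1243_an.C

set_option autoImplicit false
open scoped ENNReal MeasureTheory
open Pool Pool.MP_df1243_an

namespace Pool.Agent.S06419

theorem result :
    ∀ E : Set (EuclideanSpace ℝ (Fin 2)), IsCompact E →
      E ⊆ {x | x 1 = 0 ∧ 0 ≤ x 0 ∧ x 0 ≤ 1} →
      0 < (⨅ (ρ : EuclideanSpace ℝ (Fin 2) → ℝ≥0∞) (_ : Measurable ρ)
            (_ : ∀ γ : C(unitInterval, EuclideanSpace ℝ (Fin 2)),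
              Function.Injective γ → γ 0 ∈ E → γ 1 ∈ Metric.sphere (0 : EuclideanSpace ℝ (Fin 2)) 2 →
              μH[1] (Set.range γ) < ⊤ → 1 ≤ ∫⁻ x in Set.range γ, ρ x ∂μH[1]),
            ∫⁻ x, ρ x ^ 2) →
      (⨅ (ρ : EuclideanSpace ℝ (Fin 2) → ℝ≥0∞) (_ : Measurable ρ)
            (_ : ∀ γ : C(unitInterval, EuclideanSpace ℝ (Fin 2)),
              Function.Injective γ → γ 0 ∈ E → γ 1 ∈ ({x | x 1 = 0} \ E) →
              μH[1] (Set.range γ) < ⊤ → 1 ≤ ∫⁻ x in Set.range γ, ρ x ∂μH[1]),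
            ∫⁻ x, ρ x ^ 2) = ⊤ := by
  intro E _ hE hpos
  exact Pool.Agent.H.MP_df1243_an.main hE hpos

end Pool.Agent.S06419
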