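import Pool.Statements.S06442
import Pool.Agent.H.MP_e07177_an.Main

set_option autoImplicit false
open Pool Pool.MP_e07177_an

namespace Pool.Agent.S06442

open Pool.Agent.H.MP_e07177_an

theorem result :
    ¬ (∀ (𝕜 : Type) [RCLike 𝕜] (E : Type) [NormedAddCommGroup E] [NormedSpace 𝕜 E]
      [CompleteSpace E] (x : ℕ → E),
      ((∃ f : ℕ → (E →L[𝕜] 𝕜),
          (∀ i j : ℕ, f i (x j) = if i = j then (1 : 𝕜) else 0) ∧
          (∀ v : E, (∀ n : ℕ, f n v = 0) → v = 0)) ∧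
        Dense ((Submodule.span 𝕜 (Set.range x) : Submodule 𝕜 E) : Set E)) →
      ∃ a b : ℕ → ℕ, StrictMono a ∧ StrictMono b ∧
        (∀ n : ℕ, (∃ k, a k = n) ↔ ¬ ∃ k, b k = n) ∧
        ∀ c : ℕ → ℕ, (c = a ∨ c = b) →
          ∃ p : ℕ → ℕ, StrictMono p ∧
            ∀ v ∈ (Submodule.span 𝕜 (Set.range (fun i => x (c i)))).topologicalClosure,
              ∃! t : ℕ → 𝕜,
                Filter.Tendsto
                  (fun k => ∑ i ∈ Finset.range (p k), t i • x (c i))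
                  Filter.atTop (nhds v)) := by
  intro h
  obtain ⟨a, b, ha, hb, hab, h⟩ := h ℝ E x ⟨⟨f, bi, total⟩, dense_x⟩
  have k : ∀ c : ℕ → ℕ, (c = a ∨ c = b) → StrictMono c →
      ∃ K, ∀ i, ∃ N, ∀ j ≥ N, ‖x (c i)‖ ≤ K * ‖x (c i) - x (c j)‖ := fun c h1 h2 => by
    obtain ⟨p, hp, h3⟩ := h c h1
    exact bound (fun i => x (c i)) (fun i => f (c i))
      (fun i j => by simp only [bi, h2.injective.eq_iff]) p hp fun v hv => (h3 v hv).exists
  obtain ⟨K, hK⟩ := k a (Or.inl rfl) ha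
  obtain ⟨L, hL⟩ := k b (Or.inr rfl) hb
  obtain ⟨s, hs⟩ := exists_nat_gt (2 * |K| + 2 * |L|)
  refine Set.infinite_range_of_injective (f := Nat.pair s) (fun m n e => (Nat.pair_eq_pair.1 e).2)
    (((fin a K hK s (by linarith [abs_nonneg L])).union
      (fin b L hL s (by linarith [abs_nonneg K]))).subset ?_)
  rintro _ ⟨n, rfl⟩
  have e : κ (Nat.pair s n) = s := by simp [κ]
  by_cases h1 : ∃ k, b k = Nat.pair s n
  · obtain ⟨k, hk⟩ := h1
    exact Or.inr ⟨k, (congrArg κ hk).trans e, hk⟩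
  · obtain ⟨k, hk⟩ := (hab _).2 h1
    exact Or.inl ⟨k, (congrArg κ hk).trans e, hk⟩

end Pool.Agent.S06442
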