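import Pool.Statements.S06444
import Pool.Agent.H.MP_e081a1_an.A

set_option autoImplicit false
open MeasureTheory
open scoped ENNReal
open Pool Pool.MP_e081a1_an

namespace Pool.Agent.S06444
open Pool.Agent.H.MP_e081a1_an

theorem result :
    ¬ (∀ (p : ℝ≥0∞) [Fact (1 ≤ p)], p ≠ ⊤ → p ≠ 2 →
    ∀ (X : Type) [MetricSpace X] [MeasurableSpace X] [BorelSpace X],
      (∀ R : ℝ, 0 < R → ∃ N : ℕ, ∀ x : X,
          (Metric.ball x R).Finite ∧ (Metric.ball x R).ncard ≤ N) →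
      (∃ c : ℝ, 0 < c ∧ c ≤ 1 ∧ ∃ f : ℕ → ℕ, Monotone f ∧
        ∀ (ν : Measure X) [IsLocallyFiniteMeasure ν], ν ≠ 0 → ∀ r : ℕ,
          ∀ T : Lp (lp (fun _ : ℕ => ℝ) p) p ν →L[ℝ] Lp (lp (fun _ : ℕ => ℝ) p) p ν,
            (∀ x y : X, (r : ℝ) < dist x y →
              ∃ U V : Set X, IsOpen U ∧ IsOpen V ∧ x ∈ U ∧ y ∈ V ∧
                ∀ g : Lp (lp (fun _ : ℕ => ℝ) p) p ν,
                  (∀ᵐ z ∂ν, z ∉ U → ⇑g z = 0) → ∀ᵐ z ∂ν, z ∈ V → ⇑(T g) z = 0) →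
            ∃ ξ : Lp (lp (fun _ : ℕ => ℝ) p) p ν, ξ ≠ 0 ∧
              (∃ S : Set X, (∀ a ∈ S, ∀ b ∈ S, dist a b ≤ (f r : ℝ)) ∧
                ∀ᵐ z ∂ν, z ∉ S → ⇑ξ z = 0) ∧
              c * ‖T‖ * ‖ξ‖ ≤ ‖T ξ‖) →
      (∀ R : ℝ, 0 < R → ∀ ε : ℝ, 0 < ε →
        ∃ S : ℝ, ∃ A : X → Set (X × ℕ),
          (∀ x, (A x).Finite) ∧ (∀ x, (x, 0) ∈ A x) ∧
          (∀ x, ∀ w ∈ A x, dist w.1 x ≤ S) ∧
          ∀ x y, dist x y < R →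
            ((symmDiff (A x) (A y)).ncard : ℝ) < ε * ((A x ∩ A y).ncard : ℝ))) := by
  intro H
  letI : MeasurableSpace Y := borel Y
  haveI : BorelSpace Y := ⟨rfl⟩
  haveI : Nontrivial (lp (fun _ : ℕ => ℝ) 1) := by
    refine ⟨lp.single 1 0 1, 0, fun h => ?_⟩
    have := congrArg (fun f : lp (fun _ : ℕ => ℝ) 1 => f 0) h
    simp at this
  obtain ⟨S, A, h1, -, h3, h4⟩ := H 1 (by norm_num) (by norm_num) Y (fun R _ => bdd_geom R)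
    ⟨1 / 2, by norm_num, by norm_num, fun _ => 0, monotone_const, fun ν _ hν r T _ => by
      obtain ⟨ξ, h1, ⟨x, h2⟩, h3⟩ := onl hν
        (fun x => (isCompact_singleton.measure_lt_top (μ := ν)).ne) T
      refine ⟨ξ, h1, ⟨{x}, ?_, h2⟩, h3⟩
      rintro _ rfl _ rfl
      simp⟩ 2 (by norm_num) (1 / 3) (by norm_num)
  exact notA S A h1 h3 h4

end Pool.Agent.S06444
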