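import Pool.Statements.S06456
import Pool.Agent.H.MP_e19c20_an.D

set_option autoImplicit false
open Pool Pool.MP_e19c20_an

namespace Pool.Agent.S06456
open Pool.Agent.H.MP_e19c20_an

noncomputable def M (z : Circle) : ℝ := max |(z : ℂ).re| |(z : ℂ).im|

lemma M_pos (z : Circle) : 0 < M z := by
  by_contra! h
  have h1 := abs_nonpos_iff.1 ((le_max_left _ _).trans h)
  have h2 := abs_nonpos_iff.1 ((le_max_right _ _).trans h)
  exact z.coe_ne_zero (Complex.ext h1 h2)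

noncomputable def β (z : Circle) : ℝ × ℝ :=
  ((1 + (z : ℂ).re / M z) / 2, (1 + (z : ℂ).im / M z) / 2)

lemma β_cont : Continuous β := by
  have h : Continuous M := by unfold M; fun_prop
  have h' := fun z => (M_pos z).ne'
  unfold β
  fun_prop (disch := assumption)

lemma β_inj : Function.Injective β := fun z w h => by
  obtain ⟨h1, h2⟩ := Prod.mk.inj h
  have e : (z : ℂ) / (M z : ℝ) = (w : ℂ) / (M w : ℝ) := by
    apply Complex.ext <;> simp only [Complex.div_ofReal_re, Complex.div_ofReal_im] <;> linarith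
  have n := congrArg norm e
  simp only [norm_div, Circle.norm_coe, Complex.norm_real, Real.norm_eq_abs, abs_of_pos (M_pos _),
    one_div, inv_inj] at n
  rw [n, div_left_inj' (by exact_mod_cast (M_pos w).ne')] at e
  exact Subtype.ext e

lemma cI {x m : ℝ} (h : |x| ≤ m) (hm : 0 < m) : (1 + x / m) / 2 ∈ Set.Icc (0 : ℝ) 1 := by
  have h1 : -1 ≤ x / m := by rw [le_div_iff₀ hm]; linarith [(abs_le.1 h).1]
  have h2 : x / m ≤ 1 := by rw [div_le_iff₀ hm]; linarith [(abs_le.1 h).2]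
  constructor <;> linarith

lemma cO {x m : ℝ} (h : m = |x|) (hm : 0 < m) (n a : ℕ) : (1 + x / m) / 2 ∉
    Set.Ioo ((3 * (a : ℝ) + 1) / 3 ^ (n + 1)) ((3 * (a : ℝ) + 2) / 3 ^ (n + 1)) := by
  rintro ⟨h1, h2⟩
  rcases abs_cases x with c | c
  · rw [h, c.1, div_self (by linarith), add_self_div_two] at h1 h2
    rw [div_lt_one (by positivity)] at h1
    rw [one_lt_div (by positivity)] at h2
    have h3 : 3 * a + 1 < 3 ^ (n + 1) := by exact_mod_cast h1
    have h4 : 3 ^ (n + 1) < 3 * a + 2 := by exact_mod_cast h2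
    omega
  · rw [h, c.1, div_neg, div_self c.2.ne, add_neg_cancel, zero_div] at h1
    exact absurd h1 (not_lt.2 (by positivity))

theorem result :
    ¬ (∀ (X : Type) [MetricSpace X] [CompactSpace X] (A : Subalgebra ℂ C(X, ℂ)),
      IsClosed (A : Set C(X, ℂ)) →
      (∀ x y : X, x ≠ y → ∃ f ∈ A, f x ≠ f y) →
      A ≠ ⊤ →
      (∀ φ : A →ₐ[ℂ] ℂ, ∃ x : X, ∀ f : A, φ f = (f : C(X, ℂ)) x) →
      ∃ K : Set X, Nonempty (↥K ≃ₜ ↥({p : ℝ × ℝ |
        p.1 ∈ Set.Icc (0 : ℝ) 1 ∧ p.2 ∈ Set.Icc (0 : ℝ) 1 ∧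
        ∀ n a b : ℕ, ¬ (p.1 ∈ Set.Ioo ((3 * (a : ℝ) + 1) / 3 ^ (n + 1)) ((3 * (a : ℝ) + 2) / 3 ^ (n + 1)) ∧
                        p.2 ∈ Set.Ioo ((3 * (b : ℝ) + 1) / 3 ^ (n + 1)) ((3 * (b : ℝ) + 2) / 3 ^ (n + 1)))} : Set (ℝ × ℝ)))) := by
  intro H
  obtain ⟨K, ⟨e⟩⟩ := @H XS (TopologicalSpace.metrizableSpaceMetric XS) inferInstance AA AA_closed
    AA_sep AA_ne AA_nat
  refine no_circle ⟨fun z => (e.symm ⟨β z, cI (le_max_left _ _) (M_pos z),
    cI (le_max_right _ _) (M_pos z), fun n a b h => ?_⟩).1, continuous_subtype_val.comp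
      (e.symm.continuous.comp (β_cont.subtype_mk _))⟩ fun z w h =>
        β_inj (congrArg Subtype.val (e.symm.injective (Subtype.ext h)))
  rcases max_choice |(z : ℂ).re| |(z : ℂ).im| with c | c
  · exact cO c (M_pos z) n a h.1
  · exact cO c (M_pos z) n b h.2

end Pool.Agent.S06456
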