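import Pool.Statements.S06470
import Pool.Agent.H.MP_e29dfb_an.A

set_option autoImplicit false
open Pool Pool.MP_e29dfb_an

namespace Pool.Agent.S06470

/-- The negation of the preceding statement: For every compact set C of nonnegative reals containing 0, there is a compact K ⊆ ℝ whose center of distances (the α ≥ 0 such that every x in K has some y in K with ∣x−y∣ = α) is exactly C. -/
theorem result :
    ¬ (∀ C : Set ℝ, IsCompact C → (0 : ℝ) ∈ C → C ⊆ Set.Ici (0 : ℝ) →
      ∃ K : Set ℝ, IsCompact K ∧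
        {α : ℝ | 0 ≤ α ∧ ∀ x ∈ K, ∃ y ∈ K, |x - y| = α} = C) := by
  intro h
  obtain ⟨K, hK, hK'⟩ := h H.MP_e29dfb_an.C H.MP_e29dfb_an.C_compact
    (Or.inl ⟨le_rfl, zero_le_one⟩) H.MP_e29dfb_an.C_nonneg
  exact H.MP_e29dfb_an.main K hK hK'

end Pool.Agent.S06470
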