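import Pool.Statements.S06473
import Pool.Agent.H.MP_e2d16f_an.A

set_option autoImplicit false
open Pool Pool.MP_e2d16f_an

namespace Pool.Agent.S06473

theorem result :
    ∀ (X : Type) [MetricSpace X],
      (∃ M : ℝ, ∀ (n : ℕ) (μ : Fin n → ℝ) (A : Matrix (Fin n) (Fin n) ℝ),
        (∀ i, 0 ≤ μ i) → (∑ i, μ i = 1) → (∀ i j, 0 ≤ A i j) → (∀ i, ∑ j, A i j = 1) →
        (∀ i j, μ i * A i j = μ j * A j i) →
        ∀ (f : Fin n → X) (t : ℕ),
          ∑ i, ∑ j, μ i * (A ^ t) i j * dist (f i) (f j) ^ 2 ≤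
            M ^ 2 * (t : ℝ) * ∑ i, ∑ j, μ i * A i j * dist (f i) (f j) ^ 2)
      ↔
      (∃ M : ℝ, ∀ (n : ℕ) (μ : Fin n → ℝ) (A : Matrix (Fin n) (Fin n) ℝ),
        (∀ i, 0 ≤ μ i) → (∑ i, μ i = 1) → (∀ i j, 0 ≤ A i j) → (∀ i, ∑ j, A i j = 1) →
        (∀ i j, μ i * A i j = μ j * A j i) →
        ∀ (f : Fin n → X) (t : ℕ),
          ∑ w : Fin (t + 1) → Fin n,
              μ (w 0) * (∏ k : Fin t, A (w k.castSucc) (w k.succ)) *
                (⨆ s : Fin (t + 1), dist (f (w s)) (f (w 0)) ^ 2) ≤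
            M ^ 2 * (t : ℝ) * ∑ i, ∑ j, μ i * A i j * dist (f i) (f j) ^ 2) := by
  intro X _
  open Pool.Agent.H.MP_e2d16f_an in
  constructor
  · rintro ⟨M, h⟩
    refine ⟨√(32000 * M ^ 2 + 3200), fun n μ A h0 h1 h2 h3 h4 f t => ?_⟩
    rw [Real.sq_sqrt (by positivity)]
    exact maximal (D := fun i j => dist (f i) (f j))
      (fun μ A a b c d t => h n μ A a b c.1 c.2 d f t) (fun _ => dist_self _)
      (fun _ _ => dist_comm _ _) (fun _ _ _ => dist_triangle _ _ _) h0 h1 ⟨h2, h3⟩ h4 t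
  · rintro ⟨M, h⟩
    refine ⟨M, fun n μ A h0 h1 h2 h3 h4 f t => le_trans ?_ (h n μ A h0 h1 h2 h3 h4 f t)⟩
    have e : ∀ o, ∑ j, μ o * (A ^ t) o j * dist (f o) (f j) ^ 2 =
        ∑ w : Fin (t + 1) → Fin n, (if w 0 = o then μ o else 0) * wt A w *
          dist (f o) (f (w (Fin.last t))) ^ 2 := fun o => by
      rw [path_last A (fun j => dist (f o) (f j) ^ 2) t fun x => if x = o then μ o else 0,
        Finset.sum_comm]
      simp
    simp only [e]
    rw [Finset.sum_comm]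
    refine Finset.sum_le_sum fun w _ => ?_
    simp only [ite_mul, zero_mul, Finset.sum_ite_eq, Finset.mem_univ, if_true]
    refine mul_le_mul_of_nonneg_left ?_ (mul_nonneg (h0 _) (wt_nonneg ⟨h2, h3⟩ w))
    rw [dist_comm]
    exact Finite.le_ciSup (fun s => dist (f (w s)) (f (w 0)) ^ 2) (Fin.last t)

end Pool.Agent.S06473
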