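import Pool.Statements.S06480
import Pool.Agent.H.MP_a1e890.F

set_option autoImplicit false
open Filter Topology
open Pool Pool.MP_e3abba_an

namespace Pool.Agent.S06480

/-- The negation of the preceding statement: For every real Banach space in which equivalent Fréchet smooth norms are uniformly dense on the unit ball among all equivalent norms, there is an equivalent norm whose dual norm on the dual space is locally uniformly rotund. -/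
theorem result :
    ¬ (∀ (X : Type) [NormedAddCommGroup X] [NormedSpace ℝ X] [CompleteSpace X],
      (∀ p : Seminorm ℝ X, (∃ C : ℝ, 0 < C ∧ ∀ x : X, ‖x‖ ≤ C * p x ∧ p x ≤ C * ‖x‖) →
        ∀ ε : ℝ, 0 < ε → ∃ q : Seminorm ℝ X,
          (∃ C : ℝ, 0 < C ∧ ∀ x : X, ‖x‖ ≤ C * q x ∧ q x ≤ C * ‖x‖) ∧
          (∀ x : X, x ≠ 0 → DifferentiableAt ℝ (fun y : X => q y) x) ∧
          ∀ x : X, ‖x‖ ≤ 1 → |p x - q x| ≤ ε) →
      ∃ p : Seminorm ℝ X, (∃ C : ℝ, 0 < C ∧ ∀ x : X, ‖x‖ ≤ C * p x ∧ p x ≤ C * ‖x‖) ∧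
        ∃ N : (X →L[ℝ] ℝ) → ℝ,
          (∀ f : X →L[ℝ] ℝ, N f = ⨆ x : {x : X // p x ≤ 1}, f x.1) ∧
          ∀ (f : X →L[ℝ] ℝ) (g : ℕ → (X →L[ℝ] ℝ)),
            Tendsto (fun n : ℕ => 2 * N f ^ 2 + 2 * N (g n) ^ 2 - N (f + g n) ^ 2) atTop (𝓝 0) →
            Tendsto (fun n : ℕ => ‖g n - f‖) atTop (𝓝 0)) := by
  intro h
  obtain ⟨I, _, _, _, _, _, _, hc⟩ := H.MP_a1e890.exI
  obtain ⟨p, ⟨C, C0, p1⟩, N, n1, n2⟩ := h (BoundedContinuousFunction I ℝ) (by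
    rintro p ⟨C, C0, p1⟩ ε e0
    obtain ⟨q, q1, q2⟩ := H.MP_a1e890.approx hc p (inv_pos.2 C0) C0
      (fun x => (inv_mul_le_iff₀ C0).2 (p1 x).1) (fun x => (p1 x).2) e0
    refine ⟨q, ⟨C + ε, by positivity, fun x => ⟨?_, ?_⟩⟩, fun x hx => ?_, fun x hx => abs_le.2 ⟨?_, ?_⟩⟩
    · nlinarith [(q1 x).1, (p1 x).1, apply_nonneg p x]
    · linarith [(q1 x).2, (p1 x).2]
    · obtain ⟨Φ, h⟩ := q2 x hx
      exact h.differentiableAt
    · nlinarith [(q1 x).2]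
    · linarith [(q1 x).1])
  have : Nonempty {x // p x ≤ 1} := ⟨0, by simp⟩
  refine H.MP_a1e890.noLUR hc (p := p) (inv_pos.2 C0) (by simp)
    (fun x => (inv_mul_le_iff₀ C0).2 (p1 x).1) (fun f x hx => ?_) (fun f R hR => ?_) n2
  · rw [n1]
    refine le_ciSup (f := fun x : {x // p x ≤ 1} => f x.1) ⟨‖f‖ * C, ?_⟩ ⟨x, hx⟩
    rintro _ ⟨y, rfl⟩
    exact (le_abs_self _).trans (f.le_opNorm_of_le ((p1 y).1.trans (mul_le_of_le_one_right C0.le y.2)))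
  · rw [n1]
    exact ciSup_le fun x => hR x.1 x.2

end Pool.Agent.S06480
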