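import Pool.Statements.S06493
import Pool.Agent.H.MP_e46b3e_an.C

set_option autoImplicit false
open Pool Pool.MP_e46b3e_an

namespace Pool.Agent.S06493

theorem result :
  ∀ p : ℝ, 1 < p →
    ∃ C : ℝ, 0 < C ∧ ∃ τ : ℝ, 0 < τ ∧ ∃ ε₀ : ℝ, 0 < ε₀ ∧
      ∀ D : ℕ, ∃ d : ℕ, D ≤ d ∧
        ∀ ε : ℝ, 0 < ε → ε ≤ ε₀ →
        ∀ n : ℕ, ∀ x : Fin n → Fin d → ℝ, ∀ a : Fin n → ℝ,
          (∀ j, x j ∈ Set.Icc (0 : Fin d → ℝ) 1) →
          (∫ t in Set.Icc (0 : Fin d → ℝ) 1,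
              |(∏ i, t i) - ∑ j, a j *
                  Set.indicator {y : Fin d → ℝ | ∀ i, x j i < y i} (fun _ => (1 : ℝ)) t| ^ p)
            ≤ ε ^ p * ∫ t in Set.Icc (0 : Fin d → ℝ) 1, |∏ i, t i| ^ p →
          C * (1 + τ) ^ d ≤ (n : ℝ) := by
  intro p hp
  obtain ⟨μ, m, hm, hmμ, H⟩ := Pool.Agent.H.MP_e46b3e_an.main hp
  have h1 : 0 < μ - m := by linarith
  refine ⟨1 / 4, by norm_num, m / (μ - m), by positivity, 1 / 16, by norm_num, fun D =>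
    ⟨D, le_rfl, fun ε h0 hε n x a _ hyp => ?_⟩⟩
  simp only [Pool.Agent.H.MP_e46b3e_an.ind_prod, Pool.Agent.H.MP_e46b3e_an.restrict_eq] at hyp
  have := H x a h0 hε hyp
  have e : 1 + m / (μ - m) = μ / (μ - m) := by field_simp; ring
  rw [e, div_pow, ← mul_div_assoc, div_le_iff₀ (pow_pos h1 _)]
  linarith

end Pool.Agent.S06493
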