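import Pool.Statements.S06498
import Pool.Agent.H.MP_e522c7_an.L

set_option autoImplicit false
open MeasureTheory
open Pool Pool.MP_e522c7_an

namespace Pool.Agent.S06498

theorem result :
    ¬ (∀ d : ℕ, 3 ≤ d →
    ∀ n0 : EuclideanSpace ℝ (Fin d) → ℝ,
      Continuous n0 → (∀ x, 0 ≤ n0 x) → (∃ C : ℝ, ∀ x, n0 x ≤ C) →
      Integrable n0 → Integrable (fun x => ‖x‖ ^ 2 * n0 x) →
      (∫ x, ∫ y, n0 x * n0 y / ‖x - y‖ ^ (d - 2)) >
        2 * (d : ℝ) * (∫ x, n0 x) *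
          ((d : ℝ) * (volume (Metric.ball (0 : EuclideanSpace ℝ (Fin d)) 1)).toReal) →
      ¬ ∃ n : ℝ → EuclideanSpace ℝ (Fin d) → ℝ,
          n 0 = n0 ∧
          ContinuousOn (fun p : ℝ × EuclideanSpace ℝ (Fin d) => n p.1 p.2)
            (Set.Ici (0 : ℝ) ×ˢ Set.univ) ∧
          ContDiffOn ℝ 2 (fun p : ℝ × EuclideanSpace ℝ (Fin d) => n p.1 p.2)
            (Set.Ioi (0 : ℝ) ×ˢ Set.univ) ∧
          (∀ t : ℝ, 0 ≤ t → Integrable (n t)) ∧
          (∀ T : ℝ, 0 < T → ∃ C : ℝ, ∀ t ∈ Set.Icc (0 : ℝ) T, ∀ x, |n t x| ≤ C) ∧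
          (∀ t : ℝ, 0 < t → ∀ x : EuclideanSpace ℝ (Fin d),
            deriv (fun s => n s x) t =
              (∑ i : Fin d, iteratedFDeriv ℝ 2 (n t) x
                  ![EuclideanSpace.single i (1 : ℝ), EuclideanSpace.single i (1 : ℝ)])
              - fderiv ℝ (n t) x
                  ((-(1 / ((d : ℝ) *
                      (volume (Metric.ball (0 : EuclideanSpace ℝ (Fin d)) 1)).toReal))) •
                    ∫ y, (n t y / ‖x - y‖ ^ d) • (x - y))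
              + n t x ^ 2)) := by
  intro H
  exact Pool.Agent.H.MP_e522c7_an.main (H 3 le_rfl)

end Pool.Agent.S06498
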