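import Pool.Statements.S06499
import Pool.Agent.H.MP_e53853_an.A

set_option autoImplicit false
open Pool Pool.MP_e53853_an

namespace Pool.Agent.S06499

theorem result :
    ∃ (D P : Set ℂ) (f : ℂ → ℂ),
      IsOpen D ∧ IsConnected D ∧
      P ⊆ D ∧ P.Nonempty ∧ Perfect P ∧ IsTotallyDisconnected P ∧
      ContinuousOn f D ∧
      DifferentiableOn ℂ f (D \ P) ∧
      (∀ p ∈ P, ¬ AnalyticAt ℂ f p) ∧
      IsTotallyDisconnected (f '' P) := by
  exact Pool.Agent.H.MP_e53853_an.main

end Pool.Agent.S06499
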