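import Pool.Statements.S06503
import Pool.Agent.Lib.helper8.Dist4

set_option autoImplicit false
open Pool Pool.MP_e59edf_an

namespace Pool.Agent.S06503

theorem result :
    ∃ (k : ℕ) (X : Set (ℕ → Fin k)), IsClosed X ∧
      (∀ x ∈ X, (fun n => x (n + 1)) ∈ X) ∧
      ∃ (S : Finset (Equiv.Perm X)) (g : Equiv.Perm X), g ∈ S ∧
        (∀ h ∈ S, Continuous (h : X → X) ∧
          ∀ x y : X, ((y : ℕ → Fin k) = fun n => (x : ℕ → Fin k) (n + 1)) →
            ((h y : X) : ℕ → Fin k) = fun n => ((h x : X) : ℕ → Fin k) (n + 1)) ∧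
        ¬ IsOfFinOrder g ∧
        ∀ ε : ℝ, 0 < ε → ∃ N : ℕ, ∀ n : ℕ, N ≤ n →
          ∃ l : List (Equiv.Perm X), (l.length : ℝ) ≤ ε * n ∧
            (∀ h ∈ l, h ∈ S ∨ h⁻¹ ∈ S) ∧ l.prod = g ^ n := by
  open Pool.Agent.Lib.helper8.Dist in
  classical
  obtain ⟨k, ⟨c⟩⟩ := core_fin
  let R : FG →* Equiv.Perm c.X :=
    { toFun := fun g =>
        { toFun := fun x => ⟨c.act g x.1, c.maps g _ x.2⟩
          invFun := fun x => ⟨c.act g⁻¹ x.1, c.maps _ _ x.2⟩
          left_inv := fun x => Subtype.ext (by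
            show c.act g⁻¹ (c.act g x.1) = x.1
            rw [← c.mul _ _ _ x.2, inv_mul_cancel, c.one _ x.2])
          right_inv := fun x => Subtype.ext (by
            show c.act g (c.act g⁻¹ x.1) = x.1
            rw [← c.mul _ _ _ x.2, mul_inv_cancel, c.one _ x.2]) }
      map_one' := Equiv.ext fun x => Subtype.ext (c.one _ x.2)
      map_mul' := fun g h => Equiv.ext fun x => Subtype.ext (c.mul g h _ x.2) }
  have hR : ∀ g (x : c.X), (R g x).1 = c.act g x.1 := fun _ _ => rfl
  have hopen : ∀ (m : ℕ) (x : ℕ → Fin k), {y | Ag m y x} ∈ nhds x := by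
    intro m x
    have : {y | Ag m y x} = Set.pi (Set.Iio m) fun i => {x i} := by
      ext y; simp [Ag]
    rw [this]
    exact set_pi_mem_nhds (Set.finite_Iio m) fun i _ => (isOpen_discrete _).mem_nhds rfl
  refine ⟨k, c.X, ?_, c.shift, Finset.univ.image fun s => R (FreeGroup.of s),
    R (FreeGroup.of 1), Finset.mem_image_of_mem _ (Finset.mem_univ _), ?_, ?_, ?_⟩
  · apply isClosed_of_closure_subset
    intro x hx
    apply c.closed
    intro m
    obtain ⟨y, h1, h2⟩ := mem_closure_iff_nhds.1 hx _ (hopen m x)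
    exact ⟨y, h2, h1⟩
  · intro h hh
    obtain ⟨s, -, rfl⟩ := Finset.mem_image.1 hh
    constructor
    · apply Continuous.subtype_mk
      refine continuous_pi fun i => continuous_iff_continuousAt.2 fun x => ?_
      obtain ⟨r, hr⟩ := c.loc (FreeGroup.of s)
      refine Filter.Tendsto.congr' ?_ tendsto_const_nhds
      filter_upwards [continuous_subtype_val.continuousAt (hopen (i + 1 + r) x.1)] with y hy
      exact (hr (i + 1) _ y.2 _ x.2 hy i (by omega)).symm
    · intro x y hxy
      rw [hR, hR, hxy]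
      exact c.comm _ _ x.2
  · rw [isOfFinOrder_iff_pow_eq_one]
    rintro ⟨p, hp, h⟩
    obtain ⟨x, hx, h1⟩ := c.inf p hp
    apply h1
    rw [← map_pow] at h
    rw [← hR _ ⟨x, hx⟩, h]
    rfl
  · intro ε hε
    obtain ⟨N, hN⟩ := c.dist ε hε
    refine ⟨N, fun n hn => ?_⟩
    obtain ⟨l, h1, h2⟩ := hN n hn
    refine ⟨l.map fun σ => R (FreeGroup.mk [σ]), by simpa using h1, ?_, ?_⟩
    · intro h hh
      obtain ⟨⟨s, _ | _⟩, -, rfl⟩ := List.mem_map.1 hh
      · right
        rw [← map_inv]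
        exact Finset.mem_image_of_mem _ (Finset.mem_univ s)
      · left
        exact Finset.mem_image_of_mem _ (Finset.mem_univ s)
    · have h3 : (l.map fun σ => R (FreeGroup.mk [σ])).prod = R (FreeGroup.mk l) := by
        clear h1 h2
        induction l with
        | nil => simp [← FreeGroup.one_eq_mk]
        | cons σ l ih => rw [List.map_cons, List.prod_cons, ih, ← map_mul]; rfl
      rw [h3, ← map_pow]
      exact Equiv.ext fun x => Subtype.ext (h2 _ x.2)

end Pool.Agent.S06503
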