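import Pool.Statements.S06510
import Pool.Agent.H.MP_e6ddea_an.B

set_option autoImplicit false
open Pool Pool.MP_e6ddea_an

namespace Pool.Agent.S06510

theorem result :
    ¬ (∀ (D : Set ℂ), IsOpen D → IsConnected D → ¬ SimplyConnectedSpace D →
    ∀ z₀ ∈ D, ∀ g : ℂ → ℝ,
      (InnerProductSpace.HarmonicOnNhd g (D \ {z₀}) ∧
        (∀ z ∈ D \ {z₀}, 0 < g z) ∧
        (∃ h : ℂ → ℝ, InnerProductSpace.HarmonicOnNhd h D ∧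
          ∀ z ∈ D \ {z₀}, h z = g z + Real.log ‖z - z₀‖) ∧
        (∀ u : ℂ → ℝ,
          (InnerProductSpace.HarmonicOnNhd u (D \ {z₀}) ∧
            (∀ z ∈ D \ {z₀}, 0 < u z) ∧
            (∃ h : ℂ → ℝ, InnerProductSpace.HarmonicOnNhd h D ∧
              ∀ z ∈ D \ {z₀}, h z = u z + Real.log ‖z - z₀‖)) →
          ∀ z ∈ D \ {z₀}, g z ≤ u z)) →
    ∀ K : ℂ → ℝ,
      (InnerProductSpace.HarmonicOnNhd K D ∧ (∀ z ∈ D, 0 < K z) ∧ K z₀ = 1 ∧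
        ∀ u : ℂ → ℝ, InnerProductSpace.HarmonicOnNhd u D →
          (∀ z ∈ D, 0 < u z ∧ u z ≤ K z) →
          ∃ c : ℝ, ∀ z ∈ D, u z = c * K z) →
    ∃ (m : ℝ) (γ : ℝ → ℂ),
      (∀ s : ℝ, m < s →
        γ s ∈ D ∧ γ s ≠ z₀ ∧ gradient g (γ s) ≠ 0 ∧ g (γ s) = s ∧
        HasDerivAt γ ((‖gradient g (γ s)‖ ^ 2)⁻¹ • gradient g (γ s)) s) ∧
      Filter.Tendsto γ Filter.atTop (nhds z₀) ∧
      (¬ ∃ (m' : ℝ) (γ' : ℝ → ℂ), m' < m ∧ (∀ s : ℝ, m < s → γ' s = γ s) ∧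
        ∀ s : ℝ, m' < s →
          γ' s ∈ D ∧ γ' s ≠ z₀ ∧ gradient g (γ' s) ≠ 0 ∧
          HasDerivAt γ' ((‖gradient g (γ' s)‖ ^ 2)⁻¹ • gradient g (γ' s)) s) ∧
      ∀ s : ℝ, m < s →
        ∀ u : ℂ → ℝ, InnerProductSpace.HarmonicOnNhd u D → (∀ z ∈ D, 0 < u z) →
          u z₀ ≤ 1 → u (γ s) ≤ K (γ s)) := by
  intro H
  open Pool.Agent.H.MP_e6ddea_an in
  obtain ⟨m, γ, h1, h2, -, h3⟩ := H D Do Dc Dn _ ID (G Complex.I)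
    ⟨fun z hz => by simpa using (Gh one_pos hz.1.1 (by simpa using hz.2)).1,
      fun z hz => by simpa using (Gh one_pos hz.1.1 (by simpa using hz.2)).2,
      ⟨fun z => Real.log ‖z + Complex.I‖, fun z hz => hlog (nI' hz.1), fun z _ => by simp [G]⟩,
      fun u ⟨_, u0, h, hh, e⟩ => Gmin u0 hh e⟩ Complex.im
    ⟨fun z _ => him z, fun z hz => hz.1, rfl, fun u hu h => ⟨_, Kmin hu h⟩⟩
  obtain ⟨s, hs, n⟩ := ((Filter.eventually_gt_atTop m).and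
    (h2.eventually (Metric.ball_mem_nhds _ (show (0 : ℝ) < 1 / 5 by norm_num)))).exists
  exact Pool.Agent.H.MP_e6ddea_an.notouch (h1 s hs).1 (h1 s hs).2.1 (mem_ball_iff_norm.1 n) (h3 s hs)

end Pool.Agent.S06510
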