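import Pool.Statements.S06537
-- import your own Pool.Agent.* helpers here
import Pool.Agent.H.MP_e968d9_an.C

set_option autoImplicit false
open Pool Pool.MP_e968d9_an

namespace Pool.Agent.S06537

theorem result :
    ∀ φ : ℂ → ℂ,
      DifferentiableOn ℂ φ {z : ℂ | 0 < z.re} →
      Set.MapsTo φ {z : ℂ | 0 < z.re} {z : ℂ | 0 < z.re} →
      (∃ C : NNReal, ∀ f : ℂ → ℂ, DifferentiableOn ℂ f {z : ℂ | 0 < z.re} →
        (⨆ (x : ℝ) (_ : 0 < x), ∫⁻ y : ℝ,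
            (‖f ((x : ℂ) + (y : ℂ) * Complex.I)‖₊ : ENNReal) ^ 2) < ⊤ →
        (⨆ (x : ℝ) (_ : 0 < x), ∫⁻ y : ℝ,
            (‖f (φ ((x : ℂ) + (y : ℂ) * Complex.I))‖₊ : ENNReal) ^ 2)
          ≤ (C : ENNReal) * ⨆ (x : ℝ) (_ : 0 < x), ∫⁻ y : ℝ,
            (‖f ((x : ℂ) + (y : ℂ) * Complex.I)‖₊ : ENNReal) ^ 2) →
      (∀ (n : ℕ) (c a : Fin n → ℂ), (∀ i, 0 < (a i).re) →
        (⨆ (x : ℝ) (_ : 0 < x), ∫⁻ y : ℝ,
            (‖∑ i, c i / (φ ((x : ℂ) + (y : ℂ) * Complex.I) + (starRingEnd ℂ) (a i))‖₊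
              : ENNReal) ^ 2)
          = ⨆ (x : ℝ) (_ : 0 < x), ∫⁻ y : ℝ,
            (‖∑ i, c i / ((x : ℂ) + (y : ℂ) * Complex.I + (starRingEnd ℂ) (φ (a i)))‖₊
              : ENNReal) ^ 2) →
      ∃ a b c d : ℂ, a * d - b * c ≠ 0 ∧
        ∀ z : ℂ, 0 < z.re → c * z + d ≠ 0 ∧ φ z = (a * z + b) / (c * z + d) := by
  intro φ hd hm _ H
  obtain ⟨a, b, ha, e⟩ := Pool.Agent.H.MP_e968d9_an.main hd (fun z hz => hm hz) (fun w v c e hw hv => by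
    have := H 2 ![c, e] ![w, v] (fun i => by fin_cases i <;> simpa)
    simp only [Fin.sum_univ_two, Matrix.cons_val_zero, Matrix.cons_val_one, div_eq_mul_inv] at this
    unfold Pool.Agent.H.MP_e968d9_an.N
    simp only [← Pool.Agent.H.MP_e968d9_an.nn_eq]
    exact this)
  exact ⟨a, b, 0, 1, by simpa using ha, fun z hz => ⟨by simp, by simpa using e z hz⟩⟩

end Pool.Agent.S06537
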