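import Pool.Statements.S06542
import Pool.Agent.H.MP_e9afb0.B

set_option autoImplicit false
open Pool Pool.MP_e9afb0_an

namespace Pool.Agent.S06542

/-- The negation of the preceding statement: For every real Banach space whose weak* dual unit ball embeds into [0,1]^Γ with the c₀ points dense (semi-Eberlein), the ball also embeds into [-1,1]^Γ' with the finitely supported points dense. -/
theorem result :
    ¬ (∀ (X : Type) [NormedAddCommGroup X] [NormedSpace ℝ X] [CompleteSpace X],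
      (∃ (Γ : Type) (h : {φ : WeakDual ℝ X // ∀ x : X, |φ x| ≤ ‖x‖} → (Γ → ℝ)),
          Topology.IsEmbedding h ∧
          (∀ k γ, h k γ ∈ Set.Icc (0 : ℝ) 1) ∧
          Dense {k | ∀ ε : ℝ, ε > 0 → {γ : Γ | ε ≤ |h k γ|}.Finite}) →
      ∃ (Γ : Type) (f : {φ : WeakDual ℝ X // ∀ x : X, |φ x| ≤ ‖x‖} → (Γ → ℝ)),
          Topology.IsEmbedding f ∧
          (∀ k γ, f k γ ∈ Set.Icc (-1 : ℝ) 1) ∧
          Dense {k | {γ : Γ | f k γ ≠ 0}.Finite}) := by
  intro h
  have hι : Cardinal.mk (Ordinal.omega 1 : Ordinal.{0}).ToType = Cardinal.aleph 1 := by simp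
  have hc : ∀ i : (Ordinal.omega 1 : Ordinal.{0}).ToType, (Set.Iic i).Countable := fun i => by
    rw [← Set.Iio_insert]
    refine Set.Countable.insert _ ?_
    rw [← Cardinal.le_aleph0_iff_set_countable, ← Cardinal.lt_aleph_one_iff]
    simpa using Cardinal.mk_Iio_lt i (by simp)
  have : Uncountable (Ordinal.omega 1 : Ordinal.{0}).ToType := by
    rw [← Cardinal.aleph0_lt_mk_iff, hι]
    exact Cardinal.aleph0_lt_aleph_one
  have : NoMaxOrder (Ordinal.omega 1 : Ordinal.{0}).ToType := ⟨fun a => by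
    obtain ⟨b, hb⟩ := Pool.Agent.H.Brk.bd hc (Set.countable_singleton a)
    exact ⟨b, hb a rfl⟩⟩
  obtain ⟨X, _, _, _, e, P, h1, h2, h3, h4, h5⟩ := Pool.Agent.H.MP_e9afb0.con hc
  obtain ⟨Γ, f, g1, -, g2⟩ := h X (Pool.Agent.H.MP_e9afb0.se h1 h2)
  exact Pool.Agent.H.MP_e9afb0.nf hc h1 h2 P h3 h4 h5 f g1 g2

end Pool.Agent.S06542
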