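import Pool.Statements.S06546
-- import your own Pool.Agent.* helpers here

set_option autoImplicit false
open Pool Pool.MP_e9d911_an

namespace Pool.Agent.S06546

noncomputable def a : ℕ → ℂ
  | 0 => 3
  | 1 => 8
  | 2 => 6
  | 3 => 0
  | 4 => -1
  | _ + 5 => 0

lemma a_zero (j : ℕ) (hj : j ∉ Finset.range 5) : a j = 0 := by
  obtain ⟨m, rfl⟩ : ∃ m, j = m + 5 := ⟨j - 5, by simp at hj; omega⟩
  rfl

lemma hs : HasSum (fun j => ‖a j‖) 18 := by
  have := hasSum_sum_of_ne_finset_zero (f := fun j => ‖a j‖) (s := Finset.range 5)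
    (L := SummationFilter.unconditional ℕ) (fun j hj => by rw [a_zero j hj, norm_zero])
  simp only [Finset.sum_range_succ, a] at this
  norm_num at this
  exact this

open Polynomial in
noncomputable def P : Polynomial ℂ := (X + C 1) * (X + C 1) * (X + C 1) * (X - C 3)

lemma hP : P.logMahlerMeasure = Real.log 3 := by
  rw [Polynomial.logMahlerMeasure_eq_log_MahlerMeasure, P]
  simp only [Polynomial.mahlerMeasure_mul, Polynomial.mahlerMeasure_X_add_C,
    Polynomial.mahlerMeasure_X_sub_C]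
  norm_num

lemma hev (z : ℂ) : ‖∑' j, a j * z ^ j‖ = ‖P.eval z‖ := by
  rw [tsum_eq_sum (s := Finset.range 5) (fun j hj => by rw [a_zero j hj, zero_mul]), ← norm_neg]
  congr 1
  simp [Finset.sum_range_succ, a, P]
  ring

theorem result :
    ¬ (∀ (d : ℝ) (k n : ℕ), 0 < d → d < 1 → 0 < n →
    (∑ j ∈ Finset.range (k+1), (n.choose j : ℝ)) / 2 ^ n ≤ d →
    d < (∑ j ∈ Finset.range (k+1), ((n-1).choose j : ℝ)) / 2 ^ (n-1) →
    IsGLB {x : ℝ | ∃ a : ℕ → ℂ, Summable (fun j => ‖a j‖) ∧ a ≠ 0 ∧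
        d * (∑' j, ‖a j‖) ≤ ∑ j ∈ Finset.range (k+1), ‖a j‖ ∧
        x = (1 / (2 * Real.pi)) *
              (∫ θ in (0:ℝ)..(2 * Real.pi),
                Real.log ‖∑' j, a j * Complex.exp ((θ : ℂ) * Complex.I) ^ j‖)
            - Real.log (∑' j, ‖a j‖)}
      (Real.log
        ((((n-1).choose k : ℝ) /
            ((∑ j ∈ Finset.range (k+1), ((n-1).choose j : ℝ)) - d * 2 ^ (n-1)) - 1) /
          (((((n-1).choose k : ℝ) /
            ((∑ j ∈ Finset.range (k+1), ((n-1).choose j : ℝ)) - d * 2 ^ (n-1)) - 1) + 1)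
            * 2 ^ (n-1))))) := by
  intro H
  have h := H (11 / 18) 1 3 (by norm_num) (by norm_num) (by norm_num)
    (by simp [Finset.sum_range_succ]; norm_num) (by simp [Finset.sum_range_succ]; norm_num)
  have h2 := @And.left _ _ h (Real.log 3 - Real.log 18) ⟨a, hs.summable, ?_, ?_, ?_⟩
  · rw [← Real.log_div (by norm_num) (by norm_num), Real.log_le_log_iff] at h2
    · simp [Finset.sum_range_succ] at h2
      norm_num at h2
    · simp [Finset.sum_range_succ]; norm_num
    · norm_num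
  · intro h0
    have := congrFun h0 0
    simp [a] at this
  · rw [hs.tsum_eq]
    simp [Finset.sum_range_succ, a]; norm_num
  · rw [hs.tsum_eq, ← hP, Polynomial.logMahlerMeasure_def, Real.circleAverage_def]
    simp only [hev, circleMap, one_div, smul_eq_mul]
    simp

end Pool.Agent.S06546
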