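import Pool.Statements.S06568
import Pool.Agent.H.MP_7b2682_an.C

set_option autoImplicit false
open Pool Pool.MP_eb85b6_an

namespace Pool.Agent.S06568

theorem result :
    ¬ (∀ (𝕂 : Type) [RCLike 𝕂] (X : Type) [NormedAddCommGroup X] [NormedSpace 𝕂 X]
      [CompleteSpace X] (T : X →L[𝕂] X),
      Dense {x : X | ∀ U ∈ nhds x, ∃ ε : ℝ, 0 < ε ∧ ∀ N₀ : ℕ, ∃ N : ℕ, N₀ < N ∧
          ε * (N : ℝ) ≤ (({n : ℕ | 1 ≤ n ∧ n ≤ N ∧ (⇑T)^[n] x ∈ U}.ncard : ℕ) : ℝ)} →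
      ∃ M : Submodule 𝕂 X, Dense (M : Set X) ∧
        ∀ x ∈ M, ∀ U ∈ nhds x, ∃ ε : ℝ, 0 < ε ∧ ∀ N₀ : ℕ, ∃ N : ℕ, N₀ < N ∧
          ε * (N : ℝ) ≤ (({n : ℕ | 1 ≤ n ∧ n ≤ N ∧ (⇑T)^[n] x ∈ U}.ncard : ℕ) : ℝ)) := by
  intro h
  obtain ⟨M, h1, h2⟩ := h ℂ _ (H.MP_7b2682_an.T ℂ) (H.MP_7b2682_an.fr_dense.mono fun v hv U hU => by
    obtain ⟨δ, hδ, N₀, hN⟩ := hv U hU
    exact ⟨δ, hδ, fun N => ⟨N + N₀ + 1, by omega, by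
      simpa only [FunLike.coe_pow_eq_iterate] using hN (N + N₀ + 1) (by omega)⟩⟩)
  obtain ⟨v, hv, e⟩ := H.MP_7b2682_an.sub_hit M h1
  obtain ⟨δ, hδ, hN⟩ := h2 v hv _ (Metric.ball_mem_nhds v (show (0 : ℝ) < 1 / 4 by norm_num))
  obtain ⟨M₀, hM⟩ := H.MP_7b2682_an.block e hδ
  obtain ⟨N, h3, h4⟩ := hN M₀
  exact (hM N h3).not_ge (by simpa only [FunLike.coe_pow_eq_iterate] using h4)

end Pool.Agent.S06568
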