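import Pool.Statements.S06578

set_option autoImplicit false
open Pool Pool.MP_ec292c_an

namespace Pool.Agent.S06578

open scoped ZeroAtInfty InnerProductSpace
open Filter Topology

/-- Type synonym used for a renorming. -/
def Syn (Y : Type) : Type := Y

instance (Y : Type) [AddCommGroup Y] : AddCommGroup (Syn Y) := inferInstanceAs (AddCommGroup Y)
instance (Y : Type) [AddCommGroup Y] [Module ℝ Y] : Module ℝ (Syn Y) :=
  inferInstanceAs (Module ℝ Y)

def toSyn (Y : Type) [AddCommGroup Y] [Module ℝ Y] : Y ≃ₗ[ℝ] Syn Y := LinearEquiv.refl ℝ Y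

theorem renorm (Y : Type) [NormedAddCommGroup Y] [NormedSpace ℝ Y] [CompleteSpace Y]
    (N : Y → ℝ) (hs : ∀ (c : ℝ) y, N (c • y) = |c| * N y) (ht : ∀ x y, N (x + y) ≤ N x + N y)
    (h1 : ∀ y, ‖y‖ ≤ 2 * N y) (h2 : ∀ y, N y ≤ ‖y‖) (P : Prop)
    (H : ∀ (Z : Type) [NormedAddCommGroup Z] [NormedSpace ℝ Z] [CompleteSpace Z]
      (e : Y ≃ₗ[ℝ] Z), (∀ y, ‖e y‖ = N y) → P) : P := by
  letI : Norm (Syn Y) := ⟨fun z => N ((toSyn Y).symm z)⟩
  have hn : ∀ z : Syn Y, ‖z‖ = N ((toSyn Y).symm z) := fun _ => rfl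
  have core : NormedSpace.Core ℝ (Syn Y) :=
    { norm_nonneg := fun z => by
        rw [hn]
        have := h1 ((toSyn Y).symm z)
        have := norm_nonneg ((toSyn Y).symm z)
        linarith
      norm_smul := fun c z => by
        rw [hn, hn, map_smul, hs, Real.norm_eq_abs]
      norm_triangle := fun x y => by
        rw [hn, hn, hn, map_add]
        exact ht _ _
      norm_eq_zero_iff := fun z => by
        rw [hn]
        constructor
        · intro h
          have := h1 ((toSyn Y).symm z)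
          rw [h, mul_zero, norm_le_zero_iff] at this
          simpa using this
        · intro h
          rw [h, map_zero]
          have a := h2 0
          have b := h1 0
          rw [norm_zero] at a b
          linarith }
  letI : NormedAddCommGroup (Syn Y) := NormedAddCommGroup.ofCore core
  letI : NormedSpace ℝ (Syn Y) := NormedSpace.ofCore core
  have he : ∀ y, ‖toSyn Y y‖ = N y := fun y => rfl
  let E : Y ≃L[ℝ] Syn Y := (toSyn Y).toContinuousLinearEquivOfBounds 1 2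
    (fun y => by rw [he, one_mul]; exact h2 y) (fun z => h1 _)
  haveI : CompleteSpace (Syn Y) := (completeSpace_congr (e := E.toLinearEquiv.toEquiv) E.isUniformEmbedding).1 inferInstance
  exact H (Syn Y) (toSyn Y) he

abbrev V : Type := lp (fun _ : ℕ => ℝ) 2

noncomputable def ee (i : ℕ) : V := lp.single 2 i (1 : ℝ)

lemma ee_norm (i : ℕ) : ‖ee i‖ = 1 := by
  simp [ee, lp.norm_single]

lemma ee_inner (i : ℕ) (v : V) : ⟪ee i, v⟫_ℝ = v i := by
  simp [ee, lp.inner_single_left]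

lemma ee_apply (i j : ℕ) : ee i j = if j = i then 1 else 0 := by
  by_cases h : j = i
  · subst h; simp [ee]
  · simp [ee, h, lp.single_apply]

lemma not_fd : ¬ FiniteDimensional ℝ V := by
  intro h
  have ho : Orthonormal ℝ ee := by
    refine ⟨ee_norm, fun i j hij => ?_⟩
    change ⟪ee i, ee j⟫_ℝ = 0
    rw [ee_inner, ee_apply, if_neg hij]
  have := ho.linearIndependent.finite
  exact not_finite ℕ

lemma compact_interior {D : Set V} (hD : IsCompact D) : Dense Dᶜ := by
  rw [← interior_eq_empty_iff_dense_compl, Set.eq_empty_iff_forall_notMem]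
  intro x hx
  haveI : LocallyCompactSpace V :=
    hD.locallyCompactSpace_of_mem_nhds_of_addGroup (mem_interior_iff_mem_nhds.1 hx)
  exact not_fd (FiniteDimensional.of_locallyCompactSpace ℝ)

section Main
variable {ι : Type} [TopologicalSpace ι] [DiscreteTopology ι] [Encodable ι]

lemma apply_le (w : C₀(ι, V)) (k : ι) : ‖w k‖ ≤ ‖w‖ := by
  rw [← ZeroAtInftyContinuousMap.norm_toBCF_eq_norm]
  exact w.toBCF.norm_coe_le_norm k

lemma norm_le (w : C₀(ι, V)) (C : ℝ) (hC : 0 ≤ C) (h : ∀ k, ‖w k‖ ≤ C) : ‖w‖ ≤ C := by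
  rw [← ZeroAtInftyContinuousMap.norm_toBCF_eq_norm]
  exact (BoundedContinuousFunction.norm_le hC).2 h

noncomputable def wt (j : ι × ℕ) : ℝ := (1 / 2 : ℝ) ^ Encodable.encode j

lemma wt_pos (j : ι × ℕ) : 0 < wt j := by unfold wt; positivity

lemma wt_sum : Summable (wt : ι × ℕ → ℝ) := summable_geometric_two_encode

lemma wt_le : ∑' j : ι × ℕ, wt j ≤ 2 := by
  rw [← tsum_geometric_two]
  exact Summable.tsum_le_tsum_of_inj Encodable.encode Encodable.encode_injective
    (fun _ _ => by positivity) (fun _ => le_rfl) wt_sum summable_geometric_two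

noncomputable def lam (j : ι × ℕ) (w : C₀(ι, V)) : ℝ := w j.1 j.2

lemma lam_le (j : ι × ℕ) (w : C₀(ι, V)) : |lam j w| ≤ ‖w‖ := by
  refine le_trans ?_ (apply_le w j.1)
  have := lp.norm_apply_le_norm (by norm_num : (2 : ENNReal) ≠ 0) (w j.1) j.2
  simpa [lam] using this

lemma lam_add (j : ι × ℕ) (x y : C₀(ι, V)) : lam j (x + y) = lam j x + lam j y := by
  simp [lam]

lemma lam_smul (j : ι × ℕ) (c : ℝ) (x : C₀(ι, V)) : lam j (c • x) = c * lam j x := by
  simp [lam]

lemma lam_sum (w : C₀(ι, V)) : Summable fun j : ι × ℕ => wt j * |lam j w| :=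
  Summable.of_nonneg_of_le (fun j => mul_nonneg (wt_pos j).le (abs_nonneg _))
    (fun j => mul_le_mul_of_nonneg_left (lam_le j w) (wt_pos j).le) (wt_sum.mul_right ‖w‖)

noncomputable def LL (w : C₀(ι, V)) : ℝ := ∑' j : ι × ℕ, wt j * |lam j w|

lemma LL_nonneg (w : C₀(ι, V)) : 0 ≤ LL w :=
  tsum_nonneg fun j => mul_nonneg (wt_pos j).le (abs_nonneg _)

lemma LL_le (w : C₀(ι, V)) : LL w ≤ 2 * ‖w‖ := by
  have h1 : LL w ≤ ∑' j : ι × ℕ, wt j * ‖w‖ :=
    Summable.tsum_le_tsum (fun j => mul_le_mul_of_nonneg_left (lam_le j w) (wt_pos j).le)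
      (lam_sum w) (wt_sum.mul_right ‖w‖)
  rw [tsum_mul_right] at h1
  exact h1.trans (mul_le_mul_of_nonneg_right wt_le (norm_nonneg _))

lemma LL_smul (c : ℝ) (w : C₀(ι, V)) : LL (c • w) = |c| * LL w := by
  unfold LL
  rw [← tsum_mul_left]
  congr 1
  funext j
  rw [lam_smul, abs_mul]
  ring

lemma LL_add (x y : C₀(ι, V)) : LL (x + y) ≤ LL x + LL y := by
  unfold LL
  rw [← (lam_sum x).tsum_add (lam_sum y)]
  refine Summable.tsum_le_tsum (fun j => ?_) (lam_sum _) ((lam_sum x).add (lam_sum y))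
  rw [lam_add, ← mul_add]
  exact mul_le_mul_of_nonneg_left (abs_add_le _ _) (wt_pos j).le

lemma LL_kink (x y : C₀(ι, V)) (j : ι × ℕ) (hj : lam j x = 0) :
    2 * LL x + 2 * (wt j * |lam j y|) ≤ LL (x + y) + LL (x + (-1 : ℝ) • y) := by
  have s1 := lam_sum (x + y)
  have s2 := lam_sum (x + (-1 : ℝ) • y)
  have s3 := (lam_sum x).mul_left 2
  have hs := (s1.add s2).sub s3
  have hpos : ∀ i : ι × ℕ, 0 ≤ wt i * |lam i (x + y)| + wt i * |lam i (x + (-1 : ℝ) • y)|
      - 2 * (wt i * |lam i x|) := by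
    intro i
    rw [lam_add, lam_add, lam_smul]
    have h := abs_add_le (lam i x + lam i y) (lam i x + -1 * lam i y)
    rw [show lam i x + lam i y + (lam i x + -1 * lam i y) = 2 * lam i x by ring, abs_mul,
      abs_two] at h
    have := wt_pos i
    nlinarith
  have h := hs.le_tsum j (fun i _ => hpos i)
  rw [(s1.add s2).tsum_sub s3, s1.tsum_add s2, tsum_mul_left, lam_add, lam_add, lam_smul, hj] at h
  simp only [zero_add, neg_mul, one_mul, abs_neg, abs_zero, mul_zero] at h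
  unfold LL
  linarith

noncomputable def MM (w : C₀(ι, V)) : ℝ := ‖w‖ / 2 + LL w / 4

lemma MM_le (w : C₀(ι, V)) : MM w ≤ ‖w‖ := by
  have := LL_le w
  unfold MM
  linarith

lemma le_MM (w : C₀(ι, V)) : ‖w‖ ≤ 2 * MM w := by
  have := LL_nonneg w
  unfold MM
  linarith

lemma MM_smul (c : ℝ) (w : C₀(ι, V)) : MM (c • w) = |c| * MM w := by
  unfold MM
  rw [LL_smul, norm_smul, Real.norm_eq_abs]
  ring

lemma MM_add (x y : C₀(ι, V)) : MM (x + y) ≤ MM x + MM y := by
  have := LL_add x y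
  have := norm_add_le x y
  unfold MM
  linarith

lemma MM_cont : Continuous (MM : C₀(ι, V) → ℝ) := by
  have : LipschitzWith 1 (MM : C₀(ι, V) → ℝ) := by
    refine LipschitzWith.of_le_add fun x y => ?_
    have h := MM_add y (x - y)
    have h2 := MM_le (x - y)
    rw [add_sub_cancel] at h
    rw [dist_eq_norm]
    linarith
  exact this.continuous

lemma no_MM (T : V →ₗ[ℝ] C₀(ι, V)) (hT : ∀ v, MM (T v) = ‖v‖) : False := by
  have h0 : T (ee 0) ≠ 0 := by
    intro h
    have := hT (ee 0)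
    rw [h, ee_norm] at this
    have h2 := MM_le (0 : C₀(ι, V))
    rw [norm_zero] at h2
    linarith
  obtain ⟨j, hj⟩ : ∃ j : ι × ℕ, lam j (T (ee 0)) ≠ 0 := by
    by_contra hh
    push Not at hh
    apply h0
    ext k i
    exact hh (k, i)
  set a := lam j (T (ee 0)) with ha
  set b := lam j (T (ee 1)) with hb
  set v : V := b • ee 0 + (-a) • ee 1 with hv
  have hv0 : lam j (T v) = 0 := by
    rw [hv, map_add, map_smul, map_smul, lam_add, lam_smul, lam_smul]
    ring
  have hvn : 0 < ‖v‖ := by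
    rw [norm_pos_iff]
    intro h
    have := congrArg (fun z : V => z 1) h
    simp [hv, ee_apply] at this
    exact hj this
  have hc : 0 < wt j * |a| := mul_pos (wt_pos j) (abs_pos.2 hj)
  set c := wt j * |a| with hcdef
  set t := c * ‖v‖ / 4 with ht
  have htp : 0 < t := by positivity
  have k1 := LL_kink (T v) (T (t • ee 0)) j hv0
  have e1 : lam j (T (t • ee 0)) = t * a := by rw [map_smul, lam_smul]
  rw [e1, abs_mul, abs_of_pos htp] at k1
  have k2 : 2 * ‖T v‖ ≤ ‖T v + T (t • ee 0)‖ + ‖T v + (-1 : ℝ) • T (t • ee 0)‖ := by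
    have := norm_add_le (T v + T (t • ee 0)) (T v + (-1 : ℝ) • T (t • ee 0))
    rw [show T v + T (t • ee 0) + (T v + (-1 : ℝ) • T (t • ee 0)) = (2 : ℝ) • T v by module,
      norm_smul] at this
    simpa using this
  have m0 := hT v
  have m1 := hT (v + t • ee 0)
  have m2 := hT (v + (-1 : ℝ) • (t • ee 0))
  rw [map_add] at m1
  rw [map_add, map_smul] at m2
  unfold MM at m0 m1 m2
  have par := parallelogram_law_with_norm ℝ v (t • ee 0)
  rw [norm_smul, ee_norm, Real.norm_eq_abs, abs_of_pos htp, mul_one] at par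
  rw [show v + (-1 : ℝ) • (t • ee 0) = v - t • ee 0 by module] at m2
  set p := ‖v + t • ee 0‖
  set q := ‖v - t • ee 0‖
  have key : 2 * ‖v‖ + t * c / 2 ≤ p + q := by
    have : wt j * (t * |a|) = t * c := by rw [hcdef]; ring
    rw [this] at k1
    linarith
  have hsq : (p + q) ^ 2 ≤ 4 * (‖v‖ ^ 2 + t ^ 2) := by nlinarith [sq_nonneg (p - q)]
  have h3 : (2 * ‖v‖ + t * c / 2) ^ 2 ≤ (p + q) ^ 2 :=
    pow_le_pow_left₀ (by positivity) key 2
  have h4 : 2 * ‖v‖ * t * c ≤ 4 * t ^ 2 := by nlinarith [sq_nonneg (t * c)]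
  have h5 : 4 * t = c * ‖v‖ := by rw [ht]; ring
  have h6 : 0 < t * (c * ‖v‖) := by positivity
  nlinarith

noncomputable def AA (U : ι → Set V) (w : C₀(ι, V)) : ℝ :=
  ⨆ q : (Σ k : ι, U k), |⟪(q.2 : V), w q.1⟫_ℝ|

variable (U : ι → Set V) (hU : ∀ k, ∀ u ∈ U k, ‖u‖ ≤ 1)
include hU

lemma term_le (w : C₀(ι, V)) (k : ι) (u : V) (hu : u ∈ U k) : |⟪u, w k⟫_ℝ| ≤ ‖w k‖ := by
  have h1 := abs_real_inner_le_norm u (w k)
  have h2 := hU k u hu
  have := norm_nonneg (w k)
  nlinarith

lemma AA_bdd (w : C₀(ι, V)) :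
    BddAbove (Set.range fun q : (Σ k : ι, U k) => |⟪(q.2 : V), w q.1⟫_ℝ|) := by
  refine ⟨‖w‖, ?_⟩
  rintro _ ⟨q, rfl⟩
  exact (term_le U hU w q.1 q.2 q.2.2).trans (apply_le w q.1)

lemma le_AA (w : C₀(ι, V)) (k : ι) (u : V) (hu : u ∈ U k) : |⟪u, w k⟫_ℝ| ≤ AA U w :=
  le_ciSup (AA_bdd U hU w) ⟨k, ⟨u, hu⟩⟩

omit hU in
lemma AA_nonneg (w : C₀(ι, V)) : 0 ≤ AA U w := Real.iSup_nonneg fun _ => abs_nonneg _

lemma AA_le (w : C₀(ι, V)) : AA U w ≤ ‖w‖ :=
  Real.iSup_le (fun q => (term_le U hU w q.1 q.2 q.2.2).trans (apply_le w q.1)) (norm_nonneg _)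

omit hU in
lemma AA_smul (c : ℝ) (w : C₀(ι, V)) : AA U (c • w) = |c| * AA U w := by
  unfold AA
  rw [Real.mul_iSup_of_nonneg (abs_nonneg c)]
  congr 1
  funext q
  rw [ZeroAtInftyContinuousMap.smul_apply, real_inner_smul_right, abs_mul]

lemma AA_add (x y : C₀(ι, V)) : AA U (x + y) ≤ AA U x + AA U y := by
  refine Real.iSup_le (fun q => ?_) (add_nonneg (AA_nonneg U x) (AA_nonneg U y))
  rw [ZeroAtInftyContinuousMap.add_apply, inner_add_right]
  exact (abs_add_le _ _).trans (add_le_add (le_AA U hU x _ _ q.2.2) (le_AA U hU y _ _ q.2.2))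

lemma AA_attain (hK : ∀ k, IsCompact (U k)) (w : C₀(ι, V)) (hw : 0 < AA U w) :
    ∃ k, ∃ u ∈ U k, AA U w ≤ |⟪u, w k⟫_ℝ| := by
  by_contra hh
  push Not at hh
  have hf : {k | AA U w / 2 ≤ ‖w k‖}.Finite := by
    have h1 := w.zero_at_infty'
    rw [cocompact_eq_cofinite] at h1
    have h2 := (Metric.tendsto_nhds.1 h1) (AA U w / 2) (by linarith)
    rw [eventually_cofinite] at h2
    refine h2.subset fun k hk => ?_
    simpa using hk
  have hb : ∀ k, ∃ b < AA U w, ∀ u ∈ U k, |⟪u, w k⟫_ℝ| ≤ b := by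
    intro k
    rcases (U k).eq_empty_or_nonempty with h | h
    · exact ⟨0, hw, by simp [h]⟩
    · have hc : Continuous fun u : V => |⟪u, w k⟫_ℝ| := by fun_prop
      obtain ⟨u, hu, hm⟩ := (hK k).exists_isMaxOn h hc.continuousOn
      exact ⟨_, hh k u hu, fun u' hu' => hm hu'⟩
  choose b hb1 hb2 using hb
  obtain ⟨B, hB1, hB2⟩ : ∃ B < AA U w, ∀ k ∈ {k | AA U w / 2 ≤ ‖w k‖}, b k ≤ B := by
    rcases {k | AA U w / 2 ≤ ‖w k‖}.eq_empty_or_nonempty with h | h
    · exact ⟨0, hw, by simp [h]⟩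
    · obtain ⟨k, _, hk⟩ := Set.exists_max_image _ b hf h
      exact ⟨b k, hb1 k, hk⟩
  have : AA U w ≤ max B (AA U w / 2) := by
    refine Real.iSup_le (fun q => ?_) (le_max_of_le_right (by linarith))
    by_cases hq : AA U w / 2 ≤ ‖w q.1‖
    · exact le_max_of_le_left ((hb2 q.1 q.2 q.2.2).trans (hB2 q.1 hq))
    · exact le_max_of_le_right ((term_le U hU w q.1 q.2 q.2.2).trans (not_le.1 hq).le)
  rcases le_max_iff.1 this with h | h <;> linarith

lemma no_copy (hK : ∀ k, IsCompact (U k)) (T : V →ₗ[ℝ] C₀(ι, V))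
    (hT : ∀ v, max (AA U (T v)) (MM (T v)) = ‖v‖) : False := by
  have hb : ∀ v, ‖T v‖ ≤ 2 * ‖v‖ := fun v => by
    have h1 := le_MM (T v)
    have h2 := le_max_right (AA U (T v)) (MM (T v))
    rw [hT] at h2
    linarith
  let T' : V →L[ℝ] C₀(ι, V) := T.mkContinuous 2 hb
  let S : ι → V →L[ℝ] V := fun k =>
    LinearMap.mkContinuous
      { toFun := fun v => T v k
        map_add' := fun x y => by simp
        map_smul' := fun c x => by simp } 2 (fun v => (apply_le _ k).trans (hb v))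
  have hS : ∀ k v, S k v = T v k := fun _ _ => rfl
  let D : ι × ℕ → Set V := fun j =>
    (fun p : ℝ × V => p.1 • (ContinuousLinearMap.adjoint (S j.1)) p.2) ''
      (Set.Icc (-(j.2 : ℝ)) j.2 ×ˢ U j.1)
  have hD : ∀ j, IsCompact (D j) := fun j =>
    (isCompact_Icc.prod (hK j.1)).image (by fun_prop)
  have hdense : Dense (⋂ j, (D j)ᶜ) :=
    dense_iInter_of_isOpen (fun j => (hD j).isClosed.isOpen_compl) fun j => compact_interior (hD j)
  have hsub : (⋂ j, (D j)ᶜ) ⊆ {v | MM (T' v) = ‖v‖} := by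
    intro v hv
    change MM (T v) = ‖v‖
    by_contra hne
    have hA : AA U (T v) = ‖v‖ := by
      rcases max_cases (AA U (T v)) (MM (T v)) with h | h
      · rw [← h.1, hT]
      · exact absurd (by rw [← h.1, hT]) hne
    have hv0 : 0 < ‖v‖ := by
      rcases (norm_nonneg v).eq_or_lt with h | h
      · exfalso
        apply hne
        have h1 := le_MM (T v)
        have h2 := le_max_right (AA U (T v)) (MM (T v))
        have h3 := norm_nonneg (T v)
        rw [hT] at h2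
        linarith
      · exact h
    obtain ⟨k, u, hu, hle⟩ := AA_attain U hU hK (T v) (by rw [hA]; exact hv0)
    set a := (ContinuousLinearMap.adjoint (S k)) u with ha
    have hin : ∀ x, ⟪a, x⟫_ℝ = ⟪u, T x k⟫_ℝ := fun x => by
      rw [ha, ContinuousLinearMap.adjoint_inner_left, hS]
    have ha1 : ‖a‖ ^ 2 ≤ ‖a‖ := by
      rw [← real_inner_self_eq_norm_sq, hin]
      refine (le_abs_self _).trans ((le_AA U hU _ k u hu).trans ?_)
      rw [← hT a]
      exact le_max_left _ _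
    have ha2 : ‖a‖ ≤ 1 := by nlinarith [norm_nonneg a]
    rw [hA, ← hin] at hle
    set s := ⟪a, v⟫_ℝ with hs
    have hs2 : |s| ≤ ‖v‖ := by
      have := abs_real_inner_le_norm a v
      nlinarith
    have hs3 : s ^ 2 = ‖v‖ ^ 2 := by rw [← sq_abs, le_antisymm hs2 hle]
    have hz : ‖v - s • a‖ ^ 2 ≤ 0 := by
      rw [norm_sub_sq_real, real_inner_smul_right, real_inner_comm, ← hs, norm_smul,
        Real.norm_eq_abs, mul_pow, sq_abs]
      have : ‖a‖ ^ 2 ≤ 1 := by linarith
      nlinarith [sq_nonneg s]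
    have hz2 : v = s • a := by
      rw [← sub_eq_zero, ← norm_eq_zero]
      exact pow_eq_zero_iff (two_ne_zero) |>.1 (le_antisymm hz (sq_nonneg _))
    obtain ⟨n, hn⟩ := exists_nat_ge |s|
    refine Set.mem_iInter.1 hv (k, n) ⟨(s, u), ⟨abs_le.1 hn, hu⟩, hz2.symm⟩
  have hcl : IsClosed {v | MM (T' v) = ‖v‖} :=
    isClosed_eq (MM_cont.comp T'.continuous) continuous_norm
  have hall : ∀ v, MM (T v) = ‖v‖ := fun v =>
    hcl.closure_subset_iff.2 hsub (hdense v)
  exact no_MM T hall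

end Main

lemma proj (m : V) (r : ℝ) (hr : 0 ≤ r) : ∃ c : V → V, (∀ z, c z ∈ Metric.closedBall m r) ∧
    (∀ z ∈ Metric.closedBall m r, c z = z) ∧ ∀ z w, ‖c z - c w‖ ≤ ‖z - w‖ := by
  have hc := convex_closedBall m r
  choose c hc1 hc2 using exists_norm_eq_iInf_of_complete_convex
    (Metric.nonempty_closedBall.2 hr) Metric.isClosed_closedBall.isComplete hc
  have h3 : ∀ z, ∀ w ∈ Metric.closedBall m r, ⟪z - c z, w - c z⟫_ℝ ≤ 0 := fun z =>
    (norm_eq_iInf_iff_real_inner_le_zero hc (hc1 z)).1 (hc2 z)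
  refine ⟨c, hc1, fun z hz => ?_, fun z w => ?_⟩
  · have := h3 z z hz
    rw [real_inner_self_eq_norm_sq] at this
    have h4 : ‖z - c z‖ = 0 := pow_eq_zero_iff (two_ne_zero) |>.1 (le_antisymm this (sq_nonneg _))
    exact (sub_eq_zero.1 (norm_eq_zero.1 h4)).symm
  · have a := h3 z (c w) (hc1 w)
    have b := h3 w (c z) (hc1 z)
    have e : ‖c z - c w‖ ^ 2 = ⟪z - w, c z - c w⟫_ℝ + ⟪z - c z, c w - c z⟫_ℝ
        + ⟪w - c w, c z - c w⟫_ℝ := by
      rw [← real_inner_self_eq_norm_sq, ← neg_sub (c z) (c w), inner_neg_right, ← inner_neg_left,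
        ← inner_add_left, ← inner_add_left]
      congr 1
      abel
    have f := real_inner_le_norm (z - w) (c z - c w)
    have g := norm_nonneg (c z - c w)
    have g2 := norm_nonneg (z - w)
    nlinarith

lemma sep : TopologicalSpace.SeparableSpace V := by
  rw [← TopologicalSpace.isSeparable_univ_iff]
  have h1 : TopologicalSpace.IsSeparable (Set.range ee) := (Set.countable_range ee).isSeparable
  refine (h1.span (R := ℝ)).closure.mono fun f _ => ?_
  have h2 := lp.hasSum_single (p := 2) (by norm_num) f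
  refine mem_closure_of_tendsto h2 (Eventually.of_forall fun s => ?_)
  refine Submodule.sum_mem _ fun i _ => ?_
  have : lp.single 2 i (f i) = f i • ee i := by
    rw [ee, ← lp.single_smul, smul_eq_mul, mul_one]
  rw [this]
  exact Submodule.smul_mem _ _ (Submodule.subset_span ⟨i, rfl⟩)

lemma scale {D d : ℝ} (hd : 0 < d) (hD : d ≤ D) :
    ∃ n : ℕ, D / (n + 2) ≤ d ∧ d ≤ D / (n + 1) := by
  have h1 : 1 ≤ ⌊D / d⌋₊ := Nat.le_floor (by rw [Nat.cast_one, le_div_iff₀ hd]; linarith)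
  obtain ⟨n, hn⟩ : ∃ n, ⌊D / d⌋₊ = n + 1 := ⟨⌊D / d⌋₊ - 1, by omega⟩
  have a := Nat.floor_le (a := D / d) (div_nonneg (by linarith) hd.le)
  have b := Nat.lt_floor_add_one (D / d)
  rw [hn] at a b
  push_cast at a b
  rw [le_div_iff₀ hd] at a
  rw [div_lt_iff₀ hd] at b
  refine ⟨n, ?_, ?_⟩
  · rw [div_le_iff₀ (by positivity)]
    linarith
  · rw [le_div_iff₀ (by positivity)]
    linarith

theorem result :
    ¬ (∀ (X : Type) [NormedAddCommGroup X] [NormedSpace ℝ X] [CompleteSpace X]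
      [TopologicalSpace.SeparableSpace X],
      ∃ K : Set X, IsCompact K ∧
        ∀ (Z : Type) [NormedAddCommGroup Z] [NormedSpace ℝ Z] [CompleteSpace Z],
          (∃ f : K → Z, Isometry f) → Nonempty (X →ₗᵢ[ℝ] Z)) := by
  intro H
  haveI := sep
  obtain ⟨K, hK, HK⟩ := H V
  obtain ⟨R, hR⟩ := hK.isBounded.subset_closedBall (0 : V)
  set D : ℝ := 2 * |R| + 1 with hDdef
  have hD0 : 0 < D := by positivity
  have hdiam : ∀ x ∈ K, ∀ y ∈ K, ‖x - y‖ ≤ D := by
    intro x hx y hy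
    have a := mem_closedBall_zero_iff.1 (hR hx)
    have b := mem_closedBall_zero_iff.1 (hR hy)
    have c := norm_sub_le x y
    have d := le_abs_self R
    linarith
  have hnet : ∀ n : ℕ, ∃ t ⊆ K, t.Finite ∧ K ⊆ ⋃ x ∈ t, Metric.ball x (D / (n + 1)) := fun n =>
    finite_cover_balls_of_compact hK (by positivity)
  choose t _ ht1 ht2 using hnet
  let ι : Type := Σ n : ℕ, t n
  haveI : ∀ n, Finite (t n) := fun n => (ht1 n).to_subtype
  letI : Encodable ι := Encodable.ofCountable ι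
  letI : TopologicalSpace ι := ⊥
  haveI : DiscreteTopology ι := ⟨rfl⟩
  choose c hc1 hc2 hc3 using fun k : ι =>
    proj (k.2 : V) (2 * (D / (k.1 + 1))) (by positivity)
  let U : ι → Set V := fun k => (fun p : V × V => ‖p.1 - p.2‖⁻¹ • (p.1 - p.2)) ''
    ((K ×ˢ K) ∩ {p | D / (k.1 + 2) ≤ ‖p.1 - p.2‖})
  have hU : ∀ k, ∀ u ∈ U k, ‖u‖ ≤ 1 := by
    rintro k _ ⟨p, _, rfl⟩
    rw [norm_smul, norm_inv, norm_norm]
    exact inv_mul_le_one
  have hUK : ∀ k, IsCompact (U k) := by
    intro k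
    refine ((hK.prod hK).inter_right (isClosed_le continuous_const (by fun_prop))).image_of_continuousOn ?_
    have c1 : Continuous fun p : V × V => p.1 - p.2 := continuous_fst.sub continuous_snd
    refine ContinuousOn.smul (ContinuousOn.inv₀ c1.norm.continuousOn fun p hp => ?_)
      c1.continuousOn
    have h1 : D / ((k.1 : ℝ) + 2) ≤ ‖p.1 - p.2‖ := hp.2
    have h2 : 0 < D / ((k.1 : ℝ) + 2) := by positivity
    linarith
  have hz : ∀ z : V, Tendsto (fun k : ι => c k z - k.2) (cocompact ι) (𝓝 0) := by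
    intro z
    rw [cocompact_eq_cofinite]
    have h1 : Tendsto (fun k : ι => k.1) cofinite atTop := by
      rw [← Nat.cofinite_eq_atTop]
      refine Tendsto.cofinite_of_finite_preimage_singleton fun n => ?_
      refine (Set.finite_range (fun x : t n => (⟨n, x⟩ : ι))).subset ?_ |>.to_subtype
      rintro ⟨m, x⟩ hm
      have : m = n := hm
      subst this
      exact ⟨x, rfl⟩
    have h2 : Tendsto (fun n : ℕ => 2 * (D / ((n : ℝ) + 1))) atTop (𝓝 0) := by
      have := (tendsto_one_div_add_atTop_nhds_zero_nat (𝕜 := ℝ)).const_mul (2 * D)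
      rw [mul_zero] at this
      refine this.congr fun n => ?_
      ring
    refine squeeze_zero_norm (fun k => ?_) (h2.comp h1)
    exact mem_closedBall_iff_norm.1 (hc1 k z)
  let Φ : V → C₀(ι, V) := fun z => ⟨⟨fun k => c k z - k.2, continuous_of_discreteTopology⟩, hz z⟩
  have hΦ : ∀ x y k, (Φ x - Φ y) k = c k x - c k y := by
    intro x y k
    change (c k x - k.2) - (c k y - k.2) = _
    abel
  refine renorm C₀(ι, V) (fun w => max (AA U w) (MM w)) ?_ ?_ ?_ ?_ False ?_
  · intro a w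
    rw [AA_smul, MM_smul, mul_max_of_nonneg _ _ (abs_nonneg a)]
  · intro x y
    exact max_le ((AA_add U hU x y).trans (add_le_add (le_max_left _ _) (le_max_left _ _)))
      ((MM_add x y).trans (add_le_add (le_max_right _ _) (le_max_right _ _)))
  · intro w
    have := le_MM w
    have := le_max_right (AA U w) (MM w)
    linarith
  · intro w
    exact max_le (AA_le U hU w) (MM_le w)
  intro Z _ _ _ e he
  have hiso : Isometry fun z : K => e (Φ z) := by
    refine Isometry.of_dist_eq fun x y => ?_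
    rw [dist_eq_norm, ← map_sub, he, Subtype.dist_eq, dist_eq_norm]
    have hle : ‖Φ x - Φ y‖ ≤ ‖(x : V) - y‖ :=
      norm_le _ _ (norm_nonneg _) fun k => by rw [hΦ]; exact hc3 k x y
    refine le_antisymm (max_le ((AA_le U hU _).trans hle) ((MM_le _).trans hle)) ?_
    refine le_max_of_le_left ?_
    rcases (norm_nonneg ((x : V) - y)).eq_or_lt with h | h
    · rw [← h]
      exact AA_nonneg U _
    obtain ⟨n, hn1, hn2⟩ := scale h (hdiam x x.2 y y.2)
    obtain ⟨m, hm, hx⟩ := Set.mem_iUnion₂.1 (ht2 n x.2)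
    let k : ι := ⟨n, ⟨m, hm⟩⟩
    have hx1 : ‖(x : V) - m‖ < D / (n + 1) := mem_ball_iff_norm.1 hx
    have hp : 0 < D / ((n : ℝ) + 1) := by positivity
    have ex : c k x = x := hc2 k x (mem_closedBall_iff_norm.2 (by
      change ‖(x : V) - m‖ ≤ 2 * (D / (n + 1))
      linarith))
    have ey : c k y = y := hc2 k y (mem_closedBall_iff_norm.2 (by
      change ‖(y : V) - m‖ ≤ 2 * (D / (n + 1))
      have := norm_sub_le ((x : V) - m) (x - y)
      rw [show (x : V) - m - (x - y) = y - m by abel] at this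
      linarith))
    have := le_AA U hU (Φ x - Φ y) k _ ⟨((x : V), (y : V)), ⟨⟨x.2, y.2⟩, hn1⟩, rfl⟩
    rw [hΦ, ex, ey, real_inner_smul_left, real_inner_self_eq_norm_sq] at this
    refine le_trans (le_of_eq ?_) ((le_abs_self _).trans this)
    field_simp
  obtain ⟨T⟩ := HK Z ⟨_, hiso⟩
  refine no_copy U hU hUK (e.symm.toLinearMap ∘ₗ T.toLinearMap) fun v => ?_
  have := he (e.symm (T v))
  rw [e.apply_symm_apply, T.norm_map] at this
  exact this.symm

end Pool.Agent.S06578
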