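import Pool.Statements.S06580
-- import your own Pool.Agent.* helpers here

set_option autoImplicit false
open Filter Topology MeasureTheory
open Pool Pool.MP_ec63c8_an

namespace Pool.Agent.S06580

abbrev I : Type := Set.Icc (0:ℝ) 1

noncomputable def y (x t : ℝ) : ℝ := x * Real.exp t / (1 - x + x * Real.exp t)

lemma den_pos {x : ℝ} (hx : x ∈ Set.Icc (0:ℝ) 1) (t : ℝ) : 0 < 1 - x + x * Real.exp t := by
  have := Real.exp_pos t
  rcases hx.1.eq_or_lt with h | h
  · subst h; simp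
  · have := mul_pos h this
    linarith [hx.2]

lemma y_mem {x : ℝ} (hx : x ∈ Set.Icc (0:ℝ) 1) (t : ℝ) : y x t ∈ Set.Icc (0:ℝ) 1 := by
  have h := den_pos hx t
  have := Real.exp_pos t
  have := hx.1
  refine ⟨div_nonneg (by positivity) h.le, ?_⟩
  rw [y, div_le_one h]; linarith [hx.2]

lemma y_zero (x : ℝ) : y x 0 = x := by simp [y]

lemma y_add {x : ℝ} (hx : x ∈ Set.Icc (0:ℝ) 1) (s t : ℝ) : y (y x s) t = y x (s + t) := by
  have h1 := (den_pos hx s).ne'
  have h2 := (den_pos hx (s + t)).ne'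
  have h3 := (den_pos (y_mem hx s) t).ne'
  rw [y, y.eq_def x (s + t), div_eq_div_iff h3 h2]
  simp only [y, Real.exp_add]
  field_simp
  ring

lemma y_deriv {x : ℝ} (hx : x ∈ Set.Icc (0:ℝ) 1) (t : ℝ) :
    HasDerivAt (y x) (y x t * (1 - y x t)) t := by
  have h1 := (den_pos hx t).ne'
  have h := ((Real.hasDerivAt_exp t).const_mul x).fun_div
    (((Real.hasDerivAt_exp t).const_mul x).const_add (1 - x)) h1
  refine h.congr_deriv ?_
  simp only [y]
  field_simp

lemma y_cont : Continuous fun p : ℝ × I => y p.2 p.1 := by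
  unfold y
  exact Continuous.div (by fun_prop) (by fun_prop) fun p => (den_pos p.2.2 p.1).ne'

noncomputable def fl : C(ℝ × I, I) :=
  ⟨fun p => ⟨y p.2 p.1, y_mem p.2.2 p.1⟩, y_cont.subtype_mk _⟩

noncomputable def T (t : ℝ) : C(I, ℂ) →L[ℂ] C(I, ℂ) := LinearMap.mkContinuous
  { toFun := fun g => g.comp (fl.curry t)
    map_add' := fun _ _ => rfl
    map_smul' := fun _ _ => rfl } 1 (fun g => by
    rw [one_mul]
    exact (ContinuousMap.norm_le _ (norm_nonneg g)).2 fun x => g.norm_coe_le_norm _)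

lemma T_apply (t : ℝ) (g : C(I, ℂ)) (x : I) : T t g x = g ⟨y x t, y_mem x.2 t⟩ := rfl

lemma T_cont (g : C(I, ℂ)) : Continuous fun t => T t g :=
  (ContinuousMap.continuous_postcomp g).comp fl.curry.continuous

noncomputable def g0 : C(I, ℂ) := ⟨fun x => (((x:ℝ) * (1 - x) : ℝ) : ℂ), by fun_prop⟩

lemma scal {x : ℝ} (hx : x ∈ Set.Icc (0:ℝ) 1) (l : ℂ) (hl : 0 < l.re) :
    ‖∫ t in Set.Ioi (0:ℝ), Complex.exp (-(l * t)) * ((y x t * (1 - y x t) : ℝ) : ℂ)‖ ≤ 1 ∧
    ‖l‖ * ‖∫ t in Set.Ioi (0:ℝ), Complex.exp (-(l * t)) * ((y x t * (1 - y x t) : ℝ) : ℂ)‖ ≤ 2 := by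
  set h : ℝ → ℝ := fun t => y x t * (1 - y x t) with hh
  have h0 : ∀ t, 0 ≤ h t := fun t => mul_nonneg (y_mem hx t).1 (by linarith [(y_mem hx t).2])
  have h1 : ∀ t, h t ≤ 1 := fun t => by
    have := y_mem hx t
    simp only [hh]; nlinarith [this.1, this.2]
  have hmono : Monotone (y x) := monotone_of_deriv_nonneg
    (fun t => (y_deriv hx t).differentiableAt) fun t => by rw [(y_deriv hx t).deriv]; exact h0 t
  have hbd : BddAbove (Set.range (y x)) := ⟨1, by rintro _ ⟨t, rfl⟩; exact (y_mem hx t).2⟩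
  have hlim := tendsto_atTop_ciSup hmono hbd
  have hi : IntegrableOn h (Set.Ioi 0) :=
    integrableOn_Ioi_deriv_of_nonneg' (fun t _ => y_deriv hx t) (fun t _ => h0 t) hlim
  have hI : ∫ t in Set.Ioi (0:ℝ), h t ≤ 1 := by
    rw [integral_Ioi_of_hasDerivAt_of_nonneg' (fun t _ => y_deriv hx t) (fun t _ => h0 t) hlim]
    have := ciSup_le (f := y x) fun t => (y_mem hx t).2
    linarith [(y_mem hx 0).1]
  have cy : Continuous (y x) := continuous_iff_continuousAt.2 fun t => (y_deriv hx t).continuousAt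
  have he : ∀ t : ℝ, ‖Complex.exp (-(l * t))‖ = Real.exp (-(l.re * t)) := by
    intro t; rw [Complex.norm_exp]; simp
  have he1 : ∀ t : ℝ, 0 < t → ‖Complex.exp (-(l * t))‖ ≤ 1 := by
    intro t ht; rw [he, Real.exp_le_one_iff]; nlinarith
  have b1 : ∀ᵐ t : ℝ ∂(volume.restrict (Set.Ioi 0)), ‖Complex.exp (-(l * t)) * (h t : ℂ)‖ ≤ h t := by
    filter_upwards [ae_restrict_mem measurableSet_Ioi] with t ht
    rw [norm_mul, Complex.norm_real, Real.norm_eq_abs, abs_of_nonneg (h0 t)]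
    exact mul_le_of_le_one_left (h0 t) (he1 t ht)
  have b2 : ∀ᵐ t : ℝ ∂(volume.restrict (Set.Ioi 0)),
      ‖Complex.exp (-(l * t)) * (((1 - 2 * y x t) * h t : ℝ) : ℂ)‖ ≤ h t := by
    filter_upwards [ae_restrict_mem measurableSet_Ioi] with t ht
    rw [norm_mul, Complex.norm_real, Real.norm_eq_abs, abs_mul, abs_of_nonneg (h0 t)]
    have : |1 - 2 * y x t| ≤ 1 := by
      have := y_mem hx t
      rw [abs_le]; constructor <;> linarith [this.1, this.2]
    calc _ ≤ 1 * (1 * h t) := by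
          have := h0 t
          gcongr
          exact he1 t ht
      _ = _ := by ring
  have ch : Continuous h := by simp only [hh]; fun_prop
  have i1 : IntegrableOn (fun t : ℝ => Complex.exp (-(l * t)) * (h t : ℂ)) (Set.Ioi 0) :=
    Integrable.mono' hi (Continuous.aestronglyMeasurable (by fun_prop)) b1
  have i2 : IntegrableOn (fun t : ℝ => Complex.exp (-(l * t)) *
      (((1 - 2 * y x t) * h t : ℝ) : ℂ)) (Set.Ioi 0) :=
    Integrable.mono' hi (Continuous.aestronglyMeasurable (by fun_prop)) b2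
  refine ⟨(norm_integral_le_of_norm_le hi b1).trans hI, ?_⟩
  have hd : ∀ t ∈ Set.Ici (0:ℝ), HasDerivAt (fun t : ℝ => Complex.exp (-(l * t)) * (h t : ℂ))
      (Complex.exp (-(l * t)) * (((1 - 2 * y x t) * h t : ℝ) : ℂ) -
        l * (Complex.exp (-(l * t)) * (h t : ℂ))) t := by
    intro t _
    have d1 : HasDerivAt h ((1 - 2 * y x t) * h t) t :=
      ((y_deriv hx t).fun_mul ((y_deriv hx t).const_sub 1)).congr_deriv (by simp only [hh]; ring)
    have d2 : HasDerivAt (fun t : ℝ => (t : ℂ)) 1 t := (hasDerivAt_id' t).ofReal_comp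
    exact ((d2.const_mul l).fun_neg.cexp.fun_mul d1.ofReal_comp).congr_deriv (by ring)
  have ht : Tendsto (fun t : ℝ => Complex.exp (-(l * t)) * (h t : ℂ)) atTop (𝓝 0) := by
    refine squeeze_zero_norm (a := fun t => Real.exp (-(l.re * t))) (fun t => ?_) ?_
    · rw [norm_mul, he, Complex.norm_real, Real.norm_eq_abs, abs_of_nonneg (h0 t)]
      exact mul_le_of_le_one_right (Real.exp_pos _).le (h1 t)
    · exact Real.tendsto_exp_neg_atTop_nhds_zero.comp (tendsto_id.const_mul_atTop hl)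
  have hp := integral_Ioi_of_hasDerivAt_of_tendsto' hd (i2.sub (i1.const_mul l)) ht
  rw [integral_sub i2 (i1.const_mul l), integral_const_mul] at hp
  have e : l * ∫ t in Set.Ioi (0:ℝ), Complex.exp (-(l * t)) * (h t : ℂ) =
      (∫ t in Set.Ioi (0:ℝ), Complex.exp (-(l * t)) * (((1 - 2 * y x t) * h t : ℝ) : ℂ)) + h 0 := by
    simp only [Complex.ofReal_zero, mul_zero, neg_zero, Complex.exp_zero, one_mul] at hp
    linear_combination -hp
  rw [← norm_mul, e]
  refine (norm_add_le _ _).trans ?_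
  have := (norm_integral_le_of_norm_le hi b2).trans hI
  rw [Complex.norm_real, Real.norm_eq_abs, abs_of_nonneg (h0 0)]
  linarith [h1 0]

lemma res_le (l : ℂ) (hl : 0 < l.re) :
    ‖∫ t in Set.Ioi (0:ℝ), Complex.exp (-(l * t)) • T t g0‖ ^ 2 ≤ 5 * (1 + l.im ^ 2)⁻¹ := by
  have hi : IntegrableOn (fun t : ℝ => Complex.exp (-(l * t)) • T t g0) (Set.Ioi 0) := by
    refine Integrable.mono' ((exp_neg_integrableOn_Ioi 0 hl).mul_const ‖g0‖)
      (Continuous.aestronglyMeasurable ((by fun_prop : Continuous fun t : ℝ =>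
        Complex.exp (-(l * t))).smul (T_cont g0))) (Eventually.of_forall fun t => ?_)
    rw [norm_smul, Complex.norm_exp]
    have : ‖T t g0‖ ≤ ‖g0‖ :=
      (ContinuousMap.norm_le _ (norm_nonneg g0)).2 fun x => g0.norm_coe_le_norm _
    simp only [Complex.neg_re, Complex.mul_re, Complex.ofReal_re, Complex.ofReal_im, mul_zero,
      sub_zero, neg_mul]
    gcongr
  set R := ∫ t in Set.Ioi (0:ℝ), Complex.exp (-(l * t)) • T t g0 with hR
  have hx : ∀ x : I, R x =
      ∫ t in Set.Ioi (0:ℝ), Complex.exp (-(l * t)) * ((y x t * (1 - y x t) : ℝ) : ℂ) := fun x =>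
    ((ContinuousMap.evalCLM ℂ x).integral_comp_comm hi).symm
  have hl0 : 0 < ‖l‖ := lt_of_lt_of_le hl (Complex.re_le_norm l)
  have b1 : ‖R‖ ≤ 1 := (ContinuousMap.norm_le _ zero_le_one).2 fun x => by
    rw [hx]; exact (scal x.2 l hl).1
  have b2 : ‖R‖ ≤ 2 / ‖l‖ := (ContinuousMap.norm_le _ (by positivity)).2 fun x => by
    rw [hx, le_div_iff₀ hl0, mul_comm]; exact (scal x.2 l hl).2
  rw [le_div_iff₀ hl0] at b2
  have b3 : ‖R‖ * |l.im| ≤ 2 :=
    (mul_le_mul_of_nonneg_left (Complex.abs_im_le_norm l) (norm_nonneg _)).trans b2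
  have b4 := pow_le_pow_left₀ (by positivity) b3 2
  have b5 := pow_le_pow_left₀ (by positivity) b1 2
  rw [mul_pow, sq_abs] at b4
  rw [← div_eq_mul_inv, le_div_iff₀ (by positivity)]
  nlinarith

theorem result :
    ¬ (∀ (X : Type) [NormedAddCommGroup X] [NormedSpace ℂ X] [CompleteSpace X]
      (T : ℝ → (X →L[ℂ] X)),
      T 0 = 1 →
      (∀ s t : ℝ, 0 ≤ s → 0 ≤ t → T (s + t) = T s * T t) →
      (∀ x : X, ContinuousOn (fun t : ℝ => T t x) (Set.Ici (0 : ℝ))) →
      (∃ M : ℝ, ∀ t : ℝ, 0 ≤ t → ‖T t‖ ≤ M) →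
      ∀ x : X,
        (Tendsto (fun t : ℝ => T t x) atTop (𝓝 0) ↔
          Tendsto
            (fun a : ℝ => ENNReal.ofReal a *
              ∫⁻ s : ℝ,
                ((‖∫ t in Set.Ioi (0 : ℝ),
                    Complex.exp (-(((a : ℂ) + (s : ℂ) * Complex.I) * (t : ℂ))) • T t x‖₊ : ENNReal)) ^ 2)
            (𝓝[>] (0 : ℝ)) (𝓝 0))) := by
  intro H
  have h := (H C(I, ℂ) T ?_ ?_ (fun g => (T_cont g).continuousOn)
    ⟨1, fun t _ => LinearMap.mkContinuous_norm_le _ zero_le_one _⟩ g0).2 ?_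
  · have h2 := (tendsto_zero_iff_norm_tendsto_zero.1 h).eventually
      (eventually_lt_nhds (by norm_num : (0:ℝ) < 1/4))
    obtain ⟨t, ht⟩ := h2.exists
    have hm : (1/2 : ℝ) ∈ Set.Icc (0:ℝ) 1 := by norm_num
    have h3 := (T t g0).norm_coe_le_norm ⟨y (1/2) (-t), y_mem hm _⟩
    have h4 : T t g0 ⟨y (1/2) (-t), y_mem hm _⟩ = ((1/4 : ℝ) : ℂ) := by
      show ((y (y (1/2) (-t)) t * (1 - y (y (1/2) (-t)) t) : ℝ) : ℂ) = _
      rw [y_add hm, neg_add_cancel, y_zero]; norm_num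
    rw [h4, Complex.norm_real] at h3
    norm_num at h3 ht
    linarith
  · ext g x
    rw [T_apply]
    simp [y_zero]
  · intro s t _ _
    ext g x
    show g ⟨y x (s + t), _⟩ = g ⟨y (y x s) t, _⟩
    simp only [y_add x.2]
  · set K := ∫⁻ s : ℝ, ENNReal.ofReal (5 * (1 + s ^ 2)⁻¹) with hK
    have hK' : K ≠ ⊤ := (integrable_inv_one_add_sq.const_mul 5).lintegral_lt_top.ne
    have h1 : Tendsto (fun a : ℝ => ENNReal.ofReal a * K) (𝓝[>] 0) (𝓝 0) := by
      have h2 : Tendsto (fun a : ℝ => ENNReal.ofReal a) (𝓝[>] 0) (𝓝 0) := by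
        simpa using (ENNReal.continuous_ofReal.tendsto 0).mono_left nhdsWithin_le_nhds
      simpa using ENNReal.Tendsto.mul_const h2 (Or.inr hK')
    refine tendsto_of_tendsto_of_tendsto_of_le_of_le' tendsto_const_nhds h1
      (Eventually.of_forall fun a => zero_le) ?_
    filter_upwards [self_mem_nhdsWithin] with a ha
    refine mul_le_mul_right (lintegral_mono fun s => ?_) _
    have := res_le ((a : ℂ) + (s : ℂ) * Complex.I) (by simpa using ha)
    rw [← enorm_eq_nnnorm, ← ofReal_norm, ← ENNReal.ofReal_pow (norm_nonneg _)]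
    apply ENNReal.ofReal_le_ofReal
    simpa using this

end Pool.Agent.S06580
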