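import Pool.Statements.S06601
-- import your own Pool.Agent.* helpers here
import Pool.Agent.H.MP_ed8a78_an.C

set_option autoImplicit false
open Pool Pool.MP_ed8a78_an

namespace Pool.Agent.S06601

theorem result :
    ∀ (A : Fin 3 → Matrix (Fin 3) (Fin 3) ℝ),
      A = ![!![1, 0, 0; 2/5, 2/5, 1/5; 2/5, 1/5, 2/5],
            !![2/5, 2/5, 1/5; 0, 1, 0; 1/5, 2/5, 2/5],
            !![2/5, 1/5, 2/5; 1/5, 2/5, 2/5; 0, 0, 1]] →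
    ∀ (E : (Fin 3 → ℝ) → ℝ),
      (∀ v : Fin 3 → ℝ, E v = (v 0 - v 1) ^ 2 + (v 1 - v 2) ^ 2 + (v 0 - v 2) ^ 2) →
    ∀ (ν : (Fin 3 → ℝ) → (n : ℕ) → (Fin n → Fin 3) → ℝ),
      (∀ (x : Fin 3 → ℝ) (n : ℕ) (w : Fin n → Fin 3),
        ν x n w = (5/3 : ℝ) ^ n *
          E ((List.ofFn w).foldl (fun v i => (A i).mulVec v) x) / E x) →
    ∀ x y : Fin 3 → ℝ, E x ≠ 0 → E y ≠ 0 →
    ∀ p : ℝ, 1 < p → p < Real.log 15 / Real.log 9 →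
      ∃ C : ℝ, ∀ n : ℕ,
        ∑ w : Fin n → Fin 3, (ν x n w) ^ p * (ν y n w) ^ (1 - p) ≤ C := by
  exact Pool.Agent.H.MP_ed8a78_an.final

end Pool.Agent.S06601
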