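import Pool.Statements.S06623
-- import your own Pool.Agent.* helpers here
import Pool.Agent.H.MP_ef2f7d_an.B

set_option autoImplicit false
open Pool Pool.MP_ef2f7d_an

namespace Pool.Agent.S06623

theorem result :
    ∃ (X : Type) (_ : MetricSpace X) (_ : CompactSpace X) (_ : Nonempty X) (T S : X ≃ₜ X),
      (∀ x : X, Dense (Set.range (fun n : ℕ => (⇑T)^[n] x))) ∧
      (∀ x : X, Dense (Set.range (fun n : ℕ => (⇑S)^[n] x))) ∧
      ∀ x : X, ¬ (∀ ε : ℝ, 0 < ε →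
        ∃ n : ℕ, 0 < n ∧ dist ((⇑T)^[n] x) x < ε ∧ dist ((⇑S)^[n] x) x < ε) := by
  open Pool.Agent.H.MP_ef2f7d_an in
  refine ⟨X, TopologicalSpace.metrizableSpaceMetric X, inferInstanceAs (CompactSpace X),
    ne.elim fun ξ h => ⟨⟨ξ, h⟩⟩, T, S, dense, denseS, fun x h => ?_⟩
  letI := TopologicalSpace.metrizableSpaceMetric H.MP_ef2f7d_an.X
  obtain ⟨ε, e0, he⟩ := Metric.eventually_nhds_iff.1 (H.MP_ef2f7d_an.cl_ev x)
  obtain ⟨n, hn, a, b⟩ := h ε e0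
  exact H.MP_ef2f7d_an.norec x n hn (he a) (he b)

end Pool.Agent.S06623
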