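import Pool.Statements.S06628
import Pool.Agent.H.MP_efa496_an.A

set_option autoImplicit false
open Pool Pool.MP_efa496_an

namespace Pool.Agent.S06628

open Filter Topology Pool.Agent.H.MP_efa496_an
open scoped Pointwise

/-- the two directions -/
noncomputable def ω : Fin 2 → ℂ := ![1 - Complex.I, 1 + Complex.I]

lemma ω_norm (i : Fin 2) : 1 ≤ ‖ω i‖ ∧ ‖ω i‖ ≤ 2 := by
  have h : ‖ω i‖ ^ 2 = 2 := by
    rw [Complex.sq_norm, Complex.normSq_apply]
    fin_cases i <;> simp [ω] <;> norm_num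
  have := norm_nonneg (ω i)
  constructor <;> nlinarith

/-- weights -/
noncomputable def wt (δ : ℝ) (z : ℂ) (i : Fin 2) : ℝ := W (ω i * z) * Real.exp (δ * ‖z‖)

lemma wt_pos (δ : ℝ) (z : ℂ) (i : Fin 2) : 0 < wt δ z i := by
  unfold wt; have := W_pos (ω i * z); positivity

lemma wt_mono {δ δ' : ℝ} (h : δ ≤ δ') (z : ℂ) (i : Fin 2) : wt δ z i ≤ wt δ' z i := by
  unfold wt; have := W_pos (ω i * z); gcongr

/-- the module -/
def P : Submodule ℂ (ℂ → Fin 2 → ℂ) where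
  carrier := {f | Differentiable ℂ f ∧ ∀ δ, 0 < δ → ∃ C, 0 < C ∧ ∀ z i, ‖f z i‖ ≤ C * wt δ z i}
  add_mem' := by
    rintro f g ⟨hf, hf'⟩ ⟨hg, hg'⟩
    refine ⟨hf.add hg, fun δ hδ => ?_⟩
    obtain ⟨C1, h1, h1'⟩ := hf' δ hδ
    obtain ⟨C2, h2, h2'⟩ := hg' δ hδ
    refine ⟨C1 + C2, by positivity, fun z i => ?_⟩
    refine (norm_add_le _ _).trans ?_
    linarith [h1' z i, h2' z i]
  zero_mem' := ⟨differentiable_const _, fun δ _ => ⟨1, one_pos, fun z i => by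
    simpa using (wt_pos δ z i).le⟩⟩
  smul_mem' := by
    rintro c f ⟨hf, hf'⟩
    refine ⟨hf.const_smul c, fun δ hδ => ?_⟩
    obtain ⟨C1, h1, h1'⟩ := hf' δ hδ
    refine ⟨(‖c‖ + 1) * C1, by positivity, fun z i => ?_⟩
    have := wt_pos δ z i
    simp only [Pi.smul_apply, smul_eq_mul, norm_mul]
    calc ‖c‖ * ‖f z i‖ ≤ (‖c‖ + 1) * (C1 * wt δ z i) := by
          gcongr
          · linarith
          · exact h1' z i
      _ = _ := by ring

/-- basic neighbourhoods -/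
def B (δ r : ℝ) : Set P := {x | ∀ z i, ‖(x : ℂ → Fin 2 → ℂ) z i‖ ≤ r * wt δ z i}

lemma B_mono {δ δ' r r' : ℝ} (h : δ ≤ δ') (h0 : 0 < r) (h' : r ≤ r') : B δ r ⊆ B δ' r' := by
  intro x hx z i
  have := wt_pos δ z i
  refine (hx z i).trans ?_
  gcongr
  · linarith
  · exact wt_mono h z i

lemma smul_mem_B {δ r : ℝ} {x : P} (hx : x ∈ B δ r) (c : ℂ) {s : ℝ} (hs : ‖c‖ * r ≤ s) :
    c • x ∈ B δ s := by
  intro z i
  have := wt_pos δ z i
  simp only [SetLike.val_smul, Pi.smul_apply, smul_eq_mul, norm_mul]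
  calc ‖c‖ * ‖(x : ℂ → Fin 2 → ℂ) z i‖ ≤ ‖c‖ * (r * wt δ z i) := by gcongr; exact hx z i
    _ = (‖c‖ * r) * wt δ z i := by ring
    _ ≤ _ := by gcongr

lemma add_mem_B {δ r s : ℝ} {x y : P} (hx : x ∈ B δ r) (hy : y ∈ B δ s) : x + y ∈ B δ (r + s) := by
  intro z i
  simp only [Submodule.coe_add, Pi.add_apply]
  refine (norm_add_le _ _).trans ?_
  linarith [hx z i, hy z i]

/-- the filter basis -/
noncomputable def FB : ModuleFilterBasis ℂ P where
  sets := {U | ∃ δ r, 0 < δ ∧ 0 < r ∧ U = B δ r}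
  nonempty := ⟨B 1 1, 1, 1, one_pos, one_pos, rfl⟩
  inter_sets := by
    rintro _ _ ⟨δ, r, hδ, hr, rfl⟩ ⟨δ', r', hδ', hr', rfl⟩
    refine ⟨B (min δ δ') (min r r'), ⟨_, _, lt_min hδ hδ', lt_min hr hr', rfl⟩, ?_⟩
    exact Set.subset_inter (B_mono (min_le_left _ _) (lt_min hr hr') (min_le_left _ _))
      (B_mono (min_le_right _ _) (lt_min hr hr') (min_le_right _ _))
  zero' := by
    rintro _ ⟨δ, r, hδ, hr, rfl⟩ z i
    have := wt_pos δ z i
    simp only [ZeroMemClass.coe_zero, Pi.zero_apply, norm_zero]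
    positivity
  add' := by
    rintro _ ⟨δ, r, hδ, hr, rfl⟩
    refine ⟨B δ (r / 2), ⟨_, _, hδ, by positivity, rfl⟩, ?_⟩
    rintro _ ⟨x, hx, y, hy, rfl⟩
    have := add_mem_B hx hy
    rwa [add_halves] at this
  neg' := by
    rintro _ ⟨δ, r, hδ, hr, rfl⟩
    refine ⟨B δ r, ⟨_, _, hδ, hr, rfl⟩, fun x hx z i => ?_⟩
    simpa using hx z i
  conj' := by
    rintro x0 _ ⟨δ, r, hδ, hr, rfl⟩
    refine ⟨B δ r, ⟨_, _, hδ, hr, rfl⟩, fun x hx => ?_⟩
    simpa using hx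
  smul' := by
    rintro _ ⟨δ, r, hδ, hr, rfl⟩
    refine ⟨Metric.closedBall 0 1, Metric.closedBall_mem_nhds _ one_pos, B δ r,
      ⟨_, _, hδ, hr, rfl⟩, ?_⟩
    rintro _ ⟨c, hc, x, hx, rfl⟩
    rw [mem_closedBall_zero_iff] at hc
    exact smul_mem_B hx c (by nlinarith)
  smul_left' := by
    rintro c _ ⟨δ, r, hδ, hr, rfl⟩
    refine ⟨B δ (r / (‖c‖ + 1)), ⟨_, _, hδ, by positivity, rfl⟩, fun x hx => ?_⟩
    refine smul_mem_B hx c ?_
    rw [← mul_div_assoc, div_le_iff₀ (by positivity)]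
    nlinarith
  smul_right' := by
    rintro x _ ⟨δ, r, hδ, hr, rfl⟩
    obtain ⟨C, hC, hC'⟩ := x.2.2 δ hδ
    filter_upwards [Metric.closedBall_mem_nhds (0 : ℂ) (div_pos hr hC)] with c hc
    rw [mem_closedBall_zero_iff, le_div_iff₀ hC] at hc
    exact smul_mem_B (r := C) hC' c hc

/-- the topology -/
@[reducible] noncomputable def τ : TopologicalSpace P := FB.topology

lemma mem_nhds {V : Set P} : V ∈ @nhds P τ 0 ↔ ∃ δ r, 0 < δ ∧ 0 < r ∧ B δ r ⊆ V := by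
  have := FB.toAddGroupFilterBasis.nhds_zero_hasBasis.mem_iff (t := V)
  refine this.trans ⟨?_, ?_⟩
  · rintro ⟨_, ⟨δ, r, hδ, hr, rfl⟩, h⟩
    exact ⟨δ, r, hδ, hr, h⟩
  · rintro ⟨δ, r, hδ, hr, h⟩
    exact ⟨_, ⟨δ, r, hδ, hr, rfl⟩, h⟩

lemma B_mem {δ r : ℝ} (hδ : 0 < δ) (hr : 0 < r) : B δ r ∈ @nhds P τ 0 :=
  mem_nhds.2 ⟨δ, r, hδ, hr, subset_rfl⟩

lemma τ_group : @IsTopologicalAddGroup P τ _ := FB.toAddGroupFilterBasis.isTopologicalAddGroup

lemma τ_t2 : @T2Space P τ := by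
  letI := τ
  have := τ_group
  rw [IsTopologicalAddGroup.t2Space_iff_zero_closed, ← isOpen_compl_iff, isOpen_iff_mem_nhds]
  intro x hx
  obtain ⟨z, i, hz⟩ : ∃ z i, (x : ℂ → Fin 2 → ℂ) z i ≠ 0 := by
    by_contra h
    push Not at h
    apply hx
    ext z i
    simpa using h z i
  have hw := wt_pos 1 z i
  have hp : 0 < ‖(x : ℂ → Fin 2 → ℂ) z i‖ := norm_pos_iff.2 hz
  rw [← map_add_left_nhds_zero x, mem_map]
  filter_upwards [B_mem (δ := 1) (r := ‖(x : ℂ → Fin 2 → ℂ) z i‖ / 2 / wt 1 z i) one_pos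
    (by positivity)] with y hy h0
  have h1 := hy z i
  rw [div_mul_cancel₀ _ hw.ne'] at h1
  have h2 : y = -x := eq_neg_of_add_eq_zero_right h0
  rw [h2] at h1
  simp only [NegMemClass.coe_neg, Pi.neg_apply, norm_neg] at h1
  linarith

lemma poly_est (p : Polynomial ℂ) (δ : ℝ) (hδ : 0 < δ) : ∃ C, 0 < C ∧ ∀ (f : ℂ → Fin 2 → ℂ) (r : ℝ),
    (∀ z i, ‖f z i‖ ≤ r * wt (δ / 2) z i) → ∀ z i, ‖(p.eval z • f z) i‖ ≤ C * r * wt δ z i := by
  obtain ⟨C, hC, hC'⟩ := poly_bd p (δ / 2) (by positivity)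
  refine ⟨C, hC, fun f r hf z i => ?_⟩
  simp only [Pi.smul_apply, smul_eq_mul, norm_mul]
  calc ‖p.eval z‖ * ‖f z i‖ ≤ (C * Real.exp (δ / 2 * ‖z‖)) * (r * wt (δ / 2) z i) := by
        gcongr
        · exact hC' z
        · exact hf z i
    _ = C * r * (W (ω i * z) * (Real.exp (δ / 2 * ‖z‖) * Real.exp (δ / 2 * ‖z‖))) := by
        unfold wt; ring
    _ = _ := by rw [← Real.exp_add]; unfold wt; ring_nf

lemma poly_mem (p : Polynomial ℂ) (f : ℂ → Fin 2 → ℂ) (hf : f ∈ P) :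
    (fun w => p.eval w • f w) ∈ P := by
  refine ⟨p.differentiable.smul hf.1, fun δ hδ => ?_⟩
  obtain ⟨C, hC, hC'⟩ := poly_est p δ hδ
  obtain ⟨r, hr, hr'⟩ := hf.2 (δ / 2) (by positivity)
  exact ⟨C * r, by positivity, hC' f r hr'⟩

lemma div_est (δ : ℝ) (hδ : 0 < δ) : ∃ M, 0 < M ∧ ∀ (c : ℂ) (x g : ℂ → Fin 2 → ℂ),
    Differentiable ℂ g → (∀ w, x w = (w - c) • g w) → ∀ r, 0 ≤ r →
    (∀ z i, ‖x z i‖ ≤ r * wt (δ / 2) z i) → ∀ z i, ‖g z i‖ ≤ M * r * wt δ z i := by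
  obtain ⟨M, hM, hM'⟩ := divide δ hδ
  refine ⟨M, hM, fun c x g hg hx r hr h z i => ?_⟩
  refine hM' (ω i) (ω_norm i).2 c (fun w => g w i) (differentiable_pi.1 hg i) r hr (fun w => ?_) z
  have := h w i
  rw [hx] at this
  exact this

/-- the submodule -/
def I : Submodule ℂ (ℂ → Fin 2 → ℂ) where
  carrier := {f | f ∈ P ∧ ∀ i c, ∃ k : ℂ → ℂ, AnalyticAt ℂ k c ∧
    ∀ᶠ w in 𝓝 c, f w i = k w * T (ω i * w)}
  add_mem' := by
    rintro f g ⟨hf, hf'⟩ ⟨hg, hg'⟩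
    refine ⟨P.add_mem hf hg, fun i c => ?_⟩
    obtain ⟨k1, h1, h1'⟩ := hf' i c
    obtain ⟨k2, h2, h2'⟩ := hg' i c
    refine ⟨k1 + k2, h1.add h2, ?_⟩
    filter_upwards [h1', h2'] with w e1 e2
    simp only [Pi.add_apply, e1, e2]; ring
  zero_mem' := ⟨P.zero_mem, fun i c => ⟨0, analyticAt_const, by simp⟩⟩
  smul_mem' := by
    rintro a f ⟨hf, hf'⟩
    refine ⟨P.smul_mem a hf, fun i c => ?_⟩
    obtain ⟨k1, h1, h1'⟩ := hf' i c
    refine ⟨fun w => a * k1 w, analyticAt_const.mul h1, ?_⟩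
    filter_upwards [h1'] with w e1
    simp only [Pi.smul_apply, smul_eq_mul, e1]; ring

lemma one_le_exp' (δ : ℝ) (hδ : 0 < δ) (z : ℂ) : 1 ≤ Real.exp (δ * ‖z‖) :=
  Real.one_le_exp (by positivity)

/-- generators -/
noncomputable def gen (s : Fin 2) : ℂ → Fin 2 → ℂ := fun w i => if i = s then T (ω i * w) else 0

lemma gen_mem (s : Fin 2) : gen s ∈ I := by
  refine ⟨⟨differentiable_pi.2 fun i => ?_, fun δ hδ => ⟨1, one_pos, fun z i => ?_⟩⟩,
    fun i c => ⟨fun _ => if i = s then 1 else 0, analyticAt_const, Eventually.of_forall fun w => ?_⟩⟩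
  · unfold gen
    split_ifs
    · exact T_diff.comp (by fun_prop)
    · exact differentiable_const _
  · have h1 := wt_pos δ z i
    unfold gen
    split_ifs
    · refine (T_le _).trans ?_
      unfold wt
      have := W_pos (ω i * z)
      have := one_le_exp' δ hδ z
      nlinarith
    · simpa using h1.le
  · unfold gen
    split_ifs <;> simp

/-- the test element -/
noncomputable def ff : ℂ → Fin 2 → ℂ := fun w i => 32 * Complex.exp (ω i * w)

lemma ff_mem : ff ∈ P := by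
  refine ⟨differentiable_pi.2 fun i => by unfold ff; fun_prop, fun δ hδ => ⟨32, by norm_num, ?_⟩⟩
  intro z i
  unfold ff wt W
  rw [norm_mul, Complex.norm_exp]
  have h1 := one_le_exp' δ hδ z
  have h2 := Real.exp_pos (ω i * z).re
  have h3 := Real.exp_pos (-((ω i * z) ^ 2)).re
  simp only [Complex.norm_ofNat]
  nlinarith

lemma small (x : P) (hx : x ∈ B (1 / 4) 1) (hI : (x : ℂ → Fin 2 → ℂ) ∈ I) (z : ℂ) (i : Fin 2)
    (hz : |(ω i * z).im| ≤ (ω i * z).re) :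
    ‖(x : ℂ → Fin 2 → ℂ) z i‖ ≤ 32 * Real.exp ((ω i * z).re / 2) := by
  have hω : ω i ≠ 0 := by
    intro h; have := (ω_norm i).1; rw [h] at this; simp at this; linarith
  obtain ⟨Ψ, hΨ, hΨ'⟩ := global_quot (fun w => (x : ℂ → Fin 2 → ℂ) w i) (fun w => T (ω i * w))
    (T_diff.comp (by fun_prop)) (by simp [T]) (hI.2 i)
  have := PL (fun u => Ψ (u / ω i)) (hΨ.comp (by fun_prop)) (fun u => by
    have h1 := hx (u / ω i) i
    rw [hΨ' (u / ω i)] at h1
    unfold wt at h1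
    rw [mul_div_cancel₀ _ hω, one_mul] at h1
    refine h1.trans ?_
    have := W_pos u
    refine mul_le_mul_of_nonneg_left (Real.exp_le_exp.2 ?_) this.le
    have h2 : ‖u / ω i‖ ≤ ‖u‖ := by
      rw [norm_div]; exact div_le_self (norm_nonneg _) (ω_norm i).1
    linarith) (ω i * z) hz
  rw [mul_div_cancel_left₀ _ hω, ← hΨ' z] at this
  exact this

/-- Counterexample on the plane with q = 2 and local rank 2. -/
theorem result :
    ¬ (∀ (G : Set ℂ), IsOpen G → IsConnected G →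
 ∀ (q : ℕ), 1 ≤ q →
 ∀ (P : Submodule ℂ (ℂ → Fin q → ℂ)),
 (∀ f ∈ P, DifferentiableOn ℂ f G ∧ ∀ w ∉ G, f w = 0) →
 (∀ (p : Polynomial ℂ), ∀ f ∈ P, (fun w => p.eval w • f w) ∈ P) →
 ∀ (τ : TopologicalSpace ↥P),
 @T2Space ↥P τ → @IsTopologicalAddGroup ↥P τ _ → @ContinuousSMul ℂ ↥P _ _ τ →
 (∀ V ∈ @nhds ↥P τ 0, ∃ U ∈ @nhds ↥P τ 0, U ⊆ V ∧
   ∀ x ∈ U, ∀ y ∈ U, ∀ t : ℝ, 0 ≤ t → t ≤ 1 → (t : ℂ) • x + ((1 - t : ℝ) : ℂ) • y ∈ U) →
 (∀ (p : Polynomial ℂ) (g : ↥P → ↥P),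
   (∀ x : ↥P, ((g x : ↥P) : ℂ → Fin q → ℂ) = fun w => p.eval w • (x : ℂ → Fin q → ℂ) w) →
   @Continuous ↥P ↥P τ τ g) →
 (∀ V ∈ @nhds ↥P τ 0, ∃ U ∈ @nhds ↥P τ 0, ∀ (c : ℂ), ∀ x ∈ U, ∀ g : ℂ → Fin q → ℂ,
   DifferentiableOn ℂ g G → (∀ w ∉ G, g w = 0) →
   (∀ w ∈ G, (x : ℂ → Fin q → ℂ) w = (w - c) • g w) →
   ∃ y ∈ V, (y : ℂ → Fin q → ℂ) = g) →
 (∀ (n : ℕ) (F : Fin n → ↥P),
   (∀ g : ℂ → Fin q → ℂ, DifferentiableOn ℂ g G → (∀ w ∉ G, g w = 0) →
     (∀ w ∈ G, ∀ i, ‖g w i‖ ≤ ∑ m, ‖(F m : ℂ → Fin q → ℂ) w i‖) → g ∈ P) ∧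
   (∀ V ∈ @nhds ↥P τ 0, ∃ r : ℝ, 0 < r ∧ ∀ a : ℂ, r ≤ ‖a‖ → ∀ x : ↥P,
     (∀ w ∈ G, ∀ i, ‖(x : ℂ → Fin q → ℂ) w i‖ ≤ ∑ m, ‖(F m : ℂ → Fin q → ℂ) w i‖) →
     ∃ y ∈ V, x = a • y)) →
 ∀ (I : Submodule ℂ (ℂ → Fin q → ℂ)), I ≤ P →
 (∀ (p : Polynomial ℂ), ∀ f ∈ I, (fun w => p.eval w • f w) ∈ I) →
 (∀ f ∈ P, (∀ c ∈ G, ∃ (n : ℕ) (u : Fin n → ℂ → Fin q → ℂ) (h : Fin n → ℂ → ℂ),
     (∀ m, u m ∈ I) ∧ (∀ m, AnalyticAt ℂ (h m) c) ∧
     ∀ᶠ w in nhds c, f w = ∑ m, h m w • u m w) → f ∈ I) →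
 ∀ (k : ℕ),
 (∃ c ∈ G, ∃ (u : Fin k → ℂ → Fin q → ℂ) (J : Fin k → Fin q), (∀ s, u s ∈ I) ∧ StrictMono J ∧
   ¬ (∀ᶠ w in nhds c, (Matrix.of fun r s => u s w (J r)).det = 0)) →
 (∀ c ∈ G, ∀ (r : ℕ) (u : Fin r → ℂ → Fin q → ℂ) (J : Fin r → Fin q), (∀ s, u s ∈ I) →
   StrictMono J → ¬ (∀ᶠ w in nhds c, (Matrix.of fun a s => u s w (J a)).det = 0) → r ≤ k) →
 ∀ f ∈ P, ∀ V ∈ @nhds ↥P τ 0, ∀ Φ : ℂ → ℂ, DifferentiableOn ℂ Φ G →
 (∀ z ∈ G, ∀ (u : Fin k → ↥P) (J : Fin k → Fin q), (∀ s, u s ∈ V) →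
   (∀ s, (u s : ℂ → Fin q → ℂ) ∈ I) → StrictMono J →
   (Matrix.of fun r s => (u s : ℂ → Fin q → ℂ) z (J r)).det ≠ 0 →
   ‖Φ z‖ ≤ 1 + ∑ s, ‖((Matrix.of fun r s' => (u s' : ℂ → Fin q → ℂ) z (J r)).updateCol s
       (fun r => f z (J r))).det / (Matrix.of fun r s' => (u s' : ℂ → Fin q → ℂ) z (J r)).det‖) →
 ∃ C : ℝ, ∀ z ∈ G, ‖Φ z‖ ≤ C) := by
  intro H
  have hsum : ∀ (n : ℕ) (F : Fin n → P) (δ : ℝ), 0 < δ → ∃ C, 0 < C ∧ ∀ w i,
      ∑ m, ‖(F m : ℂ → Fin 2 → ℂ) w i‖ ≤ C * wt δ w i := by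
    intro n F δ hδ
    choose C hC hC' using fun m => (F m).2.2 δ hδ
    have h0 : 0 ≤ ∑ m, C m := Finset.sum_nonneg fun m _ => (hC m).le
    refine ⟨∑ m, C m + 1, by linarith, fun w i => ?_⟩
    have := wt_pos δ w i
    calc _ ≤ ∑ m, C m * wt δ w i := Finset.sum_le_sum fun m _ => hC' m w i
      _ = (∑ m, C m) * wt δ w i := by rw [Finset.sum_mul]
      _ ≤ _ := by gcongr; linarith
  obtain ⟨C, hC⟩ := H Set.univ isOpen_univ isConnected_univ 2 (by norm_num) P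
    (fun f hf => ⟨hf.1.differentiableOn, by simp⟩) poly_mem τ τ_t2 τ_group FB.continuousSMul
    (by
      intro V hV
      obtain ⟨δ, r, hδ, hr, h⟩ := mem_nhds.1 hV
      refine ⟨B δ r, B_mem hδ hr, h, fun x hx y hy t ht0 ht1 => ?_⟩
      have := add_mem_B (smul_mem_B hx (t : ℂ) (s := t * r) (by simp [abs_of_nonneg ht0]))
        (smul_mem_B hy ((1 - t : ℝ) : ℂ) (s := (1 - t) * r) (by
          rw [Complex.norm_real, Real.norm_eq_abs, abs_of_nonneg (by linarith)]))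
      rwa [show t * r + (1 - t) * r = r by ring] at this)
    (by
      intro p g hg
      letI := τ
      have := τ_group
      let g' : P →+ P := AddMonoidHom.mk' g (fun x y => by
        apply Subtype.ext
        simp only [hg, Submodule.coe_add]
        funext w
        simp)
      refine continuous_of_continuousAt_zero g' ?_
      rw [ContinuousAt, map_zero]
      intro V hV
      obtain ⟨δ, r, hδ, hr, h⟩ := mem_nhds.1 hV
      obtain ⟨C, hC, hC'⟩ := poly_est p δ hδ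
      rw [mem_map]
      filter_upwards [B_mem (δ := δ / 2) (r := r / C) (by positivity) (by positivity)] with x hx
      apply h
      intro z i
      have := hC' x _ hx z i
      rw [mul_div_cancel₀ _ hC.ne'] at this
      show ‖(g x : ℂ → Fin 2 → ℂ) z i‖ ≤ _
      rw [hg]; exact this)
    (by
      intro V hV
      obtain ⟨δ, r, hδ, hr, h⟩ := mem_nhds.1 hV
      obtain ⟨M, hM, hM'⟩ := div_est δ hδ
      refine ⟨B (δ / 2) (r / M), B_mem (by positivity) (by positivity), ?_⟩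
      intro c x hx g hg _ hxg
      have hg' : Differentiable ℂ g := differentiableOn_univ.1 hg
      have hgP : g ∈ P := by
        refine ⟨hg', fun δ' hδ' => ?_⟩
        obtain ⟨M', hM0, hM1⟩ := div_est δ' hδ'
        obtain ⟨C, hC, hC'⟩ := x.2.2 (δ' / 2) (by positivity)
        exact ⟨M' * C, by positivity, hM1 c x g hg' (fun w => hxg w trivial) C hC.le hC'⟩
      refine ⟨⟨g, hgP⟩, h fun z i => ?_, rfl⟩
      have := hM' c x g hg' (fun w => hxg w trivial) _ (by positivity) hx z i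
      rwa [mul_div_cancel₀ _ hM.ne'] at this)
    (by
      intro n F
      constructor
      · intro g hg _ hd
        refine ⟨differentiableOn_univ.1 hg, fun δ hδ => ?_⟩
        obtain ⟨C, hC, hC'⟩ := hsum n F δ hδ
        exact ⟨C, hC, fun z i => (hd z trivial i).trans (hC' z i)⟩
      · intro V hV
        obtain ⟨δ, r, hδ, hr, h⟩ := mem_nhds.1 hV
        obtain ⟨C, hC, hC'⟩ := hsum n F δ hδ
        refine ⟨C / r, by positivity, fun a ha x hx => ?_⟩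
        have ha0 : 0 < ‖a‖ := lt_of_lt_of_le (by positivity) ha
        refine ⟨a⁻¹ • x, h (smul_mem_B (r := C) (fun z i => (hx z trivial i).trans (hC' z i)) _ ?_),
          ?_⟩
        · rw [norm_inv, inv_mul_le_iff₀ ha0]
          rwa [div_le_iff₀ hr] at ha
        · rw [smul_inv_smul₀ (norm_pos_iff.1 ha0)])
    I (fun f hf => hf.1)
    (by
      intro p f hf
      refine ⟨poly_mem p f hf.1, fun i c => ?_⟩
      obtain ⟨k1, h1, h1'⟩ := hf.2 i c
      refine ⟨fun w => p.eval w * k1 w, (p.differentiable.analyticAt c).mul h1, ?_⟩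
      filter_upwards [h1'] with w e1
      simp only [Pi.smul_apply, smul_eq_mul, e1]; ring)
    (by
      intro f hf hloc
      refine ⟨hf, fun i c => ?_⟩
      obtain ⟨n, u, h, hu, hh, he⟩ := hloc c trivial
      choose k hk hk' using fun m => (hu m).2 i c
      refine ⟨fun w => ∑ m, h m w * k m w, Finset.analyticAt_fun_sum _ fun m _ => (hh m).mul (hk m), ?_⟩
      filter_upwards [he, eventually_all.2 hk'] with w e1 e2
      rw [e1, Finset.sum_apply, Finset.sum_mul]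
      refine Finset.sum_congr rfl fun m _ => ?_
      simp only [Pi.smul_apply, smul_eq_mul, e2 m]; ring)
    2
    ⟨0, trivial, gen, id, gen_mem, strictMono_id, fun h => by
      have := h.self_of_nhds
      simp [Matrix.det_fin_two, gen, T] at this⟩
    (by
      intro c _ r u J _ hJ _
      simpa using Fintype.card_le_of_injective J hJ.injective)
    ff ff_mem (B (1 / 4) 1) (B_mem (by norm_num) one_pos) (fun z => Complex.exp (z / 2))
    (by fun_prop)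
    (by
      intro z _ u J hu hI hJ hdet
      have hJ' : ∀ r, J r = r := by
        have h01 : J 0 < J 1 := hJ (by decide)
        intro r
        fin_cases r <;> (simp only [Fin.ext_iff, Fin.lt_def] at *; simp; omega)
      set A : Matrix (Fin 2) (Fin 2) ℂ := Matrix.of fun r s => (u s : ℂ → Fin 2 → ℂ) z (J r)
        with hA
      set b : Fin 2 → ℂ := fun r => ff z (J r) with hb
      have hs0 : 0 ≤ ∑ s, ‖(A.updateCol s b).det / A.det‖ :=
        Finset.sum_nonneg fun _ _ => norm_nonneg _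
      rw [Complex.norm_exp]
      simp only [Complex.div_ofNat_re]
      by_cases hz : z.re ≤ 0
      · have : Real.exp (z.re / 2) ≤ 1 := Real.exp_le_one_iff.2 (by linarith)
        linarith
      have hz := not_le.1 hz
      obtain ⟨i, hi1, hi2⟩ : ∃ i, |(ω i * z).im| ≤ (ω i * z).re ∧ z.re ≤ (ω i * z).re := by
        by_cases him : 0 ≤ z.im
        · refine ⟨0, ?_, ?_⟩
          · rw [abs_le]; simp [ω]; constructor <;> linarith
          · simp [ω]; linarith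
        · refine ⟨1, ?_, ?_⟩
          · rw [abs_le]; simp [ω]; constructor <;> linarith
          · simp [ω]; linarith
      have hcr := congrFun (Matrix.mulVec_cramer A b) i
      have hbi : b i = ∑ s, A i s * ((A.updateCol s b).det / A.det) := by
        simp only [Matrix.mulVec, dotProduct, Matrix.cramer_apply, Pi.smul_apply,
          smul_eq_mul] at hcr
        simp only [← mul_div_assoc, ← Finset.sum_div, hcr]
        field_simp
      have hE := Real.exp_pos ((ω i * z).re / 2)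
      have h1 : ‖b i‖ ≤ 32 * Real.exp ((ω i * z).re / 2) * ∑ s, ‖(A.updateCol s b).det / A.det‖ := by
        rw [hbi, Finset.mul_sum]
        refine (norm_sum_le _ _).trans (Finset.sum_le_sum fun s _ => ?_)
        rw [norm_mul]
        gcongr
        rw [hA, Matrix.of_apply, hJ']
        exact small _ (hu s) (hI s) z i hi1
      have h2 : ‖b i‖ = 32 * Real.exp ((ω i * z).re / 2) * Real.exp ((ω i * z).re / 2) := by
        rw [hb]
        simp only [hJ', ff, norm_mul, Complex.norm_exp, Complex.norm_ofNat]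
        rw [mul_assoc, ← Real.exp_add, add_halves]
      rw [h2] at h1
      have h3 := le_of_mul_le_mul_left h1 (by positivity)
      have h4 : Real.exp (z.re / 2) ≤ Real.exp ((ω i * z).re / 2) :=
        Real.exp_le_exp.2 (by linarith)
      linarith)
  have h1 := hC ((2 * C : ℝ) : ℂ) trivial
  rw [Complex.norm_exp] at h1
  simp only [Complex.div_ofNat_re, Complex.ofReal_re] at h1
  have := Real.add_one_le_exp (2 * C / 2)
  linarith

end Pool.Agent.S06628
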