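import Pool.Statements.S06629
-- import your own Pool.Agent.* helpers here

set_option autoImplicit false
open Pool Pool.MP_efaf6a_an

namespace Pool.Agent.S06629


lemma resid_ring (R : Type) [CommRing R] [Algebra (ZMod 2) R] [Algebra.FiniteType (ZMod 2) R]
    (a : R) (ha : a ≠ 0) : ∃ J : Ideal R, Finite (R ⧸ J) ∧ a ∉ J := by
  have hN : IsNoetherianRing R := Algebra.FiniteType.isNoetherianRing (ZMod 2) R
  set I : Ideal R := (Submodule.span R {a}).annihilator with hI
  have hI1 : I ≠ ⊤ := by
    intro h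
    have : (1 : R) ∈ I := by rw [h]; trivial
    rw [hI, Submodule.mem_annihilator_span_singleton] at this
    exact ha (by simpa using this)
  obtain ⟨m, hm, hIm⟩ := Ideal.exists_le_maximal I hI1
  have hfin : Finite (R ⧸ m) := by
    letI := Ideal.Quotient.field m
    have : Algebra.FiniteType (ZMod 2) (R ⧸ m) :=
      Algebra.FiniteType.of_surjective (Ideal.Quotient.mkₐ (ZMod 2) m)
        (Ideal.Quotient.mkₐ_surjective _ _)
    have := finite_of_finite_type_of_isJacobsonRing (ZMod 2) (R ⧸ m)
    exact Module.finite_of_finite (ZMod 2)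
  by_contra hcon
  push Not at hcon
  have h1 : a ∈ (⨅ i : ℕ, m ^ i • ⊤ : Submodule R R) := by
    rw [Submodule.mem_iInf]
    intro i
    have := hcon (m ^ i) (Ideal.finite_quotient_pow (IsNoetherian.noetherian m) i)
    simpa using this
  obtain ⟨r, hr⟩ := (m.mem_iInf_smul_pow_eq_bot_iff a).mp h1
  have h2 : (1 - (r : R)) ∈ I := by
    rw [hI, Submodule.mem_annihilator_span_singleton, sub_smul, one_smul, sub_eq_zero]
    exact hr.symm
  have h3 : (1 : R) ∈ m := by
    have := m.add_mem (hIm h2) r.2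
    simpa using this
  exact hm.ne_top ((Ideal.eq_top_iff_one m).mpr h3)

lemma resid_monoid (N : Type) [CommMonoid N] [Monoid.FG N] (F : Finset N) :
    ∃ (Q : Type) (_ : CommMonoid Q) (_ : Finite Q) (φ : N →* Q), Set.InjOn φ F := by
  classical
  have h : ∀ p : {p : F × F // p.1 ≠ p.2}, ∃ J : Ideal (MonoidAlgebra (ZMod 2) N),
      Finite (MonoidAlgebra (ZMod 2) N ⧸ J) ∧
      MonoidAlgebra.of (ZMod 2) N p.1.1 - MonoidAlgebra.of (ZMod 2) N p.1.2 ∉ J := by
    intro p
    apply resid_ring
    rw [sub_ne_zero]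
    intro h
    exact p.2 (Subtype.ext (MonoidAlgebra.of_injective h))
  choose J hJ1 hJ2 using h
  refine ⟨∀ p, MonoidAlgebra (ZMod 2) N ⧸ J p, inferInstance, inferInstance,
    MonoidHom.pi (fun p => (Ideal.Quotient.mk (J p)).toMonoidHom.comp (MonoidAlgebra.of (ZMod 2) N)),
    ?_⟩
  intro a ha b hb hab
  by_contra hne
  have := congrFun hab ⟨(⟨a, ha⟩, ⟨b, hb⟩), fun h => hne (congrArg Subtype.val h)⟩
  exact hJ2 _ (Ideal.Quotient.eq.mp this)

theorem result :
    ∀ (M : Type) [CommMonoid M] (A : Type) [Finite A] (S : Finset M) (μ : (S → A) → A),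
      Function.Injective (fun (x : M → A) (m : M) => μ (fun s : S => x (m * s.1))) →
      Function.Surjective (fun (x : M → A) (m : M) => μ (fun s : S => x (m * s.1))) := by
  intro M _ A _ S μ hinj
  classical
  letI : TopologicalSpace A := ⊥
  haveI : DiscreteTopology A := ⟨rfl⟩
  set τ := fun (x : M → A) (m : M) => μ (fun s : S => x (m * s.1)) with hτ
  have hcont : ∀ m, Continuous (fun x => τ x m) := by
    intro m
    apply (continuous_of_discreteTopology (f := μ)).comp
    fun_prop
  obtain ⟨T, hT⟩ : ∃ T : Finset M, ∀ x y : M → A, (∀ t ∈ T, τ x t = τ y t) → x 1 = y 1 := by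
    have hK : IsCompact {p : (M → A) × (M → A) | p.1 1 ≠ p.2 1} := by
      apply IsClosed.isCompact
      have : Continuous (fun p : (M → A) × (M → A) => (p.1 1, p.2 1)) := by fun_prop
      exact (isClosed_discrete {q : A × A | q.1 ≠ q.2}).preimage this
    obtain ⟨T, hT⟩ := hK.elim_finite_subfamily_closed
      (fun m : M => {p : (M → A) × (M → A) | τ p.1 m = τ p.2 m})
      (fun m => isClosed_eq ((hcont m).comp continuous_fst) ((hcont m).comp continuous_snd)) (by
        rw [Set.eq_empty_iff_forall_notMem]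
        rintro p ⟨hp1, hp2⟩
        rw [Set.mem_iInter] at hp2
        have : p.1 = p.2 := hinj (funext hp2)
        exact hp1 (by rw [this]))
    refine ⟨T, fun x y h => ?_⟩
    by_contra hne
    have : (x, y) ∈ {p : (M → A) × (M → A) | p.1 1 ≠ p.2 1} ∩
        ⋂ m ∈ T, {p : (M → A) × (M → A) | τ p.1 m = τ p.2 m} := by
      refine ⟨hne, ?_⟩
      rw [Set.mem_iInter₂]
      exact h
    rw [hT] at this
    exact this
  intro w
  have hloc : ∀ F : Finset M, ∃ x : M → A, ∀ f ∈ F, τ x f = w f := by
    intro F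
    set N : Submonoid M := Submonoid.closure ((F ∪ S ∪ T : Finset M) : Set M) with hN
    have hF : ∀ f ∈ F, f ∈ N := fun f hf => Submonoid.subset_closure (by simp [hf])
    have hS : ∀ s ∈ S, s ∈ N := fun f hf => Submonoid.subset_closure (by simp [hf])
    have hTN : ∀ s ∈ T, s ∈ N := fun f hf => Submonoid.subset_closure (by simp [hf])
    haveI : Monoid.FG N := (Monoid.fg_iff_submonoid_fg N).mpr ⟨_, rfl⟩
    obtain ⟨Q, _, _, φ, hφ⟩ := resid_monoid N (F.subtype (fun m => m ∈ N))
    set τQ : (Q → A) → Q → A := fun z q => μ (fun s : S => z (q * φ ⟨s.1, hS s.1 s.2⟩)) with hτQ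
    set lift : (Q → A) → Q → M → A := fun z q m => if h : m ∈ N then z (q * φ ⟨m, h⟩) else w 1
      with hlift
    have hl : ∀ z q (m : M) (hm : m ∈ N), τ (lift z q) m = τQ z (q * φ ⟨m, hm⟩) := by
      intro z q m hm
      simp only [hτ, hτQ, hlift]
      congr 1
      funext s
      rw [dif_pos (N.mul_mem hm (hS s.1 s.2)), mul_assoc, ← map_mul]
      rfl
    have hQinj : Function.Injective τQ := by
      intro z z' hz
      funext q
      have := hT (lift z q) (lift z' q) (fun t ht => by rw [hl z q t (hTN t ht), hl z' q t (hTN t ht), hz])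
      simp only [hlift, dif_pos N.one_mem] at this
      have e : (⟨1, N.one_mem⟩ : N) = 1 := rfl
      rwa [e, map_one, mul_one] at this
    have hQsurj : Function.Surjective τQ := Finite.surjective_of_injective hQinj
    obtain ⟨z, hz⟩ := hQsurj (fun q => if h : ∃ f : N, f.1 ∈ F ∧ φ f = q then w h.choose.1 else w 1)
    refine ⟨lift z 1, fun f hf => ?_⟩
    rw [hl z 1 f (hF f hf), hz, one_mul]
    have hex : ∃ g : N, g.1 ∈ F ∧ φ g = φ ⟨f, hF f hf⟩ := ⟨⟨f, hF f hf⟩, hf, rfl⟩
    simp only [dif_pos hex]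
    have := hφ (by simpa using hex.choose_spec.1) (by simpa using hf) hex.choose_spec.2
    rw [this]
  by_contra hcon
  push Not at hcon
  obtain ⟨F, hF⟩ := isCompact_univ.elim_finite_subfamily_closed
    (fun m : M => {x : M → A | τ x m = w m})
    (fun m => isClosed_eq (hcont m) continuous_const) (by
      rw [Set.eq_empty_iff_forall_notMem]
      rintro x ⟨-, hx⟩
      rw [Set.mem_iInter] at hx
      exact hcon x (funext hx))
  obtain ⟨x, hx⟩ := hloc F
  have : x ∈ Set.univ ∩ ⋂ m ∈ F, {x : M → A | τ x m = w m} := by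
    refine ⟨trivial, ?_⟩
    rw [Set.mem_iInter₂]
    exact hx
  rw [hF] at this
  exact this

end Pool.Agent.S06629
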