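import Pool.Statements.S06646
-- import your own Pool.Agent.* helpers here
import Pool.Agent.H.MP_f04b5a_an.A

set_option autoImplicit false
open Pool Pool.MP_f04b5a_an

namespace Pool.Agent.S06646

theorem result :
    ¬ (∀ α : ℝ, 0 < α → α ≤ 1 / (1 + Real.exp Real.pi) →
      ∃ N : ℕ, ∀ f g : ℂ → ℂ,
        (DifferentiableOn ℂ f (Metric.ball (0 : ℂ) 1) ∧ Set.InjOn f (Metric.ball (0 : ℂ) 1) ∧
          f 0 = 0 ∧ deriv f 0 = 1) →
        (DifferentiableOn ℂ g (Metric.ball (0 : ℂ) 1) ∧ Set.InjOn g (Metric.ball (0 : ℂ) 1) ∧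
          g 0 = 0 ∧ deriv g 0 = 1) →
        ∀ w : ℂ,
          {z : ℂ | z ∈ Metric.ball (0 : ℂ) 1 ∧
              (α : ℂ) * f z + (1 - (α : ℂ)) * g z = w}.encard ≤ (N : ℕ∞)) := by
  intro h
  have e := Real.add_one_le_exp Real.pi
  have e0 : 0 < 1 / (1 + Real.exp Real.pi) := by positivity
  obtain ⟨N, hN⟩ := h _ e0 le_rfl
  obtain ⟨f, g, h1, h2, w, h3⟩ := Pool.Agent.H.MP_f04b5a_an.arith e0
    (one_div_le_one_div_of_le (by norm_num) (by linarith [Real.pi_gt_three]))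
  have := hN f g h1 h2 w
  rw [h3.encard_eq] at this
  exact ENat.coe_ne_top N (top_le_iff.mp this)

end Pool.Agent.S06646
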