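import Pool.Statements.S06658
-- import your own Pool.Agent.* helpers here
import Pool.Agent.H.MP_826cdb_an.B

set_option autoImplicit false
open Pool Pool.MP_f1354d_an

namespace Pool.Agent.S06658

theorem result :
    ¬ (∀ (X : Type) [NormedAddCommGroup X] [NormedSpace ℝ X] [CompleteSpace X]
      (A : X → Set (X →L[ℝ] ℝ)),
      ((∀ x y : X, ∀ xs ∈ A x, ∀ ys ∈ A y, 0 ≤ (xs - ys) (x - y)) ∧
        (∀ (x : X) (xs : X →L[ℝ] ℝ),
          (∀ y : X, ∀ ys ∈ A y, 0 ≤ (xs - ys) (x - y)) → xs ∈ A x)) →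
      ∀ U : Set X, IsOpen U → Convex ℝ U → (∃ y ∈ U, (A y).Nonempty) →
        ∀ x ∈ U, ∀ xs : X →L[ℝ] ℝ,
          (∀ y ∈ U, ∀ ys ∈ A y, 0 ≤ (xs - ys) (x - y)) → xs ∈ A x) := by
  obtain ⟨X, _, _, _, G, l, z, κ, hm, hx, hz, hκ, ⟨a, ha, ha0⟩, ⟨b, hb, hb1⟩, hG⟩ :=
    Pool.Agent.H.MP_826cdb_an.ex1
  have hn : ∀ f, (z, f) ∉ G := fun f hf => by
    rcases hG _ hf with h | h <;> linarith [h.1]
  intro h
  refine hn 0 (h X (fun x => {f | (x, f) ∈ G}) ⟨fun x y f hf g hg => hm _ hf _ hg,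
    fun x f hf => hx _ fun q hq => hf _ _ hq⟩ {x | l x < 1}
    (isOpen_lt l.continuous continuous_const) (convex_halfSpace_lt l.toLinearMap.isLinear 1)
    ⟨a.1, by show l _ < 1; linarith, a.2, ha⟩ z (by show l _ < 1; linarith) 0 fun y hy g hg => ?_)
  rcases hG _ hg with h1 | h1
  · simpa using h1.2
  · exact absurd h1.1 (ne_of_lt hy)

end Pool.Agent.S06658
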