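import Pool.Statements.S06672
import Pool.Agent.H.MP_f23f32_an.A

set_option autoImplicit false
open Pool Pool.MP_f23f32_an

namespace Pool.Agent.S06672

theorem result :
    ¬ (∀ (H : Type) [NormedAddCommGroup H] [InnerProductSpace ℂ H] [CompleteSpace H]
      (M A : VonNeumannAlgebra H), A ≤ M →
      (∀ x ∈ M, (∀ a ∈ A, a * x = x * a) → x ∈ A) →
      ∀ ψ : (H →L[ℂ] H) →ₗ[ℂ] (H →L[ℂ] H),
        (∀ x ∈ M, ψ x ∈ M) →
        (∀ x ∈ M, ‖ψ x‖ ≤ ‖x‖) →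
        (∀ x ∈ M, ψ (ψ x) = ψ x) →
        (∀ a ∈ A, ∀ x ∈ M,
          a * ψ x ∈ ψ '' (M : Set (H →L[ℂ] H)) ∧ ψ x * a ∈ ψ '' (M : Set (H →L[ℂ] H))) →
        ∀ x ∈ M, ∀ y ∈ M, ∀ z ∈ M,
          (1 / 2 : ℂ) • (ψ x * star (ψ y) * ψ z + ψ z * star (ψ y) * ψ x)
            ∈ ψ '' (M : Set (H →L[ℂ] H))) := by
  intro h
  open Pool.Agent.H.MP_f23f32_an in
  exact (by
    obtain ⟨ψ, h1, h2, h3, x, h4⟩ := main
    have hM : ∀ z, z ∈ vn ∅ := fun z => mem_vn.2 fun _ hg => hg.elim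
    have hu : ∀ n, u n ∈ vn (Set.range u) := fun n => mem_vn.2 (by
      rintro _ ⟨m, rfl⟩
      simp only [u_star, u_mul, add_comm, and_self])
    obtain ⟨y, -, hy⟩ := h H (vn ∅) (vn (Set.range u)) (fun z _ => hM z)
      (fun z _ hz => mem_vn.2 (by
        rintro _ ⟨n, rfl⟩
        exact ⟨hz _ (hu n), hz _ (star_mem (hu n))⟩)) ψ
      (fun _ _ => hM _) (fun z _ => h1 z) (fun z _ => h2 z) (fun a ha z _ => by
        have := h3 a (fun n => (mem_vn.1 ha _ ⟨n, rfl⟩).1)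
          (fun n => (mem_vn.1 (star_mem ha) _ ⟨n, rfl⟩).1) z
        exact ⟨⟨_, hM _, this.1.symm⟩, ⟨_, hM _, this.2.symm⟩⟩) x (hM _) x (hM _) 1 (hM _)
    exact h4 y hy.symm)

end Pool.Agent.S06672
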