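import Pool.Statements.S06680
import Pool.Agent.H.MP_f2c841_an.D

set_option autoImplicit false
open MeasureTheory Filter Topology
open Pool Pool.MP_f2c841_an

namespace Pool.Agent.S06680

theorem result :
    ¬ (∀ (X : Type) [MeasurableSpace X] (μ : Measure X) [IsProbabilityMeasure μ]
      (e : X ≃ᵐ X),
      MeasurePreserving (⇑e) μ μ →
      (∀ A B : Set X, MeasurableSet A → MeasurableSet B →
        Tendsto (fun N : ℕ => (N : ℝ)⁻¹ *
          ∑ n ∈ Finset.range N,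
            |μ.real ((⇑e)^[n] ⁻¹' A ∩ B) - μ.real A * μ.real B|)
          atTop (𝓝 0)) →
      ∀ A : Set X, MeasurableSet A → 0 < μ A →
        ∃ n k : ℕ, 1 ≤ n ∧ 1 ≤ k ∧ 0 < μ (A ∩ (⇑e)^[2 ^ n * 3 ^ k] ⁻¹' A)) := by
  intro h
  obtain ⟨ν, hν, h1, h2, A, hA, hA0, h3⟩ := Pool.Agent.H.MP_f2c841_an.main
  obtain ⟨n, k, hn, hk, h4⟩ := h _ ν _ h1 h2 A hA hA0
  rw [h3 n k hn hk, measure_empty] at h4
  exact lt_irrefl _ h4

end Pool.Agent.S06680
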