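import Pool.Statements.S06682
import Pool.Agent.H.MP_f2ff95_an.B

set_option autoImplicit false
open MeasureTheory
open Pool Pool.MP_f2ff95_an

namespace Pool.Agent.S06682

open Set Filter Topology Metric Real Pool.Agent.H.MP_f2ff95_an

lemma meas {f : ℝ → ℝ} (hf : Continuous f) {c : ℝ} (h0 : f 0 < c) (h1 : c < f π) :
    0 < volume {θ | θ ∈ Ico 0 (2 * π) ∧ f θ < c} ∧
      volume {θ | θ ∈ Ico 0 (2 * π) ∧ f θ < c} < ENNReal.ofReal (2 * π) := by
  have p := pi_pos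
  constructor
  · have : ∀ᶠ θ in 𝓝[>] (0 : ℝ), θ ∈ Ioo 0 (2 * π) ∩ {θ | f θ < c} :=
      inter_mem (Ioo_mem_nhdsGT (by positivity))
        ((hf.continuousAt.eventually (gt_mem_nhds h0)).filter_mono nhdsWithin_le_nhds)
    exact ((isOpen_Ioo.inter (isOpen_lt hf continuous_const)).measure_pos volume this.exists).trans_le
      (measure_mono fun θ h => ⟨Ioo_subset_Ico_self h.1, h.2⟩)
  · have o := isOpen_Ioo (a := 0) (b := 2 * π) |>.inter (isOpen_lt (continuous_const (y := c)) hf)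
    have a := o.measure_pos volume ⟨π, ⟨p, by linarith⟩, h1⟩
    have b : volume (Ico 0 (2 * π)) = ENNReal.ofReal (2 * π) := by simp
    rw [← b]
    refine lt_of_le_of_lt (measure_mono (t := Ico 0 (2 * π) \ (Ioo 0 (2 * π) ∩ {θ | c < f θ}))
      fun θ h => ⟨h.1, fun k => lt_asymm h.2 k.2⟩) ?_
    have s : Ioo 0 (2 * π) ∩ {θ | c < f θ} ⊆ Ico 0 (2 * π) := fun θ h => Ioo_subset_Ico_self h.1
    have fin : volume (Ico 0 (2 * π)) ≠ ⊤ := b ▸ ENNReal.ofReal_ne_top
    rw [measure_sdiff s o.measurableSet.nullMeasurableSet (measure_ne_top_of_subset s fin)]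
    exact ENNReal.sub_lt_self fin (by simp [p]) a.ne'

theorem result :
    ¬ (∀ (E : Set ℝ), E ⊆ Set.Ico 0 1 →
    (∃ S : Finset (Set ℝ), (∀ I ∈ S, I.OrdConnected) ∧ E = ⋃₀ (S : Set (Set ℝ))) →
    ∀ (F : Set ℂ), F = closure ((fun x : ℝ => (x : ℂ)) '' E) →
    ∀ (uE : ℂ → ℝ),
      ContDiffOn ℝ 2 uE (Metric.ball (0 : ℂ) 1 \ F) →
      (∀ z ∈ Metric.ball (0 : ℂ) 1 \ F,
        iteratedFDeriv ℝ 2 uE z ![(1 : ℂ), 1]
          + iteratedFDeriv ℝ 2 uE z ![Complex.I, Complex.I] = 0) →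
      (∃ M : ℝ, ∀ z ∈ Metric.ball (0 : ℂ) 1, |uE z| ≤ M) →
      (∀ z ∈ Metric.ball (0 : ℂ) 1 ∩ F, uE z = -1) →
      (∀ ζ ∈ Metric.ball (0 : ℂ) 1 ∩ F,
        Filter.Tendsto uE (nhdsWithin ζ (Metric.ball (0 : ℂ) 1 \ F)) (nhds (-1))) →
      (∀ ζ : ℂ, ‖ζ‖ = 1 → ζ ∉ F →
        Filter.Tendsto uE (nhdsWithin ζ (Metric.ball (0 : ℂ) 1 \ F)) (nhds 0)) →
      ∀ r K : ℝ, 0 < r → r < 1 → 0 < K → K < 1 →
      0 < volume {θ : ℝ | θ ∈ Set.Ico 0 (2 * Real.pi) ∧
            uE ((r : ℂ) * Complex.exp ((θ : ℂ) * Complex.I)) < -K} →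
      volume {θ : ℝ | θ ∈ Set.Ico 0 (2 * Real.pi) ∧
            uE ((r : ℂ) * Complex.exp ((θ : ℂ) * Complex.I)) < -K}
          < ENNReal.ofReal (2 * Real.pi) →
      ∀ u : ℂ → EReal,
        UpperSemicontinuousOn u (Metric.ball (0 : ℂ) 1) →
        (∃ z ∈ Metric.ball (0 : ℂ) 1, u z ≠ ⊥) →
        (∀ z ∈ Metric.ball (0 : ℂ) 1, ∃ ε : ℝ, 0 < ε ∧ ∀ ρ : ℝ, 0 < ρ → ρ < ε →
          u z ≤ -((((ENNReal.ofReal (2 * Real.pi))⁻¹ *
            ∫⁻ θ in Set.Ioc 0 (2 * Real.pi),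
              (-u (z + (ρ : ℂ) * Complex.exp ((θ : ℂ) * Complex.I))).toENNReal) : ENNReal) : EReal)) →
        (∀ z ∈ Metric.ball (0 : ℂ) 1, u z ≤ 0) →
        (∀ t ∈ E, (⨅ z ∈ Metric.sphere (0 : ℂ) t, u z) ≤ (-1 : EReal)) →
        volume {θ : ℝ | θ ∈ Set.Ico 0 (2 * Real.pi) ∧
            uE ((r : ℂ) * Complex.exp ((θ : ℂ) * Complex.I)) < -K}
          ≤ volume {θ : ℝ | θ ∈ Set.Ico 0 (2 * Real.pi) ∧
            u ((r : ℂ) * Complex.exp ((θ : ℂ) * Complex.I)) < (((-K : ℝ)) : EReal)} ∧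
        (volume {θ : ℝ | θ ∈ Set.Ico 0 (2 * Real.pi) ∧
            u ((r : ℂ) * Complex.exp ((θ : ℂ) * Complex.I)) < (((-K : ℝ)) : EReal)}
          = volume {θ : ℝ | θ ∈ Set.Ico 0 (2 * Real.pi) ∧
            uE ((r : ℂ) * Complex.exp ((θ : ℂ) * Complex.I)) < -K} →
          ∃ α : ℝ, ∀ z ∈ Metric.ball (0 : ℂ) 1,
            u z = ((uE (Complex.exp ((α : ℂ) * Complex.I) * z) : ℝ) : EReal))) := by
  intro H
  have e0 := ε0
  have e1 := ε1
  have e2 : ε ^ 2 ≤ 1 / 100 := by nlinarith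
  have e3 : 0 < ε ^ 2 := by positivity
  have p := pi_gt_three
  set a := (1 - 3 * ε ^ 2) / 2 with ha
  set r := a - ε ^ 2 / 40 with hr
  have a0 : 0 < a := by linarith
  have a1 : a < 1 := by linarith
  have r0 : 0 < r := by linarith
  have r1 : r < 1 := by linarith
  have nr (θ : ℝ) : ‖(r : ℂ) * Complex.exp (θ * Complex.I)‖ = r := by simp [r0.le]
  have hm := meas (f := fun θ : ℝ => uE a (r * Complex.exp (θ * Complex.I))) (c := -(1 - 3 / 10 * ε))
    (continuous_iff_continuousAt.2 fun θ =>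
      ContinuousAt.comp (f := fun θ : ℝ => (r : ℂ) * Complex.exp (θ * Complex.I))
        (uEc a0 a1 (by rw [nr]; exact r1)) (by fun_prop)) ?_ ?_
  have := (H (Ico a 1) (Ico_subset_Ico_left a0.le) ⟨{Ico a 1}, by simp [ordConnected_Ico], by simp⟩
    ((↑) '' Icc a 1) (by rw [Complex.isometry_ofReal.isClosedEmbedding.closure_image_eq, closure_Ico a1.ne])
    (uE a) (fun z hz => (uEh a0 a1 hz).1.contDiffWithinAt) (fun z hz => ?_) ⟨2, fun z _ => uEb z⟩ ?_ ?_
    (fun ζ => uEl a0 a1) r (1 - 3 / 10 * ε) r0 r1 (by linarith) (by linarith) hm.1 hm.2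
    (fun z => (U κ ((1 + ε ^ 2) / 2) z - 1 : ℝ)) ?_ ⟨0, by simp, EReal.coe_ne_bot _⟩
    (fun z hz => sub (Uc _ _) (fun z => mul_nonneg (by linarith [κb.1]) posLog_nonneg)
      (fun z => U1 (by linarith [κb.1]) (by linarith) (by linarith)) Uh hz)
    (fun z hz => EReal.coe_nonpos.2 (sub_nonpos.2 (U1 (by linarith [κb.1]) (by linarith) (by linarith) hz)))
    fun t ht => ?_).1
  · refine absurd (hm.1.trans_le this) (not_lt.2 (le_of_eq (measure_mono_null (t := ∅) ?_ measure_empty)))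
    rintro θ ⟨-, h⟩
    rw [EReal.coe_lt_coe_iff, U] at h
    generalize (r : ℂ) * Complex.exp (θ * Complex.I) = z, nr θ = hz at h
    have := Glow (ζ := ((1 + ε ^ 2) / 2 : ℝ) - z) ((norm_sub_le _ _).trans (by
      rw [hz, Complex.norm_real, norm_of_nonneg (by positivity)]; linarith)) (by
      rw [Complex.sub_re, Complex.ofReal_re]; linarith [Complex.re_le_norm z]) (by
      have := norm_sub_norm_le (((1 + ε ^ 2) / 2 - 1 : ℝ) : ℂ) z
      rw [hz, Complex.norm_real, norm_of_nonpos (by linarith), Complex.ofReal_sub, sub_right_comm] at this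
      exact le_trans (by linarith) this)
    have := mul_le_mul_of_nonneg_left (le_max_right 0 (log (G κ (((1 + ε ^ 2) / 2 : ℝ) - z))))
      (show 0 ≤ κ by linarith [κb.1])
    rw [posLog_apply] at h
    linarith
  · have := (uEh a0 a1 hz).2.self_of_nhds
    rwa [InnerProductSpace.laplacian_eq_iteratedFDeriv_complexPlane] at this
  · rintro _ ⟨-, x, hx, rfl⟩
    exact uEs a0 a1 hx
  · rintro _ ⟨h, x, hx, rfl⟩
    exact uEs a0 a1 hx ▸ (uEc a0 a1 (by simpa using h)).tendsto.mono_left nhdsWithin_le_nhds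
  · exact (Continuous.upperSemicontinuous (continuous_coe_real_ereal.comp
      ((Uc _ _).sub continuous_const))).upperSemicontinuousOn _
  · have t0 : 0 ≤ t := a0.le.trans ht.1
    have key (x : ℝ) (hx : |x| = t) (g : G κ ((1 + ε ^ 2) / 2 - x : ℝ) ≤ 1) :
        (⨅ z ∈ sphere (0 : ℂ) t, ((U κ ((1 + ε ^ 2) / 2) z - 1 : ℝ) : EReal)) ≤ -1 := by
      refine (iInf₂_le (x : ℂ) (by simpa using hx)).trans ?_
      rw [U, ← Complex.ofReal_sub, (posLog_eq_zero_iff _).2 (by rwa [abs_of_nonneg (G0 _ _)])]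
      simp
    rcases le_total t ((1 + ε ^ 2) / 2) with c | c
    · exact key (-t) (by simp [t0]) (Gz (abs_le.2 ⟨by linarith [ht.1], by linarith⟩))
    · refine key t (abs_of_nonneg t0) ?_
      have c' := sub_nonpos.2 c
      rw [G, Yneg c', ← Complex.ofReal_one, ← Complex.ofReal_sub, Complex.norm_real, Complex.norm_real,
        norm_of_nonpos c', norm_of_nonpos (by linarith), zero_div, exp_zero, one_mul,
        div_le_one (by linarith)]
      linarith
  · simp only [Complex.ofReal_zero, zero_mul, Complex.exp_zero, mul_one]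
    rw [uEx a0 a1 (by linarith)]
    have d : 3 / 4 ≤ 1 - a * r := by nlinarith
    have s0 : 0 ≤ (a - r) / (1 - a * r) := div_nonneg (by linarith) (by linarith)
    have s1 : (a - r) / (1 - a * r) ≤ ε ^ 2 / 30 := by rw [div_le_iff₀ (by linarith)]; nlinarith
    have s2 : √((a - r) / (1 - a * r)) ≤ ε / 5 := sqrt_le_iff.2 ⟨by positivity, by nlinarith⟩
    have s3 : 2 * √((a - r) / (1 - a * r)) / (1 - (a - r) / (1 - a * r)) ≤ 41 / 100 * ε := by
      rw [div_le_iff₀ (by linarith)]; nlinarith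
    have s4 := (arctan_strictMono.monotone s3).trans 
      ((le_tan (arctan_nonneg.2 (by positivity)) (arctan_lt_pi_div_two _)).trans_eq (tan_arctan _))
    have s5 : 2 / π ≤ 2 / 3 := by gcongr
    have := (mul_le_mul_of_nonneg_left s4 (show 0 ≤ 2 / π by positivity)).trans
      (mul_le_mul_of_nonneg_right s5 (by positivity))
    linarith
  · simp only [Complex.exp_pi_mul_I, mul_neg, mul_one]
    rw [← Complex.ofReal_neg, uEx a0 a1 (by linarith)]
    have d : 0 < 1 - a * -r := by nlinarith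
    have s0 : 1 / 4 ≤ (a - -r) / (1 - a * -r) := by rw [le_div_iff₀ d]; nlinarith
    have s1 : (a - -r) / (1 - a * -r) < 1 := by rw [div_lt_one d]; nlinarith
    have s2 : 1 / 2 ≤ √((a - -r) / (1 - a * -r)) := le_sqrt_of_sq_le (by linarith)
    have s3 : 1 ≤ 2 * √((a - -r) / (1 - a * -r)) / (1 - (a - -r) / (1 - a * -r)) := by
      rw [le_div_iff₀ (by linarith)]; linarith
    have := mul_le_mul_of_nonneg_left (arctan_strictMono.monotone s3) (show 0 ≤ 2 / π by positivity)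
    rw [arctan_one, show 2 / π * (π / 4) = 1 / 2 by field_simp; norm_num] at this
    linarith

end Pool.Agent.S06682
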