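import Pool.Statements.S06683
import Pool.Agent.H.MP_f310b7_an.Dd
import Pool.Agent.H.MP_f310b7_an.M

set_option autoImplicit false
open Pool Pool.MP_f310b7_an

namespace Pool.Agent.S06683

theorem result :
    sInf ((fun v : Fin 5 → (Fin 4 → ℝ) =>
        sInf {σ : ℝ | 1 ≤ σ ∧ Set.Icc (0 : Fin 4 → ℝ) 1 ⊆
          (AffineMap.homothety ((5 : ℝ)⁻¹ • ∑ j, v j) σ) '' convexHull ℝ (Set.range v)}) ''
        {v : Fin 5 → (Fin 4 → ℝ) | AffineIndependent ℝ v ∧ ∀ j, v j ∈ Set.Icc (0 : Fin 4 → ℝ) 1})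
    < (5 / 2 : ℝ) *
        (sInf ((fun v : Fin 5 → (Fin 4 → ℝ) =>
            sSup {t : ℝ | ∃ f : (Fin 4 → ℝ) → ℝ, ContinuousOn f (Set.Icc (0 : Fin 4 → ℝ) 1) ∧
              (∀ y ∈ Set.Icc (0 : Fin 4 → ℝ) 1, |f y| ≤ 1) ∧
              ∃ x ∈ Set.Icc (0 : Fin 4 → ℝ) 1, ∃ l : Fin 5 → ℝ,
                ∑ j, l j = 1 ∧ ∑ j, l j • v j = x ∧ t = |∑ j, f (v j) * l j|}) ''
            {v : Fin 5 → (Fin 4 → ℝ) | AffineIndependent ℝ v ∧ ∀ j, v j ∈ Set.Icc (0 : Fin 4 → ℝ) 1})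
          - 1) + 1 := by
  have hv : H.MP_f310b7_an.v0 ∈ {v : Fin 5 → (Fin 4 → ℝ) | AffineIndependent ℝ v ∧
      ∀ j, v j ∈ Set.Icc (0 : Fin 4 → ℝ) 1} := ⟨H.MP_f310b7_an.v0_ind, H.MP_f310b7_an.v0_mem⟩
  refine lt_of_le_of_lt (b := 14393 / 3498) ?_ (lt_of_lt_of_le (b := 5 / 2 * (137 / 61 - 1) + 1)
    (by norm_num) ?_)
  · refine le_trans (csInf_le ⟨0, ?_⟩ ⟨_, hv, rfl⟩) (csInf_le ⟨1, fun σ h => h.1⟩
      ⟨by norm_num, H.MP_f310b7_an.v0_cov⟩)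
    rintro _ ⟨v, -, rfl⟩
    exact Real.sInf_nonneg fun σ h => le_trans zero_le_one h.1
  · gcongr
    refine le_csInf ⟨_, _, hv, rfl⟩ ?_
    rintro _ ⟨v, h, rfl⟩
    exact H.MP_f310b7_an.theta (fun _ _ => H.MP_f310b7_an.no_sol) v h.1 h.2

end Pool.Agent.S06683
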