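import Pool.Statements.S06696
import Pool.Agent.H.MP_fc6e23_an.G

set_option autoImplicit false
open scoped NNReal ENNReal
open Pool Pool.MP_f41f1b_an

namespace Pool.Agent.S06696

open Pool.Agent.H.MP_fc6e23_an

theorem result :
    ¬ (∀ (H : Type) [NormedAddCommGroup H] [InnerProductSpace ℂ H] [CompleteSpace H]
      (b : HilbertBasis ℕ ℂ H) (Q : ℝ → (H →L[ℂ] H) → ℝ≥0∞),
      (∀ (r : ℝ) (x : H →L[ℂ] H),
        Q r x = ∑' n : ℕ, ENNReal.ofReal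
          (inner ℂ (b n) ((cfc (fun t : ℝ => t ^ (r / 2)) (star x * x)) (b n))).re) →
      ∀ p : ℝ, 1 < p →
      ∀ T : (H →L[ℂ] H) →ₗ[ℂ] (H →L[ℂ] H),
        (∀ x, Q p x < ⊤ → Q p (T x) < ⊤) →
        (∃ C : ℝ≥0, ∀ x, Q p x < ⊤ → Q p (T x) ≤ (C : ℝ≥0∞) * Q p x) →
        (∀ x, Q p x < ⊤ → Q 1 x < ⊤ → Q 1 (T x) ≤ Q 1 x) →
        (∀ x, Q p x < ⊤ → ‖T x‖ ≤ ‖x‖) →
        ∃ J P U : (H →L[ℂ] H) →ₗ[ℂ] (H →L[ℂ] H),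
          (∀ x, Q p x < ⊤ → Q p (J x) = Q p x) ∧
          (∀ y, Q p y < ⊤ → ∃ x, Q p x < ⊤ ∧ P y = J x) ∧
          (∀ x, Q p x < ⊤ → P (J x) = J x) ∧
          (∀ y, Q p y < ⊤ → Q p (P y) ≤ Q p y) ∧
          (∀ x, Q p x < ⊤ → Q p (U x) = Q p x) ∧
          (∀ n : ℕ, ∀ x, Q p x < ⊤ → P ((U ^ n) (J x)) = J ((T ^ n) x))) := by
  intro h
  obtain ⟨T, a1, a2, a3, a4⟩ := nd (default : HilbertBasis ℕ ℂ (lp (fun _ : ℕ => ℂ) 2))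
  exact a4 (h _ default _ (fun _ _ => rfl) 4 (by norm_num) T (fun x hx => (a1 x).trans_lt hx)
    ⟨1, fun x _ => (a1 x).trans_eq (by rw [ENNReal.coe_one, one_mul]; rfl)⟩ (fun x _ _ => a2 x)
    fun x _ => a3 x)

end Pool.Agent.S06696
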