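import Pool.Statements.S06702
import Pool.Agent.H.MP_f44585_an.D

set_option autoImplicit false
open Pool Pool.MP_f44585_an

namespace Pool.Agent.S06702

theorem result :
    ¬ (∀ D : ℕ → ℝ → Prop,
    (∀ (r : ℕ) (y : ℝ), D r y ↔
      ∀ ε : ℝ, 0 < ε → ∃ k : ℕ, 1 ≤ k ∧ ∃ N₀ : ℕ, ∀ N : ℕ, N₀ ≤ N →
        ∑ w : Fin k → Fin r,
          Real.negMulLog
            ((((Finset.range N).filter (fun n => ∀ i : Fin k,
                ⌊y * (r : ℝ) ^ (n + (i : ℕ) + 1)⌋ - (r : ℤ) * ⌊y * (r : ℝ) ^ (n + (i : ℕ))⌋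
                  = ((w i : ℕ) : ℤ))).card : ℝ) / (N : ℝ))
          ≤ ε * (k : ℝ)) →
    ∀ r : ℕ, 2 ≤ r → ∃ b : ℝ, Irrational b ∧ ∀ y : ℝ, D r y → D r (b * y)) := by
  intro G
  obtain ⟨b, hb, h⟩ := G _ (fun _ _ => Iff.rfl) 2 le_rfl
  obtain ⟨d, h1, h2⟩ := H.MP_f44585_an.main (r := 2) le_rfl (F := fun y => b * y) (F' := fun _ => b)
    (fun y _ => by simpa using (hasStrictDerivAt_id y).const_mul b) (by simp [hb])
  have e (y : ℝ) (m : ℕ) : ⌊y * ((2 : ℕ) : ℝ) ^ (m + 1)⌋ - (2 : ℕ) * ⌊y * ((2 : ℕ) : ℝ) ^ m⌋ =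
      ⌊y * ((2 : ℕ) : ℝ) ^ (m + 1)⌋ % (2 : ℕ) := by
    rw [Int.emod_def, ← Int.floor_div_natCast, pow_succ, ← mul_assoc, mul_div_cancel_right₀ _ (by simp)]
  simp only [e] at h
  obtain ⟨k, k1, N, hN⟩ := h _ (fun ε hε => ⟨1, le_rfl, by
    simpa using Filter.eventually_atTop.1 ((H.MP_f44585_an.det le_rfl 0 h1).eventually
      (ge_mem_nhds hε))⟩) (1 / 2) one_half_pos
  have := le_of_tendsto (H.MP_f44585_an.ent le_rfl h2 k) (Filter.eventually_atTop.2 ⟨N, hN⟩)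
  have k0 : (1 : ℝ) ≤ k := by exact_mod_cast k1
  norm_num at this
  nlinarith [Real.log_two_gt_d9]

end Pool.Agent.S06702
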