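import Pool.Statements.S06707
import Pool.Agent.H.MP_f47e6d_an.C

set_option autoImplicit false
open Pool Pool.MP_f47e6d_an

namespace Pool.Agent.S06707

theorem result :
    ∀ U ∈ nhds ((0 : ℂ × ℂ)), ∃ p : ℂ × ℂ, ∃ n : ℕ, 0 < n ∧
      Function.IsPeriodicPt (fun q : ℂ × ℂ => (q.2, q.1 + q.2 ^ 2)) n p ∧
      ∀ k : ℕ, (fun q : ℂ × ℂ => (q.2, q.1 + q.2 ^ 2))^[k] p ∈ U ∧
        (fun q : ℂ × ℂ => (q.2, q.1 + q.2 ^ 2))^[k] p ≠ 0 :=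
  Pool.Agent.H.MP_f47e6d_an.main

end Pool.Agent.S06707
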