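import Pool.Statements.S06709
import Pool.Agent.H.MP_f490a9_an.C

set_option autoImplicit false
open Pool Pool.MP_f490a9_an

namespace Pool.Agent.S06709

/-- Every nonseparable real Banach space with a separable subspace whose dual is nonseparable (i.e. non-Asplund) has an equivalent norm that is strongly subdifferentiable at no nonzero point. -/
theorem result :
    ∀ (X : Type) [NormedAddCommGroup X] [NormedSpace ℝ X] [CompleteSpace X],
      ¬ TopologicalSpace.SeparableSpace X →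
      (∃ Y : Submodule ℝ X, TopologicalSpace.SeparableSpace Y ∧
          ¬ TopologicalSpace.SeparableSpace (Y →L[ℝ] ℝ)) →
      ∃ N : Seminorm ℝ X,
        (∃ a b : ℝ, 0 < a ∧ 0 < b ∧ ∀ x : X, a * ‖x‖ ≤ N x ∧ N x ≤ b * ‖x‖) ∧
        ∀ x : X, x ≠ 0 →
          ¬ ∃ D : X → ℝ, ∀ ε : ℝ, 0 < ε → ∃ δ : ℝ, 0 < δ ∧
              ∀ h : X, ‖h‖ ≤ 1 → ∀ t : ℝ, 0 < t → t < δ →
                |(N (x + t • h) - N x) / t - D h| < ε := by
  rintro X _ _ _ - ⟨Y, h1, h2⟩
  exact Pool.Agent.H.MP_f490a9_an.main Y h2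

end Pool.Agent.S06709
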