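import Pool.Statements.S06714
import Pool.Agent.H.MP_f4a1d1_an.Map

set_option autoImplicit false
open Pool Pool.MP_f4a1d1_an

namespace Pool.Agent.S06714

open Pool.Agent.H.MP_f4a1d1_an Cardinal Set

abbrev G : Type := (Cardinal.continuum.{0}).ord.ToType

lemma mk_G : #G = 𝔠 := mk_ord_toType _

instance : Infinite G := by
  rw [← aleph0_le_mk_iff, mk_G]; exact aleph0_le_continuum

lemma mk_Iic (a : G) : #(Iic a) < 𝔠 := by
  have := mk_Iic_lt a (by simp) (aleph0_le_mk G)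
  rwa [mk_G] at this

lemma mk_Y : #(C (D G)) ≤ 𝔠 := by
  have h1 : #(D G × ℝ) = 𝔠 := by
    simp [mk_prod, mk_option, mk_real, add_one_eq aleph0_le_continuum]
  have h2 := mk_bounded_set_le_of_infinite (D G × ℝ) ℵ₀
  rw [h1, continuum_power_aleph0] at h2
  refine le_trans (mk_le_of_injective (f := fun y : C (D G) =>
    (⟨(fun δ => (δ, ev y δ)) '' {δ | ev y δ ≠ 0},
      le_aleph0_iff_set_countable.2 ((supp_countable y).image _)⟩ :
        {t : Set (D G × ℝ) // #t ≤ ℵ₀})) ?_) h2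
  intro y y' h
  have h' : (fun δ => (δ, ev y δ)) '' {δ | ev y δ ≠ 0} =
      (fun δ => (δ, ev y' δ)) '' {δ | ev y' δ ≠ 0} := congrArg Subtype.val h
  refine ev_ext fun δ => ?_
  by_cases h1 : ev y δ = 0
  · by_cases h2 : ev y' δ = 0
    · rw [h1, h2]
    · have : (δ, ev y' δ) ∈ (fun δ => (δ, ev y δ)) '' {δ | ev y δ ≠ 0} := h' ▸ ⟨δ, h2, rfl⟩
      obtain ⟨δ', -, e⟩ := this
      obtain ⟨rfl, e2⟩ := Prod.mk.inj e
      exact e2
  · have : (δ, ev y δ) ∈ (fun δ => (δ, ev y' δ)) '' {δ | ev y' δ ≠ 0} := h' ▸ ⟨δ, h1, rfl⟩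
    obtain ⟨δ', -, e⟩ := this
    obtain ⟨rfl, e2⟩ := Prod.mk.inj e
    exact e2.symm

lemma book : ∃ τ : G → C (D G), ∀ y, ∃ a, τ a = y ∧ ∀ δ : D G, a ≤ δ.1 → ev y δ = 0 := by
  have h1 : #(C (D G) × G) ≤ #G := by
    rw [mk_prod, lift_id, lift_id, mk_G]
    exact (mul_le_mul_left mk_Y _).trans (by simp)
  obtain ⟨e⟩ := (le_def _ _).1 h1
  refine ⟨fun a => (Function.invFun e a).1, fun y => ?_⟩
  obtain ⟨a0⟩ : Nonempty G := inferInstance
  obtain ⟨f, hf⟩ := (((supp_countable y).image Prod.fst).insert a0).exists_eq_range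
    (insert_nonempty _ _)
  have h2 : #(⋃ n, Iic (f n)) < 𝔠 := by
    refine mk_iUnion_le_sum_mk.trans_lt ((sum_lt_prod _ (fun _ => 𝔠) fun n => mk_Iic (f n)).trans_eq ?_)
    rw [prod_const', mk_nat, continuum_power_aleph0]
  have h3 : ¬ range (fun g : G => e (y, g)) ⊆ ⋃ n, Iic (f n) := by
    intro hs
    have h4 := (mk_le_mk_of_subset hs).trans_lt h2
    rw [mk_range_eq _ fun g g' h => (Prod.mk.inj (e.injective h)).2, mk_G] at h4
    exact lt_irrefl _ h4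
  obtain ⟨_, ⟨g, rfl⟩, hg⟩ := not_subset.1 h3
  refine ⟨e (y, g), by simp only [Function.leftInverse_invFun e.injective (y, g)], fun δ hδ => ?_⟩
  by_contra hne
  have : δ.1 ∈ range f := hf ▸ Or.inr ⟨δ, hne, rfl⟩
  obtain ⟨n, hn⟩ := this
  exact hg (mem_iUnion.2 ⟨n, by rw [hn]; exact hδ⟩)

noncomputable def act (τ : G → C (D G)) : G → Prop :=
  (wellFounded_lt (α := G)).fix fun a ih => (∀ δ : D G, a ≤ δ.1 → ev (τ a) δ = 0) ∧
    ¬ ∃ x : C G, (∀ b, a ≤ b → ev x b = 0) ∧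
      ∀ δ, Uf τ (fun b => ∃ h : b < a, ih b h) x δ = ev (τ a) δ

lemma act_iff (τ : G → C (D G)) (a : G) : act τ a ↔ (∀ δ : D G, a ≤ δ.1 → ev (τ a) δ = 0) ∧
    ¬ ∃ x : C G, (∀ b, a ≤ b → ev x b = 0) ∧ ∀ δ, Uf τ (act τ) x δ = ev (τ a) δ := by
  have : act τ a = ((∀ δ : D G, a ≤ δ.1 → ev (τ a) δ = 0) ∧
      ¬ ∃ x : C G, (∀ b, a ≤ b → ev x b = 0) ∧
        ∀ δ, Uf τ (fun b => ∃ _ : b < a, act τ b) x δ = ev (τ a) δ) :=
    WellFounded.fix_eq _ _ _
  rw [this]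
  refine and_congr_right fun _ => not_congr (exists_congr fun x => and_congr_right fun hx => ?_)
  simp only [Uf_restrict τ (act τ) a hx]

theorem result :
    ¬ (∀ (X Y : Type) [NormedAddCommGroup X] [NormedSpace ℝ X] [CompleteSpace X]
      [NormedAddCommGroup Y] [NormedSpace ℝ Y] [CompleteSpace Y] (U : X → Y),
      Function.Bijective U →
      (∀ x₀ : X, ∃ r : ℝ, 0 < r ∧ ∀ x ∈ Metric.ball x₀ r, ∀ y ∈ Metric.ball x₀ r,
        dist (U x) (U y) = dist x y) →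
      Isometry U) := by
  intro h
  obtain ⟨τ, hτ⟩ := book
  have hs : Function.Surjective (UU τ (act τ)) := by
    intro y
    obtain ⟨a, rfl, ha⟩ := hτ y
    by_cases h1 : act τ a
    · exact ⟨pp τ a, ev_ext fun δ => Uf_pp τ _ h1 ha δ⟩
    · rw [act_iff, not_and, not_not] at h1
      obtain ⟨x, -, hx⟩ := h1 ha
      exact ⟨x, ev_ext hx⟩
  have hi := h (C G) (C (D G)) (UU τ (act τ))
    ⟨UU_inj τ _ fun a ha => (act_iff τ a).1 ha, hs⟩ (UU_loc τ _)
  obtain ⟨a⟩ : Nonempty G := inferInstance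
  have h1 := hi.dist_eq (sgl a (-5)) 0
  rw [dist_eq_norm, dist_eq_norm, sub_zero] at h1
  have h2 := ev_le (sgl a (-5)) a
  rw [sgl_self] at h2
  have h3 := UU_small τ (act τ) (x := sgl a (-5)) fun b => by
    by_cases hb : b = a
    · rw [hb, sgl_self]; norm_num
    · rw [sgl_ne hb]
  have h4 := UU_small τ (act τ) (x := 0) fun b => (ev_zero b).le
  have h5 := norm_sub_le (UU τ (act τ) (sgl a (-5))) (UU τ (act τ) 0)
  norm_num at h2
  linarith

end Pool.Agent.S06714
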