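import Pool.Statements.S06722
import Pool.Agent.H.MP_f4f698_an.H

set_option autoImplicit false
open scoped ContDiff Topology
open Pool Pool.MP_f4f698_an

namespace Pool.Agent.S06722

theorem result :
    ¬ (∀ n : ℕ, 3 ≤ n → ∀ p : ℝ, 1 < p →
    ∀ Ω : Set (EuclideanSpace ℝ (Fin n)), IsOpen Ω →
    ∀ u : EuclideanSpace ℝ (Fin n) → ℝ, ContDiffOn ℝ 1 u Ω →
    (∀ φ : EuclideanSpace ℝ (Fin n) → ℝ, ContDiff ℝ ∞ φ → HasCompactSupport φ →
        tsupport φ ⊆ Ω →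
        ∫ y, ‖gradient u y‖ ^ (p - 2) * inner ℝ (gradient u y) (gradient φ y) = 0) →
    ∀ x ∈ Ω,
      (fun ε : ℝ => u x -
          ((p - 2) / (2 * (p + (n : ℝ))) *
              (sSup (u '' Metric.closedBall x ε) + sInf (u '' Metric.closedBall x ε)) +
            ((n : ℝ) + 2) / (p + (n : ℝ)) * ⨍ y in Metric.ball x ε, u y))
        =o[𝓝[>] (0 : ℝ)] (fun ε : ℝ => ε ^ 2)) := by
  intro H
  obtain ⟨a, M, M1, M2, C, g, P, R, h⟩ := Pool.Agent.H.MP_f4f698_an.exists_prof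
  obtain ⟨n, hn⟩ : ∃ n : ℕ, n = 100000002 := ⟨_, rfl⟩
  have hn' : (n : ℝ) = Pool.Agent.H.MP_f4f698_an.mu + 2 := by
    rw [hn, Pool.Agent.H.MP_f4f698_an.mu]; norm_num
  obtain ⟨o, j, hj⟩ : ∃ o j : Fin n, j ≠ o :=
    ⟨⟨0, by omega⟩, ⟨1, by omega⟩, by simp⟩
  refine h.fail o hj hn' (H n (by omega) 4 (by norm_num) Set.univ isOpen_univ _
    (h.cd_u o hj).contDiffOn (fun φ hφ hc _ => ?_) 0 trivial)
  rw [← h.weak o hj hn' (hφ.of_le (by simp)) hc]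
  congr 1
  ext y
  rw [h.grad_u o hj, show (4 : ℝ) - 2 = 2 by norm_num, Real.rpow_two,
    ← Pool.Agent.H.MP_f4f698_an.sum_inner, Finset.mul_sum]
  refine Finset.sum_congr rfl fun i _ => ?_
  have : fderiv ℝ φ y (Pool.Agent.H.MP_f4f698_an.ee i) = gradient φ y i := by
    rw [← Pool.Agent.H.MP_f4f698_an.inner_ee', inner_gradient_left]
  rw [this, Pool.Agent.H.MP_f4f698_an.WW, PiLp.smul_apply, smul_eq_mul, mul_assoc]

end Pool.Agent.S06722
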