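import Pool.Statements.S06726
import Pool.Agent.H.MP_f53fb8_an.C

set_option autoImplicit false
open Pool Pool.MP_f53fb8_an

namespace Pool.Agent.S06726

theorem result :
    ¬ (∀ (𝕂 : Type) [RCLike 𝕂] (X : Type) [AddCommGroup X] [Module 𝕂 X] [UniformSpace X]
      [IsUniformAddGroup X] [ContinuousSMul 𝕂 X] [TopologicalSpace.MetrizableSpace X]
      [CompleteSpace X] [TopologicalSpace.SeparableSpace X],
      ¬ FiniteDimensional 𝕂 (X →L[𝕂] 𝕂) →
        ∃ T : X →L[𝕂] X, ∃ x : X, Dense (Set.range (fun n : ℕ => (⇑T)^[n] x))) := by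
  intro h
  obtain ⟨R, _, _, _, _, _, h1, h2, h3⟩ := Pool.Agent.H.MP_f53fb8_an.rigid
  obtain ⟨T, x, hx⟩ := h ℝ (R × (ℕ → ℝ)) fun hf => by
    have : LinearIndependent ℝ fun n : ℕ =>
        (ContinuousLinearMap.proj n ∘L .snd ℝ R (ℕ → ℝ) : R × (ℕ → ℝ) →L[ℝ] ℝ) :=
      linearIndependent_iff'.2 fun s a ha i hi => by
        simpa [Pi.single_apply, hi] using DFunLike.congr_fun ha (0, Pi.single i 1)
    exact Module.Finite.not_linearIndependent_of_infinite _ this
  exact Pool.Agent.H.MP_f53fb8_an.nohyp R h1 h2 h3 T x hx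

end Pool.Agent.S06726
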