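import Pool.Statements.S06729
import Pool.Agent.H.MP_f5ec7d_an.Main

set_option autoImplicit false
open scoped ComplexOrder
open Pool Pool.MP_f5ec7d_an

namespace Pool.Agent.S06729

theorem result :
    ∀ (n : ℕ) (f : ℝ → ℝ), ConcaveOn ℝ (Set.Ici 0) f → MonotoneOn f (Set.Ici 0) → 0 ≤ f 0 →
      ∀ (A B : Matrix (Fin n) (Fin n) ℂ) (hA : A.PosSemidef) (hB : B.PosSemidef),
        ∃ U ∈ Matrix.unitaryGroup (Fin n) ℂ, ∃ V ∈ Matrix.unitaryGroup (Fin n) ℂ,
          ((((hA.add hB).isHermitian.eigenvectorUnitary : Matrix (Fin n) (Fin n) ℂ) *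
              Matrix.diagonal (fun i => ((f ((hA.add hB).isHermitian.eigenvalues i) : ℝ) : ℂ)) *
              star ((hA.add hB).isHermitian.eigenvectorUnitary : Matrix (Fin n) (Fin n) ℂ)) -
            U * ((hA.isHermitian.eigenvectorUnitary : Matrix (Fin n) (Fin n) ℂ) *
              Matrix.diagonal (fun i => ((f (hA.isHermitian.eigenvalues i) : ℝ) : ℂ)) *
              star (hA.isHermitian.eigenvectorUnitary : Matrix (Fin n) (Fin n) ℂ)) * star U).PosSemidef ∧
          (V * ((hB.isHermitian.eigenvectorUnitary : Matrix (Fin n) (Fin n) ℂ) *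
              Matrix.diagonal (fun i => ((f (hB.isHermitian.eigenvalues i) : ℝ) : ℂ)) *
              star (hB.isHermitian.eigenvectorUnitary : Matrix (Fin n) (Fin n) ℂ)) * star V -
            ((((hA.add hB).isHermitian.eigenvectorUnitary : Matrix (Fin n) (Fin n) ℂ) *
              Matrix.diagonal (fun i => ((f ((hA.add hB).isHermitian.eigenvalues i) : ℝ) : ℂ)) *
              star ((hA.add hB).isHermitian.eigenvectorUnitary : Matrix (Fin n) (Fin n) ℂ)) -
            U * ((hA.isHermitian.eigenvectorUnitary : Matrix (Fin n) (Fin n) ℂ) *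
              Matrix.diagonal (fun i => ((f (hA.isHermitian.eigenvalues i) : ℝ) : ℂ)) *
              star (hA.isHermitian.eigenvectorUnitary : Matrix (Fin n) (Fin n) ℂ)) * star U)).PosSemidef := by
  intro n f hf hm h0 A B hA hB
  obtain ⟨U, V, hU, hV, h1, h2⟩ := Pool.Agent.H.MP_f5ec7d_an.main hf hm h0 A B hA hB
  simp only [Pool.Agent.H.MP_f5ec7d_an.fc, dif_pos hA.1, dif_pos hB.1,
    dif_pos (hA.add hB).1] at h1 h2
  exact ⟨U, ⟨hU.2, hU.1⟩, V, ⟨hV.2, hV.1⟩, h1, h2⟩

end Pool.Agent.S06729
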