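import Pool.Statements.S06734
import Pool.Agent.H.MP_f65947_an.A

set_option autoImplicit false
open Pool Pool.MP_f65947_an

namespace Pool.Agent.S06734

theorem result :
    ¬ (∀ n : ℕ, 3 ≤ n → ∀ U : Set (Fin n → ℂ), IsOpen U →
  ∀ ρ : (Fin n → ℂ) → ℝ, ContDiff ℝ ((⊤ : ℕ∞) : WithTop ℕ∞) ρ →
  (∀ z ∈ U, ρ z = 0 → fderiv ℝ ρ z ≠ 0) →
  (∀ z ∈ U, ρ z = 0 → ∀ w : Fin n → ℂ, fderiv ℝ ρ z w = 0 →
      fderiv ℝ ρ z (Complex.I • w) = 0 →
      0 ≤ fderiv ℝ (fderiv ℝ ρ) z w w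
        + fderiv ℝ (fderiv ℝ ρ) z (Complex.I • w) (Complex.I • w)) →
  ∀ ζ ∈ U, ρ ζ = 0 →
  (∃ ε > 0, ∀ z ∈ U, ρ z = 0 → dist z ζ < ε →
      ∃ w : Fin n → ℂ, w ≠ 0 ∧ fderiv ℝ ρ z w = 0 ∧
        fderiv ℝ ρ z (Complex.I • w) = 0 ∧
        fderiv ℝ (fderiv ℝ ρ) z w w
          + fderiv ℝ (fderiv ℝ ρ) z (Complex.I • w) (Complex.I • w) = 0) →
  ∃ f : ℂ → (Fin n → ℂ), DifferentiableOn ℂ f (Metric.ball (0 : ℂ) 1) ∧ f 0 = ζ ∧
    (∃ t ∈ Metric.ball (0 : ℂ) 1, f t ≠ ζ) ∧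
    ∀ t ∈ Metric.ball (0 : ℂ) 1, f t ∈ U ∧ ρ (f t) = 0) := by
  intro HH
  obtain ⟨u, cu, u0, hu⟩ := H.MP_f65947_an.main
  let π : (Fin 3 → ℂ) →L[ℝ] ℂ × ℂ := (ContinuousLinearMap.proj 0).prod (.proj 1)
  let L : (Fin 3 → ℂ) →L[ℝ] ℝ := Complex.reCLM.comp (.proj 2)
  have n (z : Fin 3 → ℂ) (hz : z ∈ Metric.ball 0 1) : ‖π z‖ < 1 :=
    max_lt ((norm_le_pi_norm z 0).trans_lt (mem_ball_zero_iff.1 hz))
      ((norm_le_pi_norm z 1).trans_lt (mem_ball_zero_iff.1 hz))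
  have e1 : fderiv ℝ (fun z => L z + u (π z)) = fun z => L + (fderiv ℝ u (π z)).comp π := funext fun z =>
    (L.hasFDerivAt.add ((cu.differentiable (by simp) _).hasFDerivAt.comp z π.hasFDerivAt)).fderiv
  have e2 (z w : Fin 3 → ℂ) : fderiv ℝ (fderiv ℝ fun z => L z + u (π z)) z w w =
      iteratedFDeriv ℝ 2 u (π z) ![π w, π w] := by
    have := (((((contDiff_infty_iff_fderiv.1 cu).2.differentiable (by simp) _).hasFDerivAt.comp z
      π.hasFDerivAt).clm_comp (hasFDerivAt_const π z)).const_add L).fderiv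
    simp only [Function.comp_def] at this
    rw [e1, this, iteratedFDeriv_two_apply]
    simp
  obtain ⟨f, df, f0, ⟨t, ht, k⟩, hf⟩ := HH 3 le_rfl (Metric.ball 0 1) Metric.isOpen_ball (fun z => L z + u (π z))
    (L.contDiff.add (cu.comp π.contDiff)) (fun z _ _ k => by
      have := DFunLike.congr_fun (e1 ▸ k) ![0, 0, 1]
      simp [π, L, Prod.mk_zero_zero] at this) (fun z hz _ w _ _ => by
      rw [e2, e2]; exact (hu _ (n z hz)).2.2.1 (π w)) 0 (by simp) (by simp [u0]) ⟨1, one_pos, fun z hz _ _ => by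
      obtain ⟨v, v0, hv⟩ := (hu _ (n z hz)).2.2.2
      refine ⟨![v.1, v.2, ⟨-fderiv ℝ u (π z) v, fderiv ℝ u (π z) (Complex.I • v)⟩],
        fun e => v0 (Prod.ext (congrFun e 0) (congrFun e 1)), ?_, ?_, ?_⟩
      · rw [e1]; exact neg_add_cancel _
      · rw [e1]; exact (congrArg₂ (· + ·) (Complex.I_mul_re _) rfl).trans (neg_add_cancel _)
      · rw [e2, e2]; exact hv⟩
  have d (i : Fin 3) : DifferentiableOn ℂ (fun t => f t i) (Metric.ball 0 1) := differentiableOn_pi.1 df i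
  have r (t : ℂ) (ht : t ∈ Metric.ball 0 1) : (f t 2).re = -u (π (f t)) := eq_neg_of_add_eq_zero_left (hf t ht).2
  have r0 (t : ℂ) (ht : t ∈ Metric.ball 0 1) : (f t 2).re = 0 := by
    simpa [f0, Complex.norm_exp] using Complex.norm_eqOn_of_isPreconnected_of_isMaxOn
      (convex_ball 0 1).isPreconnected Metric.isOpen_ball (d 2).cexp (Metric.mem_ball_self one_pos) (fun s hs => by
        simpa [f0, Complex.norm_exp, r s hs] using (hu _ (n _ (hf s hs).1)).1) ht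
  obtain ⟨c, hc⟩ := ((d 2).analyticOnNhd Metric.isOpen_ball).eq_const_of_re_eq_const r0 Metric.isOpen_ball
    (Metric.isConnected_ball one_pos)
  have := H.MP_f65947_an.nodisc ((d 0).prodMk (d 1)) (by simp [f0]) (fun s hs =>
    (hu _ (n _ (hf s hs).1)).2.1 (neg_eq_zero.1 ((r s hs).symm.trans (r0 s hs)))) t ht
  refine k (funext fun i => ?_)
  fin_cases i
  exacts [congrArg Prod.fst this, congrArg Prod.snd this,
    (hc t ht).trans ((hc 0 (Metric.mem_ball_self one_pos)).symm.trans (congrFun f0 2))]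

end Pool.Agent.S06734
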