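import Pool.Statements.S06737
import Pool.Agent.H.MP_f69e58_an.D

set_option autoImplicit false
open Pool Pool.MP_f69e58_an

namespace Pool.Agent.S06737

theorem result :
    ∀ (p α : ℝ), 0 < p → -1 < α →
    ∀ d : ℕ → ℂ, (∀ j, 0 < ‖d j‖) → (∀ j, ‖d j‖ ≤ ‖d (j + 1)‖) → (∀ j, ‖d j‖ < 1) →
    (∀ t : ℝ, t < 1 → {j : ℕ | ‖d j‖ ≤ t}.Finite) →
    MeasureTheory.IntegrableOn
      (fun r : ℝ => (1 - r) ^ α *
        Real.exp (p * ∫ t in (0 : ℝ)..r, (Nat.card {j : ℕ // ‖d j‖ ≤ t} : ℝ) / t))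
      (Set.Ioo 0 1) →
    ∃ θ : ℕ → ℝ, (∀ j, θ j ∈ Set.Ico 0 (2 * Real.pi)) ∧
      ∃ f : ℂ → ℂ, DifferentiableOn ℂ f (Metric.ball 0 1) ∧
        MeasureTheory.IntegrableOn (fun z : ℂ => (1 - ‖z‖ ^ 2) ^ α * ‖f z‖ ^ p)
          (Metric.ball 0 1) ∧
        (∃ z ∈ Metric.ball (0 : ℂ) 1, f z ≠ 0) ∧
        ∀ j, f (d j * Complex.exp ((θ j : ℂ) * Complex.I)) = 0 := by
  exact Pool.Agent.H.MP_f69e58_an.final

end Pool.Agent.S06737
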