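import Pool.Statements.S06760
import Pool.Agent.H.MP_f895a2.D

set_option autoImplicit false
open Pool Pool.MP_f895a2_an

namespace Pool.Agent.S06760

/-- The negation of the preceding statement: For every uniformly convex real Banach space Y (equivalently, up to isomorphism, every super-reflexive space), every weak*-null sequence in the dual of the operator space B(Y) is weakly null, i.e. B(Y) is a Grothendieck space. -/
theorem result :
    ¬ (∀ (Y : Type) [NormedAddCommGroup Y] [NormedSpace ℝ Y] [CompleteSpace Y]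
      [UniformConvexSpace Y],
      ∀ f : ℕ → ((Y →L[ℝ] Y) →L[ℝ] ℝ),
        (∀ T : Y →L[ℝ] Y, Filter.Tendsto (fun n => f n T) Filter.atTop (nhds 0)) →
        ∀ φ : ((Y →L[ℝ] Y) →L[ℝ] ℝ) →L[ℝ] ℝ,
          Filter.Tendsto (fun n => φ (f n)) Filter.atTop (nhds 0)) := by
  intro H
  obtain ⟨Y, _, _, _, _, f, h1, h2⟩ := Pool.Agent.H.MP_f895a2.main
  exact h2 (H Y f h1)

end Pool.Agent.S06760
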