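import Pool.Statements.S06799
import Pool.Agent.H.MP_fbc045_an.A
import Pool.Agent.H.MP_fbc045_an.B

set_option autoImplicit false
open Pool Pool.MP_fbc045_an

namespace Pool.Agent.S06799

/-- There is a plane homeomorphism in W^{1,1}_loc with locally integrable Jacobian and distortion K, exp(λK) locally integrable for some λ>0, mapping [0,1] onto itself and some E in [0,1] of positive length onto a scaled, shifted ternary Cantor set. -/
theorem result :
    ∃ (f : ℂ ≃ₜ ℂ) (Df : ℂ → ℂ →L[ℝ] ℂ) (K : ℂ → ℝ) (lam : ℝ) (E : Set ℂ) (a r : ℝ),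
      MeasureTheory.LocallyIntegrable Df MeasureTheory.volume ∧
      (∀ φ : ℂ → ℝ, ContDiff ℝ 1 φ → HasCompactSupport φ → ∀ v : ℂ,
        ∫ x, (fderiv ℝ φ x v) • f x ∂MeasureTheory.volume
          = - ∫ x, φ x • Df x v ∂MeasureTheory.volume) ∧
      MeasureTheory.LocallyIntegrable
        (fun x => LinearMap.det ((Df x : ℂ →L[ℝ] ℂ) : ℂ →ₗ[ℝ] ℂ)) MeasureTheory.volume ∧
      (∀ x, 1 ≤ K x) ∧
      (∀ᵐ x ∂MeasureTheory.volume,
        ‖Df x‖ ^ 2 ≤ K x * LinearMap.det ((Df x : ℂ →L[ℝ] ℂ) : ℂ →ₗ[ℝ] ℂ)) ∧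
      0 < lam ∧
      MeasureTheory.LocallyIntegrable (fun x => Real.exp (lam * K x)) MeasureTheory.volume ∧
      f '' ((fun t : ℝ => (t : ℂ)) '' Set.Icc 0 1) = (fun t : ℝ => (t : ℂ)) '' Set.Icc 0 1 ∧
      E ⊆ (fun t : ℝ => (t : ℂ)) '' Set.Icc 0 1 ∧
      0 < MeasureTheory.Measure.hausdorffMeasure 1 E ∧
      0 < r ∧
      f '' E = (fun c : ℝ => ((a + r * c : ℝ) : ℂ)) '' cantorSet := by
  open Pool.Agent.H.MP_fbc045_an MeasureTheory Set in
  obtain ⟨C, C1, hq⟩ := qs
  obtain ⟨θ, hθ⟩ : ∃ θ : ℝ, θ = (9 ^ 24)⁻¹ := ⟨_, rfl⟩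
  have θ0 : 0 < θ := by rw [hθ]; positivity
  have θ1 : θ ≤ 1 / 100 := by rw [hθ]; norm_num
  rw [← hθ] at hq
  have hc := hc θ0 θ1
  have hm := hm θ0 θ1
  have hb := hb θ0 θ1
  obtain ⟨L, hL⟩ : ∃ L : ℝ → ℝ, ∀ y, L y = 3 + (|y| / 2) ^ (-(1 / 2) : ℝ) := ⟨_, fun _ => rfl⟩
  have L0 : ∀ y, 3 ≤ L y := fun y => by rw [hL]; exact le_add_of_nonneg_right (by positivity)
  have L1 : ∀ y, 1 ≤ C * Real.log (L y) := fun y => one_le_mul_of_one_le_of_one_le C1 (by
    rw [Real.le_log_iff_exp_le (by linarith [L0 y])]; linarith [Real.exp_one_lt_d9, L0 y])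
  have D := fun (z : ℂ) (hz : z.im ≠ 0) => Fd hc hm z hz _ (L1 z.im) fun p τ hτ => by
    have t0 : 0 < |z.im| / 2 := by positivity
    rw [hL, ← hτ]
    rcases le_total 0 τ with c | c
    · rw [abs_of_nonneg c] at hτ ⊢
      exact hq p τ (by linarith)
    · rw [abs_of_nonpos c] at hτ ⊢
      have := hq (-p) (-τ) (by linarith)
      rw [show -p - -τ = -(p - τ) by ring, ← neg_add, hodd θ0 θ1, hodd θ0 θ1, hodd θ0 θ1] at this
      linarith
  have iL : LocallyIntegrable (fun z : ℂ => L z.im) volume := by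
    refine locim L ?_
    rw [show L = _ from funext hL]
    refine (locallyIntegrable_const _).add (locallyIntegrable_of_norm_le_rpow (α := 1 / 2) (by simp)
      (by simp; norm_num) (C := (1 / 2) ^ (-(1 / 2) : ℝ)) (ae_of_all _ fun y => le_of_eq ?_)
      (Measurable.aestronglyMeasurable (by fun_prop)))
    rw [Real.norm_of_nonneg (by positivity), ← Real.mul_rpow (by norm_num) (norm_nonneg _),
      Real.norm_eq_abs, one_div_mul_eq_div]
  have iJ := jac _ (Fc hc) (fun z hz => (D z hz).1) (Fi hc hm)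
  have iD : LocallyIntegrable (fderiv ℝ (F (h θ))) volume := by
    refine ((iL.smul (144 * C)).add iJ).mono (measurable_fderiv ℝ _).aestronglyMeasurable ?_
    filter_upwards [aeim] with z hz
    refine le_trans ?_ (le_abs_self _)
    have h1 := (D z hz).2
    have h2 := mul_le_mul_of_nonneg_left (Real.log_le_sub_one_of_pos (show 0 < L z.im by linarith [L0 z.im]))
      (show 0 ≤ C by linarith)
    have h3 := L1 z.im
    have h4 : 0 ≤ (fderiv ℝ (F (h θ)) z).det :=
      le_of_mul_le_mul_left (a := 144 * (C * Real.log (L z.im))) (by nlinarith) (by linarith)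
    refine le_trans (abs_le_of_sq_le_sq' (b := 144 * (C * Real.log (L z.im)) + (fderiv ℝ (F (h θ)) z).det)
      (by nlinarith) (by linarith)).2 ?_
    simp only [Pi.add_apply, Pi.smul_apply, smul_eq_mul]
    linarith
  have h0 : h θ 0 = 0 := by simpa [G] using hG θ0 θ1 0 0
  have h1 : h θ 1 = 1 := by simpa [G] using hG θ0 θ1 0 1
  have im : ∀ S : Set ℝ, F (h θ) '' ((fun t : ℝ => (t : ℂ)) '' S) = (fun t : ℝ => (t : ℂ)) '' (h θ '' S) :=
    fun S => by simp only [image_image, Fr]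
  have i1 : h θ '' Icc 0 1 = Icc 0 1 := by
    rw [hc.continuousOn.image_Icc_of_monotoneOn zero_le_one (hm.monotone.monotoneOn _), h0, h1]
  refine ⟨(Equiv.ofBijective _ ⟨Fi hc hm, Fs hc hm hb⟩).toHomeomorphOfContinuousClosed (Fc hc) (Fp hc hb),
    fderiv ℝ (F (h θ)), fun z => 144 * (C * Real.log (L z.im)), (144 * C)⁻¹,
    (fun t : ℝ => (t : ℂ)) '' (h θ ⁻¹' cantorSet), 0, 1, iD,
    ibp _ (Fc hc) (fun z hz => (D z hz).1) iD, iJ, fun z => by linarith [L1 z.im],
    aeim.mono fun z hz => (D z hz).2, by positivity, ?_, (im _).trans (by rw [i1]),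
    image_mono fun x hx => ?_, ?_, one_pos, (im _).trans ?_⟩
  · convert iL using 2 with z
    beta_reduce
    rw [← mul_assoc 144, inv_mul_cancel_left₀ (by positivity), Real.exp_log (by linarith [L0 z.im])]
  · have := cantorSet_subset_unitInterval hx
    exact ⟨hm.le_iff_le.1 (h0.trans_le this.1), hm.le_iff_le.1 (this.2.trans_eq h1.symm)⟩
  · rw [Complex.isometry_ofReal.hausdorffMeasure_image (.inl zero_le_one), hausdorffMeasure_real]
    exact pos_iff_ne_zero.2 (pos θ0 θ1)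
  · rw [image_preimage_eq_of_subset (cantorSet_subset_unitInterval.trans (i1 ▸ image_subset_range _ _))]
    simp

end Pool.Agent.S06799
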