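import Pool.Statements.S06804
import Pool.Agent.H.MP_fc0bf6_an.B

set_option autoImplicit false
open Pool Pool.MP_fc0bf6_an

namespace Pool.Agent.S06804

open Set Filter Topology Metric Real ValueDistribution Pool.Agent.H.MP_fc0bf6_an in
lemma pick : ∃ l : ℝ, 1 / 2 ≤ l ∧ l < 1 ∧ 3 / 2 < (2 : ℝ) ^ l ∧ π * l * sin (π * l) * 480 < 1 / 208 := by
  have a : ∀ᶠ l in 𝓝 (1 : ℝ), 3 / 2 < (2 : ℝ) ^ l :=
    ContinuousAt.eventually_lt continuousAt_const (continuous_const_rpow two_ne_zero).continuousAt (by norm_num)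
  have b : ∀ᶠ l in 𝓝 (1 : ℝ), π * l * sin (π * l) * 480 < 1 / 208 :=
    ContinuousAt.eventually_lt (by fun_prop) continuousAt_const (by simp)
  have c : ∀ᶠ l in 𝓝 (1 : ℝ), 1 / 2 ≤ l := eventually_ge_nhds (by norm_num)
  obtain ⟨l, hl, h⟩ := (eventually_mem_nhdsWithin.and
    ((c.and (a.and b)).filter_mono (nhdsWithin_le_nhds (s := Iio 1)))).exists
  exact ⟨l, h.1, hl, h.2⟩

lemma near {l r : ℝ} (l0 : 0 ≤ l) (l1 : l ≤ 1) (r1 : 1 ≤ r) : ∃ n : ℕ, 2 ^ n ≤ r ∧ r < 2 ^ (n + 1) ∧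
    (2 * ((2 : ℝ) ^ l / 2)) ^ n ≤ r ^ l ∧ r ^ l ≤ 2 * (2 * ((2 : ℝ) ^ l / 2)) ^ n := by
  obtain ⟨n, a, b⟩ := exists_nat_pow_near r1 one_lt_two
  have e (k : ℕ) : ((2 : ℝ) ^ l) ^ k = (2 ^ k) ^ l := by
    rw [← Real.rpow_natCast, ← Real.rpow_natCast, ← Real.rpow_mul zero_le_two, ← Real.rpow_mul zero_le_two,
      mul_comm]
  rw [mul_div_cancel₀ _ two_ne_zero]
  refine ⟨n, a, b, by rw [e]; gcongr, ?_⟩
  have : r ^ l ≤ (2 ^ l) ^ (n + 1) := by rw [e]; gcongr
  refine this.trans ?_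
  rw [pow_succ']
  gcongr
  simpa using Real.rpow_le_rpow_of_exponent_le one_le_two l1

open Set Filter Topology Metric Real ValueDistribution Pool.Agent.H.MP_fc0bf6_an in
theorem result :
    ¬ (∀ (f : ℂ → ℂ) (lam : ℝ), MeromorphicOn f Set.univ → 1 / 2 ≤ lam → lam < 1 →
      (∀ ε : ℝ, 0 < ε →
        (∀ᶠ r in Filter.atTop,
            (lam - ε) * Real.log r ≤ Real.log (ValueDistribution.characteristic f ⊤ r)) ∧
        (∃ᶠ r in Filter.atTop,
            Real.log (ValueDistribution.characteristic f ⊤ r) ≤ (lam + ε) * Real.log r)) →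
      (∀ ε : ℝ, 0 < ε → ∀ᶠ r in Filter.atTop,
        (∀ z : ℂ, ‖z‖ = r → AnalyticAt ℂ f z ∧ f z ≠ 0) →
          Real.log r ≤ ε * Real.log (sSup ((fun z => ‖f z‖) '' Metric.sphere (0 : ℂ) r))) →
      ∀ a b : ℝ,
        a + Real.pi * lam * Real.sin (Real.pi * lam) * b < Real.cos (Real.pi * lam) →
        ∃ᶠ r in Filter.atTop,
          (∀ z : ℂ, ‖z‖ = r → AnalyticAt ℂ f z ∧ f z ≠ 0) ∧
          (a < Real.log (sInf ((fun z => ‖f z‖) '' Metric.sphere (0 : ℂ) r)) /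
                Real.log (sSup ((fun z => ‖f z‖) '' Metric.sphere (0 : ℂ) r)) ∨
           b < ValueDistribution.logCounting f ⊤ r /
                Real.log (sSup ((fun z => ‖f z‖) '' Metric.sphere (0 : ℂ) r)))) := by
  intro H
  obtain ⟨l, l0, l1, l2, l3⟩ := pick
  have nr := fun (r : ℝ) (r1 : 1 ≤ r) => near (by linarith) l1.le r1
  have h1 : (2 : ℝ) ^ l / 2 < 1 := by
    have := rpow_lt_rpow_of_exponent_lt one_lt_two l1
    rw [rpow_one] at this; linarith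
  have h : 3 / 4 ≤ (2 : ℝ) ^ l / 2 := by linarith
  generalize (2 : ℝ) ^ l / 2 = ρ at *
  have d : 0 < 1 - ρ := by linarith
  have sup {r : ℝ} (r0 : 0 < r) (g : ∀ z : ℂ, ‖z‖ = r → AnalyticAt ℂ (F ρ) z ∧ F ρ z ≠ 0) :
      ∃ z, ‖z‖ = r ∧ sSup ((fun z => ‖F ρ z‖) '' sphere (0 : ℂ) r) = ‖F ρ z‖ ∧
        log ‖F ρ r‖ ≤ log ‖F ρ z‖ ∧
        log (sInf ((fun z => ‖F ρ z‖) '' sphere (0 : ℂ) r)) ≤ log ‖F ρ (-r : ℝ)‖ := by
    have c : ContinuousOn (fun z => ‖F ρ z‖) (sphere (0 : ℂ) r) := fun z hz =>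
      (g z (by simpa using hz)).1.continuousAt.norm.continuousWithinAt
    have m1 : (r : ℂ) ∈ sphere (0 : ℂ) r := by simp [r0.le]
    have m2 : ((-r : ℝ) : ℂ) ∈ sphere (0 : ℂ) r := by simp [r0.le]
    obtain ⟨z, hz, e, k⟩ := (isCompact_sphere (0 : ℂ) r).exists_sSup_image_eq_and_ge ⟨_, m1⟩ c
    obtain ⟨y, hy, e', k'⟩ := (isCompact_sphere (0 : ℂ) r).exists_sInf_image_eq_and_le ⟨_, m1⟩ c
    exact ⟨z, by simpa using hz, e, log_le_log (norm_pos_iff.2 (g _ (by simpa using m1)).2) (k _ m1),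
      e' ▸ log_le_log (norm_pos_iff.2 (g _ (by simpa using hy)).2) (k' _ m2)⟩
  have lo {r : ℝ} {n : ℕ} (r0 : 0 < r) (a : 2 ^ n ≤ r) (b : r < 2 ^ (n + 1)) :
      (2 * ρ) ^ n / (6 * (1 - ρ)) ≤ log ‖F ρ r‖ := by
    have e : ‖(r : ℂ)‖ = r := by simp [r0.le]
    exact L h h1 (e.symm ▸ a) (e.symm ▸ b.le) (by rw [e, Complex.ofReal_re]; linarith)
  have tl {r : ℝ} (r1 : 1 ≤ r) : 1 / (72 * (1 - ρ)) * r ^ l ≤ characteristic (F ρ) ⊤ r := by
    obtain ⟨n, a, b, -, c⟩ := nr r r1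
    refine le_trans ?_ (TL h h1 r1 a b.le)
    refine (mul_le_mul_of_nonneg_left c (by positivity)).trans_eq ?_
    field_simp; ring
  refine H (F ρ) l (merF h h1).meromorphicOn l0 l1 (fun ε hε => ⟨?_, Eventually.frequently ?_⟩)
    (fun ε hε => ?_) (-(1 + (1 - ρ) / 208)) (480 * (1 - ρ)) (by nlinarith [neg_one_le_cos (π * l)]) ?_
  · filter_upwards [eventually_ge_atTop 1,
      (tendsto_log_atTop.const_mul_atTop hε).eventually_ge_atTop (-log (1 / (72 * (1 - ρ))))] with r r1 k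
    have := log_le_log (by positivity) (tl r1)
    rw [log_mul (by positivity) (by positivity), log_rpow (by linarith)] at this
    linarith
  · filter_upwards [eventually_ge_atTop 1,
      (tendsto_log_atTop.const_mul_atTop hε).eventually_ge_atTop (log (80 / (1 - ρ) + 80))] with r r1 k
    obtain ⟨n, a, b, c, -⟩ := nr r r1
    have := log_le_log (lt_of_lt_of_le (by positivity) (tl r1))
      ((TU h h1 r1 b.le).1.trans (mul_le_mul_of_nonneg_left c (by positivity)))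
    rw [log_mul (by positivity) (by positivity), log_rpow (by linarith)] at this
    linarith
  · filter_upwards [eventually_ge_atTop 1, (isLittleO_log_rpow_atTop (r := l) (by linarith)).def
      (c := ε / (12 * (1 - ρ))) (by positivity)] with r r1 k g
    obtain ⟨n, a, b, -, c⟩ := nr r r1
    obtain ⟨z, -, e, q, -⟩ := sup (by linarith) g
    rw [norm_of_nonneg (log_nonneg r1), norm_of_nonneg (by positivity)] at k
    rw [e]
    refine k.trans (le_trans ?_ (mul_le_mul_of_nonneg_left ((lo (by linarith) a b).trans q) hε.le))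
    refine (mul_le_mul_of_nonneg_left c (by positivity)).trans_eq ?_
    field_simp; ring
  · filter_upwards [eventually_ge_atTop 1] with r r1 ⟨g, k⟩
    obtain ⟨n, a, b, -, -⟩ := nr r r1
    obtain ⟨z, rfl, e, q, q'⟩ := sup (by linarith) g
    have q2 := (lo (by linarith) a b).trans q
    have q3 : 0 < log ‖F ρ z‖ := lt_of_lt_of_le (by positivity) q2
    rw [e, lt_div_iff₀ q3, lt_div_iff₀ q3] at k
    rcases k with k | k
    · have := K h h1 a b fun j hj => (g (-2 ^ j) (by simp [hj])).2 (by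
        simp [F, Gz h h1 ok1 (z := -2 ^ j) (k := j) (by simp [p1, neg_div])])
      linarith
    · rw [div_le_iff₀ (by positivity)] at q2
      linarith [(TU h h1 r1 b.le).2]

end Pool.Agent.S06804
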