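import Pool.Statements.S06808
import Pool.Agent.H.MP_fc26cf_an.C

set_option autoImplicit false
open Pool Pool.MP_fc26cf_an

namespace Pool.Agent.S06808

theorem result :
    ¬ (∀ A B : MvPolynomial (Fin 2) ℂ,
      IsRelPrime A B →
      (∀ z : Fin 2 → ℂ, (∀ i, ‖z i‖ ≤ 1) → MvPolynomial.eval z B = 0 →
        (∀ i, ‖z i‖ = 1) ∧ MvPolynomial.eval z A = 0) →
      ∀ h : ℕ → ℕ → ℂ,
        (∀ z : Fin 2 → ℂ, (∀ i, ‖z i‖ < 1) →
          HasSum (fun p : ℕ × ℕ => h p.1 p.2 * z 0 ^ p.1 * z 1 ^ p.2)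
            (MvPolynomial.eval z A / MvPolynomial.eval z B)) →
        (Summable (fun p : ℕ × ℕ => ‖h p.1 p.2‖) ↔
          ∃ F : (Fin 2 → ℂ) → ℂ,
            ContinuousOn F {z : Fin 2 → ℂ | ∀ i, ‖z i‖ ≤ 1} ∧
            ∀ z : Fin 2 → ℂ, (∀ i, ‖z i‖ < 1) →
              F z = MvPolynomial.eval z A / MvPolynomial.eval z B)) := by
  intro h
  exact Pool.Agent.H.MP_fc26cf_an.not_summable ((h _ _ Pool.Agent.H.MP_fc26cf_an.relPrime
    Pool.Agent.H.MP_fc26cf_an.zeros (fun k n => (Pool.Agent.H.MP_fc26cf_an.P n).coeff k)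
    Pool.Agent.H.MP_fc26cf_an.hasSum).2 ⟨_, Pool.Agent.H.MP_fc26cf_an.cont, fun z _ => by
      rw [Pool.Agent.H.MP_fc26cf_an.PA_eval, Pool.Agent.H.MP_fc26cf_an.PB_eval]⟩)

end Pool.Agent.S06808
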