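import Pool.Statements.S06818
import Pool.Agent.H.MP_f7d718_lc.G

set_option autoImplicit false
open Pool Pool.MP_fcb99b_an

namespace Pool.Agent.S06818

/-- The negation of the preceding statement: The set of pairs of minimal homeomorphisms of Cantor space that are conjugate or conjugate-after-inverting-one is Borel in the product of the continuous-self-map space (compact-open topology) with itself. -/
theorem result :
    ¬ (@MeasurableSet (C(ℕ → Bool, ℕ → Bool) × C(ℕ → Bool, ℕ → Bool))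
      (borel (C(ℕ → Bool, ℕ → Bool) × C(ℕ → Bool, ℕ → Bool)))
      {p : C(ℕ → Bool, ℕ → Bool) × C(ℕ → Bool, ℕ → Bool) |
        ∃ e₁ e₂ : (ℕ → Bool) ≃ₜ (ℕ → Bool),
          (⇑e₁ = ⇑p.1) ∧ (⇑e₂ = ⇑p.2) ∧
          (∀ x : ℕ → Bool, Dense (Set.range fun n : ℕ => (⇑e₁)^[n] x)) ∧
          (∀ x : ℕ → Bool, Dense (Set.range fun n : ℕ => (⇑e₂)^[n] x)) ∧
          ∃ h : (ℕ → Bool) ≃ₜ (ℕ → Bool),
            (⇑h ∘ ⇑e₁ = ⇑e₂ ∘ ⇑h ∨ ⇑h ∘ ⇑e₁ = ⇑e₂.symm ∘ ⇑h)}) := by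
  intro hm
  obtain ⟨T, B, hB, t1, t2, t3, t4⟩ := Pool.Agent.H.MP_f7d718_lc.flip
  letI : MeasurableSpace C(ℕ → Bool, ℕ → Bool) := borel _
  haveI : BorelSpace C(ℕ → Bool, ℕ → Bool) := ⟨rfl⟩
  rw [← BorelSpace.measurable_eq (α := C(ℕ → Bool, ℕ → Bool) × C(ℕ → Bool, ℕ → Bool))] at hm
  refine hB ?_
  convert ((t1.comp (measurable_id.prodMk (measurable_const (a := false)))).prodMk
    (t1.comp (measurable_id.prodMk (measurable_const (a := true))))) hm using 1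
  ext y
  rw [t3]
  constructor
  · rintro ⟨h, e⟩
    exact ⟨_, _, rfl, rfl, t2 _, t2 _, h, Or.inl (funext e)⟩
  · rintro ⟨e₁, e₂, h1, h2, -, -, h, e⟩
    obtain rfl : e₁ = T (y, false) := Homeomorph.ext (congrFun h1)
    obtain rfl : e₂ = T (y, true) := Homeomorph.ext (congrFun h2)
    exact e.elim (fun e => ⟨h, congrFun e⟩) fun e => (t4 _ _ ⟨h, congrFun e⟩).elim

end Pool.Agent.S06818
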