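import Pool.Statements.S06826
-- import your own Pool.Agent.* helpers here
import Pool.Agent.H.MP_826cdb_an.D

set_option autoImplicit false
open scoped Pointwise
open Pool Pool.MP_fd6009_an

namespace Pool.Agent.S06826

theorem result :
    ¬ (∀ (X : Type) [NormedAddCommGroup X] [NormedSpace ℝ X] [CompleteSpace X]
    (A B : X → Set (X →L[ℝ] ℝ)),
    (∀ (x y : X) (a b : X →L[ℝ] ℝ), a ∈ A x → b ∈ A y → 0 ≤ (a - b) (x - y)) →
    (∀ (x : X) (a : X →L[ℝ] ℝ),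
        (∀ (y : X) (b : X →L[ℝ] ℝ), b ∈ A y → 0 ≤ (a - b) (x - y)) → a ∈ A x) →
    (∀ (x y : X) (a b : X →L[ℝ] ℝ), a ∈ B x → b ∈ B y → 0 ≤ (a - b) (x - y)) →
    (∀ (x : X) (a : X →L[ℝ] ℝ),
        (∀ (y : X) (b : X →L[ℝ] ℝ), b ∈ B y → 0 ≤ (a - b) (x - y)) → a ∈ B x) →
    ({x : X | (A x).Nonempty} ∩ interior {x : X | (B x).Nonempty}).Nonempty →
    (∀ U : Set X, IsOpen U → Convex ℝ U → (U ∩ {x : X | (A x).Nonempty}).Nonempty →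
      ∀ x ∈ U, ∀ a : X →L[ℝ] ℝ,
        (∀ y ∈ U, ∀ b ∈ A y, 0 ≤ (a - b) (x - y)) → a ∈ A x) →
    ((∀ (x y : X) (a b : X →L[ℝ] ℝ), a ∈ A x + B x → b ∈ A y + B y →
        0 ≤ (a - b) (x - y)) ∧
     (∀ (x : X) (a : X →L[ℝ] ℝ),
        (∀ (y : X) (b : X →L[ℝ] ℝ), b ∈ A y + B y → 0 ≤ (a - b) (x - y)) →
          a ∈ A x + B x))) := by
  obtain ⟨X, _, _, _, G, l, z, hm, hf, hz, ⟨a, ha, ha0⟩, ⟨b, hb, hb1⟩, hG⟩ :=
    Pool.Agent.H.MP_826cdb_an.ex3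
  intro h
  have hB := Pool.Agent.H.MP_826cdb_an.NC_mm l z hz
  have hi : a.1 ∈ interior {x : X | {f | (x, f) ∈ Pool.Agent.H.MP_826cdb_an.NC l}.Nonempty} := by
    refine interior_maximal (t := {x | l x < 1 / 2}) (fun x hx => ?_)
      (isOpen_lt l.continuous continuous_const) (by show l _ < 1 / 2; linarith)
    exact ⟨0, le_of_lt hx, 0, le_rfl, by simp, by simp⟩
  obtain ⟨-, -, g, ⟨hg, -⟩, -⟩ := (h X (fun x => {f | (x, f) ∈ G})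
    (fun x => {f | (x, f) ∈ Pool.Agent.H.MP_826cdb_an.NC l})
    (fun x y f g hf hg => hm _ hf _ hg)
    (fun x f h1 => hf _ isOpen_univ a ha trivial (x, f) trivial fun q hq _ => h1 _ _ hq)
    (fun x y f g hf hg => hB.1 _ hf _ hg) (fun x f hf => hB.2 _ fun q hq => hf _ _ hq)
    ⟨a.1, ⟨a.2, ha⟩, hi⟩ (fun U hU _ ⟨y, hy, g, hg⟩ x hx f h1 =>
      hf U hU (y, g) hg hy (x, f) hx fun q hq hq' => h1 _ hq' _ hq)).2 b.1 b.2 (by
      rintro y _ ⟨f, h1, g, ⟨-, c, -, h2, h3⟩, rfl⟩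
      obtain rfl : c = 0 := (mul_eq_zero.1 h3).resolve_right (sub_ne_zero.2 (hG (y, f) h1))
      obtain rfl : g = 0 := by simpa using h2
      simpa using hm _ hb (y, f) h1)
  have : l b.1 ≤ 1 / 2 := hg
  linarith

end Pool.Agent.S06826
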