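import Pool.Statements.S06827
import Pool.Agent.H.MP_fd6048_an.A

set_option autoImplicit false
open Pool Pool.MP_fd6048_an

namespace Pool.Agent.S06827

open Pool.Agent.H.MP_fd6048_an Filter Topology Set BoundedContinuousFunction

def Bl (𝕂 : Type) [RCLike 𝕂] : Set (ℕ → 𝕂) := Set.pi univ fun _ => Metric.closedBall (0 : 𝕂) 1

instance (𝕂 : Type) [RCLike 𝕂] : CompactSpace (Bl 𝕂) :=
  isCompact_iff_compactSpace.mp (isCompact_univ_pi fun _ => isCompact_closedBall _ _)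

section
variable {𝕂 X : Type} [RCLike 𝕂] [AddCommGroup X] [Module 𝕂 X] [UniformSpace X]
  [IsUniformAddGroup X] [ContinuousSMul 𝕂 X]

noncomputable def Phi (𝕂 : Type) [RCLike 𝕂] [Module 𝕂 X] [ContinuousSMul 𝕂 X]
    (N : ℕ) (y : ℕ → X) : C(Bl 𝕂, X) :=
  ⟨fun a => ∑ n ∈ Finset.range N, a.1 n • y n, continuous_finset_sum _ fun n _ =>
    ((continuous_apply n).comp continuous_subtype_val).smul continuous_const⟩

theorem Phi_cont (N : ℕ) : Continuous (Phi 𝕂 N : (ℕ → X) → C(Bl 𝕂, X)) := by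
  apply ContinuousMap.continuous_of_continuous_uncurry
  show Continuous fun p : (ℕ → X) × Bl 𝕂 => ∑ n ∈ Finset.range N, p.2.1 n • p.1 n
  exact continuous_finset_sum _ fun n _ =>
    ((continuous_apply n).comp (continuous_subtype_val.comp continuous_snd)).smul
      ((continuous_apply n).comp continuous_fst)

theorem Phi_pad (N M : ℕ) (y : ℕ → X) :
    Phi 𝕂 (N + M) (fun n => if n < N then y n else 0) = Phi 𝕂 N y := by
  ext a
  show ∑ n ∈ Finset.range (N + M), a.1 n • (if n < N then y n else 0) =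
    ∑ n ∈ Finset.range N, a.1 n • y n
  rw [Finset.sum_range_add]
  have h1 : ∑ n ∈ Finset.range M, a.1 (N + n) • (if N + n < N then y (N + n) else 0) = 0 :=
    Finset.sum_eq_zero fun n _ => by simp
  rw [h1, add_zero]
  exact Finset.sum_congr rfl fun n hn => by rw [if_pos (Finset.mem_range.mp hn)]

noncomputable def rad (e : ℕ →ᵇ 𝕂) : 𝕂 := ((‖e‖ + 1 : ℝ) : 𝕂)

theorem rad_ne (e : ℕ →ᵇ 𝕂) : rad e ≠ 0 := by
  have : (0 : ℝ) < ‖e‖ + 1 := by positivity
  unfold rad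
  exact_mod_cast this.ne'

noncomputable def sc (e : ℕ →ᵇ 𝕂) : Bl 𝕂 :=
  ⟨fun n => (rad e)⁻¹ * e n, fun n _ => by
    have h : (0 : ℝ) < ‖e‖ + 1 := by positivity
    have h2 := e.norm_coe_le_norm n
    rw [mem_closedBall_zero_iff, norm_mul, norm_inv, rad, RCLike.norm_ofReal, abs_of_pos h,
      inv_mul_le_iff₀ h]
    linarith⟩

noncomputable def ext (Φ : C(Bl 𝕂, X)) (e : ℕ →ᵇ 𝕂) : X := rad e • Φ (sc e)

theorem ext_cont (e : ℕ →ᵇ 𝕂) : Continuous fun Φ : C(Bl 𝕂, X) => ext Φ e := by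
  unfold ext
  fun_prop

theorem ext_Phi (N : ℕ) (y : ℕ → X) (e : ℕ →ᵇ 𝕂) :
    ext (Phi 𝕂 N y) e = ∑ n ∈ Finset.range N, e n • y n := by
  show rad e • ∑ n ∈ Finset.range N, ((rad e)⁻¹ * e n) • y n = _
  rw [Finset.smul_sum]
  refine Finset.sum_congr rfl fun n _ => ?_
  rw [smul_smul, mul_inv_cancel_left₀ (rad_ne e)]

def DD (𝕂 X : Type) [RCLike 𝕂] [AddCommGroup X] [Module 𝕂 X] [UniformSpace X]
  [IsUniformAddGroup X] [ContinuousSMul 𝕂 X] : Set C(Bl 𝕂, X) := {Φ | ∃ N y, Φ = Phi 𝕂 N y}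

theorem exists_lin (Φ : C(Bl 𝕂, X)) [T2Space X] (h : Φ ∈ closure (DD 𝕂 X)) :
    ∃ Ψ : (ℕ →ᵇ 𝕂) →ₗ[𝕂] X, ∀ e, Ψ e = ext Φ e := by
  have hc : Continuous (fun Φ : C(Bl 𝕂, X) => (ext Φ : (ℕ →ᵇ 𝕂) → X)) :=
    continuous_pi fun e => ext_cont e
  have hm : ext Φ ∈ closure (range ((↑) : ((ℕ →ᵇ 𝕂) →ₗ[𝕂] X) → (ℕ →ᵇ 𝕂) → X)) := by
    refine map_mem_closure hc h ?_
    rintro _ ⟨N, y, rfl⟩
    refine ⟨⟨⟨fun e => ∑ n ∈ Finset.range N, e n • y n, fun a b => ?_⟩, fun c a => ?_⟩, ?_⟩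
    · simp [add_smul, Finset.sum_add_distrib]
    · simp [Finset.smul_sum, smul_smul]
    · funext e
      exact (ext_Phi N y e).symm
  exact ⟨linearMapOfMemClosureRangeCoe _ hm, fun e => rfl⟩

def O1 (T : X →L[𝕂] X) (j k : ℕ) (U : Set X) : Set C(Bl 𝕂, X) :=
  {Φ | ∀ a : Bl 𝕂, 1 / ((k : ℝ) + 1) ≤ ‖a.1 j‖ → ∃ m : ℕ, (T ^ m) (Φ a) ∈ U}

def O2 (𝕂 : Type) [RCLike 𝕂] [Module 𝕂 X] (U : Set X) : Set C(Bl 𝕂, X) :=
  {Φ | ∃ e, ext Φ e ∈ U}

theorem O1_open (T : X →L[𝕂] X) (j k : ℕ) (U : Set X) (hU : IsOpen U) :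
    IsOpen (O1 T j k U) := by
  rw [← isClosed_compl_iff]
  have hc : IsClosed {p : C(Bl 𝕂, X) × Bl 𝕂 |
      1 / ((k : ℝ) + 1) ≤ ‖p.2.1 j‖ ∧ ∀ m : ℕ, (T ^ m) (p.1 p.2) ∈ Uᶜ} := by
    refine IsClosed.inter (isClosed_le continuous_const
      ((continuous_apply j).comp (continuous_subtype_val.comp continuous_snd)).norm) ?_
    show IsClosed {p : C(Bl 𝕂, X) × Bl 𝕂 | ∀ m : ℕ, (T ^ m) (p.1 p.2) ∈ Uᶜ}
    rw [Set.setOf_forall]
    refine isClosed_iInter fun m => ?_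
    exact hU.isClosed_compl.preimage (f := fun p : C(Bl 𝕂, X) × Bl 𝕂 => (T ^ m) (p.1 p.2))
      ((T ^ m).continuous.comp ContinuousEval.continuous_eval)
  have := isClosedMap_fst_of_compactSpace _ hc
  convert this using 1
  ext Φ
  simp only [O1, mem_compl_iff, Set.mem_setOf_eq, mem_image, Prod.exists, exists_and_right,
    exists_eq_right]
  push Not
  rfl

theorem O2_open (U : Set X) (hU : IsOpen U) : IsOpen (O2 𝕂 U) := by
  unfold O2
  rw [Set.setOf_exists]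
  exact isOpen_iUnion fun e => hU.preimage (ext_cont e)

theorem O1_dense (T : X →L[𝕂] X) (x : X) (hx : HC T x) (j k : ℕ) (U : Set X) (hU : IsOpen U)
    (hne : U.Nonempty) : DD 𝕂 X ⊆ closure (O1 T j k U ∩ DD 𝕂 X) := by
  rintro _ ⟨N, y, rfl⟩
  rw [← Phi_pad N (j + 1) y]
  refine map_mem_closure (Phi_cont (N + (j + 1))) (dense_tuples T x hx _) ?_
  rintro _ ⟨κ, hκ, rfl⟩
  refine ⟨fun a ha => ?_, _, _, rfl⟩
  have h0 : a.1 j ≠ 0 := by
    intro h
    rw [h, norm_zero] at ha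
    have : (0 : ℝ) < 1 / ((k : ℝ) + 1) := by positivity
    linarith
  have h := HC_sum T x hx (N + (j + 1)) a.1 κ hκ.injective j (by omega) h0
  obtain ⟨_, hz, ⟨m, rfl⟩⟩ := h.inter_open_nonempty U hU hne
  exact ⟨m, hz⟩

theorem O2_dense (U : Set X) (hne : U.Nonempty) :
    DD 𝕂 X ⊆ closure (O2 𝕂 U ∩ DD 𝕂 X) := by
  rintro _ ⟨N, y, rfl⟩
  obtain ⟨u, hu⟩ := hne
  let g : 𝕂 → C(Bl 𝕂, X) := fun δ => Phi 𝕂 (N + 1) (fun n => if n < N then y n else δ • u)
  have hg : Continuous g := by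
    refine (Phi_cont (N + 1)).comp (continuous_pi fun n => ?_)
    split_ifs
    · exact continuous_const
    · fun_prop
  have h0 : g 0 = Phi 𝕂 N y := by
    rw [← Phi_pad N 1 y]
    simp [g]
  rw [← h0]
  refine map_mem_closure hg (dense_compl_singleton (0 : 𝕂) 0) ?_
  intro δ hδ
  have hδ' : δ ≠ 0 := hδ
  refine ⟨⟨ofNormedAddCommGroupDiscrete (fun n => if n = N then δ⁻¹ else 0) ‖δ⁻¹‖ ?_, ?_⟩,
    _, _, rfl⟩
  · intro n
    split_ifs
    · exact le_rfl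
    · simp
  · simp only [g]
    rw [ext_Phi, Finset.sum_range_succ, Finset.sum_eq_zero]
    · simpa [smul_smul, hδ'] using hu
    · intro n hn
      have := (Finset.mem_range.mp hn).ne
      simp [this]

end

theorem rank_bdd (𝕂 : Type) [RCLike 𝕂] : Cardinal.continuum ≤ Module.rank 𝕂 (ℕ →ᵇ 𝕂) := by
  let v : Ioo (0 : ℝ) 1 → (ℕ →ᵇ 𝕂) := fun t =>
    ofNormedAddCommGroupDiscrete (fun n => ((t : ℝ) : 𝕂) ^ n) 1 (fun n => by
      rw [norm_pow, RCLike.norm_ofReal, abs_of_pos t.2.1]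
      exact pow_le_one₀ t.2.1.le t.2.2.le)
  let f : (ℕ →ᵇ 𝕂) →ₗ[𝕂] (Multiplicative ℕ → 𝕂) :=
    ⟨⟨fun e n => e (Multiplicative.toAdd n), fun a b => rfl⟩, fun c a => rfl⟩
  have hli : LinearIndependent 𝕂 v := by
    refine LinearIndependent.of_comp f ?_
    have := (linearIndependent_monoidHom (Multiplicative ℕ) 𝕂).comp
      (fun t : Ioo (0 : ℝ) 1 => powersHom 𝕂 ((t : ℝ) : 𝕂)) (fun s t h => by
        have h2 := (powersHom 𝕂).injective h
        exact Subtype.ext (by exact_mod_cast h2))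
    exact this
  have := hli.cardinal_le_rank
  rwa [Cardinal.mk_Ioo_real zero_lt_one] at this

theorem card_le (X : Type) [TopologicalSpace X] [T0Space X] [SecondCountableTopology X] :
    Cardinal.mk X ≤ Cardinal.continuum := by
  have hinj : Function.Injective
      (fun x : X => ({U | x ∈ U.1} : Set (TopologicalSpace.countableBasis X))) := by
    intro x y h
    have := (TopologicalSpace.isBasis_countableBasis X).eq_iff (x := x) (y := y)
    refine this.mpr fun s hs => ?_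
    exact Set.ext_iff.mp h ⟨s, hs⟩
  refine (Cardinal.mk_le_of_injective hinj).trans ?_
  rw [Cardinal.mk_set, ← Cardinal.two_power_aleph0]
  refine Cardinal.power_le_power_left two_ne_zero ?_
  exact Cardinal.mk_le_aleph0

theorem result :
    ∀ (𝕂 : Type) [RCLike 𝕂] (X : Type) [AddCommGroup X] [Module 𝕂 X] [UniformSpace X]
      [IsUniformAddGroup X] [CompleteSpace X] [ContinuousSMul 𝕂 X]
      [TopologicalSpace.MetrizableSpace X] (T : X →L[𝕂] X),
      (∃ x : X, Dense (Set.range fun n : ℕ => (⇑T)^[n] x)) →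
      ∃ M : Submodule 𝕂 X, Dense (M : Set X) ∧
        (∀ x ∈ M, x ≠ 0 → Dense (Set.range fun n : ℕ => (⇑T)^[n] x)) ∧
        Module.rank 𝕂 M = Module.rank 𝕂 X := by
  intro 𝕂 _ X _ _ _ _ _ _ _ T ⟨x, hx0⟩
  have hiter : ∀ z : X, (fun n : ℕ => (⇑T)^[n] z) = fun n : ℕ => (T ^ n) z := by
    intro z
    funext n
    rw [ContinuousLinearMap.coe_pow']
  have hx : HC T x := by
    unfold HC
    rw [← hiter]
    exact hx0
  rcases subsingleton_or_nontrivial X with hs | hnt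
  · exact ⟨⊤, by simp, fun z _ hz => absurd (Subsingleton.elim _ _) hz, rank_top 𝕂 X⟩
  have : (uniformity X).IsCountablyGenerated := IsUniformAddGroup.uniformity_countably_generated
  have : TopologicalSpace.SeparableSpace X := ⟨⟨_, countable_range _, hx⟩⟩
  have : SecondCountableTopology X := UniformSpace.secondCountable_of_separable X
  let L : Set C(Bl 𝕂, X) := closure (DD 𝕂 X)
  have : CompleteSpace L := isClosed_closure.completeSpace_coe
  have : Nonempty L := ⟨⟨_, subset_closure ⟨0, 0, rfl⟩⟩⟩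
  have hB := TopologicalSpace.isBasis_countableBasis X
  have key : ∀ O : Set C(Bl 𝕂, X), DD 𝕂 X ⊆ closure (O ∩ DD 𝕂 X) →
      Dense (Subtype.val ⁻¹' O : Set L) := by
    intro O hO
    rw [Subtype.dense_iff]
    refine (closure_minimal hO isClosed_closure).trans (closure_mono ?_)
    rintro Φ ⟨h1, h2⟩
    exact ⟨⟨Φ, subset_closure h2⟩, h1, rfl⟩
  let G : ℕ × ℕ × TopologicalSpace.countableBasis X → Set L := fun i =>
    Subtype.val ⁻¹' O1 T i.1 i.2.1 i.2.2.1 ∩ Subtype.val ⁻¹' O2 𝕂 i.2.2.1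
  have hopen : ∀ U : TopologicalSpace.countableBasis X, IsOpen U.1 := fun U => hB.isOpen U.2
  have hne : ∀ U : TopologicalSpace.countableBasis X, U.1.Nonempty := fun U =>
    TopologicalSpace.nonempty_of_mem_countableBasis U.2
  have hG : Dense (⋂ i, G i) := by
    refine dense_iInter_of_isOpen (fun i => ?_) (fun i => ?_)
    · exact ((O1_open T _ _ _ (hopen _)).preimage continuous_subtype_val).inter
        ((O2_open _ (hopen _)).preimage continuous_subtype_val)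
    · exact (key _ (O1_dense T x hx _ _ _ (hopen _) (hne _))).inter_of_isOpen_right
        (key _ (O2_dense _ (hne _))) ((O2_open _ (hopen _)).preimage continuous_subtype_val)
  obtain ⟨Φ, hΦ⟩ := hG.nonempty
  rw [mem_iInter] at hΦ
  obtain ⟨Ψ, hΨ⟩ := exists_lin Φ.1 Φ.2
  have hHC : ∀ e, e ≠ 0 → HC T (Ψ e) := by
    intro e he
    rw [hΨ]
    refine HC_smul T _ ?_ _ (rad_ne e)
    obtain ⟨j, hj⟩ : ∃ j, e j ≠ 0 := by
      by_contra h
      push Not at h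
      exact he (by ext n; simpa using h n)
    have hpos : 0 < ‖(sc e).1 j‖ := norm_pos_iff.mpr (mul_ne_zero (inv_ne_zero (rad_ne e)) hj)
    obtain ⟨k, hk⟩ := exists_nat_one_div_lt hpos
    refine hB.dense_iff.mpr fun U hU _ => ?_
    obtain ⟨m, hm⟩ := (hΦ (j, k, ⟨U, hU⟩)).1 (sc e) hk.le
    exact ⟨_, hm, m, rfl⟩
  have hinj : Function.Injective Ψ := by
    rw [injective_iff_map_eq_zero]
    intro e he
    by_contra h
    have h1 := hHC e h
    rw [he] at h1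
    obtain ⟨y, hy⟩ := exists_ne (0 : X)
    obtain ⟨_, hz, ⟨n, rfl⟩⟩ := h1.inter_open_nonempty {0}ᶜ isOpen_compl_singleton ⟨y, hy⟩
    simp at hz
  refine ⟨LinearMap.range Ψ, ?_, ?_, ?_⟩
  · refine hB.dense_iff.mpr fun U hU _ => ?_
    obtain ⟨e, he⟩ := (hΦ (0, 0, ⟨U, hU⟩)).2
    exact ⟨_, he, e, hΨ e⟩
  · rintro _ ⟨e, rfl⟩ hz
    rw [hiter]
    exact hHC e fun h => hz (by rw [h, map_zero])
  · refine le_antisymm (Submodule.rank_le _) ?_
    rw [rank_range_of_injective Ψ hinj]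
    exact (rank_le_card 𝕂 X).trans ((card_le X).trans (rank_bdd 𝕂))

end Pool.Agent.S06827
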