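import Pool.Statements.S06830
-- import your own Pool.Agent.* helpers here

set_option autoImplicit false
open Pool Pool.MP_fda7e3_an

namespace Pool.Agent.S06830

open Polynomial in
noncomputable def T0 : Polynomial ℂ :=
  X + C (1/200000 : ℂ) * (C ((-3+Complex.I)/2) * X^4 + C (3+39*Complex.I) * (X^3+X) + C 390 * X^2)

lemma d1 (u : ℂ) : (Polynomial.derivative T0).eval u =
    1 + (1/200000 : ℂ) * ((-6+2*Complex.I) * u^3 + (9+117*Complex.I) * u^2 + 780 * u + (3+39*Complex.I)) := by
  simp [T0]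
  ring

lemma d2 (u : ℂ) : (Polynomial.derivative (Polynomial.derivative T0)).eval u =
    (1/200000 : ℂ) * (6 * (-3+Complex.I) * (u - (-4+7*Complex.I)) * (u - (1+5*Complex.I))) := by
  simp [T0]
  ring_nf
  simp only [Complex.I_sq, Complex.I_pow_three]
  ring

lemma d0 (u : ℂ) : T0.eval u =
    u + (1/200000 : ℂ) * ((-3+Complex.I)/2 * u^4 + (3+39*Complex.I) * (u^3+u) + 390 * u^2) := by
  simp [T0]

lemma small (p : ℂ) (h1 : p.re ≤ -4) (h2 : -1000 ≤ p.re) (h3 : p.im ≤ 1000) (h4 : -1000 ≤ p.im) :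
    ‖1 + (1/200000 : ℂ) * p‖ < 1 := by
  rw [← sq_lt_one_iff₀ (norm_nonneg _), Complex.sq_norm, Complex.normSq_apply]
  have e : (1/200000 : ℂ) = ((1/200000 : ℝ) : ℂ) := by push_cast; ring
  rw [e]
  simp only [Complex.add_re, Complex.one_re, Complex.re_ofReal_mul, Complex.add_im, Complex.one_im,
    Complex.im_ofReal_mul]
  nlinarith [mul_nonneg (sub_nonneg.2 h3) (sub_nonneg.2 h4), mul_nonneg (sub_nonneg.2 h1) (sub_nonneg.2 h2)]

lemma big (p : ℂ) (h1 : 0 ≤ p.re) : ¬ ‖1 + (1/200000 : ℂ) * p‖ < 1 := by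
  intro h
  have e : (1/200000 : ℂ) = ((1/200000 : ℝ) : ℂ) := by push_cast; ring
  have := Complex.re_le_norm (1 + (1/200000 : ℂ) * p)
  rw [e] at this h
  simp only [Complex.add_re, Complex.one_re, Complex.re_ofReal_mul] at this
  linarith

lemma seg (s : ℝ) (hs : s = 1 ∨ s = -1) :
    segment ℝ (-1 : ℂ) ((s : ℂ) * Complex.I) ⊆ {u : ℂ | ‖(Polynomial.derivative T0).eval u‖ < 1} := by
  rintro u ⟨a, t, ha, ht, hat, rfl⟩
  obtain rfl : a = 1 - t := by linarith
  have ht1 : t ≤ 1 := by linarith
  show ‖_‖ < 1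
  rw [d1]
  have b0 : 0 ≤ t^3 := by positivity
  have b1 : 0 ≤ t^2 * (1-t) := by positivity
  have b2 : 0 ≤ t * (1-t)^2 := by positivity
  have b3 : 0 ≤ (1-t)^3 := by positivity
  rcases hs with rfl | rfl <;> apply small <;>
    simp [pow_succ, Complex.mul_re, Complex.mul_im] <;> nlinarith

theorem result :
    ¬ (∀ (T : Polynomial ℂ) (x : ℂ), ‖(Polynomial.derivative T).eval x‖ < 1 →
      ∀ w : ℂ,
        {z : ℂ | z ∈ connectedComponentIn {u : ℂ | ‖(Polynomial.derivative T).eval u‖ < 1} x ∧
            starRingEnd ℂ z + T.eval z = w}.encard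
          ≤ (((∑ᶠ z ∈ connectedComponentIn {u : ℂ | ‖(Polynomial.derivative T).eval u‖ < 1} x,
                (Polynomial.derivative (Polynomial.derivative T)).rootMultiplicity z) + 1 : ℕ) : ℕ∞)) := by
  intro H
  have hx : ‖(Polynomial.derivative T0).eval (-1)‖ < 1 :=
    seg 1 (Or.inl rfl) (left_mem_segment _ _ _)
  have hmem : ∀ s : ℝ, s = 1 ∨ s = -1 → (s : ℂ) * Complex.I ∈
      connectedComponentIn {u : ℂ | ‖(Polynomial.derivative T0).eval u‖ < 1} (-1) := by
    intro s hs
    exact (convex_segment (𝕜 := ℝ) _ _).isPreconnected.subset_connectedComponentIn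
      (left_mem_segment _ _ _) (seg s hs) (right_mem_segment _ _ _)
  have h := H T0 (-1) hx (T0.eval Complex.I - Complex.I)
  have h0 : (∑ᶠ z ∈ connectedComponentIn {u : ℂ | ‖(Polynomial.derivative T0).eval u‖ < 1} (-1),
      (Polynomial.derivative (Polynomial.derivative T0)).rootMultiplicity z) = 0 := by
    apply finsum_mem_eq_zero_of_forall_eq_zero
    intro z hz
    have hz0 := connectedComponentIn_subset _ _ hz
    have hz' : ‖(Polynomial.derivative T0).eval z‖ < 1 := hz0
    apply Polynomial.rootMultiplicity_eq_zero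
    intro hr
    rw [Polynomial.IsRoot.def, d2] at hr
    rw [d1] at hz'
    have hI : (-3 + Complex.I) ≠ 0 := by
      intro h; have := congrArg Complex.im h; simp at this
    simp only [mul_eq_zero, hI, or_false, sub_eq_zero] at hr
    rcases hr with hr | (hr | hr) | hr
    · norm_num at hr
    · norm_num at hr
    · subst hr
      refine big _ ?_ hz'
      simp [pow_succ, Complex.mul_re, Complex.mul_im]; norm_num
    · subst hr
      refine big _ ?_ hz'
      simp [pow_succ, Complex.mul_re, Complex.mul_im]; norm_num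
  rw [h0] at h
  have hne : Complex.I ≠ -Complex.I := by
    intro h; have := congrArg Complex.im h; norm_num at this
  have hsub : ({Complex.I, -Complex.I} : Set ℂ) ⊆
      {z : ℂ | z ∈ connectedComponentIn {u : ℂ | ‖(Polynomial.derivative T0).eval u‖ < 1} (-1) ∧
            starRingEnd ℂ z + T0.eval z = T0.eval Complex.I - Complex.I} := by
    rintro z (rfl | rfl)
    · refine ⟨by simpa using hmem 1 (Or.inl rfl), ?_⟩
      rw [Complex.conj_I]; ring
    · refine ⟨by simpa using hmem (-1) (Or.inr rfl), ?_⟩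
      rw [map_neg, Complex.conj_I, d0, d0]
      have : Complex.I ^ 3 = - Complex.I := Complex.I_pow_three
      linear_combination (-(1/100000) * (3+39*Complex.I)) * this
  have h2 := (Set.encard_le_encard hsub).trans h
  rw [Set.encard_pair hne] at h2
  norm_num at h2

end Pool.Agent.S06830
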