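import Pool.Statements.S06837
import Pool.Agent.H.MP_20ef18_an.B

set_option autoImplicit false
open Pool Pool.MP_fe3998_an

namespace Pool.Agent.S06837

/-- There is a constant C such that whenever a and b are antidiagonal sums of matrices with injective tensor norm at most M1 and M2, their convolution product is such a sum of a matrix with norm at most C·M1·M2+ε, for every ε>0. -/
theorem result :
    ∃ C : ℝ, ∀ (a b : ℕ → ℂ) (M₁ M₂ : ℝ),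
      (∃ γ : ℕ → ℕ → ℂ,
        (∀ n : ℕ, ∑ m ∈ Finset.range (n + 1), γ m (n - m) = a n) ∧
        ∀ (N : ℕ) (x y : ℕ → ℂ), (∀ i : ℕ, ‖x i‖ ≤ 1) → (∀ j : ℕ, ‖y j‖ ≤ 1) →
          ‖∑ m ∈ Finset.range N, ∑ k ∈ Finset.range N, γ m k * x m * y k‖ ≤ M₁) →
      (∃ γ : ℕ → ℕ → ℂ,
        (∀ n : ℕ, ∑ m ∈ Finset.range (n + 1), γ m (n - m) = b n) ∧
        ∀ (N : ℕ) (x y : ℕ → ℂ), (∀ i : ℕ, ‖x i‖ ≤ 1) → (∀ j : ℕ, ‖y j‖ ≤ 1) →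
          ‖∑ m ∈ Finset.range N, ∑ k ∈ Finset.range N, γ m k * x m * y k‖ ≤ M₂) →
      ∀ ε : ℝ, ε > 0 →
      ∃ γ : ℕ → ℕ → ℂ,
        (∀ n : ℕ, ∑ m ∈ Finset.range (n + 1), γ m (n - m) =
            ∑ m ∈ Finset.range (n + 1), a m * b (n - m)) ∧
        ∀ (N : ℕ) (x y : ℕ → ℂ), (∀ i : ℕ, ‖x i‖ ≤ 1) → (∀ j : ℕ, ‖y j‖ ≤ 1) →
          ‖∑ m ∈ Finset.range N, ∑ k ∈ Finset.range N, γ m k * x m * y k‖ ≤ C * M₁ * M₂ + ε := by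
  refine ⟨2 * H.MP_20ef18_an.K ^ 2, fun a b M₁ M₂ ⟨γ, h1, h2⟩ ⟨δ, h3, h4⟩ ε hε => ?_⟩
  refine ⟨H.MP_20ef18_an.cv γ δ, fun n => ?_, fun N x y hx hy => ?_⟩
  · have e := H.MP_20ef18_an.cv_diag γ δ n
    simp only [Finset.Nat.sum_antidiagonal_eq_sum_range_succ_mk, h1, h3] at e
    exact e
  · exact (H.MP_20ef18_an.BN.cv h2 h4 N x y hx hy).trans (le_add_of_nonneg_right hε.le)

end Pool.Agent.S06837
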