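import Pool.Statements.S06857
import Pool.Agent.H.MP_ffb813_an.C

set_option autoImplicit false
open Pool Pool.MP_ffb813_an

namespace Pool.Agent.S06857

theorem result :
    ∀ φ : ℂ → ℂ,
      DifferentiableOn ℂ φ (Metric.ball (0 : ℂ) 1) →
      Set.MapsTo φ (Metric.ball (0 : ℂ) 1) (Metric.ball (0 : ℂ) 1) →
      (¬ ∃ c : ℂ, ‖c‖ = 1 ∧ ∀ z ∈ Metric.ball (0 : ℂ) 1, φ z = c * z) →
      ∀ j k : ℕ,
        Filter.Tendsto
          (fun n : ℕ =>
            iteratedDeriv (n + k) (fun z => φ z ^ (n + j)) 0 / ((n + k).factorial : ℂ))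
          Filter.atTop (nhds 0) := by
  intro φ hd hm hr j k
  have hm' : ∀ z, ‖z‖ < 1 → ‖φ z‖ < 1 := fun z hz => by simpa using hm (by simpa using hz)
  by_cases h0 : φ 0 = 0
  · have dg := (Complex.differentiableOn_dslope (Metric.ball_mem_nhds (0 : ℂ) zero_lt_one)).2 hd
    have h3 : (1 / 2 : ℝ) < 1 := by norm_num
    have sb := Metric.sphere_subset_closedBall.trans (Metric.closedBall_subset_ball (x := (0 : ℂ)) h3)
    obtain ⟨z₁, z1, hz⟩ := (isCompact_sphere (0 : ℂ) (1 / 2)).exists_isMaxOn
      (NormedSpace.sphere_nonempty.2 (by norm_num)) (dg.continuousOn.mono sb).norm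
    have m : Set.MapsTo φ (Metric.ball 0 1) (Metric.closedBall (φ 0) 1) := by
      rw [h0]
      exact hm.mono_right Metric.ball_subset_closedBall
    have m1 : ‖dslope φ 0 z₁‖ < 1 := lt_of_le_of_ne ((Complex.norm_dslope_le_div_of_mapsTo_ball hd m
      (sb z1)).trans_eq (div_one 1)) fun he => hr ⟨_, he, fun z hz => by
        rw [Complex.affine_of_mapsTo_ball_of_norm_dslope_eq_div hd m (sb z1)
          (he.trans (div_one 1).symm) hz]
        simp [h0, mul_comm]⟩
    have t := (tendsto_pow_atTop_nhds_zero_of_lt_one (norm_nonneg _) m1).mul_const (2 ^ k)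
    rw [zero_mul] at t
    refine squeeze_zero_norm (fun n => ?_) t
    have := Complex.norm_iteratedDeriv_le_of_forall_mem_sphere_norm_le (c := 0) (R := 1 / 2)
      (f := fun z => φ z ^ (n + j)) (C := ‖dslope φ 0 z₁‖ ^ n * (1 / 2) ^ n) (n + k) (by norm_num)
      ((hd.pow (n + j)).mono (Metric.closure_ball_subset_closedBall.trans
        (Metric.closedBall_subset_ball h3))).diffContOnCl fun z hz' => by
      have e : ‖φ z‖ = ‖dslope φ 0 z‖ * (1 / 2) := by
        rw [← mem_sphere_zero_iff_norm.1 hz', ← norm_mul, mul_comm]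
        simpa [h0] using congrArg norm (sub_smul_dslope φ 0 z).symm
      rw [norm_pow, pow_add, ← mul_pow]
      refine (mul_le_of_le_one_right (by positivity) (pow_le_one₀ (norm_nonneg _)
        (hm' z (by simpa using sb hz')).le)).trans (pow_le_pow_left₀ (norm_nonneg _) ?_ n)
      rw [e]
      exact mul_le_mul_of_nonneg_right (hz hz') (by norm_num)
    rw [norm_div, Complex.norm_natCast, div_le_iff₀ (by positivity)]
    refine this.trans_eq ?_
    rw [pow_add, one_div, inv_pow, inv_pow]
    field_simp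
  · choose! h hf using fun w (hw : ‖w‖ < 1) => H.MP_ffb813_an.fix_ex hd hm' hw
    exact H.MP_ffb813_an.main hd hm' h0 hf j k

end Pool.Agent.S06857
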