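import Pool.Statements.S06872

set_option autoImplicit false
open Pool Pool.MP_00c8a8_co

namespace Pool.Agent.S06872

open Finset

def TAB : ℕ := 0x1200000000000000000000000000000000000000000000000000000000000000000000000000000000000000000000000000000000000400000000000000000000010002000000000000000000200040011000000000000000000000000000000000000000000000000000000000000000000000000000000000300000000000000000000010001b0000000000000000000006c01180000000000000000100026006db00000000000000000000000000000000000000000000000000000000000000000000000000000000000000000000000000000000000000000000000000000000000000000000000000000000000000000000000000000000000000000000000000000000000000000000000000000000000000000000000000000000000000000000000000000000000000000000000000000000000000000000000000000000000000000000000000000000000000000000000000000000000000000000000000000000000000000000000000000000000000000000000000000000000000000000000000000000000000000000000000001200000000000000000000000000000000000000000000000000000000000000000000000000000000000000000000000000000000000000000000000000000000014002d000000000000000000000b4009200000000000000000000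0000000000000000000000000000000000000000000000000000000000004000000000000000000000100009000000000000000000000b4010800000000000000001000240089000000000000000000000000000000000000000000000000000000300000000000000000000010001b0000000000000000030006c004800000000000000001b0046c085800000000000040009b0226036db00000000000000000000000000000000000000000000000000000000000000000000000000000000000000000000000000000000000000000000000000000000000000000000000000000000000000000000000000000000000000000000000000000000000000000000000000000000000000000000000000000000000000000000000000000000000000000000000000000000000000000000000000000000000000000000000000000000000000000000000000000000000000000000000000000000000000000000000000000000000000000000000000000000000000000000000000000000000000000000000000002000000000000000000000000000000000000000000000000000000000000000000000000000000000000000000000000000000000000400000000000000000000010002000000000000000000200048011000000000000000000000000000000000000000000000000000000000000000000000000000000000400000000000000000000010000900000000000000000600098010800000000000000001600440084800000000000000000000000000000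00000000000000000000000040000000000000000000000c001b0000000000000000030006c004800000000000000001e0046c025800000000000040009b01b60365b00000000000000000000000000000000000000000000000000000000000000000000000000000000000000000000000000000000000000000000000000000000000000000000000000000000000000000000000000000000000000000000000000000000000000000000000000000000000000000000000000000000000000000000000000000000000000000000000000000000000000000000000000000000002000000000000000000000000000000000000000000000000000000000000000000000000000000000000000000000000000000000000000000000000000000000014002d000000000000000000000b40112000000000000000000000000000000000000000000000000000000000000000000000000000000004000000000000000000000100009000000000000000000000b40108000000000000000010002480890000000000000000000000000000000000000000000000000000004000000000000000000000100020000000000000000000000800108000000000000000036004c008480000000000004000b002240124800000000000000000000000000300000000000000000000010001b0000000000000000030006c011800000000000000001b004600248000000000000d801b30266c125b000000010002c0059b0db61965b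

/-- colour of a 5-set in terms of the numbers of its vertices in the seven parts -/
def col (a : Fin 7 → ℕ) : ℕ :=
  (TAB >>> (3 * (a 0 + 6 * a 1 + 36 * a 2 + 216 * a 3 + 1296 * a 5 + 2592 * a 6))) % 8

def upd (a : Fin 7 → ℕ) (i j : Fin 7) : Fin 7 → ℕ :=
  fun t => a t + (if i = t then 1 else 0) - (if j = t then 1 else 0)

def Ok (a : Fin 7 → ℕ) : Prop :=
  ∃ i : Fin 7, i.val < 5 ∧ ∃ c : Fin 7, col a = c.val ∧ i ≠ c ∧ a c = 0 ∧
    ∀ j : Fin 7, 0 < a j → col (upd a i j) = c.val

instance (a : Fin 7 → ℕ) : Decidable (Ok a) := by unfold Ok; infer_instance

lemma check : ∀ a0 a1 a2 a3 : Fin 6, ∀ a5 a6 : Fin 2,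
    a0.val + a1.val + a2.val + a3.val + a5.val + a6.val ≤ 5 →
    Ok ![a0.val, a1.val, a2.val, a3.val,
      5 - (a0.val + a1.val + a2.val + a3.val + a5.val + a6.val), a5.val, a6.val] := by
  decide +kernel

lemma ok_of_sum (a : Fin 7 → ℕ) (hs : ∑ j, a j = 5) (h5 : a 5 ≤ 1) (h6 : a 6 ≤ 1) : Ok a := by
  simp only [Fin.sum_univ_seven] at hs
  have := check ⟨a 0, by omega⟩ ⟨a 1, by omega⟩ ⟨a 2, by omega⟩ ⟨a 3, by omega⟩ ⟨a 5, by omega⟩
    ⟨a 6, by omega⟩ (by simp only; omega)
  convert this using 1
  funext t
  fin_cases t <;> simp
  omega

def p (v : Fin 162) : Fin 7 := if h : v.val < 160 then ⟨v.val / 32, by omega⟩ else ⟨v.val - 155, by omega⟩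

def cnt (S : Finset (Fin 162)) : Fin 7 → ℕ := fun j => (S.filter (fun v => p v = j)).card

lemma part_card : ∀ j : Fin 7, (univ.filter (fun v => p v = j)).card = if j.val < 5 then 32 else 1 := by
  decide +kernel

lemma cnt_sum (S : Finset (Fin 162)) : ∑ j, cnt S j = S.card :=
  (card_eq_sum_card_fiberwise (s := S) (t := univ) (f := p) (fun _ _ => by simp)).symm

lemma cnt_le (S : Finset (Fin 162)) (j : Fin 7) : cnt S j ≤ if j.val < 5 then 32 else 1 := by
  rw [← part_card]
  exact card_le_card (filter_subset_filter _ (subset_univ _))

lemma cnt_upd (S : Finset (Fin 162)) (v w : Fin 162) (hv : v ∉ S) (hw : w ∈ S) :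
    cnt ((insert v S).erase w) = upd (cnt S) (p v) (p w) := by
  funext t
  have hvw : v ≠ w := fun h => hv (h ▸ hw)
  simp only [cnt, upd, filter_erase, filter_insert]
  by_cases h1 : p v = t <;> by_cases h2 : p w = t
  · rw [if_pos h1, if_pos h1, if_pos h2, card_erase_of_mem (by simp [hw, h2]),
      card_insert_of_notMem (by simp [hv])]
  · rw [if_pos h1, if_pos h1, if_neg h2, erase_eq_of_notMem (by simp [h2, hvw.symm]),
      card_insert_of_notMem (by simp [hv])]
    simp
  · rw [if_neg h1, if_neg h1, if_pos h2, card_erase_of_mem (by simp [hw, h2])]
    simp
  · rw [if_neg h1, if_neg h1, if_neg h2, erase_eq_of_notMem (by simp [h2])]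
    simp

def Has (e : Finset (Fin 162)) (c : Fin 7) : Prop :=
  (∀ v ∈ e, p v ≠ c) ∧ ∀ v ∈ e, col (cnt (e.erase v)) = c.val

open Classical in
noncomputable def H : Finset (Finset (Fin 162)) :=
  (powersetCard 6 univ).filter (fun e => ∃ c, Has e c)

lemma mem_H {e : Finset (Fin 162)} : e ∈ H ↔ e.card = 6 ∧ ∃ c, Has e c := by
  simp only [H, mem_filter, mem_powersetCard, subset_univ, true_and]

lemma erase_of_sub {S e : Finset (Fin 162)} (h : S ⊆ e) (hS : S.card = 5) (he : e.card = 6) :
    ∃ v ∈ e, e.erase v = S := by
  obtain ⟨v, hv, hv'⟩ := exists_mem_notMem_of_card_lt_card (s := S) (t := e) (by omega)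
  refine ⟨v, hv, (eq_of_subset_of_card_le ?_ ?_).symm⟩
  · intro x hx
    exact mem_erase.mpr ⟨fun hh => hv' (hh ▸ hx), h hx⟩
  · rw [card_erase_of_mem hv]; omega

lemma has_step {a b : Finset (Fin 162)} {c : Fin 7} (ha : a ∈ H) (hb : b ∈ H)
    (hab : 5 ≤ (a ∩ b).card) (hc : Has a c) : Has b c := by
  obtain ⟨S, hS, hS5⟩ := exists_subset_card_eq hab
  obtain ⟨ha6, -⟩ := mem_H.mp ha
  obtain ⟨hb6, c', hc'⟩ := mem_H.mp hb
  obtain ⟨v, hv, hv'⟩ := erase_of_sub (hS.trans inter_subset_left) hS5 ha6
  obtain ⟨w, hw, hw'⟩ := erase_of_sub (hS.trans inter_subset_right) hS5 hb6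
  have h1 := hc.2 v hv
  have h2 := hc'.2 w hw
  rw [hv'] at h1
  rw [hw'] at h2
  have : c = c' := Fin.ext (h1.symm.trans h2)
  rw [this]; exact hc'

lemma codeg (S : Finset (Fin 162)) (hS : S.card = 5) : 27 ≤ (H.filter (fun e => S ⊆ e)).card := by
  obtain ⟨i, hi, c, h1, h2, h3, h4⟩ := ok_of_sum (cnt S) (by rw [cnt_sum, hS])
    (by simpa using cnt_le S 5) (by simpa using cnt_le S 6)
  have hc : 27 ≤ ((univ.filter (fun v => p v = i)) \ S).card := by
    have := le_card_sdiff S (univ.filter (fun v => p v = i))
    rw [part_card, if_pos hi, hS] at this
    omega
  refine hc.trans (card_le_card_of_injOn (fun v => insert v S) ?_ ?_)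
  · intro v hv
    simp only [coe_sdiff, coe_filter, mem_univ, true_and, Set.mem_sdiff, Set.mem_ofPred_eq, mem_coe] at hv
    obtain ⟨hvi, hvS⟩ := hv
    simp only [coe_filter, Set.mem_ofPred_eq]
    refine ⟨mem_H.mpr ⟨by rw [card_insert_of_notMem hvS, hS], c, ?_, ?_⟩, subset_insert _ _⟩
    · intro w hw
      rcases mem_insert.mp hw with rfl | hw
      · rw [hvi]; exact h2
      · intro hwc
        have : 0 < cnt S c := card_pos.mpr ⟨w, mem_filter.mpr ⟨hw, hwc⟩⟩
        omega
    · intro w hw
      rcases mem_insert.mp hw with rfl | hw
      · rw [erase_insert hvS]; exact h1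
      · rw [cnt_upd S v w hvS hw, hvi]
        exact h4 _ (card_pos.mpr ⟨w, mem_filter.mpr ⟨hw, rfl⟩⟩)
  · intro v hv w hw hvw
    simp only [coe_sdiff, Set.mem_sdiff, mem_coe] at hv hw
    have : v ∈ insert w S := by
      have h5 : v ∈ insert v S := mem_insert_self _ _
      simp only at hvw
      rwa [hvw] at h5
    rcases mem_insert.mp this with h | h
    · exact h
    · exact absurd h hv.2

lemma p_surj : ∀ c : Fin 7, ∃ v, p v = c := by decide +kernel

theorem result :
    ¬ (∀ (k n : ℕ), 2 ≤ k → k ≤ n →
      ∀ H : Finset (Finset (Fin n)),
        (∀ e ∈ H, e.card = k) →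
        (∀ S : Finset (Fin n), S.card = k - 1 →
          n ≤ k * (H.filter (fun e => S ⊆ e)).card) →
        ∃ e ∈ H, ∀ v : Fin n, ∃ f ∈ H,
          Relation.ReflTransGen
            (fun a b : Finset (Fin n) => a ∈ H ∧ b ∈ H ∧ k - 1 ≤ (a ∩ b).card) e f
          ∧ v ∈ f) := by
  intro h
  obtain ⟨e, he, hv⟩ := h 6 162 (by norm_num) (by norm_num) H (fun e he => (mem_H.mp he).1)
    (fun S hS => by
      have := codeg S hS
      omega)
  obtain ⟨c, hc⟩ := (mem_H.mp he).2
  obtain ⟨v, hvc⟩ := p_surj c
  obtain ⟨f, _, hef, hvf⟩ := hv v
  have : Has f c := by
    clear hvf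
    induction hef with
    | refl => exact hc
    | tail _ hab ih => exact has_step hab.1 hab.2.1 hab.2.2 (ih hab.1)
  exact this.1 v hvf hvc

end Pool.Agent.S06872
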