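import Pool.Statements.S06877
import Pool.Agent.H.MP_012ca0_co.B

set_option autoImplicit false
open Pool Pool.MP_012ca0_co

namespace Pool.Agent.S06877

theorem result :
    ∀ n : ℕ, Odd n → 3 ≤ n →
      ∃ adj : Fin n → Fin n → Prop,
        (∀ v, ¬ adj v v) ∧
        (∀ v w, v ≠ w → (adj v w ↔ ¬ adj w v)) ∧
        (∀ v, {w : Fin n | adj v w}.ncard = (n - 1) / 2) ∧
        ((Nat.factorial (n - 1) : ℝ) / (2 : ℝ) ^ n ≤
          (({c : Equiv.Perm (Fin n) |
              c.IsCycle ∧ c.support = Finset.univ ∧ ∀ v, adj v (c v)}.ncard : ℕ) : ℝ)) := by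
  intro n hn h3
  obtain ⟨F, h1, h2⟩ := H.MP_012ca0_co.main hn h3
  refine ⟨H.MP_012ca0_co.adj F, fun v => by simp [H.MP_012ca0_co.adj], fun v w h => ?_,
    fun v => ?_, ?_⟩
  · unfold H.MP_012ca0_co.adj
    rcases lt_or_gt_of_ne h with h' | h' <;> simp [h', not_lt.2 h'.le]
  · have := H.MP_012ca0_co.D_card F v
    rw [h1] at this
    have e : {w : Fin n | H.MP_012ca0_co.adj F v w} =
        ((Finset.univ.filter (H.MP_012ca0_co.adj F v) : Finset (Fin n)) : Set (Fin n)) := by simp
    rw [e, Set.ncard_coe_finset]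
    simp only [Pi.zero_apply] at this
    omega
  · rw [div_le_iff₀ (by positivity), mul_comm]
    have h4 : (Finset.univ.filter (fun c : Equiv.Perm (Fin n) =>
        c.cycleType = {n} ∧ ∀ v, H.MP_012ca0_co.adj F v (c v))).card ≤
        {c : Equiv.Perm (Fin n) |
          c.IsCycle ∧ c.support = Finset.univ ∧ ∀ v, H.MP_012ca0_co.adj F v (c v)}.ncard := by
      rw [← Set.ncard_coe_finset]
      refine Set.ncard_le_ncard (fun c hc => ?_) (Set.toFinite _)
      obtain ⟨hc', hv⟩ := (Finset.mem_filter.1 (Finset.mem_coe.1 hc)).2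
      have hcyc : c.IsCycle := Equiv.Perm.card_cycleType_eq_one.1 (by rw [hc']; rfl)
      have hs : c.support.card = n := by
        have := hcyc.cycleType; rw [hc'] at this; exact (Multiset.singleton_inj.1 this).symm
      exact ⟨hcyc, Finset.eq_univ_of_card _ (by simpa using hs), hv⟩
    exact_mod_cast h2.trans (Nat.mul_le_mul_left _ h4)

end Pool.Agent.S06877
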