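import Pool.Statements.S06884
import Pool.Agent.H.MP_016f39_co.A

set_option autoImplicit false
open Pool Pool.MP_016f39_co

namespace Pool.Agent.S06884

/-- The negation of the preceding statement: Every finite graph of minimum degree at least 3 in which no nonempty independent set S leaves more than ∣S∣ components has an edge uv such that deleting it, and also contracting it, keep that property. -/
theorem result :
    ¬ (∀ (V : Type) [Fintype V] [Nonempty V] (G : SimpleGraph V) [DecidableRel G.Adj],
      (∀ x : V, 3 ≤ G.degree x) →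
      (∀ S : Finset V, S.Nonempty → G.IsIndepSet (S : Set V) →
        Nat.card (G.induce ((S : Set V)ᶜ)).ConnectedComponent ≤ S.card) →
      ∃ u v : V, G.Adj u v ∧
        (∀ S : Finset V, S.Nonempty →
          (G.deleteEdges {s(u, v)}).IsIndepSet (S : Set V) →
          Nat.card ((G.deleteEdges {s(u, v)}).induce ((S : Set V)ᶜ)).ConnectedComponent
            ≤ S.card) ∧
        (∀ S : Finset {w : V // w ≠ v}, S.Nonempty →
          (SimpleGraph.fromRel (fun a b : {w : V // w ≠ v} =>
              G.Adj a.1 b.1 ∨ (a.1 = u ∧ G.Adj v b.1))).IsIndepSet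
            (S : Set {w : V // w ≠ v}) →
          Nat.card ((SimpleGraph.fromRel (fun a b : {w : V // w ≠ v} =>
              G.Adj a.1 b.1 ∨ (a.1 = u ∧ G.Adj v b.1))).induce
              ((S : Set {w : V // w ≠ v})ᶜ)).ConnectedComponent ≤ S.card)) := by
  intro h
  obtain ⟨u, v, huv, h1, h2⟩ := h (Fin 19) Pool.Agent.H.MP_016f39_co.G0
    Pool.Agent.H.MP_016f39_co.deg Pool.Agent.H.MP_016f39_co.tough
  obtain ⟨d, hd, rfl, rfl⟩ := Pool.Agent.H.MP_016f39_co.data_cover u v huv
  have := Pool.Agent.H.MP_016f39_co.data_ok d hd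
  cases hb : d.2.2.1
  · rw [hb, cond_false] at this
    exact Pool.Agent.H.MP_016f39_co.con_bad _ _ _ _ this h2
  · rw [hb, cond_true] at this
    exact Pool.Agent.H.MP_016f39_co.del_bad _ _ _ _ this h1

end Pool.Agent.S06884
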