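import Pool.Statements.S06914
import Pool.Agent.H.MP_2a19ed_co.I

set_option autoImplicit false
open MeasureTheory
open Pool Pool.MP_02cac4_co

namespace Pool.Agent.S06914

theorem result :
    ¬ (∃ d₀ : ℕ, ∀ d : ℕ, d₀ ≤ d →
    {C : {K : ConvexBody (EuclideanSpace ℝ (Fin d)) // ∀ x ∈ K, -x ∈ K} |
      (interior (C.1 : Set (EuclideanSpace ℝ (Fin d)))).Nonempty →
      ∀ b : Fin d → EuclideanSpace ℝ (Fin d), LinearIndependent ℝ b →
        ((∃ ε > (0 : ℝ), ∀ A : EuclideanSpace ℝ (Fin d) →L[ℝ] EuclideanSpace ℝ (Fin d),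
            LinearMap.trace ℝ (EuclideanSpace ℝ (Fin d))
              (A : EuclideanSpace ℝ (Fin d) →ₗ[ℝ] EuclideanSpace ℝ (Fin d)) = 0 →
            ‖A‖ < ε →
            (⨅ z : {z : Fin d → ℤ // z ≠ 0},
                gauge (C.1 : Set (EuclideanSpace ℝ (Fin d)))
                  (∑ i, (z.1 i : ℝ) • (b i + A (b i)))) ^ d
              * (volume (C.1 : Set (EuclideanSpace ℝ (Fin d)))).toReal
              / (2 ^ d * (volume (parallelepiped (fun i => b i + A (b i)))).toReal)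
            ≤ (⨅ z : {z : Fin d → ℤ // z ≠ 0},
                gauge (C.1 : Set (EuclideanSpace ℝ (Fin d)))
                  (∑ i, (z.1 i : ℝ) • b i)) ^ d
              * (volume (C.1 : Set (EuclideanSpace ℝ (Fin d)))).toReal
              / (2 ^ d * (volume (parallelepiped b)).toReal))
        ↔
         (∃ c > (0 : ℝ), ∃ ε > (0 : ℝ), ∀ A : EuclideanSpace ℝ (Fin d) →L[ℝ] EuclideanSpace ℝ (Fin d),
            LinearMap.trace ℝ (EuclideanSpace ℝ (Fin d))
              (A : EuclideanSpace ℝ (Fin d) →ₗ[ℝ] EuclideanSpace ℝ (Fin d)) = 0 →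
            ‖A‖ < ε →
            (⨅ z : {z : Fin d → ℤ // z ≠ 0},
                gauge (C.1 : Set (EuclideanSpace ℝ (Fin d)))
                  (∑ i, (z.1 i : ℝ) • (b i + A (b i)))) ^ d
              * (volume (C.1 : Set (EuclideanSpace ℝ (Fin d)))).toReal
              / (2 ^ d * (volume (parallelepiped (fun i => b i + A (b i)))).toReal)
            ≤ (1 - c * ‖A‖) *
              ((⨅ z : {z : Fin d → ℤ // z ≠ 0},
                gauge (C.1 : Set (EuclideanSpace ℝ (Fin d)))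
                  (∑ i, (z.1 i : ℝ) • b i)) ^ d
              * (volume (C.1 : Set (EuclideanSpace ℝ (Fin d)))).toReal
              / (2 ^ d * (volume (parallelepiped b)).toReal))))}
    ∈ residual {K : ConvexBody (EuclideanSpace ℝ (Fin d)) // ∀ x ∈ K, -x ∈ K}) := by
  rintro ⟨d₀, h⟩
  have hd := le_max_right d₀ 3
  have h := h _ (le_max_left d₀ 3)
  generalize max d₀ 3 = d at hd h
  let g : {K : ConvexBody (EuclideanSpace ℝ (Fin d)) // ∀ x ∈ K, -x ∈ K} →
    TopologicalSpace.NonemptyCompacts (EuclideanSpace ℝ (Fin d)) :=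
    fun C => ⟨⟨C.1, C.1.isCompact⟩, C.1.nonempty⟩
  have iso : Isometry g := Isometry.of_dist_eq fun _ _ => rfl
  have := H.MP_2a19ed_co.baire0 iso fun K => ⟨by rintro ⟨C, rfl⟩; exact ⟨C.1.convex, C.2⟩,
    fun k => ⟨⟨⟨K, k.1, K.isCompact, K.nonempty⟩, k.2⟩, rfl⟩⟩
  obtain ⟨c, ε, c3, e0, e1, k⟩ := H.MP_2a19ed_co.core2 (d := d) (by omega)
  obtain ⟨C, hC, hi, ho⟩ := H.MP_2a19ed_co.pre (by omega) (EuclideanSpace.equiv (Fin d) ℝ) iso
    (fun C => C.1.convex) (fun K k => ⟨⟨⟨K, k.1, K.isCompact, K.nonempty⟩, k.2.2⟩, rfl⟩) h c3 e0 e1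
  obtain ⟨A, a1, a2, a3, a4⟩ := k _ hi ho
  obtain ⟨i, b, b1, b2, b3⟩ := H.MP_2a19ed_co.fin2 hd C.1 C.2
    (hi 0 (H.MP_2a19ed_co.In_zero (by linarith) (by linarith))) a1 a2 a3 a4 _ fun _ => rfl
  obtain ⟨c, c0, ε, e0, u⟩ := (hC i b b1).1 ⟨1, one_pos, fun F _ _ => b2 fun i => b i + F (b i)⟩
  obtain ⟨F, f1, f2, f3⟩ := b3 c c0 ε e0
  exact f3.not_ge (u F f1 f2)

end Pool.Agent.S06914
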