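import Pool.Statements.S06936

set_option autoImplicit false
open Pool Pool.MP_038631_co

namespace Pool.Agent.S06936

/-- two disjoint copies of the complete graph on 13 vertices -/
def G : SimpleGraph (Fin 13 × Bool) where
  Adj a b := a.2 = b.2 ∧ a.1 ≠ b.1
  symm := ⟨fun _ _ h => ⟨h.1.symm, h.2.symm⟩⟩
  loopless := ⟨fun _ h => h.2 rfl⟩

instance : DecidableRel G.Adj := fun a b => inferInstanceAs (Decidable (a.2 = b.2 ∧ a.1 ≠ b.1))

lemma side {a b : Fin 13 × Bool} (p : G.Walk a b) : ∀ x ∈ p.support, x.2 = a.2 := by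
  induction p with
  | nil => simp
  | cons h p ih =>
    intro x hx
    rw [SimpleGraph.Walk.support_cons, List.mem_cons] at hx
    rcases hx with rfl | hx
    · rfl
    · rw [ih x hx]; exact h.1.symm

theorem result :
    ¬ (∀ k r : ℕ, 2 ≤ k → 3 ≤ r → Odd r →
      ∀ (V : Type) [Fintype V] (G : SimpleGraph V) [DecidableRel G.Adj],
        r * k ≤ Fintype.card V →
        (∀ v : V, (r + 1) * k ≤ 2 * G.degree v) →
        ∃ (u : Fin k → V) (c : ∀ i : Fin k, G.Walk (u i) (u i)),
          (∀ i : Fin k, (c i).IsCycle ∧ r ≤ (c i).length) ∧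
          ∀ i j : Fin k, i ≠ j → List.Disjoint (c i).support (c j).support) := by
  intro H
  obtain ⟨u, c, hc, hd⟩ := H 3 7 (by norm_num) (by norm_num) (by decide) (Fin 13 × Bool) G
    (by simp) (by decide +kernel)
  have hpair : ∃ i j : Fin 3, i ≠ j ∧ (u i).2 = (u j).2 := by
    have : ∀ f : Fin 3 → Bool, ∃ i j : Fin 3, i ≠ j ∧ f i = f j := by decide
    exact this (fun i => (u i).2)
  obtain ⟨i, j, hij, hs⟩ := hpair
  have hnd : ((c i).support.tail ++ (c j).support.tail).Nodup := by
    rw [List.nodup_append]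
    refine ⟨(hc i).1.support_nodup, (hc j).1.support_nodup, ?_⟩
    intro a ha b hb hab
    subst hab
    exact hd i j hij (List.mem_of_mem_tail ha) (List.mem_of_mem_tail hb)
  have hnd2 : (((c i).support.tail ++ (c j).support.tail).map Prod.fst).Nodup := by
    apply List.Nodup.map_on _ hnd
    have key : ∀ x ∈ (c i).support.tail ++ (c j).support.tail, x.2 = (u i).2 := by
      intro x hx
      rcases List.mem_append.1 hx with h | h
      · exact side _ x (List.mem_of_mem_tail h)
      · rw [hs]; exact side _ x (List.mem_of_mem_tail h)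
    intro x hx y hy hxy
    exact Prod.ext hxy ((key x hx).trans (key y hy).symm)
  have hlen := hnd2.length_le_card
  have h1 := (hc i).2
  have h2 := (hc j).2
  simp [SimpleGraph.Walk.length_support] at hlen
  omega

end Pool.Agent.S06936
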