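import Pool.Statements.S06969
import Pool.Agent.H.MP_057dff_co.D

set_option autoImplicit false
open Pool Pool.MP_057dff_co

namespace Pool.Agent.S06969

theorem result :
    ∀ (G : Type) [AddCommGroup G] [Fintype G], 3 ≤ Fintype.card G →
      ((∃ D : ℕ,
          (∃ S : Multiset G, S ≠ 0 ∧ S.sum = 0 ∧
              (∀ T : Multiset G, T ≤ S → T ≠ 0 → T.sum = 0 → T = S) ∧
              Multiset.card S = D) ∧
          (∀ S : Multiset G, S ≠ 0 → S.sum = 0 →
              (∀ T : Multiset G, T ≤ S → T ≠ 0 → T.sum = 0 → T = S) →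
              Multiset.card S ≤ D) ∧
          (∀ (A : Multiset G) (m : ℕ),
              (∃ l : List (Multiset G), l.length = 3 ∧
                  (∀ S ∈ l, S ≠ 0 ∧ S.sum = 0 ∧
                    ∀ T : Multiset G, T ≤ S → T ≠ 0 → T.sum = 0 → T = S) ∧
                  l.sum = A) →
              (∃ l : List (Multiset G), l.length = m ∧
                  (∀ S ∈ l, S ≠ 0 ∧ S.sum = 0 ∧
                    ∀ T : Multiset G, T ≤ S → T ≠ 0 → T.sum = 0 → T = S) ∧
                  l.sum = A) →
              m ≤ D + 1) ∧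
          (∃ A : Multiset G,
              (∃ l : List (Multiset G), l.length = 3 ∧
                  (∀ S ∈ l, S ≠ 0 ∧ S.sum = 0 ∧
                    ∀ T : Multiset G, T ≤ S → T ≠ 0 → T.sum = 0 → T = S) ∧
                  l.sum = A) ∧
              (∃ l : List (Multiset G), l.length = D + 1 ∧
                  (∀ S ∈ l, S ≠ 0 ∧ S.sum = 0 ∧
                    ∀ T : Multiset G, T ≤ S → T ≠ 0 → T.sum = 0 → T = S) ∧
                  l.sum = A))) ↔
        (IsAddCyclic G ∨ Nonempty (G ≃+ (ZMod 2 × ZMod 2)))) := by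
  intro G _ _ hc
  have := Pool.Agent.H.MP_057dff_co.main hc
  simpa only [Pool.Agent.H.MP_057dff_co.MA, and_assoc, and_imp] using this

end Pool.Agent.S06969
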