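import Pool.Statements.S06971
import Pool.Agent.H.MP_0586ce_co.B

set_option autoImplicit false
open Pool Pool.MP_0586ce_co

namespace Pool.Agent.S06971

theorem result :
    ∃ k : ℕ, ∃ D : Finset (Finset (Fin k)),
      (Finset.univ ∈ D ∧ (∀ i : Fin k, ({i} : Finset (Fin k)) ∈ D) ∧
        (∅ : Finset (Fin k)) ∉ D ∧
        (∀ A ∈ D, ∀ B ∈ D, A ⊆ B ∨ B ⊆ A ∨ Disjoint A B) ∧
        (∀ A ∈ D, 2 ≤ A.card → ∃ B ∈ D, ∃ C ∈ D,
          B.Nonempty ∧ C.Nonempty ∧ Disjoint B C ∧ B ∪ C = A)) ∧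
      ∃ L : ℝ, Irrational L ∧
        Filter.Tendsto
          (fun n : ℕ => sSup {x : ℝ | ∃ H : Finset (Finset (Fin n)),
            (Finset.univ ∈ H ∧ (∀ i : Fin n, ({i} : Finset (Fin n)) ∈ H) ∧
              (∅ : Finset (Fin n)) ∉ H ∧
              (∀ A ∈ H, ∀ B ∈ H, A ⊆ B ∨ B ⊆ A ∨ Disjoint A B) ∧
              (∀ A ∈ H, 2 ≤ A.card → ∃ B ∈ H, ∃ C ∈ H,
                B.Nonempty ∧ C.Nonempty ∧ Disjoint B C ∧ B ∪ C = A)) ∧
            x = (Set.ncard {S : Finset (Fin n) | ∃ e : Fin k → Fin n,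
                  Function.Injective e ∧ Set.range e = (↑S : Set (Fin n)) ∧
                  ∀ A : Finset (Fin k),
                    A ∈ D ↔ (A.Nonempty ∧ ∃ C ∈ H, C ∩ S = A.image e)} : ℝ)
                / ((n.choose k : ℕ) : ℝ)})
          Filter.atTop (nhds L) := by
  exact ⟨8, H.IND.Hc 8 2, H.IND.valid_Hc (by norm_num) (by norm_num), H.IND.dd, H.IND.irr_dd,
    H.IND.final⟩

end Pool.Agent.S06971
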