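import Pool.Statements.S06973
import Pool.Agent.Lib.helper7.MatInter

set_option autoImplicit false
open Pool Pool.MP_058b80_co

namespace Pool.Agent.S06973

open Pool.Agent.Lib.helper7.MatInter in
lemma struct {n : ℕ} (M : Matroid (Fin n)) (D₁ D₂ : Set (Fin n)) (hD₁ : M.IsBase D₁)
    (hD₂ : M.IsBase D₂) (hne : D₁ ≠ D₂) (P : Fin n → Fin n → Prop) (P0 : ∀ x, P x x)
    (P1 : ∀ B x y, M.IsBase B → x ∉ B → y ∈ B → M.IsBase (insert x (B \ {y})) → P x y ∧ P y x) :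
    ∃ C₁ C₂, M.IsBase C₁ ∧ M.IsBase C₂ ∧ ∃ x₀, ∃ g : Set (Fin n) → Fin n, (∀ B, P (g B) x₀) ∧
      ∀ B₁ B₂, M.IsBase B₁ → M.IsBase B₂ → (C₁ \ C₂).ncard ≤ (B₁ \ B₂).ncard → g B₁ ≠ g B₂ := by
  classical
  obtain ⟨A, hA, I, hI, i1, i2, hc⟩ := matroid_inter M M✶ M.E.toFinset
  obtain ⟨C₁, c1, c1'⟩ := i1.exists_isBase_superset
  obtain ⟨hIE, C₂, c2, c2'⟩ := Matroid.dual_indep_iff_exists'.1 i2
  have hAE : (A : Set (Fin n)) ⊆ M.E := fun x hx => by simpa using hA hx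
  have hk : I.card ≤ (C₁ \ C₂).ncard := by
    rw [← Set.ncard_coe_finset]
    exact Set.ncard_le_ncard (Set.subset_sdiff.2 ⟨c1', c2'⟩)
  have tight : ∀ B B', M.IsBase B → M.IsBase B' → (C₁ \ C₂).ncard ≤ (B \ B').ncard →
      (B ∩ A = (B \ B') ∩ A ∧ rk M A ≤ (B ∩ A).ncard) ∧ (M.E \ A) \ B' = (B \ B') \ A := by
    intro B B' hB hB' h
    have a1 : (B ∩ A).ncard ≤ rk M A :=
      ncard_le_rk M (hB.indep.subset Set.inter_subset_left) A Set.inter_subset_right
    have a2 : ((M.E \ A) \ B').ncard ≤ rk M✶ (M.E.toFinset \ A) := by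
      apply ncard_le_rk
      · exact Matroid.dual_indep_iff_exists'.2 ⟨fun x hx => hx.1.1, B', hB',
          Set.disjoint_sdiff_left⟩
      · intro x hx
        simpa using hx.1
    have s1 : (B \ B') ∩ A ⊆ B ∩ A := fun x hx => ⟨hx.1.1, hx.2⟩
    have s2 : (B \ B') \ A ⊆ (M.E \ A) \ B' := fun x hx =>
      ⟨⟨hB.subset_ground hx.1.1, hx.2⟩, hx.1.2⟩
    have a3 := Set.ncard_le_ncard s1
    have a4 := Set.ncard_le_ncard s2
    have a5 := Set.ncard_inter_add_ncard_sdiff_eq_ncard (B \ B') (A : Set (Fin n))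
    exact ⟨⟨(Set.eq_of_subset_of_ncard_le s1 (by omega)).symm, by omega⟩,
      (Set.eq_of_subset_of_ncard_le s2 (by omega)).symm⟩
  refine ⟨C₁, C₂, c1, c2, ?_⟩
  by_cases h0 : ∃ x₀ ∈ A, M.IsNonloop x₀
  · obtain ⟨x₀, hx, hnl⟩ := h0
    have key : ∀ B, ∃ y, P y x₀ ∧ (M.IsBase B → rk M A ≤ (B ∩ A).ncard → y ∈ B ∩ A) := by
      intro B
      by_cases hB : M.IsBase B ∧ rk M A ≤ (B ∩ A).ncard
      swap
      · exact ⟨x₀, P0 _, fun a b => absurd ⟨a, b⟩ hB⟩
      obtain ⟨hB, hr⟩ := hB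
      by_cases hxB : x₀ ∈ B
      · exact ⟨x₀, P0 _, fun _ _ => ⟨hxB, hx⟩⟩
      have hJ : M.Indep (B ∩ A) := hB.indep.subset Set.inter_subset_left
      have hb : M.IsBasis (B ∩ A) A := hJ.isBasis_of_eRk_ge (Set.toFinite _)
        Set.inter_subset_right (by
          rw [hJ.eRk_eq_encard, ← rk_coe, ← (Set.toFinite _).cast_ncard_eq]
          exact_mod_cast hr) hAE
      have hcl : x₀ ∈ M.closure (B ∩ A) := hb.subset_closure hx
      have hC := hJ.fundCircuit_isCircuit hcl fun h => hxB h.1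
      have hsub := M.fundCircuit_subset_insert x₀ (B ∩ A)
      have he := hC.eq_fundCircuit_of_subset hB.indep
        (hsub.trans (Set.insert_subset_insert Set.inter_subset_left))
      obtain ⟨y, hy, hyx⟩ : ∃ y ∈ M.fundCircuit x₀ (B ∩ A), y ≠ x₀ := by
        by_contra hcon
        push Not at hcon
        exact hC.not_indep (hnl.indep.subset hcon)
      have hyB : y ∈ B ∩ A := (hsub hy).resolve_left hyx
      rw [he, hB.indep.mem_fundCircuit_iff (by rw [hB.closure_eq]; exact hAE hx) hxB,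
        ← Set.insert_sdiff_singleton_comm hyx.symm] at hy
      exact ⟨y, (P1 B x₀ y hB hxB hyB.1 (hB.exchange_isBase_of_indep hxB hy)).2, fun _ _ => hyB⟩
    choose g hg hg' using key
    refine ⟨x₀, g, hg, fun B₁ B₂ b1 b2 h e => ?_⟩
    have t1 := (tight B₁ B₂ b1 b2 h).1
    have t2 := (tight B₂ B₁ b2 b1 (by rwa [b2.ncard_sdiff_comm b1])).1
    have m1 := hg' B₁ b1 t1.2
    have m2 := hg' B₂ b2 t2.2
    rw [t1.1, e] at m1
    exact m1.1.2 m2.1
  · push Not at h0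
    obtain ⟨x₀, hx1, hx2⟩ : ∃ x, x ∈ D₁ ∧ x ∉ D₂ := by
      by_contra hcon
      push Not at hcon
      exact hne (hD₁.eq_of_subset_isBase hD₂ hcon)
    have key : ∀ B, ∃ y, P y x₀ ∧ (M.IsBase B → M.IsNonloop y ∧ y ∉ B) := by
      intro B
      by_cases hB : M.IsBase B
      swap
      · exact ⟨x₀, P0 _, fun a => absurd a hB⟩
      by_cases hxB : x₀ ∈ B
      · obtain ⟨y, hy, hy'⟩ := hB.exchange hD₂ ⟨hxB, hx2⟩
        exact ⟨y, (P1 B y x₀ hB hy.2 hxB hy').1, fun _ => ⟨hD₂.indep.isNonloop_of_mem hy.1, hy.2⟩⟩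
      · exact ⟨x₀, P0 _, fun _ => ⟨hD₁.indep.isNonloop_of_mem hx1, hxB⟩⟩
    choose g hg hg' using key
    refine ⟨x₀, g, hg, fun B₁ B₂ b1 b2 h e => ?_⟩
    have t1 := (tight B₁ B₂ b1 b2 h).2
    have m1 := hg' B₁ b1
    have m2 := hg' B₂ b2
    have : g B₂ ∈ (M.E \ A) \ B₂ := ⟨⟨m2.1.mem_ground, fun h => h0 _ h m2.1⟩, m2.2⟩
    rw [t1, ← e] at this
    exact m1.2 this.1.1

open Classical in
lemma card_le {n : ℕ} (W : Submodule ℝ (Fin n → ℝ)) (x₀ : Fin n) :
    Fintype.card {y : Fin n // (Pi.single y 1 - Pi.single x₀ 1 : Fin n → ℝ) ∈ W ∧ y ≠ x₀} ≤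
      Module.finrank ℝ W := by
  classical
  have : LinearIndependent ℝ fun y : {y : Fin n //
      (Pi.single y 1 - Pi.single x₀ 1 : Fin n → ℝ) ∈ W ∧ y ≠ x₀} => (⟨_, y.2.1⟩ : W) := by
    rw [Fintype.linearIndependent_iff]
    intro c hc i
    have := congrFun (congrArg Subtype.val hc) i.1
    simp only [AddSubmonoidClass.coe_finsetSum, Finset.sum_apply, SetLike.val_smul, Pi.smul_apply,
      Pi.sub_apply, Pi.single_apply, i.2.2, if_false, sub_zero, smul_eq_mul, mul_ite, mul_one,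
      mul_zero, ZeroMemClass.coe_zero, Pi.zero_apply, ← Subtype.ext_iff] at this
    simpa using this
  convert this.fintype_card_le_finrank

lemma symm_card {n : ℕ} (M : Matroid (Fin n)) {B B' : Set (Fin n)} (h : M.IsBase B)
    (h' : M.IsBase B') : (symmDiff B B').ncard = 2 * (B \ B').ncard := by
  rw [Set.symmDiff_def, Set.ncard_union_eq (disjoint_sdiff_sdiff),
    h'.ncard_sdiff_comm h, two_mul]

theorem result :
    ∀ (n : ℕ) (M : Matroid (Fin n)),
      (∃ B₁ B₂ : Set (Fin n), M.IsBase B₁ ∧ M.IsBase B₂ ∧ B₁ ≠ B₂) →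
      ∃ f : Set (Fin n) →
          Fin (Module.finrank ℝ
            (affineSpan ℝ
              ((fun B : Set (Fin n) => B.indicator (fun _ : Fin n => (1 : ℝ))) ''
                {B : Set (Fin n) | M.IsBase B})).direction + 1),
        ∀ B₁ B₂ : Set (Fin n), M.IsBase B₁ → M.IsBase B₂ → f B₁ = f B₂ →
          ∃ C₁ C₂ : Set (Fin n), M.IsBase C₁ ∧ M.IsBase C₂ ∧
            (symmDiff B₁ B₂).ncard < (symmDiff C₁ C₂).ncard := by
  classical
  rintro n M ⟨D₁, D₂, h1, h2, hne⟩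
  set W := (affineSpan ℝ ((fun B : Set (Fin n) => B.indicator (fun _ : Fin n => (1 : ℝ))) ''
    {B : Set (Fin n) | M.IsBase B})).direction with hW
  obtain ⟨C₁, C₂, c1, c2, x₀, g, hg, hg'⟩ := struct M D₁ D₂ h1 h2 hne
    (fun x y => (Pi.single x 1 - Pi.single y 1 : Fin n → ℝ) ∈ W) (fun x => by simp) (by
      intro B x y hB hx hy hB'
      have : (Pi.single x 1 - Pi.single y 1 : Fin n → ℝ) ∈ W := by
        have h := AffineSubspace.vsub_mem_direction
          (mem_affineSpan ℝ (s := (fun B : Set (Fin n) => B.indicator (fun _ : Fin n => (1 : ℝ))) ''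
            {B : Set (Fin n) | M.IsBase B}) ⟨_, hB', rfl⟩)
          (mem_affineSpan ℝ (s := (fun B : Set (Fin n) => B.indicator (fun _ : Fin n => (1 : ℝ))) ''
            {B : Set (Fin n) | M.IsBase B}) ⟨_, hB, rfl⟩)
        convert h using 1
        funext z
        have hxy : x ≠ y := fun e => hx (e ▸ hy)
        by_cases e1 : z = x
        · subst e1; simp [hx, hxy]
        · by_cases e2 : z = y
          · subst e2; simp [hy, e1]
          · simp [e1, e2, Set.indicator_apply]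
      exact ⟨this, by simpa using W.neg_mem this⟩)
  obtain ⟨φ⟩ : Nonempty ({y : Fin n // (Pi.single y 1 - Pi.single x₀ 1 : Fin n → ℝ) ∈ W ∧ y ≠ x₀} ↪
      Fin (Module.finrank ℝ W)) :=
    Function.Embedding.nonempty_of_card_le (by rw [Fintype.card_fin]; convert card_le W x₀)
  refine ⟨fun B => if h : g B = x₀ then Fin.last _ else (φ ⟨g B, hg B, h⟩).castSucc,
    fun B₁ B₂ b1 b2 e => ⟨C₁, C₂, c1, c2, ?_⟩⟩
  rw [symm_card M b1 b2, symm_card M c1 c2]
  by_contra hc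
  apply hg' B₁ B₂ b1 b2 (by omega)
  by_cases e1 : g B₁ = x₀ <;> by_cases e2 : g B₂ = x₀ <;> simp only [e1, e2, dif_pos, dif_neg,
    not_false_eq_true] at e
  · rw [e1, e2]
  · exact absurd e (Fin.castSucc_lt_last _).ne'
  · exact absurd e (Fin.castSucc_lt_last _).ne
  · exact congrArg Subtype.val (φ.injective (Fin.castSucc_injective _ e))

end Pool.Agent.S06973
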