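import Pool.Statements.S07056
-- import your own Pool.Agent.* helpers here

set_option autoImplicit false
open Pool Pool.MP_0959cd_co

namespace Pool.Agent.S07056

/-- weights (times 20) on the out-heavy tree gadget: root 0, children 1 2, leaves 3..12 -/
def w0 (a b : ℕ) : ℕ :=
  if a = 0 ∧ (b = 1 ∨ b = 2) then 10
  else if (a = 1 ∨ a = 2) ∧ 3 ≤ b ∧ a = 1 + (b - 3) / 5 then 4
  else if 3 ≤ a ∧ b = 0 then 5
  else if 3 ≤ a ∧ b = 1 + (a - 3) / 5 then 15
  else 0

def w (a b : Fin 26) : ℕ :=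
  if a.val < 13 ∧ b.val < 13 then w0 a.val b.val
  else if 13 ≤ a.val ∧ 13 ≤ b.val then w0 (b.val - 13) (a.val - 13)
  else if 16 ≤ a.val ∧ a.val = b.val + 13 then 20
  else 0

def side (a : Fin 26) : ℤ := if a.val < 13 then 1 else 0

theorem f1 : ∀ a, w a a = 0 := by decide +kernel
theorem f2 : ∀ a b, w a b ≤ 20 := by decide +kernel
theorem f3 : ∀ a, 20 ≤ ∑ b, w a b := by decide +kernel
theorem f4 : ∀ a, 20 ≤ ∑ b, w b a := by decide +kernel
theorem f5 : ∀ a b, 0 < w a b → 0 ≤ side b - side a := by decide +kernel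
theorem f6 : ∀ a b, 0 < w a b → 0 < w b a → w a b + w b a < 20 := by decide +kernel
theorem f7 : ∀ a b, 0 < w a b → ∀ c, 0 < w b c → 0 < w c a → w a b + w b c + w c a < 20 := by
  decide +kernel
theorem f8 : ∀ b, 0 < w 0 b → ∀ c, 0 < w b c → ∀ d, 0 < w c d → b = d ∨ d = 0 := by
  decide +kernel
theorem f9 : ∀ b, 0 < w b 13 → ∀ c, 0 < w c b → ∀ d, 0 < w d c → b = d ∨ d = 13 := by
  decide +kernel
set_option synthInstance.maxSize 2000 in
theorem f10 : ∀ a b, 0 < w a b → side b - side a = 0 → ∀ c, 0 < w b c → side c - side b = 0 →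
    ∀ d, 0 < w c d → side d - side c = 0 →
    a = c ∨ b = d ∨ a = 0 ∨ a = 13 ∨ b = 0 ∨ b = 13 ∨ c = 0 ∨ c = 13 ∨ d = 0 ∨ d = 13 := by
  decide +kernel

theorem cyc (k : ℕ) (c : Fin (k + 2) → Fin 26) (hc : Function.Injective c)
    (h : ∀ i, 0 < w (c i) (c (i + 1))) : ∑ i, w (c i) (c (i + 1)) < 20 := by
  match k, c, hc, h with
  | 0, c, _, h =>
    rw [Fin.sum_univ_two]
    exact f6 _ _ (h 0) (h 1)
  | 1, c, _, h =>
    rw [Fin.sum_univ_three]
    exact f7 _ _ (h 0) _ (h 1) (h 2)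
  | k + 2, c, hc, h =>
    exfalso
    have n2 : ∀ i : Fin (k + 2 + 2), i ≠ i + 1 + 1 := by
      intro i hi
      rw [add_assoc i, left_eq_add] at hi
      have := congrArg Fin.val hi
      simp [Fin.val_add] at this
      rw [Nat.mod_eq_of_lt (by omega)] at this
      omega
    have n3 : ∀ i : Fin (k + 2 + 2), i ≠ i + 1 + 1 + 1 := by
      intro i hi
      rw [add_assoc i, add_assoc i, left_eq_add] at hi
      have := congrArg Fin.val hi
      simp [Fin.val_add] at this
      rw [Nat.mod_eq_of_lt (by omega)] at this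
      omega
    have r0 : ∀ i, c i ≠ 0 := by
      intro i hi
      have h1 := h i
      rw [hi] at h1
      rcases f8 _ h1 _ (h _) _ (h _) with h2 | h2
      · exact n2 _ (hc h2)
      · exact n3 _ (hc (hi.trans h2.symm))
    have r13 : ∀ i, c i ≠ 13 := by
      intro i hi
      obtain ⟨j, rfl⟩ : ∃ j, i = j + 1 + 1 + 1 := ⟨i - 1 - 1 - 1, by simp⟩
      have h1 := h (j + 1 + 1)
      rw [hi] at h1
      rcases f9 _ h1 _ (h _) _ (h _) with h2 | h2
      · exact n2 _ (hc h2).symm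
      · exact n3 _ (hc (h2.trans hi.symm))
    have hs : ∑ i, (side (c (i + 1)) - side (c i)) = 0 := by
      rw [Finset.sum_sub_distrib, sub_eq_zero]
      exact Equiv.sum_comp (Equiv.addRight 1) (fun i => side (c i))
    rw [Finset.sum_eq_zero_iff_of_nonneg (fun i _ => f5 _ _ (h i))] at hs
    have hs' := fun i => hs i (Finset.mem_univ i)
    rcases f10 _ _ (h 0) (hs' _) _ (h _) (hs' _) _ (h _) (hs' _) with
      h2 | h2 | h2 | h2 | h2 | h2 | h2 | h2 | h2 | h2
    · exact n2 _ (hc h2)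
    · exact n2 _ (hc h2)
    all_goals first | exact r0 _ h2 | exact r13 _ h2

theorem result :
    ¬ (∀ (V : Type) [Fintype V] [Nonempty V] (G : Digraph V) (p : V → V → ℝ),
      (∀ v, ¬ G.Adj v v) →
      (∀ u v, 0 ≤ p u v ∧ p u v ≤ 1) →
      (∀ u v, ¬ G.Adj u v → p u v = 0) →
      (∀ u, 1 ≤ ∑ v, p u v) →
      (∀ u, 1 ≤ ∑ v, p v u) →
      ∃ (k : ℕ) (c : Fin (k + 2) → V),
        Function.Injective c ∧
        (∀ i, G.Adj (c i) (c (i + 1))) ∧
        1 ≤ ∑ i, p (c i) (c (i + 1))) := by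
  intro h
  obtain ⟨k, c, hc, h1, h2⟩ := h (Fin 26) ⟨fun a b => 0 < w a b⟩ (fun a b => (w a b : ℝ) / 20)
    (fun v => by simp [f1 v])
    (fun u v => ⟨by positivity, by
      rw [div_le_one (by norm_num)]
      exact_mod_cast f2 u v⟩)
    (fun u v huv => by
      have : w u v = 0 := by simpa using huv
      simp [this])
    (fun u => by
      rw [← Finset.sum_div, one_le_div (by norm_num)]
      exact_mod_cast f3 u)
    (fun u => by
      rw [← Finset.sum_div, one_le_div (by norm_num)]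
      exact_mod_cast f4 u)
  rw [← Finset.sum_div, one_le_div (by norm_num)] at h2
  have h3 : 20 ≤ ∑ i, w (c i) (c (i + 1)) := by exact_mod_cast h2
  have := cyc k c hc h1
  omega

end Pool.Agent.S07056
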