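import Pool.Statements.S07058
-- import your own Pool.Agent.* helpers here

set_option autoImplicit false
open Pool Pool.MP_095a77_co

namespace Pool.Agent.S07058

def gr (m t : ℕ) (e : ℕ) (κ : ZMod m) (h1 : (1 : ZMod m) ≠ 0) (h0 : κ ≠ 0) (hκ : κ + κ = 0) :
    SimpleGraph (ZMod m × Fin t) where
  Adj x y := y.1 = x.1 + 1 ∨ y.1 = x.1 - 1 ∨ (e = 1 ∧ y.1 = x.1 + κ ∧ y.2 = x.2)
  symm := ⟨by
    rintro x y (h | h | ⟨he, h, h'⟩)
    · right; left; rw [h]; ring
    · left; rw [h]; ring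
    · right; right; refine ⟨he, ?_, h'.symm⟩; rw [h, add_assoc, hκ, add_zero]⟩
  loopless := ⟨by
    rintro x (h | h | ⟨he, h, h'⟩)
    · exact h1 (by linear_combination -h)
    · exact h1 (by linear_combination h)
    · exact h0 (by linear_combination -h)⟩

open Classical in
lemma nb (m t : ℕ) [NeZero m] (e : ℕ) (κ : ZMod m) (h1 : (1 : ZMod m) ≠ 0) (h0 : κ ≠ 0)
    (hκ : κ + κ = 0) [DecidableRel (gr m t e κ h1 h0 hκ).Adj] (v : ZMod m × Fin t) :
    (gr m t e κ h1 h0 hκ).neighborFinset v =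
      (Finset.univ.filter (fun y : ZMod m × Fin t => y.1 = v.1 + 1) ∪
        Finset.univ.filter (fun y : ZMod m × Fin t => y.1 = v.1 - 1)) ∪
        (if e = 1 then {(v.1 + κ, v.2)} else ∅) := by
  ext y
  rw [SimpleGraph.mem_neighborFinset]
  simp only [gr, Finset.mem_union, Finset.mem_filter, Finset.mem_univ, true_and]
  by_cases he : e = 1
  · simp [he, Prod.ext_iff, or_assoc]
  · simp [he]

lemma fib (m t : ℕ) [NeZero m] (i : ZMod m) :
    (Finset.univ.filter (fun y : ZMod m × Fin t => y.1 = i)).card = t := by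
  have : Finset.univ.filter (fun y : ZMod m × Fin t => y.1 = i) = {i} ×ˢ Finset.univ := by
    ext y; rw [Finset.mem_product]; simp
  rw [this]; simp

lemma reg (m t : ℕ) [NeZero m] (e : ℕ) (he : e ≤ 1) (κ : ZMod m) (h1 : (1 : ZMod m) ≠ 0)
    (h0 : κ ≠ 0) (hκ : κ + κ = 0) (h2 : (2 : ZMod m) ≠ 0) (k1 : κ ≠ 1) (k2 : κ ≠ -1)
    [DecidableRel (gr m t e κ h1 h0 hκ).Adj] :
    (gr m t e κ h1 h0 hκ).IsRegularOfDegree (2 * t + e) := by
  classical
  intro v
  rw [← SimpleGraph.card_neighborFinset_eq_degree, nb]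
  rw [Finset.card_union_of_disjoint, Finset.card_union_of_disjoint, fib, fib]
  · by_cases h : e = 1
    · simp [h]; ring
    · have : e = 0 := by omega
      simp [this]; ring
  · rw [Finset.disjoint_left]
    intro y hy hy'
    simp only [Finset.mem_filter, Finset.mem_univ, true_and] at hy hy'
    exact h2 (by linear_combination hy' - hy)
  · rw [Finset.disjoint_left]
    intro y hy hy'
    split_ifs at hy' with h
    · simp only [Finset.mem_singleton] at hy'
      subst hy'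
      simp only [Finset.mem_union, Finset.mem_filter, Finset.mem_univ, true_and] at hy
      rcases hy with hy | hy
      · exact k1 (by linear_combination hy)
      · exact k2 (by linear_combination hy)
    · simp at hy'

def cnt {m t : ℕ} (A : Finset (ZMod m × Fin t)) (i : ZMod m) : ℕ :=
  (A.filter (fun y => y.1 = i)).card

lemma cnt_add (m t : ℕ) [NeZero m] (A : Finset (ZMod m × Fin t)) (i : ZMod m) :
    cnt A i + cnt Aᶜ i = t := by
  unfold cnt
  rw [← Finset.card_union_of_disjoint, ← Finset.filter_union, Finset.union_compl, fib]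
  exact Finset.disjoint_filter_filter disjoint_compl_right

lemma bound (m t : ℕ) [NeZero m] (e : ℕ) (he : e ≤ 1) (κ : ZMod m) (h1 : (1 : ZMod m) ≠ 0)
    (h0 : κ ≠ 0) (hκ : κ + κ = 0) [DecidableRel (gr m t e κ h1 h0 hκ).Adj]
    (A : Finset (ZMod m × Fin t)) (v : ZMod m × Fin t) :
    ((gr m t e κ h1 h0 hκ).neighborFinset v ∩ A).card ≤ cnt A (v.1 + 1) + cnt A (v.1 - 1) + e := by
  classical
  rw [nb, Finset.union_inter_distrib_right, Finset.union_inter_distrib_right]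
  refine (Finset.card_union_le _ _).trans (add_le_add ((Finset.card_union_le _ _).trans
    (add_le_add ?_ ?_)) ?_)
  · apply le_of_eq; unfold cnt; congr 1; ext y; simp [and_comm]
  · apply le_of_eq; unfold cnt; congr 1; ext y; simp [and_comm]
  · refine (Finset.card_le_card Finset.inter_subset_left).trans ?_
    split_ifs with h
    · simp [h]
    · simp

lemma main (m t : ℕ) [NeZero m] (e : ℕ) (he : e ≤ 1) (κ : ZMod m) (h1 : (1 : ZMod m) ≠ 0)
    (h0 : κ ≠ 0) (hκ : κ + κ = 0) [DecidableRel (gr m t e κ h1 h0 hκ).Adj]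
    (A : Finset (ZMod m × Fin t)) (hA : A.Nonempty) (hB : Aᶜ.Nonempty)
    (ha : ∀ v ∈ A, ((2 * t + e : ℕ) : ℝ) / 2 + ((1 : ℕ) : ℝ) ≤
      (((gr m t e κ h1 h0 hκ).neighborFinset v ∩ A).card : ℝ))
    (hb : ∀ v ∈ Aᶜ, ((2 * t + e : ℕ) : ℝ) / 2 + ((1 : ℕ) : ℝ) ≤
      (((gr m t e κ h1 h0 hκ).neighborFinset v ∩ Aᶜ).card : ℝ)) : False := by
  have key : ∀ (C : Finset (ZMod m × Fin t)) (v : ZMod m × Fin t),
      ((2 * t + e : ℕ) : ℝ) / 2 + ((1 : ℕ) : ℝ) ≤
      (((gr m t e κ h1 h0 hκ).neighborFinset v ∩ C).card : ℝ) →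
      t + 1 ≤ cnt C (v.1 + 1) + cnt C (v.1 - 1) := by
    intro C v h
    have hb := bound m t e he κ h1 h0 hκ C v
    have h' : 2 * t + e + 2 ≤ 2 * ((gr m t e κ h1 h0 hκ).neighborFinset v ∩ C).card := by
      have : ((2 * t + e + 2 : ℕ) : ℝ) ≤
        ((2 * ((gr m t e κ h1 h0 hκ).neighborFinset v ∩ C).card : ℕ) : ℝ) := by
        push_cast at h ⊢; linarith
      exact_mod_cast this
    omega
  obtain ⟨v, hv⟩ := hA
  obtain ⟨w, hw⟩ := hB
  have step : ∀ n : ℕ, ∃ u ∈ A, u.1 = v.1 + (n : ZMod m) := by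
    intro n
    induction n with
    | zero => exact ⟨v, hv, by simp⟩
    | succ n ih =>
      obtain ⟨u, hu, hu'⟩ := ih
      have k1 := key A u (ha u hu)
      have k2 := cnt_add m t A (u.1 - 1)
      have k3 : 0 < cnt A (u.1 + 1) := by omega
      unfold cnt at k3
      obtain ⟨z, hz⟩ := Finset.card_pos.1 k3
      rw [Finset.mem_filter] at hz
      refine ⟨z, hz.1, ?_⟩
      rw [hz.2, hu']; push_cast; ring
  obtain ⟨u, hu, hu'⟩ := step (w.1 - v.1).val
  rw [ZMod.natCast_zmod_val] at hu'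
  have hu'' : u.1 = w.1 := by rw [hu']; ring
  have k1 := key A u (ha u hu)
  have k2 := key Aᶜ w (hb w hw)
  rw [hu''] at k1
  have k3 := cnt_add m t A (w.1 - 1)
  have k4 := cnt_add m t A (w.1 + 1)
  omega

def pm (n : ℕ) (e : ℕ) : SimpleGraph (Fin n × Bool) where
  Adj x y := e = 1 ∧ y = (x.1, !x.2)
  symm := ⟨by
    rintro ⟨a, b⟩ y ⟨he, rfl⟩
    exact ⟨he, by simp⟩⟩
  loopless := ⟨by
    rintro ⟨a, b⟩ ⟨he, h⟩
    simp at h⟩


theorem result :
    ¬ (∀ δ : ℕ, 1 ≤ δ → ∃ d n₀ : ℕ, ∀ (V : Type) [Fintype V] [DecidableEq V]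
      (G : SimpleGraph V) [DecidableRel G.Adj],
      G.IsRegularOfDegree d → n₀ < Fintype.card V →
      ∃ A : Finset V, A.Nonempty ∧ Aᶜ.Nonempty ∧
        (∀ v ∈ A, (d : ℝ) / 2 + (δ : ℝ) ≤ ((G.neighborFinset v ∩ A).card : ℝ)) ∧
        (∀ v ∈ Aᶜ, (d : ℝ) / 2 + (δ : ℝ) ≤ ((G.neighborFinset v ∩ Aᶜ).card : ℝ))) := by
  classical
  intro h
  obtain ⟨d, n₀, h⟩ := h 1 le_rfl
  obtain ⟨t, e, he, rfl⟩ : ∃ t e : ℕ, e ≤ 1 ∧ d = 2 * t + e := ⟨d / 2, d % 2, by omega, by omega⟩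
  rcases Nat.eq_zero_or_pos t with rfl | ht
  · have hr : (pm (n₀ + 1) e).IsRegularOfDegree (2 * 0 + e) := by
      intro v
      rw [← SimpleGraph.card_neighborFinset_eq_degree]
      by_cases h1 : e = 1
      · have : (pm (n₀ + 1) e).neighborFinset v = {(v.1, !v.2)} := by
          ext y; rw [SimpleGraph.mem_neighborFinset]; simp [pm, h1]
        rw [this]; simp [h1]
      · have : (pm (n₀ + 1) e).neighborFinset v = ∅ := by
          ext y; rw [SimpleGraph.mem_neighborFinset]; simp [pm, h1]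
        rw [this]; simp; omega
    obtain ⟨A, ⟨v, hv⟩, -, ha, -⟩ := h (Fin (n₀ + 1) × Bool) (pm (n₀ + 1) e) hr (by simp; omega)
    have h1 := ha v hv
    have h2 : ((pm (n₀ + 1) e).neighborFinset v ∩ A).card ≤ 2 * 0 + e := by
      rw [← hr v, ← SimpleGraph.card_neighborFinset_eq_degree]
      exact Finset.card_le_card Finset.inter_subset_left
    have h3 : ((((pm (n₀ + 1) e).neighborFinset v ∩ A).card : ℕ) : ℝ) ≤ ((2 * 0 + e : ℕ) : ℝ) := by
      exact_mod_cast h2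
    have h4 : (e : ℝ) ≤ 1 := by exact_mod_cast he
    push_cast at h1 h3
    linarith
  · have hm : NeZero (2 * (n₀ + 2)) := ⟨by omega⟩
    have nz : ∀ a : ℕ, 0 < a → a < 2 * (n₀ + 2) → ((a : ℕ) : ZMod (2 * (n₀ + 2))) ≠ 0 := by
      intro a h0 h1 h2
      rw [ZMod.natCast_eq_zero_iff] at h2
      exact absurd (Nat.le_of_dvd h0 h2) (by omega)
    have h1 : (1 : ZMod (2 * (n₀ + 2))) ≠ 0 := by simpa using nz 1 (by omega) (by omega)
    have h2 : (2 : ZMod (2 * (n₀ + 2))) ≠ 0 := by simpa using nz 2 (by omega) (by omega)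
    have h0 : ((n₀ + 2 : ℕ) : ZMod (2 * (n₀ + 2))) ≠ 0 := nz _ (by omega) (by omega)
    have hκ : ((n₀ + 2 : ℕ) : ZMod (2 * (n₀ + 2))) + ((n₀ + 2 : ℕ) : ZMod (2 * (n₀ + 2))) = 0 := by
      rw [← two_mul]
      exact_mod_cast ZMod.natCast_self (2 * (n₀ + 2))
    have k1 : ((n₀ + 2 : ℕ) : ZMod (2 * (n₀ + 2))) ≠ 1 := by
      intro hh
      apply nz (n₀ + 1) (by omega) (by omega)
      push_cast at hh ⊢
      linear_combination hh
    have k2 : ((n₀ + 2 : ℕ) : ZMod (2 * (n₀ + 2))) ≠ -1 := by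
      intro hh
      apply nz (n₀ + 3) (by omega) (by omega)
      push_cast at hh ⊢
      linear_combination hh
    obtain ⟨A, hA, hB, ha, hb⟩ := h (ZMod (2 * (n₀ + 2)) × Fin t) (gr _ t e _ h1 h0 hκ)
      (reg _ t e he _ h1 h0 hκ h2 k1 k2) (by
        rw [Fintype.card_prod, ZMod.card, Fintype.card_fin]; nlinarith)
    exact main _ t e he _ h1 h0 hκ A hA hB ha hb

end Pool.Agent.S07058
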