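import Pool.Statements.S07059
import Pool.Agent.H.MP_095aaa_co.B

set_option autoImplicit false
open Pool Pool.MP_095aaa_co

namespace Pool.Agent.S07059

theorem result :
  ∀ m n : ℕ, 3 ≤ m → 3 ≤ n → ¬ ((m = 3 ∧ n = 4) ∨ (m = 4 ∧ n = 3)) →
    ((∃ f : Fin m ⊕ Fin n → ℕ, ∃ g : Fin m ⊕ Fin n → ℕ, ∃ k : ℕ,
        Function.Injective f ∧
        Function.Injective g ∧
        (∀ v, 1 ≤ f v ∧ f v ≤ m + n) ∧
        (∀ e, m + n + 1 ≤ g e ∧ g e ≤ 2 * (m + n)) ∧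
        (∀ i j : Fin m, j.val = (i.val + 1) % m →
            f (Sum.inl i) + f (Sum.inl j) + g (Sum.inl i) = k) ∧
        (∀ i j : Fin n, j.val = (i.val + 1) % n →
            f (Sum.inr i) + f (Sum.inr j) + g (Sum.inr i) = k))
      ↔ Odd (m + n)) := by
  intro m n hm hn h
  rw [Nat.odd_iff]
  exact ⟨Pool.Agent.H.MP_095aaa_co.odd_of_good m n hm, fun h2 =>
    Pool.Agent.H.MP_095aaa_co.good_of_odd m n hm hn (by omega) h2⟩

end Pool.Agent.S07059
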