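import Pool.Statements.S07065
import Pool.Agent.H.MP_098c03_co.Graph

set_option autoImplicit false
open Classical
open Pool Pool.MP_098c03_co

namespace Pool.Agent.S07065

open Finset Pool.Agent.H.MP_098c03_co

abbrev E := EuclideanSpace ℝ (Fin 2)

noncomputable def pt (i : ℕ) : E := !₂[(px i : ℝ) / pz i, (py i : ℝ) / pz i]

noncomputable def fn (j : ℕ) : E →ₗ[ℝ] ℝ where
  toFun p := ((ap j : ℝ) - an j) * p 0 + ((bp j : ℝ) - bn j) * p 1
  map_add' p q := by simp; ring
  map_smul' c p := by simp; ring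

noncomputable def ln (j : ℕ) : AffineSubspace ℝ E :=
  AffineSubspace.mk' (pt (nb (534 + j) 0)) (LinearMap.ker (fn j))

theorem inc_fn {i : ℕ} (hi : i < 534) (j : ℕ) :
    inc i j = true ↔ fn j (pt i) = (cn j : ℝ) - cp j := by
  have hz : (0 : ℝ) < pz i := by exact_mod_cast (g2 hi).1
  have h1 : inc i j = true ↔ (ap j : ℝ) * px i + bp j * py i + cp j * pz i =
      an j * px i + bn j * py i + cn j * pz i := by
    simp only [inc, test, Nat.beq_eq, Nat.add_eq, Nat.mul_eq]
    exact_mod_cast Iff.rfl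
  have h2 : fn j (pt i) = ((ap j : ℝ) - an j) * ((px i : ℝ) / pz i) +
      ((bp j : ℝ) - bn j) * ((py i : ℝ) / pz i) := rfl
  rw [h1, h2, ← mul_div_assoc, ← mul_div_assoc, ← add_div, div_eq_iff hz.ne']
  constructor <;> intro h <;> linarith

theorem mem_ln {i j : ℕ} (hi : i < 534) (hj : j < 534) :
    pt i ∈ ln j ↔ adj i (534 + j) = true := by
  have h0 : adj (534 + j) (nb (534 + j) 0) = true := adj_iff.mpr ⟨0, by norm_num, rfl⟩
  have h1 := adj_ln (by omega) (by omega) h0
  have h2 := (inc_fn h1 j).mp ((inc_iff h1 hj).mpr (adj_symm (by omega) h0))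
  rw [ln, AffineSubspace.mem_mk', LinearMap.mem_ker, vsub_eq_sub, map_sub, h2, sub_eq_zero,
    ← inc_fn hi, inc_iff hi hj]

theorem rank_ln {j : ℕ} (hj : j < 534) : Module.finrank ℝ (ln j).direction = 1 := by
  have hne : fn j ≠ 0 := by
    intro h
    have h1 : fn j !₂[1, 0] = 0 := by rw [h]; rfl
    have h2 : fn j !₂[0, 1] = 0 := by rw [h]; rfl
    have h3 : fn j !₂[1, 0] = ((ap j : ℝ) - an j) * 1 + ((bp j : ℝ) - bn j) * 0 := rfl
    have h4 : fn j !₂[0, 1] = ((ap j : ℝ) - an j) * 0 + ((bp j : ℝ) - bn j) * 1 := rfl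
    rcases (g2 hj).2.1 with h5 | h5
    · apply h5
      have : (ap j : ℝ) = an j := by linarith
      exact_mod_cast this
    · apply h5
      have : (bp j : ℝ) = bn j := by linarith
      exact_mod_cast this
  have := Module.Dual.finrank_ker_add_one_of_ne_zero hne
  rw [finrank_euclideanSpace, Fintype.card_fin] at this
  rw [ln, AffineSubspace.direction_mk']
  omega

theorem pt_inj {a b : ℕ} (ha : a < 534) (hb : b < 534) (e : pt a = pt b) : a = b := by
  refine (twin (by omega) (by omega) (fun x hx => ?_)).symm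
  have h1 := adj_pt ha hx
  obtain ⟨j, rfl⟩ : ∃ j, x = 534 + j := ⟨x - 534, by omega⟩
  rw [← mem_ln hb (by omega), ← e, mem_ln ha (by omega)]
  exact hx

theorem ln_inj {a b : ℕ} (ha : a < 534) (hb : b < 534) (e : ln a = ln b) : a = b := by
  have : 534 + b = 534 + a := by
    refine twin (by omega) (by omega) (fun x hx => ?_)
    have h1 := adj_ln (by omega) (by omega) hx
    apply adj_symm (by omega)
    rw [← mem_ln h1 hb, ← e, mem_ln h1 ha]
    exact adj_symm (by omega) hx
  omega

/-- There is a nonempty finite set of plane points and lines, each point on exactly 4 of the lines and each line through exactly 4 of the points, whose point-line incidence graph is 3-connected but has no Hamiltonian cycle. -/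
theorem result :
    ∃ (P : Finset (EuclideanSpace ℝ (Fin 2)))
      (L : Finset (AffineSubspace ℝ (EuclideanSpace ℝ (Fin 2)))),
      P.Nonempty ∧
      (∀ l ∈ L, Module.finrank ℝ l.direction = 1) ∧
      (∀ p ∈ P, (L.filter (fun l => p ∈ l)).card = 4) ∧
      (∀ l ∈ L, (P.filter (fun p => p ∈ l)).card = 4) ∧
      ∃ G : SimpleGraph ({p // p ∈ P} ⊕ {l // l ∈ L}),
        G = SimpleGraph.fromRel
          (fun a b : {p // p ∈ P} ⊕ {l // l ∈ L} =>
            ∃ p l, a = Sum.inl p ∧ b = Sum.inr l ∧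
              (p : EuclideanSpace ℝ (Fin 2)) ∈
                (l : AffineSubspace ℝ (EuclideanSpace ℝ (Fin 2)))) ∧
        3 < Fintype.card ({p // p ∈ P} ⊕ {l // l ∈ L}) ∧
        (∀ S : Finset ({p // p ∈ P} ⊕ {l // l ∈ L}), S.card < 3 →
          (G.induce ((↑S : Set ({p // p ∈ P} ⊕ {l // l ∈ L}))ᶜ)).Connected) ∧
        ¬ G.IsHamiltonian := by
  obtain ⟨T, hT⟩ : ∃ T : Finset ℕ, ∀ a, a ∈ T ↔ a < 534 := ⟨range 534, fun a => mem_range⟩
  have hpi : Set.InjOn pt T := fun a ha b hb e => pt_inj ((hT a).mp ha) ((hT b).mp hb) e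
  have hli : Set.InjOn ln T := fun a ha b hb e => ln_inj ((hT a).mp ha) ((hT b).mp hb) e
  have hTc : T.card = 534 := by
    rw [show T = range 534 from Finset.ext (fun a => by rw [hT, mem_range]), card_range]
  refine ⟨T.image pt, T.image ln, ⟨_, mem_image_of_mem _ ((hT 0).mpr (by norm_num))⟩, ?_, ?_, ?_,
    _, rfl, ?_, ?_⟩
  · intro l hl
    obtain ⟨j, hj, rfl⟩ := mem_image.mp hl
    exact rank_ln ((hT j).mp hj)
  · intro p hp
    obtain ⟨i, hi, rfl⟩ := mem_image.mp hp
    have hi' := (hT i).mp hi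
    rw [filter_image, card_image_of_injOn (hli.mono (filter_subset _ _)),
      ← card_image_of_injective _ (add_right_injective 534)]
    apply card_adj (v := i) (by omega)
    intro w
    simp only [mem_image, mem_filter, hT]
    constructor
    · rintro ⟨a, ⟨h1, ha⟩, rfl⟩; exact (mem_ln hi' h1).mp ha
    · intro h
      have := adj_pt hi' h
      obtain ⟨j, rfl⟩ : ∃ j, w = 534 + j := ⟨w - 534, by omega⟩
      exact ⟨j, ⟨by omega, (mem_ln hi' (by omega)).mpr h⟩, rfl⟩
  · intro l hl
    obtain ⟨j, hj, rfl⟩ := mem_image.mp hl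
    have hj' := (hT j).mp hj
    rw [filter_image, card_image_of_injOn (hpi.mono (filter_subset _ _))]
    apply card_adj (v := 534 + j) (by omega)
    intro w
    simp only [mem_filter, hT]
    constructor
    · rintro ⟨h1, ha⟩; exact adj_symm (by omega) ((mem_ln h1 hj').mp ha)
    · intro h
      have := adj_ln (by omega) (by omega) h
      exact ⟨this, (mem_ln this hj').mpr (adj_symm (by omega) h)⟩
  · rw [Fintype.card_sum, Fintype.card_coe, card_image_of_injOn hpi, hTc]
    omega
  · let vert : ℕ → {p // p ∈ T.image pt} ⊕ {l // l ∈ T.image ln} := fun a =>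
      if h : a < 534 then Sum.inl ⟨pt a, mem_image_of_mem _ ((hT a).mpr h)⟩
      else if h' : a - 534 < 534 then Sum.inr ⟨ln (a - 534), mem_image_of_mem _ ((hT _).mpr h')⟩
      else Sum.inl ⟨pt 0, mem_image_of_mem _ ((hT 0).mpr (by norm_num))⟩
    have v1 : ∀ a (h : a < 534), vert a = Sum.inl ⟨pt a, mem_image_of_mem _ ((hT a).mpr h)⟩ :=
      fun a h => dif_pos h
    have v2 : ∀ a (h : a < 534),
        vert (534 + a) = Sum.inr ⟨ln a, mem_image_of_mem _ ((hT a).mpr h)⟩ := by
      intro a h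
      have e : 534 + a - 534 = a := by omega
      simp only [vert, dif_neg (show ¬ 534 + a < 534 by omega), e, dif_pos h]
    have cs : ∀ a < 1068, a < 534 ∨ ∃ j < 534, a = 534 + j := by
      intro a ha
      by_cases h : a < 534
      · exact Or.inl h
      · exact Or.inr ⟨a - 534, by omega, by omega⟩
    have hinj : ∀ a < 1068, ∀ b < 1068, vert a = vert b → a = b := by
      intro a ha b hb e
      rcases cs a ha with h1 | ⟨i, h1, rfl⟩ <;> rcases cs b hb with h2 | ⟨j, h2, rfl⟩
      · rw [v1 a h1, v1 b h2] at e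
        exact pt_inj h1 h2 (congrArg Subtype.val (Sum.inl.inj e))
      · rw [v1 a h1, v2 j h2] at e; exact absurd e Sum.inl_ne_inr
      · rw [v2 i h1, v1 b h2] at e; exact absurd e Sum.inr_ne_inl
      · rw [v2 i h1, v2 j h2] at e
        rw [ln_inj h1 h2 (congrArg Subtype.val (Sum.inr.inj e))]
    have hsurj : ∀ v, ∃ a < 1068, vert a = v := by
      rintro (⟨p, hp⟩ | ⟨l, hl⟩)
      · obtain ⟨i, hi, rfl⟩ := mem_image.mp hp
        have := (hT i).mp hi
        exact ⟨i, by omega, v1 i this⟩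
      · obtain ⟨i, hi, rfl⟩ := mem_image.mp hl
        have := (hT i).mp hi
        exact ⟨534 + i, by omega, v2 i this⟩
    have hadj : ∀ a < 1068, ∀ b < 1068, ((SimpleGraph.fromRel
          (fun a b : {p // p ∈ T.image pt} ⊕ {l // l ∈ T.image ln} =>
            ∃ p l, a = Sum.inl p ∧ b = Sum.inr l ∧
              (p : EuclideanSpace ℝ (Fin 2)) ∈
                (l : AffineSubspace ℝ (EuclideanSpace ℝ (Fin 2))))).Adj (vert a) (vert b) ↔
          adj a b = true) := by
      intro a ha b hb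
      rw [SimpleGraph.fromRel_adj]
      rcases cs a ha with h1 | ⟨i, h1, rfl⟩ <;> rcases cs b hb with h2 | ⟨j, h2, rfl⟩
      · rw [v1 a h1, v1 b h2]
        constructor
        · rintro ⟨-, ⟨p, l, -, h, -⟩ | ⟨p, l, -, h, -⟩⟩ <;> exact absurd h Sum.inl_ne_inr
        · intro h; have := adj_pt h1 h; omega
      · rw [v1 a h1, v2 j h2, ← mem_ln h1 h2]
        constructor
        · rintro ⟨-, ⟨p, l, h3, h4, h5⟩ | ⟨p, l, -, h, -⟩⟩
          · rw [← Sum.inl.inj h3, ← Sum.inr.inj h4] at h5; exact h5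
          · exact absurd h Sum.inl_ne_inr
        · intro h; exact ⟨Sum.inl_ne_inr, Or.inl ⟨_, _, rfl, rfl, h⟩⟩
      · have e : adj (534 + i) b = true ↔ adj b (534 + i) = true :=
          ⟨adj_symm ha, adj_symm hb⟩
        rw [v2 i h1, v1 b h2, e, ← mem_ln h2 h1]
        constructor
        · rintro ⟨-, ⟨p, l, h, -, -⟩ | ⟨p, l, h3, h4, h5⟩⟩
          · exact absurd h Sum.inr_ne_inl
          · rw [← Sum.inl.inj h3, ← Sum.inr.inj h4] at h5; exact h5
        · intro h; exact ⟨Sum.inr_ne_inl, Or.inr ⟨_, _, rfl, rfl, h⟩⟩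
      · rw [v2 i h1, v2 j h2]
        constructor
        · rintro ⟨-, ⟨p, l, h, -, -⟩ | ⟨p, l, h, -, -⟩⟩ <;> exact absurd h Sum.inr_ne_inl
        · intro h; have := adj_ln (by omega) ha h; omega
    exact ⟨conn _ vert hinj hsurj hadj, nonham _ vert hinj hsurj hadj⟩

end Pool.Agent.S07065
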