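import Pool.Statements.S07079

set_option autoImplicit false
open Pool Pool.MP_09fd01_co

namespace Pool.Agent.S07079

open Finset

def mk (g : Fin 11 → ℕ) : SimpleGraph (Fin 11) where
  Adj u v := u ≠ v ∧ (g u).testBit v.val = true ∧ (g v).testBit u.val = true
  symm := ⟨fun _ _ h => ⟨h.1.symm, h.2.2, h.2.1⟩⟩
  loopless := ⟨fun _ h => h.1 rfl⟩

instance (g : Fin 11 → ℕ) : DecidableRel (mk g).Adj := fun u v =>
  inferInstanceAs (Decidable (u ≠ v ∧ (g u).testBit v.val = true ∧ (g v).testBit u.val = true))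

def gA : Fin 11 → ℕ := ![1120, 12, 138, 54, 40, 1113, 1825, 260, 704, 320, 97]
def gB : Fin 11 → ℕ := ![1664, 160, 280, 20, 108, 210, 48, 1571, 516, 1409, 641]
def fA : Fin 11 → Finset (Fin 11) := ![{0, 3, 8}, {1, 5, 8}, {2, 3, 6}, {2, 4, 6}, {2, 5, 6},
  {2, 5, 8}, {2, 5, 9}, {3, 5, 8}, {3, 6, 7}, {3, 6, 8}, {3, 8, 10}]
def fB : Fin 11 → Finset (Fin 11) := ![{0, 2, 5}, {1, 4, 9}, {4, 7, 9}, {4, 5, 9}, {3, 5, 9},
  {2, 5, 9}, {2, 5, 7}, {4, 7, 8}, {2, 4, 7}, {2, 6, 7}, {2, 5, 10}]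

lemma small (T : Finset (Fin 11)) (h0 : T.Nonempty) (h : T.card ≤ 3) : ∃ a b c, T = {a, b, c} := by
  have := card_pos.2 h0
  obtain h1 | h1 | h1 : T.card = 1 ∨ T.card = 2 ∨ T.card = 3 := by omega
  · obtain ⟨a, rfl⟩ := card_eq_one.1 h1; exact ⟨a, a, a, by simp⟩
  · obtain ⟨a, b, -, rfl⟩ := card_eq_two.1 h1; exact ⟨a, b, b, by simp⟩
  · obtain ⟨a, b, c, -, -, -, rfl⟩ := card_eq_three.1 h1; exact ⟨a, b, c, rfl⟩

lemma step (A B : SimpleGraph (Fin 11)) (f : Fin 11 → Finset (Fin 11))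
    (h1 : ∀ i j, f i = f j → i = j)
    (h2 : ∀ i, (f i).card = 3 ∧ ∀ v, v ∈ f i ∨ ∃ u ∈ f i, A.Adj u v)
    (h3 : ∀ a b c, (∀ v, (v = a ∨ v = b ∨ v = c) ∨ A.Adj a v ∨ A.Adj b v ∨ A.Adj c v) →
      ∃ i, f i = {a, b, c})
    (h4 : ∀ a b, B.Adj a b ↔ ∃ u ∈ f a, ∃ v, v ∉ f a ∧ A.Adj u v ∧ f b = insert v ((f a).erase u)) :
    ∃ e : Fin 11 ≃
          {S : Finset (Fin 11) //
            (∀ v, v ∈ S ∨ ∃ u ∈ S, A.Adj u v) ∧
            ∀ T : Finset (Fin 11),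
              (∀ v, v ∈ T ∨ ∃ u ∈ T, A.Adj u v) → S.card ≤ T.card},
        ∀ a b, B.Adj a b ↔
          ∃ u v, u ∈ (e a).1 ∧ v ∉ (e a).1 ∧ A.Adj u v ∧
            (e b).1 = insert v ((e a).1.erase u) := by
  have key : ∀ T : Finset (Fin 11), (∀ v, v ∈ T ∨ ∃ u ∈ T, A.Adj u v) → T.card ≤ 3 →
      ∃ i, f i = T := by
    intro T hT hc
    have hne : T.Nonempty := by
      rcases hT 0 with h | ⟨u, hu, -⟩
      exacts [⟨0, h⟩, ⟨u, hu⟩]
    obtain ⟨a, b, c, rfl⟩ := small T hne hc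
    apply h3
    intro v
    simpa using hT v
  have hmin : ∀ i, ∀ T : Finset (Fin 11), (∀ v, v ∈ T ∨ ∃ u ∈ T, A.Adj u v) →
      (f i).card ≤ T.card := by
    intro i T hT
    by_contra hlt
    rw [(h2 i).1] at hlt
    obtain ⟨j, rfl⟩ := key T hT (by omega)
    exact hlt (h2 j).1.ge
  refine ⟨Equiv.ofBijective (fun i => ⟨f i, (h2 i).2, hmin i⟩) ⟨?_, ?_⟩, ?_⟩
  · intro i j h
    exact h1 i j (congrArg Subtype.val h)
  · rintro ⟨S, hS, hS'⟩
    obtain ⟨i, hi⟩ := key S hS ((hS' (f 0) (h2 0).2).trans (h2 0).1.le)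
    exact ⟨i, Subtype.ext hi⟩
  · intro a b
    rw [h4]
    simp only [Equiv.ofBijective_apply]
    constructor
    · rintro ⟨u, hu, v, h⟩; exact ⟨u, v, hu, h⟩
    · rintro ⟨u, v, hu, h⟩; exact ⟨u, hu, v, h⟩

def par : ℕ → Bool
  | 0 => false
  | n + 1 => !(par n)

def GG : Bool → SimpleGraph (Fin 11)
  | false => mk gA
  | true => mk gB

lemma degB : ∀ v, (mk gB).degree v = 5 → v = 7 := by decide +kernel
lemma degA : (mk gA).degree 5 = 5 ∧ (mk gA).degree 6 = 5 := by decide +kernel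

theorem result :
    ∃ (k : ℕ → ℕ) (G : ∀ n, SimpleGraph (Fin (k n))),
      (∀ n, ∃ e : Fin (k (n + 1)) ≃
          {S : Finset (Fin (k n)) //
            (∀ v, v ∈ S ∨ ∃ u ∈ S, (G n).Adj u v) ∧
            ∀ T : Finset (Fin (k n)),
              (∀ v, v ∈ T ∨ ∃ u ∈ T, (G n).Adj u v) → S.card ≤ T.card},
        ∀ a b, (G (n + 1)).Adj a b ↔
          ∃ u v, u ∈ (e a).1 ∧ v ∉ (e a).1 ∧ (G n).Adj u v ∧
            (e b).1 = insert v ((e a).1.erase u)) ∧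
      ∃ m p : ℕ, 0 < p ∧ Nonempty (G (m + p) ≃g G m) ∧ IsEmpty (G (m + 1) ≃g G m) := by
  refine ⟨fun _ => 11, fun n => GG (par n), ?_, 0, 2, by norm_num, ⟨SimpleGraph.Iso.refl⟩, ⟨?_⟩⟩
  · intro n
    beta_reduce
    rw [par]
    cases par n
    · exact step (mk gA) (mk gB) fA (by decide +kernel) (by decide +kernel) (by decide +kernel)
        (by decide +kernel)
    · exact step (mk gB) (mk gA) fB (by decide +kernel) (by decide +kernel) (by decide +kernel)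
        (by decide +kernel)
  · intro φ
    have φ' : mk gA ≃g mk gB := SimpleGraph.Iso.symm φ
    have h5 := degB (φ' 5) (by rw [φ'.degree_eq, degA.1])
    have h6 := degB (φ' 6) (by rw [φ'.degree_eq, degA.2])
    have := φ'.injective (h5.trans h6.symm)
    exact absurd this (by decide)

end Pool.Agent.S07079
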