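import Pool.Statements.S07114

set_option autoImplicit false
open Filter Topology
open Pool Pool.MP_0b90e2_co

namespace Pool.Agent.S07114

/-- crossing edges between the first m vertices and the others -/
def Cross (m n : ℕ) (e : Sym2 (Fin n)) : Prop :=
  ∃ u v : Fin n, u.val < m ∧ ¬ v.val < m ∧ e = s(u, v)

lemma lower (m : ℕ) :
    125 ^ (m * m) ≤ Nat.card {c : {e : Sym2 (Fin (2 * m)) // ¬ e.IsDiag} → Fin 125 //
              ∀ S : Finset (Fin (2 * m)), S.card = 4 →
                ((Finset.univ.filter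
                    (fun e : {e : Sym2 (Fin (2 * m)) // ¬ e.IsDiag} =>
                      e.1 ∈ S.sym2)).image c).card < 6} := by
  classical
  let X := {e : Sym2 (Fin (2 * m)) // Cross m (2 * m) e}
  have hX : m * m ≤ Nat.card X := by
    let j : Fin m × Fin m → X := fun p =>
      ⟨s(⟨p.1.val, by omega⟩, ⟨m + p.2.val, by omega⟩), _, _, p.1.2, by simp, rfl⟩
    have hj : Function.Injective j := by
      rintro ⟨a, b⟩ ⟨c, d⟩ h
      have h' := congrArg Subtype.val h
      simp only [j, Sym2.eq_iff, Fin.mk.injEq] at h'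
      have := a.2
      have := c.2
      ext <;> simp only <;> omega
    have := Nat.card_le_card_of_injective j hj
    simpa using this
  let ext : (X → Fin 125) → {e : Sym2 (Fin (2 * m)) // ¬ e.IsDiag} → Fin 125 := fun g e =>
    if h : Cross m (2 * m) e.1 then g ⟨e.1, h⟩ else 0
  have hval : ∀ g, ∀ S : Finset (Fin (2 * m)), S.card = 4 →
      ((Finset.univ.filter
        (fun e : {e : Sym2 (Fin (2 * m)) // ¬ e.IsDiag} => e.1 ∈ S.sym2)).image (ext g)).card
        < 6 := by
    intro g S hS
    let A := S.filter (fun v => v.val < m)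
    let B := S.filter (fun v => ¬ v.val < m)
    have hAB : A.card + B.card = 4 := by
      rw [← hS]; exact Finset.card_filter_add_card_filter_not _
    let g' : Fin (2 * m) × Fin (2 * m) → Fin 125 := fun p =>
      if h : Cross m (2 * m) s(p.1, p.2) then g ⟨_, h⟩ else 0
    have hsub : (Finset.univ.filter
        (fun e : {e : Sym2 (Fin (2 * m)) // ¬ e.IsDiag} => e.1 ∈ S.sym2)).image (ext g) ⊆
        insert 0 ((A ×ˢ B).image g') := by
      intro x hx
      obtain ⟨⟨e, he⟩, he2, rfl⟩ := Finset.mem_image.mp hx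
      have he3 : e ∈ S.sym2 := (Finset.mem_filter.mp he2).2
      by_cases hc : Cross m (2 * m) e
      · obtain ⟨u, v, hu, hv, rfl⟩ := hc
        rw [Finset.mk_mem_sym2_iff] at he3
        refine Finset.mem_insert_of_mem (Finset.mem_image.mpr ⟨(u, v), ?_, rfl⟩)
        exact Finset.mem_product.mpr
          ⟨Finset.mem_filter.mpr ⟨he3.1, hu⟩, Finset.mem_filter.mpr ⟨he3.2, hv⟩⟩
      · simp only [ext, dif_neg hc]
        exact Finset.mem_insert_self _ _
    have h1 := Finset.card_le_card hsub
    have h2 := Finset.card_insert_le (0 : Fin 125) ((A ×ˢ B).image g')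
    have h3 : ((A ×ˢ B).image g').card ≤ A.card * B.card := by
      rw [← Finset.card_product]; exact Finset.card_image_le
    have h4 : A.card * B.card ≤ 4 := by
      have : A.card ≤ 4 := by omega
      have h5 : B.card = 4 - A.card := by omega
      rw [h5]
      interval_cases A.card <;> norm_num
    omega
  let F : (X → Fin 125) → {c : {e : Sym2 (Fin (2 * m)) // ¬ e.IsDiag} → Fin 125 //
              ∀ S : Finset (Fin (2 * m)), S.card = 4 →
                ((Finset.univ.filter
                    (fun e : {e : Sym2 (Fin (2 * m)) // ¬ e.IsDiag} =>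
                      e.1 ∈ S.sym2)).image c).card < 6} := fun g => ⟨ext g, hval g⟩
  have hF : Function.Injective F := by
    intro g g' h
    funext ⟨e, he⟩
    have hd : ¬ e.IsDiag := by
      obtain ⟨u, v, hu, hv, rfl⟩ := he
      rw [Sym2.mk_isDiag_iff]
      rintro rfl
      exact hv hu
    have := congrFun (congrArg Subtype.val h) ⟨e, hd⟩
    simpa only [F, ext, dif_pos he] using this
  have h1 := Nat.card_le_card_of_injective F hF
  rw [Nat.card_fun, Nat.card_eq_fintype_card (α := Fin 125), Fintype.card_fin] at h1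
  exact (Nat.pow_le_pow_right (by norm_num) hX).trans h1

theorem result :
    ¬ (∀ k s r : ℕ, 3 ≤ k → 3 ≤ s → s ≤ k.choose 2 → s ≤ r →
      Tendsto
        (fun n : ℕ =>
          (Nat.card {c : {e : Sym2 (Fin n) // ¬ e.IsDiag} → Fin r //
              ∀ S : Finset (Fin n), S.card = k →
                ((Finset.univ.filter
                    (fun e : {e : Sym2 (Fin n) // ¬ e.IsDiag} => e.1 ∈ S.sym2)).image c).card < s} : ℝ)
            / ((r.choose (s - 1) : ℝ) * ((s : ℝ) - 1) ^ (n.choose 2)))
        atTop (𝓝 1)) := by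
  intro h
  have h1 := h 4 6 125 (by norm_num) (by norm_num) (by decide) (by norm_num)
  have hc : Nat.choose 125 (6 - 1) ≤ 125 ^ (6 - 1) := Nat.choose_le_pow _ _
  have hc0 : 0 < Nat.choose 125 (6 - 1) := Nat.choose_pos (by norm_num)
  generalize Nat.choose 125 (6 - 1) = K at h1 hc hc0
  have h2 := h1.eventually (gt_mem_nhds (show (1 : ℝ) < 2 by norm_num))
  obtain ⟨N, hN⟩ := eventually_atTop.mp h2
  obtain ⟨m, hm⟩ : ∃ m, m = N + 20 := ⟨_, rfl⟩
  have h3 := hN (2 * m) (by omega)
  have h4 := lower m
  generalize Nat.card {c : {e : Sym2 (Fin (2 * m)) // ¬ e.IsDiag} → Fin 125 //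
              ∀ S : Finset (Fin (2 * m)), S.card = 4 →
                ((Finset.univ.filter
                    (fun e : {e : Sym2 (Fin (2 * m)) // ¬ e.IsDiag} =>
                      e.1 ∈ S.sym2)).image c).card < 6} = Q at h3 h4
  have h5 : ((6 : ℕ) : ℝ) - 1 = 5 := by norm_num
  have hK0 : (0 : ℝ) < K := by exact_mod_cast hc0
  have hK : (K : ℝ) ≤ 125 ^ 5 := by exact_mod_cast hc
  rw [h5, div_lt_iff₀ (by positivity)] at h3
  have h6 : (125 : ℝ) ^ (m * m) < 2 * (K * 5 ^ ((2 * m).choose 2)) :=
    lt_of_le_of_lt (by exact_mod_cast h4) h3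
  have h7 : (2 * m).choose 2 + 20 ≤ 3 * (m * m) := by
    rw [Nat.choose_two_right]
    have : 2 * m * (2 * m - 1) / 2 ≤ 2 * (m * m) := by
      apply Nat.div_le_of_le_mul
      have : 2 * m - 1 ≤ 2 * m := Nat.sub_le _ _
      nlinarith
    nlinarith
  have h8 : (5 : ℝ) ^ ((2 * m).choose 2 + 20) ≤ 125 ^ (m * m) := by
    rw [show (125 : ℝ) = 5 ^ 3 by norm_num, ← pow_mul]
    exact pow_le_pow_right₀ (by norm_num) h7
  rw [pow_add] at h8
  have h9 : (0 : ℝ) < 5 ^ ((2 * m).choose 2) := by positivity
  nlinarith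

end Pool.Agent.S07114
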