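import Pool.Statements.S07119
import Pool.Agent.H.MP_0bab21_co.Main

set_option autoImplicit false
open Pool Pool.MP_0bab21_co

namespace Pool.Agent.S07119

theorem result :
    ∀ M : Finset ℕ, (∀ m ∈ M, 0 < m) →
      ∃ N p : ℕ, 0 < p ∧ ∀ n : ℕ, N ≤ n →
        ((∃ W : Finset (ZMod n) → ZMod n → Prop,
            (∀ (S : Finset (ZMod n)) (x : ZMod n),
              W S x ↔ ∃ m ∈ M, (x + (m : ZMod n)) ∉ S ∧
                ¬ W (insert (x + (m : ZMod n)) S) (x + (m : ZMod n))) ∧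
            W {0} 0) ↔
         (∃ W : Finset (ZMod (n + p)) → ZMod (n + p) → Prop,
            (∀ (S : Finset (ZMod (n + p))) (x : ZMod (n + p)),
              W S x ↔ ∃ m ∈ M, (x + (m : ZMod (n + p))) ∉ S ∧
                ¬ W (insert (x + (m : ZMod (n + p))) S) (x + (m : ZMod (n + p)))) ∧
            W {0} 0)) := by
  intro M hM
  obtain ⟨N, p, hp, h⟩ := H.MP_0bab21_co.periodic M hM
  refine ⟨N + 1, p, hp, fun n hn => ?_⟩
  have : NeZero n := ⟨by omega⟩
  have : NeZero (n + p) := ⟨by omega⟩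
  rw [H.MP_0bab21_co.frozen, H.MP_0bab21_co.frozen]
  exact h n (by omega)

end Pool.Agent.S07119
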