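import Pool.Statements.S07160
import Pool.Agent.H.MP_0cd801_co.A

set_option autoImplicit false
open Pool Pool.MP_0cd801_co

namespace Pool.Agent.S07160

/-- The negation of the preceding statement: For every d > 2 and n ≤ 4d+1, every oriented graph on n vertices in which each vertex has in-degree d and out-degree d has a directed Hamilton cycle, i.e. a cyclic ordering of all n vertices with an arc from each vertex to the next. -/
theorem result :
    ¬ (∀ (d n : ℕ), 2 < d → n ≤ 4 * d + 1 →
      ∀ G : Digraph (Fin n),
        (∀ u v : Fin n, G.Adj u v → ¬ G.Adj v u) →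
        (∀ v : Fin n, Set.ncard {u : Fin n | G.Adj v u} = d) →
        (∀ v : Fin n, Set.ncard {u : Fin n | G.Adj u v} = d) →
        ∃ f : Fin n → Fin n, Function.Bijective f ∧
          ∀ i j : Fin n, j.val = (i.val + 1) % n → G.Adj (f i) (f j)) := by
  intro h
  exact Pool.Agent.H.MP_0cd801_co.no_ham (h 3 13 (by norm_num) (by norm_num)
    Pool.Agent.H.MP_0cd801_co.D Pool.Agent.H.MP_0cd801_co.ori
    Pool.Agent.H.MP_0cd801_co.outdeg Pool.Agent.H.MP_0cd801_co.indeg)

end Pool.Agent.S07160
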