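import Pool.Statements.S07161
import Pool.Agent.H.MP_0cde83_co.A

set_option autoImplicit false
open Pool Pool.MP_0cde83_co

namespace Pool.Agent.S07161

theorem result :
    ∀ (V E : Type) [Fintype V] [Fintype E] (s t : E → V),
      (∀ e : E, s e ≠ t e) →
      (∀ v : V, Set.ncard {e : E | s e = v ∨ t e = v} = 3) →
      (∀ e : E, (SimpleGraph.fromRel
          (fun x y : V => ∃ f : E, f ≠ e ∧ s f = x ∧ t f = y)).Reachable (s e) (t e)) →
      ∀ S : Finset E,
        (∃ c : E → Fin 3, ∀ e f : E, e ∉ S → f ∉ S → e ≠ f →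
          (s e = s f ∨ s e = t f ∨ t e = s f ∨ t e = t f) → c e ≠ c f) →
        ∃ F : Set E,
          (∀ v : V, Even (Set.ncard {e : E | e ∈ F ∧ (s e = v ∨ t e = v)})) ∧
          Set.ncard {C : (SimpleGraph.fromRel
              (fun x y : V => ∃ f : E, f ∈ F ∧ s f = x ∧ t f = y)).ConnectedComponent |
            Odd (SimpleGraph.ConnectedComponent.supp C).ncard} ≤ 2 * S.card := by
  classical
  intro V E _ _ s t hl h3 _ S ⟨c, hc⟩
  obtain ⟨z, a, D, hz, ha, hD, hS⟩ := Agent.H.WO.main s t hl
    (fun v => by rw [← h3 v, ← Set.ncard_coe_finset]; simp [Agent.H.WO.inc]) S c (by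
      intro v e he f hf h1 h2 h4
      refine hc e f h1 h2 h4 ?_
      simp only [Agent.H.WO.inc, Finset.mem_filter, Finset.mem_univ, true_and] at he hf
      rcases he with he | he <;> rcases hf with hf | hf <;> simp [he, hf])
  refine ⟨{e | z e ≠ 0}, fun v => ?_, le_trans ?_ hS⟩
  · have k := congrFun hz v
    rw [Agent.H.WO.bd_inc s t hl, ← Finset.sum_filter_ne_zero] at k
    have : {e : E | e ∈ {e | z e ≠ 0} ∧ (s e = v ∨ t e = v)} =
        ((Agent.H.WO.inc s t v).filter fun e => z e ≠ 0 : Finset E) := by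
      ext e; simp [Agent.H.WO.inc, and_comm]
    rw [this, Set.ncard_coe_finset, ← ZMod.natCast_eq_zero_iff_even, Finset.card_eq_sum_ones]
    push_cast
    refine Eq.trans (Finset.sum_congr rfl fun e he => ?_) k
    have := (Finset.mem_filter.1 he).2
    revert this; generalize z e = p; revert p; decide
  · set G := SimpleGraph.fromRel (fun x y : V => ∃ f : E, f ∈ {e | z e ≠ 0} ∧ s f = x ∧ t f = y)
    refine le_trans ?_ (Finset.card_image_le (f := G.connectedComponentMk))
    rw [← Set.ncard_coe_finset]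
    refine Set.ncard_le_ncard (fun C hC => ?_)
    by_contra h
    have k := Agent.H.WO.bd_sum s t G.connectedComponentMk a (fun e he =>
      SimpleGraph.ConnectedComponent.connectedComponentMk_eq_of_adj
        ((SimpleGraph.fromRel_adj _ _ _).2 ⟨hl e, .inl ⟨e, ha e he, rfl, rfl⟩⟩)) C
    rw [Finset.sum_congr rfl (g := fun _ => 1) fun v hv => hD v fun m => h
      (Finset.mem_coe.2 (Finset.mem_image.2 ⟨v, m, (Finset.mem_filter.1 hv).2⟩))] at k
    simp only [Finset.sum_const, nsmul_eq_mul, mul_one, ZMod.natCast_eq_zero_iff_even] at k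
    have : C.supp = (Finset.univ.filter fun v => G.connectedComponentMk v = C : Finset V) := by
      ext v; simp
    rw [Set.mem_setOf_eq, this, Set.ncard_coe_finset] at hC
    exact Nat.not_even_iff_odd.2 hC k

end Pool.Agent.S07161
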