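import Pool.Statements.S07199
import Pool.Agent.H.MP_0f290c_co.B

set_option autoImplicit false
open Pool Pool.MP_0f290c_co

namespace Pool.Agent.S07199

theorem result :
    ∀ κ : Cardinal.{0}, ∃ (G : Type) (_ : Group G),
      ∀ (V : Type) (X : SimpleGraph V),
        Nonempty (G ≃* SimpleGraph.Iso X X) →
        ∀ S : Set (Sym2 V), S ⊆ X.edgeSet →
          (∀ e ∈ X.edgeSet, ∃ s ∈ S, ∃ φ : SimpleGraph.Iso X X, Sym2.map (⇑φ) s = e) →
          κ < Cardinal.mk S :=
  Pool.Agent.H.MP_0f290c_co.main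

end Pool.Agent.S07199
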