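import Pool.Statements.S07203
import Pool.Agent.H.BS.K

set_option autoImplicit false
open Pool Pool.MP_0f46a6_co

namespace Pool.Agent.S07203

theorem result :
    ∀ (d : ℕ) (X : Finset (EuclideanSpace ℝ (Fin d))),
      (∀ r : ℕ, ∃ n : ℕ, ∀ c : EuclideanSpace ℝ (Fin n) → Fin r,
        ∃ g : EuclideanSpace ℝ (Fin d) → EuclideanSpace ℝ (Fin n),
          (∀ x ∈ X, ∀ y ∈ X, dist (g x) (g y) = dist x y) ∧
          ∃ k : Fin r, ∀ x ∈ X, c (g x) = k) →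
      ∃ n : ℕ, ∀ c : EuclideanSpace ℝ (Fin n) → ℝ,
        ∃ g : EuclideanSpace ℝ (Fin d) → EuclideanSpace ℝ (Fin n),
          (∀ x ∈ X, ∀ y ∈ X, dist (g x) (g y) = dist x y) ∧
          ((∃ k : ℝ, ∀ x ∈ X, c (g x) = k) ∨
            Set.InjOn (fun x => c (g x)) (↑X : Set (EuclideanSpace ℝ (Fin d)))) := by
  exact Pool.Agent.H.BS.canon

end Pool.Agent.S07203
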