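import Pool.Statements.S07220
-- import your own Pool.Agent.* helpers here

set_option autoImplicit false
open Pool Pool.MP_0fb6b1_co

namespace Pool.Agent.S07220

def g (i : Fin 3) : Finset ℕ := ![{0, 1, 2}, {0, 3, 4}, {1, 5, 6}] i

def D (W j : ℕ) : Finset ℕ := insert (7 + W + j) (Finset.Ico 7 (7 + W))

def enc (W : ℕ) (p : Fin 3 × ℕ) : Finset ℕ := g p.1 ∪ D W p.2

lemma g_lt (i : Fin 3) (x : ℕ) (hx : x ∈ g i) : x < 7 := by
  fin_cases i <;> simp [g] at hx <;> omega

lemma g_card (i : Fin 3) : (g i).card = 3 := by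
  fin_cases i <;> simp [g]

lemma D_ge (W j x : ℕ) (hx : x ∈ D W j) : 7 ≤ x := by
  simp [D] at hx; omega

lemma D_card (W j : ℕ) : (D W j).card = W + 1 := by
  unfold D
  rw [Finset.card_insert_of_notMem (by simp)]
  simp

lemma enc_card (W : ℕ) (p : Fin 3 × ℕ) : (enc W p).card = W + 4 := by
  unfold enc
  rw [Finset.card_union_of_disjoint, g_card, D_card]
  · omega
  · rw [Finset.disjoint_left]
    intro x h1 h2
    have := g_lt _ _ h1
    have := D_ge _ _ _ h2
    omega

lemma mem_enc_small (W : ℕ) (p : Fin 3 × ℕ) (x : ℕ) (hx : x < 7) : x ∈ enc W p ↔ x ∈ g p.1 := by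
  unfold enc
  rw [Finset.mem_union]
  constructor
  · rintro (h | h)
    · exact h
    · have := D_ge _ _ _ h
      omega
  · intro h
    exact Or.inl h

lemma enc_inj (W : ℕ) : Function.Injective (enc W) := by
  rintro ⟨i, a⟩ ⟨j, b⟩ h
  have h2 := mem_enc_small W (i, a) 2 (by norm_num)
  have h2' := mem_enc_small W (j, b) 2 (by norm_num)
  have h3 := mem_enc_small W (i, a) 3 (by norm_num)
  have h3' := mem_enc_small W (j, b) 3 (by norm_num)
  rw [h] at h2 h3
  have e2 : 2 ∈ g i ↔ 2 ∈ g j := h2.symm.trans h2'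
  have e3 : 3 ∈ g i ↔ 3 ∈ g j := h3.symm.trans h3'
  have hij : i = j := by
    fin_cases i <;> fin_cases j <;> simp [g] at e2 e3 ⊢
  have hab : a = b := by
    have h1 : 7 + W + a ∈ enc W (i, a) := by simp [enc, D]
    rw [h] at h1
    simp only [enc, Finset.mem_union] at h1
    rcases h1 with h1 | h1
    · have := g_lt _ _ h1
      omega
    · simp [D] at h1
      omega
  rw [hij, hab]

lemma bad (W a b c : ℕ) (q : Fin 3 × ℕ) :
    ¬ (enc W q ∩ enc W (0, a) = (enc W (1, b) ∩ enc W (0, a)) ∪ (enc W (2, c) ∩ enc W (0, a))) := by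
  intro h
  have h0 := Finset.ext_iff.mp h 0
  have h1 := Finset.ext_iff.mp h 1
  have h2 := Finset.ext_iff.mp h 2
  simp only [Finset.mem_inter, Finset.mem_union] at h0 h1 h2
  rw [mem_enc_small _ _ _ (by norm_num), mem_enc_small _ _ _ (by norm_num),
    mem_enc_small _ _ _ (by norm_num), mem_enc_small _ _ _ (by norm_num)] at h0 h1 h2
  obtain ⟨i, j⟩ := q
  fin_cases i <;> simp [g] at h0 h1 h2


/-- The negation of the preceding statement: There is a constant K such that, for every family F of w-element sets with at least K^w members, the fraction of triples (S,S1,S2) from F for which some T in F has T∩S=(S1∩S)∪(S2∩S) tends to 1 as w grows, uniformly in F. -/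
theorem result :
    ¬ (∃ K : ℝ, ∀ ε : ℝ, 0 < ε → ∃ W : ℕ, ∀ w : ℕ, W ≤ w →
      ∀ F : Finset (Finset ℕ), (∀ A ∈ F, A.card = w) → K ^ w ≤ (F.card : ℝ) →
        (1 - ε) * (F.card : ℝ) ^ 3 ≤
          (((F ×ˢ F ×ˢ F).filter
            (fun p : Finset ℕ × Finset ℕ × Finset ℕ =>
              ∃ T ∈ F, T ∩ p.1 = (p.2.1 ∩ p.1) ∪ (p.2.2 ∩ p.1))).card : ℝ)) := by
  rintro ⟨K, hK⟩
  obtain ⟨W, hW⟩ := hK (1 / 54) (by norm_num)
  obtain ⟨M0, hM0⟩ := exists_nat_ge (K ^ (W + 4))
  set M := M0 + 1 with hM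
  set F : Finset (Finset ℕ) := ((Finset.univ : Finset (Fin 3)) ×ˢ Finset.range M).image (enc W) with hF
  have hcard : F.card = 3 * M := by
    rw [hF, Finset.card_image_of_injective _ (enc_inj W)]
    simp
  have h1 := hW (W + 4) (by omega) F (by
      intro A hA
      rw [hF, Finset.mem_image] at hA
      obtain ⟨p, -, rfl⟩ := hA
      exact enc_card W p) (by
      rw [hcard, hM]
      push_cast
      have : (0 : ℝ) ≤ M0 := Nat.cast_nonneg _
      linarith)
  set P : Finset ℕ × Finset ℕ × Finset ℕ → Prop := fun p =>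
    ∃ T ∈ F, T ∩ p.1 = (p.2.1 ∩ p.1) ∪ (p.2.2 ∩ p.1) with hP
  set B : Finset (Finset ℕ × Finset ℕ × Finset ℕ) :=
    (Finset.range M ×ˢ Finset.range M ×ˢ Finset.range M).image
      (fun t => (enc W (0, t.1), enc W (1, t.2.1), enc W (2, t.2.2))) with hB
  have hBcard : B.card = M ^ 3 := by
    rw [hB, Finset.card_image_of_injective]
    · simp; ring
    · rintro ⟨a, b, c⟩ ⟨a', b', c'⟩ h
      simp only [Prod.mk.injEq] at h
      obtain ⟨ha, hb, hc⟩ := h
      have ha := enc_inj W ha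
      have hb := enc_inj W hb
      have hc := enc_inj W hc
      simp only [Prod.mk.injEq, true_and] at ha hb hc
      rw [ha, hb, hc]
  have hmem : ∀ (i : Fin 3) (a : ℕ), a ∈ Finset.range M → enc W (i, a) ∈ F := by
    intro i a ha
    rw [hF, Finset.mem_image]
    exact ⟨(i, a), by simpa using ha, rfl⟩
  have hsub : B ⊆ (F ×ˢ F ×ˢ F).filter (fun p => ¬ P p) := by
    intro p hp
    rw [hB, Finset.mem_image] at hp
    obtain ⟨⟨a, b, c⟩, ht, rfl⟩ := hp
    simp only [Finset.mem_product] at ht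
    rw [Finset.mem_filter]
    refine ⟨?_, ?_⟩
    · simp only [Finset.mem_product]
      exact ⟨hmem _ _ ht.1, hmem _ _ ht.2.1, hmem _ _ ht.2.2⟩
    · rintro ⟨T, hT, hT2⟩
      rw [hF, Finset.mem_image] at hT
      obtain ⟨q, -, rfl⟩ := hT
      exact bad W a b c q hT2
  have hle := Finset.card_le_card hsub
  have hsum := Finset.card_filter_add_card_filter_not (s := F ×ˢ F ×ˢ F) P
  rw [Finset.card_product, Finset.card_product, hcard] at hsum
  rw [hBcard] at hle
  have hfin : ((F ×ˢ F ×ˢ F).filter P).card + M ^ 3 ≤ 3 * M * (3 * M * (3 * M)) := by omega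
  have hfin' : (((F ×ˢ F ×ˢ F).filter P).card : ℝ) + (M : ℝ) ^ 3 ≤ 3 * M * (3 * M * (3 * M)) := by
    exact_mod_cast hfin
  rw [hcard] at h1
  push_cast at h1
  have hMpos : (0 : ℝ) < (M : ℝ) := by
    rw [hM]; positivity
  have : (0 : ℝ) < (M : ℝ) ^ 3 := by positivity
  nlinarith

end Pool.Agent.S07220
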