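import Pool.Statements.S07275
import Pool.Agent.H.MP_12e063_co.A

set_option autoImplicit false
open Pool Pool.MP_12e063_co

namespace Pool.Agent.S07275

/-- There are constants C,k such that arbitrarily large connected simple graphs exist with at most C·diam^k vertices, each having perfect state transfer: for some distinct u,v and time t, the (u,v) entry of exp(-itA) has modulus 1. -/
theorem result :
    ∃ C k : ℕ, ∀ N : ℕ, ∃ (n : ℕ) (G : SimpleGraph (Fin n)) (_ : DecidableRel G.Adj),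
      N < n ∧ G.Connected ∧ n ≤ C * G.diam ^ k ∧
      ∃ (u v : Fin n) (t : ℝ), u ≠ v ∧
        ‖∑' m : ℕ, ((-(t : ℂ) * Complex.I) ^ m / (m.factorial : ℂ)) *
            ((G.adjMatrix ℂ) ^ m) u v‖ = 1 := by
  refine ⟨16, 2, fun N => ?_⟩
  let e := (Fintype.equivFin (H.MP_12e063_co.A.V0 N × Bool)).symm
  have hc : ((H.MP_12e063_co.A.G N).comap e).Connected :=
    (SimpleGraph.Iso.comap e _).connected_iff.2 (H.MP_12e063_co.A.conn N)
  have cd := H.MP_12e063_co.A.card_le N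
  have : Nonempty (Fin (Fintype.card (H.MP_12e063_co.A.V0 N × Bool))) := ⟨⟨0, by omega⟩⟩
  have h2 := H.MP_12e063_co.A.diam_ge _ hc (fun x => (e x).1.1.1)
    (fun u v => H.MP_12e063_co.A.lip N _ _)
    (e.symm (⟨⟨0, by omega⟩, ⟨0, H.MP_12e063_co.A.sz_pos _ _ (by omega)⟩⟩, true))
    (e.symm (⟨⟨2 * N + 1, by omega⟩, ⟨0, H.MP_12e063_co.A.sz_pos _ _ (by omega)⟩⟩, true))
  simp only [Equiv.apply_symm_apply] at h2
  refine ⟨_, (H.MP_12e063_co.A.G N).comap e, inferInstance, by omega, hc,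
    cd.2.trans (by gcongr; omega), e.symm (H.MP_12e063_co.A.v0 N, true),
    e.symm (H.MP_12e063_co.A.v0 N, false), Real.pi / 2, by simp, ?_⟩
  have p := congrFun (H.MP_12e063_co.A.pst N (-1) (Or.inr rfl)) (H.MP_12e063_co.A.v0 N, true)
  rw [Matrix.mulVec_single_one, Matrix.col_apply, Pi.single_eq_same] at p
  have s := H.MP_d93d44_co.A.exp_sum
    ((-1 * (Real.pi / 2 * Complex.I)) • (H.MP_12e063_co.A.G N).adjMatrix ℂ)
  have s2 := Pi.hasSum.1 (Pi.hasSum.1 s (H.MP_12e063_co.A.v0 N, true))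
    (H.MP_12e063_co.A.v0 N, false)
  have pw : ∀ m : ℕ, ((H.MP_12e063_co.A.G N).comap e).adjMatrix ℂ ^ m =
      ((H.MP_12e063_co.A.G N).adjMatrix ℂ ^ m).submatrix e e := fun m =>
    (map_pow (Matrix.reindexAlgEquiv ℂ ℂ e.symm) ((H.MP_12e063_co.A.G N).adjMatrix ℂ) m).symm
  rw [p] at s2
  have s3 : (-1 * Complex.I) = ∑' m : ℕ, ((-((Real.pi / 2 : ℝ) : ℂ) * Complex.I) ^ m /
      (m.factorial : ℂ)) * ((H.MP_12e063_co.A.G N).adjMatrix ℂ ^ m)
        (H.MP_12e063_co.A.v0 N, true) (H.MP_12e063_co.A.v0 N, false) := by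
    rw [← s2.tsum_eq]
    refine tsum_congr fun m => ?_
    rw [smul_pow, Matrix.smul_apply, Matrix.smul_apply, smul_eq_mul, smul_eq_mul]
    push_cast
    ring
  simp only [pw, Matrix.submatrix_apply, Equiv.apply_symm_apply]
  rw [← s3]
  simp

end Pool.Agent.S07275
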