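import Pool.Statements.S07316
import Pool.Agent.H.MP_150b74_co.A

set_option autoImplicit false
open Pool Pool.MP_150b74_co

namespace Pool.Agent.S07316

theorem result :
    ¬ (∀ r q : ℕ, 3 ≤ r → 2 ≤ q → ∀ ε : ℝ, 0 < ε →
      ∃ D : ℝ, ∀ ρ : Fin q → ℝ, (∀ i, 0 ≤ ρ i ∧ ρ i ≤ 1) → ∑ i, ρ i < (q : ℝ) - ε →
        ∃ C : ℝ, ∀ k : ℕ, 1 ≤ k → ∃ n : ℕ, Real.log (n : ℝ) ≤ C * (k : ℝ) ^ D ∧
          ∀ φ : Finset (Fin n) → Fin q, ∃ S : Finset (Fin n), k ≤ S.card ∧ ∃ j : Fin q,
            ∀ v ∈ S, ρ j * (((S.card - 1).choose (r - 1) : ℕ) : ℝ) ≤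
              (((S.powersetCard r).filter (fun e => v ∈ e ∧ φ e = j)).card : ℝ)) := by
  intro h
  obtain ⟨D, hD⟩ := h 4 9 (by norm_num) (by norm_num) (1 / 4) (by norm_num)
  obtain ⟨C, hC⟩ := hD (fun j => if j = 8 then 1 / 2 else 1)
    (fun i => by split_ifs <;> norm_num) (by simp [Fin.sum_univ_succ]; norm_num)
  obtain ⟨t, ht⟩ := H.QR.big C D
  obtain ⟨n, hn, hφ⟩ := hC (t + 5) (by omega)
  have hn2 : n ≤ 2 ^ 2 ^ t := by
    by_contra hc
    have h1 : ((2 : ℝ) ^ 2 ^ t) < n := by exact_mod_cast not_le.1 hc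
    have := Real.log_lt_log (by positivity) h1
    rw [Real.log_pow] at this
    push_cast at this ht hn
    linarith
  obtain ⟨S, hS, j, hj⟩ := hφ H.QR.phi
  have : ∀ e ∈ S.powersetCard 4, H.QR.phi e = j := by
    intro e he
    have he4 := (Finset.mem_powersetCard.1 he).2
    obtain ⟨v, hv⟩ : e.Nonempty := Finset.card_pos.1 (by omega)
    have hvS := (Finset.mem_powersetCard.1 he).1 hv
    have h1 := hj v hvS
    by_cases h8 : j = 8
    · subst h8
      rw [Finset.filter_false_of_mem (fun e _ h => H.QR.phi_ne e h.2)] at h1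
      have : 0 < (S.card - 1).choose (4 - 1) := Nat.choose_pos (by omega)
      have : (0 : ℝ) < (S.card - 1).choose (4 - 1) := by exact_mod_cast this
      simp only [if_true, Finset.card_empty, Nat.cast_zero] at h1
      linarith
    · simp only [if_neg h8, one_mul, Nat.cast_le] at h1
      have h2 := Finset.card_filter_powersetCard_subset {v} S 4
        (Finset.singleton_subset_iff.2 hvS) (by simp)
      simp only [Finset.card_singleton, Finset.singleton_subset_iff] at h2
      have h3 := Finset.eq_of_subset_of_card_le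
        (s := (S.powersetCard 4).filter (fun e => v ∈ e ∧ H.QR.phi e = j))
        (t := (S.powersetCard 4).filter (fun e => v ∈ e))
        (Finset.monotone_filter_right _ (fun e _ h => h.1)) (h2.trans_le h1)
      have : e ∈ (S.powersetCard 4).filter (fun e => v ∈ e ∧ H.QR.phi e = j) := by
        rw [h3]; exact Finset.mem_filter.2 ⟨he, hv⟩
      exact (Finset.mem_filter.1 this).2.2
  have := H.QR.small hn2 S j this
  omega

end Pool.Agent.S07316
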