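import Pool.Statements.S07325
import Pool.Agent.H.MP_15d78c_co.B

set_option autoImplicit false
open Pool Pool.MP_15d78c_co

namespace Pool.Agent.S07325

theorem result :
  ∀ (d : ℕ), 2 ≤ d →
  ∀ (R : Set (Finpartition (Finset.univ : Finset (Fin d)))), R.Nonempty →
  ∃ F : ℕ → ℕ, ∀ (l : ℕ) (K : Type) [Field K] (Q : Fin d → Type)
    [∀ α, Finite (Q α)] [∀ α, Nonempty (Q α)] (T : (∀ α, Q α) → K),
    (∀ k < l, ¬ ∃ S : Fin k → ((∀ α, Q α) → K),
        (∀ i, ∃ P ∈ R, ∃ a : ∀ I : Finset (Fin d), (∀ β : {γ // γ ∈ I}, Q β.1) → K,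
            ∀ x : (∀ α, Q α), S i x = ∏ I ∈ P.parts, a I (fun β => x β.1)) ∧
        T = ∑ i, S i) →
    ∃ X : ∀ α, Finset (Q α), (∀ α, (X α).card ≤ F l) ∧
      ∀ k < l, ¬ ∃ S : Fin k → ((∀ α, {q // q ∈ X α}) → K),
        (∀ i, ∃ P ∈ R, ∃ a : ∀ I : Finset (Fin d), (∀ β : {γ // γ ∈ I}, {q // q ∈ X β.1}) → K,
            ∀ y : (∀ α, {q // q ∈ X α}), S i y = ∏ I ∈ P.parts, a I (fun β => y β.1)) ∧
        (fun y => T (fun α => (y α).1)) = ∑ i, S i := by
  intro d _ R _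
  refine (Classical.skolem (p := fun (l n : ℕ) => ∀ (K : Type) [Field K] (Q : Fin d → Type)
    [∀ α, Finite (Q α)] [∀ α, Nonempty (Q α)] (T : (∀ α, Q α) → K),
    (∀ k < l, ¬ ∃ S : Fin k → ((∀ α, Q α) → K),
        (∀ i, ∃ P ∈ R, ∃ a : ∀ I : Finset (Fin d), (∀ β : {γ // γ ∈ I}, Q β.1) → K,
            ∀ x : (∀ α, Q α), S i x = ∏ I ∈ P.parts, a I (fun β => x β.1)) ∧
        T = ∑ i, S i) →
    ∃ X : ∀ α, Finset (Q α), (∀ α, (X α).card ≤ n) ∧
      ∀ k < l, ¬ ∃ S : Fin k → ((∀ α, {q // q ∈ X α}) → K),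
        (∀ i, ∃ P ∈ R, ∃ a : ∀ I : Finset (Fin d), (∀ β : {γ // γ ∈ I}, {q // q ∈ X β.1}) → K,
            ∀ y : (∀ α, {q // q ∈ X α}), S i y = ∏ I ∈ P.parts, a I (fun β => y β.1)) ∧
        (fun y => T (fun α => (y α).1)) = ∑ i, S i)).1 fun l => ?_
  by_contra hc
  push Not at hc
  choose K iK Q _ iN T h1 h2 using hc
  classical
  obtain ⟨n, ⟨k, P, hP⟩, a, a1, a2⟩ := Pool.Agent.H.MP_15d78c_co.main
    (C := Σ k : Fin l, {P : Fin k → Finpartition (Finset.univ : Finset (Fin d)) // ∀ i, P i ∈ R})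
    (fun c => c.1) (fun c i => (c.2.1 i).parts)
    (fun c i I hI I' hI' e => (c.2.1 i).disjoint hI hI' e) K Q T (by
      intro n X hX
      obtain ⟨k, hk, S, s1, s2⟩ := h2 n X hX
      choose P p1 a p2 using s1
      refine ⟨⟨⟨k, hk⟩, P, p1⟩, fun i I x =>
        if h : ∀ α ∈ I, x α ∈ X α then a i I (fun β => ⟨x β.1, h β.1 β.2⟩) else 0, ?_, ?_⟩
      · intro i I x y hxy
        by_cases e : ∀ α ∈ I, x α ∈ X α
        · have e' : ∀ α ∈ I, y α ∈ X α := fun α hα => hxy α hα ▸ e α hα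
          simp only [dif_pos e, dif_pos e']
          congr 1
          funext β
          exact Subtype.ext (hxy β.1 β.2)
        · have e' : ¬ ∀ α ∈ I, y α ∈ X α := fun h => e fun α hα => (hxy α hα).symm ▸ h α hα
          simp only [dif_neg e, dif_neg e']
      · intro x hx
        have := congrFun s2 (fun α => ⟨x α, hx α⟩)
        simp only [Finset.sum_apply, p2] at this
        rw [this]
        refine Finset.sum_congr rfl fun i _ => Finset.prod_congr rfl fun I _ => ?_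
        simp only [dif_pos (fun α (_ : α ∈ I) => hx α)])
  refine h1 n k k.2 (fun i x => ∏ I ∈ (P i).parts, a i I x) (fun i => ⟨P i, hP i, fun I z =>
    a i I (fun α => if h : α ∈ I then z ⟨α, h⟩ else Classical.arbitrary _), fun x => ?_⟩) ?_
  · exact Finset.prod_congr rfl fun I _ => a1 i I _ _ fun α hα => by simp only [dif_pos hα]
  · funext x
    rw [a2 x, Finset.sum_apply]

end Pool.Agent.S07325
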