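import Pool.Statements.S07344

set_option autoImplicit false
open Pool Pool.MP_166f70_co

namespace Pool.Agent.S07344

/-! Ten points (a regular pentagon, its centre, two crossings of diagonals and two crossings of
sides) and twelve lines, each through exactly three of the points.  The incidences force a root
of x ^ 2 - 3 x + 1. -/

/-- The zero pattern: `Z i j` says that point `i` is on line `j`. -/
def Z (i : Fin 10) (j : Fin 12) : Bool :=
  (![[1, 3, 5], [2, 4, 5], [0, 3, 6], [1, 4, 6], [0, 4, 7], [1, 2, 7], [0, 1, 8], [2, 3, 8],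
    [0, 5, 9], [2, 6, 9], [3, 7, 9], [4, 8, 9]] j : List (Fin 10)).contains i

def p0 : Fin 10 → Fin 3 → ℤ := ![![1, 0, 0], ![0, 1, 0], ![0, 0, 1], ![1, 1, 1], ![1, 0, 1],
  ![0, 1, 0], ![1, 1, 1], ![0, 0, 1], ![1, 1, 0], ![1, 1, 0]]
def p1 : Fin 10 → Fin 3 → ℤ := ![![0, 0, 0], ![0, 0, 0], ![0, 0, 0], ![0, 0, 0], ![1, 1, 0],
  ![1, 0, 1], ![1, 0, 0], ![0, 1, 0], ![0, 0, 0], ![1, 0, 1]]
def l0 : Fin 3 → Fin 12 → ℤ := ![![1, 1, 0, 1, 0, 1, 0, 1, 0, 1, 1, -1],
  ![0, 0, 1, 0, 1, 0, 0, -1, 0, -1, -1, 1], ![-1, 0, -1, -1, 0, 0, 1, 0, -1, 0, 0, 1]]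
def l1 : Fin 3 → Fin 12 → ℤ := ![![0, 0, 0, 0, 0, 0, 0, 0, 0, 0, -1, 0],
  ![0, -1, 0, 0, 0, 0, 0, 0, 1, -1, 0, 0], ![0, 0, 0, -1, -1, 0, 0, 0, 0, 0, 1, 0]]

def a0 (i : Fin 10) (j : Fin 12) : ℤ :=
  p0 i 0 * l0 0 j + p1 i 0 * l1 0 j + (p0 i 1 * l0 1 j + p1 i 1 * l1 1 j) +
    (p0 i 2 * l0 2 j + p1 i 2 * l1 2 j)
def a1 (i : Fin 10) (j : Fin 12) : ℤ :=
  p0 i 0 * l1 0 j + p1 i 0 * l0 0 j + p1 i 0 * l1 0 j +
    (p0 i 1 * l1 1 j + p1 i 1 * l0 1 j + p1 i 1 * l1 1 j) +
    (p0 i 2 * l1 2 j + p1 i 2 * l0 2 j + p1 i 2 * l1 2 j)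

theorem a_zero : ∀ i j, (a0 i j = 0 ∧ a1 i j = 0) ↔ Z i j = true := by decide +kernel

noncomputable def PP : Matrix (Fin 10) (Fin 3) ℝ :=
  Matrix.of fun i k => (p0 i k : ℝ) + (p1 i k : ℝ) * Real.goldenRatio
noncomputable def LL : Matrix (Fin 3) (Fin 12) ℝ :=
  Matrix.of fun k j => (l0 k j : ℝ) + (l1 k j : ℝ) * Real.goldenRatio
noncomputable def BB : Matrix (Fin 10) (Fin 12) ℝ := PP * LL

theorem BB_apply (i : Fin 10) (j : Fin 12) :
    BB i j = (a0 i j : ℝ) + (a1 i j : ℝ) * Real.goldenRatio := by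
  simp only [BB, PP, LL, Matrix.mul_apply, Matrix.of_apply, Fin.sum_univ_three, a0, a1]
  push_cast
  linear_combination ((p1 i 0 : ℝ) * l1 0 j + (p1 i 1 : ℝ) * l1 1 j + (p1 i 2 : ℝ) * l1 2 j) *
    Real.goldenRatio_sq

theorem BB_zero (i : Fin 10) (j : Fin 12) : BB i j = 0 ↔ Z i j = true := by
  rw [← a_zero, BB_apply]
  constructor
  · intro h
    by_cases h1 : a1 i j = 0
    · refine ⟨?_, h1⟩
      rw [h1] at h
      simpa using h
    · exfalso
      have h2 : Irrational ((a0 i j : ℝ) + (a1 i j : ℝ) * Real.goldenRatio) :=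
        (Real.goldenRatio_irrational.intCast_mul h1).intCast_add _
      rw [h] at h2
      simp at h2
  · rintro ⟨h0, h1⟩
    simp [h0, h1]

section
variable {F : Type} [Field F] (C : Matrix (Fin 10) (Fin 12) F)

def r3 : Fin 3 → Fin 10 := ![0, 1, 2]

theorem li (hC : ∀ i j, C i j = 0 ↔ Z i j = true) :
    LinearIndependent F (fun k : Fin 3 => C.row (r3 k)) := by
  have z : ∀ i j, Z i j = true → C i j = 0 := fun i j h => (hC i j).2 h
  have n : ∀ i j, Z i j = false → C i j ≠ 0 := fun i j h h2 => by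
    rw [(hC i j).1 h2] at h; exact absurd h (by decide)
  rw [Fintype.linearIndependent_iff]
  intro g hg
  have e : ∀ j, g 0 * C 0 j + g 1 * C 1 j + g 2 * C 2 j = 0 := by
    intro j
    have := congrFun hg j
    simpa [Fin.sum_univ_three, r3, Matrix.row] using this
  have e5 := e 5
  have e6 := e 6
  have e2 := e 2
  rw [z 1 5 (by decide), z 2 5 (by decide)] at e5
  rw [z 0 6 (by decide), z 1 6 (by decide)] at e6
  have g0 : g 0 = 0 := by simpa [n 0 5 (by decide)] using e5
  have g2 : g 2 = 0 := by simpa [n 2 6 (by decide)] using e6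
  rw [g0, g2] at e2
  have g1 : g 1 = 0 := by simpa [n 1 2 (by decide)] using e2
  intro k
  fin_cases k <;> assumption

theorem span_le : Submodule.span F (Set.range (fun k : Fin 3 => C.row (r3 k))) ≤
    Submodule.span F (Set.range C.row) := by
  apply Submodule.span_mono
  rintro _ ⟨k, rfl⟩
  exact ⟨r3 k, rfl⟩

theorem three_le (hC : ∀ i j, C i j = 0 ↔ Z i j = true) : 3 ≤ C.rank := by
  rw [Matrix.rank_eq_finrank_span_row]
  have h1 := finrank_span_eq_card (li C hC)
  have h2 := Submodule.finrank_mono (span_le C)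
  rw [h1] at h2
  simpa using h2

theorem coords (hC : ∀ i j, C i j = 0 ↔ Z i j = true) (hr : C.rank = 3) (i : Fin 10) :
    ∃ x y z : F, ∀ j, C i j = x * C 0 j + y * C 1 j + z * C 2 j := by
  rw [Matrix.rank_eq_finrank_span_row] at hr
  have h1 := finrank_span_eq_card (li C hC)
  have h2 := Submodule.eq_of_le_of_finrank_eq (span_le C) (by rw [h1, hr]; simp)
  have h3 : C.row i ∈ Submodule.span F (Set.range C.row) := Submodule.subset_span ⟨i, rfl⟩
  rw [← h2, Submodule.mem_span_range_iff_exists_fun] at h3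
  obtain ⟨g, hg⟩ := h3
  refine ⟨g 0, g 1, g 2, fun j => ?_⟩
  have := congrFun hg j
  simpa [Fin.sum_univ_three, r3, Matrix.row] using this.symm

theorem det2 {α β x y x' y' : F} (h : α ≠ 0) (h1 : x * α + y * β = 0)
    (h2 : x' * α + y' * β = 0) : x * y' = y * x' := by
  apply mul_left_cancel₀ h
  linear_combination y' * h1 - y * h2

theorem det3 {α β γ x y z x' y' z' x'' y'' z'' : F} (h : α ≠ 0)
    (h1 : x * α + y * β + z * γ = 0) (h2 : x' * α + y' * β + z' * γ = 0)
    (h3 : x'' * α + y'' * β + z'' * γ = 0) :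
    x * (y' * z'' - z' * y'') - x' * (y * z'' - z * y'') + x'' * (y * z' - z * y') = 0 := by
  apply mul_left_cancel₀ h
  linear_combination (y' * z'' - z' * y'') * h1 - (y * z'' - z * y'') * h2 +
    (y * z' - z * y') * h3

theorem root (hC : ∀ i j, C i j = 0 ↔ Z i j = true) (hr : C.rank = 3) :
    ∃ x : F, x ^ 2 - 3 * x + 1 = 0 := by
  have z : ∀ i j, Z i j = true → C i j = 0 := fun i j h => (hC i j).2 h
  have n : ∀ i j, Z i j = false → C i j ≠ 0 := fun i j h h2 => by
    rw [(hC i j).1 h2] at h; exact absurd h (by decide)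
  obtain ⟨a, b, c, h3⟩ := coords C hC hr 3
  obtain ⟨d, e, f, h4⟩ := coords C hC hr 4
  obtain ⟨w1, w2, w3, h5⟩ := coords C hC hr 5
  obtain ⟨s1, s2, s3, h6⟩ := coords C hC hr 6
  obtain ⟨u1, u2, u3, h7⟩ := coords C hC hr 7
  obtain ⟨t1, t2, t3, h8⟩ := coords C hC hr 8
  obtain ⟨o1, o2, o3, h9⟩ := coords C hC hr 9
  have first : ∀ {i : Fin 10} {x y w : F}, (∀ j, C i j = x * C 0 j + y * C 1 j + w * C 2 j) →
      Z i 5 = false → x ≠ 0 := by
    intro i x y w h hz hx
    apply n i 5 hz
    rw [h 5, z 1 5 (by decide), z 2 5 (by decide), hx]; ring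
  have last : ∀ {i : Fin 10} {x y w : F}, (∀ j, C i j = x * C 0 j + y * C 1 j + w * C 2 j) →
      Z i 6 = false → w ≠ 0 := by
    intro i x y w h hz hx
    apply n i 6 hz
    rw [h 6, z 0 6 (by decide), z 1 6 (by decide), hx]; ring
  have on : ∀ {i : Fin 10} {x y w : F}, (∀ j, C i j = x * C 0 j + y * C 1 j + w * C 2 j) →
      ∀ j, Z i j = true → x * C 0 j + y * C 1 j + w * C 2 j = 0 := by
    intro i x y w h j hz
    rw [← h j]; exact z i j hz
  have on0 : ∀ {i : Fin 10} {x y w : F}, (∀ j, C i j = x * C 0 j + y * C 1 j + w * C 2 j) →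
      ∀ j, Z i j = true → Z 0 j = true → y * C 1 j + w * C 2 j = 0 := by
    intro i x y w h j hz h0
    have := on h j hz
    rw [z 0 j h0] at this
    linear_combination this
  have on1 : ∀ {i : Fin 10} {x y w : F}, (∀ j, C i j = x * C 0 j + y * C 1 j + w * C 2 j) →
      ∀ j, Z i j = true → Z 1 j = true → x * C 0 j + w * C 2 j = 0 := by
    intro i x y w h j hz h0
    have := on h j hz
    rw [z 1 j h0] at this
    linear_combination this
  have on2 : ∀ {i : Fin 10} {x y w : F}, (∀ j, C i j = x * C 0 j + y * C 1 j + w * C 2 j) →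
      ∀ j, Z i j = true → Z 2 j = true → x * C 0 j + y * C 1 j = 0 := by
    intro i x y w h j hz h0
    have := on h j hz
    rw [z 2 j h0] at this
    linear_combination this
  have ha := first h3 (by decide)
  have hc := last h3 (by decide)
  have hd := first h4 (by decide)
  have hf := last h4 (by decide)
  have hw1 := first h5 (by decide)
  have hs3 := last h6 (by decide)
  have hu3 := last h7 (by decide)
  have ht1 := first h8 (by decide)
  have ho3 := last h9 (by decide)
  have hb : b ≠ 0 := by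
    intro hb
    have := on0 h3 2 (by decide) (by decide)
    rw [hb] at this
    exact mul_ne_zero hc (n 2 2 (by decide)) (by linear_combination this)
  have he : e ≠ 0 := by
    intro he
    have := on0 h4 4 (by decide) (by decide)
    rw [he] at this
    exact mul_ne_zero hf (n 2 4 (by decide)) (by linear_combination this)
  have hx1 : d * c - a * f ≠ 0 := by
    intro hx
    apply n 4 0 (by decide)
    have h1 := on1 h3 0 (by decide) (by decide)
    rw [h4 0, z 1 0 (by decide)]
    apply mul_left_cancel₀ hc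
    linear_combination f * h1 + C 0 0 * hx
  have L1 := det2 (n 0 0 (by decide)) (on1 h3 0 (by decide) (by decide))
    (on1 h5 0 (by decide) (by decide))
  have L2 := det2 (n 0 1 (by decide)) (on2 h4 1 (by decide) (by decide))
    (on2 h5 1 (by decide) (by decide))
  have L3 := det2 (n 1 2 (by decide)) (on0 h3 2 (by decide) (by decide))
    (on0 h6 2 (by decide) (by decide))
  have L4 := det2 (n 0 3 (by decide)) (on1 h4 3 (by decide) (by decide))
    (on1 h6 3 (by decide) (by decide))
  have L5 := det2 (n 1 4 (by decide)) (on0 h4 4 (by decide) (by decide))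
    (on0 h7 4 (by decide) (by decide))
  have L6 : u1 = 0 := by
    have := on1 h7 5 (by decide) (by decide)
    rw [z 2 5 (by decide)] at this
    simpa [n 0 5 (by decide)] using this
  have L7 : t3 = 0 := by
    have := on0 h8 6 (by decide) (by decide)
    rw [z 1 6 (by decide)] at this
    simpa [n 2 6 (by decide)] using this
  have L8 := det2 (n 0 7 (by decide)) (on2 h3 7 (by decide) (by decide))
    (on2 h8 7 (by decide) (by decide))
  have L9 := det2 (n 1 8 (by decide)) (on0 h5 8 (by decide) (by decide))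
    (on0 h9 8 (by decide) (by decide))
  have L10 := det2 (n 0 9 (by decide)) (on2 h6 9 (by decide) (by decide))
    (on2 h9 9 (by decide) (by decide))
  have L11 := det3 (n 0 10 (by decide)) (on h3 10 (by decide)) (on h7 10 (by decide))
    (on h9 10 (by decide))
  have L12 := det3 (n 0 11 (by decide)) (on h4 11 (by decide)) (on h8 11 (by decide))
    (on h9 11 (by decide))
  clear h3 h4 h5 h6 h7 h8 h9 first last on on0 on1 on2 z n
  have e1 : w3 = c * w1 / a := by field_simp; linear_combination L1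
  have e2 : w2 = e * w1 / d := by field_simp; linear_combination L2
  have e3 : s2 = b * s3 / c := by field_simp; linear_combination -L3
  have e4 : s1 = d * s3 / f := by field_simp; linear_combination -L4
  have e5 : u2 = e * u3 / f := by field_simp; linear_combination -L5
  have e8 : t2 = b * t1 / a := by field_simp; linear_combination L8
  have e9 : o2 = e * a * o3 / (d * c) := by
    rw [e1, e2] at L9
    field_simp at L9 ⊢
    linear_combination -L9
  have e10 : o1 = e * a * o3 / (f * b) := by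
    rw [e3, e4, e9] at L10
    field_simp at L10 ⊢
    linear_combination -L10
  rw [L6, e5, e9, e10] at L11
  rw [L7, e8, e9, e10] at L12
  have A : d * c * (2 * b * f - e * c) = a * f * (b * f) := by
    field_simp at L11
    apply mul_left_cancel₀ (mul_ne_zero (mul_ne_zero he ha) (mul_ne_zero ho3 hu3))
    linear_combination L11
  have B : (d * c) ^ 2 * (b * f) - 2 * (d * c) * (e * c) * (a * f) + (e * c) * (a * f) ^ 2 = 0 := by
    field_simp at L12
    apply mul_left_cancel₀ (mul_ne_zero hb (mul_ne_zero ho3 ht1))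
    linear_combination c * L12
  refine ⟨d * c / (a * f), ?_⟩
  have key : (d * c - a * f) * ((d * c) ^ 2 - 3 * (d * c) * (a * f) + (a * f) ^ 2) = 0 := by
    apply mul_left_cancel₀ (mul_ne_zero hb hf)
    linear_combination (d * c) * B - (2 * (d * c) * (a * f) - (a * f) ^ 2) * A
  have key2 := (mul_eq_zero.1 key).resolve_left hx1
  field_simp
  linear_combination key2

end

theorem result :
    ¬ (∀ (m n r : ℕ) (A : Matrix (Fin m) (Fin n) SignType),
      3 ≤ r →
      (∃ B : Matrix (Fin m) (Fin n) ℝ,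
          (∀ i j, SignType.sign (B i j) = A i j) ∧ B.rank = r) →
      (∀ B : Matrix (Fin m) (Fin n) ℝ,
          (∀ i j, SignType.sign (B i j) = A i j) → r ≤ B.rank) →
      (∀ j : Fin n, (Finset.univ.filter (fun i : Fin m => A i j = 0)).card ≤ r) →
      ∃ C : Matrix (Fin m) (Fin n) ℚ,
        (∀ i j, SignType.sign (C i j) = A i j) ∧ C.rank = r) := by
  intro h
  have hA : ∀ i j, SignType.sign (BB i j) = 0 ↔ Z i j = true := fun i j => by
    rw [sign_eq_zero_iff, BB_zero]
  obtain ⟨C, hC, hr⟩ := h 10 12 3 (Matrix.of fun i j => SignType.sign (BB i j)) le_rfl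
    ⟨BB, fun _ _ => rfl, le_antisymm
      ((Matrix.rank_mul_le_left PP LL).trans (Matrix.rank_le_width PP)) (three_le BB BB_zero)⟩
    (fun B hB => three_le B (fun i j => by
      rw [← sign_eq_zero_iff, hB i j]; exact hA i j))
    (fun j => by
      have h1 : (Finset.univ.filter
          (fun i : Fin 10 => (Matrix.of fun i j => SignType.sign (BB i j)) i j = 0)) =
          Finset.univ.filter (fun i : Fin 10 => Z i j = true) := by
        apply Finset.filter_congr
        intro i _
        exact hA i j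
      rw [h1]
      revert j
      have : ∀ j : Fin 12, (Finset.univ.filter (fun i : Fin 10 => Z i j = true)).card ≤ 3 := by
        decide +kernel
      intro j _
      exact this j)
  obtain ⟨x, hx⟩ := root C (fun i j => by rw [← sign_eq_zero_iff, hC i j]; exact hA i j) hr
  have h5 : IsSquare (5 : ℚ) := ⟨2 * x - 3, by linear_combination (-4) * hx⟩
  have h6 : IsSquare (5 : ℕ) := by exact_mod_cast Rat.isSquare_natCast_iff.1 (by exact_mod_cast h5)
  exact absurd h6 (by decide +kernel)

end Pool.Agent.S07344
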