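import Pool.Statements.S07377
import Pool.Agent.H.MP_17bf10_co.B

set_option autoImplicit false
open Pool Pool.MP_17bf10_co

namespace Pool.Agent.S07377

theorem result :
  ∀ d : ℕ, 3 ≤ d → ∀ S : Finset (EuclideanSpace ℝ (Fin d)), S.Nonempty →
    (∀ c ∈ S, ∀ c' ∈ S, dist c c' ≤ 1) →
    (∀ c ∈ S, ∃ x : EuclideanSpace ℝ (Fin d),
        (∀ c' ∈ S, c' ≠ c → dist x c' ≤ 1) ∧ 1 < dist x c) →
    ∀ n : ℕ, ∀ p : Fin n → EuclideanSpace ℝ (Fin d),
      (2 ≤ n ∧ ∀ i : Fin n,
        p i ∈ frontier (⋂ c ∈ S, Metric.closedBall c (1 : ℝ)) ∧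
        p i ≠ p (finRotate n i) ∧
        ((dist (p (finRotate n i)) (p i))⁻¹ • (p (finRotate n i) - p i)
          + (dist (p ((finRotate n).symm i)) (p i))⁻¹ • (p ((finRotate n).symm i) - p i)) ≠ 0 ∧
        ∀ x ∈ (⋂ c ∈ S, Metric.closedBall c (1 : ℝ)),
          0 ≤ inner ℝ ((dist (p (finRotate n i)) (p i))⁻¹ • (p (finRotate n i) - p i)
                + (dist (p ((finRotate n).symm i)) (p i))⁻¹ • (p ((finRotate n).symm i) - p i))
               (x - p i)) →
      (∀ m : ℕ, ∀ q : Fin m → EuclideanSpace ℝ (Fin d),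
        (2 ≤ m ∧ ∀ j : Fin m,
          q j ∈ frontier (⋂ c ∈ S, Metric.closedBall c (1 : ℝ)) ∧
          q j ≠ q (finRotate m j) ∧
          ((dist (q (finRotate m j)) (q j))⁻¹ • (q (finRotate m j) - q j)
            + (dist (q ((finRotate m).symm j)) (q j))⁻¹ • (q ((finRotate m).symm j) - q j)) ≠ 0 ∧
          ∀ x ∈ (⋂ c ∈ S, Metric.closedBall c (1 : ℝ)),
            0 ≤ inner ℝ ((dist (q (finRotate m j)) (q j))⁻¹ • (q (finRotate m j) - q j)
                  + (dist (q ((finRotate m).symm j)) (q j))⁻¹ • (q ((finRotate m).symm j) - q j))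
                 (x - q j)) →
        ∑ i, dist (p i) (p (finRotate n i)) ≤ ∑ j, dist (q j) (q (finRotate m j))) →
      n = 2 := by
  intro d hd S hS hfat _ n p ⟨hn, hp⟩ hmin
  open Pool.Agent.H.MP_17bf10_co in
  have hK : (⋂ c ∈ S, Metric.closedBall c (1 : ℝ)) = bh (S : Set (EuclideanSpace ℝ (Fin d))) 1 := by
    ext x; simp [bh, dist_eq_norm]
  rw [hK] at hp hmin
  have hC : (S : Set (EuclideanSpace ℝ (Fin d))).Nonempty := hS
  have hCA : (S : Set (EuclideanSpace ℝ (Fin d))) ⊆ bh (S : Set (EuclideanSpace ℝ (Fin d))) 1 := by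
    intro c hc c' hc'
    rw [← dist_eq_norm]; exact hfat c hc c' hc'
  have hA : (bh (S : Set (EuclideanSpace ℝ (Fin d))) 1).Nonempty := hC.mono hCA
  obtain ⟨D, u, y1, y2, hu, hD0, hy1, hy2, he, hD, hq0, hq1⟩ :=
    diam_pair _ hC 1 hA (EuclideanSpace.single (⟨0, by omega⟩ : Fin d) (1 : ℝ)) (by simp)
  rw [one_smul] at hq0 hq1
  have hD1 : D ≤ 1 := by
    have h1 : y2 ∈ bh (S : Set (EuclideanSpace ℝ (Fin d))) 1 := fun c hc => hy2 c (hCA hc)
    have h2 := hy1 y2 h1
    rw [he, sub_add_cancel_left, norm_neg, norm_smul, hu, Real.norm_eq_abs, abs_of_nonneg hD0] at h2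
    linarith
  have hdiff : (y1 + u) - (y2 - u) = (2 - D) • u := by rw [he]; module
  have hdiff' : (y2 - u) - (y1 + u) = -((2 - D) • u) := by rw [he]; module
  have hdist : dist (y1 + u) (y2 - u) = 2 - D := by
    rw [dist_eq_norm, hdiff, norm_smul, hu, Real.norm_eq_abs, abs_of_nonneg (by linarith), mul_one]
  have hdist' : dist (y2 - u) (y1 + u) = 2 - D := by rw [dist_comm, hdist]
  have hne2 : (2 - D) ≠ 0 := by linarith
  have hu0 : u ≠ 0 := by intro h; rw [h, norm_zero] at hu; norm_num at hu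
  have hb0 : (2 - D)⁻¹ • ((y2 - u) - (y1 + u)) = -u := by
    rw [hdiff', smul_neg, smul_smul, inv_mul_cancel₀ hne2, one_smul]
  have hb1 : (2 - D)⁻¹ • ((y1 + u) - (y2 - u)) = u := by
    rw [hdiff, smul_smul, inv_mul_cancel₀ hne2, one_smul]
  have huu : inner ℝ u u = (1 : ℝ) := by rw [real_inner_self_eq_norm_sq, hu]; norm_num
  have hneq : y1 + u ≠ y2 - u := by
    intro h; rw [h, dist_self] at hdist; exact hne2 hdist.symm
  have hlen := hmin 2 ![y1 + u, y2 - u] ⟨le_rfl, by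
    have r0 : finRotate 2 0 = 1 := by decide
    have r1 : finRotate 2 1 = 0 := by decide
    have r2 : (finRotate 2).symm 0 = 1 := by decide
    have r3 : (finRotate 2).symm 1 = 0 := by decide
    rw [Fin.forall_fin_two, r0, r1, r2, r3]
    simp only [Matrix.cons_val_zero, Matrix.cons_val_one, hdist, hdist', hb0, hb1]
    refine ⟨⟨mem_frontier_of_ball _ _ y1 hq0 (fun z hz => ?_) (by simp [hu]), hneq, ?_, ?_⟩,
      ⟨mem_frontier_of_ball _ _ y2 hq1 (fun z hz => ?_) (by simp [hu]), hneq.symm, ?_, ?_⟩⟩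
    · rw [norm_sub_rev]; exact hy1 z hz
    · rw [← two_smul ℝ]; simpa using hu0
    · intro x hx
      have h1 := real_inner_le_norm u (x - y1)
      have h2 := hy1 x hx
      rw [norm_sub_rev] at h2
      rw [hu, one_mul] at h1
      have h3 : x - (y1 + u) = (x - y1) - u := by abel
      rw [h3, inner_add_left, inner_neg_left, inner_sub_right, huu]
      linarith
    · rw [norm_sub_rev]; exact hy2 z hz
    · rw [← two_smul ℝ]; simpa using hu0
    · intro x hx
      have h1 := real_inner_le_norm u (y2 - x)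
      have h2 := hy2 x hx
      rw [hu, one_mul] at h1
      have h3 : x - (y2 - u) = u - (y2 - x) := by abel
      rw [h3, inner_add_left, inner_sub_right, huu]
      linarith⟩
  have hlen2 : ∑ j : Fin 2, dist (![y1 + u, y2 - u] j) (![y1 + u, y2 - u] (finRotate 2 j)) = 4 - 2 * D := by
    have r0 : finRotate 2 0 = 1 := by decide
    have r1 : finRotate 2 1 = 0 := by decide
    rw [Fin.sum_univ_two, r0, r1]
    simp only [Matrix.cons_val_zero, Matrix.cons_val_one, hdist, hdist']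
    ring
  rw [hlen2] at hlen
  obtain ⟨k, rfl⟩ : ∃ k, n = k + 1 := ⟨n - 1, by omega⟩
  set P : ℕ → EuclideanSpace ℝ (Fin d) := fun i => p (Fin.ofNat (k + 1) i) with hP
  have hrot : ∀ i : ℕ, finRotate (k + 1) (Fin.ofNat (k + 1) i) = Fin.ofNat (k + 1) (i + 1) := by
    intro i
    rw [finRotate_apply]
    apply Fin.ext
    simp [Fin.val_add]
  have hrot' : ∀ i : ℕ, (finRotate (k + 1)).symm (Fin.ofNat (k + 1) (i + 1)) = Fin.ofNat (k + 1) i := by
    intro i; rw [← hrot, Equiv.symm_apply_apply]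
  have hper : ∀ i, P (i + (k + 1)) = P i := by
    intro i
    simp only [hP]
    congr 1
    apply Fin.ext
    simp
  have hne : ∀ i, P i ≠ P (i + 1) := by
    intro i
    have := (hp (Fin.ofNat (k + 1) i)).2.1
    rwa [hrot] at this
  have hbis : ∀ i : ℕ, (dist (P (i + 1 + 1)) (P (i + 1)))⁻¹ • (P (i + 1 + 1) - P (i + 1)) +
      (dist (P i) (P (i + 1)))⁻¹ • (P i - P (i + 1)) = dir P (i + 1) - dir P i := by
    intro i
    unfold dir
    rw [dist_eq_norm, dist_eq_norm, norm_sub_rev (P i), sub_eq_add_neg _ (_ • (P (i + 1) - P i)),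
      ← smul_neg, neg_sub]
  have hsup : ∀ i, dir P (i + 1) ≠ dir P i ∧ ∀ Z ∈ bh (S : Set (EuclideanSpace ℝ (Fin d))) 1,
      0 ≤ inner ℝ (dir P (i + 1) - dir P i) (Z - P (i + 1)) := by
    intro i
    have := (hp (Fin.ofNat (k + 1) (i + 1))).2.2
    rw [hrot, hrot'] at this
    rw [← hbis, ← sub_ne_zero, ← hbis]
    exact this
  have hL : len P (k + 1) ≤ 4 - 2 * D := by
    refine le_trans (le_of_eq ?_) hlen
    unfold len
    rw [Finset.sum_range]
    refine Finset.sum_congr rfl fun i _ => ?_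
    have e : Fin.ofNat (k + 1) (i : ℕ) = i := by
      apply Fin.ext; simp
    rw [dist_comm, dist_eq_norm]
    simp only [hP]
    rw [← hrot, e]
  have hT := t4_of P (k + 1) hper hne _ (bh (bh (S : Set (EuclideanSpace ℝ (Fin d))) 1) 1)
    (fun v hv => by simpa using touch _ hC 1 hA v hv) (fun i => (hsup i).2) _ hL
  exact caseA (dir P) (fun i => ‖P (i + 1) - P i‖) (k + 1) hn (fun i => dir_norm P i (hne i))
    (dir_per P _ hper) (fun i => (hsup i).1)
    (fun i => norm_pos_iff.mpr (sub_ne_zero.mpr (hne i).symm)) (dir_sum P _ hper hne) _ D hD hD1 hT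

end Pool.Agent.S07377
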