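import Pool.Statements.S07411
import Pool.Agent.H.MP_1a0ba0_co.Fin

set_option autoImplicit false
open Pool Pool.MP_1a0ba0_co

namespace Pool.Agent.S07411

theorem result :
    ∃ n : ℕ, 0 < n ∧ n < 12 ∧
      ∃ K : Fin n → Set (EuclideanSpace ℝ (Fin 3)),
        (∀ i, IsCompact (K i) ∧ Convex ℝ (K i) ∧ (interior (K i)).Nonempty) ∧
        (∀ i j, i ≠ j → Disjoint (interior (K i)) (interior (K j))) ∧
        ∀ i : Fin n, ∀ γ : unitInterval → EuclideanSpace ℝ (Fin 3) → EuclideanSpace ℝ (Fin 3),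
          (∀ t, Isometry (γ t)) →
          Continuous (fun p : unitInterval × EuclideanSpace ℝ (Fin 3) => γ p.1 p.2) →
          γ 0 = id →
          (∀ t, ∀ j, j ≠ i → Disjoint (interior (γ t '' K i)) (interior (K j))) →
          ∀ t, γ t '' K i = K i := by
  refine ⟨9, by norm_num, by norm_num, H.MP_1a0ba0_co.body, fun i => ⟨H.MP_1a0ba0_co.body_compact i,
    H.MP_1a0ba0_co.body_convex i, H.MP_1a0ba0_co.body_int i⟩,
    H.MP_1a0ba0_co.body_disj, ?_⟩
  intro i γ hi hc h0 hd t
  have hc' : Continuous (fun p : ℝ × EuclideanSpace ℝ (Fin 3) =>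
      γ (Set.projIcc 0 1 zero_le_one p.1) p.2) :=
    hc.comp (((continuous_projIcc (h := zero_le_one)).comp continuous_fst).prodMk continuous_snd)
  have h := H.MP_1a0ba0_co.path (fun p : Fin 4 × Bool × Bool =>
    H.MP_1a0ba0_co.vec (H.MP_1a0ba0_co.xt i p.1 p.2.1 p.2.2))
    (fun s => γ (Set.projIcc 0 1 zero_le_one s)) hc'
    (fun x => by
      have e : Set.projIcc (0:ℝ) 1 zero_le_one 0 = (0 : unitInterval) := Set.projIcc_left _
      rw [e, h0]; rfl)
    (fun s _ a b => H.MP_1a0ba0_co.rigid i (hi _) (hd _) (fun k s r => a (k, s, r)) b) t.1 t.2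
  have e : γ t = id := by
    funext x
    have := h x
    rwa [Set.projIcc_val] at this
  rw [e, Set.image_id]

end Pool.Agent.S07411
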