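import Pool.Statements.S07416
import Pool.Agent.H.MP_1a5e21_co.D

set_option autoImplicit false
open Pool Pool.MP_1a5e21_co

namespace Pool.Agent.S07416

theorem result :
    ¬ (∃ c : ℝ, 0 < c ∧ ∀ m w : ℕ, 1 ≤ w → w < m →
      (∃ σ : Equiv.Perm {s : Finset (Fin m) // s.card = w},
        ∀ s t : {s : Finset (Fin m) // s.card = w},
          Disjoint s.1 t.1 → ¬ Disjoint (σ s).1 (σ t).1) →
      c * (m : ℝ) ≤ (w : ℝ)) := by
  rintro ⟨c, hc, h⟩
  obtain ⟨r, hr⟩ := exists_nat_gt (1 / c + 2)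
  have c0 : 0 < 1 / c := by positivity
  have r2 : 2 ≤ r := by
    have : (2 : ℝ) ≤ r := by linarith
    exact_mod_cast this
  obtain ⟨w, hw, hσ⟩ := Pool.Agent.H.MP_1a5e21_co.main r r2
  have := h (r * w) w hw (by nlinarith) hσ
  have w0 : (0 : ℝ) < w := by exact_mod_cast hw
  have h1 : 1 < r * c := by rw [← div_lt_iff₀ hc]; linarith
  push_cast at this
  nlinarith

end Pool.Agent.S07416
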