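import Pool.Statements.S07442
import Pool.Agent.Lib.helper3.Girth

set_option autoImplicit false
open Pool Pool.MP_1b373f_co

namespace Pool.Agent.S07442
open SimpleGraph Finset

/-- A set of at most `g` edges of a graph of girth larger than `g` has at least as many end vertices
as edges. -/
theorem forest_card {V : Type} [Fintype V] [DecidableEq V] (T : SimpleGraph V) (g : ℕ)
    (hT : ∀ v (c : T.Walk v v), c.IsCycle → g < c.length) (F : Finset (Sym2 V))
    (hF : ∀ e ∈ F, e ∈ T.edgeSet) (hg : F.card ≤ g) (W : Finset V)
    (hW : ∀ e ∈ F, ∀ v ∈ e, v ∈ W) : F.card ≤ W.card := by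
  classical
  rcases F.eq_empty_or_nonempty with rfl | ⟨e0, he0⟩
  · simp
  have hne : Nonempty (W : Set V) := by
    induction e0 using Sym2.ind with
    | _ a b => exact ⟨⟨a, hW _ he0 a (by simp)⟩⟩
  let H : SimpleGraph V := fromEdgeSet (F : Set (Sym2 V))
  have hHT : H ≤ T := by
    intro a b hab
    rw [fromEdgeSet_adj] at hab
    exact hF _ hab.1
  have hH : H.IsAcyclic := by
    intro v c hc
    have h1 := hT v (c.mapLe hHT) (hc.mapLe hHT)
    have h2 : c.edges.length ≤ F.card := by
      rw [← List.toFinset_card_of_nodup hc.edges_nodup]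
      apply card_le_card
      intro e he
      have := c.edges_subset_edgeSet (List.mem_toFinset.mp he)
      rw [edgeSet_fromEdgeSet] at this
      exact this.1
    rw [Walk.length_edges] at h2
    simp only [Walk.mapLe, Walk.length_map] at h1
    omega
  have hH' := hH.induce (W : Set V)
  obtain ⟨S, hS, -, hSt⟩ :=
    (connected_top (V := (W : Set V))).exists_isTree_le_of_le_of_isAcyclic le_top hH'
  have h3 := hSt.card_edgeFinset
  have h4 : F ⊆ S.edgeFinset.image (Sym2.map Subtype.val) := by
    intro e he
    induction e using Sym2.ind with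
    | _ a b =>
      have ha : a ∈ W := hW _ he a (by simp)
      have hb : b ∈ W := hW _ he b (by simp)
      have hab : T.Adj a b := hF _ he
      refine mem_image.mpr ⟨s(⟨a, ha⟩, ⟨b, hb⟩), ?_, by simp⟩
      rw [mem_edgeFinset, mem_edgeSet]
      apply hS
      show H.Adj a b
      rw [fromEdgeSet_adj]
      exact ⟨he, hab.ne⟩
  have h5 := (card_le_card h4).trans card_image_le
  have h6 : Fintype.card (W : Set V) = W.card := by simp
  omega

theorem result :
    ¬ (∀ n : ℕ, 1 ≤ n → ∃ k : ℕ, ∀ (V : Type) [Fintype V] (G : SimpleGraph V),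
      (∀ v : V, (G.neighborSet v).ncard ≤ 2 ^ (n + 1) - 3) →
      ∃ c : V → ℕ,
        (∀ s : Finset V, G.IsNClique (n + 1) s →
          ∃ x ∈ s, ∃ y ∈ s, x ≠ y ∧ c x = c y) ∧
        ∀ i : ℕ, {v : V | c v = i}.ncard ≤ k) := by
  classical
  intro h
  obtain ⟨k, hk⟩ := h 5 (by norm_num)
  set N := 2 * (21 + 1) ^ (k + 1) with hN
  have hNpos : 0 < N := by positivity
  obtain ⟨T, hg, hD, hE⟩ := Lib.helper3.Girth.exists_girth_dense k 21 N le_rfl
  -- edges at a vertex
  let I : Fin N → Finset T.edgeSet := fun v => univ.filter fun e => v ∈ (e : Sym2 (Fin N))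
  have hI : ∀ v, (I v).card ≤ 21 := by
    intro v
    have h1 : (I v).card ≤ (T.incidenceFinset v).card := by
      apply card_le_card_of_injOn Subtype.val
      · intro e he
        simp only [I, coe_filter, mem_univ, true_and, Set.mem_ofPred_eq] at he
        simp only [mem_coe, mem_incidenceFinset]
        exact ⟨e.2, he⟩
      · exact Subtype.val_injective.injOn
    rw [card_incidenceFinset_eq_degree] at h1
    have h2 := hD v
    rw [← card_neighborSet_eq_degree] at h1
    rw [Set.ncard_eq_toFinset_card', Set.toFinset_card] at h2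
    exact h1.trans (by convert h2)
  obtain ⟨c, hc1, hc2⟩ := hk T.edgeSet T.lineGraph (by
    rintro ⟨e, he⟩
    induction e using Sym2.ind with
    | _ a b =>
      have : T.lineGraph.neighborSet ⟨s(a, b), he⟩ ⊆ ((I a ∪ I b : Finset T.edgeSet) : Set _) := by
        intro f hf
        rw [mem_neighborSet, lineGraph_adj_iff_exists] at hf
        obtain ⟨-, v, hv1, hv2⟩ := hf
        simp only [Sym2.mem_iff] at hv1
        simp only [I, coe_union, coe_filter, mem_univ, true_and, Set.mem_union, Set.mem_ofPred_eq]
        rcases hv1 with rfl | rfl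
        · exact Or.inl hv2
        · exact Or.inr hv2
      have h1 := Set.ncard_le_ncard this (Finset.finite_toSet _)
      rw [Set.ncard_coe_finset] at h1
      have h2 := card_union_le (I a) (I b)
      have := hI a
      have := hI b
      omega)
  -- at most five colours at a vertex
  have hcol : ∀ v, ((I v).image c).card ≤ 5 := by
    intro v
    by_contra hcon
    obtain ⟨t, ht, htc⟩ := exists_subset_card_eq (s := (I v).image c) (n := 6) (by omega)
    obtain ⟨s, hs, hinj, rfl⟩ := (subset_image_iff.mp ht).imp
      (fun s hs => hs) |> fun ⟨s, hs1, hs2⟩ => exists_subset_injOn_image_eq_of_surjOn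
        (f := c) (s := ((I v : Finset T.edgeSet) : Set T.edgeSet)) t (by
          intro x hx
          have := ht hx
          simpa using this)
    have hs6 : s.card = 6 := by rw [← card_image_of_injOn hinj]; exact htc
    obtain ⟨x, hx, y, hy, hxy, hcxy⟩ := hc1 s ⟨by
      intro x hx y hy hxy
      rw [lineGraph_adj_iff_exists]
      have h1 := hs hx
      have h2 := hs hy
      simp only [I, coe_filter, mem_univ, true_and, Set.mem_ofPred_eq] at h1 h2
      exact ⟨hxy, v, h1, h2⟩, hs6⟩
    exact hxy (hinj hx hy hcxy)
  -- double counting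
  let C : Finset ℕ := univ.image c
  let W : ℕ → Finset (Fin N) := fun i => univ.filter fun v => i ∈ (I v).image c
  have h1 : (univ : Finset T.edgeSet).card = ∑ i ∈ C, (univ.filter fun e => c e = i).card :=
    card_eq_sum_card_fiberwise (fun e _ => mem_coe.mpr (mem_image_of_mem c (mem_univ e)))
  have h2 : ∀ i ∈ C, (univ.filter fun e => c e = i).card ≤ (W i).card := by
    intro i _
    rw [← card_image_of_injective _ (Subtype.val_injective (p := fun e => e ∈ T.edgeSet))]
    apply forest_card T k hg
    · intro e he
      obtain ⟨f, -, rfl⟩ := mem_image.mp he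
      exact f.2
    · rw [card_image_of_injective _ Subtype.val_injective]
      have := hc2 i
      rw [Set.ncard_eq_toFinset_card'] at this
      convert this using 2
      ext e
      simp
    · intro e he v hv
      obtain ⟨f, hf, rfl⟩ := mem_image.mp he
      simp only [W, mem_filter, mem_univ, true_and] at hf ⊢
      exact mem_image.mpr ⟨f, by simp [I, hv], hf⟩
  have h3 : ∑ i ∈ C, (W i).card ≤ ∑ v : Fin N, ((I v).image c).card := by
    simp only [W, card_filter]
    rw [sum_comm]
    apply sum_le_sum
    intro v _
    rw [← card_filter]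
    apply card_le_card
    intro i hi
    exact (mem_filter.mp hi).2
  have h4 : ∑ v : Fin N, ((I v).image c).card ≤ 5 * N := by
    calc _ ≤ ∑ _v : Fin N, 5 := sum_le_sum fun v _ => hcol v
      _ = 5 * N := by simp [mul_comm]
  have h5 := sum_le_sum h2
  have h6 : T.edgeSet.ncard = (univ : Finset T.edgeSet).card := by
    rw [Set.ncard_eq_toFinset_card', Set.toFinset_card, card_univ]
  omega

end Pool.Agent.S07442
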