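import Pool.Statements.S07444
import Pool.Agent.H.MP_1b5659_co.Swap

set_option autoImplicit false
open Classical
open Pool Pool.MP_1b5659_co

namespace Pool.Agent.S07444

/-- The negation of the preceding statement: For d≥3, if G on n vertices is 3-connected and redundantly rigid in R^d, and H is any graph on n vertices whose measurement set equals that of G under some edge bijection, then G and H are isomorphic. -/
theorem result :
    ¬ (∀ (d : ℕ), 3 ≤ d → ∀ (n : ℕ) (G H : SimpleGraph (Fin n)),
      (3 < n ∧ ∀ S : Finset (Fin n), S.card ≤ 2 →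
          (G.induce {v : Fin n | v ∉ S}).Connected) →
      (∀ e : Sym2 (Fin n), e ∈ G.edgeSet → ∃ p : Fin n → Fin d → ℝ, ∀ q : Fin n → Fin d → ℝ,
          Matrix.rank (Matrix.of fun (a : Fin n × Fin n) (b : Fin n × Fin d) =>
              if a.1 ≠ a.2 then
                ((if b.1 = a.1 then (1 : ℝ) else 0) - (if b.1 = a.2 then (1 : ℝ) else 0))
                  * (q a.1 b.2 - q a.2 b.2)
              else (0 : ℝ)) ≤
          Matrix.rank (Matrix.of fun (a : Fin n × Fin n) (b : Fin n × Fin d) =>
              if G.Adj a.1 a.2 ∧ s(a.1, a.2) ≠ e then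
                ((if b.1 = a.1 then (1 : ℝ) else 0) - (if b.1 = a.2 then (1 : ℝ) else 0))
                  * (p a.1 b.2 - p a.2 b.2)
              else (0 : ℝ))) →
      ∀ σ : G.edgeSet ≃ H.edgeSet,
      (∀ x : H.edgeSet → ℂ,
        (∀ f : MvPolynomial H.edgeSet ℂ,
            (∀ (p : Fin n → Fin d → ℂ) (z : H.edgeSet → ℂ),
              (∀ (e : H.edgeSet) (u v : Fin n), s(u, v) = e.1 →
                  z e = ∑ k : Fin d, (p u k - p v k) ^ 2) →
              MvPolynomial.eval z f = 0) →
            MvPolynomial.eval x f = 0) ↔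
        (∀ f : MvPolynomial G.edgeSet ℂ,
            (∀ (p : Fin n → Fin d → ℂ) (z : G.edgeSet → ℂ),
              (∀ (e : G.edgeSet) (u v : Fin n), s(u, v) = e.1 →
                  z e = ∑ k : Fin d, (p u k - p v k) ^ 2) →
              MvPolynomial.eval z f = 0) →
            MvPolynomial.eval (fun e => x (σ e)) f = 0)) →
      Nonempty (G ≃g H)) := by
  intro h
  apply Pool.Agent.H.MP_1b5659_co.not_iso
  refine h 3 le_rfl 15 (Pool.Agent.H.MP_1b5659_co.Gr 2) (Pool.Agent.H.MP_1b5659_co.Gr 4)
    ⟨by norm_num, Pool.Agent.H.MP_1b5659_co.three_conn⟩ ?_ Pool.Agent.H.MP_1b5659_co.sigma ?_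
  · intro e _
    refine ⟨Pool.Agent.H.MP_1b5659_co.pr, fun q => ?_⟩
    have := @Pool.Agent.H.MP_1b5659_co.rank_le_rank 15 (by norm_num)
      (fun a => (Pool.Agent.H.MP_1b5659_co.Gr 2).Adj a.1 a.2 ∧ s(a.1, a.2) ≠ e)
      (fun a => a.1 ≠ a.2) (fun _ => Classical.propDecidable _) (fun _ => Classical.propDecidable _)
      Pool.Agent.H.MP_1b5659_co.pr q Pool.Agent.H.MP_1b5659_co.pin
      (fun u hu hp => Pool.Agent.H.MP_1b5659_co.rigid u
        (Pool.Agent.H.MP_1b5659_co.all_edges e u hu) hp)
    unfold Pool.Agent.H.MP_1b5659_co.RM at this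
    convert this
  · intro x
    simp only [Pool.Agent.H.MP_1b5659_co.spec_iff]
    constructor
    · intro hx f hf
      have := hx (MvPolynomial.rename Pool.Agent.H.MP_1b5659_co.sigma f) (by
        rintro p z rfl
        rw [MvPolynomial.eval_rename]
        exact Pool.Agent.H.MP_1b5659_co.closure_move 4 2 (Or.inr ⟨rfl, rfl⟩) f
          (fun q => hf q _ rfl) p)
      rwa [MvPolynomial.eval_rename] at this
    · intro hx g hg
      have := hx (MvPolynomial.rename Pool.Agent.H.MP_1b5659_co.sigma.symm g) (by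
        rintro p z rfl
        rw [MvPolynomial.eval_rename]
        exact Pool.Agent.H.MP_1b5659_co.closure_move 2 4 (Or.inl ⟨rfl, rfl⟩) g
          (fun q => hg q _ rfl) p)
      rw [MvPolynomial.eval_rename] at this
      rw [← this]
      congr 2
      funext e
      simp

end Pool.Agent.S07444
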