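import Pool.Statements.S07453
import Pool.Agent.H.MP_1bb742_co.A

set_option autoImplicit false
open Pool Pool.MP_1bb742_co

namespace Pool.Agent.S07453

theorem result :
    ∀ ε : ℝ, 0 < ε → ∀ δ : ℝ, 0 < δ → ∃ N : ℕ, ∀ n : ℕ, N ≤ n →
      ∀ G G' : SimpleGraph (Fin n),
        G.edgeSet.ncard = G'.edgeSet.ncard →
        ε * (n : ℝ) ^ 2 < (G.edgeSet.ncard : ℝ) →
        ∃ r : ℕ, (r : ℝ) ≤ δ * (n : ℝ) ∧
          ∃ c c' : Sym2 (Fin n) → Fin r,
            ∀ i : Fin r, ∃ σ : Equiv.Perm (Fin n),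
              Sym2.map σ '' {e | e ∈ G.edgeSet ∧ c e = i} =
                {e | e ∈ G'.edgeSet ∧ c' e = i} := by
  classical
  intro ε hε δ hδ
  have t : Filter.Tendsto (fun n : ℕ => ε * δ / 400 * (n.sqrt : ℝ)) Filter.atTop Filter.atTop :=
    (tendsto_natCast_atTop_atTop.comp (Filter.tendsto_atTop_atTop.2 fun b =>
      ⟨b * b, fun n h => Nat.le_sqrt.2 h⟩)).const_mul_atTop (by positivity)
  obtain ⟨N, hN⟩ := Filter.eventually_atTop.1 ((((Real.tendsto_pow_mul_exp_neg_atTop_nhds_zero 4).comp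
    t).eventually (gt_mem_nhds (show 0 < (ε * δ / 400) ^ 4 / 16 by positivity))).and
    ((t.eventually_ge_atTop δ).and ((tendsto_natCast_atTop_atTop (R := ℝ)).eventually_ge_atTop (8 / δ))))
  refine ⟨N, fun n hn G G' h1 h2 => ?_⟩
  obtain ⟨a1, a2, a3⟩ := hN n hn
  have b1 : ((n.sqrt * n.sqrt : ℕ) : ℝ) ≤ n := by exact_mod_cast Nat.sqrt_le n
  have b2 : (n : ℝ) < ((n.sqrt + 1) * (n.sqrt + 1) : ℕ) := by exact_mod_cast Nat.lt_succ_sqrt n
  simp only [Function.comp] at a1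
  generalize n.sqrt = D at *
  push_cast at b1 b2
  rw [div_le_iff₀ hδ] at a3
  have d0 : 400 ≤ ε * D := by nlinarith
  have d1 : (0 : ℝ) < D := pos_of_mul_pos_left (b := ε) (by nlinarith) hε.le
  have d2 : (1 : ℝ) ≤ D := by exact_mod_cast Nat.one_le_iff_ne_zero.2 (by rintro rfl; simp at d1)
  have b3 : (n : ℝ) ≤ 4 * D ^ 2 := by nlinarith
  have n0 : (1 : ℝ) ≤ n := by nlinarith
  rw [Set.ncard_eq_toFinset_card', Set.ncard_eq_toFinset_card'] at h1
  rw [Set.ncard_eq_toFinset_card'] at h2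
  have e1 : ε ≤ 1 := by
    have := (Finset.card_le_univ G.edgeSet.toFinset).trans
      (Fintype.card_le_of_surjective _ Sym2.mk_surjective)
    rw [Fintype.card_prod, Fintype.card_fin, ← sq] at this
    have : (G.edgeSet.toFinset.card : ℝ) ≤ n ^ 2 := by exact_mod_cast this
    nlinarith
  have k1 := Nat.floor_le (show 0 ≤ δ * n / 4 by positivity)
  have k2 := Nat.lt_floor_add_one (δ * n / 4)
  have u1 := Nat.floor_le (show 0 ≤ ε * n * D / 3 by positivity)
  have u2 := Nat.lt_floor_add_one (ε * n * D / 3)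
  generalize ⌊δ * n / 4⌋₊ = k at *
  generalize ⌊ε * n * D / 3⌋₊ = u at *
  have t1 : ε / (48 * D) * D = ε / 48 := by field_simp
  have t0 : 0 ≤ ε / (48 * D) := by positivity
  have t2 : ε / (48 * D) * n ≤ ε * D / 12 := by
    rw [div_mul_eq_mul_div, div_le_iff₀ (by positivity)]; nlinarith
  have h := Pool.Agent.H.MP_1bb742_co.main (V := Fin n) (θ := ε / (48 * D)) (D := D) (u := u) (k := k) t0
    (by nlinarith) (by rw [Fintype.card_fin]; nlinarith) (by
      rw [Fintype.card_fin]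
      have c1 : (1 - ε / (48 * D)) ^ k ≤ Real.exp (-(ε * δ / 400 * D)) := by
        refine (pow_le_pow_left₀ (by nlinarith) (Real.one_sub_le_exp_neg _) _).trans ?_
        rw [← Real.exp_nat_mul, Real.exp_le_exp, mul_neg, neg_le_neg_iff, mul_div_assoc', le_div_iff₀
          (by positivity)]
        nlinarith [mul_le_mul_of_nonneg_left b1 (mul_pos hε hδ).le,
          mul_le_mul_of_nonneg_left (show δ * n / 8 ≤ k by linarith) hε.le, mul_pos (mul_pos hε hδ) d1]
      have c2 : (n : ℝ) ^ 2 ≤ 16 * D ^ 4 := by nlinarith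
      rw [mul_pow, mul_assoc, div_eq_mul_one_div _ (16 : ℝ), mul_lt_mul_iff_right₀ (by positivity)] at a1
      nlinarith [mul_le_mul c1 c2 (by positivity) (by positivity)])
    (X := G.edgeSet.toFinset) (Y := G'.edgeSet.toFinset)
    (fun e he => G.not_isDiag_of_mem_edgeSet (Set.mem_toFinset.1 he))
    (fun e he => G'.not_isDiag_of_mem_edgeSet (Set.mem_toFinset.1 he)) h1 (by
      rw [Fintype.card_fin]
      have : ((D + 2 * n) * u : ℝ) ≤ D * G.edgeSet.toFinset.card := by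
        have c1 : (D + 2 * n : ℝ) ≤ 3 * n := by nlinarith
        nlinarith [mul_le_mul c1 u1 (by positivity) (by positivity), mul_le_mul_of_nonneg_left h2.le d1.le]
      exact_mod_cast this) (by exact_mod_cast d1)
  obtain ⟨c, σ, p1, p2⟩ := h
  have k0 : 0 < k + k + k + k := by
    have : (0 : ℝ) < k := by linarith
    have : 0 < k := by exact_mod_cast this
    omega
  have : Nonempty (Sym2 (Fin n)) := ⟨s(⟨0, by exact_mod_cast n0⟩, ⟨0, by exact_mod_cast n0⟩)⟩
  let f := Function.invFunOn (fun e => Sym2.map (σ (c e)) e) G.edgeSet.toFinset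
  have p3 := p2.invOn_invFunOn
  refine ⟨k + k + k + k, by push_cast; linarith, fun e => ⟨c e % _, Nat.mod_lt _ k0⟩,
    fun e => ⟨c (f e) % _, Nat.mod_lt _ k0⟩, fun i => ⟨σ i, Set.ext fun y => ⟨?_, fun ⟨q1, q2⟩ => ?_⟩⟩⟩
  · rintro ⟨x, ⟨q1, rfl⟩, rfl⟩
    have q2 := Set.mem_toFinset.2 q1
    simp only [Nat.mod_eq_of_lt (p1 x q2)]
    have q3 : f (Sym2.map (σ (c x)) x) = x := p3.1 q2
    exact ⟨Set.mem_toFinset.1 (p2.1 q2), Fin.ext (by
      rw [q3]; exact Nat.mod_eq_of_lt (p1 x q2))⟩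
  · have q3 := Set.mem_toFinset.2 q1
    have q4 : f y ∈ G.edgeSet.toFinset := p2.surjOn.mapsTo_invFunOn q3
    refine ⟨f y, ⟨Set.mem_toFinset.1 q4, q2⟩, ?_⟩
    rw [← q2]
    simp only [Nat.mod_eq_of_lt (p1 _ q4)]
    exact p3.2 q3

end Pool.Agent.S07453
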