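import Pool.Statements.S07499
import Pool.Agent.Lib.helper6.Dist

set_option autoImplicit false
open Pool Pool.MP_1d4c69_co

namespace Pool.Agent.S07499

/-- distance in the prism over the 9-cycle; vertex x is (x mod 9, x div 9) -/
def d (x y : Fin 18) : ℕ :=
  min ((x.val + 9 - y.val % 9) % 9) ((y.val + 9 - x.val % 9) % 9)
    + (if x.val / 9 = y.val / 9 then 0 else 1)

lemma dsymm : ∀ x y, d x y = d y x := by decide +kernel
lemma d0 : ∀ x, d x x = 0 := by decide +kernel

/-- the prism over the 9-cycle -/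
def G : SimpleGraph (Fin 18) where
  Adj a b := d a b = 1
  symm := ⟨fun a b h => by rw [dsymm]; exact h⟩
  loopless := ⟨fun a h => by rw [d0] at h; omega⟩

instance : DecidableRel G.Adj := fun a b => inferInstanceAs (Decidable (d a b = 1))

lemma hd (u v : Fin 18) : G.Reachable u v ∧ G.dist u v = d u v :=
  Pool.Agent.Lib.helper6.dist_eq_of_cert G d d0 (by decide +kernel) (by decide +kernel) u v

lemma close : ∀ a b : Fin 18, d a b ≤ 2 → ∃ v, d v a ≤ 1 ∧ d v b ≤ 1 := by decide +kernel

set_option synthInstance.maxSize 4096 in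
lemma four : ∀ a b : Fin 18, 3 ≤ d a b → ∀ c : Fin 18, 3 ≤ d a c → 3 ≤ d b c → ∀ e : Fin 18,
    3 ≤ d a e → 3 ≤ d b e → 3 ≤ d c e → ∃ v, ∃ r : Fin 3, 1 ≤ r.val + 1 ∧
      r.val + 1 < (({a, b, c, e} : Finset (Fin 18)).filter (fun u => d v u ≤ r.val + 1)).card := by
  decide +kernel

lemma ball : ∀ v : Fin 18, ∀ r : Fin 5, 1 ≤ r.val →
    (Finset.univ.filter (fun u => d u v ≤ r.val)).card ≤ 4 * r.val := by decide +kernel

theorem result :
    ∃ (V : Type) (_ : Fintype V) (G : SimpleGraph V),
      G.Connected ∧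
      (∃ M : Finset V, M.card = 3 ∧
        ∀ v : V, ∀ r : ℕ, 1 ≤ r → (M.filter (fun u => G.dist v u ≤ r)).card ≤ r) ∧
      (∀ M : Finset V,
        (∀ v : V, ∀ r : ℕ, 1 ≤ r → (M.filter (fun u => G.dist v u ≤ r)).card ≤ r) →
        M.card ≤ 3) ∧
      (∀ f : V → ℕ, (∀ u : V, ∃ v : V, 1 ≤ f v ∧ G.dist u v ≤ f v) →
        5 ≤ ∑ v, f v) := by
  have hd' : ∀ u v, G.dist u v = d u v := fun u v => (hd u v).2
  refine ⟨Fin 18, inferInstance, G, ⟨fun u v => (hd u v).1⟩, ?_, ?_, ?_⟩
  · refine ⟨{0, 11, 5}, by decide, ?_⟩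
    intro v r hr
    simp only [hd']
    by_cases h3 : 3 ≤ r
    · exact (Finset.card_filter_le _ _).trans (le_trans (by decide) h3)
    · have : ∀ v : Fin 18, ∀ r : Fin 3, 1 ≤ r.val →
        (({0, 11, 5} : Finset (Fin 18)).filter (fun u => d v u ≤ r.val)).card ≤ r.val := by
        decide +kernel
      exact this v ⟨r, by omega⟩ hr
  · intro M hM
    simp only [hd'] at hM
    by_contra hc
    obtain ⟨T, hT, hT4⟩ := Finset.exists_subset_card_eq (s := M) (n := 4) (by omega)
    obtain ⟨a, b, c, e, hab, hac, hae, hbc, hbe, hce, rfl⟩ := Finset.card_eq_four.1 hT4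
    have far : ∀ x ∈ M, ∀ y ∈ M, x ≠ y → 3 ≤ d x y := by
      intro x hx y hy hxy
      by_contra h
      obtain ⟨v, h1, h2⟩ := close x y (by omega)
      have h3 := hM v 1 le_rfl
      have h4 : ({x, y} : Finset (Fin 18)) ⊆ M.filter (fun u => d v u ≤ 1) := by
        intro z hz
        simp only [Finset.mem_insert, Finset.mem_singleton] at hz
        rcases hz with rfl | rfl <;> simp [*]
      have := Finset.card_le_card h4
      rw [Finset.card_pair hxy] at this
      omega
    have ha : a ∈ M := hT (by simp)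
    have hb : b ∈ M := hT (by simp)
    have hc' : c ∈ M := hT (by simp)
    have he : e ∈ M := hT (by simp)
    obtain ⟨v, r, h1, h2⟩ := four a b (far a ha b hb hab) c (far a ha c hc' hac)
      (far b hb c hc' hbc) e (far a ha e he hae) (far b hb e he hbe) (far c hc' e he hce)
    have h3 := hM v (r.val + 1) h1
    have h4 := Finset.card_le_card
      (Finset.filter_subset_filter (fun u => d v u ≤ r.val + 1) hT)
    omega
  · intro f hf
    simp only [hd'] at hf
    have hb : ∀ v, ((Finset.univ.filter (fun u => 1 ≤ f v ∧ d u v ≤ f v)).card) ≤ 4 * f v := by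
      intro v
      by_cases h1 : 1 ≤ f v
      · by_cases h5 : 5 ≤ f v
        · exact (Finset.card_filter_le _ _).trans (by simp; omega)
        · simp only [h1, true_and]
          exact ball v ⟨f v, by omega⟩ h1
      · simp [h1]
    have hsub : (Finset.univ : Finset (Fin 18)) ⊆ Finset.univ.biUnion
        (fun v => Finset.univ.filter (fun u => 1 ≤ f v ∧ d u v ≤ f v)) := by
      intro u _
      obtain ⟨v, hv⟩ := hf u
      simp only [Finset.mem_biUnion, Finset.mem_univ, true_and, Finset.mem_filter]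
      exact ⟨v, hv⟩
    have h1 := (Finset.card_le_card hsub).trans Finset.card_biUnion_le
    have h2 := Finset.sum_le_sum (s := Finset.univ) (fun v _ => hb v)
    rw [← Finset.mul_sum] at h2
    simp only [Finset.card_univ, Fintype.card_fin] at h1
    omega

end Pool.Agent.S07499
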