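import Pool.Statements.S07506

set_option autoImplicit false
open Pool Pool.MP_1d7c98_co

namespace Pool.Agent.S07506

open Finset

/-- a path of `N` cliques of order 12, consecutive ones joined by a matching with 7 edges -/
def Q (N : ℕ) : SimpleGraph (Fin N × Fin 12) where
  Adj x y := (x.1 = y.1 ∧ x.2 ≠ y.2) ∨
    ((x.1.val + 1 = y.1.val ∨ y.1.val + 1 = x.1.val) ∧ x.2 = y.2 ∧ x.2.val < 7)
  symm := ⟨by
    rintro x y (⟨h1, h2⟩ | ⟨h1, h2, h3⟩)
    · exact Or.inl ⟨h1.symm, h2.symm⟩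
    · exact Or.inr ⟨h1.symm, h2.symm, h2 ▸ h3⟩⟩
  loopless := ⟨by
    rintro x (⟨_, h2⟩ | ⟨h1, _⟩)
    · exact h2 rfl
    · omega⟩

instance (N : ℕ) : DecidableRel (Q N).Adj := fun x y =>
  inferInstanceAs (Decidable ((x.1 = y.1 ∧ x.2 ≠ y.2) ∨
    ((x.1.val + 1 = y.1.val ∨ y.1.val + 1 = x.1.val) ∧ x.2 = y.2 ∧ x.2.val < 7)))

lemma mono12 (c : Fin 12 → Fin 8) :
    8 ≤ (univ.filter (fun p : Fin 12 × Fin 12 => p.1 ≠ p.2 ∧ c p.1 = c p.2)).card := by
  have h1 : (univ.filter (fun p : Fin 12 × Fin 12 => c p.1 = c p.2)).card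
      = ∑ t : Fin 8, (univ.filter (fun a => c a = t)).card ^ 2 := by
    rw [card_eq_sum_card_fiberwise (t := univ) (f := fun p => c p.1) (fun _ _ => by simp)]
    refine sum_congr rfl fun t _ => ?_
    rw [sq, ← card_product]
    congr 1
    ext ⟨a, b⟩
    simp only [mem_filter, mem_univ, true_and, mem_product]
    exact ⟨fun h => ⟨h.2, h.1 ▸ h.2⟩, fun h => ⟨h.1.trans h.2.symm, h.1⟩⟩
  have h2 : ∑ t : Fin 8, (univ.filter (fun a => c a = t)).card = 12 := by
    rw [← card_eq_sum_card_fiberwise (s := univ) (t := univ) (f := c) (fun _ _ => by simp)]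
    simp
  have h3 : ∀ n : ℕ, 3 * n ≤ n ^ 2 + 2 := by
    intro n
    rcases n with _ | _ | n
    · simp
    · simp
    · nlinarith
  have h4 : ∑ t : Fin 8, 3 * (univ.filter (fun a => c a = t)).card
      ≤ ∑ t : Fin 8, ((univ.filter (fun a => c a = t)).card ^ 2 + 2) := sum_le_sum fun t _ => h3 _
  rw [← mul_sum, sum_add_distrib, h2, ← h1] at h4
  have h5 : univ.filter (fun p : Fin 12 × Fin 12 => c p.1 = c p.2) ⊆
      univ.filter (fun p : Fin 12 × Fin 12 => p.1 ≠ p.2 ∧ c p.1 = c p.2) ∪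
        (univ : Finset (Fin 12)).image (fun a => (a, a)) := by
    rintro ⟨a, b⟩ h
    simp only [mem_filter, mem_univ, true_and] at h
    by_cases hab : a = b
    · subst hab; simp
    · simp [hab, h]
  have h6 := (card_le_card h5).trans (card_union_le _ _)
  have h7 : ((univ : Finset (Fin 12)).image (fun a => (a, a))).card ≤ 12 :=
    card_image_le.trans (by simp)
  simp at h4
  omega

lemma mono (N : ℕ) (c : Fin N × Fin 12 → Fin 8) :
    8 * N ≤ (univ.filter (fun p : (Fin N × Fin 12) × (Fin N × Fin 12) =>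
      (Q N).Adj p.1 p.2 ∧ c p.1 = c p.2)).card := by
  rw [card_eq_sum_card_fiberwise (t := univ) (f := fun p => p.1.1) (fun _ _ => by simp)]
  have : ∑ _i : Fin N, 8 = 8 * N := by simp [mul_comm]
  rw [← this]
  refine sum_le_sum fun i _ => (mono12 (fun a => c (i, a))).trans ?_
  refine card_le_card_of_injOn (fun p => ((i, p.1), (i, p.2))) ?_ ?_
  · rintro ⟨a, b⟩ h
    simp only [coe_filter, mem_univ, true_and, Set.mem_ofPred_eq, mem_filter] at h ⊢
    exact ⟨⟨Or.inl ⟨rfl, h.1⟩, h.2⟩, trivial⟩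
  · rintro ⟨a, b⟩ _ ⟨a', b'⟩ _ h
    simp only [Prod.mk.injEq, true_and] at h
    exact Prod.ext h.1 h.2

lemma adj_le (N : ℕ) :
    (univ.filter (fun p : (Fin N × Fin 12) × (Fin N × Fin 12) => (Q N).Adj p.1 p.2)).card ≤ 146 * N := by
  rw [card_eq_sum_card_fiberwise (t := univ) (f := fun p => p.1) (fun _ _ => by simp)]
  have h1 : ∑ x : Fin N × Fin 12, (11 + if x.2.val < 7 then 2 else 0) = 146 * N := by
    rw [Fintype.sum_prod_type]
    have : ∑ a : Fin 12, (11 + if a.val < 7 then 2 else 0) = 146 := by decide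
    simp only [this]
    simp [mul_comm]
  rw [← h1]
  refine sum_le_sum fun x _ => ?_
  obtain ⟨i, a⟩ := x
  let f : (Fin N × Fin 12) × (Fin N × Fin 12) → ℕ × Fin 12 := fun p => (p.2.1.val, p.2.2)
  let T : Finset (ℕ × Fin 12) := ((univ.erase a).image (fun b => (i.val, b))) ∪
    (if a.val < 7 then {(i.val + 1, a), (i.val - 1, a)} else ∅)
  have hT : T.card ≤ 11 + if a.val < 7 then 2 else 0 := by
    refine (card_union_le _ _).trans (add_le_add (card_image_le.trans (by simp)) ?_)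
    split_ifs
    · exact card_le_two
    · simp
  refine le_trans (card_le_card_of_injOn f ?_ ?_) hT
  · rintro ⟨x, ⟨j, b⟩⟩ h
    simp only [coe_filter, mem_univ, true_and, Set.mem_ofPred_eq, mem_filter] at h
    obtain ⟨h1, rfl⟩ := h
    rcases h1 with ⟨h1, h2⟩ | ⟨h1, h2, h3⟩
    · simp only at h1 h2
      subst h1
      simp only [T, f, coe_union, Set.mem_union, mem_coe]
      exact Or.inl (mem_image.mpr ⟨b, by simp [h2.symm], rfl⟩)
    · simp only at h1 h2 h3
      subst h2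
      simp only [T, f, coe_union, Set.mem_union, mem_coe, if_pos h3, mem_insert, mem_singleton,
        Prod.mk.injEq, and_true]
      right
      omega
  · rintro ⟨x, ⟨j, b⟩⟩ h ⟨x', ⟨j', b'⟩⟩ h' hh
    simp only [coe_filter, mem_univ, true_and, Set.mem_ofPred_eq, mem_filter] at h h'
    simp only [f, Prod.mk.injEq] at hh
    rw [h.2, h'.2, Fin.ext hh.1, hh.2]

theorem result :
    ¬ (∀ k : ℕ, 2 ≤ k → ∃ C : ℝ, ∀ n : ℕ, ∀ G : SimpleGraph (Fin n),
      (∀ S : Finset (Fin n), S.card + 1 < k →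
          (G.induce ((S : Set (Fin n))ᶜ)).Connected) →
      ∃ c : Fin n → Fin k,
        ((k : ℝ) - 1) / k * (G.edgeSet.ncard : ℝ) + ((k : ℝ) - 1) / (2 * k) * (n : ℝ) - C
          ≤ ({p : Fin n × Fin n | G.Adj p.1 p.2 ∧ c p.1 ≠ c p.2}.ncard : ℝ) / 2) := by
  classical
  intro h
  obtain ⟨C, hC⟩ := h 8 (by norm_num)
  obtain ⟨N0, hN0⟩ := exists_nat_gt (8 * C)
  set N := N0 + 1 with hN
  let e : Fin N × Fin 12 ≃ Fin (N * 12) := finProdFinEquiv
  let G : SimpleGraph (Fin (N * 12)) := (Q N).comap e.symm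
  obtain ⟨c, hc⟩ := hC (N * 12) G (by
    intro S hS
    have h1 : (S.image (fun v => (e.symm v).2)).card < ((univ : Finset (Fin 12)).filter (fun a => a.val < 7)).card := by
      have : ((univ : Finset (Fin 12)).filter (fun a => a.val < 7)).card = 7 := by decide
      have := card_image_le (s := S) (f := fun v => (e.symm v).2)
      omega
    obtain ⟨a, ha, ha'⟩ := exists_mem_notMem_of_card_lt_card h1
    have ha7 : a.val < 7 := (mem_filter.mp ha).2
    have hS' : ∀ i : Fin N, e (i, a) ∈ ((S : Set (Fin (N * 12)))ᶜ) := by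
      intro i hi
      exact ha' (mem_image.mpr ⟨e (i, a), hi, by simp⟩)
    have hr : ∀ (j : ℕ) (hj : j < N), (G.induce ((S : Set (Fin (N * 12)))ᶜ)).Reachable
        ⟨e (⟨0, by omega⟩, a), hS' _⟩ ⟨e (⟨j, hj⟩, a), hS' _⟩ := by
      intro j
      induction j with
      | zero => intro _; rfl
      | succ j ih =>
        intro hj
        refine (ih (by omega)).trans (SimpleGraph.Adj.reachable ?_)
        show (Q N).Adj (e.symm (e _)) (e.symm (e _))
        rw [Equiv.symm_apply_apply, Equiv.symm_apply_apply]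
        exact Or.inr ⟨Or.inl rfl, rfl, ha7⟩
    have hall : ∀ x, (G.induce ((S : Set (Fin (N * 12)))ᶜ)).Reachable
        ⟨e (⟨0, by omega⟩, a), hS' _⟩ x := by
      rintro ⟨v, hv⟩
      obtain ⟨⟨i, b⟩, rfl⟩ := e.surjective v
      refine (hr i.val i.isLt).trans ?_
      by_cases hab : a = b
      · subst hab; rfl
      · refine SimpleGraph.Adj.reachable ?_
        show (Q N).Adj (e.symm (e _)) (e.symm (e _))
        rw [Equiv.symm_apply_apply, Equiv.symm_apply_apply]
        exact Or.inl ⟨rfl, hab⟩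
    have : Nonempty ((S : Set (Fin (N * 12)))ᶜ : Set _) := ⟨⟨_, hS' ⟨0, by omega⟩⟩⟩
    exact ⟨fun x y => (hall x).symm.trans (hall y)⟩)
  have hE : G.edgeSet.ncard = G.edgeFinset.card := by
    rw [← SimpleGraph.coe_edgeFinset, Set.ncard_coe_finset]
  have h2 := G.two_mul_card_edgeFinset
  have hA : (univ.filter (fun p : Fin (N * 12) × Fin (N * 12) => G.Adj p.1 p.2)).card
      = (univ.filter (fun p : (Fin N × Fin 12) × (Fin N × Fin 12) => (Q N).Adj p.1 p.2)).card := by
    apply card_equiv (e.symm.prodCongr e.symm)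
    intro p; simp [G]
  have hM : (univ.filter (fun p : Fin (N * 12) × Fin (N * 12) => G.Adj p.1 p.2 ∧ c p.1 = c p.2)).card
      = (univ.filter (fun p : (Fin N × Fin 12) × (Fin N × Fin 12) =>
          (Q N).Adj p.1 p.2 ∧ c (e p.1) = c (e p.2))).card := by
    apply card_equiv (e.symm.prodCongr e.symm)
    intro p; simp [G]
  have hcut : ({p : Fin (N * 12) × Fin (N * 12) | G.Adj p.1 p.2 ∧ c p.1 ≠ c p.2}).ncard
      = (univ.filter (fun p : Fin (N * 12) × Fin (N * 12) => G.Adj p.1 p.2 ∧ ¬ c p.1 = c p.2)).card := by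
    rw [← Set.ncard_coe_finset]
    congr 1
    ext p; simp
  have hsplit := card_filter_add_card_filter_not
    (s := univ.filter (fun p : Fin (N * 12) × Fin (N * 12) => G.Adj p.1 p.2)) (fun p => c p.1 = c p.2)
  rw [filter_filter, filter_filter] at hsplit
  have m1 := mono N (fun x => c (e x))
  have m2 := adj_le N
  have h2' : 2 * G.edgeFinset.card
      = (univ.filter (fun p : Fin (N * 12) × Fin (N * 12) => G.Adj p.1 p.2)).card := by
    rw [h2]
  rw [hE, hcut] at hc
  set m := G.edgeFinset.card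
  set x := (univ.filter (fun p : Fin (N * 12) × Fin (N * 12) => G.Adj p.1 p.2 ∧ ¬ c p.1 = c p.2)).card
  have a1 : x + 8 * N ≤ 2 * m := by omega
  have a2 : 2 * m ≤ 146 * N := by omega
  have b1 : (x : ℝ) + 8 * N ≤ 2 * m := by exact_mod_cast a1
  have b2 : 2 * (m : ℝ) ≤ 146 * N := by exact_mod_cast a2
  have b3 : (N : ℝ) = N0 + 1 := by simp [hN]
  push_cast at hc
  norm_num at hc
  linarith

end Pool.Agent.S07506
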