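import Pool.Statements.S07514
import Pool.Agent.H.MP_1dd9c6_co.Main

set_option autoImplicit false
open Pool Pool.MP_1dd9c6_co

namespace Pool.Agent.S07514

theorem result :
    ¬ (∀ (α : Type) (opts : α → Set α) (add : α → α → α) (N : α → Prop),
      (∀ g, (opts g).Finite) →
      WellFounded (fun a b : α => a ∈ opts b) →
      (∀ g h, opts (add g h) = (fun g' => add g' h) '' opts g ∪ (fun h' => add g h') '' opts h) →
      (∀ g, N g ↔ (opts g = ∅ ∨ ∃ g' ∈ opts g, ¬ N g')) →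
      (∃ g, (opts g).Nonempty) →
      ∀ E : α, (∀ Z, N (add (add E E) Z) ↔ N (add E Z)) →
        ∃ X : α, (∀ Z, N (add (add X E) Z) ↔ N (add X Z)) ∧
          (∃ Y : α, ∀ Z, N (add (add X Y) Z) ↔ N (add E Z)) ∧ ¬ N X) := by
  intro h
  have spec := Lib.helper11.Misere.Q_spec H.MP_1dd9c6_co.hL (by norm_num) H.MP_1dd9c6_co.c1
  obtain ⟨X, h1, ⟨Y, h2⟩, h3⟩ := h Lib.helper11.Misere.V
    (fun v => {u | Lib.helper11.Misere.Move H.MP_1dd9c6_co.L v u}) (fun v w => v + w)
    (fun v => ¬ Lib.helper11.Misere.Qb H.MP_1dd9c6_co.T 1 1 v = true)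
    (Lib.helper11.Misere.fin _) (Lib.helper11.Misere.wf H.MP_1dd9c6_co.hm)
    (by
      intro g k
      ext u
      simp only [Set.mem_ofPred_eq, Set.mem_union, Set.mem_image,
        Lib.helper11.Misere.move_add H.MP_1dd9c6_co.hL, eq_comm (a := u)])
    (by
      intro g
      rw [spec g]
      simp only [Set.eq_empty_iff_forall_notMem, Set.mem_ofPred_eq, not_not]
      constructor
      · intro h
        by_contra h'
        push Not at h'
        exact h ⟨h'.1, h'.2⟩
      · rintro (h | ⟨u, hu, hq⟩) ⟨⟨w, hw⟩, h'⟩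
        · exact h w hw
        · exact h' u hu hq)
    (by
      exact ⟨(1, 0, 0, 0, 0), (0, 0, 0, 0, 0), ((1, 0, 0, 0, 0), [(0, 0, 0, 0, 0)]),
        by simp [H.MP_1dd9c6_co.L, Lib.helper11.Misere.base], (0, 0, 0, 0, 0), by simp, 0, by simp,
        by simp⟩)
    (0, 0, 0, 0, 1) (fun z => by rw [H.MP_1dd9c6_co.idem])
  · have a1 := h2 (0, 0, 0, 1, 0)
    have a2 := h2 (1, 1, 0, 0, 0)
    rw [H.MP_1dd9c6_co.p1] at a1
    rw [H.MP_1dd9c6_co.p2] at a2
    have a3 := H.MP_1dd9c6_co.only (X + Y) (by simpa using a1) (by simpa using a2)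
    obtain ⟨a, b, c, d, n⟩ := X
    simp only [Prod.fst_add, Prod.snd_add] at a3
    obtain rfl : b = 0 := by omega
    obtain rfl : c = 0 := by omega
    obtain rfl : d = 0 := by omega
    have a4 := h1 0
    rw [add_zero, add_zero, H.MP_1dd9c6_co.notP] at a4
    exact h3 (a4.1 (by simp))

end Pool.Agent.S07514
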