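import Pool.Statements.S07518
import Pool.Agent.H.MP_1df3f9_co.A

set_option autoImplicit false
universe u
open Pool Pool.MP_1df3f9_co

namespace Pool.Agent.S07518

theorem result :
    ¬ (∀ (P : Type u) [PartialOrder P],
      (∀ A : Set P, IsAntichain (· ≤ ·) A → A.Finite) →
      ∃ C : Set P, IsChain (· ≤ ·) C ∧
        ∀ D : Set P, IsChain (· ≤ ·) D →
          Cardinal.mk ↥(D \ C) ≤ Cardinal.mk ↥(C \ D)) := by
  intro h
  obtain ⟨C, hC, hD⟩ := h H.MP_1df3f9_co.P.{u} H.MP_1df3f9_co.fac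
  exact H.MP_1df3f9_co.noSM C hC hD

end Pool.Agent.S07518
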