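import Pool.Statements.S07547

set_option autoImplicit false
open Pool Pool.MP_1ea79a_co

namespace Pool.Agent.S07547

open Classical in
/-- Increasing chain of finite sets closed step by step under the ring operations. -/
noncomputable def chain {K : Type} [Field K] (w : ℕ → K) : ℕ → Finset K
  | 0 => ∅
  | j + 1 => insert (w j) (chain w j ∪ Finset.image₂ (· + ·) (chain w j) (chain w j)
      ∪ Finset.image₂ (· - ·) (chain w j) (chain w j)
      ∪ Finset.image₂ (· * ·) (chain w j) (chain w j))

theorem chain_mono {K : Type} [Field K] (w : ℕ → K) : Monotone (chain w) := by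
  classical
  apply monotone_nat_of_le_succ
  intro j x hx
  simp only [chain, Finset.mem_insert, Finset.mem_union]
  exact Or.inr (Or.inl (Or.inl (Or.inl hx)))

theorem rankK (K : Type) [Field K] [Countable K] :
    ∃ r : K → ℕ, (∀ x y, r (x + y) ≤ max (r x) (r y) + 1) ∧
      (∀ x y, r (x - y) ≤ max (r x) (r y) + 1) ∧
      (∀ x y, r (x * y) ≤ max (r x) (r y) + 1) ∧ ∀ b, {x | r x ≤ b}.Finite := by
  classical
  obtain ⟨w, hw⟩ := exists_surjective_nat K
  have hex : ∀ x : K, ∃ j, x ∈ chain w j := by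
    intro x
    obtain ⟨j, rfl⟩ := hw x
    exact ⟨j + 1, by simp only [chain, Finset.mem_insert]; exact Or.inl trivial⟩
  have hle : ∀ x j, x ∈ chain w j → Nat.find (hex x) ≤ j := fun x j h => Nat.find_min' _ h
  have hmem : ∀ x j, Nat.find (hex x) ≤ j → x ∈ chain w j :=
    fun x j h => chain_mono w h (Nat.find_spec (hex x))
  refine ⟨fun x => Nat.find (hex x), ?_, ?_, ?_, ?_⟩
  · intro x y
    apply hle
    simp only [chain, Finset.mem_insert, Finset.mem_union]
    refine Or.inr (Or.inl (Or.inl (Or.inr ?_)))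
    exact Finset.mem_image₂_of_mem (hmem x _ (le_max_left _ _)) (hmem y _ (le_max_right _ _))
  · intro x y
    apply hle
    simp only [chain, Finset.mem_insert, Finset.mem_union]
    refine Or.inr (Or.inl (Or.inr ?_))
    exact Finset.mem_image₂_of_mem (hmem x _ (le_max_left _ _)) (hmem y _ (le_max_right _ _))
  · intro x y
    apply hle
    simp only [chain, Finset.mem_insert, Finset.mem_union]
    refine Or.inr (Or.inr ?_)
    exact Finset.mem_image₂_of_mem (hmem x _ (le_max_left _ _)) (hmem y _ (le_max_right _ _))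
  · intro b
    exact (chain w b).finite_toSet.subset (fun x hx => hmem x b hx)

theorem rankR (T : Set ℝ) (hT : T.Countable) :
    ∃ r : ℝ → ℕ, (∀ x y, r (x + y) ≤ max (r x) (r y) + 1) ∧
      (∀ x y, r (x - y) ≤ max (r x) (r y) + 1) ∧
      (∀ t ∈ T, ∀ y, r (t * y) ≤ max (r t) (r y) + 1) ∧ ∀ b, {x | x ∈ T ∧ r x ≤ b}.Finite := by
  classical
  let K : Subfield ℝ := Subfield.closure T
  have hK : Countable K := by
    rw [← Cardinal.mk_le_aleph0_iff]
    refine (Subfield.cardinalMk_closure_le_max T).trans (max_le ?_ le_rfl)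
    rw [Cardinal.mk_le_aleph0_iff]
    exact hT.to_subtype
  obtain ⟨r, h1, h2, h3, h4⟩ := rankK K
  obtain ⟨p, hp⟩ := LinearMap.exists_leftInverse_of_injective (Algebra.linearMap K ℝ)
    (LinearMap.ker_eq_bot.mpr (fun x y h => Subtype.ext h))
  have hp' : ∀ x : K, p (x : ℝ) = x := fun x => LinearMap.congr_fun hp x
  refine ⟨fun x => r (p x), ?_, ?_, ?_, ?_⟩
  · intro x y
    show r (p (x + y)) ≤ _
    rw [map_add]; exact h1 _ _
  · intro x y
    show r (p (x - y)) ≤ _
    rw [map_sub]; exact h2 _ _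
  · intro t ht y
    let t' : K := ⟨t, Subfield.subset_closure ht⟩
    have e1 : p (t * y) = t' * p y := by
      have : t * y = t' • y := rfl
      rw [this, map_smul, smul_eq_mul]
    have e2 : p t = t' := hp' t'
    show r (p (t * y)) ≤ max (r (p t)) (r (p y)) + 1
    rw [e1, e2]; exact h3 _ _
  · intro b
    refine ((h4 b).image (fun x : K => (x : ℝ))).subset ?_
    rintro x ⟨hx, hb⟩
    let t' : K := ⟨x, Subfield.subset_closure hx⟩
    refine ⟨t', ?_, rfl⟩
    have e2 : p x = t' := hp' t'
    show r t' ≤ b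
    rw [← e2]; exact hb

theorem rank_sum (r : ℝ → ℕ) (h1 : ∀ x y, r (x + y) ≤ max (r x) (r y) + 1) (R : ℕ)
    (h0 : r 0 ≤ R) {ι : Type} (s : Finset ι) (v : ι → ℝ) (hv : ∀ i ∈ s, r (v i) ≤ R) :
    r (∑ i ∈ s, v i) ≤ R + s.card := by
  classical
  induction s using Finset.induction_on with
  | empty => simpa using h0
  | insert a s ha ih =>
    rw [Finset.sum_insert ha, Finset.card_insert_of_notMem ha]
    have h2 := h1 (v a) (∑ i ∈ s, v i)
    have h3 := hv a (Finset.mem_insert_self _ _)
    have h4 := ih (fun i hi => hv i (Finset.mem_insert_of_mem hi))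
    omega

/-- Some point of an infinite set sees infinitely many distances. -/
theorem base {X : Type} {m : ℕ} (l : Fin m → X → ℝ) (N : X → X → ℝ)
    (hpos : ∀ x y, x ≠ y → 0 < N x y)
    (hatt : ∀ x y, ∃ i, |l i x - l i y| = N x y)
    (M : Set X) (hM : M.Infinite) : ∃ p ∈ M, ((fun x => N x p) '' M).Infinite := by
  classical
  by_contra hcon
  push Not at hcon
  have key : ∀ t : ℕ, ∃ (M' : Set X) (T : Finset (Fin m)), M' ⊆ M ∧ M'.Infinite ∧ T.card = t ∧
      ∀ i ∈ T, ∀ x ∈ M', ∀ y ∈ M', l i x = l i y := by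
    intro t
    induction t with
    | zero => exact ⟨M, ∅, subset_rfl, hM, rfl, by simp⟩
    | succ t ih =>
      obtain ⟨M', T, hs, hi, hc, hT⟩ := ih
      obtain ⟨p, hp⟩ := hi.nonempty
      have hfin : ((fun x => N x p) '' M).Finite := hcon p (hs hp)
      choose g hg using fun x => hatt x p
      let D : Set ℝ := ((fun x => N x p) '' M) ∪ (fun z => -z) '' ((fun x => N x p) '' M)
      have hD : D.Finite := hfin.union (hfin.image _)
      let F : X → Fin m × ℝ := fun x => (g x, l (g x) x - l (g x) p)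
      have hmaps : F '' (M' \ {p}) ⊆ (Set.univ : Set (Fin m)) ×ˢ D := by
        rintro _ ⟨x, hx, rfl⟩
        refine ⟨trivial, ?_⟩
        show l (g x) x - l (g x) p ∈ D
        have hxM : x ∈ M := hs hx.1
        rcases abs_cases (l (g x) x - l (g x) p) with h | h
        · left; exact ⟨x, hxM, by show N x p = _; rw [← hg x]; exact h.1⟩
        · right; refine ⟨N x p, ⟨x, hxM, rfl⟩, ?_⟩
          show -N x p = _
          rw [← hg x, h.1, neg_neg]
      have hfin2 : (F '' (M' \ {p})).Finite := (Set.finite_univ.prod hD).subset hmaps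
      have hinf : (M' \ {p}).Infinite := hi.sdiff (Set.finite_singleton p)
      have : ∃ z, ((M' \ {p}) ∩ F ⁻¹' {z}).Infinite := by
        by_contra hc2
        push Not at hc2
        exact hinf (Set.Finite.of_finite_fibers F hfin2 (fun z _ => hc2 z))
      obtain ⟨⟨i, e⟩, hz⟩ := this
      have hmem : ∀ x ∈ (M' \ {p}) ∩ F ⁻¹' {(i, e)}, l i x - l i p = e ∧ e ≠ 0 := by
        intro x hx
        have h1 : F x = (i, e) := hx.2
        have h2 : g x = i := congrArg Prod.fst h1
        have h3 : l (g x) x - l (g x) p = e := congrArg Prod.snd h1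
        have h4 := hg x
        have h5 := hpos x p hx.1.2
        rw [h3] at h4
        rw [h2] at h3
        refine ⟨h3, ?_⟩
        rintro rfl
        rw [abs_zero] at h4
        linarith
      obtain ⟨x0, hx0⟩ := hz.nonempty
      have hiT : i ∉ T := by
        intro hiT
        have h1 := hT i hiT x0 hx0.1.1 p hp
        have h2 := hmem x0 hx0
        apply h2.2
        rw [← h2.1, h1, sub_self]
      refine ⟨_, insert i T, fun x hx => hs hx.1.1, hz, by rw [Finset.card_insert_of_notMem hiT, hc], ?_⟩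
      intro j hj x hx y hy
      rcases Finset.mem_insert.mp hj with rfl | hj
      · have h1 := (hmem x hx).1
        have h2 := (hmem y hy).1
        linarith
      · exact hT j hj x hx.1.1 y hy.1.1
  obtain ⟨_, T, -, -, hc, -⟩ := key (m + 1)
  have := Finset.card_le_univ T
  rw [Fintype.card_fin] at this
  omega

theorem dep {n m : ℕ} (a : Fin m → Fin n → ℝ) (u : Fin (n + 1) → Fin m) :
    ∃ lam : Fin (n + 1) → ℝ, (∃ t, lam t ≠ 0) ∧
      ∀ x : Fin n → ℝ, ∑ t, lam t * ∑ j, a (u t) j * x j = 0 := by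
  have h : ¬ LinearIndependent ℝ (fun t => a (u t)) := by
    intro h
    have := h.fintype_card_le_finrank
    simp at this
  obtain ⟨g, hg, hne⟩ := Fintype.not_linearIndependent_iff.mp h
  refine ⟨g, hne, fun x => ?_⟩
  have h2 : ∀ j, ∑ t, g t * a (u t) j = 0 := by
    intro j
    have := congrFun hg j
    simpa [Finset.sum_apply] using this
  simp only [Finset.mul_sum]
  rw [Finset.sum_comm]
  apply Finset.sum_eq_zero
  intro j _
  have : ∑ t, g t * (a (u t) j * x j) = (∑ t, g t * a (u t) j) * x j := by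
    rw [Finset.sum_mul]; exact Finset.sum_congr rfl (fun t _ => by ring)
  rw [this, h2, zero_mul]

/-- For every polyhedral norm N(x)=max_i ∣a_i·x∣ on R^n and every infinite set M in R^n, R^n can be coloured with n+1 colours so that no N-distance-preserving image of M is monochromatic. -/
theorem result :
    ∀ (n m : ℕ) (a : Fin m → Fin n → ℝ),
      (∀ x : Fin n → ℝ, x ≠ 0 → 0 < ⨆ i, |∑ j, a i j * x j|) →
      ∀ M : Set (Fin n → ℝ), M.Infinite →
        ∃ c : (Fin n → ℝ) → Fin (n + 1),
          ∀ f : (Fin n → ℝ) → (Fin n → ℝ),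
            (∀ x ∈ M, ∀ y ∈ M,
              (⨆ i, |∑ j, a i j * (f x j - f y j)|) =
                ⨆ i, |∑ j, a i j * (x j - y j)|) →
            ¬ ∃ k : Fin (n + 1), ∀ x ∈ M, c (f x) = k := by
  classical
  intro n m a hpos M hM
  let l : Fin m → (Fin n → ℝ) → ℝ := fun i x => ∑ j, a i j * x j
  let N : (Fin n → ℝ) → (Fin n → ℝ) → ℝ := fun x y => ⨆ i, |∑ j, a i j * (x j - y j)|
  have hne : Nonempty (Fin m) := by
    by_contra hc
    rw [not_nonempty_iff] at hc
    obtain ⟨x, -, hx⟩ := (hM.sdiff (Set.finite_singleton 0)).nonempty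
    have := hpos x hx
    simp at this
  have hsub : ∀ i x y, ∑ j, a i j * (x j - y j) = l i x - l i y := by
    intro i x y
    simp only [l, mul_sub, Finset.sum_sub_distrib]
  have hatt : ∀ x y, ∃ i, |l i x - l i y| = N x y := by
    intro x y
    obtain ⟨i, hi⟩ := exists_eq_ciSup_of_finite (f := fun i => |∑ j, a i j * (x j - y j)|)
    exact ⟨i, by rw [← hsub]; exact hi⟩
  have hpos' : ∀ x y, x ≠ y → 0 < N x y := fun x y h => hpos (x - y) (sub_ne_zero.mpr h)
  obtain ⟨p, hp, hD⟩ := base l N hpos' hatt M hM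
  choose lam hlam1 hlam2 using dep a
  let L : Set ℝ := Set.range (fun q : (Fin (n + 1) → Fin m) × Fin (n + 1) × Fin (n + 1) =>
    -(lam q.1 q.2.1 / lam q.1 q.2.2))
  have hL : L.Finite := Set.finite_range _
  let e := hD.natEmbedding
  let D : Set ℝ := Set.range (fun j => (e j : ℝ))
  have hDinf : D.Infinite := Set.infinite_range_of_injective
    (fun i j h => e.injective (Subtype.ext h))
  obtain ⟨r, h1, h2, h3, h4⟩ := rankR (L ∪ D) (hL.countable.union (Set.countable_range _))
  obtain ⟨B, hB⟩ := ((hL.insert 0).image r).bddAbove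
  have hB0 : r 0 ≤ B := hB ⟨0, Set.mem_insert _ _, rfl⟩
  have hBL : ∀ t ∈ L, r t ≤ B := fun t ht => hB ⟨t, Set.mem_insert_of_mem _ ht, rfl⟩
  have hbig : ∀ b, ∃ x ∈ M, b < r (N x p) := by
    intro b
    obtain ⟨d, hd, hd2⟩ := (hDinf.sdiff (h4 b)).nonempty
    obtain ⟨j, rfl⟩ := hd
    obtain ⟨x, hx, hx2⟩ := (e j).2
    refine ⟨x, hx, ?_⟩
    by_contra hc
    apply hd2
    refine ⟨Or.inr ⟨j, rfl⟩, ?_⟩
    show r (e j : ℝ) ≤ b
    rw [← hx2]
    exact not_lt.mp hc
  choose nx hnx1 hnx2 using hbig
  let G := n + 6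
  let s : ℕ → ℕ := fun j => Nat.rec (r (N (nx (B + G)) p)) (fun _ v => r (N (nx (v + G)) p)) j
  have hs0 : B + G < s 0 := hnx2 _
  have hs1 : ∀ j, s j + G < s (j + 1) := fun j => hnx2 _
  have hs2 : ∀ j, ∃ x ∈ M, r (N x p) = s j := by
    intro j
    cases j with
    | zero => exact ⟨_, hnx1 _, rfl⟩
    | succ j => exact ⟨_, hnx1 _, rfl⟩
  have hmono : StrictMono s := strictMono_nat_of_lt_succ (fun j => by have := hs1 j; omega)
  have hs3 : ∀ i j, i < j → s i + G < s j := by
    intro i j hij
    have h5 := hs1 i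
    have h6 := hmono.monotone (show i + 1 ≤ j from hij)
    omega
  have hs4 : ∀ j, B + G < s j := fun j => lt_of_lt_of_le hs0 (hmono.monotone (Nat.zero_le j))
  have hcol : ∀ x : Fin n → ℝ, ∃ k : Fin (n + 1), ∀ j, j % (n + 1) = k → ∀ i,
      ¬ (r (l i x) ≤ s j + 1 ∧ s j ≤ r (l i x) + 1) := by
    intro x
    by_contra hc
    push Not at hc
    choose J hJ u hu1 hu2 using hc
    have hJinj : ∀ t t', J t = J t' → t = t' := by
      intro t t' h
      apply Fin.ext
      rw [← hJ t, ← hJ t', h]
    obtain ⟨t0, ht0, hmax⟩ := Finset.exists_max_image (Finset.univ.filter (fun t => lam u t ≠ 0)) J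
      (by obtain ⟨t, ht⟩ := hlam1 u; exact ⟨t, by simpa using ht⟩)
    have ht0' : lam u t0 ≠ 0 := by simpa using ht0
    have hsum := hlam2 u x
    rw [← Finset.add_sum_erase _ _ (Finset.mem_univ t0)] at hsum
    have heq : l (u t0) x = ∑ t ∈ Finset.univ.erase t0, -(lam u t / lam u t0) * l (u t) x := by
      have : ∑ t ∈ Finset.univ.erase t0, -(lam u t / lam u t0) * l (u t) x
          = -(lam u t0)⁻¹ * ∑ t ∈ Finset.univ.erase t0, lam u t * l (u t) x := by
        rw [Finset.mul_sum]
        exact Finset.sum_congr rfl (fun t _ => by rw [div_eq_mul_inv]; ring)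
      rw [this]
      have h7 : ∑ t ∈ Finset.univ.erase t0, lam u t * l (u t) x = -(lam u t0 * l (u t0) x) := by
        simp only [l]; linarith
      rw [h7]
      field_simp
    have hbound := rank_sum r h1 (s (J t0) - G + 2) (by have := hs4 (J t0); omega)
      (Finset.univ.erase t0) (fun t => -(lam u t / lam u t0) * l (u t) x) (by
        intro t ht
        have htne : t ≠ t0 := (Finset.mem_erase.mp ht).1
        by_cases hz : lam u t = 0
        · simp only [hz, zero_div, neg_zero, zero_mul]
          have := hs4 (J t0); omega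
        · have hmem : -(lam u t / lam u t0) ∈ L := ⟨(u, t, t0), rfl⟩
          have h8 := h3 _ (Or.inl hmem) (l (u t) x)
          have h9 := hBL _ hmem
          have h10 : J t ≤ J t0 := hmax t (by simpa using hz)
          have h11 : J t < J t0 := lt_of_le_of_ne h10 (fun h => htne (hJinj _ _ h))
          have h12 := hs3 _ _ h11
          have h13 := hu1 t
          have h14 := hs4 (J t0)
          omega)
    rw [← heq, Finset.card_erase_of_mem (Finset.mem_univ _), Finset.card_univ,
      Fintype.card_fin] at hbound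
    have h15 := hu2 t0
    have h16 := hs4 (J t0)
    omega
  choose c hc using hcol
  refine ⟨c, ?_⟩
  rintro f hf ⟨k, hk⟩
  obtain ⟨Q, hQ⟩ := (Set.finite_range (fun i => r (l i (f p)))).bddAbove
  have hQ' : ∀ i, r (l i (f p)) ≤ Q := fun i => hQ ⟨i, rfl⟩
  let j := k.val + (n + 1) * (Q + 2)
  have hj : j % (n + 1) = k.val := by
    show (k.val + (n + 1) * (Q + 2)) % (n + 1) = k.val
    rw [Nat.add_mul_mod_self_left, Nat.mod_eq_of_lt k.2]
  have hj2 : Q + 2 ≤ s j := by
    have h5 : j ≤ s j := hmono.id_le j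
    have h6 : Q + 2 ≤ j := by
      show Q + 2 ≤ k.val + (n + 1) * (Q + 2)
      nlinarith [Nat.zero_le (n * (Q + 2)), Nat.zero_le k.val]
    omega
  obtain ⟨x, hx, hxr⟩ := hs2 j
  obtain ⟨i, hi⟩ := hatt (f x) (f p)
  have hN : N (f x) (f p) = N x p := hf x hx p hp
  rw [hN] at hi
  have hq := hQ' i
  apply hc (f x) j (by rw [hk x hx]; exact hj) i
  rcases abs_cases (l i (f x) - l i (f p)) with h | h
  · have e1 : l i (f x) = l i (f p) + N x p := by linarith [h.1]
    have e2 : N x p = l i (f x) - l i (f p) := by linarith [h.1]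
    have a1 := h1 (l i (f p)) (N x p)
    have a2 := h2 (l i (f x)) (l i (f p))
    rw [← e1] at a1
    rw [← e2] at a2
    omega
  · have e1 : l i (f x) = l i (f p) - N x p := by linarith [h.1]
    have e2 : N x p = l i (f p) - l i (f x) := by linarith [h.1]
    have a1 := h2 (l i (f p)) (N x p)
    have a2 := h2 (l i (f p)) (l i (f x))
    rw [← e1] at a1
    rw [← e2] at a2
    omega

end Pool.Agent.S07547
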