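import Pool.Statements.S07556
import Pool.Agent.H.MP_1f0029_co.D

set_option autoImplicit false
open Pool Pool.MP_1f0029_co

namespace Pool.Agent.S07556

theorem result :
    ¬ (∀ n k : ℕ,
      (∃ G : SimpleGraph (Fin n),
          {s : Finset (Fin n) | G.IsClique (s : Set (Fin n))}.ncard = k) →
      ∃ (P : Type) (_ : Fintype P) (_ : PartialOrder P),
          Fintype.card P = n ∧
          {s : Finset P | IsAntichain (· ≤ ·) (s : Set P)}.ncard = k) := by
  classical
  intro h
  obtain ⟨P, i1, i2, hP, hk⟩ := h 7003 H.MP_1f0029_co.P5 ⟨H.MP_1f0029_co.exGᶜ, by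
    rw [← H.MP_1f0029_co.ex_ind]
    apply H.MP_1f0029_co.ncard_eq
    intro s
    constructor
    · intro h x hx y hy hxy
      exact (h hx hy hxy.ne).2 hxy
    · intro h x hx y hy hxy
      exact ⟨hxy, h x hx y hy⟩⟩
  apply H.MP_1f0029_co.no_good (H.MP_1f0029_co.comp_good P) hP
  rw [← hk]
  symm
  apply H.MP_1f0029_co.ncard_eq
  intro s
  constructor
  · rintro h x hx y hy (hxy | hxy)
    · exact h hx hy hxy.ne hxy.le
    · exact h hy hx hxy.ne hxy.le
  · intro h x hx y hy hxy hle
    exact h x hx y hy (Or.inl (lt_of_le_of_ne hle hxy))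

end Pool.Agent.S07556
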