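import Pool.Statements.S07559
import Pool.Agent.H.MP_1f0ce0_co.M

set_option autoImplicit false
open Pool Pool.MP_1f0ce0_co

namespace Pool.Agent.S07559
open Pool.Agent.H.MP_1f0ce0_co

/-- There is c>0 such that for every finite field of order q and every k with c log q ≤ k ≤ q+1−c log q, every size 0..q²+q+1 is the size of a point set in PG(2,q) that no line meets in exactly k points. -/
theorem result :
    ∃ c : ℝ, 0 < c ∧ ∀ (F : Type) [Field F] [Fintype F] (k : ℕ),
      c * Real.log ((Fintype.card F : ℕ) : ℝ) ≤ (k : ℝ) →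
      (k : ℝ) ≤ ((Fintype.card F : ℕ) : ℝ) + 1 - c * Real.log ((Fintype.card F : ℕ) : ℝ) →
      ∀ n : ℕ, n ≤ Fintype.card F ^ 2 + Fintype.card F + 1 →
        ∃ S : Set (Projectivization F (Fin 3 → F)), S.ncard = n ∧
          ∀ ℓ : Projectivization F (Fin 3 → F),
            {p : Projectivization F (Fin 3 → F) |
              p ∈ S ∧ ∑ i, p.rep i * ℓ.rep i = 0}.ncard ≠ k := by
  refine ⟨10 ^ 111, by positivity, fun F _ _ k h1 h2 n hn => ?_⟩
  have q2 : (2 : ℝ) ≤ Fintype.card F := by exact_mod_cast Fintype.one_lt_card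
  have l1 := Real.log_le_log (by norm_num) q2
  have l2 := Real.log_two_gt_d9
  obtain ⟨S, a, b⟩ := bridge (main (F := F) (k := k) (n := n)
    (by
      have : (10 ^ 110 : ℝ) ≤ Fintype.card F := by linarith
      exact_mod_cast this)
    (by
      have : (7057 : ℝ) ≤ k := by linarith
      exact_mod_cast this)
    (by
      have : (k + 7057 : ℝ) ≤ Fintype.card F + 1 := by linarith
      exact_mod_cast this) hn)
  exact ⟨S, a, fun l => b l.rep l.rep_nonzero⟩

end Pool.Agent.S07559
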