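import Pool.Statements.S07574

set_option autoImplicit false
open Pool Pool.MP_1f8616_co

namespace Pool.Agent.S07574

theorem fin (C : Set (Σ n : ℕ, Fin n)) (h : IsChain (· ≤ ·) C) : C.Finite := by
  rcases C.eq_empty_or_nonempty with rfl | ⟨⟨n, a⟩, ha⟩
  · exact Set.finite_empty
  · refine (Set.finite_range (fun b : Fin n => (⟨n, b⟩ : Σ n : ℕ, Fin n))).subset ?_
    rintro ⟨m, b⟩ hb
    obtain rfl : n = m := (h.total ha hb).elim (fun h => (Sigma.le_def.1 h).1)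
      fun h => (Sigma.le_def.1 h).1.symm
    exact ⟨b, rfl⟩

theorem result :
    ¬ (∀ (α : Type) [PartialOrder α] [Countable α],
    (¬ ∃ C : Set α, IsChain (· ≤ ·) C ∧
        (∀ x, x ∉ C → ∀ y ∈ C, ∀ z ∈ C, y < x → x < z → ¬ IsChain (· ≤ ·) (insert x C)) ∧
        ∃ f : α → ℕ,
          ((∀ x ∈ C, ∀ y ∈ C, x ≤ y → f x ≤ f y) ∧
            ∀ i : ℕ, Set.Infinite {x | x ∈ C ∧ f x = i} ∧
              ¬ ∃ s : ℕ → α, StrictMono s ∧ ∀ n, s n ∈ C ∧ f (s n) = i) ∨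
          ((∀ x ∈ C, ∀ y ∈ C, x ≤ y → f y ≤ f x) ∧
            ∀ i : ℕ, Set.Infinite {x | x ∈ C ∧ f x = i} ∧
              ¬ ∃ s : ℕ → α, StrictAnti s ∧ ∀ n, s n ∈ C ∧ f (s n) = i)) →
    ∀ k : ℕ, 2 ≤ k →
      ∃ C : Fin k → Set α, (∀ j, IsChain (· ≤ ·) (C j)) ∧
        Pairwise (fun i j => Disjoint (C i) (C j)) ∧
        ∃ g : α → ℕ, ∀ i : ℕ, IsAntichain (· ≤ ·) {x | g x = i} ∧
          min (Set.encard {x | g x = i}) (k : ℕ∞) ≤
            Set.encard {j : Fin k | (C j ∩ {x | g x = i}).Nonempty}) := by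
  intro H
  obtain ⟨C, h1, -, g, h2⟩ := H (Σ n : ℕ, Fin n) (by
    rintro ⟨C, hC, -, f, ⟨-, h⟩ | ⟨-, h⟩⟩ <;>
      exact (h 0).1 ((fin C hC).subset fun x hx => hx.1)) 2 le_rfl
  have hf : (g '' ⋃ j, C j).Finite := (Set.finite_iUnion fun j => fin _ (h1 j)).image g
  let n := hf.toFinset.card + 1
  have h3 : ∀ a : Fin n, g ⟨n, a⟩ ∈ hf.toFinset := fun a => by
    have h4 : (1 : ℕ∞) ≤ Set.encard {x | g x = g ⟨n, a⟩} :=
      Set.one_le_encard_iff_nonempty.2 ⟨⟨n, a⟩, rfl⟩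
    obtain ⟨j, x, hx, e⟩ := Set.one_le_encard_iff_nonempty.1
      ((le_min h4 (by norm_num)).trans (h2 (g ⟨n, a⟩)).2)
    exact hf.mem_toFinset.2 ⟨x, Set.mem_iUnion.2 ⟨j, hx⟩, e⟩
  have h5 := Finset.card_le_card_of_injOn (s := Finset.univ) (fun a : Fin n => g ⟨n, a⟩)
    (fun a _ => h3 a) (fun a _ b _ e => by
      by_contra hne
      have hn : (⟨n, a⟩ : Σ n : ℕ, Fin n) ≠ ⟨n, b⟩ := by simpa using hne
      rcases le_total a b with h | h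
      · exact (h2 (g ⟨n, b⟩)).1 e rfl hn (Sigma.mk_le_mk_iff.2 h)
      · exact (h2 (g ⟨n, b⟩)).1 rfl e hn.symm (Sigma.mk_le_mk_iff.2 h))
  simp [n] at h5

end Pool.Agent.S07574
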