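import Pool.Statements.S07591
import Pool.Agent.H.MP_1ff796_co.Final4

set_option autoImplicit false
open Pool Pool.MP_1ff796_co

namespace Pool.Agent.S07591

theorem result :
    ∀ η : ℝ, η > 0 → ∃ n₀ : ℕ, ∀ n : ℕ, n₀ ≤ n → 4 ∣ n →
      ∀ G : Digraph (Fin n),
        (∀ v : Fin n,
          ((1 / 2 + η) * (n : ℝ) ≤ (({w : Fin n | w ≠ v ∧ G.Adj v w}.ncard : ℕ) : ℝ)) ∧
          ((1 / 2 + η) * (n : ℝ) ≤ (({w : Fin n | w ≠ v ∧ G.Adj w v}.ncard : ℕ) : ℝ))) →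
        ∃ f : Fin (n / 4) × Fin 4 → Fin n, Function.Bijective f ∧
          ∀ i : Fin (n / 4), ∀ j : Fin 4, G.Adj (f (i, j)) (f (i, j + 1)) := by
  intro η hη
  obtain ⟨n0, h⟩ := H.MP_1ff796_co.main (min η (1 / 2)) (by positivity) (min_le_right _ _)
  refine ⟨n0, fun n hn hd G hG => ?_⟩
  classical
  have key : ∀ r : Fin n → Prop, (1 / 2 + η) * (n : ℝ) ≤ (({w | r w}.ncard : ℕ) : ℝ) →
      (1 / 2 + min η (1 / 2)) * (Fintype.card (Fin n) : ℝ) ≤ ∑ y, H.MP_b50c09_co.ind (r y) := by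
    intro r hr
    rw [H.MP_b50c09_co.sum_ind, Fintype.card_fin, ← Set.ncard_coe_finset, Finset.coe_filter_univ]
    refine le_trans ?_ hr
    gcongr
    exact min_le_left _ _
  obtain ⟨F, hF, hc⟩ := h (fun u v => u ≠ v ∧ G.Adj u v) (fun a ha => ha.1 rfl)
    (by rwa [Fintype.card_fin]) (by rwa [Fintype.card_fin]) fun u =>
      ⟨key _ (by simpa only [ne_comm (a := u)] using (hG u).1), key _ (hG u).2⟩
  obtain ⟨f, hf1, hf2⟩ := H.MP_1ff796_co.bridge hF hc (n / 4) (by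
    rw [Fintype.card_fin] at hc; omega)
  exact ⟨f, hf1, fun i j => (hf2 i j).2⟩

end Pool.Agent.S07591
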