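import Pool.Statements.S07600
import Pool.Agent.H.MP_2076c8_co.A

set_option autoImplicit false
open Pool Pool.MP_2076c8_co

namespace Pool.Agent.S07600

theorem result :
    ¬ (∀ k : ℕ, ∃ K : ℕ, ∀ r : ℕ, ∀ a : Fin k → ZMod (2 ^ r), ∀ d : ℕ, d ≤ r →
      (∃ I : Finset (Fin k), I.Nonempty ∧ (2 : ZMod (2 ^ r)) ^ d ∣ ∑ i ∈ I, a i) →
      (∀ d' : ℕ, d < d' → d' ≤ r → ∀ I : Finset (Fin k), I.Nonempty →
          ¬ (2 : ZMod (2 ^ r)) ^ d' ∣ ∑ i ∈ I, a i) →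
      ∃ c : ZMod (2 ^ r) → Fin K, ∀ x : Fin k → ZMod (2 ^ r),
        (∀ i j, c (x i) = c (x j)) → ∑ i, a i * x i = 0 →
          ∀ i, (2 : ZMod (2 ^ r)) ^ (r - d) ∣ x i) := by
  intro h
  obtain ⟨K, hK⟩ := h 3
  have h1 := fun e : ℕ => hK (2 * (e + 1))
    (fun i => (((![1, 1, -(1 + 2 ^ (e + 1))] : Fin 3 → ℤ) i : ℤ) : ZMod (2 ^ (2 * (e + 1)))))
    (e + 1) (by omega) ⟨{0, 2}, by simp, by simp⟩ (fun d' h1 h2 I hI hd => by
      rw [← Int.cast_sum] at hd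
      exact H.MR.sums (e + 1) (by omega) I hI
        ((pow_dvd_pow 2 (by omega)).trans (H.MR.dvd_int h2 _ hd)))
  choose c hc using h1
  let W : Ultrafilter ℕ := Filter.hyperfilter ℕ
  let f : (e : ℕ) → ℕ × ℕ → ZMod (2 ^ (2 * (e + 1))) := fun e x => x.1 + 2 ^ (e + 1) * x.2
  have h2 : ∀ x : ℕ × ℕ, ∃ k, ∀ᶠ e in W, c e (f e x) = k := fun x => by
    obtain ⟨k, hk⟩ := Ultrafilter.eq_pure_of_finite (W.map (fun e => c e (f e x)))
    have : {k} ∈ W.map (fun e => c e (f e x)) := by rw [hk]; simp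
    exact ⟨k, this⟩
  choose χ hχ using h2
  obtain ⟨a, b, u, v, ha, e1, e2⟩ := H.MR.gow χ
  have h3 : ∀ᶠ e in W, a ≤ e := Filter.hyperfilter_le_cofinite
    (by rw [Nat.cofinite_eq_atTop]; exact Filter.eventually_ge_atTop a)
  obtain ⟨e, g0, g1, g2, g3⟩ :=
    (h3.and ((hχ (a, u + b)).and ((hχ (b, a + v)).and (hχ (a + b, u + v))))).exists
  have h4 := hc e ![f e (a, u + b), f e (b, a + v), f e (a + b, u + v)] (fun i j => by
    fin_cases i <;> fin_cases j <;> simp [g1, g2, g3, e1, e2]) (by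
      have h0 : (2 : ZMod (2 ^ (2 * (e + 1)))) ^ (2 * (e + 1)) = 0 := by
        exact_mod_cast ZMod.natCast_self (2 ^ (2 * (e + 1)))
      simp only [Fin.sum_univ_three, f]
      simp
      linear_combination (-(u + v : ZMod (2 ^ (2 * (e + 1))))) * h0) 0
  rw [show 2 * (e + 1) - (e + 1) = e + 1 by omega] at h4
  have h5 : (2 : ZMod (2 ^ (2 * (e + 1)))) ^ (e + 1) ∣ ((a : ℤ) : ZMod (2 ^ (2 * (e + 1)))) := by
    simp only [f] at h4
    simpa using (dvd_add_left (Dvd.intro _ rfl)).1 h4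
  have h6 := Int.le_of_dvd (by exact_mod_cast ha) (H.MR.dvd_int (by omega) _ h5)
  have h7 : e + 1 < 2 ^ (e + 1) := Nat.lt_two_pow_self
  have h8 : 2 ^ (e + 1) ≤ a := by exact_mod_cast h6
  omega

end Pool.Agent.S07600
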