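import Pool.Statements.S07614
-- import your own Pool.Agent.* helpers here

set_option autoImplicit false
open Pool Pool.MP_2117ab_co

namespace Pool.Agent.S07614

def colr : Fin 6 → Fin 6 → ℕ := ![![3, 0, 0, 2, 2, 1], ![0, 3, 2, 1, 0, 2], ![0, 2, 3, 0, 1, 1], ![2, 1, 0, 3, 1, 0], ![2, 0, 1, 1, 3, 2], ![1, 2, 1, 0, 2, 3]]

def T (i : Fin 3) : SimpleGraph (Fin 6) where
  Adj a b := colr a b = i.val
  symm := by
    constructor
    revert i
    decide +kernel
  loopless := by
    constructor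
    revert i
    decide +kernel

instance (i : Fin 3) : DecidableRel (T i).Adj := fun a b => inferInstanceAs (Decidable (colr a b = i.val))

theorem tree (i : Fin 3) : (T i).IsTree := by
  rw [SimpleGraph.isTree_iff_connected_and_card]
  refine ⟨?_, ?_⟩
  · revert i
    decide +kernel
  · rw [Nat.card_eq_fintype_card, Nat.card_eq_fintype_card, ← SimpleGraph.edgeFinset_card]
    revert i
    decide +kernel

theorem key (a b c d : ℝ) :
    |a - b| + |c - d| ≤ |a - c| + |b - d| ∨ |a - b| + |c - d| ≤ |a - d| + |b - c| := by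
  by_contra h
  push Not at h
  obtain ⟨h1, h2⟩ := h
  have e1 := le_abs_self (a - c)
  have e2 := neg_abs_le (a - c)
  have e3 := le_abs_self (b - d)
  have e4 := neg_abs_le (b - d)
  have e5 := le_abs_self (a - d)
  have e6 := neg_abs_le (a - d)
  have e7 := le_abs_self (b - c)
  have e8 := neg_abs_le (b - c)
  rcases abs_cases (a - b) with ⟨f1, -⟩ | ⟨f1, -⟩ <;> rcases abs_cases (c - d) with ⟨f2, -⟩ | ⟨f2, -⟩ <;>
    linarith

theorem result :
    ¬ (∀ (d : ℕ), 3 ≤ d →
    ∀ (V : Type) [Fintype V] (G : SimpleGraph V) (T : Fin d → SimpleGraph V),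
      (∀ i, (T i).IsTree) →
      (∀ i j, i ≠ j → Disjoint (T i) (T j)) →
      G = ⨆ i, T i →
      ∃ p : V → Fin d → ℝ, ∀ i : Fin d, ∀ u v : V, G.Adj u v →
        ((T i).Adj u v ↔ ∀ j : Fin d, j ≠ i → |p u j - p v j| < |p u i - p v i|)) := by
  intro h
  obtain ⟨p, hp⟩ := h 3 le_rfl (Fin 6) (⨆ i, T i) T tree (by
    intro i j hij
    rw [SimpleGraph.disjoint_left]
    intro a b h1 h2
    apply hij
    apply Fin.ext
    have h1' : colr a b = i.val := h1
    have h2' : colr a b = j.val := h2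
    omega) rfl
  have H : ∀ (i : Fin 3) (u v : Fin 6), colr u v = i.val → ∀ j : Fin 3, j ≠ i →
      |p u j - p v j| < |p u i - p v i| := by
    intro i u v huv
    exact (hp i u v (by rw [SimpleGraph.iSup_adj]; exact ⟨i, huv⟩)).1 huv
  -- K4 on 0,1,3,5 : 01,35 colour 0 ; 05,13 colour 1 ; 03,15 colour 2
  have a1 := H 0 0 1 (by decide) 1 (by decide)
  have a2 := H 0 0 1 (by decide) 2 (by decide)
  have a3 := H 0 3 5 (by decide) 1 (by decide)
  have a4 := H 0 3 5 (by decide) 2 (by decide)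
  have b1 := H 1 0 5 (by decide) 0 (by decide)
  have b2 := H 1 0 5 (by decide) 2 (by decide)
  have b3 := H 1 1 3 (by decide) 0 (by decide)
  have b4 := H 1 1 3 (by decide) 2 (by decide)
  have c1 := H 2 0 3 (by decide) 0 (by decide)
  have c2 := H 2 0 3 (by decide) 1 (by decide)
  have c3 := H 2 1 5 (by decide) 0 (by decide)
  have c4 := H 2 1 5 (by decide) 1 (by decide)
  have k0 := key (p 0 0) (p 1 0) (p 3 0) (p 5 0)
  have k1 := key (p 0 1) (p 5 1) (p 1 1) (p 3 1)
  have k2 := key (p 0 2) (p 3 2) (p 1 2) (p 5 2)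
  have s1 := abs_sub_comm (p 5 1) (p 3 1)
  have s2 := abs_sub_comm (p 5 1) (p 1 1)
  have s3 := abs_sub_comm (p 3 2) (p 1 2)
  rcases k0 with k0 | k0 <;> rcases k1 with k1 | k1 <;> rcases k2 with k2 | k2 <;> linarith

end Pool.Agent.S07614
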