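import Pool.Statements.S07623
import Pool.Agent.H.MP_17bf10_co.C

set_option autoImplicit false
open scoped InnerProductSpace
open Pool Pool.MP_217bbd_co Pool.Agent.H.MP_17bf10_co

namespace Pool.Agent.S07623

theorem result :
  ∀ (C : Finset (EuclideanSpace ℝ (Fin 2))), C.Nonempty →
    (∀ c ∈ C, (⋂ c' ∈ C.erase c, Metric.closedBall c' (1:ℝ)) ≠ ⋂ c' ∈ C, Metric.closedBall c' (1:ℝ)) →
    (∀ c ∈ C, ∀ c' ∈ C, dist c c' ≤ 1) →
    ∀ D : Set (EuclideanSpace ℝ (Fin 2)), D = (⋂ c' ∈ C, Metric.closedBall c' (1:ℝ)) →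
    ∀ ε : ℝ, 0 < ε → (∃ x, Metric.closedBall x ε ⊆ D) →
    ∀ K : Set (EuclideanSpace ℝ (Fin 2)),
      K = {y | ∃ x, Metric.closedBall x ε ⊆ D ∧ y ∈ Metric.closedBall x ε} →
    ∀ (n : ℕ) (p : ℕ → EuclideanSpace ℝ (Fin 2)),
      (2 ≤ n ∧ (∀ i, p (i + n) = p i) ∧ (∀ i, p i ∈ frontier K) ∧ (∀ i, p i ≠ p (i + 1)) ∧
        ∀ i, ∃ v : EuclideanSpace ℝ (Fin 2), ‖v‖ = 1 ∧
          (∀ x ∈ K, ⟪v, x - p (i + 1)⟫_ℝ ≤ 0) ∧
          ‖p (i + 2) - p (i + 1)‖⁻¹ • (p (i + 2) - p (i + 1)) =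
            (2 * ⟪v, ‖p i - p (i + 1)‖⁻¹ • (p i - p (i + 1))⟫_ℝ) • v
              - ‖p i - p (i + 1)‖⁻¹ • (p i - p (i + 1))) →
      (∀ (m : ℕ) (q : ℕ → EuclideanSpace ℝ (Fin 2)),
        (2 ≤ m ∧ (∀ i, q (i + m) = q i) ∧ (∀ i, q i ∈ frontier K) ∧ (∀ i, q i ≠ q (i + 1)) ∧
          ∀ i, ∃ v : EuclideanSpace ℝ (Fin 2), ‖v‖ = 1 ∧
            (∀ x ∈ K, ⟪v, x - q (i + 1)⟫_ℝ ≤ 0) ∧
            ‖q (i + 2) - q (i + 1)‖⁻¹ • (q (i + 2) - q (i + 1)) =
              (2 * ⟪v, ‖q i - q (i + 1)‖⁻¹ • (q i - q (i + 1))⟫_ℝ) • v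
                - ‖q i - q (i + 1)‖⁻¹ • (q i - q (i + 1))) →
        (∑ i ∈ Finset.range n, dist (p i) (p (i + 1))) ≤ ∑ i ∈ Finset.range m, dist (q i) (q (i + 1))) →
      ∀ i, p (i + 2) = p i := by
  intro C hS _ hfat D0 hD0def ε hε hx0 K hK n p ⟨hn, hper, hfr, hne, hrefl⟩ hmin
  have u0 : ‖(EuclideanSpace.single (0 : Fin 2) (1 : ℝ) : EuclideanSpace ℝ (Fin 2))‖ = 1 := by simp
  have hiff : ∀ x, Metric.closedBall x ε ⊆ D0 ↔ x ∈ bh (C : Set (EuclideanSpace ℝ (Fin 2))) (1 - ε) := by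
    intro x
    rw [hD0def]
    constructor
    · intro h c hc
      have := far x c _ u0 ε 1 hε.le (fun z hz => by
        have h1 := h (mem_closedBall_iff_norm.mpr hz)
        simp only [Set.mem_iInter, mem_closedBall_iff_norm] at h1
        exact h1 c hc)
      linarith
    · intro h z hz
      simp only [Set.mem_iInter, mem_closedBall_iff_norm]
      intro c hc
      have h1 := h c hc
      have h2 := mem_closedBall_iff_norm.mp hz
      have h3 := norm_sub_le_norm_sub_add_norm_sub z x c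
      linarith
  have hKi : ∀ z, z ∈ K ↔ ∃ x ∈ bh (C : Set (EuclideanSpace ℝ (Fin 2))) (1 - ε), ‖z - x‖ ≤ ε := by
    intro z
    rw [hK]
    simp only [Set.mem_ofPred_eq, hiff, mem_closedBall_iff_norm]
  have hC : (C : Set (EuclideanSpace ℝ (Fin 2))).Nonempty := hS
  have hA : (bh (C : Set (EuclideanSpace ℝ (Fin 2))) (1 - ε)).Nonempty := by
    obtain ⟨x, hx⟩ := hx0
    exact ⟨x, (hiff x).mp hx⟩
  set ρ := 1 - ε with hρ
  set A := bh (C : Set (EuclideanSpace ℝ (Fin 2))) ρ with hAdef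
  have hKY : ∀ y ∈ bh A ρ, ∀ z ∈ K, ‖z - y‖ ≤ 1 := by
    intro y hy z hz
    obtain ⟨x, hx, hzx⟩ := (hKi z).mp hz
    have h1 := hy x hx
    rw [norm_sub_rev] at h1
    have h3 := norm_sub_le_norm_sub_add_norm_sub z x y
    linarith
  have hin : ∀ y v : EuclideanSpace ℝ (Fin 2), ‖v‖ = 1 → y + ρ • v ∈ A → y + v ∈ K := by
    intro y v hv h
    refine (hKi _).mpr ⟨_, h, ?_⟩
    have : y + v - (y + ρ • v) = ε • v := by rw [hρ]; module
    rw [this, norm_smul, hv, Real.norm_eq_abs, abs_of_pos hε, mul_one]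
  have hY : ∀ v : EuclideanSpace ℝ (Fin 2), ‖v‖ = 1 → ∃ y ∈ bh A ρ, y + v ∈ K := by
    intro v hv
    obtain ⟨y, hy, hy'⟩ := touch _ hC ρ hA v hv
    exact ⟨y, hy, hin y v hv hy'⟩
  obtain ⟨o, ho⟩ : ∃ o : EuclideanSpace ℝ (Fin 2), ∀ y ∈ bh A ρ, ‖o - y‖ ≤ 0.5774 := by
    rcases le_total ρ 0.5774 with h | h
    · obtain ⟨o, ho⟩ := hA
      exact ⟨o, fun y hy => by rw [norm_sub_rev]; exact (hy o ho).trans h⟩
    · obtain ⟨o, ho⟩ := jung C (fun c hc c' hc' => by rw [← dist_eq_norm]; exact hfat c hc c' hc')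
      refine ⟨o, fun y hy => ?_⟩
      have := far o y _ u0 (ρ - 0.5774) ρ (by linarith) (fun x hx => by
        rw [norm_sub_rev]
        refine hy x fun c hc => ?_
        have h1 := ho c hc
        have h3 := norm_sub_le_norm_sub_add_norm_sub x o c
        linarith)
      linarith
  obtain ⟨D, u, y1, y2, hu, hD0, hy1, hy2, he, hD, hq0, hq1⟩ := diam_pair _ hC ρ hA _ u0
  have hq0' := hin y1 u hu hq0
  have hq1' : y2 - u ∈ K := by
    have := hin y2 (-u) (by simpa using hu) (by simpa [sub_eq_add_neg] using hq1)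
    simpa [sub_eq_add_neg] using this
  have hD2 : D < 2 := by
    have h1 := ho y1 hy1
    have h2 := ho y2 hy2
    have h3 := norm_sub_le_norm_sub_add_norm_sub y2 o y1
    rw [norm_sub_rev y2 o] at h3
    have h4 : ‖y2 - y1‖ = D := by
      rw [he, add_sub_cancel_left, norm_smul, hu, Real.norm_eq_abs, abs_of_nonneg hD0, mul_one]
    linarith
  have hdiff : (y1 + u) - (y2 - u) = (2 - D) • u := by rw [he]; module
  have hdist : ‖(y1 + u) - (y2 - u)‖ = 2 - D := by
    rw [hdiff, norm_smul, hu, Real.norm_eq_abs, abs_of_nonneg (by linarith), mul_one]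
  have hdist' : ‖(y2 - u) - (y1 + u)‖ = 2 - D := by rw [norm_sub_rev, hdist]
  have hne2 : (2 - D) ≠ 0 := by linarith
  have hb1 : (2 - D)⁻¹ • ((y1 + u) - (y2 - u)) = u := by
    rw [hdiff, smul_smul, inv_mul_cancel₀ hne2, one_smul]
  have hb0 : (2 - D)⁻¹ • ((y2 - u) - (y1 + u)) = -u := by
    rw [← neg_sub (y1 + u), smul_neg, hb1]
  have huu : ⟪u, u⟫_ℝ = (1 : ℝ) := by rw [real_inner_self_eq_norm_sq, hu]; norm_num
  have hneq : y1 + u ≠ y2 - u := by
    intro h; rw [h, sub_self, norm_zero] at hdist; exact hne2 hdist.symm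
  have f0 := mem_frontier_of_ball _ _ y1 hq0' (hKY y1 hy1) (by simp [hu])
  have f1 := mem_frontier_of_ball _ _ y2 hq1' (hKY y2 hy2) (by simp [hu])
  have hlen := hmin 2 (fun i => if i % 2 = 0 then y1 + u else y2 - u) ⟨le_rfl,
    fun i => by simp, fun i => by split_ifs <;> assumption, fun i => by
      rcases Nat.mod_two_eq_zero_or_one i with h | h
      · rw [if_pos h, if_neg (by omega)]; exact hneq
      · rw [if_neg (by omega), if_pos (by omega)]; exact hneq.symm, fun i => by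
      rcases Nat.mod_two_eq_zero_or_one i with h | h
      · rw [if_pos h, if_neg (show ¬ (i + 1) % 2 = 0 by omega), if_pos (show (i + 2) % 2 = 0 by omega),
          hdist, hb1]
        refine ⟨-u, by simpa using hu, fun x hx => ?_, ?_⟩
        · have h1 := real_inner_le_norm u (y2 - x)
          have h2 := hKY y2 hy2 x hx
          rw [norm_sub_rev] at h2
          rw [hu, one_mul] at h1
          have h3 : x - (y2 - u) = u - (y2 - x) := by abel
          rw [h3, inner_neg_left, inner_sub_right, huu]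
          linarith
        · rw [inner_neg_left, huu]; module
      · rw [if_neg (show ¬ i % 2 = 0 by omega), if_pos (show (i + 1) % 2 = 0 by omega),
          if_neg (show ¬ (i + 2) % 2 = 0 by omega), hdist', hb0]
        refine ⟨u, hu, fun x hx => ?_, ?_⟩
        · have h1 := real_inner_le_norm u (x - y1)
          have h2 := hKY y1 hy1 x hx
          rw [hu, one_mul] at h1
          have h3 : x - (y1 + u) = (x - y1) - u := by abel
          rw [h3, inner_sub_right, huu]
          linarith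
        · rw [inner_neg_right, huu]; module⟩
  have hL : len p n ≤ 4 - 2 * D := by
    rw [Finset.sum_range_succ, Finset.sum_range_one] at hlen
    norm_num only [if_true, if_false, Nat.zero_mod, Nat.one_mod, Nat.mod_self] at hlen
    rw [dist_eq_norm, dist_eq_norm, hdist, hdist'] at hlen
    have : len p n = ∑ i ∈ Finset.range n, dist (p i) (p (i + 1)) := by
      unfold len
      exact Finset.sum_congr rfl fun i _ => by rw [dist_comm, dist_eq_norm]
    linarith
  have hsup : ∀ i, dir p (i + 1) ≠ dir p i ∧ ∀ Z ∈ K,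
      0 ≤ ⟪dir p (i + 1) - dir p i, Z - p (i + 1)⟫_ℝ := by
    intro i
    obtain ⟨v, hv, hs, hr⟩ := hrefl i
    have ha : ‖p i - p (i + 1)‖⁻¹ • (p i - p (i + 1)) = -dir p i := by
      unfold dir
      rw [norm_sub_rev, ← smul_neg, neg_sub]
    have hr' : dir p (i + 1) - dir p i = (-(2 * ⟪v, dir p i⟫_ℝ)) • v := by
      rw [ha] at hr
      have : dir p (i + 1) = _ := hr
      rw [this, inner_neg_right]; module
    obtain ⟨y, hy, hy'⟩ := hY v hv
    have hcl : ∀ j, ‖p j - y‖ ≤ 1 := by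
      intro j
      have h1 : closure K ⊆ Metric.closedBall y 1 :=
        closure_minimal (fun z hz => mem_closedBall_iff_norm.mpr (hKY y hy z hz))
          Metric.isClosed_closedBall
      exact mem_closedBall_iff_norm.mp (h1 (frontier_subset_closure (hfr j)))
    have hvv : ⟪v, v⟫_ℝ = (1 : ℝ) := by rw [real_inner_self_eq_norm_sq, hv]; norm_num
    have hone : ∀ z, ‖z - y‖ ≤ 1 → 1 ≤ ⟪v, z - y⟫_ℝ → z = y + v := by
      intro z h1 h2
      have h3 := norm_sub_sq_real v (z - y)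
      have h4 := pow_le_pow_left₀ (norm_nonneg _) h1 2
      rw [hv] at h3
      have h5 : ‖v - (z - y)‖ ^ 2 = 0 := le_antisymm (by linarith) (sq_nonneg _)
      have h6 := sub_eq_zero.mp (norm_eq_zero.mp (pow_eq_zero_iff two_ne_zero |>.mp h5))
      rw [h6]; abel
    have h1 : 1 ≤ ⟪v, p (i + 1) - y⟫_ℝ := by
      have := hs _ hy'
      have e : y + v - p (i + 1) = v - (p (i + 1) - y) := by abel
      rw [e, inner_sub_right, hvv] at this
      linarith
    have h2 : ⟪v, p i - y⟫_ℝ < 1 := by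
      by_contra hc
      push Not at hc
      exact hne i ((hone _ (hcl i) hc).trans (hone _ (hcl (i + 1)) h1).symm)
    have h3 : 0 < ⟪v, dir p i⟫_ℝ := by
      unfold dir
      rw [real_inner_smul_right]
      refine mul_pos (inv_pos.mpr (norm_pos_iff.mpr (sub_ne_zero.mpr (hne i).symm))) ?_
      have e : p (i + 1) - p i = (p (i + 1) - y) - (p i - y) := by abel
      rw [e, inner_sub_right]
      linarith
    refine ⟨fun h => ?_, fun Z hZ => ?_⟩
    · rw [h, sub_self] at hr'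
      have h4 := congrArg (fun w => ⟪v, w⟫_ℝ) hr'
      simp only [inner_zero_right, real_inner_smul_right, hvv] at h4
      linarith
    · rw [hr', real_inner_smul_left]
      exact mul_nonneg_of_nonpos_of_nonpos (by linarith) (hs Z hZ)
  have hT := t4_of p n hper hne K (bh A ρ) hY (fun i => (hsup i).2) _ hL
  have hn2 : n = 2 := by
    rcases le_total D 1 with h | h
    · exact caseA (dir p) (fun i => ‖p (i + 1) - p i‖) n hn (fun i => dir_norm p i (hne i))
        (dir_per p _ hper) (fun i => (hsup i).1)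
        (fun i => norm_pos_iff.mpr (sub_ne_zero.mpr (hne i).symm)) (dir_sum p _ hper hne) _ D hD h hT
    · exact caseB (dir p) (fun i => ‖p (i + 1) - p i‖) n hn (fun i => dir_norm p i (hne i))
        (dir_per p _ hper) (fun i => (hsup i).1)
        (fun i => norm_pos_iff.mpr (sub_ne_zero.mpr (hne i).symm)) (dir_sum p _ hper hne) _ D hD h
        hD2 o ho hT
  intro i
  subst hn2; exact hper i

end Pool.Agent.S07623
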