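import Pool.Statements.S07625
import Pool.Agent.H.MP_21b6c8_co.Code

set_option autoImplicit false
open Pool Pool.MP_21b6c8_co

namespace Pool.Agent.S07625

open Finset Filter Pool.Agent.H.MP_21b6c8_co in
theorem exists_par (T J : ℕ) (ε : ℝ) (hε : 0 < ε) : ∃ n : ℕ, 3 ≤ n ∧
    ((n * (n + 1) ^ T : ℕ) : ℝ) * (J - ε) < ((J * n ^ T : ℕ) : ℝ) * ((n : ℝ) - 2) := by
  have h1 : Tendsto (fun n : ℕ => (1 + 1 / (n : ℝ)) ^ T * (J - ε) - J * (1 - 2 * (1 / (n : ℝ))))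
      atTop (nhds ((1 + 0) ^ T * (J - ε) - J * (1 - 2 * 0))) :=
    (((tendsto_one_div_atTop_nhds_zero_nat.const_add 1).pow T).mul_const _).sub
      (((tendsto_one_div_atTop_nhds_zero_nat.const_mul 2).const_sub 1).const_mul _)
  have h2 := h1.eventually_lt_const (u := 0) (by simp; linarith)
  obtain ⟨n, hn, h3⟩ := (h2.and (eventually_ge_atTop 3)).exists
  refine ⟨n, h3, ?_⟩
  have hn0 : (0 : ℝ) < n := by exact_mod_cast (by omega : 0 < n)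
  have h4 := mul_neg_of_pos_of_neg (mul_pos hn0 (pow_pos hn0 T)) hn
  have h5 : (n : ℝ) ^ T * (1 + 1 / (n : ℝ)) ^ T = (n + 1) ^ T := by
    rw [← mul_pow]
    congr 1
    field_simp
  have h6 : (n : ℝ) * (1 - 2 * (1 / (n : ℝ))) = n - 2 := by field_simp
  push_cast
  rw [← h5, ← h6]
  linarith

open Finset Filter Pool.Agent.H.MP_21b6c8_co in
theorem asym (T c J : ℕ) (hc : 1 ≤ c) (ε : ℝ) (hε : 0 < ε) (hJ : ε ≤ J) : ∃ n Q : ℕ, 1 ≤ n ∧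
    ∀ q : ℕ, Q ≤ q → ∃ N : ℕ, 1 ≤ N ∧ (2 * c * N + 1) ^ (n * (n + 1) ^ T) ≤ q ∧
      (q : ℝ) ^ ((J : ℝ) - ε) < ((N : ℝ) ^ n / (n * N ^ 2)) ^ (J * n ^ T) := by
  obtain ⟨n, hn, h⟩ := exists_par T J ε hε
  set M := n * (n + 1) ^ T with hM
  set L := J * n ^ T with hL
  have hM1 : M ≠ 0 := by positivity
  have hθ : 0 < (L : ℝ) * ((n : ℝ) - 2) - M * (J - ε) := by linarith
  have h1 := ((tendsto_rpow_atTop hθ).comp tendsto_natCast_atTop_atTop).eventually_gt_atTop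
    (((4 * c + 1 : ℝ)) ^ ((M : ℝ) * (J - ε)) * n ^ L)
  obtain ⟨N0, hN0⟩ := eventually_atTop.1 h1
  refine ⟨n, (2 * c * (N0 + 1) + 1) ^ M, by omega, fun q hq => ?_⟩
  have hex : ∃ N, q < (2 * c * (N + 1) + 1) ^ M :=
    ⟨q, lt_of_lt_of_le (by nlinarith) (Nat.le_self_pow hM1 _)⟩
  have h2 := Nat.find_spec hex
  have h3 : N0 < Nat.find hex := by
    by_contra h'
    have : (2 * c * (Nat.find hex + 1) + 1) ^ M ≤ (2 * c * (N0 + 1) + 1) ^ M := by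
      have := not_lt.1 h'
      gcongr
    omega
  have h4 := Nat.find_min hex (m := Nat.find hex - 1) (by omega)
  set N := Nat.find hex with hN
  rw [show N - 1 + 1 = N by omega] at h4
  refine ⟨N, by omega, not_lt.1 h4, ?_⟩
  have hN1 : (1 : ℝ) ≤ N := by exact_mod_cast (by omega : 1 ≤ N)
  have hNp : (0 : ℝ) < N := by linarith
  have hn0 : (0 : ℝ) < n := by exact_mod_cast (by omega : 0 < n)
  have h5 : (q : ℝ) ≤ ((4 * c + 1) * N) ^ M := by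
    have h6 : (q : ℝ) ≤ (2 * c * (N + 1) + 1) ^ M := by exact_mod_cast h2.le
    refine h6.trans (pow_le_pow_left₀ (by positivity) ?_ _)
    have : (0 : ℝ) ≤ c := Nat.cast_nonneg _
    nlinarith
  have hE : (0 : ℝ) ≤ J - ε := by linarith
  have h7 : (q : ℝ) ^ ((J : ℝ) - ε)
      ≤ (4 * c + 1 : ℝ) ^ ((M : ℝ) * (J - ε)) * (N : ℝ) ^ ((M : ℝ) * (J - ε)) := by
    refine (Real.rpow_le_rpow (Nat.cast_nonneg _) h5 hE).trans (le_of_eq ?_)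
    rw [← Real.rpow_natCast, ← Real.rpow_mul (by positivity),
      Real.mul_rpow (by positivity) hNp.le]
  have h8 : ((N : ℝ) ^ n / (n * N ^ 2)) ^ L
      = (N : ℝ) ^ ((L : ℝ) * ((n : ℝ) - 2) - M * (J - ε)) * (N : ℝ) ^ ((M : ℝ) * (J - ε))
        / n ^ L := by
    rw [← Real.rpow_add hNp, sub_add_cancel, mul_comm (L : ℝ), Real.rpow_mul hNp.le,
      Real.rpow_natCast, ← div_pow, Real.rpow_sub hNp, Real.rpow_natCast, Real.rpow_two]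
    congr 1
    field_simp
  have h9 := hN0 N h3.le
  simp only [Function.comp] at h9
  rw [h8, lt_div_iff₀ (by positivity)]
  have h10 : (0 : ℝ) < (N : ℝ) ^ ((M : ℝ) * (J - ε)) := by positivity
  calc (q : ℝ) ^ ((J : ℝ) - ε) * n ^ L
      ≤ (4 * c + 1 : ℝ) ^ ((M : ℝ) * (J - ε)) * (N : ℝ) ^ ((M : ℝ) * (J - ε)) * n ^ L := by
        gcongr
    _ = ((4 * c + 1 : ℝ) ^ ((M : ℝ) * (J - ε)) * n ^ L) * (N : ℝ) ^ ((M : ℝ) * (J - ε)) := by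
        ring
    _ < _ := by gcongr

/-- For all ℓ,k ≥ 1 and ε > 0, every large enough q has a q-ary length-ℓ code with the k-identifiable parent property and more than q^(⌈ℓ/(u−1)⌉−ε) codewords, where u = ⌊(k+2)²/4⌋. -/
theorem result :
    ∀ ℓ k : ℕ, 1 ≤ ℓ → 1 ≤ k → ∀ ε : ℝ, 0 < ε →
      ∃ Q : ℕ, ∀ q : ℕ, Q ≤ q →
        ∃ C : Finset (Fin ℓ → Fin q),
          (∀ x : Fin ℓ → Fin q,
            (∃ X : Finset (Fin ℓ → Fin q), X ⊆ C ∧ X.card ≤ k ∧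
                ∀ i : Fin ℓ, ∃ y ∈ X, y i = x i) →
            ∃ c ∈ C, ∀ X : Finset (Fin ℓ → Fin q), X ⊆ C → X.card ≤ k →
                (∀ i : Fin ℓ, ∃ y ∈ X, y i = x i) → c ∈ X) ∧
          (q : ℝ) ^ (((⌈(ℓ : ℝ) / ((((k + 2) ^ 2 / 4 : ℕ) : ℝ) - 1)⌉ : ℤ) : ℝ) - ε)
            < (C.card : ℝ) := by
  intro l k hl hk ε hε
  have hu : 2 ≤ (k + 2) ^ 2 / 4 := by
    rw [Nat.le_div_iff_mul_le (by norm_num)]
    nlinarith
  obtain ⟨m, hm⟩ : ∃ m, m + 1 = (k + 2) ^ 2 / 4 := ⟨(k + 2) ^ 2 / 4 - 1, by omega⟩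
  have hm1 : 1 ≤ m := by omega
  have hmr : (0 : ℝ) < m := by exact_mod_cast hm1
  have hlr : (0 : ℝ) < l := by exact_mod_cast hl
  rw [← hm]
  have hcast : (((m + 1 : ℕ) : ℝ) - 1) = m := by push_cast; ring
  rw [hcast]
  have hJ : 0 < ⌈(l : ℝ) / m⌉ := Int.ceil_pos.2 (div_pos hlr hmr)
  obtain ⟨j, hj⟩ : ∃ j : ℕ, ⌈(l : ℝ) / m⌉ = ((j + 1 : ℕ) : ℤ) :=
    ⟨(⌈(l : ℝ) / m⌉ - 1).toNat, by omega⟩
  have hjl : m * j < l := by
    have h1 : (j : ℤ) < ⌈(l : ℝ) / m⌉ := by omega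
    have h2 := Int.lt_ceil.1 h1
    rw [lt_div_iff₀ hmr] at h2
    have h3 : ((m * j : ℕ) : ℝ) < l := by push_cast at h2 ⊢; linarith
    exact_mod_cast h3
  rw [hj, Int.cast_natCast]
  obtain ⟨T, c, hTc⟩ := Pool.Agent.H.MP_21b6c8_co.exists_code m j l hm1 hjl
  obtain ⟨n, Q, hn, hQ⟩ := asym T (c + 1) (j + 1) (by omega) (min ε 1) (lt_min hε one_pos)
    ((min_le_right _ _).trans (by push_cast; linarith [(Nat.cast_nonneg j : (0 : ℝ) ≤ j)]))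
  refine ⟨Q, fun q hq => ?_⟩
  obtain ⟨N, hN, h1, h2⟩ := hQ q hq
  obtain ⟨C, hC, h3⟩ := hTc n n N q hn hN (le_trans (by gcongr; omega) h1)
  have : Nonempty (Fin l) := ⟨⟨0, hl⟩⟩
  refine ⟨C, fun x hx => Pool.Agent.H.MP_21b6c8_co.ipp_of_phf k m hm C hC x hx, ?_⟩
  have hq1 : (1 : ℝ) ≤ q := by
    exact_mod_cast le_trans (Nat.one_le_pow _ _ (Nat.succ_pos _)) h1
  refine lt_of_le_of_lt (Real.rpow_le_rpow_of_exponent_le hq1 ?_) (h2.trans_le h3)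
  linarith [min_le_left ε 1]

end Pool.Agent.S07625
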