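import Pool.Statements.S07641
-- import your own Pool.Agent.* helpers here

set_option autoImplicit false
open Pool Pool.MP_229fa6_co

namespace Pool.Agent.S07641

open Finset

def red (s a : ℕ) : ℕ := if s < a then a - 1 else a

def Edge {n : ℕ} (σ τ : Equiv.Perm (Fin n)) (u v : Bool × ℕ × ℕ) : Prop :=
  u.1 = false ∧ v.1 = true ∧ u.2.1 < n ∧ u.2.2 < n ∧ v.2.1 < n ∧ v.2.2 < n ∧ ∃ z : Fin n,
    u.2.1 ≠ σ z ∧ u.2.2 ≠ σ z ∧ v.2.1 ≠ τ z ∧ v.2.2 ≠ τ z ∧
    red (σ z) u.2.1 = red (τ z) v.2.1 ∧ red (σ z) u.2.2 = red (τ z) v.2.2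

def Rel {n : ℕ} (σ τ : Equiv.Perm (Fin n)) : Bool × ℕ × ℕ → Bool × ℕ × ℕ → Prop :=
  Relation.ReflTransGen (fun u v => Edge σ τ u v ∨ Edge σ τ v u)

def Gd {n : ℕ} (σ τ : Equiv.Perm (Fin n)) (a b : ℕ) : Prop := Rel σ τ (false, a, b) (true, a, b)

theorem Rel.symm' {n : ℕ} {σ τ : Equiv.Perm (Fin n)} {u v : Bool × ℕ × ℕ} (h : Rel σ τ u v) :
    Rel σ τ v u := by
  induction h with
  | refl => exact Relation.ReflTransGen.refl
  | tail _ h2 ih => exact Relation.ReflTransGen.head h2.symm ih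

def zn (α β i : ℕ) : Fin 3 := if i ≤ α then 0 else if i ≤ β then 1 else 2

def vt (α β : ℕ) (W : Fin 3) : ℕ × ℕ :=
  if W = 0 then (α + 1, β + 1) else if W = 1 then (α, β + 1) else (α, β)

theorem vt_zn (α β i : ℕ) (h1 : α < β) :
    (vt α β (zn α β i)).1 ≤ β + 1 ∧ (vt α β (zn α β i)).2 ≤ β + 1 ∧
    (vt α β (zn α β i)).1 ≠ i ∧ (vt α β (zn α β i)).2 ≠ i ∧
    red i (vt α β (zn α β i)).1 = α ∧ red i (vt α β (zn α β i)).2 = β := by
  by_cases c1 : i ≤ α
  · have e : vt α β (zn α β i) = (α + 1, β + 1) := by simp [vt, zn, c1]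
    rw [e]
    simp only [red]
    split_ifs <;> omega
  · by_cases c2 : i ≤ β
    · have e : vt α β (zn α β i) = (α, β + 1) := by simp [vt, zn, c1, c2]
      rw [e]
      simp only [red]
      split_ifs <;> omega
    · have e : vt α β (zn α β i) = (α, β) := by simp [vt, zn, c1, c2]
      rw [e]
      simp only [red]
      split_ifs <;> omega

theorem edge_tri {n : ℕ} (σ τ : Equiv.Perm (Fin n)) (α β : ℕ) (h1 : α < β) (h2 : β + 2 ≤ n)
    (z : Fin n) : Edge σ τ (false, vt α β (zn α β (σ z))) (true, vt α β (zn α β (τ z))) := by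
  obtain ⟨a1, a2, a3, a4, a5, a6⟩ := vt_zn α β (σ z) h1
  obtain ⟨b1, b2, b3, b4, b5, b6⟩ := vt_zn α β (τ z) h1
  exact ⟨rfl, rfl, by simp only; omega, by simp only; omega, by simp only; omega,
    by simp only; omega, z, a3, a4, b3, b4, a5.trans b5.symm, a6.trans b6.symm⟩

open Classical in
theorem count {n : ℕ} (σ : Equiv.Perm (Fin n)) (α β : ℕ) (h1 : α < β) (h2 : β + 2 ≤ n)
    (S : Fin 3 → Prop) :
    ∑ z : Fin n, (if S (zn α β (σ z)) then 1 else 0) =
      (if S 0 then α + 1 else 0) + (if S 1 then β - α else 0) + (if S 2 then n - 1 - β else 0) := by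
  rw [Equiv.sum_comp σ (fun i : Fin n => if S (zn α β i) then 1 else 0),
    Fin.sum_univ_eq_sum_range (fun i => if S (zn α β i) then 1 else 0) n,
    ← Finset.sum_range_add_sum_Ico _ (show α + 1 ≤ n by omega),
    ← Finset.sum_Ico_consecutive _ (show α + 1 ≤ β + 1 by omega) (show β + 1 ≤ n by omega),
    add_assoc]
  congr 1
  · rw [Finset.sum_congr rfl (g := fun _ => if S 0 then 1 else 0)]
    · split_ifs <;> simp
    · intro i hi
      have := mem_range.1 hi
      rw [zn, if_pos (show i ≤ α by omega)]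
  congr 1
  · rw [Finset.sum_congr rfl (g := fun _ => if S 1 then 1 else 0)]
    · split_ifs <;> simp
    · intro i hi
      have := mem_Ico.1 hi
      rw [zn, if_neg (show ¬ i ≤ α by omega), if_pos (show i ≤ β by omega)]
  · rw [Finset.sum_congr rfl (g := fun _ => if S 2 then 1 else 0)]
    · split_ifs <;> simp
      omega
    · intro i hi
      have := mem_Ico.1 hi
      rw [zn, if_neg (show ¬ i ≤ α by omega), if_neg (show ¬ i ≤ β by omega)]

open Classical in
theorem tri {n : ℕ} (σ τ : Equiv.Perm (Fin n)) (α β : ℕ) (h1 : α < β) (h2 : β + 2 ≤ n)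
    (X : Fin 3) (hX : ¬ Gd σ τ (vt α β X).1 (vt α β X).2) :
    ∃ S S' : Fin 3 → Prop, S X ∧ ¬ S' X ∧
      (∀ W, Gd σ τ (vt α β W).1 (vt α β W).2 → (S W ↔ S' W)) ∧
      (if S 0 then α + 1 else 0) + (if S 1 then β - α else 0) + (if S 2 then n - 1 - β else 0) =
      (if S' 0 then α + 1 else 0) + (if S' 1 then β - α else 0) +
        (if S' 2 then n - 1 - β else 0) := by
  refine ⟨fun W => Rel σ τ (false, vt α β X) (false, vt α β W),
    fun W => Rel σ τ (false, vt α β X) (true, vt α β W), Relation.ReflTransGen.refl, hX, ?_, ?_⟩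
  · intro W hW
    exact ⟨fun h => h.trans hW, fun h => h.trans hW.symm'⟩
  · rw [← count σ α β h1 h2 (fun W => Rel σ τ (false, vt α β X) (false, vt α β W)),
      ← count τ α β h1 h2 (fun W => Rel σ τ (false, vt α β X) (true, vt α β W))]
    apply Finset.sum_congr rfl
    intro z _
    have e := edge_tri σ τ α β h1 h2 z
    have : Rel σ τ (false, vt α β X) (false, vt α β (zn α β (σ z))) ↔
        Rel σ τ (false, vt α β X) (true, vt α β (zn α β (τ z))) :=
      ⟨fun h => h.tail (Or.inl e), fun h => h.tail (Or.inr e)⟩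
    simp only [this]

theorem triL {n : ℕ} (σ τ : Equiv.Perm (Fin n)) (α β : ℕ) (h1 : α < β) (h2 : β + 2 ≤ n)
    (hX : ¬ Gd σ τ (α + 1) (β + 1)) :
    α + 1 = β - α ∨ α + 1 = n - 1 - β ∨
      ((2 * (α + 1) = n ∨ 2 * (β - α) = n ∨ 2 * (n - 1 - β) = n) ∧
        ¬ Gd σ τ α (β + 1) ∧ ¬ Gd σ τ α β) := by
  obtain ⟨S, S', a1, a2, a3, a4⟩ := tri σ τ α β h1 h2 0 hX
  have b1 : Gd σ τ α (β + 1) → (S 1 ↔ S' 1) := a3 1
  have b2 : Gd σ τ α β → (S 2 ↔ S' 2) := a3 2
  by_cases c1 : S 1 <;> by_cases c2 : S 2 <;> by_cases c3 : S' 1 <;> by_cases c4 : S' 2 <;>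
    simp only [a1, a2, c1, c2, c3, c4, if_true, if_false, iff_true, iff_false,
      not_true, imp_false] at a4 b1 b2 <;>
    first
      | omega
      | exact Or.inr (Or.inr ⟨by omega, b1, b2⟩)

theorem triM {n : ℕ} (σ τ : Equiv.Perm (Fin n)) (α β : ℕ) (h1 : α < β) (h2 : β + 2 ≤ n)
    (hX : ¬ Gd σ τ α (β + 1)) :
    α + 1 = β - α ∨ β - α = n - 1 - β ∨
      ((2 * (α + 1) = n ∨ 2 * (β - α) = n ∨ 2 * (n - 1 - β) = n) ∧
        ¬ Gd σ τ (α + 1) (β + 1) ∧ ¬ Gd σ τ α β) := by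
  obtain ⟨S, S', a1, a2, a3, a4⟩ := tri σ τ α β h1 h2 1 hX
  have b1 : Gd σ τ (α + 1) (β + 1) → (S 0 ↔ S' 0) := a3 0
  have b2 : Gd σ τ α β → (S 2 ↔ S' 2) := a3 2
  by_cases c1 : S 0 <;> by_cases c2 : S 2 <;> by_cases c3 : S' 0 <;> by_cases c4 : S' 2 <;>
    simp only [a1, a2, c1, c2, c3, c4, if_true, if_false, iff_true, iff_false,
      not_true, imp_false] at a4 b1 b2 <;>
    first
      | omega
      | exact Or.inr (Or.inr ⟨by omega, b1, b2⟩)

theorem triR {n : ℕ} (σ τ : Equiv.Perm (Fin n)) (α β : ℕ) (h1 : α < β) (h2 : β + 2 ≤ n)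
    (hX : ¬ Gd σ τ α β) :
    α + 1 = n - 1 - β ∨ β - α = n - 1 - β ∨
      ((2 * (α + 1) = n ∨ 2 * (β - α) = n ∨ 2 * (n - 1 - β) = n) ∧
        ¬ Gd σ τ (α + 1) (β + 1) ∧ ¬ Gd σ τ α (β + 1)) := by
  obtain ⟨S, S', a1, a2, a3, a4⟩ := tri σ τ α β h1 h2 2 hX
  have b1 : Gd σ τ (α + 1) (β + 1) → (S 0 ↔ S' 0) := a3 0
  have b2 : Gd σ τ α (β + 1) → (S 1 ↔ S' 1) := a3 1
  by_cases c1 : S 0 <;> by_cases c2 : S 1 <;> by_cases c3 : S' 0 <;> by_cases c4 : S' 1 <;>
    simp only [a1, a2, c1, c2, c3, c4, if_true, if_false, iff_true, iff_false,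
      not_true, imp_false] at a4 b1 b2 <;>
    first
      | omega
      | exact Or.inr (Or.inr ⟨by omega, b1, b2⟩)

/-- arithmetic shape of a bad pair -/
def Coin (n a b : ℕ) : Prop :=
  (2 * (a + 1) = n ∧ (b + 1 = n ∨ b + 2 = n ∨ b = a + 1 ∨ b = a + 2)) ∨
  (2 * (b - a) = n ∧ (a = 0 ∨ a = 1 ∨ b + 1 = n ∨ b + 2 = n)) ∨
  (2 * (n - b) = n ∧ (a = 0 ∨ a = 1 ∨ b = a + 1 ∨ b = a + 2))

theorem coin {n : ℕ} (σ τ : Equiv.Perm (Fin n)) (hn : 20 ≤ n) (a b : ℕ) (h1 : a < b) (h2 : b < n)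
    (hX : ¬ Gd σ τ a b) : Coin n a b := by
  have e1 : a = 0 ∨ a = b - a ∨ a = n - b ∨ 2 * a = n ∨ 2 * (b - a) = n ∨ 2 * (n - b) = n := by
    rcases Nat.eq_zero_or_pos a with h | h
    · exact Or.inl h
    · have := triL σ τ (a - 1) (b - 1) (by omega) (by omega)
        (by rwa [show a - 1 + 1 = a by omega, show b - 1 + 1 = b by omega])
      rcases this with h | h | ⟨h, -⟩ <;> omega
  have e2 : b = a + 1 ∨ a + 1 = b - 1 - a ∨ b - 1 - a = n - b ∨ 2 * (a + 1) = n ∨
      2 * (b - 1 - a) = n ∨ 2 * (n - b) = n := by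
    by_cases h : b = a + 1
    · exact Or.inl h
    · have := triM σ τ a (b - 1) (by omega) (by omega)
        (by rwa [show b - 1 + 1 = b by omega])
      rcases this with h | h | ⟨h, -⟩ <;> omega
  have e3 : b + 1 = n ∨ a + 1 = n - 1 - b ∨ b - a = n - 1 - b ∨ 2 * (a + 1) = n ∨
      2 * (b - a) = n ∨ 2 * (n - 1 - b) = n := by
    by_cases h : b + 1 = n
    · exact Or.inl h
    · have := triR σ τ a b h1 (by omega) hX
      rcases this with h | h | ⟨h, -⟩ <;> omega
  unfold Coin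
  omega

theorem good {n : ℕ} (σ τ : Equiv.Perm (Fin n)) (hn : 20 ≤ n) (a b : ℕ) (h1 : a < b) (h2 : b < n) :
    Gd σ τ a b := by
  by_contra hX
  have c0 := coin σ τ hn a b h1 h2 hX
  have e1 : a = 0 ∨ a = b - a ∨ a = n - b ∨ (Coin n (a - 1) b ∧ Coin n (a - 1) (b - 1)) := by
    rcases Nat.eq_zero_or_pos a with h | h
    · exact Or.inl h
    · have := triL σ τ (a - 1) (b - 1) (by omega) (by omega)
        (by rwa [show a - 1 + 1 = a by omega, show b - 1 + 1 = b by omega])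
      rcases this with h | h | ⟨-, h3, h4⟩
      · omega
      · omega
      · rw [show b - 1 + 1 = b by omega] at h3
        exact Or.inr (Or.inr (Or.inr ⟨coin σ τ hn _ _ (by omega) (by omega) h3,
          coin σ τ hn _ _ (by omega) (by omega) h4⟩))
  have e2 : b = a + 1 ∨ a + 1 = b - 1 - a ∨ b - 1 - a = n - b ∨
      (Coin n (a + 1) b ∧ Coin n a (b - 1)) := by
    by_cases h : b = a + 1
    · exact Or.inl h
    · have := triM σ τ a (b - 1) (by omega) (by omega)
        (by rwa [show b - 1 + 1 = b by omega])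
      rcases this with h | h | ⟨-, h3, h4⟩
      · omega
      · omega
      · rw [show b - 1 + 1 = b by omega] at h3
        exact Or.inr (Or.inr (Or.inr ⟨coin σ τ hn _ _ (by omega) (by omega) h3,
          coin σ τ hn _ _ (by omega) (by omega) h4⟩))
  have e3 : b + 1 = n ∨ a + 1 = n - 1 - b ∨ b - a = n - 1 - b ∨
      (Coin n (a + 1) (b + 1) ∧ Coin n a (b + 1)) := by
    by_cases h : b + 1 = n
    · exact Or.inl h
    · have := triR σ τ a b h1 (by omega) hX
      rcases this with h | h | ⟨-, h3, h4⟩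
      · omega
      · omega
      · exact Or.inr (Or.inr (Or.inr ⟨coin σ τ hn _ _ (by omega) (by omega) h3,
          coin σ τ hn _ _ (by omega) (by omega) h4⟩))
  unfold Coin at c0 e1 e2 e3
  omega

theorem card_red {n : ℕ} (σ : Equiv.Perm (Fin n)) (z a : Fin n) :
    (Finset.univ.filter (fun e : Fin n => e ≠ z ∧ σ e < σ a)).card = red (σ z) (σ a) := by
  have h0 : (Finset.univ.filter (fun e : Fin n => σ e < σ a)).card = σ a := by
    rw [← Fin.card_Iio (σ a)]
    apply Finset.card_bij (fun e _ => σ e)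
    · intro e he
      simpa using he
    · intro a _ b _ h
      exact σ.injective h
    · intro b hb
      exact ⟨σ.symm b, by simpa using hb, by simp⟩
  have h1 : Finset.univ.filter (fun e : Fin n => e ≠ z ∧ σ e < σ a) =
      (Finset.univ.filter (fun e : Fin n => σ e < σ a)).erase z := by
    ext e
    simp
  rw [h1, Finset.card_erase_eq_ite, h0, red]
  simp only [mem_filter, mem_univ, true_and, Fin.lt_def]

theorem seqs {n : ℕ} (σ τ : Equiv.Perm (Fin n)) (R : Fin n → Fin n → Fin n → Prop)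
    (hR : ∀ z a b : Fin n, R z a b ↔ (a ≠ z ∧ b ≠ z ∧ red (σ z) (σ a) = red (τ z) (τ b)))
    (x y : Fin n) (v : Bool × ℕ × ℕ) (h : Rel σ τ (false, σ x, σ y) v) :
    ∃ L : ℕ, ∃ s p q : ℕ → Fin n, p 0 = x ∧ q 0 = y ∧
      ((Even L ∧ v = (false, (σ (p L) : ℕ), (σ (q L) : ℕ))) ∨
        (Odd L ∧ v = (true, (τ (p L) : ℕ), (τ (q L) : ℕ)))) ∧
      ∀ i < L, (Even i → R (s i) (p i) (p (i + 1)) ∧ R (s i) (q i) (q (i + 1))) ∧
        (Odd i → R (s i) (p (i + 1)) (p i) ∧ R (s i) (q (i + 1)) (q i)) := by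
  induction h with
  | refl => exact ⟨0, fun _ => x, fun _ => x, fun _ => y, rfl, rfl, Or.inl ⟨by simp, rfl⟩, by simp⟩
  | @tail b c _ h2 ih =>
    obtain ⟨L, s, p, q, hp, hq, hv, hs⟩ := ih
    have key : ∃ z p' q' : Fin n,
        ((Even (L + 1) ∧ c = (false, (σ p' : ℕ), (σ q' : ℕ))) ∨
          (Odd (L + 1) ∧ c = (true, (τ p' : ℕ), (τ q' : ℕ)))) ∧
        (Even L → R z (p L) p' ∧ R z (q L) q') ∧ (Odd L → R z p' (p L) ∧ R z q' (q L)) := by
      obtain ⟨c1, c2, c3⟩ := c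
      rcases hv with ⟨hL, rfl⟩ | ⟨hL, rfl⟩
      · rcases h2 with h2 | h2
        · obtain ⟨-, e1, -, -, e2, e3, z, f1, f2, f3, f4, f5, f6⟩ := h2
          simp only at e1 e2 e3 f1 f2 f3 f4 f5 f6
          refine ⟨z, τ.symm ⟨c2, e2⟩, τ.symm ⟨c3, e3⟩, Or.inr ⟨hL.add_one, by simp [e1]⟩, ?_, ?_⟩
          · intro _
            rw [hR, hR]
            refine ⟨⟨?_, ?_, by simpa using f5⟩, ?_, ?_, by simpa using f6⟩
            · rintro rfl
              exact f1 rfl
            · rintro rfl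
              simp at f3
            · rintro rfl
              exact f2 rfl
            · rintro rfl
              simp at f4
          · intro h
            exact absurd hL (Nat.not_even_iff_odd.2 h)
        · exact absurd h2.2.1 (by simp)
      · rcases h2 with h2 | h2
        · exact absurd h2.1 (by simp)
        · obtain ⟨e1, -, e2, e3, -, -, z, f1, f2, f3, f4, f5, f6⟩ := h2
          simp only at e1 e2 e3 f1 f2 f3 f4 f5 f6
          refine ⟨z, σ.symm ⟨c2, e2⟩, σ.symm ⟨c3, e3⟩, Or.inl ⟨hL.add_one, by simp [e1]⟩, ?_, ?_⟩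
          · intro h
            exact absurd h (Nat.not_even_iff_odd.2 hL)
          · intro _
            rw [hR, hR]
            refine ⟨⟨?_, ?_, by simpa using f5⟩, ?_, ?_, by simpa using f6⟩
            · rintro rfl
              simp at f1
            · rintro rfl
              exact f3 rfl
            · rintro rfl
              simp at f2
            · rintro rfl
              exact f4 rfl
    obtain ⟨z, p', q', k1, k2⟩ := key
    refine ⟨L + 1, fun i => if i < L then s i else z, fun i => if i ≤ L then p i else p',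
      fun i => if i ≤ L then q i else q', by simpa using hp, by simpa using hq,
      by simpa using k1, ?_⟩
    intro i hi
    rcases Nat.lt_succ_iff_lt_or_eq.1 hi with h | rfl
    · simp only [if_pos h, if_pos h.le, if_pos (show i + 1 ≤ L from h)]
      exact hs i h
    · simpa using k2

theorem result :
  ∃ N : ℕ, ∀ n : ℕ, N ≤ n → ∀ σ τ : Equiv.Perm (Fin n),
    ∀ R : Fin n → Fin n → Fin n → Prop,
    (∀ z a b : Fin n, R z a b ↔
      (a ≠ z ∧ b ≠ z ∧
        (Finset.univ.filter (fun e : Fin n => e ≠ z ∧ σ e < σ a)).card =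
        (Finset.univ.filter (fun e : Fin n => e ≠ z ∧ τ e < τ b)).card)) →
    ∀ x y : Fin n, x ≠ y →
    ∃ k : ℕ, ∃ s : Fin (2 * k + 1) → Fin n, ∃ p q : Fin (2 * k + 1 + 1) → Fin n,
      p 0 = x ∧ q 0 = y ∧
      p (Fin.last (2 * k + 1)) = τ.symm (σ x) ∧
      q (Fin.last (2 * k + 1)) = τ.symm (σ y) ∧
      ∀ i : Fin (2 * k + 1),
        (Even i.val →
          R (s i) (p i.castSucc) (p i.succ) ∧ R (s i) (q i.castSucc) (q i.succ)) ∧
        (Odd i.val →
          R (s i) (p i.succ) (p i.castSucc) ∧ R (s i) (q i.succ) (q i.castSucc)) := by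
  refine ⟨20, fun n hn σ τ R hR => ?_⟩
  have hR' : ∀ z a b : Fin n, R z a b ↔ (a ≠ z ∧ b ≠ z ∧ red (σ z) (σ a) = red (τ z) (τ b)) := by
    intro z a b
    rw [hR, card_red, card_red]
  have main : ∀ x y : Fin n, σ x < σ y →
      ∃ k : ℕ, ∃ s : Fin (2 * k + 1) → Fin n, ∃ p q : Fin (2 * k + 1 + 1) → Fin n,
      p 0 = x ∧ q 0 = y ∧
      p (Fin.last (2 * k + 1)) = τ.symm (σ x) ∧
      q (Fin.last (2 * k + 1)) = τ.symm (σ y) ∧
      ∀ i : Fin (2 * k + 1),
        (Even i.val →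
          R (s i) (p i.castSucc) (p i.succ) ∧ R (s i) (q i.castSucc) (q i.succ)) ∧
        (Odd i.val →
          R (s i) (p i.succ) (p i.castSucc) ∧ R (s i) (q i.succ) (q i.castSucc)) := by
    intro x y hxy
    obtain ⟨L, s, p, q, hp, hq, hv, hs⟩ := seqs σ τ R hR' x y _
      (good σ τ hn (σ x) (σ y) hxy (σ y).isLt)
    rcases hv with ⟨-, h⟩ | ⟨⟨k, rfl⟩, h⟩
    · simp at h
    · simp only [Prod.mk.injEq, true_and] at h
      refine ⟨k, fun i => s i, fun i => p i, fun i => q i, hp, hq, ?_, ?_, fun i => hs i i.isLt⟩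
      · rw [Equiv.eq_symm_apply]
        exact Fin.ext h.1.symm
      · rw [Equiv.eq_symm_apply]
        exact Fin.ext h.2.symm
  intro x y hxy
  rcases lt_or_gt_of_ne (fun h => hxy (σ.injective h)) with h | h
  · exact main x y h
  · obtain ⟨k, s, p, q, h1, h2, h3, h4, h5⟩ := main y x h
    exact ⟨k, s, q, p, h2, h1, h4, h3, fun i => ⟨fun h => ((h5 i).1 h).symm,
      fun h => ((h5 i).2 h).symm⟩⟩

end Pool.Agent.S07641
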