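import Pool.Statements.S07644
import Pool.Agent.H.MP_22a609_co.A

set_option autoImplicit false
open Pool Pool.MP_22a609_co

namespace Pool.Agent.S07644

/-- The negation of the preceding statement: For every partition p of n, the order complex of the proper part of the poset of joins of shape-p set partitions, and the unit-sphere link of the orbit arrangement of p in R^n, are each empty or homotopy equivalent to a finite wedge of spheres. -/
theorem result :
    ¬ (∀ (n : ℕ) (p : Nat.Partition n),
      (IsEmpty {x : Setoid (Fin n) → ℝ |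
          (∀ t, 0 ≤ x t) ∧
          (∀ t, x t ≠ 0 →
            ((∃ S : Set (Setoid (Fin n)),
                (∀ s ∈ S, ∃ f : Fin n → ℕ, s = Setoid.ker f ∧
                  Multiset.map (fun a => (Finset.univ.filter (fun z => f z = a)).card)
                    (Finset.univ.image f).val = p.parts) ∧
                sSup S = t) ∧ t ≠ ⊥ ∧ t ≠ ⊤)) ∧
          (∑ᶠ t, x t) = 1 ∧
          (∀ a b, x a ≠ 0 → x b ≠ 0 → a ≤ b ∨ b ≤ a)} ∨
        ∃ (k : ℕ) (d : Fin k → ℕ),
          Nonempty (ContinuousMap.HomotopyEquiv
            {x : Setoid (Fin n) → ℝ |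
              (∀ t, 0 ≤ x t) ∧
              (∀ t, x t ≠ 0 →
                ((∃ S : Set (Setoid (Fin n)),
                    (∀ s ∈ S, ∃ f : Fin n → ℕ, s = Setoid.ker f ∧
                      Multiset.map (fun a => (Finset.univ.filter (fun z => f z = a)).card)
                        (Finset.univ.image f).val = p.parts) ∧
                    sSup S = t) ∧ t ≠ ⊥ ∧ t ≠ ⊤)) ∧
              (∑ᶠ t, x t) = 1 ∧
              (∀ a b, x a ≠ 0 → x b ≠ 0 → a ≤ b ∨ b ≤ a)}
            {y : (i : Fin k) → Fin (d i + 1) → ℝ |
              (∀ i, ∑ j, y i j ^ 2 = 1) ∧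
              ∀ i i', i ≠ i' → y i = Pi.single 0 1 ∨ y i' = Pi.single 0 1})) ∧
      (IsEmpty {v : Fin n → ℝ |
          ∑ i, v i ^ 2 = 1 ∧
          ∃ s : Setoid (Fin n),
            (∃ f : Fin n → ℕ, s = Setoid.ker f ∧
              Multiset.map (fun a => (Finset.univ.filter (fun z => f z = a)).card)
                (Finset.univ.image f).val = p.parts) ∧
            ∀ i j, s.r i j → v i = v j} ∨
        ∃ (k : ℕ) (d : Fin k → ℕ),
          Nonempty (ContinuousMap.HomotopyEquiv
            {v : Fin n → ℝ |
              ∑ i, v i ^ 2 = 1 ∧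
              ∃ s : Setoid (Fin n),
                (∃ f : Fin n → ℕ, s = Setoid.ker f ∧
                  Multiset.map (fun a => (Finset.univ.filter (fun z => f z = a)).card)
                    (Finset.univ.image f).val = p.parts) ∧
                ∀ i j, s.r i j → v i = v j}
            {y : (i : Fin k) → Fin (d i + 1) → ℝ |
              (∀ i, ∑ j, y i j ^ 2 = 1) ∧
              ∀ i i', i ≠ i' → y i = Pi.single 0 1 ∨ y i' = Pi.single 0 1}))) := by
  intro h
  exact Pool.Agent.H.MP_22a609_co.main (h 14 Pool.Agent.H.MP_5a3b5e_co.lam).1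

end Pool.Agent.S07644
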