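import Pool.Statements.S07661

set_option autoImplicit false
open Pool Pool.MP_238aad_co

namespace Pool.Agent.S07661

theorem seq (U : Ultrafilter ℕ) (Φ : ℕ → Set ℕ → Prop)
    (h : ∀ n (K : Set ℕ), Kᶜ ∈ U → ∃ G : Set ℕ, Disjoint K G ∧ Gᶜ ∈ U ∧ Φ n G) :
    ∃ (G : ℕ → Set ℕ) (b : ℕ), b < 2 ∧ (∀ i j, i ≠ j → Disjoint (G i) (G j)) ∧ (∀ n, Φ n (G n)) ∧
      (⋃ n, G (2 * n + b))ᶜ ∈ U := by
  choose F h1 h2 h3 using h
  let K : ℕ → {K : Set ℕ // Kᶜ ∈ U} := fun n => Nat.rec ⟨∅, by rw [Set.compl_empty]; exact Filter.univ_mem⟩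
    (fun n K => ⟨K.1 ∪ F n K.1 K.2, by
      rw [Set.compl_union]; exact Filter.inter_mem K.2 (h2 n K.1 K.2)⟩) n
  let G : ℕ → Set ℕ := fun n => F n (K n).1 (K n).2
  have hm : Monotone fun n => (K n).1 := monotone_nat_of_le_succ fun n => Set.subset_union_left
  have hd : ∀ i j, i < j → Disjoint (G i) (G j) := fun i j hij =>
    (h1 j _ _).mono_left ((show G i ⊆ (K (i + 1)).1 from Set.subset_union_right).trans (hm hij))
  have hd' : ∀ i j, i ≠ j → Disjoint (G i) (G j) := fun i j hij =>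
    hij.lt_or_gt.elim (hd i j) fun h => (hd j i h).symm
  by_cases h0 : (⋃ n, G (2 * n + 0))ᶜ ∈ U
  · exact ⟨G, 0, by omega, hd', fun n => h3 n _ _, h0⟩
  · refine ⟨G, 1, by omega, hd', fun n => h3 n _ _, ?_⟩
    rw [Ultrafilter.compl_mem_iff_notMem, not_not] at h0
    refine Filter.mem_of_superset h0 (Set.disjoint_left.1 ?_)
    simp only [Set.disjoint_iUnion_left, Set.disjoint_iUnion_right]
    exact fun i j => hd' _ _ (by omega)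

theorem key (U : Ultrafilter ℕ) (hU : ∀ n : ℕ, ({n} : Set ℕ)ᶜ ∈ U) (R : Set ℕ → ℕ → Prop)
    (hm : ∀ X Y z, X ⊆ Y → Yᶜ ∈ U → R X z → R Y z) (hn : ∀ X, Xᶜ ∈ U → {z | R X z}ᶜ ∈ U) :
    ∃ (G : ℕ → Set ℕ) (z : ℕ → ℕ), (∀ i j, i ≠ j → Disjoint (G i) (G j)) ∧ (∀ n, z n ∈ G n) ∧
      (⋃ n, G n)ᶜ ∈ U ∧ ∀ n X, Xᶜ ∈ U → Disjoint X (G n) → ¬ R X (z n) := by
  have hT : ∀ K : Set ℕ, Kᶜ ∈ U →
      {z | ∀ M : Set ℕ, Mᶜ ∈ U → ∃ D : Set ℕ, Disjoint M D ∧ Dᶜ ∈ U ∧ R (K ∪ D) z}ᶜ ∈ U := by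
    intro K hK
    obtain ⟨G, b, hb, -, h2, h3⟩ := seq U (fun n D =>
      (∀ M : Set ℕ, Mᶜ ∈ U → ∃ D : Set ℕ, Disjoint M D ∧ Dᶜ ∈ U ∧ R (K ∪ D) (n / 2)) →
        R (K ∪ D) (n / 2)) (fun n M hM => by
      by_cases h : ∀ M : Set ℕ, Mᶜ ∈ U → ∃ D : Set ℕ, Disjoint M D ∧ Dᶜ ∈ U ∧ R (K ∪ D) (n / 2)
      · obtain ⟨D, a1, a2, a3⟩ := h M hM
        exact ⟨D, a1, a2, fun _ => a3⟩
      · exact ⟨∅, by simp, by rw [Set.compl_empty]; exact Filter.univ_mem, fun h' => absurd h' h⟩)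
    have h4 : (K ∪ ⋃ n, G (2 * n + b))ᶜ ∈ U := by
      rw [Set.compl_union]; exact Filter.inter_mem hK h3
    refine Filter.mem_of_superset (hn _ h4) (Set.compl_subset_compl.2 fun z hz => ?_)
    have := h2 (2 * z + b)
    rw [show (2 * z + b) / 2 = z by omega] at this
    exact hm _ _ _ (Set.union_subset_union_right _
      (Set.subset_iUnion (fun n => G (2 * n + b)) z)) h4 (this hz)
  obtain ⟨G, b, -, h1, h2, h3⟩ := seq U
    (fun _ G => ∃ z ∈ G, ∀ X, Xᶜ ∈ U → Disjoint X G → ¬ R X z) (fun _ K hK => by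
    obtain ⟨z, hz1, hz2⟩ := U.nonempty_of_mem (Filter.inter_mem hK (hT K hK))
    simp only [Set.mem_compl_iff, Set.mem_ofPred_eq, not_forall, not_exists, not_and] at hz2
    obtain ⟨M, hM, hz2⟩ := hz2
    refine ⟨({z} ∪ M) \ K, Set.disjoint_sdiff_right, ?_, z, ⟨Or.inl rfl, hz1⟩, fun X hX hd hR => ?_⟩
    · refine Filter.mem_of_superset (Filter.inter_mem (hU z) hM) fun x hx hx' => ?_
      exact hx'.1.elim hx.1 hx.2
    · have h5 : (X \ K)ᶜ ∈ U :=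
        Filter.mem_of_superset hX (Set.compl_subset_compl.2 Set.sdiff_subset)
      refine hz2 (X \ K) (Set.disjoint_left.2 fun x hx hx' =>
        Set.disjoint_left.1 hd hx'.1 ⟨Or.inr hx, hx'.2⟩) h5 (hm _ _ _ ?_ ?_ hR)
      · rw [Set.union_sdiff_self]; exact Set.subset_union_right
      · rw [Set.compl_union]; exact Filter.inter_mem hK h5)
  choose z a1 a2 using h2
  exact ⟨fun n => G (2 * n + b), fun n => z (2 * n + b), fun i j hij => h1 _ _ (by omega),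
    fun n => a1 _, h3, fun n => a2 _⟩

theorem result :
    ∀ U : Ultrafilter ℕ, (∀ n : ℕ, U ≠ pure n) →
      ∀ f : {s : Set ℕ // s ∈ U} → {s : Set ℕ // s ∈ U}, Monotone f →
        (¬ ∃ y : {s : Set ℕ // s ∈ U}, y ∈ Set.range f ∧
            ∀ c : {s : Set ℕ // s ∈ U},
              (c.1 ≠ Set.univ ∧ ∀ t : {s : Set ℕ // s ∈ U}, c.1 ⊆ t.1 → t.1 = c.1 ∨ t.1 = Set.univ) →
              y ≤ f c) →
        ∃ g : ↥(Set.range f) → {s : Set ℕ // s ∈ U},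
          ∃ h : {s : Set ℕ // s ∈ U} → ↥(Set.range f),
            Monotone g ∧ Monotone h ∧ ∀ x, g (h x) = x := by
  intro U hU0 f hf hno
  have hU : ∀ n : ℕ, ({n} : Set ℕ)ᶜ ∈ U := fun n => by
    rw [Ultrafilter.compl_mem_iff_notMem]
    exact fun h => hU0 n (Ultrafilter.eq_of_le (Filter.le_pure_iff.2 h))
  let q : ℕ → {s : Set ℕ // s ∈ U} := fun n => f ⟨{n}ᶜ, hU n⟩
  have hq : ∀ (A : {s : Set ℕ // s ∈ U}) (n : ℕ), n ∉ A.1 → f A ≤ q n := fun A n h =>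
    hf (show A.1 ⊆ {n}ᶜ from Set.subset_compl_singleton_iff.2 h)
  have hA : ∀ B, {n | f B ≤ q n}ᶜ ∈ U := by
    intro B
    rw [Ultrafilter.compl_mem_iff_notMem]
    intro h
    refine hno ⟨f ⟨B.1 ∩ {n | f B ≤ q n}, Filter.inter_mem B.2 h⟩, ⟨_, rfl⟩, fun c hc => ?_⟩
    obtain ⟨n, hn⟩ := (Set.ne_univ_iff_exists_notMem _).1 hc.1
    have e : (⟨{n}ᶜ, hU n⟩ : {s : Set ℕ // s ∈ U}) = c := by
      refine Subtype.ext ((hc.2 ⟨{n}ᶜ, hU n⟩ (Set.subset_compl_singleton_iff.2 hn)).resolve_right ?_)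
      exact (Set.ne_univ_iff_exists_notMem _).2 ⟨n, by simp⟩
    rw [← e]
    by_cases h' : f B ≤ q n
    · exact (hf (show B.1 ∩ _ ⊆ B.1 from Set.inter_subset_left)).trans h'
    · exact hq _ n fun h => h' h.2
  obtain ⟨G, z, h1, h2, h3, h4⟩ := key U hU (fun X z => ∃ h : Xᶜ ∈ U, f ⟨Xᶜ, h⟩ ≤ q z)
    (fun X Y z hXY hY ⟨hX, h⟩ => ⟨hY, (hf (show Yᶜ ⊆ Xᶜ from Set.compl_subset_compl.2 hXY)).trans h⟩)
    (fun X hX => Filter.mem_of_superset (hA ⟨Xᶜ, hX⟩)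
      (Set.compl_subset_compl.2 fun z ⟨_, h⟩ => h))
  let E : Set ℕ → Set ℕ := fun A => ((⋃ n, G n)ᶜ \ A) ∪ z '' Aᶜ
  have hE : ∀ A ∈ U, (E A)ᶜ ∈ U := fun A hA => by
    refine Filter.mem_of_superset (Filter.inter_mem hA h3) ?_
    rintro x ⟨a, b⟩ (c | ⟨m, -, rfl⟩)
    · exact c.2 a
    · exact b (Set.mem_iUnion.2 ⟨m, h2 m⟩)
  refine ⟨fun y => ⟨{n | ¬ ((n ∈ (⋃ n, G n)ᶜ → y.1 ≤ q n) ∧ y.1 ≤ q (z n))}, ?_⟩,
    fun A => ⟨f ⟨(E A.1)ᶜ, hE _ A.2⟩, _, rfl⟩, fun x y hxy n hn hh => ?_, fun A B hAB => ?_,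
    fun A => Subtype.ext (Set.ext fun n => ?_)⟩
  · obtain ⟨B, hB⟩ := y.2
    rw [← hB]
    exact Filter.mem_of_superset (Filter.inter_mem h3 (hA B)) fun n hn hh => hn.2 (hh.1 hn.1)
  · have : x.1 ≤ y.1 := hxy
    exact hn ⟨fun h => this.trans (hh.1 h), this.trans hh.2⟩
  · refine hf (show (E A.1)ᶜ ⊆ (E B.1)ᶜ from Set.compl_subset_compl.2 ?_)
    exact Set.union_subset_union (Set.sdiff_subset_sdiff_right hAB)
      (Set.image_mono (Set.compl_subset_compl.2 hAB))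
  · constructor
    · intro h
      by_contra hn
      exact h ⟨fun h' => hq _ _ fun hh => hh (Or.inl ⟨h', hn⟩),
        hq _ _ fun hh => hh (Or.inr ⟨n, hn, rfl⟩)⟩
    · intro hn hh
      refine h4 n (E A.1) (hE _ A.2) (Set.disjoint_left.2 ?_) ⟨_, hh.2⟩
      rintro x (c | ⟨m, hm, rfl⟩) hx
      · exact c.1 (Set.mem_iUnion.2 ⟨n, hx⟩)
      · exact Set.disjoint_left.1 (h1 m n fun e => hm (e ▸ hn)) (h2 m) hx

end Pool.Agent.S07661
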