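import Pool.Statements.S07687
import Pool.Agent.H.MP_248d64_co.B

set_option autoImplicit false
open Pool Pool.MP_248d64_co

namespace Pool.Agent.S07687

theorem result :
    ∃ c : ℝ, 0 < c ∧ ∀ t : ℕ, 3 ≤ t → ∀ n : ℕ, ∀ F : Finset (SimpleGraph (Fin n)),
      (∀ G ∈ F, ∀ H ∈ F, (t : ℕ∞) ≤ (G ⊓ H).chromaticNumber) →
        (F.card : ℝ) ≤ (2 : ℝ) ^ ((n.choose 2 : ℝ) - c * (t : ℝ) ^ 2) := by
  exact ⟨1 / 48, by norm_num, Pool.Agent.H.MP_248d64_co.main⟩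

end Pool.Agent.S07687
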