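import Pool.Statements.S07719
import Pool.Agent.H.MP_25e1d2_co.A

set_option autoImplicit false
open Pool Pool.MP_25e1d2_co
open Pool.Agent.H.MP_25e1d2_co Filter

namespace Pool.Agent.S07719

theorem result :
    ∀ (k : ℕ) (c : ℕ → Fin k), ∃ y : ℕ → ℕ, (∀ n, 0 < y n) ∧
      ∃ col : Fin k,
        (∀ s : Finset ℕ, s.Nonempty → c (∑ i ∈ s, y i) = col) ∧
        (∀ n : ℕ, c (y n + 2 * y (n + 1) + y (n + 2)) = col) := by
  intro k c
  obtain ⟨w, e, hp, h0, h1, h2, h3, h4⟩ := exists_omega
  obtain ⟨col, hcol⟩ := (e.map fun z => c z.toNat).eq_pure_of_finite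
  have hC : ∀ᶠ z in (e : Filter ℤ), c z.toNat = col := by
    have : {col} ∈ e.map fun z => c z.toNat := by rw [hcol]; simp
    filter_upwards [this] with z hz
    simpa using hz
  obtain ⟨x, hx, h⟩ := exists_seq (fun z => c z.toNat = col) w e hp h0 h1 h2 h3 h4 hC
  have hy : ∀ n, (((x n).1 + (x (n + 1)).2).toNat : ℤ) = (x n).1 + (x (n + 1)).2 :=
    fun n => Int.toNat_of_nonneg (hx n).le
  refine ⟨fun n => ((x n).1 + (x (n + 1)).2).toNat, fun n => by have := hx n; simp only; omega,
    col, fun s hs => ?_, fun n => ?_⟩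
  · have hN := s.max'_mem hs
    have hle : ∀ i ∈ s, i ≤ s.max' hs := fun i hi => s.le_max' i hi
    generalize s.max' hs = N at hN hle
    have hN1 : N + 1 ∉ s := fun h => by have := hle _ h; omega
    have := h (fun j => if j ≤ N + 1 then 0 else 2)
      (fun j => (if j ∈ s then 1 else 0, if j ≠ 0 ∧ j - 1 ∈ s then 1 else 0)) (N + 2)
      (by simp) (by simp) (by
        intro j hj
        by_cases h1 : j = N + 1
        · subst h1
          simp [tr, hN, hN1]
        · have h2 : j ≤ N + 1 := by omega
          have h3 : j + 1 ≤ N + 1 := by omega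
          simp only [h2, h3, if_true]
          split_ifs <;> simp [tr])
    rw [← this]
    congr 1
    have e1 : ∑ j ∈ Finset.range (N + 2), fm (if j ∈ s then 1 else 0)
        (if j ≠ 0 ∧ j - 1 ∈ s then 1 else 0) (x j)
        = ((∑ i ∈ s, ((x i).1 + (x (i + 1)).2).toNat : ℕ) : ℤ) := by
      push_cast
      simp only [hy, fm_apply, Finset.sum_add_distrib]
      have hsub : Finset.range (N + 1) ∩ s = s :=
        Finset.inter_eq_right.2 fun i hi => Finset.mem_range.2 (Nat.lt_succ_of_le (hle i hi))
      congr 1
      · rw [Finset.sum_range_succ]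
        simp [hN1, Finset.sum_ite_mem, hsub]
      · rw [Finset.sum_range_succ']
        simp [Finset.sum_ite_mem, hsub]
    rw [e1, Int.toNat_natCast]
  · have := h (fun j => if j = n + 2 then 1 else if j = n + 4 then 2 else 0)
      (fun j => if j = n then (1, 0) else if j = n + 1 then (2, 1) else if j = n + 2 then (1, 2)
        else if j = n + 3 then (0, 1) else (0, 0)) (n + 4)
      (by simp) (by simp) (by
        intro j hj
        by_cases h1 : j = n
        · subst h1; simp [tr]
        by_cases h2 : j = n + 1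
        · subst h2; simp [tr]
        by_cases h3 : j = n + 2
        · subst h3; simp [tr]
        by_cases h4 : j = n + 3
        · subst h4; simp [tr]
        have h5 : j + 1 ≠ n + 2 := by omega
        have h6 : j + 1 ≠ n + 4 := by omega
        have h7 : j ≠ n + 4 := by omega
        simp [tr, h1, h2, h3, h4, h5, h6, h7])
    rw [← this]
    congr 1
    have e0 : ∀ f : ℕ → ℤ, (∀ j < n, f j = 0) →
        ∑ j ∈ Finset.range (n + 4), f j = f n + f (n + 1) + f (n + 2) + f (n + 3) := by
      intro f hf
      simp only [Finset.sum_range_succ]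
      rw [Finset.sum_eq_zero fun j hj => hf j (Finset.mem_range.1 hj), zero_add]
    rw [e0 _ (by
      intro j hj
      have h1 : j ≠ n := by omega
      have h2 : j ≠ n + 1 := by omega
      have h3 : j ≠ n + 2 := by omega
      have h4 : j ≠ n + 3 := by omega
      simp [h1, h2, h3, h4])]
    have a1 := hx n
    have a2 := hx (n + 1)
    have a3 := hx (n + 2)
    simp
    simp only [add_assoc] at a1 a2 a3 ⊢
    norm_num at a1 a2 a3 ⊢
    omega

end Pool.Agent.S07719
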