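import Pool.Statements.S07755
import Pool.Agent.H.MP_284e51_co.Fermi

set_option autoImplicit false
open Matrix
open Pool Pool.MP_284e51_co
open Pool.Agent.H.MP_284e51_co

namespace Pool.Agent.S07755

theorem result :
    ∀ (n : ℕ) (K : Finset (Finset (Fin n))),
      (∀ s ∈ K, ∀ t : Finset (Fin n), t ⊆ s → t.Nonempty → t ∈ K) →
      ∀ D : ℕ → Matrix (Finset (Fin n)) (Finset (Fin n)) ℝ,
        (∀ (m : ℕ) (t s : Finset (Fin n)),
          D m t s =
            if s ∈ K ∧ s.card = m then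
              ∑ v ∈ s, (if t = s.erase v then
                (-1 : ℝ) ^ (Finset.filter (fun w => w < v) s).card else 0)
            else 0) →
        ∀ k : ℕ, 1 ≤ k →
          ∀ c : ℝ,
            (∀ y : Finset (Fin n) → ℝ,
              (D (k + 1) *ᵥ y) ⬝ᵥ (D (k + 1) *ᵥ y) ≤ c * (y ⬝ᵥ y)) →
            ∀ x : Finset (Fin n) → ℝ,
              (D (k + 2) *ᵥ x) ⬝ᵥ (D (k + 2) *ᵥ x) ≤ c * (x ⬝ᵥ x) := by
  intro n K hK D hD k hk c hc x
  have hT : ∀ (m : ℕ) (z : Finset (Fin n) → ℝ) (s : Finset (Fin n)),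
      (z ᵥ* D m) s = if s ∈ K ∧ s.card = m then WW z s else 0 := by
    intro m z s
    simp only [Matrix.vecMul, dotProduct, hD]
    split_ifs with h
    · unfold WW
      rw [Finset.sum_apply]
      simp only [Finset.mul_sum]
      rw [Finset.sum_comm]
      unfold wd
      rw [Finset.sum_ite_mem, Finset.univ_inter]
      refine Finset.sum_congr rfl fun v _ => ?_
      simp only [mul_ite, mul_zero, Finset.sum_ite_eq', Finset.mem_univ, if_true]
      unfold eps
      ring
    · simp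
  have hc0 : 0 ≤ c := by
    have h1 := hc (fun _ => 1)
    have h2 : 0 ≤ (D (k + 1) *ᵥ (fun _ => (1 : ℝ))) ⬝ᵥ (D (k + 1) *ᵥ (fun _ => (1 : ℝ))) :=
      Finset.sum_nonneg fun i _ => mul_self_nonneg _
    have h3 : (0 : ℝ) < (fun _ : Finset (Fin n) => (1 : ℝ)) ⬝ᵥ (fun _ => (1 : ℝ)) := by
      simp [dotProduct]
    by_contra hneg
    push Not at hneg
    nlinarith
  have hsq : ∀ (m : ℕ) (z : Finset (Fin n) → ℝ), (z ᵥ* D m) ⬝ᵥ (z ᵥ* D m) =
      ∑ t, (if t ∈ K ∧ t.card = m then WW z t * WW z t else 0) := by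
    intro m z
    unfold dotProduct
    refine Finset.sum_congr rfl fun t _ => ?_
    rw [hT]
    split_ifs <;> simp
  have hcT : ∀ f : Finset (Fin n) → ℝ,
      ∑ t, (if t ∈ K ∧ t.card = k + 1 then WW f t * WW f t else 0) ≤ c * (f ⬝ᵥ f) := by
    intro f
    rw [← hsq]
    refine cs_step f (D (k + 1) *ᵥ (f ᵥ* D (k + 1))) c _ hc0
      (Finset.sum_nonneg fun i _ => mul_self_nonneg _) ?_ (hc _)
    rw [Matrix.dotProduct_mulVec]
  set x' : Finset (Fin n) → ℝ := fun s => if s ∈ K ∧ s.card = k + 2 then x s else 0 with hx'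
  have hψ : D (k + 2) *ᵥ x = BB x' := by
    apply dotProduct_eq
    intro z
    rw [adjBW, dotProduct_comm, Matrix.dotProduct_mulVec]
    unfold dotProduct
    refine Finset.sum_congr rfl fun s _ => ?_
    rw [hT, hx']
    by_cases h : s ∈ K ∧ s.card = k + 2
    · simp only [h, and_self, if_true]; ring
    · simp [h]
  have hr : ∀ s : Finset (Fin n), (s ∈ K ∧ s.card = k + 2) →
      s.card = k + 1 + 1 ∧ ∀ v ∈ s, (s.erase v ∈ K ∧ (s.erase v).card = k + 1) := by
    intro s hs
    refine ⟨hs.2, fun v hv => ?_⟩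
    have hcard : (s.erase v).card = k + 1 := by
      rw [Finset.card_erase_of_mem hv, hs.2]; rfl
    exact ⟨hK s hs.1 _ (Finset.erase_subset _ _) (Finset.card_pos.1 (by omega)), hcard⟩
  have hsupp : ∀ t : Finset (Fin n), ¬ (t ∈ K ∧ t.card = k + 1) → BB x' t = 0 := by
    intro t ht
    unfold BB
    rw [Finset.sum_apply]
    refine Finset.sum_eq_zero fun v _ => ?_
    unfold cr
    split_ifs with hv
    · rfl
    · have : ¬ (insert v t ∈ K ∧ (insert v t).card = k + 2) := by
        intro h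
        have := (hr _ h).2 v (Finset.mem_insert_self _ _)
        rw [Finset.erase_insert hv] at this
        exact ht this
      simp only [hx', this, if_false, mul_zero]
  have hcore := core (fun t => t ∈ K ∧ t.card = k + 1) (fun s => s ∈ K ∧ s.card = k + 2) (k + 1)
    (fun t ht => ht.2) hr (by omega) c hcT (BB x') (BB_BB x') hsupp
  rw [← hsq, ← hψ] at hcore
  refine cs_step x ((D (k + 2) *ᵥ x) ᵥ* D (k + 2)) c _ hc0
    (Finset.sum_nonneg fun i _ => mul_self_nonneg _) ?_ hcore
  rw [Matrix.dotProduct_mulVec, dotProduct_comm]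


end Pool.Agent.S07755
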