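import Pool.Statements.S07792
import Pool.Agent.H.MP_29e5d4_co.G

set_option autoImplicit false
open Pool Pool.MP_29e5d4_co

namespace Pool.Agent.S07792

open Pool.Agent.H.MP_29e5d4_co

theorem result :
    ¬ (∀ (V : Type) [Fintype V] [DecidableEq V] (G : SimpleGraph V) [DecidableRel G.Adj]
      (γ : SimpleGraph V → Set V → ℕ),
      (∀ (H : SimpleGraph V) (S : Set V),
        γ H S = sInf {n : ℕ | ∃ D : Finset V, (↑D : Set V) ⊆ S ∧ D.card = n ∧
          ∀ w ∈ S, w ∈ D ∨ ∃ u ∈ D, H.Adj u w}) →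
      (∀ v : V, γ G {w | w ≠ v} < γ G Set.univ) →
      ∀ E' : Finset (Sym2 V), (↑E' : Set (Sym2 V)) ⊆ G.edgeSet →
        E'.card ≤ G.minDegree →
        γ (G.deleteEdges (↑E' : Set (Sym2 V))) Set.univ ≤ γ G Set.univ) := by
  intro h
  let γ : SimpleGraph (Fin 24) → Set (Fin 24) → ℕ := fun H S =>
    sInf {n : ℕ | ∃ D : Finset (Fin 24), (↑D : Set (Fin 24)) ⊆ S ∧ D.card = n ∧
          ∀ w ∈ S, w ∈ D ∨ ∃ u ∈ D, H.Adj u w}
  have low : ∀ (H : SimpleGraph (Fin 24)) (k : ℕ),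
      (∀ D : Finset (Fin 24), (∀ w, w ∈ D ∨ ∃ u ∈ D, H.Adj u w) → k < D.card) →
      k < γ H Set.univ := by
    intro H k hk
    have hne : {n : ℕ | ∃ D : Finset (Fin 24), (↑D : Set (Fin 24)) ⊆ Set.univ ∧ D.card = n ∧
          ∀ w ∈ (Set.univ : Set (Fin 24)), w ∈ D ∨ ∃ u ∈ D, H.Adj u w}.Nonempty :=
      ⟨_, Finset.univ, by simp, rfl, by simp⟩
    obtain ⟨D, _, h2, h3⟩ := Nat.sInf_mem hne
    have := hk D (fun w => h3 w (Set.mem_univ w))
    show k < sInf _
    omega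
  have a1 : 5 < γ G Set.univ := low G 5 low1
  have a2 : 6 < γ (G.deleteEdges (↑F : Set (Sym2 (Fin 24)))) Set.univ := low _ 6 low2
  have a3 : γ G Set.univ ≤ 6 :=
    Nat.sInf_le ⟨D6, by simp, up2.1, fun w _ => up2.2 w⟩
  have a4 : ∀ v : Fin 24, γ G {w | w ≠ v} < γ G Set.univ := by
    intro v
    obtain ⟨b1, b2, b3⟩ := up1 v
    have c1 : γ G {w | w ≠ v} ≤ (Dv v).toFinset.card := by
      refine Nat.sInf_le ⟨(Dv v).toFinset, ?_, rfl, ?_⟩
      · intro u hu
        exact b2 u (by simpa using hu)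
      · intro w hw
        simpa using b3 w hw
    have c2 := List.toFinset_card_le (Dv v)
    omega
  have a5 : F.card ≤ G.minDegree := by
    have := G.le_minDegree_of_forall_le_degree 4 deg
    have := F_card
    omega
  have := h (Fin 24) G γ (fun _ _ => rfl) a4 F (fun e he => F_sub e he) a5
  omega

end Pool.Agent.S07792
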