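import Pool.Statements.S07802
import Pool.Agent.H.MP_2a19ed_co.G

set_option autoImplicit false
open scoped InnerProductSpace
open Pool Pool.MP_2a19ed_co

namespace Pool.Agent.S07802

theorem result :
    ¬ (∃ d₀ : ℕ, ∀ d : ℕ, d₀ ≤ d →
    IsMeagre {K : {K : TopologicalSpace.NonemptyCompacts (EuclideanSpace ℝ (Fin d)) //
        Convex ℝ (K : Set (EuclideanSpace ℝ (Fin d))) ∧
        (interior (K : Set (EuclideanSpace ℝ (Fin d)))).Nonempty ∧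
        ∀ x ∈ (K : Set (EuclideanSpace ℝ (Fin d))), -x ∈ (K : Set (EuclideanSpace ℝ (Fin d)))} |
      ¬ ((∀ x ∈ frontier (K.1 : Set (EuclideanSpace ℝ (Fin d))),
            ∃! u : EuclideanSpace ℝ (Fin d), ‖u‖ = 1 ∧
              ∀ y ∈ (K.1 : Set (EuclideanSpace ℝ (Fin d))), ⟪y - x, u⟫_ℝ ≤ 0) ∧
        ∀ (Λ : Module.Basis (Fin d) ℝ (EuclideanSpace ℝ (Fin d)) → Set (EuclideanSpace ℝ (Fin d))),
          (∀ b, Λ b = (Submodule.span ℤ (Set.range ⇑b) : Set (EuclideanSpace ℝ (Fin d)))) →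
        ∀ (lam : Module.Basis (Fin d) ℝ (EuclideanSpace ℝ (Fin d)) → ℝ),
          (∀ b, lam b = sInf (gauge (K.1 : Set (EuclideanSpace ℝ (Fin d))) '' (Λ b \ {0}))) →
        ∀ (ρ : Module.Basis (Fin d) ℝ (EuclideanSpace ℝ (Fin d)) → ℝ),
          (∀ b, ρ b = lam b ^ d / |(EuclideanSpace.basisFun (Fin d) ℝ).toBasis.det ⇑b|) →
        ∀ b : Module.Basis (Fin d) ℝ (EuclideanSpace ℝ (Fin d)), (∀ b', ρ b' ≤ ρ b) →
        ∀ M : Set (EuclideanSpace ℝ (Fin d)),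
          M = {l | l ∈ Λ b ∧ l ≠ 0 ∧ gauge (K.1 : Set (EuclideanSpace ℝ (Fin d))) l = lam b} →
          (∀ b', (∀ b'', ρ b'' ≤ ρ b') →
              ∃ α : ℝ, 0 < α ∧ Λ b' = (fun y => α • y) '' Λ b) ∧
          (∃ u : EuclideanSpace ℝ (Fin d) → EuclideanSpace ℝ (Fin d),
              (∀ l ∈ M, ‖u l‖ = 1 ∧
                ∀ y ∈ (K.1 : Set (EuclideanSpace ℝ (Fin d))), ⟪y, u l⟫_ℝ ≤ ⟪l, u l⟫_ℝ / lam b) ∧
              (∃ c : EuclideanSpace ℝ (Fin d) → ℝ, (∀ l ∈ M, 0 < c l) ∧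
                ∑ᶠ l ∈ M, c l • (innerSL ℝ ((⟪l, u l⟫_ℝ)⁻¹ • l)).smulRight (u l)
                  = ContinuousLinearMap.id ℝ (EuclideanSpace ℝ (Fin d))) ∧
              Submodule.span ℝ
                ((fun l => (innerSL ℝ ((⟪l, u l⟫_ℝ)⁻¹ • l)).smulRight (u l)) '' M) = ⊤) ∧
          M.ncard = 2 * d ^ 2)}) := by
  rintro ⟨d₀, h⟩
  have hd := le_max_right d₀ 2
  have h := h _ (le_max_left d₀ 2)
  generalize max d₀ 2 = d at hd h
  obtain ⟨K, hK, h0, A, a1, a2, a3, a4⟩ := H.MP_2a19ed_co.main hd (EuclideanSpace.equiv (Fin d) ℝ)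
    isometry_subtype_coe (fun K => by rw [Subtype.range_coe_subtype]; rfl) h
  obtain ⟨b, b1, b2⟩ := H.MP_2a19ed_co.fin (by omega) K.2.1 K.1.isCompact.isClosed h0 a1 a2 a3 _
    (fun _ => rfl) _ fun _ => rfl
  refine hK fun k => a4.ne ?_
  rw [← b2]
  exact (k.2 _ (fun _ => rfl) _ (fun _ => rfl) _ (fun _ => rfl) b b1 _ rfl).2.2

end Pool.Agent.S07802
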