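import Pool.Statements.S07814
import Pool.Agent.H.MP_2ae84e_co.A

set_option autoImplicit false
open Pool Pool.MP_2ae84e_co

namespace Pool.Agent.S07814

/-- The negation of the preceding statement: For every finite connected graph with as many edges as vertices and every spanning tree of it, if the tree has a resolving partition into k nonempty classes, the graph has one into at most k+1 classes; i.e. pd(G) ≤ pd(T)+1. -/
theorem result :
    ¬ (∀ (V : Type) [Fintype V] (G T : SimpleGraph V),
      G.Connected → Nat.card G.edgeSet = Nat.card V → T ≤ G → T.IsTree →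
      ∀ k : ℕ,
        (∃ f : V → Fin k, Function.Surjective f ∧
          ∀ u w : V,
            (∀ i : Fin k,
              sInf ((fun v => T.dist u v) '' {v | f v = i}) =
              sInf ((fun v => T.dist w v) '' {v | f v = i})) → u = w) →
        ∃ m : ℕ, m ≤ k + 1 ∧
          ∃ g : V → Fin m, Function.Surjective g ∧
            ∀ u w : V,
              (∀ i : Fin m,
                sInf ((fun v => G.dist u v) '' {v | g v = i}) =
                sInf ((fun v => G.dist w v) '' {v | g v = i})) → u = w) := by
  intro h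
  obtain ⟨m, hm, g, hg, hr⟩ := h Pool.Agent.H.MP_2ae84e_co.W Pool.Agent.H.MP_2ae84e_co.GG
    Pool.Agent.H.MP_2ae84e_co.TT Pool.Agent.H.MP_2ae84e_co.GG_conn
    Pool.Agent.H.MP_2ae84e_co.GG_card Pool.Agent.H.MP_2ae84e_co.TT_le
    Pool.Agent.H.MP_2ae84e_co.TT_tree 17
    ⟨Pool.Agent.H.MP_2ae84e_co.cl, Pool.Agent.H.MP_2ae84e_co.cl_surj,
      Pool.Agent.H.MP_2ae84e_co.TT_res⟩
  exact Pool.Agent.H.MP_2ae84e_co.no_res m hm g hg hr

end Pool.Agent.S07814
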