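import Pool.Statements.S07816
import Pool.Agent.H.MP_2afb6f_co.B

set_option autoImplicit false
open Matrix
open scoped Classical
open Pool Pool.MP_2afb6f_co

namespace Pool.Agent.S07816

/-- The negation of the preceding statement: For a finite graph family with min chromatic number p+1, p ≥ 2, if some member embeds in a complete p-partite graph plus a matching inside one part, then for all large n every H-free n-vertex graph of maximum spectral radius also has the maximum edge count. -/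
theorem result :
    ¬ (∀ (m : ℕ) (k : Fin m → ℕ) (F : ∀ i : Fin m, SimpleGraph (Fin (k i))) (p : ℕ),
      2 ≤ p →
      (∃ i : Fin m, (F i).chromaticNumber = ((p + 1 : ℕ) : ℕ∞)) →
      (∀ i : Fin m, ((p + 1 : ℕ) : ℕ∞) ≤ (F i).chromaticNumber) →
      (∃ i : Fin m, ∃ N : ℕ, (F i).IsContained
        (SimpleGraph.fromRel (fun u v : Fin p × Fin N =>
          u.1 ≠ v.1 ∨ (u.1.val = 0 ∧ v.1.val = 0 ∧ u.2.val / 2 = v.2.val / 2)))) →
      ∃ N0 : ℕ, ∀ n : ℕ, N0 ≤ n → ∀ G : SimpleGraph (Fin n),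
        ((∀ i : Fin m, ¬ (F i).IsContained G) ∧
          ∀ G' : SimpleGraph (Fin n), (∀ i : Fin m, ¬ (F i).IsContained G') →
            ∀ x : Fin n → ℝ, x ≠ 0 → ∃ y : Fin n → ℝ, y ≠ 0 ∧
              (x ⬝ᵥ (G'.adjMatrix ℝ *ᵥ x)) * (y ⬝ᵥ y) ≤
                (y ⬝ᵥ (G.adjMatrix ℝ *ᵥ y)) * (x ⬝ᵥ x)) →
        ((∀ i : Fin m, ¬ (F i).IsContained G) ∧
          ∀ G' : SimpleGraph (Fin n), (∀ i : Fin m, ¬ (F i).IsContained G') →
            G'.edgeSet.ncard ≤ G.edgeSet.ncard)) := by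
  open Pool.Agent.H.MP_2afb6f_co in
  intro h
  obtain ⟨K, hK, hs⟩ := small
  let J := Σ k : Fin (K + 1), {H : SimpleGraph (Fin k) // ¬ P H}
  let e := (Fintype.equivFin J).symm
  have fr : ∀ (n : ℕ) (G : SimpleGraph (Fin n)), (∀ i, ¬ (e i).2.1.IsContained G) ↔ P G :=
    fun n G => ⟨fun h => by_contra fun c => by
      obtain ⟨k, hk, H, h1, h2⟩ := hs _ G c
      have := h (e.symm ⟨⟨k, by omega⟩, H, h1⟩)
      rw [e.apply_symm_apply] at this
      exact this h2, fun h i c => (e i).2.2 (h.mono c)⟩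
  have ex : ∀ Q : ∀ k, SimpleGraph (Fin k) → Prop, Q 12 H0 → ∃ i, Q _ (e i).2.1 := fun Q h =>
    ⟨e.symm ⟨⟨12, by omega⟩, H0, nP_H⟩, by rw [e.apply_symm_apply]; exact h⟩
  obtain ⟨N, hN⟩ := h _ (fun i => (e i).1) (fun i => (e i).2.1) 2 le_rfl
    (ex (fun _ H => H.chromaticNumber = ((2 + 1 : ℕ) : ℕ∞)) (le_antisymm
      (SimpleGraph.Colorable.chromaticNumber_le ⟨SimpleGraph.Coloring.mk
        (fun a => ⟨a.val % 3, by omega⟩) fun {a b} h => by
          simp only [H0, SimpleGraph.fromRel_adj, ne_eq, Fin.ext_iff] at h ⊢; omega⟩) (chi nP_H)))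
    (fun i => chi (e i).2.2)
    (ex (fun _ H => ∃ N : ℕ, H.IsContained (SimpleGraph.fromRel (fun u v : Fin 2 × Fin N =>
      u.1 ≠ v.1 ∨ (u.1.val = 0 ∧ v.1.val = 0 ∧ u.2.val / 2 = v.2.val / 2)))) ⟨8, ⟨⟨⟨fun a =>
        (⟨a.val % 3 / 2, by omega⟩, ⟨2 * (a.val / 3) + a.val % 3 % 2, by omega⟩), fun {a b} h => by
          simp only [H0, SimpleGraph.fromRel_adj, ne_eq, Fin.ext_iff, Prod.ext_iff] at h ⊢
          omega⟩, fun a b h => by
        simp only [RelHom.coeFn_mk, Fin.ext_iff, Prod.ext_iff] at h ⊢; omega⟩⟩⟩)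
  obtain ⟨m, h1, h2⟩ : ∃ m, 100 ≤ m ∧ N ≤ 2 * m + 1 := ⟨N + 100, by omega, by omega⟩
  obtain ⟨G, hG, y, y1, y2⟩ := ex_max (n := 2 * m + 1) P ⟨_, P_X m⟩ (by omega)
  have a := (hN _ h2 G ⟨(fr _ G).2 hG, fun G' hG' x _ => ⟨y, by rintro rfl; simp at y1, by
    rw [y1, mul_one]; exact y2 G' ((fr _ G').1 hG') x⟩⟩).2 _ ((fr _ _).2 (P_Y (by omega : 5 ≤ m)))
  have c : ∀ G : SimpleGraph (Fin (2 * m + 1)), ∑ a, G.degree a = 2 * G.edgeSet.ncard := fun G => by
    rw [G.sum_degrees_eq_twice_card_edges, ← G.coe_edgeFinset, Set.ncard_coe_finset]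
  have b := deg_Y (by omega : 5 ≤ m)
  have u := upper h1 (by simp) hG (by
    refine le_trans ?_ (le_of_eq ((c G).symm.trans (by congr!)))
    refine (b.trans (le_of_eq (Eq.trans (by congr!) (c _)))).trans (by omega)) y
  obtain ⟨x, x1, x2⟩ := ray_X m
  have v := y2 _ (P_X m) x
  rw [x1, x2] at v
  rw [y1, mul_one] at u
  have m0 : (100 : ℝ) ≤ m := by exact_mod_cast h1
  have := v.trans (mul_le_mul_of_nonneg_right u (by positivity))
  have z : (5 / m : ℝ) * m = 5 := by field_simp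
  have : (0 : ℝ) < 5 / m := by positivity
  nlinarith

end Pool.Agent.S07816
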