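import Pool.Statements.S07817
import Pool.Agent.H.MP_2b0d5b_co.Main

set_option autoImplicit false
open Pool Pool.MP_2b0d5b_co

namespace Pool.Agent.S07817

theorem result :
    ∃ c : ℝ, 0 < c ∧ ∀ N : ℕ, ∃ n : ℕ, N ≤ n ∧
      ∃ G : SimpleGraph (Fin n),
        G.chromaticNumber = 5 ∧
        (∀ e ∈ G.edgeSet, (G.deleteEdges {e}).chromaticNumber < 5) ∧
        ∀ v : Fin n, c * (n : ℝ) ≤ ((G.neighborSet v).ncard : ℝ) := by
  refine ⟨1 / 17, by norm_num, fun N => ?_⟩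
  obtain ⟨G, h5, h4, hc, hd⟩ := Pool.Agent.H.MP_2b0d5b_co.main (N + 2) (by omega)
  have hcard := Pool.Agent.H.MP_2b0d5b_co.card_V (N + 2)
  refine ⟨_, by omega, G, ?_, fun e he => ?_, fun v => ?_⟩
  · have := (SimpleGraph.chromaticNumber_eq_iff_colorable_not_colorable (G := G) (n := 4)).2 ⟨h5, h4⟩
    rw [this]; rfl
  · exact lt_of_le_of_lt (hc e he).chromaticNumber_le (by norm_num)
  · have h1 : ((N + 2 : ℕ) : ℝ) ≤ ((G.neighborSet v).ncard : ℝ) := by exact_mod_cast hd v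
    have h2 : ((Fintype.card (Pool.Agent.H.MP_2b0d5b_co.V (N + 2)) : ℕ) : ℝ) = 12 * ((N + 2 : ℕ) : ℝ) + 5 := by
      rw [hcard]; push_cast; ring
    rw [h2]
    have h3 : (2 : ℝ) ≤ ((N + 2 : ℕ) : ℝ) := by exact_mod_cast (by omega : 2 ≤ N + 2)
    linarith

end Pool.Agent.S07817
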