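import Pool.Statements.S07822
import Pool.Agent.H.MP_2b2760_co.B

set_option autoImplicit false
open Pool Pool.MP_2b2760_co

namespace Pool.Agent.S07822

theorem result :
    ¬ (∃ f : ℕ → ℕ → ℕ, ∀ (k t : ℕ) (V : Type) [Fintype V] (G : SimpleGraph V),
    (∃ (T : Type) (_ : Fintype T) (TT : SimpleGraph T) (B : T → Finset V) (ℓ : V → ℕ),
      TT.IsTree ∧
      (∀ v : V, (TT.induce {x | v ∈ B x}).Connected) ∧
      (∀ u v : V, G.Adj u v → ∃ x, u ∈ B x ∧ v ∈ B x) ∧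
      (∀ u v : V, G.Adj u v → ℓ u ≤ ℓ v + 1 ∧ ℓ v ≤ ℓ u + 1) ∧
      (∀ x i, ((B x).filter (fun v => ℓ v = i)).card ≤ k)) →
    ¬ (completeBipartiteGraph (Fin 2) (Fin t)).IsContained G →
    ∃ c : V → Fin 3, ∀ S : Finset V, (∀ u ∈ S, ∀ w ∈ S, c u = c w) →
      (G.induce (S : Set V)).Connected → S.card ≤ f k t) := by
  classical
  rintro ⟨f, hf⟩
  obtain ⟨V, i, G, T, B, l, h1, h2, h3, h4, h5, h6, h7, h8⟩ :=
    Pool.Agent.H.MP_2b2760_co.main (f 4 15)
  obtain ⟨c, hc⟩ := hf 4 15 V G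
    ⟨V, i, T, fun x => (B x).toFinset, l, h1, fun v => by
        have e : {x | v ∈ (B x).toFinset} = {i | v ∈ B i} := by ext x; simp
        rw [e]; exact h4 v,
      fun u v h => by simpa using h3 u v h, fun u v h => ⟨h5 u v h, h5 v u h.symm⟩,
      fun x n => by
        refine le_trans (le_of_eq ?_) (h6 x n)
        rw [← Set.ncard_coe_finset]; congr 1; ext y; simp⟩
    (fun ⟨φ⟩ => h7 ⟨φ.toHom, φ.injective⟩)
  obtain ⟨v, hv⟩ := h8 c
  obtain ⟨a, b⟩ := Pool.Agent.H.MP_2b2760_co.comp G c v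
  have := hc {u | (G ⊓ SimpleGraph.fromRel (fun x y => c x = c y)).Reachable v u}.toFinset
    (fun u hu w hw => by
      rw [a u (by simpa using hu), a w (by simpa using hw)])
    (by rw [Set.coe_toFinset]; exact b)
  rw [← Set.ncard_eq_toFinset_card'] at this
  omega

end Pool.Agent.S07822
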