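import Pool.Statements.S07874
-- import your own Pool.Agent.* helpers here

set_option autoImplicit false
open Pool Pool.MP_2d87f2_co

namespace Pool.Agent.S07874

abbrev T := ℤ × ℕ

def par (t : T) : T := (t.1 - 1, t.2 / 2)

abbrev V := T × Fin 200

def G : SimpleGraph V := SimpleGraph.fromRel (fun u v => v.1 = par u.1 ∨ u.1 = v.1)

theorem adj_iff (u v : V) :
    G.Adj u v ↔ u ≠ v ∧ ((v.1 = par u.1 ∨ u.1 = v.1) ∨ (u.1 = par v.1 ∨ v.1 = u.1)) :=
  SimpleGraph.fromRel_adj _ _ _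

theorem adj_par (u v : V) (h : v.1 = par u.1) : G.Adj u v := by
  refine (adj_iff u v).2 ⟨?_, Or.inl (Or.inl h)⟩
  rintro rfl
  have := congrArg Prod.fst h
  simp only [par] at this
  omega

theorem conn : G.Connected := by
  have hB : ∀ n : ℤ, G.Reachable ((n, 0), 0) ((0, 0), 0) := by
    intro n
    induction n using Int.induction_on with
    | zero => exact SimpleGraph.Reachable.refl _
    | succ i ih => exact (adj_par _ (((i : ℤ), 0), 0) (by simp [par])).reachable.trans ih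
    | pred i ih =>
      exact (adj_par ((-(i : ℤ), 0), 0) _ (by simp [par])).reachable.symm.trans ih
  have hC : ∀ (x : ℕ) (n : ℤ) (i : Fin 200), G.Reachable ((n, x), i) ((0, 0), 0) := by
    intro x
    induction x using Nat.strong_induction_on with
    | _ x ih =>
      intro n i
      refine (adj_par _ ((n - 1, x / 2), 0) rfl).reachable.trans ?_
      rcases Nat.eq_zero_or_pos x with rfl | hx
      · exact hB _
      · exact ih _ (by omega) _ _
  exact ⟨fun u v => (hC u.1.2 u.1.1 u.2).trans (hC v.1.2 v.1.1 v.2).symm⟩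

theorem locfin (u : V) : (G.neighborSet u).Finite := by
  have hf : (({par u.1, u.1, (u.1.1 + 1, 2 * u.1.2), (u.1.1 + 1, 2 * u.1.2 + 1)} : Set T) ×ˢ
      (Set.univ : Set (Fin 200))).Finite := (Set.toFinite _).prod (Set.toFinite _)
  refine hf.subset fun v hv => ⟨?_, trivial⟩
  obtain ⟨⟨n, x⟩, i⟩ := u
  obtain ⟨⟨n', x'⟩, i'⟩ := v
  obtain ⟨-, h⟩ := (adj_iff _ _).1 hv
  simp only [par, Prod.mk.injEq, Set.mem_insert_iff, Set.mem_singleton_iff] at h ⊢
  omega

def geo (n : ℤ) (z : ℕ) (a : ℤ) : ℕ := z * 2 ^ (a - n).toNat / 2 ^ (n - a).toNat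

theorem geo_step (n : ℤ) (z : ℕ) (a : ℤ) : geo n z (a - 1) = geo n z a / 2 := by
  unfold geo
  rcases lt_or_ge n a with h | h
  · have e1 : (a - n).toNat = (a - 1 - n).toNat + 1 := by omega
    have e2 : (n - (a - 1)).toNat = 0 := by omega
    have e3 : (n - a).toNat = 0 := by omega
    rw [e1, e2, e3, pow_succ, ← mul_assoc]
    simp
  · have e1 : (a - n).toNat = 0 := by omega
    have e2 : (n - (a - 1)).toNat = (n - a).toNat + 1 := by omega
    have e3 : (a - 1 - n).toNat = 0 := by omega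
    rw [e1, e2, e3, pow_succ, Nat.div_div_eq_div_mul]

def tau (s : ℤ) (f : ℤ → ℕ) : T ≃ T where
  toFun t := (t.1 + s, t.2 ^^^ f t.1)
  invFun t := (t.1 - s, t.2 ^^^ f (t.1 - s))
  left_inv t := by simp
  right_inv t := by simp

theorem tau_par (s : ℤ) (f : ℤ → ℕ) (hf : ∀ a, f (a - 1) = f a / 2) (t : T) :
    par (tau s f t) = tau s f (par t) := by
  simp only [par, tau, Equiv.coe_fn_mk, Prod.mk.injEq, hf, Nat.xor_div_two, and_true]
  ring

theorem trans (u v : V) : ∃ φ : G ≃g G, φ u = v := by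
  let τ := tau (v.1.1 - u.1.1) (geo u.1.1 (u.1.2 ^^^ v.1.2))
  have hτ : ∀ t, par (τ t) = τ (par t) := tau_par _ _ (geo_step _ _)
  refine ⟨⟨τ.prodCongr (Equiv.swap u.2 v.2), ?_⟩, ?_⟩
  · intro a b
    rw [adj_iff, adj_iff, (Equiv.injective _).ne_iff]
    simp only [Equiv.prodCongr_apply, Prod.map_fst, hτ, τ.injective.eq_iff]
  · obtain ⟨⟨n, x⟩, i⟩ := u
    obtain ⟨⟨n', x'⟩, i'⟩ := v
    simp [τ, tau, geo]

theorem walk_bound {u w : V} (p : G.Walk u w) :
    |w.1.1 - u.1.1| ≤ p.length ∧ w.1.2 + 1 ≤ (u.1.2 + 1) * 2 ^ p.length := by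
  induction p with
  | nil => simp
  | @cons a b c h p ih =>
    obtain ⟨-, h⟩ := (adj_iff _ _).1 h
    have h1 : |b.1.1 - a.1.1| ≤ 1 ∧ b.1.2 + 1 ≤ (a.1.2 + 1) * 2 := by
      obtain ⟨⟨n, x⟩, i⟩ := a
      obtain ⟨⟨n', x'⟩, i'⟩ := b
      simp only [par, Prod.mk.injEq] at h ⊢
      rw [abs_le]
      omega
    rw [SimpleGraph.Walk.length_cons]
    constructor
    · have := abs_sub_le c.1.1 b.1.1 a.1.1
      push_cast
      linarith [ih.1, h1.1]
    · calc c.1.2 + 1 ≤ (b.1.2 + 1) * 2 ^ p.length := ih.2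
        _ ≤ ((a.1.2 + 1) * 2) * 2 ^ p.length := Nat.mul_le_mul_right _ h1.2
        _ = (a.1.2 + 1) * 2 ^ (p.length + 1) := by ring

theorem lower (A : Finset V) :
    200 * A.card ≤ Set.ncard {p : V × V | p.1 ∈ A ∧ p.2 ∉ A ∧ G.Adj p.1 p.2} := by
  classical
  have hfin : {p : V × V | p.1 ∈ A ∧ p.2 ∉ A ∧ G.Adj p.1 p.2}.Finite := by
    have h1 : (⋃ a ∈ (A : Set V), G.neighborSet a).Finite :=
      A.finite_toSet.biUnion fun a _ => locfin a
    refine (A.finite_toSet.prod h1).subset fun p hp => ⟨hp.1, ?_⟩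
    exact Set.mem_biUnion hp.1 hp.2.2
  let c : V × (Fin 2 × Fin 200) → V × V :=
    fun q => (q.1, ((q.1.1.1 + 1, 2 * q.1.1.2 + q.2.1), q.2.2))
  let d : V × Fin 200 → V × V := fun q => ((par q.1.1, q.2), q.1)
  have hc : Function.Injective c := by
    rintro ⟨a, b, i⟩ ⟨a', b', i'⟩ h
    simp only [c, Prod.mk.injEq] at h
    obtain ⟨rfl, ⟨-, h2⟩, rfl⟩ := h
    have : b = b' := Fin.ext (by omega)
    rw [this]
  have hsub : (A ×ˢ (Finset.univ : Finset (Fin 2 × Fin 200))).image c ⊆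
      hfin.toFinset ∪ (A ×ˢ (Finset.univ : Finset (Fin 200))).image d := by
    intro p hp
    obtain ⟨⟨a, b, i⟩, ha, rfl⟩ := Finset.mem_image.1 hp
    have ha' : a ∈ A := (Finset.mem_product.1 ha).1
    have hpar : a.1 = par (a.1.1 + 1, 2 * a.1.2 + b) := by
      have := b.2
      simp only [par]
      refine Prod.ext (by simp) (by simp only; omega)
    by_cases hw : (c (a, b, i)).2 ∈ A
    · refine Finset.mem_union_right _ (Finset.mem_image.2
        ⟨((c (a, b, i)).2, a.2), Finset.mem_product.2 ⟨hw, Finset.mem_univ _⟩, ?_⟩)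
      simp only [c, d, ← hpar]
    · refine Finset.mem_union_left _ (hfin.mem_toFinset.2 ⟨ha', hw, ?_⟩)
      exact (adj_par _ _ hpar).symm
  have h1 := Finset.card_le_card hsub
  rw [Finset.card_image_of_injective _ hc, Finset.card_product, Finset.card_univ,
    Fintype.card_prod, Fintype.card_fin, Fintype.card_fin] at h1
  have h2 := Finset.card_union_le hfin.toFinset ((A ×ˢ (Finset.univ : Finset (Fin 200))).image d)
  have h3 := Finset.card_image_le (s := A ×ˢ (Finset.univ : Finset (Fin 200))) (f := d)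
  rw [Finset.card_product, Finset.card_univ, Fintype.card_fin] at h3
  rw [Set.ncard_eq_toFinset_card _ hfin]
  omega

def S : Set V := {v | v.2 = 0 ∧ v.1.1 % 2 = 0}

theorem upper : Set.ncard {p : V × V | p.1 ∈ ({((0, 0), 0)} : Finset V) ∧ p.2 ∈ S ∧
    p.2 ∉ ({((0, 0), 0)} : Finset V) ∧ G.dist p.1 p.2 ≤ 2 * 2} ≤ 144 := by
  classical
  let e : T → V × V := fun t => (((0, 0), 0), (t, 0))
  have hsub : {p : V × V | p.1 ∈ ({((0, 0), 0)} : Finset V) ∧ p.2 ∈ S ∧
      p.2 ∉ ({((0, 0), 0)} : Finset V) ∧ G.dist p.1 p.2 ≤ 2 * 2} ⊆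
      ((Finset.Icc (-4 : ℤ) 4 ×ˢ Finset.range 16).image e : Finset (V × V)) := by
    rintro ⟨a, ⟨⟨n, x⟩, i⟩⟩ ⟨h1, h2, -, h4⟩
    have h1' : a = ((0, 0), 0) := Finset.mem_singleton.1 h1
    subst h1'
    have hi : i = 0 := h2.1
    subst hi
    obtain ⟨p, hp⟩ := conn.exists_walk_length_eq_dist ((0, 0), 0) ((n, x), 0)
    obtain ⟨b1, b2⟩ := walk_bound p
    simp only at h4 b1 b2
    have hl : p.length ≤ 4 := by omega
    have b3 : 2 ^ p.length ≤ 2 ^ 4 := Nat.pow_le_pow_right (by norm_num) hl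
    rw [abs_le] at b1
    refine Finset.mem_coe.2 (Finset.mem_image.2 ⟨(n, x), ?_, rfl⟩)
    simp only [Finset.mem_product, Finset.mem_Icc, Finset.mem_range]
    omega
  refine (Set.ncard_le_ncard hsub (Finset.finite_toSet _)).trans ?_
  rw [Set.ncard_coe_finset]
  refine Finset.card_image_le.trans ?_
  simp

theorem result :
    ¬ (∀ (V : Type) (G : SimpleGraph V), Infinite V → G.Connected →
      (∀ v : V, (G.neighborSet v).Finite) →
      (∀ u v : V, ∃ φ : G ≃g G, φ u = v) →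
      ∀ k : ℕ, 1 ≤ k →
      ∀ S : Set V,
        (∀ u ∈ S, ∀ v ∈ S, u ≠ v → k ≤ G.dist u v) →
        (∀ w : V, w ∉ S → ∃ u ∈ S, G.dist w u < k) →
        sInf {r : ℝ | ∃ A : Finset V, A.Nonempty ∧
            r = (Set.ncard {p : V × V | p.1 ∈ A ∧ p.2 ∉ A ∧ G.Adj p.1 p.2} : ℝ)
              / (A.card : ℝ)}
          ≤
        sInf {r : ℝ | ∃ A : Finset V, A.Nonempty ∧ (↑A : Set V) ⊆ S ∧
            r = (Set.ncard {p : V × V | p.1 ∈ A ∧ p.2 ∈ S ∧ p.2 ∉ A ∧
                  G.dist p.1 p.2 ≤ 2 * k} : ℝ)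
              / (A.card : ℝ)}) := by
  intro h
  have key := h V G inferInstance conn locfin trans 2 (by norm_num) S (by
      intro u hu v hv huv
      refine conn.one_lt_dist_of_ne_of_not_adj huv fun ha => ?_
      obtain ⟨⟨n, x⟩, i⟩ := u
      obtain ⟨⟨n', x'⟩, i'⟩ := v
      obtain ⟨-, h⟩ := (adj_iff _ _).1 ha
      obtain ⟨a1, a2⟩ := hu
      obtain ⟨b1, b2⟩ := hv
      simp only [par, Prod.mk.injEq, ne_eq] at h a1 a2 b1 b2 huv
      subst a1 b1
      simp only [and_true] at huv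
      omega) (by
      rintro ⟨⟨n, x⟩, i⟩ hw
      by_cases hn : n % 2 = 0
      · refine ⟨((n, x), 0), ⟨rfl, hn⟩, ?_⟩
        have : G.Adj ((n, x), i) ((n, x), 0) := by
          refine (adj_iff _ _).2 ⟨?_, Or.inl (Or.inr rfl)⟩
          intro e
          exact hw ⟨congrArg Prod.snd e, hn⟩
        rw [SimpleGraph.dist_eq_one_iff_adj.2 this]
        norm_num
      · refine ⟨((n - 1, x / 2), 0), ⟨rfl, by simp only; omega⟩, ?_⟩
        rw [SimpleGraph.dist_eq_one_iff_adj.2 (adj_par ((n, x), i) ((n - 1, x / 2), 0) rfl)]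
        norm_num)
  have h1 : (200 : ℝ) ≤ sInf {r : ℝ | ∃ A : Finset V, A.Nonempty ∧
      r = (Set.ncard {p : V × V | p.1 ∈ A ∧ p.2 ∉ A ∧ G.Adj p.1 p.2} : ℝ) / (A.card : ℝ)} := by
    refine le_csInf ⟨_, {((0, 0), 0)}, Finset.singleton_nonempty _, rfl⟩ ?_
    rintro r ⟨A, hA, rfl⟩
    rw [le_div_iff₀ (by exact_mod_cast hA.card_pos)]
    exact_mod_cast lower A
  have h2 := (h1.trans key).trans (csInf_le ⟨0, by rintro r ⟨A, -, -, rfl⟩; positivity⟩
    ⟨{((0, 0), 0)}, Finset.singleton_nonempty _, by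
      intro v hv
      rw [Finset.mem_coe, Finset.mem_singleton] at hv
      subst hv
      exact ⟨rfl, rfl⟩, rfl⟩)
  rw [Finset.card_singleton, Nat.cast_one, div_one] at h2
  have h3 := upper
  have h4 : (200 : ℕ) ≤ 144 := le_trans (by exact_mod_cast h2) h3
  omega

end Pool.Agent.S07874
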