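import Pool.Statements.S07884
import Pool.Agent.H.MP_2de88f_co.B

set_option autoImplicit false
open Pool Pool.MP_2de88f_co

namespace Pool.Agent.S07884

theorem result :
    ¬ (∀ h : ℕ, ∃ (G : Type) (_ : Group G) (_ : Finite G),
      ∀ (L : Type) [Lattice L] [IsModularLattice L] [Finite L] [Nonempty L],
        Order.krullDim L ≤ (h : WithBot ℕ∞) → IsEmpty ((L ≃o L) ≃* G)) := by
  intro h
  obtain ⟨G, _, _, hG⟩ := h 16
  obtain ⟨L, _, _, _, _, ⟨φ⟩, h1, -⟩ := Pool.Agent.ModAut.main G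
  exact (hG L h1).false φ.symm

end Pool.Agent.S07884
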