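import Pool.Statements.S07886
-- import your own Pool.Agent.* helpers here

set_option autoImplicit false
open Pool Pool.MP_2dea4c_co

namespace Pool.Agent.S07886

def tl : Fin 18 → Fin 9 := ![1, 0, 3, 1, 0, 2, 3, 6, 5, 5, 2, 7, 4, 4, 1, 1, 8, 8]
def hd : Fin 18 → Fin 9 := ![2, 3, 2, 4, 5, 5, 6, 4, 6, 6, 7, 3, 7, 7, 8, 8, 1, 1]

lemma tree (p : Fin 9 → ℕ) (par : Fin 9 → Fin 9) (rk : Fin 9 → ℕ) (e : Fin 9 → Fin 18)
    (c : Fin 18 → Bool) (i : Bool)
    (h : ∀ v, v ≠ 0 → rk (par v) < rk v ∧ c (e v) = i ∧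
      ((tl (e v) = v ∧ hd (e v) = par v) ∨ (tl (e v) = par v ∧ hd (e v) = v)))
    (hi : ∀ v w, v ≠ 0 → w ≠ 0 → e v = e w → v = w) :
    (Finset.univ.image p).card - 1 ≤
      (Finset.univ.filter fun a => p (tl a) ≠ p (hd a) ∧ c a = i).card := by
  set S := Finset.univ.filter fun v => v ≠ 0 ∧ p v ≠ p (par v) with hS
  have h1 : ∀ n v, rk v = n → p v ∈ insert (p 0) (S.image p) := by
    intro n
    induction n using Nat.strong_induction_on with
    | _ n ih =>
      intro v hv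
      by_cases h0 : v = 0
      · simp [h0]
      · by_cases h2 : p v = p (par v)
        · rw [h2]; exact ih _ (hv ▸ (h v h0).1) _ rfl
        · exact Finset.mem_insert_of_mem (Finset.mem_image_of_mem _ (by simp [hS, h0, h2]))
  have h2 : (Finset.univ.image p).card ≤ S.card + 1 := by
    refine (Finset.card_le_card (t := insert (p 0) (S.image p)) ?_).trans
      ((Finset.card_insert_le _ _).trans (Nat.add_le_add_right Finset.card_image_le 1))
    intro x hx
    obtain ⟨v, -, rfl⟩ := Finset.mem_image.1 hx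
    exact h1 _ v rfl
  have h3 : S.card ≤ (Finset.univ.filter fun a => p (tl a) ≠ p (hd a) ∧ c a = i).card := by
    refine Finset.card_le_card_of_injOn e ?_ ?_
    · intro v hv
      simp only [hS, Finset.coe_filter, Finset.mem_univ, true_and, Set.mem_ofPred_eq] at hv ⊢
      obtain ⟨-, a, b | b⟩ := h v hv.1
      · rw [b.1, b.2]; exact ⟨hv.2, a⟩
      · rw [b.1, b.2]; exact ⟨hv.2.symm, a⟩
    · intro v hv w hw hh
      simp only [hS, Finset.coe_filter, Finset.mem_univ, true_and, Set.mem_ofPred_eq] at hv hw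
      exact hi v w hv.1 hw.1 hh
  omega

def col : Fin 18 → Bool := ![true, true, true, false, false, true, false, true, true, false,
  false, false, true, false, true, false, true, true]

lemma pc (p : Fin 9 → ℕ) : 2 * ((Finset.univ.image p).card - 1) ≤
    Fintype.card {a : Fin 18 // p (tl a) ≠ p (hd a)} := by
  have h1 := tree p ![0, 2, 3, 0, 6, 2, 5, 4, 1] ![0, 5, 2, 1, 6, 3, 4, 7, 8]
    ![0, 0, 2, 1, 7, 5, 8, 12, 14] col true (by decide) (by decide)
  have h2 := tree p ![0, 4, 7, 6, 7, 0, 5, 3, 1] ![0, 6, 7, 3, 5, 1, 2, 4, 8]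
    ![0, 3, 10, 6, 13, 4, 9, 11, 15] col false (by decide) (by decide)
  rw [Fintype.card_subtype]
  have h3 := Finset.card_filter_add_card_filter_not
    (s := Finset.univ.filter fun a => p (tl a) ≠ p (hd a)) (fun a => col a = true)
  simp only [Finset.filter_filter, Bool.not_eq_true] at h3
  omega

def im (b i x y : Bool) : Bool := (b != i) || (x == y)
def cut (b0 b1 b2 b3 b4 b5 b6 b7 b8 b9 b10 b11 b12 b13 i s1 s2 s3 s4 s5 s6 s7 : Bool) : Bool :=
  (s1 || s2 || s3 || s4 || s5 || s6 || s7) && im b0 i s1 s2 && im b1 i false s3 && im b2 i s3 s2 &&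
  im b3 i s1 s4 && im b4 i false s5 && im b5 i s2 s5 && im b6 i s3 s6 && im b7 i s6 s4 &&
  im b8 i s5 s6 && im b9 i s5 s6 && im b10 i s2 s7 && im b11 i s7 s3 && im b12 i s4 s7 &&
  im b13 i s4 s7
def ex (f : Bool → Bool) : Bool := f false || f true
def al (f : Bool → Bool) : Bool := f false && f true
lemma chk0 : (al fun b0 => al fun b1 => al fun b3 => al fun b4 => al fun b6 => al fun b8 =>
    al fun b9 => al fun b10 => al fun b12 => al fun b13 =>
    ((b6 == b8) && (b6 == b9)) || ((b10 == b12) && (b10 == b13)) ||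
    ex fun i => ex fun s1 => ex fun s2 => ex fun s3 => ex fun s4 => ex fun s5 => ex fun s6 =>
    ex fun s7 => cut b0 b1 (!b0) b3 b4 (!b4) b6 (!b3) b8 b9 b10 (!b1) b12 b13
      i s1 s2 s3 s4 s5 s6 s7) = true := by
  decide +kernel

lemma ex_iff (f : Bool → Bool) : ex f = true ↔ ∃ b, f b = true := by simp [ex]
lemma al_iff (f : Bool → Bool) : al f = true ↔ ∀ b, f b = true := by simp [al]
lemma im_iff (b i x y : Bool) : im b i x y = true ↔ (b = i → x = y) := by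
  revert b i x y; decide

lemma chk (b0 b2 : Bool) (h0 : b0 ≠ b2) (b1 b11 : Bool) (h1 : b1 ≠ b11) (b3 b7 : Bool)
    (h3 : b3 ≠ b7) (b4 b5 : Bool) (h4 : b4 ≠ b5) (b6 b8 b9 b10 b12 b13 : Bool)
    (h6 : ¬ (b6 = b8 ∧ b6 = b9)) (h7 : ¬ (b10 = b12 ∧ b10 = b13)) :
    ∃ i s1 s2 s3 s4 s5 s6 s7 : Bool, (s1 || s2 || s3 || s4 || s5 || s6 || s7) = true ∧
    (b0 = i → s1 = s2) ∧ (b1 = i → false = s3) ∧ (b2 = i → s3 = s2) ∧ (b3 = i → s1 = s4) ∧
    (b4 = i → false = s5) ∧ (b5 = i → s2 = s5) ∧ (b6 = i → s3 = s6) ∧ (b7 = i → s6 = s4) ∧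
    (b8 = i → s5 = s6) ∧ (b9 = i → s5 = s6) ∧ (b10 = i → s2 = s7) ∧ (b11 = i → s7 = s3) ∧
    (b12 = i → s4 = s7) ∧ (b13 = i → s4 = s7) := by
  have nb : ∀ x y : Bool, x ≠ y → y = !x := by decide
  rw [nb _ _ h0, nb _ _ h1, nb _ _ h3, nb _ _ h4]
  have h := chk0
  simp only [al_iff] at h
  have h' := h b0 b1 b3 b4 b6 b8 b9 b10 b12 b13
  simp only [Bool.or_eq_true, Bool.and_eq_true, beq_iff_eq, h6, h7, false_or, ex_iff] at h'
  obtain ⟨i, s1, s2, s3, s4, s5, s6, s7, h'⟩ := h'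
  refine ⟨i, s1, s2, s3, s4, s5, s6, s7, ?_⟩
  simp only [cut, Bool.and_eq_true, im_iff, and_assoc] at h'
  exact h'

def tb (x : Fin 2) : Bool := decide (x = 0)

lemma tb_inj : ∀ x y : Fin 2, tb x = tb y → x = y := by decide

lemma nomono (f : Fin 18 → Fin 2) (v : Fin 9)
    (h : ∀ i : Fin 2, ∃ a, f a = i ∧ hd a = v) (b : Bool) : ¬ ∀ a, hd a = v → tb (f a) = b := by
  intro H
  obtain ⟨a, h1, h2⟩ := h 0
  obtain ⟨a', h3, h4⟩ := h 1
  have := tb_inj _ _ ((H a h2).trans (H a' h4).symm)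
  rw [h1, h3] at this
  exact absurd this (by decide)

lemma phi (b : Fin 18 → Bool) (i s1 s2 s3 s4 s5 s6 s7 : Bool)
    (hh : (b 0 = i → s1 = s2) ∧ (b 1 = i → false = s3) ∧ (b 2 = i → s3 = s2) ∧
    (b 3 = i → s1 = s4) ∧ (b 4 = i → false = s5) ∧ (b 5 = i → s2 = s5) ∧ (b 6 = i → s3 = s6) ∧
    (b 7 = i → s6 = s4) ∧ (b 8 = i → s5 = s6) ∧ (b 9 = i → s5 = s6) ∧ (b 10 = i → s2 = s7) ∧
    (b 11 = i → s7 = s3) ∧ (b 12 = i → s4 = s7) ∧ (b 13 = i → s4 = s7)) (a : Fin 18) :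
    b a = i → (![false, s1, s2, s3, s4, s5, s6, s7, s1] : Fin 9 → Bool) (tl a) =
      (![false, s1, s2, s3, s4, s5, s6, s7, s1] : Fin 9 → Bool) (hd a) := by
  obtain ⟨h0, h1, h2, h3, h4, h5, h6, h7, h8, h9, h10, h11, h12, h13⟩ := hh
  fin_cases a <;> simp only [tl, hd] <;> simp <;>
    first | assumption | exact fun h => (h1 h).symm | exact fun h => (h4 h).symm

lemma const (f : Fin 18 → Fin 2) (j : Fin 2) (φ : Fin 9 → Bool)
    (hc : (SimpleGraph.fromRel fun u v => ∃ a, f a = j ∧ tl a = u ∧ hd a = v).Connected)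
    (hφ : ∀ a, f a = j → φ (tl a) = φ (hd a)) (u v : Fin 9) : φ u = φ v := by
  obtain ⟨w⟩ := hc.preconnected u v
  induction w with
  | nil => rfl
  | cons h _ ih =>
    rw [← ih]
    rw [SimpleGraph.fromRel_adj] at h
    rcases h.2 with ⟨a, a1, rfl, rfl⟩ | ⟨a, a1, rfl, rfl⟩
    · exact hφ a a1
    · exact (hφ a a1).symm

lemma indeg : ∀ v : Fin 9, v ≠ 0 → 2 ≤ Fintype.card {a : Fin 18 // hd a = v} := by
  simp only [Fintype.card_subtype]; decide +kernel

lemma main (f : Fin 18 → Fin 2)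
    (hc : ∀ j, (SimpleGraph.fromRel fun u v => ∃ a, f a = j ∧ tl a = u ∧ hd a = v).Connected)
    (hi : ∀ i v, v ≠ 0 → ∃ a, f a = i ∧ hd a = v) : False := by
  have nm : ∀ (v : Fin 9) (a b c : Fin 18), v ≠ 0 → (∀ x, hd x = v → x = a ∨ x = b ∨ x = c) →
      ¬ (tb (f a) = tb (f b) ∧ tb (f a) = tb (f c)) := by
    intro v a b c hv hx h
    refine nomono f v (fun i => hi i v hv) (tb (f a)) fun x h1 => ?_
    rcases hx x h1 with rfl | rfl | rfl
    exacts [rfl, h.1.symm, h.2.symm]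
  obtain ⟨i, s1, s2, s3, s4, s5, s6, s7, hs, hh⟩ := chk (tb (f 0)) (tb (f 2))
    (fun h => nm 2 0 2 2 (by decide) (by decide) ⟨h, h⟩) (tb (f 1)) (tb (f 11))
    (fun h => nm 3 1 11 11 (by decide) (by decide) ⟨h, h⟩) (tb (f 3)) (tb (f 7))
    (fun h => nm 4 3 7 7 (by decide) (by decide) ⟨h, h⟩) (tb (f 4)) (tb (f 5))
    (fun h => nm 5 4 5 5 (by decide) (by decide) ⟨h, h⟩)
    (tb (f 6)) (tb (f 8)) (tb (f 9)) (tb (f 10)) (tb (f 12)) (tb (f 13))
    (nm 6 6 8 9 (by decide) (by decide)) (nm 7 10 12 13 (by decide) (by decide))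
  obtain ⟨j, hj⟩ : ∃ j, tb j = i := by cases i <;> decide
  have key := const f j _ (hc j)
    (fun a ha => phi (fun a => tb (f a)) i s1 s2 s3 s4 s5 s6 s7 hh a (ha ▸ hj)) 0
  have k1 : false = s1 := key 1
  have k2 : false = s2 := key 2
  have k3 : false = s3 := key 3
  have k4 : false = s4 := key 4
  have k5 : false = s5 := key 5
  have k6 : false = s6 := key 6
  have k7 : false = s7 := key 7
  subst k1 k2 k3 k4 k5 k6 k7
  simp at hs

theorem result :
    ¬ (∀ (V : Type) [Fintype V] [DecidableEq V] (A : Type) [Fintype A]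
      (tail head : A → V) (k : ℕ) (r₀ : V),
      0 < k →
      (∀ a : A, tail a ≠ head a) →
      (∀ p : V → ℕ,
        k * ((Finset.univ.image p).card - 1) ≤
          Fintype.card {a : A // p (tail a) ≠ p (head a)}) →
      (∀ a : A, head a ≠ r₀) →
      (∀ v : V, v ≠ r₀ → k ≤ Fintype.card {a : A // head a = v}) →
      ∃ f : A → Fin k,
        (∀ i : Fin k,
          (SimpleGraph.fromRel
            (fun u v : V => ∃ a : A, f a = i ∧ tail a = u ∧ head a = v)).Connected) ∧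
        (∀ i : Fin k, ∀ v : V, v ≠ r₀ → ∃ a : A, f a = i ∧ head a = v)) := by
  intro H
  obtain ⟨f, hc, hi⟩ := H (Fin 9) (Fin 18) tl hd 2 0 (by norm_num) (by decide) pc (by decide) indeg
  exact main f hc hi

end Pool.Agent.S07886
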