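import Pool.Statements.S07895
import Pool.Agent.H.MP_900e3c_co.D

set_option autoImplicit false
open Classical
open Pool Pool.MP_2e5503_co

namespace Pool.Agent.S07895

/-- For every finite connected graph with minimum degree at least 3, the average size of a connected vertex set, divided by the number of vertices, is strictly greater than 1/2. -/
theorem result :
    ∀ (V : Type) [Fintype V] (G : SimpleGraph V),
      G.Connected → (∀ v : V, 3 ≤ G.degree v) →
      (1 : ℝ) / 2 <
        ((∑ S ∈ (Finset.univ : Finset (Finset V)).filter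
              (fun S : Finset V => (G.induce (S : Set V)).Connected), (S.card : ℝ)) /
          (((Finset.univ : Finset (Finset V)).filter
              (fun S : Finset V => (G.induce (S : Set V)).Connected)).card : ℝ)) /
        (Fintype.card V : ℝ) := by
  intro V _ G hG h3
  open Finset in
  have hU : Pool.Agent.H.MP_900e3c_co.Conn G univ := (Pool.Agent.H.MP_900e3c_co.conn_iff _).2 (by
    rw [coe_univ]
    exact (G.induceUnivIso.connected_iff).2 hG)
  have := Pool.Agent.H.MP_900e3c_co.strict hU fun v a b => by
    obtain ⟨w, h1, h2⟩ := exists_mem_notMem_of_card_lt_card (s := {a, b}) (t := G.neighborFinset v)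
      (card_le_two.trans_lt (h3 v))
    exact ⟨w, by simpa using h1, by simpa using h2⟩
  rw [← filter_congr fun S _ => Pool.Agent.H.MP_900e3c_co.conn_iff (G := G) S]
  have p1 : (0 : ℝ) < (univ.filter (Pool.Agent.H.MP_900e3c_co.Conn G)).card :=
    Nat.cast_pos.2 (card_pos.2 ⟨univ, by simpa⟩)
  have p2 : (0 : ℝ) < Fintype.card V := Nat.cast_pos.2 (card_pos.2 hU.1)
  rw [lt_div_iff₀ p2, lt_div_iff₀ p1, ← Nat.cast_sum]
  have : (((univ.filter (Pool.Agent.H.MP_900e3c_co.Conn G)).card * Fintype.card V : ℕ) : ℝ) < _ :=
    Nat.cast_lt.2 this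
  push_cast at this ⊢
  linarith


end Pool.Agent.S07895
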