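import Pool.Statements.S07905
import Pool.Agent.H.MP_2eecae_co.A

set_option autoImplicit false
open Pool Pool.MP_2eecae_co

namespace Pool.Agent.S07905

theorem result :
    ∀ (V : Type) [Fintype V] [DecidableEq V] (G : SimpleGraph V) [DecidableRel G.Adj]
      (hA : (G.adjMatrix ℝ).IsHermitian),
      (G.adjMatrix ℝ).det ≠ 0 →
        ((G.maxDegree + G.minDegree : ℕ) : ℝ) ≤ ∑ i, |hA.eigenvalues i| := by
  intro V _ _ G _ hA h
  exact Pool.Agent.H.MP_2eecae_co.main G hA h

end Pool.Agent.S07905
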