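import Pool.Statements.S07942

set_option autoImplicit false
open Pool Pool.MP_30ed83_co

namespace Pool.Agent.S07942
open SimpleGraph

/-- A graph that is not 2-colourable has a vertex set inducing a graph of maximum degree at most two
that is not 2-colourable (a shortest odd closed walk). -/
theorem odd_cycle {V : Type} (G : SimpleGraph V) (hG : ¬ G.Colorable 2) :
    ∃ s : Set V, ¬ (G.induce s).Colorable 2 ∧
      ∀ x ∈ s, ∀ a ∈ s, ∀ b ∈ s, ∀ c ∈ s, G.Adj x a → G.Adj x b → G.Adj x c →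
        a = b ∨ a = c ∨ b = c := by
  classical
  let R : V → V → ℕ → Prop := fun a b n => ∃ w : G.Walk a b, w.length = n
  have hex : ∃ L, Odd L ∧ ∃ a, R a a L := by
    rw [two_colorable_iff_forall_loop_even] at hG
    push Not at hG
    obtain ⟨u, w, hw⟩ := hG
    exact ⟨w.length, Nat.not_even_iff_odd.mp hw, u, w, rfl⟩
  have hmin : ∀ n a, R a a n → Odd n → Nat.find hex ≤ n := fun n a h hn =>
    Nat.find_min' hex ⟨hn, a, h⟩
  obtain ⟨hL, u, w, hw⟩ := Nat.find_spec hex
  set L := Nat.find hex with hLdef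
  let f := w.getVert
  have hf0 : f 0 = u := w.getVert_zero
  have hfL : f L = u := by rw [← hw]; exact w.getVert_length
  have hadj : ∀ i < L, G.Adj (f i) (f (i + 1)) := fun i hi => w.adj_getVert_succ (hw ▸ hi)
  have htr : ∀ a b c n m, R a b n → R b c m → R a c (n + m) := by
    rintro a b c n m ⟨p, rfl⟩ ⟨q, rfl⟩
    exact ⟨p.append q, Walk.length_append _ _⟩
  have hone : ∀ a b, G.Adj a b → R a b 1 := fun a b h => ⟨Walk.cons h Walk.nil, rfl⟩
  have hseg : ∀ i k, i + k ≤ L → R (f i) (f (i + k)) k := by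
    intro i k
    induction k with
    | zero => exact fun _ => ⟨Walk.nil, rfl⟩
    | succ k ih => exact fun h => htr _ _ _ _ _ (ih (by omega)) (hone _ _ (hadj (i + k) (by omega)))
  have hch : ∀ i j, i < j → j < L → G.Adj (f i) (f j) → j = i + 1 ∨ (i = 0 ∧ j + 1 = L) := by
    intro i j hij hj h
    obtain ⟨k, rfl⟩ := Nat.exists_eq_add_of_le hij.le
    have h1 := htr _ _ _ _ _ (hseg i k hj.le) (hone _ _ h.symm)
    have h2 := hseg 0 i (by omega)
    have h3 := hseg (i + k) (L - (i + k)) (by omega)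
    rw [zero_add, hf0] at h2
    rw [Nat.add_sub_cancel' hj.le, hfL] at h3
    have h4 := htr _ _ _ _ _ (htr _ _ _ _ _ h2 (hone _ _ h)) h3
    have h5 := hmin _ _ h1
    have h6 := hmin _ _ h4
    rw [Nat.odd_iff] at h5 h6 hL
    omega
  have hch' : ∀ i j, i < L → j < L → G.Adj (f i) (f j) →
      j = i + 1 ∨ (i = 0 ∧ j + 1 = L) ∨ i = j + 1 ∨ (j = 0 ∧ i + 1 = L) := by
    intro i j hi hj h
    rcases lt_trichotomy i j with hij | rfl | hij
    · have := hch i j hij hj h
      omega
    · exact absurd h (G.loopless.irrefl _)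
    · have := hch j i hij hi h.symm
      omega
  have hLpos : 0 < L := hL.pos
  refine ⟨{x | ∃ i < L, f i = x}, ?_, ?_⟩
  · rintro ⟨c⟩
    have hm : ∀ i, i ≤ L → f i ∈ {x | ∃ i < L, f i = x} := by
      intro i hi
      rcases hi.lt_or_eq with h | rfl
      · exact ⟨i, h, rfl⟩
      · exact ⟨0, hLpos, by rw [hf0, hfL]⟩
    have key : ∀ i (hi : i ≤ L), (c ⟨f i, hm i hi⟩).val = ((c ⟨f 0, hm 0 (by omega)⟩).val + i) % 2 := by
      intro i
      induction i with
      | zero =>
        intro hi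
        have := (c ⟨f 0, hm 0 (by omega)⟩).isLt
        omega
      | succ i ih =>
        intro hi
        have h1 := ih (by omega)
        have h2 : c ⟨f i, hm i (by omega)⟩ ≠ c ⟨f (i + 1), hm (i + 1) hi⟩ :=
          c.valid (hadj i (by omega))
        have h3 := (c ⟨f (i + 1), hm (i + 1) hi⟩).isLt
        have h4 := Fin.val_ne_of_ne h2
        omega
    have h1 := key L le_rfl
    have h2 : (⟨f L, hm L le_rfl⟩ : {x | ∃ i < L, f i = x}) = ⟨f 0, hm 0 (by omega)⟩ :=
      Subtype.ext (by simp only [hf0, hfL])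
    rw [h2] at h1
    rw [Nat.odd_iff] at hL
    omega
  · rintro _ ⟨i, hi, rfl⟩ _ ⟨a, ha, rfl⟩ _ ⟨b, hb, rfl⟩ _ ⟨c, hc, rfl⟩ h1 h2 h3
    have e1 := hch' i a hi ha h1
    have e2 := hch' i b hi hb h2
    have e3 := hch' i c hi hc h3
    have : a = b ∨ a = c ∨ b = c := by omega
    rcases this with rfl | rfl | rfl <;> simp

/-- The claw. -/
def claw : SimpleGraph (Fin 4) := SimpleGraph.fromRel fun a _ => a = 0

instance : DecidableRel claw.Adj := fun a b => by
  unfold claw
  rw [fromRel_adj]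
  infer_instance

theorem result :
    ¬ (∀ (n : ℕ) (F : SimpleGraph (Fin n)), F ≠ ⊥ →
      ∀ r : ℕ, ∃ (m : ℕ) (G : SimpleGraph (Fin m)),
        (r : ℕ∞) < G.chromaticNumber ∧
        G.cliqueNum = F.cliqueNum ∧
        ∀ s : Set (Fin m), ¬ F.IsIndContained (G.induce s) →
          (G.induce s).chromaticNumber ≤ F.chromaticNumber) := by
  intro h
  have h01 : claw.Adj 0 1 := by decide
  have h02 : claw.Adj 0 2 := by decide
  have h03 : claw.Adj 0 3 := by decide
  obtain ⟨m, G, hG, -, hs⟩ := h 4 claw (fun h0 => by rw [h0] at h01; exact h01) 2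
  have hcl : claw.Colorable 2 :=
    ⟨Coloring.mk (fun a => if a = 0 then 0 else 1) (by decide)⟩
  obtain ⟨s, hs1, hs2⟩ := odd_cycle G (fun hc => absurd hc.chromaticNumber_le (not_le.mpr hG))
  apply hs1
  rw [← chromaticNumber_le_iff_colorable]
  refine (hs s ?_).trans hcl.chromaticNumber_le
  rintro ⟨e⟩
  have := hs2 _ (e 0).2 _ (e 1).2 _ (e 2).2 _ (e 3).2 (e.map_rel_iff.mpr h01)
    (e.map_rel_iff.mpr h02) (e.map_rel_iff.mpr h03)
  rcases this with h | h | h <;> exact absurd (e.injective (Subtype.ext h)) (by decide)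

end Pool.Agent.S07942
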