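import Pool.Statements.S07947

set_option autoImplicit false
open Classical
open Pool Pool.MP_31464c_co

namespace Pool.Agent.S07947

/-- The disjoint union of K4 (vertices 0..3) and K3 (vertices 4..6). -/
def G : SimpleGraph (Fin 7) where
  Adj x y := x ≠ y ∧ (x.1 < 4 ↔ y.1 < 4)
  symm := ⟨fun _ _ h => ⟨h.1.symm, h.2.symm⟩⟩
  loopless := ⟨fun _ h => h.1 rfl⟩

theorem deg_eq (x : Fin 7) (inst : Fintype (G.neighborSet x)) :
    @SimpleGraph.degree _ G x inst = if x.1 < 4 then 3 else 2 := by
  have h1 : @SimpleGraph.degree _ G x inst =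
      (Finset.univ.filter (fun y : Fin 7 => x ≠ y ∧ (x.1 < 4 ↔ y.1 < 4))).card := by
    rw [← SimpleGraph.card_neighborFinset_eq_degree]
    congr 1
    ext y
    simp [G]
  rw [h1]
  revert x
  intro x _ _
  revert x
  have : ∀ x : Fin 7, (Finset.univ.filter (fun y : Fin 7 => x ≠ y ∧ (x.1 < 4 ↔ y.1 < 4))).card
      = if x.1 < 4 then 3 else 2 := by decide +kernel
  intro x _ _
  convert this x

/-- A path has at most two edges at a vertex. -/
theorem no_three {V : Type} {H : SimpleGraph V} {u w : V} (p : H.Walk u w) (hp : p.IsPath)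
    (v x y z : V) (hx : s(v, x) ∈ p.edges) (hy : s(v, y) ∈ p.edges) (hz : s(v, z) ∈ p.edges) :
    x = y ∨ x = z ∨ y = z := by
  have key : ∀ t : V, s(v, t) ∈ p.edges → ∃ i, i < p.length ∧
      ((p.getVert i = v ∧ p.getVert (i + 1) = t) ∨ (p.getVert i = t ∧ p.getVert (i + 1) = v)) := by
    intro t ht
    have h1 : p.toSubgraph.Adj v t := by
      rw [← SimpleGraph.Subgraph.mem_edgeSet, SimpleGraph.Walk.mem_edges_toSubgraph]
      exact ht
    obtain ⟨i, hi, hlt⟩ := (SimpleGraph.Walk.toSubgraph_adj_iff p).1 h1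
    exact ⟨i, hlt, by simpa [Sym2.eq_iff] using hi⟩
  have inj : ∀ i j, i ≤ p.length → j ≤ p.length → p.getVert i = p.getVert j → i = j :=
    fun i j hi hj h => hp.getVert_injOn hi hj h
  obtain ⟨i, hi, h1⟩ := key x hx
  obtain ⟨j, hj, h2⟩ := key y hy
  obtain ⟨k, hk, h3⟩ := key z hz
  rcases h1 with ⟨a1, b1⟩ | ⟨a1, b1⟩ <;> rcases h2 with ⟨a2, b2⟩ | ⟨a2, b2⟩ <;>
    rcases h3 with ⟨a3, b3⟩ | ⟨a3, b3⟩
  · left; rw [← b1, ← b2, inj i j hi.le hj.le (a1.trans a2.symm)]
  · left; rw [← b1, ← b2, inj i j hi.le hj.le (a1.trans a2.symm)]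
  · right; left; rw [← b1, ← b3, inj i k hi.le hk.le (a1.trans a3.symm)]
  · right; right
    have := inj (j + 1) (k + 1) hj hk (b2.trans b3.symm)
    rw [← a2, ← a3, show j = k by omega]
  · right; right; rw [← b2, ← b3, inj j k hj.le hk.le (a2.trans a3.symm)]
  · right; left
    have := inj (i + 1) (k + 1) hi hk (b1.trans b3.symm)
    rw [← a1, ← a3, show i = k by omega]
  · left
    have := inj (i + 1) (j + 1) hi hj (b1.trans b2.symm)
    rw [← a1, ← a2, show i = j by omega]
  · left
    have := inj (i + 1) (j + 1) hi hj (b1.trans b2.symm)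
    rw [← a1, ← a2, show i = j by omega]

/-- A walk without crossing edges stays on its side. -/
theorem side {V : Type} {H : SimpleGraph V} (A : V → Prop) {u w : V} (p : H.Walk u w)
    (h : ∀ x y, s(x, y) ∈ p.edges → (A x ↔ A y)) : ∀ x ∈ p.support, (A x ↔ A u) := by
  induction p with
  | nil => intro x hx; simp at hx; rw [hx]
  | @cons a b c hab q ih =>
    intro x hx
    rw [SimpleGraph.Walk.support_cons, List.mem_cons] at hx
    rcases hx with rfl | hx
    · rfl
    · have h1 := ih (fun x y hxy => h x y (by simp [hxy])) x hx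
      have h2 := h a b (by simp)
      rw [h1, h2]

theorem two {u w u' w' : Fin 7} (p : (⊤ : SimpleGraph (Fin 7)).Walk u w)
    (q : (⊤ : SimpleGraph (Fin 7)).Walk u' w') (hp : p.IsPath) (hq : q.IsPath)
    (h : ∀ x y : Fin 7, G.Adj x y ↔ Xor (s(x, y) ∈ p.edges) (s(x, y) ∈ q.edges)) : False := by
  have cover : ∀ x y : Fin 7, G.Adj x y → s(x, y) ∈ p.edges ∨ s(x, y) ∈ q.edges := by
    intro x y hxy
    rcases (h x y).1 hxy with h1 | h1
    · exact Or.inl h1.1
    · exact Or.inr h1.1
  have nb : ∀ x : Fin 7, x.1 < 4 → ∃ a b c : Fin 7, a ≠ b ∧ a ≠ c ∧ b ≠ c ∧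
      (x ≠ a ∧ a.1 < 4) ∧ (x ≠ b ∧ b.1 < 4) ∧ (x ≠ c ∧ c.1 < 4) := by decide +kernel
  have cross : ∀ x y : Fin 7, x.1 < 4 → ¬ y.1 < 4 →
      ¬ s(x, y) ∈ p.edges ∧ ¬ s(x, y) ∈ q.edges := by
    intro x y hx hy
    have hn : ¬ G.Adj x y := fun hh => hy (hh.2.1 hx)
    rw [h] at hn
    by_contra hc
    have hb : s(x, y) ∈ p.edges ∧ s(x, y) ∈ q.edges := by
      unfold Xor at hn; tauto
    obtain ⟨a, b, c, hab, hac, hbc, ha, hb', hc'⟩ := nb x hx
    have ya : y ≠ a := fun e => hy (e ▸ ha.2)
    have yb : y ≠ b := fun e => hy (e ▸ hb'.2)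
    have yc : y ≠ c := fun e => hy (e ▸ hc'.2)
    have ca := cover x a ⟨ha.1, by simp [hx, ha.2]⟩
    have cb := cover x b ⟨hb'.1, by simp [hx, hb'.2]⟩
    have cc := cover x c ⟨hc'.1, by simp [hx, hc'.2]⟩
    rcases ca with ca | ca <;> rcases cb with cb | cb <;> rcases cc with cc | cc
    · have := no_three p hp x y a b hb.1 ca cb; tauto
    · have := no_three p hp x y a b hb.1 ca cb; tauto
    · have := no_three p hp x y a c hb.1 ca cc; tauto
    · have := no_three q hq x y b c hb.2 cb cc; tauto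
    · have := no_three p hp x y b c hb.1 cb cc; tauto
    · have := no_three q hq x y a c hb.2 ca cc; tauto
    · have := no_three q hq x y a b hb.2 ca cb; tauto
    · have := no_three q hq x y a b hb.2 ca cb; tauto
  have sp := side (fun x : Fin 7 => x.1 < 4) p (by
    intro x y hxy
    constructor
    · intro hx; by_contra hy; exact (cross x y hx hy).1 hxy
    · intro hy; by_contra hx; exact (cross y x hy hx).1 (by rwa [Sym2.eq_swap]))
  have sq := side (fun x : Fin 7 => x.1 < 4) q (by
    intro x y hxy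
    constructor
    · intro hx; by_contra hy; exact (cross x y hx hy).2 hxy
    · intro hy; by_contra hx; exact (cross y x hy hx).2 (by rwa [Sym2.eq_swap]))
  have c1 := cover 0 1 ⟨by decide, by decide⟩
  have c2 := cover 0 2 ⟨by decide, by decide⟩
  have c3 := cover 0 3 ⟨by decide, by decide⟩
  have c4 := cover 4 5 ⟨by decide, by decide⟩
  rcases c4 with c4 | c4
  · have h4 := sp 4 (p.fst_mem_support_of_mem_edges c4)
    have hno : ∀ t, ¬ s((0 : Fin 7), t) ∈ p.edges := by
      intro t ht
      have h0 := sp 0 (p.fst_mem_support_of_mem_edges ht)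
      have : (4 : Fin 7).1 < 4 := h4.2 (h0.1 (by decide))
      exact absurd this (by decide)
    have := no_three q hq 0 1 2 3 (c1.resolve_left (hno _)) (c2.resolve_left (hno _))
      (c3.resolve_left (hno _))
    exact absurd this (by decide)
  · have h4 := sq 4 (q.fst_mem_support_of_mem_edges c4)
    have hno : ∀ t, ¬ s((0 : Fin 7), t) ∈ q.edges := by
      intro t ht
      have h0 := sq 0 (q.fst_mem_support_of_mem_edges ht)
      have : (4 : Fin 7).1 < 4 := h4.2 (h0.1 (by decide))
      exact absurd this (by decide)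
    have := no_three p hp 0 1 2 3 (c1.resolve_right (hno _)) (c2.resolve_right (hno _))
      (c3.resolve_right (hno _))
    exact absurd this (by decide)

theorem result :
    ∃ (n : ℕ) (G : SimpleGraph (Fin n)),
      ∀ k : ℕ,
        k ≤ max ((Finset.univ.filter (fun x : Fin n => Odd (G.degree x))).card / 2)
                ((G.maxDegree + 2) / 2) →
        ¬ ∃ (u w : Fin k → Fin n)
            (P : ∀ i : Fin k, (⊤ : SimpleGraph (Fin n)).Walk (u i) (w i)),
            (∀ i, (P i).IsPath) ∧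
            ∀ e : Sym2 (Fin n),
              (Odd ((Finset.univ.filter (fun i : Fin k => e ∈ (P i).edges)).card)
                ↔ e ∈ G.edgeSet) := by
  refine ⟨7, G, ?_⟩
  intro k hk
  have hmax : G.maxDegree ≤ 3 := by
    apply SimpleGraph.maxDegree_le_of_forall_degree_le
    intro v
    rw [deg_eq]
    split_ifs <;> omega
  have hodd : (Finset.univ.filter (fun x : Fin 7 => Odd (G.degree x))).card ≤ 4 := by
    have : (Finset.univ.filter (fun x : Fin 7 => Odd (G.degree x))) ⊆ {0, 1, 2, 3} := by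
      intro x hx
      rw [Finset.mem_filter, deg_eq] at hx
      have h2 := hx.2
      revert h2
      clear hx
      revert x
      decide
    exact (Finset.card_le_card this).trans (by decide)
  have hk2 : k ≤ 2 := by
    refine hk.trans (max_le ?_ ?_) <;> omega
  rintro ⟨u, w, P, hP, h⟩
  have hk3 : k = 0 ∨ k = 1 ∨ k = 2 := by omega
  rcases hk3 with rfl | rfl | rfl
  · have := (h s(0, 1)).2 (show G.Adj 0 1 from ⟨by decide, by decide⟩)
    simp at this
  · apply two (P 0) (SimpleGraph.Walk.nil : (⊤ : SimpleGraph (Fin 7)).Walk 0 0) (hP 0)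
      SimpleGraph.Walk.IsPath.nil
    intro x y
    rw [← SimpleGraph.mem_edgeSet, ← h, Finset.card_filter, Fin.sum_univ_one]
    by_cases h0 : s(x, y) ∈ (P 0).edges <;> simp [h0, Xor]
  · apply two (P 0) (P 1) (hP 0) (hP 1)
    intro x y
    rw [← SimpleGraph.mem_edgeSet, ← h, Finset.card_filter, Fin.sum_univ_two]
    by_cases h0 : s(x, y) ∈ (P 0).edges <;> by_cases h1 : s(x, y) ∈ (P 1).edges <;>
      simp [h0, h1, Xor]

end Pool.Agent.S07947
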