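import Pool.Statements.S07958
import Pool.Agent.Lib.helper6.Dist

set_option autoImplicit false
open Pool Pool.MP_31b721_co

namespace Pool.Agent.S07958

/-- parent in the tree on 0..20 with root 0, children 1..5, three leaves below each child -/
def par (v : ℕ) : ℕ := if v ≤ 5 then 0 else 1 + (v - 6) / 3

/-- the simplices of the tree: empty set, vertices, edges -/
def S (x : Fin 42) : List ℕ :=
  if x.val = 0 then [] else if x.val ≤ 21 then [x.val - 1] else [x.val - 21, par (x.val - 21)]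

/-- size of the symmetric difference -/
def d (x y : Fin 42) : ℕ :=
  (S x).countP (fun a => !((S y).contains a)) + (S y).countP (fun a => !((S x).contains a))

/-- embedding in the cube -/
def f (x : Fin 42) : Fin 21 → Bool := fun i => (S x).contains i.val

lemma ham : ∀ x y, hammingDist (f x) (f y) = d x y := by decide +kernel
lemma d0 : ∀ x, d x x = 0 := by decide +kernel
lemma dinj : ∀ x y, d x y = 0 → x = y := by decide +kernel

/-- the simplex graph of the tree -/
def G : SimpleGraph (Fin 42) where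
  Adj a b := d a b = 1
  symm := ⟨fun a b h => by unfold d at *; omega⟩
  loopless := ⟨fun a h => by rw [d0] at h; omega⟩

instance : DecidableRel G.Adj := fun a b => inferInstanceAs (Decidable (d a b = 1))

lemma hd (u v : Fin 42) : G.Reachable u v ∧ G.dist u v = d u v :=
  Pool.Agent.Lib.helper6.dist_eq_of_cert G d d0
    (fun u v w h => by
      have h1 : d v w = 1 := h
      have := hammingDist_triangle (f u) (f v) (f w)
      rw [ham, ham, ham] at this
      omega)
    (by decide +kernel) u v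

/-- edge above a vertex -/
def ed (i : Fin 42) : Fin 42 := ⟨(i.val + 20) % 42, Nat.mod_lt _ (by norm_num)⟩
/-- parent vertex -/
def pa (i : Fin 42) : Fin 42 := ⟨(par (i.val - 1) + 1) % 42, Nat.mod_lt _ (by norm_num)⟩

set_option synthInstance.maxSize 4096 in
lemma struct : ∀ i : Fin 42, G.Adj 0 i → i = 1 ∨
    (G.Adj i (ed i) ∧ G.Adj (ed i) 1 ∧ G.degree i ≤ 5 ∧ G.degree (ed i) ≤ 2) ∨
    (G.Adj i (ed i) ∧ G.Adj (ed i) (pa i) ∧ G.Adj (pa i) (ed (pa i)) ∧ G.Adj (ed (pa i)) 1 ∧
      G.degree i ≤ 2 ∧ G.degree (ed i) ≤ 2 ∧ G.degree (pa i) ≤ 5 ∧ G.degree (ed (pa i)) ≤ 2) := by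
  decide +kernel

lemma deg0 : G.degree 0 = 21 := by decide +kernel
lemma deg1 : G.degree 1 = 6 := by decide +kernel

theorem result :
    ¬ (∀ (V : Type) [Fintype V] (G : SimpleGraph V),
      (∃ u v : V, G.Adj u v) →
      (∃ (n : ℕ) (f : V → (Fin n → Bool)),
          Function.Injective f ∧ ∀ u v : V, hammingDist (f u) (f v) = G.dist u v) →
      ∃ (t : ℕ) (c : Sym2 V → ℕ),
        1 ≤ t ∧
        (∀ u v : V, G.Adj u v → 1 ≤ c s(u, v) ∧ c s(u, v) ≤ t) ∧
        (∀ k : ℕ, 1 ≤ k → k ≤ t → ∃ u v : V, G.Adj u v ∧ c s(u, v) = k) ∧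
        (∀ u v w : V, G.Adj u v → G.Adj u w → v ≠ w → c s(u, v) ≠ c s(u, w)) ∧
        (∀ (u v w : V) (k : ℕ), G.Adj u v → G.Adj u w →
            c s(u, v) ≤ k → k ≤ c s(u, w) → ∃ x : V, G.Adj u x ∧ c s(u, x) = k)) := by
  intro H
  obtain ⟨t, c, -, -, -, hprop, hint⟩ := H (Fin 42) G ⟨0, 1, by decide⟩
    ⟨21, f, fun x y h => dinj x y (by rw [← ham, h]; simp), fun u v => by rw [ham, (hd u v).2]⟩
  have step : ∀ v x y, G.Adj v x → G.Adj v y → c s(v, x) + 1 ≤ c s(v, y) + G.degree v := by
    intro v x y hx hy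
    have hsub : Finset.Icc (c s(v, y)) (c s(v, x)) ⊆
        (G.neighborFinset v).image (fun z => c s(v, z)) := by
      intro k hk
      rw [Finset.mem_Icc] at hk
      obtain ⟨z, hz, hzk⟩ := hint v y x k hy hx hk.1 hk.2
      exact Finset.mem_image.2 ⟨z, by simpa using hz, hzk⟩
    have h1 := (Finset.card_le_card hsub).trans Finset.card_image_le
    rw [Nat.card_Icc, SimpleGraph.card_neighborFinset_eq_degree] at h1
    omega
  have sw : ∀ a b, c s(a, b) = c s(b, a) := fun a b => by rw [Sym2.eq_swap]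
  have top : ∀ i, G.Adj 0 i → ∃ z, G.Adj 1 z ∧ c s(0, i) ≤ c s(1, z) + 7 ∧
      c s(1, z) ≤ c s(0, i) + 7 := by
    intro i hi
    rcases struct i hi with rfl | ⟨a1, a2, b1, b2⟩ | ⟨a1, a2, a3, a4, b1, b2, b3, b4⟩
    · exact ⟨0, hi.symm, by rw [sw 1 0]; omega, by rw [sw 1 0]; omega⟩
    · refine ⟨ed i, a2.symm, ?_⟩
      have s1 := step i 0 (ed i) hi.symm a1
      have s2 := step i (ed i) 0 a1 hi.symm
      have s3 := step (ed i) i 1 a1.symm a2
      have s4 := step (ed i) 1 i a2 a1.symm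
      rw [sw 0 i, sw 1 (ed i)]
      rw [sw (ed i) i] at s3 s4
      omega
    · refine ⟨ed (pa i), a4.symm, ?_⟩
      have s1 := step i 0 (ed i) hi.symm a1
      have s2 := step i (ed i) 0 a1 hi.symm
      have s3 := step (ed i) i (pa i) a1.symm a2
      have s4 := step (ed i) (pa i) i a2 a1.symm
      have s5 := step (pa i) (ed i) (ed (pa i)) a2.symm a3
      have s6 := step (pa i) (ed (pa i)) (ed i) a3 a2.symm
      have s7 := step (ed (pa i)) (pa i) 1 a3.symm a4
      have s8 := step (ed (pa i)) 1 (pa i) a4 a3.symm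
      rw [sw 0 i, sw 1 (ed (pa i))]
      rw [sw (ed i) i] at s3 s4
      rw [sw (pa i) (ed i)] at s5 s6
      rw [sw (ed (pa i)) (pa i)] at s7 s8
      omega
  have close : ∀ i j, G.Adj 0 i → G.Adj 0 j → c s(0, i) ≤ c s(0, j) + 19 := by
    intro i j hi hj
    obtain ⟨z, hz, h1, -⟩ := top i hi
    obtain ⟨w, hw, -, h2⟩ := top j hj
    have := step 1 z w hz hw
    rw [deg1] at this
    omega
  obtain ⟨j, hj, hmin⟩ := Finset.exists_min_image (G.neighborFinset 0) (fun z => c s(0, z))
    ⟨1, by simp only [SimpleGraph.mem_neighborFinset]; decide⟩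
  rw [SimpleGraph.mem_neighborFinset] at hj
  have hcard := Finset.card_le_card_of_injOn (s := G.neighborFinset 0)
    (t := Finset.Icc (c s(0, j)) (c s(0, j) + 19)) (fun z => c s(0, z))
    (fun z hz => by
      have hz' : z ∈ G.neighborFinset 0 := hz
      simp only [Finset.coe_Icc, Set.mem_Icc]
      exact ⟨hmin z hz', close z j (by simpa using hz') hj⟩)
    (fun x hx y hy hxy => by
      by_contra hne
      exact hprop 0 x y (by simpa using hx) (by simpa using hy) hne hxy)
  rw [Nat.card_Icc, SimpleGraph.card_neighborFinset_eq_degree, deg0] at hcard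
  omega

end Pool.Agent.S07958
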