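import Pool.Statements.S07967
import Pool.Agent.H.MP_31db24_co.B

set_option autoImplicit false
open Pool Pool.MP_31db24_co

namespace Pool.Agent.S07967

/-- For every finite colouring of ℕ there are a strictly increasing sequence b of positive integers, an integer shift t and a colour k such that every b_i + t and every b_i² + b_j + t (i < j) is a natural number coloured k. -/
theorem result :
    ∀ (r : ℕ) (c : ℕ → Fin r),
      ∃ (b : ℕ → ℕ) (t : ℤ) (k : Fin r),
        StrictMono b ∧ 0 < b 0 ∧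
        (∀ i : ℕ, ∃ n : ℕ, (n : ℤ) = (b i : ℤ) + t ∧ c n = k) ∧
        (∀ i j : ℕ, i < j →
          ∃ n : ℕ, (n : ℤ) = (b i : ℤ) ^ 2 + (b j : ℤ) + t ∧ c n = k) := by
  intro r c
  obtain ⟨b, t, k, h1, h2, h3, h4⟩ := Pool.Agent.H.MP_31db24_co.main
    (fun i : Fin r => {x : ℤ | ∃ n : ℕ, (n : ℤ) = x ∧ c n = i})
    (fun x hx => ⟨c x.toNat, x.toNat, Int.toNat_of_nonneg hx, rfl⟩)
    (by
      rintro i j x ⟨n, hn, rfl⟩ ⟨m, hm, rfl⟩
      have : n = m := by omega
      rw [this])
  have hpos : ∀ i, 0 < b i := fun i => h2.trans_le (h1.monotone (Nat.zero_le i))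
  have hcast : ∀ i, ((b i).toNat : ℤ) = b i := fun i => Int.toNat_of_nonneg (hpos i).le
  refine ⟨fun i => (b i).toNat, t, k, fun i j hij => ?_, ?_, fun i => ?_, fun i j hij => ?_⟩
  · have := h1 hij
    have := hcast i
    have := hcast j
    change (b i).toNat < (b j).toNat
    omega
  · have := hcast 0
    change 0 < (b 0).toNat
    omega
  · rw [hcast]
    exact h3 i
  · rw [hcast, hcast, add_comm (b i ^ 2)]
    exact h4 i j hij

end Pool.Agent.S07967
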