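import Pool.Statements.S07998
-- import your own Pool.Agent.* helpers here

set_option autoImplicit false
open Pool Pool.MP_32d4a3_co

namespace Pool.Agent.S07998

def Ed : List (Fin 7 → ℕ) :=
  [![3, 1, 2, 0, 2, 0, 2],
   ![0, 0, 2, 2, 0, 0, 0],
   ![0, 1, 1, 2, 2, 2, 2],
   ![2, 1, 2, 2, 3, 1, 0],
   ![3, 0, 3, 2, 3, 0, 2],
   ![0, 2, 2, 3, 3, 1, 2],
   ![0, 1, 0, 3, 3, 0, 0],
   ![2, 0, 1, 2, 3, 0, 2],
   ![3, 1, 2, 3, 2, 0, 2],
   ![3, 1, 2, 2, 3, 2, 0],
   ![3, 1, 2, 3, 1, 0, 2],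
   ![3, 1, 2, 2, 3, 1, 3],
   ![3, 0, 1, 3, 2, 1, 0],
   ![0, 1, 1, 3, 3, 0, 1],
   ![0, 0, 2, 0, 3, 1, 2],
   ![0, 0, 2, 2, 2, 0, 1],
   ![0, 1, 1, 2, 0, 1, 2],
   ![0, 1, 1, 1, 3, 0, 0],
   ![0, 0, 2, 3, 3, 3, 2],
   ![3, 3, 1, 2, 3, 0, 2],
   ![0, 3, 2, 2, 2, 0, 0],
   ![1, 1, 2, 3, 2, 0, 2],
   ![0, 1, 3, 2, 2, 1, 2],
   ![3, 0, 0, 2, 3, 0, 2]]

def chk : ℕ → List (Fin 7 → ℕ) → Bool
  | _, [] => true
  | 0, _ :: _ => false
  | k + 1, e :: L => (List.finRange 7).any fun i => chk k (L.filter fun f => f i != e i)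

theorem chk_of_cover : ∀ (k : ℕ) (L : List (Fin 7 → ℕ)) (C : Finset (Fin 7 × ℕ)),
    C.card ≤ k → (∀ e ∈ L, ∃ i : Fin 7, (i, e i) ∈ C) → chk k L = true := by
  intro k
  induction k with
  | zero =>
    intro L C hC h
    cases L with
    | nil => rfl
    | cons e L =>
      obtain ⟨i, hi⟩ := h e (by simp)
      have : C = ∅ := Finset.card_eq_zero.mp (Nat.le_zero.mp hC)
      simp [this] at hi
  | succ k ih =>
    intro L C hC h
    cases L with
    | nil => rfl
    | cons e L =>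
      obtain ⟨i, hi⟩ := h e (by simp)
      simp only [chk, List.any_eq_true]
      refine ⟨i, List.mem_finRange i, ih _ (C.erase (i, e i)) ?_ ?_⟩
      · rw [Finset.card_erase_of_mem hi]; omega
      · intro f hf
        rw [List.mem_filter] at hf
        obtain ⟨j, hj⟩ := h f (List.mem_cons_of_mem _ hf.1)
        refine ⟨j, Finset.mem_erase.mpr ⟨?_, hj⟩⟩
        intro hEq
        have h1 : j = i := congrArg Prod.fst hEq
        have h2 : f j = e i := congrArg Prod.snd hEq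
        subst h1
        have h3 := hf.2
        simp [h2] at h3

theorem no_cover : chk 3 Ed = false := by decide +kernel

theorem inter2 : ∀ e ∈ Ed, ∀ f ∈ Ed, 2 ≤ (Finset.univ.filter (fun i => e i = f i)).card := by
  decide +kernel

/-- The negation of the preceding statement: For 2 ≤ t ≤ r, every finite r-partite r-uniform hypergraph whose edges pairwise share at least t vertices has a vertex cover of size at most floor((r−t)/2)+1, and some such hypergraph needs exactly that many. -/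
theorem result :
    ¬ (∀ r t : ℕ, 2 ≤ t → t ≤ r →
      (∀ H : Finset (Fin r → ℕ),
          (∀ e ∈ H, ∀ f ∈ H, t ≤ (Finset.univ.filter (fun i => e i = f i)).card) →
          ∃ C : Finset (Fin r × ℕ), C.card ≤ (r - t) / 2 + 1 ∧
            ∀ e ∈ H, ∃ i : Fin r, (i, e i) ∈ C) ∧
      (∃ H : Finset (Fin r → ℕ),
          (∀ e ∈ H, ∀ f ∈ H, t ≤ (Finset.univ.filter (fun i => e i = f i)).card) ∧
          ∀ C : Finset (Fin r × ℕ), (∀ e ∈ H, ∃ i : Fin r, (i, e i) ∈ C) →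
            (r - t) / 2 + 1 ≤ C.card)) := by
  intro h
  obtain ⟨C, hC, hcov⟩ := (h 7 2 (by norm_num) (by norm_num)).1 Ed.toFinset (by
    intro e he f hf
    exact inter2 e (List.mem_toFinset.mp he) f (List.mem_toFinset.mp hf))
  have h3 := chk_of_cover 3 Ed C (by simpa using hC)
    (fun e he => hcov e (List.mem_toFinset.mpr he))
  rw [no_cover] at h3
  exact absurd h3 (by simp)

end Pool.Agent.S07998
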