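import Pool.Statements.S08023
import Pool.Agent.H.MP_b9302b_co.E

set_option autoImplicit false
open Pool Pool.MP_343cc6_co

namespace Pool.Agent.S08023

open Pool.Agent.H.MP_b9302b_co Function

theorem key {m : ℕ} [NeZero m] (a b x y : ZMod m) :
    min (a - b).val (b - a).val = min (x - y).val (y - x).val ↔ a - b = x - y ∨ a - b = y - x := by
  constructor
  · intro h
    rcases min_choice (a - b).val (b - a).val with e | e <;>
      rcases min_choice (x - y).val (y - x).val with f | f <;> rw [e, f] at h <;>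
      have := ZMod.val_injective m h
    · exact Or.inl this
    · exact Or.inr this
    · exact Or.inr (by linear_combination -this)
    · exact Or.inl (by linear_combination -this)
  · rintro (h | h)
    · rw [h, show b - a = y - x by linear_combination -h]
    · rw [h, show b - a = x - y by linear_combination -h, min_comm]

def S {m : ℕ} (v a : ZMod m) : Prop := a ≠ 0 ∧ a ≠ v ∧ a + v ≠ 0

def R {m : ℕ} (v a w b : ZMod m) : Prop :=
  (v - a = w - b ∨ v - a = b - w ∨ v + a = w + b ∨ a = b ∨ a = w ∨ b = v) →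
    (v = w ∧ a = b) ∨ (v = b ∧ a = w)

def go (m : ℕ) [NeZero m] : List (ZMod m) → List (ZMod m × ZMod m) → Bool
  | [], _ => false
  | v :: t, d => decide (∀ a : ZMod m, (a ≠ 0 ∧ a ≠ v ∧ a + v ≠ 0) →
      (∀ p ∈ d, (v - a = p.1 - p.2 ∨ v - a = p.2 - p.1 ∨ v + a = p.1 + p.2 ∨ a = p.2 ∨ a = p.1 ∨
        p.2 = v) → (v = p.1 ∧ a = p.2) ∨ (v = p.2 ∧ a = p.1)) → go m t ((v, a) :: d) = true)

theorem go_no (m : ℕ) [NeZero m] (q : ZMod m → ZMod m) (h1 : ∀ v, v ≠ 0 → S v (q v))
    (h2 : ∀ v w, v ≠ 0 → w ≠ 0 → R v (q v) w (q w)) :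
    ∀ (t : List (ZMod m)) (d : List (ZMod m × ZMod m)), (∀ v ∈ t, v ≠ 0) →
      (∀ p ∈ d, p.1 ≠ 0 ∧ p.2 = q p.1) → go m t d ≠ true
  | [], _, _, _ => by simp [go]
  | v :: t, d, ht, hd => by
    intro h
    simp only [go, decide_eq_true_eq] at h
    have hv := ht v (by simp)
    refine go_no m q h1 h2 t ((v, q v) :: d) (fun w hw => ht w (by simp [hw])) ?_
      (h (q v) (h1 v hv) fun p hp => ?_)
    · intro p hp
      rcases List.mem_cons.1 hp with rfl | hp
      · exact ⟨hv, rfl⟩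
      · exact hd p hp
    · rw [(hd p hp).2]
      exact h2 v p.1 hv (hd p hp).1

theorem ext_q (m : ℕ) [NeZero m] (M : SimpleGraph (ZMod m)) (c : ZMod m)
    (a1 : ∀ w, ¬ M.Adj c w) (a2 : ∀ v, v ≠ c → ∃! w, M.Adj v w)
    (a3 : ∀ a b x y, M.Adj a b → M.Adj x y →
      min (a - b).val (b - a).val = min (x - y).val (y - x).val →
      (a = x ∧ b = y) ∨ (a = y ∧ b = x))
    (a4 : ∀ a b x y, M.Adj a b → M.Adj x y →
      min (a - x).val (x - a).val = min (b - y).val (y - b).val →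
      (a = x ∧ b = y) ∨ (a = y ∧ b = x))
    (a5 : ∀ a b, M.Adj a b → min (a - c).val (c - a).val ≠ min (b - c).val (c - b).val) :
    ∃ q : ZMod m → ZMod m, (∀ v, v ≠ 0 → S v (q v)) ∧
      ∀ v w, v ≠ 0 → w ≠ 0 → R v (q v) w (q w) := by
  simp only [ne_eq, key] at a3 a4 a5
  have : ∀ v : ZMod m, ∃ a, v ≠ 0 → M.Adj (v + c) (a + c) := fun v => by
    by_cases h : v = 0
    · exact ⟨0, fun e => absurd h e⟩
    · obtain ⟨w, hw, -⟩ := a2 (v + c) (by simpa using h)
      exact ⟨w - c, fun _ => by simpa using hw⟩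
  choose q hq using this
  have un : ∀ u v w, M.Adj u v → M.Adj u w → v = w := fun u v w e f =>
    (a2 u (fun z => a1 v (z ▸ e))).unique e f
  refine ⟨q, fun v hv => ⟨fun e => ?_, fun e => ?_, fun e => ?_⟩, fun v w hv hw h => ?_⟩
  · have := (hq v hv).symm
    rw [e, zero_add] at this
    exact a1 _ this
  · have := hq v hv
    rw [e] at this
    exact M.irrefl this
  · exact a5 _ _ (hq v hv) (Or.inr (by linear_combination e))
  · have e1 := hq v hv
    have e2 := hq w hw
    suffices (v + c = w + c ∧ q v + c = q w + c) ∨ (v + c = q w + c ∧ q v + c = w + c) by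
      simpa using this
    rcases h with h | h | h | h | h | h
    · exact a3 _ _ _ _ e1 e2 (Or.inl (by linear_combination h))
    · exact a3 _ _ _ _ e1 e2 (Or.inr (by linear_combination h))
    · exact a4 _ _ _ _ e1 e2 (Or.inr (by linear_combination h))
    · exact Or.inl ⟨un _ _ _ e1.symm (h ▸ e2.symm), by rw [h]⟩
    · exact Or.inr ⟨un _ _ _ e1.symm (h ▸ e2), by rw [h]⟩
    · exact Or.inr ⟨by rw [h], un _ _ _ e1 (h ▸ e2.symm)⟩

theorem of_ss (m : ℕ) [NeZero m] (h : SS (ZMod m)) :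
    ∃ (M : SimpleGraph (ZMod m)) (c : ZMod m),
      (∀ w, ¬ M.Adj c w) ∧ (∀ v, v ≠ c → ∃! w, M.Adj v w) ∧
      (∀ a b x y, M.Adj a b → M.Adj x y →
        min (a - b).val (b - a).val = min (x - y).val (y - x).val →
        (a = x ∧ b = y) ∨ (a = y ∧ b = x)) ∧
      (∀ a b x y, M.Adj a b → M.Adj x y →
        min (a - x).val (x - a).val = min (b - y).val (y - b).val →
        (a = x ∧ b = y) ∨ (a = y ∧ b = x)) ∧
      (∀ a b, M.Adj a b → min (a - c).val (c - a).val ≠ min (b - c).val (c - b).val) := by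
  obtain ⟨ι, x, y, jf, jc, j1, j2, j3, j4, j5⟩ := h
  have ne : ∀ i j, x i ≠ y j := fun i j e => by simpa using @j1 (.inl i) (.inr j) e
  have xi : ∀ i j, x i = x j → i = j := fun i j e => by simpa using @j1 (.inl i) (.inl j) e
  have yi : ∀ i j, y i = y j → i = j := fun i j e => by simpa using @j1 (.inr i) (.inr j) e
  have d1 : ∀ i j, x i - y i = x j - y j → i = j := fun i j e => by
    simpa using @j3 (.inl i) (.inl j) e
  have d2 : ∀ i j, x i - y i ≠ y j - x j := fun i j e => by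
    simpa using @j3 (.inl i) (.inr j) e
  let V : Option (ι ⊕ ι) → ZMod m := fun o => o.elim 0 (Sum.elim x y)
  have Vi : Injective V := by
    rintro (_ | a) (_ | b) e
    · rfl
    · rcases b with b | b <;> simp [V, eq_comm, j2 b] at e
    · rcases a with a | a <;> simp [V, j2 a] at e
    · exact congrArg _ (j1 e)
  have Vb := (Nat.bijective_iff_injective_and_card V).2 ⟨Vi, by
    rw [Finite.card_option, Nat.card_sum, ← jc]; ring⟩
  let M : SimpleGraph (ZMod m) :=
    ⟨fun a b => ∃ i, (a = x i ∧ b = y i) ∨ (a = y i ∧ b = x i),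
      ⟨fun a b ⟨i, h⟩ => ⟨i, by tauto⟩⟩,
      ⟨fun a ⟨i, h⟩ => by rcases h with ⟨e, f⟩ | ⟨f, e⟩ <;> exact ne i i (e.symm.trans f)⟩⟩
  have D : ∀ a b u v, M.Adj a b → M.Adj u v → (a - b = u - v ∨ a - b = v - u ∨ a + b = u + v) →
      (a = u ∧ b = v) ∨ (a = v ∧ b = u) := by
    rintro a b u v ⟨i, h⟩ ⟨j, k⟩ e
    obtain rfl : i = j := by
      rcases h with ⟨rfl, rfl⟩ | ⟨rfl, rfl⟩ <;> rcases k with ⟨rfl, rfl⟩ | ⟨rfl, rfl⟩ <;>
        rcases e with e | e | e
      all_goals first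
        | exact d1 _ _ (by linear_combination e)
        | exact d1 _ _ (by linear_combination -e)
        | exact absurd (by linear_combination e) (d2 i j)
        | exact absurd (by linear_combination -e) (d2 i j)
        | exact j4 (by simp only; linear_combination e)
    rcases h with ⟨rfl, rfl⟩ | ⟨rfl, rfl⟩ <;> rcases k with ⟨rfl, rfl⟩ | ⟨rfl, rfl⟩ <;> simp
  simp only [ne_eq, key]
  refine ⟨M, 0, ?_, fun v hv => ?_, fun a b u v h k e => D a b u v h k (by tauto),
    fun a b u v h k e => D a b u v h k ?_, ?_⟩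
  · rintro w ⟨i, ⟨e, -⟩ | ⟨e, -⟩⟩
    · exact (j2 i).1 e.symm
    · exact (j2 i).2 e.symm
  · obtain ⟨_ | i | i, rfl⟩ := Vb.2 v
    · exact absurd rfl hv
    · refine ⟨y i, ⟨i, Or.inl ⟨rfl, rfl⟩⟩, ?_⟩
      rintro w ⟨j, ⟨e, rfl⟩ | ⟨e, -⟩⟩
      · rw [xi i j e]
      · exact absurd e (ne i j)
    · refine ⟨x i, ⟨i, Or.inr ⟨rfl, rfl⟩⟩, ?_⟩
      rintro w ⟨j, ⟨e, -⟩ | ⟨e, rfl⟩⟩
      · exact absurd e.symm (ne j i)
      · rw [yi i j e]
  · rcases e with e | e
    · exact Or.inl (by linear_combination e)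
    · exact Or.inr (Or.inr (by linear_combination e))
  · rintro a b h (e | e)
    · exact h.ne (by linear_combination e)
    · obtain ⟨i, ⟨rfl, rfl⟩ | ⟨rfl, rfl⟩⟩ := h <;> exact j5 i (by linear_combination e)

theorem g3 : go 3 [1, 2] [] = true := by decide +kernel
theorem g5 : go 5 [1, 2, 3, 4] [] = true := by decide +kernel
theorem g9 : go 9 [1, 2, 3, 4, 5, 6, 7, 8] [] = true := by decide +kernel

theorem result :
    ∀ n : ℕ, 2 ≤ n →
      ((∃ (M : SimpleGraph (ZMod (2 * n - 1))) (c : ZMod (2 * n - 1)),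
          (∀ w, ¬ M.Adj c w) ∧
          (∀ v, v ≠ c → ∃! w, M.Adj v w) ∧
          (∀ a b x y, M.Adj a b → M.Adj x y →
            min (a - b).val (b - a).val = min (x - y).val (y - x).val →
            (a = x ∧ b = y) ∨ (a = y ∧ b = x)) ∧
          (∀ a b x y, M.Adj a b → M.Adj x y →
            min (a - x).val (x - a).val = min (b - y).val (y - b).val →
            (a = x ∧ b = y) ∨ (a = y ∧ b = x)) ∧
          (∀ a b, M.Adj a b →
            min (a - c).val (c - a).val ≠ min (b - c).val (c - b).val))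
        ↔ (4 ≤ n ∧ n ≠ 5)) := by
  intro n hn
  have : NeZero (2 * n - 1) := ⟨by omega⟩
  constructor
  · rintro ⟨M, c, a1, a2, a3, a4, a5⟩
    obtain ⟨q, q1, q2⟩ := ext_q _ M c a1 a2 a3 a4 a5
    by_contra hc
    rcases (by omega : n = 2 ∨ n = 3 ∨ n = 5) with rfl | rfl | rfl
    · exact go_no 3 q q1 q2 _ _ (by decide) (by simp) g3
    · exact go_no 5 q q1 q2 _ _ (by decide) (by simp) g5
    · exact go_no 9 q q1 q2 _ _ (by decide) (by simp) g9
  · intro h
    exact of_ss _ (main (2 * n - 1) _ (by simp) (by omega) (by omega) (by omega) (by omega))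

end Pool.Agent.S08023
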