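import Pool.Statements.S08046
import Mathlib
-- import your own Pool.Agent.* helpers here

set_option autoImplicit false
open Classical
open Pool Pool.MP_34e2ea_co

namespace Pool.Agent.S08046

abbrev E := EuclideanSpace ℝ (Fin 4)

theorem cover : ∃ m : ℕ, ∀ K : Set E, IsCompact K → Metric.diam K = 1 →
    ∃ f : E → Fin m, ∀ i : Fin m, Metric.diam (K ∩ f ⁻¹' {i}) < 1 := by
  obtain ⟨t, ht, hc⟩ := Metric.totallyBounded_iff.mp
    (isCompact_closedBall (0 : E) 1).totallyBounded (1 / 3) (by norm_num)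
  refine ⟨ht.toFinset.card, fun K hK hd => ?_⟩
  obtain ⟨x0, hx0⟩ : K.Nonempty := by
    rw [Set.nonempty_iff_ne_empty]
    rintro rfl
    simp at hd
  have key : ∀ x ∈ K, ∃ y : ht.toFinset, dist (x - x0) y < 1 / 3 := fun x hx => by
    have : x - x0 ∈ Metric.closedBall (0 : E) 1 := by
      rw [mem_closedBall_zero_iff, ← dist_eq_norm, ← hd]
      exact Metric.dist_le_diam_of_mem hK.isBounded hx hx0
    obtain ⟨y, hy, h⟩ := Set.mem_iUnion₂.mp (hc this)
    exact ⟨⟨y, ht.mem_toFinset.mpr hy⟩, h⟩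
  have : ∀ x, ∃ y : ht.toFinset, x ∈ K → dist (x - x0) y < 1 / 3 := fun x => by
    by_cases hx : x ∈ K
    · exact (key x hx).imp fun _ h _ => h
    · exact (key x0 hx0).imp fun _ _ h => absurd h hx
  choose g hg using this
  refine ⟨fun x => ht.toFinset.equivFin (g x), fun i =>
    (Metric.diam_le_of_forall_dist_le (C := 2 / 3) (by norm_num) fun x hx y hy => ?_).trans_lt
      (by norm_num)⟩
  have e : g x = g y := ht.toFinset.equivFin.injective (hx.2.trans hy.2.symm)
  have h1 := hg x hx.1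
  have h2 := hg y hy.1
  rw [← e] at h2
  have := dist_triangle_right (x - x0) (y - x0) (g x)
  rw [dist_sub_right] at this
  linarith

noncomputable def a (t : ℝ) : E := !₂[√(1 - t ^ 2), t, 0, 0]
noncomputable def b (t : ℝ) : E := !₂[0, 0, √(1 - t ^ 2), t]

theorem sq {t : ℝ} (h0 : 0 ≤ t) (h1 : t ≤ 1) : √(1 - t ^ 2) ^ 2 = 1 - t ^ 2 :=
  Real.sq_sqrt (by nlinarith)

theorem na {t : ℝ} (h0 : 0 ≤ t) (h1 : t ≤ 1) : ‖a t‖ = 1 := by
  simp [a, EuclideanSpace.norm_eq, Fin.sum_univ_four, sq h0 h1]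

theorem nb {t : ℝ} (h0 : 0 ≤ t) (h1 : t ≤ 1) : ‖b t‖ = 1 := by
  simp [b, EuclideanSpace.norm_eq, Fin.sum_univ_four, sq h0 h1]

theorem dab {s t : ℝ} (h0 : 0 ≤ t) (h1 : t ≤ 1) (h2 : 0 ≤ s) (h3 : s ≤ 1) :
    dist (a t) (b s) = √2 := by
  simp [a, b, EuclideanSpace.dist_eq, Fin.sum_univ_four, sq h0 h1, sq h2 h3]
  congr 1
  ring

theorem daa (s t : ℝ) : |s - t| ≤ dist (a s) (a t) := PiLp.dist_apply_le (a s) (a t) 1

theorem dbb {s t e : ℝ} (h0 : 0 ≤ t) (h1 : t ≤ e) (h2 : 0 ≤ s) (h3 : s ≤ e) (he : e ≤ 1) :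
    dist (b t) (b s) ≤ 2 * e := by
  have l : ∀ u, 0 ≤ u → u ≤ e → 1 - e ^ 2 ≤ √(1 - u ^ 2) := fun u a b =>
    Real.le_sqrt_of_sq_le (by nlinarith [mul_nonneg (sq_nonneg e) (by nlinarith : 0 ≤ 1 - e ^ 2)])
  have := mul_le_mul (l t h0 h1) (l s h2 h3) (by nlinarith) (Real.sqrt_nonneg _)
  rw [EuclideanSpace.dist_eq, Real.sqrt_le_left (by linarith), Fin.sum_univ_four]
  simp only [b, Real.dist_eq, sq_abs]
  change (0 - 0) ^ 2 + (0 - 0) ^ 2 + (√(1 - t ^ 2) - √(1 - s ^ 2)) ^ 2 + (t - s) ^ 2 ≤ _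
  nlinarith [sq h0 (h1.trans he), sq h2 (h3.trans he), mul_nonneg h0 h2, sq_nonneg (e ^ 2)]

theorem conv (S : Set E) (h : ∀ x ∈ S, ‖x‖ = 1) (x : E) (hx : x ∈ S) :
    x ∉ convexHull ℝ (S \ {x}) := fun hc => by
  have := convexHull_min (t := {y : E | inner ℝ x y < 1}) (fun y hy => by
    have := (inner_lt_one_iff_real_of_norm_eq_one (h x hx) (h y hy.1)).mpr fun e => hy.2 e.symm
    exact this) (convex_halfSpace_lt ⟨inner_add_right x, fun c y => real_inner_smul_right x y c⟩ 1) hc
  rw [Set.mem_ofPred_eq, real_inner_self_eq_norm_sq, h x hx] at this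
  norm_num at this

/-- The negation of the preceding statement: For all d, k there is N such that any set S of at least N points in convex position in R^d has its k-largest-distances graph colorable with m colors, for every m such that every compact diameter-1 set splits into m parts of diameter < 1. -/
theorem result :
    ¬ (∀ d k : ℕ, ∃ N : ℕ, ∀ S : Finset (EuclideanSpace ℝ (Fin d)),
      N ≤ S.card →
      (∀ x ∈ S, x ∉ convexHull ℝ ((↑S : Set (EuclideanSpace ℝ (Fin d))) \ {x})) →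
      ∀ m : ℕ,
        (∀ K : Set (EuclideanSpace ℝ (Fin d)), IsCompact K → Metric.diam K = 1 →
          ∃ f : EuclideanSpace ℝ (Fin d) → Fin m,
            ∀ i : Fin m, Metric.diam (K ∩ f ⁻¹' {i}) < 1) →
        (SimpleGraph.fromRel (fun x y : S =>
          ((S.offDiag.image (fun p => dist p.1 p.2)).filter
            (fun r => dist (x : EuclideanSpace ℝ (Fin d)) (y : EuclideanSpace ℝ (Fin d)) < r)).card
              < k)).Colorable m) := by
  intro h
  obtain ⟨m, hm⟩ := cover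
  obtain ⟨N, hN⟩ := h 4 ((m + 1) * (m + 1) + 2)
  have hM : (0 : ℝ) < m + 1 := by positivity
  have hN1 : (0 : ℝ) < N + 1 := by positivity
  set e : ℝ := 1 / (2 * (m + 1)) with he
  have he0 : 0 < e := by positivity
  have he1 : e ≤ 1 := by
    rw [he, div_le_one (by positivity)]
    linarith [(Nat.cast_nonneg m : (0 : ℝ) ≤ m)]
  let A : Finset E := Finset.univ.image fun i : Fin (m + 1) => a (i / (m + 1))
  let B : Finset E := Finset.univ.image fun j : Fin N => b (j / (N + 1) * e)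
  have hA : ∀ x ∈ A, ∃ t, 0 ≤ t ∧ t ≤ 1 ∧ x = a t := fun x hx => by
    obtain ⟨i, -, rfl⟩ := Finset.mem_image.mp hx
    refine ⟨_, by positivity, ?_, rfl⟩
    rw [div_le_one hM]
    exact_mod_cast i.2.le
  have hB : ∀ x ∈ B, ∃ t, 0 ≤ t ∧ t ≤ e ∧ x = b t := fun x hx => by
    obtain ⟨i, -, rfl⟩ := Finset.mem_image.mp hx
    refine ⟨_, by positivity, mul_le_of_le_one_left he0.le ?_, rfl⟩
    rw [div_le_one hN1]
    exact_mod_cast i.2.le.trans (Nat.le_succ N)
  obtain ⟨C⟩ := hN (A ∪ B) (le_trans (by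
      rw [Finset.card_image_of_injective, Finset.card_univ, Fintype.card_fin]
      intro i j hij
      have : (i : ℝ) / (N + 1) * e = j / (N + 1) * e := congrArg (fun z : E => z 3) hij
      rw [mul_left_inj' he0.ne', div_left_inj' hN1.ne'] at this
      exact Fin.ext (by exact_mod_cast this)) (Finset.card_le_card Finset.subset_union_right))
    (conv _ fun x hx => by
      rcases Finset.mem_union.mp hx with hx | hx
      · obtain ⟨t, h0, h1, rfl⟩ := hA x hx
        exact na h0 h1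
      · obtain ⟨t, h0, h1, rfl⟩ := hB x hx
        exact nb h0 (h1.trans he1)) m hm
  let v : Fin (m + 1) → ↥(A ∪ B) := fun i =>
    ⟨a (i / (m + 1)), Finset.mem_union_left _ (Finset.mem_image_of_mem _ (Finset.mem_univ _))⟩
  have := Fintype.card_le_of_injective (fun i => C (v i)) fun i j hij => by
    by_contra hne
    have hd : 2 * e ≤ dist (v i : E) (v j) := by
      refine le_trans ?_ (daa _ _)
      have : (1 : ℝ) ≤ |(i : ℝ) - j| := by
        have : (1 : ℤ) ≤ |(i : ℤ) - j| :=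
          Int.one_le_abs (sub_ne_zero.mpr fun q => hne (Fin.ext (by exact_mod_cast q)))
        exact_mod_cast this
      rw [← sub_div, abs_div, abs_of_pos hM, le_div_iff₀ hM, he]
      field_simp
      exact this
    refine C.valid ((SimpleGraph.fromRel_adj _ _ _).mpr ⟨fun q => ?_, Or.inl ?_⟩) hij
    · rw [q, dist_self] at hd
      linarith
    · refine lt_of_le_of_lt (Finset.card_le_card
        (t := insert √2 ((A ×ˢ A).image fun p => dist p.1 p.2)) fun r hr => ?_) ?_
      · obtain ⟨hr, hlt⟩ := Finset.mem_filter.mp hr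
        obtain ⟨⟨x, y⟩, hp, rfl⟩ := Finset.mem_image.mp hr
        obtain ⟨hx, hy, -⟩ := Finset.mem_offDiag.mp hp
        rw [Finset.mem_insert]
        rcases Finset.mem_union.mp hx with hx | hx <;> rcases Finset.mem_union.mp hy with hy | hy
        · exact Or.inr (Finset.mem_image.mpr ⟨(x, y), Finset.mem_product.mpr ⟨hx, hy⟩, rfl⟩)
        · obtain ⟨t, h0, h1, rfl⟩ := hA x hx
          obtain ⟨s, h2, h3, rfl⟩ := hB y hy
          exact Or.inl (dab h0 h1 h2 (h3.trans he1))
        · obtain ⟨t, h0, h1, rfl⟩ := hA y hy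
          obtain ⟨s, h2, h3, rfl⟩ := hB x hx
          exact Or.inl ((dist_comm _ _).trans (dab h0 h1 h2 (h3.trans he1)))
        · obtain ⟨t, h0, h1, rfl⟩ := hB x hx
          obtain ⟨s, h2, h3, rfl⟩ := hB y hy
          exact absurd ((dbb h0 h1 h2 h3 he1).trans hd) (not_le.mpr hlt)
      · have h1 : A.card ≤ m + 1 := Finset.card_image_le.trans (by simp)
        have h2 := Finset.card_insert_le √2 ((A ×ˢ A).image fun p => dist p.1 p.2)
        have h3 := Finset.card_image_le (s := A ×ˢ A) (f := fun p => dist p.1 p.2)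
        rw [Finset.card_product] at h3
        have := Nat.mul_le_mul h1 h1
        omega
  simp at this

end Pool.Agent.S08046
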