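import Pool.Statements.S08058

set_option autoImplicit false
open Pool Pool.MP_351e72_co

namespace Pool.Agent.S08058

/-- The negation of the preceding statement: For h hyperbolic w.r.t. e of degree d and v_j in the closed cone summing to e with traces ≤ ε, every real zero of ∏(1−D_{v_j})h(te) is ≤ some zero of the one for v = (ε/d)e (k times), (1−kε/d)e, then 0s, k=⌊d/ε⌋. -/
theorem result :
    ¬ (∀ (n d m : ℕ) (h : MvPolynomial (Fin n) ℝ) (e : Fin n → ℝ) (ε : ℝ),
      h.IsHomogeneous d →
      MvPolynomial.eval e h ≠ 0 →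
      (∀ (x : Fin n → ℝ) (z : ℂ),
          MvPolynomial.aeval (fun i => z * (e i : ℂ) - (x i : ℂ)) h = 0 → z.im = 0) →
      0 < ε → 0 < m → (d : ℝ) ≤ (m : ℝ) * ε →
      ∀ v : Fin m → Fin n → ℝ,
        (∀ j, ∀ t : ℝ, t < 0 → MvPolynomial.eval (fun i => t * e i - v j i) h ≠ 0) →
        (∑ j, v j = e) →
        (∀ j, (∑ i, v j i * MvPolynomial.eval e (MvPolynomial.pderiv i h))
              / MvPolynomial.eval e h ≤ ε) →
        ∀ t : ℝ,
          MvPolynomial.eval (fun i => t * e i)
            (((List.ofFn (fun j : Fin m =>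
                ((1 : Module.End ℝ (MvPolynomial (Fin n) ℝ)) - ∑ i : Fin n,
                  v j i • (MvPolynomial.pderiv (R := ℝ) i).toLinearMap))).prod :
                Module.End ℝ (MvPolynomial (Fin n) ℝ)) h) = 0 →
          ∃ s : ℝ, t ≤ s ∧
            MvPolynomial.eval (fun i => s * e i)
              (((List.ofFn (fun j : Fin m =>
                  ((1 : Module.End ℝ (MvPolynomial (Fin n) ℝ)) - ∑ i : Fin n,
                    ((if (j : ℕ) < ⌊(d : ℝ) / ε⌋₊ then ε / (d : ℝ)
                      else if (j : ℕ) = ⌊(d : ℝ) / ε⌋₊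
                        then 1 - (⌊(d : ℝ) / ε⌋₊ : ℝ) * ε / (d : ℝ)
                      else 0) * e i) •
                    (MvPolynomial.pderiv (R := ℝ) i).toLinearMap))).prod :
                  Module.End ℝ (MvPolynomial (Fin n) ℝ)) h) = 0) := by
  intro H
  have dn : ∀ (i : Fin 2) (k : ℕ) [k.AtLeastTwo],
      MvPolynomial.pderiv i (no_index (OfNat.ofNat k) : MvPolynomial (Fin 2) ℝ) = 0 :=
    fun i k _ => Derivation.map_natCast _ _
  have hf : ⌊((37 : ℕ) : ℝ) / 18⌋₊ = 2 := by
    rw [Nat.floor_eq_iff (by norm_num)]; norm_num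
  obtain ⟨s, hs, h0⟩ := H 2 37 3 (MvPolynomial.X 0 * MvPolynomial.X 1 ^ 36) (fun _ => 1) 18
    ((MvPolynomial.isHomogeneous_X ℝ 0).mul (MvPolynomial.isHomogeneous_X_pow 1 36))
    (by simp)
    (fun x z hz => by
      simp only [map_mul, map_pow, MvPolynomial.aeval_X, mul_eq_zero, pow_eq_zero_iff
        (show 36 ≠ 0 by norm_num), sub_eq_zero, Complex.ofReal_one, mul_one] at hz
      rcases hz with h | h <;> rw [h] <;> simp)
    (by norm_num) (by norm_num) (by norm_num) ![![0, 1 / 2], ![0, 1 / 2], ![1, 0]]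
    (fun j t ht => by
      simp only [map_mul, map_pow, MvPolynomial.eval_X, mul_one]
      refine mul_ne_zero ?_ (pow_ne_zero _ ?_) <;> fin_cases j <;> simp <;> linarith)
    (by ext i; fin_cases i <;> simp [Fin.sum_univ_three] <;> norm_num)
    (fun j => by
      fin_cases j <;>
        simp [Fin.sum_univ_two, Derivation.leibniz, Derivation.leibniz_pow, MvPolynomial.pderiv_X] <;>
        norm_num)
    21
    (by
      simp [List.ofFn_succ, Fin.sum_univ_two, Derivation.leibniz, Derivation.leibniz_pow,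
        MvPolynomial.pderiv_X, dn]
      norm_num)
  rw [hf] at h0
  simp [List.ofFn_succ, Fin.sum_univ_two, Derivation.leibniz, Derivation.leibniz_pow,
    MvPolynomial.pderiv_X, dn] at h0
  have h1 : s ^ 34 * (s ^ 3 - 37 * s ^ 2 + 12960 / 37 * s - 408240 / 1369) = 0 := by
    linear_combination h0
  obtain ⟨u, rfl⟩ : ∃ u, s = 21 + u := ⟨s - 21, by ring⟩
  have hu : 0 ≤ u := by linarith
  have h2 : (21 + u) ^ 3 - 37 * (21 + u) ^ 2 + 12960 / 37 * (21 + u) - 408240 / 1369
      = u ^ 3 + 26 * u ^ 2 + 4413 / 37 * u + 2016 / 1369 := by ring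
  rw [h2] at h1
  exact absurd h1 (by positivity)

end Pool.Agent.S08058
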