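import Pool.Statements.S08075
import Pool.Agent.H.MP_35c2eb_co.A

set_option autoImplicit false
open Pool Pool.MP_35c2eb_co

namespace Pool.Agent.S08075

/-- If a subgraph-closed graph class has, for each h≥1, a uniform dimension bound for finite posets of height ≤h whose cover graphs lie in it, then for every r its r-shallow minors have edge count at most a constant times vertex count. -/
theorem result :
  ∀ C : ∀ V : Type, SimpleGraph V → Prop,
    (∀ (V W : Type) (G : SimpleGraph V) (H : SimpleGraph W) (f : H →g G),
        Function.Injective f → C V G → C W H) →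
    (∀ h : ℕ, 1 ≤ h → ∃ d : ℕ, ∀ (P : Type) [Fintype P] [PartialOrder P],
        (∀ s : Finset P, IsChain (· ≤ ·) (s : Set P) → s.card ≤ h) →
        C P (SimpleGraph.fromRel (fun x y : P => x ⋖ y)) →
        ∃ f : Fin d → P → ℕ, (∀ i, Function.Injective (f i)) ∧
          ∀ x y : P, x ≤ y ↔ ∀ i, f i x ≤ f i y) →
    ∀ r : ℕ, ∃ c : ℕ, ∀ (V W : Type) [Fintype V] [Fintype W]
        (G : SimpleGraph V) (H : SimpleGraph W),
      C V G →
      (∃ B : W → Set V, (∀ w w', w ≠ w' → Disjoint (B w) (B w')) ∧
        (∀ w, ∃ v ∈ B w, ∀ u ∈ B w, ∃ p : G.Walk v u,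
            p.length ≤ r ∧ ∀ x ∈ p.support, x ∈ B w) ∧
        (∀ w w', H.Adj w w' → ∃ u ∈ B w, ∃ u' ∈ B w', G.Adj u u')) →
      Nat.card H.edgeSet ≤ c * Fintype.card W := by
  open Pool.Agent.H.MP_bdfe62_co Pool.Agent.H.MP_35c2eb_co Finset in
  intro C hC hd r
  obtain ⟨d, hd⟩ := hd (2 * r + 2) (by omega)
  refine ⟨(4 * d).factorial * 2 ^ (4 * d), ?_⟩
  rintro V W _ _ G H hG ⟨B, h1, h2, h3⟩
  classical
  choose ctr c1 c2 using h2
  have m : Model r H G B ctr := by
    refine ⟨fun i j x hi hj => ?_, c1, c2, h3⟩
    by_contra hne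
    exact Set.disjoint_left.1 (h1 i j hne) hi hj
  obtain ⟨s, hs⟩ := cut (univ.filter fun p : W × W => H.Adj p.1 p.2)
    (fun p hp => (mem_filter.1 hp).2.ne) fun p hp =>
      mem_filter.2 ⟨mem_univ _, (mem_filter.1 hp).2.symm⟩
  have e1 : (univ.filter fun p : W × W => H.Adj p.1 p.2).card = 2 * Nat.card H.edgeSet := by
    rw [← H.two_mul_card_edgeFinset, Nat.card_eq_fintype_card, SimpleGraph.edgeFinset,
      Set.toFinset_card]
  set E := (univ.filter fun p : W × W => H.Adj p.1 p.2).filter
    fun p => s p.1 = false ∧ s p.2 = true with hE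
  have hE' : ∀ p ∈ E, H.Adj p.1 p.2 ∧ s p.1 = false ∧ s p.2 = true := fun p hp =>
    ⟨(mem_filter.1 (mem_filter.1 hp).1).2, (mem_filter.1 hp).2⟩
  have key := count d E (fun p hp => (hE' p hp).1.ne) (by
    intro F hF
    obtain ⟨arc, ht, a1, a2, a3⟩ := poset m s (F : Set (W × W)) fun p hp => hE' p (hF hp)
    have tl : ∀ x y, Relation.TransGen arc x y → ht x < ht y := by
      intro x y h
      induction h with
      | single e => exact (a1 _ _ e).2
      | tail _ e ih => exact ih.trans (a1 _ _ e).2
    let po : PartialOrder V :=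
      { le := fun x y => x = y ∨ Relation.TransGen arc x y
        le_refl := fun _ => Or.inl rfl
        le_trans := by
          rintro x y z (rfl | h) (rfl | h')
          · exact Or.inl rfl
          · exact Or.inr h'
          · exact Or.inr h
          · exact Or.inr (h.trans h')
        le_antisymm := by
          rintro x y (h | h) (h' | h')
          · exact h
          · exact h
          · exact h'.symm
          · exact absurd ((tl _ _ h).trans (tl _ _ h')) (lt_irrefl _) }
    have lti : ∀ x y : V, x < y ↔ Relation.TransGen arc x y := by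
      intro x y
      rw [lt_iff_le_and_ne]
      constructor
      · rintro ⟨h | h, h'⟩
        · exact absurd h h'
        · exact h
      · exact fun h => ⟨Or.inr h, fun e => absurd (tl _ _ h) (by rw [e]; exact lt_irrefl _)⟩
    have cov : ∀ x y : V, x ⋖ y → G.Adj x y := by
      intro x y h
      obtain ⟨z, hz, e⟩ := Relation.TransGen.tail'_iff.1 ((lti x y).1 h.1)
      rcases Relation.reflTransGen_iff_eq_or_transGen.1 hz with rfl | hz
      · exact (a1 _ _ e).1
      · exact absurd ((lti _ _).2 (Relation.TransGen.single e)) (h.2 ((lti _ _).2 hz))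
    obtain ⟨f, f1, f2⟩ := hd V (by
        intro t hc
        have : t.card ≤ (range (2 * r + 2)).card := by
          refine card_le_card_of_injOn ht (fun x _ => mem_coe.2 (mem_range.2 ?_)) ?_
          · have := a2 x; omega
          · intro x hx y hy e
            by_contra hne
            rcases hc hx hy hne with (h | h) | (h | h)
            · exact hne h
            · exact absurd (tl _ _ h) (by rw [e]; exact lt_irrefl _)
            · exact hne h.symm
            · exact absurd (tl _ _ h) (by rw [e]; exact lt_irrefl _)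
        simpa using this)
      (hC V V G _ ⟨id, fun {x y} h => h.2.elim (cov x y) fun h' => (cov y x h').symm⟩
        (fun _ _ h => h) hG)
    have ci : Function.Injective ctr := fun a b e => m.dis a b _ (m.mem a) (e ▸ m.mem b)
    refine ⟨fun i w => f i (ctr w), fun i => (f1 i).comp ci, fun p hp => ?_⟩
    rw [← f2, ← mem_coe, a3 p.1 p.2 (hE' p hp).2.1 (hE' p hp).2.2]
    exact ⟨fun h => Or.inr h, fun h => h.resolve_left fun e => (hE' p hp).1.ne (ci e)⟩)
  omega

end Pool.Agent.S08075
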