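import Pool.Statements.S08110

set_option autoImplicit false
universe u
open Pool Pool.MP_375da3_co

namespace Pool.Agent.S08110

/-- initial segment of a binary sequence -/
def seg (x : ℕ → Bool) (n : ℕ) : List Bool := List.ofFn fun i : Fin n => x i

lemma seg_ne {x y : ℕ → Bool} (h : x ≠ y) : ∃ N, ∀ n ≥ N, seg x n ≠ seg y n := by
  obtain ⟨k, hk⟩ := Function.ne_iff.mp h
  refine ⟨k + 1, fun n hn he => hk ?_⟩
  have := List.ofFn_injective he
  exact congrFun this ⟨k, by omega⟩

theorem result :
    ¬ (∀ (T : Type u) [DistribLattice T] (ι : Type u) (C : ι → Type u)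
      [∀ i, LinearOrder (C i)],
      Nonempty (T ↪o ((i : ι) → C i)) →
        ∃ (D : ι → Type u) (_ : ∀ i, LinearOrder (D i)),
          ∃ f : LatticeHom T ((i : ι) → D i), Function.Injective f) := by
  classical
  intro h
  let X : Type u := ULift.{u} (ℕ → Bool)
  let g : Finset X → ULift.{u} (List Bool) → ULift.{u} Bool := fun A s =>
    ⟨decide (∃ a ∈ A, seg a.down s.down.length = s.down)⟩
  have hg : ∀ A B : Finset X, g A ≤ g B ↔ A ≤ B := by
    intro A B
    constructor
    · intro hAB x hx
      by_contra hxB
      have h1 : ∀ b ∈ B, ∃ N, ∀ n ≥ N, seg x.down n ≠ seg b.down n := by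
        intro b hb
        apply seg_ne
        intro he
        exact hxB (by rw [ULift.ext x b he]; exact hb)
      choose! N hN using h1
      let n := B.sup N
      have hlen : (seg x.down n).length = n := by simp [seg]
      have h2 := hAB ⟨seg x.down n⟩
      have h3 : (g A ⟨seg x.down n⟩).down = true := by
        simp only [g, decide_eq_true_eq]
        exact ⟨x, hx, by rw [hlen]⟩
      have h4 : (g A ⟨seg x.down n⟩).down ≤ (g B ⟨seg x.down n⟩).down := h2
      rw [h3] at h4
      have h5 : (g B ⟨seg x.down n⟩).down = true := top_le_iff.mp h4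
      simp only [g, decide_eq_true_eq] at h5
      obtain ⟨b, hb, he⟩ := h5
      rw [hlen] at he
      exact hN b hb n (Finset.le_sup hb) he.symm
    · intro hAB s
      show (g A s).down ≤ (g B s).down
      simp only [g]
      rw [Bool.le_iff_imp]
      simp only [decide_eq_true_eq]
      rintro ⟨a, ha, he⟩
      exact ⟨a, hAB ha, he⟩
  obtain ⟨D, _, f, hf⟩ := h (Finset X) (ULift.{u} (List Bool)) (fun _ => ULift.{u} Bool)
    ⟨OrderEmbedding.ofMapLEIff g hg⟩
  have h1 : ∀ x : X, ∃ i, f {x} i ≠ f ∅ i := by
    intro x
    by_contra hc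
    push Not at hc
    have : ({x} : Finset X) = ∅ := hf (funext hc)
    simp at this
  choose φ hφ using h1
  have hinj : Function.Injective φ := by
    intro x y hxy
    by_contra hne
    have h2 : ({x} : Finset X) ⊓ {y} = ∅ := by
      ext z
      simp only [Finset.inf_eq_inter, Finset.mem_inter, Finset.mem_singleton,
        Finset.notMem_empty, iff_false, not_and]
      rintro rfl
      exact hne
    have h3' : f (({x} : Finset X) ⊓ {y}) = f {x} ⊓ f {y} := map_inf f _ _
    have h3 : f ∅ (φ x) = min (f {x} (φ x)) (f {y} (φ x)) := by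
      rw [← h2, h3']; rfl
    rcases min_choice (f {x} (φ x)) (f {y} (φ x)) with h4 | h4
    · exact hφ x (h4.symm.trans h3.symm)
    · have h5 := hφ y
      rw [← hxy] at h5
      exact h5 (h4.symm.trans h3.symm)
  have hc : Countable X := hinj.countable
  have hc2 : Countable (ℕ → Bool) := (Equiv.ulift.{u} (α := ℕ → Bool)).symm.injective.countable
  obtain ⟨e, he⟩ := exists_surjective_nat (ℕ → Bool)
  obtain ⟨k, hk⟩ := he (fun n => !(e n n))
  have := congrFun hk k
  simp at this

end Pool.Agent.S08110
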