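import Pool.Statements.S08133
import Pool.Agent.H.MP_3d980f_co.H

set_option autoImplicit false
open Pool Pool.MP_3852e9_co

namespace Pool.Agent.S08133

theorem result :
    ∀ (col : EuclideanSpace ℝ (Fin 2) → Fin 2) (d d' : ℝ), 0 < d → 0 < d' → d ≠ d' →
      (¬ ∃ x y z : EuclideanSpace ℝ (Fin 2),
          dist x y = d ∧ dist y z = d ∧ dist x z = d ∧ col x = col y ∧ col y = col z) →
      ∃ x y z : EuclideanSpace ℝ (Fin 2),
          dist x y = d' ∧ dist y z = d' ∧ dist x z = d' ∧ col x = col y ∧ col y = col z := by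
  exact Pool.Agent.H.MP_3d980f_co.main2

end Pool.Agent.S08133
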