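import Pool.Statements.S08141
import Pool.Agent.H.MP_389e9c_co.A

set_option autoImplicit false
open Pool Pool.MP_389e9c_co

namespace Pool.Agent.S08141

open Pool.Agent.H.MP_389e9c_co Module

theorem result :
    ∃ (F K : Type) (_ : Field F) (_ : Fintype F) (_ : Field K) (_ : Algebra F K) (m n : ℕ),
      1 < m ∧ Module.finrank F K = m ∧
      ∃ C : Submodule F (Fin n → Fin m → F),
        (∀ W : Submodule F (Fin n → F),
          m ∣ Module.finrank F ↥(C ⊓ ⨅ j : Fin m, Submodule.comap
            (LinearMap.pi (fun i : Fin n =>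
              LinearMap.comp (LinearMap.proj j : (Fin m → F) →ₗ[F] F)
                (LinearMap.proj i : (Fin n → Fin m → F) →ₗ[F] (Fin m → F)))) W)) ∧
        ¬ ∃ (k : ℕ) (G : Matrix (Fin k) (Fin n) K),
          ∀ V : Submodule F (Fin n → F),
            m * Module.finrank K (Submodule.span K
              ((fun v : Fin n → F => Matrix.mulVec G (fun i => algebraMap F K (v i))) ''
                (V : Set (Fin n → F))))
            = Module.finrank F C - Module.finrank F ↥(C ⊓ ⨅ j : Fin m, Submodule.comap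
              (LinearMap.pi (fun i : Fin n =>
                LinearMap.comp (LinearMap.proj j : (Fin m → F) →ₗ[F] F)
                  (LinearMap.proj i : (Fin n → Fin m → F) →ₗ[F] (Fin m → F))))
              (⨅ (v : Fin n → F) (_ : v ∈ V), LinearMap.ker
                (∑ i : Fin n, v i • (LinearMap.proj i : (Fin n → F) →ₗ[F] F)))) := by
  haveI : Fact (Nat.Prime 2) := ⟨Nat.prime_two⟩
  refine ⟨ZMod 2, GaloisField 2 6, inferInstance, inferInstance, inferInstance, inferInstance,
    6, 6, by norm_num, GaloisField.finrank 2 (by norm_num), LinearMap.range L, fun W => ?_, ?_⟩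
  · obtain ⟨U, hU⟩ := exU W
    have := dimC W U hU
    exact (dvdN U).trans (dvd_of_eq this.symm)
  rintro ⟨k, G, H⟩
  let ψ : ℕ → Fin k → GaloisField 2 6 := fun n =>
    G.mulVec fun i => algebraMap (ZMod 2) (GaloisField 2 6) (vec n i)
  have ad : ∀ a b, ψ (a ^^^ b) = ψ a + ψ b := by
    intro a b
    simp only [ψ, vec_xor, ← Matrix.mulVec_add]
    congr 1
    ext i
    simp
  have key : ∀ u w : ℕ, 6 * finrank (GaloisField 2 6) (Submodule.span (GaloisField 2 6) {ψ u, ψ w})
      = 12 - finrank (ZMod 2)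
        (N (Submodule.span (ZMod 2) {vec u, vec w} : Submodule (ZMod 2) V)) := by
    intro u w
    have h1 := H (Submodule.span (ZMod 2) {vec u, vec w})
    rw [span_pair, dimL] at h1
    rw [← dimC (⨅ (v : V) (_ : v ∈ Submodule.span (ZMod 2) {vec u, vec w}), LinearMap.ker
      (∑ i : Fin 6, v i • (LinearMap.proj i : V →ₗ[ZMod 2] ZMod 2))) _ (fun x => by simp)]
    exact h1
  have nz : ∀ u < 64, u ≠ 0 → (∀ t < 64, f u (X u t) (Y u t) = 0) → ψ u ≠ 0 := by
    intro u hu h0 c
    have := key u u
    rw [par hu h0 hu c] at this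
    exact rk0 (K := GaloisField 2 6) (by omega)
  have pr : ∀ u < 64, u ≠ 0 → ∀ w < 64, (∀ t < 64, f u (X u t) (Y u t) = 0) →
      (∀ t < 64, f w (X u t) (Y u t) = 0) → ∃ c : GaloisField 2 6, ψ w = c • ψ u := by
    intro u hu h0 w hw c c'
    have := key u w
    rw [par hu h0 hw c'] at this
    exact rk1 (nz u hu h0 c) (by omega)
  have hi : LinearIndependent (GaloisField 2 6) ![ψ 1, ψ 8] := by
    have := key 1 8
    rw [ind] at this
    exact rk2 (by omega)
  obtain ⟨x, e1⟩ := pr 1 (by decide) (by decide) 2 (by decide) (by decide +kernel)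
    (by decide +kernel)
  obtain ⟨y, e2⟩ := pr 1 (by decide) (by decide) 4 (by decide) (by decide +kernel)
    (by decide +kernel)
  obtain ⟨x', e4⟩ := pr 8 (by decide) (by decide) 16 (by decide) (by decide +kernel)
    (by decide +kernel)
  obtain ⟨y', e5⟩ := pr 8 (by decide) (by decide) 32 (by decide) (by decide +kernel)
    (by decide +kernel)
  obtain ⟨c, a1⟩ := pr (1 ^^^ 8) (by decide) (by decide) (2 ^^^ 16) (by decide)
    (by decide +kernel) (by decide +kernel)
  obtain ⟨d, a2⟩ := pr (1 ^^^ 8) (by decide) (by decide) (4 ^^^ 32) (by decide)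
    (by decide +kernel) (by decide +kernel)
  obtain ⟨c', b1⟩ := pr (1 ^^^ 16) (by decide) (by decide) (2 ^^^ 8 ^^^ 16) (by decide)
    (by decide +kernel) (by decide +kernel)
  obtain ⟨d', b2⟩ := pr (1 ^^^ 32) (by decide) (by decide) (4 ^^^ 8 ^^^ 32) (by decide)
    (by decide +kernel) (by decide +kernel)
  have n1 := nz (2 ^^^ 4) (by decide) (by decide) (by decide +kernel)
  have n2 := nz (1 ^^^ 2 ^^^ 4) (by decide) (by decide) (by decide +kernel)
  simp only [ad] at a1 a2 b1 b2 n1 n2
  exact final (CharTwo.two_eq_zero) _ _ _ _ _ _ x y x' y' c d c' d' hi e1 e2 e4 e5 a1 a2 b1 b2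
    n1 n2

end Pool.Agent.S08141
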