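import Pool.Statements.S08187
import Pool.Agent.H.MP_3a81bf_co.Cube

set_option autoImplicit false
open Pool Pool.MP_3a81bf_co

namespace Pool.Agent.S08187

theorem result :
    ∀ n : ℕ, 1 ≤ n →
      IsLeast
        {d : ℕ | ∃ D : (Fin n → Bool) → ℕ,
            (∑ x, D x) = d ∧
            ∀ v : Fin n → Bool, ∃ f : (Fin n → Bool) → ℤ,
              ∀ w : Fin n → Bool,
                0 ≤ (D w : ℤ) - (if w = v then 1 else 0)
                    - ((n : ℤ) * f w - ∑ i : Fin n, f (Function.update w i (!(w i))))}
        (2 ^ (n - 1)) := by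
  intro n hn
  obtain ⟨m, rfl⟩ : ∃ m, n = m + 1 := ⟨n - 1, by omega⟩
  have hlap : ∀ (f : (Fin (m+1) → Bool) → ℤ) (w : Fin (m+1) → Bool),
      ((m + 1 : ℕ) : ℤ) * f w - ∑ i : Fin (m+1), f (Function.update w i (!(w i)))
        = Pool.Agent.H.MP_3a81bf_co.lap f w := by
    intro f w
    unfold Pool.Agent.H.MP_3a81bf_co.lap Pool.Agent.H.MP_3a81bf_co.flip
    rw [Finset.sum_sub_distrib]
    simp
  simp only [Nat.add_sub_cancel]
  constructor
  · refine ⟨fun x => if x 0 = false then 1 else 0, ?_, fun v => ?_⟩
    · have h := Pool.Agent.H.MP_3a81bf_co.sum_cons (n := m) (fun x => if x 0 = false then 1 else 0)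
      have h2 : ((∑ x : Fin (m+1) → Bool, (if x 0 = false then 1 else 0 : ℕ) : ℕ) : ℤ) = 2 ^ m := by
        push_cast
        rw [h]
        simp
      exact_mod_cast h2
    · by_cases hv : v 0 = false
      · refine ⟨fun _ => 0, fun w => ?_⟩
        by_cases hw : w = v
        · subst hw; simp [hv]
        · simp only [hw, if_false]
          simp
          split_ifs <;> simp
      · refine ⟨fun x => if x 0 = false then 1 else 0, fun w => ?_⟩
        rw [hlap (fun x => if x 0 = false then 1 else 0) w]
        unfold Pool.Agent.H.MP_3a81bf_co.lap Pool.Agent.H.MP_3a81bf_co.flip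
        rw [Fin.sum_univ_succ]
        have : ∀ i : Fin m, Function.update w i.succ (!(w i.succ)) 0 = w 0 := fun i =>
          Function.update_of_ne (Fin.succ_ne_zero i).symm _ _
        simp only [this, Function.update_self, sub_self, Finset.sum_const_zero, add_zero]
        by_cases hw : w = v
        · subst hw; simp [hv]
        · cases h : w 0 <;> simp [hw]
  · rintro d ⟨D, rfl, hD⟩
    have h := Pool.Agent.H.MP_3a81bf_co.lower (n := m + 1) (fun x => (D x : ℤ))
      (fun _ => Int.natCast_nonneg _) (fun v => by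
        obtain ⟨f, hf⟩ := hD v
        refine ⟨f, fun w => ?_⟩
        have := hf w
        rw [hlap] at this
        unfold Pool.Agent.H.MP_3a81bf_co.ind
        by_cases hw : w = v
        · rw [if_pos hw] at this ⊢; exact this
        · rw [if_neg hw] at this ⊢; exact this)
    have h2 : ((2 ^ m : ℕ) : ℤ) ≤ ((∑ x, D x : ℕ) : ℤ) := by
      push_cast
      rw [pow_succ] at h
      linarith
    exact_mod_cast h2

end Pool.Agent.S08187
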