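import Pool.Statements.S08216
import Pool.Agent.H.BS.M

set_option autoImplicit false
open Pool Pool.MP_3ba0ec_co

namespace Pool.Agent.S08216

theorem result :
    ¬ (∀ (d : ℕ) (K : Finset (EuclideanSpace ℝ (Fin d))),
      (∃ n : ℕ, ∀ χ : EuclideanSpace ℝ (Fin n) → ℝ,
        ∃ f : EuclideanSpace ℝ (Fin d) → EuclideanSpace ℝ (Fin n),
          (∀ x ∈ K, ∀ y ∈ K, dist (f x) (f y) = dist x y) ∧
          ((∀ x ∈ K, ∀ y ∈ K, χ (f x) = χ (f y)) ∨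
           (∀ x ∈ K, ∀ y ∈ K, x ≠ y → χ (f x) ≠ χ (f y)))) →
      (∀ r : ℕ, ∃ n : ℕ, ∀ χ : EuclideanSpace ℝ (Fin n) → Fin r,
        ∃ f : EuclideanSpace ℝ (Fin d) → EuclideanSpace ℝ (Fin n),
          (∀ x ∈ K, ∀ y ∈ K, dist (f x) (f y) = dist x y) ∧
          (∀ x ∈ K, ∀ y ∈ K, χ (f x) = χ (f y)))) := by
  classical
  intro h
  let p : ℝ → EuclideanSpace ℝ (Fin 1) := fun t => WithLp.toLp 2 fun _ => t
  have hp : ∀ s t, dist (p s) (p t) = |s - t| := fun s t => by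
    simp [p, EuclideanSpace.dist_eq, Real.dist_eq, Real.sqrt_sq_eq_abs]
  have hi : ∀ s t, p s = p t ↔ s = t := fun s t => by
    rw [← dist_eq_zero, hp, abs_eq_zero, sub_eq_zero]
  obtain ⟨n, hn⟩ := h 1 {p 0, p 1, p 2} (Pool.Agent.H.BS.line3.imp fun n h χ => by
    obtain ⟨a, b, c, h1, h2, h3, h4⟩ := h χ
    refine ⟨fun x => if x = p 0 then a else if x = p 1 then b else c, ?_, h4.imp ?_ ?_⟩
    · simp [hi, hp, h1, h2, h3, dist_comm b a, dist_comm c a, dist_comm c b]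
      norm_num
    · rintro ⟨e1, e2⟩
      simp [hi, e1, e2]
    · rintro ⟨e1, e2, e3⟩
      simp [hi, e1, e2, e3, e1.symm, e2.symm, e3.symm]) 4
  obtain ⟨f, f1, f2⟩ := hn fun x => ⟨(⌊‖x‖ ^ 2⌋ % 4).toNat, by omega⟩
  have d1 := f1 (p 0) (by simp) (p 1) (by simp)
  have d2 := f1 (p 2) (by simp) (p 1) (by simp)
  have d3 := f1 (p 0) (by simp) (p 2) (by simp)
  have c1 := congrArg Fin.val (f2 (p 0) (by simp) (p 1) (by simp))
  have c2 := congrArg Fin.val (f2 (p 2) (by simp) (p 1) (by simp))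
  generalize f (p 0) = a, f (p 1) = b, f (p 2) = c at *
  simp only [hp, dist_eq_norm] at d1 d2 d3
  norm_num at d1 d2 d3
  have e1 := parallelogram_law_with_norm ℝ (a - b) (c - b)
  rw [sub_sub_sub_cancel_right, d1, d2, d3] at e1
  have e2 : a + c = (2 : ℝ) • b := by
    have : ‖a - b + (c - b)‖ = 0 := mul_self_eq_zero.1 (by linarith)
    rw [← sub_eq_zero, ← norm_eq_zero.1 this]
    module
  have e3 := parallelogram_law_with_norm ℝ a c
  rw [e2, d3, norm_smul, Real.norm_ofNat] at e3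
  have e4 : ‖a‖ ^ 2 + ‖c‖ ^ 2 = 2 * ‖b‖ ^ 2 + 2 := by linarith
  simp only at c1 c2
  generalize ‖a‖ ^ 2 = x, ‖b‖ ^ 2 = y, ‖c‖ ^ 2 = z at *
  have i1 : ((⌊x⌋ + ⌊z⌋ : ℤ) : ℝ) < (2 * ⌊y⌋ + 4 : ℤ) := by
    push_cast
    linarith [Int.floor_le x, Int.floor_le z, Int.lt_floor_add_one y]
  have i2 : ((2 * ⌊y⌋ : ℤ) : ℝ) < (⌊x⌋ + ⌊z⌋ : ℤ) := by
    push_cast
    linarith [Int.lt_floor_add_one x, Int.lt_floor_add_one z, Int.floor_le y]
  have := Int.cast_lt.1 i1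
  have := Int.cast_lt.1 i2
  omega

end Pool.Agent.S08216
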