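import Pool.Statements.S08224

set_option autoImplicit false
open Pool Pool.MP_3c1ca0_co

namespace Pool.Agent.S08224

/-! A two-heap subtraction game that computes the Pascal triangle modulo two: the second heap
modulo 53 selects a NOR gate, a constant cell or a dead cell. -/

def K : List ℕ := [1, 2, 5, 6, 8, 10, 12, 14, 17, 18, 19, 20, 21, 23, 26, 27, 30, 31, 32, 33, 34,
  35, 36, 41, 43, 47, 48, 51]

def K1 : List ℕ := [31, 45]

def val (r : ℕ) (u v : Bool) : Bool :=
  if r = 0 then u else if r = 31 then !u && !v else if r = 32 then !u && v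
  else if r = 45 then !v && u else (r == 3 || r == 7 || r == 16)

def ev (n j : ℕ) : Bool := (n.choose j) % 2 == 0

def F (x t : ℕ) : Bool := val (t % 53) (ev (t / 53) (x + 1)) (ev (t / 53) x)

def tgt (r : ℕ) (n0 u v u' v' : Bool) (k : ℕ) : Bool :=
  if k ≤ r then !val (r - k) u v else (n0 || !val (r + 53 - k) u' v')

set_option synthInstance.maxSize 2000 in
lemma loc : ∀ r < 53, ∀ u v w u' v' w' n0 x0 : Bool, (n0 = true → u = true) →
    (n0 = false → u = (u' == v')) → (x0 = true → v = false) →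
    val r u v = (K.all (tgt r n0 u v u' v') && (x0 || K1.all (tgt r n0 v w v' w'))) := by
  decide +kernel

lemma tgt_iff (y t k : ℕ) (hk : k ≤ 53) :
    tgt (t % 53) (decide (t / 53 = 0)) (ev (t / 53) (y + 1)) (ev (t / 53) y)
      (ev (t / 53 - 1) (y + 1)) (ev (t / 53 - 1) y) k = true ↔ (k ≤ t → F y (t - k) = false) := by
  unfold tgt F
  by_cases h : k ≤ t % 53
  · have h1 : (t - k) % 53 = t % 53 - k := by omega
    have h2 : (t - k) / 53 = t / 53 := by omega
    have h3 : k ≤ t := by omega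
    rw [if_pos h, h1, h2]
    simp [h3]
  · rw [if_neg h]
    by_cases h0 : t / 53 = 0
    · have h3 : ¬ k ≤ t := by omega
      simp [h0, h3]
    · have h1 : (t - k) % 53 = t % 53 + 53 - k := by omega
      have h2 : (t - k) / 53 = t / 53 - 1 := by omega
      have h3 : k ≤ t := by omega
      rw [h1, h2]
      simp [h0, h3]

lemma key (x t : ℕ) : F x t = true ↔ (∀ k ∈ K, k ≤ t → F x (t - k) = false) ∧
    (∀ k ∈ K1, 1 ≤ x → k ≤ t → F (x - 1) (t - k) = false) := by
  have h := loc (t % 53) (Nat.mod_lt _ (by norm_num)) (ev (t / 53) (x + 1)) (ev (t / 53) x)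
    (ev (t / 53) (x - 1)) (ev (t / 53 - 1) (x + 1)) (ev (t / 53 - 1) x) (ev (t / 53 - 1) (x - 1))
    (decide (t / 53 = 0)) (decide (x = 0)) ?_ ?_ ?_
  · have hF : F x t = val (t % 53) (ev (t / 53) (x + 1)) (ev (t / 53) x) := rfl
    rw [hF, h, Bool.and_eq_true, List.all_eq_true]
    have hK : ∀ k ∈ K, k ≤ 53 := by decide
    have hK1 : ∀ k ∈ K1, k ≤ 53 := by decide
    refine and_congr (forall₂_congr fun k hk => tgt_iff x t k (hK k hk)) ?_
    rcases x with _ | x
    · simp
    · simp only [Nat.add_eq_zero_iff, one_ne_zero, and_false, decide_false, Bool.false_or,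
        List.all_eq_true, Nat.add_sub_cancel, Nat.le_add_left, forall_const]
      exact forall₂_congr fun k hk => tgt_iff x t k (hK1 k hk)
  · intro h0
    rw [decide_eq_true_eq] at h0
    simp [ev, h0]
  · intro h0
    rw [decide_eq_false_iff_not] at h0
    obtain ⟨n, hn⟩ : ∃ n, t / 53 = n + 1 := ⟨t / 53 - 1, by omega⟩
    rw [hn, Nat.add_sub_cancel]
    unfold ev
    rw [Nat.choose_succ_succ']
    rcases Nat.mod_two_eq_zero_or_one (n.choose x) with h1 | h1 <;>
    rcases Nat.mod_two_eq_zero_or_one (n.choose (x + 1)) with h2 | h2 <;>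
    simp [Nat.add_mod, h1, h2]
  · intro h0
    rw [decide_eq_true_eq] at h0
    simp [ev, h0]

lemma lucas (i : ℕ) : (2 * i + 1).choose i % 2 = i.choose (i / 2) % 2 := by
  haveI : Fact (Nat.Prime 2) := ⟨Nat.prime_two⟩
  have h := Choose.choose_modEq_choose_mod_mul_choose_div_nat (n := 2 * i + 1) (k := i) (p := 2)
  have h1 : (2 * i + 1) % 2 = 1 := by omega
  have h2 : (2 * i + 1) / 2 = i := by omega
  rw [h1, h2] at h
  have h3 : Nat.choose 1 (i % 2) = 1 := by
    rcases Nat.mod_two_eq_zero_or_one i with h | h <;> simp [h]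
  rw [h3, one_mul] at h
  exact h

lemma odd_pow (k : ℕ) : (2 * (2 ^ k - 1) + 1).choose (2 ^ k - 1) % 2 = 1 := by
  induction k with
  | zero => simp
  | succ k ih =>
    rw [lucas]
    have h0 : 0 < 2 ^ k := by positivity
    have h1 : 2 ^ (k + 1) - 1 = 2 * (2 ^ k - 1) + 1 := by rw [pow_succ]; omega
    have h2 : (2 * (2 ^ k - 1) + 1) / 2 = 2 ^ k - 1 := by omega
    rw [h1, h2, ih]

lemma pow_of_odd (i : ℕ) (h : (2 * i + 1).choose i % 2 = 1) : ∃ k, i + 1 = 2 ^ k := by
  induction i using Nat.strong_induction_on with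
  | _ i ih =>
    rw [lucas] at h
    rcases Nat.even_or_odd' i with ⟨l, rfl | rfl⟩
    · rcases Nat.eq_zero_or_pos l with rfl | hl
      · exact ⟨0, rfl⟩
      · have h2 : 2 * l / 2 = l := by omega
        rw [h2] at h
        have h3 := Nat.two_dvd_centralBinom_of_one_le hl
        rw [Nat.centralBinom_eq_two_mul_choose] at h3
        omega
    · have h2 : (2 * l + 1) / 2 = l := by omega
      rw [h2] at h
      obtain ⟨k, hk⟩ := ih l (by omega) h
      exact ⟨k + 1, by rw [pow_succ]; omega⟩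

lemma ray (i : ℕ) : F i (106 * i + 84) = true ↔ (2 * i + 1).choose i % 2 = 1 := by
  have h1 : (106 * i + 84) % 53 = 31 := by omega
  have h2 : (106 * i + 84) / 53 = 2 * i + 1 := by omega
  unfold F
  rw [h1, h2]
  unfold ev
  rw [Nat.choose_symm_half]
  simp [val]

def D : Finset (Fin 2 → ℤ) :=
  (K.map (fun k : ℕ => ![(0 : ℤ), (k : ℤ)]) ++
    K1.map (fun k : ℕ => ![(1 : ℤ), (k : ℤ)])).toFinset

theorem result :
    ¬ (∀ (d : ℕ) (D : Finset (Fin d → ℤ)),
      (∀ a ∈ D, 0 < ∑ i, a i) →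
      (∀ a ∈ D, ∀ i, 0 ≤ a i) →
      ∀ P : Set (Fin d → ℕ),
        (∀ x : Fin d → ℕ, x ∈ P ↔
          ∀ y : Fin d → ℕ, (fun i => (x i : ℤ) - (y i : ℤ)) ∈ D → y ∉ P) →
        ∃ (k : ℕ) (b : Fin k → Fin d → ℕ) (m : Fin k → ℕ)
          (p : ∀ i : Fin k, Fin (m i) → Fin d → ℕ),
          P = {x | ∃ i : Fin k, ∃ c : Fin (m i) → ℕ, x = b i + ∑ j, c j • p i j}) := by
  intro h
  have hD : ∀ a : Fin 2 → ℤ, a ∈ D ↔
      (∃ k ∈ K, a 0 = 0 ∧ a 1 = k) ∨ (∃ k ∈ K1, a 0 = 1 ∧ a 1 = k) := by
    intro a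
    simp only [D, List.mem_toFinset, List.mem_append, List.mem_map, funext_iff,
      Fin.forall_fin_two, Matrix.cons_val_zero, Matrix.cons_val_one, eq_comm]
  have hh := h 2 D ?_ ?_ {x | F (x 0) (x 1) = true} ?_
  · obtain ⟨k, b, m, p, hP⟩ := hh
    have hmem : ∀ i : ℕ, F i (106 * i + 84) = true ↔
        ∃ l : Fin k, ∃ c : Fin (m l) → ℕ, ![i, 106 * i + 84] = b l + ∑ j, c j • p l j := by
      intro i
      exact Set.ext_iff.mp hP ![i, 106 * i + 84]
    have h1 : ∃ l : Fin k, ∃ᶠ n in Filter.atTop, ∃ c : Fin (m l) → ℕ,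
        ![2 ^ n - 1, 106 * (2 ^ n - 1) + 84] = b l + ∑ j, c j • p l j := by
      by_contra hc
      simp only [not_exists, Filter.not_frequently] at hc
      obtain ⟨n, hn⟩ := (Filter.eventually_all.mpr hc).exists
      obtain ⟨l, c, hl⟩ := (hmem (2 ^ n - 1)).mp ((ray _).mpr (odd_pow n))
      exact hn l c hl
    obtain ⟨l, hl⟩ := h1
    obtain ⟨φ, hφ, hc⟩ := Filter.extraction_of_frequently_atTop hl
    choose c hc using hc
    obtain ⟨s, t, hst, hle⟩ := wellQuasiOrdered_le (α := Fin (m l) → ℕ) c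
    have hA : φ s < φ t := hφ hst
    have e1 := hc s
    have e2 := hc t
    generalize φ s = A at *
    generalize φ t = B at *
    have hAB : 2 ^ A < 2 ^ B := Nat.pow_lt_pow_right (by norm_num) hA
    have hA0 : 0 < 2 ^ A := by positivity
    have hsum : (∑ j, (c t j + (c t j - c s j)) • p l j) + ∑ j, c s j • p l j =
        (∑ j, c t j • p l j) + ∑ j, c t j • p l j := by
      rw [← Finset.sum_add_distrib, ← Finset.sum_add_distrib]
      refine Finset.sum_congr rfl fun j _ => ?_
      rw [← add_smul, ← add_smul]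
      congr 1
      have : c s j ≤ c t j := hle j
      omega
    have h3 := (hmem (2 * 2 ^ B - 2 ^ A - 1)).mpr ⟨l, fun j => c t j + (c t j - c s j), by
      have a0 := congrFun e1 0
      have a1 := congrFun e1 1
      have b0 := congrFun e2 0
      have b1 := congrFun e2 1
      have s0 := congrFun hsum 0
      have s1 := congrFun hsum 1
      simp only [Pi.add_apply, Matrix.cons_val_zero, Matrix.cons_val_one] at a0 a1 b0 b1 s0 s1
      funext i
      fin_cases i
      · simp only [Pi.add_apply, Fin.zero_eta, Matrix.cons_val_zero]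
        omega
      · simp only [Pi.add_apply, Fin.mk_one, Matrix.cons_val_one, Matrix.cons_val_zero]
        omega⟩
    obtain ⟨C, hC⟩ := pow_of_odd _ ((ray _).mp h3)
    have h4 : 2 ^ C < 2 ^ (B + 1) := by rw [pow_succ]; omega
    have h5 : C < B + 1 := (Nat.pow_lt_pow_iff_right (by norm_num)).mp h4
    have h6 : 2 ^ C ≤ 2 ^ B := Nat.pow_le_pow_right (by norm_num) (by omega)
    omega
  · intro a ha
    rw [Fin.sum_univ_two]
    have hK : ∀ k ∈ K, 0 < k := by decide
    rcases (hD a).mp ha with ⟨k, hk, h0, h1⟩ | ⟨k, hk, h0, h1⟩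
    · have := hK k hk
      omega
    · omega
  · intro a ha
    rw [Fin.forall_fin_two]
    rcases (hD a).mp ha with ⟨k, hk, h0, h1⟩ | ⟨k, hk, h0, h1⟩ <;> omega
  · intro x
    simp only [Set.mem_ofPred_eq, hD, Bool.not_eq_true]
    rw [key]
    constructor
    · rintro ⟨h1, h2⟩ y (⟨k, hk, a0, a1⟩ | ⟨k, hk, a0, a1⟩)
      · have := h1 k hk (by omega)
        rwa [show y 0 = x 0 by omega, show y 1 = x 1 - k by omega]
      · have := h2 k hk (by omega) (by omega)
        rwa [show y 0 = x 0 - 1 by omega, show y 1 = x 1 - k by omega]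
    · intro hy
      constructor
      · intro k hk hkt
        refine hy ![x 0, x 1 - k] (Or.inl ⟨k, hk, by simp, ?_⟩)
        simp only [Matrix.cons_val_one, Matrix.cons_val_zero]
        omega
      · intro k hk hx hkt
        refine hy ![x 0 - 1, x 1 - k] (Or.inr ⟨k, hk, ?_, ?_⟩)
        · simp only [Matrix.cons_val_zero]
          omega
        · simp only [Matrix.cons_val_one, Matrix.cons_val_zero]
          omega

end Pool.Agent.S08224
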