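import Pool.Statements.S08232
import Mathlib
-- import your own Pool.Agent.* helpers here

set_option autoImplicit false
open Pool Pool.MP_3c7c52_co

namespace Pool.Agent.S08232

open Set Metric MeasureTheory

def Btw {α : Type} [LT α] (p q r : α) : Prop := (p < q ∧ q < r) ∨ (r < q ∧ q < p)

theorem btw {g : ℝ → ℝ} (hg : Continuous g) {a t b : ℝ} (h1 : a < t) (h2 : t < b)
    (hi : InjOn g (Icc a b)) : Btw (g a) (g t) (g b) := by
  have ha : a ∈ Icc a b := ⟨le_rfl, by linarith⟩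
  have ht : t ∈ Icc a b := ⟨h1.le, h2.le⟩
  have hb : b ∈ Icc a b := ⟨by linarith, le_rfl⟩
  rcases hg.continuousOn.strictMonoOn_of_injOn_Icc' (by linarith) hi with h | h
  · exact Or.inl ⟨h ha ht h1, h ht hb h2⟩
  · exact Or.inr ⟨h ht hb h2, h ha ht h1⟩

theorem seg {f : ℝ → ℝ × ℝ} (hf : Continuous f) (hi : Function.Injective f) {a t b : ℝ}
    (h1 : a < t) (h2 : t < b)
    (h : ∀ x ∈ Icc a b, ∀ y ∈ Icc a b, (f x).1 = (f y).1 ∨ (f x).2 = (f y).2) :
    ((f a).1 = (f t).1 ∧ (f b).1 = (f t).1 ∧ Btw (f a).2 (f t).2 (f b).2) ∨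
    ((f a).2 = (f t).2 ∧ (f b).2 = (f t).2 ∧ Btw (f a).1 (f t).1 (f b).1) := by
  have ha : a ∈ Icc a b := ⟨le_rfl, by linarith⟩
  have ht : t ∈ Icc a b := ⟨h1.le, h2.le⟩
  have hb : b ∈ Icc a b := ⟨by linarith, le_rfl⟩
  have hab : f a ≠ f b := fun e => by linarith [hi e]
  rcases h a ha b hb with e | e
  · have c : ∀ x ∈ Icc a b, (f a).1 = (f x).1 := fun x hx => by
      rcases h a ha x hx with p | p
      · exact p
      rcases h x hx b hb with q | q
      · exact e.trans q.symm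
      · exact absurd (Prod.ext e (p.trans q)) hab
    exact Or.inl ⟨c t ht, e.symm.trans (c t ht), btw hf.snd h1 h2 fun x hx y hy q =>
      hi (Prod.ext ((c x hx).symm.trans (c y hy)) q)⟩
  · have c : ∀ x ∈ Icc a b, (f a).2 = (f x).2 := fun x hx => by
      rcases h a ha x hx with p | p
      · rcases h x hx b hb with q | q
        · exact absurd (Prod.ext (p.trans q) e) hab
        · exact e.trans q.symm
      · exact p
    exact Or.inr ⟨c t ht, e.symm.trans (c t ht), btw hf.fst h1 h2 fun x hx y hy q =>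
      hi (Prod.ext q ((c x hx).symm.trans (c y hy)))⟩

def X : Fin 4 → ℤ := ![0, 1, 2, 3]
def Y : Fin 4 → ℤ := ![0, 2, 1, 3]

theorem comb : ∀ a b c d : Fin 4, a ≠ d →
    ¬ (Btw (Y a) (Y b) (Y c) ∧ Btw (X b) (X c) (X d)) ∧
    ¬ (Btw (X a) (X b) (X c) ∧ Btw (Y b) (Y c) (Y d)) := by
  unfold Btw
  decide

theorem XY : ∀ a b : Fin 4, a ≠ b → X a ≠ X b ∧ Y a ≠ Y b := by decide

theorem lt_int {p q : ℝ} {m n : ℤ} (hp : |p - m| < 1 / 4) (hq : |q - n| < 1 / 4) (hn : m ≠ n)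
    (h : p ≤ q) : m < n := by
  have : ((m : ℝ)) < n + 1 := by linarith [abs_lt.mp hp, abs_lt.mp hq]
  have : m < n + 1 := by exact_mod_cast this
  omega

theorem ne_int {p q : ℝ} {m n : ℤ} (hp : |p - m| < 1 / 4) (hq : |q - n| < 1 / 4) (hn : m ≠ n) :
    p ≠ q := fun e => (lt_int hp hq hn e.le).not_gt (lt_int hq hp hn.symm e.ge)

theorem btw_int {p q r : ℝ} {m n k : ℤ} (hp : |p - m| < 1 / 4) (hq : |q - n| < 1 / 4)
    (hr : |r - k| < 1 / 4) (h1 : m ≠ n) (h2 : n ≠ k) (h : Btw p q r) : Btw m n k :=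
  h.imp (fun h => ⟨lt_int hp hq h1 h.1.le, lt_int hq hr h2 h.2.le⟩)
    fun h => ⟨lt_int hr hq h2.symm h.1.le, lt_int hq hp h1.symm h.2.le⟩

theorem core {f : ℝ → ℝ × ℝ} (hf : Continuous f) (hi : Function.Injective f) (s : Finset ℝ)
    (hs : s.card ≤ 3) (h : ∀ x y : ℝ, (∀ z ∈ s, z ∉ Ioo (min x y) (max x y)) →
      (f x).1 = (f y).1 ∨ (f x).2 = (f y).2) (t : Fin 4 → ℝ)
    (hx : ∀ i, |(f (t i)).1 - X i| < 1 / 4) (hy : ∀ i, |(f (t i)).2 - Y i| < 1 / 4) : False := by
  classical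
  have nx := fun i j (e : i ≠ j) => ne_int (hx i) (hx j) (XY i j e).1
  have ny := fun i j (e : i ≠ j) => ne_int (hy i) (hy j) (XY i j e).2
  have m := Tuple.monotone_sort t
  set σ := Tuple.sort t
  have br : ∀ i j : Fin 4, i < j → ∃ z ∈ s, t (σ i) < z ∧ z < t (σ j) := fun i j hij => by
    by_contra hn
    have e : σ i ≠ σ j := σ.injective.ne hij.ne
    have l : t (σ i) ≤ t (σ j) := m hij.le
    refine (h (t (σ i)) (t (σ j)) fun z hz q => hn ⟨z, hz, ?_⟩).elim (nx _ _ e) (ny _ _ e)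
    rwa [min_eq_left l, max_eq_right l] at q
  obtain ⟨u, hu, u1, u2⟩ := br 0 1 (by decide)
  obtain ⟨v, hv, v1, v2⟩ := br 1 2 (by decide)
  obtain ⟨w, hw, w1, w2⟩ := br 2 3 (by decide)
  have es : ({u, v, w} : Finset ℝ) = s := Finset.eq_of_subset_of_card_le
    (by simp [Finset.insert_subset_iff, *]) (by
      rw [Finset.card_eq_three.mpr ⟨u, v, w, by linarith, by linarith, by linarith, rfl⟩]
      exact hs)
  have g : ∀ a b, (u ≤ a ∨ b ≤ u) → (v ≤ a ∨ b ≤ v) → (w ≤ a ∨ b ≤ w) → ∀ x ∈ Icc a b,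
      ∀ y ∈ Icc a b, (f x).1 = (f y).1 ∨ (f x).2 = (f y).2 := by
    intro a b h1 h2 h3 x hx y hy
    refine h x y fun z hz q => ?_
    have l1 := (le_min hx.1 hy.1).trans_lt q.1
    have l2 := q.2.trans_le (max_le hx.2 hy.2)
    rw [← es] at hz
    simp only [Finset.mem_insert, Finset.mem_singleton] at hz
    rcases hz with rfl | rfl | rfl
    · rcases h1 with h | h <;> linarith
    · rcases h2 with h | h <;> linarith
    · rcases h3 with h | h <;> linarith
  have p1 := g (t (σ 0)) u (Or.inr le_rfl) (Or.inr (by linarith)) (Or.inr (by linarith))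
    _ ⟨le_rfl, u1.le⟩ _ ⟨u1.le, le_rfl⟩
  have p2 := seg hf hi u2 v1 (g u v (Or.inl le_rfl) (Or.inr le_rfl) (Or.inr (by linarith)))
  have p3 := seg hf hi v2 w1 (g v w (Or.inl (by linarith)) (Or.inl le_rfl) (Or.inr le_rfl))
  have p4 := g w (t (σ 3)) (Or.inl (by linarith)) (Or.inl (by linarith)) (Or.inl le_rfl)
    _ ⟨le_rfl, w2.le⟩ _ ⟨w2.le, le_rfl⟩
  have e01 : σ 0 ≠ σ 1 := σ.injective.ne (by decide)
  have e12 : σ 1 ≠ σ 2 := σ.injective.ne (by decide)
  have e23 : σ 2 ≠ σ 3 := σ.injective.ne (by decide)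
  have c := comb (σ 0) (σ 1) (σ 2) (σ 3) (σ.injective.ne (by decide))
  rcases p2 with ⟨a1, a2, a3⟩ | ⟨a1, a2, a3⟩ <;> rcases p3 with ⟨b1, b2, b3⟩ | ⟨b1, b2, b3⟩
  · exact nx _ _ e12 (a2.symm.trans b1)
  · rw [← p1.resolve_left fun e => nx _ _ e01 (e.trans a1), b1] at a3
    rw [a2, p4.resolve_right fun e => ny _ _ e23 (b2.symm.trans e)] at b3
    exact c.1 ⟨btw_int (hy _) (hy _) (hy _) (XY _ _ e01).2 (XY _ _ e12).2 a3,
      btw_int (hx _) (hx _) (hx _) (XY _ _ e12).1 (XY _ _ e23).1 b3⟩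
  · rw [← p1.resolve_right fun e => ny _ _ e01 (e.trans a1), b1] at a3
    rw [a2, p4.resolve_left fun e => nx _ _ e23 (b2.symm.trans e)] at b3
    exact c.2 ⟨btw_int (hx _) (hx _) (hx _) (XY _ _ e01).1 (XY _ _ e12).1 a3,
      btw_int (hy _) (hy _) (hy _) (XY _ _ e12).2 (XY _ _ e23).2 b3⟩
  · exact ny _ _ e12 (a2.symm.trans b1)

/-- The negation of the preceding statement: For any n finite measures on the plane, each absolutely continuous, there is an unbounded simple path made of at most n horizontal or vertical pieces (at most n−1 turns) one of whose sides has exactly half of each measure. -/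
theorem result :
    ¬ (∀ (n : ℕ) (μ : Fin n → MeasureTheory.Measure (ℝ × ℝ)),
    (∀ i, MeasureTheory.IsFiniteMeasure (μ i)) →
    (∀ i, MeasureTheory.Measure.AbsolutelyContinuous (μ i)
        (MeasureTheory.volume : MeasureTheory.Measure (ℝ × ℝ))) →
    ∃ (f : ℝ → ℝ × ℝ) (s : Finset ℝ),
      Continuous f ∧ Function.Injective f ∧
      Filter.Tendsto (fun x => ‖f x‖) Filter.atTop Filter.atTop ∧
      Filter.Tendsto (fun x => ‖f x‖) Filter.atBot Filter.atTop ∧
      s.card ≤ n - 1 ∧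
      (∀ x y : ℝ, (∀ z ∈ s, z ∉ Set.Ioo (min x y) (max x y)) →
          (f x).1 = (f y).1 ∨ (f x).2 = (f y).2) ∧
      ∃ U : Set (ℝ × ℝ), IsOpen U ∧ frontier U = Set.range f ∧
        ∀ i, μ i U = μ i Set.univ / 2) := by
  intro h
  obtain ⟨f, s, hf, hi, -, -, hs, hp, U, hU, hfr, hm⟩ := h 4
    (fun i => volume.restrict (ball ((X i : ℝ), (Y i : ℝ)) (1 / 4)))
    (fun i => isFiniteMeasure_restrict.mpr measure_ball_lt_top.ne)
    fun i => Measure.absolutelyContinuous_of_le Measure.restrict_le_self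
  have : ∀ i, ∃ t, f t ∈ ball ((X i : ℝ), (Y i : ℝ)) (1 / 4) := fun i => by
    by_contra! hn
    have e := hm i
    have v0 := (measure_ball_pos volume ((X i : ℝ), (Y i : ℝ)) (by norm_num : (0 : ℝ) < 1 / 4)).ne'
    have v1 := (measure_ball_lt_top (μ := volume) (x := ((X i : ℝ), (Y i : ℝ))) (r := 1 / 4)).ne
    rw [Measure.restrict_apply hU.measurableSet, Measure.restrict_apply_univ] at e
    rcases (convex_ball ((X i : ℝ), (Y i : ℝ)) (1 / 4)).isPreconnected.subset_or_subset hU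
      isClosed_closure.isOpen_compl (disjoint_compl_right.mono_left subset_closure)
      (fun x hx => by
        by_contra hc
        simp only [mem_union, mem_compl_iff, not_or, not_not] at hc
        obtain ⟨t, rfl⟩ : x ∈ range f := hfr ▸ ⟨hc.2, by rw [hU.interior_eq]; exact hc.1⟩
        exact hn t hx) with q | q
    · rw [inter_eq_right.mpr q] at e
      exact (ENNReal.half_lt_self v0 v1).ne' e
    · rw [(disjoint_compl_right.mono subset_closure q).inter_eq, measure_empty] at e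
      exact (ENNReal.half_pos v0).ne e
  choose t ht using this
  refine core hf hi s hs hp t (fun i => ?_) fun i => ?_
  · exact (max_lt_iff.mp (mem_ball.mp (ht i))).1
  · exact (max_lt_iff.mp (mem_ball.mp (ht i))).2

end Pool.Agent.S08232
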