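import Pool.Statements.S08258

set_option autoImplicit false
open Pool Pool.MP_3d7919_co

namespace Pool.Agent.S08258

def X : Fin 7 → ℤ := ![1029, 363, 577, 179, 952, 292, 765]
def Y : Fin 7 → ℤ := ![123, 270, 238, 765, 154, 660, 222]

def cr (a b c : Fin 7) : ℤ := (X b - X a) * (Y c - Y a) - (Y b - Y a) * (X c - X a)

noncomputable def P (i : Fin 7) : EuclideanSpace ℝ (Fin 2) := !₂[(X i : ℝ), (Y i : ℝ)]

lemma P0 (i : Fin 7) : P i 0 = X i := by simp [P]
lemma P1 (i : Fin 7) : P i 1 = Y i := by simp [P]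

lemma cr_ne : ∀ i j k : Fin 7, i ≠ j → j ≠ k → i ≠ k → cr i j k ≠ 0 := by decide +kernel

lemma X_inj : ∀ i j : Fin 7, X i = X j → i = j := by decide +kernel

lemma cover : ∀ s : Finset (Fin 7), ∑ i ∈ s, (i.val + 1) = 2 * 7 →
    ∃ a ∈ s, ∃ b ∈ s, ∃ c ∈ s, ∃ j, j ∉ s ∧ 0 < cr a b j ∧ 0 < cr b c j ∧ 0 < cr c a j := by
  decide +kernel

lemma inside (S : Set (EuclideanSpace ℝ (Fin 2))) (hS : Convex ℝ S) (a b c j : Fin 7)
    (ha : P a ∈ S) (hb : P b ∈ S) (hc : P c ∈ S)
    (h1 : 0 < cr a b j) (h2 : 0 < cr b c j) (h3 : 0 < cr c a j) : P j ∈ S := by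
  have h1' : (0 : ℝ) < cr a b j := by exact_mod_cast h1
  have h2' : (0 : ℝ) < cr b c j := by exact_mod_cast h2
  have h3' : (0 : ℝ) < cr c a j := by exact_mod_cast h3
  set u : ℝ := ((cr b c j : ℤ) : ℝ) with hu
  set v : ℝ := ((cr c a j : ℤ) : ℝ) with hv
  set w : ℝ := ((cr a b j : ℤ) : ℝ) with hw
  have hT : 0 < u + v + w := by positivity
  have huv : 0 < u + v := by positivity
  have m1 : (u / (u + v)) • P a + (v / (u + v)) • P b ∈ S :=
    hS ha hb (by positivity) (by positivity) (by field_simp)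
  have m2 := hS m1 hc (a := (u + v) / (u + v + w)) (b := w / (u + v + w))
    (by positivity) (by positivity) (by field_simp)
  convert m2 using 1
  ext i
  fin_cases i
  · simp only [Fin.zero_eta, PiLp.add_apply, PiLp.smul_apply, smul_eq_mul, P0]
    field_simp
    rw [hu, hv, hw]; simp only [cr]; push_cast; ring
  · simp only [Fin.mk_one, PiLp.add_apply, PiLp.smul_apply, smul_eq_mul, P1]
    field_simp
    rw [hu, hv, hw]; simp only [cr]; push_cast; ring

theorem result :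
    ¬ (∀ n : ℕ, 5 ≤ n →
      ∀ p : Fin n → EuclideanSpace ℝ (Fin 2),
        Function.Injective p →
        (∀ i j k : Fin n, i ≠ j → j ≠ k → i ≠ k →
          ¬ Collinear ℝ ({p i, p j, p k} : Set (EuclideanSpace ℝ (Fin 2)))) →
        ∃ s : Finset (Fin n),
          (∃ S : Set (EuclideanSpace ℝ (Fin 2)), Convex ℝ S ∧ ∀ i : Fin n, p i ∈ S ↔ i ∈ s) ∧
          ∑ i ∈ s, (i.val + 1) = 2 * n) := by
  intro H
  obtain ⟨s, ⟨S, hS, hmem⟩, hsum⟩ := H 7 (by norm_num) P
    (by
      intro i j h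
      apply X_inj
      have := congrArg (fun p : EuclideanSpace ℝ (Fin 2) => p 0) h
      simp only [P0] at this
      exact_mod_cast this)
    (by
      intro i j k h1 h2 h3 hc
      rw [collinear_iff_of_mem (p₀ := P i) (by simp)] at hc
      obtain ⟨v, hv⟩ := hc
      obtain ⟨r, hr⟩ := hv (P j) (by simp)
      obtain ⟨t, ht⟩ := hv (P k) (by simp)
      apply cr_ne i j k h1 h2 h3
      have a0 := congrArg (fun p : EuclideanSpace ℝ (Fin 2) => p 0) hr
      have a1 := congrArg (fun p : EuclideanSpace ℝ (Fin 2) => p 1) hr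
      have b0 := congrArg (fun p : EuclideanSpace ℝ (Fin 2) => p 0) ht
      have b1 := congrArg (fun p : EuclideanSpace ℝ (Fin 2) => p 1) ht
      simp only [vadd_eq_add, PiLp.add_apply, PiLp.smul_apply, smul_eq_mul, P0, P1] at a0 a1 b0 b1
      have : ((cr i j k : ℤ) : ℝ) = 0 := by
        simp only [cr]; push_cast
        rw [a0, a1, b0, b1]; ring
      exact_mod_cast this)
  obtain ⟨a, ha, b, hb, c, hc, j, hj, h1, h2, h3⟩ := cover s hsum
  exact hj ((hmem j).1 (inside S hS a b c j ((hmem a).2 ha) ((hmem b).2 hb) ((hmem c).2 hc) h1 h2 h3))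

end Pool.Agent.S08258
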