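import Pool.Statements.S08259
import Pool.Agent.H.MP_3d980f_co.H

set_option autoImplicit false
open Pool Pool.MP_3d980f_co

namespace Pool.Agent.S08259

theorem result :
    ∀ a b c : EuclideanSpace ℝ (Fin 2),
      a ≠ b → b ≠ c → a ≠ c →
      ¬ (dist a b = dist b c ∧ dist b c = dist c a) →
      ∀ f : EuclideanSpace ℝ (Fin 2) → Bool,
        ∃ x y z : EuclideanSpace ℝ (Fin 2),
          dist x y = dist a b ∧ dist y z = dist b c ∧ dist z x = dist c a ∧
          f x = f y ∧ f y = f z := by
  exact fun a b c _ _ _ h f => Pool.Agent.H.MP_3d980f_co.main1 a b c h f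

end Pool.Agent.S08259
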