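import Pool.Statements.S08274
import Pool.Agent.H.MP_5f1df6_co.A

set_option autoImplicit false
open Matrix
open Pool Pool.MP_3e2ec7_co

namespace Pool.Agent.S08274
open Pool.Agent.H.MP_5f1df6_co Finset

/-- The Cayley graph. -/
def G : SimpleGraph V where
  Adj a b := b - a ∈ C
  symm.symm a b h := by simpa using neg_mem _ h
  loopless.irrefl a h := zero_not (by simpa using h)

instance : DecidableRel G.Adj := fun a b => inferInstanceAs (Decidable (b - a ∈ C))

theorem dot_add (a b y : V) : dot (a + b) y = dot a y + dot b y := by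
  simp only [dot, Pi.add_apply, add_mul, sum_add_distrib]

theorem eig (y : V) :
    G.adjMatrix ℂ *ᵥ (fun a => E (dot a y)) = lam y • fun a => E (dot a y) := by
  funext a
  rw [SimpleGraph.adjMatrix_mulVec_apply, Pi.smul_apply, smul_eq_mul, lam, sum_mul]
  symm
  refine sum_bij (fun c _ => c + a) ?_ ?_ ?_ ?_
  · intro c hc
    rw [SimpleGraph.mem_neighborFinset]
    show c + a - a ∈ C
    simpa using hc
  · intro c _ d _ h
    exact add_right_cancel h
  · intro b hb
    rw [SimpleGraph.mem_neighborFinset] at hb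
    exact ⟨b - a, hb, by simp⟩
  · intro c _
    rw [dot_add, AddChar.map_add_eq_mul]

noncomputable def U : Matrix V V ℂ :=
  NormedSpace.exp ((Complex.I * ((-t0 : ℝ) : ℂ)) • G.adjMatrix ℂ)

theorem U_eig (y : V) : U *ᵥ (fun a => E (dot a y)) = u y • fun a => E (dot a y) := by
  rw [U, exp_eig _ _ (-(Complex.I * (t0 : ℂ) * lam y)), u]
  rw [smul_mulVec, eig, smul_smul]
  congr 1
  push_cast
  ring

theorem orth (a : V) : ∑ y, E (dot a y) = if a = 0 then 625 else 0 := by
  have h1 : ∀ y : V, E (dot a y) = ∏ j, E (y j * a j) := fun y => by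
    simp only [dot, Fin.sum_univ_four, Fin.prod_univ_four, AddChar.map_add_eq_mul, mul_comm]
  simp only [h1]
  rw [← Fintype.piFinset_univ, ← prod_univ_sum (fun _ => univ) fun j x => E (x * a j)]
  simp only [sumE]
  split_ifs with h
  · subst h
    simp
    norm_num
  · obtain ⟨j, hj⟩ := Function.ne_iff.mp h
    exact prod_eq_zero (mem_univ j) (if_neg hj)

theorem entry (a b : V) : 625 * U a b = ∑ y, u y * E (dot (a - b) y) := by
  have h1 : ∀ y, u y * E (dot (a - b) y) = ∑ c, U a c * E (dot (c - b) y) := by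
    intro y
    have := congrFun (U_eig y) a
    simp only [mulVec, dotProduct, Pi.smul_apply, smul_eq_mul] at this
    simp only [sub_eq_add_neg, dot_add, AddChar.map_add_eq_mul, ← mul_assoc, ← sum_mul, this]
  simp only [h1]
  rw [sum_comm]
  simp only [← mul_sum, orth, sub_eq_zero, mul_ite, mul_zero, sum_ite_eq', mem_univ, if_true]
  ring

theorem norm_entry (a b : V) : ‖U a b‖ = 1 / 25 := by
  have h := flat (a - b)
  rw [← entry, norm_mul] at h
  have : ‖(625 : ℂ)‖ = 625 := by simp
  rw [this] at h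
  linarith

theorem result :
    ¬ (∀ (V : Type) [Fintype V] [DecidableEq V] (G : SimpleGraph V) [DecidableRel G.Adj] (τ : ℝ),
      (∀ a b c d : V,
        ‖(NormedSpace.exp ((Complex.I * (τ : ℂ)) • G.adjMatrix ℂ)) a b‖ =
          ‖(NormedSpace.exp ((Complex.I * (τ : ℂ)) • G.adjMatrix ℂ)) c d‖) →
      ∀ μ : ℂ, (∃ v : V → ℂ, v ≠ 0 ∧
          (NormedSpace.exp ((Complex.I * (τ : ℂ)) • G.adjMatrix ℂ)) *ᵥ v = μ • v) →
        ∃ k : ℕ, 0 < k ∧ μ ^ k = 1) := by
  intro h
  obtain ⟨k, hk, h1⟩ := h V G (-t0) (fun a b c d => (norm_entry a b).trans (norm_entry c d).symm)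
    (u ![0, 1, 0, 0]) ⟨_, fun h0 => by
      have h2 := congrArg norm (congrFun h0 0)
      rw [normE] at h2
      simp at h2, U_eig _⟩
  rw [u, ← Complex.exp_nat_mul, Complex.exp_eq_one_iff] at h1
  obtain ⟨m, hm⟩ := h1
  apply lam_irr (-(25 * m) / k)
  have hk' : (k : ℂ) ≠ 0 := Nat.cast_ne_zero.mpr hk.ne'
  have hpi : (Real.pi : ℂ) * Complex.I ≠ 0 :=
    mul_ne_zero (by exact_mod_cast Real.pi_ne_zero) Complex.I_ne_zero
  rw [t0] at hm
  push_cast at hm ⊢
  rw [eq_div_iff hk']
  apply mul_left_cancel₀ hpi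
  linear_combination (-25 / 2) * hm

end Pool.Agent.S08274
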