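import Pool.Statements.S08283
import Pool.Agent.H.MP_3e8e5c_co.B

set_option autoImplicit false
open Pool Pool.MP_3e8e5c_co

namespace Pool.Agent.S08283

theorem result :
    ∃ n : ℕ, ∃ G : SimpleGraph (Fin n), G.edgeSet.Nonempty ∧
      ∀ e ∈ G.edgeSet,
        sInf {k : ℕ | ∃ S : Finset (Fin n),
            Maximal (fun T : Finset (Fin n) => ∀ v ∈ T, ∃ w : Fin n,
                (w = v ∨ (G.deleteEdges {e}).Adj v w) ∧
                ∀ u ∈ T, u ≠ v → ¬ (w = u ∨ (G.deleteEdges {e}).Adj u w)) S ∧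
            S.card = k}
          <
        sInf {k : ℕ | ∃ S : Finset (Fin n),
            Maximal (fun T : Finset (Fin n) => ∀ v ∈ T, ∃ w : Fin n,
                (w = v ∨ G.Adj v w) ∧
                ∀ u ∈ T, u ≠ v → ¬ (w = u ∨ G.Adj u w)) S ∧
            S.card = k} := by
  exact ⟨25, Pool.Agent.H.MP_3e8e5c_co.G, Pool.Agent.H.MP_3e8e5c_co.main⟩

end Pool.Agent.S08283
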