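import Pool.Statements.S08298
import Pool.Agent.Lib.helper1.Ham

set_option autoImplicit false
open Pool Pool.MP_3efdf8_co

namespace Pool.Agent.S08298

open Pool.Agent.Lib.helper1

def nb : Fin 26 → List (Fin 26) := ![[1, 2, 14], [0, 13, 25], [0, 5, 6], [5, 6, 7], [5, 6, 7], [2, 3, 4], [2, 3, 4], [3, 4, 8], [7, 11, 12], [11, 12, 13], [11, 12, 13], [8, 9, 10], [8, 9, 10], [1, 9, 10], [0, 17, 18], [17, 18, 19], [17, 18, 19], [14, 15, 16], [14, 15, 16], [15, 16, 20], [19, 23, 24], [23, 24, 25], [23, 24, 25], [20, 21, 22], [20, 21, 22], [1, 21, 22]]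

def G : SimpleGraph (Fin 26) where
  Adj a b := b ∈ nb a
  symm := ⟨by decide⟩
  loopless := ⟨by decide⟩

instance : DecidableRel G.Adj := fun a b => inferInstanceAs (Decidable (b ∈ nb a))

abbrev P : SimpleGraph (Fin 26 × Fin 2) := G.boxProd (⊤ : SimpleGraph (Fin 2))

instance : DecidableRel P.Adj := fun x y =>
  decidable_of_iff ((y.1 ∈ nb x.1 ∧ x.2 = y.2) ∨ (x.2 ≠ y.2 ∧ x.1 = y.1)) (by
    simp [P, SimpleGraph.boxProd_adj, G])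

lemma reg : G.IsRegularOfDegree 3 := by
  intro v
  revert v
  decide +kernel

lemma ham : G.IsHamiltonian :=
  isHamiltonian_of_list (0 : Fin 26) [2,5,3,6,4,7,8,11,9,12,10,13,1,25,22,24,21,23,20,19,16,18,15,17,14]
    (by decide +kernel) (by decide +kernel) (by decide +kernel) (by decide +kernel)

def nbP (x : Fin 26 × Fin 2) : List (Fin 26 × Fin 2) :=
  (x.1, x.2 + 1) :: (nb x.1).map (fun b => (b, x.2))

lemma nbP_nodup : ∀ x, (nbP x).Nodup := by decide +kernel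
lemma nbP_all : ∀ x y, P.Adj x y → y ∈ nbP x := by decide +kernel

lemma cutA0 {a : Fin 26 × Fin 2} {p : P.Walk a a} (hp : p.IsHamiltonianCycle) :
    1 ≤ ind p ((2 : Fin 26), (0 : Fin 2)) ((0 : Fin 26), (0 : Fin 2)) + ind p ((2 : Fin 26), (1 : Fin 2)) ((0 : Fin 26), (1 : Fin 2)) + ind p ((7 : Fin 26), (0 : Fin 2)) ((8 : Fin 26), (0 : Fin 2)) + ind p ((7 : Fin 26), (1 : Fin 2)) ((8 : Fin 26), (1 : Fin 2)) := by
  have := ham_cut_list hp (fun x => decide (2 ≤ x.1.val ∧ x.1.val < 8)) (x := ((2 : Fin 26), (0 : Fin 2))) (y := ((0 : Fin 26), (0 : Fin 2))) (by decide) (by decide)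
    [(((2 : Fin 26), (0 : Fin 2)), ((0 : Fin 26), (0 : Fin 2))), (((2 : Fin 26), (1 : Fin 2)), ((0 : Fin 26), (1 : Fin 2))), (((7 : Fin 26), (0 : Fin 2)), ((8 : Fin 26), (0 : Fin 2))), (((7 : Fin 26), (1 : Fin 2)), ((8 : Fin 26), (1 : Fin 2)))] (by decide +kernel)
  simp only [List.map_cons, List.map_nil, List.sum_cons, List.sum_nil] at this
  omega

lemma cutA1 {a : Fin 26 × Fin 2} {p : P.Walk a a} (hp : p.IsHamiltonianCycle) :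
    1 ≤ ind p ((8 : Fin 26), (0 : Fin 2)) ((7 : Fin 26), (0 : Fin 2)) + ind p ((8 : Fin 26), (1 : Fin 2)) ((7 : Fin 26), (1 : Fin 2)) + ind p ((13 : Fin 26), (0 : Fin 2)) ((1 : Fin 26), (0 : Fin 2)) + ind p ((13 : Fin 26), (1 : Fin 2)) ((1 : Fin 26), (1 : Fin 2)) := by
  have := ham_cut_list hp (fun x => decide (8 ≤ x.1.val ∧ x.1.val < 14)) (x := ((8 : Fin 26), (0 : Fin 2))) (y := ((0 : Fin 26), (0 : Fin 2))) (by decide) (by decide)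
    [(((8 : Fin 26), (0 : Fin 2)), ((7 : Fin 26), (0 : Fin 2))), (((8 : Fin 26), (1 : Fin 2)), ((7 : Fin 26), (1 : Fin 2))), (((13 : Fin 26), (0 : Fin 2)), ((1 : Fin 26), (0 : Fin 2))), (((13 : Fin 26), (1 : Fin 2)), ((1 : Fin 26), (1 : Fin 2)))] (by decide +kernel)
  simp only [List.map_cons, List.map_nil, List.sum_cons, List.sum_nil] at this
  omega

lemma cutA2 {a : Fin 26 × Fin 2} {p : P.Walk a a} (hp : p.IsHamiltonianCycle) :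
    1 ≤ ind p ((14 : Fin 26), (0 : Fin 2)) ((0 : Fin 26), (0 : Fin 2)) + ind p ((14 : Fin 26), (1 : Fin 2)) ((0 : Fin 26), (1 : Fin 2)) + ind p ((19 : Fin 26), (0 : Fin 2)) ((20 : Fin 26), (0 : Fin 2)) + ind p ((19 : Fin 26), (1 : Fin 2)) ((20 : Fin 26), (1 : Fin 2)) := by
  have := ham_cut_list hp (fun x => decide (14 ≤ x.1.val ∧ x.1.val < 20)) (x := ((14 : Fin 26), (0 : Fin 2))) (y := ((0 : Fin 26), (0 : Fin 2))) (by decide) (by decide)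
    [(((14 : Fin 26), (0 : Fin 2)), ((0 : Fin 26), (0 : Fin 2))), (((14 : Fin 26), (1 : Fin 2)), ((0 : Fin 26), (1 : Fin 2))), (((19 : Fin 26), (0 : Fin 2)), ((20 : Fin 26), (0 : Fin 2))), (((19 : Fin 26), (1 : Fin 2)), ((20 : Fin 26), (1 : Fin 2)))] (by decide +kernel)
  simp only [List.map_cons, List.map_nil, List.sum_cons, List.sum_nil] at this
  omega

lemma cutA3 {a : Fin 26 × Fin 2} {p : P.Walk a a} (hp : p.IsHamiltonianCycle) :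
    1 ≤ ind p ((20 : Fin 26), (0 : Fin 2)) ((19 : Fin 26), (0 : Fin 2)) + ind p ((20 : Fin 26), (1 : Fin 2)) ((19 : Fin 26), (1 : Fin 2)) + ind p ((25 : Fin 26), (0 : Fin 2)) ((1 : Fin 26), (0 : Fin 2)) + ind p ((25 : Fin 26), (1 : Fin 2)) ((1 : Fin 26), (1 : Fin 2)) := by
  have := ham_cut_list hp (fun x => decide (20 ≤ x.1.val ∧ x.1.val < 26)) (x := ((20 : Fin 26), (0 : Fin 2))) (y := ((0 : Fin 26), (0 : Fin 2))) (by decide) (by decide)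
    [(((20 : Fin 26), (0 : Fin 2)), ((19 : Fin 26), (0 : Fin 2))), (((20 : Fin 26), (1 : Fin 2)), ((19 : Fin 26), (1 : Fin 2))), (((25 : Fin 26), (0 : Fin 2)), ((1 : Fin 26), (0 : Fin 2))), (((25 : Fin 26), (1 : Fin 2)), ((1 : Fin 26), (1 : Fin 2)))] (by decide +kernel)
  simp only [List.map_cons, List.map_nil, List.sum_cons, List.sum_nil] at this
  omega

lemma cutB0 {a : Fin 26 × Fin 2} {p : P.Walk a a} (hp : p.IsHamiltonianCycle) :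
    1 ≤ ind p ((2 : Fin 26), (0 : Fin 2)) ((0 : Fin 26), (0 : Fin 2)) + ind p ((2 : Fin 26), (1 : Fin 2)) ((0 : Fin 26), (1 : Fin 2)) + ind p ((13 : Fin 26), (0 : Fin 2)) ((1 : Fin 26), (0 : Fin 2)) + ind p ((13 : Fin 26), (1 : Fin 2)) ((1 : Fin 26), (1 : Fin 2)) := by
  have := ham_cut_list hp (fun x => decide (2 ≤ x.1.val ∧ x.1.val < 14)) (x := ((2 : Fin 26), (0 : Fin 2))) (y := ((0 : Fin 26), (0 : Fin 2))) (by decide) (by decide)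
    [(((2 : Fin 26), (0 : Fin 2)), ((0 : Fin 26), (0 : Fin 2))), (((2 : Fin 26), (1 : Fin 2)), ((0 : Fin 26), (1 : Fin 2))), (((13 : Fin 26), (0 : Fin 2)), ((1 : Fin 26), (0 : Fin 2))), (((13 : Fin 26), (1 : Fin 2)), ((1 : Fin 26), (1 : Fin 2)))] (by decide +kernel)
  simp only [List.map_cons, List.map_nil, List.sum_cons, List.sum_nil] at this
  omega

lemma cutB1 {a : Fin 26 × Fin 2} {p : P.Walk a a} (hp : p.IsHamiltonianCycle) :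
    1 ≤ ind p ((14 : Fin 26), (0 : Fin 2)) ((0 : Fin 26), (0 : Fin 2)) + ind p ((14 : Fin 26), (1 : Fin 2)) ((0 : Fin 26), (1 : Fin 2)) + ind p ((25 : Fin 26), (0 : Fin 2)) ((1 : Fin 26), (0 : Fin 2)) + ind p ((25 : Fin 26), (1 : Fin 2)) ((1 : Fin 26), (1 : Fin 2)) := by
  have := ham_cut_list hp (fun x => decide (14 ≤ x.1.val ∧ x.1.val < 26)) (x := ((14 : Fin 26), (0 : Fin 2))) (y := ((0 : Fin 26), (0 : Fin 2))) (by decide) (by decide)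
    [(((14 : Fin 26), (0 : Fin 2)), ((0 : Fin 26), (0 : Fin 2))), (((14 : Fin 26), (1 : Fin 2)), ((0 : Fin 26), (1 : Fin 2))), (((25 : Fin 26), (0 : Fin 2)), ((1 : Fin 26), (0 : Fin 2))), (((25 : Fin 26), (1 : Fin 2)), ((1 : Fin 26), (1 : Fin 2)))] (by decide +kernel)
  simp only [List.map_cons, List.map_nil, List.sum_cons, List.sum_nil] at this
  omega

lemma cutC0 {a : Fin 26 × Fin 2} {p : P.Walk a a} (hp : p.IsHamiltonianCycle) :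
    1 ≤ ind p ((0 : Fin 26), (0 : Fin 2)) ((0 : Fin 26), (1 : Fin 2)) + ind p ((0 : Fin 26), (0 : Fin 2)) ((2 : Fin 26), (0 : Fin 2)) + ind p ((1 : Fin 26), (0 : Fin 2)) ((1 : Fin 26), (1 : Fin 2)) + ind p ((1 : Fin 26), (0 : Fin 2)) ((13 : Fin 26), (0 : Fin 2)) + ind p ((14 : Fin 26), (1 : Fin 2)) ((0 : Fin 26), (1 : Fin 2)) + ind p ((25 : Fin 26), (1 : Fin 2)) ((1 : Fin 26), (1 : Fin 2)) := by
  have := ham_cut_list hp (fun x => decide (14 ≤ x.1.val ∨ (x.1.val < 2 ∧ x.2 = 0))) (x := ((0 : Fin 26), (0 : Fin 2))) (y := ((0 : Fin 26), (1 : Fin 2))) (by decide) (by decide)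
    [(((0 : Fin 26), (0 : Fin 2)), ((0 : Fin 26), (1 : Fin 2))), (((0 : Fin 26), (0 : Fin 2)), ((2 : Fin 26), (0 : Fin 2))), (((1 : Fin 26), (0 : Fin 2)), ((1 : Fin 26), (1 : Fin 2))), (((1 : Fin 26), (0 : Fin 2)), ((13 : Fin 26), (0 : Fin 2))), (((14 : Fin 26), (1 : Fin 2)), ((0 : Fin 26), (1 : Fin 2))), (((25 : Fin 26), (1 : Fin 2)), ((1 : Fin 26), (1 : Fin 2)))] (by decide +kernel)
  simp only [List.map_cons, List.map_nil, List.sum_cons, List.sum_nil] at this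
  omega

lemma cutC1 {a : Fin 26 × Fin 2} {p : P.Walk a a} (hp : p.IsHamiltonianCycle) :
    1 ≤ ind p ((0 : Fin 26), (1 : Fin 2)) ((0 : Fin 26), (0 : Fin 2)) + ind p ((0 : Fin 26), (1 : Fin 2)) ((2 : Fin 26), (1 : Fin 2)) + ind p ((1 : Fin 26), (1 : Fin 2)) ((1 : Fin 26), (0 : Fin 2)) + ind p ((1 : Fin 26), (1 : Fin 2)) ((13 : Fin 26), (1 : Fin 2)) + ind p ((14 : Fin 26), (0 : Fin 2)) ((0 : Fin 26), (0 : Fin 2)) + ind p ((25 : Fin 26), (0 : Fin 2)) ((1 : Fin 26), (0 : Fin 2)) := by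
  have := ham_cut_list hp (fun x => decide (14 ≤ x.1.val ∨ (x.1.val < 2 ∧ x.2 = 1))) (x := ((0 : Fin 26), (1 : Fin 2))) (y := ((0 : Fin 26), (0 : Fin 2))) (by decide) (by decide)
    [(((0 : Fin 26), (1 : Fin 2)), ((0 : Fin 26), (0 : Fin 2))), (((0 : Fin 26), (1 : Fin 2)), ((2 : Fin 26), (1 : Fin 2))), (((1 : Fin 26), (1 : Fin 2)), ((1 : Fin 26), (0 : Fin 2))), (((1 : Fin 26), (1 : Fin 2)), ((13 : Fin 26), (1 : Fin 2))), (((14 : Fin 26), (0 : Fin 2)), ((0 : Fin 26), (0 : Fin 2))), (((25 : Fin 26), (0 : Fin 2)), ((1 : Fin 26), (0 : Fin 2)))] (by decide +kernel)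
  simp only [List.map_cons, List.map_nil, List.sum_cons, List.sum_nil] at this
  omega

lemma deg {a : Fin 26 × Fin 2} {p : P.Walk a a} (hp : p.IsHamiltonianCycle) (x : Fin 26 × Fin 2) :
    ((nbP x).map (ind p x)).sum = 2 := ham_deg hp x _ (nbP_nodup x) (nbP_all x)

lemma piece2 {a : Fin 26 × Fin 2} {p : P.Walk a a} (hp : p.IsHamiltonianCycle) :
    ind p ((2 : Fin 26), (0 : Fin 2)) ((0 : Fin 26), (0 : Fin 2)) + ind p ((7 : Fin 26), (1 : Fin 2)) ((8 : Fin 26), (1 : Fin 2)) = ind p ((2 : Fin 26), (1 : Fin 2)) ((0 : Fin 26), (1 : Fin 2)) + ind p ((7 : Fin 26), (0 : Fin 2)) ((8 : Fin 26), (0 : Fin 2)) := by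
  have d2_0 : ind p ((2 : Fin 26), (0 : Fin 2)) ((2 : Fin 26), (1 : Fin 2)) + (ind p ((2 : Fin 26), (0 : Fin 2)) ((0 : Fin 26), (0 : Fin 2)) + (ind p ((2 : Fin 26), (0 : Fin 2)) ((5 : Fin 26), (0 : Fin 2)) + (ind p ((2 : Fin 26), (0 : Fin 2)) ((6 : Fin 26), (0 : Fin 2)) + (0)))) = 2 := deg hp ((2 : Fin 26), (0 : Fin 2))
  have d2_1 : ind p ((2 : Fin 26), (1 : Fin 2)) ((2 : Fin 26), (0 : Fin 2)) + (ind p ((2 : Fin 26), (1 : Fin 2)) ((0 : Fin 26), (1 : Fin 2)) + (ind p ((2 : Fin 26), (1 : Fin 2)) ((5 : Fin 26), (1 : Fin 2)) + (ind p ((2 : Fin 26), (1 : Fin 2)) ((6 : Fin 26), (1 : Fin 2)) + (0)))) = 2 := deg hp ((2 : Fin 26), (1 : Fin 2))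
  have := ind_symm p ((2 : Fin 26), (0 : Fin 2)) ((2 : Fin 26), (1 : Fin 2))
  have d3_0 : ind p ((3 : Fin 26), (0 : Fin 2)) ((3 : Fin 26), (1 : Fin 2)) + (ind p ((3 : Fin 26), (0 : Fin 2)) ((5 : Fin 26), (0 : Fin 2)) + (ind p ((3 : Fin 26), (0 : Fin 2)) ((6 : Fin 26), (0 : Fin 2)) + (ind p ((3 : Fin 26), (0 : Fin 2)) ((7 : Fin 26), (0 : Fin 2)) + (0)))) = 2 := deg hp ((3 : Fin 26), (0 : Fin 2))
  have d3_1 : ind p ((3 : Fin 26), (1 : Fin 2)) ((3 : Fin 26), (0 : Fin 2)) + (ind p ((3 : Fin 26), (1 : Fin 2)) ((5 : Fin 26), (1 : Fin 2)) + (ind p ((3 : Fin 26), (1 : Fin 2)) ((6 : Fin 26), (1 : Fin 2)) + (ind p ((3 : Fin 26), (1 : Fin 2)) ((7 : Fin 26), (1 : Fin 2)) + (0)))) = 2 := deg hp ((3 : Fin 26), (1 : Fin 2))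
  have := ind_symm p ((3 : Fin 26), (0 : Fin 2)) ((3 : Fin 26), (1 : Fin 2))
  have d4_0 : ind p ((4 : Fin 26), (0 : Fin 2)) ((4 : Fin 26), (1 : Fin 2)) + (ind p ((4 : Fin 26), (0 : Fin 2)) ((5 : Fin 26), (0 : Fin 2)) + (ind p ((4 : Fin 26), (0 : Fin 2)) ((6 : Fin 26), (0 : Fin 2)) + (ind p ((4 : Fin 26), (0 : Fin 2)) ((7 : Fin 26), (0 : Fin 2)) + (0)))) = 2 := deg hp ((4 : Fin 26), (0 : Fin 2))
  have d4_1 : ind p ((4 : Fin 26), (1 : Fin 2)) ((4 : Fin 26), (0 : Fin 2)) + (ind p ((4 : Fin 26), (1 : Fin 2)) ((5 : Fin 26), (1 : Fin 2)) + (ind p ((4 : Fin 26), (1 : Fin 2)) ((6 : Fin 26), (1 : Fin 2)) + (ind p ((4 : Fin 26), (1 : Fin 2)) ((7 : Fin 26), (1 : Fin 2)) + (0)))) = 2 := deg hp ((4 : Fin 26), (1 : Fin 2))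
  have := ind_symm p ((4 : Fin 26), (0 : Fin 2)) ((4 : Fin 26), (1 : Fin 2))
  have d5_0 : ind p ((5 : Fin 26), (0 : Fin 2)) ((5 : Fin 26), (1 : Fin 2)) + (ind p ((5 : Fin 26), (0 : Fin 2)) ((2 : Fin 26), (0 : Fin 2)) + (ind p ((5 : Fin 26), (0 : Fin 2)) ((3 : Fin 26), (0 : Fin 2)) + (ind p ((5 : Fin 26), (0 : Fin 2)) ((4 : Fin 26), (0 : Fin 2)) + (0)))) = 2 := deg hp ((5 : Fin 26), (0 : Fin 2))
  have d5_1 : ind p ((5 : Fin 26), (1 : Fin 2)) ((5 : Fin 26), (0 : Fin 2)) + (ind p ((5 : Fin 26), (1 : Fin 2)) ((2 : Fin 26), (1 : Fin 2)) + (ind p ((5 : Fin 26), (1 : Fin 2)) ((3 : Fin 26), (1 : Fin 2)) + (ind p ((5 : Fin 26), (1 : Fin 2)) ((4 : Fin 26), (1 : Fin 2)) + (0)))) = 2 := deg hp ((5 : Fin 26), (1 : Fin 2))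
  have := ind_symm p ((5 : Fin 26), (0 : Fin 2)) ((5 : Fin 26), (1 : Fin 2))
  have d6_0 : ind p ((6 : Fin 26), (0 : Fin 2)) ((6 : Fin 26), (1 : Fin 2)) + (ind p ((6 : Fin 26), (0 : Fin 2)) ((2 : Fin 26), (0 : Fin 2)) + (ind p ((6 : Fin 26), (0 : Fin 2)) ((3 : Fin 26), (0 : Fin 2)) + (ind p ((6 : Fin 26), (0 : Fin 2)) ((4 : Fin 26), (0 : Fin 2)) + (0)))) = 2 := deg hp ((6 : Fin 26), (0 : Fin 2))
  have d6_1 : ind p ((6 : Fin 26), (1 : Fin 2)) ((6 : Fin 26), (0 : Fin 2)) + (ind p ((6 : Fin 26), (1 : Fin 2)) ((2 : Fin 26), (1 : Fin 2)) + (ind p ((6 : Fin 26), (1 : Fin 2)) ((3 : Fin 26), (1 : Fin 2)) + (ind p ((6 : Fin 26), (1 : Fin 2)) ((4 : Fin 26), (1 : Fin 2)) + (0)))) = 2 := deg hp ((6 : Fin 26), (1 : Fin 2))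
  have := ind_symm p ((6 : Fin 26), (0 : Fin 2)) ((6 : Fin 26), (1 : Fin 2))
  have d7_0 : ind p ((7 : Fin 26), (0 : Fin 2)) ((7 : Fin 26), (1 : Fin 2)) + (ind p ((7 : Fin 26), (0 : Fin 2)) ((3 : Fin 26), (0 : Fin 2)) + (ind p ((7 : Fin 26), (0 : Fin 2)) ((4 : Fin 26), (0 : Fin 2)) + (ind p ((7 : Fin 26), (0 : Fin 2)) ((8 : Fin 26), (0 : Fin 2)) + (0)))) = 2 := deg hp ((7 : Fin 26), (0 : Fin 2))
  have d7_1 : ind p ((7 : Fin 26), (1 : Fin 2)) ((7 : Fin 26), (0 : Fin 2)) + (ind p ((7 : Fin 26), (1 : Fin 2)) ((3 : Fin 26), (1 : Fin 2)) + (ind p ((7 : Fin 26), (1 : Fin 2)) ((4 : Fin 26), (1 : Fin 2)) + (ind p ((7 : Fin 26), (1 : Fin 2)) ((8 : Fin 26), (1 : Fin 2)) + (0)))) = 2 := deg hp ((7 : Fin 26), (1 : Fin 2))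
  have := ind_symm p ((7 : Fin 26), (0 : Fin 2)) ((7 : Fin 26), (1 : Fin 2))
  have := ind_symm p ((2 : Fin 26), (0 : Fin 2)) ((5 : Fin 26), (0 : Fin 2))
  have := ind_symm p ((2 : Fin 26), (1 : Fin 2)) ((5 : Fin 26), (1 : Fin 2))
  have := ind_symm p ((2 : Fin 26), (0 : Fin 2)) ((6 : Fin 26), (0 : Fin 2))
  have := ind_symm p ((2 : Fin 26), (1 : Fin 2)) ((6 : Fin 26), (1 : Fin 2))
  have := ind_symm p ((3 : Fin 26), (0 : Fin 2)) ((5 : Fin 26), (0 : Fin 2))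
  have := ind_symm p ((3 : Fin 26), (1 : Fin 2)) ((5 : Fin 26), (1 : Fin 2))
  have := ind_symm p ((3 : Fin 26), (0 : Fin 2)) ((6 : Fin 26), (0 : Fin 2))
  have := ind_symm p ((3 : Fin 26), (1 : Fin 2)) ((6 : Fin 26), (1 : Fin 2))
  have := ind_symm p ((3 : Fin 26), (0 : Fin 2)) ((7 : Fin 26), (0 : Fin 2))
  have := ind_symm p ((3 : Fin 26), (1 : Fin 2)) ((7 : Fin 26), (1 : Fin 2))
  have := ind_symm p ((4 : Fin 26), (0 : Fin 2)) ((5 : Fin 26), (0 : Fin 2))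
  have := ind_symm p ((4 : Fin 26), (1 : Fin 2)) ((5 : Fin 26), (1 : Fin 2))
  have := ind_symm p ((4 : Fin 26), (0 : Fin 2)) ((6 : Fin 26), (0 : Fin 2))
  have := ind_symm p ((4 : Fin 26), (1 : Fin 2)) ((6 : Fin 26), (1 : Fin 2))
  have := ind_symm p ((4 : Fin 26), (0 : Fin 2)) ((7 : Fin 26), (0 : Fin 2))
  have := ind_symm p ((4 : Fin 26), (1 : Fin 2)) ((7 : Fin 26), (1 : Fin 2))
  omega

lemma par2 {a : Fin 26 × Fin 2} {p : P.Walk a a} (hp : p.IsHamiltonianCycle) :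
    (ind p ((2 : Fin 26), (0 : Fin 2)) ((0 : Fin 26), (0 : Fin 2)) + ind p ((7 : Fin 26), (1 : Fin 2)) ((8 : Fin 26), (1 : Fin 2)) + ind p ((2 : Fin 26), (1 : Fin 2)) ((0 : Fin 26), (1 : Fin 2)) + ind p ((7 : Fin 26), (0 : Fin 2)) ((8 : Fin 26), (0 : Fin 2))) % 2 = 0 := by
  have := piece2 hp
  omega

lemma piece8 {a : Fin 26 × Fin 2} {p : P.Walk a a} (hp : p.IsHamiltonianCycle) :
    ind p ((8 : Fin 26), (0 : Fin 2)) ((7 : Fin 26), (0 : Fin 2)) + ind p ((13 : Fin 26), (1 : Fin 2)) ((1 : Fin 26), (1 : Fin 2)) = ind p ((8 : Fin 26), (1 : Fin 2)) ((7 : Fin 26), (1 : Fin 2)) + ind p ((13 : Fin 26), (0 : Fin 2)) ((1 : Fin 26), (0 : Fin 2)) := by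
  have d8_0 : ind p ((8 : Fin 26), (0 : Fin 2)) ((8 : Fin 26), (1 : Fin 2)) + (ind p ((8 : Fin 26), (0 : Fin 2)) ((7 : Fin 26), (0 : Fin 2)) + (ind p ((8 : Fin 26), (0 : Fin 2)) ((11 : Fin 26), (0 : Fin 2)) + (ind p ((8 : Fin 26), (0 : Fin 2)) ((12 : Fin 26), (0 : Fin 2)) + (0)))) = 2 := deg hp ((8 : Fin 26), (0 : Fin 2))
  have d8_1 : ind p ((8 : Fin 26), (1 : Fin 2)) ((8 : Fin 26), (0 : Fin 2)) + (ind p ((8 : Fin 26), (1 : Fin 2)) ((7 : Fin 26), (1 : Fin 2)) + (ind p ((8 : Fin 26), (1 : Fin 2)) ((11 : Fin 26), (1 : Fin 2)) + (ind p ((8 : Fin 26), (1 : Fin 2)) ((12 : Fin 26), (1 : Fin 2)) + (0)))) = 2 := deg hp ((8 : Fin 26), (1 : Fin 2))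
  have := ind_symm p ((8 : Fin 26), (0 : Fin 2)) ((8 : Fin 26), (1 : Fin 2))
  have d9_0 : ind p ((9 : Fin 26), (0 : Fin 2)) ((9 : Fin 26), (1 : Fin 2)) + (ind p ((9 : Fin 26), (0 : Fin 2)) ((11 : Fin 26), (0 : Fin 2)) + (ind p ((9 : Fin 26), (0 : Fin 2)) ((12 : Fin 26), (0 : Fin 2)) + (ind p ((9 : Fin 26), (0 : Fin 2)) ((13 : Fin 26), (0 : Fin 2)) + (0)))) = 2 := deg hp ((9 : Fin 26), (0 : Fin 2))
  have d9_1 : ind p ((9 : Fin 26), (1 : Fin 2)) ((9 : Fin 26), (0 : Fin 2)) + (ind p ((9 : Fin 26), (1 : Fin 2)) ((11 : Fin 26), (1 : Fin 2)) + (ind p ((9 : Fin 26), (1 : Fin 2)) ((12 : Fin 26), (1 : Fin 2)) + (ind p ((9 : Fin 26), (1 : Fin 2)) ((13 : Fin 26), (1 : Fin 2)) + (0)))) = 2 := deg hp ((9 : Fin 26), (1 : Fin 2))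
  have := ind_symm p ((9 : Fin 26), (0 : Fin 2)) ((9 : Fin 26), (1 : Fin 2))
  have d10_0 : ind p ((10 : Fin 26), (0 : Fin 2)) ((10 : Fin 26), (1 : Fin 2)) + (ind p ((10 : Fin 26), (0 : Fin 2)) ((11 : Fin 26), (0 : Fin 2)) + (ind p ((10 : Fin 26), (0 : Fin 2)) ((12 : Fin 26), (0 : Fin 2)) + (ind p ((10 : Fin 26), (0 : Fin 2)) ((13 : Fin 26), (0 : Fin 2)) + (0)))) = 2 := deg hp ((10 : Fin 26), (0 : Fin 2))
  have d10_1 : ind p ((10 : Fin 26), (1 : Fin 2)) ((10 : Fin 26), (0 : Fin 2)) + (ind p ((10 : Fin 26), (1 : Fin 2)) ((11 : Fin 26), (1 : Fin 2)) + (ind p ((10 : Fin 26), (1 : Fin 2)) ((12 : Fin 26), (1 : Fin 2)) + (ind p ((10 : Fin 26), (1 : Fin 2)) ((13 : Fin 26), (1 : Fin 2)) + (0)))) = 2 := deg hp ((10 : Fin 26), (1 : Fin 2))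
  have := ind_symm p ((10 : Fin 26), (0 : Fin 2)) ((10 : Fin 26), (1 : Fin 2))
  have d11_0 : ind p ((11 : Fin 26), (0 : Fin 2)) ((11 : Fin 26), (1 : Fin 2)) + (ind p ((11 : Fin 26), (0 : Fin 2)) ((8 : Fin 26), (0 : Fin 2)) + (ind p ((11 : Fin 26), (0 : Fin 2)) ((9 : Fin 26), (0 : Fin 2)) + (ind p ((11 : Fin 26), (0 : Fin 2)) ((10 : Fin 26), (0 : Fin 2)) + (0)))) = 2 := deg hp ((11 : Fin 26), (0 : Fin 2))
  have d11_1 : ind p ((11 : Fin 26), (1 : Fin 2)) ((11 : Fin 26), (0 : Fin 2)) + (ind p ((11 : Fin 26), (1 : Fin 2)) ((8 : Fin 26), (1 : Fin 2)) + (ind p ((11 : Fin 26), (1 : Fin 2)) ((9 : Fin 26), (1 : Fin 2)) + (ind p ((11 : Fin 26), (1 : Fin 2)) ((10 : Fin 26), (1 : Fin 2)) + (0)))) = 2 := deg hp ((11 : Fin 26), (1 : Fin 2))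
  have := ind_symm p ((11 : Fin 26), (0 : Fin 2)) ((11 : Fin 26), (1 : Fin 2))
  have d12_0 : ind p ((12 : Fin 26), (0 : Fin 2)) ((12 : Fin 26), (1 : Fin 2)) + (ind p ((12 : Fin 26), (0 : Fin 2)) ((8 : Fin 26), (0 : Fin 2)) + (ind p ((12 : Fin 26), (0 : Fin 2)) ((9 : Fin 26), (0 : Fin 2)) + (ind p ((12 : Fin 26), (0 : Fin 2)) ((10 : Fin 26), (0 : Fin 2)) + (0)))) = 2 := deg hp ((12 : Fin 26), (0 : Fin 2))
  have d12_1 : ind p ((12 : Fin 26), (1 : Fin 2)) ((12 : Fin 26), (0 : Fin 2)) + (ind p ((12 : Fin 26), (1 : Fin 2)) ((8 : Fin 26), (1 : Fin 2)) + (ind p ((12 : Fin 26), (1 : Fin 2)) ((9 : Fin 26), (1 : Fin 2)) + (ind p ((12 : Fin 26), (1 : Fin 2)) ((10 : Fin 26), (1 : Fin 2)) + (0)))) = 2 := deg hp ((12 : Fin 26), (1 : Fin 2))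
  have := ind_symm p ((12 : Fin 26), (0 : Fin 2)) ((12 : Fin 26), (1 : Fin 2))
  have d13_0 : ind p ((13 : Fin 26), (0 : Fin 2)) ((13 : Fin 26), (1 : Fin 2)) + (ind p ((13 : Fin 26), (0 : Fin 2)) ((1 : Fin 26), (0 : Fin 2)) + (ind p ((13 : Fin 26), (0 : Fin 2)) ((9 : Fin 26), (0 : Fin 2)) + (ind p ((13 : Fin 26), (0 : Fin 2)) ((10 : Fin 26), (0 : Fin 2)) + (0)))) = 2 := deg hp ((13 : Fin 26), (0 : Fin 2))
  have d13_1 : ind p ((13 : Fin 26), (1 : Fin 2)) ((13 : Fin 26), (0 : Fin 2)) + (ind p ((13 : Fin 26), (1 : Fin 2)) ((1 : Fin 26), (1 : Fin 2)) + (ind p ((13 : Fin 26), (1 : Fin 2)) ((9 : Fin 26), (1 : Fin 2)) + (ind p ((13 : Fin 26), (1 : Fin 2)) ((10 : Fin 26), (1 : Fin 2)) + (0)))) = 2 := deg hp ((13 : Fin 26), (1 : Fin 2))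
  have := ind_symm p ((13 : Fin 26), (0 : Fin 2)) ((13 : Fin 26), (1 : Fin 2))
  have := ind_symm p ((8 : Fin 26), (0 : Fin 2)) ((11 : Fin 26), (0 : Fin 2))
  have := ind_symm p ((8 : Fin 26), (1 : Fin 2)) ((11 : Fin 26), (1 : Fin 2))
  have := ind_symm p ((8 : Fin 26), (0 : Fin 2)) ((12 : Fin 26), (0 : Fin 2))
  have := ind_symm p ((8 : Fin 26), (1 : Fin 2)) ((12 : Fin 26), (1 : Fin 2))
  have := ind_symm p ((9 : Fin 26), (0 : Fin 2)) ((11 : Fin 26), (0 : Fin 2))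
  have := ind_symm p ((9 : Fin 26), (1 : Fin 2)) ((11 : Fin 26), (1 : Fin 2))
  have := ind_symm p ((9 : Fin 26), (0 : Fin 2)) ((12 : Fin 26), (0 : Fin 2))
  have := ind_symm p ((9 : Fin 26), (1 : Fin 2)) ((12 : Fin 26), (1 : Fin 2))
  have := ind_symm p ((9 : Fin 26), (0 : Fin 2)) ((13 : Fin 26), (0 : Fin 2))
  have := ind_symm p ((9 : Fin 26), (1 : Fin 2)) ((13 : Fin 26), (1 : Fin 2))
  have := ind_symm p ((10 : Fin 26), (0 : Fin 2)) ((11 : Fin 26), (0 : Fin 2))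
  have := ind_symm p ((10 : Fin 26), (1 : Fin 2)) ((11 : Fin 26), (1 : Fin 2))
  have := ind_symm p ((10 : Fin 26), (0 : Fin 2)) ((12 : Fin 26), (0 : Fin 2))
  have := ind_symm p ((10 : Fin 26), (1 : Fin 2)) ((12 : Fin 26), (1 : Fin 2))
  have := ind_symm p ((10 : Fin 26), (0 : Fin 2)) ((13 : Fin 26), (0 : Fin 2))
  have := ind_symm p ((10 : Fin 26), (1 : Fin 2)) ((13 : Fin 26), (1 : Fin 2))
  omega

lemma par8 {a : Fin 26 × Fin 2} {p : P.Walk a a} (hp : p.IsHamiltonianCycle) :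
    (ind p ((8 : Fin 26), (0 : Fin 2)) ((7 : Fin 26), (0 : Fin 2)) + ind p ((13 : Fin 26), (1 : Fin 2)) ((1 : Fin 26), (1 : Fin 2)) + ind p ((8 : Fin 26), (1 : Fin 2)) ((7 : Fin 26), (1 : Fin 2)) + ind p ((13 : Fin 26), (0 : Fin 2)) ((1 : Fin 26), (0 : Fin 2))) % 2 = 0 := by
  have := piece8 hp
  omega

lemma piece14 {a : Fin 26 × Fin 2} {p : P.Walk a a} (hp : p.IsHamiltonianCycle) :
    ind p ((14 : Fin 26), (0 : Fin 2)) ((0 : Fin 26), (0 : Fin 2)) + ind p ((19 : Fin 26), (1 : Fin 2)) ((20 : Fin 26), (1 : Fin 2)) = ind p ((14 : Fin 26), (1 : Fin 2)) ((0 : Fin 26), (1 : Fin 2)) + ind p ((19 : Fin 26), (0 : Fin 2)) ((20 : Fin 26), (0 : Fin 2)) := by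
  have d14_0 : ind p ((14 : Fin 26), (0 : Fin 2)) ((14 : Fin 26), (1 : Fin 2)) + (ind p ((14 : Fin 26), (0 : Fin 2)) ((0 : Fin 26), (0 : Fin 2)) + (ind p ((14 : Fin 26), (0 : Fin 2)) ((17 : Fin 26), (0 : Fin 2)) + (ind p ((14 : Fin 26), (0 : Fin 2)) ((18 : Fin 26), (0 : Fin 2)) + (0)))) = 2 := deg hp ((14 : Fin 26), (0 : Fin 2))
  have d14_1 : ind p ((14 : Fin 26), (1 : Fin 2)) ((14 : Fin 26), (0 : Fin 2)) + (ind p ((14 : Fin 26), (1 : Fin 2)) ((0 : Fin 26), (1 : Fin 2)) + (ind p ((14 : Fin 26), (1 : Fin 2)) ((17 : Fin 26), (1 : Fin 2)) + (ind p ((14 : Fin 26), (1 : Fin 2)) ((18 : Fin 26), (1 : Fin 2)) + (0)))) = 2 := deg hp ((14 : Fin 26), (1 : Fin 2))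
  have := ind_symm p ((14 : Fin 26), (0 : Fin 2)) ((14 : Fin 26), (1 : Fin 2))
  have d15_0 : ind p ((15 : Fin 26), (0 : Fin 2)) ((15 : Fin 26), (1 : Fin 2)) + (ind p ((15 : Fin 26), (0 : Fin 2)) ((17 : Fin 26), (0 : Fin 2)) + (ind p ((15 : Fin 26), (0 : Fin 2)) ((18 : Fin 26), (0 : Fin 2)) + (ind p ((15 : Fin 26), (0 : Fin 2)) ((19 : Fin 26), (0 : Fin 2)) + (0)))) = 2 := deg hp ((15 : Fin 26), (0 : Fin 2))
  have d15_1 : ind p ((15 : Fin 26), (1 : Fin 2)) ((15 : Fin 26), (0 : Fin 2)) + (ind p ((15 : Fin 26), (1 : Fin 2)) ((17 : Fin 26), (1 : Fin 2)) + (ind p ((15 : Fin 26), (1 : Fin 2)) ((18 : Fin 26), (1 : Fin 2)) + (ind p ((15 : Fin 26), (1 : Fin 2)) ((19 : Fin 26), (1 : Fin 2)) + (0)))) = 2 := deg hp ((15 : Fin 26), (1 : Fin 2))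
  have := ind_symm p ((15 : Fin 26), (0 : Fin 2)) ((15 : Fin 26), (1 : Fin 2))
  have d16_0 : ind p ((16 : Fin 26), (0 : Fin 2)) ((16 : Fin 26), (1 : Fin 2)) + (ind p ((16 : Fin 26), (0 : Fin 2)) ((17 : Fin 26), (0 : Fin 2)) + (ind p ((16 : Fin 26), (0 : Fin 2)) ((18 : Fin 26), (0 : Fin 2)) + (ind p ((16 : Fin 26), (0 : Fin 2)) ((19 : Fin 26), (0 : Fin 2)) + (0)))) = 2 := deg hp ((16 : Fin 26), (0 : Fin 2))
  have d16_1 : ind p ((16 : Fin 26), (1 : Fin 2)) ((16 : Fin 26), (0 : Fin 2)) + (ind p ((16 : Fin 26), (1 : Fin 2)) ((17 : Fin 26), (1 : Fin 2)) + (ind p ((16 : Fin 26), (1 : Fin 2)) ((18 : Fin 26), (1 : Fin 2)) + (ind p ((16 : Fin 26), (1 : Fin 2)) ((19 : Fin 26), (1 : Fin 2)) + (0)))) = 2 := deg hp ((16 : Fin 26), (1 : Fin 2))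
  have := ind_symm p ((16 : Fin 26), (0 : Fin 2)) ((16 : Fin 26), (1 : Fin 2))
  have d17_0 : ind p ((17 : Fin 26), (0 : Fin 2)) ((17 : Fin 26), (1 : Fin 2)) + (ind p ((17 : Fin 26), (0 : Fin 2)) ((14 : Fin 26), (0 : Fin 2)) + (ind p ((17 : Fin 26), (0 : Fin 2)) ((15 : Fin 26), (0 : Fin 2)) + (ind p ((17 : Fin 26), (0 : Fin 2)) ((16 : Fin 26), (0 : Fin 2)) + (0)))) = 2 := deg hp ((17 : Fin 26), (0 : Fin 2))
  have d17_1 : ind p ((17 : Fin 26), (1 : Fin 2)) ((17 : Fin 26), (0 : Fin 2)) + (ind p ((17 : Fin 26), (1 : Fin 2)) ((14 : Fin 26), (1 : Fin 2)) + (ind p ((17 : Fin 26), (1 : Fin 2)) ((15 : Fin 26), (1 : Fin 2)) + (ind p ((17 : Fin 26), (1 : Fin 2)) ((16 : Fin 26), (1 : Fin 2)) + (0)))) = 2 := deg hp ((17 : Fin 26), (1 : Fin 2))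
  have := ind_symm p ((17 : Fin 26), (0 : Fin 2)) ((17 : Fin 26), (1 : Fin 2))
  have d18_0 : ind p ((18 : Fin 26), (0 : Fin 2)) ((18 : Fin 26), (1 : Fin 2)) + (ind p ((18 : Fin 26), (0 : Fin 2)) ((14 : Fin 26), (0 : Fin 2)) + (ind p ((18 : Fin 26), (0 : Fin 2)) ((15 : Fin 26), (0 : Fin 2)) + (ind p ((18 : Fin 26), (0 : Fin 2)) ((16 : Fin 26), (0 : Fin 2)) + (0)))) = 2 := deg hp ((18 : Fin 26), (0 : Fin 2))
  have d18_1 : ind p ((18 : Fin 26), (1 : Fin 2)) ((18 : Fin 26), (0 : Fin 2)) + (ind p ((18 : Fin 26), (1 : Fin 2)) ((14 : Fin 26), (1 : Fin 2)) + (ind p ((18 : Fin 26), (1 : Fin 2)) ((15 : Fin 26), (1 : Fin 2)) + (ind p ((18 : Fin 26), (1 : Fin 2)) ((16 : Fin 26), (1 : Fin 2)) + (0)))) = 2 := deg hp ((18 : Fin 26), (1 : Fin 2))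
  have := ind_symm p ((18 : Fin 26), (0 : Fin 2)) ((18 : Fin 26), (1 : Fin 2))
  have d19_0 : ind p ((19 : Fin 26), (0 : Fin 2)) ((19 : Fin 26), (1 : Fin 2)) + (ind p ((19 : Fin 26), (0 : Fin 2)) ((15 : Fin 26), (0 : Fin 2)) + (ind p ((19 : Fin 26), (0 : Fin 2)) ((16 : Fin 26), (0 : Fin 2)) + (ind p ((19 : Fin 26), (0 : Fin 2)) ((20 : Fin 26), (0 : Fin 2)) + (0)))) = 2 := deg hp ((19 : Fin 26), (0 : Fin 2))
  have d19_1 : ind p ((19 : Fin 26), (1 : Fin 2)) ((19 : Fin 26), (0 : Fin 2)) + (ind p ((19 : Fin 26), (1 : Fin 2)) ((15 : Fin 26), (1 : Fin 2)) + (ind p ((19 : Fin 26), (1 : Fin 2)) ((16 : Fin 26), (1 : Fin 2)) + (ind p ((19 : Fin 26), (1 : Fin 2)) ((20 : Fin 26), (1 : Fin 2)) + (0)))) = 2 := deg hp ((19 : Fin 26), (1 : Fin 2))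
  have := ind_symm p ((19 : Fin 26), (0 : Fin 2)) ((19 : Fin 26), (1 : Fin 2))
  have := ind_symm p ((14 : Fin 26), (0 : Fin 2)) ((17 : Fin 26), (0 : Fin 2))
  have := ind_symm p ((14 : Fin 26), (1 : Fin 2)) ((17 : Fin 26), (1 : Fin 2))
  have := ind_symm p ((14 : Fin 26), (0 : Fin 2)) ((18 : Fin 26), (0 : Fin 2))
  have := ind_symm p ((14 : Fin 26), (1 : Fin 2)) ((18 : Fin 26), (1 : Fin 2))
  have := ind_symm p ((15 : Fin 26), (0 : Fin 2)) ((17 : Fin 26), (0 : Fin 2))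
  have := ind_symm p ((15 : Fin 26), (1 : Fin 2)) ((17 : Fin 26), (1 : Fin 2))
  have := ind_symm p ((15 : Fin 26), (0 : Fin 2)) ((18 : Fin 26), (0 : Fin 2))
  have := ind_symm p ((15 : Fin 26), (1 : Fin 2)) ((18 : Fin 26), (1 : Fin 2))
  have := ind_symm p ((15 : Fin 26), (0 : Fin 2)) ((19 : Fin 26), (0 : Fin 2))
  have := ind_symm p ((15 : Fin 26), (1 : Fin 2)) ((19 : Fin 26), (1 : Fin 2))
  have := ind_symm p ((16 : Fin 26), (0 : Fin 2)) ((17 : Fin 26), (0 : Fin 2))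
  have := ind_symm p ((16 : Fin 26), (1 : Fin 2)) ((17 : Fin 26), (1 : Fin 2))
  have := ind_symm p ((16 : Fin 26), (0 : Fin 2)) ((18 : Fin 26), (0 : Fin 2))
  have := ind_symm p ((16 : Fin 26), (1 : Fin 2)) ((18 : Fin 26), (1 : Fin 2))
  have := ind_symm p ((16 : Fin 26), (0 : Fin 2)) ((19 : Fin 26), (0 : Fin 2))
  have := ind_symm p ((16 : Fin 26), (1 : Fin 2)) ((19 : Fin 26), (1 : Fin 2))
  omega

lemma par14 {a : Fin 26 × Fin 2} {p : P.Walk a a} (hp : p.IsHamiltonianCycle) :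
    (ind p ((14 : Fin 26), (0 : Fin 2)) ((0 : Fin 26), (0 : Fin 2)) + ind p ((19 : Fin 26), (1 : Fin 2)) ((20 : Fin 26), (1 : Fin 2)) + ind p ((14 : Fin 26), (1 : Fin 2)) ((0 : Fin 26), (1 : Fin 2)) + ind p ((19 : Fin 26), (0 : Fin 2)) ((20 : Fin 26), (0 : Fin 2))) % 2 = 0 := by
  have := piece14 hp
  omega

lemma piece20 {a : Fin 26 × Fin 2} {p : P.Walk a a} (hp : p.IsHamiltonianCycle) :
    ind p ((20 : Fin 26), (0 : Fin 2)) ((19 : Fin 26), (0 : Fin 2)) + ind p ((25 : Fin 26), (1 : Fin 2)) ((1 : Fin 26), (1 : Fin 2)) = ind p ((20 : Fin 26), (1 : Fin 2)) ((19 : Fin 26), (1 : Fin 2)) + ind p ((25 : Fin 26), (0 : Fin 2)) ((1 : Fin 26), (0 : Fin 2)) := by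
  have d20_0 : ind p ((20 : Fin 26), (0 : Fin 2)) ((20 : Fin 26), (1 : Fin 2)) + (ind p ((20 : Fin 26), (0 : Fin 2)) ((19 : Fin 26), (0 : Fin 2)) + (ind p ((20 : Fin 26), (0 : Fin 2)) ((23 : Fin 26), (0 : Fin 2)) + (ind p ((20 : Fin 26), (0 : Fin 2)) ((24 : Fin 26), (0 : Fin 2)) + (0)))) = 2 := deg hp ((20 : Fin 26), (0 : Fin 2))
  have d20_1 : ind p ((20 : Fin 26), (1 : Fin 2)) ((20 : Fin 26), (0 : Fin 2)) + (ind p ((20 : Fin 26), (1 : Fin 2)) ((19 : Fin 26), (1 : Fin 2)) + (ind p ((20 : Fin 26), (1 : Fin 2)) ((23 : Fin 26), (1 : Fin 2)) + (ind p ((20 : Fin 26), (1 : Fin 2)) ((24 : Fin 26), (1 : Fin 2)) + (0)))) = 2 := deg hp ((20 : Fin 26), (1 : Fin 2))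
  have := ind_symm p ((20 : Fin 26), (0 : Fin 2)) ((20 : Fin 26), (1 : Fin 2))
  have d21_0 : ind p ((21 : Fin 26), (0 : Fin 2)) ((21 : Fin 26), (1 : Fin 2)) + (ind p ((21 : Fin 26), (0 : Fin 2)) ((23 : Fin 26), (0 : Fin 2)) + (ind p ((21 : Fin 26), (0 : Fin 2)) ((24 : Fin 26), (0 : Fin 2)) + (ind p ((21 : Fin 26), (0 : Fin 2)) ((25 : Fin 26), (0 : Fin 2)) + (0)))) = 2 := deg hp ((21 : Fin 26), (0 : Fin 2))
  have d21_1 : ind p ((21 : Fin 26), (1 : Fin 2)) ((21 : Fin 26), (0 : Fin 2)) + (ind p ((21 : Fin 26), (1 : Fin 2)) ((23 : Fin 26), (1 : Fin 2)) + (ind p ((21 : Fin 26), (1 : Fin 2)) ((24 : Fin 26), (1 : Fin 2)) + (ind p ((21 : Fin 26), (1 : Fin 2)) ((25 : Fin 26), (1 : Fin 2)) + (0)))) = 2 := deg hp ((21 : Fin 26), (1 : Fin 2))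
  have := ind_symm p ((21 : Fin 26), (0 : Fin 2)) ((21 : Fin 26), (1 : Fin 2))
  have d22_0 : ind p ((22 : Fin 26), (0 : Fin 2)) ((22 : Fin 26), (1 : Fin 2)) + (ind p ((22 : Fin 26), (0 : Fin 2)) ((23 : Fin 26), (0 : Fin 2)) + (ind p ((22 : Fin 26), (0 : Fin 2)) ((24 : Fin 26), (0 : Fin 2)) + (ind p ((22 : Fin 26), (0 : Fin 2)) ((25 : Fin 26), (0 : Fin 2)) + (0)))) = 2 := deg hp ((22 : Fin 26), (0 : Fin 2))
  have d22_1 : ind p ((22 : Fin 26), (1 : Fin 2)) ((22 : Fin 26), (0 : Fin 2)) + (ind p ((22 : Fin 26), (1 : Fin 2)) ((23 : Fin 26), (1 : Fin 2)) + (ind p ((22 : Fin 26), (1 : Fin 2)) ((24 : Fin 26), (1 : Fin 2)) + (ind p ((22 : Fin 26), (1 : Fin 2)) ((25 : Fin 26), (1 : Fin 2)) + (0)))) = 2 := deg hp ((22 : Fin 26), (1 : Fin 2))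
  have := ind_symm p ((22 : Fin 26), (0 : Fin 2)) ((22 : Fin 26), (1 : Fin 2))
  have d23_0 : ind p ((23 : Fin 26), (0 : Fin 2)) ((23 : Fin 26), (1 : Fin 2)) + (ind p ((23 : Fin 26), (0 : Fin 2)) ((20 : Fin 26), (0 : Fin 2)) + (ind p ((23 : Fin 26), (0 : Fin 2)) ((21 : Fin 26), (0 : Fin 2)) + (ind p ((23 : Fin 26), (0 : Fin 2)) ((22 : Fin 26), (0 : Fin 2)) + (0)))) = 2 := deg hp ((23 : Fin 26), (0 : Fin 2))
  have d23_1 : ind p ((23 : Fin 26), (1 : Fin 2)) ((23 : Fin 26), (0 : Fin 2)) + (ind p ((23 : Fin 26), (1 : Fin 2)) ((20 : Fin 26), (1 : Fin 2)) + (ind p ((23 : Fin 26), (1 : Fin 2)) ((21 : Fin 26), (1 : Fin 2)) + (ind p ((23 : Fin 26), (1 : Fin 2)) ((22 : Fin 26), (1 : Fin 2)) + (0)))) = 2 := deg hp ((23 : Fin 26), (1 : Fin 2))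
  have := ind_symm p ((23 : Fin 26), (0 : Fin 2)) ((23 : Fin 26), (1 : Fin 2))
  have d24_0 : ind p ((24 : Fin 26), (0 : Fin 2)) ((24 : Fin 26), (1 : Fin 2)) + (ind p ((24 : Fin 26), (0 : Fin 2)) ((20 : Fin 26), (0 : Fin 2)) + (ind p ((24 : Fin 26), (0 : Fin 2)) ((21 : Fin 26), (0 : Fin 2)) + (ind p ((24 : Fin 26), (0 : Fin 2)) ((22 : Fin 26), (0 : Fin 2)) + (0)))) = 2 := deg hp ((24 : Fin 26), (0 : Fin 2))
  have d24_1 : ind p ((24 : Fin 26), (1 : Fin 2)) ((24 : Fin 26), (0 : Fin 2)) + (ind p ((24 : Fin 26), (1 : Fin 2)) ((20 : Fin 26), (1 : Fin 2)) + (ind p ((24 : Fin 26), (1 : Fin 2)) ((21 : Fin 26), (1 : Fin 2)) + (ind p ((24 : Fin 26), (1 : Fin 2)) ((22 : Fin 26), (1 : Fin 2)) + (0)))) = 2 := deg hp ((24 : Fin 26), (1 : Fin 2))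
  have := ind_symm p ((24 : Fin 26), (0 : Fin 2)) ((24 : Fin 26), (1 : Fin 2))
  have d25_0 : ind p ((25 : Fin 26), (0 : Fin 2)) ((25 : Fin 26), (1 : Fin 2)) + (ind p ((25 : Fin 26), (0 : Fin 2)) ((1 : Fin 26), (0 : Fin 2)) + (ind p ((25 : Fin 26), (0 : Fin 2)) ((21 : Fin 26), (0 : Fin 2)) + (ind p ((25 : Fin 26), (0 : Fin 2)) ((22 : Fin 26), (0 : Fin 2)) + (0)))) = 2 := deg hp ((25 : Fin 26), (0 : Fin 2))
  have d25_1 : ind p ((25 : Fin 26), (1 : Fin 2)) ((25 : Fin 26), (0 : Fin 2)) + (ind p ((25 : Fin 26), (1 : Fin 2)) ((1 : Fin 26), (1 : Fin 2)) + (ind p ((25 : Fin 26), (1 : Fin 2)) ((21 : Fin 26), (1 : Fin 2)) + (ind p ((25 : Fin 26), (1 : Fin 2)) ((22 : Fin 26), (1 : Fin 2)) + (0)))) = 2 := deg hp ((25 : Fin 26), (1 : Fin 2))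
  have := ind_symm p ((25 : Fin 26), (0 : Fin 2)) ((25 : Fin 26), (1 : Fin 2))
  have := ind_symm p ((20 : Fin 26), (0 : Fin 2)) ((23 : Fin 26), (0 : Fin 2))
  have := ind_symm p ((20 : Fin 26), (1 : Fin 2)) ((23 : Fin 26), (1 : Fin 2))
  have := ind_symm p ((20 : Fin 26), (0 : Fin 2)) ((24 : Fin 26), (0 : Fin 2))
  have := ind_symm p ((20 : Fin 26), (1 : Fin 2)) ((24 : Fin 26), (1 : Fin 2))
  have := ind_symm p ((21 : Fin 26), (0 : Fin 2)) ((23 : Fin 26), (0 : Fin 2))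
  have := ind_symm p ((21 : Fin 26), (1 : Fin 2)) ((23 : Fin 26), (1 : Fin 2))
  have := ind_symm p ((21 : Fin 26), (0 : Fin 2)) ((24 : Fin 26), (0 : Fin 2))
  have := ind_symm p ((21 : Fin 26), (1 : Fin 2)) ((24 : Fin 26), (1 : Fin 2))
  have := ind_symm p ((21 : Fin 26), (0 : Fin 2)) ((25 : Fin 26), (0 : Fin 2))
  have := ind_symm p ((21 : Fin 26), (1 : Fin 2)) ((25 : Fin 26), (1 : Fin 2))
  have := ind_symm p ((22 : Fin 26), (0 : Fin 2)) ((23 : Fin 26), (0 : Fin 2))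
  have := ind_symm p ((22 : Fin 26), (1 : Fin 2)) ((23 : Fin 26), (1 : Fin 2))
  have := ind_symm p ((22 : Fin 26), (0 : Fin 2)) ((24 : Fin 26), (0 : Fin 2))
  have := ind_symm p ((22 : Fin 26), (1 : Fin 2)) ((24 : Fin 26), (1 : Fin 2))
  have := ind_symm p ((22 : Fin 26), (0 : Fin 2)) ((25 : Fin 26), (0 : Fin 2))
  have := ind_symm p ((22 : Fin 26), (1 : Fin 2)) ((25 : Fin 26), (1 : Fin 2))
  omega

lemma par20 {a : Fin 26 × Fin 2} {p : P.Walk a a} (hp : p.IsHamiltonianCycle) :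
    (ind p ((20 : Fin 26), (0 : Fin 2)) ((19 : Fin 26), (0 : Fin 2)) + ind p ((25 : Fin 26), (1 : Fin 2)) ((1 : Fin 26), (1 : Fin 2)) + ind p ((20 : Fin 26), (1 : Fin 2)) ((19 : Fin 26), (1 : Fin 2)) + ind p ((25 : Fin 26), (0 : Fin 2)) ((1 : Fin 26), (0 : Fin 2))) % 2 = 0 := by
  have := piece20 hp
  omega

theorem result :
    ¬ (∀ (V : Type) [Fintype V] [DecidableEq V] (G : SimpleGraph V) [DecidableRel G.Adj],
      G.IsRegularOfDegree 3 → G.IsHamiltonian →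
      ∃ (u v : V × Fin 2)
        (p : (G.boxProd (⊤ : SimpleGraph (Fin 2))).Walk u u)
        (q : (G.boxProd (⊤ : SimpleGraph (Fin 2))).Walk v v),
        p.IsHamiltonianCycle ∧ q.IsHamiltonianCycle ∧
        ∀ e ∈ (G.boxProd (⊤ : SimpleGraph (Fin 2))).edgeSet,
          (e ∈ p.edges ↔ e ∉ q.edges)) := by
  intro h
  obtain ⟨u, v, p, q, hp, hq, hpq⟩ := h (Fin 26) G reg ham
  have c : ∀ x y, P.Adj x y → ind p x y + ind q x y = 1 := by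
    intro x y hxy
    have := hpq s(x, y) hxy
    unfold ind
    by_cases h1 : s(x, y) ∈ p.edges
    · rw [if_pos h1, if_neg (this.mp h1)]
    · have h2 : s(x, y) ∈ q.edges := by
        by_contra h3; exact h1 (this.mpr h3)
      rw [if_neg h1, if_pos h2]
  have := c ((0 : Fin 26), (0 : Fin 2)) ((2 : Fin 26), (0 : Fin 2)) (by decide)
  have := c ((2 : Fin 26), (0 : Fin 2)) ((0 : Fin 26), (0 : Fin 2)) (by decide)
  have := ind_symm p ((0 : Fin 26), (0 : Fin 2)) ((2 : Fin 26), (0 : Fin 2))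
  have := c ((0 : Fin 26), (1 : Fin 2)) ((2 : Fin 26), (1 : Fin 2)) (by decide)
  have := c ((2 : Fin 26), (1 : Fin 2)) ((0 : Fin 26), (1 : Fin 2)) (by decide)
  have := ind_symm p ((0 : Fin 26), (1 : Fin 2)) ((2 : Fin 26), (1 : Fin 2))
  have := c ((7 : Fin 26), (0 : Fin 2)) ((8 : Fin 26), (0 : Fin 2)) (by decide)
  have := c ((8 : Fin 26), (0 : Fin 2)) ((7 : Fin 26), (0 : Fin 2)) (by decide)
  have := ind_symm p ((7 : Fin 26), (0 : Fin 2)) ((8 : Fin 26), (0 : Fin 2))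
  have := c ((7 : Fin 26), (1 : Fin 2)) ((8 : Fin 26), (1 : Fin 2)) (by decide)
  have := c ((8 : Fin 26), (1 : Fin 2)) ((7 : Fin 26), (1 : Fin 2)) (by decide)
  have := ind_symm p ((7 : Fin 26), (1 : Fin 2)) ((8 : Fin 26), (1 : Fin 2))
  have := c ((1 : Fin 26), (0 : Fin 2)) ((13 : Fin 26), (0 : Fin 2)) (by decide)
  have := c ((13 : Fin 26), (0 : Fin 2)) ((1 : Fin 26), (0 : Fin 2)) (by decide)
  have := ind_symm p ((1 : Fin 26), (0 : Fin 2)) ((13 : Fin 26), (0 : Fin 2))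
  have := c ((1 : Fin 26), (1 : Fin 2)) ((13 : Fin 26), (1 : Fin 2)) (by decide)
  have := c ((13 : Fin 26), (1 : Fin 2)) ((1 : Fin 26), (1 : Fin 2)) (by decide)
  have := ind_symm p ((1 : Fin 26), (1 : Fin 2)) ((13 : Fin 26), (1 : Fin 2))
  have := c ((0 : Fin 26), (0 : Fin 2)) ((14 : Fin 26), (0 : Fin 2)) (by decide)
  have := c ((14 : Fin 26), (0 : Fin 2)) ((0 : Fin 26), (0 : Fin 2)) (by decide)
  have := ind_symm p ((0 : Fin 26), (0 : Fin 2)) ((14 : Fin 26), (0 : Fin 2))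
  have := c ((0 : Fin 26), (1 : Fin 2)) ((14 : Fin 26), (1 : Fin 2)) (by decide)
  have := c ((14 : Fin 26), (1 : Fin 2)) ((0 : Fin 26), (1 : Fin 2)) (by decide)
  have := ind_symm p ((0 : Fin 26), (1 : Fin 2)) ((14 : Fin 26), (1 : Fin 2))
  have := c ((19 : Fin 26), (0 : Fin 2)) ((20 : Fin 26), (0 : Fin 2)) (by decide)
  have := c ((20 : Fin 26), (0 : Fin 2)) ((19 : Fin 26), (0 : Fin 2)) (by decide)
  have := ind_symm p ((19 : Fin 26), (0 : Fin 2)) ((20 : Fin 26), (0 : Fin 2))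
  have := c ((19 : Fin 26), (1 : Fin 2)) ((20 : Fin 26), (1 : Fin 2)) (by decide)
  have := c ((20 : Fin 26), (1 : Fin 2)) ((19 : Fin 26), (1 : Fin 2)) (by decide)
  have := ind_symm p ((19 : Fin 26), (1 : Fin 2)) ((20 : Fin 26), (1 : Fin 2))
  have := c ((1 : Fin 26), (0 : Fin 2)) ((25 : Fin 26), (0 : Fin 2)) (by decide)
  have := c ((25 : Fin 26), (0 : Fin 2)) ((1 : Fin 26), (0 : Fin 2)) (by decide)
  have := ind_symm p ((1 : Fin 26), (0 : Fin 2)) ((25 : Fin 26), (0 : Fin 2))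
  have := c ((1 : Fin 26), (1 : Fin 2)) ((25 : Fin 26), (1 : Fin 2)) (by decide)
  have := c ((25 : Fin 26), (1 : Fin 2)) ((1 : Fin 26), (1 : Fin 2)) (by decide)
  have := ind_symm p ((1 : Fin 26), (1 : Fin 2)) ((25 : Fin 26), (1 : Fin 2))
  have := c ((0 : Fin 26), (0 : Fin 2)) ((1 : Fin 26), (0 : Fin 2)) (by decide)
  have := c ((1 : Fin 26), (0 : Fin 2)) ((0 : Fin 26), (0 : Fin 2)) (by decide)
  have := ind_symm p ((0 : Fin 26), (0 : Fin 2)) ((1 : Fin 26), (0 : Fin 2))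
  have := c ((0 : Fin 26), (1 : Fin 2)) ((1 : Fin 26), (1 : Fin 2)) (by decide)
  have := c ((1 : Fin 26), (1 : Fin 2)) ((0 : Fin 26), (1 : Fin 2)) (by decide)
  have := ind_symm p ((0 : Fin 26), (1 : Fin 2)) ((1 : Fin 26), (1 : Fin 2))
  have := c ((0 : Fin 26), (0 : Fin 2)) ((0 : Fin 26), (1 : Fin 2)) (by decide)
  have := c ((0 : Fin 26), (1 : Fin 2)) ((0 : Fin 26), (0 : Fin 2)) (by decide)
  have := ind_symm p ((0 : Fin 26), (0 : Fin 2)) ((0 : Fin 26), (1 : Fin 2))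
  have d0_0 : ind p ((0 : Fin 26), (0 : Fin 2)) ((0 : Fin 26), (1 : Fin 2)) + (ind p ((0 : Fin 26), (0 : Fin 2)) ((1 : Fin 26), (0 : Fin 2)) + (ind p ((0 : Fin 26), (0 : Fin 2)) ((2 : Fin 26), (0 : Fin 2)) + (ind p ((0 : Fin 26), (0 : Fin 2)) ((14 : Fin 26), (0 : Fin 2)) + (0)))) = 2 := deg hp ((0 : Fin 26), (0 : Fin 2))
  have d0_1 : ind p ((0 : Fin 26), (1 : Fin 2)) ((0 : Fin 26), (0 : Fin 2)) + (ind p ((0 : Fin 26), (1 : Fin 2)) ((1 : Fin 26), (1 : Fin 2)) + (ind p ((0 : Fin 26), (1 : Fin 2)) ((2 : Fin 26), (1 : Fin 2)) + (ind p ((0 : Fin 26), (1 : Fin 2)) ((14 : Fin 26), (1 : Fin 2)) + (0)))) = 2 := deg hp ((0 : Fin 26), (1 : Fin 2))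
  have := c ((1 : Fin 26), (0 : Fin 2)) ((1 : Fin 26), (1 : Fin 2)) (by decide)
  have := c ((1 : Fin 26), (1 : Fin 2)) ((1 : Fin 26), (0 : Fin 2)) (by decide)
  have := ind_symm p ((1 : Fin 26), (0 : Fin 2)) ((1 : Fin 26), (1 : Fin 2))
  have d1_0 : ind p ((1 : Fin 26), (0 : Fin 2)) ((1 : Fin 26), (1 : Fin 2)) + (ind p ((1 : Fin 26), (0 : Fin 2)) ((0 : Fin 26), (0 : Fin 2)) + (ind p ((1 : Fin 26), (0 : Fin 2)) ((13 : Fin 26), (0 : Fin 2)) + (ind p ((1 : Fin 26), (0 : Fin 2)) ((25 : Fin 26), (0 : Fin 2)) + (0)))) = 2 := deg hp ((1 : Fin 26), (0 : Fin 2))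
  have d1_1 : ind p ((1 : Fin 26), (1 : Fin 2)) ((1 : Fin 26), (0 : Fin 2)) + (ind p ((1 : Fin 26), (1 : Fin 2)) ((0 : Fin 26), (1 : Fin 2)) + (ind p ((1 : Fin 26), (1 : Fin 2)) ((13 : Fin 26), (1 : Fin 2)) + (ind p ((1 : Fin 26), (1 : Fin 2)) ((25 : Fin 26), (1 : Fin 2)) + (0)))) = 2 := deg hp ((1 : Fin 26), (1 : Fin 2))
  have := cutA0 hp
  have := cutA0 hq
  have := cutA1 hp
  have := cutA1 hq
  have := cutA2 hp
  have := cutA2 hq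
  have := cutA3 hp
  have := cutA3 hq
  have := cutB0 hp
  have := cutB0 hq
  have := cutB1 hp
  have := cutB1 hq
  have := cutC0 hp
  have := cutC0 hq
  have := cutC1 hp
  have := cutC1 hq
  have := piece2 hp
  have := piece8 hp
  have := piece14 hp
  have := piece20 hp
  omega

end Pool.Agent.S08298
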