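import Pool.Statements.S08318
-- import your own Pool.Agent.* helpers here

set_option autoImplicit false
open Pool Pool.MP_3fd808_co

namespace Pool.Agent.S08318

def A : Fin 6 → Fin 6 → Bool :=
  ![![false, true, false, false, false, true], ![false, false, false, true, false, true],
    ![true, true, false, false, true, false], ![true, false, true, false, true, false],
    ![true, true, false, false, false, true], ![false, false, true, true, false, false]]

def C : Fin 6 → Fin 6 → ℕ :=
  ![![0, 2, 1, 0, 0, 1], ![2, 0, 0, 2, 1, 3], ![1, 0, 0, 2, 3, 3], ![0, 2, 2, 0, 1, 0],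
    ![0, 1, 3, 1, 0, 0], ![1, 3, 3, 0, 0, 0]]

/-- vertices reachable from v in colour a, other than v -/
def T : Fin 6 → List (List (Fin 6)) :=
  ![[[], [5], [1, 2, 3], []], [[], [], [2, 3], [2, 4, 5]], [[1], [0, 5], [], [4]],
    [[0], [1, 4], [2], []], [[0, 3, 5], [1], [], []], [[0, 3], [], [], [2, 4]]]

def R (v : Fin 6) (a : ℕ) (x : Fin 6) : Prop := x = v ∨ x ∈ (T v).getD a []

instance (v : Fin 6) (a : ℕ) (x : Fin 6) : Decidable (R v a x) := by unfold R; infer_instance

def miss : Fin 6 → Fin 6 := ![4, 0, 3, 5, 2, 1]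

lemma C_lt : ∀ x y, C x y < 4 := by decide +kernel

lemma step : ∀ v x y, A x y = true → R v (C x y) x → R v (C x y) y := by decide +kernel

lemma hmiss : ∀ v x, ¬ R v (C x (miss v)) (miss v) := by decide +kernel

lemma no3 : ∀ x y z, A x y = true → A y z = true → A z x = true →
    C x y = C y z ∨ C x y = C z x ∨ C y z = C z x := by decide +kernel

lemma no4 : ∀ x y z w, A x y = true → A y z = true → A z w = true → A w x = true →
    C x y = C y z ∨ C x y = C z w ∨ C x y = C w x ∨ C y z = C z w ∨ C y z = C w x ∨
      C z w = C w x := by decide +kernel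

theorem result :
    ¬ (∀ (V : Type) [Fintype V] [Nonempty V] (adj : V → V → Prop) (c : V → V → ℕ),
      (∀ x y : V, adj x y → ¬ adj y x) →
      (∀ x y : V, x ≠ y → adj x y ∨ adj y x) →
      (∃ (k : ℕ) (f : ℕ → V), 3 ≤ k ∧
          (∀ i j : ℕ, i < k → j < k → f i = f j → i = j) ∧
          (∀ i : ℕ, i < k → adj (f i) (f ((i + 1) % k))) ∧
          (∀ i j : ℕ, i < k → j < k →
            c (f i) (f ((i + 1) % k)) = c (f j) (f ((j + 1) % k)) → i = j)) ∨
      (∃ v : V, ∀ w : V, w ≠ v →
          ∃ a : ℕ, Relation.TransGen (fun x y : V => adj x y ∧ c x y = a) v w)) := by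
  intro h
  rcases h (Fin 6) (fun x y => A x y = true) C (by decide +kernel) (by decide +kernel) with
    ⟨k, f, hk, -, ha, hc⟩ | ⟨v, hv⟩
  · rcases Nat.lt_or_ge k 5 with h5 | h5
    · interval_cases k
      · have := no3 (f 0) (f 1) (f 2) (ha 0 (by norm_num)) (ha 1 (by norm_num))
          (ha 2 (by norm_num))
        rcases this with h | h | h
        · exact absurd (hc 0 1 (by norm_num) (by norm_num) h) (by norm_num)
        · exact absurd (hc 0 2 (by norm_num) (by norm_num) h) (by norm_num)
        · exact absurd (hc 1 2 (by norm_num) (by norm_num) h) (by norm_num)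
      · have := no4 (f 0) (f 1) (f 2) (f 3) (ha 0 (by norm_num)) (ha 1 (by norm_num))
          (ha 2 (by norm_num)) (ha 3 (by norm_num))
        rcases this with h | h | h | h | h | h
        · exact absurd (hc 0 1 (by norm_num) (by norm_num) h) (by norm_num)
        · exact absurd (hc 0 2 (by norm_num) (by norm_num) h) (by norm_num)
        · exact absurd (hc 0 3 (by norm_num) (by norm_num) h) (by norm_num)
        · exact absurd (hc 1 2 (by norm_num) (by norm_num) h) (by norm_num)
        · exact absurd (hc 1 3 (by norm_num) (by norm_num) h) (by norm_num)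
        · exact absurd (hc 2 3 (by norm_num) (by norm_num) h) (by norm_num)
    · have := Finset.card_le_card_of_injOn (s := Finset.range k) (t := Finset.range 4)
        (fun i => C (f i) (f ((i + 1) % k)))
        (fun i _ => Finset.mem_coe.mpr (Finset.mem_range.mpr (C_lt _ _)))
        (fun i hi j hj he => hc i j (Finset.mem_range.mp hi) (Finset.mem_range.mp hj) he)
      simp at this
      omega
  · obtain ⟨a, ha⟩ := hv (miss v) ((by decide : ∀ v, miss v ≠ v) v)
    have key : ∀ x, Relation.TransGen (fun x y : Fin 6 => A x y = true ∧ C x y = a) v x →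
        R v a x ∧ ∃ y, C y x = a := by
      intro x hx
      induction hx with
      | single h => exact ⟨h.2 ▸ step v v _ h.1 (Or.inl rfl), v, h.2⟩
      | tail _ h ih => exact ⟨h.2 ▸ step v _ _ h.1 (h.2 ▸ ih.1), _, h.2⟩
    obtain ⟨h1, y, rfl⟩ := key _ ha
    exact hmiss v y h1

end Pool.Agent.S08318
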