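import Pool.Statements.S08323
import Pool.Agent.H.MP_400a6b_co.Main

set_option autoImplicit false
open Pool Pool.MP_400a6b_co

namespace Pool.Agent.S08323

theorem result :
    ∀ F : PowerSeries ℚ,
      (∀ n : ℕ, 0 ≤ PowerSeries.coeff n F) →
      (∃ p : Polynomial (Polynomial ℚ), p ≠ 0 ∧
          Polynomial.eval₂ Polynomial.coeToPowerSeries.ringHom F p = 0) →
      ∃ R : MvPowerSeries (Fin 2) ℚ,
        (∃ P Q : MvPolynomial (Fin 2) ℚ,
            MvPolynomial.constantCoeff Q ≠ 0 ∧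
            R * (Q : MvPowerSeries (Fin 2) ℚ) = (P : MvPowerSeries (Fin 2) ℚ)) ∧
        (∀ m : Fin 2 →₀ ℕ, 0 ≤ MvPowerSeries.coeff m R) ∧
        (∀ n : ℕ, MvPowerSeries.coeff (Finsupp.single 0 n + Finsupp.single 1 n) R
            = PowerSeries.coeff n F) := by
  intro F hF ⟨p, h0, hp⟩
  exact Pool.Agent.H.MP_400a6b_co.main F hF p h0 hp

end Pool.Agent.S08323
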