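import Pool.Statements.S08353
-- import your own Pool.Agent.* helpers here

set_option autoImplicit false
open Pool Pool.MP_4150d6_co

namespace Pool.Agent.S08353

def allLt (n : ℕ) (p : ℕ → Bool) : Bool := Nat.rec true (fun i r => p i && r) n

theorem allLt_spec {n : ℕ} {p : ℕ → Bool} (h : allLt n p = true) (i : ℕ) (hi : i < n) :
    p i = true := by
  induction n with
  | zero => omega
  | succ n ih =>
    have h' : (p n && allLt n p) = true := h
    rw [Bool.and_eq_true] at h'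
    rcases Nat.lt_succ_iff_lt_or_eq.1 hi with h1 | h1
    · exact ih h'.2 h1
    · rw [h1]; exact h'.1

def force (n : ℕ) (f : ℕ → Bool) : Bool := Nat.rec (f 0) (fun k _ => f (Nat.succ k)) n

theorem force_eq (n : ℕ) (f : ℕ → Bool) : force n f = f n := by
  cases n <;> rfl

def tot (m : ℕ) : ℕ := Nat.mul (Nat.pow 32 m) 38997607084342876603425

def inner1 (X : ℕ) : Bool :=
  allLt 16 fun a => force (Nat.sub X (Nat.pow 32 a)) fun W => allLt 16 fun b =>
    force (Nat.sub W (Nat.pow 32 b)) fun V =>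
    (Nat.beq V 0) || !(Nat.beq (Nat.land V (Nat.sub V 1)) 0)

def ok (T Y Z : ℕ) : Bool :=
  !(Nat.beq (Nat.mod (Nat.sub T (Nat.mul Y Z)) (Nat.add Y Z)) 0) ||
    force (Nat.div (Nat.sub T (Nat.mul Y Z)) (Nat.add Y Z)) inner1

def chk (m : ℕ) : Bool :=
  force (tot m) fun T =>
  allLt 16 fun y2 => allLt y2 fun y1 => force (Nat.add (Nat.pow 32 y1) (Nat.pow 32 y2)) fun Y =>
    allLt 16 fun z2 => allLt z2 fun z1 => force (Nat.add (Nat.pow 32 z1) (Nat.pow 32 z2)) fun Z =>
    ok T Y Z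

theorem chk_0 : chk 0 = true := by decide +kernel
theorem chk_1 : chk 1 = true := by decide +kernel
theorem chk_2 : chk 2 = true := by decide +kernel
theorem chk_3 : chk 3 = true := by decide +kernel
theorem chk_4 : chk 4 = true := by decide +kernel
theorem chk_5 : chk 5 = true := by decide +kernel
theorem chk_6 : chk 6 = true := by decide +kernel
theorem chk_7 : chk 7 = true := by decide +kernel
theorem chk_8 : chk 8 = true := by decide +kernel
theorem chk_9 : chk 9 = true := by decide +kernel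
theorem chk_10 : chk 10 = true := by decide +kernel
theorem chk_11 : chk 11 = true := by decide +kernel
theorem chk_12 : chk 12 = true := by decide +kernel
theorem chk_13 : chk 13 = true := by decide +kernel
theorem chk_14 : chk 14 = true := by decide +kernel
theorem chk_15 : chk 15 = true := by decide +kernel

theorem chk_all (m : ℕ) (hm : m < 16) : chk m = true := by
  interval_cases m
  · exact chk_0
  · exact chk_1
  · exact chk_2
  · exact chk_3
  · exact chk_4
  · exact chk_5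
  · exact chk_6
  · exact chk_7
  · exact chk_8
  · exact chk_9
  · exact chk_10
  · exact chk_11
  · exact chk_12
  · exact chk_13
  · exact chk_14
  · exact chk_15

theorem key0 (m a b c y1 y2 z1 z2 : ℕ) (hm : m < 16) (ha : a < 16) (hb : b < 16)
    (hy : y1 < y2) (hy2 : y2 < 16) (hz : z1 < z2) (hz2 : z2 < 16)
    (h : (32 ^ a + 32 ^ b + 32 ^ c) * ((32 ^ y1 + 32 ^ y2) + (32 ^ z1 + 32 ^ z2))
      + (32 ^ y1 + 32 ^ y2) * (32 ^ z1 + 32 ^ z2) = tot m) : False := by
  have h0 := chk_all m hm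
  unfold chk at h0
  simp only [force_eq] at h0
  have h1 := allLt_spec (allLt_spec (allLt_spec (allLt_spec h0 y2 hy2)
    y1 hy) z2 hz2) z1 hz
  change ok (tot m) (32 ^ y1 + 32 ^ y2) (32 ^ z1 + 32 ^ z2) = true at h1
  generalize hY : 32 ^ y1 + 32 ^ y2 = Y at h h1
  generalize hZ : 32 ^ z1 + 32 ^ z2 = Z at h h1
  have hpos : 0 < Y + Z := by rw [← hY, ← hZ]; positivity
  have e1 : tot m - Y * Z = (32 ^ a + 32 ^ b + 32 ^ c) * (Y + Z) := by omega
  unfold ok at h1
  rw [force_eq] at h1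
  change (!(Nat.beq ((tot m - Y * Z) % (Y + Z)) 0) || inner1 ((tot m - Y * Z) / (Y + Z))) = true at h1
  rw [e1, Nat.mul_mod_left, Nat.mul_div_cancel _ hpos] at h1
  have h2 : inner1 (32 ^ a + 32 ^ b + 32 ^ c) = true := by simpa using h1
  unfold inner1 at h2
  simp only [force_eq] at h2
  have h3 := allLt_spec (allLt_spec h2 a ha) b hb
  have e2 : 32 ^ a + 32 ^ b + 32 ^ c - 32 ^ a - 32 ^ b = 2 ^ (5 * c) := by
    rw [pow_mul, show (2 : ℕ) ^ 5 = 32 by norm_num, add_assoc, Nat.add_sub_cancel_left,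
      Nat.add_sub_cancel_left]
  change (Nat.beq (32 ^ a + 32 ^ b + 32 ^ c - 32 ^ a - 32 ^ b) 0 ||
    !(Nat.beq ((32 ^ a + 32 ^ b + 32 ^ c - 32 ^ a - 32 ^ b) &&&
      ((32 ^ a + 32 ^ b + 32 ^ c - 32 ^ a - 32 ^ b) - 1)) 0)) = true at h3
  rw [e2, Nat.and_two_pow_sub_one_eq_mod, Nat.mod_self] at h3
  simp at h3

theorem key (m a b c y1 y2 z1 z2 : ℕ) (hm : m < 16) (ha : a < 16) (hb : b < 16)
    (hy : y1 ≠ y2) (hy1 : y1 < 16) (hy2 : y2 < 16) (hz : z1 ≠ z2) (hz1 : z1 < 16) (hz2 : z2 < 16)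
    (h : (32 ^ a + 32 ^ b + 32 ^ c) * ((32 ^ y1 + 32 ^ y2) + (32 ^ z1 + 32 ^ z2))
      + (32 ^ y1 + 32 ^ y2) * (32 ^ z1 + 32 ^ z2) = tot m) : False := by
  rcases lt_or_gt_of_ne hy with h1 | h1 <;> rcases lt_or_gt_of_ne hz with h2 | h2
  · exact key0 m a b c y1 y2 z1 z2 hm ha hb h1 hy2 h2 hz2 h
  · exact key0 m a b c y1 y2 z2 z1 hm ha hb h1 hy2 h2 hz1 (by rw [← h]; ring)
  · exact key0 m a b c y2 y1 z1 z2 hm ha hb h1 hy1 h2 hz2 (by rw [← h]; ring)
  · exact key0 m a b c y2 y1 z2 z1 hm ha hb h1 hy1 h2 hz1 (by rw [← h]; ring)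

def part (v : Fin 7) : ℕ := if v.val < 3 then 0 else if v.val < 5 then 1 else 2

def G : SimpleGraph (Fin 7) where
  Adj a b := part a ≠ part b
  symm := by constructor; decide +kernel
  loopless := by constructor; decide +kernel

instance : DecidableRel G.Adj := fun a b => inferInstanceAs (Decidable (part a ≠ part b))

theorem card_edges : Nat.card G.edgeSet = 16 := by
  rw [Nat.card_eq_fintype_card, ← SimpleGraph.edgeFinset_card]
  decide +kernel

def e1 : Fin 16 → Fin 7 := ![0, 0, 0, 0, 1, 1, 1, 1, 2, 2, 2, 2, 3, 3, 4, 4]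
def e2 : Fin 16 → Fin 7 := ![3, 4, 5, 6, 3, 4, 5, 6, 3, 4, 5, 6, 5, 6, 5, 6]

theorem e_adj : ∀ i, G.Adj (e1 i) (e2 i) := by decide +kernel
theorem e_inj : ∀ i j, s(e1 i, e2 i) = s(e1 j, e2 j) → i = j := by decide +kernel

def lab : Fin 7 → ZMod 16 := ![3, 7, 13, 0, 9, 1, 2]

theorem sum_eq (g : Fin 16 → ℕ) (m : ℕ) (ginj : Function.Injective g)
    (hr : ∀ i, m ≤ g i ∧ g i < m + 16) :
    ∑ i, 32 ^ g i = tot m ∧ ∃ i, g i = m + 15 := by
  have himg : Finset.univ.image g = Finset.Ico m (m + 16) := by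
    apply Finset.eq_of_subset_of_card_le
    · intro x hx
      obtain ⟨i, -, rfl⟩ := Finset.mem_image.1 hx
      exact Finset.mem_Ico.2 (hr i)
    · rw [Finset.card_image_of_injective _ ginj]
      simp
  constructor
  · rw [← Finset.sum_image (s := Finset.univ) (g := g) (f := fun x => 32 ^ x)
      (fun i _ j _ hij => ginj hij), himg, Finset.sum_Ico_eq_sum_range]
    have : m + 16 - m = 16 := by omega
    rw [this]
    change _ = 32 ^ m * 38997607084342876603425
    simp only [Finset.sum_range_succ, Finset.sum_range_zero, pow_add]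
    ring
  · have h0 : m + 15 ∈ Finset.univ.image g := by
      rw [himg, Finset.mem_Ico]; omega
    obtain ⟨i, -, hi⟩ := Finset.mem_image.1 h0
    exact ⟨i, hi⟩

theorem expand (F : Fin 7 → ℕ) : ∑ i, F (e1 i) * F (e2 i) =
    (F 0 + F 1 + F 2) * ((F 3 + F 4) + (F 5 + F 6)) + (F 3 + F 4) * (F 5 + F 6) := by
  simp only [Fin.sum_univ_succ, Fin.sum_univ_zero]
  simp only [e1, e2, Matrix.cons_val_zero, Matrix.cons_val_succ]
  ring

theorem harm : ∀ a b c d : Fin 7, G.Adj a b → G.Adj c d →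
    lab a + lab b = lab c + lab d → s(a, b) = s(c, d) := by decide +kernel

theorem lab_inj : Function.Injective lab := by decide +kernel

theorem result :
    ∃ (n : ℕ) (G : SimpleGraph (Fin n)) (q : ℕ),
      Nat.card G.edgeSet = q ∧ 1 ≤ q ∧
      (∃ f : Fin n → ZMod q,
        (Function.Injective f ∨ (G.IsTree ∧ Function.Surjective f)) ∧
        ∀ a b c d : Fin n, G.Adj a b → G.Adj c d →
          f a + f b = f c + f d → s(a, b) = s(c, d)) ∧
      ¬ (∃ (f : Fin n → ℕ) (m : ℕ),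
          Function.Injective f ∧
          ((∀ v, f v < q) ∨ (G.IsTree ∧ ∀ v, f v ≤ q)) ∧
          (∀ a b : Fin n, G.Adj a b → m ≤ f a + f b ∧ f a + f b < m + q) ∧
          ∀ a b c d : Fin n, G.Adj a b → G.Adj c d →
            f a + f b = f c + f d → s(a, b) = s(c, d)) := by
  refine ⟨7, G, 16, card_edges, by norm_num, ⟨lab, Or.inl lab_inj, harm⟩, ?_⟩
  rintro ⟨f, m, hinj, hlt, hrange, hdist⟩
  have hlt' : ∀ v, f v < 16 := by
    rcases hlt with h | ⟨ht, -⟩
    · exact h
    · exfalso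
      have := (SimpleGraph.isTree_iff_connected_and_card.1 ht).2
      rw [card_edges] at this
      simp at this
  have ginj : Function.Injective (fun i : Fin 16 => f (e1 i) + f (e2 i)) := fun i j hij =>
    e_inj i j (hdist _ _ _ _ (e_adj i) (e_adj j) hij)
  obtain ⟨hsum, i, hi⟩ := sum_eq _ m ginj (fun i => hrange _ _ (e_adj i))
  have hm : m < 16 := by
    have h2 := hlt' (e1 i)
    have h3 := hlt' (e2 i)
    omega
  refine key m (f 0) (f 1) (f 2) (f 3) (f 4) (f 5) (f 6) hm (hlt' _) (hlt' _)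
    (fun h => absurd (hinj h) (by decide)) (hlt' _) (hlt' _)
    (fun h => absurd (hinj h) (by decide)) (hlt' _) (hlt' _) ?_
  rw [← hsum, ← expand (fun v => 32 ^ f v)]
  simp only [pow_add]

end Pool.Agent.S08353
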