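import Pool.Statements.S08363
import Pool.Agent.H.MP_786b32_co.D

set_option autoImplicit false
open Pool Pool.MP_417dd2_co

namespace Pool.Agent.S08363

theorem result :
    ∃ n : ℕ,
      (∃ Z : Matrix (Fin n) (Fin n) Bool,
        (∃ T : Finset (Fin n), T.Nonempty ∧ T ≠ Finset.univ ∧
            ∀ i, i ∉ T → ∀ j, j ∈ T → Z i j = false) ∧
        (Finset.univ.filter (fun q : Fin n × Fin n => Z q.1 q.2 = true)).card < 2 * n ∧
        ∀ p : Polynomial ℝ, p.Monic → p.natDegree = n →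
          ∃ A : Matrix (Fin n) (Fin n) ℝ,
            (∀ i j, (A i j ≠ 0 ↔ Z i j = true)) ∧ A.charpoly = p) ∨
      (∃ S : Matrix (Fin n) (Fin n) SignType,
        (∃ T : Finset (Fin n), T.Nonempty ∧ T ≠ Finset.univ ∧
            ∀ i, i ∉ T → ∀ j, j ∈ T → S i j = 0) ∧
        (Finset.univ.filter (fun q : Fin n × Fin n => S q.1 q.2 ≠ 0)).card < 2 * n ∧
        ∀ p : Polynomial ℝ, p.Monic → p.natDegree = n →
          ∃ A : Matrix (Fin n) (Fin n) ℝ,
            (∀ i j, SignType.sign (A i j) = S i j) ∧ A.charpoly = p) := by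
  obtain ⟨P, h1, h2⟩ := Pool.Agent.H.MP_786b32_co.pat 12
  let e : Fin (10 + 2 * 12) ⊕ Fin 2 ≃ Fin (10 + 2 * 13) := finSumFinEquiv
  let Q : Matrix (Fin (10 + 2 * 13)) (Fin (10 + 2 * 13)) ℕ :=
    Matrix.reindex e e (Matrix.fromBlocks P 0 0 !![1, 1; 1, 1])
  have s1 : ∑ i, ∑ j, Q i j = 71 := by
    rw [← e.sum_comp]
    simp only [← e.sum_comp (fun j => Q _ j)]
    simp only [Q, Matrix.reindex_apply, Matrix.submatrix_apply, Equiv.symm_apply_apply,
      Fintype.sum_sum_type, Matrix.fromBlocks_apply₁₁, Matrix.fromBlocks_apply₁₂,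
      Matrix.fromBlocks_apply₂₁, Matrix.fromBlocks_apply₂₂, Matrix.zero_apply,
      Finset.sum_const_zero, add_zero, zero_add, h1]
    decide
  have s2 : ∀ q r : Polynomial ℝ, Pool.Agent.H.MP_786b32_co.Data (fun x => q.eval x) →
      Polynomial.IsMonicOfDegree r (2 * 13) → Pool.Agent.H.MP_786b32_co.Re Q (q * r) := by
    intro q r hq hr
    obtain ⟨f, g, hf, hg, rfl⟩ :=
      Polynomial.IsMonicOfDegree.eq_isMonicOfDegree_two_mul_isMonicOfDegree (n := 2 * 12) hr
    rw [show q * (f * g) = q * g * f by ring]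
    exact ((h2 q g hq hg).sum (Pool.Agent.H.MP_786b32_co.re2 hf)).map e
  refine ⟨10 + 2 * 13, Or.inl ⟨fun i j => decide (Q i j ≠ 0),
    ⟨Finset.univ.filter fun i => (e.symm i).isRight, ⟨e (Sum.inr 0), by simp⟩, fun h => ?_,
      fun i hi j hj => ?_⟩, ?_, fun p hm hd => ?_⟩⟩
  · have : e (Sum.inl 0) ∈ Finset.univ.filter fun i => (e.symm i).isRight := by
      rw [h]
      exact Finset.mem_univ _
    simp at this
  · obtain ⟨i, rfl⟩ := e.surjective i
    obtain ⟨j, rfl⟩ := e.surjective j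
    rcases i with i | i
    · rcases j with j | j
      · simp at hj
      · simp [Q]
    · simp at hi
  · refine lt_of_le_of_lt (b := ∑ i, ∑ j, Q i j) ?_ (by omega)
    rw [← Fintype.sum_prod_type', Finset.card_filter]
    refine Finset.sum_le_sum fun ij _ => ?_
    split_ifs with h
    · exact Nat.one_le_iff_ne_zero.2 (of_decide_eq_true h)
    · exact Nat.zero_le _
  · obtain ⟨B, hB, e⟩ := Pool.Agent.H.MP_786b32_co.fin36 s2 (p := p) ⟨hd, hm⟩
    exact ⟨B, fun i j => by simpa using hB i j, e⟩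

end Pool.Agent.S08363
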