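import Pool.Statements.S08374
import Pool.Agent.H.MP_41ddaf_co.Main

set_option autoImplicit false
open Pool Pool.MP_41ddaf_co

namespace Pool.Agent.S08374

theorem result :
    ¬ (∀ S : Finset (EuclideanSpace ℝ (Fin 3)),
      (interior (convexHull ℝ (S : Set (EuclideanSpace ℝ (Fin 3))))).Nonempty →
      (∀ F G : Set (EuclideanSpace ℝ (Fin 3)),
        (∃ l : EuclideanSpace ℝ (Fin 3) →L[ℝ] ℝ,
          F = {x | x ∈ convexHull ℝ (S : Set (EuclideanSpace ℝ (Fin 3))) ∧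
            ∀ y ∈ convexHull ℝ (S : Set (EuclideanSpace ℝ (Fin 3))), l y ≤ l x}) →
        Module.finrank ℝ (vectorSpan ℝ F) = 2 →
        (∃ l : EuclideanSpace ℝ (Fin 3) →L[ℝ] ℝ,
          G = {x | x ∈ convexHull ℝ (S : Set (EuclideanSpace ℝ (Fin 3))) ∧
            ∀ y ∈ convexHull ℝ (S : Set (EuclideanSpace ℝ (Fin 3))), l y ≤ l x}) →
        Module.finrank ℝ (vectorSpan ℝ G) = 2 →
        ∃ φ : EuclideanSpace ℝ (Fin 3) ≃ᵢ EuclideanSpace ℝ (Fin 3), φ '' F = G) →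
      ∃ φ : EuclideanSpace ℝ (Fin 3) ≃ᵢ EuclideanSpace ℝ (Fin 3),
        φ '' convexHull ℝ (S : Set (EuclideanSpace ℝ (Fin 3))) =
          convexHull ℝ (S : Set (EuclideanSpace ℝ (Fin 3))) ∧
        φ ≠ IsometryEquiv.refl (EuclideanSpace ℝ (Fin 3))) := by
  intro H
  classical
  obtain ⟨p, hp, he⟩ := Pool.Agent.H.MP_41ddaf_co.exists_p
  have hS : ((Finset.univ.image p : Finset (EuclideanSpace ℝ (Fin 3))) :
      Set (EuclideanSpace ℝ (Fin 3))) = Set.range p := by simp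
  have h := H (Finset.univ.image p)
  rw [hS] at h
  obtain ⟨φ, h1, h2⟩ := h (Pool.Agent.H.MP_41ddaf_co.inter p hp) (by
    rintro F G ⟨l, hl⟩ hF ⟨m, hm⟩ hG
    obtain ⟨f, rfl⟩ := Pool.Agent.H.MP_41ddaf_co.facet p hp l F hl hF
    obtain ⟨g, rfl⟩ := Pool.Agent.H.MP_41ddaf_co.facet p hp m G hm hG
    obtain ⟨a1, a2, a3⟩ := Pool.Agent.H.MP_41ddaf_co.lens p he f
    obtain ⟨b1, b2, b3⟩ := Pool.Agent.H.MP_41ddaf_co.lens p he g
    exact Pool.Agent.H.MP_41ddaf_co.exists_iso _ _ _ _ _ _ (a1.trans b1.symm) (a2.trans b2.symm)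
      (a3.trans b3.symm))
  exact h2 (Pool.Agent.H.MP_41ddaf_co.nosym p hp φ h1)

end Pool.Agent.S08374
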