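import Pool.Statements.S08406
import Pool.Agent.H.MP_4366b5_co.B

set_option autoImplicit false
open Pool Pool.MP_4366b5_co

namespace Pool.Agent.S08406

/-- The negation of the preceding statement: For every finite family of finite graphs containing a forest, there is k0 such that for all k ≥ k0, any graph whose edges can be k-coloured without a monochromatic member has chromatic number at most some N for which K_N is so colourable. -/
theorem result :
    ¬ (∀ (ι : Type) [Fintype ι] (m : ι → ℕ) (H : ∀ i, SimpleGraph (Fin (m i))),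
      (∃ i, (H i).IsAcyclic) →
      ∃ k0 : ℕ, ∀ k : ℕ, k0 ≤ k →
        ∀ (n : ℕ) (G : SimpleGraph (Fin n)) (c : Sym2 (Fin n) → Fin k),
          (∀ i : ι, ¬ ∃ (f : Fin (m i) ↪ Fin n) (col : Fin k),
              ∀ a b : Fin (m i), (H i).Adj a b →
                G.Adj (f a : Fin n) (f b : Fin n) ∧
                  c s((f a : Fin n), (f b : Fin n)) = col) →
          ∃ N : ℕ, G.Colorable N ∧
            ∃ c' : Sym2 (Fin N) → Fin k,
              ∀ i : ι, ¬ ∃ (f : Fin (m i) ↪ Fin N) (col : Fin k),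
                ∀ a b : Fin (m i), (H i).Adj a b →
                  c' s((f a : Fin N), (f b : Fin N)) = col) := by
  classical
  intro hmain
  let ι : Type := {p : (Σ s : Fin 31, SimpleGraph (Fin s.val)) //
    Pool.Agent.H.MP_4366b5_co.OC p.2 ∧ ¬ Pool.Agent.H.MP_4366b5_co.Allowed p.2}
  let _ : Fintype ι := Fintype.ofFinite ι
  obtain ⟨t, hk⟩ := hmain ι (fun i => i.1.1.val) (fun i => i.1.2) (by
    refine ⟨⟨⟨⟨30, by omega⟩, SimpleGraph.starGraph (⟨0, by omega⟩ : Fin 30)⟩, ?_, ?_⟩,
      SimpleGraph.isAcyclic_starGraph _⟩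
    · intro i hi
      refine ⟨⟨0, by omega⟩, hi, SimpleGraph.starGraph_center_adj ?_⟩
      intro h
      rw [← h] at hi
      exact lt_irrefl _ hi
    · intro h
      have : 30 ≤ 29 := Pool.Agent.H.MP_4366b5_co.allowed_le _ h
      omega)
  let e := Fintype.equivFin (Pool.Agent.H.MP_4366b5_co.V t)
  let ec := Fintype.equivFinOfCardEq (Pool.Agent.H.MP_4366b5_co.card_col (t := t))
  obtain ⟨N, ⟨C⟩, c', hc'⟩ := hk (4 * t + 3) (by omega) _
    ((Pool.Agent.H.MP_4366b5_co.G t).comap e.symm)
    (Sym2.lift ⟨fun a b => ec (Pool.Agent.H.MP_4366b5_co.cV (e.symm a) (e.symm b)),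
      fun a b => congrArg ec (Pool.Agent.H.MP_4366b5_co.cA_symm _ _)⟩) (by
    rintro i ⟨f, col, hf⟩
    refine i.2.2 (Pool.Agent.H.MP_4366b5_co.free i.1.2 (fun a => e.symm (f a))
      (e.symm.injective.comp f.injective) (ec.symm col) ?_ i.2.1)
    intro a b hab
    obtain ⟨h1, h2⟩ := hf a b hab
    refine ⟨h1, ?_⟩
    rw [← h2]
    simp)
  have hN := Pool.Agent.H.MP_4366b5_co.chrom (t := t) N (fun v => C (e v)) (fun v v' h =>
    C.valid (by simpa using h))
  refine Pool.Agent.H.MP_4366b5_co.no_clique t N hN c' ?_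
  intro s hs H f col h hoc
  by_contra hna
  exact hc' ⟨⟨⟨s, by omega⟩, H⟩, hoc, hna⟩ ⟨f, col, h⟩

end Pool.Agent.S08406
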