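import Pool.Statements.S08407
import Pool.Agent.H.MP_436b38_co.C

set_option autoImplicit false
open Pool Pool.MP_436b38_co

namespace Pool.Agent.S08407

/-- For every n ≥ 1 there are natural-number coefficients indexed by a descent count d such that, for every permutation τ of n, the sum over π of s^(des π+1) t^(des(π⁻¹τ)+1) equals the sum of γ_{des τ,i,j} (st)^i (s+t)^j (1+st)^(n+1-j-2i). -/
theorem result :
    ∀ n : ℕ, 1 ≤ n → ∃ Γ : ℕ → ℕ → ℕ → ℕ, ∀ τ : Equiv.Perm (Fin n), ∀ s t : ℤ,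
      ∑ π : Equiv.Perm (Fin n),
          s ^ ((Finset.univ.filter (fun k : Fin n => ∃ l : Fin n, l.val = k.val + 1 ∧ π l < π k)).card + 1) *
          t ^ ((Finset.univ.filter (fun k : Fin n => ∃ l : Fin n, l.val = k.val + 1 ∧ (π⁻¹ * τ) l < (π⁻¹ * τ) k)).card + 1)
        = ∑ i ∈ Finset.range (n + 2), ∑ j ∈ Finset.range (n + 2 - 2 * i),
            (Γ ((Finset.univ.filter (fun k : Fin n => ∃ l : Fin n, l.val = k.val + 1 ∧ τ l < τ k)).card) i j : ℤ) *
              (s * t) ^ i * (s + t) ^ j * (1 + s * t) ^ (n + 1 - j - 2 * i) := by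
  intro n hn
  obtain ⟨n, rfl⟩ : ∃ m, n = m + 1 := ⟨n - 1, by omega⟩
  choose Γ h using Pool.Agent.H.MP_436b38_co.main n
  exact ⟨Γ, fun τ s t => h _ τ rfl s t⟩

end Pool.Agent.S08407
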