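import Pool.Statements.S08412
-- import your own Pool.Agent.* helpers here

set_option autoImplicit false
open MeasureTheory
open Pool Pool.MP_436c60_co

namespace Pool.Agent.S08412

/-- values of the twelve islands for the three agents -/
def v (i : Fin 3) (j : ℕ) : ℕ :=
  (if i = 0 then 492484400444512412488408403447499471
    else if i = 1 then 492484400443512412488407404448499471
    else 491484400444512411488408404447500471) / 1000 ^ j % 1000

/-- the maximin partitions -/
def part : Fin 3 → Fin 3 → Fin 4 → ℕ :=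
  ![![![8, 9, 10, 11], ![4, 5, 6, 7], ![0, 1, 2, 3]],
    ![![3, 6, 7, 11], ![2, 5, 9, 10], ![0, 1, 4, 8]],
    ![![3, 5, 8, 10], ![1, 4, 7, 9], ![0, 2, 6, 11]]]

def I (j : ℕ) : Set ℝ := Set.Icc (2 * (j : ℝ)) (2 * (j : ℝ) + 1)

noncomputable def mu (i : Fin 3) : Measure ℝ :=
  ∑ j ∈ Finset.range 12, (v i j : ENNReal) • volume.restrict (I j)

lemma I_disj {j j' : ℕ} (h : j ≠ j') : Disjoint (I j) (I j') := by
  rw [Set.disjoint_left]
  rintro x ⟨h1, h2⟩ ⟨h3, h4⟩
  rcases lt_or_gt_of_ne h with h | h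
  · have : (j : ℝ) + 1 ≤ j' := by exact_mod_cast h
    linarith
  · have : (j' : ℝ) + 1 ≤ j := by exact_mod_cast h
    linarith

lemma mu_sub (i : Fin 3) {j : ℕ} (hj : j < 12) {s : Set ℝ} (hs : MeasurableSet s)
    (h : s ⊆ I j) : mu i s = (v i j : ENNReal) * volume s := by
  unfold mu
  rw [Measure.finsetSum_apply, Finset.sum_eq_single j]
  · rw [Measure.smul_apply, Measure.restrict_apply hs, Set.inter_eq_left.mpr h, smul_eq_mul]
  · intro j' _ hj'
    rw [Measure.smul_apply, Measure.restrict_apply hs,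
      ((I_disj hj'.symm).mono_left h).inter_eq]
    simp
  · intro h
    exact absurd (Finset.mem_range.mpr hj) h

lemma mu_I (i : Fin 3) {j : ℕ} (hj : j < 12) : mu i (I j) = v i j := by
  rw [mu_sub i hj (s := I j) measurableSet_Icc subset_rfl]
  simp [I]

lemma v_le : ∀ i : Fin 3, ∀ j < 12, v i j ≤ 512 := by decide +kernel

lemma comb : ∀ S ∈ ((Finset.range 12).powersetCard 4).filter (fun S => 1820 ≤ ∑ j ∈ S, v 0 j),
    ∀ T ∈ (Finset.range 12 \ S).powersetCard 4, 1820 ≤ ∑ j ∈ T, v 1 j →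
      3640 < ∑ j ∈ S, v 2 j + ∑ j ∈ T, v 2 j := by
  decide +kernel

lemma part_val (i p : Fin 3) : (1820 : ENNReal) ≤
    mu i (⋃ l, Set.Ioo (2 * (part i p l : ℝ)) (2 * (part i p l : ℝ) + 1)) := by
  have h1 : ∀ i p l, part i p l < 12 := by decide +kernel
  have h2 : ∀ i p l l', l ≠ l' → part i p l ≠ part i p l' := by decide +kernel
  have h3 : ∀ i p, ∑ l, v i (part i p l) = 1820 := by decide +kernel
  rw [measure_iUnion, tsum_fintype]
  · have : ∀ l, mu i (Set.Ioo (2 * (part i p l : ℝ)) (2 * (part i p l : ℝ) + 1)) =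
        (v i (part i p l) : ENNReal) := by
      intro l
      rw [mu_sub i (h1 i p l) measurableSet_Ioo Set.Ioo_subset_Icc_self]
      simp
    simp only [this]
    rw [← Nat.cast_sum, h3]
    simp
  · intro l l' hl
    exact (I_disj (h2 i p l l' hl)).mono Set.Ioo_subset_Icc_self Set.Ioo_subset_Icc_self
  · intro l
    exact measurableSet_Ioo

theorem result :
    ¬ (∀ m n k : ℕ, 2 ≤ m → 2 ≤ n → 2 ≤ k →
    ∀ μ : Fin n → Measure ℝ, (∀ i, IsFiniteMeasure (μ i)) → (∀ i, μ i ≪ volume) →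
    ∃ a b : Fin n → Fin k → ℝ,
      (∀ i l, ∃ j : ℕ, j < m ∧
        Set.Ioo (a i l) (b i l) ⊆ Set.Icc (2 * (j : ℝ)) (2 * (j : ℝ) + 1)) ∧
      (∀ i i', i ≠ i' →
        Disjoint (⋃ l, Set.Ioo (a i l) (b i l)) (⋃ l, Set.Ioo (a i' l) (b i' l))) ∧
      ∀ i, ∀ c d : Fin n → Fin k → ℝ,
        (∀ p l, ∃ j : ℕ, j < m ∧
          Set.Ioo (c p l) (d p l) ⊆ Set.Icc (2 * (j : ℝ)) (2 * (j : ℝ) + 1)) →
        (∀ p p', p ≠ p' →
          Disjoint (⋃ l, Set.Ioo (c p l) (d p l)) (⋃ l, Set.Ioo (c p' l) (d p' l))) →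
        ∃ p, μ i (⋃ l, Set.Ioo (c p l) (d p l)) ≤ μ i (⋃ l, Set.Ioo (a i l) (b i l))) := by
  intro h
  obtain ⟨a, b, h1, h2, h3⟩ := h 12 3 4 (by norm_num) (by norm_num) (by norm_num) mu
    (fun i => ⟨by
      unfold mu
      rw [Measure.finsetSum_apply]
      refine ENNReal.sum_lt_top.mpr fun j _ => ?_
      rw [Measure.smul_apply, smul_eq_mul]
      refine ENNReal.mul_lt_top (ENNReal.natCast_lt_top _) ?_
      simp [I]⟩)
    (fun i s hs => by
      unfold mu
      rw [Measure.finsetSum_apply]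
      refine Finset.sum_eq_zero fun j _ => ?_
      rw [Measure.smul_apply, Measure.absolutelyContinuous_of_le Measure.restrict_le_self hs]
      simp)
  choose j hj hsub using h1
  have hT : ∀ i, (1820 : ENNReal) ≤ mu i (⋃ l, Set.Ioo (a i l) (b i l)) := by
    intro i
    have q1 : ∀ i p l, part i p l < 12 := by decide +kernel
    have q2 : ∀ i p p' l l', p ≠ p' → part i p l ≠ part i p' l' := by decide +kernel
    obtain ⟨p, hp⟩ := h3 i (fun p l => 2 * (part i p l : ℝ)) (fun p l => 2 * (part i p l : ℝ) + 1)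
      (fun p l => ⟨part i p l, q1 i p l, Set.Ioo_subset_Icc_self⟩)
      (fun p p' hp => by
        rw [Set.disjoint_iUnion_left]
        intro l
        rw [Set.disjoint_iUnion_right]
        intro l'
        exact (I_disj (q2 i p p' l l' hp)).mono Set.Ioo_subset_Icc_self Set.Ioo_subset_Icc_self)
    exact (part_val i p).trans hp
  -- every interval is longer than one half
  have hlen : ∀ i l, 1 / 2 < b i l - a i l := by
    intro i l
    by_contra hc
    push Not at hc
    have b1 : ∀ l', mu i (Set.Ioo (a i l') (b i l')) ≤ (if l' = l then 256 else 512 : ℕ) := by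
      intro l'
      have hv : (v i (j i l') : ENNReal) ≤ 512 := by exact_mod_cast v_le i _ (hj i l')
      split_ifs with hl
      · subst hl
        rw [mu_sub i (hj i l') measurableSet_Ioo (hsub i l'), Real.volume_Ioo]
        calc (v i (j i l') : ENNReal) * ENNReal.ofReal (b i l' - a i l')
            ≤ 512 * ENNReal.ofReal (1 / 2) :=
              mul_le_mul' hv (ENNReal.ofReal_le_ofReal hc)
          _ = ((256 : ℕ) : ENNReal) := by
              rw [show (512 : ENNReal) = ENNReal.ofReal 512 by simp,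
                ← ENNReal.ofReal_mul (by norm_num)]
              norm_num
      · refine (measure_mono (hsub i l')).trans ?_
        rw [show Set.Icc (2 * (j i l' : ℝ)) (2 * (j i l' : ℝ) + 1) = I (j i l') from rfl,
          mu_I i (hj i l')]
        exact_mod_cast hv
    have b2 := (hT i).trans ((measure_iUnion_fintype_le _ _).trans
      (Finset.sum_le_sum fun l' _ => b1 l'))
    rw [← Nat.cast_sum] at b2
    have b3 : 1820 ≤ ∑ l' : Fin 4, (if l' = l then 256 else 512 : ℕ) := by exact_mod_cast b2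
    have b4 : ∀ l : Fin 4, ¬ 1820 ≤ ∑ l' : Fin 4, (if l' = l then 256 else 512 : ℕ) := by decide +kernel
    exact b4 l b3
  let S : Fin 3 → Finset ℕ := fun i => Finset.univ.image (j i)
  have hS : ∀ i, S i ⊆ Finset.range 12 := by
    intro i x hx
    obtain ⟨l, -, rfl⟩ := Finset.mem_image.mp hx
    exact Finset.mem_range.mpr (hj i l)
  have hsum : ∀ i, 1820 ≤ ∑ x ∈ S i, v i x := by
    intro i
    have c1 : (⋃ l, Set.Ioo (a i l) (b i l)) ⊆ ⋃ x ∈ S i, I x := by
      refine Set.iUnion_subset fun l => ?_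
      exact (hsub i l).trans (Set.subset_biUnion_of_mem (u := I)
        (Finset.mem_coe.mpr (Finset.mem_image_of_mem _ (Finset.mem_univ l))))
    have c2 := (hT i).trans ((measure_mono c1).trans (measure_biUnion_finset_le _ _))
    rw [Finset.sum_congr rfl (fun x hx => mu_I i (Finset.mem_range.mp (hS i hx))),
      ← Nat.cast_sum] at c2
    exact_mod_cast c2
  have hcard : ∀ i, (S i).card = 4 := by
    intro i
    have c1 : (S i).card ≤ 4 := Finset.card_image_le.trans (by simp)
    have c2 : ∑ x ∈ S i, v i x ≤ (S i).card • 512 :=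
      Finset.sum_le_card_nsmul _ _ _ fun x hx => v_le i x (Finset.mem_range.mp (hS i hx))
    have c3 := hsum i
    rw [smul_eq_mul] at c2
    omega
  have hdisj : ∀ i i', i ≠ i' → Disjoint (S i) (S i') := by
    intro i i' hii
    rw [Finset.disjoint_left]
    intro x hx hx'
    obtain ⟨l, -, rfl⟩ := Finset.mem_image.mp hx
    obtain ⟨l', -, he⟩ := Finset.mem_image.mp hx'
    have d1 := hlen i l
    have d2 := hlen i' l'
    have aux : ∀ {x y z w : ℝ}, x < y → Set.Ioo x y ⊆ Set.Icc z w → z ≤ x ∧ y ≤ w := by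
      intro x y z w hxy hs
      have := closure_mono hs
      rw [closure_Ioo hxy.ne, closure_Icc] at this
      exact (Set.Icc_subset_Icc_iff hxy.le).mp this
    have d3 := aux (by linarith) (hsub i l)
    have d4 := aux (by linarith) (hsub i' l')
    rw [he] at d4
    have d5 : (2 * (j i l : ℝ) + 1 / 2) ∈ Set.Ioo (a i l) (b i l) := by
      constructor <;> linarith [d3.1, d3.2]
    have d6 : (2 * (j i l : ℝ) + 1 / 2) ∈ Set.Ioo (a i' l') (b i' l') := by
      constructor <;> linarith [d4.1, d4.2]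
    exact Set.disjoint_left.mp (h2 i i' hii) (Set.mem_iUnion.mpr ⟨l, d5⟩)
      (Set.mem_iUnion.mpr ⟨l', d6⟩)
  have e1 := comb (S 0)
    (Finset.mem_filter.mpr ⟨Finset.mem_powersetCard.mpr ⟨hS 0, hcard 0⟩, hsum 0⟩) (S 1)
    (Finset.mem_powersetCard.mpr
      ⟨Finset.subset_sdiff.mpr ⟨hS 1, hdisj 1 0 (by decide)⟩, hcard 1⟩) (hsum 1)
  have e2 : ∑ x ∈ S 0 ∪ S 1 ∪ S 2, v 2 x ≤ ∑ x ∈ Finset.range 12, v 2 x :=
    Finset.sum_le_sum_of_subset
      (Finset.union_subset (Finset.union_subset (hS 0) (hS 1)) (hS 2))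
  rw [Finset.sum_union (Finset.disjoint_union_left.mpr
    ⟨hdisj 0 2 (by decide), hdisj 1 2 (by decide)⟩), Finset.sum_union (hdisj 0 1 (by decide))] at e2
  have e3 : ∑ x ∈ Finset.range 12, v 2 x = 5460 := by decide +kernel
  have e4 := hsum 2
  omega

end Pool.Agent.S08412
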