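import Pool.Statements.S08438
import Pool.Agent.H.MP_44283b_co.A

set_option autoImplicit false
open scoped Classical
open Pool Pool.MP_44283b_co

namespace Pool.Agent.S08438

/-- The negation of the preceding statement: For every c > 1/2 there is a bound N such that every finite twin-free, edge-maximal locally bipartite graph admitting positive vertex weights with every neighbourhood weight exceeding c times the total weight has at most N vertices. -/
theorem result :
    ¬ (∀ c : ℝ, 1 / 2 < c → ∃ N : ℕ, ∀ (V : Type) [Fintype V] (G : SimpleGraph V),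
      (∀ v : V, (G.induce (G.neighborSet v)).Colorable 2) →
      (∀ G' : SimpleGraph V, G ≤ G' →
        (∀ v : V, (G'.induce (G'.neighborSet v)).Colorable 2) → G' = G) →
      (∀ u v : V, G.neighborSet u = G.neighborSet v → u = v) →
      (∃ ω : V → ℝ, (∀ v, 0 < ω v) ∧
        ∀ v : V, c * (∑ u, ω u) < ∑ u ∈ Finset.univ.filter (G.Adj v), ω u) →
      Fintype.card V ≤ N) := by
  intro h
  obtain ⟨N, hN⟩ := h (51 / 100) (by norm_num)
  have : Nonempty (Fin 9 × Fin (N + 4)) := ⟨(0, 0)⟩
  obtain ⟨W, hW, H, h1, h2, h3, h4, h5⟩ := Pool.Agent.H.MP_44283b_co.reduce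
    (Pool.Agent.H.MP_44283b_co.G0 (N + 4)) (Pool.Agent.H.MP_44283b_co.G0_lb _) (51 / 100)
    (fun u => (Pool.Agent.H.MP_44283b_co.wt u.1 : ℝ))
    (fun v => by
      have : ∀ a, 0 < Pool.Agent.H.MP_44283b_co.wt a := by decide
      exact_mod_cast this v.1)
    (fun v => by convert Pool.Agent.H.MP_44283b_co.G0_deg (N := N + 4) (by omega) v)
    (fun i : Fin (N + 4) => ((7 : Fin 9), i)) Pool.Agent.H.MP_44283b_co.G0_sep
  have := hN W H ((Pool.Agent.H.MP_44283b_co.lb_iff H).2 h1)
    (fun H' a b => h2 H' a ((Pool.Agent.H.MP_44283b_co.lb_iff H').1 b)) h3 h4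
  omega

end Pool.Agent.S08438
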