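import Pool.Statements.S08477
import Mathlib
import Pool.Agent.H.MP_4617fc_co.Legs

set_option autoImplicit false
open Pool Pool.MP_4617fc_co

namespace Pool.Agent.S08477

/-- Every finite connected graph with m−n+1 ≥ 2 has a vertex-resolving set and an edge-resolving set, each of size at most L(G)+2(m−n+1), where L sums max(legs(v)−1,0) over vertices of degree at least 3. -/
theorem result :
  ∀ (V : Type) [Fintype V] [DecidableEq V] (G : SimpleGraph V) [DecidableRel G.Adj],
    G.Connected → Fintype.card V + 1 ≤ G.edgeFinset.card →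
    (∃ S : Finset V,
        (∀ u v : V, u ≠ v → ∃ s ∈ S, G.dist u s ≠ G.dist v s) ∧
        (S.card : ℤ) ≤
          ((∑ v ∈ Finset.univ.filter (fun v => 3 ≤ G.degree v),
              ({u : V | G.degree u = 1 ∧ ∃ p : G.Walk v u, p.IsPath ∧
                  ∀ w ∈ p.support, w ≠ v → w ≠ u → G.degree w = 2}.ncard - 1) : ℕ) : ℤ)
            + 2 * ((G.edgeFinset.card : ℤ) - (Fintype.card V : ℤ) + 1)) ∧
    (∃ S : Finset V,
        (∀ a b c d : V, G.Adj a b → G.Adj c d → s(a, b) ≠ s(c, d) →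
          ∃ s ∈ S, min (G.dist a s) (G.dist b s) ≠ min (G.dist c s) (G.dist d s)) ∧
        (S.card : ℤ) ≤
          ((∑ v ∈ Finset.univ.filter (fun v => 3 ≤ G.degree v),
              ({u : V | G.degree u = 1 ∧ ∃ p : G.Walk v u, p.IsPath ∧
                  ∀ w ∈ p.support, w ≠ v → w ≠ u → G.degree w = 2}.ncard - 1) : ℕ) : ℤ)
            + 2 * ((G.edgeFinset.card : ℤ) - (Fintype.card V : ℤ) + 1)) := by
  intro V _ _ G _ hc hm
  obtain ⟨S, h1, h2, h3⟩ := Pool.Agent.H.MP_4617fc_co.legs hc hm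
  exact ⟨⟨S, h2, by omega⟩, ⟨S, h3, by omega⟩⟩

end Pool.Agent.S08477
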