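import Pool.Statements.S08495
import Pool.Agent.H.MP_46dc5d_co.Ka
import Pool.Agent.H.MP_46dc5d_co.Kb
import Pool.Agent.H.MP_46dc5d_co.Kc
import Pool.Agent.H.MP_46dc5d_co.Kd
import Pool.Agent.H.MP_46dc5d_co.Pa
import Pool.Agent.H.MP_46dc5d_co.Pb
import Pool.Agent.H.MP_46dc5d_co.Pc
import Pool.Agent.H.MP_46dc5d_co.Pd
import Pool.Agent.H.MP_46dc5d_co.Pe
import Pool.Agent.H.MP_46dc5d_co.Pf

set_option autoImplicit false
open Pool Pool.MP_46dc5d_co

namespace Pool.Agent.S08495
open Pool.Agent.H.MP_46dc5d_co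

/-- For every even n ≥ 10 and every m ≤ n−2 or m = n, some latin square of order n has exactly m as the largest number of pairwise cell-disjoint transversals. -/
theorem result :
    ∀ n : ℕ, Even n → 10 ≤ n → ∀ m : ℕ, (m ≤ n - 2 ∨ m = n) →
      ∃ L : Fin n → Fin n → Fin n,
        (∀ i, Function.Injective (L i)) ∧
        (∀ j, Function.Injective (fun i => L i j)) ∧
        (∃ S : Finset (Equiv.Perm (Fin n)), S.card = m ∧
          (∀ σ ∈ S, Function.Injective (fun i => L i (σ i))) ∧
          (∀ σ ∈ S, ∀ τ ∈ S, σ ≠ τ → ∀ i, σ i ≠ τ i)) ∧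
        ∀ S : Finset (Equiv.Perm (Fin n)),
          (∀ σ ∈ S, Function.Injective (fun i => L i (σ i))) →
          (∀ σ ∈ S, ∀ τ ∈ S, σ ≠ τ → ∀ i, σ i ≠ τ i) →
          S.card ≤ m := by
  intro n he hn m hm
  change Goal n m
  rcases hm with hm | rfl
  swap
  · exact full m (by omega)
  obtain ⟨h, rfl⟩ : ∃ h, n = 2 * h := ⟨n / 2, by obtain ⟨k, rfl⟩ := he; omega⟩
  have cast : ∀ {q e t a : ℕ}, Goal (2 * (2 * q + e)) (t + 4 * a) → h = 2 * q + e → m = t + 4 * a →
      Goal (2 * h) m := fun g e1 e2 => by rw [e1, e2]; exact g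
  by_cases h4 : m % 4 = 0
  · rcases Nat.mod_two_eq_zero_or_one h with e | e
    · exact cast (a0_all (h / 2) (m / 4) (by omega) (by omega)) (by omega) (by omega)
    · exact cast (b0_all (h / 2) (m / 4) (by omega) (by omega)) (by omega) (by omega)
  by_cases h18 : h < 18
  · have h1 : m < 2 * h - 1 := by omega
    have h5 : 5 ≤ h := by omega
    clear cast
    interval_cases h
    · exact k5 m h1 h4
    · exact k6 m h1 h4
    · exact k7 m h1 h4
    · exact k8 m h1 h4
    · exact k9 m h1 h4
    · exact k10 m h1 h4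
    · exact k11 m h1 h4
    · exact k12 m h1 h4
    · exact k13 m h1 h4
    · exact k14 m h1 h4
    · exact k15 m h1 h4
    · exact k16 m h1 h4
    · exact k17 m h1 h4
  have hr : m % 4 = 1 ∨ m % 4 = 2 ∨ m % 4 = 3 := by omega
  rcases Nat.mod_two_eq_zero_or_one h with e | e <;> rcases hr with r | r | r
  · rcases lt_or_ge m 13 with l | l
    · exact cast (a1_all (h / 2) ((m - 1) / 4) (by omega) (by omega)) (by omega) (by omega)
    · exact cast (a13_all (h / 2) ((m - 13) / 4) (by omega) (by omega)) (by omega) (by omega)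
  · rcases lt_or_ge m 6 with l | l
    · exact cast (a2_all (h / 2) ((m - 2) / 4) (by omega) (by omega)) (by omega) (by omega)
    · exact cast (a6_all (h / 2) ((m - 6) / 4) (by omega) (by omega)) (by omega) (by omega)
  · rcases lt_or_ge m 7 with l | l
    · exact cast (a3_all (h / 2) ((m - 3) / 4) (by omega) (by omega)) (by omega) (by omega)
    · exact cast (a7_all (h / 2) ((m - 7) / 4) (by omega) (by omega)) (by omega) (by omega)
  · rcases lt_or_ge m 9 with l | l
    · exact cast (b1_all (h / 2) ((m - 1) / 4) (by omega) (by omega)) (by omega) (by omega)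
    · exact cast (b9_all (h / 2) ((m - 9) / 4) (by omega) (by omega)) (by omega) (by omega)
  · rcases lt_or_ge m 6 with l | l
    · exact cast (b2_all (h / 2) ((m - 2) / 4) (by omega) (by omega)) (by omega) (by omega)
    · exact cast (b6_all (h / 2) ((m - 6) / 4) (by omega) (by omega)) (by omega) (by omega)
  · rcases lt_or_ge m 11 with l | l
    · exact cast (b3_all (h / 2) ((m - 3) / 4) (by omega) (by omega)) (by omega) (by omega)
    · exact cast (b11_all (h / 2) ((m - 11) / 4) (by omega) (by omega)) (by omega) (by omega)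

end Pool.Agent.S08495
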