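import Pool.Statements.S08517
import Pool.Agent.H.MP_47ad0a_co.C
import Pool.Agent.H.MP_47ad0a_co.R0
import Pool.Agent.H.MP_47ad0a_co.R1
import Pool.Agent.H.MP_47ad0a_co.R2
import Pool.Agent.H.MP_47ad0a_co.R3
import Pool.Agent.H.MP_47ad0a_co.R4

set_option autoImplicit false
open Pool Pool.MP_47ad0a_co

namespace Pool.Agent.S08517

/-- There is a constant c such that for every n, the m-eternal domination number of the n×n grid (guards on distinct vertices, all may move one step per attack) is at most its domination number plus c. -/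
theorem result :
    ∃ c : ℕ, ∀ n : ℕ,
      sInf {k : ℕ | ∃ F : Set (Finset (Fin n × Fin n)), F.Nonempty ∧
          (∀ D ∈ F, D.card = k) ∧
          ∀ D ∈ F, ∀ v : Fin n × Fin n, ∃ D' ∈ F, v ∈ D' ∧
            ∃ f : Fin n × Fin n → Fin n × Fin n,
              Set.InjOn f (D : Set (Fin n × Fin n)) ∧ D.image f = D' ∧
              ∀ x ∈ D, f x = x ∨
                (SimpleGraph.boxProd (SimpleGraph.pathGraph n)
                  (SimpleGraph.pathGraph n)).Adj x (f x)}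
        ≤ sInf {k : ℕ | ∃ D : Finset (Fin n × Fin n), D.card = k ∧
            ∀ v : Fin n × Fin n, v ∈ D ∨ ∃ u ∈ D,
              (SimpleGraph.boxProd (SimpleGraph.pathGraph n)
                (SimpleGraph.pathGraph n)).Adj u v} + c := by
  open Pool.Agent.H.MP_47ad0a_co in
  refine ⟨500, fun n => ?_⟩
  by_cases hn : n < 21
  · refine le_trans (Nat.sInf_le (m := n * n) ⟨{Finset.univ}, ⟨_, rfl⟩, ?_, ?_⟩) (by nlinarith)
    · rintro D rfl; simp
    · rintro D rfl v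
      exact ⟨_, rfl, Finset.mem_univ _, id, Set.injOn_id _, Finset.image_id, fun _ _ => Or.inl rfl⟩
  obtain ⟨D, hD, hdom⟩ := Nat.sInf_mem (s := {k : ℕ | ∃ D : Finset (Fin n × Fin n), D.card = k ∧
            ∀ v : Fin n × Fin n, v ∈ D ∨ ∃ u ∈ D,
              (SimpleGraph.boxProd (SimpleGraph.pathGraph n)
                (SimpleGraph.pathGraph n)).Adj u v})
    ⟨_, Finset.univ, rfl, fun v => Or.inl (Finset.mem_univ _)⟩
  rw [← hD]
  have low : n ^ 2 + 4 * n ≤ 5 * D.card + 512 := by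
    obtain ⟨Y, rfl⟩ : ∃ Y, n = Y + 21 := ⟨n - 21, by omega⟩
    let E : ℕ → ℕ → Bool := fun x y => decide (∃ p ∈ D, (p.1 : ℕ) = x ∧ (p.2 : ℕ) = y)
    have e1 : cfg (Y + 21) (fun x y => E x y = true) = D := by
      ext p
      simp only [mem_cfg, E, decide_eq_true_iff]
      exact ⟨fun ⟨q, hq, h1, h2⟩ => Prod.ext (Fin.ext h1) (Fin.ext h2) ▸ hq,
        fun h => ⟨p, h, rfl, rfl⟩⟩
    rw [← e1, card_cfg]
    refine lower E Y fun x hx y hy => ?_
    simp only [E, decide_eq_true_iff]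
    rcases hdom (⟨x, hx⟩, ⟨y, hy⟩) with h | ⟨u, hu, h⟩
    · exact Or.inl ⟨_, h, rfl, rfl⟩
    · simp only [SimpleGraph.boxProd_adj, SimpleGraph.pathGraph_adj, Fin.ext_iff] at h
      have h1 := u.1.2
      have h2 := u.2.2
      rcases h with ⟨h | h, h'⟩ | ⟨h | h, h'⟩
      · exact Or.inr (Or.inl ⟨by omega, u, hu, by omega, h'⟩)
      · exact Or.inr (Or.inr (Or.inl ⟨by omega, u, hu, by omega, h'⟩))
      · exact Or.inr (Or.inr (Or.inr (Or.inl ⟨by omega, u, hu, h', by omega⟩)))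
      · exact Or.inr (Or.inr (Or.inr (Or.inr ⟨by omega, u, hu, h', by omega⟩)))
  obtain ⟨m, e, rfl, h2, hm⟩ : ∃ m e, n = m + 5 * e ∧ 13 ≤ m ∧ Res m := by
    have : ∃ e, n = 13 + 5 * e ∨ n = 14 + 5 * e ∨ n = 15 + 5 * e ∨ n = 16 + 5 * e ∨
        n = 17 + 5 * e := ⟨(n - 13) / 5, by omega⟩
    obtain ⟨e, h | h | h | h | h⟩ := this
    exacts [⟨_, e, h, by omega, res0⟩, ⟨_, e, h, by omega, res1⟩, ⟨_, e, h, by omega, res2⟩,
      ⟨_, e, h, by omega, res3⟩, ⟨_, e, h, by omega, res4⟩]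
  obtain ⟨T, K, hK, hG, hC⟩ := hm
  have up := card_le h2 hC e
  refine le_trans (Nat.sInf_le (m := (cfg (m + 5 * e) (lf e (tb (stt T 0)))).card)
    ⟨{A | (∃ j < K, A = cfg _ (lf e (tb (stt T j)))) ∧
      A.card = (cfg (m + 5 * e) (lf e (tb (stt T 0)))).card},
      ⟨_, ⟨0, hK, rfl⟩, rfl⟩, fun A hA => hA.2, ?_⟩) (by omega)
  rintro A ⟨⟨i, hi, rfl⟩, hc⟩ v
  obtain ⟨j, hj, h3, h4⟩ := hG i hi _ (kap_spec m e v.1 h2 v.1.2).1 _ (kap_spec m e v.2 h2 v.2.2).1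
  obtain ⟨f, f1, f2, f3⟩ := h4 e
  exact ⟨_, ⟨⟨j, hj, rfl⟩, by rw [← f2, Finset.card_image_of_injOn f1, hc]⟩, (mem_cfg ..).2 h3,
    f, f1, f2, f3⟩

end Pool.Agent.S08517
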