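import Pool.Statements.S08528
import Pool.Agent.H.MP_47f029_co.A

set_option autoImplicit false
open Pool Pool.MP_47f029_co

namespace Pool.Agent.S08528
open Finset Pool.Agent.H.MP_16c276_co Pool.Agent.H.MP_cf6e1a_co Pool.Agent.H.MP_47f029_co

noncomputable def L : List ℕ := [15, 45, 75, 201, 202, 154, 226, 178, 153, 57, 149, 53, 212, 116,
  240, 263, 1285, 2307, 6401, 6402, 4866, 7170, 5634, 4865, 1793, 4613, 1541, 6660, 3588, 7680]

noncomputable def X : List ℕ := [33, 94, 158, 228, 286, 356, 420, 473, 542, 611, 676, 730, 804, 858,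
  920, 1003, 1054, 1123, 1188, 1315, 1371, 1572, 1627, 1688, 2078, 2147, 2212, 2340, 2394, 2596,
  2651, 2840, 2922, 3108, 3163, 3224, 3354, 3432, 3608, 3689, 4126, 4196, 4260, 4312, 4388, 4643,
  4699, 4762, 4842, 5155, 5403, 6180, 6296, 6424, 7194, 7466, 8222, 8292, 8355, 8484, 8536, 8739,
  8795, 8859, 9251, 9307, 9371, 9499, 9577, 9755, 9831, 9897, 10275, 10395, 11291, 11433, 12324,
  12376, 12442, 12568, 12827, 12905, 12968, 13339, 13609, 14362, 14506, 15400, 16414, 16483, 16548,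
  16602, 16676, 16730, 16792, 16875, 32798, 32867, 32932, 33059, 33115, 49188, 49243, 49304, 65566,
  65635, 65700, 65828, 65882, 81956, 82011, 82200, 82282, 98340, 98395, 98456, 98586, 98664, 114712,
  114793, 131102, 131172, 131236, 131288, 131364, 147491, 147547, 147610, 147690, 163875, 164123,
  196644, 196760, 196888, 229402, 229674, 262174, 262244, 262307, 262436, 262488, 278563, 278619,
  278683, 294947, 295003, 295067, 295195, 295273, 311323, 311399, 311465, 327715, 327835, 360475,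
  360617, 393252, 393304, 393370, 393496, 409627, 409705, 409768, 426011, 426281, 458778, 458922,
  491560]

noncomputable def C : List ℕ := [262, 11, 2307, 2564, 517, 1025, 3076, 7170, 3588, 3074, 2304, 2052,
  6146, 6656, 4096, 3588, 1285, 11, 67, 45, 98, 100, 33, 226, 160, 72, 138, 44, 160, 208, 116, 226,
  15, 44, 100, 65, 75, 98, 80, 72, 67, 33, 53, 176, 16, 226, 75, 75, 14, 45, 75, 98, 116, 226, 160,
  33, 53, 75, 80, 116, 98, 176, 2051, 1284, 3076, 7170, 3588, 7170, 2304, 6402, 6656, 4096, 3588,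
  1285, 1285]

noncomputable def CH : List (ℕ × ℕ × ℕ) := [(5120, 2562, 1), (4098, 2816, 8), (160, 82, 1), (1025,
  772, 2), (130, 88, 3), (4352, 2561, 0), (4096, 2053, 0), (513, 2308, 2), (136, 81, 0), (128, 69,
  0), (516, 3328, 8), (512, 1282, 1), (2048, 1025, 0), (256, 1030, 1), (72, 19, 0), (20, 97, 0), (8,
  20, 2), (80, 35, 0), (16, 38, 1), (32, 70, 1), (1, 1088, 6)]

theorem c0 : ch 15 14 [1094] CH L = true ∧ ∀ f ∈ L, f.testBit 14 = false ∧ (bt 15 f).length = 4 ∧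
    f < 2 ^ 13 := by decide +kernel

theorem c1 : (∀ σ ∈ X.map (· / 64), σ < 2 ^ 15 ∧ ∃ m ∈ L, m &&& σ = σ) ∧ wt X (fun _ => true) = 0 ∧
    ∀ m ∈ L, ∀ r ∈ (X.map (· / 64)).filter (In m 0), 0 ≤ wt X (In m r) := by decide +kernel

theorem c2 : dc 15 (X.map (· / 64)) = true ∧ ∀ m ∈ L, m ∈ X.map (· / 64) := by decide +kernel

theorem c3 : (fL (L.flatMap fun m => (((X.map (· / 64)).filter (In m 0)).filter fun r =>
    wt X (In m r) == 0).map fun r => bs ((X.map (· / 64)).filter (In m r))) fun O =>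
      force (bs (X.map (· / 64))) fun S => go O S 40 0 C).isSome = true := by decide +kernel

theorem inI {m r σ : ℕ} : In m r σ = true ↔ σ &&& r = r ∧ m &&& σ = σ := by
  rw [In, Bool.and_eq_true, Nat.beq_eq, Nat.beq_eq]
  rfl


/-- The negation of the preceding statement: Every finite geometric simplicial complex homeomorphic to a closed ball is partitionable: each facet F gets a subface R(F), and every face, empty face included, lies in exactly one interval [R(F), F]. -/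
theorem result :
    ¬ (∀ (n d : ℕ) (K : Geometry.SimplicialComplex ℝ (EuclideanSpace ℝ (Fin n))),
      K.faces.Finite →
      Nonempty (↥K.space ≃ₜ ↥(Metric.closedBall (0 : EuclideanSpace ℝ (Fin d)) 1)) →
      ∃ R : Finset (EuclideanSpace ℝ (Fin n)) → Finset (EuclideanSpace ℝ (Fin n)),
        (∀ F ∈ K.facets, R F ⊆ F) ∧
        ∀ σ : Finset (EuclideanSpace ℝ (Fin n)), (σ = ∅ ∨ σ ∈ K.faces) →
          ∃! F, F ∈ K.facets ∧ R F ⊆ σ ∧ σ ⊆ F) := by
  classical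
  intro H
  have h4 : ∀ m ∈ L, (dec 15 m).card = 4 := fun m hm => card_dec.trans (c0.2 m hm).2.1
  have hl : ∀ m ∈ L, m < 2 ^ 15 := fun m hm => (c0.2 m hm).2.2.trans (by norm_num)
  obtain ⟨K, k1, ⟨e1⟩, k2, k3⟩ := geo 15 L h4
  obtain ⟨e2⟩ := ch_ok (14 : Fin 15) _ _ _ (fun f hf => (c0.2 f hf).1) c0.1
  obtain ⟨e3⟩ := ball3 (dec 15 1094) (card_dec.trans (by decide +kernel))
  obtain ⟨R, r1, r2⟩ := H 15 3 K k1 ⟨e1.trans (e2.trans ((Homeomorph.setCongr
    (by simp [RL, eq_comm])).trans e3))⟩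
  have r3 : ∀ m, ∃ r < 2 ^ 15, m ∈ L → (dec 15 r).image v = R ((dec 15 m).image v) := fun m => by
    by_cases hm : m ∈ L
    · obtain ⟨s, -, a⟩ := subset_image_iff.1 (r1 _ ((k3 _).2 ⟨m, hm, rfl⟩))
      obtain ⟨r, b, rfl⟩ := dec_surj s
      exact ⟨r, b, fun _ => a⟩
    · exact ⟨0, by norm_num, fun a => (hm a).elim⟩
  choose ρ p1 p2 using r3
  have sb : ∀ a b, a < 2 ^ 15 → ((dec 15 a).image v ⊆ (dec 15 b).image v ↔ b &&& a = a) := fun a b h =>
    (image_subset_image_iff vli.injective).trans ⟨sub2 h, sub1⟩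
  have := nopart L X C 40 ρ (fun m hm => ?_) (fun σ h => ?_) c1.2.1 c1.2.2
  · exact Bool.false_ne_true ((congrArg Option.isSome this).symm.trans c3)
  · have a := (sb _ m (p1 m)).1 (p2 m hm ▸ r1 _ ((k3 _).2 ⟨m, hm, rfl⟩))
    obtain ⟨r, b, c⟩ := mem_cx.1 (dc_down c2.1 _ (mem_cx.2 ⟨m, c2.2 m hm, rfl⟩) _ (sub1 a))
    exact ⟨inj (c1.1 r b).1 (p1 m) c ▸ b, inI.2 ⟨Nat.and_zero _, a⟩⟩
  · obtain ⟨a, m0, b⟩ := c1.1 σ h
    obtain ⟨_, ⟨c, d⟩, u⟩ := r2 _ (k2 (dec 15 σ) (mem_K.2 ⟨m0, b.1, sub1 b.2⟩))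
    obtain ⟨m, hm, rfl⟩ := (k3 _).1 c
    rw [← p2 m hm, sb _ _ (p1 m), sb _ _ a] at d
    refine ⟨m, ⟨hm, inI.2 d⟩, fun y ⟨y1, y2⟩ => inj (hl y y1) (hl m hm)
      (image_injective vli.injective (u _ ⟨(k3 _).2 ⟨y, y1, rfl⟩, ?_⟩))⟩
    rw [← p2 y y1, sb _ _ (p1 y), sb _ _ a]
    exact inI.1 y2

end Pool.Agent.S08528
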