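import Pool.Statements.S08553
import Pool.Agent.H.MP_4912e6_co.C

set_option autoImplicit false
open Pool Pool.MP_4912e6_co

namespace Pool.Agent.S08553

/-- There is a connected compact Hausdorff group G with normalized Haar measure, some r ≥ 1, and a measurable r-coloring of G so that every measurable monochromatic set A with A = gA⁻¹g for some g has measure at most some c < 1/r². -/
theorem result :
    ∃ (G : Type) (_ : Group G) (_ : TopologicalSpace G) (_ : IsTopologicalGroup G)
      (_ : CompactSpace G) (_ : ConnectedSpace G) (_ : T2Space G)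
      (_ : MeasurableSpace G) (_ : BorelSpace G)
      (μ : MeasureTheory.Measure G) (_ : μ.IsHaarMeasure) (_ : μ.Regular)
      (_ : MeasureTheory.IsProbabilityMeasure μ)
      (r : ℕ) (χ : G → Fin r) (c : ENNReal),
      0 < r ∧ Measurable χ ∧ c < ((r : ENNReal) ^ 2)⁻¹ ∧
      ∀ (A : Set G) (i : Fin r) (g : G),
        MeasurableSet A → A ⊆ χ ⁻¹' {i} →
        (fun x => g * x⁻¹ * g) '' A = A → μ A ≤ c := by
  refine ⟨H.MP_4912e6_co.G (2 ^ 20), inferInstance, inferInstance, inferInstance, inferInstance,
    inferInstance, inferInstance, inferInstance, inferInstance, H.MP_4912e6_co.mu _,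
    inferInstance, inferInstance, inferInstance, 2, H.MP_4912e6_co.chi _,
    ENNReal.ofReal (1 / 4 - 1 / 131072 + 2 / ((2 ^ 20 : ℕ) : ℝ)), two_pos,
    H.MP_4912e6_co.mchi _, ?_, fun A i g _ h1 h2 =>
      H.MP_4912e6_co.final (by positivity) A i g h1 h2⟩
  have : (((2 : ℕ) : ENNReal) ^ 2)⁻¹ = ENNReal.ofReal (1 / 4) := by
    rw [one_div, ENNReal.ofReal_inv_of_pos (by norm_num)]
    norm_num
  rw [this, ENNReal.ofReal_lt_ofReal_iff (by norm_num)]
  norm_num

end Pool.Agent.S08553
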