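import Pool.Statements.S08564
import Pool.Agent.S16490

set_option autoImplicit false
open Pool Pool.MP_495f0d_co

namespace Pool.Agent.S08564

open Pool.Agent.S16490

open Classical in
noncomputable def seq : ℕ → ℕ
  | 0 => 1
  | (m + 1) => if m < 5000 then (if m + 2 ∈ S then 0 else 1) else
      sInf {k : ℕ | ∀ i : Fin (m + 1), seq i + seq (m - i) ≠ k}
decreasing_by
  all_goals omega

lemma seq_succ (m : ℕ) (hm : 5000 ≤ m) :
    seq (m + 1) = sInf {k : ℕ | ∀ i : ℕ, i ≤ m → seq i + seq (m - i) ≠ k} := by
  rw [seq, if_neg (by omega)]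
  congr 1
  ext k
  constructor
  · intro h i hi
    exact h ⟨i, by omega⟩
  · intro h i
    exact h i (by omega)

lemma nonempty_mex (m : ℕ) : {k : ℕ | ∀ i : ℕ, i ≤ m → seq i + seq (m - i) ≠ k}.Nonempty := by
  refine ⟨(Finset.range (m + 1)).sup (fun i => seq i + seq (m - i)) + 1, ?_⟩
  intro i hi
  have : seq i + seq (m - i) ≤ (Finset.range (m + 1)).sup (fun i => seq i + seq (m - i)) :=
    Finset.le_sup (f := fun i => seq i + seq (m - i)) (Finset.mem_range.mpr (Nat.lt_succ_of_le hi))
  omega

lemma zero_iff (k : ℕ) : seq k = 0 ↔ k + 1 ∈ S := by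
  induction k using Nat.strong_induction_on with
  | _ k ih =>
    rcases k with _ | m
    · rw [seq]
      constructor
      · intro h; omega
      · intro h; have := dich _ h; omega
    by_cases hm : m < 5000
    · rw [seq, if_pos hm]
      split_ifs with h
      · simp [h]
      · simp [h]
    rw [seq_succ m (by omega), Nat.sInf_eq_zero]
    constructor
    · rintro (h | h)
      · rcases complete (m + 1 + 1) (by omega) with h1 | ⟨s, hs, t, ht, hst⟩
        · exact h1
        · exfalso
          have d1 := dich _ hs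
          have d2 := dich _ ht
          have e1 : seq (s - 1) = 0 := (ih (s - 1) (by omega)).mpr (by rwa [show s - 1 + 1 = s by omega])
          have e2 : seq (t - 1) = 0 := (ih (t - 1) (by omega)).mpr (by rwa [show t - 1 + 1 = t by omega])
          apply h (s - 1) (by omega)
          rw [show m - (s - 1) = t - 1 by omega, e1, e2]
      · exact absurd h (nonempty_mex m).ne_empty
    · intro h
      left
      intro i hi h0
      have e1 := (ih i (by omega)).mp (by omega)
      have e2 := (ih (m - i) (by omega)).mp (by omega)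
      apply sumfree _ e1 _ e2
      rwa [show i + 1 + (m - i + 1) = m + 1 + 1 by omega]

theorem result :
    ¬ (∀ (a : ℕ → ℕ) (n : ℕ),
      (∀ m : ℕ, n ≤ m →
        a (m + 1) = sInf {k : ℕ | ∀ i : ℕ, i ≤ m → a i + a (m - i) ≠ k}) →
      ∃ p : ℕ, 0 < p ∧ ∃ N : ℕ, ∀ m : ℕ, N ≤ m → a (m + p) = a m) := by
  intro H
  obtain ⟨m, hm, N, hN⟩ := H seq 5000 seq_succ
  have iter : ∀ k n, N ≤ n → n + 1 ∈ S → n + k * m + 1 ∈ S := by
    intro k
    induction k with
    | zero => intro n _ h; simpa using h
    | succ k ih =>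
      intro n hn h
      have h1 := (zero_iff _).mpr (ih n hn h)
      rw [← hN _ (by omega)] at h1
      have := (zero_iff _).mp h1
      rwa [show n + (k + 1) * m = n + k * m + m by ring]
  have g := u_ge (N + 265 * m)
  have md := u_mod (N + 265 * m)
  have h1 : 2 * u (N + 265 * m) + 52 + 1 ∈ S := mem_B _ (N + 265 * m) (by omega) (by omega) (by omega)
  have h2 := iter 265 _ (by omega) h1
  obtain ⟨j, j1, j2⟩ := inv_B _ h2 (by omega)
  have := u_tri j (N + 265 * m)
  have := u_ge j
  omega

end Pool.Agent.S08564
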