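import Pool.Statements.S08582

set_option autoImplicit false
open Pool Pool.MP_49f151_co

namespace Pool.Agent.S08582
open Set Metric

abbrev E := EuclideanSpace ℝ (Fin 2)

/-- coordinates with respect to the basis (1,0), (1/2, sqrt 3 / 2) -/
noncomputable def U (x : E) : ℝ := x 0 - x 1 / √3
noncomputable def V (x : E) : ℝ := 2 * x 1 / √3
noncomputable def pt (u v : ℝ) : E := !₂[u + v / 2, √3 / 2 * v]

lemma s3 : √3 ≠ 0 := by positivity
lemma s33 : √3 * √3 = 3 := Real.mul_self_sqrt (by norm_num)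

@[simp] lemma U_pt (u v : ℝ) : U (pt u v) = u := by
  simp [U, pt]; field_simp; ring
@[simp] lemma V_pt (u v : ℝ) : V (pt u v) = v := by
  simp [V, pt]; field_simp
lemma pt_UV (x : E) : pt (U x) (V x) = x := by
  ext i; fin_cases i
  · simp [U, V, pt]; ring
  · simp [U, V, pt]

@[fun_prop] lemma cU : Continuous U := by unfold U; fun_prop
@[fun_prop] lemma cV : Continuous V := by unfold V; fun_prop
@[fun_prop] lemma cpt {X : Type*} [TopologicalSpace X] {f g : X → ℝ} (hf : Continuous f)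
    (hg : Continuous g) : Continuous fun t => pt (f t) (g t) := by
  unfold pt
  refine (PiLp.continuous_toLp 2 _).comp (continuous_pi fun i => ?_)
  fin_cases i
  · simp; fun_prop
  · simp; fun_prop

def Q (p q : ℝ × ℝ) : ℝ := (p.1 - q.1) ^ 2 + (p.1 - q.1) * (p.2 - q.2) + (p.2 - q.2) ^ 2

lemma dist_pt (p q : ℝ × ℝ) : dist (pt p.1 p.2) (pt q.1 q.2) = √(Q p q) := by
  rw [EuclideanSpace.dist_eq]
  congr 1
  simp only [Fin.sum_univ_two, pt, Q, Real.dist_eq, sq_abs]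
  simp
  linear_combination ((p.2 - q.2) ^ 2 / 4) * s33

def inC (p : ℝ × ℝ) : Prop :=
  -2 ≤ p.1 + p.2 ∧ p.1 + p.2 ≤ 2 ∧ 0 ≤ min p.1 (-p.2) ∧ min p.1 (-p.2) ≤ 1

/-- rotation by a multiple of 60 degrees -/
def rot : ℕ → ℝ × ℝ → ℝ × ℝ
  | 0, p => p
  | k + 1, p => rot k (-p.2, p.1 + p.2)

lemma Q_rot (k : ℕ) : ∀ p q, Q (rot k p) (rot k q) = Q p q := by
  induction k with
  | zero => intro p q; rfl
  | succ k ih => intro p q; simp only [rot]; rw [ih]; simp only [Q]; ring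

lemma rot_surj (k : ℕ) : ∀ p, ∃ q, rot k q = p := by
  induction k with
  | zero => intro p; exact ⟨p, rfl⟩
  | succ k ih =>
    intro p
    obtain ⟨q, hq⟩ := ih p
    refine ⟨(q.1 + q.2, -q.1), ?_⟩
    simp only [rot]; simpa using hq

def tile (k : ℕ) (a b : ℤ) : Set E := {x | inC (rot k (U x - a, V x - b))}

/-- the chevron made of two 2 x 1 parallelograms with angles 60 and 120 degrees -/
def C0 : Set E := {x | inC (U x, V x)}

lemma tile_iso (k : ℕ) (a b : ℤ) : ∃ f : E ≃ᵢ E, tile k a b = f '' C0 := by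
  let F : E → E := fun x => pt (rot k (U x - a, V x - b)).1 (rot k (U x - a, V x - b)).2
  have hF : Isometry F := by
    refine Isometry.of_dist_eq fun x y => ?_
    simp only [F]
    rw [dist_pt, Q_rot]
    conv_rhs => rw [← pt_UV x, ← pt_UV y]
    have := dist_pt (U x, V x) (U y, V y)
    simp only at this
    rw [this]; congr 1; simp only [Q]; ring
  have hs : Function.Surjective F := by
    intro y
    obtain ⟨q, hq⟩ := rot_surj k (U y, V y)
    refine ⟨pt (q.1 + a) (q.2 + b), ?_⟩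
    simp only [F, U_pt, V_pt, add_sub_cancel_right, Prod.mk.eta, hq, pt_UV]
  let e : E ≃ᵢ E := ⟨Equiv.ofBijective F ⟨hF.injective, hs⟩, hF⟩
  refine ⟨e.symm, ?_⟩
  ext x
  rw [IsometryEquiv.image_symm]
  simp only [mem_preimage, tile, C0, mem_setOf_eq]
  have : e x = F x := rfl
  rw [this]; simp only [F, U_pt, V_pt, Prod.mk.eta]

lemma C0_disc : Nonempty (C0 ≃ₜ closedBall (0 : E) 1) := by
  let h : E ≃ₜ E :=
    { toFun := fun x => pt (U x + V x) (min (U x) (-V x))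
      invFun := fun y => pt (V y + max (U y) 0) (min (U y) 0 - V y)
      left_inv := fun x => by
        simp only [U_pt, V_pt]
        conv_rhs => rw [← pt_UV x]
        congr 1
        · rcases le_total (U x) (-V x) with h | h
          · rw [min_eq_left h, max_eq_right (by linarith)]; ring
          · rw [min_eq_right h, max_eq_left (by linarith)]; ring
        · rcases le_total (U x) (-V x) with h | h
          · rw [min_eq_left h, min_eq_left (by linarith)]; ring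
          · rw [min_eq_right h, min_eq_right (by linarith)]; ring
      right_inv := fun y => by
        simp only [U_pt, V_pt]
        conv_rhs => rw [← pt_UV y]
        congr 1
        · rcases le_total (U y) 0 with h | h
          · rw [min_eq_left h, max_eq_right h]; ring
          · rw [min_eq_right h, max_eq_left h]; ring
        · rcases le_total (U y) 0 with h | h
          · rw [min_eq_left h, max_eq_right h, min_eq_left (by linarith)]; ring
          · rw [min_eq_right h, max_eq_left h, min_eq_right (by linarith)]; ring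
      continuous_toFun := by fun_prop
      continuous_invFun := by fun_prop }
  let R : Set E := {y | -2 ≤ U y ∧ U y ≤ 2 ∧ 0 ≤ V y ∧ V y ≤ 1}
  have hU : ∀ (a b : ℝ) (x y : E), U (a • x + b • y) = a * U x + b * U y := by
    intro a b x y; simp [U]; ring
  have hV : ∀ (a b : ℝ) (x y : E), V (a • x + b • y) = a * V x + b * V y := by
    intro a b x y; simp [V]; ring
  have hc : Convex ℝ R := by
    intro x hx y hy a b ha hb hab
    obtain ⟨h1, h2, h3, h4⟩ := hx
    obtain ⟨g1, g2, g3, g4⟩ := hy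
    simp only [R, mem_setOf_eq, hU, hV]
    refine ⟨?_, ?_, ?_, ?_⟩ <;> nlinarith [mul_nonneg ha h3, mul_nonneg hb g3]
  have hcl : IsClosed R := by
    simp only [R, setOf_and]
    exact (isClosed_le (by fun_prop) (by fun_prop)).inter ((isClosed_le (by fun_prop)
      (by fun_prop)).inter ((isClosed_le (by fun_prop) (by fun_prop)).inter
      (isClosed_le (by fun_prop) (by fun_prop))))
  have hne : (interior R).Nonempty := by
    have ho : IsOpen {y : E | -2 < U y ∧ U y < 2 ∧ 0 < V y ∧ V y < 1} := by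
      simp only [setOf_and]
      exact (isOpen_lt (by fun_prop) (by fun_prop)).inter ((isOpen_lt (by fun_prop)
        (by fun_prop)).inter ((isOpen_lt (by fun_prop) (by fun_prop)).inter
        (isOpen_lt (by fun_prop) (by fun_prop))))
    refine ⟨pt 0 (1 / 2), interior_maximal (fun y hy => ?_) ho ?_⟩
    · exact ⟨hy.1.le, hy.2.1.le, hy.2.2.1.le, hy.2.2.2.le⟩
    · simp only [mem_setOf_eq, U_pt, V_pt]; norm_num
  have hb : Bornology.IsBounded R := by
    refine (isBounded_closedBall (x := pt 0 0) (r := 3)).subset fun y hy => ?_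
    obtain ⟨h1, h2, h3, h4⟩ := hy
    rw [mem_closedBall, ← pt_UV y]
    have := dist_pt (U y, V y) (0, 0)
    simp only at this
    rw [this, Real.sqrt_le_iff]
    refine ⟨by norm_num, ?_⟩
    simp only [Q]; nlinarith
  obtain ⟨g, -, hg, -⟩ := exists_homeomorph_image_interior_closure_frontier_eq_unitBall hc hne hb
  rw [hcl.closure_eq] at hg
  have hC : h '' C0 = R := by
    have : C0 = h ⁻¹' R := by
      ext x
      simp only [C0, inC, R, mem_preimage, mem_setOf_eq]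
      have : h x = pt (U x + V x) (min (U x) (-V x)) := rfl
      rw [this, U_pt, V_pt]
    rw [this, image_preimage_eq _ h.surjective]
  exact ⟨(h.image C0).trans ((Homeomorph.setCongr hC).trans
    ((g.image R).trans (Homeomorph.setCongr hg)))⟩

/-- open and closed cells of the triangular grid -/
def Gen (p : ℝ × ℝ) (c : ℤ × ℤ × ℤ) : Prop :=
  (c.1 < p.1 ∧ p.1 < c.1 + 1) ∧ (c.2.1 < p.2 ∧ p.2 < c.2.1 + 1) ∧
    (c.2.2 < p.1 + p.2 ∧ p.1 + p.2 < c.2.2 + 1)
def Cl (p : ℝ × ℝ) (c : ℤ × ℤ × ℤ) : Prop :=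
  (c.1 ≤ p.1 ∧ p.1 ≤ c.1 + 1) ∧ (c.2.1 ≤ p.2 ∧ p.2 ≤ c.2.1 + 1) ∧
    (c.2.2 ≤ p.1 + p.2 ∧ p.1 + p.2 ≤ c.2.2 + 1)

def rz : ℕ → ℤ × ℤ × ℤ → ℤ × ℤ × ℤ
  | 0, c => c
  | k + 1, c => rz k (-c.2.1 - 1, c.2.2, c.1)

def cc (c : ℤ × ℤ × ℤ) : Prop := -2 ≤ c.2.2 ∧ c.2.2 ≤ 1 ∧ min c.1 (-c.2.1 - 1) = 0

instance : DecidablePred cc := fun _ => by unfold cc; infer_instance

lemma gen_rot (k : ℕ) : ∀ p c, Gen p c → Gen (rot k p) (rz k c) := by
  induction k with
  | zero => intro p c h; exact h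
  | succ k ih =>
    intro p c h
    simp only [rot, rz]
    apply ih
    obtain ⟨⟨h1, h2⟩, ⟨h3, h4⟩, h5, h6⟩ := h
    simp only [Gen]; push_cast
    refine ⟨⟨?_, ?_⟩, ⟨?_, ?_⟩, ?_, ?_⟩ <;> linarith

lemma cl_rot (k : ℕ) : ∀ p c, Cl p c → Cl (rot k p) (rz k c) := by
  induction k with
  | zero => intro p c h; exact h
  | succ k ih =>
    intro p c h
    simp only [rot, rz]
    apply ih
    obtain ⟨⟨h1, h2⟩, ⟨h3, h4⟩, h5, h6⟩ := h
    simp only [Cl]; push_cast
    refine ⟨⟨?_, ?_⟩, ⟨?_, ?_⟩, ?_, ?_⟩ <;> linarith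

lemma gen_cc {p : ℝ × ℝ} {c : ℤ × ℤ × ℤ} (h : Gen p c) (hp : inC p) : cc c := by
  obtain ⟨⟨h1, h2⟩, ⟨h3, h4⟩, h5, h6⟩ := h
  obtain ⟨g1, g2, g3, g4⟩ := hp
  rw [le_min_iff] at g3
  have a1 : (-3 : ℤ) < c.2.2 := by exact_mod_cast (by push_cast; linarith : ((-3 : ℤ) : ℝ) < c.2.2)
  have a2 : c.2.2 < 2 := by exact_mod_cast (by linarith : (c.2.2 : ℝ) < 2)
  have a3 : (-1 : ℤ) < c.1 := by
    exact_mod_cast (by push_cast; linarith [g3.1] : ((-1 : ℤ) : ℝ) < c.1)
  have a4 : c.2.1 < 0 := by exact_mod_cast (by linarith [g3.2] : (c.2.1 : ℝ) < 0)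
  have a5 : c.1 < 1 ∨ -2 < c.2.1 := by
    rcases min_le_iff.1 g4 with g | g
    · left; exact_mod_cast (by linarith : (c.1 : ℝ) < 1)
    · right; exact_mod_cast (by push_cast; linarith : ((-2 : ℤ) : ℝ) < c.2.1)
  simp only [cc]; omega

lemma cl_cc {p : ℝ × ℝ} {c : ℤ × ℤ × ℤ} (h : Cl p c) (hc : cc c) : inC p := by
  obtain ⟨⟨h1, h2⟩, ⟨h3, h4⟩, h5, h6⟩ := h
  obtain ⟨g1, g2, g3⟩ := hc
  have a1 : (-2 : ℝ) ≤ c.2.2 := by exact_mod_cast g1
  have a2 : (c.2.2 : ℝ) ≤ 1 := by exact_mod_cast g2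
  have a3 : (0 : ℝ) ≤ c.1 := by exact_mod_cast (by omega : 0 ≤ c.1)
  have a4 : (c.2.1 : ℝ) ≤ -1 := by exact_mod_cast (by omega : c.2.1 ≤ -1)
  refine ⟨by linarith, by linarith, le_min (by linarith) (by linarith), ?_⟩
  rcases (by omega : c.1 ≤ 0 ∨ -1 ≤ c.2.1) with g | g
  · have : (c.1 : ℝ) ≤ 0 := by exact_mod_cast g
    exact min_le_iff.2 (Or.inl (by linarith))
  · have : (-1 : ℝ) ≤ c.2.1 := by exact_mod_cast g
    exact min_le_iff.2 (Or.inr (by linarith))

def L : List (ℕ × ℤ) := [(0, 5), (5, 22), (1, 30), (0, 15), (0, 25), (0, 9), (1, 21), (5, 21)]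

def cells : ℕ → List (ℤ × ℤ × ℤ)
  | 0 => [(0, -3, -2), (0, -2, -2), (0, -2, -1), (0, -1, -1), (0, -1, 0), (1, -1, 0), (1, -1, 1),
      (2, -1, 1)]
  | 1 => [(-2, -1, -3), (-2, -1, -2), (-1, -1, -2), (-1, -1, -1), (0, -2, -1), (0, -1, -1),
      (1, -3, -1), (1, -2, -1)]
  | _ => [(0, -1, 0), (0, 0, 0), (0, 0, 1), (0, 1, 1), (0, 1, 2), (1, -2, 0), (1, -1, 0),
      (2, -2, 0)]

lemma fin_cells : ∀ k ∈ [0, 1, 5], ∀ i ∈ [(-3 : ℤ), -2, -1, 0, 1, 2, 3],
    ∀ j ∈ [(-3 : ℤ), -2, -1, 0, 1, 2, 3], ∀ e ∈ [(0 : ℤ), 1],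
    cc (rz k (i, j, i + j + e)) → (i, j, i + j + e) ∈ cells k := by decide +kernel

lemma mem_cells {k : ℕ} {m : ℤ} (hk : (k, m) ∈ L) {i j l : ℤ} (hl : l = i + j ∨ l = i + j + 1)
    (h : cc (rz k (i, j, l))) : (i, j, l) ∈ cells k := by
  have hk' : k = 0 ∨ k = 1 ∨ k = 5 := by
    simp only [L, List.mem_cons, Prod.mk.injEq, List.not_mem_nil, or_false] at hk
    omega
  have hb : -3 ≤ i ∧ i ≤ 3 ∧ -3 ≤ j ∧ j ≤ 3 := by
    rcases hk' with rfl | rfl | rfl <;> simp only [cc, rz] at h <;> omega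
  have e : l = i + j + (l - i - j) := by ring
  rw [e] at h ⊢
  refine fin_cells k ?_ i ?_ j ?_ _ ?_ h <;>
    simp only [List.mem_cons, List.not_mem_nil, or_false] <;> omega

lemma fin_uniq : ∀ s ∈ L, ∀ s' ∈ L, ∀ d ∈ cells s.1, ∀ d' ∈ cells s'.1,
    d.2.2 - d.1 - d.2.1 = d'.2.2 - d'.1 - d'.2.1 →
    (s.2 + d.1 - 9 * d.2.1) % 32 = (s'.2 + d'.1 - 9 * d'.2.1) % 32 →
    s.1 = s'.1 ∧ d.1 = d'.1 ∧ d.2.1 = d'.2.1 := by decide +kernel

lemma fin_cover : ∀ r ∈ List.range 32, ∀ e ∈ [(0 : ℤ), 1], ∃ s ∈ L, ∃ d ∈ cells s.1,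
    d.2.2 - d.1 - d.2.1 = e ∧ (s.2 + d.1 - 9 * d.2.1) % 32 = r ∧ cc (rz s.1 d) ∧
      s.2 % 32 = s.2 := by decide +kernel

def TT : Set (Set E) := {T | ∃ k a b, (k, (a - 9 * b) % 32) ∈ L ∧ T = tile k a b}

lemma uniq {x : E} {c : ℤ × ℤ × ℤ} (hx : Gen (U x, V x) c) {A B : Set E} (hA : A ∈ TT)
    (hB : B ∈ TT) (hxA : x ∈ A) (hxB : x ∈ B) : A = B := by
  obtain ⟨k, a, b, hk, rfl⟩ := hA
  obtain ⟨k', a', b', hk', rfl⟩ := hB
  obtain ⟨i, j, l⟩ := c
  have hl : l = i + j ∨ l = i + j + 1 := by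
    obtain ⟨⟨h1, h2⟩, ⟨h3, h4⟩, h5, h6⟩ := hx
    simp only at h1 h2 h3 h4 h5 h6
    have a1 : l < i + j + 2 := by exact_mod_cast (by linarith : (l : ℝ) < i + j + 2)
    have a2 : i + j < l + 1 := by exact_mod_cast (by linarith : (i : ℝ) + j < l + 1)
    omega
  have key : ∀ (k : ℕ) (a b m : ℤ), (k, m) ∈ L → x ∈ tile k a b →
      (i - a, j - b, l - a - b) ∈ cells k := by
    intro k a b m hk hx'
    refine mem_cells hk (by omega) (gen_cc (gen_rot k _ _ ?_) hx')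
    obtain ⟨⟨h1, h2⟩, ⟨h3, h4⟩, h5, h6⟩ := hx
    simp only at h1 h2 h3 h4 h5 h6
    simp only [Gen]; push_cast
    refine ⟨⟨?_, ?_⟩, ⟨?_, ?_⟩, ?_, ?_⟩ <;> linarith
  have := fin_uniq _ hk _ hk' _ (key k a b _ hk hxA) _ (key k' a' b' _ hk' hxB)
    (by simp only; ring) (by simp only; omega)
  simp only at this
  obtain ⟨rfl, h2, h3⟩ := this
  have : a = a' := by omega
  have : b = b' := by omega
  subst_vars; rfl

lemma cover : ⋃₀ TT = univ := by
  refine eq_univ_of_forall fun x => ?_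
  have h1 := Int.floor_le (U x)
  have h2 := Int.lt_floor_add_one (U x)
  have h3 := Int.floor_le (V x)
  have h4 := Int.lt_floor_add_one (V x)
  generalize ⌊U x⌋ = i at h1 h2
  generalize ⌊V x⌋ = j at h3 h4
  obtain ⟨e, he, he1, he2⟩ : ∃ e ∈ [(0 : ℤ), 1], (i + j + e : ℝ) ≤ U x + V x ∧
      U x + V x ≤ i + j + e + 1 := by
    rcases le_total (U x + V x) (i + j + 1) with h | h
    · exact ⟨0, by simp, by push_cast; linarith, by push_cast; linarith⟩
    · exact ⟨1, by simp, by push_cast; linarith, by push_cast; linarith⟩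
  obtain ⟨s, hs, d, -, hd1, hd2, hd3, hd4⟩ := fin_cover ((i - 9 * j) % 32).toNat
    (by rw [List.mem_range]; omega) e he
  refine ⟨tile s.1 (i - d.1) (j - d.2.1), ⟨s.1, i - d.1, j - d.2.1, ?_, rfl⟩, ?_⟩
  · have : (i - d.1 - 9 * (j - d.2.1)) % 32 = s.2 := by omega
    rw [this]; exact hs
  · refine cl_cc (cl_rot _ _ _ ?_) hd3
    have : (d.2.2 : ℝ) = e + d.1 + d.2.1 := by
      exact_mod_cast (by omega : d.2.2 = e + d.1 + d.2.1)
    simp only [Cl]; push_cast
    refine ⟨⟨?_, ?_⟩, ⟨?_, ?_⟩, ?_, ?_⟩ <;> linarith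

lemma gen_dense {O : Set E} (hO : IsOpen O) {x : E} (hx : x ∈ O) :
    ∃ y ∈ O, ∃ c, Gen (U y, V y) c := by
  let B : Set ℝ := range (fun n : ℤ => n - U x) ∪ range (fun n : ℤ => n - V x) ∪
    range (fun n : ℤ => (n - U x - V x) / 2)
  have hB : B.Countable := ((countable_range _).union (countable_range _)).union (countable_range _)
  have hO' : IsOpen {t : ℝ | pt (U x + t) (V x + t) ∈ O} :=
    hO.preimage (f := fun t : ℝ => pt (U x + t) (V x + t)) (by fun_prop)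
  obtain ⟨t, ht, htB⟩ := (hB.dense_compl ℝ).inter_open_nonempty _ hO'
    ⟨0, by simpa [pt_UV] using hx⟩
  simp only [B, mem_compl_iff, mem_union, mem_range, not_or, not_exists] at htB
  obtain ⟨⟨b1, b2⟩, b3⟩ := htB
  refine ⟨_, ht, (⌊U x + t⌋, ⌊V x + t⌋, ⌊U x + t + (V x + t)⌋), ?_⟩
  simp only [Gen, U_pt, V_pt]
  refine ⟨⟨lt_of_le_of_ne (Int.floor_le _) fun h => b1 ⌊U x + t⌋ (by linarith),
    Int.lt_floor_add_one _⟩, ⟨lt_of_le_of_ne (Int.floor_le _) fun h => b2 ⌊V x + t⌋ (by linarith),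
    Int.lt_floor_add_one _⟩, lt_of_le_of_ne (Int.floor_le _)
      fun h => b3 ⌊U x + t + (V x + t)⌋ (by linarith), Int.lt_floor_add_one _⟩

lemma disj : TT.Pairwise (fun A B => Disjoint (interior A) (interior B)) := by
  intro A hA B hB hAB
  rw [Set.disjoint_left]
  intro x h1 h2
  obtain ⟨y, ⟨y1, y2⟩, c, hc⟩ := gen_dense (isOpen_interior.inter isOpen_interior)
    (show x ∈ interior A ∩ interior B from ⟨h1, h2⟩)
  exact hAB (uniq hc hA hB (interior_subset y1) (interior_subset y2))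

open Complex in
lemma not_sc {N : Set E} {F : E → ℂ} (hF : Continuous F) (h0 : ∀ x ∈ N, F x ≠ 0) {a b : E}
    (hp : JoinedIn (N ∩ {x | F x ∈ slitPlane}) a b)
    (hq : JoinedIn (N ∩ {x | -F x ∈ slitPlane}) a b)
    (ha : 0 < (F a).im) (hb : (F b).im < 0) : ¬ SimplyConnectedSpace N := by
  intro hN
  obtain ⟨p, hp⟩ := hp
  obtain ⟨q, hq⟩ := hq
  have haN : a ∈ N := by simpa using (hp 0).1
  have hbN : b ∈ N := by simpa using (hp 1).1
  let p' : Path (⟨a, haN⟩ : N) ⟨b, hbN⟩ :=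
    ⟨⟨fun t => ⟨p t, (hp t).1⟩, by fun_prop⟩, by simp, by simp⟩
  let q' : Path (⟨a, haN⟩ : N) ⟨b, hbN⟩ :=
    ⟨⟨fun t => ⟨q t, (hq t).1⟩, by fun_prop⟩, by simp, by simp⟩
  let G : C(N, {z : ℂ // z ≠ 0}) := ⟨fun x => ⟨F x, h0 x x.2⟩, by fun_prop⟩
  have H0 : ContinuousMap.HomotopicRel p'.toContinuousMap q'.toContinuousMap {0, 1} :=
    SimplyConnectedSpace.paths_homotopic p' q'
  have H := ContinuousMap.HomotopicRel.comp_continuousMap H0 G
  let f0 : C(unitInterval, ℂ) := ⟨fun t => log (F (p t)),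
    Continuous.clog (by fun_prop) fun t => (hp t).2⟩
  let f1 : C(unitInterval, ℂ) := ⟨fun t => log (-F (q t)) + Real.pi * I,
    (Continuous.clog (by fun_prop) fun t => (hq t).2).add continuous_const⟩
  have e0 : f0 0 = f1 0 := by
    simp only [f0, f1, ContinuousMap.coe_mk, Path.source]
    apply Complex.ext
    · simp [log_re]
    · simp [log_im, arg_neg_eq_arg_sub_pi_of_im_pos ha]
  have H2 : f0.HomotopicRel f1 {0, 1} := by
    rw [isCoveringMap_exp.homotopicRel_iff_comp ⟨0, by simp, e0⟩]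
    convert H using 1
    · ext t
      simp [f0, G, p', exp_log (h0 _ (hp t).1)]
    · ext t
      simp [f1, G, q', exp_add, exp_log (neg_ne_zero.2 (h0 _ (hq t).1))]
  have e1 : f0 1 = f1 1 := H2.fst_eq_snd (by simp)
  have := congrArg Complex.im e1
  simp [f0, f1, log_im, arg_neg_eq_arg_add_pi_of_im_neg hb] at this
  linarith [Real.pi_pos]

lemma seg {S : Set E} (u0 v0 u1 v1 : ℝ)
    (h : ∀ t : ℝ, 0 ≤ t → t ≤ 1 → pt (u0 + t * (u1 - u0)) (v0 + t * (v1 - v0)) ∈ S) :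
    JoinedIn S (pt u0 v0) (pt u1 v1) := by
  refine JoinedIn.ofLine (f := fun t => pt (u0 + t * (u1 - u0)) (v0 + t * (v1 - v0)))
    (Continuous.continuousOn (by fun_prop)) (by simp) (by simp) ?_
  rintro _ ⟨t, ht, rfl⟩
  exact h t ht.1 ht.2

def NN : Set E := ⋃₀ {T' ∈ TT | (T' ∩ tile 0 2 1).Nonempty}

lemma sub1 : tile 5 (-1) 1 ⊆ NN := subset_sUnion_of_mem
  ⟨⟨5, -1, 1, by decide, rfl⟩, pt 2 (-1), by simp [tile, inC, rot]; norm_num,
    by simp [tile, inC, rot]; norm_num⟩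
lemma sub2 : tile 1 2 4 ⊆ NN := subset_sUnion_of_mem
  ⟨⟨1, 2, 4, by decide, rfl⟩, pt 4 1, by simp [tile, inC, rot]; norm_num,
    by simp [tile, inC, rot]; norm_num⟩
lemma sub3 : tile 0 1 2 ⊆ NN := subset_sUnion_of_mem
  ⟨⟨0, 1, 2, by decide, rfl⟩, pt 2 1, by simp [tile, inC, rot]; norm_num,
    by simp [tile, inC, rot]⟩

lemma hole : pt (1 / 3) (7 / 3) ∉ NN := by
  rintro ⟨A, ⟨hA, y, y1, y2⟩, hx⟩
  have : A = tile 0 0 3 := by
    refine uniq (c := (0, 2, 2)) ?_ hA ⟨0, 0, 3, by decide, rfl⟩ hx ?_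
    · simp [Gen]; norm_num
    · simp [tile, inC, rot]; norm_num
  subst this
  simp only [tile, inC, rot, mem_setOf_eq, le_min_iff, min_le_iff] at y1 y2
  push_cast at y1 y2
  obtain ⟨-, -, -, h | h⟩ := y1 <;> linarith [y2.2.2.1.1, y2.2.2.1.2]

open Complex in
lemma main : ¬ SimplyConnectedSpace NN := by
  refine not_sc (F := fun x => (U x - 1 / 3 : ℝ) + (V x - 7 / 3 : ℝ) * I) (by fun_prop) ?_
    (a := pt 0 3) (b := pt 1 2) ?_ ?_ (by simp; norm_num) (by simp; norm_num)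
  · intro x hx h
    apply hole
    have h1 := congrArg Complex.re h
    have h2 := congrArg Complex.im h
    simp at h1 h2
    have e1 : U x = 1 / 3 := by linarith
    have e2 : V x = 7 / 3 := by linarith
    rw [← e1, ← e2, pt_UV]; exact hx
  · refine ((seg 0 3 2 3 fun t h0 h1 => And.intro (sub2 ?_) ?_).trans
      (seg 2 3 3 2 fun t h0 h1 => And.intro (sub2 ?_) ?_)).trans
      (seg 3 2 1 2 fun t h0 h1 => And.intro (sub3 ?_) ?_)
    all_goals
      simp only [tile, inC, rot, mem_setOf_eq, U_pt, V_pt, le_min_iff, min_le_iff,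
        mem_slitPlane_iff, add_re, add_im, ofReal_re, ofReal_im, mul_re, mul_im, I_re, I_im]
      push_cast
      first
      | exact ⟨by linarith, by linarith, ⟨by linarith, by linarith⟩, Or.inl (by linarith)⟩
      | exact ⟨by linarith, by linarith, ⟨by linarith, by linarith⟩, Or.inr (by linarith)⟩
      | exact Or.inl (by linarith)
      | exact Or.inr (ne_of_gt (by linarith))
      | exact Or.inr (ne_of_lt (by linarith))
  · refine ((seg 0 3 0 1 fun t h0 h1 => And.intro (sub1 ?_) ?_).trans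
      (seg 0 1 1 0 fun t h0 h1 => And.intro (sub1 ?_) ?_)).trans
      (seg 1 0 1 2 fun t h0 h1 => And.intro (sub3 ?_) ?_)
    all_goals
      simp only [tile, inC, rot, mem_setOf_eq, U_pt, V_pt, le_min_iff, min_le_iff,
        mem_slitPlane_iff, add_re, add_im, ofReal_re, ofReal_im, mul_re, mul_im, I_re, I_im,
        neg_re, neg_im]
      push_cast
      first
      | exact ⟨by linarith, by linarith, ⟨by linarith, by linarith⟩, Or.inl (by linarith)⟩
      | exact ⟨by linarith, by linarith, ⟨by linarith, by linarith⟩, Or.inr (by linarith)⟩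
      | exact Or.inl (by linarith)
      | exact Or.inr (ne_of_gt (by linarith))
      | exact Or.inr (ne_of_lt (by linarith))

/-- The negation of the preceding statement: For every closed topological disk C and every tiling of the plane by isometric copies of C with disjoint interiors, each tile's neighborhood (union of tiles meeting it) is simply connected. -/
theorem result :
    ¬ (∀ (C : Set (EuclideanSpace ℝ (Fin 2))) (𝒯 : Set (Set (EuclideanSpace ℝ (Fin 2)))),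
      Nonempty (C ≃ₜ Metric.closedBall (0 : EuclideanSpace ℝ (Fin 2)) 1) →
      (∀ T ∈ 𝒯, ∃ f : EuclideanSpace ℝ (Fin 2) ≃ᵢ EuclideanSpace ℝ (Fin 2), T = f '' C) →
      ⋃₀ 𝒯 = Set.univ →
      𝒯.Pairwise (fun A B => Disjoint (interior A) (interior B)) →
      ∀ T ∈ 𝒯, SimplyConnectedSpace (⋃₀ {T' ∈ 𝒯 | (T' ∩ T).Nonempty})) := by
  intro h
  refine main (h C0 TT C0_disc ?_ cover disj (tile 0 2 1) ⟨0, 2, 1, by decide, rfl⟩)
  rintro T ⟨k, a, b, -, rfl⟩
  exact tile_iso k a b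

end Pool.Agent.S08582
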