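import Pool.Statements.S08586
import Pool.Agent.H.MP_4a5947_co.Main

set_option autoImplicit false
open Classical
open Pool Pool.MP_4a5947_co

namespace Pool.Agent.S08586

theorem result :
    ¬ (∀ (α : Type) [Fintype α] [PartialOrder α], Nonempty α →
    (¬ ∃ a b c d : α, a < b ∧ c < b ∧ c < d ∧ ¬ a ≤ c ∧ ¬ c ≤ a ∧
        ¬ a ≤ d ∧ ¬ d ≤ a ∧ ¬ b ≤ d ∧ ¬ d ≤ b) →
    (∃ col : α → Bool, ∀ x y : α, x ⋖ y → col x ≠ col y) →
    (∀ x y : α, x ⋖ y → ∃ x' y' : α, x' ⋖ y' ∧ x' ⋖ y ∧ x ⋖ y' ∧ (x' ≠ x ∨ y' ≠ y)) →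
    ∀ c : α → α → ℕ,
    ∃ k : ℕ,
      (∃ L : α ≃ Fin (Fintype.card α), (∀ x y : α, x < y → L x < L y) ∧
         (∑ p ∈ Finset.univ.filter
            (fun p : α × α => p.1 ⋖ p.2 ∧ (L p.2 : ℕ) = (L p.1 : ℕ) + 1), c p.1 p.2) = k) ∧
      (∀ L : α ≃ Fin (Fintype.card α), (∀ x y : α, x < y → L x < L y) →
         (∑ p ∈ Finset.univ.filter
            (fun p : α × α => p.1 ⋖ p.2 ∧ (L p.2 : ℕ) = (L p.1 : ℕ) + 1), c p.1 p.2) ≤ k) ∧
      (∃ F : Fin k → Set (α × α),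
         (∀ i : Fin k,
           (∃ x y : α, x ⋖ y ∧ F i = {p : α × α | p.1 ⋖ p.2 ∧ p.1 ⋖ y ∧ x ⋖ p.2}) ∨
           (∃ v u w z : α, u ⋖ v ∧ v ⋖ w ∧ z ≠ v ∧ (u ⋖ z ∨ z ⋖ u) ∧ (w ⋖ z ∨ z ⋖ w) ∧
              F i = {p : α × α | p.1 ⋖ p.2 ∧ (p.1 = v ∨ p.2 = v)})) ∧
         (∀ x y : α, x ⋖ y →
            c x y ≤ (Finset.univ.filter (fun i : Fin k => (x, y) ∈ F i)).card)) ∧
      (∀ (m : ℕ) (F : Fin m → Set (α × α)),
         (∀ i : Fin m,
           (∃ x y : α, x ⋖ y ∧ F i = {p : α × α | p.1 ⋖ p.2 ∧ p.1 ⋖ y ∧ x ⋖ p.2}) ∨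
           (∃ v u w z : α, u ⋖ v ∧ v ⋖ w ∧ z ≠ v ∧ (u ⋖ z ∨ z ⋖ u) ∧ (w ⋖ z ∨ z ⋖ w) ∧
              F i = {p : α × α | p.1 ⋖ p.2 ∧ (p.1 = v ∨ p.2 = v)})) →
         (∀ x y : α, x ⋖ y →
            c x y ≤ (Finset.univ.filter (fun i : Fin m => (x, y) ∈ F i)).card) →
         k ≤ m)) := by
  open Pool.Agent.H.MP_4a5947_co in
  intro h
  obtain ⟨k, ⟨L, hL, hk⟩, -, ⟨F, hF, hc⟩, -⟩ := h P ⟨P.a0⟩ nfree bip cuts c
  have h3 : k ≤ 3 := by
    refine le_trans ?_ (ext_le (fun x => (L x : ℕ)) (Fin.val_injective.comp L.injective) hL)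
    rw [← hk]
    unfold c
    rw [Finset.sum_boole]
    refine Finset.card_le_card fun p hp => ?_
    simp only [Finset.mem_filter, Finset.mem_univ, true_and] at hp ⊢
    exact ⟨hp.2, hp.1.2⟩
  have h2 : ∀ i, (W.filter (fun p => p ∈ F i)).card ≤ 2 := by
    intro i
    rcases hF i with ⟨x, y, hxy, e⟩ | ⟨v, u, w, z, h1, h2, -, -, -, e⟩
    · refine le_trans (le_of_eq ?_) (cut_le x y hxy)
      congr 1
      ext p
      simp [e]
    · have v0 : v ≠ P.a0 := by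
        rintro rfl
        have := h1.lt
        revert this; cases u <;> decide
      have v8 : v ≠ P.a8 := by
        rintro rfl
        have := h2.lt
        revert this; cases w <;> decide
      refine le_trans (le_of_eq ?_) (fan_le v v0 v8)
      congr 1
      ext p
      simp [e]
  have h7 : W.card ≤ ∑ i : Fin k, (W.filter (fun p => p ∈ F i)).card := by
    simp only [Finset.card_filter]
    rw [Finset.sum_comm, Finset.card_eq_sum_ones]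
    refine Finset.sum_le_sum fun p hp => ?_
    have := hc p.1 p.2 (W_cov p hp)
    rw [Finset.card_filter] at this
    simpa [c, hp] using this
  have h8 : ∑ i : Fin k, (W.filter (fun p => p ∈ F i)).card ≤ ∑ _i : Fin k, 2 :=
    Finset.sum_le_sum fun i _ => h2 i
  have h9 : W.card = 7 := by decide
  simp at h8
  omega

end Pool.Agent.S08586
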