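import Pool.Statements.S08598

set_option autoImplicit false
open Pool Pool.MP_4a9f27_co

namespace Pool.Agent.S08598
open Finset

theorem result :
    ¬ (∃ c : ℝ, 0 < c ∧ ∀ (G : Type) [Group G] (S : Finset G),
      ∃ H : Subgroup G, (H : Set G).Finite ∧
        ((Set.ncard {g : G | ∃ l : List G, l.Nodup ∧ (∀ x ∈ l, x ∈ S) ∧ l.prod = g} : ℕ) : ℝ)
          ≥ (Nat.card H : ℝ) + c * (Nat.card H : ℝ)
              * ((Set.ncard ((S : Set G) \ (H : Set G)) : ℕ) : ℝ) ^ 2) := by
  classical
  rintro ⟨c, hc, h⟩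
  obtain ⟨t, ht⟩ := exists_nat_gt (1 / c)
  have ht1 : 1 < c * t := by rwa [div_lt_iff₀' hc] at ht
  have ht0 : (0 : ℝ) < t := lt_trans (by positivity) ht
  obtain ⟨q, hq⟩ := exists_nat_gt (2 * (t + 1) / c)
  obtain ⟨p, hpq, hp⟩ := Nat.exists_infinite_primes (q + t + 2)
  have := Fact.mk hp
  have hq1 : 2 * ((t : ℝ) + 1) < c * q := by rwa [div_lt_iff₀' hc] at hq
  obtain ⟨T, -, hT⟩ := exists_subset_card_eq (s := (univ : Finset (ZMod p))) (n := t)
    (by rw [card_univ, ZMod.card]; omega)
  let G := Multiplicative (ℤ × ZMod p)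
  let e : ℤ → ZMod p → G := fun i a => Multiplicative.ofAdd (i, a)
  have he : ∀ i, Function.Injective (e i) := fun i a b hab =>
    (Prod.ext_iff.mp (Multiplicative.ofAdd.injective hab)).2
  let S : Finset G := univ.image (e 0) ∪ T.image (e 1)
  obtain ⟨H, hH, hle⟩ := h G S
  -- the product set lies in t+1 cosets
  have hP : {g : G | ∃ l : List G, l.Nodup ∧ (∀ x ∈ l, x ∈ S) ∧ l.prod = g}.ncard ≤ (t + 1) * p := by
    have hsub : {g : G | ∃ l : List G, l.Nodup ∧ (∀ x ∈ l, x ∈ S) ∧ l.prod = g} ⊆
        ((((range (t + 1)) ×ˢ (univ : Finset (ZMod p))).image fun x => e x.1 x.2 : Finset G) : Set G) := by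
      rintro _ ⟨l, hl, hlS, rfl⟩
      have key : ∀ l : List G, (∀ x ∈ l, x ∈ S) →
          (Multiplicative.toAdd l.prod).1 = (l.filter fun x => x ∈ T.image (e 1)).length := by
        intro l
        induction l with
        | nil => simp
        | cons x l ih =>
          intro hx
          have h1 := ih fun y hy => hx y (List.mem_cons_of_mem _ hy)
          rw [List.prod_cons, toAdd_mul, Prod.fst_add, h1, List.filter_cons]
          by_cases hxT : x ∈ T.image (e 1)
          · rw [if_pos (by simpa using hxT)]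
            obtain ⟨a, -, rfl⟩ := mem_image.mp hxT
            simp [e, add_comm]
          · rw [if_neg (by simpa using hxT)]
            rcases mem_union.mp (hx x List.mem_cons_self) with h2 | h2
            · obtain ⟨a, -, rfl⟩ := mem_image.mp h2
              simp [e]
            · exact absurd h2 hxT
      have h1 := key l hlS
      have h2 : (l.filter fun x => x ∈ T.image (e 1)).length ≤ t := by
        rw [← List.toFinset_card_of_nodup (hl.filter _), ← hT]
        refine (card_le_card ?_).trans (card_image_le (f := e 1))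
        intro x hx
        simpa using (List.mem_filter.mp (List.mem_toFinset.mp hx)).2
      refine mem_coe.mpr (mem_image.mpr ⟨((l.filter fun x => x ∈ T.image (e 1)).length,
        (Multiplicative.toAdd l.prod).2), mem_product.mpr ⟨mem_range.mpr (Nat.lt_succ_of_le h2), mem_univ _⟩, ?_⟩)
      simp only [e, ← h1]
      rfl
    have := Set.ncard_le_ncard hsub (Finset.finite_toSet _)
    rw [Set.ncard_coe_finset] at this
    refine this.trans (card_image_le.trans ?_)
    simp [ZMod.card]
  have hPR : ((({g : G | ∃ l : List G, l.Nodup ∧ (∀ x ∈ l, x ∈ S) ∧ l.prod = g}.ncard : ℕ) : ℝ)) ≤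
      (t + 1) * p := by exact_mod_cast hP
  have : Finite H := hH
  have hfin : ((S : Set G) \ (H : Set G)).Finite := S.finite_toSet.subset Set.sdiff_subset
  have hp2 : (q : ℝ) + t + 2 ≤ p := by exact_mod_cast hpq
  have hq0 : (0 : ℝ) ≤ q := Nat.cast_nonneg q
  by_cases hcase : ∃ a, a ≠ 0 ∧ e 0 a ∈ H
  · obtain ⟨a, ha, haH⟩ := hcase
    have hord : orderOf (e 0 a) = p := by
      apply orderOf_eq_prime
      · show Multiplicative.ofAdd ((0 : ℤ), a) ^ p = 1
        rw [← ofAdd_nsmul]
        simp
      · intro h1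
        exact ha (he 0 (h1.trans rfl))
    have hcard : p ≤ Nat.card H :=
      Nat.le_of_dvd Nat.card_pos ((dvd_of_eq hord.symm).trans (Subgroup.orderOf_dvd_natCard H haH))
    have hdiff : t ≤ ((S : Set G) \ (H : Set G)).ncard := by
      have hsub : ((T.image (e 1) : Finset G) : Set G) ⊆ (S : Set G) \ (H : Set G) := by
        intro x hx
        refine ⟨mem_coe.mpr (mem_union_right _ hx), fun hxH => ?_⟩
        obtain ⟨b, -, rfl⟩ := mem_image.mp hx
        have h1 : (e 1 b) ^ Nat.card H = 1 := by
          rw [← orderOf_dvd_iff_pow_eq_one]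
          exact Subgroup.orderOf_dvd_natCard H hxH
        have h2 : Multiplicative.ofAdd ((1 : ℤ), b) ^ Nat.card H = 1 := h1
        rw [← ofAdd_nsmul] at h2
        have h3 := congrArg (fun g : G => (Multiplicative.toAdd g).1) h2
        have h4 : ((Nat.card H : ℕ) : ℤ) = 0 := by simpa using h3
        have := Nat.card_pos (α := H)
        omega
      have := Set.ncard_le_ncard hsub hfin
      rwa [Set.ncard_coe_finset, card_image_of_injective _ (he 1), hT] at this
    have h1 : (p : ℝ) ≤ Nat.card H := by exact_mod_cast hcard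
    have h2 : (t : ℝ) ≤ ((S : Set G) \ (H : Set G)).ncard := by exact_mod_cast hdiff
    have h3 : c * p * (t : ℝ) ^ 2 ≤
        c * (Nat.card H : ℝ) * ((((S : Set G) \ (H : Set G)).ncard : ℕ) : ℝ) ^ 2 := by gcongr
    have h4 : (p : ℝ) * t * 1 < p * t * (c * t) := by gcongr; nlinarith
    nlinarith
  · push Not at hcase
    have hdiff : p - 1 ≤ ((S : Set G) \ (H : Set G)).ncard := by
      have hsub : (((univ.erase 0).image (e 0) : Finset G) : Set G) ⊆ (S : Set G) \ (H : Set G) := by
        intro x hx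
        obtain ⟨b, hb, rfl⟩ := mem_image.mp hx
        exact ⟨mem_coe.mpr (mem_union_left _ (mem_image_of_mem _ (mem_univ _))),
          hcase b (ne_of_mem_erase hb)⟩
      have := Set.ncard_le_ncard hsub hfin
      rwa [Set.ncard_coe_finset, card_image_of_injective _ (he 0), card_erase_of_mem (mem_univ _),
        card_univ, ZMod.card] at this
    have h1 : (1 : ℝ) ≤ Nat.card H := by exact_mod_cast Nat.card_pos (α := H)
    have h2 : (p : ℝ) - 1 ≤ ((S : Set G) \ (H : Set G)).ncard := by
      have := (Nat.cast_le (α := ℝ)).mpr hdiff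
      rwa [Nat.cast_sub hp.one_le, Nat.cast_one] at this
    have h0 : (0 : ℝ) ≤ p - 1 := by linarith
    have h3 : c * 1 * ((p : ℝ) - 1) ^ 2 ≤
        c * (Nat.card H : ℝ) * ((((S : Set G) \ (H : Set G)).ncard : ℕ) : ℝ) ^ 2 := by gcongr
    have h4 : c * q * ((p : ℝ) - 1) ≤ c * (p - 1) * (p - 1) := by gcongr; linarith
    have h5 : 2 * ((t : ℝ) + 1) * (p - 1) ≤ c * q * (p - 1) := by gcongr
    nlinarith

end Pool.Agent.S08598
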