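import Pool.Statements.S08639
-- import your own Pool.Agent.* helpers here

set_option autoImplicit false
open Pool Pool.MP_4cf4e3_co

namespace Pool.Agent.S08639

open Filter

attribute [local instance] Ultrafilter.add Ultrafilter.addSemigroup

theorem exists_idem : ∃ U : Ultrafilter ℕ,
    (∀ p : ℕ → Prop, (∀ᶠ m in (U : Filter ℕ), p m) →
      ∀ᶠ y in (U : Filter ℕ), ∀ᶠ z in (U : Filter ℕ), p (y + z)) ∧
    ∀ b : ℕ, ∀ᶠ z in (U : Filter ℕ), b < z := by
  obtain ⟨U, hU, hpos⟩ := Hindman.exists_idempotent_ultrafilter_le_FS (Stream'.const (1 : ℕ))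
  have hadd : ∀ p : ℕ → Prop, (∀ᶠ m in (U : Filter ℕ), p m) →
      ∀ᶠ y in (U : Filter ℕ), ∀ᶠ z in (U : Filter ℕ), p (y + z) := by
    intro p hp
    rw [← Ultrafilter.eventually_add, hU]
    exact hp
  have hpos' : ∀ᶠ m in (U : Filter ℕ), 0 < m := by
    refine hpos.mono ?_
    have : ∀ (a : Stream' ℕ) (m : ℕ), m ∈ Hindman.FS a → (∀ i, 0 < a.get i) → 0 < m := by
      intro a m hm
      induction hm with
      | head' a => intro h; exact h 0
      | tail' a m _ ih => intro h; exact ih (fun i => h (i + 1))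
      | cons' a m _ _ => intro h; exact Nat.add_pos_left (h 0) _
    intro m hm
    exact this _ m hm (fun i => by simp)
  refine ⟨U, hadd, ?_⟩
  rcases U.le_cofinite_or_eq_pure with h | ⟨a, h⟩
  · intro b
    rw [Nat.cofinite_eq_atTop] at h
    exact h (eventually_gt_atTop b)
  · exfalso
    subst h
    have h1 := hadd (fun m => m = a) (by simp)
    simp at h1 hpos'
    omega

theorem pick {k : ℕ} (U : Ultrafilter ℕ) (g : ℕ → Fin k) :
    ∃ i, ∀ᶠ x in (U : Filter ℕ), g x = i := by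
  obtain ⟨i, hi⟩ := (U.map g).eq_pure_of_finite
  refine ⟨i, ?_⟩
  have : {i} ∈ U.map g := by rw [hi]; simp
  exact this

theorem result :
    ∀ (k : ℕ) (c : ℕ → Fin k), ∃ a : ℕ → ℕ, StrictMono a ∧
      ∃ i : Fin k, ∀ n m : ℕ, n < m → c (a n + a m) = i ∧ c (a m - a n) = i := by
  intro k c
  obtain ⟨U, hadd, hgt⟩ := exists_idem
  choose g hg using fun x : ℕ => pick U (fun z => c (2 * (z - x)))
  obtain ⟨i, hi⟩ := pick U g
  obtain ⟨y₀, hy₀⟩ := hi.exists
  have hA : ∀ᶠ z in (U : Filter ℕ), c (2 * (z - y₀)) = i := hy₀ ▸ hg y₀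
  have hD := hi.and ((hadd _ hA).and (hgt y₀))
  obtain ⟨y, hy, hr⟩ := exists_seq_of_forall_finset_exists
    (fun y : ℕ => g y = i ∧ (∀ᶠ z in (U : Filter ℕ), c (2 * (y + z - y₀)) = i) ∧ y₀ < y)
    (fun y z : ℕ => c (2 * (z - y)) = i ∧ c (2 * (y + z - y₀)) = i ∧ y < z)
    (by
      intro s hs
      have h1 : ∀ᶠ z in (U : Filter ℕ), ∀ y ∈ s,
          c (2 * (z - y)) = i ∧ c (2 * (y + z - y₀)) = i ∧ y < z := by
        rw [eventually_all_finset]
        intro y hy
        obtain ⟨a1, a2, -⟩ := hs y hy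
        exact (a1 ▸ hg y).and (a2.and (hgt y))
      exact (hD.and h1).exists)
  refine ⟨fun n => 2 * y n - y₀, ?_, i, ?_⟩
  · intro n m hnm
    have h1 := (hr n m hnm).2.2
    have h2 := (hy n).2.2
    show 2 * y n - y₀ < 2 * y m - y₀
    omega
  · intro n m hnm
    obtain ⟨h1, h2, h3⟩ := hr n m hnm
    have h4 := (hy n).2.2
    constructor
    · rw [← h2]; congr 1; beta_reduce; omega
    · rw [← h1]; congr 1; beta_reduce; omega

end Pool.Agent.S08639
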