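import Pool.Statements.S08652
import Pool.Agent.H.MP_4d2e6e_co.A

set_option autoImplicit false
open Pool Pool.MP_4d2e6e_co

namespace Pool.Agent.S08652

/-- The negation of the preceding statement: Every finite graph with at least one edge and no K5 or K3,3 minor (i.e. planar) has at most maxdegree+1 edges whose deletion strictly increases the domination number. -/
theorem result :
    ¬ (∀ (V : Type) [Fintype V] [DecidableEq V] (G : SimpleGraph V) [DecidableRel G.Adj],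
      G.edgeSet.Nonempty →
      (¬ ∃ f : Fin 5 → Set V,
          (∀ i, (G.induce (f i)).Connected) ∧
          (∀ i j, i ≠ j → Disjoint (f i) (f j)) ∧
          (∀ i j, i ≠ j → ∃ u ∈ f i, ∃ v ∈ f j, G.Adj u v)) →
      (¬ ∃ f : Fin 3 ⊕ Fin 3 → Set V,
          (∀ i, (G.induce (f i)).Connected) ∧
          (∀ i j, i ≠ j → Disjoint (f i) (f j)) ∧
          (∀ i j, (completeBipartiteGraph (Fin 3) (Fin 3)).Adj i j →
            ∃ u ∈ f i, ∃ v ∈ f j, G.Adj u v)) →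
      ∃ S : Finset (Sym2 V), (↑S : Set (Sym2 V)) ⊆ G.edgeSet ∧
        S.card ≤ G.maxDegree + 1 ∧
        sInf {k : ℕ | ∃ D : Finset V, D.card = k ∧ ∀ v, v ∈ D ∨ ∃ u ∈ D, G.Adj u v} <
        sInf {k : ℕ | ∃ D : Finset V, D.card = k ∧
          ∀ v, v ∈ D ∨ ∃ u ∈ D, (G.deleteEdges (↑S : Set (Sym2 V))).Adj u v}) := by
  intro h
  have md : H.MP_4d2e6e_co.G.maxDegree ≤ 3 :=
    SimpleGraph.maxDegree_le_of_forall_degree_le _ 3 H.MP_4d2e6e_co.deg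
  obtain ⟨S, -, hS, lt⟩ := h (Fin 24) H.MP_4d2e6e_co.G
    ⟨s(0, 1), by rw [SimpleGraph.mem_edgeSet]; decide +kernel⟩
    (Lib.helper4.Planar.no5 _ _ _ H.MP_4d2e6e_co.drawn)
    (fun ⟨f, a, b, c⟩ => Lib.helper4.Planar.no33 _ _ _ H.MP_4d2e6e_co.drawn
      ⟨f, a, b, fun i j => c _ _ (by simp)⟩)
  obtain ⟨D, hD, hd⟩ := H.MP_4d2e6e_co.up S (by omega)
  have u := Nat.sInf_le (s := {k : ℕ | ∃ D : Finset (Fin 24), D.card = k ∧
    ∀ v, v ∈ D ∨ ∃ u ∈ D, (H.MP_4d2e6e_co.G.deleteEdges (↑S : Set (Sym2 (Fin 24)))).Adj u v})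
    ⟨D, rfl, hd⟩
  obtain ⟨E, e1, e2⟩ := Nat.sInf_mem (s := {k : ℕ | ∃ D : Finset (Fin 24), D.card = k ∧
    ∀ v, v ∈ D ∨ ∃ u ∈ D, H.MP_4d2e6e_co.G.Adj u v})
    ⟨_, Finset.univ, rfl, fun v => Or.inl (Finset.mem_univ v)⟩
  have := H.MP_4d2e6e_co.low E e2
  omega

end Pool.Agent.S08652
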