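import Pool.Statements.S08674
import Pool.Agent.H.MP_4e0707_co.A

set_option autoImplicit false
open Classical
open Pool Pool.MP_4e0707_co

namespace Pool.Agent.S08674

open Finset Pool.Agent.H.MP_4e0707_co

abbrev E (n : ℕ) := Fin n ⊕ (Fin n ⊕ Fin n)

def Ind {n : ℕ} (k r : ℕ) (I : Finset (E n)) : Prop :=
  I.toLeft.card ≤ k ∧ (I.toRight.toLeft ∩ I.toRight.toRight).card ≤ k ∧
    I.toLeft.card + (I.toRight.toLeft ∩ I.toRight.toRight).card ≤ r

lemma ind_sub {n k r : ℕ} ⦃I J : Finset (E n)⦄ (hJ : Ind k r J) (h : I ⊆ J) : Ind k r I := by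
  have h1 := card_le_card (toLeft_subset_toLeft h)
  have h2 := card_le_card (inter_subset_inter (toLeft_subset_toLeft (toRight_subset_toRight h))
    (toRight_subset_toRight (toRight_subset_toRight h)))
  unfold Ind at *
  omega

lemma ind_aug {n k r : ℕ} ⦃I J : Finset (E n)⦄ (hI : Ind k r I) (hJ : Ind k r J)
    (h : I.card < J.card) : ∃ e ∈ J, e ∉ I ∧ Ind k r (insert e I) := by
  have insB : ∀ x : Fin n, ((insert x I.toRight.toLeft) ∩ I.toRight.toRight).card ≤
      (I.toRight.toLeft ∩ I.toRight.toRight).card + 1 := by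
    intro x
    refine le_trans (card_le_card ?_) (card_insert_le x _)
    intro y; simp only [mem_inter, mem_insert]; tauto
  have insC : ∀ x : Fin n, (I.toRight.toLeft ∩ (insert x I.toRight.toRight)).card ≤
      (I.toRight.toLeft ∩ I.toRight.toRight).card + 1 := by
    intro x
    refine le_trans (card_le_card ?_) (card_insert_le x _)
    intro y; simp only [mem_inter, mem_insert]; tauto
  by_cases h1 : J.toRight.toLeft ∪ J.toRight.toRight ⊆ I.toRight.toLeft ∪ I.toRight.toRight
  · have c1 := card_le_card h1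
    have c2 := card_toLeft_add_card_toRight (u := I)
    have c3 := card_toLeft_add_card_toRight (u := J)
    have c4 := card_toLeft_add_card_toRight (u := I.toRight)
    have c5 := card_toLeft_add_card_toRight (u := J.toRight)
    have c6 := card_union_add_card_inter I.toRight.toLeft I.toRight.toRight
    have c7 := card_union_add_card_inter J.toRight.toLeft J.toRight.toRight
    by_cases h2 : (I.toRight.toLeft ∩ I.toRight.toRight).card <
        (J.toRight.toLeft ∩ J.toRight.toRight).card
    · obtain ⟨x, hx, hx'⟩ := exists_mem_notMem_of_card_lt_card h2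
      rw [mem_inter] at hx hx'
      by_cases h3 : x ∈ I.toRight.toLeft
      · refine ⟨.inr (.inr x), by simpa using hx.2, by simpa using fun h => hx' ⟨h3, by simpa using h⟩, ?_⟩
        have := insC x
        unfold Ind at *
        simp only [toLeft_insert_inr, toRight_insert_inr]
        omega
      · refine ⟨.inr (.inl x), by simpa using hx.1, by simpa using h3, ?_⟩
        have := insB x
        unfold Ind at *
        simp only [toLeft_insert_inr, toRight_insert_inr, toLeft_insert_inl, toRight_insert_inl]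
        omega
    · have h3 : I.toLeft.card < J.toLeft.card := by omega
      obtain ⟨x, hx, hx'⟩ := exists_mem_notMem_of_card_lt_card h3
      refine ⟨.inl x, by simpa using hx, by simpa using hx', ?_⟩
      have := card_insert_le x I.toLeft
      unfold Ind at *
      simp only [toLeft_insert_inl, toRight_insert_inl]
      omega
  · obtain ⟨x, hx, hx'⟩ := not_subset.1 h1
    rw [mem_union] at hx hx'
    push Not at hx'
    rcases hx with hx | hx
    · refine ⟨.inr (.inl x), by simpa using hx, by simpa using hx'.1, ?_⟩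
      unfold Ind at *
      simp only [toLeft_insert_inr, toRight_insert_inr, toLeft_insert_inl, toRight_insert_inl]
      rw [insert_inter_of_notMem hx'.2]
      exact hI
    · refine ⟨.inr (.inr x), by simpa using hx, by simpa using hx'.2, ?_⟩
      unfold Ind at *
      simp only [toLeft_insert_inr, toRight_insert_inr]
      rw [inter_insert_of_notMem hx'.1]
      exact hI

noncomputable def Mat (n k r : ℕ) : Matroid (E n) :=
  (IndepMatroid.ofFinset Set.univ (Ind k r) (by unfold Ind; exact ⟨Nat.zero_le _, Nat.zero_le _, Nat.zero_le _⟩) ind_sub ind_aug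
    (fun _ _ => Set.subset_univ _)).matroid

lemma Mat_indep {n k r : ℕ} (I : Finset (E n)) : (Mat n k r).Indep I ↔ Ind k r I := by
  unfold Mat
  rw [IndepMatroid.matroid_indep_iff, IndepMatroid.ofFinset_indep]

lemma Mat_E {n k r : ℕ} : (Mat n k r).E = Set.univ := rfl

lemma sumA (n : ℕ) (w : ℕ → ℂ) :
    ∑ A : Finset (Fin n), w A.card = ∑ i ∈ range (n + 1), (n.choose i : ℂ) * w i := by
  have := sum_powerset_apply_card w (x := (univ : Finset (Fin n)))
  simpa using this

lemma sumBC (n : ℕ) (u : ℂ) (w : ℕ → ℂ) :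
    ∑ B : Finset (Fin n), ∑ C : Finset (Fin n), w (B ∩ C).card * u ^ (B.card + C.card) =
      ∑ j ∈ range (n + 1), (n.choose j : ℂ) * (w j * ((u ^ 2) ^ j * (1 + 2 * u) ^ (n - j))) := by
  rw [← sumA n (fun j => w j * ((u ^ 2) ^ j * (1 + 2 * u) ^ (n - j))), ← sum_product']
  rw [← sum_fiberwise_of_maps_to (s := univ ×ˢ univ) (t := univ)
    (g := fun x : Finset (Fin n) × Finset (Fin n) => x.1 ∩ x.2) (fun _ _ => mem_univ _)]
  apply sum_congr rfl
  intro T _
  have h1 : (1 + 2 * u) ^ (n - T.card) =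
      ∑ B ∈ Tᶜ.powerset, ∑ C ∈ (Tᶜ \ B).powerset, u ^ (B.card + C.card) := by
    have e1 : n - T.card = Tᶜ.card := by simp [card_compl]
    rw [e1, show 1 + 2 * u = u + (u + 1) by ring, ← sum_pow_mul_eq_add_pow]
    apply sum_congr rfl
    intro B hB
    rw [← card_sdiff_of_subset (mem_powerset.1 hB), ← sum_pow_mul_eq_add_pow, mul_sum]
    apply sum_congr rfl
    intro C _
    rw [pow_add]; simp
  rw [h1, sum_sigma', mul_sum, mul_sum]
  symm
  apply sum_bij (fun x _ => (x.1 ∪ T, x.2 ∪ T))
  · rintro ⟨B, C⟩ hx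
    simp only [mem_sigma, mem_powerset] at hx
    simp only [mem_filter, mem_product, mem_univ, true_and]
    ext y
    have := @hx.2 y
    simp only [mem_inter, mem_union, mem_sdiff] at *
    tauto
  · rintro ⟨B, C⟩ hx ⟨B', C'⟩ hx' h
    simp only [mem_sigma, mem_powerset, Prod.mk.injEq] at hx hx' h
    have hB : B = B' := by
      ext y
      have := @hx.1 y; have := @hx'.1 y; have := Finset.ext_iff.1 h.1 y
      simp only [mem_union, mem_compl] at *
      tauto
    have hC : C = C' := by
      ext y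
      have := @hx.2 y; have := @hx'.2 y; have := Finset.ext_iff.1 h.2 y
      simp only [mem_union, mem_compl, mem_sdiff] at *
      tauto
    subst hB hC; rfl
  · rintro ⟨B, C⟩ hx
    simp only [mem_filter, mem_product, mem_univ, true_and] at hx
    subst hx
    refine ⟨⟨B \ C, C \ B⟩, ?_, ?_⟩
    · simp only [mem_sigma, mem_powerset]
      constructor <;> intro y <;> simp only [mem_compl, mem_inter, mem_sdiff] <;> tauto
    · simp only [Prod.mk.injEq]
      constructor <;> ext y <;> simp only [mem_union, mem_inter, mem_sdiff] <;> tauto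
  · rintro ⟨B, C⟩ hx
    simp only [mem_sigma, mem_powerset] at hx
    have e : (B ∪ T) ∩ (C ∪ T) = T := by
      ext y
      have := @hx.2 y
      simp only [mem_inter, mem_union, mem_sdiff] at *
      tauto
    have d1 : Disjoint B T := by
      rw [disjoint_left]; intro y hy; simpa using hx.1 hy
    have d2 : Disjoint C T := by
      rw [disjoint_left]; intro y hy; have := hx.2 hy; simp only [mem_sdiff, mem_compl] at this; exact this.1
    simp only [e, card_union_of_disjoint d1, card_union_of_disjoint d2]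
    ring

lemma sumE {α β : Type} [Fintype α] [Fintype β] [DecidableEq α] [DecidableEq β]
    (f : Finset α → Finset β → ℂ) :
    ∑ I : Finset (α ⊕ β), f I.toLeft I.toRight = ∑ A, ∑ B, f A B := by
  rw [← Fintype.sum_prod_type']
  exact Fintype.sum_equiv sumEquiv.toEquiv _ _ (fun _ => rfl)

lemma indpoly (n k r : ℕ) (u : ℂ) :
    ∑ I : Finset (E n), (if Ind k r I then u ^ I.card else 0) =
      ∑ i ∈ range (n + 1), ∑ j ∈ range (n + 1), if i ≤ k ∧ j ≤ k ∧ i + j ≤ r then
        (n.choose i : ℂ) * u ^ i * ((n.choose j : ℂ) * ((u ^ 2) ^ j * (1 + 2 * u) ^ (n - j))) else 0 := by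
  have h1 := sumE (fun (A : Finset (Fin n)) (R : Finset (Fin n ⊕ Fin n)) =>
    u ^ A.card * ((if A.card ≤ k ∧ (R.toLeft ∩ R.toRight).card ≤ k ∧
      A.card + (R.toLeft ∩ R.toRight).card ≤ r then 1 else 0) * u ^ (R.toLeft.card + R.toRight.card)))
  have h2 : ∀ A : Finset (Fin n), ∑ R : Finset (Fin n ⊕ Fin n),
      u ^ A.card * ((if A.card ≤ k ∧ (R.toLeft ∩ R.toRight).card ≤ k ∧
      A.card + (R.toLeft ∩ R.toRight).card ≤ r then 1 else 0) * u ^ (R.toLeft.card + R.toRight.card)) =
      u ^ A.card * ∑ j ∈ range (n + 1), (n.choose j : ℂ) *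
        ((if A.card ≤ k ∧ j ≤ k ∧ A.card + j ≤ r then 1 else 0) *
          ((u ^ 2) ^ j * (1 + 2 * u) ^ (n - j))) := by
    intro A
    rw [← mul_sum, ← sumBC n u (fun j => if A.card ≤ k ∧ j ≤ k ∧ A.card + j ≤ r then 1 else 0),
      ← sumE]
  simp only [h2] at h1
  rw [sumA n (fun i => u ^ i * ∑ j ∈ range (n + 1), (n.choose j : ℂ) *
        ((if i ≤ k ∧ j ≤ k ∧ i + j ≤ r then 1 else 0) *
          ((u ^ 2) ^ j * (1 + 2 * u) ^ (n - j))))] at h1
  convert h1 using 2 with I _ i _
  · rw [card_toLeft_add_card_toRight, ← card_toLeft_add_card_toRight (u := I), pow_add]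
    unfold Ind
    split_ifs <;> simp
  · rw [mul_sum, mul_sum]
    apply sum_congr rfl
    intro j _
    split_ifs <;> ring

lemma indzero (p m n : ℕ) (hn : 0 < n) (t : ℂ) (h0 : t ≠ 0) (h2 : t - 2 ≠ 0) (hF : F p m n t = 0) :
    ∑ I : Finset (E n), (if Ind (p + m) (2 * p + m) I then (t - 2)⁻¹ ^ I.card else 0) = 0 := by
  rw [indpoly, ← sum_product', ← sum_filter]
  set u := (t - 2)⁻¹ with hu
  have hu0 : u ≠ 0 := inv_ne_zero h2
  have hut : u * (t - 2) = 1 := inv_mul_cancel₀ h2
  have h12 : 1 + 2 * u = t * u := by linear_combination -hut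
  have hn' : (n : ℂ) ≠ 0 := by exact_mod_cast hn.ne'
  have hp : (p.factorial : ℂ) ≠ 0 := by exact_mod_cast p.factorial_ne_zero
  have hq : ((p + m).factorial : ℂ) ≠ 0 := by exact_mod_cast (p + m).factorial_ne_zero
  have key : (p.factorial * (p + m).factorial : ℂ) * t ^ (p + m) *
      ∑ x ∈ (range (n + 1) ×ˢ range (n + 1)).filter
        (fun x => x.1 ≤ p + m ∧ x.2 ≤ p + m ∧ x.1 + x.2 ≤ 2 * p + m),
        (n.choose x.1 : ℂ) * u ^ x.1 * ((n.choose x.2 : ℂ) * ((u ^ 2) ^ x.2 * (1 + 2 * u) ^ (n - x.2))) =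
      (n : ℂ) ^ (2 * p + m) * u ^ (2 * p + m) * (t * u) ^ n * F p m n t := by
    unfold F
    rw [mul_sum, mul_sum]
    refine Eq.trans ?_ (sum_subset (s₁ := (range (n + 1) ×ˢ range (n + 1)).filter
        (fun x => x.1 ≤ p + m ∧ x.2 ≤ p + m ∧ x.1 + x.2 ≤ 2 * p + m)) ?_ ?_)
    · apply sum_congr rfl
      rintro ⟨i, j⟩ hx
      simp only [mem_filter, mem_product, mem_range] at hx
      obtain ⟨a, ha⟩ : ∃ a, 2 * p + m = i + j + a := ⟨2 * p + m - (i + j), by omega⟩
      obtain ⟨b, hb⟩ : ∃ b, p + m = j + b := ⟨p + m - j, by omega⟩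
      obtain ⟨c, hc⟩ : ∃ c, n = j + c := ⟨n - j, by omega⟩
      have e1 : 2 * p + m - (i + j) = a := by omega
      have e2 : p + m - j = b := by omega
      have e3 : n - j = c := by omega
      simp only [e1, e2, e3, h12]
      have e4 : (t * u) ^ n = (t * u) ^ j * (t * u) ^ c := by rw [← pow_add, ← hc]
      have e5 : t ^ (p + m) = t ^ j * t ^ b := by rw [← pow_add, ← hb]
      have e6 : (u * (t - 2)) ^ a = 1 := by rw [hut, one_pow]
      rw [e4, e5, ha]
      push_cast
      generalize (t - 2) = s at *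
      have e7 : (n : ℂ) ^ (i + j + a) * ((1 / (n : ℂ)) ^ i * (1 / (n : ℂ)) ^ j * (1 / (n : ℂ)) ^ a) = 1 := by
        rw [← pow_add, ← pow_add, ← mul_pow]; simp [hn']
      rw [mul_pow] at e6
      generalize (n : ℂ) ^ (i + j + a) = N at *
      simp only [pow_add, mul_pow, pow_two]
      linear_combination (-(p.factorial * (p + m).factorial : ℂ) * t ^ j * t ^ b * (n.choose i : ℂ) *
        u ^ i * (n.choose j : ℂ) * u ^ j * u ^ j * t ^ c * u ^ c) * (e7 * (u ^ a * s ^ a) + e6)
    · rintro ⟨i, j⟩ hx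
      simp only [mem_filter, mem_product, mem_range] at hx ⊢
      omega
    · rintro ⟨i, j⟩ hx hx'
      simp only [mem_filter, mem_product, mem_range] at hx hx'
      by_cases hi : n < i
      · simp [Nat.choose_eq_zero_of_lt hi]
      · have hj : n < j := by omega
        simp [Nat.choose_eq_zero_of_lt hj]
  rw [hF, mul_zero] at key
  exact (mul_eq_zero.1 key).resolve_left (mul_ne_zero (mul_ne_zero hp hq) (pow_ne_zero _ h0))


theorem result :
    ¬ (∃ C : ℝ, ∀ (n : ℕ) (M : Matroid (Fin n)), M.E = Set.univ →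
      ∀ z : ℂ,
        (∑ S : Finset (Fin n),
          (if M.Spanning (↑S : Set (Fin n)) then
            z ^ (Finset.card S) * (1 - z) ^ (n - Finset.card S) else 0)) = 0 →
        ‖z‖ ≤ C) := by
  rintro ⟨C, h⟩
  obtain ⟨p, m, n, hn, t, ht, ht1, hF⟩ := exists_root (1 / (|C| + 2)) (by positivity)
  have hC : 0 ≤ |C| := abs_nonneg C
  have ht' : ‖t - 1‖ * (|C| + 2) < 1 := by rwa [lt_div_iff₀ (by positivity)] at ht
  have hpos : 0 < ‖t - 1‖ := norm_pos_iff.2 (sub_ne_zero.2 ht1)
  have h0 : t ≠ 0 := by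
    rintro rfl
    simp at ht'; linarith
  have h2 : t - 2 ≠ 0 := by
    intro h2
    have : t - 1 = 1 := by linear_combination h2
    rw [this] at ht'; simp at ht'; linarith
  have h1 : t - 1 ≠ 0 := sub_ne_zero.2 ht1
  have hz := indzero p m n hn t h0 h2 hF
  let e : E n ≃ Fin (Fintype.card (E n)) := Fintype.equivFin _
  set N := Fintype.card (E n) with hN
  set z : ℂ := (t - 2) / (t - 1) with hzdef
  have hz1 : 1 - z = z * (t - 2)⁻¹ := by rw [hzdef]; field_simp; ring
  have hE : ((Mat n (p + m) (2 * p + m)).mapEquiv e)✶.E = Set.univ := by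
    simp [Mat_E]
  have := h N ((Mat n (p + m) (2 * p + m)).mapEquiv e)✶ hE z (by
    have hz' := congrArg (fun y => z ^ N * y) hz
    simp only [mul_zero] at hz'
    refine Eq.trans ?_ hz'
    rw [mul_sum]
    symm
    apply Fintype.sum_equiv ((Equiv.finsetCongr e).trans (Function.Involutive.toPerm _ compl_involutive))
    intro I
    have hs : ((Mat n (p + m) (2 * p + m)).mapEquiv e)✶.Spanning ((I.map e.toEmbedding)ᶜ : Finset _) ↔
        Ind (p + m) (2 * p + m) I := by
      rw [Matroid.spanning_iff_compl_coindep (by rw [hE]; exact Set.subset_univ _),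
        Matroid.dual_coindep_iff, hE, Matroid.mapEquiv_indep_iff, ← Mat_indep]
      apply iff_of_eq
      congr 1
      ext x
      simp
    have hc : I.card ≤ N := card_le_univ I
    simp only [Equiv.trans_apply, Equiv.finsetCongr_apply, Function.Involutive.coe_toPerm, hs,
      card_compl, card_map, Fintype.card_fin]
    split_ifs
    · rw [Nat.sub_sub_self hc, hz1, mul_pow, ← mul_assoc, ← pow_add, Nat.sub_add_cancel hc]
    · simp)
  rw [hzdef, norm_div, div_le_iff₀ hpos] at this
  have h3 : 1 ≤ ‖t - 2‖ + ‖t - 1‖ := by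
    have := norm_sub_le (t - 1) (t - 2)
    rw [show t - 1 - (t - 2) = 1 by ring, norm_one] at this
    linarith
  have h4 : C * ‖t - 1‖ ≤ |C| * ‖t - 1‖ := mul_le_mul_of_nonneg_right (le_abs_self C) hpos.le
  nlinarith

end Pool.Agent.S08674
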