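import Pool.Statements.S08682

set_option autoImplicit false
open Pool Pool.MP_4e5a55_co

namespace Pool.Agent.S08682

open Filter Topology

def sg : Fin 6 → Fin 5 → ℤ := ![![1, 1, 1, 1, 1], ![1, -1, 1, 1, 1], ![1, 1, 1, -1, 1], ![1, -1, 1, -1, 1], ![-1, 1, 1, 1, 1], ![-1, 1, 1, 1, 1]]
def cc : Fin 6 → Fin 5 → ℤ := ![![1, 3, 5, 7, 9], ![5, 3, 1, 7, 9], ![1, 3, 9, 7, 5], ![9, 3, 1, 7, 5], ![3, 5, 7, 9, 1], ![5, 7, 9, 1, 3]]

theorem cover : ∀ w : Fin 5 → Bool, ∃ i : Fin 6, ∃ k : Fin 6, ∀ j,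
    (w j = true → 1 ≤ sg i j * (2 * (k.val : ℤ) - cc i j)) ∧
    (w j = false → sg i j * (2 * (k.val : ℤ) - cc i j) ≤ -1) := by decide +kernel

theorem sg_sq : ∀ i j, sg i j = 1 ∨ sg i j = -1 := by decide +kernel

theorem far : ∀ i, ∃ j j', cc i j = 1 ∧ cc i j' = 3 := by decide +kernel

theorem illum (x y : Fin 5 → ℝ) (hx : ∀ j, 0 ≤ x j ∧ x j ≤ 1)
    (h0 : ∀ j, x j = 0 → y j < 0) (h1 : ∀ j, x j = 1 → 1 < y j) :
    ∃ t : ℝ, 0 < t ∧ ∀ j, 0 < (x + t • (x - y)) j ∧ (x + t • (x - y)) j < 1 := by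
  have hc : ∀ j, Tendsto (fun t : ℝ => x j + t * (x j - y j)) (𝓝[>] 0) (𝓝 (x j)) := by
    intro j
    have : Continuous (fun t : ℝ => x j + t * (x j - y j)) := by fun_prop
    have h2 := (this.tendsto 0).mono_left (nhdsWithin_le_nhds (s := Set.Ioi 0))
    simpa using h2
  have hpos : ∀ᶠ t : ℝ in 𝓝[>] 0, 0 < t := self_mem_nhdsWithin
  have hall : ∀ᶠ t : ℝ in 𝓝[>] 0, ∀ j, 0 < x j + t * (x j - y j) ∧ x j + t * (x j - y j) < 1 := by
    rw [eventually_all]
    intro j
    apply Eventually.and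
    · rcases (hx j).1.eq_or_lt with h | h
      · filter_upwards [hpos] with t ht
        have := h0 j h.symm
        rw [← h]
        nlinarith
      · exact (hc j).eventually (lt_mem_nhds h)
    · rcases (hx j).2.eq_or_lt with h | h
      · filter_upwards [hpos] with t ht
        have := h1 j h
        rw [h]
        nlinarith
      · exact (hc j).eventually (gt_mem_nhds h)
  obtain ⟨t, ht, ht2⟩ := (hpos.and hall).exists
  exact ⟨t, ht, fun j => by simpa using ht2 j⟩

noncomputable def aa (i : Fin 6) : Fin 5 → ℝ := fun j => 1 / 2 - (sg i j : ℝ) * (cc i j : ℝ)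
noncomputable def bb (i : Fin 6) : Fin 5 → ℝ := fun j => (sg i j : ℝ)
noncomputable def LL (i : Fin 6) : AffineSubspace ℝ (Fin 5 → ℝ) :=
  AffineSubspace.mk' (aa i) (Submodule.span ℝ {bb i})

theorem mem_LL (i : Fin 6) (y : Fin 5 → ℝ) :
    y ∈ LL i ↔ ∃ s : ℝ, ∀ j, y j = 1 / 2 + (sg i j : ℝ) * (s - cc i j) := by
  rw [LL, AffineSubspace.mem_mk', Submodule.mem_span_singleton]
  constructor
  · rintro ⟨s, hs⟩
    refine ⟨s, fun j => ?_⟩
    have := congrFun hs j
    simp only [Pi.smul_apply, smul_eq_mul, vsub_eq_sub, Pi.sub_apply, aa, bb] at this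
    linarith
  · rintro ⟨s, hs⟩
    refine ⟨s, funext fun j => ?_⟩
    have := hs j
    simp only [Pi.smul_apply, smul_eq_mul, vsub_eq_sub, Pi.sub_apply, aa, bb]
    linarith

def dec (v : ℕ) : Fin 5 → Bool := fun j => v.testBit j.val
def enc (c : Fin 5 → Bool) : ℕ :=
  (c 0).toNat + 2 * (c 1).toNat + 4 * (c 2).toNat + 8 * (c 3).toNat + 16 * (c 4).toNat
def ball (c : ℕ) : ℕ :=
  2 ^ c ||| 2 ^ (c ^^^ 1) ||| 2 ^ (c ^^^ 2) ||| 2 ^ (c ^^^ 4) ||| 2 ^ (c ^^^ 8) ||| 2 ^ (c ^^^ 16)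
def nbs : List ℕ := [0, 1, 2, 4, 8, 16]

def force (m : ℕ) (f : ℕ → Bool) : Bool := Nat.casesOn m (f 0) (fun n => f n.succ)
theorem force_eq (m : ℕ) (f : ℕ → Bool) : force m f = f m := by cases m <;> rfl
def pts : List ℕ :=
  [0,1,2,3,4,5,6,7,8,9,10,11,12,13,14,15,16,17,18,19,20,21,22,23,24,25,26,27,28,29,30,31]
theorem pts_eq : pts = List.range 32 := by decide

def chk : ℕ → ℕ → Bool
  | 0, m => !(Nat.beq (Nat.land m 4294967295) 4294967295)
  | k + 1, m =>
    match pts.find? (fun v => !(m.testBit v)) with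
    | none => false
    | some v => nbs.all (fun nb => force (Nat.lor m (ball (v ^^^ nb))) (chk k))

theorem factF : ∀ v ∈ List.range 32, ∀ c : Fin 5 → Bool, hammingDist (dec v) c ≤ 1 →
    (ball (enc c)).testBit v = true ∧ ∃ nb ∈ nbs, enc c = v ^^^ nb := by decide +kernel

theorem sound : ∀ k m, chk k m = true → ∀ C : Finset (Fin 5 → Bool), C.card ≤ k →
    ∃ v ∈ List.range 32, m.testBit v = false ∧ ∀ c ∈ C, ¬ hammingDist (dec v) c ≤ 1 := by
  intro k
  induction k with
  | zero =>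
    intro m h C hC
    rw [chk] at h
    have hex : ∃ v ∈ List.range 32, m.testBit v = false := by
      by_contra hno
      push Not at hno
      have : Nat.land m 4294967295 = 4294967295 := by
        apply Nat.eq_of_testBit_eq
        intro i
        show (m &&& (2 ^ 32 - 1)).testBit i = (2 ^ 32 - 1).testBit i
        rw [Nat.testBit_and, Nat.testBit_two_pow_sub_one]
        by_cases hi : i < 32
        · have := hno i (List.mem_range.2 hi)
          simp [hi, this]
        · simp [hi]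
      rw [this] at h
      exact absurd h (by decide)
    obtain ⟨v, hv, h2⟩ := hex
    refine ⟨v, hv, h2, ?_⟩
    have : C = ∅ := Finset.card_eq_zero.1 (by omega)
    simp [this]
  | succ k ih =>
    intro m h C hC
    rw [chk, pts_eq] at h
    rcases hf : (List.range 32).find? (fun v => !(m.testBit v)) with _ | v
    · rw [hf] at h
      simp at h
    · rw [hf] at h
      simp only [List.all_eq_true] at h
      have hv := List.mem_of_find?_eq_some hf
      have hv2 := List.find?_some hf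
      by_cases hex : ∃ c ∈ C, hammingDist (dec v) c ≤ 1
      · obtain ⟨c, hc, hd⟩ := hex
        obtain ⟨-, nb, hnb, he⟩ := factF v hv c hd
        have h3 := h nb hnb
        rw [← he, force_eq] at h3
        obtain ⟨u, hu, hu2, hu3⟩ := ih _ h3 (C.erase c) (by
          rw [Finset.card_erase_of_mem hc]; omega)
        change (m ||| ball (enc c)).testBit u = false at hu2
        rw [Nat.testBit_or, Bool.or_eq_false_iff] at hu2
        refine ⟨u, hu, hu2.1, fun c' hc' hd' => ?_⟩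
        by_cases hcc : c' = c
        · subst hcc
          have := (factF u hu c' hd').1
          rw [hu2.2] at this
          exact absurd this (by simp)
        · exact hu3 c' (Finset.mem_erase.2 ⟨hcc, hc'⟩) hd'
      · push Not at hex
        exact ⟨v, hv, by simpa using hv2, fun c hc => not_le.2 (hex c hc)⟩

theorem chk6 : chk 6 0 = true := by decide +kernel

theorem result :
    ¬ (∀ d l : ℕ, l < d →
      sInf {n : ℕ | ∃ L : Fin n → AffineSubspace ℝ (Fin d → ℝ),
          (∀ i, Module.finrank ℝ (L i).direction = l ∧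
              ∀ y ∈ L i, ¬ (∀ j, 0 ≤ y j ∧ y j ≤ 1)) ∧
          ∀ x : Fin d → ℝ, (∀ j, 0 ≤ x j ∧ x j ≤ 1) → ¬ (∀ j, 0 < x j ∧ x j < 1) →
            ∃ i, ∃ y ∈ L i, ∃ t : ℝ, 0 < t ∧
              ∀ j, 0 < (x + t • (x - y)) j ∧ (x + t • (x - y)) j < 1}
        =
      sInf {n : ℕ | ∃ C : Finset (Fin d → Bool), C.card = n ∧
          ∀ w : Fin d → Bool, ∃ c ∈ C, hammingDist w c ≤ l}) := by
  intro h
  have h5 := h 5 1 (by norm_num)
  have hle : sInf {n : ℕ | ∃ L : Fin n → AffineSubspace ℝ (Fin 5 → ℝ),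
          (∀ i, Module.finrank ℝ (L i).direction = 1 ∧
              ∀ y ∈ L i, ¬ (∀ j, 0 ≤ y j ∧ y j ≤ 1)) ∧
          ∀ x : Fin 5 → ℝ, (∀ j, 0 ≤ x j ∧ x j ≤ 1) → ¬ (∀ j, 0 < x j ∧ x j < 1) →
            ∃ i, ∃ y ∈ L i, ∃ t : ℝ, 0 < t ∧
              ∀ j, 0 < (x + t • (x - y)) j ∧ (x + t • (x - y)) j < 1} ≤ 6 := by
    apply Nat.sInf_le
    refine ⟨LL, fun i => ⟨?_, ?_⟩, ?_⟩
    · rw [LL, AffineSubspace.direction_mk']
      apply finrank_span_singleton
      intro h0
      have := congrFun h0 0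
      rcases sg_sq i 0 with h1 | h1 <;> simp [bb, h1] at this
    · intro y hy hcube
      obtain ⟨s, hs⟩ := (mem_LL i y).1 hy
      obtain ⟨j, j', hj, hj'⟩ := far i
      have e1 := hs j
      have e2 := hs j'
      have c1 := hcube j
      have c2 := hcube j'
      rw [hj] at e1
      rw [hj'] at e2
      rcases sg_sq i j with h1 | h1 <;> rcases sg_sq i j' with h2 | h2 <;>
        rw [h1] at e1 <;> rw [h2] at e2 <;> push_cast at e1 e2 <;> linarith [c1.1, c1.2, c2.1, c2.2]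
    · intro x hx _
      classical
      obtain ⟨i, k, hk⟩ := cover (fun j => decide (x j = 1))
      refine ⟨i, fun j => 1 / 2 + (sg i j : ℝ) * (2 * (k.val : ℝ) - cc i j),
        (mem_LL i _).2 ⟨2 * (k.val : ℝ), fun j => rfl⟩, illum x _ hx ?_ ?_⟩
      · intro j hj
        have := (hk j).2 (by simp [hj])
        have h2 : (sg i j : ℝ) * (2 * (k.val : ℝ) - cc i j) ≤ -1 := by exact_mod_cast this
        linarith
      · intro j hj
        have := (hk j).1 (by simp [hj])
        have h2 : 1 ≤ (sg i j : ℝ) * (2 * (k.val : ℝ) - cc i j) := by exact_mod_cast this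
        linarith
  rw [h5] at hle
  have hne : {n : ℕ | ∃ C : Finset (Fin 5 → Bool), C.card = n ∧
          ∀ w : Fin 5 → Bool, ∃ c ∈ C, hammingDist w c ≤ 1}.Nonempty :=
    ⟨_, Finset.univ, rfl, fun w => ⟨w, Finset.mem_univ _, by simp⟩⟩
  obtain ⟨C, hC, hcov⟩ := Nat.sInf_mem hne
  obtain ⟨v, -, -, hv⟩ := sound 6 0 chk6 C (by omega)
  obtain ⟨c, hc, hd⟩ := hcov (dec v)
  exact hv c hc hd

end Pool.Agent.S08682
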