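import Pool.Statements.S08686
-- import your own Pool.Agent.* helpers here

set_option autoImplicit false
open Pool Pool.MP_4e7ec3_co

namespace Pool.Agent.S08686

/-- The points 0/17, ..., 17/17 form three blocks of six; inside a block the first three points
go to the middle one of the last three, and conversely. No chain of steps leaves its block. -/
def t (m : ℕ) : ℕ := if m % 6 < 3 then m / 6 * 6 + 4 else m / 6 * 6 + 1

noncomputable def F : Finset ℝ := (Finset.range 18).image (fun m : ℕ => (m : ℝ) / 17)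

noncomputable def T (x : ℝ) : ℝ := (t ⌊17 * x⌋₊ : ℝ) / 17

theorem T_eq (m : ℕ) : T ((m : ℝ) / 17) = (t m : ℝ) / 17 := by
  unfold T
  rw [show 17 * ((m : ℝ) / 17) = m by ring, Nat.floor_natCast]

theorem mem_F {x : ℝ} : x ∈ F ↔ ∃ m : ℕ, m < 18 ∧ x = (m : ℝ) / 17 := by
  simp [F, eq_comm]

theorem cast_lt {a b : ℕ} : (a : ℝ) / 17 < (b : ℝ) / 17 ↔ a < b := by
  rw [div_lt_div_iff_of_pos_right (by norm_num), Nat.cast_lt]

theorem cast_le {a b : ℕ} : (a : ℝ) / 17 ≤ (b : ℝ) / 17 ↔ a ≤ b := by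
  rw [div_le_div_iff_of_pos_right (by norm_num), Nat.cast_le]

theorem t_spec (m : ℕ) (hm : m < 18) : t m + 1 < 18 ∧ 1 ≤ t m ∧ (t m - 1) / 6 = m / 6 ∧
    (t m + 1) / 6 = m / 6 ∧ (m + 2 ≤ t m ∨ t m + 2 ≤ m) := by
  unfold t
  split_ifs <;> omega

theorem result :
    ¬ (∃ k : ℝ, ∀ (F : Finset ℝ) (ε : ℝ) (T : ℝ → ℝ),
      (∀ p ∈ F, 0 ≤ p ∧ p ≤ 1) → (0 : ℝ) ∈ F → (1 : ℝ) ∈ F → 0 < ε →
      (∀ p ∈ F, T p ∈ F ∧ ε < |p - T p|) →
      ∃ p₀ ∈ F, ∃ n : ℕ, (n : ℝ) ≤ k / ε ∧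
        ∃ x : ℕ → ℝ, x 0 = p₀ ∧
          (∀ i < n,
            x (i + 1) = T (x i) ∨
            (x (i + 1) ∈ F ∧ x (i + 1) < T (x i) ∧
              ∀ r ∈ F, r < T (x i) → r ≤ x (i + 1)) ∨
            (x (i + 1) ∈ F ∧ T (x i) < x (i + 1) ∧
              ∀ r ∈ F, T (x i) < r → x (i + 1) ≤ r)) ∧
          1 / 3 ≤ |x n - p₀|) := by
  rintro ⟨k, h⟩
  obtain ⟨p₀, hp₀, n, -, x, hx0, hstep, hfar⟩ := h F (1 / 17) T
    (by
      intro p hp
      obtain ⟨m, hm, rfl⟩ := mem_F.1 hp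
      have : (m : ℝ) ≤ 17 := by exact_mod_cast Nat.lt_succ_iff.1 hm
      exact ⟨by positivity, by linarith⟩)
    (mem_F.2 ⟨0, by norm_num, by norm_num⟩) (mem_F.2 ⟨17, by norm_num, by norm_num⟩)
    (by norm_num)
    (by
      intro p hp
      obtain ⟨m, hm, rfl⟩ := mem_F.1 hp
      obtain ⟨h1, -, -, -, h5⟩ := t_spec m hm
      rw [T_eq]
      refine ⟨mem_F.2 ⟨t m, by omega, rfl⟩, ?_⟩
      rw [lt_abs]
      rcases h5 with h5 | h5
      · right
        have : (m : ℝ) + 2 ≤ t m := by exact_mod_cast h5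
        linarith
      · left
        have : (t m : ℝ) + 2 ≤ m := by exact_mod_cast h5
        linarith)
  obtain ⟨m₀, hm₀, rfl⟩ := mem_F.1 hp₀
  have inv : ∀ i, i ≤ n → ∃ m : ℕ, m < 18 ∧ m / 6 = m₀ / 6 ∧ x i = (m : ℝ) / 17 := by
    intro i
    induction i with
    | zero => intro _; exact ⟨m₀, hm₀, rfl, hx0⟩
    | succ i ih =>
      intro hi
      obtain ⟨m, hm, hb, hx⟩ := ih (by omega)
      obtain ⟨h1, h2, h3, h4, -⟩ := t_spec m hm
      have hs := hstep i (by omega)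
      rw [hx, T_eq] at hs
      rcases hs with hs | ⟨hF, hlt, hs⟩ | ⟨hF, hlt, hs⟩
      · exact ⟨t m, by omega, by omega, hs⟩
      · obtain ⟨m', hm', hx'⟩ := mem_F.1 hF
        rw [hx'] at hlt hs
        have a1 := cast_lt.1 hlt
        have a2 := cast_le.1 (hs _ (mem_F.2 ⟨t m - 1, by omega, rfl⟩) (cast_lt.2 (by omega)))
        exact ⟨m', hm', by omega, hx'⟩
      · obtain ⟨m', hm', hx'⟩ := mem_F.1 hF
        rw [hx'] at hlt hs
        have a1 := cast_lt.1 hlt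
        have a2 := cast_le.1 (hs _ (mem_F.2 ⟨t m + 1, by omega, rfl⟩) (cast_lt.2 (by omega)))
        exact ⟨m', hm', by omega, hx'⟩
  obtain ⟨m, -, hb, hx⟩ := inv n le_rfl
  rw [hx, le_abs] at hfar
  have b1 : (m : ℝ) ≤ m₀ + 5 := by exact_mod_cast (show m ≤ m₀ + 5 by omega)
  have b2 : (m₀ : ℝ) ≤ m + 5 := by exact_mod_cast (show m₀ ≤ m + 5 by omega)
  rcases hfar with h | h <;> linarith

end Pool.Agent.S08686
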