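import Pool.Statements.S08692

set_option autoImplicit false
open Pool Pool.MP_4ee71e_co

namespace Pool.Agent.S08692

/-- binary value of a vertex of the cube -/
noncomputable def val {d : ℕ} (x : Fin d → Fin 2) : ℝ := ∑ i, ((x i : ℕ) : ℝ) * 2 ^ (i : ℕ)

def flip {d : ℕ} (j : Fin d) (x : Fin d → Fin 2) : Fin d → Fin 2 :=
  Function.update x j (Fin.rev (x j))

lemma val_inj {d : ℕ} : Function.Injective (val (d := d)) := by
  intro x y h
  have hx : val x = ((finFunctionFinEquiv x : ℕ) : ℝ) := by
    rw [finFunctionFinEquiv_apply]; simp [val]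
  have hy : val y = ((finFunctionFinEquiv y : ℕ) : ℝ) := by
    rw [finFunctionFinEquiv_apply]; simp [val]
  rw [hx, hy] at h
  have : finFunctionFinEquiv x = finFunctionFinEquiv y := Fin.ext (by exact_mod_cast h)
  exact finFunctionFinEquiv.injective this

lemma flip_flip {d : ℕ} (j : Fin d) (x : Fin d → Fin 2) : flip j (flip j x) = x := by
  funext i
  by_cases h : i = j
  · subst h; simp [flip]
  · simp [flip, Function.update_of_ne h]

lemma flip_inj {d : ℕ} (j : Fin d) : Function.Injective (flip (d := d) j) := by
  intro x y h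
  have := congrArg (flip j) h
  simpa [flip_flip] using this

lemma val_flip {d : ℕ} (j : Fin d) (x : Fin d → Fin 2) :
    val (flip j x) = val x + (1 - 2 * ((x j : ℕ) : ℝ)) * 2 ^ (j : ℕ) := by
  have h1 : val (flip j x) - val x = ∑ i, ((((flip j x) i : ℕ) : ℝ) - ((x i : ℕ) : ℝ)) * 2 ^ (i : ℕ) := by
    simp [val, sub_mul, Finset.sum_sub_distrib]
  rw [Finset.sum_eq_single j] at h1
  · have h2 : (((flip j x) j : ℕ) : ℝ) = 1 - ((x j : ℕ) : ℝ) := by
      simp only [flip, Function.update_self]
      generalize x j = t
      fin_cases t <;> simp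
    rw [h2] at h1
    linarith
  · intro i _ hi
    simp [flip, Function.update_of_ne hi]
  · simp

lemma fin2_ne {a b : Fin 2} (h : a ≠ b) : b = Fin.rev a := by
  fin_cases a <;> fin_cases b <;> simp_all

def cube (d : ℕ) : SimpleGraph (Fin d → Fin 2) where
  Adj x y := ∃ i, y = flip i x
  symm := ⟨by
    rintro x y ⟨i, rfl⟩
    exact ⟨i, (flip_flip i x).symm⟩⟩
  loopless := ⟨by
    rintro x ⟨i, h⟩
    have := congrFun h i
    simp only [flip, Function.update_self] at this
    revert this
    generalize x i = t
    fin_cases t <;> simp⟩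

lemma flip_comm {d : ℕ} (i j : Fin d) (x : Fin d → Fin 2) : flip i (flip j x) = flip j (flip i x) := by
  by_cases h : i = j
  · subst h; rfl
  · funext k
    simp only [flip, Function.update_apply]
    by_cases h1 : k = i
    · subst h1; simp [h]
    · by_cases h2 : k = j
      · subst h2; simp [h1]
      · simp [h1, h2]

lemma edge_len {d : ℕ} (i : Fin d) (x : Fin d → Fin 2) : |val x - val (flip i x)| = 2 ^ (i : ℕ) := by
  rw [val_flip]
  have : (0 : ℝ) < 2 ^ (i : ℕ) := by positivity
  generalize x i = t
  fin_cases t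
  · simp
  · simp only [Nat.cast_one]
    rw [abs_of_pos] <;> linarith

/-- if all the flipped placements give the same distance then the two vertices differ in at most one coordinate -/
lemma one_coord {d : ℕ} (x y : Fin d → Fin 2)
    (h : ∀ j, |val x - val y| = |val (flip j x) - val (flip j y)|) (i j : Fin d)
    (hi : x i ≠ y i) (hj : x j ≠ y j) : i = j := by
  have key : ∀ k, x k ≠ y k → |val x - val y| = 2 ^ (k : ℕ) := by
    intro k hk
    have h1 := h k
    rw [val_flip, val_flip] at h1
    have hp : (0 : ℝ) < 2 ^ (k : ℕ) := by positivity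
    have hy := fin2_ne hk
    rw [hy] at h1
    revert h1
    generalize x k = t
    intro h1
    fin_cases t
    · simp at h1
      rcases abs_eq_abs.mp h1 with h2 | h2
      · linarith
      · have : val x - val y = - 2 ^ (k : ℕ) := by linarith
        rw [this, abs_neg, abs_of_pos hp]
    · simp at h1
      rcases abs_eq_abs.mp h1 with h2 | h2
      · linarith
      · have : val x - val y = 2 ^ (k : ℕ) := by linarith
        rw [this, abs_of_pos hp]
  have h1 := key i hi
  have h2 := key j hj
  rw [h1] at h2
  have : (i : ℕ) = j := by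
    have h3 : ((2 ^ (i : ℕ) : ℕ) : ℝ) = ((2 ^ (j : ℕ) : ℕ) : ℝ) := by push_cast; exact h2
    have h4 : 2 ^ (i : ℕ) = 2 ^ (j : ℕ) := by exact_mod_cast h3
    exact Nat.pow_right_injective (le_refl 2) h4
  exact Fin.ext this

theorem result :
    ¬ (∃ c : ℝ, 0 < c ∧
      ∀ (n : ℕ) (G : SimpleGraph (Fin n)), G.edgeSet.Nonempty →
        ∃ H : G.Subgraph,
          (∀ f g : Fin n → ℝ, Set.InjOn f H.verts → Set.InjOn g H.verts →
            (∀ u v : Fin n, H.Adj u v → |f u - f v| = |g u - g v|) →
            ∀ u ∈ H.verts, ∀ v ∈ H.verts, |f u - f v| = |g u - g v|) ∧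
          c * (G.edgeSet.ncard : ℝ) / (n : ℝ) ≤ (H.verts.ncard : ℝ)) := by
  classical
  rintro ⟨c, hc, h⟩
  obtain ⟨d0, hd0⟩ := exists_nat_gt (4 / c)
  set d := d0 + 1 with hd
  let e : (Fin d → Fin 2) ≃ Fin (2 ^ d) := finFunctionFinEquiv
  let G : SimpleGraph (Fin (2 ^ d)) := (cube d).comap e.symm
  have hdeg : ∀ u, d ≤ G.degree u := by
    intro u
    rw [← SimpleGraph.card_neighborFinset_eq_degree]
    have : (Finset.univ : Finset (Fin d)).card ≤ (G.neighborFinset u).card := by
      apply Finset.card_le_card_of_injOn (fun i => e (flip i (e.symm u)))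
      · intro i _
        simp only [SimpleGraph.coe_neighborFinset, SimpleGraph.mem_neighborSet]
        exact ⟨i, by simp⟩
      · intro i _ j _ hij
        have h1 := e.injective hij
        by_contra hne
        have h2 := congrFun h1 i
        simp only [flip, Function.update_self, Function.update_of_ne hne] at h2
        revert h2
        generalize (e.symm u) i = t
        fin_cases t <;> simp
    simpa using this
  have hsum := G.sum_degrees_eq_twice_card_edges
  have hE : 2 ^ d * d ≤ 2 * G.edgeFinset.card := by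
    rw [← hsum]
    have := Finset.card_nsmul_le_sum (Finset.univ : Finset (Fin (2 ^ d))) (fun u => G.degree u) d
      (fun u _ => hdeg u)
    simpa using this
  have hEn : G.edgeSet.ncard = G.edgeFinset.card := by
    rw [← SimpleGraph.coe_edgeFinset, Set.ncard_coe_finset]
  have hpos : 0 < 2 ^ d * d := by positivity
  have hne : G.edgeSet.Nonempty := by
    apply Set.nonempty_of_ncard_ne_zero
    omega
  obtain ⟨H, hH, hcard⟩ := h (2 ^ d) G hne
  have hrig : ∀ u ∈ H.verts, ∀ v ∈ H.verts, ∀ i j : Fin d,
      e.symm u i ≠ e.symm v i → e.symm u j ≠ e.symm v j → i = j := by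
    intro u hu v hv
    apply one_coord
    intro j
    refine hH (fun w => val (e.symm w)) (fun w => val (flip j (e.symm w))) ?_ ?_ ?_ u hu v hv
    · exact (val_inj.comp e.symm.injective).injOn
    · exact (val_inj.comp ((flip_inj j).comp e.symm.injective)).injOn
    · intro a b hab
      obtain ⟨i, hi⟩ := H.adj_sub hab
      simp only [hi]
      rw [edge_len, flip_comm, edge_len]
  have hle : H.verts.ncard ≤ 2 := by
    by_contra hlt
    push Not at hlt
    obtain ⟨u, v, w, hu, hv, hw, huv, huw, hvw⟩ := (Set.two_lt_ncard_iff).mp hlt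
    have h1 : e.symm u ≠ e.symm v := fun h => huv (e.symm.injective h)
    have h2 : e.symm u ≠ e.symm w := fun h => huw (e.symm.injective h)
    have h3 : e.symm v ≠ e.symm w := fun h => hvw (e.symm.injective h)
    obtain ⟨i, hi⟩ := Function.ne_iff.mp h1
    obtain ⟨j, hj⟩ := Function.ne_iff.mp h2
    obtain ⟨k, hk⟩ := Function.ne_iff.mp h3
    have a1 := hrig u hu v hv
    have a2 := hrig u hu w hw
    have a3 := hrig v hv w hw
    by_cases hij : i = j
    · subst hij
      -- then v and w agree at i, so k is different from i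
      have hvw' : e.symm v i = e.symm w i := by rw [fin2_ne hi, fin2_ne hj]
      have hki : k ≠ i := by rintro rfl; exact hk hvw'
      have b1 : e.symm u k = e.symm v k := by
        by_contra hh; exact hki (a1 k i hh hi)
      have b2 : e.symm u k = e.symm w k := by
        by_contra hh; exact hki (a2 k i hh hj)
      exact hk (b1.symm.trans b2)
    · have b1 : e.symm u j = e.symm v j := by
        by_contra hh; exact hij (a1 i j hi hh)
      have b2 : e.symm u i = e.symm w i := by
        by_contra hh; exact hij (a2 i j hh hj)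
      exact hij (a3 i j (by rw [← b2]; exact hi.symm) (by rw [← b1]; exact hj))
  have hle' : (H.verts.ncard : ℝ) ≤ 2 := by exact_mod_cast hle
  have hE' : (2 : ℝ) ^ d * d ≤ 2 * (G.edgeSet.ncard : ℝ) := by
    rw [hEn]; exact_mod_cast hE
  have hn : (0 : ℝ) < 2 ^ d := by positivity
  have h5 : c * (G.edgeSet.ncard : ℝ) ≤ 2 * 2 ^ d := by
    have := hcard.trans hle'
    rw [div_le_iff₀ (by positivity)] at this
    simpa using this
  have h6 : (4 : ℝ) < c * d := by
    rw [div_lt_iff₀ hc] at hd0
    have : (d : ℝ) = d0 + 1 := by simp [hd]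
    nlinarith
  nlinarith

end Pool.Agent.S08692
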