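import Pool.Statements.S08711
import Pool.Agent.H.MP_4ffbdc_co.A

set_option autoImplicit false
open Pool Pool.MP_4ffbdc_co

namespace Pool.Agent.S08711

theorem result :
    ∀ k : ℕ, 4 ≤ k → ∃ c : ℕ, ∀ n : ℕ, 0 < n → ∀ H : SimpleGraph (Fin n),
      (∃ m : ℕ, ∃ G : SimpleGraph (Fin m),
        G.chromaticNumber = (k : ℕ∞) ∧
        (∀ v w : Fin m, G.Adj v w →
          (G.deleteEdges {s(v, w)}).chromaticNumber < (k : ℕ∞)) ∧
        (∀ v : Fin m, (G.induce ({v}ᶜ : Set (Fin m))).chromaticNumber < (k : ℕ∞)) ∧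
        ∃ f : H →g G, Function.Injective f) →
      ∃ m : ℕ, ∃ G : SimpleGraph (Fin m),
        G.chromaticNumber = (k : ℕ∞) ∧
        (∀ v w : Fin m, G.Adj v w →
          (G.deleteEdges {s(v, w)}).chromaticNumber < (k : ℕ∞)) ∧
        (∀ v : Fin m, (G.induce ({v}ᶜ : Set (Fin m))).chromaticNumber < (k : ℕ∞)) ∧
        (∃ f : H →g G, Function.Injective f) ∧
        m ≤ c * n := by
  intro k hk
  obtain ⟨p, rfl⟩ : ∃ p, k = p + 3 + 1 := ⟨k - 4, by omega⟩
  refine ⟨5 * p + 35, fun n hn H ⟨m, K, K1, K2, K3, f, hf⟩ => ?_⟩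
  have nc : ¬ ∃ c : Fin m → Fin (p + 3), ∀ u v, K.Adj u v → c u ≠ c v := by
    rw [← Agent.H.SC.lt_iff, K1]; exact lt_irrefl _
  have nb : ∀ v, ∃ w, K.Adj v w := by
    intro v
    by_contra hv
    obtain ⟨c, hc⟩ := (Agent.H.SC.lt_iff _ _).1 (K3 v)
    refine nc ⟨fun a => if h : a = v then 0 else c ⟨a, h⟩, fun a b h => ?_⟩
    have ha : a ≠ v := by rintro rfl; exact hv ⟨b, h⟩
    have hb : b ≠ v := by rintro rfl; exact hv ⟨a, h.symm⟩
    simp only [dif_neg ha, dif_neg hb]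
    exact hc ⟨a, ha⟩ ⟨b, hb⟩ h
  choose w hw using nb
  let T : Finset (Fin m) := Finset.univ.image f ∪ Finset.univ.image (fun x => w (f x))
  have hT : T.card ≤ 2 * n := by
    refine (Finset.card_union_le _ _).trans ?_
    have a := Finset.card_image_le (s := (Finset.univ : Finset (Fin n))) (f := f)
    have b := Finset.card_image_le (s := (Finset.univ : Finset (Fin n))) (f := fun x => w (f x))
    simp only [Finset.card_univ, Fintype.card_fin] at a b
    omega
  let g := T.orderEmbOfFin rfl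
  have gs : ∀ v ∈ T, ∃ i, g i = v := fun v hv => by
    have : v ∈ Set.range g := by rw [Finset.range_orderEmbOfFin]; exact hv
    exact this
  choose φ hφ using fun x => gs (f x) (by simp [T])
  choose ψ hψ using fun x => gs (w (f x)) (by simp [T])
  have cr : ∀ x y, (K.comap g).Adj x y →
      (SimpleGraph.fromRel (Agent.H.SC.R (p := p) (K.comap g))).Adj (.X x) (.X y) ∧
      Agent.H.SC.Crit (SimpleGraph.fromRel (Agent.H.SC.R (p := p) (K.comap g))) (p + 3) (.X x) (.X y) := by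
    intro x y h
    refine ⟨(SimpleGraph.fromRel_adj _ _ _).2 ⟨by simpa using h.ne, Or.inl (.hh x y h)⟩, ?_⟩
    obtain ⟨c, hc⟩ := (Agent.H.SC.lt_iff _ _).1 (K2 _ _ h)
    have e : c (g x) = c (g y) := by
      by_contra hn
      refine nc ⟨c, fun a b h' => ?_⟩
      by_cases e : s(a, b) = s(g x, g y)
      · rcases Sym2.eq_iff.1 e with ⟨rfl, rfl⟩ | ⟨rfl, rfl⟩
        · exact hn
        · exact fun e => hn e.symm
      · exact hc a b (by rw [SimpleGraph.deleteEdges_adj]; exact ⟨h', e⟩)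
    refine Agent.H.SC.critR _ x y h (fun a => Equiv.swap (c (g x)) 0 (c (g a))) (by simp)
      (by simp [← e]) fun a b h' he e' => hc (g a) (g b) ?_ ((Equiv.injective _) e')
    rw [SimpleGraph.deleteEdges_adj]
    exact ⟨h', by simpa using he⟩
  have := Agent.H.SC.fin_V T.card p
  obtain ⟨m', G, G1, G2, G3, G4, G5⟩ := Agent.H.SC.crit (by omega) _
    (Agent.H.SC.notcol (p := p) (φ ⟨0, hn⟩).pos (K.comap g)) H (fun x => .X (φ x))
    (fun x y h => hf (by rw [← hφ, ← hφ]; exact congrArg g (Agent.H.SC.V.X.inj h)))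
    (fun x y h => cr _ _ (by rw [SimpleGraph.comap_adj, hφ, hφ]; exact f.map_adj h))
    (fun x => ⟨.X (ψ x), cr _ _ (by rw [SimpleGraph.comap_adj, hφ, hψ]; exact hw _)⟩)
  refine ⟨m', G, G1, G2, G3, G4, G5.trans ((Agent.H.SC.card_V _ _).trans ?_)⟩
  have := Nat.mul_le_mul_right (2 * (p + 8)) hT
  nlinarith

end Pool.Agent.S08711
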