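import Pool.Statements.S08718
import Pool.Agent.H.MP_50639e_co.F

set_option autoImplicit false
open Pool Pool.MP_50639e_co

namespace Pool.Agent.S08718

theorem result :
    ¬ (∀ n : ℕ, 4 ≤ n → Even n →
      ∃ c : Fin n → Fin n → ℕ,
        (∀ u v : Fin n, c u v = c v u) ∧
        (∀ u v w : Fin n, u ≠ v → u ≠ w → v ≠ w → c u v ≠ c u w) ∧
        ∀ p : ℕ → Fin n,
          (∀ i j : ℕ, i < n → j < n → p i = p j → i = j) →
          ∃ i j : ℕ, i < j ∧ j + 1 < n ∧
            c (p i) (p (i + 1)) = c (p j) (p (j + 1))) := by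
  intro h
  obtain ⟨c, h1, h2, h3⟩ := h 10 (by norm_num) (by decide)
  have inj : ∀ a < 10, ∀ b < 10, Fin.ofNat 10 a = Fin.ofNat 10 b → a = b := fun a ha b hb e => by
    have := congrArg Fin.val e
    simp only [Fin.val_ofNat] at this
    omega
  refine Pool.Agent.H.MP_50639e_co.not_valid (g := fun a b => c (Fin.ofNat 10 a) (Fin.ofNat 10 b))
    ⟨fun a _ b _ => h1 _ _, fun a ha b hb d hd ab ad bd => h2 _ _ _ (fun e => ab (inj a ha b hb e))
      (fun e => ad (inj a ha d hd e)) (fun e => bd (inj b hb d hd e)), fun p hp hi => ?_⟩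
  obtain ⟨i, j, a, b, e⟩ := h3 (fun i => Fin.ofNat 10 (p i)) fun i j hi' hj' e =>
    hi hi' hj' (inj _ (hp i (by omega)) _ (hp j (by omega)) e)
  exact ⟨i, j, a, by omega, e⟩

end Pool.Agent.S08718
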