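import Pool.Statements.S08725

set_option autoImplicit false
open Classical
open Pool Pool.MP_507ed2_co

namespace Pool.Agent.S08725

open Finset SimpleGraph

lemma DC {α β : Type} (X : Finset α) (Y : Finset β) (rel : α → β → Prop) [∀ x b, Decidable (rel x b)]
    (h : β → ℝ) (M : ℕ)
    (h0 : ∀ b ∈ Y, 0 ≤ h b) (hM : ∀ b ∈ Y, (X.filter (fun x => rel x b)).card ≤ M) :
    ∑ x ∈ X, ∑ b ∈ Y, (if rel x b then h b else 0) ≤ M * ∑ b ∈ Y, h b := by
  rw [sum_comm, mul_sum]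
  apply sum_le_sum
  intro b hb
  rw [← sum_filter, sum_const, nsmul_eq_mul]
  exact mul_le_mul_of_nonneg_right (by exact_mod_cast hM b hb) (h0 b hb)

lemma le_ite_sum {β : Type} (Y : Finset β) (P : β → Prop) [DecidablePred P] (h : β → ℝ) (h0 : ∀ b ∈ Y, 0 ≤ h b)
    {b : β} (hb : b ∈ Y) (hP : P b) : h b ≤ ∑ b ∈ Y, (if P b then h b else 0) := by
  have := single_le_sum (f := fun b => if P b then h b else 0)
    (fun b hb => by split_ifs; exacts [h0 b hb, le_rfl]) hb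
  simpa [hP] using this

variable {V : Type} {G : SimpleGraph V}

lemma pred (hG : G.Connected) {x y : V} {n : ℕ} (h : G.dist x y = n + 1) :
    ∃ v, G.Adj v y ∧ G.dist x v ≤ n := by
  obtain ⟨p, hp⟩ := hG.exists_walk_length_eq_dist y x
  rw [SimpleGraph.dist_comm, h] at hp
  cases p with
  | nil => simp at hp
  | cons hadj q =>
    refine ⟨_, hadj.symm, ?_⟩
    rw [SimpleGraph.dist_comm]
    have := SimpleGraph.dist_le q
    simp at hp; omega

lemma dist_adj (hG : G.Connected) {x v u : V} (h : G.Adj v u) : G.dist x u ≤ G.dist x v + 1 := by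
  have := hG.dist_triangle (u := x) (v := v) (w := u)
  rwa [SimpleGraph.dist_eq_one_iff_adj.2 h] at this

lemma ex_nbr {D : ℕ} (hD : ∀ v, (G.neighborSet v).encard ≤ (D : ℕ∞)) :
    ∃ nb : V → Finset V, (∀ v u, u ∈ nb v ↔ G.Adj v u) ∧ ∀ v, (nb v).card ≤ D := by
  have hf : ∀ v, (G.neighborSet v).Finite := fun v => Set.finite_of_encard_le_coe (hD v)
  refine ⟨fun v => (hf v).toFinset, fun v u => by simp, fun v => ?_⟩
  have := hD v
  rw [(hf v).encard_eq_coe_toFinset_card] at this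
  exact_mod_cast this

lemma ex_ball (hG : G.Connected) {D : ℕ} (nb : V → Finset V) (h1 : ∀ v u, u ∈ nb v ↔ G.Adj v u)
    (h2 : ∀ v, (nb v).card ≤ D) (x : V) (r : ℕ) :
    ∃ S : Finset V, S.card ≤ (D + 1) ^ r ∧ ∀ y, G.dist x y ≤ r → y ∈ S := by
  induction r with
  | zero => exact ⟨{x}, by simp, fun y hy => by
      rw [Nat.le_zero, hG.dist_eq_zero_iff] at hy; simp [hy]⟩
  | succ r ih =>
    obtain ⟨S, hS, hS'⟩ := ih
    refine ⟨S.biUnion (fun v => insert v (nb v)), ?_, fun y hy => ?_⟩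
    · refine (card_biUnion_le_card_mul _ _ (D + 1) (fun v _ =>
        (card_insert_le _ _).trans (Nat.succ_le_succ (h2 v)))).trans ?_
      rw [pow_succ]; exact Nat.mul_le_mul_right _ hS
    · rcases Nat.lt_or_eq_of_le hy with h | h
      · exact mem_biUnion.2 ⟨y, hS' y (by omega), mem_insert_self _ _⟩
      · obtain ⟨v, hv, hd⟩ := pred hG h
        exact mem_biUnion.2 ⟨v, hS' v hd, mem_insert_of_mem ((h1 _ _).2 hv)⟩

lemma filter_ball (hG : G.Connected) {D : ℕ} (nb : V → Finset V) (h1 : ∀ v u, u ∈ nb v ↔ G.Adj v u)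
    (h2 : ∀ v, (nb v).card ≤ D) (x : V) (r : ℕ) (X : Finset V) (P : V → Prop) [DecidablePred P]
    (hP : ∀ y, P y → G.dist x y ≤ r) : (X.filter P).card ≤ (D + 1) ^ r := by
  obtain ⟨S, hS, hS'⟩ := ex_ball hG nb h1 h2 x r
  exact (card_le_card (fun y hy => hS' y (hP y (mem_filter.1 hy).2))).trans hS

lemma chain (hG : G.Connected) (f : V → ℝ) (s : ℝ) (hs : 0 ≤ s) (x : V) (r : ℕ)
    (h : ∀ v u, G.dist x v < r → G.Adj v u → |f v - f u| ≤ s) :
    ∀ y, G.dist x y ≤ r → |f x - f y| ≤ r * s := by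
  induction r with
  | zero => intro y hy; rw [Nat.le_zero, hG.dist_eq_zero_iff] at hy; simp [hy]
  | succ r ih =>
    intro y hy
    have ih' := ih (fun v u hv => h v u (by omega))
    push_cast
    rcases Nat.lt_or_eq_of_le hy with h' | h'
    · have := ih' y (by omega); nlinarith
    · obtain ⟨v, hv, hd⟩ := pred hG h'
      have a1 := ih' v hd
      have a2 := h v y (by omega) hv
      have := abs_sub_le (f x) (f v) (f y)
      linarith

lemma exit (hG : G.Connected) (Ω B : Finset V) (hB : ∀ v, v ∈ B ↔ v ∉ Ω ∧ ∃ u ∈ Ω, G.Adj u v)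
    (g : V → ℝ) (s : ℝ) (hs : 0 ≤ s) {w z : V} (p : G.Walk w z) (hz : z ∉ Ω ∪ B) :
    ∀ n : ℕ, w ∈ Ω ∪ B → p.length ≤ n →
      (∀ v ∈ Ω, G.dist w v ≤ n → ∀ u, G.Adj v u → |g v - g u| ≤ s) →
      ∃ b ∈ B, G.dist w b ≤ n ∧ |g w - g b| ≤ n * s := by
  induction p with
  | nil => intro n hw; exact (hz hw).elim
  | @cons w w' z hadj q ih =>
    intro n hw hn h
    rcases mem_union.1 hw with hw | hw
    · simp only [Walk.length_cons] at hn
      obtain ⟨n, rfl⟩ : ∃ m, n = m + 1 := ⟨n - 1, by omega⟩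
      have hw' : w' ∈ Ω ∪ B := by
        by_cases h' : w' ∈ Ω
        · exact mem_union_left _ h'
        · exact mem_union_right _ ((hB _).2 ⟨h', w, hw, hadj⟩)
      have tri : ∀ v, G.dist w v ≤ G.dist w' v + 1 := fun v => by
        rw [SimpleGraph.dist_comm, SimpleGraph.dist_comm (u := w')]
        exact dist_adj hG hadj.symm
      obtain ⟨b, hb, h1, h2⟩ := ih hz n hw' (by omega)
        (fun v hv hd => h v hv (by have := tri v; omega))
      refine ⟨b, hb, by have := tri b; omega, ?_⟩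
      have a2 := h w hw (by simp) w' hadj
      have := abs_sub_le (g w) (g w') (g b)
      push_cast; linarith
    · exact ⟨w, hw, by simp, by simp; positivity⟩

lemma ex_indep {D : ℕ} (nb : V → Finset V) (h1 : ∀ v u, u ∈ nb v ↔ G.Adj v u)
    (h2 : ∀ v, (nb v).card ≤ D) (X : Finset V) :
    ∃ N ⊆ X, (∀ x ∈ N, ∀ y ∈ N, ¬ G.Adj x y) ∧ X.card ≤ N.card * (D + 1) := by
  obtain ⟨N, hN, hmax⟩ := exists_max_image
    (X.powerset.filter (fun N => ∀ x ∈ N, ∀ y ∈ N, ¬ G.Adj x y)) card ⟨∅, by simp⟩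
  simp only [mem_filter, mem_powerset] at hN hmax
  refine ⟨N, hN.1, hN.2, ?_⟩
  refine le_trans (card_le_card (t := N.biUnion (fun v => insert v (nb v))) ?_)
    (card_biUnion_le_card_mul _ _ (D + 1) (fun v _ =>
        (card_insert_le _ _).trans (Nat.succ_le_succ (h2 v))))
  intro x hx
  by_contra hc
  simp only [mem_biUnion, mem_insert, not_exists, not_and, not_or, h1] at hc
  have hxN : x ∉ N := fun h => (hc x h).1 rfl
  have := hmax (insert x N) (by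
    refine ⟨insert_subset hx hN.1, fun a ha b hb => ?_⟩
    rcases mem_insert.1 ha with e | ha' <;> rcases mem_insert.1 hb with e' | hb'
    · rw [e, e']; exact G.irrefl
    · rw [e]; exact fun h => (hc b hb').2 h.symm
    · rw [e']; exact (hc a ha').2
    · exact hN.2 a ha' b hb')
  rw [card_insert_of_notMem hxN] at this
  omega

noncomputable def En (G : SimpleGraph V) (Ω B : Finset V) (f : V → ℝ) : ℝ :=
  (∑ x ∈ Ω, ∑ y ∈ Ω, (if G.Adj x y then (f x - f y) ^ 2 else 0)) / 2 +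
    (∑ x ∈ Ω, ∑ y ∈ B, (if G.Adj x y then (f x - f y) ^ 2 else 0))

lemma ite_nn (P : Prop) [Decidable P] (a : ℝ) : 0 ≤ (if P then a ^ 2 else 0) := by
  split_ifs <;> positivity

lemma sq_le_of {a s : ℝ} (h : a ^ 2 ≤ s) : |a| ≤ √s := Real.abs_le_sqrt h

theorem transfer {V₁ V₂ : Type} (G₁ : SimpleGraph V₁) (G₂ : SimpleGraph V₂) [Nontrivial V₁]
    (c1 : G₁.Connected) (c2 : G₂.Connected) {D₁ D₂ : ℕ}
    (nb1 : V₁ → Finset V₁) (n1 : ∀ v u, u ∈ nb1 v ↔ G₁.Adj v u) (d1 : ∀ v, (nb1 v).card ≤ D₁)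
    (nb2 : V₂ → Finset V₂) (n2 : ∀ v u, u ∈ nb2 v ↔ G₂.Adj v u) (d2 : ∀ v, (nb2 v).card ≤ D₂)
    (ψ : V₂ → V₁) (R : ℕ) (hR : 1 ≤ R)
    (Q1 : ∀ r, ∃ r', ∀ z w, G₂.dist z w ≤ r → G₁.dist (ψ z) (ψ w) ≤ r')
    (Q1' : ∀ z w, G₂.Adj z w → G₁.dist (ψ z) (ψ w) ≤ R)
    (Q2 : ∀ x, ∃ z, G₁.dist (ψ z) x ≤ R)
    (Q3 : ∀ r, ∃ r', ∀ z w, G₁.dist (ψ z) (ψ w) ≤ r → G₂.dist z w ≤ r') :
    ∃ (M : ℕ) (Ka Kb Kc : ℝ), 0 < M ∧ 0 < Ka ∧ 0 < Kb ∧ 0 < Kc ∧
      ∀ Ω B : Finset V₂, (∀ v, v ∈ B ↔ v ∉ Ω ∧ ∃ u ∈ Ω, G₂.Adj u v) →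
      ∃ Ω' B' : Finset V₁, (∀ v, v ∈ B' ↔ v ∉ Ω' ∧ ∃ u ∈ Ω', G₁.Adj u v) ∧
        B.card ≤ M * B'.card ∧ ∀ (f : V₁ → ℝ) (m : ℝ),
          En G₂ Ω B (fun z => f (ψ z) - m) ≤ Kc * En G₁ Ω' B' f ∧
          ∑ y ∈ B', (f y - m) ^ 2 ≤ Ka * En G₁ Ω' B' f + Kb * ∑ b ∈ B, (f (ψ b) - m) ^ 2 := by
  obtain ⟨r2, hr2⟩ := Q3 (2 * R + 1)
  obtain ⟨r3, hr3⟩ := Q1 r2
  set M1 := (D₂ + 1) ^ r2 with hM1
  set M2 := (D₂ + 1) ^ (2 * r2) with hM2
  set M3 := (D₁ + 1) ^ (r3 + R + 1) with hM3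
  set κ : ℝ := (((r2 : ℝ) + 1) * ((R : ℝ) + 1)) ^ 2 with hκ
  refine ⟨M1 * (D₁ + 1), M3 * (2 * κ) * M2 * M1 * 2, M3 * 2,
    (D₂ + 1) * ((R : ℝ) + 1) ^ 2 * M1 * 2, by positivity, by positivity, by positivity,
    by positivity, fun Ω B hB => ?_⟩
  choose ball hball hball' using fun x => ex_ball c1 nb1 n1 d1 x R
  set W := Ω ∪ B with hW
  set U := (W.biUnion (fun w => ball (ψ w))).filter (fun x => ∃ w ∈ W, G₁.dist (ψ w) x ≤ R) with hU
  have mU : ∀ x, x ∈ U ↔ ∃ w ∈ W, G₁.dist (ψ w) x ≤ R := by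
    intro x
    rw [hU, mem_filter]
    refine ⟨fun h => h.2, fun h => ⟨?_, h⟩⟩
    obtain ⟨w, hw, hd⟩ := h
    exact mem_biUnion.2 ⟨w, hw, hball' _ _ hd⟩
  obtain ⟨N, hN, hNi, hNc⟩ := ex_indep nb1 n1 d1 (B.image ψ)
  set Ω' := U \ N with hΩ'
  set B' := (Ω'.biUnion nb1).filter (fun v => v ∉ Ω') with hB'
  have mB' : ∀ v, v ∈ B' ↔ v ∉ Ω' ∧ ∃ u ∈ Ω', G₁.Adj u v := by
    intro v
    simp only [hB', mem_filter, mem_biUnion, n1]
    exact and_comm
  have hNn : ∀ x ∈ N, ∀ u, G₁.Adj x u → u ∈ Ω' := by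
    intro x hx u hu
    obtain ⟨b, hb, rfl⟩ := mem_image.1 (hN hx)
    refine mem_sdiff.2 ⟨(mU u).2 ⟨b, mem_union_right _ hb, ?_⟩, fun h => hNi _ hx _ h hu⟩
    rw [SimpleGraph.dist_eq_one_iff_adj.2 hu]; exact hR
  have hNB : N ⊆ B' := by
    intro x hx
    obtain ⟨u, hu⟩ := c1.preconnected.exists_adj_of_nontrivial x
    exact (mB' x).2 ⟨fun h => (mem_sdiff.1 h).2 hx, u, hNn x hx u hu, hu.symm⟩
  have fib : ∀ (X : Finset V₂) (v : V₁), (X.filter (fun w => G₁.dist (ψ w) v ≤ R)).card ≤ M1 := by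
    intro X v
    obtain ⟨z, hz⟩ := Q2 v
    apply filter_ball c2 nb2 n2 d2 z r2
    intro w hw
    apply hr2
    have := c1.dist_triangle (u := ψ z) (v := v) (w := ψ w)
    rw [SimpleGraph.dist_comm (u := v)] at this
    omega
  refine ⟨Ω', B', mB', ?_, fun f m => ?_⟩
  · have h1 : B.card ≤ M1 * (B.image ψ).card := by
      apply card_le_mul_card_image
      intro v _
      refine le_trans (card_le_card ?_) (fib B v)
      intro w hw
      rw [mem_filter] at hw ⊢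
      exact ⟨hw.1, by rw [hw.2]; simp⟩
    have h2 := card_le_card hNB
    calc B.card ≤ M1 * (N.card * (D₁ + 1)) := h1.trans (Nat.mul_le_mul_left _ hNc)
      _ ≤ M1 * (B'.card * (D₁ + 1)) := by gcongr
      _ = _ := by ring
  set e : V₁ → ℝ := fun v => ∑ u ∈ nb1 v, (f v - f u) ^ 2 with he
  have e0 : ∀ v, 0 ≤ e v := fun v => sum_nonneg (fun _ _ => sq_nonneg _)
  have hT : ∑ v ∈ U, e v ≤ 2 * En G₁ Ω' B' f := by
    have a1 : ∑ v ∈ U, e v ≤ ∑ v ∈ Ω', e v + ∑ v ∈ N, e v := by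
      rw [← sum_union sdiff_disjoint]
      exact sum_le_sum_of_subset_of_nonneg (by rw [sdiff_union_self_eq_union]; exact subset_union_left)
        (fun v _ _ => e0 v)
    have dj : Disjoint Ω' B' := disjoint_right.2 (fun v hv => ((mB' v).1 hv).1)
    have a2 : ∑ v ∈ Ω', e v ≤ ∑ x ∈ Ω', ∑ y ∈ Ω', (if G₁.Adj x y then (f x - f y) ^ 2 else 0) +
        ∑ x ∈ Ω', ∑ y ∈ B', (if G₁.Adj x y then (f x - f y) ^ 2 else 0) := by
      rw [← sum_add_distrib]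
      apply sum_le_sum
      intro v hv
      rw [← sum_union dj, ← sum_filter]
      apply sum_le_sum_of_subset_of_nonneg _ (fun _ _ _ => sq_nonneg _)
      intro u hu
      rw [n1] at hu
      refine mem_filter.2 ⟨?_, hu⟩
      by_cases h : u ∈ Ω'
      · exact mem_union_left _ h
      · exact mem_union_right _ ((mB' u).2 ⟨h, v, hv, hu⟩)
    have a3 : ∑ v ∈ N, e v ≤ ∑ x ∈ Ω', ∑ y ∈ B', (if G₁.Adj x y then (f x - f y) ^ 2 else 0) := by
      rw [sum_comm]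
      refine le_trans (sum_le_sum ?_) (sum_le_sum_of_subset_of_nonneg hNB
        (fun _ _ _ => sum_nonneg (fun _ _ => ite_nn _ _)))
      intro v hv
      rw [← sum_filter]
      simp only [he]
      rw [sum_congr rfl (fun u _ => show (f v - f u) ^ 2 = (f u - f v) ^ 2 by ring)]
      apply sum_le_sum_of_subset_of_nonneg _ (fun _ _ _ => sq_nonneg _)
      intro u hu
      rw [n1] at hu
      exact mem_filter.2 ⟨hNn v hv u hu, hu.symm⟩
    unfold En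
    linarith
  set S : V₂ → ℝ := fun w => ∑ v ∈ U, (if G₁.dist (ψ w) v ≤ R then e v else 0) with hS
  have S0 : ∀ w, 0 ≤ S w := fun w => sum_nonneg (fun v _ => by split_ifs; exacts [e0 v, le_rfl])
  have F1 : ∀ w ∈ W, ∀ y, G₁.dist (ψ w) y ≤ R + 1 → |f (ψ w) - f y| ≤ ((R : ℝ) + 1) * √(S w) := by
    intro w hw y hy
    have := chain c1 f √(S w) (Real.sqrt_nonneg _) (ψ w) (R + 1) (fun v u hv hadj => by
      apply sq_le_of
      have hvU : v ∈ U := (mU v).2 ⟨w, hw, by omega⟩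
      refine le_trans ?_ (le_ite_sum U (fun v => G₁.dist (ψ w) v ≤ R) e (fun v _ => e0 v) hvU (by omega))
      exact single_le_sum (f := fun u => (f v - f u) ^ 2) (fun _ _ => sq_nonneg _) ((n1 _ _).2 hadj)) y hy
    exact_mod_cast this
  have F2 : ∑ w ∈ W, S w ≤ M1 * ∑ v ∈ U, e v :=
    DC W U (fun w v => G₁.dist (ψ w) v ≤ R) e M1 (fun v _ => e0 v) (fun v _ => fib W v)
  have F3 : ∑ w ∈ W, S w ≤ M1 * 2 * En G₁ Ω' B' f := by
    have := mul_le_mul_of_nonneg_left hT (show (0 : ℝ) ≤ M1 by positivity)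
    linarith
  constructor
  · have dj : Disjoint Ω B := disjoint_right.2 (fun v hv => ((hB v).1 hv).1)
    have b1 : ∀ x ∈ Ω, ∑ y ∈ W, (if G₂.Adj x y then (f (ψ x) - m - (f (ψ y) - m)) ^ 2 else 0)
        ≤ (D₂ + 1) * ((R : ℝ) + 1) ^ 2 * S x := by
      intro x hx
      rw [← sum_filter]
      have hc : (W.filter (fun y => G₂.Adj x y)).card ≤ D₂ :=
        (card_le_card (fun y hy => (n2 _ _).2 (mem_filter.1 hy).2)).trans (d2 x)
      have := sum_le_card_nsmul (W.filter (fun y => G₂.Adj x y))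
        (fun y => (f (ψ x) - m - (f (ψ y) - m)) ^ 2) (((R : ℝ) + 1) ^ 2 * S x) (fun y hy => by
          have h1 := F1 x (mem_union_left _ hx) (ψ y)
            ((Q1' _ _ (mem_filter.1 hy).2).trans (Nat.le_succ _))
          have h2 := pow_le_pow_left₀ (abs_nonneg _) h1 2
          rw [sq_abs, mul_pow, Real.sq_sqrt (S0 x)] at h2
          convert h2 using 2; ring)
      rw [nsmul_eq_mul] at this
      have h3 : ((W.filter (fun y => G₂.Adj x y)).card : ℝ) ≤ D₂ + 1 := by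
        exact_mod_cast hc.trans (Nat.le_succ _)
      have h4 : 0 ≤ ((R : ℝ) + 1) ^ 2 * S x := mul_nonneg (by positivity) (S0 x)
      nlinarith
    have b2 := sum_le_sum b1
    simp only [hW, sum_union dj, sum_add_distrib] at b2
    rw [← mul_sum] at b2
    have b3 : ∑ x ∈ Ω, S x ≤ ∑ w ∈ W, S w :=
      sum_le_sum_of_subset_of_nonneg subset_union_left (fun w _ _ => S0 w)
    have b4 : 0 ≤ ∑ x ∈ Ω, ∑ y ∈ Ω, (if G₂.Adj x y then (f (ψ x) - m - (f (ψ y) - m)) ^ 2 else 0) :=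
      sum_nonneg (fun _ _ => sum_nonneg (fun _ _ => ite_nn _ _))
    have b5 := mul_le_mul_of_nonneg_left (b3.trans F3)
      (show (0 : ℝ) ≤ (D₂ + 1) * ((R : ℝ) + 1) ^ 2 by positivity)
    unfold En at b5 ⊢
    linarith
  · set S3 : V₂ → ℝ := fun b => ∑ v ∈ W, (if G₂.dist b v ≤ 2 * r2 then S v else 0) with hS3
    have S30 : ∀ w, 0 ≤ S3 w := fun w => sum_nonneg (fun v _ => by split_ifs; exacts [S0 v, le_rfl])
    have C : ∀ y ∈ B', ∃ b ∈ B, G₁.dist (ψ b) y ≤ r3 + R + 1 ∧ (f y - f (ψ b)) ^ 2 ≤ κ * S3 b := by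
      intro y hy
      by_cases hyN : y ∈ N
      · obtain ⟨b, hb, rfl⟩ := mem_image.1 (hN hyN)
        exact ⟨b, hb, by simp, by simp; exact mul_nonneg (by positivity) (S30 b)⟩
      obtain ⟨hy1, x, hx, hxy⟩ := (mB' y).1 hy
      have hyU : y ∉ U := fun h => hy1 (mem_sdiff.2 ⟨h, hyN⟩)
      obtain ⟨w, hw, hwx⟩ := (mU x).1 (mem_sdiff.1 hx).1
      have hwy : G₁.dist (ψ w) y ≤ R + 1 := by have := dist_adj c1 (x := ψ w) hxy; omega
      obtain ⟨z, hz⟩ := Q2 y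
      have hzW : z ∉ W := fun h => hyU ((mU y).2 ⟨z, h, hz⟩)
      have hwz : G₂.dist w z ≤ r2 := by
        apply hr2
        have := c1.dist_triangle (u := ψ w) (v := y) (w := ψ z)
        rw [SimpleGraph.dist_comm (u := y)] at this
        omega
      obtain ⟨p, hp⟩ := c2.exists_walk_length_eq_dist w z
      set S2 : ℝ := ∑ v ∈ W, (if G₂.dist w v ≤ r2 then S v else 0) with hS2
      have hle : ∀ v ∈ W, G₂.dist w v ≤ r2 → √(S v) ≤ √S2 := fun v hv hd =>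
        Real.sqrt_le_sqrt (le_ite_sum W (fun v => G₂.dist w v ≤ r2) S (fun v _ => S0 v) hv hd)
      obtain ⟨b, hb, h1, h2⟩ := exit c2 Ω B hB (fun z => f (ψ z)) (((R : ℝ) + 1) * √S2)
        (by positivity) p hzW r2 hw (by omega) (fun v hv hd u hadj => by
          refine (F1 v (mem_union_left _ hv) (ψ u) ((Q1' _ _ hadj).trans (Nat.le_succ _))).trans ?_
          exact mul_le_mul_of_nonneg_left (hle v (mem_union_left _ hv) hd) (by positivity))
      refine ⟨b, hb, ?_, ?_⟩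
      · have a1 := hr3 b w (by rwa [SimpleGraph.dist_comm])
        have := c1.dist_triangle (u := ψ b) (v := ψ w) (w := y)
        omega
      · have a1 := (F1 w hw y hwy).trans
          (mul_le_mul_of_nonneg_left (hle w hw (by simp)) (by positivity))
        have a2 : S2 ≤ S3 b := by
          apply sum_le_sum
          intro v _
          have := c2.dist_triangle (u := b) (v := w) (w := v)
          rw [SimpleGraph.dist_comm (u := b) (v := w)] at this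
          split_ifs with h3 h4
          · exact le_rfl
          · omega
          · exact S0 v
          · exact le_rfl
        have a3 : |f y - f (ψ b)| ≤ ((r2 : ℝ) + 1) * ((R : ℝ) + 1) * √(S3 b) := by
          have t1 := abs_sub_le (f y) (f (ψ w)) (f (ψ b))
          rw [abs_sub_comm (f y) (f (ψ w))] at t1
          have t2 := mul_le_mul_of_nonneg_left (Real.sqrt_le_sqrt a2)
            (show (0 : ℝ) ≤ ((r2 : ℝ) + 1) * ((R : ℝ) + 1) by positivity)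
          linarith
        have a4 := pow_le_pow_left₀ (abs_nonneg _) a3 2
        rwa [sq_abs, mul_pow, Real.sq_sqrt (S30 b)] at a4
    set h : V₂ → ℝ := fun b => 2 * κ * S3 b + 2 * (f (ψ b) - m) ^ 2 with hh
    have h0 : ∀ b, 0 ≤ h b := fun b => add_nonneg (mul_nonneg (by positivity) (S30 b)) (by positivity)
    have g1 : ∑ y ∈ B', (f y - m) ^ 2 ≤
        ∑ y ∈ B', ∑ b ∈ B, (if G₁.dist (ψ b) y ≤ r3 + R + 1 then h b else 0) := by
      apply sum_le_sum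
      intro y hy
      obtain ⟨b, hb, h1, h2⟩ := C y hy
      refine le_trans ?_ (le_ite_sum B (fun b => G₁.dist (ψ b) y ≤ r3 + R + 1) h (fun b _ => h0 b) hb h1)
      simp only [hh]
      nlinarith [sq_nonneg (f y - f (ψ b) - (f (ψ b) - m))]
    have g2 := DC B' B (fun y b => G₁.dist (ψ b) y ≤ r3 + R + 1) h M3 (fun b _ => h0 b)
      (fun b _ => filter_ball c1 nb1 n1 d1 (ψ b) _ _ _ (fun y hy => hy))
    have g3 := DC B W (fun b v => G₂.dist b v ≤ 2 * r2) S M2 (fun b _ => S0 b)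
      (fun v _ => filter_ball c2 nb2 n2 d2 v _ _ _ (fun y hy => by rwa [SimpleGraph.dist_comm]))
    have g4 : ∑ b ∈ B, h b = 2 * κ * ∑ b ∈ B, S3 b + 2 * ∑ b ∈ B, (f (ψ b) - m) ^ 2 := by
      simp only [hh, sum_add_distrib, mul_sum]
    have g5 : ∑ b ∈ B, S3 b ≤ M2 * (M1 * 2 * En G₁ Ω' B' f) :=
      g3.trans (mul_le_mul_of_nonneg_left F3 (by positivity))
    have g6 := mul_le_mul_of_nonneg_left g5 (show (0 : ℝ) ≤ M3 * (2 * κ) by positivity)
    rw [g4] at g2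
    nlinarith [g1.trans g2]

lemma trivial_fn {D : ℕ} (nb : V → Finset V) (h1 : ∀ v u, u ∈ nb v ↔ G.Adj v u)
    (h2 : ∀ v, (nb v).card ≤ D) (Ω B : Finset V) (hB : ∀ v, v ∈ B ↔ v ∉ Ω ∧ ∃ u ∈ Ω, G.Adj u v)
    (hc : 2 ≤ B.card) : ∃ f : V → ℝ, ∑ x ∈ B, f x = 0 ∧ 0 < ∑ x ∈ B, f x ^ 2 ∧
      En G Ω B f ≤ D * ∑ x ∈ B, f x ^ 2 := by
  obtain ⟨x, hx, y, hy, hxy⟩ := one_lt_card.1 hc
  set f : V → ℝ := fun v => (if v = x then 1 else 0) - (if v = y then 1 else 0) with hf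
  have hΩ : ∀ v ∈ Ω, f v = 0 := by
    intro v hv
    have a1 : v ≠ x := fun e => ((hB x).1 hx).1 (e ▸ hv)
    have a2 : v ≠ y := fun e => ((hB y).1 hy).1 (e ▸ hv)
    simp [hf, a1, a2]
  refine ⟨f, by simp [hf, sum_sub_distrib, hx, hy], ?_, ?_⟩
  · exact sum_pos' (fun _ _ => sq_nonneg _) ⟨x, hx, by simp [hf, hxy]⟩
  · unfold En
    rw [sum_eq_zero (fun u hu => sum_eq_zero (fun v hv => by simp [hΩ u hu, hΩ v hv])), zero_div,
      zero_add]
    refine le_trans (le_of_eq ?_) (DC Ω B (fun u v => G.Adj u v) (fun v => f v ^ 2) D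
      (fun _ _ => sq_nonneg _) (fun v _ =>
        (card_le_card (fun u hu => (h1 _ _).2 (mem_filter.1 hu).2.symm)).trans (h2 v)))
    refine sum_congr rfl (fun u hu => sum_congr rfl (fun v _ => ?_))
    simp [hΩ u hu]

theorem result :
    ∀ (V₁ V₂ : Type) (G₁ : SimpleGraph V₁) (G₂ : SimpleGraph V₂) (α : ℝ), 0 < α →
      Infinite V₁ → Infinite V₂ → G₁.Connected → G₂.Connected →
      (∃ D : ℕ, ∀ v : V₁, (G₁.neighborSet v).encard ≤ (D : ℕ∞)) →
      (∃ D : ℕ, ∀ v : V₂, (G₂.neighborSet v).encard ≤ (D : ℕ∞)) →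
      (∃ φ : V₁ → V₂, ∃ a b c : ℝ, 1 ≤ a ∧ 0 ≤ b ∧ 0 ≤ c ∧
        (∀ x y : V₁, (G₁.dist x y : ℝ) / a - b ≤ (G₂.dist (φ x) (φ y) : ℝ) ∧
          (G₂.dist (φ x) (φ y) : ℝ) ≤ a * (G₁.dist x y : ℝ) + b) ∧
        ∀ z : V₂, ∃ x : V₁, (G₂.dist (φ x) z : ℝ) ≤ c) →
      (∃ C : ℝ, ∀ Ω B : Finset V₁, (∀ v : V₁, v ∈ B ↔ v ∉ Ω ∧ ∃ u ∈ Ω, G₁.Adj u v) →
        2 ≤ B.card → ∃ f : V₁ → ℝ, ∑ x ∈ B, f x = 0 ∧ 0 < ∑ x ∈ B, f x ^ 2 ∧
          (∑ x ∈ Ω, ∑ y ∈ Ω, (if G₁.Adj x y then (f x - f y) ^ 2 else 0)) / 2 +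
            (∑ x ∈ Ω, ∑ y ∈ B, (if G₁.Adj x y then (f x - f y) ^ 2 else 0))
            ≤ C / (B.card : ℝ) ^ α * ∑ x ∈ B, f x ^ 2) →
      (∃ C : ℝ, ∀ Ω B : Finset V₂, (∀ v : V₂, v ∈ B ↔ v ∉ Ω ∧ ∃ u ∈ Ω, G₂.Adj u v) →
        2 ≤ B.card → ∃ f : V₂ → ℝ, ∑ x ∈ B, f x = 0 ∧ 0 < ∑ x ∈ B, f x ^ 2 ∧
          (∑ x ∈ Ω, ∑ y ∈ Ω, (if G₂.Adj x y then (f x - f y) ^ 2 else 0)) / 2 +
            (∑ x ∈ Ω, ∑ y ∈ B, (if G₂.Adj x y then (f x - f y) ^ 2 else 0))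
            ≤ C / (B.card : ℝ) ^ α * ∑ x ∈ B, f x ^ 2) := by
  rintro V₁ V₂ G₁ G₂ α hα i1 i2 c1 c2 ⟨D₁, hD₁⟩ ⟨D₂, hD₂⟩ ⟨φ, a, b, c, ha, hb, hc, hφ, hs⟩ ⟨C, hC⟩
  obtain ⟨nb1, n1, d1⟩ := ex_nbr hD₁
  obtain ⟨nb2, n2, d2⟩ := ex_nbr hD₂
  choose ψ hψ using hs
  have ha0 : 0 < a := by linarith
  have tri : ∀ u v w : V₂, (G₂.dist u w : ℝ) ≤ G₂.dist u v + G₂.dist v w := fun u v w => by
    exact_mod_cast c2.dist_triangle
  have A1 : ∀ z w, (G₁.dist (ψ z) (ψ w) : ℝ) ≤ a * (G₂.dist z w + 2 * c + b) := by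
    intro z w
    have h1 := (hφ (ψ z) (ψ w)).1
    have h2 := tri (φ (ψ z)) z (φ (ψ w))
    have h3 := tri z w (φ (ψ w))
    have h4 := hψ z
    have h5 := hψ w
    rw [SimpleGraph.dist_comm] at h5
    rw [mul_comm, ← div_le_iff₀ ha0]
    linarith
  have A2 : ∀ x, (G₁.dist (ψ (φ x)) x : ℝ) ≤ a * (1 + 2 * c + b) := by
    intro x
    have h1 := (hφ (ψ (φ x)) x).1
    have h4 := hψ (φ x)
    rw [mul_comm, ← div_le_iff₀ ha0]
    linarith
  have A3 : ∀ z w, (G₂.dist z w : ℝ) ≤ a * G₁.dist (ψ z) (ψ w) + b + 2 * c := by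
    intro z w
    have h1 := (hφ (ψ z) (ψ w)).2
    have h2 := tri z (φ (ψ z)) w
    have h3 := tri (φ (ψ z)) (φ (ψ w)) w
    have h4 := hψ z
    have h5 := hψ w
    rw [SimpleGraph.dist_comm] at h4
    linarith
  obtain ⟨M, Ka, Kb, Kc, hM, hKa, hKb, hKc, H⟩ := transfer G₁ G₂ c1 c2 nb1 n1 d1 nb2 n2 d2 ψ
    (⌈a * (1 + 2 * c + b)⌉₊ + 1) (by omega)
    (fun r => ⟨⌈a * (r + 2 * c + b)⌉₊, fun z w h => by
      have h' : (G₂.dist z w : ℝ) ≤ r := by exact_mod_cast h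
      have := (A1 z w).trans ((mul_le_mul_of_nonneg_left (by linarith) ha0.le).trans
        (Nat.le_ceil (a * (r + 2 * c + b))))
      exact_mod_cast this⟩)
    (fun z w h => by
      have := A1 z w
      rw [SimpleGraph.dist_eq_one_iff_adj.2 h, Nat.cast_one] at this
      have := this.trans (Nat.le_ceil _)
      exact Nat.le_succ_of_le (by exact_mod_cast this))
    (fun x => ⟨φ x, Nat.le_succ_of_le (by exact_mod_cast (A2 x).trans (Nat.le_ceil _))⟩)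
    (fun r => ⟨⌈a * r + b + 2 * c⌉₊, fun z w h => by
      have h' : (G₁.dist (ψ z) (ψ w) : ℝ) ≤ r := by exact_mod_cast h
      have h2 := mul_le_mul_of_nonneg_left h' ha0.le
      have := (A3 z w).trans (le_trans (by linarith) (Nat.le_ceil (a * r + b + 2 * c)))
      exact_mod_cast this⟩)
  have hM' : (0 : ℝ) < M := by exact_mod_cast hM
  set C1 : ℝ := |C| * (M : ℝ) ^ α with hC1
  have C10 : 0 ≤ C1 := by positivity
  set Λ : ℝ := 2 * Ka * C1 + (M : ℝ) ^ α with hΛ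
  refine ⟨D₂ * Λ + 2 * Kc * Kb * C1, fun Ω B hB h2 => ?_⟩
  have hB0 : (0 : ℝ) < B.card := by exact_mod_cast (by omega : 0 < B.card)
  have hBα : (0 : ℝ) < (B.card : ℝ) ^ α := by positivity
  by_cases hsmall : (B.card : ℝ) ^ α ≤ Λ
  · obtain ⟨f, f1, f2, f3⟩ := trivial_fn nb2 n2 d2 Ω B hB h2
    refine ⟨f, f1, f2, f3.trans (mul_le_mul_of_nonneg_right ?_ f2.le)⟩
    rw [le_div_iff₀ hBα]
    have : (D₂ : ℝ) * (B.card : ℝ) ^ α ≤ D₂ * Λ := mul_le_mul_of_nonneg_left hsmall (by positivity)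
    have : 0 ≤ 2 * Kc * Kb * C1 := by positivity
    linarith
  push Not at hsmall
  obtain ⟨Ω', B', hB', hcard, Hf⟩ := H Ω B hB
  have hMB : M < B.card := by
    have h1 : (M : ℝ) ^ α < (B.card : ℝ) ^ α := by
      have : 0 ≤ 2 * Ka * C1 := by positivity
      linarith
    exact_mod_cast (Real.rpow_lt_rpow_iff hM'.le hB0.le hα).1 h1
  have h2' : 2 ≤ B'.card := by
    by_contra h
    have : M * B'.card ≤ M * 1 := Nat.mul_le_mul_left _ (by omega)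
    omega
  obtain ⟨f, f1, f2, f3⟩ := hC Ω' B' hB' h2'
  have hB0' : (0 : ℝ) < B'.card := by exact_mod_cast (by omega : 0 < B'.card)
  set ε : ℝ := C1 / (B.card : ℝ) ^ α with hε
  have hε0 : 0 ≤ ε := by positivity
  have e1 : C / (B'.card : ℝ) ^ α ≤ ε := by
    have h1 : (B.card : ℝ) ^ α ≤ (M : ℝ) ^ α * (B'.card : ℝ) ^ α := by
      rw [← Real.mul_rpow hM'.le hB0'.le]
      exact Real.rpow_le_rpow hB0.le (by exact_mod_cast hcard) hα.le
    rw [hε, div_le_div_iff₀ (by positivity) hBα, hC1]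
    calc C * (B.card : ℝ) ^ α ≤ |C| * (B.card : ℝ) ^ α :=
          mul_le_mul_of_nonneg_right (le_abs_self C) hBα.le
      _ ≤ |C| * ((M : ℝ) ^ α * (B'.card : ℝ) ^ α) := mul_le_mul_of_nonneg_left h1 (abs_nonneg C)
      _ = _ := by ring
  have e2 : 2 * Ka * ε ≤ 1 := by
    rw [hε, ← mul_div_assoc, div_le_one hBα]
    have : 0 ≤ (M : ℝ) ^ α := by positivity
    linarith
  set P := ∑ x ∈ B', f x ^ 2 with hP
  have e3 : En G₁ Ω' B' f ≤ ε * P := f3.trans (mul_le_mul_of_nonneg_right e1 f2.le)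
  set m : ℝ := (∑ b ∈ B, f (ψ b)) / B.card with hm
  obtain ⟨k1, k2⟩ := Hf f m
  set Q := ∑ b ∈ B, (f (ψ b) - m) ^ 2 with hQ
  have e4 : P ≤ ∑ y ∈ B', (f y - m) ^ 2 := by
    have : ∑ y ∈ B', (f y - m) ^ 2 = P - 2 * m * ∑ y ∈ B', f y + ∑ y ∈ B', m ^ 2 := by
      rw [hP, mul_sum, ← sum_sub_distrib, ← sum_add_distrib]
      exact sum_congr rfl (fun _ _ => by ring)
    rw [this, f1]
    have : 0 ≤ ∑ y ∈ B', m ^ 2 := sum_nonneg (fun _ _ => sq_nonneg _)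
    linarith
  have e5 : P ≤ 2 * Kb * Q := by
    have a1 := mul_le_mul_of_nonneg_left e3 hKa.le
    have a2 := mul_le_mul_of_nonneg_right e2 f2.le
    nlinarith
  have hQ0 : 0 < Q := by
    by_contra h
    have : 2 * Kb * Q ≤ 0 := mul_nonpos_of_nonneg_of_nonpos (by positivity) (not_lt.1 h)
    linarith
  refine ⟨fun z => f (ψ z) - m, ?_, hQ0, ?_⟩
  · rw [sum_sub_distrib, sum_const, nsmul_eq_mul, hm]
    field_simp
    ring
  · refine k1.trans ?_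
    have a1 := mul_le_mul_of_nonneg_left e3 hKc.le
    have a2 := mul_le_mul_of_nonneg_left e5 (mul_nonneg hKc.le hε0)
    have a3 : 2 * Kc * Kb * ε ≤ (D₂ * Λ + 2 * Kc * Kb * C1) / (B.card : ℝ) ^ α := by
      rw [hε, ← mul_div_assoc]
      apply div_le_div_of_nonneg_right _ hBα.le
      have : 0 ≤ (D₂ : ℝ) * Λ := by positivity
      linarith
    have a4 := mul_le_mul_of_nonneg_right a3 hQ0.le
    nlinarith

end Pool.Agent.S08725
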