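import Pool.Statements.S08761
import Pool.Agent.H.MP_52d521_co.C

set_option autoImplicit false
open Pool Pool.MP_52d521_co

namespace Pool.Agent.S08761

theorem result :
    ∀ (V : Type) [Fintype V] (G : SimpleGraph V),
      (G.edgeSet.ncard + 3 = 2 * Fintype.card V ∧
        ∀ S : Finset V, 2 ≤ S.card →
          {e ∈ G.edgeSet | ∀ v ∈ e, v ∈ S}.ncard + 3 ≤ 2 * S.card) →
      ∀ p q : V → Fin 2 → ℂ,
        AlgebraicIndependent ℚ (fun x : V × Fin 2 => p x.1 x.2) →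
        {K : Set (V → Fin 2 → ℂ) | ∃ r : V → Fin 2 → ℂ,
            (∀ u v, G.Adj u v →
              ∑ k : Fin 2, (r u k - r v k) ^ 2 = ∑ k : Fin 2, (q u k - q v k) ^ 2) ∧
            K = {s | ∀ u v,
              ∑ k : Fin 2, (s u k - s v k) ^ 2 = ∑ k : Fin 2, (r u k - r v k) ^ 2}}.Finite →
        {K : Set (V → Fin 2 → ℂ) | ∃ r : V → Fin 2 → ℂ,
            (∀ u v, G.Adj u v →
              ∑ k : Fin 2, (r u k - r v k) ^ 2 = ∑ k : Fin 2, (q u k - q v k) ^ 2) ∧
            K = {s | ∀ u v,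
              ∑ k : Fin 2, (s u k - s v k) ^ 2 = ∑ k : Fin 2, (r u k - r v k) ^ 2}}.encard ≤
        {K : Set (V → Fin 2 → ℂ) | ∃ r : V → Fin 2 → ℂ,
            (∀ u v, G.Adj u v →
              ∑ k : Fin 2, (r u k - r v k) ^ 2 = ∑ k : Fin 2, (p u k - p v k) ^ 2) ∧
            K = {s | ∀ u v,
              ∑ k : Fin 2, (s u k - s v k) ^ 2 = ∑ k : Fin 2, (r u k - r v k) ^ 2}}.encard := by
  intro V _ G hG p q hp hfin
  rw [Pool.Agent.H.MP_52d521_co.classes, Pool.Agent.H.MP_52d521_co.classes]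
  refine Pool.Agent.H.MP_52d521_co.main G (fun S hS => ?_) p q hp ?_
  · have := hG.2 S hS
    rw [← Set.ncard_coe_finset]
    convert this
    ext e
    simp [Pool.Agent.H.MP_52d521_co.Ed]
  · rw [← Set.encard_lt_top_iff, ← Pool.Agent.H.MP_52d521_co.classes]
    exact hfin.encard_lt_top

end Pool.Agent.S08761
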