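import Pool.Statements.S08767
import Pool.Agent.Lib.helper4.Ramsey
import Pool.Agent.H.MP_52f1b6_co.Core

set_option autoImplicit false
open Pool Pool.MP_52f1b6_co

namespace Pool.Agent.S08767

open Finset Pool.Agent.Lib.helper4.Ramsey Pool.Agent.H.MP_52f1b6_co

/-- colour scheme of a set. -/
def sch {n r : ℕ} (c : Finset (Fin n) → Fin r) (k : ℕ) (L : Finset (Fin n)) : Fin r → ℕ :=
  fun i => ((L.powersetCard k).filter (fun K => c K = i)).card

theorem sum_sch {n r : ℕ} (c : Finset (Fin n) → Fin r) (k : ℕ) (L : Finset (Fin n))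
    (h : Fin r → ℚ) : ∑ K ∈ L.powersetCard k, h (c K) = ∑ i, (sch c k L i : ℚ) * h i := by
  rw [← sum_fiberwise (s := L.powersetCard k) (g := c) (f := fun K => h (c K))]
  apply sum_congr rfl
  intro i _
  rw [sum_congr rfl (g := fun _ => h i) (fun K hK => by rw [(mem_filter.mp hK).2]), sum_const,
    nsmul_eq_mul]
  rfl

theorem sep0 {n r k l : ℕ} (hkl : k < l) (hn : k + l ≤ n) (c : Finset (Fin n) → Fin r)
    (hc : ∀ i : Fin r, ∃ K : Finset (Fin n), K.card = k ∧ c K = i)
    (hs : (((univ : Finset (Finset (Fin n))).filter (fun L => L.card = l)).image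
      (sch c k)).card = r) (L0 : Finset (Fin n)) (_hL0 : L0.card = l) :
    ∃ h : Fin r → ℚ, ∀ L : Finset (Fin n), L.card = l →
      ∑ K ∈ L.powersetCard k, h (c K) = if sch c k L = sch c k L0 then 1 else 0 := by
  set S := ((univ : Finset (Finset (Fin n))).filter (fun L => L.card = l)).image (sch c k) with hS
  have hmem : ∀ L : Finset (Fin n), L.card = l → sch c k L ∈ S := fun L hL =>
    mem_image_of_mem _ (mem_filter.mpr ⟨mem_univ _, hL⟩)
  let Φ : (Fin r → ℚ) →ₗ[ℚ] (S → ℚ) :=
    { toFun := fun h σ => ∑ i, (σ.1 i : ℚ) * h i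
      map_add' := fun h h' => by
        ext σ; simp only [Pi.add_apply, mul_add, sum_add_distrib]
      map_smul' := fun a h => by
        ext σ
        simp only [Pi.smul_apply, smul_eq_mul, RingHom.id_apply, mul_sum]
        exact sum_congr rfl (fun i _ => by ring) }
  have hinj : Function.Injective Φ := by
    rw [← LinearMap.ker_eq_bot, LinearMap.ker_eq_bot']
    intro h hh
    ext i
    obtain ⟨K, hK, rfl⟩ := hc i
    refine kantor k l univ (fun K => h (c K)) hkl.le (by simpa using hn) ?_ K (subset_univ _) hK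
    intro L _ hL
    rw [sum_sch]
    exact congrFun hh ⟨_, hmem L hL⟩
  have hsurj := (LinearMap.injective_iff_surjective_of_finrank_eq_finrank
    (by simp [hs])).mp hinj
  obtain ⟨h, hh⟩ := hsurj (fun σ => if σ.1 = sch c k L0 then 1 else 0)
  refine ⟨h, fun L hL => ?_⟩
  rw [sum_sch]
  exact congrFun hh ⟨_, hmem L hL⟩

/-- the colour of `J' ∪ T` depends only on `J'`. -/
def Good {n r : ℕ} (c : Finset (Fin n) → Fin r) (k l : ℕ) (J Y : Finset (Fin n)) : Prop :=
  Disjoint J Y ∧ Y.card = l ∧ ∀ J' ⊆ J, ∀ T ⊆ Y, ∀ T' ⊆ Y, J'.card + T.card = k →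
    J'.card + T'.card = k → c (J' ∪ T) = c (J' ∪ T')

theorem good (k l : ℕ) (hkl : k < l) : ∃ M : ℕ, ∀ n r : ℕ, M ≤ n →
    ∀ c : Finset (Fin n) → Fin r,
    (∀ i : Fin r, ∃ K : Finset (Fin n), K.card = k ∧ c K = i) →
    (((univ : Finset (Finset (Fin n))).filter (fun L => L.card = l)).image
      (sch c k)).card = r → ∀ K0 : Finset (Fin n), K0.card = k → ∃ Y, Good c k l K0 Y := by
  classical
  let N := 8 * k + 4 * l + 12
  obtain ⟨M, hM⟩ := ram_all (fun u => Finset (Fin k ⊕ Fin u) → Finset (Fin k ⊕ Fin u) → Prop)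
    (2 * k + 1) N
  refine ⟨M + k + l, fun n r hn c hc hs K0 hK0 => ?_⟩
  let κ : Fin k → Fin n := K0.orderEmbOfFin hK0
  obtain ⟨Y, hYS, hYc, hY⟩ := hM (Fin n) (univ \ K0)
    (by rw [card_sdiff_of_subset (subset_univ _), card_univ, Fintype.card_fin]; omega)
    (fun u a B B' => c (B.image (Sum.elim κ a)) = c (B'.image (Sum.elim κ a)))
  have hNpos : 0 < N := by omega
  let e : ℕ → Fin n := fun z => Y.orderEmbOfFin hYc ⟨z % N, Nat.mod_lt _ hNpos⟩
  have heY : ∀ z, e z ∈ Y := fun z => Y.orderEmbOfFin_mem hYc _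
  have hemono : ∀ y z, y < z → z < N → e y < e z := by
    intro y z hyz hz
    apply (Y.orderEmbOfFin hYc).strictMono
    show y % N < z % N
    rw [Nat.mod_eq_of_lt hz, Nat.mod_eq_of_lt (hyz.trans hz)]
    exact hyz
  have heinj : ∀ y z, y < N → z < N → e y = e z → y = z := by
    intro y z hy hz h
    rcases lt_trichotomy y z with h1 | h1 | h1
    · exact absurd h (hemono y z h1 hz).ne
    · exact h1
    · exact absurd h (hemono z y h1 hy).ne'
  have hκK : ∀ i, κ i ∈ K0 := fun i => K0.orderEmbOfFin_mem hK0 i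
  have hκe : ∀ i z, κ i ≠ e z := fun i z h => (mem_sdiff.mp (hYS (heY z))).2 (h ▸ hκK i)
  let ι : Fin k ⊕ ℕ → Fin n := Sum.elim κ e
  have hι : ∀ L : Finset (Fin k ⊕ ℕ), (∀ z ∈ L.toRight, z < N) → Set.InjOn ι L := by
    rintro L hL (x | x) hx (y | y) hy h
    · exact congrArg _ ((K0.orderEmbOfFin hK0).injective h)
    · exact absurd h (hκe _ _)
    · exact absurd h.symm (hκe _ _)
    · exact congrArg _ (heinj x y (hL x (mem_toRight.mpr hx)) (hL y (mem_toRight.mpr hy)) h)
  let χ : Finset (Fin k ⊕ ℕ) → Fin r := fun A => c (A.image ι)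
  have hI : Inv χ k N := by
    intro A A' hA hA' φ hφ hφN
    let U := A.toRight ∪ A'.toRight
    have hU : U.card < 2 * k + 1 := by
      have h1 : U.card ≤ A.toRight.card + A'.toRight.card := card_union_le _ _
      have h2 : A.toRight.card ≤ A.card := card_toRight_le
      have h3 : A'.toRight.card ≤ A'.card := card_toRight_le
      omega
    let w : Fin U.card → ℕ := U.orderEmbOfFin rfl
    have hw : ∀ i, w i ∈ U := fun i => U.orderEmbOfFin_mem rfl i
    have hwm : StrictMono w := (U.orderEmbOfFin rfl).strictMono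
    have hws : ∀ z ∈ U, ∃ i, w i = z := by
      intro z hz
      have : z ∈ Set.range (U.orderEmbOfFin rfl) := by
        rw [range_orderEmbOfFin]; exact hz
      exact this
    have h1 := hY U.card hU (e ∘ w) (e ∘ φ ∘ w)
      (fun i j hij => hemono _ _ (hwm hij) (hφN _ (hw j)).1)
      (fun i j hij => hemono _ _ (hφ _ (hw i) _ (hw j) (hwm hij)) (hφN _ (hw j)).2)
      (fun i => heY _) (fun i => heY _)
    let pre : Finset (Fin k ⊕ ℕ) → Finset (Fin k ⊕ Fin U.card) := fun D =>
      univ.filter (fun v => Sum.map id w v ∈ D)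
    have hpre : ∀ D : Finset (Fin k ⊕ ℕ), D.toRight ⊆ U →
        (pre D).image (Sum.map id w) = D := by
      intro D hD
      ext v
      simp only [pre, mem_image, mem_filter, mem_univ, true_and]
      constructor
      · rintro ⟨v', hv', rfl⟩; exact hv'
      · intro hv
        rcases v with x | x
        · exact ⟨Sum.inl x, hv, rfl⟩
        · obtain ⟨i, rfl⟩ := hws x (hD (mem_toRight.mpr hv))
          exact ⟨Sum.inr i, hv, rfl⟩
    have h2 : ∀ D : Finset (Fin k ⊕ ℕ), D.toRight ⊆ U →
        (pre D).image (Sum.elim κ (e ∘ w)) = D.image ι := by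
      intro D hD
      conv_rhs => rw [← hpre D hD, image_image]
      congr 1
      ext (x | x) <;> rfl
    have h3 : ∀ D : Finset (Fin k ⊕ ℕ), D.toRight ⊆ U →
        (pre D).image (Sum.elim κ (e ∘ φ ∘ w)) = (ap φ D).image ι := by
      intro D hD
      conv_rhs => rw [← hpre D hD, ap, image_image, image_image]
      congr 1
      ext (x | x) <;> rfl
    have h4 := congrFun (congrFun h1 (pre A)) (pre A')
    simp only [h2 A subset_union_left, h2 A' subset_union_right, h3 A subset_union_left,
      h3 A' subset_union_right] at h4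
    exact iff_of_eq h4
  have hS : Sep χ k l N := by
    intro L0 hL0 hb
    obtain ⟨h, hh⟩ := sep0 hkl (by omega) c hc hs (L0.image ι)
      (by rw [card_image_of_injOn (hι L0 hb), hL0])
    refine ⟨h, ?_, fun L hL hbL => ?_⟩
    · have := hh (L0.image ι) (by rw [card_image_of_injOn (hι L0 hb), hL0])
      rw [if_pos rfl, sum_pc_image ι L0 (hι L0 hb) k (fun K => h (c K))] at this
      exact this
    · have := hh (L.image ι) (by rw [card_image_of_injOn (hι L hbL), hL])
      rw [sum_pc_image ι L (hι L hbL) k (fun K => h (c K))] at this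
      split_ifs at this with h1
      · right
        intro A hA
        have hA1 := mem_powersetCard.mp hA
        have h2 : sch c k (L0.image ι) (χ A) ≠ 0 := by
          apply card_ne_zero.mpr
          exact ⟨A.image ι, mem_filter.mpr ⟨mem_powersetCard.mpr ⟨image_subset_image hA1.1, by
            rw [card_image_of_injOn ((hι L0 hb).mono hA1.1), hA1.2]⟩, rfl⟩⟩
        rw [← h1] at h2
        obtain ⟨K, hK⟩ := card_ne_zero.mp h2
        have hK1 := mem_filter.mp hK
        have hK2 := mem_powersetCard.mp hK1.1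
        obtain ⟨B, hB, rfl⟩ := subset_image_iff.mp hK2.1
        refine ⟨B, mem_powersetCard.mpr ⟨hB, ?_⟩, hK1.2⟩
        exact (card_image_of_injOn ((hι L hbL).mono hB)).symm.trans hK2.2
      · left; exact this
  have hcore := core hI hS hkl le_rfl
  have heI : Set.InjOn e (range l : Finset ℕ) := fun y hy z hz h =>
    heinj y z (by have := mem_range.mp hy; omega) (by have := mem_range.mp hz; omega) h
  refine ⟨(range l).image e, ?_, by rw [card_image_of_injOn heI, card_range], ?_⟩
  · rw [disjoint_left]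
    intro x hx hx2
    obtain ⟨z, -, rfl⟩ := mem_image.mp hx2
    exact (mem_sdiff.mp (hYS (heY z))).2 hx
  · intro J hJ T hT T' hT' h1 h2
    rw [← image_orderEmbOfFin_univ K0 hK0] at hJ
    obtain ⟨J0, -, rfl⟩ := subset_image_iff.mp hJ
    have key : ∀ T0 ⊆ range l, (J0.image κ).card + (T0.image e).card = k →
        c (J0.image κ ∪ T0.image e) = χ (J0.disjSum (range (k - J0.card))) := by
      intro T0 hT0 h3
      rw [card_image_of_injective _ (K0.orderEmbOfFin hK0).injective,
        card_image_of_injOn (heI.mono hT0)] at h3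
      have h4 := hcore _ (J0.disjSum T0) (by rw [card_disjSum, h3])
        (by rw [toRight_disjSum]; exact fun z hz => mem_range.mp (hT0 hz)) rfl
      rw [toLeft_disjSum] at h4
      rw [← h4]
      show c _ = c _
      congr 1
      ext x
      simp only [mem_union, mem_image, mem_disjSum]
      constructor
      · rintro (⟨a, ha, rfl⟩ | ⟨a, ha, rfl⟩)
        · exact ⟨Sum.inl a, Or.inl ⟨a, ha, rfl⟩, rfl⟩
        · exact ⟨Sum.inr a, Or.inr ⟨a, ha, rfl⟩, rfl⟩
      · rintro ⟨v, (⟨a, ha, rfl⟩ | ⟨a, ha, rfl⟩), rfl⟩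
        · exact Or.inl ⟨a, ha, rfl⟩
        · exact Or.inr ⟨a, ha, rfl⟩
    obtain ⟨T0, hT0, rfl⟩ := subset_image_iff.mp hT
    obtain ⟨T1, hT1, rfl⟩ := subset_image_iff.mp hT'
    exact (key T0 hT0 h1).trans (key T1 hT1 h2).symm

theorem levels {n r k l : ℕ} (hkl : k < l) (c : Finset (Fin n) → Fin r)
    (hc : ∀ i : Fin r, ∃ K : Finset (Fin n), K.card = k ∧ c K = i)
    (hg : ∀ K0 : Finset (Fin n), K0.card = k → ∃ Y, Good c k l K0 Y) :
    ∃ (lev : Fin r → ℕ) (τ : Fin r → Finset (Fin n)), ∀ i, (τ i).card = l ∧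
      sch c k (τ i) i ≠ 0 ∧ ∀ i', i' ≠ i → lev i ≤ lev i' → sch c k (τ i) i' = 0 := by
  classical
  let Has : Fin r → ℕ → Prop := fun i j => ∃ J Y, Good c k l J Y ∧ J.card = j ∧
    ∃ T ⊆ Y, J.card + T.card = k ∧ c (J ∪ T) = i
  have hex : ∀ i, ∃ j, Has i j := by
    intro i
    obtain ⟨K, hK, rfl⟩ := hc i
    obtain ⟨Y, hY⟩ := hg K hK
    exact ⟨k, K, Y, hY, hK, ∅, empty_subset _, by simpa using hK, by rw [union_empty]⟩
  have key : ∀ i, ∃ L : Finset (Fin n), L.card = l ∧ sch c k L i ≠ 0 ∧
      ∀ i', i' ≠ i → Nat.find (hex i) ≤ Nat.find (hex i') → sch c k L i' = 0 := by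
    intro i
    obtain ⟨J, Y, hG, hJ, T, hT, hTc, hcol⟩ := Nat.find_spec (hex i)
    obtain ⟨Y', hTY', hY', hY'c⟩ := exists_subsuperset_card_eq (n := l - J.card) hT
      (by omega) (by rw [hG.2.1]; omega)
    have hd : Disjoint J Y' := disjoint_of_subset_right hY' hG.1
    refine ⟨J ∪ Y', by rw [card_union_of_disjoint hd, hY'c]; omega, ?_, ?_⟩
    · apply card_ne_zero.mpr
      refine ⟨J ∪ T, mem_filter.mpr ⟨mem_powersetCard.mpr ⟨union_subset_union_right hTY', ?_⟩,
        hcol⟩⟩
      rw [card_union_of_disjoint (disjoint_of_subset_right hT hG.1), hTc]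
    · intro i' hne hle
      by_contra h1
      obtain ⟨K, hK⟩ := card_ne_zero.mp h1
      have hK1 := mem_filter.mp hK
      have hK2 := mem_powersetCard.mp hK1.1
      have hT2 : K \ J ⊆ Y := by
        intro x hx
        have := mem_sdiff.mp hx
        rcases mem_union.mp (hK2.1 this.1) with h | h
        · exact absurd h this.2
        · exact hY' h
      have hKe : K ∩ J ∪ K \ J = K := by
        ext x; simp only [mem_union, mem_inter, mem_sdiff]; tauto
      have hKc : (K ∩ J).card + (K \ J).card = k := by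
        rw [card_inter_add_card_sdiff, hK2.2]
      by_cases hJK : K ∩ J = J
      · apply hne
        rw [← hK1.2, ← hcol, ← hKe, hJK]
        rw [hJK] at hKc
        exact hG.2.2 J subset_rfl _ hT2 _ hT hKc hTc
      · have hlt : (K ∩ J).card < J.card :=
          card_lt_card (ssubset_of_subset_of_ne inter_subset_right hJK)
        have h2 : Has i' (K ∩ J).card :=
          ⟨K ∩ J, Y, ⟨disjoint_of_subset_left inter_subset_right hG.1, hG.2.1,
            fun J' hJ' => hG.2.2 J' (hJ'.trans inter_subset_right)⟩, rfl, K \ J, hT2, hKc,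
            by rw [hKe, hK1.2]⟩
        have h3 := Nat.find_min' (hex i') h2
        omega
  choose τ hτ using key
  exact ⟨fun i => Nat.find (hex i), τ, hτ⟩

/-- There is g(k,l) so that for k<l, n≥g(k,l), any colouring of k-subsets of an n-set using all r colours with exactly r distinct count-vectors on l-sets admits orderings making the colour-by-scheme count matrix upper triangular with nonzero diagonal. -/
theorem result :
    ∃ g : ℕ → ℕ → ℕ, ∀ k l : ℕ, k < l → ∀ n r : ℕ, g k l ≤ n →
      ∀ c : Finset (Fin n) → Fin r,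
        (∀ i : Fin r, ∃ K : Finset (Fin n), K.card = k ∧ c K = i) →
        (((Finset.univ : Finset (Finset (Fin n))).filter (fun L => L.card = l)).image
            (fun L => fun i : Fin r => ((L.powersetCard k).filter (fun K => c K = i)).card)).card = r →
        ∃ e : Fin r ≃ Fin r, ∃ σ : Fin r → Finset (Fin n),
          (∀ j, (σ j).card = l) ∧
          Function.Injective
            (fun j => fun i : Fin r => (((σ j).powersetCard k).filter (fun K => c K = i)).card) ∧
          (∀ i j : Fin r, j < i →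
            (((σ j).powersetCard k).filter (fun K => c K = e i)).card = 0) ∧
          (∀ j : Fin r,
            (((σ j).powersetCard k).filter (fun K => c K = e j)).card ≠ 0) := by
  classical
  refine ⟨fun k l => if h : k < l then (good k l h).choose else 0, ?_⟩
  intro k l hkl n r hn c hc hs
  simp only [dif_pos hkl] at hn
  obtain ⟨lev, τ, hτ⟩ := levels hkl c hc ((good k l hkl).choose_spec n r hn c hc hs)
  let e := Tuple.sort lev
  have htri : ∀ i j : Fin r, j < i → sch c k (τ (e j)) (e i) = 0 := fun i j hji =>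
    (hτ (e j)).2.2 (e i) (fun h => hji.ne' (e.injective h)) (Tuple.monotone_sort lev hji.le)
  refine ⟨e, fun j => τ (e j), fun j => (hτ _).1, ?_, htri, fun j => (hτ (e j)).2.1⟩
  intro j j' h
  have h1 : sch c k (τ (e j)) = sch c k (τ (e j')) := h
  rcases lt_trichotomy j j' with h2 | h2 | h2
  · exact absurd (h1 ▸ htri j' j h2) (hτ (e j')).2.1
  · exact h2
  · exact absurd (h1 ▸ htri j j' h2) (hτ (e j)).2.1

end Pool.Agent.S08767
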