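import Pool.Statements.S08772
import Pool.Agent.H.MP_6142e4_co.B

set_option autoImplicit false
open Pool Pool.MP_537007_co

namespace Pool.Agent.S08772

/-- The negation of the preceding statement: There is f : ℕ → ℕ such that every finite graph whose line graph has boxicity at most k (separation dimension at most k) itself has boxicity at most f(k). -/
theorem result :
    ¬ (∃ f : ℕ → ℕ, ∀ (V : Type) [Fintype V] (G : SimpleGraph V) (k : ℕ),
      (∃ l r : G.edgeSet → Fin k → ℝ, (∀ e i, l e i ≤ r e i) ∧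
        ∀ e₁ e₂ : G.edgeSet, e₁ ≠ e₂ →
          (G.lineGraph.Adj e₁ e₂ ↔ ∀ i, max (l e₁ i) (l e₂ i) ≤ min (r e₁ i) (r e₂ i))) →
      ∃ l r : V → Fin (f k) → ℝ, (∀ v i, l v i ≤ r v i) ∧
        ∀ u v : V, u ≠ v →
          (G.Adj u v ↔ ∀ i, max (l u i) (l v i) ≤ min (r u i) (r v i))) := by
  rintro ⟨f, h⟩
  obtain ⟨V, _, G, h1, h2⟩ := Pool.Agent.H.MP_6142e4_co.nobox (f 4)
  exact h2 (h V G 4 h1)

end Pool.Agent.S08772
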