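import Pool.Statements.S08780
import Pool.Agent.H.MP_53cd62_co.A

set_option autoImplicit false
open Pool Pool.MP_53cd62_co

namespace Pool.Agent.S08780

/-- The negation of the preceding statement: For each even d ≥ 2 there are constants C, c > 0 such that for every finite field F of odd characteristic with q elements, every E ⊆ F^d with ∣E∣ ≥ C q^{d/2} has at least c·q distinct values of ∑(x_k − y_k)² over x, y in E. -/
theorem result :
    ¬ (∀ d : ℕ, Even d → 2 ≤ d →
      ∃ C c : ℝ, 0 < C ∧ 0 < c ∧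
        ∀ (F : Type) [Field F] [Fintype F] [DecidableEq F], ringChar F ≠ 2 →
          ∀ E : Finset (Fin d → F),
            C * ((Fintype.card F : ℝ) ^ (d / 2)) ≤ (E.card : ℝ) →
              c * (Fintype.card F : ℝ) ≤
                (((E ×ˢ E).image (fun p => ∑ k, (p.1 k - p.2 k) ^ 2)).card : ℝ)) := by
  intro H
  obtain ⟨C, c, hC, hc, H⟩ := H 2 even_two le_rfl
  obtain ⟨M, hM⟩ := Pool.Agent.H.MP_53cd62_co.density (δ := c / (8 * (C + 1))) (by positivity)
  obtain ⟨p, hp, pp⟩ := Nat.exists_infinite_primes (⌈max (4 * (C + 1)) (2 * M / c)⌉₊ + 3)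
  have := Fact.mk pp
  have hp' : max (4 * (C + 1)) (2 * M / c) < p :=
    (Nat.le_ceil _).trans_lt (by exact_mod_cast (by omega))
  have p1 : 4 * (C + 1) < p := (le_max_left _ _).trans_lt hp'
  have p2 : 2 * M < p * c := (div_lt_iff₀ hc).1 ((le_max_right _ _).trans_lt hp')
  have p0 : (1 : ℝ) ≤ p := by exact_mod_cast pp.one_le
  obtain ⟨N, N1, N2⟩ : ∃ N : ℕ, C * p ≤ (N : ℝ) ^ 2 ∧ (N : ℝ) ^ 2 ≤ 4 * (C + 1) * p := by
    refine ⟨⌈√(C * p)⌉₊, ?_, ?_⟩
    · exact (Real.sqrt_le_left (by positivity)).1 (Nat.le_ceil _)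
    · have a := (Nat.ceil_lt_add_one (Real.sqrt_nonneg (C * p))).le
      have b := Real.sq_sqrt (show 0 ≤ C * p by positivity)
      have d := pow_le_pow_left₀ (by positivity) a 2
      nlinarith [sq_nonneg (√(C * p) - 1)]
  have Np : N ≤ p := by
    have : (N : ℝ) ^ 2 ≤ (p : ℝ) ^ 2 := by nlinarith
    exact_mod_cast (pow_le_pow_iff_left₀ (by positivity) (by positivity) two_ne_zero).1 this
  let f : ℕ × ℕ → Fin 2 → ZMod p := fun x => ![x.1, x.2]
  have hE : ((Finset.range N ×ˢ Finset.range N).image f).card = N ^ 2 := by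
    rw [Finset.card_image_of_injOn, Finset.card_product, Finset.card_range, pow_two]
    rintro ⟨a, b⟩ h ⟨a', b'⟩ h' e
    simp only [Finset.coe_product, Finset.coe_range, Set.mem_prod, Set.mem_Iio] at h h'
    have e1 : (a : ZMod p) = a' := congrFun e 0
    have e2 : (b : ZMod p) = b' := congrFun e 1
    rw [ZMod.natCast_eq_natCast_iff] at e1 e2
    rw [e1.eq_of_lt_of_lt (by omega) (by omega), e2.eq_of_lt_of_lt (by omega) (by omega)]
  have h := H (ZMod p) (by rw [ZMod.ringChar_zmod_n]; omega) ((Finset.range N ×ˢ Finset.range N).image f)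
    (by rw [hE, ZMod.card]; simpa using N1)
  have sq : ∀ a a' : ℕ, a < N → a' < N → ∃ s < N, ((a : ZMod p) - a') ^ 2 = (s : ZMod p) ^ 2 := by
    intro a a' h h'
    rcases le_total a a' with e | e
    · exact ⟨a' - a, by omega, by rw [Nat.cast_sub e]; ring⟩
    · exact ⟨a - a', by omega, by rw [Nat.cast_sub e]⟩
  have sub : ((((Finset.range N ×ˢ Finset.range N).image f) ×ˢ ((Finset.range N ×ˢ Finset.range N).image f)).image
      (fun p => ∑ k, (p.1 k - p.2 k) ^ 2)) ⊆
      ((Finset.range N ×ˢ Finset.range N).image fun x => x.1 ^ 2 + x.2 ^ 2).image (Nat.cast : ℕ → ZMod p) := by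
    intro z hz
    simp only [Finset.mem_image, Finset.mem_product, Finset.mem_range, Prod.exists] at hz ⊢
    obtain ⟨_, _, ⟨⟨a, b, h, rfl⟩, a', b', h', rfl⟩, rfl⟩ := hz
    obtain ⟨s, hs, e⟩ := sq a a' h.1 h'.1
    obtain ⟨t, ht, e'⟩ := sq b b' h.2 h'.2
    refine ⟨_, ⟨s, t, ⟨hs, ht⟩, rfl⟩, ?_⟩
    simp [f, Fin.sum_univ_two, e, e']
  have k : _ ≤ (_ : ℝ) := Nat.cast_le.2 ((Finset.card_le_card sub).trans Finset.card_image_le)
  have k2 := h.trans (k.trans (hM N))
  rw [ZMod.card] at k2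
  have k3 : c / (8 * (C + 1)) * (N : ℝ) ^ 2 ≤ c / (8 * (C + 1)) * (4 * (C + 1) * p) :=
    mul_le_mul_of_nonneg_left N2 (by positivity)
  have k4 : c / (8 * (C + 1)) * (4 * (C + 1) * p) = c * p / 2 := by field_simp; ring
  linarith

end Pool.Agent.S08780
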