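import Pool.Statements.S08786
import Pool.Agent.H.MP_542d22_co.A

set_option autoImplicit false
open Pool Pool.MP_542d22_co

namespace Pool.Agent.S08786

theorem result :
    ¬ (∀ (r : ℕ), 1 ≤ r → ∀ (V E : Type) [Finite V] [Finite E] [Nonempty V] (tail head : E → V),
      (∀ e, tail e ≠ head e) →
      (∀ v : V, r ≤ Nat.card {e : E // tail e = v}) →
      ∃ x y : V, x ≠ y ∧ ∃ P : Fin r → List E,
        (∀ i, P i ≠ [] ∧ (∀ e ∈ (P i).head?, tail e = x) ∧
          (∀ e ∈ (P i).getLast?, head e = y) ∧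
          ∀ (k : ℕ) (a b : E), (P i)[k]? = some a → (P i)[k+1]? = some b → head a = tail b) ∧
        ∀ i j, i ≠ j → ∀ e ∈ P i, e ∉ P j) := by
  intro h
  obtain ⟨x, y, hxy, P, hP, hdisj⟩ := h 4 (by norm_num) (Fin 6) (Fin 24)
    Pool.Agent.H.MP_542d22_co.tl Pool.Agent.H.MP_542d22_co.hd Pool.Agent.H.MP_542d22_co.noloop
    (by
      intro v
      rw [Nat.card_eq_fintype_card, Fintype.card_subtype, Pool.Agent.H.MP_542d22_co.deg v])
  obtain ⟨X, hX, hx, hy⟩ := Pool.Agent.H.MP_542d22_co.sep x y hxy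
  have hc : ∀ i, ∃ e ∈ P i, Pool.Agent.H.MP_542d22_co.tl e ∈ X ∧
      Pool.Agent.H.MP_542d22_co.hd e ∉ X := by
    intro i
    obtain ⟨h0, h1, h2, h3⟩ := hP i
    exact Pool.Agent.H.MP_542d22_co.cross _ _ (fun v => v ∈ X) (P i) h0
      (fun e he => by rw [h1 e he]; exact hx) (fun e he => by rw [h2 e he]; exact hy) h3
  choose f hf hf' using hc
  have hinj : Function.Injective f := by
    intro i j hij
    by_contra hne
    exact hdisj i j hne (f i) (hf i) (hij ▸ hf j)
  have hle : (Finset.univ : Finset (Fin 4)).card ≤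
      (Finset.univ.filter (fun e : Fin 24 => Pool.Agent.H.MP_542d22_co.tl e ∈ X ∧
        Pool.Agent.H.MP_542d22_co.hd e ∉ X)).card :=
    Finset.card_le_card_of_injOn f (fun i _ => by simpa using hf' i) (hinj.injOn)
  have := Pool.Agent.H.MP_542d22_co.small X hX
  simp at hle
  omega

end Pool.Agent.S08786
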