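import Pool.Statements.S08808
import Pool.Agent.H.MP_554eee_co.D

set_option autoImplicit false
open Pool Pool.MP_554eee_co

namespace Pool.Agent.S08808

/-- The negation of the preceding statement: For every pattern p and finite alphabet Σ: if some infinite word over Σ avoids p (no factor is a nonerasing morphic image of p), then the set of all infinite words over Σ avoiding p is perfect in the product topology. -/
theorem result :
    ¬ (∀ (m k : ℕ) (p : List (Fin m)),
      (∃ w : ℕ → Fin k, ∀ (h : Fin m → List (Fin k)), (∀ x, h x ≠ []) →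
          ∀ i n : ℕ, List.ofFn (fun j : Fin n => w (i + (j : ℕ))) ≠ p.flatMap h) →
      Perfect {w : ℕ → Fin k | ∀ (h : Fin m → List (Fin k)), (∀ x, h x ≠ []) →
          ∀ i n : ℕ, List.ofFn (fun j : Fin n => w (i + (j : ℕ))) ≠ p.flatMap h}) := by
  intro h
  have hp := (h 11 2 H.MP_554eee_co.pat ⟨H.MP_554eee_co.WW, H.MP_554eee_co.WW_av⟩).acc
    H.MP_554eee_co.WW H.MP_554eee_co.WW_av
  rw [accPt_iff_nhds] at hp
  have hU : Set.pi (Set.Iio 460) (fun n => {H.MP_554eee_co.WW n}) ∈ nhds H.MP_554eee_co.WW :=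
    set_pi_mem_nhds (Set.finite_Iio 460) (fun n _ => (isOpen_discrete _).mem_nhds rfl)
  obtain ⟨w, ⟨h1, h2⟩, h3⟩ := hp _ hU
  exact h3 (H.MP_554eee_co.uniq h2 (fun n hn => h1 n hn))

end Pool.Agent.S08808
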