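import Pool.Statements.S08825
import Pool.Agent.H.MP_5651c1_co.B

set_option autoImplicit false
open Pool Pool.MP_5651c1_co

namespace Pool.Agent.S08825

/-- For every t there is c>0 such that every finite path-pairable graph on n≥2 vertices with no K_t minor has a vertex of degree at least c·n. -/
theorem result :
    ∀ t : ℕ, ∃ c : ℝ, 0 < c ∧
      ∀ (V : Type) [Fintype V] (G : SimpleGraph V) [DecidableRel G.Adj],
        2 ≤ Fintype.card V →
        (∀ (k : ℕ) (s r : Fin k → V), Function.Injective (Sum.elim s r) →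
          ∃ p : (i : Fin k) → G.Walk (s i) (r i),
            (∀ i, (p i).IsPath) ∧
            ∀ i j, i ≠ j → ∀ e ∈ (p i).edges, e ∉ (p j).edges) →
        (¬ ∃ f : Fin t → Set V,
            (∀ i, (G.induce (f i)).Connected) ∧
            (∀ i j, i ≠ j → Disjoint (f i) (f j)) ∧
            (∀ i j, i ≠ j → ∃ u ∈ f i, ∃ v ∈ f j, G.Adj u v)) →
        ∃ v : V, c * (Fintype.card V : ℝ) ≤ (G.degree v : ℝ) := by
  classical
  intro t
  let K : ℕ := Fintype.card (Fin t ⊕ Sym2 (Fin t)) ^ 4 * (25 * (2 * 2 ^ t))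
  refine ⟨1 / (K + 1), by positivity, fun V _ G _ hn hP hM => ?_⟩
  have : Nonempty V := Fintype.card_pos_iff.mp (by omega)
  obtain ⟨v, hv⟩ := G.exists_maximal_degree_vertex
  refine ⟨v, ?_⟩
  rw [← hv, div_mul_eq_mul_div, one_mul, div_le_iff₀ (by positivity)]
  by_contra hc
  have hc' : G.maxDegree * (K + 1) < Fintype.card V := by exact_mod_cast not_le.mp hc
  obtain ⟨W, hW⟩ := H.MP_5651c1_co.route G hP
  have no : ∀ S, ¬ H.MP_5651c1_co.Mi G t S := fun S ⟨f, _, h⟩ => hM ⟨f, h⟩
  have he : ∑ x, G.degree x < 2 * 2 ^ t * Fintype.card V := by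
    have := not_le.mp fun h => no _ (H.MP_5651c1_co.mader G t Finset.univ Finset.univ_nonempty h)
    simpa [H.MP_5651c1_co.e2, H.MP_5651c1_co.dg, ← SimpleGraph.neighborFinset_eq_filter] using this
  let L : V → Finset (V × V) := fun x => Finset.univ.filter fun p => x ∈ (W p.1 p.2).support
  have hL : ∀ x, (L x).card ≤ 5 * Fintype.card V * G.degree x := by
    intro x
    obtain ⟨y, hy⟩ := Fintype.exists_ne_of_one_lt_card (α := V) (by omega) x
    have h1 : 0 < G.degree x := (G.degree_pos_iff_exists_adj x).mpr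
      ⟨_, (W x y).adj_snd (SimpleGraph.Walk.not_nil_of_ne hy.symm)⟩
    have := H.MP_5651c1_co.load G W hW x
    nlinarith
  let B : Finset (Fin 4 → V) := Finset.univ.biUnion fun x =>
    (L x ×ˢ L x).image fun z => ![z.1.1, z.1.2, z.2.1, z.2.2]
  have hB : B.card ≤ 25 * Fintype.card V ^ 2 * G.maxDegree * ∑ x, G.degree x := by
    rw [Finset.mul_sum]
    refine Finset.card_biUnion_le.trans (Finset.sum_le_sum fun x _ => Finset.card_image_le.trans ?_)
    rw [Finset.card_product]
    calc _ ≤ (5 * Fintype.card V * G.degree x) * (5 * Fintype.card V * G.maxDegree) :=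
          Nat.mul_le_mul (hL x) ((hL x).trans (Nat.mul_le_mul_left _ (G.degree_le_maxDegree x)))
      _ = _ := by ring
  obtain ⟨ψ, hψ⟩ := H.MP_5651c1_co.avoid (Fin t ⊕ Sym2 (Fin t)) B (by omega) (by
    have h1 := Nat.mul_le_mul_left (Fintype.card (Fin t ⊕ Sym2 (Fin t)) ^ 4)
      (hB.trans (Nat.mul_le_mul_left _ he.le))
    have h2 : 0 < Fintype.card V ^ 3 := by positivity
    calc _ ≤ _ := h1
      _ = Fintype.card V ^ 3 * (G.maxDegree * K) := by simp only [K]; ring
      _ < Fintype.card V ^ 3 * Fintype.card V := Nat.mul_lt_mul_of_pos_left (by nlinarith) h2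
      _ = _ := by ring)
  refine no _ (H.MP_5651c1_co.round G (fun i => ψ (.inl i)) (fun e => ψ (.inr e))
    (fun i j => W _ _) fun i j k l h1 h2 x h3 h4 => ?_)
  refine hψ ![.inl i, .inr s(i, j), .inl k, .inr s(k, l)] ?_ (Finset.mem_biUnion.mpr
    ⟨x, Finset.mem_univ _, Finset.mem_image.mpr
      ⟨((ψ (.inl i), ψ (.inr s(i, j))), (ψ (.inl k), ψ (.inr s(k, l)))), ?_, ?_⟩⟩)
  · intro a b
    have := h1.symm
    have := h2.symm
    fin_cases a <;> fin_cases b <;> simp [-Sym2.eq, *]
  · exact Finset.mem_product.mpr ⟨Finset.mem_filter.mpr ⟨Finset.mem_univ _, h3⟩,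
      Finset.mem_filter.mpr ⟨Finset.mem_univ _, h4⟩⟩
  · funext a
    fin_cases a <;> rfl

end Pool.Agent.S08825
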