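import Pool.Statements.S08846
import Pool.Agent.H.MP_56f0a1_co.Main

set_option autoImplicit false
open Pool Pool.MP_56f0a1_co

namespace Pool.Agent.S08846

theorem result :
    ¬ (∀ (n : ℕ) (B : Matrix (Fin n) (Fin n) ℤ),
    (∃ d : Fin n → ℤ, (∀ i, 0 < d i) ∧ ∀ i j, d i * B i j = -(d j * B j i)) →
    ∀ (ks : List (Fin n)) (k : Fin n) (c : (Fin n ⊕ Fin n → ℤ) →₀ ℤ),
      (List.foldl
        (fun (s : (Fin n ⊕ Fin n → FractionRing (MvPolynomial (Fin n ⊕ Fin n) ℤ)) ×
                  Matrix (Fin n ⊕ Fin n) (Fin n) ℤ) (m : Fin n) =>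
          (Function.update s.1 (Sum.inl m)
            ((∏ i, s.1 i ^ (s.2 i m).toNat + ∏ i, s.1 i ^ (-(s.2 i m)).toNat) / s.1 (Sum.inl m)),
           Matrix.of (fun (i : Fin n ⊕ Fin n) (j : Fin n) =>
             if i = Sum.inl m ∨ j = m then -(s.2 i j)
             else s.2 i j + Int.sign (s.2 i m) * max (s.2 i m * s.2 (Sum.inl m) j) 0)))
        (fun i => algebraMap (MvPolynomial (Fin n ⊕ Fin n) ℤ)
            (FractionRing (MvPolynomial (Fin n ⊕ Fin n) ℤ)) (MvPolynomial.X i),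
         Matrix.fromRows B (1 : Matrix (Fin n) (Fin n) ℤ))
        ks).1 (Sum.inl k)
        = c.sum (fun a r => (r : FractionRing (MvPolynomial (Fin n ⊕ Fin n) ℤ)) *
            ∏ i, (algebraMap (MvPolynomial (Fin n ⊕ Fin n) ℤ)
              (FractionRing (MvPolynomial (Fin n ⊕ Fin n) ℤ)) (MvPolynomial.X i)) ^ (a i)) →
      ∀ a : Fin n ⊕ Fin n → ℤ,
        (fun i => (a i : ℝ)) ∈ convexHull ℝ
          ((fun b : Fin n ⊕ Fin n → ℤ => fun i => (b i : ℝ)) ''
            (↑c.support : Set (Fin n ⊕ Fin n → ℤ))) →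
        a ∈ c.support) := by
  open Pool.Agent.H.MP_56f0a1_co in
  intro h
  have hinj := IsFractionRing.injective (MvPolynomial I ℤ) (FractionRing (MvPolynomial I ℤ))
  have key := fold_eq (fun i : I => algebraMap (MvPolynomial I ℤ)
      (FractionRing (MvPolynomial I ℤ)) (MvPolynomial.X i))
    (fun i => (map_ne_zero_iff _ hinj).mpr (MvPolynomial.X_ne_zero i))
    (by
      rw [← map_mul, ← map_mul, ← map_pow, ← map_add, map_ne_zero_iff _ hinj]
      intro e
      have := congrArg (MvPolynomial.eval (fun _ => (1 : ℤ))) e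
      simp at this)
  rw [← e0] at key
  have hm := h 4 B ⟨fun _ => 1, fun _ => one_pos, by decide⟩ [1, 0, 2, 3, 1] 1 c key a0 (by
    have m1 : (fun i => (a1 i : ℝ)) ∈ convexHull ℝ
        ((fun b : I → ℤ => fun i => (b i : ℝ)) '' (↑c.support : Set (I → ℤ))) :=
      subset_convexHull _ _ ⟨a1, by simp [c1], rfl⟩
    have m2 : (fun i => (a2 i : ℝ)) ∈ convexHull ℝ
        ((fun b : I → ℤ => fun i => (b i : ℝ)) '' (↑c.support : Set (I → ℤ))) :=
      subset_convexHull _ _ ⟨a2, by simp [c2], rfl⟩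
    have := convex_convexHull ℝ _ m1 m2 (a := 1 / 2) (b := 1 / 2) (by norm_num) (by norm_num)
      (by norm_num)
    convert this using 1
    funext i
    have e : (2 * a0 i : ℝ) = a1 i + a2 i := by exact_mod_cast mid i
    simp only [Pi.add_apply, Pi.smul_apply, smul_eq_mul]
    linarith)
  rw [Finsupp.mem_support_iff] at hm
  exact hm c0

end Pool.Agent.S08846
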