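import Pool.Statements.S08874

set_option autoImplicit false
open Pool Pool.MP_5833ce_co

namespace Pool.Agent.S08874

def vec : Fin 15 → Fin 7 → ZMod 3 :=
  ![![0, 0, 1, 1, 1, 2, 0],
    ![0, 1, 0, 1, 1, 2, 0],
    ![0, 1, 0, 2, 2, 1, 0],
    ![2, 0, 0, 0, 0, 0, 0],
    ![2, 0, 1, 0, 2, 2, 0],
    ![2, 0, 1, 2, 0, 2, 0],
    ![2, 2, 0, 1, 2, 2, 2],
    ![2, 2, 0, 2, 1, 2, 2],
    ![2, 2, 1, 0, 0, 1, 0],
    ![2, 2, 1, 1, 1, 0, 2],
    ![2, 2, 2, 0, 0, 2, 0],
    ![2, 2, 2, 0, 2, 0, 0],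
    ![2, 2, 2, 2, 0, 0, 0],
    ![2, 2, 2, 2, 2, 0, 1],
    ![2, 2, 2, 2, 2, 0, 2]]

def D : Fin 7 → ZMod 3 := ![1, 1, 1, 1, 1, 1, 2]

def ip (a b : Fin 7 → ZMod 3) : ZMod 3 := ∑ j, D j * a j * b j

def G : SimpleGraph (Fin 15) where
  Adj v w := v ≠ w ∧ ip (vec v) (vec w) = 1
  symm := ⟨by decide +kernel⟩
  loopless := ⟨fun v h => h.1 rfl⟩

instance : DecidableRel G.Adj := fun v w =>
  inferInstanceAs (Decidable (v ≠ w ∧ ip (vec v) (vec w) = 1))

lemma gram : ∀ v w : Fin 15,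
    (if v = w then 1 else 0) + (if G.Adj v w then 1 else 0) = ip (vec v) (vec w) := by
  decide +kernel

lemma block0 : ∀ a b c d e f g : ZMod 3,
    c + d + e + f + f = 0 ∨
    b + d + e + f + f = 0 ∨
    b + d + d + e + e + f = 0 ∨
    a + a = 0 ∨
    a + a + c + e + e + f + f = 0 ∨
    a + a + c + d + d + f + f = 0 ∨
    a + a + b + b + d + e + e + f + f + g = 0 ∨
    a + a + b + b + d + d + e + f + f + g = 0 ∨
    a + a + b + b + c + f = 0 ∨
    a + a + b + b + c + d + e + g = 0 ∨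
    a + a + b + b + c + c + f + f = 0 ∨
    a + a + b + b + c + c + e + e = 0 ∨
    a + a + b + b + c + c + d + d = 0 ∨
    a + a + b + b + c + c + d + d + e + e + g + g = 0 ∨
    a + a + b + b + c + c + d + d + e + e + g = 0 := by
  decide +kernel

lemma ip_eq (u : Fin 7 → ZMod 3) (a b c d e f g : ZMod 3) : ip u ![a, b, c, d, e, f, g] =
    u 0 * a + u 1 * b + u 2 * c + u 3 * d + u 4 * e + u 5 * f + 2 * u 6 * g := by
  simp [ip, Fin.sum_univ_seven, D]

lemma block (a b c d e f g : ZMod 3) : ∃ v, ip (vec v) ![a, b, c, d, e, f, g] = 0 := by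
  have h3 : (3 : ZMod 3) = 0 := rfl
  rcases block0 a b c d e f g with h | h | h | h | h | h | h | h | h | h | h | h | h | h | h
  · exact ⟨0, by
      rw [ip_eq]
      show 0 * a + 0 * b + 1 * c + 1 * d + 1 * e + 2 * f + 2 * 0 * g = 0
      linear_combination h⟩
  · exact ⟨1, by
      rw [ip_eq]
      show 0 * a + 1 * b + 0 * c + 1 * d + 1 * e + 2 * f + 2 * 0 * g = 0
      linear_combination h⟩
  · exact ⟨2, by
      rw [ip_eq]
      show 0 * a + 1 * b + 0 * c + 2 * d + 2 * e + 1 * f + 2 * 0 * g = 0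
      linear_combination h⟩
  · exact ⟨3, by
      rw [ip_eq]
      show 2 * a + 0 * b + 0 * c + 0 * d + 0 * e + 0 * f + 2 * 0 * g = 0
      linear_combination h⟩
  · exact ⟨4, by
      rw [ip_eq]
      show 2 * a + 0 * b + 1 * c + 0 * d + 2 * e + 2 * f + 2 * 0 * g = 0
      linear_combination h⟩
  · exact ⟨5, by
      rw [ip_eq]
      show 2 * a + 0 * b + 1 * c + 2 * d + 0 * e + 2 * f + 2 * 0 * g = 0
      linear_combination h⟩
  · exact ⟨6, by
      rw [ip_eq]
      show 2 * a + 2 * b + 0 * c + 1 * d + 2 * e + 2 * f + 2 * 2 * g = 0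
      linear_combination h + g * h3⟩
  · exact ⟨7, by
      rw [ip_eq]
      show 2 * a + 2 * b + 0 * c + 2 * d + 1 * e + 2 * f + 2 * 2 * g = 0
      linear_combination h + g * h3⟩
  · exact ⟨8, by
      rw [ip_eq]
      show 2 * a + 2 * b + 1 * c + 0 * d + 0 * e + 1 * f + 2 * 0 * g = 0
      linear_combination h⟩
  · exact ⟨9, by
      rw [ip_eq]
      show 2 * a + 2 * b + 1 * c + 1 * d + 1 * e + 0 * f + 2 * 2 * g = 0
      linear_combination h + g * h3⟩
  · exact ⟨10, by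
      rw [ip_eq]
      show 2 * a + 2 * b + 2 * c + 0 * d + 0 * e + 2 * f + 2 * 0 * g = 0
      linear_combination h⟩
  · exact ⟨11, by
      rw [ip_eq]
      show 2 * a + 2 * b + 2 * c + 0 * d + 2 * e + 0 * f + 2 * 0 * g = 0
      linear_combination h⟩
  · exact ⟨12, by
      rw [ip_eq]
      show 2 * a + 2 * b + 2 * c + 2 * d + 0 * e + 0 * f + 2 * 0 * g = 0
      linear_combination h⟩
  · exact ⟨13, by
      rw [ip_eq]
      show 2 * a + 2 * b + 2 * c + 2 * d + 2 * e + 0 * f + 2 * 1 * g = 0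
      linear_combination h⟩
  · exact ⟨14, by
      rw [ip_eq]
      show 2 * a + 2 * b + 2 * c + 2 * d + 2 * e + 0 * f + 2 * 2 * g = 0
      linear_combination h + g * h3⟩

/-- The negation of the preceding statement: For every k ≥ 2 and every finite simple graph, some labeling of the vertices by integers mod k makes the sum of labels over each vertex's closed neighbourhood nonzero mod k. -/
theorem result :
    ¬ (∀ k : ℕ, 2 ≤ k →
      ∀ (V : Type) [Fintype V] (G : SimpleGraph V) [DecidableRel G.Adj],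
        ∃ f : V → ZMod k, ∀ v : V, f v + ∑ w ∈ G.neighborFinset v, f w ≠ 0) := by
  intro H
  obtain ⟨f, hf⟩ := H 3 (by norm_num) (Fin 15) G
  let x : Fin 7 → ZMod 3 := fun j => ∑ w, f w * vec w j
  obtain ⟨v, hv⟩ := block (x 0) (x 1) (x 2) (x 3) (x 4) (x 5) (x 6)
  have hx : ![x 0, x 1, x 2, x 3, x 4, x 5, x 6] = x := by
    funext j
    fin_cases j <;> rfl
  rw [hx] at hv
  apply hf v
  have h1 : ip (vec v) x = ∑ w, f w * ip (vec v) (vec w) := by
    simp only [ip, x, Finset.mul_sum]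
    rw [Finset.sum_comm]
    exact Finset.sum_congr rfl fun w _ => Finset.sum_congr rfl fun j _ => by ring
  rw [← hv, h1]
  simp only [← gram, mul_add, Finset.sum_add_distrib, mul_ite, mul_one, mul_zero,
    Finset.sum_ite_eq, Finset.mem_univ, if_true]
  rw [SimpleGraph.neighborFinset_eq_filter, Finset.sum_filter]

end Pool.Agent.S08874
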