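import Pool.Statements.S08892
import Pool.Agent.H.MP_58cc54_co.NT2
import Pool.Agent.H.MP_58cc54_co.Game

set_option autoImplicit false
open Pool Pool.MP_58cc54_co

namespace Pool.Agent.S08892

/-- The negation of the preceding statement: For every connected graph H with as many edges as vertices, the largest bias b for which Enforcer wins the strict 1:b Avoider-Enforcer H-game on K_n is between c₁·n^{v/(v−1)} and c₂·n^{v/(v−1)} for all large n. -/
theorem result :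
    ¬ (∀ (V : Type) [Fintype V] [DecidableEq V] (H : SimpleGraph V) [DecidableRel H.Adj],
      H.Connected → H.edgeFinset.card = Fintype.card V →
      ∃ c₁ c₂ : ℝ, 0 < c₁ ∧ 0 < c₂ ∧ ∃ n₀ : ℕ, ∀ n : ℕ, n₀ ≤ n →
        (∃ b : ℕ, c₁ * (n : ℝ) ^ ((Fintype.card V : ℝ) / ((Fintype.card V : ℝ) - 1)) ≤ (b : ℝ) ∧
          ∃ S : Set (Finset (Sym2 (Fin n)) × Finset (Sym2 (Fin n))),
            ((∅ : Finset (Sym2 (Fin n))), (∅ : Finset (Sym2 (Fin n)))) ∈ S ∧
            ∀ p ∈ S,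
              ((Finset.univ.filter (fun e : Sym2 (Fin n) => ¬ e.IsDiag)) \ (p.1 ∪ p.2) = ∅ →
                H.IsContained (SimpleGraph.fromEdgeSet (p.1 : Set (Sym2 (Fin n))))) ∧
              ∀ e ∈ (Finset.univ.filter (fun e : Sym2 (Fin n) => ¬ e.IsDiag)) \ (p.1 ∪ p.2),
                ∃ T : Finset (Sym2 (Fin n)),
                  T ⊆ (Finset.univ.filter (fun e : Sym2 (Fin n) => ¬ e.IsDiag)) \ (insert e (p.1 ∪ p.2)) ∧
                  T.card = min b ((Finset.univ.filter (fun e : Sym2 (Fin n) => ¬ e.IsDiag)) \ (insert e (p.1 ∪ p.2))).card ∧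
                  (insert e p.1, p.2 ∪ T) ∈ S) ∧
        (∀ b : ℕ,
          (∃ S : Set (Finset (Sym2 (Fin n)) × Finset (Sym2 (Fin n))),
            ((∅ : Finset (Sym2 (Fin n))), (∅ : Finset (Sym2 (Fin n)))) ∈ S ∧
            ∀ p ∈ S,
              ((Finset.univ.filter (fun e : Sym2 (Fin n) => ¬ e.IsDiag)) \ (p.1 ∪ p.2) = ∅ →
                H.IsContained (SimpleGraph.fromEdgeSet (p.1 : Set (Sym2 (Fin n))))) ∧
              ∀ e ∈ (Finset.univ.filter (fun e : Sym2 (Fin n) => ¬ e.IsDiag)) \ (p.1 ∪ p.2),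
                ∃ T : Finset (Sym2 (Fin n)),
                  T ⊆ (Finset.univ.filter (fun e : Sym2 (Fin n) => ¬ e.IsDiag)) \ (insert e (p.1 ∪ p.2)) ∧
                  T.card = min b ((Finset.univ.filter (fun e : Sym2 (Fin n) => ¬ e.IsDiag)) \ (insert e (p.1 ∪ p.2))).card ∧
                  (insert e p.1, p.2 ∪ T) ∈ S) →
          (b : ℝ) ≤ c₂ * (n : ℝ) ^ ((Fintype.card V : ℝ) / ((Fintype.card V : ℝ) - 1)))) := by
  intro h
  obtain ⟨c, c₂, hc, _, n₀, h⟩ := h (Fin 3) ⊤ SimpleGraph.connected_top (by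
    rw [SimpleGraph.card_edgeFinset_top_eq_card_choose_two]
    simp)
  obtain ⟨A, hA⟩ := exists_nat_gt (1 / c ^ 2)
  have hA1 : 1 ≤ A := by
    have : (0 : ℝ) < A := lt_trans (by positivity) hA
    exact_mod_cast this
  obtain ⟨n, hn, hd⟩ := Pool.Agent.H.MP_58cc54_co.no_divisor A (16 * A ^ 2)
    (n₀ + A * (16 * A ^ 2) ^ 2 + 1) hA1 (Nat.mul_pos (by norm_num) (by positivity))
  obtain ⟨⟨b, hb, S, hS0, hS⟩, _⟩ := h n (by omega)
  set E := Finset.univ.filter (fun e : Sym2 (Fin n) => ¬ e.IsDiag) with hE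
  have hcard : 2 * E.card + n = n * n := by
    have e1 : E = (⊤ : SimpleGraph (Fin n)).edgeFinset := by
      ext e
      simp [hE]
    rw [e1, SimpleGraph.card_edgeFinset_top_eq_card_choose_two, Fintype.card_fin,
      Nat.choose_two_right, Nat.mul_div_cancel' (Nat.even_mul_pred_self n).two_dvd]
    cases n with
    | zero => rfl
    | succ k =>
      rw [Nat.add_sub_cancel]
      ring
  have hb' : n ^ 3 ≤ A * (b + 1) ^ 2 := by
    have e1 : ((Fintype.card (Fin 3) : ℝ) / ((Fintype.card (Fin 3) : ℝ) - 1)) = 3 / 2 := by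
      norm_num
    rw [e1] at hb
    have e2 : ((n : ℝ) ^ ((3 : ℝ) / 2)) ^ 2 = (n : ℝ) ^ 3 := by
      rw [← Real.rpow_natCast, ← Real.rpow_mul (Nat.cast_nonneg _)]
      norm_num
    have h1 : (c * (n : ℝ) ^ ((3 : ℝ) / 2)) ^ 2 ≤ ((b : ℝ) + 1) ^ 2 :=
      pow_le_pow_left₀ (by positivity) (by linarith) 2
    rw [mul_pow, e2] at h1
    rw [div_lt_iff₀ (by positivity)] at hA
    have h2 : (n : ℝ) ^ 3 ≤ A * ((b : ℝ) + 1) ^ 2 := by
      have h3 : (0 : ℝ) ≤ (n : ℝ) ^ 3 := by positivity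
      have h4 := mul_le_mul_of_nonneg_left h1 (Nat.cast_nonneg (α := ℝ) A)
      nlinarith
    exact_mod_cast h2
  obtain ⟨j0, h1, h2⟩ := Pool.Agent.H.MP_58cc54_co.arith n E.card b A hcard hb' (by omega) hd
  refine Pool.Agent.H.MP_58cc54_co.game E (fun x y hxy => ?_) b j0 S (fun p hp => ⟨fun h0 ht => ?_,
    (hS p hp).2⟩) h1 h2 _ 0 _ ∅ le_rfl hS0 (by simp) (by simp) ?_ ?_ (by simp)
  · simpa [hE] using hxy
  · obtain ⟨f⟩ := (hS p hp).1 h0
    have a : ∀ u v : Fin 3, u ≠ v → s(f u, f v) ∈ p.1 ∧ f u ≠ f v := by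
      intro u v huv
      have := f.toHom.map_adj (show (⊤ : SimpleGraph (Fin 3)).Adj u v from huv)
      rw [SimpleGraph.fromEdgeSet_adj] at this
      exact this
    exact ht (f 0) (f 1) (f 2) (a 0 1 (by decide)).2 (a 1 2 (by decide)).2 (a 0 2 (by decide)).2
      (a 0 1 (by decide)).1 (a 1 2 (by decide)).1 (a 0 2 (by decide)).1
  · intro u v w _ _ _ h0
    simp at h0
  · intro u v w _ h0
    simp at h0

end Pool.Agent.S08892
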