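import Pool.Statements.S08901
import Pool.Agent.H.BS.R

set_option autoImplicit false
open Pool Pool.MP_5949aa_co

namespace Pool.Agent.S08901

theorem result :
    ∀ (m k l : ℕ), 0 < m → 0 < k →
      ∀ T : Fin l → Fin m, Monotone T →
        ∃ n d : ℕ, 0 < n ∧ 0 < d ∧
          ∀ c : (Fin n → Fin m) → Fin k,
            ∃ I : Fin l → Finset (Fin n), ∃ a : Fin n → Fin m, ∃ col : Fin k,
              (∀ j, (I j).card = d) ∧
              (Pairwise fun j j' => Disjoint (I j) (I j')) ∧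
              ∀ w : Fin n → Fin m,
                ((∀ i, (∀ j, i ∉ I j) → w i = a i) ∧
                  ∃ σ : Equiv.Perm (Fin l), ∀ j, ∀ i ∈ I j, w i = T (σ j)) →
                c w = col := by
  intro m k l hm _ T _
  obtain ⟨d, hd, h⟩ := H.BS.blocks m l hm
  obtain ⟨n, hn, h⟩ := h k
  refine ⟨n, d, hn, hd, fun c => ?_⟩
  obtain ⟨I, a, h1, h2, h3⟩ := h c
  obtain ⟨col, h3⟩ := h3 T
  exact ⟨I, a, col, h1, h2, h3⟩

end Pool.Agent.S08901
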