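import Pool.Statements.S08910

set_option autoImplicit false
open Pool Pool.MP_598d99_co

namespace Pool.Agent.S08910

def P (i : ℕ) : Finset (Fin 18) := Finset.univ.filter (fun v => v.val % 3 = i)

def col (S : Finset (Fin 18)) : Fin 2 := if S ⊆ P 0 ∨ S ⊆ P 1 ∨ S ⊆ P 2 then 0 else 1

def sch (T : Finset (Fin 18)) : Fin 2 → ℕ :=
  fun i => ((T.powersetCard 2).filter (fun S => col S = i)).card

theorem disj (T : Finset (Fin 18)) (i j : ℕ) (h : i ≠ j) :
    Disjoint ((T ∩ P i).powersetCard 2) ((T ∩ P j).powersetCard 2) := by
  rw [Finset.disjoint_left]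
  intro S h1 h2
  rw [Finset.mem_powersetCard] at h1 h2
  obtain ⟨x, hx⟩ : S.Nonempty := Finset.card_pos.1 (by omega)
  have a := h1.1 hx
  have b := h2.1 hx
  simp only [P, Finset.mem_inter, Finset.mem_filter] at a b
  omega

theorem sch0 (T : Finset (Fin 18)) : sch T 0 =
    (T ∩ P 0).card.choose 2 + (T ∩ P 1).card.choose 2 + (T ∩ P 2).card.choose 2 := by
  have : (T.powersetCard 2).filter (fun S => col S = 0) =
      (T ∩ P 0).powersetCard 2 ∪ (T ∩ P 1).powersetCard 2 ∪ (T ∩ P 2).powersetCard 2 := by
    ext S
    have h10 : ¬ ((1 : Fin 2) = 0) := by decide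
    simp only [col, Finset.mem_filter, Finset.mem_powersetCard, Finset.mem_union,
      Finset.subset_inter_iff, ite_eq_left_iff, h10, imp_false, not_not]
    tauto
  unfold sch
  rw [this, Finset.card_union_of_disjoint, Finset.card_union_of_disjoint (disj T 0 1 (by decide))]
  · simp only [Finset.card_powersetCard]
  · rw [Finset.disjoint_union_left]
    exact ⟨disj T 0 2 (by decide), disj T 1 2 (by decide)⟩

theorem sch1 (T : Finset (Fin 18)) : sch T 0 + sch T 1 = T.card.choose 2 := by
  unfold sch
  rw [← Finset.card_powersetCard,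
    ← Finset.card_filter_add_card_filter_not (s := T.powersetCard 2) (fun S => col S = 0)]
  congr 2
  refine Finset.filter_congr fun S _ => ?_
  generalize col S = a
  revert a
  decide

theorem parts (T : Finset (Fin 18)) :
    (T ∩ P 0).card + (T ∩ P 1).card + (T ∩ P 2).card = T.card := by
  have d : ∀ i j : ℕ, i ≠ j → Disjoint (T ∩ P i) (T ∩ P j) := by
    intro i j h
    rw [Finset.disjoint_left]
    intro x a b
    simp only [P, Finset.mem_inter, Finset.mem_filter] at a b
    omega
  rw [← Finset.card_union_of_disjoint (d 0 1 (by decide)), ← Finset.card_union_of_disjoint]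
  · congr 1
    ext x
    simp only [P, Finset.mem_inter, Finset.mem_filter, Finset.mem_union, Finset.mem_univ, true_and]
    constructor
    · tauto
    · intro hx
      have : x.val % 3 = 0 ∨ x.val % 3 = 1 ∨ x.val % 3 = 2 := by omega
      tauto
  · rw [Finset.disjoint_union_left]
    exact ⟨d 0 2 (by decide), d 1 2 (by decide)⟩

theorem small (T : Finset (Fin 18)) (i : ℕ) (hi : i < 3) : (T ∩ P i).card ≤ 6 := by
  have : (P i).card = 6 := by
    interval_cases i <;> decide
  exact this ▸ Finset.card_le_card Finset.inter_subset_right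

theorem upper : (((Finset.univ : Finset (Fin 18)).powersetCard 9).image sch).card ≤ 6 := by
  have : ((Finset.univ : Finset (Fin 18)).powersetCard 9).image sch ⊆
      ({18, 16, 13, 12, 10, 9} : Finset ℕ).image (fun e : ℕ => (![e, 36 - e] : Fin 2 → ℕ)) := by
    intro f hf
    obtain ⟨T, hT, rfl⟩ := Finset.mem_image.1 hf
    have hc := (Finset.mem_powersetCard.1 hT).2
    have h0 := sch0 T
    have h1 := sch1 T
    have h2 := parts T
    have a0 := small T 0 (by decide)
    have a1 := small T 1 (by decide)
    have a2 := small T 2 (by decide)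
    rw [hc] at h1 h2
    have h36 : Nat.choose 9 2 = 36 := by decide
    rw [h36] at h1
    refine Finset.mem_image.2 ⟨sch T 0, ?_, ?_⟩
    · rw [h0]
      generalize (T ∩ P 0).card = x at *
      generalize (T ∩ P 1).card = y at *
      generalize (T ∩ P 2).card = z at *
      have hz : z = 9 - x - y := by omega
      subst hz
      clear h0 h1
      interval_cases x <;> interval_cases y <;> first | omega | decide
    · ext i
      fin_cases i
      · simp
      · simp
        omega
  refine (Finset.card_le_card this).trans (Finset.card_image_le.trans ?_)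
  decide

def mk (a b c : ℕ) : Finset (Fin 18) := Finset.univ.filter (fun v =>
  (v.val % 3 = 0 ∧ v.val / 3 < a) ∨ (v.val % 3 = 1 ∧ v.val / 3 < b) ∨ (v.val % 3 = 2 ∧ v.val / 3 < c))

theorem lower : 7 ≤ (((Finset.univ : Finset (Fin 18)).powersetCard 8).image sch).card := by
  have h : ∀ T : Finset (Fin 18), T.card = 8 → ∀ e, sch T 0 = e →
      e ∈ (((Finset.univ : Finset (Fin 18)).powersetCard 8).image sch).image (fun f => f 0) := by
    intro T hT e he
    exact Finset.mem_image.2 ⟨sch T, Finset.mem_image.2
      ⟨T, Finset.mem_powersetCard.2 ⟨Finset.subset_univ _, hT⟩, rfl⟩, he⟩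
  have : ({16, 13, 12, 15, 11, 9, 8} : Finset ℕ) ⊆
      (((Finset.univ : Finset (Fin 18)).powersetCard 8).image sch).image (fun f => f 0) := by
    intro e he
    simp only [Finset.mem_insert, Finset.mem_singleton] at he
    rcases he with rfl | rfl | rfl | rfl | rfl | rfl | rfl
    · exact h (mk 6 2 0) (by decide) _ (by rw [sch0]; decide)
    · exact h (mk 5 3 0) (by decide) _ (by rw [sch0]; decide)
    · exact h (mk 4 4 0) (by decide) _ (by rw [sch0]; decide)
    · exact h (mk 6 1 1) (by decide) _ (by rw [sch0]; decide)
    · exact h (mk 5 2 1) (by decide) _ (by rw [sch0]; decide)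
    · exact h (mk 4 3 1) (by decide) _ (by rw [sch0]; decide)
    · exact h (mk 4 2 2) (by decide) _ (by rw [sch0]; decide)
  refine le_trans ?_ ((Finset.card_le_card this).trans Finset.card_image_le)
  decide

theorem result :
    ¬ (∀ (N s m : ℕ) (c : Finset (Fin N) → Fin m) (t : ℕ),
      s ≤ t → 2 * (t + 1) ≤ N →
        (((Finset.univ : Finset (Fin N)).powersetCard t).image
            (fun T : Finset (Fin N) => fun i : Fin m =>
              ((T.powersetCard s).filter (fun S => c S = i)).card)).card
        ≤
        (((Finset.univ : Finset (Fin N)).powersetCard (t + 1)).image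
            (fun T : Finset (Fin N) => fun i : Fin m =>
              ((T.powersetCard s).filter (fun S => c S = i)).card)).card) := by
  intro H
  have h := H 18 2 2 col 8 (by decide) (by decide)
  have h1 := lower
  have h2 := upper
  unfold sch at h1 h2
  exact absurd (h1.trans (h.trans h2)) (by decide)

end Pool.Agent.S08910
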