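import Pool.Statements.S08925
import Pool.Agent.H.MP_5a23e6_co.A

set_option autoImplicit false
open Pool Pool.MP_5a23e6_co

namespace Pool.Agent.S08925

theorem result :
    ∃ c : ℝ, 0 < c ∧ ∀ n : ℕ, 1 ≤ n →
      c * (2 : ℝ) ^ n ≤
        ((Set.ncard {d : ℤ | ∃ M : Matrix (Fin n) (Fin n) ℤ,
            (∀ i j, M i j = 1 ∨ M i j = -1) ∧ M.det = 2 ^ (n - 1) * d}) : ℝ) := by
  refine ⟨1 / 2 ^ 44, by positivity, fun n hn => ?_⟩
  change _ ≤ ((Pool.Agent.H.MP_5a23e6_co.Dset n).ncard : ℝ)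
  have key : 2 ^ n ≤ 2 ^ 44 * (Pool.Agent.H.MP_5a23e6_co.Dset n).ncard := by
    by_cases h : n < 30
    · have h1 := Pool.Agent.H.MP_5a23e6_co.Dne n hn
      calc 2 ^ n ≤ 2 ^ 44 * 1 := by
            rw [mul_one]; exact Nat.pow_le_pow_right (by norm_num) (by omega)
        _ ≤ _ := Nat.mul_le_mul_left _ h1
    · have h1 := Pool.Agent.H.MP_5a23e6_co.main ((n - 30) % 14) ((n - 30) / 14)
      rw [show (n - 30) % 14 + 14 * ((n - 30) / 14 + 2) + 2 = n by omega] at h1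
      calc 2 ^ n ≤ 2 ^ (44 + 14 * ((n - 30) / 14)) :=
            Nat.pow_le_pow_right (by norm_num) (by omega)
        _ = 2 ^ 44 * (2 ^ 14) ^ ((n - 30) / 14) := by rw [pow_add, pow_mul]
        _ ≤ 2 ^ 44 * 23253 ^ ((n - 30) / 14) :=
            Nat.mul_le_mul_left _ (Nat.pow_le_pow_left (by norm_num) _)
        _ ≤ _ := Nat.mul_le_mul_left _ h1
  have key' : (2 : ℝ) ^ n ≤ 2 ^ 44 * ((Pool.Agent.H.MP_5a23e6_co.Dset n).ncard : ℝ) := by
    exact_mod_cast key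
  rw [one_div, inv_mul_le_iff₀ (by positivity)]
  exact key'

end Pool.Agent.S08925
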