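import Pool.Statements.S08929
import Pool.Agent.H.MP_5a7c5b_co.B

set_option autoImplicit false
open Pool Pool.MP_5a7c5b_co

namespace Pool.Agent.S08929

/-- The free group on two generators can be colored with finitely many colors so that no infinite set A with A = g A⁻¹ g (for some g) is monochromatic. -/
theorem result :
    ∃ k : ℕ, ∃ c : FreeGroup (Fin 2) → Fin k,
      ∀ A : Set (FreeGroup (Fin 2)), A.Infinite →
        (∃ g : FreeGroup (Fin 2), A = (fun a => g * a⁻¹ * g) '' A) →
          ¬ ∃ i : Fin k, ∀ a ∈ A, c a = i := by
  exact H.MP_5a7c5b_co.main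

end Pool.Agent.S08929
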