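import Pool.Statements.S08938
import Pool.Agent.H.MP_5ac6d8_co.A
import Pool.Agent.H.MP_5ac6d8_co.B

set_option autoImplicit false
open Pool Pool.MP_5ac6d8_co
open Pool.Agent.H.MP_5ac6d8_co

namespace Pool.Agent.S08938

lemma main (p : ℕ) [hp : Fact p.Prime] (hp2 : p ≠ 2)
    (hnum : (4 * p) * ((4 * p) * ((4 * p) * 2)) * (2 * 2) * (4 ^ (4 * p) / 3 ^ (4 * p - (p - 1)))
      < 2 ^ (4 * p)) :
    ¬ (∀ (d m : ℕ) (a : Fin m → EuclideanSpace ℝ (Fin d)) (b : Fin m → ℝ)
      (P : Set (EuclideanSpace ℝ (Fin d))),
      1 ≤ d →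
      P = ⋂ i, {x : EuclideanSpace ℝ (Fin d) | @inner ℝ _ _ (a i) x ≤ b i} →
      Bornology.IsBounded P →
      (interior P).Nonempty →
      ∃ S : Fin m → Set (EuclideanSpace ℝ (Fin d)),
        (∀ i, S i ⊆ P ∧ Metric.diam (S i) < Metric.diam P) ∧ P ⊆ ⋃ i, S i) := by
  classical
  intro H
  have hp2' := hp.out.two_le
  have hodd : p % 2 = 1 := by
    rcases hp.out.eq_two_or_odd with h | h
    · exact absurd h hp2
    · exact h
  set n := 4 * p with hn
  obtain ⟨d, u, hd, hu0, husym, hnorm, hsurj⟩ := coords n (by omega)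
  let K := Fin n × Fin n × Fin n × Bool
  let eK : K ≃ Fin (Fintype.card K) := Fintype.equivFin K
  let a0 : K → EuclideanSpace ℝ (Fin d) := fun κ =>
    if κ.2.2.2 then u κ.1 κ.2.2.1 - u κ.1 κ.2.1 - u κ.2.1 κ.2.2.1
    else u κ.1 κ.2.1 + u κ.2.1 κ.2.2.1 + u κ.1 κ.2.2.1
  let b0 : K → ℝ := fun κ => if κ.2.2.2 then 0 else 2
  let D : EuclideanSpace ℝ (Fin d) → Fin n → Fin n → ℝ := fun x i j => @inner ℝ _ _ (u i j) x
  have hD0 : ∀ x i, D x i i = 0 := by intro x i; simp [D, hu0]
  have hDs : ∀ x i j, D x i j = D x j i := by intro x i j; simp only [D]; rw [husym]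
  have hDsub : ∀ x y i j, D (x - y) i j = D x i j - D y i j := by
    intro x y i j; simp only [D, inner_sub_right]
  set P : Set (EuclideanSpace ℝ (Fin d)) :=
    ⋂ i, {x : EuclideanSpace ℝ (Fin d) | @inner ℝ _ _ (a0 (eK.symm i)) x ≤ b0 (eK.symm i)} with hP
  have hmem : ∀ x, x ∈ P ↔ (∀ i j k, D x i k ≤ D x i j + D x j k ∧
      D x i j + D x j k + D x i k ≤ 2) := by
    intro x
    simp only [hP, Set.mem_iInter, Set.mem_setOf_eq]
    constructor
    · intro h i j k
      have h1 := h (eK (i, j, k, true))
      have h2 := h (eK (i, j, k, false))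
      simp only [Equiv.symm_apply_apply, a0, b0, if_true, inner_sub_left, inner_add_left,
        Bool.false_eq_true, if_false] at h1 h2
      simp only [D]
      constructor <;> linarith
    · intro h r
      obtain ⟨⟨i, j, k, s⟩, rfl⟩ := eK.surjective r
      have := h i j k
      simp only [D] at this
      cases s
      · simp only [Equiv.symm_apply_apply, a0, b0, inner_add_left, Bool.false_eq_true, if_false]
        linarith [this.2]
      · simp only [Equiv.symm_apply_apply, a0, b0, inner_sub_left, if_true]
        linarith [this.1]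
  have h01 : ∀ x ∈ P, ∀ i j, 0 ≤ D x i j ∧ D x i j ≤ 1 := by
    intro x hx i j
    have h1 := ((hmem x).1 hx i j i).1
    have h2 := ((hmem x).1 hx i i j).2
    rw [hD0] at h1 h2
    rw [hDs x j i] at h1
    constructor <;> linarith
  have hdist : ∀ x ∈ P, ∀ y ∈ P, dist x y ≤ 2 * p := by
    intro x hx y hy
    have hm := mantel (fun i j => |D x i j - D y i j|)
      (fun i j => by simp only [hDs x i j, hDs y i j])
      (fun i => by simp [hD0]) (fun i j => abs_nonneg _)
      (fun i j => by
        have := h01 x hx i j; have := h01 y hy i j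
        rw [abs_le]; constructor <;> linarith [this.1, this.2])
      (fun i j k => by
        have x1 := (hmem x).1 hx i j k
        have x2 := ((hmem x).1 hx i k j).1
        have x3 := ((hmem x).1 hx j i k).1
        have y1 := (hmem y).1 hy i j k
        have y2 := ((hmem y).1 hy i k j).1
        have y3 := ((hmem y).1 hy j i k).1
        rw [hDs x k j] at x2
        rw [hDs y k j] at y2
        rw [hDs x j i] at x3
        rw [hDs y j i] at y3
        have a1 := h01 x hx i j
        have a2 := h01 x hx j k
        have a3 := h01 x hx i k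
        have b1 := h01 y hy i j
        have b2 := h01 y hy j k
        have b3 := h01 y hy i k
        rcases abs_cases (D x i j - D y i j) with c1 | c1 <;>
        rcases abs_cases (D x j k - D y j k) with c2 | c2 <;>
        rcases abs_cases (D x i k - D y i k) with c3 | c3 <;>
        linarith [x1.1, x1.2, y1.1, y1.2, a1.1, a1.2, a2.1, a2.2, a3.1, a3.2, b1.1, b1.2, b2.1,
          b2.2, b3.1, b3.2, c1.1, c2.1, c3.1])
      n Finset.univ (by simp)
    simp only [sq_abs, ← hDsub] at hm
    have h2 := hnorm (x - y)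
    simp only [D] at hm
    rw [h2] at hm
    rw [dist_eq_norm]
    have hn' : (n : ℝ) = 4 * p := by rw [hn]; push_cast; ring
    rw [hn'] at hm
    have hpp : (0:ℝ) ≤ 2 * p := by positivity
    apply abs_le_of_sq_le_sq' _ hpp |>.2
    nlinarith
  have hbdd : Bornology.IsBounded P := by
    rw [Metric.isBounded_iff]
    exact ⟨2 * p, fun x hx y hy => hdist x hx y hy⟩
  have hdiam : Metric.diam P ≤ 2 * p :=
    Metric.diam_le_of_forall_dist_le (by positivity) hdist
  have hint : (interior P).Nonempty := by
    obtain ⟨x0, hx0⟩ := hsurj (fun i j => if i = j then 0 else 1 / 2) (by simp)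
      (fun i j => by simp only [eq_comm])
    refine ⟨x0, mem_interior.2 ⟨Metric.ball x0 (1 / 12), ?_, Metric.isOpen_ball, by simp⟩⟩
    intro x hx
    have hb : ∀ i j, i ≠ j → 1 / 3 ≤ D x i j ∧ D x i j ≤ 2 / 3 := by
      intro i j hij
      have h1 : (D (x - x0) i j) ^ 2 ≤ 2 * ‖x - x0‖ ^ 2 := by
        rw [← hnorm]
        calc _ ≤ ∑ j', (D (x - x0) i j') ^ 2 :=
              Finset.single_le_sum (f := fun j' => (D (x - x0) i j') ^ 2)
                (fun _ _ => sq_nonneg _) (Finset.mem_univ j)
          _ ≤ _ := Finset.single_le_sum (f := fun i' => ∑ j', (D (x - x0) i' j') ^ 2)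
                (fun _ _ => Finset.sum_nonneg (fun _ _ => sq_nonneg _)) (Finset.mem_univ i)
      rw [Metric.mem_ball, dist_eq_norm] at hx
      have h2 : D x0 i j = 1 / 2 := by simp only [D]; rw [hx0]; simp [hij]
      rw [hDsub, h2] at h1
      have h3 := norm_nonneg (x - x0)
      constructor <;> nlinarith
    rw [hmem]
    intro i j k
    by_cases e1 : i = j
    · subst e1
      by_cases e2 : i = k
      · subst e2; simp [hD0]
      · have := hb i k e2
        rw [hD0]; constructor <;> linarith [this.1, this.2]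
    · by_cases e2 : j = k
      · subst e2
        have := hb i j e1
        rw [hD0]; constructor <;> linarith [this.1, this.2]
      · by_cases e3 : i = k
        · subst e3
          have h1 := hb i j e1
          have h2 := hb j i e2
          rw [hD0]; constructor <;> linarith [h1.1, h1.2, h2.1, h2.2]
        · have h1 := hb i j e1
          have h2 := hb j k e2
          have h3 := hb i k e3
          constructor <;> linarith [h1.1, h1.2, h2.1, h2.2, h3.1, h3.2]
  obtain ⟨S, hS, hcov⟩ := H d (Fintype.card K) (fun i => a0 (eK.symm i)) (fun i => b0 (eK.symm i))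
    P hd rfl hbdd hint
  -- cut vectors
  let cf : Finset (Fin n) → Fin n → Fin n → ℝ := fun A i j => if (i ∈ A ↔ j ∈ A) then 0 else 1
  have hcut : ∀ A : Finset (Fin n), ∃ x, ∀ i j, D x i j = cf A i j := by
    intro A
    apply hsurj
    · intro i; simp [cf]
    · intro i j; simp only [cf, iff_comm]
  choose cv hcv using hcut
  have hcvP : ∀ A, cv A ∈ P := by
    intro A
    rw [hmem]
    intro i j k
    simp only [hcv, cf]
    by_cases h1 : i ∈ A <;> by_cases h2 : j ∈ A <;> by_cases h3 : k ∈ A <;>
      simp [h1, h2, h3] <;> norm_num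
  have hcol : ∀ A, ∃ i, cv A ∈ S i := fun A => Set.mem_iUnion.1 (hcov (hcvP A))
  choose col hcolS using hcol
  have hfar : ∀ A B : Finset (Fin n), (symmDiff A B).card = 2 * p →
      dist (cv A) (cv B) = 2 * p := by
    intro A B hAB
    have h2 := hnorm (cv A - cv B)
    have h3 : ∀ i j, (D (cv A - cv B) i j) ^ 2
        = (1 - sg ℝ (symmDiff A B) i * sg ℝ (symmDiff A B) j) / 2 := by
      intro i j
      rw [hDsub, hcv, hcv]
      simp only [cf, sg, Finset.mem_symmDiff]
      by_cases h1 : i ∈ A <;> by_cases h2 : j ∈ A <;> by_cases h3 : i ∈ B <;>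
        by_cases h4 : j ∈ B <;> simp [h1, h2, h3, h4]
    have h4 : ∑ i, sg ℝ (symmDiff A B) i = 0 := by
      have := ip_eq ℝ (symmDiff A B) (∅ : Finset (Fin n))
      simp only [ip, sg, Finset.notMem_empty, if_false, mul_one] at this
      simp only [sg]
      rw [this]
      have e : symmDiff (symmDiff A B) (∅ : Finset (Fin n)) = symmDiff A B := symmDiff_bot _
      rw [e, hAB, Fintype.card_fin, hn]; push_cast; ring
    have h5 : ∑ i, ∑ j, (D (cv A - cv B) i j) ^ 2 = (n : ℝ) ^ 2 / 2 := by
      simp only [h3, ← Finset.sum_div, Finset.sum_sub_distrib, ← Finset.mul_sum, h4]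
      simp; ring
    simp only [D] at h5
    rw [h5] at h2
    have hn' : (n : ℝ) = 4 * p := by rw [hn]; push_cast; ring
    rw [hn'] at h2
    rw [dist_eq_norm]
    have hpp : (0:ℝ) ≤ 2 * p := by positivity
    rw [← sq_eq_sq₀ (norm_nonneg _) hpp]
    nlinarith
  let z : Fin n := ⟨0, by omega⟩
  let g : Finset (Fin n) → Fin (Fintype.card K) × Bool × Bool := fun A =>
    (col A, decide (z ∈ A), decide (A.card % 2 = 0))
  have hcardK : Fintype.card K = n * (n * (n * 2)) := by simp [K]
  obtain ⟨y, hy⟩ := Fintype.exists_lt_card_fiber_of_mul_lt_card g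
    (n := 4 ^ n / 3 ^ (n - (p - 1))) (by
      simp only [Fintype.card_prod, Fintype.card_fin, Fintype.card_bool, Fintype.card_finset]
      rw [hcardK]; exact hnum)
  have hfw := fw p hp2 (V := Fin n) (by rw [Fintype.card_fin, hn]; exact Dvd.intro_left 4 rfl)
    (Finset.univ.filter (fun A => g A = y)) (by
      intro A hA B hB hne hdvd
      have hA' := (Finset.mem_filter.1 hA).2
      have hB' := (Finset.mem_filter.1 hB).2
      have hg : g A = g B := hA'.trans hB'.symm
      simp only [g, Prod.mk.injEq, decide_eq_decide] at hg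
      obtain ⟨g1, g2, g3⟩ := hg
      have hpos : 0 < (symmDiff A B).card := by
        rw [Finset.card_pos, Finset.nonempty_iff_ne_empty]
        intro h
        exact hne (symmDiff_eq_bot.1 h)
      have hlt : (symmDiff A B).card < n := by
        have : symmDiff A B ⊂ Finset.univ := by
          rw [Finset.ssubset_univ_iff]
          intro h
          have : z ∈ symmDiff A B := by rw [h]; simp
          rw [Finset.mem_symmDiff] at this
          tauto
        simpa using Finset.card_lt_card this
      have hpar : (symmDiff A B).card % 2 = 0 := by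
        have e1 : (symmDiff A B).card = (A \ B).card + (B \ A).card := by
          rw [symmDiff_def, Finset.sup_eq_union, Finset.card_union_of_disjoint]
          exact disjoint_sdiff_sdiff
        have e2 := Finset.card_sdiff_add_card_inter A B
        have e3 := Finset.card_sdiff_add_card_inter B A
        rw [Finset.inter_comm] at e3
        omega
      obtain ⟨t, ht⟩ := hdvd
      have ht4 : t < 4 := by
        rw [ht, hn] at hlt
        by_contra hh
        push_neg at hh
        nlinarith
      have h2p : (symmDiff A B).card = 2 * p := by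
        interval_cases t <;> omega
      have d1 := hfar A B h2p
      have d2 : dist (cv A) (cv B) ≤ Metric.diam (S (col A)) :=
        Metric.dist_le_diam_of_mem (hbdd.subset (hS _).1) (hcolS A) (g1 ▸ hcolS B)
      have d3 := (hS (col A)).2
      linarith)
  rw [Fintype.card_fin] at hfw
  have := (Nat.le_div_iff_mul_le (by positivity)).2 hfw
  omega

theorem result :
    ¬ (∀ (d m : ℕ) (a : Fin m → EuclideanSpace ℝ (Fin d)) (b : Fin m → ℝ)
      (P : Set (EuclideanSpace ℝ (Fin d))),
      1 ≤ d →
      P = ⋂ i, {x : EuclideanSpace ℝ (Fin d) | @inner ℝ _ _ (a i) x ≤ b i} →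
      Bornology.IsBounded P →
      (interior P).Nonempty →
      ∃ S : Fin m → Set (EuclideanSpace ℝ (Fin d)),
        (∀ i, S i ⊆ P ∧ Metric.diam (S i) < Metric.diam P) ∧ P ⊆ ⋃ i, S i) :=
  haveI : Fact (Nat.Prime 37) := ⟨by norm_num⟩
  main 37 (by norm_num) (by norm_num)

end Pool.Agent.S08938
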