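import Pool.Statements.S08958
import Pool.Agent.H.MP_5b9ab2_co.Cx

set_option autoImplicit false
open Pool Pool.MP_5b9ab2_co

namespace Pool.Agent.S08958

/-- The negation of the preceding statement: For every complex with a PS ear decomposition (a PS-sphere with PS-balls of the same dimension attached along their boundaries), its h-vector is the degree-count vector of a finite pure multicomplex of monomials. -/
theorem result :
    ¬ (∀ (n d : ℕ) (Δ : Finset (Finset (Fin n))),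
    (∃ (m : ℕ) (A : ℕ → Finset (Fin n)) (P : ℕ → Finset (Finset (Fin n)))
        (E : ℕ → Finset (Finset (Fin n))),
      (∀ j, E j = (A j ∪ (P j).sup id).powerset.filter (fun F => ∀ B ∈ P j, ¬ B ⊆ F)) ∧
      A 0 = ∅ ∧
      (∀ j ≤ m, (∀ B ∈ P j, 2 ≤ B.card ∧ Disjoint (A j) B) ∧
        (∀ B ∈ P j, ∀ C ∈ P j, B ≠ C → Disjoint B C) ∧
        (A j).card + ∑ B ∈ P j, (B.card - 1) = d) ∧
      (∀ j, 1 ≤ j → j ≤ m → (A j).Nonempty ∧
        ((Finset.range j).biUnion E) ∩ E j = (E j).filter (fun F => ¬ A j ⊆ F)) ∧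
      Δ = (Finset.range (m + 1)).biUnion E) →
    ∃ (r : ℕ) (M : Finset (Fin r → ℕ)),
      (∀ μ ∈ M, ∀ ν : Fin r → ℕ, ν ≤ μ → ν ∈ M) ∧
      (∀ μ ∈ M, ∀ ν ∈ M, (∀ κ ∈ M, μ ≤ κ → κ = μ) → (∀ κ ∈ M, ν ≤ κ → κ = ν) →
        ∑ i, μ i = ∑ i, ν i) ∧
      ∀ k : ℕ, (((M.filter (fun μ => ∑ i, μ i = k)).card : ℤ) =
        if k ≤ d then
          ∑ i ∈ Finset.range (k + 1), (-1 : ℤ) ^ (k - i) * (((d - i).choose (k - i) : ℕ) : ℤ) *
            ((Δ.filter (fun F => F.card = i)).card : ℤ)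
        else 0)) := by
  intro H
  open Pool.Agent.H.MP_5b9ab2_co in
  have hm : ∀ j F, F ∈ (AA j ∪ (PP j).sup id).powerset.filter (fun F => ∀ B ∈ PP j, ¬ B ⊆ F) ↔
      mm j F := fun j F => by rw [Finset.mem_filter, Finset.mem_powerset]; rfl
  open Pool.Agent.H.MP_5b9ab2_co in
  obtain ⟨r, M, h1, h2, h3⟩ := H 10 7 (Finset.univ.filter pr) ⟨2, AA, PP,
    fun j => (AA j ∪ (PP j).sup id).powerset.filter (fun F => ∀ B ∈ PP j, ¬ B ⊆ F),
    fun _ => rfl, rfl, c0, fun j a1 a2 => by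
      obtain rfl | rfl : j = 1 ∨ j = 2 := by omega
      · refine ⟨by decide, Finset.ext fun F => ?_⟩
        rw [Finset.mem_inter, Finset.mem_biUnion, Finset.mem_filter (p := fun F => ¬ AA 1 ⊆ F)]
        simp only [hm, Finset.range_one, Finset.mem_singleton, exists_eq_left]
        exact (c1 F).1
      · refine ⟨by decide, Finset.ext fun F => ?_⟩
        rw [Finset.mem_inter, Finset.mem_biUnion, Finset.mem_filter (p := fun F => ¬ AA 2 ⊆ F)]
        simp only [hm]
        rw [← (c1 F).2.1]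
        simp [Finset.range_add_one, or_comm],
    Finset.ext fun F => by
      rw [Finset.mem_biUnion, Finset.mem_filter]
      simp only [hm]
      rw [(c1 F).2.2]
      simp [Finset.range_add_one, or_comm, or_assoc, or_left_comm]⟩
  open Pool.Agent.H.MP_5b9ab2_co in
  refine notpure M h1 h2 (fun k => ?_)
  have h := h3 k
  by_cases hk : k ≤ 7
  · rw [if_pos hk, Finset.sum_congr rfl (fun i hi => by
      rw [Pool.Agent.H.MP_5b9ab2_co.fv i (by have := Finset.mem_range.1 hi; omega)])] at h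
    have e : ∀ k ≤ 7, ∑ i ∈ Finset.range (k + 1), (-1 : ℤ) ^ (k - i) *
        (((7 - i).choose (k - i) : ℕ) : ℤ) *
        (([1, 10, 45, 117, 191, 199, 126, 40].getD i 0 : ℕ) : ℤ) =
        (([1, 3, 6, 7, 8, 7, 5, 3].getD k 0 : ℕ) : ℤ) := by decide +kernel
    rw [e k hk] at h
    exact_mod_cast h
  · rw [if_neg hk] at h
    rw [List.getD_eq_default _ _ (by simp; omega)]
    exact_mod_cast h

end Pool.Agent.S08958
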