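import Pool.Statements.S09017
import Pool.Agent.H.MP_5d5585_co.B

set_option autoImplicit false
open Classical
open Pool Pool.MP_5d5585_co

namespace Pool.Agent.S09017

theorem result :
    ∀ d : ℕ, 3 ≤ d →
      ∃ c₁ c₂ : ℝ, 0 < c₁ ∧ 0 < c₂ ∧
        ∀ ε₁ ε₂ : ℝ, 0 < ε₁ → ε₁ < 1 → 0 < ε₂ → ε₂ < 1 →
          ∀ X : Finset (EuclideanSpace ℝ (Fin d)),
            (∀ x ∈ X, ∀ y ∈ X, dist x y ≤ 1) →
            c₁ * ε₁ ^ (-(d : ℝ)) ≤ (X.card : ℝ) →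
            (ε₁ ≤ ε₂ →
              c₂ * ε₁ ^ (d : ℝ) * ε₂ ^ (-(((d : ℝ) + 1) / 2)) *
                  ((X.offDiag.filter (fun p => 1 - ε₂ ≤ dist p.1 p.2)).card : ℝ)
                ≤ ((X.offDiag.filter (fun p => dist p.1 p.2 ≤ ε₁)).card : ℝ)) ∧
            (ε₂ < ε₁ →
              c₂ * ε₁ ^ (((d : ℝ) - 1) / 2) *
                  ((X.offDiag.filter (fun p => 1 - ε₂ ≤ dist p.1 p.2)).card : ℝ)
                ≤ ((X.offDiag.filter (fun p => dist p.1 p.2 ≤ ε₁)).card : ℝ)) := by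
  intro d hd
  obtain ⟨m, rfl⟩ : ∃ m, d = m + 1 := ⟨d - 1, by omega⟩
  obtain ⟨K, hK, hK0⟩ : ∃ K : ℝ, K = 4 * (m + 1) * ((16 * ((2 * m + 8) * (7 * (m + 1) ^ 2))) ^ m *
      ((2 * m + 3) * (7 * (m + 1) ^ 2))) ∧ 0 < K := ⟨_, rfl, by positivity⟩
  refine ⟨2 * (3 * (m + 1)) ^ (m + 1), K⁻¹, by positivity, by positivity,
    fun ε₁ ε₂ a0 a1 b0 b1 X hX hc => ?_⟩
  rw [Real.rpow_neg a0.le, Real.rpow_natCast, mul_assoc, ← div_eq_mul_inv, ← div_pow] at hc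
  have sq : ∀ {e : ℝ}, 0 < e → ∀ k : ℕ, e ^ ((k : ℝ) / 2) = √e ^ k := fun he k => by
    rw [Real.sqrt_eq_rpow, ← Real.rpow_natCast, ← Real.rpow_mul he.le]
    congr 1
    ring
  constructor
  · intro h
    have h1 := Pool.Agent.H.MP_5d5585_co.main m X a0 h le_rfl b1 hX hc
    rw [← hK] at h1
    rw [Real.rpow_neg b0.le, Real.rpow_natCast,
      show ((m + 1 : ℕ) : ℝ) + 1 = ((m + 2 : ℕ) : ℝ) by push_cast; ring, sq b0]
    refine (mul_le_mul_of_nonneg_left h1 (by positivity)).trans (le_of_eq ?_)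
    have := Real.sqrt_pos.mpr b0
    have h5 := Real.mul_self_sqrt b0.le
    generalize √ε₂ = s at *
    rw [← h5, div_pow]
    field_simp
    ring
  · intro h
    have h1 := Pool.Agent.H.MP_5d5585_co.main m X a0 le_rfl h.le a1 hX hc
    rw [← hK] at h1
    rw [show ((m + 1 : ℕ) : ℝ) - 1 = (m : ℝ) by push_cast; ring, sq a0]
    refine (mul_le_mul_of_nonneg_left h1 (by positivity)).trans (le_of_eq ?_)
    have := Real.sqrt_pos.mpr a0
    have h5 := Real.mul_self_sqrt a0.le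
    generalize ((X.offDiag.filter (fun p => dist p.1 p.2 ≤ ε₁)).card : ℝ) = N
    generalize √ε₁ = s at *
    rw [← h5, div_pow, mul_pow]
    field_simp

end Pool.Agent.S09017
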