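import Pool.Statements.S09026
import Pool.Agent.H.MP_5dc923_co.Main

set_option autoImplicit false
open scoped Classical
open Pool Pool.MP_5dc923_co

namespace Pool.Agent.S09026
open Pool.Agent.H.MP_5dc923_co

theorem result :
    ¬ (∀ (V : Type) [Fintype V] (G : SimpleGraph V) (w : Sym2 V → ℕ),
    (∀ a b : V, G.Adj a b → (G \ SimpleGraph.fromEdgeSet {s(a, b)}).Reachable a b) →
    (∀ a b : V, G.Adj a b → 2 ≤ w s(a, b)) →
    (∀ v : V, Even (∑ u : V, if G.Adj v u then w s(v, u) else 0)) →
    (∀ S : Finset V, ∀ a b : V, a ∈ S → b ∉ S → G.Adj a b →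
      2 * w s(a, b) ≤
        ∑ u : V, ∑ v : V, if (u ∈ S ∧ v ∉ S ∧ G.Adj u v) then w s(u, v) else 0) →
    ∃ (n : ℕ) (x : Fin n → V) (p : ∀ i, G.Walk (x i) (x i)),
      (∀ i, (p i).IsCycle) ∧
      ∀ a b : V, G.Adj a b →
        (∑ i : Fin n, if s(a, b) ∈ (p i).edges then 1 else 0) = w s(a, b)) := by
  intro H
  obtain ⟨n, x, p, hp, hc⟩ := H (Fin 10) pg wt bridgeless (fun a b _ => two_le a b)
    (fun v => by
      have h := vsum v
      convert h using 2 with u
      congr)
    (fun S a b ha hb _ => by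
      have h := cut S (Finset.ne_empty_of_mem ha) (fun h => hb (h ▸ Finset.mem_univ b))
      have h2 := le_six a b
      rw [wt_mk]
      refine le_trans (by omega) (le_trans h (le_of_eq ?_))
      refine Finset.sum_congr rfl fun u _ => Finset.sum_congr rfl fun v _ => ?_
      congr)
  refine no_cover x p hp fun e => ?_
  have h := hc (ea e) (eb e) (ed_adj e)
  rw [wt_mk] at h
  rw [← h]
  refine Finset.sum_congr rfl fun i _ => ?_
  unfold ind ed
  congr

end Pool.Agent.S09026
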