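import Pool.Statements.S09056

set_option autoImplicit false
open Pool Pool.MP_5f100a_co

namespace Pool.Agent.S09056

open Finset

section general
variable {α β : Type} [DecidableEq α] [DecidableEq β]

def I (D : α → α → Prop) [DecidableRel D] (s : ℕ) (A : Finset α) : ℕ :=
  ((A.powersetCard s).filter (fun F => ∀ X ∈ F, ∀ Y ∈ F, X ≠ Y → ¬ D X Y)).card

lemma I_zero (D : α → α → Prop) [DecidableRel D] (A : Finset α) : I D 0 A = 1 := by
  simp [I, powersetCard_zero, filter_singleton]

lemma I_empty (D : α → α → Prop) [DecidableRel D] (s : ℕ) : I D (s + 1) ∅ = 0 := by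
  simp [I]

lemma I_insert (D : α → α → Prop) [DecidableRel D] (hD : ∀ x y, D x y → D y x) (s : ℕ) {x : α}
    {S : Finset α} (hx : x ∉ S) :
    I D (s + 1) (insert x S) = I D (s + 1) S + I D s (S.filter (fun y => ¬ D y x)) := by
  unfold I
  rw [powersetCard_succ_insert hx, filter_union, card_union_of_disjoint]
  · congr 1
    symm
    apply card_nbij (fun F => insert x F)
    · intro F hF
      simp only [coe_filter, mem_powersetCard, Set.mem_ofPred_eq, mem_image] at hF ⊢
      obtain ⟨⟨h1, h2⟩, h3⟩ := hF
      refine ⟨⟨F, ⟨h1.trans (filter_subset _ _), h2⟩, rfl⟩, ?_⟩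
      intro X hX Y hY hne
      rw [mem_insert] at hX hY
      rcases hX with rfl | hX <;> rcases hY with rfl | hY
      · exact (hne rfl).elim
      · exact fun h => (mem_filter.1 (h1 hY)).2 (hD _ _ h)
      · exact (mem_filter.1 (h1 hX)).2
      · exact h3 X hX Y hY hne
    · intro F hF F' hF' h
      simp only [coe_filter, mem_powersetCard, Set.mem_ofPred_eq] at hF hF'
      have a1 : x ∉ F := fun hh => hx (mem_filter.1 (hF.1.1 hh)).1
      have a2 : x ∉ F' := fun hh => hx (mem_filter.1 (hF'.1.1 hh)).1
      have h' : insert x F = insert x F' := h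
      rw [← erase_insert a1, h', erase_insert a2]
    · intro F hF
      simp only [coe_filter, mem_powersetCard, Set.mem_ofPred_eq, mem_image, Set.mem_image] at hF ⊢
      obtain ⟨⟨F', ⟨h1, h2⟩, rfl⟩, h3⟩ := hF
      refine ⟨F', ⟨⟨?_, h2⟩, ?_⟩, rfl⟩
      · intro y hy
        rw [mem_filter]
        refine ⟨h1 hy, h3 y (mem_insert_of_mem hy) x (mem_insert_self _ _) ?_⟩
        rintro rfl; exact hx (h1 hy)
      · intro X hX Y hY
        exact h3 X (mem_insert_of_mem hX) Y (mem_insert_of_mem hY)
  · rw [disjoint_left]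
    intro F h1 h2
    simp only [mem_filter, mem_powersetCard, mem_image] at h1 h2
    obtain ⟨⟨F', -, rfl⟩, -⟩ := h2
    exact hx (h1.1.1 (mem_insert_self _ _))

lemma I_one (D : α → α → Prop) [DecidableRel D] (hD : ∀ x y, D x y → D y x) (S : Finset α) :
    I D 1 S = S.card := by
  induction S using Finset.induction_on with
  | empty => exact I_empty D 0
  | insert x S hx ih => rw [I_insert D hD 0 hx, I_zero, card_insert_of_notMem hx]; exact congrArg (· + 1) ih

lemma I_image (D : α → α → Prop) [DecidableRel D] (D' : β → β → Prop) [DecidableRel D']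
    (f : α → β) (A : Finset α) (hf : Set.InjOn f A)
    (hD : ∀ x ∈ A, ∀ y ∈ A, D' (f x) (f y) ↔ D x y) (s : ℕ) :
    I D' s (A.image f) = I D s A := by
  unfold I
  symm
  apply card_nbij (fun F => F.image f)
  · intro F hF
    simp only [coe_filter, mem_powersetCard, Set.mem_ofPred_eq] at hF ⊢
    obtain ⟨⟨h1, h2⟩, h3⟩ := hF
    refine ⟨⟨image_subset_image h1, ?_⟩, ?_⟩
    · rw [card_image_of_injOn (hf.mono h1), h2]
    · intro X hX Y hY hne
      obtain ⟨x, hx, rfl⟩ := mem_image.1 hX
      obtain ⟨y, hy, rfl⟩ := mem_image.1 hY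
      rw [hD x (h1 hx) y (h1 hy)]
      exact h3 x hx y hy (fun h => hne (by rw [h]))
  · intro F hF F' hF' h
    simp only [coe_filter, mem_powersetCard, Set.mem_ofPred_eq] at hF hF'
    have h' : F.image f = F'.image f := h
    ext x
    constructor
    · intro hx
      have : f x ∈ F'.image f := h' ▸ mem_image_of_mem f hx
      obtain ⟨y, hy, e⟩ := mem_image.1 this
      rwa [← hf (hF'.1.1 hy) (hF.1.1 hx) e]
    · intro hx
      have : f x ∈ F.image f := h' ▸ mem_image_of_mem f hx
      obtain ⟨y, hy, e⟩ := mem_image.1 this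
      rwa [← hf (hF.1.1 hy) (hF'.1.1 hx) e]
  · intro F hF
    simp only [coe_filter, mem_powersetCard, Set.mem_ofPred_eq, Set.mem_image] at hF ⊢
    obtain ⟨⟨h1, h2⟩, h3⟩ := hF
    obtain ⟨F', h4, rfl⟩ := subset_image_iff.1 h1
    refine ⟨F', ⟨⟨h4, ?_⟩, ?_⟩, rfl⟩
    · rw [← h2, card_image_of_injOn (hf.mono h4)]
    · intro x hx y hy hne
      rw [← hD x (h4 hx) y (h4 hy)]
      exact h3 _ (mem_image_of_mem f hx) _ (mem_image_of_mem f hy)
        (fun e => hne (hf (h4 hx) (h4 hy) e))

end general

def D (x y : ℕ) : Prop := x &&& y = 0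
instance : DecidableRel D := fun x y => inferInstanceAs (Decidable (x &&& y = 0))
lemma D_symm (x y : ℕ) (h : D x y) : D y x := by unfold D at *; rwa [Nat.land_comm]

def slots : List (ℕ × ℕ × ℕ) → Finset ℕ
  | [] => ∅
  | p :: L => insert p.1 (insert (127 - p.1) (slots L))

def good : List (ℕ × ℕ × ℕ) → Prop
  | [] => True
  | p :: L => p.1 ∉ insert (127 - p.1) (slots L) ∧ (127 - p.1) ∉ slots L ∧ D (127 - p.1) p.1 ∧
      p.1 < 128 ∧ (∀ z < 128, p.2.1.testBit z = true ↔ ¬ D z p.1) ∧
      (∀ z < 128, p.2.2.testBit z = true ↔ ¬ D z (127 - p.1)) ∧ good L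

instance good_dec : (L : List (ℕ × ℕ × ℕ)) → Decidable (good L)
  | [] => isTrue trivial
  | _ :: L => by
      unfold good
      haveI := good_dec L
      infer_instance

lemma step (p : ℕ × ℕ × ℕ) (L : List (ℕ × ℕ × ℕ)) (h : good (p :: L)) (A : Finset ℕ) (s : ℕ) :
    I D (s + 1) (A ∩ slots (p :: L)) = I D (s + 1) (A ∩ slots L)
      + (if p.1 ∈ A then I D s (A.filter (fun y => ¬ D y p.1) ∩ slots L) else 0)
      + (if 127 - p.1 ∈ A then I D s (A.filter (fun y => ¬ D y (127 - p.1)) ∩ slots L) else 0) := by
  obtain ⟨h1, h2, h3, -⟩ := h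
  have e : ∀ z, (A ∩ slots L).filter (fun y => ¬ D y z) = A.filter (fun y => ¬ D y z) ∩ slots L :=
    fun z => by ext; simp; tauto
  have n2 : 127 - p.1 ∉ A ∩ slots L := fun hh => h2 (mem_inter.1 hh).2
  have n1 : p.1 ∉ A ∩ slots L := fun hh => h1 (mem_insert_of_mem (mem_inter.1 hh).2)
  simp only [slots]
  by_cases a1 : p.1 ∈ A <;> by_cases a2 : 127 - p.1 ∈ A
  · rw [inter_insert_of_mem a1, inter_insert_of_mem a2, I_insert D D_symm, I_insert D D_symm _ n2,
      filter_insert, if_neg (not_not.2 h3), e, e, if_pos a1, if_pos a2]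
    · omega
    · intro hh
      rcases mem_insert.1 hh with hh | hh
      · exact h1 (mem_insert.2 (Or.inl hh))
      · exact n1 hh
  · rw [inter_insert_of_mem a1, inter_insert_of_notMem a2, I_insert D D_symm _ n1, e, if_pos a1,
      if_neg a2, add_zero]
  · rw [inter_insert_of_notMem a1, inter_insert_of_mem a2, I_insert D D_symm _ n2, e, if_neg a1,
      if_pos a2, add_zero]
  · rw [inter_insert_of_notMem a1, inter_insert_of_notMem a2, if_neg a1, if_neg a2]; rfl

lemma good_tail {p : ℕ × ℕ × ℕ} {L : List (ℕ × ℕ × ℕ)} (h : good (p :: L)) : good L :=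
  h.2.2.2.2.2.2

lemma too_big (L : List (ℕ × ℕ × ℕ)) (h : good L) :
    ∀ (A : Finset ℕ) (s : ℕ), L.length < s → I D s (A ∩ slots L) = 0 := by
  induction L with
  | nil =>
    intro A s hs
    obtain ⟨s, rfl⟩ : ∃ t, s = t + 1 := ⟨s - 1, by simp at hs; omega⟩
    simp [slots, I_empty]
  | cons p L ih =>
    intro A s hs
    simp only [List.length_cons] at hs
    obtain ⟨s, rfl⟩ : ∃ t, s = t + 1 := ⟨s - 1, by omega⟩
    rw [step p L h, ih (good_tail h) _ _ (by omega), ih (good_tail h) _ _ (by omega),
      ih (good_tail h) _ _ (by omega)]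
    simp

def fam (m : ℕ) : Finset ℕ := (range 128).filter (fun x => m.testBit x = true)

def tb (m i : ℕ) : Bool := Nat.beq (Nat.land 1 (Nat.shiftRight m i)) 1

lemma tb_eq (m i : ℕ) : tb m i = m.testBit i := by
  have h : Nat.land 1 (Nat.shiftRight m i) = (m >>> i) % 2 := Nat.one_and_eq_mod_two _
  rw [tb, h, Nat.testBit, Nat.one_and_eq_mod_two]
  rcases Nat.mod_two_eq_zero_or_one (m >>> i) with h | h <;> rw [h] <;> rfl

noncomputable def cnt (L : List (ℕ × ℕ × ℕ)) : ℕ → ℕ :=
  List.rec (fun _ => 1) (fun p _ ih m =>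
    Nat.add (Bool.rec 0 (ih (Nat.land m p.2.1)) (tb m p.1))
      (Bool.rec 0 (ih (Nat.land m p.2.2)) (tb m (Nat.sub 127 p.1)))) L

lemma cnt_nil (m : ℕ) : cnt [] m = 1 := rfl

lemma cnt_cons (p : ℕ × ℕ × ℕ) (L : List (ℕ × ℕ × ℕ)) (m : ℕ) : cnt (p :: L) m =
    (bif m.testBit p.1 then cnt L (m &&& p.2.1) else 0)
      + (bif m.testBit (127 - p.1) then cnt L (m &&& p.2.2) else 0) := by
  rw [← tb_eq, ← tb_eq]
  show Nat.add (Bool.rec 0 (cnt L (m &&& p.2.1)) (tb m p.1))
      (Bool.rec 0 (cnt L (m &&& p.2.2)) (tb m (127 - p.1))) = _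
  cases tb m p.1 <;> cases tb m (127 - p.1) <;> rfl

lemma fam_and (m k x : ℕ) (h : ∀ z < 128, k.testBit z = true ↔ ¬ D z x) :
    (fam m).filter (fun y => ¬ D y x) = fam (m &&& k) := by
  ext z
  simp only [fam, mem_filter, mem_range, Nat.testBit_and, Bool.and_eq_true]
  constructor
  · rintro ⟨⟨a, b⟩, c⟩; exact ⟨a, b, (h z a).2 c⟩
  · rintro ⟨a, b, c⟩; exact ⟨⟨a, b⟩, (h z a).1 c⟩

lemma cnt_eq (L : List (ℕ × ℕ × ℕ)) (h : good L) :
    ∀ m : ℕ, I D L.length (fam m ∩ slots L) = cnt L m := by
  induction L with
  | nil => intro m; simp [I_zero, cnt_nil]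
  | cons p L ih =>
    intro m
    have hg := good_tail h
    rw [List.length_cons, step p L h, too_big L hg _ _ (by omega), zero_add]
    obtain ⟨-, -, -, h4, h5, h6, -⟩ := h
    rw [fam_and m _ _ h5, fam_and m _ _ h6, ih hg, ih hg, cnt_cons]
    have a1 : p.1 ∈ fam m ↔ m.testBit p.1 = true := by simp [fam, h4]
    have a2 : 127 - p.1 ∈ fam m ↔ m.testBit (127 - p.1) = true := by
      simp only [fam, mem_filter, mem_range, and_iff_right_iff_imp]; omega
    simp only [a1, a2, Bool.cond_eq_ite]

noncomputable def dev : List (ℕ × ℕ × ℕ) → List (ℕ × ℕ × ℕ) → ℕ → ℕ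
  | [], _, _ => 0
  | p :: P, L, m => (bif m.testBit p.1 then cnt (P ++ L) (m &&& p.2.1) else 0)
      + (bif m.testBit (127 - p.1) then dev P L (m &&& p.2.2) else 0)

def cm : List (ℕ × ℕ × ℕ) → ℕ → Bool × ℕ
  | [], m => (true, m)
  | p :: P, m => bif m.testBit (127 - p.1) then cm P (m &&& p.2.2) else (false, 0)

lemma cnt_split (P L : List (ℕ × ℕ × ℕ)) : ∀ m, cnt (P ++ L) m =
    dev P L m + (bif (cm P m).1 then cnt L (cm P m).2 else 0) := by
  induction P with
  | nil => intro m; simp [dev, cm]
  | cons p P ih =>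
    intro m
    rw [List.cons_append, cnt_cons, dev, cm, ih (m &&& p.2.2)]
    cases m.testBit (127 - p.1) <;> simp
    omega

def P0 : List (ℕ × ℕ × ℕ) := [(12, 340204481279619869170981983351330635760, 340282366920938463463374607431768207086),
  (20, 340282061496371899862154763612419256560, 340282366920938463463374607431767097326),
  (24, 340282346717757017622048781186908552960, 340282366920938463463374607431751368446),
  (33, 340282366894529075964768742923725089450, 340282366920938463463374607418883309564),
  (65, 340282366920938463457225692740531694250, 340282366920938463408034375210639556604),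
  (34, 340282366905092830964211088726942338252, 340282366920938463463374607410293374970)]

def L0 : List (ℕ × ℕ × ℕ) := [(0, 0, 340282366920938463463374607431768211454),
  (1, 226854911280625642308916404954512140970, 340282366920938463463374607431768211452),
  (2, 272225893536750770770699685945414569164, 340282366920938463463374607431768211450),
  (4, 320265757102059730318470218759311257840, 340282366920938463463374607431768211438),
  (8, 338958311018522360492699998064329424640, 340282366920938463463374607431768211198),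
  (16, 340277174703306882242637262502835978240, 340282366920938463463374607431768145918),
  (32, 340282366841710300967557013907638845440, 340282366920938463463374607427473244158),
  (64, 340282366920938463444927863358058659840, 340282366920938463444927863358058659838),
  (3, 317596875792875899232482966936316997358, 340282366920938463463374607431768211440),
  (5, 333610163647978885748406477874282560250, 340282366920938463463374607431768211404),
  (6, 336279044957162716834393729697276820732, 340282366920938463463374607431768211370),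
  (9, 339841014953466429139816404309288615850, 340282366920938463463374607431768210684),
  (10, 340017555740455242869239685558280454092, 340282366920938463463374607431768210170),
  (17, 340280636181727936389795492455457467050, 340282366920938463463374607431768014844),
  (18, 340281328477412147219227138445981764812, 340282366920938463463374607431767883770),
  (36, 340282366916277983316561807812701778160, 340282366920938463463374607358753767406),
  (40, 340282366920630182675453138196265762560, 340282366920938463463374606327961616126),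
  (48, 340282366920937254556001736876302991360, 340282366920938463463374325952496467966),
  (66, 340282366920938463459685258617026301132, 340282366920938463371140887063220453370),
  (68, 340282366920938463462289504839197061360, 340282366920938463149779958178705833966),
  (72, 340282366920938463463302830217473621760, 340282366920938458722561380488413445886),
  (80, 340282366920938463463374325961086402560, 340282366920937254519108248728883888126),
  (96, 340282366920938463463374607427473244160, 340282366841710300930663525760219742206),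
  (7, 338947926266346547920380981520271081214, 340282366920938463463374607431768211200),
  (11, 340194096527444056598662966807272292334, 340282366920938463463374607431768207600),
  (13, 340256405040498932032577066071622352890, 340282366920938463463374607431768198348),
  (14, 340266789792674744604896082615680696316, 340282366920938463463374607431768189610),
  (19, 340282020773096358048658784436506062574, 340282366920938463463374607431767228400),
  (21, 340282265112749608929634659491985226490, 340282366920938463463374607431764869068),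
  (22, 340282305836025150743130638667898420476, 340282366920938463463374607431762640810),
  (25, 340282360186544648182932665350148325290, 340282366920938463463374607431717682428),
  (26, 340282362880302174295109442182796279756, 340282366920938463463374607431683996410),
  (28, 340282365732516025472708382358541172720, 340282366920938463463374607431481880302),
  (35, 340282366915656585963653434530159587054, 340282366920938463463374607367343702000),
  (37, 340282366919384970081103674225412733690, 340282366920938463463374607212724879308),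
  (38, 340282366920006367434012047507954924796, 340282366920938463463374607066695991210),
  (41, 340282366920835703200734117686600728490, 340282366920938463463374604120348425468),
  (42, 340282366920876807305790313584667721676, 340282366920938463463374601912735234810),
  (44, 340282366920920329299379226888503361520, 340282366920938463463374588667056090862),
  (49, 340282366920938060494250317246613138090, 340282366920938463463373762993952980988),
  (50, 340282366920938221681900033320675167436, 340282366920938463463373200035409494010),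
  (52, 340282366920938392351176203281446727920, 340282366920938463463369822284148572142),
  (56, 340282366920938458759454868635832549120, 340282366920938463463302267258930134782),
  (67, 340282366920938463462144824493520908014, 340282366920938463186673446326124937200),
  (69, 340282366920938463463012906567577828090, 340282366920938462522590659672581078988),
  (70, 340282366920938463463157586913253981436, 340282366920938461895401361166456324010),
  (73, 340282366920938463463350681693670014890, 340282366920938449240934926601703914748),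
  (74, 340282366920938463463360251988909293516, 340282366920938439759308472714994383610),
  (76, 340282366920938463463370385242692059120, 340282366920938382869549749394737196782),
  (81, 340282366920938463463374513608207608490, 340282366920934836630575531323115241468),
  (82, 340282366920938463463374551137631849676, 340282366920932418742042813917346594810),
  (84, 340282366920938463463374590874669281520, 340282366920917911410846509482734714862),
  (88, 340282366920938463463374606336551550720, 340282366920627764786920420790497115902),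
  (97, 340282366920938463463374607430336555690, 340282366683253975865241362417122803708),
  (98, 340282366920938463463374607430909217996, 340282366524797650799819199074025865210),
  (100, 340282366920938463463374607431515566320, 340282365574059700407286219015444234222),
  (104, 340282366920938463463374607431751499520, 340282346559300692556626617843811614462),
  (112, 340282366920938463463374607431768145920, 340277174544850557177215099159739039742)]

def mA : ℕ := 340282366841709086876648775970812002024
def mB : ℕ := 340282366841709086913542264143983079144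

lemma devA : dev P0 L0 mA = 20452 := by decide +kernel
lemma devB : dev P0 L0 mB = 20461 := by decide +kernel
lemma cmAB : cm P0 mA = cm P0 mB := by decide +kernel
lemma good0 : good (P0 ++ L0) := by decide +kernel
lemma slots0 : slots (P0 ++ L0) = range 128 := by decide +kernel

lemma lt64 : I D 64 (fam mA) < I D 64 (fam mB) := by
  have e : ∀ m, fam m ∩ slots (P0 ++ L0) = fam m := fun m => by
    rw [slots0]; exact inter_eq_left.2 (filter_subset _ _)
  have h1 := cnt_eq _ good0 mA
  have h2 := cnt_eq _ good0 mB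
  have hl : (P0 ++ L0).length = 64 := by decide +kernel
  rw [e, hl, cnt_split] at h1 h2
  rw [h1, h2, devA, devB, cmAB]
  omega

def pc (x : ℕ) : ℕ := ((List.range 7).filter (fun i => x.testBit i)).length

def T : Finset ℕ := (range 128).filter (fun x => 3 ≤ pc x)
def pairs : List ℕ := [3, 5, 6, 9, 10, 12, 17, 18, 20, 24, 33, 34, 36, 40, 48, 65, 66, 68, 72, 80, 96]
def G0 : List ℕ := [3, 5, 6, 9, 10, 12, 17, 18, 20, 24]

def tab : List (List ℕ × List ℕ) := [([96, 80, 72, 68, 48, 40, 36, 24, 20, 12], [2, 3, 4, 5, 6, 0, 1]),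
  ([96, 80, 72, 66, 48, 40, 34, 24, 18, 10], [1, 3, 4, 5, 6, 0, 2]),
  ([96, 80, 68, 66, 48, 36, 34, 20, 18, 6], [1, 2, 4, 5, 6, 0, 3]),
  ([96, 72, 68, 66, 40, 36, 34, 12, 10, 6], [1, 2, 3, 5, 6, 0, 4]),
  ([80, 72, 68, 66, 24, 20, 18, 12, 10, 6], [1, 2, 3, 4, 6, 0, 5]),
  ([48, 40, 36, 34, 24, 20, 18, 12, 10, 6], [1, 2, 3, 4, 5, 0, 6]),
  ([96, 80, 72, 65, 48, 40, 33, 24, 17, 9], [0, 3, 4, 5, 6, 1, 2]),
  ([96, 80, 68, 65, 48, 36, 33, 20, 17, 5], [0, 2, 4, 5, 6, 1, 3]),
  ([96, 72, 68, 65, 40, 36, 33, 12, 9, 5], [0, 2, 3, 5, 6, 1, 4]),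
  ([80, 72, 68, 65, 24, 20, 17, 12, 9, 5], [0, 2, 3, 4, 6, 1, 5]),
  ([48, 40, 36, 33, 24, 20, 17, 12, 9, 5], [0, 2, 3, 4, 5, 1, 6]),
  ([96, 80, 66, 65, 48, 34, 33, 18, 17, 3], [0, 1, 4, 5, 6, 2, 3]),
  ([96, 72, 66, 65, 40, 34, 33, 10, 9, 3], [0, 1, 3, 5, 6, 2, 4]),
  ([80, 72, 66, 65, 24, 18, 17, 10, 9, 3], [0, 1, 3, 4, 6, 2, 5]),
  ([48, 40, 34, 33, 24, 18, 17, 10, 9, 3], [0, 1, 3, 4, 5, 2, 6]),
  ([96, 68, 66, 65, 36, 34, 33, 6, 5, 3], [0, 1, 2, 5, 6, 3, 4]),
  ([80, 68, 66, 65, 20, 18, 17, 6, 5, 3], [0, 1, 2, 4, 6, 3, 5]),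
  ([48, 36, 34, 33, 20, 18, 17, 6, 5, 3], [0, 1, 2, 4, 5, 3, 6]),
  ([72, 68, 66, 65, 12, 10, 9, 6, 5, 3], [0, 1, 2, 3, 6, 4, 5]),
  ([40, 36, 34, 33, 12, 10, 9, 6, 5, 3], [0, 1, 2, 3, 5, 4, 6]),
  ([24, 20, 18, 17, 12, 10, 9, 6, 5, 3], [0, 1, 2, 3, 4, 5, 6])]

def perm (p : List ℕ) (x : ℕ) : ℕ :=
  ((List.range 7).map (fun i => bif x.testBit i then 2 ^ (p.getD i 0) else 0)).sum

lemma tab1 : ∀ t ∈ tab, ∀ x < 128, mA.testBit x = true →
    3 ≤ pc (perm t.2 x) ∨ perm t.2 x ∈ t.1 := by decide +kernel

lemma tab3 : ∀ t ∈ tab, (∀ x < 128, perm t.2 x < 128 ∧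
    ∀ i < 7, (perm t.2 x).testBit (t.2.getD i 0) = x.testBit i) ∧
    (∀ i < 7, t.2.getD i 0 < 7) ∧ (∀ j < 7, ∃ i < 7, t.2.getD i 0 = j) := by decide +kernel

lemma hi_bit {x i : ℕ} (hx : x < 128) (hi : 7 ≤ i) : x.testBit i = false :=
  Nat.testBit_lt_two_pow (lt_of_lt_of_le hx (Nat.pow_le_pow_right (by norm_num : 0 < 2) hi))

lemma D_iff {x : ℕ} (hx : x < 128) (y : ℕ) :
    D x y ↔ ∀ i < 7, ¬ (x.testBit i = true ∧ y.testBit i = true) := by
  unfold D
  constructor
  · intro h i _ hh
    have := congrArg (fun z => z.testBit i) h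
    simp [hh.1, hh.2] at this
  · intro h
    apply Nat.eq_of_testBit_eq
    intro i
    rw [Nat.testBit_and, Nat.zero_testBit]
    rcases lt_or_ge i 7 with hi | hi
    · have := h i hi
      revert this
      cases x.testBit i <;> cases y.testBit i <;> simp
    · rw [hi_bit hx hi]; rfl

lemma eq_of_bits {x y : ℕ} (hx : x < 128) (hy : y < 128)
    (h : ∀ i < 7, x.testBit i = y.testBit i) : x = y := by
  apply Nat.eq_of_testBit_eq
  intro i
  rcases lt_or_ge i 7 with hi | hi
  · exact h i hi
  · rw [hi_bit hx hi, hi_bit hy hi]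

lemma tab2 : ∀ t ∈ tab, ∀ x < 128, ∀ y < 128,
    (perm t.2 x = perm t.2 y → x = y) ∧ (D (perm t.2 x) (perm t.2 y) ↔ D x y) := by
  intro t ht x hx y hy
  obtain ⟨h1, h2, h3⟩ := tab3 t ht
  constructor
  · intro e
    apply eq_of_bits hx hy
    intro i hi
    rw [← (h1 x hx).2 i hi, ← (h1 y hy).2 i hi, e]
  · rw [D_iff (h1 x hx).1, D_iff hx]
    constructor
    · intro h i hi
      rw [← (h1 x hx).2 i hi, ← (h1 y hy).2 i hi]
      exact h _ (h2 i hi)
    · intro h j hj
      obtain ⟨i, hi, rfl⟩ := h3 j hj
      rw [(h1 x hx).2 i hi, (h1 y hy).2 i hi]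
      exact h i hi

noncomputable def meets (S : List ℕ) (x : ℕ) : ℕ :=
  List.rec 0 (fun y _ ih => Bool.rec (Nat.succ ih) ih (Nat.beq (Nat.land y x) 0)) S

lemma meets_eq (S : List ℕ) (hS : S.Nodup) (x : ℕ) :
    (S.toFinset.filter (fun y => ¬ D y x)).card = meets S x := by
  induction S with
  | nil => rfl
  | cons y S ih =>
    rw [List.nodup_cons] at hS
    rw [List.toFinset_cons, filter_insert]
    show _ = (Bool.rec (Nat.succ (meets S x)) (meets S x) (Nat.beq (y &&& x) 0) : ℕ)
    by_cases h : D y x
    · have : Nat.beq (y &&& x) 0 = true := Nat.beq_eq.mpr h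
      rw [if_neg (not_not.2 h), this, ih hS.2]
    · have : Nat.beq (y &&& x) 0 = false := by
        cases hb : Nat.beq (y &&& x) 0
        · rfl
        · exact (h (Nat.beq_eq.mp hb)).elim
      rw [if_pos h, this, card_insert_of_notMem (by simp [hS.1]), ih hS.2]

def leaf (S : List ℕ) (c : ℕ) : Bool := bif Nat.ble c 29 then true else decide (S ∈ tab.map (·.1))

noncomputable def chk (L : List ℕ) : ℕ → ℕ → List ℕ → ℕ → Bool :=
  List.rec (fun _ k S c => Bool.rec true (leaf S c) (Nat.beq k 0))
    (fun x _ ih r k S c => Bool.rec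
      (Bool.rec
        (Bool.rec false (ih (Nat.pred r) (Nat.pred k) (x :: S) (Nat.add c (meets S x)))
          (ih (Nat.pred r) k S c))
        true (Nat.ble (Nat.succ r) k))
      (leaf S c) (Nat.beq k 0)) L

def OK (L : List ℕ) (k : ℕ) (S : List ℕ) : Prop :=
  L.Nodup → S.Nodup → (∀ x ∈ L, x ∉ S) →
    ∀ G : Finset ℕ, G ⊆ L.toFinset → G.card = k → 30 ≤ I D 2 (S.toFinset ∪ G) →
    ∃ t ∈ tab, S.toFinset ∪ G = t.1.toFinset

lemma OK_step {x : ℕ} {L : List ℕ} {k : ℕ} {S : List ℕ} (h1 : OK L (k + 1) S)
    (h2 : OK L k (x :: S)) : OK (x :: L) (k + 1) S := by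
  intro hL hS hLS G hG hk h30
  rw [List.nodup_cons] at hL
  have hxS : x ∉ S := hLS x (by simp)
  by_cases hx : x ∈ G
  · have e : S.toFinset ∪ G = (x :: S).toFinset ∪ G.erase x := by
      ext z
      simp only [mem_union, List.mem_toFinset, List.mem_cons, mem_erase]
      by_cases hz : z = x
      · subst hz; simp [hx]
      · simp [hz]
    rw [e] at h30 ⊢
    refine h2 hL.2 (List.nodup_cons.2 ⟨hxS, hS⟩) ?_ _ ?_ ?_ h30
    · intro y hy hy'
      rcases List.mem_cons.1 hy' with rfl | hy'
      · exact hL.1 hy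
      · exact hLS y (List.mem_cons_of_mem _ hy) hy'
    · intro z hz
      rw [mem_erase] at hz
      have := hG hz.2
      simp only [List.toFinset_cons, mem_insert] at this
      exact this.resolve_left hz.1
    · rw [card_erase_of_mem hx, hk]; rfl
  · refine h1 hL.2 hS (fun y hy => hLS y (List.mem_cons_of_mem _ hy)) _ ?_ hk h30
    intro z hz
    have := hG hz
    simp only [List.toFinset_cons, mem_insert] at this
    exact this.resolve_left (fun e => hx (e ▸ hz))

lemma chk_ok (L : List ℕ) : ∀ (r k : ℕ) (S : List ℕ) (c : ℕ), chk L r k S c = true →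
    L.length = r → (S.Nodup → I D 2 S.toFinset = c) → OK L k S := by
  have lf : ∀ (L S : List ℕ) (c : ℕ), leaf S c = true → (S.Nodup → I D 2 S.toFinset = c) →
      OK L 0 S := by
    intro L S c h hc _ hS _ G _ hG h30
    rw [card_eq_zero] at hG
    subst hG
    rw [union_empty] at h30 ⊢
    have : Nat.ble c 29 = false := by
      cases hb : Nat.ble c 29
      · rfl
      · have := Nat.le_of_ble_eq_true hb; have := hc hS; omega
    rw [leaf, this] at h
    simp only [cond_false, decide_eq_true_eq, List.mem_map] at h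
    obtain ⟨t, ht, rfl⟩ := h
    exact ⟨t, ht, rfl⟩
  induction L with
  | nil =>
    intro r k S c h _ hc
    cases k with
    | zero => exact lf _ S c h hc
    | succ k => intro _ _ _ G hG hk; simp at hG; subst hG; simp at hk
  | cons x L ih =>
    intro r k S c h hr hc
    cases k with
    | zero => exact lf _ S c h hc
    | succ k =>
      by_cases hle : k + 1 ≤ r
      · have h1 : Nat.ble (Nat.succ r) (k + 1) = false := by
          cases hb : Nat.ble (Nat.succ r) (k + 1)
          · rfl
          · have := Nat.le_of_ble_eq_true hb; omega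
        have h2 : (Bool.rec
          (Bool.rec false (chk L (r - 1) k (x :: S) (c + meets S x)) (chk L (r - 1) (k + 1) S c))
          true (Nat.ble (Nat.succ r) (k + 1)) : Bool) = true := h
        rw [h1] at h2
        have hr' : L.length = r - 1 := by simp at hr; omega
        have h3 : chk L (r - 1) (k + 1) S c = true := by
          revert h2; cases chk L (r - 1) (k + 1) S c <;> simp
        rw [h3] at h2
        refine OK_step (ih _ _ _ _ h3 hr' hc) (ih _ _ _ _ h2 hr' ?_)
        intro hS
        rw [List.nodup_cons] at hS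
        rw [List.toFinset_cons, I_insert D D_symm 1 (by simpa using hS.1), I_one D D_symm,
          meets_eq S hS.2, hc hS.2]
      · intro _ _ _ G hG hk
        have := (card_le_card hG).trans (List.toFinset_card_le _)
        omega

lemma ck0 : OK [10, 12, 17, 18, 20, 24, 33, 34, 36, 40, 48, 65, 66, 68, 72, 80, 96] 10 [] :=
  chk_ok _ 17 _ _ 0 (by decide +kernel) rfl (fun _ => by decide)

lemma ck1 : OK [10, 12, 17, 18, 20, 24, 33, 34, 36, 40, 48, 65, 66, 68, 72, 80, 96] 9 [9] :=
  chk_ok _ 17 _ _ 0 (by decide +kernel) rfl (fun _ => by decide)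

lemma ck2 : OK [10, 12, 17, 18, 20, 24, 33, 34, 36, 40, 48, 65, 66, 68, 72, 80, 96] 9 [6] :=
  chk_ok _ 17 _ _ 0 (by decide +kernel) rfl (fun _ => by decide)

lemma ck3 : OK [10, 12, 17, 18, 20, 24, 33, 34, 36, 40, 48, 65, 66, 68, 72, 80, 96] 8 [9, 6] :=
  chk_ok _ 17 _ _ 0 (by decide +kernel) rfl (fun _ => by decide)

lemma ck4 : OK [10, 12, 17, 18, 20, 24, 33, 34, 36, 40, 48, 65, 66, 68, 72, 80, 96] 9 [5] :=
  chk_ok _ 17 _ _ 0 (by decide +kernel) rfl (fun _ => by decide)

lemma ck5 : OK [10, 12, 17, 18, 20, 24, 33, 34, 36, 40, 48, 65, 66, 68, 72, 80, 96] 8 [9, 5] :=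
  chk_ok _ 17 _ _ 1 (by decide +kernel) rfl (fun _ => by decide)

lemma ck6 : OK [10, 12, 17, 18, 20, 24, 33, 34, 36, 40, 48, 65, 66, 68, 72, 80, 96] 8 [6, 5] :=
  chk_ok _ 17 _ _ 1 (by decide +kernel) rfl (fun _ => by decide)

lemma ck7 : OK [10, 12, 17, 18, 20, 24, 33, 34, 36, 40, 48, 65, 66, 68, 72, 80, 96] 7 [9, 6, 5] :=
  chk_ok _ 17 _ _ 2 (by decide +kernel) rfl (fun _ => by decide)

lemma ck8 : OK [10, 12, 17, 18, 20, 24, 33, 34, 36, 40, 48, 65, 66, 68, 72, 80, 96] 9 [3] :=
  chk_ok _ 17 _ _ 0 (by decide +kernel) rfl (fun _ => by decide)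

lemma ck9 : OK [10, 12, 17, 18, 20, 24, 33, 34, 36, 40, 48, 65, 66, 68, 72, 80, 96] 8 [9, 3] :=
  chk_ok _ 17 _ _ 1 (by decide +kernel) rfl (fun _ => by decide)

lemma ck10 : OK [10, 12, 17, 18, 20, 24, 33, 34, 36, 40, 48, 65, 66, 68, 72, 80, 96] 8 [6, 3] :=
  chk_ok _ 17 _ _ 1 (by decide +kernel) rfl (fun _ => by decide)

lemma ck11 : OK [10, 12, 17, 18, 20, 24, 33, 34, 36, 40, 48, 65, 66, 68, 72, 80, 96] 7 [9, 6, 3] :=
  chk_ok _ 17 _ _ 2 (by decide +kernel) rfl (fun _ => by decide)

lemma ck12 : OK [10, 12, 17, 18, 20, 24, 33, 34, 36, 40, 48, 65, 66, 68, 72, 80, 96] 8 [5, 3] :=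
  chk_ok _ 17 _ _ 1 (by decide +kernel) rfl (fun _ => by decide)

lemma ck13 : OK [10, 12, 17, 18, 20, 24, 33, 34, 36, 40, 48, 65, 66, 68, 72, 80, 96] 7 [9, 5, 3] :=
  chk_ok _ 17 _ _ 3 (by decide +kernel) rfl (fun _ => by decide)

lemma ck14 : OK [10, 12, 17, 18, 20, 24, 33, 34, 36, 40, 48, 65, 66, 68, 72, 80, 96] 7 [6, 5, 3] :=
  chk_ok _ 17 _ _ 3 (by decide +kernel) rfl (fun _ => by decide)

lemma ck15 : OK [10, 12, 17, 18, 20, 24, 33, 34, 36, 40, 48, 65, 66, 68, 72, 80, 96] 6 [9, 6, 5, 3] :=
  chk_ok _ 17 _ _ 5 (by decide +kernel) rfl (fun _ => by decide)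

lemma chk0 : OK pairs 10 [] :=
  (OK_step (OK_step (OK_step (OK_step ck0 ck1) (OK_step ck2 ck3)) (OK_step (OK_step ck4 ck5) (OK_step ck6 ck7))) (OK_step (OK_step (OK_step ck8 ck9) (OK_step ck10 ck11)) (OK_step (OK_step ck12 ck13) (OK_step ck14 ck15))))

lemma f1 : ∀ x < 128, pc x ≤ 1 → 64 ≤ ((range 128).filter (fun y => D y x)).card := by decide +kernel
lemma f2 : ∀ x < 128, 2 ≤ pc x → ((range 128).filter (fun y => D y x)).card ≤ 32 := by decide +kernel
lemma f3 : ∀ x < 128, 3 ≤ pc x → ((range 128).filter (fun y => D y x ∧ 2 ≤ pc y)).card ≤ 11 := by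
  decide +kernel
lemma f4 : ∀ x ∈ pairs.toFinset, x < 128 ∧ x ∉ T ∧ 32 ≤ ((range 128).filter (fun y => D y x)).card ∧
    (T.filter (fun y => ¬ D y x)).card = 83 := by decide +kernel
lemma f5 : ((range 128).filter (fun x => pc x ≤ 1)).card = 8 := by decide +kernel
lemma f6 : pairs.toFinset.card = 21 := by decide +kernel
lemma f7 : ∀ x < 128, pc x = 2 → x ∈ pairs.toFinset := by decide +kernel
lemma f8 : T.card = 99 := by decide +kernel
lemma f9 : fam mA = T ∪ G0.toFinset := by decide +kernel
lemma f10 : G0.toFinset ⊆ pairs.toFinset ∧ G0.toFinset.card = 10 ∧ I D 2 G0.toFinset = 30 := by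
  decide +kernel
lemma f11 : (fam mA).card = 109 ∧ (fam mB).card = 109 := by decide +kernel
lemma f12 : pairs.length = 21 ∧ pairs.Nodup := by decide +kernel

lemma union_formula (G : Finset ℕ) : G ⊆ pairs.toFinset →
    I D 2 (T ∪ G) = I D 2 T + 83 * G.card + I D 2 G := by
  induction G using Finset.induction_on with
  | empty => intro _; simp [I_empty]
  | insert x G hx ih =>
    intro h
    have hxp := f4 x (h (mem_insert_self _ _))
    have hG : G ⊆ pairs.toFinset := (subset_insert _ _).trans h
    have hd : Disjoint (T.filter (fun y => ¬ D y x)) (G.filter (fun y => ¬ D y x)) := by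
      rw [disjoint_left]
      intro z h1 h2
      exact (f4 z (hG (mem_filter.1 h2).1)).2.1 (mem_filter.1 h1).1
    rw [union_insert, I_insert D D_symm 1 (by simp [hx, hxp.2.1]), I_insert D D_symm 1 hx,
      I_one D D_symm, I_one D D_symm, ih hG, filter_union, card_union_of_disjoint hd, hxp.2.2.2,
      card_insert_of_notMem hx]
    ring

theorem core (A : Finset ℕ) (hA : A ⊆ range 128) (hc : A.card = 109)
    (H : ∀ s, ∀ B ⊆ range 128, B.card = 109 → I D s B ≤ I D s A) : False := by
  have hR : (range 128 \ A).card = 19 := by rw [card_sdiff_of_subset hA, hc, card_range]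
  have exch : ∀ x ∈ A, ∀ y < 128, y ∉ A →
      ((range 128).filter (fun z => D z x)).card ≤ (A.filter (fun z => D z y)).card + 20 := by
    intro x hx y hy hyA
    have hy' : y ∉ A.erase x := fun h => hyA (mem_of_mem_erase h)
    have h1 := H 2 (insert y (A.erase x))
      (insert_subset (mem_range.2 hy) ((erase_subset _ _).trans hA))
      (by rw [card_insert_of_notMem hy', card_erase_of_mem hx, hc])
    have h2 : I D 2 A = I D 2 (insert x (A.erase x)) := by rw [insert_erase hx]
    rw [h2, I_insert D D_symm 1 hy', I_insert D D_symm 1 (notMem_erase x A), I_one D D_symm,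
      I_one D D_symm] at h1
    have h3 := card_filter_add_card_filter_not (s := A.erase x) (fun z => D z x)
    have h4 := card_filter_add_card_filter_not (s := A.erase x) (fun z => D z y)
    have h5 : ((A.erase x).filter (fun z => D z y)).card ≤ (A.filter (fun z => D z y)).card :=
      card_le_card (filter_subset_filter _ (erase_subset _ _))
    have h6 : (range 128).filter (fun z => D z x) ⊆
        insert x ((A.erase x).filter (fun z => D z x) ∪ (range 128 \ A)) := by
      intro z hz
      simp only [mem_filter, mem_insert, mem_union, mem_erase, mem_sdiff] at hz ⊢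
      tauto
    have h7 := card_le_card h6
    have h8 := card_insert_le x ((A.erase x).filter (fun z => D z x) ∪ (range 128 \ A))
    have h9 := card_union_le ((A.erase x).filter (fun z => D z x)) (range 128 \ A)
    omega
  have s1 : ∀ x ∈ A, 2 ≤ pc x := by
    intro x hx
    by_contra hlt
    obtain ⟨y, hy, hy2⟩ := exists_mem_notMem_of_card_lt_card
      (s := (range 128).filter (fun x => pc x ≤ 1)) (t := range 128 \ A) (by rw [f5, hR]; norm_num)
    rw [mem_sdiff] at hy
    have hy3 : 2 ≤ pc y := by
      by_contra h; exact hy2 (mem_filter.2 ⟨hy.1, by omega⟩)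
    have a1 := exch x hx y (mem_range.1 hy.1) hy.2
    have a2 := f1 x (mem_range.1 (hA hx)) (by omega)
    have a3 := f2 y (mem_range.1 hy.1) hy3
    have a4 : (A.filter (fun z => D z y)).card ≤ ((range 128).filter (fun z => D z y)).card :=
      card_le_card (filter_subset_filter _ hA)
    omega
  have s2 : T ⊆ A := by
    intro y hy
    by_contra hyA
    simp only [T, mem_filter, mem_range] at hy
    obtain ⟨x, hx, hx2⟩ := exists_mem_notMem_of_card_lt_card
      (s := range 128 \ A) (t := pairs.toFinset) (by rw [f6, hR]; norm_num)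
    have hxp := f4 x hx
    have hxA : x ∈ A := by
      by_contra h; exact hx2 (mem_sdiff.2 ⟨mem_range.2 hxp.1, h⟩)
    have a1 := exch x hxA y hy.1 hyA
    have a3 := f3 y hy.1 hy.2
    have a4 : (A.filter (fun z => D z y)).card ≤
        ((range 128).filter (fun z => D z y ∧ 2 ≤ pc z)).card := by
      apply card_le_card
      intro z hz
      rw [mem_filter] at hz ⊢
      exact ⟨hA hz.1, hz.2, s1 z hz.1⟩
    omega
  have hG : A \ T ⊆ pairs.toFinset := by
    intro z hz
    rw [mem_sdiff] at hz
    have h1 := mem_range.1 (hA hz.1)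
    apply f7 z h1
    have h2 := s1 z hz.1
    have h3 : ¬ 3 ≤ pc z := fun h => hz.2 (mem_filter.2 ⟨mem_range.2 h1, h⟩)
    omega
  have hGc : (A \ T).card = 10 := by rw [card_sdiff_of_subset s2, hc, f8]
  have hAe : A = T ∪ (A \ T) := (union_sdiff_of_subset s2).symm
  have b1 := H 2 (fam mA) (filter_subset _ _) f11.1
  have b2 := union_formula _ hG
  have b3 := union_formula _ f10.1
  rw [← hAe, hGc] at b2
  rw [← f9, f10.2.1, f10.2.2] at b3
  obtain ⟨t, ht, hte⟩ := chk0 f12.2 List.nodup_nil (by simp) (A \ T) hG hGc (by simp only [List.toFinset_nil, empty_union]; omega)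
  simp only [List.toFinset_nil, empty_union] at hte
  have lt : ∀ x ∈ fam mA, x < 128 := fun x hx => mem_range.1 (filter_subset _ _ hx)
  have hAe : A = (fam mA).image (perm t.2) := by
    symm
    apply eq_of_subset_of_card_le
    · intro z hz
      obtain ⟨x, hx, rfl⟩ := mem_image.1 hz
      rw [hAe, hte, mem_union]
      rcases tab1 t ht x (lt x hx) (mem_filter.1 hx).2 with h | h
      · exact Or.inl (mem_filter.2 ⟨mem_range.2 ((tab3 t ht).1 x (lt x hx)).1, h⟩)
      · exact Or.inr (List.mem_toFinset.2 h)
    · rw [card_image_of_injOn (fun x hx y hy e => (tab2 t ht x (lt x hx) y (lt y hy)).1 e), hc, f11.1]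
  have c1 : I D 64 A = I D 64 (fam mA) := by
    rw [hAe]
    apply I_image D D (perm t.2) (fam mA)
    · intro x hx y hy e
      exact (tab2 t ht x (lt x hx) y (lt y hy)).1 e
    · intro x hx y hy
      exact (tab2 t ht x (lt x hx) y (lt y hy)).2
  have c2 := H 64 (fam mB) (filter_subset _ _) f11.2
  have := lt64
  omega

def dec (x : ℕ) : Finset (Fin 7) := univ.filter (fun i => x.testBit i.val = true)

lemma dec1 : ∀ x < 128, ∀ y < 128, (dec x = dec y → x = y) ∧ (Disjoint (dec x) (dec y) ↔ D x y) := by
  intro x hx y hy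
  constructor
  · intro e
    apply eq_of_bits hx hy
    intro i hi
    have := Finset.ext_iff.1 e ⟨i, hi⟩
    simp only [dec, mem_filter, mem_univ, true_and] at this
    exact Bool.eq_iff_iff.2 this
  · rw [D_iff hx, disjoint_left]
    simp only [dec, mem_filter, mem_univ, true_and]
    constructor
    · intro h i hi hh; exact h (a := ⟨i, hi⟩) hh.1 hh.2
    · intro h i h1 h2; exact h i.val i.2 ⟨h1, h2⟩

lemma dec2 : (range 128).image dec = univ := by
  apply eq_univ_of_card
  rw [card_image_of_injOn (fun x hx y hy e => (dec1 x (mem_range.1 hx) y (mem_range.1 hy)).1 e)]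
  simp

theorem result :
    ¬ (∀ n N : ℕ, 2 ^ (n - 1) < N → N ≤ 2 ^ n →
      ∃ A : Finset (Finset (Fin n)), A.card = N ∧
        ∀ s : ℕ, ∀ B : Finset (Finset (Fin n)), B.card = N →
          ((B.powersetCard s).filter
              (fun F => ∀ X ∈ F, ∀ Y ∈ F, X ≠ Y → ¬ Disjoint X Y)).card ≤
          ((A.powersetCard s).filter
              (fun F => ∀ X ∈ F, ∀ Y ∈ F, X ≠ Y → ¬ Disjoint X Y)).card) := by
  intro H
  obtain ⟨A, hA, hmax⟩ := H 7 109 (by norm_num) (by norm_num)
  have inj : ∀ B ⊆ range 128, Set.InjOn dec B := fun B hB x hx y hy e =>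
    (dec1 x (mem_range.1 (hB hx)) y (mem_range.1 (hB hy))).1 e
  have tr : ∀ s, ∀ B ⊆ range 128, I (fun X Y : Finset (Fin 7) => Disjoint X Y) s (B.image dec) = I D s B :=
    fun s B hB => I_image D _ dec B (inj B hB)
      (fun x hx y hy => (dec1 x (mem_range.1 (hB hx)) y (mem_range.1 (hB hy))).2) s
  obtain ⟨A', hA', rfl⟩ := subset_image_iff.1 (show A ⊆ (range 128).image dec by
    rw [dec2]; exact subset_univ A)
  apply core A' hA' (by rw [← hA, card_image_of_injOn (inj A' hA')])
  intro s B hB hBc
  rw [← tr s B hB, ← tr s A' hA']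
  have := hmax s (B.image dec) (by rw [card_image_of_injOn (inj B hB), hBc])
  unfold I
  convert this

end Pool.Agent.S09056
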