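import Pool.Statements.S09060
import Pool.Agent.H.MP_5f1df6_co.A

set_option autoImplicit false
open Pool Pool.MP_5f1df6_co

namespace Pool.Agent.S09060
open Pool.Agent.H.MP_5f1df6_co

theorem result :
    ¬ (∀ (q d : ℕ) [NeZero q] (C : Finset (Fin d → ZMod q)),
      (0 : Fin d → ZMod q) ∉ C →
      (∀ c ∈ C, -c ∈ C) →
      (∃ t : ℝ, ∀ a b : Fin d → ZMod q,
        ‖∑ y : Fin d → ZMod q,
            Complex.exp (-(Complex.I * (t : ℂ) *
              ∑ c ∈ C, Complex.exp (2 * (Real.pi : ℂ) * Complex.I *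
                (((∑ j, c j * y j : ZMod q).val : ℕ) : ℂ) / (q : ℂ)))) *
            Complex.exp (2 * (Real.pi : ℂ) * Complex.I *
              (((∑ j, (a - b) j * y j : ZMod q).val : ℕ) : ℂ) / (q : ℂ))‖ =
        ‖∑ y : Fin d → ZMod q,
            Complex.exp (-(Complex.I * (t : ℂ) *
              ∑ c ∈ C, Complex.exp (2 * (Real.pi : ℂ) * Complex.I *
                (((∑ j, c j * y j : ZMod q).val : ℕ) : ℂ) / (q : ℂ))))‖) →
      ∀ y : Fin d → ZMod q, ∃ k : ℤ,
        ∑ c ∈ C, Complex.exp (2 * (Real.pi : ℂ) * Complex.I *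
          (((∑ j, c j * y j : ZMod q).val : ℕ) : ℂ) / (q : ℂ)) = (k : ℂ)) := by
  intro h
  obtain ⟨k, hk⟩ := h 5 4 C zero_not neg_mem ⟨t0, fun a b => by
    have h1 := flat (a - b)
    have h2 := flat 0
    simp only [u, lam, E_eq, dot] at h1 h2
    simp only [Pi.zero_apply, zero_mul, Finset.sum_const_zero, ZMod.val_zero, Nat.cast_zero, mul_zero,
      zero_div, Complex.exp_zero, mul_one] at h2
    exact h1.trans h2.symm⟩ ![0, 1, 0, 0]
  apply lam_irr k
  simp only [lam, E_eq, dot]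
  exact_mod_cast hk

end Pool.Agent.S09060
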