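import Pool.Statements.S09169
import Pool.Agent.H.MP_62af7b_co.E

set_option autoImplicit false
open Pool Pool.MP_62af7b_co

namespace Pool.Agent.S09169

/-- For every natural m, only finitely many rational polynomials p with p(1)=m arise as p(k)=K_{kλ,kν} for all k≥1, where λ,ν are partitions and K is the Kostka number (count of semistandard tableaux of shape kλ, content kν). -/
theorem result :
    ∀ m : ℕ, Set.Finite {p : Polynomial ℚ | p.eval 1 = (m : ℚ) ∧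
      ∃ lam nu : ℕ → ℕ, Antitone lam ∧ Antitone nu ∧
        (∃ N : ℕ, ∀ i, N ≤ i → lam i = 0 ∧ nu i = 0) ∧
        ∀ k : ℕ, 1 ≤ k → p.eval (k : ℚ) =
          ((Nat.card {T : ℕ × ℕ → ℕ //
              (∀ x : ℕ × ℕ, ¬ (x.2 < k * lam x.1) → T x = 0) ∧
              (∀ i j : ℕ, j + 1 < k * lam i → T (i, j) ≤ T (i, j + 1)) ∧
              (∀ i j : ℕ, j < k * lam (i + 1) → T (i, j) < T (i + 1, j)) ∧
              (∀ c : ℕ, Set.ncard {x : ℕ × ℕ | x.2 < k * lam x.1 ∧ T x = c} = k * nu c)} : ℕ) : ℚ)} := by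
  intro m
  obtain ⟨C, D, hCD⟩ := Pool.Agent.H.MP_62af7b_co.ss_bound m
  refine (Pool.Agent.H.MP_62af7b_co.poly_finite C D).subset ?_
  rintro p ⟨h1, lam, nu, ha, hnu, ⟨N, hN⟩, hp⟩ k hk
  have key : ∀ k : ℕ, 1 ≤ k → p.eval (k : ℚ) =
      ((Pool.Agent.H.MP_62af7b_co.SS (Pool.Agent.H.MP_62af7b_co.sc k lam)
        (Pool.Agent.H.MP_62af7b_co.sc k nu)).ncard : ℚ) := fun k hk => hp k hk
  refine ⟨_, key k hk, hCD lam nu N ha hnu hN ?_ k hk⟩
  have e := key 1 le_rfl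
  rw [Nat.cast_one, h1] at e
  exact_mod_cast e.symm

end Pool.Agent.S09169
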