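import Pool.Statements.S09184
import Pool.Agent.H.MP_633b85_co.Main

set_option autoImplicit false
open Pool Pool.MP_633b85_co

namespace Pool.Agent.S09184

theorem result :
    ¬ (∀ (S : Type) [Fintype S] [DecidableEq S] (M : Matroid (S × Fin 2)),
    M.E = Set.univ →
    (∀ C : Set (S × Fin 2), M.IsCircuit C → ∀ e : S, ¬ ((e, 0) ∈ C ∧ (e, 1) ∈ C)) →
    ∀ w : Finset S → ℝ,
      (∀ X, 0 ≤ w X) →
      (∀ X, w X ≠ 0 →
        M.eRk ((↑X : Set S) ×ˢ (Set.univ : Set (Fin 2))) = ((2 * X.card : ℕ) : ℕ∞)) →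
      (∀ e : S, 1 ≤ ∑ X ∈ Finset.univ.filter (fun X : Finset S => e ∈ X), w X) →
      ∃ (k : ℕ) (c : Fin k → Finset S),
        (∀ i, M.eRk ((↑(c i) : Set S) ×ˢ (Set.univ : Set (Fin 2)))
              = ((2 * (c i).card : ℕ) : ℕ∞)) ∧
        (∀ e : S, ∃ i, e ∈ c i) ∧
        (k : ℝ) ≤ (∑ X, w X) + 1) := by
  intro H
  open Pool.Agent.H.MP_633b85_co in
  exact key (Fin 21) AA 21 11 XX XX_indep (by norm_num) (by norm_num) cover_ok no_two
    (H (Fin 21) (dsum AA) (dsum_E AA fun _ => rfl) (dsum_circ AA))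

end Pool.Agent.S09184
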