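import Pool.Statements.S09202
import Pool.Agent.H.MP_640286_co.B
import Pool.Agent.Lib.helper8.Bnd

set_option autoImplicit false
open Classical
open Pool Pool.MP_640286_co

namespace Pool.Agent.S09202

open Pool.Agent.H.MP_640286_co Pool.Agent.Lib.helper8

def piN (x : ℕ) : ℕ := if x < 2 then 0 else if x < 66 then (x - 2) / 16 + 1 else x - 61

def miss (x y : ℕ) : Bool :=
  decide (2 ≤ x) && decide (x < 66) &&
  ((decide ((x - 2) % 16 < 10) && y == 66 + 10 * ((x - 2) / 16) + (x - 2) % 16) ||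
   (decide (10 ≤ (x - 2) % 16) && decide ((x - 2) % 16 < 12) && y == (x - 2) / 32) ||
   (decide (12 ≤ (x - 2) % 16) && decide (2 ≤ y) && decide (y < 66) && decide (12 ≤ (y - 2) % 16)))

def adjG (x y : ℕ) : Bool := adjH (piN x) (piN y) && !miss x y && !miss y x

def piF (x : Fin 106) : Fin (43+2) := ⟨piN x % 45, Nat.mod_lt _ (by norm_num)⟩

theorem piF_val : ∀ x : Fin 106, (piF x).val = piN x := by decide +kernel

theorem adjG_H {x y : Fin 106} (h : adjG x y = true) : adjH (piF x) (piF y) = true := by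
  rw [piF_val, piF_val]
  simp only [adjG, Bool.and_eq_true] at h
  exact h.1.1

def G : SimpleGraph (Fin 106) where
  Adj x y := adjG x y = true
  symm := ⟨fun x y h => by
    have h1 := adjH_symm _ _ (adjG_H h)
    rw [piF_val, piF_val] at h1
    simp only [adjG, Bool.and_eq_true] at h ⊢
    exact ⟨⟨h1, h.2⟩, h.1.2⟩⟩
  loopless := ⟨fun x h => adjH_irr _ (adjG_H h)⟩

def sz (i : ℕ) : ℕ := sumLt 106 (fun x => if piN x = i then 1 else 0)
def cnt (i j : ℕ) : ℕ := sumLt 106 (fun x => if piN x = i then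
  sumLt 106 (fun y => if piN y = j ∧ adjG x y = true then 1 else 0) else 0)

theorem cnt_ok : allLt 45 (fun i => decide (0 < sz i) && allLt 45 (fun j =>
    !adjH i j || 16 * cnt i j == 15 * (sz i * sz j))) = true := by decide +kernel

theorem card1 (i : Fin (43+2)) : Nat.card {x : Fin 106 // piF x = i} = sz i := by
  rw [Nat.card_eq_fintype_card, Fintype.card_subtype, Finset.card_filter, sz, sumLt_eq,
    ← Fin.sum_univ_eq_sum_range (fun x => if piN x = i then 1 else 0)]
  apply Finset.sum_congr rfl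
  intro x _
  simp only [Fin.ext_iff, piF_val]

theorem card2 (i j : Fin (43+2)) :
    Nat.card {p : Fin 106 × Fin 106 // piF p.1 = i ∧ piF p.2 = j ∧ G.Adj p.1 p.2} = cnt i j := by
  rw [Nat.card_eq_fintype_card, Fintype.card_subtype, Finset.card_filter, cnt, sumLt_eq,
    ← Fin.sum_univ_eq_sum_range (fun x => if piN x = i then
  sumLt 106 (fun y => if piN y = j ∧ adjG x y = true then 1 else 0) else 0),
    Fintype.sum_prod_type]
  apply Finset.sum_congr rfl
  intro x _
  rw [sumLt_eq, ← Fin.sum_univ_eq_sum_range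
    (fun y => if piN y = j ∧ adjG x y = true then 1 else 0)]
  by_cases h : piN x = i
  · rw [if_pos h]
    apply Finset.sum_congr rfl
    intro y _
    simp only [Fin.ext_iff, piF_val, h, true_and, G]
  · rw [if_neg h]
    apply Finset.sum_eq_zero
    intro y _
    rw [if_neg]
    rintro ⟨h1, _⟩
    exact h (by rw [← h1, piF_val])

theorem out_ok : ∀ x : Fin 106, 1 ≤ (piF x).val → (piF x).val ≤ 4 →
    10 ≤ (x.val - 2) % 16 ∨ ∃ w : Fin (43+2), adjH (piF x) w = true ∧
      ∀ y : Fin 106, piF y = w → adjG x y = false := by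
  decide +kernel

theorem tri_ok : ∀ x y : Fin 106, 10 ≤ (x.val - 2) % 16 → 10 ≤ (y.val - 2) % 16 →
    adjG x y = true →
    ((piF x = 1 → piF y = 2 → adjG 0 x = true → adjG 0 y = false) ∧
     (piF x = 3 → piF y = 4 → adjG 1 x = true → adjG 1 y = false)) := by
  decide +kernel

theorem ctr : ∀ x : Fin 106, piF x = 0 → x.val = 0 ∨ x.val = 1 := by decide +kernel

theorem no_tr : ¬ ∃ a : Fin (43+2) → Fin 106, (∀ i, piF (a i) = i) ∧
    ∀ i j, H.Adj i j → G.Adj (a i) (a j) := by
  rintro ⟨a, h1, h2⟩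
  have o : ∀ i : Fin (43+2), 1 ≤ i.val → i.val ≤ 4 → 10 ≤ ((a i).val - 2) % 16 := by
    intro i p q
    rcases out_ok (a i) (by rw [h1]; exact p) (by rw [h1]; exact q) with h | ⟨w, e1, e2⟩
    · exact h
    · rw [h1] at e1
      have e3 : adjG (a i) (a w) = true := h2 i w e1
      rw [e2 (a w) (h1 w)] at e3
      exact absurd e3 (by decide)
  rcases ctr (a 0) (h1 0) with e | e
  · have e1 : adjG (a 0) (a 1) = true := h2 0 1 (show adjH _ _ = true by decide)
    have e2 : adjG (a 0) (a 2) = true := h2 0 2 (show adjH _ _ = true by decide)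
    rw [e] at e1 e2
    have := (tri_ok (a 1) (a 2) (o 1 (by decide) (by decide)) (o 2 (by decide) (by decide))
      (h2 1 2 (show adjH _ _ = true by decide))).1 (h1 1) (h1 2) e1
    rw [this] at e2
    exact absurd e2 (by decide)
  · have e1 : adjG (a 0) (a 3) = true := h2 0 3 (show adjH _ _ = true by decide)
    have e2 : adjG (a 0) (a 4) = true := h2 0 4 (show adjH _ _ = true by decide)
    rw [e] at e1 e2
    have := (tri_ok (a 3) (a 4) (o 3 (by decide) (by decide)) (o 4 (by decide) (by decide))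
      (h2 3 4 (show adjH _ _ = true by decide))).2 (h1 3) (h1 4) e1
    rw [this] at e2
    exact absurd e2 (by decide)

theorem result :
    ¬ (∀ n : ℕ, ∀ H : SimpleGraph (Fin (n+2)), H.Connected →
    ∃ B : ℝ,
      B = sSup {β : ℝ | ∃ f : Equiv.Perm (Fin (n+2)),
        (∀ k : Fin (n+2), (H.induce {v | f.symm v ≤ k}).Connected) ∧
        ∃ P : Finset (Finset (Fin (n+2))),
          P = Finset.univ.filter (fun S : Finset (Fin (n+2)) => (0 : Fin (n+2)) ∈ S ∧
                ∀ a ∈ S, ∀ b ∈ S, a < b → (∀ c ∈ S, ¬ (a < c ∧ c < b)) → H.Adj (f a) (f b)) ∧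
          β = 1 - ((sSup {q : ℝ | ∃ x : Finset (Fin (n+2)) → ℝ,
                (∑ S ∈ P, x S ^ 2) = 1 ∧
                q = ∑ S ∈ P, ∑ T ∈ P,
                  (if ((∃ m : Fin (n+2), m ∉ S ∧ (∀ a ∈ S, a < m) ∧ T = insert m S) ∨
                       (∃ m : Fin (n+2), m ∉ T ∧ (∀ a ∈ T, a < m) ∧ S = insert m T))
                   then x S * x T else 0)}) ^ 2)⁻¹} ∧
      (∀ m : ℕ, ∀ π : Fin m → Fin (n+2), ∀ G : SimpleGraph (Fin m),
        Function.Surjective π →
        (∀ x y, G.Adj x y → H.Adj (π x) (π y)) →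
        (∀ i j, H.Adj i j →
          B < (Nat.card {p : Fin m × Fin m // π p.1 = i ∧ π p.2 = j ∧ G.Adj p.1 p.2} : ℝ) /
            ((Nat.card {x : Fin m // π x = i} : ℝ) * (Nat.card {x : Fin m // π x = j} : ℝ))) →
        ∃ a : Fin (n+2) → Fin m, (∀ i, π (a i) = i) ∧ ∀ i j, H.Adj i j → G.Adj (a i) (a j)) ∧
      (∀ d : ℝ, d < B →
        ∃ m : ℕ, ∃ π : Fin m → Fin (n+2), ∃ G : SimpleGraph (Fin m),
          Function.Surjective π ∧
          (∀ x y, G.Adj x y → H.Adj (π x) (π y)) ∧
          (∀ i j, H.Adj i j →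
            d < (Nat.card {p : Fin m × Fin m // π p.1 = i ∧ π p.2 = j ∧ G.Adj p.1 p.2} : ℝ) /
              ((Nat.card {x : Fin m // π x = i} : ℝ) * (Nat.card {x : Fin m // π x = j} : ℝ))) ∧
          ¬ ∃ a : Fin (n+2) → Fin m, (∀ i, π (a i) = i) ∧ ∀ i j, H.Adj i j → G.Adj (a i) (a j))) := by
  intro h
  obtain ⟨B, hB, h2, -⟩ := h 43 H H_conn
  have hle : B ≤ 1 - ((3999 / 1000 : ℝ) ^ 2)⁻¹ := by
    rw [hB]
    apply Real.sSup_le _ (by norm_num)
    rintro β ⟨f, -, P, hP, rfl⟩
    have e : P = PP (fun a b => H.Adj (f a) (f b)) := by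
      rw [hP]; unfold PP; congr
    rw [e]
    have := beta_H f
    unfold C at this
    convert this
  have hs : ∀ i : Fin (43+2), ∃ x : Fin 106, piF x = i := by decide +kernel
  apply no_tr
  apply h2 106 piF G hs (fun x y h => adjG_H h)
  intro i j hij
  rw [card1, card1, card2]
  have c := (allLt_iff _ _).mp cnt_ok
  have ci := c i i.isLt
  have cj := c j j.isLt
  simp only [Bool.and_eq_true, decide_eq_true_eq] at ci cj
  have cij := (allLt_iff _ _).mp ci.2 j j.isLt
  have hij' : adjH i j = true := hij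
  simp only [hij', Bool.not_true, Bool.false_or, beq_iff_eq] at cij
  have p1 : (0 : ℝ) < sz i := by exact_mod_cast ci.1
  have p2 : (0 : ℝ) < sz j := by exact_mod_cast cj.1
  have p3 : (16 : ℝ) * cnt i j = 15 * (sz i * sz j) := by exact_mod_cast cij
  rw [lt_div_iff₀ (mul_pos p1 p2)]
  have p4 : B < 15 / 16 := lt_of_le_of_lt hle (by norm_num)
  have := mul_lt_mul_of_pos_right p4 (mul_pos p1 p2)
  linarith

end Pool.Agent.S09202
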