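import Pool.Statements.S09234
-- import your own Pool.Agent.* helpers here

set_option autoImplicit false
open Pool Pool.MP_65fa9f_co

namespace Pool.Agent.S09234

def A : List Nat := [65534, 987133, 1536507, 1816183, 1956527, 2026783, 15, 23, 39, 27, 43, 51, 29, 45, 53, 57, 30, 46, 54, 58, 60]

def adj (u v : Fin 21) : Bool := (A.getD u.val 0).testBit v.val

def G : SimpleGraph (Fin 21) where
  Adj u v := adj u v = true
  symm := ⟨by decide +kernel⟩
  loopless := ⟨by decide +kernel⟩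

def R : List Nat := [7926583077836136268, 321557270283996285, 6588123433223247289, 2365366404795876059, 3934472483866785441, 8790920890117157863, 4441901553017037784, 4677993405313541088, 3533898221708731160, 5597008988309246946, 4443378831404127006, 2372069580661543696, 323210797963961330, 467467138965578480, 1317824800673313073, 382760931712867122, 7907419129849999930, 4504424192251724570, 3411441601977201410, 5702949453515936298, 7223992064893485874]

def col (a b : Fin 21) : Fin 8 := ⟨(R.getD a.val 0 >>> (3 * b.val)) % 8, Nat.mod_lt _ (by decide)⟩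

theorem dom : ∀ (i : Fin 8) (a b : Fin 21), col a b = i ∨
    (∃ u, adj a u = true ∧ col u b = i) ∨ (∃ w, adj b w = true ∧ col a w = i) := by
  decide +kernel

def two (a b c d : Fin 4) : Bool :=
  let m := (1 <<< a.val) ||| (1 <<< b.val) ||| (1 <<< c.val) ||| (1 <<< d.val)
  (0x177f : Nat).testBit m

theorem two_spec : ∀ a b c d : Fin 4, two a b c d = true → ∀ z : Fin 4, ∃ i : Fin 4,
    z ≠ i ∧ a ≠ i ∧ b ≠ i ∧ c ≠ i ∧ d ≠ i := by decide +kernel

theorem key : ∀ c0 c1 c2 c3 c4 c5 : Fin 4,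
    (two c0 c1 c2 c3 || two c0 c1 c2 c4 || two c0 c1 c2 c5 || two c0 c1 c3 c4 || two c0 c1 c3 c5 || two c0 c1 c4 c5 || two c0 c2 c3 c4 || two c0 c2 c3 c5 || two c0 c2 c4 c5 || two c0 c3 c4 c5 || two c1 c2 c3 c4 || two c1 c2 c3 c5 || two c1 c2 c4 c5 || two c1 c3 c4 c5 || two c2 c3 c4 c5) = true := by
  decide +kernel

theorem no4 (g : Fin 21 → Fin 4) (h : ∀ (i : Fin 4) (v : Fin 21), g v = i ∨ ∃ u, G.Adj v u ∧ g u = i) :
    False := by
  have aux : ∀ v a b c d : Fin 21, (∀ u, adj v u = true → u = a ∨ u = b ∨ u = c ∨ u = d) →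
      two (g a) (g b) (g c) (g d) = true → False := by
    intro v a b c d hv ht
    obtain ⟨i, h0, h1, h2, h3, h4⟩ := two_spec _ _ _ _ ht (g v)
    rcases h i v with h5 | ⟨u, hu, h5⟩
    · exact h0 h5
    · rcases hv u hu with rfl | rfl | rfl | rfl
      · exact h1 h5
      · exact h2 h5
      · exact h3 h5
      · exact h4 h5
  have hk := key (g 0) (g 1) (g 2) (g 3) (g 4) (g 5)
  simp only [Bool.or_eq_true] at hk
  rcases hk with ((((((((((((((hk | hk) | hk) | hk) | hk) | hk) | hk) | hk) | hk) | hk) | hk) | hk) | hk) | hk) | hk)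
  · exact aux 6 0 1 2 3 (by decide +kernel) hk
  · exact aux 7 0 1 2 4 (by decide +kernel) hk
  · exact aux 8 0 1 2 5 (by decide +kernel) hk
  · exact aux 9 0 1 3 4 (by decide +kernel) hk
  · exact aux 10 0 1 3 5 (by decide +kernel) hk
  · exact aux 11 0 1 4 5 (by decide +kernel) hk
  · exact aux 12 0 2 3 4 (by decide +kernel) hk
  · exact aux 13 0 2 3 5 (by decide +kernel) hk
  · exact aux 14 0 2 4 5 (by decide +kernel) hk
  · exact aux 15 0 3 4 5 (by decide +kernel) hk
  · exact aux 16 1 2 3 4 (by decide +kernel) hk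
  · exact aux 17 1 2 3 5 (by decide +kernel) hk
  · exact aux 18 1 2 4 5 (by decide +kernel) hk
  · exact aux 19 1 3 4 5 (by decide +kernel) hk
  · exact aux 20 2 3 4 5 (by decide +kernel) hk

theorem small (j : ℕ) (g : Fin 21 → Fin j)
    (h : ∀ (i : Fin j) (v : Fin 21), g v = i ∨ ∃ u, G.Adj v u ∧ g u = i) : j ≤ 3 := by
  by_contra hj
  apply no4 (fun v => ⟨min (g v).val 3, by omega⟩)
  intro i v
  have hi := i.isLt
  rcases h ⟨i.val, by omega⟩ v with h1 | ⟨u, huv, h1⟩
  · left; apply Fin.ext; simp only [h1]; omega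
  · right; refine ⟨u, huv, ?_⟩; apply Fin.ext; simp only [h1]; omega

theorem result :
    ¬ (∀ (V W : Type) [Fintype V] [Fintype W] (G : SimpleGraph V) (H : SimpleGraph W),
      (∀ v, ∃ u, G.Adj v u) → (∀ w, ∃ x, H.Adj w x) →
      ∀ k : ℕ,
        (∃ f : V × W → Fin k, ∀ (i : Fin k) (p : V × W),
            f p = i ∨ ∃ q, (G.boxProd H).Adj p q ∧ f q = i) →
        ∃ j : ℕ,
          ((∃ g : V → Fin j, ∀ (i : Fin j) (v : V), g v = i ∨ ∃ u, G.Adj v u ∧ g u = i) ∨
           (∃ h : W → Fin j, ∀ (i : Fin j) (w : W), h w = i ∨ ∃ x, H.Adj w x ∧ h x = i)) ∧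
          k ≤ 2 * j + 1) := by
  intro H
  have hiso : ∀ v, ∃ u, G.Adj v u := by
    show ∀ v, ∃ u, adj v u = true
    decide +kernel
  obtain ⟨j, hj, hk⟩ := H (Fin 21) (Fin 21) G G hiso hiso 8 ⟨fun p => col p.1 p.2, by
    rintro i ⟨a, b⟩
    rcases dom i a b with h | ⟨u, hu, h⟩ | ⟨w, hw, h⟩
    · exact Or.inl h
    · exact Or.inr ⟨(u, b), SimpleGraph.boxProd_adj.2 (Or.inl ⟨hu, rfl⟩), h⟩
    · exact Or.inr ⟨(a, w), SimpleGraph.boxProd_adj.2 (Or.inr ⟨hw, rfl⟩), h⟩⟩
  have : j ≤ 3 := by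
    rcases hj with ⟨g, hg⟩ | ⟨g, hg⟩
    · exact small j g hg
    · exact small j g hg
  omega

end Pool.Agent.S09234
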