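import Pool.Statements.S09237
import Pool.Agent.H.MP_661cb5_co.A

set_option autoImplicit false
open Pool Pool.MP_661cb5_co
open Pool.Agent.H.MP_661cb5_co Filter

namespace Pool.Agent.S09237

theorem result :
    ∀ (r : ℕ) (c : ℕ → Fin r), ∃ y : ℕ → ℕ, (∀ n, 0 < y n) ∧ ∃ col : Fin r,
      ∀ k : ℕ, 1 ≤ k → ∀ a : ℕ → ℕ, (∀ i, a i = 1 ∨ a i = 2) → a 0 = 1 → a (k - 1) = 1 →
        c (∑ i ∈ Finset.range k, a i * y i) = col := by
  intro r c
  obtain ⟨w, h0, h1, h2, h3⟩ := exists_omega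
  obtain ⟨col, hcol⟩ := ((F 1 0 w).map fun z => c z.toNat).eq_pure_of_finite
  have hC : ∀ᶠ z in (F 1 0 w : Filter ℤ), c (0 + z).toNat = col := by
    have : {col} ∈ (F 1 0 w).map fun z => c z.toNat := by rw [hcol]; simp
    filter_upwards [this] with z hz
    simpa using hz
  obtain ⟨y, hy, h⟩ := exists_seq (fun z => c z.toNat = col) _ _ hC
    (exists_step (fun z => c z.toNat = col) w _ _ (fun _ => Iff.rfl) (fun _ => Iff.rfl)
      h0 h1 h2 h3)
  refine ⟨fun n => (y n).toNat, fun n => by have := hy n; simp only; omega, col, ?_⟩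
  intro k hk a ha ha0 hak
  obtain ⟨k, rfl⟩ : ∃ j, k = j + 1 := ⟨k - 1, by omega⟩
  have := h k (fun i => a i) (fun i => by rcases ha i with h | h <;> simp [h]) (by simp [ha0])
    (by simpa using hak)
  rw [← this]
  congr 1
  have e : ∑ i ∈ Finset.range (k + 1), (a i : ℤ) * y i
      = ((∑ i ∈ Finset.range (k + 1), a i * (y i).toNat : ℕ) : ℤ) := by
    push_cast
    exact Finset.sum_congr rfl fun i _ => by rw [Int.toNat_of_nonneg (hy i).le]
  rw [e, Int.toNat_natCast]

end Pool.Agent.S09237
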