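import Pool.Statements.S09302
import Pool.Agent.H.MP_6a070e_co.A

set_option autoImplicit false
open Pool Pool.MP_6a070e_co

namespace Pool.Agent.S09302

theorem result :
    ¬ (∀ (α : Type) [Fintype α] (M : Matroid α),
      M.E.Nonempty →
      (∀ C K : Set α, M.IsCircuit C → M.IsCocircuit K → Even (C ∩ K).ncard) →
      (∀ e ∈ M.E, ∀ f ∈ M.E, e ≠ f → ∃ C : Set α, M.IsCircuit C ∧ e ∈ C ∧ f ∈ C) →
      (∀ K : Set α, M.IsCocircuit K → 5 ≤ K.ncard) →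
      ∃ D : Set α, M.IsCircuit D ∧
        ∀ e ∈ (M.delete D).E, ∀ f ∈ (M.delete D).E, e ≠ f →
          ∃ C : Set α, (M.delete D).IsCircuit C ∧ e ∈ C ∧ f ∈ C) := by
  intro h
  open Pool.Agent.H.MP_6a070e_co in
  have hc : ∀ C, (vecM (k := ZMod 2) φ).dual.IsCircuit C ↔ ∃ f, f ≠ 0 ∧ C = D φ f :=
    fun C => cocirc φ inter C
  open Pool.Agent.H.MP_6a070e_co in
  obtain ⟨X, hX, h2⟩ := h (Fin 31) (vecM (k := ZMod 2) φ).dual ⟨0, trivial⟩
    (fun C K hC hK => by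
      obtain ⟨f, -, rfl⟩ := (hc C).1 hC
      exact even φ (Matroid.dual_isCocircuit_iff.1 hK) f)
    (fun e _ e' _ _ => by
      obtain ⟨f, h0, h1, h2⟩ := pair e e'
      exact ⟨_, (hc _).2 ⟨f, h0, rfl⟩, h1, h2⟩)
    (fun K hK => by
      obtain ⟨T, rfl, h1, h2⟩ := circ φ (Matroid.dual_isCocircuit_iff.1 hK)
      rw [Set.ncard_coe_finset]
      exact five T h1 h2)
  obtain ⟨f, hf, rfl⟩ := (hc X).1 hX
  open Pool.Agent.H.MP_6a070e_co in
  have h3 : 1 < (D φ f)ᶜ.ncard := by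
    have h4 := Set.ncard_add_ncard_compl (D φ f)
    have h5 := (wt f hf).2
    rw [Nat.card_eq_fintype_card, Fintype.card_fin] at h4
    omega
  obtain ⟨e, e', he, he', hne⟩ := (Set.one_lt_ncard_iff (Set.toFinite _)).1 h3
  obtain ⟨C, hC, -⟩ := h2 e ⟨trivial, he⟩ e' ⟨trivial, he'⟩ hne
  obtain ⟨hC, hd⟩ := Matroid.delete_isCircuit_iff.1 hC
  obtain ⟨g, hg, rfl⟩ := (hc C).1 hC
  exact (Set.not_disjoint_iff_nonempty_inter.2 (Pool.Agent.H.MP_6a070e_co.inter g f hg hf)) hd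

end Pool.Agent.S09302
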