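import Pool.Statements.S09318

set_option autoImplicit false
open Pool Pool.MP_6b5009_co

namespace Pool.Agent.S09318

open Finset

def NB (v : ℕ) : ℕ := [23610, 14453, 28906, 25045, 17323, 1879, 3758, 7516, 15032, 30064, 27361,
  21955, 11143, 22286, 11805].getD v 0

def G : SimpleGraph (Fin 15) where
  Adj u v := (NB u).testBit v = true
  symm := ⟨by decide +kernel⟩
  loopless := ⟨by decide +kernel⟩

instance : DecidableRel G.Adj := fun u v => inferInstanceAs (Decidable ((NB u).testBit v = true))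

lemma four : ∀ a b : Fin 15, a ≠ b → ¬ G.Adj a b → ∀ c : Fin 15, a ≠ c → b ≠ c → ¬ G.Adj a c →
    ¬ G.Adj b c → ∀ d : Fin 15, a ≠ d → b ≠ d → c ≠ d → G.Adj a d ∨ G.Adj b d ∨ G.Adj c d := by
  decide +kernel

lemma ind_le (s : Finset (Fin 15)) (h : G.IsIndepSet (s : Set (Fin 15))) : s.card ≤ 3 := by
  by_contra hc
  obtain ⟨a, b, c, d, ha, hb, hc, hd, h1, h2, h3, h4, h5, h6⟩ := three_lt_card_iff.1 (not_le.1 hc)
  rcases four a b h1 (h ha hb h1) c h2 h4 (h ha hc h2) (h hb hc h4) d h3 h5 h6 with e | e | e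
  · exact h ha hd h3 e
  · exact h hb hd h5 e
  · exact h hc hd h6 e

lemma alpha : G.indepNum = 3 := by
  apply le_antisymm
  · obtain ⟨s, hs⟩ := G.exists_isNIndepSet_indepNum
    rw [← hs.card_eq]; exact ind_le s hs.isIndepSet
  · have : G.IsIndepSet (({0, 2, 8} : Finset (Fin 15)) : Set (Fin 15)) := by
      intro a ha b hb _
      revert a b
      decide +kernel
    exact this.card_le_indepNum

lemma count (m : ℕ) (f : Fin 15 → Finset (Fin m)) (h1 : ∀ v, (f v).card = 2)
    (h2 : ∀ u v, G.Adj u v → Disjoint (f u) (f v)) :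
    (∀ c, (univ.filter (fun v => c ∈ f v)).card ≤ 3) ∧
      ∑ c, (univ.filter (fun v => c ∈ f v)).card = 30 := by
  constructor
  · intro c
    apply ind_le
    intro a ha b hb _ hadj
    simp only [coe_filter, mem_univ, true_and, Set.mem_ofPred_eq] at ha hb
    exact disjoint_left.1 (h2 a b hadj) ha hb
  · simp only [card_filter]
    rw [sum_comm]
    simp only [← card_filter, filter_mem_eq_inter, univ_inter, h1]
    simp

noncomputable def go (i : ℕ) : ℕ → Bool :=
  Nat.rec (fun _ => false) (fun i r M => (List.range 5).all (fun k =>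
    !(Nat.beq (Nat.land (Nat.shiftRight M (15 * k)) (NB i)) 0) || r (Nat.lor M (2 ^ (15 * k + i))))) i

lemma go_ok : go 15 0 = true := by decide +kernel

lemma NB_lt : ∀ i : Fin 15, NB i < 2 ^ 15 := by decide +kernel

lemma go_sound (c : Fin 15 → Fin 5) (hc : ∀ u v, G.Adj u v → c u ≠ c v) :
    ∀ i ≤ 15, ∀ M, (∀ (k : ℕ) (v : Fin 15), M.testBit (15 * k + v) = true → (c v : ℕ) = k) →
      go i M = false := by
  intro i
  induction i with
  | zero => intro _ M _; rfl
  | succ i ih =>
    intro hi M hM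
    let v : Fin 15 := ⟨i, hi⟩
    by_contra h
    have h' : (List.range 5).all (fun k =>
      !(Nat.beq (Nat.land (Nat.shiftRight M (15 * k)) (NB i)) 0) ||
        go i (Nat.lor M (2 ^ (15 * k + i)))) = true := eq_true_of_ne_false h
    have h2 := List.all_eq_true.1 h' (c v) (List.mem_range.2 (c v).isLt)
    rw [Bool.or_eq_true] at h2
    rcases h2 with h2 | h2
    · have h3 : (M >>> (15 * (c v : ℕ))) &&& NB i ≠ 0 := by
        intro e
        have : Nat.beq (Nat.land (Nat.shiftRight M (15 * (c v : ℕ))) (NB i)) 0 = true :=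
          (congrArg (fun x => Nat.beq x 0) e).trans rfl
        rw [this] at h2
        exact Bool.false_ne_true h2
      obtain ⟨j, hj⟩ := Nat.exists_testBit_of_ne_zero h3
      rw [Nat.testBit_and, Bool.and_eq_true, Nat.testBit_shiftRight] at hj
      have hj15 : j < 15 := by
        by_contra hh
        have := Nat.testBit_lt_two_pow (lt_of_lt_of_le (NB_lt v)
          (Nat.pow_le_pow_right (by norm_num) (not_lt.1 hh)))
        exact Bool.false_ne_true (this.symm.trans hj.2)
      exact hc v ⟨j, hj15⟩ hj.2 (Fin.ext (hM _ ⟨j, hj15⟩ hj.1).symm)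
    · have := ih (by omega) (Nat.lor M (2 ^ (15 * (c v : ℕ) + i))) (fun k w hw => by
        have hw' : (M ||| 2 ^ (15 * (c v : ℕ) + i)).testBit (15 * k + w) = true := hw
        rw [Nat.testBit_or, Bool.or_eq_true, Nat.testBit_two_pow] at hw'
        rcases hw' with h4 | h4
        · exact hM k w h4
        · have h5 := of_decide_eq_true h4
          have := w.isLt
          have e : w = v := Fin.ext (by show (w : ℕ) = i; omega)
          subst e
          omega)
      exact Bool.false_ne_true (this.symm.trans h2)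

lemma notcol : ¬ G.Colorable 5 := by
  rintro ⟨C⟩
  have := go_sound C (fun u v h => C.valid h) 15 le_rfl 0 (by simp)
  exact Bool.false_ne_true (this.symm.trans go_ok)

theorem result :
    ¬ (∀ (n : ℕ) (G : SimpleGraph (Fin n)) (k : ℕ), 1 ≤ k →
      (∀ f : Fin n → Finset (Fin (sInf {m : ℕ | ∃ g : Fin n → Finset (Fin m),
            (∀ v, (g v).card = k) ∧ ∀ u v, G.Adj u v → Disjoint (g u) (g v)})),
          (∀ v, (f v).card = k) →
          (∀ u v, G.Adj u v → Disjoint (f u) (f v)) →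
          ∀ c, (Finset.univ.filter (fun v => c ∈ f v)).card = G.indepNum) →
      ((sInf {m : ℕ | ∃ g : Fin n → Finset (Fin m),
            (∀ v, (g v).card = k + 1) ∧ ∀ u v, G.Adj u v → Disjoint (g u) (g v)} : ℕ) : ℕ∞)
        = ((sInf {m : ℕ | ∃ g : Fin n → Finset (Fin m),
            (∀ v, (g v).card = k) ∧ ∀ u v, G.Adj u v → Disjoint (g u) (g v)} : ℕ) : ℕ∞)
          + G.chromaticNumber) := by
  intro H
  have m10 : 10 ∈ {m : ℕ | ∃ g : Fin 15 → Finset (Fin m),
      (∀ v, (g v).card = 2) ∧ ∀ u v, G.Adj u v → Disjoint (g u) (g v)} :=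
    ⟨![{0, 9}, {1, 5}, {0, 2}, {1, 3}, {2, 6}, {3, 7}, {4, 8}, {5, 9}, {0, 4}, {1, 5}, {2, 6}, {3, 7},
      {6, 8}, {7, 9}, {4, 8}], by decide +kernel, by decide +kernel⟩
  have m15 : 15 ∈ {m : ℕ | ∃ g : Fin 15 → Finset (Fin m),
      (∀ v, (g v).card = 2 + 1) ∧ ∀ u v, G.Adj u v → Disjoint (g u) (g v)} :=
    ⟨fun v => {v, v + 2, v + 8}, by decide +kernel, by decide +kernel⟩
  have e10 : sInf {m : ℕ | ∃ g : Fin 15 → Finset (Fin m),
      (∀ v, (g v).card = 2) ∧ ∀ u v, G.Adj u v → Disjoint (g u) (g v)} = 10 := by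
    apply le_antisymm (Nat.sInf_le m10)
    apply le_csInf ⟨10, m10⟩
    rintro m ⟨f, h1, h2⟩
    obtain ⟨a, b⟩ := count m f h1 h2
    have := sum_le_card_nsmul univ _ 3 (fun c _ => a c)
    simp at this
    omega
  have h := H 15 G 2 (by norm_num) (by
    rw [e10, alpha]
    intro f h1 h2 c
    obtain ⟨a, b⟩ := count 10 f h1 h2
    have := (sum_eq_sum_iff_of_le (s := univ) (g := fun _ => 3) (fun c _ => a c)).1 (by simpa using b)
    exact this c (mem_univ _))
  rw [e10] at h
  have h15 := Nat.sInf_le m15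
  apply notcol
  rw [← SimpleGraph.chromaticNumber_le_iff_colorable]
  have h3 : ((10 : ℕ) : ℕ∞) + G.chromaticNumber ≤ ((10 : ℕ) : ℕ∞) + ((5 : ℕ) : ℕ∞) := by
    rw [← h]; exact_mod_cast h15
  exact (ENat.add_le_add_iff_left (by simp)).1 h3

end Pool.Agent.S09318
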