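import Pool.Statements.S09386
import Pool.Agent.H.MP_6e559c_co.A

set_option autoImplicit false
open Pool Pool.MP_6e559c_co

namespace Pool.Agent.S09386

/-- The negation of the preceding statement: For any sequence of finite real-representable matroids, none having a minor isomorphic to U_{3,6}, some two distinct indices i ≠ j have the i-th matroid isomorphic to a minor of the j-th. Equivalently, this class has no infinite antichain under minors. -/
theorem result :
    ¬ (∀ M : ℕ → Matroid ℕ,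
      (∀ i, (M i).E.Finite ∧
        (∃ n : ℕ, ∃ v : ℕ → (Fin n → ℝ),
          ∀ I : Set ℕ, I ⊆ (M i).E → ((M i).Indep I ↔ LinearIndepOn ℝ v I)) ∧
        ¬ (∃ N : Matroid ℕ, N.IsMinor (M i) ∧ N.E.encard = 6 ∧
            ∀ I : Set ℕ, N.Indep I ↔ (I ⊆ N.E ∧ I.encard ≤ 3))) →
      ∃ i j : ℕ, i ≠ j ∧
        ∃ f : ℕ → ℕ, ∃ hf : Set.InjOn f (M i).E, ((M i).map f hf).IsMinor (M j)) := by
  intro h
  choose M hE hM using fun i : ℕ =>
    Pool.Agent.H.MP_5d01ce_co.vm ℝ (H.MP_6e559c_co.x (i + 4)) (Set.finite_Iio (3 * (i + 4)))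
  have hfin : ∀ i, (M i).E.Finite := fun i => hE i ▸ Set.finite_Iio _
  obtain ⟨i, j, hij, f, hf, hm⟩ := h M fun i => ⟨hfin i, H.MP_6e559c_co.Rp.fin (hM i) (hfin i),
    fun ⟨N, h1, h2, h3⟩ => H.MP_6e559c_co.no36 (hM i) h1 h2 h3⟩
  have hs := hm.subset
  obtain ⟨C, D, hC, -, -, he⟩ := hm.exists_eq_contract_delete_disjoint
  have r1 := (hM j).minor hC D _ (Submodule.ker_mkQ _)
  rw [← he] at r1
  have := H.MP_6e559c_co.anti (n := i + 4) (m := j + 4) (C := C) (f := f) (by omega) (hE i ▸ hf)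
    (fun e h => by
      have := hs (Set.mem_image_of_mem f (show e ∈ (M i).E from hE i ▸ h))
      rwa [hE] at this) (hE i) (hM i) fun I hI => by
      rw [← Matroid.map_image_indep_iff (hf := hf) hI, r1 _ (Set.image_mono hI)]
      exact ⟨fun h => h.comp_of_image (hf.mono hI), LinearIndepOn.image_of_comp _ _⟩
  omega

end Pool.Agent.S09386
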