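import Pool.Statements.S09396
import Pool.Agent.H.MP_6f0325_co.Fin

set_option autoImplicit false
open Classical
open Pool Pool.MP_6f0325_co

namespace Pool.Agent.S09396

/-- The negation of the preceding statement: For all positive n, r and every N, the N-variable chromatic symmetric function of the incomparability graph of the product of r n-element chains, times the Vandermonde, has nonnegative coefficients on strictly decreasing exponents, i.e. is Schur positive. -/
theorem result :
    ¬ (∀ n r N : ℕ, 0 < n → 0 < r →
      ∀ α : Fin N →₀ ℕ, StrictAnti (⇑α) →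
        0 ≤ MvPolynomial.coeff α
          ((∑ c ∈ (Finset.univ : Finset ((Fin r → Fin n) → Fin N)).filter
                (fun c => ∀ u v : Fin r → Fin n, ¬ u ≤ v → ¬ v ≤ u → c u ≠ c v),
              ∏ v : Fin r → Fin n, (MvPolynomial.X (c v) : MvPolynomial (Fin N) ℤ)) *
            ∏ p ∈ (Finset.univ : Finset (Fin N × Fin N)).filter (fun p => p.1 < p.2),
              (MvPolynomial.X p.1 - MvPolynomial.X p.2 : MvPolynomial (Fin N) ℤ))) := by
  intro h
  have h1 := h 13 2 14 (by norm_num) (by norm_num)
    (Finsupp.equivFunOnFinite.symm fun i : Fin 14 => H.MP_6f0325_co.alN i)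
    (by
      show StrictAnti fun i : Fin 14 => H.MP_6f0325_co.alN i
      decide +kernel)
  rw [H.MP_6f0325_co.coeff_eq] at h1
  obtain ⟨K, hK, h2⟩ := H.MP_6f0325_co.main_red
  rw [Finset.filter_congr fun c _ => H.MP_6f0325_co.pr_iff c] at h1
  have h3 := mul_neg_of_pos_of_neg (Int.natCast_pos.2 hK) H.MP_6f0325_co.neg
  rw [← h2] at h3
  exact absurd h1 (not_le.2 h3)

end Pool.Agent.S09396
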