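import Pool.Statements.S09498
import Pool.Agent.H.MP_2a19ed_co.F

set_option autoImplicit false
open scoped Pointwise
open Pool Pool.MP_73fc50_co

namespace Pool.Agent.S09498

theorem result :
    ¬ (∃ d₀ : ℕ, ∀ d : ℕ, d₀ ≤ d →
    IsMeagre {C : {K : ConvexBody (Fin d → ℝ) //
        (∀ x ∈ (K : Set (Fin d → ℝ)), -x ∈ (K : Set (Fin d → ℝ))) ∧
        (interior (K : Set (Fin d → ℝ))).Nonempty} |
      ∃ A : Matrix (Fin d) (Fin d) ℝ,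
        A.det ≠ 0 ∧
        (∀ z : Fin d → ℤ, z ≠ 0 →
          A.mulVec (fun i => (z i : ℝ)) ∉ interior ((2:ℝ) • (C.1 : Set (Fin d → ℝ)))) ∧
        (∃ ε : ℝ, 0 < ε ∧ ∀ B : Matrix (Fin d) (Fin d) ℝ,
          (∀ i j, |B i j - A i j| < ε) → B.det ≠ 0 →
          (∀ z : Fin d → ℤ, z ≠ 0 →
            B.mulVec (fun i => (z i : ℝ)) ∉ interior ((2:ℝ) • (C.1 : Set (Fin d → ℝ)))) →
          |A.det| ≤ |B.det|) ∧
        Set.ncard {v : Fin d → ℝ | v ≠ 0 ∧ v ∈ (2:ℝ) • (C.1 : Set (Fin d → ℝ)) ∧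
          ∃ z : Fin d → ℤ, v = A.mulVec (fun i => (z i : ℝ))} ≠ 2 * d ^ 2}) := by
  rintro ⟨d₀, h⟩
  have hd := le_max_right d₀ 2
  have h := h _ (le_max_left d₀ 2)
  generalize max d₀ 2 = d at hd h
  obtain ⟨C, hC, -, A, a1, a2, a3, a4⟩ := H.MP_2a19ed_co.main hd
    (LinearEquiv.smulOfNeZero ℝ (Fin d → ℝ) 2 two_ne_zero).toContinuousLinearEquiv
    (g := fun C : {K : ConvexBody (Fin d → ℝ) //
        (∀ x ∈ (K : Set (Fin d → ℝ)), -x ∈ (K : Set (Fin d → ℝ))) ∧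
        (interior (K : Set (Fin d → ℝ))).Nonempty} => ⟨⟨C.1, C.1.isCompact⟩, C.1.nonempty⟩)
    (Isometry.of_dist_eq fun _ _ => rfl)
    (fun K => ⟨by rintro ⟨C, rfl⟩; exact ⟨C.1.convex, C.2.2, C.2.1⟩,
      fun k => ⟨⟨⟨K, k.1, K.isCompact, K.nonempty⟩, k.2.2, k.2.1⟩, rfl⟩⟩) h
  exact hC ⟨A, a1, a2, ⟨1, one_pos, fun B _ => a3 B⟩, a4.ne⟩

end Pool.Agent.S09498
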