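import Pool.Statements.S09499
import Pool.Agent.H.MP_73fd2f_co.C

set_option autoImplicit false
open Pool Pool.MP_73fd2f_co

namespace Pool.Agent.S09499

/-- There is a convex polytope with fewer than 12 vertices, given as points in convex position in some R^d, such that no family of rational points in any R^e has exactly the same vertex sets of faces. -/
theorem result :
    ∃ d n : ℕ, n < 12 ∧ ∃ p : Fin n → (Fin d → ℝ),
      Function.Injective p ∧
      (∀ i : Fin n, p i ∉ convexHull ℝ (p '' {j | j ≠ i})) ∧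
      ∀ e : ℕ, ∀ q : Fin n → (Fin e → ℚ),
        ¬ ∀ S : Set (Fin n),
          ((∃ a : Fin d → ℝ, ∃ c : ℝ, ∀ i : Fin n,
              (∑ k, a k * p i k) ≤ c ∧ (i ∈ S ↔ (∑ k, a k * p i k) = c)) ↔
           (∃ a : Fin e → ℝ, ∃ c : ℝ, ∀ i : Fin n,
              (∑ k, a k * ((q i k : ℚ) : ℝ)) ≤ c ∧
                (i ∈ S ↔ (∑ k, a k * ((q i k : ℚ) : ℝ)) = c))) := by
  open Pool.Agent.H.MP_73fd2f_co in
  exact ⟨7, 11, by norm_num, p, inj, cvx, fun e q H => nonrat q H⟩

end Pool.Agent.S09499
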