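import Pool.Statements.S09503

set_option autoImplicit false
open Pool Pool.MP_741a63_co

namespace Pool.Agent.S09503

open Finset

lemma step_ineq (S N Q μ s n q : ℝ) (hμ : 1 ≤ μ) (hn : μ ≤ n) (hs : 3 * μ ≤ s) (hq : q ≤ n * s)
    (hS : S = 2 * s - μ) (hN : N = 2 * n) (hQ : Q = 12 * q + μ ^ 2)
    (h1 : S ^ 2 ≤ Q) (h2 : (S + N) ^ 2 ≤ Q + 3 * N ^ 2) :
    2 * S ^ 3 * (Q + 3 * N ^ 2) ≤ (S + N) ^ 3 * Q := by
  have hS0 : 0 < S := by linarith
  have hN0 : 0 < N := by linarith
  have hμS : 5 * μ ≤ S := by linarith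
  have hQ2 : Q ≤ 3.7 * N * S := by
    have : μ ^ 2 ≤ N * μ / 2 := by nlinarith
    have h3 : 12 * q ≤ 3 * N * (S + μ) := by nlinarith
    have h4 : N * μ ≤ N * S / 5 := by nlinarith
    nlinarith
  have hlam : 0.4 * S ≤ N := by
    by_contra hc
    push Not at hc
    nlinarith
  have key : (S + N) ^ 3 * Q - 2 * S ^ 3 * (Q + 3 * N ^ 2)
      = Q * ((N - S) ^ 3 + 6 * S * N ^ 2) - 6 * S ^ 3 * N ^ 2 := by ring
  rcases le_total S N with h | h
  · have a1 : 0 ≤ (N - S) ^ 3 := pow_nonneg (by linarith) 3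
    have a2 : S ^ 2 * (6 * S * N ^ 2) ≤ Q * (6 * S * N ^ 2) :=
      mul_le_mul_of_nonneg_right h1 (by positivity)
    have a3 : 0 ≤ Q * (N - S) ^ 3 := mul_nonneg (by nlinarith) a1
    nlinarith
  · have hD : 0 ≤ S - N := by linarith
    have hD2 : S - N ≤ 0.6 * S := by linarith
    have b1 : (S - N) ^ 2 ≤ 0.36 * S ^ 2 := by nlinarith
    have b2 : 0.16 * S ^ 2 ≤ N ^ 2 := by nlinarith
    have b3 : 0.064 * S ^ 3 ≤ N ^ 3 := by
      have := pow_le_pow_left₀ (by positivity) hlam 3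
      nlinarith
    have b4 : S ^ 2 + 2 * N * (S - N) ≤ Q := by nlinarith
    have b5 : (S - N) ^ 3 ≤ 0.216 * S ^ 3 := by
      have := pow_le_pow_left₀ hD hD2 3
      nlinarith
    have b6 : 0 ≤ (N - S) ^ 3 + 6 * S * N ^ 2 := by
      have : S * (0.16 * S ^ 2) ≤ S * N ^ 2 := mul_le_mul_of_nonneg_left b2 hS0.le
      have : 0 < S ^ 3 := by positivity
      nlinarith
    have b7 : (S ^ 2 + 2 * N * (S - N)) * ((N - S) ^ 3 + 6 * S * N ^ 2)
        ≤ Q * ((N - S) ^ 3 + 6 * S * N ^ 2) := mul_le_mul_of_nonneg_right b4 b6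
    have b8 : S ^ 2 + 2 * N * (S - N) ≤ 1.5 * S ^ 2 := by nlinarith [sq_nonneg (S - 2 * N)]
    have b9 : (S ^ 2 + 2 * N * (S - N)) * (S - N) ^ 2 ≤ (1.5 * S ^ 2) * (0.36 * S ^ 2) :=
      mul_le_mul b8 b1 (by positivity) (by positivity)
    have b10 : S * (0.064 * S ^ 3) ≤ S * N ^ 3 := mul_le_mul_of_nonneg_left b3 hS0.le
    have b11 : (S ^ 2 + 2 * N * (S - N)) * (S - N) ^ 2 ≤ 12 * S * N ^ 3 := by
      have : 0 < S ^ 4 := by positivity
      nlinarith
    have b12 := mul_le_mul_of_nonneg_right b11 hD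
    nlinarith

lemma growth (K : Finset ℕ) (n : ℕ → ℝ) (μ : ℝ) (hμ : 1 ≤ μ) (hn : ∀ i ∈ K, μ ≤ n i)
    (H : ∀ T ⊆ K, (∑ i ∈ T, n i) ^ 2 ≤ 3 * ∑ i ∈ T, (n i) ^ 2 + μ * ∑ i ∈ T, n i) :
    ∀ T : Finset ℕ, T ⊆ K → T.Nonempty →
      2 ^ T.card * (12 * ∑ i ∈ T, (n i) ^ 2 + μ ^ 2) ≤ 104 * (2 * ∑ i ∈ T, n i - μ) ^ 3 := by
  have base : ∀ T : Finset ℕ, T ⊆ K → T.Nonempty → T.card ≤ 3 →
      2 ^ T.card * (12 * ∑ i ∈ T, (n i) ^ 2 + μ ^ 2) ≤ 104 * (2 * ∑ i ∈ T, n i - μ) ^ 3 := by
    intro T hT hne hc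
    have h0 : ∀ i ∈ T, 0 ≤ n i := fun i hi => by linarith [hn i (hT hi)]
    have h1 : ∑ i ∈ T, (n i) ^ 2 ≤ (∑ i ∈ T, n i) ^ 2 := sum_sq_le_sq_sum_of_nonneg h0
    obtain ⟨a, ha⟩ := hne
    have h2 : μ ≤ ∑ i ∈ T, n i := (hn a (hT ha)).trans (single_le_sum h0 ha)
    have h3 : (2 : ℝ) ^ T.card ≤ 2 ^ 3 := pow_le_pow_right₀ (by norm_num) hc
    set s := ∑ i ∈ T, n i
    set q := ∑ i ∈ T, (n i) ^ 2
    have hq0 : 0 ≤ q := sum_nonneg (fun i _ => sq_nonneg _)
    have h4 : 12 * q + μ ^ 2 ≤ 13 * s ^ 2 := by nlinarith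
    have h5 : s ^ 3 ≤ (2 * s - μ) ^ 3 := pow_le_pow_left₀ (by linarith) (by linarith) 3
    have h6 : s ^ 2 ≤ s ^ 3 := pow_le_pow_right₀ (by linarith) (by norm_num)
    have h7 : (2 : ℝ) ^ T.card * (12 * q + μ ^ 2) ≤ 2 ^ 3 * (13 * s ^ 2) :=
      mul_le_mul h3 h4 (by positivity) (by positivity)
    nlinarith
  intro T
  induction T using Finset.induction_on_max_value (f := n) with
  | empty => intro _ h; simp at h
  | insert a T ha hmax ih =>
    intro hT hne
    by_cases hc : (insert a T).card ≤ 3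
    · exact base _ hT hne hc
    rw [card_insert_of_notMem ha] at hc
    have hTK : T ⊆ K := (subset_insert a T).trans hT
    have hTne : T.Nonempty := card_pos.1 (by omega)
    have ih' := ih hTK hTne
    have H1 := H T hTK
    have H2 := H _ hT
    rw [sum_insert ha, sum_insert ha] at H2
    rw [card_insert_of_notMem ha, sum_insert ha, sum_insert ha]
    have haK : μ ≤ n a := hn a (hT (mem_insert_self a T))
    have hs : 3 * μ ≤ ∑ i ∈ T, n i := by
      have := card_nsmul_le_sum T n μ (fun i hi => hn i (hTK hi))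
      rw [nsmul_eq_mul] at this
      have h3 : (3 : ℝ) ≤ T.card := by exact_mod_cast (by omega : 3 ≤ T.card)
      nlinarith
    have hq : ∑ i ∈ T, (n i) ^ 2 ≤ n a * ∑ i ∈ T, n i := by
      rw [mul_sum]
      apply sum_le_sum
      intro i hi
      have := hmax i hi
      have := hn i (hTK hi)
      nlinarith
    set s := ∑ i ∈ T, n i
    set q := ∑ i ∈ T, (n i) ^ 2
    have hq0 : 0 ≤ q := sum_nonneg (fun i _ => sq_nonneg _)
    have st := step_ineq (2 * s - μ) (2 * n a) (12 * q + μ ^ 2) μ s (n a) q hμ haK hs hq rfl rfl rfl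
      (by nlinarith) (by nlinarith)
    have hQ : 0 < 12 * q + μ ^ 2 := by positivity
    have e1 : 12 * (n a ^ 2 + q) + μ ^ 2 = (12 * q + μ ^ 2) + 3 * (2 * n a) ^ 2 := by ring
    have e2 : 2 * (n a + s) - μ = (2 * s - μ) + 2 * n a := by ring
    rw [e1, e2, pow_succ]
    set Q := 12 * q + μ ^ 2
    set S := 2 * s - μ
    set N := 2 * n a
    have hQ' : 0 < Q + 3 * N ^ 2 := by positivity
    have t1 := mul_le_mul_of_nonneg_right ih' hQ'.le
    apply le_of_mul_le_mul_right _ hQ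
    nlinarith

lemma distinct4 {α : Type*} [DecidableEq α] {x a b d : α} (h : ({x, a, b, d} : Finset α).card = 4) :
    x ≠ a ∧ x ≠ b ∧ x ≠ d ∧ a ≠ b ∧ a ≠ d ∧ b ≠ d := by
  refine ⟨?_, ?_, ?_, ?_, ?_, ?_⟩ <;> intro e <;> subst e
  · have : ({x, x, b, d} : Finset α) = {x, b, d} := by ext; simp
    have := @card_le_three _ _ x b d; simp_all
  · have : ({x, a, x, d} : Finset α) = {x, a, d} := by ext; simp; tauto
    have := @card_le_three _ _ x a d; simp_all
  · have : ({x, a, b, x} : Finset α) = {x, a, b} := by ext; simp; tauto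
    have := @card_le_three _ _ x a b; simp_all
  · have : ({x, a, a, d} : Finset α) = {x, a, d} := by ext; simp
    have := @card_le_three _ _ x a d; simp_all
  · have : ({x, a, b, a} : Finset α) = {x, a, b} := by ext; simp; tauto
    have := @card_le_three _ _ x a b; simp_all
  · have : ({x, a, b, b} : Finset α) = {x, a, b} := by ext; simp
    have := @card_le_three _ _ x a b; simp_all

lemma card3 {α : Type*} [DecidableEq α] {x a b : α} (h1 : x ≠ a) (h2 : x ≠ b) (h3 : a ≠ b) :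
    ({x, a, b} : Finset α).card = 3 := card_eq_three.2 ⟨x, a, b, h1, h2, h3, rfl⟩

lemma count_ineq {v : ℕ} (B : Finset (Finset (Fin v))) (h4 : ∀ b ∈ B, b.card = 4)
    (h3 : ∀ T : Finset (Fin v), T.card = 3 → ∃! b, b ∈ B ∧ T ⊆ b)
    (c : Fin v → ℕ) (hc : ∀ b ∈ B, ∃ x ∈ b, ∃ y ∈ b, x ≠ y ∧ c x = c y)
    (x : Fin v) (T : Finset ℕ) (hx : c x ∉ T) :
    (∑ i ∈ T, (univ.filter (fun y => c y = i)).card) ^ 2 ≤
      3 * ∑ i ∈ T, ((univ.filter (fun y => c y = i)).card) ^ 2 +
      (univ.filter (fun y => c y = c x)).card * ∑ i ∈ T, (univ.filter (fun y => c y = i)).card := by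
  classical
  rw [sum_card_fiberwise_eq_card_filter]
  set U := univ.filter (fun y => c y ∈ T) with hU
  set C := univ.filter (fun y => c y = c x) with hC
  set M := (U ×ˢ U).filter (fun p => c p.1 = c p.2) with hM
  set P := (U ×ˢ U).filter (fun p => ¬ c p.1 = c p.2) with hP
  have hMq : M.card ≤ ∑ i ∈ T, ((univ.filter (fun y => c y = i)).card) ^ 2 := by
    calc M.card ≤ (T.biUnion (fun i => (univ.filter (fun y => c y = i)) ×ˢ
          (univ.filter (fun y => c y = i)))).card := by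
          apply card_le_card
          intro p hp
          simp only [hM, hU, mem_filter, mem_product, mem_univ, true_and] at hp
          simp only [mem_biUnion, mem_product, mem_filter, mem_univ, true_and]
          exact ⟨c p.1, hp.1.1, rfl, hp.2.symm⟩
      _ ≤ _ := card_biUnion_le
      _ = _ := by simp only [card_product, sq]
  have hsum : M.card + P.card = U.card ^ 2 := by
    rw [hM, hP, card_filter_add_card_filter_not, card_product, sq]
  have hex : ∀ a b : Fin v, ∃ d, x ≠ a → x ≠ b → a ≠ b → ({x, a, b, d} : Finset (Fin v)) ∈ B := by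
    intro a b
    by_cases h : x ≠ a ∧ x ≠ b ∧ a ≠ b
    · obtain ⟨blk, ⟨hb, hsub⟩, -⟩ := h3 {x, a, b} (card3 h.1 h.2.1 h.2.2)
      have hcard : ({x, a, b} : Finset (Fin v)).card + 1 = blk.card := by
        rw [card3 h.1 h.2.1 h.2.2, h4 blk hb]
      obtain ⟨d, hd, hins⟩ := exists_eq_insert_iff.2 ⟨hsub, hcard⟩
      refine ⟨d, fun _ _ _ => ?_⟩
      have : ({x, a, b, d} : Finset (Fin v)) = blk := by
        rw [← hins]; ext; simp; tauto
      rw [this]; exact hb
    · exact ⟨x, fun h1 h2 h3 => (h ⟨h1, h2, h3⟩).elim⟩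
  choose δ hδ using hex
  have huniq : ∀ a d b b' : Fin v, ({x, a, b, d} : Finset (Fin v)) ∈ B →
      ({x, a, b', d} : Finset (Fin v)) ∈ B → b = b' := by
    intro a d b b' h1 h2
    obtain ⟨e1, e2, e3, e4, e5, e6⟩ := distinct4 (h4 _ h1)
    have hu := (h3 {x, a, d} (card3 e1 e3 e5)).unique (y₁ := {x, a, b, d}) (y₂ := {x, a, b', d})
      ⟨h1, by intro y; simp; tauto⟩ ⟨h2, by intro y; simp; tauto⟩
    have : b ∈ ({x, a, b', d} : Finset (Fin v)) := by rw [← hu]; simp
    simp only [mem_insert, mem_singleton] at this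
    rcases this with h | h | h | h
    · exact (e2 h.symm).elim
    · exact (e4 h.symm).elim
    · exact h
    · exact (e6 h).elim
  have hPB : ∀ p ∈ P, c p.1 ∈ T ∧ c p.2 ∈ T ∧ c p.1 ≠ c p.2 ∧
      ({x, p.1, p.2, δ p.1 p.2} : Finset (Fin v)) ∈ B := by
    intro p hp
    simp only [hP, hU, mem_filter, mem_product, mem_univ, true_and] at hp
    refine ⟨hp.1.1, hp.1.2, hp.2, hδ _ _ ?_ ?_ ?_⟩
    · intro e; exact hx (e ▸ hp.1.1)
    · intro e; exact hx (e ▸ hp.1.2)
    · intro e; exact hp.2 (by rw [e])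
  have hcov : P ⊆ (P.filter (fun p => c (δ p.1 p.2) = c p.1) ∪
      P.filter (fun p => c (δ p.1 p.2) = c p.2)) ∪ P.filter (fun p => c (δ p.1 p.2) = c x) := by
    intro p hp
    obtain ⟨t1, t2, t3, t4⟩ := hPB p hp
    obtain ⟨y, hy, z, hz, hyz, hcyz⟩ := hc _ t4
    have u1 : c x ≠ c p.1 := fun e => hx (e ▸ t1)
    have u2 : c x ≠ c p.2 := fun e => hx (e ▸ t2)
    simp only [mem_union, mem_filter, hp, true_and]
    simp only [mem_insert, mem_singleton] at hy hz
    rcases hy with rfl | rfl | rfl | rfl <;> rcases hz with rfl | rfl | rfl | rfl <;>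
      first
        | exact (hyz rfl).elim
        | exact (u1 hcyz).elim
        | exact (u1 hcyz.symm).elim
        | exact (u2 hcyz).elim
        | exact (u2 hcyz.symm).elim
        | exact (t3 hcyz).elim
        | exact (t3 hcyz.symm).elim
        | exact Or.inr hcyz
        | exact Or.inr hcyz.symm
        | exact Or.inl (Or.inl hcyz)
        | exact Or.inl (Or.inl hcyz.symm)
        | exact Or.inl (Or.inr hcyz)
        | exact Or.inl (Or.inr hcyz.symm)
  have inj1 : Set.InjOn (fun p : Fin v × Fin v => (p.1, δ p.1 p.2)) (P : Set (Fin v × Fin v)) := by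
    rintro ⟨a, b⟩ hp ⟨a', b'⟩ hp' e
    simp only [Prod.mk.injEq] at e
    obtain ⟨rfl, e⟩ := e
    have k1 := (hPB _ hp).2.2.2
    have k2 := (hPB _ hp').2.2.2
    simp only at k1 k2
    rw [← e] at k2
    rw [huniq _ _ _ _ k1 k2]
  have inj2 : Set.InjOn (fun p : Fin v × Fin v => (p.2, δ p.1 p.2)) (P : Set (Fin v × Fin v)) := by
    rintro ⟨a, b⟩ hp ⟨a', b'⟩ hp' e
    simp only [Prod.mk.injEq] at e
    obtain ⟨rfl, e⟩ := e
    have k1 := (hPB _ hp).2.2.2
    have k2 := (hPB _ hp').2.2.2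
    simp only at k1 k2
    rw [← e] at k2
    rw [insert_comm a b] at k1
    rw [insert_comm a' b] at k2
    rw [huniq _ _ _ _ k1 k2]
  have c1 : (P.filter (fun p => c (δ p.1 p.2) = c p.1)).card ≤ M.card := by
    apply card_le_card_of_injOn (fun p : Fin v × Fin v => (p.1, δ p.1 p.2))
    · intro p hp
      simp only [coe_filter, Set.mem_ofPred_eq] at hp
      have := hPB p hp.1
      simp only [hM, hU, coe_filter, mem_product, mem_filter, mem_univ, true_and, Set.mem_ofPred_eq]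
      exact ⟨⟨this.1, hp.2 ▸ this.1⟩, hp.2.symm⟩
    · exact inj1.mono (by intro p hp; simp only [coe_filter, Set.mem_ofPred_eq] at hp; exact hp.1)
  have c2 : (P.filter (fun p => c (δ p.1 p.2) = c p.2)).card ≤ M.card := by
    apply card_le_card_of_injOn (fun p : Fin v × Fin v => (p.2, δ p.1 p.2))
    · intro p hp
      simp only [coe_filter, Set.mem_ofPred_eq] at hp
      have := hPB p hp.1
      simp only [hM, hU, coe_filter, mem_product, mem_filter, mem_univ, true_and, Set.mem_ofPred_eq]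
      exact ⟨⟨this.2.1, hp.2 ▸ this.2.1⟩, hp.2.symm⟩
    · exact inj2.mono (by intro p hp; simp only [coe_filter, Set.mem_ofPred_eq] at hp; exact hp.1)
  have c3 : (P.filter (fun p => c (δ p.1 p.2) = c x)).card ≤ (U ×ˢ C).card := by
    apply card_le_card_of_injOn (fun p : Fin v × Fin v => (p.1, δ p.1 p.2))
    · intro p hp
      simp only [coe_filter, Set.mem_ofPred_eq] at hp
      have := hPB p hp.1
      simp only [hU, hC, coe_product, coe_filter, mem_univ, true_and, Set.mem_prod, Set.mem_ofPred_eq]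
      exact ⟨this.1, hp.2⟩
    · exact inj1.mono (by intro p hp; simp only [coe_filter, Set.mem_ofPred_eq] at hp; exact hp.1)
  have c4 := card_le_card hcov
  have c5 := card_union_le (P.filter (fun p => c (δ p.1 p.2) = c p.1) ∪
      P.filter (fun p => c (δ p.1 p.2) = c p.2)) (P.filter (fun p => c (δ p.1 p.2) = c x))
  have c6 := card_union_le (P.filter (fun p => c (δ p.1 p.2) = c p.1))
      (P.filter (fun p => c (δ p.1 p.2) = c p.2))
  rw [card_product, mul_comm] at c3
  omega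

lemma upper {v : ℕ} (hv : 1 ≤ v) (B : Finset (Finset (Fin v))) (h4 : ∀ b ∈ B, b.card = 4)
    (h3 : ∀ T : Finset (Fin v), T.card = 3 → ∃! b, b ∈ B ∧ T ⊆ b)
    (c : Fin v → ℕ) (hc : ∀ b ∈ B, ∃ x ∈ b, ∃ y ∈ b, x ≠ y ∧ c x = c y) :
    (2 : ℝ) ^ (univ.image c).card ≤ 512 * v := by
  classical
  have hv' : (1 : ℝ) ≤ v := by exact_mod_cast hv
  have hne : (univ : Finset (Fin v)).Nonempty := ⟨⟨0, hv⟩, mem_univ _⟩
  obtain ⟨x, -, hmin⟩ := exists_min_image univ
    (fun x => (univ.filter (fun y => c y = c x)).card) hne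
  set K := (univ.image c).erase (c x) with hK
  have hcard : (univ.image c).card = K.card + 1 := by
    rw [hK, card_erase_add_one (mem_image_of_mem c (mem_univ x))]
  rw [hcard]
  rcases K.eq_empty_or_nonempty with h0 | hKne
  · rw [h0]; simp; linarith
  let n : ℕ → ℝ := fun i => ((univ.filter (fun y => c y = i)).card : ℝ)
  have hμ : 1 ≤ n (c x) := by
    have : 0 < (univ.filter (fun y => c y = c x)).card := card_pos.2 ⟨x, by simp⟩
    simp only [n]; exact_mod_cast this
  have hn : ∀ i ∈ K, n (c x) ≤ n i := by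
    intro i hi
    obtain ⟨y, -, rfl⟩ := mem_image.1 (mem_of_mem_erase hi)
    simp only [n]; exact_mod_cast hmin y (mem_univ y)
  have H : ∀ T ⊆ K, (∑ i ∈ T, n i) ^ 2 ≤ 3 * ∑ i ∈ T, (n i) ^ 2 + n (c x) * ∑ i ∈ T, n i := by
    intro T hT
    have := count_ineq B h4 h3 c hc x T (fun h => notMem_erase _ _ (hT h))
    simp only [n]; exact_mod_cast this
  have G := growth K n (n (c x)) hμ hn H K subset_rfl hKne
  have H1 := H K subset_rfl
  have hs : ∑ i ∈ K, n i ≤ v := by
    have := sum_card_fiberwise_eq_card_filter (univ : Finset (Fin v)) K c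
    have h2 : (univ.filter (fun y => c y ∈ K)).card ≤ v := by
      simpa using card_le_univ (univ.filter (fun y => c y ∈ K))
    simp only [n]
    rw [← this] at h2
    exact_mod_cast h2
  obtain ⟨a, ha⟩ := hKne
  have h2 : n (c x) ≤ ∑ i ∈ K, n i :=
    (hn a ha).trans (single_le_sum (f := n) (fun i hi => by linarith [hn i hi]) ha)
  set s := ∑ i ∈ K, n i
  set q := ∑ i ∈ K, (n i) ^ 2
  set μ := n (c x)
  have hS : 0 < 2 * s - μ := by linarith
  have h5 : (2 * s - μ) ^ 2 ≤ 12 * q + μ ^ 2 := by nlinarith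
  have h6 : (2 : ℝ) ^ K.card * (2 * s - μ) ^ 2 ≤ 2 ^ K.card * (12 * q + μ ^ 2) :=
    mul_le_mul_of_nonneg_left h5 (by positivity)
  have h7 : (2 : ℝ) ^ K.card ≤ 104 * (2 * s - μ) := by
    apply le_of_mul_le_mul_right _ (pow_pos hS 2)
    nlinarith
  rw [pow_succ]
  linarith

lemma lower (k : ℕ) : ∃ B : Finset (Finset (Fin (2 ^ k))),
      (∀ b ∈ B, b.card = 4) ∧
      (∀ T : Finset (Fin (2 ^ k)), T.card = 3 → ∃! b, b ∈ B ∧ T ⊆ b) ∧
      ∃ c : Fin (2 ^ k) → ℕ, (∀ b ∈ B, ∃ x ∈ b, ∃ y ∈ b, x ≠ y ∧ c x = c y) ∧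
      k ≤ (Finset.univ.image c).card := by
  classical
  have hG : Fintype.card (Fin k → ZMod 2) = 2 ^ k := by simp
  let e : Fin (2 ^ k) ≃ (Fin k → ZMod 2) := (Fintype.equivFinOfCardEq hG).symm
  have two : ∀ g : Fin k → ZMod 2, g + g = 0 := fun g => by
    funext i; exact CharTwo.add_self_eq_zero _
  refine ⟨univ.filter (fun b => b.card = 4 ∧ ∑ y ∈ b, e y = 0), ?_, ?_,
    fun y => (univ.filter (fun i => e y i ≠ 0)).sup (fun i => i.val + 1), ?_, ?_⟩
  · intro b hb; exact (mem_filter.1 hb).2.1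
  · intro T hT
    have hd : e.symm (∑ y ∈ T, e y) ∉ T := by
      intro hmem
      have h1 := add_sum_erase T (fun y => e y) hmem
      rw [Equiv.apply_symm_apply] at h1
      have h2 : ∑ y ∈ T.erase (e.symm (∑ y ∈ T, e y)), e y = 0 := by simpa using h1
      obtain ⟨a, b, hab, hE⟩ := card_eq_two.1
        (show (T.erase (e.symm (∑ y ∈ T, e y))).card = 2 by rw [card_erase_of_mem hmem, hT])
      rw [hE, sum_pair hab] at h2
      apply hab
      apply e.injective
      have := two (e b)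
      exact add_right_cancel (h2.trans this.symm)
    refine ⟨insert (e.symm (∑ y ∈ T, e y)) T, ⟨?_, subset_insert _ _⟩, ?_⟩
    · simp only [mem_filter, mem_univ, true_and]
      rw [card_insert_of_notMem hd, hT, sum_insert hd, Equiv.apply_symm_apply]
      exact ⟨rfl, two _⟩
    · rintro b ⟨hb, hsub⟩
      simp only [mem_filter, mem_univ, true_and] at hb
      obtain ⟨d, hdT, hins⟩ := exists_eq_insert_iff.2 ⟨hsub, (by rw [hT, hb.1])⟩
      have h1 := hb.2
      rw [← hins, sum_insert hdT] at h1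
      have h2 : e d = ∑ y ∈ T, e y := add_right_cancel (h1.trans (two _).symm)
      rw [← hins, ← h2, Equiv.symm_apply_apply]
  · intro b hb
    simp only [mem_filter, mem_univ, true_and] at hb
    have hne : b.Nonempty := card_pos.1 (by omega)
    obtain ⟨x, hx, hmax⟩ := exists_max_image b
      (fun y => (univ.filter (fun i => e y i ≠ 0)).sup (fun i => i.val + 1)) hne
    rcases (univ.filter (fun i => e x i ≠ 0)).eq_empty_or_nonempty with h0 | h0
    · obtain ⟨y, hy, hyx⟩ := exists_mem_ne (s := b) (by omega) x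
      refine ⟨x, hx, y, hy, hyx.symm, ?_⟩
      have := hmax y hy
      beta_reduce
      rw [h0] at this ⊢
      simp only [sup_empty, bot_eq_zero'] at this ⊢
      omega
    · obtain ⟨i, hi, hsup⟩ := exists_mem_eq_sup _ h0 (fun i : Fin k => i.val + 1)
      have hxi : e x i ≠ 0 := (mem_filter.1 hi).2
      have : ∃ y ∈ b.erase x, e y i ≠ 0 := by
        by_contra hcon
        push Not at hcon
        have h1 := congrFun hb.2 i
        rw [← add_sum_erase b (fun y => e y) hx] at h1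
        simp only [Pi.add_apply, Finset.sum_apply, Pi.zero_apply] at h1
        rw [sum_eq_zero hcon, add_zero] at h1
        exact hxi h1
      obtain ⟨y, hy, hyi⟩ := this
      refine ⟨x, hx, y, mem_of_mem_erase hy, (ne_of_mem_erase hy).symm, ?_⟩
      apply le_antisymm _ (hmax y (mem_of_mem_erase hy))
      rw [hsup]
      exact le_sup (f := fun i : Fin k => i.val + 1) (by simpa using hyi)
  · calc k = (univ : Finset (Fin k)).card := by simp
      _ ≤ _ := by
        apply card_le_card_of_injOn (fun i => i.val + 1)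
        · intro i _
          simp only [coe_image, coe_univ, Set.image_univ, Set.mem_range]
          refine ⟨e.symm (Pi.single i 1), ?_⟩
          rw [Equiv.apply_symm_apply]
          have : univ.filter (fun j => (Pi.single i 1 : Fin k → ZMod 2) j ≠ 0) = {i} := by
            ext j
            by_cases h : j = i
            · subst h; simp
            · simp [h]
          rw [this]; simp
        · intro i _ j _ h
          apply Fin.ext
          simpa using h

theorem result :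
    (∀ ε : ℝ, 0 < ε → ∃ N : ℕ, ∀ v : ℕ, N ≤ v → ∀ B : Finset (Finset (Fin v)),
      (∀ b ∈ B, b.card = 4) →
      (∀ T : Finset (Fin v), T.card = 3 → ∃! b, b ∈ B ∧ T ⊆ b) →
      ∀ c : Fin v → ℕ, (∀ b ∈ B, ∃ x ∈ b, ∃ y ∈ b, x ≠ y ∧ c x = c y) →
      ((Finset.univ.image c).card : ℝ) ≤ (1 + ε) * Real.logb 2 (v : ℝ)) ∧
    (∀ ε : ℝ, 0 < ε → ∀ N : ℕ, ∃ v : ℕ, N ≤ v ∧ ∃ B : Finset (Finset (Fin v)),
      (∀ b ∈ B, b.card = 4) ∧
      (∀ T : Finset (Fin v), T.card = 3 → ∃! b, b ∈ B ∧ T ⊆ b) ∧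
      ∃ c : Fin v → ℕ, (∀ b ∈ B, ∃ x ∈ b, ∃ y ∈ b, x ≠ y ∧ c x = c y) ∧
      (1 - ε) * Real.logb 2 (v : ℝ) ≤ ((Finset.univ.image c).card : ℝ)) := by
  constructor
  · intro ε hε
    refine ⟨2 ^ ⌈9 / ε⌉₊, fun v hv B h4 h3 c hc => ?_⟩
    have hv1 : 1 ≤ v := le_trans Nat.one_le_two_pow hv
    have hv0 : (0 : ℝ) < v := by exact_mod_cast hv1
    have U := upper hv1 B h4 h3 c hc
    have a1 : ((univ.image c).card : ℝ) ≤ Real.logb 2 (512 * v) := by
      rw [Real.le_logb_iff_rpow_le (by norm_num) (by positivity), Real.rpow_natCast]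
      exact U
    have a2 : Real.logb 2 (512 * (v : ℝ)) = 9 + Real.logb 2 v := by
      rw [Real.logb_mul (by norm_num) hv0.ne']
      congr 1
      rw [show (512 : ℝ) = 2 ^ 9 by norm_num, Real.logb_pow]
      simp
    have a3 : (⌈9 / ε⌉₊ : ℝ) ≤ Real.logb 2 v := by
      rw [Real.le_logb_iff_rpow_le (by norm_num) hv0, Real.rpow_natCast]
      exact_mod_cast hv
    have a4 : 9 / ε ≤ Real.logb 2 v := (Nat.le_ceil _).trans a3
    rw [div_le_iff₀ hε] at a4
    nlinarith
  · intro ε hε N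
    obtain ⟨B, h4, h3, c, hc, hk⟩ := lower N
    refine ⟨2 ^ N, Nat.lt_two_pow_self.le, B, h4, h3, c, hc, ?_⟩
    have : Real.logb 2 ((2 ^ N : ℕ) : ℝ) = N := by
      push_cast
      rw [Real.logb_pow]; simp
    rw [this]
    have hk' : (N : ℝ) ≤ ((univ.image c).card : ℝ) := by exact_mod_cast hk
    have : (0 : ℝ) ≤ N := Nat.cast_nonneg N
    nlinarith

end Pool.Agent.S09503
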