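import Pool.Statements.S09515
import Pool.Agent.H.MP_7470ba_co.B

set_option autoImplicit false
open Pool Pool.MP_7470ba_co

namespace Pool.Agent.S09515
open Finset Pool.Agent.H.MP_16c276_co Pool.Agent.H.MP_cf6e1a_co Pool.Agent.H.MP_7470ba_co
open Pool.Agent.H.MP_a8759f_co (Sh)

theorem oks (m : ℕ) (hm : m ∈ L) : (dec 25 m).card = 4 ∧ 2 ≤ (dec 25 m \ dec 25 63).card ∧
    ((dec 25 m \ dec 25 63).card = 2 → ∃ u ∈ dec 25 60, u ∈ dec 25 m) ∧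
    ∀ x ∈ dec 25 m \ dec 25 63, e0 x x = 1 ∧ ∀ y ∈ dec 25 m \ dec 25 63,
      (∀ z ∈ dec 25 m \ dec 25 63, e0 y z * e0 x y = e0 x z) ∧ ∀ k : Fin 5, b0 G x y 4 = 0 ∧
        b0 G x x k = 0 ∧ (∀ z ∈ dec 25 m \ dec 25 63, e0 y z * b0 G x y k + b0 G y z k = b0 G x z k) ∧
        ∀ u ∈ dec 25 60, u ∈ dec 25 m → e0 x y * b0 CU u x k + b0 G x y k = b0 CU u y k := by
  have h := List.all_eq_true.1 c3 m hm
  simp only [ok, fL_eq, Bool.and_eq_true, List.all_eq_true, beq_iff_eq, decide_eq_true_eq] at h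
  rw [dec_sd, card_dec, card_dec]
  refine ⟨h.1.1.1, h.1.1.2, fun a => ?_, fun x a => ⟨(h.2 _ (mem_bt a)).1, fun y b => ?_⟩⟩
  · obtain ⟨u, hu⟩ := card_pos.1 ((h.1.2 a).trans_eq (card_dec.symm.trans (congrArg card dec_and.symm)))
    exact ⟨u, (mem_inter.1 hu).2, (mem_inter.1 hu).1⟩
  · have c := (h.2 _ (mem_bt a)).2 _ (mem_bt b)
    refine ⟨fun z d => c.1 _ (mem_bt d), fun k => ?_⟩
    have d := c.2 k (by revert k; decide)
    exact ⟨d.1.1.1, d.1.1.2, fun z f => d.1.2 _ (mem_bt f), fun u f g =>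
      d.2 _ (mem_bt (dec_and ▸ mem_inter.2 ⟨g, f⟩))⟩

theorem nonsh (s : ℕ) (F : ℕ → Finset (Fin 25)) (sh : Sh (· < s) F)
    (h : ∀ G, (∃ m ∈ L, dec 25 m = G) ↔ ∃ i < s, F i = G) : False := by
  have md : ∀ i < s, ∃ m ∈ L, dec 25 m = F i := fun i hi => (h _).2 ⟨i, hi, rfl⟩
  have h1 : ∀ i < s, 2 ≤ (F i \ dec 25 63).card := fun i hi => by
    obtain ⟨m, a, b⟩ := md i hi
    exact b ▸ (oks m a).2.1
  obtain ⟨j, j1, j2⟩ := (h _).1 ⟨8513, by decide +kernel, rfl⟩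
  have s0 : 0 < s := by omega
  obtain ⟨x0, hx⟩ := card_pos.1 (two_pos.trans_le (h1 0 s0))
  obtain ⟨C, a, t, b, c⟩ := anch (K := Z3) (V := Fin 5 → Z3) sh (dec 25 63) (dec 25 60)
    (sub1 (by decide)) (fun x y => e0 x y) (fun x y k => b0 G x y k) (fun x y k => b0 CU x y k) h1
    (fun i hi => by obtain ⟨m, a, b⟩ := md i hi; exact b ▸ (oks m a).2.2.1)
    (fun i hi => by
      obtain ⟨m, a, b⟩ := md i hi
      rw [← b]
      exact fun x c y d z f => ⟨(((oks m a).2.2.2 x c).2 y d).1 z f,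
        funext fun k => ((((oks m a).2.2.2 x c).2 y d).2 k).2.2.1 z f⟩)
    (fun i hi => by
      obtain ⟨m, a, b⟩ := md i hi
      rw [← b]
      exact fun u f g x c y d => funext fun k => ((((oks m a).2.2.2 x c).2 y d).2 k).2.2.2 u f g)
    x0 s0 hx (Pi.single 4 1) (by
      obtain ⟨m, a, b⟩ := md 0 s0
      have c := (oks m a).2.2.2 x0 (b ▸ hx)
      rw [c.1, one_smul]
      exact add_eq_left.2 (funext fun k => ((c.2 x0 (b ▸ hx)).2 k).2.1)) s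
  obtain ⟨f, f0, f1⟩ := C.exists_le_ker_of_lt_top (lt_top_iff_ne_top.2 fun e => by
    rw [e, card_dec] at a
    simp at a
    revert a
    decide +kernel)
  have g : ∀ i < s, ∀ x ∈ F i \ dec 25 63, ∀ y ∈ F i \ dec 25 63,
      e0 x y * f (t x) + f (fun k => b0 G x y k) = f (t y) := fun i hi x hx y hy => by
    simpa [sub_eq_zero] using f1 (c i hi hi x hx y hy)
  obtain ⟨d1, d2⟩ := c4 f (fun x => f (t x)) fun m hm => by
    obtain ⟨i, i1, i2⟩ := (h _).1 ⟨m, hm, rfl⟩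
    exact i2 ▸ g i i1
  have d3 := uniq sh (dec 25 63) (fun x y q => e0 x y * q) h1 (fun x => f (t x)) 0 s
    (fun i hi _ x hx y hy => by
      obtain ⟨m, a, b⟩ := md i hi
      have z := ((((oks m a).2.2.2 x (b ▸ hx)).2 y (b ▸ hy)).2 0).1
      have := g i hi x hx y hy
      rwa [pi_eq_sum_univ' fun k : Fin 5 => b0 G x y k, map_sum, sum_eq_zero fun k _ => by
        by_cases e : k = 4
        · simp [e, z]
        · simp [d2 k e], add_zero] at this)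
    (fun _ _ _ _ _ _ _ => mul_zero _) j1 s0 j1 s0 (p := 6) (j2 ▸ by decide +kernel) hx d1
  refine f0 ((Pi.basisFun Z3 (Fin 5)).ext fun k => ?_)
  by_cases e : k = 4
  · simpa [e, d3] using f1 b
  · simpa using d2 k e


/-- For some d there is a finite pure d-dimensional simplicial complex whose realization is homeomorphic to the d-sphere, which is constructible, and whose facets admit no shelling order. -/
theorem result :
  ∃ (d n : ℕ) (F : Finset (Finset (Fin n))),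
    (∀ σ ∈ F, σ.card = d + 1) ∧
    Nonempty ({x : Fin n → ℝ | (∀ i, 0 ≤ x i) ∧ ∑ i, x i = 1 ∧
        ∃ σ ∈ F, ∀ i, x i ≠ 0 → i ∈ σ} ≃ₜ
      Metric.sphere (0 : EuclideanSpace ℝ (Fin (d + 1))) 1) ∧
    (∀ P : ℕ → Finset (Finset (Fin n)) → Prop,
      (∀ σ : Finset (Fin n), P σ.card {σ}) →
      (∀ (k : ℕ) (F₁ F₂ G : Finset (Finset (Fin n))), 1 ≤ k →
        (∀ σ ∈ F₁, σ.card = k) → (∀ σ ∈ F₂, σ.card = k) → P k F₁ → P k F₂ →
        (∀ γ ∈ G, γ.card = k - 1) →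
        (∀ ρ : Finset (Fin n), (∃ γ ∈ G, ρ ⊆ γ) ↔
          (∃ σ ∈ F₁, ∃ τ ∈ F₂, ρ ⊆ σ ∧ ρ ⊆ τ)) →
        P (k - 1) G → P k (F₁ ∪ F₂)) →
      P (d + 1) F) ∧
    ¬ ∃ L : List (Finset (Fin n)), L.Nodup ∧ L.toFinset = F ∧
      ∀ i j : Fin L.length, i < j → ∃ k : Fin L.length, k < j ∧
        L.get i ∩ L.get j ⊆ L.get k ∩ L.get j ∧ (L.get j \ L.get k).card = 1 := by
  refine ⟨3, 25, cx 25 L, fun σ h => ?_, ?_, fun P p1 p2 => ?_, ?_⟩
  · obtain ⟨m, a, rfl⟩ := mem_cx.1 h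
    exact (oks m a).1
  · obtain ⟨e1⟩ := ch_ok (24 : Fin 25) _ _ _ c1.2 c1.1
    obtain ⟨e2⟩ := sph3 (dec 25 2359682) (card_dec.trans (by decide +kernel))
    refine ⟨(Homeomorph.setCongr ?_).trans (e1.trans ((Homeomorph.setCongr ?_).trans e2))⟩
    · simp only [RL, R, mem_cx, not_imp_comm (a := _ ∈ _)]
    · rw [RL]
      congr 1
      ext G
      rw [← mem_cx, show cx 25 [2097538, 2359426, 262530, 2359554, 2359680] =
        (dec 25 2359682).image (dec 25 2359682).erase by decide +kernel, mem_image]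
      simp only [eq_comm]
  · have h := c2
    simp only [Bool.and_eq_true] at h
    obtain ⟨⟨⟨⟨⟨⟨⟨⟨⟨a0, a1⟩, a2⟩, a3⟩, d0⟩, d1⟩, z⟩, u0⟩, u1⟩, u2⟩ := h
    have k := shl_ok (P := P) ⟨p1, p2⟩
    exact (un_ok ⟨p1, p2⟩ u2 (un_ok ⟨p1, p2⟩ u0 (k _ _ a0) (k _ _ a1) (k _ _ d0))
      (un_ok ⟨p1, p2⟩ u1 (k _ _ a2) (k _ _ a3) (k _ _ d1)) (k _ _ z)).2
  · rintro ⟨l, -, h1, h2⟩
    have e : ∀ i : Fin l.length, l.getD i ∅ = l.get i := fun i => by simp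
    refine nonsh l.length (l.getD · ∅) (fun j hj i a hi => ?_) fun G => ?_
    · obtain ⟨k, k1, k2, k3⟩ := h2 ⟨i, hi⟩ ⟨j, hj⟩ a
      obtain ⟨v, hv⟩ := card_eq_one.1 k3
      have v1 := mem_sdiff.1 (hv.ge (mem_singleton_self v))
      refine ⟨k, k1, k.2, v, ?_⟩
      simp only [e k, e ⟨i, hi⟩, e ⟨j, hj⟩]
      exact ⟨v1.1, fun x hx => mem_erase.2 ⟨fun c => v1.2 (c ▸ (mem_inter.1 (k2 hx)).1),
        (mem_inter.1 hx).2⟩, fun x hx => by_contra fun c => (mem_erase.1 hx).1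
          (mem_singleton.1 (hv.le (mem_sdiff.2 ⟨(mem_erase.1 hx).2, c⟩)))⟩
    · rw [← mem_cx, ← h1, List.mem_toFinset, List.mem_iff_get]
      exact ⟨fun ⟨i, a⟩ => ⟨i, i.2, (e i).trans a⟩, fun ⟨i, a, b⟩ => ⟨⟨i, a⟩, (e ⟨i, a⟩).symm.trans b⟩⟩

end Pool.Agent.S09515
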