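import Pool.Statements.S09522
import Pool.Agent.H.MP_74a576_co.Main

set_option autoImplicit false
open Pool Pool.MP_74a576_co

namespace Pool.Agent.S09522

open Pool.Agent.H.MP_74a576_co in
theorem result :
    ¬ (∃ c : ℕ, ∀ (V : Type) [Fintype V] [DecidableEq V] (G : SimpleGraph V), G.Connected →
      ∀ t : ℕ, 1 ≤ t → ∀ D : V → ℕ,
        (∀ r : V, ∃ D' : V → ℕ,
            Relation.ReflTransGen
              (fun A B : V → ℕ => ∃ u v : V, G.Adj u v ∧ 2 ≤ A u ∧
                B = Function.update (Function.update A u (A u - 2)) v (A v + 1)) D D' ∧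
            t ≤ D' r) →
        ∃ E : V → ℕ,
          (∀ r : V, ∃ E' : V → ℕ,
              Relation.ReflTransGen
                (fun A B : V → ℕ => ∃ u v : V, G.Adj u v ∧ 2 ≤ A u ∧
                  B = Function.update (Function.update A u (A u - 2)) v (A v + 1)) E E' ∧
              1 ≤ E' r) ∧
          t * ∑ v, E v ≤ c * ∑ v, D v) := by
  rintro ⟨c, h⟩
  obtain ⟨s, hs, hs1⟩ : ∃ s : ℕ, 4 * c < 2 ^ s ∧ 1 ≤ s :=
    ⟨4 * c + 1, lt_trans (Nat.lt_succ_self _) Nat.lt_two_pow_self, by omega⟩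
  obtain ⟨a, ha⟩ : ∃ a : ℕ, a = 2 ^ (2 * s) := ⟨_, rfl⟩
  have ha2 : 2 ≤ a := by
    rw [ha]
    exact le_trans (by norm_num) (Nat.pow_le_pow_right (by norm_num) (show 1 ≤ 2 * s by omega))
  obtain ⟨E, hE, hle⟩ := h _ (G a (2 * a) (2 * s) (a * a))
    (conn _ ha2 (by omega) (by positivity)) (2 ^ s) Nat.one_le_two_pow (D (2 * s))
    (solv _ s ha (by omega))
  rw [sumD, pow_succ, ← ha] at hle
  have h1 : ∑ v, E v < a * a := by
    have hpos : 0 < a * a := by positivity
    have e : c * (2 * a * (a * 2)) = 4 * c * (a * a) := by ring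
    have := Nat.mul_lt_mul_of_pos_right hs hpos
    exact Nat.lt_of_mul_lt_mul_left (a := 2 ^ s) (by omega)
  obtain ⟨r, hr⟩ := lower (2 * s) rfl E h1 (by rw [← ha]; exact h1.le) (by
    rw [pow_succ, two_mul (2 * s), pow_add, ← ha]; omega)
  obtain ⟨E', h2, h3⟩ := hE r
  have := hr E' h2
  omega

end Pool.Agent.S09522
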