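import Pool.Statements.S09534
-- import your own Pool.Agent.* helpers here

set_option autoImplicit false
open Classical
open Pool Pool.MP_7523ff_co

namespace Pool.Agent.S09534

open Finset Matrix

lemma up {n : ℕ} (G : SimpleGraph (Fin n)) (d : ℕ) (h : ∀ v, G.degree v = d) :
    sSup (spectrum ℝ (G.adjMatrix ℝ)) ≤ d := by
  apply Real.sSup_le _ (by positivity)
  intro μ hμ
  rw [← Matrix.spectrum_toLin', ← Module.End.hasEigenvalue_iff_mem_spectrum] at hμ
  obtain ⟨k, hk⟩ := eigenvalue_mem_ball hμ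
  rw [Metric.mem_closedBall, Real.dist_eq] at hk
  have h1 : ∑ j ∈ univ.erase k, ‖G.adjMatrix ℝ k j‖ ≤ d := by
    calc _ ≤ ∑ j, ‖G.adjMatrix ℝ k j‖ :=
          sum_le_sum_of_subset_of_nonneg (erase_subset _ _) (fun _ _ _ => norm_nonneg _)
      _ = ∑ j, if G.Adj k j then (1 : ℝ) else 0 := by
          apply sum_congr rfl; intro j _
          rw [SimpleGraph.adjMatrix_apply]; split_ifs <;> simp
      _ = d := by
          rw [← h k, ← SimpleGraph.card_neighborFinset_eq_degree, sum_boole,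
            SimpleGraph.neighborFinset_eq_filter]
  have h2 : G.adjMatrix ℝ k k = 0 := by simp
  rw [h2, sub_zero] at hk
  exact (le_abs_self μ).trans (hk.trans h1)

open scoped MatrixOrder in
lemma low {n : ℕ} (H : SimpleGraph (Fin n)) :
    2 * (H.edgeSet.ncard : ℝ) ≤ n * sSup (spectrum ℝ (H.adjMatrix ℝ)) := by
  set r := sSup (spectrum ℝ (H.adjMatrix ℝ))
  have hb : BddAbove (spectrum ℝ (H.adjMatrix ℝ)) := (Matrix.finite_real_spectrum).bddAbove
  have hH : (H.adjMatrix ℝ).IsHermitian := H.isHermitian_adjMatrix ℝ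
  have h1 : H.adjMatrix ℝ ≤ algebraMap ℝ _ r :=
    le_algebraMap_of_spectrum_le (fun x hx => le_csSup hb hx) hH
  rw [Matrix.le_iff] at h1
  have h2 := h1.dotProduct_mulVec_nonneg (fun _ => 1)
  have h3 : ∑ v, (H.degree v : ℝ) = 2 * (H.edgeSet.ncard : ℝ) := by
    have := H.sum_degrees_eq_twice_card_edges
    rw [← SimpleGraph.coe_edgeFinset, Set.ncard_coe_finset]
    exact_mod_cast this
  rw [Matrix.sub_mulVec, dotProduct_sub, Algebra.algebraMap_eq_smul_one, Matrix.smul_mulVec,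
    Matrix.one_mulVec] at h2
  have h4 : ∀ x, (H.adjMatrix ℝ *ᵥ fun _ => (1 : ℝ)) x = H.degree x := by
    intro x; rw [SimpleGraph.adjMatrix_mulVec_apply]; simp
  simp only [dotProduct, star_trivial, one_mul, h4,
    Pi.smul_apply, smul_eq_mul, mul_one, sum_const, card_univ, Fintype.card_fin,
    nsmul_eq_mul] at h2
  linarith

def gr (t : ℕ) : SimpleGraph (Fin (5 * t)) :=
  (SimpleGraph.cycleGraph 5).comap (fun x => (finProdFinEquiv.symm x).1)

lemma deg (t : ℕ) (v : Fin (5 * t)) : (gr t).degree v = 2 * t := by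
  rw [← SimpleGraph.card_neighborFinset_eq_degree]
  have : (gr t).neighborFinset v = (((SimpleGraph.cycleGraph 5).neighborFinset
      (finProdFinEquiv.symm v).1) ×ˢ (univ : Finset (Fin t))).map finProdFinEquiv.toEmbedding := by
    ext w
    rw [mem_map_equiv, mem_product, SimpleGraph.mem_neighborFinset, SimpleGraph.mem_neighborFinset]
    simp [gr]
  rw [this, card_map, card_product, SimpleGraph.card_neighborFinset_eq_degree,
    SimpleGraph.cycleGraph_degree_three_le]
  simp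

lemma adj (t : ℕ) (a b : Fin 5) (x y : Fin t) (h : (SimpleGraph.cycleGraph 5).Adj a b) :
    (gr t).Adj (finProdFinEquiv (a, x)) (finProdFinEquiv (b, y)) := by
  unfold gr
  rw [SimpleGraph.comap_adj, Equiv.symm_apply_apply, Equiv.symm_apply_apply]
  exact h

lemma conn (t : ℕ) (ht : 0 < t) : (gr t).Connected := by
  have key : ∀ (a : Fin 5) (x : Fin t),
      (gr t).Reachable (finProdFinEquiv (0, ⟨0, ht⟩)) (finProdFinEquiv (a, x)) := by
    intro a x
    have h1 : ∀ x, (gr t).Reachable (finProdFinEquiv (0, ⟨0, ht⟩)) (finProdFinEquiv (1, x)) :=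
      fun x => (adj t 0 1 _ x (by decide)).reachable
    have h2 : ∀ x, (gr t).Reachable (finProdFinEquiv (0, ⟨0, ht⟩)) (finProdFinEquiv (2, x)) :=
      fun x => (h1 x).trans (adj t 1 2 _ x (by decide)).reachable
    have h3 : ∀ x, (gr t).Reachable (finProdFinEquiv (0, ⟨0, ht⟩)) (finProdFinEquiv (3, x)) :=
      fun x => (h2 x).trans (adj t 2 3 _ x (by decide)).reachable
    have h4 : ∀ x, (gr t).Reachable (finProdFinEquiv (0, ⟨0, ht⟩)) (finProdFinEquiv (4, x)) :=
      fun x => (h3 x).trans (adj t 3 4 _ x (by decide)).reachable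
    have h0 : ∀ x, (gr t).Reachable (finProdFinEquiv (0, ⟨0, ht⟩)) (finProdFinEquiv (0, x)) :=
      fun x => (h4 x).trans (adj t 4 0 _ x (by decide)).reachable
    fin_cases a
    exacts [h0 x, h1 x, h2 x, h3 x, h4 x]
  haveI : Nonempty (Fin (5 * t)) := ⟨⟨0, by omega⟩⟩
  refine ⟨fun u v => ?_⟩
  obtain ⟨⟨a, x⟩, rfl⟩ := finProdFinEquiv.surjective u
  obtain ⟨⟨b, y⟩, rfl⟩ := finProdFinEquiv.surjective v
  exact (key a x).symm.trans (key b y)

lemma ncol (t : ℕ) (ht : 0 < t) : ¬ (gr t).Colorable 2 := by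
  rintro ⟨c⟩
  let x : Fin t := ⟨0, ht⟩
  have h1 := c.valid (adj t 0 1 x x (by decide))
  have h2 := c.valid (adj t 1 2 x x (by decide))
  have h3 := c.valid (adj t 2 3 x x (by decide))
  have h4 := c.valid (adj t 3 4 x x (by decide))
  have h5 := c.valid (adj t 4 0 x x (by decide))
  generalize c (finProdFinEquiv (0, x)) = c0 at *
  generalize c (finProdFinEquiv (1, x)) = c1 at *
  generalize c (finProdFinEquiv (2, x)) = c2 at *
  generalize c (finProdFinEquiv (3, x)) = c3 at *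
  generalize c (finProdFinEquiv (4, x)) = c4 at *
  omega

lemma tri (t : ℕ) : (gr t).CliqueFree 3 := by
  intro s hs
  rw [SimpleGraph.is3Clique_iff] at hs
  obtain ⟨a, b, c, h1, h2, h3, -⟩ := hs
  unfold gr at h1 h2 h3
  rw [SimpleGraph.comap_adj] at h1 h2 h3
  generalize (finProdFinEquiv.symm a).1 = x at *
  generalize (finProdFinEquiv.symm b).1 = y at *
  generalize (finProdFinEquiv.symm c).1 = z at *
  revert x y z
  decide

lemma edges (t : ℕ) : (gr t).edgeSet.ncard = 5 * t * t := by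
  have := (gr t).sum_degrees_eq_twice_card_edges
  rw [← SimpleGraph.coe_edgeFinset, Set.ncard_coe_finset]
  simp only [deg, sum_const, card_univ, Fintype.card_fin, smul_eq_mul] at this
  nlinarith


theorem result :
    ¬ (∃ α : ℝ, 0 < α ∧ α < 2 ∧ ∃ c : ℝ, 0 < c ∧ ∃ n₀ : ℕ, ∀ n : ℕ, n₀ ≤ n →
      ∀ m : ℕ, c * (n : ℝ) ^ α ≤ (m : ℝ) → m ≤ n.choose 2 →
      ∀ G : SimpleGraph (Fin n), G.Connected → G.edgeSet.ncard = m →
        (∀ H : SimpleGraph (Fin n), H.Connected → H.edgeSet.ncard = m →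
          sSup (spectrum ℝ (G.adjMatrix ℝ)) ≤ sSup (spectrum ℝ (H.adjMatrix ℝ))) →
        ∀ r : ℕ, 2 ≤ r →
          (SimpleGraph.turanGraph n (r - 1)).edgeSet.ncard < m →
          m ≤ (SimpleGraph.turanGraph n r).edgeSet.ncard →
          G.Colorable r) := by
  rintro ⟨α, h0, h2, c, hc, n₀, h⟩
  have ht : Filter.Tendsto (fun x : ℝ => x ^ (-(2 - α))) Filter.atTop (nhds 0) :=
    tendsto_rpow_neg_atTop (by linarith)
  have hev := ht.eventually (gt_mem_nhds (show (0 : ℝ) < 1 / (5 * c) by positivity))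
  obtain ⟨x₀, hx₀⟩ := Filter.eventually_atTop.1 hev
  obtain ⟨t, ht1, ht2, ht3⟩ : ∃ t : ℕ, 0 < t ∧ n₀ ≤ t ∧ x₀ ≤ t :=
    ⟨n₀ + ⌈x₀⌉₊ + 1, by omega, by omega, by
      have := Nat.le_ceil x₀
      have h0 : (0 : ℝ) ≤ n₀ := by positivity
      push_cast; linarith⟩
  have htr : (0 : ℝ) < t := by exact_mod_cast ht1
  have hm : (gr t).edgeSet.ncard ≤ (SimpleGraph.turanGraph (5 * t) 2).edgeSet.ncard := by
    rw [← SimpleGraph.coe_edgeFinset, Set.ncard_coe_finset, ← SimpleGraph.coe_edgeFinset,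
      Set.ncard_coe_finset]
    exact (SimpleGraph.isTuranMaximal_turanGraph (by norm_num)).2 (tri t)
  refine ncol t ht1 (h (5 * t) (by omega) (5 * t * t) ?_ ?_ (gr t) (conn t ht1) (edges t) ?_ 2
    le_rfl ?_ (edges t ▸ hm))
  · have h1 := hx₀ ((5 * t : ℕ) : ℝ) (by push_cast; linarith)
    have hp : (0 : ℝ) < ((5 * t : ℕ) : ℝ) := by positivity
    have h3 : ((5 * t : ℕ) : ℝ) ^ α = ((5 * t : ℕ) : ℝ) ^ (-(2 - α)) * ((5 * t : ℕ) : ℝ) ^ 2 := by
      rw [← Real.rpow_two, ← Real.rpow_add hp]; congr 1; ring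
    rw [h3]
    generalize ((5 * t : ℕ) : ℝ) ^ (-(2 - α)) = y at *
    rw [lt_div_iff₀ (by positivity)] at h1
    push_cast
    nlinarith [mul_pos htr htr]
  · rw [← edges t, ← SimpleGraph.coe_edgeFinset, Set.ncard_coe_finset]
    simpa using (gr t).card_edgeFinset_le_card_choose_two
  · intro H _ hH
    have h1 := low H
    rw [hH] at h1
    refine (up (gr t) (2 * t) (deg t)).trans ?_
    push_cast at h1 ⊢
    nlinarith
  · have : (SimpleGraph.turanGraph (5 * t) (2 - 1)).edgeSet = ∅ := by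
      rw [SimpleGraph.edgeSet_eq_empty]
      ext a b
      simp [SimpleGraph.turanGraph_adj, Nat.mod_one]
    rw [this, Set.ncard_empty]
    positivity

end Pool.Agent.S09534
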