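import Pool.Statements.S09566
import Pool.Agent.H.MP_766cb7_co.Main

set_option autoImplicit false
open Pool Pool.MP_766cb7_co

namespace Pool.Agent.S09566

theorem result :
    ¬ (∀ (α : Type) (S : Set α) (f : Set α → Set α),
      (∀ X, X ⊆ S → f X ⊆ S) →
      (∀ X, X ⊆ S → X ⊆ f X) →
      (∀ X Y, X ⊆ Y → Y ⊆ S → f X ⊆ f Y) →
      (∀ X, X ⊆ S → f (f X) = f X) →
      (∀ X, X ⊆ S → ∀ p ∈ S, ∀ q, q ∈ f (insert p X) → q ∉ f X → p ∈ f (insert q X)) →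
      (∀ Y, Y ⊆ S → ∀ p ∈ f Y, ∃ U : Set α,
          Minimal (fun W : Set α => W ⊆ Y ∧ p ∈ f W) U ∧
          ∀ x ∈ U, x ∉ f (U \ {x})) →
      (∀ Y, Y ⊆ S → ∀ p ∈ S, p ∉ f Y → ∃ V : Set α,
          Maximal (fun W : Set α => Y ⊆ W ∧ W ⊆ S ∧ p ∉ f W) V ∧
          f (insert p V) = S) →
      ∃ M : Matroid α, M.E = S ∧ ∀ X, X ⊆ S → M.closure X = f X) := by
  intro h
  obtain ⟨F, hF, h0, hc, hno⟩ := Pool.Agent.H.MP_766cb7_co.main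
  apply hno
  obtain ⟨M, hE, hM⟩ := h _ Set.univ (Pool.Agent.H.MP_766cb7_co.cl F) (fun _ _ => Set.subset_univ _)
    (fun X _ => Pool.Agent.H.MP_766cb7_co.cl_ext F X)
    (fun X Y hXY _ => Pool.Agent.H.MP_766cb7_co.cl_mono F hXY)
    (fun X _ => Pool.Agent.H.MP_766cb7_co.cl_idem F X)
    (fun X _ p _ q h1 h2 => Pool.Agent.H.MP_766cb7_co.cl_exch hF X p q h1 h2)
    (fun Y _ p hp => Pool.Agent.H.MP_766cb7_co.cl_C hF h0 Y p hp)
    (fun Y _ p _ hp => by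
      simpa using Pool.Agent.H.MP_766cb7_co.cl_H hF hc Y p hp)
  exact ⟨M, hE, fun X => hM X (Set.subset_univ _)⟩

end Pool.Agent.S09566
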