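import Pool.Statements.S09583
import Pool.Agent.H.MP_770436_co.A

set_option autoImplicit false
open Pool Pool.MP_770436_co

namespace Pool.Agent.S09583

/-- For each k ≥ 1 there is C such that, for every finite graph whose maximum over distinct vertex pairs of the number of edge-disjoint connecting paths is exactly k, every complex root z of its chromatic polynomial satisfies ∣z − 1∣ ≤ C. -/
theorem result :
    ∀ k : ℕ, 0 < k → ∃ C : ℝ, ∀ (V : Type) [Fintype V] (G : SimpleGraph V),
      ((∃ u v : V, u ≠ v ∧ ∃ p : Fin k → G.Walk u v,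
          (∀ i, (p i).IsPath) ∧ Pairwise (fun i j => List.Disjoint (p i).edges (p j).edges)) ∧
       (∀ u v : V, u ≠ v → ¬ ∃ p : Fin (k + 1) → G.Walk u v,
          (∀ i, (p i).IsPath) ∧ Pairwise (fun i j => List.Disjoint (p i).edges (p j).edges))) →
      ∀ P : Polynomial ℂ,
        (∀ n : ℕ, P.eval (n : ℂ) = ((Nat.card (G.Coloring (Fin n)) : ℕ) : ℂ)) →
        ∀ z : ℂ, P.IsRoot z → ‖z - 1‖ ≤ C := by
  classical
  refine fun k _ => ⟨2 ^ (k + 1) + 1, fun V _ G hG P hP z hz => ?_⟩
  refine (norm_sub_le _ _).trans (add_le_add (Pool.Agent.H.MP_770436_co.bound G k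
    (fun u v n => ?_) z ?_) norm_one.le)
  · by_contra! c
    exact hG.2 u v n (Pool.Agent.Lib.helper1.Menger.menger (k + 1) c)
  · have : P = ∑ X : Finset G.edgeSet, Polynomial.C ((-1) ^ X.card) *
        Polynomial.X ^ (Fintype.card V - Pool.Agent.H.MP_770436_co.rk G X) := by
      refine Polynomial.eq_of_infinite_eval_eq _ _ (Set.infinite_of_injective_forall_mem
        (f := fun t : ℕ => ((2 ^ t : ℕ) : ℂ))
        (Nat.cast_injective.comp (Nat.pow_right_injective le_rfl)) fun t => ?_)
      rw [Set.mem_ofPred_eq, hP, Pool.Agent.H.MP_770436_co.col]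
      simp [Polynomial.eval_finsetSum]
    rw [this] at hz
    simpa [Polynomial.eval_finsetSum] using hz

end Pool.Agent.S09583
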