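import Pool.Statements.S09587
import Pool.Agent.H.MP_778a07_co.F

set_option autoImplicit false
open Pool Pool.MP_778a07_co

namespace Pool.Agent.S09587

/-- For every k there is a function f such that every finite graph of sim-width at most k (subcubic branch decomposition, crossing induced matchings of size ≤ k) has chromatic number at most f of its clique number. -/
theorem result :
  ∀ k : ℕ, ∃ f : ℕ → ℕ, ∀ (n : ℕ) (G : SimpleGraph (Fin n)),
    (∃ (m : ℕ) (T : SimpleGraph (Fin m)) (L : Fin n → Fin m),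
      T.IsTree ∧ (∀ x, (T.neighborSet x).ncard ≤ 3) ∧ Function.Injective L ∧
      (∀ x, (T.neighborSet x).ncard ≤ 1 ↔ x ∈ Set.range L) ∧
      ∀ u w : Fin m, T.Adj u w → ∀ (t : ℕ) (a b : Fin t → Fin n),
        Function.Injective a → Function.Injective b →
        (∀ i, (T.deleteEdges {s(u, w)}).Reachable u (L (a i))) →
        (∀ i, ¬ (T.deleteEdges {s(u, w)}).Reachable u (L (b i))) →
        (∀ i, G.Adj (a i) (b i)) →
        (∀ i j, i ≠ j → ¬ G.Adj (a i) (a j) ∧ ¬ G.Adj (b i) (b j) ∧ ¬ G.Adj (a i) (b j)) →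
        t ≤ k) →
    G.chromaticNumber ≤ ((f G.cliqueNum : ℕ) : ℕ∞) := by
  intro k
  choose b hb using H.MP_778a07_co.main' (3 * k)
  refine ⟨fun w => b (w + 1), fun n G ⟨m, T, L, hT, hd, hL, _, h⟩ => ?_⟩
  obtain ⟨c, c1, c2⟩ := hb (G.cliqueNum + 1) n m G (H.MP_778a07_co.Rt T L)
    (H.MP_778a07_co.tree_tr hT) (H.MP_778a07_co.tree_wd hT hL hd h) fun K _ q => by
      have hc : G.IsClique ((Finset.range (G.cliqueNum + 1)).image K : Finset (Fin n)) := by
        intro x hx y hy ne
        obtain ⟨s, hs, rfl⟩ := Finset.mem_image.1 hx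
        obtain ⟨t, ht, rfl⟩ := Finset.mem_image.1 hy
        exact q s (Finset.mem_range.1 hs) t (Finset.mem_range.1 ht) fun e => ne (e ▸ rfl)
      have := SimpleGraph.IsClique.card_le_cliqueNum (tc := hc)
      rw [Finset.card_image_of_injOn fun s hs t ht e => not_not.1 fun ne =>
        (q s (Finset.mem_range.1 hs) t (Finset.mem_range.1 ht) ne).ne e, Finset.card_range] at this
      omega
  exact SimpleGraph.Colorable.chromaticNumber_le ⟨SimpleGraph.Coloring.mk
    (fun x => ⟨c x, c1 x trivial⟩) fun {x y} e z => c2 x trivial y trivial e (congrArg Fin.val z)⟩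

end Pool.Agent.S09587
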