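import Pool.Statements.S09613
import Pool.Agent.H.MP_78b1ee_co.Main

set_option autoImplicit false
open Pool Pool.MP_78b1ee_co

namespace Pool.Agent.S09613

/-- For every N there is a list of distinct rationals of length at least N with no two adjacent order-isomorphic blocks of length at least 2, such that inserting any new value at any position creates such a pair. -/
theorem result :
    ∀ N : ℕ, ∃ w : List ℚ, N ≤ w.length ∧ w.Nodup ∧
      (¬ ∃ i ℓ : ℕ, 2 ≤ ℓ ∧ i + 2 * ℓ ≤ w.length ∧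
          ∀ a < ℓ, ∀ b < ℓ,
            (w.getD (i + a) 0 < w.getD (i + b) 0 ↔
              w.getD (i + ℓ + a) 0 < w.getD (i + ℓ + b) 0)) ∧
      ∀ p : ℕ, p ≤ w.length → ∀ x : ℚ, x ∉ w →
        ∃ i ℓ : ℕ, 2 ≤ ℓ ∧ i + 2 * ℓ ≤ w.length + 1 ∧
          ∀ a < ℓ, ∀ b < ℓ,
            ((w.take p ++ x :: w.drop p).getD (i + a) 0 <
                (w.take p ++ x :: w.drop p).getD (i + b) 0 ↔
              (w.take p ++ x :: w.drop p).getD (i + ℓ + a) 0 <
                (w.take p ++ x :: w.drop p).getD (i + ℓ + b) 0) := by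
  intro N
  have hn : 9 ≤ N + 9 := by omega
  have hN : N ≤ 2 ^ (N + 9) - 11 := by
    have h1 : N < 2 ^ N := Nat.lt_two_pow_self
    have h2 : 2 ^ (N + 9) = 2 ^ N * 512 := by rw [pow_add]; norm_num
    omega
  generalize N + 9 = n at hn hN
  have len : ((List.range (2 ^ n - 11)).map (Pool.Agent.H.MP_78b1ee_co.val n)).length
      = 2 ^ n - 11 := by simp
  refine ⟨(List.range (2 ^ n - 11)).map (Pool.Agent.H.MP_78b1ee_co.val n), by omega, ?_, ?_, ?_⟩
  · refine List.Nodup.map_on ?_ List.nodup_range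
    intro a ha b hb h
    exact Pool.Agent.H.MP_78b1ee_co.val_inj hn (List.mem_range.1 ha) (List.mem_range.1 hb) h
  · rintro ⟨i, l, h1, h2, h3⟩
    rw [len] at h2
    apply Pool.Agent.H.MP_78b1ee_co.nosq hn i l h1 h2
    intro a ha b hb
    have := h3 a ha b hb
    rwa [Pool.Agent.H.MP_78b1ee_co.getD_w _ _ _ (by omega),
      Pool.Agent.H.MP_78b1ee_co.getD_w _ _ _ (by omega),
      Pool.Agent.H.MP_78b1ee_co.getD_w _ _ _ (by omega),
      Pool.Agent.H.MP_78b1ee_co.getD_w _ _ _ (by omega)] at this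
  · intro p hp x hx
    have tr : ∀ u, u ≤ 2 ^ n - 11 →
        (((List.range (2 ^ n - 11)).map (Pool.Agent.H.MP_78b1ee_co.val n)).take p ++ x ::
          ((List.range (2 ^ n - 11)).map (Pool.Agent.H.MP_78b1ee_co.val n)).drop p).getD u 0 =
          Pool.Agent.H.MP_78b1ee_co.ins p x (Pool.Agent.H.MP_78b1ee_co.val n) u := by
      intro u hu
      rw [Pool.Agent.H.MP_78b1ee_co.getD_ins _ _ hp]
      rw [len] at hp
      unfold Pool.Agent.H.MP_78b1ee_co.ins
      split_ifs
      · exact Pool.Agent.H.MP_78b1ee_co.getD_w _ _ _ (by omega)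
      · rfl
      · exact Pool.Agent.H.MP_78b1ee_co.getD_w _ _ _ (by omega)
    rw [len] at hp ⊢
    obtain ⟨i, l, h1, h2, h3⟩ := Pool.Agent.H.MP_78b1ee_co.block hn p hp x (fun u hu h =>
      hx (List.mem_map.2 ⟨u, List.mem_range.2 hu, h.symm⟩))
    refine ⟨i, l, h1, h2, fun a ha b hb => ?_⟩
    rw [tr _ (by omega), tr _ (by omega), tr _ (by omega), tr _ (by omega)]
    exact h3 a ha b hb

end Pool.Agent.S09613
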