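import Pool.Statements.S09632
import Pool.Agent.H.MP_79efce_co.B

set_option autoImplicit false
open Pool Pool.MP_79efce_co

namespace Pool.Agent.S09632

theorem result :
    ¬ (∀ (k : ℕ) (F : SimpleGraph (Fin k)) (L : Sym2 (Fin k) → ℕ),
      F.IsAcyclic → Set.InjOn L F.edgeSet →
      (∀ ε : ℝ, 0 < ε → ∃ N : ℕ, ∀ n : ℕ, N ≤ n →
        ∀ (G : SimpleGraph (Fin n)) (M : Sym2 (Fin n) → ℕ), Set.InjOn M G.edgeSet →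
          (¬ ∃ φ : Fin k ↪ Fin n, (∀ a b, F.Adj a b → G.Adj (φ a) (φ b)) ∧
              ∀ e ∈ F.edgeSet, ∀ f ∈ F.edgeSet, L e < L f →
                M (Sym2.map (⇑φ) e) < M (Sym2.map (⇑φ) f)) →
          (G.edgeSet.ncard : ℝ) ≤ ε * (n : ℝ) ^ 2) →
      ∃ (c : ℕ) (C : ℝ), ∀ n : ℕ, 2 ≤ n →
        ∀ (G : SimpleGraph (Fin n)) (M : Sym2 (Fin n) → ℕ), Set.InjOn M G.edgeSet →
          (¬ ∃ φ : Fin k ↪ Fin n, (∀ a b, F.Adj a b → G.Adj (φ a) (φ b)) ∧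
              ∀ e ∈ F.edgeSet, ∀ f ∈ F.edgeSet, L e < L f →
                M (Sym2.map (⇑φ) e) < M (Sym2.map (⇑φ) f)) →
          (G.edgeSet.ncard : ℝ) ≤ C * (n : ℝ) * (Real.log (n : ℝ)) ^ c) := by
  intro h
  have tr : ∀ {n : ℕ} {G : SimpleGraph (Fin n)} {M : Sym2 (Fin n) → ℕ},
      (∃ φ : Fin 7 ↪ Fin n, (∀ a b, Agent.H.EO.F.Adj a b → G.Adj (φ a) (φ b)) ∧
        ∀ e ∈ Agent.H.EO.F.edgeSet, ∀ f ∈ Agent.H.EO.F.edgeSet,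
          Agent.H.EO.lab e < Agent.H.EO.lab f → M (Sym2.map (⇑φ) e) < M (Sym2.map (⇑φ) f)) ↔
        Agent.H.EO.Has G M :=
    ⟨fun ⟨φ, h⟩ => ⟨φ, φ.injective, h⟩, fun ⟨φ, i, h⟩ => ⟨⟨φ, i⟩, h⟩⟩
  obtain ⟨c, C, k⟩ := h 7 _ _ Agent.H.EO.F_acyc Agent.H.EO.lab_inj fun ε hε => by
    obtain ⟨N, hN⟩ := Agent.H.EO.upper' ε hε
    exact ⟨N, fun n hn G M hM q => by
      simpa using hN (Fin n) (by simpa using hn) G M hM fun z => q (tr.2 z)⟩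
  obtain ⟨n, -, n2, G, M, hM, q, lt⟩ := Agent.H.EO.lower C c 0
  exact (k n n2 G M hM fun z => q (tr.1 z)).not_gt lt

end Pool.Agent.S09632
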