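import Pool.Statements.S09655
import Pool.Agent.H.BS.L

set_option autoImplicit false
open Pool Pool.MP_7ae277_co

namespace Pool.Agent.S09655

theorem result :
    ∀ k : ℕ, ∃ d n : ℕ, 0 < d ∧
      ∀ c : (Fin n → ℤ) → Fin k,
        ∃ x v : Fin n → ℤ, (∑ i, |v i|) = (d : ℤ) ∧
          c (x - v) = c x ∧ c x = c (x + v) := by
  intro k
  obtain ⟨d, n, hd, h⟩ := H.BS.box 1 1 k
  refine ⟨d, n, hd, fun c => ?_⟩
  obtain ⟨u, -, h2, x, h3⟩ := h c
  exact ⟨x, u 0, h2 0, by simpa [sub_eq_add_neg] using h3 (fun _ => -1) (by simp),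
    by simpa using (h3 (fun _ => 1) (by simp)).symm⟩

end Pool.Agent.S09655
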