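import Pool.Statements.S09671

set_option autoImplicit false
open Pool Pool.MP_7c2ef8_co

namespace Pool.Agent.S09671

open Finset
open Classical

def bad (q n A : ℕ) : Prop :=
  ∃ z : ℤ, (q : ℤ) * (2 * A - 1) < 2 * z * 4 ^ n ∧ 2 * z * 4 ^ n < q * (2 * A + 3)

section avoid
variable {ι : Type} (I : ℕ → Finset ι) (q t : ι → ℕ)

noncomputable def S : ℕ → Finset ℕ
  | 0 => {0}
  | n + 1 => (range (4 ^ (n + 1))).filter (fun A => A / 4 ∈ S n ∧ ∀ i ∈ I (n + 1), ¬ bad (q i) (n + 1) A)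

lemma S_lt (n A : ℕ) (h : A ∈ S I q n) : A < 4 ^ n := by
  cases n with
  | zero => simp [S] at h; simp [h]
  | succ n => exact mem_range.1 (mem_filter.1 h).1

lemma S_anc (j : ℕ) : ∀ m A, A ∈ S I q (m + j) → A / 4 ^ j ∈ S I q m := by
  induction j with
  | zero => intro m A h; simpa using h
  | succ j ih =>
    intro m A h
    have := ih m _ (mem_filter.1 h).2.1
    rwa [Nat.div_div_eq_div_mul, ← pow_succ'] at this

lemma bad_card (P : Finset ℕ) (q m t : ℕ) (hq0 : 0 < q) (hq : q ≤ 4 ^ m) (X : Finset ℕ)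
    (hX : ∀ A ∈ X, A / 4 ^ t ∈ P ∧ bad q (m + t) A) : X.card ≤ 4 * P.card := by
  choose! z hz using fun A (h : A ∈ X) => (hX A h).2
  have := card_le_card_of_injOn (s := X) (t := P ×ˢ (range 2 ×ˢ range 2))
    (fun A => (A / 4 ^ t, (A % 2, (z A % 2).toNat))) (fun A hA => by
      simp only [coe_product, Set.mem_prod, mem_coe, mem_range]
      exact ⟨(hX A hA).1, by omega, by omega⟩) (by
      have key : ∀ A ∈ X, ∀ A' ∈ X, A / 4 ^ t = A' / 4 ^ t → ¬ z A + 2 ≤ z A' := by
        intro A hA A' hA' e h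
        have h1 := (hz A hA).1
        have h2 := (hz A' hA').2
        have hT : 0 < 4 ^ t := by positivity
        have a1 := Nat.div_add_mod A (4 ^ t)
        have a2 := Nat.div_add_mod A' (4 ^ t)
        have a3 := Nat.mod_lt A' hT
        have a4 : A' + 1 ≤ A + 4 ^ t := by rw [e] at a1; omega
        have a5 : (A' : ℤ) + 1 ≤ A + 4 ^ t := by exact_mod_cast a4
        have hq' : (q : ℤ) ≤ 4 ^ m := by exact_mod_cast hq
        have hq0' : (0 : ℤ) < q := by exact_mod_cast hq0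
        have hT' : (1 : ℤ) ≤ 4 ^ t := by exact_mod_cast hT
        rw [pow_add] at h1 h2
        have b1 : (q : ℤ) * 4 ^ t ≤ 4 ^ m * 4 ^ t := by gcongr
        have b2 : (z A + 2) * (4 ^ m * 4 ^ t) ≤ z A' * (4 ^ m * 4 ^ t) := by gcongr
        have b3 : (q : ℤ) * (A' + 1) ≤ q * (A + 4 ^ t) := by gcongr
        have b4 : (q : ℤ) * 1 ≤ q * 4 ^ t := by gcongr
        nlinarith
      intro A hA A' hA' e
      simp only [Prod.mk.injEq] at e
      have k1 := key A hA A' hA' e.1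
      have k2 := key A' hA' A hA e.1.symm
      have ez : z A = z A' := by omega
      have hq0' : (0 : ℤ) < q := by exact_mod_cast hq0
      have h1 := (hz A hA)
      have h2 := (hz A' hA')
      rw [ez] at h1
      have c1 : (2 * A - 1 : ℤ) < 2 * A' + 3 := lt_of_mul_lt_mul_left (h1.1.trans h2.2) hq0'.le
      have c2 : (2 * A' - 1 : ℤ) < 2 * A + 3 := lt_of_mul_lt_mul_left (h2.1.trans h1.2) hq0'.le
      omega)
  simp only [card_product, card_range] at this
  omega

lemma grow (h1 : ∀ n, ∀ i ∈ I n, 1 ≤ t i ∧ t i ≤ n ∧ 0 < q i ∧ q i ≤ 4 ^ (n - t i))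
    (h2 : ∀ n, ∑ i ∈ I n, (1 / 3 : ℝ) ^ t i ≤ 1 / 12) (n : ℕ) :
    3 * (S I q n).card ≤ (S I q (n + 1)).card := by
  induction n using Nat.strong_induction_on with
  | _ n ih =>
  have pw : ∀ j m, m + j ≤ n → 3 ^ j * (S I q m).card ≤ (S I q (m + j)).card := by
    intro j
    induction j with
    | zero => intro m _; simp
    | succ j ihj =>
      intro m hm
      have a1 := ihj m (by omega)
      have a2 := ih (m + j) (by omega)
      rw [pow_succ', mul_assoc, ← add_assoc]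
      omega
  set C := (range (4 ^ (n + 1))).filter (fun A => A / 4 ∈ S I q n) with hC
  have c1 : 4 * (S I q n).card ≤ C.card := by
    have := card_le_card_of_injOn (s := S I q n ×ˢ range 4) (t := C) (fun p => 4 * p.1 + p.2)
      (fun p hp => by
        simp only [coe_product, Set.mem_prod, mem_coe, mem_range] at hp
        have := S_lt I q n _ hp.1
        refine mem_coe.2 (mem_filter.2 ⟨mem_range.2 (show 4 * p.1 + p.2 < 4 ^ (n + 1) by rw [pow_succ]; omega), ?_⟩)
        beta_reduce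
        rw [show (4 * p.1 + p.2) / 4 = p.1 by omega]; exact hp.1)
      (fun p hp p' hp' e => by
        simp only [coe_product, Set.mem_prod, mem_coe, mem_range] at hp hp' e
        exact Prod.ext (by omega) (by omega))
    simp only [card_product, card_range] at this
    omega
  have c2 : C ⊆ S I q (n + 1) ∪ (I (n + 1)).biUnion (fun i => C.filter (fun A => bad (q i) (n + 1) A)) := by
    intro A hA
    by_cases h : ∀ i ∈ I (n + 1), ¬ bad (q i) (n + 1) A
    · exact mem_union_left _ (mem_filter.2 ⟨(mem_filter.1 hA).1, (mem_filter.1 hA).2, h⟩)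
    · push Not at h
      obtain ⟨i, hi, hb⟩ := h
      exact mem_union_right _ (mem_biUnion.2 ⟨i, hi, mem_filter.2 ⟨hA, hb⟩⟩)
  have c3 : ∀ i ∈ I (n + 1), ((C.filter (fun A => bad (q i) (n + 1) A)).card : ℝ) ≤
      12 * (S I q n).card * (1 / 3 : ℝ) ^ t i := by
    intro i hi
    obtain ⟨a1, a2, a3, a4⟩ := h1 _ i hi
    obtain ⟨j, hj⟩ : ∃ j, t i = j + 1 := ⟨t i - 1, by omega⟩
    obtain ⟨m, hm⟩ : ∃ m, n = m + j := ⟨n - j, by omega⟩
    rw [show n + 1 - t i = m by omega] at a4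
    have b1 := bad_card (S I q m) (q i) m (j + 1) a3 a4 (C.filter (fun A => bad (q i) (n + 1) A))
      (fun A hA => by
        obtain ⟨d1, d2⟩ := mem_filter.1 hA
        refine ⟨?_, by rwa [← add_assoc, ← hm]⟩
        have := S_anc I q j m _ (hm ▸ (mem_filter.1 d1).2)
        rwa [Nat.div_div_eq_div_mul, ← pow_succ'] at this)
    have b2 := pw j m hm.ge
    rw [← hm] at b2
    have b1' : ((C.filter (fun A => bad (q i) (n + 1) A)).card : ℝ) ≤ 4 * (S I q m).card := by
      exact_mod_cast b1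
    have b2' : (3 : ℝ) ^ j * (S I q m).card ≤ (S I q n).card := by exact_mod_cast b2
    rw [hj, one_div, inv_pow, ← div_eq_mul_inv, le_div_iff₀ (by positivity), pow_succ]
    have : (0 : ℝ) ≤ 3 ^ j := by positivity
    nlinarith
  have c4 : C.card ≤ (S I q (n + 1)).card + ∑ i ∈ I (n + 1), (C.filter (fun A => bad (q i) (n + 1) A)).card :=
    (card_le_card c2).trans ((card_union_le _ _).trans (Nat.add_le_add_left card_biUnion_le _))
  have c5 := sum_le_sum c3
  rw [← mul_sum] at c5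
  have c6 := mul_le_mul_of_nonneg_left (h2 (n + 1)) (show (0 : ℝ) ≤ 12 * (S I q n).card by positivity)
  have c7 : (4 : ℝ) * (S I q n).card ≤ (S I q (n + 1)).card +
      ∑ i ∈ I (n + 1), ((C.filter (fun A => bad (q i) (n + 1) A)).card : ℝ) := by
    exact_mod_cast c1.trans c4
  have : (3 : ℝ) * (S I q n).card ≤ (S I q (n + 1)).card := by linarith
  exact_mod_cast this

theorem avoid (h1 : ∀ n, ∀ i ∈ I n, 1 ≤ t i ∧ t i ≤ n ∧ 0 < q i ∧ q i ≤ 4 ^ (n - t i))
    (h2 : ∀ n, ∑ i ∈ I n, (1 / 3 : ℝ) ^ t i ≤ 1 / 12) :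
    ∃ α : ℝ, ∀ n, ∀ i ∈ I n, ∀ z : ℤ, (q i : ℝ) / (2 * 4 ^ n) ≤ |q i * α - z| := by
  have ne : ∀ n, (S I q n).Nonempty := by
    intro n
    induction n with
    | zero => simp [S]
    | succ n ih =>
      have := grow I q t h1 h2 n
      have := card_pos.2 ih
      exact card_pos.1 (by omega)
  let F : ℕ → Set ℝ := fun N => Set.Icc 0 1 ∩
    ⋂ n ∈ Set.Iic N, ⋂ i ∈ I n, ⋂ z : ℤ, {α | (q i : ℝ) / (2 * 4 ^ n) ≤ |q i * α - z|}
  have cl : ∀ N, IsClosed (F N) := fun N => isClosed_Icc.inter (isClosed_biInter fun n _ =>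
    isClosed_biInter fun i _ => isClosed_iInter fun z => isClosed_le continuous_const (by fun_prop))
  obtain ⟨α, hα⟩ := IsCompact.nonempty_iInter_of_sequence_nonempty_isCompact_isClosed F
    (fun N x hx => ⟨hx.1, by
      have := hx.2
      simp only [Set.mem_iInter] at this ⊢
      exact fun n hn => this n (le_trans hn (Nat.le_succ _))⟩)
    (fun N => by
      obtain ⟨A, hA⟩ := ne N
      have hlt : (A : ℝ) < 4 ^ N := by exact_mod_cast S_lt I q N A hA
      refine ⟨A / 4 ^ N, ⟨by positivity, by rw [div_le_one (by positivity)]; exact hlt.le⟩, ?_⟩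
      simp only [Set.mem_iInter, Set.mem_ofPred_eq]
      intro n hn i hi z
      obtain ⟨j, rfl⟩ : ∃ j, N = n + j := ⟨N - n, by have : n ≤ N := hn; omega⟩
      have hB := S_anc I q j n A hA
      obtain ⟨a1, a2, a3, -⟩ := h1 n i hi
      obtain ⟨n, rfl⟩ : ∃ m, n = m + 1 := ⟨n - 1, by omega⟩
      have nb := (mem_filter.1 hB).2.2 i hi
      set B := A / 4 ^ j with hBd
      have hT : 0 < 4 ^ j := by positivity
      have d1 : B * 4 ^ j ≤ A := Nat.div_mul_le_self _ _
      have d2 : A < (B + 1) * 4 ^ j := by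
        have := Nat.div_add_mod A (4 ^ j)
        have := Nat.mod_lt A hT
        nlinarith
      have e1 : (B : ℝ) ≤ A / 4 ^ j := by
        rw [le_div_iff₀ (by positivity)]; exact_mod_cast d1
      have e2 : (A : ℝ) / 4 ^ j ≤ B + 1 := by
        rw [div_le_iff₀ (by positivity)]; exact_mod_cast d2.le
      by_contra hc
      apply nb
      rw [not_le, abs_lt] at hc
      have hq : (0 : ℝ) < q i := by exact_mod_cast a3
      have hP : (0 : ℝ) < 4 ^ (n + 1) := by positivity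
      have e3 : (A : ℝ) / 4 ^ (n + 1 + j) = A / 4 ^ j / 4 ^ (n + 1) := by
        rw [pow_add]; field_simp
      rw [e3] at hc
      set x := (A : ℝ) / 4 ^ j
      set P : ℝ := 4 ^ (n + 1) with hPd
      have f1 := mul_lt_mul_of_pos_right hc.1 (show 0 < 2 * P by positivity)
      have f2 := mul_lt_mul_of_pos_right hc.2 (show 0 < 2 * P by positivity)
      have g1 : (q i : ℝ) / (2 * P) * (2 * P) = q i := by field_simp
      have g2 : ((q i : ℝ) * (x / P) - z) * (2 * P) = 2 * q i * x - 2 * z * P := by field_simp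
      rw [neg_mul, g1, g2] at f1
      rw [g1, g2] at f2
      have k1 := mul_le_mul_of_nonneg_left e1 hq.le
      have k2 := mul_le_mul_of_nonneg_left e2 hq.le
      refine ⟨z, ?_, ?_⟩
      · have : (q i : ℝ) * (2 * B - 1) < 2 * z * 4 ^ (n + 1) := by linarith
        exact_mod_cast this
      · have : 2 * z * 4 ^ (n + 1) < (q i : ℝ) * (2 * B + 3) := by linarith
        exact_mod_cast this)
    (isCompact_Icc.of_isClosed_subset (cl 0) Set.inter_subset_left) cl
  refine ⟨α, fun n i hi z => ?_⟩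
  have := (Set.mem_iInter.1 hα n).2
  simp only [Set.mem_iInter, Set.mem_ofPred_eq] at this
  exact this n (le_refl n) i hi z

end avoid

lemma lac (K : Set ℕ) (δ : ℝ) (hδ : 0 < δ) (h : ∀ a ∈ K, ∀ b ∈ K, a < b → (1 + δ) * (a : ℝ) < b)
    (x : ℝ) (F : Finset ℕ) : (∀ a ∈ F, a ∈ K ∧ x ≤ a) → ∀ y : ℝ, x ≤ (1 + δ) * y →
      (∀ a ∈ F, (a : ℝ) ≤ y) → x * (1 + δ) ^ F.card ≤ (1 + δ) * y := by
  induction F using Finset.induction_on_max with
  | empty => intro _ y hy _; simpa using hy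
  | insert b F hb ih =>
    intro h1 y hy h2
    have hbF : b ∉ F := fun hh => lt_irrefl _ (hb b hh)
    have b1 := h1 b (mem_insert_self _ _)
    have b2 := h2 b (mem_insert_self _ _)
    have hp : 0 < 1 + δ := by linarith
    have := ih (fun a ha => h1 a (mem_insert_of_mem ha)) (b / (1 + δ))
      (by rw [mul_div_cancel₀ _ hp.ne']; exact b1.2)
      (fun a ha => by
        rw [le_div_iff₀ hp, mul_comm]
        exact (h a (h1 a (mem_insert_of_mem ha)).1 b b1.1 (hb a ha)).le)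
    rw [mul_div_cancel₀ _ hp.ne'] at this
    rw [card_insert_of_notMem hbF, pow_succ, ← mul_assoc, mul_comm]
    exact mul_le_mul_of_nonneg_left (this.trans b2) hp.le

lemma lacL (K : Set ℕ) (h0 : ∀ k ∈ K, 0 < k) (δ : ℝ) (hδ : 0 < δ)
    (h : ∀ a ∈ K, ∀ b ∈ K, a < b → (1 + δ) * (a : ℝ) < b) :
    ∃ L : ℕ, ∀ F : Finset ℕ, (∀ a ∈ F, a ∈ K) → (∀ a ∈ F, ∀ b ∈ F, b ≤ 4 * a) → F.card ≤ L := by
  obtain ⟨L, hL⟩ := pow_unbounded_of_one_lt (4 * (1 + δ)) (show 1 < 1 + δ by linarith)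
  refine ⟨L, fun F h1 h2 => ?_⟩
  rcases F.eq_empty_or_nonempty with rfl | hne
  · simp
  have hm := F.min'_mem hne
  have hp : (0 : ℝ) < F.min' hne := by exact_mod_cast h0 _ (h1 _ hm)
  have := lac K δ hδ h (F.min' hne) F
    (fun a ha => ⟨h1 a ha, by exact_mod_cast F.min'_le a ha⟩) (4 * F.min' hne) (by nlinarith)
    (fun a ha => by exact_mod_cast h2 _ hm a ha)
  have h3 : (1 + δ) ^ F.card ≤ 4 * (1 + δ) := by
    apply le_of_mul_le_mul_left _ hp
    linarith
  exact ((pow_lt_pow_iff_right₀ (show 1 < 1 + δ by linarith)).1 (h3.trans_lt hL)).le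

def J (r : ℕ) : ℕ := Nat.log 2 (r - 1) - 1

lemma J_lt (r : ℕ) : r < 2 ^ (J r + 2) + 1 := by
  have h1 := Nat.lt_pow_succ_log_self (b := 2) (by norm_num) (r - 1)
  have h2 : 2 ^ (Nat.log 2 (r - 1)).succ ≤ 2 ^ (J r + 2) :=
    Nat.pow_le_pow_right (by norm_num) (by unfold J; omega)
  omega

lemma J_le (r : ℕ) (hr : 3 ≤ r) : 2 ^ (J r + 1) + 1 ≤ r := by
  have h1 := Nat.pow_log_le_self 2 (show r - 1 ≠ 0 by omega)
  have h2 : 1 ≤ Nat.log 2 (r - 1) := Nat.le_log_of_pow_le (by norm_num) (by omega)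
  have : J r + 1 = Nat.log 2 (r - 1) := by unfold J; omega
  rw [this]; omega

lemma sumJ (R : Finset ℕ) : ∑ r ∈ R, (1 / 3 : ℝ) ^ J r ≤ 15 := by
  rw [sum_comp (fun j => (1 / 3 : ℝ) ^ j) J]
  have h1 : ∀ j ∈ R.image J, (R.filter (fun r => J r = j)).card • (1 / 3 : ℝ) ^ j ≤ 5 * (2 / 3) ^ j := by
    intro j _
    have : (R.filter (fun r => J r = j)).card ≤ 2 ^ (j + 2) + 1 := by
      refine (card_le_card (t := range (2 ^ (j + 2) + 1)) (fun r hr => ?_)).trans (by simp)
      rw [← (mem_filter.1 hr).2]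
      exact mem_range.2 (J_lt r)
    have h2 : ((R.filter (fun r => J r = j)).card : ℝ) ≤ 5 * 2 ^ j := by
      have : (R.filter (fun r => J r = j)).card ≤ 5 * 2 ^ j := by
        have : 0 < 2 ^ j := by positivity
        rw [pow_add] at *; omega
      exact_mod_cast this
    rw [nsmul_eq_mul, show (2 / 3 : ℝ) = 2 * (1 / 3) by norm_num, mul_pow, ← mul_assoc]
    exact mul_le_mul_of_nonneg_right h2 (by positivity)
  refine (sum_le_sum h1).trans ?_
  rw [← mul_sum]
  have h3 := (summable_geometric_of_lt_one (r := (2 / 3 : ℝ)) (by norm_num) (by norm_num)).sum_le_tsum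
    (R.image J) (fun _ _ => by positivity)
  rw [tsum_geometric_of_lt_one (by norm_num) (by norm_num)] at h3
  norm_num at h3 ⊢
  linarith

def Q (p : ℕ × ℕ) : ℕ := if p.1 ≤ 2 then p.1 * p.2 else 6 * p.1 * p.2 ^ 3

lemma shrink (η : ℝ) (hη : 5 * η ≤ 1) (j : ℕ) : ∀ x : ℝ, (∀ i ≤ j, ∃ z : ℤ, |4 ^ i * x - z| < η) →
    ∃ z : ℤ, |x - z| < η / 4 ^ j := by
  induction j with
  | zero => intro x h; simpa using h 0 le_rfl
  | succ j ih =>
    intro x h
    obtain ⟨z', hz'⟩ := ih (4 * x) (fun i hi => by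
      have := h (i + 1) (by omega)
      rwa [pow_succ, mul_assoc] at this)
    obtain ⟨z, hz⟩ := h 0 (by omega)
    rw [pow_zero, one_mul] at hz
    have h0 : 0 < η := (abs_nonneg _).trans_lt hz
    have h1 : η / 4 ^ j ≤ η := div_le_self h0.le (one_le_pow₀ (by norm_num))
    have e : z' = 4 * z := by
      rw [abs_lt] at hz hz'
      have a1 : (z' : ℝ) - 4 * z < 1 := by linarith
      have a2 : (-1 : ℝ) < z' - 4 * z := by linarith
      have a3 : z' - 4 * z < 1 := by exact_mod_cast a1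
      have a4 : -1 < z' - 4 * z := by exact_mod_cast a2
      omega
    refine ⟨z, ?_⟩
    rw [e] at hz'
    push_cast at hz'
    rw [← mul_sub, abs_mul, abs_of_pos (show (0 : ℝ) < 4 by norm_num)] at hz'
    rw [pow_succ, ← div_div]
    linarith

lemma near (M : ℕ) (hM : 0 < M) (x y : ℝ) (h : ((⌊M * x⌋ : ℤ) : ZMod M) = ((⌊M * y⌋ : ℤ) : ZMod M)) :
    ∃ z : ℤ, |y - x - z| < 1 / M := by
  obtain ⟨z, hz⟩ := (ZMod.intCast_eq_intCast_iff_dvd_sub _ _ _).1 h
  refine ⟨z, ?_⟩
  have hM' : (0 : ℝ) < M := by exact_mod_cast hM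
  have e : (⌊M * y⌋ : ℝ) - ⌊M * x⌋ = M * z := by exact_mod_cast hz
  have a1 := Int.floor_le (M * x)
  have a2 := Int.floor_le (M * y)
  have a3 := Int.lt_floor_add_one (M * x)
  have a4 := Int.lt_floor_add_one (M * y)
  rw [lt_div_iff₀ hM', ← abs_of_pos hM', ← abs_mul, abs_lt]
  constructor <;> nlinarith

theorem result :
    ∀ K : Set ℕ, (∀ k ∈ K, 0 < k) →
      (∃ δ : ℝ, 0 < δ ∧ ∀ a ∈ K, ∀ b ∈ K, a < b → (1 + δ) * (a : ℝ) < (b : ℝ)) →
      ∃ N : ℕ, ∃ c : ℤ → Fin N,
        ∀ k ∈ K, ∀ a : ℤ, ∀ n : ℕ, 0 < n →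
          ∃ i : ℕ, i < n ∧
            c (a + (i : ℤ) * (k : ℤ)) ≠ c (a + ((n : ℤ) + (i : ℤ)) * (k : ℤ)) := by
  rintro K h0 ⟨δ, hδ, h⟩
  obtain ⟨L, hL⟩ := lacL K h0 δ hδ h
  set s := 180 * L + 1 with hs
  have Qpos : ∀ p : ℕ × ℕ, 0 < p.1 → 0 < p.2 → p.1 ≤ Q p ∧ p.2 ≤ Q p := by
    rintro ⟨r, k⟩ h1 h2
    unfold Q
    dsimp only at *
    split_ifs
    · exact ⟨Nat.le_mul_of_pos_right _ h2, Nat.le_mul_of_pos_left _ h1⟩
    · have : k ≤ k ^ 3 := Nat.le_self_pow (by norm_num) k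
      constructor <;> nlinarith
  let I : ℕ → Finset (ℕ × ℕ) := fun n => (range (4 ^ n + 1) ×ˢ range (4 ^ n + 1)).filter
    (fun p => 0 < p.1 ∧ p.2 ∈ K ∧ Nat.clog 4 (Q p) + (s + J p.1) = n)
  obtain ⟨α, hα⟩ := avoid I Q (fun p => s + J p.1) (fun n p hp => by
      obtain ⟨-, a1, a2, a3⟩ := mem_filter.1 hp
      refine ⟨by omega, by omega, a1.trans_le (Qpos p a1 (h0 _ a2)).1, ?_⟩
      rw [show n - (s + J p.1) = Nat.clog 4 (Q p) by omega]
      exact Nat.le_pow_clog (by norm_num) _)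
    (fun n => by
      have e : ∑ p ∈ I n, (1 / 3 : ℝ) ^ (s + J p.1) ≤
          ∑ r ∈ range (4 ^ n + 1), L * (1 / 3 : ℝ) ^ (s + J r) := by
        simp only [I, sum_filter, sum_product]
        apply sum_le_sum
        intro r _
        rw [← sum_filter, sum_const, nsmul_eq_mul]
        refine mul_le_mul_of_nonneg_right ?_ (by positivity)
        refine Nat.cast_le.2 (hL _ (fun a ha => (mem_filter.1 ha).2.2.1) (fun a ha b hb => ?_))
        obtain ⟨-, a1, a2, a3⟩ := mem_filter.1 ha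
        obtain ⟨-, -, b2, b3⟩ := mem_filter.1 hb
        have c1 : Q (r, b) ≤ 4 ^ Nat.clog 4 (Q (r, a)) := by
          rw [show Nat.clog 4 (Q (r, a)) = Nat.clog 4 (Q (r, b)) by omega]
          exact Nat.le_pow_clog (by norm_num) _
        have c2 : 4 ^ Nat.clog 4 (Q (r, a)) ≤ 4 * Q (r, a) := by
          have qa := a1.trans_le (Qpos (r, a) a1 (h0 _ a2)).1
          by_cases h1 : 1 < Q (r, a)
          · have := Nat.pow_pred_clog_lt_self (b := 4) (by norm_num) h1
            have hp := Nat.clog_pos (b := 4) (by norm_num) h1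
            rw [show Nat.clog 4 (Q (r, a)) = (Nat.clog 4 (Q (r, a))).pred + 1 by
              rw [Nat.pred_eq_sub_one]; omega, pow_succ]
            omega
          · rw [Nat.clog_of_right_le_one (not_lt.1 h1)]; omega
        have c3 := c1.trans c2
        unfold Q at c3
        dsimp only at c3
        by_contra hc
        have hc' : 4 * a + 1 ≤ b := by omega
        split_ifs at c3
        · nlinarith
        · have d1 := Nat.pow_le_pow_left hc' 3
          have d2 : b ^ 3 ≤ 4 * a ^ 3 := by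
            apply Nat.le_of_mul_le_mul_left (c := 6 * r) _ (by omega)
            linarith
          nlinarith [Nat.zero_le (a ^ 3), Nat.zero_le (a ^ 2)]
      refine e.trans ?_
      simp only [pow_add, ← mul_assoc]
      rw [← mul_sum]
      have a1 := sumJ (range (4 ^ n + 1))
      have a2 : (180 * L : ℝ) ≤ 3 ^ s := by
        have : 180 * L ≤ 3 ^ s := by
          have := Nat.lt_pow_self (n := s) (show 1 < 3 by norm_num)
          omega
        exact_mod_cast this
      have a3 : (L : ℝ) * (1 / 3) ^ s ≤ 1 / 180 := by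
        rw [one_div, inv_pow, ← div_eq_mul_inv, div_le_iff₀ (by positivity)]
        linarith
      have a4 := mul_le_mul a3 a1 (by positivity) (by norm_num)
      linarith)
  have far : ∀ r, 0 < r → ∀ k ∈ K, ∀ z : ℤ, 1 / (8 * 4 ^ s) / 4 ^ J r ≤ |Q (r, k) * α - z| := by
    intro r hr k hk z
    obtain ⟨q1, q2⟩ := Qpos (r, k) hr (h0 k hk)
    have q3 : Q (r, k) ≤ 4 ^ (Nat.clog 4 (Q (r, k)) + (s + J r)) :=
      (Nat.le_pow_clog (by norm_num) _).trans (Nat.pow_le_pow_right (by norm_num) (by omega))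
    refine le_trans ?_ (hα (Nat.clog 4 (Q (r, k)) + (s + J r)) (r, k) (mem_filter.2 ⟨mem_product.2
      ⟨mem_range.2 (by dsimp only at *; omega), mem_range.2 (by dsimp only at *; omega)⟩, hr, hk, rfl⟩) z)
    have c2 : 4 ^ Nat.clog 4 (Q (r, k)) ≤ 4 * Q (r, k) := by
      have qa := hr.trans_le q1
      by_cases h1 : 1 < Q (r, k)
      · have := Nat.pow_pred_clog_lt_self (b := 4) (by norm_num) h1
        have hp := Nat.clog_pos (b := 4) (by norm_num) h1
        rw [show Nat.clog 4 (Q (r, k)) = (Nat.clog 4 (Q (r, k))).pred + 1 by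
          rw [Nat.pred_eq_sub_one]; omega, pow_succ]
        omega
      · rw [Nat.clog_of_right_le_one (not_lt.1 h1)]; omega
    have c3 : (4 : ℝ) ^ Nat.clog 4 (Q (r, k)) ≤ 4 * Q (r, k) := by exact_mod_cast c2
    rw [div_div, div_le_div_iff₀ (by positivity) (by positivity), pow_add, pow_add]
    have : (0 : ℝ) ≤ 4 ^ s * 4 ^ J r := by positivity
    nlinarith
  set M := 32 * 4 ^ s with hM
  have hM0 : 0 < M := by positivity
  have : NeZero M := ⟨hM0.ne'⟩
  have hMr : (M : ℝ) = 32 * 4 ^ s := by rw [hM]; push_cast; ring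
  refine ⟨_, fun a => Fintype.equivFin (ZMod M × ZMod M)
    (((⌊M * (a * α)⌋ : ℤ) : ZMod M), ((⌊M * (a ^ 3 * α)⌋ : ℤ) : ZMod M)), fun k hk a r hr => ?_⟩
  by_contra hc
  push Not at hc
  simp only [EmbeddingLike.apply_eq_iff_eq, Prod.mk.injEq] at hc
  have hp : (1 : ℝ) ≤ 4 ^ s := one_le_pow₀ (by norm_num)
  have hη : (4 : ℝ) * (1 / M) = 1 / (8 * 4 ^ s) := by rw [hMr]; field_simp; norm_num
  by_cases h2 : r ≤ 2
  · obtain ⟨z, hz⟩ := near M hM0 _ _ (hc 0 hr).1
    have f := far r hr k hk z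
    have e1 : J r = 0 := by interval_cases r <;> decide
    have e2 : Q (r, k) = r * k := if_pos h2
    rw [e1, e2, pow_zero, div_one, ← hη] at f
    push_cast at hz f
    rw [show (a + (r + 0) * k : ℝ) * α - (a + 0 * k) * α = r * k * α by ring] at hz
    have : (0 : ℝ) < 1 / M := by positivity
    linarith
  · have e2 : Q (r, k) = 6 * r * k ^ 3 := if_neg h2
    obtain ⟨z, hz⟩ := shrink (1 / (8 * 4 ^ s)) (by
        rw [mul_one_div, div_le_one (by positivity)]; linarith) (J r) (Q (r, k) * α) (fun i hi => by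
      have b1 := J_le r (by omega)
      have b2 : 2 ^ (i + 1) ≤ 2 ^ (J r + 1) := Nat.pow_le_pow_right (by norm_num) (by omega)
      rw [pow_succ] at b2
      obtain ⟨z0, h0⟩ := near M hM0 _ _ (hc 0 hr).2
      obtain ⟨z1, h1⟩ := near M hM0 _ _ (hc (2 ^ i) (by omega)).2
      obtain ⟨z2, h2⟩ := near M hM0 _ _ (hc (2 ^ i * 2) (by omega)).2
      refine ⟨z2 - 2 * z1 + z0, ?_⟩
      rw [e2, ← hη, show (4 : ℝ) ^ i = (2 ^ i) ^ 2 by rw [← pow_mul, mul_comm, pow_mul]; norm_num]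
      push_cast at h0 h1 h2 ⊢
      rw [abs_lt] at h0 h1 h2 ⊢
      constructor <;> nlinarith [h0.1, h0.2, h1.1, h1.2, h2.1, h2.2])
    exact absurd (far r hr k hk z) (not_le.2 hz)

end Pool.Agent.S09671
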