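import Pool.Statements.S09674
import Pool.Agent.H.MP_7c3aa9_co.A

set_option autoImplicit false
open Pool Pool.MP_7c3aa9_co

namespace Pool.Agent.S09674

theorem result :
    ¬ (∀ (k : ℕ) (G : SimpleGraph (Fin k)),
    (∃ (m : ℕ) (T : SimpleGraph (Fin m)) (B : Fin m → Finset (Fin k)),
      T.IsTree ∧ (∀ i, (B i).card ≤ 3) ∧ (∀ v, ∃ i, v ∈ B i) ∧
      (∀ u v, G.Adj u v → ∃ i, u ∈ B i ∧ v ∈ B i) ∧
      (∀ v, (T.induce {i | v ∈ B i}).Connected)) →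
    ¬ (∃ (m : ℕ) (T : SimpleGraph (Fin m)) (B : Fin m → Finset (Fin k)),
      T.IsTree ∧ (∀ i, (B i).card ≤ 2) ∧ (∀ v, ∃ i, v ∈ B i) ∧
      (∀ u v, G.Adj u v → ∃ i, u ∈ B i ∧ v ∈ B i) ∧
      (∀ v, (T.induce {i | v ∈ B i}).Connected)) →
    Asymptotics.IsEquivalent Filter.atTop
      (fun n : ℕ => ((sSup {c : ℕ | ∃ H : Finset (Finset (Fin n)),
          (∀ h ∈ H, h.card = 3) ∧
          ¬ (∃ (φ : Fin k → Fin n) (w : Fin k → Fin k → Fin n),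
              Function.Injective φ ∧
              (∀ u v, G.Adj u v →
                (∀ x, w u v ≠ φ x) ∧ ({φ u, φ v, w u v} : Finset (Fin n)) ∈ H) ∧
              (∀ u v u' v', G.Adj u v → G.Adj u' v' → w u v = w u' v' →
                (u = u' ∧ v = v') ∨ (u = v' ∧ v = u'))) ∧
          H.card = c} : ℕ) : ℝ))
      (fun n : ℕ => (((sInf {c : ℕ | ∃ S : Finset (Fin k),
          (∀ u ∈ S, ∀ v ∈ S, ¬ G.Adj u v) ∧
          c = S.card + {e ∈ G.edgeSet | ∀ v ∈ e, v ∉ S}.ncard} : ℕ) : ℝ) - 1)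
        * ((n.choose 2 : ℕ) : ℝ))) := by
  intro h
  refine H.MP_7c3aa9_co.A.asym _ _ H.MP_7c3aa9_co.A.sigma (fun m => ?_)
    (h 23 H.MP_7c3aa9_co.A.GG H.MP_7c3aa9_co.A.tw2 H.MP_7c3aa9_co.A.tw1)
  refine le_csSup ⟨Fintype.card (Finset (Fin (2 * m + 9))), ?_⟩
    ⟨Finset.univ.image (H.MP_7c3aa9_co.A.tri m), ?_, H.MP_7c3aa9_co.A.free m, ?_⟩
  · rintro c ⟨H, -, -, rfl⟩
    exact Finset.card_le_univ _
  · intro e he
    obtain ⟨p, -, rfl⟩ := Finset.mem_image.1 he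
    exact H.MP_7c3aa9_co.A.tri_card m p
  · rw [Finset.card_image_of_injective _ (H.MP_7c3aa9_co.A.tri_inj m)]
    simp [sq]

end Pool.Agent.S09674
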