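import Pool.Statements.S09684
-- import your own Pool.Agent.* helpers here

set_option autoImplicit false
open Pool Pool.MP_7c785d_co

namespace Pool.Agent.S09684

def nbr (i : ℕ) : ℕ := [6, 2249, 2249, 5158, 2176, 2056, 1798, 4374, 192, 2112, 72, 566, 136].getD i 0

def G : SimpleGraph (Fin 13) where
  Adj a b := (nbr a.val).testBit b.val = true
  symm := ⟨by decide⟩
  loopless := ⟨by decide⟩

instance : DecidableRel G.Adj := fun a b =>
  inferInstanceAs (Decidable ((nbr a.val).testBit b.val = true))

def nbL (m : ℕ) : List ℕ → ℕ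
  | [] => 0
  | i :: l => if m.testBit i then nbr i ||| nbL m l else nbL m l

def nb (m : ℕ) : ℕ := nbL m [0, 1, 2, 3, 4, 5, 6, 7, 8, 9, 10, 11, 12]

theorem nbL_spec (m j : ℕ) : ∀ l : List ℕ, (nbL m l).testBit j = true ↔
    ∃ i ∈ l, m.testBit i = true ∧ (nbr i).testBit j = true
  | [] => by simp [nbL]
  | i :: l => by
    have ih := nbL_spec m j l
    by_cases h : m.testBit i = true
    · simp only [nbL, h, if_true, Nat.testBit_or, Bool.or_eq_true, ih, List.mem_cons,
        exists_eq_or_imp, true_and]
    · simp only [nbL, h, ih, List.mem_cons, exists_eq_or_imp, false_and, false_or,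
        Bool.false_eq_true, if_false]

theorem nb_spec (m : ℕ) (j : Fin 13) : (nb m).testBit j.val = true ↔
    ∃ i : Fin 13, m.testBit i.val = true ∧ G.Adj i j := by
  rw [nb, nbL_spec]
  constructor
  · rintro ⟨i, hi, h1, h2⟩
    have : i < 13 := by simp at hi; omega
    exact ⟨⟨i, this⟩, h1, h2⟩
  · rintro ⟨i, h1, h2⟩
    refine ⟨i.val, ?_, h1, h2⟩
    have := i.2
    simp; omega

def grow (m : ℕ) : ℕ → ℕ → ℕ
  | 0, c => c
  | k + 1, c => if (c ||| nb c) &&& m = c then c else grow m k ((c ||| nb c) &&& m)

def discA (m c : ℕ) : Bool := c != 0 && c != m && ((nb c &&& m) ||| c == c)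

def disc (m : ℕ) : Bool := discA m (grow m 13 (m &&& (m ^^^ (m - 1))) &&& m)

def two (r : ℕ) : Bool :=
  (List.range 13).any fun i => !r.testBit i && (List.range 13).any fun j => !r.testBit j && i != j

def P : List (ℕ × ℕ) :=
  [(1, 6), (2, 2249), (3, 2255), (4, 2249), (5, 2255), (7, 2255),
   (8, 5158), (10, 7407), (11, 7407), (12, 7407), (13, 7407), (14, 7407),
   (15, 7407), (16, 2176), (32, 2056), (40, 7214), (42, 7407), (43, 7407),
   (44, 7407), (45, 7407), (46, 7407), (47, 7407), (64, 1798), (66, 4047),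
   (67, 4047), (68, 4047), (69, 4047), (70, 4047), (71, 4047), (128, 4374),
   (130, 6623), (131, 6623), (132, 6623), (133, 6623), (134, 6623), (135, 6623),
   (144, 6550), (146, 6623), (147, 6623), (148, 6623), (149, 6623), (150, 6623),
   (151, 6623), (256, 192), (320, 1990), (322, 4047), (323, 4047), (324, 4047),
   (325, 4047), (326, 4047), (327, 4047), (384, 4566), (386, 6623), (387, 6623),
   (388, 6623), (389, 6623), (390, 6623), (391, 6623), (400, 6614), (402, 6623),
   (403, 6623), (404, 6623), (405, 6623), (406, 6623), (407, 6623), (448, 6102),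
   (464, 8150), (512, 2112), (576, 3910), (578, 4047), (579, 4047), (580, 4047),
   (581, 4047), (582, 4047), (583, 4047), (832, 4038), (834, 4047), (835, 4047),
   (836, 4047), (837, 4047), (838, 4047), (839, 4047), (960, 8150), (976, 8150),
   (1024, 72), (1032, 5230), (1034, 7407), (1035, 7407), (1036, 7407), (1037, 7407),
   (1038, 7407), (1039, 7407), (1064, 7278), (1066, 7407), (1067, 7407), (1068, 7407),
   (1069, 7407), (1070, 7407), (1071, 7407), (1088, 1870), (1090, 4047), (1091, 4047),
   (1092, 4047), (1093, 4047), (1094, 4047), (1095, 4047), (1096, 5998), (1128, 8046),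
   (1344, 1998), (1346, 4047), (1347, 4047), (1348, 4047), (1349, 4047), (1350, 4047),
   (1351, 4047), (1352, 6126), (1384, 8174), (1472, 6110), (1480, 6142), (1488, 8158),
   (1600, 3918), (1602, 4047), (1603, 4047), (1604, 4047), (1605, 4047), (1606, 4047),
   (1607, 4047), (1608, 8046), (1640, 8046), (1856, 4046), (1858, 4047), (1859, 4047),
   (1860, 4047), (1861, 4047), (1862, 4047), (1863, 4047), (1864, 8174), (1896, 8174),
   (1984, 8158), (2000, 8158), (2048, 566), (2050, 2815), (2051, 2815), (2052, 2815),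
   (2053, 2815), (2054, 2815), (2055, 2815), (2064, 2742), (2066, 2815), (2067, 2815),
   (2068, 2815), (2069, 2815), (2070, 2815), (2071, 2815), (2080, 2622), (2082, 2815),
   (2083, 2815), (2084, 2815), (2085, 2815), (2086, 2815), (2087, 2815), (2088, 7742),
   (2096, 2750), (2098, 2815), (2099, 2815), (2100, 2815), (2101, 2815), (2102, 2815),
   (2103, 2815), (2104, 7870), (2192, 7094), (2224, 7102), (2232, 8126), (2448, 7158),
   (2480, 7166), (2512, 8182), (2560, 2678), (2562, 2815), (2563, 2815), (2564, 2815),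
   (2565, 2815), (2566, 2815), (2567, 2815), (2576, 2806), (2578, 2815), (2579, 2815),
   (2580, 2815), (2581, 2815), (2582, 2815), (2583, 2815), (2592, 2686), (2594, 2815),
   (2595, 2815), (2596, 2815), (2597, 2815), (2598, 2815), (2599, 2815), (2600, 7806),
   (2608, 2814), (2610, 2815), (2611, 2815), (2612, 2815), (2613, 2815), (2614, 2815),
   (2615, 2815), (2616, 7934), (2624, 3958), (2640, 4086), (2656, 3966), (2664, 8062),
   (2672, 4094), (2704, 7158), (2736, 7166), (2768, 8182), (2880, 4086), (2896, 4086),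
   (2912, 4094), (2928, 4094), (2960, 7158), (2992, 7166), (3008, 8182), (3024, 8182),
   (3112, 7806), (3128, 7934), (3176, 8062), (3624, 7806), (3640, 7934), (3648, 3966),
   (3656, 8062), (3664, 4094), (3680, 3966), (3688, 8062), (3696, 4094), (3904, 4094),
   (3920, 4094), (3936, 4094), (3952, 4094), (4096, 136), (4104, 5294), (4106, 7407),
   (4107, 7407), (4108, 7407), (4109, 7407), (4110, 7407), (4111, 7407), (4136, 7342),
   (4138, 7407), (4139, 7407), (4140, 7407), (4141, 7407), (4142, 7407), (4143, 7407),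
   (4224, 4510), (4226, 6623), (4227, 6623), (4228, 6623), (4229, 6623), (4230, 6623),
   (4231, 6623), (4232, 5566), (4240, 6558), (4242, 6623), (4243, 6623), (4244, 6623),
   (4245, 6623), (4246, 6623), (4247, 6623), (4248, 7614), (4264, 7614), (4280, 7614),
   (4480, 4574), (4482, 6623), (4483, 6623), (4484, 6623), (4485, 6623), (4486, 6623),
   (4487, 6623), (4488, 5630), (4496, 6622), (4498, 6623), (4499, 6623), (4500, 6623),
   (4501, 6623), (4502, 6623), (4503, 6623), (4504, 7678), (4520, 7678), (4536, 7678),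
   (4544, 6110), (4552, 6142), (4560, 8158), (5056, 8158), (5072, 8158), (5128, 5358),
   (5130, 7407), (5131, 7407), (5132, 7407), (5133, 7407), (5134, 7407), (5135, 7407),
   (5160, 7406), (5162, 7407), (5163, 7407), (5164, 7407), (5165, 7407), (5166, 7407),
   (5167, 7407), (5192, 6126), (5224, 8174), (5256, 5630), (5272, 7678), (5288, 7678),
   (5304, 7678), (5320, 6142), (5448, 6126), (5480, 8174), (5512, 5630), (5528, 7678),
   (5544, 7678), (5560, 7678), (5568, 6110), (5576, 6142), (5584, 8158), (5704, 8174),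
   (5736, 8174), (5960, 8174), (5992, 8174), (6080, 8158), (6096, 8158), (6184, 7870),
   (6200, 7870), (6288, 7102), (6296, 8126), (6312, 8126), (6320, 7102), (6328, 8126),
   (6544, 7166), (6576, 7166), (6696, 7934), (6712, 7934), (6800, 7166), (6832, 7166),
   (7056, 7166), (7088, 7166), (7208, 7934), (7224, 7934), (7720, 7934), (7736, 7934)]

def okm (m : ℕ) : Bool := m == 0 || !two (m ||| nb m) || disc m || P.contains (m, nb m)

theorem cp0 : (List.range' 0 256).all okm = true := by decide +kernel
theorem cp1 : (List.range' 256 256).all okm = true := by decide +kernel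
theorem cp2 : (List.range' 512 256).all okm = true := by decide +kernel
theorem cp3 : (List.range' 768 256).all okm = true := by decide +kernel
theorem cp4 : (List.range' 1024 256).all okm = true := by decide +kernel
theorem cp5 : (List.range' 1280 256).all okm = true := by decide +kernel
theorem cp6 : (List.range' 1536 256).all okm = true := by decide +kernel
theorem cp7 : (List.range' 1792 256).all okm = true := by decide +kernel
theorem cp8 : (List.range' 2048 256).all okm = true := by decide +kernel
theorem cp9 : (List.range' 2304 256).all okm = true := by decide +kernel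
theorem cp10 : (List.range' 2560 256).all okm = true := by decide +kernel
theorem cp11 : (List.range' 2816 256).all okm = true := by decide +kernel
theorem cp12 : (List.range' 3072 256).all okm = true := by decide +kernel
theorem cp13 : (List.range' 3328 256).all okm = true := by decide +kernel
theorem cp14 : (List.range' 3584 256).all okm = true := by decide +kernel
theorem cp15 : (List.range' 3840 256).all okm = true := by decide +kernel
theorem cp16 : (List.range' 4096 256).all okm = true := by decide +kernel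
theorem cp17 : (List.range' 4352 256).all okm = true := by decide +kernel
theorem cp18 : (List.range' 4608 256).all okm = true := by decide +kernel
theorem cp19 : (List.range' 4864 256).all okm = true := by decide +kernel
theorem cp20 : (List.range' 5120 256).all okm = true := by decide +kernel
theorem cp21 : (List.range' 5376 256).all okm = true := by decide +kernel
theorem cp22 : (List.range' 5632 256).all okm = true := by decide +kernel
theorem cp23 : (List.range' 5888 256).all okm = true := by decide +kernel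
theorem cp24 : (List.range' 6144 256).all okm = true := by decide +kernel
theorem cp25 : (List.range' 6400 256).all okm = true := by decide +kernel
theorem cp26 : (List.range' 6656 256).all okm = true := by decide +kernel
theorem cp27 : (List.range' 6912 256).all okm = true := by decide +kernel
theorem cp28 : (List.range' 7168 256).all okm = true := by decide +kernel
theorem cp29 : (List.range' 7424 256).all okm = true := by decide +kernel
theorem cp30 : (List.range' 7680 256).all okm = true := by decide +kernel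
theorem cp31 : (List.range' 7936 256).all okm = true := by decide +kernel

theorem complete (m : ℕ) (hm : m < 8192) : okm m = true := by
  have h : m / 256 = 0 ∨ m / 256 = 1 ∨ m / 256 = 2 ∨ m / 256 = 3 ∨ m / 256 = 4 ∨ m / 256 = 5 ∨ m / 256 = 6 ∨ m / 256 = 7 ∨ m / 256 = 8 ∨ m / 256 = 9 ∨ m / 256 = 10 ∨ m / 256 = 11 ∨ m / 256 = 12 ∨ m / 256 = 13 ∨ m / 256 = 14 ∨ m / 256 = 15 ∨ m / 256 = 16 ∨ m / 256 = 17 ∨ m / 256 = 18 ∨ m / 256 = 19 ∨ m / 256 = 20 ∨ m / 256 = 21 ∨ m / 256 = 22 ∨ m / 256 = 23 ∨ m / 256 = 24 ∨ m / 256 = 25 ∨ m / 256 = 26 ∨ m / 256 = 27 ∨ m / 256 = 28 ∨ m / 256 = 29 ∨ m / 256 = 30 ∨ m / 256 = 31 := by omega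
  rcases h with h | h | h | h | h | h | h | h | h | h | h | h | h | h | h | h | h | h | h | h | h | h | h | h | h | h | h | h | h | h | h | h
  · exact List.all_eq_true.mp cp0 m (List.mem_range'_1.mpr (by omega))
  · exact List.all_eq_true.mp cp1 m (List.mem_range'_1.mpr (by omega))
  · exact List.all_eq_true.mp cp2 m (List.mem_range'_1.mpr (by omega))
  · exact List.all_eq_true.mp cp3 m (List.mem_range'_1.mpr (by omega))
  · exact List.all_eq_true.mp cp4 m (List.mem_range'_1.mpr (by omega))
  · exact List.all_eq_true.mp cp5 m (List.mem_range'_1.mpr (by omega))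
  · exact List.all_eq_true.mp cp6 m (List.mem_range'_1.mpr (by omega))
  · exact List.all_eq_true.mp cp7 m (List.mem_range'_1.mpr (by omega))
  · exact List.all_eq_true.mp cp8 m (List.mem_range'_1.mpr (by omega))
  · exact List.all_eq_true.mp cp9 m (List.mem_range'_1.mpr (by omega))
  · exact List.all_eq_true.mp cp10 m (List.mem_range'_1.mpr (by omega))
  · exact List.all_eq_true.mp cp11 m (List.mem_range'_1.mpr (by omega))
  · exact List.all_eq_true.mp cp12 m (List.mem_range'_1.mpr (by omega))
  · exact List.all_eq_true.mp cp13 m (List.mem_range'_1.mpr (by omega))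
  · exact List.all_eq_true.mp cp14 m (List.mem_range'_1.mpr (by omega))
  · exact List.all_eq_true.mp cp15 m (List.mem_range'_1.mpr (by omega))
  · exact List.all_eq_true.mp cp16 m (List.mem_range'_1.mpr (by omega))
  · exact List.all_eq_true.mp cp17 m (List.mem_range'_1.mpr (by omega))
  · exact List.all_eq_true.mp cp18 m (List.mem_range'_1.mpr (by omega))
  · exact List.all_eq_true.mp cp19 m (List.mem_range'_1.mpr (by omega))
  · exact List.all_eq_true.mp cp20 m (List.mem_range'_1.mpr (by omega))
  · exact List.all_eq_true.mp cp21 m (List.mem_range'_1.mpr (by omega))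
  · exact List.all_eq_true.mp cp22 m (List.mem_range'_1.mpr (by omega))
  · exact List.all_eq_true.mp cp23 m (List.mem_range'_1.mpr (by omega))
  · exact List.all_eq_true.mp cp24 m (List.mem_range'_1.mpr (by omega))
  · exact List.all_eq_true.mp cp25 m (List.mem_range'_1.mpr (by omega))
  · exact List.all_eq_true.mp cp26 m (List.mem_range'_1.mpr (by omega))
  · exact List.all_eq_true.mp cp27 m (List.mem_range'_1.mpr (by omega))
  · exact List.all_eq_true.mp cp28 m (List.mem_range'_1.mpr (by omega))
  · exact List.all_eq_true.mp cp29 m (List.mem_range'_1.mpr (by omega))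
  · exact List.all_eq_true.mp cp30 m (List.mem_range'_1.mpr (by omega))
  · exact List.all_eq_true.mp cp31 m (List.mem_range'_1.mpr (by omega))

def far (p q : ℕ × ℕ) : Bool := p.1 &&& q.1 == 0 && p.2 &&& q.1 == 0

def near (p q : ℕ × ℕ) : Bool := p.1 &&& q.1 == 0 && p.2 &&& q.1 != 0

def frc : List (ℕ × ℕ) → (List (ℕ × ℕ) → Bool) → Bool
  | [], k => k []
  | x :: l, k => frc l (fun m => k (x :: m))

theorem frc_eq : ∀ (l : List (ℕ × ℕ)) (k : List (ℕ × ℕ) → Bool), frc l k = k l
  | [], _ => rfl
  | x :: l, k => by rw [frc, frc_eq l]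

def lf (p q : ℕ × ℕ) : Bool := Nat.blt q.1 p.1 && far p q

def chk (a : ℕ × ℕ) : Bool :=
  frc (P.filter (lf a)) fun F1 => frc (P.filter (near a)) fun C1 =>
    F1.all fun b => frc (F1.filter (lf b)) fun F2 => frc (C1.filter (near b)) fun C2 =>
      F2.all fun c => frc (C2.filter (near c)) fun C3 =>
        C3.all fun p => frc (C3.filter (lf p)) fun D =>
          D.all fun q => D.all fun r => !lf q r

theorem ck0 : ((P.drop 0).take 29).all chk = true := by decide +kernel
theorem ck1 : ((P.drop 29).take 15).all chk = true := by decide +kernel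
theorem ck2 : ((P.drop 44).take 23).all chk = true := by decide +kernel
theorem ck3 : ((P.drop 67).take 1).all chk = true := by decide +kernel
theorem ck4 : ((P.drop 68).take 16).all chk = true := by decide +kernel
theorem ck5 : ((P.drop 84).take 8).all chk = true := by decide +kernel
theorem ck6 : ((P.drop 92).take 31).all chk = true := by decide +kernel
theorem ck7 : ((P.drop 123).take 17).all chk = true := by decide +kernel
theorem ck8 : ((P.drop 140).take 6).all chk = true := by decide +kernel
theorem ck9 : ((P.drop 146).take 18).all chk = true := by decide +kernel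
theorem ck10 : ((P.drop 164).take 26).all chk = true := by decide +kernel
theorem ck11 : ((P.drop 190).take 46).all chk = true := by decide +kernel
theorem ck12 : ((P.drop 236).take 1).all chk = true := by decide +kernel
theorem ck13 : ((P.drop 237).take 1).all chk = true := by decide +kernel
theorem ck14 : ((P.drop 238).take 14).all chk = true := by decide +kernel
theorem ck15 : ((P.drop 252).take 16).all chk = true := by decide +kernel
theorem ck16 : ((P.drop 268).take 34).all chk = true := by decide +kernel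
theorem ck17 : ((P.drop 302).take 46).all chk = true := by decide +kernel

theorem P_eq : P = (P.drop 0).take 29 ++ (P.drop 29).take 15 ++ (P.drop 44).take 23 ++ (P.drop 67).take 1 ++ (P.drop 68).take 16 ++ (P.drop 84).take 8 ++ (P.drop 92).take 31 ++ (P.drop 123).take 17 ++ (P.drop 140).take 6 ++ (P.drop 146).take 18 ++ (P.drop 164).take 26 ++ (P.drop 190).take 46 ++ (P.drop 236).take 1 ++ (P.drop 237).take 1 ++ (P.drop 238).take 14 ++ (P.drop 252).take 16 ++ (P.drop 268).take 34 ++ (P.drop 302).take 46 := by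
  decide +kernel

theorem chk_true : P.all chk = true := by
  rw [P_eq]
  simp only [List.all_append, ck0, ck1, ck2, ck3, ck4, ck5, ck6, ck7, ck8, ck9, ck10, ck11, ck12, ck13, ck14, ck15, ck16, ck17, Bool.and_self]

theorem no_model (a b c p q r : ℕ × ℕ) (ha : a ∈ P) (hb : b ∈ P) (hc : c ∈ P) (hp : p ∈ P)
    (hq : q ∈ P) (hr : r ∈ P)
    (h01 : lf a b = true) (h02 : lf a c = true) (h12 : lf b c = true)
    (h34 : lf p q = true) (h35 : lf p r = true) (h45 : lf q r = true)
    (hn : ∀ x, (x = p ∨ x = q ∨ x = r) → near a x = true ∧ near b x = true ∧ near c x = true) :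
    False := by
  have h := chk_true
  simp only [chk, frc_eq, List.all_eq_true, List.mem_filter] at h
  have hc' : ∀ x, x ∈ P → (x = p ∨ x = q ∨ x = r) → ((x ∈ P ∧ near a x = true) ∧
      near b x = true) ∧ near c x = true := fun x hx hj =>
    ⟨⟨⟨hx, (hn x hj).1⟩, (hn x hj).2.1⟩, (hn x hj).2.2⟩
  have := h a ha b ⟨hb, h01⟩ c ⟨⟨hc, h02⟩, h12⟩ p (hc' p hp (Or.inl rfl))
    q ⟨hc' q hq (Or.inr (Or.inl rfl)), h34⟩ r ⟨hc' r hr (Or.inr (Or.inr rfl)), h35⟩
  simp [h45] at this

theorem sort3 (m : Fin 6 → ℕ) (a b c : Fin 6) (h1 : m a ≠ m b) (h2 : m a ≠ m c) (h3 : m b ≠ m c)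
    (Q : Fin 6 → Prop) (ha : Q a) (hb : Q b) (hc : Q c) :
    ∃ i j k, Q i ∧ Q j ∧ Q k ∧ m i < m j ∧ m j < m k := by
  rcases lt_or_gt_of_ne h1 with g1 | g1 <;> rcases lt_or_gt_of_ne h2 with g2 | g2 <;>
    rcases lt_or_gt_of_ne h3 with g3 | g3
  · exact ⟨a, b, c, ha, hb, hc, g1, g3⟩
  · exact ⟨a, c, b, ha, hc, hb, g2, g3⟩
  · omega
  · exact ⟨c, a, b, hc, ha, hb, g2, g1⟩
  · exact ⟨b, a, c, hb, ha, hc, g1, g2⟩
  · omega
  · exact ⟨b, c, a, hb, hc, ha, g3, g2⟩
  · exact ⟨c, b, a, hc, hb, ha, g3, g1⟩

theorem exists_mask (S : Set (Fin 13)) :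
    ∃ m : ℕ, m < 8192 ∧ ∀ i : Fin 13, m.testBit i.val = true ↔ i ∈ S := by
  classical
  refine ⟨Nat.ofBits (fun u : Fin 13 => decide (u ∈ S)), Nat.ofBits_lt_two_pow _, fun u => ?_⟩
  rw [Nat.testBit_ofBits_lt _ _ u.2]; simp

theorem bit_lt {m i : ℕ} (hm : m < 8192) (h : m.testBit i = true) : i < 13 := by
  by_contra hi
  have : m < 2 ^ i := lt_of_lt_of_le hm (Nat.pow_le_pow_right (n := 2) (by norm_num)
    (show 13 ≤ i by omega))
  rw [Nat.testBit_lt_two_pow this] at h
  exact absurd h (by simp)

theorem and_zero {a b : ℕ} (hb : b < 8192) :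
    a &&& b = 0 ↔ ∀ i : Fin 13, ¬ (a.testBit i.val = true ∧ b.testBit i.val = true) := by
  constructor
  · intro h i hi
    have : (a &&& b).testBit i.val = true := by simp [Nat.testBit_and, hi.1, hi.2]
    rw [h] at this; simp at this
  · intro h
    apply Nat.eq_of_testBit_eq
    intro i
    rw [Nat.testBit_and, Nat.zero_testBit]
    by_contra hc
    have hc' : a.testBit i = true ∧ b.testBit i = true := by simpa using hc
    exact h ⟨i, bit_lt hb hc'.2⟩ hc'

theorem not_discA {S : Set (Fin 13)} {m : ℕ} (hm : m < 8192)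
    (hS : ∀ i : Fin 13, m.testBit i.val = true ↔ i ∈ S) (hc : (G.induce S).Connected) (d : ℕ) :
    discA m (d &&& m) = false := by
  by_contra hd
  have hd' : discA m (d &&& m) = true := by simpa using hd
  simp only [discA, Bool.and_eq_true, bne_iff_ne, ne_eq, beq_iff_eq] at hd'
  obtain ⟨⟨h0, h1⟩, h2⟩ := hd'
  set c := d &&& m with hcdef
  have hsub : ∀ i, c.testBit i = true → m.testBit i = true := by
    intro i hi
    rw [hcdef, Nat.testBit_and] at hi
    simp only [Bool.and_eq_true] at hi
    exact hi.2
  obtain ⟨i, hi⟩ : ∃ i, c.testBit i = true := by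
    by_contra hn
    apply h0
    apply Nat.eq_of_testBit_eq
    intro i
    rw [Nat.zero_testBit]
    by_contra hx
    exact hn ⟨i, by simpa using hx⟩
  obtain ⟨j, hj1, hj2⟩ : ∃ j, m.testBit j = true ∧ ¬ c.testBit j = true := by
    by_contra hn
    apply h1
    apply Nat.eq_of_testBit_eq
    intro j
    by_cases hx : m.testBit j = true
    · by_cases hy : c.testBit j = true
      · rw [hx, hy]
      · exact absurd ⟨j, hx, hy⟩ hn
    · have hy : ¬ c.testBit j = true := fun hy => hx (hsub j hy)
      simp only [Bool.not_eq_true] at hx hy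
      rw [hx, hy]
  have hi13 := bit_lt hm (hsub i hi)
  have hj13 := bit_lt hm hj1
  have step : ∀ u v : S, (G.induce S).Adj u v → c.testBit u.1.val = true →
      c.testBit v.1.val = true := by
    intro u v huv hu
    have e1 : (nb c).testBit v.1.val = true := (nb_spec c v.1).mpr ⟨u.1, hu, huv⟩
    have e2 : m.testBit v.1.val = true := (hS v.1).mpr v.2
    rw [← h2]
    simp [Nat.testBit_or, Nat.testBit_and, e1, e2]
  have walk : ∀ u v : S, (G.induce S).Walk u v → c.testBit u.1.val = true →
      c.testBit v.1.val = true := by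
    intro u v w
    induction w with
    | nil => exact id
    | cons h _ ih => exact fun hu => ih (step _ _ h hu)
  obtain ⟨w⟩ := hc.preconnected ⟨⟨i, hi13⟩, (hS ⟨i, hi13⟩).mp (hsub i hi)⟩
    ⟨⟨j, hj13⟩, (hS ⟨j, hj13⟩).mp hj1⟩
  exact hj2 (walk _ _ w hi)

def prt : Fin 13 → Fin 6 := ![4, 1, 4, 0, 3, 2, 5, 3, 3, 5, 5, 2, 3]
def par : Fin 13 → Fin 13 := ![0, 1, 0, 3, 4, 5, 6, 4, 7, 6, 6, 5, 7]
def rk : Fin 13 → ℕ := ![0, 0, 1, 0, 0, 0, 0, 1, 2, 1, 1, 1, 2]
def rt : Fin 6 → Fin 13 := ![3, 1, 5, 4, 0, 6]

theorem conn_part (i : Fin 6) : (G.induce {v | prt v = i}).Connected := by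
  have hr : prt (rt i) = i := by revert i; decide
  have hp : ∀ v : Fin 13, v = rt (prt v) ∨
      (prt (par v) = prt v ∧ G.Adj v (par v) ∧ rk (par v) < rk v) := by decide
  have key : ∀ (k : ℕ) (v : {v | prt v = i}), rk v.1 < k →
      (G.induce {v | prt v = i}).Reachable v ⟨rt i, hr⟩ := by
    intro k
    induction k with
    | zero => intro v h; omega
    | succ k ih =>
      intro v h
      have hv : prt v.1 = i := v.2
      rcases hp v.1 with h1 | ⟨h1, h2, h3⟩
      · have : v = ⟨rt i, hr⟩ := Subtype.ext (by rw [hv] at h1; exact h1)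
        rw [this]
      · have hadj : (G.induce {v | prt v = i}).Adj v ⟨par v.1, h1.trans hv⟩ := h2
        exact hadj.reachable.trans (ih _ (by show rk (par v.1) < k; omega))
  haveI : Nonempty {v | prt v = i} := ⟨⟨rt i, hr⟩⟩
  exact ⟨fun u v => (key _ u (Nat.lt_succ_self _)).trans (key _ v (Nat.lt_succ_self _)).symm⟩

/-- The negation of the preceding statement: Every finite graph with a K_6 minor (six disjoint connected vertex sets, pairwise joined by edges) has a triangle, or has K_{3,3} as an induced minor (six disjoint connected sets, joined by an edge exactly across the two sides of size three). -/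
theorem result :
    ¬ (∀ (V : Type) [Fintype V] (G : SimpleGraph V),
      (∃ B : Fin 6 → Set V,
          (∀ i, (G.induce (B i)).Connected) ∧
          (∀ i j, i ≠ j → Disjoint (B i) (B j)) ∧
          (∀ i j, i ≠ j → ∃ u ∈ B i, ∃ v ∈ B j, G.Adj u v)) →
      (∃ a b c : V, G.Adj a b ∧ G.Adj b c ∧ G.Adj a c) ∨
      (∃ B : Fin 6 → Set V,
          (∀ i, (G.induce (B i)).Connected) ∧
          (∀ i j, i ≠ j → Disjoint (B i) (B j)) ∧
          (∀ i j, i ≠ j →
            ((∃ u ∈ B i, ∃ v ∈ B j, G.Adj u v) ↔ ¬ (i.val < 3 ↔ j.val < 3))))) := by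
  intro h
  have hK : ∀ i j : Fin 6, i ≠ j → ∃ u v : Fin 13, prt u = i ∧ prt v = j ∧ G.Adj u v := by
    decide +kernel
  rcases h (Fin 13) G ⟨fun i => {v | prt v = i}, conn_part, fun i j hij =>
      Set.disjoint_left.mpr (fun v h1 h2 => hij (h1.symm.trans h2)), fun i j hij => by
        obtain ⟨u, v, h1, h2, h3⟩ := hK i j hij
        exact ⟨u, h1, v, h2, h3⟩⟩ with htri | ⟨B, hc, hd, ht⟩
  · revert htri
    decide +kernel
  · choose m hm hS using fun i => exists_mask (B i)
    have hne : ∀ i, ∃ v, v ∈ B i := fun i => by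
      obtain ⟨v⟩ := (hc i).nonempty
      exact ⟨v.1, v.2⟩
    have hdis : ∀ i j, i ≠ j → m i &&& m j = 0 := fun i j hij =>
      (and_zero (hm j)).mpr fun v hv =>
        Set.disjoint_left.mp (hd i j hij) ((hS i v).mp hv.1) ((hS j v).mp hv.2)
    have htouch : ∀ i j, nb (m i) &&& m j = 0 ↔ ¬ ∃ u ∈ B i, ∃ v ∈ B j, G.Adj u v := by
      intro i j
      rw [and_zero (hm j)]
      constructor
      · rintro h1 ⟨u, hu, v, hv, huv⟩
        exact h1 v ⟨(nb_spec _ v).mpr ⟨u, (hS i u).mpr hu, huv⟩, (hS j v).mpr hv⟩
      · rintro h1 v ⟨h2, h3⟩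
        obtain ⟨u, hu, huv⟩ := (nb_spec _ v).mp h2
        exact h1 ⟨u, (hS i u).mp hu, v, (hS j v).mp h3, huv⟩
    have hfar : ∀ i j : Fin 6, i ≠ j → (i.val < 3 ↔ j.val < 3) →
        far (m i, nb (m i)) (m j, nb (m j)) = true := by
      intro i j hij hs
      have h1 := (htouch i j).mpr (fun hx => (ht i j hij).mp hx hs)
      simp [far, hdis i j hij, h1]
    have hnear : ∀ i j : Fin 6, i.val < 3 → ¬ j.val < 3 →
        near (m i, nb (m i)) (m j, nb (m j)) = true := by
      intro i j hi hj
      have hij : i ≠ j := fun e => hj (e ▸ hi)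
      have h1 : ¬ nb (m i) &&& m j = 0 := fun hx =>
        (htouch i j).mp hx ((ht i j hij).mpr (fun hs => hj (hs.mp hi)))
      simp [near, hdis i j hij, h1]
    have hout : ∀ i j : Fin 6, i ≠ j → (i.val < 3 ↔ j.val < 3) → ∀ v ∈ B j,
        (m i ||| nb (m i)).testBit v.val = false := by
      intro i j hij hs v hv
      have h1 := (htouch i j).mpr (fun hx => (ht i j hij).mp hx hs)
      have h2 := (and_zero (hm j)).mp h1 v
      have h3 := (and_zero (hm j)).mp (hdis i j hij) v
      have h4 := (hS j v).mpr hv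
      rw [Nat.testBit_or]
      simp only [h4, and_true, Bool.not_eq_true] at h2 h3
      rw [h2, h3]; rfl
    have hmem : ∀ i, (m i, nb (m i)) ∈ P := by
      intro i
      obtain ⟨j, k, hij, hik, hjk, h1, h2⟩ : ∃ j k : Fin 6, i ≠ j ∧ i ≠ k ∧ j ≠ k ∧
          (i.val < 3 ↔ j.val < 3) ∧ (i.val < 3 ↔ k.val < 3) := by revert i; decide
      obtain ⟨u, hu⟩ := hne j
      obtain ⟨v, hv⟩ := hne k
      obtain ⟨w, hw⟩ := hne i
      have huv : u ≠ v := fun e => Set.disjoint_left.mp (hd j k hjk) hu (e ▸ hv)
      have htwo : two (m i ||| nb (m i)) = true := by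
        simp only [two, List.any_eq_true, List.mem_range, Bool.and_eq_true]
        refine ⟨u.val, u.2, by simp [hout i j hij h1 u hu], v.val, v.2,
          by simp [hout i k hik h2 v hv], ?_⟩
        simpa [Fin.val_inj] using huv
      have h0 : m i ≠ 0 := by
        intro e
        have := (hS i w).mpr hw
        rw [e] at this; simp at this
      have hdisc : disc (m i) = false := not_discA (hm i) (hS i) (hc i) _
      have := complete (m i) (hm i)
      simpa [okm, h0, htwo, hdisc] using this
    have hmne : ∀ i j : Fin 6, i ≠ j → m i ≠ m j := by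
      intro i j hij e
      obtain ⟨w, hw⟩ := hne i
      have h1 := (hS i w).mpr hw
      rw [e] at h1
      exact Set.disjoint_left.mp (hd i j hij) hw ((hS j w).mp h1)
    have hlf : ∀ i j : Fin 6, m j < m i → (i.val < 3 ↔ j.val < 3) →
        lf (m i, nb (m i)) (m j, nb (m j)) = true := by
      intro i j hij hs
      have h1 := hfar i j (fun e => by rw [e] at hij; omega) hs
      simp only [lf, h1, Bool.and_true, Nat.blt_eq]
      exact hij
    obtain ⟨c, b, a, hc', hb, ha, hbc, hab⟩ := sort3 m 0 1 2 (hmne _ _ (by decide))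
      (hmne _ _ (by decide)) (hmne _ _ (by decide)) (fun i => i.val < 3)
      (by decide) (by decide) (by decide)
    obtain ⟨r, q, p, hr, hq, hp, hqr, hpq⟩ := sort3 m 3 4 5 (hmne _ _ (by decide))
      (hmne _ _ (by decide)) (hmne _ _ (by decide)) (fun i => ¬ i.val < 3)
      (by decide) (by decide) (by decide)
    refine no_model _ _ _ _ _ _ (hmem a) (hmem b) (hmem c) (hmem p) (hmem q) (hmem r)
      (hlf a b hab (iff_of_true ha hb)) (hlf a c (hbc.trans hab) (iff_of_true ha hc'))
      (hlf b c hbc (iff_of_true hb hc')) (hlf p q hpq (iff_of_false hp hq))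
      (hlf p r (hqr.trans hpq) (iff_of_false hp hr)) (hlf q r hqr (iff_of_false hq hr)) ?_
    rintro x (rfl | rfl | rfl)
    · exact ⟨hnear a p ha hp, hnear b p hb hp, hnear c p hc' hp⟩
    · exact ⟨hnear a q ha hq, hnear b q hb hq, hnear c q hc' hq⟩
    · exact ⟨hnear a r ha hr, hnear b r hb hr, hnear c r hc' hr⟩

end Pool.Agent.S09684
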