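import Pool.Statements.S09686
import Pool.Agent.H.MP_7c85f7_co.B

set_option autoImplicit false
open Pool Pool.MP_7c85f7_co

namespace Pool.Agent.S09686

theorem result :
    ¬ (∃ t : ℕ, ∀ (α : Type) (M : Matroid α),
      M.E.Finite → M.E.Nonempty →
      (∃ (n : ℕ) (v : α → (Fin n → ZMod 2)),
        ∀ I : Set α, M.Indep I ↔ (I ⊆ M.E ∧ LinearIndepOn (ZMod 2) v I)) →
      (∀ e ∈ M.E, ∀ f ∈ M.E, e ≠ f → ∃ C : Set α, M.IsCircuit C ∧ e ∈ C ∧ f ∈ C) →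
      (∀ K : Set α, M.IsCocircuit K → t ≤ K.ncard) →
      ∃ D : Set α, M.IsCircuit D ∧
        ∀ e ∈ (M.restrict (M.E \ D)).E, ∀ f ∈ (M.restrict (M.E \ D)).E, e ≠ f →
          ∃ C : Set α, (M.restrict (M.E \ D)).IsCircuit C ∧ e ∈ C ∧ f ∈ C) := by
  exact Pool.Agent.H.MP_7c85f7_co.main

end Pool.Agent.S09686
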