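import Pool.Statements.S09704
import Pool.Agent.H.MP_7de4e5_co.C

set_option autoImplicit false
open Pool Pool.MP_7de4e5_co

namespace Pool.Agent.S09704

theorem result :
    ¬ (∀ ε : ℝ, 0 < ε → ∃ N : ℕ, ∀ n : ℕ, N ≤ n →
      ∀ P : Fin n → EuclideanSpace ℝ (Fin 2),
        (∀ i, 0 ≤ P i 0 ∧ P i 0 ≤ Real.sqrt 3 ∧ 0 ≤ P i 1 ∧ P i 1 ≤ (n : ℝ) - 1) →
        ∃ S : Set (EuclideanSpace ℝ (Fin 2)), IsConnected S ∧ (∀ i, P i ∈ S) ∧
          MeasureTheory.Measure.hausdorffMeasure 1 S ≤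
            ENNReal.ofReal (Real.sqrt 3 * ((n : ℝ) - 1) + ε)) := by
  intro H
  obtain ⟨N, hN⟩ := H 1 one_pos
  have s1 : (1.732 : ℝ) ≤ Real.sqrt 3 := Real.le_sqrt_of_sq_le (by norm_num)
  have s2 : Real.sqrt 3 ≤ 1.7321 := Real.sqrt_le_iff.2 ⟨by norm_num, by norm_num⟩
  obtain ⟨m, hm1, hm2⟩ : ∃ m : ℕ, N ≤ m ∧ 200 ≤ m := ⟨N + 200, by omega, by omega⟩
  let pt : ℕ → EuclideanSpace ℝ (Fin 2) := fun i =>
    !₂[if i % 2 = 0 then 0 else Real.sqrt 3, 2 * ((i / 2 : ℕ) : ℝ)]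
  obtain ⟨S, hS, hP, hμ⟩ := hN (2 * m + 2) (by omega) (fun i => pt i) (by
    intro i
    have h1 : (((i : ℕ) / 2 : ℕ) : ℝ) ≤ m := by
      have : (i : ℕ) / 2 ≤ m := by omega
      exact_mod_cast this
    have h2 : (0 : ℝ) ≤ (((i : ℕ) / 2 : ℕ) : ℝ) := Nat.cast_nonneg _
    simp only [pt, Matrix.cons_val_zero, Matrix.cons_val_one]
    push_cast
    refine ⟨?_, ?_, by linarith, by linarith⟩ <;> split_ifs <;> linarith)
  have hm3 : (200 : ℝ) ≤ m := by exact_mod_cast hm2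
  classical
  set A : Finset (EuclideanSpace ℝ (Fin 2)) :=
    Finset.univ.image (fun i : Fin (2 * m + 2) => pt i) with hA
  have hpos : (0 : ℝ) < 3 * ((A.card : ℝ) + 1) := by positivity
  obtain ⟨E, hE1, hE2, hE3⟩ := Pool.Agent.H.MP_7de4e5_co.reduce hS
    (η := 1 / (3 * ((A.card : ℝ) + 1))) (by push_cast; nlinarith) (by positivity) hμ A (by
      intro p hp
      obtain ⟨i, -, rfl⟩ := Finset.mem_image.1 hp
      exact hP i)
  have h4 : 3 * (1 / (3 * ((A.card : ℝ) + 1))) + A.card * (3 * (1 / (3 * ((A.card : ℝ) + 1)))) = 1 := by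
    field_simp
    ring
  have h5 := Pool.Agent.H.MP_7de4e5_co.ladder E hE1 s1 m (fun k => pt (2 * k))
    (fun k => pt (2 * k + 1)) (by
      intro k hk
      refine ⟨hE2 _ (Finset.mem_image.2 ⟨⟨2 * k, by omega⟩, Finset.mem_univ _, rfl⟩),
        hE2 _ (Finset.mem_image.2 ⟨⟨2 * k + 1, by omega⟩, Finset.mem_univ _, rfl⟩), ?_, ?_, ?_, ?_⟩
      · have : 2 * k / 2 = k := by omega
        simp [pt]
      · have : (2 * k + 1) / 2 = k := by omega
        simp [pt, this]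
      · simp [pt]
      · simp [pt])
  push_cast at hE3
  nlinarith

end Pool.Agent.S09704
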