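import Pool.Statements.S09708

set_option autoImplicit false
open Pool Pool.MP_7e478a_co

namespace Pool.Agent.S09708

def Att {n : ℕ} (x y : Fin 3 → Fin n) : Prop :=
  ∃ t : ℤ, t ≠ 0 ∧ ∃ v : Fin 3 → ℤ, v ≠ 0 ∧
    (∀ i, v i = -1 ∨ v i = 0 ∨ v i = 1) ∧
    ∀ i, ((y i : ℕ) : ℤ) - ((x i : ℕ) : ℤ) = t * v i

def S (n : ℕ) : Finset (Fin 3 → Fin n) :=
  Finset.univ.filter (fun x => (n : ℤ) ∣ ((x 0 : ℕ) : ℤ) + 2 * ((x 1 : ℕ) : ℤ) + 4 * ((x 2 : ℕ) : ℤ))

theorem mem_S {n : ℕ} (x : Fin 3 → Fin n) :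
    x ∈ S n ↔ (n : ℤ) ∣ ((x 0 : ℕ) : ℤ) + 2 * ((x 1 : ℕ) : ℤ) + 4 * ((x 2 : ℕ) : ℤ) := by
  simp [S]

theorem v_ne {v : Fin 3 → ℤ} (hv : v ≠ 0) : v 0 ≠ 0 ∨ v 1 ≠ 0 ∨ v 2 ≠ 0 := by
  by_contra h
  push Not at h
  apply hv
  funext i
  fin_cases i
  · exact h.1
  · exact h.2.1
  · exact h.2.2

theorem S_ok {n : ℕ} (hp : n.Prime) (hn : 11 ≤ n) : ∀ x ∈ S n, ∀ y ∈ S n, ¬ Att x y := by
  rintro x hx y hy ⟨t, ht, v, hv, hv1, h⟩
  rw [mem_S] at hx hy
  have hd := dvd_sub hy hx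
  have e : ((y 0 : ℕ) : ℤ) + 2 * ((y 1 : ℕ) : ℤ) + 4 * ((y 2 : ℕ) : ℤ) -
      (((x 0 : ℕ) : ℤ) + 2 * ((x 1 : ℕ) : ℤ) + 4 * ((x 2 : ℕ) : ℤ)) =
      t * (v 0 + 2 * v 1 + 4 * v 2) := by
    linear_combination h 0 + 2 * h 1 + 4 * h 2
  rw [e] at hd
  have hpz : Prime (n : ℤ) := Nat.prime_iff_prime_int.1 hp
  have hvn := v_ne hv
  rcases hpz.dvd_or_dvd hd with h1 | h1
  · have hle := Int.le_abs_of_dvd ht h1
    have key : ∀ i, v i ≠ 0 → False := by
      intro i hi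
      have h2 := h i
      have a1 := (x i).2
      have a2 := (y i).2
      rcases hv1 i with h3 | h3 | h3
      · rw [h3] at h2
        rcases abs_cases t with h4 | h4 <;> omega
      · exact hi h3
      · rw [h3] at h2
        rcases abs_cases t with h4 | h4 <;> omega
    rcases hvn with h | h | h <;> exact key _ h
  · have b0 := hv1 0
    have b1 := hv1 1
    have b2 := hv1 2
    have hk : v 0 + 2 * v 1 + 4 * v 2 ≠ 0 := by omega
    have hle := Int.le_abs_of_dvd hk h1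
    rcases abs_cases (v 0 + 2 * v 1 + 4 * v 2) with h4 | h4 <;> omega

theorem att_line {n : ℕ} (x y : Fin 3 → Fin n) (j : Fin 3) (hne : x ≠ y)
    (h : ∀ i, i ≠ j → x i = y i) : Att x y := by
  have hj : x j ≠ y j := by
    intro hj
    apply hne
    funext i
    by_cases hi : i = j
    · rw [hi, hj]
    · exact h i hi
  refine ⟨((y j : ℕ) : ℤ) - ((x j : ℕ) : ℤ), ?_, Pi.single j 1, ?_, ?_, ?_⟩
  · intro h0
    apply hj
    apply Fin.ext
    omega
  · intro h0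
    have := congrFun h0 j
    simp at this
  · intro i
    by_cases hi : i = j
    · subst hi; simp
    · simp [hi]
  · intro i
    by_cases hi : i = j
    · subst hi; simp
    · simp [hi, h i hi]

theorem S_card {n : ℕ} (hn : 0 < n) : n * n ≤ (S n).card := by
  have hz : (0 : ℤ) < n := by exact_mod_cast hn
  let f : Fin n × Fin n → (Fin 3 → Fin n) := fun p =>
    ![⟨((-(2 * ((p.1 : ℕ) : ℤ) + 4 * ((p.2 : ℕ) : ℤ))) % n).toNat, by
      have h1 := Int.emod_lt_of_pos (-(2 * ((p.1 : ℕ) : ℤ) + 4 * ((p.2 : ℕ) : ℤ))) hz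
      omega⟩, p.1, p.2]
  have : (Finset.univ : Finset (Fin n × Fin n)).card ≤ (S n).card := by
    apply Finset.card_le_card_of_injOn f
    · intro p _
      rw [Finset.mem_coe, mem_S]
      have h1 := Int.emod_nonneg (-(2 * ((p.1 : ℕ) : ℤ) + 4 * ((p.2 : ℕ) : ℤ))) hz.ne'
      have h2 := Int.emod_add_mul_ediv (-(2 * ((p.1 : ℕ) : ℤ) + 4 * ((p.2 : ℕ) : ℤ))) n
      refine ⟨-((-(2 * ((p.1 : ℕ) : ℤ) + 4 * ((p.2 : ℕ) : ℤ))) / n), ?_⟩
      show (((((-(2 * ((p.1 : ℕ) : ℤ) + 4 * ((p.2 : ℕ) : ℤ))) % n).toNat : ℕ) : ℤ)) +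
        2 * ((p.1 : ℕ) : ℤ) + 4 * ((p.2 : ℕ) : ℤ) = _
      rw [Int.toNat_of_nonneg h1]
      linarith
    · intro p _ q _ hpq
      have h1 := congrFun hpq 1
      have h2 := congrFun hpq 2
      exact Prod.ext h1 h2
  simpa using this

theorem result :
    ¬ (∀ d : ℕ, 3 ≤ d → ∃ c : ℝ, 0 < c ∧ ∃ N : ℕ, ∀ n : ℕ, N ≤ n →
      ∀ Q : Finset (Fin d → Fin n),
        (∀ x ∈ Q, ∀ y ∈ Q, ¬ ∃ t : ℤ, t ≠ 0 ∧ ∃ v : Fin d → ℤ, v ≠ 0 ∧
            (∀ i, v i = -1 ∨ v i = 0 ∨ v i = 1) ∧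
            ∀ i, ((y i : ℕ) : ℤ) - ((x i : ℕ) : ℤ) = t * v i) →
        (Q.card : ℝ) ≤ (n : ℝ) ^ (d - 1) / c →
        ∃ P : Finset (Fin d → Fin n), Q ⊆ P ∧
          (∀ x ∈ P, ∀ y ∈ P, ¬ ∃ t : ℤ, t ≠ 0 ∧ ∃ v : Fin d → ℤ, v ≠ 0 ∧
            (∀ i, v i = -1 ∨ v i = 0 ∨ v i = 1) ∧
            ∀ i, ((y i : ℕ) : ℤ) - ((x i : ℕ) : ℤ) = t * v i) ∧
          ∀ R : Finset (Fin d → Fin n),
            (∀ x ∈ R, ∀ y ∈ R, ¬ ∃ t : ℤ, t ≠ 0 ∧ ∃ v : Fin d → ℤ, v ≠ 0 ∧
              (∀ i, v i = -1 ∨ v i = 0 ∨ v i = 1) ∧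
              ∀ i, ((y i : ℕ) : ℤ) - ((x i : ℕ) : ℤ) = t * v i) →
            R.card ≤ P.card) := by
  intro h
  obtain ⟨c, hc, N, hN⟩ := h 3 le_rfl
  obtain ⟨n, hnle, hp⟩ := Nat.exists_infinite_primes (N + 11 + ⌈2 * c⌉₊)
  have hn11 : 11 ≤ n := by omega
  have : NeZero n := ⟨by omega⟩
  let o : Fin n := ⟨1, by omega⟩
  let q : Fin 3 → Fin n := ![0, 0, o]
  let T : Finset (Fin 3 → Fin n) := (S n).filter (fun x => x 2 = 0 ∧ x ≠ 0)
  have hS := S_ok hp hn11
  have hTq : ∀ w ∈ T, ∀ t : ℤ, ∀ v : Fin 3 → ℤ, (∀ i, v i = -1 ∨ v i = 0 ∨ v i = 1) →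
      (∀ i, ((w i : ℕ) : ℤ) - ((q i : ℕ) : ℤ) = t * v i) → False := by
    intro w hw t v hv h
    rw [Finset.mem_filter, mem_S] at hw
    obtain ⟨hd, h2, h0⟩ := hw
    have e0 : ((w 0 : ℕ) : ℤ) - 0 = t * v 0 := h 0
    have e1 : ((w 1 : ℕ) : ℤ) - 0 = t * v 1 := h 1
    have e2 : ((w 2 : ℕ) : ℤ) - 1 = t * v 2 := h 2
    have w2 : (w 2 : ℕ) = 0 := by rw [h2]; rfl
    rw [w2] at hd e2
    have ht : t = 1 ∨ t = -1 := by
      rcases hv 2 with h3 | h3 | h3 <;> rw [h3] at e2 <;> omega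
    have a0 : (w 0 : ℕ) ≤ 1 := by
      rcases hv 0 with h3 | h3 | h3 <;> rw [h3] at e0 <;> omega
    have a1 : (w 1 : ℕ) ≤ 1 := by
      rcases hv 1 with h3 | h3 | h3 <;> rw [h3] at e1 <;> omega
    have hz : ((w 0 : ℕ) : ℤ) + 2 * ((w 1 : ℕ) : ℤ) + 4 * ((0 : ℕ) : ℤ) = 0 := by
      by_contra hne
      have hle := Int.le_abs_of_dvd hne hd
      rw [abs_of_nonneg (by positivity)] at hle
      omega
    apply h0
    funext i
    fin_cases i
    · apply Fin.ext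
      show (w 0 : ℕ) = 0
      omega
    · apply Fin.ext
      show (w 1 : ℕ) = 0
      omega
    · exact h2
  have hQ : ∀ x ∈ insert q T, ∀ y ∈ insert q T, ¬ Att x y := by
    intro x hx y hy
    rw [Finset.mem_insert] at hx hy
    rcases hx with rfl | hx <;> rcases hy with rfl | hy
    · rintro ⟨t, ht, v, hv, -, h⟩
      apply hv
      funext i
      have := h i
      rw [sub_self] at this
      exact (mul_eq_zero.1 this.symm).resolve_left ht
    · rintro ⟨t, ht, v, hv, hv1, h⟩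
      exact hTq y hy t v hv1 h
    · rintro ⟨t, ht, v, hv, hv1, h⟩
      exact hTq x hx (-t) v hv1 (fun i => by have := h i; linarith)
    · exact hS x (Finset.mem_filter.1 hx).1 y (Finset.mem_filter.1 hy).1
  have hTc : T.card ≤ n := by
    have : T.card ≤ (Finset.univ : Finset (Fin n)).card := by
      apply Finset.card_le_card_of_injOn (fun x => x 1)
      · intro x _; simp
      · intro x hx y hy hxy
        rw [Finset.mem_coe, Finset.mem_filter] at hx hy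
        by_contra hne
        refine hS x hx.1 y hy.1 (att_line x y 0 hne ?_)
        intro i hi
        fin_cases i
        · exact absurd rfl hi
        · exact hxy
        · exact hx.2.1.trans hy.2.1.symm
    simpa using this
  have hcard : ((insert q T).card : ℝ) ≤ (n : ℝ) ^ (3 - 1) / c := by
    have h1 : (insert q T).card ≤ n + 1 := (Finset.card_insert_le _ _).trans (by omega)
    have h2 : ((insert q T).card : ℝ) ≤ n + 1 := by exact_mod_cast h1
    have h3 : 2 * c ≤ n := (Nat.le_ceil _).trans (by exact_mod_cast (by omega : ⌈2 * c⌉₊ ≤ n))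
    have h4 : (11 : ℝ) ≤ n := by exact_mod_cast hn11
    rw [le_div_iff₀ hc]
    show _ ≤ (n : ℝ) ^ 2
    nlinarith
  obtain ⟨P, hQP, hP, hmax⟩ := hN n (by omega) (insert q T) hQ hcard
  have h1 := hmax (S n) hS
  have h2 := S_card (n := n) (by omega)
  have h3 : P.card ≤ ((Finset.univ : Finset (Fin n × Fin n)).erase (0, 0)).card := by
    apply Finset.card_le_card_of_injOn (fun x => (x 1, x 2))
    · intro x hx
      rw [Finset.mem_coe] at hx
      rw [Finset.mem_coe, Finset.mem_erase]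
      refine ⟨fun h0 => ?_, Finset.mem_univ _⟩
      have x1 : x 1 = 0 := congrArg Prod.fst h0
      have x2 : x 2 = 0 := congrArg Prod.snd h0
      by_cases x0 : x 0 = 0
      · refine hP x hx q (hQP (Finset.mem_insert_self _ _)) (att_line x q 2 ?_ ?_)
        · intro hxq
          have := congrFun hxq 2
          rw [x2] at this
          have h5 : (0 : ℕ) = 1 := congrArg Fin.val this
          omega
        · intro i hi
          fin_cases i
          · exact x0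
          · exact x1
          · exact absurd rfl hi
      · have hodd : n % 2 = 1 := (hp.eq_two_or_odd).resolve_left (by omega)
        have hx0 : (x 0 : ℕ) ≠ 0 := fun h5 => x0 (Fin.ext h5)
        have hlt := (x 0).2
        obtain ⟨y, hy1, hy2, hy3⟩ : ∃ y : ℕ, y < n ∧ y ≠ 0 ∧
            ((x 0 : ℕ) + 2 * y = n ∨ (x 0 : ℕ) + 2 * y = 2 * n) := by
          by_cases hpar : (x 0 : ℕ) % 2 = 0
          · exact ⟨n - (x 0 : ℕ) / 2, by omega, by omega, by omega⟩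
          · exact ⟨(n - (x 0 : ℕ)) / 2, by omega, by omega, by omega⟩
        let w : Fin 3 → Fin n := ![x 0, ⟨y, hy1⟩, 0]
        have hw1 : w 1 ≠ 0 := fun h5 => hy2 (congrArg Fin.val h5)
        have hw : w ∈ T := by
          rw [Finset.mem_filter, mem_S]
          refine ⟨?_, rfl, fun h5 => hw1 (congrFun h5 1)⟩
          show (n : ℤ) ∣ ((x 0 : ℕ) : ℤ) + 2 * (y : ℤ) + 4 * ((0 : ℕ) : ℤ)
          rcases hy3 with h5 | h5
          · exact ⟨1, by omega⟩
          · exact ⟨2, by omega⟩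
        refine hP x hx w (hQP (Finset.mem_insert_of_mem hw)) (att_line x w 1 ?_ ?_)
        · intro hxw
          exact hw1 ((congrFun hxw 1).symm.trans x1)
        · intro i hi
          fin_cases i
          · rfl
          · exact absurd rfl hi
          · exact x2
    · intro x hx y hy hxy
      rw [Finset.mem_coe] at hx hy
      by_contra hne
      refine hP x hx y hy (att_line x y 0 hne ?_)
      intro i hi
      fin_cases i
      · exact absurd rfl hi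
      · exact congrArg Prod.fst hxy
      · exact congrArg Prod.snd hxy
  rw [Finset.card_erase_of_mem (Finset.mem_univ _)] at h3
  simp only [Finset.card_univ, Fintype.card_prod, Fintype.card_fin] at h3
  have : 0 < n * n := by positivity
  omega

end Pool.Agent.S09708
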