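import Pool.Statements.S09751
import Pool.Agent.Lib.helper1.OddBF

set_option autoImplicit false
open Pool Pool.MP_802e1f_co

namespace Pool.Agent.S09751

theorem result :
    ∀ t : ℕ, ∃ C : ℝ, ∀ m n : ℕ, ∀ f : Fin n → Finset (Fin m) → ℝ,
      (∀ i : Fin n, ∀ S : Finset (Fin m), ∀ g : Fin m,
          |f i (insert g S) - f i S| ≤ 1) →
      (∀ g : Fin m,
          {i : Fin n | ∃ S : Finset (Fin m), f i S ≠ f i (insert g S)}.ncard ≤ t) →
      ∃ S : Finset (Fin m), ∀ i : Fin n, |f i S - f i Sᶜ| ≤ C := by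
  classical
  refine fun t => ⟨t, fun m n f h1 h2 => ?_⟩
  let c : Fin n → Fin m → ℝ := fun i g => if ∃ S, f i S ≠ f i (insert g S) then 1 else 0
  have c0 : ∀ i g, 0 ≤ c i g := fun i g => by simp only [c]; split_ifs <;> norm_num
  have hc : ∀ i S g, |f i (insert g S) - f i S| ≤ c i g := by
    intro i S g
    simp only [c]
    split_ifs with h
    · exact h1 i S g
    · push Not at h
      simp [← h S]
  refine Pool.Agent.Lib.helper1.OddBF.bf (fun i S => f i S - f i Sᶜ) c t (by positivity)
    (fun v S => by simp) c0 (fun v N S S' h => ?_) fun g => ?_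
  · have a := Pool.Agent.Lib.helper1.OddBF.lip (f v) (c v) (c0 v) (hc v) N S S' h
    have b := Pool.Agent.Lib.helper1.OddBF.lip (f v) (c v) (c0 v) (hc v) N Sᶜ S'ᶜ (by
      ext x
      have := Finset.ext_iff.1 h x
      simp only [Finset.mem_sdiff, Finset.mem_compl] at this ⊢
      tauto)
    rw [abs_le] at a b
    linarith [a.2, b.1]
  · have := h2 g
    rw [Set.ncard_eq_toFinset_card'] at this
    simp only [c, Finset.sum_boole]
    simp only [Set.toFinset_ofPred] at this
    exact_mod_cast this

end Pool.Agent.S09751
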