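import Pool.Statements.S09803
import Pool.Agent.H.MP_9c4767_co.E

set_option autoImplicit false
open Pool Pool.MP_828a2e_co

namespace Pool.Agent.S09803

theorem result :
    ∃ c : ℕ, ∀ (G : Type) [Group G] [Fintype G],
      ∃ (V : Type) (_ : Fintype V) (_ : DecidableEq V) (B : Finset (Finset V)),
        (∀ b ∈ B, b.card = 3) ∧
        (∀ x y : V, x ≠ y → ∃! b, b ∈ B ∧ x ∈ b ∧ y ∈ b) ∧
        Fintype.card V ≤ (Fintype.card G) ^ c ∧
        ∃ φ : G →* Equiv.Perm V, Function.Injective φ ∧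
          ∀ g : G, ∀ b ∈ B, b.image (⇑(φ g)) ∈ B := by
  refine ⟨17, fun G _ _ => ?_⟩
  obtain ⟨m, B, h1, h2, h3, φ, h4, h5⟩ := Pool.Agent.STSAut.main G
  refine ⟨Fin m, inferInstance, inferInstance, B, h2, h3, by simpa using h1, φ, h4,
    fun g b hb => ?_⟩
  have := ((h5 (φ g)).1 ⟨g, rfl⟩ b).1 hb
  rwa [Finset.map_eq_image] at this

end Pool.Agent.S09803
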