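import Pool.Statements.S09828
-- import your own Pool.Agent.* helpers here

set_option autoImplicit false
open Pool Pool.MP_83775f_co

namespace Pool.Agent.S09828

abbrev TV (p d : ℕ) : Type := {l : List (Fin (p + 1)) // l.length ≤ d + 1}

def TG (p d : ℕ) : SimpleGraph (TV p d) := SimpleGraph.fromRel fun x y => ∃ a, x.1 = a :: y.1

lemma visit {p d : ℕ} (w : TV p d) {u v : TV p d} (q : (TG p d).Walk u v) (h : w.1 <:+ u.1)
    (k : ∀ a, a :: w.1 <:+ u.1 → ¬ a :: w.1 <:+ v.1) : w ∈ q.support := by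
  induction q with
  | @nil u =>
    obtain ⟨s, hs⟩ := h
    rcases List.eq_nil_or_concat s with rfl | ⟨s, a, rfl⟩
    · simp [Subtype.ext_iff, ← hs]
    · exact absurd ⟨s, by simp [← hs]⟩ (k a ⟨s, by simp [← hs]⟩)
  | @cons u u' v e q ih =>
    by_cases hu : w = u
    · simp [hu]
    have hu' : w.1 ≠ u.1 := fun h => hu (Subtype.ext h)
    rw [SimpleGraph.Walk.support_cons]
    refine List.mem_cons_of_mem _ ?_
    rcases ((SimpleGraph.fromRel_adj _ _ _).1 e).2 with ⟨b, hb⟩ | ⟨b, hb⟩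
    · rw [hb] at h hu'
      refine ih ((List.suffix_cons_iff.1 h).resolve_left hu') fun a ha => k a ?_
      rw [hb]; exact ha.trans (List.suffix_cons _ _)
    · refine ih (hb ▸ h.trans (List.suffix_cons _ _)) fun a ha => k a ?_
      rw [hb] at ha
      exact (List.suffix_cons_iff.1 ha).resolve_left fun e => hu' (List.cons_eq_cons.1 e).2

lemma median {p d : ℕ} (x y z : TV p d) : ∃ w : TV p d, (∀ q : (TG p d).Walk x y, w ∈ q.support) ∧
    (∀ q : (TG p d).Walk y z, w ∈ q.support) ∧ ∀ q : (TG p d).Walk z x, w ∈ q.support := by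
  have : Finite (TV p d) := (List.finite_length_le _ _).to_subtype
  obtain ⟨w, hw, hm⟩ := Set.exists_max_image
    {w : TV p d | (w.1 <:+ x.1 ∧ w.1 <:+ y.1) ∨ (w.1 <:+ y.1 ∧ w.1 <:+ z.1) ∨ (w.1 <:+ z.1 ∧ w.1 <:+ x.1)}
    (fun w => w.1.length) (Set.toFinite _) ⟨⟨[], by simp⟩, by simp⟩
  have key : ∀ a, ¬ ((a :: w.1 <:+ x.1 ∧ a :: w.1 <:+ y.1) ∨ (a :: w.1 <:+ y.1 ∧ a :: w.1 <:+ z.1) ∨
      (a :: w.1 <:+ z.1 ∧ a :: w.1 <:+ x.1)) := fun a h => by
    have := hm ⟨a :: w.1, by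
      rcases h with h | h | h
      exacts [h.1.length_le.trans x.2, h.1.length_le.trans y.2, h.1.length_le.trans z.2]⟩ h
    simp at this
  have two : ∀ u v : TV p d, w.1 <:+ u.1 ∨ w.1 <:+ v.1 →
      (∀ a, ¬ (a :: w.1 <:+ u.1 ∧ a :: w.1 <:+ v.1)) → ∀ q : (TG p d).Walk u v, w ∈ q.support := by
    rintro u v (h | h) k q
    · exact visit w q h fun a i j => k a ⟨i, j⟩
    · simpa using visit w q.reverse h fun a i j => k a ⟨j, i⟩
  refine ⟨w, two _ _ ?_ fun a h => key a (by tauto), two _ _ ?_ fun a h => key a (by tauto),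
    two _ _ ?_ fun a h => key a (by tauto)⟩ <;> rcases hw with h | h | h <;> tauto

lemma len_le {p d : ℕ} {u v : TV p d} (q : (TG p d).Walk u v) :
    v.1.length ≤ u.1.length + q.length := by
  induction q with
  | nil => simp
  | cons e q ih =>
    rcases ((SimpleGraph.fromRel_adj _ _ _).1 e).2 with ⟨b, hb⟩ | ⟨b, hb⟩ <;>
      simp [hb] at ih ⊢ <;> omega

/-- The negation of the preceding statement: For every finite graph H there are p,d such that every finite graph G with no 3-fat H-minor has a partition into connected parts, each of weak diameter at most d, such that every radius-2 ball meets at most p parts. -/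
theorem result :
    ¬ (∀ (W : Type) [Fintype W] (H : SimpleGraph W), ∃ p d : ℕ,
    ∀ (V : Type) [Fintype V] (G : SimpleGraph V),
      (¬ ∃ (B : W → Set V) (P : W → W → Set V),
          (∀ w, (B w).Nonempty ∧
              ∀ x ∈ B w, ∀ y ∈ B w, ∃ q : G.Walk x y, ∀ z ∈ q.support, z ∈ B w) ∧
          (∀ a b, H.Adj a b →
              ∃ x ∈ B a, ∃ y ∈ B b, ∃ q : G.Walk x y, ∀ z ∈ q.support, z ∈ P a b) ∧
          (∀ v w, v ≠ w → ∀ x ∈ B v, ∀ y ∈ B w, (3 : ℕ∞) ≤ G.edist x y) ∧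
          (∀ a b, H.Adj a b → ∀ v, v ≠ a → v ≠ b →
              ∀ x ∈ P a b, ∀ y ∈ B v, (3 : ℕ∞) ≤ G.edist x y) ∧
          (∀ a b c e, H.Adj a b → H.Adj c e → s(a, b) ≠ s(c, e) →
              ∀ x ∈ P a b, ∀ y ∈ P c e, (3 : ℕ∞) ≤ G.edist x y)) →
      ∃ f : V → V,
        (∀ x y, f x = f y → ∃ q : G.Walk x y, ∀ z ∈ q.support, f z = f x) ∧
        (∀ x y, f x = f y → G.edist x y ≤ (d : ℕ∞)) ∧
        (∀ u, {i : V | ∃ v, G.edist u v ≤ 2 ∧ f v = i}.ncard ≤ p)) := by
  intro h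
  obtain ⟨p, d, h⟩ := h (Fin 3) ⊤
  have : Finite (TV p d) := (List.finite_length_le _ _).to_subtype
  have := Fintype.ofFinite (TV p d)
  obtain ⟨f, h1, h2, h3⟩ := h (TV p d) (TG p d) (by
    rintro ⟨B, P, b1, b2, b3, b4, b5⟩
    obtain ⟨x0, hx0, y1, hy1, q01, k01⟩ := b2 0 1 (by decide)
    obtain ⟨x1, hx1, y2, hy2, q12, k12⟩ := b2 1 2 (by decide)
    obtain ⟨x2, hx2, y0, hy0, q20, k20⟩ := b2 2 0 (by decide)
    obtain ⟨r1, j1⟩ := (b1 1).2 _ hy1 _ hx1
    obtain ⟨r2, j2⟩ := (b1 2).2 _ hy2 _ hx2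
    obtain ⟨r0, j0⟩ := (b1 0).2 _ hy0 _ hx0
    obtain ⟨w, m1, m2, m3⟩ := median x0 x1 x2
    have m1 := m1 (q01.append r1)
    have m2 := m2 (q12.append r2)
    have m3 := m3 (q20.append r0)
    rw [SimpleGraph.Walk.mem_support_append_iff] at m1 m2 m3
    have z : ¬ (3 : ℕ∞) ≤ (TG p d).edist w w := by simp
    rcases m1 with m1 | m1
    · rcases m2 with m2 | m2
      · exact z (b5 0 1 1 2 (by decide) (by decide) (by decide) _ (k01 _ m1) _ (k12 _ m2))
      · exact z (b4 0 1 (by decide) 2 (by decide) (by decide) _ (k01 _ m1) _ (j2 _ m2))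
    · rcases m3 with m3 | m3
      · exact z (b4 2 0 (by decide) 1 (by decide) (by decide) _ (k20 _ m3) _ (j1 _ m1))
      · exact z (b3 1 0 (by decide) _ (j1 _ m1) _ (j0 _ m3)))
  let r : TV p d := ⟨[], by simp⟩
  obtain ⟨w, hw, hm⟩ := Set.exists_max_image {w : TV p d | f r = f w} (fun w => w.1.length)
    (Set.toFinite _) ⟨r, rfl⟩
  have hl : w.1.length ≤ d := by
    have e := h2 r w hw
    obtain ⟨q, hq⟩ := SimpleGraph.exists_walk_of_edist_ne_top
      (ne_top_of_le_ne_top (ENat.natCast_ne_top d) e)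
    have := len_le q
    rw [← hq] at e
    have e' : q.length ≤ d := by exact_mod_cast e
    simp [r] at this
    omega
  let c : Fin (p + 1) → TV p d := fun a => ⟨a :: w.1, by simpa using hl⟩
  have hc : Function.Injective fun a => f (c a) := by
    intro a b e
    by_contra hab
    obtain ⟨q, hq⟩ := h1 _ _ e
    have := hq w (visit w q (List.suffix_cons _ _) fun t i j => hab (by
      have i' := i.eq_of_length rfl
      have j' := j.eq_of_length rfl
      exact ((List.cons_eq_cons.1 i').1.symm.trans (List.cons_eq_cons.1 j').1)))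
    have := hm (c a) (hw.trans this)
    simp [c] at this
  have := (Set.ncard_le_ncard (s := Set.range fun a => f (c a)) (by
    rintro _ ⟨a, rfl⟩
    refine ⟨c a, ?_, rfl⟩
    have e : (TG p d).Adj w (c a) := (SimpleGraph.fromRel_adj _ _ _).2
      ⟨fun e => by simpa [c] using congrArg (fun t => t.1.length) e, Or.inr ⟨a, rfl⟩⟩
    rw [SimpleGraph.edist_eq_one_iff_adj.2 e]
    norm_num) (Set.toFinite _)).trans (h3 w)
  rw [Set.ncard_range_of_injective hc] at this
  simp at this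


end Pool.Agent.S09828
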