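import Pool.Statements.S09851
import Pool.Agent.H.MP_84cfc0_co.Main

set_option autoImplicit false
open Pool Pool.MP_84cfc0_co

namespace Pool.Agent.S09851

theorem result :
    ∀ n : ℕ, 2 ≤ n → Even n →
      ∀ R : Set (ℕ × ℕ),
        R = {p : ℕ × ℕ | p.1 < 2 * n ∧ p.2 < 2 * n ∧
              ¬ ∃ i : ℕ, i < n / 2 ∧ p.1 = i ∧ (p.2 = i ∨ p.2 = i + 1)} →
        ∃ k : ℕ, Odd k ∧
          Nat.card {f : R → R // ∀ x : R, f (f x) = x ∧
            ((x.1.1 = (f x).1.1 ∧ (x.1.2 + 1 = (f x).1.2 ∨ (f x).1.2 + 1 = x.1.2)) ∨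
             (x.1.2 = (f x).1.2 ∧ (x.1.1 + 1 = (f x).1.1 ∨ (f x).1.1 + 1 = x.1.1)))}
            = 2 ^ (n / 2) * k ^ 2 := by
  intro n hn he R hR
  have h := (Pool.Agent.H.MP_84cfc0_co.main n (n / 2) (by omega) R hR).1 (by omega)
  obtain ⟨l, rfl⟩ := he
  rw [show l + l - (l + l) / 2 = (l + l) / 2 by omega] at h
  exact h

end Pool.Agent.S09851
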