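import Pool.Statements.S09854
import Mathlib
import Pool.Agent.H.MP_84ee99_co.C

set_option autoImplicit false
open Pool Pool.MP_84ee99_co

namespace Pool.Agent.S09854
open Pool.Agent.H.MP_84ee99_co

/-- The negation of the preceding statement: Every convex 3-polytope has a combinatorially equivalent convex 3-polytope with equal corresponding edge lengths in which every edge-length-preserving combinatorial automorphism is induced by an isometry of space. -/
theorem result :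
    ¬ (∀ (S : Finset (EuclideanSpace ℝ (Fin 3))),
      (∀ x ∈ S, x ∉ convexHull ℝ ((S : Set (EuclideanSpace ℝ (Fin 3))) \ {x})) →
      (interior (convexHull ℝ (S : Set (EuclideanSpace ℝ (Fin 3))))).Nonempty →
      ∃ (T : Finset (EuclideanSpace ℝ (Fin 3))) (e : {x // x ∈ S} ≃ {x // x ∈ T}),
        (∀ x ∈ T, x ∉ convexHull ℝ ((T : Set (EuclideanSpace ℝ (Fin 3))) \ {x})) ∧
        (interior (convexHull ℝ (T : Set (EuclideanSpace ℝ (Fin 3))))).Nonempty ∧
        (∀ a b : {x // x ∈ S},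
          ((a ≠ b ∧ ∃ u : EuclideanSpace ℝ (Fin 3),
              @inner ℝ (EuclideanSpace ℝ (Fin 3)) _ u a.1 = @inner ℝ (EuclideanSpace ℝ (Fin 3)) _ u b.1 ∧
              ∀ z ∈ S, z ≠ a.1 → z ≠ b.1 →
                @inner ℝ (EuclideanSpace ℝ (Fin 3)) _ u z < @inner ℝ (EuclideanSpace ℝ (Fin 3)) _ u a.1) ↔
           (e a ≠ e b ∧ ∃ u : EuclideanSpace ℝ (Fin 3),
              @inner ℝ (EuclideanSpace ℝ (Fin 3)) _ u (e a).1 = @inner ℝ (EuclideanSpace ℝ (Fin 3)) _ u (e b).1 ∧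
              ∀ z ∈ T, z ≠ (e a).1 → z ≠ (e b).1 →
                @inner ℝ (EuclideanSpace ℝ (Fin 3)) _ u z < @inner ℝ (EuclideanSpace ℝ (Fin 3)) _ u (e a).1))) ∧
        (∀ a b : {x // x ∈ S},
          (a ≠ b ∧ ∃ u : EuclideanSpace ℝ (Fin 3),
              @inner ℝ (EuclideanSpace ℝ (Fin 3)) _ u a.1 = @inner ℝ (EuclideanSpace ℝ (Fin 3)) _ u b.1 ∧
              ∀ z ∈ S, z ≠ a.1 → z ≠ b.1 →
                @inner ℝ (EuclideanSpace ℝ (Fin 3)) _ u z < @inner ℝ (EuclideanSpace ℝ (Fin 3)) _ u a.1) →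
          dist (e a).1 (e b).1 = dist a.1 b.1) ∧
        ∀ σ : {x // x ∈ T} ≃ {x // x ∈ T},
          (∀ a b : {x // x ∈ T},
            ((a ≠ b ∧ ∃ u : EuclideanSpace ℝ (Fin 3),
                @inner ℝ (EuclideanSpace ℝ (Fin 3)) _ u a.1 = @inner ℝ (EuclideanSpace ℝ (Fin 3)) _ u b.1 ∧
                ∀ z ∈ T, z ≠ a.1 → z ≠ b.1 →
                  @inner ℝ (EuclideanSpace ℝ (Fin 3)) _ u z < @inner ℝ (EuclideanSpace ℝ (Fin 3)) _ u a.1) ↔
             (σ a ≠ σ b ∧ ∃ u : EuclideanSpace ℝ (Fin 3),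
                @inner ℝ (EuclideanSpace ℝ (Fin 3)) _ u (σ a).1 = @inner ℝ (EuclideanSpace ℝ (Fin 3)) _ u (σ b).1 ∧
                ∀ z ∈ T, z ≠ (σ a).1 → z ≠ (σ b).1 →
                  @inner ℝ (EuclideanSpace ℝ (Fin 3)) _ u z < @inner ℝ (EuclideanSpace ℝ (Fin 3)) _ u (σ a).1))) →
          (∀ a b : {x // x ∈ T},
            (a ≠ b ∧ ∃ u : EuclideanSpace ℝ (Fin 3),
                @inner ℝ (EuclideanSpace ℝ (Fin 3)) _ u a.1 = @inner ℝ (EuclideanSpace ℝ (Fin 3)) _ u b.1 ∧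
                ∀ z ∈ T, z ≠ a.1 → z ≠ b.1 →
                  @inner ℝ (EuclideanSpace ℝ (Fin 3)) _ u z < @inner ℝ (EuclideanSpace ℝ (Fin 3)) _ u a.1) →
            dist (σ a).1 (σ b).1 = dist a.1 b.1) →
          ∃ g : AffineIsometryEquiv ℝ (EuclideanSpace ℝ (Fin 3)) (EuclideanSpace ℝ (Fin 3)),
            ∀ a : {x // x ∈ T}, g a.1 = (σ a).1) := by
  intro HH
  have hr : (S0 : Set E) = Set.range v := by rw [← rng S0 ι0, ι0_val]
  obtain ⟨T, e, hcv, -, hed, hlen, hsym⟩ := HH S0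
    (by
      intro x hx
      obtain ⟨i, hi⟩ := ι0.surjective ⟨x, hx⟩
      have : x = v i := (congrArg Subtype.val hi).symm
      rw [hr, this]; exact v_cv i)
    (by rw [hr]; exact v_int)
  let ι : Fin 7 ≃ {x // x ∈ T} := ι0.trans e
  let w : Fin 7 → E := fun k => (ι k).1
  have hE : ∀ i j, Ed w i j ↔ G i j = true := fun i j =>
    ((bridge T ι i j).symm.trans (hed (ι0 i) (ι0 j)).symm).trans
      ((bridge S0 ι0 i j).trans ⟨v_ed2 i j, v_ed1 i j⟩)
  have hL : ∀ i j, G i j = true → dist (w i) (w j) = dist (v i) (v j) := fun i j h =>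
    hlen (ι0 i) (ι0 j) ((bridge S0 ι0 i j).2 (v_ed1 i j h))
  have hσ : ∀ i, (ι.symm.trans (τ.trans ι)) (ι i) = ι (τ i) := fun i => by simp
  obtain ⟨g, hg⟩ := hsym (ι.symm.trans (τ.trans ι))
    (by
      intro a b
      obtain ⟨i, rfl⟩ := ι.surjective a
      obtain ⟨j, rfl⟩ := ι.surjective b
      rw [hσ, hσ, bridge, bridge, hE, hE, τG])
    (by
      intro a b
      obtain ⟨i, rfl⟩ := ι.surjective a
      obtain ⟨j, rfl⟩ := ι.surjective b
      rw [hσ, hσ, bridge, hE]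
      intro h
      exact (hL _ _ (by rw [τG]; exact h)).trans ((τd i j h).trans (hL i j h).symm))
  have hs : ∀ i j, dist (w (τ i)) (w (τ j)) = dist (w i) (w j) := by
    intro i j
    have a := hg (ι i)
    have b := hg (ι j)
    rw [hσ] at a b
    show dist (ι (τ i)).1 (ι (τ j)).1 = _
    rw [← a, ← b, g.dist_map]
  have hq : ∀ i j, G i j = true → dist (w i) (w j) ^ 2 =
      (v i 0 - v j 0) ^ 2 + (v i 1 - v j 1) ^ 2 + (v i 2 - v j 2) ^ 2 := fun i j h => by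
    rw [hL i j h, dsq]
  refine nosym w (fun i j h => ι.injective (Subtype.ext h))
    (fun i => by rw [rng T ι]; exact hcv _ (ι i).2) (fun i j h => (hE i j).1 h)
    ?_ ?_ ?_ ?_ ?_ ?_ ?_ ?_ ?_ ?_ ?_ (hs 1 5) (hs 1 3) (hs 2 4) (hs 6 4)
  all_goals
    rw [hq _ _ rfl]
    simp [v]
    norm_num

end Pool.Agent.S09854
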