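import Pool.Statements.S09857
import Pool.Agent.H.MP_853269_co.C

set_option autoImplicit false
open Pool Pool.MP_853269_co

namespace Pool.Agent.S09857

theorem result :
    ∀ (p : ℕ), p.Prime → ∀ (A : Finset (Fin 3 → ZMod p)), A.card = p →
      (∃ v : Fin 3 → ZMod p, v ≠ 0 ∧ ∃ c : ZMod p, ∀ a ∈ A, ∑ i, v i * a i = c) ∨
      p + 1 ≤ Set.ncard {W : Submodule (ZMod p) (Fin 3 → ZMod p) |
        ∃ a ∈ A, ∃ b ∈ A, a ≠ b ∧ W = Submodule.span (ZMod p) {a - b}} := by
  intro p hp A hA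
  classical
  have := Fact.mk hp
  by_contra hc
  obtain ⟨np, hm⟩ := not_or.1 hc
  set S := {W : Submodule (ZMod p) (Fin 3 → ZMod p) |
    ∃ a ∈ A, ∃ b ∈ A, a ≠ b ∧ W = Submodule.span (ZMod p) {a - b}} with hS
  have : Fintype S := Fintype.ofFinite S
  have ch : ∀ W : S, ∃ d, d ≠ 0 ∧ W.1 = Submodule.span (ZMod p) {d} := fun W => by
    obtain ⟨a, -, b, -, h, e⟩ := W.2
    exact ⟨_, sub_ne_zero.2 h, e⟩
  choose d d0 hd using ch
  obtain ⟨a0, h0⟩ := Finset.card_pos.1 (hp.pos.trans_eq hA.symm)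
  let I : A.erase a0 → S := fun a => ⟨_, a, Finset.mem_of_mem_erase a.2, a0, h0,
    Finset.ne_of_mem_erase a.2, rfl⟩
  have ch : ∀ a : A.erase a0, ∃ c : ZMod p, c • d (I a) = a - a0 := fun a =>
    Submodule.mem_span_singleton.1 (hd _ ▸ Submodule.mem_span_singleton_self _)
  choose c hc using ch
  have cA : (A.erase a0).card + 1 = p := by rw [Finset.card_erase_add_one h0, hA]
  have k0 : ∏ y ∈ Finset.univ.erase (0 : ZMod p), y ≠ 0 :=
    Finset.prod_ne_zero_iff.2 fun _ => Finset.ne_of_mem_erase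
  refine H.MP_853269_co.fin d (fun i => (Finset.univ.filter fun a => I a = i).card) ?_ ?_
    (-(∏ a, c a) / ∏ y ∈ Finset.univ.erase (0 : ZMod p), y) ?_ d0 ?_ ?_ ?_
  · rw [← Finset.card_eq_sum_card_fiberwise fun _ _ => Finset.mem_univ _]
    simpa using cA
  · rw [Set.ncard_eq_toFinset_card', Set.toFinset_card] at hm
    omega
  · refine div_ne_zero (neg_ne_zero.2 (Finset.prod_ne_zero_iff.2 fun a _ e => ?_)) k0
    have := hc a
    rw [e, zero_smul] at this
    exact Finset.ne_of_mem_erase a.2 (sub_eq_zero.1 this.symm)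
  · intro i j ij t e
    refine ij (Subtype.ext ?_)
    rw [hd, hd, e, Submodule.span_singleton_smul_eq]
    exact Ne.isUnit fun z => d0 j (by simp [e, z])
  · intro x
    by_cases z : ∃ i, d i ⬝ᵥ x = 0
    · obtain ⟨i, hi⟩ := z
      rw [Finset.prod_eq_zero (f := fun i => d i ⬝ᵥ x) (Finset.mem_univ i) hi,
        Finset.prod_eq_zero (Finset.mem_univ i) (by simp [hi])]
      simp
    have inj : ∀ a ∈ A, ∀ b ∈ A, (a - b) ⬝ᵥ x = 0 → a = b := fun a ha b hb e => by_contra fun n => by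
      obtain ⟨t, ht⟩ := Submodule.mem_span_singleton.1 ((hd ⟨_, a, ha, b, hb, n, rfl⟩).ge
        (Submodule.mem_span_singleton_self _))
      exact z ⟨_, by rw [← ht, smul_dotProduct, e, smul_zero]⟩
    have inj' : Set.InjOn (fun a => (a - a0) ⬝ᵥ x) (A.erase a0) := fun a ha b hb e =>
      inj a (Finset.mem_of_mem_erase ha) b (Finset.mem_of_mem_erase hb) (by
        simp only [sub_dotProduct] at e ⊢; linear_combination e)
    have im : (A.erase a0).image (fun a => (a - a0) ⬝ᵥ x) = Finset.univ.erase 0 := by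
      refine Finset.eq_of_subset_of_card_le (fun y hy => ?_) ?_
      · obtain ⟨a, ha, rfl⟩ := Finset.mem_image.1 hy
        exact Finset.mem_erase.2 ⟨fun e => Finset.ne_of_mem_erase ha
          (inj a (Finset.mem_of_mem_erase ha) a0 h0 e), Finset.mem_univ _⟩
      · rw [Finset.card_image_of_injOn inj', Finset.card_erase_of_mem (Finset.mem_univ _),
          Finset.card_univ, ZMod.card]
        omega
    have e : ∏ y ∈ Finset.univ.erase (0 : ZMod p), y =
        (∏ a, c a) * ∏ i, (d i ⬝ᵥ x) ^ (Finset.univ.filter fun a => I a = i).card := by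
      rw [← im, Finset.prod_image inj', ← Finset.prod_coe_sort]
      simp only [← hc, smul_dotProduct, smul_eq_mul, Finset.prod_mul_distrib]
      rw [← Finset.prod_fiberwise' Finset.univ I fun i => d i ⬝ᵥ x]
      simp
    simp only [pow_succ, Finset.prod_mul_distrib]
    field_simp
    rw [e]
    ring
  · intro x x0
    by_contra n
    refine np ⟨x, x0, x ⬝ᵥ a0, fun a ha => by_contra fun e => n ?_⟩
    have a1 : a ∈ A.erase a0 := Finset.mem_erase.2 ⟨fun z => e (by rw [z]; rfl), ha⟩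
    refine ⟨I ⟨a, a1⟩, Finset.card_pos.2 ⟨⟨a, a1⟩, by simp⟩, fun z => e ?_⟩
    have := congrArg (· ⬝ᵥ x) (hc ⟨a, a1⟩)
    simp only [smul_dotProduct, z, smul_zero, sub_dotProduct] at this
    rw [dotProduct_comm, ← sub_eq_zero.1 this.symm, dotProduct_comm]
    rfl

end Pool.Agent.S09857
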