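import Pool.Statements.S09866
import Mathlib
import Pool.Agent.H.MP_85b484_co.A

set_option autoImplicit false
open SimpleGraph
open Pool Pool.MP_85b484_co

namespace Pool.Agent.S09866

/-- The negation of the preceding statement: For every m ≥ 2 and finite graph G: every induced subgraph has a K_t-model with connected branch sets of size ≤ m for some t it is t-colourable with, iff G has no induced cycle of length 2k+1 with 2k ≥ 3m. -/
theorem result :
    ¬ (∀ m : ℕ, 2 ≤ m → ∀ (V : Type) [Fintype V] (G : SimpleGraph V),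
    (∀ S : Finset V, ∃ t : ℕ, (G.induce (S : Set V)).Colorable t ∧
      ∃ f : Fin t → Finset V,
        (∀ i, f i ⊆ S ∧ (f i).card ≤ m ∧ (G.induce ((f i : Finset V) : Set V)).Connected) ∧
        ∀ i j, i ≠ j → Disjoint (f i) (f j) ∧ ∃ u ∈ f i, ∃ v ∈ f j, G.Adj u v)
    ↔ (∀ k : ℕ, 3 * m ≤ 2 * k → IsEmpty (SimpleGraph.cycleGraph (2 * k + 1) ↪g G))) := by
  intro h
  obtain ⟨t, hc, f, h1, h2⟩ := (h 3 (by norm_num) (Fin 13) H.MP_85b484_co.G).2
    H.MP_85b484_co.free Finset.univ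
  have t4 := H.MP_85b484_co.col t hc
  choose r r1 r2 using fun i => H.MP_85b484_co.rep (f i) (h1 i).2.1 (h1 i).2.2
  have k := fun i j ij => H.MP_85b484_co.cp_of _ _ _ _ (r2 i) (r2 j) (h2 i j ij)
  exact H.MP_85b484_co.no4 _ _ _ _ (r1 ⟨0, by omega⟩) (r1 ⟨1, by omega⟩) (r1 ⟨2, by omega⟩)
    (r1 ⟨3, by omega⟩) (k _ _ (by simp)) (k _ _ (by simp)) (k _ _ (by simp)) (k _ _ (by simp))
    (k _ _ (by simp)) (k _ _ (by simp))

end Pool.Agent.S09866
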