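import Pool.Statements.S09874

set_option autoImplicit false
open Pool Pool.MP_85fffe_co

namespace Pool.Agent.S09874

open Finset

def pat (k : ℕ) (U : Finset ℕ) : Finset ℕ := range (k + 3) \ (insert 1 (insert (k + 1) U))

noncomputable def cs (A : Finset ℕ) : Finset ℝ := A.image (fun n : ℕ => (n : ℝ))

lemma mem_cs (A : Finset ℕ) (x : ℝ) : x ∈ cs A ↔ ∃ n ∈ A, (n : ℝ) = x := by simp [cs]

lemma cs_inj : Function.Injective cs := fun _ _ h => image_injective Nat.cast_injective h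

lemma occ (k : ℕ) (U : Finset ℕ) (h : ℕ) (hh : h ∈ insert 1 (insert (k + 1) U)) (h1 : 1 ≤ h)
    (h2 : h ≤ k + 1) :
    (cs (pat k U)).image (· + ((k + 1 - h : ℕ) : ℝ)) ⊆ cs (range (2 * k + 3) \ {k + 1}) := by
  intro x hx
  obtain ⟨y, hy, rfl⟩ := mem_image.mp hx
  obtain ⟨n, hn, rfl⟩ := (mem_cs _ _).mp hy
  refine (mem_cs _ _).mpr ⟨n + (k + 1 - h), ?_, by push_cast; ring⟩
  simp only [pat, mem_sdiff, mem_range, mem_singleton] at hn ⊢
  refine ⟨by omega, fun e => hn.2 ?_⟩
  have : n = h := by omega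
  rwa [this]

lemma maxi (k : ℕ) (U : Finset ℕ) (hU : U ⊆ Icc 2 k) (B : Finset ℝ)
    (hB : ∀ t : ℝ, (cs (pat k U)).image (· + t) ⊆ cs (range (2 * k + 3) \ {k + 1}) →
      B.image (· + t) ⊆ cs (range (2 * k + 3) \ {k + 1})) : B ⊆ cs (pat k U) := by
  intro x hx
  have key : ∀ h ∈ insert 1 (insert (k + 1) U), 1 ≤ h → h ≤ k + 1 →
      ∃ n : ℕ, n < 2 * k + 3 ∧ n ≠ k + 1 ∧ (n : ℝ) = x + ((k + 1 - h : ℕ) : ℝ) := by
    intro h hh h1 h2
    have := hB _ (occ k U h hh h1 h2) (mem_image_of_mem _ hx)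
    obtain ⟨n, hn, e⟩ := (mem_cs _ _).mp this
    simp only [mem_sdiff, mem_range, mem_singleton] at hn
    exact ⟨n, hn.1, hn.2, e⟩
  obtain ⟨n, n1, n2, n3⟩ := key (k + 1) (by simp) (by omega) le_rfl
  simp only [Nat.sub_self, Nat.cast_zero, add_zero] at n3
  subst n3
  refine (mem_cs _ _).mpr ⟨n, ?_, rfl⟩
  obtain ⟨m, m1, m2, m3⟩ := key 1 (by simp) le_rfl (by omega)
  have m4 : m = n + (k + 1 - 1) := by exact_mod_cast m3
  simp only [pat, mem_sdiff, mem_range]
  refine ⟨by omega, fun hn => ?_⟩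
  have b : 1 ≤ n ∧ n ≤ k + 1 := by
    simp only [mem_insert] at hn
    rcases hn with h | h | h
    · omega
    · omega
    · have := mem_Icc.mp (hU h); omega
  obtain ⟨q, q1, q2, q3⟩ := key n hn b.1 b.2
  have q4 : q = n + (k + 1 - n) := by exact_mod_cast q3
  omega

lemma zero_mem (k : ℕ) (U : Finset ℕ) (hU : U ⊆ Icc 2 k) : (0 : ℝ) ∈ cs (pat k U) := by
  refine (mem_cs _ _).mpr ⟨0, ?_, by simp⟩
  simp only [pat, mem_sdiff, mem_range, mem_insert]
  refine ⟨by omega, ?_⟩
  rintro (h | h | h)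
  · omega
  · omega
  · have := mem_Icc.mp (hU h); omega

lemma pat_inj (k : ℕ) (U V : Finset ℕ) (hU : U ⊆ Icc 2 k) (hV : V ⊆ Icc 2 k)
    (h : pat k U = pat k V) : U = V := by
  ext x
  have := Finset.ext_iff.mp h x
  simp only [pat, mem_sdiff, mem_range, mem_insert] at this
  constructor
  · intro hx
    have b := mem_Icc.mp (hU hx)
    by_contra hn
    exact (this.mpr ⟨by omega, by rintro (h | h | h) <;> first | omega | exact hn h⟩).2 (by simp [hx])
  · intro hx
    have b := mem_Icc.mp (hV hx)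
    by_contra hn
    exact (this.mp ⟨by omega, by rintro (h | h | h) <;> first | omega | exact hn h⟩).2 (by simp [hx])

/-- The negation of the preceding statement: There is a constant C such that for every finite set X of n reals, any family of maximally repeated patterns of X, no two of which are translates of each other, has at most C·n members. -/
theorem result :
    ¬ (∃ C : ℕ, ∀ X : Finset ℝ, ∀ S : Finset (Finset ℝ),
      (∀ A ∈ S,
        A.Nonempty ∧ A ⊆ X ∧
        (∃ t : ℝ, t ≠ 0 ∧ A.image (· + t) ⊆ X) ∧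
        (∀ B : Finset ℝ, A ⊂ B →
          ¬ (∀ t : ℝ, A.image (· + t) ⊆ X → B.image (· + t) ⊆ X))) →
      (∀ A ∈ S, ∀ B ∈ S, ∀ t : ℝ, B = A.image (· + t) → A = B) →
      S.card ≤ C * X.card) := by
  rintro ⟨C, hC⟩
  obtain ⟨k, hk⟩ : ∃ k, k = 2 * (4 * C) + 1 := ⟨_, rfl⟩
  have h := hC (cs (range (2 * k + 3) \ {k + 1}))
    ((Icc 2 k).powerset.image (fun U => cs (pat k U))) (by
      intro A hA
      obtain ⟨U, hU, rfl⟩ := mem_image.mp hA
      have hU' := mem_powerset.mp hU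
      refine ⟨⟨0, zero_mem k U hU'⟩, ?_, ⟨((k + 1 - 1 : ℕ) : ℝ), ?_, occ k U 1 (by simp) le_rfl (by omega)⟩,
        fun B hB h => hB.2 (maxi k U hU' B h)⟩
      · have := occ k U (k + 1) (by simp) (by omega) le_rfl
        simpa using this
      · have : k + 1 - 1 ≠ 0 := by omega
        exact_mod_cast this) (by
      intro A hA B hB t e
      obtain ⟨U, hU, rfl⟩ := mem_image.mp hA
      obtain ⟨V, hV, rfl⟩ := mem_image.mp hB
      have h1 := zero_mem k V (mem_powerset.mp hV)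
      have h2 : (0 + t) ∈ cs (pat k V) := by
        rw [e]; exact mem_image_of_mem _ (zero_mem k U (mem_powerset.mp hU))
      rw [e] at h1
      obtain ⟨y, hy, e1⟩ := mem_image.mp h1
      obtain ⟨n, _, rfl⟩ := (mem_cs _ _).mp hy
      obtain ⟨m, _, e2⟩ := (mem_cs _ _).mp h2
      have a1 : (0:ℝ) ≤ n := Nat.cast_nonneg _
      have a2 : (0:ℝ) ≤ m := Nat.cast_nonneg _
      have : t = 0 := by linarith
      rw [e, this]
      simp)
  rw [card_image_of_injOn (fun U hU V hV e =>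
    pat_inj k U V (mem_powerset.mp hU) (mem_powerset.mp hV) (cs_inj e)), card_powerset,
    Nat.card_Icc] at h
  have c1 : (cs (range (2 * k + 3) \ {k + 1})).card ≤ 2 * k + 2 := by
    refine card_image_le.trans ?_
    rw [card_sdiff_of_subset (by simp; omega), card_range, card_singleton]
    omega
  have c2 : k + 1 - 2 = 4 * C + 4 * C := by omega
  rw [c2, pow_add] at h
  have c3 : 4 * C < 2 ^ (4 * C) := Nat.lt_two_pow_self
  have c4 := Nat.mul_le_mul_left C c1
  nlinarith

end Pool.Agent.S09874
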