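import Pool.Statements.S09884
import Pool.Agent.H.MP_866d96_co.G
import Pool.Agent.H.MP_866d96_co.J

set_option autoImplicit false
open Pool Pool.MP_866d96_co

namespace Pool.Agent.S09884

/-- The negation of the preceding statement: Every full-dimensional polytope in R^d whose face lattice is anti-isomorphic to itself has a combinatorially equivalent polytope Q, with the origin in its interior, whose polar set equals the image of Q under some orthogonal map. -/
theorem result :
    ¬ (∀ (d : ℕ) (S : Finset (EuclideanSpace ℝ (Fin d))),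
      (interior (convexHull ℝ (S : Set (EuclideanSpace ℝ (Fin d))))).Nonempty →
      Nonempty ({F : Set (EuclideanSpace ℝ (Fin d)) //
                  IsExposed ℝ (convexHull ℝ (S : Set (EuclideanSpace ℝ (Fin d)))) F} ≃o
                ({F : Set (EuclideanSpace ℝ (Fin d)) //
                  IsExposed ℝ (convexHull ℝ (S : Set (EuclideanSpace ℝ (Fin d)))) F})ᵒᵈ) →
      ∃ (T : Finset (EuclideanSpace ℝ (Fin d)))
        (U : EuclideanSpace ℝ (Fin d) ≃ₗᵢ[ℝ] EuclideanSpace ℝ (Fin d)),
        Nonempty ({F : Set (EuclideanSpace ℝ (Fin d)) //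
                    IsExposed ℝ (convexHull ℝ (S : Set (EuclideanSpace ℝ (Fin d)))) F} ≃o
                  {F : Set (EuclideanSpace ℝ (Fin d)) //
                    IsExposed ℝ (convexHull ℝ (T : Set (EuclideanSpace ℝ (Fin d)))) F}) ∧
        (0 : EuclideanSpace ℝ (Fin d)) ∈
          interior (convexHull ℝ (T : Set (EuclideanSpace ℝ (Fin d)))) ∧
        {y : EuclideanSpace ℝ (Fin d) |
            ∀ x ∈ convexHull ℝ (T : Set (EuclideanSpace ℝ (Fin d))), inner ℝ x y ≤ (1 : ℝ)} =
          U '' convexHull ℝ (T : Set (EuclideanSpace ℝ (Fin d)))) := by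
  intro hall
  open Pool.Agent.H.MP_866d96_co in
  have hrow : ∀ i, ∃ j, ¬ II i j := fun i => by
    obtain ⟨j, hj⟩ := List.exists_mem_of_ne_nil _ (hadj i i.2).2.2.1
    refine ⟨⟨j, (hadj i i.2).2.2.2.1 j hj⟩, ?_⟩
    simpa [II] using (nz_adj i j).2 hj
  open Pool.Agent.H.MP_866d96_co in
  have hsing : ∀ i i', (∀ j, II i j → II i' j) → i' = i := fun i k h => by
    refine Fin.ext (hsub i i.2 k k.2 (Nat.eq_of_testBit_eq fun j => ?_))
    rw [Nat.testBit_and]
    by_cases h1 : (row k).testBit j = true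
    · have hj : j < 204 := (hadj k k.2).2.2.2.1 j ((nz_adj k j).1 h1)
      have := mt (h ⟨j, hj⟩) (by simpa [II, nz] using h1)
      simp only [II, nz, Bool.not_eq_false] at this
      simp [h1, this]
    · simp [h1]
  open Pool.Agent.H.MP_866d96_co in
  obtain ⟨d, hd, S, h1, ⟨e⟩⟩ := geo hrow
  open Pool.Agent.H.MP_866d96_co in
  obtain ⟨g⟩ := selfdual (I := II) rr (Function.Involutive.surjective rr_rr)
    (fun i k => by simp only [II, rr]; rw [hdual i i.2 k k.2])
  obtain ⟨T, U, ⟨Ψ⟩, h0, hU⟩ := hall d S h1 ⟨(e.trans g).trans e.symm.dual⟩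
  open Pool.Agent.H.MP_866d96_co in
  obtain ⟨z, σ, ρ, h2, h3, h4⟩ := extract hrow hsing T U (e.symm.trans Ψ) h0 hU
  open Pool.Agent.H.MP_866d96_co in
  have h5 := sq_tau (σ := σ) (ρ := ρ) (fun i k => by
    have := h3 i k
    unfold II at this
    exact Bool.eq_iff_iff.2 (by rw [← Bool.not_eq_false, ← Bool.not_eq_false, this]))
  open Pool.Agent.H.MP_866d96_co in
  refine gale (W := ℝ × EuclideanSpace ℝ (Fin d)) (by simp; omega) (fun i => (1, z i))
    (fun j => LinearMap.fst ℝ _ _ - (innerSL ℝ (U (z (σ.symm j)))).toLinearMap ∘ₗ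
      LinearMap.snd ℝ _ _) (fun i j => ?_)
    (LinearMap.prodMap LinearMap.id ((U.symm.trans U.symm).toLinearEquiv.toLinearMap)) (fun u => ?_)
  · have := h2 i (σ.symm j)
    rw [σ.apply_symm_apply, real_inner_comm] at this
    refine Iff.trans ?_ this
    exact sub_eq_zero.trans eq_comm
  · rw [← Pool.Agent.H.MP_866d96_co.rr_up, ← h5 _ u.2, h4]
    simp

end Pool.Agent.S09884
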