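import Pool.Statements.S09896
import Pool.Agent.H.MP_86c288_co.Main

set_option autoImplicit false
open Pool Pool.MP_86c288_co

namespace Pool.Agent.S09896

theorem result :
    ¬ (∀ a b c d e : ℕ, 2 ≤ a → a ≤ b → b ≤ c → c ≤ d → d ≤ e →
  ∃ n : ℕ, ∃ G : SimpleGraph (Fin n),
    ((∃ s : Finset (Fin n), G.IsNClique a s) ∧ ∀ s : Finset (Fin n), ¬ G.IsNClique (a + 1) s) ∧
    G.chromaticNumber = (b : ℕ∞) ∧
    ((∃ f : Fin n → Fin c, Function.Surjective f ∧ (∀ u v, G.Adj u v → f u ≠ f v) ∧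
        ∀ v, ∀ j : Fin c, j < f v → ∃ u, G.Adj v u ∧ f u = j) ∧
      ∀ k : ℕ, c < k → ¬ ∃ f : Fin n → Fin k, Function.Surjective f ∧ (∀ u v, G.Adj u v → f u ≠ f v) ∧
        ∀ v, ∀ j : Fin k, j < f v → ∃ u, G.Adj v u ∧ f u = j) ∧
    ((∃ f : Fin n → Fin d, Function.Surjective f ∧ (∀ u v, G.Adj u v → f u ≠ f v) ∧
        ∀ i j : Fin d, i ≠ j → ∃ u v, G.Adj u v ∧ f u = i ∧ f v = j) ∧
      ∀ k : ℕ, d < k → ¬ ∃ f : Fin n → Fin k, Function.Surjective f ∧ (∀ u v, G.Adj u v → f u ≠ f v) ∧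
        ∀ i j : Fin k, i ≠ j → ∃ u v, G.Adj u v ∧ f u = i ∧ f v = j) ∧
    ((∃ f : Fin n → Fin e, Function.Surjective f ∧
        ∀ i j : Fin e, i ≠ j → ∃ u v, G.Adj u v ∧ f u = i ∧ f v = j) ∧
      ∀ k : ℕ, e < k → ¬ ∃ f : Fin n → Fin k, Function.Surjective f ∧
        ∀ i j : Fin k, i ≠ j → ∃ u v, G.Adj u v ∧ f u = i ∧ f v = j)) := by
  intro h
  obtain ⟨n, G, ⟨-, hω⟩, hχ, -, -, -, hψ⟩ := h 2 4 4 4 4 le_rfl (by norm_num) le_rfl le_rfl le_rfl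
  refine hψ 5 (by norm_num) (Pool.Agent.H.MP_86c288_co.main G ?_ ?_)
  · intro x y z hxy hyz hxz
    exact hω {x, y, z} (SimpleGraph.is3Clique_triple_iff.2 ⟨hxy, hxz, hyz⟩)
  · rintro ⟨c, hc⟩
    have hcol : G.Colorable 3 :=
      ⟨SimpleGraph.Coloring.mk c (fun {u v} huv =>
        hc u (Finset.mem_univ u) v (Finset.mem_univ v) huv)⟩
    have := hcol.chromaticNumber_le
    rw [hχ] at this
    exact absurd (by exact_mod_cast this : (4 : ℕ) ≤ 3) (by norm_num)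

end Pool.Agent.S09896
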