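import Pool.Statements.S09922
import Pool.Agent.Lib.helper1.PermCount

set_option autoImplicit false
open Classical
open Pool Pool.MP_880652_co

namespace Pool.Agent.S09922

def P : Type := Fin 7

instance : Fintype P := inferInstanceAs (Fintype (Fin 7))

def below : Fin 7 → List (Fin 7) := ![[], [], [], [0, 1], [0, 2], [1, 2], [0, 1, 2, 3]]

def r (a b : Fin 7) : Prop := a = b ∨ a ∈ below b

instance instR : DecidableRel r := fun a b => inferInstanceAs (Decidable (a = b ∨ a ∈ below b))

instance : PartialOrder P where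
  le a b := r a b
  lt a b := @Membership.mem (Fin 7) (List (Fin 7)) _ (below b) a
  le_refl a := Or.inl rfl
  le_trans := by
    show ∀ a b c : Fin 7, r a b → r b c → r a c
    decide +kernel
  lt_iff_le_not_ge := by
    show ∀ a b : Fin 7, a ∈ below b ↔ r a b ∧ ¬ r b a
    decide +kernel
  le_antisymm := by
    show ∀ a b : Fin 7, r a b → r b a → a = b
    decide +kernel

def pairs : List (Fin 7 × Fin 7) :=
  [(0, 3), (1, 3), (0, 4), (2, 4), (1, 5), (2, 5), (0, 6), (1, 6), (2, 6), (3, 6)]

def cnt (τ : Equiv.Perm (Fin 7)) : ℕ := pairs.countP (fun p => decide (τ p.1 < τ p.2))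

def A (i : ℕ) : ℕ := (Finset.univ.filter (fun τ : Equiv.Perm (Fin 7) => cnt τ = i)).card

def cntL (l : List ℕ) : ℕ := pairs.countP (fun p => Nat.blt (l.getD p.1.val 0) (l.getD p.2.val 0))

lemma A_eq (i : ℕ) : A i = (List.range 7).permutations'.countP (fun l => Nat.beq (cntL l) i) := by
  apply Pool.Agent.Lib.helper1.card_filter_perm
  intro σ
  have : cntL (Pool.Agent.Lib.helper1.permList σ) = cnt σ := by
    unfold cntL cnt
    congr 1
    funext p
    rw [Pool.Agent.Lib.helper1.permList_getD, Pool.Agent.Lib.helper1.permList_getD]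
    rw [Bool.eq_iff_iff]
    simp [Nat.blt_eq]
  rw [this]
  simp

lemma A456 : A 4 = 792 ∧ A 5 = 764 ∧ A 6 = 792 := by rw [A_eq, A_eq, A_eq]; decide +kernel

lemma cardP : Fintype.card P = 7 := Fintype.card_fin 7

lemma mem_pairs : ∀ a b : Fin 7, a ∈ below b ↔ (a, b) ∈ pairs := by decide +kernel

lemma pairs_nodup : pairs.Nodup := by decide +kernel

lemma inner (q : Fin 7 × Fin 7 → Prop) [DecidablePred q] :
    (Finset.univ.filter (fun p : P × P => p.1 < p.2 ∧ q p)).card
      = pairs.countP (fun p => decide (q p)) := by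
  rw [List.countP_eq_length_filter, ← List.toFinset_card_of_nodup (pairs_nodup.filter _)]
  congr 1
  refine Finset.ext (α := Fin 7 × Fin 7) ?_
  rintro ⟨a, b⟩
  have := mem_pairs a b
  rw [List.mem_toFinset, List.mem_filter]
  refine Iff.trans (Finset.mem_filter (α := P × P)) ?_
  constructor
  · rintro ⟨_, h1, h2⟩
    exact ⟨this.mp h1, by simpa using h2⟩
  · intro h'
    exact ⟨Finset.mem_univ _, this.mpr h'.1, by simpa using h'.2⟩

theorem result :
    ¬ (∀ (α : Type) [Fintype α] [PartialOrder α] (a : ℕ → ℕ),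
      (∀ i : ℕ, a i =
        (Finset.univ.filter (fun σ : α ≃ Fin (Fintype.card α) =>
          (Finset.univ.filter (fun p : α × α => p.1 < p.2 ∧ σ p.1 < σ p.2)).card = i)).card) →
      ∃ m : ℕ,
        (∀ i j : ℕ, i ≤ j → j ≤ m → a i ≤ a j) ∧
        (∀ i j : ℕ, m ≤ i → i ≤ j →
          j ≤ (Finset.univ.filter (fun p : α × α => p.1 < p.2)).card → a j ≤ a i)) := by
  intro h
  obtain ⟨m, h1, h2⟩ := h P A (by
    intro i
    symm
    let e : (P ≃ Fin (Fintype.card P)) ≃ Equiv.Perm (Fin 7) :=
      Equiv.equivCongr (Equiv.refl (Fin 7)) (finCongr cardP)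
    unfold A
    apply Finset.card_equiv e
    intro σ
    simp only [Finset.mem_filter, Finset.mem_univ, true_and]
    have : (Finset.univ.filter (fun p : P × P => p.1 < p.2 ∧ σ p.1 < σ p.2)).card = cnt (e σ) := by
      have := inner (fun p => σ p.1 < σ p.2)
      unfold cnt
      convert this using 3
      simp only [decide_eq_decide]
      rfl
    rw [this])
  have hk : (Finset.univ.filter (fun p : P × P => p.1 < p.2)).card = 10 := by
    have := inner (fun _ => True)
    simpa [pairs] using this
  rw [hk] at h2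
  obtain ⟨a4, a5, a6⟩ := A456
  by_cases hm : 5 ≤ m
  · have := h1 4 5 (by norm_num) hm
    omega
  · have := h2 5 6 (by omega) (by norm_num) (by norm_num)
    omega

end Pool.Agent.S09922
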