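import Pool.Statements.S09946
import Pool.Agent.Lib.helper3.Girth

set_option autoImplicit false
open Pool Pool.MP_8888ff_co

namespace Pool.Agent.S09946

open SimpleGraph Pool.Agent.Lib.helper3.Girth

/-- the sparse sequence of vertex numbers -/
def sq : ℕ → ℕ
  | 0 => 4
  | j + 1 => 2 * (j + 1) ^ (sq j + 1) + sq j + 1

theorem sq_mono : StrictMono sq := strictMono_nat_of_lt_succ fun j => by
  simp only [sq]
  omega

def C4 : SimpleGraph (Fin 4) := cycleGraph 4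

theorem C4_col : C4.Colorable 2 :=
  ⟨Coloring.mk (fun v => ⟨v.val % 2, Nat.mod_lt _ (by decide)⟩) (by
    intro v w h
    revert v w
    unfold C4
    decide)⟩

theorem C4_cyc : ¬ C4.IsAcyclic := by
  intro h
  rw [isAcyclic_iff_free_cycleGraph] at h
  exact h 4 (by decide) (IsContained.refl _)

theorem result :
    ¬ (∀ F : Set (Σ k : ℕ, SimpleGraph (Fin k)),
      (∀ p ∈ F, ¬ p.2.IsAcyclic) →
      (∃ p ∈ F, p.2.Colorable 2) →
      ∃ c : ℝ, 0 < c ∧
        ∀ δ Δ : ℕ, 1 ≤ δ → δ ≤ Δ →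
          ∀ n : ℕ, ∀ G : SimpleGraph (Fin n),
            (∀ v, δ ≤ (G.neighborSet v).ncard) →
            (∃ v, (G.neighborSet v).ncard = δ) →
            (∀ v, (G.neighborSet v).ncard ≤ Δ) →
            (∃ v, (G.neighborSet v).ncard = Δ) →
            ∀ T : SimpleGraph (Fin Δ),
              (∀ p ∈ F, ¬ p.2.IsContained T) →
              ∃ H : SimpleGraph (Fin n), H ≤ G ∧
                (∀ p ∈ F, ¬ p.2.IsContained H) ∧
                ∀ v, c * (T.edgeSet.ncard : ℝ) * (δ : ℝ) / (Δ : ℝ) ^ 2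
                  ≤ ((H.neighborSet v).ncard : ℝ)) := by
  intro h
  obtain ⟨c, hc, h⟩ := h {p | (∃ j, p.1 = sq j) ∧ ¬ p.2.IsAcyclic} (fun p hp => hp.2)
    ⟨⟨4, C4⟩, ⟨⟨0, rfl⟩, C4_cyc⟩, C4_col⟩
  obtain ⟨j, hj⟩ := exists_nat_gt (4 / c)
  obtain ⟨Δ, hΔ⟩ : ∃ Δ, Δ = 2 * (j + 1) ^ (sq j + 1) + sq j := ⟨_, rfl⟩
  have h4 : 4 ≤ sq j := sq_mono.monotone (Nat.zero_le j)
  have hsq : sq (j + 1) = Δ + 1 := by rw [hΔ]; rfl
  obtain ⟨T, hT1, -, hT2⟩ := exists_girth_dense (sq j) j Δ (by omega)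
  have hdeg : ∀ v, ((⊤ : SimpleGraph (Fin (Δ + 1))).neighborSet v).ncard = Δ := by
    intro v
    have : (⊤ : SimpleGraph (Fin (Δ + 1))).neighborSet v = {v}ᶜ := by
      ext w
      simp [eq_comm]
    rw [this, Set.ncard_compl]
    simp
  obtain ⟨H, -, hH, hd⟩ := h Δ Δ (by omega) le_rfl (Δ + 1) ⊤ (fun v => (hdeg v).ge) ⟨0, hdeg 0⟩
    (fun v => (hdeg v).le) ⟨0, hdeg 0⟩ T (by
      rintro ⟨k, K⟩ ⟨⟨i, hi⟩, hK⟩ ⟨f⟩
      simp only at hi hK f
      apply hK
      intro v w hw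
      have h1 := hT1 _ (w.map f.toHom) ((Walk.isCycle_map_iff_of_injective f.injective).mpr hw)
      rw [Walk.length_map] at h1
      have h2 := cycle_length_le hw
      have h3 := Fintype.card_le_of_injective f f.injective
      rw [Fintype.card_fin] at h2
      rw [Fintype.card_fin, Fintype.card_fin] at h3
      have h5 : sq j < sq i := by omega
      have h6 : sq i < sq (j + 1) := by omega
      have := sq_mono.lt_iff_lt.mp h5
      have := sq_mono.lt_iff_lt.mp h6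
      omega)
  have hac : H.IsAcyclic := by
    by_contra hcon
    exact hH ⟨Δ + 1, H⟩ ⟨⟨j + 1, hsq.symm⟩, hcon⟩ (IsContained.refl _)
  obtain ⟨v, hv⟩ := exists_deg_le_one hac
  have h1 := hd v
  have h2 : ((H.neighborSet v).ncard : ℝ) ≤ 1 := by exact_mod_cast hv
  have h3 : (j : ℝ) * Δ ≤ 4 * (T.edgeSet.ncard : ℝ) := by exact_mod_cast hT2
  have hpos : (0 : ℝ) < Δ := by exact_mod_cast (show 0 < Δ by omega)
  have h5 := h1.trans h2
  rw [div_le_one (by positivity)] at h5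
  rw [div_lt_iff₀ hc] at hj
  have h6 : c * (T.edgeSet.ncard : ℝ) ≤ Δ := by
    have : c * (T.edgeSet.ncard : ℝ) * Δ ≤ Δ * Δ := by nlinarith
    exact le_of_mul_le_mul_right this hpos
  nlinarith [mul_le_mul_of_nonneg_left h3 hc.le, mul_lt_mul_of_pos_right hj hpos]

end Pool.Agent.S09946
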