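import Pool.Statements.S09958
import Pool.Agent.H.MP_891b03_co.C

set_option autoImplicit false
open Filter Topology
open Pool Pool.MP_891b03_co

namespace Pool.Agent.S09958

/-- The negation of the preceding statement: For every L ≥ 1 and every Benjamini–Schramm convergent sequence of finite connected graphs of bounded degree, the minimal edges-per-vertex of a connected graph on the same vertices whose metric is L-bi-Lipschitz to the original converges. -/
theorem result :
    ¬ (∀ (D : ℕ) (L : ℝ), 1 ≤ L →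
    ∀ (N : ℕ → ℕ) (G : ∀ n, SimpleGraph (Fin (N n))),
      (∀ n, (G n).Connected) →
      (∀ n (v : Fin (N n)), ((G n).neighborSet v).ncard ≤ D) →
      (∀ (r k : ℕ) (F : SimpleGraph (Fin k)) (o : Fin k), ∃ p : ℝ,
        Tendsto (fun n => (({v : Fin (N n) | ∃ e : {w : Fin (N n) // (G n).dist v w ≤ r} ≃ Fin k,
            (∀ a : {w : Fin (N n) // (G n).dist v w ≤ r}, (a.1 = v ↔ e a = o)) ∧
            (∀ a b : {w : Fin (N n) // (G n).dist v w ≤ r},
              ((G n).Adj a.1 b.1 ↔ F.Adj (e a) (e b)))}.ncard : ℕ) : ℝ) / (N n : ℝ))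
          atTop (𝓝 p)) →
      ∃ c : ℝ, Tendsto (fun n => sInf {x : ℝ | ∃ H : SimpleGraph (Fin (N n)), H.Connected ∧
          (∀ u v : Fin (N n), ((H.dist u v : ℝ) ≤ L * ((G n).dist u v : ℝ)) ∧
            (((G n).dist u v : ℝ) ≤ L * (H.dist u v : ℝ))) ∧
          x = (H.edgeSet.ncard : ℝ) / (N n : ℝ)}) atTop (𝓝 c)) := by
  classical
  intro h
  choose X _ _ s hs hf htr using fun n => H.MP_891b03_co.base 10 (2 * n + 2)
  have hσ : ∀ n, ∃ σ : X n → Fin 10 → ZMod 2, (∀ k x, σ (s n k x) k = - σ x k) ∧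
      (n % 2 = 0 → σ = 0) ∧ (n % 2 = 1 → ∀ I : Finset (X n × ZMod 2),
        (∀ y ∈ I, ∀ k, H.MP_891b03_co.tt (s n) σ k y ∉ I) →
          I.card ≤ 19 * Fintype.card (X n) / 20) := by
    intro n
    by_cases h0 : n % 2 = 0
    · exact ⟨0, by simp, fun _ => rfl, by omega⟩
    · obtain ⟨σ, h1, h2⟩ := H.MP_891b03_co.indep (s n) (hs n) fun k x =>
        hf n x [k] (by simp) (by simp) (by simp)
      exact ⟨σ, h1, by omega, fun _ => h2⟩
  choose σ σ1 σ2 σ3 using hσ
  obtain ⟨M, hM⟩ : ∃ M : ℕ, M = 10 ^ 16 := ⟨_, rfl⟩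
  have hM0 : 0 < M := by omega
  let N : ℕ → ℕ := fun n => Fintype.card ((X n × ZMod 2) × Option (Option (Fin 10)) × Fin M)
  let e : ∀ n, Fin (N n) ≃ (X n × ZMod 2) × Option (Option (Fin 10)) × Fin M :=
    fun n => (Fintype.equivFin _).symm
  let t := fun n => H.MP_891b03_co.tt (s n) (σ n)
  have ht : ∀ n k y, t n k (t n k y) = y := fun n => H.MP_891b03_co.tt_tt (hs n) (σ1 n)
  have hG : ∀ n, (H.MP_891b03_co.G (t n) (e n)).Connected := fun n =>
    H.MP_891b03_co.conn _ _ (ht n) hM0 (H.MP_891b03_co.tt_trans _ (htr n))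
  have hN : ∀ n, N n = Fintype.card (X n) * (24 * M) := fun n => by
    simp [N]; ring
  have hX : ∀ n, (0 : ℝ) < Fintype.card (X n) := fun n => by exact_mod_cast Fintype.card_pos
  have hM1 : (0 : ℝ) < M := by exact_mod_cast hM0
  obtain ⟨c, hc⟩ := h _ 2 (by norm_num) N (fun n => H.MP_891b03_co.G (t n) (e n)) hG
    (fun n => H.MP_891b03_co.deg _ _ (ht n)) (by
      intro r k F o
      let P : ∀ n, Fin (N n) → Prop := fun n v =>
        ∃ e' : {w : Fin (N n) // (H.MP_891b03_co.G (t n) (e n)).dist v w ≤ r} ≃ Fin k,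
          (∀ a, a.1 = v ↔ e' a = o) ∧
          ∀ a b, (H.MP_891b03_co.G (t n) (e n)).Adj a.1 b.1 ↔ F.Adj (e' a) (e' b)
      have hP : ∀ n m, r ≤ n → r ≤ m → ∀ v v', (e n v).2 = (e m v').2 → P m v' → P n v := by
        rintro n m hn hm v v' hv ⟨e', h1, h2⟩
        obtain ⟨φ, h3, h4⟩ := H.MP_891b03_co.iso (t n) (e n) (ht n) (t m) (e m) (ht m) (hG n)
          (hG m) r (fun p q y y' hl => ⟨fun h => H.MP_891b03_co.loc (hs n) (hf n) (σ1 n) (hs m)
            (σ1 m) (by omega) h y', fun h => H.MP_891b03_co.loc (hs m) (hf m) (σ1 m) (hs n)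
              (σ1 n) (by omega) h y⟩) v v' hv
        exact ⟨φ.trans e', fun a => (h3 a).trans (h1 _), fun a b => (h4 a b).trans (h2 _ _)⟩
      let T : Finset (Option (Option (Fin 10)) × Fin M) :=
        Finset.univ.filter fun τ => ∃ v, (e r v).2 = τ ∧ P r v
      refine ⟨2 * T.card / (24 * M), tendsto_const_nhds.congr' ?_⟩
      filter_upwards [eventually_ge_atTop r] with n hn
      have h1 : {v | P n v} = (e n).symm '' ↑((Finset.univ : Finset (X n × ZMod 2)) ×ˢ T) := by
        ext v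
        constructor
        · intro hv
          obtain ⟨y⟩ : Nonempty (X r × ZMod 2) := inferInstance
          exact ⟨e n v, by
            simp only [Finset.coe_product, Finset.coe_univ, Set.mem_prod, Set.mem_univ, true_and,
              Finset.mem_coe, T, Finset.mem_filter, Finset.mem_univ]
            exact ⟨(e r).symm (y, (e n v).2), by simp, hP r n le_rfl hn _ v (by simp) hv⟩, by simp⟩
        · rintro ⟨x, hx, rfl⟩
          obtain ⟨v, h1, h2⟩ := (Finset.mem_filter.1 (Finset.mem_product.1 hx).2).2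
          exact hP n r hn le_rfl _ v (by simp [h1]) h2
      change _ = (({v | P n v}.ncard : ℕ) : ℝ) / _
      rw [h1, Set.ncard_image_of_injective _ (e n).symm.injective, Set.ncard_coe_finset, hN]
      have := hX n
      simp
      field_simp)
  rcases lt_or_ge c (34.02 / 24) with h0 | h0
  · obtain ⟨m, hm⟩ := eventually_atTop.1 (hc.eventually (gt_mem_nhds h0))
    obtain ⟨n, h1, h2⟩ : ∃ n, m ≤ n ∧ n % 2 = 1 := ⟨2 * m + 1, by omega, by omega⟩
    refine absurd (hm n h1) (not_lt.2 (le_csInf ⟨_, _, hG n, fun u v => ?_, rfl⟩ ?_))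
    · have := Nat.cast_nonneg (α := ℝ) ((H.MP_891b03_co.G (t n) (e n)).dist u v)
      constructor <;> linarith
    rintro _ ⟨J, a, b, rfl⟩
    obtain ⟨h, c1, c2⟩ := H.MP_891b03_co.lower (t n) (e n) (ht n)
      (H.MP_891b03_co.tt_ne _ (hf n)) (H.MP_891b03_co.tt_inj _ (hs n) (hf n)) _ (10 ^ 6)
      (σ3 n h2) (hG n) J a fun u v => by exact_mod_cast b u v
    have c3 : 34025 * (Fintype.card (X n) * M) ≤ 1000 * J.edgeSet.ncard := by
      simp only [Fintype.card_fin, hN, Fintype.card_prod, ZMod.card, Fintype.card_option] at c2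
      have := Nat.div_mul_le_self (19 * Fintype.card (X n)) 20
      generalize J.edgeSet.ncard = m at *
      generalize Fintype.card (X n) = x at *
      rw [hM] at c2 ⊢
      omega
    have := hX n
    have c4 : 34025 * (Fintype.card (X n) * M : ℝ) ≤ 1000 * J.edgeSet.ncard := by
      exact_mod_cast c3
    generalize J.edgeSet.ncard = m at *
    rw [hN]
    push_cast
    rw [div_le_div_iff₀ (by norm_num) (by positivity)]
    nlinarith [mul_pos this hM1]
  · obtain ⟨m, hm⟩ := eventually_atTop.1 (hc.eventually (lt_mem_nhds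
      (lt_of_lt_of_le (by norm_num : (34 / 24 : ℝ) < 34.02 / 24) h0)))
    obtain ⟨n, h1, h2⟩ : ∃ n, m ≤ n ∧ n % 2 = 0 := ⟨2 * m, by omega, by omega⟩
    obtain ⟨H, a, b, c⟩ := H.MP_891b03_co.upper (t n) (e n) (ht n) (hG n) hM0
      (Finset.univ ×ˢ {0}) fun y k => by
        have z : ∀ a : ZMod 2, a = 0 ∨ a + 1 = 0 := by decide
        simp only [Finset.mem_product, Finset.mem_univ, true_and, Finset.mem_singleton]
        cases k <;> simpa [t, H.MP_891b03_co.tt, σ2 n h2] using z y.2
    refine absurd (hm n h1) (not_lt.2 (csInf_le_of_le (b := H.edgeSet.ncard / N n) ⟨0, ?_⟩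
      ⟨H, a, fun u v => ?_, rfl⟩ ?_))
    · rintro _ ⟨H, -, -, rfl⟩
      positivity
    · exact_mod_cast b u v
    · have := hX n
      simp only [Finset.card_product, Finset.card_univ, Finset.card_singleton, Fintype.card_option,
        Fintype.card_fin] at c
      have c' : (H.edgeSet.ncard : ℝ) ≤ Fintype.card (X n) * 1 * 34 * M := by exact_mod_cast c
      generalize H.edgeSet.ncard = m at *
      rw [hN]
      push_cast
      rw [div_le_div_iff₀ (by positivity) (by norm_num)]
      linarith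

end Pool.Agent.S09958
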