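import Pool.Statements.S09986
import Pool.Agent.H.MP_8b2bd9_co.J

set_option autoImplicit false
open Pool Pool.MP_8b2bd9_co

namespace Pool.Agent.S09986

theorem result :
    ¬ (∃ C : ℕ, ∀ S : Finset ℝ, (∀ s ∈ S, 0 < s) →
      (SimpleGraph.fromRel
          (fun x y : EuclideanSpace ℝ (Fin 2) => dist x y ∈ S)).chromaticNumber
        ≤ (((S.card + 1) ^ C : ℕ) : ℕ∞)) := by
  exact Pool.Agent.H.MP_8b2bd9_co.main3

end Pool.Agent.S09986
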