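import Pool.Statements.S10003
import Pool.Agent.H.MP_8b7b81_co.C

set_option autoImplicit false
open MeasureTheory
open Pool Pool.MP_8b7b81_co

namespace Pool.Agent.S10003

theorem result :
    ∃ C : Set (EuclideanSpace ℝ (Fin 2)),
      IsCompact C ∧ Convex ℝ C ∧ (interior C).Nonempty ∧
      (∀ (x : EuclideanSpace ℝ (Fin 2)) (r : ℝ), C ≠ Metric.closedBall x r) ∧
      ∀ (n : ℕ) (f : Fin n → (EuclideanSpace ℝ (Fin 2) ≃ᵢ EuclideanSpace ℝ (Fin 2))),
        μH[1] (frontier (⋃ i, (f i) '' C)) * volume C
          ≤ μH[1] (frontier C) * volume (⋃ i, (f i) '' C) := by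
  open Pool.Agent.H.MP_8b7b81_co Set Metric in
  let r := Complex.orthonormalBasisOneI.repr
  let e := r.toIsometryEquiv
  have hv : ∀ S : Set ℂ, volume (e '' S) = volume S := fun S => by
    rw [← EuclideanSpace.euclideanHausdorffMeasure_eq_volume,
      ← InnerProductSpace.euclideanHausdorffMeasure_eq_volume, Complex.finrank_real_complex]
    exact e.isometry.euclideanHausdorffMeasure_image S
  have hp : ∀ S : Set ℂ, μH[1] (frontier (e '' S)) = μH[1] (frontier S) := fun S => by
    rw [← e.isometry.hausdorffMeasure_image (Or.inl zero_le_one) (frontier S)]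
    exact congrArg _ (e.toHomeomorph.image_frontier S).symm
  refine ⟨e '' St 1, (St.compact 1).image e.continuous,
    (St.convex 1).linear_image r.toLinearEquiv.toLinearMap, ⟨e 0, ?_⟩, fun x ρ h => ?_,
    fun n f => ?_⟩
  · exact interior_maximal (show ball (e 0) 1 ⊆ e '' St 1 from fun z hz => ⟨e.symm z, ⟨0, by simp,
      by rw [← e.dist_eq, IsometryEquiv.apply_symm_apply]; exact le_of_lt hz⟩, by simp⟩)
      isOpen_ball (mem_ball_self one_pos)
  · have k : St 1 = closedBall (e.symm x) ρ := by
      rw [← e.symm.image_closedBall, ← h]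
      simp [image_image]
    obtain ⟨c, hc⟩ : ∃ c, c = e.symm x := ⟨_, rfl⟩
    rw [← hc] at k
    have a : (2 : ℂ) ∈ St 1 := ⟨1, by simp, by rw [dle zero_le_one]; norm_num⟩
    have b : (-2 : ℂ) ∈ St 1 := ⟨-1, by simp, by rw [dle zero_le_one]; norm_num⟩
    rw [k, mem_closedBall] at a b
    have d := dist_triangle_right (2 : ℂ) (-2) c
    rw [show dist (2 : ℂ) (-2) = 4 by rw [dist_eq_norm]; norm_num] at d
    have p : c + 2 * Complex.I ∈ St 1 := by
      rw [k, mem_closedBall]; simp; linarith
    have q : c - 2 * Complex.I ∈ St 1 := by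
      rw [k, mem_closedBall]; simp; linarith
    have p' := abs_le.1 (St.im p)
    have q' := abs_le.1 (St.im q)
    simp at p' q'
    linarith
  · have : (⋃ i, f i '' (e '' St 1)) =
        e '' U (fun i => (e.trans (f i)).trans e.symm) Finset.univ 1 := by
      simp [U, image_iUnion, image_image]
    rw [this, hv, hv, hp, hp]
    exact main _ _

end Pool.Agent.S10003
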