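import Pool.Statements.S10033
import Pool.Agent.H.MP_1f0ce0_co.C

set_option autoImplicit false
open Pool Pool.MP_8c9d81_co

namespace Pool.Agent.S10033
open Pool.Agent.H.MP_1f0ce0_co

/-- There is a constant c such that for every finite field of order q and every k with c√q < k < q+1−c√q, each size m from 0 to q²+q+1 is attained by a point set of PG(2,q) meeting no line in exactly k points. -/
theorem result :
  ∃ c : ℝ, ∀ (F : Type) [Field F] [Fintype F] (k : ℕ),
    c * Real.sqrt (Fintype.card F : ℝ) < (k : ℝ) →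
    (k : ℝ) < (Fintype.card F : ℝ) + 1 - c * Real.sqrt (Fintype.card F : ℝ) →
    ∀ m : ℕ, m ≤ (Fintype.card F) ^ 2 + Fintype.card F + 1 →
      ∃ S : Set (Projectivization F (Fin 3 → F)), S.ncard = m ∧
        ∀ W : Submodule F (Fin 3 → F), Module.finrank F W = 2 →
          (S ∩ {p : Projectivization F (Fin 3 → F) | p.submodule ≤ W}).ncard ≠ k := by
  refine ⟨300, fun F _ _ k h1 h2 m hm => bridge' ?_⟩
  have s0 := Real.sqrt_nonneg (Fintype.card F : ℝ)
  have s1 := Real.mul_self_sqrt (Nat.cast_nonneg (α := ℝ) (Fintype.card F))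
  have q1 : (1 : ℝ) ≤ Fintype.card F := by exact_mod_cast Fintype.card_pos
  have s2 : 1 ≤ Real.sqrt (Fintype.card F : ℝ) := Real.one_le_sqrt.mpr q1
  have s3 : 500 ≤ Real.sqrt (Fintype.card F : ℝ) := by nlinarith
  have q2 : 20000 ≤ Fintype.card F := by
    have : (20000 : ℝ) ≤ Fintype.card F := by nlinarith
    exact_mod_cast this
  obtain ⟨a, b, c⟩ := root q2
  have s4 : ((Fintype.card F).sqrt : ℝ) ≤ Real.sqrt (Fintype.card F : ℝ) := Real.nat_sqrt_le_real_sqrt
  refine mid a b ?_ ?_ hm
  · have : (20 * ((Fintype.card F).sqrt + 3) : ℝ) ≤ k := by linarith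
    exact_mod_cast this
  · have : (k + 20 * ((Fintype.card F).sqrt + 3) : ℝ) ≤ Fintype.card F + 1 := by linarith
    exact_mod_cast this

end Pool.Agent.S10033
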