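import Pool.Statements.S10062
import Pool.Agent.H.MP_8d5faa_co.D

set_option autoImplicit false
open Pool Pool.MP_8d5faa_co

namespace Pool.Agent.S10062

theorem result :
    ¬ (∀ ε : ℝ, 0 < ε → ∃ N : ℕ, ∀ (q : ℕ) (F : Type) [Field F] [Fintype F],
      Odd q → N ≤ q → Fintype.card F = q ^ 2 →
      ∃ S : Finset (Projectivization F (Fin 3 → F)),
        (1 / 2 - ε) * (q : ℝ) ^ 4 ≤ (S.card : ℝ) ∧
        ∀ x ∈ S, ∀ y ∈ S, ∀ z ∈ S, x ≠ y → y ≠ z → x ≠ z →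
          ¬ ((∑ i : Fin 3, x.rep i * (y.rep i) ^ q) = 0 ∧
             (∑ i : Fin 3, y.rep i * (z.rep i) ^ q) = 0 ∧
             (∑ i : Fin 3, x.rep i * (z.rep i) ^ q) = 0)) := by
  intro H
  obtain ⟨N, hN⟩ := H (1 / 200) (by norm_num)
  haveI : Fact (Nat.Prime 7) := ⟨by norm_num⟩
  obtain ⟨k, hk⟩ : ∃ k : ℕ, N + 1000 < k := ⟨N + 1001, by omega⟩
  have hk7 : k < 7 ^ k := Nat.lt_pow_self (by norm_num)
  letI : Fintype (GaloisField 7 (k * 2)) := Fintype.ofFinite _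
  have hc : Fintype.card (GaloisField 7 (k * 2)) = (7 ^ k) ^ 2 := by
    rw [← Nat.card_eq_fintype_card, GaloisField.card 7 (k * 2) (by omega), pow_mul]
  obtain ⟨S, h1, h2⟩ := hN (7 ^ k) (GaloisField 7 (k * 2)) (Odd.pow (by decide)) (by omega) hc
  have u := Pool.Agent.H.MP_8d5faa_co.upper (iterateFrobenius (GaloisField 7 (k * 2)) 7 k) (7 ^ k)
    (fun a => iterateFrobenius_def 7 k a) hc (by omega) S h2
  have hq : (1000 : ℝ) ≤ ((7 ^ k : ℕ) : ℝ) := by exact_mod_cast (show 1000 ≤ 7 ^ k by omega)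
  have u' : 90 * ((S.card : ℝ) * (((7 ^ k : ℕ) : ℝ) ^ 2 - 1)) ≤ 44 * ((7 ^ k : ℕ) : ℝ) ^ 6 +
      90 * ((7 ^ k : ℕ) : ℝ) ^ 5 + 90 * ((((7 ^ k : ℕ) : ℝ) + 1) * ((7 ^ k : ℕ) : ℝ) ^ 4) := by
    exact_mod_cast u
  generalize ((7 ^ k : ℕ) : ℝ) = q at h1 hq u'
  have q2 : 0 ≤ q ^ 2 - 1 := by nlinarith
  have m := mul_le_mul_of_nonneg_right h1 q2
  have q4 : 0 < q ^ 4 := by positivity
  have e : q ^ 4 * (11 / 20 * q ^ 2 - 180 * q - 135) ≤ 0 := by nlinarith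
  have e2 : 0 < 11 / 20 * q ^ 2 - 180 * q - 135 := by nlinarith
  nlinarith [mul_pos q4 e2]

end Pool.Agent.S10062
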