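import Pool.Statements.S10096
import Pool.Agent.H.MP_8ed634_co.A

set_option autoImplicit false
open Pool Pool.MP_8ed634_co

namespace Pool.Agent.S10096

theorem result :
    ¬ (∀ (n : ℕ) (C : Finset (Finset (Fin n))),
      (∀ X ∈ C, ∀ Y ∈ C, X ⊆ Y → X = Y) →
      ((¬ ∀ w : Fin n → ℝ, (∀ v, 0 ≤ w v) →
          ∀ x : Fin n → ℝ, (∀ v, 0 ≤ x v) → (∀ X ∈ C, 1 ≤ ∑ v ∈ X, x v) →
            ∃ B : Finset (Fin n), (∀ X ∈ C, (X ∩ B).Nonempty) ∧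
              ∑ v ∈ B, w v ≤ ∑ v, w v * x v)
        ↔
        ∃ p : Finset (Fin n) → Fin n, ∃ q : Finset (Fin n) → Fin n,
          (∀ X ∈ C, p X ∈ X) ∧
          (∀ Y : Finset (Fin n),
            ((∀ X ∈ C, (X ∩ Y).Nonempty) ∧
              ∀ Z : Finset (Fin n), Z ⊆ Y → (∀ X ∈ C, (X ∩ Z).Nonempty) → Z = Y) →
            q Y ∈ Y) ∧
          (∀ X ∈ C, ∀ Y : Finset (Fin n),
            ((∀ X' ∈ C, (X' ∩ Y).Nonempty) ∧
              ∀ Z : Finset (Fin n), Z ⊆ Y → (∀ X' ∈ C, (X' ∩ Z).Nonempty) → Z = Y) →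
            p X = q Y → 1 < (X ∩ Y).card))) := by
  exact Pool.Agent.H.MP_8ed634_co.main

end Pool.Agent.S10096
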