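import Pool.Statements.S10106

set_option autoImplicit false
open Pool Pool.MP_8f9b2f_co

namespace Pool.Agent.S10106

open Finset

lemma four_translates {n : ℕ} (S : Finset (Fin n → Bool)) (a : Fin 4 → Fin n → Bool)
    (h : ∀ x ∈ S, ∀ y ∈ S, ∀ i j : Fin 4,
      (fun k => xor (x k) (a i k)) = (fun k => xor (y k) (a j k)) → i = j) :
    4 * S.card ≤ 2 ^ n := by
  have h1 : ((univ : Finset (Fin 4)) ×ˢ S).card ≤ (univ : Finset (Fin n → Bool)).card := by
    apply card_le_card_of_injOn (fun p => fun k => xor (p.2 k) (a p.1 k))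
    · intro p _; simp
    · rintro ⟨i, x⟩ hx ⟨j, y⟩ hy hxy
      simp only [coe_product, Set.mem_prod, mem_coe] at hx hy
      have hij : i = j := h x hx.2 y hy.2 i j hxy
      subst hij
      have : x = y := by
        funext k
        have := congrFun hxy k
        simpa using this
      rw [this]
  simpa [card_product] using h1

lemma dist_step {n s t : ℕ} (hst : s ≤ t) (htn : t ≤ n) :
    t - s ≤ hammingDist (fun k : Fin n => decide (k.val < s)) (fun k : Fin n => decide (k.val < t)) := by
  unfold hammingDist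
  have : (Finset.Ico s t).card ≤ (univ.filter (fun k : Fin n =>
      decide (k.val < s) ≠ decide (k.val < t))).card := by
    rcases Nat.eq_zero_or_pos n with h0 | hpos
    · have : t = 0 := by omega
      subst this; simp
    apply card_le_card_of_injOn (fun k => (⟨k % n, Nat.mod_lt _ hpos⟩ : Fin n))
    · intro k hk
      simp only [coe_Ico, Set.mem_Ico] at hk
      have : k % n = k := Nat.mod_eq_of_lt (by omega)
      simp [this]; omega
    · intro k hk l hl hkl
      simp only [coe_Ico, Set.mem_Ico] at hk hl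
      have h1 : k % n = k := Nat.mod_eq_of_lt (by omega)
      have h2 : l % n = l := Nat.mod_eq_of_lt (by omega)
      have := congrArg Fin.val hkl
      simpa [h1, h2] using this
  simpa using this

lemma dist_xor {n : ℕ} (x a : Fin n → Bool) :
    hammingDist (fun k => xor (x k) (a k)) a = hammingDist x (fun _ => false) := by
  unfold hammingDist
  congr 1
  ext k
  cases hx : x k <;> cases ha : a k <;> simp [hx, ha]

lemma exists_Z (m : ℕ) (hm : 1 ≤ m) : ∃ Z : Finset (Fin (6 * m) → Bool),
    2 * Z.card = 2 ^ (6 * m) ∧ (∀ z ∈ Z, m ≤ hammingDist z (fun _ => false)) ∧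
    (∀ z ∈ Z, ∃ y, y ∉ Z ∧ hammingDist z y ≤ 2) := by
  classical
  set n := 6 * m with hn
  have h0 : 0 < n := by omega
  have h1 : 1 < n := by omega
  let e0 : Fin n := ⟨0, h0⟩
  let e1 : Fin n := ⟨1, h1⟩
  have he : e0 ≠ e1 := by simp [e0, e1]
  let Q : Finset (Fin n → Bool) := univ.filter (fun x => x e0 = true ∧ x e1 = true)
  let B : Finset (Fin n → Bool) := univ.filter (fun x => hammingDist x (fun _ => false) < m)
  have hQ : 4 * Q.card ≤ 2 ^ n := by
    apply four_translates Q (fun i k => if k = e0 then decide (i.val % 2 = 1) else decide (2 ≤ i.val))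
    intro x hx y hy i j hij
    simp only [Q, mem_filter, mem_univ, true_and] at hx hy
    have a0 := congrFun hij e0
    have a1 := congrFun hij e1
    simp [hx.1, hx.2, hy.1, hy.2, he.symm] at a0 a1
    have := i.2
    have := j.2
    apply Fin.ext
    omega
  have hB : 4 * B.card ≤ 2 ^ n := by
    apply four_translates B (fun i k => decide (k.val < 2 * i.val * m))
    intro x hx y hy i j hij
    simp only [B, mem_filter, mem_univ, true_and] at hx hy
    have key : ∀ (x y : Fin n → Bool) (i j : Fin 4), hammingDist x (fun _ => false) < m →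
        hammingDist y (fun _ => false) < m →
        (fun k : Fin n => xor (x k) (decide (k.val < 2 * i.val * m))) =
          (fun k : Fin n => xor (y k) (decide (k.val < 2 * j.val * m))) → i.val < j.val → False := by
      intro x y i j hx hy hij hlt
      have hj := j.2
      have d1 := dist_xor x (fun k : Fin n => decide (k.val < 2 * i.val * m))
      have d2 := dist_xor y (fun k : Fin n => decide (k.val < 2 * j.val * m))
      have hle : 2 * i.val * m + 2 * m ≤ 2 * j.val * m := by nlinarith
      have d3 := dist_step (n := n) (s := 2 * i.val * m) (t := 2 * j.val * m) (by omega)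
        (by rw [hn]; nlinarith)
      have tri := hammingDist_triangle_left
        (fun k : Fin n => decide (k.val < 2 * i.val * m))
        (fun k : Fin n => decide (k.val < 2 * j.val * m))
        (fun k : Fin n => xor (x k) (decide (k.val < 2 * i.val * m)))
      rw [d1] at tri
      rw [hij, d2] at tri
      omega
    rcases lt_trichotomy i.val j.val with h | h | h
    · exact (key x y i j hx hy hij h).elim
    · exact Fin.ext h
    · exact (key y x j i hy hx hij.symm h).elim
  have hpow : 2 ^ n = 2 * 2 ^ (n - 1) := by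
    rw [← pow_succ']; congr 1; omega
  have hc : 2 ^ (n - 1) ≤ ((Q ∪ B)ᶜ).card := by
    rw [card_compl]
    have := card_union_le Q B
    have h2 : Fintype.card (Fin n → Bool) = 2 ^ n := by simp
    omega
  obtain ⟨Z, hZ, hZc⟩ := exists_subset_card_eq hc
  refine ⟨Z, by omega, ?_, ?_⟩
  · intro z hz
    have := hZ hz
    simp only [mem_compl, mem_union, not_or, B, mem_filter, mem_univ, true_and] at this
    omega
  · intro z hz
    refine ⟨fun k => if k = e0 ∨ k = e1 then true else z k, ?_, ?_⟩
    · intro hmem
      have := hZ hmem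
      simp [Q] at this
    · unfold hammingDist
      calc _ ≤ ({e0, e1} : Finset (Fin n)).card := by
            apply card_le_card
            intro k hk
            simp only [mem_filter, mem_univ, true_and] at hk
            by_contra hcon
            simp only [mem_insert, mem_singleton] at hcon
            simp [hcon] at hk
        _ ≤ 2 := card_le_two

theorem result :
    ¬ (∃ α : ℝ, α < 2 ∧ ∃ K : ℝ, ∀ n : ℕ, 1 ≤ n → ∀ f g : (Fin n → Bool) → Bool,
      2 * (Finset.univ.filter (fun x => f x = true)).card = 2 ^ n →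
      2 * (Finset.univ.filter (fun x => g x = true)).card = 2 ^ n →
      ∃ φ : (Fin n → Bool) ≃ (Fin n → Bool), (∀ x, g (φ x) = f x) ∧
        ∃ C₁ C₂ : ℝ, 0 ≤ C₁ ∧ 0 ≤ C₂ ∧
          (∀ x y, (hammingDist (φ x) (φ y) : ℝ) ≤ C₁ * (hammingDist x y : ℝ)) ∧
          (∀ x y, (hammingDist (φ.symm x) (φ.symm y) : ℝ) ≤ C₂ * (hammingDist x y : ℝ)) ∧
          C₁ * C₂ ≤ K * (n : ℝ) ^ α) := by
  classical
  rintro ⟨α, hα, K, H⟩
  have main : ∀ m : ℕ, 1 ≤ m → (m : ℝ) ^ 2 / 4 ≤ K * ((6 * m : ℕ) : ℝ) ^ α := by
    intro m hm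
    obtain ⟨Z, hZc, hfar, hnear⟩ := exists_Z m hm
    have hm0 : (0 : ℝ) < m := by exact_mod_cast hm
    have hzero : (fun _ => false : Fin (6 * m) → Bool) ∉ Z := by
      intro h
      have := hfar _ h
      simp at this
      omega
    obtain ⟨φ, hφ, C₁, C₂, h1, h2, L1, L2, hP⟩ := H (6 * m) (by omega)
      (fun x => decide (x ∉ Z)) (fun x => decide (x ∈ Z))
      (by
        have : (univ.filter (fun x : Fin (6 * m) → Bool => decide (x ∉ Z) = true)) = Zᶜ := by
          ext x; simp
        rw [this, card_compl]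
        have h2 : Fintype.card (Fin (6 * m) → Bool) = 2 ^ (6 * m) := by simp
        omega)
      (by
        have : (univ.filter (fun x : Fin (6 * m) → Bool => decide (x ∈ Z) = true)) = Z := by
          ext x; simp
        rw [this]; exact hZc)
    have hφ' : ∀ x, φ x ∈ Z ↔ x ∉ Z := by
      intro x
      have := hφ x
      exact decide_eq_decide.1 this
    have c1 : (m : ℝ) / 2 ≤ C₁ := by
      have hx : φ.symm (fun _ => false) ∈ Z := by
        by_contra hc
        have := (hφ' _).2 hc
        rw [Equiv.apply_symm_apply] at this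
        exact hzero this
      obtain ⟨y, hy, hd⟩ := hnear _ hx
      have h3 := hfar _ ((hφ' y).2 hy)
      have h4 := L1 y (φ.symm (fun _ => false))
      rw [Equiv.apply_symm_apply, hammingDist_comm y] at h4
      have h5 : (m : ℝ) ≤ hammingDist (φ y) (fun _ => false) := by exact_mod_cast h3
      have h6 : (hammingDist (φ.symm (fun _ => false)) y : ℝ) ≤ 2 := by exact_mod_cast hd
      nlinarith
    have c2 : (m : ℝ) / 2 ≤ C₂ := by
      have hx : φ (fun _ => false) ∈ Z := (hφ' _).2 hzero
      obtain ⟨y, hy, hd⟩ := hnear _ hx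
      have hy' : φ.symm y ∈ Z := by
        by_contra hc
        have := (hφ' _).2 hc
        rw [Equiv.apply_symm_apply] at this
        exact hy this
      have h3 := hfar _ hy'
      have h4 := L2 y (φ (fun _ => false))
      rw [Equiv.symm_apply_apply, hammingDist_comm y] at h4
      have h5 : (m : ℝ) ≤ hammingDist (φ.symm y) (fun _ => false) := by exact_mod_cast h3
      have h6 : (hammingDist (φ (fun _ => false)) y : ℝ) ≤ 2 := by exact_mod_cast hd
      nlinarith
    have : (m : ℝ) / 2 * ((m : ℝ) / 2) ≤ C₁ * C₂ := mul_le_mul c1 c2 (by positivity) h1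
    nlinarith
  have hlim : Filter.Tendsto (fun m : ℕ => K * ((6 * m : ℕ) : ℝ) ^ (-(2 - α))) Filter.atTop (nhds (K * 0)) := by
    apply Filter.Tendsto.const_mul
    apply (tendsto_rpow_neg_atTop (by linarith : 0 < 2 - α)).comp
    apply tendsto_natCast_atTop_atTop.comp
    exact Filter.tendsto_id.const_mul_atTop' (by norm_num)
  rw [mul_zero] at hlim
  have hev := (hlim.eventually (gt_mem_nhds (by norm_num : (0 : ℝ) < 1 / 144))).and
    (Filter.eventually_ge_atTop 1)
  obtain ⟨m, hm1, hm2⟩ := hev.exists
  have h := main m hm2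
  have hm0 : (0 : ℝ) < m := by exact_mod_cast hm2
  have hpos : (0 : ℝ) < ((6 * m : ℕ) : ℝ) := by push_cast; positivity
  have e : ((6 * m : ℕ) : ℝ) ^ α = ((6 * m : ℕ) : ℝ) ^ (-(2 - α)) * ((6 * m : ℕ) : ℝ) ^ (2 : ℝ) := by
    rw [← Real.rpow_add hpos]; congr 1; ring
  rw [e, Real.rpow_two, ← mul_assoc] at h
  have h3 : ((6 * m : ℕ) : ℝ) ^ 2 = 36 * (m : ℝ) ^ 2 := by push_cast; ring
  rw [h3] at h
  have : (0 : ℝ) < (m : ℝ) ^ 2 := by positivity
  nlinarith

end Pool.Agent.S10106
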