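import Pool.Statements.S10114
import Pool.Agent.H.MP_903d4d_co.Main

set_option autoImplicit false
open Pool Pool.MP_903d4d_co

namespace Pool.Agent.S10114

theorem result :
    ¬ (∀ (V : Type) [Fintype V] [DecidableEq V] (G : SimpleGraph V), 2 ≤ Fintype.card V →
    ∀ r : ℕ,
      ((∃ f : Fin r → V, Function.Injective f ∧ ∃ a b : Fin r, a ≠ b ∧
          ∀ i j : Fin r, i ≠ j → ¬(i = a ∧ j = b) → ¬(i = b ∧ j = a) → G.Adj (f i) (f j)) ∧
       (∀ s : ℕ, (∃ f : Fin s → V, Function.Injective f ∧ ∃ a b : Fin s, a ≠ b ∧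
          ∀ i j : Fin s, i ≠ j → ¬(i = a ∧ j = b) → ¬(i = b ∧ j = a) → G.Adj (f i) (f j)) →
          s ≤ r)) →
      ((∀ β : ℝ, 0 < β → (r : ℝ) - 2 ≤ β →
          ∀ A : Matrix V V ℝ, A.PosSemidef → (∀ i j, 0 ≤ A i j) →
            (∀ i j, i ≠ j → ¬ G.Adj i j → A i j = 0) →
            (A.map (fun x : ℝ => x ^ β)).PosSemidef) ∧
       (∀ α : ℝ, 0 ≤ α → α < (r : ℝ) - 2 →
          ∃ β : ℝ, α ≤ β ∧ 0 < β ∧ ∃ A : Matrix V V ℝ, A.PosSemidef ∧ (∀ i j, 0 ≤ A i j) ∧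
            (∀ i j, i ≠ j → ¬ G.Adj i j → A i j = 0) ∧
            ¬ (A.map (fun x : ℝ => x ^ β)).PosSemidef))) := by
  open Pool.Agent.H.MP_903d4d_co in
  intro h
  have h3 := (h V G (by simp) 3 ⟨⟨![1, 0, 2], by decide, 0, 2, by decide, ?_⟩, ?_⟩).1 (9 / 8)
    (by norm_num) (by norm_num) _ psd A_nonneg (A_zero _ _)
  · rw [pow_map] at h3
    exact not_psd h3
  · have a : G.Adj 1 0 := by show _ ∈ L1 ++ L2; decide +kernel
    have b : G.Adj 2 0 := by show _ ∈ L1 ++ L2; decide +kernel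
    intro i j
    fin_cases i <;> fin_cases j <;> simp [a, b, a.symm, b.symm]
  · rintro s ⟨f, -, a, b, hab, hf⟩
    by_contra hs
    have hc : 2 ≤ ((Finset.univ.erase a).erase b).card := by
      rw [Finset.card_erase_of_mem (by simp [hab.symm]), Finset.card_erase_of_mem (by simp)]
      simp only [Finset.card_univ, Fintype.card_fin]
      omega
    obtain ⟨c, hc1, d, hd1, hcd⟩ := Finset.one_lt_card.mp hc
    simp only [Finset.mem_erase, Finset.mem_univ, and_true] at hc1 hd1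
    exact tri (f a) (f c) (f d)
      (hf a c hc1.2.symm (fun p => hc1.1 p.2) (fun p => hab p.1))
      (hf a d hd1.2.symm (fun p => hd1.1 p.2) (fun p => hab p.1))
      (hf c d hcd (fun p => hc1.2 p.1) (fun p => hc1.1 p.1))

end Pool.Agent.S10114
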