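import Pool.Statements.S10123
import Pool.Agent.H.MP_9095c8_co.Main

set_option autoImplicit false
open Pool Pool.MP_9095c8_co

namespace Pool.Agent.S10123

theorem result :
    ∃ α δ : ℝ, 0 < α ∧ 0 < δ ∧
      ∀ ε : ℝ, 0 < ε → ∀ M : ℕ, ∃ n : ℕ, M ≤ n + 1 ∧
        ∃ A : Finset (ZMod (n + 1) × ZMod (n + 1)),
          |(A.card : ℝ) / ((n : ℝ) + 1) ^ 2 - α| ≤ ε ∧
          (∀ r : ZMod (n + 1) × ZMod (n + 1), r ≠ 0 →
            ‖∑ x ∈ A, Complex.exp (2 * (Real.pi : ℂ) * Complex.I *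
                (((r.1 * x.1 + r.2 * x.2 : ZMod (n + 1)).val : ℂ)) / ((n : ℂ) + 1))‖
              ≤ ε * ((n : ℝ) + 1) ^ 2) ∧
          (((Finset.univ : Finset (ZMod (n + 1) × ZMod (n + 1) × ZMod (n + 1))).filter
              (fun t : ZMod (n + 1) × ZMod (n + 1) × ZMod (n + 1) =>
                (t.1, t.2.1) ∈ A ∧ (t.1 + t.2.2, t.2.1) ∈ A ∧ (t.1, t.2.1 + t.2.2) ∈ A)).card : ℝ)
            ≤ (α ^ 3 - δ) * ((n : ℝ) + 1) ^ 3 := by
  exact ⟨3 / 4, 1 / 128, by norm_num, by norm_num, Pool.Agent.H.MP_9095c8_co.main⟩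

end Pool.Agent.S10123
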