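import Pool.Statements.S10135
import Pool.Agent.H.MP_911b3a_co.D

set_option autoImplicit false
open Pool Pool.MP_911b3a_co

namespace Pool.Agent.S10135

/-- For every n, Dumont-1 permutations of 1..2n (even entries followed by a smaller one, odd entries followed by a larger one or last) avoiding 2143 are exactly as many as those avoiding 3421. -/
theorem result :
    ∀ n : ℕ,
      {π : Equiv.Perm (Fin (2 * n)) |
        (∀ i : Fin (2 * n),
          (Even ((π i).val + 1) → ∃ j : Fin (2 * n), j.val = i.val + 1 ∧ π j < π i) ∧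
          (Odd ((π i).val + 1) →
            (i.val + 1 = 2 * n ∨ ∃ j : Fin (2 * n), j.val = i.val + 1 ∧ π i < π j))) ∧
        ¬ ∃ f : Fin 4 → Fin (2 * n), StrictMono f ∧
            ∀ a b : Fin 4, (π (f a) < π (f b) ↔
              (![1, 0, 3, 2] : Fin 4 → ℕ) a < (![1, 0, 3, 2] : Fin 4 → ℕ) b)}.ncard =
      {π : Equiv.Perm (Fin (2 * n)) |
        (∀ i : Fin (2 * n),
          (Even ((π i).val + 1) → ∃ j : Fin (2 * n), j.val = i.val + 1 ∧ π j < π i) ∧
          (Odd ((π i).val + 1) →
            (i.val + 1 = 2 * n ∨ ∃ j : Fin (2 * n), j.val = i.val + 1 ∧ π i < π j))) ∧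
        ¬ ∃ f : Fin 4 → Fin (2 * n), StrictMono f ∧
            ∀ a b : Fin 4, (π (f a) < π (f b) ↔
              (![2, 3, 1, 0] : Fin 4 → ℕ) a < (![2, 3, 1, 0] : Fin 4 → ℕ) b)}.ncard := by
  intro n
  classical
  have := Pool.Agent.H.MP_911b3a_co.destop (n := 2 * n)
    (Finset.univ.filter (fun v : Fin (2 * n) => Even (v.val + 1)))
  simp only [Pool.Agent.H.MP_911b3a_co.dumont, Pool.Agent.H.MP_911b3a_co.avA,
    Pool.Agent.H.MP_911b3a_co.avB]
  rw [← Set.ncard_coe_finset, ← Set.ncard_coe_finset] at this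
  convert this using 2 <;> ext π <;> simp [and_comm]

end Pool.Agent.S10135
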