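import Pool.Statements.S10153

set_option autoImplicit false
open Pool Pool.MP_91f506_co

namespace Pool.Agent.S10153

open Finset

variable {V : Type} [Fintype V] [DecidableEq V]

/-- the family of edges indexed by `F` is 2-colourable -/
def Col (E : V → Finset V) (F : Finset V) : Prop :=
  ∃ A : Finset V, ∀ x ∈ F, (∃ a ∈ E x, a ∈ A) ∧ (∃ b ∈ E x, b ∉ A)

def Tr (E : V → Finset V) (F : Finset V) (T : Finset V) : Prop := ∀ x ∈ F, ∃ a ∈ E x, a ∈ T

/-- a family of transversals covering every vertex at most half of the time -/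
def Good (E : V → Finset V) (F : Finset V) : Prop :=
  ∃ (I : Type) (_ : Fintype I) (T : I → Finset V), 0 < Fintype.card I ∧ (∀ i, Tr E F (T i)) ∧
    ∀ v, 2 * (univ.filter (fun i => v ∈ T i)).card ≤ Fintype.card I

lemma good_of_col {E : V → Finset V} {F : Finset V} (h : Col E F) : Good E F := by
  obtain ⟨A, hA⟩ := h
  refine ⟨Bool, inferInstance, fun b => if b then A else Aᶜ, by simp, ?_, ?_⟩
  · intro b x hx
    cases b
    · obtain ⟨b, hb, hb'⟩ := (hA x hx).2
      exact ⟨b, hb, by simpa using hb'⟩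
    · simpa using (hA x hx).1
  · intro v
    rw [card_filter, Fintype.sum_bool]
    by_cases hv : v ∈ A <;> simp [hv]

/-- Seymour: a minimal non-2-colourable hypergraph has at least as many edges as vertices -/
lemma seymour {E : V → Finset V} {M : Finset V} (hM : ¬ Col E M) (hmin : ∀ M' ⊂ M, Col E M') :
    (M.biUnion E).card ≤ M.card := by
  classical
  by_contra hlt
  push Not at hlt
  set U := M.biUnion E with hU
  let L : (U → ℚ) →ₗ[ℚ] (M → ℚ) :=
    { toFun := fun f x => ∑ v : U, if (v : V) ∈ E x then f v else 0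
      map_add' := by
        intro f g; funext x
        simp only [Pi.add_apply, ← sum_add_distrib]
        refine sum_congr rfl fun v _ => ?_
        split_ifs <;> simp
      map_smul' := by
        intro c f; funext x
        simp only [Pi.smul_apply, smul_eq_mul, RingHom.id_apply, mul_sum]
        refine sum_congr rfl fun v _ => ?_
        split_ifs <;> simp }
  have hker : LinearMap.ker L ≠ ⊥ := LinearMap.ker_ne_bot_of_finrank_lt (by simpa using hlt)
  obtain ⟨f, hf, hf0⟩ := Submodule.exists_mem_ne_zero_of_ne_bot hker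
  let g : V → ℚ := fun v => if h : v ∈ U then f ⟨v, h⟩ else 0
  have hsum : ∀ x ∈ M, ∑ v ∈ E x, g v = 0 := by
    intro x hx
    have h1 : L f ⟨x, hx⟩ = 0 := by rw [LinearMap.mem_ker.mp hf]; rfl
    have h2 : ∑ v : U, (if (v : V) ∈ E x then f v else 0) = ∑ v ∈ U, (if v ∈ E x then g v else 0) := by
      rw [← sum_coe_sort U]
      refine sum_congr rfl fun v _ => ?_
      simp [g]
    have h3 : ∑ v ∈ U, (if v ∈ E x then g v else 0) = ∑ v ∈ E x, g v := by
      rw [← sum_filter]
      congr 1
      ext v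
      simp only [mem_filter, hU, mem_biUnion]
      exact ⟨fun h => h.2, fun h => ⟨⟨x, hx, h⟩, h⟩⟩
    rw [← h3, ← h2]; exact h1
  obtain ⟨⟨v0, hv0⟩, hv0'⟩ := Function.ne_iff.mp hf0
  obtain ⟨x0, hx0, hx0'⟩ := mem_biUnion.mp hv0
  have hg0 : g v0 ≠ 0 := by simpa [g, hv0] using hv0'
  obtain ⟨A, hA⟩ := hmin (M.filter (fun x => ∀ v ∈ E x, g v = 0)) (by
    refine filter_ssubset.mpr ⟨x0, hx0, ?_⟩
    push Not
    exact ⟨v0, hx0', hg0⟩)
  apply hM
  refine ⟨univ.filter (fun v => 0 < g v ∨ (g v = 0 ∧ v ∈ A)), fun x hx => ?_⟩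
  by_cases hz : ∀ v ∈ E x, g v = 0
  · obtain ⟨⟨a, ha, ha'⟩, ⟨b, hb, hb'⟩⟩ := hA x (mem_filter.mpr ⟨hx, hz⟩)
    refine ⟨⟨a, ha, by simp [hz a ha, ha']⟩, ⟨b, hb, by simp [hz b hb, hb']⟩⟩
  · have hs := hsum x hx
    constructor
    · by_contra hc
      push Not at hc
      apply hz
      have hle : ∀ v ∈ E x, g v ≤ 0 := fun v hv => by
        have := hc v hv
        simp only [mem_filter, mem_univ, true_and, not_or, not_lt] at this
        exact this.1
      exact (sum_eq_zero_iff_of_nonpos hle).mp hs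
    · by_contra hc
      push Not at hc
      apply hz
      have hle : ∀ v ∈ E x, 0 ≤ g v := fun v hv => by
        have := hc v hv
        simp only [mem_filter, mem_univ, true_and] at this
        rcases this with h | h
        · exact h.le
        · exact h.1.ge
      exact (sum_eq_zero_iff_of_nonneg hle).mp hs

lemma closed {E : V → Finset V} (h3 : ∀ x, (E x).card = 3) (hs : ∀ x y, y ∈ E x ↔ x ∈ E y)
    {M : Finset V} (hle : (M.biUnion E).card ≤ M.card) :
    M.card ≤ (M.biUnion E).card ∧ ∀ v ∈ M.biUnion E, E v ⊆ M := by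
  set U := M.biUnion E with hU
  have h1 : ∑ x ∈ M, (U.filter (fun v => v ∈ E x)).card = ∑ v ∈ U, (M.filter (fun x => v ∈ E x)).card := by
    simp only [card_filter]
    exact sum_comm
  have h2 : ∑ x ∈ M, (U.filter (fun v => v ∈ E x)).card = M.card * 3 := by
    rw [← smul_eq_mul, ← sum_const]
    refine sum_congr rfl fun x hx => ?_
    rw [← h3 x]
    congr 1
    ext v
    simp only [mem_filter, hU, mem_biUnion]
    exact ⟨fun h => h.2, fun h => ⟨⟨x, hx, h⟩, h⟩⟩
  have h4 : ∀ v, M.filter (fun x => v ∈ E x) ⊆ E v := fun v x hx => (hs x v).mp (mem_filter.mp hx).2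
  have h5 : ∀ v ∈ U, (M.filter (fun x => v ∈ E x)).card ≤ 3 := fun v _ => (h3 v) ▸ card_le_card (h4 v)
  have h6 : ∑ v ∈ U, (M.filter (fun x => v ∈ E x)).card ≤ ∑ v ∈ U, 3 := sum_le_sum h5
  have h7 : ∑ v ∈ U, 3 = U.card * 3 := by simp
  refine ⟨by omega, fun v hv => ?_⟩
  have h8 : ∑ v ∈ U, (M.filter (fun x => v ∈ E x)).card = ∑ v ∈ U, 3 := by omega
  have h9 := (sum_eq_sum_iff_of_le h5).mp h8 v hv
  have h10 : M.filter (fun x => v ∈ E x) = E v := eq_of_subset_of_card_le (h4 v) (by rw [h3 v, h9])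
  rw [← h10]
  exact filter_subset _ _

lemma step {E : V → Finset V} (h3 : ∀ x, (E x).card = 3) {M : Finset V} (hM : ¬ Col E M)
    (hmin : ∀ M' ⊂ M, Col E M') (hge : M.card ≤ (M.biUnion E).card) (v : V) (hv : v ∈ M.biUnion E) :
    ∃ u ∈ M.biUnion E, ∃ T1 T2 : Finset V, Tr E M T1 ∧ Tr E M T2 ∧
      ∀ w, (if w ∈ T1 then 1 else 0) + (if w ∈ T2 then 1 else 0) + (if w = u then 1 else 0)
        ≤ 1 + (if w = v then 1 else 0) := by
  obtain ⟨e, he, hve⟩ := mem_biUnion.mp hv
  have hex : ∃ A : Finset V, (∀ x ∈ M.erase e, (∃ a ∈ E x, a ∈ A) ∧ (∃ b ∈ E x, b ∉ A)) ∧ E e ⊆ A := by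
    obtain ⟨A, hA⟩ := hmin (M.erase e) (erase_ssubset he)
    by_cases h1 : E e ⊆ A
    · exact ⟨A, hA, h1⟩
    · refine ⟨Aᶜ, fun x hx => ?_, ?_⟩
      · obtain ⟨⟨a, ha, ha'⟩, ⟨b, hb, hb'⟩⟩ := hA x hx
        exact ⟨⟨b, hb, by simpa using hb'⟩, ⟨a, ha, by simpa using ha'⟩⟩
      · intro a ha
        rw [mem_compl]
        intro haA
        apply hM
        refine ⟨A, fun x hx => ?_⟩
        by_cases hxe : x = e
        · subst hxe
          exact ⟨⟨a, ha, haA⟩, not_subset.mp h1⟩
        · exact hA x (mem_erase.mpr ⟨hxe, hx⟩)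
  obtain ⟨A, hA, heA⟩ := hex
  let K : V → Finset V := fun x => univ.filter (fun u => E x ∩ A = {u} ∨ E x \ A = {u})
  have hK : ∀ x ∈ M.erase e, (K x).card ≤ 1 := by
    intro x _
    rw [card_le_one]
    intro a ha b hb
    simp only [K, mem_filter, mem_univ, true_and] at ha hb
    have hc := card_inter_add_card_sdiff (E x) A
    rw [h3] at hc
    rcases ha with ha | ha <;> rcases hb with hb | hb
    · exact singleton_injective (ha.symm.trans hb)
    · rw [ha, hb] at hc; simp at hc
    · rw [ha, hb] at hc; simp at hc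
    · exact singleton_injective (ha.symm.trans hb)
  have hc : ((M.erase e).biUnion K).card < (M.biUnion E).card := by
    have h1 := card_biUnion_le_card_mul (M.erase e) K 1 hK
    have h2 := card_erase_of_mem he
    have h4 : 0 < M.card := card_pos.mpr ⟨e, he⟩
    omega
  obtain ⟨u, hu, hu'⟩ := exists_mem_notMem_of_card_lt_card hc
  have hnk : ∀ x ∈ M.erase e, E x ∩ A ≠ {u} ∧ E x \ A ≠ {u} := by
    intro x hx
    have : u ∉ K x := fun h => hu' (mem_biUnion.mpr ⟨x, hx, h⟩)
    simpa [K] using this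
  refine ⟨u, hu, A.erase u, insert v (Aᶜ.erase u), ?_, ?_, ?_⟩
  · intro x hx
    by_cases hxe : x = e
    · subst hxe
      have : ((E x).erase u).Nonempty := by
        rw [← card_pos]
        have := pred_card_le_card_erase (s := E x) (a := u)
        rw [h3] at this
        omega
      obtain ⟨a, ha⟩ := this
      exact ⟨a, (mem_erase.mp ha).2, mem_erase.mpr ⟨(mem_erase.mp ha).1, heA (mem_erase.mp ha).2⟩⟩
    · have hx' := mem_erase.mpr ⟨hxe, hx⟩
      obtain ⟨a, ha, ha'⟩ := (hA x hx').1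
      by_contra hc
      push Not at hc
      apply (hnk x hx').1
      have hh : ∀ b ∈ E x, b ∈ A → b = u := fun b hb hbA => by
        by_contra hne
        exact hc b hb (mem_erase.mpr ⟨hne, hbA⟩)
      ext b
      simp only [mem_inter, mem_singleton]
      exact ⟨fun h => hh b h.1 h.2, fun h => by rw [h, ← hh a ha ha']; exact ⟨ha, ha'⟩⟩
  · intro x hx
    by_cases hxe : x = e
    · subst hxe
      exact ⟨v, hve, mem_insert_self _ _⟩
    · have hx' := mem_erase.mpr ⟨hxe, hx⟩
      obtain ⟨a, ha, ha'⟩ := (hA x hx').2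
      by_contra hc
      push Not at hc
      apply (hnk x hx').2
      have hh : ∀ b ∈ E x, b ∉ A → b = u := fun b hb hbA => by
        by_contra hne
        exact hc b hb (mem_insert_of_mem (mem_erase.mpr ⟨hne, by simpa using hbA⟩))
      ext b
      simp only [mem_sdiff, mem_singleton]
      exact ⟨fun h => hh b h.1 h.2, fun h => by rw [h, ← hh a ha ha']; exact ⟨ha, ha'⟩⟩
  · intro w
    simp only [mem_erase, mem_insert, mem_compl]
    by_cases h1 : w = u <;> by_cases h2 : w = v <;> by_cases h4 : w ∈ A <;> simp [h1, h2, h4]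
    all_goals (split_ifs <;> simp_all)

lemma exists_core (U : Finset V) (hU : U.Nonempty) (g : V → V) (hg : ∀ v ∈ U, g v ∈ U) :
    ∃ C : Finset V, C.Nonempty ∧ C ⊆ U ∧ C ⊆ C.image g := by
  obtain ⟨C, hC, hmin⟩ := exists_min_image
    (U.powerset.filter (fun C => C.Nonempty ∧ C.image g ⊆ C)) card
    ⟨U, by
      simp only [mem_filter, mem_powerset, subset_refl, true_and]
      exact ⟨hU, fun y hy => by
        obtain ⟨x, hx, rfl⟩ := mem_image.mp hy
        exact hg x hx⟩⟩
  simp only [mem_filter, mem_powerset] at hC hmin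
  refine ⟨C, hC.2.1, hC.1, ?_⟩
  have h1 := hmin (C.image g) ⟨hC.2.2.trans hC.1, hC.2.1.image g, image_subset_image hC.2.2⟩
  rw [eq_of_subset_of_card_le hC.2.2 h1]

lemma good_min {E : V → Finset V} (h3 : ∀ x, (E x).card = 3) {M : Finset V} (hM : ¬ Col E M)
    (hmin : ∀ M' ⊂ M, Col E M') (hge : M.card ≤ (M.biUnion E).card) : Good E M := by
  have hne : M.Nonempty := by
    rw [nonempty_iff_ne_empty]
    rintro rfl
    exact hM ⟨∅, by simp⟩
  have hUne : (M.biUnion E).Nonempty := by
    rw [← card_pos]; have := card_pos.mpr hne; omega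
  have := step h3 hM hmin hge
  choose! g hg T1 T2 h1 h2 hw using this
  obtain ⟨C, hC, hCU, hCg⟩ := exists_core _ hUne g hg
  refine ⟨C × Bool, inferInstance, fun i => if i.2 then T1 i.1 else T2 i.1, ?_, ?_, ?_⟩
  · simpa using hC
  · rintro ⟨⟨c, hc⟩, b⟩
    cases b
    · exact h2 c (hCU hc)
    · exact h1 c (hCU hc)
  · intro w
    rw [card_filter, Fintype.sum_prod_type]
    simp only [Fintype.sum_bool, Fintype.card_prod, Fintype.card_coe, Fintype.card_bool, if_true,
      Bool.false_eq_true, if_false]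
    rw [sum_coe_sort C (fun c => (if w ∈ T1 c then 1 else 0) + (if w ∈ T2 c then 1 else 0))]
    have a1 := sum_le_sum (s := C) (fun c hc => hw c (hCU hc) w)
    rw [sum_add_distrib, sum_add_distrib (f := fun _ => 1)] at a1
    have a2 : ∑ c ∈ C, (if w = c then 1 else 0) ≤ ∑ c ∈ C, (if w = g c then 1 else 0) := by
      rw [sum_ite_eq]
      split_ifs with hwC
      · obtain ⟨c, hc, hc'⟩ := mem_image.mp (hCg hwC)
        have := single_le_sum (s := C) (f := fun c => if w = g c then 1 else 0)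
          (fun _ _ => Nat.zero_le _) hc
        simpa [hc'] using this
      · exact Nat.zero_le _
    have a3 : ∑ _c ∈ C, 1 = C.card := by simp
    omega

lemma good_all {E : V → Finset V} (h3 : ∀ x, (E x).card = 3) (hs : ∀ x y, y ∈ E x ↔ x ∈ E y)
    (F : Finset V) : Good E F := by
  classical
  induction F using Finset.strongInduction with
  | H F ih =>
    by_cases hF : Col E F
    · exact good_of_col hF
    obtain ⟨M, hM, hmin⟩ := exists_min_image (F.powerset.filter (fun M => ¬ Col E M)) card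
      ⟨F, by simp [hF]⟩
    simp only [mem_filter, mem_powerset] at hM hmin
    have hmin' : ∀ M' ⊂ M, Col E M' := by
      intro M' hM'
      by_contra hc
      have := hmin M' ⟨hM'.subset.trans hM.1, hc⟩
      have := card_lt_card hM'
      omega
    obtain ⟨hge, hcl⟩ := closed h3 hs (seymour hM.2 hmin')
    have hne : M.Nonempty := by
      rw [nonempty_iff_ne_empty]
      rintro rfl
      exact hM.2 ⟨∅, by simp⟩
    obtain ⟨I, _, T, hI, hT, hTv⟩ := good_min h3 hM.2 hmin' hge
    obtain ⟨J, _, T', hJ, hT', hTv'⟩ := ih (F \ M) (sdiff_ssubset hM.1 hne)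
    set U := M.biUnion E with hU
    refine ⟨I × J, inferInstance, fun p => (T p.1 ∩ U) ∪ (T' p.2 \ U), ?_, ?_, ?_⟩
    · rw [Fintype.card_prod]; positivity
    · rintro ⟨i, j⟩ x hx
      by_cases hxM : x ∈ M
      · obtain ⟨a, ha, ha'⟩ := hT i x hxM
        exact ⟨a, ha, mem_union_left _ (mem_inter.mpr ⟨ha', mem_biUnion.mpr ⟨x, hxM, ha⟩⟩)⟩
      · obtain ⟨a, ha, ha'⟩ := hT' j x (mem_sdiff.mpr ⟨hx, hxM⟩)
        exact ⟨a, ha, mem_union_right _ (mem_sdiff.mpr ⟨ha', fun h => hxM (hcl a h ((hs x a).mp ha))⟩)⟩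
    · intro v
      rw [Fintype.card_prod]
      by_cases hv : v ∈ U
      · have : univ.filter (fun p : I × J => v ∈ (T p.1 ∩ U) ∪ (T' p.2 \ U))
            = (univ.filter (fun i => v ∈ T i)) ×ˢ (univ : Finset J) := by
          ext p; simp [hv]
        rw [this, card_product, card_univ, ← mul_assoc]
        exact Nat.mul_le_mul_right _ (hTv v)
      · have : univ.filter (fun p : I × J => v ∈ (T p.1 ∩ U) ∪ (T' p.2 \ U))
            = (univ : Finset I) ×ˢ (univ.filter (fun j => v ∈ T' j)) := by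
          ext p; simp [hv]
        rw [this, card_product, card_univ, mul_left_comm]
        exact Nat.mul_le_mul_left _ (hTv' v)

theorem result :
    ∀ (V : Type) [Fintype V] [DecidableEq V] (G : SimpleGraph V) [DecidableRel G.Adj],
      G.IsRegularOfDegree 3 →
      ∃ w : Finset V → ℝ,
        (∀ S, 0 ≤ w S) ∧
        (∀ S, w S ≠ 0 → ∀ v : V, ∃ u ∈ S, G.Adj v u) ∧
        (∀ v : V, ∑ S ∈ Finset.univ.filter (fun S : Finset V => v ∈ S), w S ≤ 1) ∧
        2 ≤ ∑ S, w S := by
  intro V _ _ G _ hG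
  obtain ⟨I, _, T, hI, hT, hTv⟩ := good_all (E := fun x => G.neighborFinset x)
    (fun x => by rw [SimpleGraph.card_neighborFinset_eq_degree]; exact hG.degree_eq x)
    (fun x y => by simp [SimpleGraph.adj_comm]) univ
  have hI' : (0 : ℝ) < Fintype.card I := by exact_mod_cast hI
  refine ⟨fun S => 2 * ((univ.filter (fun i => T i = S)).card : ℝ) / Fintype.card I, ?_, ?_, ?_, ?_⟩
  · intro S; positivity
  · intro S hS v
    have : (univ.filter (fun i => T i = S)).Nonempty := by
      rw [nonempty_iff_ne_empty]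
      intro h
      simp [h] at hS
    obtain ⟨i, hi⟩ := this
    obtain ⟨a, ha, ha'⟩ := hT i v (mem_univ _)
    rw [(mem_filter.mp hi).2] at ha'
    exact ⟨a, ha', by simpa using ha⟩
  · intro v
    rw [← sum_div, ← mul_sum, div_le_one hI']
    have h1 := card_eq_sum_card_fiberwise (s := univ.filter (fun i => v ∈ T i))
      (t := univ.filter (fun S : Finset V => v ∈ S)) (f := T) (fun i hi => by simpa using hi)
    have h2 : ∑ S ∈ univ.filter (fun S : Finset V => v ∈ S), (univ.filter (fun i => T i = S)).card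
        = (univ.filter (fun i => v ∈ T i)).card := by
      rw [h1]
      refine sum_congr rfl fun S hS => ?_
      congr 1
      ext i
      simp only [mem_filter, mem_univ, true_and] at hS ⊢
      exact ⟨fun h => ⟨h ▸ hS, h⟩, fun h => h.2⟩
    have h3 := hTv v
    rw [← h2] at h3
    exact_mod_cast h3
  · rw [← sum_div, ← mul_sum, le_div_iff₀ hI']
    have h1 := card_eq_sum_card_fiberwise (s := (univ : Finset I)) (t := (univ : Finset (Finset V)))
      (f := T) (fun i _ => by simp)
    rw [card_univ] at h1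
    rw [h1]
    push_cast
    exact le_refl _

end Pool.Agent.S10153
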