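import Pool.Statements.S10161
import Pool.Agent.H.MP_35c2eb_co.A

set_option autoImplicit false
open Pool Pool.MP_9219e0_co

namespace Pool.Agent.S10161

/-- For every subgraph-closed class of bipartite graphs whose associated height-2 posets (lower side below adjacent upper vertices) all have dimension at most some d, there is D with every member having at most D times its vertex count edges. -/
theorem result :
    ∀ C : (m : ℕ) → (n : ℕ) → (Fin m → Fin n → Prop) → Prop,
      (∀ (m n : ℕ) (R : Fin m → Fin n → Prop) (m' n' : ℕ) (R' : Fin m' → Fin n' → Prop)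
          (e : Fin m' ↪ Fin m) (g : Fin n' ↪ Fin n),
          C m n R → (∀ a b, R' a b → R (e a) (g b)) → C m' n' R') →
      (∃ d : ℕ, ∀ (m n : ℕ) (R : Fin m → Fin n → Prop), C m n R →
          ∃ f : Fin d → (Fin m ⊕ Fin n) → ℕ,
            (∀ i, Function.Injective (f i)) ∧
            ∀ x y : Fin m ⊕ Fin n, x ≠ y →
              ((∃ a b, x = Sum.inl a ∧ y = Sum.inr b ∧ R a b) ↔ ∀ i, f i x < f i y)) →
      ∃ D : ℕ, ∀ (m n : ℕ) (R : Fin m → Fin n → Prop), C m n R →
        Set.ncard {p : Fin m × Fin n | R p.1 p.2} ≤ D * (m + n) := by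
  open Pool.Agent.H.MP_35c2eb_co Finset in
  rintro C hC ⟨d, hd⟩
  refine ⟨(4 * d).factorial * 2 ^ (4 * d), fun m n R hR => ?_⟩
  classical
  let e : Fin m × Fin n → (Fin m ⊕ Fin n) × (Fin m ⊕ Fin n) := fun p => (Sum.inl p.1, Sum.inr p.2)
  have ei : Function.Injective e := fun p q h =>
    Prod.ext (Sum.inl_injective (congrArg Prod.fst h)) (Sum.inr_injective (congrArg Prod.snd h))
  have key := count d ((univ.filter fun p : Fin m × Fin n => R p.1 p.2).image e) (by
      intro p hp
      obtain ⟨q, -, rfl⟩ := mem_image.1 hp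
      simp [e]) (by
    intro F hF
    obtain ⟨f, f1, f2⟩ := hd m n (fun a b => e (a, b) ∈ F)
      (hC m n R m n _ (Function.Embedding.refl _) (Function.Embedding.refl _) hR fun a b h => by
        obtain ⟨q, hq, h2⟩ := mem_image.1 (hF h)
        rw [ei h2] at hq
        exact (mem_filter.1 hq).2)
    refine ⟨f, f1, fun p hp => ?_⟩
    obtain ⟨⟨a, b⟩, -, rfl⟩ := mem_image.1 hp
    have ne : (Sum.inl a : Fin m ⊕ Fin n) ≠ Sum.inr b := Sum.inl_ne_inr
    have h1 := f2 _ _ ne
    constructor
    · intro h i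
      exact (h1.1 ⟨a, b, rfl, rfl, h⟩ i).le
    · intro h
      obtain ⟨a', b', ha, hb, h2⟩ := h1.2 fun i => lt_of_le_of_ne (h i) fun e' => ne (f1 i e')
      rw [Sum.inl_injective ha, Sum.inr_injective hb]
      exact h2)
  rw [card_image_of_injective _ ei] at key
  have e1 : Set.ncard {p : Fin m × Fin n | R p.1 p.2} =
      (univ.filter fun p : Fin m × Fin n => R p.1 p.2).card := by
    rw [← Set.ncard_coe_finset]
    simp
  rw [e1]
  simp only [Fintype.card_sum, Fintype.card_fin] at key
  omega

end Pool.Agent.S10161
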