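import Pool.Statements.S10175
import Pool.Agent.H.MP_933a78_co.B

set_option autoImplicit false
open Pool Pool.MP_933a78_co

namespace Pool.Agent.S10175

theorem result :
    ∀ n t j : ℕ,
      ((n = 2 * t + 1 ∧ 7 ≤ n ∧ 5 * t + 4 ≤ j ∧ j ≤ 7 * t + 5) ∨
       (n = 2 * t ∧ 4 ≤ n ∧ 5 * t + 2 ≤ j ∧ j ≤ 7 * t + 1)) →
      ∃ f : ZMod n ⊕ ZMod n → ℕ,
        Function.Injective f ∧
        (∀ x, 1 ≤ f x ∧ f x ≤ 2 * n) ∧
        ∀ i : ZMod n, f (Sum.inl i) + f (Sum.inr i) + f (Sum.inl (i + 1)) = j := by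
  intro n t j h
  have hg := Pool.Agent.H.MP_933a78_co.all n j (by omega) (by omega) (by omega) (by omega)
  have hn : 4 ≤ n := by omega
  haveI : NeZero n := ⟨by omega⟩
  haveI : Fact (1 < n) := ⟨by omega⟩
  obtain ⟨f, g, h1, h2, h3⟩ := hg.out (ι := ZMod n) (ZMod.card n) ZMod.val
    (fun i hi => ⟨(i : ZMod n), ZMod.val_cast_of_lt hi⟩) (fun i => i + 1)
    (fun a => by rw [ZMod.val_add, ZMod.val_one])
  refine ⟨Sum.elim f g, h1, fun x => Finset.mem_Icc.1 (h2 x), fun i => ?_⟩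
  have := h3 i
  simp only [Sum.elim_inl, Sum.elim_inr]
  omega

end Pool.Agent.S10175
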