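import Pool.Statements.S10196
import Pool.Agent.Lib.helper8.Bnd

set_option autoImplicit false
open Pool Pool.MP_93ee52_co
open Pool.Agent.Lib.helper8

namespace Pool.Agent.S10196

/-- The dodecahedron graph, as the generalized Petersen graph GP(10,2): cubic, girth 5, 20 vertices.
It has 295 maximal independent sets, and 295 > 225 = 15 ^ 2. -/
def adjb (x y : Nat) : Bool :=
  (x < 10 && y == (x + 1) % 10) || (x < 10 && y == x + 10) ||
    (10 ≤ x && y == 10 + (x + 2) % 10)

def adj2 (x y : Nat) : Bool := adjb x y || adjb y x

def G : SimpleGraph (Fin (10 * 2)) where
  Adj x y := adj2 x.1 y.1 = true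
  symm := ⟨fun x y h => by simpa [adj2, Bool.or_comm] using h⟩
  loopless := ⟨by decide +kernel⟩

instance : DecidableRel G.Adj := fun x y =>
  inferInstanceAs (Decidable (adj2 x.1 y.1 = true))

/-- The 295 sets, 20 bits each. -/
def big : Nat := 95156126130440606587526351783081403160355308477380014801863488067836563777791291729054843652945062517253642371195957248920858219797639274131407514561815251756254918217163945888457481225761854051970242519840270160670812076562742152057181982859451547273398743014419814124616677138316491922819565480963905364519755192698205609525921402831671345275438927432285636592379781523653514887463500903774685574190212316443553145602457430170104330798836047694670912605193585010351909943973438303066670825135167650043248445095249185026193583827398246437462169893673855432103385440846419302695828250647490139002294629016277085547611045173692887048840099809680768852864266906991597737210853063792377351155980735350464729622347105275171844586765986551941436955410339959981043661941228452916119391695167267346676047123276480698633041847093672764069988382700592209928494136276756627887249657579589171415705729182935088961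8050918586221930437602825010716314361475216460473628576964512758358292881542431556358725915882196726985661514029373503244015352459891900501267591467820695267467011172525153771974070575564747030286127904353401058156493717092428137714747838065754782626222305943076213879374631094727086281407070248467788888848256737675663518816403110929068583773128471087881049522692932504830753715577819440417645636877202274504888747545669738751104122102276325365780243840822205211240407832056256539620246619823456931590925119849188653037101245940608218860704993620853924160092674242504331708980913033347450616083288156619239957130135755349467843209273002603129142621963082036455391972581404279998092513882921518576653189864508195803275706404703242576525366921030708311176473082198749682865497915354714519594150647664662634360755927283158738222558412866937245747568286390344706248081785505450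

def memb (k : Nat) (v : Nat) : Bool := big.testBit (20 * k + v)

def F (k : Fin 295) : Set (Fin (10 * 2)) := {v | memb k.1 v.1 = true}

theorem c_indep : allLt 295 (fun k => allLt 20 (fun x => !(memb k x) || allLt 20 (fun y =>
    !(adj2 x y) || !(memb k y)))) = true := by decide +kernel

theorem c_dom : allLt 295 (fun k => allLt 20 (fun x =>
    memb k x || anyLt 20 (fun y => adj2 x y && memb k y))) = true := by decide +kernel

theorem c_inj : allLt 295 (fun k => allLt k (fun l =>
    anyLt 20 (fun x => memb k x != memb l x))) = true := by decide +kernel

theorem h_indep (k : Fin 295) (x y : Fin (10 * 2))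
    (hx : memb k.1 x.1 = true) (hy : memb k.1 y.1 = true) : ¬ G.Adj x y := by
  have h := (allLt_iff _ _).1 ((allLt_iff _ _).1 c_indep k.1 k.2) x.1 x.2
  rw [hx, Bool.not_true, Bool.false_or] at h
  have h := (allLt_iff _ _).1 h y.1 y.2
  intro hadj
  have h2 : adj2 x.1 y.1 = true := hadj
  simp [hy, h2] at h

theorem h_dom (k : Fin 295) (x : Fin (10 * 2)) (hx : memb k.1 x.1 = false) :
    ∃ y : Fin (10 * 2), memb k.1 y.1 = true ∧ G.Adj x y := by
  have h := (allLt_iff _ _).1 ((allLt_iff _ _).1 c_dom k.1 k.2) x.1 x.2
  rw [hx, Bool.false_or, anyLt_iff] at h
  obtain ⟨y, hy, h⟩ := h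
  rw [Bool.and_eq_true] at h
  exact ⟨⟨y, hy⟩, h.2, h.1⟩

theorem h_lt (k l : Fin 295) (hlt : l.1 < k.1)
    (h : ∀ x : Fin (10 * 2), memb k.1 x.1 = memb l.1 x.1) : False := by
  have h1 := (allLt_iff _ _).1 ((allLt_iff _ _).1 c_inj k.1 k.2) l.1 hlt
  rw [anyLt_iff] at h1
  obtain ⟨x, hx, h2⟩ := h1
  have h3 := h ⟨x, hx⟩
  simp only at h3
  simp [h3] at h2

theorem h_inj (k l : Fin 295) (h : ∀ x : Fin (10 * 2), memb k.1 x.1 = memb l.1 x.1) : k = l := by
  rcases lt_trichotomy k.1 l.1 with h1 | h1 | h1
  · exact (h_lt l k h1 (fun x => (h x).symm)).elim
  · exact Fin.ext h1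
  · exact (h_lt k l h1 h).elim

theorem h_tri : ∀ x y z : Fin (10 * 2), G.Adj x y → G.Adj x z → ¬ G.Adj y z := by
  decide +kernel

theorem h_deg : ∀ v : Fin (10 * 2), 3 ≤ G.degree v := by decide +kernel

theorem F_max (k : Fin 295) : Maximal G.IsIndepSet (F k) := by
  refine ⟨?_, ?_⟩
  · intro x hx y hy _
    exact h_indep k x y hx hy
  · intro t ht hle x hx
    by_contra hxn
    have hxf : memb k.1 x.1 = false := by
      simpa [F] using hxn
    obtain ⟨y, hy, hadj⟩ := h_dom k x hxf
    exact ht hx (hle (show y ∈ F k from hy)) hadj.ne hadj

theorem F_inj : Function.Injective F := by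
  intro k l h
  apply h_inj
  intro x
  have : x ∈ F k ↔ x ∈ F l := by rw [h]
  exact Bool.eq_iff_iff.mpr this

theorem result :
    ¬ (∀ (n : ℕ) (G : SimpleGraph (Fin (10 * n))) [DecidableRel G.Adj],
      G.CliqueFree 3 →
      (∀ v : Fin (10 * n), 3 ≤ G.degree v) →
      {s : Set (Fin (10 * n)) | Maximal G.IsIndepSet s}.ncard ≤ 15 ^ n) := by
  intro h
  have hcf : G.CliqueFree 3 := by
    intro s hs
    rw [SimpleGraph.is3Clique_iff] at hs
    obtain ⟨a, b, c, hab, hac, hbc, _⟩ := hs
    exact h_tri a b c hab hac hbc
  have h2 := h 2 G hcf h_deg
  have hsub : Set.range F ⊆ {s : Set (Fin (10 * 2)) | Maximal G.IsIndepSet s} := by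
    rintro _ ⟨k, rfl⟩
    exact F_max k
  have h3 := Set.ncard_le_ncard hsub (Set.toFinite _)
  have h4 : (Set.range F).ncard = 295 := by
    rw [← Set.image_univ, Set.ncard_image_of_injective _ F_inj, Set.ncard_univ]
    simp
  omega

end Pool.Agent.S10196
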