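import Pool.Statements.S10198
-- import your own Pool.Agent.* helpers here

set_option autoImplicit false
open Pool Pool.MP_94225f_co

namespace Pool.Agent.S10198

/-- connection mask of the complement: bit d set iff the difference d is 0 or lies in D -/
def adjB (a b : Nat) : Bool := !(Nat.testBit 269797891 ((a + 29 - b) % 29))

def rowsT : List Nat := [4893389972860628033050112786311926274957697, 25611665092787013362343426866092386538570344, 23761452587950796664782366962606322767776167, 25567988996457640846271665910579474887351407, 7595369693394576727192598997593509571637827, 830602807447559630666145390235364253384293, 2054677038176329165536344148065013188496914, 765510800074334851068036539066147005281352, 5639349780106307419011825639964541135700448, 14136798834172020238462554023129418122439015, 12548639961921893411639636314089889032805773, 19913671339657998042373811890745916803066976, 22760953192235695753536354072244524264132787, 15912390610013067441761139470515372522876174, 2789184946107916388051234746442499365513808, 20302756513282762549993388612950878224320676, 15563350190284619687291662287161725422829795,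 22632095962269974348458484368188978186623307, 92999706815299598287022975980156544943662, 3234522825772688878708105691445687592012143, 11944476729341251037795742452196002173830195, 10472598471009080667086989891900563877110787, 21403777453550598844917548477663204339193041, 673086675424271063810711660211982518521929, 17488137805637747859327402553103297213381868, 26800094282152360165922979024107866819017002, 7244625642243083586470611607845114951552454, 18477381895547684629224802932773921196778821, 8980014791390777852145742907756926933713090]

def col (g h : Nat) : Nat := (rowsT.getD g 0 / 32 ^ h) % 32 % 20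

def G : SimpleGraph (Fin 29) where
  Adj a b := adjB a.val b.val = true
  symm := by
    constructor
    decide +kernel
  loopless := by
    constructor
    decide +kernel

def chk : Bool :=
  (List.range 29).all fun g => (List.range 29).all fun h => (List.range 20).all fun i =>
    ((List.range 29).any fun t => (adjB h t && col g t == i) || (adjB g t && col t h == i))

theorem chk_true : chk = true := by decide +kernel

theorem noiso : ∀ v : Fin 29, ∃ u : Fin 29, adjB v.val u.val = true := by decide +kernel

theorem gam : ∀ a b : Fin 29, ∃ w : Fin 29, a ≠ w ∧ b ≠ w ∧ adjB w.val a.val = false ∧ adjB w.val b.val = false := by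
  decide +kernel

def f (x : Fin 29 × Fin 29) : Fin 20 := ⟨col x.1.val x.2.val, Nat.mod_lt _ (by norm_num)⟩

theorem tot (x : Fin 29 × Fin 29) (i : Fin 20) :
    ∃ y : Fin 29 × Fin 29, (SimpleGraph.boxProd G G).Adj x y ∧ f y = i := by
  have h := chk_true
  simp only [chk, List.all_eq_true, List.any_eq_true, List.mem_range, Bool.or_eq_true,
    Bool.and_eq_true, beq_iff_eq] at h
  obtain ⟨t, ht, h⟩ := h x.1.val x.1.isLt x.2.val x.2.isLt i.val i.isLt
  rcases h with ⟨h1, h2⟩ | ⟨h1, h2⟩
  · refine ⟨(x.1, ⟨t, ht⟩), ?_, Fin.ext h2⟩
    rw [SimpleGraph.boxProd_adj]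
    exact Or.inr ⟨h1, rfl⟩
  · refine ⟨(⟨t, ht⟩, x.2), ?_, Fin.ext h2⟩
    rw [SimpleGraph.boxProd_adj]
    exact Or.inl ⟨h1, rfl⟩

theorem nodom (m : ℕ) (hm : 20 ≤ 2 * m + 1) (c : Fin 29 → Fin m)
    (hc : ∀ v : Fin 29, ∀ i : Fin m, ∃ u : Fin 29, (u = v ∨ G.Adj v u) ∧ c u = i) : False := by
  have h3 : ∀ i : Fin m, 3 ≤ (Finset.univ.filter fun u => c u = i).card := by
    intro i
    by_contra hlt
    have hle : (Finset.univ.filter fun u => c u = i).card ≤ 2 := by omega
    obtain ⟨a, b, hab⟩ : ∃ a b : Fin 29, (Finset.univ.filter fun u => c u = i) ⊆ {a, b} := by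
      rcases Nat.lt_or_ge (Finset.univ.filter fun u => c u = i).card 2 with h | h
      · obtain ⟨a, ha⟩ := (Finset.card_le_one_iff_subset_singleton
          (s := Finset.univ.filter fun u => c u = i)).1 (by omega)
        exact ⟨a, a, by simpa using ha⟩
      · obtain ⟨a, b, -, h2⟩ := Finset.card_eq_two.1 (le_antisymm hle h)
        exact ⟨a, b, h2.le⟩
    obtain ⟨w, h1, h2, h3, h4⟩ := gam a b
    obtain ⟨u, hu, hcu⟩ := hc w i
    have hmem : u ∈ ({a, b} : Finset (Fin 29)) := hab (by simp [hcu])
    simp only [Finset.mem_insert, Finset.mem_singleton] at hmem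
    rcases hmem with rfl | rfl
    · rcases hu with hu | hu
      · exact h1 hu
      · have : adjB w.val u.val = true := hu
        simp [h3] at this
    · rcases hu with hu | hu
      · exact h2 hu
      · have : adjB w.val u.val = true := hu
        simp [h4] at this
  have hs : (Finset.univ : Finset (Fin 29)).card =
      ∑ i : Fin m, (Finset.univ.filter fun u => c u = i).card :=
    Finset.card_eq_sum_card_fiberwise (fun _ _ => Finset.mem_univ _)
  have h2 : ∑ _i : Fin m, 3 ≤ ∑ i : Fin m, (Finset.univ.filter fun u => c u = i).card :=
    Finset.sum_le_sum fun i _ => h3 i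
  simp only [Finset.sum_const, Finset.card_univ, Fintype.card_fin, smul_eq_mul] at hs h2
  omega

theorem result :
    ¬ (∀ (V W : Type) [Fintype V] [Fintype W] [Nonempty V] [Nonempty W]
      (G : SimpleGraph V) (H : SimpleGraph W),
      (∀ v : V, ∃ u : V, G.Adj v u) →
      (∀ w : W, ∃ u : W, H.Adj w u) →
      ∀ k : ℕ,
        (∃ f : V × W → Fin k, ∀ x : V × W, ∀ i : Fin k,
            ∃ y : V × W, (SimpleGraph.boxProd G H).Adj x y ∧ f y = i) →
        ∃ m : ℕ, k ≤ 2 * m + 1 ∧
          ((∃ c : V → Fin m, ∀ v : V, ∀ i : Fin m,
              ∃ u : V, (u = v ∨ G.Adj v u) ∧ c u = i) ∨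
           (∃ c : W → Fin m, ∀ w : W, ∀ i : Fin m,
              ∃ u : W, (u = w ∨ H.Adj w u) ∧ c u = i))) := by
  intro h
  obtain ⟨m, hm, hc⟩ := h (Fin 29) (Fin 29) G G noiso noiso 20 ⟨f, tot⟩
  rcases hc with ⟨c, hc⟩ | ⟨c, hc⟩
  · exact nodom m hm c hc
  · exact nodom m hm c hc

end Pool.Agent.S10198
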