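import Pool.Statements.S10219
import Pool.Agent.H.MP_94f1c2_co.A

set_option autoImplicit false
open Pool Pool.MP_94f1c2_co

namespace Pool.Agent.S10219

/-- Every finite graph with no isolated vertices and no two vertices sharing an open or a closed neighbourhood has a vertex set D meeting every neighbourhood and separating all vertices outside D by their neighbours in D, with size at most 2n/3. -/
theorem result :
    ∀ (V : Type) [Fintype V] (G : SimpleGraph V),
      (∀ v : V, ∃ u : V, G.Adj v u) →
      (∀ u v : V, u ≠ v → G.neighborSet u ≠ G.neighborSet v) →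
      (∀ u v : V, u ≠ v →
        (insert u (G.neighborSet u) : Set V) ≠ insert v (G.neighborSet v)) →
      ∃ D : Finset V,
        (∀ v : V, ∃ u ∈ D, G.Adj v u) ∧
        (∀ u v : V, u ∉ D → v ∉ D → u ≠ v →
          {w : V | w ∈ D ∧ G.Adj u w} ≠ {w : V | w ∈ D ∧ G.Adj v w}) ∧
        3 * D.card ≤ 2 * Fintype.card V := by
  intro V _ G hiso h1 h2
  obtain ⟨D, hD⟩ := Pool.Agent.H.MP_94f1c2_co.exists_opt hiso
  have hb := hD.bound (by
    intro u v huv
    by_contra hn
    have e : ∀ w, w ≠ u → w ≠ v → (G.Adj w u ↔ G.Adj w v) := fun w a b => by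
      by_contra c
      exact hn ⟨w, a, b, c⟩
    by_cases a : G.Adj u v
    · refine h2 u v huv (Set.ext fun w => ?_)
      simp only [Set.mem_insert_iff, SimpleGraph.mem_neighborSet]
      by_cases c : w = u
      · subst c
        exact ⟨fun _ => Or.inr a.symm, fun _ => Or.inl rfl⟩
      · by_cases d : w = v
        · subst d
          exact ⟨fun _ => Or.inl rfl, fun _ => Or.inr a⟩
        · simp only [c, d, false_or]
          rw [G.adj_comm u w, G.adj_comm v w]
          exact e w c d
    · refine h1 u v huv (Set.ext fun w => ?_)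
      simp only [SimpleGraph.mem_neighborSet]
      by_cases c : w = u
      · subst c
        exact ⟨fun b => absurd rfl b.ne, fun b => absurd b.symm a⟩
      · by_cases d : w = v
        · subst d
          exact ⟨fun b => absurd b a, fun b => absurd rfl b.ne⟩
        · rw [G.adj_comm u w, G.adj_comm v w]
          exact e w c d)
  refine ⟨(Set.toFinite D).toFinset, fun v => ?_, fun u v hu hv huv e => huv ?_, ?_⟩
  · obtain ⟨z, hz, a⟩ := hD.ltd.1 v
    exact ⟨z, (Set.Finite.mem_toFinset _).2 hz, a.symm⟩
  · rw [Set.Finite.mem_toFinset] at hu hv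
    refine hD.ltd.2 u hu v hv fun z hz => ?_
    have hz' := (Set.Finite.mem_toFinset (Set.toFinite D)).2 hz
    have := Set.ext_iff.1 e z
    exact ⟨fun a => (this.1 ⟨hz', a.symm⟩).2.symm, fun a => (this.2 ⟨hz', a.symm⟩).2.symm⟩
  · rw [← Set.ncard_eq_toFinset_card]
    have := Set.ncard_add_ncard_compl D
    rw [Nat.card_eq_fintype_card] at this
    omega

end Pool.Agent.S10219
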