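import Pool.Statements.S10226
import Pool.Agent.H.MP_951455_co.A

set_option autoImplicit false
open Pool Pool.MP_951455_co

namespace Pool.Agent.S10226

theorem result :
    ¬ (∃ c : ℕ, 1 ≤ c ∧
  ∀ n k b : ℕ, 1 ≤ n → 1 ≤ k → 1 ≤ b → n ≤ k * b →
  ∀ G : SimpleGraph (Fin n),
    (∃ p : Fin n → ℝ × ℝ, Function.Injective p ∧
      ∃ γ : Fin n → Fin n → unitInterval → ℝ × ℝ,
        (∀ u v, G.Adj u v → Continuous (γ u v) ∧ Function.Injective (γ u v) ∧
            γ u v 0 = p u ∧ γ u v 1 = p v) ∧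
        (∀ u v w x, G.Adj u v → γ u v x = p w → (w = u ∧ x = 0) ∨ (w = v ∧ x = 1)) ∧
        (∀ u v u' v' x y, G.Adj u v → G.Adj u' v' → Sym2.mk (u, v) ≠ Sym2.mk (u', v') →
            γ u v x = γ u' v' y → ∃ w, γ u v x = p w)) →
    (∃ m : ℕ, ∃ T : SimpleGraph (Fin m), T.IsTree ∧
      ∃ B : Fin m → Finset (Fin n),
        (∀ v, ∃ i, v ∈ B i) ∧
        (∀ u v, G.Adj u v → ∃ i, u ∈ B i ∧ v ∈ B i) ∧
        (∀ v, (T.induce {i | v ∈ B i}).Connected) ∧
        (∀ i, (B i).card ≤ k + 1)) →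
    (∃ f : Fin n → ℕ,
      (∀ u v, G.Adj u v → f u ≤ f v + 1 ∧ f v ≤ f u + 1) ∧
      (∀ i : ℕ, (Finset.univ.filter (fun v => f v = i)).card ≤ b)) →
    ∃ m : ℕ, m ≤ b ∧ ∃ H : SimpleGraph (Fin m),
      (∃ p : Fin m → ℝ × ℝ, Function.Injective p ∧
        ∃ γ : Fin m → Fin m → unitInterval → ℝ × ℝ,
          (∀ u v, H.Adj u v → Continuous (γ u v) ∧ Function.Injective (γ u v) ∧
              γ u v 0 = p u ∧ γ u v 1 = p v) ∧
          (∀ u v w x, H.Adj u v → γ u v x = p w → (w = u ∧ x = 0) ∨ (w = v ∧ x = 1)) ∧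
          (∀ u v u' v' x y, H.Adj u v → H.Adj u' v' → Sym2.mk (u, v) ≠ Sym2.mk (u', v') →
              γ u v x = γ u' v' y → ∃ w, γ u v x = p w)) ∧
      (∃ r : ℕ, ∃ T : SimpleGraph (Fin r), T.IsTree ∧
        ∃ B : Fin r → Finset (Fin m),
          (∀ v, ∃ i, v ∈ B i) ∧
          (∀ u v, H.Adj u v → ∃ i, u ∈ B i ∧ v ∈ B i) ∧
          (∀ v, (T.induce {i | v ∈ B i}).Connected) ∧
          (∀ i, (B i).card ≤ 3 + 1)) ∧
      ∃ φ : Fin n → Fin m × Fin k × Fin c, Function.Injective φ ∧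
        ∀ u v, G.Adj u v →
          ((φ u).1 = (φ v).1 ∨ H.Adj (φ u).1 (φ v).1) ∧
          ((φ u).2.1 = (φ v).2.1 ∨ (SimpleGraph.pathGraph k).Adj (φ u).2.1 (φ v).2.1)) := by
  open Pool.Agent.H.MP_951455_co Pool.Agent.Lib.helper5.PTree in
  classical
  rintro ⟨c, hc, hall⟩
  obtain ⟨J, hJ⟩ : ∃ J, J = 36 * (3 * c) ^ 2 + 1 := ⟨_, rfl⟩
  have : Finite {x // val (3 * c) J x} := (fin_val _ _).to_subtype
  have := Fintype.ofFinite {x // val (3 * c) J x}
  let e := (Fintype.equivFin {x // val (3 * c) J x}).symm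
  let root : {x // val (3 * c) J x} := ⟨(0, 0, 0), by simp only; omega, by simp, by simp; omega⟩
  let pr := fun v => e.symm ⟨par (e v).1, par_val (by omega) (e v).2⟩
  have hpr : ∀ v, (e (pr v)).1 = par (e v).1 := fun v => by simp [pr]
  have hrk : ∀ v, v ≠ e.symm root → (e (pr v)).1.1 + (e (pr v)).1.2.1 + (e (pr v)).1.2.2 <
      (e v).1.1 + (e v).1.2.1 + (e v).1.2.2 := fun v h => by
    rw [hpr]; exact par_rk fun h' => h ((Equiv.eq_symm_apply e).2 (Subtype.ext h'))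
  have ep : ∀ u v, E0 (e u).1 (e v).1 → v = pr u := fun u v h =>
    e.injective (Subtype.ext (by rw [hpr]; exact E0_par h))
  obtain ⟨r, hr⟩ := realize fun v => (toLex ((e v).1.1, toLex (e v).1.2) : ℕ ×ₗ ℕ ×ₗ ℕ)
  have ri : Function.Injective r := fun u v h => by
    have a := (hr u v).not.1 h.not_lt
    have b := (hr v u).not.1 h.not_gt
    have := le_antisymm (not_lt.1 b) (not_lt.1 a)
    simp only [toLex_inj, Prod.mk.injEq] at this
    exact e.injective (Subtype.ext (Prod.ext this.1 this.2))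
  obtain ⟨p, hp, γ, g1, g2, g3⟩ := dbook (SimpleGraph.fromRel fun u v => E0 (e u).1 (e v).1) r ri
    fun a b c d h h' => by simp only [hr]; exact nocross h.2 h'.2
  obtain ⟨m, hm, H, -, ⟨_, T, hT, B, -, b2, b3, b4⟩, φ, φ1, φ2⟩ := hall _ J
    (2 * (3 * c) ^ 2 * 2 ^ J) (Fintype.card_pos_iff.2 ⟨root⟩) (by omega)
    (Nat.succ_le_of_lt (by positivity))
    (by
      have := Finset.card_le_mul_card_image_of_maps_to (s := Finset.univ) (t := Finset.range J)
        (f := fun x : {x // val (3 * c) J x} => x.1.1) (fun x _ => Finset.mem_range.2 x.2.1) _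
        fun j _ => fiber (3 * c) J j (by omega)
      simpa [mul_comm] using this)
    (SimpleGraph.fromRel fun u v => E0 (e u).1 (e v).1)
    ⟨p, hp, γ, g1, g2, fun u v u' v' x y h h' hne => g3 u v u' v' x y h h' fun q => hne (by rw [q])⟩
    ⟨_, PT (e.symm root) pr, isTree (fun v => (e v).1.1 + (e v).1.2.1 + (e v).1.2.2) hrk, fun v => {v, pr v}, fun v => ⟨v, by simp⟩,
      fun u v h => h.2.elim (fun h => ⟨u, by simp, by simp [ep u v h]⟩)
        fun h => ⟨v, by simp [ep v u h], by simp⟩,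
      fun v => sub_conn (fun v => (e v).1.1 + (e v).1.2.1 + (e v).1.2.2) hrk _ v (by simp) fun s hs hne => by
        have : v = pr s := by simpa [hne.symm] using hs
        refine ⟨?_, by simp [this]⟩
        rintro rfl
        exact hne (by rw [this]; simp [pr, root, par]),
      fun v => Finset.card_le_two.trans (by omega)⟩
    ⟨fun v => (e v).1.1, fun u v h => by
      have : (e u).1.1 = (e v).1.1 := h.2.elim (fun h => h.1) fun h => h.1.symm
      beta_reduce; omega, fun i => by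
      refine le_trans (Finset.card_le_card_of_injOn e (fun v hv => ?_) e.injective.injOn)
        (fiber (3 * c) J i (by omega))
      simpa using hv⟩
  obtain ⟨ρ, Bk, E⟩ := Pool.Agent.H.MP_de06d2_co.elim H 4 T hT B b4 b2 b3
  obtain ⟨N, n1, n2⟩ := degsum E
  refine noemb hc hJ (by simpa using hm) N n2 (φ ∘ e.symm) (φ1.comp e.symm.injective) ?_
  rintro x y (h | rfl)
  · by_cases q : x = y
    · subst q; exact ⟨n1 _ _ (.inl rfl), .inl rfl⟩
    have := φ2 (e.symm y) (e.symm x) ⟨fun h => q (e.symm.injective h).symm, .inr (by simpa using h)⟩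
    exact ⟨n1 _ _ this.1, this.2⟩
  · exact ⟨n1 _ _ (.inl rfl), .inl rfl⟩

end Pool.Agent.S10226
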