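import Pool.Statements.S10267
import Pool.Agent.H.MP_96d021_co.A

set_option autoImplicit false
open Pool Pool.MP_96d021_co

namespace Pool.Agent.S10267
open Pool.Agent.H.MP_96d021_co

/-- There is a positive f such that every finite multi-hypergraph of rank at most r (r ≥ 1) whose derived graphs are all d-colourable has a strong colouring with at most f(d)·r colours. -/
theorem result :
    ∃ f : ℕ → ℝ, (∀ n, 0 < f n) ∧
      ∀ (V ι : Type) [Fintype V] [Fintype ι] (e : ι → Finset V) (d r : ℕ),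
        1 ≤ r → (∀ i, (e i).card ≤ r) →
        (∀ p : ι → V × V,
            (∀ i, 2 ≤ (e i).card →
              (p i).1 ∈ e i ∧ (p i).2 ∈ e i ∧ (p i).1 ≠ (p i).2) →
            (SimpleGraph.fromRel
              (fun u v : V => ∃ i, 2 ≤ (e i).card ∧ p i = (u, v))).Colorable d) →
        ∃ k : ℕ, (k : ℝ) ≤ f d * (r : ℝ) ∧
          ∃ c : V → Fin k, ∀ i, Set.InjOn c ((e i : Finset V) : Set V) := by
  classical
  refine ⟨fun d => ((16 * d ^ 2 * ((2 + 4 * d) * ((d + 1) ^ 2 * d)) + 1) * d ^ (2 * d * (2 * d)) + 1 : ℕ),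
    fun n => Nat.cast_pos.mpr (Nat.succ_pos _), fun V ι _ _ e d r r1 hr h => ?_⟩
  rcases isEmpty_or_nonempty V with c | ⟨⟨v0⟩⟩
  · exact ⟨0, by beta_reduce; rw [Nat.cast_zero]; positivity, isEmptyElim, fun i u => isEmptyElim u⟩
  have D : Der e d := fun p => by
    have : ∀ i, ∃ o : V × V, (2 ≤ (e i).card → o.1 ∈ e i ∧ o.2 ∈ e i ∧ o.1 ≠ o.2) ∧
        ((p i).1 ∈ e i → (p i).2 ∈ e i → (p i).1 ≠ (p i).2 → o = p i) := fun i => by
      by_cases c : (p i).1 ∈ e i ∧ (p i).2 ∈ e i ∧ (p i).1 ≠ (p i).2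
      · exact ⟨p i, fun _ => c, fun _ _ _ => rfl⟩
      by_cases c' : 2 ≤ (e i).card
      · obtain ⟨a, ha, b, hb, n⟩ := Finset.one_lt_card.mp c'
        exact ⟨(a, b), fun _ => ⟨ha, hb, n⟩, fun x y z => absurd ⟨x, y, z⟩ c⟩
      · exact ⟨p i, fun x => absurd x c', fun _ _ _ => rfl⟩
    choose o h1 h2 using this
    obtain ⟨c⟩ := h o h1
    exact ⟨c, fun i x y z => c.valid ((SimpleGraph.fromRel_adj _ _ _).mpr
      ⟨z, .inl ⟨i, Finset.one_lt_card.mpr ⟨_, x, _, y, z⟩, h2 i x y z⟩⟩)⟩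
  obtain ⟨c, hc⟩ := main D v0 hr
  refine ⟨_, ?_, Fintype.equivFin _ ∘ c, fun i => (Equiv.injective _).comp_injOn (hc i)⟩
  simp only [Fintype.card_prod, Fintype.card_fin, Fintype.card_fun]
  generalize 16 * d ^ 2 * ((2 + 4 * d) * ((d + 1) ^ 2 * d)) = K
  generalize d ^ (2 * d * (2 * d)) = L
  exact_mod_cast show (K * r + 1) * L ≤ ((K + 1) * L + 1) * r by nlinarith [Nat.mul_le_mul_left L r1]

end Pool.Agent.S10267
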