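import Pool.Statements.S10285
import Pool.Agent.H.MP_977251_co.Comb

set_option autoImplicit false
open Pool Pool.MP_977251_co

namespace Pool.Agent.S10285

theorem result :
    ∀ n : ℕ, 2 ≤ n → ∀ s : ℤˣ, ∀ z : ℂ,
      Polynomial.aeval z
        (∑ π ∈ (Finset.univ : Finset (Equiv.Perm (Fin n))).filter
              (fun π => Equiv.Perm.sign π = s),
          (Polynomial.X : Polynomial ℝ) ^
            ((Finset.univ : Finset (Fin n × Fin n)).filter
              (fun p => p.2.val = p.1.val + 1 ∧ π p.2 < π p.1)).card) = 0 →
      z.im = 0 := by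
  intro n hn s z h
  have key : ∀ w : ℂ, 0 < w.im → Polynomial.aeval w
        (∑ π ∈ (Finset.univ : Finset (Equiv.Perm (Fin n))).filter
              (fun π => Equiv.Perm.sign π = s),
          (Polynomial.X : Polynomial ℝ) ^
            ((Finset.univ : Finset (Fin n × Fin n)).filter
              (fun p => p.2.val = p.1.val + 1 ∧ π p.2 < π p.1)).card) ≠ 0 := by
    intro w hw
    rw [map_sum]
    simp only [map_pow, Polynomial.aeval_X]
    exact Pool.Agent.H.MP_977251_co.upper n hn s w hw
  rcases lt_trichotomy z.im 0 with h1 | h1 | h1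
  · exfalso
    apply key ((starRingEnd ℂ) z) (by simpa using h1)
    rw [Polynomial.aeval_conj, h, map_zero]
  · exact h1
  · exact absurd h (key z h1)

end Pool.Agent.S10285
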