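import Pool.Statements.S10300
import Pool.Agent.H.MP_97f6bf_co.D

set_option autoImplicit false
open Pool Pool.MP_97f6bf_co

namespace Pool.Agent.S10300

/-- The negation of the preceding statement: For finite matroids N1, N2 and k ≥ 1 there is n such that every finite matroid with N1- and N2-minors, no proper minor having both, and no U(k,2k)-minor, has a subcubic tree decomposition of width at most n. -/
theorem result :
    ¬ (∀ (β₁ β₂ : Type) (N₁ : Matroid β₁) (N₂ : Matroid β₂), N₁.Finite → N₂.Finite →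
    ∀ k : ℕ, 0 < k → ∃ n : ℕ, ∀ (α : Type) (M : Matroid α), M.Finite →
      (∃ N : Matroid α, N.IsMinor M ∧ ∃ e : ↥N.E ≃ ↥N₁.E, ∀ I : Set ↥N.E,
          N.Indep (Subtype.val '' I) ↔ N₁.Indep (Subtype.val '' (e '' I))) →
      (∃ N : Matroid α, N.IsMinor M ∧ ∃ e : ↥N.E ≃ ↥N₂.E, ∀ I : Set ↥N.E,
          N.Indep (Subtype.val '' I) ↔ N₂.Indep (Subtype.val '' (e '' I))) →
      (∀ M' : Matroid α, M'.IsMinor M → M' ≠ M →
        ¬ ((∃ N : Matroid α, N.IsMinor M' ∧ ∃ e : ↥N.E ≃ ↥N₁.E, ∀ I : Set ↥N.E,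
              N.Indep (Subtype.val '' I) ↔ N₁.Indep (Subtype.val '' (e '' I))) ∧
           (∃ N : Matroid α, N.IsMinor M' ∧ ∃ e : ↥N.E ≃ ↥N₂.E, ∀ I : Set ↥N.E,
              N.Indep (Subtype.val '' I) ↔ N₂.Indep (Subtype.val '' (e '' I))))) →
      ¬ (∃ N : Matroid α, N.IsMinor M ∧ N.E.ncard = 2 * k ∧
          ∀ I ⊆ N.E, N.Indep I ↔ I.ncard ≤ k) →
      ∃ (V : Type) (_ : Finite V) (T : SimpleGraph V),
        T.IsAcyclic ∧ T.Preconnected ∧ (∀ v, (T.neighborSet v).ncard ≤ 3) ∧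
        ∃ f : ↥M.E ≃ {v : V // (T.neighborSet v).ncard ≤ 1},
          ∀ u v : V, T.Adj u v →
            M.eRk {x | ∃ h : x ∈ M.E, (T.deleteEdges {s(u, v)}).Reachable u (f ⟨x, h⟩).1}
              + M.eRk (M.E \ {x | ∃ h : x ∈ M.E,
                  (T.deleteEdges {s(u, v)}).Reachable u (f ⟨x, h⟩).1})
              ≤ M.eRank + (n : ℕ∞)) := by
  intro h
  obtain ⟨N1, N2, k⟩ := H.MP_97f6bf_co.main
  obtain ⟨m, h⟩ := h _ _ N1 N2 ⟨Set.toFinite _⟩ ⟨Set.toFinite _⟩ 1300 (by omega)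
  obtain ⟨α, M, a, b, c, d, e, g⟩ := k m
  obtain ⟨V, i, T, p, q, r, f, s⟩ := h α M a b c d e
  obtain ⟨u, v, uv, w⟩ := g V i T p q r (fun x => (f x).1)
    (Subtype.val_injective.comp f.injective)
  exact w (s u v uv)

end Pool.Agent.S10300
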