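import Pool.Statements.S10310
import Pool.Agent.H.MP_987dc0_co.A

set_option autoImplicit false
open Pool Pool.MP_987dc0_co

namespace Pool.Agent.S10310

theorem result :
    ¬ (∀ (r : ℕ), 0 < r →
      ∀ (P : Type) [PartialOrder P] [OrderBot P] [LocallyFiniteOrder P] (ρ : P → ℕ),
        ρ ⊥ = 0 →
        (∀ x y : P, x ⋖ y → ρ y = ρ x + 1) →
        (∀ n : ℕ, {x : P | ρ x = n}.Finite) →
        (∀ x : P, {z : P | x ⋖ z}.Finite ∧
            {z : P | x ⋖ z}.ncard = {z : P | z ⋖ x}.ncard + r) →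
        (∀ x y : P, x ≠ y →
            {z : P | z ⋖ x ∧ z ⋖ y}.ncard = {z : P | x ⋖ z ∧ y ⋖ z}.ncard) →
        ∀ n : ℕ,
          (∑ f ∈ Finset.Nat.antidiagonalTuple r n, ∏ i, Fintype.card (Nat.Partition (f i)))
            ≤ {x : P | ρ x = n}.ncard) := by
  intro h
  have h1 := h 3 (by norm_num) H.MP_987dc0_co.P (fun x => x.n) rfl
    (fun x y hxy => ((H.MP_987dc0_co.cov_iff x y).1 hxy).1) H.MP_987dc0_co.level_finite
    H.MP_987dc0_co.up_down H.MP_987dc0_co.pair_eq 4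
  have h2 := H.MP_987dc0_co.count51
  have h3 := H.MP_987dc0_co.level4
  omega

end Pool.Agent.S10310
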