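import Pool.Statements.S10323
import Pool.Agent.H.MP_993692_co.B

set_option autoImplicit false
open Pool Pool.MP_993692_co

namespace Pool.Agent.S10323

theorem result :
    ∀ k ℓ : ℕ, ∃ D : ℕ, ∀ (V : Type) [Fintype V] (G : SimpleGraph V),
      (∃ (ι : Type) (_ : Fintype ι) (T : SimpleGraph ι) (B : ι → Finset V),
        T.IsTree ∧ (∀ i, (B i).card ≤ k + 1) ∧ (∀ v, ∃ i, v ∈ B i) ∧
        (∀ u v, G.Adj u v → ∃ i, u ∈ B i ∧ v ∈ B i) ∧
        (∀ v i j, v ∈ B i → v ∈ B j → ∃ q : T.Walk i j, ∀ x ∈ q.support, v ∈ B x)) →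
      (∀ v, (G.neighborSet v).ncard ≤ ℓ) →
      ∃ p : V → EuclideanSpace ℝ (Fin 2), Function.Injective p ∧
        (∀ u v w, G.Adj u v → w ≠ u → w ≠ v → p w ∉ segment ℝ (p u) (p v)) ∧
        {d : ℝ | ∃ u v, G.Adj u v ∧ dist (p u) (p v) = d}.ncard ≤ D := by
  classical
  intro k d
  obtain ⟨N, hN⟩ := Pool.Agent.H.MP_993692_co.words (k + 1) d
  refine ⟨N * (N * N) + N * N, fun V _ G ⟨ι, _, T, B, hT, h1, h2, h3, h4⟩ hd => ?_⟩
  obtain ⟨ρ, Bk, E⟩ := Pool.Agent.H.MP_de06d2_co.elim G (k + 1) T hT B h1 h3 fun v => by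
    obtain ⟨i, hi⟩ := h2 v
    refine @SimpleGraph.Connected.mk _ _ (fun a b => ?_) ⟨⟨i, hi⟩⟩
    obtain ⟨q, hq⟩ := h4 v a.1 b.1 a.2 b.2
    exact ⟨q.induce {i | v ∈ B i} hq⟩
  obtain ⟨ω, lab, w1, w2, w3, w4, w5⟩ := hN V G ρ Bk E hd
  obtain ⟨a, θ, a1, a2, a3⟩ := Pool.Agent.H.MP_993692_co.draw G ω lab w1 w2
  let e := Complex.orthonormalBasisOneI.repr
  refine ⟨fun v => e (Pool.Agent.H.MP_993692_co.pos a θ (ω v) (lab v)), e.injective.comp a2,
    fun u v w h h5 h6 ⟨s, t, _, _, hst, hw⟩ => a3 u v w h h5 h6 ?_, ?_⟩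
  · rw [← map_smul, ← map_smul, ← map_add] at hw
    rw [← e.injective hw, show s = 1 - t by linarith]
    generalize Pool.Agent.H.MP_993692_co.pos a θ (ω u) (lab u) = x
    generalize Pool.Agent.H.MP_993692_co.pos a θ (ω v) (lab v) = y
    simp; ring
  · let S1 : Finset ℝ := (Finset.range N ×ˢ Finset.range N ×ˢ Finset.range N).image
      fun q => ‖θ (.inl q.1) + a * θ (.inr q.2.1) - θ (.inr q.2.2)‖
    let S0 : Finset ℝ := (Finset.range N ×ˢ Finset.range N).image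
      fun q => ‖θ (.inr q.1) - θ (.inr q.2)‖
    have c1 : S1.card ≤ N * (N * N) := Finset.card_image_le.trans (by simp)
    have c0 : S0.card ≤ N * N := Finset.card_image_le.trans (by simp)
    refine le_trans ?_ ((Finset.card_union_le S1 S0).trans (Nat.add_le_add c1 c0))
    rw [← Set.ncard_coe_finset]
    refine Set.ncard_le_ncard ?_ (Finset.finite_toSet _)
    rintro _ ⟨u, v, h, rfl⟩
    simp only [e.dist_map, Finset.coe_union, Set.mem_union, Finset.mem_coe, S1, S0,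
      Finset.mem_image, Finset.mem_product, Finset.mem_range]
    rcases w5 u v h with h' | ⟨c, h' | h'⟩
    · refine .inr ⟨(lab u, lab v), ⟨w3 u, w3 v⟩, ?_⟩
      rw [dist_eq_norm, h', Pool.Agent.H.MP_993692_co.pos_same]; simp [a1]
    · refine .inl ⟨(c, lab v, lab u), ⟨w4 v c (by simp [h']), w3 v, w3 u⟩, ?_⟩
      rw [dist_comm, dist_eq_norm, h', Pool.Agent.H.MP_993692_co.pos_app]; simp [a1]
    · refine .inl ⟨(c, lab u, lab v), ⟨w4 u c (by simp [h']), w3 u, w3 v⟩, ?_⟩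
      rw [dist_eq_norm, h', Pool.Agent.H.MP_993692_co.pos_app]; simp [a1]

end Pool.Agent.S10323
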