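import Pool.Statements.S10340
-- import your own Pool.Agent.* helpers here

set_option autoImplicit false
open Pool Pool.MP_9a0e7c_co

namespace Pool.Agent.S10340

open scoped InnerProductSpace in
lemma gram (F0 F1 F2 A B C D E H : EuclideanSpace ℝ (Fin 5))
    (h00 : ⟪F0, F0⟫_ℝ = 25 / 25) 
    (h01 : ⟪F0, F1⟫_ℝ = 0 / 25) 
    (h02 : ⟪F0, F2⟫_ℝ = 0 / 25) 
    (h05 : ⟪F0, C⟫_ℝ = -20 / 25) 
    (h06 : ⟪F0, D⟫_ℝ = 0 / 25) 
    (h07 : ⟪F0, E⟫_ℝ = -20 / 25) 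
    (h08 : ⟪F0, H⟫_ℝ = 0 / 25) 
    (h11 : ⟪F1, F1⟫_ℝ = 25 / 25) 
    (h12 : ⟪F1, F2⟫_ℝ = 0 / 25) 
    (h13 : ⟪F1, A⟫_ℝ = 20 / 25) 
    (h14 : ⟪F1, B⟫_ℝ = 0 / 25) 
    (h17 : ⟪F1, E⟫_ℝ = 0 / 25) 
    (h18 : ⟪F1, H⟫_ℝ = 20 / 25) 
    (h22 : ⟪F2, F2⟫_ℝ = 25 / 25) 
    (h23 : ⟪F2, A⟫_ℝ = 0 / 25) 
    (h24 : ⟪F2, B⟫_ℝ = 20 / 25) 
    (h25 : ⟪F2, C⟫_ℝ = 0 / 25) 
    (h26 : ⟪F2, D⟫_ℝ = 20 / 25) 
    (h33 : ⟪A, A⟫_ℝ = 25 / 25) 
    (h34 : ⟪A, B⟫_ℝ = 9 / 25) 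
    (h35 : ⟪A, C⟫_ℝ = 0 / 25) 
    (h38 : ⟪A, H⟫_ℝ = 16 / 25) 
    (h44 : ⟪B, B⟫_ℝ = 25 / 25) 
    (h46 : ⟪B, D⟫_ℝ = 16 / 25) 
    (h47 : ⟪B, E⟫_ℝ = 0 / 25) 
    (h55 : ⟪C, C⟫_ℝ = 25 / 25) 
    (h56 : ⟪C, D⟫_ℝ = 9 / 25) 
    (h57 : ⟪C, E⟫_ℝ = 16 / 25) 
    (h66 : ⟪D, D⟫_ℝ = 25 / 25) 
    (h77 : ⟪E, E⟫_ℝ = 25 / 25) 
    (h78 : ⟪E, H⟫_ℝ = 9 / 25) 
    (h88 : ⟪H, H⟫_ℝ = 25 / 25)
    (hz : ⟪F0, A⟫_ℝ = 0) : False := by
  have zero : ∀ u : EuclideanSpace ℝ (Fin 5), ⟪u, u⟫_ℝ = 0 → u = 0 := fun u h => inner_self_eq_zero.1 h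
  have e1 : (5 : ℝ) • B - (4 : ℝ) • F2 - ((5 : ℝ) • A - (4 : ℝ) • F1) = 0 := by
    apply zero
    simp only [inner_sub_left, inner_sub_right, inner_add_left, inner_add_right,
      real_inner_smul_left, real_inner_smul_right]
    linarith [real_inner_comm A B, real_inner_comm F2 B, real_inner_comm F1 B,
      real_inner_comm F2 A, real_inner_comm F1 A, real_inner_comm F1 F2]
  have e2 : (5 : ℝ) • D - (4 : ℝ) • F2 - ((5 : ℝ) • C + (4 : ℝ) • F0) = 0 := by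
    apply zero
    simp only [inner_sub_left, inner_sub_right, inner_add_left, inner_add_right,
      real_inner_smul_left, real_inner_smul_right]
    linarith [real_inner_comm C D, real_inner_comm F2 D, real_inner_comm F0 D,
      real_inner_comm F2 C, real_inner_comm F0 C, real_inner_comm F0 F2]
  have e3 : (5 : ℝ) • H - (4 : ℝ) • F1 - ((5 : ℝ) • E + (4 : ℝ) • F0) = 0 := by
    apply zero
    simp only [inner_sub_left, inner_sub_right, inner_add_left, inner_add_right,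
      real_inner_smul_left, real_inner_smul_right]
    linarith [real_inner_comm E H, real_inner_comm F1 H, real_inner_comm F0 H,
      real_inner_comm F1 E, real_inner_comm F0 E, real_inner_comm F0 F1]
  have f1 : ∀ w, 5 * ⟪w, B⟫_ℝ - 4 * ⟪w, F2⟫_ℝ - (5 * ⟪w, A⟫_ℝ - 4 * ⟪w, F1⟫_ℝ) = 0 := fun w => by
    simpa only [inner_sub_right, inner_add_right, real_inner_smul_right, inner_zero_right] using
      congrArg (fun u => ⟪w, u⟫_ℝ) e1
  have f2 : ∀ w, 5 * ⟪w, D⟫_ℝ - 4 * ⟪w, F2⟫_ℝ - (5 * ⟪w, C⟫_ℝ + 4 * ⟪w, F0⟫_ℝ) = 0 := fun w => by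
    simpa only [inner_sub_right, inner_add_right, real_inner_smul_right, inner_zero_right] using
      congrArg (fun u => ⟪w, u⟫_ℝ) e2
  have f3 : ∀ w, 5 * ⟪w, H⟫_ℝ - 4 * ⟪w, F1⟫_ℝ - (5 * ⟪w, E⟫_ℝ + 4 * ⟪w, F0⟫_ℝ) = 0 := fun w => by
    simpa only [inner_sub_right, inner_add_right, real_inner_smul_right, inner_zero_right] using
      congrArg (fun u => ⟪w, u⟫_ℝ) e3
  have k1 : ⟪F1, C⟫_ℝ = 0 := by
    linarith [f1 C, f1 D, f1 F0, f1 F2, f2 A, f2 B, f2 F1, f2 F0, f2 F2, f1 F1,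
      real_inner_comm A C, real_inner_comm B C, real_inner_comm A D, real_inner_comm B D,
      real_inner_comm F1 C, real_inner_comm F2 C, real_inner_comm F1 D, real_inner_comm F2 D,
      real_inner_comm F0 F1, real_inner_comm F0 F2, real_inner_comm F1 F2, real_inner_comm F0 A,
      real_inner_comm F0 B, real_inner_comm F2 A, real_inner_comm F2 B]
  have k2 : ⟪F2, E⟫_ℝ = 0 := by
    linarith [f1 E, f1 H, f1 F0, f1 F2, f3 A, f3 B, f3 F1, f3 F0, f3 F2, f1 F1,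
      real_inner_comm A E, real_inner_comm B E, real_inner_comm A H, real_inner_comm B H,
      real_inner_comm F1 E, real_inner_comm F2 E, real_inner_comm F1 H, real_inner_comm F2 H,
      real_inner_comm F0 F1, real_inner_comm F0 F2, real_inner_comm F1 F2, real_inner_comm F0 A,
      real_inner_comm F0 B, real_inner_comm F1 A, real_inner_comm F1 B]
  have k3 : ⟪A, E⟫_ℝ = 0 := by
    linarith [f1 E, real_inner_comm A E, real_inner_comm B E, real_inner_comm F1 E,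
      real_inner_comm F2 E]
  have ho : Orthonormal ℝ ![F0, F1, F2, (5 / 3 : ℝ) • A - (4 / 3 : ℝ) • F1,
      (5 / 3 : ℝ) • C + (4 / 3 : ℝ) • F0, (5 / 3 : ℝ) • E + (4 / 3 : ℝ) • F0] := by
    rw [orthonormal_iff_ite]
    intro i j
    fin_cases i <;> fin_cases j <;>
    simp only [Fin.zero_eta, Fin.mk_one, Fin.reduceFinMk, Matrix.cons_val, Fin.isValue,
      Fin.reduceEq, if_true, if_false, inner_sub_left, inner_sub_right, inner_add_left,
      inner_add_right, real_inner_smul_left, real_inner_smul_right] <;>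
    linarith [real_inner_comm F0 F1, real_inner_comm F0 F2, real_inner_comm F1 F2,
      real_inner_comm F0 A, real_inner_comm F1 A, real_inner_comm F2 A, real_inner_comm F0 C,
      real_inner_comm F1 C, real_inner_comm F2 C, real_inner_comm F0 E, real_inner_comm F1 E,
      real_inner_comm F2 E, real_inner_comm A C, real_inner_comm A E, real_inner_comm C E]
  have := ho.linearIndependent.fintype_card_le_finrank
  simp at this

noncomputable def pp : Fin 9 → EuclideanSpace ℝ (Fin 3) := ![!₂[5 / 5, 0 / 5, 0 / 5], !₂[0 / 5, 5 / 5, 0 / 5], !₂[0 / 5, 0 / 5, 5 / 5], !₂[3 / 5, 4 / 5, 0 / 5], !₂[3 / 5, 0 / 5, 4 / 5], !₂[-4 / 5, 3 / 5, 0 / 5], !₂[0 / 5, 3 / 5, 4 / 5], !₂[-4 / 5, 0 / 5, 3 / 5], !₂[0 / 5, 4 / 5, 3 / 5]]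

noncomputable def qq : Fin 9 → EuclideanSpace ℝ (Fin 3) := ![!₂[5 / 5, 0 / 5, 0 / 5], !₂[0 / 5, 5 / 5, 0 / 5], !₂[0 / 5, 0 / 5, 5 / 5], !₂[-3 / 5, 4 / 5, 0 / 5], !₂[-3 / 5, 0 / 5, 4 / 5], !₂[-4 / 5, -3 / 5, 0 / 5], !₂[0 / 5, -3 / 5, 4 / 5], !₂[-4 / 5, 0 / 5, -3 / 5], !₂[0 / 5, 4 / 5, -3 / 5]]

noncomputable def io : EuclideanSpace ℝ (Fin 3) →ₗᵢ[ℝ] EuclideanSpace ℝ (Fin 5) where
  toFun := fun v => !₂[v 0, v 1, v 2, 0, 0]
  map_add' := fun v w => by ext i; fin_cases i <;> simp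
  map_smul' := fun c v => by ext i; fin_cases i <;> simp
  norm_map' := fun v => by simp [EuclideanSpace.norm_eq, Fin.sum_univ_succ]

theorem result :
    ¬ (∀ (N : ℕ) (p q : Fin N → EuclideanSpace ℝ (Fin 3)),
    (∀ i, ‖p i‖ = 1) → (∀ i, ‖q i‖ = 1) →
    ∀ ι : EuclideanSpace ℝ (Fin 3) →ₗᵢ[ℝ] EuclideanSpace ℝ (Fin 5),
    ∃ m : ℝ → Fin N → EuclideanSpace ℝ (Fin 5),
      m 0 = (fun i => ι (p i)) ∧ m 1 = (fun i => ι (q i)) ∧
      ContinuousOn m (Set.Icc 0 1) ∧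
      (∀ t ∈ Set.Icc (0:ℝ) 1, ∀ i, ‖m t i‖ = 1) ∧
      (∃ (K : ℕ) (s : ℕ → ℝ), s 0 = 0 ∧ s K = 1 ∧ (∀ k < K, s k < s (k+1)) ∧
         ∀ k < K, AnalyticOn ℝ m (Set.Icc (s k) (s (k+1)))) ∧
      ∀ i j, MonotoneOn (fun t => dist (m t i) (m t j)) (Set.Icc 0 1) ∨
             AntitoneOn (fun t => dist (m t i) (m t j)) (Set.Icc 0 1)) := by
  intro h
  obtain ⟨m, m0, m1, mc, mn, -, mm⟩ := h 9 pp qq
    (fun i => by fin_cases i <;> simp [pp, EuclideanSpace.norm_eq, Fin.sum_univ_three] <;> norm_num)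
    (fun i => by fin_cases i <;> simp [qq, EuclideanSpace.norm_eq, Fin.sum_univ_three] <;> norm_num) io
  have z0 : (0 : ℝ) ∈ Set.Icc (0 : ℝ) 1 := by simp
  have z1 : (1 : ℝ) ∈ Set.Icc (0 : ℝ) 1 := by simp
  have c : ContinuousOn (fun t => inner ℝ (m t 0) (m t 3)) (Set.Icc 0 1) :=
    ((continuous_apply 0).comp_continuousOn mc).inner ((continuous_apply 3).comp_continuousOn mc)
  obtain ⟨t, ht, hz⟩ := intermediate_value_Icc' zero_le_one c (show (0 : ℝ) ∈ _ from by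
    simp only [m0, m1, io.inner_map_map]
    simp [pp, qq, PiLp.inner_apply, Fin.sum_univ_three]
    norm_num)
  have g : ∀ i j, dist (pp i) (pp j) = dist (qq i) (qq j) → ∀ r, inner ℝ (pp i) (pp j) = r →
      inner ℝ (m t i) (m t j) = r := by
    intro i j hd r hr
    have d0 : dist (m 0 i) (m 0 j) = dist (m 1 i) (m 1 j) := by
      simp only [m0, m1, io.dist_map, hd]
    have d1 : dist (m t i) (m t j) = dist (m 0 i) (m 0 j) := by
      rcases mm i j with h | h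
      · exact le_antisymm (d0 ▸ h ht z1 ht.2) (h z0 ht ht.1)
      · exact le_antisymm (h z0 ht ht.1) (d0 ▸ h ht z1 ht.2)
    have a1 := norm_sub_sq_real (m t i) (m t j)
    have a2 := norm_sub_sq_real (m 0 i) (m 0 j)
    rw [← dist_eq_norm, mn t ht, mn t ht, d1] at a1
    rw [← dist_eq_norm, mn 0 z0, mn 0 z0] at a2
    have a3 : inner ℝ (m 0 i) (m 0 j) = r := by simp only [m0, io.inner_map_map, hr]
    linarith
  exact gram (m t 0) (m t 1) (m t 2) (m t 3) (m t 4) (m t 5) (m t 6) (m t 7) (m t 8)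
    (g 0 0 (by simp [pp, qq, EuclideanSpace.dist_eq, Real.dist_eq, Fin.sum_univ_three] <;> norm_num) _ (by rw [PiLp.inner_apply]; simp [pp, Fin.sum_univ_three] <;> norm_num)) 
    (g 0 1 (by simp [pp, qq, EuclideanSpace.dist_eq, Real.dist_eq, Fin.sum_univ_three] <;> norm_num) _ (by rw [PiLp.inner_apply]; simp [pp, Fin.sum_univ_three] <;> norm_num)) 
    (g 0 2 (by simp [pp, qq, EuclideanSpace.dist_eq, Real.dist_eq, Fin.sum_univ_three] <;> norm_num) _ (by rw [PiLp.inner_apply]; simp [pp, Fin.sum_univ_three] <;> norm_num)) 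
    (g 0 5 (by simp [pp, qq, EuclideanSpace.dist_eq, Real.dist_eq, Fin.sum_univ_three] <;> norm_num) _ (by rw [PiLp.inner_apply]; simp [pp, Fin.sum_univ_three] <;> norm_num)) 
    (g 0 6 (by simp [pp, qq, EuclideanSpace.dist_eq, Real.dist_eq, Fin.sum_univ_three] <;> norm_num) _ (by rw [PiLp.inner_apply]; simp [pp, Fin.sum_univ_three] <;> norm_num)) 
    (g 0 7 (by simp [pp, qq, EuclideanSpace.dist_eq, Real.dist_eq, Fin.sum_univ_three] <;> norm_num) _ (by rw [PiLp.inner_apply]; simp [pp, Fin.sum_univ_three] <;> norm_num)) 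
    (g 0 8 (by simp [pp, qq, EuclideanSpace.dist_eq, Real.dist_eq, Fin.sum_univ_three] <;> norm_num) _ (by rw [PiLp.inner_apply]; simp [pp, Fin.sum_univ_three] <;> norm_num)) 
    (g 1 1 (by simp [pp, qq, EuclideanSpace.dist_eq, Real.dist_eq, Fin.sum_univ_three] <;> norm_num) _ (by rw [PiLp.inner_apply]; simp [pp, Fin.sum_univ_three] <;> norm_num)) 
    (g 1 2 (by simp [pp, qq, EuclideanSpace.dist_eq, Real.dist_eq, Fin.sum_univ_three] <;> norm_num) _ (by rw [PiLp.inner_apply]; simp [pp, Fin.sum_univ_three] <;> norm_num)) 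
    (g 1 3 (by simp [pp, qq, EuclideanSpace.dist_eq, Real.dist_eq, Fin.sum_univ_three] <;> norm_num) _ (by rw [PiLp.inner_apply]; simp [pp, Fin.sum_univ_three] <;> norm_num)) 
    (g 1 4 (by simp [pp, qq, EuclideanSpace.dist_eq, Real.dist_eq, Fin.sum_univ_three] <;> norm_num) _ (by rw [PiLp.inner_apply]; simp [pp, Fin.sum_univ_three] <;> norm_num)) 
    (g 1 7 (by simp [pp, qq, EuclideanSpace.dist_eq, Real.dist_eq, Fin.sum_univ_three] <;> norm_num) _ (by rw [PiLp.inner_apply]; simp [pp, Fin.sum_univ_three] <;> norm_num)) 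
    (g 1 8 (by simp [pp, qq, EuclideanSpace.dist_eq, Real.dist_eq, Fin.sum_univ_three] <;> norm_num) _ (by rw [PiLp.inner_apply]; simp [pp, Fin.sum_univ_three] <;> norm_num)) 
    (g 2 2 (by simp [pp, qq, EuclideanSpace.dist_eq, Real.dist_eq, Fin.sum_univ_three] <;> norm_num) _ (by rw [PiLp.inner_apply]; simp [pp, Fin.sum_univ_three] <;> norm_num)) 
    (g 2 3 (by simp [pp, qq, EuclideanSpace.dist_eq, Real.dist_eq, Fin.sum_univ_three] <;> norm_num) _ (by rw [PiLp.inner_apply]; simp [pp, Fin.sum_univ_three] <;> norm_num)) 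
    (g 2 4 (by simp [pp, qq, EuclideanSpace.dist_eq, Real.dist_eq, Fin.sum_univ_three] <;> norm_num) _ (by rw [PiLp.inner_apply]; simp [pp, Fin.sum_univ_three] <;> norm_num)) 
    (g 2 5 (by simp [pp, qq, EuclideanSpace.dist_eq, Real.dist_eq, Fin.sum_univ_three] <;> norm_num) _ (by rw [PiLp.inner_apply]; simp [pp, Fin.sum_univ_three] <;> norm_num)) 
    (g 2 6 (by simp [pp, qq, EuclideanSpace.dist_eq, Real.dist_eq, Fin.sum_univ_three] <;> norm_num) _ (by rw [PiLp.inner_apply]; simp [pp, Fin.sum_univ_three] <;> norm_num)) 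
    (g 3 3 (by simp [pp, qq, EuclideanSpace.dist_eq, Real.dist_eq, Fin.sum_univ_three] <;> norm_num) _ (by rw [PiLp.inner_apply]; simp [pp, Fin.sum_univ_three] <;> norm_num)) 
    (g 3 4 (by simp [pp, qq, EuclideanSpace.dist_eq, Real.dist_eq, Fin.sum_univ_three] <;> norm_num) _ (by rw [PiLp.inner_apply]; simp [pp, Fin.sum_univ_three] <;> norm_num)) 
    (g 3 5 (by simp [pp, qq, EuclideanSpace.dist_eq, Real.dist_eq, Fin.sum_univ_three] <;> norm_num) _ (by rw [PiLp.inner_apply]; simp [pp, Fin.sum_univ_three] <;> norm_num)) 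
    (g 3 8 (by simp [pp, qq, EuclideanSpace.dist_eq, Real.dist_eq, Fin.sum_univ_three] <;> norm_num) _ (by rw [PiLp.inner_apply]; simp [pp, Fin.sum_univ_three] <;> norm_num)) 
    (g 4 4 (by simp [pp, qq, EuclideanSpace.dist_eq, Real.dist_eq, Fin.sum_univ_three] <;> norm_num) _ (by rw [PiLp.inner_apply]; simp [pp, Fin.sum_univ_three] <;> norm_num)) 
    (g 4 6 (by simp [pp, qq, EuclideanSpace.dist_eq, Real.dist_eq, Fin.sum_univ_three] <;> norm_num) _ (by rw [PiLp.inner_apply]; simp [pp, Fin.sum_univ_three] <;> norm_num)) 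
    (g 4 7 (by simp [pp, qq, EuclideanSpace.dist_eq, Real.dist_eq, Fin.sum_univ_three] <;> norm_num) _ (by rw [PiLp.inner_apply]; simp [pp, Fin.sum_univ_three] <;> norm_num)) 
    (g 5 5 (by simp [pp, qq, EuclideanSpace.dist_eq, Real.dist_eq, Fin.sum_univ_three] <;> norm_num) _ (by rw [PiLp.inner_apply]; simp [pp, Fin.sum_univ_three] <;> norm_num)) 
    (g 5 6 (by simp [pp, qq, EuclideanSpace.dist_eq, Real.dist_eq, Fin.sum_univ_three] <;> norm_num) _ (by rw [PiLp.inner_apply]; simp [pp, Fin.sum_univ_three] <;> norm_num)) 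
    (g 5 7 (by simp [pp, qq, EuclideanSpace.dist_eq, Real.dist_eq, Fin.sum_univ_three] <;> norm_num) _ (by rw [PiLp.inner_apply]; simp [pp, Fin.sum_univ_three] <;> norm_num)) 
    (g 6 6 (by simp [pp, qq, EuclideanSpace.dist_eq, Real.dist_eq, Fin.sum_univ_three] <;> norm_num) _ (by rw [PiLp.inner_apply]; simp [pp, Fin.sum_univ_three] <;> norm_num)) 
    (g 7 7 (by simp [pp, qq, EuclideanSpace.dist_eq, Real.dist_eq, Fin.sum_univ_three] <;> norm_num) _ (by rw [PiLp.inner_apply]; simp [pp, Fin.sum_univ_three] <;> norm_num)) 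
    (g 7 8 (by simp [pp, qq, EuclideanSpace.dist_eq, Real.dist_eq, Fin.sum_univ_three] <;> norm_num) _ (by rw [PiLp.inner_apply]; simp [pp, Fin.sum_univ_three] <;> norm_num)) 
    (g 8 8 (by simp [pp, qq, EuclideanSpace.dist_eq, Real.dist_eq, Fin.sum_univ_three] <;> norm_num) _ (by rw [PiLp.inner_apply]; simp [pp, Fin.sum_univ_three] <;> norm_num)) hz

end Pool.Agent.S10340
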