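import Pool.Statements.S10346
import Pool.Agent.H.MP_9a52ae_co.Ana

set_option autoImplicit false
open Pool Pool.MP_9a52ae_co

namespace Pool.Agent.S10346

theorem result :
    ¬ (∀ k : ℕ, 2 ≤ k → ∀ σ : Equiv.Perm (Fin k),
      ∃ f : ℂ → ℂ, Differentiable ℂ f ∧
        ∀ᶠ z in nhds (0 : ℂ),
          f z * (∑' n : ℕ,
            ((Nat.card {π : Equiv.Perm (Fin n) //
                ¬ ∃ i : ℕ, i + k ≤ n ∧
                  ∀ a b : Fin k,
                    (σ a < σ b ↔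
                      (if h : i + (a : ℕ) < n then ((π ⟨i + (a : ℕ), h⟩ : Fin n) : ℕ) else 0) <
                      (if h : i + (b : ℕ) < n then ((π ⟨i + (b : ℕ), h⟩ : Fin n) : ℕ) else 0))} : ℕ) : ℂ)
              * z ^ n / ((Nat.factorial n : ℕ) : ℂ)) = 1) := by
  intro h
  obtain ⟨f, hf, h⟩ := h 6 (by norm_num) Pool.Agent.H.MP_9a52ae_co.sg
  refine Pool.Agent.H.MP_9a52ae_co.not_entire f hf ?_
  filter_upwards [h] with z hz
  rw [← hz]
  congr 1
  refine tsum_congr (fun n => ?_)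
  classical
  unfold Pool.Agent.H.MP_9a52ae_co.aa Pool.Agent.H.MP_9a52ae_co.pr Pool.Agent.H.MP_9a52ae_co.cnt
  rw [Nat.card_eq_fintype_card, Fintype.card_subtype, Finset.card_filter]
  push_cast
  rw [div_mul_eq_mul_div]
  congr 2
  refine Finset.sum_congr rfl (fun π _ => ?_)
  rw [apply_ite ((↑) : ℝ → ℂ), Complex.ofReal_one, Complex.ofReal_zero]
  refine @if_congr _ _ _ (_) (_) _ _ _ _ ?_ rfl rfl
  exact ⟨fun h ⟨i, hi, ho⟩ => h i (Nat.zero_le _) hi ho, fun h i _ hi ho => h ⟨i, hi, ho⟩⟩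

end Pool.Agent.S10346
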