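import Pool.Statements.S10352
import Pool.Agent.H.MP_9ad55e_co.D

set_option autoImplicit false
open MeasureTheory
open Pool Pool.MP_9ad55e_co

namespace Pool.Agent.S10352

theorem result :
    ¬ (∀ d : ℕ, 1 ≤ d → ∀ C : Set (Set (EuclideanSpace ℝ (Fin d))),
    (∀ K ∈ C, IsCompact K ∧ Convex ℝ K ∧ (interior K).Nonempty ∧ Metric.diam K ≤ 1) →
    ⋃₀ C = Set.univ →
    (⨅ (B : Set (Set (EuclideanSpace ℝ (Fin d))))
        (_ : (∀ S ∈ B, ∃ x : EuclideanSpace ℝ (Fin d), S = Metric.closedBall x (1/2 : ℝ)) ∧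
              ⋃₀ B = Set.univ),
      Filter.liminf
        (fun r : ℝ =>
          ((({S ∈ B | S ⊆ Metric.closedBall (0 : EuclideanSpace ℝ (Fin d)) r}.encard : ℕ∞) : ENNReal)) /
            volume (Metric.closedBall (0 : EuclideanSpace ℝ (Fin d)) r))
        Filter.atTop)
    ≤ Filter.liminf
        (fun r : ℝ =>
          ((({K ∈ C | K ⊆ Metric.closedBall (0 : EuclideanSpace ℝ (Fin d)) r}.encard : ℕ∞) : ENNReal)) /
            volume (Metric.closedBall (0 : EuclideanSpace ℝ (Fin d)) r))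
        Filter.atTop) := by
  intro h
  have h1 := h 2 (by norm_num) (Set.range H.MP_9ad55e_co.K)
    (by rintro _ ⟨i, rfl⟩; exact H.MP_9ad55e_co.body i) H.MP_9ad55e_co.cover
  have h2 := h1.trans (Filter.liminf_le_of_frequently_le' (x := ENNReal.ofReal 1.525)
    ((Filter.eventually_ge_atTop 30000).mono fun r hr => H.MP_9ad55e_co.upper hr).frequently)
  have h3 := (le_iInf₂ fun B hB => Filter.le_liminf_of_le (a := ENNReal.ofReal 1.53) (h :=
    (Filter.eventually_ge_atTop 4000).mono fun r hr => H.MP_9ad55e_co.lower hB.1 hB.2 hr)).trans h2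
  rw [ENNReal.ofReal_le_ofReal_iff (by norm_num)] at h3
  norm_num at h3

end Pool.Agent.S10352
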