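import Pool.Statements.S10356

set_option autoImplicit false
open Pool Pool.MP_9adbbf_co

namespace Pool.Agent.S10356

def UP : ℕ := 497325133554613739528351049286802250672491497792222049620673892442778651684109254190593

def lb (a b : ℕ) : Bool := UP.testBit (17 * a + b)

def X : Type := Fin 17

instance : Fintype X := inferInstanceAs (Fintype (Fin 17))
instance : DecidableEq X := inferInstanceAs (DecidableEq (Fin 17))

def X.v (a : X) : ℕ := Fin.val a

lemma po : (∀ a : Fin 17, lb a a = true) ∧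
    (∀ a b : Fin 17, lb a b = true → ∀ c : Fin 17, lb b c = true → lb a c = true) ∧
    (∀ a b : Fin 17, lb a b = true → lb b a = true → a = b) := by decide +kernel

instance : PartialOrder X where
  le a b := lb a.v b.v = true
  le_refl := po.1
  le_trans a b c h1 h2 := po.2.1 a b h1 c h2
  le_antisymm := po.2.2

instance : TopologicalSpace X := Topology.upperSet X
instance : Topology.IsUpperSet X := ⟨rfl⟩

def cond (R i j v : ℕ) : Bool :=
  (lb i j && (List.range 17).all (fun w => R.testBit (17 * j + w) || !lb v w)) ||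
  (lb j i && (List.range 17).all (fun w => R.testBit (17 * j + w) || !lb w v))

def step (R c : ℕ) : ℕ :=
  if cond R (c / 289 % 17) (c / 17 % 17) (c % 17) then R ||| 2 ^ (17 * (c / 289 % 17) + c % 17) else R

def Inv (f : X → X) (R : ℕ) : Prop := ∀ i : X, R.testBit (17 * i.v + (f i).v) = false

lemma step_inv (f : X →o X) (R c : ℕ) (h : Inv f R) : Inv f (step R c) := by
  unfold step
  split_ifs with hc
  · intro k
    rw [Nat.testBit_or, h k, Bool.false_or, Nat.testBit_two_pow]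
    simp only [decide_eq_false_iff_not]
    intro e
    have hk : k.v < 17 := Fin.isLt k
    have hf : (f k).v < 17 := Fin.isLt (f k)
    have e1 : c / 289 % 17 = k.v := by omega
    have e2 : c % 17 = (f k).v := by omega
    let j : X := (⟨c / 17 % 17, Nat.mod_lt _ (by norm_num)⟩ : Fin 17)
    have e3 : c / 17 % 17 = j.v := rfl
    rw [e1, e2, e3] at hc
    have hj : (f j).v ∈ List.range 17 := List.mem_range.2 (Fin.isLt (f j))
    simp only [cond, Bool.or_eq_true, Bool.and_eq_true, List.all_eq_true] at hc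
    rcases hc with ⟨h1, h2⟩ | ⟨h1, h2⟩
    · have h3 : lb (f k).v (f j).v = true := f.monotone (show k ≤ j from h1)
      have := h2 _ hj
      simp [h j, h3] at this
    · have h3 : lb (f j).v (f k).v = true := f.monotone (show j ≤ k from h1)
      have := h2 _ hj
      simp [h j, h3] at this
  · exact h

lemma fold_inv (f : X →o X) (l : List ℕ) : ∀ R, Inv f R → Inv f (l.foldl step R) := by
  induction l with
  | nil => intro R h; exact h
  | cons c l ih => intro R h; exact ih _ (step_inv f R c h)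

def TR : List (List ℕ) := [[13, 270, 478, 479, 480, 481, 482, 483, 484, 487, 488, 492, 766, 768, 769, 771, 772, 776, 781, 2239, 2311, 2384, 2402, 2528, 2601, 2691, 2853, 2890, 2908, 2909, 2910, 2913, 2914, 2918, 2919, 3142, 3160, 2923, 3505, 3508, 3509, 3518, 3757, 3829, 3847, 3901, 3919, 4064, 4065, 4069, 4226, 4074, 4075, 4231, 4079, 171, 172, 173, 176, 180, 181, 1363, 1282, 1684, 1685, 1652, 1655, 1694, 2398, 2399, 2383, 2403, 2387, 2408, 2532, 2602, 2611, 3758, 3759, 3760, 3763, 3832, 3767, 3768, 3905, 3924, 3772, 3909], [1, 476, 478, 479, 480, 481, 482, 483, 484, 485, 486, 487, 488, 489, 490, 491, 492], [2, 765, 766, 768, 769, 770, 771, 772, 773, 774, 775, 776, 777, 778, 779, 780, 781], [7, 765, 766, 769, 770, 773, 774, 775, 776, 778, 779, 780, 1390, 1768, 1769, 1770, 1773, 1776, 1777, 1778, 1779, 1950, 1781, 1782, 1783, 2022, 2077, 2095, 2239, 2311, 2528, 2546, 3502, 3507, 3510, 3511, 3512, 3515, 3516, 3517, 969, 970, 971, 974, 975, 978, 979,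 980, 983, 984, 1360, 1365, 1300, 1369, 2074, 2075, 2076, 2079, 2080, 2099, 2083, 2084, 2085, 2104, 2088, 2089], [8, 476, 478, 481, 485, 486, 487, 490, 491, 765, 766, 770, 774, 775, 776, 779, 780, 1444, 1769, 1770, 1778, 1779, 1950, 1782, 1783, 2022, 2077, 2239, 2311, 2384, 2402, 2528, 2546, 2601, 2835, 2853, 3512, 3516, 3517, 4073, 4078, 4642, 4651, 4652, 4655, 4656, 970, 971, 975, 980, 1429, 1282, 1439, 1607, 2076, 2080, 2085, 2242, 2381, 2526, 2530, 2531, 2849, 2854, 1277, 1278, 1281, 1598, 2397, 2382, 2383, 2386, 2387, 2406, 2391, 2396], [13, 476, 478, 479, 480, 482, 483, 486, 487, 491, 492, 765, 766, 768, 769, 771, 772, 775, 776, 780, 781, 2239, 2311, 2384, 2402, 2528, 2601, 2691, 2853, 2908, 2918, 3142, 2922, 2923, 3504, 3505, 3508, 3509, 3513, 3517, 3518, 3757, 3829, 3847, 3901, 3919, 4064, 4073, 4074, 4078, 4079, 171, 180, 1362, 1363, 1366, 1282, 1684, 1651, 1660, 2398, 2382, 2383, 2386, 2387, 2408, 2532, 2602, 2688, 2611, 2697, 2854, 3758,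 3827, 3828, 3831, 3832, 3767, 3853, 3905, 3924, 3925, 3909], [7, 765, 766, 769, 770, 773, 774, 775, 776, 778, 779, 780, 1390, 1768, 1769, 1770, 1773, 1776, 1777, 1778, 1779, 1950, 1781, 1782, 1783, 2022, 2077, 2095, 2239, 2311, 2528, 2546, 3502, 3507, 3510, 3511, 3512, 3515, 3516, 3517, 969, 970, 971, 974, 975, 978, 979, 980, 983, 984, 1360, 1365, 1300, 1369, 2074, 2075, 2076, 2079, 2080, 2099, 2083, 2084, 2085, 2104, 2088, 2089], [8, 476, 478, 481, 485, 486, 487, 490, 491, 765, 766, 770, 774, 775, 776, 779, 780, 1444, 1769, 1770, 1778, 1779, 1950, 1782, 1783, 2022, 2077, 2239, 2311, 2384, 2402, 2528, 2546, 2601, 2835, 2853, 3512, 3516, 3517, 4073, 4078, 4641, 4642, 4650, 4651, 4652, 4824, 4655, 4656, 1139, 970, 971, 975, 979, 980, 984, 1428, 1429, 1282, 1370, 1439, 1607, 2076, 2080, 2085, 2089, 2380, 2381, 2390, 2530, 2531, 2849, 2854, 1277, 1278, 1281, 1598, 2382, 2383, 2386, 2387, 2406, 2391, 2396], [14, 234, 476, 478, 479, 482, 486, 487, 491,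 765, 766, 768, 771, 775, 776, 780, 1444, 1661, 1770, 1779, 1950, 1783, 2022, 2077, 2095, 2239, 2311, 2384, 2402, 2528, 2546, 2601, 2691, 2835, 2853, 2908, 2909, 2910, 2913, 2918, 3142, 2922, 3504, 3505, 3508, 3594, 3513, 3517, 3829, 3847, 3901, 3919, 4046, 4064, 4065, 4066, 4136, 4069, 4208, 4073, 4074, 4078, 4353, 4362, 4363, 4536, 4538, 4642, 4651, 4652, 4825, 4656, 256, 162, 180, 1140, 971, 975, 980, 1429, 1282, 1439, 1589, 2075, 2076, 2080, 2085, 2242, 2602, 2611, 3161, 3603, 3924, 1277, 1278, 1281, 1651, 1652, 1655, 1656, 2382, 2383, 2386, 2387, 2396, 3828, 3831, 3832, 3905, 3841, 224, 225, 226, 228, 229, 1585, 2894, 2897, 4050, 4053, 4054, 4143, 4059, 4232], [9, 270, 478, 479, 480, 482, 483, 487, 492, 766, 768, 769, 771, 772, 776, 781, 2239, 2311, 2384, 2402, 2528, 2546, 2601, 2691, 2835, 2853, 2908, 2918, 3142, 3160, 2923, 3505, 3508, 3509, 3518, 4079, 4354, 4355, 4358, 4359, 4363, 4534, 4368, 4643, 4647, 4652, 4823, 4826, 171, 257, 258, 261,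 180, 181, 1430, 1363, 1366, 1282, 1652, 1656, 1589, 2382, 2383, 2386, 2387, 2532, 2602, 2603, 2604, 2607, 2611, 2612, 2616, 2855, 3905, 1585, 2690, 2693, 2694, 2834], [13, 270, 478, 479, 480, 481, 482, 483, 484, 487, 488, 492, 2239, 2311, 2384, 2402, 2528, 2601, 2691, 2853, 2890, 2908, 2909, 2910, 2913, 2914, 2918, 2919, 3142, 3160, 2923, 3757, 3829, 3847, 3901, 3919, 4065, 4066, 4069, 4070, 4074, 4075, 4231, 4079, 4356, 4359, 4360, 4364, 4535, 4368, 4644, 4647, 4648, 4653, 171, 172, 173, 259, 176, 177, 180, 181, 186, 1431, 1282, 1685, 1686, 1689, 2399, 2383, 2403, 2387, 2602, 2611, 3758, 3759, 3760, 3763, 3764, 3767, 3768, 3905, 3924, 3772, 3773], [11], [8, 476, 486, 765, 766, 775, 776, 780, 1444, 1770, 1779, 1950, 1783, 2022, 2077, 2239, 2311, 2384, 2402, 2528, 2546, 2601, 2691, 2853, 3142, 3160, 3517, 3919, 4353, 4362, 4380, 4536, 4538, 4641, 4642, 4820, 4651, 4669, 4824, 4825, 4673, 256, 180, 1139, 1140, 971, 975, 1149, 980, 984, 1428, 1429, 1282,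 1438, 1439, 2076, 2080, 2085, 2089, 2380, 2381, 2390, 2531, 2602, 2611, 3924, 1277, 1278, 1281, 2382, 2383, 2386, 2387, 2542, 2391, 2547, 2396], [13, 270, 478, 479, 482, 487, 1444, 2077, 2095, 2239, 2311, 2384, 2402, 2528, 2601, 2691, 2853, 2890, 2908, 3142, 3160, 3757, 3829, 3847, 3901, 3919, 4353, 4354, 4355, 4358, 4529, 4515, 4363, 4534, 4536, 4538, 4642, 4643, 4644, 4647, 4750, 4821, 4652, 4823, 4825, 4826, 256, 257, 258, 261, 180, 266, 1429, 1430, 1431, 1434, 1282, 1439, 2382, 2383, 2386, 2387, 2602, 2611, 3758, 3759, 3760, 3763, 3832, 3767, 3768, 3905, 3924, 3772, 3841], [13, 270, 478, 479, 480, 482, 483, 487, 492, 2239, 2311, 2384, 2402, 2528, 2601, 2691, 2853, 2908, 2918, 3142, 3160, 2923, 3757, 3829, 3847, 3901, 3919, 4354, 4355, 4356, 4358, 4359, 4530, 4363, 4534, 4535, 4368, 4643, 4644, 4647, 4648, 4652, 4823, 4826, 171, 257, 258, 259, 261, 262, 180, 181, 186, 1430, 1431, 1434, 1282, 2382, 2383, 2386, 2387, 2602, 2611, 3758, 3759, 3760,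 3763, 3764, 3767, 3768, 3905, 3924, 3772, 3773], [11, 3449], [11, 3467]]

def R0 (v : ℕ) : ℕ := (2 ^ (18 * 17) - 1) / (2 ^ 18 - 1) ||| (2 ^ 17 - 1 - 2 ^ v) * 2 ^ (17 * 11)

lemma R0_spec : ∀ v i w : Fin 17, (R0 v).testBit (17 * i + w) = true → w = i ∨ (i = 11 ∧ w ≠ v) := by
  decide +kernel

lemma chk : ∀ v : Fin 17, (TR.getD v []).headD 0 < 17 ∧ ∀ w : Fin 17,
    ((TR.getD v []).tail.foldl step (R0 v)).testBit (17 * (TR.getD v []).headD 0 + w) = true := by
  decide +kernel

lemma fpp (f : X →o X) : ∃ x, f x = x := by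
  by_contra hc
  push Not at hc
  let v : Fin 17 := f (11 : Fin 17)
  have h0 : Inv f (R0 v) := by
    intro i
    by_contra h
    rcases R0_spec v i (f i) (eq_true_of_ne_false h) with h1 | ⟨h1, h2⟩
    · exact hc i h1
    · subst h1; exact h2 rfl
  obtain ⟨h1, h2⟩ := chk v
  have h3 := fold_inv f (TR.getD v []).tail _ h0 (⟨_, h1⟩ : Fin 17)
  exact Bool.false_ne_true (h3.symm.trans (h2 (f (⟨_, h1⟩ : Fin 17))))

def S (m : ℕ) : Set X := {x | m.testBit x.v = true}

lemma conn (m : ℕ) (par : Fin 17 → Fin 17) (rk : Fin 17 → ℕ) (h0 : m.testBit 0 = true)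
    (h : ∀ x : Fin 17, m.testBit x = true → x = 0 ∨ (m.testBit (par x) = true ∧ rk (par x) < rk x ∧
      (lb x (par x) = true ∨ lb (par x) x = true))) : IsConnected (S m) := by
  refine ⟨⟨(0 : Fin 17), h0⟩, fun u v hu hv hs ⟨a, ha⟩ ⟨b, hb⟩ => ?_⟩
  rw [Topology.IsUpperSet.isOpen_iff_isUpperSet] at hu hv
  by_contra hc
  have key : ∀ x y : X, x ∈ S m → y ∈ S m → x ≤ y → (x ∈ u ↔ y ∈ u) := fun x y hx hy hxy =>
    ⟨fun h => hu hxy h, fun h => (hs hx).resolve_right (fun h' => hc ⟨y, hy, h, hv hxy h'⟩)⟩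
  have all : ∀ n, ∀ x : Fin 17, rk x < n → m.testBit x = true →
      ((show X from x) ∈ u ↔ (show X from (0 : Fin 17)) ∈ u) := by
    intro n
    induction n with
    | zero => intro x hx; omega
    | succ n ih =>
      intro x hx hm
      rcases h x hm with rfl | ⟨h1, h2, h3 | h3⟩
      · rfl
      · exact (key x (par x) hm h1 h3).trans (ih _ (by omega) h1)
      · exact (key (par x) x h1 hm h3).symm.trans (ih _ (by omega) h1)
  exact hc ⟨b, hb.1, (all _ b (Nat.lt_succ_self _) hb.1).2 ((all _ a (Nat.lt_succ_self _) ha.1).1 ha.2),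
    hb.2⟩

theorem result :
    ¬ (∀ (X : Type) [PartialOrder X] [Fintype X] [TopologicalSpace X] [Topology.IsUpperSet X],
      (∀ f : X →o X, ∃ x, f x = x) →
        (ConnectedSpace X ∧
          ∀ A B : Set X, IsClosed A → IsClosed B → IsConnected A → IsConnected B →
            A ∪ B = Set.univ → IsConnected (A ∩ B))) := by
  intro H
  have lo : ∀ m : ℕ, (∀ a b : Fin 17, lb b a = true → m.testBit a = true → m.testBit b = true) →
      IsClosed (S m) := fun m h =>
    Topology.IsUpperSet.isClosed_iff_isLower.2 (fun a b hab ha => h a b hab ha)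
  have hi : ∀ m : ℕ, (∀ a b : Fin 17, lb a b = true → m.testBit a = true → m.testBit b = true) →
      IsOpen (S m) := fun m h =>
    Topology.IsUpperSet.isOpen_iff_isUpperSet.2 (fun a b hab ha => h a b hab ha)
  have h := (H X fpp).2 (S 13309) (S 118527) (lo _ (by decide +kernel)) (lo _ (by decide +kernel))
    (conn _ ![0, 0, 12, 12, 13, 9, 12, 4, 13, 0, 0, 0, 5, 0, 0, 0, 0]
      ![0, 0, 4, 4, 2, 2, 4, 3, 2, 1, 0, 0, 3, 1, 0, 0, 0] (by decide) (by decide +kernel))
    (conn _ ![0, 10, 15, 16, 16, 9, 2, 16, 0, 0, 0, 15, 0, 0, 0, 0, 1]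
      ![0, 2, 2, 4, 4, 2, 3, 4, 0, 1, 1, 2, 0, 0, 1, 1, 3] (by decide) (by decide +kernel))
    (Set.eq_univ_of_forall (fun x => (show ∀ x : Fin 17, Nat.testBit 13309 x = true ∨
      Nat.testBit 118527 x = true by decide +kernel) x))
  obtain ⟨x, ⟨h1, h2⟩, h3, h4⟩ := h.2 (S 63265) (S 113116) (hi _ (by decide +kernel))
    (hi _ (by decide +kernel))
    (fun x hx => (show ∀ x : Fin 17, Nat.testBit 13309 x = true → Nat.testBit 118527 x = true →
      Nat.testBit 63265 x = true ∨ Nat.testBit 113116 x = true by decide +kernel) x hx.1 hx.2)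
    ⟨(0 : Fin 17), ⟨rfl, rfl⟩, rfl⟩ ⟨(2 : Fin 17), ⟨rfl, rfl⟩, rfl⟩
  exact (show ∀ x : Fin 17, Nat.testBit 13309 x = true → Nat.testBit 118527 x = true →
      Nat.testBit 63265 x = true → Nat.testBit 113116 x = true → False by decide +kernel) x h1 h2 h3 h4

end Pool.Agent.S10356
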