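import Pool.Statements.S10390
import Pool.Agent.Lib.helper7.Torus

set_option autoImplicit false
open Pool Pool.MP_9c2e29_co

namespace Pool.Agent.S10390

/-- K8 minus a six-cycle: the triangular prism joined with an edge. -/
def adj (a b : Fin 8) : Bool :=
  a != b && !(decide (a.val < 6) && decide (b.val < 6) &&
    ((a.val + 1) % 6 == b.val || (b.val + 1) % 6 == a.val))

def G : SimpleGraph (Fin 8) where
  Adj a b := adj a b = true
  symm := ⟨by decide⟩
  loopless := ⟨by decide⟩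

instance : DecidableRel G.Adj := fun a b => inferInstanceAs (Decidable (adj a b = true))

def P : Fin 8 → ℤ × ℤ := ![(0, 0), (5, 2), (2, 5), (5, 5), (1, 1), (3, 3), (3, 1), (1, 3)]

def D : Fin 8 → Fin 8 → ℤ × ℤ :=
  ![![(0, 0), (0, 0), (2, -1), (-1, -1), (1, 1), (0, 0), (-3, 1), (1, -3)],
    ![(0, 0), (0, 0), (0, 0), (0, 3), (2, -1), (-2, 1), (-2, -1), (2, 1)],
    ![(-2, 1), (0, 0), (0, 0), (0, 0), (-1, 2), (1, -2), (1, 2), (-1, -2)],
    ![(1, 1), (0, -3), (0, 0), (0, 0), (0, 0), (-2, -2), (-2, 2), (2, -2)],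
    ![(-1, -1), (-2, 1), (1, -2), (0, 0), (0, 0), (0, 0), (2, 0), (0, 2)],
    ![(0, 0), (2, -1), (-1, 2), (2, 2), (0, 0), (0, 0), (0, -2), (-2, 0)],
    ![(3, -1), (2, 1), (-1, -2), (2, -2), (-2, 0), (0, 2), (0, 0), (-2, 2)],
    ![(-1, 3), (-2, -1), (1, 2), (-2, 2), (0, -2), (2, 0), (2, -2), (0, 0)]]

def k1 : Fin 8 → Fin 5 := ![0, 0, 1, 1, 2, 2, 3, 4]
def k2 : Fin 8 → Fin 5 := ![2, 0, 0, 1, 1, 2, 3, 4]

lemma conn : ∀ i j : Fin 5, i ≠ j → ∀ u v : Fin 8, (k1 u = i ∨ k1 u = j) → (k1 v = i ∨ k1 v = j) →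
    ∃ y z : Fin 8, (k1 y = i ∨ k1 y = j) ∧ (k1 z = i ∨ k1 z = j) ∧
      (u = y ∨ G.Adj u y) ∧ (y = z ∨ G.Adj y z) ∧ (z = v ∨ G.Adj z v) := by
  decide +kernel

lemma step (c c' : Fin 8 → Fin 5) (hc : ∃ π : Equiv.Perm (Fin 5), ∀ v, c v = π (k1 v))
    (h : ∃ (a b : Fin 5) (x : Fin 8), ∀ v : Fin 8,
            ((SimpleGraph.fromRel (fun y z => G.Adj y z ∧ (c y = a ∨ c y = b) ∧
                (c z = a ∨ c z = b))).Reachable x v → c' v = Equiv.swap a b (c v)) ∧
            (¬ (SimpleGraph.fromRel (fun y z => G.Adj y z ∧ (c y = a ∨ c y = b) ∧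
                (c z = a ∨ c z = b))).Reachable x v → c' v = c v)) :
    ∃ π : Equiv.Perm (Fin 5), ∀ v, c' v = π (k1 v) := by
  obtain ⟨π, hπ⟩ := hc
  obtain ⟨a, b, x, h⟩ := h
  set H := SimpleGraph.fromRel (fun y z => G.Adj y z ∧ (c y = a ∨ c y = b) ∧
                (c z = a ∨ c z = b)) with hH
  by_cases hab : a = b
  · refine ⟨π, fun v => ?_⟩
    rw [← hπ]
    by_cases hr : H.Reachable x v
    · rw [(h v).1 hr, hab, Equiv.swap_self]; rfl
    · exact (h v).2 hr
  by_cases hx : c x = a ∨ c x = b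
  · refine ⟨π.trans (Equiv.swap a b), fun v => ?_⟩
    rw [Equiv.trans_apply, ← hπ]
    by_cases hr : H.Reachable x v
    · exact (h v).1 hr
    · rw [(h v).2 hr]
      have hv : ¬ (c v = a ∨ c v = b) := by
        intro hv
        apply hr
        have tr : ∀ w, (c w = a ∨ c w = b) ↔ (k1 w = π.symm a ∨ k1 w = π.symm b) := by
          intro w
          rw [hπ, Equiv.eq_symm_apply, Equiv.eq_symm_apply]
        have one : ∀ p q, (c p = a ∨ c p = b) → (c q = a ∨ c q = b) → (p = q ∨ G.Adj p q) →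
            H.Reachable p q := by
          rintro p q hp hq (rfl | hpq)
          · rfl
          · apply SimpleGraph.Adj.reachable
            rw [hH, SimpleGraph.fromRel_adj]
            exact ⟨hpq.ne, Or.inl ⟨hpq, hp, hq⟩⟩
        obtain ⟨y, z, hy, hz, e1, e2, e3⟩ := conn (π.symm a) (π.symm b)
          (fun h => hab (π.symm.injective h)) x v ((tr x).mp hx) ((tr v).mp hv)
        exact ((one x y hx ((tr y).mpr hy) e1).trans
          (one y z ((tr y).mpr hy) ((tr z).mpr hz) e2)).trans (one z v ((tr z).mpr hz) hv e3)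
      push Not at hv
      rw [Equiv.swap_apply_of_ne_of_ne hv.1 hv.2]
  · refine ⟨π, fun v => ?_⟩
    rw [← hπ]
    by_cases hr : H.Reachable x v
    · have hxv : x = v := by
        obtain ⟨w⟩ := hr
        cases w with
        | nil => rfl
        | cons hadj _ =>
          rw [hH, SimpleGraph.fromRel_adj] at hadj
          rcases hadj.2 with h1 | h1
          · exact absurd h1.2.1 hx
          · exact absurd h1.2.2 hx
      subst hxv
      push Not at hx
      rw [(h x).1 hr, Equiv.swap_apply_of_ne_of_ne hx.1 hx.2]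
    · exact (h v).2 hr

theorem result :
    ¬ (∀ (V : Type) [Fintype V] (G : SimpleGraph V),
      (∃ (p : V → AddCircle (1:ℝ) × AddCircle (1:ℝ))
         (γ : V → V → C(unitInterval, AddCircle (1:ℝ) × AddCircle (1:ℝ))),
         Function.Injective p ∧
         (∀ u v, G.Adj u v → γ u v 0 = p u ∧ γ u v 1 = p v ∧ Function.Injective (γ u v)) ∧
         (∀ (u v w : V) (t : unitInterval), G.Adj u v → 0 < (t:ℝ) → (t:ℝ) < 1 →
            γ u v t ≠ p w) ∧
         (∀ (u v u' v' : V) (s t : unitInterval), G.Adj u v → G.Adj u' v' →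
            ¬ ((u = u' ∧ v = v') ∨ (u = v' ∧ v = u')) →
            0 < (s:ℝ) → (s:ℝ) < 1 → 0 < (t:ℝ) → (t:ℝ) < 1 → γ u v s ≠ γ u' v' t)) →
      ∀ c₁ c₂ : G.Coloring (Fin 5),
        Relation.ReflTransGen
          (fun c c' : V → Fin 5 => ∃ (a b : Fin 5) (x : V), ∀ v : V,
            ((SimpleGraph.fromRel (fun y z => G.Adj y z ∧ (c y = a ∨ c y = b) ∧
                (c z = a ∨ c z = b))).Reachable x v → c' v = Equiv.swap a b (c v)) ∧
            (¬ (SimpleGraph.fromRel (fun y z => G.Adj y z ∧ (c y = a ∨ c y = b) ∧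
                (c z = a ∨ c z = b))).Reachable x v → c' v = c v))
          (⇑c₁) (⇑c₂)) := by
  intro h
  have hemb := Pool.Agent.Lib.helper7.Torus.embed G 6 P D (by norm_num) (by decide +kernel)
    (by decide +kernel) (by decide +kernel) (by decide +kernel) (by decide +kernel)
  have h1 := h (Fin 8) G hemb (SimpleGraph.Coloring.mk k1 (by decide +kernel))
    (SimpleGraph.Coloring.mk k2 (by decide +kernel))
  have h2 : ∀ c : Fin 8 → Fin 5, Relation.ReflTransGen
          (fun c c' : Fin 8 → Fin 5 => ∃ (a b : Fin 5) (x : Fin 8), ∀ v : Fin 8,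
            ((SimpleGraph.fromRel (fun y z => G.Adj y z ∧ (c y = a ∨ c y = b) ∧
                (c z = a ∨ c z = b))).Reachable x v → c' v = Equiv.swap a b (c v)) ∧
            (¬ (SimpleGraph.fromRel (fun y z => G.Adj y z ∧ (c y = a ∨ c y = b) ∧
                (c z = a ∨ c z = b))).Reachable x v → c' v = c v)) k1 c →
      ∃ π : Equiv.Perm (Fin 5), ∀ v, c v = π (k1 v) := by
    intro c hc
    induction hc with
    | refl => exact ⟨1, fun v => rfl⟩
    | tail _ hstep ih => exact step _ _ ih hstep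
  obtain ⟨π, hπ⟩ := h2 k2 h1
  have e0 := hπ 0
  have e1 := hπ 1
  have : k2 0 = k2 1 := e0.trans e1.symm
  exact absurd this (by decide)

end Pool.Agent.S10390
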