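import Pool.Statements.S10399
import Pool.Agent.H.MP_9cb2a9_co.Key

set_option autoImplicit false
open scoped BigOperators
open Pool Pool.MP_9cb2a9_co

open Pool.Agent.H.MP_9cb2a9_co

namespace Pool.Agent.S10399

theorem result :
  ∀ a b : ℕ → ℕ → ℤ,
    a 0 1 = 1 → a 1 2 = 1 →
    (∀ n : ℕ, 1 < n → a 0 n = 0) →
    (∀ i n : ℕ, n < 2 * i → a i n = 0) →
    (∀ i n : ℕ, 1 ≤ i → 1 ≤ n →
        a i (n + 1) = (i : ℤ) * a i n + ((n : ℤ) - 2 * (i : ℤ) + 2) * a (i - 1) n) →
    (∀ n : ℕ, 2 ≤ n → b 2 n = 1) →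
    (∀ i n : ℕ, ¬ (2 ≤ i ∧ i ≤ n) → b i n = 0) →
    (∀ i n : ℕ, 3 ≤ i → i ≤ n →
        b i n = ∑ k ∈ Finset.range (i + 1),
          ((Nat.choose (2 * n - 2 * i + k) k : ℕ) : ℤ) *
            ∑ r ∈ Finset.Icc 1 (i / 2),
              (-1 : ℤ) ^ (r - 1) * ((Nat.choose (i - k) (i - 2 * r) : ℕ) : ℤ) * b (i - k) (n - r)) →
    ∀ n i : ℕ, 2 ≤ i → i ≤ n → b i n ≤ a i (2 * n) := by
  intro a b a01 a12 a0 av ar b2 bv br
  have hrZ : ∀ j m : ℕ, 2 ≤ m →
      a j (m + 1) = j * a j m + ((m + 2 - 2 * j : ℕ) : ℤ) * a (j - 1) m := by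
    intro j m hm
    rcases Nat.eq_zero_or_pos j with rfl | hj
    · rw [a0 _ (by omega), a0 m (by omega)]; simp
    · rw [ar j m hj (by omega)]
      by_cases h : 2 * j ≤ m + 2
      · rw [Nat.cast_sub h]; push_cast; ring
      · rw [av (j - 1) m (by omega)]; simp
  have h0Z : ∀ m : ℕ, 2 ≤ m → ∀ j, 0 ≤ a j m := by
    intro m hm
    induction m, hm using Nat.le_induction with
    | base =>
      intro j
      rcases j with _ | _ | j
      · rw [a0 2 (by omega)]
      · rw [zero_add, a12]; norm_num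
      · rw [av _ 2 (by omega)]
    | succ m hm ih =>
      intro j
      rw [hrZ j m hm]
      have := ih j
      have := ih (j - 1)
      positivity
  have a1 : ∀ m : ℕ, 2 ≤ m → a 1 m = 1 := by
    intro m hm
    induction m, hm using Nat.le_induction with
    | base => exact a12
    | succ m hm ih => rw [hrZ 1 m hm, ih, a0 m (by omega)]; simp
  have a2 : ∀ m : ℕ, 4 ≤ m → 1 ≤ a 2 m := by
    intro m hm
    obtain ⟨m, rfl⟩ : ∃ m', m = m' + 1 := ⟨m - 1, by omega⟩
    rw [hrZ 2 m (by omega), a1 m (by omega)]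
    have h1 := h0Z m (by omega) 2
    have h2 : (1 : ℤ) ≤ ((m + 2 - 2 * 2 : ℕ) : ℤ) := by exact_mod_cast (by omega : 1 ≤ m + 2 - 2 * 2)
    push_cast at h2 ⊢
    linarith
  set A : ℕ → ℕ → ℝ := fun j m => (a j m : ℝ) with hA
  have h0 : ∀ j m, 2 ≤ m → 0 ≤ A j m := fun j m hm => by
    simp only [hA]; exact_mod_cast h0Z m hm j
  have hz : ∀ m, 2 ≤ m → A 0 m = 0 := fun m hm => by
    simp only [hA]; exact_mod_cast a0 m (by omega)
  have hv : ∀ j m, m < 2 * j → A j m = 0 := fun j m hm => by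
    simp only [hA]; exact_mod_cast av j m hm
  have hr : ∀ j m, 2 ≤ m →
      A j (m + 1) = j * A j m + ((m + 2 - 2 * j : ℕ) : ℝ) * A (j - 1) m := fun j m hm => by
    simp only [hA]; exact_mod_cast hrZ j m hm
  have main : ∀ n : ℕ, 2 ≤ n → ∀ i, |(b i n : ℝ)| ≤ A i (2 * n) := by
    intro n
    induction n using Nat.strong_induction_on with
    | _ n ih =>
      intro hn i
      by_cases hi : 2 ≤ i ∧ i ≤ n
      · by_cases h2 : i = 2
        · subst h2
          rw [b2 n hn]
          simp only [hA]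
          have := a2 (2 * n) (by omega)
          rw [Int.cast_one, abs_one]
          exact_mod_cast this
        · have hi3 : 3 ≤ i := by omega
          refine le_trans ?_ (T_sum A h0 hz hv hr i n hi3 hi.2)
          rw [br i n hi3 hi.2]
          push_cast
          simp only [Finset.mul_sum]
          rw [Finset.sum_comm]
          refine (Finset.abs_sum_le_sum_abs _ _).trans (Finset.sum_le_sum fun t ht => ?_)
          have ht' := Finset.mem_Icc.1 ht
          rw [← T_eq A i t (2 * (n - t)) (by omega)]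
          refine (Finset.abs_sum_le_sum_abs _ _).trans (Finset.sum_le_sum fun s _ => ?_)
          rw [show 2 * (n - t) + 2 * t - 2 * i + s = 2 * n - 2 * i + s by omega]
          have h3 := ih (n - t) (by omega) (by omega) (i - s)
          rw [abs_mul, abs_mul, abs_mul, abs_pow, abs_neg, abs_one, one_pow, one_mul,
            Nat.abs_cast, Nat.abs_cast]
          gcongr
      · rw [bv i n hi]
        simpa using h0 i (2 * n) (by omega)
  intro n i h2 hi
  have := (le_abs_self _).trans (main n (by omega) i)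
  simp only [hA] at this
  exact_mod_cast this


end Pool.Agent.S10399
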