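import Pool.Statements.S10402
import Pool.Agent.H.MP_2b2760_co.B

set_option autoImplicit false
open Pool Pool.MP_9cfd90_co

namespace Pool.Agent.S10402

theorem result :
    ¬ (∃ f : ℕ → ℕ → ℕ → ℕ, ∀ s : ℕ, 2 ≤ s → ∀ k t : ℕ, ∀ (V : Type) [Fintype V] (G : SimpleGraph V),
      (∃ (ι : Type) (_ : Fintype ι) (T : SimpleGraph ι) (B : ι → Set V) (ℓ : V → ℕ),
        T.IsTree ∧ (∀ v : V, ∃ i, v ∈ B i) ∧
        (∀ u v : V, G.Adj u v → ∃ i, u ∈ B i ∧ v ∈ B i) ∧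
        (∀ v : V, (T.induce {i | v ∈ B i}).Connected) ∧
        (∀ u v : V, G.Adj u v → ℓ u ≤ ℓ v + 1) ∧
        (∀ (i : ι) (n : ℕ), Set.ncard {x : V | x ∈ B i ∧ ℓ x = n} ≤ k)) →
      (¬ ∃ φ : completeBipartiteGraph (Fin s) (Fin t) →g G, Function.Injective φ) →
      ∃ c : V → Fin (s + 1), ∀ v : V,
        Set.ncard {u : V | (G ⊓ SimpleGraph.fromRel (fun x y => c x = c y)).Reachable v u}
          ≤ f k s t) := by
  rintro ⟨f, hf⟩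
  obtain ⟨V, i, G, T, B, l, h1, h2, h3, h4, h5, h6, h7, h8⟩ :=
    Pool.Agent.H.MP_2b2760_co.main (f 4 2 15)
  obtain ⟨c, hc⟩ := hf 2 le_rfl 4 15 V G
    ⟨V, i, T, B, l, h1, fun v => ⟨v, h2 v⟩, h3, h4, h5, h6⟩ h7
  obtain ⟨v, hv⟩ := h8 c
  exact absurd (hc v) (not_le.2 hv)

end Pool.Agent.S10402
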