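import Pool.Statements.S10420
import Pool.Agent.H.MP_2de88f_co.B

set_option autoImplicit false
open Pool Pool.MP_9ddcd7_co

namespace Pool.Agent.S10420

theorem result :
    ¬ (∀ c : ℕ, ∃ (G : Type) (_ : Group G) (_ : Finite G),
      ∀ (L : Type) [Lattice L] [IsModularLattice L] [Finite L],
        Nat.card L ≤ Nat.card G ^ c → IsEmpty ((L ≃o L) ≃* G)) := by
  intro h
  obtain ⟨G, _, _, hG⟩ := h 96
  by_cases hn : 2 ≤ Nat.card G
  · obtain ⟨L, _, _, _, _, ⟨φ⟩, -, f, hf⟩ := Pool.Agent.ModAut.main G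
    refine (hG L ?_).false φ.symm
    set n := Nat.card G
    have h1 := Nat.card_le_card_of_injective
      (fun (S : L) (i : Fin 16) => (⟨f S i, Nat.lt_succ_of_le (hf S i)⟩ : Fin (8 * n ^ 2 + 1)))
      (fun S T e => f.injective (funext fun i => congrArg Fin.val (congrFun e i)))
    have h2 : 8 * n ^ 2 + 1 ≤ n ^ 6 := by
      have a : 2 ^ 4 ≤ n ^ 4 := Nat.pow_le_pow_left hn 4
      have b : 1 ≤ n ^ 2 := Nat.one_le_pow _ _ (by omega)
      calc 8 * n ^ 2 + 1 ≤ 2 ^ 4 * n ^ 2 := by omega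
        _ ≤ n ^ 4 * n ^ 2 := Nat.mul_le_mul_right _ a
        _ = n ^ 6 := by ring
    rw [Nat.card_fun, Nat.card_fin, Nat.card_fin] at h1
    calc _ ≤ (n ^ 6) ^ 16 := h1.trans (Nat.pow_le_pow_left h2 16)
      _ = n ^ 96 := by ring
  · have h1 : Nat.card G = 1 := by
      have : 0 < Nat.card G := Nat.card_pos
      omega
    haveI : Unique G := (Nat.card_eq_one_iff_unique.1 h1).2.some |> fun x =>
      ⟨⟨x⟩, fun y => (Nat.card_eq_one_iff_unique.1 h1).1.elim y x⟩
    haveI : Unique (Unit ≃o Unit) := ⟨⟨1⟩, fun a => by ext⟩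
    exact (hG Unit (by simp [h1])).false MulEquiv.ofUnique

end Pool.Agent.S10420
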