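import Pool.Statements.S10425
import Pool.Agent.Lib.helper3.Tree

set_option autoImplicit false
open Pool Pool.MP_9e1b23_co

namespace Pool.Agent.S10425

open SimpleGraph Finset Pool.Agent.Lib.helper3.Tree

/-- number of homomorphisms -/
noncomputable def hom {α V : Type} (G : SimpleGraph α) (R : V → V → Prop) : ℕ :=
  Nat.card {f : α → V // ∀ u v, G.Adj u v → R (f u) (f v)}

section indep
variable {α : Type} [DecidableEq α] (G : SimpleGraph α) [DecidableRel G.Adj]

/-- number of independent subsets of `s` -/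
def I (s : Finset α) : ℕ := (s.powerset.filter (fun t => ∀ a ∈ t, ∀ b ∈ t, ¬ G.Adj a b)).card

theorem mem_I (s t : Finset α) :
    t ∈ s.powerset.filter (fun t => ∀ a ∈ t, ∀ b ∈ t, ¬ G.Adj a b) ↔
      t ⊆ s ∧ ∀ a ∈ t, ∀ b ∈ t, ¬ G.Adj a b := by
  simp

theorem I_all (s : Finset α) (h : ∀ a ∈ s, ∀ b ∈ s, ¬ G.Adj a b) : I G s = 2 ^ s.card := by
  unfold I
  rw [filter_true_of_mem, card_powerset]
  intro t ht x hx y hy
  rw [mem_powerset] at ht
  exact h x (ht hx) y (ht hy)

theorem I_empty : I G ∅ = 1 := by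
  rw [I_all] <;> simp

theorem I_rec (s : Finset α) (v : α) (hv : v ∈ s) :
    I G s = I G (s.erase v) + I G (s.filter (fun x => x ≠ v ∧ ¬ G.Adj v x)) := by
  unfold I
  rw [← Finset.card_filter_add_card_filter_not (s := s.powerset.filter (fun t => ∀ a ∈ t, ∀ b ∈ t, ¬ G.Adj a b))
    (fun t => v ∉ t)]
  congr 1
  · congr 1
    ext t
    simp only [mem_filter, mem_powerset, subset_erase]
    tauto
  · apply Finset.card_bij (fun t _ => t.erase v)
    · intro t ht
      simp only [mem_filter, mem_powerset, not_not] at ht ⊢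
      obtain ⟨⟨h1, h2⟩, h3⟩ := ht
      refine ⟨fun x hx => ?_, fun a ha b hb => h2 a (mem_of_mem_erase ha) b (mem_of_mem_erase hb)⟩
      rw [mem_erase] at hx
      exact mem_filter.mpr ⟨h1 hx.2, hx.1, h2 v h3 x hx.2⟩
    · intro t ht t' ht' h
      simp only [mem_filter, not_not] at ht ht'
      rw [← insert_erase ht.2, ← insert_erase ht'.2, h]
    · intro t ht
      simp only [mem_filter, mem_powerset] at ht
      obtain ⟨h1, h2⟩ := ht
      have hvt : v ∉ t := fun h => (mem_filter.mp (h1 h)).2.1 rfl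
      refine ⟨insert v t, ?_, erase_insert hvt⟩
      simp only [mem_filter, mem_powerset, not_not, mem_insert, true_or, and_true]
      refine ⟨insert_subset hv (fun x hx => (mem_filter.mp (h1 hx)).1), ?_⟩
      rintro a (rfl | ha) b (rfl | hb)
      · exact G.loopless.irrefl _
      · exact (mem_filter.mp (h1 hb)).2.2
      · exact fun h => (mem_filter.mp (h1 ha)).2.2 h.symm
      · exact h2 a ha b hb

theorem card_rest (s : Finset α) (v : α) (hv : v ∈ s) (h : (s.filter (G.Adj v)).card ≤ 1) :
    s.card ≤ (s.filter (fun x => x ≠ v ∧ ¬ G.Adj v x)).card + 2 := by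
  have : s ⊆ insert v (s.filter (G.Adj v) ∪ s.filter (fun x => x ≠ v ∧ ¬ G.Adj v x)) := by
    intro x hx
    simp only [mem_insert, mem_union, mem_filter]
    tauto
  have h1 := card_le_card this
  have h2 := card_insert_le v (s.filter (G.Adj v) ∪ s.filter (fun x => x ≠ v ∧ ¬ G.Adj v x))
  have h3 := card_union_le (s.filter (G.Adj v)) (s.filter (fun x => x ≠ v ∧ ¬ G.Adj v x))
  omega

theorem I_lower (hP : ∀ s : Finset α, s.Nonempty → ∃ v ∈ s, (s.filter (G.Adj v)).card ≤ 1) :
    ∀ k (s : Finset α), s.card = k → Nat.fib (k + 2) ≤ I G s := by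
  intro k
  induction k using Nat.strong_induction_on with
  | _ k ih =>
    intro s hs
    cases k with
    | zero =>
      rw [card_eq_zero] at hs
      subst hs
      simp [I_empty]
    | succ k =>
      obtain ⟨v, hv, h⟩ := hP s (card_pos.mp (by omega))
      rw [I_rec G s v hv]
      have h1 := ih k (by omega) (s.erase v) (by rw [card_erase_of_mem hv]; omega)
      have h2 := card_rest G s v hv h
      have h4 : (s.filter (fun x => x ≠ v ∧ ¬ G.Adj v x)).card ≤ (s.erase v).card := by
        apply card_le_card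
        intro x hx
        rw [mem_filter] at hx
        exact mem_erase.mpr ⟨hx.2.1, hx.1⟩
      rw [card_erase_of_mem hv] at h4
      have h3 := ih _ (by omega) (s.filter (fun x => x ≠ v ∧ ¬ G.Adj v x)) rfl
      have h5 : Nat.fib (k + 1) ≤ Nat.fib ((s.filter (fun x => x ≠ v ∧ ¬ G.Adj v x)).card + 2) :=
        Nat.fib_mono (by omega)
      have h6 : Nat.fib (k + 1 + 2) = Nat.fib (k + 1) + Nat.fib (k + 2) := Nat.fib_add_two
      omega

theorem I_strict (hP : ∀ s : Finset α, s.Nonempty → ∃ v ∈ s, (s.filter (G.Adj v)).card ≤ 1)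
    (C : Finset α) (hC : Nat.fib (C.card + 2) + 1 ≤ I G C)
    (hPC : ∀ s : Finset α, C ⊆ s → s ≠ C → ∃ v ∈ s, v ∉ C ∧ (s.filter (G.Adj v)).card ≤ 1) :
    ∀ k (s : Finset α), s.card = k → C ⊆ s → Nat.fib (k + 2) + 1 ≤ I G s := by
  intro k
  induction k with
  | zero =>
    intro s hs hCs
    rw [card_eq_zero] at hs
    subst hs
    rw [subset_empty] at hCs
    subst hCs
    simpa using hC
  | succ k ih =>
    intro s hs hCs
    by_cases hsC : s = C
    · subst hsC
      rw [← hs]
      exact hC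
    obtain ⟨v, hv, hvC, h⟩ := hPC s hCs hsC
    rw [I_rec G s v hv]
    have h1 := ih (s.erase v) (by rw [card_erase_of_mem hv]; omega) (subset_erase.mpr ⟨hCs, hvC⟩)
    have h2 := card_rest G s v hv h
    have h3 := I_lower G hP _ (s.filter (fun x => x ≠ v ∧ ¬ G.Adj v x)) rfl
    have h5 : Nat.fib (k + 1) ≤ Nat.fib ((s.filter (fun x => x ≠ v ∧ ¬ G.Adj v x)).card + 2) :=
      Nat.fib_mono (by omega)
    have h6 : Nat.fib (k + 1 + 2) = Nat.fib (k + 1) + Nat.fib (k + 2) := Nat.fib_add_two
    omega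

theorem tree_low (hT : G.IsTree) (r v : α) (s : Finset α)
    (h : ∀ x ∈ s, G.Adj v x → G.dist r x ≤ G.dist r v) : (s.filter (G.Adj v)).card ≤ 1 := by
  rw [card_le_one]
  intro x hx y hy
  rw [mem_filter] at hx hy
  exact parent_unique hT r hx.2 hy.2 (h x hx.1 hx.2) (h y hy.1 hy.2)

theorem tree_P (hT : G.IsTree) :
    ∀ s : Finset α, s.Nonempty → ∃ v ∈ s, (s.filter (G.Adj v)).card ≤ 1 := by
  intro s hs
  obtain ⟨r, -⟩ := hs.exists_mem
  obtain ⟨v, hv, hmax⟩ := exists_max_image s (fun x => G.dist r x) hs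
  exact ⟨v, hv, tree_low G hT r v s (fun x hx _ => hmax x hx)⟩

theorem tree_strict [Fintype α] (hT : G.IsTree) (w a b c : α) (ha : G.Adj w a) (hb : G.Adj w b)
    (hc : G.Adj w c) (hab : a ≠ b) (hac : a ≠ c) (hbc : b ≠ c) :
    Nat.fib (Fintype.card α + 2) + 1 ≤ I G univ := by
  have da : G.dist w a = 1 := dist_eq_one_iff_adj.mpr ha
  have db : G.dist w b = 1 := dist_eq_one_iff_adj.mpr hb
  have dc : G.dist w c = 1 := dist_eq_one_iff_adj.mpr hc
  have hw : w ∉ ({a, b, c} : Finset α) := by
    simp only [mem_insert, mem_singleton, not_or]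
    exact ⟨ha.ne, hb.ne, hc.ne⟩
  have h3 : ({a, b, c} : Finset α).card = 3 := by
    rw [card_eq_three]
    exact ⟨a, b, c, hab, hac, hbc, rfl⟩
  have hd : ∀ x ∈ ({a, b, c} : Finset α), G.dist w x = 1 := by
    intro x hx
    simp only [mem_insert, mem_singleton] at hx
    rcases hx with rfl | rfl | rfl <;> assumption
  apply I_strict G (tree_P G hT) (insert w {a, b, c}) ?_ ?_ _ univ rfl (subset_univ _)
  · rw [card_insert_of_notMem hw, h3, I_rec G _ w (mem_insert_self _ _), erase_insert hw]
    have h1 : I G {a, b, c} = 8 := by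
      rw [I_all, h3]
      · rfl
      intro x hx y hy hxy
      exact hT.dist_ne_of_adj w hxy ((hd x hx).trans (hd y hy).symm)
    have h2 := I_lower G (tree_P G hT) _
      ((insert w ({a, b, c} : Finset α)).filter (fun x => x ≠ w ∧ ¬ G.Adj w x)) rfl
    have h4 : 0 < Nat.fib (((insert w ({a, b, c} : Finset α)).filter
        (fun x => x ≠ w ∧ ¬ G.Adj w x)).card + 2) := Nat.fib_pos.mpr (by omega)
    have h5 : Nat.fib (3 + 1 + 2) = 8 := by decide
    omega
  · intro s hCs hne
    have hne' : (s \ insert w {a, b, c}).Nonempty := by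
      rw [sdiff_nonempty]
      intro h
      exact hne (Subset.antisymm h hCs)
    obtain ⟨v, hv, hmax⟩ := exists_max_image _ (fun x => G.dist w x) hne'
    rw [mem_sdiff] at hv
    refine ⟨v, hv.1, hv.2, tree_low G hT w v s ?_⟩
    intro x hx hvx
    by_cases hxC : x ∈ insert w ({a, b, c} : Finset α)
    · have hvw : w ≠ v := by
        rintro rfl
        exact hv.2 (mem_insert_self _ _)
      have := hT.connected.pos_dist_of_ne hvw
      rcases mem_insert.mp hxC with rfl | hxC
      · simp
      · rw [hd x hxC]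
        omega
    · exact hmax x (mem_sdiff.mpr ⟨hx, hxC⟩)

theorem hom_ind [Fintype α] :
    hom G (fun a b : Bool => ¬ (a = true ∧ b = true)) = I G univ := by
  unfold hom I
  rw [← Fintype.card_coe, ← Nat.card_eq_fintype_card]
  apply Nat.card_congr
  refine ⟨fun f => ⟨univ.filter (fun x => f.1 x = true), ?_⟩, fun t => ⟨fun x => decide (x ∈ t.1), ?_⟩, ?_, ?_⟩
  · rw [mem_I]
    refine ⟨subset_univ _, ?_⟩
    intro a ha b hb hab
    exact f.2 a b hab ⟨(mem_filter.mp ha).2, (mem_filter.mp hb).2⟩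
  · intro u v huv h
    have := ((mem_I G _ _).mp t.2).2
    simp only [decide_eq_true_eq] at h
    exact this u h.1 v h.2 huv
  · intro f
    ext x
    simp
  · intro t
    ext x
    simp

end indep

theorem I_path (n : ℕ) [DecidableRel (pathGraph n).Adj] :
    ∀ k, k ≤ n → I (pathGraph n) (univ.filter (fun i : Fin n => i.val < k)) ≤ Nat.fib (k + 2) := by
  intro k
  induction k using Nat.strong_induction_on with
  | _ k ih =>
    intro hk
    cases k with
    | zero => simp [I_empty]
    | succ k =>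
      rw [I_rec _ _ ⟨k, by omega⟩ (by simp)]
      have e1 : (univ.filter (fun i : Fin n => i.val < k + 1)).erase ⟨k, by omega⟩ =
          univ.filter (fun i : Fin n => i.val < k) := by
        ext x
        simp only [mem_erase, mem_filter, mem_univ, true_and, ne_eq, Fin.ext_iff]
        omega
      have e2 : (univ.filter (fun i : Fin n => i.val < k + 1)).filter
          (fun x => x ≠ ⟨k, by omega⟩ ∧ ¬ (pathGraph n).Adj ⟨k, by omega⟩ x) =
          univ.filter (fun i : Fin n => i.val < k - 1) := by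
        ext x
        simp only [mem_filter, mem_univ, true_and, ne_eq, Fin.ext_iff, pathGraph_adj]
        omega
      rw [e1, e2]
      have h1 := ih k (by omega) (by omega)
      have h2 := ih (k - 1) (by omega) (by omega)
      have h6 : Nat.fib (k + 1 + 2) = Nat.fib (k + 1) + Nat.fib (k + 2) := Nat.fib_add_two
      cases k with
      | zero =>
        have : Nat.fib (0 + 2) = 1 := by decide
        have : Nat.fib (0 + 1) = 1 := by decide
        simp only [Nat.zero_sub] at *
        omega
      | succ k =>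
        have : k + 1 - 1 + 2 = k + 1 + 1 := by omega
        rw [this] at h2
        omega

theorem hom_blow {α V : Type} [Fintype α] (G : SimpleGraph α) (R : V → V → Prop) (m : ℕ) :
    hom G (fun a b : V × Fin m => R a.1 b.1) = hom G R * m ^ Fintype.card α := by
  classical
  unfold hom
  have : Nat.card (α → Fin m) = m ^ Fintype.card α := by simp
  rw [← this, ← Nat.card_prod]
  apply Nat.card_congr
  exact ⟨fun f => (⟨fun x => (f.1 x).1, f.2⟩, fun x => (f.1 x).2),
    fun p => ⟨fun x => (p.1.1 x, p.2 x), p.1.2⟩, fun f => rfl, fun p => rfl⟩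

theorem const_of_conn {α C : Type} {G : SimpleGraph α} (hG : G.Connected) (κ : α → C)
    (h : ∀ u v, G.Adj u v → κ u = κ v) (u v : α) : κ u = κ v := by
  obtain ⟨p⟩ := hG u v
  induction p with
  | nil => rfl
  | cons hadj _ ih => exact (h _ _ hadj).trans ih

theorem hom_copies {α V : Type} {G : SimpleGraph α} (hG : G.Connected) (R : V → V → Prop) (N : ℕ) :
    hom G (fun a b : Fin N × V => a.1 = b.1 ∧ R a.2 b.2) = N * hom G R := by
  unfold hom
  obtain ⟨r⟩ := hG.nonempty
  have : Nat.card (Fin N) = N := by simp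
  conv_rhs => rw [← this]
  rw [← Nat.card_prod]
  apply Nat.card_congr
  refine ⟨fun f => ((f.1 r).1, ⟨fun x => (f.1 x).2, fun u v h => (f.2 u v h).2⟩),
    fun p => ⟨fun x => (p.1, p.2.1 x), fun u v h => ⟨rfl, p.2.2 u v h⟩⟩, fun f => ?_, fun p => rfl⟩
  ext x
  · exact congrArg Fin.val
      (const_of_conn hG (fun y => (f.1 y).1) (fun u v h => (f.2 u v h).1) r x)
  · rfl

theorem hom_sum {α V W : Type} [Finite α] [Finite V] [Finite W] {G : SimpleGraph α}
    (hG : G.Connected) (R : V → V → Prop) (S : W → W → Prop) :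
    hom G (Sum.LiftRel R S) = hom G R + hom G S := by
  unfold hom
  obtain ⟨r⟩ := hG.nonempty
  rw [← Nat.card_sum]
  symm
  apply Nat.card_eq_of_bijective (Sum.elim
    (fun f => ⟨fun x => Sum.inl (f.1 x), fun u v h => Sum.LiftRel.inl (f.2 u v h)⟩)
    (fun f => ⟨fun x => Sum.inr (f.1 x), fun u v h => Sum.LiftRel.inr (f.2 u v h)⟩))
  constructor
  · rintro (f | f) (g | g) h
    · congr 1
      ext x
      simpa using congrFun (congrArg Subtype.val h) x
    · simpa using congrFun (congrArg Subtype.val h) r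
    · simpa using congrFun (congrArg Subtype.val h) r
    · congr 1
      ext x
      simpa using congrFun (congrArg Subtype.val h) x
  · intro f
    have hc := const_of_conn hG (fun y => (f.1 y).isLeft) (fun u v h => by
      have := f.2 u v h
      revert this
      cases f.1 u <;> cases f.1 v <;> simp) r
    cases hr : (f.1 r).isLeft with
    | true =>
      have h1 : ∀ x, ∃ y, f.1 x = Sum.inl y := fun x => Sum.isLeft_iff.mp ((hc x).symm.trans hr)
      choose g hg using h1
      refine ⟨Sum.inl ⟨g, fun u v h => ?_⟩, Subtype.ext (funext fun x => (hg x).symm)⟩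
      have := f.2 u v h
      rw [hg, hg] at this
      simpa using this
    | false =>
      have h1 : ∀ x, ∃ y, f.1 x = Sum.inr y := fun x =>
        Sum.isRight_iff.mp (Sum.isLeft_eq_false.mp ((hc x).symm.trans hr))
      choose g hg using h1
      refine ⟨Sum.inr ⟨g, fun u v h => ?_⟩, Subtype.ext (funext fun x => (hg x).symm)⟩
      have := f.2 u v h
      rw [hg, hg] at this
      simpa using this

theorem hom_le_of_surj {α β V : Type} [Finite α] [Finite V] {G : SimpleGraph α} {P : SimpleGraph β}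
    (R : V → V → Prop) (d : α → β) (hd : Function.Surjective d)
    (h : ∀ u v, G.Adj u v → P.Adj (d u) (d v)) : hom P R ≤ hom G R := by
  unfold hom
  apply Nat.card_le_card_of_injective (fun f => ⟨fun x => f.1 (d x), fun u v huv => f.2 _ _ (h u v huv)⟩)
  intro f g hfg
  ext y
  obtain ⟨x, rfl⟩ := hd y
  exact congrFun (congrArg Subtype.val hfg) x

theorem hom_le_pow {α V : Type} [Fintype α] [Fintype V] (G : SimpleGraph α) (R : V → V → Prop) :
    hom G R ≤ Fintype.card V ^ Fintype.card α := by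
  classical
  unfold hom
  have := Nat.card_le_card_of_injective
    (Subtype.val : {f : α → V // ∀ u v, G.Adj u v → R (f u) (f v)} → (α → V)) Subtype.val_injective
  simpa using this

/-! The small target on which a spider beats the path on nine vertices. -/

def w : Fin 5 → ℕ := ![28, 1, 1, 5, 15]

abbrev V2 : Type := Σ i : Fin 5, Fin (w i)

def A (i j : Fin 5) : ℕ := if i.val + 1 = j.val ∨ j.val + 1 = i.val then 1 else 0

def R2 (x y : V2) : Prop := x.1.val + 1 = y.1.val ∨ y.1.val + 1 = x.1.val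

instance : DecidableRel R2 := fun x y =>
  inferInstanceAs (Decidable (x.1.val + 1 = y.1.val ∨ y.1.val + 1 = x.1.val))

def st (g : Fin 5 → ℕ) (i : Fin 5) : ℕ := ∑ j, w j * (A i j * g j)

theorem sumV (g : Fin 5 → ℕ) : ∑ y : V2, g y.1 = ∑ j, w j * g j := by
  simp [Fintype.sum_sigma]

theorem stV (g : Fin 5 → ℕ) (i : Fin 5) : ∑ y : V2, A i y.1 * g y.1 = st g i :=
  sumV (fun j => A i j * g j)

theorem sum_succ {V : Type} [Fintype V] {n : ℕ} (F : (Fin (n + 1) → V) → ℕ) :
    ∑ f, F f = ∑ x, ∑ g : Fin n → V, F (Matrix.vecCons x g) := by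
  rw [← Fintype.sum_prod_type']
  exact (Fintype.sum_equiv (Fin.consEquiv (fun _ => V)) _ _ (fun _ => rfl)).symm

theorem hom_eq_sum {α V : Type} [Fintype α] [DecidableEq α] [Fintype V] (G : SimpleGraph α)
    (R : V → V → Prop) (F : (α → V) → ℕ)
    (h1 : ∀ f, (∀ u v, G.Adj u v → R (f u) (f v)) → F f = 1)
    (h0 : ∀ f, ¬ (∀ u v, G.Adj u v → R (f u) (f v)) → F f = 0) : hom G R = ∑ f, F f := by
  classical
  unfold hom
  rw [Nat.card_eq_fintype_card, Fintype.card_subtype, card_filter]
  apply sum_congr rfl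
  intro f _
  split_ifs with h
  · exact (h1 f h).symm
  · exact (h0 f h).symm

theorem A_one {x y : V2} (h : R2 x y) : A x.1 y.1 = 1 := if_pos h

theorem A_ne {x y : V2} (h : A x.1 y.1 ≠ 0) : R2 x y := by
  by_contra hc
  exact h (if_neg hc)

theorem R2_symm {x y : V2} (h : R2 x y) : R2 y x := Or.symm h

def one : Fin 5 → ℕ := fun _ => 1

theorem s1 : st one = ![1, 29, 6, 16, 5] := by decide +kernel
theorem s2 : st (st one) = ![29, 34, 109, 81, 80] := by rw [s1]; decide +kernel
theorem s3 : st (st (st one)) = ![34, 921, 439, 1309, 405] := by rw [s2]; decide +kernel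
theorem s4 : st (st (st (st one))) = ![921, 1391, 7466, 6514, 6545] := by rw [s3]; decide +kernel
theorem s5 : st (st (st (st (st one)))) = ![1391, 33254, 33961, 105641, 32570] := by rw [s4]; decide +kernel
theorem s6 : st (st (st (st (st (st one))))) = ![33254, 72909, 561459, 522511, 528205] := by rw [s5]; decide +kernel
theorem s7 : st (st (st (st (st (st (st one)))))) = ![72909, 1492571, 2685464, 8484534, 2612555] := by rw [s6]; decide +kernel
theorem s8 : st (st (st (st (st (st (st (st one))))))) = ![1492571, 4726916, 43915241, 41873789, 42422670] := by rw [s7]; decide +kernel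

theorem path9 : hom (pathGraph 9) R2 = 936143140 := by
  rw [hom_eq_sum (pathGraph 9) R2 (fun f => A (f 0).1 (f 1).1 * (A (f 1).1 (f 2).1 * (A (f 2).1 (f 3).1 *
    (A (f 3).1 (f 4).1 * (A (f 4).1 (f 5).1 * (A (f 5).1 (f 6).1 * (A (f 6).1 (f 7).1 *
    (A (f 7).1 (f 8).1 * one (f 8).1))))))))]
  · simp only [sum_succ, Fintype.sum_unique, Matrix.cons_val, ← Finset.mul_sum, stV]
    rw [sumV, s8]
    decide +kernel
  · intro f hf
    rw [A_one (hf 0 1 (by simp [pathGraph_adj])), A_one (hf 1 2 (by simp [pathGraph_adj])),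
      A_one (hf 2 3 (by simp [pathGraph_adj])), A_one (hf 3 4 (by simp [pathGraph_adj])),
      A_one (hf 4 5 (by simp [pathGraph_adj])), A_one (hf 5 6 (by simp [pathGraph_adj])),
      A_one (hf 6 7 (by simp [pathGraph_adj])), A_one (hf 7 8 (by simp [pathGraph_adj]))]
    rfl
  · intro f hf
    by_contra hc
    apply hf
    simp only [mul_eq_zero, not_or] at hc
    obtain ⟨h0, h1, h2, h3, h4, h5, h6, h7, -⟩ := hc
    have h0 := A_ne h0
    have h1 := A_ne h1
    have h2 := A_ne h2
    have h3 := A_ne h3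
    have h4 := A_ne h4
    have h5 := A_ne h5
    have h6 := A_ne h6
    have h7 := A_ne h7
    intro u v huv
    rw [pathGraph_adj] at huv
    fin_cases u <;> fin_cases v <;> first | (exfalso; revert huv; decide) | assumption | (apply R2_symm; assumption)

def ES : List (ℕ × ℕ) := [(0,1),(0,2),(2,3),(0,4),(4,5),(5,6),(6,7),(7,8)]

def sp : SimpleGraph (Fin 9) where
  Adj u v := (u.val, v.val) ∈ ES ∨ (v.val, u.val) ∈ ES
  symm := ⟨fun _ _ h => h.symm⟩
  loopless := ⟨by decide⟩

instance : DecidableRel sp.Adj := fun u v =>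
  inferInstanceAs (Decidable ((u.val, v.val) ∈ ES ∨ (v.val, u.val) ∈ ES))

theorem sp_tree : sp.IsTree := by
  rw [isTree_iff_connected_and_card]
  refine ⟨by decide, ?_⟩
  rw [Nat.card_eq_fintype_card, Nat.card_eq_fintype_card, ← edgeFinset_card]
  decide

theorem sp9 : hom sp R2 = 936102110 := by
  rw [hom_eq_sum sp R2 (fun f => (A (f 0).1 (f 1).1 * one (f 1).1) *
    ((A (f 0).1 (f 2).1 * (A (f 2).1 (f 3).1 * one (f 3).1)) *
    (A (f 0).1 (f 4).1 * (A (f 4).1 (f 5).1 * (A (f 5).1 (f 6).1 * (A (f 6).1 (f 7).1 *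
    (A (f 7).1 (f 8).1 * one (f 8).1)))))))]
  · simp only [sum_succ, Fintype.sum_unique, Matrix.cons_val, ← Finset.mul_sum, ← Finset.sum_mul, stV]
    rw [sumV (fun i => st one i * (st (st one) i * st (st (st (st (st one)))) i)), s5, s2, s1]
    decide +kernel
  · intro f hf
    rw [A_one (hf 0 1 (by decide)), A_one (hf 0 2 (by decide)),
      A_one (hf 2 3 (by decide)), A_one (hf 0 4 (by decide)),
      A_one (hf 4 5 (by decide)), A_one (hf 5 6 (by decide)),
      A_one (hf 6 7 (by decide)), A_one (hf 7 8 (by decide))]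
    rfl
  · intro f hf
    by_contra hc
    apply hf
    simp only [mul_eq_zero, not_or] at hc
    obtain ⟨⟨h0, -⟩, ⟨h1, h2, -⟩, h3, h4, h5, h6, h7, -⟩ := hc
    have h0 := A_ne h0
    have h1 := A_ne h1
    have h2 := A_ne h2
    have h3 := A_ne h3
    have h4 := A_ne h4
    have h5 := A_ne h5
    have h6 := A_ne h6
    have h7 := A_ne h7
    intro u v huv
    fin_cases u <;> fin_cases v <;> first | (exfalso; revert huv; decide) | assumption | (apply R2_symm; assumption)

def R1 (a b : Bool × Fin 100) : Prop := ¬ (a.1 = true ∧ b.1 = true)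

theorem cardV2 : Fintype.card V2 = 50 := by decide +kernel

theorem result :
    ∃ (V : Type) (_ : Finite V) (R : V → V → Prop),
      (∀ a b, R a b → R b a) ∧
      ∃ α β : ℕ, α < β ∧
        (∃ T : SimpleGraph (Fin α), T.IsTree ∧
          Nat.card {f : Fin α → V // ∀ u v, T.Adj u v → R (f u) (f v)} <
            Nat.card {f : Fin α → V //
              ∀ u v, (SimpleGraph.pathGraph α).Adj u v → R (f u) (f v)}) ∧
        ∀ n : ℕ, β ≤ n → ∀ T : SimpleGraph (Fin n), T.IsTree →
          Nat.card {f : Fin n → V //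
              ∀ u v, (SimpleGraph.pathGraph n).Adj u v → R (f u) (f v)} ≤
            Nat.card {f : Fin n → V // ∀ u v, T.Adj u v → R (f u) (f v)} := by
  classical
  obtain ⟨N, hN⟩ : ∃ N, N = hom sp R1 + 1 := ⟨_, rfl⟩
  refine ⟨(Bool × Fin 100) ⊕ (Fin N × V2), inferInstance,
    Sum.LiftRel R1 (fun a b : Fin N × V2 => a.1 = b.1 ∧ R2 a.2 b.2), ?_, 9, N + 10, by omega,
    ⟨sp, sp_tree, ?_⟩, ?_⟩
  · intro a b h
    cases h with
    | inl h => exact Sum.LiftRel.inl (fun h' => h h'.symm)
    | inr h => exact Sum.LiftRel.inr ⟨h.1.symm, R2_symm h.2⟩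
  · change hom sp _ < hom (pathGraph 9) _
    rw [hom_sum sp_tree.connected, hom_sum (pathGraph_connected 8), hom_copies sp_tree.connected,
      hom_copies (pathGraph_connected 8), path9, sp9]
    omega
  · intro n hn T hT
    change hom (pathGraph n) _ ≤ hom T _
    by_cases hdeg : ∀ w a b c, T.Adj w a → T.Adj w b → T.Adj w c → a = b ∨ a = c ∨ b = c
    · obtain ⟨d, hd, h⟩ := exists_hom_path hT hdeg
      exact hom_le_of_surj _ d hd.2 h
    push Not at hdeg
    obtain ⟨w, a, b, c, ha, hb, hc, hab, hac, hbc⟩ := hdeg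
    obtain ⟨k, rfl⟩ : ∃ k, n = k + 1 := ⟨n - 1, by omega⟩
    rw [hom_sum hT.connected, hom_sum (pathGraph_connected k), hom_copies hT.connected,
      hom_copies (pathGraph_connected k)]
    have h1 := hom_blow T (fun a b : Bool => ¬ (a = true ∧ b = true)) 100
    have h2 := hom_blow (pathGraph (k + 1)) (fun a b : Bool => ¬ (a = true ∧ b = true)) 100
    rw [hom_ind, Fintype.card_fin] at h1 h2
    have h3 := tree_strict T hT w a b c ha hb hc hab hac hbc
    have h4 := I_path (k + 1) (k + 1) le_rfl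
    rw [filter_true_of_mem (fun i _ => i.isLt)] at h4
    rw [Fintype.card_fin] at h3
    have h5 := hom_le_pow (pathGraph (k + 1)) R2
    rw [cardV2, Fintype.card_fin] at h5
    have h6 : N ≤ 2 ^ (k + 1) := le_trans (by omega) (Nat.lt_two_pow_self (n := k + 1)).le
    have h7 : N * hom (pathGraph (k + 1)) R2 ≤ 100 ^ (k + 1) := by
      calc N * hom (pathGraph (k + 1)) R2 ≤ 2 ^ (k + 1) * 50 ^ (k + 1) := Nat.mul_le_mul h6 h5
        _ = 100 ^ (k + 1) := by rw [← mul_pow]; norm_num
    have h8 : (I (pathGraph (k + 1)) univ + 1) * 100 ^ (k + 1) ≤ I T univ * 100 ^ (k + 1) :=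
      Nat.mul_le_mul_right _ (by omega)
    have e1 : hom T R1 = I T univ * 100 ^ (k + 1) := h1
    have e2 : hom (pathGraph (k + 1)) R1 = I (pathGraph (k + 1)) univ * 100 ^ (k + 1) := h2
    rw [e1, e2]
    rw [add_mul, one_mul] at h8
    omega

end Pool.Agent.S10425
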