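import Pool.Statements.S10454
import Pool.Agent.H.MP_9fba86_co.A

set_option autoImplicit false
open Pool Pool.MP_9fba86_co

namespace Pool.Agent.S10454

theorem result :
    ¬ (∃ d : ℕ, ∀ (V : Type) [Fintype V] (G : SimpleGraph V),
      G.Connected →
      3 ≤ Fintype.card V →
      (∀ v : V, (G.induce {w : V | w ≠ v}).Connected) →
      Odd (Fintype.card V) →
      (∀ v : V, d ≤ (G.neighborSet v).ncard) →
      ∃ c : Sym2 V → Fin 3, ∀ (v : V) (i : Fin 3),
        {w : V | G.Adj v w ∧ c s(v, w) = i}.ncard = 0 ∨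
          Odd {w : V | G.Adj v w ∧ c s(v, w) = i}.ncard) := by
  rintro ⟨d, hd⟩
  have hc : Fintype.card (Fin 3 × Option (Fin (2 * (d + 1)))) = 3 * (2 * (d + 1) + 1) := by simp
  have hq : (⟨0, by omega⟩ : Fin (2 * (d + 1))) ≠ ⟨1, by omega⟩ := by simp
  obtain ⟨c, h⟩ := hd (Fin 3 × Option (Fin (2 * (d + 1))))
    (Pool.Agent.H.MP_9fba86_co.gr _)
    ((SimpleGraph.induceUnivIso _).connected_iff.1
      (Pool.Agent.H.MP_9fba86_co.conn _ _ hq Set.univ (fun v w hv => absurd trivial hv)))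
    (by omega)
    (fun v => Pool.Agent.H.MP_9fba86_co.conn _ _ hq _ (fun a b ha hb => by
      rw [not_not.1 ha, not_not.1 hb]))
    (by rw [hc]; exact ⟨3 * d + 4, by ring⟩)
    (fun v => by
      have := Pool.Agent.H.MP_9fba86_co.mindeg v
      rw [Fintype.card_fin] at this
      omega)
  exact Pool.Agent.H.MP_9fba86_co.bad (by simp) (by simp) c h

end Pool.Agent.S10454
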