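import Pool.Statements.S10486
import Pool.Agent.H.MP_a14c6f_co.G

set_option autoImplicit false
open Pool Pool.MP_a14c6f_co

namespace Pool.Agent.S10486

open Pool.Agent.H.MP_a14c6f_co Set ComplexConjugate

lemma exp_ze : Complex.exp (((Real.pi / 3 : ℝ) : ℂ) * Complex.I) = ze := by
  rw [Complex.exp_mul_I, ← Complex.ofReal_cos, ← Complex.ofReal_sin, Real.cos_pi_div_three,
    Real.sin_pi_div_three]
  apply Complex.ext <;> simp [ze]

theorem result :
    ¬ (∀ T : Set ℂ,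
    Nonempty (T ≃ₜ Metric.closedBall (0 : ℂ) 1) →
    (∃ c : ℂ, (fun z : ℂ => c + Complex.exp (((Real.pi / 3 : ℝ) : ℂ) * Complex.I) * (z - c)) '' T = T) →
    (∃ a w : ℂ, ‖w‖ = 1 ∧ (fun z : ℂ => a + w * (starRingEnd ℂ) (z - a)) '' T = T) →
    (∃ g : ℕ → (ℂ ≃ᵢ ℂ), (⋃ i, (g i) '' T) = Set.univ ∧
        Pairwise (fun i j => Disjoint (interior ((g i) '' T)) (interior ((g j) '' T)))) →
    ∃ m : ℕ, 1 ≤ m ∧ ∃ (ρ : ℝ) (c w : Fin m → ℂ), 0 < ρ ∧ (∀ i, ‖w i‖ = ρ) ∧
      Pairwise (fun i j =>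
        Disjoint
          (interior (convexHull ℝ (Set.range (fun k : Fin 6 =>
            c i + w i * Complex.exp (((k : ℕ) : ℂ) * ((Real.pi / 3 : ℝ) : ℂ) * Complex.I)))))
          (interior (convexHull ℝ (Set.range (fun k : Fin 6 =>
            c j + w j * Complex.exp (((k : ℕ) : ℂ) * ((Real.pi / 3 : ℝ) : ℂ) * Complex.I)))))) ∧
      T = ⋃ i, convexHull ℝ (Set.range (fun k : Fin 6 =>
            c i + w i * Complex.exp (((k : ℕ) : ℂ) * ((Real.pi / 3 : ℝ) : ℂ) * Complex.I)))) := by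
  intro hh
  obtain ⟨B, Φ, hB, hN, h1, h2, ⟨C, h3⟩, ⟨w, hw, h4⟩, h5⟩ := limit
  have inv : ∀ z : ℂ, w * conj (w * conj z) = z := fun z => by
    rw [map_mul, Complex.conj_conj, ← mul_assoc, Complex.mul_conj, Complex.normSq_eq_norm_sq, hw]
    simp
  have big : ∀ z : ℂ, 2 < ‖z‖ → 1 < N z := fun z hz => by linarith [norm_le_N z]
  have mir : (fun z => w * conj z) '' (Φ '' {z | 1 < N z}) ⊆ Φ '' {z | 1 < N z} := by
    refine IsPreconnected.subset_left_of_subset_union (v := Φ '' {z | N z < 1})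
      (Φ.isOpenMap _ (isOpen_lt continuous_const N_cont))
      (Φ.isOpenMap _ (isOpen_lt N_cont continuous_const))
      ((disjoint_image_iff Φ.injective).2 (disjoint_left.2 fun z (a : 1 < N z) (b : N z < 1) => by
        linarith)) ?_ ?_ ((ext_conn.image _ Φ.continuous.continuousOn).image _ (by fun_prop))
    · rintro _ ⟨_, ⟨x, hx, rfl⟩, rfl⟩
      obtain ⟨y, hy⟩ := Φ.surjective (w * conj (Φ x))
      rcases lt_trichotomy 1 (N y) with h | h | h
      · exact Or.inl ⟨y, h, hy⟩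
      · obtain ⟨t, ht, e⟩ := h4 y h.symm
        rw [hy, inv] at e
        rw [Φ.injective e] at ht
        exact absurd ht (ne_of_gt hx)
      · exact Or.inr ⟨y, h, hy⟩
    · have C0 : 0 ≤ C := (norm_nonneg _).trans (h3 0)
      have e : ‖((2 * C + 3 : ℝ) : ℂ)‖ = 2 * C + 3 := by
        rw [Complex.norm_real, Real.norm_of_nonneg (by linarith)]
      generalize ((2 * C + 3 : ℝ) : ℂ) = x at e
      obtain ⟨y, hy⟩ := Φ.surjective (w * conj (Φ x))
      refine ⟨_, ⟨_, ⟨x, big x (by linarith), rfl⟩, rfl⟩, y, big y ?_, hy⟩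
      have k : ‖Φ y‖ = ‖Φ x‖ := by rw [hy, norm_mul, hw, one_mul, Complex.norm_conj]
      linarith [norm_sub_norm_le (Φ y) y, h3 y, h3 x, norm_sub_norm_le x (Φ x),
        norm_sub_rev x (Φ x)]
  have mir2 : ∀ z ∈ Φ '' Hx, w * conj z ∈ Φ '' Hx := by
    rintro _ ⟨x, hx, rfl⟩
    obtain ⟨y, hy⟩ := Φ.surjective (w * conj (Φ x))
    refine ⟨y, (not_lt (a := 1) (b := N y)).1 fun h => ?_, hy⟩
    obtain ⟨t, ht, e⟩ := mir ⟨_, ⟨y, h, rfl⟩, rfl⟩
    beta_reduce at e
    rw [hy, inv] at e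
    rw [Φ.injective e] at ht
    exact absurd (show N x ≤ 1 from hx) (not_le.2 ht)
  set en := (Denumerable.eqv (ℤ × ℤ)).symm
  set l : ℕ → ℂ := fun i => (((en i).1 + 3 * (en i).2 : ℤ) : ℂ) + ((en i).1 : ℤ) * ze with hl
  have lL : ∀ i, IsL (l i) := fun i => ⟨_, _, by omega, rfl⟩
  obtain ⟨m, -, ρ, c, v, ρ0, hv, -, hT⟩ := hh (Φ '' Hx) (by
      obtain ⟨h, -, k, -⟩ := exists_homeomorph_image_interior_closure_frontier_eq_unitBall H_conv
        ⟨0, by rw [H_int]; simpa using N_mul le_rfl 0 |>.trans_lt (by simp)⟩ H_cpt.isBounded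
      rw [H_closed.closure_eq] at k
      exact ⟨(Φ.image Hx).symm.trans ((h.image Hx).trans (Homeomorph.setCongr k))⟩)
    ⟨0, by
      simp only [exp_ze, zero_add, sub_zero]
      ext z
      constructor
      · rintro ⟨_, ⟨x, hx, rfl⟩, rfl⟩
        exact ⟨ze * x, (N_ze x).trans_le hx, h2 x⟩
      · rintro ⟨x, hx, rfl⟩
        refine ⟨_, ⟨ze ^ 5 * x, (N_pow 5 x).trans_le hx, rfl⟩, ?_⟩
        beta_reduce
        rw [← h2, ← mul_assoc, ← pow_succ', z6, one_mul]⟩
    ⟨0, w, hw, by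
      simp only [zero_add, sub_zero]
      exact subset_antisymm (by rintro _ ⟨z, hz, rfl⟩; exact mir2 z hz)
        fun z hz => ⟨_, mir2 z hz, inv z⟩⟩
    ⟨fun i => IsometryEquiv.addRight (l i), by
      refine eq_univ_of_forall fun z => ?_
      obtain ⟨x, rfl⟩ := Φ.surjective z
      obtain ⟨a, b, hab, k⟩ := cover x
      have e : l (en.symm (b, (a - b) / 3)) = a + b * ze := by
        simp only [hl, Equiv.apply_symm_apply]
        rw [show b + 3 * ((a - b) / 3) = a by omega]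
      refine mem_iUnion.2 ⟨en.symm (b, (a - b) / 3), _, ⟨_, k, rfl⟩, ?_⟩
      simp only [IsometryEquiv.addRight_apply]
      rw [← h1 _ (lL _), e, sub_add_cancel], by
      have e : ∀ i, interior (IsometryEquiv.addRight (l i) '' (Φ '' Hx)) =
          (fun x => Φ (x + l i)) '' {z | N z < 1} := fun i => by
        rw [← H_int]
        refine Eq.trans ?_ (((Homeomorph.addRight (l i)).trans Φ).image_interior Hx).symm
        rw [image_image]
        simp [h1 _ (lL i)]
      intro i j hij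
      rw [e, e, disjoint_left]
      rintro _ ⟨x, hx : N x < 1, rfl⟩ ⟨y, hy : N y < 1, k⟩
      have k1 := N_add y (ze ^ 3 * x)
      rw [N_pow, z3, show y + -1 * x = (((en i).1 + 3 * (en i).2 - ((en j).1 + 3 * (en j).2) : ℤ) : ℂ)
        + (((en i).1 - (en j).1 : ℤ) : ℂ) * ze by
          have := Φ.injective k
          simp only [hl] at this
          push_cast at this ⊢
          linear_combination this] at k1
      have := sep (by omega) (k1.trans_lt (by linarith))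
      exact hij (en.injective (Prod.ext (by omega) (by omega)))⟩
  have ex : ∀ k : ℕ, Complex.exp ((k : ℂ) * ((Real.pi / 3 : ℝ) : ℂ) * Complex.I) = ze ^ k :=
    fun k => by rw [mul_assoc, Complex.exp_nat_mul, exp_ze]
  simp only [ex] at hT
  have v0 : ∀ i, v i ≠ 0 := fun i h => by have := hv i; rw [h, norm_zero] at this; linarith
  obtain ⟨⟨i, k⟩, s, hs⟩ := nonempty_interior_of_iUnion_of_closed (f := fun i : Fin m × Fin 6 =>
    {s : ℝ | al ((Φ (B s) - c i.1) * (v i.1 * ze ^ (i.2 : ℕ))⁻¹) +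
      be ((Φ (B s) - c i.1) * (v i.1 * ze ^ (i.2 : ℕ))⁻¹) = 1})
    (fun i => isClosed_eq (by have := al_cont; have := be_cont; fun_prop) continuous_const) (by
      refine eq_univ_of_forall fun s => ?_
      have a1 : Φ (B s) ∈ Φ '' Hx := ⟨_, (hN s).le, rfl⟩
      have a2 : Φ (B s) ∉ interior (Φ '' Hx) := by
        rw [← Φ.image_interior, H_int, Φ.injective.mem_set_image]
        exact (hN s).not_lt
      rw [hT] at a1 a2
      obtain ⟨i, hi⟩ := mem_iUnion.1 a1
      obtain ⟨k, hk⟩ := hexline (v0 i) hi fun h => a2 (interior_mono (subset_iUnion _ i) h)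
      exact mem_iUnion.2 ⟨(i, k), hk⟩)
  obtain ⟨a, b, hab, hsub⟩ := mem_nhds_iff_exists_Ioo_subset.1 (mem_interior_iff_mem_nhds.1 hs)
  obtain ⟨t, t1, t2⟩ := exists_between hab.2
  have sub := (Icc_subset_Ioo hab.1 t2).trans hsub
  obtain ⟨x, hx, y, hy, z, hz, hne⟩ := h5 s t t1
  exact hne (colin (inv_ne_zero (mul_ne_zero (v0 i) (pow_ne_zero _ ze_ne))) (sub hx) (sub hy)
    (sub hz))

end Pool.Agent.S10486
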