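import Pool.Statements.S10509
import Mathlib
import Pool.Agent.H.MP_a20e8c_co.Main

set_option autoImplicit false
open Pool Pool.MP_a20e8c_co

namespace Pool.Agent.S10509

/-- For every finite connected graph not on exactly two vertices (i.e. not K2), the metric dimension and the edge metric dimension differ by at most the cyclomatic number, edges minus vertices plus one. -/
theorem result :
  ∀ (V : Type) [Fintype V] [DecidableEq V] (G : SimpleGraph V) [DecidableRel G.Adj],
    G.Connected → Fintype.card V ≠ 2 →
    |((sInf {k : ℕ | ∃ S : Finset V, S.card = k ∧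
          ∀ u v : V, u ≠ v → ∃ w ∈ S, G.dist u w ≠ G.dist v w} : ℕ) : ℤ)
      - ((sInf {k : ℕ | ∃ S : Finset V, S.card = k ∧
          ∀ a b c d : V, G.Adj a b → G.Adj c d → s(a, b) ≠ s(c, d) →
            ∃ w ∈ S, min (G.dist a w) (G.dist b w) ≠ min (G.dist c w) (G.dist d w)} : ℕ) : ℤ)|
      ≤ (G.edgeFinset.card : ℤ) - (Fintype.card V : ℤ) + 1 := by
  intro V _ _ G _ hc h2
  exact Pool.Agent.H.MP_a20e8c_co.main V G hc h2

end Pool.Agent.S10509
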