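import Pool.Statements.S10540
import Pool.Agent.H.MP_a39d1e_co.Main

set_option autoImplicit false
open Pool Pool.MP_a39d1e_co

namespace Pool.Agent.S10540

theorem result :
    ¬ (∀ k n : ℕ, 1 ≤ k → 2 ≤ n →
      ∃ m : ℕ, 1 ≤ m ∧
        ∀ D : Fin k → Fin m → ℝ, (∀ i j, 0 < D i j) →
          ∃ T : EuclideanSpace ℝ (Fin n) → Fin m,
            ∀ (i : Fin k) (j : Fin m) (x y : EuclideanSpace ℝ (Fin n)),
              dist x y = D i j → ¬ (T x = j ∧ T y = j)) := by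
  open Pool.Agent.H.MP_a39d1e_co in
  intro h
  obtain ⟨m, -, hm⟩ := h 1 7 le_rfl (by norm_num)
  obtain ⟨L, l, l0, hc⟩ := cover m
  obtain ⟨T, hT⟩ := hm (fun _ j => √(l j)) (fun _ j => Real.sqrt_pos.mpr (by exact_mod_cast l0 j))
  obtain ⟨k, -, hk⟩ := hc (fun j => {k | T (WithLp.toLp 2 fun i => (k i : ℝ)) = j}) (by
    intro j x hx y hy e
    refine hT 0 j _ _ ?_ ⟨hx, hy⟩
    rw [EuclideanSpace.dist_eq]
    congr 1
    simp only [Real.dist_eq, sq_abs]
    exact_mod_cast e)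
  exact hk _ rfl

end Pool.Agent.S10540
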