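import Pool.Statements.S10582
-- import your own Pool.Agent.* helpers here

set_option autoImplicit false
open Pool Pool.MP_a55b46_co

namespace Pool.Agent.S10582

def adjB (a b : ℕ) : Bool :=
  if a < 16 then (if b < 16 then a != b else (a + 10 * (b - 16)) % 16 < 6)
  else (if b < 16 then (b + 10 * (a - 16)) % 16 < 6 else false)

theorem adjB_symm : ∀ a b : Fin 40, adjB a.val b.val = true → adjB b.val a.val = true := by
  decide +kernel

def G : SimpleGraph (Fin 40) where
  Adj a b := adjB a.val b.val = true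
  symm := ⟨adjB_symm⟩
  loopless := by constructor; decide +kernel

instance : DecidableRel G.Adj := fun a b => inferInstanceAs (Decidable (adjB a.val b.val = true))

def NW (w : Fin 40) : Finset (Fin 40) := Finset.univ.filter fun x => x = w ∨ G.Adj w x
def NV (v : Fin 40) : Finset (Fin 40) := Finset.univ.filter fun x => ¬ G.Adj v x
def KK : Finset (Fin 40) := Finset.univ.filter fun x => x.val < 16
def WW : Finset (Fin 40) := Finset.univ.filter fun x => ¬ x.val < 16

theorem NW_card : ∀ w : Fin 40, ¬ w.val < 16 → 6 < (NW w).card := by decide +kernel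
theorem NV_card : ∀ v : Fin 40, v.val < 16 → 15 < (NV v).card := by decide +kernel
theorem KK_card : 6 < KK.card := by decide +kernel
theorem WW_card : 15 < WW.card := by decide +kernel
theorem KK_cl : ∀ x : Fin 40, x.val < 16 → ∀ y : Fin 40, y.val < 16 → x ≠ y → G.Adj x y := by
  decide +kernel
theorem WW_in : ∀ x : Fin 40, ¬ x.val < 16 → ∀ y : Fin 40, ¬ y.val < 16 → ¬ G.Adj x y := by
  decide +kernel

theorem NW_cl (w : Fin 40) (hw : ¬ w.val < 16) (x : Fin 40) (hx : x = w ∨ G.Adj w x)
    (y : Fin 40) (hy : y = w ∨ G.Adj w y) (hxy : x ≠ y) : G.Adj x y := by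
  rcases hx with rfl | hx <;> rcases hy with rfl | hy
  · exact absurd rfl hxy
  · exact hy
  · exact hx.symm
  · refine KK_cl x ?_ y ?_ hxy
    · by_contra h; exact WW_in w hw x h hx
    · by_contra h; exact WW_in w hw y h hy

theorem NV_in (v : Fin 40) (hv : v.val < 16) (x : Fin 40) (hx : ¬ G.Adj v x)
    (y : Fin 40) (hy : ¬ G.Adj v y) : ¬ G.Adj x y := by
  by_cases h1 : v = x
  · rw [← h1]; exact hy
  by_cases h2 : v = y
  · rw [← h2]; exact fun h => hx h.symm
  exact WW_in x (fun h => hx (KK_cl v hv x h h1)) y (fun h => hy (KK_cl v hv y h h2))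

theorem mem_NW (w x : Fin 40) : x ∈ NW w ↔ (x = w ∨ G.Adj w x) := by
  unfold NW; rw [Finset.mem_filter]; exact and_iff_right (Finset.mem_univ _)
theorem mem_NV (v x : Fin 40) : x ∈ NV v ↔ ¬ G.Adj v x := by
  unfold NV; rw [Finset.mem_filter]; exact and_iff_right (Finset.mem_univ _)
theorem mem_KK (x : Fin 40) : x ∈ KK ↔ x.val < 16 := by
  unfold KK; rw [Finset.mem_filter]; exact and_iff_right (Finset.mem_univ _)
theorem mem_WW (x : Fin 40) : x ∈ WW ↔ ¬ x.val < 16 := by
  unfold WW; rw [Finset.mem_filter]; exact and_iff_right (Finset.mem_univ _)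

theorem max_card {V : Type} (P : Finset V → Prop) (s t : Finset V) (hs : Maximal P s) (ht : P t)
    (h : ∀ x ∈ s, x ∈ t) : t.card ≤ s.card := Finset.card_le_card (hs.2 ht h)

theorem cliques (s : Finset (Fin 40))
    (hs : Maximal (fun t : Finset (Fin 40) => G.IsClique (t : Set (Fin 40))) s) : 6 < s.card := by
  by_cases h : ∃ w ∈ s, ¬ w.val < 16
  · obtain ⟨w, hw, hw'⟩ := h
    refine lt_of_lt_of_le (NW_card w hw') (max_card _ s (NW w) hs ?_ ?_)
    · intro x hx y hy hxy
      rw [Finset.mem_coe, mem_NW] at hx hy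
      exact NW_cl w hw' x hx y hy hxy
    · intro x hx
      rw [mem_NW]
      by_cases e : x = w
      · exact Or.inl e
      · exact Or.inr (hs.1 (Finset.mem_coe.2 hw) (Finset.mem_coe.2 hx) (fun h => e h.symm))
  · refine lt_of_lt_of_le KK_card (max_card _ s KK hs ?_ ?_)
    · intro x hx y hy hxy
      rw [Finset.mem_coe, mem_KK] at hx hy
      exact KK_cl x hx y hy hxy
    · intro x hx
      rw [mem_KK]
      by_contra h'
      exact h ⟨x, hx, h'⟩

theorem indeps (s : Finset (Fin 40))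
    (hs : Maximal (fun t : Finset (Fin 40) => G.IsIndepSet (t : Set (Fin 40))) s) :
    15 < s.card := by
  by_cases h : ∃ v ∈ s, v.val < 16
  · obtain ⟨v, hv, hv'⟩ := h
    refine lt_of_lt_of_le (NV_card v hv') (max_card _ s (NV v) hs ?_ ?_)
    · intro x hx y hy _
      rw [Finset.mem_coe, mem_NV] at hx hy
      exact NV_in v hv' x hx y hy
    · intro x hx
      rw [mem_NV]
      by_cases e : v = x
      · rw [e]; exact G.irrefl
      · exact hs.1 (Finset.mem_coe.2 hv) (Finset.mem_coe.2 hx) e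
  · refine lt_of_lt_of_le WW_card (max_card _ s WW hs ?_ ?_)
    · intro x hx y hy _
      rw [Finset.mem_coe, mem_WW] at hx hy
      exact WW_in x hx y hy
    · intro x hx
      rw [mem_WW]
      exact fun hx' => h ⟨x, hx, hx'⟩

theorem side (a b : ℕ) (ha : 0 < a) (hab : a ≤ b) (h1 : a * b ≤ 15) (h2 : 15 ≤ a * (b + 1)) :
    |((2 * 6 : ℕ) : ℤ) - ((7 : ℕ) : ℤ)| ≤ |((a * 6 : ℕ) : ℤ) - (b : ℤ)| := by
  have ha3 : a ≤ 3 := by nlinarith
  have hb : b ≤ 15 := by nlinarith
  interval_cases a <;> interval_cases b <;> simp_all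

theorem result :
    ¬ (∀ ℓ m : ℕ, 2 ≤ ℓ → ℓ < m / 2 →
      ∀ α β : ℕ, (0 < α ∧ α ≤ β ∧ α * β ≤ m ∧ m ≤ α * (β + 1)) →
        (∀ a b : ℕ, 0 < a → a ≤ b → a * b ≤ m → m ≤ a * (b + 1) →
          |((α * ℓ : ℕ) : ℤ) - (β : ℤ)| ≤ |((a * ℓ : ℕ) : ℤ) - (b : ℤ)|) →
        IsLeast
          {n : ℕ | ∃ G : SimpleGraph (Fin n),
            (∀ s : Finset (Fin n),
              Maximal (fun t : Finset (Fin n) => G.IsClique (t : Set (Fin n))) s → ℓ < s.card) ∧
            (∀ s : Finset (Fin n),
              Maximal (fun t : Finset (Fin n) => G.IsIndepSet (t : Set (Fin n))) s → m < s.card)}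
          (ℓ + m + β + α * ℓ + (if m = α * β then 0 else 1))) := by
  intro h
  have h1 := (h 6 15 (by norm_num) (by norm_num) 2 7 (by norm_num) side).2
  have h2 := @h1 40 ⟨G, cliques, indeps⟩
  exact absurd h2 (by decide)

end Pool.Agent.S10582
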