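import Pool.Statements.S10592
import Pool.Agent.Lib.helper7.Brauer

set_option autoImplicit false
open Pool Pool.MP_a5a405_co

namespace Pool.Agent.S10592

theorem result :
    ¬ (∀ (k : ℕ) (a b c : Fin k → ℤ) (n : ℕ),
      (∀ i, a i ≠ 0 ∧ b i ≠ 0 ∧ c i ≠ 0) → 1 ≤ n →
      ((∀ (r : ℕ) (χ : ℤ → Fin r), ∃ (x y w z : Fin k → ℤ) (col : Fin r),
          ∀ i, x i ≠ 0 ∧ y i ≠ 0 ∧ w i ≠ 0 ∧ z i ≠ 0 ∧
            a i * x i + b i * y i = c i * w i * z i ^ n ∧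
            χ (x i) = col ∧ χ (y i) = col ∧ χ (w i) = col ∧ χ (z i) = col) ↔
        ∃ q : ℚ, ∀ i, q ^ n = (a i : ℚ) / (c i : ℚ) ∨ q ^ n = (b i : ℚ) / (c i : ℚ) ∨
          q ^ n = ((a i : ℚ) + (b i : ℚ)) / (c i : ℚ))) := by
  intro h
  have h1 := (h 2 ![1, 1] ![-1, 1] ![3, 2] 1 (by decide) le_rfl).1 ?_
  · obtain ⟨q, hq⟩ := h1
    have a0 := hq 0
    have a1 := hq 1
    simp only [pow_one, Matrix.cons_val_zero, Matrix.cons_val_one] at a0 a1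
    rcases a0 with a0 | a0 | a0 <;> rcases a1 with a1 | a1 | a1 <;> rw [a0] at a1 <;> norm_num at a1
  · intro r χ
    obtain ⟨c, hQ, w, z, w0, z0, hw, hz, hwz⟩ :=
      Pool.Agent.Lib.helper7.Brauer.both (Fin r) (fun n => χ n)
    obtain ⟨y, t, y0, t0, hy, ht, hyt⟩ := hQ (3 * w)
    have p1 : 0 < y + 3 * w * t := by positivity
    have p2 : 0 < w * z := by positivity
    refine ⟨![((y + 3 * w * t : ℕ) : ℤ), ((w * z : ℕ) : ℤ)], ![y, ((w * z : ℕ) : ℤ)], ![w, w],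
      ![t, z], c, fun i => ?_⟩
    fin_cases i
    · refine ⟨Int.natCast_ne_zero.2 p1.ne', Int.natCast_ne_zero.2 y0.ne',
        Int.natCast_ne_zero.2 w0.ne', Int.natCast_ne_zero.2 t0.ne', ?_, hyt, hy, hw, ht⟩
      simp
    · refine ⟨Int.natCast_ne_zero.2 p2.ne', Int.natCast_ne_zero.2 p2.ne',
        Int.natCast_ne_zero.2 w0.ne', Int.natCast_ne_zero.2 z0.ne', ?_, hwz, hwz, hw, hz⟩
      simp; ring

end Pool.Agent.S10592
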