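import Pool.Statements.S10606

set_option autoImplicit false
open Finset
open Pool Pool.MP_a60f11_co

namespace Pool.Agent.S10606

def G (a b c : Fin 4) : Bool :=
  Nat.testBit 13907059569945755868 (16 * a.val + 4 * b.val + c.val)

def Q (y : Fin 4 → Fin 4) : Prop := G (y 0) (y 1) (y 2) = true ∧ ¬ G (y 1) (y 2) (y 3) = true

instance : DecidablePred Q := fun y => by unfold Q; infer_instance

theorem cardQ : #{y : Fin 4 → Fin 4 | Q y} = 97 := by decide +kernel

theorem count {n : ℕ} (g : Fin 4 → Fin n) (hg : Function.Injective g) :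
    256 * #{x : Fin n → Fin 4 | Q (x ∘ g)} = 97 * 4 ^ n := by
  classical
  let φ : (Fin n → Fin 4) →+ (Fin 4 → Fin 4) :=
    { toFun := fun x => x ∘ g, map_zero' := rfl, map_add' := fun _ _ => rfl }
  have hs : Function.Surjective φ := hg.surjective_comp_right
  have hf : ∀ y, #{x | φ x = y} = #{x | φ x = 0} := fun y =>
    AddMonoidHom.card_fiber_eq_of_mem_range φ (hs y) (hs 0)
  have h1 : #(univ : Finset (Fin n → Fin 4)) = ∑ y : Fin 4 → Fin 4, #{x | φ x = y} :=
    card_eq_sum_card_fiberwise (f := φ) (fun _ _ => mem_univ _)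
  have h2 : #{x : Fin n → Fin 4 | Q (x ∘ g)} =
      ∑ y ∈ ({y | Q y} : Finset (Fin 4 → Fin 4)), #{x | φ x = y} := by
    rw [card_eq_sum_card_fiberwise (f := φ) (t := ({y | Q y} : Finset (Fin 4 → Fin 4)))
      (s := ({x | Q (x ∘ g)} : Finset (Fin n → Fin 4))) (fun x hx => mem_filter.2 ⟨mem_univ _, (mem_filter.1 hx).2⟩)]
    refine sum_congr rfl fun y hy => ?_
    congr 1
    ext x
    simp only [mem_filter, mem_univ, true_and] at hy ⊢
    refine ⟨fun h => h.2, fun h => ⟨?_, h⟩⟩
    rw [← h] at hy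
    exact hy
  simp only [hf, sum_const, smul_eq_mul, cardQ] at h1 h2
  simp only [card_univ, Fintype.card_pi, Fintype.card_fin, prod_const] at h1
  rw [h2, h1]
  ring

open Classical in
noncomputable def om {n : ℕ} (x : Fin n → Fin 4) : Finset (Finset (Fin n)) :=
  {S | ∃ h : Fin 3 → Fin n, StrictMono h ∧ univ.image h = S ∧ G (x (h 0)) (x (h 1)) (x (h 2)) = true}

theorem mem_om {n : ℕ} (x : Fin n → Fin 4) (h : Fin 3 → Fin n) (hh : StrictMono h) :
    univ.image h ∈ om x ↔ G (x (h 0)) (x (h 1)) (x (h 2)) = true := by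
  simp only [om, mem_filter, mem_univ, true_and]
  refine ⟨?_, fun hG => ⟨h, hh, rfl, hG⟩⟩
  rintro ⟨h', hh', e, hG⟩
  have : h' = h := (hh'.range_inj hh).1 (by simpa using congrArg (fun S : Finset (Fin n) => (S : Set (Fin n))) e)
  rwa [← this]

theorem result :
    ¬ ((∀ n : ℕ, 4 ≤ n →
      ∃ p : Finset (Finset (Fin n)) → ℝ,
        (∀ ω, 0 ≤ p ω) ∧ (∑ ω, p ω) = 1 ∧
        ∀ g : Fin 4 → Fin n, StrictMono g →
          (3 / 8 : ℝ) ≤ ∑ ω ∈ Finset.univ.filter
            (fun ω : Finset (Finset (Fin n)) =>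
              (Finset.univ.image (fun i : Fin 3 => g (Fin.castSucc i))) ∈ ω ∧
              (Finset.univ.image (fun i : Fin 3 => g (Fin.succ i))) ∉ ω), p ω) ∧
    (∀ ε : ℝ, 0 < ε →
      ∃ n : ℕ, 4 ≤ n ∧
        ∀ p : Finset (Finset (Fin n)) → ℝ,
          (∀ ω, 0 ≤ p ω) → (∑ ω, p ω) = 1 →
          ∃ g : Fin 4 → Fin n, StrictMono g ∧
            (∑ ω ∈ Finset.univ.filter
              (fun ω : Finset (Finset (Fin n)) =>
                (Finset.univ.image (fun i : Fin 3 => g (Fin.castSucc i))) ∈ ω ∧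
                (Finset.univ.image (fun i : Fin 3 => g (Fin.succ i))) ∉ ω), p ω)
              < 3 / 8 + ε)) := by
  classical
  rintro ⟨-, H⟩
  obtain ⟨n, -, H⟩ := H (1 / 256) (by norm_num)
  have hpos : (0 : ℝ) < 4 ^ n := by positivity
  have key : ∀ P : Finset (Finset (Fin n)) → Prop, ∀ [DecidablePred P],
      ∑ ω ∈ univ.filter P, (#{x : Fin n → Fin 4 | om x = ω} : ℝ) / 4 ^ n =
        (#{x : Fin n → Fin 4 | P (om x)} : ℝ) / 4 ^ n := by
    intro P _
    rw [← sum_div, ← Nat.cast_sum, card_eq_sum_card_fiberwise (f := om) (t := univ.filter P)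
      (s := ({x | P (om x)} : Finset (Fin n → Fin 4))) (fun x hx => by simpa using hx)]
    congr 2
    refine sum_congr rfl fun y hy => ?_
    congr 1
    ext x
    simp only [mem_filter, mem_univ, true_and] at hy ⊢
    refine ⟨fun h => ⟨?_, h⟩, fun h => h.2⟩
    rw [← h] at hy
    exact hy
  obtain ⟨g, hg, hlt⟩ := H (fun ω => (#{x : Fin n → Fin 4 | om x = ω} : ℝ) / 4 ^ n)
    (fun ω => by positivity) (by
      have := key (fun _ => True)
      simp only [filter_true] at this
      rw [this]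
      simp)
  rw [key] at hlt
  have e : ∀ x : Fin n → Fin 4,
      ((Finset.univ.image (fun i : Fin 3 => g (Fin.castSucc i))) ∈ om x ∧
        (Finset.univ.image (fun i : Fin 3 => g (Fin.succ i))) ∉ om x) ↔ Q (x ∘ g) := by
    intro x
    exact and_congr (mem_om x _ (hg.comp Fin.strictMono_castSucc))
      (not_congr (mem_om x _ (hg.comp Fin.strictMono_succ)))
  simp only [e] at hlt
  have hc : (256 * #{x : Fin n → Fin 4 | Q (x ∘ g)} : ℝ) = 97 * 4 ^ n := by
    exact_mod_cast count g hg.injective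
  rw [div_lt_iff₀ hpos] at hlt
  linarith

end Pool.Agent.S10606
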