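import Pool.Statements.S10610
-- import your own Pool.Agent.* helpers here

set_option autoImplicit false
open Pool Pool.MP_a667dc_co

namespace Pool.Agent.S10610

theorem c4 : (((({1, 9, 15, 19, 27, 28, 31, 36} : Finset ℤ).powersetCard (3 + 1)).image
    (fun B => ∑ a ∈ B, a)).card) = 47 := by decide +kernel

theorem c3 : (((({1, 9, 15, 19, 27, 28, 31, 36} : Finset ℤ).powersetCard 3).image
    (fun B => ∑ a ∈ B, a)).card) = 37 := by decide +kernel

theorem c0 : ({1, 9, 15, 19, 27, 28, 31, 36} : Finset ℤ).card = 8 := by decide +kernel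

theorem result :
    ¬ (∀ (A : Finset ℤ) (k : ℕ), 2 * k < A.card →
      (((A.powersetCard (k + 1)).image (fun B => ∑ a ∈ B, a)).card : ℚ) ≤
        (((A.card : ℚ) - k) / ((k : ℚ) + 1)) *
          (((A.powersetCard k).image (fun B => ∑ a ∈ B, a)).card : ℚ)) := by
  intro h
  have h1 := h {1, 9, 15, 19, 27, 28, 31, 36} 3 (by rw [c0]; norm_num)
  rw [c4, c3, c0] at h1
  norm_num at h1

end Pool.Agent.S10610
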