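import Pool.Statements.S10618
import Pool.Agent.H.MP_a6f858_co.C

set_option autoImplicit false
open Pool Pool.MP_a6f858_co

namespace Pool.Agent.S10618

/-- The negation of the preceding statement: For every finite matroid M and every r ≤ n there is a bound B such that every finite matroid having minors isomorphic to M and to U_{r,n}, with no proper minor having both, has at most B elements. -/
theorem result :
    ¬ (∀ (M : Matroid ℕ), M.Finite → ∀ r n : ℕ, r ≤ n →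
      ∃ B : ℕ, ∀ N : Matroid ℕ, N.Finite →
        ((∃ N₁ : Matroid ℕ, Matroid.IsMinor N₁ N ∧
            ∃ f : ℕ → ℕ, Set.BijOn f N₁.E M.E ∧
              ∀ I ⊆ N₁.E, (N₁.Indep I ↔ M.Indep (f '' I))) ∧
         (∃ N₂ : Matroid ℕ, Matroid.IsMinor N₂ N ∧ N₂.E.Finite ∧ N₂.E.ncard = n ∧
              ∀ I ⊆ N₂.E, (N₂.Indep I ↔ I.ncard ≤ r)) ∧
         (∀ N' : Matroid ℕ, Matroid.IsMinor N' N → N' ≠ N →
            ¬ ((∃ N₁ : Matroid ℕ, Matroid.IsMinor N₁ N' ∧
                  ∃ f : ℕ → ℕ, Set.BijOn f N₁.E M.E ∧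
                    ∀ I ⊆ N₁.E, (N₁.Indep I ↔ M.Indep (f '' I))) ∧
               (∃ N₂ : Matroid ℕ, Matroid.IsMinor N₂ N' ∧ N₂.E.Finite ∧ N₂.E.ncard = n ∧
                  ∀ I ⊆ N₂.E, (N₂.Indep I ↔ I.ncard ≤ r))))) →
        N.E.ncard ≤ B) := by
  intro h
  obtain ⟨M, hM, hB⟩ := H.MP_a6f858_co.main
  obtain ⟨B, h⟩ := h M hM 2 4 (by omega)
  obtain ⟨N, h1, h2, h3⟩ := hB B
  exact h3.not_ge (h N h1 h2)

end Pool.Agent.S10618
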