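import Pool.Statements.S10628

set_option autoImplicit false
open Pool Pool.MP_a76d3a_co

namespace Pool.Agent.S10628

abbrev Lf := Fin 2 × Fin 6
abbrev W := Fin 4 ⊕ Lf

def par (l : Lf) : Fin 4 := ⟨l.1.val, by have := l.1.isLt; omega⟩

def r : W → W → Bool
  | .inl a, .inl b => decide (b = a + 1) || decide (a = b + 1)
  | .inl a, .inr l => decide (a = par l)
  | .inr l, .inl a => decide (a = par l)
  | .inr _, .inr _ => false

def s : W → W → Bool
  | .inl a, .inl b => (decide (a = 3) && decide (b = 0)) || (decide (a = 0) && decide (b = 3))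
  | _, _ => false

theorem r_symm : ∀ u v : W, r u v = r v u := by decide +kernel
theorem r_irr : ∀ u : W, r u u = false := by decide +kernel
theorem s_symm : ∀ u v : W, s u v = s v u := by decide +kernel

def G : SimpleGraph W where
  Adj u v := r u v = true
  symm := ⟨fun u v h => by rw [r_symm]; exact h⟩
  loopless := ⟨fun u h => by rw [r_irr] at h; exact Bool.false_ne_true h⟩

def r2 (x y : W × Bool) : Bool := r x.1 y.1 && decide (y.2 = xor x.2 (s x.1 y.1))

theorem r2_symm : ∀ u v : W × Bool, r2 u v = r2 v u := by decide +kernel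
theorem r2_irr : ∀ u : W × Bool, r2 u u = false := by decide +kernel

def H : SimpleGraph (W × Bool) where
  Adj u v := r2 u v = true
  symm := ⟨fun u v h => by rw [r2_symm]; exact h⟩
  loopless := ⟨fun u h => by rw [r2_irr] at h; exact Bool.false_ne_true h⟩

instance : DecidableRel G.Adj := fun u v => inferInstanceAs (Decidable (r u v = true))
instance : DecidableRel H.Adj := fun u v => inferInstanceAs (Decidable (r2 u v = true))

theorem prodEdge {X ι : Type} [Fintype X] [DecidableEq X] [Fintype ι] [DecidableEq ι]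
    (Γ : SimpleGraph X) [DecidableRel Γ.Adj] (a b : ι → X)
    (h1 : ∀ u v, Γ.Adj u v ↔ ∃ i, (a i = u ∧ b i = v) ∨ (a i = v ∧ b i = u))
    (h2 : ∀ i j, ((a i = a j ∧ b i = b j) ∨ (a i = b j ∧ b i = a j)) → i = j)
    (f : Sym2 X → ℕ) : ∏ e ∈ Γ.edgeFinset, f e = ∏ i, f s(a i, b i) := by
  have hE : Γ.edgeFinset = Finset.univ.image (fun i => s(a i, b i)) := by
    ext e
    induction e using Sym2.ind with
    | _ u v =>
      simp only [SimpleGraph.mem_edgeFinset, SimpleGraph.mem_edgeSet, Finset.mem_image,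
        Finset.mem_univ, true_and, Sym2.eq_iff, h1]
  rw [hE, Finset.prod_image]
  intro i _ j _ h
  exact h2 i j (Sym2.eq_iff.mp h)

theorem split {X α β Q : Type} [Fintype X] [DecidableEq X] [Fintype α] [DecidableEq α]
    [Fintype β] [DecidableEq β] [Fintype Q] (e : α ⊕ β ≃ X) (F : (α → Q) → ℕ) (p : β → α)
    (a : Q → Q → ℕ) :
    ∑ φ : X → Q, F (fun t => φ (e (.inl t))) * ∏ l, a (φ (e (.inl (p l)))) (φ (e (.inr l)))
      = ∑ c : α → Q, F c * ∏ l, ∑ j, a (c (p l)) j := by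
  let E : (α → Q) × (β → Q) ≃ (X → Q) :=
    (Equiv.sumArrowEquivProdArrow α β Q).symm.trans (Equiv.arrowCongr e (Equiv.refl Q))
  rw [← Equiv.sum_comp E, Fintype.sum_prod_type]
  refine Finset.sum_congr rfl fun c _ => ?_
  rw [Finset.prod_univ_sum, Fintype.piFinset_univ, Finset.mul_sum]
  refine Finset.sum_congr rfl fun l _ => ?_
  simp [E]

def a (x y : Fin 4) : ℕ :=
  if x.val = 0 then (if y.val = 0 then 0 else if y.val = 1 then 2 else 1)
  else if y.val = 0 then (if x.val = 1 then 2 else 1)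
  else if x.val = y.val then (if x.val = 1 then 11 else 1) else 0

theorem a_symm : ∀ x y, a x y = a y x := by decide +kernel

def AN : Sym2 (Fin 4) → ℕ := Sym2.lift ⟨a, a_symm⟩

def d (x : Fin 4) : ℕ := if x.val = 0 then 4096 else if x.val = 1 then 4826809 else 64

theorem d_eq : ∀ x, (∑ j, a x j) ^ 6 = d x := by decide +kernel

def ea : Fin 4 ⊕ Lf → W
  | .inl t => .inl t
  | .inr l => .inl (par l)

def eb : Fin 4 ⊕ Lf → W
  | .inl t => .inl (t + 1)
  | .inr l => .inr l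

def fa : (Fin 4 × Bool) ⊕ (Lf × Bool) → W × Bool
  | .inl t => (.inl t.1, t.2)
  | .inr l => (.inl (par l.1), l.2)

def nx (t : Fin 4 × Bool) : Fin 4 × Bool := (t.1 + 1, xor t.2 (decide (t.1 = 3)))

def fb : (Fin 4 × Bool) ⊕ (Lf × Bool) → W × Bool
  | .inl t => (.inl (nx t).1, (nx t).2)
  | .inr l => (.inr l.1, l.2)

def E4 : Fin 4 × Fin 4 × Fin 4 × Fin 4 ≃ (Fin 4 → Fin 4) where
  toFun x := ![x.1, x.2.1, x.2.2.1, x.2.2.2]
  invFun c := (c 0, c 1, c 2, c 3)
  left_inv := fun _ => rfl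
  right_inv := fun c => by ext t; fin_cases t <;> rfl

def E8 : (Fin 4 × Fin 4 × Fin 4 × Fin 4) × (Fin 4 × Fin 4 × Fin 4 × Fin 4) ≃
    (Fin 4 × Bool → Fin 4) where
  toFun x := fun t => if t.2 then E4 x.2 t.1 else E4 x.1 t.1
  invFun c := (E4.symm fun t => c (t, false), E4.symm fun t => c (t, true))
  left_inv := fun x => by simp
  right_inv := fun c => by ext ⟨t, b⟩; cases b <;> simp

def w (x : Fin 4 × Fin 4 × Fin 4 × Fin 4) : ℕ :=
  d x.1 * d x.2.1 * (a x.1 x.2.1 * a x.2.1 x.2.2.1 * a x.2.2.1 x.2.2.2)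

theorem ZG : ∑ φ : W → Fin 4, ∏ e ∈ G.edgeFinset, AN (Sym2.map φ e)
    = ∑ x : Fin 4 × Fin 4 × Fin 4 × Fin 4, w x * a x.2.2.2 x.1 := by
  have h : ∀ φ : W → Fin 4, ∏ e ∈ G.edgeFinset, AN (Sym2.map φ e) =
      (∏ t : Fin 4, a (φ (.inl t)) (φ (.inl (t + 1)))) *
        ∏ l : Lf, a (φ (.inl (par l))) (φ (.inr l)) := by
    intro φ
    rw [prodEdge G ea eb (by decide +kernel) (by decide +kernel), Fintype.prod_sum_type]
    rfl
  simp only [h]
  have := split (Equiv.refl W) (fun c : Fin 4 → Fin 4 => ∏ t : Fin 4, a (c t) (c (t + 1))) par a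
  simp only [Equiv.refl_apply] at this
  rw [this, ← Equiv.sum_comp E4]
  refine Finset.sum_congr rfl fun x _ => ?_
  rw [Fintype.prod_prod_type, Fin.prod_univ_four, Fin.prod_univ_two]
  have h0 : ∀ i : Fin 6, par (0, i) = 0 := fun _ => rfl
  have h1 : ∀ i : Fin 6, par (1, i) = 1 := fun _ => rfl
  simp only [h0, h1, Finset.prod_const, Finset.card_univ, Fintype.card_fin, d_eq]
  show a x.1 x.2.1 * a x.2.1 x.2.2.1 * a x.2.2.1 x.2.2.2 * a x.2.2.2 x.1 * (d x.1 * d x.2.1) = _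
  unfold w; ring

set_option synthInstance.maxSize 2000 in
theorem ZH : ∑ φ : W × Bool → Fin 4, ∏ e ∈ H.edgeFinset, AN (Sym2.map φ e)
    = ∑ x : Fin 4 × Fin 4 × Fin 4 × Fin 4, ∑ y : Fin 4 × Fin 4 × Fin 4 × Fin 4,
        w x * a x.2.2.2 y.1 * (w y * a y.2.2.2 x.1) := by
  have h : ∀ φ : W × Bool → Fin 4, ∏ e ∈ H.edgeFinset, AN (Sym2.map φ e) =
      (∏ t : Fin 4 × Bool, a (φ (.inl t.1, t.2)) (φ (.inl (nx t).1, (nx t).2))) *
        ∏ l : Lf × Bool, a (φ (.inl (par l.1), l.2)) (φ (.inr l.1, l.2)) := by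
    intro φ
    rw [prodEdge H fa fb (by decide +kernel) (by decide +kernel), Fintype.prod_sum_type]
    rfl
  simp only [h]
  have := split (Equiv.sumProdDistrib (Fin 4) Lf Bool).symm
    (fun c : Fin 4 × Bool → Fin 4 => ∏ t : Fin 4 × Bool, a (c t) (c (nx t)))
    (fun l : Lf × Bool => (par l.1, l.2)) a
  refine Eq.trans this ?_
  rw [← Equiv.sum_comp E8, Fintype.sum_prod_type]
  refine Finset.sum_congr rfl fun x _ => Finset.sum_congr rfl fun y _ => ?_
  rw [Fintype.prod_prod_type, Fintype.prod_prod_type, Fintype.prod_prod_type, Fin.prod_univ_four,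
    Fin.prod_univ_two]
  have h0 : ∀ i : Fin 6, par (0, i) = 0 := fun _ => rfl
  have h1 : ∀ i : Fin 6, par (1, i) = 1 := fun _ => rfl
  simp only [h0, h1, Fintype.prod_bool, Finset.prod_const, Finset.card_univ, Fintype.card_fin,
    mul_pow, d_eq]
  show a y.1 y.2.1 * a x.1 x.2.1 * (a y.2.1 y.2.2.1 * a x.2.1 x.2.2.1) *
      (a y.2.2.1 y.2.2.2 * a x.2.2.1 x.2.2.2) * (a y.2.2.2 x.1 * a x.2.2.2 y.1) *
      (d y.1 * d x.1 * (d y.2.1 * d x.2.1)) = _
  unfold w; ring

theorem num : (∑ x : Fin 4 × Fin 4 × Fin 4 × Fin 4, w x * a x.2.2.2 x.1) ^ 2 <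
    ∑ x : Fin 4 × Fin 4 × Fin 4 × Fin 4, ∑ y : Fin 4 × Fin 4 × Fin 4 × Fin 4,
        w x * a x.2.2.2 y.1 * (w y * a y.2.2.2 x.1) := by decide +kernel

def col : W → Fin 2
  | .inl t => if t = 0 ∨ t = 2 then 0 else 1
  | .inr l => if l.1 = 0 then 1 else 0

/-- The negation of the preceding statement: For every finite bipartite graph G, every 2-lift H of G, and every nonnegative symmetric weight matrix A, the weighted homomorphism count of H into A is at most that of G squared, i.e. that of two disjoint copies of G. -/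
theorem result :
    ¬ (∀ (V : Type) [Fintype V] [DecidableEq V] (G : SimpleGraph V) [DecidableRel G.Adj],
      G.Colorable 2 →
      ∀ (H : SimpleGraph (V × Bool)) [DecidableRel H.Adj],
        (∃ s : V → V → Bool, (∀ u v, s u v = s v u) ∧
          ∀ u v : V, ∀ i j : Bool,
            H.Adj (u, i) (v, j) ↔ (G.Adj u v ∧ j = xor i (s u v))) →
        ∀ (n : ℕ) (A : Sym2 (Fin n) → ℝ), (∀ z, 0 ≤ A z) →
          (∑ φ : V × Bool → Fin n, ∏ e ∈ H.edgeFinset, A (Sym2.map φ e)) ≤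
            (∑ φ : V → Fin n, ∏ e ∈ G.edgeFinset, A (Sym2.map φ e)) ^ 2) := by
  intro h
  have hc : G.Colorable 2 :=
    ⟨SimpleGraph.Coloring.mk col (by
      have : ∀ u v : W, r u v = true → col u ≠ col v := by decide +kernel
      intro u v huv
      exact this u v huv)⟩
  have h2 := h W G hc H ⟨s, s_symm, fun u v i j => by
    show r2 (u, i) (v, j) = true ↔ (r u v = true ∧ _)
    simp [r2]⟩ 4 (fun z => (AN z : ℝ)) (fun z => Nat.cast_nonneg _)
  have h3 : (∑ φ : W × Bool → Fin 4, ∏ e ∈ H.edgeFinset, AN (Sym2.map φ e)) ≤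
      (∑ φ : W → Fin 4, ∏ e ∈ G.edgeFinset, AN (Sym2.map φ e)) ^ 2 := by
    exact_mod_cast h2
  rw [ZG, ZH] at h3
  exact absurd num (not_lt.mpr h3)

end Pool.Agent.S10628
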