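import Pool.Statements.S10632
import Pool.Agent.H.MP_a78613_co.A

set_option autoImplicit false
open Pool Pool.MP_a78613_co

namespace Pool.Agent.S10632

/-- The negation of the preceding statement: Every finite simple bipartite Hamiltonian graph on 2n vertices with minimum degree δ satisfying δ² − δ ≥ n has a cycle of length 2ℓ for every ℓ with 2 ≤ ℓ ≤ n. -/
theorem result :
    ¬ (∀ (V : Type) [Fintype V] [DecidableEq V] (G : SimpleGraph V) [DecidableRel G.Adj] (n : ℕ),
      Fintype.card V = 2 * n →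
      G.Colorable 2 →
      G.IsHamiltonian →
      G.minDegree ^ 2 - G.minDegree ≥ n →
      ∀ ℓ : ℕ, 2 ≤ ℓ → ℓ ≤ n →
        ∃ (v : V) (c : G.Walk v v), c.IsCycle ∧ c.length = 2 * ℓ) := by
  intro h
  exact Pool.Agent.H.MP_a78613_co.no_ten (h (Fin 24) Pool.Agent.H.MP_a78613_co.G 12 (by simp)
    Pool.Agent.H.MP_a78613_co.col Pool.Agent.H.MP_a78613_co.ham
    (by rw [Pool.Agent.H.MP_a78613_co.mindeg]; norm_num) 5 (by norm_num) (by norm_num))

end Pool.Agent.S10632
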