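import Pool.Statements.S10644
import Pool.Agent.H.MP_a813b7_co.Count

set_option autoImplicit false
open Pool Pool.MP_a813b7_co

namespace Pool.Agent.S10644

open Pool.Agent.H.MP_a813b7_co

def dt (A B C : ℝ × ℝ) : ℝ := (B.1 - A.1) * (C.2 - A.2) - (C.1 - A.1) * (B.2 - A.2)

theorem sort3 {N : ℕ} (p : Fin N → ℝ × ℝ) (a b c : Fin N) (h1 : a ≠ b) (h2 : a ≠ c) (h3 : b ≠ c) :
    ∃ l m r : Fin N, l < m ∧ m < r ∧ (l = a ∨ l = b ∨ l = c) ∧ (m = a ∨ m = b ∨ m = c) ∧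
      (r = a ∨ r = b ∨ r = c) ∧ ({p a, p b, p c} : Set (ℝ × ℝ)) = {p l, p m, p r} ∧
      |dt (p a) (p b) (p c)| = |dt (p l) (p m) (p r)| := by
  have g : ∀ l m r : Fin N, (dt (p a) (p b) (p c) = dt (p l) (p m) (p r) ∨
      dt (p a) (p b) (p c) = - dt (p l) (p m) (p r)) →
      |dt (p a) (p b) (p c)| = |dt (p l) (p m) (p r)| := fun l m r h => abs_eq_abs.mpr h
  rcases lt_or_gt_of_ne h1 with p1 | p1 <;> rcases lt_or_gt_of_ne h2 with p2 | p2 <;>
    rcases lt_or_gt_of_ne h3 with p3 | p3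
  · exact ⟨a, b, c, p1, p3, by simp, by simp, by simp, rfl, rfl⟩
  · exact ⟨a, c, b, p2, p3, by simp, by simp, by simp, by ext; simp; tauto,
      g _ _ _ (Or.inr (by unfold dt; ring))⟩
  · omega
  · exact ⟨c, a, b, p2, p1, by simp, by simp, by simp, by ext; simp; tauto,
      g _ _ _ (Or.inl (by unfold dt; ring))⟩
  · exact ⟨b, a, c, p1, p2, by simp, by simp, by simp, by ext; simp; tauto,
      g _ _ _ (Or.inr (by unfold dt; ring))⟩
  · omega
  · exact ⟨b, c, a, p3, p2, by simp, by simp, by simp, by ext; simp; tauto,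
      g _ _ _ (Or.inl (by unfold dt; ring))⟩
  · exact ⟨c, b, a, p3, p1, by simp, by simp, by simp, by ext; simp; tauto,
      g _ _ _ (Or.inr (by unfold dt; ring))⟩

theorem ar_eq {N M : ℕ} (J : Fin N → Fin M) (l m r : Fin N) (h : l < r) :
    ar J (l, r) (m, J m)
      = |dt (xx N l, yy J l) (xx N m, yy J m) (xx N r, yy J r)| / 2 := by
  have w := sub_pos.mpr (xx_mono N h)
  unfold ar
  congr 1
  rw [← abs_of_pos w, ← abs_mul, abs_eq_abs]
  right
  have : yv N M (m, J m) = yy J m := rfl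
  rw [this]
  unfold dt ht sl
  simp only
  field_simp
  ring

theorem fin (K C : ℝ) (hC : 0 < C) (hK : K = 8 * Real.exp 1 * C ^ 3) (n M : ℕ) (hn : 0 < n)
    (hM : 12 * n * K < M)
    (h : (M : ℝ) ^ (3 * n) * Real.exp (-(n / (1 / (24 * K)) * (1 / (24 * K))))
      ≤ 2 ^ (3 * n) * M ^ (3 * n - n) * (C ^ (3 * n) *
        (2 * ((3 * n : ℕ) : ℝ) + 4 * ((3 * n : ℕ) : ℝ) * M / (n / (1 / (24 * K)))) ^ n)) : False := by
  have Kp : 0 < K := by rw [hK]; positivity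
  have np : (0:ℝ) < n := by exact_mod_cast hn
  have Mp : (0:ℝ) < M := lt_trans (by positivity) hM
  have e1 : (n : ℝ) / (1 / (24 * K)) * (1 / (24 * K)) = n := by field_simp
  have e2 : 2 * ((3 * n : ℕ) : ℝ) + 4 * ((3 * n : ℕ) : ℝ) * M / (n / (1 / (24 * K)))
      = 6 * n + M / (2 * K) := by push_cast; field_simp; ring
  have e3 : 3 * n - n = 2 * n := by omega
  rw [e1, e2, e3] at h
  have e4 : Real.exp (-(n : ℝ)) * Real.exp 1 ^ n = 1 := by
    rw [← Real.exp_nat_mul, ← Real.exp_add]; simp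
  have h2 := mul_le_mul_of_nonneg_right h (pow_nonneg (Real.exp_pos 1).le n)
  rw [mul_assoc, e4, mul_one] at h2
  have e5 : 2 ^ (3 * n) * (M : ℝ) ^ (2 * n) * (C ^ (3 * n) * (6 * n + M / (2 * K)) ^ n)
      * Real.exp 1 ^ n = (M ^ 2 * (K * (6 * n + M / (2 * K)))) ^ n := by
    rw [mul_pow, mul_pow K]
    nth_rewrite 2 [hK]
    rw [pow_mul, pow_mul, pow_mul, mul_pow, mul_pow]
    norm_num
    ring
  rw [e5, pow_mul] at h2
  have h3 := (pow_le_pow_iff_left₀ (by positivity) (by positivity) hn.ne').mp h2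
  have e6 : K * (6 * n + M / (2 * K)) = 6 * n * K + M / 2 := by field_simp
  rw [e6] at h3
  have : (M : ℝ) ^ 2 * (6 * n * K + M / 2) < M ^ 2 * M :=
    mul_lt_mul_of_pos_left (by linarith) (by positivity)
  nlinarith

theorem result :
    ¬ (∀ ε : ℝ, 0 < ε → ∃ N : ℕ, ∀ n : ℕ, N ≤ n → 2 ≤ n →
      ∀ p : Fin (3 * n) → ℝ × ℝ, Function.Injective p →
        (∀ k, 0 ≤ (p k).1 ∧ (p k).1 ≤ 1 ∧ 0 ≤ (p k).2 ∧ (p k).2 ≤ 1) →
        ∃ σ : Fin (3 * n) ≃ Fin n × Fin 3,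
          (∀ i j : Fin n, i ≠ j →
            Disjoint
              (interior (convexHull ℝ
                ({p (σ.symm (i, 0)), p (σ.symm (i, 1)), p (σ.symm (i, 2))} : Set (ℝ × ℝ))))
              (interior (convexHull ℝ
                ({p (σ.symm (j, 0)), p (σ.symm (j, 1)), p (σ.symm (j, 2))} : Set (ℝ × ℝ))))) ∧
          (∑ i : Fin n,
            |((p (σ.symm (i, 1))).1 - (p (σ.symm (i, 0))).1) *
                ((p (σ.symm (i, 2))).2 - (p (σ.symm (i, 0))).2) -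
              ((p (σ.symm (i, 2))).1 - (p (σ.symm (i, 0))).1) *
                ((p (σ.symm (i, 1))).2 - (p (σ.symm (i, 0))).2)| / 2) < ε) := by
  intro h
  obtain ⟨C, hC⟩ : ∃ C : ℝ, C = 2 ^ 32 * Real.exp 128 := ⟨_, rfl⟩
  have Cp : 0 < C := by rw [hC]; positivity
  obtain ⟨K, hK⟩ : ∃ K : ℝ, K = 8 * Real.exp 1 * C ^ 3 := ⟨_, rfl⟩
  have Kp : 0 < K := by rw [hK]; positivity
  obtain ⟨N0, h⟩ := h (1 / (24 * K)) (by positivity)
  obtain ⟨n, hn1, hn2⟩ : ∃ n, N0 ≤ n ∧ 2 ≤ n := ⟨N0 + 2, by omega, by omega⟩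
  obtain ⟨M, hM⟩ := exists_nat_gt (12 * n * K)
  have np : (0:ℝ) < n := by exact_mod_cast (by omega : 0 < n)
  have Mp : (0:ℝ) < M := lt_trans (by positivity) hM
  have Mp' : 0 < M := by exact_mod_cast Mp
  apply fin K C Cp hK n M (by omega) hM
  rw [hC]
  apply count n (⟨0, Mp'⟩ : Fin M) (⟨0, by omega⟩ : Fin (3 * n)) _ _ (by positivity)
  intro J
  obtain ⟨σ, hd, hs⟩ := h n hn1 hn2 (fun k => (xx (3 * n) k, yy J k))
    (fun a b q => (xx_mono _).injective (congrArg Prod.fst q)) (by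
      intro k
      have Np : (0:ℝ) < ((3 * n : ℕ) : ℝ) := by exact_mod_cast k.pos
      have N1 : (1:ℝ) ≤ ((3 * n : ℕ) : ℝ) := by exact_mod_cast k.pos
      have k1 : ((k : ℕ) : ℝ) ≤ ((3 * n : ℕ) : ℝ) := by exact_mod_cast k.isLt.le
      have k2 : ((J k : ℕ) : ℝ) + 1 ≤ M := by exact_mod_cast (J k).isLt
      have k3 : ((k : ℕ) : ℝ) ^ 2 / ((3 * n : ℕ) : ℝ) ^ 3 ≤ 1 := by
        rw [div_le_one (by positivity)]
        calc _ ≤ ((3 * n : ℕ) : ℝ) ^ 2 := by gcongr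
          _ ≤ _ := pow_le_pow_right₀ N1 (by norm_num)
      simp only [xx, yy, yv]
      refine ⟨by positivity, (div_le_one Np).mpr k1, by positivity, (div_le_one Mp).mpr ?_⟩
      linarith)
  have ex := fun i : Fin n => sort3 (fun k => (xx (3 * n) k, yy J k)) (σ.symm (i, 0))
    (σ.symm (i, 1)) (σ.symm (i, 2)) (by simp) (by simp) (by simp)
  choose l m r a1 a2 a3 a4 a5 a6 a7 using ex
  refine ⟨l, m, r, fun k => (σ k).1, ?_, ?_, ?_, a1, a2, ?_, ?_⟩
  · intro i; rcases a3 i with e | e | e <;> simp [e]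
  · intro i; rcases a4 i with e | e | e <;> simp [e]
  · intro i; rcases a5 i with e | e | e <;> simp [e]
  · intro i j q
    have n : i ≠ j := fun e => q.1 (by rw [e])
    have := hd i j n
    rw [a6 i, a6 j] at this
    exact not_disj (xx_mono _) (gp J) (e := (l i, r i)) (f := (l j, r j)) ((a1 i).trans (a2 i))
      ((a1 j).trans (a2 j)) (a1 i).ne' (a2 i).ne (a1 j).ne' (a2 j).ne q this
  · refine le_trans (le_of_eq ?_) hs.le
    apply Finset.sum_congr rfl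
    intro i _
    rw [ar_eq J _ _ _ ((a1 i).trans (a2 i)), ← a7 i]
    rfl

end Pool.Agent.S10644
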