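import Pool.Statements.S10670
-- import your own Pool.Agent.* helpers here

set_option autoImplicit false
open Pool Pool.MP_a94970_co

namespace Pool.Agent.S10670

def A := Fin 14 → Bool

noncomputable def finA : Fintype A := Fintype.ofFinite (Fin 14 → Bool)

noncomputable instance : Fintype A := finA

instance : Nonempty A := ⟨fun _ => true⟩

def agree (j : ℕ) (x y : A) : Prop := ∀ i : Fin 14, j ≤ i.val → x i = y i

theorem agree_mono {j k : ℕ} (h : j ≤ k) {x y : A} (hxy : agree j x y) : agree k x y :=
  fun i hi => hxy i (h.trans hi)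

theorem agree_symm {j : ℕ} {x y : A} (hxy : agree j x y) : agree j y x :=
  fun i hi => (hxy i hi).symm

theorem agree_trans {j : ℕ} {x y z : A} (hxy : agree j x y) (hyz : agree j y z) : agree j x z :=
  fun i hi => (hxy i hi).trans (hyz i hi)

def G : SimpleGraph (A ⊕ A × Fin 15) where
  Adj u v := match u, v with
    | Sum.inl y, Sum.inr p => agree p.2 p.1 y
    | Sum.inr p, Sum.inl y => agree p.2 p.1 y
    | _, _ => False
  symm := ⟨by rintro (u | u) (v | v) h <;> exact h⟩
  loopless := ⟨by rintro (u | u) h <;> exact h⟩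

theorem conn : G.Connected := by
  have top : ∀ x y : A, G.Adj (Sum.inr (x, 14)) (Sum.inl y) := by
    intro x y i hi
    have := i.2
    have h14 : ((14 : Fin 15) : ℕ) = 14 := rfl
    simp only [h14] at hi
    omega
  have h : ∀ v, G.Reachable (Sum.inr (fun _ => true, 14)) v := by
    rintro (y | ⟨x, j⟩)
    · exact (top _ y).reachable
    · have : G.Adj (Sum.inl x) (Sum.inr (x, j)) := fun i _ => rfl
      exact (top _ x).reachable.trans this.reachable
  exact ⟨fun x y => (h x).symm.trans (h y)⟩

def flp (x : A) (j : ℕ) : A := fun i => if i.val = j then !(x i) else x i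

theorem flp_agree (x : A) (j : ℕ) : agree (j + 1) x (flp x j) := by
  intro i hi
  have : i.val ≠ j := by omega
  simp [flp, this]

def U (S : A → Prop) (j : ℕ) (x : A) : Prop := ∃! y, agree j x y ∧ S y

open Classical in
theorem count (S : A → Prop) (T : Finset (A × Fin 15)) (hT : ∀ p ∈ T, U S p.2 p.1) :
    T.card ≤ Fintype.card (A × Bool) := by
  let φ : A × Fin 15 → A × Bool := fun p =>
    if p.2.val < 14 ∧ U S (p.2 + 1) p.1 then (flp p.1 p.2, true) else (p.1, false)
  have key : ∀ p q : A × Fin 15, U S p.2 p.1 → U S q.2 q.1 → φ p = φ q → p.2.val < q.2.val →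
      False := by
    rintro ⟨x, j⟩ ⟨x', j'⟩ ⟨y, ⟨hy, sy⟩, uy⟩ ⟨y', ⟨hy', sy'⟩, uy'⟩ h hlt
    simp only [φ] at h hlt hy hy' uy uy'
    have hj' := j'.2
    by_cases c1 : j.val < 14 ∧ U S (j + 1) x <;> by_cases c2 : j'.val < 14 ∧ U S (j' + 1) x'
    · rw [if_pos c1, if_pos c2] at h
      have hz : flp x j = flp x' j' := congrArg Prod.fst h
      obtain ⟨w, -, uw⟩ := c2.2
      have a1 : agree j' (flp x j) y :=
        agree_mono (by omega) (agree_trans (agree_symm (flp_agree x j)) (agree_mono (by omega) hy))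
      have a2 : agree (j' + 1) x' y :=
        agree_trans (flp_agree x' j') (by rw [← hz]; exact agree_mono (by omega) a1)
      have e : y = y' := (uw y ⟨a2, sy⟩).trans (uw y' ⟨agree_mono (by omega) hy', sy'⟩).symm
      have b1 := a1 ⟨j', c2.1⟩ le_rfl
      have b2 := hy' ⟨j', c2.1⟩ le_rfl
      rw [hz, e, ← b2] at b1
      simp [flp] at b1
    · rw [if_pos c1, if_neg c2] at h
      exact absurd (congrArg Prod.snd h) (by simp)
    · rw [if_neg c1, if_pos c2] at h
      exact absurd (congrArg Prod.snd h) (by simp)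
    · rw [if_neg c1, if_neg c2] at h
      have hx : x = x' := congrArg Prod.fst h
      subst hx
      refine c1 ⟨by omega, y, ⟨agree_mono (by omega) hy, sy⟩, fun w hw => ?_⟩
      exact (uy' w ⟨agree_mono (by omega) hw.1, hw.2⟩).trans
        (uy' y ⟨agree_mono (by omega) hy, sy⟩).symm
  have gen : ∀ (α β : Type) [Fintype β] (s : Finset α) (g : α → β), Set.InjOn g s →
      s.card ≤ Fintype.card β := fun α β _ s g hg =>
    Finset.card_le_card_of_injOn g (fun _ _ => Finset.mem_coe.2 (Finset.mem_univ _)) hg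
  refine gen _ _ _ φ ?_
  intro p hp q hq h
  have hp' : U S p.2 p.1 := hT p hp
  have hq' : U S q.2 q.1 := hT q hq
  have e2 : p.2 = q.2 := by
    apply Fin.ext
    rcases lt_trichotomy p.2.val q.2.val with h1 | h1 | h1
    · exact (key p q hp' hq' h h1).elim
    · exact h1
    · exact (key q p hq' hp' h.symm h1).elim
  obtain ⟨x, j⟩ := p
  obtain ⟨x', j'⟩ := q
  simp only at e2
  subst e2
  simp only [φ] at h
  congr 1
  split_ifs at h with c1 c2 c2
  · have hz : flp x j = flp x' j := congrArg Prod.fst h
    funext i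
    have := congrFun hz i
    simp only [flp] at this
    split_ifs at this
    · simpa using this
    · exact this
  · exact absurd (congrArg Prod.snd h) (by simp)
  · exact absurd (congrArg Prod.snd h) (by simp)
  · exact congrArg Prod.fst h

theorem result :
    ¬ (∀ (V : Type) [Fintype V] (G : SimpleGraph V),
      G.Connected → 3 ≤ Fintype.card V →
      ∃ f : V → ℕ, (∀ v, f v ≤ 2) ∧
        (∀ v, f v = 0 → ∃! u, G.Adj v u ∧ f u = 2) ∧
        5 * (∑ v, f v) ≤ 4 * Fintype.card V) := by
  classical
  intro h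
  have hN : 0 < Fintype.card A := Fintype.card_pos
  have hc : Fintype.card (A ⊕ A × Fin 15) = 16 * Fintype.card A := by
    rw [Fintype.card_sum, Fintype.card_prod, Fintype.card_fin]; ring
  obtain ⟨f, -, h0, hs⟩ := h _ G conn (by rw [hc]; omega)
  have hcount := count (fun y => f (Sum.inl y) = 2)
    (Finset.univ.filter (fun p : A × Fin 15 => U (fun y => f (Sum.inl y) = 2) p.2 p.1))
    (fun p hp => by rw [Finset.mem_filter] at hp; exact hp.2)
  rw [Fintype.card_prod, Fintype.card_bool] at hcount
  rw [hc, Fintype.sum_sum_type] at hs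
  have h1 : Fintype.card (A × Fin 15) ≤ ∑ p : A × Fin 15, f (Sum.inr p) +
      (Finset.univ.filter (fun p : A × Fin 15 => U (fun y => f (Sum.inl y) = 2) p.2 p.1)).card := by
    rw [Finset.card_filter, ← Finset.sum_add_distrib, ← Finset.card_univ, Finset.card_eq_sum_ones]
    refine Finset.sum_le_sum fun p _ => ?_
    by_cases hp : f (Sum.inr p) = 0
    · obtain ⟨u, ⟨hu, fu⟩, uu⟩ := h0 _ hp
      have : U (fun y => f (Sum.inl y) = 2) p.2 p.1 := by
        rcases u with y | q
        · exact ⟨y, ⟨hu, fu⟩, fun w hw => Sum.inl_injective (uu (Sum.inl w) hw)⟩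
        · exact hu.elim
      rw [if_pos this]; omega
    · omega
  rw [Fintype.card_prod, Fintype.card_fin] at h1
  generalize Fintype.card A = N at *
  omega

end Pool.Agent.S10670
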