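import Pool.Statements.S10688
import Pool.Agent.H.MP_aa5d6e_co.A

set_option autoImplicit false
open Pool Pool.MP_aa5d6e_co

namespace Pool.Agent.S10688

theorem result :
    ¬ (∀ (V : Type) [Fintype V] (G : SimpleGraph V) (k : ℕ),
    (∀ L : V → Finset ℕ, (∀ v, (L v).card = k) →
        ∃ c : V → ℕ, (∀ v, c v ∈ L v) ∧ ∀ u v, G.Adj u v → c u ≠ c v) →
    ∀ r : ℝ, (k : ℝ) < r → ∀ m : ℕ, 1 ≤ m →
      ∀ L : V → Finset ℕ, (∀ v, (L v).card = ⌈r * (m : ℝ)⌉₊) →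
        ∃ f : V → Finset ℕ, (∀ v, f v ⊆ L v ∧ (f v).card = m) ∧
          ∀ u v, G.Adj u v → Disjoint (f u) (f v)) := by
  intro h
  obtain ⟨V, i, G, h1, h2⟩ := H.AA5.main
  apply h2
  intro L hL
  refine h V G 5 h1 (36 / 7) (by norm_num) 7 (by norm_num) L (fun v => ?_)
  rw [hL v]
  norm_num

end Pool.Agent.S10688
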