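import Pool.Statements.S10693
import Pool.Agent.H.MP_aa6e80_co.Comb

set_option autoImplicit false
open Pool Pool.MP_aa6e80_co

namespace Pool.Agent.S10693

/-- For every nonnegative log-convex real sequence x, the sequence z_n = sum over k from 0 to n of A(n,k) x_k is log-convex, where A(n,k) counts permutations of n elements with exactly k descents. -/
theorem result :
    ∀ x : ℕ → ℝ, (∀ n, 0 ≤ x n) → (∀ k, x (k + 1) ^ 2 ≤ x k * x (k + 2)) →
      ∀ z : ℕ → ℝ,
        (∀ n, z n = ∑ k ∈ Finset.range (n + 1),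
          (((Finset.univ : Finset (Equiv.Perm (Fin n))).filter
            (fun σ => ((Finset.univ : Finset (Fin n × Fin n)).filter
              (fun p => p.2.val = p.1.val + 1 ∧ σ p.2 < σ p.1)).card = k)).card : ℝ) * x k) →
        ∀ n, z (n + 1) ^ 2 ≤ z n * z (n + 2) := by
  intro x h0 h z hz n
  have e : ∀ m, z m = Pool.Agent.H.MP_aa6e80_co.Z (m + 1) m x := by
    intro m
    rw [hz m]
    unfold Pool.Agent.H.MP_aa6e80_co.Z
    refine Finset.sum_congr rfl fun k hk => ?_
    rw [Pool.Agent.H.MP_aa6e80_co.card_eq m k (Finset.mem_range.1 hk)]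
  rw [e, e, e]
  exact Pool.Agent.H.MP_aa6e80_co.main_alg x h0 h n

end Pool.Agent.S10693
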