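import Pool.Statements.S10718
import Mathlib
import Pool.Agent.H.MP_ab53bf_co.C

set_option autoImplicit false
open Pool Pool.MP_ab53bf_co

namespace Pool.Agent.S10718

/-- The negation of the preceding statement: If two ordinary proper n-gons have the same pattern and some dihedral relabelling of the second makes corresponding edges same-direction parallel, then some such relabelling admits a continuous deformation of the first into it keeping the pattern and all edge directions. -/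
theorem result :
    ¬ (∀ (n : ℕ), 3 ≤ n →
  ∀ (Edge : (Fin n → ℝ × ℝ) → Fin n → Set (ℝ × ℝ)),
    (∀ x i, Edge x i = segment ℝ (x i) (x (finRotate n i))) →
  ∀ (Pend : (Fin n → ℝ × ℝ) → ℝ → Fin n → ℝ × ℝ),
    (∀ x ε i, Pend x ε i = x i + ε • ((2:ℝ) • x i - x ((finRotate n).symm i) - x (finRotate n i))) →
  ∀ (Ordinary : (Fin n → ℝ × ℝ) → Prop),
    (∀ x, Ordinary x ↔ ∀ (p : ℝ × ℝ) (i j k : Fin n), p ∈ Edge x i → p ∈ Edge x j → p ∈ Edge x k →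
      i = j ∨ j = k ∨ i = k) →
  ∀ (Proper : (Fin n → ℝ × ℝ) → Prop),
    (∀ x, Proper x ↔ (∀ i, x i ≠ x (finRotate n i)) ∧
      ∀ i, ¬ Collinear ℝ ({x ((finRotate n).symm i), x i, x (finRotate n i)} : Set (ℝ × ℝ))) →
  ∀ (MapSet : (Fin n → ℝ × ℝ) → ℝ → Set (ℝ × ℝ)),
    (∀ x ε, MapSet x ε = (⋃ i, Edge x i) ∪ ⋃ i, segment ℝ (x i) (Pend x ε i)) →
  ∀ (Nodes : (Fin n → ℝ × ℝ) → ℝ → Set (ℝ × ℝ)),
    (∀ x ε, Nodes x ε = Set.range x ∪ {p : ℝ × ℝ | ∃ i j, i ≠ j ∧ p ∈ Edge x i ∧ p ∈ Edge x j}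
      ∪ Set.range (Pend x ε)) →
  ∀ (SamePattern : (Fin n → ℝ × ℝ) → (Fin n → ℝ × ℝ) → Prop),
    (∀ x y, SamePattern x y ↔ ∃ δ : ℝ, 0 < δ ∧ ∀ ε₁ ε₂ : ℝ, 0 < ε₁ → ε₁ < δ → 0 < ε₂ → ε₂ < δ →
      ∃ h : Homeomorph (ℝ × ℝ) (ℝ × ℝ), h '' MapSet x ε₁ = MapSet y ε₂ ∧ h '' Nodes x ε₁ = Nodes y ε₂) →
  ∀ (Dihedral : Equiv.Perm (Fin n) → Prop),
    (∀ σ, Dihedral σ ↔ (∀ i, σ (finRotate n i) = finRotate n (σ i)) ∨
      (∀ i, σ (finRotate n i) = (finRotate n).symm (σ i))) →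
  ∀ (Parallel : (Fin n → ℝ × ℝ) → (Fin n → ℝ × ℝ) → Prop),
    (∀ x z, Parallel x z ↔ ∀ i, ∃ c : ℝ, 0 < c ∧ z (finRotate n i) - z i = c • (x (finRotate n i) - x i)) →
  ∀ x y : Fin n → ℝ × ℝ,
    Ordinary x → Proper x → Ordinary y → Proper y → SamePattern x y →
    (∃ σ : Equiv.Perm (Fin n), Dihedral σ ∧ Parallel x (fun i => y (σ i))) →
    ∃ σ : Equiv.Perm (Fin n), Dihedral σ ∧ Parallel x (fun i => y (σ i)) ∧
      ∃ X : ℝ → Fin n → ℝ × ℝ,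
        (∀ j, ContinuousOn (fun t => X t j) (Set.Icc (0:ℝ) 1)) ∧
        X 0 = x ∧ X 1 = (fun i => y (σ i)) ∧
        ∀ t ∈ Set.Icc (0:ℝ) 1,
          Ordinary (X t) ∧ Proper (X t) ∧ SamePattern x (X t) ∧ Parallel x (X t)) := by
  intro HH
  have H1 := HH 10 (by norm_num) H.MP_ab53bf_co.Ed (fun _ _ => rfl) H.MP_ab53bf_co.Pe
    (fun _ _ _ => rfl) H.MP_ab53bf_co.Od (fun _ => Iff.rfl) _ (fun _ => Iff.rfl)
    H.MP_ab53bf_co.MS (fun _ _ => rfl) H.MP_ab53bf_co.ND (fun _ _ => rfl) _ (fun _ _ => Iff.rfl)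
    _ (fun _ => Iff.rfl) H.MP_ab53bf_co.Pa (fun _ _ => Iff.rfl) H.MP_ab53bf_co.x H.MP_ab53bf_co.y
    H.MP_ab53bf_co.od_x H.MP_ab53bf_co.pr_x H.MP_ab53bf_co.od_y H.MP_ab53bf_co.pr_y
    H.MP_ab53bf_co.same
    (by obtain ⟨σ, h1, h2⟩ := H.MP_ab53bf_co.par; exact ⟨σ, Or.inr h1, h2⟩)
  obtain ⟨σ, hd, hp, X, hc, h0, h1, hX⟩ := H1
  obtain ⟨s8, s2⟩ := H.MP_ab53bf_co.sig σ hd hp
  have := H.MP_ab53bf_co.nodef X hc h0 (fun t ht => ⟨(hX t ht).1, (hX t ht).2.2.2⟩)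
  rw [h1] at this
  simp only [s8, s2] at this
  simp [H.MP_ab53bf_co.y, H.MP_ab53bf_co.x, H.MP_ab53bf_co.Ml_apply] at this
  norm_num at this

end Pool.Agent.S10718
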