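import Pool.Statements.S10719
import Pool.Agent.Lib.helper1.Konig

set_option autoImplicit false
open Pool Pool.MP_aba350_co

namespace Pool.Agent.S10719

open Finset Pool.Agent.Lib.helper1

/-- counting: points covered at least twice cost extra. -/
theorem count {V : Type} [Fintype V] [DecidableEq V] {t : ℕ} (s : ℕ) (C : Fin t → Finset V)
    (hC : ∀ k, (C k).card ≤ s) (A : Finset V)
    (hA : ∀ v ∈ A, ∃ k k', k ≠ k' ∧ v ∈ C k ∧ v ∈ C k') :
    Fintype.card V + A.card ≤ t * s + (univ.filter (fun v => ∀ k, v ∉ C k)).card := by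
  have h1 : ∑ k, (C k).card ≤ t * s := by
    calc ∑ k, (C k).card ≤ ∑ _k : Fin t, s := sum_le_sum (fun k _ => hC k)
      _ = t * s := by simp
  have h2 : ∑ k, (C k).card = ∑ v, (univ.filter (fun k => v ∈ C k)).card := by
    simp only [card_filter]
    rw [sum_comm]
    apply sum_congr rfl
    intro k _
    simp
  have h3 : ∀ v, 1 + (if v ∈ A then 1 else 0) ≤
      (univ.filter (fun k => v ∈ C k)).card + (if (∀ k, v ∉ C k) then 1 else 0) := by
    intro v
    by_cases hv : v ∈ A
    · obtain ⟨k, k', hk, h1, h2⟩ := hA v hv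
      have : 1 < (univ.filter (fun k => v ∈ C k)).card :=
        one_lt_card.2 ⟨k, by simp [h1], k', by simp [h2], hk⟩
      rw [if_pos hv]
      omega
    · rw [if_neg hv]
      by_cases hu : ∀ k, v ∉ C k
      · rw [if_pos hu]; omega
      · push Not at hu
        obtain ⟨k, hk⟩ := hu
        have : 0 < (univ.filter (fun k => v ∈ C k)).card :=
          card_pos.2 ⟨k, by simp [hk]⟩
        omega
  have h4 := sum_le_sum (s := (univ : Finset V)) (fun v _ => h3 v)
  rw [sum_add_distrib, sum_add_distrib, ← card_filter, ← card_filter] at h4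
  simp only [sum_const, card_univ, smul_eq_mul, mul_one, filter_univ_mem] at h4
  omega

theorem main (t n m : ℕ) (hn : 0 < n) (hm : m = t * (n - 1) + n + 1)
    (c : Fin m → Fin m → Fin t) :
    ∃ k : Fin t, ∃ a b : Fin n → Fin m,
      Function.Injective a ∧ Function.Injective b ∧
      (∀ i j, a i < b j) ∧ ∀ i, c (a i) (b i) = k := by
  by_contra hcon
  have hk : ∀ (p : ℕ) (k : Fin t), ∃ C : Finset (Fin m), C.card < n ∧
      ∀ x y : Fin m, (x.val < p ∧ p ≤ y.val ∧ c x y = k) → x ∈ C ∨ y ∈ C := by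
    intro p k
    apply konig
    rintro ⟨a, b, ha, hb, hab⟩
    refine hcon ⟨k, a, b, ha, hb, ?_, fun i => (hab i).2.2⟩
    intro i j
    have h1 := (hab i).1
    have h2 := (hab j).2.1
    rw [Fin.lt_def]
    omega
  choose C hC hcov using hk
  have hC' : ∀ p k, (C p k).card ≤ n - 1 := fun p k => by have := hC p k; omega
  let U : ℕ → Finset (Fin m) := fun p => univ.filter (fun v => ∀ k, v ∉ C p k)
  have hU : ∀ p v, v ∈ U p ↔ ∀ k, v ∉ C p k := by intro p v; simp [U]
  have hcnt : ∀ p (A : Finset (Fin m)), (∀ v ∈ A, ∃ k k', k ≠ k' ∧ v ∈ C p k ∧ v ∈ C p k') →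
      n + 1 + A.card ≤ (U p).card := by
    intro p A hA
    have := count (n - 1) (C p) (hC' p) A hA
    rw [Fintype.card_fin] at this
    show n + 1 + A.card ≤ (univ.filter (fun v => ∀ k, v ∉ C p k)).card
    omega
  have hU1 : ∀ p, n + 1 ≤ (U p).card := fun p => by
    simpa using hcnt p ∅ (by simp)
  -- the first cut whose uncovered set meets the left side
  have hex : ∃ q, ∃ v ∈ U q, v.val < q := by
    obtain ⟨v, hv⟩ := card_pos.1 (show 0 < (U m).card by have := hU1 m; omega)
    exact ⟨m, v, hv, v.2⟩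
  classical
  have hq := Nat.find_spec hex
  have hmin := fun p => Nat.find_min hex (m := p)
  set q := Nat.find hex with hqdef
  obtain ⟨v0, hv0, hv0q⟩ := hq
  obtain ⟨p, hp⟩ : ∃ p, q = p + 1 := ⟨q - 1, by omega⟩
  have hR : ∀ v ∈ U p, p ≤ v.val := by
    intro v hv
    by_contra hlt
    exact hmin p (by omega) ⟨v, hv, by omega⟩
  have hL : ∀ v ∈ U q, v.val < q := by
    intro v hv
    by_contra hlt
    rcases hcov q (c v0 v) v0 v ⟨hv0q, by omega, rfl⟩ with h | h
    · exact (hU q v0).1 hv0 _ h
    · exact (hU q v).1 hv _ h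
  let A : Finset (Fin m) := (U q).filter (fun v => v.val ≠ p)
  let B : Finset (Fin m) := (U p).filter (fun v => v.val ≠ p)
  have hone : ∀ S : Finset (Fin m), S.card ≤ (S.filter (fun v => v.val ≠ p)).card + 1 := by
    intro S
    have h1 := card_filter_add_card_filter_not (s := S) (fun v : Fin m => v.val ≠ p)
    have h2 : (S.filter (fun v : Fin m => ¬ v.val ≠ p)).card ≤ 1 := by
      rw [card_le_one]
      intro x hx y hy
      rw [mem_filter] at hx hy
      apply Fin.ext
      have := hx.2
      have := hy.2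
      omega
    omega
  have hA1 : (U q).card ≤ A.card + 1 := hone _
  have hB1 : (U p).card ≤ B.card + 1 := hone _
  have hAB : ∀ x ∈ A, ∀ y ∈ B, x ∈ C p (c x y) ∧ y ∈ C q (c x y) := by
    intro x hx y hy
    rw [mem_filter] at hx hy
    have h1 := hL x hx.1
    have h2 := hR y hy.1
    have h3 := hx.2
    have h4 := hy.2
    constructor
    · rcases hcov p (c x y) x y ⟨by omega, by omega, rfl⟩ with h | h
      · exact h
      · exact absurd h ((hU p y).1 hy.1 _)
    · rcases hcov q (c x y) x y ⟨by omega, by omega, rfl⟩ with h | h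
      · exact absurd h ((hU q x).1 hx.1 _)
      · exact h
  have hAn : n ≤ A.card := by have := hU1 q; omega
  have hBn : n ≤ B.card := by have := hU1 p; omega
  have hA2 : ∀ x ∈ A, ∃ k k', k ≠ k' ∧ x ∈ C p k ∧ x ∈ C p k' := by
    intro x hx
    by_contra hno
    push Not at hno
    obtain ⟨y0, hy0⟩ := card_pos.1 (show 0 < B.card by omega)
    have hsub : B ⊆ C q (c x y0) := by
      intro y hy
      have : c x y = c x y0 := by
        by_contra hne
        exact hno _ _ hne (hAB x hx y hy).1 (hAB x hx y0 hy0).1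
      rw [← this]
      exact (hAB x hx y hy).2
    have := card_le_card hsub
    have := hC q (c x y0)
    omega
  have hB2 : ∀ y ∈ B, ∃ k k', k ≠ k' ∧ y ∈ C q k ∧ y ∈ C q k' := by
    intro y hy
    by_contra hno
    push Not at hno
    obtain ⟨x0, hx0⟩ := card_pos.1 (show 0 < A.card by omega)
    have hsub : A ⊆ C p (c x0 y) := by
      intro x hx
      have : c x y = c x0 y := by
        by_contra hne
        exact hno _ _ hne (hAB x hx y hy).2 (hAB x0 hx0 y hy).2
      rw [← this]
      exact (hAB x hx y hy).1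
    have := card_le_card hsub
    have := hC p (c x0 y)
    omega
  have h1 := hcnt p A hA2
  have h2 := hcnt q B hB2
  omega

theorem result :
    ∀ t n : ℕ, 0 < t → 0 < n →
      ∀ c : Fin ((t - 1) * (n - 1) + 2 * n) → Fin ((t - 1) * (n - 1) + 2 * n) → Fin t,
        ∃ k : Fin t, ∃ a b : Fin n → Fin ((t - 1) * (n - 1) + 2 * n),
          Function.Injective a ∧ Function.Injective b ∧
          (∀ i j, a i < b j) ∧ ∀ i, c (a i) (b i) = k := by
  intro t n ht hn c
  refine main t n _ hn ?_ c
  obtain ⟨t, rfl⟩ : ∃ s, t = s + 1 := ⟨t - 1, by omega⟩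
  obtain ⟨n, rfl⟩ : ∃ s, n = s + 1 := ⟨n - 1, by omega⟩
  simp only [Nat.add_sub_cancel]
  ring

end Pool.Agent.S10719
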