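import Pool.Statements.S10752
import Pool.Agent.Lib.helper4.BnF

set_option autoImplicit false
open Pool Pool.MP_ac9a20_co
open MeasureTheory

namespace Pool.Agent.S10752

open Pool.Agent.Lib.helper4

def cl (n : ℕ) : ℕ := n.unpair.1

def Γ : SimpleGraph ℕ := SimpleGraph.fromRel
  (fun i j => i < j ∧ j.unpair.2.testBit i = true ∧ (cl i = 0 ∨ cl j = 0))

lemma ext1 : Ext Γ cl (fun c d => c = 0 ∨ d = 0) := by
  constructor
  · intro u v h
    rw [Γ, SimpleGraph.fromRel_adj] at h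
    rcases h.2 with h | h
    · exact h.2.2
    · exact h.2.2.symm
  · intro c F P _ hP
    obtain ⟨m, hm⟩ := exists_bits_big F P
    have hlt : ∀ u ∈ F, u < Nat.pair c m := fun u hu => (hm u hu).1.trans_le (Nat.right_le_pair _ _)
    have hc : cl (Nat.pair c m) = c := by simp [cl]
    refine ⟨Nat.pair c m, fun h => lt_irrefl _ (hlt _ h), hc, fun u hu => ?_⟩
    have h1 := hlt u hu
    rw [Γ, SimpleGraph.fromRel_adj, Nat.unpair_pair, (hm u hu).2, hc]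
    constructor
    · rintro ⟨-, h | h⟩
      · exact h.2.1
      · omega
    · intro h; exact ⟨h1.ne, Or.inl ⟨h1, h, hP u hu h⟩⟩

lemma ext0 : Ext Γ (fun _ => 0) (fun _ _ => True) := by
  refine ⟨fun _ _ _ => trivial, fun c F P ⟨_, hc⟩ _ => ?_⟩
  obtain ⟨z, h1, -, h3⟩ := ext1.2 0 F P ⟨0, by simp [cl]⟩ (fun _ _ _ => Or.inr rfl)
  exact ⟨z, h1, hc, h3⟩

def G : Subgroup (Equiv.Perm ℕ) where
  carrier := {g | (∀ x, cl (g x) = cl x) ∧ ∀ x y, Γ.Adj (g x) (g y) ↔ Γ.Adj x y}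
  one_mem' := ⟨fun _ => rfl, fun _ _ => Iff.rfl⟩
  mul_mem' := fun {a b} ha hb => ⟨fun x => (ha.1 (b x)).trans (hb.1 x),
    fun x y => (ha.2 (b x) (b y)).trans (hb.2 x y)⟩
  inv_mem' := fun {a} ha => ⟨fun x => by simpa using (ha.1 (a⁻¹ x)).symm,
    fun x y => by simpa using (ha.2 (a⁻¹ x) (a⁻¹ y)).symm⟩

lemma homog {x y x' y' : ℕ} (h : x ≠ y) (h' : x' ≠ y') (h1 : cl x = cl x') (h2 : cl y = cl y')
    (h3 : Γ.Adj x y ↔ Γ.Adj x' y') : ∃ g ∈ G, g x = x' ∧ g y = y' := by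
  have hp : PIso Γ Γ cl {(x, x'), (y, y')} := by
    intro a ha
    simp only [Finset.mem_insert, Finset.mem_singleton] at ha
    rcases ha with rfl | rfl
    · refine ⟨h1, fun b hb => ?_⟩
      simp only [Finset.mem_insert, Finset.mem_singleton] at hb
      rcases hb with rfl | rfl
      · simp
      · exact ⟨by simp [h, h'], h3⟩
    · refine ⟨h2, fun b hb => ?_⟩
      simp only [Finset.mem_insert, Finset.mem_singleton] at hb
      rcases hb with rfl | rfl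
      · exact ⟨by simp [h.symm, h'.symm], by rw [Γ.adj_comm, h3, Γ.adj_comm]⟩
      · simp
  obtain ⟨e, he, h4, h5⟩ := hp.extend ext1 ext1
  exact ⟨e, ⟨h4, h5⟩, he (x, x') (by simp), he (y, y') (by simp)⟩

abbrev T : Type := {S : Set (Sym2 ℕ) // ∃ e : Sym2 ℕ, ¬ e.IsDiag ∧
            S = {e' : Sym2 ℕ | ∃ g ∈ G, Sym2.map (⇑g) e = e'}}

lemma T_closed (S : T) {x y : ℕ} (h : s(x, y) ∈ S.1) {g : Equiv.Perm ℕ} (hg : g ∈ G) :
    s(g x, g y) ∈ S.1 := by
  obtain ⟨S, e, he, rfl⟩ := S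
  obtain ⟨k, hk, hk'⟩ := h
  refine ⟨g * k, G.mul_mem hg hk, ?_⟩
  rw [Equiv.Perm.coe_mul, ← Sym2.map_map, hk', Sym2.map_mk]

lemma T_uniq (S S' : T) {e : Sym2 ℕ} (h : e ∈ S.1) (h' : e ∈ S'.1) : S = S' := by
  have key : ∀ (S S' : T), e ∈ S.1 → e ∈ S'.1 → S.1 ⊆ S'.1 := by
    rintro ⟨S, e1, he1, rfl⟩ ⟨S', e2, he2, rfl⟩ ⟨k, hk, hk'⟩ ⟨l, hl, hl'⟩ f ⟨g, hg, hg'⟩
    refine ⟨g * k⁻¹ * l, G.mul_mem (G.mul_mem hg (G.inv_mem hk)) hl, ?_⟩
    rw [Equiv.Perm.coe_mul, ← Sym2.map_map, hl', ← hk', Sym2.map_map, ← Equiv.Perm.coe_mul, ← hg']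
    simp
  exact Subtype.ext ((key S S' h h').antisymm (key S' S h' h))

lemma ex_w (i : ℕ) (ε : Bool) : ∃ a, a ≠ Nat.pair (i + 1) 0 ∧ cl a = 0 ∧
    (Γ.Adj (Nat.pair (i + 1) 0) a ↔ ε = true) := by
  obtain ⟨z, h1, h2, h3⟩ := ext1.2 0 {Nat.pair (i + 1) 0} (fun _ => ε = true) ⟨0, by simp [cl]⟩
    (fun _ _ _ => Or.inr rfl)
  exact ⟨z, by simpa using h1, h2, h3 _ (by simp)⟩

noncomputable def w (i : ℕ) (ε : Bool) : ℕ := (ex_w i ε).choose

lemma w_spec (i : ℕ) (ε : Bool) : w i ε ≠ Nat.pair (i + 1) 0 ∧ cl (w i ε) = 0 ∧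
    (Γ.Adj (Nat.pair (i + 1) 0) (w i ε) ↔ ε = true) := (ex_w i ε).choose_spec

noncomputable def O (i : ℕ) (ε : Bool) : T :=
  ⟨_, s(Nat.pair (i + 1) 0, w i ε), by simpa using (w_spec i ε).1.symm, rfl⟩

lemma O_mem (i : ℕ) (ε : Bool) : s(Nat.pair (i + 1) 0, w i ε) ∈ (O i ε).1 :=
  ⟨1, G.one_mem, by simp⟩

lemma cl_pair (a b : ℕ) : cl (Nat.pair a b) = a := by simp [cl]

lemma O_inj {i j : ℕ} {ε δ : Bool} (h : O i ε = O j δ) : i = j ∧ ε = δ := by
  have h1 := O_mem i ε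
  rw [h] at h1
  obtain ⟨g, hg, hg'⟩ := h1
  rw [Sym2.map_mk, Sym2.eq_iff] at hg'
  rcases hg' with ⟨h2, h3⟩ | ⟨h2, h3⟩
  · have a1 := hg.1 (Nat.pair (j + 1) 0)
    have a2 := hg.2 (Nat.pair (j + 1) 0) (w j δ)
    rw [h2, cl_pair, cl_pair] at a1
    rw [h2, h3, (w_spec i ε).2.2, (w_spec j δ).2.2] at a2
    exact ⟨by omega, Bool.eq_iff_iff.2 a2⟩
  · have a1 := hg.1 (Nat.pair (j + 1) 0)
    rw [h2, cl_pair, (w_spec i ε).2.1] at a1
    omega

lemma O_cover (i : ℕ) {x z : ℕ} (hx : cl x = i + 1) (hz : cl z = 0) :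
    ∃ ε, s(x, z) ∈ (O i ε).1 := by
  classical
  refine ⟨decide (Γ.Adj x z), ?_⟩
  obtain ⟨g, hg, h1, h2⟩ := homog (x := Nat.pair (i + 1) 0) (y := w i (decide (Γ.Adj x z)))
    (x' := x) (y' := z) (w_spec i _).1.symm (fun e => by rw [e] at hx; omega)
    (by rw [cl_pair, hx]) (by rw [(w_spec i _).2.1, hz]) (by rw [(w_spec i _).2.2]; simp)
  have := T_closed _ (O_mem i (decide (Γ.Adj x z))) hg
  rwa [h1, h2] at this

lemma twins (c : T → Bool) (i : ℕ) (hc : c (O i true) = c (O i false)) {u u' z : ℕ}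
    (hu : cl u = i + 1) (hu' : cl u' = i + 1) (h1 : u ≠ z) (h2 : u' ≠ z)
    (h : ∃ S : T, s(u, z) ∈ S.1 ∧ c S = true) : ∃ S : T, s(u', z) ∈ S.1 ∧ c S = true := by
  obtain ⟨S, hS, hcS⟩ := h
  by_cases hz : cl z = 0
  · obtain ⟨ε, hε⟩ := O_cover i hu hz
    obtain ⟨δ, hδ⟩ := O_cover i hu' hz
    refine ⟨_, hδ, ?_⟩
    rw [T_uniq _ _ hS hε] at hcS
    cases ε <;> cases δ <;> simp_all
  · have n1 : ¬ Γ.Adj u z := fun h => by have := ext1.1 _ _ h; omega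
    have n2 : ¬ Γ.Adj u' z := fun h => by have := ext1.1 _ _ h; omega
    obtain ⟨g, hg, h3, h4⟩ := homog h1 h2 (hu.trans hu'.symm) rfl (by simp [n1, n2])
    have := T_closed S hS hg
    rw [h3, h4] at this
    exact ⟨S, this, hcS⟩

lemma not_iso (c : T → Bool) (i : ℕ) (hc : c (O i true) = c (O i false))
    (φ : SimpleGraph.fromRel (fun x y : ℕ => ∃ S : T, s(x, y) ∈ S.1 ∧ c S = true)
      ≃g SimpleGraph.fromRel (fun i j : ℕ => Nat.testBit j i = true)) : False := by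
  set u := Nat.pair (i + 1) 0
  set u' := Nat.pair (i + 1) 1
  have hne : u ≠ u' := by simp [u, u']
  obtain ⟨z, h1, -, h3⟩ := ext_bit.2 0 {φ u, φ u'} (fun v => v = φ u) ⟨0, rfl⟩ (fun _ _ _ => trivial)
  obtain ⟨z, rfl⟩ := φ.surjective z
  simp only [Finset.mem_insert, Finset.mem_singleton, not_or] at h1
  have a1 := (h3 (φ u) (by simp)).2 rfl
  have a2 : ¬ _ := fun h => hne (φ.injective ((h3 (φ u') (by simp)).1 h)).symm
  rw [φ.map_adj_iff, SimpleGraph.fromRel_adj] at a1 a2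
  have b2 : u' ≠ z := fun e => h1.2 (by rw [e])
  refine a2 ⟨b2, Or.inl (twins c i hc (cl_pair _ _) (cl_pair _ _) a1.1 b2 ?_)⟩
  rcases a1.2 with h | h
  · exact h
  · rwa [Sym2.eq_swap] at h

lemma null {ι : Type} (O : ℕ → Bool → ι) (hO : ∀ i j ε δ, O i ε = O j δ → i = j ∧ ε = δ) :
    Measure.infinitePi (fun _ : ι => (PMF.uniformOfFintype Bool).toMeasure)
      {c : ι → Bool | ∀ i, c (O i true) ≠ c (O i false)} = 0 := by
  classical
  set μ := Measure.infinitePi (fun _ : ι => (PMF.uniformOfFintype Bool).toMeasure) with hμ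
  have bound : ∀ n : ℕ, μ {c : ι → Bool | ∀ i, c (O i true) ≠ c (O i false)} ≤ (2⁻¹ : ENNReal) ^ n := by
    intro n
    let s : Finset ι := (Finset.univ : Finset (Fin n × Bool)).image (fun p => O p.1 p.2)
    let t : (Fin n → Bool) → ι → Set Bool := fun b S =>
      {v | ∀ (i : Fin n) (ε : Bool), S = O i ε → v = xor (b i) ε}
    have hs : s.card = n * 2 := by
      rw [Finset.card_image_of_injective]
      · simp
      · rintro ⟨i, ε⟩ ⟨j, δ⟩ h
        obtain ⟨h1, h2⟩ := hO _ _ _ _ h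
        exact Prod.ext (Fin.ext h1) h2
    have box : ∀ b, μ (Set.pi s (t b)) = (2⁻¹ : ENNReal) ^ (n * 2) := by
      intro b
      rw [hμ, Measure.infinitePi_pi _ (fun _ _ => MeasurableSet.of_discrete), ← hs]
      apply Finset.prod_eq_pow_card
      intro S hS
      obtain ⟨⟨i, ε⟩, -, rfl⟩ := Finset.mem_image.1 hS
      have : t b (O i ε) = {xor (b i) ε} := by
        ext v
        simp only [t, Set.mem_ofPred_eq, Set.mem_singleton_iff]
        refine ⟨fun h => h i ε rfl, fun h j δ e => ?_⟩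
        obtain ⟨h1, h2⟩ := hO _ _ _ _ e
        rw [h, Fin.ext h1, h2]
      rw [this, PMF.toMeasure_apply_singleton _ _ (MeasurableSet.of_discrete)]
      simp
    calc μ _ ≤ μ (⋃ b ∈ (Finset.univ : Finset (Fin n → Bool)), Set.pi s (t b)) := by
          apply measure_mono
          intro c hc
          simp only [Set.mem_iUnion]
          refine ⟨fun i => c (O i false), Finset.mem_univ _, fun S _ i ε e => ?_⟩
          have := hc i
          subst e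
          cases ε
          · simp
          · beta_reduce; revert this; cases c (O i true) <;> cases c (O i false) <;> simp
      _ ≤ ∑ b ∈ (Finset.univ : Finset (Fin n → Bool)), μ (Set.pi s (t b)) :=
          measure_biUnion_finset_le _ _
      _ = (2⁻¹ : ENNReal) ^ n := by
          simp only [box, Finset.sum_const, Finset.card_univ, Fintype.card_fun, Fintype.card_bool,
            Fintype.card_fin, nsmul_eq_mul, Nat.cast_pow, Nat.cast_ofNat]
          rw [mul_two, pow_add, ← mul_assoc, ← mul_pow, ENNReal.mul_inv_cancel (by simp) (by simp)]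
          simp
  have := ENNReal.tendsto_pow_atTop_nhds_zero_of_lt_one (r := 2⁻¹) (by simp)
  exact le_antisymm (ge_of_tendsto' this bound) (by simp)

theorem result :
    ¬ (∀ (Ω : Type) [Countable Ω] (G : Subgroup (Equiv.Perm Ω)),
    (∃ Γ : SimpleGraph Ω, (∀ g ∈ G, ∀ x y : Ω, Γ.Adj (g x) (g y) ↔ Γ.Adj x y) ∧
        Nonempty (Γ ≃g SimpleGraph.fromRel (fun i j : ℕ => Nat.testBit j i = true))) ↔
    (Measure.infinitePi
        (fun _ : {S : Set (Sym2 Ω) // ∃ e : Sym2 Ω, ¬ e.IsDiag ∧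
            S = {e' : Sym2 Ω | ∃ g ∈ G, Sym2.map (⇑g) e = e'}} =>
          (PMF.uniformOfFintype Bool).toMeasure))
      {c : {S : Set (Sym2 Ω) // ∃ e : Sym2 Ω, ¬ e.IsDiag ∧
            S = {e' : Sym2 Ω | ∃ g ∈ G, Sym2.map (⇑g) e = e'}} → Bool |
        Nonempty (SimpleGraph.fromRel
            (fun x y : Ω => ∃ S : {S : Set (Sym2 Ω) // ∃ e : Sym2 Ω, ¬ e.IsDiag ∧
                S = {e' : Sym2 Ω | ∃ g ∈ G, Sym2.map (⇑g) e = e'}},
              s(x, y) ∈ S.1 ∧ c S = true)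
          ≃g SimpleGraph.fromRel (fun i j : ℕ => Nat.testBit j i = true))} > 0) := by
  intro H
  obtain ⟨e, -, -, he⟩ := PIso.extend ext0 ext_bit (p := ∅) (fun x hx => by simp at hx)
  have h := (H ℕ G).1 ⟨Γ, fun g hg => hg.2, ⟨⟨e, fun {a b} => he a b⟩⟩⟩
  refine absurd (measure_mono_null ?_ (null O (fun _ _ _ _ => O_inj))) h.ne'
  rintro c ⟨φ⟩ i hc
  exact not_iso c i hc φ

end Pool.Agent.S10752
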