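import Pool.Statements.S10756
import Pool.Agent.H.MP_acd137_co.A

set_option autoImplicit false
open Pool Pool.MP_acd137_co

namespace Pool.Agent.S10756

theorem result :
    ¬ (∀ (G : ℕ → Type) [∀ n, Group (G n)] [∀ n, Fintype (G n)],
      Filter.Tendsto (fun n => Fintype.card (G n)) Filter.atTop Filter.atTop →
      (∀ δ : ℝ, 0 < δ → ∃ N : ℕ, ∀ n ≥ N, ∀ g : G n,
          IsPrimePow (orderOf g) → (orderOf g : ℝ) ≤ δ * (Fintype.card (G n) : ℝ)) →
      ∀ ε : ℝ, 0 < ε → ∃ N : ℕ, ∀ n ≥ N, ∃ k : ℕ, ∃ Γ : SimpleGraph (Fin k),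
          Nonempty ((Γ ≃g Γ) ≃* G n) ∧ (k : ℝ) ≤ ε * (Fintype.card (G n) : ℝ)) := by
  intro h
  choose p hp using fun n => Nat.exists_infinite_primes (n + 3)
  have nz : ∀ n, NeZero (p n) := fun n => ⟨(hp n).2.ne_zero⟩
  have h2 : ∀ n, 2 < p n := fun n => by have := (hp n).1; omega
  obtain ⟨N, hN⟩ := h (fun n => Pool.Agent.H.MP_acd137_co.M (p n)) (by
    simp only [Pool.Agent.H.MP_acd137_co.card_M]
    refine Filter.tendsto_atTop_mono (fun n => ?_) Filter.tendsto_id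
    have := (hp n).1
    have : 0 < p n * p n := Nat.mul_pos (by omega) (by omega)
    simp only [id]
    nlinarith) (by
    intro δ hδ
    obtain ⟨N, hN⟩ := exists_nat_ge (1 / δ)
    refine ⟨N, fun n hn g _ => ?_⟩
    have h3 : (orderOf g : ℝ) ≤ (p n : ℝ) * p n := by
      exact_mod_cast Pool.Agent.H.MP_acd137_co.order_le (hp n).2 (h2 n) g
    have h4 : (N : ℝ) ≤ p n := by have := (hp n).1; exact_mod_cast (by omega)
    have h5 : 1 ≤ δ * p n := by
      rw [div_le_iff₀ hδ] at hN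
      nlinarith
    rw [Pool.Agent.H.MP_acd137_co.card_M]
    push_cast
    have : (0 : ℝ) ≤ (p n : ℝ) * p n := by positivity
    nlinarith) (1 / 2) (by norm_num)
  obtain ⟨k, Γ, ⟨e⟩, hk⟩ := hN N le_rfl
  have h6 : ((p N * p N * p N : ℕ) : ℝ) ≤ k := by
    exact_mod_cast Pool.Agent.H.MP_acd137_co.big (hp N).2 (h2 N) Γ e
  rw [Pool.Agent.H.MP_acd137_co.card_M] at hk
  have : (0 : ℝ) < ((p N * p N * p N : ℕ) : ℝ) := by
    have := h2 N
    positivity
  linarith

end Pool.Agent.S10756
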