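import Pool.Statements.S10760
-- import your own Pool.Agent.* helpers here

set_option autoImplicit false
open Pool Pool.MP_ace675_co

namespace Pool.Agent.S10760

/-- edge list of the Groetzsch graph on 0..10 together with the extra edge 11-12 -/
def E : List (ℕ × ℕ) :=
  [(0,1),(1,2),(2,3),(3,4),(0,4),(1,5),(4,5),(0,6),(2,6),(1,7),(3,7),(2,8),(4,8),(0,9),(3,9),
   (5,10),(6,10),(7,10),(8,10),(9,10),(11,12)]

def adjB (u v : Fin 13) : Bool := decide ((u.val, v.val) ∈ E) || decide ((v.val, u.val) ∈ E)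

def H : SimpleGraph (Fin 13) where
  Adj u v := adjB u v = true
  symm := ⟨by intro u v; simp only [adjB, Bool.or_comm]; exact id⟩
  loopless := ⟨by decide⟩

instance : DecidableRel H.Adj := fun u v => inferInstanceAs (Decidable (adjB u v = true))

theorem H_cf : H.CliqueFree 3 := by
  intro s hs
  rw [SimpleGraph.is3Clique_iff] at hs
  obtain ⟨a, b, c, hab, hac, hbc, -⟩ := hs
  revert a b c
  decide

theorem H_deg (v : Fin 13) : (H.neighborSet v).ncard = H.degree v := by
  rw [← SimpleGraph.card_neighborSet_eq_degree, Set.ncard_eq_toFinset_card', Set.toFinset_card]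

theorem no3col : ∀ a0 a1 : Fin 3, a0 ≠ a1 → ∀ a2, a1 ≠ a2 → ∀ a3, a2 ≠ a3 → ∀ a4, a3 ≠ a4 → a0 ≠ a4 →
    ∀ a10 a5 : Fin 3, a1 ≠ a5 → a4 ≠ a5 → a5 ≠ a10 → ∀ a6, a0 ≠ a6 → a2 ≠ a6 → a6 ≠ a10 →
    ∀ a7, a1 ≠ a7 → a3 ≠ a7 → a7 ≠ a10 → ∀ a8, a2 ≠ a8 → a4 ≠ a8 → a8 ≠ a10 →
    ∀ a9, a0 ≠ a9 → a3 ≠ a9 → a9 ≠ a10 → False := by decide

theorem two_nb : ∀ x : Fin 13, x.val < 11 → ∃ y z : Fin 13, y ≠ z ∧ H.Adj x y ∧ H.Adj x z := by decide

theorem adj_big : ∀ x y : Fin 13, H.Adj x y → ¬ x.val < 11 → (x = 11 ∧ y = 12) ∨ (x = 12 ∧ y = 11) := by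
  decide

theorem adj_small : ∀ x y : Fin 13, H.Adj x y → x.val < 11 → y.val < 11 := by decide

/-- from a pendant edge one gets a monochromatic copy of the big component in each colour -/
theorem step1 {m : ℕ} (G : SimpleGraph (Fin m)) (u v : Fin m) (huv : G.Adj v u)
    (hv : ∀ w, G.Adj v w → w = u)
    (hG : ∀ c : Fin m → Fin m → Bool, (∀ x y : Fin m, c x y = c y x) →
      ∃ b : Bool, ∃ f : Fin 13 → Fin m, Function.Injective f ∧
        ∀ x y : Fin 13, H.Adj x y → G.Adj (f x) (f y) ∧ c (f x) (f y) = b)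
    (c : Fin m → Fin m → Bool) (hc : ∀ x y, c x y = c y x)
    (hno : ¬ ∃ b : Bool, ∃ f : Fin 13 → Fin m, Function.Injective f ∧
        ∀ x y : Fin 13, H.Adj x y → (G.deleteEdges {s(v, u)}).Adj (f x) (f y) ∧ c (f x) (f y) = b)
    (b : Bool) :
    ∃ f : Fin 13 → Fin m, Function.Injective f ∧
      ∀ x y, G.Adj x y → x ≠ u → y ≠ u → c x y = b → ∃ i : Fin 13, i.val < 11 ∧ (f i = x ∨ f i = y) := by
  classical
  have hne : v ≠ u := huv.ne
  obtain ⟨b', f, hf, hcol⟩ := hG (fun x y => if x = v ∨ y = v then b else c x y) (by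
    intro x y
    simp only [or_comm, hc x y])
  -- small vertices are not mapped to v
  have hsm : ∀ i : Fin 13, i.val < 11 → f i ≠ v := by
    intro i hi hiv
    obtain ⟨y, z, hyz, hy, hz⟩ := two_nb i hi
    have h1 := (hcol i y hy).1
    have h2 := (hcol i z hz).1
    rw [hiv] at h1 h2
    exact hyz (hf ((hv _ h1).trans (hv _ h2).symm))
  have hdel : ∀ x y, G.Adj x y → x ≠ v → y ≠ v → (G.deleteEdges {s(v, u)}).Adj x y := by
    intro x y hxy hx hy
    rw [SimpleGraph.deleteEdges_adj]
    refine ⟨hxy, ?_⟩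
    simp only [Set.mem_singleton_iff, Sym2.eq_iff]
    rintro (⟨h, -⟩ | ⟨-, h⟩)
    · exact hx h
    · exact hy h
  have hb : b' = b := by
    by_contra hbb
    apply hno
    refine ⟨b', f, hf, fun x y hxy => ?_⟩
    have h := hcol x y hxy
    by_cases hq : f x = v ∨ f y = v
    · simp only [hq, if_true] at h
      exact absurd h.2.symm hbb
    · simp only [hq, if_false] at h
      push Not at hq
      exact ⟨hdel _ _ h.1 hq.1 hq.2, h.2⟩
  subst hb
  refine ⟨f, hf, fun x y hxy hxu hyu hcxy => ?_⟩
  by_contra hcon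
  push Not at hcon
  have hxv : x ≠ v := by
    rintro rfl
    exact hyu (hv _ hxy)
  have hyv : y ≠ v := by
    rintro rfl
    exact hxu (hv _ hxy.symm)
  apply hno
  refine ⟨b', fun i => if i.val < 11 then f i else if i = 11 then x else y, ?_, ?_⟩
  · intro i j hij
    have hxy' := hxy.ne
    by_cases hi : i.val < 11 <;> by_cases hj : j.val < 11 <;> simp only [hi, hj, if_true, if_false] at hij
    · exact hf hij
    · split_ifs at hij
      · exact absurd hij (hcon i hi).1
      · exact absurd hij (hcon i hi).2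
    · split_ifs at hij
      · exact absurd hij.symm (hcon j hj).1
      · exact absurd hij.symm (hcon j hj).2
    · split_ifs at hij with h1 h2 h2
      · rw [h1, h2]
      · exact absurd hij hxy'
      · exact absurd hij.symm hxy'
      · apply Fin.ext
        have := i.isLt
        have := j.isLt
        have h1' : i.val ≠ 11 := fun h => h1 (Fin.ext h)
        have h2' : j.val ≠ 11 := fun h => h2 (Fin.ext h)
        omega
  · intro i j hij
    by_cases hi : i.val < 11
    · have hj := adj_small i j hij hi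
      simp only [hi, hj, if_true]
      have h := hcol i j hij
      have h1 := hsm i hi
      have h2 := hsm j hj
      simp only [h1, h2, or_self, if_false] at h
      exact ⟨hdel _ _ h.1 h1 h2, h.2⟩
    · rcases adj_big i j hij hi with ⟨rfl, rfl⟩ | ⟨rfl, rfl⟩
      · exact ⟨hdel _ _ hxy hxv hyv, hcxy⟩
      · exact ⟨hdel _ _ hxy.symm hyv hxv, (hc _ _).trans hcxy⟩

theorem pigeon {m : ℕ} (f g : Fin 13 → Fin m) (hf : Function.Injective f)
    (h : ∀ i : Fin 13, i.val < 11 → ∃ j : Fin 13, j.val < 10 ∧ g j = f i) : False := by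
  classical
  have h1 : (Finset.univ.filter (fun i : Fin 13 => i.val < 11)).image f ⊆
      (Finset.univ.filter (fun i : Fin 13 => i.val < 10)).image g := by
    intro x hx
    simp only [Finset.mem_image, Finset.mem_filter, Finset.mem_univ, true_and] at hx ⊢
    obtain ⟨i, hi, rfl⟩ := hx
    exact h i hi
  have h2 := Finset.card_le_card h1
  rw [Finset.card_image_of_injective _ hf] at h2
  have h3 := Finset.card_image_le (s := Finset.univ.filter (fun i : Fin 13 => i.val < 10)) (f := g)
  have h4 : (Finset.univ.filter (fun i : Fin 13 => i.val < 11)).card = 11 := by decide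
  have h5 : (Finset.univ.filter (fun i : Fin 13 => i.val < 10)).card = 10 := by decide
  omega

theorem step2 {m : ℕ} (G : SimpleGraph (Fin m)) (u : Fin m) (f g : Fin 13 → Fin m)
    (hcov : ∀ x y, G.Adj x y → x ≠ u → y ≠ u →
      (∃ i : Fin 13, i.val < 11 ∧ (f i = x ∨ f i = y)) ∨ (∃ i : Fin 13, i.val < 11 ∧ (g i = x ∨ g i = y)))
    (hG : ∀ c : Fin m → Fin m → Bool, (∀ x y : Fin m, c x y = c y x) →
      ∃ b : Bool, ∃ f : Fin 13 → Fin m, Function.Injective f ∧
        ∀ x y : Fin 13, H.Adj x y → G.Adj (f x) (f y) ∧ c (f x) (f y) = b) : False := by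
  classical
  let p : Fin m → Fin 3 := fun x =>
    if ∃ j : Fin 13, j.val < 10 ∧ f j = x then 0 else if ∃ j : Fin 13, j.val < 10 ∧ g j = x then 1 else 2
  obtain ⟨b, k, hk, hcol⟩ := hG (fun x y => decide (p x = p y)) (by
    intro x y
    simp only [eq_comm])
  cases b with
  | false =>
    have h : ∀ x y, H.Adj x y → p (k x) ≠ p (k y) := by
      intro x y hxy
      simpa using (hcol x y hxy).2
    exact no3col (p (k 0)) (p (k 1)) (h 0 1 (by decide)) (p (k 2)) (h 1 2 (by decide)) (p (k 3))
      (h 2 3 (by decide)) (p (k 4)) (h 3 4 (by decide)) (h 0 4 (by decide)) (p (k 10)) (p (k 5))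
      (h 1 5 (by decide)) (h 4 5 (by decide)) (h 5 10 (by decide)) (p (k 6))
      (h 0 6 (by decide)) (h 2 6 (by decide)) (h 6 10 (by decide)) (p (k 7))
      (h 1 7 (by decide)) (h 3 7 (by decide)) (h 7 10 (by decide)) (p (k 8))
      (h 2 8 (by decide)) (h 4 8 (by decide)) (h 8 10 (by decide)) (p (k 9))
      (h 0 9 (by decide)) (h 3 9 (by decide)) (h 9 10 (by decide))
  | true =>
    have h : ∀ x y, H.Adj x y → p (k x) = p (k y) := by
      intro x y hxy
      simpa using (hcol x y hxy).2
    have e1 := h 0 1 (by decide)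
    have e2 := h 1 2 (by decide)
    have e3 := h 2 3 (by decide)
    have e4 := h 3 4 (by decide)
    have e5 := h 1 5 (by decide)
    have e6 := h 0 6 (by decide)
    have e7 := h 1 7 (by decide)
    have e8 := h 2 8 (by decide)
    have e9 := h 0 9 (by decide)
    have e10 := h 5 10 (by decide)
    have hall : ∀ i : Fin 13, i.val < 11 → p (k i) = p (k 0) := by
      intro i hi
      fin_cases i <;> simp at hi ⊢ <;> simp_all
    by_cases h0 : ∃ j : Fin 13, j.val < 10 ∧ f j = k 0
    · apply pigeon k f hk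
      intro i hi
      have := hall i hi
      by_contra hc
      simp only [p, h0, hc, if_true, if_false] at this
      split_ifs at this <;> exact absurd this (by decide)
    by_cases h1 : ∃ j : Fin 13, j.val < 10 ∧ g j = k 0
    · apply pigeon k g hk
      intro i hi
      have := hall i hi
      by_contra hc
      simp only [p, h0, h1, hc, if_true, if_false] at this
      split_ifs at this <;> exact absurd this (by decide)
    have hout : ∀ i : Fin 13, i.val < 11 → (¬ ∃ j : Fin 13, j.val < 10 ∧ f j = k i) ∧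
        (¬ ∃ j : Fin 13, j.val < 10 ∧ g j = k i) := by
      intro i hi
      have := hall i hi
      simp only [p, h0, h1, if_false] at this
      split_ifs at this with q1 q2
      · exact absurd this (by decide)
      · exact absurd this (by decide)
      · exact ⟨q1, q2⟩
    have key : ∀ x y : Fin 13, H.Adj x y → x.val < 11 →
        ∃ z : Fin 13, (z = x ∨ z = y) ∧ (k z = u ∨ k z = f 10 ∨ k z = g 10) := by
      intro x y hxy hx
      have hy := adj_small x y hxy hx
      by_cases hxu : k x = u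
      · exact ⟨x, Or.inl rfl, Or.inl hxu⟩
      by_cases hyu : k y = u
      · exact ⟨y, Or.inr rfl, Or.inl hyu⟩
      have ten : ∀ i : Fin 13, i.val < 11 → ¬ i.val < 10 → i = 10 := by decide
      rcases hcov _ _ (hcol x y hxy).1 hxu hyu with ⟨i, hi, hi' | hi'⟩ | ⟨i, hi, hi' | hi'⟩
      · have : i = 10 := ten i hi (fun h10 => (hout x hx).1 ⟨i, h10, hi'⟩)
        subst this
        exact ⟨x, Or.inl rfl, Or.inr (Or.inl hi'.symm)⟩
      · have : i = 10 := ten i hi (fun h10 => (hout y hy).1 ⟨i, h10, hi'⟩)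
        subst this
        exact ⟨y, Or.inr rfl, Or.inr (Or.inl hi'.symm)⟩
      · have : i = 10 := ten i hi (fun h10 => (hout x hx).2 ⟨i, h10, hi'⟩)
        subst this
        exact ⟨x, Or.inl rfl, Or.inr (Or.inr hi'.symm)⟩
      · have : i = 10 := ten i hi (fun h10 => (hout y hy).2 ⟨i, h10, hi'⟩)
        subst this
        exact ⟨y, Or.inr rfl, Or.inr (Or.inr hi'.symm)⟩
    obtain ⟨z1, hz1, q1⟩ := key 0 1 (by decide) (by decide)
    obtain ⟨z2, hz2, q2⟩ := key 2 3 (by decide) (by decide)
    obtain ⟨z3, hz3, q3⟩ := key 4 5 (by decide) (by decide)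
    obtain ⟨z4, hz4, q4⟩ := key 6 10 (by decide) (by decide)
    have d12 : k z1 ≠ k z2 := fun e => by
      have := hk e
      rcases hz1 with rfl | rfl <;> rcases hz2 with rfl | rfl <;> exact absurd this (by decide)
    have d13 : k z1 ≠ k z3 := fun e => by
      have := hk e
      rcases hz1 with rfl | rfl <;> rcases hz3 with rfl | rfl <;> exact absurd this (by decide)
    have d14 : k z1 ≠ k z4 := fun e => by
      have := hk e
      rcases hz1 with rfl | rfl <;> rcases hz4 with rfl | rfl <;> exact absurd this (by decide)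
    have d23 : k z2 ≠ k z3 := fun e => by
      have := hk e
      rcases hz2 with rfl | rfl <;> rcases hz3 with rfl | rfl <;> exact absurd this (by decide)
    have d24 : k z2 ≠ k z4 := fun e => by
      have := hk e
      rcases hz2 with rfl | rfl <;> rcases hz4 with rfl | rfl <;> exact absurd this (by decide)
    have d34 : k z3 ≠ k z4 := fun e => by
      have := hk e
      rcases hz3 with rfl | rfl <;> rcases hz4 with rfl | rfl <;> exact absurd this (by decide)
    rcases q1 with q1 | q1 | q1 <;> rcases q2 with q2 | q2 | q2 <;> rcases q3 with q3 | q3 | q3 <;>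
      rcases q4 with q4 | q4 | q4 <;>
      first
        | exact d12 (q1.trans q2.symm)
        | exact d13 (q1.trans q3.symm)
        | exact d14 (q1.trans q4.symm)
        | exact d23 (q2.trans q3.symm)
        | exact d24 (q2.trans q4.symm)
        | exact d34 (q3.trans q4.symm)

theorem result :
    ¬ (∀ (n : ℕ) (H : SimpleGraph (Fin n)) (d : ℕ), H.CliqueFree 3 → 1 ≤ d →
      (∀ v : Fin n, d ≤ (H.neighborSet v).ncard) →
      (∃ v : Fin n, (H.neighborSet v).ncard = d) →
      (∃ (m : ℕ) (G : SimpleGraph (Fin m)),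
          ((∀ c : Fin m → Fin m → Bool, (∀ x y : Fin m, c x y = c y x) →
              ∃ b : Bool, ∃ f : Fin n → Fin m, Function.Injective f ∧
                ∀ u v : Fin n, H.Adj u v → G.Adj (f u) (f v) ∧ c (f u) (f v) = b) ∧
           (∀ v : Fin m, ∃ w : Fin m, G.Adj v w) ∧
           (∀ G' : SimpleGraph (Fin m), G' < G →
              ¬ (∀ c : Fin m → Fin m → Bool, (∀ x y : Fin m, c x y = c y x) →
                  ∃ b : Bool, ∃ f : Fin n → Fin m, Function.Injective f ∧
                    ∀ u v : Fin n, H.Adj u v → G'.Adj (f u) (f v) ∧ c (f u) (f v) = b))) ∧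
          (∀ v : Fin m, 2 * d - 1 ≤ (G.neighborSet v).ncard) ∧
          (∃ v : Fin m, (G.neighborSet v).ncard = 2 * d - 1)) ∧
      (∀ (m : ℕ) (G : SimpleGraph (Fin m)),
          ((∀ c : Fin m → Fin m → Bool, (∀ x y : Fin m, c x y = c y x) →
              ∃ b : Bool, ∃ f : Fin n → Fin m, Function.Injective f ∧
                ∀ u v : Fin n, H.Adj u v → G.Adj (f u) (f v) ∧ c (f u) (f v) = b) ∧
           (∀ v : Fin m, ∃ w : Fin m, G.Adj v w) ∧
           (∀ G' : SimpleGraph (Fin m), G' < G →
              ¬ (∀ c : Fin m → Fin m → Bool, (∀ x y : Fin m, c x y = c y x) →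
                  ∃ b : Bool, ∃ f : Fin n → Fin m, Function.Injective f ∧
                    ∀ u v : Fin n, H.Adj u v → G'.Adj (f u) (f v) ∧ c (f u) (f v) = b))) →
          ∀ v : Fin m, 2 * d - 1 ≤ (G.neighborSet v).ncard)) := by
  intro hall
  obtain ⟨⟨m, G, ⟨hG, -, hmin⟩, -, v, hv⟩, -⟩ := hall 13 H 1 H_cf le_rfl
    (by intro v; rw [H_deg]; revert v; decide) ⟨11, by rw [H_deg]; decide⟩
  obtain ⟨u, hu⟩ := Set.ncard_eq_one.mp hv
  have huv : G.Adj v u := by
    have : u ∈ G.neighborSet v := by rw [hu]; rfl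
    exact this
  have hv' : ∀ w, G.Adj v w → w = u := by
    intro w hw
    have : w ∈ G.neighborSet v := hw
    rw [hu] at this
    exact this
  have hlt : G.deleteEdges {s(v, u)} < G := by
    refine lt_of_le_of_ne (SimpleGraph.deleteEdges_le _) ?_
    intro h
    have : (G.deleteEdges {s(v, u)}).Adj v u := by rw [h]; exact huv
    simp at this
  have hn := hmin _ hlt
  rw [not_forall] at hn
  obtain ⟨c, hn⟩ := hn
  rw [Classical.not_imp] at hn
  obtain ⟨hc, hno⟩ := hn
  obtain ⟨f, -, hf⟩ := step1 G u v huv hv' hG c hc hno true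
  obtain ⟨g, -, hg⟩ := step1 G u v huv hv' hG c hc hno false
  apply step2 G u f g _ hG
  intro x y hxy hx hy
  cases hcxy : c x y with
  | true => exact Or.inl (hf x y hxy hx hy hcxy)
  | false => exact Or.inr (hg x y hxy hx hy hcxy)

end Pool.Agent.S10760
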