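import Pool.Statements.S10770
-- import your own Pool.Agent.* helpers here

set_option autoImplicit false
open Pool Pool.MP_ad5ca6_co

namespace Pool.Agent.S10770

def adj (i j : Fin 12) : Prop := (i.val % 2 = 0 ∧ j.val = i.val + 1) ∨ j.val / 2 = (i.val / 2 + 1) % 6

instance (i j : Fin 12) : Decidable (adj i j) := by unfold adj; infer_instance

noncomputable def M : Matrix (Fin 12) (Fin 12) ℂ := fun i j => if adj i j then 1 else 0

theorem M_one {i j : Fin 12} (h : M i j = 1) : adj i j := by
  by_contra hc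
  simp [M, hc] at h

theorem eig : (1 + (Real.sqrt 2 : ℂ)) ∈ spectrum ℂ M := by
  rw [spectrum.mem_iff, Matrix.isUnit_iff_isUnit_det, isUnit_iff_ne_zero, not_not,
    ← Matrix.exists_mulVec_eq_zero_iff]
  have h2 : (Real.sqrt 2 : ℂ) * (Real.sqrt 2 : ℂ) = 2 := by
    rw [← Complex.ofReal_mul, Real.mul_self_sqrt (by norm_num)]; norm_num
  refine ⟨fun i => if i.val % 2 = 0 then (Real.sqrt 2 : ℂ) else 1, ?_, ?_⟩
  · intro h
    have := congrFun h 1
    simp at this
  · rw [Algebra.algebraMap_eq_smul_one, Matrix.sub_mulVec, Matrix.smul_mulVec, Matrix.one_mulVec]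
    funext i
    fin_cases i <;>
      simp [Matrix.mulVec, dotProduct, Fin.sum_univ_succ, M, adj] <;>
      first | ring1 | linear_combination h2

theorem result :
    ¬ (∀ (n k : ℕ), 0 < k →
      ∀ (A : Matrix (Fin n) (Fin n) ℂ),
        (∀ i j, A i j = 0 ∨ A i j = 1) →
        (∀ i, A i i = 0) →
        (∃ μ ∈ spectrum ℂ A, (n : ℝ) / (k : ℝ) ≤ ‖μ‖) →
        ∃ m : ℕ, 2 ≤ m ∧ m ≤ k ∧
          ∃ v : Fin m → Fin n, Function.Injective v ∧
            ∀ i : Fin m, A (v i) (v (finRotate m i)) = 1) := by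
  intro h
  obtain ⟨m, h2, h5, v, -, hv⟩ := h 12 5 (by norm_num) M
    (fun i j => by unfold M; split_ifs <;> simp)
    (fun i => by
      have : ¬ adj i i := by unfold adj; omega
      simp [M, this])
    ⟨_, eig, by
      have e : (1 + (Real.sqrt 2 : ℂ)) = ((1 + Real.sqrt 2 : ℝ) : ℂ) := by push_cast; rfl
      have hs : (1.4 : ℝ) ≤ Real.sqrt 2 := Real.le_sqrt_of_sq_le (by norm_num)
      rw [e, Complex.norm_real, Real.norm_eq_abs, abs_of_nonneg (by linarith)]
      norm_num
      linarith⟩
  have hv' := fun i => M_one (hv i)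
  unfold adj at hv'
  interval_cases m
  · have a0 := hv' 0
    have a1 := hv' 1
    have e0 : finRotate 2 0 = 1 := by decide
    have e1 : finRotate 2 1 = 0 := by decide
    rw [e0] at a0; rw [e1] at a1
    omega
  · have a0 := hv' 0
    have a1 := hv' 1
    have a2 := hv' 2
    have e0 : finRotate 3 0 = 1 := by decide
    have e1 : finRotate 3 1 = 2 := by decide
    have e2 : finRotate 3 2 = 0 := by decide
    rw [e0] at a0; rw [e1] at a1; rw [e2] at a2
    omega
  · have a0 := hv' 0
    have a1 := hv' 1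
    have a2 := hv' 2
    have a3 := hv' 3
    have e0 : finRotate 4 0 = 1 := by decide
    have e1 : finRotate 4 1 = 2 := by decide
    have e2 : finRotate 4 2 = 3 := by decide
    have e3 : finRotate 4 3 = 0 := by decide
    rw [e0] at a0; rw [e1] at a1; rw [e2] at a2; rw [e3] at a3
    omega
  · have a0 := hv' 0
    have a1 := hv' 1
    have a2 := hv' 2
    have a3 := hv' 3
    have a4 := hv' 4
    have e0 : finRotate 5 0 = 1 := by decide
    have e1 : finRotate 5 1 = 2 := by decide
    have e2 : finRotate 5 2 = 3 := by decide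
    have e3 : finRotate 5 3 = 4 := by decide
    have e4 : finRotate 5 4 = 0 := by decide
    rw [e0] at a0; rw [e1] at a1; rw [e2] at a2; rw [e3] at a3; rw [e4] at a4
    omega

end Pool.Agent.S10770
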