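import Pool.Statements.S10780

set_option autoImplicit false
open Pool Pool.MP_ae0825_co

namespace Pool.Agent.S10780

open Finset SimpleGraph

lemma two_mul_le_pow (x : ℕ) : 2 * x ≤ 2 ^ x := by
  rcases x with _ | x
  · simp
  · have := @Nat.lt_two_pow_self x
    rw [pow_succ]; omega

lemma prod_fib (f : Fin 13 → Fin 9) :
    ∏ i : Fin 9, (univ.filter (fun k => f k = i)).card ≤ 16 := by
  have h1 : ∏ i : Fin 9, (2 * (univ.filter (fun k => f k = i)).card)
      ≤ ∏ i : Fin 9, 2 ^ (univ.filter (fun k => f k = i)).card :=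
    Finset.prod_le_prod' (fun i _ => two_mul_le_pow _)
  rw [Finset.prod_mul_distrib, Finset.prod_pow_eq_pow_sum] at h1
  have h2 := Finset.card_eq_sum_card_fiberwise (s := (univ : Finset (Fin 13)))
    (t := (univ : Finset (Fin 9))) (f := f) (fun _ _ => by simp)
  rw [← h2] at h1
  simp only [prod_const, card_univ, Fintype.card_fin] at h1
  omega

lemma turan_upper (m : ℕ) :
    Nat.card ((turanGraph (m * 9) 9).Coloring (Fin 13)) ≤ 9 ^ 13 * 16 ^ m := by
  classical
  let part : Fin (m * 9) → Fin 9 := fun v => ⟨v.val % 9, Nat.mod_lt _ (by norm_num)⟩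
  let S : (Fin 13 → Fin 9) → Finset (Fin (m * 9) → Fin 13) := fun f =>
    Fintype.piFinset (fun v => univ.filter (fun k => f k = part v))
  have hS : ∀ f, (S f).card ≤ 16 ^ m := by
    intro f
    simp only [S, Fintype.card_piFinset]
    rw [← Equiv.prod_comp finProdFinEquiv, Fintype.prod_prod_type]
    have : ∀ (j : Fin m) (i : Fin 9), part (finProdFinEquiv (j, i)) = i := by
      intro j i
      apply Fin.ext
      simp [part, Nat.mod_eq_of_lt i.2]
    simp only [this]
    rw [Finset.prod_const, card_univ, Fintype.card_fin]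
    exact Nat.pow_le_pow_left (prod_fib f) m
  have hinj : Function.Injective
      (fun c : (turanGraph (m * 9) 9).Coloring (Fin 13) => (c : Fin (m * 9) → Fin 13)) :=
    DFunLike.coe_injective
  have hmem : ∀ c : (turanGraph (m * 9) 9).Coloring (Fin 13),
      (c : Fin (m * 9) → Fin 13) ∈ univ.biUnion S := by
    intro c
    rw [mem_biUnion]
    refine ⟨fun k => if h : ∃ v, c v = k then part h.choose else 0, mem_univ _, ?_⟩
    simp only [S, Fintype.mem_piFinset, mem_filter, mem_univ, true_and]
    intro v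
    have h : ∃ w, c w = c v := ⟨v, rfl⟩
    rw [dif_pos h]
    by_contra hne
    have hadj : (turanGraph (m * 9) 9).Adj h.choose v := by
      rw [turanGraph_adj]
      intro h'
      exact hne (Fin.ext h')
    exact c.valid hadj h.choose_spec
  have h1 : Nat.card ((turanGraph (m * 9) 9).Coloring (Fin 13)) ≤ (univ.biUnion S).card := by
    rw [← Nat.card_eq_finsetCard]
    exact Nat.card_le_card_of_injective (fun c => ⟨c, hmem c⟩)
      (fun c d h => hinj (congrArg Subtype.val h))
  calc _ ≤ _ := h1
    _ ≤ ∑ f, (S f).card := card_biUnion_le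
    _ ≤ ∑ _f : Fin 13 → Fin 9, 16 ^ m := sum_le_sum (fun f _ => hS f)
    _ = _ := by simp

/-- vertex set of the competitor -/
abbrev W (a b : ℕ) := (Fin a × Fin 3) ⊕ (Fin b × Fin 7)

/-- part of a vertex -/
def pt {a b : ℕ} : W a b → Fin 3 ⊕ Fin 7 := Sum.map Prod.snd Prod.snd

/-- complete 10-partite graph -/
def G0 (a b : ℕ) : SimpleGraph (W a b) where
  Adj u v := pt u ≠ pt v
  symm := ⟨fun _ _ h => h.symm⟩
  loopless := ⟨fun _ h => h rfl⟩

instance (a b : ℕ) : DecidableRel (G0 a b).Adj := fun u v => inferInstanceAs (Decidable (pt u ≠ pt v))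

lemma cardW (a b : ℕ) : Fintype.card (W a b) = a * 3 + b * 7 := by simp

lemma deg (a b : ℕ) (u : W a b) :
    (G0 a b).degree u + Sum.elim (fun _ => a) (fun _ => b) u = a * 3 + b * 7 := by
  rw [← cardW, ← card_neighborFinset_eq_degree, neighborFinset_eq_filter]
  have h := Finset.card_filter_add_card_filter_not (s := (univ : Finset (W a b)))
    (fun v => (G0 a b).Adj u v)
  rw [card_univ] at h
  rw [← h]
  congr 1
  simp only [G0, not_not]
  rw [Finset.card_filter, Fintype.sum_sum_type, Fintype.sum_prod_type, Fintype.sum_prod_type]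
  rcases u with ⟨x, i⟩ | ⟨x, i⟩ <;> simp [pt]

lemma edges0 (a b : ℕ) :
    2 * (G0 a b).edgeFinset.card + (3 * a ^ 2 + 7 * b ^ 2) = (a * 3 + b * 7) ^ 2 := by
  rw [← sum_degrees_eq_twice_card_edges]
  have h := Finset.sum_congr (rfl : (univ : Finset (W a b)) = univ) (fun u _ => deg a b u)
  rw [sum_add_distrib, sum_const, card_univ, cardW, Fintype.sum_sum_type (f := fun u : W a b =>
    Sum.elim (fun _ => a) (fun _ => b) u)] at h
  simp only [Sum.elim_inl, Sum.elim_inr, sum_const, card_univ, Fintype.card_prod,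
    Fintype.card_fin, smul_eq_mul] at h
  nlinarith

/-- the colourings of the competitor -/
def col {a b : ℕ} (s : Fin a × Fin 3 → Bool) : W a b → Fin 13
  | Sum.inl x => ⟨2 * x.2.val + (if s x then 1 else 0), by have := x.2.2; split_ifs <;> omega⟩
  | Sum.inr x => ⟨6 + x.2.val, by have := x.2.2; omega⟩

lemma col_valid {a b : ℕ} (s : Fin a × Fin 3 → Bool) (u v : W a b) (h : (G0 a b).Adj u v) :
    col s u ≠ col s v := by
  intro hc
  apply h
  have hc' := congrArg Fin.val hc
  rcases u with ⟨x, i⟩ | ⟨x, i⟩ <;> rcases v with ⟨y, j⟩ | ⟨y, j⟩ <;>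
    simp only [col] at hc' <;> simp only [pt, Sum.map_inl, Sum.map_inr]
  · congr 1; apply Fin.ext; split_ifs at hc' <;> omega
  · exfalso; have := i.2; split_ifs at hc' <;> omega
  · exfalso; have := j.2; split_ifs at hc' <;> omega
  · congr 1; apply Fin.ext; omega

lemma col_inj {a b : ℕ} : Function.Injective (col (a := a) (b := b)) := by
  intro s t h
  funext x
  have := congrArg Fin.val (congrFun h (Sum.inl x))
  simp only [col] at this
  cases hs : s x <;> cases ht : t x <;> simp [hs, ht] at this ⊢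

lemma main (a b m : ℕ) (h1 : a * 3 + b * 7 = m * 9) (h2 : 3 * a ^ 2 + 7 * b ^ 2 ≤ 9 * m ^ 2)
    (h3 : 9 ^ 13 * 16 ^ m < 2 ^ (a * 3)) :
    ∃ G : SimpleGraph (Fin (m * 9)),
      Nat.card G.edgeSet = Nat.card (turanGraph (m * 9) 9).edgeSet ∧
      Nat.card ((turanGraph (m * 9) 9).Coloring (Fin 13)) < Nat.card (G.Coloring (Fin 13)) := by
  classical
  have e1 := edges0 a b
  have e2 := mul_card_edgeFinset_turanGraph_le (n := m * 9) (r := 9)
  have hle : (turanGraph (m * 9) 9).edgeFinset.card ≤ (G0 a b).edgeFinset.card := by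
    rw [h1] at e1
    norm_num at e2
    nlinarith
  obtain ⟨T, hT, hTc⟩ := Finset.exists_subset_card_eq hle
  let e : W a b ≃ Fin (m * 9) := Fintype.equivFinOfCardEq ((cardW a b).trans h1)
  let G1 : SimpleGraph (W a b) := fromEdgeSet (T : Set (Sym2 (W a b)))
  have hTsub : (T : Set (Sym2 (W a b))) ⊆ (G0 a b).edgeSet := by
    intro x hx
    exact mem_edgeFinset.1 (hT hx)
  have hG1 : G1.edgeSet = T := by
    simp only [G1, edgeSet_fromEdgeSet]
    ext x
    constructor
    · exact fun h => h.1
    · intro h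
      exact ⟨h, (G0 a b).not_isDiag_of_mem_edgeSet (hTsub h)⟩
  have hle1 : G1 ≤ G0 a b := by
    rw [← edgeSet_subset_edgeSet, hG1]; exact hTsub
  let G : SimpleGraph (Fin (m * 9)) := G1.comap e.symm
  let iso : G ≃g G1 := Iso.comap e.symm G1
  refine ⟨G, ?_, ?_⟩
  · rw [Nat.card_congr iso.mapEdgeSet, hG1]
    simp only [Finset.coe_sort_coe, Nat.card_eq_fintype_card, Fintype.card_coe]
    rw [hTc, ← Set.toFinset_card]
    rfl
  · let φ : (Fin a × Fin 3 → Bool) → G.Coloring (Fin 13) := fun s =>
      Coloring.mk (fun v => col s (e.symm v)) (fun {v w} h => col_valid s _ _ (hle1 h))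
    have hφ : Function.Injective φ := by
      intro s t h
      apply col_inj (b := b)
      funext x
      have := congrArg (fun c : G.Coloring (Fin 13) => c (e x)) h
      simpa [φ, Coloring.mk] using this
    have h4 := Nat.card_le_card_of_injective φ hφ
    have h5 : Nat.card (Fin a × Fin 3 → Bool) = 2 ^ (a * 3) := by simp
    have h6 := turan_upper m
    omega

theorem result :
    ¬ (∀ r q n : ℕ, 2 ≤ r → r ≤ 9 → r ≤ q → r ≤ n →
      ∀ G : SimpleGraph (Fin n),
        Nat.card G.edgeSet = Nat.card (SimpleGraph.turanGraph n r).edgeSet →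
        IsEmpty (G ≃g SimpleGraph.turanGraph n r) →
        Nat.card (G.Coloring (Fin q)) <
          Nat.card ((SimpleGraph.turanGraph n r).Coloring (Fin q))) := by
  intro H
  have key : ∀ m : ℕ, 1 ≤ m → (∃ G : SimpleGraph (Fin (m * 9)),
      Nat.card G.edgeSet = Nat.card (turanGraph (m * 9) 9).edgeSet ∧
      Nat.card ((turanGraph (m * 9) 9).Coloring (Fin 13)) < Nat.card (G.Coloring (Fin 13))) →
      False := by
    rintro m hm ⟨G, hG, hlt⟩
    have := H 9 13 (m * 9) (by norm_num) le_rfl (by norm_num) (by omega) G hG ⟨fun iso => by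
      have : Nat.card (G.Coloring (Fin 13))
          ≤ Nat.card ((turanGraph (m * 9) 9).Coloring (Fin 13)) := by
        apply Nat.card_le_card_of_injective
          (fun c : G.Coloring (Fin 13) => (c.comp iso.symm.toHom))
        intro c d h
        apply DFunLike.ext
        intro v
        have := congrArg (fun c : (turanGraph (m * 9) 9).Coloring (Fin 13) => c (iso v)) h
        simpa using this
      omega⟩
    omega
  exact key 1000 (by norm_num) (main 1355 705 1000 (by norm_num) (by norm_num) (by decide +kernel))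

end Pool.Agent.S10780
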