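import Pool.Statements.S10818
import Pool.Agent.H.MP_afcf11_co.B

set_option autoImplicit false
open Pool Pool.MP_afcf11_co

namespace Pool.Agent.S10818

open Pool.Agent.H.MP_afcf11_co.A

abbrev E := EuclideanSpace ℝ (Fin 2)

noncomputable def lf (a b : ℝ) : E →L[ℝ] ℝ :=
  a • EuclideanSpace.proj (0 : Fin 2) + b • EuclideanSpace.proj (1 : Fin 2)

theorem lf_apply (a b : ℝ) (z : E) : lf a b z = a * z 0 + b * z 1 := by simp [lf]

def K : Set E := {z | |z 0| ≤ 4 ∧ |z 1| ≤ 3 ∧ |z 0 + z 1| ≤ 5 ∧ |z 0 - z 1| ≤ 5}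

theorem K_eq : K = lf 1 0 ⁻¹' Set.Icc (-4) 4 ∩ (lf 0 1 ⁻¹' Set.Icc (-3) 3 ∩
    (lf 1 1 ⁻¹' Set.Icc (-5) 5 ∩ lf 1 (-1) ⁻¹' Set.Icc (-5) 5)) := by
  ext z
  simp [K, lf_apply, abs_le, sub_eq_add_neg]

theorem K_convex : Convex ℝ K := by
  rw [K_eq]
  refine Convex.inter ?_ (Convex.inter ?_ (Convex.inter ?_ ?_)) <;>
    exact (convex_Icc _ _).linear_preimage (ContinuousLinearMap.toLinearMap _)

theorem K_compact : IsCompact K := by
  refine Metric.isCompact_of_isClosed_isBounded ?_ ?_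
  · rw [K_eq]
    refine IsClosed.inter ?_ (IsClosed.inter ?_ (IsClosed.inter ?_ ?_)) <;>
      exact isClosed_Icc.preimage (ContinuousLinearMap.continuous _)
  · refine (Metric.isBounded_closedBall (x := (0 : E)) (r := 5)).subset fun z hz => ?_
    rw [mem_closedBall_zero_iff, EuclideanSpace.norm_eq, Real.sqrt_le_left (by norm_num),
      Fin.sum_univ_two, Real.norm_eq_abs, Real.norm_eq_abs]
    nlinarith [hz.1, hz.2.1, abs_nonneg (z 0), abs_nonneg (z 1)]

theorem K_int : (interior K).Nonempty := by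
  refine ⟨0, mem_interior.mpr ⟨Metric.ball 0 1, fun z hz => ?_, Metric.isOpen_ball, by simp⟩⟩
  rw [mem_ball_zero_iff] at hz
  have h0 := abs_le.mp ((PiLp.norm_apply_le z 0).trans hz.le)
  have h1 := abs_le.mp ((PiLp.norm_apply_le z 1).trans hz.le)
  simp only [K, Set.mem_ofPred_eq, abs_le]
  refine ⟨⟨?_, ?_⟩, ⟨?_, ?_⟩, ⟨?_, ?_⟩, ?_, ?_⟩ <;> linarith [h0.1, h0.2, h1.1, h1.2]

theorem strict (a b c : ℝ) (hab : a ≠ 0 ∨ b ≠ 0) (hK : ∀ z ∈ K, |a * z 0 + b * z 1| ≤ c) (x z : E)
    (hz : z ∈ interior ((fun z => x + z) '' K)) : |a * (z 0 - x 0) + b * (z 1 - x 1)| < c := by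
  have hf : lf a b ≠ 0 := fun h => by
    have := congrArg (fun f : E →L[ℝ] ℝ => f !₂[a, b]) h
    simp only [lf_apply, zero_apply] at this
    change a * a + b * b = 0 at this
    rcases hab with h | h <;> nlinarith [mul_self_pos.mpr h, mul_self_nonneg a, mul_self_nonneg b]
  have := ((lf a b).isOpenMap_of_ne_zero hf).preimage_interior_eq_interior_preimage
    (lf a b).continuous (Set.Icc (lf a b x - c) (lf a b x + c))
  rw [interior_Icc] at this
  have h2 := this.superset (interior_mono (t := lf a b ⁻¹' Set.Icc _ _) (by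
    rintro _ ⟨y, hy, rfl⟩
    have := abs_le.mp (hK y hy)
    rw [← lf_apply] at this
    simp only [Set.mem_preimage, map_add, Set.mem_Icc]
    constructor <;> linarith [this.1, this.2]) hz)
  simp only [Set.mem_preimage, Set.mem_Ioo, lf_apply] at h2
  rw [abs_lt]
  constructor <;> linarith [h2.1, h2.2]

noncomputable def pt (p : ℤ × ℤ) : E := !₂[2 * (p.1 : ℝ), 2 * (p.2 : ℝ)]

theorem pt_inj : Function.Injective pt := fun p q h => by
  have h0 : 2 * (p.1 : ℝ) = 2 * q.1 := congrArg (fun z : E => z 0) h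
  have h1 : 2 * (p.2 : ℝ) = 2 * q.2 := congrArg (fun z : E => z 1) h
  exact Prod.ext (by exact_mod_cast (by linarith : (p.1 : ℝ) = q.1))
    (by exact_mod_cast (by linarith : (p.2 : ℝ) = q.2))

theorem touch (p q : ℤ × ℤ) (h : Adj (q - p)) : pt p ≠ pt q ∧
    ((fun z => pt p + z) '' K ∩ (fun z => pt q + z) '' K).Nonempty ∧
    interior ((fun z => pt p + z) '' K) ∩ interior ((fun z => pt q + z) '' K) = ∅ := by
  obtain ⟨h1, h2, h3, h4, h5⟩ := h
  simp only [Prod.fst_sub, Prod.snd_sub] at h1 h2 h3 h4 h5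
  refine ⟨fun e => ?_, ⟨!₂[(p.1 : ℝ) + q.1, (p.2 : ℝ) + q.2],
    ⟨!₂[(q.1 : ℝ) - p.1, (q.2 : ℝ) - p.2], ?_, ?_⟩,
    ⟨!₂[(p.1 : ℝ) - q.1, (p.2 : ℝ) - q.2], ?_, ?_⟩⟩, ?_⟩
  · rw [pt_inj e] at h5
    simp at h5
  · simp only [K, Set.mem_ofPred_eq, Matrix.cons_val_zero, Matrix.cons_val_one]
    exact ⟨by exact_mod_cast h1, by exact_mod_cast h2, by exact_mod_cast h3, by exact_mod_cast h4⟩
  · ext i
    fin_cases i <;> simp [pt] <;> ring
  · rw [← abs_neg] at h1 h2 h3 h4
    refine ⟨?_, ?_, ?_, ?_⟩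
    · change |(p.1 : ℝ) - q.1| ≤ 4
      exact_mod_cast (by simpa using h1)
    · change |(p.2 : ℝ) - q.2| ≤ 3
      exact_mod_cast (by simpa using h2)
    · change |(p.1 : ℝ) - q.1 + (p.2 - q.2)| ≤ 5
      exact_mod_cast (by convert h3 using 2; ring)
    · change |(p.1 : ℝ) - q.1 - (p.2 - q.2)| ≤ 5
      exact_mod_cast (by convert h4 using 2; ring)
  · ext i
    fin_cases i <;> simp [pt] <;> ring
  · refine Set.eq_empty_of_forall_notMem fun z hz => ?_
    have key : ∀ a b c : ℤ, (a : ℝ) ≠ 0 ∨ (b : ℝ) ≠ 0 →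
        (∀ z ∈ K, |(a : ℝ) * z 0 + b * z 1| ≤ c) → |a * (q.1 - p.1) + b * (q.2 - p.2)| ≠ c := by
      intro a b c hab hK e
      have e1 := abs_lt.mp (strict a b c hab hK _ z hz.1)
      have e2 := abs_lt.mp (strict a b c hab hK _ z hz.2)
      have e3 : |(a : ℝ) * (q.1 - p.1) + b * (q.2 - p.2)| = c := by exact_mod_cast e
      simp only [pt, PiLp.toLp_apply, Matrix.cons_val_zero, Matrix.cons_val_one] at e1 e2
      refine absurd e3 (abs_lt.mpr ⟨?_, ?_⟩).ne <;> linarith [e1.1, e1.2, e2.1, e2.2]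
    rcases h5 with h | h | h | h
    · exact key 1 0 4 (by simp) (fun z hz => by simpa using hz.1) (by simpa using h)
    · exact key 0 1 3 (by simp) (fun z hz => by simpa using hz.2.1) (by simpa using h)
    · exact key 1 1 5 (by simp) (fun z hz => by simpa using hz.2.2.1) (by simpa using h)
    · exact key 1 (-1) 5 (by simp) (fun z hz => by simpa [sub_eq_add_neg] using hz.2.2.2)
        (by convert h using 2; ring)

/-- The negation of the preceding statement: For d ≥ 2, m > 2 and every convex body K in R^d: some set of at least (m−1)(d+1) translates has two touching members among any m, and every such set has at most (m−1)2^d translates. -/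
theorem result :
    ¬ (∀ (d m : ℕ), 2 ≤ d → 2 < m →
      ∀ K : Set (EuclideanSpace ℝ (Fin d)), Convex ℝ K → IsCompact K → (interior K).Nonempty →
        (∃ T : Finset (EuclideanSpace ℝ (Fin d)), (m - 1) * (d + 1) ≤ T.card ∧
          ∀ S ⊆ T, S.card = m → ∃ x ∈ S, ∃ y ∈ S, x ≠ y ∧
            ((fun z => x + z) '' K ∩ (fun z => y + z) '' K).Nonempty ∧
            interior ((fun z => x + z) '' K) ∩ interior ((fun z => y + z) '' K) = ∅) ∧
        (∀ T : Finset (EuclideanSpace ℝ (Fin d)),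
          (∀ S ⊆ T, S.card = m → ∃ x ∈ S, ∃ y ∈ S, x ≠ y ∧
            ((fun z => x + z) '' K ∩ (fun z => y + z) '' K).Nonempty ∧
            interior ((fun z => x + z) '' K) ∩ interior ((fun z => y + z) '' K) = ∅) →
          T.card ≤ (m - 1) * 2 ^ d)) := by
  intro h
  classical
  obtain ⟨n, hn0⟩ : ∃ n : ℤ, n = 8000 := ⟨_, rfl⟩
  have h2 := (h 2 16000000 le_rfl (by norm_num) K K_convex K_compact K_int).2
    ((Finset.Icc (1 : ℤ) n ×ˢ Finset.Icc (1 : ℤ) n).image pt) (fun S hS hc => by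
      obtain ⟨I, hI, rfl⟩ := Finset.subset_image_iff.mp hS
      rw [Finset.card_image_of_injective _ pt_inj] at hc
      by_contra hn
      have := dens I (B := Finset.Icc (-6 : ℤ) n ×ˢ Finset.Icc (-6 : ℤ) n) (fun v x hx => by
        have := Finset.mem_product.mp (hI hx)
        have h1 := tb3 XT v
        have h2 := tb3 YT v
        simp only [Finset.mem_product, Finset.mem_Icc, px, Prod.fst_sub, Prod.snd_sub] at this ⊢
        omega) fun x hx y hy ha => hn ⟨_, Finset.mem_image_of_mem _ hx, _,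
          Finset.mem_image_of_mem _ hy, touch x y ha⟩
      rw [hc, Finset.card_product, Int.card_Icc] at this
      rw [show (n + 1 - -6 : ℤ) = (8007 : ℕ) by omega, Int.toNat_natCast] at this
      omega)
  rw [Finset.card_image_of_injective _ pt_inj, Finset.card_product, Int.card_Icc] at h2
  rw [show (n + 1 - 1 : ℤ) = (8000 : ℕ) by omega, Int.toNat_natCast] at h2
  omega

end Pool.Agent.S10818
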