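import Pool.Statements.S10849
import Pool.Agent.H.MP_b0e7a9_co.A

set_option autoImplicit false
open Pool Pool.MP_b0e7a9_co

namespace Pool.Agent.S10849

open Pool.Agent.H.MP_b0e7a9_co Finset

theorem result :
    ∀ (d k : ℕ), 0 < d → k < d →
    ∀ (p : Fin (d + 1) → EuclideanSpace ℝ (Fin d)), AffineIndependent ℝ p →
    (∀ i, ‖p i‖ ≤ 1) →
    ∀ (x : EuclideanSpace ℝ (Fin d)), x ∈ convexHull ℝ (Set.range p) →
    ∀ ρ : ℝ,
      Disjoint (Metric.ball x ρ)
        (⋃ (s : Finset (Fin (d + 1))) (_ : s.card = k + 1), convexHull ℝ (p '' (s : Set (Fin (d + 1))))) →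
      ρ ≤ Real.sqrt (((d : ℝ) - (k : ℝ)) / ((d : ℝ) * ((k : ℝ) + 1))) := by
  intro d k hd hk p hp h1 x hx ρ hD
  rw [convexHull_range_eq_exists_affineCombination] at hx
  obtain ⟨s, w, w0, w1, rfl⟩ := hx
  rw [affineCombination_eq_linear_combination _ _ _ w1] at hD
  set a : Fin (d + 1) → ℝ := fun i => if i ∈ s then w i else 0 with ha
  have a0 : ∀ i, 0 ≤ a i := fun i => by
    simp only [ha]; split_ifs with h
    · exact w0 i h
    · exact le_refl _
  have a1 : ∑ i, a i = 1 := by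
    simp only [ha]; rw [sum_ite_mem, univ_inter, w1]
  have a2 : D p a = ∑ i ∈ s, w i • p i := by
    rw [D_apply]; simp only [ha, ite_smul, zero_smul]; rw [sum_ite_mem, univ_inter]
  obtain ⟨t, t1, μ, m1, m2, m3, m4⟩ := main p (fun δ e1 e2 => funext fun i =>
    affineIndependent_iff.mp hp univ δ e1 (by rw [← D_apply]; exact e2) i (mem_univ _))
    (D p a) k d hk.le univ (by simp) a a0 (fun i hi => absurd (mem_univ i) hi) a1
  have y1 : D p μ ∈ convexHull ℝ (p '' (t : Set (Fin (d + 1)))) := by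
    rw [D_apply, ← sum_subset (subset_univ t) (fun i _ hi => by rw [m2 i hi, zero_smul])]
    apply (convex_convexHull ℝ _).sum_mem (fun i _ => m1 i)
    · rw [← m3]; exact sum_subset (subset_univ t) fun i _ hi => m2 i hi
    · intro i hi
      exact subset_convexHull ℝ _ ⟨i, hi, rfl⟩
  have y2 : D p μ ∉ Metric.ball (∑ i ∈ s, w i • p i) ρ := fun h =>
    Set.disjoint_left.mp hD h (Set.mem_iUnion₂.mpr ⟨t, t1, y1⟩)
  rw [Metric.mem_ball, not_lt, ← a2, dist_eq_norm] at y2
  refine y2.trans (Real.le_sqrt_of_sq_le (m4.trans ?_))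
  have dp : (0:ℝ) < d := by exact_mod_cast hd
  have kd : (k:ℝ) ≤ d := by exact_mod_cast hk.le
  have e : 1 - (k : ℝ) * (d + 1) / (d * (k + 1)) = ((d : ℝ) - k) / (d * (k + 1)) := by
    field_simp; ring
  rw [e, sub_self, norm_zero]
  have q1 : Q p a ≤ 1 := by
    rw [Q_apply, ← a1]
    apply sum_le_sum
    intro i _
    exact mul_le_of_le_one_right (a0 i) (pow_le_one₀ (norm_nonneg _) (h1 i))
  have q2 : 0 ≤ ((d : ℝ) - k) / (d * (k + 1)) := div_nonneg (by linarith) (by positivity)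
  have q3 : Q p a - ‖D p a‖ ^ 2 ≤ 1 := by nlinarith [sq_nonneg ‖D p a‖]
  have := mul_le_of_le_one_right q2 q3
  linarith

end Pool.Agent.S10849
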