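import Pool.Statements.S10880
import Pool.Agent.H.MP_b23e6d_co.A

set_option autoImplicit false
open Pool Pool.MP_b23e6d_co

namespace Pool.Agent.S10880

theorem result :
    ¬ (∀ 𝒢 : (n : ℕ) → SimpleGraph (Fin n) → Prop,
      (∀ (n m : ℕ) (G : SimpleGraph (Fin n)) (H : SimpleGraph (Fin m)),
          Nonempty (SimpleGraph.Embedding H G) → 𝒢 n G → 𝒢 m H) →
      (∃ k : ℕ, ∀ (n : ℕ) (G : SimpleGraph (Fin n)), 𝒢 n G →
          (3 ≤ n ∧ G.Connected ∧ ∀ v : Fin n, (G.induce {w | w ≠ v}).Connected) →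
          (3 ≤ n ∧ ∀ M : Set (Fin n),
              (∀ x, x ∉ M → ∀ y ∈ M, ∀ z ∈ M, (G.Adj x y ↔ G.Adj x z)) →
              M.Subsingleton ∨ M = Set.univ) →
          ∃ ℓ : ℕ → Fin k, ∀ P : Finset ℕ → SimpleGraph ℕ → (ℕ → Fin k) → Prop,
            ((∀ ℓ₀ : ℕ → Fin k, P ∅ ⊥ ℓ₀) ∧
             (∀ (i : ℕ) (ℓ₀ : ℕ → Fin k), P {i} ⊥ ℓ₀) ∧
             (∀ (S₁ S₂ : Finset ℕ) (H₁ H₂ : SimpleGraph ℕ) (ℓ₁ ℓ₂ : ℕ → Fin k),
                P S₁ H₁ ℓ₁ → P S₂ H₂ ℓ₂ → Disjoint S₁ S₂ →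
                P (S₁ ∪ S₂) (H₁ ⊔ H₂) (fun v => if v ∈ S₁ then ℓ₁ v else ℓ₂ v)) ∧
             (∀ (S : Finset ℕ) (H : SimpleGraph ℕ) (ℓ₀ : ℕ → Fin k) (a b : Fin k),
                a ≠ b → P S H ℓ₀ →
                P S (H ⊔ SimpleGraph.fromRel
                  (fun u v => u ∈ S ∧ v ∈ S ∧ ℓ₀ u = a ∧ ℓ₀ v = b)) ℓ₀) ∧
             (∀ (S : Finset ℕ) (H : SimpleGraph ℕ) (ℓ₀ : ℕ → Fin k) (a b : Fin k),
                P S H ℓ₀ → P S H (fun v => if ℓ₀ v = a then b else ℓ₀ v))) →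
            P (Finset.range n) (G.map Fin.valEmbedding) ℓ) →
      (∃ k : ℕ, ∀ (n : ℕ) (G : SimpleGraph (Fin n)), 𝒢 n G →
          ∃ ℓ : ℕ → Fin k, ∀ P : Finset ℕ → SimpleGraph ℕ → (ℕ → Fin k) → Prop,
            ((∀ ℓ₀ : ℕ → Fin k, P ∅ ⊥ ℓ₀) ∧
             (∀ (i : ℕ) (ℓ₀ : ℕ → Fin k), P {i} ⊥ ℓ₀) ∧
             (∀ (S₁ S₂ : Finset ℕ) (H₁ H₂ : SimpleGraph ℕ) (ℓ₁ ℓ₂ : ℕ → Fin k),
                P S₁ H₁ ℓ₁ → P S₂ H₂ ℓ₂ → Disjoint S₁ S₂ →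
                P (S₁ ∪ S₂) (H₁ ⊔ H₂) (fun v => if v ∈ S₁ then ℓ₁ v else ℓ₂ v)) ∧
             (∀ (S : Finset ℕ) (H : SimpleGraph ℕ) (ℓ₀ : ℕ → Fin k) (a b : Fin k),
                a ≠ b → P S H ℓ₀ →
                P S (H ⊔ SimpleGraph.fromRel
                  (fun u v => u ∈ S ∧ v ∈ S ∧ ℓ₀ u = a ∧ ℓ₀ v = b)) ℓ₀) ∧
             (∀ (S : Finset ℕ) (H : SimpleGraph ℕ) (ℓ₀ : ℕ → Fin k) (a b : Fin k),
                P S H ℓ₀ → P S H (fun v => if ℓ₀ v = a then b else ℓ₀ v))) →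
            P (Finset.range n) (G.map Fin.valEmbedding) ℓ)) := by
  intro h
  obtain ⟨k, hk⟩ := h (fun n G => ∃ r : Fin n → ℕ, Function.Injective r ∧ ∀ v,
      (∀ u, r u < r v → G.Adj u v) ∨
        ∀ u w, r u < r v → r w < r v → G.Adj u v → G.Adj w v → u = w)
    (by
      rintro n m G H ⟨f⟩ ⟨r, i, p⟩
      exact ⟨r ∘ f, i.comp f.injective, fun v => (p (f v)).imp
        (fun a u b => f.map_adj_iff.1 (a _ b)) fun a u w b c d e =>
          f.injective (a _ _ b c (f.map_adj_iff.2 d) (f.map_adj_iff.2 e))⟩)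
    ⟨1, by
      rintro n G ⟨r, i, p⟩ ⟨h3, hc, hd⟩ ⟨-, hp⟩
      exfalso
      have : Nonempty (Fin n) := ⟨⟨0, by omega⟩⟩
      obtain ⟨v, hv⟩ := Finite.exists_max r
      have lt : ∀ u, u ≠ v → r u < r v := fun u a => (hv u).lt_of_ne fun b => a (i b)
      have third : ∀ a b : Fin n, ∃ c, c ≠ a ∧ c ≠ b := fun a b => by
        obtain ⟨c, -, hc⟩ := Finset.exists_mem_notMem_of_card_lt_card (s := {a, b})
          (t := Finset.univ) (Finset.card_le_two.trans_lt (by simp; omega))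
        exact ⟨c, by simpa [not_or] using hc⟩
      obtain ⟨w, wv, -⟩ := third v v
      rcases p v with a | a
      · obtain ⟨x, xv, xw⟩ := third v w
        rcases hp {v}ᶜ (fun x hx y hy z hz => by
          obtain rfl : x = v := by simpa using hx
          exact iff_of_true (a y (lt y hy)).symm (a z (lt z hz)).symm) with b | b
        exacts [xw (b xv wv), (b.ge (Set.mem_univ v)) rfl]
      · obtain ⟨y, hy⟩ : ∃ y, G.Adj v y := by
          obtain ⟨q⟩ := hc v w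
          cases q with
          | nil => exact absurd rfl wv
          | cons g _ => exact ⟨_, g⟩
        obtain ⟨x, xv, xy⟩ := third v y
        obtain ⟨q⟩ := hd y ⟨v, hy.ne⟩ ⟨x, xy⟩
        have : ∀ s t, (G.induce {w | w ≠ y}).Walk s t → s.1 = v → t.1 = v := by
          intro s t q e
          cases q with
          | nil => exact e
          | @cons _ u _ g _ =>
            have g' : G.Adj v u.1 := e ▸ g
            exact absurd (a _ _ (lt _ g'.ne') (lt _ hy.ne') g'.symm hy.symm) u.2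
        exact xv (this _ _ q rfl)⟩
  obtain ⟨l, hl⟩ := hk ((2 * k + 1) * (2 * k + 6))
    (SimpleGraph.fromRel fun s t => Pool.Agent.H.MP_b23e6d_co.A (2 * k + 6) s.1 t.1)
    ⟨Fin.val, Fin.val_injective, fun v => by
      by_cases e : v.1 % (2 * k + 6) = 0
      · exact .inl fun u a => ⟨fun b => a.ne (congrArg _ b), .inl ⟨a, .inl e⟩⟩
      · refine .inr ?_
        rintro u w a b ⟨-, ⟨-, c | c⟩ | ⟨c, -⟩⟩ ⟨-, ⟨-, d | d⟩ | ⟨d, -⟩⟩ <;> omega⟩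
  refine Pool.Agent.H.MP_b23e6d_co.lower k _ _ rfl rfl _ (fun s t => ?_) l
    (hl _ (Pool.Agent.H.MP_b23e6d_co.closed k _ _ (by omega)))
  rw [SimpleGraph.map_adj]
  constructor
  · rintro ⟨a, b, ⟨-, c⟩, rfl, rfl⟩
    exact ⟨a.2, b.2, c⟩
  · rintro ⟨a, b, c⟩
    exact ⟨⟨s, a⟩, ⟨t, b⟩, ⟨fun e => by
      have := congrArg Fin.val e
      rcases c with ⟨c, -⟩ | ⟨c, -⟩ <;> simp only at this <;> omega, c⟩, rfl, rfl⟩

end Pool.Agent.S10880
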