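import Pool.Statements.S10882
-- import your own Pool.Agent.* helpers here

set_option autoImplicit false
open Pool Pool.MP_b245d9_co

namespace Pool.Agent.S10882

def D (u v : Fin 11) : Prop := Nat.testBit 632162332023319728973750102966413312 (11 * u.val + v.val) = true

instance : DecidableRel D := fun u v => inferInstanceAs (Decidable (_ = true))

def G : SimpleGraph (Fin 11) where
  Adj u v := D u v ∨ D v u
  symm := ⟨fun _ _ h => h.symm⟩
  loopless := ⟨by decide⟩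

instance : DecidableRel G.Adj := fun u v => inferInstanceAs (Decidable (D u v ∨ D v u))

set_option synthInstance.maxSize 2000 in
theorem four : ∀ x0 : Fin 4, 
    ∀ x1 : Fin 4, x1 ≠ x0 → 
    ∀ x2 : Fin 4, x2 ≠ x1 → 
    ∀ x3 : Fin 4, x3 ≠ x0 → x3 ≠ x1 → 
    ∀ x4 : Fin 4, x4 ≠ x0 → x4 ≠ x3 → 
    ∀ x5 : Fin 4, x5 ≠ x3 → 
    ∀ x6 : Fin 4, x6 ≠ x0 → x6 ≠ x4 → 
    ∀ x7 : Fin 4, x7 ≠ x4 → x7 ≠ x5 → x7 ≠ x6 → 
    ∀ x8 : Fin 4, x8 ≠ x2 → x8 ≠ x5 → x8 ≠ x6 → 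
    ∀ x9 : Fin 4, x9 ≠ x1 → x9 ≠ x2 → x9 ≠ x3 → x9 ≠ x4 → x9 ≠ x5 → x9 ≠ x7 → x9 ≠ x8 → 
    ∀ x10 : Fin 4, x10 ≠ x0 → x10 ≠ x1 → x10 ≠ x2 → x10 ≠ x5 → x10 ≠ x6 → x10 ≠ x7 → x10 ≠ x8 → 
    x0 = x7 ∧ x0 = x8 ∧ x1 = x4 ∧ x1 = x5 ∧ x2 = x3 ∧ x2 = x6 ∧ x9 = x10 := by
  decide +kernel

set_option synthInstance.maxSize 2000 in
theorem three : ∀ x0 : Fin 3, 
    ∀ x1 : Fin 3, x1 ≠ x0 → 
    ∀ x2 : Fin 3, x2 ≠ x1 → 
    ∀ x3 : Fin 3, x3 ≠ x0 → x3 ≠ x1 → 
    ∀ x4 : Fin 3, x4 ≠ x0 → x4 ≠ x3 → 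
    ∀ x5 : Fin 3, x5 ≠ x3 → 
    ∀ x6 : Fin 3, x6 ≠ x0 → x6 ≠ x4 → 
    ∀ x7 : Fin 3, x7 ≠ x4 → x7 ≠ x5 → x7 ≠ x6 → 
    ∀ x8 : Fin 3, x8 ≠ x2 → x8 ≠ x5 → x8 ≠ x6 → 
    ∀ x9 : Fin 3, x9 ≠ x1 → x9 ≠ x2 → x9 ≠ x3 → x9 ≠ x4 → x9 ≠ x5 → x9 ≠ x7 → x9 ≠ x8 → 
    ∀ x10 : Fin 3, x10 ≠ x0 → x10 ≠ x1 → x10 ≠ x2 → x10 ≠ x5 → x10 ≠ x6 → x10 ≠ x7 → x10 ≠ x8 → 
    False := by
  decide +kernel

def col : Fin 11 → Fin 4 := ![0, 1, 2, 2, 1, 1, 2, 0, 0, 3, 3]

theorem paths : ∀ a b : Fin 11, D a b → ∀ c, D b c → ∀ d, D c d →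
    col a = col b ∨ col a = col c ∨ col a = col d ∨ col b = col c ∨ col b = col d ∨
      col c = col d := by
  decide +kernel

theorem uniq (c : G.Coloring (Fin 4)) : ∀ u v, col u = col v → c u = c v := by
  obtain ⟨h1, h2, h3, h4, h5, h6, h7⟩ := four (c 0) (c 1) (c.valid (by decide)) (c 2) (c.valid (by decide)) (c 3) (c.valid (by decide)) (c.valid (by decide)) (c 4) (c.valid (by decide)) (c.valid (by decide)) (c 5) (c.valid (by decide)) (c 6) (c.valid (by decide)) (c.valid (by decide)) (c 7) (c.valid (by decide)) (c.valid (by decide)) (c.valid (by decide)) (c 8) (c.valid (by decide)) (c.valid (by decide)) (c.valid (by decide)) (c 9) (c.valid (by decide)) (c.valid (by decide)) (c.valid (by decide)) (c.valid (by decide)) (c.valid (by decide)) (c.valid (by decide)) (c.valid (by decide)) (c 10) (c.valid (by decide)) (c.valid (by decide)) (c.valid (by decide)) (c.valid (by decide)) (c.valid (by decide)) (c.valid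 (by decide)) (c.valid (by decide))
  have key : ∀ u, c u = c (![0, 1, 2, 9] (col u)) := by
    intro u
    fin_cases u
    exacts [rfl, rfl, rfl, h5.symm, h3.symm, h4.symm, h6.symm, h1.symm, h2.symm, rfl, h7.symm]
  intro u v h
  rw [key u, key v, h]

theorem chi : G.chromaticNumber = 4 := by
  have h4 : G.Colorable 4 := ⟨SimpleGraph.Coloring.mk col (by decide)⟩
  have h3 : ¬ G.Colorable 3 := by
    rintro ⟨c⟩
    exact three (c 0) (c 1) (c.valid (by decide)) (c 2) (c.valid (by decide)) (c 3) (c.valid (by decide)) (c.valid (by decide)) (c 4) (c.valid (by decide)) (c.valid (by decide)) (c 5) (c.valid (by decide)) (c 6) (c.valid (by decide)) (c.valid (by decide)) (c 7) (c.valid (by decide)) (c.valid (by decide)) (c.valid (by decide)) (c 8) (c.valid (by decide)) (c.valid (by decide)) (c.valid (by decide)) (c 9) (c.valid (by decide)) (c.valid (by decide)) (c.valid (by decide)) (c.valid (by decide)) (c.valid (by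 decide)) (c.valid (by decide)) (c.valid (by decide)) (c 10) (c.valid (by decide)) (c.valid (by decide)) (c.valid (by decide)) (c.valid (by decide)) (c.valid (by decide)) (c.valid (by decide)) (c.valid (by decide))
  apply le_antisymm h4.chromaticNumber_le
  by_contra hlt
  push Not at hlt
  apply h3
  rw [← SimpleGraph.chromaticNumber_le_iff_colorable]
  exact Order.le_of_lt_add_one hlt

theorem result :
    ¬ (∀ (V : Type) [Fintype V] (G : SimpleGraph V),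
      G.chromaticNumber = 4 →
      ∀ D : V → V → Prop,
        (∀ u v, D u v → G.Adj u v) →
        (∀ u v, G.Adj u v → (D u v ↔ ¬ D v u)) →
        ∃ (p : Fin 4 → V) (c : G.Coloring (Fin 4)),
          (∀ i : Fin 3, D (p i.castSucc) (p i.succ)) ∧
          Function.Injective (fun i => c (p i))) := by
  intro H
  obtain ⟨p, c, h1, h2⟩ := H (Fin 11) G chi D (fun _ _ h => Or.inl h) (by decide)
  have := paths (p 0) (p 1) (h1 0) (p 2) (h1 1) (p 3) (h1 2)
  rcases this with h | h | h | h | h | h <;>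
    exact absurd (h2 (uniq c _ _ h)) (by decide)

end Pool.Agent.S10882
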