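import Pool.Statements.S10885
import Pool.Agent.H.MP_b24dd2_co.C

set_option autoImplicit false
open scoped Matrix
open Pool Pool.MP_b24dd2_co

namespace Pool.Agent.S10885

/-- For 2 ≤ k < v, any non-binary equireplicate block design with v treatments, b blocks of size k and replication r that is efficiency balanced with factor e > 0 is beaten by some connected binary design with the same parameters, whose efficiency factor exceeds e. -/
theorem result :
  ∀ (v b k r : ℕ), 2 ≤ k → k < v →
    ∀ N' : Matrix (Fin v) (Fin b) ℕ,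
      (∀ i, ∑ j, N' i j = r) → (∀ j, ∑ i, N' i j = k) → (∃ i j, 2 ≤ N' i j) →
      ∀ e : ℝ, 0 < e →
        (1 : Matrix (Fin v) (Fin v) ℝ)
            - (1 / ((r : ℝ) * (k : ℝ))) •
                (N'.map (Nat.cast : ℕ → ℝ) * (N'.map (Nat.cast : ℕ → ℝ))ᵀ)
          = e • ((1 : Matrix (Fin v) (Fin v) ℝ)
                  - (1 / (v : ℝ)) • Matrix.of (fun _ _ => (1 : ℝ))) →
        ∃ N : Matrix (Fin v) (Fin b) ℕ,
          (∀ i, ∑ j, N i j = r) ∧ (∀ j, ∑ i, N i j = k) ∧ (∀ i j, N i j ≤ 1) ∧
          ((1 : Matrix (Fin v) (Fin v) ℝ)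
              - (1 / ((r : ℝ) * (k : ℝ))) •
                  (N.map (Nat.cast : ℕ → ℝ) * (N.map (Nat.cast : ℕ → ℝ))ᵀ)
              + (1 / (v : ℝ)) • Matrix.of (fun _ _ => (1 : ℝ))).det ≠ 0 ∧
          e < ((v : ℝ) - 1) /
            (Matrix.trace
              (((1 : Matrix (Fin v) (Fin v) ℝ)
                  - (1 / ((r : ℝ) * (k : ℝ))) •
                      (N.map (Nat.cast : ℕ → ℝ) * (N.map (Nat.cast : ℕ → ℝ))ᵀ)
                  + (1 / (v : ℝ)) • Matrix.of (fun _ _ => (1 : ℝ)))⁻¹) - 1) := by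
  intro v b k r k2 kv N h1 h2 ⟨i, j, h3⟩ e e0 hE
  have v1 : (1 : ℝ) < v := by exact_mod_cast (by omega : 1 < v)
  have hv : (v : ℝ) = Fintype.card (Fin v) := by simp
  have r2 : 2 ≤ r := h3.trans (h1 i ▸ Finset.single_le_sum (f := fun j => N i j)
    (fun _ _ => Nat.zero_le _) (Finset.mem_univ j))
  have r0 : (0 : ℝ) < r := by exact_mod_cast (by omega : 0 < r)
  have k0 : (0 : ℝ) < k := by exact_mod_cast (by omega : 0 < k)
  have off : ∀ a c, a ≠ c → ∑ j, (N a j : ℝ) * N c j = e * (r * k) / v := by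
    intro a c h
    have := congrFun (congrFun hE a) c
    simp [Matrix.mul_apply, h] at this
    field_simp at this ⊢
    linarith
  set β := e * (r * k) / v with hβ
  have dg : ∀ a, ∑ j, (N a j : ℝ) * N a j = r + (r * k - r - β * (v - 1)) := by
    intro a
    have := congrFun (congrFun hE a) a
    simp [Matrix.mul_apply] at this
    rw [hβ]
    field_simp at this ⊢
    linarith
  set δ := (r * k - r - β * (v - 1) : ℝ) with hδ
  have dl : (N i j : ℝ) * N i j - N i j ≤ δ := by
    have a := dg i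
    have b : ∑ j, (N i j : ℝ) = r := by exact_mod_cast h1 i
    have c := Finset.single_le_sum (f := fun j => (N i j : ℝ) * N i j - N i j)
      (fun j _ => sub_nonneg.2 (by exact_mod_cast Nat.le_mul_self _)) (Finset.mem_univ j)
    rw [Finset.sum_sub_distrib] at c
    linarith
  have n2 : (2 : ℝ) ≤ N i j := by exact_mod_cast h3
  have d2 : 2 ≤ δ := by nlinarith
  have b0 : 0 < β := by positivity
  have eq : (r * k - r : ℝ) = β * (v - 1) + δ := by rw [hδ]; ring
  have w : (0 : ℝ) < v - 1 := by linarith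
  have lb : β < (r * k - r) / (v - 1) := by rw [lt_div_iff₀ w]; linarith
  have fin : (∃ M : Matrix (Fin v) (Fin b) ℕ, (∀ i, ((∑ j, M i j : ℕ) : ℝ) = r) ∧
      (∀ j, ((∑ i, M i j : ℕ) : ℝ) = k) ∧ (∀ i j, M i j ≤ 1) ∧
      ((1 : Matrix (Fin v) (Fin v) ℝ) - (1 / ((r : ℝ) * k)) •
        (M.map (Nat.cast : ℕ → ℝ) * (M.map (Nat.cast : ℕ → ℝ))ᵀ)
        + (1 / (v : ℝ)) • Matrix.of (fun _ _ => (1 : ℝ))).det ≠ 0 ∧
      β * v / (r * k) < (v - 1) / (((1 : Matrix (Fin v) (Fin v) ℝ) - (1 / ((r : ℝ) * k)) •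
        (M.map (Nat.cast : ℕ → ℝ) * (M.map (Nat.cast : ℕ → ℝ))ᵀ)
        + (1 / (v : ℝ)) • Matrix.of (fun _ _ => (1 : ℝ)))⁻¹.trace - 1)) := by
    rcases k2.eq_or_lt with rfl | k3
    · have : NeZero v := ⟨by omega⟩
      obtain ⟨M, hM, K⟩ := Pool.Agent.H.MP_b24dd2_co.two N (Equiv.addRight (1 : Fin v))
        (fun i => by simp; omega) (fun i => by rw [h1]) h2 dg off
      have hM' : Pool.Agent.H.MP_b24dd2_co.Des (r : ℝ) ((2 : ℕ) : ℝ) M := by simpa using hM
      refine Pool.Agent.H.MP_b24dd2_co.fin2 hM' hv v1 b0 (by linarith) r0 eq (μ := β * v)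
        (by positivity) (by gcongr) (Pool.Agent.H.MP_b24dd2_co.eig2 hM' hv K)
        (Pool.Agent.H.MP_b24dd2_co.Sbd2 hM' hv v1 (by linarith) eq K) ?_
      have : δ < (r * (2 : ℕ) - r) / (v - 1) * v := by
        rw [div_mul_eq_mul_div, lt_div_iff₀ w, eq]
        nlinarith [mul_pos (mul_pos b0 w) (show (0 : ℝ) < v by linarith)]
      nlinarith [mul_lt_mul_of_pos_left this (show 0 < β * v * δ by positivity)]
    · have vb : v * r = b * k := by
        have : ∑ i, ∑ j, N i j = ∑ j, ∑ i, N i j := Finset.sum_comm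
        simpa [h1, h2] using this
      obtain ⟨M, hM, mn⟩ := Pool.Agent.H.MP_b24dd2_co.mini
        (Pool.Agent.H.MP_b24dd2_co.ex (by omega) kv.le vb)
      have K := fun a c => Pool.Agent.H.MP_b24dd2_co.key (a := a) (c := c) hM mn
        (by exact_mod_cast (by omega : 1 ≤ k))
      have nat : ∀ c, c ≠ i → 1 ≤ β ∧ (β < 2 → N c j = 0) := by
        intro c hc
        have a : ((∑ j, N i j * N c j : ℕ) : ℝ) = β := by push_cast; exact off i c hc.symm
        have a1 : 0 < ∑ j, N i j * N c j := by exact_mod_cast a ▸ b0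
        refine ⟨by rw [← a]; exact_mod_cast a1, fun h => ?_⟩
        have a2 : ∑ j, N i j * N c j < 2 := by exact_mod_cast a ▸ h
        have := Finset.single_le_sum (f := fun j => N i j * N c j) (fun _ _ => Nat.zero_le _)
          (Finset.mem_univ j)
        by_contra n
        have := Nat.mul_le_mul h3 (Nat.one_le_iff_ne_zero.2 n)
        omega
      have : Nontrivial (Fin v) := Fin.nontrivial_iff_two_le.2 (by omega)
      obtain ⟨c, hc⟩ := exists_ne i
      have b1 := (nat c hc).1
      set d := (r * k - r : ℝ)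
      have d0 : 0 < d := by nlinarith
      have l0 : 0 < d / (v - 1) := by positivity
      have dv : d ≤ d / (v - 1) * v := by
        rw [div_mul_eq_mul_div, le_div_iff₀ w]; nlinarith
      have gen : ∀ t : ℝ, 2 ≤ t → t ≤ δ → v * d / 2 ≤ (d - d / t) ^ 2 → _ := fun t t2 td h =>
        Pool.Agent.H.MP_b24dd2_co.fin2 hM hv v1 b0 (by linarith) r0 eq (μ := d / t)
          (by positivity) ((div_le_self d0.le (by linarith)).trans dv)
          (Pool.Agent.H.MP_b24dd2_co.eig1 hM hv (div_le_self d0.le (by linarith)) h d0.le K)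
          (Pool.Agent.H.MP_b24dd2_co.Sbd hM hv v1 (by field_simp) K) (by
            have : d ≤ δ * (d / t) := by
              rw [← mul_div_assoc, le_div_iff₀ (by linarith)]; nlinarith
            nlinarith [mul_lt_mul_of_pos_right lb (show 0 < v * d by positivity),
              mul_le_mul_of_nonneg_left this (show 0 ≤ d / (v - 1) * v by positivity)])
      by_cases hb : β < 2
      · have : N i j = k := by
          rw [← h2 j, Finset.sum_eq_single i (fun c _ hc => (nat c hc).2 hb) (by simp)]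
        have k3' : (3 : ℝ) ≤ N i j := by exact_mod_cast this ▸ k3
        have : v ≤ d := by nlinarith
        exact gen 4 (by norm_num) (by nlinarith) (by nlinarith)
      · have : 2 * v ≤ d := by nlinarith
        exact gen 2 le_rfl d2 (by nlinarith)
  obtain ⟨M, a1, a2, a3, a4, a5⟩ := fin
  refine ⟨M, fun i => by exact_mod_cast a1 i, fun j => by exact_mod_cast a2 j, a3, a4, ?_⟩
  rwa [show β * v / (r * k) = e by rw [hβ]; field_simp] at a5

end Pool.Agent.S10885
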