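import Pool.Statements.S10902

set_option autoImplicit false
open Pool Pool.MP_b33253_co

namespace Pool.Agent.S10902

/-- The negation of the preceding statement: For every colouring of the rationals with finitely many colours there are rationals x and d, with d nonzero, such that x, x+d, x+1/d and x+d+1/d all have the same colour. -/
theorem result :
    ¬ (∀ (r : ℕ) (c : ℚ → Fin r), ∃ x d : ℚ, d ≠ 0 ∧
      c (x + d) = c x ∧ c (x + 1 / d) = c x ∧ c (x + d + 1 / d) = c x) := by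
  intro h
  obtain ⟨x, d, hd, h1, h2, h3⟩ := h 4
    (fun x => ⟨(⌊x ^ 2⌋ % 4).toNat, by omega⟩)
  simp only [Fin.mk.injEq] at h1 h2 h3
  have hid : x ^ 2 - (x + d) ^ 2 - (x + 1 / d) ^ 2 + (x + d + 1 / d) ^ 2 = 2 := by
    field_simp
    ring
  have a1 := Int.floor_le (x ^ 2)
  have a2 := Int.lt_floor_add_one (x ^ 2)
  have b1 := Int.floor_le ((x + d) ^ 2)
  have b2 := Int.lt_floor_add_one ((x + d) ^ 2)
  have c1 := Int.floor_le ((x + 1 / d) ^ 2)
  have c2 := Int.lt_floor_add_one ((x + 1 / d) ^ 2)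
  have e1 := Int.floor_le ((x + d + 1 / d) ^ 2)
  have e2 := Int.lt_floor_add_one ((x + d + 1 / d) ^ 2)
  generalize ⌊x ^ 2⌋ = A at *
  generalize ⌊(x + d) ^ 2⌋ = B at *
  generalize ⌊(x + 1 / d) ^ 2⌋ = C at *
  generalize ⌊(x + d + 1 / d) ^ 2⌋ = E at *
  have lo : ((0 : ℤ) : ℚ) < ((A - B - C + E : ℤ) : ℚ) := by push_cast; linarith
  have hi : ((A - B - C + E : ℤ) : ℚ) < ((4 : ℤ) : ℚ) := by push_cast; linarith
  have lo' : (0 : ℤ) < A - B - C + E := by exact_mod_cast lo
  have hi' : A - B - C + E < (4 : ℤ) := by exact_mod_cast hi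
  omega

end Pool.Agent.S10902
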