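import Pool.Statements.S10980
import Pool.Agent.H.MP_b6d645_co.Main

set_option autoImplicit false
open Pool Pool.MP_b6d645_co

namespace Pool.Agent.S10980

theorem result :
    ¬ (∀ (n : ℕ) (G : SimpleGraph (Fin n)),
      (∀ v : Fin n, ∃ w : Fin n, G.Adj v w) →
      (∀ s : Finset (Fin n),
        Maximal (fun t : Finset (Fin n) => G.IsIndepSet (t : Set (Fin n))) s →
          2 * s.card = n) →
      ∃ m : ℕ,
        (∀ i : ℕ, i < m →
          {s : Finset (Fin n) | G.IsIndepSet (s : Set (Fin n)) ∧ s.card = i}.ncard ≤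
          {s : Finset (Fin n) | G.IsIndepSet (s : Set (Fin n)) ∧ s.card = i + 1}.ncard) ∧
        (∀ i : ℕ, m ≤ i →
          {s : Finset (Fin n) | G.IsIndepSet (s : Set (Fin n)) ∧ s.card = i + 1}.ncard ≤
          {s : Finset (Fin n) | G.IsIndepSet (s : Set (Fin n)) ∧ s.card = i}.ncard)) := by
  intro H
  obtain ⟨G, h1, h2, h3, h4⟩ := Pool.Agent.H.MP_b6d645_co.main
  obtain ⟨m, hm1, hm2⟩ := H 1690 G h1 (by
    intro s hs
    have := h2 s hs.1 (by
      intro v hv hi
      rw [← Finset.coe_insert] at hi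
      exact hv (hs.2 hi (Finset.subset_insert v s) (Finset.mem_insert_self v s)))
    omega)
  rcases Nat.lt_or_ge 443 m with h | h
  · exact absurd (hm1 443 h) (not_le.2 h3)
  · exact absurd (hm2 444 (by omega)) (not_le.2 h4)

end Pool.Agent.S10980
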