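import Pool.Statements.S10999
import Pool.Agent.H.MP_b7b1cf_co.B

set_option autoImplicit false
open Pool Pool.MP_b7b1cf_co

namespace Pool.Agent.S10999

/-- For oriented matroids M1, M2* on an n-element set (given by covector axioms) whose union is free and whose ranks sum to n: they share a nonzero covector iff they share a nonzero vector. -/
theorem result :
    ∀ (n : ℕ) (OM : Set (Fin n → SignType) → Prop)
      (Vec : Set (Fin n → SignType) → Set (Fin n → SignType))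
      (Indep : Set (Fin n → SignType) → Finset (Fin n) → Prop),
      (∀ L : Set (Fin n → SignType), OM L ↔
        ((0 : Fin n → SignType) ∈ L ∧
         (∀ X ∈ L, -X ∈ L) ∧
         (∀ X ∈ L, ∀ Y ∈ L, (fun e => if X e = 0 then Y e else X e) ∈ L) ∧
         (∀ X ∈ L, ∀ Y ∈ L, ∀ e : Fin n, X e ≠ 0 → X e = -Y e →
            ∃ Z ∈ L, Z e = 0 ∧
              ∀ f : Fin n, (X f = 0 ∨ X f ≠ -Y f) →
                Z f = (if X f = 0 then Y f else X f)))) →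
      (∀ (L : Set (Fin n → SignType)) (Y : Fin n → SignType), Y ∈ Vec L ↔
        ∀ X ∈ L, (∀ e : Fin n, X e * Y e = 0) ∨
          ∃ e f : Fin n, X e * Y e = 1 ∧ X f * Y f = -1) →
      (∀ (L : Set (Fin n → SignType)) (I : Finset (Fin n)), Indep L I ↔
        ∀ Y ∈ Vec L, Y ≠ 0 → ∃ e : Fin n, Y e ≠ 0 ∧ e ∉ I) →
      ∀ L₁ L₂ : Set (Fin n → SignType), OM L₁ → OM L₂ →
        (∃ I₁ I₂ : Finset (Fin n), Indep L₁ I₁ ∧ Indep L₂ I₂ ∧ I₁ ∪ I₂ = Finset.univ) →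
        (∃ B₁ B₂ : Finset (Fin n), Indep L₁ B₁ ∧ Indep L₂ B₂ ∧
          (∀ J : Finset (Fin n), Indep L₁ J → J.card ≤ B₁.card) ∧
          (∀ J : Finset (Fin n), Indep L₂ J → J.card ≤ B₂.card) ∧
          B₁.card + B₂.card = n) →
        ((∃ X : Fin n → SignType, X ≠ 0 ∧ X ∈ L₁ ∧ X ∈ L₂) ↔
          (∃ Y : Fin n → SignType, Y ≠ 0 ∧ Y ∈ Vec L₁ ∧ Y ∈ Vec L₂)) := by
  intro n OM Vec Indep hOM hVec hInd L₁ L₂ h1 h2 ⟨I₁, I₂, i1, i2, hU⟩ ⟨B₁, B₂, _, _, m1, m2, hn⟩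
  open Pool.Agent.H.MP_b7b1cf_co in
  have hV : ∀ L, Vec L = Vc L := fun L => Set.ext fun Y => hVec L Y
  obtain ⟨z1, n1, c1, e1⟩ := (hOM _).1 h1
  obtain ⟨z2, n2, c2, e2⟩ := (hOM _).1 h2
  have k1 := m1 _ i1
  have k2 := m2 _ i2
  have k3 := Finset.card_union_add_card_inter I₁ I₂
  rw [hU, Finset.card_univ, Fintype.card_fin] at k3
  have k4 : I₁ ∩ I₂ = ∅ := Finset.card_eq_zero.1 (by omega)
  have k5 : ∀ e, e ∈ I₂ ↔ e ∉ I₁ := fun e => ⟨fun h h' => Finset.notMem_empty e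
    (k4 ▸ Finset.mem_inter.2 ⟨h', h⟩), fun h =>
      (Finset.mem_union.1 (hU ▸ Finset.mem_univ e)).resolve_left h⟩
  simp only [hInd, hV] at i1 i2 m1 m2 ⊢
  open Pool.Agent.H.MP_b7b1cf_co in
  constructor
  · rintro ⟨X, h0, a1, a2⟩
    open Pool.Agent.H.MP_b7b1cf_co in
    refine key _ _ (Vc_comp _) (Vc_comp _) (Vc_elim _ c1 e1 n1) (Vc_elim _ c2 e2 n2) (Vc_neg _)
      (Vc_neg _) (Vc_zero _) (Vc_zero _) I₂ (fun e he => ?_)
      (fci L₂ I₂ i2 fun J hJ => (m2 J hJ).trans (by omega)) X h0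
      (fun Y hY => (hY X a1).symm) (fun Y hY => (hY X a2).symm)
    obtain ⟨Y, hY, b1, b2⟩ := Pool.Agent.H.MP_b7b1cf_co.fci L₁ I₁ i1
      (fun J hJ => (m1 J hJ).trans (by omega)) e ((k5 e).1 he)
    exact ⟨Y, hY, b1, fun f hf => b2 f ((k5 f).1 hf)⟩
  · rintro ⟨Y, h0, a1, a2⟩
    open Pool.Agent.H.MP_b7b1cf_co in
    refine key _ _ c1 c2 e1 e2 n1 n2 z1 z2 I₁ (fco L₁ c1 e1 n1 I₁ i1) (fun e he => ?_) Y h0 a1 a2
    obtain ⟨X, hX, b1, b2⟩ := Pool.Agent.H.MP_b7b1cf_co.fco L₂ c2 e2 n2 I₂ i2 e ((k5 e).2 he)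
    exact ⟨X, hX, b1, fun f hf => b2 f ((k5 f).2 hf)⟩

end Pool.Agent.S10999
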