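import Pool.Statements.S11033
import Pool.Agent.H.MP_b9302b_co.E

set_option autoImplicit false
open Pool Pool.MP_b9302b_co

namespace Pool.Agent.S11033

theorem result :
    ∃ N : ℕ, ∀ (G : Type) [AddCommGroup G] [Fintype G],
      Odd (Fintype.card G) → N < Fintype.card G →
      ∃ (x y a : Fin ((Fintype.card G - 1) / 2) → G),
        Function.Injective (Sum.elim x y) ∧
        (∀ i, x i ≠ 0 ∧ y i ≠ 0) ∧
        Function.Injective (Sum.elim (fun i => x i - y i) (fun i => y i - x i)) ∧
        Function.Injective a ∧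
        (∀ i, a i ≠ 0) ∧
        Function.Injective (Sum.elim (fun i => x i + a i) (fun i => y i + a i)) ∧
        (∀ i, x i + a i ≠ 0 ∧ y i + a i ≠ 0) := by
  refine ⟨9, fun G _ _ h1 h2 => ?_⟩
  rw [Nat.odd_iff] at h1
  obtain ⟨ι, x, y, jf, jc, j1, j2, j3, j4, j5⟩ := Pool.Agent.H.MP_b9302b_co.main _ G
    Nat.card_eq_fintype_card h1 (by omega) (by omega) (by omega)
  rw [Nat.card_eq_fintype_card (α := G)] at jc
  let e : Fin ((Fintype.card G - 1) / 2) ≃ ι :=
    (Finite.equivFinOfCardEq (by omega)).symm
  have m := (Equiv.sumCongr e e).injective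
  refine ⟨fun i => x (e i), fun i => y (e i), fun i => -(x (e i) + y (e i)), ?_, fun i => j2 _, ?_,
    fun i j h => e.injective (j4 (neg_injective h)), fun i => neg_ne_zero.2 (j5 _), ?_,
    fun i => by simp [j2]⟩
  · convert j1.comp m using 1
    funext w; rcases w with w | w <;> rfl
  · convert j3.comp m using 1
    funext w; rcases w with w | w <;> rfl
  · convert neg_injective.comp ((j1.comp (Equiv.sumComm ι ι).injective).comp m) using 1
    funext w; rcases w with w | w <;> simp

end Pool.Agent.S11033
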