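import Pool.Statements.S11043
import Pool.Agent.H.MP_b989b4_co.Main

set_option autoImplicit false
open Pool Pool.MP_b989b4_co

namespace Pool.Agent.S11043

theorem result :
    ∀ n : ℕ, ∃ k : ℕ, n ≤ k ∧ ∃ M : Matroid (Fin k), M.E = Set.univ ∧
      (¬ ∀ e ∈ M.E, ∀ f ∈ M.E, e ≠ f →
          Set.ncard {B : Set (Fin k) | M.IsBase B ∧ e ∈ B ∧ f ∈ B} *
            Set.ncard {B : Set (Fin k) | M.IsBase B} ≤
          Set.ncard {B : Set (Fin k) | M.IsBase B ∧ e ∈ B} *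
            Set.ncard {B : Set (Fin k) | M.IsBase B ∧ f ∈ B}) ∧
      ∀ N : Matroid (Fin k), N.IsStrictMinor M →
        ∀ e ∈ N.E, ∀ f ∈ N.E, e ≠ f →
          Set.ncard {B : Set (Fin k) | N.IsBase B ∧ e ∈ B ∧ f ∈ B} *
            Set.ncard {B : Set (Fin k) | N.IsBase B} ≤
          Set.ncard {B : Set (Fin k) | N.IsBase B ∧ e ∈ B} *
            Set.ncard {B : Set (Fin k) | N.IsBase B ∧ f ∈ B} := by
  intro n
  let E := Fintype.equivFin (Fin 4 ⊕ ((ZMod (n + 2) ⊕ ZMod (n + 2)) × Bool))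
  refine ⟨Fintype.card (Fin 4 ⊕ ((ZMod (n + 2) ⊕ ZMod (n + 2)) × Bool)), ?_, ?_⟩
  · simp only [Fintype.card_sum, Fintype.card_prod, ZMod.card, Fintype.card_bool]
    omega
  · haveI : Fact (1 < n + 2) := ⟨by omega⟩
    refine Pool.Agent.H.MP_b989b4_co.main (ι := ZMod (n + 2)) (σ := Equiv.refl _)
      (τ := Equiv.addRight 1) (fun i => by simp)
      (fun z h => Pool.Agent.H.MP_b989b4_co.zmod_conn _ z h)
      (fun g => Sum.map id Prod.fst (E.symm g)) fun k => ?_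
    rw [← Pool.Agent.H.MP_b989b4_co.fib0 k]
    congr 1
    exact Finset.card_equiv E.symm (by simp)

end Pool.Agent.S11043
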