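import Pool.Statements.S11060
import Mathlib
import Pool.Agent.H.MP_ba3dea_co.Main

set_option autoImplicit false
open Classical
open Pool Pool.MP_ba3dea_co

namespace Pool.Agent.S11060

/-- The negation of the preceding statement: Every finite 3-vertex-connected simple graph has a cycle cover of minimum total length in which each edge lies in at most two of the cycles. -/
theorem result :
    ¬ (∀ (V : Type) [Fintype V] (G : SimpleGraph V),
      (3 < Fintype.card V ∧
        ∀ S : Finset V, S.card < 3 → (G.induce ((↑S : Set V)ᶜ)).Connected) →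
      ∃ F : List (Σ u : V, G.Walk u u),
        ((∀ c ∈ F, c.2.IsCycle) ∧
          ∀ e ∈ G.edgeSet, ∃ c ∈ F, e ∈ c.2.edges) ∧
        (∀ F' : List (Σ u : V, G.Walk u u),
          ((∀ c ∈ F', c.2.IsCycle) ∧
            ∀ e ∈ G.edgeSet, ∃ c ∈ F', e ∈ c.2.edges) →
          (F.map (fun c => c.2.length)).sum ≤ (F'.map (fun c => c.2.length)).sum) ∧
        ∀ e ∈ G.edgeSet, F.countP (fun c => decide (e ∈ c.2.edges)) ≤ 2) := by
  intro H
  obtain ⟨F, ⟨h1, h2⟩, h3, h4⟩ := H (Fin 60) Pool.Agent.H.MP_ba3dea_co.G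
    ⟨by simp, Pool.Agent.H.MP_ba3dea_co.conn⟩
  have a := Pool.Agent.H.MP_ba3dea_co.main F h1 h2 (fun e he => by convert h4 e he)
  have b := h3 Pool.Agent.H.MP_ba3dea_co.cov ⟨Pool.Agent.H.MP_ba3dea_co.cov_cyc, fun e he => by
    obtain ⟨i, hi, rfl⟩ := (Pool.Agent.H.MP_ba3dea_co.mem_iff e).1 he
    exact Pool.Agent.H.MP_ba3dea_co.cov_cov i hi⟩
  rw [Pool.Agent.H.MP_ba3dea_co.cov_len] at b
  omega

end Pool.Agent.S11060
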