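import Pool.Statements.S11067
import Pool.Agent.H.MP_ba5def_co.D

set_option autoImplicit false
open Pool Pool.MP_ba5def_co

namespace Pool.Agent.S11067
open Pool.Agent.H.MP_ba5def_co

/-- For every n ≥ 3 and ε > 0, for all large d, any finite set of at least 2^(εd) points in Euclidean d-space contains n points whose pairwise distances are all different. -/
theorem result :
    ∀ n : ℕ, 3 ≤ n → ∀ ε : ℝ, 0 < ε → ∃ D : ℕ, ∀ d : ℕ, D ≤ d →
      ∀ S : Finset (EuclideanSpace ℝ (Fin d)),
        (2 : ℝ) ^ (ε * (d : ℝ)) ≤ (S.card : ℝ) →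
        ∃ T : Finset (EuclideanSpace ℝ (Fin d)), T ⊆ S ∧ T.card = n ∧
          ∀ a ∈ T, ∀ b ∈ T, ∀ c ∈ T, ∀ e ∈ T, a ≠ b → c ≠ e →
            dist a b = dist c e → (a = c ∧ b = e) ∨ (a = e ∧ b = c) := by
  intro n _ ε ε0
  obtain ⟨C, C0, h⟩ := main n (ε / 4) (by positivity)
  obtain ⟨D, hD⟩ := exists_nat_gt (C / (ε / 4))
  refine ⟨D, fun d hd S hS => ?_⟩
  obtain ⟨p, p1, p2⟩ : Rb n S := by
    by_contra k
    have h1 := hS.trans (h d _ (by simp) S k)
    have h2 : (D : ℝ) ≤ d := by exact_mod_cast hd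
    have h3 : 0 ≤ ε * d := by positivity
    rw [div_lt_iff₀ (by positivity)] at hD
    have h4 : Real.exp (ε / 4 * d) * Real.exp (ε / 4 * d) ≤ 2 ^ (ε * d) := by
      rw [Real.rpow_def_of_pos two_pos, ← Real.exp_add, Real.exp_le_exp]
      nlinarith [Real.log_two_gt_d9]
    have := le_of_mul_le_mul_right (h4.trans h1) (Real.exp_pos _)
    nlinarith [Real.add_one_le_exp (ε / 4 * d)]
  have i : Function.Injective p := fun a b q => by_contra fun k => by
    have := p2 a b a a k (by rw [q])
    grind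
  classical
  refine ⟨Finset.univ.image p, Finset.image_subset_iff.mpr fun a _ => p1 a, by
    simp [Finset.card_image_of_injective _ i], ?_⟩
  simp only [Finset.forall_mem_image]
  intro a _ b _ c _ e _ k _ q
  simpa only [i.eq_iff] using p2 a b c e (fun r => k (congrArg p r)) q

end Pool.Agent.S11067
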