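import Pool.Statements.S11077
import Pool.Agent.H.MP_bae42e_co.Main

set_option autoImplicit false
open Pool Pool.MP_bae42e_co

namespace Pool.Agent.S11077

theorem result :
    ∃ f : ℕ → ℕ, ∀ (V : Type) [Fintype V] (G : SimpleGraph V) (M : G.Subgraph),
      M.IsMatching → ∀ k : ℕ,
        (∃ c : V → Fin k, ∀ (u v : V) (p : G.Walk u v), p.IsPath →
          Even p.support.length →
          (p.support.map c).take (p.support.length / 2) ≠
            (p.support.map c).drop (p.support.length / 2)) →
        ∃ c : Quot M.Adj → Fin (f k),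
          ∀ (a b : Quot M.Adj)
            (p : (SimpleGraph.fromRel (fun x y : Quot M.Adj =>
                ∃ u v : V, Quot.mk M.Adj u = x ∧ Quot.mk M.Adj v = y ∧ G.Adj u v)).Walk a b),
            p.IsPath → Even p.support.length →
            (p.support.map c).take (p.support.length / 2) ≠
              (p.support.map c).drop (p.support.length / 2) := by
  open Pool.Agent.H.MP_bae42e_co in
  refine ⟨fun k => Nat.card (Phi (Fin k)), ?_⟩
  rintro V _ G M hM k ⟨c, hc⟩
  open Pool.Agent.H.MP_bae42e_co in
  have g : Good G c (Quot.mk M.Adj) (cpM M) := ⟨nr_of G c hc, cpM_mk M, cpM_adj hM⟩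
  open Pool.Agent.H.MP_bae42e_co in
  refine ⟨fun x => Finite.equivFin (Phi (Fin k)) (phi G c (cpM M) x), ?_⟩
  intro a b p hp he heq
  obtain ⟨t, ht⟩ := he
  have hpos : 0 < p.support.length := List.length_pos_of_ne_nil p.support_ne_nil
  rw [← List.map_take, ← List.map_drop] at heq
  open Pool.Agent.H.MP_bae42e_co in
  refine main g (p.support.take (p.support.length / 2)) (p.support.drop (p.support.length / 2))
    ?_ ?_ ?_ ?_
  · intro e
    have := congrArg List.length e
    rw [List.length_take, List.length_nil] at this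
    omega
  · rw [List.take_append_drop]
    refine p.isChain_adj_support.imp ?_
    intro x y h
    rw [SimpleGraph.fromRel_adj] at h
    refine ⟨h.1, ?_⟩
    rcases h.2 with ⟨u, v, rfl, rfl, h2⟩ | ⟨u, v, rfl, rfl, h2⟩
    · obtain ⟨i, hi⟩ := Pool.Agent.H.MP_bae42e_co.cpM_surj hM u
      obtain ⟨j, hj⟩ := Pool.Agent.H.MP_bae42e_co.cpM_surj hM v
      exact ⟨i, j, by rw [hi, hj]; exact h2⟩
    · obtain ⟨i, hi⟩ := Pool.Agent.H.MP_bae42e_co.cpM_surj hM u
      obtain ⟨j, hj⟩ := Pool.Agent.H.MP_bae42e_co.cpM_surj hM v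
      exact ⟨j, i, by rw [hi, hj]; exact h2.symm⟩
  · rw [List.take_append_drop]
    exact hp.support_nodup
  · have hinj := (Finite.equivFin (Pool.Agent.H.MP_bae42e_co.Phi (Fin k))).injective
    apply List.map_injective_iff.2 hinj
    rw [List.map_map, List.map_map]
    exact heq

end Pool.Agent.S11077
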