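import Pool.Statements.S11082
import Pool.Agent.H.MP_bb01b3_co.B

set_option autoImplicit false
open Pool Pool.MP_bb01b3_co Pool.Agent.H.MP_bb01b3_co

namespace Pool.Agent.S11082

theorem result :
    ¬ (∀ (h p : ℕ) (H : SimpleGraph (Fin h)), H.chromaticNumber = ((p + 1 : ℕ) : ℕ∞) → 2 ≤ p →
  ∀ Dec : (m : ℕ) → SimpleGraph (Fin m) → Prop,
    (∀ (m : ℕ) (M : SimpleGraph (Fin m)), Dec m M ↔ ∃ t : ℕ, H.IsContained
      (SimpleGraph.fromRel (fun x y : Fin m ⊕ (Fin p × Fin t) =>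
        Sum.elim (fun a => Sum.elim (fun b => M.Adj a b) (fun q => q.1.val ≠ 0) y)
          (fun q => Sum.elim (fun _ => q.1.val ≠ 0) (fun q' => q.1 ≠ q'.1) y) x))) →
  ∀ Mem : (m : ℕ) → SimpleGraph (Fin m) → Prop,
    (∀ (m : ℕ) (M : SimpleGraph (Fin m)), Mem m M ↔ (Dec m M ∧
      ∀ (m' : ℕ) (M' : SimpleGraph (Fin m')), M'.IsContained M → Dec m' M' → M.IsContained M')) →
  (∃ (m : ℕ) (M : SimpleGraph (Fin m)), Mem m M ∧ ∀ v, ∃! w, M.Adj v w) →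
  ∀ γ β : ℕ,
    IsLeast {k : ℕ | ∃ (m : ℕ) (M : SimpleGraph (Fin m)) (S : Finset (Fin m)), Mem m M ∧
      (∀ a b, M.Adj a b → a ∈ S ∨ b ∈ S) ∧ (∀ a ∈ S, ∀ b ∈ S, ¬ M.Adj a b) ∧ S.card = k} γ →
    IsLeast {k : ℕ | ∃ (m : ℕ) (M : SimpleGraph (Fin m)) (S : Finset (Fin m)), Mem m M ∧
      (∀ a b, M.Adj a b → a ∈ S ∨ b ∈ S) ∧ S.card = k} β →
  ∀ BF : SimpleGraph (Fin (γ - 1)) → Prop,
    (∀ G : SimpleGraph (Fin (γ - 1)), BF G ↔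
      ((β = γ → ¬ (⊤ : SimpleGraph (Fin γ)).IsContained G) ∧
       (β ≠ γ → ∀ (m : ℕ) (M : SimpleGraph (Fin m)) (S : Finset (Fin m)), Mem m M →
          (∀ a b, M.Adj a b → a ∈ S ∨ b ∈ S) → S.card < γ →
          ¬ (M.induce (S : Set (Fin m))).IsContained G))) →
  ∃ C N : ℕ, ∀ n ≥ N, ∃ (H1 : SimpleGraph (Fin (γ - 1))) (H2 : SimpleGraph (Fin (n - γ + 1))),
    BF H1 ∧ (∀ G : SimpleGraph (Fin (γ - 1)), BF G → G.edgeSet.ncard ≤ H1.edgeSet.ncard) ∧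
    (symmDiff H2.edgeSet (SimpleGraph.turanGraph (n - γ + 1) p).edgeSet).ncard ≤ C ∧
    ¬ H.IsContained (SimpleGraph.fromRel (fun x y : Fin (γ - 1) ⊕ Fin (n - γ + 1) =>
        Sum.elim (fun a => Sum.elim (fun b => H1.Adj a b) (fun _ => True) y)
          (fun a => Sum.elim (fun _ => True) (fun b => H2.Adj a b) y) x)) ∧
    ∀ G : SimpleGraph (Fin n), ¬ H.IsContained G → G.edgeSet.ncard ≤
      (SimpleGraph.fromRel (fun x y : Fin (γ - 1) ⊕ Fin (n - γ + 1) =>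
        Sum.elim (fun a => Sum.elim (fun b => H1.Adj a b) (fun _ => True) y)
          (fun a => Sum.elim (fun _ => True) (fun b => H2.Adj a b) y) x)).edgeSet.ncard) := by
  intro H
  have hg : IsLeast {k : ℕ | ∃ (m : ℕ) (M : SimpleGraph (Fin m)) (S : Finset (Fin m)), Mem m M ∧
      (∀ a b, M.Adj a b → a ∈ S ∨ b ∈ S) ∧ (∀ a ∈ S, ∀ b ∈ S, ¬ M.Adj a b) ∧ S.card = k} 2 := by
    refine ⟨⟨5, B2, {0, 4}, memB, by decide, by decide, by decide⟩, ?_⟩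
    rintro k ⟨m, M, S, h1, h2, -, rfl⟩
    exact cover_ge M S h1.1 h2
  have hb : IsLeast {k : ℕ | ∃ (m : ℕ) (M : SimpleGraph (Fin m)) (S : Finset (Fin m)), Mem m M ∧
      (∀ a b, M.Adj a b → a ∈ S ∨ b ∈ S) ∧ S.card = k} 2 := by
    refine ⟨⟨5, B2, {0, 4}, memB, by decide, by decide⟩, ?_⟩
    rintro k ⟨m, M, S, h1, h2, rfl⟩
    exact cover_ge M S h1.1 h2
  have hM : ∀ v, ∃! w, M4.Adj v w := by
    simp only [ExistsUnique]
    decide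
  obtain ⟨C, N, h⟩ := H 12 2 HH chrom le_rfl Dec (fun _ _ => Iff.rfl) Mem (fun _ _ => Iff.rfl)
    ⟨8, M4, memM, hM⟩ 2 2 hg hb _ (fun _ => Iff.rfl)
  obtain ⟨n, hn1, hn2⟩ : ∃ n, N ≤ n ∧ 24 * (2 * C + 1) + 2 ≤ n :=
    ⟨max N (24 * (2 * C + 1) + 2), le_max_left _ _, le_max_right _ _⟩
  obtain ⟨H1, H2, -, -, h3, h4, h5⟩ := h n hn1
  have h6 := inner ⟨0, by decide⟩ H1 H2 (by omega) h3 h4
  have h7 := more rfl (by omega) H1 H2 h6
  let e : Fin (2 - 1) ⊕ Fin (n - 2 + 1) ≃ Fin n := finSumFinEquiv.trans (finCongr (by omega))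
  have h8 := h5 ((GG (2 - 1) (n - 2 + 1)).map e.toEmbedding) (fun hc => GG_free _ _ rfl
    (hc.trans (SimpleGraph.Iso.map e (GG (2 - 1) (n - 2 + 1))).isContained'))
  rw [SimpleGraph.edgeSet_map, Set.ncard_image_of_injective _ (e.toEmbedding.sym2Map.injective)]
    at h8
  exact absurd h7 (not_lt.2 h8)

end Pool.Agent.S11082
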