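import Pool.Statements.S11084
import Pool.Agent.H.MP_bb0839_co.B

set_option autoImplicit false
open Pool Pool.MP_bb0839_co

namespace Pool.Agent.S11084

theorem result :
    ¬ (∀ (M N : Matroid ℕ), M.Finite → N.Finite → 2 ≤ M.eRank →
    (∀ C D : Set ℕ, M.IsCircuit C → M.IsCocircuit D → Even (C ∩ D).ncard) →
    ∀ α : {H : Set ℕ // H ⊆ M.E ∧ M.IsCocircuit (M.E \ H)} ≃
          {H : Set ℕ // H ⊆ N.E ∧ N.IsCocircuit (N.E \ H)},
      (∀ H : {H : Set ℕ // H ⊆ M.E ∧ M.IsCocircuit (M.E \ H)},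
        ∃ e : ↥H.1 ≃ ↥(α H).1, ∀ I : Set ↥H.1,
          (M.restrict H.1).Indep (Subtype.val '' I) ↔
            (N.restrict (α H).1).Indep (Subtype.val '' (e '' I))) →
      ∃ e : ↥M.E ≃ ↥N.E, ∀ I : Set ↥M.E,
        M.Indep (Subtype.val '' I) ↔ N.Indep (Subtype.val '' (e '' I))) := by
  exact Pool.Agent.H.MP_bb0839_co.main

end Pool.Agent.S11084
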