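import Pool.Statements.S11108
-- import your own Pool.Agent.* helpers here

set_option autoImplicit false
open Pool Pool.MP_bc6ab1_co

namespace Pool.Agent.S11108


instance fact7 : Fact (Nat.Prime 7) := ⟨by norm_num⟩

abbrev F7 := ZMod 7

def d3 (x y z : Fin 3 → F7) : F7 :=
  x 0 * y 1 * z 2 - x 0 * y 2 * z 1 - x 1 * y 0 * z 2 + x 1 * y 2 * z 0 + x 2 * y 0 * z 1
    - x 2 * y 1 * z 0

theorem det_eq (x y z : Fin 3 → F7) : Matrix.det (Matrix.of ![x, y, z]) = d3 x y z := by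
  rw [Matrix.det_fin_three]; simp [d3]

theorem indep_iff (φ : Fin 6 → Fin 3 → F7)
    (h : ∀ i j k : Fin 6, i ≠ j → i ≠ k → j ≠ k → d3 (φ i) (φ j) (φ k) ≠ 0) (I : Set (Fin 6)) :
    I.ncard ≤ 3 ↔ LinearIndepOn F7 φ I := by
  constructor
  · intro hI
    have hI' : I.encard ≤ 3 := by
      rw [← (Set.toFinite I).cast_ncard_eq]; exact_mod_cast hI
    obtain ⟨J, hIJ, -, hJ⟩ := Set.exists_superset_subset_encard_eq (Set.subset_univ I) hI'
      (by rw [Set.encard_univ]; simp; norm_num)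
    obtain ⟨i, j, k, hij, hik, hjk, rfl⟩ := Set.encard_eq_three.1 hJ
    refine LinearIndepOn.mono ?_ hIJ
    have hinj : Function.Injective ![i, j, k] := by
      intro a b hab
      fin_cases a <;> fin_cases b <;> simp_all [eq_comm]
    have hr : ({i, j, k} : Set (Fin 6)) = Set.range ![i, j, k] := by
      ext x; simp; tauto
    rw [hr, linearIndepOn_range_iff hinj]
    have hd : Matrix.det (Matrix.of ![φ i, φ j, φ k]) ≠ 0 := by
      rw [det_eq]; exact h i j k hij hik hjk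
    have := Matrix.linearIndependent_rows_of_det_ne_zero hd
    have he : φ ∘ ![i, j, k] = fun a => Matrix.of ![φ i, φ j, φ k] a := by
      ext a b
      fin_cases a <;> rfl
    rw [he]
    exact this
  · intro hI
    classical
    have := LinearIndependent.fintype_card_le_finrank hI
    simp only [Module.finrank_fintype_fun_eq_card, Fintype.card_fin] at this
    rw [← Nat.card_coe_set_eq, Nat.card_eq_fintype_card]
    exact this

noncomputable def U36 : Matroid (Fin 6) :=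
  (IndepMatroid.ofFinite (E := Set.univ) Set.finite_univ (fun I => I.ncard ≤ 3)
    (by simp)
    (fun I J hJ hIJ => (Set.ncard_le_ncard hIJ).trans hJ)
    (fun I J hI hJ hIJ => by
      obtain ⟨e, he, heI⟩ := Set.exists_mem_notMem_of_ncard_lt_ncard hIJ
      refine ⟨e, he, heI, ?_⟩
      rw [Set.ncard_insert_of_notMem heI]
      omega)
    (fun I _ => Set.subset_univ I)).matroid

theorem U36_indep (I : Set (Fin 6)) : U36.Indep I ↔ I.ncard ≤ 3 := Iff.rfl

theorem U36_E : U36.E = Set.univ := rfl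

def p1 : Fin 6 → Fin 3 → F7 := ![![1,0,0], ![0,1,0], ![0,0,1], ![1,1,1], ![1,2,3], ![1,3,2]]
def p2 : Fin 6 → Fin 3 → F7 := ![![1,0,0], ![0,1,0], ![0,0,1], ![1,1,1], ![1,2,3], ![1,3,4]]

theorem h1 : ∀ i j k : Fin 6, i ≠ j → i ≠ k → j ≠ k → d3 (p1 i) (p1 j) (p1 k) ≠ 0 := by
  decide +kernel
theorem h2 : ∀ i j k : Fin 6, i ≠ j → i ≠ k → j ≠ k → d3 (p2 i) (p2 j) (p2 k) ≠ 0 := by
  decide +kernel
theorem h1v : ∀ i j : Fin 6, i ≠ j → d3 ![1,5,6] (p1 i) (p1 j) ≠ 0 := by
  decide +kernel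
theorem h2v : ∀ a b c : F7, ∃ i j : Fin 6, i ≠ j ∧ d3 ![a, b, c] (p2 i) (p2 j) = 0 ∧
    d3 ![a, b, c] (p2 j) (p2 i) = 0 := by
  decide +kernel

theorem alt_eq (L : (Fin 3 → F7) [⋀^Fin 2]→ₗ[F7] F7) :
    ∃ a b c : F7, ∀ x y, L ![x, y] = d3 ![a, b, c] x y := by
  set e0 : Fin 3 → F7 := ![1, 0, 0]
  set e1 : Fin 3 → F7 := ![0, 1, 0]
  set e2 : Fin 3 → F7 := ![0, 0, 1]
  have hsw : ∀ x y, L ![x, y] = - L ![y, x] := by
    intro x y
    have := L.map_swap ![y, x] (i := 0) (j := 1) (by decide)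
    rw [← this]; congr 1; ext i; fin_cases i <;> simp
  have hz : ∀ x, L ![x, x] = 0 := fun x => L.map_eq_zero_of_eq _ (i := 0) (j := 1) rfl (by decide)
  have hl : ∀ x y, L ![x, y] = x 0 * L ![e0, y] + x 1 * L ![e1, y] + x 2 * L ![e2, y] := by
    intro x y
    have hx : x = x 0 • e0 + x 1 • e1 + x 2 • e2 := by
      ext i; fin_cases i <;> simp [e0, e1, e2]
    conv_lhs => rw [hx]
    rw [L.map_vecCons_add, L.map_vecCons_add, L.map_vecCons_smul, L.map_vecCons_smul,
      L.map_vecCons_smul]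
    simp
  refine ⟨L ![e1, e2], L ![e2, e0], L ![e0, e1], fun x y => ?_⟩
  rw [hl x y, hsw e0 y, hsw e1 y, hsw e2 y, hl y e0, hl y e1, hl y e2, hz, hz, hz,
    hsw e1 e0, hsw e0 e2, hsw e2 e1]
  simp [d3]
  ring

theorem pair_flat (i j : Fin 6) (hij : i ≠ j) : U36.IsFlat {i, j} := by
  refine ⟨fun I X hI hX x hx => ?_, Set.subset_univ _⟩
  have hind : U36.Indep {i, j} := by rw [U36_indep, Set.ncard_pair hij]; norm_num
  have hIeq : I = {i, j} := hind.eq_of_isBasis hI
  by_contra hxI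
  rw [← hIeq] at hxI
  have hd := hX.insert_dep ⟨hx, hxI⟩
  apply hd.not_indep
  rw [U36_indep, Set.ncard_insert_of_notMem hxI, hIeq, Set.ncard_pair hij]

theorem result :
    ¬ (∀ (F : Type) [Field F] [Fintype F] (n : ℕ) (M : Matroid (Fin n)),
      M.E = Set.univ → M.Loopless →
      ∀ (k : ℕ), 2 ≤ k →
      ∀ (d₁ d₂ : ℕ) (φ₁ : Fin n → (Fin d₁ → F)) (φ₂ : Fin n → (Fin d₂ → F)),
        (∀ I : Set (Fin n), M.Indep I ↔ LinearIndepOn F φ₁ I) →
        (∀ I : Set (Fin n), M.Indep I ↔ LinearIndepOn F φ₂ I) →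
        ∀ c : ℕ,
          (∃ L : Fin c → ((Fin d₁ → F) [⋀^Fin k]→ₗ[F] F),
              ∀ X : Set (Fin n), M.IsFlat X → M.eRk X = (k : ℕ∞) →
                ∃ i : Fin c, ∃ e : Fin k → Fin n,
                  Function.Injective e ∧ M.IsBasis (Set.range e) X ∧ L i (φ₁ ∘ e) ≠ 0) ↔
          (∃ L : Fin c → ((Fin d₂ → F) [⋀^Fin k]→ₗ[F] F),
              ∀ X : Set (Fin n), M.IsFlat X → M.eRk X = (k : ℕ∞) →
                ∃ i : Fin c, ∃ e : Fin k → Fin n,
                  Function.Injective e ∧ M.IsBasis (Set.range e) X ∧ L i (φ₂ ∘ e) ≠ 0)) := by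
  intro H
  have hl : U36.Loopless := by
    rw [Matroid.loopless_iff_forall_isNonloop]
    intro e _
    rw [← Matroid.indep_singleton, U36_indep]; simp
  have key := (H F7 6 U36 U36_E hl 2 le_rfl 3 3 p1 p2
    (fun I => (U36_indep I).trans (indep_iff p1 h1 I))
    (fun I => (U36_indep I).trans (indep_iff p2 h2 I)) 1).1 ?_
  · obtain ⟨L, hL⟩ := key
    obtain ⟨a, b, c, habc⟩ := alt_eq (L 0)
    obtain ⟨i, j, hij, z1, z2⟩ := h2v a b c
    have hind : U36.Indep {i, j} := by rw [U36_indep, Set.ncard_pair hij]; norm_num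
    obtain ⟨t, e, he, hb, hne⟩ := hL {i, j} (pair_flat i j hij)
      (by rw [hind.eRk_eq_encard, Set.encard_pair hij]; rfl)
    obtain rfl : t = 0 := Subsingleton.elim _ _
    have he' : p2 ∘ e = ![p2 (e 0), p2 (e 1)] := by
      ext a b; fin_cases a <;> rfl
    rw [he', habc] at hne
    have h0 := hb.subset (Set.mem_range_self 0)
    have h1 := hb.subset (Set.mem_range_self 1)
    have h01 : e 0 ≠ e 1 := fun h => absurd (he h) (by decide)
    simp only [Set.mem_insert_iff, Set.mem_singleton_iff] at h0 h1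
    rcases h0 with h0 | h0 <;> rcases h1 with h1 | h1
    · exact h01 (h0.trans h1.symm)
    · rw [h0, h1] at hne; exact hne z1
    · rw [h0, h1] at hne; exact hne z2
    · exact h01 (h0.trans h1.symm)
  · refine ⟨fun _ => (Matrix.detRowAlternating :
        (Fin 3 → F7) [⋀^Fin 3]→ₗ[F7] F7).curryLeft ![1, 5, 6], fun X hX hr => ?_⟩
    obtain ⟨I, hI⟩ := U36.exists_isBasis X hX.subset_ground
    have hc : I.encard = 2 := by rw [hI.encard_eq_eRk, hr]; rfl
    obtain ⟨i, j, hij, rfl⟩ := Set.encard_eq_two.1 hc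
    refine ⟨0, ![i, j], ?_, ?_, ?_⟩
    · intro a b hab
      fin_cases a <;> fin_cases b <;> simp_all [eq_comm]
    · have : Set.range ![i, j] = {i, j} := by ext x; simp; tauto
      rwa [this]
    · have he' : p1 ∘ ![i, j] = ![p1 i, p1 j] := by
        ext a b; fin_cases a <;> rfl
      rw [AlternatingMap.curryLeft_apply_apply, he']
      have := h1v i j hij
      rw [← det_eq] at this
      exact this

end Pool.Agent.S11108
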