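import Pool.Statements.S11115
import Pool.Agent.H.MP_bcf3b3_co.C

set_option autoImplicit false
open Pool Pool.MP_bcf3b3_co

namespace Pool.Agent.S11115

/-- Every finite connected graph has a dominating broadcast and a multipacking such that the broadcast cost is at most twice the multipacking size, i.e. broadcast domination number ≤ 2 × multipacking number. -/
theorem result :
    ∀ (V : Type) [Fintype V] (G : SimpleGraph V), G.Connected →
      ∃ (f : V → ℕ) (S : Finset V),
        (∀ u : V, ∃ v : V, 0 < f v ∧ G.dist u v ≤ f v) ∧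
        (∀ v : V, ∀ r : ℕ, 1 ≤ r → (S.filter (fun u => G.dist v u ≤ r)).card ≤ r) ∧
        ∑ v, f v ≤ 2 * S.card := by
  intro V _ G hc
  obtain ⟨f, k, h1, ⟨S, hS, h2⟩, h3⟩ := Pool.Agent.H.MP_bcf3b3_co.main V G hc
  exact ⟨f, S, h1, fun v r hr => by convert h2 v r hr, by rw [hS]; exact h3⟩

end Pool.Agent.S11115
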