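import Pool.Statements.S11139
import Pool.Agent.H.MP_bdfe62_co.B

set_option autoImplicit false
open Pool Pool.MP_bdfe62_co

namespace Pool.Agent.S11139

/-- Every subgraph-closed class of finite graphs with bounded asymptotic dimension has bounded expansion: for some g, every r-shallow minor H of a graph in the class has at most g(r) times as many edges as vertices. -/
theorem result :
  ∀ C : ∀ n : ℕ, SimpleGraph (Fin n) → Prop,
    (∀ (n m : ℕ) (H : SimpleGraph (Fin n)) (G : SimpleGraph (Fin m)) (φ : H →g G),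
        Function.Injective φ → C m G → C n H) →
    (∃ d : ℕ, ∃ f : ℕ → ℕ, ∀ (m : ℕ) (G : SimpleGraph (Fin m)), C m G → ∀ r : ℕ,
        ∃ c : Fin m → Fin (d + 1), ∀ u v : Fin m,
          Relation.ReflTransGen (fun a b => c a = c b ∧ G.edist a b ≤ (r : ℕ∞)) u v →
          G.edist u v ≤ (f r : ℕ∞)) →
    ∃ g : ℕ → ℕ, ∀ (m : ℕ) (G : SimpleGraph (Fin m)), C m G →
      ∀ (r k : ℕ) (H : SimpleGraph (Fin k)),
      (∃ B : Fin k → Finset (Fin m), ∃ ctr : Fin k → Fin m,
        (∀ i j, i ≠ j → Disjoint (B i) (B j)) ∧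
        (∀ i, ctr i ∈ B i) ∧
        (∀ i, ∀ x ∈ B i, ∃ p : G.Walk (ctr i) x, p.length ≤ r ∧ ∀ y ∈ p.support, y ∈ B i) ∧
        (∀ i j, H.Adj i j → ∃ x ∈ B i, ∃ y ∈ B j, G.Adj x y)) →
      H.edgeSet.ncard ≤ g r * k := by
  rintro C hC ⟨d, f, hf⟩
  choose g hg using Pool.Agent.H.MP_bdfe62_co.main d f
  refine ⟨g, fun m G hG r k H ⟨B, ctr, h1, h2, h3, h4⟩ => hg r _ G (fun G' hl => ?_) k H ?_⟩
  · exact hf m G' (hC m m G' G (SimpleGraph.Hom.ofLE hl) (fun _ _ h => h) hG)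
  · refine ⟨fun i => (B i : Set (Fin m)), ctr, fun i j x hi hj => ?_, h2, h3, h4⟩
    by_contra hne
    exact Finset.disjoint_left.1 (h1 i j hne) hi hj

end Pool.Agent.S11139
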