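import Pool.Statements.S11150
import Pool.Agent.H.MP_2de88f_co.B

set_option autoImplicit false
open Pool Pool.MP_be50aa_co

namespace Pool.Agent.S11150

theorem result :
    ¬ (∀ k : ℕ, ∃ (G : Type) (_ : Group G), Finite G ∧
      ∀ (L : Type) [Lattice L] [IsModularLattice L] [Finite L],
        Nonempty (L ↪o (Fin k → ℕ)) →
          ¬ ∃ φ : G ≃ (L ≃o L), ∀ a b : G, φ (a * b) = (φ b).trans (φ a)) := by
  intro h
  obtain ⟨G, _, _, hG⟩ := h 16
  obtain ⟨L, _, _, _, _, ⟨φ⟩, -, f, -⟩ := Pool.Agent.ModAut.main G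
  exact hG L ⟨f⟩ ⟨φ.toEquiv, fun a b => map_mul φ a b⟩

end Pool.Agent.S11150
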