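import Pool.Statements.S11156
import Pool.Agent.H.MP_be97b2_co.F

set_option autoImplicit false
open Pool Pool.MP_be97b2_co

namespace Pool.Agent.S11156

/-- The negation of the preceding statement: For n,r ≥ 2, every measurable r-coloring of the unit n-sphere has a measurable monochromatic subset invariant under some nonidentity orientation-preserving involutive isometry, of normalized measure at least 1/r^2. -/
theorem result :
    ¬ (∀ n r : ℕ, 1 < n → 1 < r →
    ∀ c : EuclideanSpace ℝ (Fin (n+1)) → Fin r, Measurable c →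
      ∃ (i : Fin r)
        (g : EuclideanSpace ℝ (Fin (n+1)) ≃ₗᵢ[ℝ] EuclideanSpace ℝ (Fin (n+1)))
        (A : Set (EuclideanSpace ℝ (Fin (n+1)))),
        g ≠ LinearIsometryEquiv.refl ℝ (EuclideanSpace ℝ (Fin (n+1))) ∧
        (∀ x, g (g x) = x) ∧
        LinearMap.det (g.toLinearEquiv : EuclideanSpace ℝ (Fin (n+1)) →ₗ[ℝ] EuclideanSpace ℝ (Fin (n+1))) = 1 ∧
        MeasurableSet A ∧
        A ⊆ Metric.sphere (0 : EuclideanSpace ℝ (Fin (n+1))) 1 ∧
        (∀ x ∈ A, c x = i) ∧
        g '' A = A ∧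
        ((r : ENNReal) ^ 2)⁻¹ ≤
          ((MeasureTheory.volume : MeasureTheory.Measure (EuclideanSpace ℝ (Fin (n+1)))).toSphere Set.univ)⁻¹ *
          (MeasureTheory.volume : MeasureTheory.Measure (EuclideanSpace ℝ (Fin (n+1)))).toSphere (Subtype.val ⁻¹' A)) := by
  intro h
  classical
  obtain ⟨B, hB, c, hc, hH⟩ := H.MP_be97b2_co.main
  have hB' : MeasurableSet (Subtype.val '' B) :=
    (MeasurableEmbedding.subtype_coe Metric.isClosed_sphere.measurableSet).measurableSet_image.2 hB
  obtain ⟨i, g, A, g1, g2, g3, -, -, a2, a3, a4⟩ := h 2 2 one_lt_two one_lt_two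
    (fun y => if y ∈ Subtype.val '' B then 1 else 0)
    (Measurable.ite hB' measurable_const measurable_const)
  obtain ⟨b1, b2⟩ := hH g g1 g2 g3
  have k : ∀ x : H.MP_be97b2_co.X, x.1 ∈ A → (x ∈ B ↔ i = 1) := fun x hx => by
    rw [← a2 _ hx, ← Subtype.val_injective.mem_set_image]
    split_ifs with h <;> simp [h]
  have k' : ∀ x : H.MP_be97b2_co.X, x.1 ∈ A → (H.MP_be97b2_co.up g x).1 ∈ A := fun x hx =>
    a3 ▸ Set.mem_image_of_mem _ hx
  have a5 : H.MP_be97b2_co.nu.real (Subtype.val ⁻¹' A) ≤ c := by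
    by_cases hi : i = 1
    · refine le_trans (MeasureTheory.measureReal_mono fun x hx => ?_) b1
      exact ⟨(k x hx).2 hi, (k _ (k' x hx)).2 hi⟩
    · refine le_trans (MeasureTheory.measureReal_mono fun x hx => ?_) b2
      exact ⟨fun h => hi ((k x hx).1 h), fun h => hi ((k _ (k' x hx)).1 h)⟩
  have a6 := ENNReal.toReal_mono (MeasureTheory.measure_ne_top H.MP_be97b2_co.nu
    (Subtype.val ⁻¹' A)) a4
  have a7 := a6.trans a5
  norm_num at a7
  linarith

end Pool.Agent.S11156
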