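import Pool.Statements.S11193
import Pool.Agent.H.MP_c044fe_co.D

set_option autoImplicit false
open Pool Pool.MP_c044fe_co

namespace Pool.Agent.S11193

theorem result :
    ∀ k : ℕ, 0 < k → ∀ G : SimpleGraph (Fin k), ∃ n₀ : ℕ, ∀ n : ℕ, n₀ ≤ n →
      ∀ m : ℕ, ∀ F : SimpleGraph (Fin m),
        (∀ c : Fin m → Fin m → Bool, (∀ x y : Fin m, c x y = c y x) →
          ∃ b : Bool, ∃ f : Fin n × Fin k → Fin m,
            Function.Injective f ∧
              ∀ p q : Fin n × Fin k, p.1 = q.1 → G.Adj p.2 q.2 →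
                F.Adj (f p) (f q) ∧ c (f p) (f q) = b) →
        ∃ f : Fin (sInf {N : ℕ | ∀ c : Fin N → Fin N → Bool,
                (∀ x y : Fin N, c x y = c y x) → ∃ b : Bool,
                ∃ g : Fin n × Fin k → Fin N, Function.Injective g ∧
                  ∀ p q : Fin n × Fin k, p.1 = q.1 → G.Adj p.2 q.2 →
                    c (g p) (g q) = b} / k) × Fin k → Fin m,
          Function.Injective f ∧
            ∀ p q : Fin (sInf {N : ℕ | ∀ c : Fin N → Fin N → Bool,
                (∀ x y : Fin N, c x y = c y x) → ∃ b : Bool,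
                ∃ g : Fin n × Fin k → Fin N, Function.Injective g ∧
                  ∀ p q : Fin n × Fin k, p.1 = q.1 → G.Adj p.2 q.2 →
                    c (g p) (g q) = b} / k) × Fin k,
              p.1 = q.1 → G.Adj p.2 q.2 → F.Adj (f p) (f q) := by
  intro k hk G
  obtain ⟨n0, h0⟩ := H.C044.main1 G (by simpa using hk)
  refine ⟨n0, fun n hn m F hF => ?_⟩
  rw [← H.C044.pack_iff (E := F.Adj)]
  set A : Set ℕ := {N : ℕ | ∀ c : Fin N → Fin N → Bool,
                (∀ x y : Fin N, c x y = c y x) → ∃ b : Bool,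
                ∃ g : Fin n × Fin k → Fin N, Function.Injective g ∧
                  ∀ p q : Fin n × Fin k, p.1 = q.1 → G.Adj p.2 q.2 →
                    c (g p) (g q) = b} with hA
  have hm : m ∈ A := by
    intro c hc
    obtain ⟨b, f, f1, f2⟩ := hF c hc
    exact ⟨b, f, f1, fun p q a b => (f2 p q a b).2⟩
  have hle : sInf A ≤ m := Nat.sInf_le hm
  rcases hr : sInf A with _ | N
  · rw [Nat.zero_div]; exact H.C044.pack_zero
  · have hN : N ∉ A := Nat.notMem_of_lt_sInf (by omega)
    simp only [hA, Set.mem_setOf_eq, not_forall] at hN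
    obtain ⟨c, hc, hno⟩ := hN
    have := h0 n hn N c hc (fun β hp => hno ⟨β, H.C044.pack_iff.1 hp⟩) m F.Adj (by omega)
      (fun c' hc' => by
        obtain ⟨b, hb⟩ := hF c' hc'
        exact ⟨b, H.C044.pack_iff.2 hb⟩)
    simpa using this

end Pool.Agent.S11193
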