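import Pool.Statements.S11210
-- import your own Pool.Agent.* helpers here

set_option autoImplicit false
open Pool Pool.MP_c0cbcd_co

namespace Pool.Agent.S11210

/-- positions: a copies of *1, c copies of *2, d copies of {0, *1+*2, *2+*2}, e copies of {0, *1, D} -/
@[ext] structure Pos where
  a : ℕ
  c : ℕ
  d : ℕ
  e : ℕ

def add (G H : Pos) : Pos := ⟨G.a + H.a, G.c + H.c, G.d + H.d, G.e + H.e⟩

def opt (G : Pos) : Fin 9 → Pos
  | 0 => ⟨G.a - 1, G.c, G.d, G.e⟩
  | 1 => ⟨G.a, G.c - 1, G.d, G.e⟩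
  | 2 => ⟨G.a + 1, G.c - 1, G.d, G.e⟩
  | 3 => ⟨G.a, G.c, G.d - 1, G.e⟩
  | 4 => ⟨G.a + 1, G.c + 1, G.d - 1, G.e⟩
  | 5 => ⟨G.a, G.c + 2, G.d - 1, G.e⟩
  | 6 => ⟨G.a, G.c, G.d, G.e - 1⟩
  | 7 => ⟨G.a + 1, G.c, G.d, G.e - 1⟩
  | 8 => ⟨G.a, G.c, G.d + 1, G.e - 1⟩

def cnt (G : Pos) : Fin 9 → ℕ
  | 0 => G.a
  | 1 => G.c
  | 2 => G.c
  | 3 => G.d
  | 4 => G.d
  | 5 => G.d
  | 6 => G.e
  | 7 => G.e
  | 8 => G.e

def mv (K G : Pos) : Prop := ∃ i : Fin 9, 0 < cnt G i ∧ K = opt G i

def wt (G : Pos) : ℕ := G.a + 2 * G.c + 5 * G.d + 6 * G.e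

def P (G : Pos) : Prop :=
  (G.c + G.d + G.e = 0 ∧ G.a % 2 = 1) ∨
  (G.d = 1 ∧ (G.a + G.e) % 2 = 0 ∧ (G.c + G.e) % 2 = 1) ∨
  (0 < G.c + G.d + G.e ∧ G.d ≠ 1 ∧ (G.a + G.e + G.d) % 2 = 0 ∧ (G.c + G.e) % 2 = 0)

def g (G : Pos) : ℕ := (G.a + G.d) % 2 + 2 * ((G.c + G.e) % 2)

lemma fin (G : Pos) : Set.Finite {K | mv K G} :=
  (Set.finite_range (opt G)).subset (fun _ ⟨i, _, h⟩ => ⟨i, h.symm⟩)

lemma wf : WellFounded mv := by
  refine Subrelation.wf (r := InvImage (· < ·) wt) ?_ (InvImage.wf wt wellFounded_lt)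
  rintro K G ⟨i, h, rfl⟩
  show wt _ < wt _
  fin_cases i <;> simp only [opt, cnt, wt] at * <;> omega

lemma cnt_add (G H : Pos) (i : Fin 9) : cnt (add G H) i = cnt G i + cnt H i := by
  fin_cases i <;> rfl

lemma opt_l (G H : Pos) (i : Fin 9) (h : 0 < cnt G i) : opt (add G H) i = add (opt G i) H := by
  fin_cases i <;> simp only [opt, cnt, add] at * <;> ext <;> simp only [] <;> omega

lemma opt_r (G H : Pos) (i : Fin 9) (h : 0 < cnt H i) : opt (add G H) i = add G (opt H i) := by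
  fin_cases i <;> simp only [opt, cnt, add] at * <;> ext <;> simp only [] <;> omega

lemma mv_add (G H K : Pos) : mv K (add G H) ↔
    ((∃ G', mv G' G ∧ K = add G' H) ∨ (∃ H', mv H' H ∧ K = add G H')) := by
  constructor
  · rintro ⟨i, h, rfl⟩
    rw [cnt_add] at h
    by_cases h1 : 0 < cnt G i
    · exact Or.inl ⟨_, ⟨i, h1, rfl⟩, opt_l G H i h1⟩
    · exact Or.inr ⟨_, ⟨i, by omega, rfl⟩, opt_r G H i (by omega)⟩
  · rintro (⟨_, ⟨i, h, rfl⟩, rfl⟩ | ⟨_, ⟨i, h, rfl⟩, rfl⟩)
    · exact ⟨i, by rw [cnt_add]; omega, (opt_l G H i h).symm⟩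
    · exact ⟨i, by rw [cnt_add]; omega, (opt_r G H i h).symm⟩

lemma PP (G : Pos) (i : Fin 9) (h : 0 < cnt G i) (h1 : P G) : ¬ P (opt G i) := by
  fin_cases i <;> simp only [opt, cnt, P] at * <;> omega

lemma NP (G : Pos) (h1 : ¬ P G) (h2 : 0 < G.a + G.c + G.d + G.e) :
    ∃ i, 0 < cnt G i ∧ P (opt G i) := by
  obtain ⟨a, c, d, e⟩ := G
  simp only [P] at h1 h2
  by_cases c + d + e = 0
  · exact ⟨0, by simp only [cnt]; omega, by simp only [opt, P]; omega⟩
  · by_cases d = 1
    · by_cases (c + e) % 2 = 1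
      · by_cases 0 < a
        · exact ⟨0, by simp only [cnt]; omega, by simp only [opt, P]; omega⟩
        · exact ⟨8, by simp only [cnt]; omega, by simp only [opt, P]; omega⟩
      · by_cases (a + e) % 2 = 0
        · exact ⟨5, by simp only [cnt]; omega, by simp only [opt, P]; omega⟩
        · by_cases 0 < c
          · exact ⟨2, by simp only [cnt]; omega, by simp only [opt, P]; omega⟩
          · by_cases 0 < e
            · exact ⟨6, by simp only [cnt]; omega, by simp only [opt, P]; omega⟩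
            · exact ⟨3, by simp only [cnt]; omega, by simp only [opt, P]; omega⟩
    · by_cases (c + e) % 2 = 0
      · by_cases 0 < a
        · exact ⟨0, by simp only [cnt]; omega, by simp only [opt, P]; omega⟩
        · by_cases 2 < d
          · exact ⟨5, by simp only [cnt]; omega, by simp only [opt, P]; omega⟩
          · by_cases d = 2
            · exact ⟨4, by simp only [cnt]; omega, by simp only [opt, P]; omega⟩
            · exact ⟨8, by simp only [cnt]; omega, by simp only [opt, P]; omega⟩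
      · by_cases (a + e + d) % 2 = 0
        · by_cases 0 < c
          · by_cases c + d + e = 1
            · exact ⟨2, by simp only [cnt]; omega, by simp only [opt, P]; omega⟩
            · exact ⟨1, by simp only [cnt]; omega, by simp only [opt, P]; omega⟩
          · by_cases c + d + e = 1
            · exact ⟨6, by simp only [cnt]; omega, by simp only [opt, P]; omega⟩
            · exact ⟨7, by simp only [cnt]; omega, by simp only [opt, P]; omega⟩
        · by_cases 0 < c
          · by_cases c + d + e = 1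
            · exact ⟨1, by simp only [cnt]; omega, by simp only [opt, P]; omega⟩
            · exact ⟨2, by simp only [cnt]; omega, by simp only [opt, P]; omega⟩
          · by_cases c + d + e = 1
            · exact ⟨7, by simp only [cnt]; omega, by simp only [opt, P]; omega⟩
            · exact ⟨6, by simp only [cnt]; omega, by simp only [opt, P]; omega⟩

lemma hN (G : Pos) : ¬ P G ↔ ((∀ K, ¬ mv K G) ∨ ∃ K, mv K G ∧ ¬ ¬ P K) := by
  constructor
  · intro h
    by_cases h2 : 0 < G.a + G.c + G.d + G.e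
    · obtain ⟨i, hi, hp⟩ := NP G h h2
      exact Or.inr ⟨_, ⟨i, hi, rfl⟩, not_not.2 hp⟩
    · left
      rintro K ⟨i, hi, -⟩
      fin_cases i <;> simp only [cnt] at hi <;> omega
  · rintro (h | ⟨K, ⟨i, hi, rfl⟩, hp⟩) hP
    · have h0 : ∀ i, ¬ 0 < cnt G i := fun i hi => h _ ⟨i, hi, rfl⟩
      have := h0 0; have := h0 1; have := h0 3; have := h0 6
      simp only [cnt, P] at *
      omega
    · exact hp (PP G i hi hP)

lemma gm (G : Pos) (m : ℕ) (hm : m < g G) : ∃ i, 0 < cnt G i ∧ g (opt G i) = m := by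
  obtain ⟨a, c, d, e⟩ := G
  simp only [g] at hm
  by_cases (c + e) % 2 = 0
  · by_cases 0 < a
    · exact ⟨0, by simp only [cnt]; omega, by simp only [opt, g]; omega⟩
    · exact ⟨3, by simp only [cnt]; omega, by simp only [opt, g]; omega⟩
  · by_cases m = 2
    · by_cases 0 < a
      · exact ⟨0, by simp only [cnt]; omega, by simp only [opt, g]; omega⟩
      · exact ⟨3, by simp only [cnt]; omega, by simp only [opt, g]; omega⟩
    · by_cases m = (a + d) % 2
      · by_cases 0 < c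
        · exact ⟨1, by simp only [cnt]; omega, by simp only [opt, g]; omega⟩
        · exact ⟨6, by simp only [cnt]; omega, by simp only [opt, g]; omega⟩
      · by_cases 0 < c
        · exact ⟨2, by simp only [cnt]; omega, by simp only [opt, g]; omega⟩
        · exact ⟨7, by simp only [cnt]; omega, by simp only [opt, g]; omega⟩

lemma hg (G : Pos) : (∀ K, mv K G → g K ≠ g G) ∧ (∀ m, m < g G → ∃ K, mv K G ∧ g K = m) := by
  constructor
  · rintro K ⟨i, hi, rfl⟩
    fin_cases i <;> simp only [opt, cnt, g] at * <;> omega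
  · intro m hm
    have : ∃ i, 0 < cnt G i ∧ g (opt G i) = m := by
      exact gm G m hm
    obtain ⟨i, hi, h⟩ := this
    exact ⟨_, ⟨i, hi, rfl⟩, h⟩


theorem result :
    ¬ (∀ (A : Type) (add : A → A → A) (mv : A → A → Prop),
      (∀ G : A, Set.Finite {K : A | mv K G}) →
      WellFounded mv →
      (∀ G H K : A, mv K (add G H) ↔
          ((∃ G' : A, mv G' G ∧ K = add G' H) ∨ (∃ H' : A, mv H' H ∧ K = add G H'))) →
      ∀ (N : A → Prop),
        (∀ G : A, N G ↔ ((∀ K : A, ¬ mv K G) ∨ ∃ K : A, mv K G ∧ ¬ N K)) →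
      ∀ (g : A → ℕ),
        (∀ G : A, (∀ K : A, mv K G → g K ≠ g G) ∧
          (∀ m : ℕ, m < g G → ∃ K : A, mv K G ∧ g K = m)) →
      ∀ G H : A, (∀ X : A, (N (add G X) ↔ N (add H X))) → g G = g H) := by
  intro h
  have := h Pos add mv fin wf mv_add (fun G => ¬ P G) hN g hg ⟨1, 1, 0, 0⟩ ⟨0, 0, 0, 1⟩ (by
    intro X
    simp only [P, add]
    omega)
  simp [g] at this

end Pool.Agent.S11210
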