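import Pool.Statements.S11236
-- import your own Pool.Agent.* helpers here

set_option autoImplicit false
open Pool Pool.MP_c19f90_co

namespace Pool.Agent.S11236

abbrev G := Fin 3 → ZMod 18

def code (v : G) : ℕ := (v 0).val + 18 * (v 1).val + 324 * (v 2).val

def addc (a b : ℕ) : ℕ :=
  (a % 18 + b % 18) % 18 + 18 * ((a / 18 % 18 + b / 18 % 18) % 18) + 324 * ((a / 324 + b / 324) % 18)

theorem code_lt (v : G) : code v < 5832 := by
  have h0 := ZMod.val_lt (v 0)
  have h1 := ZMod.val_lt (v 1)
  have h2 := ZMod.val_lt (v 2)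
  unfold code
  omega

theorem code_add (u v : G) : code (u + v) = addc (code u) (code v) := by
  have h0 := ZMod.val_lt (v 0)
  have h1 := ZMod.val_lt (v 1)
  have h2 := ZMod.val_lt (v 2)
  have k0 := ZMod.val_lt (u 0)
  have k1 := ZMod.val_lt (u 1)
  have k2 := ZMod.val_lt (u 2)
  unfold code addc
  simp only [Pi.add_apply, ZMod.val_add]
  omega

def inner (S g base : ℕ) : ℕ → ℕ
  | 0 => 0
  | n + 1 => bif S.testBit (base + n) then (inner S g base n) ||| (1 <<< addc (base + n) g)
      else inner S g base n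

def outer (S g : ℕ) : ℕ → ℕ
  | 0 => S ||| (1 <<< g)
  | m + 1 => outer S g m ||| inner S g (72 * m) 72

def step (S g : ℕ) : ℕ := outer S g 81

theorem bit_one (a : ℕ) : (1 <<< a).testBit a = true := by
  rw [Nat.one_shiftLeft, Nat.testBit_two_pow_self]

theorem inner_spec (S g base n i : ℕ) (hi : i < n) (h : S.testBit (base + i) = true) :
    (inner S g base n).testBit (addc (base + i) g) = true := by
  induction n with
  | zero => omega
  | succ n ih =>
    unfold inner
    by_cases hin : i = n
    · subst hin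
      rw [h, cond_true, Nat.testBit_or, bit_one, Bool.or_true]
    · have := ih (by omega)
      cases S.testBit (base + n)
      · exact this
      · rw [cond_true, Nat.testBit_or, this, Bool.true_or]

theorem outer_old (S g m x : ℕ) (h : S.testBit x = true) : (outer S g m).testBit x = true := by
  induction m with
  | zero => rw [outer, Nat.testBit_or, h, Bool.true_or]
  | succ m ih => rw [outer, Nat.testBit_or, ih, Bool.true_or]

theorem outer_g (S g m : ℕ) : (outer S g m).testBit g = true := by
  induction m with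
  | zero => rw [outer, Nat.testBit_or, bit_one, Bool.or_true]
  | succ m ih => rw [outer, Nat.testBit_or, ih, Bool.true_or]

theorem outer_new (S g m x : ℕ) (hx : x < 72 * m) (h : S.testBit x = true) :
    (outer S g m).testBit (addc x g) = true := by
  induction m with
  | zero => omega
  | succ m ih =>
    rw [outer, Nat.testBit_or]
    by_cases hm : x < 72 * m
    · rw [ih hm, Bool.true_or]
    · have e : x = 72 * m + (x - 72 * m) := by omega
      rw [e] at h ⊢
      rw [inner_spec S g (72 * m) 72 _ (by omega) h, Bool.or_true]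

def sums : List ℕ → ℕ
  | [] => 0
  | g :: l => step (sums l) g

theorem sums_spec (l : List G) : ∀ B : Finset G, B ⊆ l.toFinset → B.Nonempty →
    (sums (l.map code)).testBit (code (∑ x ∈ B, x)) = true := by
  induction l with
  | nil =>
    intro B hB hne
    obtain ⟨x, hx⟩ := hne
    simpa using hB hx
  | cons g l ih =>
    intro B hB hne
    rw [List.toFinset_cons] at hB
    rw [List.map_cons, sums, step]
    by_cases hg : g ∈ B
    · rw [← Finset.sum_erase_add _ _ hg]
      rcases (B.erase g).eq_empty_or_nonempty with h | h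
      · rw [h, Finset.sum_empty, zero_add]
        exact outer_g _ _ _
      · rw [code_add]
        exact outer_new _ _ _ _ (code_lt _) (ih _ (Finset.subset_insert_iff.mp hB) h)
    · exact outer_old _ _ _ _ (ih B ((Finset.subset_insert_iff_of_notMem hg).mp hB) hne)

def L : List G := [![1, 0, 1], ![1, 0, 2], ![1, 0, 3], ![1, 0, 4], ![1, 0, 5], ![1, 0, 6], ![1, 0, 7], ![1, 0, 9], ![1, 0, 10], ![1, 0, 11], ![1, 0, 12], ![1, 0, 13], ![1, 0, 14], ![1, 0, 15], ![1, 0, 16], ![1, 0, 17], ![0, 1, 1], ![0, 1, 2], ![0, 1, 3], ![0, 1, 4], ![0, 1, 5], ![0, 1, 6], ![0, 1, 7], ![0, 1, 8], ![0, 1, 10], ![0, 1, 11], ![0, 1, 12], ![0, 1, 13], ![0, 1, 14], ![0, 1, 15], ![0, 1, 16], ![0, 1, 17], ![1, 1, 0], ![1, 17, 0], ![1, 1, 9], ![17, 1, 1], ![0, 0, 1], ![0, 0, 2], ![0, 0, 9], ![0, 0, 10], ![0, 0, 11]]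

def LC : List ℕ := [325, 649, 973, 1297, 1621, 1945, 2269, 2917, 3241, 3565, 3889, 4213, 4537, 4861, 5185, 5509, 342, 666, 990, 1314, 1638, 1962, 2286, 2610, 3258, 3582, 3906, 4230, 4554, 4878, 5202, 5526, 19, 307, 2935, 359, 324, 648, 2916, 3240, 3564]

theorem L_code : L.map code = LC := by decide +kernel

theorem LC_ok : (sums LC).testBit 0 = false := by decide +kernel

theorem L_card : L.toFinset.card = 41 := by
  have h : LC.Nodup := by decide +kernel
  rw [← L_code] at h
  rw [List.toFinset_card_of_nodup (List.Nodup.of_map _ h)]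
  rfl

theorem fl : ⌊(Real.sqrt (8 * ((18 : ℕ) : ℝ) - 31) - 1) / 2⌋₊ = 4 := by
  have h1 : (9 : ℝ) ≤ Real.sqrt (8 * ((18 : ℕ) : ℝ) - 31) := Real.le_sqrt_of_sq_le (by norm_num)
  have h2 : Real.sqrt (8 * ((18 : ℕ) : ℝ) - 31) < 11 := by
    rw [Real.sqrt_lt' (by norm_num)]
    norm_num
  generalize Real.sqrt (8 * ((18 : ℕ) : ℝ) - 31) = s at h1 h2
  rw [Nat.floor_eq_iff (by linarith)]
  constructor
  · push_cast at *
    linarith
  · push_cast at *
    linarith

theorem result :
    ¬ (∀ r k : ℕ, 3 ≤ r → 2 ≤ k → ∀ n : ℕ,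
      n = (if r = 3 then
              (if k ≤ 3 then 3 * (k - 1)
               else 2 * k + ⌊(Real.sqrt (8 * (k : ℝ) - 31) - 1) / 2⌋₊)
           else
              (if k ≤ r + 1 then r * (k - 1)
               else (r - 1) * k + ⌊(Real.sqrt (8 * ((k : ℝ) - (r : ℝ)) + 1) - 1) / 2⌋₊)) →
      (∃ A : Finset (Fin r → ZMod k), A.card = n ∧
          ∀ B : Finset (Fin r → ZMod k), B ⊆ A → B.Nonempty → ∑ x ∈ B, x ≠ 0) ∧
      (∀ A : Finset (Fin r → ZMod k),
          (∀ B : Finset (Fin r → ZMod k), B ⊆ A → B.Nonempty → ∑ x ∈ B, x ≠ 0) →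
          A.card ≤ n)) := by
  intro h
  have h1 := (h 3 18 le_rfl (by norm_num) 40 (by rw [if_pos rfl, if_neg (by norm_num), fl])).2
    L.toFinset (by
      intro B hB hne h0
      have := sums_spec L B hB hne
      rw [h0, L_code] at this
      have h2 : code 0 = 0 := by decide
      rw [h2, LC_ok] at this
      exact Bool.false_ne_true this)
  rw [L_card] at h1
  omega

end Pool.Agent.S11236
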