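import Pool.Statements.S11238

set_option autoImplicit false
open Pool Pool.MP_c1e4cd_co

namespace Pool.Agent.S11238

lemma card_fix {n : ℕ} (s : Finset (Fin n)) :
    (Finset.univ.filter (fun σ : Equiv.Perm (Fin n) => ∀ a ∈ s, σ a = a)).card
      = (n - s.card).factorial := by
  classical
  have e := Equiv.Perm.subtypeEquivSubtypePerm (fun a : Fin n => a ∉ s)
  have h1 := Fintype.card_congr e
  rw [Fintype.card_perm, Fintype.card_subtype, Fintype.card_subtype] at h1
  have h2 : (Finset.univ.filter (fun a : Fin n => a ∉ s)).card = n - s.card := by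
    have : (Finset.univ.filter (fun a : Fin n => a ∉ s)) = sᶜ := by
      ext a; simp
    rw [this, Finset.card_compl]; simp
  rw [h2] at h1
  rw [h1]
  congr 1
  ext σ; simp

theorem result :
    ¬ (∃ C₀ : ℝ, 0 < C₀ ∧ ∀ n : ℕ, 1 ≤ n → ∀ A : Finset (Equiv.Perm (Fin n)), ∀ ε : ℝ, 0 ≤ ε →
    (∃ a : Fin n → Fin n → ℝ,
      (1 / (n.factorial : ℝ)) * ∑ σ : Equiv.Perm (Fin n),
          ((if σ ∈ A then (1:ℝ) else 0) - ∑ i : Fin n, a i (σ i)) ^ 2
        ≤ ε * ((A.card : ℝ) / ((n - 1).factorial : ℝ)) / n) →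
    ∃ S : Finset (Fin n × Fin n),
      (S.card : ℤ) = round ((A.card : ℝ) / ((n - 1).factorial : ℝ)) ∧
      (1 / (n.factorial : ℝ)) * ∑ σ : Equiv.Perm (Fin n),
          ((if σ ∈ A then (1:ℝ) else 0) - (if ∃ p ∈ S, σ p.1 = p.2 then (1:ℝ) else 0)) ^ 2
        ≤ C₀ * ε * ((A.card : ℝ) / ((n - 1).factorial : ℝ)) / n ∧
      |(A.card : ℝ) / ((n - 1).factorial : ℝ)
          - ((round ((A.card : ℝ) / ((n - 1).factorial : ℝ)) : ℤ) : ℝ)| ≤ C₀ * ε) := by
  rintro ⟨C, hC, H⟩
  obtain ⟨k, hk⟩ := exists_nat_gt C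
  set m : ℕ := k + 2 with hm
  have hmC : C < m := by rw [hm]; push_cast; linarith
  have hm2 : (2:ℝ) ≤ m := by rw [hm]; push_cast; have : (0:ℝ) ≤ k := Nat.cast_nonneg k; linarith
  clear_value m
  set A : Finset (Equiv.Perm (Fin (m+2))) :=
    Finset.univ.filter (fun σ => σ 0 ≠ 0 ∧ σ 1 ≠ 1) with hA
  have h01 : (0 : Fin (m+2)) ≠ 1 := by simp
  have c0 : (Finset.univ.filter (fun σ : Equiv.Perm (Fin (m+2)) => σ 0 = 0)).card
      = (m+1).factorial := by
    have := card_fix ({0} : Finset (Fin (m+2)))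
    simpa using this
  have c1 : (Finset.univ.filter (fun σ : Equiv.Perm (Fin (m+2)) => σ 1 = 1)).card
      = (m+1).factorial := by
    have := card_fix ({1} : Finset (Fin (m+2)))
    simpa using this
  have c01 : (Finset.univ.filter (fun σ : Equiv.Perm (Fin (m+2)) => σ 0 = 0 ∧ σ 1 = 1)).card
      = m.factorial := by
    have := card_fix ({0, 1} : Finset (Fin (m+2)))
    rw [Finset.card_pair h01] at this
    simpa using this
  have cA : A.card + (m+1).factorial + (m+1).factorial = (m+2).factorial + m.factorial := by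
    have h1 := Finset.card_union_add_card_inter
      (Finset.univ.filter (fun σ : Equiv.Perm (Fin (m+2)) => σ 0 = 0))
      (Finset.univ.filter (fun σ : Equiv.Perm (Fin (m+2)) => σ 1 = 1))
    rw [c0, c1, ← Finset.filter_and, c01] at h1
    have h2 : A = (Finset.univ.filter (fun σ : Equiv.Perm (Fin (m+2)) => σ 0 = 0) ∪
      Finset.univ.filter (fun σ : Equiv.Perm (Fin (m+2)) => σ 1 = 1))ᶜ := by
      ext σ; simp [hA]
    have h3 := Finset.card_add_card_compl
      (Finset.univ.filter (fun σ : Equiv.Perm (Fin (m+2)) => σ 0 = 0) ∪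
      Finset.univ.filter (fun σ : Equiv.Perm (Fin (m+2)) => σ 1 = 1))
    rw [← h2, Fintype.card_perm, Fintype.card_fin] at h3
    omega
  have fpos : (0:ℝ) < m.factorial := by exact_mod_cast Nat.factorial_pos m
  have f1 : (((m+1).factorial : ℕ) : ℝ) = (m+1) * m.factorial := by
    rw [Nat.factorial_succ]; push_cast; ring
  have f2 : (((m+2).factorial : ℕ) : ℝ) = (m+2) * ((m+1) * m.factorial) := by
    rw [Nat.factorial_succ, Nat.factorial_succ]; push_cast; ring
  have hc : (A.card : ℝ) / (((m + 2 - 1).factorial : ℕ) : ℝ) = m + 1 / (m+1) := by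
    have h : (A.card : ℝ) + (((m+1).factorial : ℕ) : ℝ) + (((m+1).factorial : ℕ) : ℝ)
        = (((m+2).factorial : ℕ) : ℝ) + m.factorial := by exact_mod_cast cA
    have e : m + 2 - 1 = m + 1 := by omega
    rw [e, f1]
    rw [f1, f2] at h
    have : (A.card : ℝ) = (m+2) * ((m+1) * m.factorial) + m.factorial
      - 2 * ((m+1) * m.factorial) := by linarith
    rw [this]
    field_simp
    ring
  have hmpos : (0:ℝ) < m + 1 := by linarith
  have hsmall : (1:ℝ) / (m+1) ≤ 1/3 := by
    apply one_div_le_one_div_of_le <;> linarith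
  have hpos : (0:ℝ) < 1 / (m+1) := by positivity
  have hr : round ((m:ℝ) + 1 / (m+1)) = (m : ℤ) := by
    rw [round_eq, Int.floor_eq_iff]
    push_cast
    constructor <;> linarith
  set c : ℝ := m + 1 / (m+1) with hcdef
  have hcpos : 0 < c := by rw [hcdef]; linarith
  have key := H (m+2) (by omega) A (1 / ((m+1) * c)) (by positivity) ?_
  · obtain ⟨S, -, -, h3⟩ := key
    rw [hc, hr] at h3
    have e : c - ((m : ℤ) : ℝ) = 1 / (m+1) := by rw [hcdef]; push_cast; ring
    rw [e, abs_of_pos hpos] at h3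
    have h4 : C * (1 / ((m+1) * c)) = (1 / (m+1)) * (C / c) := by field_simp
    have h5 : C / c < 1 := by
      rw [div_lt_one hcpos, hcdef]; linarith
    rw [h4] at h3
    nlinarith
  · refine ⟨fun i j => (if i = 0 then (if j = 0 then 0 else 1) else 0)
      - (if i = 1 then (if j = 1 then 1 else 0) else 0), ?_⟩
    have hs : ∀ σ : Equiv.Perm (Fin (m+2)),
        ((if σ ∈ A then (1:ℝ) else 0) - ∑ i : Fin (m+2),
          ((if i = 0 then (if σ i = 0 then (0:ℝ) else 1) else 0)
            - (if i = 1 then (if σ i = 1 then (1:ℝ) else 0) else 0))) ^ 2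
        = if (σ 0 = 0 ∧ σ 1 = 1) then 1 else 0 := by
      intro σ
      rw [Finset.sum_sub_distrib, Finset.sum_ite_eq', Finset.sum_ite_eq']
      by_cases a0 : σ 0 = 0 <;> by_cases a1 : σ 1 = 1 <;> simp [hA, a0, a1]
    simp only [hs]
    rw [Finset.sum_boole, c01, hc, f2]
    push_cast
    apply le_of_eq
    field_simp

end Pool.Agent.S11238
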