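import Pool.Statements.S11244
-- import your own Pool.Agent.* helpers here

set_option autoImplicit false
open Pointwise
open Pool Pool.MP_c21415_co

namespace Pool.Agent.S11244


section
variable {R : Type} [AddCommGroup R]

def tr (v : R × R × R) : Equiv.Perm (R × R × R) := Equiv.addRight v

def rot : Equiv.Perm (R × R × R) where
  toFun v := (v.2.2, v.1, v.2.1)
  invFun v := (v.2.1, v.2.2, v.1)
  left_inv _ := rfl
  right_inv _ := rfl

theorem tr_mul (v w : R × R × R) : tr v * tr w = tr (v + w) := by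
  ext1 x; simp [tr, add_assoc, add_comm w v]

theorem rot_tr (v : R × R × R) : rot * tr v = tr (v.2.2, v.1, v.2.1) * rot := by
  ext1 x; rfl

theorem main [Fintype R] [DecidableEq R] :
    ∃ A B : Finset (Equiv.Perm (R × R × R)), A.Nonempty ∧ (A * B).card ≤ 2 * A.card ∧
      (∀ b ∈ B, (A * {b} * B).card ≤ 2 * A.card) ∧
      ∀ X ⊆ A, X.card * Fintype.card R ≤ (X * B ^ 3).card := by
  set A : Finset (Equiv.Perm (R × R × R)) :=
    Finset.univ.image (fun p : R × R => tr (p.1, p.2, 0)) with hA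
  set B : Finset (Equiv.Perm (R × R × R)) :=
    insert rot (Finset.univ.image (fun a : R => tr (a, 0, 0))) with hB
  have mA : ∀ g, g ∈ A ↔ ∃ p q : R, tr (p, q, 0) = g := by
    intro g; simp [hA]
  have mB : ∀ g, g ∈ B ↔ g = rot ∨ ∃ a : R, tr (a, 0, 0) = g := by
    intro g; simp [hB]
  have two : ∀ (S : Finset (Equiv.Perm (R × R × R))) (g h : Equiv.Perm (R × R × R)),
      (∀ s ∈ S, ∃ p q : R, s = tr (p, q, 0) * g ∨ s = tr (p, q, 0) * h) →
      S.card ≤ 2 * A.card := by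
    intro S g h hS
    have : S ⊆ A * {g} ∪ A * {h} := by
      intro s hs
      obtain ⟨p, q, e | e⟩ := hS s hs
      · exact Finset.mem_union_left _
          (e ▸ Finset.mul_mem_mul ((mA _).2 ⟨p, q, rfl⟩) (Finset.mem_singleton_self g))
      · exact Finset.mem_union_right _
          (e ▸ Finset.mul_mem_mul ((mA _).2 ⟨p, q, rfl⟩) (Finset.mem_singleton_self h))
    have h1 := Finset.card_le_card this
    have h2 := Finset.card_union_le (A * {g}) (A * {h})
    rw [Finset.card_mul_singleton, Finset.card_mul_singleton] at h2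
    omega
  refine ⟨A, B, ⟨_, (mA _).2 ⟨0, 0, rfl⟩⟩, ?_, ?_, ?_⟩
  · refine two _ rot 1 fun s hs => ?_
    obtain ⟨a, ha, b, hb, rfl⟩ := Finset.mem_mul.1 hs
    obtain ⟨p, q, rfl⟩ := (mA _).1 ha
    rcases (mB _).1 hb with rfl | ⟨a, rfl⟩
    · exact ⟨p, q, Or.inl rfl⟩
    · exact ⟨p + a, q, Or.inr (by rw [tr_mul]; simp)⟩
  · intro b hb
    rcases (mB _).1 hb with rfl | ⟨c, rfl⟩
    · refine two _ rot (rot * rot) fun s hs => ?_
      obtain ⟨a', ha', b, hb, rfl⟩ := Finset.mem_mul.1 hs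
      obtain ⟨a, ha, b', hb', rfl⟩ := Finset.mem_mul.1 ha'
      obtain rfl := Finset.mem_singleton.1 hb'
      obtain ⟨p, q, rfl⟩ := (mA _).1 ha
      rcases (mB _).1 hb with rfl | ⟨a, rfl⟩
      · exact ⟨p, q, Or.inr (mul_assoc _ _ _)⟩
      · exact ⟨p, q + a, Or.inl (by rw [mul_assoc, rot_tr, ← mul_assoc, tr_mul]; simp)⟩
    · refine two _ rot 1 fun s hs => ?_
      obtain ⟨a', ha', b, hb, rfl⟩ := Finset.mem_mul.1 hs
      obtain ⟨a, ha, b', hb', rfl⟩ := Finset.mem_mul.1 ha'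
      obtain rfl := Finset.mem_singleton.1 hb'
      obtain ⟨p, q, rfl⟩ := (mA _).1 ha
      rcases (mB _).1 hb with rfl | ⟨a, rfl⟩
      · exact ⟨p + c, q, Or.inl (by rw [tr_mul]; simp)⟩
      · exact ⟨p + c + a, q, Or.inr (by rw [tr_mul, tr_mul]; simp)⟩
  · intro X hX
    have hr : (rot : Equiv.Perm (R × R × R)) ∈ B := (mB _).2 (Or.inl rfl)
    rw [← Finset.card_univ, ← Finset.card_product]
    refine Finset.card_le_card_of_injOn (fun z => z.1 * (rot * rot * tr (z.2, 0, 0))) ?_ ?_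
    · intro z hz
      have hz' := Finset.mem_product.1 (Finset.mem_coe.1 hz)
      refine Finset.mem_coe.2 (Finset.mul_mem_mul hz'.1 ?_)
      rw [pow_succ, pow_two]
      exact Finset.mul_mem_mul (Finset.mul_mem_mul hr hr) ((mB _).2 (Or.inr ⟨_, rfl⟩))
    · rintro ⟨x, a⟩ hz ⟨y, b⟩ hw hxy
      have hz' := Finset.mem_product.1 (Finset.mem_coe.1 hz)
      have hw' := Finset.mem_product.1 (Finset.mem_coe.1 hw)
      obtain ⟨p, q, rfl⟩ := (mA _).1 (hX hz'.1)
      obtain ⟨p', q', rfl⟩ := (mA _).1 (hX hw'.1)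
      have := congrArg (fun g : Equiv.Perm (R × R × R) => g 0) hxy
      simp [tr, rot] at this
      obtain ⟨rfl, rfl, rfl⟩ := this
      rfl

end

theorem result :
    ¬ (∃ c : ℝ, ∀ (G : Type) [Group G] [DecidableEq G] (A B : Finset G) (α : ℝ),
      (((A * B).card : ℝ) < α * (A.card : ℝ)) →
      (∀ b ∈ B, (((A * {b} * B).card : ℝ) ≤ α * (A.card : ℝ))) →
      ∀ h : ℕ, 1 ≤ h →
        ∃ X : Finset G, X ⊆ A ∧ X.Nonempty ∧
          (((X * B ^ h).card : ℝ) ≤ α ^ (c * (h : ℝ)) * (X.card : ℝ))) := by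
  rintro ⟨c, hc⟩
  obtain ⟨m, hm⟩ := exists_nat_gt ((3 : ℝ) ^ (c * ((3 : ℕ) : ℝ)))
  haveI : NeZero (m + 1) := ⟨Nat.succ_ne_zero m⟩
  obtain ⟨A, B, hA, h1, h2, h3⟩ := main (R := ZMod (m + 1))
  have hApos : (0 : ℝ) < A.card := by exact_mod_cast hA.card_pos
  obtain ⟨X, hX, hXne, hle⟩ := hc _ A B 3
    (by
      have : ((A * B).card : ℝ) ≤ 2 * A.card := by exact_mod_cast h1
      linarith)
    (fun b hb => by
      have : ((A * {b} * B).card : ℝ) ≤ 2 * A.card := by exact_mod_cast h2 b hb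
      linarith) 3 (by norm_num)
  have hXpos : (0 : ℝ) < X.card := by exact_mod_cast hXne.card_pos
  have h4 := h3 X hX
  rw [ZMod.card] at h4
  have h5 : (X.card : ℝ) * (m + 1) ≤ (X * B ^ 3).card := by exact_mod_cast h4
  nlinarith

end Pool.Agent.S11244
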