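import Pool.Statements.S11248
import Pool.Agent.H.MP_c220a4_co.A

set_option autoImplicit false
open Pool Pool.MP_c220a4_co

namespace Pool.Agent.S11248

/-- The negation of the preceding statement: Every strongly connected loopless digraph on n≥3 vertices satisfying both Nash-Williams conditions on its sorted in/out-degree sequences for all 1≤i<n/2 has, for any two distinct vertices, a directed cycle containing both. -/
theorem result :
    ¬ (∀ (n : ℕ) (A : Fin n → Fin n → Bool),
      3 ≤ n →
      (∀ v, A v v = false) →
      (∀ u v, Relation.ReflTransGen (fun a b => A a b = true) u v) →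
      (∀ i : ℕ, 1 ≤ i → 2 * i < n →
        ((Finset.univ.filter
            (fun v => (Finset.univ.filter (fun w => A v w = true)).card ≤ i)).card < i ∨
         (Finset.univ.filter
            (fun v => (Finset.univ.filter (fun w => A w v = true)).card < n - i)).card < n - i)) →
      (∀ i : ℕ, 1 ≤ i → 2 * i < n →
        ((Finset.univ.filter
            (fun v => (Finset.univ.filter (fun w => A w v = true)).card ≤ i)).card < i ∨
         (Finset.univ.filter
            (fun v => (Finset.univ.filter (fun w => A v w = true)).card < n - i)).card < n - i)) →
      ∀ u v : Fin n, u ≠ v →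
        ∃ (k : ℕ) (f : Fin k → Fin n),
          Function.Injective f ∧
          (∀ j : Fin k, A (f j) (f (finRotate k j)) = true) ∧
          u ∈ Set.range f ∧ v ∈ Set.range f) := by
  intro h
  refine Pool.Agent.H.MP_c220a4_co.no_cyc (h 6 Pool.Agent.H.MP_c220a4_co.A (by norm_num)
    Pool.Agent.H.MP_c220a4_co.loopless Pool.Agent.H.MP_c220a4_co.strong ?_ ?_ 0 5 (by decide))
  · intro i h1 h2
    have h3 : i < 3 := by omega
    interval_cases i <;> decide +kernel
  · intro i h1 h2
    have h3 : i < 3 := by omega
    interval_cases i <;> decide +kernel

end Pool.Agent.S11248
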