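import Pool.Statements.S11254
import Pool.Agent.H.MP_369df8_co.Bridge

set_option autoImplicit false
open Pool Pool.MP_c24a34_co

namespace Pool.Agent.S11254

theorem result :
    ¬ (∀ (k : ℕ) (n : Fin k → ℕ) (D : (i : Fin k) → Digraph (Fin (n i))),
    (∀ (i : Fin k) (a b : Fin (n i)), (D i).Adj a b → ¬ (D i).Adj b a) →
    (∀ i : Fin k,
      sInf {m : ℕ | ∃ X : Fin m → Set (Fin (n i)), ∃ f : Fin (n i) → ℕ, ∀ u v : Fin (n i),
        ((D i).Adj u v ∧ Even (Nat.card {j : Fin m // u ∈ X j ∧ v ∈ X j})) ∨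
        ((D i).Adj v u ∧ Odd (Nat.card {j : Fin m // u ∈ X j ∧ v ∈ X j})) → f u < f v} = 1 ∨
      Even (sInf {m : ℕ | ∃ X : Fin m → Set (Fin (n i)), ∃ f : Fin (n i) → ℕ, ∀ u v : Fin (n i),
        ((D i).Adj u v ∧ Even (Nat.card {j : Fin m // u ∈ X j ∧ v ∈ X j})) ∨
        ((D i).Adj v u ∧ Odd (Nat.card {j : Fin m // u ∈ X j ∧ v ∈ X j})) → f u < f v})) →
    sInf {m : ℕ | ∃ X : Fin m → Set (Σ i : Fin k, Fin (n i)),
        ∃ f : (Σ i : Fin k, Fin (n i)) → ℕ, ∀ u v : (Σ i : Fin k, Fin (n i)),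
        ((u.1 < v.1 ∨ ∃ (i : Fin k) (a b : Fin (n i)),
            u = ⟨i, a⟩ ∧ v = ⟨i, b⟩ ∧ (D i).Adj a b) ∧
          Even (Nat.card {j : Fin m // u ∈ X j ∧ v ∈ X j})) ∨
        ((v.1 < u.1 ∨ ∃ (i : Fin k) (a b : Fin (n i)),
            v = ⟨i, a⟩ ∧ u = ⟨i, b⟩ ∧ (D i).Adj a b) ∧
          Odd (Nat.card {j : Fin m // u ∈ X j ∧ v ∈ X j})) → f u < f v}
    = ∑ i : Fin k,
      sInf {m : ℕ | ∃ X : Fin m → Set (Fin (n i)), ∃ f : Fin (n i) → ℕ, ∀ u v : Fin (n i),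
        ((D i).Adj u v ∧ Even (Nat.card {j : Fin m // u ∈ X j ∧ v ∈ X j})) ∨
        ((D i).Adj v u ∧ Odd (Nat.card {j : Fin m // u ∈ X j ∧ v ∈ X j})) → f u < f v}) := by
  intro h
  obtain ⟨n, m, D, E, hD, hE, -, -, h3, h4, k, h1, h2⟩ := H.MP_369df8_co.core
  let F : (i : Fin 2) → Digraph (Fin (![n, m] i)) := fun
    | 0 => ⟨D⟩
    | 1 => ⟨E⟩
  have t : ∀ i, H.MP_369df8_co.Tri.Tour (F i).Adj := fun
    | 0 => hD
    | 1 => hE
  let e : (Σ i : Fin 2, Fin (![n, m] i)) → Fin n ⊕ Fin m := fun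
    | ⟨0, a⟩ => .inl a
    | ⟨1, a⟩ => .inr a
  have he : Function.Injective e := fun
    | ⟨0, _⟩, ⟨0, _⟩, x => by rw [Sum.inl_injective x]
    | ⟨0, _⟩, ⟨1, _⟩, x => by simp [e] at x
    | ⟨1, _⟩, ⟨0, _⟩, x => by simp [e] at x
    | ⟨1, _⟩, ⟨1, _⟩, x => by rw [Sum.inr_injective x]
  let R : (Σ i : Fin 2, Fin (![n, m] i)) → (Σ i : Fin 2, Fin (![n, m] i)) → Prop := fun u v =>
    u.1 < v.1 ∨ ∃ (i : Fin 2) (a b : Fin (![n, m] i)), u = ⟨i, a⟩ ∧ v = ⟨i, b⟩ ∧ (F i).Adj a b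
  have same : ∀ i a b, R ⟨i, a⟩ ⟨i, b⟩ ↔ (F i).Adj a b := fun i a b => by
    refine ⟨?_, fun x => Or.inr ⟨i, a, b, rfl, rfl, x⟩⟩
    rintro (x | ⟨j, c, d, x, y, z⟩)
    · exact absurd x (lt_irrefl _)
    · cases x
      cases y
      exact z
  have hR : ∀ u v, R u v ↔ H.MP_369df8_co.Tri.dijoin D E (e u) (e v) := fun
    | ⟨0, _⟩, ⟨0, _⟩ => same _ _ _
    | ⟨0, _⟩, ⟨1, _⟩ => iff_of_true (Or.inl (by simp)) trivial
    | ⟨1, _⟩, ⟨0, _⟩ => iff_of_false (by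
        rintro (x | ⟨j, c, d, x, y, z⟩)
        · simp at x
        · have := (congrArg Sigma.fst x).trans (congrArg Sigma.fst y).symm
          simp at this) id
    | ⟨1, _⟩, ⟨1, _⟩ => same _ _ _
  have j := H.MP_369df8_co.tour_dijoin hD hE
  have tR : H.MP_369df8_co.Tri.Tour R :=
    ⟨fun v => by rw [hR]; exact j.1 _, fun u v x => by rw [hR, hR]; exact j.2 _ _ (he.ne x)⟩
  have c : H.MP_369df8_co.inv R ≤ k := Nat.sInf_le (h1.comap he hR)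
  have := h 2 ![n, m] F (fun i a b x => by
    by_cases y : a = b
    · exact absurd (y ▸ x) ((t i).1 b)
    · exact ((t i).2 a b y).mp x) fun i => by
      rw [H.MP_369df8_co.setC (t i)]
      exact Or.inr (match i with | 0 => h3 | 1 => h4)
  simp only [H.MP_369df8_co.setC (t _), Fin.sum_univ_two] at this
  have x : H.MP_369df8_co.inv R = H.MP_369df8_co.inv D + H.MP_369df8_co.inv E :=
    (H.MP_369df8_co.setC tR).symm.trans this
  omega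

end Pool.Agent.S11254
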