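import Pool.Statements.S11268

set_option autoImplicit false
open Pool Pool.MP_c32a86_co

namespace Pool.Agent.S11268

section
variable {G : Type} [Group G] [Fintype G] (χ : G → Fin 2)

def ind (p q : Fin 2) : ℝ := if p = q then 1 else 0

theorem t1 (p q r : Fin 2) : 1 ≤ ind p q + ind q r + ind p r := by
  fin_cases p <;> fin_cases q <;> fin_cases r <;> simp [ind]

theorem t2 (p q r s : Fin 2) : ind p s ≤ ind p q + ind q r + ind r s := by
  fin_cases p <;> fin_cases q <;> fin_cases r <;> fin_cases s <;> simp [ind]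

def E (g : G) : ℝ := ∑ x, ind (χ x) (χ (x * g))

theorem shift (g h : G) : ∑ x, ind (χ (x * g)) (χ (x * g * h)) = E χ h :=
  Equiv.sum_comp (Equiv.mulRight g) (fun x => ind (χ x) (χ (x * h)))

theorem e1 (g h : G) : (Fintype.card G : ℝ) ≤ E χ g + E χ h + E χ (g * h) := by
  rw [← shift χ g h]
  unfold E
  rw [← Finset.sum_add_distrib, ← Finset.sum_add_distrib]
  calc (Fintype.card G : ℝ) = ∑ _x : G, (1 : ℝ) := by simp
    _ ≤ _ := Finset.sum_le_sum fun x _ => by
      rw [← mul_assoc]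
      exact t1 _ _ _

theorem e2 (g h k : G) : E χ (g * h * k) ≤ E χ g + E χ h + E χ k := by
  rw [← shift χ g h, ← shift χ (g * h) k]
  unfold E
  rw [← Finset.sum_add_distrib, ← Finset.sum_add_distrib]
  refine Finset.sum_le_sum fun x _ => ?_
  simp only [← mul_assoc]
  exact t2 _ _ _ _

def K (a b : G) : G := a * b * a⁻¹ * b⁻¹

def N : ℝ := ∑ w : G, E χ (w * w)

def M : ℝ := ∑ a : G, ∑ b : G, E χ (K a b)

theorem m1 : M χ ≤ 3 * (Fintype.card G * N χ) := by
  have h : ∀ a b : G, E χ (K a b) ≤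
      E χ (a * a) + E χ (a⁻¹ * b * (a⁻¹ * b)) + E χ (b⁻¹ * b⁻¹) := by
    intro a b
    have : K a b = a * a * (a⁻¹ * b * (a⁻¹ * b)) * (b⁻¹ * b⁻¹) := by
      unfold K
      group
    rw [this]
    exact e2 χ _ _ _
  have h1 : ∑ a : G, ∑ _b : G, E χ (a * a) = Fintype.card G * N χ := by
    simp [N, Finset.mul_sum]
  have h2 : ∑ a : G, ∑ b : G, E χ (a⁻¹ * b * (a⁻¹ * b)) = Fintype.card G * N χ := by
    have : ∀ a : G, ∑ b : G, E χ (a⁻¹ * b * (a⁻¹ * b)) = N χ := fun a =>
      Equiv.sum_comp (Equiv.mulLeft a⁻¹) (fun w => E χ (w * w))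
    simp [this]
  have h3 : ∑ _a : G, ∑ b : G, E χ (b⁻¹ * b⁻¹) = Fintype.card G * N χ := by
    have : ∑ b : G, E χ (b⁻¹ * b⁻¹) = N χ :=
      Equiv.sum_comp (Equiv.inv G) (fun w => E χ (w * w))
    simp [this]
  calc M χ ≤ ∑ a : G, ∑ b : G,
        (E χ (a * a) + E χ (a⁻¹ * b * (a⁻¹ * b)) + E χ (b⁻¹ * b⁻¹)) :=
        Finset.sum_le_sum fun a _ => Finset.sum_le_sum fun b _ => h a b
    _ = _ := by
        simp only [Finset.sum_add_distrib]
        rw [h1, h2, h3]
        ring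

theorem m2 : (Fintype.card G : ℝ) * (Fintype.card G * (Fintype.card G * Fintype.card G)) ≤
    3 * (Fintype.card G * M χ) := by
  have h : ∀ b a c : G, (Fintype.card G : ℝ) ≤
      E χ (K a b) + E χ (K (b * a * b⁻¹) (b * c * b⁻¹)) + E χ (K a (b * c)) := by
    intro b a c
    have : K a (b * c) = K a b * K (b * a * b⁻¹) (b * c * b⁻¹) := by
      unfold K
      group
    rw [this]
    exact e1 χ _ _
  have h1 : ∑ b : G, ∑ a : G, ∑ _c : G, E χ (K a b) = Fintype.card G * M χ := by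
    rw [Finset.sum_comm]
    simp [M, Finset.mul_sum]
  have h2 : ∑ b : G, ∑ a : G, ∑ c : G, E χ (K (b * a * b⁻¹) (b * c * b⁻¹)) =
      Fintype.card G * M χ := by
    have : ∀ b : G, ∑ a : G, ∑ c : G, E χ (K (b * a * b⁻¹) (b * c * b⁻¹)) = M χ := by
      intro b
      have h4 : ∀ a : G, ∑ c : G, E χ (K a (b * c * b⁻¹)) = ∑ c : G, E χ (K a c) := fun a =>
        Equiv.sum_comp (MulAut.conj b).toEquiv (fun c => E χ (K a c))
      simp only [h4]
      exact Equiv.sum_comp (MulAut.conj b).toEquiv (fun a => ∑ c : G, E χ (K a c))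
    simp [this]
  have h3 : ∑ b : G, ∑ a : G, ∑ c : G, E χ (K a (b * c)) = Fintype.card G * M χ := by
    have : ∀ b a : G, ∑ c : G, E χ (K a (b * c)) = ∑ c : G, E χ (K a c) := fun b a =>
      Equiv.sum_comp (Equiv.mulLeft b) (fun c => E χ (K a c))
    simp only [this]
    simp [M]
  calc _ = ∑ _b : G, ∑ _a : G, ∑ _c : G, (Fintype.card G : ℝ) := by simp
    _ ≤ ∑ b : G, ∑ a : G, ∑ c : G,
        (E χ (K a b) + E χ (K (b * a * b⁻¹) (b * c * b⁻¹)) + E χ (K a (b * c))) :=
        Finset.sum_le_sum fun b _ => Finset.sum_le_sum fun a _ => Finset.sum_le_sum fun c _ =>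
          h b a c
    _ = _ := by
        simp only [Finset.sum_add_distrib]
        rw [h1, h2, h3]
        ring

theorem n1 : N χ = ∑ c : G, ∑ x : G, ind (χ x) (χ (c * x⁻¹ * c)) := by
  unfold N E
  rw [Finset.sum_comm, Finset.sum_comm (f := fun c x => ind (χ x) (χ (c * x⁻¹ * c)))]
  refine Finset.sum_congr rfl fun x _ => ?_
  rw [← Equiv.sum_comp (Equiv.mulLeft x) (fun c => ind (χ x) (χ (c * x⁻¹ * c)))]
  refine Finset.sum_congr rfl fun w _ => ?_
  congr 2
  simp [mul_assoc]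

theorem n2 (c : G) : ∑ x : G, ind (χ x) (χ (c * x⁻¹ * c)) =
    ((Finset.univ.filter (fun x : G => χ x = 0 ∧ χ (c * x⁻¹ * c) = 0)).card : ℝ) +
    ((Finset.univ.filter (fun x : G => χ x = 1 ∧ χ (c * x⁻¹ * c) = 1)).card : ℝ) := by
  rw [Finset.card_filter, Finset.card_filter]
  push_cast
  rw [← Finset.sum_add_distrib]
  refine Finset.sum_congr rfl fun x _ => ?_
  generalize χ x = p
  generalize χ (c * x⁻¹ * c) = q
  fin_cases p <;> fin_cases q <;> simp [ind]

end

theorem result :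
    ¬ (∀ ε : ℝ, 0 < ε → ∀ r : ℕ, 1 < r →
      ∃ (G : Type) (_ : Group G) (_ : Fintype G), ∃ χ : G → Fin r,
        ∀ c : G, ∀ i : Fin r,
          ((Finset.univ.filter (fun x : G => χ x = i ∧ χ (c * x⁻¹ * c) = i)).card : ℝ)
            < ε * (Fintype.card G : ℝ)) := by
  intro H
  obtain ⟨G, _, _, χ, h⟩ := H (1 / 18) (by norm_num) 2 (by norm_num)
  have hn : (0 : ℝ) < Fintype.card G := by
    have : 0 < Fintype.card G := Fintype.card_pos_iff.2 ⟨1⟩
    exact_mod_cast this
  have a1 := m1 χ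
  have a2 := m2 χ
  have a3 : N χ < Fintype.card G * (Fintype.card G / 9) := by
    rw [n1]
    calc _ < ∑ _c : G, (Fintype.card G / 9 : ℝ) :=
          Finset.sum_lt_sum_of_nonempty ⟨1, Finset.mem_univ _⟩ fun c _ => by
            rw [n2]
            have b0 := h c 0
            have b1 := h c 1
            linarith
      _ = _ := by simp
  generalize (Fintype.card G : ℝ) = n at *
  have a4 : n * (n * n) ≤ 3 * M χ := by
    have : n * (n * (n * n)) ≤ n * (3 * M χ) := by linarith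
    exact le_of_mul_le_mul_left this hn
  have a5 : n * n ≤ 9 * N χ := by
    have : n * (n * n) ≤ n * (9 * N χ) := by linarith
    exact le_of_mul_le_mul_left this hn
  linarith

end Pool.Agent.S11268
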