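import Pool.Statements.S11286
import Pool.Agent.H.MP_c40d78_co.Main

set_option autoImplicit false
open Pool Pool.MP_c40d78_co

namespace Pool.Agent.S11286

theorem result :
    ¬ (∀ (d n : ℕ) (p : Fin (2 * n) → EuclideanSpace ℝ (Fin d)), Function.Injective p →
      ∀ σ : Equiv.Perm (Fin (2 * n)), (∀ i, σ (σ i) = i) → (∀ i, σ i ≠ i) →
        (∀ τ : Equiv.Perm (Fin (2 * n)), (∀ i, τ (τ i) = i) → (∀ i, τ i ≠ i) →
          ∑ i, dist (p i) (p (τ i)) ≤ ∑ i, dist (p i) (p (σ i))) →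
        ∃ x : EuclideanSpace ℝ (Fin d), ∀ i,
          dist x (midpoint ℝ (p i) (p (σ i))) < dist (p i) (p (σ i)) / 2) := by
  intro h
  obtain ⟨x, hx⟩ := h 3 3 Pool.Agent.H.MP_c40d78_co.pp Pool.Agent.H.MP_c40d78_co.inj
    Pool.Agent.H.MP_c40d78_co.sg (by decide) (by decide)
    (fun τ _ h => Pool.Agent.H.MP_c40d78_co.maxsum τ h)
  exact Pool.Agent.H.MP_c40d78_co.noball x hx

end Pool.Agent.S11286
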