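import Pool.Statements.S11298
import Pool.Agent.H.MP_c4704f_co.B

set_option autoImplicit false
open Pool Pool.MP_c4704f_co

namespace Pool.Agent.S11298

theorem result :
    ¬ (∃ c : ℝ, 0 < c ∧
      ∀ (n : ℕ) (G : SimpleGraph (Fin (n + 1))) (v : Fin (n + 1)),
        G.edgeSet.Nonempty →
          c * ((sInf {N : ℕ | ∃ (m : ℕ) (H : SimpleGraph (Fin m)), H.Colorable N ∧
                ∀ col : Fin m → Fin m → Bool, (∀ a b, col a b = col b a) →
                  ∃ (f : Fin (n + 1) → Fin m) (b : Bool),
                  Function.Injective f ∧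
                  ∀ x y : Fin (n + 1), G.Adj x y →
                    H.Adj (f x) (f y) ∧ col (f x) (f y) = b} : ℕ) : ℝ)
            ≤ ((sInf {N : ℕ | ∃ (m : ℕ) (H : SimpleGraph (Fin m)), H.Colorable N ∧
                ∀ col : Fin m → Fin m → Bool, (∀ a b, col a b = col b a) →
                  ∃ (f : Fin n → Fin m) (b : Bool),
                  Function.Injective f ∧
                  ∀ x y : Fin n, G.Adj (v.succAbove x) (v.succAbove y) →
                    H.Adj (f x) (f y) ∧ col (f x) (f y) = b} : ℕ) : ℝ)) := by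
  rintro ⟨c, hc, h⟩
  obtain ⟨K, hK⟩ := exists_nat_gt (1 / c)
  obtain ⟨n, G, N, hE, hN, hup, hlow⟩ := Agent.H.ChR.main K
  have h1 := h n G 0 hE
  simp only [Fin.succAbove_zero] at h1
  have h2 := Nat.sInf_le (s := {N : ℕ | ∃ (m : ℕ) (H : SimpleGraph (Fin m)), H.Colorable N ∧
                ∀ col : Fin m → Fin m → Bool, (∀ a b, col a b = col b a) →
                  ∃ (f : Fin n → Fin m) (b : Bool),
                  Function.Injective f ∧
                  ∀ x y : Fin n, G.Adj x.succ y.succ →
                    H.Adj (f x) (f y) ∧ col (f x) (f y) = b}) (m := N) hup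
  obtain ⟨m, H, hH, h3⟩ := Nat.sInf_mem (s := {N : ℕ | ∃ (m : ℕ) (H : SimpleGraph (Fin m)),
                H.Colorable N ∧
                ∀ col : Fin m → Fin m → Bool, (∀ a b, col a b = col b a) →
                  ∃ (f : Fin (n + 1) → Fin m) (b : Bool),
                  Function.Injective f ∧
                  ∀ x y : Fin (n + 1), G.Adj x y →
                    H.Adj (f x) (f y) ∧ col (f x) (f y) = b}) (Agent.H.ChR.exists_arrow _ G)
  have h4 := hlow _ m H hH h3
  have h5 := (mul_le_mul_of_nonneg_left (Nat.cast_le (α := ℝ).mpr h4) hc.le).trans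
    (h1.trans (Nat.cast_le.mpr h2))
  rw [div_lt_iff₀ hc] at hK
  have h6 : (0 : ℝ) < N := by exact_mod_cast hN
  push_cast at h5
  nlinarith

end Pool.Agent.S11298
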