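import Pool.Statements.S11334
import Pool.Agent.H.MP_c611ca_co.C

set_option autoImplicit false
open Pool Pool.MP_c611ca_co
open Pool.Agent.H.MP_c611ca_co

namespace Pool.Agent.S11334

theorem result :
    ¬ (∀ P : Finset (EuclideanSpace ℝ (Fin 5)),
      affineSpan ℝ (P : Set (EuclideanSpace ℝ (Fin 5))) = ⊤ →
      ∀ d' : ℕ, ∀ Q : Finset (EuclideanSpace ℝ (Fin d')),
        affineSpan ℝ (Q : Set (EuclideanSpace ℝ (Fin d'))) = ⊤ →
        Nonempty
          (SimpleGraph.fromRel
              (fun a b :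
                  (↥(Set.extremePoints ℝ (convexHull ℝ (P : Set (EuclideanSpace ℝ (Fin 5))))))
                    ⊕ {F : Set (EuclideanSpace ℝ (Fin 5)) //
                        IsExposed ℝ (convexHull ℝ (P : Set (EuclideanSpace ℝ (Fin 5)))) F ∧
                          Module.finrank ℝ (vectorSpan ℝ F) = 4} =>
                (∃ u v, a = Sum.inl u ∧ b = Sum.inl v ∧
                    IsExtreme ℝ (convexHull ℝ (P : Set (EuclideanSpace ℝ (Fin 5))))
                      (segment ℝ (u : EuclideanSpace ℝ (Fin 5)) (v : EuclideanSpace ℝ (Fin 5)))) ∨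
                (∃ u F, a = Sum.inl u ∧ b = Sum.inr F ∧
                    (u : EuclideanSpace ℝ (Fin 5)) ∈ F.1))
            ≃g SimpleGraph.fromRel
              (fun x y :
                  ↥(Set.extremePoints ℝ (convexHull ℝ (Q : Set (EuclideanSpace ℝ (Fin d'))))) =>
                IsExtreme ℝ (convexHull ℝ (Q : Set (EuclideanSpace ℝ (Fin d'))))
                  (segment ℝ (x : EuclideanSpace ℝ (Fin d')) (y : EuclideanSpace ℝ (Fin d'))))) →
        d' = 5) := by
  classical
  intro h
  obtain ⟨a, e, e1, e2⟩ := main okP (0, true)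
  obtain ⟨b, f, f1, f2⟩ := main okQ (.inr 0)
  obtain ⟨φ, g⟩ := facets
  have := h (Finset.univ.image (pt VP)) (by simpa) 6 (Finset.univ.image (pt VQ)) (by simpa)
  rw [Finset.coe_image, Finset.coe_image, Finset.coe_univ, Finset.coe_univ, Set.image_univ,
    Set.image_univ] at this
  refine absurd (this ⟨⟨(e.sumCongr φ).symm.trans f, fun {x y} => ?_⟩⟩) (by decide)
  obtain ⟨x, rfl⟩ := (e.sumCongr φ).surjective x
  obtain ⟨y, rfl⟩ := (e.sumCongr φ).surjective y
  simp only [Equiv.trans_apply, Equiv.symm_apply_apply, SimpleGraph.fromRel_adj, ne_eq,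
    EmbeddingLike.apply_eq_iff_eq, f1]
  refine and_congr_right fun n => ?_
  rw [f2 _ _ n, f2 _ _ (Ne.symm n)]
  rcases x with i | t <;> rcases y with j | u
  · have n : i ≠ j := fun c => n (congrArg _ c)
    simp [AQ, e1, e2 _ _ n, e2 _ _ n.symm]
  all_goals simp [AQ, e1, g]

end Pool.Agent.S11334
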