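import Pool.Statements.S11352
import Pool.Agent.H.MP_c6b127_co.Quad

set_option autoImplicit false
open Pool Pool.MP_c6b127_co

namespace Pool.Agent.S11352

/-- The negation of the preceding statement: If a group acts by incidence-preserving maps on a finite generalised quadrangle of order (s,t), s,t≥1, primitively on points, then it is transitive on lines or has exactly two line orbits of equal size. -/
theorem result :
    ¬ (∀ (P L : Type) [Finite P] [Finite L] (I : P → L → Prop) (s t : ℕ),
      1 ≤ s → 1 ≤ t →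
      (∀ l : L, Set.ncard {p : P | I p l} = s + 1) →
      (∀ p : P, Set.ncard {l : L | I p l} = t + 1) →
      (∀ (p q : P) (l m : L), I p l → I q l → I p m → I q m → p = q ∨ l = m) →
      (∀ (p : P) (l : L), ¬ I p l → ∃! x : P × L, I p x.2 ∧ I x.1 x.2 ∧ I x.1 l) →
      ∀ (G : Type) [Group G] [MulAction G P] [MulAction G L],
        (∀ (g : G) (p : P) (l : L), I (g • p) (g • l) ↔ I p l) →
        MulAction.IsPreprimitive G P →
        (MulAction.IsPretransitive G L ∨
          ∃ l₁ l₂ : L, l₂ ∉ MulAction.orbit G l₁ ∧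
            (∀ l : L, l ∈ MulAction.orbit G l₁ ∨ l ∈ MulAction.orbit G l₂) ∧
            Set.ncard (MulAction.orbit G l₁) = Set.ncard (MulAction.orbit G l₂))) := by
  open Pool.Agent.H.MP_c6b127_co in
  intro H
  have : Fact (Nat.Prime 2) := ⟨Nat.prime_two⟩
  let F := GaloisField 2 5
  have := Fintype.ofFinite F
  have hF : Fintype.card F = 32 := by
    rw [← Nat.card_eq_fintype_card, GaloisField.card 2 5 (by norm_num)]
    norm_num
  have hinv : ∀ l m : Ln F, m ∈ MulAction.orbit (Gp F) l → (isA (ty m) ↔ isA (ty l)) := by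
    rintro l m ⟨g, rfl⟩
    exact g.2.2 l
  have hA : isA (ty (mkLn (0 : F × F × F) (Sum.inl 0))) := by
    rw [ty_mk]
    exact Or.inl rfl
  have hB : ¬ isA (ty (mkLn (0 : F × F × F) (Sum.inl 1))) := by
    rw [ty_mk]
    simp [isA]
  have main := H (F × F × F) (Ln F) (fun p l => p ∈ l.1) 31 33 (by norm_num) (by norm_num)
    (fun l => by rw [ncard_line l, hF])
    (fun p => by
      have := ncard_thru p (fun _ => True)
      simp only [and_true, Set.ofPred_true, Set.ncard_univ, Nat.card_eq_fintype_card,
        Fintype.card_sum, hF, Fintype.card_bool] at this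
      exact this)
    two_pts (gq hF) (Gp F) (fun g p l => g.2.1 p l) (prim hF)
  rcases main with h | ⟨l, m, -, h1, h2⟩
  · obtain ⟨g, hg⟩ := h.exists_smul_eq (mkLn (0 : F × F × F) (Sum.inl 0))
      (mkLn (0 : F × F × F) (Sum.inl 1))
    exact hB ((hinv _ _ ⟨g, hg⟩).mpr hA)
  · have hlm : ¬ (isA (ty l) ↔ isA (ty m)) := fun e => by
      have a1 := (h1 (mkLn (0 : F × F × F) (Sum.inl 0))).imp (hinv _ _) (hinv _ _)
      have a2 := (h1 (mkLn (0 : F × F × F) (Sum.inl 1))).imp (hinv _ _) (hinv _ _)
      rcases a1 with a1 | a1 <;> rcases a2 with a2 | a2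
      · exact hB (a2.mpr (a1.mp hA))
      · exact hB (a2.mpr (e.mp (a1.mp hA)))
      · exact hB (a2.mpr (e.mpr (a1.mp hA)))
      · exact hB (a2.mpr (a1.mp hA))
    have e1 : MulAction.orbit (Gp F) l = {k | isA (ty k) ↔ isA (ty l)} := by
      ext k
      refine ⟨hinv _ _, fun hk => (h1 k).resolve_right fun hk2 => hlm ?_⟩
      exact (Iff.symm hk).trans (hinv _ _ hk2)
    have e2 : MulAction.orbit (Gp F) m = {k | isA (ty k) ↔ isA (ty m)} := by
      ext k
      refine ⟨hinv _ _, fun hk => (h1 k).resolve_left fun hk2 => hlm ?_⟩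
      exact (hinv _ _ hk2).symm.trans hk
    rw [e1, e2] at h2
    by_cases hl : isA (ty l)
    · have hm : ¬ isA (ty m) := fun hm => hlm (iff_of_true hl hm)
      simp only [hl, hm, iff_true, iff_false] at h2
      exact ne_card hF h2
    · have hm : isA (ty m) := by_contra fun hm => hlm (iff_of_false hl hm)
      simp only [hl, hm, iff_true, iff_false] at h2
      exact ne_card hF h2.symm

end Pool.Agent.S11352
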