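import Pool.Statements.S11381
import Pool.Agent.H.MP_c81765_co.C

set_option autoImplicit false
open scoped Pointwise
open Pool Pool.MP_c81765_co

namespace Pool.Agent.S11381

/-- For a finite group acting by affine lattice maps on Z^n and a full-dimensional invariant lattice polytope P, each g gives (dim P^g)! times the lattice-normalized volume of P^g, times det(I−ρ(g)) off the fixed space, divided by ind(P^g): a natural number. -/
theorem result :
    ∀ (n : ℕ) (G : Type) [Group G] [Fintype G]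
      (ρ : G →* Matrix.GeneralLinearGroup (Fin n) ℤ) (t : G → (Fin n → ℤ)),
      (∀ g h : G, t (g * h) = (ρ g).val.mulVec (t h) + t g) →
      ∀ (S : Finset (Fin n → ℤ)) (P : Set (Fin n → ℝ)),
      P = convexHull ℝ ((fun (z : Fin n → ℤ) (i : Fin n) => (z i : ℝ)) '' (S : Set (Fin n → ℤ))) →
      affineSpan ℝ P = ⊤ →
      (∀ g : G, (fun x : Fin n → ℝ =>
          ((ρ g).val.map (Int.cast : ℤ → ℝ)).mulVec x + (fun i => (t g i : ℝ))) '' P = P) →
      ∀ g : G,
      ∀ Pg : Set (Fin n → ℝ),
      Pg = {x : Fin n → ℝ | x ∈ P ∧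
        ((ρ g).val.map (Int.cast : ℤ → ℝ)).mulVec x + (fun i => (t g i : ℝ)) = x} →
      ∀ ind : ℕ,
      ind = sInf {k : ℕ | 0 < k ∧ ∃ z : Fin n → ℤ,
        (fun i => (z i : ℝ)) ∈ affineSpan ℝ ((k : ℝ) • Pg)} →
      ∀ d : ℕ, d = Module.finrank ℝ (affineSpan ℝ Pg).direction →
      ∀ D : ℤ,
      D = Polynomial.eval 1 (Polynomial.divByMonic (ρ g).val.charpoly
            ((Polynomial.X - Polynomial.C (1 : ℤ)) ^ ((ρ g).val.charpoly.rootMultiplicity 1))) →
      ∃ N : ℕ, Filter.Tendsto
        (fun m : ℕ => (d.factorial : ℝ) *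
          ((Set.ncard {z : Fin n → ℤ |
              (fun i => (z i : ℝ)) ∈ (((m * ind : ℕ) : ℝ)) • Pg} : ℝ) /
            (((m * ind : ℕ) : ℝ)) ^ d) * (D : ℝ) / (ind : ℝ))
        Filter.atTop (nhds (N : ℝ)) := by
  open Pool.Agent.H.MP_c81765_co in
  intro n G _ _ ρ t ht S P hP hT hm g Pg hg ind hi d hd D hD
  have p : ∀ j : ℕ, (fun x => (cm (ρ g).val).mulVec x + ci (t g))^[j] =
      fun x => (cm (ρ (g ^ j)).val).mulVec x + ci (t (g ^ j)) := fun j => by
    induction j with
    | zero =>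
      have := ht 1 1
      simp only [mul_one, map_one, Units.val_one, Matrix.one_mulVec, left_eq_add] at this
      ext x i
      simp [this, cm_one, ci]
    | succ j ih =>
      ext1 x
      rw [Function.iterate_succ_apply', ih, pow_succ', ht, map_mul, Units.val_mul, cm_mul,
        Matrix.mulVec_add, Matrix.mulVec_mulVec, ← ci_mul, add_assoc]
      congr 1
      ext i
      simp [ci]
  refine core (orderOf_pos g) (ρ g).val (t g) ?_ ?_ S P hP hT (fun x hx => ?_) Pg hg ind hi d hd D hD
  · rw [← Units.val_pow_eq_pow_val, ← map_pow, pow_orderOf_eq_one, map_one, Units.val_one]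
  · rw [p, pow_orderOf_eq_one, ← pow_zero g, ← p]; rfl
  · exact (hm g).le ⟨x, hx, rfl⟩

end Pool.Agent.S11381
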