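import Pool.Statements.S11432
import Mathlib
import Pool.Agent.H.MP_ca83f8_co.A

set_option autoImplicit false
open Pool Pool.MP_ca83f8_co

namespace Pool.Agent.S11432

/-- The negation of the preceding statement: For k≥2 and a linear k-uniform F with Turán number at least c·n^k, for all large r and large n every n-vertex k-graph has at most r^ex(n,F) r-colourings without a rainbow copy of F, with equality iff it is F-extremal. -/
theorem result :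
    ¬ (∀ (k m : ℕ) (F : Finset (Finset (Fin m))) (ex : ℕ → ℕ), 2 ≤ k →
      (∀ e ∈ F, e.card = k) →
      (∀ e ∈ F, ∀ f ∈ F, e ≠ f → (e ∩ f).card ≤ 1) →
      (∀ n : ℕ, ex n = sSup {t : ℕ | ∃ G : Finset (Finset (Fin n)),
          (∀ e ∈ G, e.card = k) ∧
          (¬ ∃ φ : Fin m ↪ Fin n, ∀ e ∈ F, e.map φ ∈ G) ∧ G.card = t}) →
      (∃ c : ℝ, 0 < c ∧ ∃ N : ℕ, ∀ n ≥ N, c * (n : ℝ) ^ k ≤ (ex n : ℝ)) →
      ∃ r0 : ℕ, ∀ r ≥ r0, ∃ n0 : ℕ, ∀ n ≥ n0, ∀ H : Finset (Finset (Fin n)),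
        (∀ e ∈ H, e.card = k) →
        (Nat.card {c : {x // x ∈ H} → Fin r //
            ¬ ∃ φ : Fin m ↪ Fin n, (∀ e ∈ F, e.map φ ∈ H) ∧
              ∀ e ∈ F, ∀ f ∈ F, ∀ x y : {x // x ∈ H},
                x.1 = e.map φ → y.1 = f.map φ → e ≠ f → c x ≠ c y} ≤ r ^ ex n ∧
        (Nat.card {c : {x // x ∈ H} → Fin r //
            ¬ ∃ φ : Fin m ↪ Fin n, (∀ e ∈ F, e.map φ ∈ H) ∧
              ∀ e ∈ F, ∀ f ∈ F, ∀ x y : {x // x ∈ H},
                x.1 = e.map φ → y.1 = f.map φ → e ≠ f → c x ≠ c y} = r ^ ex n ↔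
          ((¬ ∃ φ : Fin m ↪ Fin n, ∀ e ∈ F, e.map φ ∈ H) ∧ H.card = ex n)))) := by
  intro hh
  have bdd : ∀ n : ℕ, ∀ t ∈ {t : ℕ | ∃ G : Finset (Finset (Fin n)),
      (∀ e ∈ G, e.card = 2) ∧
      (¬ ∃ φ : Fin 9 ↪ Fin n, ∀ e ∈ H.MP_ca83f8_co.FF, e.map φ ∈ G) ∧ G.card = t},
      t ≤ (n ^ 2 + 24 * n) / 4 := by
    rintro n t ⟨G, a, b, rfl⟩
    have := H.MP_ca83f8_co.exF n G a b
    omega
  have mem : ∀ n : ℕ, (H.MP_ca83f8_co.BB n).card ∈ {t : ℕ | ∃ G : Finset (Finset (Fin n)),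
      (∀ e ∈ G, e.card = 2) ∧
      (¬ ∃ φ : Fin 9 ↪ Fin n, ∀ e ∈ H.MP_ca83f8_co.FF, e.map φ ∈ G) ∧ G.card = t} :=
    fun n => ⟨_, H.MP_ca83f8_co.BB_card n, H.MP_ca83f8_co.BB_free n, rfl⟩
  obtain ⟨r0, h⟩ := hh 2 9 H.MP_ca83f8_co.FF _ le_rfl H.MP_ca83f8_co.FF_card
    H.MP_ca83f8_co.FF_lin (fun _ => rfl) ⟨1 / 8, by norm_num, 2, fun n hn => by
      have a := (H.MP_ca83f8_co.BB_ge n).trans (le_csSup ⟨_, bdd n⟩ (mem n))
      have b : n ^ 2 ≤ 8 * (n / 2 * (n - n / 2)) := by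
        obtain ⟨k, rfl | rfl⟩ := Nat.even_or_odd' n
        · rw [show 2 * k / 2 = k by omega, show 2 * k - k = k by omega]; nlinarith
        · rw [show (2 * k + 1) / 2 = k by omega, show 2 * k + 1 - k = k + 1 by omega]
          have : 1 ≤ k := by omega
          nlinarith
      have c := b.trans (Nat.mul_le_mul_left 8 a)
      have d := (Nat.cast_le (α := ℝ)).2 c
      push_cast at d
      linarith⟩
  obtain ⟨n0, h⟩ := h (r0 + 2) (by omega)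
  obtain ⟨r, hr⟩ : ∃ r, r = r0 + 2 := ⟨_, rfl⟩
  rw [← hr] at h
  obtain ⟨k, hk⟩ : ∃ k, k = n0 + 12 * r + 2 := ⟨_, rfl⟩
  have a := (H.MP_ca83f8_co.count (2 * k) r (by omega)).trans
    (h (2 * k) (by omega) _ fun e he => (Finset.mem_powersetCard.1 he).2).1
  have b := a.trans (Nat.pow_le_pow_right (by omega) (csSup_le ⟨_, mem _⟩ (bdd _)))
  have c1 := H.MP_ca83f8_co.BB_ge (2 * k)
  have c2 := H.MP_ca83f8_co.mantel (2 * k) _ (H.MP_ca83f8_co.BB_card _) (H.MP_ca83f8_co.BB_tri _)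
  rw [show 2 * k / 2 = k by omega, show 2 * k - k = k by omega] at c1
  have c : (H.MP_ca83f8_co.BB (2 * k)).card = k * k := by nlinarith
  obtain ⟨j, rfl⟩ : ∃ j, k = j + 1 := ⟨k - 1, by omega⟩
  have e1 : (2 * (j + 1)).choose 2 - (j + 1) * (j + 1) = j * (j + 1) := by
    rw [Nat.choose_two_right, show 2 * (j + 1) - 1 = 2 * j + 1 by omega, mul_assoc,
      Nat.mul_div_cancel_left _ (by norm_num)]
    exact Nat.sub_eq_of_eq_add (by ring)
  have e2 : ((2 * (j + 1)) ^ 2 + 24 * (2 * (j + 1))) / 4 = (j + 1) * (j + 1) + 12 * (j + 1) :=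
    Nat.div_eq_of_eq_mul_right (by norm_num) (by ring)
  rw [c, e1, e2, pow_add, pow_mul 2, pow_mul r 12] at b
  have b2 := Nat.le_of_mul_le_mul_left b (Nat.pow_pos (by omega))
  have b3 := (Nat.pow_le_pow_iff_left (by omega)).1 b2
  have b4 : r ^ 12 < (2 ^ r) ^ 12 := Nat.pow_lt_pow_left Nat.lt_two_pow_self (by norm_num)
  rw [← pow_mul] at b4
  have b5 : 2 ^ (r * 12) ≤ 2 ^ j := Nat.pow_le_pow_right (by norm_num) (by omega)
  omega

end Pool.Agent.S11432
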