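import Pool.Statements.S11450
import Pool.Agent.H.MP_cb399b_co.Main

set_option autoImplicit false
open Pool Pool.MP_cb399b_co

namespace Pool.Agent.S11450

theorem result :
    ¬ (∀ (α : Type) (M : Matroid α) (k : ℕ), 2 ≤ k → M.E.Finite →
      M.E.encard = (k : ℕ∞) * M.eRank + 1 →
      ∀ x y : α, x ∈ M.E → y ∈ M.E →
      (∃ B : Fin k → Set α, (∀ i, M.IsBase (B i)) ∧
          (∀ i j, i ≠ j → Disjoint (B i) (B j)) ∧
          (⋃ i, B i) = M.E \ {x}) →
      (∃ B : Fin k → Set α, (∀ i, M.IsBase (B i)) ∧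
          (∀ i j, i ≠ j → Disjoint (B i) (B j)) ∧
          (⋃ i, B i) = M.E \ {y}) →
      ∃ P Q : Fin k → Set α,
        (∀ i, M.IsBase (P i)) ∧ (∀ i j, i ≠ j → Disjoint (P i) (P j)) ∧
          (⋃ i, P i) = M.E \ {x} ∧
        (∀ i, M.IsBase (Q i)) ∧ (∀ i j, i ≠ j → Disjoint (Q i) (Q j)) ∧
          (⋃ i, Q i) = M.E \ {y} ∧
        ∃ i j, P i = Q j) := by
  open Pool.Agent.H.MP_cb399b_co Pool.Agent.Lib.helper8 in
  intro h
  obtain ⟨P, Q, p1, -, p3, q1, -, q3, i, j, e⟩ := h (Fin 9) M 2 le_rfl (Set.toFinite _)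
    (by rw [ground, rank]; simp; rfl) 0 6 (Set.mem_univ _) (Set.mem_univ _)
    (part 78 432 0 (by norm_num) (by decide +kernel) (by norm_num) (by decide +kernel) (by decide)
      (by decide))
    (part 39 408 6 (by norm_num) (by decide +kernel) (by norm_num) (by decide +kernel) (by decide)
      (by decide))
  obtain ⟨m, h1, h2, h3⟩ := (isBase_iff _).mp (p1 i)
  have a := other P 0 p1 p3 i m h3
  have b := other Q 6 q1 q3 j m (e ▸ h3)
  have c := (allLt_iff _ _).mp nocommon m h1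
  simp only [h2, Bool.not_true, Bool.false_or, Bool.or_eq_true, Bool.not_eq_true'] at c
  rcases c with c | c
  · exact absurd (a.symm.trans c) (by decide)
  · exact absurd (b.symm.trans c) (by decide)

end Pool.Agent.S11450
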