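import Pool.Statements.S11470
import Pool.Agent.H.MP_cc1856_co.C

set_option autoImplicit false
open Pool Pool.MP_cc1856_co

namespace Pool.Agent.S11470

theorem result :
    ¬ (∀ ε : ℝ, 0 < ε → ∃ N : ℕ, ∀ X : Finset (EuclideanSpace ℝ (Fin 3)), N ≤ X.card →
      (∀ S : Finset (EuclideanSpace ℝ (Fin 3)), S ⊆ X → S.card = 4 →
        AffineIndependent ℝ (fun p : S => (p : EuclideanSpace ℝ (Fin 3)))) →
      ∀ c : EuclideanSpace ℝ (Fin 3) → Bool,
        ∃ k : ℕ, (k : ℝ) ≤ ε * (X.card : ℝ) ∧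
          ∃ f : EuclideanSpace ℝ (Fin 3) → Fin k,
            (∀ x ∈ X, ∀ y ∈ X, f x = f y → c x = c y) ∧
            ∀ i j : Fin k, i ≠ j →
              Disjoint (convexHull ℝ {x | x ∈ X ∧ f x = i})
                       (convexHull ℝ {x | x ∈ X ∧ f x = j})) := by
  classical
  intro H
  obtain ⟨N0, hN⟩ := H (1 / 253) (by norm_num)
  obtain ⟨N, hN1, hN2⟩ : ∃ N, N0 ≤ N ∧ 1 ≤ N := ⟨N0 + 1, by omega, by omega⟩
  obtain ⟨y, z, hg, hi⟩ := Pool.Agent.H.MP_cc1856_co.C.three N
  let L : ((ℝ × ℝ) × ℝ) →ₗ[ℝ] EuclideanSpace ℝ (Fin 3) :=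
    { toFun := fun w => WithLp.toLp 2 ![w.1.1, w.1.2, w.2]
      map_add' := fun a b => by ext i; fin_cases i <;> simp
      map_smul' := fun a b => by ext i; fin_cases i <;> simp }
  have hL : ∀ w, L w = 0 → w = 0 := by
    intro w h
    have h0 := congrArg (fun v : EuclideanSpace ℝ (Fin 3) => v 0) h
    have h1 := congrArg (fun v : EuclideanSpace ℝ (Fin 3) => v 1) h
    have h2 := congrArg (fun v : EuclideanSpace ℝ (Fin 3) => v 2) h
    ext
    · simpa [L] using h0
    · simpa [L] using h1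
    · simpa [L] using h2
  let x : ℕ → (ℝ × ℝ) × ℝ := fun i => (((i : ℝ), y i), z i)
  let P : ℕ → EuclideanSpace ℝ (Fin 3) := fun i => L (x i)
  have P0 : ∀ i, P i 0 = i := fun i => by simp [P, L, x]
  have hP : Function.Injective P := fun i j e => by
    have := P0 i
    rw [e, P0] at this
    exact Nat.cast_injective (R := ℝ) this.symm
  have hc : ((Finset.range N).image P).card = N := by
    rw [Finset.card_image_of_injective _ hP, Finset.card_range]
  obtain ⟨k, hk, f, f1, f2⟩ := hN ((Finset.range N).image P) (by omega) (fun S hS h4 => by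
    obtain ⟨S', h1, rfl⟩ := Finset.subset_image_iff.1 hS
    rw [Finset.card_image_of_injective _ hP] at h4
    rw [affineIndependent_iff_of_fintype]
    intro w w1 w2 p
    rw [Finset.weightedVSub_eq_linear_combination _ w1] at w2
    let c : ℕ → ℝ := fun i => if h : P i ∈ S'.image P then w ⟨P i, h⟩ else 0
    have key : ∀ {M : Type} [AddCommGroup M] (g : ℝ → EuclideanSpace ℝ (Fin 3) → M),
        ∑ p : S'.image P, g (w p) p = ∑ i ∈ S', g (c i) (P i) := by
      intro M _ g
      symm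
      refine Finset.sum_bij (fun i hi => ⟨P i, Finset.mem_image_of_mem _ hi⟩) (by simp)
        (fun i _ j _ e => hP (congrArg Subtype.val e)) ?_ ?_
      · rintro ⟨q, hq⟩ -
        obtain ⟨i, hi, rfl⟩ := Finset.mem_image.1 hq
        exact ⟨i, hi, rfl⟩
      · intro i hi
        simp only [c, dif_pos (Finset.mem_image_of_mem P hi)]
    have k1 := key fun a _ => a
    have k2 := key fun a v => a • v
    obtain ⟨q, hq⟩ := p
    obtain ⟨i, hi', rfl⟩ := Finset.mem_image.1 hq
    have := hi S' h1 h4.le c (k1 ▸ w1) (hL _ (by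
      rw [map_sum]
      simp only [map_smul]
      exact k2 ▸ w2)) i hi'
    simpa only [c, dif_pos hq] using this) fun p => decide (⌊p 0⌋₊ % 5 = 0)
  rw [hc] at hk
  have hk' : 253 * k ≤ N := by
    have : (253 : ℝ) * k ≤ N := by linarith
    exact_mod_cast this
  obtain ⟨j, -, hj⟩ := Finset.exists_lt_card_fiber_of_mul_lt_card_of_maps_to
    (s := Finset.range N) (t := Finset.univ) (f := fun i => f (P i)) (n := 251) (by simp)
    (by simp; omega)
  obtain ⟨q, d, hd, hq⟩ := hg _ (Finset.filter_subset _ _) hj 1 one_pos (by simp)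
    (by simp [Nat.mod_one]) 0
  have hm : ∀ t < 5, f (P (q + t * d)) = j := by
    intro t ht
    obtain ⟨a, -, b⟩ := hq t ht
    by_contra hne
    refine Set.disjoint_left.1 (f2 _ _ hne) (show P (q + t * d) ∈ _ from
      subset_convexHull _ _ ⟨Finset.mem_image_of_mem _ (Finset.mem_range.2 a), rfl⟩) ?_
    have := Set.mem_image_of_mem L b.mem
    rw [LinearMap.image_convexHull] at this
    refine convexHull_mono ?_ this
    rintro _ ⟨_, ⟨i, hi', rfl⟩, rfl⟩
    have hi' := Finset.mem_filter.1 hi'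
    exact ⟨Finset.mem_image_of_mem _ hi'.1, hi'.2⟩
  have hcol : ∀ t < 5, ((q + t * d) % 5 = 0 ↔ (q + 0 * d) % 5 = 0) := by
    intro t ht
    have := f1 _ (Finset.mem_image_of_mem P (Finset.mem_range.2 (hq t ht).1)) _
      (Finset.mem_image_of_mem P (Finset.mem_range.2 (hq 0 (by norm_num)).1))
      ((hm t ht).trans (hm 0 (by norm_num)).symm)
    simpa only [P0, Nat.floor_natCast, decide_eq_decide] using this
  have h1 := hcol 1 (by norm_num)
  have h2 := hcol 2 (by norm_num)
  have h3 := hcol 3 (by norm_num)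
  have h4 := hcol 4 (by norm_num)
  revert h1 h2 h3 h4 hd
  generalize q = a
  generalize d = b
  intro hd h1 h2 h3 h4
  have e1 : a % 5 = 0 ∨ a % 5 = 1 ∨ a % 5 = 2 ∨ a % 5 = 3 ∨ a % 5 = 4 := by omega
  have e2 : b % 5 = 0 ∨ b % 5 = 1 ∨ b % 5 = 2 ∨ b % 5 = 3 ∨ b % 5 = 4 := by omega
  rcases e1 with e1 | e1 | e1 | e1 | e1 <;> rcases e2 with e2 | e2 | e2 | e2 | e2 <;> omega

end Pool.Agent.S11470
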