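import Pool.Statements.S11473
import Pool.Agent.H.MP_cc29fe_co.B

set_option autoImplicit false
open Pool Pool.MP_cc29fe_co

namespace Pool.Agent.S11473

/-- Every finite connected graph with n vertices and clique number ω, where n ≥ ω+1 ≥ 4, has a set of at most (ω−2)/(ω−1)·n vertices distinguishing every adjacent pair by distance, i.e. local metric dimension ≤ (ω−2)n/(ω−1). -/
theorem result :
    ∀ (V : Type) [Fintype V] (G : SimpleGraph V), G.Connected →
      ∀ ω : ℕ, (∃ s : Finset V, G.IsNClique ω s) → G.CliqueFree (ω + 1) →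
        4 ≤ ω + 1 → ω + 1 ≤ Fintype.card V →
        ∃ W : Finset V,
          (∀ u v : V, G.Adj u v → ∃ w ∈ W, G.dist u w ≠ G.dist v w) ∧
          (W.card : ℝ) ≤ ((ω : ℝ) - 2) / ((ω : ℝ) - 1) * (Fintype.card V : ℝ) := by
  intro V _ G hc w _ hf h4 hn
  classical
  obtain ⟨t, rfl⟩ : ∃ t, w = t + 1 := ⟨w - 1, by omega⟩
  obtain ⟨U, hU, hcard⟩ := Pool.Agent.H.MP_cc29fe_co.main hc t (by omega) hf hn
  refine ⟨Uᶜ, fun u v a => ?_, ?_⟩
  · by_cases hu : u ∈ U
    · by_cases hv : v ∈ U
      · obtain ⟨z, hz, h⟩ := hU u hu v hv a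
        refine ⟨z, Finset.mem_compl.2 hz, fun e => h ?_⟩
        rw [G.adj_comm z u, G.adj_comm z v, ← SimpleGraph.dist_eq_one_iff_adj,
          ← SimpleGraph.dist_eq_one_iff_adj, e]
      · refine ⟨v, Finset.mem_compl.2 hv, ?_⟩
        rw [SimpleGraph.dist_eq_one_iff_adj.2 a, SimpleGraph.dist_self]
        exact one_ne_zero
    · refine ⟨u, Finset.mem_compl.2 hu, ?_⟩
      rw [SimpleGraph.dist_eq_one_iff_adj.2 a.symm, SimpleGraph.dist_self]
      exact zero_ne_one
  · have h1 : (Uᶜ.card : ℝ) + U.card = Fintype.card V := by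
      exact_mod_cast Finset.card_compl_add_card U
    have h2 : (Fintype.card V : ℝ) ≤ t * U.card := by exact_mod_cast hcard
    have h3 : (0 : ℝ) < t := by exact_mod_cast (by omega : 0 < t)
    have h5 : (((t + 1 : ℕ) : ℝ) - 1) = t := by push_cast; ring
    rw [h5, div_mul_eq_mul_div, le_div_iff₀ h3]
    push_cast
    nlinarith

end Pool.Agent.S11473
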