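import Pool.Statements.S11508
import Pool.Agent.H.MP_cdddd3_co.G

set_option autoImplicit false
open Pool Pool.MP_cdddd3_co

namespace Pool.Agent.S11508

open Pool.Agent.H.MP_cdddd3_co

/-- The negation of the preceding statement: For all partitions λ, μ of d, the Schur coefficient of the integral Jack polynomial J_λ (α=1/τ) at s_μ has nonnegative integer coefficients in both binomial bases, and both coefficient polynomials A, B have only real roots (zero polynomial allowed). -/
theorem result :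
    ¬ (∀ d : ℕ, 1 ≤ d → ∀ lam mu : ℕ → ℕ, Antitone lam → Antitone mu →
    (∀ i, d ≤ i → lam i = 0) → (∀ i, d ≤ i → mu i = 0) →
    ∑ i ∈ Finset.range d, lam i = d → ∑ i ∈ Finset.range d, mu i = d →
    ∀ J : ℝ → MvPolynomial (Fin d) ℝ,
    (∀ τ : ℝ, 0 < τ →
      (J τ).IsSymmetric ∧
      (∀ m ∈ (J τ).support, ∑ i, m i = d ∧
        ∀ S : Finset (Fin d), ∑ i ∈ S, m i ≤ ∑ i ∈ Finset.range S.card, lam i) ∧
      MvPolynomial.coeff (Finsupp.equivFunOnFinite.symm (fun i : Fin d => lam (i : ℕ))) (J τ) =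
        ∏ i ∈ Finset.range d, ∏ j ∈ Finset.range (lam i),
          (τ * ((((Finset.range d).filter (fun k => j < lam k)).card : ℝ) - (i : ℝ))
            + ((lam i : ℝ) - (j : ℝ) - 1)) ∧
      ∃ q : Fin d → Fin d → MvPolynomial (Fin d) ℝ, ∃ e : ℝ,
        (∀ i j : Fin d, i < j →
          (MvPolynomial.X i - MvPolynomial.X j) * q i j =
            MvPolynomial.X i ^ 2 * MvPolynomial.pderiv i (J τ)
              - MvPolynomial.X j ^ 2 * MvPolynomial.pderiv j (J τ)) ∧
        ∑ i : Fin d, MvPolynomial.X i ^ 2 * MvPolynomial.pderiv i (MvPolynomial.pderiv i (J τ))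
          + MvPolynomial.C (2 * τ) * ∑ i : Fin d, ∑ j : Fin d, (if i < j then q i j else 0)
          = MvPolynomial.C e * J τ) →
    ∃ a b : ℕ → ℕ,
      (∀ τ : ℝ, 0 < τ →
        MvPolynomial.coeff
            (Finsupp.equivFunOnFinite.symm (fun i : Fin d => mu (i : ℕ) + (d - 1 - (i : ℕ))))
            (J τ * ∏ i : Fin d, ∏ j : Fin d,
              (if i < j then MvPolynomial.X i - MvPolynomial.X j
                else (1 : MvPolynomial (Fin d) ℝ)))
          = ∑ j ∈ Finset.range d,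
              (a j : ℝ) * ((descPochhammer ℝ d).eval (τ + (j : ℝ)) / (d.factorial : ℝ))) ∧
      (∀ τ : ℝ, 0 < τ →
        MvPolynomial.coeff
            (Finsupp.equivFunOnFinite.symm (fun i : Fin d => mu (i : ℕ) + (d - 1 - (i : ℕ))))
            (J τ * ∏ i : Fin d, ∏ j : Fin d,
              (if i < j then MvPolynomial.X i - MvPolynomial.X j
                else (1 : MvPolynomial (Fin d) ℝ)))
          = ∑ j ∈ Finset.Icc 1 d, (b (d - j) : ℝ) * (descPochhammer ℝ j).eval τ) ∧
      ((∃ j < d, a j ≠ 0) →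
        ∀ z : ℂ, ∑ j ∈ Finset.range d, (a j : ℂ) * z ^ j = 0 → z.im = 0) ∧
      ((∃ j ∈ Finset.Icc 1 d, b (d - j) ≠ 0) →
        ∀ z : ℂ, ∑ j ∈ Finset.Icc 1 d, (b (d - j) : ℂ) * z ^ j = 0 → z.im = 0)) := by
  intro h
  obtain ⟨a, -, h1, -, h2, -⟩ := h 16 (by omega) lam mu lam_anti mu_anti
    (fun i hi => if_neg (by omega)) (fun i hi => if_neg (by omega)) (by decide) (by decide) JX
    fun τ _ => ⟨symm_JJ τ _ _, JX_tri τ, JX_lead τ, (JX_eig τ).imp fun q hq => ⟨_, hq⟩⟩
  have h3 := a_eq a fun τ hτ => (h1 τ hτ).symm.trans (JX_schur τ)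
  obtain ⟨z, z1, z2⟩ := root
  refine z1 (h2 ⟨1, by omega, fun e => ?_⟩ z (Eq.trans (Finset.sum_congr rfl fun j hj => ?_) z2))
  · have := h3 1 (by omega)
    rw [e] at this
    exact absurd this (by decide)
  · rw [← h3 j (Finset.mem_range.1 hj), Int.cast_natCast]

end Pool.Agent.S11508
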