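import Pool.Statements.S11510

set_option autoImplicit false
open Pool Pool.MP_cde6cd_co

namespace Pool.Agent.S11510

open Complex

def T1 : List ℕ := [1, 0, 0, 2, 0, 1, 3, 1, 0, 0, 2, 2, 1, 1, 1, 1, 0, 0, 2, 1, 1, 1, 3, 0, 0, 0, 1, 1, 1, 1, 0, 0, 0, 1, 3, 3, 1, 0, 0, 0, 1, 1, 3, 3, 0, 0, 0, 0, 1, 1, 1, 0, 0, 0, 0, 1, 1, 1, 0, 0, 0, 0, 1, 1]
def T2 : List ℕ := [2, 3, 0, 1, 0, 1, 2, 1, 3, 3, 3, 3, 1, 1, 3, 3, 3, 3, 1, 1, 1, 1, 1, 3, 3, 3, 1, 1, 1, 1, 3, 3, 1, 0, 3, 0, 1, 0, 3, 2, 0, 0, 2, 2, 0, 0, 0, 0, 0, 0, 2, 0, 0, 0, 0, 0, 0, 0, 0, 0, 0, 0, 0, 0]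
def T3 : List ℕ := [1, 2, 3, 2, 3, 0, 3, 0, 0, 0, 2, 2, 2, 2, 0, 0, 0, 2, 2, 2, 0, 0, 0, 0, 2, 2, 2, 2, 0, 0, 0, 0, 3, 2, 3, 0, 3, 2, 1, 0, 0, 0, 0, 0, 0, 0, 0, 0, 2, 0, 0, 0, 0, 0, 0, 0, 0, 0, 0, 0, 0, 0, 0, 0]

def e (T : List ℕ) (a b : ZMod 8) : ℕ := T.getD (8 * a.val + b.val) 0

lemma tab : ∀ x y : ZMod 8,
    (e T1 y (0 - x - y) + e T2 x (0 - x - y) + e T3 x y) % 4 = 0 ∧
    (e T1 y (1 - x - y) + e T2 x (1 - x - y) + e T3 x y) % 4 = 0 ∧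
    (e T1 y (4 - x - y) + e T2 x (4 - x - y) + e T3 x y) % 4 = 1 := by decide +kernel

lemma avg_re (t : ZMod 8 → ZMod 8 → ℂ) :
    (((Fintype.card (ZMod 8) : ℂ) ^ 2)⁻¹ * ∑ x, ∑ y, t x y).re = (∑ x, ∑ y, (t x y).re) / 64 := by
  have : (((Fintype.card (ZMod 8) : ℂ) ^ 2)⁻¹) = ((1 / 64 : ℝ) : ℂ) := by
    rw [ZMod.card]; push_cast; norm_num
  rw [this, re_ofReal_mul]
  simp only [re_sum]
  ring

lemma avg (t : ZMod 8 → ZMod 8 → ℂ) (h : ∀ x y, ‖t x y‖ ≤ 1) :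
    (∑ x, ∑ y, (t x y).re) / 64 ≤ 1 ∧ (1 ≤ (∑ x, ∑ y, (t x y).re) / 64 → ∀ x y, t x y = 1) := by
  have h1 : ∀ x y, 0 ≤ 1 - (t x y).re := fun x y => by
    have := (re_le_norm (t x y)).trans (h x y); linarith
  have h2 : ∑ x, ∑ y, (1 - (t x y).re) = 64 - ∑ x, ∑ y, (t x y).re := by
    simp only [Finset.sum_sub_distrib, Finset.sum_const, Finset.card_univ, ZMod.card]
    norm_num
  have h3 : 0 ≤ ∑ x, ∑ y, (1 - (t x y).re) :=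
    Finset.sum_nonneg fun x _ => Finset.sum_nonneg fun y _ => h1 x y
  refine ⟨by linarith, fun h4 x y => ?_⟩
  have h5 : ∑ x, ∑ y, (1 - (t x y).re) = 0 := by linarith
  rw [Finset.sum_eq_zero_iff_of_nonneg (fun x _ => Finset.sum_nonneg fun y _ => h1 x y)] at h5
  have h6 := h5 x (Finset.mem_univ _)
  rw [Finset.sum_eq_zero_iff_of_nonneg (fun y _ => h1 x y)] at h6
  have h7 : (t x y).re = 1 := by have := h6 y (Finset.mem_univ _); linarith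
  have h8 := h x y
  have h9 : ‖t x y‖ ^ 2 ≤ 1 := by nlinarith [norm_nonneg (t x y)]
  rw [Complex.sq_norm, normSq_apply, h7] at h9
  apply Complex.ext h7
  simp
  nlinarith

lemma key (f₁ f₂ : ZMod 8 → ZMod 8 → ℂ) (h : ZMod 8 → ℂ)
    (E0 : ∀ x y, f₁ y (0 - x - y) * f₂ x (0 - x - y) * h (x + y) = 1)
    (E1 : ∀ x y, f₁ y (1 - x - y) * f₂ x (1 - x - y) * h (x + y) = 1)
    (E4 : ∀ x y, -I * (f₁ y (4 - x - y) * f₂ x (4 - x - y) * h (x + y)) = 1) : False := by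
  have P : ∀ s w, f₂ w (-s) ≠ 0 ∧ h s ≠ 0 ∧ f₂ (w + 1) (-s) * h (s + 1) = f₂ w (-s) * h s ∧
      -I * (f₂ (w + 4) (-s) * h (s + 4)) = f₂ w (-s) * h s := by
    intro s w
    have a0 := E0 w (s - w)
    have a1 := E1 (w + 1) (s - w)
    have a4 := E4 (w + 4) (s - w)
    rw [show 0 - w - (s - w) = -s by ring, show w + (s - w) = s by ring] at a0
    rw [show 1 - (w + 1) - (s - w) = -s by ring, show w + 1 + (s - w) = s + 1 by ring] at a1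
    rw [show 4 - (w + 4) - (s - w) = -s by ring, show w + 4 + (s - w) = s + 4 by ring] at a4
    refine ⟨fun z => ?_, fun z => ?_, ?_, ?_⟩
    · simp [z] at a0
    · simp [z] at a0
    · linear_combination (f₂ w (-s) * h s) * a1 - (f₂ (w + 1) (-s) * h (s + 1)) * a0
    · linear_combination (f₂ w (-s) * h s) * a4 + I * (f₂ (w + 4) (-s) * h (s + 4)) * a0
  have R1 : ∀ s, -h (s + 4) ^ 2 = h s ^ 2 := by
    intro s
    obtain ⟨n0, -, -, b0⟩ := P s 0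
    obtain ⟨-, -, -, b4⟩ := P s 4
    rw [show (4 + 4 : ZMod 8) = 0 by decide] at b4
    rw [zero_add] at b0
    apply mul_left_cancel₀ n0
    linear_combination (h s) * b0 - I * h (s + 4) * b4 + (-(f₂ 0 (-s)) * h (s + 4) ^ 2) * I_mul_I
  have R2 : ∀ s, -I * h s ^ 3 * h (s + 4) = h (s + 1) ^ 4 := by
    intro s
    obtain ⟨n0, n1, c0, b0⟩ := P s 0
    obtain ⟨-, -, c1, -⟩ := P s 1
    obtain ⟨-, -, c2, -⟩ := P s 2
    obtain ⟨-, -, c3, -⟩ := P s 3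
    rw [zero_add] at b0 c0
    rw [show (1 + 1 : ZMod 8) = 2 by decide] at c1
    rw [show (2 + 1 : ZMod 8) = 3 by decide] at c2
    rw [show (3 + 1 : ZMod 8) = 4 by decide] at c3
    have d : f₂ 4 (-s) * h (s + 1) ^ 4 = f₂ 0 (-s) * h s ^ 4 := by
      linear_combination h (s + 1) ^ 3 * c3 + h (s + 1) ^ 2 * h s * c2 + h (s + 1) * h s ^ 2 * c1
        + h s ^ 3 * c0
    apply mul_left_cancel₀ (mul_ne_zero n0 n1)
    linear_combination h (s + 1) ^ 4 * b0 + I * h (s + 4) * d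
  have q0 := R2 0
  have q4 := R2 4
  have p0 := R1 0
  have p1 := R1 1
  rw [zero_add] at p0
  rw [zero_add, zero_add] at q0
  rw [show (4 + 4 : ZMod 8) = 0 by decide, show (4 + 1 : ZMod 8) = 1 + 4 by decide] at q4
  have n0 := (P 0 0).2.1
  have n4 := (P 4 0).2.1
  have : -I * h 0 * h 4 * (2 * h 0 ^ 2) = 0 := by
    linear_combination q0 - q4 + (h (1 + 4) ^ 2 - h 1 ^ 2) * p1 + I * h 0 * h 4 * p0
  simp [n0, n4] at this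

theorem result :
    ¬ (∀ (G : Type) [AddCommGroup G] [Fintype G],
      convexHull ℝ {φ : G → ℂ | ∃ f₁ f₂ f₃ : G → G → ℂ,
          (∀ a b, ‖f₁ a b‖ ≤ 1) ∧ (∀ a b, ‖f₂ a b‖ ≤ 1) ∧ (∀ a b, ‖f₃ a b‖ ≤ 1) ∧
          φ = fun g => ((Fintype.card G : ℂ) ^ 2)⁻¹ *
            ∑ x₁ : G, ∑ x₂ : G, f₁ x₂ (g - x₁ - x₂) * f₂ x₁ (g - x₁ - x₂) * f₃ x₁ x₂}
      = convexHull ℝ {φ : G → ℂ | ∃ f₁ f₂ : G → G → ℂ, ∃ h : G → ℂ,
          (∀ a b, ‖f₁ a b‖ ≤ 1) ∧ (∀ a b, ‖f₂ a b‖ ≤ 1) ∧ (∀ a, ‖h a‖ ≤ 1) ∧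
          φ = fun g => ((Fintype.card G : ℂ) ^ 2)⁻¹ *
            ∑ x₁ : G, ∑ x₂ : G, f₁ x₂ (g - x₁ - x₂) * f₂ x₁ (g - x₁ - x₂) * h (x₁ + x₂)}) := by
  intro H
  have H8 := H (ZMod 8)
  set L : (ZMod 8 → ℂ) → ℝ := fun φ => (φ 0).re + (φ 1).re + (-I * φ 4).re with hL
  have hlin : IsLinearMap ℝ L := ⟨fun a b => by simp [hL]; ring, fun c a => by simp [hL]; ring⟩
  have hsub := convexHull_min (𝕜 := ℝ) (s := {φ : ZMod 8 → ℂ | ∃ f₁ f₂ : ZMod 8 → ZMod 8 → ℂ,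
      ∃ h : ZMod 8 → ℂ, (∀ a b, ‖f₁ a b‖ ≤ 1) ∧ (∀ a b, ‖f₂ a b‖ ≤ 1) ∧ (∀ a, ‖h a‖ ≤ 1) ∧
          φ = fun g => ((Fintype.card (ZMod 8) : ℂ) ^ 2)⁻¹ *
            ∑ x₁, ∑ x₂, f₁ x₂ (g - x₁ - x₂) * f₂ x₁ (g - x₁ - x₂) * h (x₁ + x₂)})
    (t := {φ | L φ < 3}) (by
      rintro φ ⟨f₁, f₂, h, h1, h2, h3, rfl⟩
      have nb : ∀ g x y, ‖f₁ y (g - x - y) * f₂ x (g - x - y) * h (x + y)‖ ≤ 1 := fun g x y => by
        rw [norm_mul, norm_mul]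
        exact mul_le_one₀ (mul_le_one₀ (h1 _ _) (norm_nonneg _) (h2 _ _)) (norm_nonneg _) (h3 _)
      obtain ⟨a0, b0⟩ := avg _ (nb 0)
      obtain ⟨a1, b1⟩ := avg _ (nb 1)
      obtain ⟨a4, b4⟩ := avg (fun x y => -I * (f₁ y (4 - x - y) * f₂ x (4 - x - y) * h (x + y)))
        (fun x y => by rw [norm_mul]; simpa using nb 4 x y)
      by_contra hc
      simp only [Set.mem_ofPred_eq, hL, not_lt] at hc
      rw [mul_left_comm] at hc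
      simp only [Finset.mul_sum _ _ (-I)] at hc
      rw [avg_re, avg_re, avg_re] at hc
      exact key f₁ f₂ h (b0 (by linarith)) (b1 (by linarith)) (b4 (by linarith)))
    (convex_halfSpace_lt hlin 3)
  rw [← H8] at hsub
  have hm := hsub (subset_convexHull ℝ _ ⟨fun a b => I ^ e T1 a b, fun a b => I ^ e T2 a b,
    fun a b => I ^ e T3 a b, by simp, by simp, by simp, rfl⟩)
  simp only [Set.mem_ofPred_eq, hL, ← pow_add] at hm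
  simp only [fun x y => (I_pow_eq_pow_mod _).trans (congrArg (I ^ ·) (tab x y).1),
    fun x y => (I_pow_eq_pow_mod _).trans (congrArg (I ^ ·) (tab x y).2.1),
    fun x y => (I_pow_eq_pow_mod _).trans (congrArg (I ^ ·) (tab x y).2.2)] at hm
  simp [ZMod.card] at hm
  norm_num at hm

end Pool.Agent.S11510
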