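import Pool.Statements.S11520
import Mathlib
-- import your own Pool.Agent.* helpers here

set_option autoImplicit false
open MeasureTheory
open Pool Pool.MP_ced1be_co

namespace Pool.Agent.S11520

open Metric Set Real

abbrev E := EuclideanSpace ℝ (Fin 2)

theorem vb (r : ℝ) (h : 0 ≤ r) : volume.real (ball (0 : E) r) = r ^ 2 * π := by
  rw [measureReal_def, EuclideanSpace.volume_ball_fin_two, ENNReal.toReal_mul, ENNReal.toReal_pow,
    ENNReal.toReal_ofReal h, ENNReal.toReal_ofReal pi_pos.le]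

theorem rot (u : E) (hu : ‖u‖ = 1) (f : ℝ → ℝ → Prop)
    (hf : MeasurableSet {x : E | f ‖x‖ (x 0)}) :
    volume.real {x : E | f ‖x‖ (inner ℝ u x)} = volume.real {x : E | f ‖x‖ (x 0)} := by
  have h := Submodule.reflection_sub (v := u) (w := EuclideanSpace.single (0 : Fin 2) (1 : ℝ))
    (by simp [hu])
  set T := Submodule.reflection (ℝ ∙ (u - EuclideanSpace.single (0 : Fin 2) (1 : ℝ)))ᗮ
  rw [← T.measurePreserving.measureReal_preimage hf.nullMeasurableSet]
  congr 1
  ext x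
  have : T x 0 = inner ℝ u x := by
    rw [← T.inner_map_map, h, EuclideanSpace.inner_single_left]
    simp
  simp [this]

theorem neg (f : ℝ → ℝ → Prop) (hf : MeasurableSet {x : E | f ‖x‖ (x 0)}) :
    volume.real {x : E | f ‖x‖ (-x 0)} = volume.real {x : E | f ‖x‖ (x 0)} := by
  rw [← rot (-EuclideanSpace.single (0 : Fin 2) (1 : ℝ)) (by simp) f hf]
  simp [EuclideanSpace.inner_single_left]

theorem fin {S : Set E} (r : ℝ) (h : ∀ x ∈ S, ‖x‖ < r) : volume S ≠ ⊤ :=
  ne_top_of_le_ne_top (measure_ball_lt_top (x := 0) (r := r)).ne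
    (measure_mono fun x hx => mem_ball_zero_iff.mpr (h x hx))

theorem mid (u : E) (hu : ‖u‖ = 1) :
    100 * π / 3 < volume.real {x : E | ‖x‖ < 10 ∧ 2 ≤ inner ℝ u x} := by
  have m : MeasurableSet {x : E | ‖x‖ < 10 ∧ 2 ≤ x 0} := by measurability
  rw [rot u hu (fun a b => a < 10 ∧ 2 ≤ b) m]
  have n := neg (fun a b => a < 10 ∧ 2 ≤ b) m
  have v : volume.real (WithLp.ofLp ⁻¹' Icc ![-2, -10] ![2, 10] : Set E) = 80 := by
    rw [(PiLp.volume_preserving_ofLp (Fin 2)).measureReal_preimage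
      measurableSet_Icc.nullMeasurableSet, measureReal_def, Real.volume_Icc_pi_toReal (by
        intro i
        fin_cases i <;> norm_num)]
    norm_num [Fin.prod_univ_two]
  have f : volume (WithLp.ofLp ⁻¹' Icc ![-2, -10] ![2, 10] : Set E) ≠ ⊤ := fun h => by
    simp [measureReal_def, h] at v
  have := measureReal_mono (μ := volume) (s₁ := ball (0 : E) 10)
    (s₂ := ({x : E | ‖x‖ < 10 ∧ 2 ≤ x 0} ∪ {x : E | ‖x‖ < 10 ∧ 2 ≤ -x 0}) ∪
      WithLp.ofLp ⁻¹' Icc ![-2, -10] ![2, 10]) (fun x hx => by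
      rw [mem_ball_zero_iff] at hx
      by_contra hn
      simp only [mem_union, mem_ofPred_eq, not_or, not_and, not_le] at hn
      have h1 := abs_le.mp ((PiLp.norm_apply_le x 1).trans hx.le)
      refine hn.2 ⟨fun i => ?_, fun i => ?_⟩ <;> fin_cases i <;> simp <;>
        linarith [hn.1.1 hx, hn.1.2 hx, h1.1, h1.2])
    (by
      refine measure_union_ne_top (measure_union_ne_top (fin 10 ?_) (fin 10 ?_)) f <;>
        exact fun _ h => h.1)
  have h2 := this.trans ((measureReal_union_le _ _).trans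
    (add_le_add_left (measureReal_union_le _ _) _))
  rw [vb _ (by norm_num), v] at h2
  linarith [pi_gt_three]

noncomputable def s : ℝ := volume.real {x : E | (200 < ‖x‖ ∧ ‖x‖ < √40002) ∧ |x 0| < 1}

theorem s_pos : 0 < s := by
  refine ENNReal.toReal_pos (IsOpen.measure_ne_zero _ ?_ ⟨!₂[0, √40001], ?_⟩) (fin _ fun _ h => h.1.2)
  · exact ((isOpen_lt continuous_const continuous_norm).inter
      (isOpen_lt continuous_norm continuous_const)).inter 
      (isOpen_lt (f := fun x : E => |x 0|) (by fun_prop) continuous_const)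
  · have : ‖(!₂[0, √40001] : E)‖ = √40001 := by simp [EuclideanSpace.norm_eq, Fin.sum_univ_two]
    rw [mem_ofPred_eq, this]
    exact ⟨⟨lt_sqrt_of_sq_lt (by norm_num), sqrt_lt_sqrt (by norm_num) (by norm_num)⟩, by simp⟩

noncomputable def R : ℝ := √(40002 + s / 2)
def F : Set E := {x | 200 ≤ ‖x‖ ∧ ‖x‖ < R}

theorem mF : MeasurableSet F := by
  unfold F
  measurability

theorem vF : volume.real F = (2 + s / 2) * π := by
  have h : (200 : ℝ) ≤ R := le_sqrt_of_sq_le (by linarith [s_pos])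
  have : F = ball 0 R \ ball 0 200 := by
    ext x
    simp [F, and_comm]
  rw [this, measureReal_sdiff (ball_subset_ball h) measurableSet_ball measure_ball_lt_top.ne,
    vb _ (by linarith), vb _ (by norm_num), R, sq_sqrt (by linarith [s_pos])]
  ring

theorem far (u : E) (hu : ‖u‖ = 1) :
    2 * volume.real {x : E | (200 ≤ ‖x‖ ∧ ‖x‖ < R) ∧ 1 ≤ inner ℝ u x} + s ≤ (2 + s / 2) * π := by
  have m : MeasurableSet {x : E | (200 ≤ ‖x‖ ∧ ‖x‖ < R) ∧ 1 ≤ x 0} := by measurability
  rw [rot u hu (fun a b => (200 ≤ a ∧ a < R) ∧ 1 ≤ b) m, two_mul]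
  nth_rewrite 2 [← neg (fun a b => (200 ≤ a ∧ a < R) ∧ 1 ≤ b) m]
  have hR : √40002 ≤ R := sqrt_le_sqrt (by linarith [s_pos])
  rw [← vF, s, ← measureReal_union _ (by measurability) (fin R fun _ h => h.1.2)
    (fin R fun _ h => h.1.2), ← measureReal_union _ (by measurability)
    (measure_union_ne_top (fin R fun _ h => h.1.2) (fin R fun _ h => h.1.2))
    (fin _ fun _ h => h.1.2)]
  · refine measureReal_mono ?_ (fin R fun _ h => h.2)
    rintro x ((h | h) | h)
    exacts [h.1, h.1, ⟨h.1.1.le, h.1.2.trans_le hR⟩]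
  · rw [disjoint_left]
    rintro x (h | h) h' <;> linarith [h.2, abs_lt.mp h'.2]
  · rw [disjoint_left]
    intro x h h'
    linarith [h.2, h'.2]

theorem geo (S : Set E) (hS : (∃ (p : E) (r : ℝ), 0 < r ∧ S = ball p r) ∨
    (∃ (v : E) (c : ℝ), v ≠ 0 ∧ S = {x : E | inner ℝ v x < c})) : ∃ u : E, ‖u‖ = 1 ∧
    ((∀ p ∈ S, 1 ≤ ‖p‖) → ∀ x ∈ S, 1 ≤ inner ℝ u x) ∧
    ∀ p ∈ S, ‖p‖ < 1 → ∀ q ∈ S, 200 ≤ ‖q‖ → ∀ x, ‖x‖ < 10 → 2 ≤ inner ℝ u x → x ∈ S := by
  have unit : ∀ z : E, ∃ u : E, ‖u‖ = 1 ∧ z = ‖z‖ • u := fun z => by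
    by_cases h : z = 0
    · exact ⟨EuclideanSpace.single 0 1, by simp, by simp [h]⟩
    · exact ⟨‖z‖⁻¹ • z, norm_smul_inv_norm h, by rw [smul_inv_smul₀ (norm_ne_zero_iff.mpr h)]⟩
  have cs : ∀ u x : E, ‖u‖ = 1 → |inner ℝ u x| ≤ ‖x‖ := fun u x h => by
    simpa [h] using abs_real_inner_le_norm u x
  have uu : ∀ (u : E) (t : ℝ), ‖u‖ = 1 → ‖t • u‖ = |t| ∧ inner ℝ u (t • u) = t := fun u t h => by
    simp [norm_smul, h, inner_smul_right]
  rcases hS with ⟨z, r, hr, rfl⟩ | ⟨v, c, hv, rfl⟩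
  · obtain ⟨u, hu, hz⟩ := unit z
    have hz0 := norm_nonneg z
    generalize ‖z‖ = t at hz hz0
    subst hz
    refine ⟨u, hu, fun h x hx => ?_, fun p hp h1 q hq h2 x h3 h4 => ?_⟩
    · have h1 : r + 1 ≤ t := by
        by_contra! hn
        have h0 : r ≤ t := by
          by_contra! h0
          have := h 0 (by rwa [mem_ball, dist_zero_left, (uu u t hu).1, abs_of_nonneg hz0])
          norm_num at this
        have := h (min t ((t - r + 1) / 2) • u) (by
          rw [mem_ball, dist_eq_norm, ← sub_smul, (uu u _ hu).1, abs_lt]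
          exact ⟨by linarith [lt_min (by linarith : t - r < t) (by linarith : t - r < (t - r + 1) / 2)],
            by linarith [min_le_left t ((t - r + 1) / 2)]⟩)
        rw [(uu u _ hu).1, abs_of_nonneg (le_min hz0 (by linarith))] at this
        linarith [min_le_right t ((t - r + 1) / 2)]
      have := abs_le.mp (cs u (x - t • u) hu)
      rw [inner_sub_right, (uu u t hu).2] at this
      rw [mem_ball, dist_eq_norm] at hx
      linarith [this.1]
    · rw [mem_ball, dist_eq_norm] at hp hq ⊢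
      have e1 := norm_sub_norm_le (t • u) p
      have e2 := norm_sub_norm_le q (t • u)
      have e3 := norm_sub_le x (t • u)
      rw [norm_sub_rev] at e1
      rw [(uu u t hu).1, abs_of_nonneg hz0] at e1 e2 e3
      by_contra! hn
      have e4 := norm_sub_sq_real x (t • u)
      rw [(uu u t hu).1, abs_of_nonneg hz0, inner_smul_right, real_inner_comm] at e4
      have e5 : (t - 1) ^ 2 ≤ ‖x - t • u‖ ^ 2 := pow_le_pow_left₀ (by linarith) (by linarith) 2
      nlinarith [norm_nonneg x]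
  · obtain ⟨u, hu, hz⟩ := unit (-v)
    have hz0 : 0 < ‖-v‖ := by simpa using hv
    generalize ‖-v‖ = t at hz hz0
    obtain rfl : v = -(t • u) := by rw [← hz, neg_neg]
    simp only [mem_ofPred_eq, inner_neg_left, real_inner_smul_left]
    refine ⟨u, hu, fun h x hx => ?_, fun p hp h1 q hq h2 x h3 h4 => ?_⟩
    · by_contra! hn
      have := h (max (inner ℝ u x) 0 • u) (by
        rw [(uu u _ hu).2]
        nlinarith [le_max_left (inner ℝ u x) 0])
      rw [(uu u _ hu).1, abs_of_nonneg (le_max_right _ _)] at this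
      exact this.not_gt (max_lt hn one_pos)
    · nlinarith [abs_le.mp (cs u p hu)]

/-- The negation of the preceding statement: For any two measurable planar sets of finite area, some open disk or open half-plane contains exactly one third of the area of each set. -/
theorem result :
    ¬ (∀ A₁ A₂ : Set (EuclideanSpace ℝ (Fin 2)),
      MeasurableSet A₁ → MeasurableSet A₂ →
      volume A₁ < ⊤ → volume A₂ < ⊤ →
      ∃ S : Set (EuclideanSpace ℝ (Fin 2)),
        ((∃ (p : EuclideanSpace ℝ (Fin 2)) (r : ℝ), 0 < r ∧ S = Metric.ball p r) ∨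
         (∃ (v : EuclideanSpace ℝ (Fin 2)) (c : ℝ), v ≠ 0 ∧
            S = {x : EuclideanSpace ℝ (Fin 2) | inner ℝ v x < c})) ∧
        volume (A₁ ∩ S) = volume A₁ / 3 ∧
        volume (A₂ ∩ S) = volume A₂ / 3) := by
  intro h
  have f1 : volume (ball (0 : E) 1 ∪ F) ≠ ⊤ :=
    measure_union_ne_top measure_ball_lt_top.ne (fin R fun _ h => h.2)
  obtain ⟨S, hS, h1, h2⟩ := h (ball 0 1 ∪ F) (ball 0 10) (measurableSet_ball.union mF)
    measurableSet_ball f1.lt_top measure_ball_lt_top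
  replace h1 : volume.real ((ball (0 : E) 1 ∪ F) ∩ S) = volume.real (ball (0 : E) 1 ∪ F) / 3 := by
    simp [measureReal_def, h1]
  replace h2 : volume.real (ball (0 : E) 10 ∩ S) = volume.real (ball (0 : E) 10) / 3 := by
    simp [measureReal_def, h2]
  rw [measureReal_union (disjoint_left.mpr fun x a b => by
    linarith [mem_ball_zero_iff.mp a, b.1]) mF measure_ball_lt_top.ne (fin R fun _ h => h.2),
    vb _ zero_le_one, vF] at h1
  rw [vb _ (by norm_num)] at h2
  obtain ⟨u, hu, ha, hb⟩ := geo S hS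
  have hs := s_pos
  by_cases hc : ∀ p ∈ S, 1 ≤ ‖p‖
  · have := measureReal_mono (μ := volume) (s₁ := (ball (0 : E) 1 ∪ F) ∩ S)
      (s₂ := {x : E | (200 ≤ ‖x‖ ∧ ‖x‖ < R) ∧ 1 ≤ inner ℝ u x}) (by
        rintro x ⟨h | h, hx⟩
        · exact absurd (mem_ball_zero_iff.mp h) (hc x hx).not_gt
        · exact ⟨h, ha hc x hx⟩) (fin R fun _ h => h.1.2)
    nlinarith [far u hu, pi_le_four]
  push Not at hc
  obtain ⟨p, hp, hp1⟩ := hc
  by_cases hq : ∃ q ∈ S, 200 ≤ ‖q‖
  · obtain ⟨q, hq, hq1⟩ := hq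
    have := measureReal_mono (μ := volume) (s₁ := {x : E | ‖x‖ < 10 ∧ 2 ≤ inner ℝ u x})
      (s₂ := ball (0 : E) 10 ∩ S)
      (fun x hx => ⟨mem_ball_zero_iff.mpr hx.1, hb p hp hp1 q hq hq1 x hx.1 hx.2⟩)
      (fin 10 fun _ h => mem_ball_zero_iff.mp h.1)
    linarith [mid u hu]
  · have := measureReal_mono (μ := volume) (s₁ := (ball (0 : E) 1 ∪ F) ∩ S) (s₂ := ball 0 1) (by
        rintro x ⟨h | h, hx⟩
        · exact h
        · exact absurd ⟨x, hx, h.1⟩ hq) measure_ball_lt_top.ne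
    rw [vb _ zero_le_one] at this
    nlinarith [pi_pos]

end Pool.Agent.S11520
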