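import Pool.Statements.S11538
import Pool.Agent.H.MP_cf6cc5_co.C

set_option autoImplicit false
open Pool Pool.MP_cf6cc5_co

namespace Pool.Agent.S11538
open Pool.Agent.H.MP_cf6cc5_co

/-- The negation of the preceding statement: For each q ≥ 3 there is c such that every ordered matching M on n vertices has an N ≤ n^(c log n) where every q-colouring of pairs of {0..N-1} contains an order-preserving monochromatic copy of M. -/
theorem result :
    ¬ (∀ q : ℕ, 3 ≤ q → ∃ c : ℝ, ∀ n : ℕ, ∀ M : SimpleGraph (Fin n),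
      (∀ v w w' : Fin n, M.Adj v w → M.Adj v w' → w = w') →
      ∃ N : ℕ, (N : ℝ) ≤ (n : ℝ) ^ (c * Real.log n) ∧
        ∀ col : Fin N → Fin N → Fin q,
          ∃ f : Fin n → Fin N, StrictMono f ∧
            ∃ i : Fin q, ∀ a b : Fin n, a < b → M.Adj a b → col (f a) (f b) = i) := by
  intro H
  obtain ⟨c, H⟩ := H 3 le_rfl
  obtain ⟨m, m1, m2⟩ : ∃ m : ℕ, 4056 * |c| ≤ m ∧ 12 ≤ m :=
    ⟨⌈4056 * |c|⌉₊ + 12, by push_cast; linarith [Nat.le_ceil (4056 * |c|)], by omega⟩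
  obtain ⟨t, ht⟩ : ∃ t, t = 2 ^ (2 * m) := ⟨_, rfl⟩
  have t1 : m * m ≤ t := by
    rw [ht, two_mul, pow_add]
    exact Nat.mul_le_mul m.lt_two_pow_self.le m.lt_two_pow_self.le
  have t2 : 2 * m ≤ t := by nlinarith
  have t3 : 144 ≤ t := by nlinarith
  obtain ⟨s, hs'⟩ : ∃ s, s = 12 * (2 * m) * t := ⟨_, rfl⟩
  have g : 8 * (t * (s * (t * t) + 2)) + 2 ≤ t ^ 6 := by
    rw [hs']
    have := Nat.mul_le_mul_right (t ^ 4) t2
    have := Nat.mul_le_mul_right (t ^ 5) t3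
    have : t ≤ t ^ 5 := Nat.le_self_pow (by omega) _
    nlinarith
  have h1 : (8 * (t * (s * (t * t) + 2)) + 2) ^ (2 * t) ≤ 2 ^ s :=
    (Nat.pow_le_pow_left g _).trans_eq (by
      nth_rw 1 [ht]
      rw [← pow_mul, ← pow_mul, hs']
      ring_nf)
  have h2 : s * (t * t) + 2 ≤ 2 ^ s :=
    le_trans (by have := Nat.le_mul_of_pos_left (s * (t * t) + 2) (show 0 < t by omega); omega)
      ((Nat.le_self_pow (by omega) _).trans h1)
  have s1 : 1 ≤ s := by rw [hs']; nlinarith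
  have h3 : t * t ≤ 2 ^ s := by nlinarith
  obtain ⟨col, hc⟩ := ex h1 h2 h3 (by nlinarith)
  obtain ⟨M, a1, e, a2, a3, a5, a4⟩ := mat ((2 ^ s) ^ 6)
  obtain ⟨N, b1, b2⟩ := H _ M fun v w w' h h' => (a1 v).unique h h'
  have b3 : N ≤ 2 ^ (s * (t * t)) := by
    have l0 := Real.log_two_gt_d9
    have l1 := Real.log_two_lt_d9
    have e : Real.log (((2 ^ s) ^ 6 * ((2 ^ s) ^ 6 * 2) : ℕ) : ℝ) = (12 * s + 1) * Real.log 2 := by
      rw [show (2 ^ s) ^ 6 * ((2 ^ s) ^ 6 * 2) = 2 ^ (12 * s + 1) by ring]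
      simp
    rw [Real.rpow_def_of_pos (by positivity), e] at b1
    refine Nat.cast_le (α := ℝ) |>.mp (b1.trans ?_)
    rw [Nat.cast_pow, Nat.cast_ofNat, ← Real.exp_log (show (0 : ℝ) < 2 by norm_num), ← Real.exp_nat_mul,
      Real.exp_log (show (0 : ℝ) < 2 by norm_num), Real.exp_le_exp]
    have s2 : (1 : ℝ) ≤ s := by exact_mod_cast s1
    have s3 : (s : ℝ) = 24 * m * t := by rw [hs']; push_cast; ring
    have t4 : (m * m : ℝ) ≤ t := by exact_mod_cast t1
    have u1 : (12 * s + 1) * Real.log 2 ≤ 13 * s * Real.log 2 := by nlinarith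
    have u2 : c * ((12 * s + 1) * Real.log 2) ≤ |c| * (13 * s) :=
      (mul_le_mul_of_nonneg_right (le_abs_self c) (by positivity)).trans
        (mul_le_mul_of_nonneg_left (by nlinarith) (abs_nonneg c))
    have u3 : |c| * (13 * s) * 13 ≤ t * t := by
      have := mul_le_mul_of_nonneg_right m1 (show (0 : ℝ) ≤ m * t by positivity)
      have := mul_le_mul_of_nonneg_right t4 (show (0 : ℝ) ≤ t by positivity)
      rw [s3]
      nlinarith
    have u4 := (mul_le_mul_of_nonneg_left u2 (show 0 ≤ (12 * s + 1) * Real.log 2 by positivity)).trans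
      (mul_le_mul_of_nonneg_right u1 (by positivity))
    have := mul_le_mul_of_nonneg_left u3 (show 0 ≤ s * Real.log 2 by positivity)
    push_cast
    nlinarith
  obtain ⟨f, f1, i, f2⟩ := b2 fun x y => col (x.castLE b3) (y.castLE b3)
  have f3 : StrictMono fun v => (f v).castLE b3 := fun _ _ h => f1 h
  haveI : NeZero ((2 ^ s) ^ 6) := ⟨by positivity⟩
  obtain ⟨x, y, l, h⟩ := hc (fun j => (f (e j ⊥ ⊥)).castLE b3) (fun j => (f (e j ⊤ ⊤)).castLE b3)
    (fun j => (f3.monotone (a4 j _ _ ⊤ ⊤ le_top)).lt_of_ne fun h => a5 j _ _ (f3.injective h))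
    (fun _ _ h => (f3 (a3 _ _ _ _ _ _ h)).le) i
  exact h _ _ (f3.monotone (a4 x _ _ y 0 bot_le)) (f3.monotone (a4 x y 0 _ _ le_top))
    (f3.monotone (a4 y _ _ x 1 bot_le)) (f3.monotone (a4 y x 1 _ _ le_top))
    (f2 _ _ (a3 _ _ _ _ _ _ l) (a2 x y))

end Pool.Agent.S11538
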