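import Pool.Statements.S11547
import Pool.Agent.H.MP_cfb0df_co.A

set_option autoImplicit false
open Pool Pool.MP_cfb0df_co

namespace Pool.Agent.S11547

/-- There exist k ≥ 2, r > k and a k-uniform hypergraph H that fails the Sidorenko density inequality for some finite k-graph, while its r-expansion (each edge padded with r−k new degree-one vertices) satisfies the Sidorenko inequality against every finite r-graph. -/
theorem result :
    ∃ (k r a m : ℕ) (e : Fin m → Finset (Fin a)),
      2 ≤ k ∧ k < r ∧ Function.Injective e ∧ (∀ i, (e i).card = k) ∧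
      (¬ ∀ n : ℕ, 0 < n → ∀ G : Finset (Finset (Fin n)), (∀ g ∈ G, g.card = k) →
        (((k.factorial * G.card : ℕ) : ℝ) / (n : ℝ) ^ k) ^ m ≤
          ((Finset.univ.filter
              (fun f : Fin a → Fin n => ∀ i : Fin m, (e i).image f ∈ G)).card : ℝ)
            / (n : ℝ) ^ a) ∧
      (∀ n : ℕ, 0 < n → ∀ G : Finset (Finset (Fin n)), (∀ g ∈ G, g.card = r) →
        (((r.factorial * G.card : ℕ) : ℝ) / (n : ℝ) ^ r) ^ m ≤
          ((Finset.univ.filter
              (fun f : Fin a ⊕ (Fin m × Fin (r - k)) → Fin n =>
                ∀ i : Fin m,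
                  ((e i).image (Sum.inl : Fin a → Fin a ⊕ (Fin m × Fin (r - k))) ∪
                    (Finset.univ : Finset (Fin (r - k))).image
                      (fun j : Fin (r - k) =>
                        (Sum.inr (i, j) : Fin a ⊕ (Fin m × Fin (r - k))))).image f ∈ G)).card : ℝ)
            / (n : ℝ) ^ (a + m * (r - k))) := by
  open Pool.Agent.H.MP_cfb0df_co in
  refine ⟨2, 3, 11, 12, fun i => {eu i, ev i}, le_rfl, by norm_num, by decide, by decide, ?_, ?_⟩
  · intro h
    have h1 := h 2 (by norm_num) {{0, 1}} (by decide)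
    have h2 : (Finset.univ.filter fun f : Fin 11 → Fin 2 => ∀ i : Fin 12,
        ({eu i, ev i} : Finset (Fin 11)).image f ∈ ({{0, 1}} : Finset (Finset (Fin 2)))) = ∅ := by
      refine Finset.filter_eq_empty_iff.2 fun f _ hf => ?_
      have k : ∀ i, f (eu i) ≠ f (ev i) := by
        intro i hi
        have := hf i
        rw [Finset.image_insert, Finset.image_singleton, hi, Finset.mem_singleton] at this
        have := congrArg Finset.card this
        simp at this
      have k0 : f 5 ≠ f 9 := k 0
      have k1 : f 0 ≠ f 10 := k 1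
      have k2 : f 10 ≠ f 9 := k 2
      have k3 : f 5 ≠ f 6 := k 3
      have k4 : f 7 ≠ f 6 := k 4
      have k5 : f 0 ≠ f 8 := k 5
      have k6 : f 8 ≠ f 7 := k 6
      omega
    rw [h2] at h1
    norm_num at h1
  · intro n hn G hG
    have h1 := main (ind_sym G)
    rw [← expand2] at h1
    have h2 := six G hG
    have h3 : ((Finset.univ.filter
        (fun f : Fin 11 ⊕ (Fin 12 × Fin (3 - 2)) → Fin n =>
          ∀ i : Fin 12,
            (({eu i, ev i} : Finset (Fin 11)).image
                (Sum.inl : Fin 11 → Fin 11 ⊕ (Fin 12 × Fin (3 - 2))) ∪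
              (Finset.univ : Finset (Fin (3 - 2))).image
                (fun j : Fin (3 - 2) =>
                  (Sum.inr (i, j) : Fin 11 ⊕ (Fin 12 × Fin (3 - 2))))).image f ∈ G)).card : ℝ) =
        ∑ f : Fin 11 ⊕ (Fin 12 × Fin (3 - 2)) → Fin n,
          ∏ i, ind G (f (Sum.inl (eu i))) (f (Sum.inl (ev i))) (f (Sum.inr (i, (0 : Fin 1)))) := by
      rw [Finset.card_filter, Nat.cast_sum]
      refine Finset.sum_congr rfl fun f _ => ?_
      unfold ind
      rw [Finset.prod_boole]
      have e : ∀ i : Fin 12, (({eu i, ev i} : Finset (Fin 11)).image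
                (Sum.inl : Fin 11 → Fin 11 ⊕ (Fin 12 × Fin (3 - 2))) ∪
              (Finset.univ : Finset (Fin (3 - 2))).image
                (fun j : Fin (3 - 2) =>
                  (Sum.inr (i, j) : Fin 11 ⊕ (Fin 12 × Fin (3 - 2))))).image f =
          {f (Sum.inl (eu i)), f (Sum.inl (ev i)), f (Sum.inr (i, (0 : Fin 1)))} := by
        intro i
        have : (Finset.univ : Finset (Fin (3 - 2))) = {(0 : Fin 1)} := rfl
        rw [this]
        simp only [Finset.image_union, Finset.image_insert, Finset.image_singleton]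
        ext t
        simp only [Finset.mem_union, Finset.mem_insert, Finset.mem_singleton, or_assoc]
      simp only [e, Finset.mem_univ, forall_true_left]
      split_ifs <;> simp
    rw [h3]
    have hn' : (0 : ℝ) < n := by exact_mod_cast hn
    rw [Fintype.card_fin] at h1
    have h4 : (((Nat.factorial 3 * G.card : ℕ) : ℝ)) ^ 12 ≤ _ :=
      (pow_le_pow_left₀ (by positivity) h2 12).trans h1
    rw [div_pow, div_le_div_iff₀ (by positivity) (by positivity)]
    calc _ ≤ _ := mul_le_mul_of_nonneg_right h4 (by positivity)
      _ = _ := by ring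

end Pool.Agent.S11547
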