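import Pool.Statements.S11591
import Pool.Agent.H.MP_d14d18_co.D

set_option autoImplicit false
open Pool Pool.MP_d14d18_co

namespace Pool.Agent.S11591

/-- There is a constant C such that for every d and every finite simple graph of max degree ≤ d, any proper pre-colouring of at most d pendant edges with colours from d+C extends to a proper (d+C)-edge-colouring. -/
theorem result :
  ∃ C : ℕ, ∀ (d : ℕ) (V : Type) [Fintype V] [DecidableEq V] (G : SimpleGraph V)
    [DecidableRel G.Adj],
    (∀ v, G.degree v ≤ d) →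
    ∀ (P : Finset (Sym2 V)) (c : Sym2 V → ℕ),
      (∀ e ∈ P, e ∈ G.edgeSet ∧ ∃ u v, e = s(u, v) ∧ G.degree v = 1) →
      P.card ≤ d →
      (∀ e ∈ P, c e < d + C) →
      (∀ u v w, v ≠ w → s(u, v) ∈ P → s(u, w) ∈ P → c s(u, v) ≠ c s(u, w)) →
      ∃ col : Sym2 V → ℕ,
        (∀ e ∈ G.edgeSet, col e < d + C) ∧
        (∀ u v w, G.Adj u v → G.Adj u w → v ≠ w → col s(u, v) ≠ col s(u, w)) ∧
        (∀ e ∈ P, col e = c e) := by
  refine ⟨10, ?_⟩
  intro d V _ _ G _ hdeg P c hP hcard hc hpr
  classical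
  let G' : SimpleGraph V :=
    { Adj := fun x y => G.Adj x y ∧ s(x, y) ∉ P
      symm := ⟨fun x y a => ⟨a.1.symm, by rw [Sym2.eq_swap]; exact a.2⟩⟩
      loopless := ⟨fun x a => G.irrefl a.1⟩ }
  let B : V → Finset V := fun x =>
    (G.neighborFinset x).filter fun y => s(x, y) ∈ P ∧ ∃ z, G'.Adj x z
  have memB : ∀ x y, y ∈ B x ↔ G.Adj x y ∧ s(x, y) ∈ P ∧ ∃ z, G'.Adj x z := by
    intro x y
    simp only [B, Finset.mem_filter, SimpleGraph.mem_neighborFinset]
  let F : V → Finset ℕ := fun x => (B x).image fun y => c s(x, y)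
  have hFB : ∀ x, (F x).card ≤ (B x).card := fun x => Finset.card_image_le
  have two : ∀ x y, y ∈ B x → G.degree x ≠ 1 := by
    intro x y hy h1
    obtain ⟨a, b, z, hz⟩ := (memB x y).1 hy
    obtain ⟨w, _, hw⟩ := (SimpleGraph.degree_eq_one_iff_existsUnique_adj).1 h1
    have e : y = z := (hw y a).trans (hw z hz.1).symm
    exact hz.2 (e ▸ b)
  obtain ⟨φ, p1, p2⟩ := Pool.Agent.H.MP_d14d18_co.core G' d F
    (by
      intro v j hj
      obtain ⟨y, hy, rfl⟩ := Finset.mem_image.1 hj
      exact Finset.mem_range.2 (hc _ ((memB v y).1 hy).2.1))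
    (by
      intro v
      refine le_trans (Nat.add_le_add_left (hFB v) _) (le_trans ?_ (hdeg v))
      rw [← SimpleGraph.card_neighborFinset_eq_degree,
        ← SimpleGraph.card_neighborFinset_eq_degree, ← Finset.card_union_of_disjoint]
      · apply Finset.card_le_card
        intro w hw
        rw [SimpleGraph.mem_neighborFinset]
        rcases Finset.mem_union.1 hw with a | a
        · rw [SimpleGraph.mem_neighborFinset] at a
          exact a.1
        · exact ((memB v w).1 a).1
      · rw [Finset.disjoint_left]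
        intro w a b
        rw [SimpleGraph.mem_neighborFinset] at a
        exact a.2 ((memB v w).1 b).2.1)
    (by
      refine le_trans (Finset.sum_le_sum fun x _ => hFB x) (le_trans ?_ hcard)
      rw [← Finset.card_sigma]
      apply Finset.card_le_card_of_injOn (fun p : (Σ _ : V, V) => s(p.1, p.2))
      · intro p hp
        exact ((memB _ _).1 (Finset.mem_sigma.1 hp).2).2.1
      · rintro ⟨x, y⟩ hp ⟨x', y'⟩ hq e
        have hp' : y ∈ B x := (Finset.mem_sigma.1 hp).2
        have hq' : y' ∈ B x' := (Finset.mem_sigma.1 hq).2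
        have e' : s(x, y) = s(x', y') := e
        rcases Sym2.eq_iff.1 e' with ⟨rfl, rfl⟩ | ⟨rfl, rfl⟩
        · rfl
        · exfalso
          obtain ⟨u, v, e1, e2⟩ := (hP _ ((memB _ _).1 hp').2.1).2
          rcases Sym2.eq_iff.1 e1 with ⟨_, rfl⟩ | ⟨rfl, _⟩
          · exact two _ _ hq' e2
          · exact two _ _ hp' e2)
  let ψ : Sym2 V → ℕ := Sym2.lift ⟨φ, p1.symm⟩
  have hψ : ∀ x y, ψ s(x, y) = φ x y := fun x y => rfl
  have mix : ∀ u v w, G.Adj u v → G.Adj u w → s(u, v) ∈ P → s(u, w) ∉ P →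
      c s(u, v) ≠ φ u w := by
    intro u v w a b h1 h2 e
    apply p2 u w ⟨b, h2⟩
    exact Finset.mem_image.2 ⟨v, (memB u v).2 ⟨a, h1, w, b, h2⟩, e⟩
  refine ⟨fun e => if e ∈ P then c e else ψ e, ?_, ?_, fun e he => if_pos he⟩
  · intro e
    induction e using Sym2.ind with
    | _ x y =>
      intro he
      by_cases h : s(x, y) ∈ P
      · simp only [if_pos h]; exact hc _ h
      · simp only [if_neg h, hψ]
        exact Finset.mem_range.1 (p1.mem x y ⟨he, h⟩)
  · intro u v w a b hvw
    by_cases h1 : s(u, v) ∈ P <;> by_cases h2 : s(u, w) ∈ P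
    · simp only [if_pos h1, if_pos h2]; exact hpr u v w hvw h1 h2
    · simp only [if_pos h1, if_neg h2, hψ]; exact mix u v w a b h1 h2
    · simp only [if_neg h1, if_pos h2, hψ]; exact (mix u w v b a h2 h1).symm
    · simp only [if_neg h1, if_neg h2, hψ]
      exact fun e => hvw (p1.inj u v w ⟨a, h1⟩ ⟨b, h2⟩ e)

end Pool.Agent.S11591
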