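import Pool.Statements.S11646
import Pool.Agent.H.MP_d308b2_co.B

set_option autoImplicit false
open Classical
open Pool Pool.MP_d308b2_co

namespace Pool.Agent.S11646

theorem result :
    ¬ (∃ f : ℕ → ℕ, ∀ m : (Σ n : ℕ, Equiv.Perm (Fin n)) → (Σ n : ℕ, Equiv.Perm (Fin n)) → ℤ,
      (∀ x, m x x = 1) →
      (∀ x y, (¬ ∃ e : Fin x.1 → Fin y.1, StrictMono e ∧
          ∀ i j, x.2 i < x.2 j ↔ y.2 (e i) < y.2 (e j)) → m x y = 0) →
      (∀ x y, x ≠ y →
        (∃ e : Fin x.1 → Fin y.1, StrictMono e ∧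
          ∀ i j, x.2 i < x.2 j ↔ y.2 (e i) < y.2 (e j)) →
        ∑ k ∈ Finset.range (y.1 + 1), ∑ ρ : Equiv.Perm (Fin k),
          (if (∃ e : Fin x.1 → Fin k, StrictMono e ∧
                ∀ i j, x.2 i < x.2 j ↔ ρ (e i) < ρ (e j)) ∧
              (∃ e : Fin k → Fin y.1, StrictMono e ∧
                ∀ i j, ρ i < ρ j ↔ y.2 (e i) < y.2 (e j))
            then m x ⟨k, ρ⟩ else 0) = 0) →
      ∀ x y, |m x y| ≤
        ((f {e : Fin x.1 → Fin y.1 | StrictMono e ∧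
            ∀ i j, x.2 i < x.2 j ↔ y.2 (e i) < y.2 (e j)}.ncard : ℕ) : ℤ)) := by
  rintro ⟨f, hf⟩
  have key := hf H.MP_d308b2_co.mu (fun x => IncidenceAlgebra.mu_self (α := H.MP_d308b2_co.P) x)
    (fun x y h => IncidenceAlgebra.apply_eq_zero_of_not_le (α := H.MP_d308b2_co.P) h _) (by
      intro x y hne _
      have h1 := (H.MP_d308b2_co.mu_sum x y).trans (if_neg hne)
      rw [Finset.sum_sigma', ← Finset.sum_filter]
      refine Eq.trans ?_ h1
      apply Finset.sum_congr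
      · ext z
        rw [Finset.mem_filter]
        refine Iff.trans ?_ (Finset.mem_Icc (α := H.MP_d308b2_co.P)).symm
        exact ⟨fun h => h.2, fun h => ⟨H.MP_d308b2_co.mem_J h.2.choose_spec.size, h⟩⟩
      · intro z _
        rfl)
  have h2 := key (H.MP_d308b2_co.pw H.MP_d308b2_co.σ (f 0 + f 1))
    (H.MP_d308b2_co.pw H.MP_d308b2_co.τ (f 0 + f 1))
  obtain ⟨h3, h4⟩ := H.MP_d308b2_co.fam (f 0 + f 1)
  rw [h3] at h2
  generalize hn : Set.ncard _ = n at h2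
  have h5 : n ≤ 1 := by
    rw [← hn]
    exact (Set.ncard_le_one (Set.toFinite _)).2 fun a ha b hb => h4 a b ha hb
  have h6 : f 0 + f 1 < 2 ^ (f 0 + f 1) := Nat.lt_two_pow_self
  have h7 : ((f 0 + f 1 : ℕ) : ℤ) < 2 ^ (f 0 + f 1) := by exact_mod_cast h6
  rw [abs_of_nonneg (by positivity)] at h2
  interval_cases n <;> omega

end Pool.Agent.S11646
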