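import Pool.Statements.S11695
import Pool.Agent.H.MP_d56329_co.C

set_option autoImplicit false
open Pool Pool.MP_d56329_co

namespace Pool.Agent.S11695

theorem result :
    ∀ d : ℕ, ∀ S : Finset (EuclideanSpace ℝ (Fin d)),
      (interior (convexHull ℝ (S : Set (EuclideanSpace ℝ (Fin d))))).Nonempty →
      {F : Set (EuclideanSpace ℝ (Fin d)) |
          IsExposed ℝ (convexHull ℝ (S : Set (EuclideanSpace ℝ (Fin d)))) F ∧ F.Nonempty ∧
            Module.finrank ℝ (vectorSpan ℝ F) + 1 = d}.ncard ≤ d + 3 →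
      ∃ T : Finset (EuclideanSpace ℝ (Fin d)), ∃ c : EuclideanSpace ℝ (Fin d), ∃ r : ℝ,
        (T : Set (EuclideanSpace ℝ (Fin d))) ⊆ Metric.sphere c r ∧
        ∃ e : EuclideanSpace ℝ (Fin d) → EuclideanSpace ℝ (Fin d),
          Set.BijOn e
            ((convexHull ℝ (S : Set (EuclideanSpace ℝ (Fin d)))).extremePoints ℝ)
            ((convexHull ℝ (T : Set (EuclideanSpace ℝ (Fin d)))).extremePoints ℝ) ∧
          ∀ A ⊆ (convexHull ℝ (S : Set (EuclideanSpace ℝ (Fin d)))).extremePoints ℝ,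
            (IsExposed ℝ (convexHull ℝ (S : Set (EuclideanSpace ℝ (Fin d)))) (convexHull ℝ A) ↔
              IsExposed ℝ (convexHull ℝ (T : Set (EuclideanSpace ℝ (Fin d))))
                (convexHull ℝ (e '' A))) :=
  Pool.Agent.H.MP_d56329_co.main

end Pool.Agent.S11695
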