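import Pool.Statements.S11724
import Pool.Agent.H.MP_d6bcd1_co.Main

set_option autoImplicit false
open Pool Pool.MP_d6bcd1_co

namespace Pool.Agent.S11724

theorem result :
    ¬ (∀ (v b k r : ℕ), 0 < v → 0 < b → 0 < k → 0 < r → v * r = b * k →
  ∀ (IsDesign : Matrix (Fin v) (Fin b) ℕ → Prop),
    (∀ M, IsDesign M ↔ ((∀ j, ∑ i, M i j = k) ∧ (∀ i, ∑ j, M i j = r))) →
  ∀ (InB : Matrix (Fin v) (Fin b) ℕ → Prop),
    (∀ M, InB M ↔ (IsDesign M ∧ (∀ i j, M i j ≤ 1) ∧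
      (SimpleGraph.fromRel (fun i j : Fin v => 0 < (M * M.transpose) i j)).Connected)) →
  ∀ (Γ : Matrix (Fin v) (Fin b) ℕ → ℕ → ℤ),
    (∀ M h, Γ M h = Matrix.trace
      ((M.map (fun x : ℕ => (x : ℤ)) * (M.map (fun x : ℕ => (x : ℤ))).transpose
        - (r : ℤ) • (1 : Matrix (Fin v) (Fin v) ℤ)) ^ h)) →
  ∀ (ev : Matrix (Fin v) (Fin b) ℕ → Multiset ℝ),
    (∀ M, ev M = (Matrix.charpoly ((r : ℝ) • (1 : Matrix (Fin v) (Fin v) ℝ)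
        - (1 / (k : ℝ)) • (M.map (fun x : ℕ => (x : ℝ)) * (M.map (fun x : ℕ => (x : ℝ))).transpose))).roots.erase 0) →
  ∀ D, InB D →
    ((∀ D', IsDesign D' → (0 : ℝ) ∉ ev D' →
        ((0 : ℝ) ∉ ev D ∧ ((ev D).map (fun x => x⁻¹)).sum ≤ ((ev D').map (fun x => x⁻¹)).sum)) ↔
     (∀ D', InB D' → ∀ t : ℕ, 2 ≤ t →
        (∀ h : ℕ, 2 ≤ h → h < t → Γ D' h = Γ D h) → Γ D t ≤ Γ D' t))) := by
  open Pool.Agent.H.MP_d6bcd1_co in
  intro h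
  have h' := h 14 35 2 5 (by omega) (by omega) (by omega) (by omega) rfl _ (fun _ => Iff.rfl)
    _ (fun _ => Iff.rfl) _ (fun _ _ => rfl) _ (fun _ => rfl)
  have m0 := mm_ok 0 (by omega)
  have m1 := mm_ok 1 (by omega)
  obtain ⟨D, hD, hlex⟩ := exists_lex {M : Matrix (Fin 14) (Fin 35) ℕ |
      ((∀ j, ∑ i, M i j = 2) ∧ (∀ i, ∑ j, M i j = 5)) ∧ (∀ i j, M i j ≤ 1) ∧
      (SimpleGraph.fromRel (fun i j : Fin 14 => 0 < (M * M.transpose) i j)).Connected}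
    ((Set.Finite.pi' (t := fun _ : Fin 14 => {r : Fin 35 → ℕ | ∀ j, r j ∈ Set.Iic 1}) fun _ =>
      Set.Finite.pi' fun _ => Set.finite_Iic 1).subset fun M hM => hM.2.1)
    ⟨Mm 0, ⟨m0.1, m0.2.1⟩, m0.2.2.1, conn0⟩ (fun M t => Matrix.trace (adj M ^ t))
  have h1 := (h' D hD).2 hlex (Mm 1) ⟨m1.1, m1.2.1⟩
  have h2 := key D hD.1.1 hD.1.2 hD.2.1 (fun t ht he => by
    have := hlex (Mm 0) ⟨⟨m0.1, m0.2.1⟩, m0.2.2.1, conn0⟩ t ht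
    simp only [adj_Mm 0 (by omega)] at this
    exact this he)
  obtain ⟨v0, w0⟩ := val 0 (by omega) _ _ (by omega) inv0
  obtain ⟨v1, w1⟩ := val 1 (by omega) _ _ (by omega) inv1
  simp only [inf_adj, adj_Mm 1 (by omega), h2] at h1
  have h3 := (h1 v1).2
  rw [w0, w1] at h3
  norm_num at h3

end Pool.Agent.S11724
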