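import Pool.Statements.S11730
import Pool.Agent.H.MP_d7a99c_co.A

set_option autoImplicit false
open MeasureTheory
open Pool Pool.MP_d7a99c_co

namespace Pool.Agent.S11730

theorem result :
    ¬ (∀ (n : ℕ) (u : Fin n → EuclideanSpace ℝ (Fin 2)) (w : Fin n → ℝ),
      (∀ i, ‖u i‖ = 1) → (∀ i, 0 < w i) → (∑ i, w i) = 1 →
      ∀ B : Set (EuclideanSpace ℝ (Fin 2)),
        IsCompact B → Convex ℝ B → (interior B).Nonempty →
        MeasureTheory.Measure.hausdorffMeasure 1 (frontier B) ≤ 2 →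
        ∃ c : Fin n → ℝ,
          B ⊆ ⋃ i, {x : EuclideanSpace ℝ (Fin 2) |
            c i ≤ inner ℝ x (u i) ∧ inner ℝ x (u i) ≤ c i + w i}) := by
  intro H
  obtain ⟨c, hc⟩ := H 3 ![!₂[3 / 5, 4 / 5], !₂[12 / 37, 35 / 37], !₂[-12 / 13, 5 / 13]]
    ![23 / 100, 32 / 100, 45 / 100]
    (by
      intro i
      fin_cases i <;> simp [EuclideanSpace.norm_eq, Fin.sum_univ_two] <;> norm_num)
    (by intro i; fin_cases i <;> norm_num)
    (by rw [Fin.sum_univ_three]; norm_num [Matrix.cons_val_two, Matrix.vecHead, Matrix.vecTail])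
    (Metric.closedBall 0 (318 / 1000)) (isCompact_closedBall _ _) (convex_closedBall _ _)
    ⟨0, by rw [interior_closedBall _ (by norm_num)]; exact Metric.mem_ball_self (by norm_num)⟩
    (by rw [frontier_closedBall _ (by norm_num)]; exact Pool.Agent.H.MP_d7a99c_co.circ)
  refine Pool.Agent.H.MP_d7a99c_co.nocover (5000 * c 0) (37000 * c 1) (13000 * c 2) ?_
  intro q hq
  have h1 : (q.1 : ℝ) ^ 2 + (q.2 : ℝ) ^ 2 ≤ 318 ^ 2 := by
    exact_mod_cast of_decide_eq_true (List.all_eq_true.1 Pool.Agent.H.MP_d7a99c_co.chk2 q hq)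
  have h2 : (!₂[(q.1 : ℝ) / 1000, (q.2 : ℝ) / 1000] : EuclideanSpace ℝ (Fin 2)) ∈
      Metric.closedBall 0 (318 / 1000) := by
    rw [mem_closedBall_zero_iff, EuclideanSpace.norm_eq, Fin.sum_univ_two, Real.norm_eq_abs,
      Real.norm_eq_abs, sq_abs, sq_abs]
    refine Real.sqrt_le_iff.2 ⟨by norm_num, ?_⟩
    simp only [Matrix.cons_val_zero, Matrix.cons_val_one]
    nlinarith
  obtain ⟨i, hi⟩ := Set.mem_iUnion.1 (hc h2)
  simp only [Pool.Agent.H.MP_d7a99c_co.p1, Pool.Agent.H.MP_d7a99c_co.p2,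
    Pool.Agent.H.MP_d7a99c_co.p3]
  push_cast
  fin_cases i
  · simp [PiLp.inner_apply, Fin.sum_univ_two] at hi
    exact Or.inl ⟨by linarith [hi.1], by linarith [hi.2]⟩
  · simp [PiLp.inner_apply, Fin.sum_univ_two] at hi
    exact Or.inr (Or.inl ⟨by linarith [hi.1], by linarith [hi.2]⟩)
  · simp [PiLp.inner_apply, Fin.sum_univ_two] at hi
    exact Or.inr (Or.inr ⟨by linarith [hi.1], by linarith [hi.2]⟩)

end Pool.Agent.S11730
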