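import Pool.Statements.S11734
import Pool.Agent.H.MP_d7b467_co.Fiber

set_option autoImplicit false
open Pool Pool.MP_d7b467_co

namespace Pool.Agent.S11734

open Pool.Agent.H.MP_d7b467_co

abbrev Mv := Fin 4 → Fin 10 → Fin 10 → ℤ

def IsMove (m : Mv) : Prop :=
  (∀ i j, ∑ k, m i j k = 0) ∧ (∀ i k, ∑ j, m i j k = 0) ∧ (∀ j k, ∑ i, m i j k = 0)

def Same (u v : Tab) : Prop :=
  (∀ i j, ∑ k, u i j k = ∑ k, v i j k) ∧ (∀ i k, ∑ j, u i j k = ∑ j, v i j k) ∧
    (∀ j k, ∑ i, u i j k = ∑ i, v i j k)

def Step (B : Finset Mv) (w w' : Tab) : Prop :=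
  ∃ m ∈ B, (∀ i j k, (w' i j k : ℤ) = (w i j k : ℤ) + m i j k) ∨
    (∀ i j k, (w' i j k : ℤ) = (w i j k : ℤ) - m i j k)

def MB (B : Finset Mv) : Prop :=
  (∀ m ∈ B, IsMove m) ∧ ∀ u v : Tab, (∀ i j, ∑ k, u i j k = ∑ k, v i j k) →
    (∀ i k, ∑ j, u i j k = ∑ j, v i j k) → (∀ j k, ∑ i, u i j k = ∑ i, v i j k) →
    Relation.ReflTransGen (Step B) u v

def diff (v u : Tab) : Mv := fun i j k => (v i j k : ℤ) - (u i j k : ℤ)

theorem same_iff (u v : Tab) : Same u v ↔ IsMove (diff v u) := by
  unfold Same IsMove diff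
  simp only [Finset.sum_sub_distrib, sub_eq_zero, ← Nat.cast_sum, Nat.cast_inj]
  constructor <;> rintro ⟨h1, h2, h3⟩ <;>
    exact ⟨fun a b => (h1 a b).symm, fun a b => (h2 a b).symm, fun a b => (h3 a b).symm⟩

theorem IsMove.neg {m : Mv} (h : IsMove m) : IsMove (-m) := by
  obtain ⟨h1, h2, h3⟩ := h
  refine ⟨fun a b => ?_, fun a b => ?_, fun a b => ?_⟩ <;>
    simp [Finset.sum_neg_distrib, h1, h2, h3]

theorem IsMove.sub {m m' : Mv} (h : IsMove m) (h' : IsMove m') : IsMove (m - m') := by
  obtain ⟨h1, h2, h3⟩ := h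
  obtain ⟨g1, g2, g3⟩ := h'
  refine ⟨fun a b => ?_, fun a b => ?_, fun a b => ?_⟩ <;>
    simp [Finset.sum_sub_distrib, h1, h2, h3, g1, g2, g3]

theorem Step.symm {B : Finset Mv} {a b : Tab} (h : Step B a b) : Step B b a := by
  obtain ⟨m, hm, h | h⟩ := h
  · exact ⟨m, hm, Or.inr fun i j k => by rw [h]; ring⟩
  · exact ⟨m, hm, Or.inl fun i j k => by rw [h]; ring⟩

theorem Step.diff_eq {B : Finset Mv} {a b : Tab} (h : Step B a b) :
    ∃ m ∈ B, diff b a = m ∨ diff b a = -m := by
  obtain ⟨m, hm, h | h⟩ := h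
  · exact ⟨m, hm, Or.inl (by funext i j k; simp [diff, h])⟩
  · exact ⟨m, hm, Or.inr (by funext i j k; simp [diff, h])⟩

theorem step_of {B : Finset Mv} {a b : Tab} {m : Mv} (hm : m ∈ B)
    (h : diff b a = m ∨ diff b a = -m) : Step B a b := by
  rcases h with h | h
  · exact ⟨m, hm, Or.inl fun i j k => by rw [← h]; simp [diff]⟩
  · refine ⟨m, hm, Or.inr fun i j k => ?_⟩
    have := congrFun (congrFun (congrFun h i) j) k
    simp only [diff, Pi.neg_apply] at this
    linarith

theorem Step.same {B : Finset Mv} (hB : ∀ m ∈ B, IsMove m) {a b : Tab} (h : Step B a b) :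
    Same a b := by
  rw [same_iff]
  obtain ⟨m, hm, h | h⟩ := h.diff_eq
  · rw [h]; exact hB m hm
  · rw [h]; exact (hB m hm).neg

theorem rtg_symm {B : Finset Mv} {a b : Tab} (h : Relation.ReflTransGen (Step B) a b) :
    Relation.ReflTransGen (Step B) b a := by
  induction h with
  | refl => exact Relation.ReflTransGen.refl
  | tail _ h2 ih => exact Relation.ReflTransGen.head h2.symm ih

theorem rtg_add {B : Finset Mv} {a b : Tab} (s : Tab) (h : Relation.ReflTransGen (Step B) a b) :
    Relation.ReflTransGen (Step B) (a + s) (b + s) := by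
  induction h with
  | refl => exact Relation.ReflTransGen.refl
  | tail _ h2 ih =>
    refine Relation.ReflTransGen.tail ih ?_
    obtain ⟨m, hm, h⟩ := h2.diff_eq
    refine step_of hm ?_
    rwa [show ∀ p q : Tab, diff (p + s) (q + s) = diff p q from
      fun p q => by funext i j k; simp [diff]]

/-! Existence of a finite Markov basis (the Graver basis), by Dickson's lemma. -/

def pn (m : Mv) : (Fin 4 × Fin 10 × Fin 10) × Bool → ℕ :=
  fun p => if p.2 then (m p.1.1 p.1.2.1 p.1.2.2).toNat else (-m p.1.1 p.1.2.1 p.1.2.2).toNat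

theorem pn_inj : Function.Injective pn := by
  intro m m' h
  funext i j k
  have h1 := congrFun h ((i, j, k), true)
  have h2 := congrFun h ((i, j, k), false)
  simp only [pn, if_true, Bool.false_eq_true, if_false] at h1 h2
  omega

def size (m : Mv) : ℕ := ∑ p : Fin 4 × Fin 10 × Fin 10, (m p.1 p.2.1 p.2.2).natAbs

theorem exists_MB : ∃ B, MB B := by
  let S : Set ((Fin 4 × Fin 10 × Fin 10) × Bool → ℕ) := pn '' {m | IsMove m ∧ m ≠ 0}
  have hpwo := Set.isPWO_of_wellQuasiOrderedLE S
  have hfin : {a | Minimal (· ∈ S) a}.Finite :=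
    (setOfPred_minimal_antichain _).finite_of_partiallyWellOrderedOn
      (hpwo.mono (setOfPred_minimal_subset _))
  have hfin2 : (pn ⁻¹' {a | Minimal (· ∈ S) a}).Finite := hfin.preimage pn_inj.injOn
  have hmem : ∀ m ∈ hfin2.toFinset, IsMove m := by
    intro m hm
    rw [Set.Finite.mem_toFinset] at hm
    obtain ⟨m', hm', he⟩ := Minimal.prop hm
    rw [← pn_inj he]; exact hm'.1
  refine ⟨hfin2.toFinset, hmem, ?_⟩
  have main : ∀ (n : ℕ) (u v : Tab), Same u v → size (diff v u) = n →
      Relation.ReflTransGen (Step hfin2.toFinset) u v := by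
    intro n
    induction n using Nat.strong_induction_on with
    | _ n ih =>
      intro u v hs hn
      by_cases h0 : diff v u = 0
      · have : u = v := by
          funext i j k
          have := congrFun (congrFun (congrFun h0 i) j) k
          simp only [diff, Pi.zero_apply] at this
          omega
        rw [this]
      · have hd : pn (diff v u) ∈ S := ⟨_, ⟨(same_iff u v).1 hs, h0⟩, rfl⟩
        obtain ⟨b, hb, hmin⟩ := hpwo.exists_le_minimal hd
        obtain ⟨g, ⟨hg1, hg2⟩, rfl⟩ := Minimal.prop hmin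
        have hgB : g ∈ hfin2.toFinset := by rw [Set.Finite.mem_toFinset]; exact hmin
        have key : ∀ i j k, (g i j k).toNat ≤ ((v i j k : ℤ) - u i j k).toNat ∧
            (-g i j k).toNat ≤ (-((v i j k : ℤ) - u i j k)).toNat := fun i j k =>
          ⟨hb ((i, j, k), true), hb ((i, j, k), false)⟩
        let u' : Tab := fun i j k => ((u i j k : ℤ) + g i j k).toNat
        have hu' : ∀ i j k, (u' i j k : ℤ) = u i j k + g i j k := by
          intro i j k
          have := key i j k
          simp only [u']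
          omega
        have hstep : Step hfin2.toFinset u u' := ⟨g, hgB, Or.inl hu'⟩
        have hdiff : diff v u' = diff v u - g := by
          funext i j k
          simp only [diff, hu', Pi.sub_apply]; ring
        refine Relation.ReflTransGen.head hstep (ih (size (diff v u')) ?_ u' v ?_ rfl)
        · rw [← hn]
          apply Finset.sum_lt_sum
          · rintro ⟨i, j, k⟩ _
            have := key i j k
            simp only [diff, hu']
            omega
          · by_contra hc
            apply hg2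
            funext i j k
            by_contra hne
            apply hc
            refine ⟨(i, j, k), Finset.mem_univ _, ?_⟩
            have := key i j k
            simp only [diff, hu', Pi.zero_apply] at hne ⊢
            omega
        · rw [same_iff, hdiff]
          exact ((same_iff u v).1 hs).sub hg1
  intro u v h1 h2 h3
  exact main _ u v ⟨h1, h2, h3⟩ rfl

theorem first_step {α : Type} {r : α → α → Prop} {a b : α} (h : Relation.ReflTransGen r a b)
    (hab : a ≠ b) : ∃ w, w ≠ a ∧ r a w := by
  induction h with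
  | refl => exact absurd rfl hab
  | @tail c d _ h2 ih =>
    by_cases hc : a = c
    · subst hc; exact ⟨d, hab.symm, h2⟩
    · exact ih hc

/-- The exchange step. -/
theorem exchange (B : Finset Mv) (hB : MB B) (m : Mv) (w w' w0 w0' t : Tab)
    (hm : diff w x = m ∨ diff w x = -m) (hw : w = w0 + t) (hw' : w' = w0' + t)
    (hs : Same w0' w0) (hs' : Same x w') (h0 : ∑ i, w0' i 0 2 = 0)
    (hx : ∀ i j k, x i j k = 0 ∨ w i j k = 0) (hx1 : x 1 0 2 = 1) :
    MB (insert (diff w' x) ((B.erase m).erase (-m))) := by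
  classical
  set B' := insert (diff w' x) ((B.erase m).erase (-m)) with hB'
  have hsub : ∀ g ∈ B, g ≠ m → g ≠ -m → g ∈ B' := fun g hg h1 h2 =>
    Finset.mem_insert_of_mem (Finset.mem_erase.2 ⟨h2, Finset.mem_erase.2 ⟨h1, hg⟩⟩)
  have hw1 : w 1 0 2 = 0 := by have := hx 1 0 2; omega
  have low : ∀ b, Relation.ReflTransGen (Step B) w0' b →
      Relation.ReflTransGen (Step B') w0' b ∧ ∑ i, b i 0 2 = 0 := by
    intro b hb
    induction hb with
    | refl => exact ⟨Relation.ReflTransGen.refl, h0⟩
    | @tail c d _ h2 ih =>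
      have hd : ∑ i, d i 0 2 = 0 := by rw [← (h2.same hB.1).2.2 0 2]; exact ih.2
      refine ⟨Relation.ReflTransGen.tail ih.1 ?_, hd⟩
      obtain ⟨g, hg, hgd⟩ := h2.diff_eq
      have c0 : c 1 0 2 = 0 := Finset.sum_eq_zero_iff.1 ih.2 1 (Finset.mem_univ _)
      have d0 : d 1 0 2 = 0 := Finset.sum_eq_zero_iff.1 hd 1 (Finset.mem_univ _)
      have g0 : g 1 0 2 = 0 := by
        rcases hgd with h | h <;>
        · have := congrFun (congrFun (congrFun h 1) 0) 2
          simp only [diff, c0, d0, Pi.neg_apply] at this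
          omega
      have m0 : m 1 0 2 ≠ 0 := by
        rcases hm with h | h <;>
        · have := congrFun (congrFun (congrFun h 1) 0) 2
          simp only [diff, hx1, hw1, Pi.neg_apply] at this
          omega
      refine step_of (hsub g hg ?_ ?_) hgd
      · rintro rfl; exact m0 g0
      · rintro rfl
        simp only [Pi.neg_apply, neg_eq_zero] at g0
        exact m0 g0
  have link : Relation.ReflTransGen (Step B') x w := by
    refine Relation.ReflTransGen.head
      (step_of (b := w') (Finset.mem_insert_self _ _) (Or.inl rfl)) ?_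
    rw [hw, hw']
    exact rtg_add t (low w0 (hB.2 _ _ hs.1 hs.2.1 hs.2.2)).1
  have sim : ∀ a b : Tab, diff b a = diff w x → Relation.ReflTransGen (Step B') a b := by
    intro a b h
    have e : ∀ i j k, (b i j k : ℤ) - a i j k = (w i j k : ℤ) - x i j k := fun i j k =>
      congrFun (congrFun (congrFun h i) j) k
    have ha : a = x + (a - x) := by
      funext i j k
      have h1 := e i j k
      have h2 := hx i j k
      simp only [Pi.add_apply, Pi.sub_apply]
      omega
    have hb : b = w + (a - x) := by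
      funext i j k
      have h1 := e i j k
      have h2 := hx i j k
      simp only [Pi.add_apply, Pi.sub_apply]
      omega
    rw [hb]
    nth_rewrite 1 [ha]
    exact rtg_add _ link
  have swap : ∀ a b : Tab, diff a b = -diff b a := fun a b => by funext i j k; simp [diff]
  have one : ∀ a b : Tab, Step B a b → Relation.ReflTransGen (Step B') a b := by
    intro a b h
    obtain ⟨g, hg, hgd⟩ := h.diff_eq
    by_cases h1 : g = m ∨ g = -m
    · have h2 : diff b a = diff w x ∨ diff a b = diff w x := by
        rw [swap a b]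
        rcases h1 with h1 | h1 <;> rcases hgd with h3 | h3 <;> rcases hm with h4 | h4 <;>
          simp [h1, h3, h4]
      rcases h2 with h2 | h2
      · exact sim a b h2
      · exact rtg_symm (sim b a h2)
    · rw [not_or] at h1
      exact Relation.ReflTransGen.single (step_of (hsub g hg h1.1 h1.2) hgd)
  refine ⟨?_, ?_⟩
  · intro g hg
    rcases Finset.mem_insert.1 hg with rfl | hg
    · exact (same_iff _ _).1 hs'
    · exact hB.1 g (Finset.mem_of_mem_erase (Finset.mem_of_mem_erase hg))
  · intro u v h1 h2 h3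
    have := hB.2 u v h1 h2 h3
    clear h1 h2 h3
    induction this with
    | refl => exact Relation.ReflTransGen.refl
    | tail _ h2 ih => exact ih.trans (one _ _ h2)

def y0 : Tab := fun i j k => if j.1 < 2 ∧ k.1 < 2 then y i j k else 0
def z0 : Tab := fun i j k => if j.1 < 2 ∧ k.1 < 2 then z i j k else 0
def t0 : Tab := fun i j k => if j.1 < 2 ∧ k.1 < 2 then 0 else y i j k

instance (u v : Tab) : Decidable (Same u v) := by unfold Same; infer_instance

theorem hy0 : y = y0 + t0 := by
  funext i j k; revert i j k; decide +kernel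
theorem hz0 : z = z0 + t0 := by
  funext i j k; revert i j k; decide +kernel
theorem s_yz : Same y0 z0 := by decide +kernel
theorem s_zy : Same z0 y0 := by decide +kernel
theorem s_xy : Same x y := by decide +kernel
theorem s_xz : Same x z := by decide +kernel
theorem d_xy : ∀ i j k, x i j k = 0 ∨ y i j k = 0 := by decide +kernel
theorem d_xz : ∀ i j k, x i j k = 0 ∨ z i j k = 0 := by decide +kernel
theorem ne1 : diff y x ≠ diff z x ∧ diff y x ≠ -diff z x := by
  constructor <;> intro h
  · exact absurd (congrFun (congrFun (congrFun h 1) 0) 0) (by decide +kernel)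
  · exact absurd (congrFun (congrFun (congrFun h 0) 0) 0) (by decide +kernel)

theorem result :
    ¬ (∀ I J K : ℕ,
    ∀ IsMB : Finset (Fin I → Fin J → Fin K → ℤ) → Prop,
      (∀ B : Finset (Fin I → Fin J → Fin K → ℤ), IsMB B ↔
        ((∀ m ∈ B, (∀ i j, ∑ k, m i j k = 0) ∧ (∀ i k, ∑ j, m i j k = 0) ∧
            (∀ j k, ∑ i, m i j k = 0)) ∧
          ∀ u v : Fin I → Fin J → Fin K → ℕ,
            (∀ i j, ∑ k, u i j k = ∑ k, v i j k) →
            (∀ i k, ∑ j, u i j k = ∑ j, v i j k) →
            (∀ j k, ∑ i, u i j k = ∑ i, v i j k) →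
            Relation.ReflTransGen
              (fun w w' : Fin I → Fin J → Fin K → ℕ =>
                ∃ m ∈ B, (∀ i j k, (w' i j k : ℤ) = (w i j k : ℤ) + m i j k) ∨
                  (∀ i j k, (w' i j k : ℤ) = (w i j k : ℤ) - m i j k))
              u v)) →
    ∀ B B' : Finset (Fin I → Fin J → Fin K → ℤ),
      (IsMB B ∧ ∀ C, C ⊂ B → ¬ IsMB C) →
      (IsMB B' ∧ ∀ C, C ⊂ B' → ¬ IsMB C) →
      ∀ m : Fin I → Fin J → Fin K → ℤ, (m ∈ B ∨ -m ∈ B) ↔ (m ∈ B' ∨ -m ∈ B')) := by
  classical
  intro h
  have h1 := h 4 10 10 MB (fun _ => Iff.rfl)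
  obtain ⟨B, hB, hmin⟩ : ∃ B, MB B ∧ ∀ C, MB C → B.card ≤ C.card := by
    obtain ⟨B0, hB0⟩ := exists_MB
    obtain ⟨B, hB⟩ := exists_minimalFor_of_wellFoundedLT MB Finset.card ⟨B0, hB0⟩
    exact ⟨B, hB.1, fun C hC => hB.le hC⟩
  have mini : ∀ D, MB D → D.card ≤ B.card → MB D ∧ ∀ C, C ⊂ D → ¬ MB C := fun D hD hc =>
    ⟨hD, fun C hC hC' => by
      have := hmin C hC'
      have := Finset.card_lt_card hC
      omega⟩
  have hxy : x ≠ y := fun e => absurd (congrFun (congrFun (congrFun e 0) 0) 0) (by decide +kernel)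
  obtain ⟨w, hwx, hw⟩ := first_step (hB.2 x y s_xy.1 s_xy.2.1 s_xy.2.2) hxy
  have hs := hw.same hB.1
  obtain ⟨m, hm, hd⟩ := hw.diff_eq
  have fin : ∀ m' : Mv, MB (insert m' ((B.erase m).erase (-m))) → m' ≠ m → m' ≠ -m → False := by
    intro m' hB' n1 n2
    have hc : (insert m' ((B.erase m).erase (-m))).card ≤ B.card := by
      have a1 := Finset.card_insert_le m' ((B.erase m).erase (-m))
      have a2 : ((B.erase m).erase (-m)).card ≤ (B.erase m).card := Finset.card_erase_le
      have a3 := Finset.card_erase_add_one hm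
      omega
    have := (h1 B _ (mini B hB le_rfl) (mini _ hB' hc) m).1 (Or.inl hm)
    simp [n1.symm, n2.symm] at this
  rcases fiber w (fun a b => (hs.1 a b).symm) (fun a b => (hs.2.1 a b).symm)
    (fun a b => (hs.2.2 a b).symm) with rfl | rfl | rfl
  · exact hwx rfl
  · refine fin _ (exchange B hB m y z y0 z0 t0 hd hy0 hz0 s_zy s_xz (by decide +kernel) d_xy
      (by decide +kernel)) ?_ ?_
    · rintro rfl
      rcases hd with h | h
      · exact ne1.1 h
      · exact ne1.2 h
    · intro e
      rcases hd with h | h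
      · exact ne1.2 (by rw [h, e, neg_neg])
      · exact ne1.1 (by rw [h, e])
  · refine fin _ (exchange B hB m z y z0 y0 t0 hd hz0 hy0 s_yz s_xy (by decide +kernel) d_xz
      (by decide +kernel)) ?_ ?_
    · intro e
      rcases hd with h | h
      · exact ne1.1 (by rw [h, e])
      · exact ne1.2 (by rw [h, e, neg_neg])
    · intro e
      rcases hd with h | h
      · exact ne1.2 (by rw [h, e])
      · exact ne1.1 (by rw [h, e])

end Pool.Agent.S11734
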