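import Pool.Statements.S11816

set_option autoImplicit false
open Pool Pool.MP_daf6f7_co

namespace Pool.Agent.S11816

def ed : Fin 6 → Finset (Fin 10) :=
  ![{0, 4, 5}, {0, 1, 6}, {1, 2, 7}, {2, 3, 8}, {3, 4, 9}, {5, 6, 7, 8, 9}]

theorem hyp : ∀ S : Finset (Fin 6), ∃ M ∈ S.powerset,
    (∀ i ∈ M, ∀ j ∈ M, i ≠ j → Disjoint (ed i) (ed j)) ∧
    S.card ≤ M.card *
      (Finset.univ.sup (fun v : Fin 10 => (S.filter (fun i => v ∈ ed i)).card) + 1) := by
  decide +kernel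

theorem deg : Finset.univ.sup
    (fun v : Fin 10 => (Finset.univ.filter (fun i : Fin 6 => v ∈ ed i)).card) = 2 := by
  decide +kernel

theorem nocol : ∀ c : Fin 6 → Fin 3, ¬ ∀ i j, i ≠ j → c i = c j → Disjoint (ed i) (ed j) := by
  decide +kernel

theorem result :
    ¬ (∀ (V : Type) [Fintype V] [DecidableEq V] (m : ℕ) (e : Fin m → Finset V),
    (∀ i, (e i).Nonempty) →
    (∀ S : Finset (Fin m), ∃ M ⊆ S,
        (∀ i ∈ M, ∀ j ∈ M, i ≠ j → Disjoint (e i) (e j)) ∧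
        S.card ≤ M.card *
          (Finset.univ.sup (fun v : V => (S.filter (fun i => v ∈ e i)).card) + 1)) →
    ∃ c : Fin m → Fin (Finset.univ.sup
        (fun v : V => (Finset.univ.filter (fun i : Fin m => v ∈ e i)).card) + 1),
      ∀ i j, i ≠ j → c i = c j → Disjoint (e i) (e j)) := by
  intro H
  have h := H (Fin 10) 6 ed (by decide) (fun S => by
    obtain ⟨M, h1, h2⟩ := hyp S
    exact ⟨M, Finset.mem_powerset.1 h1, h2⟩)
  rw [deg] at h
  obtain ⟨c, hc⟩ := h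
  exact nocol c hc

end Pool.Agent.S11816
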