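import Pool.Statements.S11829
import Pool.Agent.Lib.helper8.AffU

set_option autoImplicit false
open Pool Pool.MP_db9276_co

namespace Pool.Agent.S11829

theorem result :
    ∀ (k : ℕ) (c : ℕ → Fin k), ∃ a : ℕ → ℕ, StrictMono a ∧ 0 < a 0 ∧
      ∃ i : Fin k, ∀ n m : ℕ, n < m → c (a n * a m) = i ∧ c (a m ^ a n) = i := by
  intro k c
  obtain ⟨L, hL0, hL⟩ := Pool.Agent.Lib.helper8.AffU.exists_large
  obtain ⟨i, hi⟩ := hL0 k (fun n => c (2 ^ n))
  have step : ∀ t : {B : Set ℕ // L B} × ℕ, ∃ u : {B : Set ℕ // L B} × ℕ,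
      u.2 ∈ t.1.1 ∧ t.2 < u.2 ∧
        ∀ y ∈ u.1.1, y ∈ t.1.1 ∧ u.2 + y ∈ t.1.1 ∧ 2 ^ u.2 * y ∈ t.1.1 := by
    rintro ⟨⟨B, hB⟩, n⟩
    obtain ⟨x, hx, hn, h⟩ := hL B hB n 1
    refine ⟨⟨⟨_, h⟩, x⟩, hx, hn, fun y hy => ⟨hy.1, hy.2.1, ?_⟩⟩
    simpa using hy.2.2 1 le_rfl
  choose f hf using step
  let g : ℕ → {B : Set ℕ // L B} × ℕ := fun n => f^[n] ⟨⟨_, hi⟩, 0⟩
  have hg : ∀ n, g (n + 1) = f (g n) := fun n => Function.iterate_succ_apply' f n _
  have anti : ∀ n d, (g (n + d)).1.1 ⊆ (g n).1.1 := by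
    intro n d
    induction d with
    | zero => exact subset_rfl
    | succ d ih =>
      intro y hy
      rw [← add_assoc, hg] at hy
      exact ih ((hf _).2.2 y hy).1
  have top : ∀ n, ∀ y ∈ (g n).1.1, c (2 ^ y) = i := fun n y hy => by
    have := anti 0 n (by simpa using hy)
    exact this
  refine ⟨fun n => 2 ^ (g (n + 1)).2, strictMono_nat_of_lt_succ fun n => ?_, by positivity, i,
    fun n m hnm => ?_⟩
  · apply Nat.pow_lt_pow_right (by norm_num)
    rw [hg (n + 1)]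
    exact (hf _).2.1
  · have h1 : (g (m + 1)).2 ∈ (g (n + 1)).1.1 := by
      obtain ⟨d, rfl⟩ := Nat.exists_eq_add_of_le (Nat.succ_le_of_lt hnm)
      apply anti (n + 1) d
      rw [hg (n.succ + d)]
      exact (hf _).1
    have h2 := (hf (g n)).2.2 (g (m + 1)).2 (by rw [← hg n]; exact h1)
    rw [← hg n] at h2
    constructor
    · simp only [← pow_add]
      exact top n _ h2.2.1
    · simp only [← pow_mul]
      rw [mul_comm]
      exact top n _ h2.2.2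

end Pool.Agent.S11829
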