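import Pool.Statements.S11842
-- import your own Pool.Agent.* helpers here

set_option autoImplicit false
open Pool Pool.MP_dc0d0a_co

namespace Pool.Agent.S11842


def nonE (i j : Fin 8) : Bool :=
  (i.val, j.val) ∈ [(0, 1), (1, 0), (2, 3), (3, 2), (4, 6), (6, 4), (5, 7), (7, 5)]

def G8 : SimpleGraph (Fin 8) where
  Adj i j := i ≠ j ∧ nonE i j = false
  symm := ⟨by decide⟩
  loopless := ⟨by decide⟩

instance : DecidableRel G8.Adj := fun i j => inferInstanceAs (Decidable (i ≠ j ∧ nonE i j = false))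

def q8 : Matrix (Fin 8) (Fin 8) ℚ :=
  !![1, 0, -3/8, 1/4, 1/4, 1/8, 1/8, 0;
     0, 1, 1/4, -3/8, 1/8, 1/4, 0, 1/8;
     -3/8, 1/4, 1, 0, 1/8, 0, 1/4, 1/8;
     1/4, -3/8, 0, 1, 0, 1/8, 1/8, 1/4;
     1/4, 1/8, 1/8, 0, 1, -7/8, 0, 1/4;
     1/8, 1/4, 0, 1/8, -7/8, 1, 1/4, 0;
     1/8, 0, 1/4, 1/8, 0, 1/4, 1, -7/8;
     0, 1/8, 1/8, 1/4, 1/4, 0, -7/8, 1]

noncomputable def X8 (r : ℝ) : Matrix (Fin 8) (Fin 8) ℝ :=
  !![1, r - 3/8, -3/8, 1/4, 1/4, 1/8, 1/8, 0;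
     r - 3/8, 1, 1/4, -3/8, 1/8, 1/4, 0, 1/8;
     -3/8, 1/4, 1, r - 3/8, 1/8, 0, 1/4, 1/8;
     1/4, -3/8, r - 3/8, 1, 0, 1/8, 1/8, 1/4;
     1/4, 1/8, 1/8, 0, 1, -7/8, r - 7/8, 1/4;
     1/8, 1/4, 0, 1/8, -7/8, 1, 1/4, r - 7/8;
     1/8, 0, 1/4, 1/8, r - 7/8, 1/4, 1, -7/8;
     0, 1/8, 1/8, 1/4, 1/4, r - 7/8, -7/8, 1]

theorem blk (A B c U W : ℝ) (hA : 0 < A) (h : A * B = c ^ 2) :
    0 ≤ A * U ^ 2 + 2 * c * U * W + B * W ^ 2 := by
  have : A * (A * U ^ 2 + 2 * c * U * W + B * W ^ 2) = (A * U + c * W) ^ 2 := by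
    linear_combination W ^ 2 * h
  have h2 : 0 ≤ A * (A * U ^ 2 + 2 * c * U * W + B * W ^ 2) := by rw [this]; positivity
  exact nonneg_of_mul_nonneg_right h2 hA

theorem X8_psd (r : ℝ) (hr : r ^ 2 = 1 / 2) (h0 : 0 < r) : (X8 r).PosSemidef := by
  have h1 : r < 3 / 4 := by nlinarith
  rw [Matrix.posSemidef_iff_dotProduct_mulVec]
  constructor
  · ext i j
    fin_cases i <;> fin_cases j <;> simp [X8]
  · intro v
    have b0 := blk (1 / 2 + r) (r - 1 / 2) (1 / 2) (v 0 + v 1 + v 2 + v 3) (v 4 + v 5 + v 6 + v 7)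
      (by linarith) (by linear_combination hr)
    have b1 := blk (3 / 4 + r) (3 / 4 - r) (1 / 4) (v 0 + v 1 - v 2 - v 3) (v 4 + v 5 - v 6 - v 7)
      (by linarith) (by linear_combination -hr)
    have b2 := blk (3 / 4 - r) (3 / 4 + r) (1 / 4) (v 0 - v 1 + v 2 - v 3) (v 4 - v 5 + v 6 - v 7)
      (by linarith) (by linear_combination -hr)
    have b3 : 0 ≤ (2 - r) * (v 0 - v 1 - v 2 + v 3) ^ 2 + (3 - r) * (v 4 - v 5 - v 6 + v 7) ^ 2 := by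
      have : 0 < 2 - r := by linarith
      have : 0 < 3 - r := by linarith
      positivity
    simp only [dotProduct, Matrix.mulVec, Fin.sum_univ_eight, star_trivial, Pi.star_apply]
    simp [X8]
    linarith

theorem fin_step (ξ η : ℝ) (d0 : discrim (1 / 2 + ξ) 1 (η - 1 / 2) ≤ 0)
    (d1 : discrim (3 / 4 + ξ) (1 / 2) (3 / 4 - η) ≤ 0)
    (d2 : discrim (3 / 4 - ξ) (1 / 2) (3 / 4 + η) ≤ 0) : (2 * ξ) ^ 2 = 2 := by
  simp only [discrim] at d0 d1 d2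
  have hδ : ξ = η := by linarith
  subst hδ
  linarith

theorem result :
    ¬ (∀ (n : ℕ) (G : SimpleGraph (Fin n)) (x : Fin n → Fin n → ℚ),
      (∃ X : Matrix (Fin n) (Fin n) ℝ, X.PosSemidef ∧ (∀ i, X i i = 1) ∧
          ∀ i j, G.Adj i j → X i j = (x i j : ℝ)) →
      ∃ Y : Matrix (Fin n) (Fin n) ℚ,
        (Y.map (fun q : ℚ => (q : ℝ))).PosSemidef ∧ (∀ i, Y i i = 1) ∧
          ∀ i j, G.Adj i j → Y i j = x i j) := by
  intro H
  have hs : (Real.sqrt 2 / 2) ^ 2 = 1 / 2 := by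
    rw [div_pow, Real.sq_sqrt (by norm_num)]; norm_num
  obtain ⟨Y, hY, hd, he⟩ := H 8 G8 q8 ⟨X8 (Real.sqrt 2 / 2), X8_psd _ hs (by positivity),
    fun i => by fin_cases i <;> simp [X8], fun i j hij => by
      fin_cases i <;> fin_cases j <;> first | exact absurd hij (by decide) | (simp [X8, q8]; done) | (simp [X8, q8]; norm_num)⟩
  rw [Matrix.posSemidef_iff_dotProduct_mulVec] at hY
  obtain ⟨hH, hq⟩ := hY
  have sym : ∀ i j, (Y j i : ℝ) = Y i j := fun i j => by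
    simpa using congrFun (congrFun hH i) j
  have e02 : (Y 0 2 : ℝ) = -3/8 := by
    rw [he 0 2 (by decide)]; simp [q8]
  have e03 : (Y 0 3 : ℝ) = 1/4 := by
    rw [he 0 3 (by decide)]; simp [q8]
  have e04 : (Y 0 4 : ℝ) = 1/4 := by
    rw [he 0 4 (by decide)]; simp [q8]
  have e05 : (Y 0 5 : ℝ) = 1/8 := by
    rw [he 0 5 (by decide)]; simp [q8]
  have e06 : (Y 0 6 : ℝ) = 1/8 := by
    rw [he 0 6 (by decide)]; simp [q8]
  have e07 : (Y 0 7 : ℝ) = 0 := by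
    rw [he 0 7 (by decide)]; simp [q8]
  have e12 : (Y 1 2 : ℝ) = 1/4 := by
    rw [he 1 2 (by decide)]; simp [q8]
  have e13 : (Y 1 3 : ℝ) = -3/8 := by
    rw [he 1 3 (by decide)]; simp [q8]
  have e14 : (Y 1 4 : ℝ) = 1/8 := by
    rw [he 1 4 (by decide)]; simp [q8]
  have e15 : (Y 1 5 : ℝ) = 1/4 := by
    rw [he 1 5 (by decide)]; simp [q8]
  have e16 : (Y 1 6 : ℝ) = 0 := by
    rw [he 1 6 (by decide)]; simp [q8]
  have e17 : (Y 1 7 : ℝ) = 1/8 := by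
    rw [he 1 7 (by decide)]; simp [q8]
  have e20 : (Y 2 0 : ℝ) = -3/8 := by
    rw [he 2 0 (by decide)]; simp [q8]
  have e21 : (Y 2 1 : ℝ) = 1/4 := by
    rw [he 2 1 (by decide)]; simp [q8]
  have e24 : (Y 2 4 : ℝ) = 1/8 := by
    rw [he 2 4 (by decide)]; simp [q8]
  have e25 : (Y 2 5 : ℝ) = 0 := by
    rw [he 2 5 (by decide)]; simp [q8]
  have e26 : (Y 2 6 : ℝ) = 1/4 := by
    rw [he 2 6 (by decide)]; simp [q8]
  have e27 : (Y 2 7 : ℝ) = 1/8 := by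
    rw [he 2 7 (by decide)]; simp [q8]
  have e30 : (Y 3 0 : ℝ) = 1/4 := by
    rw [he 3 0 (by decide)]; simp [q8]
  have e31 : (Y 3 1 : ℝ) = -3/8 := by
    rw [he 3 1 (by decide)]; simp [q8]
  have e34 : (Y 3 4 : ℝ) = 0 := by
    rw [he 3 4 (by decide)]; simp [q8]
  have e35 : (Y 3 5 : ℝ) = 1/8 := by
    rw [he 3 5 (by decide)]; simp [q8]
  have e36 : (Y 3 6 : ℝ) = 1/8 := by
    rw [he 3 6 (by decide)]; simp [q8]
  have e37 : (Y 3 7 : ℝ) = 1/4 := by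
    rw [he 3 7 (by decide)]; simp [q8]
  have e40 : (Y 4 0 : ℝ) = 1/4 := by
    rw [he 4 0 (by decide)]; simp [q8]
  have e41 : (Y 4 1 : ℝ) = 1/8 := by
    rw [he 4 1 (by decide)]; simp [q8]
  have e42 : (Y 4 2 : ℝ) = 1/8 := by
    rw [he 4 2 (by decide)]; simp [q8]
  have e43 : (Y 4 3 : ℝ) = 0 := by
    rw [he 4 3 (by decide)]; simp [q8]
  have e45 : (Y 4 5 : ℝ) = -7/8 := by
    rw [he 4 5 (by decide)]; simp [q8]
  have e47 : (Y 4 7 : ℝ) = 1/4 := by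
    rw [he 4 7 (by decide)]; simp [q8]
  have e50 : (Y 5 0 : ℝ) = 1/8 := by
    rw [he 5 0 (by decide)]; simp [q8]
  have e51 : (Y 5 1 : ℝ) = 1/4 := by
    rw [he 5 1 (by decide)]; simp [q8]
  have e52 : (Y 5 2 : ℝ) = 0 := by
    rw [he 5 2 (by decide)]; simp [q8]
  have e53 : (Y 5 3 : ℝ) = 1/8 := by
    rw [he 5 3 (by decide)]; simp [q8]
  have e54 : (Y 5 4 : ℝ) = -7/8 := by
    rw [he 5 4 (by decide)]; simp [q8]
  have e56 : (Y 5 6 : ℝ) = 1/4 := by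
    rw [he 5 6 (by decide)]; simp [q8]
  have e60 : (Y 6 0 : ℝ) = 1/8 := by
    rw [he 6 0 (by decide)]; simp [q8]
  have e61 : (Y 6 1 : ℝ) = 0 := by
    rw [he 6 1 (by decide)]; simp [q8]
  have e62 : (Y 6 2 : ℝ) = 1/4 := by
    rw [he 6 2 (by decide)]; simp [q8]
  have e63 : (Y 6 3 : ℝ) = 1/8 := by
    rw [he 6 3 (by decide)]; simp [q8]
  have e65 : (Y 6 5 : ℝ) = 1/4 := by
    rw [he 6 5 (by decide)]; simp [q8]
  have e67 : (Y 6 7 : ℝ) = -7/8 := by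
    rw [he 6 7 (by decide)]; simp [q8]
  have e70 : (Y 7 0 : ℝ) = 0 := by
    rw [he 7 0 (by decide)]; simp [q8]
  have e71 : (Y 7 1 : ℝ) = 1/8 := by
    rw [he 7 1 (by decide)]; simp [q8]
  have e72 : (Y 7 2 : ℝ) = 1/8 := by
    rw [he 7 2 (by decide)]; simp [q8]
  have e73 : (Y 7 3 : ℝ) = 1/4 := by
    rw [he 7 3 (by decide)]; simp [q8]
  have e74 : (Y 7 4 : ℝ) = 1/4 := by
    rw [he 7 4 (by decide)]; simp [q8]
  have e76 : (Y 7 6 : ℝ) = -7/8 := by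
    rw [he 7 6 (by decide)]; simp [q8]
  have e00 : (Y 0 0 : ℝ) = 1 := by rw [hd]; simp
  have e11 : (Y 1 1 : ℝ) = 1 := by rw [hd]; simp
  have e22 : (Y 2 2 : ℝ) = 1 := by rw [hd]; simp
  have e33 : (Y 3 3 : ℝ) = 1 := by rw [hd]; simp
  have e44 : (Y 4 4 : ℝ) = 1 := by rw [hd]; simp
  have e55 : (Y 5 5 : ℝ) = 1 := by rw [hd]; simp
  have e66 : (Y 6 6 : ℝ) = 1 := by rw [hd]; simp
  have e77 : (Y 7 7 : ℝ) = 1 := by rw [hd]; simp
  set ξ : ℝ := ((Y 0 1 : ℝ) + Y 2 3) / 2 + 3 / 8 with hξ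
  set η : ℝ := ((Y 4 6 : ℝ) + Y 5 7) / 2 + 7 / 8 with hη
  have d0 : discrim (1 / 2 + ξ) 1 (η - 1 / 2) ≤ 0 := by
    refine discrim_le_zero fun s => ?_
    have := hq ![s, s, s, s, 1, 1, 1, 1]
    simp only [dotProduct, Matrix.mulVec, Fin.sum_univ_eight, star_trivial, Pi.star_apply,
      Matrix.map_apply, sym 0 1, sym 2 3, sym 4 6, sym 5 7, e02, e03, e04, e05, e06, e07, e12, e13, e14, e15, e16, e17, e20, e21, e24, e25, e26, e27, e30, e31, e34, e35, e36, e37, e40, e41, e42, e43, e45, e47, e50, e51, e52, e53, e54, e56, e60, e61, e62, e63, e65, e67, e70, e71, e72, e73, e74, e76, e00, e11, e22, e33, e44, e55, e66, e77] at this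
    simp at this
    rw [hξ, hη]
    linarith
  have d1 : discrim (3 / 4 + ξ) (1 / 2) (3 / 4 - η) ≤ 0 := by
    refine discrim_le_zero fun s => ?_
    have := hq ![s, s, -s, -s, 1, 1, -1, -1]
    simp only [dotProduct, Matrix.mulVec, Fin.sum_univ_eight, star_trivial, Pi.star_apply,
      Matrix.map_apply, sym 0 1, sym 2 3, sym 4 6, sym 5 7, e02, e03, e04, e05, e06, e07, e12, e13, e14, e15, e16, e17, e20, e21, e24, e25, e26, e27, e30, e31, e34, e35, e36, e37, e40, e41, e42, e43, e45, e47, e50, e51, e52, e53, e54, e56, e60, e61, e62, e63, e65, e67, e70, e71, e72, e73, e74, e76, e00, e11, e22, e33, e44, e55, e66, e77] at this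
    simp at this
    rw [hξ, hη]
    linarith
  have d2 : discrim (3 / 4 - ξ) (1 / 2) (3 / 4 + η) ≤ 0 := by
    refine discrim_le_zero fun s => ?_
    have := hq ![s, -s, s, -s, 1, -1, 1, -1]
    simp only [dotProduct, Matrix.mulVec, Fin.sum_univ_eight, star_trivial, Pi.star_apply,
      Matrix.map_apply, sym 0 1, sym 2 3, sym 4 6, sym 5 7, e02, e03, e04, e05, e06, e07, e12, e13, e14, e15, e16, e17, e20, e21, e24, e25, e26, e27, e30, e31, e34, e35, e36, e37, e40, e41, e42, e43, e45, e47, e50, e51, e52, e53, e54, e56, e60, e61, e62, e63, e65, e67, e70, e71, e72, e73, e74, e76, e00, e11, e22, e33, e44, e55, e66, e77] at this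
    simp at this
    rw [hξ, hη]
    linarith
  have h2 : (2 * ξ) ^ 2 = 2 := fin_step ξ η d0 d1 d2
  have h3 : Real.sqrt 2 = |2 * ξ| := by rw [← Real.sqrt_sq_eq_abs, h2]
  apply irrational_sqrt_two
  refine ⟨|2 * ((Y 0 1 + Y 2 3) / 2 + 3 / 8)|, ?_⟩
  rw [h3, hξ]
  push_cast
  rfl

end Pool.Agent.S11842
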