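import Pool.Statements.S11856
import Pool.Agent.H.MP_dc9599_co.Cyc

set_option autoImplicit false
open Pool Pool.MP_dc9599_co

namespace Pool.Agent.S11856

open Pool.Agent.H.MP_dc9599_co

/-- Six cyclically oriented octahedra share the hub `0`; octahedron `j` has the classes
`{0, 5j+1}`, `{5j+2, 5j+3}`, `{5j+4, 5j+5}`; the triangles `0, 10i+1, 10i+6` are added. -/
def adj (u v : ℕ) : Bool :=
  if u = 0 then (decide (1 ≤ v) && ((v - 1) % 5 == 1 || (v - 1) % 5 == 2 || (v - 1) % 10 == 0))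
  else if v = 0 then ((u - 1) % 5 == 3 || (u - 1) % 5 == 4 || (u - 1) % 10 == 5)
  else ((u - 1) / 5 == (v - 1) / 5 &&
      (((u - 1) % 5 == 0 && ((v - 1) % 5 == 1 || (v - 1) % 5 == 2)) ||
        (((u - 1) % 5 == 1 || (u - 1) % 5 == 2) && ((v - 1) % 5 == 3 || (v - 1) % 5 == 4)) ||
        (((u - 1) % 5 == 3 || (u - 1) % 5 == 4) && (v - 1) % 5 == 0))) ||
    ((u - 1) % 10 == 0 && v == u + 5)

def A : Finset (Fin 31 × Fin 31) := Finset.univ.filter (fun e => adj e.1.val e.2.val = true)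

theorem memA (u v : Fin 31) : (u, v) ∈ A ↔ adj u.val v.val = true := by
  simp [A]

def vx (j : Fin 6) (r : Fin 5) : Fin 31 := ⟨5 * j.val + 1 + r.val, by omega⟩

def ox (j : Fin 6) : Fin 31 := if j.val % 2 = 0 then ⟨5 * j.val + 6 - 5 * (j.val % 2), by omega⟩ else 0

theorem anti : ∀ u v : Fin 31, adj u.val v.val = true → ¬ adj v.val u.val = true := by
  decide +kernel

theorem filt1 (v : Fin 31) : (A.filter (fun e => e.1 = v)).card =
    (Finset.univ.filter (fun w : Fin 31 => adj v.val w.val = true)).card := by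
  refine Finset.card_bij (fun e _ => e.2) ?_ ?_ ?_
  · rintro ⟨a, b⟩ h
    simp only [Finset.mem_filter, memA, Finset.mem_univ, true_and] at h ⊢
    rw [← h.2]; exact h.1
  · rintro ⟨a, b⟩ h ⟨c, d⟩ h' e
    simp only [Finset.mem_filter] at h h' e
    exact Prod.ext (h.2.trans h'.2.symm) e
  · intro w h
    simp only [Finset.mem_filter, Finset.mem_univ, true_and] at h
    exact ⟨(v, w), by simp only [Finset.mem_filter, memA, and_true]; exact h, rfl⟩

theorem filt2 (v : Fin 31) : (A.filter (fun e => e.2 = v)).card =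
    (Finset.univ.filter (fun w : Fin 31 => adj w.val v.val = true)).card := by
  refine Finset.card_bij (fun e _ => e.1) ?_ ?_ ?_
  · rintro ⟨a, b⟩ h
    simp only [Finset.mem_filter, memA, Finset.mem_univ, true_and] at h ⊢
    rw [← h.2]; exact h.1
  · rintro ⟨a, b⟩ h ⟨c, d⟩ h' e
    simp only [Finset.mem_filter] at h h' e
    exact Prod.ext e (h.2.trans h'.2.symm)
  · intro w h
    simp only [Finset.mem_filter, Finset.mem_univ, true_and] at h
    exact ⟨(w, v), by simp only [Finset.mem_filter, memA, and_true]; exact h, rfl⟩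

theorem bal : ∀ v : Fin 31,
    (Finset.univ.filter (fun w : Fin 31 => adj v.val w.val = true)).card =
      (Finset.univ.filter (fun w : Fin 31 => adj w.val v.val = true)).card := by
  decide +kernel

theorem hub : (Finset.univ.filter (fun w : Fin 31 => adj (0 : Fin 31).val w.val = true)).card
    = 15 := by
  decide +kernel

theorem nb : ∀ (j : Fin 6) (w : Fin 31),
    (adj (vx j 0).val w.val = true → w = vx j 1 ∨ w = vx j 2 ∨ w = ox j) ∧
    (adj (vx j 1).val w.val = true → w = vx j 3 ∨ w = vx j 4) ∧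
    (adj (vx j 2).val w.val = true → w = vx j 3 ∨ w = vx j 4) ∧
    (adj w.val (vx j 3).val = true → w = vx j 1 ∨ w = vx j 2) ∧
    (adj w.val (vx j 4).val = true → w = vx j 1 ∨ w = vx j 2) := by
  decide +kernel

theorem mems : ∀ (j : Fin 6),
    (adj (0 : Fin 31).val (vx j 1).val = true ∧ adj (0 : Fin 31).val (vx j 2).val = true) ∧
    (adj (vx j 0).val (vx j 1).val = true ∧ adj (vx j 0).val (vx j 2).val = true) ∧
    (adj (vx j 1).val (vx j 3).val = true ∧ adj (vx j 1).val (vx j 4).val = true) ∧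
    (adj (vx j 2).val (vx j 3).val = true ∧ adj (vx j 2).val (vx j 4).val = true) ∧
    (adj (vx j 3).val (vx j 0).val = true ∧ adj (vx j 4).val (vx j 0).val = true) ∧
    (adj (vx j 3).val (0 : Fin 31).val = true ∧ adj (vx j 4).val (0 : Fin 31).val = true) := by
  decide +kernel

theorem dist : ∀ (j : Fin 6) (r : Fin 5), (0 : Fin 31) ≠ vx j r ∧
    ∀ (k : Fin 6) (s : Fin 5), vx k s = vx j r → k = j ∧ s = r := by
  decide +kernel

theorem result :
    ¬ (∀ (n : ℕ) (A : Finset (Fin n × Fin n)),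
      (∀ u v : Fin n, (u, v) ∈ A → (v, u) ∉ A) →
      (∀ v : Fin n, (A.filter (fun e => e.1 = v)).card = (A.filter (fun e => e.2 = v)).card) →
      ∃ L : List (List (Fin n)),
        3 * L.length ≤ 2 * n ∧
        (∀ c ∈ L, c.Nodup ∧ 2 ≤ c.length ∧ ∀ e ∈ c.zip (c.rotate 1), e ∈ A) ∧
        (∀ e ∈ A, ∃ c ∈ L, e ∈ c.zip (c.rotate 1)) ∧
        L.Pairwise (fun c d => ∀ e ∈ c.zip (c.rotate 1), e ∉ d.zip (d.rotate 1))) := by
  intro H
  obtain ⟨L, hL, h1, h2, h3⟩ := H 31 A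
    (fun u v h h' => anti u v ((memA u v).1 h) ((memA v u).1 h'))
    (fun v => by rw [filt1, filt2, bal])
  obtain ⟨φ, p0, p1, p2, p3, p4, p5⟩ := colouring A L h1 h2 h3
  have tri : ∀ j : Fin 6, ∃ r s : Fin 5, (vx j 0, vx j r) ∈ A ∧ (vx j r, vx j s) ∈ A ∧
      (vx j s, vx j 0) ∈ A ∧ φ (vx j r, vx j s) = φ (vx j 0, vx j r) ∧
      φ (vx j s, vx j 0) = φ (vx j 0, vx j r) := by
    intro j
    obtain ⟨⟨ha, hb⟩, ⟨xa, xb⟩, ⟨ac, ad⟩, ⟨bc, bd⟩, ⟨cx, dx⟩, ⟨ch, dh⟩⟩ := mems j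
    rw [← memA] at ha hb xa xb ac ad bc bd cx dx ch dh
    have ne : ∀ r s : Fin 5, r ≠ s → vx j r ≠ vx j s :=
      fun r s h e => h ((dist j s).2 j r e).2
    have key := loc (φ (0, vx j 1)) (φ (0, vx j 2)) (φ (vx j 0, vx j 1)) (φ (vx j 0, vx j 2))
      (φ (vx j 1, vx j 3)) (φ (vx j 1, vx j 4)) (φ (vx j 2, vx j 3)) (φ (vx j 2, vx j 4))
      (φ (vx j 3, 0)) (φ (vx j 3, vx j 0)) (φ (vx j 4, 0)) (φ (vx j 4, vx j 0))
      (φ (vx j 0, ox j))
      (fun e => ne 3 4 (by decide) (p2 _ _ _ cx dx e))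
      (fun e => (dist j 0).1 (p2 _ _ _ ha xa e))
      (fun e => (dist j 0).1 (p2 _ _ _ hb xb e))
      (fun e => ne 3 4 (by decide) (p1 _ _ _ ac ad e))
      (fun e => ne 3 4 (by decide) (p1 _ _ _ bc bd e))
      (fun e => ne 1 2 (by decide) (p2 _ _ _ ac bc e))
      (fun e => ne 1 2 (by decide) (p2 _ _ _ ad bd e))
      (fun e => (dist j 0).1 (p1 _ _ _ ch cx e))
      (fun e => (dist j 0).1 (p1 _ _ _ dh dx e))
      (by
        obtain ⟨w, hw, e⟩ := p3 _ _ cx
        rcases (nb j w).1 ((memA _ _).1 hw) with rfl | rfl | rfl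
        exacts [Or.inl e, Or.inr (Or.inl e), Or.inr (Or.inr e)])
      (by
        obtain ⟨w, hw, e⟩ := p3 _ _ dx
        rcases (nb j w).1 ((memA _ _).1 hw) with rfl | rfl | rfl
        exacts [Or.inl e, Or.inr (Or.inl e), Or.inr (Or.inr e)])
      (by
        obtain ⟨w, hw, e⟩ := p3 _ _ xa
        rcases (nb j w).2.1 ((memA _ _).1 hw) with rfl | rfl
        exacts [Or.inl e, Or.inr e])
      (by
        obtain ⟨w, hw, e⟩ := p3 _ _ xb
        rcases (nb j w).2.2.1 ((memA _ _).1 hw) with rfl | rfl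
        exacts [Or.inl e, Or.inr e])
      (by
        obtain ⟨w, hw, e⟩ := p4 _ _ cx
        rcases (nb j w).2.2.2.1 ((memA _ _).1 hw) with rfl | rfl
        exacts [Or.inl e, Or.inr e])
      (by
        obtain ⟨w, hw, e⟩ := p4 _ _ dx
        rcases (nb j w).2.2.2.2 ((memA _ _).1 hw) with rfl | rfl
        exacts [Or.inl e, Or.inr e])
    rcases key with ⟨e1, e2⟩ | ⟨e1, e2⟩ | ⟨e1, e2⟩ | ⟨e1, e2⟩
    · exact ⟨1, 3, xa, ac, cx, e1, e2⟩
    · exact ⟨1, 4, xa, ad, dx, e1, e2⟩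
    · exact ⟨2, 3, xb, bc, cx, e1, e2⟩
    · exact ⟨2, 4, xb, bd, dx, e1, e2⟩
  choose r s t1 t2 t3 t4 t5 using tri
  have only : ∀ (j : Fin 6) (u v : Fin 31), (u, v) ∈ A → φ (u, v) = φ (vx j 0, vx j (r j)) →
      ∃ q, u = vx j q := by
    intro j u v h e
    rcases p5 _ _ _ u v (t1 j) (t2 j) (t3 j) h (t4 j) (t5 j) e with h | h | h
    exacts [⟨_, h⟩, ⟨_, h⟩, ⟨_, h⟩]
  let S1 : Finset ℕ := (Finset.univ.filter
    (fun w : Fin 31 => adj (0 : Fin 31).val w.val = true)).image (fun w => φ (0, w))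
  let S2 : Finset ℕ := Finset.univ.image (fun j : Fin 6 => φ (vx j 0, vx j (r j)))
  have c1 : S1.card = 15 := by
    rw [Finset.card_image_of_injOn, hub]
    intro a ha b hb e
    simp only [Finset.coe_filter, Finset.mem_univ, true_and, Set.mem_ofPred_eq] at ha hb
    exact p1 _ _ _ ((memA _ _).2 ha) ((memA _ _).2 hb) e
  have c2 : S2.card = 6 := by
    rw [Finset.card_image_of_injective]
    · simp
    · intro a b e
      obtain ⟨q, hq⟩ := only b _ _ (t1 a) e
      exact ((dist b q).2 a 0 hq).1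
  have dj : Disjoint S1 S2 := by
    rw [Finset.disjoint_left]
    intro k hk1 hk2
    obtain ⟨w, hw, rfl⟩ := Finset.mem_image.1 hk1
    obtain ⟨j, -, e⟩ := Finset.mem_image.1 hk2
    obtain ⟨q, hq⟩ := only j 0 w ((memA _ _).2 (Finset.mem_filter.1 hw).2) e.symm
    exact (dist j q).1 hq
  have sub : S1 ∪ S2 ⊆ Finset.range L.length := by
    intro k hk
    rw [Finset.mem_range]
    rcases Finset.mem_union.1 hk with hk | hk
    · obtain ⟨w, hw, rfl⟩ := Finset.mem_image.1 hk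
      exact p0 _ ((memA _ _).2 (Finset.mem_filter.1 hw).2)
    · obtain ⟨j, -, rfl⟩ := Finset.mem_image.1 hk
      exact p0 _ (t1 j)
  have := Finset.card_le_card sub
  rw [Finset.card_union_of_disjoint dj, c1, c2, Finset.card_range] at this
  omega

end Pool.Agent.S11856
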