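import Pool.Statements.S11866
import Pool.Agent.H.MP_dcf9ac_co.G

set_option autoImplicit false
open Classical
open Pool Pool.MP_dcf9ac_co

namespace Pool.Agent.S11866

theorem result :
    ¬ (∀ r k : ℕ, 2 ≤ r → 3 ≤ k →
      (∀ G : SimpleGraph (Fin (k * (r - 1))), Gᶜ.CliqueFree r →
        ∃ S : Finset (Fin (k * (r - 1))), 3 ≤ S.card ∧
          ((k : ℝ) + 1) / 2 ≤
            ((((Finset.univ.filter (fun p : Fin (k * (r - 1)) × Fin (k * (r - 1)) =>
                p.1 ∈ S ∧ p.2 ∈ S ∧ G.Adj p.1 p.2)).card : ℝ) / 2 - 1) /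
              ((S.card : ℝ) - 2))) ∧
      (∃ G : SimpleGraph (Fin (k * (r - 1))), Gᶜ.CliqueFree r ∧
        ∀ S : Finset (Fin (k * (r - 1))), 3 ≤ S.card →
          ((((Finset.univ.filter (fun p : Fin (k * (r - 1)) × Fin (k * (r - 1)) =>
                p.1 ∈ S ∧ p.2 ∈ S ∧ G.Adj p.1 p.2)).card : ℝ) / 2 - 1) /
              ((S.card : ℝ) - 2)) ≤ ((k : ℝ) + 1) / 2)) := by
  intro h
  obtain ⟨S, hS, hS'⟩ := (h 5 3 (by norm_num) le_rfl).1 Pool.Agent.H.MP_dcf9ac_co.G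
    Pool.Agent.H.MP_dcf9ac_co.cliqueFree
  have h1 := Pool.Agent.H.MP_dcf9ac_co.sparse S hS
  rw [Pool.Agent.H.MP_dcf9ac_co.count S _ (fun p => by simp only [Finset.mem_filter, Finset.mem_univ, true_and])] at hS'
  have h2 : (3 : ℝ) ≤ S.card := by exact_mod_cast hS
  rw [le_div_iff₀ (by linarith)] at hS'
  have h3 := (Nat.cast_lt (α := ℝ)).mpr h1
  push_cast at h3 hS'
  linarith

end Pool.Agent.S11866
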