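import Pool.Statements.S11885
import Pool.Agent.H.MP_dd5ef2_co.A

set_option autoImplicit false
open Classical
open Pool Pool.MP_dd5ef2_co

namespace Pool.Agent.S11885

theorem result :
    ∀ ε : ℝ, 0 < ε → ∃ N : ℕ, ∀ n : ℕ, N ≤ n →
      (∑ G : SimpleGraph (Fin n),
        ∏ i : Fin n, ∏ j : Fin n,
          (if i < j then
            (((Finset.univ.filter (fun k : Fin n => k ≠ i ∧ k ≠ j ∧
                Even ((if G.Adj i j then 1 else 0) + (if G.Adj i k then 1 else 0)
                  + (if G.Adj j k then 1 else 0) : ℕ))).card : ℝ) / ((n : ℝ) - 2))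
          else 1)) ≤ (2 : ℝ) ^ (ε * (n : ℝ) ^ 2) := by
  intro ε0 h0
  have hl : (0 : ℝ) < Real.log 2 := Real.log_pos (by norm_num)
  obtain ⟨η, hη, hη2⟩ : ∃ η : ℝ, 0 < η ∧ 3 * η = Real.log 2 * ε0 :=
    ⟨Real.log 2 * ε0 / 3, by positivity, by ring⟩
  obtain ⟨t, ht⟩ := exists_nat_gt (1 / (η * (η / 4) ^ 2))
  have ht0 : (0 : ℝ) < t := lt_trans (by positivity) ht
  obtain ⟨N, hN⟩ := exists_nat_gt (t / η + 8 / η + 2)
  refine ⟨N, fun n hn => ?_⟩
  have hn' : (N : ℝ) ≤ n := by exact_mod_cast hn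
  have a1 : 0 < t / η := by positivity
  have a2 : 0 < 8 / η := by positivity
  refine (H.DD5.total n t (by exact_mod_cast ht0) (η / 4) (by positivity) (by linarith) ?_).trans ?_
  · rw [div_le_iff₀ (by linarith)]
    have : 8 / η ≤ n - 2 := by linarith
    rw [div_le_iff₀ hη] at this
    linarith
  · rw [Real.rpow_def_of_pos (by norm_num), Real.exp_le_exp]
    have b1 : (n : ℝ) ^ 2 / t / (η / 4) ^ 2 ≤ η * n ^ 2 := by
      rw [div_lt_iff₀ (by positivity)] at ht
      rw [div_div, div_le_iff₀ (by positivity)]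
      nlinarith [mul_le_mul_of_nonneg_left ht.le (sq_nonneg (n : ℝ))]
    have b2 : (t : ℝ) * n ≤ η * n ^ 2 := by
      have : t / η ≤ n := by linarith
      rw [div_le_iff₀ hη] at this
      nlinarith [mul_le_mul_of_nonneg_right this (show (0 : ℝ) ≤ n by positivity)]
    have b3 : Real.log 2 * (ε0 * (n : ℝ) ^ 2) = 3 * η * n ^ 2 := by rw [hη2]; ring
    linarith

end Pool.Agent.S11885
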