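import Pool.Statements.S11888
-- import your own Pool.Agent.* helpers here

set_option autoImplicit false
open Pool Pool.MP_dd77b8_co

namespace Pool.Agent.S11888

abbrev I (n : ℕ) := {T : Finset (Fin n) // T.card = 4}

theorem single_mem {n : ℕ} (T0 : I n) (c : ℝ) : ∃ g : Finset (Fin n) → ℝ,
    (EuclideanSpace.single T0 c : EuclideanSpace ℝ (I n)) =
      WithLp.toLp 2 (fun T : I n => ∏ S ∈ T.1.powersetCard 3, g S) := by
  classical
  obtain ⟨S0, hS0, hc⟩ := Finset.exists_subset_card_eq (s := T0.1) (n := 3) (by rw [T0.2]; norm_num)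
  refine ⟨fun S => if S = S0 then c else if S ⊆ T0.1 then 1 else 0, ?_⟩
  ext T
  by_cases hT : T = T0
  · subst hT
    simp only [PiLp.single_apply, if_true]
    rw [Finset.prod_eq_single_of_mem S0 (Finset.mem_powersetCard.2 ⟨hS0, hc⟩)]
    · simp
    · intro S hS hne
      simp [hne, (Finset.mem_powersetCard.1 hS).1]
  · simp only [PiLp.single_apply, hT, if_false]
    have hns : ¬ T.1 ⊆ T0.1 := fun h =>
      hT (Subtype.ext (Finset.eq_of_subset_of_card_le h (by rw [T.2, T0.2])))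
    obtain ⟨x, hx, hx0⟩ := Finset.not_subset.1 hns
    obtain ⟨S, h1, h2, h3⟩ := Finset.exists_subsuperset_card_eq (s := {x}) (t := T.1) (n := 3)
      (by simpa using hx) (by simp) (by rw [T.2]; norm_num)
    have hxS : x ∈ S := h1 (Finset.mem_singleton_self x)
    symm
    refine Finset.prod_eq_zero (Finset.mem_powersetCard.2 ⟨h2, h3⟩) ?_
    have h4 : ¬ S ⊆ T0.1 := fun h => hx0 (h hxS)
    have h5 : S ≠ S0 := fun e => h4 (e ▸ hS0)
    simp [h4, h5]

theorem num (d : ℝ) (hd : 32 ≤ d) : 2 * d < Real.exp (d ^ ((4 : ℝ) / 5)) := by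
  set y := d ^ ((4 : ℝ) / 5) with hy
  have h1 : (16 : ℝ) ≤ y := by
    have e : (16 : ℝ) = (32 : ℝ) ^ ((4 : ℝ) / 5) := by
      rw [show (32 : ℝ) = 2 ^ (5 : ℝ) by norm_num, ← Real.rpow_mul (by norm_num)]
      norm_num
    rw [e]
    exact Real.rpow_le_rpow (by norm_num) hd (by norm_num)
  have h2 : d ≤ y ^ 2 := by
    have e : y ^ 2 = d ^ ((8 : ℝ) / 5) := by
      rw [hy, ← Real.rpow_natCast, ← Real.rpow_mul (by linarith)]
      norm_num
    rw [e]
    calc d = d ^ (1 : ℝ) := (Real.rpow_one d).symm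
      _ ≤ d ^ ((8 : ℝ) / 5) := Real.rpow_le_rpow_of_exponent_le (by linarith) (by norm_num)
  have h3 := Real.pow_div_factorial_le_exp y (by linarith) 3
  have h4 : ((Nat.factorial 3 : ℕ) : ℝ) = 6 := by norm_num [Nat.factorial]
  rw [h4] at h3
  nlinarith

theorem big {ι : Type} [Fintype ι] (f : EuclideanSpace ℝ ι) (hf : ‖f‖ = 1) :
    ∃ T, 1 / (Fintype.card ι : ℝ) ≤ |f T| := by
  by_contra hn
  push Not at hn
  have h1 : ‖f‖ ^ 2 = ∑ T, f T ^ 2 := by
    rw [EuclideanSpace.norm_sq_eq]; simp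
  rcases isEmpty_or_nonempty ι with h | h
  · rw [hf] at h1; simp at h1
  · have hd : (1 : ℝ) ≤ Fintype.card ι := by exact_mod_cast Fintype.card_pos
    have h2 : ∑ T, f T ^ 2 < ∑ _T : ι, 1 / (Fintype.card ι : ℝ) := by
      refine Finset.sum_lt_sum_of_nonempty Finset.univ_nonempty fun T _ => ?_
      have h3 := hn T
      have h4 : 1 / (Fintype.card ι : ℝ) ≤ 1 := by
        rw [div_le_one (by linarith)]; exact hd
      rw [← sq_abs]
      nlinarith [abs_nonneg (f T)]
    rw [Finset.sum_const, Finset.card_univ, nsmul_eq_mul, mul_one_div_cancel (by linarith)] at h2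
    rw [hf] at h1
    linarith

theorem cap {ι : Type} [Fintype ι] (T : ι) (s e : ℝ) (hs : s ^ 2 = 1) (he : 0 < e)
    (A : Set (EuclideanSpace ℝ ι)) (hA : ∀ f ∈ A, ‖f‖ = 1 ∧ e ≤ s * f T) : Metric.diam A < 2 := by
  have h1 : Metric.diam A ≤ Real.sqrt (4 - 4 * e ^ 2) := by
    refine Metric.diam_le_of_forall_dist_le (Real.sqrt_nonneg _) fun f hf g hg => ?_
    apply Real.le_sqrt_of_sq_le
    have h2 := parallelogram_law_with_norm ℝ f g
    have h3 : |(f + g) T| ≤ ‖f + g‖ := by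
      simpa using PiLp.norm_apply_le (f + g) T
    have h4 : ((f + g) T) ^ 2 ≤ ‖f + g‖ ^ 2 := by
      rw [← sq_abs]; exact pow_le_pow_left₀ (abs_nonneg _) h3 2
    have h5 : (f + g) T = f T + g T := rfl
    obtain ⟨a1, a2⟩ := hA f hf
    obtain ⟨b1, b2⟩ := hA g hg
    have h6 : (2 * e) ^ 2 ≤ (s * (f T + g T)) ^ 2 :=
      pow_le_pow_left₀ (by linarith) (by linarith) 2
    rw [mul_pow s, hs] at h6
    rw [dist_eq_norm]
    rw [a1, b1] at h2
    rw [h5] at h4
    nlinarith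
  refine h1.trans_lt ?_
  rw [Real.sqrt_lt' (by norm_num)]
  nlinarith

theorem result :
    ¬ (∃ N : ℕ, ∀ n : ℕ, N ≤ n →
      ∀ X : Set (EuclideanSpace ℝ {T : Finset (Fin n) // T.card = 4}),
        X = {f | ∃ g : Finset (Fin n) → ℝ,
              f = WithLp.toLp 2 (fun T : {T : Finset (Fin n) // T.card = 4} =>
                    ∏ S ∈ T.1.powersetCard 3, g S) ∧ ‖f‖ = 1} →
        ∀ m : ℕ, ∀ A : Fin m → Set (EuclideanSpace ℝ {T : Finset (Fin n) // T.card = 4}),
          (⋃ i, A i) = X →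
          (∀ i, Metric.diam (A i) < Metric.diam X) →
          Real.exp (((n.choose 4 : ℕ) : ℝ) ^ ((4 : ℝ) / 5)) ≤ (m : ℝ)) := by
  rintro ⟨N, h⟩
  obtain ⟨n, hn1, hn2⟩ : ∃ n, N ≤ n ∧ 7 ≤ n := ⟨max N 7, le_max_left _ _, le_max_right _ _⟩
  have hcard : Fintype.card (I n) = n.choose 4 := by simp [I]
  have hd : 32 ≤ n.choose 4 := le_trans (by decide) (Nat.choose_le_choose 4 hn2)
  have hdR : (32 : ℝ) ≤ (n.choose 4 : ℕ) := by exact_mod_cast hd
  set X : Set (EuclideanSpace ℝ (I n)) := {f | ∃ g : Finset (Fin n) → ℝ,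
              f = WithLp.toLp 2 (fun T : {T : Finset (Fin n) // T.card = 4} =>
                    ∏ S ∈ T.1.powersetCard 3, g S) ∧ ‖f‖ = 1} with hX
  have hX1 : ∀ f ∈ X, ‖f‖ = 1 := fun f ⟨_, _, h⟩ => h
  obtain ⟨T0⟩ : Nonempty (I n) := Fintype.card_pos_iff.1 (by omega)
  have hdiam : 2 ≤ Metric.diam X := by
    have hb : Bornology.IsBounded X :=
      (Metric.isBounded_closedBall (x := 0) (r := 1)).subset fun f hf => by simp [hX1 f hf]
    have m1 : EuclideanSpace.single T0 (1 : ℝ) ∈ X := by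
      obtain ⟨g, hg⟩ := single_mem T0 1
      exact ⟨g, hg, by simp⟩
    have m2 : EuclideanSpace.single T0 (-1 : ℝ) ∈ X := by
      obtain ⟨g, hg⟩ := single_mem T0 (-1)
      exact ⟨g, hg, by simp⟩
    have := Metric.dist_le_diam_of_mem hb m1 m2
    rw [PiLp.dist_single_same, Real.dist_eq] at this
    norm_num at this
    exact this
  let eqv : Fin (2 * n.choose 4) ≃ Bool × I n :=
    Fintype.equivOfCardEq (by simp [hcard])
  let sg : Bool → ℝ := fun b => if b then 1 else -1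
  have key := h n hn1 X rfl (2 * n.choose 4)
    (fun i => {f | f ∈ X ∧ 1 / (Fintype.card (I n) : ℝ) ≤ sg (eqv i).1 * f (eqv i).2}) ?_ ?_
  · have := num _ hdR
    push_cast at key
    linarith
  · ext f
    simp only [Set.mem_iUnion, Set.mem_ofPred_eq]
    constructor
    · rintro ⟨i, hi, _⟩
      exact hi
    · intro hf
      obtain ⟨T, hT⟩ := big f (hX1 f hf)
      rcases le_abs.1 hT with e | e
      · exact ⟨eqv.symm (true, T), hf, by simpa [sg] using e⟩
      · exact ⟨eqv.symm (false, T), hf, by simpa [sg] using e⟩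
  · intro i
    refine lt_of_lt_of_le (cap (eqv i).2 (sg (eqv i).1) (1 / (Fintype.card (I n) : ℝ)) ?_ ?_ _
      (fun f hf => ⟨hX1 f hf.1, hf.2⟩)) hdiam
    · cases (eqv i).1 <;> simp [sg]
    · rw [hcard]; positivity

end Pool.Agent.S11888
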