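import Pool.Statements.S11898
-- import your own Pool.Agent.* helpers here

set_option autoImplicit false
open Pool Pool.MP_ddc6c3_co

namespace Pool.Agent.S11898

abbrev E4 := EuclideanSpace ℝ (Fin 4)

def L (j : Fin 6) (x : E4) : ℝ := ![x 0, x 1, 1 - x 0 - x 1, x 2, x 3, 1 - x 2 - x 3] j

def KK (a : Fin 6) : Set E4 := {x | ∀ j, j ≠ a → 0 ≤ L j x}

def P (a : Fin 6) : E4 :=
  ![!₂[-2, 0, 0, 0], !₂[3, -2, 0, 0], !₂[0, 3, 0, 0],
    !₂[0, 0, -2, 0], !₂[0, 0, 3, -2], !₂[0, 0, 0, 3]] a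

theorem L_cont (j : Fin 6) : Continuous (L j) := by
  unfold L
  fin_cases j <;> simp <;> fun_prop

theorem L_aff (j : Fin 6) (x y : E4) (a b : ℝ) (h : a + b = 1) :
    L j (a • x + b • y) = a * L j x + b * L j y := by
  have hb : b = 1 - a := by linarith
  subst hb
  fin_cases j <;> simp [L] <;> ring

theorem KK_closed (a : Fin 6) : IsClosed (KK a) := by
  have : KK a = ⋂ j, ⋂ (_ : j ≠ a), {x | 0 ≤ L j x} := by
    ext x; simp [KK]
  rw [this]
  exact isClosed_iInter fun j => isClosed_iInter fun _ => isClosed_le continuous_const (L_cont j)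

theorem KK_convex (a : Fin 6) : Convex ℝ (KK a) := by
  intro x hx y hy s t hs ht hst j hj
  rw [L_aff j x y s t hst]
  exact add_nonneg (mul_nonneg hs (hx j hj)) (mul_nonneg ht (hy j hj))

theorem mem_all (x : E4) : x ∈ ⋂ b, KK b ↔ ∀ j, 0 ≤ L j x := by
  rw [Set.mem_iInter]
  constructor
  · intro h j
    obtain ⟨b, hb⟩ := exists_ne j
    exact h b j hb.symm
  · intro h b j _
    exact h j

def M (a j : Fin 6) : ℤ :=
  ![![-2, 0, 3, 0, 0, 1], ![3, -2, 0, 0, 0, 1], ![0, 3, -2, 0, 0, 1],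
    ![0, 0, 1, -2, 0, 3], ![0, 0, 1, 3, -2, 0], ![0, 0, 1, 0, 3, -2]] a j

theorem LP (a j : Fin 6) : L j (P a) = (M a j : ℝ) := by
  fin_cases a <;> fin_cases j <;> simp [L, P, M] <;> norm_num

theorem P_mem (a : Fin 6) : P a ∈ KK a := by
  intro j hj
  have : ∀ a j : Fin 6, j ≠ a → 0 ≤ M a j := by decide
  rw [LP]
  exact_mod_cast this a j hj

theorem P_neg (a : Fin 6) : L a (P a) < 0 := by
  have : ∀ a : Fin 6, M a a < 0 := by decide
  rw [LP]
  exact_mod_cast this a

theorem M_pair : ∀ a b : Fin 6, a ≠ b → ∃ s ∈ ([1, 2, 3] : List ℤ),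
    s * M a a + (4 - s) * M b a < 0 ∧ s * M a b + (4 - s) * M b b < 0 := by decide

theorem P_pair (a b : Fin 6) (h : a ≠ b) : ∃ s t : ℝ, 0 ≤ s ∧ 0 ≤ t ∧ s + t = 1 ∧
    s * L a (P a) + t * L a (P b) < 0 ∧ s * L b (P a) + t * L b (P b) < 0 := by
  obtain ⟨s, hs, h1, h2⟩ := M_pair a b h
  have h1' : (s : ℝ) * M a a + (4 - s) * M b a < 0 := by exact_mod_cast h1
  have h2' : (s : ℝ) * M a b + (4 - s) * M b b < 0 := by exact_mod_cast h2
  have hs' : (0 : ℝ) ≤ s ∧ (s : ℝ) ≤ 4 := by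
    simp only [List.mem_cons, List.not_mem_nil, or_false] at hs
    rcases hs with rfl | rfl | rfl <;> norm_num
  refine ⟨s / 4, (4 - s) / 4, by linarith [hs'.1], by linarith [hs'.2], by ring, ?_, ?_⟩ <;>
    (simp only [LP]; linarith)

theorem strict (a : Fin 6) : (⋂ b, KK b) ⊂ KK a := by
  refine ⟨Set.iInter_subset _ a, fun h => ?_⟩
  have := (mem_all _).1 (h (P_mem a)) a
  linarith [P_neg a]

theorem compact : IsCompact (⋂ b, KK b) := by
  refine Metric.isCompact_of_isClosed_isBounded (isClosed_iInter KK_closed)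
    ((Metric.isBounded_closedBall (x := (0 : E4)) (r := 2)).subset ?_)
  intro x hx
  have h := (mem_all x).1 hx
  have h0 := h 0
  have h1 := h 1
  have h2 := h 2
  have h3 := h 3
  have h4 := h 4
  have h5 := h 5
  simp [L] at h0 h1 h2 h3 h4 h5
  rw [mem_closedBall_zero_iff, EuclideanSpace.norm_eq, Real.sqrt_le_left (by norm_num),
    Fin.sum_univ_four]
  simp only [Real.norm_eq_abs, sq_abs]
  nlinarith

theorem int_ne : (interior (⋂ b, KK b)).Nonempty := by
  have ho : IsOpen (⋂ j, {x : E4 | 0 < L j x}) :=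
    isOpen_iInter_of_finite fun j => isOpen_lt continuous_const (L_cont j)
  refine ⟨!₂[1 / 3, 1 / 3, 1 / 3, 1 / 3], interior_maximal ?_ ho ?_⟩
  · intro x hx
    rw [Set.mem_iInter] at hx
    exact (mem_all x).2 fun j => le_of_lt (hx j)
  · rw [Set.mem_iInter]
    intro j
    fin_cases j <;> first | (simp [L]; done) | (simp [L]; norm_num)

theorem result :
    ¬ (∀ (d n : ℕ) (I : Type) (K : I → Set (EuclideanSpace ℝ (Fin d))),
      (∀ α, IsClosed (K α) ∧ Convex ℝ (K α)) →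
      IsCompact (⋂ β, K β) →
      Convex ℝ (⋂ β, K β) →
      (interior (⋂ β, K β)).Nonempty →
      (∀ α, (⋂ β, K β) ⊂ K α) →
      2 ≤ n →
      (∀ S : Finset I, S.card = n → (⋂ α ∈ S, K α) = ⋂ β, K β) →
      (∀ m : ℕ, (∀ S : Finset I, S.card = m → (⋂ α ∈ S, K α) = ⋂ β, K β) → n ≤ m) →
      ∃ C : Fin ((d + 1) * (n - 1)) → Set (EuclideanSpace ℝ (Fin d)),
        (∀ i, IsClosed (C i) ∧ Convex ℝ (C i)) ∧ (⋃ i, C i) = ⋃ α, K α) := by
  intro h
  obtain ⟨C, hC, hU⟩ := h 4 2 (Fin 6) KK (fun a => ⟨KK_closed a, KK_convex a⟩) compact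
    (convex_iInter KK_convex) int_ne strict le_rfl
    (by
      intro S hS
      obtain ⟨a, b, hab, rfl⟩ := Finset.card_eq_two.1 hS
      ext x
      rw [mem_all]
      simp only [Finset.mem_insert, Finset.mem_singleton, Set.mem_iInter]
      constructor
      · intro hx j
        by_cases hj : j = a
        · exact hx b (Or.inr rfl) j (hj ▸ hab)
        · exact hx a (Or.inl rfl) j hj
      · intro hx c _ j _
        exact hx j)
    (by
      intro m hm
      by_contra hlt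
      have : m = 0 ∨ m = 1 := by omega
      rcases this with rfl | rfl
      · have h0 := hm ∅ rfl
        have : P 0 ∈ ⋂ b, KK b := by rw [← h0]; simp
        linarith [(mem_all _).1 this 0, P_neg 0]
      · have h0 := hm {0} rfl
        have : P 0 ∈ ⋂ b, KK b := by rw [← h0]; simpa using P_mem 0
        linarith [(mem_all _).1 this 0, P_neg 0])
  have hex : ∀ a : Fin 6, ∃ i, P a ∈ C i := by
    intro a
    have : P a ∈ ⋃ i, C i := by rw [hU]; exact Set.mem_iUnion.2 ⟨a, P_mem a⟩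
    exact Set.mem_iUnion.1 this
  choose f hf using hex
  obtain ⟨a, b, hab, e⟩ := Fintype.exists_ne_map_eq_of_card_lt f (by simp)
  obtain ⟨s, t, hs, ht, hst, n1, n2⟩ := P_pair a b hab
  have hq : s • P a + t • P b ∈ ⋃ c, KK c := by
    rw [← hU]
    exact Set.mem_iUnion.2 ⟨f a, (hC (f a)).2 (hf a) (e ▸ hf b) hs ht hst⟩
  obtain ⟨c, hc⟩ := Set.mem_iUnion.1 hq
  by_cases hac : a = c
  · have := hc b (fun e' => hab (hac.trans e'.symm))
    rw [L_aff b _ _ s t hst] at this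
    linarith
  · have := hc a hac
    rw [L_aff a _ _ s t hst] at this
    linarith

end Pool.Agent.S11898
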