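import Pool.Statements.S11905
import Pool.Agent.H.MP_ddef6b_co.B

set_option autoImplicit false
open Pool Pool.MP_ddef6b_co

namespace Pool.Agent.S11905

/-- For every t there is d such that every nonempty finite set T of integers with at most t elements partitions Z^d into isometric copies: sets v + s·T·e_i along a coordinate axis, with s = ±1. -/
theorem result :
    ∀ t : ℕ, ∃ d : ℕ, ∀ T : Finset ℤ, T.Nonempty → T.card ≤ t →
      ∃ C : Set (Set (Fin d → ℤ)),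
        (∀ S ∈ C, ∃ v : Fin d → ℤ, ∃ i : Fin d, ∃ s : ℤ, (s = 1 ∨ s = -1) ∧
          S = (fun a : ℤ => v + (s * a) • Pi.single i (1 : ℤ)) '' (T : Set ℤ)) ∧
        ∀ x : Fin d → ℤ, ∃! S : Set (Fin d → ℤ), S ∈ C ∧ x ∈ S := by
  intro t
  obtain ⟨d, hd⟩ := Pool.Agent.H.MP_ddef6b_co.bounded t
  refine ⟨d, fun T h1 h2 => ?_⟩
  obtain ⟨Q, ⟨e, he⟩, C, hC1, hC2⟩ := hd T h1 h2
  refine ⟨(fun S => e '' S) '' C, ?_, ?_⟩
  · rintro _ ⟨S, hS, rfl⟩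
    obtain ⟨v, i, hv⟩ := he S (hC1 S hS).1
    refine ⟨v, i, 1, Or.inl rfl, ?_⟩
    simpa only [one_mul] using hv
  · intro x
    obtain ⟨S, ⟨hS, hx⟩, hu⟩ := hC2 (e.symm x) (Set.mem_univ _)
    refine ⟨e '' S, ⟨⟨S, hS, rfl⟩, ⟨e.symm x, hx, e.apply_symm_apply x⟩⟩, ?_⟩
    rintro _ ⟨⟨S', hS', rfl⟩, y, hy, rfl⟩
    rw [e.symm_apply_apply] at hu
    rw [hu S' ⟨hS', hy⟩]

end Pool.Agent.S11905
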