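import Pool.Statements.S11907
import Pool.Agent.H.MP_ddf3f5_co.C

set_option autoImplicit false
open Pool Pool.MP_ddf3f5_co

namespace Pool.Agent.S11907

theorem result :
    ∀ (B : Type) [Finite B] (M : CoxeterMatrix B) (W : Type) [Group W]
      (cs : CoxeterSystem M W),
      ∃ P Q : Polynomial ℚ, Q ≠ 0 ∧
        (Q : PowerSeries ℚ) *
          PowerSeries.mk (fun n : ℕ =>
            ((Nat.card {t : W // cs.IsReflection t ∧ cs.length t = n} : ℕ) : ℚ))
          = (P : PowerSeries ℚ) := by
  intro B _ M W _ cs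
  exact Agent.H.Cox.main B M W cs

end Pool.Agent.S11907
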