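import Pool.Statements.S11909
import Pool.Agent.H.MP_de06d2_co.C

set_option autoImplicit false
open Pool Pool.MP_de06d2_co

namespace Pool.Agent.S11909

theorem result :
  ∃ g : ℕ, ∀ k : ℕ, ∃ c : ℕ, ∀ (V : Type) [Fintype V] (G : SimpleGraph V),
    (g : ℕ∞) ≤ G.egirth →
    (∃ n : ℕ, ∃ T : SimpleGraph (Fin n), T.IsTree ∧ ∃ B : Fin n → Finset V,
      (∀ i, (B i).card ≤ k + 1) ∧
      (∀ v : V, ∃ i, v ∈ B i) ∧
      (∀ u v : V, G.Adj u v → ∃ i, u ∈ B i ∧ v ∈ B i) ∧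
      (∀ v : V, (T.induce {i | v ∈ B i}).Connected)) →
    ∃ f : V → Fin 2, ∀ s : Finset V, (∀ x ∈ s, ∀ y ∈ s, f x = f y) →
      (G.induce (s : Set V)).Connected → s.card ≤ c := by
  refine ⟨7, fun k => ?_⟩
  obtain ⟨c, hc⟩ := Pool.Agent.H.MP_de06d2_co.main (k + 1)
  refine ⟨c, fun V _ G hg ⟨n, T, hT, B, h1, _, h3, h4⟩ => ?_⟩
  obtain ⟨ρ, Bk, E⟩ := Pool.Agent.H.MP_de06d2_co.elim G (k + 1) T hT B h1 h3 h4
  obtain ⟨f, hf⟩ := hc V G ρ Bk E hg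
  exact ⟨fun v => finTwoEquiv.symm (f v), fun s hs =>
    hf s fun x hx y hy => finTwoEquiv.symm.injective (hs x hx y hy)⟩

end Pool.Agent.S11909
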