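import Pool.Statements.S11929
import Pool.Agent.H.MP_debf2a_co.C

set_option autoImplicit false
open Pool Pool.MP_debf2a_co

namespace Pool.Agent.S11929

/-- There is a quaternion matrix D, each of whose invertible square submatrices has Study determinant 1, such that the matroid of [I ∣ D] has, over no field, a matrix with the same invertible maximal column subsets. -/
theorem result :
    ∃ (r m : ℕ) (D : Matrix (Fin r) (Fin m) (Quaternion ℝ)),
      (∀ (k : ℕ) (g : Fin k → Fin r) (h : Fin k → Fin m),
        IsUnit (D.submatrix g h) →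
          (Matrix.of fun (p q : Fin k × Fin 2) =>
            (fun x : Quaternion ℝ =>
              !![Complex.mk x.re x.imI, Complex.mk x.imJ x.imK;
                 Complex.mk (-x.imJ) x.imK, Complex.mk x.re (-x.imI)])
              (D (g p.1) (h q.1)) p.2 q.2).det = 1) ∧
      ∀ (F : Type) [Field F], ¬ ∃ E : Matrix (Fin r) (Fin r ⊕ Fin m) F,
        ∀ f : Fin r → Fin r ⊕ Fin m,
          (IsUnit ((Matrix.fromCols (1 : Matrix (Fin r) (Fin r) (Quaternion ℝ)) D).submatrix id f)
            ↔ IsUnit (E.submatrix id f)) := by
  exact ⟨5, 7, Pool.Agent.H.MP_debf2a_co.DD, fun k g h hu => Pool.Agent.H.MP_debf2a_co.qu k g h hu,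
    fun F _ => Pool.Agent.H.MP_debf2a_co.norep' F⟩

end Pool.Agent.S11929
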