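import Pool.Statements.S11932
import Pool.Agent.H.MP_dec67b_co.A

set_option autoImplicit false
open Pool Pool.MP_dec67b_co

namespace Pool.Agent.S11932

theorem result :
    ¬ (∃ c : ℝ, 0 < c ∧ ∀ d : ℕ, 1 ≤ d →
      ∀ S : Finset (EuclideanSpace ℝ (Fin d)),
        (∀ x ∈ S, ∀ y ∈ S, x ≠ y → 1 ≤ dist x y) →
        ∃ T ⊆ S, c * (S.card : ℝ) / (d : ℝ) ≤ (T.card : ℝ) ∧
          ∀ x ∈ T, ∀ y ∈ T, x ≠ y → 1 < dist x y) := by
  rintro ⟨c, hc, H⟩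
  obtain ⟨k, hk⟩ := pow_unbounded_of_one_lt (6 / c + 1) (one_lt_two (α := ℝ))
  obtain ⟨g, h1, h2⟩ := Pool.Agent.H.MP_dec67b_co.gram k
  obtain ⟨S, hS, hsep, hT⟩ := Pool.Agent.H.MP_dec67b_co.pts g (2 ^ k) (by positivity) h1 h2
  obtain ⟨T, hTS, hcard, hTs⟩ := H _ Fintype.card_pos S hsep
  have h3 := hT T hTS hTs
  rw [hS] at hcard
  simp only [Fintype.card_prod, Fintype.card_sum, Pool.Agent.H.MP_dec67b_co.cardV] at hcard
  push_cast at hcard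
  obtain ⟨h, hh⟩ : ∃ h : ℝ, h = 2 ^ k := ⟨_, rfl⟩
  have e : (2 : ℝ) ^ (2 * k + 1) = 2 * h ^ 2 := by rw [hh]; ring
  rw [e] at hcard
  rw [← hh] at h3 hk
  have h6 : 0 < 6 / c := by positivity
  have hpos : 1 < h := by linarith
  have e2 : c * (2 * h ^ 2 * (2 * h ^ 2)) / (2 * h ^ 2 + (2 * h ^ 2 + 2 * h ^ 2)) = c * (2 * h ^ 2) / 3 := by
    field_simp
    ring
  rw [e2] at hcard
  have h7 : 6 < h * c := by
    have : 6 / c < h := by linarith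
    rwa [div_lt_iff₀ hc] at this
  nlinarith

end Pool.Agent.S11932
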