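import Pool.Statements.S11952
import Pool.Agent.H.MP_dfb409_co.G

set_option autoImplicit false
open Pool Pool.MP_dfb409_co

namespace Pool.Agent.S11952

open Pool.Agent.H.MP_dfb409_co Pool.Agent.Lib.helper8

theorem chk_all (t : Bool) (a : Fin 42) : chk t a.val = true := by
  cases t
  · exact (allLt_iff _ _).1 chk0 a.val a.isLt
  · exact (allLt_iff _ _).1 chk1 a.val a.isLt

theorem o_lt : ∀ (t : Bool) (a : Fin 42), o t a.val < 42 := by decide +kernel

def oF (t : Bool) (a : Fin 42) : Fin 42 := ⟨o t a.val, o_lt t a⟩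

theorem adj_cases : ∀ u v : Fin 42, G.Adj u v → ∃ t : Bool, v = oF t u ∨ u = oF t v := by
  decide +kernel

theorem adj_o : ∀ (t : Bool) (a : Fin 42), G.Adj a (oF t a) := by decide +kernel

theorem notcol : ¬ G.Colorable 3 := by
  rintro ⟨c⟩
  refine nocol (fun v => c v) (fun a b h => c.valid ?_) (fun a b h => c.valid ?_)
  · have : b = oF false a := Fin.ext h
    rw [this]; exact adj_o false a
  · have : b = oF true a := Fin.ext h
    rw [this]; exact adj_o true a

theorem miss (H : G.Subgraph) (h : H.coe.Colorable 3) : ∃ t a, ¬ H.Adj a (oF t a) := by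
  by_contra hn
  push Not at hn
  obtain ⟨c⟩ := h
  have hv : ∀ v, v ∈ H.verts := fun v => H.edge_vert (hn false v)
  apply notcol
  refine ⟨SimpleGraph.Coloring.mk (fun v => c ⟨v, hv v⟩) ?_⟩
  intro u v huv
  apply c.valid
  obtain ⟨t, h | h⟩ := adj_cases u v huv
  · subst h; exact hn t u
  · subst h; exact (hn t v).symm

theorem proper_spec {t : Bool} {a : Fin 42} {c : ℕ} (hc : c ∈ fam t a.val) (s : Bool) (b : Fin 42)
    (hne : ¬ (s = t ∧ b = a)) : col c b.val ≠ col c (oF s b).val := by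
  have h := chk_all t a
  simp only [chk, Bool.and_eq_true, List.all_eq_true] at h
  have h2 := (allLt_iff _ _).1 (h.1.1 c hc) b.val b.isLt
  simp only [Bool.and_eq_true, Bool.or_eq_true, beq_iff_eq, bne_iff_ne, Bool.not_eq_true'] at h2
  cases s
  · rcases h2.1 with ⟨h3, h4⟩ | h3
    · exact absurd ⟨h4.symm, Fin.ext h3⟩ hne
    · exact h3
  · rcases h2.2 with ⟨h3, h4⟩ | h3
    · exact absurd ⟨h4.symm, Fin.ext h3⟩ hne
    · exact h3

theorem restrict (H : G.Subgraph) {t : Bool} {a : Fin 42} (hm : ¬ H.Adj a (oF t a)) {c : ℕ}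
    (hc : c ∈ fam t a.val) : ∃ c' : H.coe.Coloring (Fin 3),
      ∀ v (hv : v ∈ H.verts), (c' ⟨v, hv⟩).val = col c v.val := by
  refine ⟨SimpleGraph.Coloring.mk
    (fun v => (⟨col c v.val.val, Nat.mod_lt _ (by norm_num)⟩ : Fin 3)) ?_, fun v hv => rfl⟩
  rintro ⟨u, hu⟩ ⟨v, hv⟩ huv he
  have huv' : H.Adj u v := huv
  have he' : col c u.val = col c v.val := congrArg Fin.val he
  obtain ⟨s, h | h⟩ := adj_cases u v (H.adj_sub huv')
  · subst h
    refine proper_spec hc s u ?_ he'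
    rintro ⟨rfl, rfl⟩
    exact hm huv'
  · subst h
    refine proper_spec hc s v ?_ he'.symm
    rintro ⟨rfl, rfl⟩
    exact hm huv'.symm

theorem same_ends (t : Bool) (a : Fin 42) :
    ∃ c ∈ fam t a.val, col c a.val = col c (oF t a).val := by
  have h := chk_all t a
  simp only [chk, Bool.and_eq_true, List.any_eq_true, beq_iff_eq] at h
  exact h.1.2

theorem key_lt (x y : Fin 42) (hxy : y.val < x.val) (hn : ¬ G.Adj x y) :
    (∀ t (a : Fin 42), ∃ c ∈ fam t a.val, col c x.val = col c y.val) ∨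
    (∀ t (a : Fin 42), ∃ c ∈ fam t a.val, col c x.val ≠ col c y.val) := by
  have h : ∀ t (a : Fin 42), (Bool.rec ((fam t a.val).any fun c => col c x.val != col c y.val)
      ((fam t a.val).any fun c => col c x.val == col c y.val)
      (A.testBit (42 * x.val + y.val)) : Bool) = true := by
    intro t a
    have h := chk_all t a
    simp only [chk, Bool.and_eq_true] at h
    have h2 := (allLt_iff _ _).1 ((allLt_iff _ _).1 h.2 x.val x.isLt) y.val hxy
    rw [Bool.or_eq_true] at h2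
    exact h2.resolve_left hn
  cases hb : A.testBit (42 * x.val + y.val)
  · right
    intro t a
    have := h t a
    rw [hb] at this
    simpa using this
  · left
    intro t a
    have := h t a
    rw [hb] at this
    simpa using this

theorem key (x y : Fin 42) (hxy : x ≠ y) (hn : ¬ G.Adj x y) :
    (∀ t (a : Fin 42), ∃ c ∈ fam t a.val, col c x.val = col c y.val) ∨
    (∀ t (a : Fin 42), ∃ c ∈ fam t a.val, col c x.val ≠ col c y.val) := by
  rcases lt_or_gt_of_ne (Fin.val_ne_of_ne hxy) with h | h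
  · rcases key_lt y x h (fun h' => hn h'.symm) with h1 | h1
    · left; intro t a; obtain ⟨c, hc, e⟩ := h1 t a; exact ⟨c, hc, e.symm⟩
    · right; intro t a; obtain ⟨c, hc, e⟩ := h1 t a; exact ⟨c, hc, e.symm⟩
  · exact key_lt x y h hn

theorem cf : G.CliqueFree 4 := by
  have h3 : G.CliqueFree 3 := by
    intro s hs
    obtain ⟨a, b, c, h1, h2, h3, _⟩ := SimpleGraph.is3Clique_iff.1 hs
    exact tri a b c h1 h2 h3
  exact h3.mono (by norm_num)

theorem result :
    ¬ (∀ (V : Type) [Fintype V] (G : SimpleGraph V),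
      G.CliqueFree 4 → ¬ G.Colorable 3 →
      ∃ x y : V, x ≠ y ∧
        ∃ G₁ G₂ : G.Subgraph,
        ∃ hx₁ : x ∈ G₁.verts, ∃ hy₁ : y ∈ G₁.verts,
        ∃ hx₂ : x ∈ G₂.verts, ∃ hy₂ : y ∈ G₂.verts,
          ¬ G₁.Adj x y ∧ ¬ G₂.Adj x y ∧
          G₁.coe.Colorable 3 ∧ G₂.coe.Colorable 3 ∧
          (∀ c : G₁.coe.Coloring (Fin 3), c ⟨x, hx₁⟩ ≠ c ⟨y, hy₁⟩) ∧
          (∀ c : G₂.coe.Coloring (Fin 3), c ⟨x, hx₂⟩ = c ⟨y, hy₂⟩)) := by
  intro h
  obtain ⟨x, y, hxy, G₁, G₂, hx₁, hy₁, hx₂, hy₂, n1, n2, c1, c2, d1, d2⟩ := h (Fin 42) G cf notcol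
  by_cases hadj : G.Adj x y
  · obtain ⟨t, e | e⟩ := adj_cases x y hadj
    · subst e
      obtain ⟨c, hc, hs⟩ := same_ends t x
      obtain ⟨c', h'⟩ := restrict G₁ n1 hc
      exact d1 c' (Fin.ext (by rw [h', h', hs]))
    · subst e
      obtain ⟨c, hc, hs⟩ := same_ends t y
      obtain ⟨c', h'⟩ := restrict G₁ (fun hh => n1 hh.symm) hc
      exact d1 c' (Fin.ext (by rw [h', h', hs]))
  · rcases key x y hxy hadj with k | k
    · obtain ⟨t, a, hm⟩ := miss G₁ c1
      obtain ⟨c, hc, hs⟩ := k t a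
      obtain ⟨c', h'⟩ := restrict G₁ hm hc
      exact d1 c' (Fin.ext (by rw [h', h', hs]))
    · obtain ⟨t, a, hm⟩ := miss G₂ c2
      obtain ⟨c, hc, hs⟩ := k t a
      obtain ⟨c', h'⟩ := restrict G₂ hm hc
      apply hs
      rw [← h' x hx₂, ← h' y hy₂, d2 c']

end Pool.Agent.S11952
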