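import Pool.Statements.S11957
import Pool.Agent.H.MP_dfdf13_co.C

set_option autoImplicit false
open Pool Pool.MP_dfdf13_co

namespace Pool.Agent.S11957

theorem result :
    ∀ k : ℕ, 4 ≤ k → ∃ p₀ : ℕ, ∀ p : ℕ, p.Prime → p₀ < p →
      ∀ S : Finset (ZMod p × ZMod p), p ∣ S.card →
        {d : Option (ZMod p) | ∃ b : ZMod p,
            (S.filter (fun q => d.elim q.1 (fun m => q.2 - m * q.1) = b)).card * p
              ≠ S.card}.ncard ≠ k := by
  classical
  intro k hk
  obtain ⟨p0, h⟩ := Pool.Agent.SpecDir.main k hk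
  refine ⟨p0, fun p hp hlt S hS => ?_⟩
  haveI : Fact p.Prime := ⟨hp⟩
  obtain ⟨n, hn⟩ := hS
  have key := h p hlt S n hn
    (Finset.univ.filter (fun d => ∃ b, Pool.Agent.SpecDir.gg S d b ≠ n)) (by simp)
  rw [← Set.ncard_coe_finset] at key
  intro hk'
  apply key
  rw [← hk']
  congr 1
  ext d
  simp only [Finset.coe_filter, Finset.mem_univ, true_and, Set.mem_setOf_eq]
  refine exists_congr fun b => not_congr ?_
  rw [hn, mul_comm p n]
  have e : Pool.Agent.SpecDir.gg S d b =
      (S.filter (fun q => d.elim q.1 (fun m => q.2 - m * q.1) = b)).card := by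
    unfold Pool.Agent.SpecDir.gg Pool.Agent.SpecDir.ell
    congr
  rw [e]
  exact (Nat.mul_left_inj hp.ne_zero).symm

end Pool.Agent.S11957
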