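import Pool.Statements.S11974
import Pool.Agent.S07344

set_option autoImplicit false
open Pool Pool.MP_e09a39_co

namespace Pool.Agent.S11974

open Pool.Agent.S07344 (Z BB PP LL BB_zero three_le root)

theorem result :
    ¬ (∀ (m n : ℕ) (A : Matrix (Fin m) (Fin n) SignType),
      (∀ j : Fin n, (Finset.univ.filter (fun i : Fin m => A i j = 0)).card ≤ 3) →
      (∃ B : Matrix (Fin m) (Fin n) ℝ,
          (∀ i j, SignType.sign (B i j) = A i j) ∧ B.rank = 3) →
      (∀ B : Matrix (Fin m) (Fin n) ℝ,
          (∀ i j, SignType.sign (B i j) = A i j) → 3 ≤ B.rank) →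
      ∃ Q : Matrix (Fin m) (Fin n) ℚ,
        (∀ i j, SignType.sign (Q i j) = A i j) ∧ Q.rank = 3) := by
  intro h
  have hA : ∀ i j, SignType.sign (BB i j) = 0 ↔ Z i j = true := fun i j => by
    rw [sign_eq_zero_iff, BB_zero]
  obtain ⟨C, hC, hr⟩ := h 10 12 (Matrix.of fun i j => SignType.sign (BB i j))
    (fun j => by
      have h1 : (Finset.univ.filter
          (fun i : Fin 10 => (Matrix.of fun i j => SignType.sign (BB i j)) i j = 0)) =
          Finset.univ.filter (fun i : Fin 10 => Z i j = true) := by
        apply Finset.filter_congr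
        intro i _
        exact hA i j
      rw [h1]
      revert j
      have : ∀ j : Fin 12, (Finset.univ.filter (fun i : Fin 10 => Z i j = true)).card ≤ 3 := by
        decide +kernel
      intro j _
      exact this j)
    ⟨BB, fun _ _ => rfl, le_antisymm
      ((Matrix.rank_mul_le_left PP LL).trans (Matrix.rank_le_width PP)) (three_le BB BB_zero)⟩
    (fun B hB => three_le B (fun i j => by
      rw [← sign_eq_zero_iff, hB i j]; exact hA i j))
  obtain ⟨x, hx⟩ := root C (fun i j => by rw [← sign_eq_zero_iff, hC i j]; exact hA i j) hr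
  have h5 : IsSquare (5 : ℚ) := ⟨2 * x - 3, by linear_combination (-4) * hx⟩
  have h6 : IsSquare (5 : ℕ) := by exact_mod_cast Rat.isSquare_natCast_iff.1 (by exact_mod_cast h5)
  exact absurd h6 (by decide +kernel)

end Pool.Agent.S11974
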