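import Pool.Statements.S11991
import Pool.Agent.H.MP_e19463_co.A

set_option autoImplicit false
open Pool Pool.MP_e19463_co

namespace Pool.Agent.S11991

/-- There is a function C such that for every loopless binary matroid M whose cocycle space has a basis of vectors of weight at most k, every complex root of the characteristic polynomial of M has modulus at most C(k). -/
theorem result :
  ∃ C : ℕ → ℝ, ∀ (m n : ℕ) (A : Matrix (Fin m) (Fin n) (ZMod 2)),
    (∀ j : Fin n, ∃ i : Fin m, A i j ≠ 0) →
    ∀ k : ℕ,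
    (∃ s : Finset (Fin n → ZMod 2),
        LinearIndependent (ZMod 2)
          (fun v : (s : Set (Fin n → ZMod 2)) => (v : Fin n → ZMod 2)) ∧
        Submodule.span (ZMod 2) (s : Set (Fin n → ZMod 2)) =
          Submodule.span (ZMod 2) (Set.range A) ∧
        ∀ v ∈ s, (Finset.univ.filter (fun j : Fin n => v j ≠ 0)).card ≤ k) →
    ∀ q : ℂ,
      (∑ X : Finset (Fin n), (-1 : ℂ) ^ X.card *
        q ^ (Module.finrank (ZMod 2)
                (Submodule.span (ZMod 2)
                  (Set.range (fun j : Fin n => fun i : Fin m => A i j))) -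
             Module.finrank (ZMod 2)
                (Submodule.span (ZMod 2)
                  ((fun j : Fin n => fun i : Fin m => A i j) '' (X : Set (Fin n)))))) = 0 →
      ‖q‖ ≤ C k := by
  refine ⟨fun k => 2 ^ (k + 1), fun m n A hA k ⟨s, _, h2, h3⟩ q hq => le_of_not_gt fun g => ?_⟩
  have q0 : 0 < ‖q‖ := lt_trans (by positivity) g
  let B : Matrix s (Fin n) (ZMod 2) := fun v => v.1
  have r := Pool.Agent.H.MP_e19463_co.rank_eq A B (by
    rw [← h2]; congr 1; exact Subtype.range_coe.symm)
  refine (Pool.Agent.H.MP_e19463_co.main (fun j i => B i j) q⁻¹ k ?_ Finset.univ Finset.univ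
    (fun j _ => ⟨fun e => ?_, by simp⟩) fun i D _ hD => ?_).1 ?_
  · rw [norm_inv, ← div_eq_mul_inv, div_le_one q0]
    exact g.le
  · obtain ⟨i, hi⟩ := hA j
    have : Submodule.span (ZMod 2) (s : Set (Fin n → ZMod 2)) ≤
        LinearMap.ker (LinearMap.proj (R := ZMod 2) (φ := fun _ => ZMod 2) j) :=
      Submodule.span_le.2 fun v hv => congrFun e ⟨v, hv⟩
    exact hi (this (h2 ▸ Submodule.subset_span (Set.mem_range_self i)))
  · exact (Finset.card_le_card fun j hj => Finset.mem_filter.2 ⟨Finset.mem_univ _, hD j hj⟩).trans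
      (h3 i.1 i.2)
  · have q1 : q ≠ 0 := norm_pos_iff.1 q0
    refine mul_left_cancel₀ (pow_ne_zero (Module.finrank (ZMod 2) (Submodule.span (ZMod 2)
      (Set.range (fun j : Fin n => fun i : Fin m => A i j)))) q1) ?_
    rw [mul_zero, ← hq, Pool.Agent.H.MP_e19463_co.Z, Finset.powerset_univ, Finset.mul_sum]
    refine Finset.sum_congr rfl fun X _ => ?_
    rw [bot_sup_eq, ← r, pow_sub₀ _ q1
      (Submodule.finrank_mono (Submodule.span_mono (Set.image_subset_range _ _))), inv_pow]
    ring

end Pool.Agent.S11991
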