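import Pool.Statements.S11995
import Pool.Agent.H.MP_e19d8e_co.B

set_option autoImplicit false
open Pool Pool.MP_e19d8e_co

namespace Pool.Agent.S11995

theorem result :
    ∀ (C : ∀ (V : Type), SimpleGraph V → Prop),
      (∀ (V : Type) (X : SimpleGraph V), C V X →
        ∀ (U : Type) (Y : SimpleGraph U),
          (∃ (W : Type) (Z : SimpleGraph W) (f : V → W),
            (∀ a b : W, Z.Adj a b ↔ (a ≠ b ∧ ∃ x y : V, X.Adj x y ∧ f x = a ∧ f y = b)) ∧
            (∀ w : W, (X.induce (f ⁻¹' {w})).Connected) ∧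
            ∃ g : U → W, Function.Injective g ∧ ∀ a b : U, Y.Adj a b → Z.Adj (g a) (g b)) →
          C U Y) →
      (∀ (G : Type) [Group G], ∃ (V : Type) (X : SimpleGraph V), C V X ∧ Nonempty (G ≃* (X ≃g X))) →
      ∀ (V : Type) (X : SimpleGraph V), C V X :=
  Pool.Agent.H.MP_e19d8e_co.main

end Pool.Agent.S11995
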