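import Pool.Statements.S11998
-- import your own Pool.Agent.* helpers here

set_option autoImplicit false
open Pool Pool.MP_e1ba52_co

namespace Pool.Agent.S11998

/-- A critical set of size 16 > 15 in the cyclic latin square of order 6. -/
def S : Finset (Fin 6 × Fin 6) := {(0,0), (0,1), (0,5), (1,0), (1,1), (1,2), (1,5), (2,0), (2,1), (2,4), (2,5), (4,1), (4,2), (4,5), (5,1), (5,2)}

theorem S_card : S.card = 16 := by decide +kernel

theorem pick0 : ∀ x : Fin 6, x ≠ 1 → x ≠ 2 → x ≠ 3 → x ≠ 4 → x ≠ 5 → x = 0 := by decide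
theorem pick1 : ∀ x : Fin 6, x ≠ 0 → x ≠ 2 → x ≠ 3 → x ≠ 4 → x ≠ 5 → x = 1 := by decide
theorem pick2 : ∀ x : Fin 6, x ≠ 0 → x ≠ 1 → x ≠ 3 → x ≠ 4 → x ≠ 5 → x = 2 := by decide
theorem pick3 : ∀ x : Fin 6, x ≠ 0 → x ≠ 1 → x ≠ 2 → x ≠ 4 → x ≠ 5 → x = 3 := by decide
theorem pick4 : ∀ x : Fin 6, x ≠ 0 → x ≠ 1 → x ≠ 2 → x ≠ 3 → x ≠ 5 → x = 4 := by decide
theorem pick5 : ∀ x : Fin 6, x ≠ 0 → x ≠ 1 → x ≠ 2 → x ≠ 3 → x ≠ 4 → x = 5 := by decide

theorem uniq (M : Fin 6 → Fin 6 → Fin 6) (hr : ∀ i, Function.Injective (M i))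
    (hc : ∀ j, Function.Injective (fun i => M i j)) (hS : ∀ c ∈ S, M c.1 c.2 = c.1 + c.2) :
    M = fun i j => i + j := by
  have R : ∀ {i j k w : Fin 6}, M i k = w → j ≠ k → M i j ≠ w :=
    fun h hne h2 => hne (hr _ (h2.trans h.symm))
  have C : ∀ {i j k w : Fin 6}, M k j = w → i ≠ k → M i j ≠ w :=
    fun h hne h2 => hne (hc _ (h2.trans h.symm))
  have h00 : M 0 0 = 0 := hS (0,0) (by decide)
  have h01 : M 0 1 = 1 := hS (0,1) (by decide)
  have h05 : M 0 5 = 5 := hS (0,5) (by decide)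
  have h10 : M 1 0 = 1 := hS (1,0) (by decide)
  have h11 : M 1 1 = 2 := hS (1,1) (by decide)
  have h12 : M 1 2 = 3 := hS (1,2) (by decide)
  have h15 : M 1 5 = 0 := hS (1,5) (by decide)
  have h20 : M 2 0 = 2 := hS (2,0) (by decide)
  have h21 : M 2 1 = 3 := hS (2,1) (by decide)
  have h24 : M 2 4 = 0 := hS (2,4) (by decide)
  have h25 : M 2 5 = 1 := hS (2,5) (by decide)
  have h41 : M 4 1 = 5 := hS (4,1) (by decide)
  have h42 : M 4 2 = 0 := hS (4,2) (by decide)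
  have h45 : M 4 5 = 3 := hS (4,5) (by decide)
  have h51 : M 5 1 = 0 := hS (5,1) (by decide)
  have h52 : M 5 2 = 1 := hS (5,2) (by decide)
  have h31 : M 3 1 = 4 := pick4 _ (C h51 (by decide)) (C h01 (by decide)) (C h11 (by decide)) (C h21 (by decide)) (C h41 (by decide))
  have h35 : M 3 5 = 2 := pick2 _ (C h15 (by decide)) (C h25 (by decide)) (C h45 (by decide)) (R h31 (by decide)) (C h05 (by decide))
  have h40 : M 4 0 = 4 := pick4 _ (R h42 (by decide)) (C h10 (by decide)) (C h20 (by decide)) (R h45 (by decide)) (R h41 (by decide))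
  have h55 : M 5 5 = 4 := pick4 _ (C h15 (by decide)) (C h25 (by decide)) (C h35 (by decide)) (C h45 (by decide)) (C h05 (by decide))
  have h32 : M 3 2 = 5 := pick5 _ (C h42 (by decide)) (C h52 (by decide)) (R h35 (by decide)) (C h12 (by decide)) (R h31 (by decide))
  have h22 : M 2 2 = 4 := pick4 _ (C h42 (by decide)) (C h52 (by decide)) (R h20 (by decide)) (C h12 (by decide)) (C h32 (by decide))
  have h23 : M 2 3 = 5 := pick5 _ (R h24 (by decide)) (R h25 (by decide)) (R h20 (by decide)) (R h21 (by decide)) (R h22 (by decide))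
  have h30 : M 3 0 = 3 := pick3 _ (C h00 (by decide)) (C h10 (by decide)) (R h35 (by decide)) (C h40 (by decide)) (R h32 (by decide))
  have h34 : M 3 4 = 1 := pick1 _ (C h24 (by decide)) (R h35 (by decide)) (R h30 (by decide)) (R h31 (by decide)) (R h32 (by decide))
  have h44 : M 4 4 = 2 := pick2 _ (C h24 (by decide)) (C h34 (by decide)) (R h45 (by decide)) (R h40 (by decide)) (R h41 (by decide))
  have h50 : M 5 0 = 5 := pick5 _ (R h51 (by decide)) (R h52 (by decide)) (C h20 (by decide)) (C h30 (by decide)) (R h55 (by decide))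
  have h54 : M 5 4 = 3 := pick3 _ (C h24 (by decide)) (C h34 (by decide)) (C h44 (by decide)) (R h55 (by decide)) (R h50 (by decide))
  have h02 : M 0 2 = 2 := pick2 _ (C h42 (by decide)) (C h52 (by decide)) (C h12 (by decide)) (C h22 (by decide)) (R h05 (by decide))
  have h04 : M 0 4 = 4 := pick4 _ (C h24 (by decide)) (C h34 (by decide)) (C h44 (by decide)) (C h54 (by decide)) (R h05 (by decide))
  have h13 : M 1 3 = 4 := pick4 _ (R h15 (by decide)) (R h10 (by decide)) (R h11 (by decide)) (R h12 (by decide)) (C h23 (by decide))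
  have h14 : M 1 4 = 5 := pick5 _ (R h15 (by decide)) (C h34 (by decide)) (C h44 (by decide)) (C h54 (by decide)) (R h13 (by decide))
  have h33 : M 3 3 = 0 := pick0 _ (R h34 (by decide)) (R h35 (by decide)) (R h30 (by decide)) (C h13 (by decide)) (C h23 (by decide))
  have h43 : M 4 3 = 1 := pick1 _ (C h33 (by decide)) (R h44 (by decide)) (R h45 (by decide)) (C h13 (by decide)) (C h23 (by decide))
  have h53 : M 5 3 = 2 := pick2 _ (C h33 (by decide)) (C h43 (by decide)) (R h54 (by decide)) (R h55 (by decide)) (C h23 (by decide))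
  have h03 : M 0 3 = 3 := pick3 _ (C h33 (by decide)) (C h43 (by decide)) (C h53 (by decide)) (R h04 (by decide)) (R h05 (by decide))
  funext i j
  fin_cases i <;> fin_cases j
  · exact h00
  · exact h01
  · exact h02
  · exact h03
  · exact h04
  · exact h05
  · exact h10
  · exact h11
  · exact h12
  · exact h13
  · exact h14
  · exact h15
  · exact h20
  · exact h21
  · exact h22
  · exact h23
  · exact h24
  · exact h25
  · exact h30
  · exact h31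
  · exact h32
  · exact h33
  · exact h34
  · exact h35
  · exact h40
  · exact h41
  · exact h42
  · exact h43
  · exact h44
  · exact h45
  · exact h50
  · exact h51
  · exact h52
  · exact h53
  · exact h54
  · exact h55

def A0 : Fin 6 → Fin 6 → Fin 6 := ![![3, 1, 2, 0, 4, 5], ![1, 2, 3, 4, 5, 0], ![2, 3, 4, 5, 0, 1], ![0, 4, 5, 1, 3, 2], ![4, 5, 0, 2, 1, 3], ![5, 0, 1, 3, 2, 4]]
def A1 : Fin 6 → Fin 6 → Fin 6 := ![![0, 4, 2, 1, 3, 5], ![1, 2, 3, 4, 5, 0], ![2, 3, 4, 5, 0, 1], ![3, 1, 5, 0, 2, 4], ![4, 5, 0, 2, 1, 3], ![5, 0, 1, 3, 4, 2]]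
def A2 : Fin 6 → Fin 6 → Fin 6 := ![![0, 1, 5, 2, 3, 4], ![1, 2, 3, 4, 5, 0], ![2, 3, 4, 5, 0, 1], ![3, 4, 2, 0, 1, 5], ![4, 5, 0, 1, 2, 3], ![5, 0, 1, 3, 4, 2]]
def A3 : Fin 6 → Fin 6 → Fin 6 := ![![0, 1, 2, 3, 4, 5], ![4, 2, 3, 1, 5, 0], ![2, 3, 4, 5, 0, 1], ![3, 4, 5, 0, 1, 2], ![1, 5, 0, 4, 2, 3], ![5, 0, 1, 2, 3, 4]]
def A4 : Fin 6 → Fin 6 → Fin 6 := ![![0, 1, 2, 3, 4, 5], ![1, 4, 3, 2, 5, 0], ![2, 3, 4, 5, 0, 1], ![3, 2, 5, 0, 1, 4], ![4, 5, 0, 1, 2, 3], ![5, 0, 1, 4, 3, 2]]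
def A5 : Fin 6 → Fin 6 → Fin 6 := ![![0, 1, 2, 3, 4, 5], ![1, 2, 5, 4, 3, 0], ![2, 3, 4, 5, 0, 1], ![5, 4, 3, 0, 1, 2], ![4, 5, 0, 1, 2, 3], ![3, 0, 1, 2, 5, 4]]
def A6 : Fin 6 → Fin 6 → Fin 6 := ![![0, 1, 2, 3, 4, 5], ![1, 2, 3, 0, 5, 4], ![2, 3, 4, 5, 0, 1], ![3, 4, 5, 1, 2, 0], ![4, 5, 0, 2, 1, 3], ![5, 0, 1, 4, 3, 2]]
def A7 : Fin 6 → Fin 6 → Fin 6 := ![![0, 1, 2, 3, 4, 5], ![1, 2, 3, 4, 5, 0], ![5, 3, 4, 2, 0, 1], ![3, 4, 5, 0, 1, 2], ![4, 5, 0, 1, 2, 3], ![2, 0, 1, 5, 3, 4]]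
def A8 : Fin 6 → Fin 6 → Fin 6 := ![![0, 1, 2, 4, 3, 5], ![1, 2, 3, 5, 4, 0], ![2, 4, 5, 3, 0, 1], ![5, 3, 4, 0, 1, 2], ![4, 5, 0, 1, 2, 3], ![3, 0, 1, 2, 5, 4]]
def A9 : Fin 6 → Fin 6 → Fin 6 := ![![0, 1, 2, 4, 3, 5], ![1, 2, 3, 5, 4, 0], ![2, 3, 4, 0, 5, 1], ![3, 4, 5, 1, 0, 2], ![4, 5, 0, 2, 1, 3], ![5, 0, 1, 3, 2, 4]]
def A10 : Fin 6 → Fin 6 → Fin 6 := ![![0, 1, 4, 3, 2, 5], ![1, 2, 3, 4, 5, 0], ![2, 3, 5, 1, 0, 4], ![5, 4, 2, 0, 3, 1], ![4, 5, 0, 2, 1, 3], ![3, 0, 1, 5, 4, 2]]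
def A11 : Fin 6 → Fin 6 → Fin 6 := ![![0, 1, 4, 2, 3, 5], ![1, 2, 3, 5, 4, 0], ![2, 3, 5, 4, 0, 1], ![3, 5, 2, 0, 1, 4], ![5, 4, 0, 1, 2, 3], ![4, 0, 1, 3, 5, 2]]
def A12 : Fin 6 → Fin 6 → Fin 6 := ![![0, 1, 4, 2, 3, 5], ![1, 2, 3, 5, 4, 0], ![2, 3, 5, 4, 0, 1], ![3, 4, 0, 1, 5, 2], ![4, 5, 2, 0, 1, 3], ![5, 0, 1, 3, 2, 4]]
def A13 : Fin 6 → Fin 6 → Fin 6 := ![![0, 1, 4, 2, 3, 5], ![1, 2, 3, 5, 4, 0], ![2, 3, 5, 4, 0, 1], ![5, 4, 2, 0, 1, 3], ![3, 5, 0, 1, 2, 4], ![4, 0, 1, 3, 5, 2]]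
def A14 : Fin 6 → Fin 6 → Fin 6 := ![![0, 1, 2, 3, 4, 5], ![1, 2, 3, 4, 5, 0], ![2, 3, 4, 5, 0, 1], ![3, 0, 5, 1, 2, 4], ![4, 5, 0, 2, 1, 3], ![5, 4, 1, 0, 3, 2]]
def A15 : Fin 6 → Fin 6 → Fin 6 := ![![0, 1, 2, 3, 4, 5], ![1, 2, 3, 4, 5, 0], ![2, 3, 4, 5, 0, 1], ![5, 4, 1, 0, 3, 2], ![4, 5, 0, 1, 2, 3], ![3, 0, 5, 2, 1, 4]]

def Good (c : Fin 6 × Fin 6) (M : Fin 6 → Fin 6 → Fin 6) : Prop :=
  (∀ i j k, M i j = M i k → j = k) ∧ (∀ j i k, M i j = M k j → i = k) ∧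
    (∀ d ∈ S.erase c, M d.1 d.2 = d.1 + d.2) ∧ M c.1 c.2 ≠ c.1 + c.2

instance (c : Fin 6 × Fin 6) (M : Fin 6 → Fin 6 → Fin 6) : Decidable (Good c M) := by
  unfold Good; infer_instance

theorem of_good {c : Fin 6 × Fin 6} {M : Fin 6 → Fin 6 → Fin 6} (h : Good c M) :
    ∃ M : Fin 6 → Fin 6 → Fin 6,
      (∀ i, Function.Injective (M i)) ∧
      (∀ j, Function.Injective (fun i => M i j)) ∧
      (∀ d ∈ S.erase c, M d.1 d.2 = d.1 + d.2) ∧
      M ≠ fun i j => i + j :=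
  ⟨M, fun i j k => h.1 i j k, fun j i k => h.2.1 j i k, h.2.2.1,
    fun he => h.2.2.2 (by rw [he])⟩

theorem g0 : Good (0,0) A0 := by decide +kernel
theorem g1 : Good (0,1) A1 := by decide +kernel
theorem g2 : Good (0,5) A2 := by decide +kernel
theorem g3 : Good (1,0) A3 := by decide +kernel
theorem g4 : Good (1,1) A4 := by decide +kernel
theorem g5 : Good (1,2) A5 := by decide +kernel
theorem g6 : Good (1,5) A6 := by decide +kernel
theorem g7 : Good (2,0) A7 := by decide +kernel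
theorem g8 : Good (2,1) A8 := by decide +kernel
theorem g9 : Good (2,4) A9 := by decide +kernel
theorem g10 : Good (2,5) A10 := by decide +kernel
theorem g11 : Good (4,1) A11 := by decide +kernel
theorem g12 : Good (4,2) A12 := by decide +kernel
theorem g13 : Good (4,5) A13 := by decide +kernel
theorem g14 : Good (5,1) A14 := by decide +kernel
theorem g15 : Good (5,2) A15 := by decide +kernel

theorem crit : ∀ c ∈ S, ∃ M : Fin 6 → Fin 6 → Fin 6,
      (∀ i, Function.Injective (M i)) ∧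
      (∀ j, Function.Injective (fun i => M i j)) ∧
      (∀ d ∈ S.erase c, M d.1 d.2 = d.1 + d.2) ∧
      M ≠ fun i j => i + j := by
  intro c hc
  simp only [S, Finset.mem_insert, Finset.mem_singleton] at hc
  rcases hc with rfl | rfl | rfl | rfl | rfl | rfl | rfl | rfl | rfl | rfl | rfl | rfl | rfl | rfl | rfl | rfl
  · exact of_good g0
  · exact of_good g1
  · exact of_good g2
  · exact of_good g3
  · exact of_good g4
  · exact of_good g5
  · exact of_good g6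
  · exact of_good g7
  · exact of_good g8
  · exact of_good g9
  · exact of_good g10
  · exact of_good g11
  · exact of_good g12
  · exact of_good g13
  · exact of_good g14
  · exact of_good g15

theorem result :
    ¬ (∀ n : ℕ, 1 ≤ n →
      IsGreatest
        {k : ℕ | ∃ S : Finset (Fin n × Fin n),
          (∀ M : Fin n → Fin n → Fin n,
              (∀ i, Function.Injective (M i)) →
              (∀ j, Function.Injective (fun i => M i j)) →
              (∀ c ∈ S, M c.1 c.2 = c.1 + c.2) →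
              M = fun i j => i + j) ∧
          (∀ c ∈ S, ∃ M : Fin n → Fin n → Fin n,
              (∀ i, Function.Injective (M i)) ∧
              (∀ j, Function.Injective (fun i => M i j)) ∧
              (∀ d ∈ S.erase c, M d.1 d.2 = d.1 + d.2) ∧
              M ≠ fun i j => i + j) ∧
          S.card = k}
        (n * (n - 1) / 2)) := by
  intro h
  have h6 := (h 6 (by norm_num)).2 ⟨S, uniq, crit, S_card⟩
  norm_num at h6

end Pool.Agent.S11998
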