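import Pool.Statements.S12003
import Pool.Agent.H.MP_e1d64d_co.B

set_option autoImplicit false
open Pool Pool.MP_e1d64d_co

namespace Pool.Agent.S12003

theorem result :
    ∃ c : ℝ, 0 < c ∧ ∃ d₀ : ℝ, ∀ (V : Type) [Fintype V] [DecidableEq V] (G : SimpleGraph V),
      (2 * (G.edgeSet.ncard : ℝ)) / (Fintype.card V : ℝ) ≥ d₀ →
      ∀ t : ℕ,
        (∀ S : Finset V, S.Nonempty →
          5 * ((2 * ({e ∈ G.edgeSet | ∀ v ∈ e, v ∈ S}.ncard : ℝ)) / (S.card : ℝ))
            ≥ (2 * (G.edgeSet.ncard : ℝ)) / (Fintype.card V : ℝ) →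
          t ≤ S.card) →
        ((Set.ncard {U : Finset V | ∃ u : V, ∃ p : G.Walk u u,
            p.IsCycle ∧ p.support.toFinset = U} : ℕ) : ℝ)
          ≥ (Fintype.card V : ℝ) * (2 : ℝ) ^ (c * (t : ℝ)) := by
  open Pool.Agent.H.MP_e1d64d_co Classical in
  refine ⟨1 / 8, by norm_num, 1280, fun V _ inst G hd t ht => ?_⟩
  obtain rfl : inst = fun a b => Classical.propDecidable (a = b) := Subsingleton.elim _ _
  have e0 := D_eq G Finset.univ
  simp only [Finset.mem_univ, implies_true, Set.sep_true] at e0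
  simp only [D_eq] at ht
  rw [e0] at hd ht
  have hn : (0 : ℝ) < Fintype.card V := by
    by_contra k
    have : (Fintype.card V : ℝ) = 0 := le_antisymm (not_lt.1 k) (by positivity)
    rw [this, div_zero] at hd
    norm_num at hd
  obtain ⟨d, hdd⟩ : ∃ d : ℝ, d = D G Finset.univ / Fintype.card V := ⟨_, rfl⟩
  rw [← hdd] at hd ht
  have h := total G d (max 2 (t / 3)) (le_max_left _ _) (by linarith) (fun S hS hc => by
    have p : (0 : ℝ) < S.card := by exact_mod_cast hS.card_pos
    by_cases k : S.card < t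
    · by_contra j
      refine absurd (ht S hS ?_) (by omega)
      rw [ge_iff_le, ← mul_div_assoc, le_div_iff₀ p]
      exact not_lt.1 j
    · have a1 : D G S ≤ S.card * S.card :=
        (Finset.card_filter_le _ _).trans (Finset.card_product _ _).le
      have a2 : (D G S : ℝ) ≤ S.card * S.card := by exact_mod_cast a1
      have a3 : (S.card : ℝ) ≤ 6 := by exact_mod_cast (by omega)
      nlinarith)
  have h2 := Finset.sum_le_card_nsmul (Hs G (max 2 (t / 3)))
    (fun U => (U.card : ℝ) ^ 2 / 2 ^ U.card) (64 / 2 ^ (1 / 8 * (t : ℝ))) fun U hU => num _ _ (by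
      have := (Finset.mem_filter.1 hU).2.1
      exact_mod_cast (by omega))
  have h3 : (Hs G (max 2 (t / 3))).card ≤ Set.ncard {U : Finset V | ∃ u : V, ∃ p : G.Walk u u,
      p.IsCycle ∧ p.support.toFinset = U} := by
    rw [← Set.ncard_coe_finset]
    exact Set.ncard_le_ncard fun U hU => (Finset.mem_filter.1 hU).2.2
  refine le_trans ?_ (Nat.cast_le.2 h3)
  rw [eq_div_iff hn.ne'] at hdd
  rw [← hdd] at h
  rw [nsmul_eq_mul, ← mul_div_assoc, le_div_iff₀ (by positivity)] at h2
  have p : (0 : ℝ) < 2 ^ (1 / 8 * (t : ℝ)) := by positivity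
  generalize (2 : ℝ) ^ (1 / 8 * (t : ℝ)) = y at *
  generalize ∑ U ∈ Hs G (max 2 (t / 3)), (U.card : ℝ) ^ 2 / 2 ^ U.card = s at *
  have h4 : 64 * (Fintype.card V : ℝ) ≤ s := by nlinarith
  nlinarith

end Pool.Agent.S12003
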