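import Pool.Statements.S12020
import Pool.Agent.H.MP_e25938_co.D

set_option autoImplicit false
open Pool Pool.MP_e25938_co

namespace Pool.Agent.S12020

/-- The negation of the preceding statement: There is a positive integer c such that for every finite simple graph with adjacency matrix A and smallest eigenvalue at least −3, with k the floor of that smallest eigenvalue, c(A − kI) equals N Nᵀ for some integer matrix N. -/
theorem result :
    ¬ (∃ c : ℕ, 0 < c ∧
      ∀ (n : ℕ) (G : SimpleGraph (Fin n)) [DecidableRel G.Adj],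
        (G.adjMatrix ℝ + (3 : ℝ) • (1 : Matrix (Fin n) (Fin n) ℝ)).PosSemidef →
        ∀ k : ℤ,
          (G.adjMatrix ℝ - (k : ℝ) • (1 : Matrix (Fin n) (Fin n) ℝ)).PosSemidef →
          ¬ (G.adjMatrix ℝ - ((k : ℝ) + 1) • (1 : Matrix (Fin n) (Fin n) ℝ)).PosSemidef →
          ∃ (m : ℕ) (N : Matrix (Fin n) (Fin m) ℤ),
            (c : ℤ) • (G.adjMatrix ℤ - k • (1 : Matrix (Fin n) (Fin n) ℤ)) = N * N.transpose) := by
  rintro ⟨c, hc, h⟩
  obtain ⟨L, hL⟩ := Pool.Agent.H.MP_e25938_co.final c hc
  let e := Fintype.equivFin (Fin (L + 1) × Fin 8)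
  let G := Pool.Agent.H.MP_e25938_co.Gr L
  have s : ∀ (R : Type) [CommRing R] (t : R), (G.comap e.symm).adjMatrix R + t • 1 =
      (G.adjMatrix R + t • (1 : Matrix _ _ R)).submatrix e.symm e.symm := fun R _ t => by
    ext i j
    simp [SimpleGraph.adjMatrix_apply, Matrix.one_apply]
  have p : ((G.comap e.symm).adjMatrix ℝ + (3 : ℝ) • (1 : Matrix _ _ ℝ)).PosSemidef := by
    rw [s]
    exact (Pool.Agent.H.MP_e25938_co.psd3 L).submatrix _
  obtain ⟨m, N, hN⟩ := h _ (G.comap e.symm) p (-3) (by
    rw [sub_eq_add_neg, ← neg_smul]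
    convert p using 3
    norm_num) fun q => Pool.Agent.H.MP_e25938_co.npsd L (by
    rw [sub_eq_add_neg, ← neg_smul, s] at q
    convert q.submatrix e using 1
    ext i j
    norm_num [G])
  refine hL m (N.submatrix e id) ?_
  rw [sub_eq_add_neg, ← neg_smul, s, neg_neg] at hN
  ext i j
  simpa [Matrix.mul_apply] using congrFun (congrFun hN (e i)) (e j)

end Pool.Agent.S12020
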