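import Pool.Statements.S12030

set_option autoImplicit false
open Pool Pool.MP_e2957e_co

namespace Pool.Agent.S12030

open Finset Equiv

def W {n : ℕ} (Q : Finset (Fin n × Fin n)) : Finset (Perm (Fin n)) :=
  univ.filter fun σ => ∀ p ∈ Q, σ p.1 = p.2

theorem W_card {n : ℕ} (Q : Finset (Fin n × Fin n)) (τ : Perm (Fin n)) (h : τ ∈ W Q) :
    (W Q).card = (n - Q.card).factorial := by
  classical
  have hτ : ∀ p ∈ Q, τ p.1 = p.2 := (mem_filter.1 h).2
  have h1 : (Q.image Prod.fst).card = Q.card := card_image_of_injOn fun p hp q hq e =>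
    Prod.ext e (by rw [← hτ p hp, ← hτ q hq, e])
  have h2 := Fintype.card_congr (Perm.subtypeEquivSubtypePerm fun x => x ∉ Q.image Prod.fst)
  rw [Fintype.card_perm, Fintype.card_subtype_compl, Fintype.card_fin, Fintype.card_coe, h1,
    Fintype.card_subtype] at h2
  rw [h2]
  refine card_bij (fun σ _ => τ⁻¹ * σ) (fun σ hσ => ?_) (fun a _ b _ e => by simpa using e)
    fun σ hσ => ⟨τ * σ, ?_, by simp⟩
  · simp only [mem_filter, mem_univ, true_and, not_not, mem_image]
    rintro _ ⟨p, hp, rfl⟩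
    rw [Perm.mul_apply, (mem_filter.1 hσ).2 p hp, ← hτ p hp]
    simp
  · simp only [mem_filter, mem_univ, true_and, not_not, mem_image] at hσ
    refine mem_filter.2 ⟨mem_univ _, fun p hp => ?_⟩
    rw [Perm.mul_apply, hσ _ ⟨p, hp, rfl⟩, hτ p hp]

theorem W_le {n : ℕ} (Q : Finset (Fin n × Fin n)) : (W Q).card ≤ (n - Q.card).factorial := by
  rcases (W Q).eq_empty_or_nonempty with h | ⟨τ, h⟩
  · simp [h]
  · exact (W_card Q τ h).le

theorem W_one {n : ℕ} (a b : Fin n) : (W {(a, b)}).card = (n - 1).factorial := by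
  rw [W_card _ (swap a b) (by simp [W])]; simp

theorem W_two {n : ℕ} {a b c d : Fin n} (h1 : a ≠ c) (h2 : b ≠ d) :
    (W {(a, b), (c, d)}).card = (n - 2).factorial := by
  have h3 : b ≠ swap a b c := fun e => h1 ((swap a b).injective (by rw [← e]; simp))
  rw [W_card _ (swap (swap a b c) d * swap a b) (by simp [W, swap_apply_of_ne_of_ne h3 h2]),
    card_pair (by simp [h1])]

theorem low {n : ℕ} (v : Fin n) (Q : Finset (Fin n × Fin n)) (hQ : ∀ p ∈ Q, p.1 ≠ v ∧ p.2 ≠ v) :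
    2 * (Q.card * (n - 2).factorial) ≤
      2 * (univ.filter fun σ : Perm (Fin n) => σ v = v ∧ ∃ p ∈ Q, σ p.1 = p.2).card +
        Q.card * (Q.card * (n - 3).factorial) := by
  classical
  let f : Fin n × Fin n → Perm (Fin n) → ℕ := fun p σ => if σ v = v ∧ σ p.1 = p.2 then 1 else 0
  have h1 : ∀ σ : Perm (Fin n), 3 * ∑ p ∈ Q, f p σ ≤
      2 * (if σ v = v ∧ ∃ p ∈ Q, σ p.1 = p.2 then 1 else 0) + ∑ p ∈ Q, ∑ q ∈ Q, f p σ * f q σ := by
    intro σ
    rw [← sum_mul_sum]
    split_ifs with h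
    · generalize ∑ p ∈ Q, f p σ = N
      rcases N with _ | _ | _ | N <;> nlinarith
    · have : ∑ p ∈ Q, f p σ = 0 := sum_eq_zero fun p hp => if_neg fun hh => h ⟨hh.1, p, hp, hh.2⟩
      simp [this]
  have h2 : ∀ p ∈ Q, ∑ σ, f p σ = (n - 2).factorial := fun p hp => by
    rw [← W_two (hQ p hp).1.symm (hQ p hp).2.symm]
    simp [f, W]
  have h3 : ∀ p ∈ Q, ∑ q ∈ Q, ∑ σ, f p σ * f q σ ≤
      (n - 2).factorial + Q.card * (n - 3).factorial := fun p hp => by
    rw [← add_sum_erase _ _ hp, ← h2 p hp]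
    refine add_le_add (sum_le_sum fun σ _ => by simp only [f]; split_ifs <;> simp) ?_
    refine (sum_le_card_nsmul _ _ (n - 3).factorial fun q hq => ?_).trans
      (Nat.mul_le_mul_right _ card_erase_le)
    rw [mem_erase] at hq
    have e : ({(v, v), p, q} : Finset (Fin n × Fin n)).card = 3 := card_eq_three.2
      ⟨_, _, _, fun e => (hQ p hp).1 (congrArg Prod.fst e).symm,
        fun e => (hQ q hq.2).1 (congrArg Prod.fst e).symm, hq.1.symm, rfl⟩
    rw [← e]
    refine le_trans (le_of_eq ?_) (W_le _)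
    rw [W, card_filter]
    refine sum_congr rfl fun σ _ => ?_
    by_cases a : σ v = v <;> by_cases b : σ p.1 = p.2 <;> by_cases c : σ q.1 = q.2 <;>
      simp [f, a, b, c]
  have h4 := sum_le_sum fun σ (_ : σ ∈ univ) => h1 σ
  rw [← mul_sum, sum_comm, sum_congr rfl h2, sum_add_distrib, ← mul_sum, ← card_filter,
    sum_comm (s := univ), sum_const, smul_eq_mul] at h4
  have h5 : ∑ p ∈ Q, ∑ σ, ∑ q ∈ Q, f p σ * f q σ ≤
      Q.card * ((n - 2).factorial + Q.card * (n - 3).factorial) :=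
    sum_le_card_nsmul _ _ _ fun p hp => by rw [sum_comm]; exact h3 p hp
  rw [mul_add] at h5
  omega

def E {n : ℕ} (v : Fin n) : Finset (Fin n × Fin n) :=
  univ.filter fun p => p.1 < p.2 ∧ (p.1 = v ∨ p.2 = v)

theorem E_card {n : ℕ} (v : Fin n) : (E v).card ≤ n := by
  refine (card_le_card_of_injOn (t := univ) (fun p => if p.1 = v then p.2 else p.1)
    (fun _ _ => mem_univ _) ?_).trans (by simp)
  rintro ⟨a, b⟩ h ⟨c, d⟩ h' e
  simp only [E, coe_filter, mem_univ, true_and, Set.mem_ofPred_eq] at h h' e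
  grind

theorem result :
    ¬ (∃ C₁ : ℝ, 0 < C₁ ∧
      ∀ (n : ℕ), 1 ≤ n →
      ∀ (c : ℕ) (δ : ℝ), 0 ≤ δ →
      ∀ A : Finset (Equiv.Perm (Fin n)),
        A.card = c * Nat.factorial (n - 1) →
        ((((A ×ˢ (Finset.univ.filter (fun p : Fin n × Fin n => p.1 < p.2))).filter
            (fun x => x.1 * Equiv.swap x.2.1 x.2.2 ∉ A)).card : ℕ) : ℝ)
          ≤ (A.card : ℝ) * ((Nat.factorial n : ℝ) - (A.card : ℝ)) / (Nat.factorial (n - 1) : ℝ)
            + δ * (n : ℝ) * (A.card : ℝ) →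
        ∃ P : Finset (Fin n × Fin n), P.card = c ∧
          ((symmDiff A (Finset.univ.filter (fun σ : Equiv.Perm (Fin n) => ∃ p ∈ P, σ p.1 = p.2))).card : ℝ)
            ≤ C₁ * (c : ℝ) * δ * (Nat.factorial (n - 1) : ℝ)) := by
  classical
  rintro ⟨C, hC, H⟩
  obtain ⟨m, hm⟩ := exists_nat_ge (22 * C + 1)
  let T0 : Finset (Perm (Fin (2 * m + 4))) := W {(0, 0)}
  let T1 : Finset (Perm (Fin (2 * m + 4))) := W {(1, 1)}
  let X : Finset (Perm (Fin (2 * m + 4))) := W {(0, 1), (1, 0)}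
  have n01 : (0 : Fin (2 * m + 4)) ≠ 1 := by simp
  have c0 : T0.card = (2 * m + 3).factorial := W_one _ _
  have c1 : T1.card = (2 * m + 3).factorial := W_one _ _
  have cX : X.card = (2 * m + 2).factorial := W_two n01 n01.symm
  have cA : (T0 ∪ T1 ∪ X).card = 2 * (2 * m + 3).factorial := by
    have e : T0 ∩ T1 = W {(0, 0), (1, 1)} := by ext σ; simp [T0, T1, W]
    have h := card_union_add_card_inter T0 T1
    rw [e, W_two n01 n01, c0, c1] at h
    rw [card_union_of_disjoint, cX]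
    · exact h.trans (two_mul _).symm
    · refine disjoint_left.2 fun σ h1 h2 => ?_
      simp only [T0, T1, X, W, mem_union, mem_filter, mem_univ, true_and, mem_insert, mem_singleton,
        forall_eq_or_imp, forall_eq] at h1 h2
      rcases h1 with h1 | h1
      · exact n01 (h1.symm.trans h2.1)
      · exact n01 (h2.2.symm.trans h1)
  have f4 : (2 * m + 4).factorial = (2 * m + 4) * (2 * m + 3).factorial := rfl
  have f3 : (2 * m + 3).factorial = (2 * m + 3) * (2 * m + 2).factorial := rfl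
  have f2 : (2 * m + 2).factorial = (2 * m + 2) * (2 * m + 1).factorial := rfl
  have cA' : (T0 ∪ T1 ∪ X)ᶜ.card = (2 * m + 2) * (2 * m + 3).factorial := by
    rw [card_compl, cA, Fintype.card_perm, Fintype.card_fin, f4]
    exact Nat.sub_eq_of_eq_add (by ring)
  have hF : (0 : ℝ) < (2 * m + 1).factorial := by positivity
  obtain ⟨P, hP, h⟩ := H (2 * m + 4) (by omega) (2 * m + 2) (8 / ((2 * m + 4) * (2 * m + 2)))
    (by positivity) (T0 ∪ T1 ∪ X)ᶜ cA' (by
    have hs : ((T0 ∪ T1 ∪ X)ᶜ ×ˢ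
        (univ.filter (fun p : Fin (2 * m + 4) × Fin (2 * m + 4) => p.1 < p.2))).filter
        (fun x => x.1 * swap x.2.1 x.2.2 ∉ (T0 ∪ T1 ∪ X)ᶜ) ⊆
        (T0 ×ˢ E 0 ∪ T1 ×ˢ E 1 ∪ X ×ˢ E 0 ∪ X ×ˢ E 1).image
          fun x => (x.1 * swap x.2.1 x.2.2, x.2) := by
      rintro ⟨σ, i, j⟩ hx
      refine mem_image.2 ⟨(σ * swap i j, i, j), ?_, by simp [mul_assoc]⟩
      simp only [T0, T1, X, W, E, mem_union, mem_filter, mem_univ, true_and, mem_insert,
        mem_singleton, forall_eq_or_imp, forall_eq, mem_product, mem_compl, not_not,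
        Perm.mul_apply] at hx ⊢
      have a0 : ¬ (i = 0 ∨ j = 0) → swap i j 0 = 0 := fun h =>
        swap_apply_of_ne_of_ne (fun e => h (Or.inl e.symm)) fun e => h (Or.inr e.symm)
      have a1 : ¬ (i = 1 ∨ j = 1) → swap i j 1 = 1 := fun h =>
        swap_apply_of_ne_of_ne (fun e => h (Or.inl e.symm)) fun e => h (Or.inr e.symm)
      obtain ⟨⟨h1, h2⟩, (h3 | h3) | h3⟩ := hx
      · refine Or.inl (Or.inl (Or.inl ⟨h3, h2, by_contra fun b => h1 ?_⟩))
        exact Or.inl (Or.inl (by rwa [a0 b] at h3))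
      · refine Or.inl (Or.inl (Or.inr ⟨h3, h2, by_contra fun b => h1 ?_⟩))
        exact Or.inl (Or.inr (by rwa [a1 b] at h3))
      · by_cases b0 : i = 0 ∨ j = 0
        · exact Or.inl (Or.inr ⟨h3, h2, b0⟩)
        · refine Or.inr ⟨h3, h2, by_contra fun b => h1 ?_⟩
          exact Or.inr (by rwa [a0 b0, a1 b] at h3)
    have h1 := (card_le_card hs).trans (card_image_le.trans ((card_union_le _ _).trans
      (add_le_add ((card_union_le _ _).trans (add_le_add (card_union_le _ _) le_rfl)) le_rfl)))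
    simp only [card_product, c0, c1, cX] at h1
    have h2 := h1.trans (add_le_add (add_le_add (add_le_add (Nat.mul_le_mul_left _ (E_card _))
      (Nat.mul_le_mul_left _ (E_card _))) (Nat.mul_le_mul_left _ (E_card _)))
      (Nat.mul_le_mul_left _ (E_card _)))
    refine (Nat.cast_le.2 h2).trans ?_
    rw [cA', show 2 * m + 4 - 1 = 2 * m + 3 from rfl, f4, f3, f2]
    push_cast
    field_simp
    have : (0 : ℝ) ≤ m := by positivity
    nlinarith)
  have key : ∀ v : Fin (2 * m + 4), W {(v, v)} ⊆ T0 ∪ T1 ∪ X →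
      (P.filter fun p => p.1 ≠ v ∧ p.2 ≠ v).card < m := fun v hv => by
    by_contra hh
    obtain ⟨Q, hQ, hc⟩ := exists_subset_card_eq (not_lt.1 hh)
    have h1 := low v Q fun p hp => (mem_filter.1 (hQ hp)).2
    have h2 : (univ.filter fun σ : Perm (Fin (2 * m + 4)) => σ v = v ∧ ∃ p ∈ Q, σ p.1 = p.2) ⊆
        symmDiff (T0 ∪ T1 ∪ X)ᶜ (univ.filter (fun σ : Perm (Fin (2 * m + 4)) =>
          ∃ p ∈ P, σ p.1 = p.2)) := fun σ hσ => by
      obtain ⟨-, a, p, hp, b⟩ := mem_filter.1 hσ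
      exact mem_symmDiff.2 (Or.inr ⟨mem_filter.2 ⟨mem_univ _, p, (mem_filter.1 (hQ hp)).1, b⟩,
        fun hh => mem_compl.1 hh (hv (by simpa [W] using a))⟩)
    have h3 := (Nat.cast_le (α := ℝ).2 (card_le_card h2)).trans h
    have h4 := (Nat.cast_le (α := ℝ)).2 h1
    rw [hc, show 2 * m + 4 - 2 = 2 * m + 2 from rfl, show 2 * m + 4 - 3 = 2 * m + 1 from rfl,
      f2] at h4
    rw [show 2 * m + 4 - 1 = 2 * m + 3 from rfl, f3, f2] at h3
    push_cast at h3 h4
    have h5 : C * (2 * m + 2) * (8 / ((2 * m + 4) * (2 * m + 2))) *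
        ((2 * m + 3) * ((2 * m + 2) * ((2 * m + 1).factorial : ℝ))) ≤
        8 * C * (2 * m + 2) * (2 * m + 1).factorial := by
      field_simp
      linarith
    have h6 : 2 * (8 * C * (2 * m + 2)) + (m : ℝ) * m < 2 * (m * (2 * m + 2)) := by nlinarith
    nlinarith [mul_lt_mul_of_pos_right h6 hF]
  have k0 := key 0 (subset_union_left.trans subset_union_left)
  have k1 := key 1 (subset_union_right.trans subset_union_left)
  have hs : P ⊆ (P.filter fun p => p.1 ≠ 0 ∧ p.2 ≠ 0) ∪ (P.filter fun p => p.1 ≠ 1 ∧ p.2 ≠ 1) ∪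
      {(0, 1), (1, 0)} := by
    rintro ⟨a, b⟩ hp
    simp only [mem_union, mem_filter, hp, true_and, mem_insert, mem_singleton, Prod.mk.injEq]
    grind
  have := (card_le_card hs).trans ((card_union_le _ _).trans
    (add_le_add (card_union_le _ _) card_le_two))
  omega

end Pool.Agent.S12030
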