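import Pool.Statements.S12060
import Pool.Agent.H.MP_e3c312_co.B

set_option autoImplicit false
open Pool Pool.MP_e3c312_co
open Pool.Agent.H.MP_e3c312_co

namespace Pool.Agent.S12060

theorem result :
    ¬ (∀ (d : ℕ) (V : Type) [Fintype V] (G : SimpleGraph V) (p : V → EuclideanSpace ℝ (Fin d))
    (Γ : Subgroup (EuclideanSpace ℝ (Fin d) ≃ᵢ EuclideanSpace ℝ (Fin d))) [Finite Γ]
    (θ : Γ →* Equiv.Perm V),
    (∀ γ : Γ, ∀ u v : V, G.Adj u v ↔ G.Adj (θ γ u) (θ γ v)) →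
    (∀ γ : Γ, ∀ i : V,
      (γ : EuclideanSpace ℝ (Fin d) ≃ᵢ EuclideanSpace ℝ (Fin d)) (p i) = p (θ γ i)) →
    ∀ m : ℝ → V → EuclideanSpace ℝ (Fin d),
      ContinuousOn m (Set.Icc 0 1) → m 0 = p →
      (∀ t ∈ Set.Icc (0:ℝ) 1, ∀ i j : V, G.Adj i j → dist (m t i) (m t j) = dist (p i) (p j)) →
      (∀ i j : V, MonotoneOn (fun t => dist (m t i) (m t j)) (Set.Icc (0:ℝ) 1)) →
      (∃ t ∈ Set.Icc (0:ℝ) 1, ∃ i j : V, dist (m t i) (m t j) ≠ dist (p i) (p j)) →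
      Set.InjOn (fun t => Quot.mk (fun q q' : V → EuclideanSpace ℝ (Fin d) =>
          ∃ T : EuclideanSpace ℝ (Fin d) ≃ᵢ EuclideanSpace ℝ (Fin d), ∀ i, T (q i) = q' i) (m t))
        (Set.Icc (0:ℝ) 1) →
      (∃ O : Set (Quot (fun q q' : V → EuclideanSpace ℝ (Fin d) =>
          ∃ T : EuclideanSpace ℝ (Fin d) ≃ᵢ EuclideanSpace ℝ (Fin d), ∀ i, T (q i) = q' i)),
        IsOpen O ∧
        ∃ h : ↥(O ∩ {x : Quot (fun q q' : V → EuclideanSpace ℝ (Fin d) =>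
              ∃ T : EuclideanSpace ℝ (Fin d) ≃ᵢ EuclideanSpace ℝ (Fin d), ∀ i, T (q i) = q' i) |
              ∃ q : V → EuclideanSpace ℝ (Fin d),
                Quot.mk (fun q q' : V → EuclideanSpace ℝ (Fin d) =>
                  ∃ T : EuclideanSpace ℝ (Fin d) ≃ᵢ EuclideanSpace ℝ (Fin d), ∀ i, T (q i) = q' i) q = x ∧
                ∀ i j : V, G.Adj i j → dist (q i) (q j) = dist (p i) (p j)}) ≃ₜ ↥(Set.Ioo (0:ℝ) 1),
        ∃ a : Set.Ioo (0:ℝ) 1,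
          (h.symm a).1 = Quot.mk (fun q q' : V → EuclideanSpace ℝ (Fin d) =>
            ∃ T : EuclideanSpace ℝ (Fin d) ≃ᵢ EuclideanSpace ℝ (Fin d), ∀ i, T (q i) = q' i) p ∧
          ((∀ t ∈ Set.Ioc (0:ℝ) 1, ∃ b : Set.Ioo (0:ℝ) 1,
              (h.symm b).1 = Quot.mk (fun q q' : V → EuclideanSpace ℝ (Fin d) =>
                ∃ T : EuclideanSpace ℝ (Fin d) ≃ᵢ EuclideanSpace ℝ (Fin d), ∀ i, T (q i) = q' i) (m t) ∧
              (a : ℝ) < (b : ℝ)) ∨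
           (∀ t ∈ Set.Ioc (0:ℝ) 1, ∃ b : Set.Ioo (0:ℝ) 1,
              (h.symm b).1 = Quot.mk (fun q q' : V → EuclideanSpace ℝ (Fin d) =>
                ∃ T : EuclideanSpace ℝ (Fin d) ≃ᵢ EuclideanSpace ℝ (Fin d), ∀ i, T (q i) = q' i) (m t) ∧
              (b : ℝ) < (a : ℝ)))) →
      ∃ T : ℝ → (EuclideanSpace ℝ (Fin d) ≃ᵢ EuclideanSpace ℝ (Fin d)),
        (∀ x, T 0 x = x) ∧
        (∀ x, ContinuousOn (fun t => T t x) (Set.Icc (0:ℝ) 1)) ∧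
        ∀ t ∈ Set.Icc (0:ℝ) 1, ∀ γ : Γ, ∀ i : V,
          (γ : EuclideanSpace ℝ (Fin d) ≃ᵢ EuclideanSpace ℝ (Fin d)) (T t (m t i))
            = T t (m t (θ γ i))) := by
  intro H
  have h0 : path (0 / 2) = path 0 := by norm_num
  obtain ⟨T, -, -, hT⟩ := H 2 (Fin 4) G (path 0) Gam theta
    (fun g u v => by
      rcases theta_cases g with ⟨-, h⟩ | ⟨-, h⟩ <;> rw [h]
      · simp
      · revert u v; decide)
    (fun g i => by
      rcases theta_cases g with ⟨h', h⟩ | ⟨h', h⟩ <;> rw [h, h']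
      · simp
      · exact sym0 i)
    (fun t => path (t / 2))
    (path_cont.comp (f := fun t : ℝ => t / 2) (by fun_prop) fun t ht => abs_lt.1 (half ht))
    h0
    (fun t ht i j hij => edge (ok_s (half ht)) i j hij)
    mono
    ⟨1, ⟨zero_le_one, le_rfl⟩, 0, 2, moved⟩
    (fun t ht t' ht' h => by
      have h1 := phi_path (half ht)
      have h2 := phi_path (half ht')
      have h3 : Quot.mk R (path (t / 2)) = Quot.mk R (path (t' / 2)) := h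
      rw [h3, h2] at h1
      linarith)
    ⟨O, O_open, hom, ⟨1 / 2, by norm_num, by norm_num⟩, by rw [hom_symm]; norm_num,
      Or.inl fun t ht => ⟨⟨(t / 2 + 1) / 2, by linarith [ht.1], by linarith [ht.2]⟩, by
        rw [hom_symm]
        have : 2 * ((t / 2 + 1) / 2) - 1 = t / 2 := by ring
        simp only [this], by
        show (1 / 2 : ℝ) < (t / 2 + 1) / 2
        linarith [ht.1]⟩⟩
  have hg : theta ⟨gam, Or.inr rfl⟩ = tau := by
    rcases theta_cases ⟨gam, Or.inr rfl⟩ with ⟨h, -⟩ | ⟨-, h⟩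
    · exact absurd h gam_ne
    · exact h
  have a0 := hT 1 ⟨zero_le_one, le_rfl⟩ ⟨gam, Or.inr rfl⟩ 0
  have a2 := hT 1 ⟨zero_le_one, le_rfl⟩ ⟨gam, Or.inr rfl⟩ 2
  rw [hg] at a0 a2
  have t0 : tau 0 = 1 := by decide
  have t2 : tau 2 = 3 := by decide
  rw [t0] at a0
  rw [t2] at a2
  apply diag_ne
  rw [← (T 1).dist_eq (path (1 / 2) 1), ← a0, ← a2, IsometryEquiv.dist_eq, IsometryEquiv.dist_eq]

end Pool.Agent.S12060
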