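import Pool.Statements.S12071
import Pool.Agent.H.BS.L

set_option autoImplicit false
open Pool Pool.MP_e43eb1_co

namespace Pool.Agent.S12071

theorem result :
    ∀ r t k : ℕ, ∃ d n : ℕ, 0 < d ∧
      ∀ c : (Fin n → ℤ) → Fin k,
        ∃ u : Fin t → Fin n → ℤ,
          (∀ i i' : Fin t, i ≠ i' → ∀ j : Fin n, u i j = 0 ∨ u i' j = 0) ∧
          (∀ i : Fin t, ∑ j : Fin n, |u i j| = (d : ℤ)) ∧
          ∃ x : Fin n → ℤ, ∀ l : Fin t → ℤ, ∑ i : Fin t, |l i| ≤ (r : ℤ) →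
            c (x + ∑ i : Fin t, l i • u i) = c x := by
  intro r t k
  obtain ⟨d, n, hd, h⟩ := H.BS.box r t k
  refine ⟨d, n, hd, fun c => ?_⟩
  obtain ⟨u, h1, h2, x, h3⟩ := h c
  exact ⟨u, h1, h2, x, fun l hl => h3 l fun i => (Finset.single_le_sum (f := fun i => |l i|)
    (fun _ _ => abs_nonneg _) (Finset.mem_univ i)).trans hl⟩

end Pool.Agent.S12071
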