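import Pool.Statements.S12088
import Pool.Agent.H.MP_b6d645_co.Main

set_option autoImplicit false
open Pool Pool.MP_e4c5f9_co

namespace Pool.Agent.S12088

theorem result :
    ¬ (∀ (V : Type) [Fintype V] (G : SimpleGraph V),
      (∀ v : V, ∃ w : V, G.Adj v w) →
      (∀ s t : Finset V,
        (G.IsIndepSet (s : Set V) ∧ ∀ v : V, v ∉ s → ¬ G.IsIndepSet (insert v (s : Set V))) →
        (G.IsIndepSet (t : Set V) ∧ ∀ v : V, v ∉ t → ¬ G.IsIndepSet (insert v (t : Set V))) →
        s.card = t.card) →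
      (∃ s : Finset V, G.IsIndepSet (s : Set V) ∧
        (∀ v : V, v ∉ s → ¬ G.IsIndepSet (insert v (s : Set V))) ∧
        2 * s.card = Fintype.card V) →
      ∀ k : ℕ, 1 ≤ k →
        {s : Finset V | G.IsIndepSet (s : Set V) ∧ s.card = k - 1}.ncard *
          {s : Finset V | G.IsIndepSet (s : Set V) ∧ s.card = k + 1}.ncard ≤
          {s : Finset V | G.IsIndepSet (s : Set V) ∧ s.card = k}.ncard ^ 2) := by
  intro H
  obtain ⟨G, h1, h2, h3, h4⟩ := Pool.Agent.H.MP_b6d645_co.main
  have h := H (Fin 1690) G h1 (by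
    intro s t hs ht
    rw [h2 s hs.1 hs.2, h2 t ht.1 ht.2]) (by
    obtain ⟨s, hs⟩ := G.maximumIndepSet_exists
    have hm : ∀ v, v ∉ s → ¬ G.IsIndepSet (insert v (s : Set _)) := by
      intro v hv hi
      rw [← Finset.coe_insert] at hi
      have := hs.maximum _ hi
      rw [Finset.card_insert_of_notMem hv] at this
      omega
    refine ⟨s, hs.isIndepSet, hm, ?_⟩
    rw [h2 s hs.isIndepSet hm, Fintype.card_fin]) 444 (by norm_num)
  have e1 : 444 - 1 = 443 := rfl
  have e2 : 444 + 1 = 445 := rfl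
  rw [e1, e2] at h
  have := Nat.mul_lt_mul'' h3 h4
  rw [← sq] at this
  omega

end Pool.Agent.S12088
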