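import Pool.Statements.S12093
-- import your own Pool.Agent.* helpers here

set_option autoImplicit false
open Pool Pool.MP_e5126b_co

namespace Pool.Agent.S12093

open Finset

variable {G : Type} [Group G] [Fintype G] [DecidableEq G]

def S (C : Finset G) (g : G) : Finset G := C.filter (fun x => g * x⁻¹ * g ∈ C)

lemma sq_inj (h : Odd (Fintype.card G)) : Function.Injective (fun x : G => x ^ 2) := by
  have : (Nat.card G).Coprime 2 := by
    rw [Nat.card_eq_fintype_card]; exact Nat.coprime_two_right.2 h
  exact (powCoprime this).injective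

lemma sum_S (h : Odd (Fintype.card G)) (C : Finset G) :
    ∑ g, (S C g).card = C.card * C.card := by
  have h1 : ∀ x : G, (univ.filter (fun g => g * x⁻¹ * g ∈ C)).card = C.card := by
    intro x
    have hinj : Function.Injective (fun g : G => g * x⁻¹ * g) := by
      intro a b hab
      have : (x⁻¹ * a) ^ 2 = (x⁻¹ * b) ^ 2 := by
        simp only at hab
        rw [pow_two, pow_two, mul_assoc, mul_assoc, ← mul_assoc a, ← mul_assoc b, hab]
      exact mul_left_cancel (sq_inj h this)
    have hb : Function.Bijective (fun g : G => g * x⁻¹ * g) := Finite.injective_iff_bijective.1 hinj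
    apply card_bij (fun g _ => g * x⁻¹ * g)
    · intro a ha; exact (mem_filter.1 ha).2
    · intro a _ b _ hab; exact hinj hab
    · intro b hb'
      obtain ⟨a, rfl⟩ := hb.2 b
      exact ⟨a, mem_filter.2 ⟨mem_univ _, hb'⟩, rfl⟩
  unfold S
  simp_rw [card_filter]
  rw [sum_comm]
  simp_rw [← card_filter, h1]
  simp

lemma par (h : Odd (Fintype.card G)) (C : Finset G) (g : G) :
    ((S C g).card : ZMod 2) = if g ∈ C then 1 else 0 := by
  have key : ∑ x ∈ (S C g).erase g, (1 : ZMod 2) = 0 := by
    apply sum_involution (fun x _ => g * x⁻¹ * g)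
    · intro a _; rfl
    · intro a ha _ e
      apply (mem_erase.1 ha).1
      have : (a⁻¹ * g) ^ 2 = (1 : G) ^ 2 := by
        rw [pow_two, mul_assoc, ← mul_assoc g, e]; simp
      have h2 := sq_inj h this
      exact (inv_mul_eq_one.1 h2)
    · intro a ha
      rw [mem_erase] at ha ⊢
      constructor
      · intro e
        apply ha.1
        have : g * a⁻¹ = 1 := by simpa using e
        exact (mul_inv_eq_one.1 this).symm
      · have := ha.2
        unfold S at this ⊢
        rw [mem_filter] at this ⊢
        refine ⟨this.2, ?_⟩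
        have e : g * (g * a⁻¹ * g)⁻¹ * g = a := by group
        rw [e]; exact this.1
    · intro a _; group
  simp only [sum_const, nsmul_eq_mul, mul_one] at key
  by_cases hg : g ∈ C
  · have : g ∈ S C g := by unfold S; rw [mem_filter]; exact ⟨hg, by simpa using hg⟩
    rw [if_pos hg, ← card_erase_add_one this]; push_cast; rw [key]; simp
  · have : g ∉ S C g := by unfold S; rw [mem_filter]; exact fun h => hg h.1
    rw [if_neg hg, ← erase_eq_of_notMem this]; exact key


theorem result :
    ∀ (G : Type) [Group G] [Fintype G], Odd (Fintype.card G) →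
      ∀ r : ℕ, 1 < r → ∀ χ : G → Fin r,
        ∃ (A : Finset G) (g : G) (c : Fin r),
          (∀ a ∈ A, χ a = c) ∧
          (∀ x : G, x ∈ A ↔ g * x⁻¹ * g ∈ A) ∧
          (1 : ℝ) / ((r : ℝ) ^ 2) < (A.card : ℝ) / (Fintype.card G : ℝ) := by
  classical
  intro G _ _ hodd r hr χ
  have hn : 0 < Fintype.card G := Fintype.card_pos
  obtain ⟨c, hc⟩ : ∃ c : Fin r, Fintype.card G ≤ r * (univ.filter (fun x => χ x = c)).card := by
    by_contra hcon
    push Not at hcon
    have h1 : ∑ c : Fin r, (univ.filter (fun x => χ x = c)).card = Fintype.card G := by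
      rw [← card_eq_sum_card_fiberwise (f := χ) (s := univ) (t := univ) (fun _ _ => by simp)]
      rfl
    have h2 : ∑ c : Fin r, r * (univ.filter (fun x => χ x = c)).card <
        ∑ c : Fin r, Fintype.card G :=
      sum_lt_sum_of_nonempty ⟨⟨0, by omega⟩, mem_univ _⟩ (fun c _ => hcon c)
    rw [← mul_sum, h1] at h2
    simp at h2
  set C := univ.filter (fun x => χ x = c) with hC
  obtain ⟨g, hg⟩ : ∃ g : G, Fintype.card G < r * r * (S C g).card := by
    by_contra hcon
    push Not at hcon
    have h1 := sum_S hodd C
    have h2 : ∑ g : G, r * r * (S C g).card = r * r * (C.card * C.card) := by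
      rw [← mul_sum, h1]
    have h3 : Fintype.card G * Fintype.card G ≤ r * r * (C.card * C.card) := by
      calc _ ≤ (r * C.card) * (r * C.card) := Nat.mul_le_mul hc hc
        _ = _ := by ring
    have h4 : ∀ g : G, r * r * (S C g).card = Fintype.card G := by
      by_contra h5
      push Not at h5
      obtain ⟨g, hg⟩ := h5
      have : ∑ g : G, r * r * (S C g).card < ∑ g : G, Fintype.card G :=
        sum_lt_sum (fun g _ => hcon g) ⟨g, mem_univ _, lt_of_le_of_ne (hcon g) hg⟩
      rw [h2] at this
      simp only [sum_const, card_univ, smul_eq_mul] at this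
      omega
    have h5 : r * r * (C.card * C.card) = Fintype.card G * Fintype.card G := by
      rw [← h2]; simp_rw [h4]; simp
    have hne : C.Nonempty := by
      rw [← card_pos]; by_contra h0
      have : C.card = 0 := by omega
      rw [this] at hc; omega
    obtain ⟨a, ha⟩ := hne
    obtain ⟨b, hb⟩ : ∃ b, b ∉ C := by
      by_contra h0
      push Not at h0
      have : C = univ := eq_univ_of_forall h0
      rw [this, card_univ] at h5
      have : 1 < r * r := by nlinarith
      have h7 : 0 < Fintype.card G * Fintype.card G := Nat.mul_pos hn hn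
      nlinarith
    have h6 : (S C a).card = (S C b).card := by
      have := (h4 a).trans (h4 b).symm
      exact Nat.eq_of_mul_eq_mul_left (by positivity) this
    have p1 := par hodd C a
    have p2 := par hodd C b
    rw [if_pos ha] at p1
    rw [if_neg hb, ← h6, p1] at p2
    exact absurd p2 (by decide)
  refine ⟨S C g, g, c, ?_, ?_, ?_⟩
  · intro a ha
    unfold S at ha
    have := (mem_filter.1 ha).1
    rw [hC] at this
    exact (mem_filter.1 this).2
  · intro x
    unfold S
    have e : g * (g * x⁻¹ * g)⁻¹ * g = x := by group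
    simp only [mem_filter, e]
    exact and_comm
  · have hr' : (0 : ℝ) < r := by positivity
    rw [div_lt_div_iff₀ (by positivity) (by exact_mod_cast hn)]
    have : ((Fintype.card G : ℕ) : ℝ) < ((r * r * (S C g).card : ℕ) : ℝ) := by exact_mod_cast hg
    push_cast at this
    nlinarith

end Pool.Agent.S12093
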