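import Pool.Statements.S12102
import Pool.Agent.H.MP_e5f8e2_co.Real

set_option autoImplicit false
open Pool Pool.MP_e5f8e2_co

namespace Pool.Agent.S12102

open Finset Pool.Agent.H.MP_e5f8e2_co

section
variable (Z A I : Type)

/-- vertex set: single variables, two copies of the pair variables, clause vertices. -/
abbrev V := Z ⊕ A ⊕ A ⊕ (Z × I)

/-- subsets of the vertex set, as functions. -/
abbrev Om := (Z → Bool) × (A → Bool × Bool) × (Z × I → Bool)

variable {Z A I}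

def val (ω : Om Z A I) : V Z A I → Bool
  | .inl z => ω.1 z
  | .inr (.inl g) => (ω.2.1 g).1
  | .inr (.inr (.inl g)) => (ω.2.1 g).2
  | .inr (.inr (.inr c)) => ω.2.2 c

def rel (φ : Z × I → A) : V Z A I → V Z A I → Prop
  | .inr (.inr (.inr c)), v => v = .inl c.1 ∨ v = .inr (.inl (φ c)) ∨ v = .inr (.inr (.inl (φ c)))
  | _, .inr (.inr (.inr _)) => False
  | _, _ => True

def hit (b : Bool × Bool) : Prop := b.1 = true ∨ b.2 = true

instance : DecidablePred hit := fun b => inferInstanceAs (Decidable (b.1 = true ∨ b.2 = true))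

def Cl (φ : Z × I → A) (ω : Om Z A I) : Prop :=
  ∀ c, ω.2.2 c = true ∨ ω.1 c.1 = true ∨ hit (ω.2.1 (φ c))

def Dom (φ : Z × I → A) (ω : Om Z A I) : Prop :=
  ∀ v, val ω v = true ∨ ∃ u, val ω u = true ∧ (SimpleGraph.fromRel (rel φ)).Adj v u

theorem cl_of_dom {φ : Z × I → A} {ω : Om Z A I} (h : Dom φ ω) : Cl φ ω := by
  intro c
  rcases h (.inr (.inr (.inr c))) with h1 | ⟨u, hu, h1⟩
  · exact Or.inl h1
  · rw [SimpleGraph.fromRel_adj] at h1
    rcases h1.2 with h2 | h2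
    · rcases h2 with rfl | rfl | rfl
      · exact Or.inr (Or.inl hu)
      · exact Or.inr (Or.inr (Or.inl hu))
      · exact Or.inr (Or.inr (Or.inr hu))
    · rcases u with u | u | u | u
      · exact h2.elim
      · exact h2.elim
      · exact h2.elim
      · simp [rel] at h2

theorem dom_of_cl {φ : Z × I → A} {ω : Om Z A I} (h : Cl φ ω)
    (h0 : (∃ z, ω.1 z = true) ∨ ∃ g, hit (ω.2.1 g)) : Dom φ ω := by
  have h1 : ∃ u : V Z A I, val ω u = true ∧ ∀ c, u ≠ .inr (.inr (.inr c)) := by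
    rcases h0 with ⟨z, hz⟩ | ⟨g, hg | hg⟩
    · exact ⟨.inl z, hz, fun c => by simp⟩
    · exact ⟨.inr (.inl g), hg, fun c => by simp⟩
    · exact ⟨.inr (.inr (.inl g)), hg, fun c => by simp⟩
  obtain ⟨u, hu, hu2⟩ := h1
  intro v
  by_cases hv : ∃ c, v = .inr (.inr (.inr c))
  · obtain ⟨c, rfl⟩ := hv
    rcases h c with h2 | h2 | h2 | h2
    · exact Or.inl h2
    · exact Or.inr ⟨.inl c.1, h2, by simp [SimpleGraph.fromRel_adj, rel]⟩
    · exact Or.inr ⟨.inr (.inl (φ c)), h2, by simp [SimpleGraph.fromRel_adj, rel]⟩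
    · exact Or.inr ⟨.inr (.inr (.inl (φ c))), h2, by simp [SimpleGraph.fromRel_adj, rel]⟩
  · by_cases e : v = u
    · left; rw [e]; exact hu
    · right
      refine ⟨u, hu, (SimpleGraph.fromRel_adj _ _ _).mpr ⟨e, Or.inl ?_⟩⟩
      rcases v with v | v | v | v
      pick_goal 4
      · exact absurd ⟨v, rfl⟩ hv
      all_goals
        rcases u with u | u | u | u
        · trivial
        · trivial
        · trivial
        · exact absurd rfl (hu2 u)

variable [Fintype Z] [Fintype A] [Fintype I] [DecidableEq Z] [DecidableEq A] [DecidableEq I]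

def eqv : Om Z A I ≃ Finset (V Z A I) where
  toFun ω := univ.filter (fun v => val ω v = true)
  invFun S := (fun z => decide (.inl z ∈ S),
    fun g => (decide (.inr (.inl g) ∈ S), decide (.inr (.inr (.inl g)) ∈ S)),
    fun c => decide (.inr (.inr (.inr c)) ∈ S))
  left_inv ω := by
    ext <;> simp [val]
  right_inv S := by
    ext v
    rcases v with v | v | v | v <;> simp [val]

theorem mem_eqv (ω : Om Z A I) (v : V Z A I) : v ∈ eqv ω ↔ val ω v = true := by
  simp [eqv]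

def w (x : ℝ) (b : Bool) : ℝ := if b = true then x else 1

theorem pow_card (x : ℝ) (ω : Om Z A I) : x ^ (eqv ω).card =
    (∏ z, w x (ω.1 z)) * ((∏ g, (w x (ω.2.1 g).1 * w x (ω.2.1 g).2)) * ∏ c, w x (ω.2.2 c)) := by
  have : x ^ (eqv ω).card = ∏ v, w x (val ω v) := by
    rw [← prod_const]
    exact prod_filter _ _
  rw [this]
  simp only [Fintype.prod_sum_type, val, prod_mul_distrib, mul_assoc]

theorem sum3 (g1 : Bool → ℝ) (g2 : Bool × Bool → ℝ) (g3 : Bool → ℝ) :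
    ∑ ω : Om Z A I, (∏ z, g1 (ω.1 z)) * ((∏ g, g2 (ω.2.1 g)) * ∏ c, g3 (ω.2.2 c)) =
      (∑ b, g1 b) ^ Fintype.card Z * ((∑ b, g2 b) ^ Fintype.card A *
        (∑ b, g3 b) ^ Fintype.card (Z × I)) := by
  simp only [Fintype.sum_prod_type (α₁ := Z → Bool), Fintype.sum_prod_type (α₁ := A → Bool × Bool),
    ← mul_sum, ← sum_mul, sum_fun]

theorem P1 (x : ℝ) : (∑ ω : Om Z A I, if (∀ z, ω.1 z = true) then x ^ (eqv ω).card else 0) =
    x ^ Fintype.card Z * ((1 + x) ^ (2 * Fintype.card A) * (1 + x) ^ Fintype.card (Z × I)) := by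
  have := sum3 (Z := Z) (A := A) (I := I) (fun b => if b = true then w x b else 0)
    (fun b => w x b.1 * w x b.2) (w x)
  simp only [Fintype.prod_ite_zero] at this
  rw [sum_congr rfl (fun ω _ => ?_), this]
  · simp only [Fintype.sum_prod_type, Fintype.sum_bool, w, pow_mul]
    congr 2
    · simp
    · congr 1; simp; ring
    · simp [add_comm]
  · rw [pow_card]; split_ifs <;> simp

theorem P2 (x : ℝ) : (∑ ω : Om Z A I, if (∀ g, hit (ω.2.1 g)) then x ^ (eqv ω).card else 0) =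
    (1 + x) ^ Fintype.card Z * ((x ^ 2 + 2 * x) ^ Fintype.card A *
      (1 + x) ^ Fintype.card (Z × I)) := by
  have := sum3 (Z := Z) (A := A) (I := I) (w x)
    (fun b => if hit b then w x b.1 * w x b.2 else 0) (w x)
  simp only [Fintype.prod_ite_zero] at this
  rw [sum_congr rfl (fun ω _ => ?_), this]
  · simp only [Fintype.sum_prod_type, Fintype.sum_bool, w, hit]
    congr 2
    · simp [add_comm]
    · congr 1; simp; ring
    · simp [add_comm]
  · rw [pow_card]; split_ifs <;> simp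

theorem pw_a (u : ℝ) (f : Z → Bool) : u ^ (univ.filter (fun z => ¬ f z = true)).card =
    ∏ z, (fun b => if b = true then 1 else u) (f z) := by
  rw [← prod_const, prod_filter]
  exact prod_congr rfl (fun z _ => by by_cases h : f z = true <;> simp [h])

theorem pw_b (u : ℝ) (f : A → Bool × Bool) : u ^ (univ.filter (fun g => ¬ hit (f g))).card =
    ∏ g, (fun b => if hit b then 1 else u) (f g) := by
  rw [← prod_const, prod_filter]
  exact prod_congr rfl (fun z _ => by by_cases h : hit (f z) <;> simp [h])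

theorem sum_ab (u v : ℝ) : ∑ f : Z → Bool, ∑ f' : A → Bool × Bool,
    u ^ (univ.filter (fun z => ¬ f z = true)).card *
      v ^ (univ.filter (fun g => ¬ hit (f' g))).card =
    (1 + u) ^ Fintype.card Z * (3 + v) ^ Fintype.card A := by
  simp only [← mul_sum, ← sum_mul]
  rw [sum_congr rfl (fun f _ => pw_a u f), sum_congr rfl (fun f _ => pw_b v f),
    sum_fun (fun b => if b = true then 1 else u), sum_fun (fun b => if hit b then 1 else v)]
  congr 2
  · simp
  · simp only [Fintype.sum_prod_type, Fintype.sum_bool, hit]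
    simp; ring

open Classical in
theorem avg (f : Z → Bool) (f' : A → Bool × Bool) (hA : Fintype.card A = 400000) :
    ∑ φ : Z × I → A, ∑ f'' : Z × I → Bool, (if Cl φ (f, f', f'') then (1 : ℝ) else 0) =
      800000 ^ Fintype.card (Z × I) *
        ((1 - ((univ.filter (fun g => ¬ hit (f' g))).card : ℝ) / 800000) ^ Fintype.card I) ^
          (univ.filter (fun z => ¬ f z = true)).card := by
  have h1 : ∀ (φ : Z × I → A) (f'' : Z × I → Bool), (if Cl φ (f, f', f'') then (1 : ℝ) else 0) =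
      ∏ c, if (f'' c = true ∨ f c.1 = true ∨ hit (f' (φ c))) then 1 else 0 := by
    intro φ f''
    rw [Fintype.prod_boole]
    congr
  have h2 : ∀ φ : Z × I → A, ∑ f'' : Z × I → Bool,
      (∏ c, if (f'' c = true ∨ f c.1 = true ∨ hit (f' (φ c))) then (1 : ℝ) else 0) =
      ∏ c : Z × I, ∑ s : Bool, if (s = true ∨ f c.1 = true ∨ hit (f' (φ c))) then 1 else 0 := by
    intro φ
    rw [prod_univ_sum, Fintype.piFinset_univ]
  have h3 : ∑ φ : Z × I → A, (∏ c : Z × I, ∑ s : Bool,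
      if (s = true ∨ f c.1 = true ∨ hit (f' (φ c))) then (1 : ℝ) else 0) =
      ∏ c : Z × I, ∑ g : A, ∑ s : Bool,
        if (s = true ∨ f c.1 = true ∨ hit (f' g)) then 1 else 0 := by
    rw [prod_univ_sum (fun _ => univ), Fintype.piFinset_univ]
  simp only [h1, h2]
  rw [h3, pw_a, ← card_univ, ← prod_const, Fintype.prod_prod_type, Fintype.prod_prod_type,
    ← prod_mul_distrib]
  apply prod_congr rfl
  intro z _
  have key : ∀ b : Bool, (∑ g : A, ∑ s : Bool,
      if (s = true ∨ b = true ∨ hit (f' g)) then (1 : ℝ) else 0) = 800000 *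
      (if b = true then 1 else
        (1 - ((univ.filter (fun g => ¬ hit (f' g))).card : ℝ) / 800000)) := by
    intro b
    cases b
    · have h4 : ∀ g : A, (∑ s : Bool,
          if (s = true ∨ false = true ∨ hit (f' g)) then (1 : ℝ) else 0) =
          2 - if ¬ hit (f' g) then 1 else 0 := by
        intro g
        by_cases hg : hit (f' g) <;> simp [hg]
        norm_num
      rw [sum_congr rfl (fun g _ => h4 g), sum_sub_distrib, sum_boole, sum_const, card_univ, hA,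
        if_neg (by simp)]
      simp only [nsmul_eq_mul]
      push_cast
      ring
    · simp [hA]; norm_num
  rw [prod_congr rfl (g := fun _ => 800000 * (if f z = true then 1 else
    (1 - ((univ.filter (fun g => ¬ hit (f' g))).card : ℝ) / 800000))) (fun y _ => key (f z))]
  rw [prod_const, prod_const, card_univ, mul_pow]
  congr 1
  by_cases hz : f z = true <;> simp [hz]

open Classical in
theorem exists_phi (hZ : Fintype.card Z = 166015) (hA : Fintype.card A = 400000)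
    (hI : Fintype.card I = 700) :
    ∃ φ : Z × I → A, ((univ.filter (fun ω : Om Z A I => Cl φ ω)).card : ℝ) ≤
      2.07 * (4 ^ Fintype.card A * 2 ^ Fintype.card (Z × I)) := by
  have hne : Nonempty A := Fintype.card_pos_iff.mp (by omega)
  have : ∑ φ : Z × I → A, ((univ.filter (fun ω : Om Z A I => Cl φ ω)).card : ℝ) ≤
      ∑ _φ : Z × I → A, 2.07 * (4 ^ Fintype.card A * 2 ^ Fintype.card (Z × I)) := by
    have e1 : ∀ φ : Z × I → A, ((univ.filter (fun ω : Om Z A I => Cl φ ω)).card : ℝ) =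
        ∑ f : Z → Bool, ∑ f' : A → Bool × Bool, ∑ f'' : Z × I → Bool,
          (if Cl φ (f, f', f'') then (1 : ℝ) else 0) := by
      intro φ
      rw [← sum_boole, Fintype.sum_prod_type]
      exact sum_congr rfl (fun f _ => Fintype.sum_prod_type _)
    rw [sum_congr rfl (fun φ _ => e1 φ), sum_comm,
      sum_congr rfl (fun f _ => sum_comm), sum_congr rfl (fun f _ =>
        sum_congr rfl (fun f' _ => avg f f' hA))]
    have h9 := r9 _ n9
    have h10 := r10 _ _ n10 n11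
    have h6 := r6 _ n6
    have h7 := r7 _ _ n7
    have h8 := r8 _ _ _ n8
    rw [show 8000 * 1575 = 18000 * 700 from rfl, ← hI] at h10
    rw [← hI] at h9
    rw [← hZ] at h6 h7 h8
    rw [← hA] at h7 h8
    generalize ha0 : 18000 = a0 at h8 h10
    calc _ ≤ ∑ f : Z → Bool, ∑ f' : A → Bool × Bool, 800000 ^ Fintype.card (Z × I) *
          ((1 : ℝ) ^ (univ.filter (fun z => ¬ f z = true)).card *
            (1 / 6800000) ^ (univ.filter (fun g => ¬ hit (f' g))).card +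
          (1 / 8000000) ^ (univ.filter (fun z => ¬ f z = true)).card *
            (1 : ℝ) ^ (univ.filter (fun g => ¬ hit (f' g))).card +
          (1 / 8) ^ (univ.filter (fun z => ¬ f z = true)).card *
            (1 / 7) ^ (univ.filter (fun g => ¬ hit (f' g))).card * (8 ^ a0 * 7 ^ a0)) := by
          refine sum_le_sum (fun f _ => sum_le_sum (fun f' _ => ?_))
          refine mul_le_mul_of_nonneg_left ?_ (by positivity)
          rw [one_pow, one_pow, one_mul, mul_one]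
          exact wt_bound _ _ _ a0 (by rw [← hA]; exact card_le_univ _) h9 h10 ha0.symm
      _ = 800000 ^ Fintype.card (Z × I) *
          ((1 + 1 : ℝ) ^ Fintype.card Z * (3 + 1 / 6800000) ^ Fintype.card A +
           (1 + 1 / 8000000) ^ Fintype.card Z * (3 + 1) ^ Fintype.card A +
           (1 + 1 / 8) ^ Fintype.card Z * (3 + 1 / 7) ^ Fintype.card A * (8 ^ a0 * 7 ^ a0)) := by
          rw [← sum_ab, ← sum_ab, ← sum_ab, sum_mul, ← sum_add_distrib, ← sum_add_distrib, mul_sum]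
          refine sum_congr rfl (fun f _ => ?_)
          rw [sum_mul, ← sum_add_distrib, ← sum_add_distrib, mul_sum]
      _ ≤ 800000 ^ Fintype.card (Z × I) * (2.07 * 4 ^ Fintype.card A) := by
          refine mul_le_mul_of_nonneg_left ?_ (by positivity)
          rw [show (1 + 1 : ℝ) = 2 by norm_num, show (3 + 1 : ℝ) = 4 by norm_num]
          have := mul_le_mul_of_nonneg_right h6
            (show (0 : ℝ) ≤ 4 ^ Fintype.card A by positivity)
          linarith
      _ = _ := by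
          rw [sum_const, card_univ, Fintype.card_fun, nsmul_eq_mul, Nat.cast_pow,
            show (800000 : ℝ) = (Fintype.card A : ℝ) * 2 by rw [hA]; norm_num, mul_pow]
          ring
  obtain ⟨φ, -, h⟩ := exists_le_of_sum_le univ_nonempty this
  exact ⟨φ, h⟩

theorem tail_aux (c Q x : ℝ) (n t : ℕ) (hx : 0 < x) (hQ : 0 ≤ Q)
    (h : (n : ℝ) * ((1 - x) ^ 2 / (4 * x)) ≤ 3) (h2 : 21 * (Q / x ^ t) ≤ c / 10) :
    Q * (1 + x) ^ (2 * n) / x ^ (n + t) ≤ c * 2 ^ (2 * n) / 10 := by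
  have h3 := noise x n hx h
  calc Q * (1 + x) ^ (2 * n) / x ^ (n + t) ≤ Q * (2 ^ (2 * n) * x ^ n * 21) / x ^ (n + t) := by
        gcongr
    _ = 2 ^ (2 * n) * (21 * (Q / x ^ t)) := by rw [pow_add]; field_simp
    _ ≤ 2 ^ (2 * n) * (c / 10) := by gcongr
    _ = _ := by ring

theorem tails (m a b t1 t2 t3 t4 : ℕ) (hm : m = 166015) (ha : a = 400000) (hb : b = 800000)
    (h1 : t1 = 553434) (h2 : t2 = 578597) (h3 : t3 = 603760) (h4 : t4 = 628923) :
    21 * ((((2300 : ℕ) : ℝ) / (2301 : ℕ)) ^ m * (1 + ((2300 : ℕ) : ℝ) / (2301 : ℕ)) ^ b /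
      (((2300 : ℕ) : ℝ) / (2301 : ℕ)) ^ t1) ≤ 4 ^ a / 10 ∧
    21 * ((((2301 : ℕ) : ℝ) / (2300 : ℕ)) ^ m * (1 + ((2301 : ℕ) : ℝ) / (2300 : ℕ)) ^ b /
      (((2301 : ℕ) : ℝ) / (2300 : ℕ)) ^ t2) ≤ 4 ^ a / 10 ∧
    21 * ((1 + ((2300 : ℕ) : ℝ) / (2301 : ℕ)) ^ m * ((((2300 : ℕ) : ℝ) / (2301 : ℕ)) ^ 2 +
      2 * (((2300 : ℕ) : ℝ) / (2301 : ℕ))) ^ a /
      (((2300 : ℕ) : ℝ) / (2301 : ℕ)) ^ t3) ≤ 4 ^ a / 10 ∧
    21 * ((1 + ((2301 : ℕ) : ℝ) / (2300 : ℕ)) ^ m * ((((2301 : ℕ) : ℝ) / (2300 : ℕ)) ^ 2 +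
      2 * (((2301 : ℕ) : ℝ) / (2300 : ℕ))) ^ a /
      (((2301 : ℕ) : ℝ) / (2300 : ℕ)) ^ t4) ≤ 4 ^ a / 10 ∧
    (4 : ℝ) ^ a ≤ 2 ^ m * 3 ^ a := by
  have t5 := r5 _ _ n5
  rw [← hm, ← ha] at t5
  refine ⟨?_, ?_, ?_, ?_, t5⟩ <;> subst hm ha hb h1 h2 h3 h4
  · exact tailA _ _ _ _ _ _ _ _ (by norm_num) (by norm_num) (by norm_num) (by norm_num) n1
  · exact tailA _ _ _ _ _ _ _ _ (by norm_num) (by norm_num) (by norm_num) (by norm_num) n2
  · exact tailB _ _ _ _ _ _ _ _ _ (by norm_num) (by norm_num) (by norm_num) (by norm_num)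
      (by norm_num) n3
  · exact tailB _ _ _ _ _ _ _ _ _ (by norm_num) (by norm_num) (by norm_num) (by norm_num)
      (by norm_num) n4

open Classical in
theorem main (hZ : Fintype.card Z = 166015) (hA : Fintype.card A = 400000)
    (hI : Fintype.card I = 700) :
    ∃ G : SimpleGraph (V Z A I), ∀ k : ℕ, ¬
        ((∀ i j : ℕ, i ≤ j → j ≤ k →
          {S : Finset (V Z A I) | S.card = i ∧ ∀ v, v ∈ S ∨ ∃ u ∈ S, G.Adj v u}.ncard ≤
          {S : Finset (V Z A I) | S.card = j ∧ ∀ v, v ∈ S ∨ ∃ u ∈ S, G.Adj v u}.ncard) ∧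
        (∀ i j : ℕ, k ≤ i → i ≤ j →
          {S : Finset (V Z A I) | S.card = j ∧ ∀ v, v ∈ S ∨ ∃ u ∈ S, G.Adj v u}.ncard ≤
          {S : Finset (V Z A I) | S.card = i ∧ ∀ v, v ∈ S ∨ ∃ u ∈ S, G.Adj v u}.ncard)) := by
  obtain ⟨φ, hφ⟩ := exists_phi hZ hA hI
  refine ⟨SimpleGraph.fromRel (rel φ), fun k hk => ?_⟩
  let d : ℕ → ℕ := fun i =>
    ((univ.filter (fun ω : Om Z A I => Dom φ ω)).filter (fun ω => (eqv ω).card = i)).card
  have hd : ∀ i, {S : Finset (V Z A I) | S.card = i ∧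
      ∀ v, v ∈ S ∨ ∃ u ∈ S, (SimpleGraph.fromRel (rel φ)).Adj v u}.ncard = d i := by
    intro i
    show _ = Finset.card _
    rw [← Set.ncard_coe_finset, ← Set.ncard_image_of_injective _ eqv.injective]
    congr 1
    ext S
    obtain ⟨ω, rfl⟩ := eqv.surjective S
    rw [eqv.injective.mem_set_image]
    simp only [Set.mem_ofPred_eq, mem_coe, mem_filter, mem_univ, true_and, Dom, mem_eqv]
    tauto
  simp only [hd] at hk
  have hmass : ∀ a b, ∑ j ∈ Ico a b, d j =
      (univ.filter (fun ω : Om Z A I => Dom φ ω ∧ (eqv ω).card ∈ Ico a b)).card := by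
    intro a b
    rw [card_eq_sum_card_fiberwise (f := fun ω => (eqv ω).card) (t := Ico a b)
      (fun ω hω => (mem_filter.mp hω).2.2)]
    refine sum_congr rfl (fun j hj => ?_)
    show Finset.card _ = _
    congr 1
    ext ω
    simp only [mem_filter, mem_univ, true_and]
    constructor
    · rintro ⟨h1, h2⟩; exact ⟨⟨h1, h2 ▸ hj⟩, h2⟩
    · rintro ⟨⟨h1, -⟩, h2⟩; exact ⟨h1, h2⟩
  obtain ⟨n, hn, hn2⟩ : ∃ n : ℕ, Fintype.card (Z × I) = 2 * n ∧ (n : ℝ) = 58105250 :=
    ⟨58105250, by rw [Fintype.card_prod, hZ, hI], by norm_num⟩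
  obtain ⟨t, L, ht, hL⟩ : ∃ t L : ℕ, t = 553434 ∧ L = 25163 := ⟨_, _, rfl, rfl⟩
  obtain ⟨t1, t2, t3, t4, t5⟩ := tails _ _ _ t (t + L) (t + 2 * L) (t + 3 * L) hZ hA
    (show 2 * Fintype.card A = 800000 by omega) ht (by omega) (by omega) (by omega)
  have hL0 : 0 < L := by omega
  clear ht hL
  set x : ℝ := ((2300 : ℕ) : ℝ) / ((2301 : ℕ) : ℝ) with hx
  set y : ℝ := ((2301 : ℕ) : ℝ) / ((2300 : ℕ) : ℝ) with hy
  have hx0 : 0 < x := by rw [hx]; norm_num
  have hx1 : x ≤ 1 := by rw [hx]; norm_num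
  have hy1 : 1 ≤ y := by rw [hy]; norm_num
  have hy0 : 0 < y := by linarith
  have hnx : (n : ℝ) * ((1 - x) ^ 2 / (4 * x)) ≤ 3 := by rw [hn2, hx]; norm_num
  have hny : (n : ℝ) * ((1 - y) ^ 2 / (4 * y)) ≤ 3 := by rw [hn2, hy]; norm_num
  have u1 := tail_aux _ _ x n _ hx0 (by positivity) hnx t1
  have u2 := tail_aux _ _ y n _ hy0 (by positivity) hny t2
  have u3 := tail_aux _ _ x n _ hx0 (by positivity) hnx t3
  have u4 := tail_aux _ _ y n _ hy0 (by positivity) hny t4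
  rw [← add_assoc] at u2 u3 u4
  have hZne : Nonempty Z := Fintype.card_pos_iff.mp (by omega)
  have hAne : Nonempty A := Fintype.card_pos_iff.mp (by omega)
  have w1 := (window (fun ω : Om Z A I => ∀ z, ω.1 z = true) (fun ω => (eqv ω).card)
    (n + t) (n + t + L) x y hx0 hx1 hy1).trans ((Nat.cast_le (α := ℝ)).mpr
    (show _ ≤ ∑ j ∈ Ico (n + t) (n + t + L), d j by
      rw [hmass]
      apply card_le_card
      intro ω hω
      have := (mem_filter.mp hω).2
      exact mem_filter.mpr ⟨mem_univ _, dom_of_cl (fun c => Or.inr (Or.inl (this.1 _)))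
        (Or.inl ⟨Classical.arbitrary Z, this.1 _⟩), this.2⟩))
  have w3 := (window (fun ω : Om Z A I => ∀ g, hit (ω.2.1 g)) (fun ω => (eqv ω).card)
    (n + t + 2 * L) (n + t + 3 * L) x y hx0 hx1 hy1).trans ((Nat.cast_le (α := ℝ)).mpr
    (show _ ≤ ∑ j ∈ Ico (n + t + 2 * L) (n + t + 3 * L), d j by
      rw [hmass]
      apply card_le_card
      intro ω hω
      have := (mem_filter.mp hω).2
      exact mem_filter.mpr ⟨mem_univ _, dom_of_cl (fun c => Or.inr (Or.inr (this.1 _)))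
        (Or.inr ⟨Classical.arbitrary A, this.1 _⟩), this.2⟩))
  rw [P1, P1, P1, hn, ← mul_assoc (x ^ _), ← mul_assoc (y ^ _)] at w1
  rw [P2, P2, P2, hn, ← mul_assoc ((1 + x) ^ _), ← mul_assoc ((1 + y) ^ _)] at w3
  rw [hn] at hφ
  have e1 : (1 : ℝ) ^ Fintype.card Z * ((1 + 1) ^ (2 * Fintype.card A) * (1 + 1) ^ (2 * n)) =
      4 ^ Fintype.card A * 2 ^ (2 * n) := by
    rw [one_pow, one_mul, pow_mul (1 + 1 : ℝ) 2 (Fintype.card A)]; norm_num
  have e3 : (4 : ℝ) ^ Fintype.card A * 2 ^ (2 * n) ≤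
      (1 + 1) ^ Fintype.card Z * ((1 ^ 2 + 2 * 1) ^ Fintype.card A * (1 + 1) ^ (2 * n)) := by
    rw [show (1 + 1 : ℝ) = 2 by norm_num, show (1 ^ 2 + 2 * 1 : ℝ) = 3 by norm_num, ← mul_assoc]
    exact mul_le_mul_of_nonneg_right t5 (by positivity)
  rw [e1] at w1
  have m4 : ∑ j ∈ Ico (n + t) (n + t + L), d j +
      ∑ j ∈ Ico (n + t + L) (n + t + 2 * L), d j +
      ∑ j ∈ Ico (n + t + 2 * L) (n + t + 3 * L), d j ≤
      (univ.filter (fun ω : Om Z A I => Cl φ ω)).card := by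
    rw [sum_Ico_consecutive _ (by omega) (by omega), sum_Ico_consecutive _ (by omega) (by omega),
      hmass]
    apply card_le_card
    intro ω hω
    exact mem_filter.mpr ⟨mem_univ _, cl_of_dom (mem_filter.mp hω).2.1⟩
  have hu := unimod d k hk.1 hk.2 (n + t) L hL0
  have hT : (0 : ℝ) < 4 ^ Fintype.card A * 2 ^ (2 * n) := by positivity
  have m4' := ((Nat.cast_le (α := ℝ)).mpr m4).trans hφ
  rw [Nat.cast_add, Nat.cast_add] at m4'
  have fin : ∀ T T' a1 a2 a3 a4 s1 s2 s3 : ℝ, 0 < T → T ≤ T' → a1 ≤ T / 10 → a2 ≤ T / 10 →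
      a3 ≤ T / 10 → a4 ≤ T / 10 → T - a1 - a2 ≤ s1 → T' - a3 - a4 ≤ s3 →
      s1 + s2 + s3 ≤ 2.07 * T → (s1 ≤ s2 ∨ s3 ≤ s2) → False := by
    intro T T' a1 a2 a3 a4 s1 s2 s3 h0 h1 h2 h3 h4 h5 h6 h7 h8 h9
    rcases h9 with h9 | h9 <;> linarith
  exact fin _ _ _ _ _ _ _ _ _ hT e3 u1 u2 u3 u4 w1 w3 m4'
    (hu.imp (Nat.cast_le (α := ℝ)).mpr (Nat.cast_le (α := ℝ)).mpr)

end

theorem result :
    ¬ (∀ (V : Type) [Fintype V] (G : SimpleGraph V),
      ∃ k : ℕ,
        (∀ i j : ℕ, i ≤ j → j ≤ k →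
          {S : Finset V | S.card = i ∧ ∀ v : V, v ∈ S ∨ ∃ u ∈ S, G.Adj v u}.ncard ≤
          {S : Finset V | S.card = j ∧ ∀ v : V, v ∈ S ∨ ∃ u ∈ S, G.Adj v u}.ncard) ∧
        (∀ i j : ℕ, k ≤ i → i ≤ j →
          {S : Finset V | S.card = j ∧ ∀ v : V, v ∈ S ∨ ∃ u ∈ S, G.Adj v u}.ncard ≤
          {S : Finset V | S.card = i ∧ ∀ v : V, v ∈ S ∨ ∃ u ∈ S, G.Adj v u}.ncard)) := by
  intro h
  obtain ⟨G, hG⟩ := main (Z := Fin 166015) (A := Fin 400000) (I := Fin 700)
    (Fintype.card_fin _) (Fintype.card_fin _) (Fintype.card_fin _)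
  obtain ⟨k, hk⟩ := h _ G
  exact hG k hk

end Pool.Agent.S12102
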