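import Pool.Statements.S12106
-- import your own Pool.Agent.* helpers here

set_option autoImplicit false
open Pool Pool.MP_e67bad_co

namespace Pool.Agent.S12106

def sols : List (Fin 4 → ℤ) := [![-3, -3, -1, 3], ![-3, -1, 1, 0], ![-3, 0, -2, 2], ![-3, 1, 3, -3], ![-3, 2, 0, -1], ![-3, 3, -3, 1], ![0, -3, 1, 1], ![0, -2, -2, 3], ![0, -1, 3, -2], ![0, 0, 0, 0], ![0, 1, -3, 2], ![0, 2, 2, -3], ![0, 3, -1, -1], ![3, -3, 3, -1], ![3, -2, 0, 1], ![3, -1, -3, 3], ![3, 0, 2, -2], ![3, 1, -1, 0], ![3, 3, 1, -3]]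

theorem sols_ok : sols.Nodup ∧ sols.length = 19 ∧ ∀ x ∈ sols,
    (∀ i, -3 ≤ x i ∧ x i ≤ 3) ∧ 2 * x 0 + 15 * x 1 + 21 * x 2 + 24 * x 3 = 0 := by
  decide +kernel

theorem result :
    ¬ (∀ k : ℕ, 2 ≤ k → ∀ n : ℕ, 1 ≤ n →
      (∃ a : Fin n → ℝ, a ≠ 0 ∧
          (∀ x : Fin n → ℤ, (∀ i, |x i| ≤ (k : ℤ)) →
              ∑ i, a i * (x i : ℝ) = 0 → x = 0) ∧
          (((Fintype.piFinset fun _ : Fin n => Finset.Icc (-((k : ℤ) + 1)) ((k : ℤ) + 1)).filter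
              (fun x => ∑ i, a i * (x i : ℝ) = 0)).card : ℝ)
            = ((1 + Real.sqrt 2) ^ n + (1 - Real.sqrt 2) ^ n) / 2) ∧
      (∀ a : Fin n → ℝ, a ≠ 0 →
          (∀ x : Fin n → ℤ, (∀ i, |x i| ≤ (k : ℤ)) →
              ∑ i, a i * (x i : ℝ) = 0 → x = 0) →
          (((Fintype.piFinset fun _ : Fin n => Finset.Icc (-((k : ℤ) + 1)) ((k : ℤ) + 1)).filter
              (fun x => ∑ i, a i * (x i : ℝ) = 0)).card : ℝ)
            ≤ ((1 + Real.sqrt 2) ^ n + (1 - Real.sqrt 2) ^ n) / 2)) := by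
  intro h
  have e : ∀ x : Fin 4 → ℤ, ∑ i, (![2, 15, 21, 24] : Fin 4 → ℝ) i * (x i : ℝ) =
      ((2 * x 0 + 15 * x 1 + 21 * x 2 + 24 * x 3 : ℤ) : ℝ) := by
    intro x
    simp [Fin.sum_univ_four]
  have h1 := (h 2 le_rfl 4 (by norm_num)).2 ![2, 15, 21, 24] (fun h => by simpa using congrFun h 0) (by
    intro x hx hs
    rw [e, Int.cast_eq_zero] at hs
    have h0 := abs_le.mp (hx 0)
    have h1 := abs_le.mp (hx 1)
    have h2 := abs_le.mp (hx 2)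
    have h3 := abs_le.mp (hx 3)
    push_cast at h0 h1 h2 h3
    have : x 0 = 0 ∧ x 1 = 0 ∧ x 2 = 0 ∧ x 3 = 0 := by
      revert hs h0 h1 h2 h3
      generalize x 0 = a
      generalize x 1 = b
      generalize x 2 = c
      generalize x 3 = d
      rintro hs ⟨_, _⟩ ⟨_, _⟩ ⟨_, _⟩ ⟨_, _⟩
      interval_cases c <;> interval_cases d <;> omega
    funext i
    fin_cases i
    exacts [this.1, this.2.1, this.2.2.1, this.2.2.2])
  have hs : Real.sqrt 2 ^ 2 = 2 := Real.sq_sqrt (by norm_num)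
  have h2 : ((1 + Real.sqrt 2) ^ 4 + (1 - Real.sqrt 2) ^ 4) / 2 = 17 := by
    generalize Real.sqrt 2 = s at hs
    have : s ^ 4 = 4 := by rw [show s ^ 4 = (s ^ 2) ^ 2 by ring, hs]; norm_num
    linear_combination 6 * hs + this
  rw [h2] at h1
  have h3 := (Nat.cast_le (α := ℝ)).mp (h1.trans_eq (by norm_num : (17 : ℝ) = ((17 : ℕ) : ℝ)))
  have h4 : sols.toFinset.card = 19 := by
    rw [List.toFinset_card_of_nodup sols_ok.1, sols_ok.2.1]
  refine absurd (h4.symm.trans_le ((Finset.card_le_card fun x hx => ?_).trans h3)) (by norm_num)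
  have := sols_ok.2.2 x (List.mem_toFinset.mp hx)
  refine Finset.mem_filter.mpr ⟨Fintype.mem_piFinset.mpr fun i => Finset.mem_Icc.mpr ?_, ?_⟩
  · have := this.1 i
    push_cast
    omega
  · rw [e, this.2, Int.cast_zero]

end Pool.Agent.S12106
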