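import Pool.Statements.S12163
import Pool.Agent.H.MP_e859cd_co.D

set_option autoImplicit false
open Pool Pool.MP_e859cd_co

namespace Pool.Agent.S12163

theorem result :
  ∀ r t : ℕ, 0 < t → t < r →
    ∃ a b : ℕ, ∃ X : ℕ → Finset ℕ,
      (∀ n, X n ⊆ Finset.range n) ∧
      (∀ᶠ n in Filter.atTop,
        ∀ A ∈ ((Finset.range n).powersetCard r).filter (fun A => a ≤ (A ∩ X n).card),
        ∀ B ∈ ((Finset.range n).powersetCard r).filter
            (fun B => b ≤ (B ∩ (Finset.range n \ X n)).card),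
          (A ∩ B).card ≠ t) ∧
      Filter.Tendsto
        (fun n : ℕ =>
          ((((((Finset.range n).powersetCard r).powerset ×ˢ
                ((Finset.range n).powersetCard r).powerset).filter
              (fun P : Finset (Finset ℕ) × Finset (Finset ℕ) =>
                ∀ A ∈ P.1, ∀ B ∈ P.2, (A ∩ B).card ≠ t)).sup
              (fun P => P.1.card * P.2.card) : ℕ) : ℝ) /
          (((((Finset.range n).powersetCard r).filter
                (fun A => a ≤ (A ∩ X n).card)).card : ℝ) *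
           ((((Finset.range n).powersetCard r).filter
                (fun B => b ≤ (B ∩ (Finset.range n \ X n)).card)).card : ℝ)))
        Filter.atTop (nhds 1) := by
  intro r t ht htr
  obtain ⟨a, q, ha, q0, q1, hB⟩ := Pool.Agent.H.Cube.cube_main (r - t - 1) (t - 1)
  rw [show r - t - 1 + (t - 1) + 2 = r by omega, show r - t - 1 + 2 = r - t + 1 by omega] at ha hB
  have hm : ∀ n : ℕ, ⌊(1 - q) * n⌋₊ ≤ n := fun n =>
    Nat.floor_le_of_le (by nlinarith [Nat.cast_nonneg (α := ℝ) n])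
  have hsplit : ∀ n : ℕ, ∀ A ∈ (Finset.range n).powersetCard r,
      (A ∩ Finset.range ⌊(1 - q) * n⌋₊).card +
        (A ∩ (Finset.range n \ Finset.range ⌊(1 - q) * n⌋₊)).card = r := by
    intro n A hA
    obtain ⟨h1, h2⟩ := Finset.mem_powersetCard.1 hA
    rw [← h2, ← Finset.card_inter_add_card_sdiff A (Finset.range ⌊(1 - q) * n⌋₊)]
    congr 2
    ext v
    simp only [Finset.mem_inter, Finset.mem_sdiff]
    exact ⟨fun h => ⟨h.1, h.2.2⟩, fun h => ⟨h.1, h1 h.1, h.2⟩⟩
  have hvalid : ∀ n : ℕ, ∀ A ∈ ((Finset.range n).powersetCard r).filter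
        (fun A => r - a ≤ (A ∩ Finset.range ⌊(1 - q) * n⌋₊).card),
      ∀ B ∈ ((Finset.range n).powersetCard r).filter (fun B => a + (r - t + 1) ≤
        (B ∩ (Finset.range n \ Finset.range ⌊(1 - q) * n⌋₊)).card), (A ∩ B).card ≠ t := by
    intro n A hA B hB
    obtain ⟨hA1, hA2⟩ := Finset.mem_filter.1 hA
    obtain ⟨hB1, hB2⟩ := Finset.mem_filter.1 hB
    have h1 := hsplit n A hA1
    have h2 := hsplit n B hB1
    have h3 : A ∩ B ⊆ (A ∩ (Finset.range n \ Finset.range ⌊(1 - q) * n⌋₊)) ∪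
        (B ∩ Finset.range ⌊(1 - q) * n⌋₊) := by
      intro v hv
      obtain ⟨hv1, hv2⟩ := Finset.mem_inter.1 hv
      have := (Finset.mem_powersetCard.1 hA1).1 hv1
      simp only [Finset.mem_union, Finset.mem_inter, Finset.mem_sdiff]
      tauto
    have h4 := (Finset.card_le_card h3).trans (Finset.card_union_le _ _)
    omega
  refine ⟨r - a, a + (r - t + 1), fun n => Finset.range ⌊(1 - q) * n⌋₊,
    fun n => Finset.range_mono (hm n), Filter.Eventually.of_forall hvalid, ?_⟩
  have hMpos := Pool.Agent.H.Cube.ball_pos ha q0 q1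
  have tL := Pool.Agent.H.Cube.tend_Bn r (fun k => k ≤ a) q1
  have tR := Pool.Agent.H.Cube.tend_Bn r (fun k => a + (r - t + 1) ≤ k) q1
  have okq : Pool.Agent.H.Cube.Ok (fun _ : Fin r => q) := fun _ => ⟨q0.le, q1.le⟩
  have pL : 0 < Pool.Agent.H.Cube.Bn (fun _ : Fin r => q) (fun k => k ≤ a) :=
    lt_of_le_of_ne (Pool.Agent.H.Cube.mu_nonneg okq _) fun e => by
      simp [Pool.Agent.H.Cube.Ball, ← e] at hMpos
  have pR : 0 < Pool.Agent.H.Cube.Bn (fun _ : Fin r => q) (fun k => a + (r - t + 1) ≤ k) :=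
    lt_of_le_of_ne (Pool.Agent.H.Cube.mu_nonneg okq _) fun e => by
      simp [Pool.Agent.H.Cube.Ball, ← e] at hMpos
  have tU : Filter.Tendsto (fun n : ℕ => Pool.Agent.H.Cube.Ball r (r - t + 1) a q +
      (r * r.factorial : ℝ) / n) Filter.atTop (nhds (Pool.Agent.H.Cube.Ball r (r - t + 1) a q)) := by
    simpa using (tendsto_const_div_atTop_nhds_zero_nat (r * r.factorial : ℝ)).const_add
      (Pool.Agent.H.Cube.Ball r (r - t + 1) a q)
  have tQ := tU.div (tL.mul tR) hMpos.ne'
  rw [show Pool.Agent.H.Cube.Ball r (r - t + 1) a q /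
    (Pool.Agent.H.Cube.Bn (fun _ : Fin r => q) (fun k => k ≤ a) *
      Pool.Agent.H.Cube.Bn (fun _ : Fin r => q) (fun k => a + (r - t + 1) ≤ k)) = 1 from
      div_self hMpos.ne'] at tQ
  have ev := (tL.eventually (lt_mem_nhds pL)).and ((tR.eventually (lt_mem_nhds pR)).and
    (Filter.eventually_gt_atTop 0))
  have lowL := fun n (hn : 0 < n) => Pool.Agent.H.Cube.lower (r := r) hn (hm n) (fun k => k ≤ a)
    (fun A => r - a ≤ (A ∩ Finset.range ⌊(1 - q) * n⌋₊).card) (fun A hA h => by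
      have := hsplit n A hA
      omega)
  have lowR := fun n (hn : 0 < n) => Pool.Agent.H.Cube.lower (r := r) hn (hm n)
    (fun k => a + (r - t + 1) ≤ k) (fun B => a + (r - t + 1) ≤
      (B ∩ (Finset.range n \ Finset.range ⌊(1 - q) * n⌋₊)).card) (fun A _ h => h)
  refine tendsto_of_tendsto_of_tendsto_of_le_of_le' tendsto_const_nhds tQ ?_ ?_
  · filter_upwards [ev] with n hn
    obtain ⟨h1, h2, h3⟩ := hn
    have c0 : (0 : ℝ) < (r.factorial : ℝ) / n ^ r := by positivity
    have g1 := (mul_pos_iff_of_pos_right c0).1 (h1.trans_le (lowL n h3))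
    have g2 := (mul_pos_iff_of_pos_right c0).1 (h2.trans_le (lowR n h3))
    rw [one_le_div (mul_pos g1 g2), ← Nat.cast_mul, Nat.cast_le]
    exact Finset.le_sup (f := fun P : Finset (Finset ℕ) × Finset (Finset ℕ) =>
      P.1.card * P.2.card) (b := (_, _)) (Finset.mem_filter.2 ⟨Finset.mem_product.2
        ⟨Finset.mem_powerset.2 (Finset.filter_subset _ _),
          Finset.mem_powerset.2 (Finset.filter_subset _ _)⟩, hvalid n⟩)
  · filter_upwards [ev] with n hn
    obtain ⟨h1, h2, h3⟩ := hn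
    have c0 : (0 : ℝ) < (r.factorial : ℝ) / n ^ r := by positivity
    obtain ⟨P, hP, e⟩ := Finset.exists_mem_eq_sup (((((Finset.range n).powersetCard r).powerset ×ˢ
      ((Finset.range n).powersetCard r).powerset).filter
        (fun P : Finset (Finset ℕ) × Finset (Finset ℕ) =>
          ∀ A ∈ P.1, ∀ B ∈ P.2, (A ∩ B).card ≠ t))) ⟨(∅, ∅), by simp⟩
      (fun P => P.1.card * P.2.card)
    obtain ⟨hP1, hP2⟩ := Finset.mem_filter.1 hP
    obtain ⟨hP3, hP4⟩ := Finset.mem_product.1 hP1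
    have up := Pool.Agent.H.Cube.upper htr h3 hB (Finset.mem_powerset.1 hP3)
      (Finset.mem_powerset.1 hP4) hP2
    rw [e, ← mul_div_mul_right _ _ (pow_pos c0 2).ne', Nat.cast_mul, Pi.div_apply]
    refine div_le_div₀ ((by positivity : (0 : ℝ) ≤ _).trans up) up (mul_pos h1 h2) ?_
    refine (mul_le_mul (lowL n h3) (lowR n h3) h2.le (by positivity)).trans (le_of_eq ?_)
    ring

end Pool.Agent.S12163
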