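import Pool.Statements.S12180
import Pool.Agent.H.MP_e962e1_co.G

set_option autoImplicit false
open Pool Pool.MP_e962e1_co

namespace Pool.Agent.S12180

open Pool.Agent.H.MP_e962e1_co

theorem result :
    ¬ (∀ (m : ℕ) (S : Finset (Fin m → ZMod 2)), (0 : Fin m → ZMod 2) ∉ S →
    ∀ n : ℕ,
      (∑ X ∈ S.powerset, (-1 : Polynomial ℤ) ^ X.card *
          Polynomial.X ^ (Module.finrank (ZMod 2)
              ↥(Submodule.span (ZMod 2) (S : Set (Fin m → ZMod 2))) -
            Module.finrank (ZMod 2)
              ↥(Submodule.span (ZMod 2) (X : Set (Fin m → ZMod 2)))))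
        = ∏ i ∈ Finset.range n, (Polynomial.X - Polynomial.C ((i : ℤ) + 1)) →
      ∃ W : ℕ → Submodule (ZMod 2) (Fin m → ZMod 2),
        (∀ i, i ≤ n → Module.finrank (ZMod 2) ↥(W i) = i) ∧
        (∀ i, i < n → W i ≤ W (i + 1)) ∧
        W n = Submodule.span (ZMod 2) (S : Set (Fin m → ZMod 2)) ∧
        (∀ i, i ≤ n →
          Submodule.span (ZMod 2)
            ((S : Set (Fin m → ZMod 2)) ∩ (W i : Set (Fin m → ZMod 2))) = W i) ∧
        (∀ i, i ≤ n → ∀ U : Submodule (ZMod 2) (Fin m → ZMod 2),
          Submodule.span (ZMod 2)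
            ((S : Set (Fin m → ZMod 2)) ∩ (U : Set (Fin m → ZMod 2))) = U →
          Module.finrank (ZMod 2) ↥(W i) + Module.finrank (ZMod 2) ↥U =
            Module.finrank (ZMod 2) ↥(W i ⊔ U) +
            Module.finrank (ZMod 2)
              ↥(Submodule.span (ZMod 2)
                ((S : Set (Fin m → ZMod 2)) ∩ (W i : Set (Fin m → ZMod 2)) ∩
                  (U : Set (Fin m → ZMod 2)))))) := by
  intro H
  have hp0 : ph 0 = 0 := by decide
  obtain ⟨W, h1, -, -, -, h5⟩ := H 6 (SL.map ph).toFinset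
    (by rw [← hp0, mem_S (by norm_num)]; decide) 6 (by
      have := G_spec (fun k => Polynomial.X ^ (6 - k)) SL (by decide) SL_lt ⊥ [0] (by simp)
        (fun v => by simp [hp0, eq_comm])
      have hv := G_val
      simp only [List.range_succ, List.range_zero, List.nil_append, List.cons_append, List.map_cons,
        List.map_nil, List.cons.injEq] at hv
      obtain ⟨v0, v1, v2, v3, v4, v5, v6, -⟩ := hv
      rw [span_top, finrank_top, Module.finrank_fin_fun]
      refine Eq.trans (Finset.sum_congr rfl fun X _ => by rw [bot_sup_eq]) (this.trans ?_)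
      rw [finrank_bot]
      simp only [Finset.sum_range_succ, Finset.prod_range_succ, v0, v1, v2, v3, v4, v5, v6,
        eq_intCast]
      push_cast
      ring)
  have hlt : W 5 < ⊤ := lt_top_iff_ne_top.2 fun h => by
    have := h1 5 (by norm_num)
    rw [h, finrank_top, Module.finrank_fin_fun] at this
    omega
  obtain ⟨f, hf, hle⟩ := Submodule.exists_le_ker_of_lt_top _ hlt
  obtain ⟨a, ha, b, hb, ha1, hb1, hab, hx⟩ := nomod (fun i => f (Pi.single i 1)) fun h0 =>
    hf (LinearMap.pi_ext' fun i => LinearMap.ext_ring (congrFun h0 i))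
  have key : ∀ v : Fin 6 → ZMod 2, ∑ i, v i * f (Pi.single i 1) ≠ 0 → v ∉ W 5 := by
    intro v hv h
    apply hv
    have := hle h
    rw [LinearMap.mem_ker, LinearMap.pi_apply_eq_sum_univ] at this
    rw [← this]
    refine Finset.sum_congr rfl fun i _ => ?_
    rw [smul_eq_mul]
    congr 2
    funext j
    simp [Pi.single_apply, eq_comm]
  have ha' := SL_lt a ha
  have hb' := SL_lt b hb
  have z2 : ∀ c : ZMod 2, c = 0 ∨ c = 1 := by decide
  have hne : ∀ c ∈ SL, ph c ≠ 0 := fun c hc h => by
    rw [ph_inj (SL_lt c hc) (by norm_num) (h.trans hp0.symm)] at hc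
    revert hc
    decide
  have h6 := h5 5 (by norm_num) (Submodule.span (ZMod 2) {ph a} ⊔ Submodule.span (ZMod 2) {ph b})
    (le_antisymm (Submodule.span_le.2 Set.inter_subset_right) (sup_le
      (Submodule.span_mono (Set.singleton_subset_iff.2 ⟨(mem_S ha').2 ha,
        Submodule.mem_sup_left (Submodule.mem_span_singleton_self _)⟩))
      (Submodule.span_mono (Set.singleton_subset_iff.2 ⟨(mem_S hb').2 hb,
        Submodule.mem_sup_right (Submodule.mem_span_singleton_self _)⟩))))
  have e : (((SL.map ph).toFinset : Finset _) : Set (Fin 6 → ZMod 2)) ∩ (W 5 : Set _) ∩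
      ((Submodule.span (ZMod 2) {ph a} ⊔ Submodule.span (ZMod 2) {ph b} : Submodule _ _) : Set _)
      = ∅ := by
    refine Set.eq_empty_of_forall_notMem fun v ⟨⟨hS, hW⟩, hU⟩ => ?_
    obtain ⟨y, hy, z, hz, rfl⟩ := Submodule.mem_sup.1 hU
    obtain ⟨c, rfl⟩ := Submodule.mem_span_singleton.1 hy
    obtain ⟨d, rfl⟩ := Submodule.mem_span_singleton.1 hz
    rcases z2 c with rfl | rfl <;> rcases z2 d with rfl | rfl <;>
      simp only [zero_smul, one_smul, add_zero, zero_add] at hS hW
    · rw [← hp0, Finset.mem_coe, mem_S (by norm_num)] at hS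
      revert hS
      decide
    · exact key _ hb1 hW
    · exact key _ ha1 hW
    · rw [← ph_xor, Finset.mem_coe, mem_S (Nat.xor_lt_two_pow (n := 6) ha' hb')] at hS
      exact hx hS
  rw [e, Submodule.span_empty, finrank_bot, h1 5 (by norm_num),
    Submodule.finrank_sup_span_singleton, finrank_span_singleton (hne a ha)] at h6
  · have := Submodule.finrank_le (W 5 ⊔ (Submodule.span (ZMod 2) {ph a} ⊔
      Submodule.span (ZMod 2) {ph b}))
    rw [Module.finrank_fin_fun] at this
    omega
  · intro h
    obtain ⟨c, hc⟩ := Submodule.mem_span_singleton.1 h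
    rcases z2 c with rfl | rfl
    · exact hne b hb (by simpa using hc.symm)
    · exact hab (ph_inj ha' hb' (by simpa using hc))

end Pool.Agent.S12180
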