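import Pool.Statements.S12181
import Pool.Agent.H.MP_e96620_co.G

set_option autoImplicit false
open Pool Pool.MP_e96620_co

namespace Pool.Agent.S12181
open Pool.Agent.H.MP_e96620_co Filter

/-- There is ε>0 such that for every δ>0, for all large k and all N up to a tower of 2s of height ⌊εk⌋, some 2-coloring of k-subsets of [N] has, on every 2k-set S, red minus blue k-subsets at most δ·C(2k,k) in absolute value. -/
theorem result :
    ∃ ε : ℝ, 0 < ε ∧ ∀ δ : ℝ, 0 < δ → ∃ k₀ : ℕ, ∀ k : ℕ, k₀ ≤ k →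
      ∀ N : ℕ, N ≤ (fun n : ℕ => 2 ^ n)^[⌊ε * (k : ℝ)⌋₊] 1 →
        ∃ γ : Finset (Fin N) → Bool, ∀ S : Finset (Fin N), S.card = 2 * k →
          |∑ T ∈ S.powersetCard k, (if γ T then (1 : ℝ) else -1)|
            ≤ δ * ((Nat.choose (2 * k) k : ℕ) : ℝ) := by
  refine ⟨1 / (1638624 * 4 ^ 21), by positivity, fun δ δ0 => ?_⟩
  have l1 := ((tendsto_const_div_atTop_nhds_zero_nat (16 ^ 21 : ℝ)).add
    ((tendsto_pow_const_mul_const_pow_of_abs_lt_one 20 (r := (3 / 4 : ℝ))
      (by rw [abs_of_pos] <;> norm_num)).const_mul 2)).const_mul (60 * 2 ^ 20)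
  obtain ⟨s, hs⟩ := eventually_atTop.mp ((l1.eventually_le_const (show _ < δ ^ 2 by
    simpa using pow_pos δ0 2)).and (eventually_ge_atTop (3 * 4 ^ 21)))
  refine ⟨(s ^ 2) ^ 2, fun k hk N hN => ?_⟩
  obtain ⟨h1, h2⟩ := hs k.sqrt.sqrt (Nat.le_sqrt'.mpr (Nat.le_sqrt'.mpr hk))
  have h3 : (k.sqrt.sqrt ^ 2) ^ 2 ≤ k := Nat.le_sqrt'.mp (Nat.sqrt_le' _)
  have h4 : k ≤ ((k.sqrt.sqrt + 1) ^ 2) ^ 2 :=
    (Nat.lt_succ_sqrt' k).le.trans (Nat.pow_le_pow_left (Nat.lt_succ_sqrt' _) 2)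
  generalize k.sqrt.sqrt = t at *
  have k0 : 0 < k := lt_of_lt_of_le (by have : 0 < t := by omega
                                        positivity) h3
  have j1 := Nat.floor_le (show (0 : ℝ) ≤ 1 / (1638624 * 4 ^ 21) * k by positivity)
  generalize ⌊(1 / (1638624 * 4 ^ 21) * k : ℝ)⌋₊ = j at *
  have t1 : (3 * 4 ^ 21 : ℝ) ≤ t := by exact_mod_cast h2
  have t2 : (0 : ℝ) < t := by linarith
  have k1 : ((t : ℝ) ^ 2) ^ 2 ≤ k := by exact_mod_cast h3
  have k2 : (k : ℝ) ≤ ((2 * t) ^ 2) ^ 2 := by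
    exact_mod_cast h4.trans (by gcongr; omega)
  have e1 : EE t j 21 t (2 * k) ≤ (3 / 4) ^ t := by
    calc _ ≤ Real.exp (t * (-1)) := by
          rw [EE, Real.exp_le_exp]
          push_cast
          nlinarith [mul_le_mul_of_nonneg_left t1 (pow_pos t2 3).le,
            mul_le_mul_of_nonneg_left (show (32 : ℝ) ≤ t ^ 2 by nlinarith) t2.le]
      _ ≤ _ := by
          rw [Real.exp_nat_mul]
          gcongr
          linarith [Real.exp_neg_one_lt_d9]
  obtain ⟨R, hR⟩ := col (c := 21) (l := t) (show 176 ≤ t by omega) k0 (j := j)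
    (by exact_mod_cast j1.trans (mul_le_of_le_one_left (by positivity) (by norm_num))) δ0 (by
      refine le_trans ?_ h1
      calc _ ≤ ((16 / t) ^ 21 + 2 * (3 / 4) ^ t) * (60 * (((2 * t : ℝ) ^ 2) ^ 2) ^ 5) := by
            gcongr ?_ * (60 * ?_ ^ 5)
            rw [BB]
            linarith
        _ = _ := by field_simp)
  refine ⟨fun T => decide (code j (T.map Fin.valEmbedding) ∈ R), fun S hS => ?_⟩
  have := hR (S.map Fin.valEmbedding) (Finset.mem_filter.mpr ⟨Finset.mem_powerset.mpr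
    fun x hx => by
      obtain ⟨y, -, rfl⟩ := Finset.mem_map.mp hx
      exact Finset.mem_range.mpr (y.2.trans_le (hN.trans (Nat.le_add_right _ _))), by simp [hS]⟩)
    (by simp [hS])
  rw [Finset.powersetCard_map, Finset.sum_map] at this
  refine le_trans (congrArg abs (Finset.sum_congr rfl fun T _ => ?_)).le this
  simp only [sg, decide_eq_true_eq]
  rfl

end Pool.Agent.S12181
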