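import Pool.Statements.S12216
import Pool.Agent.Lib.helper8.Blowup

set_option autoImplicit false
open Classical
open Pool Pool.MP_eaf560_co
open Polynomial Pool.Agent.Lib.helper8

namespace Pool.Agent.S12216

/-- Classes of sizes 1, 6, 6, 6, 1; each class is a clique, consecutive classes are joined.
Adding the edge between the two end vertices lowers the positive 3-energy. -/
def cls (x : Fin 20) : Fin 5 :=
  if x.1 = 0 then 0 else if x.1 ≤ 6 then 1 else if x.1 ≤ 12 then 2 else if x.1 ≤ 18 then 3 else 4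

def q0 (i j : Fin 5) : Bool := decide (i.1 ≤ j.1 + 1 ∧ j.1 ≤ i.1 + 1)
def q1 (i j : Fin 5) : Bool := q0 i j || decide ((i.1 = 0 ∧ j.1 = 4) ∨ (i.1 = 4 ∧ j.1 = 0))
def sz (j : Fin 5) : ℕ := if j.1 = 0 ∨ j.1 = 4 then 1 else 6

def G : SimpleGraph (Fin 20) where
  Adj x y := x ≠ y ∧ q0 (cls x) (cls y) = true
  symm := ⟨by
    have : ∀ x y : Fin 20, (x ≠ y ∧ q0 (cls x) (cls y) = true) →
      (y ≠ x ∧ q0 (cls y) (cls x) = true) := by decide +kernel
    exact this⟩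
  loopless := ⟨fun x h => h.1 rfl⟩

theorem hsz : ∀ j, (Finset.univ.filter (fun x => cls x = j)).card = sz j := by decide +kernel

theorem adj1 (x y : Fin 20) :
    (G ⊔ SimpleGraph.edge 0 19).Adj x y ↔ x ≠ y ∧ q1 (cls x) (cls y) = true := by
  have : ∀ x y : Fin 20, ((x ≠ y ∧ q0 (cls x) (cls y) = true) ∨
      ((x = 0 ∧ y = 19 ∨ x = 19 ∧ y = 0) ∧ x ≠ y)) ↔
      (x ≠ y ∧ q1 (cls x) (cls y) = true) := by decide +kernel
  rw [SimpleGraph.sup_adj, SimpleGraph.edge_adj]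
  exact this x y

theorem M0 : (Matrix.of (fun i j => if q0 i j = true then (sz j : ℝ) else 0)) =
    !![1, 6, 0, 0, 0; 1, 6, 6, 0, 0; 0, 6, 6, 6, 0; 0, 0, 6, 6, 1; 0, 0, 0, 6, 1] := by
  ext i j
  fin_cases i <;> fin_cases j <;> simp [q0, sz]

theorem M1 : (Matrix.of (fun i j => if q1 i j = true then (sz j : ℝ) else 0)) =
    !![1, 6, 0, 0, 1; 1, 6, 6, 0, 0; 0, 6, 6, 6, 0; 0, 0, 6, 6, 1; 1, 0, 0, 6, 1] := by
  ext i j
  fin_cases i <;> fin_cases j <;> simp [q1, q0, sz]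

noncomputable def P0 : ℝ[X] := X ^ 3 - C 10 * X ^ 2 - C 53 * X + C 30
noncomputable def P1 : ℝ[X] := X ^ 3 - C 11 * X ^ 2 - C 43 * X + C 77
noncomputable def Q1 : ℝ[X] := X ^ 2 - C 4 * X - C 11

theorem cp0 : (!![1, 6, 0, 0, 0; 1, 6, 6, 0, 0; 0, 6, 6, 6, 0; 0, 0, 6, 6, 1; 0, 0, 0, 6, 1] :
    Matrix (Fin 5) (Fin 5) ℝ).charpoly.comp (X + C 1) = (X - C 6) * ((X + C 1) * P0) := by
  apply Polynomial.funext
  intro t
  rw [eval_comp, Matrix.eval_charpoly]
  have : Matrix.scalar (Fin 5) (eval t (X + C 1)) -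
      (!![1, 6, 0, 0, 0; 1, 6, 6, 0, 0; 0, 6, 6, 6, 0; 0, 0, 6, 6, 1; 0, 0, 0, 6, 1] :
        Matrix (Fin 5) (Fin 5) ℝ) =
      !![t, -6, 0, 0, 0; -1, t - 5, -6, 0, 0; 0, -6, t - 5, -6, 0; 0, 0, -6, t - 5, -1;
        0, 0, 0, -6, t] := by
    ext i j
    fin_cases i <;> fin_cases j <;> simp <;> ring
  rw [this]
  simp [Matrix.det_succ_row_zero, Fin.sum_univ_succ, P0, Fin.succAbove]
  ring

theorem cp1 : (!![1, 6, 0, 0, 1; 1, 6, 6, 0, 0; 0, 6, 6, 6, 0; 0, 0, 6, 6, 1; 1, 0, 0, 6, 1] :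
    Matrix (Fin 5) (Fin 5) ℝ).charpoly.comp (X + C 1) = Q1 * P1 := by
  apply Polynomial.funext
  intro t
  rw [eval_comp, Matrix.eval_charpoly]
  have : Matrix.scalar (Fin 5) (eval t (X + C 1)) -
      (!![1, 6, 0, 0, 1; 1, 6, 6, 0, 0; 0, 6, 6, 6, 0; 0, 0, 6, 6, 1; 1, 0, 0, 6, 1] :
        Matrix (Fin 5) (Fin 5) ℝ) =
      !![t, -6, 0, 0, -1; -1, t - 5, -6, 0, 0; 0, -6, t - 5, -6, 0; 0, 0, -6, t - 5, -1;
        -1, 0, 0, -6, t] := by
    ext i j
    fin_cases i <;> fin_cases j <;> simp <;> ring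
  rw [this]
  simp [Matrix.det_succ_row_zero, Fin.sum_univ_succ, P1, Q1, Fin.succAbove]
  ring

theorem P0_deg : P0.natDegree = 3 := by unfold P0; compute_degree!
theorem P1_deg : P1.natDegree = 3 := by unfold P1; compute_degree!
theorem Q1_deg : Q1.natDegree = 2 := by unfold Q1; compute_degree!
theorem P0_ne : P0 ≠ 0 := fun h => by have := P0_deg; rw [h] at this; simp at this
theorem P1_ne : P1 ≠ 0 := fun h => by have := P1_deg; rw [h] at this; simp at this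
theorem Q1_ne : Q1 ≠ 0 := fun h => by have := Q1_deg; rw [h] at this; simp at this

theorem P0_roots : ∃ a b c : ℝ, a < 0 ∧ 0.51 < b ∧ 13.706 < c ∧ P0.roots = {a, b, c} := by
  obtain ⟨a, ha1, ha2, ha⟩ := exists_root_of_neg_pos P0 (a := -5) (b := -4) (by norm_num)
    (by norm_num [P0]) (by norm_num [P0])
  obtain ⟨b, hb1, hb2, hb⟩ := exists_root_of_pos_neg P0 (a := 0.51) (b := 1) (by norm_num)
    (by norm_num [P0]) (by norm_num [P0])
  obtain ⟨c, hc1, hc2, hc⟩ := exists_root_of_neg_pos P0 (a := 13.706) (b := 14) (by norm_num)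
    (by norm_num [P0]) (by norm_num [P0])
  refine ⟨a, b, c, by linarith, hb1, hc1, roots_eq_of_nodup _ P0_ne _ ?_ ?_ (by simp [P0_deg])⟩
  · have h1 : a ≠ b := by linarith
    have h2 : a ≠ c := by linarith
    have h3 : b ≠ c := by linarith
    simp [h1, h2, h3]
  · intro x hx
    simp only [Multiset.insert_eq_cons, Multiset.mem_cons, Multiset.mem_singleton] at hx
    rcases hx with rfl | rfl | rfl <;> assumption

theorem P1_roots : ∃ a b c : ℝ, a < 0 ∧ 0 < b ∧ b < 1.371 ∧ 0 < c ∧ c < 13.725 ∧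
    P1.roots = {a, b, c} := by
  obtain ⟨a, ha1, ha2, ha⟩ := exists_root_of_neg_pos P1 (a := -5) (b := -4) (by norm_num)
    (by norm_num [P1]) (by norm_num [P1])
  obtain ⟨b, hb1, hb2, hb⟩ := exists_root_of_pos_neg P1 (a := 1) (b := 1.371) (by norm_num)
    (by norm_num [P1]) (by norm_num [P1])
  obtain ⟨c, hc1, hc2, hc⟩ := exists_root_of_neg_pos P1 (a := 13) (b := 13.725) (by norm_num)
    (by norm_num [P1]) (by norm_num [P1])
  refine ⟨a, b, c, by linarith, by linarith, hb2, by linarith, hc2,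
    roots_eq_of_nodup _ P1_ne _ ?_ ?_ (by simp [P1_deg])⟩
  · have h1 : a ≠ b := by linarith
    have h2 : a ≠ c := by linarith
    have h3 : b ≠ c := by linarith
    simp [h1, h2, h3]
  · intro x hx
    simp only [Multiset.insert_eq_cons, Multiset.mem_cons, Multiset.mem_singleton] at hx
    rcases hx with rfl | rfl | rfl <;> assumption

theorem Q1_roots : ∃ a b : ℝ, a < 0 ∧ 0 < b ∧ b < 5.874 ∧ Q1.roots = {a, b} := by
  obtain ⟨a, ha1, ha2, ha⟩ := exists_root_of_pos_neg Q1 (a := -2) (b := -1) (by norm_num)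
    (by norm_num [Q1]) (by norm_num [Q1])
  obtain ⟨b, hb1, hb2, hb⟩ := exists_root_of_neg_pos Q1 (a := 5) (b := 5.874) (by norm_num)
    (by norm_num [Q1]) (by norm_num [Q1])
  refine ⟨a, b, by linarith, by linarith, hb2,
    roots_eq_of_nodup _ Q1_ne _ ?_ ?_ (by simp [Q1_deg])⟩
  · have h1 : a ≠ b := by linarith
    simp [h1]
  · intro x hx
    simp only [Multiset.insert_eq_cons, Multiset.mem_cons, Multiset.mem_singleton] at hx
    rcases hx with rfl | rfl <;> assumption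

theorem filt (k : ℕ) : (((X + C 1 : ℝ[X]) ^ k).roots.filter (fun x => 0 < x)) = 0 := by
  rw [Multiset.filter_eq_nil]
  intro a ha
  have hne : ((X + C 1 : ℝ[X]) ^ k) ≠ 0 := pow_ne_zero _ (X_add_C_ne_zero 1)
  have h := (mem_roots hne).1 ha
  simp only [IsRoot.def, eval_pow, eval_add, eval_X, eval_C] at h
  have h2 : a + 1 = 0 := eq_zero_of_pow_eq_zero h
  linarith

theorem result :
    ¬ (∀ p : ℝ, 3 ≤ p → ∀ (n : ℕ) (G : SimpleGraph (Fin n)) (u v : Fin n), u ≠ v → ¬ G.Adj u v →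
      ((((G ⊔ SimpleGraph.edge u v).adjMatrix ℝ).charpoly.roots.filter (fun x => 0 < x)).map
          (fun x => x ^ p)).sum ≥
        (((G.adjMatrix ℝ).charpoly.roots.filter (fun x => 0 < x)).map (fun x => x ^ p)).sum) := by
  intro h
  have hna : ¬ G.Adj 0 19 := by
    have : ¬ ((0 : Fin 20) ≠ 19 ∧ q0 (cls 0) (cls 19) = true) := by decide +kernel
    exact this
  have h1 := h 3 le_rfl 20 G 0 19 (by decide) hna
  rw [charpoly_clique_blowup (by norm_num) G cls q0 sz (by decide) (fun _ _ => Iff.rfl) hsz,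
    charpoly_clique_blowup (by norm_num) _ cls q1 sz (by decide) adj1 hsz, M0, M1, cp0, cp1] at h1
  have hX : (X + C 1 : ℝ[X]) ≠ 0 := X_add_C_ne_zero 1
  have hX6 : (X - C 6 : ℝ[X]) ≠ 0 := X_sub_C_ne_zero 6
  have hp : ((X + C 1 : ℝ[X]) ^ (20 - 5)) ≠ 0 := pow_ne_zero _ hX
  rw [roots_mul (mul_ne_zero hp (mul_ne_zero Q1_ne P1_ne)), roots_mul (mul_ne_zero Q1_ne P1_ne),
    roots_mul (mul_ne_zero hp (mul_ne_zero hX6 (mul_ne_zero hX P0_ne))),
    roots_mul (mul_ne_zero hX6 (mul_ne_zero hX P0_ne)), roots_mul (mul_ne_zero hX P0_ne)] at h1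
  obtain ⟨a, b, c, ha, hb, hc, e0⟩ := P0_roots
  obtain ⟨a1, b1, c1, ha1, hb1, hb1', hc1, hc1', e1⟩ := P1_roots
  obtain ⟨a2, b2, ha2, hb2, hb2', e2⟩ := Q1_roots
  have f1 := filt 1
  rw [pow_one] at f1
  simp only [Multiset.filter_add, filt, f1, e0, e1, e2, roots_X_sub_C] at h1
  have hb0 : 0 < b := by linarith
  have hc0 : 0 < c := by linarith
  have n1 : ¬ 0 < a := by linarith
  have n2 : ¬ 0 < a1 := by linarith
  have n3 : ¬ 0 < a2 := by linarith
  have e3 : ∀ x : ℝ, x ^ (3 : ℝ) = x ^ 3 := fun x => by exact_mod_cast Real.rpow_natCast x 3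
  simp [Multiset.filter_singleton, Multiset.filter_cons, hb0, hc0, n1, n2, n3, hb1, hc1, hb2,
    e3] at h1
  have i1 : b2 ^ 3 < 5.874 ^ 3 := by gcongr
  have i2 : b1 ^ 3 < 1.371 ^ 3 := by gcongr
  have i3 : c1 ^ 3 < 13.725 ^ 3 := by gcongr
  have i4 : 0.51 ^ 3 < b ^ 3 := by gcongr
  have i5 : 13.706 ^ 3 < c ^ 3 := by gcongr
  norm_num at i1 i2 i3 i4 i5 h1
  linarith

end Pool.Agent.S12216
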