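import Pool.Statements.S12226
import Pool.Agent.H.MP_eb5675_co.Key

set_option autoImplicit false
open Classical
open Pool Pool.MP_eb5675_co

namespace Pool.Agent.S12226

open Pool.Agent.H.MP_eb5675_co

theorem edges (inst : Fintype (⊤ : SimpleGraph (Fin 6)).edgeSet) :
    @SimpleGraph.edgeFinset _ (⊤ : SimpleGraph (Fin 6)) inst = L.toFinset := by
  ext e
  induction e using Sym2.ind with
  | _ i j => simp [L_mem]

theorem term (V' : Finset (Fin 6)) (H : SimpleGraph (Fin 6)) (i j : Fin 6)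
    (d1 : Decidable (s(i, j) ∈ H.edgeSet)) (d2 : Decidable (∀ v ∈ s(i, j), v ∈ V'))
    (d3 : Decidable (∃ v ∈ s(i, j), v ∈ V')) :
    (if s(i, j) ∈ H.edgeSet then (-1 : ℝ)
              else if (∀ v ∈ s(i, j), v ∈ V') then 2
              else if (∃ v ∈ s(i, j), v ∈ V') then 1 / 2
              else 0) = ((w (decide (H.Adj i j)) (decide (i ∈ V')) (decide (j ∈ V')) : ℤ) : ℝ) / 2 := by
  by_cases h1 : H.Adj i j <;> by_cases h2 : i ∈ V' <;> by_cases h3 : j ∈ V' <;>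
    simp [w, h1, h2, h3] <;> norm_num

theorem result :
    ¬ (∀ (V : Type) [Fintype V] (G : SimpleGraph V) (x : Sym2 V → ℝ),
      (∃ c : Finset V → ℝ, (∀ t, 0 ≤ c t) ∧
          ∀ e ∈ G.edgeFinset,
            x e = ∑ t ∈ G.cliqueFinset 3, (if (∀ v ∈ e, v ∈ t) then c t else 0)) ↔
      (∀ (V' : Finset V) (H : SimpleGraph V), H ≤ G →
          (∀ u v, H.Adj u v → u ∈ V' ∧ v ∈ V') → H.CliqueFree 3 →
          0 ≤ ∑ e ∈ G.edgeFinset,
            (if e ∈ H.edgeSet then (-1 : ℝ)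
              else if (∀ v ∈ e, v ∈ V') then 2
              else if (∃ v ∈ e, v ∈ V') then 1 / 2
              else 0) * x e)) := by
  intro h
  have h6 := (h (Fin 6) ⊤ (fun e => ((xz e : ℤ) : ℝ))).2 (by
    intro V' H _ hV hfree
    rw [edges, List.sum_toFinset _ L_nodup]
    have hk := key2 (fun i => decide (i ∈ V')) (fun i j => decide (H.Adj i j))
      (by
        intro i j
        by_cases hij : H.Adj i j
        · have := hV i j hij
          simp [this.1, this.2]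
        · simp [hij])
      (by
        intro k i j _ _ _
        by_cases hh : H.Adj k i ∧ H.Adj k j ∧ H.Adj i j
        · exact absurd (SimpleGraph.is3Clique_triple_iff.2 hh) (hfree {k, i, j})
        · simp only [Bool.not_eq_true', Bool.and_eq_false_iff, decide_eq_false_iff_not]
          tauto)
    have hk' : (0 : ℝ) ≤ (((w (decide (H.Adj 0 1)) (decide (0 ∈ V')) (decide (1 ∈ V')) * 5 + (w (decide (H.Adj 0 2)) (decide (0 ∈ V')) (decide (2 ∈ V')) * 1 + (w (decide (H.Adj 1 2)) (decide (1 ∈ V')) (decide (2 ∈ V')) * 4 + (w (decide (H.Adj 0 3)) (decide (0 ∈ V')) (decide (3 ∈ V')) * 1 + (w (decide (H.Adj 1 3)) (decide (1 ∈ V')) (decide (3 ∈ V')) * 4 + (w (decide (H.Adj 2 3)) (decide (2 ∈ V')) (decide (3 ∈ V')) * 3 + (w (decide (H.Adj 0 4)) (decide (0 ∈ V')) (decide (4 ∈ V')) * 1 + (w (decide (H.Adj 1 4)) (decide (1 ∈ V')) (decide (4 ∈ V')) * 4 + (w (decide (H.Adj 2 4)) (decide (2 ∈ V')) (decide (4 ∈ V'))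 * 3 + (w (decide (H.Adj 3 4)) (decide (3 ∈ V')) (decide (4 ∈ V')) * 3 + (w (decide (H.Adj 0 5)) (decide (0 ∈ V')) (decide (5 ∈ V')) * 1 + (w (decide (H.Adj 1 5)) (decide (1 ∈ V')) (decide (5 ∈ V')) * 4 + (w (decide (H.Adj 2 5)) (decide (2 ∈ V')) (decide (5 ∈ V')) * 3 + (w (decide (H.Adj 3 5)) (decide (3 ∈ V')) (decide (5 ∈ V')) * 3 + (w (decide (H.Adj 4 5)) (decide (4 ∈ V')) (decide (5 ∈ V')) * 3 + (0)))))))))))))))) : ℤ) : ℝ) := by
      exact_mod_cast hk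
    simp only [L, List.map_cons, List.map_nil, List.sum_cons, List.sum_nil, term]
    rw [e01, e02, e12, e03, e13, e23, e04, e14, e24, e34, e05, e15, e25, e35, e45]
    push_cast at hk' ⊢
    linarith)
  obtain ⟨c, hc, hx⟩ := h6
  have hx' : ∀ j : Fin 6, 0 ≠ j → ((xz s(0, j) : ℤ) : ℝ) =
      ∑ t ∈ (⊤ : SimpleGraph (Fin 6)).cliqueFinset 3,
        ((if (0 ∈ t ∧ j ∈ t) then (1 : ℤ) else 0 : ℤ) : ℝ) * c t := by
    intro j hj
    have := hx s(0, j) (by simpa using hj)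
    rw [this]
    refine Finset.sum_congr (by ext t; simp only [SimpleGraph.mem_cliqueFinset_iff]) (fun t _ => ?_)
    by_cases h1 : (0 : Fin 6) ∈ t <;> by_cases h2 : j ∈ t <;> simp [h1, h2]
  have h1 := hx' 1 (by decide)
  have h2 := hx' 2 (by decide)
  have h3 := hx' 3 (by decide)
  have h4 := hx' 4 (by decide)
  have h5 := hx' 5 (by decide)
  rw [e01] at h1; rw [e02] at h2; rw [e03] at h3; rw [e04] at h4; rw [e05] at h5
  have hle : ∑ t ∈ (⊤ : SimpleGraph (Fin 6)).cliqueFinset 3,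
        ((if (0 ∈ t ∧ 1 ∈ t) then (1 : ℤ) else 0 : ℤ) : ℝ) * c t ≤
      ∑ t ∈ (⊤ : SimpleGraph (Fin 6)).cliqueFinset 3,
        (((if (0 ∈ t ∧ 2 ∈ t) then (1 : ℤ) else 0 : ℤ) : ℝ) * c t +
        ((if (0 ∈ t ∧ 3 ∈ t) then (1 : ℤ) else 0 : ℤ) : ℝ) * c t +
        ((if (0 ∈ t ∧ 4 ∈ t) then (1 : ℤ) else 0 : ℤ) : ℝ) * c t +
        ((if (0 ∈ t ∧ 5 ∈ t) then (1 : ℤ) else 0 : ℤ) : ℝ) * c t) := by
    refine Finset.sum_le_sum (fun t ht => ?_)
    have hcard : t.card = 3 := (SimpleGraph.mem_cliqueFinset_iff.1 ht).card_eq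
    have hco : (((if (0 ∈ t ∧ 1 ∈ t) then (1 : ℤ) else 0 : ℤ)) : ℝ) ≤
        (((if (0 ∈ t ∧ 2 ∈ t) then (1 : ℤ) else 0) +
      (if (0 ∈ t ∧ 3 ∈ t) then 1 else 0) + (if (0 ∈ t ∧ 4 ∈ t) then 1 else 0) +
      (if (0 ∈ t ∧ 5 ∈ t) then 1 else 0) : ℤ) : ℝ) := by
      exact_mod_cast coef t hcard
    rw [← add_mul, ← add_mul, ← add_mul]
    refine mul_le_mul_of_nonneg_right ?_ (hc t)
    simpa only [Int.cast_add] using hco
  rw [Finset.sum_add_distrib, Finset.sum_add_distrib, Finset.sum_add_distrib,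
    ← h1, ← h2, ← h3, ← h4, ← h5] at hle
  norm_num at hle

end Pool.Agent.S12226
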