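import Pool.Statements.S12266
-- import your own Pool.Agent.* helpers here

set_option autoImplicit false
open Pool Pool.MP_ed2cb0_co

namespace Pool.Agent.S12266

def EG : List (ℕ × ℕ) := [(0, 3), (0, 4), (0, 6), (0, 7), (0, 8), (1, 2), (1, 3), (1, 5), (1, 7), (1, 8), (2, 4), (2, 5), (2, 6), (2, 7), (3, 5), (3, 8), (4, 5), (4, 6), (4, 8), (5, 7), (6, 7), (6, 8)]

def G : SimpleGraph (Fin 9) where
  Adj u v := (u.val, v.val) ∈ EG ∨ (v.val, u.val) ∈ EG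
  symm := ⟨fun _ _ h => h.symm⟩
  loopless := ⟨by decide⟩

instance : DecidableRel G.Adj := fun u v =>
  inferInstanceAs (Decidable ((u.val, v.val) ∈ EG ∨ (v.val, u.val) ∈ EG))

def H : SimpleGraph (Fin 7) where
  Adj u v := u.val + 1 = v.val ∨ v.val + 1 = u.val
  symm := ⟨fun _ _ h => h.symm⟩
  loopless := ⟨by decide⟩

instance : DecidableRel H.Adj := fun u v =>
  inferInstanceAs (Decidable (u.val + 1 = v.val ∨ v.val + 1 = u.val))

abbrev Irr (D : Finset (Fin 9)) : Prop :=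
  ∀ v ∈ D, ∃ w : Fin 9, (w = v ∨ G.Adj v w) ∧ ∀ u ∈ D, u ≠ v → ¬ (w = u ∨ G.Adj u w)

def S : Fin 7 → Finset (Fin 9) := ![{1, 2, 7}, {1, 5, 7}, {3, 5, 7}, {3, 4, 7}, {0, 3, 4}, {0, 4, 8}, {4, 6, 8}]

theorem key : ∀ D : Finset (Fin 9), Irr D → D.card ≤ 2 ∨ ∃ i, S i = D := by decide +kernel

theorem S_irr : ∀ i, Irr (S i) ∧ (S i).card = 3 := by decide +kernel

theorem S_inj : Function.Injective S := by decide +kernel

theorem S_adj : ∀ i j, (S i ≠ S j ∧ ((∃ u v : Fin 9, S i \ S j = {u} ∧ S j \ S i = {v} ∧ G.Adj u v) ∨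
    ∃ u v : Fin 9, S j \ S i = {u} ∧ S i \ S j = {v} ∧ G.Adj u v)) ↔ H.Adj i j := by decide +kernel

set_option synthInstance.maxSize 1024 in
theorem H_claw : ∀ (a b c d : Fin 7), H.Adj a b → H.Adj a c → H.Adj a d → b ≠ c → b ≠ d → c ≠ d →
    H.Adj b c ∨ H.Adj b d ∨ H.Adj c d := by decide +kernel

theorem S_max (i : Fin 7) (F : Finset (Fin 9)) (hF : Irr F) : F.card ≤ (S i).card := by
  rw [(S_irr i).2]
  rcases key F hF with h | ⟨j, rfl⟩
  · omega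
  · exact (S_irr j).2.le

noncomputable def e : Fin 7 ≃ {D : Finset (Fin 9) // Irr D ∧ ∀ F : Finset (Fin 9), Irr F → F.card ≤ D.card} :=
  Equiv.ofBijective (fun i => ⟨S i, (S_irr i).1, S_max i⟩) ⟨fun i j h => S_inj (congrArg Subtype.val h), by
    rintro ⟨D, h1, h2⟩
    have h3 := h2 _ (S_irr 0).1
    rw [(S_irr 0).2] at h3
    obtain ⟨j, rfl⟩ := (key D h1).resolve_left (by omega)
    exact ⟨j, rfl⟩⟩

theorem result :
    ¬ (∀ (n : ℕ) (H : SimpleGraph (Fin n)), H.Connected →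
    (∀ a b c d : Fin n, H.Adj a b → H.Adj a c → H.Adj a d → b ≠ c → b ≠ d → c ≠ d →
        H.Adj b c ∨ H.Adj b d ∨ H.Adj c d) →
    (∃ (p : ℕ) (G : SimpleGraph (Fin p)),
      Nonempty (H ≃g SimpleGraph.fromRel
        (fun (D E : {D : Finset (Fin p) //
            (∀ v ∈ D, ∃ w : Fin p, (w = v ∨ G.Adj v w) ∧
                ∀ u ∈ D, u ≠ v → ¬ (w = u ∨ G.Adj u w)) ∧
            ∀ F : Finset (Fin p),
              (∀ v ∈ F, ∃ w : Fin p, (w = v ∨ G.Adj v w) ∧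
                  ∀ u ∈ F, u ≠ v → ¬ (w = u ∨ G.Adj u w)) →
              F.card ≤ D.card}) =>
          ∃ u v : Fin p, D.1 \ E.1 = {u} ∧ E.1 \ D.1 = {v} ∧ G.Adj u v))) →
    (∃ k : ℕ, Nonempty (H ≃g (⊤ : SimpleGraph (Fin k)))) ∨
    (∃ m k : ℕ, 2 ≤ m ∧ 2 ≤ k ∧
      Nonempty (H ≃g SimpleGraph.boxProd (⊤ : SimpleGraph (Fin m)) (⊤ : SimpleGraph (Fin k))))) := by
  intro h
  have h1 := h 7 H (by decide) H_claw ⟨9, G, ⟨⟨e, by
    intro i j
    rw [SimpleGraph.fromRel_adj, ← S_adj i j, ne_eq, ne_eq, Subtype.ext_iff]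
    rfl⟩⟩⟩
  rcases h1 with ⟨k, ⟨f⟩⟩ | ⟨m, k, hm, hk, ⟨f⟩⟩
  · have h2 : H.Adj 0 2 := by
      rw [← f.map_adj_iff, SimpleGraph.top_adj]
      exact f.injective.ne (by decide)
    exact absurd h2 (by decide)
  · have h2 := f.card_eq
    simp only [Fintype.card_fin, Fintype.card_prod] at h2
    have h3 : Nat.Prime 7 := by norm_num
    rw [h2] at h3
    rcases Nat.prime_mul_iff.mp h3 with h4 | h4 <;> omega

end Pool.Agent.S12266
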