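import Pool.Statements.S12318
import Mathlib
-- import your own Pool.Agent.* helpers here

set_option autoImplicit false
open MeasureTheory
open Pool Pool.MP_f0067e_co

namespace Pool.Agent.S12318

open Metric

abbrev E := EuclideanSpace ℝ (Fin 5)

inductive Part : Set E → List (Set E) → Prop
  | one (A : Set E) : Part A [A]
  | cut (A : Set E) (l₁ l₂ : List (Set E)) (v : E) (c : ℝ) : v ≠ 0 →
      Part (A ∩ {x | inner ℝ v x ≤ c}) l₁ → Part (A ∩ {x | c < inner ℝ v x}) l₂ →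
      Part A (l₁ ++ l₂)

theorem add (ν : Measure E) [IsFiniteMeasure ν] (A : Set E) (v : E) (c : ℝ) :
    ν.real (A ∩ {x | inner ℝ v x ≤ c}) + ν.real (A ∩ {x | c < inner ℝ v x}) = ν.real A := by
  have : MeasurableSet {x : E | inner ℝ v x ≤ c} :=
    (isClosed_le (by fun_prop) continuous_const).measurableSet
  rw [← measureReal_inter_add_sdiff (s := A) this]
  congr 2
  ext x
  simp

theorem mass (ν : Measure E) [IsFiniteMeasure ν] (m : ℝ) {A : Set E} {l : List (Set E)}
    (h : Part A l) (hm : ∀ P ∈ l, ν.real P = m) : ν.real A = l.length * m := by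
  induction h with
  | one A => simpa using hm
  | cut A l₁ l₂ v c _ _ _ h1 h2 =>
    rw [← add ν A v c, h1 fun P hP => hm P (List.mem_append_left _ hP),
      h2 fun P hP => hm P (List.mem_append_right _ hP), List.length_append]
    push_cast
    ring

theorem pos {A : Set E} {l : List (Set E)} (h : Part A l) : 1 ≤ l.length := by
  induction h with
  | one A => simp
  | cut A l₁ l₂ v c _ _ _ h1 h2 =>
    rw [List.length_append]
    omega

noncomputable def ρ (p : E) : Measure E := volume.restrict (ball p (1 / 200))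

instance (p : E) : IsFiniteMeasure (ρ p) :=
  isFiniteMeasure_restrict.mpr measure_ball_lt_top.ne

def Cut (X Y : Set E) : Prop := ∃ (v : E) (c η : ℝ), 0 < η ∧ (∃ i, 30 * η < |v i|) ∧ ∀ p : E,
  (0 < (ρ p).real X → inner ℝ v p - c ≤ η) ∧ (0 < (ρ p).real Y → -η ≤ inner ℝ v p - c)

theorem Cut.symm {X Y : Set E} (h : Cut X Y) : Cut Y X := by
  obtain ⟨v, c, η, h0, ⟨i, hi⟩, h⟩ := h
  refine ⟨-v, -c, η, h0, ⟨i, by simpa using hi⟩, fun p => ⟨fun q => ?_, fun q => ?_⟩⟩
  · rw [inner_neg_left]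
    linarith [(h p).2 q]
  · rw [inner_neg_left]
    linarith [(h p).1 q]

theorem near {p : E} {X : Set E} (v : E) {H : Set E} (hH : MeasurableSet H)
    (h : 0 < (ρ p).real (X ∩ H)) : ∃ x ∈ H, |inner ℝ v x - inner ℝ v p| ≤ ‖v‖ / 200 := by
  have h1 : (ρ p).real H ≠ 0 := (h.trans_le (measureReal_mono Set.inter_subset_right)).ne'
  rw [measureReal_ne_zero_iff, ρ, Measure.restrict_apply hH] at h1
  obtain ⟨x, hx, hb⟩ := nonempty_of_measure_ne_zero h1
  refine ⟨x, hx, ?_⟩
  rw [← inner_sub_right]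
  rw [mem_ball, dist_eq_norm] at hb
  exact (abs_real_inner_le_norm _ _).trans (by nlinarith [norm_nonneg v])

theorem cutc (A : Set E) (v : E) (c : ℝ) (hv : v ≠ 0) :
    Cut (A ∩ {x | inner ℝ v x ≤ c}) (A ∩ {x | c < inner ℝ v x}) := by
  have h0 := norm_pos_iff.mpr hv
  refine ⟨v, c, ‖v‖ / 200, by positivity, ?_, fun p => ⟨fun h => ?_, fun h => ?_⟩⟩
  · by_contra! hn
    have h1 := EuclideanSpace.norm_sq_eq v
    rw [Fin.sum_univ_five] at h1
    have : ∀ i, ‖v i‖ ^ 2 ≤ (30 * (‖v‖ / 200)) ^ 2 := fun i =>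
      pow_le_pow_left₀ (norm_nonneg _) (hn i) 2
    nlinarith [this 0, this 1, this 2, this 3, this 4]
  · obtain ⟨x, hx, h⟩ := near v (isClosed_le (by fun_prop) continuous_const).measurableSet h
    have : inner ℝ v x ≤ c := hx
    linarith [(abs_le.mp h).1]
  · obtain ⟨x, hx, h⟩ := near v (isOpen_lt continuous_const (by fun_prop)).measurableSet h
    have : c < inner ℝ v x := hx
    linarith [(abs_le.mp h).2]

theorem split {A : Set E} {l : List (Set E)} (h : Part A l) (h2 : 2 ≤ l.length) :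
    ∃ X Y l₁ l₂, Part X l₁ ∧ Part Y l₂ ∧ l₁ ⊆ l ∧ l₂ ⊆ l ∧ l₁.length + l₂.length = l.length ∧
      l₁.length ≤ l₂.length ∧ Cut X Y ∧ ∀ p, (ρ p).real X + (ρ p).real Y = (ρ p).real A := by
  cases h with
  | one => simp at h2
  | cut _ l₁ l₂ v c hv h1 h3 =>
    rcases le_total l₁.length l₂.length with h | h
    · exact ⟨_, _, l₁, l₂, h1, h3, List.subset_append_left _ _, List.subset_append_right _ _,
        List.length_append.symm, h, cutc A v c hv, fun p => add _ _ _ _⟩
    · exact ⟨_, _, l₂, l₁, h3, h1, List.subset_append_right _ _, List.subset_append_left _ _,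
        by rw [List.length_append, add_comm], h, (cutc A v c hv).symm,
        fun p => (add_comm _ _).trans (add _ _ _ _)⟩

noncomputable def P : Fin 5 → E :=
  ![!₂[1, 0, 0, 0, 0], !₂[0, 1, 0, 0, 0], !₂[0, 0, 1, 0, 0], !₂[0, 0, 0, 1, 0], !₂[0, 0, 0, 0, 0]]
noncomputable def Q : Fin 5 → E :=
  ![!₂[-1, -1, 1, 0, 1], !₂[-1, -1, -1, 0, 1], !₂[0, 0, 0, 0, 1], !₂[0, 0, -1, -1, -1],
    !₂[0, 0, 0, 0, 0]]
def a : Fin 5 → ℕ := ![9, 9, 7, 7, 12]
def b : Fin 5 → ℕ := ![3, 3, 5, 5, 0]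
noncomputable def μ (k : Fin 5) : Measure E := (a k : NNReal) • ρ (P k) + (b k : NNReal) • ρ (Q k)

instance (k : Fin 5) : IsFiniteMeasure (μ k) := by unfold μ; infer_instance

theorem μ_real (k : Fin 5) (S : Set E) :
    (μ k).real S = a k * (ρ (P k)).real S + b k * (ρ (Q k)).real S := by
  rw [μ, measureReal_add_apply, measureReal_nnreal_smul_apply, measureReal_nnreal_smul_apply]
  simp

noncomputable def u : ℝ := volume.real (ball (0 : E) (1 / 200))

theorem u_pos : 0 < u :=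
  ENNReal.toReal_pos (measure_ball_pos _ _ (by norm_num)).ne' measure_ball_lt_top.ne

theorem ρ_univ (p : E) : (ρ p).real Set.univ = u := by
  rw [ρ, measureReal_restrict_apply_univ, u, measureReal_def, measureReal_def,
    Measure.addHaar_ball_center]

theorem eqs {X : Set E} {l : List (Set E)} (h : Part X l)
    (hm : ∀ k, ∀ S ∈ l, (μ k).real S = 2 * u) :
    9 * (ρ (P 0)).real X + 3 * (ρ (Q 0)).real X = l.length * (2 * u) ∧
    9 * (ρ (P 1)).real X + 3 * (ρ (Q 1)).real X = l.length * (2 * u) ∧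
    7 * (ρ (P 2)).real X + 5 * (ρ (Q 2)).real X = l.length * (2 * u) ∧
    7 * (ρ (P 3)).real X + 5 * (ρ (Q 3)).real X = l.length * (2 * u) ∧
    12 * (ρ (P 4)).real X = l.length * (2 * u) := by
  have := fun k => (μ_real k X).symm.trans (mass (μ k) _ h (hm k))
  exact ⟨by simpa [a, b] using this 0, by simpa [a, b] using this 1, by simpa [a, b] using this 2,
    by simpa [a, b] using this 3, by simpa [a, b] using this 4⟩

theorem inn (v : E) : inner ℝ v (P 0) = v 0 ∧ inner ℝ v (P 1) = v 1 ∧ inner ℝ v (P 2) = v 2 ∧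
    inner ℝ v (P 3) = v 3 ∧ inner ℝ v (P 4) = 0 ∧ inner ℝ v (Q 0) = -v 0 - v 1 + v 2 + v 4 ∧
    inner ℝ v (Q 1) = -v 0 - v 1 - v 2 + v 4 ∧ inner ℝ v (Q 2) = v 4 ∧
    inner ℝ v (Q 3) = -v 2 - v 3 - v 4 := by
  simp [P, Q, PiLp.inner_apply, Fin.sum_univ_five]
  refine ⟨?_, ?_, ?_⟩ <;> ring

theorem small {v : E} {η : ℝ} (h : ∃ i, 30 * η < |v i|) (h0 : |v 0| ≤ 30 * η) (h1 : |v 1| ≤ 30 * η)
    (h2 : |v 2| ≤ 30 * η) (h3 : |v 3| ≤ 30 * η) (h4 : |v 4| ≤ 30 * η) : False := by
  obtain ⟨i, hi⟩ := h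
  fin_cases i <;> simp only [Fin.zero_eta, Fin.mk_one, Fin.reduceFinMk] at hi <;> linarith

theorem lvl2 {A : Set E} {l : List (Set E)} (h : Part A l) (hl : l.length = 3)
    (hm : ∀ k, ∀ S ∈ l, (μ k).real S = 2 * u) (q0 : (ρ (Q 0)).real A = u)
    (q1 : (ρ (Q 1)).real A = u) (q2 : (ρ (Q 2)).real A = u) (q3 : (ρ (Q 3)).real A = 0) : False := by
  obtain ⟨X, Y, l₁, l₂, h1, h2, s1, s2, hs, hle, ⟨v, c, η, hη, hv, hc⟩, ha⟩ := split h (by omega)
  have := pos h1
  obtain ⟨x0, x1, x2, x3, x4⟩ := eqs h1 fun k S hS => hm k S (s1 hS)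
  obtain ⟨y0, y1, y2, y3, y4⟩ := eqs h2 fun k S hS => hm k S (s2 hS)
  rw [(by omega : l₁.length = 1)] at x0 x1 x2 x3 x4
  rw [(by omega : l₂.length = 2)] at y0 y1 y2 y3 y4
  push_cast at x0 x1 x2 x3 x4 y0 y1 y2 y3 y4
  have n : ∀ p S, 0 ≤ (ρ p).real S := fun _ _ => measureReal_nonneg
  have hu := u_pos
  obtain ⟨i0, i1, i2, i3, i4, j0, j1, j2, j3⟩ := inn v
  have a0 := (hc (P 0)).2 (by linarith [ha (Q 0), n (Q 0) X])
  have a1 := (hc (P 1)).2 (by linarith [ha (Q 1), n (Q 1) X])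
  have b0 := (hc (Q 0)).2 (by linarith [ha (Q 0), n (P 0) X])
  have b1 := (hc (Q 1)).2 (by linarith [ha (Q 1), n (P 1) X])
  have b2 := (hc (Q 2)).2 (by linarith [ha (Q 2), n (P 2) X])
  have c2 := (hc (Q 2)).1 (by linarith [ha (Q 2), n (P 2) Y])
  have a3 := (hc (P 3)).2 (by linarith [ha (Q 3), n (Q 3) X])
  have c3 := (hc (P 3)).1 (by linarith [ha (Q 3), n (Q 3) Y])
  have a4 := (hc (P 4)).2 (by linarith)
  have c4 := (hc (P 4)).1 (by linarith)
  refine small hv ?_ ?_ ?_ ?_ ?_ <;> rw [abs_le] <;> constructor <;> linarith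

theorem main {l : List (Set E)} (h : Part Set.univ l) (hl : l.length = 6)
    (hm : ∀ k, ∀ S ∈ l, (μ k).real S = 2 * u) : False := by
  obtain ⟨X, Y, l₁, l₂, h1, h2, s1, s2, hs, hle, ⟨v, c, η, hη, hv, hc⟩, ha⟩ := split h (by omega)
  have := pos h1
  simp only [ρ_univ] at ha
  have m1 := fun k S hS => hm k S (s1 hS)
  have m2 := fun k S hS => hm k S (s2 hS)
  obtain ⟨x0, x1, x2, x3, x4⟩ := eqs h1 m1
  have n : ∀ p S, 0 ≤ (ρ p).real S := fun _ _ => measureReal_nonneg
  have hu := u_pos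
  obtain ⟨i0, i1, i2, i3, i4, j0, j1, j2, j3⟩ := inn v
  have hr : (1 : ℝ) ≤ l₁.length ∧ (l₁.length : ℝ) ≤ 3 :=
    ⟨by exact_mod_cast this, by exact_mod_cast (by omega : l₁.length ≤ 3)⟩
  have r1 := mul_le_mul_of_nonneg_right hr.1 (by linarith : 0 ≤ 2 * u)
  have r2 := mul_le_mul_of_nonneg_right hr.2 (by linarith : 0 ≤ 2 * u)
  have a0 := (hc (P 0)).2 (by linarith [ha (P 0), n (Q 0) X])
  have a1 := (hc (P 1)).2 (by linarith [ha (P 1), n (Q 1) X])
  have a2 := (hc (P 2)).2 (by linarith [ha (P 2), n (Q 2) X])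
  have a3 := (hc (P 3)).2 (by linarith [ha (P 3), n (Q 3) X])
  have a4 := (hc (P 4)).2 (by linarith [ha (P 4)])
  have c4 := (hc (P 4)).1 (by linarith)
  obtain e | e | e : l₁.length = 1 ∨ l₁.length = 2 ∨ l₁.length = 3 := by omega
  all_goals
    rw [e] at x0 x1 x2 x3 x4
    push_cast at x0 x1 x2 x3 x4
  · have b0 := (hc (Q 0)).2 (by linarith [ha (Q 0), n (P 0) X])
    have b1 := (hc (Q 1)).2 (by linarith [ha (Q 1), n (P 1) X])
    have b2 := (hc (Q 2)).2 (by linarith [ha (Q 2), n (P 2) X])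
    have b3 := (hc (Q 3)).2 (by linarith [ha (Q 3), n (P 3) X])
    refine small hv ?_ ?_ ?_ ?_ ?_ <;> rw [abs_le] <;> constructor <;> linarith
  · have c0 := (hc (P 0)).1 (by linarith [ha (Q 0), n (Q 0) Y])
    have c1 := (hc (P 1)).1 (by linarith [ha (Q 1), n (Q 1) Y])
    have b2 := (hc (Q 2)).2 (by linarith [ha (Q 2), n (P 2) X])
    have b3 := (hc (Q 3)).2 (by linarith [ha (Q 3), n (P 3) X])
    refine small hv ?_ ?_ ?_ ?_ ?_ <;> rw [abs_le] <;> constructor <;> linarith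
  · have c0 := (hc (P 0)).1 (by linarith [ha (Q 0), n (Q 0) Y])
    have c1 := (hc (P 1)).1 (by linarith [ha (Q 1), n (Q 1) Y])
    have c2 := (hc (P 2)).1 (by linarith [ha (Q 2), n (Q 2) Y])
    have c3 := (hc (P 3)).1 (by linarith [ha (Q 3), n (Q 3) Y])
    have zx : ∀ p, η < inner ℝ v p - c → (ρ p).real X = 0 := fun p q =>
      le_antisymm (not_lt.mp fun r => q.not_ge ((hc p).1 r)) (n _ _)
    have zy : ∀ p, inner ℝ v p - c < -η → (ρ p).real Y = 0 := fun p q =>
      le_antisymm (not_lt.mp fun r => q.not_ge ((hc p).2 r)) (n _ _)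
    rcases le_or_gt (v 4) (-30 * η) with g | g
    · exact lvl2 h1 e m1 (by linarith [ha (Q 0), zy (Q 0) (by linarith)])
        (by linarith [ha (Q 1), zy (Q 1) (by linarith)])
        (by linarith [ha (Q 2), zy (Q 2) (by linarith)]) (zx _ (by linarith))
    rcases le_or_gt (30 * η) (v 4) with g' | g'
    · exact lvl2 h2 (by omega) m2 (by linarith [ha (Q 0), zx (Q 0) (by linarith)])
        (by linarith [ha (Q 1), zx (Q 1) (by linarith)])
        (by linarith [ha (Q 2), zx (Q 2) (by linarith)]) (zy _ (by linarith))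
    refine small hv ?_ ?_ ?_ ?_ ?_ <;> rw [abs_le] <;> constructor <;> linarith

/-- The negation of the preceding statement: For d ≥ 1 and even r > 0, any d finite absolutely continuous measures on ℝ^d admit a partition into r parts by iterated hyperplane cuts in which all parts have equal measure in each measure. -/
theorem result :
    ¬ (∀ d : ℕ, 1 ≤ d → ∀ r : ℕ, Even r → 0 < r →
      ∀ μ : Fin d → Measure (EuclideanSpace ℝ (Fin d)),
        (∀ k, IsFiniteMeasure (μ k)) →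
        (∀ k, μ k ≪ (volume : Measure (EuclideanSpace ℝ (Fin d)))) →
        ∃ L : List (Set (EuclideanSpace ℝ (Fin d))),
          L.length = r ∧
          (∀ S : Set (EuclideanSpace ℝ (Fin d)) → List (Set (EuclideanSpace ℝ (Fin d))) → Prop,
              (∀ A, S A [A]) →
              (∀ (A : Set (EuclideanSpace ℝ (Fin d))) (l₁ l₂ : List (Set (EuclideanSpace ℝ (Fin d))))
                  (v : EuclideanSpace ℝ (Fin d)) (c : ℝ), v ≠ 0 →
                  S (A ∩ {x | inner ℝ v x ≤ c}) l₁ →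
                  S (A ∩ {x | c < inner ℝ v x}) l₂ →
                  S A (l₁ ++ l₂)) →
              S Set.univ L) ∧
          ∀ k, ∀ P ∈ L, ∀ Q ∈ L, μ k P = μ k Q) := by
  intro h
  obtain ⟨L, hL, hP, hm⟩ := h 5 (by norm_num) 6 (by decide) (by norm_num) μ (fun _ => inferInstance)
    fun k => Measure.AbsolutelyContinuous.add_left
      ((Measure.absolutelyContinuous_of_le Measure.restrict_le_self).smul_left _)
      ((Measure.absolutelyContinuous_of_le Measure.restrict_le_self).smul_left _)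
  have hp := hP Part Part.one Part.cut
  refine main hp hL fun k S hS => ?_
  have := mass (μ k) ((μ k).real S) hp fun T hT => by
    rw [measureReal_def, measureReal_def, hm k T hT S hS]
  rw [hL, μ_real, ρ_univ, ρ_univ, ← add_mul] at this
  have e : (a k : ℝ) + b k = 12 := by fin_cases k <;> norm_num [a, b]
  rw [e] at this
  push_cast at this
  linarith

end Pool.Agent.S12318
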