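import Pool.Statements.S12348
-- import your own Pool.Agent.* helpers here

set_option autoImplicit false
open Pool Pool.MP_f13a95_co

namespace Pool.Agent.S12348

def M : ℕ → ℤ
  | 0 => 1
  | p + 1 => 16 * M p ^ 2

theorem M_ge (p : ℕ) : (p : ℤ) + 1 ≤ M p := by
  induction p with
  | zero => simp [M]
  | succ p ih =>
    simp only [M]
    push_cast
    nlinarith [Int.natCast_nonneg p]

theorem M_pos (p : ℕ) : 1 ≤ M p := by
  have := M_ge p
  have := Int.natCast_nonneg p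
  omega

theorem M_mono : Monotone M := by
  apply monotone_nat_of_le_succ
  intro p
  have := M_pos p
  simp only [M]
  nlinarith

def In (p : ℕ) (x : ℤ) : Prop := M p ≤ x ∧ x ≤ M p + p

theorem In.le {p r : ℕ} {x : ℤ} (h : In p x) (hp : p ≤ r) : 1 ≤ x ∧ x ≤ 2 * M r := by
  have h1 := M_ge p
  have h2 := M_mono hp
  have h3 := M_pos p
  have := h.1
  have := h.2
  omega

theorem core {p q p' q' : ℕ} {x y x' y' m : ℤ} (hx : In p x) (hy : In q y) (hq : q < p)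
    (hx' : In p' x') (hy' : In q' y') (hq' : q' < p') (hm : 0 < m) (he : x' * y' = x * y + m)
    (hb : 16 * m ^ 2 < x * y) : y' = y := by
  obtain ⟨r, rfl⟩ : ∃ r, p = r + 1 := ⟨p - 1, by omega⟩
  have hK := M_pos r
  have hK2 := M_ge r
  obtain ⟨y1, y2⟩ := hy.le (show q ≤ r by omega)
  obtain ⟨x1, x2⟩ := hx.le le_rfl
  have hM : M (r + 1) = 16 * M r ^ 2 := rfl
  have hxy : x * y ≤ M (r + 1) ^ 2 := by
    have : x * y ≤ (2 * M (r + 1)) * (2 * M r) := mul_le_mul x2 y2 (by omega) (by omega)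
    have h2 : 4 * M r ≤ M (r + 1) := by nlinarith
    nlinarith
  have hMm : 4 * m < M (r + 1) := by
    by_contra h
    have h0 := M_pos (r + 1)
    nlinarith
  rcases lt_trichotomy p' (r + 1) with h | h | h
  · exfalso
    obtain ⟨a1, a2⟩ := hx'.le (show p' ≤ r by omega)
    obtain ⟨b1, b2⟩ := hy'.le (show q' ≤ r by omega)
    have : x' * y' ≤ (2 * M r) * (2 * M r) := mul_le_mul a2 b2 (by omega) (by omega)
    have h3 := hx.1
    nlinarith
  · subst h
    obtain ⟨b1, b2⟩ := hy'.le (show q' ≤ r by omega)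
    obtain ⟨c1, c2⟩ := hx
    obtain ⟨d1, d2⟩ := hx'
    push_cast at c2 d2
    have e1 : (x - M (r + 1)) * y ≤ (2 * M r) * (2 * M r) :=
      mul_le_mul (by omega) y2 (by omega) (by omega)
    have e2 : (x' - M (r + 1)) * y' ≤ (2 * M r) * (2 * M r) :=
      mul_le_mul (by omega) b2 (by omega) (by omega)
    have e3 : 0 ≤ (x - M (r + 1)) * y := mul_nonneg (by omega) (by omega)
    have e4 : 0 ≤ (x' - M (r + 1)) * y' := mul_nonneg (by omega) (by omega)
    rcases lt_trichotomy y' y with h | h | h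
    · exfalso
      have : M (r + 1) * (y' + 1) ≤ M (r + 1) * y := mul_le_mul_of_nonneg_left (by omega) (by omega)
      nlinarith
    · exact h
    · exfalso
      have : M (r + 1) * (y + 1) ≤ M (r + 1) * y' := mul_le_mul_of_nonneg_left (by omega) (by omega)
      nlinarith
  · exfalso
    have h3 : M (r + 1 + 1) ≤ M p' := M_mono h
    have h4 : M (r + 1 + 1) = 16 * M (r + 1) ^ 2 := rfl
    have h5 := hx'.1
    have h6 := (hy'.le le_rfl).1
    have h7 := (hx'.le le_rfl).1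
    have h0 := M_pos (r + 1)
    nlinarith

def U (n : ℤ) : Prop := |(n : ℝ) * Real.sqrt 2 - (round ((n : ℝ) * Real.sqrt 2) : ℝ)| < 1 / 10

theorem ap (m : ℤ) (hm : 0 < m) : ∃ N : ℕ, ∀ (y n0 : ℤ) (u : ℕ → ℤ), 1 ≤ y →
    (∀ i ≤ N, u i * y = n0 + i * m ∧ U (u i)) → False := by
  set θ := Real.sqrt 2
  have hδ : 0 < |(m : ℝ) * θ - (round ((m : ℝ) * θ) : ℝ)| := by
    rw [abs_pos, sub_ne_zero]
    have : Irrational ((m : ℝ) * θ) := irrational_sqrt_two.intCast_mul (by omega)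
    exact this.ne_int _
  obtain ⟨N, hN⟩ := exists_nat_gt ((m : ℝ) / |(m : ℝ) * θ - (round ((m : ℝ) * θ) : ℝ)|)
  rw [div_lt_iff₀ hδ] at hN
  refine ⟨N + 1, fun y n0 u hy hu => ?_⟩
  set e := u 1 - u 0 with he
  have hye : e * y = m := by
    have h0 := (hu 0 (by omega)).1
    have h1 := (hu 1 (by omega)).1
    push_cast at h0 h1
    rw [he]
    linarith
  have he1 : 1 ≤ e := by
    by_contra h
    nlinarith
  have hym : y ≤ m := by nlinarith
  have hui : ∀ i ≤ N + 1, u i = u 0 + i * e := by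
    intro i hi
    have h0 := (hu 0 (by omega)).1
    have h1 := (hu i hi).1
    push_cast at h0 h1
    apply mul_right_cancel₀ (show y ≠ 0 by omega)
    rw [h1, add_mul, h0, mul_assoc, hye]
    ring
  set w : ℕ → ℤ := fun i => round ((u i : ℝ) * θ) with hw
  have hz : ∀ i ≤ N + 1, |((u 0 : ℝ) + i * e) * θ - w i| < 1 / 10 := by
    intro i hi
    have := (hu i hi).2
    unfold U at this
    rw [hw]
    simp only
    convert this using 3
    rw [hui i hi]
    push_cast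
    ring
  have hwi : ∀ i ≤ N + 1, w i = w 0 + i * (w 1 - w 0) := by
    intro i
    induction i with
    | zero => simp
    | succ i ih =>
      intro hi
      have a0 := abs_lt.1 (hz 0 (by omega))
      have a1 := abs_lt.1 (hz 1 (by omega))
      have a2 := abs_lt.1 (hz i (by omega))
      have a3 := abs_lt.1 (hz (i + 1) hi)
      push_cast at a0 a1 a2 a3
      have b1 : ((w (i + 1) - w i - (w 1 - w 0) : ℤ) : ℝ) < 1 := by
        push_cast
        nlinarith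
      have b2 : (-1 : ℝ) < ((w (i + 1) - w i - (w 1 - w 0) : ℤ) : ℝ) := by
        push_cast
        nlinarith
      have b3 : w (i + 1) - w i - (w 1 - w 0) < 1 := by exact_mod_cast b1
      have b4 : -1 < w (i + 1) - w i - (w 1 - w 0) := by exact_mod_cast b2
      have := ih (by omega)
      push_cast
      linarith [show w (i + 1) - w i - (w 1 - w 0) = 0 by omega]
  have a0 := abs_lt.1 (hz 0 (by omega))
  have a1 := abs_lt.1 (hz N (by omega))
  rw [hwi N (by omega)] at a1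
  push_cast at a0 a1
  have h1 : |(N : ℝ) * (e * θ - (w 1 - w 0 : ℤ))| < 1 := by
    rw [abs_lt]
    push_cast
    constructor <;> nlinarith
  have h2 := round_le ((m : ℝ) * θ) (y * (w 1 - w 0))
  have h3 : |(m : ℝ) * θ - (y * (w 1 - w 0) : ℤ)| = y * |e * θ - (w 1 - w 0 : ℤ)| := by
    have hy' : (0 : ℝ) ≤ y := by exact_mod_cast (by omega : (0 : ℤ) ≤ y)
    rw [← abs_of_nonneg hy', ← abs_mul, ← hye]
    push_cast
    congr 1
    ring
  rw [abs_mul, Nat.abs_cast] at h1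
  have hy1 : (1 : ℝ) ≤ y := by exact_mod_cast hy
  have hym' : (y : ℝ) ≤ m := by exact_mod_cast hym
  have hN0 : (0 : ℝ) ≤ N := Nat.cast_nonneg N
  rw [h3] at h2
  have := mul_le_mul_of_nonneg_left h2 hN0
  nlinarith

theorem pw (c : ℕ) :
    ∃ (d : ℕ) (α : Fin d → ℝ) (ε : ℝ) (n₀ : ℤ) (T : Set ℤ), 0 < ε ∧
        (∀ L : ℕ, ∃ a : ℤ, ∀ k : ℕ, k < L → a + (k : ℤ) ∈ T) ∧
        ∀ n ∈ T, (∀ i : Fin d,
          |((n - n₀ : ℤ) : ℝ) * α i - (round (((n - n₀ : ℤ) : ℝ) * α i) : ℝ)| < ε) →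
          n ∈ {n : ℤ | (∃ j, In (2 * j + c) n) ∧ U n} := by
  refine ⟨1, fun _ => Real.sqrt 2, 1 / 10, 0, {n | ∃ j, In (2 * j + c) n}, by norm_num, ?_, ?_⟩
  · intro L
    refine ⟨M (2 * L + c), fun k hk => ⟨L, ?_, ?_⟩⟩
    · omega
    · push_cast
      omega
  · intro n hn h
    refine ⟨hn, ?_⟩
    simpa [U] using h 0

theorem result :
    ¬ (∀ B D : Set ℤ,
      (∃ (d : ℕ) (α : Fin d → ℝ) (ε : ℝ) (n₀ : ℤ) (T : Set ℤ), 0 < ε ∧
        (∀ L : ℕ, ∃ a : ℤ, ∀ k : ℕ, k < L → a + (k : ℤ) ∈ T) ∧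
        ∀ n ∈ T, (∀ i : Fin d,
          |((n - n₀ : ℤ) : ℝ) * α i - (round (((n - n₀ : ℤ) : ℝ) * α i) : ℝ)| < ε) → n ∈ B) →
      (∃ (d : ℕ) (α : Fin d → ℝ) (ε : ℝ) (n₀ : ℤ) (T : Set ℤ), 0 < ε ∧
        (∀ L : ℕ, ∃ a : ℤ, ∀ k : ℕ, k < L → a + (k : ℤ) ∈ T) ∧
        ∀ n ∈ T, (∀ i : Fin d,
          |((n - n₀ : ℤ) : ℝ) * α i - (round (((n - n₀ : ℤ) : ℝ) * α i) : ℝ)| < ε) → n ∈ D) →
      ∃ (m r : ℤ) (T : Set ℤ), 0 < m ∧
        (∀ L : ℕ, ∃ a : ℤ, ∀ k : ℕ, k < L → a + (k : ℤ) ∈ T) ∧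
        ∀ n ∈ T, n ≡ r [ZMOD m] → ∃ b ∈ B, ∃ c ∈ D, n = b * c) := by
  intro h
  obtain ⟨m, r, T, hm, hT, hP⟩ := h _ _ (pw 0) (pw 1)
  obtain ⟨N, hN⟩ := ap m hm
  obtain ⟨μ, rfl⟩ := Int.eq_ofNat_of_zero_le hm.le
  obtain ⟨a, ha⟩ := hT (μ * (16 * μ + N + 2))
  have k0 : 0 ≤ (r - a) % μ := Int.emod_nonneg _ (by omega)
  have k1 : (r - a) % μ < μ := Int.emod_lt_of_pos _ hm
  have H : ∀ i : ℕ, ∃ (p q : ℕ) (x y : ℤ), i ≤ 16 * μ + N → In p x ∧ In q y ∧ q < p ∧ U x ∧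
      x * y = a + (r - a) % μ + i * μ := by
    intro i
    by_cases hi : i ≤ 16 * μ + N
    · obtain ⟨k, hk⟩ := Int.eq_ofNat_of_zero_le k0
      have hk2 : k < μ := by omega
      have h1 := ha (k + i * μ) (by nlinarith)
      obtain ⟨b, ⟨⟨j, hb⟩, hb2⟩, c, ⟨⟨l, hc⟩, hc2⟩, hbc⟩ := hP _ h1 (by
        push_cast
        rw [← hk]
        have : (r - a) % μ ≡ r - a [ZMOD μ] := Int.mod_modEq _ _
        have h2 : (i : ℤ) * μ ≡ 0 [ZMOD μ] := (Int.modEq_zero_iff_dvd.2 (dvd_mul_left _ _))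
        have h3 := (Int.ModEq.refl a).add (this.add h2)
        simpa using h3)
      push_cast at hbc
      rcases lt_or_gt_of_ne (show 2 * j + 0 ≠ 2 * l + 1 by omega) with h4 | h4
      · exact ⟨_, _, c, b, fun _ => ⟨hc, hb, h4, hc2, by rw [hk]; linarith⟩⟩
      · exact ⟨_, _, b, c, fun _ => ⟨hb, hc, h4, hb2, by rw [hk]; linarith⟩⟩
    · exact ⟨0, 0, 0, 0, fun h => absurd h hi⟩
  choose p q x y hH using H
  have pos : 1 ≤ a + (r - a) % μ := by
    obtain ⟨h1, h2, -, -, h3⟩ := hH 0 (by omega)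
    have := (h1.le le_rfl).1
    have := (h2.le le_rfl).1
    push_cast at h3
    nlinarith
  have hy : ∀ i ≤ N, y (16 * μ + i) = y (16 * μ) := by
    intro i
    induction i with
    | zero => simp
    | succ i ih =>
      intro hi
      obtain ⟨a1, a2, a3, -, a4⟩ := hH (16 * μ + i) (by omega)
      obtain ⟨b1, b2, b3, -, b4⟩ := hH (16 * μ + (i + 1)) (by omega)
      rw [← ih (by omega)]
      refine core a1 a2 a3 b1 b2 b3 hm ?_ ?_
      · rw [a4, b4]
        push_cast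
        ring
      · rw [a4]
        push_cast
        nlinarith [Int.natCast_nonneg i]
  refine hN (y (16 * μ)) (a + (r - a) % μ + 16 * μ * μ) (fun i => x (16 * μ + i))
    ((hH (16 * μ) (by omega)).2.1.le le_rfl).1 ?_
  intro i hi
  obtain ⟨-, -, -, a3, a4⟩ := hH (16 * μ + i) (by omega)
  refine ⟨?_, a3⟩
  rw [← hy i hi, a4]
  push_cast
  ring

end Pool.Agent.S12348
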