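import Pool.Statements.S12383
import Pool.Agent.H.f2f693.A

set_option autoImplicit false
open Pool Pool.MP_f2f693_co

namespace Pool.Agent.S12383

theorem result :
  ∀ (W : (m : ℕ) → ((Fin m → ZMod 2) → ZMod 2) → (Fin m → ZMod 2) → ℤ),
    (∀ m f y, W m f y = ∑ x : Fin m → ZMod 2, (-1 : ℤ) ^ (f x + ∑ i, x i * y i).val) →
  ∀ (B : (m : ℕ) → Set ((Fin m → ZMod 2) → ZMod 2)),
    (∀ m, B m = {f | ∀ y, |W m f y| = 2 ^ (m / 2)}) →
  ∀ (L : ℕ → ℝ),
    (∀ m, L m = ((B m).ncard : ℝ) ^ 4 /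
      (({g | ∃ f ∈ B m, ∃ h ∈ B m, g = f + h} : Set ((Fin m → ZMod 2) → ZMod 2)).ncard : ℝ)) →
  ∀ (BI : ℕ → ℝ),
    (∀ m, BI m = (({t : Fin 4 → ((Fin m → ZMod 2) → ZMod 2) |
        (∀ i, t i ∈ B m) ∧ ∀ y, ∏ i, W m (t i) y = -(2 ^ (m / 2)) ^ 4}).ncard : ℝ)) →
  (∃ K : ℕ, ∀ k ≥ K, 1 < L (2 * k)) ∧
  Filter.Tendsto
    (fun k : ℕ => Real.logb 2 (Real.logb 2 (L (2 * k))) / Real.logb 2 (Real.logb 2 (BI (2 * k))))
    Filter.atTop (nhds 1) := by
  intro W hW B hB L hL BI hBI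
  obtain rfl : W = H.Bent.W := by funext m f y; exact hW m f y
  have big : ∀ k, 2 * k < (B (2 * k)).ncard := fun k => by
    rw [hB, Nat.mul_div_cancel_left _ two_pos]; exact H.Bent.big k
  have hb : Filter.Tendsto (fun k => ((B (2 * k)).ncard : ℝ)) Filter.atTop Filter.atTop :=
    tendsto_natCast_atTop_atTop.comp (Filter.tendsto_atTop_mono (fun k => by
      have := big k; simp only [id]; omega) Filter.tendsto_id)
  have hu : ∀ k, ((B (2 * k)).ncard : ℝ) ≤ L (2 * k) ∧ L (2 * k) ≤ (B (2 * k)).ncard ^ 4 := by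
    intro k
    obtain ⟨f, hf⟩ := Set.nonempty_of_ncard_ne_zero (s := B (2 * k)) (by have := big k; omega)
    have b1 : (1 : ℝ) ≤ (B (2 * k)).ncard := by exact_mod_cast (by have := big k; omega)
    rw [hL]
    set X : Set ((Fin (2 * k) → ZMod 2) → ZMod 2) :=
      {g | ∃ f ∈ B (2 * k), ∃ h ∈ B (2 * k), g = f + h}
    have x1 : (1 : ℝ) ≤ X.ncard := by
      exact_mod_cast (Set.ncard_pos (Set.toFinite X)).2 ⟨f + f, f, hf, f, hf, rfl⟩
    have x2 : (X.ncard : ℝ) ≤ (B (2 * k)).ncard * (B (2 * k)).ncard := by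
      have : X ⊆ (fun p => p.1 + p.2) '' (B (2 * k) ×ˢ B (2 * k)) := by
        rintro _ ⟨f, a, h, b, rfl⟩
        exact ⟨(f, h), ⟨a, b⟩, rfl⟩
      have := (Set.ncard_le_ncard this).trans (Set.ncard_image_le (Set.toFinite _))
      rw [Set.ncard_prod] at this
      exact_mod_cast this
    refine ⟨(le_div_iff₀ (by linarith)).2 ?_, div_le_self (by positivity) x1⟩
    generalize ((B (2 * k)).ncard : ℝ) = b at *
    nlinarith [mul_le_mul_of_nonneg_left x2 (show 0 ≤ b by linarith),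
      mul_le_mul_of_nonneg_left b1 (show 0 ≤ b ^ 3 by positivity)]
  refine ⟨?_, H.Bent.lim hb hu fun k => ?_⟩
  · refine ⟨1, fun k hk => lt_of_lt_of_le ?_ (hu k).1⟩
    exact_mod_cast (by have := big k; omega)
  · rw [hBI]
    constructor
    · refine Nat.cast_le.2 (Set.ncard_le_ncard_of_injOn (fun f => ![f, f, f, f + 1]) (fun f hf => ?_)
        fun a _ b _ e => congrFun e 0)
      rw [hB] at hf ⊢
      refine ⟨fun i y => ?_, fun y => ?_⟩
      · fin_cases i <;> simp [H.Bent.W_one, hf y]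
      · rw [← hf y, Even.pow_abs (by decide)]
        simp [Fin.prod_univ_four, H.Bent.W_one]
        ring
    · have := Set.ncard_le_ncard (t := Set.univ.pi fun _ : Fin 4 => B (2 * k))
        (s := {t : Fin 4 → ((Fin (2 * k) → ZMod 2) → ZMod 2) | (∀ i, t i ∈ B (2 * k)) ∧
          ∀ y, ∏ i, H.Bent.W (2 * k) (t i) y = -(2 ^ (2 * k / 2)) ^ 4}) fun t ht i _ => ht.1 i
      rw [← Nat.card_coe_set_eq (Set.pi _ _), Nat.card_congr (Equiv.Set.univPi _), Nat.card_pi] at this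
      simp only [Nat.card_coe_set_eq, Finset.prod_const, Finset.card_univ, Fintype.card_fin] at this
      exact_mod_cast this

end Pool.Agent.S12383
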