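import Pool.Statements.S12466
-- import your own Pool.Agent.* helpers here

set_option autoImplicit false
open Pool Pool.MP_f7a12b_co

namespace Pool.Agent.S12466

theorem block (d : ℕ) (w : List (Fin d)) (hw : w.length = (d + 1) * d + 1) :
    ∃ a, a + d < w.length ∧ ∀ i, a < i → i ≤ a + d → ∃ c u, w.drop i = c :: u ∧ c ∈ w.take i := by
  by_contra hc
  push Not at hc
  have hb : ∀ b : Fin (d + 1), b.val * d + d < w.length := fun b => by
    have : (b.val + 1) * d ≤ (d + 1) * d := Nat.mul_le_mul_right _ b.2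
    rw [add_mul] at this
    omega
  choose i h1 h2 h3 using fun b : Fin (d + 1) => hc (b.val * d) (hb b)
  have hi : ∀ b, i b < w.length := fun b => (h2 b).trans_lt (hb b)
  have key : ∀ b b' : Fin (d + 1), b < b' → w[i b]'(hi b) ≠ w[i b']'(hi b') := by
    intro b b' hlt e
    have : (b.val + 1) * d ≤ b'.val * d := Nat.mul_le_mul_right _ hlt
    rw [add_mul] at this
    have l : i b < i b' := by have := h2 b; have := h1 b'; omega
    refine h3 b' _ _ (List.drop_eq_getElem_cons (hi b')) ?_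
    rw [← e]
    exact List.mem_take_iff_getElem.mpr ⟨i b, by have := hi b; omega, rfl⟩
  obtain ⟨b, b', hne, e⟩ := Fintype.exists_ne_map_eq_of_card_lt (fun b => w[i b]'(hi b)) (by simp)
  rcases lt_or_gt_of_ne hne with h | h
  · exact key _ _ h e
  · exact key _ _ h e.symm

theorem core (d L : ℕ) (c₁ : Fin d) (a : List (Fin d) → ℕ)
    (ha : ∀ w : List (Fin d), w.length = L → a w + d < w.length ∧
      ∀ i, a w < i → i ≤ a w + d → ∃ c u, w.drop i = c :: u ∧ c ∈ w.take i)
    (Y : List (Fin d) → Prop) (h0 : ∃ l, Y l) (hL : ∀ l, Y l → l.length ≤ L)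
    (H1 : ∀ l, Y l → l.length < L → ∀ c₀, ∃ c, c ≠ c₀ ∧ Y (c :: l))
    (H2 : ∀ l, Y l → l.length = L → ∃ i, a l < i ∧ i ≤ a l + d ∧ ¬ Y (l.drop i))
    (H3 : ∀ l, Y l → l.length = L → ∃ i, a l < i ∧ i ≤ a l + d ∧ Y (l.drop i)) : False := by
  obtain ⟨r, hr, hmin⟩ := (measure List.length).wf.has_min {l | Y l} h0
  have hm : ∀ l, Y l → r.length ≤ l.length := fun l hl => not_lt.mp (hmin l hl)
  have step : ∀ n, n + r.length ≤ L → ∃ p : List (Fin d), p.length = n ∧ r.headD c₁ ∉ p ∧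
      ∀ j, Y (p.drop j ++ r) := by
    intro n
    induction n with
    | zero => exact fun _ => ⟨[], rfl, by simp, fun j => by simpa using hr⟩
    | succ n ih =>
      intro hn
      obtain ⟨p, p1, p2, p3⟩ := ih (by omega)
      obtain ⟨c, c1, c2⟩ := H1 _ (p3 0) (by simp; omega) (r.headD c₁)
      refine ⟨c :: p, by simp [p1], ?_, fun j => ?_⟩
      · simp only [List.mem_cons, not_or]
        exact ⟨c1.symm, p2⟩
      · cases j with
        | zero => simpa using c2
        | succ j => simpa using p3 j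
  have hrL := hL r hr
  obtain ⟨p, p1, p2, p3⟩ := step (L - r.length) (by omega)
  have y : Y (p ++ r) := by simpa using p3 0
  have l : (p ++ r).length = L := by simp; omega
  obtain ⟨i, i1, i2, i3⟩ := H2 _ y l
  obtain ⟨j, j1, j2, j3⟩ := H3 _ y l
  obtain ⟨a1, a2⟩ := ha _ l
  have hi : p.length < i := by
    by_contra h
    rw [List.drop_append_of_le_length (not_lt.mp h)] at i3
    exact i3 (p3 i)
  have hj : j ≤ p.length := by
    have := hm _ j3
    rw [List.length_drop] at this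
    omega
  obtain ⟨c, u, e1, e2⟩ := a2 p.length (by omega) (by omega)
  rw [List.drop_left] at e1
  rw [List.take_left] at e2
  rw [e1] at p2
  exact p2 e2

theorem result :
    ¬ (∃ f : ℕ → ℕ, ∀ k : ℕ, 1 ≤ k →
      ∀ (V : Type) [Fintype V] [Nonempty V] (D : Digraph V),
        (∀ v, ¬ D.Adj v v) →
        (∀ v, f k ≤ {w : V | D.Adj v w}.ncard) →
        ∃ X : Set V, X ≠ Set.univ ∧
          (∀ y, y ∉ X → ∃ x ∈ X, D.Adj y x) ∧
          (∀ v, v ∉ X → k ≤ {w : V | w ∉ X ∧ D.Adj v w}.ncard)) := by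
  rintro ⟨f, hf⟩
  obtain ⟨d, hd⟩ : ∃ d, d = f 2 + 1 := ⟨_, rfl⟩
  obtain ⟨L, hL⟩ : ∃ L, L = (d + 1) * d + 1 := ⟨_, rfl⟩
  have hb : ∀ w : List (Fin d), ∃ a, w.length = L → a + d < w.length ∧
      ∀ i, a < i → i ≤ a + d → ∃ c u, w.drop i = c :: u ∧ c ∈ w.take i := by
    intro w
    by_cases h : w.length = L
    · obtain ⟨a, h⟩ := block d w (h.trans hL)
      exact ⟨a, fun _ => h⟩
    · exact ⟨0, fun h' => absurd h' h⟩
  choose a ha using hb
  let V := {l : List (Fin d) // l.length ≤ L}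
  haveI : Finite V := (List.finite_length_le (Fin d) L).to_subtype
  letI : Fintype V := Fintype.ofFinite V
  haveI : Nonempty V := ⟨⟨[], Nat.zero_le _⟩⟩
  let D : Digraph V := ⟨fun u v => (u.1.length < L ∧ ∃ c, v.1 = c :: u.1) ∨
    (u.1.length = L ∧ ∃ i, a u.1 < i ∧ i ≤ a u.1 + d ∧ v.1 = u.1.drop i)⟩
  obtain ⟨X, X1, X2, X3⟩ := hf 2 (by norm_num) V D (by
      rintro v (⟨-, c, h⟩ | ⟨h, i, i1, i2, i3⟩)
      · simpa using congrArg List.length h
      · have := congrArg List.length i3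
        have := (ha _ h).1
        rw [List.length_drop] at *
        omega) (by
      intro v
      have key : ∀ g : Fin d → V, Function.Injective g → (∀ c, D.Adj v (g c)) →
          f 2 ≤ {w : V | D.Adj v w}.ncard := by
        intro g g1 g2
        have := Set.ncard_le_ncard_of_injOn (s := Set.univ) (t := {w : V | D.Adj v w}) g
          (fun c _ => g2 c) g1.injOn
        rw [Set.ncard_univ, Nat.card_eq_fintype_card, Fintype.card_fin] at this
        omega
      rcases lt_or_eq_of_le v.2 with h | h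
      · refine key (fun c => ⟨c :: v.1, h⟩) (fun c c' e => ?_) (fun c => Or.inl ⟨h, c, rfl⟩)
        simpa using congrArg Subtype.val e
      · refine key (fun c => ⟨v.1.drop (a v.1 + 1 + c), by rw [List.length_drop]; omega⟩)
          (fun c c' e => ?_) (fun c => Or.inr ⟨h, _, by omega, by omega, rfl⟩)
        have := congrArg (fun x : V => x.1.length) e
        have := (ha _ h).1
        simp only [List.length_drop] at *
        ext
        omega)
  refine core d L ⟨0, by omega⟩ a ha (fun l => ∃ h : l.length ≤ L, (⟨l, h⟩ : V) ∉ X) ?_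
    (fun l h => h.1) ?_ ?_ ?_
  · obtain ⟨v, hv⟩ := (Set.ne_univ_iff_exists_notMem X).mp X1
    exact ⟨v.1, v.2, hv⟩
  · rintro l ⟨h, hl⟩ hlt c₀
    obtain ⟨u, v, ⟨u1, u2⟩, ⟨v1, v2⟩, uv⟩ := (Set.one_lt_ncard_iff).mp (X3 _ hl)
    rcases u2 with ⟨-, c, e⟩ | ⟨e, -⟩
    · rcases v2 with ⟨-, c', e'⟩ | ⟨e', -⟩
      · obtain ⟨u, hu⟩ := u
        obtain ⟨v, hv⟩ := v
        simp only at e e'
        subst e e'
        by_cases hc : c = c₀
        · refine ⟨c', fun h' => uv ?_, hv, v1⟩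
          subst hc h'
          rfl
        · exact ⟨c, hc, hu, u1⟩
      · exact absurd e' hlt.ne
    · exact absurd e hlt.ne
  · rintro l ⟨h, hl⟩ hlt
    obtain ⟨⟨x, hx⟩, x1, ⟨e, -⟩ | ⟨-, i, i1, i2, e⟩⟩ := X2 _ hl
    · exact absurd hlt e.ne
    · simp only at e
      subst e
      exact ⟨i, i1, i2, fun h' => h'.2 x1⟩
  · rintro l ⟨h, hl⟩ hlt
    obtain ⟨⟨x, hx⟩, -, ⟨x1, ⟨e, -⟩ | ⟨-, i, i1, i2, e⟩⟩, -⟩ := (Set.one_lt_ncard_iff).mp (X3 _ hl)
    · exact absurd hlt e.ne
    · simp only at e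
      subst e
      exact ⟨i, i1, i2, hx, x1⟩

end Pool.Agent.S12466
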