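import Pool.Statements.S12479
import Pool.Agent.H.MP_f836ec_co.Seed

set_option autoImplicit false
open Pool Pool.MP_f836ec_co

namespace Pool.Agent.S12479

/-- Every finite connected 3-regular graph on n vertices has a set S of at most n/2 vertices such that every vertex has a neighbour in S, and some dominating set lies entirely outside S. -/
theorem result :
    ∀ (V : Type) [Fintype V] [DecidableEq V] (G : SimpleGraph V) [DecidableRel G.Adj],
      G.Connected → G.IsRegularOfDegree 3 →
      ∃ S : Finset V,
        (∀ v : V, ∃ u ∈ S, G.Adj v u) ∧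
        2 * S.card ≤ Fintype.card V ∧
        ∃ D : Finset V, Disjoint D S ∧ ∀ v : V, v ∈ D ∨ ∃ u ∈ D, G.Adj v u := by
  intro V _ _ G _ hc hr
  exact Pool.Agent.H.MP_f836ec_co.main G hc hr

end Pool.Agent.S12479
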