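import Pool.Statements.S12511
import Pool.Agent.H.MP_f96441_co.A

set_option autoImplicit false
open Pool Pool.MP_f96441_co

namespace Pool.Agent.S12511

theorem result :
    ∃ d₀ : ℕ, ∀ d : ℕ, d₀ ≤ d →
      {K : ConvexBody (EuclideanSpace ℝ (Fin d)) |
        ¬ ∃ (x : EuclideanSpace ℝ (Fin d)) (v : Fin d → EuclideanSpace ℝ (Fin d)),
          LinearIndependent ℝ v ∧
          ∀ s : Finset (Fin d),
            x + ∑ i ∈ s, v i ∈ frontier (K : Set (EuclideanSpace ℝ (Fin d)))}
        ∈ residual (ConvexBody (EuclideanSpace ℝ (Fin d))) := by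
  exact ⟨5, fun _ hd => Pool.Agent.H.MP_f96441_co.main hd⟩

end Pool.Agent.S12511
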