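import Pool.Statements.S12514
import Pool.Agent.H.MP_12e063_co.A

set_option autoImplicit false
open Pool Pool.MP_f96bdb_co

namespace Pool.Agent.S12514

/-- The negation of the preceding statement: There are k > 3 and c > 0 such that every finite connected graph with perfect state transfer between two distinct vertices (exp(itA)e_u = γe_v, ∣γ∣=1) has edge count at least c·D^k, D its diameter. -/
theorem result :
    ¬ (∃ k : ℝ, 3 < k ∧ ∃ c : ℝ, 0 < c ∧
      ∀ (V : Type) [Fintype V] [DecidableEq V] (G : SimpleGraph V) [DecidableRel G.Adj],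
        G.Connected →
        (∃ u v : V, u ≠ v ∧ ∃ t : ℝ, ∃ γ : ℂ, ‖γ‖ = 1 ∧
          (NormedSpace.exp ((Complex.I * (t : ℂ)) • G.adjMatrix ℂ)).mulVec (Pi.single u 1)
            = Pi.single v γ) →
        c * (G.diam : ℝ) ^ k ≤ (G.edgeFinset.card : ℝ)) := by
  rintro ⟨k, hk, c, hc, h⟩
  obtain ⟨N, hN⟩ := ((tendsto_rpow_atTop (sub_pos.2 hk)).comp tendsto_natCast_atTop_atTop
    |>.eventually_gt_atTop (72 / c)).exists
  have h1 := h _ (H.MP_12e063_co.A.G N) (H.MP_12e063_co.A.conn N)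
    ⟨(H.MP_12e063_co.A.v0 N, false), (H.MP_12e063_co.A.v0 N, true), by simp, Real.pi / 2,
      Complex.I, Complex.norm_I, by
        have := H.MP_12e063_co.A.pst N 1 (Or.inl rfl)
        rw [one_mul, one_mul, mul_comm _ Complex.I] at this
        push_cast
        exact this⟩
  have : Nonempty (H.MP_12e063_co.A.V0 N × Bool) := ⟨(H.MP_12e063_co.A.v0 N, true)⟩
  have h2 := H.MP_12e063_co.A.diam_ge _ (H.MP_12e063_co.A.conn N) (fun x => x.1.1.1)
    (H.MP_12e063_co.A.lip N) (⟨⟨0, by omega⟩, ⟨0, H.MP_12e063_co.A.sz_pos _ _ (by omega)⟩⟩, true)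
    (⟨⟨2 * N + 1, by omega⟩, ⟨0, H.MP_12e063_co.A.sz_pos _ _ (by omega)⟩⟩, true)
  have h3 := H.MP_12e063_co.A.edges_le N
  simp only at h2
  generalize (H.MP_12e063_co.A.G N).diam = D at *
  generalize (H.MP_12e063_co.A.G N).edgeFinset.card = m at *
  have h4 : (m : ℝ) ≤ 72 * (D : ℝ) ^ 3 := by
    have : m ≤ 72 * D ^ 3 := h3.trans (by gcongr; omega)
    exact_mod_cast this
  have hD : (0 : ℝ) < D := by exact_mod_cast (by omega : 0 < D)
  have h5 : (D : ℝ) ^ k = (D : ℝ) ^ (k - 3) * (D : ℝ) ^ 3 := by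
    rw [← Real.rpow_natCast, ← Real.rpow_add hD]
    simp
  have h6 : (N : ℝ) ^ (k - 3) ≤ (D : ℝ) ^ (k - 3) :=
    Real.rpow_le_rpow (by positivity) (by exact_mod_cast (by omega : N ≤ D)) (by linarith)
  have h7 : 72 < c * (D : ℝ) ^ (k - 3) := by
    rw [mul_comm, ← div_lt_iff₀ hc]
    exact lt_of_lt_of_le hN h6
  rw [h5, ← mul_assoc] at h1
  nlinarith [pow_pos hD 3]

end Pool.Agent.S12514
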