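import Pool.Statements.S12526
-- import your own Pool.Agent.* helpers here

set_option autoImplicit false
open Pool Pool.MP_fa3e6d_co

namespace Pool.Agent.S12526

def nb (a b : Fin 12) : Bool :=
  ([3942, 1713, 3705, 3028, 1998, 3719, 2333, 1850, 3801, 447, 2487, 1389].getD a.val 0).testBit b.val

def G : SimpleGraph (Fin 12) where
  Adj a b := nb a b = true
  symm := ⟨by decide +kernel⟩
  loopless := ⟨by decide +kernel⟩

instance : DecidableRel G.Adj := fun a b => inferInstanceAs (Decidable (nb a b = true))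

abbrev Irr (D : Finset (Fin 12)) : Prop :=
  ∀ v ∈ D, ∃ w, (w = v ∨ G.Adj v w) ∧ ∀ u ∈ D, u ≠ v → ¬ (w = u ∨ G.Adj u w)

def S : Fin 14 → Finset (Fin 12) := ![{0, 1, 2}, {0, 2, 5}, {2, 5, 11}, {5, 10, 11}, {0, 10, 11}, {0, 6, 10}, {6, 9, 10}, {4, 6, 9}, {3, 4, 9}, {3, 7, 9}, {3, 7, 8}, {4, 7, 8}, {1, 4, 8}, {1, 2, 8}]

def pv (a b c d : Fin 12) : Bool := (List.finRange 12).any fun w =>
  (w == a || nb a w) && !(w == b || nb b w) && !(w == c || nb c w) && !(w == d || nb d w)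

lemma pv_of {D : Finset (Fin 12)} (h : Irr D) {a b c d : Fin 12} (ha : a ∈ D) (hb : b ∈ D)
    (hc : c ∈ D) (hd : d ∈ D) (h1 : a ≠ b) (h2 : a ≠ c) (h3 : a ≠ d) : pv a b c d = true := by
  obtain ⟨w, w1, w2⟩ := h a ha
  have := w2 b hb h1.symm
  have := w2 c hc h2.symm
  have := w2 d hd h3.symm
  simp only [pv, List.any_eq_true]
  exact ⟨w, List.mem_finRange w, by simp_all [G]⟩

lemma k4 : ∀ a b c d : Fin 12, (pv a b c d && pv b a c d && pv c a b d && pv d a b c) = false := by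
  decide +kernel

lemma k3 : ∀ a b c : Fin 12, (pv a b c c && pv b a c c && pv c a b b) = true →
    ∃ i, a ∈ S i ∧ b ∈ S i ∧ c ∈ S i := by
  decide +kernel

lemma le3 (D : Finset (Fin 12)) (h : Irr D) : D.card ≤ 3 := by
  by_contra hn
  obtain ⟨a, b, c, d, ha, hb, hc, hd, h1, h2, h3, h4, h5, h6⟩ :=
    Finset.three_lt_card_iff.1 (not_le.1 hn)
  have := k4 a b c d
  rw [pv_of h ha hb hc hd h1 h2 h3, pv_of h hb ha hc hd h1.symm h4 h5,
    pv_of h hc ha hb hd h2.symm h4.symm h6, pv_of h hd ha hb hc h3.symm h5.symm h6.symm] at this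
  simp at this

lemma S_irr : ∀ i, Irr (S i) ∧ (S i).card = 3 := by decide +kernel

lemma S_inj : Function.Injective S := by decide +kernel

lemma S_adj : ∀ i j, (S i ≠ S j ∧
    ((∃ u ∈ S i, ∃ v ∈ S j, G.Adj u v ∧ S j = insert v ((S i).erase u)) ∨
    ∃ u ∈ S j, ∃ v ∈ S i, G.Adj u v ∧ S i = insert v ((S j).erase u))) ↔
    (i - j = 1 ∨ j - i = 1) := by decide +kernel

noncomputable def e :
    Fin 14 ≃ {D : Finset (Fin 12) // Irr D ∧ ∀ F : Finset (Fin 12), Irr F → F.card ≤ D.card} :=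
  Equiv.ofBijective (fun i => ⟨S i, (S_irr i).1, fun F h => (S_irr i).2 ▸ le3 F h⟩)
    ⟨fun i j h => S_inj (congrArg Subtype.val h), by
    rintro ⟨D, h1, h2⟩
    have h3 := h2 _ (S_irr 0).1
    rw [(S_irr 0).2] at h3
    have := le3 D h1
    obtain ⟨a, b, c, n1, n2, n3, rfl⟩ := Finset.card_eq_three.1 (le_antisymm this h3)
    obtain ⟨j, j1, j2, j3⟩ := k3 a b c (by
      rw [pv_of h1 (by simp) (by simp) (by simp) (by simp) n1 n2 n2,
        pv_of h1 (by simp) (by simp) (by simp) (by simp) n1.symm n3 n3,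
        pv_of h1 (by simp) (by simp) (by simp) (by simp) n2.symm n3.symm n3.symm]; rfl)
    refine ⟨j, Subtype.ext (Finset.eq_of_subset_of_card_le ?_ ((S_irr j).2.trans_le h3)).symm⟩
    simp [Finset.insert_subset_iff, *]⟩

theorem result :
    ¬ (∀ (m : ℕ) (G : SimpleGraph (Fin m)),
      (∀ n : ℕ, 3 ≤ n →
        IsEmpty (SimpleGraph.pathGraph n ≃g
          SimpleGraph.fromRel
            (fun D D' : {S : Finset (Fin m) //
                (∀ v ∈ S, ∃ w, (w = v ∨ G.Adj v w) ∧ ∀ u ∈ S, u ≠ v → ¬ (w = u ∨ G.Adj u w)) ∧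
                ∀ T : Finset (Fin m),
                  (∀ v ∈ T, ∃ w, (w = v ∨ G.Adj v w) ∧ ∀ u ∈ T, u ≠ v → ¬ (w = u ∨ G.Adj u w)) →
                  T.card ≤ S.card} =>
              ∃ v ∈ D.1, ∃ v' ∈ D'.1, G.Adj v v' ∧ D'.1 = insert v' (D.1.erase v)))) ∧
      (∀ n : ℕ, 5 ≤ n →
        IsEmpty (SimpleGraph.cycleGraph n ≃g
          SimpleGraph.fromRel
            (fun D D' : {S : Finset (Fin m) //
                (∀ v ∈ S, ∃ w, (w = v ∨ G.Adj v w) ∧ ∀ u ∈ S, u ≠ v → ¬ (w = u ∨ G.Adj u w)) ∧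
                ∀ T : Finset (Fin m),
                  (∀ v ∈ T, ∃ w, (w = v ∨ G.Adj v w) ∧ ∀ u ∈ T, u ≠ v → ¬ (w = u ∨ G.Adj u w)) →
                  T.card ≤ S.card} =>
              ∃ v ∈ D.1, ∃ v' ∈ D'.1, G.Adj v v' ∧ D'.1 = insert v' (D.1.erase v))))) := by
  intro h
  refine ((h 12 G).2 14 (by norm_num)).false ⟨e, ?_⟩
  intro i j
  rw [SimpleGraph.fromRel_adj, SimpleGraph.cycleGraph_adj, ← S_adj i j, ne_eq, ne_eq,
    Subtype.ext_iff]
  rfl

end Pool.Agent.S12526
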