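import Pool.Statements.S12545
import Pool.Agent.H.MP_fac573_co.D

set_option autoImplicit false
open Pool Pool.MP_fac573_co

namespace Pool.Agent.S12545

theorem result :
    ∀ t : ℝ, 1 ≤ t → t < Real.sqrt 3 →
      ∀ C : Finset (EuclideanSpace ℝ (Fin 2)), C.Nonempty →
        (∀ x ∈ C, ∀ y ∈ C, dist x y ≤ t) →
          ENNReal.ofReal (2 * Real.pi - 6 * Real.arcsin (t / 2)) ≤
            MeasureTheory.Measure.hausdorffMeasure (1 : ℝ)
              (frontier (⋂ c ∈ C, Metric.closedBall c (1 : ℝ))) := by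
  classical
  intro t h1 ht C hC hd
  let e := Complex.orthonormalBasisOneI.repr.symm
  have := Pool.Agent.H.MP_fac573_co.main (C := C.image e) (hC.image _) h1 ht (by
    simpa using hd)
  have k : (⋂ c ∈ C, Metric.closedBall c (1 : ℝ)) =
      e ⁻¹' Pool.Agent.H.MP_fac573_co.D (C.image e) := by
    ext p; simp [Pool.Agent.H.MP_fac573_co.D]
  rw [k, show frontier (e ⁻¹' _) = e ⁻¹' frontier _ from (e.toHomeomorph.preimage_frontier _).symm]
  exact this.trans_eq (e.toIsometryEquiv.hausdorffMeasure_preimage 1 _).symm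

end Pool.Agent.S12545
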