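import Pool.Statements.S12588
import Pool.Agent.H.MP_fc94d9_co.J

set_option autoImplicit false
open Pool Pool.MP_fc94d9_co

namespace Pool.Agent.S12588

theorem result :
    ¬ (∃ k : ℕ, ∃ c : EuclideanSpace ℝ (Fin 2) → Fin k,
      ∀ x y : EuclideanSpace ℝ (Fin 2), ∀ n : ℕ,
        dist x y = (2 : ℝ) ^ n → c x ≠ c y) := by
  exact Pool.Agent.H.MP_fc94d9_co.main

end Pool.Agent.S12588
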