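import Pool.Statements.S12603
import Pool.Agent.H.MP_fd2cdc_co.A

set_option autoImplicit false
open Pool Pool.MP_fd2cdc_co

namespace Pool.Agent.S12603

open Cardinal Order Pool.Agent.H.MP_fd2cdc_co

section
variable {P : Type}

/-- pairs having many `r`-predecessors in `B` at some regular level above. -/
def big (r : P → P → Prop) (B : Set (P × Cardinal.{0})) : Set (P × Cardinal.{0}) :=
  {p | ∃ t : Cardinal.{0}, t.IsRegular ∧ p.2 ≤ t ∧ t ≤ #{u | r u p.1 ∧ (u, t) ∈ B}}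

theorem big_mono (r : P → P → Prop) {A B : Set (P × Cardinal.{0})} (h : A ⊆ B) :
    big r A ⊆ big r B := by
  rintro p ⟨t, h1, h2, h3⟩
  exact ⟨t, h1, h2, h3.trans (mk_le_mk_of_subset (fun u hu => ⟨hu.1, h hu.2⟩))⟩

theorem path_indep (r : P → P → Prop) (hr : WellFounded r)
    (htr : ∀ a b c, r a b → r b c → r a c) (B : Set (P × Cardinal.{0})) (v : P) :
    ∀ τ, (v, τ) ∈ big r B → (v, τ) ∈ big r ((big r B)ᶜ ∩ B) := by
  induction v using hr.induction with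
  | _ v ih =>
    rintro τ ⟨t, h1, h2, h3⟩
    by_cases h : ∃ u, r u v ∧ (u, t) ∈ big r B
    · obtain ⟨u, hu, hu2⟩ := h
      obtain ⟨t', h4, h5, h6⟩ := ih u hu t hu2
      exact ⟨t', h4, le_trans h2 h5,
        h6.trans (mk_le_mk_of_subset (fun w hw => ⟨htr _ _ _ hw.1 hu, hw.2⟩))⟩
    · push Not at h
      exact ⟨t, h1, h2, h3.trans (mk_le_mk_of_subset (fun w hw => ⟨hw.1, h w hw.1, hw.2⟩))⟩

variable [PartialOrder P]

/-- comparability. -/
def cp (x y : P) : Prop := x ≤ y ∨ y ≤ x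

theorem kernel (h1 : WellFounded (fun a b : P => a < b)) (h2 : WellFounded (fun a b : P => b < a)) :
    ∃ S : Cardinal.{0} → Set P,
      (∀ v τ t, v ∈ S τ → t.IsRegular → τ ≤ t → #{u | cp v u ∧ u ∈ S t} < t) ∧
      (∀ v τ, v ∉ S τ → ∃ t : Cardinal.{0}, t.IsRegular ∧ τ ≤ t ∧ t ≤ #{u | cp v u ∧ u ∈ S t}) := by
  let F : Set (P × Cardinal.{0}) →o Set (P × Cardinal.{0}) :=
    ⟨fun B => (big (fun a b => b < a) (big (fun a b => a < b) B)ᶜ)ᶜ, fun A B h =>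
      Set.compl_subset_compl.mpr (big_mono _ (Set.compl_subset_compl.mpr (big_mono _ h)))⟩
  obtain ⟨B, hB⟩ : ∃ B, (big (fun a b : P => b < a) (big (fun a b => a < b) B)ᶜ)ᶜ = B :=
    ⟨F.lfp, F.map_lfp⟩
  set A := (big (fun a b : P => a < b) B)ᶜ with hA
  refine ⟨fun τ => {v | (v, τ) ∈ A ∩ B}, ?_, ?_⟩
  · intro v τ t hv ht hτ
    have a1 : #{u | u < v ∧ (u, t) ∈ B} < t := by
      by_contra h
      exact hv.1 ⟨t, ht, hτ, not_lt.mp h⟩
    have a2 : #{u | v < u ∧ (u, t) ∈ A} < t := by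
      by_contra h
      have := hv.2
      rw [← hB] at this
      exact this ⟨t, ht, hτ, not_lt.mp h⟩
    refine lt_of_le_of_lt (mk_le_mk_of_subset (t := insert v
      ({u | u < v ∧ (u, t) ∈ B} ∪ {u | v < u ∧ (u, t) ∈ A})) ?_) ?_
    · rintro u ⟨h3 | h3, h4⟩
      · rcases h3.lt_or_eq with h5 | h5
        · exact Or.inr (Or.inr ⟨h5, h4.1⟩)
        · exact Or.inl h5.symm
      · rcases h3.lt_or_eq with h5 | h5
        · exact Or.inr (Or.inl ⟨h5, h4.2⟩)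
        · exact Or.inl h5
    · refine lt_of_le_of_lt mk_insert_le (add_lt_of_lt ht.aleph0_le ?_
        (one_lt_aleph0.trans_le ht.aleph0_le))
      exact lt_of_le_of_lt (mk_union_le _ _) (add_lt_of_lt ht.aleph0_le a1 a2)
  · intro v τ hv
    by_cases h : (v, τ) ∈ A
    · have h3 : (v, τ) ∈ big (fun a b : P => b < a) A := by
        by_contra h4
        exact hv ⟨h, hB ▸ h4⟩
      obtain ⟨t, h4, h5, h6⟩ := path_indep _ h2 (fun a b c h h' => h'.trans h) A v τ h3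
      rw [hB] at h6
      exact ⟨t, h4, h5, h6.trans (mk_le_mk_of_subset
        (fun u hu => ⟨Or.inl (le_of_lt hu.1), hu.2.2, hu.2.1⟩))⟩
    · have h3 : (v, τ) ∈ big (fun a b : P => a < b) B := by
        by_contra h4
        exact h h4
      obtain ⟨t, h4, h5, h6⟩ := path_indep _ h1 (fun a b c h h' => h.trans h') B v τ h3
      exact ⟨t, h4, h5, h6.trans (mk_le_mk_of_subset
        (fun u hu => ⟨Or.inr (le_of_lt hu.1), hu.2⟩))⟩

end

section
variable {P : Type} (c : P → P → Prop) (S : Cardinal.{0} → Set P)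
  (h1 : ∀ v τ t, v ∈ S τ → t.IsRegular → τ ≤ t → #{u | c v u ∧ u ∈ S t} < t)
  (h2 : ∀ v τ, v ∉ S τ → ∃ t : Cardinal.{0}, t.IsRegular ∧ τ ≤ t ∧ t ≤ #{u | c v u ∧ u ∈ S t})

include h1 h2 in
theorem S_mono {τ τ' : Cardinal.{0}} (h : τ ≤ τ') : S τ ⊆ S τ' := by
  intro v hv
  by_contra h3
  obtain ⟨t, h4, h5, h6⟩ := h2 v τ' h3
  exact absurd (h1 v τ t hv h4 (h.trans h5)) (not_lt.mpr h6)

include h1 h2 in
theorem S_inf [Infinite P] : ℵ₀ ≤ #(S ℵ₀) := by
  by_contra hc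
  push Not at hc
  by_cases hT : ∃ t : Cardinal.{0}, t.IsRegular ∧ ∃ w, t ≤ #{u | c w u ∧ u ∈ S t}
  · obtain ⟨t, ⟨ht, w, hw⟩, hmin⟩ := (wellFounded_lt (α := Cardinal.{0})).has_min _ hT
    have : S t ⊆ S ℵ₀ := by
      intro u hu
      by_contra h3
      obtain ⟨t', h4, -, h6⟩ := h2 u _ h3
      exact absurd (h1 u t t' hu h4 (not_lt.mp (hmin t' ⟨h4, u, h6⟩))) (not_lt.mpr h6)
    exact absurd (ht.aleph0_le.trans (hw.trans (mk_le_mk_of_subset (fun u hu => this hu.2))))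
      (not_le.mpr hc)
  · have : S ℵ₀ = Set.univ := by
      apply Set.eq_univ_of_forall
      intro u
      by_contra h3
      obtain ⟨t', h4, -, h6⟩ := h2 u _ h3
      exact hT ⟨t', h4, u, h6⟩
    rw [this, mk_univ] at hc
    exact absurd (aleph0_le_mk P) (not_le.mpr hc)

/-- admissible task. -/
def Tk (B : Set P) : Prop := (#B).IsRegular ∧ B ⊆ S #B

include h1 h2 in
theorem children (B : Set P) (hB : Tk S B) : ∃ ch : P → Set P,
    (∀ w, w ∉ S #B → (∃ h ∈ B, c h w) → Tk S (ch w) ∧ #B ≤ #(ch w) ∧ ∀ u ∈ ch w, c w u) ∧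
    ∀ t : Cardinal.{0}, t.IsRegular → #B < t →
      #{w | (w ∉ S #B ∧ ∃ h ∈ B, c h w) ∧ #(ch w) < t} < t := by
  classical
  let W := {w // w ∉ S #B ∧ ∃ h ∈ B, c h w}
  let Aw : P → Set Cardinal.{0} := fun w => {t | t.IsRegular ∧ t ≤ #{u | c w u ∧ u ∈ S t}}
  have hbd : ∀ w, BddAbove (Aw w) := fun w => ⟨#P, fun t ht => ht.2.trans (mk_set_le _)⟩
  let lam : W → Cardinal.{0} := fun w => sSup (Aw w.1)
  have hlam : ∀ w : W, #B ≤ lam w := by
    intro w
    obtain ⟨t, h3, h4, h5⟩ := h2 w.1 _ w.2.1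
    exact h4.trans (le_csSup (hbd _) ⟨h3, h5⟩)
  have hA : ∀ (w : W) (τ : Cardinal.{0}), τ.IsRegular → τ ≤ lam w → ∃ t ∈ Aw w.1, τ ≤ t := by
    intro w τ hτ hle
    by_contra hc
    push Not at hc
    refine lt_irrefl τ (hc τ ⟨hτ, hle.trans (csSup_le' (fun t ht => ht.2.trans ?_))⟩)
    exact mk_le_mk_of_subset (fun u hu => ⟨hu.1, S_mono c S h1 h2 (hc t ht).le hu.2⟩)
  have H : ∀ t : Cardinal.{0}, t.IsRegular → #B < t → #{w | lam w < t} < t := by
    intro t ht hBt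
    have e1 : #(⋃ h : B, {u | c h u ∧ u ∈ S t}) < t :=
      (card_iUnion_lt_iff_forall_of_isRegular ht hBt).mpr
        (fun h => h1 h _ t (hB.2 h.2) ht hBt.le)
    refine lt_of_le_of_lt ?_ e1
    rw [← mk_image_eq (s := {w | lam w < t}) Subtype.val_injective]
    apply mk_le_mk_of_subset
    rintro _ ⟨w, hw, rfl⟩
    obtain ⟨h, hh, hc⟩ := w.2.2
    refine Set.mem_iUnion.mpr ⟨⟨h, hh⟩, hc, ?_⟩
    by_contra h3
    obtain ⟨t', h4, h5, h6⟩ := h2 w.1 _ h3
    exact absurd (h5.trans (le_csSup (hbd _) ⟨h4, h6⟩)) (not_le.mpr hw)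
  obtain ⟨g, hg1, hg2⟩ := assign hB.1.aleph0_le H #P #B le_rfl
  have key : ∀ w : W, ∃ C : Set P, (Tk S C ∧ #B ≤ #C ∧ ∀ u ∈ C, c w u) ∧
      (#B < lam w → g w ≤ #C) := by
    intro w
    have h3 : ∃ t ∈ Aw w.1, #B ≤ t ∧ (#B < lam w → g w ≤ t) := by
      by_cases h : #B < lam w
      · have h4 := hg1 w ⟨h, csSup_le' (fun t ht => ht.2.trans (mk_set_le _))⟩
        obtain ⟨t, h5, h6⟩ := hA w _ h4.1 h4.2.2
        exact ⟨t, h5, h4.2.1.le.trans h6, fun _ => h6⟩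
      · obtain ⟨t, h5, h6⟩ := hA w _ hB.1 (hlam w)
        exact ⟨t, h5, h6, fun h' => absurd h' h⟩
    obtain ⟨t, h4, h5, h6⟩ := h3
    obtain ⟨C, h7, h8⟩ := le_mk_iff_exists_subset.mp h4.2
    subst h8
    exact ⟨C, ⟨⟨h4.1, fun u hu => (h7 hu).2⟩, h5, fun u hu => (h7 hu).1⟩, h6⟩
  choose ch hch1 hch2 using key
  refine ⟨fun w => if hw : w ∉ S #B ∧ ∃ h ∈ B, c h w then ch ⟨w, hw⟩ else ∅, ?_, ?_⟩
  · intro w h3 h4
    simp only [dif_pos (And.intro h3 h4)]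
    exact hch1 ⟨w, h3, h4⟩
  · intro t ht hBt
    refine lt_of_le_of_lt ?_ (lt_of_le_of_lt (mk_union_le _ _)
      (add_lt_of_lt ht.aleph0_le (H t ht hBt) (hg2 t ht)))
    rw [← mk_image_eq (α := W) Subtype.val_injective]
    apply mk_le_mk_of_subset
    rintro w ⟨hw, h3⟩
    simp only [dif_pos hw] at h3
    refine ⟨⟨w, hw⟩, ?_, rfl⟩
    by_cases h : #B < lam ⟨w, hw⟩
    · exact Or.inr ⟨⟨h, csSup_le' (fun t ht => ht.2.trans (mk_set_le _))⟩,
        (hch2 _ h).trans_lt h3⟩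
    · exact Or.inl ((not_lt.mp h).trans_lt hBt)

include h1 h2 in
theorem tasks [Infinite P] : ∃ U : Set (Set P), U.Nonempty ∧ (∀ B ∈ U, Tk S B) ∧
    (∀ B ∈ U, ∀ w, w ∉ S #B → (∃ h ∈ B, c h w) → ∃ C ∈ U, ∀ u ∈ C, c w u) ∧
    ∀ t : Cardinal.{0}, t.IsRegular → ℵ₀ < t → #{B | B ∈ U ∧ #B < t} < t := by
  choose! ch hch1 hch2 using children c S h1 h2
  obtain ⟨B0, hB0, hB0'⟩ := le_mk_iff_exists_subset.mp (S_inf c S h1 h2)
  let Un : ℕ → Set (Set P) := fun n => Nat.rec {B0}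
    (fun _ U => {C | ∃ B ∈ U, ∃ w, (w ∉ S #B ∧ ∃ h ∈ B, c h w) ∧ ch B w = C}) n
  have hU : ∀ n, ∀ B ∈ Un n, Tk S B := by
    intro n
    induction n with
    | zero =>
      intro B hB
      have e : B = B0 := hB
      rw [e]
      unfold Tk
      rw [hB0']
      exact ⟨isRegular_aleph0, hB0⟩
    | succ n ih =>
      rintro _ ⟨B, hB, w, hw, rfl⟩
      exact (hch1 B (ih B hB) w hw.1 hw.2).1
  refine ⟨⋃ n, Un n, ⟨B0, Set.mem_iUnion.mpr ⟨0, rfl⟩⟩, ?_, ?_, ?_⟩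
  · intro B hB
    obtain ⟨n, hn⟩ := Set.mem_iUnion.mp hB
    exact hU n B hn
  · intro B hB w h3 h4
    obtain ⟨n, hn⟩ := Set.mem_iUnion.mp hB
    exact ⟨ch B w, Set.mem_iUnion.mpr ⟨n + 1, B, hn, w, ⟨h3, h4⟩, rfl⟩,
      (hch1 B (hU n B hn) w h3 h4).2.2⟩
  · intro t ht ht0
    have key : ∀ n, #{B | B ∈ Un n ∧ #B < t} < t := by
      intro n
      induction n with
      | zero =>
        refine lt_of_le_of_lt (mk_le_mk_of_subset (t := {B0}) (fun B hB => hB.1)) ?_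
        rw [mk_singleton]; exact one_lt_aleph0.trans ht0
      | succ n ih =>
        refine lt_of_le_of_lt (mk_le_mk_of_subset (t := ⋃ B : {B | B ∈ Un n ∧ #B < t},
          ch B '' {w | (w ∉ S #B.1 ∧ ∃ h ∈ B.1, c h w) ∧ #(ch B w) < t}) ?_) ?_
        · rintro _ ⟨⟨B, hB, w, hw, rfl⟩, h3⟩
          exact Set.mem_iUnion.mpr ⟨⟨B, hB, (hch1 B (hU n B hB) w hw.1 hw.2).2.1.trans_lt h3⟩,
            w, ⟨hw, h3⟩, rfl⟩
        · exact (card_iUnion_lt_iff_forall_of_isRegular ht ih).mpr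
            (fun B => mk_image_le.trans_lt (hch2 B (hU n B B.2.1) t ht B.2.2))
    refine lt_of_le_of_lt (mk_le_mk_of_subset (t := ⋃ n, {B | B ∈ Un n ∧ #B < t}) ?_) ?_
    · rintro B ⟨hB, h3⟩
      obtain ⟨n, hn⟩ := Set.mem_iUnion.mp hB
      exact Set.mem_iUnion.mpr ⟨n, hn, h3⟩
    · exact (card_iUnion_lt_iff_forall_of_isRegular ht (by simpa using ht0)).mpr key

include h1 h2 in
theorem main [Infinite P] (hrefl : ∀ x, c x x) (hsymm : ∀ x y, c x y → c y x) :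
    ∃ H : Set P, H.Infinite ∧ (∀ x ∈ H, ∀ y ∈ H, c x y → x = y) ∧
      ∀ x, {h | h ∈ H ∧ c x h}.Subsingleton ∨ {h | h ∈ H ∧ c x h}.Infinite := by
  obtain ⟨U, ⟨B0, hB0⟩, hU1, hU2, hU3⟩ := tasks c S h1 h2
  let I := U × ℕ
  let lvl : I → Cardinal.{0} := fun i => #i.1.1
  have hreg : ∀ i, (lvl i).IsRegular := fun i => (hU1 _ i.1.2).1
  have hcnt : ∀ t : Cardinal.{0}, t.IsRegular → #{i | lvl i < t} < t := by
    intro t ht
    rcases ht.aleph0_le.lt_or_eq with h | h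
    · have : #{i | lvl i < t} ≤ #({B | B ∈ U ∧ #B < t} × ℕ) :=
        mk_le_of_injective (f := fun i => (⟨i.1.1.1, i.1.1.2, i.2⟩, i.1.2)) (by
          rintro ⟨⟨⟨a, ha⟩, n⟩, h3⟩ ⟨⟨⟨b, hb⟩, m⟩, h4⟩ e
          simp only [Prod.mk.injEq, Subtype.mk.injEq] at e
          obtain ⟨rfl, rfl⟩ := e
          rfl)
      refine this.trans_lt ?_
      rw [mk_prod]
      exact mul_lt_of_lt ht.aleph0_le (by simpa using hU3 t ht h) (by simpa using h)
    · exact mk_lt_of_empty ht (fun i hi => absurd (hreg i).aleph0_le (not_le.mpr (h ▸ hi)))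
  obtain ⟨o, ho1, ho2⟩ := order_lemma lvl (by
    intro t
    by_cases h : ℵ₀ ≤ t
    · exact (mk_le_mk_of_subset (fun i hi => (hi.trans_lt (lt_succ t) : lvl i < succ t))).trans
        (lt_succ_iff.mp (hcnt _ (isRegular_succ h)))
    · have : {i | lvl i = t} = ∅ :=
        Set.eq_empty_of_forall_notMem (fun i hi => h (hi ▸ (hreg i).aleph0_le))
      rw [this]; simp)
  let r : I → I → Prop := fun j i => Prod.Lex (· < ·) (· < ·) (lvl j, o j) (lvl i, o i)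
  have hr : WellFounded r := InvImage.wf (fun i => (lvl i, o i))
    (WellFounded.prod_lex wellFounded_lt wellFounded_lt)
  have hr' : ∀ j i, r j i ↔ lvl j < lvl i ∨ (lvl j = lvl i ∧ o j < o i) :=
    fun j i => Prod.lex_def
  have htri : ∀ i j, i ≠ j → r i j ∨ r j i := by
    intro i j hij
    rw [hr', hr']
    rcases lt_trichotomy (lvl i) (lvl j) with h | h | h
    · exact Or.inl (Or.inl h)
    · rcases lt_trichotomy (o i) (o j) with h' | h' | h'
      · exact Or.inl (Or.inr ⟨h, h'⟩)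
      · exact absurd (ho1 i j h h') hij
      · exact Or.inr (Or.inr ⟨h.symm, h'⟩)
    · exact Or.inr (Or.inl h)
  obtain ⟨f, hf⟩ := rec_choice r hr
    (fun i X x => x ∈ i.1.1 ∧ ∀ y ∈ X, ∀ w ∈ S (lvl i), c y w → ¬ c w x) (by
      intro i f ih
      have ht := hreg i
      have a1 : #{j | r j i} < lvl i := by
        refine lt_of_le_of_lt (mk_le_mk_of_subset (fun j hj => (hr' j i).mp hj))
          (lt_of_le_of_lt (mk_union_le {j | lvl j < lvl i} {j | lvl j = lvl i ∧ o j < o i})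
            (add_lt_of_lt ht.aleph0_le (hcnt _ ht) (ho2 i)))
      have a2 : #(⋃ j : {j | r j i}, ⋃ w : {w | c (f j) w ∧ w ∈ S (lvl i)},
          {u | c w u ∧ u ∈ S (lvl i)}) < lvl i := by
        refine (card_iUnion_lt_iff_forall_of_isRegular ht a1).mpr (fun j => ?_)
        refine (card_iUnion_lt_iff_forall_of_isRegular ht ?_).mpr
          (fun w => h1 _ _ _ w.2.2 ht le_rfl)
        refine h1 _ (lvl j) _ ((hU1 _ j.1.1.2).2 (ih j j.2).1) ht ?_
        rcases (hr' _ _).mp j.2 with h | h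
        · exact h.le
        · exact h.1.le
      by_contra hc
      push Not at hc
      refine absurd (mk_le_mk_of_subset (s := i.1.1) ?_) (not_le.mpr a2)
      intro x hx
      obtain ⟨_, ⟨j, hj, rfl⟩, w, hw, h3, h4⟩ := hc x hx
      exact Set.mem_iUnion.mpr ⟨⟨j, hj⟩, Set.mem_iUnion.mpr ⟨⟨w, h3, hw⟩, h4,
        (hU1 _ i.1.2).2 hx⟩⟩)
  have hfar : ∀ i j, r j i → ∀ w, c w (f i) → c w (f j) → w ∉ S (lvl i) :=
    fun i j hji w h3 h4 hw => (hf i).2 _ ⟨j, hji, rfl⟩ w hw (hsymm _ _ h4) h3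
  have hanti : ∀ i j, c (f i) (f j) → i = j := by
    intro i j h
    by_contra hij
    rcases htri i j hij with h3 | h3
    · exact hfar j i h3 (f j) (hrefl _) (hsymm _ _ h) ((hU1 _ j.1.2).2 (hf j).1)
    · exact hfar i j h3 (f i) (hrefl _) h ((hU1 _ i.1.2).2 (hf i).1)
  have hinj : ∀ B : U, Function.Injective (fun n : ℕ => f (B, n)) := by
    intro B n m e
    have := hanti (B, n) (B, m) (by
      have e' : f (B, n) = f (B, m) := e
      rw [e']; exact hrefl _)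
    exact congrArg Prod.snd this
  refine ⟨Set.range f, ?_, ?_, ?_⟩
  · exact Set.infinite_of_injective_forall_mem (hinj ⟨B0, hB0⟩) (fun n => ⟨_, rfl⟩)
  · rintro _ ⟨i, rfl⟩ _ ⟨j, rfl⟩ h
    rw [hanti i j h]
  · intro x
    have key : ∀ i j, r j i → c x (f i) → c x (f j) →
        {h | h ∈ Set.range f ∧ c x h}.Infinite := by
      intro i j hji h3 h4
      obtain ⟨C, hC, h5⟩ := hU2 _ i.1.2 x (hfar i j hji x h3 h4) ⟨_, (hf i).1, hsymm _ _ h3⟩
      exact Set.infinite_of_injective_forall_mem (hinj ⟨C, hC⟩)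
        (fun n => ⟨⟨_, rfl⟩, h5 _ (hf (⟨C, hC⟩, n)).1⟩)
    by_contra hc
    push Not at hc
    obtain ⟨_, ⟨⟨i, rfl⟩, h3⟩, _, ⟨⟨j, rfl⟩, h4⟩, hne⟩ := hc.1
    rcases htri i j (fun e => hne (by rw [e])) with h5 | h5
    · exact key j i h5 h4 h3 hc.2
    · exact key i j h5 h3 h4 hc.2

end

/-- Every infinite poset with a uniform bound on chain sizes has an infinite antichain H such that each element is comparable to no element of H, exactly one element of H, or infinitely many elements of H. -/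
theorem result :
    ∀ (P : Type) [PartialOrder P], Infinite P →
      (∃ n : ℕ, ∀ s : Set P, IsChain (· ≤ ·) s → s.encard ≤ (n : ℕ∞)) →
      ∃ H : Set P, H.Infinite ∧ IsAntichain (· ≤ ·) H ∧
        ∀ x : P,
          ({h | h ∈ H ∧ (x ≤ h ∨ h ≤ x)}.encard = 0 ∨
           {h | h ∈ H ∧ (x ≤ h ∨ h ≤ x)}.encard = 1 ∨
           {h | h ∈ H ∧ (x ≤ h ∨ h ≤ x)}.Infinite) := by
  rintro P _ hP ⟨n, hn⟩
  have hfin : ∀ f : ℕ → P, Function.Injective f → (Monotone f ∨ Antitone f) → False := by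
    intro f hf hm
    have h1 := hn (Set.range f) (by
      rintro _ ⟨i, rfl⟩ _ ⟨j, rfl⟩ _
      rcases hm with hm | hm <;> rcases le_total i j with h | h
      · exact Or.inl (hm h)
      · exact Or.inr (hm h)
      · exact Or.inr (hm h)
      · exact Or.inl (hm h))
    rw [(Set.infinite_range_of_injective hf).encard_eq] at h1
    simp at h1
  have w1 : WellFounded (fun a b : P => a < b) := by
    rw [RelEmbedding.wellFounded_iff_isEmpty]
    refine ⟨fun f => hfin f f.injective (Or.inr (StrictAnti.antitone ?_))⟩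
    exact fun a b h => f.map_rel_iff.mpr h
  have w2 : WellFounded (fun a b : P => b < a) := by
    rw [RelEmbedding.wellFounded_iff_isEmpty]
    refine ⟨fun f => hfin f f.injective (Or.inl (StrictMono.monotone ?_))⟩
    exact fun a b h => f.map_rel_iff.mpr h
  obtain ⟨S, h1, h2⟩ := kernel w1 w2
  obtain ⟨H, h3, h4, h5⟩ := main cp S h1 h2 (fun x => Or.inl le_rfl) (fun x y h => h.symm)
  refine ⟨H, h3, fun x hx y hy hne h => hne (h4 x hx y hy (Or.inl h)), fun x => ?_⟩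
  rcases h5 x with h | h
  · rcases h.eq_empty_or_singleton with h6 | ⟨y, h6⟩
    · left; exact Set.encard_eq_zero.mpr h6
    · right; left; exact Set.encard_eq_one.mpr ⟨y, h6⟩
  · exact Or.inr (Or.inr h)

end Pool.Agent.S12603
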