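import Pool.Statements.S12612
import Mathlib
import Pool.Agent.H.MP_fd6c89_co.A

set_option autoImplicit false
open Pool Pool.MP_fd6c89_co

namespace Pool.Agent.S12612

/-- The negation of the preceding statement: For every finite simple graph, there is a bijective labeling of the vertices by 1..n making all neighbour-label sums distinct if and only if distinct vertices always have distinct open neighbourhoods. -/
theorem result :
    ¬ (∀ (V : Type) [Fintype V] [DecidableEq V] (G : SimpleGraph V) [DecidableRel G.Adj],
      (∃ f : V ≃ Fin (Fintype.card V),
          Function.Injective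
            (fun v : V => ∑ u ∈ G.neighborFinset v, ((f u : ℕ) + 1)))
        ↔ ∀ u v : V, u ≠ v → G.neighborSet u ≠ G.neighborSet v) := by
  intro h
  classical
  obtain ⟨f, hf⟩ := (h H.MP_fd6c89_co.V H.MP_fd6c89_co.G).2 H.MP_fd6c89_co.nb
  refine H.MP_fd6c89_co.main f ?_
  convert hf

end Pool.Agent.S12612
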