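import Pool.Statements.S12629
import Pool.Agent.H.MP_fe87ae_co.F

set_option autoImplicit false
open scoped NNReal
open Pool Pool.MP_fe87ae_co

namespace Pool.Agent.S12629

/-- There is a compact metric space with Lion and Christian start points where, in the unbounded-time game with 1-Lipschitz paths and no-lookahead strategies, neither the Lion nor the Christian has a winning strategy. -/
theorem result :
    ∃ (M : Type) (_ : MetricSpace M), CompactSpace M ∧ ∃ (x₀ y₀ : M),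
      (¬ ∃ F : (ℝ≥0 → M) → (ℝ≥0 → M),
          (∀ c : ℝ≥0 → M, LipschitzWith 1 c → c 0 = y₀ →
              LipschitzWith 1 (F c) ∧ F c 0 = x₀) ∧
          (∀ c c' : ℝ≥0 → M, LipschitzWith 1 c → c 0 = y₀ →
              LipschitzWith 1 c' → c' 0 = y₀ →
              ∀ t : ℝ≥0, (∀ s, s ≤ t → c s = c' s) → ∀ s, s ≤ t → F c s = F c' s) ∧
          (∀ c : ℝ≥0 → M, LipschitzWith 1 c → c 0 = y₀ → ∃ t : ℝ≥0, F c t = c t)) ∧
      (¬ ∃ G : (ℝ≥0 → M) → (ℝ≥0 → M),
          (∀ l : ℝ≥0 → M, LipschitzWith 1 l → l 0 = x₀ →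
              LipschitzWith 1 (G l) ∧ G l 0 = y₀) ∧
          (∀ l l' : ℝ≥0 → M, LipschitzWith 1 l → l 0 = x₀ →
              LipschitzWith 1 l' → l' 0 = x₀ →
              ∀ t : ℝ≥0, (∀ s, s ≤ t → l s = l' s) → ∀ s, s ≤ t → G l s = G l' s) ∧
          (∀ l : ℝ≥0 → M, LipschitzWith 1 l → l 0 = x₀ → ∀ t : ℝ≥0, G l t ≠ l t)) := by
  open Pool.Agent.H.MP_fe87ae_co in
  refine ⟨Cpt gauge, inferInstance, cpt_compact gauge proper, inc gauge x0, inc gauge y0, ?_, ?_⟩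
  · rintro ⟨F, h1, h2, h3⟩
    exact Pool.Agent.H.MP_fe87ae_co.no_lion (Pool.Agent.H.MP_fe87ae_co.lion_transfer _
      ⟨F, h1, fun c c' a b a' b' t h => h2 c c' a b a' b' t h t le_rfl, h3⟩)
  · rintro ⟨F, h1, h2, h3⟩
    exact Pool.Agent.H.MP_fe87ae_co.no_chr (Pool.Agent.H.MP_fe87ae_co.chr_transfer _
      ⟨F, h1, fun c c' a b a' b' t h => h2 c c' a b a' b' t h t le_rfl, h3⟩)

end Pool.Agent.S12629
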