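import Pool.Statements.S12636
-- import your own Pool.Agent.* helpers here

set_option autoImplicit false
open Filter Topology
open Pool Pool.MP_fef54c_co

namespace Pool.Agent.S12636

open Finset in
theorem mom (n : ℕ) : ∀ (c : Fin n → ℝ) (b : ℝ), ∑ y : Fin n → Fin 4, (b + ∑ l, c l * (2 * ((y l : ℕ) : ℝ) - 3)) ^ 2 =
    4 ^ n * (b ^ 2 + 5 * ∑ l, c l ^ 2) := by
  induction n with
  | zero => simp
  | succ n ih =>
    intro c b
    rw [← (Fin.consEquiv fun _ => Fin 4).sum_comp, Fintype.sum_prod_type]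
    simp only [Fin.consEquiv_apply, Fin.sum_univ_succ (n := n), Fin.cons_zero, Fin.cons_succ, ← add_assoc, ih]
    simp only [Fin.sum_univ_four]
    norm_num
    ring

def MM : Matrix (Fin 3) (Fin 2) ℤ := !![0, 0; 0, 1; 0, 3]

def gg {n : ℕ} (s : Fin n → Fin 2) (y : Fin n → Fin 4) : ℤ := ∑ l, ((s l : ℕ) : ℤ) * (2 * ((y l : ℕ) : ℤ) - 3)

theorem dif : ∀ u v : Fin 4, ∃ a b : Fin 3, (∀ t : Fin 2, 2 * (MM a t - MM b t) =
    ((t : ℕ) : ℤ) * (2 * ((u : ℕ) : ℤ) - 3) - ((t : ℕ) : ℤ) * (2 * ((v : ℕ) : ℤ) - 3)) ∧ (a = b → u = v) := by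
  decide

open Finset in
theorem key (n : ℕ) (hn : 1 ≤ n) (S : Finset (Fin n → Fin 2))
    (h : Function.Injective fun (x : Fin n → Fin 3) (s : S) => ∑ l : Fin n, MM (x l) ((s : Fin n → Fin 2) l)) :
    n * Real.log 4 ≤ S.card * (8 + Real.log n / 2) := by
  have inj : Function.Injective fun (y : Fin n → Fin 4) (s : S) => (decide (gg s.1 y < 0), (gg s.1 y).natAbs) := by
    intro y y' e
    choose a b h1 h2 using fun l => dif (y l) (y' l)
    have : a = b := h (funext fun s => by
      have e1 := congrFun e s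
      simp only [Prod.mk.injEq, decide_eq_decide] at e1
      have e2 : gg s.1 y - gg s.1 y' = 0 := by omega
      rw [gg, gg, ← sum_sub_distrib, ← sum_congr rfl fun l _ => h1 l (s.1 l), ← mul_sum, sum_sub_distrib] at e2
      simp only
      omega)
    exact funext fun l => h2 l (congrFun this l)
  set a := Real.sqrt n with ha
  have hn' : (1 : ℝ) ≤ n := by exact_mod_cast hn
  have a1 : 1 ≤ a := Real.one_le_sqrt.2 hn'
  have a2 : a ^ 2 = n := Real.sq_sqrt (by positivity)
  set r := a / (a + 1) with hr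
  have r0 : 0 < r := by positivity
  have r1 : r < 1 := by rw [hr, div_lt_one (by positivity)]; linarith
  let B : Finset (Bool × ℕ) := univ ×ˢ range (3 * n + 1)
  have W : ∑ z ∈ B, r ^ z.2 ≤ 4 * a := by
    have : ∑ k ∈ range (3 * n + 1), r ^ k ≤ (1 - r)⁻¹ := by
      rw [← tsum_geometric_of_lt_one r0.le r1]
      exact (summable_geometric_of_lt_one r0.le r1).sum_le_tsum _ fun _ _ => by positivity
    have e : (1 - r)⁻¹ = a + 1 := by rw [hr]; field_simp; ring
    simp only [B, sum_product, Fintype.univ_bool, sum_const]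
    simp
    linarith
  have up : ∑ y : Fin n → Fin 4, ∏ s : S, r ^ (gg s.1 y).natAbs ≤ (4 * a) ^ S.card := by
    calc _ = ∑ z ∈ univ.image fun (y : Fin n → Fin 4) (s : S) => (decide (gg s.1 y < 0), (gg s.1 y).natAbs),
          ∏ s : S, r ^ (z s).2 := by rw [sum_image fun _ _ _ _ e => inj e]
      _ ≤ ∑ z ∈ Fintype.piFinset fun _ : S => B, ∏ s : S, r ^ (z s).2 := by
        refine sum_le_sum_of_subset_of_nonneg (fun z hz => ?_) fun _ _ _ => by positivity
        obtain ⟨y, -, rfl⟩ := mem_image.1 hz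
        simp only [Fintype.mem_piFinset, B, mem_product, mem_univ, true_and, mem_range]
        intro s
        have : |gg s.1 y| ≤ ∑ l : Fin n, 3 := (abs_sum_le_sum_abs _ _).trans (sum_le_sum fun l _ => by
          generalize s.1 l = t, y l = u
          revert t u; decide)
        simp [abs_le] at this
        omega
      _ = ∏ s : S, ∑ z ∈ B, r ^ z.2 := (prod_univ_sum (fun _ : S => B) fun _ z => r ^ z.2).symm
      _ ≤ ∏ s : S, 4 * a := prod_le_prod (fun _ _ => by positivity) fun _ _ => W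
      _ = _ := by simp
  have lo : ∀ y : Fin n → Fin 4, Real.exp (-(6 * S.card)) * (1 + 5 * S.card - ∑ s : S, (gg s.1 y : ℝ) ^ 2 / n) ≤
      ∏ s : S, r ^ (gg s.1 y).natAbs := fun y => by
    have e1 : ∀ z : ℤ, Real.exp (-(1 + (z : ℝ) ^ 2 / n)) ≤ r ^ z.natAbs := fun z => by
      have e2 : Real.exp (-(1 / a)) ≤ r := by
        rw [Real.exp_neg, inv_le_comm₀ (Real.exp_pos _) r0]
        have := Real.add_one_le_exp (1 / a)
        have e : r⁻¹ = 1 / a + 1 := by rw [hr]; field_simp; ring
        linarith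
      refine le_trans ?_ (pow_le_pow_left₀ (Real.exp_pos _).le e2 _)
      rw [← Real.exp_nat_mul, Real.exp_le_exp]
      have e3 : (z : ℝ) ^ 2 / n = ((z.natAbs : ℝ) * (1 / a)) ^ 2 := by
        rw [← a2, Nat.cast_natAbs, Int.cast_abs, mul_pow, sq_abs]; field_simp
      rw [e3]
      nlinarith [sq_nonneg ((z.natAbs : ℝ) * (1 / a) - 1), sq_nonneg ((z.natAbs : ℝ) * (1 / a))]
    refine le_trans ?_ (prod_le_prod (fun _ _ => (Real.exp_pos _).le) fun s _ => e1 (gg s.1 y))
    rw [← Real.exp_sum, sum_neg_distrib, sum_add_distrib]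
    have := Real.add_one_le_exp (5 * S.card - ∑ s : S, (gg s.1 y : ℝ) ^ 2 / n)
    calc _ ≤ Real.exp (-(6 * S.card)) * Real.exp (5 * S.card - ∑ s : S, (gg s.1 y : ℝ) ^ 2 / n) := by
          gcongr; linarith
      _ = _ := by rw [← Real.exp_add]; congr 1; simp; ring
  have m2 : ∑ y : Fin n → Fin 4, ∑ s : S, (gg s.1 y : ℝ) ^ 2 / n ≤ 4 ^ n * (5 * S.card) := by
    rw [sum_comm]
    calc _ ≤ ∑ s : S, (4 : ℝ) ^ n * 5 := sum_le_sum fun s _ => by
          have := mom n (fun l => ((s.1 l : ℕ) : ℝ)) 0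
          simp only [zero_add] at this
          have e4 : ∑ l, ((s.1 l : ℕ) : ℝ) ^ 2 ≤ ∑ l : Fin n, 1 := sum_le_sum fun l _ => by
            generalize s.1 l = t
            fin_cases t <;> simp
          simp only [gg]
          push_cast
          rw [← sum_div, this, div_le_iff₀ (by positivity), mul_assoc]
          simp at e4
          gcongr
          linarith
      _ = _ := by simp; ring
  have fin : Real.exp (-(6 * S.card)) * 4 ^ n ≤ (4 * a) ^ S.card := by
    refine le_trans ?_ ((sum_le_sum fun y _ => lo y).trans up)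
    rw [← mul_sum, sum_sub_distrib]
    gcongr
    simp only [sum_const, card_univ, Fintype.card_fun, Fintype.card_fin, nsmul_eq_mul]
    push_cast
    linarith
  have := Real.log_le_log (by positivity) fin
  rw [Real.log_mul (by positivity) (by positivity), Real.log_exp, Real.log_pow, Real.log_pow,
    Real.log_mul (by positivity) (by positivity), ha, Real.log_sqrt (by positivity)] at this
  have l4 : Real.log 4 ≤ 2 := by
    have := Real.log_two_lt_d9
    rw [show (4 : ℝ) = 2 ^ 2 by norm_num, Real.log_pow]; push_cast; linarith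
  have : (S.card : ℝ) * Real.log 4 ≤ S.card * 2 := by gcongr
  linarith

theorem result :
    ¬ (∀ (p q : ℕ) (M : Matrix (Fin p) (Fin q) ℤ),
      2 ≤ p →
      (∀ i j : Fin p, i ≠ j → ∃ s t : Fin q, M i s - M j s ≠ M i t - M j t) →
      Tendsto
        (fun n : ℕ =>
          ((sInf {k : ℕ | ∃ S : Finset (Fin n → Fin q), S.card = k ∧
              Function.Injective
                (fun (x : Fin n → Fin p) (s : S) =>
                  ∑ l : Fin n, M (x l) ((s : Fin n → Fin q) l))} : ℕ) : ℝ)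
            * Real.logb (p : ℝ) (n : ℝ) / (n : ℝ))
        atTop (𝓝 2)) := by
  intro h
  have h := h 3 2 MM (by norm_num) (by decide)
  have e1 := h.eventually (gt_mem_nhds (show (2 : ℝ) < 2.4 by norm_num))
  have e2 := (Real.tendsto_log_atTop.comp tendsto_natCast_atTop_atTop).eventually_gt_atTop 400
  obtain ⟨n, h1, h2, hn⟩ := (e1.and (e2.and (eventually_ge_atTop 1))).exists
  have ne : {k : ℕ | ∃ S : Finset (Fin n → Fin 2), S.card = k ∧ Function.Injective
      (fun (x : Fin n → Fin 3) (s : S) => ∑ l : Fin n, MM (x l) ((s : Fin n → Fin 2) l))}.Nonempty := by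
    refine ⟨_, Finset.univ, rfl, fun x y e => funext fun l => ?_⟩
    have e3 := congrFun e ⟨Pi.single l 1, Finset.mem_univ _⟩
    have e4 : ∀ x : Fin n → Fin 3, ∑ j : Fin n, MM (x j) ((Pi.single l 1 : Fin n → Fin 2) j) = MM (x l) 1 := fun x => by
      rw [Finset.sum_eq_single l (fun j _ hj => ?_) (by simp)]
      · simp
      · rw [Pi.single_eq_of_ne hj]; generalize x j = t; revert t; decide
    simp only [e4] at e3
    revert e3
    generalize x l = t, y l = u
    revert t u; decide
  obtain ⟨S, hS, hi⟩ := Nat.sInf_mem ne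
  have k := key n hn S hi
  rw [← hS] at h1
  have hn' : (0 : ℝ) < n := by exact_mod_cast hn
  have l3 : 0 < Real.log 3 := Real.log_pos (by norm_num)
  have l34 : 5 * Real.log 3 ≤ 4 * Real.log 4 := by
    have := Real.log_le_log (show (0 : ℝ) < 3 ^ 5 by norm_num) (show (3 : ℝ) ^ 5 ≤ 4 ^ 4 by norm_num)
    simpa [Real.log_pow] using this
  simp only [Function.comp] at h2
  rw [div_lt_iff₀ hn', Real.logb, ← mul_div_assoc, div_lt_iff₀ (by simpa using l3)] at h1
  push_cast at h1
  set L := Real.log n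
  have c0 : (0 : ℝ) ≤ S.card := by positivity
  have h3 : S.card * L < 1.92 * (n * Real.log 4) := by nlinarith
  nlinarith

end Pool.Agent.S12636
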