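import Pool.Statements.S12643
import Pool.Agent.H.MP_ff42d4_co.C

set_option autoImplicit false
open Pool Pool.MP_ff42d4_co

namespace Pool.Agent.S12643

open Pool.Agent.H.MP_ff42d4_co in
lemma sum_version :
    ∃ r : Fin 8 ⊕ Fin 8 → ℝ, ∃ p : Fin 8 ⊕ Fin 8 → EuclideanSpace ℝ (Fin 3),
      ∃ ω : Fin 8 ⊕ Fin 8 → Fin 8 ⊕ Fin 8 → ℝ,
      (∀ i, 0 < r i) ∧
      AlgebraicIndependent ℚ r ∧
      (∀ i j, i ≠ j → r i + r j ≤ dist (p i) (p j)) ∧
      (∀ i j, ω i j = ω j i) ∧
      (∀ i j, ω i j ≠ 0 → i ≠ j ∧ dist (p i) (p j) = r i + r j) ∧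
      (∃ i j, ω i j ≠ 0) ∧
      (∀ i, ∑ j, ω i j • (p j - p i) = 0) := by
  obtain ⟨x, hx, hz, hai⟩ := exists_point
  have h77 := miquel_U x hx hz
  have hs := stress_of_U x hx hz
  simp only [NoStress, not_forall] at hs
  obtain ⟨W, h0, hY, hJ, hW⟩ := hs
  obtain ⟨h1, h2, h3, h4, h5⟩ := hx
  have hadj : ∀ y k, adj y k = true → g x y k = 0 := by
    intro y k h
    by_cases h7 : y = 7 ∧ k = 7
    · rw [h7.1, h7.2]
      exact h77
    · exact hz y k (by simp only [adj', h, h7, decide_false, Bool.not_false, Bool.and_self])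
  have hd : ∀ a b : Fin 3 → ℝ, dist (WithLp.toLp 2 a : EuclideanSpace ℝ (Fin 3)) (WithLp.toLp 2 b)
      = √(∑ c, (a c - b c) ^ 2) := by
    intro a b
    rw [EuclideanSpace.dist_eq]
    simp [Real.dist_eq, sq_abs]
  have hle : ∀ y k, x.2.2.1 y + x.2.2.2.1 k ≤ √(∑ c, (x.1 y c - x.2.1 k c) ^ 2) := by
    intro y k
    refine Real.le_sqrt_of_sq_le ?_
    by_cases h : adj y k = true
    · have := hadj y k h
      simp only [g] at this
      linarith
    · have := h3 y k (by simpa using h)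
      simp only [g] at this
      linarith
  have heq : ∀ y k, W y k ≠ 0 → √(∑ c, (x.1 y c - x.2.1 k c) ^ 2) = x.2.2.1 y + x.2.2.2.1 k := by
    intro y k h
    have ha : adj y k = true := by
      by_contra ha
      exact h (h0 y k (by simpa using ha))
    have := hadj y k ha
    simp only [g] at this
    rw [sub_eq_zero.1 this]
    exact Real.sqrt_sq (add_pos (h1 y) (h2 k)).le
  refine ⟨Sum.elim x.2.2.1 x.2.2.2.1,
    Sum.elim (fun y => WithLp.toLp 2 (x.1 y)) (fun k => WithLp.toLp 2 (x.2.1 k)),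
    Sum.elim (fun y => Sum.elim (fun _ => 0) (fun k => W y k))
      (fun k => Sum.elim (fun y => W y k) (fun _ => 0)), ?_, hai, ?_, ?_, ?_, ?_, ?_⟩
  · rintro (i | i)
    · exact h1 i
    · exact h2 i
  · rintro (i | i) (j | j) hij
    · simp only [Sum.elim_inl, hd]
      exact Real.le_sqrt_of_sq_le (h4 i j fun h => hij (by rw [h])).le
    · simp only [Sum.elim_inl, Sum.elim_inr, hd]
      exact hle i j
    · simp only [Sum.elim_inl, Sum.elim_inr]
      rw [dist_comm, hd, add_comm]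
      exact hle j i
    · simp only [Sum.elim_inr, hd]
      exact Real.le_sqrt_of_sq_le (h5 i j fun h => hij (by rw [h])).le
  · rintro (i | i) (j | j) <;> rfl
  · rintro (i | i) (j | j) hij
    · exact absurd rfl hij
    · refine ⟨by simp, ?_⟩
      simp only [Sum.elim_inl, Sum.elim_inr, hd]
      exact heq i j hij
    · refine ⟨by simp, ?_⟩
      simp only [Sum.elim_inl, Sum.elim_inr]
      rw [dist_comm, hd, add_comm]
      exact heq j i hij
    · exact absurd rfl hij
  · by_contra hne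
    apply hW
    funext y k
    by_contra h
    exact hne ⟨Sum.inl y, Sum.inr k, h⟩
  · rintro (i | i)
    · ext c
      have := hY i c
      simp only [Fintype.sum_sum_type, Sum.elim_inl, Sum.elim_inr, zero_smul,
        Finset.sum_const_zero, zero_add, WithLp.ofLp_sum, Finset.sum_apply, PiLp.smul_apply,
        PiLp.sub_apply, smul_eq_mul, PiLp.zero_apply]
      rw [← neg_eq_zero, ← Finset.sum_neg_distrib, ← this]
      exact Finset.sum_congr rfl fun k _ => by ring
    · ext c
      have := hJ i c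
      simp only [Fintype.sum_sum_type, Sum.elim_inl, Sum.elim_inr, zero_smul,
        Finset.sum_const_zero, add_zero, WithLp.ofLp_sum, Finset.sum_apply, PiLp.smul_apply,
        PiLp.sub_apply, smul_eq_mul, PiLp.zero_apply]
      exact this

/-- There is a finite packing of balls in 3-space with positive radii algebraically independent over the rationals whose contact graph carries a nonzero symmetric equilibrium stress. -/
theorem result :
    ∃ n : ℕ, ∃ r : Fin n → ℝ, ∃ p : Fin n → EuclideanSpace ℝ (Fin 3), ∃ ω : Fin n → Fin n → ℝ,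
      (∀ i, 0 < r i) ∧
      AlgebraicIndependent ℚ r ∧
      (∀ i j, i ≠ j → r i + r j ≤ dist (p i) (p j)) ∧
      (∀ i j, ω i j = ω j i) ∧
      (∀ i j, ω i j ≠ 0 → i ≠ j ∧ dist (p i) (p j) = r i + r j) ∧
      (∃ i j, ω i j ≠ 0) ∧
      (∀ i, ∑ j, ω i j • (p j - p i) = 0) := by
  obtain ⟨r, p, ω, h1, h2, h3, h4, h5, ⟨i0, j0, h6⟩, h7⟩ := sum_version
  let e : Fin (8 + 8) ≃ Fin 8 ⊕ Fin 8 := finSumFinEquiv.symm
  refine ⟨8 + 8, r ∘ e, p ∘ e, fun i j => ω (e i) (e j), fun i => h1 _,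
    h2.comp e e.injective, fun i j h => h3 _ _ (e.injective.ne h), fun i j => h4 _ _,
    fun i j h => ⟨fun hij => (h5 _ _ h).1 (by rw [hij]), (h5 _ _ h).2⟩,
    ⟨e.symm i0, e.symm j0, by simpa using h6⟩, fun i => ?_⟩
  rw [← h7 (e i)]
  exact Equiv.sum_comp e fun j => ω (e i) j • (p j - p (e i))

end Pool.Agent.S12643
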