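import Pool.Statements.S12678
import Pool.Agent.H.MP_034e58.F

set_option autoImplicit false
open Pool Pool.MP_034e58_gt

namespace Pool.Agent.S12678

theorem result :
    ¬ (∀ (n : ℕ) (M : Type) [TopologicalSpace M]
      [ChartedSpace (EuclideanSpace ℝ (Fin n)) M]
      [T2Space M] [ConnectedSpace M] [TopologicalSpace.SeparableSpace M],
      ∀ U : Set M, IsOpen U → U.Nonempty →
        ∃ V : Set M, IsOpen V ∧ Dense V ∧ Nonempty (U ≃ₜ V)) := by
  open Pool.Agent.H.MP_034e58 in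
  intro h
  open Pool.Agent.H.MP_034e58 in
  obtain ⟨d, hd⟩ := Pool.Agent.H.MP_034e58.main
  open Pool.Agent.H.MP_034e58 in
  obtain ⟨V, h1, h2, ⟨f⟩⟩ := h 2 (M d) (U d) U_open ⟨_, U0 d.i0 0⟩
  exact hd _ (h1.isOpenEmbedding_subtypeVal.comp f.isOpenEmbedding)
    (h2.denseRange_val.comp f.surjective.denseRange continuous_subtype_val)

end Pool.Agent.S12678
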