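import Pool.Statements.S12690
import Pool.Agent.H.MP_068a93_gt.D

set_option autoImplicit false
open TopologicalSpace Topology
open scoped Topology
open Pool Pool.MP_068a93_gt

namespace Pool.Agent.S12690

theorem result :
    ¬ (∀ D : (S : Type) → TopologicalSpace S → ℕ → Prop,
    (∀ (S : Type) (t : TopologicalSpace S) (k : ℕ), D S t k ↔
      ∀ (j : ℕ) (U : Fin j → Set S), (∀ i, IsOpen[t] (U i)) → (⋃ i, U i) = Set.univ →
        ∃ V : Fin j → Set S, (∀ i, IsOpen[t] (V i)) ∧ (∀ i, V i ⊆ U i) ∧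
          (⋃ i, V i) = Set.univ ∧
          ∀ x : S, Set.ncard {i : Fin j | x ∈ V i} ≤ k + 1) →
    ∀ n : ℕ, 2 < n →
      ∃ (X : Type) (_ : TopologicalSpace X), MetrizableSpace X ∧ SeparableSpace X ∧
        ∃ m : ℕ, D X inferInstance m ∧ (∀ k < m, ¬ D X inferInstance k) ∧
        ∃ (K : Type) (_ : TopologicalSpace K), CompactSpace K ∧ T2Space K ∧
          MetrizableSpace K ∧ (∃ N : ℕ, D K inferInstance N) ∧
          ∃ c : X → K, IsEmbedding c ∧ DenseRange c ∧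
            ∀ (L : Type) (_ : TopologicalSpace L), CompactSpace L → T2Space L →
              MetrizableSpace L → ∀ d : X → L, IsEmbedding d → DenseRange d →
              (∃ f : K → L, Continuous f ∧ f ∘ c = d) →
              ∀ k < n + m, ¬ D L inferInstance k) := by
  intro hall
  obtain ⟨X, tX, -, -, m, hm, -, K, tK, hKc, hK2, hKm, -, c, hc, hcd, hL⟩ :=
    hall (fun S t k => ∀ (j : ℕ) (U : Fin j → Set S), (∀ i, IsOpen[t] (U i)) →
      (⋃ i, U i) = Set.univ → ∃ V : Fin j → Set S, (∀ i, IsOpen[t] (V i)) ∧ (∀ i, V i ⊆ U i) ∧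
        (⋃ i, V i) = Set.univ ∧ ∀ x : S, Set.ncard {i : Fin j | x ∈ V i} ≤ k + 1)
      (fun _ _ _ => Iff.rfl) 3 (by norm_num)
  rcases isEmpty_or_nonempty K with hK | hK
  · exact hL K tK hKc hK2 hKm c hc hcd ⟨id, continuous_id, rfl⟩ 0 (by omega)
      (fun j U hU hcov => ⟨U, hU, fun _ => Set.Subset.rfl, hcov, fun x => hK.elim x⟩)
  letI : MetricSpace K := TopologicalSpace.metrizableSpaceMetric K
  obtain ⟨H, hH, h⟩ := Pool.Agent.H.MP_068a93_gt.exists_map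
    (Pool.Agent.H.MP_068a93_gt.hd_of hc hcd hm)
  have hs := Pool.Agent.H.MP_068a93_gt.ff_surj ⟨H, hH⟩
  have hf := Pool.Agent.H.MP_068a93_gt.ff_cont ⟨H, hH⟩
  refine hL _ inferInstance (hs.compactSpace hf) inferInstance inferInstance
    (Pool.Agent.H.MP_068a93_gt.ff ⟨H, hH⟩ ∘ c)
    (Pool.Agent.H.MP_068a93_gt.ff_emb _ hc fun x y hy => ?_)
    (hs.denseRange.comp hcd hf) ⟨_, hf, rfl⟩ (m + 2) (by omega)
    (Pool.Agent.H.MP_068a93_gt.covers ⟨H, hH⟩)
  obtain ⟨V, v1, v2, v3, η, hη, v4⟩ := h (c x) ⟨x, rfl⟩ y hy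
  exact Pool.Agent.H.MP_068a93_gt.ff_sep _ v1 v2 v3 hη v4

end Pool.Agent.S12690
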