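import Pool.Statements.S12713
import Pool.Agent.H.MP_e848aa_gt.A

set_option autoImplicit false
open Pool Pool.MP_08e409_gt

namespace Pool.Agent.S12713

open Set Filter Topology

theorem para {X : Type} [TopologicalSpace X] [RegularSpace X] [LindelofSpace X] :
    ParacompactSpace X := ⟨fun α s hs hc => by
  classical
  rcases isEmpty_or_nonempty X with h | h
  · exact ⟨α, s, hs, hc, fun x => h.elim x, fun a => ⟨a, Subset.rfl⟩⟩
  have h1 : ∀ x, ∃ a, ∃ V ∈ 𝓝 x, IsClosed V ∧ V ⊆ s a := fun x => by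
    obtain ⟨a, ha⟩ := mem_iUnion.1 (hc ▸ mem_univ x)
    exact ⟨a, exists_mem_nhds_isClosed_subset ((hs a).mem_nhds ha)⟩
  choose a V v1 v2 v3 using h1
  obtain ⟨t, t1, -, t2⟩ := isLindelof_univ.elim_nhds_subcover (fun x => interior (V x))
    fun x _ => interior_mem_nhds.2 (v1 x)
  obtain ⟨x0⟩ := h
  obtain ⟨g, rfl⟩ := t1.exists_eq_range (by
    obtain ⟨y, hy, -⟩ := mem_iUnion₂.1 (t2 (mem_univ x0)); exact ⟨y, hy⟩)
  replace t2 : ∀ x, ∃ n, x ∈ interior (V (g n)) := fun x => by simpa using t2 (mem_univ x)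
  refine ⟨ℕ, fun n => s (a (g n)) \ ⋃ m ∈ Iio n, V (g m), fun n => (hs _).sdiff
    ((finite_Iio n).isClosed_biUnion fun m _ => v2 _), eq_univ_of_forall fun x => ?_,
    fun x => ?_, fun n => ⟨_, sdiff_subset⟩⟩
  · have h2 : ∃ n, x ∈ V (g n) := (t2 x).imp fun n h => interior_subset h
    refine mem_iUnion.2 ⟨Nat.find h2, v3 _ (Nat.find_spec h2), fun h => ?_⟩
    obtain ⟨m, m1, m2⟩ := mem_iUnion₂.1 h
    exact Nat.find_min h2 m1 m2
  · obtain ⟨m, hm⟩ := t2 x
    exact ⟨V (g m), mem_interior_iff_mem_nhds.1 hm, (finite_Iic m).subset fun n ⟨y, y1, y2⟩ =>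
      mem_Iic.2 (not_lt.1 fun h => y1.2 (mem_biUnion (mem_Iio.2 h) y2))⟩⟩

theorem cyl {J α : Type} [TopologicalSpace α] {x : J → α} {U : Set (J → α)} (h : U ∈ 𝓝 x) :
    ∃ F : Set J, F.Finite ∧ ∀ y, (∀ j ∈ F, y j = x j) → y ∈ U := by
  rw [nhds_pi, Filter.mem_pi] at h
  obtain ⟨F, hF, t, ht, hs⟩ := h
  exact ⟨F, hF, fun y hy => hs fun j hj => hy j hj ▸ mem_of_mem_nhds (ht j)⟩

theorem pt {Y : Type} [TopologicalSpace Y] [T1Space Y] [FirstCountableTopology Y] (p : Y) :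
    ∃ V : ℕ → Set Y, (∀ n, IsOpen (V n) ∧ p ∈ V n) ∧ ∀ q, (∀ n, q ∈ V n) → q = p := by
  obtain ⟨V, hV⟩ := (𝓝 p).exists_antitone_basis
  exact ⟨fun n => interior (V n), fun n => ⟨isOpen_interior, mem_interior_iff_mem_nhds.2 (hV.mem n)⟩,
    fun q hq => by_contra fun h => by
      obtain ⟨n, hn⟩ := hV.mem_iff.1 (compl_singleton_mem_nhds (Ne.symm h))
      exact hn (interior_subset (hq n)) rfl⟩

theorem gleason {J Y : Type} [TopologicalSpace Y] [T2Space Y] [FirstCountableTopology Y]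
    {F : (J → Bool) → Y} (hF : Continuous F) :
    ∃ A : Set J, A.Countable ∧ ∀ y z, (∀ j ∈ A, y j = z j) → F y = F z := by
  classical
  have h1 : ∀ y, ∃ A : Set J, A.Countable ∧ ∀ z, (∀ j ∈ A, z j = y j) → F z = F y := fun y => by
    obtain ⟨V, v1, v2⟩ := pt (F y)
    choose G g1 g2 using fun n => cyl (hF.continuousAt.preimage_mem_nhds
      ((v1 n).1.mem_nhds (v1 n).2))
    exact ⟨⋃ n, G n, countable_iUnion fun n => (g1 n).countable, fun z hz => v2 _ fun n =>
      g2 n z fun j hj => hz j (mem_iUnion.2 ⟨n, hj⟩)⟩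
  choose A a1 a2 using h1
  obtain ⟨H, H1, -, H3, -⟩ := Pool.Agent.H.MP_e848aa_gt.hull
    (fun s : Finset J => A fun j => decide (j ∈ s)) fun s => a1 _
  have h2 : F = fun y => F fun j => if j ∈ H ∅ then y j else false := by
    refine Continuous.ext_on (s := range fun (s : Finset J) j => decide (j ∈ s))
      (fun y => mem_closure_iff_nhds.2 fun U hU => ?_) hF (hF.comp (continuous_pi fun j => by
        split_ifs
        exacts [continuous_apply j, continuous_const])) ?_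
    · obtain ⟨G, g1, g2⟩ := cyl hU
      exact ⟨_, g2 _ fun j hj => by simp [hj], g1.toFinset.filter (y · = true), rfl⟩
    · rintro _ ⟨s, rfl⟩
      have h2 := H3 ∅ (s.filter (· ∈ H ∅)) fun q hq => (Finset.mem_filter.1 hq).2
      refine (a2 (fun j => decide (j ∈ s.filter (· ∈ H ∅))) _ fun j hj => by
        simp [h2 hj]).trans (congrArg F (funext fun j => ?_))
      by_cases h : j ∈ H ∅ <;> simp [h]
  refine ⟨H ∅, H1 ∅ countable_empty, fun y z h => ?_⟩
  rw [h2]
  exact congrArg F (funext fun j => by split_ifs with h3; exacts [h j h3, rfl])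

abbrev R : Type := ℕ → Bool

open Classical in
noncomputable def e (i : R × R) (a : Option R × ℕ) : Bool :=
  a.1.elim (i.1 a.2) fun r => if r = i.1 then i.2 a.2 else false

def S : Set ((Option R × ℕ → Bool) × (R × R → ℕ)) := {x | ∀ i, x.2 i = 0 ∨ x.1 = e i}

theorem Scl : IsClosed S := by
  simp only [S, ofPred_forall, setOf_or]
  exact isClosed_iInter fun i => (isClosed_eq (by fun_prop) continuous_const).union
    (isClosed_eq continuous_fst continuous_const)

theorem einj {i : R × R} {r t : R} (h1 : (fun n => e i (none, n)) = r)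
    (h2 : (fun n => e i (some r, n)) = t) : i = (r, t) := by
  have h3 : i.1 = r := h1
  exact Prod.ext h3 (by rw [← h2]; funext n; simp [e, h3])

theorem cpt (n : ℕ) : IsCompact {x : S | ∀ i, x.1.2 i ≤ n} :=
  Scl.isClosedEmbedding_subtypeVal.isCompact_preimage (K := univ ×ˢ {w : R × R → ℕ | ∀ i, w i ∈ Iic n})
    (isCompact_univ.prod (isCompact_pi_infinite fun _ => (finite_Iic n).isCompact)) |>.of_isClosed_subset
    (by
      simp only [ofPred_forall]
      exact isClosed_iInter fun i => isClosed_le (by fun_prop) continuous_const)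
    fun x hx => ⟨trivial, hx⟩

theorem bd (x : S) (i : R × R) : x.1.2 i ≤ x.1.2 (fun n => x.1.1 (none, n),
    fun n => x.1.1 (some fun n => x.1.1 (none, n), n)) := by
  rcases x.2 i with h | h
  · simp [h]
  · rw [h, ← einj rfl rfl]

instance : SigmaCompactSpace S := ⟨⟨_, cpt, eq_univ_of_forall fun x => mem_iUnion.2 ⟨_, bd x⟩⟩⟩

theorem pct (x : S) : ∃ K : Set S, IsCompact K ∧ x ∈ K ∧ (𝓝ˢ K).IsCountablyGenerated := by
  obtain ⟨r, hr⟩ : ∃ r : R, (fun n => x.1.1 (none, n)) = r := ⟨_, rfl⟩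
  obtain ⟨t, ht⟩ : ∃ t : R, (fun n => x.1.1 (some r, n)) = t := ⟨_, rfl⟩
  obtain ⟨φ, hφ⟩ : ∃ φ : S → R × R × ℕ, ∀ z, φ z = (fun n => z.1.1 (none, n),
    fun n => z.1.1 (some r, n), z.1.2 (r, t)) := ⟨_, fun _ => rfl⟩
  have h1 : Continuous φ := by rw [funext hφ]; fun_prop
  have h2 : ∀ 𝒰 : Ultrafilter S, ↑𝒰 ≤ comap φ (𝓝 (φ x)) → ∃ z ∈ φ ⁻¹' {φ x}, ↑𝒰 ≤ 𝓝 z := by
    intro 𝒰 h2
    replace h2 : Tendsto φ 𝒰 (𝓝 (r, t, x.1.2 (r, t))) := by
      have := tendsto_iff_comap.2 h2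
      rwa [hφ x, hr, ht] at this
    have h3 : ∀ i, ∀ᶠ z : S in 𝒰, z.1.2 i ≤ x.1.2 (r, t) := fun i => by
      by_cases h3 : ∀ᶠ z : S in 𝒰, z.1.2 i = 0
      · exact h3.mono fun z hz => by simp [hz]
      replace h3 : ∀ᶠ z : S in 𝒰, z.1.1 = e i :=
        (Ultrafilter.eventually_not.2 h3).mono fun z hz => (z.2 i).resolve_left hz
      rw [einj (i := i) (r := r) (t := t) (tendsto_nhds_unique_of_eventuallyEq tendsto_const_nhds h2.fst_nhds
        (h3.mono fun z hz => by simp [hφ, hz])) (tendsto_nhds_unique_of_eventuallyEq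
          tendsto_const_nhds h2.snd_nhds.fst_nhds (h3.mono fun z hz => by simp [hφ, hz]))]
      exact (tendsto_pure.1 (nhds_discrete ℕ ▸ h2.snd_nhds.snd_nhds)).mono fun z hz => by
        simp only [hφ] at hz
        exact hz.le
    obtain ⟨y, -, y1⟩ := isCompact_univ.ultrafilter_le_nhds (𝒰.map fun z => z.1.1) (by simp)
    choose w _ w1 using fun i => (finite_Iic (x.1.2 (r, t))).isCompact.ultrafilter_le_nhds
      (𝒰.map fun z : S => z.1.2 i) (le_principal_iff.2 (h3 i))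
    have h4 : Tendsto Subtype.val (𝒰 : Filter S) (𝓝 (y, w)) :=
      Tendsto.prodMk_nhds y1 (tendsto_pi_nhds.2 w1)
    have h5 : ↑𝒰 ≤ 𝓝 (⟨(y, w), Scl.mem_of_tendsto h4 (Eventually.of_forall fun z => z.2)⟩ : S) :=
      tendsto_subtype_rng.2 h4
    refine ⟨_, tendsto_nhds_unique ((h1.tendsto _).mono_left h5) ?_, h5⟩
    rwa [hφ, hr, ht]
  refine ⟨φ ⁻¹' {φ x}, isCompact_iff_ultrafilter_le_nhds.2 fun 𝒰 h => h2 𝒰 (h.trans ?_), rfl, ?_⟩
  · rw [← comap_principal, principal_singleton]; exact comap_mono (pure_le_nhds _)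
  · rw [le_antisymm (a := 𝓝ˢ (φ ⁻¹' {φ x})) (nhdsSet_le.2 fun z hz => ((show φ z = φ x from hz) ▸
      tendsto_iff_comap.1 (h1.tendsto z) :
      𝓝 z ≤ comap φ (𝓝 (φ x)))) (le_iff_ultrafilter.2 fun 𝒰 h => by
        obtain ⟨z, z1, z2⟩ := h2 𝒰 h
        exact z2.trans (nhds_le_nhdsSet z1))]
    infer_instance

theorem unc {s : Set R} (h : s.Countable) : ∃ r, r ∉ s := by
  by_contra h1
  have : Uncountable R := by
    rw [← Cardinal.aleph0_lt_mk_iff]; simp [Cardinal.aleph0_lt_continuum]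
  exact not_countable_univ (h.mono fun r _ => by_contra fun h2 => h1 ⟨r, h2⟩)

theorem result :
    ∃ (X : Type) (_ : TopologicalSpace X),
      T2Space X ∧ ParacompactSpace X ∧
      (∀ x : X, ∃ K : Set X, IsCompact K ∧ x ∈ K ∧ (nhdsSet K).IsCountablyGenerated) ∧
      ¬ ∃ (Y : Type) (_ : TopologicalSpace Y), FirstCountableTopology Y ∧
          ∃ f : X → Y, Continuous f ∧ IsClosedMap f ∧ Function.Surjective f ∧
            ∀ y : Y, IsCompact (f ⁻¹' {y}) := by
  classical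
  refine ⟨S, inferInstance, inferInstance, para, pct, ?_⟩
  rintro ⟨Y, _, _, f, f1, f2, f3, f4⟩
  have : T2Space Y := ⟨fun a b hab => by
    obtain ⟨U, V, u1, v1, u2, v2, h⟩ := SeparatedNhds.of_isCompact_isCompact (f4 a) (f4 b)
      ((disjoint_singleton.2 hab).preimage f)
    refine ⟨_, _, isClosedMap_iff_kernImage.1 f2 u1, isClosedMap_iff_kernImage.1 f2 v1,
      fun x hx => u2 hx, fun x hx => v2 hx, Set.disjoint_left.2 fun c h1 h2 => ?_⟩
    obtain ⟨x, rfl⟩ := f3 c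
    exact Set.disjoint_left.1 h (h1 rfl) (h2 rfl)⟩
  obtain ⟨g, hg⟩ : ∃ g : (Option R × ℕ → Bool) → S, ∀ y, (g y).1 = (y, 0) :=
    ⟨fun y => ⟨(y, 0), fun _ => Or.inl rfl⟩, fun _ => rfl⟩
  have g1 : Continuous g := continuous_induced_rng.2 (by
    rw [show Subtype.val ∘ g = _ from funext hg]; fun_prop)
  obtain ⟨A, a1, a2⟩ := gleason (f1.comp g1)
  obtain ⟨r, hr⟩ := unc ((a1.image Prod.fst).preimage (Option.some_injective R))
  obtain ⟨z, hz⟩ : ∃ z : R → ℕ → S, ∀ t n, (z t n).1 = (e (r, t), Pi.single (r, t) n) :=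
    ⟨fun t n => ⟨(e (r, t), Pi.single (r, t) n), fun i => by
      by_cases h : i = (r, t)
      · exact Or.inr (by rw [h])
      · exact Or.inl (by simp [h])⟩, fun _ _ => rfl⟩
  obtain ⟨V, v1, v2⟩ := pt (f (g (e (r, r))))
  have h1 : ∀ k, {t | ∃ n, f (z t n) ∉ V k}.Finite := fun k => by
    by_contra h
    have := cofinite_inf_principal_neBot_iff.2 h
    obtain ⟨𝒰, u1⟩ := Ultrafilter.exists_le (cofinite ⊓ 𝓟 {t | ∃ n, f (z t n) ∉ V k})
    obtain ⟨t, -, t1⟩ := isCompact_univ.ultrafilter_le_nhds 𝒰 (by simp)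
    choose! n hn using fun t (h : t ∈ {t | ∃ n, f (z t n) ∉ V k}) => h
    have h2 : Tendsto (fun t => z t (n t)) 𝒰 (𝓝 (g (e (r, t)))) := by
      rw [tendsto_subtype_rng, hg]
      simp only [hz]
      refine Tendsto.prodMk_nhds (((continuous_pi fun a => ?_).tendsto t).mono_left t1)
        (tendsto_pi_nhds.2 fun i => tendsto_const_nhds.congr' (mem_of_superset (u1.trans inf_le_left
          (finite_singleton i.2).compl_mem_cofinite) fun t h => by
            have : i ≠ (r, t) := fun h2 => h (by rw [h2]; rfl)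
            simp [this]))
      obtain ⟨_ | a, m⟩ := a
      · exact continuous_const
      · simp only [e, Option.elim]
        split_ifs
        exacts [continuous_apply m, continuous_const]
    have h3 : f (g (e (r, t))) = f (g (e (r, r))) := a2 _ _ fun a ha => by
      obtain ⟨_ | a, m⟩ := a
      · rfl
      · have : a ≠ r := fun h => hr ⟨_, ha, by rw [h]⟩
        simp [e, this]
    obtain ⟨s, s1, s2⟩ := (((f1.tendsto _).comp h2).eventually ((v1 k).1.mem_nhds
      (h3 ▸ (v1 k).2))).and (le_principal_iff.1 (u1.trans inf_le_right)) |>.exists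
    exact hn s s2 s1
  obtain ⟨t, ht⟩ := unc (countable_iUnion fun k => (h1 k).countable)
  refine infinite_univ (((f4 (f (g (e (r, r))))).image (f := fun x : S => x.1.2 (r, t))
    (by fun_prop)).finite_of_discrete.subset fun n _ => ⟨z t n, v2 _ fun k => by_contra fun h =>
      ht (mem_iUnion.2 ⟨k, n, h⟩), by simp [hz]⟩)

end Pool.Agent.S12713
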