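import Pool.Statements.S12732
import Pool.Agent.H.MP_55e6a3_gt.A

set_option autoImplicit false
open Pool Pool.MP_0b3857_gt

namespace Pool.Agent.S12732

open Set Filter Topology Cardinal Pool.Agent.H.MP_55e6a3_gt

abbrev C : Type := {g : Ultrafilter L → ℝ // Continuous g}

open Classical in
noncomputable def χ (A : Set L) : C := ⟨fun p => if A ∈ p then 1 else 0,
  Continuous.if (fun p hp => by
    rw [IsClopen.frontier_eq ⟨ultrafilter_isClosed_basic A, ultrafilter_isOpen_basic A⟩] at hp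
    exact hp.elim) continuous_const continuous_const⟩

theorem cyl {V : Set C} (hV : IsOpen V) {g : C} (h : g ∈ V) : ∃ F : Set (Ultrafilter L),
    F.Finite ∧ ∀ f : C, (∀ p ∈ F, f.1 p = g.1 p) → f ∈ V := by
  obtain ⟨W, h1, rfl⟩ := isOpen_induced_iff.1 hV
  have h2 := h1.mem_nhds h
  rw [nhds_pi, Filter.mem_pi] at h2
  obtain ⟨F, hF, t, ht, hs⟩ := h2
  exact ⟨F, hF, fun f hf => hs fun j hj => hf j hj ▸ mem_of_mem_nhds (ht j)⟩

theorem cnt {s : Set L} (hs : s.Countable) : ∃ b, ∀ a ∈ s, a < b := by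
  obtain ⟨b, hb⟩ := bddL ((le_aleph0_iff_set_countable.2 hs).trans aleph0_lt_aleph_one.le)
    Subtype.val
  exact ⟨b, fun a ha => hb ⟨a, ha⟩⟩

theorem loc {V : Set C} (hV : IsOpen V) {b d : L} (hb : b < d) (h : χ (Iio d) ∈ V) (a : L) :
    ∃ g < d, ∃ u, a < u ∧ d < u ∧ ∀ (B : Set L) c t, c < d → Iic g ⊆ B → Ioo c d ⊆ B →
      (∀ x ∈ B, x < t ∧ x ∉ Ico d u) → χ B ∈ V := by
  classical
  obtain ⟨F, f1, f2⟩ := cyl hV h
  have h1 : ∀ p : Ultrafilter L, ∃ g < d, Iic g ∈ p ∨ ∀ c < d, Ioi c ∈ p := fun p => by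
    by_cases h1 : ∃ g < d, Iic g ∈ p
    · obtain ⟨g, g1, g2⟩ := h1
      exact ⟨g, g1, Or.inl g2⟩
    · exact ⟨b, hb, Or.inr fun c hc => compl_Iic (a := c) ▸
        Ultrafilter.compl_mem_iff_notMem.2 fun h2 => h1 ⟨c, hc, h2⟩⟩
  have h2 : ∀ p : Ultrafilter L, ∃ w, ∀ t, Iio t ∈ p → Iio w ∈ p := fun p => by
    by_cases h2 : ∃ t, Iio t ∈ p
    · exact h2.imp fun t h _ _ => h
    · exact ⟨a, fun t h => absurd ⟨t, h⟩ h2⟩
  choose g g1 g2 using h1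
  choose w hw using h2
  obtain ⟨m, m1, m2⟩ := exists_max_image (insert b (g '' F)) id ((f1.image g).insert b)
    (insert_nonempty _ _)
  obtain ⟨u, hu⟩ := cnt (((f1.image w).countable.insert a).insert d)
  refine ⟨m, by rcases m1 with rfl | ⟨p, -, rfl⟩; exacts [hb, g1 p], u, hu a (by simp),
    hu d (by simp), fun B c t h1 h2 h3 h4 => f2 _ fun p hp => if_congr ⟨fun h5 => ?_,
      fun h5 => ?_⟩ rfl rfl⟩
  · refine mem_of_superset (inter_mem h5 (hw p t (mem_of_superset h5 fun x hx => (h4 x hx).1)))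
      fun x hx => not_le.1 fun h6 => (h4 x hx.1).2 ⟨h6, lt_trans hx.2 (hu _ ?_)⟩
    exact Or.inr (Or.inr ⟨p, hp, rfl⟩)
  · exact (g2 p).elim (fun h6 => mem_of_superset h6 ((Iic_subset_Iic.2
      (m2 _ (Or.inr ⟨p, hp, rfl⟩))).trans h2)) fun h6 =>
        mem_of_superset (inter_mem (h6 c h1) h5) h3

theorem result :
    ¬ (∀ (X : Type) [TopologicalSpace X] [CompactSpace X] [T2Space X],
      ∀ 𝒰 : Set (Set {g : X → ℝ // Continuous g}),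
        (∀ U ∈ 𝒰, IsOpen U) → ⋃₀ 𝒰 = Set.univ →
        ∃ 𝒱 : ℕ → Set (Set {g : X → ℝ // Continuous g}),
          (∀ n, ∀ V ∈ 𝒱 n, IsOpen V ∧ ∃ U ∈ 𝒰, V ⊆ U) ∧
          (∀ n, ⋃₀ 𝒱 n = Set.univ) ∧
          ∀ x : {g : X → ℝ // Continuous g}, ∃ n, {V ∈ 𝒱 n | x ∈ V}.Countable) := by
  intro h
  have ev : ∀ p, Continuous fun g : C => g.1 p := fun p =>
    (continuous_apply p).comp continuous_subtype_val
  obtain ⟨𝒱, v1, v2, v3⟩ := h (Ultrafilter L) (insert {g | g.1 (Ultrafilter.of atTop) ≠ 0}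
    (range fun a => {g | g.1 (pure a) < 1})) (by
      rintro _ (rfl | ⟨a, rfl⟩)
      exacts [isOpen_ne_fun (ev _) continuous_const, isOpen_lt (ev _) continuous_const])
    (eq_univ_of_forall fun g => by
      by_cases h : g.1 (Ultrafilter.of atTop) = 0
      · obtain ⟨a, ha⟩ := denseRange_pure.exists_mem_open (isOpen_lt g.2 continuous_const)
          ⟨Ultrafilter.of atTop, show g.1 _ < 1 by simp [h]⟩
        exact ⟨_, Or.inr ⟨a, rfl⟩, ha⟩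
      · exact ⟨_, Or.inl rfl, h⟩)
  obtain ⟨b⟩ : Nonempty L := inferInstance
  have h1 : ∀ n d, ∃ V ∈ 𝒱 n, χ (Iio d) ∈ V ∧ ∃ g u, d < u ∧ (∀ e, u ≤ e → χ (Iio e) ∉ V) ∧
      (b < d → g < d ∧ ∀ (B : Set L) c t, c < d → Iic g ⊆ B → Ioo c d ⊆ B →
        (∀ x ∈ B, x < t ∧ x ∉ Ico d u) → χ B ∈ V) := fun n d => by
    obtain ⟨V, h1, h2⟩ : χ (Iio d) ∈ ⋃₀ 𝒱 n := v2 n ▸ mem_univ _
    obtain ⟨h3, _, rfl | ⟨a, rfl⟩, h4⟩ := v1 n V h1
    · refine absurd (if_neg fun h => ?_) (h4 h2)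
      obtain ⟨x, x1, x2⟩ := Filter.nonempty_of_mem (inter_mem h
        (Ultrafilter.of_le atTop (Ici_mem_atTop d)))
      exact (mem_Iio.1 x1).not_ge (mem_Ici.1 x2)
    have h5 : ∀ u, a < u → ∀ e, u ≤ e → χ (Iio e) ∉ V := fun u hu e he h5 => by
      simpa [χ, hu.trans_le he] using h4 h5
    by_cases h : b < d
    · obtain ⟨g, g1, u, u1, u2, u3⟩ := loc h3 h h2 a
      exact ⟨V, h1, h2, g, u, u2, h5 u u1, fun _ => ⟨g1, u3⟩⟩
    · obtain ⟨u, hu⟩ := cnt ((countable_singleton a).insert d)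
      exact ⟨V, h1, h2, d, u, hu d (by simp), h5 u (hu a (by simp)), fun h' => absurd h' h⟩
  choose V V1 V2 g u u1 u2 u3 using h1
  have h2 : ∀ n, ∃ γ, ∀ c, ∃ d, c < d ∧ g n d ≤ γ := fun n => by
    by_contra h
    push Not at h
    choose G hG using h
    obtain ⟨d, -, d1, d2⟩ := fix G b
    exact lt_irrefl _ (hG _ d (d2 _ (u3 n d d1).1))
  choose γ hγ using h2
  obtain ⟨γ0, h2⟩ := cnt ((countable_range γ).insert b)
  obtain ⟨e⟩ : Nonempty (I ≃ I × ℕ) := by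
    rw [← Cardinal.eq]; simp [aleph0_lt_aleph_one.le]
  have h3 : ∀ (ξ : I) (r : Iio ξ → L), ∃ d, g (e ξ).2 d ≤ γ (e ξ).2 ∧ ∃ c < d, γ0 < c ∧
      ∀ η : Iio ξ, u (e η).2 (r η) < c := fun ξ r => by
    have := (cIio ξ).to_subtype
    obtain ⟨c, hc⟩ := cnt ((countable_range fun η : Iio ξ => u (e η).2 (r η)).insert γ0)
    obtain ⟨d, d1, d2⟩ := hγ (e ξ).2 c
    exact ⟨d, d2, c, d1, hc _ (Or.inl rfl), fun η => hc _ (Or.inr ⟨η, rfl⟩)⟩
  choose F hF using h3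
  obtain ⟨d, hd⟩ : ∃ d : I → L, ∀ ξ, d ξ = F ξ fun η => d η :=
    ⟨wellFounded_lt.fix fun ξ r => F ξ fun η => r η η.2, fun ξ => wellFounded_lt.fix_eq _ ξ⟩
  have h3 : ∀ ξ, g (e ξ).2 (d ξ) ≤ γ (e ξ).2 ∧ ∃ c < d ξ, γ0 < c ∧
      ∀ η : Iio ξ, u (e η).2 (d η) < c := fun ξ => by rw [hd ξ]; exact hF ξ _
  choose d1 c c1 c2 c3 using h3
  obtain ⟨t, ht⟩ := bddL mkI.le d
  obtain ⟨n, hn⟩ := v3 (χ {x | x < t ∧ ∀ η, x ∉ Ico (d η) (u (e η).2 (d η))})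
  have h3 : ∀ η ξ, η < ξ → V (e η).2 (d η) ≠ V (e ξ).2 (d ξ) := fun η ξ h h3 =>
    u2 _ _ _ ((c3 ξ ⟨η, h⟩).trans (c1 ξ)).le (h3 ▸ V2 _ _)
  have h4 : (Set.univ : Set I).Countable := (hn.preimage (f := (fun ξ => V (e ξ).2 (d ξ)) ∘
    fun ξ => e.symm (ξ, n)) (Function.Injective.comp (fun η ξ h => by
      rcases lt_trichotomy η ξ with h4 | h4 | h4
      exacts [absurd h (h3 _ _ h4), h4, absurd h.symm (h3 _ _ h4)])
      (e.symm.injective.comp (Prod.mk_left_injective n)))).mono fun ζ _ => by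
    refine ⟨by simpa using V1 (e (e.symm (ζ, n))).2 _, ?_⟩
    obtain ⟨ξ, hξ⟩ : ∃ ξ, ξ = e.symm (ζ, n) := ⟨_, rfl⟩
    simp only [Function.comp, ← hξ]
    have h4 : ∀ η, γ0 < d η := fun η => (c2 η).trans (c1 η)
    refine (u3 _ _ ((h2 b (Or.inl rfl)).trans (h4 ξ))).2 _ (c ξ) t (c1 ξ) (fun x hx => ?_)
      (fun x hx => ⟨hx.2.trans (ht ξ), fun η h => ?_⟩) fun x hx => ⟨hx.1, hx.2 ξ⟩
    · have h5 : x < γ0 := (le_trans hx (d1 ξ)).trans_lt (h2 _ (Or.inr ⟨_, rfl⟩))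
      exact ⟨(h5.trans (h4 ξ)).trans (ht ξ), fun η h => (h5.trans (h4 η)).not_ge h.1⟩
    · rcases lt_trichotomy η ξ with h5 | rfl | h5
      · exact ((c3 ξ ⟨η, h5⟩).trans hx.1).not_gt h.2
      · exact hx.2.not_ge h.1
      · exact (hx.2.trans ((u1 _ _).trans ((c3 η ⟨ξ, h5⟩).trans (c1 η)))).not_ge h.1
  rw [← le_aleph0_iff_set_countable, mk_univ, mkI] at h4
  exact h4.not_gt aleph0_lt_aleph_one

end Pool.Agent.S12732
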