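import Pool.Statements.S12734
import Pool.Agent.H.MP_0b6b0e_gt.C

set_option autoImplicit false
open scoped Pointwise
open Pool Pool.MP_0b6b0e_gt

namespace Pool.Agent.S12734

theorem result :
    ¬ (∀ n : ℕ, 2 ≤ n → ∀ i : ℕ, 1 ≤ i → i ≤ n - 1 →
      IsMeagre {K : {K : ConvexBody (EuclideanSpace ℝ (Fin n)) //
                    (0 : EuclideanSpace ℝ (Fin n)) ∈
                      interior (K : Set (EuclideanSpace ℝ (Fin n)))} |
        ∃ L : ConvexBody (EuclideanSpace ℝ (Fin n)),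
          (0 : EuclideanSpace ℝ (Fin n)) ∈
              interior (L : Set (EuclideanSpace ℝ (Fin n))) ∧
          (L : Set (EuclideanSpace ℝ (Fin n))) ≠
              (K.1 : Set (EuclideanSpace ℝ (Fin n))) ∧
          (L : Set (EuclideanSpace ℝ (Fin n))) ≠
              -(K.1 : Set (EuclideanSpace ℝ (Fin n))) ∧
          ∀ S : Submodule ℝ (EuclideanSpace ℝ (Fin n)), Module.finrank ℝ S = i →
            MeasureTheory.Measure.hausdorffMeasure (i : ℝ)
                ((L : Set (EuclideanSpace ℝ (Fin n))) ∩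
                  (S : Set (EuclideanSpace ℝ (Fin n)))) =
            MeasureTheory.Measure.hausdorffMeasure (i : ℝ)
                ((K.1 : Set (EuclideanSpace ℝ (Fin n))) ∩
                  (S : Set (EuclideanSpace ℝ (Fin n))))}) := by
  intro h
  have := H.MP_0b6b0e_gt.baire
  have h0 : (0 : H.MP_0b6b0e_gt.E) ∈ interior (H.MP_0b6b0e_gt.K0 : Set H.MP_0b6b0e_gt.E) :=
    mem_interior_iff_mem_nhds.2 (Filter.mem_of_superset
      (Metric.closedBall_mem_nhds 0 (by norm_num)) H.MP_0b6b0e_gt.K0_ball)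
  obtain ⟨K, h1, h2⟩ := (dense_of_mem_residual (h 2 le_rfl 1 le_rfl le_rfl)).inter_open_nonempty _
    Metric.isOpen_ball (Metric.nonempty_ball.2 (by norm_num : (0 : ℝ) < 1 / 10 ^ 7) :
      (Metric.ball ⟨H.MP_0b6b0e_gt.K0, h0⟩ _).Nonempty)
  obtain ⟨L, a, b, c, d⟩ := H.MP_0b6b0e_gt.main (K := K.1) h1
  exact h2 ⟨L, a, b, c, fun S hS => d S hS _⟩

end Pool.Agent.S12734
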