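import Pool.Statements.S12748
-- import your own Pool.Agent.* helpers here

set_option autoImplicit false
open Function
open Pool Pool.MP_0eaf94_gt

namespace Pool.Agent.S12748

open Set Topology

def S : Set (ℝ × ℝ) := {p | (-1 ≤ p.1 ∧ p.1 ≤ 2) ∧ (-1 ≤ p.2 ∧ p.2 ≤ 1) ∧
  (0 ≤ p.1 ∨ |p.2| = 1) ∧ (p.1 ≤ 1 ∨ p.2 = 1)}

instance : CompactSpace S := isCompact_iff_compactSpace.1 <|
  (isCompact_Icc (a := ((-1 : ℝ), (-1 : ℝ))) (b := (2, 1))).of_isClosed_subset (by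
    simp only [S, ofPred_and, ofPred_or]
    repeat' first | apply IsClosed.inter | apply IsClosed.union
    all_goals first | exact isClosed_le (by fun_prop) (by fun_prop) |
      exact isClosed_eq (by fun_prop) (by fun_prop))
    fun p h => ⟨⟨h.1.1, h.2.1.1⟩, h.1.2, h.2.1.2⟩

def f (p : S) : Icc (-1 : ℝ) 2 := ⟨p.1.1, p.2.1⟩

def γ (y : Icc (-1 : ℝ) 2) : S := ⟨(y.1, 1), y.2, by norm_num, by simp, by simp⟩

lemma fib {Z : Type} [TopologicalSpace Z] {e : Z → ℝ × ℝ} (he : IsInducing e) {A : Set Z} {y : ℝ}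
    (h1 : A.Nonempty) (h2 : ∀ z ∈ A, (e z).1 = y)
    (h3 : ∀ a ∈ A, ∀ b ∈ A, ∀ c ∈ Icc (e a).2 (e b).2, ∃ z ∈ A, (e z).2 = c) : IsConnected A := by
  refine ⟨h1, he.isPreconnected_image.1 ?_⟩
  have : e '' A = {y} ×ˢ ((fun z => (e z).2) '' A) := Subset.antisymm
    (by rintro _ ⟨z, hz, rfl⟩; exact ⟨h2 z hz, z, hz, rfl⟩)
    fun p ⟨a, z, hz, b⟩ => ⟨z, hz, Prod.ext ((h2 z hz).trans a.symm) b⟩
  rw [this]
  exact isPreconnected_singleton.prod (OrdConnected.isPreconnected ⟨by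
    rintro _ ⟨a, ha, rfl⟩ _ ⟨b, hb, rfl⟩ c hc; exact h3 a ha b hb c hc⟩)

theorem result :
    ¬ (∀ (X Y : Type) [MetricSpace X] [CompactSpace X] [MetricSpace Y] [CompactSpace Y]
      (f : X → Y), Continuous f → Surjective f →
      ∀ G₁ G₂ : Set Y, IsOpen G₁ → IsOpen G₂ → G₁ ∪ G₂ = Set.univ →
      (∃ (Z : Type) (_ : MetricSpace Z) (_ : CompactSpace Z)
          (h : ↥(f ⁻¹' closure G₁) → Z) (g : Z → ↥(closure G₁)),
          Continuous h ∧ IsOpenMap h ∧ Surjective h ∧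
          Continuous g ∧ Surjective g ∧ (∀ y, IsConnected (g ⁻¹' {y})) ∧
          ∀ x : ↥(f ⁻¹' closure G₁), ((g (h x) : ↥(closure G₁)) : Y) = f x) →
      (∃ (Z : Type) (_ : MetricSpace Z) (_ : CompactSpace Z)
          (h : ↥(f ⁻¹' closure G₂) → Z) (g : Z → ↥(closure G₂)),
          Continuous h ∧ IsOpenMap h ∧ Surjective h ∧
          Continuous g ∧ Surjective g ∧ (∀ y, IsConnected (g ⁻¹' {y})) ∧
          ∀ x : ↥(f ⁻¹' closure G₂), ((g (h x) : ↥(closure G₂)) : Y) = f x) →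
      ∃ (Z : Type) (_ : MetricSpace Z) (_ : CompactSpace Z)
          (h : X → Z) (g : Z → Y),
          Continuous h ∧ IsOpenMap h ∧ Surjective h ∧
          Continuous g ∧ Surjective g ∧ (∀ y, IsConnected (g ⁻¹' {y})) ∧
          ∀ x : X, g (h x) = f x) := by
  intro H
  have fc : Continuous f := by unfold f; fun_prop
  have γc : Continuous γ := by unfold γ; fun_prop
  have c1 : ∀ y ∈ closure {y : Icc (-1 : ℝ) 2 | y.1 < 1}, y.1 ≤ 1 := fun y hy =>
    closure_minimal (fun z hz => le_of_lt hz) (isClosed_le continuous_subtype_val continuous_const) hy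
  have c2 : ∀ y ∈ closure {y : Icc (-1 : ℝ) 2 | 0 < y.1}, 0 ≤ y.1 := fun y hy =>
    closure_minimal (fun z hz => le_of_lt hz) (isClosed_le continuous_const continuous_subtype_val) hy
  have cp : ∀ G, CompactSpace (f ⁻¹' closure G) := fun G =>
    isCompact_iff_compactSpace.1 (isClosed_closure.preimage fc).isCompact
  obtain ⟨Z, _, _, h, g, h1, h2, h3, -, -, g3, e⟩ := H S (Icc (-1 : ℝ) 2) f fc (fun y => ⟨γ y, rfl⟩)
    {y | y.1 < 1} {y | 0 < y.1} (isOpen_lt (by fun_prop) (by fun_prop))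
    (isOpen_lt (by fun_prop) (by fun_prop))
    (eq_univ_of_forall fun y => (lt_or_ge y.1 1).imp_right fun h => one_pos.trans_le h) (by
      let W := f ⁻¹' closure {y : Icc (-1 : ℝ) 2 | y.1 < 1}
      let σ : W → W := fun w => ⟨⟨(w.1.1.1, -w.1.1.2), w.1.2.1,
        ⟨by linarith [w.1.2.2.1.2], by linarith [w.1.2.2.1.1]⟩, by simpa using w.1.2.2.2.1,
        .inl (c1 _ w.2)⟩, w.2⟩
      let r : W → {w : W // 0 ≤ w.1.1.2} := fun w => ⟨⟨⟨(w.1.1.1, |w.1.1.2|), w.1.2.1,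
        ⟨by linarith [abs_nonneg w.1.1.2], abs_le.2 w.1.2.2.1⟩, by simpa using w.1.2.2.2.1,
        .inl (c1 _ w.2)⟩, w.2⟩, abs_nonneg _⟩
      have := cp {y | y.1 < 1}
      have x : ∀ {a b : W}, a.1.1.1 = b.1.1.1 → a.1.1.2 = b.1.1.2 → a = b := fun a b =>
        Subtype.ext (Subtype.ext (Prod.ext a b))
      have r1 : ∀ z : {w : W // 0 ≤ w.1.1.2}, r z.1 = z := fun z =>
        Subtype.ext (x rfl (abs_of_nonneg z.2))
      refine ⟨{w : W // 0 ≤ w.1.1.2}, inferInstance, isCompact_iff_compactSpace.1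
        (isClosed_le (f := fun _ : W => (0 : ℝ)) (by fun_prop) (by fun_prop)).isCompact, r,
        fun z => ⟨f z.1.1, z.1.2⟩, by fun_prop, fun U hU => ?_, fun z => ⟨z.1, r1 z⟩, by fun_prop,
        fun y => ⟨⟨⟨γ y.1, y.2⟩, zero_le_one⟩, rfl⟩, fun y => fib (y := y.1.1)
          (IsInducing.subtypeVal.comp (IsInducing.subtypeVal.comp IsInducing.subtypeVal))
          ⟨⟨⟨γ y.1, y.2⟩, (zero_le_one : (0 : ℝ) ≤ 1)⟩, rfl⟩ (fun z hz => congrArg (·.1.1) hz) ?_, fun _ => rfl⟩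
      · suffices r '' U = Subtype.val ⁻¹' (U ∪ σ ⁻¹' U) from this ▸
          (hU.union (hU.preimage (f := σ) (by fun_prop))).preimage continuous_subtype_val
        refine Subset.antisymm ?_ fun z hz => Or.elim hz (fun h => ⟨_, h, r1 z⟩) fun h =>
          ⟨_, h, Subtype.ext (x rfl ((abs_neg _).trans (abs_of_nonneg z.2)))⟩
        rintro _ ⟨u, hu, rfl⟩
        exact (le_total 0 u.1.1.2).imp (fun h => mem_of_eq_of_mem (x (b := u) rfl (abs_of_nonneg h)) hu)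
          fun h => mem_of_eq_of_mem (s := U) (x (a := σ (r u).1) (b := u) rfl
            (neg_eq_iff_eq_neg.2 (abs_of_nonpos h))) hu
      · rintro a rfl b - c ⟨k1, k2⟩
        have k3 : c ≤ 1 := k2.trans b.1.1.2.2.1.2
        have k4 : 0 ≤ c := le_trans a.2 k1
        refine ⟨⟨⟨⟨(a.1.1.1.1, c), a.1.1.2.1, ⟨by linarith, k3⟩, a.1.1.2.2.2.1.imp_right
          fun h => ?_, .inl (c1 _ a.1.2)⟩, a.1.2⟩, k4⟩, rfl, rfl⟩
        rw [abs_of_nonneg a.2] at h
        exact (abs_of_nonneg k4).trans (k3.antisymm (h.ge.trans k1)))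
    ⟨_, inferInstance, cp _, id, fun z => ⟨f z.1, z.2⟩, continuous_id, IsOpenMap.id, surjective_id,
      by fun_prop, fun y => ⟨⟨γ y.1, y.2⟩, rfl⟩, fun y => fib (y := y.1.1)
        (IsInducing.subtypeVal.comp IsInducing.subtypeVal) ⟨⟨γ y.1, y.2⟩, rfl⟩
        (fun z hz => congrArg (·.1.1) hz) (by
          rintro a rfl b - c ⟨k1, k2⟩
          have k3 : c ≤ 1 := k2.trans b.1.2.2.1.2
          exact ⟨⟨⟨(a.1.1.1, c), a.1.2.1, ⟨a.1.2.2.1.1.trans k1, k3⟩, .inl (c2 _ a.2),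
            a.1.2.2.2.2.imp_right fun h => k3.antisymm (h.ge.trans k1)⟩, a.2⟩, rfl, rfl⟩),
      fun _ => rfl⟩
  have lv : ∀ {a b}, h a = h b → a.1.1 = b.1.1 := fun {a b} k =>
    congrArg Subtype.val (show f a = f b by rw [← e, k, e])
  have x : ∀ {a b : S}, a.1.1 = b.1.1 → a.1.2 = b.1.2 → a = b := fun a b =>
    Subtype.ext (Prod.ext a b)
  let δ : S → S := fun p => ⟨(min p.1.1 1, -1), ⟨le_min p.2.1.1 (by norm_num),
    (min_le_right _ _).trans (by norm_num)⟩, by norm_num, by simp, by simp⟩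
  let E : Set S := {p | p.1.2 < 1 ∧ h p = h (γ (f p))}
  have e1 : closure E ⊆ {p | p.1.1 ≤ 1 ∧ h p = h (γ (f p))} := closure_minimal
    (fun p hp => ⟨p.2.2.2.2.resolve_right hp.1.ne, hp.2⟩) ((isClosed_le (by fun_prop)
      (by fun_prop)).and (isClosed_eq h1 (by fun_prop)))
  have e2 : closure E ⊆ Prod.fst '' {q : S × S | q.1.1.2 ≤ q.2.1.2 ∧ h q.2 = h (δ q.1)} := by
    refine closure_minimal (fun p hp => ?_) (IsCompact.image (IsClosed.isCompact (IsClosed.and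
      (isClosed_le (by fun_prop) (by fun_prop)) (isClosed_eq (by fun_prop) (by fun_prop))))
      continuous_fst).isClosed
    have p1 := (e1 (subset_closure hp)).1
    rcases p.2.2.2.1 with p0 | p0
    · let k : Icc (-1 : ℝ) 1 → S := fun s => ⟨(p.1.1, s.1), p.2.1, s.2, .inl p0, .inl p1⟩
      have := Subtype.preconnectedSpace (isPreconnected_Icc (a := (-1 : ℝ)) (b := 1))
      have t : h '' {q | p.1.2 ≤ q.1.2 ∧ q.1.1 = p.1.1} ⊆ h '' {q | p.1.2 < q.1.2} := by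
        rintro _ ⟨q, ⟨q1, q2⟩, rfl⟩
        exact q1.lt_or_eq.elim (fun h => ⟨q, h, rfl⟩) fun h =>
          ⟨γ (f p), hp.1, hp.2.symm.trans (congrArg _ (x q2.symm h))⟩
      obtain ⟨q, q1, q2⟩ := (IsClopen.eq_univ (s := (h ∘ k) ⁻¹' (h '' {q | p.1.2 < q.1.2}))
        ⟨by
          suffices (h ∘ k) ⁻¹' (h '' {q | p.1.2 < q.1.2}) = (h ∘ k) ⁻¹' (h '' {q | p.1.2 ≤ q.1.2})
            from this ▸ ((isClosed_le (f := fun _ : S => p.1.2) (g := fun q => q.1.2) (by fun_prop)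
              (by fun_prop)).isCompact.image h1).isClosed.preimage (f := h ∘ k) (by fun_prop)
          exact Subset.antisymm (fun s ⟨q, a, b⟩ => ⟨q, le_of_lt (a := p.1.2) a, b⟩)
            fun s ⟨q, a, b⟩ => t ⟨q, ⟨a, lv (b := k s) b⟩, b⟩,
        (h2 _ (isOpen_lt (by fun_prop) (by fun_prop))).preimage (by fun_prop)⟩
        ⟨⟨1, by norm_num⟩, _, hp.1, rfl⟩).ge (mem_univ ⟨-1, by norm_num⟩)
      exact ⟨(p, q), ⟨le_of_lt q1, q2.trans (congrArg h (x (min_eq_left p1).symm rfl))⟩, rfl⟩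
    · exact ⟨(p, δ p), ⟨(((abs_eq zero_le_one).1 p0).resolve_left hp.1.ne).le, rfl⟩, rfl⟩
  have e3 : f '' E = (h ∘ γ) ⁻¹' (h '' {p | p.1.2 < 1}) := Subset.antisymm
    (by rintro _ ⟨p, hp, rfl⟩; exact ⟨p, hp⟩)
    fun y ⟨p, a, b⟩ => ⟨p, ⟨a, b.trans (congrArg h (x (lv b).symm rfl))⟩, Subtype.ext (lv b)⟩
  have := Subtype.preconnectedSpace (isPreconnected_Icc (a := (-1 : ℝ)) (b := 2))
  obtain ⟨p, p1, p2⟩ := (IsClopen.eq_univ (s := f '' E) ⟨closure_subset_iff_isClosed.1 (by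
      rw [fc.isClosedMap.closure_image_eq_of_continuous fc]
      rintro _ ⟨p, hp, rfl⟩
      refine p.2.2.1.2.lt_or_eq.elim (fun h => ⟨p, ⟨h, (e1 hp).2⟩, rfl⟩) fun k => ?_
      obtain ⟨⟨_, q⟩, ⟨q1, q2⟩, rfl⟩ := e2 hp
      exact e3.ge ⟨δ _, by norm_num [δ], q2.symm.trans (congrArg _ (x ((lv q2).trans
        (min_eq_left (e1 hp).1)) (q.2.2.1.2.antisymm (k.ge.trans q1))))⟩),
      e3 ▸ (h2 _ (isOpen_lt (by fun_prop) (by fun_prop))).preimage (by fun_prop)⟩ (by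
      let y : Icc (-1 : ℝ) 2 := ⟨-1, by norm_num⟩
      refine ⟨y, e3.ge ⟨δ (γ y), by norm_num [δ], by_contra fun k =>
        (g3 y).2.infinite_of_nontrivial ⟨_, (e _).trans (Subtype.ext (by norm_num [δ, f, γ, y])),
          _, e (γ y), k⟩ ((toFinite {h (δ (γ y)), h (γ y)}).subset fun z hz => ?_)⟩⟩
      obtain ⟨p, rfl⟩ := h3 z
      have k1 : p.1.1 = -1 := congrArg Subtype.val ((e p).symm.trans hz)
      exact ((abs_eq zero_le_one).1 (p.2.2.2.1.resolve_left (by rw [k1]; norm_num))).symm.imp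
        (fun k => congrArg h (x (k1.trans (by norm_num [δ, γ, y])) k))
        fun k => congrArg h (x k1 k))).ge (mem_univ ⟨2, by norm_num⟩)
  have := (e1 (subset_closure p1)).1
  linarith [show p.1.1 = 2 from congrArg Subtype.val p2, show p.1.1 ≤ 1 from this]

end Pool.Agent.S12748
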