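import Pool.Statements.S12767
import Pool.Agent.H.MP_11262c.A

set_option autoImplicit false
open Pool Pool.MP_11262c_gt

namespace Pool.Agent.S12767

open Set Filter Topology Pool.Agent.H.MP_11262c Pool.Agent.H.MP_e9bccb

theorem result :
    ∀ (X : Type) [TopologicalSpace X],
      (∃ (K : Type) (_ : TopologicalSpace K), CompactSpace K ∧ T2Space K ∧
        ∃ f : X → (K → ℝ), Topology.IsEmbedding f ∧ ∀ x, Continuous (f x)) →
      LindelofSpace X →
      (∀ S : Set X, S.Nonempty → ∃ x ∈ S, ∃ U : Set X, IsOpen U ∧ U ∩ S = {x}) →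
      ∃ D : ℕ → Set X, (⋃ n, D n) = Set.univ ∧ ∀ n, DiscreteTopology (D n) := by
  rintro X _ ⟨K, _, _, _, f, f1, f2⟩ _ hs
  obtain ⟨_, _, hw⟩ := wo hs
  have := f1.regularSpace
  have hc : Continuous fun k x => f x k := continuous_pi f2
  obtain ⟨F, H, m, F1, hm⟩ := str hw hc fun k => (continuous_apply k).comp f1.continuous
  obtain ⟨E, E1, hE⟩ := clo hw hc f1.isInducing
  have mc : ∀ T, Cl F T → Continuous (m T) := fun T e => f1.continuous_iff.2 (continuous_pi fun k => by
    obtain ⟨q, hq⟩ := (hm T e).2.2 k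
    exact ((continuous_apply q).comp f1.continuous).congr hq)
  obtain ⟨c, k⟩ := ind2 (F := fun l => F l ∪ E l) (fun l => (F1 l).union (E1 l)) (fun T => ∃ c : X → ℕ,
    ∀ x ∈ T, ∀ᶠ y in 𝓝 x, y ∈ T → c y = c x → y = x) (fun T e => (countable_iff_exists_injOn.1 e).imp
      fun c k x a => .of_forall fun y b => k b a) (fun W _ _ _ T t1 t2 P => by
        choose c hc using P
        have t3 := fun a => hm (T a) fun l e => subset_union_left.trans (t2 a l e)
        have j := fun y => fin t1 fun a => (t3 a).1 y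
        choose! σ s1 s2 using fun y (e : y ∈ ⋃ a, T a) => wellFounded_lt.has_min {a | y ∈ T a}
          (mem_iUnion.1 e)
        have s3 : ∀ y ∈ ⋃ a, T a, IsGreatest {a | m (T a) y ∉ ⋃ b ∈ Iio a, T b} (σ y) := fun y e =>
          ⟨fun k => (mem_iUnion₂.1 k).elim fun b k => k.elim fun b1 b2 =>
            s2 y e b ((t3 _).2.1 y (s1 y e) ▸ b2) b1, fun a k => not_lt.1 fun l => k (mem_biUnion l
              (((t3 a).2.1 y (t1 l.le (s1 y e))).symm ▸ s1 y e))⟩
        refine ⟨fun y => Nat.pair (j y).toFinset.card (c (σ y) y), fun x e => ?_⟩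
        filter_upwards [hc _ x (s1 x e), ((j x).eventually_all (p := fun a y =>
          m (T a) y ∉ ⋃ b ∈ Iio a, T b)).2 fun a k => (mc _ fun l e => subset_union_left.trans
            (t2 a l e)).continuousAt (IsClosed.compl_mem_nhds (s := ⋃ b ∈ Iio a, T b)
              ((Iio a).eq_empty_or_nonempty.elim (fun e => by simp [e]) fun e => hE _ fun l k =>
                subset_union_right.trans (ClU t1 t2 e l k)) k)] with y y1 y2 y3 y4
        obtain ⟨y4, y5⟩ := Nat.pair_eq_pair.1 y4
        have := (s3 y y3).unique ((Finite.toFinset_inj.1 (Finset.eq_of_subset_of_card_le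
          (Finite.toFinset_subset_toFinset.2 y2) y4.le)) ▸ s3 x e)
        exact y1 (this ▸ s1 y y3) (this ▸ y5)) univ fun _ _ => subset_univ _
  exact ⟨fun n => c ⁻¹' {n}, eq_univ_of_forall fun x => mem_iUnion.2 ⟨_, rfl⟩, fun n =>
    discreteTopology_subtype_iff.2 fun x e => inf_principal_eq_bot.2 (mem_nhdsWithin_iff_eventually.2
      ((k x trivial).mono fun y a b d => b (a trivial (d.trans e.symm))))⟩

end Pool.Agent.S12767
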