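import Pool.Statements.S12771

set_option autoImplicit false
open Pool Pool.MP_1144d4_gt

namespace Pool.Agent.S12771

open Set

abbrev I := Set.Icc (0:ℝ) 1
abbrev X := {f : C(I, I) // Function.Surjective ⇑f}

noncomputable def tent (u : ℝ) : ℝ := max 0 (min 1 (2 - |u|))

lemma tent_cont : Continuous tent := by unfold tent; fun_prop

lemma tent_one {u : ℝ} (h : |u| ≤ 1) : tent u = 1 := by
  unfold tent; rw [min_eq_left (by linarith), max_eq_right (by norm_num)]

lemma tent_zero {u : ℝ} (h : 2 ≤ |u|) : tent u = 0 := by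
  unfold tent; exact max_eq_left ((min_le_right _ _).trans (by linarith))

lemma tent_nonneg (u : ℝ) : 0 ≤ tent u := le_max_left _ _

lemma tent_le (u : ℝ) : tent u ≤ 1 := max_le (by norm_num) (min_le_left _ _)

lemma tent_zero' {v r : ℝ} (hr : 0 < r) (h : 2 * r ≤ |v|) : tent (v / r) = 0 := by
  apply tent_zero; rw [abs_div, abs_of_pos hr, le_div_iff₀ hr]; exact h

lemma tent_one' {v r : ℝ} (hr : 0 < r) (h : |v| ≤ r) : tent (v / r) = 1 := by
  apply tent_one; rw [abs_div, abs_of_pos hr, div_le_one hr]; exact h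

noncomputable def P (c : ℕ → ℝ) (M : ℕ) (q r y : ℝ) : ℝ :=
  ∑ m ∈ Finset.range M, tent ((y - m - q) / r) * c m

lemma P_zero {c : ℕ → ℝ} {M : ℕ} {q r y : ℝ} (hr : 0 < r)
    (h : ∀ m : ℕ, m < M → 2 * r ≤ |y - m - q|) : P c M q r y = 0 := by
  apply Finset.sum_eq_zero
  intro m hm
  rw [tent_zero' hr (h m (Finset.mem_range.1 hm)), zero_mul]

lemma nat_sep {m n : ℕ} (h : |(m:ℝ) - n| < 1) : m = n := by
  rw [abs_lt] at h
  have h1 : (m:ℝ) < n + 1 := by linarith
  have h2 : (n:ℝ) < m + 1 := by linarith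
  have h3 : m < n + 1 := by exact_mod_cast h1
  have h4 : n < m + 1 := by exact_mod_cast h2
  omega

lemma P_one {c : ℕ → ℝ} {M m : ℕ} {q r y : ℝ} (hr : 0 < r) (hr' : 4 * r ≤ 1) (hm : m < M)
    (h : |y - m - q| ≤ 2 * r) : P c M q r y = tent ((y - m - q) / r) * c m := by
  apply Finset.sum_eq_single_of_mem m (Finset.mem_range.2 hm)
  intro n _ hn
  rw [tent_zero' hr, zero_mul]
  by_contra hc
  push Not at hc
  apply hn
  apply nat_sep
  rw [abs_lt] at hc ⊢
  rw [abs_le] at h
  constructor <;> linarith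

noncomputable def p (j : ℕ) : ℝ := (1 / 2) ^ (j + 1)

lemma p_pos (j : ℕ) : 0 < p j := by unfold p; positivity

lemma p_le (j : ℕ) : p j ≤ 1 / 2 := by
  unfold p; rw [pow_succ]
  have : ((1:ℝ) / 2) ^ j ≤ 1 := pow_le_one₀ (by norm_num) (by norm_num)
  linarith

lemma p_lt {i j : ℕ} (h : i < j) : 2 * p j ≤ p i := by
  unfold p
  have : ((1:ℝ) / 2) ^ (j + 1) ≤ (1 / 2) ^ (i + 2) :=
    pow_le_pow_of_le_one (by norm_num) (by norm_num) (by omega)
  rw [pow_succ _ (i + 1)] at this
  linarith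

lemma slot {i j m n : ℕ} {r s y : ℝ} (hr : r ≤ p i / 8) (hs : s ≤ p j / 8) (hij : j ≠ i)
    (h : |y - m - 3 / 2 * p i| ≤ 2 * r) : 2 * s ≤ |y - n - 3 / 2 * p j| := by
  by_contra hc
  push Not at hc
  rw [abs_lt] at hc
  rw [abs_le] at h
  have := p_pos i; have := p_pos j; have := p_le i; have := p_le j
  have hmn : m = n := by
    apply nat_sep; rw [abs_lt]; constructor <;> linarith
  subst hmn
  rcases lt_or_gt_of_ne hij with h1 | h1
  · have := p_lt h1; linarith
  · have := p_lt h1; linarith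

lemma loc (g : C(I, I)) (e : ℝ) (h0 : 0 < e) (h1 : e ≤ 1 / 16) :
    ∃ (M : ℕ) (a ρ : ℝ), 1 ≤ M ∧ 0 < a ∧ 0 < ρ ∧ e * M ≤ 1 - e ∧ a * M ≤ e / 2 ∧ a * M ≤ ρ / 2 ∧
      (∀ x y : I, |(x:ℝ) - y| ≤ ρ → |(g x : ℝ) - g y| ≤ e / 16) ∧
      ∀ y : I, ∃ s : ℕ, s < M ∧ |(y:ℝ) - e * s| ≤ 3 * e := by
  obtain ⟨ρ, hρ, hu⟩ := Metric.uniformContinuous_iff.1
    (CompactSpace.uniformContinuous_of_continuous g.continuous) (e / 16) (by positivity)
  set N := ⌊1 / e⌋₊ with hN
  have hN1 : (N:ℝ) ≤ 1 / e := Nat.floor_le (by positivity)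
  have hN2 : 1 / e < N + 1 := Nat.lt_floor_add_one _
  rw [le_div_iff₀ h0] at hN1
  rw [div_lt_iff₀ h0] at hN2
  have hN3 : (2:ℝ) < N := by nlinarith
  have hN4 : 2 < N := by exact_mod_cast hN3
  obtain ⟨M, hM⟩ : ∃ M, N = M + 1 := ⟨N - 1, by omega⟩
  have hMR : (N:ℝ) = M + 1 := by exact_mod_cast hM
  have hM1 : 1 ≤ M := by omega
  have hMp : (0:ℝ) < M := by exact_mod_cast hM1
  refine ⟨M, min (e / 2) (ρ / 4) / M, ρ / 2, hM1, by positivity, by positivity, by nlinarith,
    ?_, ?_, ?_, ?_⟩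
  · rw [div_mul_cancel₀ _ hMp.ne']; exact min_le_left _ _
  · rw [div_mul_cancel₀ _ hMp.ne']; exact (min_le_right _ _).trans (by linarith)
  · intro x y hxy
    have : dist x y < ρ := by rw [Subtype.dist_eq, Real.dist_eq]; linarith
    have := hu this
    rw [Subtype.dist_eq, Real.dist_eq] at this
    exact this.le
  · intro y
    have hy0 := y.2.1; have hy1 := y.2.2
    set k := ⌊(y:ℝ) / e⌋₊ with hk
    have hk1 : (k:ℝ) ≤ y / e := Nat.floor_le (by positivity)
    have hk2 : (y:ℝ) / e < k + 1 := Nat.lt_floor_add_one _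
    rw [le_div_iff₀ h0] at hk1
    rw [div_lt_iff₀ h0] at hk2
    by_cases hkM : k < M
    · refine ⟨k, hkM, ?_⟩
      rw [abs_le]; constructor <;> nlinarith
    · obtain ⟨s, hs⟩ : ∃ s, M = s + 1 := ⟨M - 1, by omega⟩
      have hsR : (M:ℝ) = s + 1 := by exact_mod_cast hs
      have hk3 : (M:ℝ) ≤ k := by exact_mod_cast not_lt.1 hkM
      refine ⟨s, by omega, ?_⟩
      rw [abs_le]; constructor <;> nlinarith

theorem core (η : X → ℝ) (hη : Continuous η) (h0 : ∀ f, 0 < η f) (h1 : ∀ f, η f ≤ 1 / 16) :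
    ∃ F : X → I → ℝ, Continuous (fun z : X × I => F z.1 z.2) ∧
      (∀ f x, |F f x - f.1 x| ≤ 13 * η f) ∧
      (∀ f x, ∃ b, F f b = f.1 b + η f * (2 * f.1 b - 1) ∧ |(f.1 b : ℝ) - f.1 x| ≤ η f / 2) ∧
      ∀ f, ∃ (J U V : Set I) (δ : ℝ), 0 < δ ∧ IsOpen U ∧ IsOpen V ∧ U.Nonempty ∧ V.Nonempty ∧
        U ⊆ J ∧ Disjoint J V ∧
        ∀ x ∈ J, F f x ∈ I ∧ ∀ y : I, |(y:ℝ) - F f x| < δ → y ∈ J := by
  choose M0 a0 ρ0 hM0 ha0 hρ0 heM0 haM0 haρ0 hu0 hs0 using
    fun g : X => loc g.1 (η g) (h0 g) (h1 g)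
  set W : X → Set X := fun g => {f | dist f g < η g / 16 ∧ |η f - η g| < a0 g} with hW
  have hWo : ∀ g, IsOpen (W g) := fun g =>
    (isOpen_lt (f := fun f => dist f g) (by fun_prop) continuous_const).inter
      (isOpen_lt (f := fun f => |η f - η g|) (by fun_prop) continuous_const)
  have hWm : ∀ g, g ∈ W g := fun g => ⟨by simpa using h0 g, by simpa using ha0 g⟩
  obtain ⟨S, hSc, hSU⟩ := TopologicalSpace.countable_cover_nhds
    (f := W) (fun g => (hWo g).mem_nhds (hWm g))
  have hSn : S.Nonempty := by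
    have : (⟨ContinuousMap.id I, Function.surjective_id⟩ : X) ∈ ⋃ x ∈ S, W x := by
      rw [hSU]; trivial
    simp only [mem_iUnion] at this
    obtain ⟨g, hg, -⟩ := this
    exact ⟨g, hg⟩
  obtain ⟨G, rfl⟩ := hSc.exists_eq_range hSn
  obtain ⟨L, hL⟩ := BumpCovering.exists_isSubordinate isClosed_univ (fun j => W (G j))
    (fun j => hWo _) (by rw [← hSU]; simp)
  have hLW : ∀ j f, L j f ≠ 0 → f ∈ W (G j) := fun j f h => hL j (subset_tsupport _ h)
  set e : ℕ → ℝ := fun j => η (G j) with he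
  set M : ℕ → ℕ := fun j => M0 (G j) with hM
  set q : ℕ → ℝ := fun j => 3 / 2 * p j with hq
  set r : ℕ → ℝ := fun j => min (ρ0 (G j) / 4) (p j / 8) with hr
  have hr0 : ∀ j, 0 < r j := fun j => lt_min (by linarith [hρ0 (G j)]) (by linarith [p_pos j])
  have hr1 : ∀ j, r j ≤ p j / 8 := fun j => min_le_right _ _
  have hr2 : ∀ j, r j ≤ ρ0 (G j) / 4 := fun j => min_le_left _ _
  choose σ hσM hσ using fun j (m : ℕ) =>
    hs0 (G j) ((G j).1 (projIcc 0 1 zero_le_one (e j * (m + q j))))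
  set A : X → I → ℝ := fun f x => f.1 x + η f * (2 * f.1 x - 1) with hA
  set T : ℕ → X × I → ℝ := fun j z => L j z.1 *
    P (fun m => η z.1 * (σ j m + q j) - A z.1 z.2) (M j) (q j) (r j) (z.2 / η z.1) with hT
  have hev : Continuous fun z : X × I => (z.1.1 z.2 : ℝ) := by fun_prop
  have hAc : Continuous fun z : X × I => A z.1 z.2 := by
    simp only [hA]; fun_prop
  have hTc : ∀ j, Continuous (T j) := by
    intro j
    simp only [hT, P]
    refine Continuous.mul (by fun_prop) (continuous_finsetSum _ fun m _ => ?_)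
    refine Continuous.mul (tent_cont.comp ?_) (by fun_prop)
    refine Continuous.div_const (Continuous.sub (Continuous.sub ?_ continuous_const)
      continuous_const) _
    exact Continuous.div (by fun_prop) (by fun_prop) (fun z => (h0 _).ne')
  have hTl : LocallyFinite fun j => Function.support (T j) := by
    refine (L.locallyFinite.preimage_continuous continuous_fst).subset fun j z hz => ?_
    exact left_ne_zero_of_mul hz
  set F : X → I → ℝ := fun f x => A f x + ∑ᶠ j, T j (f, x) with hF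
  have K0 : ∀ f (x : I), (∀ j m, m < M j → 2 * r j ≤ |(x:ℝ) / η f - m - q j|) → F f x = A f x := by
    intro f x h
    have : ∀ j, T j (f, x) = 0 := fun j => by
      simp only [hT]; rw [P_zero (hr0 j) (h j), mul_zero]
    simp only [hF, this, finsum_zero, add_zero]
  have K1 : ∀ f (x : I) j m, m < M j → |(x:ℝ) / η f - m - q j| ≤ 2 * r j →
      F f x = A f x + L j f * (tent (((x:ℝ) / η f - m - q j) / r j) *
        (η f * (σ j m + q j) - A f x)) := by
    intro f x j m hm h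
    simp only [hF]
    rw [finsum_eq_single _ j]
    · simp only [hT]
      rw [P_one (hr0 j) (by linarith [hr1 j, p_le j]) hm h]
    · intro i hi
      simp only [hT]
      rw [P_zero (hr0 i) (fun n _ => slot (hr1 j) (hr1 i) hi h), mul_zero]
  have hA1 : ∀ f x, |A f x - f.1 x| ≤ η f := by
    intro f x
    have := (f.1 x).2.1; have := (f.1 x).2.2; have := h0 f
    simp only [hA]; rw [abs_le]; constructor <;> nlinarith
  have hd : ∀ j f x, f ∈ W (G j) → |(f.1 x : ℝ) - (G j).1 x| ≤ e j / 16 := by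
    intro j f x hf
    have h2 : dist (f.1 x) ((G j).1 x) ≤ dist f.1 (G j).1 := ContinuousMap.dist_apply_le_dist x
    have h3 : dist f.1 (G j).1 < e j / 16 := hf.1
    rw [Subtype.dist_eq, Real.dist_eq] at h2
    linarith
  have hW2 : ∀ j f, f ∈ W (G j) → ∀ v : ℝ, 0 ≤ v → v ≤ M j →
      |η f * v - e j * v| ≤ a0 (G j) * M j := by
    intro j f hf v hv0 hv1
    rw [← sub_mul, abs_mul, abs_of_nonneg hv0]
    exact mul_le_mul hf.2.le hv1 hv0 (ha0 _).le
  have hW3 : ∀ j f, f ∈ W (G j) → e j ≤ 2 * η f ∧ η f * M j ≤ 1 := by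
    intro j f hf
    have h2 : (1:ℝ) ≤ M j := by exact_mod_cast hM0 (G j)
    have h3 := hW2 j f hf 1 zero_le_one h2
    have h4 := hW2 j f hf (M j) (by linarith) le_rfl
    have h5 : a0 (G j) * M j ≤ e j / 2 := haM0 (G j)
    have h6 : e j * M j ≤ 1 - e j := heM0 (G j)
    have h7 : 0 < e j := h0 _
    rw [abs_le] at h3 h4
    constructor <;> linarith
  have hlt : ∀ {m n : ℕ}, m < n → (m:ℝ) + 1 ≤ n := fun h => by exact_mod_cast h
  have hq0 : ∀ j, q j = 3 / 2 * p j := fun j => rfl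
  refine ⟨F, hAc.add (continuous_finsum hTc hTl), ?_, ?_, ?_⟩
  · intro f x
    have ht := h0 f
    by_cases h : ∀ j m, m < M j → 2 * r j ≤ |(x:ℝ) / η f - m - q j|
    · rw [K0 f x h]; linarith [hA1 f x]
    push Not at h
    obtain ⟨j, m, hm, h⟩ := h
    rw [K1 f x j m hm h.le]
    by_cases hl : L j f = 0
    · rw [hl, zero_mul, add_zero]; linarith [hA1 f x]
    have hf := hLW j f hl
    have hp := p_pos j; have hp' := p_le j; have hqj := hq0 j
    have hm1 := hlt hm
    have hs1 : (σ j m : ℝ) + 1 ≤ M j := hlt (hσM j m)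
    have hm0 : (0:ℝ) ≤ m := Nat.cast_nonneg m
    have hs0' : (0:ℝ) ≤ σ j m := Nat.cast_nonneg _
    have b1 := hW2 j f hf (σ j m + q j) (by linarith) (by linarith)
    have b2 := hW2 j f hf (m + q j) (by linarith) (by linarith)
    have b3 := hσ j m
    have b4 := hd j f x hf
    obtain ⟨b5, -⟩ := hW3 j f hf
    have h5 : a0 (G j) * M j ≤ e j / 2 := haM0 (G j)
    have h5' : a0 (G j) * M j ≤ ρ0 (G j) / 2 := haρ0 (G j)
    have h7 : 0 < e j := h0 _
    have b6 : |(x:ℝ) - η f * (m + q j)| ≤ ρ0 (G j) / 2 := by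
      have : (x:ℝ) - η f * (m + q j) = η f * (x / η f - m - q j) := by field_simp; ring
      rw [this, abs_mul, abs_of_pos ht]
      have := h1 f; have := hr2 j; have := abs_nonneg ((x:ℝ) / η f - m - q j)
      nlinarith
    have b7 : |(x:ℝ) - (projIcc (0:ℝ) 1 zero_le_one (e j * (m + q j)) : I)| ≤ ρ0 (G j) := by
      have h8 := abs_projIcc_sub_projIcc (zero_le_one' ℝ) (c := (x:ℝ)) (d := e j * (m + q j))
      rw [projIcc_val] at h8
      refine h8.trans ?_
      rw [abs_le] at b2 b6 ⊢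
      constructor <;> linarith
    have b8 := hu0 (G j) _ _ b7
    have b9 := hA1 f x
    have b10 : |η f * (σ j m + q j) - A f x| ≤ 12 * η f := by
      have : e j * q j ≤ e j := by nlinarith
      have : 0 ≤ e j * q j := by nlinarith
      have h9 : η (G j) = e j := rfl
      rw [h9] at b3 b8
      rw [abs_le] at b1 b3 b4 b8 b9 ⊢
      constructor <;> nlinarith
    have b11 : |L j f * (tent (((x:ℝ) / η f - m - q j) / r j) *
        (η f * (σ j m + q j) - A f x))| ≤ 12 * η f := by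
      rw [abs_mul, abs_mul, abs_of_nonneg (L.nonneg j f), abs_of_nonneg (tent_nonneg _)]
      refine (mul_le_of_le_one_left (mul_nonneg (tent_nonneg _) (abs_nonneg _))
        (L.le_one j f)).trans ?_
      exact (mul_le_of_le_one_left (abs_nonneg _) (tent_le _)).trans b10
    rw [abs_le] at b9 b11 ⊢
    constructor <;> linarith
  · intro f x
    have ht := h0 f
    by_cases h : ∀ j m, m < M j → 2 * r j ≤ |(x:ℝ) / η f - m - q j|
    · exact ⟨x, K0 f x h, by simp; linarith⟩
    push Not at h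
    obtain ⟨j, m, hm, h⟩ := h
    by_cases hl : L j f = 0
    · refine ⟨x, ?_, by simp; linarith⟩
      rw [K1 f x j m hm h.le, hl, zero_mul, add_zero]
    have hf := hLW j f hl
    have hp := p_pos j; have hp' := p_le j; have hqj := hq0 j
    have hm1 := hlt hm
    have hm0 : (0:ℝ) ≤ m := Nat.cast_nonneg m
    obtain ⟨b5, b6⟩ := hW3 j f hf
    have hr0j := hr0 j; have hr1j := hr1 j
    set b : I := ⟨η f * (m + q j - 2 * r j), by
      constructor
      · apply mul_nonneg ht.le; linarith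
      · refine le_trans (mul_le_mul_of_nonneg_left (by linarith) ht.le) b6⟩ with hb
    have hbv : (b:ℝ) / η f - m - q j = -(2 * r j) := by
      simp only [hb]; field_simp; ring
    refine ⟨b, ?_, ?_⟩
    · rw [K1 f b j m hm (by rw [hbv, abs_neg, abs_of_pos (by linarith)]), hbv,
        tent_zero' hr0j (by rw [abs_neg, abs_of_pos (by linarith)]), zero_mul, mul_zero, add_zero]
    · have c1 : |(b:ℝ) - x| ≤ ρ0 (G j) := by
        have : (b:ℝ) - x = η f * ((b / η f - m - q j) - (x / η f - m - q j)) := by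
          field_simp; ring
        rw [this, hbv, abs_mul, abs_of_pos ht]
        have h2 : |-(2 * r j) - ((x:ℝ) / η f - m - q j)| ≤ 4 * r j := by
          rw [abs_lt] at h; rw [abs_le]; constructor <;> linarith
        have := h1 f; have := hr2 j; have := abs_nonneg (-(2 * r j) - ((x:ℝ) / η f - m - q j))
        nlinarith
      have c2 := hu0 (G j) _ _ c1
      have c3 := hd j f x hf
      have c4 := hd j f b hf
      have h9 : η (G j) = e j := rfl
      rw [h9] at c2
      rw [abs_le] at c2 c3 c4 ⊢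
      constructor <;> linarith
  · intro f
    have ht := h0 f
    set j := L.ind f (mem_univ f) with hj
    have hl : L j f = 1 := L.ind_apply f (mem_univ f)
    have hf := hLW j f (by rw [hl]; norm_num)
    have hp := p_pos j; have hp' := p_le j; have hqj := hq0 j
    obtain ⟨b5, b6⟩ := hW3 j f hf
    have hr0j := hr0 j; have hr1j := hr1 j
    have hMj : 1 ≤ M j := hM0 (G j)
    refine ⟨{x | ∃ m : ℕ, m < M j ∧ |(x:ℝ) / η f - m - q j| ≤ r j},
      {x | |(x:ℝ) / η f - q j| < r j}, {x | (x:ℝ) / η f < q j - r j}, r j * η f,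
      by positivity, isOpen_lt (by fun_prop) continuous_const,
      isOpen_lt (by fun_prop) continuous_const, ?_, ?_, ?_, ?_, ?_⟩
    · refine ⟨⟨η f * q j, by nlinarith, by nlinarith [h1 f]⟩, ?_⟩
      simp only [mem_setOf_eq]
      rw [mul_div_cancel_left₀ _ ht.ne']; simpa using hr0j
    · refine ⟨⟨0, le_rfl, zero_le_one⟩, ?_⟩
      simp only [mem_setOf_eq, zero_div]; linarith
    · intro x hx
      exact ⟨0, hMj, by simpa using hx.le⟩
    · rw [Set.disjoint_left]
      rintro x ⟨m, -, hx⟩ hx'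
      have hm0 : (0:ℝ) ≤ m := Nat.cast_nonneg m
      simp only [mem_setOf_eq] at hx'
      rw [abs_le] at hx; linarith
    · rintro x ⟨m, hm, hx⟩
      have hs1 : (σ j m : ℝ) + 1 ≤ M j := hlt (hσM j m)
      have hs0' : (0:ℝ) ≤ σ j m := Nat.cast_nonneg _
      have hv : F f x = η f * (σ j m + q j) := by
        rw [K1 f x j m hm (by linarith), hl, tent_one' hr0j hx]; ring
      rw [hv]
      refine ⟨⟨by apply mul_nonneg ht.le; linarith,
        le_trans (mul_le_mul_of_nonneg_left (by linarith) ht.le) b6⟩, fun y hy => ⟨σ j m, hσM j m, ?_⟩⟩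
      have : (y:ℝ) / η f - σ j m - q j = (y - η f * (σ j m + q j)) / η f := by
        field_simp; ring
      rw [this, abs_div, abs_of_pos ht, div_le_iff₀ ht]
      exact hy.le

theorem result :
    ∀ ε : {f : C(Set.Icc (0:ℝ) 1, Set.Icc (0:ℝ) 1) // Function.Surjective ⇑f} → ℝ,
      Continuous ε → (∀ g, 0 < ε g) →
      ∃ φ : {f : C(Set.Icc (0:ℝ) 1, Set.Icc (0:ℝ) 1) // Function.Surjective ⇑f} →
          {f : C(Set.Icc (0:ℝ) 1, Set.Icc (0:ℝ) 1) // Function.Surjective ⇑f},
        Continuous φ ∧ ∀ g, dist (φ g) g < ε g ∧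
          φ g ∉ closure {h : {f : C(Set.Icc (0:ℝ) 1, Set.Icc (0:ℝ) 1) // Function.Surjective ⇑f} |
            ∀ U V : Set (Set.Icc (0:ℝ) 1), IsOpen U → IsOpen V → U.Nonempty → V.Nonempty →
              ∃ n : ℕ, 0 < n ∧ ((⇑h.1)^[n] '' U ∩ V).Nonempty} := by
  intro ε hε hε0
  obtain ⟨F, hFc, hF1, hF2, hF3⟩ := core (fun f => min (ε f) 1 / 16) (by fun_prop)
    (fun f => by have := lt_min (hε0 f) one_pos; positivity)
    (fun f => by have := min_le_right (ε f) 1; linarith)
  let Φ : C(X × I, I) := ⟨fun z => projIcc 0 1 zero_le_one (F z.1 z.2),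
    continuous_projIcc.comp hFc⟩
  have hsurj : ∀ f : X, Function.Surjective (Φ.curry f) := by
    intro f y
    have ht : 0 < min (ε f) 1 / 16 := by have := lt_min (hε0 f) one_pos; positivity
    have ht' : min (ε f) 1 / 16 ≤ 1 / 16 := by have := min_le_right (ε f) 1; linarith
    obtain ⟨x0, hx0⟩ := f.2 ⟨0, le_rfl, zero_le_one⟩
    obtain ⟨x1, hx1⟩ := f.2 ⟨1, zero_le_one, le_rfl⟩
    obtain ⟨b0, e0, d0⟩ := hF2 f x0
    obtain ⟨b1, e1, d1⟩ := hF2 f x1
    rw [hx0] at d0; rw [hx1] at d1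
    rw [abs_le] at d0 d1
    simp only at d0 d1
    have hc : Continuous fun x => F f x := hFc.comp (Continuous.prodMk_right f)
    have hy : (y:ℝ) ∈ Icc (F f b0) (F f b1) := by
      have := y.2.1; have := y.2.2
      constructor
      · rw [e0]; nlinarith
      · rw [e1]; nlinarith
    obtain ⟨x, hx⟩ := intermediate_value_univ b0 b1 hc hy
    refine ⟨x, ?_⟩
    change projIcc 0 1 zero_le_one (F f x) = y
    simp only at hx
    rw [hx, projIcc_val]
  refine ⟨fun f => ⟨Φ.curry f, hsurj f⟩, Φ.curry.continuous.subtype_mk _, fun f => ⟨?_, ?_⟩⟩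
  · have ht : 0 < min (ε f) 1 := lt_min (hε0 f) one_pos
    have h2 : dist (Φ.curry f) f.1 ≤ 13 * (min (ε f) 1 / 16) := by
      rw [ContinuousMap.dist_le (by positivity)]
      intro x
      have h8 := abs_projIcc_sub_projIcc (zero_le_one' ℝ) (c := F f x) (d := (f.1 x : ℝ))
      rw [projIcc_val] at h8
      exact h8.trans (hF1 f x)
    have := min_le_left (ε f) 1
    exact h2.trans_lt (by linarith)
  · intro hcl
    obtain ⟨J, U, V, δ, hδ, hU, hV, hUn, hVn, hUJ, hJV, hJ⟩ := hF3 f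
    obtain ⟨h, hh, hd⟩ := Metric.mem_closure_iff.1 hcl δ hδ
    obtain ⟨n, -, y, ⟨x, hx, rfl⟩, hy⟩ := hh U V hU hV hUn hVn
    have hmap : MapsTo h.1 J J := by
      intro z hz
      obtain ⟨h1, h2⟩ := hJ z hz
      apply h2
      have h3 : dist (Φ.curry f z) (h.1 z) ≤ dist (Φ.curry f) h.1 :=
        ContinuousMap.dist_apply_le_dist z
      have h4 : dist (Φ.curry f) h.1 < δ := hd
      have h5 : ((Φ.curry f z : I) : ℝ) = F f z := by
        change ((projIcc 0 1 zero_le_one (F f z) : I) : ℝ) = F f z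
        rw [projIcc_of_mem _ h1]
      rw [Subtype.dist_eq, Real.dist_eq, h5, abs_sub_comm] at h3
      linarith
    exact Set.disjoint_left.1 hJV (hmap.iterate n (hUJ hx)) hy

end Pool.Agent.S12771
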