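import Pool.Statements.S12783
import Pool.Agent.H.MP_133c96_gt.A

set_option autoImplicit false
open Pool Pool.MP_133c96_gt

namespace Pool.Agent.S12783

open Set Topology Pool.Agent.H.MP_133c96_gt

theorem result :
    ∀ (K : Type) [TopologicalSpace K] [CompactSpace K] [T2Space K]
      (X : Type) [tX : TopologicalSpace X] (e : X ≃ K),
      (∀ S : Set K, S.Nonempty → ∃ x ∈ S, ∃ U : Set K, IsOpen U ∧ U ∩ S = {x}) →
      tX = TopologicalSpace.generateFrom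
        {S : Set X | ∃ U : ℕ → Set K, (∀ n, IsOpen (U n)) ∧ S = e ⁻¹' (⋂ n, U n)} →
      ∀ F : (n : ℕ) → Set (Fin n → X), (∀ n, IsClosed (F n)) →
        ∃ f : X → X, Continuous f ∧
          (∃ N : Set (Set X), N.Countable ∧
            ∀ x ∈ Set.range f, ∀ U : Set X, IsOpen U → x ∈ U →
              ∃ A ∈ N, x ∈ A ∧ A ⊆ Set.range f ∩ U) ∧
          ∀ n : ℕ, ∀ x ∈ F n, (fun i => f (x i)) ∈ F n := by
  intro K _ _ _ X tX e hs ht F hF
  have := td hs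
  have hb := TopologicalSpace.isTopologicalBasis_of_subbasis_of_inter ht (by
    rintro _ ⟨U, hU, rfl⟩ _ ⟨V, hV, rfl⟩
    exact ⟨fun n => U n ∩ V n, fun n => (hU n).inter (hV n), by
      rw [iInter_inter_distrib, preimage_inter]⟩)
  have h1 : ∀ (O : Set X) (x : X), IsOpen O → x ∈ O → ∃ 𝒲 : Set (Set K), 𝒲.Countable ∧
      (∀ W ∈ 𝒲, IsClopen W ∧ e x ∈ W) ∧ ∀ z, (∀ W ∈ 𝒲, e z ∈ W) → z ∈ O := by
    intro O x hO hx
    obtain ⟨S, hS, h2, h3⟩ := hb.exists_subset_of_mem_open hx hO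
    rcases hS with rfl | ⟨U, hU, rfl⟩
    · exact ⟨∅, countable_empty, fun _ h => h.elim, fun z _ => h3 trivial⟩
    · choose W w1 w2 w3 using fun n => isTopologicalBasis_isClopen.exists_subset_of_mem_open
        (mem_iInter.1 h2 n) (hU n)
      refine ⟨range W, countable_range W, ?_, fun z hz => h3 (mem_iInter.2 fun n =>
        w3 n (hz _ ⟨n, rfl⟩))⟩
      rintro _ ⟨n, rfl⟩
      exact ⟨w1 n, w2 n⟩
  have h2 : ∀ n (v : Fin n → K), ∃ 𝒢 : Set (Set K), 𝒢.Countable ∧ (∀ W ∈ 𝒢, IsClopen W) ∧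
      ∀ x ∈ F n, (∀ i, ∀ W ∈ 𝒢, v i ∈ W → e (x i) ∈ W) → (fun i => e.symm (v i)) ∈ F n := by
    intro n v
    by_cases h : (fun i => e.symm (v i)) ∈ F n
    · exact ⟨∅, countable_empty, fun _ h => h.elim, fun _ _ _ => h⟩
    obtain ⟨u, u1, u2⟩ := isOpen_pi_iff'.1 (hF n).isOpen_compl _ h
    choose 𝒲 w1 w2 w3 using fun i => h1 (u i) _ (u1 i).1 (u1 i).2
    refine ⟨⋃ i, 𝒲 i, countable_iUnion w1, fun W hW => ?_, fun x hx h3 => absurd hx (u2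
      fun i _ => w3 i _ fun W hW => h3 i W (mem_iUnion.2 ⟨i, hW⟩) ?_)⟩
    · obtain ⟨i, hi⟩ := mem_iUnion.1 hW
      exact (w2 i W hi).1
    · simpa using (w2 i W hW).2
  choose 𝒢 g1 g2 g3 using h2
  obtain ⟨A, hA, h3⟩ := core hs 𝒢 g1 fun n v W hW => (g2 n v W hW).2
  have h4 : (⋃ n, ⋃ v ∈ univ.pi fun _ : Fin n => A, 𝒢 n v).Countable :=
    countable_iUnion fun n => (countable_univ_pi fun _ => hA).biUnion fun v _ => g1 n v
  have h5 : ∀ W ∈ ⋃ n, ⋃ v ∈ univ.pi fun _ : Fin n => A, 𝒢 n v, IsClopen W := fun W hW => by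
    obtain ⟨n, hn⟩ := mem_iUnion.1 hW
    obtain ⟨v, -, hv⟩ := mem_iUnion₂.1 hn
    exact g2 n v W hv
  have h6 : ∀ n (v : Fin n → K), (∀ i, v i ∈ A) →
      𝒢 n v ⊆ ⋃ n, ⋃ v ∈ univ.pi fun _ : Fin n => A, 𝒢 n v := fun n v hv W hW =>
    mem_iUnion.2 ⟨n, mem_biUnion (x := v) (fun i _ => hv i) hW⟩
  have h7 : ∀ x, ∃ y ∈ A, ∀ W ∈ ⋃ n, ⋃ v ∈ univ.pi fun _ : Fin n => A, 𝒢 n v,
      y ∈ W → x ∈ W := fun x => by
    obtain ⟨y, hy, h⟩ := h3 x
    refine ⟨y, hy, fun W hW => ?_⟩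
    obtain ⟨n, hn⟩ := mem_iUnion.1 hW
    obtain ⟨v, h8, hv⟩ := mem_iUnion₂.1 hn
    exact h n v (fun i => h8 i trivial) W hv
  generalize (⋃ n, ⋃ v ∈ univ.pi fun _ : Fin n => A, 𝒢 n v) = 𝒲 at h4 h5 h6 h7
  have h8 : ∀ T : range fun x : K => {W ∈ 𝒲 | x ∈ W}, ∃ y ∈ A, ∀ W ∈ 𝒲, y ∈ W → W ∈ T.1 := by
    rintro ⟨_, x, rfl⟩
    obtain ⟨y, hy, h⟩ := h7 x
    exact ⟨y, hy, fun W hW h' => ⟨hW, h W hW h'⟩⟩
  choose s s1 s2 using h8
  refine ⟨fun x => e.symm (s ⟨_, e x, rfl⟩), IsLocallyConstant.continuous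
    ((IsLocallyConstant.iff_exists_open _).2 fun x => ?_),
    ⟨(fun a => {e.symm a}) '' (A ∩ e '' range fun x => e.symm (s ⟨_, e x, rfl⟩)),
      (hA.mono inter_subset_left).image _, ?_⟩,
    fun n x hx => g3 n _ x hx fun i W hW h => (s2 _ W (h6 n _ (fun i => s1 _) hW) h).2⟩
  · obtain ⟨W, hW⟩ := (h4.insert univ).exists_eq_range (insert_nonempty _ _)
    classical
    refine ⟨e ⁻¹' ⋂ n, if e x ∈ W n then W n else (W n)ᶜ, hb.isOpen (Or.inr ⟨_, fun n => ?_, rfl⟩),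
      mem_iInter.2 fun n => by split_ifs <;> assumption, fun z hz => ?_⟩
    · have : IsClopen (W n) := by
        rcases (hW ▸ mem_range_self n : W n ∈ insert univ 𝒲) with h | h
        · rw [h]; exact isClopen_univ
        · exact h5 _ h
      split_ifs
      · exact this.2
      · exact this.compl.2
    · congr 3
      ext V
      refine and_congr_right fun hV => ?_
      obtain ⟨n, rfl⟩ : V ∈ range W := hW ▸ mem_insert_of_mem _ hV
      have := mem_iInter.1 hz n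
      split_ifs at this with h
      · exact iff_of_true this h
      · exact iff_of_false this h
  · rintro _ ⟨x, rfl⟩ U _ hU
    refine ⟨_, ⟨_, ⟨s1 ⟨_, e x, rfl⟩, _, ⟨x, rfl⟩, e.apply_symm_apply _⟩, rfl⟩, rfl, ?_⟩
    rintro _ rfl
    exact ⟨⟨x, rfl⟩, hU⟩

end Pool.Agent.S12783
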