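import Pool.Statements.S12796
import Pool.Agent.H.MP_14c6b5.L

set_option autoImplicit false
open Pool Pool.MP_14c6b5_gt

namespace Pool.Agent.S12796

theorem result :
    ¬ (∀ (L : Type) [LinearOrder L] [TopologicalSpace L] [OrderTopology L],
      (∀ x : L, ¬ IsOpen ({x} : Set L)) →
      ∀ B : Set (Set L), TopologicalSpace.IsTopologicalBasis B →
        ∃ B₀ : Set (Set L), B₀ ⊆ B ∧ TopologicalSpace.IsTopologicalBasis B₀ ∧
          TopologicalSpace.IsTopologicalBasis (B \ B₀)) := by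
  intro h
  obtain ⟨B₀, h1, h2, h3⟩ := h (Pool.Agent.H.MP_14c6b5.P Pool.Agent.H.MP_14c6b5.D1)
    (Pool.Agent.H.MP_14c6b5.crowded Pool.Agent.H.MP_14c6b5.D1_lt) _
    (Pool.Agent.H.MP_14c6b5.basis Pool.Agent.H.MP_14c6b5.D1_lt)
  exact Pool.Agent.H.MP_14c6b5.nores Pool.Agent.H.MP_14c6b5.D1_lt B₀ h1 h2 h3

end Pool.Agent.S12796
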