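import Pool.Statements.S12798
import Pool.Agent.H.MP_1501ba_gt.B

set_option autoImplicit false
open Pool Pool.MP_1501ba_gt

namespace Pool.Agent.S12798

open Set Topology Pool.Agent.H.MP_1501ba_gt

theorem result :
    ¬ (∀ (M : Type) [MetricSpace M] [CompactSpace M] [ConnectedSpace M]
      (f : C(M, unitInterval)),
      Function.Surjective f →
      (∀ t : unitInterval, IsPreconnected (f ⁻¹' {t})) →
      (∀ D : Set M, IsClosed D → D ≠ Set.univ → f '' D = Set.univ →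
        ¬ ∀ t : unitInterval, IsPreconnected (D ∩ f ⁻¹' {t})) →
      ∃ p q : M, ∀ K : Set M, IsClosed K → IsConnected K → p ∈ K → q ∈ K →
        K = Set.univ) := by
  intro h
  have ne : ∀ t, (M ∩ Prod.snd ⁻¹' {t}).Nonempty := fun t => by
    obtain ⟨p, h1, h2, -⟩ := fib_ne t 0
    exact ⟨p, h1, h2⟩
  have i1 : CompactSpace M := isCompact_iff_compactSpace.1 M_closed.isCompact
  have i2 : ConnectedSpace M := by
    have := mono M_closed.isCompact continuous_snd ne fib_conn isClosed_univ isConnected_univ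
    rw [preimage_univ, inter_univ] at this
    exact isConnected_iff_connectedSpace.1 ⟨(ne 0).mono inter_subset_left, this⟩
  have pc : ∀ {S : Set M}, IsPreconnected (Subtype.val '' S) ↔ IsPreconnected S :=
    IsInducing.subtypeVal.isPreconnected_image
  obtain ⟨p, q, hK⟩ := @h M (TopologicalSpace.metrizableSpaceMetric M) i1 i2
    ⟨fun x => x.1.2, continuous_snd.comp continuous_subtype_val⟩ (fun t => by
      obtain ⟨p, h1, h2⟩ := ne t
      exact ⟨⟨p, h1⟩, h2⟩) (fun t => pc.1 (by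
      have := Subtype.image_preimage_coe M (Prod.snd ⁻¹' {t})
      exact this ▸ fib_conn t)) (fun D hD h1 h2 h3 => h1 (eq_univ_of_forall fun x => by
      have h4 := minimal (M_closed.isClosedEmbedding_subtypeVal.isClosedMap D hD)
        (Subtype.coe_image_subset _ _) (fun t => by
          obtain ⟨d, hd, e⟩ : t ∈ _ '' D := h2 ▸ mem_univ t
          exact ⟨d, ⟨d, hd, rfl⟩, e⟩) (fun t => by
          rw [← image_inter_preimage]
          exact pc.2 (h3 t)) x.2
      obtain ⟨y, hy, e⟩ := h4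
      exact Subtype.ext e ▸ hy))
  obtain ⟨N, n1, n2, n3, n4, n5⟩ := cross
  have c : ∀ t, IsClosed (M ∩ Prod.snd ⁻¹' {t}) := fun t =>
    M_closed.inter (isClosed_singleton.preimage continuous_snd)
  have hs : N ∪ M ∩ Prod.snd ⁻¹' {p.1.2} ∪ M ∩ Prod.snd ⁻¹' {q.1.2} ⊆ M :=
    union_subset (union_subset n1 inter_subset_left) inter_subset_left
  have h1 := hK (Subtype.val ⁻¹' (N ∪ M ∩ Prod.snd ⁻¹' {p.1.2} ∪ M ∩ Prod.snd ⁻¹' {q.1.2}))
    (((n2.isClosed.union (c _)).union (c _)).preimage continuous_subtype_val)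
    ⟨⟨p, Or.inl (Or.inr ⟨p.2, rfl⟩)⟩, pc.1 (by
      rw [Subtype.image_preimage_coe, inter_eq_right.2 hs]
      obtain ⟨a, ha, e⟩ := n4 p.1.2
      obtain ⟨b, hb, e'⟩ := n4 q.1.2
      exact IsPreconnected.union b (Or.inl hb) (mem_inter (n1 hb) e') (IsPreconnected.union a ha
        (mem_inter (n1 ha) e) n3.2 (fib_conn _)) (fib_conn _))⟩ (Or.inl (Or.inr ⟨p.2, rfl⟩)) (Or.inr ⟨q.2, rfl⟩)
  have : Infinite unitInterval := (Icc_infinite (zero_lt_one' ℝ)).to_subtype
  obtain ⟨t, ht⟩ := (Set.toFinite {p.1.2, q.1.2}).infinite_compl.nonempty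
  obtain ⟨x, x1, x2, x3⟩ := fib_ne t (1 / 2)
  rcases (h1 ▸ mem_univ _ : (⟨x, x1⟩ : M) ∈ Subtype.val ⁻¹' (N ∪ M ∩ Prod.snd ⁻¹' {p.1.2} ∪
    M ∩ Prod.snd ⁻¹' {q.1.2})) with (h2 | h2) | h2
  · have := (AddCircle.coe_eq_zero_iff_of_mem_Ico (p := (1 : ℝ)) (a := 1 / 2)
      (by norm_num)).1 (x3 ▸ n5 x h2)
    norm_num at this
  · exact ht (Or.inl (x2 ▸ h2.2))
  · exact ht (Or.inr (x2 ▸ h2.2))

end Pool.Agent.S12798
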