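import Pool.Statements.S12801
-- import your own Pool.Agent.* helpers here

set_option autoImplicit false
open Pool Pool.MP_15cd64_gt

namespace Pool.Agent.S12801

abbrev E := EuclideanSpace ℝ (Fin 3)

inductive Ex
  | x | y | z | n | r | d | l
  | c (a : ℝ)
  | add (a b : Ex)
  | mul (a b : Ex)

noncomputable def NN (v : E) : ℝ := √(v 0 ^ 2 + 4 * v 1 ^ 2 + 3 * v 2 ^ 2)

noncomputable def ev : Ex → E → ℝ
  | .x, v => v 0
  | .y, v => v 1
  | .z, v => v 2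
  | .n, v => NN v
  | .r, v => (NN v)⁻¹
  | .d, v => (NN v ^ 2 - v 2 ^ 2)⁻¹
  | .l, v => Real.log (NN v + v 2) - Real.log (NN v - v 2)
  | .c a, _ => a
  | .add a b, v => ev a v + ev b v
  | .mul a b, v => ev a v * ev b v

def nn (i : Fin 3) : Ex := ![.x, .mul (.c 4) .y, .mul (.c 3) .z] i

def dl (i j : Fin 3) : Ex := .c (if i = j then 1 else 0)

def D (i : Fin 3) : Ex → Ex
  | .x => dl i 0
  | .y => dl i 1
  | .z => dl i 2
  | .n => .mul (nn i) .r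
  | .r => .mul (.c (-1)) (.mul (nn i) (.mul .r (.mul .r .r)))
  | .d => .mul (.c 2) (.mul (.add (.mul .z (dl i 2)) (.mul (.c (-1)) (nn i))) (.mul .d .d))
  | .l => .mul (.c 2) (.mul (.add (.mul .n (dl i 2)) (.mul (.c (-1)) (.mul .z (.mul (nn i) .r)))) .d)
  | .c _ => .c 0
  | .add a b => .add (D i a) (D i b)
  | .mul a b => .add (.mul (D i a) b) (.mul a (D i b))

theorem q_pos {v : E} (hv : v ≠ 0) : 0 < v 0 ^ 2 + 4 * v 1 ^ 2 + 2 * v 2 ^ 2 := by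
  by_contra h
  apply hv
  ext i
  fin_cases i <;> simp <;> nlinarith [sq_nonneg (v 0), sq_nonneg (v 1), sq_nonneg (v 2)]

theorem NN_sq (v : E) : NN v ^ 2 = v 0 ^ 2 + 4 * v 1 ^ 2 + 3 * v 2 ^ 2 :=
  Real.sq_sqrt (by positivity)

theorem NN_abs {v : E} (hv : v ≠ 0) : |v 2| < NN v :=
  abs_lt_of_sq_lt_sq (by rw [NN_sq]; linarith [q_pos hv]) (Real.sqrt_nonneg _)

theorem facts {v : E} (hv : v ≠ 0) : 0 < NN v ∧ 0 < NN v + v 2 ∧ 0 < NN v - v 2 ∧
    0 < NN v ^ 2 - v 2 ^ 2 := by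
  have h := abs_lt.1 (NN_abs hv)
  refine ⟨by linarith [h.1, h.2], by linarith [h.1], by linarith [h.2], ?_⟩
  rw [NN_sq]
  linarith [q_pos hv]

noncomputable def pr (i : Fin 3) : E →L[ℝ] ℝ := EuclideanSpace.proj i

theorem pr_apply (i : Fin 3) (v : E) : pr i v = v i := rfl

theorem hc (i : Fin 3) (v : E) : HasFDerivAt (fun w : E => w i) (pr i) v := (pr i).hasFDerivAt

theorem hN {v : E} (hv : v ≠ 0) :
    HasFDerivAt NN ((NN v)⁻¹ • (v 0 • pr 0 + (4 * v 1) • pr 1 + (3 * v 2) • pr 2)) v := by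
  have h := (((hc 0 v).pow 2).add (((hc 1 v).pow 2).const_mul 4)).add
    (((hc 2 v).pow 2).const_mul 3)
  have h2 := h.sqrt (by simp only [Pi.add_apply]; nlinarith [q_pos hv, sq_nonneg (v 2)])
  have h0 := (facts hv).1
  refine (h2).congr_fderiv ?_
  ext w
  simp [pr_apply]
  rw [← NN]
  field_simp

theorem hev (e : Ex) {v : E} (hv : v ≠ 0) :
    HasFDerivAt (ev e) (∑ i, ev (D i e) v • pr i) v := by
  obtain ⟨h1, h2, h3, h4⟩ := facts hv
  have hn := hN hv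
  induction e with
  | x => refine (hc 0 v).congr_fderiv ?_; simp [Fin.sum_univ_three, D, dl, ev]
  | y => refine (hc 1 v).congr_fderiv ?_; simp [Fin.sum_univ_three, D, dl, ev]
  | z => refine (hc 2 v).congr_fderiv ?_; simp [Fin.sum_univ_three, D, dl, ev]
  | n => refine (hn).congr_fderiv ?_; ext w; simp [Fin.sum_univ_three, D, nn, ev]; ring
  | r =>
    refine ((hasDerivAt_inv h1.ne').comp_hasFDerivAt v hn).congr_fderiv ?_
    ext w; simp [Fin.sum_univ_three, D, nn, ev]; field_simp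
  | d =>
    refine ((hasDerivAt_inv h4.ne').comp_hasFDerivAt v ((hn.pow 2).sub ((hc 2 v).pow 2))).congr_fderiv ?_
    ext w; simp [Fin.sum_univ_three, D, nn, dl, ev]; field_simp; ring
  | l =>
    refine (((hn.add (hc 2 v)).log h2.ne').sub ((hn.sub (hc 2 v)).log h3.ne')).congr_fderiv ?_
    ext w; simp [Fin.sum_univ_three, D, nn, dl, ev]
    rw [show NN v ^ 2 - v 2 ^ 2 = (NN v + v 2) * (NN v - v 2) by ring]
    field_simp; ring
  | c a => refine (hasFDerivAt_const a v).congr_fderiv ?_; simp [D, ev]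
  | add a b ha hb => refine (ha.add hb).congr_fderiv ?_; ext w; simp [Fin.sum_univ_three, D, ev]; ring
  | mul a b ha hb => refine (ha.mul hb).congr_fderiv ?_; ext w; simp [Fin.sum_univ_three, D, ev]; ring

theorem hess (e : Ex) {v : E} (hv : v ≠ 0) (i j : Fin 3) :
    fderiv ℝ (fderiv ℝ (ev e)) v (EuclideanSpace.single i 1) (EuclideanSpace.single j 1) =
      ev (D i (D j e)) v := by
  have h1 : fderiv ℝ (ev e) =ᶠ[nhds v] fun w => ∑ k, ev (D k e) w • pr k := by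
    filter_upwards [isOpen_ne.mem_nhds hv] with w hw using (hev e hw).fderiv
  have h2 := HasFDerivAt.fun_sum (u := Finset.univ) fun k _ => (hev (D k e) hv).smul_const (pr k)
  rw [h1.fderiv_eq, h2.fderiv]
  simp [pr_apply, Pi.single_apply]

theorem an (e : Ex) {v : E} (hv : v ≠ 0) : AnalyticAt ℝ (ev e) v := by
  obtain ⟨h1, h2, h3, h4⟩ := facts hv
  have hx : ∀ i, AnalyticAt ℝ (fun w : E => w i) v := fun i => (pr i).analyticAt v
  have hn : AnalyticAt ℝ NN v := by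
    refine ContDiffAt.analyticAt (ContDiffAt.sqrt (AnalyticAt.contDiffAt ?_)
      (by nlinarith [q_pos hv, sq_nonneg (v 2)]))
    exact (((hx 0).pow 2).add (analyticAt_const.mul ((hx 1).pow 2))).add
      (analyticAt_const.mul ((hx 2).pow 2))
  induction e with
  | x => exact hx 0
  | y => exact hx 1
  | z => exact hx 2
  | n => exact hn
  | r => exact hn.inv h1.ne'
  | d => exact ((hn.pow 2).sub ((hx 2).pow 2)).inv h4.ne'
  | l =>
    exact (AnalyticAt.comp (f := fun w : E => NN w + w 2) (analyticAt_log h2) (hn.add (hx 2))).sub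
      (AnalyticAt.comp (f := fun w : E => NN w - w 2) (analyticAt_log h3) (hn.sub (hx 2)))
  | c a => exact analyticAt_const
  | add a b ha hb => exact ha.add hb
  | mul a b ha hb => exact ha.mul hb

noncomputable def PP : Ex := .add (.mul (.c 2) .n) (.add (.mul (.c (-1)) (.mul .z (.mul .z (.mul .n .d))))
  (.mul (.c (-3 / 2)) (.mul .z .l)))

def QQ : Ex := .mul (.add (.mul .x .x) (.mul (.c (-4)) (.mul .y .y))) .r

theorem mixed {v : E} (hv : v ≠ 0) : ∑ i, ∑ j, (ev (D i (D i PP)) v * ev (D j (D j QQ)) v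
    + ev (D j (D j PP)) v * ev (D i (D i QQ)) v - ev (D i (D j PP)) v * ev (D j (D i QQ)) v
    - ev (D j (D i PP)) v * ev (D i (D j QQ)) v) = 0 := by
  obtain ⟨h1, -, -, h4⟩ := facts hv
  have e1 := mul_inv_cancel₀ h1.ne'
  have e2 := mul_inv_cancel₀ h4.ne'
  have e3 := NN_sq v
  simp [Fin.sum_univ_three, D, nn, dl, ev, PP, QQ]
  generalize (NN v ^ 2 - v 2 ^ 2)⁻¹ = d at *
  generalize (NN v)⁻¹ = r at *
  generalize NN v = n at *
  generalize v 0 = x at *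
  generalize v 1 = y at *
  generalize v 2 = z at *
  linear_combination (-((-48)*x^2*z^4*n*r^5*d^3 + (-12)*x^2*z^2*n*r^5*d^2 +
    (112)*x^2*z^2*n*r^3*d^3 + (112)*x^2*z^2*r^6*d + (28)*x^2*z^2*r^4*d^2 + (-48)*x^2*n*r^5*d +
    (112)*x^2*r^6 + (-384)*y^2*z^4*n*r^5*d^3 + (-672)*y^2*z^2*n*r^5*d^2 + (128)*y^2*z^2*n*r^3*d^3
    + (128)*y^2*z^2*r^6*d + (32)*y^2*z^2*r^4*d^2 + (-384)*y^2*n*r^5*d + (128)*y^2*r^6 +
    (144)*z^6*n*r^5*d^3 + (-48)*z^4*n^3*r^5*d^3 + (576)*z^4*n*r^5*d^2 + (-144)*z^4*n*r^3*d^3 +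
    (384)*z^4*r^6*d + (12)*z^4*r^4*d^2 + (-12)*z^2*n^3*r^5*d^2 + (112)*z^2*n^3*r^3*d^3 +
    (112)*z^2*n^2*r^6*d + (28)*z^2*n^2*r^4*d^2 + (144)*z^2*n*r^5*d + (-564)*z^2*n*r^3*d^2 +
    (128)*z^2*n*r*d^3 + (384)*z^2*r^6 + (-316)*z^2*r^4*d + (32)*z^2*r^2*d^2 + (-48)*n^3*r^5*d +
    (112)*n^2*r^6 + (144)*n*r^3*d + (-232)*r^4)) * e3 + ((4608)*y^4*z^4*r^4*d^3 +
    (4608)*y^4*z^2*n*r^3*d^3 + (5760)*y^4*z^2*r^4*d^2 + (-4608)*y^4*n*r^5*d +
    (576)*y^2*z^6*r^4*d^3 + (-192)*y^2*z^4*n^2*r^4*d^3 + (384)*y^2*z^4*n*r^3*d^3 +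
    (-2448)*y^2*z^4*r^4*d^2 + (1344)*y^2*z^4*r^2*d^3 + (-624)*y^2*z^2*n^2*r^4*d^2 +
    (-320)*y^2*z^2*n^2*r^2*d^3 + (-5120)*y^2*z^2*n*r^5*d + (-3968)*y^2*z^2*n*r^3*d^2 +
    (1024)*y^2*z^2*n*r*d^3 + (-4544)*y^2*z^2*r^4*d + (1600)*y^2*z^2*r^2*d^2 + (-192)*y^2*n^2*r^4*d
    + (-320)*y^2*n*r^5 + (1920)*y^2*n*r^3*d + (-320)*y^2*r^4 + (-432)*z^8*r^4*d^3 +
    (288)*z^6*n^2*r^4*d^3 + (-144)*z^6*n*r^3*d^3 + (-1728)*z^6*r^4*d^2 + (288)*z^6*r^2*d^3 +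
    (-48)*z^4*n^4*r^4*d^3 + (-48)*z^4*n^3*r^3*d^3 + (612)*z^4*n^2*r^4*d^2 + (-528)*z^4*n^2*r^2*d^3
    + (-1104)*z^4*n*r^5*d + (-792)*z^4*n*r^3*d^2 + (-240)*z^4*n*r*d^3 + (-1536)*z^4*r^4*d +
    (900)*z^4*r^2*d^2 + (-240)*z^4*d^3 + (-12)*z^2*n^4*r^4*d^2 + (112)*z^2*n^4*r^2*d^3 +
    (112)*z^2*n^3*r^5*d + (16)*z^2*n^3*r^3*d^2 + (112)*z^2*n^3*r*d^3 + (400)*z^2*n^2*r^4*d +
    (-548)*z^2*n^2*r^2*d^2 + (240)*z^2*n^2*d^3 + (48)*z^2*n*r^5 + (1044)*z^2*n*r^3*d +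
    (144)*z^2*n*r*d^2 + (48)*z^2*r^4 + (612)*z^2*r^2*d + (-240)*z^2*d^2 + (-48)*n^4*r^4*d +
    (112)*n^3*r^5 + (-48)*n^3*r^3*d + (112)*n^2*r^4 + (96)*n^2*r^2*d + (-120)*n*r^3 + (-96)*n*r*d
    + (-120)*r^2) * e1 + (-((4608)*y^4*z^2*r^4*d^2 + (-4608)*y^4*r^6 + (576)*y^2*z^4*r^4*d^2 +
    (-4800)*y^2*z^2*r^6 + (-3264)*y^2*z^2*r^4*d + (1344)*y^2*z^2*r^2*d^2 + (2112)*y^2*r^4 +
    (-432)*z^6*r^4*d^2 + (-1152)*z^4*r^6 + (-1332)*z^4*r^4*d + (288)*z^4*r^2*d^2 + (960)*z^2*r^4 +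
    (660)*z^2*r^2*d + (-240)*z^2*d^2 + (-192)*r^2)) * e2

theorem bounds {w : E} (hw : ‖w‖ = 1) : -4 < ev PP w ∧ -2 ≤ ev QQ w ∧ ev QQ w ≤ 1 := by
  have hw0 : w ≠ 0 := fun h => by simp [h] at hw
  obtain ⟨h1, h2, h3, h4⟩ := facts hw0
  have e3 := NN_sq w
  have e4 : w 0 ^ 2 + w 1 ^ 2 + w 2 ^ 2 = 1 := by
    have := EuclideanSpace.real_norm_sq_eq w
    rw [hw, Fin.sum_univ_three] at this
    linarith
  simp only [ev, PP, QQ]
  generalize NN w = n at *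
  generalize w 0 = x at *
  generalize w 1 = y at *
  generalize w 2 = z at *
  have hn1 : 1 ≤ n := by nlinarith
  have hn2 : n ≤ 2 := by nlinarith
  have hz := abs_le_of_sq_le_sq' (a := 5 * z) (b := 3 * n) (by nlinarith) (by linarith)
  have hz1 := abs_le_of_sq_le_sq' (a := z) (b := 1) (by nlinarith) (by linarith)
  have l1 : ∀ a b : ℝ, 0 < a → 0 < b → a ≤ 4 * b → Real.log a - Real.log b ≤ 3 := by
    intro a b ha hb h
    have := Real.log_le_sub_one_of_pos (div_pos ha hb)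
    rw [Real.log_div ha.ne' hb.ne'] at this
    have := (div_le_iff₀ hb).2 h
    linarith
  have l2 := l1 _ _ h2 h3 (by linarith [hz.2])
  have l3 := l1 _ _ h3 h2 (by linarith [hz.1])
  have l4 : z * (z * (n * (n ^ 2 - z ^ 2)⁻¹)) ≤ n / 2 := by
    rw [← div_eq_mul_inv, ← mul_div_assoc, ← mul_div_assoc, div_le_iff₀ h4]
    nlinarith [mul_nonneg h1.le (sq_nonneg x), mul_nonneg h1.le (sq_nonneg y)]
  refine ⟨by nlinarith [hz1.1, hz1.2], ?_, ?_⟩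
  · rw [← div_eq_mul_inv, le_div_iff₀ h1]
    nlinarith
  · rw [← div_eq_mul_inv, div_le_iff₀ h1]
    nlinarith

theorem result :
    ∃ H₁ H₂ : EuclideanSpace ℝ (Fin 3) → ℝ,
      (∀ x : EuclideanSpace ℝ (Fin 3), ∀ c : ℝ, 0 < c → H₁ (c • x) = c * H₁ x) ∧
      (∀ x : EuclideanSpace ℝ (Fin 3), ∀ c : ℝ, 0 < c → H₂ (c • x) = c * H₂ x) ∧
      AnalyticOnNhd ℝ H₁ {x : EuclideanSpace ℝ (Fin 3) | x ≠ 0} ∧
      AnalyticOnNhd ℝ H₂ {x : EuclideanSpace ℝ (Fin 3) | x ≠ 0} ∧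
      (∀ u : EuclideanSpace ℝ (Fin 3), ‖u‖ = 1 →
        (∑ i : Fin 3, ∑ j : Fin 3,
          (fderiv ℝ (fderiv ℝ H₁) u (EuclideanSpace.single i 1) (EuclideanSpace.single i 1) *
            fderiv ℝ (fderiv ℝ H₁) u (EuclideanSpace.single j 1) (EuclideanSpace.single j 1) -
           fderiv ℝ (fderiv ℝ H₁) u (EuclideanSpace.single i 1) (EuclideanSpace.single j 1) *
            fderiv ℝ (fderiv ℝ H₁) u (EuclideanSpace.single j 1) (EuclideanSpace.single i 1)) / 2)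
        =
        (∑ i : Fin 3, ∑ j : Fin 3,
          (fderiv ℝ (fderiv ℝ H₂) u (EuclideanSpace.single i 1) (EuclideanSpace.single i 1) *
            fderiv ℝ (fderiv ℝ H₂) u (EuclideanSpace.single j 1) (EuclideanSpace.single j 1) -
           fderiv ℝ (fderiv ℝ H₂) u (EuclideanSpace.single i 1) (EuclideanSpace.single j 1) *
            fderiv ℝ (fderiv ℝ H₂) u (EuclideanSpace.single j 1) (EuclideanSpace.single i 1)) / 2)) ∧
      ¬ ∃ A : EuclideanSpace ℝ (Fin 3) ≃ₗᵢ[ℝ] EuclideanSpace ℝ (Fin 3),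
        ∃ t : EuclideanSpace ℝ (Fin 3), ∃ ε : ℝ, (ε = 1 ∨ ε = -1) ∧
          ∀ x : EuclideanSpace ℝ (Fin 3), H₂ x = ε * H₁ (A x) + inner ℝ x t := by
  obtain ⟨K, hK, hK0⟩ : ∃ K : ℝ, (∀ v : E, ‖v‖ = 1 → |ev PP v| < K) ∧ 0 < K := by
    have hc : ContinuousOn (ev PP) (Metric.sphere (0 : E) 1) := fun v hv =>
      (an PP (Metric.ne_of_mem_sphere hv one_ne_zero)).continuousAt.continuousWithinAt
    obtain ⟨C, hC⟩ := (isCompact_sphere (0 : E) 1).exists_bound_of_continuousOn hc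
    refine ⟨|C| + 1, fun v hv => ?_, by positivity⟩
    have := hC v (by simpa using hv)
    rw [Real.norm_eq_abs] at this
    linarith [le_abs_self C]
  have hom : ∀ s : ℝ, ∀ v : E, ∀ c : ℝ, 0 < c → ev (.add PP (.mul (.c s) QQ)) (c • v) =
      c * ev (.add PP (.mul (.c s) QQ)) v := by
    intro s v c hc
    have hN : NN (c • v) = c * NN v := by
      simp only [NN, PiLp.smul_apply, smul_eq_mul]
      rw [← Real.sqrt_sq hc.le, ← Real.sqrt_mul (sq_nonneg c), Real.sqrt_sq hc.le]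
      congr 1
      ring
    by_cases hv : v = 0
    · simp [hv, ev, PP, QQ, NN]
    obtain ⟨h1, h2, h3, h4⟩ := facts hv
    simp only [ev, PP, QQ, hN, PiLp.smul_apply, smul_eq_mul, ← mul_add, ← mul_sub, mul_pow,
      Real.log_mul hc.ne' h2.ne', Real.log_mul hc.ne' h3.ne']
    field_simp
    ring
  have even : ∀ s : ℝ, ∀ v : E, ev (.add PP (.mul (.c s) QQ)) (-v) =
      ev (.add PP (.mul (.c s) QQ)) v := by
    intro s v
    have hN : NN (-v) = NN v := by simp [NN]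
    simp only [ev, PP, QQ, hN, PiLp.neg_apply, sub_neg_eq_add, ← sub_eq_add_neg, neg_sq]
    ring
  refine ⟨ev (.add PP (.mul (.c (2 * K)) QQ)), ev (.add PP (.mul (.c (-(2 * K))) QQ)), hom _, hom _,
    fun v hv => an _ hv, fun v hv => an _ hv, fun u hu => ?_, ?_⟩
  · have hu0 : u ≠ 0 := fun h => by simp [h] at hu
    have := mixed hu0
    simp only [hess _ hu0]
    simp only [D, ev, Fin.sum_univ_three] at this ⊢
    linear_combination (2 * K) * this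
  · rintro ⟨A, t, ε, hε, h⟩
    have h1 := h (EuclideanSpace.single 1 1)
    have h2 := h (-EuclideanSpace.single 1 1)
    rw [map_neg, even, even, inner_neg_left] at h2
    have hn : ‖(EuclideanSpace.single 1 1 : E)‖ = 1 := by simp
    have h3 := abs_lt.1 (hK _ hn)
    have hw : ‖A (EuclideanSpace.single 1 1)‖ = 1 := by rw [A.norm_map, hn]
    have hq : ev QQ (EuclideanSpace.single 1 1) = -2 := by
      have : √(4 : ℝ) = 2 := by rw [show (4 : ℝ) = 2 ^ 2 by norm_num, Real.sqrt_sq (by norm_num)]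
      simp [ev, QQ, NN, this]
      norm_num
    generalize A (EuclideanSpace.single 1 1) = w at *
    have h4 := abs_lt.1 (hK _ hw)
    have hp : ev PP (EuclideanSpace.single 1 1) = 4 := by
      have : √(4 : ℝ) = 2 := by rw [show (4 : ℝ) = 2 ^ 2 by norm_num, Real.sqrt_sq (by norm_num)]
      simp [ev, PP, NN, this]
      norm_num
    obtain ⟨b1, b2, b3⟩ := bounds hw
    simp only [ev, hp, hq] at h1 h2 h3
    rcases hε with rfl | rfl <;> nlinarith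

end Pool.Agent.S12801
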