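import Pool.Statements.S12822
-- import your own Pool.Agent.* helpers here

set_option autoImplicit false
open Pool Pool.MP_182cc9_gt

namespace Pool.Agent.S12822

open Set Topology unitInterval

/-- the recursion of the statement -/
def DD {X : Type} [TopologicalSpace X] : ℕ → Set X → Set X → Prop
  | 0, Y, A => A ∩ Y = ∅
  | k + 1, Y, A => (A ∩ Y = ∅ ∨
          ∀ F G : Set X, (∃ C : Set X, IsClosed C ∧ F = Y ∩ C) →
            (∃ C : Set X, IsClosed C ∧ G = Y ∩ C) → Disjoint F G →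
            ∃ S U V : Set X, S ⊆ Y ∧ (∃ C : Set X, IsClosed C ∧ S = Y ∩ C) ∧
              (∃ O : Set X, IsOpen O ∧ U = Y ∩ O) ∧
              (∃ O : Set X, IsOpen O ∧ V = Y ∩ O) ∧
              Disjoint U V ∧ Y \ S = U ∪ V ∧ F ⊆ U ∧ G ⊆ V ∧
              DD k S (A ∩ S))

abbrev L : Type := I × ℝ
abbrev XX : Type := (L → Bool) × I

open Classical in
noncomputable def pt (a : L) : XX := (fun b => decide (b = a), a.1)

lemma free_pair {T : Type} (A B : Set T) (hA : A.Infinite) (hB : ¬ B.Countable)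
    (s : T → Finset T) : ∃ a ∈ A, ∃ b ∈ B, a ∉ s b ∧ b ∉ s a := by
  let f := hA.natEmbedding
  have hc : (⋃ n : ℕ, ((s (f n) : Finset T) : Set T)).Countable :=
    countable_iUnion fun n => (s (f n)).countable_toSet
  obtain ⟨b, hb, hb'⟩ : ∃ b ∈ B, b ∉ ⋃ n : ℕ, ((s (f n) : Finset T) : Set T) := by
    by_contra h
    push Not at h
    exact hB (hc.mono h)
  have hinf : (range fun n : ℕ => (f n : T)).Infinite :=
    infinite_range_of_injective fun m n h => f.injective (Subtype.ext h)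
  obtain ⟨a, ⟨n, rfl⟩, ha⟩ := hinf.exists_notMem_finset (s b)
  refine ⟨f n, (f n).2, b, hb, ha, fun h => hb' (mem_iUnion.2 ⟨n, h⟩)⟩

lemma nbhd (U : Set XX) (hU : IsOpen U) (a : L) (ha : pt a ∈ U) :
    ∃ (s : Finset L) (n : ℕ), ∀ (x : L → Bool) (y : I), (∀ b ∈ s, x b = (pt a).1 b) →
      dist y a.1 < 1 / ((n : ℝ) + 1) → (x, y) ∈ U := by
  have h := hU.mem_nhds ha
  rw [show pt a = ((pt a).1, a.1) from rfl, mem_nhds_prod_iff] at h
  obtain ⟨u, hu, v, hv, huv⟩ := h
  rw [nhds_pi, Filter.mem_pi] at hu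
  obtain ⟨J, hJ, t, ht, htu⟩ := hu
  obtain ⟨e, he, hev⟩ := Metric.mem_nhds_iff.1 hv
  obtain ⟨n, hn⟩ := exists_nat_one_div_lt he
  refine ⟨hJ.toFinset, n, fun x y hx hy => huv ⟨htu fun b hb => ?_, hev (lt_trans hy hn)⟩⟩
  show x b ∈ t b
  rw [hx b (hJ.mem_toFinset.2 hb)]
  exact mem_of_mem_nhds (ht b)

lemma sub_open (T : Set XX) (hT : T ⊆ range pt) : ∃ O : Set XX, IsOpen O ∧ T = range pt ∩ O := by
  refine ⟨⋃ a ∈ {a | pt a ∈ T}, {x : XX | x.1 a = true}, ?_, ?_⟩
  · refine isOpen_biUnion fun a _ => ?_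
    have : Continuous fun x : XX => x.1 a := (continuous_apply a).comp continuous_fst
    exact (isOpen_discrete {true}).preimage this
  · ext x
    constructor
    · intro hx
      obtain ⟨a, rfl⟩ := hT hx
      exact ⟨⟨a, rfl⟩, mem_biUnion hx (by simp [pt])⟩
    · rintro ⟨⟨a, rfl⟩, hx⟩
      obtain ⟨b, hb, hx⟩ := mem_iUnion₂.1 hx
      have : b = a := by simpa [pt] using hx
      subst this
      exact hb

lemma key (U V : Set XX) (hU : IsOpen U) (hV : IsOpen V) (hUV : Disjoint U V)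
    (hc : range pt ⊆ U ∪ V) (h0 : {x : XX | x.2 = 0} ⊆ U) (h1 : {x : XX | x.2 = 1} ⊆ V) :
    False := by
  classical
  let W : Bool → Set XX := fun c => if c then U else V
  have hW : ∀ c, IsOpen (W c) := by
    intro c; cases c <;> simp [W, hU, hV]
  have h2 : ∀ a : L, ∃ c, pt a ∈ W c := by
    intro a
    rcases hc ⟨a, rfl⟩ with h | h
    · exact ⟨true, by simpa [W] using h⟩
    · exact ⟨false, by simpa [W] using h⟩
  choose c hcW using h2
  choose s n hsn using fun a => nbhd (W (c a)) (hW _) a (hcW a)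
  have h3 : ∀ t : I, ∃ q : Bool × ℕ, ¬ {r : ℝ | (c (t, r), n (t, r)) = q}.Countable := by
    intro t
    by_contra h
    push Not at h
    have : (⋃ q : Bool × ℕ, {r : ℝ | (c (t, r), n (t, r)) = q}).Countable := countable_iUnion h
    have h' : (⋃ q : Bool × ℕ, {r : ℝ | (c (t, r), n (t, r)) = q}) = univ := by
      ext r; simp
    rw [h'] at this
    exact Cardinal.not_countable_real this
  choose q hq using h3
  let T : Bool → Set I := fun b => ⋃ t ∈ {t | (q t).1 = b}, Metric.ball t (1 / (((q t).2 : ℝ) + 1))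
  have hT : ∀ b, IsOpen (T b) := fun b => isOpen_biUnion fun t _ => Metric.isOpen_ball
  have hmem : ∀ t, t ∈ T (q t).1 := fun t =>
    mem_biUnion (t := fun t => Metric.ball t (1 / (((q t).2 : ℝ) + 1))) (x := t) rfl
      (Metric.mem_ball_self Nat.one_div_pos_of_nat)
  have hne : ∀ t, ∃ r : ℝ, c (t, r) = (q t).1 := by
    intro t
    have : {r : ℝ | (c (t, r), n (t, r)) = q t}.Nonempty := by
      by_contra h
      rw [not_nonempty_iff_eq_empty] at h
      exact hq t (h ▸ countable_empty)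
    obtain ⟨r, hr⟩ := this
    exact ⟨r, congrArg Prod.fst hr⟩
  have q0 : (q 0).1 = true := by
    obtain ⟨r, hr⟩ := hne 0
    by_contra h
    have h' : c (0, r) = false := by rw [hr]; simpa using h
    have := hcW (0, r)
    rw [h'] at this
    exact disjoint_left.1 hUV (h0 rfl) (by simpa [W] using this)
  have q1 : (q 1).1 = false := by
    obtain ⟨r, hr⟩ := hne 1
    by_contra h
    have h' : c (1, r) = true := by rw [hr]; simpa using h
    have := hcW (1, r)
    rw [h'] at this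
    exact disjoint_left.1 hUV (by simpa [W] using this) (h1 rfl)
  obtain ⟨y, -, hy1, hy2⟩ := isPreconnected_univ (α := I) (T true) (T false) (hT _) (hT _)
    (fun t _ => by
      have := hmem t
      cases h : (q t).1 <;> rw [h] at this
      · exact Or.inr this
      · exact Or.inl this)
    ⟨0, trivial, q0 ▸ hmem 0⟩ ⟨1, trivial, q1 ▸ hmem 1⟩
  obtain ⟨t, ht, hyt⟩ := mem_iUnion₂.1 hy1
  obtain ⟨u, hu, hyu⟩ := mem_iUnion₂.1 hy2
  have unc : ∀ t : I, ¬ ((fun r : ℝ => ((t, r) : L)) '' {r : ℝ | (c (t, r), n (t, r)) = q t}).Countable := by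
    intro t h
    exact hq t (countable_of_injective_of_countable_image
      (fun a _ b _ hab => congrArg Prod.snd hab) h)
  obtain ⟨a, ⟨ra, hra, rfl⟩, b, ⟨rb, hrb, rfl⟩, hab, hba⟩ :=
    free_pair _ _ (fun h => unc t h.countable) (unc u) s
  have hca : c (t, ra) = true := (congrArg Prod.fst hra).trans ht
  have hcb : c (u, rb) = false := (congrArg Prod.fst hrb).trans hu
  have hna : n (t, ra) = (q t).2 := congrArg Prod.snd hra
  have hnb : n (u, rb) = (q u).2 := congrArg Prod.snd hrb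
  let x : L → Bool := fun g => decide (g = (t, ra) ∨ g = (u, rb))
  have hxa := hsn (t, ra) x y (fun g hg => by
    have : g ≠ (u, rb) := fun h => hba (by subst h; exact hg)
    simp [x, pt, this]) (by rw [hna]; exact hyt)
  have hxb := hsn (u, rb) x y (fun g hg => by
    have : g ≠ (t, ra) := fun h => hab (by subst h; exact hg)
    simp [x, pt, this]) (by rw [hnb]; exact hyu)
  rw [hca] at hxa
  rw [hcb] at hxb
  exact disjoint_left.1 hUV (by simpa [W] using hxa) (by simpa [W] using hxb)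

theorem result :
    ¬ (∀ (X : Type) [TopologicalSpace X] [T4Space X] (Z : Set X) (n : ℕ)
      (D : ℕ → Set X → Set X → Prop),
      (∀ Y A : Set X, D 0 Y A ↔ A ∩ Y = ∅) →
      (∀ (k : ℕ) (Y A : Set X), D (k + 1) Y A ↔
        (A ∩ Y = ∅ ∨
          ∀ F G : Set X, (∃ C : Set X, IsClosed C ∧ F = Y ∩ C) →
            (∃ C : Set X, IsClosed C ∧ G = Y ∩ C) → Disjoint F G →
            ∃ S U V : Set X, S ⊆ Y ∧ (∃ C : Set X, IsClosed C ∧ S = Y ∩ C) ∧
              (∃ O : Set X, IsOpen O ∧ U = Y ∩ O) ∧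
              (∃ O : Set X, IsOpen O ∧ V = Y ∩ O) ∧
              Disjoint U V ∧ Y \ S = U ∪ V ∧ F ⊆ U ∧ G ⊆ V ∧
              D k S (A ∩ S))) →
      D n Z Z → D n Set.univ Z) := by
  intro h
  have h1 := h XX (range pt) 1 DD (fun Y A => Iff.rfl) (fun k Y A => Iff.rfl) (by
    right
    rintro F G ⟨C, -, hF⟩ ⟨C', -, hG⟩ hFG
    have hFZ : F ⊆ range pt := hF ▸ inter_subset_left
    have hGZ : G ⊆ range pt := hG ▸ inter_subset_left
    refine ⟨∅, F, range pt \ F, empty_subset _, ⟨∅, isClosed_empty, by simp⟩, sub_open F hFZ,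
      sub_open _ sdiff_subset, disjoint_sdiff_right, ?_, Subset.rfl, ?_, by simp [DD]⟩
    · rw [sdiff_empty, union_sdiff_cancel hFZ]
    · exact fun x hx => ⟨hGZ hx, fun hx' => disjoint_left.1 hFG hx' hx⟩)
  rcases h1 with h1 | h1
  · have : pt (0, 0) ∈ range pt ∩ univ := ⟨⟨_, rfl⟩, trivial⟩
    rw [h1] at this
    exact this
  · obtain ⟨S, U, V, -, -, ⟨O, hO, hU⟩, ⟨O', hO', hV⟩, hUV, hS, hF, hG, hD⟩ :=
      h1 {x : XX | x.2 = 0} {x : XX | x.2 = 1}
        ⟨_, isClosed_eq continuous_snd continuous_const, (univ_inter _).symm⟩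
        ⟨_, isClosed_eq continuous_snd continuous_const, (univ_inter _).symm⟩
        (disjoint_left.2 fun x h0 h1 => by
          have : (0 : I) = 1 := (Eq.symm h0).trans h1
          exact zero_ne_one this)
    rw [univ_inter] at hU hV
    refine key U V (hU ▸ hO) (hV ▸ hO') hUV (fun x hx => ?_) hF hG
    rw [← hS]
    refine ⟨trivial, fun hxS => ?_⟩
    have hD' : range pt ∩ S ∩ S = ∅ := hD
    have : x ∈ range pt ∩ S ∩ S := ⟨⟨hx, hxS⟩, hxS⟩
    rw [hD'] at this
    exact this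

end Pool.Agent.S12822
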