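import Pool.Statements.S12824
import Pool.Agent.H.MP_189718_gt.A

set_option autoImplicit false
open Pool Pool.MP_189718_gt

namespace Pool.Agent.S12824

theorem result :
    ¬ (∀ (K : Type) [TopologicalSpace K] [CompactSpace K] [T2Space K] (ι : Type),
      Cardinal.aleph0 < Cardinal.mk ι →
      (∃ φ : {f : K → ℝ // Continuous f} → (ι → unitInterval),
          Continuous φ ∧ Function.Surjective φ) →
      ∃ D : Set K, DiscreteTopology (↥D) ∧ Cardinal.mk (↥D) = Cardinal.mk ι ∧
        ∀ g : (↥D) → ℝ, Continuous g → (∃ M : ℝ, ∀ x : ↥D, |g x| ≤ M) →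
          ∃ G : K → ℝ, Continuous G ∧ ∀ x : ↥D, G (x : K) = g x) := by
  intro h
  obtain ⟨D, h1, h2, h3⟩ := h H.MP_189718_gt.K H.MP_189718_gt.II H.MP_189718_gt.unc
    H.MP_189718_gt.surj
  exact H.MP_189718_gt.no_set D h1 h2 h3

end Pool.Agent.S12824
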