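import Pool.Statements.S12825
import Pool.Agent.H.MP_18ddbc_gt.Back

set_option autoImplicit false
open Pool Pool.MP_18ddbc_gt

namespace Pool.Agent.S12825

theorem result :
    ∀ (g h : ℕ → unitInterval → unitInterval),
      (∀ k, Continuous (g k) ∧ IsOpenMap (g k)) →
      (∀ k, Continuous (h k) ∧ IsOpenMap (h k)) →
      ∀ f : {x : ℕ → unitInterval // ∀ k, x k = g k (x (k + 1))} →
            {y : ℕ → unitInterval // ∀ k, y k = h k (y (k + 1))},
        Continuous f →
        ((∀ j : ℕ, ∃ F : ℕ → unitInterval → unitInterval,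
            (∀ i, Continuous (F i) ∧ IsOpenMap (F i)) ∧
            TendstoUniformly
              (fun (i : ℕ) (x : {x : ℕ → unitInterval // ∀ k, x k = g k (x (k + 1))}) =>
                F i (x.1 i))
              (fun x => (f x).1 j) Filter.atTop)
          ↔
         (∀ K : Set {y : ℕ → unitInterval // ∀ k, y k = h k (y (k + 1))},
            IsClosed K → IsConnected K →
            ∀ x, f x ∈ K → f '' connectedComponentIn (f ⁻¹' K) x = K)) := by
  intro g h hg hh f hf
  have i1 := Pool.Agent.H.MP_18ddbc_gt.lim_compact fun k => (hg k).1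
  have i2 := Pool.Agent.H.MP_18ddbc_gt.lim_compact fun k => (hh k).1
  constructor
  · intro happ K hK hKc x hx
    refine Pool.Agent.H.MP_18ddbc_gt.comp_of_sep hf hK
      (Pool.Agent.H.MP_18ddbc_gt.forward (fun k => (hh k).1) hf ?_ hK hKc.isPreconnected) hx
    intro j ε hε
    obtain ⟨F, hF, hT⟩ := happ j
    obtain ⟨i, hi⟩ := (Metric.tendstoUniformly_iff.1 hT ε hε).exists
    exact ⟨fun x => F i (x.1 i), (hF i).1.comp (Pool.Agent.H.MP_18ddbc_gt.cont_p i),
      (hF i).2.comp (Pool.Agent.H.MP_18ddbc_gt.p_open hg i), fun x => by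
        rw [dist_comm]; exact hi x⟩
  · intro hconf j
    apply Pool.Agent.H.MP_18ddbc_gt.diag hg
    intro ε hε
    refine Pool.Agent.H.MP_18ddbc_gt.one_level hg
      ((Pool.Agent.H.MP_18ddbc_gt.cont_p j).comp hf) ?_ hε
    intro a b x hx
    have hq := Pool.Agent.H.MP_18ddbc_gt.cont_p (g := h) j
    have e1 := Pool.Agent.H.MP_18ddbc_gt.comp_of_sep hq isClosed_Icc
      (Pool.Agent.H.MP_18ddbc_gt.sep_of_open hq (Pool.Agent.H.MP_18ddbc_gt.p_open hh j)
        (isPreconnected_Icc (a := a) (b := b))) (x := f x) hx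
    have hx' : f x ∈ (fun y : Pool.Agent.H.MP_18ddbc_gt.Lim h => y.1 j) ⁻¹' Set.Icc a b := hx
    have hcl : IsClosed (connectedComponentIn
        ((fun y : Pool.Agent.H.MP_18ddbc_gt.Lim h => y.1 j) ⁻¹' Set.Icc a b) (f x)) := by
      rw [connectedComponentIn_eq_image hx']
      exact (isClosed_Icc.preimage hq).isClosedEmbedding_subtypeVal.isClosedMap _
        isClosed_connectedComponent
    have e2 := hconf _ hcl (isConnected_connectedComponentIn_iff.2 hx') x
      (mem_connectedComponentIn hx')
    refine ⟨_, isPreconnected_connectedComponentIn,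
      mem_connectedComponentIn (F := f ⁻¹' connectedComponentIn
        ((fun y : Pool.Agent.H.MP_18ddbc_gt.Lim h => y.1 j) ⁻¹' Set.Icc a b) (f x))
        (mem_connectedComponentIn hx'), ?_⟩
    rw [Set.image_comp, e2, e1]

end Pool.Agent.S12825
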