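import Pool.Statements.S12835

set_option autoImplicit false
open Filter Topology
open Pool Pool.MP_1a07a1_gt

namespace Pool.Agent.S12835

open OnePoint Set

def Concl {S : Type} [TopologicalSpace S] (C : Set S) : Prop :=
  ∃ H : ℕ → (S ≃ₜ S), (∀ p, ∃ q ∈ C, Tendsto (fun k : ℕ => H k p) atTop (𝓝 q)) ∧
    (∀ q ∈ C, ∃ p, Tendsto (fun k : ℕ => H k p) atTop (𝓝 q))

theorem frame {V S : Type} [NormedAddCommGroup V] [ProperSpace V] [TopologicalSpace S]
    (e : OnePoint V ≃ₜ S) (C : Set S) (hC : e ∞ ∈ C) (h : ℕ → (V ≃ₜ V))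
    (ha : ∀ x, Tendsto (fun k => ‖h k x‖) atTop atTop ∨
      ∃ q ∈ C, Tendsto (fun k => e (h k x : V)) atTop (𝓝 q))
    (hb : ∀ q ∈ C, q ≠ e ∞ → ∃ x, Tendsto (fun k => e (h k x : V)) atTop (𝓝 q)) : Concl C := by
  refine ⟨fun k => e.symm.trans ((h k).onePointCongr.trans e), fun p => ?_, fun q hq => ?_⟩
  · obtain ⟨p, rfl⟩ := e.surjective p
    induction p using OnePoint.rec with
    | infty => exact ⟨e ∞, hC, by simpa using tendsto_const_nhds⟩
    | coe x =>
      rcases ha x with h1 | ⟨q, hq, h1⟩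
      · refine ⟨e ∞, hC, ?_⟩
        rw [tendsto_norm_atTop_iff_cobounded, Metric.cobounded_eq_cocompact,
          ← coclosedCompact_eq_cocompact] at h1
        simpa [Function.comp_def] using (e.continuous.tendsto ∞).comp (tendsto_coe_infty.comp h1)
      · exact ⟨q, hq, by simpa using h1⟩
  · by_cases hq' : q = e ∞
    · exact ⟨e ∞, by simpa [hq'] using tendsto_const_nhds⟩
    · obtain ⟨x, hx⟩ := hb q hq hq'
      exact ⟨e x, by simpa using hx⟩

section OneDim

noncomputable def F (A : Set ℝ) (K s : ℝ) : ℝ := ⨆ c : A, ((c : ℝ) - K * max (c - s) 0)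

theorem term_le {K : ℝ} (hK : 1 ≤ K) (c s : ℝ) : c - K * max (c - s) 0 ≤ s := by
  rcases le_total (c - s) 0 with h | h
  · rw [max_eq_right h]; linarith
  · rw [max_eq_left h]; nlinarith

theorem bdd (A : Set ℝ) {K : ℝ} (hK : 1 ≤ K) (s : ℝ) :
    BddAbove (range fun c : A => ((c : ℝ) - K * max (c - s) 0)) :=
  ⟨s, by rintro _ ⟨c, rfl⟩; exact term_le hK c s⟩

theorem le_F (A : Set ℝ) {K : ℝ} (hK : 1 ≤ K) (s c : ℝ) (hc : c ∈ A) :
    c - K * max (c - s) 0 ≤ F A K s := le_ciSup (bdd A hK s) ⟨c, hc⟩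

theorem F_le (A : Set ℝ) (hA : A.Nonempty) (K s b : ℝ)
    (h : ∀ c ∈ A, c - K * max (c - s) 0 ≤ b) : F A K s ≤ b := by
  have := hA.to_subtype
  exact ciSup_le fun c => h c c.2

theorem F_mono (A : Set ℝ) (hA : A.Nonempty) {K : ℝ} (hK : 1 ≤ K) : Monotone (F A K) := by
  intro s t hst
  refine F_le A hA K s _ fun c hc => le_trans ?_ (le_F A hK t c hc)
  have : max (c - t) 0 ≤ max (c - s) 0 := max_le_max (by linarith) le_rfl
  nlinarith

theorem F_cont (A : Set ℝ) (hA : A.Nonempty) {K : ℝ} (hK : 1 ≤ K) : Continuous (F A K) := by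
  have key : ∀ s t, F A K s ≤ F A K t + K * dist s t := by
    intro s t
    refine F_le A hA K s _ fun c hc => le_trans ?_ (add_le_add_left (le_F A hK t c hc) _)
    have : max (c - t) 0 ≤ max (c - s) 0 + dist s t := by
      rw [Real.dist_eq]
      refine max_le ?_ (by positivity)
      linarith [le_max_left (c - s) 0, le_abs_self (s - t)]
    nlinarith
  exact (LipschitzWith.of_le_add_mul' K key).continuous

theorem exists_homeo (A : Set ℝ) (hA : A.Nonempty) {K : ℝ} (hK : 1 ≤ K) :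
    ∃ h : ℝ ≃ₜ ℝ, ∀ s, h s = F A K s + s / K := by
  have hK0 : 0 < K := by linarith
  have hm : StrictMono fun s => F A K s + s / K :=
    (F_mono A hA hK).add_strictMono fun s t hst => div_lt_div_of_pos_right hst hK0
  have hs : Function.Surjective fun s => F A K s + s / K := by
    refine Continuous.surjective ((F_cont A hA hK).add (by fun_prop)) ?_ ?_
    · refine tendsto_atTop_add_left_of_le' _ (F A K 0) ?_ (tendsto_id.atTop_div_const hK0)
      filter_upwards [eventually_ge_atTop 0] with s hs using F_mono A hA hK hs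
    · refine tendsto_atBot_add_left_of_ge' _ (F A K 0) ?_ (tendsto_id.atBot_div_const hK0)
      filter_upwards [eventually_le_atBot 0] with s hs using F_mono A hA hK hs
  exact ⟨(hm.orderIsoOfSurjective _ hs).toHomeomorph, fun s => rfl⟩

theorem oneDim {S : Type} [TopologicalSpace S] (e : OnePoint ℝ ≃ₜ S) (C : Set S)
    (hc : IsClosed C) (hC : e ∞ ∈ C) : Concl C := by
  set A : Set ℝ := {x | e (x : ℝ) ∈ C} with hAdef
  have hcont : Continuous fun x : ℝ => e (x : ℝ) := e.continuous.comp continuous_coe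
  have hAc : IsClosed A := hc.preimage hcont
  have hq : ∀ q ∈ C, q ≠ e ∞ → ∃ x ∈ A, e (x : ℝ) = q := by
    intro q hq hq'
    obtain ⟨p, rfl⟩ := e.surjective q
    induction p using OnePoint.rec with
    | infty => exact (hq' rfl).elim
    | coe x => exact ⟨x, hq, rfl⟩
  rcases A.eq_empty_or_nonempty with hA | hA
  · refine frame e C hC (fun k => Homeomorph.addRight (k : ℝ)) (fun x => Or.inl ?_) ?_
    · exact tendsto_abs_atTop_atTop.comp
        (tendsto_atTop_add_const_left _ x tendsto_natCast_atTop_atTop)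
    · intro q h1 h2
      obtain ⟨x, hx, -⟩ := hq q h1 h2
      simp [hA] at hx
  have hK : ∀ k : ℕ, (1 : ℝ) ≤ k + 1 := fun k => by linarith [Nat.cast_nonneg (α := ℝ) k]
  choose h hh using fun k : ℕ => exists_homeo A hA (hK k)
  have hz : ∀ s : ℝ, Tendsto (fun k : ℕ => s / (k + 1 : ℝ)) atTop (𝓝 0) := fun s =>
    tendsto_const_nhds.div_atTop (tendsto_atTop_add_const_right _ 1 tendsto_natCast_atTop_atTop)
  have fin : ∀ s c, (∀ᶠ k : ℕ in atTop, F A (k + 1) s = c) →
      Tendsto (fun k => e (h k s : ℝ)) atTop (𝓝 (e (c : ℝ))) := by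
    intro s c hs
    refine (hcont.tendsto c).comp ?_
    have : Tendsto (fun k : ℕ => c + s / (k + 1 : ℝ)) atTop (𝓝 c) := by
      simpa using (hz s).const_add c
    refine this.congr' ?_
    filter_upwards [hs] with k hk
    rw [hh, hk]
  have inA : ∀ s ∈ A, Tendsto (fun k => e (h k s : ℝ)) atTop (𝓝 (e (s : ℝ))) := by
    intro s hs
    refine fin s s (Eventually.of_forall fun k => le_antisymm
      (F_le A hA _ s s fun c _ => term_le (hK k) c s) ?_)
    simpa using le_F A (hK k) s s hs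
  refine frame e C hC h (fun s => ?_) ?_
  · by_cases hs : s ∈ A
    · exact Or.inr ⟨_, hs, inA s hs⟩
    obtain ⟨δ, hδ, hball⟩ := Metric.isOpen_iff.1 hAc.isOpen_compl s hs
    have far : ∀ (k : ℕ), ∀ c ∈ A, s < c → c - (k + 1) * max (c - s) 0 ≤ s - k * δ := by
      intro k c hc hsc
      have : δ ≤ c - s := by
        by_contra hlt
        refine hball (a := c) ?_ hc
        rw [Metric.mem_ball, Real.dist_eq, abs_of_pos (by linarith)]
        linarith
      rw [max_eq_left (by linarith)]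
      nlinarith [Nat.cast_nonneg (α := ℝ) k]
    have hbot : Tendsto (fun k : ℕ => s - k * δ) atTop atBot :=
      tendsto_atBot_add_const_left _ s (tendsto_neg_atTop_atBot.comp
        (tendsto_natCast_atTop_atTop.atTop_mul_const hδ))
    by_cases hne : (A ∩ Iic s).Nonempty
    · have hb : BddAbove (A ∩ Iic s) := ⟨s, fun c hc => hc.2⟩
      have hm := (hAc.inter isClosed_Iic).csSup_mem hne hb
      refine Or.inr ⟨_, hm.1, fin s _ ?_⟩
      filter_upwards [hbot.eventually (eventually_le_atBot (sSup (A ∩ Iic s)))] with k hk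
      refine le_antisymm (F_le A hA _ s _ fun c hc => ?_) ?_
      · rcases le_or_gt c s with h1 | h1
        · rw [max_eq_right (by linarith)]
          simpa using le_csSup hb ⟨hc, h1⟩
        · exact (far k c hc h1).trans hk
      · have := le_F A (hK k) s _ hm.1
        rw [max_eq_right (by linarith [mem_Iic.1 hm.2])] at this
        simpa using this
    · left
      refine tendsto_abs_atBot_atTop.comp ?_
      refine tendsto_atBot_mono (fun k => ?_) ((hz s).add_atBot hbot)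
      rw [hh, add_comm]
      refine add_le_add_right (F_le A hA _ s _ fun c hc => far k c hc ?_) _
      by_contra hlt
      exact hne ⟨c, hc, not_lt.1 hlt⟩
  · intro q h1 h2
    obtain ⟨x, hx, rfl⟩ := hq q h1 h2
    exact ⟨x, inA x hx⟩

end OneDim

theorem inj_choice {Y : Type} : ∀ (n : ℕ) (A : Fin n → Set Y), (∀ i, (A i).Infinite) →
    ∃ f : Fin n → Y, Function.Injective f ∧ ∀ i, f i ∈ A i := by
  intro n
  induction n with
  | zero => exact fun A _ => ⟨Fin.elim0, fun i => i.elim0, fun i => i.elim0⟩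
  | succ n ih =>
    intro A hA
    obtain ⟨f, hf, hf'⟩ := ih (fun i => A i.succ) (fun i => hA _)
    obtain ⟨y, hy, hy'⟩ := ((hA 0).sdiff (finite_range f)).nonempty
    exact ⟨Fin.cons y f, Fin.cons_injective_iff.2 ⟨hy', hf⟩, fun i => Fin.cases hy hf' i⟩

noncomputable def shear {Y : Type} [NormedAddCommGroup Y] [NormedSpace ℝ Y] (ε : ℝ) (hε : ε ≠ 0)
    (l : ℝ → ℝ) (hl : Continuous l) (hl0 : ∀ t, l t ≠ 0) (φ : ℝ → Y) (hφ : Continuous φ)
    (ψ : Y → ℝ) (hψ : Continuous ψ) : (ℝ × Y) ≃ₜ (ℝ × Y) where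
  toFun p := (ε * p.1 + ψ (l p.1 • p.2 + φ p.1), l p.1 • p.2 + φ p.1)
  invFun p := ((p.1 - ψ p.2) / ε, (l ((p.1 - ψ p.2) / ε))⁻¹ • (p.2 - φ ((p.1 - ψ p.2) / ε)))
  left_inv p := by
    simp [mul_div_cancel_left₀ _ hε, smul_smul, hl0]
  right_inv p := by
    simp [smul_smul, hl0, mul_div_cancel₀ _ hε]
  continuous_toFun := by fun_prop
  continuous_invFun := by
    have h1 : Continuous fun p : ℝ × Y => (p.1 - ψ p.2) / ε := by fun_prop
    exact h1.prodMk (((hl.inv₀ hl0).comp h1).smul (continuous_snd.sub (hφ.comp h1)))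

theorem stage {S : Type} [MetricSpace S] (m : ℕ) (e : OnePoint (ℝ × (Fin (m + 1) → ℝ)) ≃ₜ S)
    (ι : (ℕ → Bool) → ℝ) (hι : IsClosedEmbedding ι) (hι1 : ∀ w, |ι w| ≤ 1)
    (g : C(ℕ → Bool, S)) (η : ℝ) (hη : 0 < η) (R : ℝ) (hR : 0 < R) :
    ∃ h : (ℝ × (Fin (m + 1) → ℝ)) ≃ₜ (ℝ × (Fin (m + 1) → ℝ)),
      (∀ w, dist (e (h (ι w, 0) : ℝ × (Fin (m + 1) → ℝ))) (g w) < 3 * η) ∧
      (∀ t y, 1 ≤ R * ‖y‖ → R * ‖y‖ ≤ ‖h (t, y)‖) ∧
      (∀ t, 1 ≤ R * Metric.infDist t (range ι) → R ≤ ‖h (t, 0)‖) := by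
  have hcont : Continuous fun x : ℝ × (Fin (m + 1) → ℝ) => e x := e.continuous.comp continuous_coe
  obtain ⟨n, r, a, hr, ha⟩ := g.exists_finite_approximation_of_mem_nhds_diagonal
    (S := {p | dist p.1 p.2 < η}) ((isOpen_lt continuous_dist continuous_const).mem_nhdsSet.2
      (by rintro ⟨x, y⟩ (rfl : x = y); simpa using hη))
  have hd : DenseRange fun x : ℝ × (Fin (m + 1) → ℝ) => e x :=
    e.surjective.denseRange.comp denseRange_coe e.continuous
  obtain ⟨z, hz, hz'⟩ := inj_choice n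
    (fun i => Prod.snd '' {x : ℝ × (Fin (m + 1) → ℝ) | dist (e x) (a i) < η}) (fun i => by
      have ho : IsOpen {x : ℝ × (Fin (m + 1) → ℝ) | dist (e x) (a i) < η} :=
        isOpen_lt (hcont.dist continuous_const) continuous_const
      obtain ⟨x, hx⟩ := hd.exists_dist_lt (a i) hη
      exact infinite_of_mem_nhds x.2 ((isOpenMap_snd _ ho).mem_nhds
        ⟨x, by simpa [dist_comm] using hx, rfl⟩))
  choose p hp hpz using hz'
  choose δ hδ hδ' using fun i => Metric.continuousAt_iff.1 (hcont.continuousAt (x := p i)) η hη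
  obtain ⟨ε, hε, hε0⟩ : ∃ ε : ℝ, (∀ i, ε < δ i) ∧ 0 < ε := by
    have : ∀ᶠ ε : ℝ in 𝓝[>] 0, ∀ i, ε < δ i := eventually_all.2 fun i =>
      nhdsWithin_le_nhds (Iio_mem_nhds (hδ i))
    exact (this.and self_mem_nhdsWithin).exists
  obtain ⟨φ0, hφ0⟩ := (⟨fun w => z (r w), continuous_of_discreteTopology.comp hr⟩ :
    C(ℕ → Bool, Fin (m + 1) → ℝ)).exists_extension' hι
  obtain ⟨ψ, hψ⟩ := (⟨fun i => (p i).1, continuous_of_discreteTopology⟩ :
    C(Fin n, ℝ)).exists_extension' (continuous_of_discreteTopology.isClosedEmbedding hz)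
  let u : Fin (m + 1) → ℝ := fun _ => 1
  have hu : ‖u‖ = 1 := by simp [u]
  let φ : ℝ → Fin (m + 1) → ℝ := fun t =>
    φ0 t + (R * Metric.infDist t (range ι) * (R + ‖φ0 t‖)) • u
  have hφ : Continuous φ := by
    have := Metric.continuous_infDist_pt (range ι)
    fun_prop
  refine ⟨shear ε hε0.ne' (fun t => R * (1 + ‖φ t‖)) (by fun_prop) (fun t => by positivity) φ hφ
    ψ ψ.continuous, fun w => ?_, fun t y hy => ?_, fun t ht => ?_⟩
  · have e1 : φ (ι w) = z (r w) := by
      have : φ0 (ι w) = z (r w) := congrFun hφ0 w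
      simp [φ, Metric.infDist_zero_of_mem (mem_range_self w), this]
    have e2 : ψ (z (r w)) = (p (r w)).1 := congrFun hψ (r w)
    have e3 : dist (ε * ι w + (p (r w)).1, z (r w)) (p (r w)) < δ (r w) := by
      rw [Prod.dist_eq, hpz, dist_self, Real.dist_eq, add_sub_cancel_right, abs_mul, abs_of_pos hε0]
      exact max_lt (lt_of_le_of_lt (mul_le_of_le_one_right hε0.le (hι1 w)) (hε _)) (hδ _)
    have e4 := hδ' _ e3
    have e5 : dist (e (p (r w))) (a (r w)) < η := hp _
    have e6 : dist (g w) (a (r w)) < η := ha w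
    simp only [shear, Homeomorph.homeomorph_mk_coe, Equiv.coe_fn_mk, smul_zero, zero_add, e1, e2]
    linarith [dist_triangle4 (e ((ε * ι w + (p (r w)).1, z (r w)) : ℝ × (Fin (m + 1) → ℝ)))
      (e (p (r w))) (a (r w)) (g w), dist_comm (g w) (a (r w))]
  · simp only [shear, Homeomorph.homeomorph_mk_coe, Equiv.coe_fn_mk]
    refine le_trans ?_ (norm_snd_le _)
    have h1 := norm_sub_le ((R * (1 + ‖φ t‖)) • y + φ t) (φ t)
    rw [add_sub_cancel_right, norm_smul, Real.norm_of_nonneg (by positivity)] at h1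
    nlinarith [norm_nonneg (φ t)]
  · simp only [shear, Homeomorph.homeomorph_mk_coe, Equiv.coe_fn_mk, smul_zero, zero_add]
    refine le_trans ?_ (norm_snd_le _)
    have h1 := norm_sub_le (φ t) (φ0 t)
    have h0 : 0 ≤ R + ‖φ0 t‖ := by positivity
    simp only [φ, add_sub_cancel_left] at h1
    rw [norm_smul, hu, Real.norm_of_nonneg (mul_nonneg (by linarith) h0)] at h1
    simp only [φ]
    nlinarith

theorem multiDim {S : Type} [MetricSpace S] [CompactSpace S] (m : ℕ)
    (e : OnePoint (ℝ × (Fin (m + 1) → ℝ)) ≃ₜ S) (C : Set S)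
    (hc : IsClosed C) (hC : e ∞ ∈ C) : Concl C := by
  have : Nonempty C := ⟨⟨_, hC⟩⟩
  have : CompactSpace C := isCompact_iff_compactSpace.1 hc.isCompact
  obtain ⟨g, hg, hgs⟩ := exists_nat_bool_continuous_surjective_of_compact C
  let ι : (ℕ → Bool) → ℝ := fun w => cantorSetHomeomorphNatToBool.symm w
  have hι : IsClosedEmbedding ι := isClosed_cantorSet.isClosedEmbedding_subtypeVal.comp
    cantorSetHomeomorphNatToBool.symm.isClosedEmbedding
  have hι1 : ∀ w, |ι w| ≤ 1 := fun w => by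
    have := cantorSet_subset_unitInterval (cantorSetHomeomorphNatToBool.symm w).2
    rw [abs_of_nonneg this.1]; exact this.2
  choose h h1 h2 h3 using fun k : ℕ => stage m e ι hι hι1
    ⟨fun w => g w, continuous_subtype_val.comp hg⟩ (1 / (k + 1 : ℝ)) (by positivity) (k + 1)
    (by positivity)
  have hT : Tendsto (fun k : ℕ => (k + 1 : ℝ)) atTop atTop :=
    tendsto_atTop_add_const_right _ 1 tendsto_natCast_atTop_atTop
  have inK : ∀ w, Tendsto (fun k => e (h k (ι w, 0) : ℝ × (Fin (m + 1) → ℝ))) atTop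
      (𝓝 (g w : S)) := by
    intro w
    rw [tendsto_iff_dist_tendsto_zero]
    refine squeeze_zero (fun _ => dist_nonneg) (fun k => (h1 k w).le) ?_
    simpa using (tendsto_one_div_add_atTop_nhds_zero_nat (𝕜 := ℝ)).const_mul 3
  refine frame e C hC h ?_ ?_
  · rintro ⟨t, y⟩
    by_cases hy : y = 0
    · subst hy
      by_cases ht : t ∈ range ι
      · obtain ⟨w, rfl⟩ := ht
        exact Or.inr ⟨_, (g w).2, inK w⟩
      · left
        have hpos := (hι.isClosed_range.notMem_iff_infDist_pos (range_nonempty ι)).1 ht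
        refine tendsto_atTop_mono' _ ?_ hT
        filter_upwards [(hT.atTop_mul_const hpos).eventually (eventually_ge_atTop 1)] with k hk
        exact h3 k t hk
    · left
      have hpos := norm_pos_iff.2 hy
      refine tendsto_atTop_mono' _ ?_ (hT.atTop_mul_const hpos)
      filter_upwards [(hT.atTop_mul_const hpos).eventually (eventually_ge_atTop 1)] with k hk
      exact h2 k t y hk
  · intro q hq _
    obtain ⟨w, hw⟩ := hgs ⟨q, hq⟩
    exact ⟨_, by simpa [hw] using inK w⟩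

theorem exists_e (n : ℕ) (V : Type) [NormedAddCommGroup V] [NormedSpace ℝ V]
    [FiniteDimensional ℝ V] (hV : Module.finrank ℝ V + 1 = n)
    (c : ↥(Metric.sphere (0 : EuclideanSpace ℝ (Fin n)) (1 : ℝ))) :
    ∃ e : OnePoint V ≃ₜ ↥(Metric.sphere (0 : EuclideanSpace ℝ (Fin n)) (1 : ℝ)), e ∞ = c := by
  have hv : ‖c.1‖ = 1 := by simp
  have hv₀ : c.1 ≠ 0 := fun contra ↦ by simp [contra] at hv
  have : Fact (Module.finrank ℝ (EuclideanSpace ℝ (Fin n)) = Module.finrank ℝ V + 1) :=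
    ⟨by simp [hV]⟩
  have hV : Module.finrank ℝ V = Module.finrank ℝ (ℝ ∙ c.1)ᗮ :=
    (Submodule.finrank_orthogonal_span_singleton hv₀).symm
  let e : V ≃ₜ (ℝ ∙ c.1)ᗮ :=
    (FiniteDimensional.nonempty_continuousLinearEquiv_of_finrank_eq hV).some
  exact ⟨e.onePointCongr.trans <| onePointHyperplaneHomeoUnitSphere hv, rfl⟩

theorem result :
    ∀ n : ℕ, 2 ≤ n →
      ∀ C : Set ↥(Metric.sphere (0 : EuclideanSpace ℝ (Fin n)) (1 : ℝ)),
        IsClosed C → C.Nonempty →
        ∃ H : ℕ → (↥(Metric.sphere (0 : EuclideanSpace ℝ (Fin n)) (1 : ℝ)) ≃ₜ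
                    ↥(Metric.sphere (0 : EuclideanSpace ℝ (Fin n)) (1 : ℝ))),
          (∀ p : ↥(Metric.sphere (0 : EuclideanSpace ℝ (Fin n)) (1 : ℝ)),
              ∃ q ∈ C, Tendsto (fun k : ℕ => H k p) atTop (𝓝 q)) ∧
          (∀ q ∈ C, ∃ p : ↥(Metric.sphere (0 : EuclideanSpace ℝ (Fin n)) (1 : ℝ)),
              Tendsto (fun k : ℕ => H k p) atTop (𝓝 q)) := by
  rintro n hn C hC ⟨c, hc⟩
  rcases hn.eq_or_lt with rfl | hn
  · obtain ⟨e, he⟩ := exists_e 2 ℝ (by simp) c
    exact oneDim e C hC (he ▸ hc)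
  · obtain ⟨m, rfl⟩ : ∃ m, n = m + 3 := ⟨n - 3, by omega⟩
    obtain ⟨e, he⟩ := exists_e (m + 3) (ℝ × (Fin (m + 1) → ℝ)) (by simp; omega) c
    exact multiDim m e C hC (he ▸ hc)

end Pool.Agent.S12835
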