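import Pool.Statements.S12849
import Pool.Agent.H.MP_1ce9e9_gt.D

set_option autoImplicit false
open Pool Pool.MP_1ce9e9_gt

namespace Pool.Agent.S12849

theorem result :
    ∃ S : Finset ℂ, S.Nonempty ∧
      ∀ N : ℕ, ∃ V : Finset ℂ, ∃ G : SimpleGraph ℂ,
        (∀ a b : ℂ, G.Adj a b → a ∈ V ∧ b ∈ V) ∧
        (∀ a b c d : ℂ, G.Adj a b → G.Adj c d →
            ¬ ((a = c ∧ b = d) ∨ (a = d ∧ b = c)) →
            ∀ x ∈ segment ℝ a b ∩ segment ℝ c d, (x = a ∨ x = b) ∧ (x = c ∨ x = d)) ∧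
        (∀ a b v : ℂ, G.Adj a b → v ∈ V → v ∈ segment ℝ a b → v = a ∨ v = b) ∧
        S ⊆ V ∧
        (∀ v ∈ V, v ∈ S ↔
            ¬ (3 ≤ (G.neighborSet v).ncard ∧
               (∑ᶠ w ∈ G.neighborSet v, (w - v) / ((‖w - v‖ : ℝ) : ℂ)) = 0)) ∧
        N < Set.ncard {v : ℂ | v ∈ V ∧ 3 ≤ (G.neighborSet v).ncard ∧
               (∑ᶠ w ∈ G.neighborSet v, (w - v) / ((‖w - v‖ : ℝ) : ℂ)) = 0} := by
  classical
  obtain ⟨T, hT⟩ : ∃ T : Finset ℝ, T = {2, 2001 / 1000, 2002 / 1000, 2003 / 1000, 2004 / 1000} :=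
    ⟨_, rfl⟩
  have hs : ∀ f : ℝ → ℕ, ∑ t ∈ T, f t =
      f 2 + f (2001 / 1000) + f (2002 / 1000) + f (2003 / 1000) + f (2004 / 1000) := by
    intro f
    rw [hT, Finset.sum_insert (by norm_num), Finset.sum_insert (by norm_num),
      Finset.sum_insert (by norm_num), Finset.sum_pair (by norm_num)]
    ring
  have hT' : ∀ t ∈ T, 2 ≤ t ∧ t ≤ 201 / 100 := by
    intro t ht
    simp only [hT, Finset.mem_insert, Finset.mem_singleton] at ht
    rcases ht with rfl | rfl | rfl | rfl | rfl <;> norm_num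
  refine ⟨(Finset.univ ×ˢ T).image fun z : Fin 3 × ℝ => H.MP_1ce9e9_gt.Pt z.1 (-z.2),
    ⟨_, Finset.mem_image.2 ⟨(0, 2), by simp [hT], rfl⟩⟩, fun N => ?_⟩
  obtain ⟨V, μ, p1, p2, p3, p4, p5, p6, p7, p8, -, p10, -⟩ := H.MP_1ce9e9_gt.net hT'
    (W0 := fun t => if t < 20015 / 10000 then 1 else 0) (W := fun _ => 1)
    (W1 := fun t => if t < 20025 / 10000 then 1 else 0)
    (by rw [hs]; norm_num) (by rw [hs]) (by rw [hs]; norm_num) (by simp) (B := 1) le_rfl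
    (fun t _ => ⟨by split_ifs <;> omega, le_rfl, by split_ifs <;> omega⟩) N
  let G : SimpleGraph ℂ :=
    { Adj := fun a b => μ a b ≠ 0
      symm := ⟨fun a b h => by rw [p2]; exact h⟩
      loopless := ⟨fun a h => (p3 a a h).1 rfl⟩ }
  have hN : ∀ v, G.neighborSet v = ↑(V.filter fun w => μ v w ≠ 0) := by
    intro v
    ext w
    simp only [SimpleGraph.mem_neighborSet, Finset.coe_filter, Set.mem_setOf_eq]
    exact ⟨fun h => ⟨(p3 v w h).2.2, h⟩, fun h => h.2⟩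
  have hS : ∀ v, (∑ᶠ w ∈ G.neighborSet v, (w - v) / ((‖w - v‖ : ℝ) : ℂ)) =
      ∑ w ∈ V.filter (fun w => μ v w ≠ 0), (μ v w : ℂ) * H.MP_1ce9e9_gt.un (w - v) := by
    intro v
    rw [hN, finsum_mem_coe_finset]
    refine Finset.sum_congr rfl fun w hw => ?_
    have h1 := (Finset.mem_filter.1 hw).2
    have h2 := p4 v w
    rw [show μ v w = 1 by omega, Nat.cast_one, one_mul]
    rfl
  have hM : ∀ v, v ∈ ((Finset.univ ×ˢ T).image fun z : Fin 3 × ℝ => H.MP_1ce9e9_gt.Pt z.1 (-z.2)) ↔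
      ∃ k, ∃ t ∈ T, v = H.MP_1ce9e9_gt.Pt k (-t) := by
    intro v
    simp only [Finset.mem_image, Finset.mem_product, Finset.mem_univ, true_and]
    exact ⟨fun ⟨z, h1, h2⟩ => ⟨z.1, z.2, h1, h2.symm⟩, fun ⟨k, t, h1, h2⟩ => ⟨(k, t), h1, h2.symm⟩⟩
  refine ⟨V, G, fun a b h => (p3 a b h).2, p5, p6, ?_, ?_, ?_⟩
  · intro v hv
    obtain ⟨k, t, h1, rfl⟩ := (hM v).1 hv
    exact p1 k t h1
  · intro v hv
    rw [hM, hS, hN, Set.ncard_coe_finset]
    constructor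
    · rintro ⟨k, t, h1, rfl⟩ h
      exact p8 k t h1 h.2
    · intro h
      by_contra hn
      exact h (p7 v hv fun k t h1 e => hn ⟨k, t, h1, e⟩)
  · refine lt_of_lt_of_le p10 ?_
    rw [← Set.ncard_coe_finset]
    refine Set.ncard_le_ncard (fun v hv => ?_) (V.finite_toSet.subset fun v hv => hv.1)
    have hv' := Finset.mem_filter.1 (Finset.mem_coe.1 hv)
    refine ⟨hv'.1, ?_⟩
    rw [hS, hN, Set.ncard_coe_finset]
    exact p7 v hv'.1 hv'.2

end Pool.Agent.S12849
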