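import Pool.Statements.S12863
import Pool.Agent.Lib.helper23.Choq

set_option autoImplicit false
open Pool Pool.MP_1e945b_gt

namespace Pool.Agent.S12863

open Set Filter Topology Pool.Agent.Lib.helper23.Choq

/-- histories in the hyperspace game -/
def HH {X H : Type} [TopologicalSpace H] (σ : List (H × Set H) → Set H) (sg : X → H) (N : X → ℕ → Set H) :
    List X → List (H × Set H) × Set H
  | [] => ([], univ)
  | y :: l => ((HH σ sg N l).1 ++ [(sg y, N y l.length ∩ interior (HH σ sg N l).2)],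
      σ ((HH σ sg N l).1 ++ [(sg y, N y l.length ∩ interior (HH σ sg N l).2)]))

theorem game {X M H : Type} [MetricSpace X] [MetricSpace M] [TopologicalSpace H]
    (e : X → M) (he : IsInducing e) (sg : X → H) (hsg : Continuous sg) (car : H → Set X)
    (hcar : ∀ A, (car A).Nonempty) (Y : Set X) (hY : IsClosed Y)
    (hN : ∀ y ∈ Y, ∀ ε > 0, ∃ N : Set H, IsOpen N ∧ sg y ∈ N ∧ ∀ A ∈ N, ∀ x ∈ car A, dist x y < ε)
    (σ : List (H × Set H) → Set H)
    (h1 : ∀ (h : List (H × Set H)) (y : H) (U : Set H), y ∈ U → IsOpen U →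
      IsOpen (σ (h ++ [(y, U)])) ∧ y ∈ σ (h ++ [(y, U)]) ∧ σ (h ++ [(y, U)]) ⊆ U)
    (h2 : ∀ p : ℕ → H × Set H, (∀ n, (p n).1 ∈ (p n).2 ∧ IsOpen (p n).2) →
      (∀ n, (p (n + 1)).2 ⊆ σ (List.ofFn (fun i : Fin (n + 1) => p i.val))) →
      (⋂ n, σ (List.ofFn (fun i : Fin (n + 1) => p i.val))).Nonempty) :
    IsGδ (e '' Y) := by
  classical
  have hN' : ∀ (y : X) (n : ℕ), ∃ N : Set H, IsOpen N ∧ (y ∈ Y → sg y ∈ N ∧
      ∀ A ∈ N, ∀ x ∈ car A, dist x y < 1 / ((n : ℝ) + 1)) := by
    intro y n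
    by_cases hy : y ∈ Y
    · obtain ⟨N, a, b⟩ := hN y hy (1 / ((n : ℝ) + 1)) (by positivity)
      exact ⟨N, a, fun _ => b⟩
    · exact ⟨univ, isOpen_univ, fun h => absurd h hy⟩
  choose N No Np using hN'
  have hO : ∀ l : List X, ∃ O : Set M, IsOpen O ∧
      e ⁻¹' O = sg ⁻¹' interior (HH σ sg N l).2 := fun l =>
    he.isOpen_iff.1 (isOpen_interior.preimage hsg)
  choose O Oo Oe using hO
  have Om : ∀ l y, e y ∈ O l ↔ sg y ∈ interior (HH σ sg N l).2 := fun l y => by
    rw [← mem_preimage, Oe l, mem_preimage]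
  have leg : ∀ l, ∀ y ∈ Y, e y ∈ O l → sg y ∈ N y l.length ∩ interior (HH σ sg N l).2 ∧
      IsOpen (N y l.length ∩ interior (HH σ sg N l).2) := fun l y hy h =>
    ⟨⟨(Np y _ hy).1, (Om l y).1 h⟩, (No _ _).inter isOpen_interior⟩
  refine choquet e Y O Oo (fun y _ => ?_) (fun l y hy h => ?_) (fun y hy x hx => ?_)
  · rw [Om]
    show sg y ∈ interior univ
    rw [interior_univ]; trivial
  · rw [Om]
    obtain ⟨a, b⟩ := leg l y hy h
    obtain ⟨c, d, -⟩ := h1 (HH σ sg N l).1 _ _ a b
    exact mem_interior.2 ⟨_, subset_rfl, c, d⟩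
  · let p : ℕ → H × Set H := fun n =>
      (sg (y n), N (y n) (hist y n).length ∩ interior (HH σ sg N (hist y n)).2)
    have hp : ∀ n, (HH σ sg N (hist y n)).1 = List.ofFn (fun i : Fin n => p i.val) := by
      intro n
      induction n with
      | zero => rfl
      | succ n ih =>
        rw [List.ofFn_succ_last]
        show (HH σ sg N (hist y n)).1 ++ [p n] = _
        rw [ih]
        rfl
    have hp2 : ∀ n, (HH σ sg N (hist y (n + 1))).2 =
        σ (List.ofFn (fun i : Fin (n + 1) => p i.val)) := by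
      intro n
      rw [← hp]
      rfl
    obtain ⟨A, hA⟩ := h2 p (fun n => leg _ _ (hy n).1 (hy n).2) (fun n => by
      rw [← hp2]
      exact inter_subset_right.trans interior_subset)
    obtain ⟨a, ha⟩ := hcar A
    have hd : ∀ n, dist a (y n) < 1 / ((n : ℝ) + 1) := by
      intro n
      have b1 := mem_iInter.1 hA n
      rw [← hp2] at b1
      obtain ⟨c, d⟩ := leg _ _ (hy n).1 (hy n).2
      have b2 := (h1 (HH σ sg N (hist y n)).1 _ _ c d).2.2 b1
      have := (Np (y n) (hist y n).length (hy n).1).2 A b2.1 a ha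
      rwa [hist_length] at this
    have ht : Tendsto y atTop (𝓝 a) := by
      rw [tendsto_iff_dist_tendsto_zero]
      refine squeeze_zero (fun _ => dist_nonneg) (fun n => ?_) tendsto_one_div_add_atTop_nhds_zero_nat
      rw [dist_comm]
      exact (hd n).le
    exact ⟨a, hY.mem_of_tendsto ht (Eventually.of_forall fun n => (hy n).1),
      tendsto_nhds_unique ((he.continuous.tendsto a).comp ht) hx⟩

theorem wij {X : Type} [m : MetricSpace X] :
    letI τ : TopologicalSpace {A : Set X // IsClosed A ∧ A.Nonempty} :=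
      ⨅ x : X, TopologicalSpace.induced
        (fun A : {A : Set X // IsClosed A ∧ A.Nonempty} => EMetric.infEdist x A.1)
        (inferInstance : TopologicalSpace ENNReal)
    Continuous (fun y : X => (⟨{y}, isClosed_singleton, singleton_nonempty y⟩ :
      {A : Set X // IsClosed A ∧ A.Nonempty})) ∧
    ∀ (w y : X) (c : ℝ), c < dist w y → ∃ N : Set {A : Set X // IsClosed A ∧ A.Nonempty},
      IsOpen N ∧ (⟨{y}, isClosed_singleton, singleton_nonempty y⟩ :
        {A : Set X // IsClosed A ∧ A.Nonempty}) ∈ N ∧ ∀ A ∈ N, ∀ x ∈ A.1, c < dist w x := by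
  constructor
  · refine continuous_iInf_rng.2 fun x => continuous_induced_rng.2 ?_
    show Continuous fun y : X => Metric.infEDist x {y}
    simp only [Metric.infEDist_singleton]
    exact continuous_const.edist continuous_id
  · intro w y c hc
    by_cases h0 : c < 0
    · exact ⟨univ, @isOpen_univ _ (_), trivial, fun A _ x _ => h0.trans_le dist_nonneg⟩
    push Not at h0
    refine ⟨(fun A => EMetric.infEdist w A.1) ⁻¹' Ioi (ENNReal.ofReal c), ?_, ?_, fun A hA x hx => ?_⟩
    · exact @IsOpen.preimage _ _ (_) _ _ (continuous_iInf_dom (i := w) continuous_induced_dom) _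
        isOpen_Ioi
    · show ENNReal.ofReal c < Metric.infEDist w {y}
      rw [Metric.infEDist_singleton, edist_dist]
      exact (ENNReal.ofReal_lt_ofReal_iff_of_nonneg h0).2 hc
    · have h1 : ENNReal.ofReal c < Metric.infEDist w A.1 := hA
      have h2 := h1.trans_le (Metric.infEDist_le_edist_of_mem hx)
      rw [edist_dist] at h2
      exact (ENNReal.ofReal_lt_ofReal_iff_of_nonneg h0).1 h2

theorem wij' {X : Type} (t : TopologicalSpace X) (m : MetricSpace X)
    (hm : m.toUniformSpace.toTopologicalSpace = t) (hs : ∀ y : X, @IsClosed X t {y}) :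
    @Continuous X {A : Set X // @IsClosed X t A ∧ A.Nonempty} t (⨅ x : X, TopologicalSpace.induced
        (fun A : {A : Set X // @IsClosed X t A ∧ A.Nonempty} =>
          @EMetric.infEdist X m.toPseudoEMetricSpace x A.1)
        (inferInstance : TopologicalSpace ENNReal))
      (fun y : X => ⟨{y}, hs y, singleton_nonempty y⟩) ∧
    ∀ (w y : X) (c : ℝ), c < m.dist w y → ∃ N : Set {A : Set X // @IsClosed X t A ∧ A.Nonempty},
      @IsOpen _ (⨅ x : X, TopologicalSpace.induced
        (fun A : {A : Set X // @IsClosed X t A ∧ A.Nonempty} =>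
          @EMetric.infEdist X m.toPseudoEMetricSpace x A.1)
        (inferInstance : TopologicalSpace ENNReal)) N ∧ (⟨{y}, hs y, singleton_nonempty y⟩ :
        {A : Set X // @IsClosed X t A ∧ A.Nonempty}) ∈ N ∧ ∀ A ∈ N, ∀ x ∈ A.1, c < m.dist w x := by
  subst hm
  exact wij

theorem assemble {X : Type} [MetricSpace X]
    (H : ∀ (z : X) (s : ℝ), 0 < s → ∀ (D : Set X) (φ : X → X), (∀ x, Dᶜ ∈ 𝓝[≠] x) →
      (∀ w ∈ D, 2 * s ≤ dist w z) → (∀ w, dist (φ w) z ≤ s) → ∀ Y : Set X, IsClosed Y →
      (∀ y ∈ Y, dist y z ≤ s ∧ ∀ ε > 0, ∃ w ∈ D, dist (φ w) y < ε) →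
      IsGδ (((↑) : X → UniformSpace.Completion X) '' Y)) :
    TopologicalSpace.IsCompletelyMetrizableSpace X := by
  let e : X → UniformSpace.Completion X := (↑)
  have hiso : Isometry e := UniformSpace.Completion.coe_isometry
  let G : Set (UniformSpace.Completion X) := ⋃₀ {V | IsOpen V ∧ IsGδ (range e ∩ V)}
  have hG : IsOpen G := isOpen_sUnion fun V hV => hV.1
  have hGd : IsGδ (range e ∩ G) := locG _
  let Z : Set X := e ⁻¹' Gᶜ
  have hZ : IsClosed Z := hG.isClosed_compl.preimage hiso.continuous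
  have key : ∀ Y : Set X, IsGδ (e '' Y) → ∀ z ∈ Z, ∀ r > 0, Z ∩ Metric.ball z r ⊆ Y → False := by
    intro Y hY z hz r hr hsub
    refine hz ⟨Metric.ball (e z) r, ⟨Metric.isOpen_ball, ?_⟩, Metric.mem_ball_self hr⟩
    have : range e ∩ Metric.ball (e z) r = ((range e ∩ G) ∪ e '' Y) ∩ Metric.ball (e z) r := by
      apply Subset.antisymm
      · rintro _ ⟨⟨x, rfl⟩, hx⟩
        refine ⟨?_, hx⟩
        by_cases hxG : e x ∈ G
        · exact Or.inl ⟨mem_range_self x, hxG⟩
        · refine Or.inr ⟨x, hsub ⟨hxG, ?_⟩, rfl⟩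
          rw [Metric.mem_ball, hiso.dist_eq] at hx
          exact hx
      · rintro x ⟨h | h, hx⟩
        · exact ⟨h.1, hx⟩
        · exact ⟨image_subset_range _ _ h, hx⟩
    rw [this]
    exact (hGd.union hY).inter Metric.isOpen_ball.isGδ
  refine complete_of_G e hiso.isEmbedding ?_
  by_cases hne : Z.Nonempty
  · exfalso
    obtain ⟨z, hz, s, hs, D, φ, a, b, c, d⟩ := discr Z hZ hne fun z hz r hr hc =>
      key _ (hc.image hiso.continuous).isClosed.isGδ z hz r hr
        (inter_subset_inter_right _ Metric.ball_subset_closedBall)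
    refine key (closure (Z ∩ Metric.ball z s)) (H z s hs D φ a b c _ isClosed_closure ?_) z hz s hs
      subset_closure
    intro y hy
    refine ⟨closure_minimal (inter_subset_right.trans Metric.ball_subset_closedBall)
      Metric.isClosed_closedBall hy, fun ε hε => ?_⟩
    obtain ⟨y', hy', h1⟩ := Metric.mem_closure_iff.1 hy (ε / 2) (half_pos hε)
    obtain ⟨w, hw, h2⟩ := d y' hy' (ε / 2) (half_pos hε)
    refine ⟨w, hw, ?_⟩
    have := dist_triangle_right (φ w) y y'
    linarith
  · have : range e ∩ G = range e := by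
      refine inter_eq_left.2 ?_
      rintro _ ⟨x, rfl⟩
      by_contra hx
      exact hne ⟨x, hx⟩
    rwa [this] at hGd

theorem result :
  ∀ (X : Type) [t : TopologicalSpace X], TopologicalSpace.MetrizableSpace X →
    (∀ (m : MetricSpace X), m.toUniformSpace.toTopologicalSpace = t →
      ∀ τ : TopologicalSpace {A : Set X // IsClosed A ∧ A.Nonempty},
        τ = ⨅ x : X, TopologicalSpace.induced
              (fun A : {A : Set X // IsClosed A ∧ A.Nonempty} =>
                @EMetric.infEdist X m.toPseudoEMetricSpace x A.1)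
              (inferInstance : TopologicalSpace ENNReal) →
        ∃ σ : List ({A : Set X // IsClosed A ∧ A.Nonempty} ×
                Set {A : Set X // IsClosed A ∧ A.Nonempty}) →
              Set {A : Set X // IsClosed A ∧ A.Nonempty},
          (∀ (h : List ({A : Set X // IsClosed A ∧ A.Nonempty} ×
                Set {A : Set X // IsClosed A ∧ A.Nonempty}))
              (y : {A : Set X // IsClosed A ∧ A.Nonempty})
              (U : Set {A : Set X // IsClosed A ∧ A.Nonempty}),
              y ∈ U → @IsOpen _ τ U →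
                @IsOpen _ τ (σ (h ++ [(y, U)])) ∧ y ∈ σ (h ++ [(y, U)]) ∧
                  σ (h ++ [(y, U)]) ⊆ U) ∧
          ∀ p : ℕ → ({A : Set X // IsClosed A ∧ A.Nonempty} ×
                Set {A : Set X // IsClosed A ∧ A.Nonempty}),
            (∀ n, (p n).1 ∈ (p n).2 ∧ @IsOpen _ τ (p n).2) →
            (∀ n, (p (n + 1)).2 ⊆ σ (List.ofFn (fun i : Fin (n + 1) => p i.val))) →
            (⋂ n, σ (List.ofFn (fun i : Fin (n + 1) => p i.val))).Nonempty) →
    ∃ m : MetricSpace X, m.toUniformSpace.toTopologicalSpace = t ∧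
      @CompleteSpace X m.toUniformSpace := by
  intro X t hm H
  obtain ⟨ρ, hρ⟩ : ∃ ρ : MetricSpace X, ρ.toUniformSpace.toTopologicalSpace = t :=
    ⟨TopologicalSpace.metrizableSpaceMetric X, rfl⟩
  subst hρ
  refine (@assemble X ρ ?_).complete
  intro z s hs D φ a b c Y hY hYd
  have hcl : ∀ y : X, IsClosed ({y} : Set X) := fun y => isClosed_singleton
  have G := fun (K : Type) (τ : TopologicalSpace K) =>
    game (X := X) (M := UniformSpace.Completion X) (H := K) (↑)
      UniformSpace.Completion.coe_isometry.isEmbedding.isInducing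
  obtain ⟨m, hm1, hm2⟩ := @antipode X ρ z s hs D φ a b c
  obtain ⟨σ, s1, s2⟩ := H m hm1 _ rfl
  have w := wij' _ m hm1 hcl
  refine G _ _ _ w.1 (fun A => A.1) (fun A => A.2.2) Y hY (fun y hy ε hε => ?_) σ s1 s2
  obtain ⟨v, c, h1, h2⟩ := hm2 y (hYd y hy).1 (hYd y hy).2 ε hε
  obtain ⟨N, n1, n2, n3⟩ := w.2 v y c h1
  exact ⟨N, n1, n2, fun A hA x hx => h2 x (n3 A hA x hx)⟩

end Pool.Agent.S12863
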