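import Pool.Statements.S12865
import Pool.Agent.Lib.helper22.APC2

set_option autoImplicit false
open Pool Pool.MP_1ef410_gt

namespace Pool.Agent.S12865

theorem result :
    ∀ (N H : Type) [Group N] [Group H] [Countable N] [Countable H] (φ : H →* MulAut N),
      (∀ d : N → N → ℝ,
        ((∀ x y, d x y = 0 ↔ x = y) ∧ (∀ x y, d x y = d y x) ∧
          (∀ x y z, d x z ≤ d x y + d y z) ∧ (∀ g x y, d (g * x) (g * y) = d x y) ∧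
          (∀ r : ℝ, {x : N | d 1 x ≤ r}.Finite)) →
        ∀ R : ℕ → ℝ, ∃ n : ℕ, ∃ U : ℕ → Set (Set N), ∃ B : ℝ,
          (∀ i < n, ∀ A ∈ U i, ∀ x ∈ A, ∀ y ∈ A, d x y ≤ B) ∧
          (∀ i < n, ∀ A ∈ U i, ∀ A' ∈ U i, A ≠ A' → ∀ x ∈ A, ∀ y ∈ A', R i < d x y) ∧
          (∀ x : N, ∃ i < n, ∃ A ∈ U i, x ∈ A)) →
      (∀ d : H → H → ℝ,
        ((∀ x y, d x y = 0 ↔ x = y) ∧ (∀ x y, d x y = d y x) ∧
          (∀ x y z, d x z ≤ d x y + d y z) ∧ (∀ g x y, d (g * x) (g * y) = d x y) ∧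
          (∀ r : ℝ, {x : H | d 1 x ≤ r}.Finite)) →
        ∀ R : ℕ → ℝ, ∃ n : ℕ, ∃ U : ℕ → Set (Set H), ∃ B : ℝ,
          (∀ i < n, ∀ A ∈ U i, ∀ x ∈ A, ∀ y ∈ A, d x y ≤ B) ∧
          (∀ i < n, ∀ A ∈ U i, ∀ A' ∈ U i, A ≠ A' → ∀ x ∈ A, ∀ y ∈ A', R i < d x y) ∧
          (∀ x : H, ∃ i < n, ∃ A ∈ U i, x ∈ A)) →
      (∀ d : (N ⋊[φ] H) → (N ⋊[φ] H) → ℝ,
        ((∀ x y, d x y = 0 ↔ x = y) ∧ (∀ x y, d x y = d y x) ∧
          (∀ x y z, d x z ≤ d x y + d y z) ∧ (∀ g x y, d (g * x) (g * y) = d x y) ∧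
          (∀ r : ℝ, {x : N ⋊[φ] H | d 1 x ≤ r}.Finite)) →
        ∀ R : ℕ → ℝ, ∃ n : ℕ, ∃ U : ℕ → Set (Set (N ⋊[φ] H)), ∃ B : ℝ,
          (∀ i < n, ∀ A ∈ U i, ∀ x ∈ A, ∀ y ∈ A, d x y ≤ B) ∧
          (∀ i < n, ∀ A ∈ U i, ∀ A' ∈ U i, A ≠ A' → ∀ x ∈ A, ∀ y ∈ A', R i < d x y) ∧
          (∀ x : N ⋊[φ] H, ∃ i < n, ∃ A ∈ U i, x ∈ A)) := by
  intro N H _ _ _ _ φ hN hH d hd R
  obtain ⟨d0, ds, dt, di, dp⟩ := hd
  have key : ∀ (K : Type) [Group K] (i : K →* N ⋊[φ] H), Function.Injective i →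
      (∀ d : K → K → ℝ,
        ((∀ x y, d x y = 0 ↔ x = y) ∧ (∀ x y, d x y = d y x) ∧
          (∀ x y z, d x z ≤ d x y + d y z) ∧ (∀ g x y, d (g * x) (g * y) = d x y) ∧
          (∀ r : ℝ, {x : K | d 1 x ≤ r}.Finite)) →
        ∀ R : ℕ → ℝ, ∃ n : ℕ, ∃ U : ℕ → Set (Set K), ∃ B : ℝ,
          (∀ i < n, ∀ A ∈ U i, ∀ x ∈ A, ∀ y ∈ A, d x y ≤ B) ∧
          (∀ i < n, ∀ A ∈ U i, ∀ A' ∈ U i, A ≠ A' → ∀ x ∈ A, ∀ y ∈ A', R i < d x y) ∧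
          (∀ x : K, ∃ i < n, ∃ A ∈ U i, x ∈ A)) → Lib.helper22.APC.APC K := by
    intro K _ i hi hK
    have hinv : ∀ g x y : K, d (i (g * x)) (i (g * y)) = d (i x) (i y) := by
      intro g x y
      rw [map_mul, map_mul, di]
    have hp : ∀ r : ℝ, {x : K | d (i 1) (i x) ≤ r}.Finite := by
      intro r
      rw [map_one]
      exact (dp r).preimage (f := i) hi.injOn
    refine Lib.helper22.APC.apc_of_metric (fun x y => d (i x) (i y)) hinv hp (fun R _ => ?_)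
    obtain ⟨n, U, B, hb, hd, hc⟩ := hK (fun x y => d (i x) (i y))
      ⟨fun x y => (d0 _ _).trans hi.eq_iff, fun x y => ds _ _, fun x y z => dt _ _ _, hinv, hp⟩ R
    exact ⟨n, U, fun i hi => ⟨B, hb i hi⟩, hd, hc⟩
  exact Lib.helper22.APC.metric_of_apc d di dp
    (Lib.helper22.APC.APC.semidirect φ
      (key N SemidirectProduct.inl SemidirectProduct.inl_injective hN)
      (key H SemidirectProduct.inr SemidirectProduct.inr_injective hH)) R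

end Pool.Agent.S12865
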