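import Pool.Statements.S12876
import Pool.Agent.H.MP_3028b5.A

set_option autoImplicit false
open Pool Pool.MP_206312_gt

namespace Pool.Agent.S12876

theorem result :
    ¬ (∃ (X : Type) (_ : TopologicalSpace X), CompactSpace X ∧ T2Space X ∧
      (∀ A : Set X, A.Nonempty → ∃ x ∈ A, ∃ U : Set X, IsOpen U ∧ U ∩ A = {x}) ∧
      (∃ (Γ : Type) (e : X → (Γ → ℝ)), Topology.IsEmbedding e ∧
        (∀ x γ, e x γ ∈ Set.Icc (0 : ℝ) 1) ∧
        Dense {x : X | ∀ ε : ℝ, 0 < ε → {γ : Γ | ε ≤ |e x γ|}.Finite}) ∧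
      ∃ f : Set.Iic (Cardinal.aleph.{0} 2).ord → X, Topology.IsEmbedding f) := by
  classical
  rintro ⟨X, _, _, _, hs, ⟨Γ, e, e1, -, e2⟩, f, hf⟩
  refine H.MP_3028b5.nocopy e1.continuous e1.injective (H.MP_3028b5.sup1 e1.continuous
    e1.injective (e2.mono fun x hx => ?_) (fun x y => if x = y then 0 else 1)
    (fun x y h => by simp [h]) ?_ fun L hL ε hε => ?_) hf.continuous hf.injective
  · refine (Set.countable_iUnion fun n : ℕ =>
      (hx _ (Nat.one_div_pos_of_nat (n := n))).countable).mono fun θ hθ => ?_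
    obtain ⟨n, hn⟩ := exists_nat_one_div_lt (abs_pos.2 hθ)
    exact Set.mem_iUnion.2 ⟨n, hn.le⟩
  · convert (isClosed_diagonal (X := X)).isOpen_compl.lowerSemicontinuous_indicator
      (zero_le_one (α := ℝ)) using 2 with p
    by_cases h : p.1 = p.2 <;> simp [Set.indicator, h]
  · obtain ⟨x, -, U, h1, h2⟩ := hs L hL
    refine ⟨U, h1, h2 ▸ Set.singleton_nonempty x, ?_⟩
    rw [h2]
    rintro _ rfl _ rfl
    simpa using hε

end Pool.Agent.S12876
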