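import Pool.Statements.S12878
import Pool.Agent.H.MP_211c6f_gt.Main

set_option autoImplicit false
open Filter Topology
open Pool Pool.MP_211c6f_gt

namespace Pool.Agent.S12878

theorem result :
    ¬ (∀ (X : Type) [MetricSpace X] [CompactSpace X] [ConnectedSpace X] [PathConnectedSpace X]
    (v : X) (E : Set X),
    (∀ K M : Set X, IsClosed K → IsConnected K → IsClosed M → IsConnected M →
      IsPreconnected (K ∩ M)) →
    (∀ w : X, (∃ γ : Fin 3 → unitInterval → X,
        (∀ i, Continuous (γ i) ∧ Function.Injective (γ i) ∧ γ i 0 = w) ∧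
        ∀ i j, i ≠ j → Set.range (γ i) ∩ Set.range (γ j) = {w}) ↔ w = v) →
    (∀ (x : ℕ → X) (y : X) (S : ℕ → Set X) (T : Set X),
      Tendsto x atTop (𝓝 y) →
      (∀ n, (x n = v ∧ S n = {v}) ∨ ∃ γ : unitInterval → X, Continuous γ ∧
        Function.Injective γ ∧ γ 0 = v ∧ γ 1 = x n ∧ Set.range γ = S n) →
      ((y = v ∧ T = {v}) ∨ ∃ γ : unitInterval → X, Continuous γ ∧
        Function.Injective γ ∧ γ 0 = v ∧ γ 1 = y ∧ Set.range γ = T) →
      Tendsto (fun n => Metric.hausdorffDist (S n) T) atTop (𝓝 0)) →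
    E = {e : X | ∀ γ : unitInterval → X, Continuous γ → Function.Injective γ →
      e ∈ Set.range γ → e = γ 0 ∨ e = γ 1} →
    Dense E →
    ∀ (a b a' b' : ℕ → X) (D D' : Setoid X),
      Function.Injective a → Function.Injective b → (∀ n, a n ∈ E ∧ b n ∈ E) →
      Disjoint (Set.range a) (Set.range b) → Dense (Set.range a) → Dense (Set.range b) →
      Function.Injective a' → Function.Injective b' → (∀ n, a' n ∈ E ∧ b' n ∈ E) →
      Disjoint (Set.range a') (Set.range b') → Dense (Set.range a') → Dense (Set.range b') →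
      D = sInf {s : Setoid X | ∀ n, s.r (a n) (b n)} →
      D' = sInf {s : Setoid X | ∀ n, s.r (a' n) (b' n)} →
      T2Space (Quotient D) → T2Space (Quotient D') →
      Nonempty (Quotient D ≃ₜ Quotient D')) := by
  intro H
  open Pool.Agent.H.MP_211c6f_gt in
  have hP := pathConn Lk_cone
  open Pool.Agent.H.MP_211c6f_gt in
  have hE : ∀ F : Finset ℕ, ep F ∈ {e : Lk | ∀ γ : unitInterval → Lk, Continuous γ →
      Function.Injective γ → e ∈ Set.range γ → e = γ 0 ∨ e = γ 1} := fun F =>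
    (endX Lk_cone (ep_NP (sa_ne_sb 0 0)) (ep F)).2 ⟨ep_ne F, ep_max F⟩
  open Pool.Agent.H.MP_211c6f_gt in
  have i1 : Function.Injective fun k => ep (sa k) := ep_inj.comp sa_inj
  open Pool.Agent.H.MP_211c6f_gt in
  have i2 : Function.Injective fun k => ep (sb k) := ep_inj.comp sb_inj
  open Pool.Agent.H.MP_211c6f_gt in
  have i3 : Function.Injective fun k => ep (sa' k) := ep_inj.comp sa'_inj
  open Pool.Agent.H.MP_211c6f_gt in
  have i4 : Function.Injective fun k => ep (sb' k) := ep_inj.comp sb'_inj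
  open Pool.Agent.H.MP_211c6f_gt in
  have n1 : ∀ i j, ep (sa i) ≠ ep (sb j) := fun i j h => sa_ne_sb i j (ep_inj h)
  open Pool.Agent.H.MP_211c6f_gt in
  have n2 : ∀ i j, ep (sa' i) ≠ ep (sb' j) := fun i j h => sa'_ne_sb' i j (ep_inj h)
  open Pool.Agent.H.MP_211c6f_gt in
  have d1 : Dense (Set.range fun k => ep (sa k)) := dense_aux 0
  open Pool.Agent.H.MP_211c6f_gt in
  have d2 : Dense (Set.range fun k => ep (sb k)) := dense_aux 1
  open Pool.Agent.H.MP_211c6f_gt in
  have d3 : Dense (Set.range fun k => ep (sa' k)) := d1.mono (by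
    rintro _ ⟨k, rfl⟩
    exact ⟨2 * k, by simp [sa']⟩)
  open Pool.Agent.H.MP_211c6f_gt in
  have d4 : Dense (Set.range fun k => ep (sb' k)) := d2.mono (by
    rintro _ ⟨k, rfl⟩
    exact ⟨2 * k, by simp [sb']⟩)
  open Pool.Agent.H.MP_211c6f_gt in
  have t1 := t2_quot (sInf {s : Setoid Lk | ∀ n, s.r (ep (sa n)) (ep (sb n))}) (by
    simp only [sInf_iff i1 i2 n1]
    exact closed_PR closed1)
  open Pool.Agent.H.MP_211c6f_gt in
  have t2 := t2_quot (sInf {s : Setoid Lk | ∀ n, s.r (ep (sa' n)) (ep (sb' n))}) (by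
    simp only [sInf_iff i3 i4 n2]
    exact closed_PR closed2)
  open Pool.Agent.H.MP_211c6f_gt in
  obtain ⟨e⟩ := @H Lk (TopologicalSpace.metrizableSpaceMetric Lk) inferInstance
    (PathConnectedSpace.connectedSpace) hP (top Lk_cone) _ (huX Lk_cone)
    (ramX Lk_cone (fun i => ep {i.1}) fun i j hij => ep_NP fun h =>
      hij (Fin.ext (Finset.singleton_injective h)))
    (@smoothX _ _ Lk_cone (TopologicalSpace.metrizableSpaceMetric Lk) rfl) rfl
    (d1.mono (by rintro _ ⟨k, rfl⟩; exact hE _))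
    (fun k => ep (sa k)) (fun k => ep (sb k)) (fun k => ep (sa' k)) (fun k => ep (sb' k)) _ _
    i1 i2 (fun n => ⟨hE _, hE _⟩)
    (Set.disjoint_left.2 (by rintro _ ⟨i, rfl⟩ ⟨j, h⟩; exact n1 i j h.symm)) d1 d2
    i3 i4 (fun n => ⟨hE _, hE _⟩)
    (Set.disjoint_left.2 (by rintro _ ⟨i, rfl⟩ ⟨j, h⟩; exact n2 i j h.symm)) d3 d4
    rfl rfl t1 t2
  open Pool.Agent.H.MP_211c6f_gt in
  exact not_PP (q := Quotient.mk _) continuous_quotient_mk' Quotient.mk_surjective
    (fun x y => Quotient.eq.trans (sInf_iff i1 i2 n1 x y))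
    ((yes_PP (q := Quotient.mk _) continuous_quotient_mk'
      (fun x y => Quotient.eq.trans (sInf_iff i3 i4 n2 x y))).map e.symm.continuous
      e.symm.injective)

end Pool.Agent.S12878
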