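import Pool.Statements.S12880
import Pool.Agent.H.MP_217de7_gt.Z

set_option autoImplicit false
open Pool Pool.MP_217de7_gt

namespace Pool.Agent.S12880

open Pool.Agent.H.MP_217de7_gt

theorem result :
    ¬ (∀ ε : ℝ, 0 < ε → ∃ N : ℕ, ∀ n : ℕ, N ≤ n →
      ∀ Z : Set (EuclideanSpace ℝ (Fin n)),
        (Z.Nonempty ∧ IsCompact Z ∧
          ∀ δ : ℝ, 0 < δ → ∃ m : ℕ, ∃ v : Fin m → EuclideanSpace ℝ (Fin n),
            Metric.hausdorffDist Z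
              {x | ∃ t : Fin m → ℝ, (∀ i, |t i| ≤ 1) ∧ x = ∑ i, t i • v i} < δ) →
        (({y | ∀ x ∈ Z, inner ℝ x y ≤ (1 : ℝ)} : Set (EuclideanSpace ℝ (Fin n))).Nonempty ∧
          IsCompact ({y | ∀ x ∈ Z, inner ℝ x y ≤ (1 : ℝ)} : Set (EuclideanSpace ℝ (Fin n))) ∧
          ∀ δ : ℝ, 0 < δ → ∃ m : ℕ, ∃ v : Fin m → EuclideanSpace ℝ (Fin n),
            Metric.hausdorffDist
              ({y | ∀ x ∈ Z, inner ℝ x y ≤ (1 : ℝ)} : Set (EuclideanSpace ℝ (Fin n)))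
              {x | ∃ t : Fin m → ℝ, (∀ i, |t i| ≤ 1) ∧ x = ∑ i, t i • v i} < δ) →
        ∃ T : EuclideanSpace ℝ (Fin n) ≃ₗ[ℝ] EuclideanSpace ℝ (Fin n),
          Metric.closedBall (0 : EuclideanSpace ℝ (Fin n)) 1 ⊆ T '' Z ∧
            T '' Z ⊆ Metric.closedBall (0 : EuclideanSpace ℝ (Fin n)) (1 + ε)) := by
  intro H
  obtain ⟨M, M', r, r', d, d', y, hy⟩ := planar
  obtain ⟨ε, h1, h0⟩ := (((ContinuousAt.eventually_lt (x₀ := (0 : ℝ)) (g := fun _ => M 1 y ^ 2 + M 1 (-y) ^ 2)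
    (f := fun ε => (1 + ε) ^ 2 * (2 * (M 1 0 ^ 2 + M 0 y ^ 2))) (by fun_prop) continuousAt_const
    (by simpa using hy)).filter_mono nhdsWithin_le_nhds).and
    (self_mem_nhdsWithin (s := Set.Ioi 0))).exists
  obtain ⟨N, hN⟩ := H ε h0
  obtain ⟨e, b⟩ := body (n := N) r' d d'
  obtain ⟨T, t1, t2⟩ := hN (N + 2) (by omega) _ b (e ▸ (body r d' d).2)
  obtain ⟨ξ, -, hξ⟩ := r.fin (n := N + 1)
  have hm : ∀ (s : ℝ) (p : EuclideanSpace ℝ (Fin (N + 2))), 0 < s →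
      (M ‖tl (s⁻¹ • p)‖ ((s⁻¹ • p) 0) ≤ 1 ↔ M ‖tl p‖ (p 0) ≤ s) := fun s p hs => by
    simp only [← hξ, real_inner_smul_right, abs_mul, abs_of_pos (inv_pos.2 hs)]
    rw [MeasureTheory.integral_const_mul, inv_mul_le_iff₀ hs, mul_one]
  have p0 : ∀ p : EuclideanSpace ℝ (Fin (N + 2)), 0 ≤ M ‖tl p‖ (p 0) := fun p => hξ p ▸ by positivity
  have e0 : 0 < 1 + ε := by linarith
  have U : ∀ p, ‖T p‖ ^ 2 ≤ (1 + ε) ^ 2 * M ‖tl p‖ (p 0) ^ 2 := fun p => by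
    rw [← mul_pow]
    refine pow_le_pow_left₀ (norm_nonneg _) ((div_le_iff₀' e0).1
      (le_of_forall_gt_imp_ge_of_dense fun s hs => ?_)) 2
    have s0 := (p0 p).trans_lt hs
    have := mem_closedBall_zero_iff.1 (t2 ⟨_, (hm s p s0).2 hs.le, rfl⟩)
    rwa [map_smul, norm_smul, norm_inv, Real.norm_of_nonneg s0.le, inv_mul_le_iff₀ s0,
      ← div_le_iff₀ e0] at this
  have L : ∀ p, M ‖tl p‖ (p 0) ^ 2 ≤ ‖T p‖ ^ 2 := fun p => by
    refine pow_le_pow_left₀ (p0 p) (le_of_forall_gt_imp_ge_of_dense fun s hs => ?_) 2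
    have s0 := (norm_nonneg _).trans_lt hs
    obtain ⟨z, hz, q⟩ := t1 (a := T (s⁻¹ • p)) (mem_closedBall_zero_iff.2 (by
      rw [map_smul, norm_smul, norm_inv, Real.norm_of_nonneg s0.le, inv_mul_le_iff₀ s0, mul_one]
      exact hs.le))
    exact (hm s p s0).1 (T.injective q ▸ hz)
  let x : EuclideanSpace ℝ (Fin (N + 1)) := EuclideanSpace.single 0 1
  have a1 := U (cs 0 x)
  have a2 := U (cs y 0)
  have a3 := L (cs 0 x + cs y 0)
  have a4 := L (cs 0 x - cs y 0)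
  rw [show tl (cs 0 x) = x from rfl] at a1
  rw [show tl (cs y 0) = 0 from rfl] at a2
  rw [show tl (cs 0 x + cs y 0) = x from add_zero x, map_add] at a3
  rw [show tl (cs 0 x - cs y 0) = x from sub_zero x, map_sub] at a4
  have := parallelogram_law_with_norm ℝ (T (cs 0 x)) (T (cs y 0))
  simp [x, cs] at a1 a2 a3 a4 this
  nlinarith

end Pool.Agent.S12880
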