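import Pool.Statements.S12881
import Pool.Agent.H.MP_21eb72_gt.C

set_option autoImplicit false
open scoped ContDiff
open Pool Pool.MP_21eb72_gt

namespace Pool.Agent.S12881

theorem result :
    ∃ M : ℕ, ∀ m : ℕ, M ≤ m → ∀ f : (Fin m → ℝ) → (Fin 2 → ℝ),
      ContDiffOn ℝ ∞ f {x : Fin m → ℝ | ∀ i, x i ∈ Set.Ioo (-1 : ℝ) 1} →
      ∃ P : AffineSubspace ℝ ((Fin m → ℝ) × (Fin 2 → ℝ)),
        Module.finrank ℝ P.direction = 2 ∧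
        ∃ S : Finset (Fin m → ℝ), S.card = 5 ∧
          ∀ x ∈ S, (∀ i, x i ∈ Set.Ioo (-1 : ℝ) 1) ∧ (x, f x) ∈ P :=
  Pool.Agent.H.MP_21eb72_gt.main

end Pool.Agent.S12881
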