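import Pool.Statements.S12910
import Pool.Agent.H.MP_26fc11_gt.C

set_option autoImplicit false
open Pool Pool.MP_26fc11_gt

namespace Pool.Agent.S12910

theorem result :
    ¬ (∃ C : ℝ, ∀ n : ℕ, 1 ≤ n → ∀ K : Set (EuclideanSpace ℝ (Fin n)),
      IsCompact K → Convex ℝ K → (interior K).Nonempty → (∀ x ∈ K, -x ∈ K) →
      ∃ u : EuclideanSpace ℝ (Fin n), ‖u‖ = 1 ∧
        MeasureTheory.volume
          {y : EuclideanSpace ℝ (Fin n) |
            ∀ x ∈ {z : EuclideanSpace ℝ (Fin n) |
                (∃ s : ℝ, z + s • u ∈ K) ∧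
                ENNReal.ofReal (2 * |inner ℝ z u|) ≤
                  MeasureTheory.volume {s : ℝ | z + s • u ∈ K}},
              inner ℝ x y ≤ (1 : ℝ)}
        ≤ ENNReal.ofReal C *
          MeasureTheory.volume
            {y : EuclideanSpace ℝ (Fin n) | ∀ x ∈ K, inner ℝ x y ≤ (1 : ℝ)}) := by
  open H.MP_26fc11_gt MeasureTheory Metric InnerProductSpace in
  rintro ⟨C, h⟩
  obtain ⟨D, hD⟩ := exists_nat_gt (max 2 (559872 * C))
  rw [max_lt_iff] at hD
  have D2 : 2 ≤ D := mod_cast hD.1.le
  obtain ⟨n, m, e⟩ := iso (D ^ 2)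
  have k : ∀ x, hs (m x) = ‖x‖ ^ 2 := fun x => by rw [← real_inner_self_eq_norm_sq, e, τh, Complex.ofReal_re]
  have b : ∀ x, ‖x‖ ≤ 1 → ‖m x‖ ≤ 1 := fun x a => nh (k x ▸ pow_le_one₀ (norm_nonneg _) a)
  have i : Fin (D ^ 2) := ⟨0, by positivity⟩
  obtain ⟨u, hu, a⟩ := h n (Nat.one_le_iff_ne_zero.2 (by
      rintro rfl
      simpa using (en i).symm.trans (congrArg (fun X => ‖X (H.MP_26fc11_gt.e i)‖) (m.symm.injective (Subsingleton.elim
        (m.symm 1) (m.symm 0))))))
    {x | ∀ y, ‖m y‖ ≤ 1 → inner ℝ x y ≤ 1} (isCompact_of_isClosed_isBounded (by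
      simp only [Set.ofPred_forall]
      exact isClosed_iInter fun y => isClosed_iInter fun _ => isClosed_le (by fun_prop) continuous_const)
      ((isBounded_closedBall (x := 0) (r := 1)).subset fun x a => by
        by_contra c
        have c := not_le.1 (mt mem_closedBall_zero_iff.2 c)
        have := a (‖x‖⁻¹ • x) (b _ (by simp [norm_smul, inv_mul_le_one₀ (one_pos.trans c)]))
        rw [real_inner_smul_right, real_inner_self_eq_norm_mul_norm, inv_mul_cancel_left₀ (one_pos.trans c).ne'] at this
        exact c.not_ge this))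
    (fun x p y q s t _ _ r z l => by
      rw [inner_add_left, real_inner_smul_left, real_inner_smul_left]
      nlinarith [p z l, q z l])
    ⟨0, mem_interior_iff_mem_nhds.2 (Filter.mem_of_superset (closedBall_mem_nhds 0 (show (0 : ℝ) < 1 / D by positivity))
      fun x p y q => (real_inner_le_norm x y).trans (by
        have := (k y).ge.trans (h1 q)
        rw [Nat.cast_pow, sq_le_sq₀ (norm_nonneg _) (by positivity)] at this
        exact (mul_le_mul (mem_closedBall_zero_iff.1 p) this (norm_nonneg _) (by positivity)).trans_eq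
          (by field_simp)))⟩
    fun x p y q => by simpa using p (-y) (by simpa)
  have me : MeasurableEmbedding m := m.toHomeomorph.measurableEmbedding
  have := m.isAddHaarMeasure_map volume
  have p := (main D2 (volume.map m) (U := m u) (by simp [k, hu])).trans (((me.map_apply _ _).trans_le (measure_mono ?_)).trans
    (a.trans (mul_le_mul_right ((measure_mono ?_).trans_eq (me.map_apply _ (closedBall 0 1)).symm) _)))
  · rw [ENNReal.mul_le_mul_iff_left (measure_closedBall_pos _ _ one_pos).ne' measure_closedBall_lt_top.ne,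
      ENNReal.ofReal_le_ofReal_iff'] at p
    rcases p with p | p <;> linarith [hD.1, hD.2]
  · rintro y ⟨v, w, p, q, r, s⟩ z ⟨f, g⟩
    obtain ⟨v, rfl⟩ := m.surjective v
    obtain ⟨w, rfl⟩ := m.surjective w
    rw [← e] at p s
    rw [m.injective (s.trans ((congrArg _ (map_smul m _ u).symm).trans (map_add m ..).symm))]
    refine steiner p (fun x a => ?_) (fun x a => ?_) f g
    exacts [a _ (by rwa [map_add]), a _ (by rwa [map_sub])]
  refine fun y p => mem_closedBall_zero_iff.2 (ContinuousLinearMap.opNorm_le_of_re_inner_le zero_le_one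
    fun v w hv hw => ?_)
  have t : ∀ z, inner ℝ (m.symm (rankOne ℂ w v)) z = (inner ℂ (m z v) w).re := fun z => by
    rw [real_inner_comm, e, m.apply_symm_apply, ContinuousLinearMap.mul_def, comp_rankOne, τr,
      ContinuousLinearMap.star_eq_adjoint, ContinuousLinearMap.adjoint_inner_right]
  exact (t y).ge.trans (p _ fun z q => (t z).trans_le ((re_inner_le_norm (𝕜 := ℂ) _ _).trans (by
    simpa [hv, hw] using (m z).le_of_opNorm_le q v)))

end Pool.Agent.S12910
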