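import Pool.Statements.S12920
-- import your own Pool.Agent.* helpers here

set_option autoImplicit false
open Pool Pool.MP_28bdbe_gt

namespace Pool.Agent.S12920

theorem result :
    ¬ (∀ K : Set (ℝ × ℝ), Convex ℝ K → IsCompact K → (interior K).Nonempty →
      ∃ f₁ f₂ f₃ f₄ : ℝ × ℝ → ℝ,
        Measurable f₁ ∧ Measurable f₂ ∧ Measurable f₃ ∧ Measurable f₄ ∧
        (∃ g₁ : ℝ → ℝ, ∀ x : ℝ × ℝ, f₁ x = g₁ x.1) ∧
        (∃ g₂ : ℝ → ℝ, ∀ x : ℝ × ℝ, f₂ x = g₂ x.2) ∧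
        (∃ g₃ : ℝ → ℝ, ∀ x : ℝ × ℝ, f₃ x = g₃ (2 * x.1 + x.2)) ∧
        (∃ g₄ : ℝ → ℝ, ∀ x : ℝ × ℝ, f₄ x = g₄ (-x.1 + 2 * x.2)) ∧
        K = {x : ℝ × ℝ | 0 ≤ f₁ x + f₂ x + f₃ x + f₄ x}) := by
  intro H
  let K : Set (ℝ × ℝ) := {x | 4 * x.1 + x.2 ≤ 17 ∧ -x.1 + 4 * x.2 ≤ 17 ∧ -4 * x.1 - x.2 ≤ 17 ∧
    x.1 - 4 * x.2 ≤ 17}
  have hc : Convex ℝ K := by
    rintro p ⟨p1, p2, p3, p4⟩ q ⟨q1, q2, q3, q4⟩ a b ha hb hab
    simp only [K, Set.mem_ofPred_eq, Prod.fst_add, Prod.smul_fst, Prod.snd_add, Prod.smul_snd,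
      smul_eq_mul]
    refine ⟨?_, ?_, ?_, ?_⟩ <;> nlinarith
  have hk : IsCompact K := by
    refine (isCompact_Icc (a := ((-5 : ℝ), (-5 : ℝ))) (b := (5, 5))).of_isClosed_subset ?_ ?_
    · simp only [K, Set.ofPred_and]
      refine IsClosed.inter ?_ (IsClosed.inter ?_ (IsClosed.inter ?_ ?_)) <;>
        exact isClosed_le (by fun_prop) (by fun_prop)
    · rintro p ⟨p1, p2, p3, p4⟩
      refine ⟨⟨?_, ?_⟩, ?_, ?_⟩ <;> simp only <;> linarith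
  have hi : (interior K).Nonempty := by
    refine ⟨0, mem_interior_iff_mem_nhds.2 (Filter.mem_of_superset
      (Metric.ball_mem_nhds 0 one_pos) fun p hp => ?_)⟩
    rw [mem_ball_zero_iff, Prod.norm_def, max_lt_iff, Real.norm_eq_abs, Real.norm_eq_abs,
      abs_lt, abs_lt] at hp
    obtain ⟨⟨a, b⟩, c, d⟩ := hp
    refine ⟨?_, ?_, ?_, ?_⟩ <;> linarith
  obtain ⟨f₁, f₂, f₃, f₄, -, -, -, -, ⟨g₁, h₁⟩, ⟨g₂, h₂⟩, ⟨g₃, h₃⟩, ⟨g₄, h₄⟩, hK⟩ := H K hc hk hi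
  have key : ∀ a b : ℝ, (4 * a + b ≤ 17 ∧ -a + 4 * b ≤ 17 ∧ -4 * a - b ≤ 17 ∧ a - 4 * b ≤ 17) ↔
      0 ≤ g₁ a + g₂ b + g₃ (2 * a + b) + g₄ (-a + 2 * b) := fun a b => by
    have := Set.ext_iff.1 hK (a, b)
    simpa only [K, Set.mem_ofPred_eq, h₁, h₂, h₃, h₄] using this
  have a1 := key 3 5
  have a2 := key (-5) 3
  have a3 := key (-3) (-5)
  have a4 := key 5 (-3)
  have a5 := key 4 1
  have a6 := key (-1) 4
  have a7 := key (-4) (-1)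
  have a8 := key 1 (-4)
  have b1 := key 1 5
  have b2 := key (-5) 1
  have b3 := key (-1) (-5)
  have b4 := key 5 (-1)
  have b5 := key 4 3
  have b6 := key (-3) 4
  have b7 := key (-4) (-3)
  have b8 := key 3 (-4)
  norm_num at a1 a2 a3 a4 a5 a6 a7 a8 b1 b2 b3 b4 b5 b6 b7 b8
  linarith

end Pool.Agent.S12920
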