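import Pool.Statements.S12922
-- import your own Pool.Agent.* helpers here

set_option autoImplicit false
open Pool Pool.MP_28e94d_gt

namespace Pool.Agent.S12922

open Set Topology Filter

def PP (H : Type) [Group H] [TopologicalSpace H] : Prop :=
  ∃ K : Subgroup H, IsCompact (K : Set H) ∧
    (∃ C : Set H, C.Countable ∧ ∀ h, ∃ c ∈ C, c⁻¹ * h ∈ K) ∧
    ∀ U ∈ 𝓝 (1 : H), ∃ V ∈ 𝓝 (1 : H), ∀ h, ∀ k ∈ K, k ∈ V → h * k * h⁻¹ ∈ U

lemma PP_compact (H : Type) [Group H] [TopologicalSpace H] [IsTopologicalGroup H]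
    [CompactSpace H] : PP H := by
  refine ⟨⊤, isCompact_univ, ⟨{1}, countable_singleton _, fun h => ⟨1, rfl, trivial⟩⟩,
    fun U hU => ?_⟩
  have := (isCompact_univ (X := H)).eventually_forall_of_forall_eventually (x₀ := (1 : H))
    (P := fun k h => h * k * h⁻¹ ∈ U) (fun y _ => by
      have hc : Continuous fun z : H × H => z.2 * z.1 * z.2⁻¹ := by fun_prop
      exact hc.continuousAt.preimage_mem_nhds (by simpa using hU))
  exact ⟨_, this, fun h k _ hk => hk h trivial⟩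

lemma PP_countable (H : Type) [Group H] [TopologicalSpace H] [Countable H] : PP H := by
  refine ⟨⊥, by simp, ⟨univ, countable_univ, fun h => ⟨h, trivial, by simp⟩⟩,
    fun U hU => ⟨univ, univ_mem, fun h k hk _ => ?_⟩⟩
  rw [Subgroup.mem_bot.1 hk]
  simpa using mem_of_mem_nhds hU

lemma PP_prod (H₁ : Type) [Group H₁] [TopologicalSpace H₁] (H₂ : Type) [Group H₂]
    [TopologicalSpace H₂] (h1 : PP H₁) (h2 : PP H₂) : PP (H₁ × H₂) := by
  obtain ⟨K, a1, ⟨C, a2, a3⟩, a4⟩ := h1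
  obtain ⟨L, b1, ⟨D, b2, b3⟩, b4⟩ := h2
  refine ⟨K.prod L, a1.prod b1, ⟨C ×ˢ D, a2.prod b2, fun h => ?_⟩, fun U hU => ?_⟩
  · obtain ⟨c, hc, hc'⟩ := a3 h.1
    obtain ⟨d, hd, hd'⟩ := b3 h.2
    exact ⟨(c, d), ⟨hc, hd⟩, hc', hd'⟩
  · obtain ⟨u, hu, v, hv, huv⟩ := mem_nhds_prod_iff.1 hU
    obtain ⟨V, hV, hV'⟩ := a4 u hu
    obtain ⟨W, hW, hW'⟩ := b4 v hv
    exact ⟨V ×ˢ W, prod_mem_nhds hV hW, fun h k hk hk' =>
      huv ⟨hV' h.1 k.1 hk.1 hk'.1, hW' h.2 k.2 hk.2 hk'.2⟩⟩

lemma PP_sub (H : Type) [Group H] [TopologicalSpace H] (L : Subgroup H)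
    (hL : IsClosed (L : Set H)) (h : PP H) : PP L := by
  classical
  obtain ⟨K, a1, ⟨C, a2, a3⟩, a4⟩ := h
  refine ⟨K.subgroupOf L, hL.isClosedEmbedding_subtypeVal.isCompact_preimage a1, ?_,
    fun U hU => ?_⟩
  · let r : H → L := fun c => if hc : ∃ l : L, c⁻¹ * l ∈ K then hc.choose else 1
    refine ⟨r '' C, a2.image r, fun l => ?_⟩
    obtain ⟨c, hc, hc'⟩ := a3 l
    have hex : ∃ l : L, c⁻¹ * l ∈ K := ⟨l, hc'⟩
    refine ⟨r c, ⟨c, hc, rfl⟩, ?_⟩
    have h1 : c⁻¹ * (r c : H) ∈ K := by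
      simp only [r, dif_pos hex]
      exact hex.choose_spec
    have := K.mul_mem (K.inv_mem h1) hc'
    rw [Subgroup.mem_subgroupOf]
    simpa [mul_assoc] using this
  · obtain ⟨U', hU', hsub⟩ := (mem_nhds_subtype _ _ _).1 hU
    obtain ⟨V, hV, hV'⟩ := a4 U' hU'
    exact ⟨Subtype.val ⁻¹' V, continuous_subtype_val.continuousAt.preimage_mem_nhds hV,
      fun h k hk hk' => hsub (hV' h k hk hk')⟩

lemma PP_img (H₁ : Type) [Group H₁] [TopologicalSpace H₁] [IsTopologicalGroup H₁] (H₂ : Type)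
    [Group H₂] [TopologicalSpace H₂] [T2Space H₂] (f : H₁ →* H₂) (hf : Continuous f)
    (hs : Function.Surjective f) (h : PP H₁) : PP H₂ := by
  obtain ⟨K, a1, ⟨C, a2, a3⟩, a4⟩ := h
  refine ⟨K.map f, by simpa using a1.image hf, ⟨f '' C, a2.image f, fun h => ?_⟩, fun U hU => ?_⟩
  · obtain ⟨h, rfl⟩ := hs h
    obtain ⟨c, hc, hc'⟩ := a3 h
    exact ⟨f c, ⟨c, hc, rfl⟩, c⁻¹ * h, hc', by simp⟩
  · obtain ⟨V, hV, hV'⟩ := a4 (f ⁻¹' U) (hf.continuousAt.preimage_mem_nhds (by simpa using hU))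
    let O : Set H₁ := ⋃ n ∈ {n | n ∈ K ∧ f n = 1}, (fun k => k * n) ⁻¹' interior V
    have hO : IsOpen O := isOpen_biUnion fun n _ =>
      isOpen_interior.preimage (continuous_id.mul continuous_const)
    have hS : IsClosed (f '' ((K : Set H₁) \ O)) := ((a1.diff hO).image hf).isClosed
    refine ⟨(f '' ((K : Set H₁) \ O))ᶜ, hS.isOpen_compl.mem_nhds ?_, ?_⟩
    · rintro ⟨k, ⟨hk, hkO⟩, e⟩
      refine hkO (mem_biUnion (x := k⁻¹) ⟨K.inv_mem hk, by simp [e]⟩ ?_)
      simpa using mem_interior_iff_mem_nhds.2 hV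
    · rintro h _ ⟨k, hk, rfl⟩ hkV
      obtain ⟨h, rfl⟩ := hs h
      have hkO : k ∈ O := by
        by_contra hh
        exact hkV ⟨k, ⟨hk, hh⟩, rfl⟩
      obtain ⟨n, ⟨hn, hn1⟩, hkn⟩ := mem_iUnion₂.1 hkO
      have := hV' h (k * n) (K.mul_mem hk hn) (interior_subset hkn)
      simpa [hn1] using this

def GG : Type := (ℤ → ZMod 2) × ℤ

instance : TopologicalSpace GG := inferInstanceAs (TopologicalSpace ((ℤ → ZMod 2) × ℤ))
instance : T2Space GG := inferInstanceAs (T2Space ((ℤ → ZMod 2) × ℤ))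
instance : SecondCountableTopology GG :=
  inferInstanceAs (SecondCountableTopology ((ℤ → ZMod 2) × ℤ))

instance : Mul GG := ⟨fun a b => (fun i => a.1 i + b.1 (i - a.2), a.2 + b.2)⟩
instance : One GG := ⟨(0, 0)⟩
instance : Inv GG := ⟨fun a => (fun i => - a.1 (i + a.2), - a.2)⟩

@[simp] lemma mul1 (a b : GG) (i : ℤ) : (a * b).1 i = a.1 i + b.1 (i - a.2) := rfl
@[simp] lemma mul2 (a b : GG) : (a * b).2 = a.2 + b.2 := rfl
@[simp] lemma one1 (i : ℤ) : (1 : GG).1 i = 0 := rfl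
@[simp] lemma one2 : (1 : GG).2 = 0 := rfl
@[simp] lemma inv1 (a : GG) (i : ℤ) : (a⁻¹).1 i = - a.1 (i + a.2) := rfl
@[simp] lemma inv2 (a : GG) : (a⁻¹).2 = - a.2 := rfl

lemma gext {a b : GG} (h1 : ∀ i, a.1 i = b.1 i) (h2 : a.2 = b.2) : a = b :=
  Prod.ext (funext h1) h2

instance : Group GG := Group.ofLeftAxioms
  (fun a b c => gext (fun i => by simp [add_assoc, sub_sub]) (by simp [add_assoc]))
  (fun a => gext (fun i => by simp) (by simp))
  (fun a => gext (fun i => by
    rw [mul1, inv1, inv2, sub_neg_eq_add, neg_add_cancel, one1]) (by simp))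

lemma ev : Continuous fun p : (ℤ → ZMod 2) × ℤ => p.1 p.2 :=
  continuous_prod_of_discrete_right.2 fun b => continuous_apply b

lemma c1 : Continuous fun a : GG => a.1 := continuous_fst
lemma c2 : Continuous fun a : GG => a.2 := continuous_snd

instance : IsTopologicalGroup GG where
  continuous_mul := by
    refine Continuous.prodMk (continuous_pi fun i => ?_)
      ((c2.comp continuous_fst).add (c2.comp continuous_snd))
    exact ((continuous_apply i).comp (c1.comp continuous_fst)).add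
      (ev.comp ((c1.comp continuous_snd).prodMk (continuous_const.sub (c2.comp continuous_fst))))
  continuous_inv := by
    refine Continuous.prodMk (continuous_pi fun i => ?_) c2.neg
    exact (ev.comp (c1.prodMk (continuous_const.add c2))).neg

def K0 : Subgroup GG where
  carrier := {a | a.2 = 0}
  one_mem' := rfl
  mul_mem' := by
    intro a b ha hb
    have ha' : a.2 = 0 := ha
    have hb' : b.2 = 0 := hb
    show a.2 + b.2 = 0
    rw [ha', hb', add_zero]
  inv_mem' := by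
    intro a ha
    have ha' : a.2 = 0 := ha
    show - a.2 = 0
    rw [ha', neg_zero]

lemma not_PP : ¬ PP GG := by
  classical
  rintro ⟨K, -, ⟨C, a2, a3⟩, a4⟩
  obtain ⟨V, hV, hV'⟩ := a4 {a | a.1 0 = 0}
    (((isOpen_discrete {0}).preimage ((continuous_apply 0).comp c1)).mem_nhds rfl)
  obtain ⟨u, hu, v, hv, huv⟩ := mem_nhds_prod_iff.1 hV
  rw [nhds_pi, Filter.mem_pi] at hu
  obtain ⟨J, hJ, t, ht, htu⟩ := hu
  obtain ⟨N, hN⟩ := hJ.bddAbove
  let e : Set ℕ → GG := fun s => (fun i => if N < i ∧ (i - N - 1).toNat ∈ s then 1 else 0, 0)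
  choose c hc hcK using a3
  have := a2.to_subtype
  have hni : ¬ Function.Injective fun s : Set ℕ => (⟨c (e s), hc _⟩ : C) := by
    intro hi
    have := hi.countable
    have h2 := Cardinal.mk_le_aleph0 (α := Set ℕ)
    rw [Cardinal.mk_set_nat] at h2
    exact absurd h2 (not_le.2 Cardinal.aleph0_lt_continuum)
  obtain ⟨s, s', hss, hne⟩ := Function.not_injective_iff.1 hni
  have hcc : c (e s) = c (e s') := congrArg Subtype.val hss
  have hk : (e s)⁻¹ * e s' ∈ K := by
    have := K.mul_mem (K.inv_mem (hcK (e s))) (hcK (e s'))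
    rw [hcc] at this
    simpa [mul_assoc] using this
  obtain ⟨n, hn⟩ : ∃ n, ¬ (n ∈ s ↔ n ∈ s') := by
    by_contra hh
    push Not at hh
    exact hne (Set.ext hh)
  have hkV : (e s)⁻¹ * e s' ∈ V := by
    refine huv ⟨htu fun i hi => ?_, ?_⟩
    · have hi' : ¬ N < i := not_lt.2 (hN hi)
      have : ((e s)⁻¹ * e s').1 i = (1 : GG).1 i := by simp [e, hi']
      rw [this]
      exact mem_of_mem_nhds (ht i)
    · have : ((e s)⁻¹ * e s').2 = (1 : GG).2 := by simp [e]
      rw [this]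
      exact mem_of_mem_nhds hv
  let h : GG := (0, -(N + 1 + n))
  have h3 : (h * ((e s)⁻¹ * e s') * h⁻¹).1 0 = 0 := hV' h _ hk hkV
  have h4 : N < N + 1 + n := by omega
  have h5 : (N + 1 + n - N - 1).toNat = n := by omega
  simp only [mul1, inv1, mul2, inv2, h, e, Pi.zero_apply, sub_neg_eq_add, zero_add, add_zero,
    neg_zero, sub_zero, h4, h5, true_and] at h3
  by_cases h6 : n ∈ s <;> by_cases h7 : n ∈ s' <;> simp [h6, h7] at h3 hn

theorem result :
    ¬ (∀ (G : Type) [Group G] [TopologicalSpace G] [IsTopologicalGroup G] [T2Space G],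
      ((∀ P : (H : Type) → [Group H] → [TopologicalSpace H] → Prop,
          (∀ (H : Type) [Group H] [TopologicalSpace H] [IsTopologicalGroup H] [T2Space H],
              CompactSpace H → TopologicalSpace.SeparableSpace H → P H) →
          (∀ (H : Type) [Group H] [TopologicalSpace H] [IsTopologicalGroup H] [T2Space H],
              Countable H → P H) →
          (∀ (H₁ : Type) [Group H₁] [TopologicalSpace H₁] [IsTopologicalGroup H₁] [T2Space H₁]
              (H₂ : Type) [Group H₂] [TopologicalSpace H₂] [IsTopologicalGroup H₂] [T2Space H₂],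
              P H₁ → P H₂ → P (H₁ × H₂)) →
          (∀ (H : Type) [Group H] [TopologicalSpace H] [IsTopologicalGroup H] [T2Space H]
              (L : Subgroup H), IsClosed (L : Set H) → P H → P L) →
          (∀ (H₁ : Type) [Group H₁] [TopologicalSpace H₁] [IsTopologicalGroup H₁] [T2Space H₁]
              (H₂ : Type) [Group H₂] [TopologicalSpace H₂] [IsTopologicalGroup H₂] [T2Space H₂]
              (f : H₁ →* H₂), Continuous f → Function.Surjective f → P H₁ → P H₂) →
          P G) ↔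
        ∃ K : Subgroup G, CompactSpace K ∧ TopologicalSpace.SeparableSpace K ∧
          Countable (G ⧸ K))) := by
  intro h
  refine not_PP ((h GG).2 ⟨K0, ?_, ?_, ?_⟩ PP
    (fun H _ _ _ _ _ _ => PP_compact H) (fun H _ _ _ _ _ => PP_countable H)
    (fun H₁ _ _ _ _ H₂ _ _ _ _ => PP_prod H₁ H₂) (fun H _ _ _ _ L => PP_sub H L)
    (fun H₁ _ _ _ _ H₂ _ _ _ _ f => PP_img H₁ H₂ f))
  · refine isCompact_iff_compactSpace.1 ?_
    have : (K0 : Set GG) = range fun x : ℤ → ZMod 2 => ((x, 0) : (ℤ → ZMod 2) × ℤ) := by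
      ext a
      constructor
      · intro ha
        exact ⟨a.1, gext (fun _ => rfl) (Eq.symm ha)⟩
      · rintro ⟨x, rfl⟩
        rfl
    rw [this]
    exact isCompact_range (by fun_prop)
  · have : SecondCountableTopology K0 :=
      TopologicalSpace.Subtype.secondCountableTopology (K0 : Set GG)
    infer_instance
  · refine Function.Surjective.countable (f := fun n : ℤ =>
      (QuotientGroup.mk (((0, n) : (ℤ → ZMod 2) × ℤ) : GG) : GG ⧸ K0)) fun q => ?_
    obtain ⟨a, rfl⟩ := QuotientGroup.mk_surjective q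
    refine ⟨a.2, QuotientGroup.eq.2 ?_⟩
    show - a.2 + a.2 = 0
    simp

end Pool.Agent.S12922
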