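import Pool.Statements.S12936
import Pool.Agent.H.MP_812062_gt.A

set_option autoImplicit false
open Pool Pool.MP_2a9133_gt

namespace Pool.Agent.S12936

theorem result :
    ¬ (∀ (X : Type) [MetricSpace X] [ConnectedSpace X],
      (⨆ (Z : Set (X × X)) (_ : IsConnected Z) (_ : Prod.snd '' Z ⊆ Prod.fst '' Z),
          ⨅ p ∈ Z, edist p.1 p.2)
        ≤ (2 : ENNReal) *
          (⨆ (Z : Set (X × X)) (_ : IsConnected Z) (_ : Prod.fst '' Z = Set.univ),
            ⨅ p ∈ Z, edist p.1 p.2)) := by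
  intro h
  obtain ⟨X, _, _, h1, Z, z1, z2, z3⟩ := Pool.Agent.H.MP_812062_gt.main
  refine z3 (le_zero_iff.1 ((le_trans ?_ (h X)).trans (le_of_eq ?_)))
  · exact le_iSup₂_of_le Z z1 (le_iSup_of_le z2.ge le_rfl)
  · exact mul_eq_zero_of_right _ (le_zero_iff.1 (iSup₂_le fun Z a => iSup_le fun b =>
      (h1 Z a b).le))

end Pool.Agent.S12936
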