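import Pool.Statements.S12946
import Pool.Agent.H.MP_2beacb.A

set_option autoImplicit false
open Pool Pool.MP_2beacb_gt

namespace Pool.Agent.S12946

theorem result :
    ¬ (∃ (Y : Type) (_ : TopologicalSpace Y), T35Space Y ∧
      (∃ g : {x : ℝ // Irrational x} → Y, Continuous g ∧ Function.Surjective g) ∧
      ∃ e : {f : {x : ℝ // Irrational x} → ℝ // Continuous f} → Y,
        Topology.IsEmbedding e) := by
  rintro ⟨Y, _, _, ⟨g, hg, hs⟩, e, he⟩
  refine Pool.Agent.H.MP_2beacb.irr ?_ e he.isInducing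
  have h1 : MeasureTheory.AnalyticSet {x : ℝ | Irrational x} :=
    IsGδ.setOfPred_irrational.measurableSet.analyticSet
  rw [MeasureTheory.AnalyticSet] at h1 ⊢
  rcases h1 with h1 | ⟨f, hf, h1⟩
  · exact absurd (h1 ▸ irrational_sqrt_two : √2 ∈ (∅ : Set ℝ)) (Set.notMem_empty _)
  · have h2 : ∀ c, Irrational (f c) := fun c => (h1 ▸ Set.mem_range_self c : f c ∈ {x : ℝ | Irrational x})
    refine Or.inr ⟨fun c => g ⟨f c, h2 c⟩, hg.comp (hf.subtype_mk _), Set.eq_univ_of_forall fun y => ?_⟩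
    obtain ⟨x, rfl⟩ := hs y
    obtain ⟨c, hc⟩ : x.1 ∈ Set.range f := h1 ▸ x.2
    exact ⟨c, congrArg g (Subtype.ext hc)⟩

end Pool.Agent.S12946
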