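import Pool.Statements.S12952
import Pool.Agent.H.MP_badb58_gt.A

set_option autoImplicit false
open Pool Pool.MP_2c91bd_gt

namespace Pool.Agent.S12952

theorem result :
    ¬ (∀ (X : Type) [TopologicalSpace X] [T0Space X],
    (∀ 𝓤 : Set (Set X), (∀ U ∈ 𝓤, IsOpen U) →
      (∀ U ∈ 𝓤, ∀ V : Set X, IsOpen V → U ⊆ V → V ∈ 𝓤) →
      (∀ 𝒟 : Set (Set X), 𝒟.Nonempty → DirectedOn (· ⊆ ·) 𝒟 →
          (∀ D ∈ 𝒟, IsOpen D) → ⋃₀ 𝒟 ∈ 𝓤 → ∃ D ∈ 𝒟, D ∈ 𝓤) →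
      ∀ U ∈ 𝓤, ∃ K : Set X, IsCompact K ∧ K ⊆ U ∧
        ∀ V : Set X, IsOpen V → K ⊆ V → V ∈ 𝓤) →
    ∀ tH : TopologicalSpace {C : Set X // IsClosed C ∧ C.Nonempty},
      tH = TopologicalSpace.generateFrom
        {S | ∃ U : Set X, IsOpen U ∧
          S = {C : {C : Set X // IsClosed C ∧ C.Nonempty} | (C.1 ∩ U).Nonempty}} →
      (∀ 𝓤 : Set (Set {C : Set X // IsClosed C ∧ C.Nonempty}),
        (∀ U ∈ 𝓤, @IsOpen _ tH U) →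
        (∀ U ∈ 𝓤, ∀ V : Set {C : Set X // IsClosed C ∧ C.Nonempty},
            @IsOpen _ tH V → U ⊆ V → V ∈ 𝓤) →
        (∀ 𝒟 : Set (Set {C : Set X // IsClosed C ∧ C.Nonempty}), 𝒟.Nonempty →
            DirectedOn (· ⊆ ·) 𝒟 →
            (∀ D ∈ 𝒟, @IsOpen _ tH D) → ⋃₀ 𝒟 ∈ 𝓤 → ∃ D ∈ 𝒟, D ∈ 𝓤) →
        ∀ U ∈ 𝓤, ∃ K : Set {C : Set X // IsClosed C ∧ C.Nonempty},
          @IsCompact _ tH K ∧ K ⊆ U ∧
          ∀ V : Set {C : Set X // IsClosed C ∧ C.Nonempty},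
            @IsOpen _ tH V → K ⊆ V → V ∈ 𝓤)) := by
  intro h
  refine H.MP_badb58_gt.not_cons_PH fun F hF => ?_
  exact h H.MP_badb58_gt.XX
    (fun F h1 h2 h3 => H.MP_badb58_gt.FC_X.cons F
      ⟨h1, fun U V hU hV h => h2 U hU V hV h, fun D h4 h5 h6 h7 => h3 D h4 h6 h5 h7⟩)
    _ rfl F hF.1 (fun U hU V hV h => hF.2.1 U V hU hV h)
    (fun D h4 h5 h6 h7 => hF.2.2 D h4 h6 h5 h7)

end Pool.Agent.S12952
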