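import Pool.Statements.S12958
import Pool.Agent.H.MP_2e0873.B

set_option autoImplicit false
open Pool Pool.MP_2e0873_gt

namespace Pool.Agent.S12958

theorem result :
    ¬ (∀ (X : Type) [TopologicalSpace X] [T35Space X],
      (∀ A : Set (X → ℝ), (∀ f ∈ A, Continuous f) → IsCompact A →
        ∃ (E : Type) (_ : NormedAddCommGroup E) (_ : NormedSpace ℝ E) (_ : CompleteSpace E)
          (e : A → WeakSpace ℝ E), Topology.IsEmbedding e) →
      ∀ (K : Type) [TopologicalSpace K] [CompactSpace K] [T2Space K],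
        ∀ B : Set (X × K → ℝ), (∀ f ∈ B, Continuous f) → IsCompact B →
          ∃ (E : Type) (_ : NormedAddCommGroup E) (_ : NormedSpace ℝ E) (_ : CompleteSpace E)
            (e : B → WeakSpace ℝ E), Topology.IsEmbedding e) := by
  open Pool.Agent.H.MP_2e0873 Set in
  intro H
  let : TopologicalSpace N := ⊥
  have : DiscreteTopology N := ⟨rfl⟩
  obtain ⟨V, _, _, _, e, he⟩ := H (X R) (fun _ => eb anti) (OnePoint N) (ph R '' B R)
    (by rintro _ ⟨A, hA, rfl⟩; exact phx R hA) ((Bc R).isCompact.image (phc R))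
  obtain ⟨c, hc⟩ := ne R (fun A => (toWeakSpace ℝ V).symm (e ⟨ph R A.1, A.1, A.2, rfl⟩))
    (fun φ => (WeakBilin.eval_continuous (topDualPairing ℝ V).flip φ).comp (he.continuous.comp
      (((phc R).comp continuous_subtype_val).subtype_mk _)))
    fun A A' h => Subtype.ext (phi R (congrArg Subtype.val (he.injective
      ((toWeakSpace ℝ V).symm.injective h))))
  obtain ⟨g, g1, g2, n, g3⟩ := nsp c
  obtain ⟨i, hi⟩ := hc g g1 g2 n
  exact hi (g3 i)

end Pool.Agent.S12958
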