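import Pool.Statements.S12961
import Pool.Agent.H.MP_2ecbc5_gt.B

set_option autoImplicit false
open Pool Pool.MP_2ecbc5_gt

namespace Pool.Agent.S12961

open Pool.Agent.H.MP_2ecbc5_gt Set Metric MeasureTheory Filter Topology TopologicalSpace

theorem result :
    ∀ (n : ℕ) (K₀ : Set (EuclideanSpace ℝ (Fin n))),
      IsCompact K₀ → Convex ℝ K₀ → (interior K₀).Nonempty →
      ∀ (u : ℕ → EuclideanSpace ℝ (Fin n)), (∀ i, ‖u i‖ = 1) →
      ∀ (K : ℕ → Set (EuclideanSpace ℝ (Fin n))), K 0 = K₀ →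
        (∀ i, K (i + 1) =
          setOf (fun y : EuclideanSpace ℝ (Fin n) =>
            ∃ x : EuclideanSpace ℝ (Fin n), ∃ t : ℝ,
              y = x + t • u i ∧ inner ℝ x (u i) = 0 ∧
              (∃ s : ℝ, x + s • u i ∈ K i) ∧
              2 * |t| ≤
                (MeasureTheory.volume (setOf (fun s : ℝ => x + s • u i ∈ K i))).toReal)) →
        ∃ (ψ : ℕ → IsometryEquiv (EuclideanSpace ℝ (Fin n)) (EuclideanSpace ℝ (Fin n)))
          (L : Set (EuclideanSpace ℝ (Fin n))),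
          IsCompact L ∧ L.Nonempty ∧
          Filter.Tendsto (fun i => Metric.hausdorffDist (ψ i '' K i) L)
            Filter.atTop (nhds 0) := by
  intro n K₀ hK hc hi u hu K h0 hs
  have hs' : ∀ i, K (i + 1) = St (u i) (K i) := hs
  obtain ⟨R, R0, hR⟩ := hK.isBounded.subset_closedBall_lt 0 0
  obtain ⟨c, hc0⟩ := hi
  obtain ⟨r, r0, hr⟩ := nhds_basis_closedBall.mem_iff.1 (mem_interior_iff_mem_nhds.1 hc0)
  have all : ∀ i, IsCompact (K i) ∧ Convex ℝ (K i) ∧ K i ⊆ closedBall 0 R ∧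
      (∃ c, closedBall c r ⊆ K i) ∧ volume (K i) = volume K₀ := by
    intro i
    induction i with
    | zero => rw [h0]; exact ⟨hK, hc, hR, ⟨c, hr⟩, rfl⟩
    | succ i ih =>
      obtain ⟨a, b, c, ⟨d, hd⟩, e⟩ := ih
      rw [hs']
      exact ⟨St_compact (hu i) a b, St_convex (hu i) a b, St_out (hu i) a b c,
        St_in (hu i) a b hd, (St_vol (hu i) a b).trans e⟩
  have ne : ∀ i, (K i).Nonempty := fun i => by
    obtain ⟨c, hc⟩ := (all i).2.2.2.1
    exact ⟨c, hc (mem_closedBall_self r0.le)⟩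
  have chain : ∀ m i, m ≤ i → ∀ L : Set (E n), IsCompact L → L.Nonempty →
      ∃ g : E n ≃ₗᵢ[ℝ] E n, I (K i) + D (g '' L) (K m) ≤ D L (K i) + I (K m) := by
    intro m i hmi
    induction i, hmi using Nat.le_induction with
    | base =>
      intro L _ _
      refine ⟨LinearIsometryEquiv.refl ℝ _, ?_⟩
      have : (LinearIsometryEquiv.refl ℝ (E n)) '' L = L := by simp
      rw [this]; linarith
    | succ i _ ih =>
      intro L hL hL'
      obtain ⟨g, hg⟩ := key_step (hu i) (all i).1 (all i).2.1 hL hL'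
      obtain ⟨g', hg'⟩ := ih (g '' L) (hL.image g.continuous) (hL'.image g)
      refine ⟨g.trans g', ?_⟩
      have : (g.trans g') '' L = g' '' (g '' L) := by rw [image_image]; rfl
      rw [this, hs']; linarith
  have chain' : ∀ m i, m ≤ i →
      ∃ g : E n ≃ₗᵢ[ℝ] E n, I (K i) + D (g '' K i) (K m) ≤ I (K m) := by
    intro m i hmi
    obtain ⟨g, hg⟩ := chain m i hmi (K i) (all i).1 (ne i)
    rw [D_self (all i).1, zero_add] at hg
    exact ⟨g, hg⟩
  have anti : Antitone fun i => I (K i) := fun m i hmi => by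
    obtain ⟨g, hg⟩ := chain' m i hmi
    have : 0 ≤ D (g '' K i) (K m) := ENNReal.toReal_nonneg
    simp only; linarith
  have bdd : BddBelow (range fun i => I (K i)) := ⟨0, by rintro _ ⟨i, rfl⟩; exact ENNReal.toReal_nonneg⟩
  have lim := tendsto_atTop_ciInf anti bdd
  have cauchy : ∀ ε > 0, ∃ N, ∀ m ≥ N, ∀ i ≥ m,
      ∃ g : E n ≃ₗᵢ[ℝ] E n, hausdorffDist (g '' K m) (K i) ≤ ε := by
    intro ε e0
    obtain ⟨η, η0, hη⟩ := close (n := n) r0 R0 (V := volume K₀) hK.measure_lt_top.ne e0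
    obtain ⟨N, hN⟩ := eventually_atTop.1 (lim.eventually_lt_const (lt_add_of_pos_right _ η0))
    refine ⟨N, fun m hm i hmi => ?_⟩
    obtain ⟨g, hg⟩ := chain' m i hmi
    have h1 := hN m hm
    have h2 := ciInf_le bdd i
    obtain ⟨a1, a2, a3, a4, a5⟩ := all m
    obtain ⟨b1, b2, b3, ⟨c', b4⟩, b5⟩ := all i
    have := hη (K m) (g '' K i) a1 (b1.image g.continuous) a2
      (b2.linear_image g.toLinearEquiv.toLinearMap) a3 (by
        rintro _ ⟨x, hx, rfl⟩
        simpa using b3 hx) a4 ⟨g c', by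
        rw [← g.image_closedBall]; exact image_mono b4⟩ a5 (by
        rw [← b5, g.image_eq_preimage_symm]
        exact g.symm.measurePreserving.measure_preimage b1.measurableSet.nullMeasurableSet)
      (by linarith)
    refine ⟨g.symm, ?_⟩
    rw [← hausdorffDist_image g.isometry, image_image]
    simpa using this
  let X : ℕ → NonemptyCompacts (E n) := fun i => ⟨⟨K i, (all i).1⟩, ne i⟩
  obtain ⟨L, -, φ, hφ, hL⟩ := (NonemptyCompacts.isCompact_subsets_of_isCompact
    (isCompact_closedBall (0 : E n) R)).tendsto_subseq (x := X) fun i => (all i).2.2.1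
  have near : ∀ ε > 0, ∃ N, ∀ m ≥ N, ∃ g : E n ≃ₗᵢ[ℝ] E n,
      hausdorffDist (g '' K m) (L : Set (E n)) ≤ ε := by
    intro ε e0
    obtain ⟨N, hN⟩ := cauchy (ε / 2) (by positivity)
    refine ⟨N, fun m hm => ?_⟩
    obtain ⟨j, hj1, hj2⟩ := ((hφ.tendsto_atTop.eventually_ge_atTop m).and
      (hL.eventually (closedBall_mem_nhds L (show 0 < ε / 2 by positivity)))).exists
    obtain ⟨g, hg⟩ := hN m hm (φ j) hj1
    refine ⟨g, ?_⟩
    have h3 : hausdorffDist (K (φ j)) (L : Set (E n)) ≤ ε / 2 := hj2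
    have := hausdorffDist_triangle' (s := g '' K m) (t := K (φ j)) (u := (L : Set (E n)))
      (hausdorffEDist_ne_top_of_nonempty_of_bounded (ne _) L.nonempty (all _).1.isBounded
        L.isCompact.isBounded)
    linarith
  have best : ∀ m : ℕ, ∃ g : E n ≃ₗᵢ[ℝ] E n, ∀ g' : E n ≃ₗᵢ[ℝ] E n,
      hausdorffDist (g '' K m) (L : Set (E n)) ≤
        hausdorffDist (g' '' K m) (L : Set (E n)) + 1 / ((m : ℝ) + 1) := by
    intro m
    have bd : BddBelow (range fun g : E n ≃ₗᵢ[ℝ] E n => hausdorffDist (g '' K m) (L : Set (E n))) :=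
      ⟨0, by rintro _ ⟨i, rfl⟩; exact hausdorffDist_nonneg⟩
    haveI : Nonempty (E n ≃ₗᵢ[ℝ] E n) := ⟨LinearIsometryEquiv.refl ℝ _⟩
    obtain ⟨g, hg⟩ := exists_lt_of_ciInf_lt (lt_add_of_pos_right
      (⨅ g : E n ≃ₗᵢ[ℝ] E n, hausdorffDist (g '' K m) (L : Set (E n)))
      (show (0 : ℝ) < 1 / ((m : ℝ) + 1) by positivity))
    exact ⟨g, fun g' => by linarith [ciInf_le bd g']⟩
  choose g hg using best
  refine ⟨fun m => (g m).toIsometryEquiv, L, L.isCompact, L.nonempty, ?_⟩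
  rw [Metric.tendsto_atTop]
  intro ε e0
  obtain ⟨N, hN⟩ := near (ε / 2) (by positivity)
  obtain ⟨M, hM⟩ := eventually_atTop.1
    (tendsto_one_div_add_atTop_nhds_zero_nat.eventually_lt_const (show (0 : ℝ) < ε / 2 by positivity))
  refine ⟨max N M, fun m hm => ?_⟩
  obtain ⟨g', hg'⟩ := hN m (le_of_max_le_left hm)
  have h1 := hM m (le_of_max_le_right hm)
  have h2 := hg m g'
  rw [Real.dist_eq, sub_zero, abs_of_nonneg hausdorffDist_nonneg]
  change hausdorffDist (g m '' K m) (L : Set (E n)) < ε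
  linarith

end Pool.Agent.S12961
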