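import Pool.Statements.S12972
-- import your own Pool.Agent.* helpers here

set_option autoImplicit false
open Pool Pool.MP_2fc951_gt

namespace Pool.Agent.S12972

/-- The negation of the preceding statement: There is a metric space X of bounded geometry (closed r-balls have uniformly bounded finite size) such that every bounded-geometry metric space Y admits a coarse embedding into X. -/
lemma cover {α : Type} (a : α) (T : Set α) (N : ℕ)
    (h : ∀ s : Finset α, (↑s : Set α) ⊆ T → s.card ≤ N) :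
    ∃ g : Fin N → α, ∀ x ∈ T, ∃ i, g i = x := by
  classical
  have hf : T.Finite := by
    by_contra hi
    obtain ⟨s, hs, hc⟩ := Set.Infinite.exists_subset_card_eq hi (N + 1)
    have := h s hs
    omega
  have hc : Fintype.card hf.toFinset ≤ Fintype.card (Fin N) := by
    simpa using h hf.toFinset (by simp)
  obtain ⟨e⟩ := Function.Embedding.nonempty_of_card_le hc
  refine ⟨fun i => if hi : ∃ y, e y = i then (hi.choose : α) else a, fun x hx => ?_⟩
  have hx' : x ∈ hf.toFinset := by simpa using hx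
  refine ⟨e ⟨x, hx'⟩, ?_⟩
  have hi : ∃ y, e y = e ⟨x, hx'⟩ := ⟨_, rfl⟩
  simp only [dif_pos hi]
  have := e.injective hi.choose_spec
  rw [this]

noncomputable def path {X : Type} {D : ℕ} (nb : X → Fin D → X) (x : X) (c : ℕ → Fin D) : ℕ → X
  | 0 => x
  | k + 1 => nb (path nb x c k) (c k)

lemma main {X : Type} [MetricSpace X]
    (hX : ∀ r : ℝ, 0 < r → ∃ N : ℕ, ∀ x : X, ∀ s : Finset X,
        (↑s : Set X) ⊆ Metric.closedBall x r → s.card ≤ N) (x0 : X) (L K n : ℕ) :
    ∃ τ : Equiv.Perm ℕ, ∀ p : ℕ → X, dist (p 0) x0 ≤ n + 1 →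
      (∀ k, dist (p (k + 1)) (p k) ≤ L + 1) →
      (∀ i, ∀ s : Finset ℕ, (∀ j ∈ s, dist (p i) (p j) ≤ L + 1) → s.card ≤ K) →
      (∀ i, dist (p i) (p (τ i)) ≤ L + 1) → False := by
  classical
  obtain ⟨A, hA⟩ := hX (n + 1) (by positivity)
  obtain ⟨D, hD⟩ := hX (L + 1) (by positivity)
  obtain ⟨st, hst⟩ := cover x0 _ A (hA x0)
  choose nb hnb using fun x => cover x _ D (hD x)
  have hD0 : 0 < D := by
    have := hD x0 {x0} (by simp; positivity)
    rw [Finset.card_singleton] at this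
    exact this
  obtain ⟨m, hm⟩ := (Nat.eventually_mul_pow_lt_factorial_sub A (D * K) 0).exists
  rw [Nat.sub_zero] at hm
  have hg : ∀ (q : ℕ → X) (i : Fin m), ∃ g : Fin K → Fin m,
      (∀ s : Finset (Fin m), (↑s : Set (Fin m)) ⊆ {j | dist (q i) (q j) ≤ L + 1} → s.card ≤ K) →
      ∀ j : Fin m, dist (q i) (q j) ≤ L + 1 → ∃ t, g t = j := by
    intro q i
    by_cases h : ∀ s : Finset (Fin m),
        (↑s : Set (Fin m)) ⊆ {j | dist (q i) (q j) ≤ L + 1} → s.card ≤ K
    · obtain ⟨g, hg⟩ := cover i _ K h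
      exact ⟨g, fun _ j hj => hg j hj⟩
    · exact ⟨fun _ => i, fun h' => absurd h' h⟩
  choose g hg using hg
  let ext : (Fin m → Fin D) → ℕ → Fin D := fun c k => if h : k < m then c ⟨k, h⟩ else ⟨0, hD0⟩
  let dec : Fin A × (Fin m → Fin D) × (Fin m → Fin K) → Fin m → Fin m :=
    fun z i => g (path nb (st z.1) (ext z.2.1)) i (z.2.2 i)
  have hσ : ∃ σ : Equiv.Perm (Fin m), ∀ z, dec z ≠ σ := by
    by_contra hc
    push Not at hc
    choose z hz using hc
    have hi : Function.Injective z := by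
      intro a b hab
      have : (a : Fin m → Fin m) = b := by rw [← hz a, ← hz b, hab]
      exact DFunLike.coe_injective this
    have := Fintype.card_le_of_injective z hi
    simp only [Fintype.card_perm, Fintype.card_fin, Fintype.card_prod, Fintype.card_fun] at this
    rw [mul_pow] at hm
    omega
  obtain ⟨σ, hσ⟩ := hσ
  refine ⟨σ.viaEmbedding Fin.valEmbedding, fun p h0 h1 h2 h3 => ?_⟩
  obtain ⟨a, ha⟩ := hst (p 0) h0
  choose c hc using fun k => hnb (p k) (p (k + 1)) (h1 k)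
  have hq : ∀ k, k ≤ m → path nb (st a) (ext fun i => c i) k = p k := by
    intro k
    induction k with
    | zero => intro _; exact ha
    | succ k ih =>
      intro hk
      have hk' : k < m := hk
      simp only [path, ih hk'.le, ext, dif_pos hk']
      exact hc k
  have hd : ∀ i : Fin m, ∃ t, g (path nb (st a) (ext fun i => c i)) i t = σ i := by
    intro i
    apply hg
    · intro s hs
      have := h2 i (s.map Fin.valEmbedding) (by
        intro j hj
        obtain ⟨j', hj', rfl⟩ := Finset.mem_map.1 hj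
        have := hs hj'
        simp only [Set.mem_ofPred_eq, hq _ i.2.le, hq _ j'.2.le] at this
        exact this)
      simpa using this
    · rw [hq _ i.2.le, hq _ (σ i).2.le]
      have := h3 i
      have e := Equiv.Perm.viaEmbedding_apply σ Fin.valEmbedding i
      simp only [Fin.valEmbedding_apply] at e
      rwa [e] at this
  choose d hd using hd
  exact hσ (a, fun i => c i, d) (funext hd)

abbrev V : Type := ℕ × ℕ

def G (τ : ℕ → Equiv.Perm ℕ) : SimpleGraph V :=
  SimpleGraph.fromRel fun u v : ℕ × ℕ =>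
    v = (u.1 + 1, u.2) ∨ v = (u.1, u.2 + 1) ∨ v = (u.1, τ u.1 u.2)

lemma G_conn (τ : ℕ → Equiv.Perm ℕ) : (G τ).Connected := by
  have h1 : ∀ a : ℕ, (G τ).Reachable ((0, 0) : ℕ × ℕ) ((a, 0) : ℕ × ℕ) := by
    intro a
    induction a with
    | zero => exact SimpleGraph.Reachable.refl _
    | succ a ih =>
      refine ih.trans (SimpleGraph.Adj.reachable ?_)
      refine (SimpleGraph.fromRel_adj _ _ _).2 ⟨?_, Or.inl (Or.inl rfl)⟩
      intro h
      have := congrArg Prod.fst h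
      simp at this
  have h2 : ∀ a b : ℕ, (G τ).Reachable ((0, 0) : ℕ × ℕ) ((a, b) : ℕ × ℕ) := by
    intro a b
    induction b with
    | zero => exact h1 a
    | succ b ih =>
      refine ih.trans (SimpleGraph.Adj.reachable ?_)
      refine (SimpleGraph.fromRel_adj _ _ _).2 ⟨?_, Or.inl (Or.inr (Or.inl rfl))⟩
      intro h
      have := congrArg Prod.snd h
      simp at this
  exact ⟨fun u v => (h2 u.1 u.2).symm.trans (h2 v.1 v.2)⟩

lemma G_nb (τ : ℕ → Equiv.Perm ℕ) (u : V) :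
    ∃ s : Finset V, s.card ≤ 7 ∧ u ∈ s ∧ ∀ v, (G τ).Adj u v → v ∈ s := by
  obtain ⟨a, b⟩ := u
  refine ⟨([(a, b), (a + 1, b), (a, b + 1), (a, τ a b), (a - 1, b), (a, b - 1),
    (a, (τ a).symm b)] : List (ℕ × ℕ)).toFinset, List.toFinset_card_le _, ?_, ?_⟩
  · exact List.mem_toFinset.2 (by simp)
  · rintro ⟨c, d⟩ h
    apply List.mem_toFinset.2
    obtain ⟨-, h⟩ := (SimpleGraph.fromRel_adj _ _ _).1 h
    rcases h with (h | h | h) | (h | h | h) <;> obtain ⟨rfl, rfl⟩ := Prod.mk.inj h <;> simp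

lemma G_ball (τ : ℕ → Equiv.Perm ℕ) (r : ℕ) : ∀ u : V,
    ∃ s : Finset V, s.card ≤ 7 ^ r ∧ ∀ v, (G τ).dist u v ≤ r → v ∈ s := by
  classical
  induction r with
  | zero =>
    intro u
    refine ⟨{u}, by simp, fun v hv => ?_⟩
    have := ((G_conn τ).dist_eq_zero_iff).1 (Nat.le_zero.1 hv)
    simp [this]
  | succ r ih =>
    intro u
    choose B hB hB' using ih
    obtain ⟨s, hs, hu, hs'⟩ := G_nb τ u
    refine ⟨s.biUnion B, ?_, fun v hv => ?_⟩
    · refine (Finset.card_biUnion_le_card_mul s B _ fun a _ => hB a).trans ?_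
      rw [pow_succ, mul_comm]
      exact Nat.mul_le_mul_left _ hs
    · obtain ⟨w, hw⟩ := (G_conn τ).exists_walk_length_eq_dist u v
      cases w with
      | nil => exact Finset.mem_biUnion.2 ⟨u, hu, hB' _ _ (by simp)⟩
      | cons h w' =>
        refine Finset.mem_biUnion.2 ⟨_, hs' _ h, hB' _ _ ?_⟩
        have := SimpleGraph.dist_le w'
        simp only [SimpleGraph.Walk.length_cons] at hw
        omega

@[reducible] noncomputable def M (τ : ℕ → Equiv.Perm ℕ) : MetricSpace V where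
  dist u v := ((G τ).dist u v : ℝ)
  dist_self u := by simp
  dist_comm u v := by rw [SimpleGraph.dist_comm]
  dist_triangle u v w := by exact_mod_cast (G_conn τ).dist_triangle
  eq_of_dist_eq_zero h := ((G_conn τ).dist_eq_zero_iff).1 (by exact_mod_cast h)

theorem result :
    ¬ (∃ (X : Type) (_ : MetricSpace X),
    (∀ r : ℝ, 0 < r → ∃ N : ℕ, ∀ x : X, ∀ s : Finset X,
        (↑s : Set X) ⊆ Metric.closedBall x r → s.card ≤ N) ∧
    ∀ (Y : Type) [MetricSpace Y],
      (∀ r : ℝ, 0 < r → ∃ N : ℕ, ∀ y : Y, ∀ s : Finset Y,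
          (↑s : Set Y) ⊆ Metric.closedBall y r → s.card ≤ N) →
      ∃ f : Y → X, ∃ ρm ρp : ℝ → ℝ,
        MonotoneOn ρm (Set.Ici 0) ∧ MonotoneOn ρp (Set.Ici 0) ∧
        (∀ t : ℝ, 0 ≤ t → 0 ≤ ρm t ∧ 0 ≤ ρp t) ∧
        Filter.Tendsto ρm Filter.atTop Filter.atTop ∧
        ∀ y y' : Y, ρm (dist y y') ≤ dist (f y) (f y') ∧
          dist (f y) (f y') ≤ ρp (dist y y')) := by
  classical
  rintro ⟨X, _, hX, hU⟩
  have hne : Nonempty X := by
    obtain ⟨f, -⟩ := hU Unit (fun r _ => ⟨1, fun y s _ => by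
      simpa using Finset.card_le_univ s⟩)
    exact ⟨f ()⟩
  obtain ⟨x0⟩ := hne
  obtain ⟨e, he⟩ := exists_surjective_nat (ℕ × ℕ × ℕ)
  choose τ' hτ' using main hX x0
  let τ : ℕ → Equiv.Perm ℕ := fun n => τ' (e n).1 (e n).2.1 ((e n).2.2 + ((e n).1 + 1) * n)
  obtain ⟨f, ρm, ρp, -, hp, -, hm, hf⟩ := @hU V (M τ) (fun r hr => ⟨7 ^ ⌈r⌉₊, fun y s hs => by
    obtain ⟨t, ht, ht'⟩ := G_ball τ ⌈r⌉₊ y
    refine (Finset.card_le_card fun v hv => ht' v ?_).trans ht
    have h1 : ((G τ).dist v y : ℝ) ≤ r := hs hv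
    rw [SimpleGraph.dist_comm]
    exact_mod_cast h1.trans (Nat.le_ceil r)⟩)
  have hf1 : ∀ u v : V, ρm ((G τ).dist u v) ≤ dist (f u) (f v) := fun u v => (hf u v).1
  have hf2 : ∀ u v : V, dist (f u) (f v) ≤ ρp ((G τ).dist u v) := fun u v => (hf u v).2
  obtain ⟨L, hL⟩ := exists_nat_ge (ρp 1)
  obtain ⟨c, hc⟩ := exists_nat_ge (dist (f (0, 0)) x0)
  obtain ⟨R, hR⟩ := Filter.eventually_atTop.1 (hm.eventually_gt_atTop ((L : ℝ) + 1))
  obtain ⟨n, hn⟩ := he (L, 7 ^ ⌈R⌉₊, c)
  have hadj : ∀ u v : V, (v = (u.1 + 1, u.2) ∨ v = (u.1, u.2 + 1) ∨ v = (u.1, τ u.1 u.2)) →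
      dist (f u) (f v) ≤ L + 1 := by
    intro u v h
    by_cases huv : u = v
    · rw [huv, dist_self]; positivity
    · have ha : (G τ).Adj u v := (SimpleGraph.fromRel_adj _ _ _).2 ⟨huv, Or.inl h⟩
      have := hf2 u v
      rw [SimpleGraph.dist_eq_one_iff_adj.2 ha, Nat.cast_one] at this
      linarith
  have h0 : ∀ k : ℕ, dist (f (k, 0)) x0 ≤ c + (L + 1) * k := by
    intro k
    induction k with
    | zero => simpa using hc
    | succ k ih =>
      have h1 := hadj (k, 0) (k + 1, 0) (Or.inl rfl)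
      have h2 := dist_triangle_left (f (k + 1, 0)) x0 (f (k, 0))
      push_cast
      linarith
  have hτ : τ n = τ' L (7 ^ ⌈R⌉₊) (c + (L + 1) * n) := by simp only [τ, hn]
  refine hτ' L (7 ^ ⌈R⌉₊) (c + (L + 1) * n) (fun k => f (n, k)) ?_ ?_ ?_ ?_
  · have := h0 n
    push_cast
    linarith
  · intro k
    rw [dist_comm]
    exact hadj (n, k) (n, k + 1) (Or.inr (Or.inl rfl))
  · intro i s hs
    obtain ⟨t, ht, ht'⟩ := G_ball τ ⌈R⌉₊ (n, i)
    have hi : Function.Injective fun j : ℕ => ((n, j) : V) := fun a b h => (Prod.mk.inj h).2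
    refine le_trans ?_ ht
    rw [← Finset.card_image_of_injective s hi]
    refine Finset.card_le_card fun v hv => ?_
    obtain ⟨j, hj, rfl⟩ := Finset.mem_image.1 hv
    apply ht'
    by_contra hlt
    push Not at hlt
    have h1 : R ≤ ((G τ).dist (n, i) (n, j) : ℝ) :=
      (Nat.le_ceil R).trans (by exact_mod_cast hlt.le)
    have h2 := hR _ h1
    have h3 := hf1 (n, i) (n, j)
    have h4 := hs j hj
    linarith
  · intro i
    rw [← hτ]
    exact hadj (n, i) (n, τ n i) (Or.inr (Or.inr rfl))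

end Pool.Agent.S12972
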