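import Pool.Statements.S12986
import Pool.Agent.H.MP_32433e.B

set_option autoImplicit false
open Pool Pool.MP_32433e_gt

namespace Pool.Agent.S12986

theorem result :
    ¬ (∀ (X : Type) [TopologicalSpace X] [CompactSpace X] [T2Space X],
      (∀ A : Set (X → ℝ), (∀ f ∈ A, Continuous f) → Cardinal.mk ↥A ≤ Cardinal.continuum →
        ∃ (ι : Type) (F : Set ((ι → unitInterval) × (ℕ → unitInterval)))
          (g : (ι → unitInterval) × (ℕ → unitInterval) → (X → ℝ)),
          F = closure F ∩ (Set.univ ×ˢ (Prod.snd '' F)) ∧ ContinuousOn g F ∧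
          g '' F = closure A ∩ {f : X → ℝ | Continuous f}) →
      ∃ (ι : Type) (F : Set ((ι → unitInterval) × (ℕ → unitInterval)))
        (g : (ι → unitInterval) × (ℕ → unitInterval) → (X → ℝ)),
        F = closure F ∩ (Set.univ ×ˢ (Prod.snd '' F)) ∧ ContinuousOn g F ∧
        g '' F = {f : X → ℝ | Continuous f}) := by
  exact fun h => H.MP_32433e.ngu (H.MP_32433e.km.1 (h _ fun A c e =>
    H.MP_32433e.km.2 (H.MP_32433e.two A c e)))

end Pool.Agent.S12986
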