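import Pool.Statements.S13000

set_option autoImplicit false
open Pool Pool.MP_34ba9c_gt

namespace Pool.Agent.S13000

open Set Filter Topology

inductive P : Type
  | inf : P
  | nd : ℕ → (ℕ → ℕ) → P
  | br : (ℕ → ℕ) → P

def node (n : ℕ) (h : ℕ → ℕ) : P := P.nd n fun i => if i < n then h i else 0

lemma node_eq {n m : ℕ} {h g : ℕ → ℕ} : node n h = node m g ↔ n = m ∧ ∀ i < n, h i = g i := by
  unfold node
  constructor
  · intro e
    injection e with e1 e2
    subst e1
    exact ⟨rfl, fun i hi => by simpa [hi] using congrFun e2 i⟩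
  · rintro ⟨rfl, e⟩
    congr 1
    funext i
    split_ifs with hi
    · exact e i hi
    · rfl

def good {Y : Type} [TopologicalSpace Y] (f : P → Y) : Prop :=
  (∀ h, Tendsto (fun n => f (node n h)) atTop (𝓝 (f (P.br h)))) ∧
    ∀ n h, Tendsto (fun m => f (node (n + 1) (Function.update h n m))) atTop (𝓝 (f P.inf))

noncomputable instance : TopologicalSpace P :=
  ⨅ f : {f : P → ℝ // good f}, TopologicalSpace.induced f.1 inferInstance

instance : CompletelyRegularSpace P :=
  completelyRegularSpace_iInf fun _ => completelyRegularSpace_induced inferInstance _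

lemma good.comp {Y Z : Type} [TopologicalSpace Y] [TopologicalSpace Z] {f : P → Y} (hf : good f)
    {g : Y → Z} (hg : Continuous g) : good (g ∘ f) :=
  ⟨fun h => (hg.tendsto _).comp (hf.1 h), fun n h => (hg.tendsto _).comp (hf.2 n h)⟩

lemma good.cont' {f : P → ℝ} (hf : good f) : Continuous f :=
  continuous_iInf_dom (i := (⟨f, hf⟩ : {f : P → ℝ // good f})) continuous_induced_dom

lemma good.cont {Y : Type} [TopologicalSpace Y] [CompletelyRegularSpace Y] {f : P → Y}
    (hf : good f) : Continuous f := by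
  refine continuous_def.2 fun K hK => isOpen_iff_forall_mem_open.2 fun x hx => ?_
  obtain ⟨g, gc, g0, g1⟩ := CompletelyRegularSpace.completely_regular_isOpen (f x) K hK hx
  have hc := (hf.comp (continuous_subtype_val.comp gc)).cont'
  refine ⟨_, fun y hy => ?_, isOpen_lt hc (continuous_const (y := (1 : ℝ))), ?_⟩
  · by_contra hn
    have := g1 (x := f y) hn
    simp [this] at hy
  · simp [g0]

lemma good_id : good (id : P → P) := by
  constructor
  · intro h
    rw [nhds_iInf, tendsto_iInf]
    intro f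
    rw [nhds_induced, tendsto_comap_iff]
    exact f.2.1 h
  · intro n h
    rw [nhds_iInf, tendsto_iInf]
    intro f
    rw [nhds_induced, tendsto_comap_iff]
    exact f.2.2 n h

lemma clop (S : Set P) (h1 : ∀ h, ∀ᶠ n in atTop, node n h ∈ S ↔ P.br h ∈ S)
    (h2 : ∀ n h, ∀ᶠ m in atTop, node (n + 1) (Function.update h n m) ∈ S ↔ P.inf ∈ S) :
    IsClopen S := by
  classical
  have hg : good fun x => decide (x ∈ S) :=
    ⟨fun h => tendsto_const_nhds.congr' ((h1 h).mono fun n hn => by simp [hn]),
      fun n h => tendsto_const_nhds.congr' ((h2 n h).mono fun n hn => by simp [hn])⟩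
  have : S = (fun x => decide (x ∈ S)) ⁻¹' {true} := by ext; simp
  rw [this]
  exact (isClopen_discrete _).preimage hg.cont

lemma clop_nd (n : ℕ) (h : ℕ → ℕ) : IsClopen {P.nd n h} := by
  refine clop _ (fun g => (eventually_gt_atTop n).mono fun k hk => ?_)
    fun k g => (eventually_gt_atTop (h k)).mono fun m hm => ?_
  · simp only [mem_singleton_iff, node, reduceCtorEq, iff_false, P.nd.injEq, not_and]
    omega
  · simp only [mem_singleton_iff, node, reduceCtorEq, iff_false, P.nd.injEq, not_and]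
    intro _ e
    have := congrFun e k
    simp at this
    omega

lemma clop_br (u : ℕ → ℕ → ℕ) (g : ℕ → ℕ) (hg : ∀ h ≠ g, ∃ j, ∀ᶠ k in atTop, u k j ≠ h j) :
    ∃ S : Set P, IsClopen S ∧ P.inf ∉ S ∧ ∀ h, P.br h ∈ S ↔ ∃ k, h = u k := by
  set S : Set P := {x | ∃ k, x = P.br (u k) ∨
    ∃ n, k ≤ n ∧ (u k ≠ g → ∃ j < n, u k j ≠ g j) ∧ x = node n (u k)} with hS
  have a1 : P.inf ∉ S := by simp [hS, node]
  have a2 (h) : P.br h ∈ S ↔ ∃ k, h = u k := by simp [hS, node]
  have a3 (n h) (hn : node n h ∈ S) : ∃ k ≤ n, (u k ≠ g → ∃ j < n, u k j ≠ g j) ∧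
      ∀ i < n, h i = u k i := by
    obtain ⟨k, e | ⟨m, km, hm, e⟩⟩ := hn
    · simp [node] at e
    · obtain ⟨rfl, e'⟩ := node_eq.1 e
      exact ⟨k, km, hm, e'⟩
  have a4 (a b : ℕ → ℕ) : ∀ᶠ n in atTop, a ≠ b → ∃ j < n, a j ≠ b j := by
    by_cases e : a = b
    · simp [e]
    · obtain ⟨j, hj⟩ := Function.ne_iff.1 e
      exact (eventually_gt_atTop j).mono fun n hn _ => ⟨j, hn, hj⟩
  refine ⟨S, clop _ (fun h => ?_) fun n h => ?_, a1, a2⟩
  · rw [a2]
    by_cases e : ∃ k, h = u k
    · obtain ⟨k, rfl⟩ := e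
      filter_upwards [eventually_ge_atTop k, a4 (u k) g] with n h1 h2
      exact iff_of_true ⟨k, Or.inr ⟨n, h1, h2, rfl⟩⟩ ⟨k, rfl⟩
    · simp only [e, iff_false]
      push Not at e
      by_cases e' : h = g
      · refine Eventually.of_forall fun n hn => ?_
        obtain ⟨k, -, h1, h2⟩ := a3 n h hn
        obtain ⟨j, hj, h3⟩ := h1 (e' ▸ (e k).symm)
        exact h3 (by rw [← h2 j hj, e'])
      · obtain ⟨j, hj⟩ := hg h e'
        obtain ⟨K, hK⟩ := eventually_atTop.1 hj
        filter_upwards [eventually_gt_atTop j, (Finset.range K).eventually_all.2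
          fun k _ => a4 h (u k)] with n h1 h2 hn
        obtain ⟨k, -, -, h3⟩ := a3 n h hn
        by_cases hk : K ≤ k
        · exact hK k hk (h3 j h1).symm
        · obtain ⟨i, hi, h4⟩ := h2 k (by simpa using hk) (e k)
          exact h4 (h3 i hi)
  · simp only [a1, iff_false]
    filter_upwards [(Finset.range (n + 2)).eventually_all.2
      fun k _ => eventually_gt_atTop (u k n)] with m h1 hn
    obtain ⟨k, hk, -, h3⟩ := a3 _ _ hn
    have := h3 n (by omega)
    have := h1 k (by simp; omega)
    simp at *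
    omega

instance : T0Space P := by
  refine ⟨fun x y hxy => ?_⟩
  have key (S : Set P) (hS : IsClopen S) : x ∈ S ↔ y ∈ S := hxy.mem_open_iff hS.isOpen
  have k2 (h : ℕ → ℕ) := clop_br (fun _ => h) h fun g hg =>
    (Function.ne_iff.1 hg).imp fun j hj => Eventually.of_forall fun _ => hj.symm
  rcases x with _ | ⟨n, h⟩ | h
  · rcases y with _ | ⟨n, h⟩ | h
    · rfl
    · simpa using key _ (clop_nd n h)
    · obtain ⟨S, h1, h2, h3⟩ := k2 h
      exact absurd ((key S h1).2 ((h3 h).2 ⟨0, rfl⟩)) h2
  · exact ((key _ (clop_nd n h)).1 rfl).symm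
  · obtain ⟨S, h1, h2, h3⟩ := k2 h
    rcases y with _ | ⟨n, g⟩ | g
    · exact absurd ((key S h1).1 ((h3 h).2 ⟨0, rfl⟩)) h2
    · exact (key _ (clop_nd n g)).2 rfl
    · obtain ⟨_, e⟩ := (h3 g).1 ((key S h1).1 ((h3 h).2 ⟨0, rfl⟩))
      rw [e]

instance : T35Space P where

lemma not_seq : ¬ SequentialSpace P := by
  classical
  intro H
  have hc : IsClosed (range P.br) := by
    refine IsSeqClosed.isClosed fun x p hx hp => ?_
    choose u hu using hx
    rcases p with _ | ⟨n, h⟩ | h
    · exfalso
      obtain ⟨L, φ, hφ, hL⟩ := CompactSpace.tendsto_subseq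
        fun k => fun q : ℕ × ℕ => decide (u k q.1 = q.2)
      have hL' (j a : ℕ) : ∀ᶠ k in atTop, decide (u (φ k) j = a) = L (j, a) := by
        have := tendsto_pi_nhds.1 hL (j, a)
        rwa [nhds_discrete, tendsto_pure] at this
      obtain ⟨S, h1, h2, h3⟩ := clop_br (fun k => u (φ k))
        (fun j => if e : ∃ a, L (j, a) = true then e.choose else 0) fun h hh => by
          obtain ⟨j, hj⟩ := Function.ne_iff.1 hh
          refine ⟨j, ?_⟩
          split_ifs at hj with e
          · filter_upwards [hL' j e.choose] with k hk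
            rw [e.choose_spec, decide_eq_true_eq] at hk
            rw [hk]
            exact hj.symm
          · filter_upwards [hL' j (h j)] with k hk e'
            exact e ⟨h j, by rw [← hk]; simpa using e'⟩
      obtain ⟨k, hk⟩ := ((hp.comp hφ.tendsto_atTop).eventually
        (h1.compl.isOpen.mem_nhds h2)).exists
      exact hk (by rw [Function.comp_apply, ← hu]; exact (h3 _).2 ⟨k, rfl⟩)
    · obtain ⟨k, hk⟩ := (hp.eventually ((clop_nd n h).isOpen.mem_nhds rfl)).exists
      rw [← hu] at hk
      cases hk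
    · exact ⟨h, rfl⟩
  obtain ⟨f, fc, f0, f1⟩ := CompletelyRegularSpace.completely_regular P.inf _ hc (by simp)
  have hg := good_id.comp (continuous_subtype_val.comp fc)
  have this (n h) : ∃ m, (f (node (n + 1) (Function.update h n m)) : ℝ) < 1 / 2 :=
    ((hg.2 n h).eventually (gt_mem_nhds (by simp [f0]))).exists
  choose c hc using this
  let H : ℕ → ℕ → ℕ := fun n => Nat.rec 0 (fun n h => Function.update h n (c n h)) n
  have HS (n) : H (n + 1) = Function.update (H n) n (c n (H n)) := rfl
  have H1 (n) : ∀ i < n, H (i + 1) i = H n i := by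
    induction n with
    | zero => simp
    | succ n ih =>
      intro i hi
      rcases (Nat.lt_succ_iff.1 hi).eq_or_lt with rfl | hi
      · rfl
      · rw [HS n, Function.update_of_ne hi.ne, ih i hi]
  have := le_of_tendsto (hg.1 fun i => H (i + 1) i) (b := 1 / 2)
    ((eventually_gt_atTop 0).mono fun n hn => by
      obtain ⟨n, rfl⟩ := Nat.exists_eq_succ_of_ne_zero hn.ne'
      rw [node_eq.2 ⟨rfl, H1 _⟩]
      exact (hc n (H n)).le)
  have e := f1 (x := P.br fun i => H (i + 1) i) ⟨_, rfl⟩
  simp [e] at this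
  norm_num at this

def SS {G : Type} [Group G] (i : P → G) : Set (ℕ → G) :=
  {u | (∃ h, u = fun n => i (node n h) * (i (P.br h))⁻¹) ∨
    ∃ n h, u = fun m => i (node (n + 1) (Function.update h n m)) * (i P.inf)⁻¹}

lemma cont_iff {G : Type} [Group G] [TopologicalSpace G] [IsTopologicalGroup G] (i : P → G) :
    Continuous i ↔ ∀ u ∈ SS i, Tendsto u atTop (𝓝 1) := by
  constructor
  · intro hi
    have hg := good_id.comp hi
    rintro u (⟨h, rfl⟩ | ⟨n, h, rfl⟩)
    · simpa using (hg.1 h).mul_const (i (P.br h))⁻¹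
    · simpa using (hg.2 n h).mul_const (i P.inf)⁻¹
  · intro H
    haveI : CompletelyRegularSpace G :=
      @UniformSpace.toCompletelyRegularSpace G (IsTopologicalGroup.rightUniformSpace G)
    refine good.cont ⟨fun h => ?_, fun n h => ?_⟩
    · simpa using (H _ (Or.inl ⟨h, rfl⟩)).mul_const (i (P.br h))
    · simpa using (H _ (Or.inr ⟨n, h, rfl⟩)).mul_const (i P.inf)

lemma sgrp {G : Type} [Group G] (i : P → G) : ∃ S : Set (ℕ → G),
    (∀ u ∈ S, Tendsto u atTop (@nhds _ (GroupTopology.coinduced i).toTopologicalSpace 1)) ∧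
    (GroupTopology.coinduced i).toTopologicalSpace = (sInf {t : GroupTopology G |
      ∀ u ∈ S, Tendsto u atTop (@nhds _ t.toTopologicalSpace 1)}).toTopologicalSpace := by
  refine ⟨SS i, (@cont_iff G _ (GroupTopology.coinduced i).toTopologicalSpace
    (GroupTopology.coinduced i).toIsTopologicalGroup i).1 (GroupTopology.coinduced_continuous i), ?_⟩
  unfold GroupTopology.coinduced
  congr 2
  ext t
  exact continuous_iff_coinduced_le.symm.trans
    (@cont_iff G _ t.toTopologicalSpace t.toIsTopologicalGroup i)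

theorem result :
    ¬ (∀ (X : Type) [TopologicalSpace X] [T35Space X] (x₀ : X)
    (τ : TopologicalSpace
      (FreeGroup X ⧸ Subgroup.normalClosure ({FreeGroup.of x₀} : Set (FreeGroup X)))),
    τ = (GroupTopology.coinduced
          (fun x : X => (QuotientGroup.mk (FreeGroup.of x) :
            FreeGroup X ⧸ Subgroup.normalClosure ({FreeGroup.of x₀} : Set (FreeGroup X))))).toTopologicalSpace →
    (∃ S : Set (ℕ → FreeGroup X ⧸ Subgroup.normalClosure ({FreeGroup.of x₀} : Set (FreeGroup X))),
      (∀ u ∈ S, Filter.Tendsto u Filter.atTop (@nhds _ τ 1)) ∧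
      τ = (sInf {t : GroupTopology
              (FreeGroup X ⧸ Subgroup.normalClosure ({FreeGroup.of x₀} : Set (FreeGroup X))) |
              ∀ u ∈ S, Filter.Tendsto u Filter.atTop (@nhds _ t.toTopologicalSpace 1)}).toTopologicalSpace) →
    SequentialSpace X) := by
  intro H
  exact not_seq (H P P.inf _ rfl (sgrp _))

end Pool.Agent.S13000
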