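import Pool.Statements.S13003
import Pool.Agent.H.MP_e9bccb.K

set_option autoImplicit false
open Pool Pool.MP_353077_gt

namespace Pool.Agent.S13003

theorem result :
  ∀ (X : Type) [TopologicalSpace X] [CompactSpace X] [T2Space X],
    (∀ A : Set X, ∃ (Y : Type) (_ : TopologicalSpace Y), CompactSpace Y ∧ T2Space Y ∧
      (∃ N : ℕ → Set {g : Y → ℝ // Continuous g},
        ∀ g : {g : Y → ℝ // Continuous g}, ∃ C : Set {g : Y → ℝ // Continuous g},
          IsCompact C ∧ g ∈ C ∧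
          ∀ U : Set {g : Y → ℝ // Continuous g}, IsOpen U → C ⊆ U →
            ∃ n : ℕ, C ⊆ N n ∧ N n ⊆ U) ∧
      ∃ f : X → Y, Continuous f ∧ f ⁻¹' (f '' A) = A) →
    (∀ A : Set (X × X), ∃ (Y : Type) (_ : TopologicalSpace Y), CompactSpace Y ∧ T2Space Y ∧
      (∃ N : ℕ → Set {g : Y → ℝ // Continuous g},
        ∀ g : {g : Y → ℝ // Continuous g}, ∃ C : Set {g : Y → ℝ // Continuous g},
          IsCompact C ∧ g ∈ C ∧
          ∀ U : Set {g : Y → ℝ // Continuous g}, IsOpen U → C ⊆ U →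
            ∃ n : ℕ, C ⊆ N n ∧ N n ⊆ U) ∧
      ∃ f : X × X → Y, Continuous f ∧ f ⁻¹' (f '' A) = A) := by
  intro X _ _ _ hX A
  obtain ⟨Γ, h, h1, h2, h3⟩ := H.MP_e9bccb.splG (X := X) fun A => by
    obtain ⟨Y, _, c, t, k, hf⟩ := hX A
    exact ⟨Y, _, c, t, H.MP_e9bccb.gu.2 (H.MP_e9bccb.GN.ls k), hf⟩
  exact ⟨X × X, _, inferInstance, inferInstance, (H.MP_e9bccb.gu.1 (H.MP_e9bccb.skP h1 h2 h3)).gn,
    id, continuous_id, by simp⟩

end Pool.Agent.S13003
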