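import Pool.Statements.S13025
import Pool.Agent.H.MP_39b482_gt.B

set_option autoImplicit false
open Pool Pool.MP_39b482_gt

namespace Pool.Agent.S13025

open Set Topology Filter Pool.Agent.H.MP_39b482_gt

theorem nested {X : Type*} [TopologicalSpace X] [T2Space X] [CompactSpace X] (S : ℕ → Set X)
    (h1 : Antitone S) (h2 : ∀ n, IsClosed (S n)) (h3 : ∀ n, IsPreconnected (S n)) :
    IsPreconnected (⋂ n, S n) := by
  refine (isPreconnected_iff_subset_of_fully_disjoint_closed (isClosed_iInter h2)).2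
    fun u v hu hv hs hd => ?_
  obtain ⟨U, V, hU, hV, h4, h5, h6⟩ := normal_separation hu hv hd
  obtain ⟨n, hn⟩ := (hU.union hV).isClosed_compl.isCompact.elim_directed_family_closed S h2
    (eq_empty_of_forall_notMem fun x hx => hx.1 (union_subset_union h4 h5 (hs hx.2)))
    (directed_of_isDirected_le h1)
  have h7 : S n ⊆ U ∪ V := fun x hx => by_contra fun h => (hn ▸ ⟨h, hx⟩ : x ∈ (∅ : Set X))
  rcases (h3 n).subset_or_subset hU hV h6 h7 with h | h
  · exact Or.inl fun x hx => (hs hx).resolve_right fun h8 =>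
      Set.disjoint_left.1 h6 (h (mem_iInter.1 hx n)) (h5 h8)
  · exact Or.inr fun x hx => (hs hx).resolve_left fun h8 =>
      Set.disjoint_left.1 h6 (h4 h8) (h (mem_iInter.1 hx n))

theorem chain {M Y : Type} [TopologicalSpace M] [TopologicalSpace Y] [T2Space Y] [CompactSpace Y]
    {ι : M → Y} (e : IsEmbedding ι) (d : DenseRange ι) (X : CompactExhaustion M) {C : ℕ → Set M}
    (h : ∀ i, IsCompact (C i) ∧ IsPreconnected (C i) ∧ (C i ∩ C (i + 1)).Nonempty ∧ C i ⊆ (X i)ᶜ)
    {W : Set Y} (w : IsOpen W) {m : ℕ} (k : ι ⁻¹' W \ X m ⊆ ⋃ i, C i) :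
    ∃ K, K ⊆ (range ι)ᶜ ∧ IsCompact K ∧ IsConnected K ∧ K ⊆ closure (ι '' ⋃ i, C i) ∧
      W ∩ (range ι)ᶜ ⊆ K := by
  have a : Antitone fun i => closure (ι '' ⋃ j ∈ Ici i, C j) := fun _ _ x =>
    closure_mono (image_mono (biUnion_subset_biUnion_left (Ici_subset_Ici.2 x)))
  refine ⟨⋂ i, closure (ι '' ⋃ j ∈ Ici i, C j), ?_,
    (isClosed_iInter fun _ => isClosed_closure).isCompact,
    ⟨IsCompact.nonempty_iInter_of_sequence_nonempty_isCompact_isClosed _
      (fun i => a i.le_succ) (fun i => ((h i).2.2.1.mono fun p x =>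
        mem_biUnion (mem_Ici.2 le_rfl) x.1).image _ |>.closure) isClosed_closure.isCompact
      fun _ => isClosed_closure, nested _ a (fun _ => isClosed_closure) fun i =>
      ((IsPreconnected.biUnion_of_chain ordConnected_Ici (fun j _ => (h j).2.1)
        fun j _ _ => (h j).2.2.1).image _ e.continuous.continuousOn).closure⟩,
    (iInter_subset _ 0).trans (closure_mono (image_mono (iUnion₂_subset_iUnion _ _))),
    fun z x => mem_iInter.2 fun i => mem_closure_iff.2 fun N o y => ?_⟩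
  · rintro _ x ⟨p, rfl⟩
    obtain ⟨i, y⟩ := X.exists_mem p
    obtain ⟨N, o, b⟩ := e.isOpen_iff.1 (isOpen_interior (s := X (i + 1)))
    obtain ⟨_, c, q, z, rfl⟩ := mem_closure_iff.1 (mem_iInter.1 x (i + 1)) N o
      (b.ge (X.subset_interior_succ i y))
    obtain ⟨j, u, v⟩ := mem_iUnion₂.1 z
    exact (h j).2.2.2 v (X.subset u (interior_subset (b.le c)))
  · obtain ⟨p, b, c⟩ := d.exists_mem_open ((o.inter w).inter (((X.isCompact m).union
      ((finite_Iio i).isCompact_biUnion fun j _ => (h j).1)).image e.continuous).isClosed.isOpen_compl)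
      ⟨z, ⟨y, x.1⟩, fun b => x.2 (image_subset_range _ _ b)⟩
    obtain ⟨j, u⟩ := mem_iUnion.1 (k ⟨b.2, fun u => c ⟨p, .inl u, rfl⟩⟩)
    exact ⟨_, b.1, p, mem_biUnion (show i ≤ j from not_lt.1 fun v => c ⟨p, .inr (mem_biUnion v u), rfl⟩)
      u, rfl⟩

theorem result :
    ∀ (n : ℕ) (M : Type) [TopologicalSpace M] [T2Space M] [SecondCountableTopology M]
      [ChartedSpace (EuclideanSpace ℝ (Fin n)) M],
      1 < n → NoncompactSpace M →
      (¬ ∃ (Y : Type) (τ : TopologicalSpace Y), CompactSpace Y ∧ T2Space Y ∧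
          ∃ f : M → Y, Topology.IsEmbedding f ∧ DenseRange f ∧ (Set.range f)ᶜ.ncard = 2) →
      (IsCompact ((Set.range (stoneCechUnit : M → StoneCech M))ᶜ) ∧
       IsConnected ((Set.range (stoneCechUnit : M → StoneCech M))ᶜ) ∧
       ∀ x ∈ (Set.range (stoneCechUnit : M → StoneCech M))ᶜ,
         ∀ y ∈ (Set.range (stoneCechUnit : M → StoneCech M))ᶜ, x ≠ y →
           ∃ K : Set (StoneCech M), K ⊆ (Set.range (stoneCechUnit : M → StoneCech M))ᶜ ∧
             IsCompact K ∧ IsConnected K ∧ y ∉ K ∧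
             ∃ U : Set (StoneCech M), IsOpen U ∧ x ∈ U ∧
               U ∩ (Set.range (stoneCechUnit : M → StoneCech M))ᶜ ⊆ K) := by
  intro n M _ _ _ _ hn _ h
  have := ChartedSpace.locallyCompactSpace (EuclideanSpace ℝ (Fin n)) M
  have := ChartedSpace.locallyConnectedSpace (EuclideanSpace ℝ (Fin n)) M
  have : Nonempty M := by_contra fun k => noncompact_univ M
    (by rw [not_nonempty_iff] at k; exact isCompact_univ)
  have E := isEmbedding_stoneCechUnit (X := M)
  obtain ⟨e, A, V, a, c⟩ := cov (n := n) (M := M)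
  let X := CompactExhaustion.choice M
  obtain ⟨C, c1, ⟨m, c2⟩, -⟩ := build h X hn a (fun p => (c p).1) isOpen_univ isClosed_univ
    Subset.rfl countable_empty
  obtain ⟨K, k1, k2, k3, -, k4⟩ := chain E denseRange_stoneCechUnit X c1 isOpen_univ c2
  obtain rfl := k1.antisymm fun z k => k4 ⟨trivial, k⟩
  refine ⟨k2, k3, fun x hx y hy xy => ?_⟩
  obtain ⟨f, f0, f1, -⟩ := exists_continuous_zero_one_of_isClosed (isClosed_singleton (x := x))
    (isClosed_singleton (x := y)) (disjoint_singleton.2 xy)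
  have fc := f.continuous.comp (continuous_stoneCechUnit (α := M))
  choose C c1 c2 T c3 c4 c5 using fun Φ : {Φ : Set ℝ // Φ.Countable} =>
    build h X hn a (fun p => (c p).1) (isOpen_lt fc (continuous_const (y := 1 / 2)))
      (isClosed_le fc (continuous_const (y := 1 / 4))) 
      (fun p k => lt_of_le_of_lt (b := (1 / 4 : ℝ)) k (by norm_num)) Φ.2
  obtain ⟨Φ, w⟩ : ∃ Φ : ℕ → {Φ : Set ℝ // Φ.Countable}, ∀ s, (Φ (s + 1)).1 = (Φ s).1 ∪ T (Φ s) :=
    ⟨fun s => s.rec ⟨∅, countable_empty⟩ fun _ Φ => ⟨_, Φ.2.union (c3 Φ)⟩, fun _ => rfl⟩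
  have d : ∀ s t r, s < t → r ∈ T (Φ s) → r ∉ T (Φ t) := fun s t r u v z =>
    disjoint_left.1 (c4 _) z (monotone_nat_of_le_succ (f := fun s => (Φ s).1)
      (fun s => w s ▸ subset_union_left) u ((w s).ge (.inr v)))
  by_contra k
  obtain ⟨ρ, r⟩ := PartitionOfUnity.exists_isSubordinate isClosed_univ
    (fun s : Fin (Fintype.card ((Fin n → Bool) × Fin n) + 1) =>
      ((⋃ i, C (Φ s) i) ∩ {p | 1 / 2 ≤ f (stoneCechUnit p)})ᶜ)
    (fun s => ((LocallyFinite.isClosed_iUnion (fun p => by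
      obtain ⟨i, u⟩ := X.exists_mem_nhds p
      exact ⟨_, u, (finite_Iio i).subset fun j ⟨q, v, z⟩ =>
        not_le.1 fun t => (c1 _ j).2.2.2 v (X.subset t z)⟩)
      fun i => (c1 _ i).1.isClosed).inter (isClosed_le continuous_const fc)).isOpen_compl)
    fun p _ => by_contra fun k => by
      simp only [mem_iUnion, not_exists, mem_compl_iff, not_not] at k
      obtain ⟨g, u⟩ := (c p).2
      have : ∀ s : Fin (Fintype.card ((Fin n → Bool) × Fin n) + 1), ∃ b : (Fin n → Bool) × Fin n,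
          e (g b.1) p b.2 ∈ T (Φ s) := fun s => by
        obtain ⟨i, l, v, z⟩ := (c5 _ (k s).1).resolve_left ((not_lt (α := ℝ)).2 (k s).2)
        obtain ⟨b, rfl⟩ := u i v
        exact ⟨(b, l), z⟩
      choose b v using this
      obtain ⟨s, t, z, q⟩ := Fintype.exists_ne_map_eq_of_card_lt b (by simp)
      rcases lt_or_gt_of_ne z with z | z
      exacts [d s t _ z (v s) (q ▸ v t), d t s _ z (v t) (q ▸ v s)]
  let g := fun s z => (stoneCechExtend (g := fun p => (⟨ρ s p, ρ.nonneg s p, ρ.le_one s p⟩ :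
    Icc (0 : ℝ) 1)) ((ρ s).continuous.subtype_mk _) z).1
  have gc : ∀ s, Continuous (g s) := fun s =>
    continuous_subtype_val.comp (continuous_stoneCechExtend _)
  have ge : ∀ s p, g s (stoneCechUnit p) = ρ s p := fun s p => by simp [g]
  have : ∀ s, g s y = 0 := fun s => by
    obtain ⟨m, c2⟩ := c2 (Φ s)
    obtain ⟨K, k1, k2, k3, k4, k5⟩ := chain E denseRange_stoneCechUnit X (c1 (Φ s))
      (isOpen_lt f.continuous (continuous_const (y := 1 / 4))) (m := m)
      fun p z => c2 ⟨le_of_lt (α := ℝ) z.1, z.2⟩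
    refine closure_minimal ?_ (isClosed_eq (gc s) continuous_const)
      ((isOpen_lt (continuous_const (y := 1 / 2)) f.continuous).inter_closure
        ⟨by simp [f1 rfl]; norm_num, k4 (by_contra fun z => k ⟨K, k1, k2, k3, z, _,
          isOpen_lt f.continuous continuous_const, by simp [f0 rfl], k5⟩)⟩)
    rintro _ ⟨z, p, q, rfl⟩
    exact (ge s p).trans (by_contra fun u => r s (subset_closure u) ⟨q, le_of_lt (α := ℝ) z⟩)
  have z := congrFun (denseRange_stoneCechUnit.equalizer (continuous_finset_sum Finset.univ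
    fun s _ => gc s) (continuous_const (y := 1)) (funext fun p => by
      simpa [ge, finsum_eq_sum_of_fintype] using ρ.sum_eq_one (mem_univ p))) y
  simp [this] at z

end Pool.Agent.S13025
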