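import Pool.Statements.S13032
import Pool.Agent.H.MP_3a0f08_gt.Main

set_option autoImplicit false
open Pool Pool.MP_3a0f08_gt

namespace Pool.Agent.S13032



theorem result :
    ¬ (∀ (G : Type) [Group G] [TopologicalSpace G] [CompactSpace G] [T2Space G]
      [MeasurableSpace G] [BorelSpace G],
      (∀ g : G, Continuous (fun x : G => g * x)) →
      ∃ μ : MeasureTheory.Measure G, MeasureTheory.IsProbabilityMeasure μ ∧
        ∀ U : Set G, IsOpen U → U.Nonempty → 0 < μ U) := by
  intro h
  obtain ⟨H, _, _, _, _, h1, O, h2, h3⟩ := Pool.Agent.H.MP_3a0f08_gt.nonccc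
  borelize H
  obtain ⟨μ, _, h4⟩ := h H h1
  have h5 := MeasureTheory.Measure.countable_meas_pos_of_disjoint_iUnion (μ := μ)
    (fun c => (h2 c).1.measurableSet) h3
  rw [Set.eq_univ_of_forall (s := {c | 0 < μ (O c)}) fun c => h4 _ (h2 c).1 (h2 c).2,
    Set.countable_univ_iff, ← Cardinal.mk_le_aleph0_iff] at h5
  simp only [Cardinal.mk_pi, Cardinal.mk_fintype, Fintype.card_bool, Nat.cast_ofNat,
    Cardinal.prod_const, Cardinal.lift_ofNat, Cardinal.mk_nat, Cardinal.lift_aleph0] at h5
  exact (Cardinal.cantor _).not_ge h5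

end Pool.Agent.S13032
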