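import Pool.Statements.S13033
import Pool.Agent.H.MP_3a8a48_gt.D

set_option autoImplicit false
open Pool Pool.MP_3a8a48_gt

namespace Pool.Agent.S13033

theorem result :
    ∀ m : ℕ, 2 ≤ m → ∀ n : ℕ, n < m →
    ∀ K : Set (EuclideanSpace ℝ (Fin m)),
      IsCompact K → Convex ℝ K → (interior K).Nonempty →
      ∀ a : ℕ → ℝ, ∀ b : Fin m → ℕ → ℝ,
        (∀ t : ℝ, 0 ≤ t →
          (MeasureTheory.volume (Metric.cthickening t K)).toReal =
            ∑ j ∈ Finset.range (m + 1),
              (MeasureTheory.volume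
                (Metric.ball (0 : EuclideanSpace ℝ (Fin (m - j))) 1)).toReal
                * a j * t ^ (m - j)) →
        (∀ i : Fin m, ∀ t : ℝ, 0 ≤ t →
          (MeasureTheory.volume (Metric.cthickening t
            ((fun x : EuclideanSpace ℝ (Fin m) =>
                x - (inner ℝ x (EuclideanSpace.single i (1 : ℝ))) •
                  EuclideanSpace.single i (1 : ℝ)) '' K))).toReal =
            ∑ j ∈ Finset.range (m + 1),
              (MeasureTheory.volume
                (Metric.ball (0 : EuclideanSpace ℝ (Fin (m - j))) 1)).toReal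
                * b i j * t ^ (m - j)) →
        ((m : ℝ) - (n : ℝ)) * a n ≤ ∑ i : Fin m, b i n := by
  intro m hm n hn K hK1 hK2 hK3 a b ha hb
  obtain ⟨r, rfl⟩ : ∃ r, m = r + 1 := ⟨m - 1, by omega⟩
  let κ : ℕ → ℝ := fun c =>
    (MeasureTheory.volume (Metric.ball (0 : EuclideanSpace ℝ (Fin c)) 1)).toReal
  have hκ : ∀ c, 0 < κ c := fun c => ENNReal.toReal_pos
    (Metric.measure_ball_pos _ _ one_pos).ne' MeasureTheory.measure_ball_lt_top.ne
  have hre : ∀ (u : ℕ → ℝ) (t : ℝ),
      ∑ j ∈ Finset.range (r + 1 + 1), κ (r + 1 - j) * u j * t ^ (r + 1 - j) =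
      ∑ c ∈ Finset.range (r + 1 + 1), (κ c * u (r + 1 - c)) * t ^ c := by
    intro u t
    rw [← Finset.sum_flip]
    refine Finset.sum_congr rfl fun c hc => ?_
    have : r + 1 - (r + 1 - c) = c := by have := Finset.mem_range.mp hc; omega
    rw [this]
  have h := Pool.Agent.CG.main K ⟨hK1, hK2, hK3.mono interior_subset⟩
    (fun c => κ c * a (r + 1 - c)) (fun i c => κ c * b i (r + 1 - c))
    (fun t ht => (ha t ht).trans (hre a t)) (fun i t ht => (hb i t ht).trans (hre (b i) t))
    (r + 1 - n) (by omega)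
  have e1 : r + 1 - (r + 1 - n) = n := by omega
  simp only [e1] at h
  rw [← Finset.mul_sum, mul_left_comm, Nat.cast_sub hn.le] at h
  exact le_of_mul_le_mul_left h (hκ _)

end Pool.Agent.S13033
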