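import Pool.Statements.S13035
import Pool.Agent.H.MP_3ae40e_gt.B

set_option autoImplicit false
open Pool Pool.MP_3ae40e_gt

namespace Pool.Agent.S13035

theorem result :
    ∀ (X : Type) [TopologicalSpace X] [TopologicalSpace.MetrizableSpace X]
      [CompactSpace X] [ConnectedSpace X] [Nontrivial X],
      (∀ A B : Set X, IsCompact A → IsConnected A → (interior A).Nonempty →
        IsCompact B → IsConnected B → (interior B).Nonempty → (A ∩ B).Nonempty) →
      (¬ ∃ x p q : X, p ≠ x ∧ q ≠ x ∧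
        ∀ K : Set X, IsCompact K → IsConnected K → p ∈ K → q ∈ K → x ∈ K) →
      ∃ 𝒯 : Set (Set X), ¬ 𝒯.Countable ∧ 𝒯.PairwiseDisjoint id ∧
        ∀ T ∈ 𝒯, IsCompact T ∧ IsConnected T ∧
          ∃ Z : Set X, Z ⊆ T ∧ IsCompact Z ∧ IsConnected Z ∧
            ∃ A B C : Set X, A.Nonempty ∧ B.Nonempty ∧ C.Nonempty ∧
              T \ Z = A ∪ B ∪ C ∧
              closure A ∩ B = ∅ ∧ A ∩ closure B = ∅ ∧
              closure A ∩ C = ∅ ∧ A ∩ closure C = ∅ ∧
              closure B ∩ C = ∅ ∧ B ∩ closure C = ∅ := by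
  intro X _ _ _ _ _ h1 h2
  by_contra n
  push Not at h2
  letI := TopologicalSpace.metrizableSpaceMetric X
  obtain ⟨F, f1, f2, f3⟩ := H.MP_3ae40e_gt.fam (X := X)
  refine H.MP_3ae40e_gt.Hy.no ⟨f1, f2, f3, fun A B a1 a2 b1 b2 =>
    h1 A B a1.1.isCompact a1.2 a2 b1.1.isCompact b1.2 b2, fun x p q hp hq => ?_,
    fun T t1 t2 => by_contra fun k => n ⟨T, k, t1, t2⟩, fun x => IsNowhereDense.isMeagre
      (isClosed_singleton.isNowhereDense_iff.2 (interior_singleton x))⟩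
  obtain ⟨K, k1, k2, k3⟩ := h2 x p q hp hq
  exact ⟨K, ⟨k1.isClosed, k2⟩, k3⟩

end Pool.Agent.S13035
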