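import Pool.Statements.S13048
import Pool.Agent.H.MP_3c821f_gt.C

set_option autoImplicit false
open Pool Pool.MP_3c821f_gt

namespace Pool.Agent.S13048

theorem result :
    ¬ (∀ (M : Type) [MetricSpace M] [CompactSpace M] [ConnectedSpace M] [ContractibleSpace M]
      (f : M ≃ₜ M), (∃ n : ℕ, 0 < n ∧ (⇑f)^[n] = id) → ∃ x : M, f x = x) :=
  Pool.Agent.H.MP_3c821f_gt.main

end Pool.Agent.S13048
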