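import Pool.Statements.S13052
import Pool.Agent.H.MP_3dcd8c.B

set_option autoImplicit false
open Pool Pool.MP_3dcd8c_gt

namespace Pool.Agent.S13052

theorem result :
    ¬ (∀ (X : Type) [TopologicalSpace X] [T3Space X],
      (∀ 𝓕 : Set (Set X),
        (∀ F ∈ 𝓕, IsClosed F ∧ IsLindelof F) →
        (∀ x : X, ∃ N ∈ nhds x, {F : Set X | F ∈ 𝓕 ∧ (F ∩ N).Nonempty}.Subsingleton) →
        ∃ U : Set X → Set X,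
          (∀ F ∈ 𝓕, IsOpen (U F) ∧ F ⊆ U F) ∧
          (∀ F ∈ 𝓕, ∀ G ∈ 𝓕, F ≠ G → Disjoint (U F) (U G))) →
      (∀ 𝒰 : Set (Set X), (∀ U ∈ 𝒰, IsOpen U) → ⋃₀ 𝒰 = Set.univ →
        ∃ 𝒱 : Set (Set X), (∀ V ∈ 𝒱, IsOpen V) ∧ ⋃₀ 𝒱 = Set.univ ∧
          (∀ V ∈ 𝒱, ∃ U ∈ 𝒰, V ⊆ U) ∧
          ∀ x : X, {V : Set X | V ∈ 𝒱 ∧ x ∈ V}.Finite) →
      (∀ 𝒰 : Set (Set X), (∀ U ∈ 𝒰, IsOpen U) → ⋃₀ 𝒰 = Set.univ →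
        ∃ 𝒱 : Set (Set X), (∀ V ∈ 𝒱, IsOpen V) ∧ ⋃₀ 𝒱 = Set.univ ∧
          (∀ V ∈ 𝒱, ∃ U ∈ 𝒰, V ⊆ U) ∧
          ∀ x : X, ∃ N ∈ nhds x, {V : Set X | V ∈ 𝒱 ∧ (V ∩ N).Nonempty}.Countable)) := by
  intro h
  have hK : Pool.Agent.H.MP_3dcd8c.lam < Cardinal.mk (Order.succ Pool.Agent.H.MP_3dcd8c.lam).out := by
    rw [Cardinal.mk_out]; exact Order.lt_succ _
  haveI : Nonempty (Order.succ Pool.Agent.H.MP_3dcd8c.lam).out :=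
    Cardinal.mk_ne_zero_iff.mp (ne_of_gt (lt_of_le_of_lt (zero_le) hK))
  refine Pool.Agent.H.MP_3dcd8c.npl hK (h _ Pool.Agent.H.MP_3dcd8c.cwh
    Pool.Agent.H.MP_3dcd8c.mcomp _ ?_ ?_)
  · rintro U ⟨a, rfl⟩
    exact Pool.Agent.H.MP_3dcd8c.U0_open 0 a
  · refine Set.eq_univ_of_forall fun p => ?_
    obtain ⟨a, ha⟩ := Pool.Agent.H.MP_3dcd8c.U0_cov 0 p
    exact ⟨_, ⟨a, rfl⟩, ha⟩

end Pool.Agent.S13052
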