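import Pool.Statements.S13059
import Pool.Agent.H.MP_3ef9ff_gt.D

set_option autoImplicit false
open Pool Pool.MP_3ef9ff_gt

namespace Pool.Agent.S13059

theorem result :
    ∀ (M : Type) [MetricSpace M] [CompactSpace M] [ConnectedSpace M],
      (∀ Z : Set (M × M), IsCompact Z → IsConnected Z →
          Prod.fst '' Z = Prod.snd '' Z → ∃ p ∈ Z, p.1 = p.2) →
      ∀ (X : Type) [MetricSpace X] [CompactSpace X] [ConnectedSpace X] (f : X → M),
        Continuous f → Function.Surjective f →
        ∀ (Y : Type) [MetricSpace Y] [CompactSpace Y] (j : M → Y),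
          Topology.IsEmbedding j → Dense (Set.range j)ᶜ →
          Nonempty (↥((Set.range j)ᶜ) ≃ₜ ↥(Set.Ici (0:ℝ))) →
          ∃ (W : Type) (_ : MetricSpace W) (_ : CompactSpace W) (i : X → W),
            Topology.IsEmbedding i ∧ Dense (Set.range i)ᶜ ∧
            Nonempty (↥((Set.range i)ᶜ) ≃ₜ ↥(Set.Ici (0:ℝ))) ∧
            ∃ F : W → Y, Continuous F ∧ Function.Surjective F ∧
              ∀ x, F (i x) = j (f x) := by
  intro M _ _ _ hM X _ _ _ f hf hf' Y _ _ j hj hd ⟨e⟩
  exact Pool.Agent.H.MP_3ef9ff_gt.main hM hf hf' hj hd e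

end Pool.Agent.S13059
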