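import Pool.Statements.S13061
import Pool.Agent.Lib.helper6.PL

set_option autoImplicit false
open MeasureTheory Metric
open Pool Pool.MP_3f0dd2_gt

namespace Pool.Agent.S13061

open Pool.Agent.Lib.helper6 Set Matrix Pointwise

theorem ball_iff {n : ℕ} (x : EuclideanSpace ℝ (Fin n)) : ‖x‖ < 1 ↔ x.1 ⬝ᵥ x.1 < 1 := by
  rw [← sq_lt_one_iff₀ (norm_nonneg x), EuclideanSpace.real_norm_sq_eq]
  simp [dotProduct, sq]

theorem piece {n : ℕ} (M N : Matrix (Fin n) (Fin n) ℝ) (h : N * M = 1)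
    (s : Set (sphere (0 : EuclideanSpace ℝ (Fin n)) 1)) (hs : MeasurableSet s)
    (H : ∀ x ∈ s, 0 ≤ M *ᵥ x.1.1) :
    (volume : Measure (EuclideanSpace ℝ (Fin n))).toSphere s ≤ n * (ENNReal.ofReal |N.det| *
      volume.restrict (univ.pi fun _ : Fin n => Ioi (0 : ℝ)) {p | N *ᵥ p ⬝ᵥ N *ᵥ p < 1}) := by
  have hd : N.det * M.det = 1 := by rw [← det_mul, h, det_one]
  have hm : MeasurableSet {p : Fin n → ℝ | N *ᵥ p ⬝ᵥ N *ᵥ p < 1} :=
    measurableSet_lt (by fun_prop) (by fun_prop)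
  rw [Measure.toSphere_apply' _ hs, finrank_euclideanSpace_fin, volume_pi,
    Measure.restrict_congr_set Measure.univ_pi_Ioi_ae_eq_Ici, ← volume_pi,
    Measure.restrict_apply hm, eq_inv_of_mul_eq_one_left hd, ← LinearMap.det_toLin',
    ← Measure.addHaar_preimage_linearMap volume (by
      rw [LinearMap.det_toLin']; exact right_ne_zero_of_mul_eq_one hd),
    ← (PiLp.volume_preserving_ofLp (Fin n)).measure_preimage
      ((hm.inter measurableSet_Ici).preimage (by fun_prop)).nullMeasurableSet]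
  gcongr
  rintro _ ⟨r, hr, _, ⟨x, hx, rfl⟩, rfl⟩
  refine ⟨?_, ?_⟩
  · simp only [mem_ofPred_eq, toLin'_apply, mulVec_mulVec, h, one_mulVec, ← ball_iff]
    simpa [norm_smul, abs_of_pos hr.1] using hr.2
  · simp only [mem_Ici, toLin'_apply, WithLp.ofLp_smul, mulVec_smul]
    exact smul_nonneg hr.1.le (H x hx)

theorem cl {n : ℕ} (a : Fin n → EuclideanSpace ℝ (Fin n)) :
    MeasurableSet {x : sphere (0 : EuclideanSpace ℝ (Fin n)) 1 | ∀ i, 0 ≤ inner ℝ x.1 (a i)} ∧
    MeasurableSet {x : sphere (0 : EuclideanSpace ℝ (Fin n)) 1 |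
      ∀ y : sphere (0 : EuclideanSpace ℝ (Fin n)) 1,
        (∀ i, 0 ≤ inner ℝ y.1 (a i)) → 0 ≤ inner ℝ x.1 y.1} := by
  constructor <;> refine IsClosed.measurableSet ?_ <;> simp only [ofPred_forall]
  · exact isClosed_iInter fun _ => isClosed_le (by fun_prop) (by fun_prop)
  · exact isClosed_iInter fun _ => isClosed_iInter fun _ => isClosed_le (by fun_prop) (by fun_prop)

theorem result :
    ∀ (n : ℕ) (a : Fin n → EuclideanSpace ℝ (Fin n)), LinearIndependent ℝ a →
      (volume : Measure (EuclideanSpace ℝ (Fin n))).toSphere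
          (setOf fun x : sphere (0 : EuclideanSpace ℝ (Fin n)) 1 =>
            ∀ i, 0 ≤ @inner ℝ (EuclideanSpace ℝ (Fin n)) _ x.1 (a i)) *
        (volume : Measure (EuclideanSpace ℝ (Fin n))).toSphere
          (setOf fun x : sphere (0 : EuclideanSpace ℝ (Fin n)) 1 =>
            ∀ y : sphere (0 : EuclideanSpace ℝ (Fin n)) 1,
              (∀ i, 0 ≤ @inner ℝ (EuclideanSpace ℝ (Fin n)) _ y.1 (a i)) →
                0 ≤ @inner ℝ (EuclideanSpace ℝ (Fin n)) _ x.1 y.1)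
      ≤
      (volume : Measure (EuclideanSpace ℝ (Fin n))).toSphere
          (setOf fun x : sphere (0 : EuclideanSpace ℝ (Fin n)) 1 =>
            ∀ i, 0 ≤ @inner ℝ (EuclideanSpace ℝ (Fin n)) _ x.1
              (EuclideanSpace.single i (1 : ℝ))) *
        (volume : Measure (EuclideanSpace ℝ (Fin n))).toSphere
          (setOf fun x : sphere (0 : EuclideanSpace ℝ (Fin n)) 1 =>
            ∀ y : sphere (0 : EuclideanSpace ℝ (Fin n)) 1,
              (∀ i, 0 ≤ @inner ℝ (EuclideanSpace ℝ (Fin n)) _ y.1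
                (EuclideanSpace.single i (1 : ℝ))) →
                0 ≤ @inner ℝ (EuclideanSpace ℝ (Fin n)) _ x.1 y.1) := by
  intro n a ha
  rcases Nat.eq_zero_or_pos n with rfl | hn
  · rw [(Measure.toSphere_eq_zero_iff_finrank _).2 (by simp)]
    simp
  let M : Matrix (Fin n) (Fin n) ℝ := Matrix.of fun i => (a i).1
  have hM : IsUnit M := linearIndependent_rows_iff_isUnit.1
    (ha.map' (WithLp.linearEquiv 2 ℝ (Fin n → ℝ)).toLinearMap (LinearEquiv.ker _))
  obtain ⟨N, hN⟩ := hM.exists_left_inv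
  have hN' : M * N = 1 := mul_eq_one_comm.1 hN
  have ip : ∀ x y : EuclideanSpace ℝ (Fin n), inner ℝ x y = y.1 ⬝ᵥ x.1 := fun x y => by
    simp [PiLp.inner_apply, dotProduct]
  have h1 := piece M N hN _ (cl a).1 fun x hx i => (hx i).trans_eq (ip _ _)
  have h2 := piece Nᵀ Mᵀ (by rw [← transpose_mul, hN, transpose_one]) _ (cl a).2 fun x hx j => by
    let b : EuclideanSpace ℝ (Fin n) := WithLp.toLp 2 (Nᵀ j)
    have hb : ∀ i, inner ℝ b (a i) = (1 : Matrix (Fin n) (Fin n) ℝ) i j := fun i => by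
      rw [ip, ← hN']; rfl
    have b0 : b ≠ 0 := fun e => by simpa [e] using hb j
    have := hx ⟨‖b‖⁻¹ • b, by simpa using norm_smul_inv_norm (𝕜 := ℝ) b0⟩ fun i => by
      rw [real_inner_smul_left, hb, one_apply]
      positivity
    rw [real_inner_smul_right, ip] at this
    exact nonneg_of_mul_nonneg_right this (inv_pos.2 (norm_pos_iff.2 b0))
  have mm : ∀ N : Matrix (Fin n) (Fin n) ℝ, MeasurableSet {p : Fin n → ℝ | N *ᵥ p ⬝ᵥ N *ᵥ p < 1} :=
    fun N => measurableSet_lt (by fun_prop) (by fun_prop)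
  have mo : MeasurableSet (univ.pi fun _ : Fin n => Ioi (0 : ℝ)) :=
    MeasurableSet.univ_pi fun _ => measurableSet_Ioi
  have h3 := (pl_orthant n).set ((mm N).inter mo) ((mm Mᵀ).inter mo)
    (C := {p | p ⬝ᵥ p < 1}) (measurableSet_lt (by fun_prop) (by fun_prop)) fun p hp q hq => by
      have e : (fun i => √(p i * q i)) ⬝ᵥ (fun i => √(p i * q i)) = N *ᵥ p ⬝ᵥ Mᵀ *ᵥ q := by
        rw [mulVec_transpose, dotProduct_comm (N *ᵥ p), ← dotProduct_mulVec, mulVec_mulVec, hN', one_mulVec]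
        exact Finset.sum_congr rfl fun i _ => by
          rw [Real.mul_self_sqrt (mul_pos (hp.2 i trivial) (hq.2 i trivial)).le, mul_comm]
      have : 0 ≤ (N *ᵥ p - Mᵀ *ᵥ q) ⬝ᵥ (N *ᵥ p - Mᵀ *ᵥ q) :=
        Finset.sum_nonneg fun i _ => mul_self_nonneg _
      rw [sub_dotProduct, dotProduct_sub, dotProduct_sub, dotProduct_comm (Mᵀ *ᵥ q) (N *ᵥ p)] at this
      have a1 : N *ᵥ p ⬝ᵥ N *ᵥ p < 1 := hp.1
      have a2 : Mᵀ *ᵥ q ⬝ᵥ Mᵀ *ᵥ q < 1 := hq.1
      change _ < (1 : ℝ)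
      linarith
  simp only [Measure.restrict_apply' mo, inter_assoc, inter_self] at h1 h2 h3
  have h4 : n * volume ({p : Fin n → ℝ | p ⬝ᵥ p < 1} ∩ univ.pi fun _ => Ioi (0 : ℝ)) ≤
      (volume : Measure (EuclideanSpace ℝ (Fin n))).toSphere
        {x | ∀ i, 0 ≤ inner ℝ x.1 (EuclideanSpace.single i (1 : ℝ))} := by
    rw [Measure.toSphere_apply' _ (cl _).1, finrank_euclideanSpace_fin,
      ← (PiLp.volume_preserving_ofLp (Fin n)).measure_preimage
        ((measurableSet_lt (by fun_prop) (by fun_prop)).inter mo).nullMeasurableSet]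
    gcongr
    intro x hx
    have x0 : x ≠ 0 := fun e => by simpa [e] using hx.2 ⟨0, hn⟩ trivial
    have n0 := norm_pos_iff.2 x0
    refine ⟨‖x‖, ⟨n0, (ball_iff x).2 hx.1⟩, ‖x‖⁻¹ • x,
      ⟨⟨_, by simpa using norm_smul_inv_norm (𝕜 := ℝ) x0⟩, fun i => ?_, rfl⟩, by simp [smul_smul, n0.ne']⟩
    have : 0 < x i := hx.2 i trivial
    rw [real_inner_smul_left, EuclideanSpace.inner_single_right, conj_trivial, one_mul]
    positivity
  have h5 := h4.trans (measure_mono (t := {x | ∀ y : sphere (0 : EuclideanSpace ℝ (Fin n)) 1,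
      (∀ i, 0 ≤ inner ℝ y.1 (EuclideanSpace.single i (1 : ℝ))) → 0 ≤ inner ℝ x.1 y.1})
    fun x hx y hy => by
      rw [ip]
      exact Finset.sum_nonneg fun i _ => mul_nonneg
        (by simpa [EuclideanSpace.inner_single_right] using hy i)
        (by simpa [EuclideanSpace.inner_single_right] using hx i))
  refine (mul_le_mul' h1 h2).trans (le_trans ?_ (mul_le_mul' h4 h5))
  rw [mul_mul_mul_comm, mul_mul_mul_comm (ENNReal.ofReal _), ← ENNReal.ofReal_mul (abs_nonneg _),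
    ← abs_mul, det_transpose, ← det_mul, hN, det_one, abs_one, ENNReal.ofReal_one, one_mul,
    mul_mul_mul_comm (n : ENNReal) (volume _), ← sq (volume _)]
  gcongr

end Pool.Agent.S13061
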