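import Pool.Statements.S13067
import Pool.Agent.H.MP_3fab4a.C

set_option autoImplicit false
open Pool Pool.MP_3fab4a_gt

namespace Pool.Agent.S13067

theorem result :
    ∃ (X : Type) (_ : TopologicalSpace X), CompactSpace X ∧ T2Space X ∧
      (∀ S : Set X,
        (∀ f : S → ℝ, Continuous f → ∃ M : ℝ, ∀ x : S, |f x| ≤ M) → IsCompact S) ∧
      ¬ (∀ S : Set X, ∀ F : Set (Set S),
          Maximal (fun G : Set (Set S) =>
              (∀ A ∈ G, IsClosed A) ∧
              ∀ H : Finset (Set S), (↑H : Set (Set S)) ⊆ G →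
                (⋂₀ (↑H : Set (Set S))).Nonempty) F →
          (∀ H : Set (Set S), H ⊆ F → H.Countable → (⋂₀ H).Nonempty) →
          (⋂₀ F).Nonempty) := by
  refine ⟨OnePoint H.MP_3fab4a.Y, inferInstance, inferInstance, inferInstance,
    H.MP_3fab4a.keyX.pseudo, fun h => ?_⟩
  obtain ⟨S, F, h1, h2, h3⟩ := H.MP_3fab4a.notalpha
  exact h3 (h S F h1 h2)

end Pool.Agent.S13067
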