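import Pool.Statements.S13070
import Pool.Agent.H.MP_3fb46c_gt.D

set_option autoImplicit false
open Pool Pool.MP_3fb46c_gt

namespace Pool.Agent.S13070

/-- The negation of the preceding statement: Every smooth tangent field of constant length r>0 on the unit sphere in R^(2m+2) whose graph is volume-critical in the radius-r tangent sphere bundle with Sasaki metric equals r·J x for some skew complex structure J. -/
theorem result :
    ¬ (∀ (m : ℕ) (r : ℝ) (σ : EuclideanSpace ℝ (Fin (2 * m + 2)) → EuclideanSpace ℝ (Fin (2 * m + 2))),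
      0 < r →
      ContDiff ℝ ((⊤ : ℕ∞) : WithTop ℕ∞) σ →
      (∀ x ∈ Metric.sphere (0 : EuclideanSpace ℝ (Fin (2 * m + 2))) 1,
          ‖σ x‖ = r ∧ inner ℝ x (σ x) = 0) →
      (∀ Φ : ℝ → EuclideanSpace ℝ (Fin (2 * m + 2)) → EuclideanSpace ℝ (Fin (2 * m + 2)),
          ContDiff ℝ ((⊤ : ℕ∞) : WithTop ℕ∞)
            (fun p : ℝ × EuclideanSpace ℝ (Fin (2 * m + 2)) => Φ p.1 p.2) →
          (∀ x ∈ Metric.sphere (0 : EuclideanSpace ℝ (Fin (2 * m + 2))) 1, Φ 0 x = σ x) →
          (∀ t : ℝ, ∀ x ∈ Metric.sphere (0 : EuclideanSpace ℝ (Fin (2 * m + 2))) 1,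
              ‖Φ t x‖ = r ∧ inner ℝ x (Φ t x) = 0) →
          deriv (fun t : ℝ =>
              ∫ x : Metric.sphere (0 : EuclideanSpace ℝ (Fin (2 * m + 2))) 1,
                Real.sqrt (LinearMap.det
                  ((ContinuousLinearMap.id ℝ (EuclideanSpace ℝ (Fin (2 * m + 2))) +
                    (ContinuousLinearMap.adjoint
                      ((ContinuousLinearMap.id ℝ (EuclideanSpace ℝ (Fin (2 * m + 2))) -
                          (innerSL ℝ (x : EuclideanSpace ℝ (Fin (2 * m + 2)))).smulRight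
                            (x : EuclideanSpace ℝ (Fin (2 * m + 2)))) ∘L
                        fderiv ℝ (Φ t) (x : EuclideanSpace ℝ (Fin (2 * m + 2))) ∘L
                        (ContinuousLinearMap.id ℝ (EuclideanSpace ℝ (Fin (2 * m + 2))) -
                          (innerSL ℝ (x : EuclideanSpace ℝ (Fin (2 * m + 2)))).smulRight
                            (x : EuclideanSpace ℝ (Fin (2 * m + 2)))))) ∘L
                    ((ContinuousLinearMap.id ℝ (EuclideanSpace ℝ (Fin (2 * m + 2))) -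
                          (innerSL ℝ (x : EuclideanSpace ℝ (Fin (2 * m + 2)))).smulRight
                            (x : EuclideanSpace ℝ (Fin (2 * m + 2)))) ∘L
                        fderiv ℝ (Φ t) (x : EuclideanSpace ℝ (Fin (2 * m + 2))) ∘L
                        (ContinuousLinearMap.id ℝ (EuclideanSpace ℝ (Fin (2 * m + 2))) -
                          (innerSL ℝ (x : EuclideanSpace ℝ (Fin (2 * m + 2)))).smulRight
                            (x : EuclideanSpace ℝ (Fin (2 * m + 2))))) :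
                    EuclideanSpace ℝ (Fin (2 * m + 2)) →L[ℝ] EuclideanSpace ℝ (Fin (2 * m + 2))) :
                    EuclideanSpace ℝ (Fin (2 * m + 2)) →ₗ[ℝ] EuclideanSpace ℝ (Fin (2 * m + 2))))
                ∂((MeasureTheory.volume :
                    MeasureTheory.Measure (EuclideanSpace ℝ (Fin (2 * m + 2)))).toSphere)) 0 = 0) →
      ∃ J : EuclideanSpace ℝ (Fin (2 * m + 2)) →L[ℝ] EuclideanSpace ℝ (Fin (2 * m + 2)),
        J ∘L J = -ContinuousLinearMap.id ℝ (EuclideanSpace ℝ (Fin (2 * m + 2))) ∧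
        (∀ v, inner ℝ (J v) v = 0) ∧
        ∀ x ∈ Metric.sphere (0 : EuclideanSpace ℝ (Fin (2 * m + 2))) 1, σ x = r • J x) := by
  intro h
  have hr0 : 0 < √(1 / 3 : ℝ) := Real.sqrt_pos.2 (by norm_num)
  have hr : √(1 / 3 : ℝ) * √(1 / 3 : ℝ) = 1 / 3 := Real.mul_self_sqrt (by norm_num)
  have hc : ContDiff ℝ ((⊤ : ℕ∞) : WithTop ℕ∞)
      fun x : H.MP_627409_gt.E => √(1 / 3 : ℝ) • H.MP_3fb46c_gt.VV x :=
    H.MP_3fb46c_gt.cVV.const_smul _
  obtain ⟨J, -, -, hJ⟩ := h 1 (√(1 / 3 : ℝ))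
    (fun x : H.MP_627409_gt.E => √(1 / 3 : ℝ) • H.MP_3fb46c_gt.VV x) hr0 hc
    (fun x hx => by
      obtain ⟨h1, h2⟩ := H.MP_3fb46c_gt.VV_sphere x hx
      constructor
      · change ‖√(1 / 3 : ℝ) • H.MP_3fb46c_gt.VV x‖ = _
        rw [norm_smul, h1, mul_one, Real.norm_of_nonneg hr0.le]
      · rw [real_inner_smul_right, h2, mul_zero])
    (fun Φ hΦ h0 hn => H.MP_3fb46c_gt.crit _ hr Φ (hΦ.of_le (WithTop.coe_le_coe.2 (le_top (a := (2 : ℕ∞))))) h0 hr0.ne'
      fun t x hx => (hn t x hx).1)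
  exact H.MP_3fb46c_gt.not_hopf _ hr0.ne' J hJ

end Pool.Agent.S13070
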