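import Pool.Statements.S13076
import Pool.Agent.H.MP_414e75_gt.A

set_option autoImplicit false
open Pool Pool.MP_414e75_gt

namespace Pool.Agent.S13076

theorem result :
    ¬ (∀ (X : Type) [TopologicalSpace X] [T1Space X] [RegularSpace X] [LindelofSpace X],
      ∀ N : X → Set X, (∀ x, IsOpen (N x) ∧ x ∈ N x) →
        ∃ D : Set X, IsClosed D ∧ DiscreteTopology D ∧ (⋃ d ∈ D, N d) = Set.univ) := by
  intro h
  obtain ⟨U, h1, h2⟩ := Pool.Agent.H.MP_414e75_gt.main
  obtain ⟨D, d1, d2, d3⟩ := h _ U h1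
  exact h2 D d1 d2 d3

end Pool.Agent.S13076
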