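import Pool.Statements.S13078
import Pool.Agent.H.MP_4194ae_gt.B

set_option autoImplicit false
open Pool Pool.MP_4194ae_gt

namespace Pool.Agent.S13078

open Pool.Agent.H.MP_4194ae_gt in
theorem result :
    ¬ (∀ (n : ℕ), 0 < n →
      ∀ (M : Type) [MetricSpace M] [CompactSpace M] [ConnectedSpace M],
        (∀ ε : ℝ, 0 < ε →
          ∃ f : M → Metric.closedBall (0 : EuclideanSpace ℝ (Fin n)) 1,
            Continuous f ∧ Function.Surjective f ∧
            (∀ y, Metric.diam (f ⁻¹' {y}) < ε) ∧
            (∀ K : Set (Metric.closedBall (0 : EuclideanSpace ℝ (Fin n)) 1),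
              IsCompact K → IsConnected K →
                ∃ C : Set M, IsCompact C ∧ IsConnected C ∧ f '' C = K)) →
        ∀ g : M → M, Continuous g → ∃ x, g x = x) := fun H => by
  obtain ⟨x, hx⟩ := H 3 (by norm_num) M (fun ε h => by
    obtain ⟨f, a, b, c, d⟩ := maps ε h
    exact ⟨f, a, b, c, fun K k l => ⟨_, (k.isClosed.preimage a).isCompact, d K k.isClosed l,
      Set.image_preimage_eq K b⟩⟩) (fun p => ⟨g0 (L p), g0_maps (L_maps p.2)⟩)
    ((g0_cont.comp (L_cont.comp continuous_subtype_val)).subtype_mk _)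
  exact nofix x x.2 (congrArg Subtype.val hx)

end Pool.Agent.S13078
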