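import Pool.Statements.S13080
-- import your own Pool.Agent.* helpers here

set_option autoImplicit false
open Pool Pool.MP_41b9bf_gt

namespace Pool.Agent.S13080
open Set Function Topology Filter OnePoint

abbrev ι : Type := ℕ → Bool
abbrev R : Type := {x : ι → Bool // {i | x i = true}.Countable}
structure D : Type where
  v : R
instance : TopologicalSpace D := ⊥
instance : DiscreteTopology D := ⟨rfl⟩

abbrev Y (r : D → R) : Type := {p : R × OnePoint D // ∀ d : D, p.2 = d → p.1 = r d}

def i0 (r : D → R) (z : R) : Y r := ⟨(z, ∞), by simp⟩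
def i1 (r : D → R) (d : D) : Y r := ⟨(r d, d), by simp⟩

lemma i0c (r : D → R) : Continuous (i0 r) := (Continuous.prodMk_left _).subtype_mk _

def h (r : D → R) (f : C(Y r, ℝ)) (w : OnePoint D) : ℝ :=
  OnePoint.rec 0 (fun d => f (i1 r d) - f (i0 r (r d))) w

lemma hc (r : D → R) (f : C(Y r, ℝ)) : Continuous (h r f) := by
  rw [continuous_iff_from_discrete, Metric.tendsto_nhds]
  intro ε hε
  by_contra hn
  have hi : {d : D | ¬ dist (h r f d) (h r f ∞) < ε}.Infinite := hn
  let d := hi.natEmbedding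
  obtain ⟨z, -, hz⟩ := (isCompact_univ (X := ι → Bool)).ultrafilter_le_nhds
    ((hyperfilter ℕ).map fun n => (r (d n)).1) (by simp)
  have hz' : {i | z i = true}.Countable := (countable_iUnion fun n => (r (d n).1).2).mono
    fun i hi => by
      have := tendsto_pi_nhds.1 (show Tendsto (fun n => (r (d n)).1) (hyperfilter ℕ) _ from hz) i
      rw [nhds_discrete, tendsto_pure, show z i = true from hi] at this
      exact mem_iUnion.2 this.exists
  have t1 : Tendsto (fun n => r (d n)) (hyperfilter ℕ) (𝓝 ⟨z, hz'⟩) := tendsto_subtype_rng.2 hz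
  have t2 : Tendsto (fun n => ((d n).1 : OnePoint D)) (hyperfilter ℕ) (𝓝 ∞) := by
    refine tendsto_coe_infty.comp ?_
    rw [coclosedCompact_eq_cocompact, cocompact_eq_cofinite]
    exact (Subtype.val_injective.comp d.injective).tendsto_cofinite.mono_left
      hyperfilter_le_cofinite
  have t3 : Tendsto (fun n => i1 r (d n)) (hyperfilter ℕ) (𝓝 (i0 r ⟨z, hz'⟩)) :=
    tendsto_subtype_rng.2 (t1.prodMk_nhds t2)
  have := ((f.continuous.tendsto _).comp t3).sub (((f.continuous.comp (i0c r)).tendsto _).comp t1)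
  rw [comp_apply, sub_self] at this
  obtain ⟨n, hn⟩ := (Metric.tendsto_nhds.1 this ε hε).exists
  exact (d n).2 hn

def T (r s : D → R) (f : C(Y r, ℝ)) : C(Y s, ℝ) :=
  ⟨fun p => f (i0 r p.1.1) + h r f p.1.2, (f.continuous.comp ((i0c r).comp (continuous_fst.comp
    continuous_subtype_val))).add ((hc r f).comp (continuous_snd.comp continuous_subtype_val))⟩

lemma cases (r : D → R) (p : Y r) : (∃ z, p = i0 r z) ∨ ∃ d, p = i1 r d := by
  obtain ⟨⟨z, w⟩, hp⟩ := p
  induction w using OnePoint.rec with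
  | infty => exact Or.inl ⟨z, rfl⟩
  | coe d =>
    obtain rfl : z = r d := hp d rfl
    exact Or.inr ⟨d, rfl⟩

lemma T0 (r s : D → R) (f : C(Y r, ℝ)) (z : R) : T r s f (i0 s z) = f (i0 r z) := add_zero _
lemma T1 (r s : D → R) (f : C(Y r, ℝ)) (d : D) :
    T r s f (i1 s d) = f (i0 r (s d)) + (f (i1 r d) - f (i0 r (r d))) := rfl

lemma TT (r s : D → R) (f : C(Y r, ℝ)) : T s r (T r s f) = f := by
  ext p
  rcases cases r p with ⟨z, rfl⟩ | ⟨d, rfl⟩
  · rw [T0, T0]
  · rw [T1, T0, T0, T1]; ring

lemma Tc (r s : D → R) : @Continuous _ _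
    (TopologicalSpace.induced (fun f : C(Y r, ℝ) => (f : Y r → ℝ)) inferInstance)
    (TopologicalSpace.induced (fun f : C(Y s, ℝ) => (f : Y s → ℝ)) inferInstance) (T r s) := by
  letI := TopologicalSpace.induced (fun f : C(Y r, ℝ) => (f : Y r → ℝ)) inferInstance
  have k : ∀ p, Continuous fun f : C(Y r, ℝ) => f p := fun p =>
    (continuous_apply p).comp continuous_induced_dom
  refine continuous_induced_rng.2 (continuous_pi fun p => ?_)
  rcases cases s p with ⟨z, rfl⟩ | ⟨d, rfl⟩
  · simpa only [comp_def, T0] using k _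
  · exact (k _).add ((k _).sub (k _))

def E (r s : D → R) : C(Y r, ℝ) ≃ₗ[ℝ] C(Y s, ℝ) where
  toFun := T r s
  invFun := T s r
  left_inv := TT r s
  right_inv := TT s r
  map_add' f g := by
    ext p
    rcases cases s p with ⟨z, rfl⟩ | ⟨d, rfl⟩
    · simp [T0]
    · simp only [T1, ContinuousMap.add_apply]; ring
  map_smul' c f := by
    ext p
    rcases cases s p with ⟨z, rfl⟩ | ⟨d, rfl⟩
    · simp [T0]
    · simp only [T1, ContinuousMap.smul_apply, smul_eq_mul, RingHom.id_apply]; ring

def o : R := ⟨fun _ => false, by simp⟩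

lemma clop (i : ι) (b : Bool) : IsClopen {x : ι → Bool | x i = b} :=
  (isClopen_discrete {b}).preimage (continuous_apply (A := fun _ : ι => Bool) i)

lemma ksep : ∃ S : Set (Y fun _ => o), Dense S ∧ IsSigmaCompact S := by
  classical
  let σ : ℕ → Set (ι → Bool) := fun n => {x | ∀ F : Finset ι, (∀ i ∈ F, x i = true) → F.card ≤ n}
  have he : IsEmbedding fun p : Y fun _ => o => (p.1.1.1, p.1.2) :=
    (IsEmbedding.subtypeVal.prodMap IsEmbedding.id).comp IsEmbedding.subtypeVal
  refine ⟨⋃ n, {p | p.1.1.1 ∈ σ n}, fun p => ?_, isSigmaCompact_iUnion_of_isCompact _ fun n => ?_⟩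
  · refine mem_closure_of_tendsto (b := (atTop : Filter (Finset ι))) (f := fun F =>
      ⟨(⟨fun i => decide (i ∈ F) && p.1.1.1 i, p.1.1.2.mono fun i hi => ?_⟩, p.1.2),
        fun d hd => ?_⟩) (he.tendsto_nhds_iff.2 (Tendsto.prodMk_nhds (tendsto_pi_nhds.2 fun i =>
          tendsto_const_nhds.congr' ?_) tendsto_const_nhds))
      (.of_forall fun F => mem_iUnion.2 ⟨F.card, fun G hG => Finset.card_le_card fun i hi => ?_⟩)
    · exact ((Bool.and_eq_true _ _).mp hi).2
    · simp [p.2 d hd, o]
    · filter_upwards [eventually_ge_atTop ({i} : Finset ι)] with F hF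
      simp [hF (Finset.mem_singleton_self i)]
    · exact of_decide_eq_true ((Bool.and_eq_true _ _).mp (hG i hi)).1
  · rw [he.isCompact_iff]
    have : (fun p : Y fun _ => o => (p.1.1.1, p.1.2)) '' {p | p.1.1.1 ∈ σ n} =
        Prod.fst ⁻¹' σ n ∩ ⋂ d : D, {q : (ι → Bool) × OnePoint D | q.2 = d → q.1 = o.1} := by
      ext ⟨x, w⟩
      refine ⟨?_, fun ⟨h1, h2⟩ => ⟨⟨(⟨x, Finite.countable ?_⟩, w), fun d hd =>
        Subtype.ext (mem_iInter.1 h2 d hd)⟩, h1, rfl⟩⟩
      · rintro ⟨p, hp, e⟩
        rw [← e]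
        exact ⟨hp, mem_iInter.2 fun d hd => congrArg Subtype.val (p.2 d hd)⟩
      · by_contra hn
        obtain ⟨F, h3, h4⟩ := Set.Infinite.exists_subset_card_eq hn (n + 1)
        have := h1 F fun i hi => h3 hi
        omega
    rw [this]
    refine IsClosed.isCompact (IsClosed.inter (IsClosed.preimage continuous_fst ?_)
      (isClosed_iInter fun d => isClosed_imp ?_ (isClosed_singleton.preimage continuous_fst)))
    · simp only [σ, ofPred_forall (p := fun (F : Finset ι) (x : ι → Bool) =>
        (∀ i ∈ F, x i = true) → F.card ≤ n)]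
      refine isClosed_iInter fun F => isClosed_imp ?_ isClosed_const
      simp only [ofPred_forall]
      exact isOpen_biInter_finset fun i _ => (clop i true).2
    · have := (isOpen_image_coe (s := {d})).2 (isOpen_discrete _)
      rw [image_singleton] at this
      exact this.preimage continuous_snd

lemma nksep : ¬ ∃ S : Set (Y D.v), Dense S ∧ IsSigmaCompact S := by
  classical
  rintro ⟨S, hS, K, h1, rfl⟩
  have : ∀ n, ∃ F : Set ι, F.Finite ∧ ∀ p ∈ K n, ∃ i ∈ F, p.1.1.1 i ≠ true := fun n => by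
    obtain ⟨F, hF⟩ := (h1 n).elim_finite_subcover (fun i : ι => {p | p.1.1.1 i = false})
      (fun i => (clop i false).2.preimage (continuous_subtype_val.comp (continuous_fst.comp
        continuous_subtype_val))) fun p _ => by
          by_contra hc
          have : Countable ι := countable_univ_iff.1 (p.1.1.2.mono fun i _ =>
            (Bool.eq_false_or_eq_true _).resolve_right fun e => hc (mem_iUnion.2 ⟨i, e⟩))
          obtain ⟨g, hg⟩ := exists_surjective_nat ι
          obtain ⟨n, hn⟩ := hg fun n => !(g n n)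
          simpa using congrFun hn n
    exact ⟨F, F.finite_toSet, fun p hp => by simpa using mem_iUnion₂.1 (hF hp)⟩
  choose F f1 f2 using this
  let x : D := ⟨⟨fun i => decide (i ∈ ⋃ n, F n), (countable_iUnion fun n =>
    (f1 n).countable).mono fun i hi => of_decide_eq_true hi⟩⟩
  have := (isOpen_image_coe (s := {x})).2 (isOpen_discrete _)
  rw [image_singleton] at this
  obtain ⟨p, h2, h3⟩ := hS.inter_open_nonempty _ (this.preimage (continuous_snd.comp
    continuous_subtype_val)) ⟨i1 _ x, rfl⟩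
  obtain ⟨n, hn⟩ := mem_iUnion.1 h3
  obtain ⟨i, k1, k2⟩ := f2 n p hn
  rw [p.2 x h2] at k2
  exact k2 (decide_eq_true (mem_iUnion.2 ⟨n, k1⟩))

theorem result :
    ¬ (∀ (X Y : Type) [TopologicalSpace X] [T35Space X] [TopologicalSpace Y] [T35Space Y],
      (∃ S : Set X, Dense S ∧ IsSigmaCompact S) →
      (∃ T : C(X, ℝ) ≃ₗ[ℝ] C(Y, ℝ),
        @Continuous (C(X, ℝ)) (C(Y, ℝ))
          (TopologicalSpace.induced (fun f : C(X, ℝ) => (f : X → ℝ))
            (inferInstance : TopologicalSpace (X → ℝ)))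
          (TopologicalSpace.induced (fun g : C(Y, ℝ) => (g : Y → ℝ))
            (inferInstance : TopologicalSpace (Y → ℝ)))
          (⇑T) ∧
        @Continuous (C(Y, ℝ)) (C(X, ℝ))
          (TopologicalSpace.induced (fun g : C(Y, ℝ) => (g : Y → ℝ))
            (inferInstance : TopologicalSpace (Y → ℝ)))
          (TopologicalSpace.induced (fun f : C(X, ℝ) => (f : X → ℝ))
            (inferInstance : TopologicalSpace (X → ℝ)))
          (⇑T.symm)) →
      ∃ S : Set Y, Dense S ∧ IsSigmaCompact S) := by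
  intro H
  exact nksep (H _ _ ksep ⟨E _ _, Tc _ _, Tc _ _⟩)

end Pool.Agent.S13080
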