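import Pool.Statements.S13086
import Pool.Agent.H.MP_424fb5_gt.E

set_option autoImplicit false
open Pool Pool.MP_424fb5_gt

namespace Pool.Agent.S13086

theorem result :
    ¬ (∀ (X : Type) [MetricSpace X] [CompactSpace X] [ConnectedSpace X],
      (∀ G : Set (Set X), ¬ G.Countable →
          (∀ K ∈ G, IsCompact K ∧ IsConnected K ∧ K.Nontrivial) →
          ∃ A ∈ G, ∃ B ∈ G, A ≠ B ∧
            ∃ C : Set X, C ⊆ A ∩ B ∧ IsCompact C ∧ IsConnected C ∧ C.Nontrivial) →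
      ∃ S : Set X, S.Countable ∧
        ∀ K : Set X, IsCompact K → IsConnected K → K.Nontrivial → (S ∩ K).Nonempty) := by
  intro h
  obtain ⟨X, _, _, _, h1, h2⟩ := H.MP_424fb5_gt.main
  obtain ⟨S, s1, s2⟩ := h X h1
  obtain ⟨K, k1, k2, k3, k4⟩ := h2 S s1
  exact k4 (s2 K k1 k2 k3)

end Pool.Agent.S13086
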