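import Pool.Statements.S13088
import Pool.Agent.H.MP_42a2a8_gt.Poset

set_option autoImplicit false
open Pool Pool.MP_42a2a8_gt

namespace Pool.Agent.S13088

open Set Function Cardinal Pool.Agent.H.MP_42a2a8_gt TopologicalSpace

def res (z : ℕ → Bool) : ℕ → List Bool
  | 0 => []
  | n + 1 => z n :: res z n

def Cfg : Type := {C : List Bool → T // IsCfg C}

lemma chain (C : Cfg) (z : ℕ → Bool) {m n : ℕ} (h : m ≤ n) :
    Le (C.1 (res z m)) (C.1 (res z n)) := by
  induction n, h using Nat.le_induction with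
  | base => exact Le.rfl
  | succ n _ ih => exact ih.trans (C.2.2 _ _).1

lemma len (C : Cfg) (z : ℕ → Bool) (n : ℕ) : n ≤ (lab (C.1 (res z n))).length := by
  induction n with
  | zero => exact Nat.zero_le _
  | succ n ih =>
    have := (C.2.2 (res z n) (z n)).2.length_le
    simp only [List.length_append, List.length_singleton] at this
    exact (Nat.succ_le_succ ih).trans this

def br (C : Cfg) (z : ℕ → Bool) : Set (List Bool) := {l | ∃ n, l <+: lab (C.1 (res z n))}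

lemma br_eq (C : Cfg) (z : ℕ → Bool) {l l' : List Bool} (h : l ∈ br C z) (h' : l' ∈ br C z)
    (e : l.length = l'.length) : l = l' := by
  obtain ⟨m, hm⟩ := h
  obtain ⟨n, hn⟩ := h'
  have h1 := hm.trans ((C.2.1 _).of_le (chain C z (le_max_left m n))).2
  have h2 := hn.trans ((C.2.1 _).of_le (chain C z (le_max_right m n))).2
  exact (List.prefix_of_prefix_length_le h1 h2 e.le).eq_of_length e

lemma br_inj (C : Cfg) : Injective (br C) := by
  intro z z' h
  have key : ∀ n, res z n = res z' n := by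
    intro n
    induction n with
    | zero => rfl
    | succ n ih =>
      have h1 : lab (C.1 (res z n)) ++ [z n] ∈ br C z := ⟨n + 1, (C.2.2 _ _).2⟩
      have h2 : lab (C.1 (res z' n)) ++ [z' n] ∈ br C z' := ⟨n + 1, (C.2.2 _ _).2⟩
      rw [← h, ← ih] at h2
      have := br_eq C z h1 h2 (by simp)
      simp only [List.append_cancel_left_eq, List.cons.injEq, and_true] at this
      simp only [res, ih, this]
  funext n
  exact (List.cons.inj (key (n + 1))).1

lemma ex_sel : ∃ sel : Cfg → ℕ → Bool, Injective fun C => br C (sel C) := by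
  obtain ⟨f, hf, hf'⟩ := sdr (fun C : Cfg => range (br C)) (fun C => by
    rw [Cardinal.mk_range_eq _ (br_inj C)]
    have h1 : #Cfg ≤ #(List Bool → T) := Cardinal.mk_subtype_le _
    refine h1.trans ?_
    rw [← Cardinal.power_def]
    refine (Cardinal.power_le_power_right card_T).trans ?_
    simp)
  choose sel hsel using hf'
  exact ⟨sel, by simpa only [hsel] using hf⟩

noncomputable def sel : Cfg → ℕ → Bool := ex_sel.choose

def B (a : T) : Set Cfg := {C | ∃ n, Le a (C.1 (res (sel C) n))}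

def BB : Set (Set Cfg) := B '' {a | Valid a}

instance : TopologicalSpace Cfg := generateFrom BB

lemma B_mono {a b : T} (h : Le a b) : B b ⊆ B a := fun _ ⟨n, hn⟩ => ⟨n, h.trans hn⟩

lemma basis : IsTopologicalBasis BB := by
  refine ⟨?_, ?_, rfl⟩
  · rintro _ ⟨a, -, rfl⟩ _ ⟨b, -, rfl⟩ C ⟨⟨m, hm⟩, ⟨n, hn⟩⟩
    exact ⟨_, ⟨_, C.2.1 (res (sel C) (max m n)), rfl⟩, ⟨max m n, Le.rfl⟩, subset_inter
      (B_mono (hm.trans (chain C _ (le_max_left m n))))
      (B_mono (hn.trans (chain C _ (le_max_right m n))))⟩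
  · exact eq_univ_of_forall fun C => ⟨_, ⟨_, C.2.1 [], rfl⟩, 0, Le.rfl⟩

lemma B_sep {a b : T} (ha : Valid a) (h : B a ⊆ B b) : Le b a := by
  by_contra hn
  obtain ⟨C, h1, h2, h3⟩ := cfg_avoid ha hn
  obtain ⟨n, hn⟩ := h (show (⟨C, h1⟩ : Cfg) ∈ B a from ⟨0, h2 ▸ Le.rfl⟩)
  exact h3 _ hn

lemma B_root {a : T} (ha : Valid a) : ∃ C : Cfg, C.1 [] = a := by
  obtain ⟨u, -, hu⟩ : ∃ u, u ∈ (univ : Set T) ∧ u ∉ {x | Le x a} := by
    refine Set.Infinite.exists_notMem_finite ?_ (low_fin a)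
    refine Set.Infinite.of_image tag (Set.infinite_univ.mono fun z _ => ?_)
    obtain ⟨r, -, hr⟩ := leaf z
    exact ⟨r, trivial, hr⟩
  obtain ⟨C, h1, h2, -⟩ := cfg_avoid ha hu
  exact ⟨⟨C, h1⟩, h2⟩

lemma t1 : T1Space Cfg := by
  rw [t1Space_iff_exists_open]
  intro C C' hne
  by_contra hc
  push Not at hc
  have h1 : ∀ n, ∃ m, Le (C.1 (res (sel C) n)) (C'.1 (res (sel C') m)) := fun n =>
    hc _ (basis.isOpen ⟨_, C.2.1 (res (sel C) n), rfl⟩) ⟨n, Le.rfl⟩
  have h2 : br C (sel C) ⊆ br C' (sel C') := by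
    rintro l ⟨n, hn⟩
    obtain ⟨m, hm⟩ := h1 n
    exact ⟨m, hn.trans ((C'.2.1 _).of_le hm).2⟩
  refine hne (ex_sel.choose_spec (Subset.antisymm h2 fun l hl => ?_))
  have h3 : (lab (C.1 (res (sel C) l.length))).take l.length ∈ br C (sel C) :=
    ⟨_, List.take_prefix _ _⟩
  have h4 := br_eq C' _ hl (h2 h3) (by
    rw [List.length_take, min_eq_left (len C _ _)])
  rw [h4]
  exact h3

lemma noiso (C : Cfg) : ¬ IsOpen ({C} : Set Cfg) := by
  intro h
  obtain ⟨_, ⟨a, ha, rfl⟩, -, h2⟩ := basis.exists_subset_of_mem_open (mem_singleton C) h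
  obtain ⟨C0, h0⟩ := B_root ha
  have key : ∀ ε, lab a ++ [ε] ∈ br C (sel C) := by
    intro ε
    obtain ⟨C1, h1⟩ := B_root (C0.2.1 [ε])
    have h3 := C0.2.2 [] ε
    rw [h0, ← h1] at h3
    have : C1 = C := h2 ⟨0, h3.1⟩
    exact ⟨0, this ▸ h3.2⟩
  simpa using br_eq C _ (key true) (key false) (by simp)

theorem result :
    ¬ (∀ (X : Type) [TopologicalSpace X] [T1Space X],
      (∀ x : X, ¬ IsOpen ({x} : Set X)) →
      ∀ B : Set (Set X), TopologicalSpace.IsTopologicalBasis B →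
        ∃ B0 B1 : Set (Set X),
          B0 ⊆ B ∧ B1 ⊆ B ∧ Disjoint B0 B1 ∧
          TopologicalSpace.IsTopologicalBasis B0 ∧
          (∀ V ∈ B1, V.Nonempty) ∧
          (∀ U : Set X, IsOpen U → U.Nonempty → ∃ V ∈ B1, V ⊆ U)) := by
  intro h
  have := t1
  obtain ⟨B0, B1, h0, h1, hd, hb, -, hp⟩ := h Cfg noiso BB basis
  obtain ⟨C, hC, hX⟩ := cfg_in (X := {a | B a ∈ B1}) (fun q hq => by
    obtain ⟨C, hC⟩ := B_root hq
    obtain ⟨V, hV, hs⟩ := hp (B q) (basis.isOpen ⟨q, hq, rfl⟩) ⟨C, 0, hC ▸ Le.rfl⟩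
    obtain ⟨a, ha, rfl⟩ := h1 hV
    exact ⟨a, hV, ha, B_sep ha hs⟩)
  obtain ⟨V, hV, h2, h3⟩ := hb.exists_subset_of_mem_open (a := (⟨C, hC⟩ : Cfg)) (u := B (C []))
    ⟨0, Le.rfl⟩ (basis.isOpen ⟨_, hC.1 [], rfl⟩)
  obtain ⟨s, hs, rfl⟩ := h0 hV
  obtain ⟨n, hn⟩ := h2
  exact Set.disjoint_left.1 hd hV (hX _ s (B_sep hs h3) hn)

end Pool.Agent.S13088
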