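import Pool.Statements.S13094

set_option autoImplicit false
open Pool Pool.MP_440a64_gt

namespace Pool.Agent.S13094

open Set Filter Topology

def L : Type := Option ℝ

def o : L := none

instance : TopologicalSpace L where
  IsOpen U := o ∈ U → Uᶜ.Countable
  isOpen_univ _ := by simp
  isOpen_inter _ _ a b c := by
    rw [compl_inter]
    exact (a c.1).union (b c.2)
  isOpen_sUnion _ a := fun ⟨U, b, c⟩ => (a U b c).mono (compl_subset_compl.2 (subset_sUnion_of_mem b))

instance : T1Space L := ⟨fun x => ⟨fun _ => by simp⟩⟩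

instance : NormalSpace L := ⟨fun s t a b c => (em (o ∈ s)).elim (fun k => ⟨tᶜ, t, b.1,
  fun e => (disjoint_left.1 c k e).elim, c.subset_compl_right, subset_rfl, disjoint_compl_left⟩)
    fun k => ⟨s, sᶜ, fun e => (k e).elim, a.1, subset_rfl, c.subset_compl_left, disjoint_compl_right⟩⟩

theorem c1 {f : L → ℝ} (h : {x | f x ≠ f o}.Countable) : Continuous f :=
  ⟨fun U _ k => h.mono fun x a (e : f x = f o) => a (show f x ∈ U from e.symm ▸ k)⟩

theorem c2 (f : C(L, ℝ)) : {x | f x ≠ f o}.Countable := by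
  refine (countable_iUnion fun n : ℕ => (Metric.isOpen_ball (x := f o)
    (ε := 1 / (n + 1))).preimage f.2 (Metric.mem_ball_self Nat.one_div_pos_of_nat)).mono fun x hx => ?_
  obtain ⟨n, hn⟩ := exists_nat_one_div_lt (dist_pos.2 hx)
  exact mem_iUnion.2 ⟨n, hn.not_gt⟩

theorem inj : ∃ γ : C(L, ℝ) × ℕ → L, γ.Injective ∧ ∀ c, γ c ≠ o := by
  choose s hs using fun f : C(L, ℝ) => ((c2 f).insert o).exists_eq_range (insert_nonempty _ _)
  have : Function.Injective fun f : C(L, ℝ) => (s f, f ∘ s f) := fun f g e => by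
    have e1 : s f = s g := congrArg Prod.fst e
    have e2 : ∀ x ∈ range (s f), f x = g x := by
      rintro _ ⟨n, rfl⟩
      exact (congrFun (congrArg Prod.snd e) n).trans (by simp [e1])
    ext x
    by_cases k : x ∈ range (s f)
    · exact e2 x k
    · rw [not_not.1 fun a => k ((hs f).le (Or.inr a)), not_not.1 fun a => k (e1 ▸ (hs g).le (Or.inr a)),
        e2 _ ((hs f).le (Or.inl rfl))]
  have k := Cardinal.mk_le_of_injective (this.prodMap (Function.injective_id (α := ℕ)))
  have : Cardinal.mk L = Cardinal.continuum := by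
    simp [L, Cardinal.mk_real, Cardinal.add_one_eq Cardinal.aleph0_le_continuum]
  obtain ⟨γ⟩ := (Cardinal.le_def _ ℝ).1 (k.trans (by simp [this, Cardinal.mk_real]))
  exact ⟨some ∘ γ, (Option.some_injective _).comp γ.2, fun _ => Option.some_ne_none _⟩

theorem unc {S : Set L} (h : S.Countable) : ∃ x ≠ o, x ∉ S := by
  obtain ⟨r, hr⟩ := not_forall.1 fun k : ∀ r : ℝ, some r ∈ S => Cardinal.not_countable_real
    ((h.preimage (Option.some_injective _)).mono fun r _ => k r)
  exact ⟨some r, Option.some_ne_none _, hr⟩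

theorem result :
    ¬ (∀ (X : Type) [TopologicalSpace X] [T35Space X] (D : Set C(X, ℝ)),
      (∀ f : C(X, ℝ), ∀ ε : ℝ, 0 < ε → ∃ g ∈ D, ∀ x : X, |f x - g x| < ε) →
      (∃ N : Set C(X, ℝ) → Set (Set C(X, ℝ)),
        (∀ A : Set C(X, ℝ), A ⊆ D → A.Countable →
          (N A).Countable ∧ (∀ n ∈ N A, n ⊆ D) ∧
          ∀ y ∈ D,
            y ∈ @closure _ (TopologicalSpace.induced (fun f : C(X, ℝ) => (⇑f : X → ℝ)) inferInstance) A →
            ∀ U : Set C(X, ℝ),
              @IsOpen _ (TopologicalSpace.induced (fun f : C(X, ℝ) => (⇑f : X → ℝ)) inferInstance) U →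
              y ∈ U → ∃ n ∈ N A, y ∈ n ∧ n ⊆ U) ∧
        (∀ A B : Set C(X, ℝ), A ⊆ B → B ⊆ D → B.Countable → N A ⊆ N B) ∧
        (∀ A : ℕ → Set C(X, ℝ), Monotone A → (∀ k, A k ⊆ D ∧ (A k).Countable) →
          N (⋃ k, A k) = ⋃ k, N (A k))) →
      (∃ N : Set C(X, ℝ) → Set (Set C(X, ℝ)),
        (∀ A : Set C(X, ℝ), A.Countable →
          (N A).Countable ∧
          ∀ y : C(X, ℝ),
            y ∈ @closure _ (TopologicalSpace.induced (fun f : C(X, ℝ) => (⇑f : X → ℝ)) inferInstance) A →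
            ∀ U : Set C(X, ℝ),
              @IsOpen _ (TopologicalSpace.induced (fun f : C(X, ℝ) => (⇑f : X → ℝ)) inferInstance) U →
              y ∈ U → ∃ n ∈ N A, y ∈ n ∧ n ⊆ U) ∧
        (∀ A B : Set C(X, ℝ), A ⊆ B → B.Countable → N A ⊆ N B) ∧
        (∀ A : ℕ → Set C(X, ℝ), Monotone A → (∀ k, (A k).Countable) →
          N (⋃ k, A k) = ⋃ k, N (A k)))) := by
  intro H
  classical
  obtain ⟨γ, hγ, h0⟩ := inj
  have : ∀ c : C(L, ℝ) × ℕ, ∃ g : C(L, ℝ), (∀ x, |c.1 x - g x| < 1 / (c.2 + 1)) ∧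
      g (γ c) ≠ g o := fun c => by
    obtain ⟨t, t1, t2⟩ := ((Ioo_infinite (a := c.1 (γ c)) (b := c.1 (γ c) + 1 / (c.2 + 1))
      (by simpa using Nat.cast_add_one_pos c.2)).sdiff (finite_singleton (c.1 o))).nonempty
    have k : Function.update c.1 (γ c) t o = c.1 o := Function.update_of_ne (h0 c).symm _ _
    refine ⟨⟨Function.update c.1 (γ c) t, c1 (((c2 c.1).insert (γ c)).mono
      fun x hx => (em _).imp_right fun e => ?_)⟩, fun x => ?_, ?_⟩
    · rwa [mem_ofPred_eq, k, Function.update_of_ne e] at hx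
    · change |_ - Function.update c.1 (γ c) t x| < _
      rcases eq_or_ne x (γ c) with rfl | e
      · rw [Function.update_self, abs_lt]
        constructor <;> linarith [t1.1, t1.2]
      · rw [Function.update_of_ne e, sub_self, abs_zero]
        exact Nat.one_div_pos_of_nat
    · change Function.update c.1 (γ c) t _ ≠ Function.update c.1 (γ c) t _
      rwa [k, Function.update_self]
  choose ι i1 i2 using this
  let τ : TopologicalSpace C(L, ℝ) := .induced (fun f : C(L, ℝ) => (⇑f : L → ℝ)) inferInstance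
  have ev : ∀ x, Continuous fun f : C(L, ℝ) => f x := fun x =>
    (continuous_apply x).comp continuous_induced_dom
  obtain ⟨N, n1, n2, n3⟩ := H L (range ι) (fun f ε k => (exists_nat_one_div_lt k).elim fun n hn =>
    ⟨_, ⟨(f, n), rfl⟩, fun x => (i1 (f, n) x).trans hn⟩) ⟨fun A => (fun c => {ι c}) ''
      ⋃ a ∈ A, {c | a (γ c) ≠ a o}, fun A _ hA => ⟨(hA.biUnion fun a _ => (c2 a).preimage
        hγ).image _, forall_mem_image.2 fun c _ => by simp, by
          rintro _ ⟨c, rfl⟩ k U - u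
          obtain ⟨a, a1, a2⟩ := mem_closure_iff.1 k _ (isOpen_ne_fun (ev _) (ev _)) (i2 c)
          exact ⟨_, ⟨c, mem_biUnion a2 a1, rfl⟩, rfl, by simpa⟩⟩,
      fun A B k _ _ => image_mono (biUnion_subset_biUnion_left k), fun A _ _ => by
        simp only [biUnion_iUnion, image_iUnion]⟩
  have : ∀ S : Set L, ∃ g : C(L, ℝ), S.Countable → ∀ x, g x = (S \ {o}).indicator 1 x := fun S => by
    by_cases k : S.Countable
    · exact ⟨⟨_, c1 (k.mono fun x hx => by_contra fun e => hx (show (S \ {o}).indicator 1 x = _ by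
        simp [e]))⟩, fun _ _ => rfl⟩
    · exact ⟨0, fun e => absurd e k⟩
  choose χ hχ using this
  have : ∀ M : Set C(L, ℝ), ∃ z : L, (∃ x ≠ o, ∀ f ∈ M, f x < 1) → z ≠ o ∧ ∀ f ∈ M, f z < 1 :=
    fun M => (em _).elim (fun ⟨x, k⟩ => ⟨x, fun _ => k⟩) fun k : ¬∃ x ≠ o, ∀ f ∈ M, f x < 1 =>
      ⟨o, fun e => absurd e k⟩
  choose z hz using this
  let A : ℕ → Set C(L, ℝ) := fun n => n.rec ∅ fun _ B => insert (χ (z '' N B)) B
  have a1 : ∀ n, (A n).Countable := fun n => n.rec countable_empty fun _ k => k.insert _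
  have a2 : Monotone A := monotone_nat_of_le_succ fun n => subset_insert _ _
  have a3 : ∀ n, (z '' N (A n)).Countable := fun n => (n1 _ (a1 n)).1.image _
  obtain ⟨x, x0, hx⟩ := unc (countable_iUnion a3)
  obtain ⟨M, m1, m2, m3⟩ := (n1 _ (countable_iUnion a1)).2 (χ (⋃ n, z '' N (A n)))
    (mem_closure_of_tendsto (f := fun n => χ (z '' N (A n))) (b := atTop) (by
      rw [nhds_induced, tendsto_comap_iff, tendsto_pi_nhds]
      refine fun y => tendsto_const_nhds.congr' ?_
      simp only [Function.comp, hχ _ (a3 _), hχ _ (countable_iUnion a3)]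
      by_cases k : y ∈ ⋃ n, z '' N (A n)
      · obtain ⟨n, hn⟩ := mem_iUnion.1 k
        filter_upwards [eventually_ge_atTop n] with m hm
        simp only [indicator, Set.mem_sdiff, k, image_mono (n2 _ _ (a2 hm) (a1 m)) hn]
      · refine .of_forall fun m => ?_
        simp only [indicator, Set.mem_sdiff, k, mt (subset_iUnion (fun n => z '' N (A n)) m ·) k])
      (.of_forall fun n => mem_iUnion.2 ⟨n + 1, Or.inl rfl⟩)) {f | f x < 1}
    (isOpen_lt (ev _) continuous_const) (by simp [hχ _ (countable_iUnion a3), indicator_of_notMem, hx])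
  obtain ⟨k1, k2⟩ := hz M ⟨x, x0, m3⟩
  obtain ⟨n, hn⟩ := mem_iUnion.1 ((n3 A a2 a1).le m1)
  have := k2 _ m2
  rw [hχ _ (countable_iUnion a3), indicator_of_mem (mem_sdiff_of_mem (mem_iUnion.2
    ⟨n, mem_image_of_mem z hn⟩) (t := {o}) k1)] at this
  exact this.false

end Pool.Agent.S13094
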