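import Pool.Statements.S13106
-- import your own Pool.Agent.* helpers here
import Pool.Agent.H.MP_46ea74_gt.B

set_option autoImplicit false
open MeasureTheory
open scoped Pointwise
open Pool Pool.MP_46ea74_gt

namespace Pool.Agent.S13106

theorem result :
    ¬ (∀ n : ℕ, 2 ≤ n → ∀ p : ℝ, 0 ≤ p → p ≤ 1 →
  ∀ K L : Set (EuclideanSpace ℝ (Fin n)),
    Convex ℝ K → IsCompact K → (interior K).Nonempty → (0 : EuclideanSpace ℝ (Fin n)) ∈ K →
    Convex ℝ L → IsCompact L → (interior L).Nonempty → (0 : EuclideanSpace ℝ (Fin n)) ∈ L →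
    ∀ Sp : Set (EuclideanSpace ℝ (Fin n)) → ℝ,
      (∀ A : Set (EuclideanSpace ℝ (Fin n)), Sp A =
        ∫ x in frontier A,
          (sSup {t : ℝ | ∃ u : EuclideanSpace ℝ (Fin n), ‖u‖ = 1 ∧
            (∀ y ∈ A, @inner ℝ _ _ y u ≤ @inner ℝ _ _ x u) ∧ t = @inner ℝ _ _ x u}) ^ (1 - p)
          ∂(μH[(n : ℝ) - 1])) →
      Sp K ^ (1 / ((n : ℝ) - p)) + Sp L ^ (1 / ((n : ℝ) - p))
        ≤ Sp (K + L) ^ (1 / ((n : ℝ) - p))) := by
  intro H
  open Pool.Agent.H.MP_46ea74_gt in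
  have := H 2 le_rfl (1 / 2) (by norm_num) (by norm_num) K L (Pol.convex _ _ _)
    (Pol.compact 135 fun x hx => by
      obtain ⟨_, _, _, _, _⟩ := (memK x).1 hx
      constructor <;> rw [abs_le] <;> constructor <;> linarith)
    ⟨0, Pol.int fun j => by fin_cases j <;> simp⟩ ((memK 0).2 (by simp)) (Pol.convex _ _ _)
    (Pol.compact 135 fun x hx => by
      obtain ⟨_, _, _, _, _⟩ := (memL x).1 hx
      constructor <;> rw [abs_le] <;> constructor <;> linarith)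
    ⟨0, Pol.int fun j => by fin_cases j <;> simp⟩ ((memL 0).2 (by simp)) S (fun A => by
      rw [S, show ((2 : ℕ) : ℝ) - 1 = 1 by norm_num, show (1 : ℝ) - 1 / 2 = 1 / 2 by norm_num])
  rw [show (1 : ℝ) / (((2 : ℕ) : ℝ) - 1 / 2) = 2 / 3 by norm_num] at this
  exact absurd Pool.Agent.H.MP_46ea74_gt.main (not_lt.2 this)

end Pool.Agent.S13106
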