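import Pool.Statements.S13109
import Pool.Agent.Lib.helper23.MinC

set_option autoImplicit false
open scoped Pointwise
open Pool Pool.MP_47df8f_gt

namespace Pool.Agent.S13109



theorem result :
    ∀ (G : Type) [Group G] [t : TopologicalSpace G] [IsTopologicalGroup G] [T2Space G],
      Group.IsNilpotent G →
      (∀ U ∈ nhds (1 : G), ∃ F : Finset G, ∀ x : G, ∃ g ∈ F, x ∈ g • U) →
      (∀ t' : TopologicalSpace G, t ≤ t' → @IsTopologicalGroup G t' _ → @T2Space G t' → t' = t) →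
      (∀ (A : Set G) (x : G), x ∈ closure A → ∃ B ⊆ A, B.Countable ∧ x ∈ closure B) →
      TopologicalSpace.MetrizableSpace G := by
  intro G _ _ _ _ hN hP hL ht
  refine Pool.Agent.Lib.helper23.MinC.nil hN (fun U hU => ?_) (fun σ h1 h2 h3 _ => hL σ h3 h1 h2)
    fun A x hx => (ht A x hx).imp fun B hB => ⟨hB.1, hB.2.1.le_aleph0, hB.2.2⟩
  obtain ⟨F, hF⟩ := hP U hU
  exact ⟨F, F.finite_toSet, fun x => (hF x).imp fun g hg =>
    ⟨hg.1, Set.mem_smul_set_iff_inv_smul_mem.1 hg.2⟩⟩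

end Pool.Agent.S13109
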