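import Pool.Statements.S13122
import Pool.Agent.H.MP_49a423.A

set_option autoImplicit false
open Pool Pool.MP_49a423_gt

namespace Pool.Agent.S13122

theorem result :
    ¬ (∀ (K : Type) [TopologicalSpace K] [CompactSpace K] [T2Space K],
      (∃ A : Set K, Dense A ∧ ∃ (Γ : Type) (φ : K → (Γ → ℝ)),
          Topology.IsEmbedding φ ∧ A = φ ⁻¹' {x : Γ → ℝ | {γ : Γ | x γ ≠ 0}.Countable}) →
      ∀ h : K → K, Continuous h → (∀ x, h (h x) = x) →
        ∃ A : Set K, Dense A ∧ (∀ x, h x ∈ A ↔ x ∈ A) ∧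
          ∃ (Γ : Type) (φ : K → (Γ → ℝ)),
            Topology.IsEmbedding φ ∧ A = φ ⁻¹' {x : Γ → ℝ | {γ : Γ | x γ ≠ 0}.Countable}) := by
  intro H
  obtain ⟨A, hA, hinv, Γ, φ, hφ, rfl⟩ := H _ Pool.Agent.H.MP_49a423.vald _
    Pool.Agent.H.MP_49a423.hc Pool.Agent.H.MP_49a423.hi
  exact Pool.Agent.H.MP_49a423.main φ hφ hA fun x hx => (hinv x).2 hx

end Pool.Agent.S13122
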