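import Pool.Statements.S13144
import Pool.Agent.H.MP_4d09b6.B

set_option autoImplicit false
open Pool Pool.MP_4d09b6_gt

namespace Pool.Agent.S13144

theorem result :
    ¬ (∀ (X Y : Type) [TopologicalSpace X] [TopologicalSpace Y] [T35Space X] [T35Space Y],
      (∃ φ : Homeomorph (X → ℝ) (Y → ℝ),
          φ '' {f : X → ℝ | Continuous f} = {g : Y → ℝ | Continuous g}) →
      Nonempty (UniformEquiv {f : X → ℝ // Continuous f} {g : Y → ℝ // Continuous g})) := by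
  open Pool.Agent.H.MP_4d09b6 in
  intro H
  obtain ⟨e, he⟩ := lemA
  obtain ⟨e1, h1⟩ := Pool.Agent.H.MP_866953.base (a := ((0, 0, 0) : A)) FXc
  obtain ⟨e3, h3⟩ := Pool.Agent.H.MP_866953.base (a := (Sum.inr (0, 0, 0) : ℕ × ℕ ⊕ A)) FYc
  have t1 := Pool.Agent.H.MP_866953.t4 (a := ((0, 0, 0) : A)) FXc
  have t3 := Pool.Agent.H.MP_866953.t4 (a := (Sum.inr (0, 0, 0) : ℕ × ℕ ⊕ A)) FYc
  let φ := (e1.toHomeomorph.trans e).trans e3.symm.toHomeomorph
  have hφ : ∀ f, Continuous f ↔ Continuous (φ f) := fun f => by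
    rw [h1, he, h3]
    exact iff_of_eq (congrArg (fun u => Filter.Tendsto u FY (nhds 0)) (e3.apply_symm_apply _).symm)
  obtain ⟨Φ⟩ := H _ _ ⟨φ, Set.ext fun g => ⟨by
      rintro ⟨f, hf, rfl⟩
      exact (hφ f).1 hf, fun hg => ⟨φ.symm g, (hφ _).2 (by simpa using hg), φ.apply_symm_apply g⟩⟩⟩
  exact nu (((e3.subtype h3).symm.trans Φ.symm).trans (e1.subtype h1))

end Pool.Agent.S13144
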