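import Pool.Statements.S13154
import Pool.Agent.H.MP_32433e.B

set_option autoImplicit false
open Pool Pool.MP_4f6a4e_gt

namespace Pool.Agent.S13154

theorem result :
    ¬ (∀ (X : Type) [TopologicalSpace X] [CompactSpace X] [T2Space X],
      (∀ A : Set X, Cardinal.mk ↥A ≤ Cardinal.continuum →
        ∃ (𝒞 𝒩 : Set (Set C(↥(closure A), ℝ))), 𝒩.Countable ∧ ⋃₀ 𝒞 = Set.univ ∧
          ∀ C ∈ 𝒞,
            @IsCompact _ (TopologicalSpace.induced
              (fun f : C(↥(closure A), ℝ) => (⇑f : ↥(closure A) → ℝ)) inferInstance) C ∧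
            ∀ U : Set C(↥(closure A), ℝ),
              @IsOpen _ (TopologicalSpace.induced
                (fun f : C(↥(closure A), ℝ) => (⇑f : ↥(closure A) → ℝ)) inferInstance) U →
              C ⊆ U → ∃ N ∈ 𝒩, C ⊆ N ∧ N ⊆ U) →
      ∃ (𝒞 𝒩 : Set (Set C(X, ℝ))), 𝒩.Countable ∧ ⋃₀ 𝒞 = Set.univ ∧
        ∀ C ∈ 𝒞,
          @IsCompact _ (TopologicalSpace.induced
            (fun f : C(X, ℝ) => (⇑f : X → ℝ)) inferInstance) C ∧
          ∀ U : Set C(X, ℝ),
            @IsOpen _ (TopologicalSpace.induced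
              (fun f : C(X, ℝ) => (⇑f : X → ℝ)) inferInstance) U →
            C ⊆ U → ∃ N ∈ 𝒩, C ⊆ N ∧ N ⊆ U) := by
  exact fun h => H.MP_32433e.ngu (H.MP_32433e.cm.1 (h _ fun A e =>
    H.MP_32433e.cm.2 (H.MP_32433e.one A e)))

end Pool.Agent.S13154
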