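import Pool.Statements.S13161
import Pool.Agent.H.MP_e9bccb.L

set_option autoImplicit false
open Pool Pool.MP_51c861_gt

namespace Pool.Agent.S13161

theorem result :
    ∀ (X : Type) [TopologicalSpace X] [T35Space X],
      (∀ f : X → ℝ, Continuous f → ∃ M : ℝ, ∀ x, |f x| ≤ M) →
      (∀ A : Set X, ∃ (Γ : Type) (K : Set (Γ → ℝ)) (f : X → (Γ → ℝ)),
          IsCompact K ∧
          (∀ y ∈ K, ∀ ε : ℝ, 0 < ε → Set.Finite {γ : Γ | ε ≤ |y γ|}) ∧
          Continuous f ∧ (∀ x, f x ∈ K) ∧ f ⁻¹' (f '' A) = A) →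
      CompactSpace X ∧
        ∃ (Γ : Type) (e : X → (Γ → ℝ)), Topology.IsEmbedding e ∧
          ∀ x, ∀ ε : ℝ, 0 < ε → Set.Finite {γ : Γ | ε ≤ |e x γ|} := by
  intro X _ _ pc hX
  have he := isEmbedding_stoneCechUnit (X := X)
  have h1 := fun G hG => H.MP_e9bccb.ps he.continuous denseRange_stoneCechUnit pc (G := G) hG
  choose U U1 U2 using H.MP_e9bccb.ult h1 fun A => by
    obtain ⟨Γ, K, f, k1, k2, f1, f2, f3⟩ := hX (stoneCechUnit ⁻¹' A)
    have := isCompact_iff_compactSpace.1 k1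
    have c := continuous_subtype_val.comp (continuous_stoneCechExtend (f1.codRestrict f2))
    refine ⟨Set.range fun γ => ⟨_, (continuous_apply γ).comp c⟩, fun z ε h0 =>
      ((k2 _ (stoneCechExtend (f1.codRestrict f2) z).2 ε h0).image
        fun γ => ⟨_, (continuous_apply γ).comp c⟩).subset ?_, ?_⟩
    · rintro _ ⟨⟨γ, rfl⟩, e⟩
      exact ⟨γ, e, rfl⟩
    · rintro _ ⟨x, rfl⟩ _ ⟨y, rfl⟩ e hx
      exact f3.le ⟨x, hx, funext fun γ => by simpa using e _ ⟨γ, rfl⟩⟩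
  have : CompactSpace X := ⟨he.isInducing.isCompact_iff.2 (by
    rw [Set.image_univ, H.MP_e9bccb.pcS U1 U2]
    exact isCompact_univ)⟩
  obtain ⟨Γ, e, e1, -, e3⟩ := H.MP_e9bccb.ebl (X := X) fun A => by
    obtain ⟨Γ, K, f, -, k2, f1, f2, f3⟩ := hX A
    exact ⟨Γ, f, f1, fun x => k2 _ (f2 x), fun x y k hx => f3.le ⟨x, hx, k⟩⟩
  exact ⟨this, Γ, e, e1, e3⟩

end Pool.Agent.S13161
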