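import Pool.Statements.S13188
-- import your own Pool.Agent.* helpers here

set_option autoImplicit false
open Pool Pool.MP_55e428_gt

namespace Pool.Agent.S13188

open Set Filter Topology

def K : Set (ℝ → ℝ) := {x | (∀ a, x a ∈ Icc (0 : ℝ) 1) ∧ ∀ a b, a ≠ b → x a = 0 ∨ x b = 0}

def Z : Set (ℝ → ℝ) := {g | (∀ a, 0 ≤ g a) ∧ {a | g a ≠ 0}.Finite}

theorem cK : IsCompact K := by
  refine (isCompact_pi_infinite fun _ => isCompact_Icc).inter_right ?_
  change IsClosed {x : ℝ → ℝ | ∀ a b, a ≠ b → x a = 0 ∨ x b = 0}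
  simp only [ofPred_forall]
  exact isClosed_iInter fun a => isClosed_iInter fun b => isClosed_iInter fun _ =>
    (isClosed_eq (continuous_apply a) continuous_const).union
      (isClosed_eq (continuous_apply b) continuous_const)

theorem sZ : IsSigmaCompact Z := by
  refine ⟨fun n => {g | ∀ a, g a ∈ Icc (0 : ℝ) n} ∩
    ⋂ s ∈ {s : Finset ℝ | n < s.card}, ⋃ a ∈ s, {g | g a = 0}, fun n =>
    (isCompact_pi_infinite fun _ => isCompact_Icc).inter_right (isClosed_biInter fun s _ =>
      s.finite_toSet.isClosed_biUnion fun a _ =>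
        isClosed_eq (continuous_apply a) continuous_const), Subset.antisymm ?_ fun g hg => ?_⟩
  · refine iUnion_subset fun n g hg => ⟨fun a => (hg.1 a).1, by_contra fun h => ?_⟩
    obtain ⟨s, s1, s2⟩ := Set.Infinite.exists_subset_card_eq h (n + 1)
    obtain ⟨a, a1, a2⟩ := mem_iUnion₂.1 (mem_iInter₂.1 hg.2 s (by simp [s2]))
    exact s1 a1 a2
  · obtain ⟨c, hc⟩ := (hg.2.image g).bddAbove
    obtain ⟨n, hn⟩ := exists_nat_ge (max c hg.2.toFinset.card)
    refine mem_iUnion.2 ⟨n, fun a => ⟨hg.1 a, ?_⟩, mem_iInter₂.2 fun s hs => by_contra fun h => ?_⟩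
    · by_cases h : g a = 0
      · simp [h]
      · exact (hc ⟨a, h, rfl⟩).trans ((le_max_left _ _).trans hn)
    · exact (Finset.card_le_card (t := hg.2.toFinset) fun a ha => hg.2.mem_toFinset.2 fun h1 =>
        h (mem_biUnion ha h1)).not_gt (lt_of_le_of_lt (by exact_mod_cast (le_max_right _ _).trans hn)
          (show n < s.card from hs))

noncomputable def e (a : ℝ) : K := ⟨Pi.single a 1, fun b => by
  by_cases h : b = a <;> simp [h], fun b c h => by
  by_cases h1 : b = a
  · exact Or.inr (Pi.single_eq_of_ne (h1 ▸ h.symm) _)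
  · exact Or.inl (Pi.single_eq_of_ne h1 _)⟩

def o : K := ⟨0, fun _ => by simp, fun _ _ _ => Or.inl rfl⟩

noncomputable def φ (f : {f : K → ℝ // Continuous f}) : Z :=
  ⟨fun a => max (|f.1 (e a) - f.1 o| - 1) 0, fun _ => le_max_right _ _, by
    have h : Tendsto e cofinite (𝓝 o) := tendsto_subtype_rng.2 (tendsto_pi_nhds.2 fun b =>
      tendsto_const_nhds.congr' (mem_of_superset (finite_singleton b).compl_mem_cofinite
        fun a ha => by
          have : b ≠ a := Ne.symm ha
          simp [e, o, this]))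
    refine Finite.subset (eventually_cofinite.1 (((f.2.tendsto o).comp h).eventually
      (Metric.ball_mem_nhds _ one_pos))) fun a ha h1 => ha (max_eq_right ?_)
    have : |f.1 (e a) - f.1 o| < 1 := h1
    linarith⟩

theorem result :
    ¬ (∀ (Γ : Type) (K : Set (Γ → ℝ)), IsCompact K →
      (∀ x ∈ K, ∀ ε : ℝ, 0 < ε → {γ : Γ | ε < |x γ|}.Finite) →
      ∀ (Y : Type) [TopologicalSpace Y] [T35Space Y] [SigmaCompactSpace Y]
        (φ : {f : K → ℝ // Continuous f} → Y), Continuous φ → Function.Surjective φ →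
        ∃ N : Set (Set Y), N.Countable ∧
          ∀ U : Set Y, IsOpen U → ∀ y ∈ U, ∃ A ∈ N, y ∈ A ∧ A ⊆ U) := by
  intro h
  have : SigmaCompactSpace Z := isSigmaCompact_iff_sigmaCompactSpace.1 sZ
  obtain ⟨N, n1, n2⟩ := h ℝ K cK (fun x hx ε hε => Set.Subsingleton.finite fun a ha b hb =>
    by_contra fun h => by
      rcases hx.2 a b h with h1 | h1
      · simp [h1, hε.not_gt] at ha
      · simp [h1, hε.not_gt] at hb) Z φ (continuous_induced_rng.2 (continuous_pi fun a => by
    have h1 : ∀ x, Continuous fun f : {f : K → ℝ // Continuous f} => f.1 x := fun x =>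
      (continuous_apply x).comp continuous_subtype_val
    exact ((((h1 _).sub (h1 _)).abs).sub continuous_const).max continuous_const)) fun g => by
      refine ⟨⟨fun x => ∑ b ∈ g.2.2.toFinset, (g.1 b + 1) * x.1 b, continuous_finset_sum _ fun b _ =>
        continuous_const.mul ((continuous_apply b).comp continuous_subtype_val)⟩,
        Subtype.ext (funext fun a => ?_)⟩
      have := g.2.1 a
      by_cases h : g.1 a = 0
      · simp [φ, e, o, Pi.single_apply, h]
      · simp [φ, e, o, Pi.single_apply, h, abs_of_nonneg (by linarith : 0 ≤ g.1 a + 1), this]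
  have h1 : ∀ a, (e a).1 ∈ Z := fun a => ⟨fun b => ((e a).2.1 b).1, (finite_singleton a).subset
    fun b hb => by_contra fun h => hb (Pi.single_eq_of_ne h _)⟩
  choose A a1 a2 a3 using fun a => n2 {g | g.1 a ≠ 0} (isOpen_ne_fun
    ((continuous_apply a).comp continuous_subtype_val) continuous_const) ⟨_, h1 a⟩ (by simp [e])
  exact not_countable_univ ((n1.preimage (f := A) fun a b h => by_contra fun h2 =>
    a3 a (h ▸ a2 b) (Pi.single_eq_of_ne h2 _)).mono fun a _ => a1 a)

end Pool.Agent.S13188
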