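import Pool.Statements.S13207
import Pool.Agent.H.MP_594704_gt.J

set_option autoImplicit false
open Pool Pool.MP_594704_gt

namespace Pool.Agent.S13207

theorem result :
    ∀ n : ℕ, 2 ≤ n →
      (∀ (M : Set (EuclideanSpace ℝ (Fin n)))
          (d : EuclideanSpace ℝ (Fin n) → EuclideanSpace ℝ (Fin n) → ℝ),
        M.Nonempty → IsOpen M → Convex ℝ M →
        (∀ x ∈ M, d x x = 0) →
        (∀ x ∈ M, ∀ y ∈ M, d x y = d y x) →
        (∀ x ∈ M, ∀ y ∈ M, d x y = 0 → x = y) →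
        (∀ x ∈ M, ∀ y ∈ M, ∀ z ∈ M, d x z ≤ d x y + d y z) →
        (∀ x ∈ M, ∀ V : Set (EuclideanSpace ℝ (Fin n)),
          (V ∈ nhds x ↔ ∃ r : ℝ, 0 < r ∧ ∀ y ∈ M, d x y < r → y ∈ V)) →
        (∀ x ∈ M, ∀ y ∈ M, ∀ z ∈ M, (d x y + d y z = d x z ↔ y ∈ segment ℝ x z)) →
        (∀ p ∈ M, ∀ v : EuclideanSpace ℝ (Fin n), v ≠ 0 →
          ∃ f : ℝ → EuclideanSpace ℝ (Fin n),
            (∀ s t : ℝ, d (f s) (f t) = |s - t|) ∧
            Set.range f = {x | x ∈ M ∧ ∃ t : ℝ, x = p + t • v}) →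
        (∀ x ∈ M, ∀ y ∈ M, ∀ z ∈ M, ∀ w ∈ M,
          d x z * d y w ≤ d x y * d z w + d y z * d w x) →
        (∃ φ : EuclideanSpace ℝ (Fin n) → EuclideanSpace ℝ (Fin n),
            Set.BijOn φ M Set.univ ∧ ∀ x ∈ M, ∀ y ∈ M, dist (φ x) (φ y) = d x y) ∨
        (∃ k : ℝ, 0 < k ∧ ∃ φ : EuclideanSpace ℝ (Fin n) → EuclideanSpace ℝ (Fin n),
            Set.BijOn φ M (Metric.ball 0 1) ∧ ∀ x ∈ M, ∀ y ∈ M,
              d x y = (1 / Real.sqrt k) * Real.log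
                ((1 + 2 * ‖φ x - φ y‖ ^ 2 / ((1 - ‖φ x‖ ^ 2) * (1 - ‖φ y‖ ^ 2))) +
                  Real.sqrt ((1 + 2 * ‖φ x - φ y‖ ^ 2 /
                    ((1 - ‖φ x‖ ^ 2) * (1 - ‖φ y‖ ^ 2))) ^ 2 - 1)))) ∧
      (∀ d : Projectivization ℝ (Fin (n + 1) → ℝ) → Projectivization ℝ (Fin (n + 1) → ℝ) → ℝ,
        (∀ x, d x x = 0) →
        (∀ x y, d x y = d y x) →
        (∀ x y, d x y = 0 → x = y) →
        (∀ x y z, d x z ≤ d x y + d y z) →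
        (∃ L : ℝ, 0 < L ∧ ∀ W : Submodule ℝ (Fin (n + 1) → ℝ), Module.finrank ℝ W = 2 →
          ∃ f : AddCircle L → Projectivization ℝ (Fin (n + 1) → ℝ),
            (∀ a b : AddCircle L, d (f a) (f b) = dist a b) ∧
            Set.range f = {p | p.submodule ≤ W}) →
        (∀ x y z w, d x z * d y w ≤ d x y * d z w + d y z * d w x) →
        (∃ φ : Projectivization ℝ (Fin (n + 1) → ℝ) → EuclideanSpace ℝ (Fin n),
            Function.Bijective φ ∧ ∀ x y, dist (φ x) (φ y) = d x y) ∨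
        (∃ k : ℝ, 0 < k ∧ ∃ φ : Projectivization ℝ (Fin (n + 1) → ℝ) → EuclideanSpace ℝ (Fin n),
            Set.BijOn φ Set.univ (Metric.ball 0 1) ∧ ∀ x y,
              d x y = (1 / Real.sqrt k) * Real.log
                ((1 + 2 * ‖φ x - φ y‖ ^ 2 / ((1 - ‖φ x‖ ^ 2) * (1 - ‖φ y‖ ^ 2))) +
                  Real.sqrt ((1 + 2 * ‖φ x - φ y‖ ^ 2 /
                    ((1 - ‖φ x‖ ^ 2) * (1 - ‖φ y‖ ^ 2))) ^ 2 - 1)))) := by
  intro n hn
  refine ⟨fun M d hne hop hcv h1 h2 h3 h4 h5 h6 h7 h8 => ?_, fun d _ _ _ _ hL h8 => ?_⟩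
  · have hd : Pool.Agent.H.MP_594704_gt.Dim2 (EuclideanSpace ℝ (Fin n)) :=
      Pool.Agent.H.MP_594704_gt.dim2_of (by simpa using hn)
    have : Nontrivial (EuclideanSpace ℝ (Fin n)) :=
      Module.nontrivial_of_finrank_pos (R := ℝ) (by simp; omega)
    obtain ⟨v0, hv⟩ := exists_ne (0 : EuclideanSpace ℝ (Fin n))
    exact Pool.Agent.H.MP_594704_gt.main1
      (Pool.Agent.H.MP_594704_gt.mkPM hop hcv h1 h2 h3 h4 h5 h6 h7 h8) hne hd hv
  · obtain ⟨L, L0, hW⟩ := hL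
    obtain ⟨g, hg⟩ := exists_linearIndependent_of_le_finrank (R := ℝ) (M := Fin (n + 1) → ℝ)
      (n := 2) (by simp; omega)
    obtain ⟨f, hf, -⟩ := hW (Submodule.span ℝ (Set.range g)) (by
      rw [finrank_span_eq_card hg]; simp)
    exact (Pool.Agent.H.MP_594704_gt.circle_not L0 f hf h8).elim

end Pool.Agent.S13207
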