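import Pool.Statements.S13232
-- import your own Pool.Agent.* helpers here

set_option autoImplicit false
open Pool Pool.MP_5abde9_gt

namespace Pool.Agent.S13232
open Set Function Topology Filter

abbrev Cen {X : Type} (S : Set (Set X)) : Type :=
  {ξ : S → Bool // ∀ F : Finset S, (∀ P ∈ F, ξ P = true) → (⋂ P ∈ F, P.1).Nonempty}

instance {X : Type} (S : Set (Set X)) : CompactSpace (Cen S) := by
  refine isCompact_iff_compactSpace.1 (IsClosed.isCompact ?_ :
    IsCompact {ξ : S → Bool | ∀ F : Finset S, (∀ P ∈ F, ξ P = true) → (⋂ P ∈ F, P.1).Nonempty})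
  rw [setOf_forall]
  refine isClosed_iInter fun F => ?_
  by_cases h : (⋂ P ∈ F, P.1).Nonempty
  · simp only [h, imp_true_iff, setOf_true, isClosed_univ]
  · simp only [h, imp_false]
    refine IsOpen.isClosed_compl (s := {ξ : S → Bool | ∀ P ∈ F, ξ P = true}) ?_
    have : {ξ : S → Bool | ∀ P ∈ F, ξ P = true} = ⋂ P ∈ F, {ξ | ξ P = true} := by
      ext; simp
    rw [this]
    exact isOpen_biInter_finset fun P _ =>
      (continuous_apply (A := fun _ : S => Bool) P).isOpen_preimage {true} (isOpen_discrete _)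

lemma fin_dep {X : Type} {S : Set (Set X)} (x0 : Cen S) {h : Cen S → Bool} (hc : Continuous h) :
    ∃ F : Finset S, ∀ x y : Cen S, (∀ s ∈ F, x.1 s = y.1 s) → h x = h y := by
  classical
  by_contra hn
  push Not at hn
  let T : Finset S → Set (Cen S × Cen S) := fun F =>
    {p | h p.1 ≠ h p.2} ∩ ⋂ s ∈ F, {p | p.1.1 s = p.2.1 s}
  have hT : ∀ F, IsClosed (T F) := fun F => by
    refine IsClosed.inter ?_ (isClosed_biInter fun s _ => isClosed_eq
      ((continuous_apply s).comp (continuous_subtype_val.comp continuous_fst))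
      ((continuous_apply s).comp (continuous_subtype_val.comp continuous_snd)))
    exact (isClosed_discrete {q : Bool × Bool | q.1 ≠ q.2}).preimage
      ((hc.comp continuous_fst).prodMk (hc.comp continuous_snd))
  obtain ⟨p, hp⟩ := IsCompact.nonempty_iInter_of_directed_nonempty_isCompact_isClosed T
    (fun F G => ⟨F ∪ G, inter_subset_inter_right _ (biInter_subset_biInter_left
      Finset.subset_union_left), inter_subset_inter_right _ (biInter_subset_biInter_left
      Finset.subset_union_right)⟩)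
    (fun F => by
      obtain ⟨x, y, h1, h2⟩ := hn F
      exact ⟨(x, y), h2, mem_iInter₂.2 h1⟩)
    (fun F => (hT F).isCompact) hT
  refine (mem_iInter.1 hp ∅).1 (congrArg h (Subtype.ext (funext fun s => ?_)))
  exact mem_iInter₂.1 (mem_iInter.1 hp {s}).2 s (Finset.mem_singleton_self s)

open Classical in
noncomputable def res {X : Type} {S : Set (Set X)} (x : Cen S) (R : Set S) : Cen S :=
  ⟨fun s => decide (s ∈ R ∧ x.1 s = true), fun F hF => x.2 F fun P hP =>
    (of_decide_eq_true (hF P hP)).2⟩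

lemma res_eq {X : Type} {S : Set (Set X)} (x : Cen S) {R : Set S} {s : S} (h : s ∈ R) :
    (res x R).1 s = x.1 s := by
  simp [res, h]

abbrev G : Type := ℕ → Bool
abbrev Y : Type := Option ℕ × G × G

noncomputable def d (a b : G) : ℕ := sInf {i | a i ≠ b i}

lemma d_comm (a b : G) : d a b = d b a := by simp only [d, ne_comm]

def A (i : ℕ) : Set Y := {p | ∀ n, p.1 = some n → i < n}
def B (n : ℕ) : Set Y := {p | p.1 = some n}
def P (a : G) : Set Y := {p | a = p.2.1 ∨ (a = p.2.2 ∧ p.1 = some (d p.2.1 p.2.2))}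
def S0 : Set (Set Y) := range A ∪ range B ∪ range P
def A' (i : ℕ) : S0 := ⟨A i, Or.inl (Or.inl ⟨i, rfl⟩)⟩
def B' (i : ℕ) : S0 := ⟨B i, Or.inl (Or.inr ⟨i, rfl⟩)⟩
def P' (a : G) : S0 := ⟨P a, Or.inr ⟨a, rfl⟩⟩

lemma S0_inf : S0.Infinite := by
  refine infinite_of_injective_forall_mem (f := B) (fun n m h => ?_) fun n => (B' n).2
  have : ((some n, fun _ => true, fun _ => true) : Y) ∈ B m := h ▸ (rfl : some n = some n)
  exact Option.some.inj this

def C0 : Set (Cen S0) := ⋂ i, ({ξ | ξ.1 (A' i) = true} ∪ ⋃ n ∈ Iic i, {ξ | ξ.1 (B' n) = true})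

lemma clop (s : S0) : IsClopen {ξ : Cen S0 | ξ.1 s = true} :=
  (isClopen_discrete {true}).preimage ((continuous_apply s).comp continuous_subtype_val)

lemma clop' (i : ℕ) :
    IsClopen ({ξ : Cen S0 | ξ.1 (A' i) = true} ∪ ⋃ n ∈ Iic i, {ξ | ξ.1 (B' n) = true}) :=
  (clop _).union ((finite_Iic i).isClopen_biUnion fun _ _ => clop _)

open Classical in
noncomputable def pr (y : Y) : Cen S0 :=
  ⟨fun s => decide (y ∈ s.1), fun _ hF => ⟨y, mem_iInter₂.2 fun s hs => of_decide_eq_true (hF s hs)⟩⟩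

lemma pr_mem (n : ℕ) (a b : G) : pr (some n, a, b) ∈ C0 := by
  classical
  refine mem_iInter.2 fun i => ?_
  rcases lt_or_ge i n with h | h
  · refine Or.inl (decide_eq_true fun m hm => ?_)
    exact Option.some.inj hm ▸ h
  · exact Or.inr (mem_iUnion₂.2 ⟨n, h, decide_eq_true rfl⟩)

lemma PP {a b : G} (h : a ≠ b) {y : Y} (ha : y ∈ P a) (hb : y ∈ P b) : y.1 = some (d a b) := by
  rcases ha with ha | ha <;> rcases hb with hb | hb
  · exact absurd (ha.trans hb.symm) h
  · rw [hb.2, ha, hb.1]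
  · rw [ha.2, hb, ha.1, d_comm]
  · exact absurd (ha.1.trans hb.1.symm) h

lemma key {a b : G} (h : a ≠ b) {ξ : Cen S0} (hξ : ξ ∈ C0) (ha : ξ.1 (P' a) = true)
    (hb : ξ.1 (P' b) = true) : ξ.1 (B' (d a b)) = true := by
  classical
  have k : ∀ s : S0, ξ.1 s = true → ∃ y ∈ s.1, y.1 = some (d a b) := fun s hs => by
    obtain ⟨y, hy⟩ := ξ.2 {s, P' a, P' b} (by simp [hs, ha, hb])
    exact ⟨y, mem_iInter₂.1 hy s (by simp), PP h (mem_iInter₂.1 hy (P' a) (by simp))
      (mem_iInter₂.1 hy (P' b) (by simp))⟩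
  rcases mem_iInter.1 hξ (d a b) with h1 | h1
  · obtain ⟨y, hy, e⟩ := k _ h1
    exact absurd (hy _ e) (lt_irrefl _)
  · obtain ⟨n, -, hn⟩ := mem_iUnion₂.1 h1
    obtain ⟨y, hy, e⟩ := k _ hn
    rw [← Option.some.inj ((show y.1 = some n from hy).symm.trans e)]
    exact hn

lemma uniq {ξ : Cen S0} {n m : ℕ} (hn : ξ.1 (B' n) = true) (hm : ξ.1 (B' m) = true) : n = m := by
  classical
  obtain ⟨y, hy⟩ := ξ.2 {B' n, B' m} (by simp [hn, hm])
  exact Option.some.inj ((show y.1 = some n from mem_iInter₂.1 hy (B' n) (by simp)).symm.trans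
    (mem_iInter₂.1 hy (B' m) (by simp)))

lemma unc : ¬ (univ : Set G).Countable := by
  rw [countable_univ_iff]
  intro hc
  obtain ⟨g, hg⟩ := exists_surjective_nat G
  obtain ⟨n, hn⟩ := hg fun n => !(g n n)
  have := congrFun hn n
  simp at this

theorem result :
    ¬ (∀ (K : Type) [TopologicalSpace K] [CompactSpace K] [T2Space K],
      (∃ (X : Type) (S : Set (Set X)), S.Infinite ∧
        ∃ f : {ξ : S → Bool //
            ∀ F : Finset S, (∀ P ∈ F, ξ P = true) → (⋂ P ∈ F, P.1).Nonempty} → K,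
          Continuous f ∧ Function.Surjective f) →
      ∀ C : Set K, IsClosed C → IsGδ C → C.Nonempty →
        ∃ (X : Type) (S : Set (Set X)), S.Infinite ∧
          ∃ g : {ξ : S → Bool //
              ∀ F : Finset S, (∀ P ∈ F, ξ P = true) → (⋂ P ∈ F, P.1).Nonempty} → C,
            Continuous g ∧ Function.Surjective g) := by
  classical
  intro H
  obtain ⟨X, S, -, g, gc, gs⟩ := H (Cen S0) ⟨Y, S0, S0_inf, id, continuous_id, surjective_id⟩ C0
    (isClosed_iInter fun i => (clop' i).1) (IsGδ.iInter_of_isOpen fun i => (clop' i).2)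
    ⟨_, pr_mem 0 (fun _ => true) fun _ => true⟩
  obtain ⟨x0, -⟩ := gs ⟨_, pr_mem 0 (fun _ => true) fun _ => true⟩
  choose F hF using fun s : S0 => fin_dep x0 (h := fun x => (g x).1.1 s)
    ((continuous_apply s).comp (continuous_subtype_val.comp (continuous_subtype_val.comp gc)))
  let D : Set S := ⋃ n, (F (B' n) : Set S)
  have hD : D.Countable := countable_iUnion fun n => (F _).countable_toSet
  have hN : ∀ R : Set S, R.Finite → ∃ N, ∀ x : Cen S, ∀ n, (g (res x R)).1.1 (B' n) = true →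
      n < N := by
    intro R hR
    have h1 : (range fun x : Cen S => res x R).Finite := by
      refine Finite.of_finite_image (f := fun x => {s | x.1 s = true})
        (hR.finite_subsets.subset ?_) fun x _ y _ e => Subtype.ext (funext fun s => ?_)
      · rintro _ ⟨_, ⟨x, rfl⟩, rfl⟩ s hs
        exact (of_decide_eq_true hs).1
      · exact Bool.eq_iff_iff.2 (Set.ext_iff.1 e s)
    obtain ⟨N, hN⟩ := (h1.biUnion (t := fun z => {n | (g z).1.1 (B' n) = true})
      fun z _ => Set.Subsingleton.finite fun n hn m hm => uniq hn hm).bddAbove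
    exact ⟨N + 1, fun x n hn => Nat.lt_succ_of_le (hN (mem_iUnion₂.2 ⟨_, ⟨x, rfl⟩, hn⟩))⟩
  choose! N hN using hN
  let T : G → Set S := fun a => (F (P' a) : Set S) ∩ D
  have hT : ∀ a, (T a).Finite := fun a => (F _).finite_toSet.inter_of_left _
  have : Countable {R : Set S | R.Finite ∧ R ⊆ D} := (countable_ofPred_finite_subset hD).to_subtype
  let φ : G → {R : Set S | R.Finite ∧ R ⊆ D} × List Bool := fun a =>
    (⟨T a, hT a, inter_subset_right⟩, List.ofFn fun i : Fin (N (T a)) => a i)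
  have : ¬ Injective φ := fun hi => unc (countable_univ_iff.2 hi.countable)
  obtain ⟨a, b, e, hab⟩ : ∃ a b, φ a = φ b ∧ a ≠ b := by
    by_contra hc
    push Not at hc
    exact this fun a b e => hc a b e
  have e1 : T a = T b := congrArg Subtype.val (congrArg Prod.fst e)
  have e2 : ∀ i < N (T a), a i = b i := by
    have := congrArg Prod.snd e
    simp only [φ, ← e1] at this
    exact fun i hi => congrFun (List.ofFn_injective this) ⟨i, hi⟩
  obtain ⟨x, hx⟩ := gs ⟨_, pr_mem (d a b) a b⟩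
  let x' := res x (F (P' a) ∪ F (P' b))
  have k := key hab (g x').2
    ((hF _ x' x fun s hs => res_eq x (Or.inl hs)).trans (by
      simp only [hx]; exact decide_eq_true (Or.inl rfl)))
    ((hF _ x' x fun s hs => res_eq x (Or.inr hs)).trans (by
      simp only [hx]; exact decide_eq_true (Or.inr ⟨rfl, rfl⟩)))
  have := hN (T a) (hT a) x (d a b) ((hF _ _ x' fun s hs => by
    have hs' : s ∈ D := mem_iUnion.2 ⟨_, hs⟩
    have : s ∈ T a ↔ s ∈ (F (P' a) ∪ F (P' b) : Set S) :=
      ⟨fun h => Or.inl h.1, fun h => h.elim (fun h => ⟨h, hs'⟩) fun h => e1 ▸ ⟨h, hs'⟩⟩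
    rw [Bool.eq_iff_iff]
    simp only [x', res, decide_eq_true_eq, this]).trans k)
  exact Nat.sInf_mem (s := {i | a i ≠ b i}) (Function.ne_iff.1 hab) (e2 _ this)

end Pool.Agent.S13232
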