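import Pool.Statements.S13234
import Pool.Agent.H.MP_5b75f6.A

set_option autoImplicit false
open Pool Pool.MP_5b75f6_gt

namespace Pool.Agent.S13234

theorem result :
    ¬ (∀ (X Y : Type) [TopologicalSpace X] [T35Space X] [TopologicalSpace Y] [T35Space Y],
      (∃ e : C(X, ℝ) ≃ C(Y, ℝ),
        @Continuous C(X, ℝ) (Y → ℝ)
          (TopologicalSpace.induced (fun g : C(X, ℝ) => (g : X → ℝ)) inferInstance)
          inferInstance (fun g => ((e g : C(Y, ℝ)) : Y → ℝ)) ∧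
        @Continuous C(Y, ℝ) (X → ℝ)
          (TopologicalSpace.induced (fun g : C(Y, ℝ) => (g : Y → ℝ)) inferInstance)
          inferInstance (fun g => ((e.symm g : C(X, ℝ)) : X → ℝ))) →
      (∃ S : ℕ → Set Y, (⋃ n, S n) = Set.univ ∧
        ∀ n, ∀ f : C(S n, ℝ), ∃ M : ℝ, ∀ a, |f a| ≤ M) →
      (∃ S : ℕ → Set X, (⋃ n, S n) = Set.univ ∧
        ∀ n, ∀ f : C(S n, ℝ), ∃ M : ℝ, ∀ a, |f a| ≤ M)) := by
  open Pool.Agent.H.MP_5b75f6 Set in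
  intro H
  have h' : ∀ u : J, ∃ p, Filter.Tendsto (ContinuousMap.const L (r ⟨0, 0⟩)) (Φ u) (nhds p) :=
    fun _ => ⟨_, tendsto_const_nhds⟩
  obtain ⟨S, h1, h2⟩ := H (XX Φ r) (XX Φ (.const L (r ⟨0, 0⟩))) ⟨E hr h', Tc hr _, Tc h' _⟩ (psY _)
  exact Cardinal.not_countable_real ((countable_iUnion fun n => cnt (h2 n)).mono fun a _ => by
    obtain ⟨n, hn⟩ := mem_iUnion.1 (h1.ge (mem_univ (i1 Φ r ⟨a, 0⟩)))
    exact mem_iUnion.2 ⟨n, 0, hn⟩)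

end Pool.Agent.S13234
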