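import Pool.Statements.S13243
import Pool.Agent.Lib.helper23.MinE

set_option autoImplicit false
open Filter Topology
open Pool Pool.MP_5ca319_gt

namespace Pool.Agent.S13243


theorem result :
    ∀ (G : Type) [Group G] [t : TopologicalSpace G] [IsTopologicalGroup G] [T2Space G]
      [Infinite G],
      (∀ u : ℕ → G, ∃ x : G, MapClusterPt x atTop u) →
      (∀ τ' : TopologicalSpace G, @IsTopologicalGroup G τ' _ → @T2Space G τ' →
          t ≤ τ' → τ' = t) →
      ∃ (u : ℕ → G) (x : G), Function.Injective u ∧ Tendsto u atTop (𝓝 x) := by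
  intro G _ _ _ _ _ h1 h2
  obtain ⟨x, a, b⟩ := Pool.Agent.Lib.helper23.MinE.seqP (fun σ a1 a2 a3 _ => h2 σ a1 a2 a3)
    (Pool.Agent.Lib.helper23.MinE.cc_pre h1)
  exact ⟨x, 1, a, b⟩

end Pool.Agent.S13243
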