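import Pool.Statements.S13253
import Pool.Agent.H.MP_5e5cb0.B

set_option autoImplicit false
open Pool Pool.MP_5e5cb0_gt

namespace Pool.Agent.S13253

theorem result :
    ∀ (X : Type) [TopologicalSpace X] [T35Space X],
      (∀ S : Set (X → ℝ), (∀ f ∈ S, Continuous f) → IsCompact S →
        ∃ (Γ : Type) (e : S → (Γ → ℝ)), Topology.IsEmbedding e ∧
          ∀ s, (Function.support (e s)).Countable) →
      ∀ (K : Type) [TopologicalSpace K] [CompactSpace K] [T2Space K],
        ∀ S : Set (X × K → ℝ), (∀ f ∈ S, Continuous f) → IsCompact S →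
          ∃ (Γ : Type) (e : S → (Γ → ℝ)), Topology.IsEmbedding e ∧
            ∀ s, (Function.support (e s)).Countable := by
  intro X _ _ H K _ _ _ S s1 s2
  have := isCompact_iff_compactSpace.1 s2
  exact Pool.Agent.H.MP_5e5cb0.main (β := S) (fun b => ⟨b.1, s1 _ b.2⟩)
    (fun p => (continuous_apply p).comp continuous_subtype_val)
    (fun a b h => Subtype.ext (congrArg DFunLike.coe h)) H

end Pool.Agent.S13253
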