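import Pool.Statements.S13265
import Pool.Agent.H.MP_617eb0_gt.E

set_option autoImplicit false
open Pool Pool.MP_617eb0_gt

namespace Pool.Agent.S13265

theorem result :
    ∀ d k s : ℕ, 1 ≤ k → k ≤ s → s + 2 ≤ d → ¬ k ∣ s →
    ∀ ζ : ℕ → Set (EuclideanSpace ℝ (Fin d)) → ENNReal,
      (∀ (j : ℕ) (K : Set (EuclideanSpace ℝ (Fin d))),
        ζ j K = ⨅ (P : ℕ → Set (EuclideanSpace ℝ (Fin d)))
          (_ : (∀ n, (∃ S : Finset (EuclideanSpace ℝ (Fin d)),
                  P n = convexHull ℝ (↑S : Set (EuclideanSpace ℝ (Fin d))))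
                ∧ (interior (P n)).Nonempty)
              ∧ Filter.Tendsto (fun n => EMetric.hausdorffEdist (P n) K)
                  Filter.atTop (nhds (0 : ENNReal))),
          Filter.liminf
            (fun n => ∑' F : {F : Set (EuclideanSpace ℝ (Fin d)) //
                IsExposed ℝ (P n) F ∧ F.Nonempty ∧
                Module.finrank ℝ (affineSpan ℝ F).direction = j},
              MeasureTheory.Measure.hausdorffMeasure (j : ℝ)
                (F : Set (EuclideanSpace ℝ (Fin d))))
            Filter.atTop) →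
      ∃ γ : NNReal, ∀ K : Set (EuclideanSpace ℝ (Fin d)),
        Convex ℝ K → IsCompact K → (interior K).Nonempty → ζ k K < ⊤ →
        ζ s K ^ ((1 : ℝ) / (s : ℝ)) ≤ (γ : ENNReal) * ζ k K ^ ((1 : ℝ) / (k : ℝ)) := by
  intro d k s hk hks _ _ ζ hζ
  obtain ⟨γ, hγ⟩ := Pool.Agent.EGK.poly (E := EuclideanSpace ℝ (Fin d)) hk hks
  have hk' : (0 : ℝ) < k := by exact_mod_cast hk
  have hs' : (0 : ℝ) < s := by exact_mod_cast (hk.trans hks)
  refine ⟨γ + 1, fun K _ _ _ _ => ?_⟩
  let h : ENNReal → ENNReal := fun y => (((γ + 1 : NNReal) : ENNReal) * y ^ ((1 : ℝ) / k)) ^ (s : ℝ)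
  have hmono : Monotone h := fun a b hab =>
    ENNReal.rpow_le_rpow (mul_le_mul_right (ENNReal.rpow_le_rpow hab (by positivity)) _) hs'.le
  have hcont : Continuous h :=
    ENNReal.continuous_rpow_const.comp
      ((ENNReal.continuous_const_mul ENNReal.coe_ne_top).comp ENNReal.continuous_rpow_const)
  have htop : h ⊤ = ⊤ := by
    simp only [h]
    rw [ENNReal.top_rpow_of_pos (by positivity), ENNReal.mul_top (by simp),
      ENNReal.top_rpow_of_pos hs']
  have hpoly : ∀ S : Finset (EuclideanSpace ℝ (Fin d)),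
      Pool.Agent.EGK.cont s (convexHull ℝ (S : Set (EuclideanSpace ℝ (Fin d)))) ≤
        h (Pool.Agent.EGK.cont k (convexHull ℝ (S : Set (EuclideanSpace ℝ (Fin d))))) := by
    intro S
    have h1 := (hγ S).trans (mul_le_mul_left (ENNReal.coe_le_coe.mpr (le_add_right (le_refl γ) :
      γ ≤ γ + 1)) _)
    have h2 := ENNReal.rpow_le_rpow h1 hs'.le
    rwa [← ENNReal.rpow_mul, one_div_mul_cancel hs'.ne', ENNReal.rpow_one] at h2
  have hmain : ζ s K ≤ h (ζ k K) := by
    rw [hζ k K, hmono.map_iInf_of_continuousAt hcont.continuousAt htop]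
    refine le_iInf fun P => ?_
    rw [Function.comp_apply, hmono.map_iInf_of_continuousAt hcont.continuousAt htop]
    refine le_iInf fun hP => ?_
    rw [Function.comp_apply, hmono.map_liminf_of_continuousAt _ hcont.continuousAt, hζ s K]
    refine (iInf₂_le P hP).trans (Filter.liminf_le_liminf (Filter.Eventually.of_forall fun n => ?_))
    obtain ⟨S, hS⟩ := (hP.1 n).1
    have := hpoly S
    rw [← hS] at this
    exact this
  have h3 := ENNReal.rpow_le_rpow hmain (z := (1 : ℝ) / s) (by positivity)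
  simp only [h] at h3
  rwa [← ENNReal.rpow_mul, mul_one_div_cancel hs'.ne', ENNReal.rpow_one] at h3

end Pool.Agent.S13265
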