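import Pool.Statements.S13288
import Pool.Agent.H.MP_64b69f.B

set_option autoImplicit false
open Pool Pool.MP_64b69f_gt

namespace Pool.Agent.S13288

theorem result :
    ¬ (∀ (X : Type) [TopologicalSpace X] [CompactSpace X] [T2Space X],
      (∀ A : Set X, ∃ N : Set (Set X),
          (∀ n ∈ N, n ⊆ closure A) ∧
          (∀ x ∈ closure A, ∀ U : Set X, IsOpen U → x ∈ U → ∃ n ∈ N, x ∈ n ∧ n ⊆ U) ∧
          Cardinal.mk N ≤ max (Cardinal.mk A) Cardinal.aleph0) →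
      ∃ (ι : Type) (f : {h : X → ℝ // Continuous h} → (ι → ℝ)),
        Continuous f ∧ Function.Injective f ∧
        ∀ g : {h : X → ℝ // Continuous h}, Set.Countable {i : ι | f g i ≠ 0}) := by
  intro H
  obtain ⟨X, _, _, _, h1, h2⟩ := Pool.Agent.H.MP_64b69f.main
  obtain ⟨ι, f, f1, f2, f3⟩ := H X h1
  refine h2 (ι × ℚ × ℚ) (fun c => {g | (0 : ℝ) ∉ Set.Ioo (c.2.1 : ℝ) c.2.2 ∧
    f g c.1 ∈ Set.Ioo (c.2.1 : ℝ) c.2.2}) (fun c => isOpen_const.and (isOpen_Ioo.preimage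
      ((continuous_apply _).comp f1))) (fun g => ((f3 g).prod Set.countable_univ).mono
        fun c k => And.intro (fun e : f g c.1 = 0 => k.1 (e ▸ k.2)) trivial) fun g h k => f2 (funext fun i => ?_)
  have : ∀ g h, (∀ p q : ℚ, (0 : ℝ) ∉ Set.Ioo (p : ℝ) q → f g i ∈ Set.Ioo (p : ℝ) q →
      f h i ∈ Set.Ioo (p : ℝ) q) → f g i ≠ 0 → f g i = f h i := fun g h k a => by_contra fun b => by
    obtain ⟨t, c0, c1, c2⟩ := Real.isTopologicalBasis_Ioo_rat.mem_nhds_iff.1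
      (Filter.inter_mem (compl_singleton_mem_nhds a) (compl_singleton_mem_nhds b))
    simp only [Set.mem_iUnion, Set.mem_singleton_iff] at c0
    obtain ⟨p, q, -, rfl⟩ := c0
    exact (c2 (k p q (fun e => (c2 e).1 rfl) c1)).2 rfl
  by_cases a : f g i = 0
  · exact by_contra fun b => b (this h g (fun p q c d => ((k (i, p, q)).2 ⟨c, d⟩).2)
      fun e => b (a.trans e.symm)).symm
  · exact this g h (fun p q c d => ((k (i, p, q)).1 ⟨c, d⟩).2) a

end Pool.Agent.S13288
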