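import Pool.Statements.S13295

set_option autoImplicit false
open TopologicalSpace
open Pool Pool.MP_65cb57_gt

namespace Pool.Agent.S13295

open Set Topology Filter Metric

theorem koch {S : Type} [MetricSpace S] [CompactSpace S] [SemilatticeSup S] [ContinuousSup S]
    {μ : S → ℝ} (c : Continuous μ) (m : StrictMono μ) {K L : S} (h : K ≤ L)
    (p : IsPreconnected (Icc K L)) : ∃ α : ℝ → S, Continuous α ∧ (∀ s, α s ≤ L) ∧
      (∀ s ≤ 0, α s = K) ∧ ∀ s, 1 ≤ s → α s = L := by
  have o : IsClosed {z : S × S | z.1 ≤ z.2} := by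
    simpa only [sup_eq_right] using isClosed_eq (continuous_sup (L := S)) continuous_snd
  let G : ℝ → S → Set (NonemptyCompacts S) := fun ε u =>
    {C | ((C ×ˢ C : NonemptyCompacts (S × S)) : Set (S × S)) ⊆ {z | z.1 ≤ z.2} ∪ {z | z.2 ≤ z.1}} ∩
      {C | (C : Set S) ⊆ Icc K u} ∩ ⋂ r ∈ Icc (μ K) (μ u), {C | ((C : Set S) ∩ μ ⁻¹' closedBall r ε).Nonempty}
  have g : ∀ ε, 0 < ε → (G ε L).Nonempty := fun ε e => by
    obtain ⟨δ, d, k⟩ := Metric.uniformContinuous_iff.1
      (CompactSpace.uniformContinuous_of_continuous (c.comp continuous_sup)) ε e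
    obtain ⟨u, a, b, w⟩ := p.induction₂' (fun s t => (∃ u ≤ L, s ≤ u ∧ ∃ C ∈ G ε u, u ∈ C) →
      ∃ u ≤ L, t ≤ u ∧ ∃ C ∈ G ε u, u ∈ C) (fun x _ => by
        have : ∀ s t, t ≤ L → dist s t < δ → (∃ u ≤ L, s ≤ u ∧ ∃ C ∈ G ε u, u ∈ C) →
            ∃ u ≤ L, t ≤ u ∧ ∃ C ∈ G ε u, u ∈ C := fun s t a b ⟨u, v, w, C, ⟨⟨x, y⟩, z⟩, q⟩ => by
          refine ⟨u ⊔ t, sup_le v a, le_sup_right, C ⊔ {u ⊔ t}, ⟨⟨?_, ?_⟩, mem_iInter₂.2 fun r f => ?_⟩,
            .inr rfl⟩
          · rintro ⟨i, j⟩ ⟨f | rfl, g | rfl⟩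
            exacts [x ⟨f, g⟩, .inl ((y f).2.trans le_sup_left), .inr ((y g).2.trans le_sup_left),
              .inl le_rfl]
          · rintro i (f | rfl)
            exacts [⟨(y f).1, (y f).2.trans le_sup_left⟩, ⟨(y q).1.trans le_sup_left, le_rfl⟩]
          · rcases le_total r (μ u) with g | g
            · exact (mem_iInter₂.1 z r ⟨f.1, g⟩).imp fun i g => ⟨.inl g.1, g.2⟩
            · have := abs_lt.1 (k (a := (u, t)) (b := (u, s)) (by simpa [d, dist_comm]))
              simp only [Function.comp, sup_eq_left.2 w] at this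
              exact ⟨u ⊔ t, .inr rfl, show |μ (u ⊔ t) - r| ≤ ε from
                abs_le.2 ⟨by linarith [f.2], by linarith⟩⟩
        filter_upwards [self_mem_nhdsWithin, nhdsWithin_le_nhds (ball_mem_nhds x d)] with y a b
          using ⟨this _ _ a.2 (mem_ball'.1 b), this _ _ (by aesop) b⟩)
      (fun _ _ _ _ _ _ a b => b ∘ a) ⟨le_rfl, h⟩ ⟨h, le_rfl⟩ ⟨K, h, le_rfl, {K},
        ⟨⟨fun _ a => .inl (le_of_eq (a.1.trans a.2.symm)), by simp⟩, mem_iInter₂.2 fun r f => ⟨K, rfl, by
          simp [le_antisymm f.1 f.2, e.le]⟩⟩, rfl⟩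
    exact a.antisymm b ▸ w.imp fun _ => And.left
  have gc : ∀ ε, IsClosed (G ε L) := fun ε => (((NonemptyCompacts.isClosed_subsets_of_isClosed
    (o.union (o.preimage continuous_swap))).preimage (NonemptyCompacts.continuous_prod.comp
      (continuous_id.prodMk continuous_id))).inter (NonemptyCompacts.isClosed_subsets_of_isClosed
        ((o.preimage (.prodMk_right K)).inter (o.preimage (.prodMk_left L))))).inter
    (isClosed_biInter fun r _ => NonemptyCompacts.isClosed_inter_nonempty_of_isClosed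
      (isClosed_closedBall.preimage c))
  obtain ⟨C, k⟩ := IsCompact.nonempty_iInter_of_sequence_nonempty_isCompact_isClosed
    (fun n : ℕ => G (1 / (n + 1)) L) (fun n => inter_subset_inter_right _ (iInter₂_mono
      fun r _ C => .imp fun _ => .imp_right fun f => closedBall_subset_closedBall
        (Nat.one_div_le_one_div n.le_succ) f))
    (fun n => g _ Nat.one_div_pos_of_nat) (gc _).isCompact fun n => gc _
  replace k := mem_iInter.1 k
  have e : IsClosedEmbedding fun P : C => μ P := (c.comp continuous_subtype_val).isClosedEmbedding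
    fun P Q f => Subtype.ext (((k 0).1.1 (mk_mem_prod P.2 Q.2)).elim
      (fun a => a.eq_or_lt.resolve_right fun a => (m a).ne f)
      fun a => (a.eq_or_lt.resolve_right fun a => (m a).ne' f).symm)
  have l := m.monotone h
  choose α w using fun s : ℝ => show μ K + projIcc 0 1 zero_le_one s * (μ L - μ K) ∈
      range fun P : C => μ P from e.isClosed_range.closure_subset
    (Metric.mem_closure_iff.2 fun ε a => by
      obtain ⟨n, b⟩ := exists_nat_one_div_lt a
      have := (projIcc (0 : ℝ) 1 zero_le_one s).2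
      obtain ⟨P, x, y⟩ := mem_iInter₂.1 (k n).2 (μ K + projIcc 0 1 zero_le_one s * (μ L - μ K))
        ⟨by nlinarith [this.1], by nlinarith [this.2]⟩
      exact ⟨_, ⟨⟨P, x⟩, rfl⟩, (mem_closedBall'.1 y).trans_lt b⟩)
  have z := fun s => (k 0).1.2 (α s).2
  refine ⟨fun s => α s, continuous_subtype_val.comp (e.isInducing.continuous_iff.2
    (.congr (by fun_prop) fun s => (w s).symm)), fun s => (z s).2, fun s a => ?_, fun s a => ?_⟩
  · exact ((z s).1.eq_or_lt.resolve_right fun b => (m b).ne' (by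
      simpa [projIcc_of_le_left _ a] using w s)).symm
  · exact (z s).2.eq_or_lt.resolve_right fun b => (m b).ne (by
      simpa [projIcc_of_right_le _ a] using w s)

theorem arc {X : Type} [MetricSpace X] [CompactSpace X] {A : Set X} (c : IsClosed A)
    (p : IsPreconnected A) {x : X} (h : x ∈ A) : ∃ α : ℝ → NonemptyCompacts X, Continuous α ∧
      (∀ s, (α s : Set X) ⊆ A) ∧ (∀ s ≤ 0, α s = {x}) ∧ ∀ s, 1 ≤ s → (α s : Set X) = A := by
  have : Nonempty X := ⟨x⟩
  let f : ℕ → NonemptyCompacts X → ℝ := fun n P => (1 / 2) ^ n * -infDist (denseSeq X n) P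
  have b : ∀ n P, ‖f n P‖ ≤ (1 / 2) ^ n * diam (univ : Set X) := fun n P => by
    obtain ⟨y, k⟩ := P.nonempty
    simp only [f, norm_mul, norm_neg, norm_pow, Real.norm_of_nonneg infDist_nonneg]
    rw [Real.norm_of_nonneg (by norm_num)]
    gcongr
    exact (infDist_le_dist_of_mem k).trans (dist_le_diam_of_mem isCompact_univ.isBounded
      trivial trivial)
  have s := summable_geometric_two.mul_right (diam (univ : Set X))
  obtain ⟨α, a1, a2, a3, a4⟩ := koch (μ := fun P => ∑' n, f n P) (K := {x})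
    (L := ⟨⟨A, c.isCompact⟩, x, h⟩) (continuous_tsum (fun n => continuous_const.mul
      (lipschitz_infDist_set _).continuous.neg) s b) (fun P Q k => by
      obtain ⟨y, u, v⟩ := exists_of_ssubset (show (P : Set X) ⊂ Q from k)
      obtain ⟨n, w⟩ := (denseRange_denseSeq X).exists_dist_lt y (half_pos
        ((P.isCompact.isClosed.notMem_iff_infDist_pos P.nonempty).1 v))
      refine Summable.tsum_lt_tsum (i := n) (fun n => mul_le_mul_of_nonneg_left (neg_le_neg
        (infDist_le_infDist_of_subset k.le P.nonempty)) (by positivity))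
        (mul_lt_mul_of_pos_left (neg_lt_neg ?_) (by positivity)) (.of_norm_bounded s (b · P))
        (.of_norm_bounded s (b · Q))
      linarith [infDist_le_dist_of_mem (x := denseSeq X n) u, dist_comm y (denseSeq X n),
        infDist_le_infDist_add_dist (x := y) (y := denseSeq X n) (s := (P : Set X))])
    (singleton_subset_iff.2 h) (NonemptyCompacts.isPreconnected_Icc p)
  exact ⟨α, a1, a2, a3, fun s k => by rw [a4 s k]; rfl⟩

theorem result :
    ∀ (X : Type) [MetricSpace X] [CompactSpace X] [ConnectedSpace X],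
      (∀ x y : X, x ≠ y → ∃ γ : Path x y, Function.Injective γ) →
      (∀ F : X → NonemptyCompacts X, Continuous F → ∃ x : X, x ∈ F x) →
      ∀ A B : Set X, IsClosed A → IsConnected A → IsClosed B → IsConnected B →
        IsPreconnected (A ∩ B) := by
  intro X _ _ _ _ H A B a1 a2 b1 b2
  refine (isPreconnected_iff_subset_of_fully_disjoint_closed (a1.inter b1)).2
    fun P Q p q s d => by_contra fun n => ?_
  push Not at n
  obtain ⟨k, k1, k2⟩ := not_subset.1 n.1
  obtain ⟨h, h1, h2⟩ := not_subset.1 n.2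
  obtain ⟨v, v0, v1, -⟩ := exists_continuous_zero_one_of_isClosed p q d
  obtain ⟨u, uc, u0⟩ : ∃ u : X → ℝ, Continuous u ∧ (∀ x ∈ P, u x = -1) ∧ ∀ x ∈ Q, u x = 4 :=
    ⟨fun x => 5 * v x - 1, by fun_prop, fun x a => by simp [v0 a], fun x a => by
      simp [v1 a]; norm_num⟩
  have z := isClosed_Icc (a := 0) (b := 3).preimage uc
  have t : ∀ x ∈ A ∩ B, u x ∉ Icc 0 3 := fun x a b => by
    rcases s a with c | c
    exacts [by linarith [u0.1 x c, b.1], by linarith [u0.2 x c, b.2]]
  obtain ⟨w, w0, w1, -⟩ := exists_continuous_zero_one_of_isClosed (a1.inter z) (b1.inter z)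
    (disjoint_left.2 fun x a b => t x ⟨a.1, b.1⟩ a.2)
  have E : ∀ y ∈ A ∩ B, ∃ E : X → ℝ → NonemptyCompacts X, Continuous ↿E ∧
      (∀ x, ∀ r ≤ 0, E x r = {y}) ∧ (∀ x, A ∩ B ⊆ E x 1) ∧ ∀ x r, x ∈ E x r → u x ∉ Icc 0 3 :=
    fun y a => by
    obtain ⟨α, c1, c2, c3, c4⟩ := arc a1 a2.2 a.1
    obtain ⟨β, d1, d2, d3, d4⟩ := arc b1 b2.2 a.2
    refine ⟨fun x r => α (min (2 * w x) r) ⊔ β (min (2 - 2 * w x) r),
      (c1.comp (by fun_prop)).sup (d1.comp (by fun_prop)), fun x r b => by
        simp only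
        rw [c3 _ (min_le_of_right_le b), d3 _ (min_le_of_right_le b), sup_idem],
      fun x y b => ?_, fun x r b c => t x ?_ c⟩
    · rcases le_total 1 (2 * w x) with c | c
      exacts [.inl ((c4 _ (le_min c le_rfl)).ge b.1), .inr ((d4 _ (le_min (by linarith) le_rfl)).ge b.2)]
    · rcases b with b | b
      · rw [c3 _ (min_le_of_left_le (by simp [w0 ⟨c2 _ b, c⟩]))] at b
        exact b ▸ a
      · rw [d3 _ (min_le_of_left_le (by simp [w1 ⟨d2 _ b, c⟩]))] at b
        exact b ▸ a
  obtain ⟨F, f1, f2, f3, f4⟩ := E h h1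
  obtain ⟨E, e1, e2, e3, e4⟩ := E k k1
  have ec : Continuous fun x => E x (min (u x) (2 - u x)) := e1.comp (continuous_id.prodMk (by fun_prop))
  have fc : Continuous fun x => F x (min (u x - 1) (3 - u x)) :=
    f1.comp (continuous_id.prodMk (by fun_prop))
  obtain ⟨x, c⟩ := H _ (ec.if_le ((ec.sup fc).if_le fc uc (continuous_const (y := 2)) fun x a => by
      rw [e2 _ _ (by simp [a]), sup_eq_right, a]
      norm_num
      exact singleton_subset_iff.2 (f3 x k1)) uc (continuous_const (y := 1)) fun x a => by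
    rw [if_pos (by simp [a]), f2 _ _ (by simp [a]), left_eq_sup, a]
    norm_num
    exact singleton_subset_iff.2 (e3 x h1))
  have ku := u0.2 k ((s k1).resolve_left k2)
  have hu := u0.1 h ((s h1).resolve_right h2)
  have i : x ∈ E x (min (u x) (2 - u x)) → ¬ u x ≤ 2 := fun a b => e4 _ _ a ⟨not_lt.1 fun d => by
    rw [e2 _ _ (min_le_of_left_le d.le)] at a
    linarith [(show x = k from a) ▸ ku], by linarith⟩
  have j : x ∈ F x (min (u x - 1) (3 - u x)) → u x ≤ 1 := fun a => not_lt.1 fun b =>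
    f4 _ _ a ⟨by linarith, not_lt.1 fun d => by
      rw [f2 _ _ (min_le_of_right_le (by linarith))] at a
      linarith [(show x = h from a) ▸ hu]⟩
  split_ifs at c with a b
  exacts [i c (by linarith), c.elim (i · b) (a <| j ·), a (j c)]

end Pool.Agent.S13295
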