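import Pool.Statements.S13316
import Pool.Agent.H.MP_a4908e.A

set_option autoImplicit false
open Pool Pool.MP_69fc66_gt

namespace Pool.Agent.S13316

theorem result :
    ¬ (∀ (X Y : Type) [TopologicalSpace X] [TopologicalSpace Y] [T35Space X] [T35Space Y],
      (∃ Φ : C(X, ℝ) ≃ C(Y, ℝ),
        (∀ B : Finset Y, ∀ ε : ℝ, 0 < ε → ∃ A : Finset X, ∃ δ : ℝ, 0 < δ ∧
          ∀ f g : C(X, ℝ), (∀ x ∈ A, |f x - g x| < δ) →
            ∀ y ∈ B, |Φ f y - Φ g y| < ε) ∧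
        (∀ A : Finset X, ∀ ε : ℝ, 0 < ε → ∃ B : Finset Y, ∃ δ : ℝ, 0 < δ ∧
          ∀ f g : C(Y, ℝ), (∀ y ∈ B, |f y - g y| < δ) →
            ∀ x ∈ A, |Φ.symm f x - Φ.symm g x| < ε)) →
      (∀ s : Set X, IsClosed s → IsGδ s) →
      (∀ t : Set Y, IsClosed t → IsGδ t)) := by
  open Pool.Agent.H.MP_a4908e in
  intro H
  obtain ⟨A, z, h⟩ := notperf
  have c : ∀ (X : Type) [TopologicalSpace X], ∃ c : C(X, ℝ) ≃ CP X, (∀ f, (c f).1 = f) ∧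
      ∀ f, (c.symm f : X → ℝ) = f.1 := fun X _ =>
    ⟨⟨fun f => ⟨f, f.continuous⟩, fun f => ⟨f.1, f.2⟩, fun _ => rfl, fun _ => rfl⟩,
      fun _ => rfl, fun _ => rfl⟩
  obtain ⟨c1, h1, h1'⟩ := c (XX (BA A))
  obtain ⟨c2, h2, h2'⟩ := c (YY (BA A) z)
  refine h (H _ _ ⟨c1.trans ((E _ z).trans c2.symm), fun B ε hε => ?_, fun B ε hε => ?_⟩
    (fun s _ => perfX _ perfΨ s) _ isClosed_singleton)
  · obtain ⟨A, δ, k1, k2⟩ := (hT _ z).unif B hε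
    exact ⟨A, δ, k1, fun f g e y hy => by
      simpa [h2'] using k2 (c1 f) (c1 g) (by simpa [h1] using e) y hy⟩
  · obtain ⟨A, δ, k1, k2⟩ := (hS _ z).unif B hε
    exact ⟨A, δ, k1, fun f g e y hy => by
      simpa [h1'] using k2 (c2 f) (c2 g) (by simpa [h2] using e) y hy⟩

end Pool.Agent.S13316
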