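import Pool.Statements.S13321
-- import your own Pool.Agent.* helpers here

set_option autoImplicit false
open Topology
open Pool Pool.MP_6b9469_gt

namespace Pool.Agent.S13321

theorem result :
    ∀ (X : Type) [TopologicalSpace X],
      (∃ B : Set (Set X), TopologicalSpace.IsTopologicalBasis B ∧
        ∃ F : ℕ → Set (Set X), B = ⋃ n, F n ∧ ∀ n, (F n).PairwiseDisjoint id) →
      (∃ B : Set (Set X), TopologicalSpace.IsTopologicalBasis B ∧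
        ∃ F : ℕ → Set (Set X), B = ⋃ n, F n ∧
          ∀ n, ∀ x : X, ∃ U ∈ 𝓝 x, {S ∈ F n | (S ∩ U).Nonempty}.Countable) →
      ∃ B : Set (Set X), TopologicalSpace.IsTopologicalBasis B ∧
        (∃ F : ℕ → Set (Set X), B = ⋃ n, F n ∧ ∀ n, (F n).PairwiseDisjoint id) ∧
        (∃ G : ℕ → Set (Set X), B = ⋃ n, G n ∧
          ∀ n, ∀ x : X, ∃ U ∈ 𝓝 x, {S ∈ G n | (S ∩ U).Nonempty}.Countable) := by
  intro X _ ⟨B, hB, F, hBF, hF⟩ ⟨B', hB', G, hBG, hG⟩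
  classical
  have hex : ∀ (m : ℕ) (V : Set X), ∃ e : ℕ → Set X,
      {S ∈ G m | (S ∩ V).Nonempty}.Countable → ∀ S ∈ G m, (S ∩ V).Nonempty → ∃ k, e k = S := by
    intro m V
    by_cases hc : {S ∈ G m | (S ∩ V).Nonempty}.Countable
    · obtain ⟨e, he⟩ := Set.countable_iff_exists_subset_range.1 hc
      exact ⟨e, fun _ S hS hn => he ⟨hS, hn⟩⟩
    · exact ⟨fun _ => ∅, fun h => absurd h hc⟩
  choose e he using hex
  let W : ℕ → ℕ → ℕ → Set X → Set X := fun n m k S =>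
    S ∩ ⋃₀ {V | V ∈ F n ∧ e m V k = S}
  let H : ℕ × ℕ × ℕ → Set (Set X) := fun p => W p.1 p.2.1 p.2.2 '' G p.2.1
  let φ : ℕ ≃ ℕ × ℕ × ℕ := (Denumerable.eqv (ℕ × ℕ × ℕ)).symm
  have hFo : ∀ n, ∀ V ∈ F n, IsOpen V := fun n V hV =>
    hB.isOpen (hBF ▸ Set.mem_iUnion.2 ⟨n, hV⟩)
  have hGo : ∀ n, ∀ V ∈ G n, IsOpen V := fun n V hV =>
    hB'.isOpen (hBG ▸ Set.mem_iUnion.2 ⟨n, hV⟩)
  refine ⟨⋃ j, H (φ j), ?_, ⟨fun j => H (φ j), rfl, ?_⟩, ⟨fun j => H (φ j), rfl, ?_⟩⟩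
  · apply TopologicalSpace.isTopologicalBasis_of_isOpen_of_nhds
    · intro u hu
      obtain ⟨j, S, hS, rfl⟩ := Set.mem_iUnion.1 hu
      exact (hGo _ S hS).inter (isOpen_sUnion fun V hV => hFo _ V hV.1)
    · intro x O hx hO
      obtain ⟨S, hS, hxS, hSO⟩ := hB'.exists_subset_of_mem_open hx hO
      obtain ⟨m, hm⟩ := Set.mem_iUnion.1 (hBG ▸ hS)
      obtain ⟨U, hU, hUc⟩ := hG m x
      obtain ⟨V, hV, hxV, hVU⟩ := hB.mem_nhds_iff.1 hU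
      obtain ⟨n, hn⟩ := Set.mem_iUnion.1 (hBF ▸ hV)
      have hc : {S ∈ G m | (S ∩ V).Nonempty}.Countable :=
        hUc.mono fun T hT => And.intro hT.1 (hT.2.mono (Set.inter_subset_inter_right _ hVU))
      obtain ⟨k, hk⟩ := he m V hc S hm ⟨x, hxS, hxV⟩
      refine ⟨W n m k S, Set.mem_iUnion.2 ⟨φ.symm (n, m, k), ?_⟩, ⟨hxS, V, ⟨hn, hk⟩, hxV⟩,
        Set.inter_subset_left.trans hSO⟩
      rw [Equiv.apply_symm_apply]
      exact ⟨S, hm, rfl⟩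
  · rintro j _ ⟨S, hS, rfl⟩ _ ⟨T, hT, rfl⟩ hne
    have hST : S ≠ T := fun h => hne (by rw [h])
    rw [Function.onFun, Set.disjoint_left]
    intro x hx hx'
    obtain ⟨-, V, ⟨hV, hVe⟩, hxV⟩ := hx
    obtain ⟨-, V', ⟨hV', hVe'⟩, hxV'⟩ := hx'
    by_cases hVV : V = V'
    · exact hST (by rw [← hVe, ← hVe', hVV])
    · exact Set.disjoint_left.1 (hF _ hV hV' hVV) hxV hxV'
  · intro j x
    obtain ⟨U, hU, hUc⟩ := hG (φ j).2.1 x
    refine ⟨U, hU, (hUc.image (W (φ j).1 (φ j).2.1 (φ j).2.2)).mono ?_⟩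
    rintro _ ⟨⟨S, hS, rfl⟩, hn⟩
    exact ⟨S, ⟨hS, hn.mono (Set.inter_subset_inter_left _ Set.inter_subset_left)⟩, rfl⟩

end Pool.Agent.S13321
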