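import Pool.Statements.S13340
import Pool.Agent.H.MP_6d476a.C

set_option autoImplicit false
open Pool Pool.MP_6d476a_gt

namespace Pool.Agent.S13340

theorem result :
    ¬ (∀ S : Set ((ℕ → ℕ) → ℝ), IsCompact S →
      (∀ f ∈ S, ∃ u : ℕ → (ℕ → ℕ) → ℝ, (∀ n, Continuous (u n)) ∧
          ∀ x, Filter.Tendsto (fun n => u n x) Filter.atTop (nhds (f x))) →
      ∃ T : Set ((ℕ → ℕ) → ℝ), IsCompact T ∧
        (∀ g ∈ T, ∀ A : Set (ℕ → ℕ), A.Nonempty → ∃ a ∈ A, ContinuousWithinAt g A a) ∧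
        Nonempty (S ≃ₜ T)) := by
  intro h
  obtain ⟨j, h1, h2⟩ := Pool.Agent.H.MP_6d476a.exj
  obtain ⟨T, -, h3, ⟨e⟩⟩ := h _ (Pool.Agent.H.MP_6d476a.H_compact j) fun f hf =>
    Pool.Agent.H.MP_6d476a.baire1 (Pool.Agent.H.MP_6d476a.disc_cnt h1 h2 hf)
  obtain ⟨f, A, h4, h5⟩ := Pool.Agent.H.MP_6d476a.noemb h1 (fun f => e f)
    (continuous_subtype_val.comp e.continuous) (Subtype.val_injective.comp e.injective)
  obtain ⟨a, h6, h7⟩ := h3 _ (e f).2 A h4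
  exact h5 a h6 h7

end Pool.Agent.S13340
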