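import Pool.Statements.S13350
import Pool.Agent.H.MP_6dddf9.A

set_option autoImplicit false
open Pool Pool.MP_6dddf9_gt

namespace Pool.Agent.S13350

/-- The negation of the preceding statement: Every space that embeds in C_p(K) for some compact Hausdorff K, is hereditarily meta-Lindelöf and is scattered, is a countable union of discrete subspaces. -/
theorem result :
    ¬ (∀ (X : Type) [TopologicalSpace X],
      (∃ (K : Type) (_ : TopologicalSpace K) (_ : CompactSpace K) (_ : T2Space K)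
          (f : X → K → ℝ), Topology.IsEmbedding f ∧ ∀ x, Continuous (f x)) →
      (∀ S : Set X, ∀ 𝒰 : Set (Set S), (∀ U ∈ 𝒰, IsOpen U) → ⋃₀ 𝒰 = Set.univ →
          ∃ 𝒱 : Set (Set S), (∀ V ∈ 𝒱, IsOpen V) ∧ ⋃₀ 𝒱 = Set.univ ∧
            (∀ V ∈ 𝒱, ∃ U ∈ 𝒰, V ⊆ U) ∧
            ∀ x : S, {V | V ∈ 𝒱 ∧ x ∈ V}.Countable) →
      (∀ S : Set X, S.Nonempty → ∃ x ∈ S, ∃ U : Set X, IsOpen U ∧ U ∩ S = {x}) →
      ∃ D : ℕ → Set X, (⋃ n, D n) = Set.univ ∧ ∀ n, DiscreteTopology (D n)) := by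
  intro H
  have hι : Cardinal.mk (Ordinal.omega 1 : Ordinal.{0}).ToType = Cardinal.aleph 1 := by simp
  have hc : ∀ i : (Ordinal.omega 1 : Ordinal.{0}).ToType, (Set.Iic i).Countable := fun i => by
    rw [← Set.Iio_insert]
    refine Set.Countable.insert _ ?_
    rw [← Cardinal.le_aleph0_iff_set_countable, ← Cardinal.lt_aleph_one_iff]
    simpa using Cardinal.mk_Iio_lt i (by simp)
  have : Uncountable (Ordinal.omega 1 : Ordinal.{0}).ToType := by
    rw [← Cardinal.aleph0_lt_mk_iff, hι]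
    exact Cardinal.aleph0_lt_aleph_one
  obtain ⟨X, _, h1, ⟨W, w1, w2, w3⟩, h2⟩ := Pool.Agent.H.MP_6dddf9.main
    (fun s => Pool.Agent.H.Brk.bd hc) (hι.trans_le Cardinal.aleph_one_le_continuum)
  obtain ⟨D, d1, d2⟩ := H X h1 (fun S 𝒰 a b => by
    choose U u1 u2 using fun z : S => Set.mem_sUnion.1 (b ▸ Set.mem_univ z)
    refine ⟨Set.range fun z : S => U z ∩ Subtype.val ⁻¹' W z, Set.forall_mem_range.2 fun z =>
      (a _ (u1 z)).inter ((w1 z).1.preimage continuous_subtype_val), Set.eq_univ_of_forall fun z =>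
      ⟨_, ⟨z, rfl⟩, u2 z, (w1 z).2⟩, Set.forall_mem_range.2 fun z =>
      ⟨_, u1 z, Set.inter_subset_left⟩, fun y => (((w2 y).preimage_of_injOn
        Subtype.val_injective.injOn).image fun z : S => U z ∩ Subtype.val ⁻¹' W z).mono ?_⟩
    rintro _ ⟨⟨z, rfl⟩, k⟩
    exact ⟨z, k.2, rfl⟩) fun S hS => (w3 S hS).imp fun x k => ⟨k.1, _, (w1 x).1, k.2⟩
  obtain ⟨n, x, x1, x2⟩ := h2 D fun y => Set.mem_iUnion.1 (d1 ▸ Set.mem_univ y)
  obtain ⟨U, u1, u2⟩ := isOpen_induced_iff.1 (isOpen_discrete {(⟨x, x1⟩ : D n)})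
  obtain ⟨y, y1, y2, y3⟩ := x2 U u1 (u2.ge rfl)
  exact y2 (congrArg Subtype.val (u2.le (show (⟨y, y1⟩ : D n) ∈ _ from y3)))

end Pool.Agent.S13350
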