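import Pool.Statements.S13356
import Pool.Agent.H.MP_b0a983_gt.B

set_option autoImplicit false
open Pool Pool.MP_6e1b9b_gt

namespace Pool.Agent.S13356

open Set Filter Topology Metric unitInterval Real Pool.Agent.H.MP_b0a983_gt in
theorem result :
    ¬ (∀ f : C(Fin 3 → unitInterval, Fin 2 → unitInterval),
      Function.Surjective f →
      IsTotallyDisconnected {x : Fin 3 → unitInterval | ∀ y, f y = f x → y = x} →
      ∃ K : Set (Fin 3 → unitInterval),
        IsClosed K ∧ IsTotallyDisconnected K ∧ f '' K = Set.univ) := by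
  intro H
  let φ : I → I → ℝ := fun t y => infDist (t.1, 3 * y.1 - 1) S
  have φ0 : ∀ t y, 0 ≤ φ t y := fun _ _ => infDist_nonneg
  let f : C(Fin 3 → I, Fin 2 → I) := ⟨fun x => ![x 0, ⟨min 1 (x 2 + φ (x 0) (x 1)),
    le_min zero_le_one (add_nonneg (x 2).2.1 (φ0 _ _)), min_le_left _ _⟩], by
      refine continuous_pi fun i => ?_
      fin_cases i
      · exact continuous_apply 0
      · exact Continuous.subtype_mk (continuous_const.min (Continuous.add (by fun_prop)
          ((continuous_infDist_pt S).comp (by fun_prop)))) _⟩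
  have e : ∀ (t y z c : I), z + φ t y = c → f ![t, y, z] = ![t, c] := fun t y z c h => by
    ext i
    fin_cases i
    · rfl
    · exact (congrArg (min 1) h).trans (min_eq_right c.2.2)
  have m : ∀ (t : I) a, (t.1, a) ∈ S → ∃ y : I, 3 * y.1 - 1 = a ∧ φ t y = 0 := fun t a h =>
    ⟨⟨(a + 1) / 3, by linarith [h.1.1.2], by linarith [h.1.2.2]⟩, by ring,
      infDist_zero_of_mem (by convert h; ring)⟩
  have m1 : ∀ t : I, ∃ y, φ t y = 0 := fun t => by
    rcases t.2.1.lt_or_eq with h | h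
    · exact (m t _ (mem h t.2.2 (s := 0) (by simp))).imp fun _ h => h.2
    · exact (m t 0 (by simp [S, ← h])).imp fun _ h => h.2
  have η : ∀ v : Fin 2 → I, v = ![v 0, v 1] := fun v => by ext i; fin_cases i <;> rfl
  obtain ⟨K, k1, k2, k3⟩ := H f (fun v => (m1 (v 0)).elim fun y h => ⟨![v 0, y, v 1],
    (e _ _ _ _ (by simp [h])).trans (η v).symm⟩) (Set.Countable.isTotallyDisconnected (by
      have u : ∀ x, (∀ y, f y = f x → y = x) → ∀ (y z : I), z + φ (x 0) y = f x 1 → y = x 1 :=
        fun x hx y z h => congrFun (hx _ ((e _ _ _ _ h).trans (η (f x)).symm)) 1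
      have u0 : ∀ x, (∀ y, f y = f x → y = x) → f x 1 = 0 := fun x hx => by
        by_contra h
        obtain ⟨y, hy⟩ := m1 (x 0)
        obtain ⟨w, w1, w2⟩ := (((isOpen_lt (f := φ (x 0)) ((continuous_infDist_pt S).comp
          (by fun_prop)) (continuous_const (y := (f x 1).1))).eventually_mem (x := y)
          (hy.trans_lt ((f x 1).2.1.lt_of_ne' fun k => h (Subtype.ext k)))).filter_mono (nhdsWithin_le_nhds (s := {y}ᶜ))).and
          self_mem_nhdsWithin |>.exists
        exact w2 ((u x hx w ⟨f x 1 - φ (x 0) w, sub_nonneg.2 (le_of_lt w1),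
          by linarith [φ0 (x 0) w, (f x 1).2.2]⟩ (by simp)).trans (u x hx y (f x 1) (by simp [hy])).symm)
      refine MapsTo.countable_of_injOn (f := fun x : Fin 3 → I => (x 0).1)
        (s := {x | ∀ y, f y = f x → y = x})
        (t := range fun n : ℤ => (n : ℝ)⁻¹) (fun x hx => ?_) (fun a ha b hb h => hb _ ?_)
        (countable_range _)
      · have k : ∀ a b, ((x 0).1, a) ∈ S → ((x 0).1, b) ∈ S → a = b := fun a b ha hb => by
          obtain ⟨y, rfl, h⟩ := m _ _ ha
          obtain ⟨z, rfl, h'⟩ := m _ _ hb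
          rw [u x hx y (f x 1) (by simp [h]), u x hx z (f x 1) (by simp [h'])]
        rcases (x 0).2.1.lt_or_eq with h | h
        · have := k _ _ (mem h (x 0).2.2 (s := 0) (by simp)) (mem h (x 0).2.2 (s := 1) (by simp))
          obtain ⟨n, hn⟩ := sin_eq_zero_iff.1 (show sin (π / (x 0).1) = 0 by simpa using this)
          rw [div_eq_inv_mul] at hn
          exact ⟨n, inv_eq_iff_eq_inv.2 (mul_right_cancel₀ pi_ne_zero hn)⟩
        · exact ⟨0, by simp [← h]⟩
      · rw [η (f a), η (f b), u0 a ha, u0 b hb]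
        exact congrArg (![·, 0]) (Subtype.ext h)))
  let j : S → Fin 3 → I := fun p =>
    ![projIcc 0 1 zero_le_one p.1.1, projIcc 0 1 zero_le_one ((p.1.2 + 1) / 3), 0]
  have hj : Continuous j := by
    refine continuous_pi fun i => ?_
    fin_cases i <;> simp only [j] <;> fun_prop
  refine sec (K := {p | 0 ≤ p.1.1} ∩ j ⁻¹' K) ((isClosed_le (by fun_prop) (by fun_prop)).inter
    (k1.preimage hj)) (fun t ht => ?_) fun T h1 h2 a ha b hb => ?_
  · obtain ⟨x, x1, x2⟩ := k3.ge (mem_univ ![⟨t, ht⟩, 0])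
    have x3 : min 1 (x 2 + φ (x 0) (x 1)) = 0 := congrArg (fun v => (v 1).1) x2
    have x4 := (min_eq_iff.1 x3).resolve_left (by simp)
    refine ⟨⟨_, (cS.isClosed.mem_iff_infDist_zero conn.1).2 (show φ (x 0) (x 1) = 0 by
      linarith [x4.1, φ0 (x 0) (x 1), (x 2).2.1])⟩, ⟨(x 0).2.1, mem_of_eq_of_mem (s := K) ?_ x1⟩,
      congrArg (fun v => (v 0).1) x2⟩
    ext i
    fin_cases i <;> simp [j]
    linarith [x4.1, φ0 (x 0) (x 1), (x 2).2.1]
  · have := k2 _ (image_subset_iff.2 fun p hp => (h1 hp).2) (h2.image _ hj.continuousOn)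
      ⟨a, ha, rfl⟩ ⟨b, hb, rfl⟩
    have r : ∀ p : S, (p.1.2 + 1) / 3 ∈ I := fun p =>
      ⟨by linarith [p.2.1.1.2], by linarith [p.2.1.2.2]⟩
    have t0 := congrFun this 0
    have t1 := congrFun this 1
    simp only [j, Matrix.cons_val, projIcc_of_mem _ (r _), projIcc_of_mem zero_le_one
      ⟨(h1 ha).1, a.2.1.2.1⟩, projIcc_of_mem zero_le_one ⟨(h1 hb).1, b.2.1.2.1⟩,
      Subtype.mk.injEq] at t0 t1
    exact Subtype.ext (Prod.ext t0 (by linarith))

end Pool.Agent.S13356
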