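import Pool.Statements.S13377
import Mathlib

set_option autoImplicit false
open Pool Pool.MP_717cd6_gt

namespace Pool.Agent.S13377

open Set Filter Topology Cardinal

inductive T : Type
  | leaf : T
  | node : ℕ → (ℕ → T) → T

abbrev J : Type := ℕ → T

abbrev I : Type := Set J

def A (z : I → Bool) (s : Set (I × Bool)) : Prop := ∀ p ∈ s, z p.1 = p.2

def Con (s : Set (I × Bool)) : Prop := ∀ i, (i, true) ∈ s → (i, false) ∉ s

theorem A.mono {z : I → Bool} {s t : Set (I × Bool)} (h : A z t) (hs : s ⊆ t) : A z s :=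
  fun p hp => h p (hs hp)

theorem A.con {z : I → Bool} {s : Set (I × Bool)} (h : A z s) : Con s := by
  intro i h1 h2
  have h3 := h _ h1
  have h4 := h _ h2
  simp only at h3 h4
  rw [h3] at h4
  cases h4

open Classical in
noncomputable def pt (s : Set (I × Bool)) : I → Bool := fun i => if (i, false) ∈ s then false else true

theorem pt_A {s : Set (I × Bool)} (h : Con s) : A (pt s) s := by
  rintro ⟨i, b⟩ hp
  cases b
  · simp [pt, hp]
  · simp [pt, h i hp]

theorem con_iUnion {s : ℕ → Set (I × Bool)} (hm : Monotone s) (h : ∀ n, Con (s n)) :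
    Con (⋃ n, s n) := by
  intro i h1 h2
  obtain ⟨n, hn⟩ := mem_iUnion.1 h1
  obtain ⟨m, hm'⟩ := mem_iUnion.1 h2
  exact h (max n m) i (hm (le_max_left _ _) hn) (hm (le_max_right _ _) hm')

theorem exists_en {α : Type} (S : Set α) :
    ∃ e : ℕ → Option α, S.Countable → S = {p | ∃ k, e k = some p} := by
  by_cases h : S.Countable
  · rcases S.eq_empty_or_nonempty with rfl | h'
    · exact ⟨fun _ => none, fun _ => by simp⟩
    · obtain ⟨f, rfl⟩ := h.exists_eq_range h'
      exact ⟨fun k => some (f k), fun _ => by ext; simp⟩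
  · exact ⟨fun _ => none, fun h' => absurd h' h⟩

theorem cnt {α : Type} (e : ℕ → Option α) : {p | ∃ k, e k = some p}.Countable :=
  (countable_range e).preimage (Option.some_injective α)

def dec (c : J → ℕ → Option (I × Bool)) (j : J) : Set (I × Bool) := {p | ∃ k, c j k = some p}

def Pre (c : J → ℕ → Option (I × Bool)) : Prop :=
  ∀ t : Set (I × Bool), t.Countable → Con t → ∃ j, Con (t ∪ dec c j)

theorem step (c : ℕ → J → ℕ → Option (I × Bool)) (s : Set (I × Bool)) (hs : s.Countable)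
    (hc : Con s) : ∃ t, s ⊆ t ∧ t.Countable ∧ Con t ∧ ∀ n, Pre (c n) → ∃ j, dec (c n) j ⊆ t := by
  have h1 : ∀ (n : ℕ) (s : Set (I × Bool)), ∃ t, s.Countable ∧ Con s → s ⊆ t ∧
      (t.Countable ∧ Con t) ∧ (Pre (c n) → ∃ j, dec (c n) j ⊆ t) := by
    intro n s
    by_cases h : s.Countable ∧ Con s ∧ Pre (c n)
    · obtain ⟨j, hj⟩ := h.2.2 s h.1 h.2.1
      exact ⟨s ∪ dec (c n) j, fun _ => ⟨subset_union_left, ⟨h.1.union (cnt _), hj⟩,
        fun _ => ⟨j, subset_union_right⟩⟩⟩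
    · exact ⟨s, fun h' => ⟨subset_rfl, h', fun h'' => absurd ⟨h'.1, h'.2, h''⟩ h⟩⟩
  choose nx hnx using h1
  let u : ℕ → Set (I × Bool) := fun n => Nat.rec s (fun m t => nx m t) n
  have hu : ∀ n, (u n).Countable ∧ Con (u n) := by
    intro n
    induction n with
    | zero => exact ⟨hs, hc⟩
    | succ n ih => exact (hnx n _ ih).2.1
  have hm : Monotone u := monotone_nat_of_le_succ fun n => (hnx n _ (hu n)).1
  refine ⟨⋃ n, u n, subset_iUnion u 0, countable_iUnion fun n => (hu n).1,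
    con_iUnion hm fun n => (hu n).2, fun n hn => ?_⟩
  obtain ⟨j, hj⟩ := (hnx n _ (hu n)).2.2 hn
  exact ⟨j, hj.trans (subset_iUnion u (n + 1))⟩

def G (e : I → J → ℕ → Option (I × Bool)) (x : I → Bool) : Prop :=
  {i | x i = false}.Countable ∧ ∀ ξ, x ξ = false → Pre (e ξ) → ∃ j, A x (dec (e ξ) j)

theorem gen (e : I → J → ℕ → Option (I × Bool)) (s0 : Set (I × Bool)) (hs : s0.Countable)
    (hc : Con s0) : ∃ x, G e x ∧ A x s0 := by
  have h1 : ∀ s : Set (I × Bool), ∃ t, s.Countable ∧ Con s → s ⊆ t ∧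
      (t.Countable ∧ Con t) ∧ ∀ p ∈ s, Pre (e p.1) → ∃ j, dec (e p.1) j ⊆ t := by
    intro s
    by_cases h : s.Countable ∧ Con s
    · obtain ⟨f, hf⟩ := countable_iff_exists_subset_range.1 h.1
      obtain ⟨t, h1, h2, h3, h4⟩ := step (fun n => e (f n).1) s h.1 h.2
      refine ⟨t, fun _ => ⟨h1, ⟨h2, h3⟩, fun p hp => ?_⟩⟩
      obtain ⟨n, rfl⟩ := hf hp
      exact h4 n
    · exact ⟨s, fun h' => absurd h' h⟩
  choose nx hnx using h1
  let u : ℕ → Set (I × Bool) := fun n => Nat.rec s0 (fun _ t => nx t) n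
  have hu : ∀ n, (u n).Countable ∧ Con (u n) := by
    intro n
    induction n with
    | zero => exact ⟨hs, hc⟩
    | succ n ih => exact (hnx _ ih).2.1
  have hm : Monotone u := monotone_nat_of_le_succ fun n => (hnx _ (hu n)).1
  have hA := pt_A (con_iUnion hm fun n => (hu n).2)
  have h2 : ∀ i, pt (⋃ n, u n) i = false → (i, false) ∈ ⋃ n, u n := by
    intro i hi
    by_contra h
    simp only [pt, if_neg h] at hi
    cases hi
  refine ⟨_, ⟨?_, fun ξ hξ hp => ?_⟩, hA.mono (subset_iUnion u 0)⟩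
  · exact ((countable_iUnion fun n => (hu n).1).image Prod.fst).mono
      fun i hi => (mem_image _ _ _).2 ⟨_, h2 i hi, rfl⟩
  · obtain ⟨n, hn⟩ := mem_iUnion.1 (h2 ξ hξ)
    obtain ⟨j, hj⟩ := (hnx _ (hu n)).2.2 _ hn hp
    exact ⟨j, hA.mono (hj.trans (subset_iUnion u (n + 1)))⟩

noncomputable def ev (ψ : Set (I × Bool) → ℕ → Option (I × Bool)) : T → Option (I × Bool)
  | .leaf => none
  | .node k f => ψ {p | ∃ n, ev ψ (f n) = some p} k

theorem code (φ : Set (I × Bool) → Set (I × Bool))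
    (hφ : ∀ s, s.Countable → s ⊆ φ s ∧ (φ s).Countable ∧ (Con s → Con (φ s))) :
    ∃ c, Pre c ∧ ∀ j, ∃ s, s.Countable ∧ dec c j = φ s := by
  choose en hen using exists_en (α := I × Bool)
  let fl : I × Bool → I × Bool := fun p => (p.1, !p.2)
  let ψ : Set (I × Bool) → ℕ → Option (I × Bool) := fun s => en (φ s ∪ fl '' s)
  let S : J → Set (I × Bool) := fun f => {p | ∃ n, ev ψ (f n) = some p}
  have hS : ∀ f, (S f).Countable := fun f => cnt _
  let C : Set (I × Bool) := {p | ∃ t, ev ψ t = some p}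
  have hC : ∀ f, φ (S f) ∪ fl '' S f ⊆ C := by
    intro f p hp
    rw [hen _ ((hφ _ (hS f)).2.1.union ((hS f).image _))] at hp
    obtain ⟨k, hk⟩ := hp
    exact ⟨.node k f, hk⟩
  have flip : ∀ p ∈ C, fl p ∈ C := by
    rintro p ⟨t, ht⟩
    exact hC (fun _ => t) (Or.inr ⟨p, ⟨0, ht⟩, rfl⟩)
  have hd : ∀ j, dec (fun j => en (φ (S j))) j = φ (S j) := fun j =>
    (hen _ (hφ _ (hS j)).2.1).symm
  refine ⟨fun j => en (φ (S j)), fun t ht hc => ?_, fun j => ⟨S j, hS j, hd j⟩⟩
  have h1 : ∀ o : Option (I × Bool), ∃ τ : T, (o = none → ev ψ τ = none) ∧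
      ∀ p, o = some p → p ∈ C → ev ψ τ = some p := by
    intro o
    cases o with
    | none => exact ⟨.leaf, fun _ => rfl, fun _ h => by cases h⟩
    | some p =>
      by_cases h : p ∈ C
      · obtain ⟨τ, hτ⟩ := h
        exact ⟨τ, fun h => (by cases h), fun q hq _ => by cases hq; exact hτ⟩
      · exact ⟨.leaf, fun _ => rfl, fun q hq h' => by cases hq; exact absurd h' h⟩
  choose τ h2 h3 using h1
  have h4 := hen (t ∩ C) (ht.mono inter_subset_left)
  have h5 : S (fun n => τ (en (t ∩ C) n)) = t ∩ C := by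
    ext p
    constructor
    · rintro ⟨n, hn⟩
      cases h : en (t ∩ C) n with
      | none =>
        rw [h2 _ h] at hn
        cases hn
      | some q =>
        have h6 : q ∈ t ∩ C := by rw [h4]; exact ⟨n, h⟩
        rw [h3 _ q h h6.2] at hn
        cases hn
        exact h6
    · intro hp
      obtain ⟨n, hn⟩ : ∃ k, en (t ∩ C) k = some p := by rw [h4] at hp; exact hp
      exact ⟨n, h3 _ p hn hp.2⟩
  refine ⟨fun n => τ (en (t ∩ C) n), ?_⟩
  rw [hd]
  have h6 := hC fun n => τ (en (t ∩ C) n)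
  have h7 := hφ _ (hS fun n => τ (en (t ∩ C) n))
  rw [h5] at h6 h7 ⊢
  have h8 := h7.2.2 fun i a b => hc i a.1 b.1
  rintro i (a | a) (b | b)
  · exact hc i a b
  · exact h8 i (h7.1 ⟨a, flip _ (h6 (Or.inl b))⟩) b
  · exact h8 i a (h7.1 ⟨b, flip _ (h6 (Or.inl a))⟩)
  · exact h8 i a b

@[reducible] def tp (P : (I → Bool) → Prop) : TopologicalSpace {x // P x} where
  IsOpen U := ∀ x ∈ U, ∃ s : Set (I × Bool), s.Countable ∧ A x.1 s ∧ ∀ y, A y.1 s → y ∈ U
  isOpen_univ := fun x _ => ⟨∅, countable_empty, by simp [A], fun _ _ => trivial⟩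
  isOpen_inter := fun U V hU hV x hx => by
    obtain ⟨s, h1, h2, h3⟩ := hU x hx.1
    obtain ⟨t, h4, h5, h6⟩ := hV x hx.2
    exact ⟨s ∪ t, h1.union h4, fun p hp => hp.elim (h2 p) (h5 p), fun y hy =>
      ⟨h3 y (hy.mono subset_union_left), h6 y (hy.mono subset_union_right)⟩⟩
  isOpen_sUnion := fun S hS x ⟨U, hU, hx⟩ => by
    obtain ⟨s, h1, h2, h3⟩ := hS U hU x hx
    exact ⟨s, h1, h2, fun y hy => ⟨U, hU, h3 y hy⟩⟩

theorem card : #(J → ℕ → Option (I × Bool)) = #I ∧ ℵ₀ < #I := by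
  have h0 : ℵ₀ ≤ #J := by
    have : Infinite J := Infinite.of_injective (fun (k : ℕ) (_ : ℕ) => T.node k fun _ => .leaf)
      fun a b h => by simpa using congrFun h 0
    exact aleph0_le_mk J
  have h1 : #I = 2 ^ #J := mk_set
  have h2 : ℵ₀ < #I := h1 ▸ h0.trans_lt (cantor _)
  refine ⟨?_, h2⟩
  have h3 : #(Option (I × Bool)) = #I := by
    simp only [mk_option, mk_prod, lift_id, mk_fintype, Fintype.card_bool, Nat.cast_ofNat]
    have h4 : #I * 2 = #I :=
      mul_eq_left h2.le ((natCast_lt_aleph0 (n := 2)).le.trans h2.le) two_ne_zero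
    rw [h4, add_one_eq h2.le]
  rw [← power_def, ← power_def, h3, h1, mk_nat, ← power_mul, ← power_mul,
    mul_eq_right h0 h0 aleph0_ne_zero, mul_eq_self h0]

theorem result :
    ∃ (X : Type) (t : TopologicalSpace X),
      T3Space X ∧
      (∀ U : ℕ → Set X, (∀ n, IsOpen (U n)) → IsOpen (⋂ n, U n)) ∧
      ¬ (∀ A : Set X, ¬ IsClosed A →
          ∃ D : Set X, D ⊆ A ∧ DiscreteTopology D ∧ (closure D \ A).Nonempty) := by
  classical
  obtain ⟨e⟩ := Cardinal.eq.1 card.1.symm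
  have hunc : ∀ K : Set I, K.Countable → ∃ i, i ∉ K := by
    intro K hK
    by_contra h
    push Not at h
    rw [eq_univ_of_forall h, ← le_aleph0_iff_set_countable, mk_univ] at hK
    exact absurd hK (not_le.2 card.2)
  let P : (I → Bool) → Prop := fun x => x = (fun _ => false) ∨ G e x
  let _ := tp P
  have hop : ∀ U : Set {x // P x}, IsOpen U ↔ ∀ x ∈ U, ∃ s : Set (I × Bool), s.Countable ∧
      A x.1 s ∧ ∀ y, A y.1 s → y ∈ U := fun _ => Iff.rfl
  have ho : ∀ s : Set (I × Bool), s.Countable → IsOpen {y : {x // P x} | A y.1 s} :=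
    fun s hs x hx => ⟨s, hs, hx, fun _ h => h⟩
  have hcl : ∀ s : Set (I × Bool), IsClosed {y : {x // P x} | A y.1 s} := by
    intro s
    rw [← isOpen_compl_iff, hop]
    intro x hx
    obtain ⟨p, hp, hxp⟩ : ∃ p ∈ s, x.1 p.1 ≠ p.2 := by
      by_contra h
      push Not at h
      exact hx h
    refine ⟨{(p.1, x.1 p.1)}, countable_singleton _, by simp [A], fun y hy hA => hxp ?_⟩
    rw [← hA p hp]
    exact (hy _ rfl).symm
  let o : {x // P x} := ⟨fun _ => false, Or.inl rfl⟩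
  have hG : ∀ x, G e x → x ≠ fun _ => false := by
    rintro x hx rfl
    obtain ⟨i, hi⟩ := hunc _ hx.1
    exact hi rfl
  refine ⟨{x // P x}, tp P, ?_, ?_, fun h => ?_⟩
  · have : T0Space {x // P x} := by
      rw [t0Space_iff_exists_isOpen_xor_mem]
      intro x y hxy
      obtain ⟨i, hi⟩ : ∃ i, x.1 i ≠ y.1 i := by
        by_contra h
        push Not at h
        exact hxy (Subtype.ext (funext h))
      exact ⟨_, ho {(i, x.1 i)} (countable_singleton _), Or.inl
        ⟨by simp [A], fun h => hi (h _ rfl).symm⟩⟩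
    have : RegularSpace {x // P x} := by
      refine RegularSpace.of_exists_mem_nhds_isClosed_subset fun x U hU => ?_
      obtain ⟨V, hVU, hV, hx⟩ := mem_nhds_iff.1 hU
      obtain ⟨s, h1, h2, h3⟩ := hV x hx
      exact ⟨_, (ho s h1).mem_nhds h2, hcl s, fun y hy => hVU (h3 y hy)⟩
    exact {}
  · intro U hU x hx
    choose s h1 h2 h3 using fun n => hU n x (mem_iInter.1 hx n)
    refine ⟨⋃ n, s n, countable_iUnion h1, fun p hp => ?_, fun y hy =>
      mem_iInter.2 fun n => h3 n y (hy.mono (subset_iUnion s n))⟩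
    obtain ⟨n, hn⟩ := mem_iUnion.1 hp
    exact h2 n p hn
  · obtain ⟨D, hD, hd, y, hy1, hy2⟩ := h {o}ᶜ (by
      rw [isClosed_compl_iff, hop]
      intro h
      obtain ⟨s, h1, h2, h3⟩ := h o rfl
      obtain ⟨x, hx, hA⟩ := gen e s h1 h2.con
      exact hG x hx (congrArg Subtype.val (h3 ⟨x, Or.inr hx⟩ hA)))
    have hyo : y = o := by simpa using hy2
    subst hyo
    have h1 : ∀ s : Set (I × Bool), ∃ t, s.Countable → (s ⊆ t ∧ t.Countable ∧ (Con s → Con t)) ∧
        ∀ z ∈ D, ¬ A z.1 t := by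
      intro s
      by_cases hs : s.Countable ∧ ∃ x ∈ D, A x.1 s
      · obtain ⟨hs, x, hx, hxs⟩ := hs
        obtain ⟨U, hU, hUD⟩ := isDiscrete_iff_forall_mem_exists_isOpen.1
          (isDiscrete_iff_discreteTopology.2 hd) x hx
        have hxU : x ∈ U := (hUD.symm ▸ (mem_singleton x) : x ∈ U ∩ D).1
        obtain ⟨u, h1, h2, h3⟩ := hU x hxU
        obtain ⟨i, hi⟩ := hunc _ ((hs.union h1).image Prod.fst)
        refine ⟨insert (i, !x.1 i) (s ∪ u), fun _ => ⟨⟨subset_union_left.trans (subset_insert _ _),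
          (hs.union h1).insert _, fun _ => A.con (z := Function.update x.1 i (!x.1 i)) ?_⟩, ?_⟩⟩
        · rintro p (rfl | hp)
          · simp
          · have : p.1 ≠ i := fun h => hi ⟨p, hp, h⟩
            rw [Function.update_of_ne this]
            exact hp.elim (hxs p) (h2 p)
        · intro z hz hA
          have h4 : z ∈ U ∩ D := ⟨h3 z (hA.mono (subset_union_right.trans (subset_insert _ _))), hz⟩
          rw [hUD] at h4
          have h5 := hA _ (mem_insert _ _)
          rw [h4] at h5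
          simp at h5
      · exact ⟨s, fun h' => ⟨⟨subset_rfl, h', id⟩, fun z hz hA => hs ⟨h', z, hz, hA⟩⟩⟩
    choose φ hφ using h1
    obtain ⟨c, hc, hc'⟩ := code φ fun s hs => (hφ s hs).1
    obtain ⟨z, hz1, hz2⟩ := mem_closure_iff.1 hy1 _ (ho {(e.symm c, false)} (countable_singleton _))
      (by simp [A, o])
    have hz : G e z.1 := z.2.resolve_left fun h => hD hz2 (Subtype.ext h)
    have h2 := hz.2 (e.symm c) (hz1 _ rfl)
    rw [e.apply_symm_apply] at h2
    obtain ⟨j, hj⟩ := h2 hc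
    obtain ⟨s, hs, hs'⟩ := hc' j
    exact (hφ s hs).2 z hz2 (hs' ▸ hj)

end Pool.Agent.S13377
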