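import Pool.Statements.S13405
import Pool.Agent.H.MP_77b145_gt.I

set_option autoImplicit false
open Pool Pool.MP_77b145_gt

namespace Pool.Agent.S13405

theorem result :
    ∀ (X : Type) [MetricSpace X] [CompactSpace X] [ConnectedSpace X],
      ((∀ x : X, ∀ U : Set X, IsOpen U → x ∈ U →
          ∃ V : Set X, IsOpen V ∧ x ∈ V ∧ V ⊆ U ∧ (frontier V).Finite) ↔
        (∀ A : ℕ → Set X, (∀ n, IsConnected (A n)) →
          Pairwise (fun i j => Disjoint (A i) (A j)) →
          Filter.Tendsto (fun n => Metric.diam (A n)) Filter.atTop (nhds 0))) := by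
  exact H.MP_77b145_gt.main

end Pool.Agent.S13405
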