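import Pool.Statements.S13418

set_option autoImplicit false
open Pool Pool.MP_79e81e_gt

namespace Pool.Agent.S13418

open Finset

noncomputable instance enc : Encodable (Σ n : ℕ, Equiv.Perm (Fin n)) := Encodable.ofCountable _

noncomputable def sg (k : ℕ) : Equiv.Perm ℕ :=
  match (Encodable.decode k : Option (Σ n : ℕ, Equiv.Perm (Fin n))) with
  | some p => p.2.extendDomain (Fin.equivSubtype (n := p.1))
  | none => 1

theorem sg_enc (n : ℕ) (σ : Equiv.Perm (Fin n)) (i : Fin n) :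
    sg (Encodable.encode (⟨n, σ⟩ : Σ n : ℕ, Equiv.Perm (Fin n))) i = σ i := by
  unfold sg
  rw [Encodable.encodek]
  exact Equiv.Perm.extendDomain_apply_image σ (Fin.equivSubtype (n := n)) i

def GG : SimpleGraph (ℕ × ℕ) := SimpleGraph.fromRel fun a b =>
  (a.2 = 0 ∧ b = (a.1 + 1, 0)) ∨ b = (a.1, a.2 + 1) ∨ b = (a.1, sg a.1 a.2)

noncomputable def nb (a : ℕ × ℕ) : Finset (ℕ × ℕ) :=
  [a, (a.1 + 1, 0), (a.1 - 1, 0), (a.1, a.2 + 1), (a.1, a.2 - 1), (a.1, sg a.1 a.2),
    (a.1, (sg a.1).symm a.2)].toFinset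

theorem nb_card (a : ℕ × ℕ) : (nb a).card ≤ 7 := List.toFinset_card_le _

theorem nb_self (a : ℕ × ℕ) : a ∈ nb a := by simp [nb]

theorem nb_adj {a b : ℕ × ℕ} (h : GG.Adj a b) : b ∈ nb a := by
  obtain ⟨a1, a2⟩ := a
  obtain ⟨b1, b2⟩ := b
  rw [GG, SimpleGraph.fromRel_adj] at h
  rcases h.2 with (⟨h1, h2⟩ | h2 | h2) | (⟨h1, h2⟩ | h2 | h2) <;>
    simp only [Prod.mk.injEq] at h2 <;> obtain ⟨rfl, rfl⟩ := h2
  · simp [nb]
  · simp [nb]
  · simp [nb]
  · obtain rfl : b2 = 0 := h1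
    simp [nb]
  · simp [nb]
  · simp [nb]

theorem GG_conn : GG.Connected := by
  have h1 : ∀ k, GG.Reachable (0, 0) (k, 0) := by
    intro k
    induction k with
    | zero => rfl
    | succ k ih =>
      refine ih.trans (SimpleGraph.Adj.reachable ?_)
      rw [GG, SimpleGraph.fromRel_adj]
      exact ⟨by simp, Or.inl (Or.inl ⟨rfl, rfl⟩)⟩
  have h2 : ∀ k i, GG.Reachable (0, 0) (k, i) := by
    intro k i
    induction i with
    | zero => exact h1 k
    | succ i ih =>
      refine ih.trans (SimpleGraph.Adj.reachable ?_)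
      rw [GG, SimpleGraph.fromRel_adj]
      exact ⟨by simp, Or.inl (Or.inr (Or.inl rfl))⟩
  exact ⟨fun a b => (h2 a.1 a.2).symm.trans (h2 b.1 b.2)⟩

noncomputable def ball : ℕ → ℕ × ℕ → Finset (ℕ × ℕ)
  | 0, a => {a}
  | R + 1, a => (nb a).biUnion (ball R)

theorem ball_card (R : ℕ) : ∀ a, (ball R a).card ≤ 7 ^ R := by
  induction R with
  | zero => intro a; simp [ball]
  | succ R ih =>
    intro a
    refine (card_biUnion_le_card_mul _ _ _ fun b _ => ih b).trans ?_
    rw [pow_succ']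
    exact Nat.mul_le_mul_right _ (nb_card a)

theorem ball_walk (R : ℕ) : ∀ (a b : ℕ × ℕ) (p : GG.Walk a b), p.length ≤ R → b ∈ ball R a := by
  induction R with
  | zero =>
    intro a b p hp
    rw [p.eq_of_length_eq_zero (Nat.le_zero.1 hp)]
    simp [ball]
  | succ R ih =>
    intro a b p hp
    cases p with
    | nil => exact mem_biUnion.2 ⟨a, nb_self a, ih a a SimpleGraph.Walk.nil (Nat.zero_le _)⟩
    | cons h p => exact mem_biUnion.2 ⟨_, nb_adj h, ih _ _ p (by simpa using hp)⟩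

theorem dist_one {a b : ℕ × ℕ}
    (h : (a.2 = 0 ∧ b = (a.1 + 1, 0)) ∨ b = (a.1, a.2 + 1) ∨ b = (a.1, sg a.1 a.2)) :
    GG.dist a b ≤ 1 := by
  by_cases hab : a = b
  · subst hab; simp
  · have : GG.Adj a b := by
      rw [GG, SimpleGraph.fromRel_adj]
      exact ⟨hab, Or.inl h⟩
    exact (SimpleGraph.dist_eq_one_iff_adj.2 this).le

open Pointwise in
theorem cay {Γ : Type} [Group Γ] (S : Finset Γ) (hS : Subgroup.closure (S : Set Γ) = ⊤) (K : ℕ) :
    ∃ B : Finset Γ, ∀ a b : Γ,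
      (SimpleGraph.fromRel (fun a b : Γ => ∃ s ∈ S, b = a * s)).dist a b ≤ K → a⁻¹ * b ∈ B := by
  classical
  have hr : ∀ g a : Γ,
      (SimpleGraph.fromRel (fun a b : Γ => ∃ s ∈ S, b = a * s)).Reachable a (a * g) := by
    intro g
    have hg : g ∈ Subgroup.closure (S : Set Γ) := by rw [hS]; trivial
    induction hg using Subgroup.closure_induction with
    | mem s hs =>
      intro a
      by_cases h : a = a * s
      · rw [← h]
      · exact SimpleGraph.Adj.reachable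
          ((SimpleGraph.fromRel_adj _ _ _).2 ⟨h, Or.inl ⟨s, hs, rfl⟩⟩)
    | one => intro a; rw [mul_one]
    | mul x y _ _ hx hy => intro a; rw [← mul_assoc]; exact (hx a).trans (hy _)
    | inv x _ hx =>
      intro a
      have := (hx (a * x⁻¹)).symm
      rwa [inv_mul_cancel_right] at this
  have hw : ∀ (a b : Γ) (p : (SimpleGraph.fromRel (fun a b : Γ => ∃ s ∈ S, b = a * s)).Walk a b),
      a⁻¹ * b ∈ (insert 1 (S ∪ S⁻¹)) ^ p.length := by
    intro a b p
    induction p with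
    | nil => simp
    | @cons u v w h p ih =>
      rw [SimpleGraph.Walk.length_cons, pow_succ']
      refine mem_mul.2 ⟨u⁻¹ * v, ?_, _, ih, by group⟩
      rcases ((SimpleGraph.fromRel_adj _ _ _).1 h).2 with ⟨s, hs, rfl⟩ | ⟨s, hs, rfl⟩
      · simp [hs]
      · simp [hs]
  refine ⟨(insert 1 (S ∪ S⁻¹)) ^ K, fun a b h => ?_⟩
  have := hr (a⁻¹ * b) a
  rw [mul_inv_cancel_left] at this
  obtain ⟨p, hp⟩ := this.exists_walk_length_eq_dist
  exact pow_subset_pow_right (mem_insert_self _ _) (hp.trans_le h) (hw a b p)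

theorem count {Γ : Type} [Group Γ] (B : Finset Γ) (M n : ℕ) (f : Equiv.Perm (Fin n) → ℕ → Γ)
    (h1 : ∀ σ i, (f σ i)⁻¹ * f σ (i + 1) ∈ B) (h2 : ∀ σ (i : Fin n), (f σ i)⁻¹ * f σ (σ i) ∈ B)
    (h3 : ∀ σ i (s : Finset ℕ), (∀ j ∈ s, f σ j = f σ i) → s.card ≤ M) :
    n.factorial ≤ (B.card * B.card * (M + 1)) ^ n := by
  classical
  let r : Equiv.Perm (Fin n) → ℕ → ℕ := fun σ j => ((range j).filter fun l => f σ l = f σ j).card
  let code : Equiv.Perm (Fin n) → Fin n → B × B × Fin (M + 1) := fun σ i =>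
    (⟨_, h1 σ i⟩, ⟨_, h2 σ i⟩, ⟨r σ (σ i), Nat.lt_succ_of_le
      (h3 σ (σ i) _ fun j hj => (mem_filter.1 hj).2)⟩)
  have hinj : Function.Injective code := by
    intro σ τ h
    have e1 : ∀ i : Fin n, (f σ i)⁻¹ * f σ (i + 1) = (f τ i)⁻¹ * f τ (i + 1) := fun i =>
      congrArg (fun c : B × B × Fin (M + 1) => c.1.1) (congrFun h i)
    have e2 : ∀ i : Fin n, (f σ i)⁻¹ * f σ (σ i) = (f τ i)⁻¹ * f τ (τ i) := fun i =>
      congrArg (fun c : B × B × Fin (M + 1) => c.2.1.1) (congrFun h i)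
    have e3 : ∀ i : Fin n, r σ (σ i) = r τ (τ i) := fun i =>
      congrArg (fun c : B × B × Fin (M + 1) => c.2.2.1) (congrFun h i)
    have g : ∀ i, i ≤ n → f τ i = f τ 0 * (f σ 0)⁻¹ * f σ i := by
      intro i
      induction i with
      | zero => intro _; group
      | succ i ih =>
        intro hi
        have a := e1 ⟨i, hi⟩
        have b := ih (Nat.le_of_succ_le hi)
        simp only at a
        calc f τ (i + 1) = f τ i * ((f τ i)⁻¹ * f τ (i + 1)) := by group
          _ = f τ 0 * (f σ 0)⁻¹ * f σ (i + 1) := by rw [← a, b]; group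
    have hr : ∀ j, j ≤ n → r τ j = r σ j := by
      intro j hj
      refine congrArg card (filter_congr fun l hl => ?_)
      rw [g l ((mem_range.1 hl).le.trans hj), g j hj, mul_right_inj]
    have mono : ∀ a b, a < b → f σ a = f σ b → r σ a < r σ b := by
      intro a b hab e
      refine card_lt_card ⟨fun l hl => ?_, fun hs => ?_⟩
      · rw [mem_filter, mem_range] at hl ⊢
        exact ⟨hl.1.trans hab, hl.2.trans e⟩
      · have := hs (mem_filter.2 ⟨mem_range.2 hab, e⟩)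
        simp at this
    ext i
    have a : f σ (σ i) = f σ (τ i) := by
      have := e2 i
      rw [g i i.2.le, g (τ i) (τ i).2.le] at this
      calc f σ (σ i) = f σ i * ((f σ i)⁻¹ * f σ (σ i)) := by group
        _ = f σ (τ i) := by rw [this]; group
    have b := e3 i
    rw [hr _ (τ i).2.le] at b
    rcases lt_trichotomy (σ i : ℕ) (τ i) with c | c | c
    · exact absurd b (mono _ _ c a).ne
    · exact c
    · exact absurd b (mono _ _ c a.symm).ne'
  have := Fintype.card_le_of_injective code hinj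
  simpa [Fintype.card_perm, mul_assoc] using this

theorem result :
    ¬ (∀ (V : Type) (G : SimpleGraph V), G.Connected →
      (∃ D : ℕ, ∀ v : V, (G.neighborSet v).encard ≤ (D : ℕ∞)) →
      ∃ (Γ : Type) (inst : Group Γ) (S : Finset Γ),
        Subgroup.closure (S : Set Γ) = ⊤ ∧
        ∃ f : V → Γ,
          (∀ R : ℕ, ∃ K : ℕ, ∀ x y : V, G.dist x y ≤ R →
              (SimpleGraph.fromRel (fun a b : Γ => ∃ s ∈ S, b = a * s)).dist (f x) (f y) ≤ K) ∧
          (∀ K : ℕ, ∃ R : ℕ, ∀ x y : V,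
              (SimpleGraph.fromRel (fun a b : Γ => ∃ s ∈ S, b = a * s)).dist (f x) (f y) ≤ K →
              G.dist x y ≤ R)) := by
  intro H
  obtain ⟨Γ, _, S, hS, f, f1, f2⟩ := H (ℕ × ℕ) GG GG_conn ⟨7, fun v => by
    refine (Set.encard_le_encard (t := (nb v : Set (ℕ × ℕ))) fun b hb => nb_adj hb).trans ?_
    rw [Set.encard_coe_eq_coe_finsetCard]
    exact_mod_cast nb_card v⟩
  obtain ⟨K, hK⟩ := f1 1
  obtain ⟨R, hR⟩ := f2 0
  obtain ⟨B, hB⟩ := cay S hS K
  have key : ∀ n : ℕ, n.factorial ≤ (B.card * B.card * (7 ^ R + 1)) ^ n := by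
    intro n
    refine count B (7 ^ R) n
      (fun σ i => f (Encodable.encode (⟨n, σ⟩ : Σ n : ℕ, Equiv.Perm (Fin n)), i))
      (fun σ i => hB _ _ (hK _ _ (dist_one (Or.inr (Or.inl rfl)))))
      (fun σ i => hB _ _ (hK _ _ (dist_one (Or.inr (Or.inr (by rw [sg_enc])))))) ?_
    intro σ i s hs
    refine le_trans ?_ (ball_card R (Encodable.encode (⟨n, σ⟩ : Σ n : ℕ, Equiv.Perm (Fin n)), i))
    refine card_le_card_of_injOn (fun j => (Encodable.encode
      (⟨n, σ⟩ : Σ n : ℕ, Equiv.Perm (Fin n)), j)) (fun j hj => ?_) fun a _ b _ h => (Prod.ext_iff.1 h).2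
    obtain ⟨p, hp⟩ := (GG_conn _ _).exists_walk_length_eq_dist
    refine ball_walk R _ _ p (hp.trans_le (hR _ _ ?_))
    rw [hs j hj]
    simp
  obtain ⟨n, hn⟩ := (Nat.eventually_pow_lt_factorial_sub (B.card * B.card * (7 ^ R + 1)) 0).exists
  exact absurd (key n) (not_le.2 hn)

end Pool.Agent.S13418
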