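import Pool.Statements.S13419

set_option autoImplicit false
open Pool Pool.MP_7aa44c_gt

namespace Pool.Agent.S13419

open Set Filter Topology

theorem feather {X Z : Type} [TopologicalSpace X] [TopologicalSpace Z] [CompactSpace Z] [T2Space Z]
    (j : X → Z) (hj : IsInducing j) (e : X) (G : ℕ → Set Z) (hG : ∀ n, IsOpen (G n))
    (he : ∀ n, j e ∈ G n) (hr : (⋂ n, G n) ⊆ range j) :
    ∃ U : ℕ → Set X, (∀ n, IsOpen (U n)) ∧ (∀ n, e ∈ U n) ∧ (∀ n, closure (U (n + 1)) ⊆ U n) ∧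
      IsCompact (⋂ n, U n) ∧ ∀ O, IsOpen O → (⋂ n, U n) ⊆ O → ∃ n, U n ⊆ O := by
  have step : ∀ O : Set Z, IsOpen O → j e ∈ O → ∃ V, (IsOpen V ∧ j e ∈ V) ∧ closure V ⊆ O := by
    intro O hO h
    obtain ⟨t, ht, htc, hts⟩ := exists_mem_nhds_isClosed_subset (hO.mem_nhds h)
    exact ⟨interior t, ⟨isOpen_interior, mem_interior_iff_mem_nhds.2 ht⟩,
      (closure_minimal interior_subset htc).trans hts⟩
  choose nx n1 n2 using step
  let V : ℕ → {V : Set Z // IsOpen V ∧ j e ∈ V} := fun n => Nat.rec ⟨univ, isOpen_univ, trivial⟩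
    (fun n p => ⟨nx (p.1 ∩ G n) (p.2.1.inter (hG n)) ⟨p.2.2, he n⟩, n1 _ _ _⟩) n
  have hV : ∀ n, closure (V (n + 1)).1 ⊆ (V n).1 ∩ G n := fun n => n2 _ _ _
  have hanti : Antitone fun n => (V n).1 := antitone_nat_of_succ_le fun n =>
    subset_closure.trans ((hV n).trans inter_subset_left)
  have heq : (⋂ n, (V n).1) = ⋂ n, closure (V n).1 :=
    Subset.antisymm (iInter_mono fun n => subset_closure)
      (subset_iInter fun n => (iInter_subset _ (n + 1)).trans ((hV n).trans inter_subset_left))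
  have hrg : (⋂ n, closure (V n).1) ⊆ range j := fun x hx =>
    hr (mem_iInter.2 fun n => (hV n (mem_iInter.1 hx (n + 1))).2)
  refine ⟨fun n => j ⁻¹' (V n).1, fun n => (V n).2.1.preimage hj.continuous, fun n => (V n).2.2,
    fun n => (hj.continuous.closure_preimage_subset _).trans
      (preimage_mono ((hV n).trans inter_subset_left)), ?_, ?_⟩
  · rw [← preimage_iInter, heq]
    exact (hj.isCompact_preimage_iff hrg).2 (isClosed_iInter fun _ => isClosed_closure).isCompact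
  · intro O hO hs
    obtain ⟨O', hO', rfl⟩ := hj.isOpen_iff.1 hO
    obtain ⟨n, hn⟩ := exists_subset_nhds_of_isCompact' (V := fun n => closure (V n).1) (U := O')
      (Antitone.directed_ge fun a b h => closure_mono (hanti h))
      (fun _ => isClosed_closure.isCompact) (fun _ => isClosed_closure) (fun x hx => by
        obtain ⟨y, rfl⟩ := hrg hx
        refine hO'.mem_nhds (hs ?_)
        rw [← preimage_iInter, heq]
        exact hx)
    exact ⟨n, preimage_mono (subset_closure.trans hn)⟩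

theorem dlem {X : Type} [TopologicalSpace X] [T1Space X] (W : ℕ → X → Set X) (K : X → Set X)
    (hK : ∀ x, IsCompact (K x)) (hs : ∀ n x, x ∈ W n x) (hsy : ∀ n x y, y ∈ W n x → x ∈ W n y)
    (hb : ∀ x O, IsOpen O → K x ⊆ O → ∃ n, ∀ m ≥ n, W m x ⊆ O)
    (hl : ∀ n (E : Set X), (∀ a ∈ E, ∀ b ∈ E, b ∈ W n a → a = b) → ∀ z, ∃ V ∈ 𝓝 z,
      {a | a ∈ E ∧ (K a ∩ V).Nonempty}.Finite)
    (N : X → Set X) (hN : ∀ x, N x ∈ 𝓝 x) :
    ∃ D : Set X, IsClosed D ∧ DiscreteTopology D ∧ (⋃ x ∈ D, N x) = univ := by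
  have stage : ∀ (n : ℕ) (O : Set X), ∃ D : Set X, Disjoint D O ∧
      (∀ z, ∃ V ∈ 𝓝 z, (D ∩ V).Finite) ∧ ∀ x (F : Set X), F.Finite → F ⊆ K x \ O →
        W n x ⊆ O ∪ ⋃ y ∈ F, interior (N y) → x ∈ O ∪ ⋃ y ∈ D, interior (N y) := by
    intro n O
    let P : Set X := {x | ∃ F : Set X, F.Finite ∧ F ⊆ K x \ O ∧
      W n x ⊆ O ∪ ⋃ y ∈ F, interior (N y)}
    have hP : ∀ x ∈ P, ∃ F : Set X, F.Finite ∧ F ⊆ K x \ O ∧
      W n x ⊆ O ∪ ⋃ y ∈ F, interior (N y) := fun x h => h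
    choose! F F1 F2 F3 using hP
    obtain ⟨E, hE⟩ := zorn_subset {E | E ⊆ P ∧ ∀ a ∈ E, ∀ b ∈ E, b ∈ W n a → a = b} (by
      intro c hc hch
      refine ⟨⋃₀ c, ⟨sUnion_subset fun t ht => (hc ht).1, ?_⟩, fun s hs => subset_sUnion_of_mem hs⟩
      rintro a ⟨s, hs, ha⟩ b ⟨t, ht, hb⟩ hab
      rcases hch.total hs ht with h | h
      · exact (hc ht).2 a (h ha) b hb hab
      · exact (hc hs).2 a ha b (h hb) hab)
    refine ⟨⋃ a ∈ E, F a, ?_, fun z => ?_, fun x F' a1 a2 a3 => ?_⟩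
    · rw [disjoint_left]
      intro y hy
      obtain ⟨a, ha, hy⟩ := mem_iUnion₂.1 hy
      exact (F2 a (hE.prop.1 ha) hy).2
    · obtain ⟨V, hV, hf⟩ := hl n E hE.prop.2 z
      refine ⟨V, hV, (hf.biUnion fun a ha => F1 a (hE.prop.1 ha.1)).subset ?_⟩
      rintro y ⟨hy, hyV⟩
      obtain ⟨a, ha, hy⟩ := mem_iUnion₂.1 hy
      exact mem_biUnion (x := a) ⟨ha, y, (F2 a (hE.prop.1 ha) hy).1, hyV⟩ hy
    · have hx : x ∈ P := ⟨F', a1, a2, a3⟩
      have : ∃ a ∈ E, x ∈ W n a := by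
        by_contra hcon
        push Not at hcon
        have hm : insert x E ∈ {E | E ⊆ P ∧ ∀ a ∈ E, ∀ b ∈ E, b ∈ W n a → a = b} := by
          refine ⟨insert_subset hx hE.prop.1, ?_⟩
          rintro a (rfl | ha) b (rfl | hb) hab
          · rfl
          · exact absurd (hsy _ _ _ hab) (hcon b hb)
          · exact absurd hab (hcon a ha)
          · exact hE.prop.2 a ha b hb hab
        exact hcon x (hE.le_of_ge hm (subset_insert x E) (mem_insert x E)) (hs n x)
      obtain ⟨a, ha, hxa⟩ := this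
      refine (F3 a (hE.prop.1 ha) hxa).imp id fun h => ?_
      obtain ⟨y, hy, h⟩ := mem_iUnion₂.1 h
      exact mem_biUnion (mem_biUnion ha hy) h
  choose st s1 s2 s3 using stage
  let O : ℕ → Set X := fun n => Nat.rec ∅ (fun n O => O ∪ ⋃ y ∈ st n O, interior (N y)) n
  have O1 : ∀ n, O (n + 1) = O n ∪ ⋃ y ∈ st n (O n), interior (N y) := fun _ => rfl
  have Oo : ∀ n, IsOpen (O n) := by
    intro n
    induction n with
    | zero => exact isOpen_empty
    | succ n ih => exact ih.union (isOpen_biUnion fun _ _ => isOpen_interior)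
  have Om : Monotone O := monotone_nat_of_le_succ fun n => subset_union_left
  have cover : ∀ x, ∃ n, x ∈ O n := by
    intro x
    obtain ⟨t, t1, t2⟩ := ((hK x).diff (isOpen_iUnion Oo)).elim_nhds_subcover
      (fun y => interior (N y)) (fun y _ => interior_mem_nhds.2 (hN y))
    have ho : ∀ n, IsOpen (O n ∪ ⋃ y ∈ (t : Set X), interior (N y)) := fun n =>
      (Oo n).union (isOpen_biUnion fun _ _ => isOpen_interior)
    obtain ⟨m, hm⟩ := (hK x).elim_directed_cover _ ho (fun y hy => by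
      by_cases h : y ∈ ⋃ n, O n
      · obtain ⟨n, hn⟩ := mem_iUnion.1 h
        exact mem_iUnion.2 ⟨n, Or.inl hn⟩
      · exact mem_iUnion.2 ⟨0, Or.inr (t2 ⟨hy, h⟩)⟩)
      (Monotone.directed_le fun a b h => union_subset_union_left _ (Om h))
    obtain ⟨n, hn⟩ := hb x _ (ho m) hm
    refine ⟨max m n + 1, s3 (max m n) _ x t t.finite_toSet
      (fun y hy => ⟨(t1 y hy).1, fun h => (t1 y hy).2 (mem_iUnion.2 ⟨_, h⟩)⟩) ?_⟩
    exact (hn _ (le_max_right _ _)).trans (union_subset_union_left _ (Om (le_max_left _ _)))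
  have hD : IsClosed (⋃ n, st n (O n)) ∧ IsDiscrete (⋃ n, st n (O n)) := by
    rw [isClosed_and_discrete_iff]
    intro z
    rw [disjoint_principal_right]
    obtain ⟨m, hm⟩ := cover z
    have h1 : ∀ n ∈ Iio m, (st n (O n))ᶜ ∈ 𝓝[≠] z := by
      intro n _
      obtain ⟨V, hV, hf⟩ := s2 n (O n) z
      have h2 : ((st n (O n) ∩ V) \ {z})ᶜ ∈ 𝓝 z :=
        (hf.subset diff_subset).isClosed.isOpen_compl.mem_nhds fun h => h.2 rfl
      filter_upwards [mem_nhdsWithin_of_mem_nhds hV, mem_nhdsWithin_of_mem_nhds h2,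
        self_mem_nhdsWithin] with w a b c d
      exact b ⟨⟨d, a⟩, c⟩
    filter_upwards [(biInter_mem (finite_Iio m)).2 h1,
      mem_nhdsWithin_of_mem_nhds ((Oo m).mem_nhds hm)] with w a b c
    obtain ⟨n, hn⟩ := mem_iUnion.1 c
    by_cases h : n < m
    · exact mem_iInter₂.1 a n h hn
    · exact disjoint_left.1 (s1 n (O n)) hn (Om (not_lt.1 h) b)
  refine ⟨_, hD.1, isDiscrete_iff_discreteTopology.1 hD.2, eq_univ_of_forall fun x => ?_⟩
  obtain ⟨n, hn⟩ := cover x
  induction n with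
  | zero => exact absurd hn (notMem_empty x)
  | succ n ih =>
    rcases hn with h | h
    · exact ih h
    · obtain ⟨y, hy, h⟩ := mem_iUnion₂.1 h
      exact mem_biUnion (mem_iUnion.2 ⟨n, hy⟩) (interior_subset h)

theorem result :
    ∀ (X : Type) [TopologicalSpace X] [T35Space X],
      (∃ (e : X) (φ : X × X ≃ₜ X × X),
          (∀ p : X × X, (φ p).1 = p.1) ∧ ∀ x : X, φ (x, x) = (x, e)) →
      (∃ γ : ℕ → Set (Set (StoneCech X)),
          (∀ n, ∀ U ∈ γ n, IsOpen U) ∧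
          (∀ n, ∀ x : X, ∃ U ∈ γ n, stoneCechUnit x ∈ U) ∧
          ∀ x : X, (⋂ n, ⋃₀ {U | U ∈ γ n ∧ stoneCechUnit x ∈ U}) ⊆
            Set.range (stoneCechUnit : X → StoneCech X)) →
      ∀ N : X → Set X, (∀ x, N x ∈ nhds x) →
        ∃ D : Set X, IsClosed D ∧ DiscreteTopology D ∧ (⋃ x ∈ D, N x) = Set.univ := by
  rintro X _ _ ⟨e, φ, h1, h2⟩ ⟨γ, g1, g2, g3⟩ N hN
  choose G G1 G2 using fun n => g2 n e
  obtain ⟨U, u1, u2, u3, u4, u5⟩ := feather stoneCechUnit isInducing_stoneCechUnit e G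
    (fun n => g1 n _ (G1 n)) G2 (fun z hz => g3 e
      (mem_iInter.2 fun n => ⟨G n, ⟨G1 n, G2 n⟩, mem_iInter.1 hz n⟩))
  have ua : Antitone U := antitone_nat_of_succ_le fun n => subset_closure.trans (u3 n)
  let q : X × X → X := fun a => (φ a).2
  let p : X × X → X := fun a => (φ.symm a).2
  have hq : Continuous q := continuous_snd.comp φ.continuous
  have hp : Continuous p := continuous_snd.comp φ.symm.continuous
  have pq : ∀ x y, p (x, q (x, y)) = y := fun x y => by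
    have : (x, q (x, y)) = φ (x, y) := Prod.ext (h1 (x, y)).symm rfl
    show (φ.symm (x, q (x, y))).2 = y
    rw [this, φ.symm_apply_apply]
  have qp : ∀ x y, q (x, p (x, y)) = y := fun x y => by
    have h : (φ.symm (x, y)).1 = x := by
      have := h1 (φ.symm (x, y))
      rw [φ.apply_symm_apply] at this
      exact this.symm
    have : (x, p (x, y)) = φ.symm (x, y) := Prod.ext h.symm rfl
    show (φ (x, p (x, y))).2 = y
    rw [this, φ.apply_symm_apply]
  have qq : ∀ x, q (x, x) = e := fun x => by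
    show (φ (x, x)).2 = e
    rw [h2]
  have hH : IsClosed (⋂ n, U n) := u4.isClosed
  have hc : ∀ x, IsCompact ((fun h => p (x, h)) '' ⋂ n, U n) := fun x =>
    u4.image (hp.comp (Continuous.prodMk_right x))
  have hq' : ∀ x, Continuous fun y => q (y, x) := fun x => hq.comp (Continuous.prodMk_left x)
  refine dlem (fun n x => {y | q (x, y) ∈ U n ∧ q (y, x) ∈ U n})
    (fun x => ((fun h => p (x, h)) '' ⋂ n, U n) ∩ {y | q (y, x) ∈ ⋂ n, U n})
    (fun x => (hc x).inter_right (hH.preimage (hq' x)))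
    (fun n x => ⟨by rw [qq]; exact u2 n, by rw [qq]; exact u2 n⟩) (fun n x y h => ⟨h.2, h.1⟩)
    ?_ ?_ N hN
  · intro x O hO hs
    have ho : ∀ n, IsOpen (O ∪ {y | q (y, x) ∉ closure (U n)}) := fun n =>
      hO.union (isClosed_closure.isOpen_compl.preimage (hq' x))
    obtain ⟨m, hm⟩ := (hc x).elim_directed_cover _ ho (fun y hy => by
      by_cases h : q (y, x) ∈ ⋂ n, U n
      · exact mem_iUnion.2 ⟨0, Or.inl (hs ⟨hy, h⟩)⟩
      · obtain ⟨n, hn⟩ : ∃ n, q (y, x) ∉ U n := by simpa using h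
        exact mem_iUnion.2 ⟨n + 1, Or.inr fun h' => hn (u3 n h')⟩)
      (Monotone.directed_le fun a b h => union_subset_union_right _
        fun y hy h' => hy (closure_mono (ua h) h'))
    obtain ⟨k, hk⟩ := u5 _ ((ho m).preimage (hp.comp (Continuous.prodMk_right x)))
      (image_subset_iff.1 hm)
    refine ⟨max m k, fun n hn y hy => ?_⟩
    have := hk (ua ((le_max_right _ _).trans hn) hy.1)
    have h3 : p (x, q (x, y)) ∈ O ∪ {y | q (y, x) ∉ closure (U m)} := this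
    rw [pq] at h3
    exact h3.resolve_right fun h => h (subset_closure (ua ((le_max_left _ _).trans hn) hy.2))
  · intro n E hE z
    have loc : ∀ w : X, ∃ O ∈ 𝓝 w, ∀ a ∈ O, ∀ b ∈ O, q (a, b) ∈ U n := by
      intro w
      have : q ⁻¹' U n ∈ 𝓝 (w, w) := ((u1 n).preimage hq).mem_nhds (by
        show q (w, w) ∈ U n
        rw [qq]; exact u2 n)
      rw [nhds_prod_eq, mem_prod_self_iff] at this
      obtain ⟨O, o1, o2⟩ := this
      exact ⟨O, o1, fun a ha b hb => o2 (mk_mem_prod ha hb)⟩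
    choose O o1 o2 using loc
    obtain ⟨t, -, t2⟩ := (hc z).elim_nhds_subcover (fun w => interior (O w))
      fun w _ => interior_mem_nhds.2 (o1 w)
    obtain ⟨u, v, a1, -, a3, a4, a5⟩ := generalized_tube_lemma (isCompact_singleton (x := z)) u4
      ((isOpen_biUnion fun w (_ : w ∈ t) => isOpen_interior (s := O w)).preimage hp) (by
        rintro ⟨_, h⟩ ⟨rfl, hh⟩
        exact t2 ⟨h, hh, rfl⟩)
    refine ⟨u, a1.mem_nhds (a3 rfl), (t.finite_toSet.biUnion (t := fun w => E ∩ O w)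
      fun w _ => Set.Subsingleton.finite fun a ha b hb =>
        hE a ha.1 b hb.1 ⟨o2 w a ha.2 b hb.2, o2 w b hb.2 a ha.2⟩).subset ?_⟩
    rintro a ⟨ha, y, hy, hyu⟩
    have h3 : p (y, q (y, a)) ∈ ⋃ w ∈ t, interior (O w) := a5 (mk_mem_prod hyu (a4 hy.2))
    rw [pq] at h3
    obtain ⟨w, hw, h4⟩ := mem_iUnion₂.1 h3
    exact mem_biUnion hw ⟨ha, interior_subset h4⟩

end Pool.Agent.S13419
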