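import Pool.Statements.S13437
import Pool.Agent.H.MP_7d36bd_gt.A

set_option autoImplicit false
open Pool Pool.MP_7d36bd_gt

namespace Pool.Agent.S13437

theorem result :
    ∃ (X : Type) (_ : TopologicalSpace X),
      T1Space X ∧ HereditarilyLindelofSpace X ∧
      ¬ (∀ U : X → Set X, (∀ x, U x ∈ nhds x) →
          ∃ D : Set X, DiscreteTopology D ∧ (⋃ x ∈ D, U x) = Set.univ) := by
  obtain ⟨U, h1, h2⟩ := Pool.Agent.H.MP_7d36bd_gt.main
  refine ⟨Pool.Agent.H.MP_7d36bd_gt.T, inferInstance, inferInstance, Pool.Agent.H.MP_7d36bd_gt.hl,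
    fun h => ?_⟩
  obtain ⟨D, d1, d2⟩ := h U fun x => (h1 x).1.mem_nhds (h1 x).2
  exact h2 D d1 d2

end Pool.Agent.S13437
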