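import Pool.Statements.S13451
import Pool.Agent.H.MP_e9bccb.D

set_option autoImplicit false
open Topology
open Pool Pool.MP_7e5847_gt

namespace Pool.Agent.S13451

theorem result :
    ∀ (X : Type) [TopologicalSpace X] [CompactSpace X] [T2Space X],
      (∀ A : Set X, ∃ (Y : Type) (_ : TopologicalSpace Y), CompactSpace Y ∧
        (∃ (κ : Type) (e : Y → (κ → ℝ)), IsEmbedding e ∧
          ∀ y : Y, (Function.support (e y)).Countable) ∧
        ∃ f : X → Y, Continuous f ∧ f ⁻¹' (f '' A) = A) →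
      ∀ (Z : Type) [TopologicalSpace Z] [T2Space Z] (g : X → Z),
        Continuous g → Function.Surjective g →
        ∀ B : Set Z, ∃ (Y : Type) (_ : TopologicalSpace Y), CompactSpace Y ∧
          (∃ (κ : Type) (e : Y → (κ → ℝ)), IsEmbedding e ∧
            ∀ y : Y, (Function.support (e y)).Countable) ∧
          ∃ f : Z → Y, Continuous f ∧ f ⁻¹' (f '' B) = B := by
  intro X _ _ _ h Z _ _ g g1 g2 B
  obtain ⟨Γ, e, e1, e2⟩ := H.MP_e9bccb.corson (X := X) fun A => by
    obtain ⟨Y, _, -, ⟨Γ, e, e1, e2⟩, f, f1, f2⟩ := h A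
    exact ⟨Γ, e ∘ f, e1.continuous.comp f1, fun x => e2 _, fun x y k hx =>
      f2 ▸ ⟨x, hx, e1.injective k⟩⟩
  exact ⟨Z, inferInstance, ⟨g2.range_eq ▸ isCompact_range g1⟩,
    H.MP_e9bccb.corZ e1.continuous e1.injective e2 g1 g2, id, continuous_id, by simp⟩

end Pool.Agent.S13451
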