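import Pool.Statements.S13456
import Pool.Agent.H.MP_da03b0_gt.A

set_option autoImplicit false
open Pool Pool.MP_7ef336_gt

namespace Pool.Agent.S13456

open Set Topology Filter Metric Function Pool.Agent.H.MP_da03b0_gt

theorem ex : ∃ A : Set (EuclideanSpace ℝ (Fin 3)),
    (∀ 𝒰 : Finset (Set (EuclideanSpace ℝ (Fin 3))), (∀ U ∈ 𝒰, IsOpen U) → A ⊆ ⋃₀ (↑𝒰 : Set (Set _)) →
      ∃ 𝒱 : Finset (Set _), (∀ V ∈ 𝒱, IsOpen V ∧ ∃ U ∈ 𝒰, V ∩ A ⊆ U) ∧
        A ⊆ ⋃₀ (↑𝒱 : Set (Set _)) ∧ ∀ z ∈ A, {V | V ∈ 𝒱 ∧ z ∈ V}.ncard ≤ 1 + 1) ∧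
    (∃ a b : ℝ, ∀ t, !₂[t, a, b] ∈ A) ∧ ∀ C, IsCompact C → C ⊆ Aᶜ →
      (∀ z ∈ Ioo (0 : ℝ) 1, ∃ p ∈ C, p 2 = z) → ∃ j : ℝ × ℝ → EuclideanSpace ℝ (Fin 3), ∃ π,
        Continuous j ∧ Continuous π ∧ (∀ w, π (j w) = w) ∧ ∀ w, ‖w‖ ≤ 1 → j w ∈ C := by
  classical
  obtain ⟨φ, c, k⟩ := osc
  let T : Fin 2 → EuclideanSpace ℝ (Fin 3) → Fin 3 → ℝ := fun m x =>
    ![x 0 - (φ (x 2)).1 + m * (x 1 - (φ (x 2)).2), x 1 - (φ (x 2)).2 - m * (x 0 - (φ (x 2)).1), x 2]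
  have t : ∀ m, IsInducing fun x : {x | ∀ i, Irrational (T m x i)} => T m x := fun m => by
    have a : Continuous fun x : {x | ∀ i, Irrational (T m x i)} => φ (x.1 2) :=
      c.comp_continuous (by fun_prop) fun x => x.2 2
    have b : Continuous fun x : {x : Fin 3 → ℝ // Irrational (x 2)} => φ (x.1 2) :=
      c.comp_continuous ((continuous_apply 2).comp continuous_subtype_val) fun x => x.2
    have d := fun i => (continuous_apply i).comp
      (continuous_subtype_val (p := fun x : Fin 3 → ℝ => Irrational (x 2)))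
    have f : ∀ i, Continuous fun x : {x | ∀ i, Irrational (T m x i)} => x.1 i := by fun_prop
    refine IsInducing.subtypeVal.comp (f := fun x : {x | ∀ i, Irrational (T m x i)} =>
      (⟨T m x, x.2 2⟩ : {x : Fin 3 → ℝ // Irrational (x 2)})) (.of_comp
      (g := fun x => (!₂[(x.1 0 - m * x.1 1) / (1 + m ^ 2) + (φ (x.1 2)).1,
        (x.1 1 + m * x.1 0) / (1 + m ^ 2) + (φ (x.1 2)).2, x.1 2] : EuclideanSpace ℝ (Fin 3)))
      (.subtype_mk ((((f 0).sub a.fst).add (((f 1).sub a.snd).const_mul _)).matrixVecCons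
        ((((f 1).sub a.snd).sub (((f 0).sub a.fst).const_mul _)).matrixVecCons
          ((f 2).matrixVecCons continuous_const))) _) ((PiLp.continuous_toLp 2 _).comp
      (((((d 0).sub ((d 1).const_mul _)).div_const _).add b.fst).matrixVecCons
        (((((d 1).add ((d 0).const_mul _)).div_const _).add b.snd).matrixVecCons
          ((d 2).matrixVecCons continuous_const)))) ?_)
    convert IsInducing.subtypeVal using 1
    ext x i
    fin_cases i <;> simp [T] <;> field_simp <;> ring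
  have r : ∀ (x : EuclideanSpace ℝ (Fin 3)), Irrational (x 2) →
      x ∉ ⋃ m, {x | ∀ i, Irrational (T m x i)} →
        ¬ Irrational (x 0 - (φ (x 2)).1) ∧ ¬ Irrational (x 1 - (φ (x 2)).2) := fun p x v => by
    simp only [mem_compl_iff, mem_iUnion, not_exists, mem_ofPred, Fin.forall_fin_succ, T] at v
    generalize p 0 - (φ (p 2)).1 = s at v
    generalize p 1 - (φ (p 2)).2 = l at v
    simp [x] at v
    by_cases a : Irrational s
    · obtain ⟨l, rfl⟩ := not_not.1 (v.1 a)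
      exact (v.2 (a.add_ratCast l) (a.ratCast_sub l)).elim
    · obtain ⟨s, rfl⟩ := not_not.1 a
      exact ⟨a, fun b => v.2 (b.ratCast_add s) (b.sub_ratCast s)⟩
  refine ⟨⋃ m, {x | ∀ i, Irrational (T m x i)}, fun 𝒰 o s => ?_,
    ⟨√2 + (φ √2).2, √2, fun t => by_contra fun h => (r _ (by
      simpa using irrational_sqrt_two) h).2 (by simpa using irrational_sqrt_two)⟩,
    fun C c1 c5 c2 => ?_⟩
  · choose V v1 v2 v3 v4 using fun m => zd (t m) (fun y => y.2) 𝒰 o ((subset_iUnion _ m).trans s)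
    refine ⟨𝒰.image (V 0) ∪ 𝒰.image (V 1), ?_, fun z a => ?_, fun z _ => ?_⟩
    · simp only [Finset.mem_union, Finset.mem_image]
      rintro _ (⟨U, a, rfl⟩ | ⟨U, a, rfl⟩) <;>
        exact ⟨v1 _ U a, U, a, inter_subset_left.trans (v2 _ U)⟩
    · obtain ⟨m, a⟩ := mem_iUnion.1 a
      obtain ⟨U, b, d⟩ := v3 m z a
      refine ⟨_, Finset.mem_union.2 ?_, d⟩
      fin_cases m
      exacts [.inl (Finset.mem_image_of_mem _ b), .inr (Finset.mem_image_of_mem _ b)]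
    · have : ∀ m, {W | W ∈ 𝒰.image (V m) ∧ z ∈ W}.ncard ≤ 1 := fun m =>
        (ncard_le_one ((Finset.finite_toSet _).subset fun _ => And.left)).2 fun _ a _ b => by
          obtain ⟨U, -, rfl⟩ := Finset.mem_image.1 a.1
          obtain ⟨W, -, rfl⟩ := Finset.mem_image.1 b.1
          rw [v4 m z U W a.2 b.2]
      simp only [Finset.mem_union, or_and_right, setOf_or]
      exact (ncard_union_le _ _).trans (add_le_add (this 0) (this 1))
  let E : ℚ × ℚ → Set ℝ := fun a => {z | Irrational z ∧ !₂[a.1 + (φ z).1, a.2 + (φ z).2, z] ∈ C}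
  obtain ⟨a, z, h⟩ : ∃ a, (interior (closure (E a))).Nonempty := by
    by_contra! h
    obtain ⟨z, ⟨x, y⟩, w⟩ := (dense_of_mem_residual (eventually_residual_irrational.and
      (eventually_countable_forall.2 fun a => residual_of_dense_open isClosed_closure.isOpen_compl
        (interior_eq_empty_iff_dense_compl.1 (h a))))).exists_mem_open isOpen_Ioo
          (nonempty_Ioo.2 (zero_lt_one' ℝ))
    obtain ⟨p, u, rfl⟩ := c2 z w
    obtain ⟨e, f⟩ := r p x (c5 u)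
    obtain ⟨s, e⟩ := not_not.1 e
    obtain ⟨l, f⟩ := not_not.1 f
    refine y (s, l) (subset_closure ⟨x, ?_⟩)
    convert u using 1
    ext i
    fin_cases i <;> simp [e, f]
  obtain ⟨q, h⟩ := Rat.denseRange_cast.exists_mem_open isOpen_interior ⟨z, h⟩
  obtain ⟨d, r, r0, w⟩ := k q (E a) (fun _ => And.left) (mem_interior_iff_mem_nhds.1 h)
  refine ⟨fun w => !₂[a.1 + (d + r • w).1, a.2 + (d + r • w).2, q],
    fun x => ((x 0 - a.1 - d.1) / r, (x 1 - a.2 - d.2) / r), by fun_prop, by fun_prop,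
    fun w => by simp [r0.ne'], fun u v => ?_⟩
  obtain ⟨F, _, f1, f2⟩ := w u v
  exact c1.isClosed.mem_of_tendsto (((show Continuous fun p : (ℝ × ℝ) × ℝ =>
    (!₂[a.1 + p.1.1, a.2 + p.1.2, p.2] : EuclideanSpace ℝ (Fin 3)) by fun_prop).tendsto _).comp
      (f2.prodMk_nhds (f1.trans nhdsWithin_le_nhds)))
    (f1 (mem_of_superset self_mem_nhdsWithin fun _ => And.right))

theorem conv {X : Type} {S : Set X} {𝒱 : Finset (Set X)} {j : ℤ} (h : -1 ≤ j) :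
    (∀ 𝒲 ⊆ 𝒱, (𝒲.card : ℤ) = j + 2 → S ∩ ⋂₀ (↑𝒲 : Set (Set X)) = ∅) ↔
      ∀ z ∈ S, ({V | V ∈ 𝒱 ∧ z ∈ V}.ncard : ℤ) ≤ j + 1 := by
  classical
  have e : ∀ z, {V | V ∈ 𝒱 ∧ z ∈ V}.ncard = (𝒱.filter (z ∈ ·)).card := fun z => by
    rw [← ncard_coe_finset, Finset.coe_filter]
  simp only [e]
  refine ⟨fun H z a => by_contra fun b => ?_, fun H 𝒲 a b => eq_empty_of_forall_notMem fun z c => ?_⟩
  · obtain ⟨𝒲, c, d⟩ := Finset.exists_subset_card_eq (s := 𝒱.filter (z ∈ ·)) (n := (j + 2).toNat)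
      (by omega)
    exact (H 𝒲 (c.trans (Finset.filter_subset _ _)) (by omega)).subset
      ⟨a, fun V v => (Finset.mem_filter.1 (c v)).2⟩
  · have := Finset.card_le_card (fun V v => Finset.mem_filter.2 ⟨a v, c.2 V v⟩ :
      𝒲 ⊆ 𝒱.filter (z ∈ ·))
    have := H z c.1
    omega

theorem result :
    ¬ (∀ n : ℕ, ∀ D : Set (EuclideanSpace ℝ (Fin n)) → ℤ → Prop,
      (∀ (S : Set (EuclideanSpace ℝ (Fin n))) (k : ℤ), D S k ↔
        ∀ 𝒰 : Finset (Set (EuclideanSpace ℝ (Fin n))),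
          (∀ U ∈ 𝒰, IsOpen U) →
          S ⊆ ⋃₀ (↑𝒰 : Set (Set (EuclideanSpace ℝ (Fin n)))) →
          ∃ 𝒱 : Finset (Set (EuclideanSpace ℝ (Fin n))),
            (∀ V ∈ 𝒱, IsOpen V) ∧
            S ⊆ ⋃₀ (↑𝒱 : Set (Set (EuclideanSpace ℝ (Fin n)))) ∧
            (∀ V ∈ 𝒱, ∃ U ∈ 𝒰, V ∩ S ⊆ U) ∧
            (∀ 𝒲 ⊆ 𝒱, (𝒲.card : ℤ) = k + 2 →
              S ∩ ⋂₀ (↑𝒲 : Set (Set (EuclideanSpace ℝ (Fin n)))) = ∅)) →
      ∀ A : Set (EuclideanSpace ℝ (Fin n)),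
        ∃ B : Set (EuclideanSpace ℝ (Fin n)), A ⊆ B ∧
          ∀ m : ℤ,
            (-1 ≤ m ∧ D A m ∧ ∀ j : ℤ, -1 ≤ j → j < m → ¬ D A j) →
            ((D B m ∧ ∀ j : ℤ, -1 ≤ j → j < m → ¬ D B j) ∧
             (D Bᶜ ((n : ℤ) - m - 1) ∧
               ∀ j : ℤ, -1 ≤ j → j < (n : ℤ) - m - 1 → ¬ D Bᶜ j))) := by
  intro H
  classical
  obtain ⟨A, a1, ⟨a, b, a2⟩, a3⟩ := ex
  obtain ⟨B, s, H⟩ := H 3 _ (fun _ _ => Iff.rfl) A
  obtain ⟨⟨b1, -⟩, b2, -⟩ := H 1 ⟨by norm_num, fun 𝒰 o c => by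
    obtain ⟨𝒱, v1, v2, v3⟩ := a1 𝒰 o c
    exact ⟨𝒱, fun V v => (v1 V v).1, v2, fun V v => (v1 V v).2,
      (conv (by norm_num)).2 fun z h => by exact_mod_cast v3 z h⟩, fun j j1 j2 h => by
    obtain ⟨𝒱, v1, v2, v3, v4⟩ := h {{x | x 0 < 1}, {x | 0 < x 0}} (by
      simp only [Finset.mem_insert, Finset.mem_singleton, forall_eq_or_imp, forall_eq]
      constructor <;> apply isOpen_lt <;> fun_prop) fun x _ => by
        simpa using (lt_or_ge (x 0) 1).imp_right zero_lt_one.trans_le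
    have c : Continuous fun t : ℝ => (!₂[t, a, b] : EuclideanSpace ℝ (Fin 3)) := by fun_prop
    obtain ⟨U, u, x⟩ := v2 (a2 0)
    obtain ⟨W, w, y⟩ := v2 (a2 1)
    obtain ⟨_, ⟨t, rfl⟩, ⟨P, p⟩, Q, q⟩ := isPreconnected_range c
      (⋃₀ {V ∈ 𝒱 | V ∩ A ⊆ {x | x 0 < 1}}) (⋃₀ {V ∈ 𝒱 | ¬ V ∩ A ⊆ {x | x 0 < 1}})
      (isOpen_sUnion fun V v => v1 V v.1) (isOpen_sUnion fun V v => v1 V v.1)
      (forall_mem_range.2 fun t => by
        obtain ⟨V, v, z⟩ := v2 (a2 t)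
        exact (em _).imp (fun k => ⟨V, ⟨v, k⟩, z⟩) fun k => ⟨V, ⟨v, k⟩, z⟩)
      ⟨_, ⟨0, rfl⟩, U, ⟨u, by
        obtain ⟨Y, c, d⟩ := v3 U u
        rcases Finset.mem_insert.1 c with rfl | c
        · exact d
        · simpa [Finset.mem_singleton.1 c] using d ⟨x, a2 0⟩⟩, x⟩
      ⟨_, ⟨1, rfl⟩, W, ⟨w, fun k => by simpa using k ⟨y, a2 1⟩⟩, y⟩
    have := (conv j1).1 v4 _ (a2 t)
    have := (one_lt_ncard (s := {V | V ∈ 𝒱 ∧ !₂[t, a, b] ∈ V})
      (𝒱.finite_toSet.subset fun _ => And.left)).2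
      ⟨P, ⟨p.1.1, p.2⟩, Q, ⟨q.1.1, q.2⟩, fun e => q.1.2 (e ▸ p.1.2)⟩
    omega⟩
  have k := low (C := closedBall (0 : ℝ × ℝ) 1) continuous_id continuous_id (fun _ => rfl)
    fun w => mem_closedBall_zero_iff.2
  simp only [imp_false, not_forall] at k
  obtain ⟨𝒰, o, c, k⟩ := k
  let P : Set (ℝ × ℝ) → Set (EuclideanSpace ℝ (Fin 3)) := fun U =>
    (fun x => (x 0, x 1)) ⁻¹' (U ∪ (closedBall 0 1)ᶜ)
  have p : ∀ U ∈ 𝒰, IsOpen (P U) := fun U u =>
    ((o U u).union isClosed_closedBall.isOpen_compl).preimage (by fun_prop)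
  obtain ⟨𝒱, v1, v2, v3, v4⟩ := b1 (𝒰.image P) (Finset.forall_mem_image.2 p) fun x _ => by
    by_cases h : (x 0, x 1) ∈ closedBall (0 : ℝ × ℝ) 1
    · obtain ⟨U, u, v⟩ := c h
      exact ⟨_, Finset.mem_image_of_mem _ u, .inl v⟩
    · obtain ⟨U, u, -⟩ := c (mem_closedBall_self zero_le_one)
      exact ⟨_, Finset.mem_image_of_mem _ u, .inr h⟩
  simp only [Finset.mem_image, exists_exists_and_eq_and] at v3
  choose! U u1 u2 using v3
  let e := fun V => P (U V) ∩ {x | infEDist x B < infEDist x (B \ V)}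
  have e1 : ∀ V ∈ 𝒱, IsOpen (e V) := fun V v =>
    (p _ (u1 V v)).inter (isOpen_lt continuous_infEDist continuous_infEDist)
  let J : (ℝ × ℝ) × ℝ → EuclideanSpace ℝ (Fin 3) := fun w => !₂[w.1.1, w.1.2, w.2]
  have jc : Continuous J := by fun_prop
  have l : (⋃ V ∈ 𝒱, e V)ᶜ ⊆ Bᶜ := compl_subset_compl.2 fun x h => by
    obtain ⟨V, v, w⟩ := v2 h
    refine mem_biUnion v ⟨u2 V v ⟨w, h⟩, ?_⟩
    rw [mem_ofPred, infEDist_zero_of_mem h, infEDist_pos_iff_notMem_closure]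
    exact fun d => closure_minimal (diff_subset_compl _ _) (v1 V v).isClosed_compl d w
  obtain ⟨j, π, j1, j2, j3, j4⟩ := a3 (J '' (closedBall 0 1 ×ˢ Icc 0 1) \ ⋃ V ∈ 𝒱, e V)
    ((((isCompact_closedBall _ _).prod isCompact_Icc).image jc).diff (isOpen_biUnion e1))
    ((diff_subset_compl _ _).trans (l.trans (compl_subset_compl.2 s))) fun z h => by
      by_contra! n
      refine k ⟨𝒱.image fun V => (fun w => J (w, z)) ⁻¹' e V, Finset.forall_mem_image.2 fun V v =>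
        ⟨(e1 V v).preimage (by fun_prop), U V, u1 V v, fun w x => x.1.1.resolve_right (· x.2)⟩,
        fun w x => ?_, fun w x => ?_⟩
      · obtain ⟨V, v, y⟩ := mem_iUnion₂.1 (not_not.1 fun y =>
          n _ ⟨⟨(w, z), ⟨x, Ioo_subset_Icc_self h⟩, rfl⟩, y⟩ rfl)
        exact ⟨_, Finset.mem_image_of_mem _ v, y⟩
      rcases eq_empty_or_nonempty B with rfl | ⟨y, hy⟩
      · exact (s (a2 0)).elim
      obtain ⟨y, y1, y2⟩ := infEDist_lt_iff.1 ((Finset.lt_inf_iff ((infEDist_le_edist_of_mem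
        hy).trans_lt (edist_lt_top (J (w, z)) y))).2 fun V (v : V ∈ 𝒱.filter (J (w, z) ∈ e ·)) =>
          (Finset.mem_filter.1 v).2.2)
      have := (conv (by norm_num)).1 v4 y y1
      refine ((ncard_le_ncard (t := (fun V => (fun w => J (w, z)) ⁻¹' e V) ''
        {V | V ∈ 𝒱 ∧ y ∈ V}) (fun W v => ?_) ((𝒱.finite_toSet.subset
          fun _ => And.left).image _)).trans (ncard_image_le (𝒱.finite_toSet.subset
            fun _ => And.left))).trans (by omega)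
      obtain ⟨V, v1, rfl⟩ := Finset.mem_image.1 v.1
      exact ⟨V, ⟨v1, by_contra fun d => (y2.trans_le (Finset.inf_le (Finset.mem_filter.2
        ⟨v1, v.2⟩))).not_ge (infEDist_le_edist_of_mem ⟨y1, d⟩)⟩, rfl⟩
  refine low j1 j2 j3 (fun w h => l (j4 w h).2) fun 𝒰 o c => ?_
  obtain ⟨𝒱, v1, v2, v3, v4⟩ := b2 𝒰 o c
  exact ⟨𝒱, fun V v => ⟨v1 V v, v3 V v⟩, v2, fun z h => by
    have := (conv (by norm_num)).1 v4 z h
    omega⟩

end Pool.Agent.S13456
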