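import Pool.Statements.S13463
import Pool.Agent.H.MP_80eea4_gt.C

set_option autoImplicit false
open Pool Pool.MP_80eea4_gt
open Pool.Agent.H.MP_80eea4_gt

namespace Pool.Agent.S13463

theorem result :
  ∀ (G : Type) [Group G] [Fintype G] (n : ℕ) (ρ : G →* Matrix (Fin n) (Fin n) ℂ)
    (f : Fin n → MvPolynomial (Fin n) ℂ),
    (∀ g : G, ∀ i : Fin n,
      MvPolynomial.aeval
          (fun j : Fin n => ∑ k : Fin n, ρ g j k • (MvPolynomial.X k : MvPolynomial (Fin n) ℂ))
          (f i)
        = ∑ j : Fin n, ρ g i j • f j) →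
    (∀ i : Fin n, MvPolynomial.constantCoeff (f i) = 0) →
    Module.Finite ℂ (MvPowerSeries (Fin n) ℂ ⧸
      Ideal.span (Set.range (fun i : Fin n => (f i : MvPowerSeries (Fin n) ℂ)))) →
    ∀ g : G,
    ∀ T : (MvPowerSeries (Fin n) ℂ ⧸
          Ideal.span (Set.range (fun i : Fin n => (f i : MvPowerSeries (Fin n) ℂ))))
        →ₐ[ℂ] (MvPowerSeries (Fin n) ℂ ⧸
          Ideal.span (Set.range (fun i : Fin n => (f i : MvPowerSeries (Fin n) ℂ)))),
      (∀ i : Fin n,
        T (Ideal.Quotient.mk
            (Ideal.span (Set.range (fun i : Fin n => (f i : MvPowerSeries (Fin n) ℂ))))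
            (MvPowerSeries.X i))
          = Ideal.Quotient.mk
            (Ideal.span (Set.range (fun i : Fin n => (f i : MvPowerSeries (Fin n) ℂ))))
            (∑ j : Fin n, ρ g i j • (MvPowerSeries.X j : MvPowerSeries (Fin n) ℂ))) →
      LinearMap.trace ℂ
          (MvPowerSeries (Fin n) ℂ ⧸
            Ideal.span (Set.range (fun i : Fin n => (f i : MvPowerSeries (Fin n) ℂ))))
          T.toLinearMap
        = ((Module.finrank ℂ
            (MvPowerSeries (Fin n) ℂ ⧸
              Ideal.span (Set.range (fun i : Fin n => (f i : MvPowerSeries (Fin n) ℂ)) ∪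
                Set.range (fun i : Fin n =>
                  ∑ j : Fin n, (ρ g - 1) i j • (MvPowerSeries.X j : MvPowerSeries (Fin n) ℂ)))))
            : ℂ) := by
  intro G _ _ n ρ f h1 h2 h3 g T hT
  have hs : MvPowerSeries.HasSubst
      (fun i : Fin n => ∑ j : Fin n, ρ g i j • (MvPowerSeries.X j : MvPowerSeries (Fin n) ℂ)) :=
    MvPowerSeries.hasSubst_of_constantCoeff_zero fun i => by simp
  let σ : MvPowerSeries (Fin n) ℂ →ₐ[ℂ] MvPowerSeries (Fin n) ℂ := MvPowerSeries.substAlgHom hs
  let c : MvPolynomial (Fin n) ℂ →ₐ[ℂ] MvPowerSeries (Fin n) ℂ :=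
    MvPolynomial.coeToMvPowerSeries.algHom ℂ
  have hc : ∀ p, c p = p := fun p => by simp [c]
  have hk : ∀ r : MvPowerSeries (Fin n) ℂ, ∃ a : ℂ,
      r - algebraMap ℂ _ a ∈ IsLocalRing.maximalIdeal _ := fun r =>
    ⟨MvPowerSeries.constantCoeff r, (mem_max _).2 (by simp [MvPowerSeries.algebraMap_apply])⟩
  have hf : Sop fun i : Fin n => (f i : MvPowerSeries (Fin n) ℂ) := by
    refine ⟨fun i => (mem_max _).2 (h2 i), fun P hP h => ?_⟩
    have le : Ideal.span (Set.range fun i : Fin n => (f i : MvPowerSeries (Fin n) ℂ)) ≤ P :=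
      Ideal.span_le.2 (Set.range_subset_iff.2 h)
    have : Module.Finite ℂ (MvPowerSeries (Fin n) ℂ ⧸ P) :=
      Module.Finite.of_surjective (Ideal.Quotient.factorₐ ℂ le).toLinearMap
        (Ideal.Quotient.factor_surjective le)
    have := IsArtinianRing.of_finite ℂ (MvPowerSeries (Fin n) ℂ ⧸ P)
    exact IsLocalRing.eq_maximalIdeal
      (Ideal.Quotient.maximal_of_isField _ (IsArtinianRing.isField_of_isDomain _))
  have sf : ∀ i, σ (f i) = act (ρ g) (fun i => (f i : MvPowerSeries (Fin n) ℂ)) i := fun i => by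
    have := congrArg c (h1 g i)
    rw [← AlgHom.comp_apply, MvPolynomial.comp_aeval, map_sum] at this
    simp only [map_sum, map_smul] at this
    simp only [hc, MvPolynomial.coe_X] at this
    exact (MvPowerSeries.substAlgHom_coe hs (f i)).trans this
  have key := main (k := ℂ) MvPowerSeries.X max_eq hk good_X σ (ρ g) (m := Fintype.card G)
    Fintype.card_ne_zero (by rw [← map_pow, pow_card_eq_one, map_one]) _ hf (fun i => by
      have := Subalgebra.mem_map.2 ⟨f i, (MvPolynomial.adjoin_range_X (R := ℂ)).ge trivial,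
        hc (f i)⟩
      rwa [AlgHom.map_adjoin, ← Set.range_comp,
        show c ∘ MvPolynomial.X = MvPowerSeries.X from funext fun j => by simp [hc]] at this)
    (fun i => MvPowerSeries.substAlgHom_X hs i) sf
  refine Eq.trans ?_ key
  have st : Ideal.span (Set.range fun i : Fin n => (f i : MvPowerSeries (Fin n) ℂ)) ≤
      (Ideal.span (Set.range fun i : Fin n => (f i : MvPowerSeries (Fin n) ℂ))).comap σ := by
    rw [Ideal.span_le, Set.range_subset_iff]
    intro i
    rw [SetLike.mem_coe, Ideal.mem_comap, sf]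
    exact act_mem _ (fun j => Ideal.subset_span (Set.mem_range_self j)) i
  unfold tr
  rw [dif_pos st, AlgHom.ext_of_adjoin_eq_top (adj_top MvPowerSeries.X max_eq hk
    fun P hP h => hf.2 P hP fun i => h (Ideal.subset_span (Set.mem_range_self i)))
    (φ₁ := T) (φ₂ := Ideal.quotientMapₐ _ σ st) (by
      rintro _ ⟨i, rfl⟩
      exact (hT i).trans (congrArg _ (MvPowerSeries.substAlgHom_X hs i).symm))]

end Pool.Agent.S13463
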