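import Pool.Statements.S13478
import Pool.Agent.Lib.helper23.PB

set_option autoImplicit false
open Pool Pool.MP_8403e4_gt

namespace Pool.Agent.S13478

open Set Filter Topology Pool.Agent.Lib.helper23.PB Pool.Agent.Lib.helper23.PB.Dat

instance : (cocountable : Filter ℝ).NeBot :=
  ⟨fun h => not_countable_univ (compl_empty ▸ mem_cocountable.1 (empty_mem_iff_bot.2 h))⟩

instance : CountableInterFilter (cocountable : Filter ℝ) :=
  cardinalInterFilter_aleph_one_iff.1 inferInstance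

lemma le_co (l : Filter ℕ) : l ×ˢ (cocountable : Filter ℝ) ≤ cocountable := fun C h =>
  mem_of_superset (prod_mem_prod univ_mem (mem_cocountable.2 (by
    simpa using (mem_cocountable.1 h).image Prod.snd) : (Prod.snd '' Cᶜ)ᶜ ∈ _))
      fun d a => by_contra fun b => a.2 ⟨d, b, rfl⟩

noncomputable def u : Ultrafilter (ℕ × ℝ) := Ultrafilter.of (atTop ×ˢ cocountable)

noncomputable def P : Dat (ℕ × ℝ) Unit :=
  ⟨fun _ => univ, fun _ => u ⊔ map (Prod.mk 0) cocountable, fun _ => sup_neBot.2 (.inl u.neBot),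
    fun _ => univ_mem, fun _ => sup_le ((Ultrafilter.of_le _).trans (le_co _))
      (pure_prod (a := 0) ▸ le_co _), fun _ _ h => absurd rfl h⟩

lemma u_ne (n : ℕ) : {d : ℕ × ℝ | d.1 = n}ᶜ ∈ u :=
  Ultrafilter.of_le _ (tendsto_fst.eventually (eventually_ne_atTop n))

lemma fsp (f : P.X → ℝ) (hf : Continuous f) (g : {y // f y ≠ 0} → ℝ) (hg : Continuous g) (M : ℝ)
    (hM : ∀ y, |g y| ≤ M) : ∃ h : P.X → ℝ, Continuous h ∧ (∃ M : ℝ, ∀ y, |h y| ≤ M) ∧
      ∀ y : {y // f y ≠ 0}, h y.1 = g y := by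
  classical
  let φ (c : Icc (-|M|) |M|) (d : ℕ × ℝ) : Icc (-|M|) |M| :=
    if h : f (P.pu d) ≠ 0 then ⟨g ⟨_, h⟩, abs_le.1 ((hM _).trans (le_abs_self M))⟩ else c
  have o : IsOpen {y | f y ≠ 0} := isOpen_ne_fun hf continuous_const
  obtain ⟨c, -, hc⟩ := isCompact_univ.ultrafilter_le_nhds' (u.map (φ ⟨0, by simp⟩)) univ_mem
  obtain ⟨h, h1, h2⟩ := extend (P := P) (φ c) fun i => by
    by_cases k : f (P.pt (.inr i)) ≠ 0
    · refine ⟨⟨g ⟨_, k⟩, abs_le.1 ((hM _).trans (le_abs_self M))⟩, tendsto_subtype_rng.2 fun U hU => ?_⟩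
      have := tend (.inr i) (o.isOpenMap_subtype_val.image_mem_nhds (hg.continuousAt hU))
      refine mem_map.2 (mem_of_superset this ?_)
      rintro d ⟨⟨_, a⟩, b, rfl : _ = P.pu d⟩
      simpa [φ, show _ ≠ _ from a] using b
    refine ⟨c, tendsto_sup.2 ⟨?_, tendsto_const_nhds.congr' ?_⟩⟩
    · rcases u.mem_or_compl_mem {d | f (P.pu d) ≠ 0} with a | a
      · exact Tendsto.congr' (mem_of_superset a fun d b => by simp [φ, show _ ≠ _ from b]) hc
      · exact tendsto_const_nhds.congr' (mem_of_superset a fun d b => (dif_neg b).symm)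
    · have t := ((hf.tendsto _).comp (tend (.inr i))).mono_left le_sup_right
      rw [not_not.1 k] at t
      filter_upwards [eventually_countable_forall.2 fun n : ℕ => t.eventually
        (Metric.ball_mem_nhds 0 (Nat.one_div_pos_of_nat (n := n)))] with d a
      refine Eq.symm (show φ c d = c from dif_neg fun b => ?_)
      obtain ⟨n, e⟩ := exists_nat_one_div_lt (dist_pos.2 b)
      exact (a n).not_gt e
  refine ⟨fun y => h y, by fun_prop, ⟨|M|, fun y => abs_le.2 (h y).2⟩, congrFun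
    (Continuous.ext_on (dense.preimage o.isOpenMap_subtype_val) (by fun_prop) hg ?_)⟩
  rintro ⟨_, a⟩ ⟨d, rfl⟩
  simp [h2, φ, show _ ≠ _ from a]

theorem result :
    ¬ (∀ (X : Type) [TopologicalSpace X] [T35Space X],
    (∃ 𝓑 : Set (Set X),
      (∀ B ∈ 𝓑, IsClopen B) ∧
      TopologicalSpace.IsTopologicalBasis 𝓑 ∧
      (∀ C D : Set (Set X), C ⊆ 𝓑 → C.Countable → D ⊆ 𝓑 →
        (∀ U ∈ C, ∀ V ∈ D, Disjoint U V) →
        ∃ W ∈ 𝓑, (∀ U ∈ C, U ⊆ W) ∧ ∀ V ∈ D, Disjoint W V) ∧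
      @CompactSpace X (TopologicalSpace.generateFrom ((fun B : Set X => (closure B)ᶜ) '' 𝓑))) →
    (∃ (Y : Type) (_ : TopologicalSpace Y), T35Space Y ∧
      (∀ f : Y → ℝ, Continuous f →
        ∀ g : {y : Y // f y ≠ 0} → ℝ, Continuous g → (∃ M : ℝ, ∀ y, |g y| ≤ M) →
          ∃ h : Y → ℝ, Continuous h ∧ (∃ M : ℝ, ∀ y, |h y| ≤ M) ∧
            ∀ y : {y : Y // f y ≠ 0}, h y.1 = g y) ∧
      ∃ e : X → Y, Topology.IsEmbedding e) →
    ∀ s : ℕ → Set X, (∀ n, IsClopen (s n)) → IsClopen (closure (⋃ n, s n))) := by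
  intro h
  have c := h P.X ⟨P.B, clopenB, basis, pretty, cocompact⟩ ⟨P.X, inferInstance, inferInstance,
    fun f hf g hg ⟨M, hM⟩ => fsp f hf g hg M hM, id, .id⟩ (fun n => P.st {d | d.1 = n + 1})
    fun n => clopen fun _ => .inr ⟨u_ne _, mem_map.2 (univ_mem' fun _ => n.succ_ne_zero.symm)⟩
  have a : P.pt (.inr ()) ∈ closure (⋃ n, P.st {d | d.1 = n + 1}) :=
    mem_closure_of_tendsto (b := u) ((tend (P := P) (.inr ())).mono_left le_sup_left)
      (Eventually.mono (f := u) (p := fun d : ℕ × ℝ => d.1 ≠ 0) (u_ne 0) fun d b =>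
        mem_iUnion.2 ⟨d.1 - 1, (Nat.succ_pred b).symm⟩)
  obtain ⟨r, b⟩ := (cocountable : Filter ℝ).nonempty_of_mem (tr c.2 a).2
  obtain ⟨x, d, _, ⟨n, rfl⟩, e⟩ := mem_closure_iff.1 b _ (st_open {d : ℕ × ℝ | d.1 = 0}) rfl
  obtain ⟨_, f, g⟩ := st_ne ((st_inter _ _).ge ⟨d, e⟩)
  exact n.succ_ne_zero (g.symm.trans f)

end Pool.Agent.S13478
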