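import Pool.Statements.S13482
import Pool.Agent.H.MP_958dc4_gt.A

set_option autoImplicit false
open Pool Pool.MP_8503ce_gt

namespace Pool.Agent.S13482

theorem result :
    ¬ (∀ (K : ∀ (Y : Type) [TopologicalSpace Y], Prop),
    (∀ (Y : Type) [TopologicalSpace Y], K Y → T0Space Y) →
    (∀ (Y : Type) [TopologicalSpace Y], T0Space Y → QuasiSober Y → K Y) →
    ∀ (I : Type) (X : I → Type) [∀ i, TopologicalSpace (X i)] [∀ i, T0Space (X i)]
      (A : ∀ i, Set (X i)),
      (∀ i, ∀ (Y : Type) [TopologicalSpace Y], K Y →
        ∀ f : X i → Y, Continuous f →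
          ∃! y : Y, closure (f '' A i) = closure ({y} : Set Y)) →
      ∀ (Y : Type) [TopologicalSpace Y], K Y →
        ∀ f : (∀ i, X i) → Y, Continuous f →
          ∃! y : Y, closure (f '' Set.pi Set.univ A) = closure ({y} : Set Y)) := by
  intro h
  open H.MP_958dc4_gt in
  have h1 := h KK (fun X _ hX => hX.1) KK_sober ℕ XX (fun _ => Set.univ)
    (fun i Y _ hY f hf => by
      have := hY.1
      obtain ⟨y, hy⟩ := hY.2 i f hf
      rw [Set.image_univ]
      exact ⟨y, hy, fun w hw => gen_unique (hw.symm.trans hy)⟩) YY KK_Y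
    (fun x => ⟨fun n => eta n (x n), by simp [eta_ne]⟩)
    (Continuous.subtype_mk (continuous_pi fun n => (eta_cont n).comp (continuous_apply n))
      (fun x => by simp [eta_ne]))
  obtain ⟨y, hy, -⟩ := h1
  open H.MP_958dc4_gt in
  have key : ∀ n, y.1 n = inf n := by
    intro n
    have h1 : ∀ x : ∀ n, XX n, y.1 n ⤳ eta n (x n) := by
      intro x
      have h2 : y ⤳ (⟨fun n => eta n (x n), by simp [eta_ne]⟩ : YY) := by
        rw [specializes_iff_mem_closure, ← hy]
        exact subset_closure ⟨x, fun _ _ => Set.mem_univ _, rfl⟩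
      exact h2.map ((continuous_apply n).comp continuous_subtype_val)
    rcases RR_cases (y.1 n) with h4 | ⟨z, h4⟩
    · exact h4
    · exfalso
      obtain ⟨w, hw⟩ := small_ne_univ (n := n) (s := {z})
        (by simpa using Cardinal.one_le_aleph0.trans (ka_inf n))
      classical
      have h5 := h1 (Function.update (fun _ => Classical.arbitrary _) n w)
      rw [h4, specializes_iff_mem_closure, (closed_eta z).closure_eq, Function.update_self] at h5
      exact hw (eta_inj n h5)
  have := y.2
  simp only [key, Set.ofPred_true] at this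
  exact Set.infinite_univ this

end Pool.Agent.S13482
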