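import Pool.Statements.S13490
import Pool.Agent.H.MP_866953.A

set_option autoImplicit false
open Pool Pool.MP_866953_gt

namespace Pool.Agent.S13490

theorem result :
    ¬ (∀ (X Y : Type) [TopologicalSpace X] [TopologicalSpace Y] [T35Space X] [T35Space Y],
      (∃ N : Set (Set X), N.Countable ∧
        ∀ K U : Set X, IsCompact K → IsOpen U → K ⊆ U →
          ∃ F : Finset (Set X), (↑F : Set (Set X)) ⊆ N ∧
            K ⊆ ⋃₀ (↑F : Set (Set X)) ∧ ⋃₀ (↑F : Set (Set X)) ⊆ U) →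
      Nonempty (UniformEquiv {f : X → ℝ // Continuous f} {g : Y → ℝ // Continuous g}) →
      (∃ N : Set (Set Y), N.Countable ∧
        ∀ K U : Set Y, IsCompact K → IsOpen U → K ⊆ U →
          ∃ F : Finset (Set Y), (↑F : Set (Set Y)) ⊆ N ∧
            K ⊆ ⋃₀ (↑F : Set (Set Y)) ∧ ⋃₀ (↑F : Set (Set Y)) ⊆ U)) := by
  open Pool.Agent.H.MP_866953 in
  intro H
  obtain ⟨e, he⟩ := eqv
  have := cX
  obtain ⟨N, hN, h⟩ := H X Y ⟨Set.range fun x => {x}, Set.countable_range _, fun K U hK _ hU =>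
    ⟨((fin tall K hK).image fun x => ({x} : Set X)).toFinset, by
      rw [Set.Finite.coe_toFinset]; exact Set.image_subset_range _ _, by simp, by simpa using hU⟩⟩
    ⟨e.subtype he⟩
  refine nY N hN fun K U a b c => ?_
  obtain ⟨F, hF⟩ := h K U a b c
  exact ⟨F, F.finite_toSet, hF⟩

end Pool.Agent.S13490
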