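import Pool.Statements.S13493
import Pool.Agent.H.MP_874bf8.A

set_option autoImplicit false
open Topology
open Pool Pool.MP_874bf8_gt

namespace Pool.Agent.S13493

/-- Every space that embeds in C_p(K) for a compact K, is a G_δ subset of a compact Hausdorff space (Čech-complete), and is scattered, is a countable union of discrete subspaces. -/
theorem result :
    ∀ (X : Type) [TopologicalSpace X],
      (∃ (K : Type) (_ : TopologicalSpace K), CompactSpace K ∧ T2Space K ∧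
        ∃ f : X → (K → ℝ), IsEmbedding f ∧ ∀ x, Continuous (f x)) →
      (∃ (Y : Type) (_ : TopologicalSpace Y), CompactSpace Y ∧ T2Space Y ∧
        ∃ e : X → Y, IsEmbedding e ∧ IsGδ (Set.range e)) →
      (∀ S : Set X, S.Nonempty → ∃ x ∈ S, ∃ U : Set X, IsOpen U ∧ U ∩ S = {x}) →
      ∃ D : ℕ → Set X, (⋃ n, D n) = Set.univ ∧
        ∀ n, ∀ x ∈ D n, ∃ U : Set X, IsOpen U ∧ U ∩ D n = {x} := by
  rintro X _ ⟨K, _, _, _, f, f1, f2⟩ ⟨Y, _, _, _, e, he, hg⟩ hs
  obtain ⟨_, _, hw⟩ := Pool.Agent.H.MP_11262c.wo hs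
  obtain ⟨c, k⟩ := Pool.Agent.H.MP_874bf8.main (h := fun k x => f x k) hw (continuous_pi f2)
    f1.isInducing he hg
  refine ⟨fun n => c ⁻¹' {n}, Set.eq_univ_of_forall fun x => Set.mem_iUnion.2 ⟨c x, rfl⟩,
    fun n x hx => ?_⟩
  obtain ⟨U, u1, u2, u3⟩ := eventually_nhds_iff.1 (k x)
  exact ⟨U, u2, Set.Subset.antisymm (fun y a => u1 y a.1 (a.2.trans hx.symm))
    (Set.singleton_subset_iff.2 ⟨u3, hx⟩)⟩

end Pool.Agent.S13493
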