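import Pool.Statements.S13507
import Pool.Agent.H.MP_892330_gt.A

set_option autoImplicit false
open Pool Pool.MP_892330_gt

namespace Pool.Agent.S13507

theorem result :
  ∀ (X : Type) [MetricSpace X] [CompactSpace X] [ConnectedSpace X],
    ∀ D : Set X → ℕ → Prop,
      (∀ (S : Set X) (n : ℕ), D S n ↔
        ∀ (m : ℕ) (U : Fin m → Set X), (∀ i, IsOpen (U i)) → S ⊆ ⋃ i, U i →
          ∃ (k : ℕ) (V : Fin k → Set X), (∀ j, IsOpen (V j)) ∧ S ⊆ ⋃ j, V j ∧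
            (∀ j, ∃ i, V j ⊆ U i) ∧ ∀ x ∈ S, {j : Fin k | x ∈ V j}.ncard ≤ n + 1) →
      (¬ ∃ T Z A B C : Set X, IsCompact T ∧ IsConnected T ∧ IsCompact Z ∧ IsConnected Z ∧
          Z ⊆ T ∧ T \ Z = A ∪ B ∪ C ∧ A.Nonempty ∧ B.Nonempty ∧ C.Nonempty ∧
          Disjoint (closure A) B ∧ Disjoint A (closure B) ∧
          Disjoint (closure A) C ∧ Disjoint A (closure C) ∧
          Disjoint (closure B) C ∧ Disjoint B (closure C)) →
      D Set.univ 2 → ¬ D Set.univ 1 →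
      ∃ K : Set X, IsCompact K ∧ IsConnected K ∧ D K 2 ∧ ¬ D K 1 ∧
        ∀ P Q : Set X, IsCompact P → IsConnected P → IsCompact Q → IsConnected Q →
          P ∪ Q = K → P = K ∨ Q = K := by
  intro X _ _ _ D hD t h2 h1
  simp only [hD] at h1 h2 ⊢
  obtain ⟨K, k1, k2, k3, k4⟩ := H.MP_892330_gt.main (X := X) (by
    rintro T ⟨t1, t2, Z, z1, z2, z3, A, B, C, a, b, c, e, l⟩
    simp only [← Set.disjoint_iff_inter_eq_empty] at l
    exact t ⟨T, Z, A, B, C, t1, t2, z2, z3, z1, e, a, b, c, l⟩) h2 h1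
  exact ⟨K, k1.1.isCompact, k1.2, k2, k3, fun P Q p1 p2 q1 q2 e => by_contra fun n =>
    k4 ⟨P, Q, ⟨p1.isClosed, p2⟩, ⟨q1.isClosed, q2⟩, e, not_or.1 n⟩⟩

end Pool.Agent.S13507
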