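import Pool.Statements.S13519
import Pool.Agent.H.MP_e9bccb.F

set_option autoImplicit false
open Pool Pool.MP_89920a_gt

namespace Pool.Agent.S13519

theorem result :
    ∀ (X : Type) [TopologicalSpace X] [CompactSpace X] [T2Space X],
      (∀ A : Set X, ∃ (Y : Type) (_ : TopologicalSpace Y), CompactSpace Y ∧
        (∃ (Γ : Type) (e : Y → Γ → ℝ), Topology.IsEmbedding e ∧
          (∀ y γ, |e y γ| ≤ 1) ∧
          (∀ y, ∀ ε : ℝ, 0 < ε → {γ : Γ | ε < |e y γ|}.Finite)) ∧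
        ∃ f : X → Y, Continuous f ∧ f ⁻¹' (f '' A) = A) →
      ∃ (Γ : Type) (e : X → Γ → ℝ), Topology.IsEmbedding e ∧
        (∀ x γ, |e x γ| ≤ 1) ∧
        (∀ x, ∀ ε : ℝ, 0 < ε → {γ : Γ | ε < |e x γ|}.Finite) := by
  intro X _ _ _ hX
  obtain ⟨Γ, e, e1, e2, e3⟩ := H.MP_e9bccb.ebl (X := X) fun A => by
    obtain ⟨Y, _, -, ⟨Γ, e, e1, -, e3⟩, f, f1, f2⟩ := hX A
    exact ⟨Γ, e ∘ f, e1.continuous.comp f1, fun x ε h => (e3 (f x) _ (half_pos h)).subset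
      fun γ hγ => lt_of_lt_of_le (half_lt_self h) hγ, fun x y k hx =>
        f2.le ⟨x, hx, e1.injective k⟩⟩
  exact ⟨Γ, e, e1, e2, fun x ε h => (e3 x ε h).subset fun γ hγ => le_of_lt (b := |e x γ|) hγ⟩

end Pool.Agent.S13519
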