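import Pool.Statements.S13523
-- import your own Pool.Agent.* helpers here

set_option autoImplicit false
open Pool Pool.MP_8a5d18_gt

namespace Pool.Agent.S13523

open Set Filter Topology

theorem ten {X ι : Type} [TopologicalSpace X] {f : ι → C(X, ℝ)} {g : C(X, ℝ)} {l : Filter ι} :
    Tendsto f l (@nhds C(X, ℝ)
      (TopologicalSpace.induced (fun h : C(X, ℝ) => (h : X → ℝ)) Pi.topologicalSpace) g) ↔
      ∀ x, Tendsto (fun n => f n x) l (𝓝 (g x)) := by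
  rw [nhds_induced, tendsto_comap_iff, tendsto_pi_nhds]; rfl

theorem zero {X : Type} [TopologicalSpace X] [T35Space X] {A : Set C(X, ℝ)}
    (hA : @IsClosed C(X, ℝ)
      (TopologicalSpace.induced (fun h : C(X, ℝ) => (h : X → ℝ)) Pi.topologicalSpace) A)
    (h : ∀ F : Finset X, ∃ U, IsOpen U ∧ ↑F ⊆ U ∧ ∃ c, ∀ f : C(X, ℝ), (∀ x ∉ U, f x = c) → f ∈ A) :
    0 ∈ A := by
  classical
  have h1 : ∀ F : Finset X, ∃ f ∈ A, ∀ x ∈ F, f x = 0 := fun F => by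
    obtain ⟨U, u1, u2, c, u3⟩ := h F
    choose g g1 g2 g3 using fun x : F =>
      CompletelyRegularSpace.completely_regular x.1 Uᶜ u1.isClosed_compl (not_not.2 (u2 x.2))
    refine ⟨⟨fun y => c * ∏ x : F, (g x y : ℝ), by fun_prop⟩, u3 _ fun y hy => ?_, fun y hy => ?_⟩
    · simp [fun x => g3 x hy]
    · exact mul_eq_zero_of_right _ (Finset.prod_eq_zero (Finset.mem_univ (⟨y, hy⟩ : F))
        (by simp [g2 ⟨y, hy⟩]))
  choose f f1 f2 using h1
  have h2 := (ten (f := f) (g := 0) (l := atTop)).2 fun x => tendsto_const_nhds.congr'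
    ((eventually_ge_atTop {x}).mono fun F hF => (f2 F x (hF (Finset.mem_singleton_self x))).symm)
  letI := TopologicalSpace.induced (fun h : C(X, ℝ) => (h : X → ℝ)) Pi.topologicalSpace
  exact hA.mem_of_tendsto h2 (Eventually.of_forall f1)

theorem result :
    ∀ (p : Ultrafilter ℕ), (p : Filter ℕ) ≤ Filter.cofinite →
    ∀ (X : Type) [TopologicalSpace X] [T35Space X],
      (∀ A : Set C(X, ℝ),
        (∀ (f : ℕ → C(X, ℝ)) (g : C(X, ℝ)), (∀ n, f n ∈ A) →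
          Filter.Tendsto f (p : Filter ℕ)
            (@nhds C(X, ℝ)
              (TopologicalSpace.induced (fun h : C(X, ℝ) => (h : X → ℝ)) Pi.topologicalSpace) g) →
          g ∈ A) →
        @IsClosed C(X, ℝ)
          (TopologicalSpace.induced (fun h : C(X, ℝ) => (h : X → ℝ)) Pi.topologicalSpace) A) →
      ∀ 𝒰 : Set (Set X), (∀ U ∈ 𝒰, IsOpen U) → (Set.univ : Set X) ∉ 𝒰 →
        (∀ F : Finset X, ∃ U ∈ 𝒰, (↑F : Set X) ⊆ U) →
        ∃ u : ℕ → Set X, (∀ n, u n ∈ 𝒰) ∧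
          ∀ x : X, ∀ᶠ n in (p : Filter ℕ), x ∈ u n := by
  intro p _ X _ _ h 𝒰 h1 h2 h3
  obtain ⟨𝒱, v1, v2, v3⟩ := zero (h {g | ∃ 𝒱 ⊆ 𝒰, 𝒱.Countable ∧ ∀ F : Finset X,
      (∀ x ∈ F, g x < 1) → ∃ U ∈ 𝒱, ↑F ⊆ U} fun f g hf hg => by
    choose 𝒱 v1 v2 v3 using hf
    refine ⟨⋃ n, 𝒱 n, iUnion_subset v1, countable_iUnion v2, fun F hF => ?_⟩
    obtain ⟨n, hn⟩ := ((eventually_all_finset F).2 fun x hx =>
      (ten.1 hg x).eventually (gt_mem_nhds (hF x hx))).exists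
    obtain ⟨U, u1, u2⟩ := v3 n F hn
    exact ⟨U, mem_iUnion.2 ⟨n, u1⟩, u2⟩) fun F => by
    obtain ⟨U, u1, u2⟩ := h3 F
    exact ⟨U, h1 U u1, u2, 1, fun f hf => ⟨{U}, singleton_subset_iff.2 u1, countable_singleton U,
      fun G hG => ⟨U, rfl, fun x hx => by_contra fun h4 => (hG x hx).ne (hf x h4)⟩⟩⟩
  obtain ⟨U, rfl⟩ := v2.exists_eq_range (by
    obtain ⟨U, h, -⟩ := v3 ∅ (by simp); exact ⟨U, h⟩)
  by_contra h4
  obtain ⟨n, k, -, h5⟩ := zero (h {f | ∃ n : ℕ, ∃ k ≤ n, ∀ x ∉ U k, (n : ℝ) + 1 ≤ f x}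
    fun f g hf hg => by
      choose n k k1 k2 using hf
      by_cases h5 : ∃ m, ∀ᶠ j in p, n j ≤ m
      · obtain ⟨m, hm⟩ := h5
        obtain ⟨⟨a, b⟩, -, h5⟩ := (Ultrafilter.finite_biUnion_mem_iff (f := p)
          (s := fun a : ℕ × ℕ => {j | (n j, k j) = a}) ((finite_Iic m).prod (finite_Iic m))).1
          (mem_of_superset hm fun j hj => mem_biUnion (x := (n j, k j)) ⟨hj, (k1 j).trans hj⟩ rfl)
        obtain ⟨j, hj⟩ := Filter.nonempty_of_mem h5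
        obtain ⟨rfl, rfl⟩ := Prod.mk.inj hj
        refine ⟨n j, k j, k1 j, fun x hx => ge_of_tendsto (ten.1 hg x)
          (mem_of_superset h5 fun i hi => ?_)⟩
        obtain ⟨e1, e2⟩ := Prod.mk.inj hi
        exact e1 ▸ k2 i x (e2 ▸ hx)
      · refine absurd ⟨fun j => U (k j), fun j => v1 ⟨_, rfl⟩, fun x => ?_⟩ h4
        obtain ⟨m, hm⟩ := exists_nat_gt (g x)
        refine (((ten.1 hg x).eventually (gt_mem_nhds hm)).and
          (Ultrafilter.eventually_not.2 fun h6 => h5 ⟨m, h6⟩)).mono fun j hj => by_contra fun h6 => ?_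
        have h7 := k2 j x h6
        have h8 : (m : ℝ) < n j := by exact_mod_cast not_le.1 hj.2
        linarith [hj.1]) fun F => by
    obtain ⟨_, ⟨k, rfl⟩, u2⟩ := v3 F (by simp)
    exact ⟨U k, h1 _ (v1 ⟨k, rfl⟩), u2, k + 1, fun f hf => ⟨k, k, le_rfl, fun x hx => (hf x hx).ge⟩⟩
  refine h2 (eq_univ_of_forall (s := U k) (fun x => by_contra fun h6 => ?_) ▸ v1 ⟨k, rfl⟩)
  have h7 := h5 x h6
  simp only [ContinuousMap.zero_apply] at h7
  linarith [(n.cast_nonneg : (0 : ℝ) ≤ n)]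

end Pool.Agent.S13523
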