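import Pool.Statements.S13540
import Pool.Agent.H.MP_a4908e.A

set_option autoImplicit false
universe u
open Pool Pool.MP_8bbda9_gt

namespace Pool.Agent.S13540

open Set Function Topology Filter TopologicalSpace Pool.Agent.H.MP_a4908e

structure L (D : Type u) : Type u where
  o : Option D

instance (D : Type u) : TopologicalSpace (L D) where
  IsOpen U := ⟨none⟩ ∈ U → {d | (⟨some d⟩ : L D) ∉ U}.Countable
  isOpen_univ _ := by simp
  isOpen_inter _ _ h h' e := ((h e.1).union (h' e.2)).mono fun _ hd => not_and_or.1 hd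
  isOpen_sUnion _ h := fun ⟨t, h1, h2⟩ => (h t h1 h2).mono fun _ hd e => hd ⟨t, h1, e⟩

lemma L.iso {D : Type u} (d : D) : IsClopen ({⟨some d⟩} : Set (L D)) :=
  ⟨⟨fun _ => (countable_singleton d).mono fun d' h => by simpa using h⟩, fun h => by simp at h⟩

instance (D : Type u) : T35Space (L D) := by
  have : T0Space (L D) := by
    refine (t0Space_iff_exists_isOpen_xor_mem _).2 ?_
    rintro ⟨_ | d⟩ ⟨_ | d'⟩ h
    · exact (h rfl).elim
    · exact ⟨_, (L.iso d').2, Or.inr ⟨rfl, h⟩⟩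
    · exact ⟨_, (L.iso d).2, Or.inl ⟨rfl, h.symm⟩⟩
    · exact ⟨_, (L.iso d).2, Or.inl ⟨rfl, h.symm⟩⟩
  have : CompletelyRegularSpace (L D) := by
    refine .of_isTopologicalBasis_clopens (isTopologicalBasis_of_isOpen_of_nhds
      (fun _ h => h.2) ?_)
    rintro ⟨_ | d⟩ U h1 h2
    · exact ⟨U, ⟨⟨fun h => (h h1).elim⟩, h2⟩, h1, Subset.rfl⟩
    · exact ⟨_, L.iso d, rfl, singleton_subset_iff.2 h1⟩
  exact {}

lemma L.co {D : Type u} {s : Set (L D)} (hs : s.Countable) : IsOpen (s \ {⟨none⟩})ᶜ := fun _ =>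
  (hs.preimage (f := fun d : D => (⟨some d⟩ : L D)) fun _ _ h => by simpa using h).mono
    fun _ hd => (not_not.1 hd).1

lemma L.cnt {D : Type u} {U : Set (L D)} (h : U ∈ 𝓝 ⟨none⟩) :
    {d | (⟨some d⟩ : L D) ∉ U}.Countable := by
  obtain ⟨V, h1, h2, h3⟩ := mem_nhds_iff.1 h
  exact (h2 h3).mono fun d hd e => hd (h1 e)

abbrev D : Type u := ULift.{u} ℝ

abbrev N : Type u := {p : L D.{u} × L D.{u} × OnePoint ℕ //
  (p.2.1 = ⟨none⟩ ↔ p.1 = ⟨none⟩ ∨ p.2.2 = OnePoint.infty) ∧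
    ¬ (p.1 = ⟨none⟩ ∧ p.2.2 = OnePoint.infty)}

lemma unc {s : Set D.{u}} (h : s.Countable) : ∃ d, d ∉ s := by
  by_contra hc
  push Not at hc
  have : Countable D.{u} := countable_univ_iff.1 (h.mono fun d _ => hc d)
  exact not_countable (α := ℝ) ((Equiv.ulift.{u}).symm.injective.countable)

lemma iso (n : ℕ) : IsOpen ({(n : OnePoint ℕ)} : Set (OnePoint ℕ)) := by
  simpa using (OnePoint.isOpen_image_coe (s := {n})).2 (isOpen_discrete _)

lemma cntN (s : Set N.{u}) (hs : s.Countable) : IsClosed s := by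
  have c1 : Continuous fun p : N.{u} => p.1.1 := by fun_prop
  have c2 : Continuous fun p : N.{u} => p.1.2.1 := by fun_prop
  have c3 : Continuous fun p : N.{u} => p.1.2.2 := by fun_prop
  have k : ∀ {p p' : N.{u}}, p ∈ s → p.1.1 = p'.1.1 → p.1.2.1 = p'.1.2.1 → p.1.2.2 = p'.1.2.2 →
      p' ∈ s := fun h a b c => Subtype.ext (Prod.ext a (Prod.ext b c)) ▸ h
  refine ⟨isOpen_iff_forall_mem_open.2 ?_⟩
  rintro ⟨⟨⟨_ | a⟩, ⟨_ | b⟩, w⟩, h1, h2⟩ hp
  · induction w using OnePoint.rec with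
    | infty => simp at h2
    | coe n =>
      refine ⟨_, fun p h hp' => ?_, ((L.co (hs.image fun p => p.1.1)).preimage c1).inter
        ((iso n).preimage c3), fun h => h.2 rfl, rfl⟩
      have e : p.1.1 = ⟨none⟩ := not_not.1 fun e => h.1 ⟨⟨p, hp', rfl⟩, e⟩
      exact hp (k hp' e (p.2.1.2 (Or.inl e)) h.2)
  · simp at h1
  · obtain rfl : w = OnePoint.infty := by simpa using h1
    refine ⟨_, fun p h hp' => ?_, ((L.co (hs.image fun p => p.1.2.1)).preimage c2).inter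
      ((L.iso a).2.preimage c1), fun h => h.2 rfl, rfl⟩
    have e : p.1.2.1 = ⟨none⟩ := not_not.1 fun e => h.1 ⟨⟨p, hp', rfl⟩, e⟩
    have e' : p.1.1 = ⟨some a⟩ := h.2
    exact hp (k hp' e' e ((p.2.1.1 e).resolve_left (by simp [e'])))
  · induction w using OnePoint.rec with
    | infty => simp at h1
    | coe n =>
      refine ⟨_, fun p h hp' => ?_, ((L.iso a).2.preimage c1).inter (((L.iso b).2.preimage c2).inter
        ((iso n).preimage c3)), rfl, rfl, rfl⟩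
      exact hp (k hp' h.1 h.2.1 h.2.2)

def d (n : ℕ) : N.{u} := ⟨(⟨none⟩, ⟨none⟩, n), by simp⟩
def b (a : D.{u}) : N.{u} := ⟨(⟨some a⟩, ⟨none⟩, OnePoint.infty), by simp⟩
def i (a a' : D.{u}) (n : ℕ) : N.{u} := ⟨(⟨some a⟩, ⟨some a'⟩, n), by simp⟩

lemma tend (g : N.{u} → ℝ) (hg : Continuous g) (h : ∀ a, g (b a) = 0) :
    Tendsto (fun n => g (d n)) atTop (𝓝 0) := by
  have k : ∀ (p : N.{u}) (U : Set N.{u}), U ∈ 𝓝 p → ∃ V ∈ 𝓝 p.1.1, ∃ W ∈ 𝓝 p.1.2.1,
      ∃ O ∈ 𝓝 p.1.2.2, ∀ x : N.{u}, x.1.1 ∈ V → x.1.2.1 ∈ W → x.1.2.2 ∈ O → x ∈ U := by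
    intro p U hU
    obtain ⟨s, hs, hs'⟩ := (mem_nhds_subtype _ _ _).1 hU
    obtain ⟨V, h1, t, h2, h3⟩ := mem_nhds_prod_iff.1 hs
    obtain ⟨W, h4, O, h5, h6⟩ := mem_nhds_prod_iff.1 h2
    exact ⟨V, h1, W, h4, O, h5, fun x a b c => hs' (h3 ⟨a, h6 ⟨b, c⟩⟩)⟩
  refine Metric.tendsto_nhds.2 fun ε hε => ?_
  choose V v W w O o ho using fun n => k (d n) _
    (hg.continuousAt (Metric.ball_mem_nhds _ (half_pos hε)))
  obtain ⟨a, ha⟩ := unc (countable_iUnion fun n => L.cnt (v n))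
  obtain ⟨V', v', W', w', O', o', ho'⟩ := k (b a) _
    (hg.continuousAt (Metric.ball_mem_nhds _ (half_pos hε)))
  obtain ⟨a', ha'⟩ := unc ((countable_iUnion fun n => L.cnt (w n)).union (L.cnt w'))
  simp only [mem_union, mem_iUnion, mem_ofPred_eq, not_or, not_exists, not_not] at ha ha'
  have := OnePoint.tendsto_coe_infty o'
  rw [coclosedCompact_eq_cocompact, cocompact_eq_cofinite, Nat.cofinite_eq_atTop] at this
  filter_upwards [this] with n hn
  have h1 := ho n (i a a' n) (ha n) (ha'.1 n) (mem_of_mem_nhds (o n))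
  have h2 := ho' (i a a' n) (mem_of_mem_nhds v') ha'.2 hn
  rw [mem_preimage, Metric.mem_ball, h] at h2
  rw [mem_preimage, Metric.mem_ball, dist_comm] at h1
  linarith [dist_triangle (g (d n)) (g (i a a' n)) 0]

theorem result :
    ¬ (∀ (X Y : Type u) [TopologicalSpace X] [TopologicalSpace Y] [T35Space X] [T35Space Y],
      Nonempty ({f : X → ℝ // Continuous f} ≃ₜ {g : Y → ℝ // Continuous g}) →
      (∀ s : Set X, s.Countable → IsClosed s) →
      ∀ t : Set Y, t.Countable → IsClosed t) := by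
  intro H
  exact ncY {p : N.{u} | p.1.2.2 = OnePoint.infty} (d 0) (isClosed_eq (by fun_prop)
    continuous_const) d (fun n => by simp [d]) (fun g => tend _ g.1.2 fun a => g.2 _ rfl)
    (H _ _ ⟨EH _ _⟩ (cntX _ cntN) _ (countable_range _))

end Pool.Agent.S13540
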