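import Pool.Statements.S13550

set_option autoImplicit false
open Pool Pool.MP_8d6ae8_gt

namespace Pool.Agent.S13550

open Set Filter Topology Encodable

inductive X
  | t (n : ℕ) (s : List ℕ) (w : ℕ)
  | l (n : ℕ) (a : ℕ → ℕ)
  | p

def cut (a : ℕ → ℕ) (k : ℕ) : List ℕ := (List.range k).map a
def dec (v : ℕ) : List ℕ := Denumerable.ofNat _ v
def al (n : ℕ) (a : ℕ → ℕ) (k : ℕ) : X := .t n (cut a k) (a k)
def be (n : ℕ) (a : ℕ → ℕ) (k : ℕ) : X := .t (n + 1) (dec (a 0)) (encode (cut a k))

def up (k : ℕ) : X → Prop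
  | .t n _ _ => k ≤ n
  | .l n _ => k ≤ n
  | .p => True

def N (k : ℕ) : X → Set X
  | .t n s w => {.t n s w}
  | .l n a => insert (.l n a) (al n a '' Ici k ∪ be n a '' Ici k)
  | .p => {x | up k x}

def rk : X → ℕ
  | .t n s w => n + s.length + (dec w).length
  | .l n _ => n
  | .p => 0

lemma de (s : List ℕ) : dec (encode s) = s := Denumerable.ofNat_encode s

lemma self_mem (k : ℕ) (x : X) : x ∈ N k x := by cases x <;> simp [N, up]

lemma N_anti {j k : ℕ} (h : j ≤ k) (x : X) : N k x ⊆ N j x := by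
  cases x
  · rfl
  · exact insert_subset_insert (union_subset_union (image_mono (Ici_subset_Ici.2 h))
      (image_mono (Ici_subset_Ici.2 h)))
  · intro y k
    cases y
    exacts [h.trans k, h.trans k, trivial]

lemma eq_of {k : ℕ} {x y : X} (h : x ∈ N k y) (e : rk x < k) : y = x := by
  cases y
  · exact h.symm
  · rcases h with rfl | ⟨j, h : k ≤ j, rfl⟩ | ⟨j, h : k ≤ j, rfl⟩
    · rfl
    all_goals simp [rk, al, be, de, cut] at e; omega
  · cases x <;> simp [N, up, rk] at h e ⊢ <;> omega

instance : TopologicalSpace X where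
  IsOpen V := ∀ x ∈ V, ∃ k, N k x ⊆ V
  isOpen_univ _ _ := ⟨0, subset_univ _⟩
  isOpen_inter _ _ h k x a := (h x a.1).elim fun i b => (k x a.2).elim fun j c =>
    ⟨max i j, subset_inter ((N_anti (le_max_left ..) x).trans b)
      ((N_anti (le_max_right ..) x).trans c)⟩
  isOpen_sUnion _ h x := fun ⟨V, a, b⟩ => (h V a x b).imp fun _ c =>
    c.trans (subset_sUnion_of_mem a)

lemma N_open (k : ℕ) (x : X) : IsOpen (N k x) := fun y h => by
  cases y with
  | t => exact ⟨0, singleton_subset_iff.2 h⟩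
  | p =>
    cases x <;> simp [N, al, be] at h
    exact ⟨k, le_rfl⟩
  | l n a =>
    cases x with
    | t => cases h
    | l =>
      simp [N, al, be] at h
      exact ⟨k, by rw [h.1, h.2]⟩
    | p =>
      refine ⟨0, ?_⟩
      rintro _ (rfl | ⟨j, -, rfl⟩ | ⟨j, -, rfl⟩)
      exacts [h, h, Nat.le_succ_of_le h]

lemma mem_nh {x : X} {V : Set X} (h : V ∈ 𝓝 x) : ∃ k, N k x ⊆ V :=
  (mem_nhds_iff.1 h).elim fun _ a => (a.2.1 x a.2.2).imp fun _ b => b.trans a.1

lemma t_al (n : ℕ) (a : ℕ → ℕ) : Tendsto (al n a) atTop (𝓝 (.l n a)) := fun _ h =>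
  (mem_nh h).elim fun k b => mem_atTop_sets.2 ⟨k, fun j c => b (.inr (.inl ⟨j, c, rfl⟩))⟩

lemma t_be (n : ℕ) (a : ℕ → ℕ) : Tendsto (be n a) atTop (𝓝 (.l n a)) := fun _ h =>
  (mem_nh h).elim fun k b => mem_atTop_sets.2 ⟨k, fun j c => b (.inr (.inr ⟨j, c, rfl⟩))⟩

lemma cont {f : X → ℝ} (h1 : ∀ n a, Tendsto (f ∘ al n a) atTop (𝓝 (f (.l n a))))
    (h2 : ∀ n a, Tendsto (f ∘ be n a) atTop (𝓝 (f (.l n a)))) {k : ℕ}
    (h3 : ∀ x, up k x → f x = f .p) : Continuous f := ⟨fun V hV x h => by
  cases x with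
  | t => exact ⟨0, singleton_subset_iff.2 h⟩
  | p => exact ⟨k, fun y a => (mem_of_eq_of_mem (h3 y a) h : f y ∈ V)⟩
  | l n a =>
    obtain ⟨j, b⟩ := eventually_atTop.1 (((h1 n a).eventually (hV.mem_nhds h)).and
      ((h2 n a).eventually (hV.mem_nhds h)))
    refine ⟨j, ?_⟩
    rintro _ (rfl | ⟨i, c, rfl⟩ | ⟨i, c, rfl⟩)
    exacts [h, (b i c).1, (b i c).2]⟩

def pad (s : List ℕ) (i : ℕ) : ℕ := s.getD i 0
def ps (a : ℕ → ℕ) : ℕ → ℕ := pad (dec (a 0))
noncomputable def G (i v : ℕ) (a : ℕ → ℕ) : ℝ :=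
  if a i = v then 1 / ((dec (a 0)).length + 1) else 0

noncomputable def g (n i v : ℕ) : X → ℝ
  | .t m s w => if m ≤ n then G i v (ps^[n - m] (pad s)) else
      if m = n + 1 ∧ pad (dec w) i = v then 1 / (s.length + 1) else 0
  | .l m a => if m ≤ n then G i v (ps^[n - m] a) else 0
  | .p => 0

lemma pad_cut (a : ℕ → ℕ) (i : ℕ) : ∀ᶠ k in atTop, pad (cut a k) i = a i :=
  (eventually_gt_atTop i).mono fun k h => by simp [pad, cut, h]

lemma g_up {n i v : ℕ} (x : X) (h : up (n + 2) x) : g n i v x = 0 := by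
  cases x <;> simp only [g, up] at h ⊢ <;> split_ifs <;> first | rfl | omega

lemma g_cont (n i v : ℕ) : Continuous (g n i v) := by
  have c1 : Continuous ps := (continuous_of_discreteTopology (f := fun v => pad (dec v))).comp
    (continuous_apply 0)
  have c2 : Continuous (G i v) := Continuous.comp (f := fun a : ℕ → ℕ => (a i, a 0))
    (continuous_of_discreteTopology (f := fun q : ℕ × ℕ =>
      if q.1 = v then (1 / ((dec q.2).length + 1) : ℝ) else 0)) (by fun_prop)
  refine cont (fun m a => ?_) (fun m a => ?_) g_up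
  · by_cases h : m ≤ n
    · simp only [Function.comp_def, g, al, if_pos h]
      exact ((c2.comp (c1.iterate _)).tendsto a).comp
        (tendsto_pi_nhds.2 fun j => tendsto_const_nhds.congr' ((pad_cut a j).mono fun _ => .symm))
    · simp only [Function.comp_def, g, al, if_neg h]
      refine squeeze_zero (fun k => by split_ifs <;> positivity) (fun k => ?_)
        tendsto_one_div_add_atTop_nhds_zero_nat
      split_ifs
      exacts [by simp [cut], by positivity]
  · rcases lt_trichotomy m n with h | rfl | h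
    · simp only [Function.comp_def, g, be, if_pos h.le, if_pos (show m + 1 ≤ n from h),
        show n - m = n - (m + 1) + 1 by omega, Function.iterate_succ_apply]
      exact tendsto_const_nhds
    · refine tendsto_const_nhds.congr' ((pad_cut a i).mono fun k h => ?_)
      simp [g, be, de, h, G]
    · simp [Function.comp_def, g, be, h.not_ge, h.ne', show ¬ m + 1 ≤ n by omega]

open Classical in
noncomputable def Φ (x : X) : (ℕ × List ℕ × ℕ) ⊕ ℕ × ℕ × ℕ → ℝ
  | .inl q => if x = .t q.1 q.2.1 q.2.2 then 1 else 0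
  | .inr q => g q.1 q.2.1 q.2.2 x

lemma Φ_cont : Continuous Φ := continuous_pi fun i => by
  classical
  rcases i with ⟨n, s, w⟩ | q
  · exact (show IsClopen {X.t n s w} from ⟨⟨fun x h => ⟨_, fun y a (b : y = _) => h (eq_of
      (mem_of_eq_of_mem b.symm a) (Nat.lt_succ_self _))⟩⟩, N_open 0 (.t n s w)⟩).continuous_indicator (f := fun _ => (1 : ℝ))
        continuous_const |>.congr fun x => by simp [Φ, indicator]
  · exact g_cont _ _ _

lemma g_pos (n i : ℕ) (a : ℕ → ℕ) : g n i (a i) (.l n a) ≠ 0 := by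
  simp only [g, G, le_refl, if_true, Nat.sub_self, Function.iterate_zero, id]
  positivity

lemma Φ_inj : Function.Injective Φ := fun x y h => by
  have e (n i v) : g n i v x = g n i v y := congrFun h (.inr (n, i, v))
  cases x with
  | t n s w => simpa [Φ, eq_comm] using congrFun h (.inl (n, s, w))
  | p =>
    cases y with
    | t n s w => simpa [Φ] using congrFun h (.inl (n, s, w))
    | p => rfl
    | l n a => exact absurd (e ..).symm (g_pos n 0 a)
  | l m a =>
    cases y with
    | t n s w => simpa [Φ] using congrFun h (.inl (n, s, w))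
    | p => exact absurd (e ..) (g_pos m 0 a)
    | l n b =>
      rcases lt_trichotomy m n with k | rfl | k
      · exact absurd ((e ..).trans (if_neg k.not_ge)) (g_pos m 0 a)
      · refine congrArg _ (funext fun i => by_contra fun k => g_pos m i a ((e ..).trans ?_))
        simp [g, G, Ne.symm k]
      · exact absurd ((e ..).symm.trans (if_neg k.not_ge)) (g_pos n 0 b)

lemma reg (q : X) (k : ℕ) : Φ ⁻¹' closure (Φ '' N (k + 1) q) ⊆ N k q := by
  have (h : IsCompact (N (k + 1) q)) : Φ ⁻¹' closure (Φ '' N (k + 1) q) ⊆ N k q := by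
    rw [(h.image Φ_cont).isClosed.closure_eq, Φ_inj.preimage_image]
    exact N_anti k.le_succ q
  cases q with
  | t => exact this isCompact_singleton
  | l n a =>
    have h (u : ℕ → X) (t : Tendsto u atTop (𝓝 (.l n a))) :
        IsCompact (insert (.l n a) (u '' Ici (k + 1))) := by
      convert (t.comp (tendsto_add_atTop_nat (k + 1))).isCompact_insert_range
      rw [range_comp]
      congr
      exact Set.ext fun j => ⟨fun c => ⟨_, Nat.sub_add_cancel c⟩, fun ⟨_, c⟩ =>
        c ▸ Nat.le_add_left ..⟩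
    exact this ((insert_union_distrib ..).symm.subst ((h _ (t_al n a)).union (h _ (t_be n a))))
  | p =>
    refine fun x h => by_contra fun c => ?_
    have e (i) (d : ∀ y, up (k + 1) y → Φ y i = 0) : Φ x i = 0 :=
      (isClosed_eq (continuous_apply i) continuous_const).closure_subset_iff.2
        (image_subset_iff.2 d) h
    cases x with
    | t n s w =>
      simpa [Φ] using e (.inl (n, s, w)) fun y b => if_neg fun d => c (by
        subst d
        exact Nat.le_of_succ_le b)
    | p => exact c trivial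
    | l n a =>
      exact g_pos n 0 a (e (.inr (n, 0, a 0)) fun y b => g_up y
        (N_anti (Nat.succ_le_succ (not_le.1 c : n < k)) .p b))

lemma prop {f : X → ℝ} (h : Continuous f) (h0 : ∀ a, f (.l 0 a) = 1) (n : ℕ) :
    ∀ v, ∃ a, a 0 = v ∧ f (.l n a) = 1 := by
  induction n with
  | zero => exact fun v => ⟨fun _ => v, rfl, h0 _⟩
  | succ n ih =>
    have (s : List ℕ) (j : ℕ) : ∃ w, dist (f (.t (n + 1) s w)) 1 < 1 / (j + 1) := by
      obtain ⟨a, a1, a2⟩ := ih (encode s)
      obtain ⟨k, b⟩ := (Metric.tendsto_nhds.1 ((h.tendsto _).comp (t_be n a)) _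
        (Nat.one_div_pos_of_nat (n := j))).exists
      exact ⟨_, by simpa [be, a1, a2, de] using b⟩
    choose w hw using this
    intro v
    let s : ℕ → List ℕ := fun k => k.rec [] fun k s => s ++ [if k = 0 then v else w s k]
    let a : ℕ → ℕ := fun k => if k = 0 then v else w (s k) k
    have e (k) : cut a k = s k := by
      induction k with
      | zero => rfl
      | succ k ih => rw [cut, List.range_succ, List.map_append, ← cut, ih]; rfl
    refine ⟨a, rfl, tendsto_nhds_unique ((h.tendsto _).comp (t_al _ a))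
      (tendsto_iff_dist_tendsto_zero.2 (squeeze_zero' (.of_forall fun _ => dist_nonneg)
        ((eventually_ne_atTop 0).mono fun k b => ?_) tendsto_one_div_add_atTop_nhds_zero_nat))⟩
    simpa [al, e, a, b] using (hw (s k) k).le

theorem result :
    ¬ (∀ (X : Type) (t : TopologicalSpace X),
      @RegularSpace X t →
      (∃ G : ℕ → Set (Set X),
          (∀ n : ℕ, ∀ U ∈ G n, @IsOpen X t U) ∧
          (∀ n : ℕ, ⋃₀ G n = Set.univ) ∧
          ∀ x : X, ∀ O : Set X, @IsOpen X t O → x ∈ O →
            ∃ n : ℕ, ⋃₀ {U ∈ G n | x ∈ U} ⊆ O) →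
      (∃ t₂ : TopologicalSpace X, t ≤ t₂ ∧
          @TopologicalSpace.MetrizableSpace X t₂ ∧
          ∀ p : X, ∀ O : Set X, @IsOpen X t O → p ∈ O →
            ∃ D : Set X, @IsOpen X t D ∧ p ∈ D ∧ @closure X t₂ D ⊆ O) →
      @CompletelyRegularSpace X t) := by
  intro h
  have r (q : X) (k) : closure (N (k + 1) q) ⊆ N k q := fun x a =>
    reg q k (image_closure_subset_closure_image Φ_cont ⟨x, a, rfl⟩)
  obtain ⟨f, f1, f2, f3⟩ := (h X _ (.of_exists_mem_nhds_isClosed_subset fun x V a =>
    (mem_nh a).elim fun k b => ⟨_, mem_of_superset ((N_open _ x).mem_nhds (self_mem (k + 1) x))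
      subset_closure, isClosed_closure, (r x k).trans b⟩)
    ⟨fun k => range (N k), fun k _ ⟨x, e⟩ => e ▸ N_open k x, fun k => eq_univ_of_forall fun x =>
      ⟨_, ⟨x, rfl⟩, self_mem k x⟩, fun x O a b => (a x b).elim fun k c =>
        ⟨max k (rk x + 1), sUnion_subset fun _ ⟨⟨y, e⟩, d⟩ => by
          subst e
          rw [eq_of d (lt_max_of_lt_right (Nat.lt_succ_self _))]
          exact (N_anti (le_max_left ..) x).trans c⟩⟩
    ⟨.induced Φ inferInstance, Φ_cont.le_induced, @IsEmbedding.metrizableSpace _ _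
      (.induced Φ inferInstance) _ _ Φ (@IsEmbedding.mk _ _ (.induced Φ inferInstance) _ _
        (IsInducing.induced Φ) Φ_inj), fun x O a b => (a x b).elim fun k c =>
          ⟨_, N_open _ x, self_mem (k + 1) x, fun y d =>
            c (reg x k (closure_induced.1 d))⟩⟩).completely_regular .p _
              (N_open 1 .p).isClosed_compl fun a => a trivial
  have c : Continuous fun x => (f x : ℝ) := by fun_prop
  obtain ⟨k, b⟩ := isOpen_ne_fun c continuous_const .p (show (f .p : ℝ) ≠ 1 by simp [f2])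
  obtain ⟨a, -, d⟩ := prop c (fun a => by simp [f3 (x := .l 0 a) (by simp [N, up])]) k 0
  exact b (show X.l k a ∈ _ from le_refl k) d

end Pool.Agent.S13550
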