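import Pool.Statements.S13555
import Pool.Agent.H.MP_8dda54_gt.C

set_option autoImplicit false
open Pool Pool.MP_8dda54_gt

namespace Pool.Agent.S13555

open Pool.Agent.H.MP_8dda54_gt Set Metric Matrix
open scoped Pointwise

theorem result :
    ∃ d : ℕ, 3 ≤ d ∧ ∃ S : Set (EuclideanSpace ℝ (Fin d)),
      Convex ℝ S ∧ IsCompact S ∧ S.Nonempty ∧
      (¬ ∃ a : EuclideanSpace ℝ (Fin d), S = {a}) ∧
      (¬ ∃ a b : EuclideanSpace ℝ (Fin d), a ≠ b ∧ S = segment ℝ a b) ∧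
      (¬ ∃ (c : EuclideanSpace ℝ (Fin d)) (r : ℝ), 0 < r ∧ S = Metric.closedBall c r) ∧
      ∀ K : Set (EuclideanSpace ℝ (Fin d)),
        Convex ℝ K → IsCompact K → K.Nonempty →
        (∀ ρ ∈ Matrix.specialOrthogonalGroup (Fin d) ℝ,
          ∃ x : EuclideanSpace ℝ (Fin d),
            (fun v => Matrix.toEuclideanLin ρ v + x) '' S ⊆ K) →
        ∀ ρ₀ ρ₁ : Matrix (Fin d) (Fin d) ℝ, ∀ x₀ x₁ : EuclideanSpace ℝ (Fin d),
          ρ₀ ∈ Matrix.specialOrthogonalGroup (Fin d) ℝ →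
          ρ₁ ∈ Matrix.specialOrthogonalGroup (Fin d) ℝ →
          (fun v => Matrix.toEuclideanLin ρ₀ v + x₀) '' S ⊆ K →
          (fun v => Matrix.toEuclideanLin ρ₁ v + x₁) '' S ⊆ K →
          ∃ γ : ℝ → Matrix (Fin d) (Fin d) ℝ, ∃ δ : ℝ → EuclideanSpace ℝ (Fin d),
            Continuous γ ∧ Continuous δ ∧
            γ 0 = ρ₀ ∧ γ 1 = ρ₁ ∧ δ 0 = x₀ ∧ δ 1 = x₁ ∧
            ∀ t ∈ Set.Icc (0 : ℝ) 1,
              γ t ∈ Matrix.specialOrthogonalGroup (Fin d) ℝ ∧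
              (fun v => Matrix.toEuclideanLin (γ t) v + δ t) '' S ⊆ K := by
  have m : ∀ t ∈ Icc (0 : ℝ) 1, ∀ z : E3, ‖z‖ ≤ 1 → t • e0 + z ∈ segment ℝ 0 e0 + closedBall (0 : E3) 1 :=
    fun t ht z hz => add_mem_add ((convex_segment _ _).smul_mem_of_zero_mem (left_mem_segment _ _ _)
      (right_mem_segment _ _ _) ht) (mem_closedBall_zero_iff.2 hz)
  have m' : ∀ x ∈ segment ℝ 0 e0 + closedBall (0 : E3) 1, ∃ t ∈ Icc (0 : ℝ) 1, ∃ z : E3, ‖z‖ ≤ 1 ∧
      x = t • e0 + z := by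
    rintro _ ⟨_, ⟨a, b, h1, h2, h3, rfl⟩, z, hz, rfl⟩
    exact ⟨b, ⟨h2, by linarith⟩, z, mem_closedBall_zero_iff.1 hz, by simp⟩
  have u : ∀ (i : Fin 3) (c : ℝ), |c| ≤ 1 → ‖(EuclideanSpace.single i c : E3)‖ ≤ 1 :=
    fun i c hc => by simpa using hc
  refine ⟨3, le_rfl, segment ℝ 0 e0 + closedBall 0 1, (convex_segment _ _).add (convex_closedBall _ _),
    IsCompact.add ?_ (isCompact_closedBall _ _), ⟨_, m 0 (by simp) 0 (by simp)⟩, ?_, ?_, ?_,
    fun K cK hK _ H ρ₀ ρ₁ x₀ x₁ h0 h1 s0 s1 => ?_⟩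
  · rw [segment_eq_image]
    exact isCompact_Icc.image (by fun_prop)
  · rintro ⟨a, h⟩
    have a1 := m 0 (by simp) 0 (by simp)
    have a2 := m 1 (by simp) 0 (by simp)
    rw [h, mem_singleton_iff] at a1 a2
    simpa [e0] using congrArg (fun x : E3 => x 0) (a1.trans a2.symm)
  · rintro ⟨a, b, -, h⟩
    have a0 := m 0 (by simp) 0 (by simp)
    have a1 := m 0 (by simp) _ (u 1 1 (by simp))
    have a2 := m 0 (by simp) _ (u 2 1 (by simp))
    rw [h, segment_eq_image'] at a0 a1 a2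
    obtain ⟨r, -, a0⟩ := a0
    obtain ⟨s, -, a1⟩ := a1
    obtain ⟨t, -, a2⟩ := a2
    have b1 := congrArg (fun x : E3 => x 1) a0
    have b2 := congrArg (fun x : E3 => x 2) a0
    have b3 := congrArg (fun x : E3 => x 1) a1
    have b4 := congrArg (fun x : E3 => x 2) a1
    have b5 := congrArg (fun x : E3 => x 1) a2
    have b6 := congrArg (fun x : E3 => x 2) a2
    simp at b1 b2 b3 b4 b5 b6
    have : (1 : ℝ) = 0 := by
      linear_combination (-(t - r) * (b 2 - a 2)) * (b3 - b1) - (b6 - b2) +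
        (s - r) * (b 2 - a 2) * (b5 - b1)
    exact one_ne_zero this
  · rintro ⟨c, r, r0, h⟩
    have a1 := m 0 (by simp) _ (u 0 (-1) (by simp))
    have a2 := m 1 (by simp) _ (u 0 1 (by simp))
    have b : ∀ s : ℝ, |s| ≤ r → |c 1 + s| ≤ 1 := fun s hs => by
      obtain ⟨t, -, z, hz, e⟩ := m' (c + EuclideanSpace.single 1 s) (h ▸ by simpa using hs)
      have := congrArg (fun x : E3 => x 1) e
      simp [e0] at this
      exact this ▸ (PiLp.norm_apply_le z 1).trans hz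
    rw [h, mem_closedBall, dist_eq_norm] at a1 a2
    have b1 := abs_le.1 ((PiLp.norm_apply_le _ 0).trans a1)
    have b2 := abs_le.1 ((PiLp.norm_apply_le _ 0).trans a2)
    simp [e0] at b1 b2
    linarith [abs_le.1 (b r (abs_of_pos r0).le), abs_le.1 (b (-r) (by simp [abs_of_pos r0]))]
  let K' : Set E3 := {p | ∀ z : E3, ‖z‖ ≤ 1 → p + z ∈ K}
  have c' : Convex ℝ K' := fun p hp q hq a b ha hb hab z hz => by
    have := cK (hp z hz) (hq z hz) ha hb hab
    rwa [smul_add, smul_add, add_add_add_comm, ← add_smul, hab, one_smul] at this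
  have key : ∀ A ∈ SO, ∀ x, (fun v => toEuclideanLin A v + x) '' (segment ℝ 0 e0 + closedBall 0 1) ⊆ K ↔
      (A, x) ∈ Zs K' := fun A hA x => by
    have t : Aᵀ ∈ SO := so.2 ⟨mul_eq_one_comm.1 (so.1 hA).1, by rw [det_transpose, (so.1 hA).2]⟩
    have e : ∀ z, toEuclideanLin A (toEuclideanLin Aᵀ z) = z := fun z => by
      rw [← ap_mul, (so.1 hA).1, toLpLin_one, LinearMap.id_apply]
    refine ⟨fun h => ⟨hA, fun z hz => ?_, fun z hz => ?_⟩, ?_⟩
    · simpa [e, add_comm] using h ⟨_, m 0 (by simp) _ ((nrm t z).trans_le hz), rfl⟩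
    · simpa [e, add_comm, add_left_comm] using h ⟨_, m 1 (by simp) _ ((nrm t z).trans_le hz), rfl⟩
    · rintro ⟨-, h1, h2⟩ _ ⟨v, hv, rfl⟩
      obtain ⟨s, hs, z, hz, rfl⟩ := m' v hv
      simpa [add_comm, add_left_comm] using c'.add_smul_mem h1 h2 hs _ ((nrm hA z).trans_le hz)
  obtain ⟨g, hg⟩ := lift (hK.of_isClosed_subset (by
      simp only [K', ofPred_forall]
      exact isClosed_iInter fun _ => isClosed_iInter fun _ => hK.isClosed.preimage (by fun_prop))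
    fun p hp => by simpa using hp 0 (by simp)) c'
    (fun A hA => (H A hA).imp fun x => (key A hA x).1) ((key _ h0 _).1 s0) ((key _ h1 _).1 s1)
  refine ⟨fun t => (g.extend t).1, fun t => (g.extend t).2, g.continuous_extend.fst,
    g.continuous_extend.snd, by simp, by simp, by simp, by simp, fun t ht => ?_⟩
  simp only [Path.extend_apply _ ht]
  exact ⟨(hg _).1, (key _ (hg _).1 _).2 (hg _)⟩

end Pool.Agent.S13555
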