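import Pool.Statements.S13557
-- import your own Pool.Agent.* helpers here

set_option autoImplicit false
open Pool Pool.MP_8df793_gt

namespace Pool.Agent.S13557

lemma key (m a b x0 x1 y0 y1 : ℝ) (hm : m ^ 2 = 1) (ha : 0 ≤ a) (hb : 0 ≤ b) (hab : a + b = 1)
    (h0 : a * x0 + b * y0 = m) (h1 : a * x1 + b * y1 = 0)
    (hx : 3 * x0 ^ 2 + 5 * x1 ^ 2 = 12) (hy : 3 * y0 ^ 2 + 5 * y1 ^ 2 = 12) :
    ((x0 - m) ^ 2 + x1 ^ 2)⁻¹ + ((y0 - m) ^ 2 + y1 ^ 2)⁻¹ = 10 / 9 := by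
  have hb0 : b ≠ 0 := by
    rintro rfl
    have ha1 : a = 1 := by linarith
    subst ha1
    have e0 : x0 = m := by linarith
    have e1 : x1 = 0 := by linarith
    rw [e0, e1, hm] at hx; norm_num at hx
  have ha0 : a ≠ 0 := by
    rintro rfl
    have hb1 : b = 1 := by linarith
    subst hb1
    have e0 : y0 = m := by linarith
    have e1 : y1 = 0 := by linarith
    rw [e0, e1, hm] at hy; norm_num at hy
  have hbp : 0 < b := lt_of_le_of_ne hb (Ne.symm hb0)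
  have hap : 0 < a := lt_of_le_of_ne ha (Ne.symm ha0)
  obtain ⟨t, ht⟩ : ∃ t, t = a / b := ⟨_, rfl⟩
  have htp : 0 < t := by rw [ht]; positivity
  obtain ⟨u, hu⟩ : ∃ u, u = x0 - m := ⟨_, rfl⟩
  have hat : a = t * b := by rw [ht]; field_simp
  have ey0 : y0 - m = -(t * u) := by
    have : b * (y0 - m) = b * (-(t * u)) := by
      rw [hu]
      have : m = (a + b) * m := by rw [hab, one_mul]
      rw [hat] at h0 this
      linear_combination h0 + this
    exact mul_left_cancel₀ hb0 this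
  have ey1 : y1 = -(t * x1) := by
    have : b * y1 = b * (-(t * x1)) := by rw [hat] at h1; linear_combination h1
    exact mul_left_cancel₀ hb0 this
  have ex0 : x0 = m + u := by rw [hu]; ring
  have ey0' : y0 = m - t * u := by linarith
  obtain ⟨A, hA⟩ : ∃ A, A = 3 * u ^ 2 + 5 * x1 ^ 2 := ⟨_, rfl⟩
  have e1 : A + 6 * m * u = 9 := by rw [ex0] at hx; rw [hA]; linear_combination hx - 3 * hm
  have e2 : t ^ 2 * A - t * (6 * m * u) = 9 := by
    rw [ey0', ey1] at hy; rw [hA]; linear_combination hy - 3 * hm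
  have e3 : 6 * m * u = A * (t - 1) := by
    have : (t + 1) * (6 * m * u) = (t + 1) * (A * (t - 1)) := by linear_combination e1 - e2
    exact mul_left_cancel₀ (by positivity) this
  have e4 : A * t = 9 := by linear_combination e1 - e3
  have e5 : 36 * u ^ 2 = A ^ 2 * (t - 1) ^ 2 := by
    have : (6 * m * u) ^ 2 = (A * (t - 1)) ^ 2 := by rw [e3]
    linear_combination this - 36 * u ^ 2 * hm
  have e6 : t ^ 2 * (u ^ 2 + x1 ^ 2) = 9 / 10 * (t ^ 2 + 1) := by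
    have : u ^ 2 + x1 ^ 2 = (A + 2 * u ^ 2) / 5 := by rw [hA]; ring
    rw [this]
    linear_combination (t ^ 2 / 90) * e5 + (t / 5 + (A * t + 9) * (t - 1) ^ 2 / 90) * e4
  rw [ey0, ey1, ← hu]
  have : (-(t * u)) ^ 2 + (-(t * x1)) ^ 2 = t ^ 2 * (u ^ 2 + x1 ^ 2) := by ring
  rw [this]
  have e7 : u ^ 2 + x1 ^ 2 = 9 / 10 * (t ^ 2 + 1) / t ^ 2 := by
    rw [← e6]; field_simp
  rw [e6, e7]
  field_simp

def K : Set (EuclideanSpace ℝ (Fin 2)) := {z | 3 * z 0 ^ 2 + 5 * z 1 ^ 2 ≤ 12}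

lemma cont : Continuous fun z : EuclideanSpace ℝ (Fin 2) => 3 * z 0 ^ 2 + 5 * z 1 ^ 2 := by
  fun_prop

lemma fr {z : EuclideanSpace ℝ (Fin 2)} (hz : z ∈ frontier K) : 3 * z 0 ^ 2 + 5 * z 1 ^ 2 = 12 :=
  frontier_le_subset_eq cont continuous_const hz

lemma inter (m : ℝ) (hm : m ^ 2 = 1) : (!₂[m, 0] : EuclideanSpace ℝ (Fin 2)) ∈ interior K := by
  have ho : IsOpen {z : EuclideanSpace ℝ (Fin 2) | 3 * z 0 ^ 2 + 5 * z 1 ^ 2 < 12} :=
    isOpen_lt cont continuous_const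
  refine interior_maximal (t := {z : EuclideanSpace ℝ (Fin 2) | 3 * z 0 ^ 2 + 5 * z 1 ^ 2 < 12})
    (fun z hz => show 3 * z 0 ^ 2 + 5 * z 1 ^ 2 ≤ 12 from le_of_lt hz) ho ?_
  simp [hm]
  norm_num

lemma dist_pow (m : ℝ) (x : EuclideanSpace ℝ (Fin 2)) :
    dist x (!₂[m, 0] : EuclideanSpace ℝ (Fin 2)) ^ (-2 : ℝ) = ((x 0 - m) ^ 2 + x 1 ^ 2)⁻¹ := by
  rw [Real.rpow_neg dist_nonneg, Real.rpow_two, EuclideanSpace.dist_eq, Real.sq_sqrt (by positivity)]
  simp [Fin.sum_univ_two, Real.dist_eq, sq_abs]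

lemma chord (m : ℝ) (hm : m ^ 2 = 1) :
    ∃ c : ℝ, ∀ x ∈ frontier K, ∀ y ∈ frontier K,
      (!₂[m, 0] : EuclideanSpace ℝ (Fin 2)) ∈ segment ℝ x y →
        dist x (!₂[m, 0] : EuclideanSpace ℝ (Fin 2)) ^ (-2 : ℝ) +
          dist y (!₂[m, 0] : EuclideanSpace ℝ (Fin 2)) ^ (-2 : ℝ) = c := by
  refine ⟨10 / 9, fun x hx y hy ⟨a, b, ha, hb, hab, h⟩ => ?_⟩
  rw [dist_pow, dist_pow]
  have h0 := congrArg (fun z : EuclideanSpace ℝ (Fin 2) => z 0) h
  have h1 := congrArg (fun z : EuclideanSpace ℝ (Fin 2) => z 1) h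
  simp at h0 h1
  exact key m a b _ _ _ _ hm ha hb hab h0 h1 (fr hx) (fr hy)

lemma conv : Convex ℝ K := by
  intro x hx y hy a b ha hb hab
  simp only [K, Set.mem_ofPred_eq, PiLp.add_apply, PiLp.smul_apply, smul_eq_mul] at hx hy ⊢
  have hb' : b = 1 - a := by linarith
  subst hb'
  nlinarith [mul_nonneg ha hb, mul_nonneg (mul_nonneg ha hb) (sq_nonneg (x 0 - y 0)),
    mul_nonneg (mul_nonneg ha hb) (sq_nonneg (x 1 - y 1)), mul_nonneg ha (sub_nonneg.2 hx),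
    mul_nonneg hb (sub_nonneg.2 hy)]

lemma comp : IsCompact K := by
  refine Metric.isCompact_of_isClosed_isBounded (isClosed_le cont continuous_const) ?_
  refine (Metric.isBounded_closedBall (x := (0 : EuclideanSpace ℝ (Fin 2))) (r := 2)).subset ?_
  intro z hz
  simp only [K, Set.mem_ofPred_eq] at hz
  rw [mem_closedBall_zero_iff, EuclideanSpace.norm_eq, Real.sqrt_le_left (by norm_num)]
  simp only [Fin.sum_univ_two, Real.norm_eq_abs, sq_abs]
  nlinarith [sq_nonneg (z 1)]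

theorem result :
    ∃ α : ℝ, α ≠ -1 ∧ α ≠ 0 ∧
      ∃ K : Set (EuclideanSpace ℝ (Fin 2)),
        Convex ℝ K ∧ IsCompact K ∧ (interior K).Nonempty ∧
        ∃ p q : EuclideanSpace ℝ (Fin 2),
          p ∈ interior K ∧ q ∈ interior K ∧ p ≠ q ∧
          (∃ c : ℝ, ∀ x ∈ frontier K, ∀ y ∈ frontier K,
              p ∈ segment ℝ x y → dist x p ^ α + dist y p ^ α = c) ∧
          (∃ c : ℝ, ∀ x ∈ frontier K, ∀ y ∈ frontier K,
              q ∈ segment ℝ x y → dist x q ^ α + dist y q ^ α = c) := by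
  refine ⟨-2, by norm_num, by norm_num, K, conv, comp, ⟨_, inter 1 (by norm_num)⟩,
    !₂[1, 0], !₂[-1, 0], inter 1 (by norm_num), inter (-1) (by norm_num), ?_,
    chord 1 (by norm_num), chord (-1) (by norm_num)⟩
  intro h
  have h0 := congrArg (fun z : EuclideanSpace ℝ (Fin 2) => z 0) h
  simp at h0
  norm_num at h0

end Pool.Agent.S13557
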