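import Pool.Statements.S13559
import Pool.Agent.H.MP_e9bccb.G

set_option autoImplicit false
open Pool Pool.MP_8e7252_gt

namespace Pool.Agent.S13559

theorem result :
    ∀ (X : Type) [TopologicalSpace X] [CompactSpace X] [T2Space X],
      (∀ A : Set X, ∃ (Y : Type) (_ : TopologicalSpace Y) (f : X → Y),
        Continuous f ∧ CompactSpace Y ∧
        (∃ (Γ : Type) (e : Y → Γ → ℝ), Topology.IsEmbedding e ∧
          ∀ y : Y, ∀ ε : ℝ, 0 < ε → {γ : Γ | ε ≤ |e y γ|}.Finite) ∧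
        f ⁻¹' (f '' A) = A) →
      ∀ (Z : Type) [TopologicalSpace Z] [T2Space Z] (g : X → Z),
        Continuous g → Function.Surjective g →
        ∀ B : Set Z, ∃ (Y : Type) (_ : TopologicalSpace Y) (f : Z → Y),
          Continuous f ∧ CompactSpace Y ∧
          (∃ (Γ : Type) (e : Y → Γ → ℝ), Topology.IsEmbedding e ∧
            ∀ y : Y, ∀ ε : ℝ, 0 < ε → {γ : Γ | ε ≤ |e y γ|}.Finite) ∧
          f ⁻¹' (f '' B) = B := by
  intro X _ _ _ hX Z _ _ g g1 g2 B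
  obtain ⟨Γ, e, e1, -, e3⟩ := H.MP_e9bccb.ebl (X := X) fun A => by
    obtain ⟨Y, _, f, f1, -, ⟨Γ, e, e1, e3⟩, f2⟩ := hX A
    exact ⟨Γ, e ∘ f, e1.continuous.comp f1, fun x => e3 (f x), fun x y k hx =>
      f2.le ⟨x, hx, e1.injective k⟩⟩
  obtain ⟨Γ, e, e1, -, e3⟩ := H.MP_e9bccb.brw e1.continuous e1.injective e3 g1 g2
  exact ⟨Z, _, id, continuous_id, ⟨g2.range_eq ▸ isCompact_range g1⟩, ⟨Γ, e, e1, e3⟩, by simp⟩

end Pool.Agent.S13559
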