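import Pool.Statements.S13574
-- import your own Pool.Agent.* helpers here

set_option autoImplicit false
open Pool Pool.MP_916210_gt

namespace Pool.Agent.S13574

theorem result :
    ¬ (∀ (X : Type) [TopologicalSpace X] [T35Space X] [Infinite X],
      (∀ A : Set X,
        (∃ φ : C(A, ℝ) →ₗ[ℝ] C(X, ℝ),
          @Continuous _ _
            (TopologicalSpace.induced (fun f : C(A, ℝ) => (f : A → ℝ)) inferInstance)
            (TopologicalSpace.induced (fun f : C(X, ℝ) => (f : X → ℝ)) inferInstance)
            (⇑φ) ∧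
          ∀ f : C(A, ℝ), ∀ a : A, φ f a = f a) →
        ∃ e : C(X, ℝ) ≃ₗ[ℝ] C(X ⊕ A, ℝ),
          @Continuous _ _
            (TopologicalSpace.induced (fun f : C(X, ℝ) => (f : X → ℝ)) inferInstance)
            (TopologicalSpace.induced (fun f : C(X ⊕ A, ℝ) => (f : X ⊕ A → ℝ)) inferInstance)
            (⇑e) ∧
          @Continuous _ _
            (TopologicalSpace.induced (fun f : C(X ⊕ A, ℝ) => (f : X ⊕ A → ℝ)) inferInstance)
            (TopologicalSpace.induced (fun f : C(X, ℝ) => (f : X → ℝ)) inferInstance)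
            (⇑e.symm)) →
      ∃ e : C(X × OnePoint ℕ, ℝ) ≃ₗ[ℝ] C(X, ℝ),
        @Continuous _ _
          (TopologicalSpace.induced (fun f : C(X × OnePoint ℕ, ℝ) => (f : X × OnePoint ℕ → ℝ)) inferInstance)
          (TopologicalSpace.induced (fun f : C(X, ℝ) => (f : X → ℝ)) inferInstance)
          (⇑e) ∧
        @Continuous _ _
          (TopologicalSpace.induced (fun f : C(X, ℝ) => (f : X → ℝ)) inferInstance)
          (TopologicalSpace.induced (fun f : C(X × OnePoint ℕ, ℝ) => (f : X × OnePoint ℕ → ℝ)) inferInstance)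
          (⇑e.symm)) := by
  intro H
  obtain ⟨e, h1, h2⟩ := H ℕ (fun A _ => by
    obtain ⟨g⟩ : Nonempty (ℕ ⊕ A ≃ ℕ) := nonempty_equiv_of_countable
    refine ⟨{ toFun := fun f => ⟨f ∘ g, continuous_of_discreteTopology⟩
              invFun := fun f => ⟨f ∘ g.symm, continuous_of_discreteTopology⟩
              map_add' := fun _ _ => rfl
              map_smul' := fun _ _ => rfl
              left_inv := fun f => by ext; simp
              right_inv := fun f => by ext <;> simp }, ?_, ?_⟩
    · exact continuous_induced_rng.2 (@continuous_pi _ _ _ (_) _ _ fun z =>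
        @Continuous.comp _ _ _ (_) _ _ _ _ (continuous_apply (g z)) continuous_induced_dom)
    · exact continuous_induced_rng.2 (@continuous_pi _ _ _ (_) _ _ fun z =>
        @Continuous.comp _ _ _ (_) _ _ _ _ (continuous_apply (g.symm z)) continuous_induced_dom))
  letI t1 : TopologicalSpace C(ℕ × OnePoint ℕ, ℝ) :=
    TopologicalSpace.induced (fun f : C(ℕ × OnePoint ℕ, ℝ) => (f : ℕ × OnePoint ℕ → ℝ)) inferInstance
  letI t2 : TopologicalSpace C(ℕ, ℝ) :=
    TopologicalSpace.induced (fun f : C(ℕ, ℝ) => (f : ℕ → ℝ)) inferInstance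
  have hC : ∀ k : ℕ, IsClopen (((↑) : ℕ → OnePoint ℕ) '' Set.Iio k) := fun k =>
    ⟨((Set.finite_Iio k).image _).isClosed, OnePoint.isOpen_image_coe.2 (isOpen_discrete _)⟩
  let f : ℕ → C(ℕ × OnePoint ℕ, ℝ) := fun k =>
    ⟨fun z => (((↑) : ℕ → OnePoint ℕ) '' Set.Iio k).indicator 1 z.2,
      ((hC k).continuous_indicator continuous_const).comp continuous_snd⟩
  have f0 : ∀ k a, f k (a, OnePoint.infty) = 0 := fun k a => by simp [f]
  have f1 : ∀ k a (j : ℕ), j < k → f k (a, j) = 1 := fun k a j h =>
    Set.indicator_of_mem (Set.mem_image_of_mem _ (show j ∈ Set.Iio k from h)) _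
  have k1 : Filter.Tendsto (fun p : ℕ × ℕ => f p.1 - f p.2) Filter.atTop (nhds 0) := by
    refine (Topology.IsInducing.tendsto_nhds_iff ⟨rfl⟩).2 (tendsto_pi_nhds.2 fun z => ?_)
    obtain ⟨a, b⟩ := z
    refine tendsto_const_nhds.congr' ?_
    induction b using OnePoint.rec with
    | infty => exact .of_forall fun p => by simp [f0]
    | coe j =>
      filter_upwards [Filter.eventually_ge_atTop (j + 1, j + 1)] with p hp
      simp [f1 _ a j hp.1, f1 _ a j hp.2]
  have k2 : ∀ n, ∃ r, Filter.Tendsto (fun k => e (f k) n) Filter.atTop (nhds r) := fun n => by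
    refine cauchySeq_tendsto_of_complete (cauchySeq_iff_tendsto_dist_atTop_0.2 ?_)
    have := (((continuous_apply n).comp continuous_induced_dom).tendsto _).comp
      ((h1.tendsto _).comp k1)
    simpa [Real.dist_eq, Function.comp_def] using this.abs
  choose g hg using k2
  have k3 : Filter.Tendsto (fun k => e (f k)) Filter.atTop
      (nhds ⟨g, continuous_of_discreteTopology⟩) :=
    (Topology.IsInducing.tendsto_nhds_iff ⟨rfl⟩).2 (tendsto_pi_nhds.2 hg)
  have k4 := fun z => (((continuous_apply z).comp continuous_induced_dom).tendsto _).comp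
    ((h2.tendsto _).comp k3)
  set G := e.symm ⟨g, continuous_of_discreteTopology⟩
  have g0 : G (0, OnePoint.infty) = 0 :=
    tendsto_nhds_unique (k4 _) (by simp [Function.comp_def, f0])
  have g1 : ∀ j : ℕ, G (0, j) = 1 := fun j =>
    tendsto_nhds_unique (k4 _) (tendsto_const_nhds.congr' (by
      filter_upwards [Filter.eventually_gt_atTop j] with k hk
      simp [f1 k 0 j hk]))
  have := (OnePoint.continuous_iff_from_nat (fun b => G (0, b))).1
    (@Continuous.comp _ _ _ _ _ _ _ _ G.continuous (by fun_prop))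
  simp [g0, g1] at this

end Pool.Agent.S13574
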