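import Pool.Statements.S13580

set_option autoImplicit false
open Pool Pool.MP_925f0d_gt

namespace Pool.Agent.S13580

noncomputable def hm : (Fin 3 → ℝ) ≃ₜ (Fin 3 → ℝ) where
  toFun x := ![x 0, x 1, x 2 + x 0 * x 1]
  invFun x := ![x 0, x 1, x 2 - x 0 * x 1]
  left_inv x := by ext i; fin_cases i <;> simp
  right_inv x := by ext i; fin_cases i <;> simp
  continuous_toFun := by
    refine continuous_pi fun i => ?_
    fin_cases i <;> simp <;> fun_prop
  continuous_invFun := by
    refine continuous_pi fun i => ?_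
    fin_cases i <;> simp <;> fun_prop

lemma hm_apply (x : Fin 3 → ℝ) : hm x = ![x 0, x 1, x 2 + x 0 * x 1] := rfl

lemma ph (x : Fin 3 → ℝ) : hm.onePointCongr (OnePoint.some x) = OnePoint.some (hm x) := rfl


theorem result :
    ¬ (∀ k : ℕ, 3 ≤ k → ∀ φ : OnePoint (Fin k → ℝ) → OnePoint (Fin k → ℝ), Continuous φ →
    (∀ (x : Fin k → ℝ) (z : ℝ), z ≠ 0 → z ≠ 1 →
      (Option.map (fun v : Fin k → ℝ => (1 - z) • v) (φ (OnePoint.some x)) : OnePoint (Fin k → ℝ)) =
        φ (Option.map (fun v : Fin k → ℝ => ((1 - z) / z) • v) (φ (OnePoint.some (z • x))))) →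
    (∀ p, φ p = p) ∨ (∀ p, φ p = OnePoint.some 0) ∨ (∀ p, φ p = OnePoint.infty) ∨
    ∃ ℓ : (Fin k → ℝ) ≃ₜ (Fin k → ℝ), (∀ (c : ℝ) (x : Fin k → ℝ), ℓ (c • x) = c • ℓ x) ∧
      ((∀ x : Fin k → ℝ, φ (OnePoint.some (ℓ x)) =
          if ∑ i, (x i + 1) ^ 2 = 0 then OnePoint.infty
          else OnePoint.some (ℓ (fun j => (∑ i, x i ^ 2 + (k : ℝ) * x j) / ∑ i, (x i + 1) ^ 2))) ∨
       ∃ d : Fin k → ℝ, d ≠ 0 ∧ ∑ i, d i = 0 ∧
         ∀ x : Fin k → ℝ, φ (OnePoint.some (ℓ x)) =
           OnePoint.some (ℓ (fun j => d j * (∑ i, x i) ^ 2 + x j)))) := by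
  intro h
  have h0 := h 3 le_rfl hm.onePointCongr hm.onePointCongr.continuous (by
    intro x z hz _
    change OnePoint.some ((1 - z) • hm x) = OnePoint.some (hm (((1 - z) / z) • hm (z • x)))
    congr 1
    ext i
    fin_cases i <;> simp [hm_apply] <;> field_simp <;> ring)
  rcases h0 with h1 | h1 | h1 | ⟨l, h1, h2 | ⟨d, -, -, h2⟩⟩
  · have := congrFun (OnePoint.coe_injective ((ph ![1, 1, 0]).symm.trans (h1 _))) 2
    simp [hm_apply] at this
  · have := congrFun (OnePoint.coe_injective ((ph ![1, 1, 0]).symm.trans (h1 _))) 2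
    simp [hm_apply] at this
  · exact OnePoint.coe_ne_infty _ ((ph 0).symm.trans (h1 _))
  · have := h2 fun _ => -1
    rw [ph, if_pos (by simp)] at this
    exact OnePoint.coe_ne_infty _ this
  · have h3 : ∀ x, l x 0 * l x 1 = (∑ i, x i) ^ 2 * l d 2 := by
      intro x
      have h4 : (fun u : ℝ => u * l x 2 + l x 0 * l x 1) =
          fun u : ℝ => l ((∑ i, x i) ^ 2 • d + u • x) 2 := by
        refine Continuous.ext_on (dense_compl_singleton 0) (by fun_prop) (by fun_prop) fun u hu => ?_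
        have hu : u ≠ 0 := hu
        have h5 := congrFun (OnePoint.coe_injective ((ph _).symm.trans (h2 (u⁻¹ • x)))) 2
        have h6 : (fun j => d j * (∑ i, (u⁻¹ • x) i) ^ 2 + (u⁻¹ • x) j) =
            (u⁻¹ ^ 2) • ((∑ i, x i) ^ 2 • d + u • x) := by
          ext j
          simp only [Fin.sum_univ_three, Pi.smul_apply, Pi.add_apply, smul_eq_mul]
          field_simp
        rw [h6, h1, h1] at h5
        simp only [hm_apply, Pi.smul_apply, smul_eq_mul, Matrix.cons_val] at h5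
        field_simp at h5
        linarith
      have h7 := congrFun h4 0
      simp only [zero_mul, zero_add, zero_smul, add_zero, h1] at h7
      exact h7
    have h4 := h3 (l.symm ![1, 1, 0])
    have h5 := h3 (l.symm ![1, -1, 0])
    simp only [Homeomorph.apply_symm_apply, Matrix.cons_val] at h4 h5
    rcases le_total 0 (l d 2) with h6 | h6
    · nlinarith [mul_nonneg (sq_nonneg (∑ i, l.symm ![1, -1, 0] i)) h6]
    · nlinarith [mul_nonneg (sq_nonneg (∑ i, l.symm ![1, 1, 0] i)) (neg_nonneg.2 h6)]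

end Pool.Agent.S13580
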