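import Pool.Statements.S13592
import Mathlib
import Pool.Agent.H.MP_93f147_gt.A

set_option autoImplicit false
universe u
open Pool Pool.MP_93f147_gt

namespace Pool.Agent.S13592

/-- The negation of the preceding statement: Every topological space that is T1, first countable and Lindelöf has cardinality at most the continuum 2^aleph_0. -/
theorem result :
    ¬ (∀ (X : Type u) [TopologicalSpace X] [T1Space X] [FirstCountableTopology X]
      [LindelofSpace X], Cardinal.mk X ≤ Cardinal.continuum.{u}) := by
  intro h
  obtain ⟨X, _, h1, h2, h3, h4⟩ := Pool.Agent.H.MP_93f147_gt.main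
  have e : ULift.{u} X ≃ₜ X := Homeomorph.ulift
  have : T1Space (ULift.{u} X) := e.isEmbedding.t1Space
  have : FirstCountableTopology (ULift.{u} X) := e.isEmbedding.firstCountableTopology
  have : LindelofSpace (ULift.{u} X) := e.isClosedEmbedding.LindelofSpace
  have h5 := h (ULift.{u} X)
  rw [Cardinal.mk_uLift, ← Cardinal.lift_continuum.{u, 0}, Cardinal.lift_le] at h5
  exact absurd h4 (not_lt.2 h5)

end Pool.Agent.S13592
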