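import Pool.Statements.S13606
import Pool.Agent.H.MP_958dc4_gt.A

set_option autoImplicit false
open Pool Pool.MP_958dc4_gt

namespace Pool.Agent.S13606

theorem result :
    ¬ (∀ (K : ∀ (X : Type) [TopologicalSpace X], Prop),
    (∀ (X : Type) [TopologicalSpace X], K X → T0Space X) →
    (∀ (X : Type) [TopologicalSpace X], T0Space X → QuasiSober X → K X) →
    (∀ (X Y : Type) [TopologicalSpace X] [TopologicalSpace Y], (X ≃ₜ Y) → K X → K Y) →
    (∀ (X : Type) [TopologicalSpace X], T0Space X →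
      @K {A : Set X // IsClosed A ∧ ∀ (Y : Type) [TopologicalSpace Y], K Y →
            ∀ f : X → Y, Continuous f → ∃! y : Y, closure (f '' A) = closure {y}}
        (TopologicalSpace.generateFrom
          {S | ∃ U : Set X, IsOpen U ∧ S = {A | (A.1 ∩ U).Nonempty}})) →
    ∀ (I : Type) (X : I → Type) [∀ i, TopologicalSpace (X i)], (∀ i, T0Space (X i)) →
    ∀ (R : I → Type) [∀ i, TopologicalSpace (R i)] (η : ∀ i, X i → R i),
      (∀ i, K (R i) ∧ Continuous (η i) ∧
        ∀ (Y : Type) [TopologicalSpace Y], K Y → ∀ f : X i → Y, Continuous f →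
          ∃! g : R i → Y, Continuous g ∧ g ∘ η i = f) →
      K (∀ i, R i) ∧
      Continuous (fun (x : ∀ i, X i) (i : I) => η i (x i)) ∧
      ∀ (Y : Type) [TopologicalSpace Y], K Y → ∀ f : (∀ i, X i) → Y, Continuous f →
        ∃! g : (∀ i, R i) → Y, Continuous g ∧
          g ∘ (fun (x : ∀ i, X i) (i : I) => η i (x i)) = f) := by
  intro h
  open H.MP_958dc4_gt in
  have h1 := (h KK (fun X _ hX => hX.1) KK_sober KK_homeo (fun X _ _ => adequate X) ℕ XX
    (fun n => inferInstance) RR eta (fun n => ⟨KK_R n, eta_cont n, refl_R n⟩)).2.2 YY KK_Y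
    (fun x => ⟨fun n => eta n (x n), by simp [eta_ne]⟩)
    (Continuous.subtype_mk (continuous_pi fun n => (eta_cont n).comp (continuous_apply n))
      (fun x => by simp [eta_ne]))
  obtain ⟨g, ⟨hg, hg'⟩, -⟩ := h1
  exact H.MP_958dc4_gt.no_ext g hg fun x => congrArg Subtype.val (congrFun hg' x)

end Pool.Agent.S13606
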