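import Pool.Statements.S13624
import Pool.Agent.H.MP_866953.B

set_option autoImplicit false
open Pool Pool.MP_9873d2_gt

namespace Pool.Agent.S13624

theorem result :
    ¬ (∀ (X : Type) [TopologicalSpace X] [T35Space X],
      Nonempty (UniformEquiv {g : X → ℝ // Continuous g} {g : ℝ → ℝ // Continuous g}) →
      ∃ K : ℕ → Set X, (∀ n, IsCompact (K n)) ∧ (⋃ n, K n) = Set.univ ∧
        ∀ F : Set X, (∀ n, IsClosed ((Subtype.val : ↥(K n) → X) ⁻¹' F)) → IsClosed F) := by
  open Pool.Agent.H.MP_866953 in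
  intro H
  obtain ⟨e⟩ := eqR
  obtain ⟨K, hK, -, h⟩ := H (ℝ ⊕ D) ⟨e.symm⟩
  refine bad1 (h _ fun n => ?_)
  have := (bad2 _ (hK n)).preimage (continuous_subtype_val (p := (· ∈ K n)))
  simpa using this

end Pool.Agent.S13624
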