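import Pool.Statements.S13625
import Pool.Agent.H.MP_98c8dd_gt.A

set_option autoImplicit false
open Pool Pool.MP_98c8dd_gt

namespace Pool.Agent.S13625

open Set Filter Topology Metric Pool.Agent.H.MP_98c8dd_gt in
theorem result :
    ∀ (X : Type) [TopologicalSpace X] [TopologicalSpace.MetrizableSpace X]
      [CompactSpace X] [ConnectedSpace X],
      (∀ A : Set X,
        (∃ C : ℕ → Set X, (∀ n, IsClosed (C n)) ∧ A = ⋃ n, C n) →
        (¬ ∃ F : ℕ → Set X,
            (∀ n, ∃ D : Set X, IsClosed D ∧ F n = D ∩ A) ∧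
            (∀ i j, i ≠ j → Disjoint (F i) (F j)) ∧
            (⋃ n, F n) = A ∧
            (∃ i j, i ≠ j ∧ (F i).Nonempty ∧ (F j).Nonempty)) →
        ∀ x ∈ A, ∀ y ∈ A, ∃ K : Set X, K ⊆ A ∧ IsCompact K ∧ IsConnected K ∧ x ∈ K ∧ y ∈ K) →
      ∀ p q : X, p ≠ q →
        (∃ K : Set X, IsCompact K ∧ IsConnected K ∧ p ∈ interior K ∧ q ∉ K) ∨
        (∃ K : Set X, IsCompact K ∧ IsConnected K ∧ q ∈ interior K ∧ p ∉ K) := by
  intro X _ _ _ _ hX p q hpq
  letI := TopologicalSpace.metrizableSpaceMetric X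
  have semi : ∀ (A : Set X) (a : X), a ∈ A → IsSigmaCompact A → _ → ∀ y ∈ A, ∃ K ⊆ A,
      IsCompact K ∧ IsConnected K ∧ a ∈ K ∧ y ∈ K := fun A a ha ⟨C, c1, c2⟩ h =>
    hX A ⟨C, fun n => (c1 n).isClosed, c2.symm⟩ (sig (a := a) h) a ha
  have un : ∀ {s t : Set X}, IsSigmaCompact s → IsSigmaCompact t → IsSigmaCompact (s ∪ t) :=
    fun a b => union_eq_iUnion ▸ isSigmaCompact_iUnion _ (by rintro (_ | _) <;> assumption)
  refine .inl (by_contra fun hc => ?_)
  obtain ⟨r, r0, hr⟩ : ∃ r > 0, dist p q = 3 * r := ⟨dist p q / 3, by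
    have := dist_pos.2 hpq; positivity, by ring⟩
  let s : ℕ → ℝ := fun k => r / ((k : ℝ) + 1)
  have s0 : ∀ k, 0 < s k := fun k => by positivity
  have s1 : ∀ k, s k ≤ r := fun k => div_le_self r0.le (by linarith [Nat.cast_nonneg (α := ℝ) k])
  have s2 : Tendsto s atTop (𝓝 0) := by
    simpa [s, div_eq_mul_inv] using (tendsto_one_div_add_atTop_nhds_zero_nat (𝕜 := ℝ)).const_mul r
  have far : ∀ z, dist z p ≤ r → ∀ t ≤ r, z ∈ (closedBall q t)ᶜ := fun z hz t ht h => by
    linarith [dist_triangle_left p q z, mem_closedBall.1 h]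
  have far' : ∀ z, dist z p ≤ r → ∀ t ≤ r, z ∈ (ball q t)ᶜ := fun z hz t ht h =>
    far z hz t ht (ball_subset_closedBall h)
  have p0 : ∀ t ≤ r, p ∈ (ball q t)ᶜ := far' p (by simpa using r0.le)
  have : ∀ k, ∃ z ∈ ball p (s k), z ∉ connectedComponentIn (ball q (s k))ᶜ p := fun k => by
    by_contra! h
    exact hc ⟨_, (cc isOpen_ball.isClosed_compl p).isCompact,
      isConnected_connectedComponentIn_iff.2 (p0 _ (s1 k)), mem_interior.2
        ⟨_, h, isOpen_ball, mem_ball_self (s0 k)⟩,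
      fun h => connectedComponentIn_subset _ _ h (mem_ball_self (s0 k))⟩
  choose x x1 x2 using this
  have x3 : ∀ k, dist (x k) p ≤ r := fun k => (mem_ball.1 (x1 k)).le.trans (s1 k)
  have x4 : Tendsto x atTop (𝓝 p) := tendsto_iff_dist_tendsto_zero.2
    (squeeze_zero (fun _ => dist_nonneg) (fun k => (mem_ball.1 (x1 k)).le) s2)
  let F := connectedComponentIn (ball q r)ᶜ p
  have F1 : IsClosed F := cc isOpen_ball.isClosed_compl p
  have F2 : p ∈ F := mem_connectedComponentIn (p0 r le_rfl)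
  have F3 : F ⊆ (ball q r)ᶜ := connectedComponentIn_subset _ _
  have E : ∀ k, connectedComponentIn (ball q (s k))ᶜ (x k) ⊆ H F (x k) := fun k y hy =>
    ⟨_, fun z hz hz' => x2 k (by
      have := connectedComponentIn_mono p (compl_subset_compl.2 (ball_subset_ball (s1 k))) hz'
      rw [connectedComponentIn_eq this, ← connectedComponentIn_eq hz]
      exact mem_connectedComponentIn (far' _ (x3 k) _ (s1 k))), cc isOpen_ball.isClosed_compl _,
      isPreconnected_connectedComponentIn, mem_connectedComponentIn (far' _ (x3 k) _ (s1 k)), hy⟩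
  have HF : ∀ z, H F z ⊆ Fᶜ := fun z y ⟨K, a, _, _, _, e⟩ => a e
  have xF : ∀ k, x k ∉ F := fun k => HF _ (E k (mem_connectedComponentIn (far' _ (x3 k) _ (s1 k))))
  have : ∀ k, ∃ y ∈ H F (x k), y ∈ closedBall q (s k) := fun k => by
    obtain ⟨y, y1, y2⟩ := not_subset.1 (bb (N := (closedBall q (s k))ᶜ) isClosed_univ
      isPreconnected_univ isOpen_ball.isClosed_compl isClosed_closedBall.isOpen_compl
      (compl_subset_compl.2 ball_subset_closedBall) ⟨trivial, far' _ (x3 k) _ (s1 k)⟩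
      fun h => h (mem_univ q) (mem_closedBall_self (s0 k).le))
    rw [univ_inter] at y1
    exact ⟨y, E k y1, not_not.1 y2⟩
  choose y y1 y2 using this
  have y3 : Tendsto y atTop (𝓝 q) := tendsto_iff_dist_tendsto_zero.2
    (squeeze_zero (fun _ => dist_nonneg) y2 s2)
  have RH : ∀ (A : Set X) (R : X → X → Prop) a, H F a ⊆ A →
      (∀ K ⊆ A, IsClosed K → IsPreconnected K → ∀ x ∈ K, ∀ y ∈ K, R x y) → ∀ z ∈ H F a, R a z :=
    fun A R a h1 h2 z ⟨K, k1, k2, k3, k4, k5⟩ =>
      h2 K (fun w hw => h1 ⟨K, k1, k2, k3, k4, hw⟩) k2 k3 a k4 z k5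
  have lim : ∀ a ∉ F, ∀ z ∈ closure (H F a), ∃ K ⊆ insert z (H F a), IsCompact K ∧
      IsConnected K ∧ a ∈ K ∧ z ∈ K := fun a ha z hz => semi _ a (.inr ⟨{a},
        singleton_subset_iff.2 ha, isClosed_singleton, isPreconnected_singleton, rfl, rfl⟩)
      (insert_eq z _ ▸ un isCompact_singleton.isSigmaCompact (H_sigma F1 a))
      (fun R _ _ h3 h4 w hw => by
        have := RH _ R a (subset_insert _ _) h3
        rcases hw with rfl | hw
        exacts [h4 a w (.inl rfl) (closure_mono this hz), this w hw]) z (.inl rfl)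
  have cl : ∀ a ∉ F, ∀ z ∈ closure (H F a), z ∉ F → z ∈ H F a := fun a ha z hz hz' => by
    obtain ⟨K, k1, k2, k3, k4, k5⟩ := lim a ha z hz
    exact ⟨K, k1.trans (insert_subset hz' (HF a)), k2.isClosed, k3.2, k4, k5⟩
  have qF : q ∉ F := fun h => F3 h (mem_ball_self r0)
  have pq : p ∉ closure (H F q) := fun h => by
    obtain ⟨K, k1, k2, k3, k4, k5⟩ := lim q qF p h
    have h0 : p ∈ K ∩ closedBall p r := ⟨k5, mem_closedBall_self r0.le⟩
    obtain ⟨w, w1, w2⟩ := not_subset.1 (bb k2.isClosed k3.2 isClosed_closedBall isOpen_ball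
      ball_subset_closedBall h0 fun h => far' q (mem_ball.1 (h k4)).le r le_rfl (mem_ball_self r0))
    rcases k1 (connectedComponentIn_subset _ _ w1).1 with rfl | h
    · exact w2 (mem_ball_self r0)
    · exact HF q h (connectedComponentIn_mono p (fun z hz => far' z hz.2 r le_rfl) w1)
  have ev : ∀ᶠ k in atTop, q ∉ H F (x k) :=
    (x4.eventually (isClosed_closure.isOpen_compl.mem_nhds pq)).mono fun k hk h =>
      hk (subset_closure (H_symm h))
  obtain ⟨L, l1, l2, l3, l4, l5⟩ := semi (insert q (F ∪ ⋃ k ∈ {k | q ∉ H F (x k)}, H F (x k))) p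
    (.inr (.inl F2)) (insert_eq q _ ▸ un isCompact_singleton.isSigmaCompact
      (un F1.isCompact.isSigmaCompact (isSigmaCompact_biUnion (to_countable _)
        fun k _ => H_sigma F1 _))) (fun R h1 h2 h3 h4 w hw => by
      have e1 : ∀ z ∈ F, R p z := h3 F (fun z hz => .inr (.inl hz)) F1
        isPreconnected_connectedComponentIn p F2
      have e2 : ∀ k, q ∉ H F (x k) → ∀ z ∈ H F (x k), R p z := fun k hk z hz => by
        have := RH _ R (x k) (fun z hz => .inr (.inr (mem_biUnion hk hz))) h3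
        obtain ⟨v, v1, v2⟩ := H_lim F1 F2 (xF k)
        exact h2 _ _ _ (e1 v v1) (h2 _ _ _ (h1 _ _ (h4 _ v (.inr (.inl v1))
          (closure_mono this v2))) (this z hz))
      rcases hw with rfl | hw | hw
      · exact h4 p w (.inl rfl) (mem_closure_of_tendsto y3 (ev.mono fun k hk => e2 k hk _ (y1 k)))
      · exact e1 w hw
      · obtain ⟨k, hk, hw⟩ := mem_iUnion₂.1 hw
        exact e2 k hk w hw) q (.inl rfl)
  have h0 : q ∈ L ∩ closedBall q (r / 2) := ⟨l5, mem_closedBall_self (by positivity)⟩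
  have d1 := cc (l2.isClosed.inter isClosed_closedBall) q (W := L ∩ closedBall q (r / 2))
  have d2 := connectedComponentIn_subset (L ∩ closedBall q (r / 2)) q
  have d3 := bb l2.isClosed l3.2 isClosed_closedBall isOpen_ball ball_subset_closedBall h0
    fun h => p0 _ (by linarith) (h l4)
  have d4 := mem_connectedComponentIn h0
  have d5 : IsPreconnected (connectedComponentIn (L ∩ closedBall q (r / 2)) q) :=
    isPreconnected_connectedComponentIn
  generalize connectedComponentIn (L ∩ closedBall q (r / 2)) q = D at d1 d2 d3 d4 d5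
  have d6 : D ⊆ Fᶜ := fun z hz h => F3 h (closedBall_subset_ball (by linarith) (d2 hz).2)
  obtain ⟨n, hn⟩ := sier d1 d5 (fun o : Option {k // q ∉ H F (x k)} =>
    o.elim {q} fun k => D ∩ H F (x k)) (by
      rintro (_ | k)
      · exact isClosed_singleton
      · exact closure_subset_iff_isClosed.1 fun z hz =>
          have := closure_minimal inter_subset_left d1 hz
          ⟨this, cl _ (xF k) z (closure_mono inter_subset_right hz) (d6 this)⟩) (by
      rintro (_ | k) (_ | j) ⟨z, a, b⟩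
      · rfl
      · exact absurd (mem_of_eq_of_mem (a : z = q).symm b.2) j.2
      · exact absurd (mem_of_eq_of_mem (b : z = q).symm a.2) k.2
      · exact Subset.antisymm (fun w hw => ⟨hw.1, H_trans b.2 (H_trans (H_symm a.2) hw.2)⟩)
          fun w hw => ⟨hw.1, H_trans a.2 (H_trans (H_symm b.2) hw.2)⟩) fun z hz => by
      rcases l1 (d2 hz).1 with h | h | h
      · exact mem_iUnion.2 ⟨none, h⟩
      · exact absurd h (d6 hz)
      · obtain ⟨k, hk, h⟩ := mem_iUnion₂.1 h
        exact mem_iUnion.2 ⟨some ⟨k, hk⟩, hz, h⟩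
  rcases n with _ | k
  · exact d3 fun z hz => (hn hz : z = q) ▸ mem_ball_self (by positivity)
  · exact k.2 (hn d4).2

end Pool.Agent.S13625
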