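import Pool.Statements.S13680
import Pool.Agent.H.MP_a06b07_gt.A

set_option autoImplicit false
open Pool Pool.MP_a06b07_gt

namespace Pool.Agent.S13680

theorem result :
    ¬ (∀ (X : Type) [TopologicalSpace X] [CompactSpace X] [T2Space X],
      (∃ r : X → X → Prop, IsWellOrder X r ∧ ∀ x : X, IsOpen {y : X | ¬ r y x}) →
      ∃ D : ℕ → Set X, (⋃ n, D n) = Set.univ ∧ ∀ n, DiscreteTopology (D n)) := by
  intro h
  obtain ⟨D, h1, h2⟩ := h _ Pool.Agent.H.MP_a06b07_gt.ls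
  obtain ⟨n, t, t1, t2⟩ := Pool.Agent.H.MP_a06b07_gt.nd (fun n => OnePoint.some ⁻¹' D n)
    fun t => Set.mem_iUnion (s := D).1 (h1 ▸ Set.mem_univ (OnePoint.some t))
  have := h2 n
  obtain ⟨V, v1, v2⟩ := isOpen_induced_iff.1 (isOpen_discrete ({⟨_, t1⟩} : Set (D n)))
  obtain ⟨s, ⟨s1, s2⟩, s3⟩ := t2 _ (v1.preimage OnePoint.continuous_coe)
    (show (⟨_, t1⟩ : D n) ∈ Subtype.val ⁻¹' V by rw [v2]; rfl)
  exact s3 (OnePoint.coe_injective (congrArg Subtype.val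
    (show (⟨_, s1⟩ : D n) ∈ ({⟨_, t1⟩} : Set (D n)) from v2 ▸ s2)))

end Pool.Agent.S13680
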