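import Pool.Statements.S13694
import Pool.Agent.H.MP_a33cdf_gt.C

set_option autoImplicit false
open Pool Pool.MP_a33cdf_gt

namespace Pool.Agent.S13694
open Set Classical Pool.Agent.H.MP_7a24ab_lc Pool.Agent.H.MP_a33cdf_gt

noncomputable def pt (b d : W) (m : ℕ) (a : W) : ZMod 2 := if a < d then w b a else H a m
abbrev X : Type := {y : W → ZMod 2 // ∃ b d m, d ≤ b ∧ y = pt b d m}

lemma cl {y : X} {D : Set X} (h : ∀ a : Finset W, ∃ z ∈ D, ∀ u ∈ a, z.1 u = y.1 u) : y ∈ closure D := by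
  refine mem_closure_iff.2 fun U hU hy => ?_
  obtain ⟨V, hV, rfl⟩ := isOpen_induced_iff.1 hU
  obtain ⟨a, u, h1, h2⟩ := isOpen_pi_iff.1 hV _ hy
  obtain ⟨z, z1, z2⟩ := h a
  exact ⟨z, h2 fun i hi => z2 i hi ▸ (h1 i hi).2, z1⟩

lemma wdet {d a b b' : W} (h : a ≤ d) (hb : d ≤ b) (hb' : d ≤ b') (k : code d b = code d b') : w b a = w b' a := by
  rw [w, w, osc_det h hb hb' k]

lemma lev (d : W) : {y : X | ∃ b g m, g ≤ d ∧ g ≤ b ∧ y.1 = pt b g m}.Countable := by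
  refine (((cIio d).insert d).biUnion fun g _ => countable_iUnion fun m => (sm_c g).biUnion fun t _ =>
    Subsingleton.countable (s := {y : X | ∃ b, g ≤ b ∧ code g b = t ∧ y.1 = pt b g m}) ?_).mono ?_
  · rintro y ⟨b, b1, rfl, b2⟩ y' ⟨b', c1, c2, c3⟩
    ext a
    rw [b2, c3, pt, pt]
    split_ifs with h
    · exact wdet h.le b1 c1 c2.symm
    · rfl
  · rintro y ⟨b, g, m, h1, h2, h3⟩
    exact mem_biUnion h1.eq_or_lt (mem_iUnion.2 ⟨m, mem_biUnion (code_mem b) ⟨b, h2, rfl, h3⟩⟩)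

theorem result :
    ¬ (∀ (X : Type) [TopologicalSpace X] [T35Space X] (τ : Cardinal.{0}),
      (∀ Y : Set X, IsClosed Y → ∃ D ⊆ Y, Y ⊆ closure D ∧ Cardinal.mk ↥D ≤ τ) →
      ∀ Z : Set X, ∃ D ⊆ Z, Z ⊆ closure D ∧ Cardinal.mk ↥D ≤ τ) := by
  intro h
  obtain ⟨D, D1, D2, D3⟩ := h X Cardinal.aleph0 (fun Y hY => by
    let F : W × List (Finset W) → W × W × ℕ → Prop := fun p t => t.2.1 ≤ t.1 ∧ p.1 ≤ t.1 ∧ code p.1 t.1 = p.2 ∧
      ∃ y ∈ Y, y.1 = pt t.1 t.2.1 t.2.2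
    let R : Fin 2 → W × List (Finset W) → W → Prop := ![fun p x => ¬ ∃ t : Subtype (F p), x ≤ t.1.2.1,
      fun p g => ∀ a : Finset W, (∀ u ∈ a, g ≤ u) → ∀ σ : W → ZMod 2, ∃ t : Subtype (F p),
        ∀ u ∈ a, u < t.1.2.1 ∧ w t.1.1 u = σ u]
    obtain ⟨d, hd, hR⟩ := clos (fun (p : W × List (Finset W)) g => p.1 = g ∧ sm g p.2)
      (fun g => ((countable_singleton g).prod (sm_c g)).mono fun p hp => mem_prod.2 ⟨by exact hp.1, by exact hp.2⟩) R
    refine ⟨_, inter_subset_left, fun y hy => ?_, Cardinal.le_aleph0_iff_set_countable.2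
      ((lev d).mono (inter_subset_right (s := Y)))⟩
    obtain ⟨b, g, m, h1, h2⟩ := y.2
    by_cases hg : g ≤ d
    · exact subset_closure ⟨hy, b, g, m, hg, h1, h2⟩
    have db := (not_le.1 hg).le.trans h1
    have key : ∀ m, (⟨pt b d m, b, d, m, db, rfl⟩ : X) ∈ Y := fun m' => hY.closure_subset (cl fun a => by
      obtain ⟨c, c1, c2⟩ := hd.fin (a.filter (· < d)).finite_toSet (by simp)
      have un : ∀ x, ∃ t : Subtype (F (c, code c b)), x ≤ t.1.2.1 := fun x => by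
        by_contra k
        obtain ⟨z, z1, z2⟩ := hR 0 (c, code c b) c c1 ⟨rfl, code_mem b⟩ ⟨x, k⟩
        exact z2 ⟨⟨(b, g, m), h1, c1.le.trans db, rfl, y, hy, h2⟩, z1.le.trans (not_le.1 hg).le⟩
      obtain ⟨z, z1, z2⟩ := hR 1 (c, code c b) c c1 ⟨rfl, code_mem b⟩ (dens (fun t => t.2.1) un)
      obtain ⟨⟨⟨b', g', n⟩, t1, t2, t3, v, v1, v2⟩, t4⟩ := z2 (insert d (a.filter (d ≤ ·)))
        (by simpa [z1.le] using fun u _ hu => z1.le.trans hu) fun u => H u m'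
      refine ⟨v, v1, fun u hu => ?_⟩
      rw [v2]
      by_cases k : u < d
      · simp only [pt, k, k.trans (t4 d (by simp)).1, if_true]
        exact wdet (c2 u (by simp [*])).le t2 (c1.le.trans db) t3
      · have := t4 u (by simp [hu, not_lt.1 k])
        simp only [pt, k, this.1, if_true, if_false]
        exact this.2)
    refine cl fun a => ?_
    obtain ⟨n, hn⟩ := Hd a
    obtain ⟨m', -, m2⟩ := hn y.1 0
    refine ⟨_, ⟨key m', b, d, m', le_rfl, db, rfl⟩, fun u hu => ?_⟩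
    by_cases k : u < d
    · simp only [h2, pt, k, k.trans (not_le.1 hg), if_true]
    · simpa [pt, k] using m2 u hu) {y | ∃ b, y.1 = pt b b 0}
  choose! f hf using D1
  obtain ⟨g, hg⟩ := bdd ((Cardinal.le_aleph0_iff_set_countable.1 D3).image f)
  obtain ⟨c, hc⟩ := dens (b := id) (μ := id) (fun _ => le_rfl) fun g => ⟨g, le_rfl⟩
  obtain ⟨b, hb⟩ := hc {max g c} (by simp) fun u => H u 0 + 1
  have := closure_minimal (t := {y : X | y.1 (max g c) = H (max g c) 0}) (fun y hy => by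
    simp [hf hy, pt, (hg _ ⟨y, hy, rfl⟩).le]) (isClosed_eq ((continuous_apply _).comp continuous_subtype_val) continuous_const)
    (D2 (a := ⟨pt b b 0, b, b, 0, le_rfl, rfl⟩) ⟨b, rfl⟩)
  have k := hb _ (Finset.mem_singleton_self _)
  simp only [mem_setOf_eq, pt, show max g c < b from k.1, if_true, show w b _ = _ from k.2] at this
  simp at this

end Pool.Agent.S13694
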