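import Pool.Statements.S13696
import Pool.Agent.H.MP_a4908e.A

set_option autoImplicit false
open Pool Pool.MP_a4908e_gt

namespace Pool.Agent.S13696

theorem result :
    ¬ (∀ (X Y : Type) [TopologicalSpace X] [T35Space X] [TopologicalSpace Y] [T35Space Y],
      (∀ s : Set X, IsClosed s → IsGδ s) →
      (∃ T : {f : X → ℝ // Continuous f} ≃ₜ {g : Y → ℝ // Continuous g},
        ∀ (a : ℝ) (f g h : {f : X → ℝ // Continuous f}),
          h.1 = a • f.1 + g.1 → (T h).1 = a • (T f).1 + (T g).1) →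
      ∀ s : Set Y, IsClosed s → IsGδ s) := by
  open Pool.Agent.H.MP_a4908e in
  intro H
  obtain ⟨A, z, h⟩ := notperf
  refine h (H _ _ (fun s _ => perfX _ perfΨ s) ⟨EH _ z, fun a f g k e => funext fun p => ?_⟩ _
    isClosed_singleton)
  obtain ⟨x, y, w, hp⟩ := hT _ z p
  change (E _ z k).1 p = a * (E _ z f).1 p + (E _ z g).1 p
  simp only [hp, e, Pi.add_apply, Pi.smul_apply, smul_eq_mul]
  ring

end Pool.Agent.S13696
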