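import Pool.Statements.S13710
-- import your own Pool.Agent.* helpers here

set_option autoImplicit false
open Pool Pool.MP_a6a8af_gt

namespace Pool.Agent.S13710

open Set Topology Metric TopologicalSpace

lemma cst {Z : Type} [TopologicalSpace Z] {s : Set Z} (hs : IsPreconnected s) {a b : Z → ℝ}
    (ha : Continuous a) (hb : Continuous b) (h : ∀ z ∈ s, (a z : UnitAddCircle) = b z) {x y : Z}
    (hx : x ∈ s) (hy : y ∈ s) : a x - b x = a y - b y :=
  (AddCircle.isCoveringMap_coe (1 : ℝ)).constOn_of_comp hs (ha.sub hb).continuousOn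
    (fun z hz w hw => by simp [h z hz, h w hw]) hx hy

lemma unic {Y : Type} [MetricSpace Y] [PreconnectedSpace Y]
    (h : ∀ g : Y → UnitAddCircle, Continuous g → ∃ G : Y → ℝ, Continuous G ∧ ∀ y, ↑(G y) = g y)
    {A B : Set Y} (a1 : IsClosed A) (b1 : IsClosed B) (a2 : IsConnected A) (b2 : IsConnected B)
    (e : A ∪ B = univ) : IsConnected (A ∩ B) := by
  classical
  refine ⟨by simpa using (isPreconnected_closed_iff.1 isPreconnected_univ A B a1 b1 e.ge
    (by simpa using a2.1) (by simpa using b2.1)), (isPreconnected_iff_subset_of_fully_disjoint_closed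
      (a1.inter b1)).2 fun P Q hP hQ h1 h2 => ?_⟩
  by_contra! hc
  obtain ⟨⟨y, y1, y2⟩, x, x1, x2⟩ := hc.imp not_subset.1 not_subset.1
  obtain ⟨u, u0, u1, -⟩ := exists_continuous_zero_one_of_isClosed hP hQ h2
  let g : Y → UnitAddCircle := fun y => if y ∈ A then ↑(u y / 2) else ↑(-(u y / 2))
  have gA : ∀ y ∈ A, g y = ↑(u y / 2) := fun y hy => if_pos hy
  have gB : ∀ y ∈ B, g y = ↑(-(u y / 2)) := fun y hy => by
    by_cases k : y ∈ A
    · rw [gA y k]
      rcases h1 ⟨k, hy⟩ with k | k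
      · simp [u0 k]
      · rw [u1 k, ← AddCircle.coe_add_period (1 : ℝ) (-_)]
        norm_num
    · exact if_neg k
  obtain ⟨G, G1, G2⟩ := h g (continuousOn_univ.1 (e ▸ ContinuousOn.union_of_isClosed
    (ContinuousOn.congr (by fun_prop) gA) (ContinuousOn.congr (by fun_prop) gB) a1 b1))
  have k1 := cst a2.2 G1 (by fun_prop) (fun z hz => (G2 z).trans (gA z hz)) x1.1 y1.1
  have k2 := cst b2.2 G1 (by fun_prop) (fun z hz => (G2 z).trans (gB z hz)) x1.2 y1.2
  have k3 : u x = 0 := u0 ((h1 x1).resolve_right x2)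
  have k4 : u y = 1 := u1 ((h1 y1).resolve_left y2)
  linarith

lemma per {s t : ℝ} (hs : s ∈ Icc (0 : ℝ) 1) (ht : t ∈ Icc (0 : ℝ) 1)
    (h : (s : UnitAddCircle) = t) : s = t ∨ s = 0 ∧ t = 1 ∨ s = 1 ∧ t = 0 := by
  obtain ⟨n, hn⟩ := QuotientAddGroup.eq.1 h
  have k : (n : ℝ) = -s + t := by simpa using hn
  have k1 : ((-1 : ℤ) : ℝ) ≤ n := by push_cast; linarith [hs.2, ht.1]
  have k2 : (n : ℝ) ≤ (1 : ℤ) := by push_cast; linarith [hs.1, ht.2]
  have k3 := Int.cast_le.1 k1
  have k4 := Int.cast_le.1 k2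
  interval_cases n <;> push_cast at k
  · exact .inr (.inr ⟨by linarith [hs.2, ht.1], by linarith [hs.2, ht.1]⟩)
  · exact .inl (by linarith)
  · exact .inr (.inl ⟨by linarith [hs.1, ht.2], by linarith [hs.1, ht.2]⟩)

abbrev F := {x : ℂ × ℝ // ‖x.1‖ + |x.2| = 1}

def τ (x : F) : F := ⟨-x.1, by simpa using x.2⟩

noncomputable def p (z : closedBall (0 : ℂ) 1) : F := ⟨(z.1, 1 - ‖z.1‖), by
  rw [abs_of_nonneg (sub_nonneg.2 (mem_closedBall_zero_iff.1 z.2))]; simp⟩

lemma sur (x : F) : ∃ z, p z = x ∨ τ (p z) = x := by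
  have h := x.2
  have h1 : ‖x.1.1‖ ≤ 1 := by linarith [abs_nonneg x.1.2]
  rcases le_total 0 x.1.2 with k | k
  · rw [abs_of_nonneg k] at h
    exact ⟨⟨x.1.1, by simpa using h1⟩, .inl (Subtype.ext (Prod.ext rfl (by simp [p]; linarith)))⟩
  · rw [abs_of_nonpos k] at h
    exact ⟨⟨-x.1.1, by simpa using h1⟩, .inr (Subtype.ext (Prod.ext (by simp [p, τ])
      (by simp [p, τ]; linarith)))⟩

def σ (x : UnitAddCircle × F) : UnitAddCircle × F := (-x.1, τ x.2)

theorem result :
    ¬ (∀ (X Y : Type) [MetricSpace X] [CompactSpace X] [ConnectedSpace X]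
      [LocallyConnectedSpace X] [MetricSpace Y] (f : X → Y),
      IsLocalHomeomorph f → Function.Surjective f →
      (∃ A B : Set X, IsClosed A ∧ IsClosed B ∧ IsConnected A ∧ IsConnected B ∧
          A ∪ B = Set.univ ∧ ¬ IsConnected (A ∩ B)) →
      (∃ A B : Set Y, IsClosed A ∧ IsClosed B ∧ IsConnected A ∧ IsConnected B ∧
          A ∪ B = Set.univ ∧ ¬ IsConnected (A ∩ B))) := by
  intro H
  have τc : Continuous τ := by unfold τ; fun_prop
  have pc : Continuous p := by unfold p; fun_prop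
  have σc : Continuous σ := by unfold σ; fun_prop
  have σσ : ∀ x, σ (σ x) = x := fun x => by simp [σ, τ]
  have cv := convex_closedBall (0 : ℂ) 1
  have := cv.locallyPathConnectedSpace
  have s1 : Function.Surjective (Sum.elim p (τ ∘ p)) := fun x =>
    let ⟨z, h⟩ := sur x; h.elim (fun h => ⟨.inl z, h⟩) fun h => ⟨.inr z, h⟩
  have s2 : Continuous (Sum.elim p (τ ∘ p)) := pc.sumElim (τc.comp pc)
  have : CompactSpace F := s1.compactSpace s2
  have : LocallyPathConnectedSpace F :=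
    (s2.isClosedMap.isQuotientMap s2 s1).locallyPathConnectedSpace
  have := isConnected_iff_connectedSpace.1 (cv.isConnected ⟨0, by simp⟩)
  have : ConnectedSpace F := connectedSpace_iff_univ.2 (by
    rw [← s1.range_eq, Sum.elim_range]
    exact (isConnected_range pc).union ⟨_, ⟨⟨1, by simp⟩, rfl⟩, ⟨-1, by simp⟩,
      Subtype.ext (by simp [p, τ])⟩ (isConnected_range (τc.comp pc)))
  have : LocallyPathConnectedSpace UnitAddCircle :=
    (QuotientAddGroup.isQuotientMap_mk _).locallyPathConnectedSpace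
  let f0 : UnitAddCircle × F → NonemptyCompacts (UnitAddCircle × F) := fun x => {x} ⊔ {σ x}
  have f1 : ∀ x y, y ∈ (f0 x : Set _) ↔ y = x ∨ y = σ x := fun x y => by simp [f0, or_comm]
  let f := rangeFactorization f0
  have fc : Continuous f := (NonemptyCompacts.continuous_singleton.sup
    (NonemptyCompacts.continuous_singleton.comp σc)).rangeFactorization
  have fs : ∀ x, f (σ x) = f x := fun x => Subtype.ext (by simp [f, f0, σσ, sup_comm])
  have f2 : ∀ x y, f y = f x → y = x ∨ y = σ x := fun x y h =>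
    (f1 x y).1 ((show f0 y = f0 x from congrArg Subtype.val h) ▸ (f1 y y).2 (.inl rfl))
  have fo : IsOpenMap f := fun U hU => by
    suffices f '' U = Subtype.val ⁻¹' {K : NonemptyCompacts _ | (↑K ∩ U).Nonempty} from this ▸
      (NonemptyCompacts.isOpen_inter_nonempty_of_isOpen hU).preimage continuous_subtype_val
    refine Subset.antisymm (by rintro _ ⟨x, hx, rfl⟩; exact ⟨x, (f1 x x).2 (.inl rfl), hx⟩) ?_
    rintro ⟨_, x, rfl⟩ ⟨y, y1, y2⟩
    exact ⟨y, y2, ((f1 x y).1 y1).elim (congrArg f) fun h => h ▸ fs x⟩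
  have := rangeFactorization_surjective.connectedSpace fc
  obtain ⟨A, B, a1, b1, a2, b2, e, h⟩ := H (UnitAddCircle × F) (range f0) f
    (isLocalHomeomorph_iff_isOpenEmbedding_restrict.2 fun x => by
      obtain ⟨U, V, hU, hV, h1, h2, h3⟩ := t2_separation (x := x) (y := σ x) fun h => by
        have k : x.2.1 = -x.2.1 := congrArg (·.2.1) h
        have := x.2.2
        rw [self_eq_neg.1 k] at this
        simp at this
      have hW := hU.inter (hV.preimage σc)
      exact ⟨_, hW.mem_nhds ⟨h1, h2⟩, .of_continuous_injective_isOpenMap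
        (fc.comp continuous_subtype_val) (fun a b k => Subtype.ext ((f2 _ _ k).resolve_right
          fun k => disjoint_left.1 h3 a.2.1 (mem_of_eq_of_mem k b.2.2)))
        (fo.comp hW.isOpenMap_subtype_val)⟩) rangeFactorization_surjective (by
      have c : Continuous ((↑) : ℝ → UnitAddCircle) := by fun_prop
      refine ⟨((↑) '' Icc (0 : ℝ) (1 / 2)) ×ˢ univ, ((↑) '' Icc (1 / 2 : ℝ) 1) ×ˢ univ,
        (isCompact_Icc.image c).isClosed.prod isClosed_univ,
        (isCompact_Icc.image c).isClosed.prod isClosed_univ,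
        ((isConnected_Icc (by norm_num)).image _ c.continuousOn).prod isConnected_univ,
        ((isConnected_Icc (by norm_num)).image _ c.continuousOn).prod isConnected_univ,
        eq_univ_of_forall fun x => ?_, fun h => ?_⟩
      · obtain ⟨t, t1, t2⟩ := AddCircle.eq_coe_Ico x.1
        exact (le_total t (1 / 2)).imp (fun h => ⟨⟨t, ⟨t1.1, h⟩, t2⟩, trivial⟩)
          fun h => ⟨⟨t, ⟨h, t1.2.le⟩, t2⟩, trivial⟩
      · obtain ⟨w⟩ : Nonempty F := inferInstance
        refine (h.2.image _ continuous_fst.continuousOn).infinite_of_nontrivial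
          ⟨_, ⟨(((0 : ℝ) : UnitAddCircle), w), ⟨⟨⟨0, by norm_num, rfl⟩, trivial⟩,
            ⟨1, by norm_num, by simp⟩, trivial⟩, rfl⟩, _, ⟨(((1 / 2 : ℝ) : UnitAddCircle), w),
            ⟨⟨⟨_, by norm_num, rfl⟩, trivial⟩, ⟨_, by norm_num, rfl⟩, trivial⟩, rfl⟩, fun k => by
              have := per (by norm_num) (by norm_num) k; norm_num at this⟩
          ((toFinite {((0 : ℝ) : UnitAddCircle), ((1 / 2 : ℝ) : UnitAddCircle)}).subset ?_)
        rintro _ ⟨x, ⟨⟨⟨a, a1, a2⟩, -⟩, ⟨b, b1, b2⟩, -⟩, rfl⟩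
        rcases per ⟨a1.1, by linarith [a1.2]⟩ ⟨by linarith [b1.1], b1.2⟩ (a2.trans b2.symm) with
          k | k | k
        · exact .inr (a2.symm.trans (congrArg _ (a1.2.antisymm (k ▸ b1.1))))
        · exact .inl (a2.symm.trans (congrArg _ k.1))
        · linarith [a1.2, k.1])
  refine h (unic (fun g hg => ?_) a1 b1 a2 b2 e)
  let K : Set (ℝ × ℂ) := Icc 0 1 ×ˢ closedBall 0 1
  have kv : Convex ℝ K := (convex_Icc 0 1).prod cv
  have := kv.locallyPathConnectedSpace
  have := kv.contractibleSpace ⟨(0, 0), by simp [K]⟩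
  have : CompactSpace K :=
    isCompact_iff_compactSpace.1 (isCompact_Icc.prod (isCompact_closedBall _ _))
  let q : K → range f0 := fun k => f (k.1.1, p ⟨k.1.2, k.2.2⟩)
  have qc : Continuous q := by fun_prop
  have qs : Function.Surjective q := by
    rintro ⟨_, x, rfl⟩
    obtain ⟨z, hz | hz⟩ := sur x.2
    · obtain ⟨t, t1, t2⟩ := AddCircle.eq_coe_Ico x.1
      exact ⟨⟨(t, z.1), ⟨t1.1, t1.2.le⟩, z.2⟩, congrArg f (Prod.ext t2 hz)⟩
    · obtain ⟨t, t1, t2⟩ := AddCircle.eq_coe_Ico (-x.1)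
      exact ⟨⟨(t, z.1), ⟨t1.1, t1.2.le⟩, z.2⟩, (fs _).symm.trans
        (congrArg f (Prod.ext (neg_eq_iff_eq_neg.2 t2) hz))⟩
  obtain ⟨k0⟩ : Nonempty K := inferInstance
  obtain ⟨r, hr⟩ := QuotientAddGroup.mk_surjective (g (q k0))
  obtain ⟨G, ⟨-, hG⟩, -⟩ := (AddCircle.isCoveringMap_coe (1 : ℝ)).existsUnique_continuousMap_lifts
    ⟨g ∘ q, hg.comp qc⟩ k0 r hr
  have G1 : ∀ k, (G k : UnitAddCircle) = g (q k) := congrFun hG
  let ρ : K → K := fun k => ⟨(1 - k.1.1, -k.1.2), ⟨by linarith [k.2.1.2], by linarith [k.2.1.1]⟩,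
    by simpa using k.2.2⟩
  have ρρ : ∀ k, ρ (ρ k) = k := fun k => Subtype.ext (by simp [ρ])
  have e1 : ∀ k : K, ‖k.1.2‖ = 1 → G (ρ k) = G k := fun k hk => by
    have := cst (s := {k : K | ‖k.1.2‖ = 1}) (IsInducing.subtypeVal.isPreconnected_image.1 (by
      convert (isPreconnected_Icc (a := (0 : ℝ)) (b := 1)).prod (isPreconnected_sphere
        (by simp : 1 < Module.rank ℝ ℂ) 0 1)
      exact Subset.antisymm (by rintro _ ⟨k, hk, rfl⟩; exact ⟨k.2.1, by simpa using hk⟩)
        fun k hk => ⟨⟨k, hk.1, sphere_subset_closedBall hk.2⟩, by simpa using hk.2, rfl⟩))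
      (a := G ∘ ρ) (b := G) (by fun_prop) (by fun_prop) (fun k hk => by
        rw [Function.comp, G1, G1]
        exact congrArg g ((fs _).symm.trans (congrArg f (Prod.ext (by simp [σ, ρ]) (Subtype.ext
          (by simp [σ, ρ, τ, p, show ‖k.1.2‖ = 1 from hk])))))) (x := k) (y := ρ k) hk
      (by simpa [ρ] using hk)
    simp only [Function.comp, ρρ] at this
    linarith
  have e2 : ∀ z : closedBall (0 : ℂ) 1, G ⟨(1, z.1), by simp, z.2⟩ = G ⟨(0, z.1), by simp, z.2⟩ :=
    fun z => by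
    have k := fun x y => cst (s := univ) isPreconnected_univ (x := x) (y := y)
      (a := fun z : closedBall (0 : ℂ) 1 => G ⟨(1, z.1), by simp, z.2⟩)
      (b := fun z => G ⟨(0, z.1), by simp, z.2⟩) (by fun_prop) (by fun_prop)
      (fun z _ => by simp [G1, q, AddCircle.coe_period]) trivial trivial
    have k1 := k z ⟨1, by simp⟩
    have k2 := k z ⟨-1, by simp⟩
    have k3 := e1 ⟨(0, 1), by simp [K]⟩ (by simp)
    have k4 := e1 ⟨(0, -1), by simp [K]⟩ (by simp)
    simp only [ρ, sub_zero, neg_neg] at k3 k4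
    linarith
  have e3 : ∀ k l : K, (k.1.1 : UnitAddCircle) = l.1.1 → k.1.2 = l.1.2 → G k = G l := by
    rintro ⟨⟨s, z⟩, h1, h2⟩ ⟨⟨t, _⟩, h3, h4⟩ k rfl
    rcases per h1 h3 k with rfl | ⟨rfl, rfl⟩ | ⟨rfl, rfl⟩
    exacts [rfl, (e2 ⟨z, h2⟩).symm, e2 ⟨z, h2⟩]
  have e4 : ∀ k l, q k = q l → G k = G l := fun k l h => by
    rcases f2 _ _ h with h | h
    · exact e3 k l (congrArg (·.1) h) (congrArg (·.2.1.1) h)
    · have h1 : k.1.2 = -l.1.2 := congrArg (·.2.1.1) h
      have h2 : 1 - ‖k.1.2‖ = -(1 - ‖l.1.2‖) := congrArg (·.2.1.2) h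
      rw [h1, norm_neg] at h2
      exact (e3 k (ρ l) ((congrArg (·.1) h).trans (by simp [σ, ρ, AddCircle.coe_period])) h1).trans (e1 l (by linarith))
  refine ⟨fun y => G (Function.surjInv qs y), (qc.isClosedMap.isQuotientMap qc qs).continuous_iff.2
    (G.continuous.congr fun k => e4 _ _ (Function.surjInv_eq qs _).symm), fun y => ?_⟩
  rw [G1, Function.surjInv_eq qs]

end Pool.Agent.S13710
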