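import Pool.Statements.S13718
-- import your own Pool.Agent.* helpers here

set_option autoImplicit false
open Pool Pool.MP_a761c9_gt

namespace Pool.Agent.S13718

open MeasureTheory Set

abbrev E := EuclideanSpace ℝ (Fin 2)

noncomputable def h (K : Set E) (v : E) : ℝ := sSup ((fun y : E => @inner ℝ E _ y v) '' K)

theorem hmax {K : Set E} (c : IsCompact K) (n : K.Nonempty) (v : E) :
    IsGreatest ((fun y : E => @inner ℝ E _ y v) '' K) (h K v) :=
  (c.image (by fun_prop)).isGreatest_sSup (n.image _)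

theorem hle {K : Set E} (c : IsCompact K) {y} (hy : y ∈ K) (v : E) : inner ℝ y v ≤ h K v :=
  (hmax c ⟨y, hy⟩ v).2 ⟨y, hy, rfl⟩

theorem gauss : Integrable fun v : E => ‖v‖ * Real.exp (-‖v‖ ^ 2) := by
  have := (GaussianFourier.integrable_cexp_neg_mul_sq_norm_add (V := E) (b := 1 / 2) (by norm_num) 0 0).norm
  refine this.mono' (by fun_prop) (ae_of_all _ fun v => ?_)
  have e : (-(1 / 2 : ℂ) * (‖v‖ : ℂ) ^ 2 + 0 * (inner ℝ (0 : E) v : ℝ)) = ((-(1 / 2) * ‖v‖ ^ 2 : ℝ) : ℂ) := by push_cast; ring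
  rw [e, ← Complex.ofReal_exp, Complex.norm_real, Real.norm_of_nonneg (by positivity), Real.norm_of_nonneg (by positivity),
    show -(1 / 2) * ‖v‖ ^ 2 = ‖v‖ ^ 2 / 2 + -‖v‖ ^ 2 by ring, Real.exp_add]
  gcongr
  nlinarith [Real.add_one_le_exp (‖v‖ ^ 2 / 2), sq_nonneg (‖v‖ - 1)]

theorem hint {K : Set E} (c : IsCompact K) (n : K.Nonempty) {f : ℝ → ℝ} (hf : Continuous f) (hb : ∀ t, |f t| ≤ |t|) :
    Integrable fun v : E => f (h K v) * Real.exp (-‖v‖ ^ 2) := by
  obtain ⟨R, hR⟩ := c.isBounded.exists_norm_le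
  have l : ∀ v w, h K v ≤ h K w + R * ‖v - w‖ := fun v w => by
    obtain ⟨y, hy, e⟩ := (hmax c n v).1
    have := hle c hy w
    have a := real_inner_le_norm y (v - w)
    have := mul_le_mul_of_nonneg_right (hR y hy) (norm_nonneg (v - w))
    rw [inner_sub_right] at a
    simp only at e; linarith
  have z : h K 0 = 0 := by obtain ⟨y, -, e⟩ := (hmax c n 0).1; simpa using e.symm
  have ct : Continuous (h K) := (LipschitzWith.of_le_add_mul' R fun v w => by rw [dist_eq_norm]; exact l v w).continuous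
  refine (gauss.const_mul R).mono' (by fun_prop) (ae_of_all _ fun v => ?_)
  rw [norm_mul, Real.norm_of_nonneg (Real.exp_pos _).le, ← mul_assoc]
  gcongr
  have a := l v 0; have b := l 0 v
  simp only [z, sub_zero, zero_sub, norm_neg] at a b
  exact (hb _).trans (abs_le.2 ⟨by linarith, by linarith⟩)

noncomputable def P (K : Set E) : ℝ := ∫ v : E, max (h K v) 0 * Real.exp (-‖v‖ ^ 2)
noncomputable def N (K : Set E) : ℝ := ∫ v : E, max (-h K v) 0 * Real.exp (-‖v‖ ^ 2)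
noncomputable def lam (K : Set E) : ℝ := 1 - N K / P K
def A (K : Set E) : Set E := (fun p : ℝ × E => p.1 • p.2) '' Icc 0 (lam K) ×ˢ K
def D (K : Set E) : Set E := (fun p : E × E => (1 / 2 : ℝ) • (p.1 - p.2)) '' A K ×ˢ A K

section
variable {K L : Set E} (c : IsCompact K) (n : K.Nonempty)
include c n

theorem iP : Integrable fun v : E => max (h K v) 0 * Real.exp (-‖v‖ ^ 2) :=
  hint c n (f := fun t => max t 0) (by fun_prop) fun t => by grind
theorem iN : Integrable fun v : E => max (-h K v) 0 * Real.exp (-‖v‖ ^ 2) :=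
  hint c n (f := fun t => max (-t) 0) (by fun_prop) fun t => by grind

omit c n in
theorem P_neg : ∫ v : E, max (h K (-v)) 0 * Real.exp (-‖v‖ ^ 2) = P K := by
  simpa [P] using integral_neg_eq_self (fun v : E => max (h K v) 0 * Real.exp (-‖v‖ ^ 2)) volume

theorem iP' : Integrable fun v : E => max (h K (-v)) 0 * Real.exp (-‖v‖ ^ 2) := by
  simpa using (iP c n).comp_neg

omit c n in
theorem N0 : 0 ≤ N K := integral_nonneg fun v => by positivity

theorem NP : N K ≤ P K := by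
  rw [← P_neg]
  refine integral_mono (iN c n) (iP' c n) fun v => ?_
  obtain ⟨y, hy⟩ := n
  have a := hle c hy v; have b := hle c hy (-v)
  rw [inner_neg_right] at b
  simp only; gcongr; linarith

theorem lam0 : 0 ≤ lam K := sub_nonneg.2 (div_le_one_of_le₀ (NP c n) (N0.trans (NP c n)))

theorem lam_mono (c' : IsCompact L) (s : K ⊆ L) : lam K ≤ lam L := by
  have n' := n.mono s
  have m : ∀ v, h K v ≤ h L v := fun v => by obtain ⟨y, hy, e⟩ := (hmax c n v).1; exact e ▸ hle c' (s hy) v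
  have a : P K ≤ P L := integral_mono (iP c n) (iP c' n') fun v => by simp only; gcongr; exact m v
  have b : N L ≤ N K := integral_mono (iN c' n') (iN c n) fun v => by simp only; gcongr; exact m v
  refine sub_le_sub_left ?_ _
  rcases (N0.trans (NP c n)).eq_or_lt with e | e
  · have : N L = 0 := by linarith [NP c n, N0 (K := L)]
    simp [this, ← e]
  · exact div_le_div₀ N0 b e a

theorem hD (v : E) : h (D K) v = lam K * ((max (h K v) 0 + max (h K (-v)) 0) / 2) := by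
  have l := lam0 c n
  have k : ∀ v, IsGreatest ((fun y : E => @inner ℝ E _ y v) '' A K) (lam K * max (h K v) 0) := fun v => by
    obtain ⟨y, hy, e⟩ := (hmax c n v).1
    refine ⟨?_, ?_⟩
    · rcases le_total (h K v) 0 with a | a
      · exact ⟨_, ⟨(0, y), ⟨⟨le_rfl, l⟩, hy⟩, rfl⟩, by simp [a]⟩
      · exact ⟨_, ⟨(lam K, y), ⟨⟨l, le_rfl⟩, hy⟩, rfl⟩, by simp only at e; simp [a, inner_smul_left, e]⟩
    · rintro _ ⟨_, ⟨⟨s, z⟩, ⟨⟨s0, s1⟩, hz⟩, rfl⟩, rfl⟩
      simp only [inner_smul_left, conj_trivial]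
      exact (mul_le_mul_of_nonneg_left ((hle c hz v).trans (le_max_left _ 0)) s0).trans
        (mul_le_mul_of_nonneg_right s1 (le_max_right _ _))
  refine IsGreatest.csSup_eq ⟨?_, ?_⟩
  · obtain ⟨y, hy, e⟩ := (k v).1
    obtain ⟨z, hz, e'⟩ := (k (-v)).1
    refine ⟨_, ⟨(y, z), ⟨hy, hz⟩, rfl⟩, ?_⟩
    simp only [inner_smul_left, inner_sub_left, inner_neg_right, conj_trivial] at e e' ⊢
    linarith
  · rintro _ ⟨_, ⟨⟨y, z⟩, ⟨hy, hz⟩, rfl⟩, rfl⟩
    have a := (k v).2 ⟨y, hy, rfl⟩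
    have b := (k (-v)).2 ⟨z, hz, rfl⟩
    simp only [inner_smul_left, inner_sub_left, inner_neg_right, conj_trivial] at a b ⊢
    linarith

theorem WD : ∫ v : E, h (D K) v * Real.exp (-‖v‖ ^ 2) = ∫ v : E, h K v * Real.exp (-‖v‖ ^ 2) := by
  have a : ∫ v : E, h K v * Real.exp (-‖v‖ ^ 2) = P K - N K := by
    rw [P, N, ← integral_sub (iP c n) (iN c n)]
    congr 1; ext v; rw [← sub_mul]; congr 1; grind
  have b : ∫ v : E, h (D K) v * Real.exp (-‖v‖ ^ 2) = lam K / 2 * (P K + P K) := by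
    nth_rw 2 [← P_neg]
    rw [P, ← integral_add (iP c n) (iP' c n), ← integral_const_mul]
    congr 1; ext v; rw [hD c n]; ring
  rw [a, b, lam]
  rcases eq_or_ne (P K) 0 with e | e
  · have : N K = 0 := by linarith [NP c n, N0 (K := K)]
    simp [e, this]
  · field_simp; ring
end

theorem result :
    ¬ (∀ (n i : ℕ), i < n →
  ∀ (H : Submodule ℝ (EuclideanSpace ℝ (Fin n))), Module.finrank ℝ H = i →
  ∀ (b : Bool) (D : Set (EuclideanSpace ℝ (Fin n)) → Set (EuclideanSpace ℝ (Fin n))),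
  (∀ K : Set (EuclideanSpace ℝ (Fin n)),
      (IsCompact K ∧ Convex ℝ K ∧ K.Nonempty ∧ (b = true → (interior K).Nonempty)) →
      ((IsCompact (D K) ∧ Convex ℝ (D K) ∧ (D K).Nonempty ∧
          (b = true → (interior (D K)).Nonempty)) ∧
        (∀ x ∈ D K, ∀ y ∈ H, ∀ z ∈ Hᗮ, x = y + z → y - z ∈ D K))) →
  (∀ K L : Set (EuclideanSpace ℝ (Fin n)),
      (IsCompact K ∧ Convex ℝ K ∧ K.Nonempty ∧ (b = true → (interior K).Nonempty)) →
      (IsCompact L ∧ Convex ℝ L ∧ L.Nonempty ∧ (b = true → (interior L).Nonempty)) →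
      K ⊆ L → D K ⊆ D L) →
  (∀ K : Set (EuclideanSpace ℝ (Fin n)),
      (IsCompact K ∧ Convex ℝ K ∧ K.Nonempty ∧ (b = true → (interior K).Nonempty)) →
      (∫ v : EuclideanSpace ℝ (Fin n),
          sSup ((fun y : EuclideanSpace ℝ (Fin n) =>
              @inner ℝ (EuclideanSpace ℝ (Fin n)) _ y v) '' D K) * Real.exp (-‖v‖ ^ 2)) =
        ∫ v : EuclideanSpace ℝ (Fin n),
          sSup ((fun y : EuclideanSpace ℝ (Fin n) =>
              @inner ℝ (EuclideanSpace ℝ (Fin n)) _ y v) '' K) * Real.exp (-‖v‖ ^ 2)) →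
  (∀ K : Set (EuclideanSpace ℝ (Fin n)),
      (IsCompact K ∧ Convex ℝ K ∧ K.Nonempty ∧ (b = true → (interior K).Nonempty)) →
      (∀ x ∈ K, ∀ y ∈ H, ∀ z ∈ Hᗮ, x = y + z → y - z ∈ K) →
      D K = K) →
  ∀ K : Set (EuclideanSpace ℝ (Fin n)),
    (IsCompact K ∧ Convex ℝ K ∧ K.Nonempty ∧ (b = true → (interior K).Nonempty)) →
    (∀ x ∈ K, ∀ y ∈ H, ∀ z ∈ Hᗮ, x = y + z → y - z ∈ K) →
    ∀ x ∈ Hᗮ, D ((fun y : EuclideanSpace ℝ (Fin n) => y + x) '' K) = K) := by
  intro H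
  have := H 2 0 two_pos ⊥ (finrank_bot ℝ _) false D ?_ ?_ (fun K hK => WD hK.1 hK.2.2.1) ?_
    (segment ℝ (-EuclideanSpace.single 0 1) (EuclideanSpace.single 0 1))
    ⟨by rw [segment_eq_image]; exact isCompact_Icc.image (by fun_prop), convex_segment _ _,
      ⟨_, left_mem_segment _ _ _⟩, by simp⟩ ?_ (EuclideanSpace.single 1 1) (by simp)
  · set K := (fun y : E => y + EuclideanSpace.single 1 1) ''
      segment ℝ (-EuclideanSpace.single (0 : Fin 2) (1 : ℝ)) (EuclideanSpace.single 0 1) with hK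
    have c : IsCompact K := by
      rw [hK, segment_eq_image]; exact (isCompact_Icc.image (by fun_prop)).image (by fun_prop)
    have m : EuclideanSpace.single 0 1 + EuclideanSpace.single 1 1 ∈ K := ⟨_, right_mem_segment _ _ _, rfl⟩
    have l := lam0 c ⟨_, m⟩
    obtain ⟨a, b, -, -, -, e⟩ := this.subset ⟨(_, _), ⟨⟨(lam K, _), ⟨⟨l, le_rfl⟩, m⟩, rfl⟩, ⟨(0, _), ⟨⟨le_rfl, l⟩, m⟩, rfl⟩⟩, rfl⟩
    have e := congrArg (· 1) e
    simp at e
    obtain ⟨⟨_, _⟩, ⟨⟨⟨s, y⟩, ⟨⟨s0, s1⟩, -⟩, rfl⟩, ⟨⟨t, z⟩, ⟨⟨t0, t1⟩, -⟩, rfl⟩⟩, e'⟩ := this.superset (right_mem_segment _ _ _)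
    obtain rfl : s = 0 := by simp only at s0 s1; linarith
    obtain rfl : t = 0 := by simp only at t0 t1; linarith
    simpa using congrArg (· 0) e'
  · rintro K ⟨c, v, n, -⟩
    have cA : IsCompact (A K) := (isCompact_Icc.prod c).image (by fun_prop)
    have vA : Convex ℝ (A K) := by
      rintro _ ⟨⟨s, y⟩, ⟨hs, hy⟩, rfl⟩ _ ⟨⟨t, z⟩, ⟨ht, hz⟩, rfl⟩ a b ha hb hab
      obtain ⟨w, hw, e⟩ := v.exists_mem_add_smul_eq hy hz (mul_nonneg ha hs.1) (mul_nonneg hb ht.1)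
      exact ⟨(_, w), ⟨convex_Icc _ _ hs ht ha hb hab, hw⟩, by simpa [smul_smul] using e⟩
    obtain ⟨y, hy⟩ := n
    have nA : (A K).Nonempty := ⟨_, (0, y), ⟨⟨le_rfl, lam0 c ⟨y, hy⟩⟩, hy⟩, rfl⟩
    refine ⟨⟨(cA.prod cA).image (by fun_prop), (vA.prod vA).linear_image
      ((1 / 2 : ℝ) • (LinearMap.fst ℝ E E - LinearMap.snd ℝ E E)), (nA.prod nA).image _, by simp⟩, ?_⟩
    rintro _ ⟨⟨p, q⟩, ⟨hp, hq⟩, rfl⟩ y rfl z - e
    exact ⟨(q, p), ⟨hq, hp⟩, by simp only [zero_add] at e; rw [← e]; module⟩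
  · rintro K L ⟨c, -, n, -⟩ ⟨c', -⟩ s
    have : A K ⊆ A L := image_mono (prod_mono (Icc_subset_Icc_right (lam_mono c n c' s)) s)
    exact image_mono (prod_mono this this)
  · rintro K ⟨c, v, ⟨y, hy⟩, -⟩ s
    have s : ∀ x ∈ K, -x ∈ K := fun x hx => by simpa using s x hx 0 (by simp) x (by simp) (by simp)
    have z : (0 : E) ∈ K := by simpa using v hy (s y hy) (by norm_num : (0 : ℝ) ≤ 1 / 2) (by norm_num) (add_halves 1)
    have l : lam K = 1 := by
      have : N K = 0 := by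
        rw [N, ← integral_zero E ℝ]; congr 1; ext w
        have := hle c z w
        simp at this; simp [this]
      simp [lam, this]
    have a : A K = K := by
      rw [A, l]
      refine Subset.antisymm ?_ fun x hx => ⟨(1, x), ⟨by simp, hx⟩, by simp⟩
      rintro _ ⟨⟨t, x⟩, ⟨ht, hx⟩, rfl⟩
      exact v.smul_mem_of_zero_mem z hx ht
    rw [D, a]
    refine Subset.antisymm ?_ fun x hx => ⟨(x, -x), ⟨hx, s x hx⟩, by simp only; module⟩
    rintro _ ⟨⟨p, q⟩, ⟨hp, hq⟩, rfl⟩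
    convert v hp (s q hq) (by norm_num : (0 : ℝ) ≤ 1 / 2) (by norm_num) (add_halves 1) using 1
    simp only; module
  · rintro _ ⟨a, b, ha, hb, hab, rfl⟩ y rfl z - e
    exact ⟨b, a, hb, ha, by linarith, by simp only [zero_add] at e; rw [← e]; module⟩

end Pool.Agent.S13718
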