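import Pool.Statements.S13721
import Pool.Agent.Lib.helper22.APC2

set_option autoImplicit false
open Pool Pool.MP_a813f9_gt

namespace Pool.Agent.S13721

theorem result :
  ∀ (G H : Type) [Group G] [Group H] [Countable G] [Countable H]
    (f : G →* H) (dG : G → G → ℝ) (dH : H → H → ℝ),
    (∀ x, dG x x = 0) → (∀ x y, dG x y = dG y x) →
    (∀ x y z, dG x z ≤ dG x y + dG y z) → (∀ x y, dG x y = 0 → x = y) →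
    (∀ g x y, dG (g * x) (g * y) = dG x y) → (∀ r : ℝ, Set.Finite {x : G | dG 1 x ≤ r}) →
    (∀ x, dH x x = 0) → (∀ x y, dH x y = dH y x) →
    (∀ x y z, dH x z ≤ dH x y + dH y z) → (∀ x y, dH x y = 0 → x = y) →
    (∀ g x y, dH (g * x) (g * y) = dH x y) → (∀ r : ℝ, Set.Finite {x : H | dH 1 x ≤ r}) →
    (∀ R : ℕ → ℝ, (∀ i, 0 < R i) → ∃ n : ℕ, ∃ U : ℕ → Set (Set H),
      (∀ i < n, ∃ B : ℝ, ∀ V ∈ U i, ∀ x ∈ V, ∀ y ∈ V, dH x y ≤ B) ∧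
      (∀ i < n, ∀ V ∈ U i, ∀ W ∈ U i, V ≠ W → ∀ x ∈ V, ∀ y ∈ W, R i < dH x y) ∧
      (∀ x : H, ∃ i < n, ∃ V ∈ U i, x ∈ V)) →
    (∀ R : ℕ → ℝ, (∀ i, 0 < R i) → ∃ n : ℕ, ∃ U : ℕ → Set (Set G),
      (∀ i < n, ∀ V ∈ U i, V ⊆ (f.ker : Set G)) ∧
      (∀ i < n, ∃ B : ℝ, ∀ V ∈ U i, ∀ x ∈ V, ∀ y ∈ V, dG x y ≤ B) ∧
      (∀ i < n, ∀ V ∈ U i, ∀ W ∈ U i, V ≠ W → ∀ x ∈ V, ∀ y ∈ W, R i < dG x y) ∧
      (∀ x ∈ (f.ker : Set G), ∃ i < n, ∃ V ∈ U i, x ∈ V)) →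
    (∀ R : ℕ → ℝ, (∀ i, 0 < R i) → ∃ n : ℕ, ∃ U : ℕ → Set (Set G),
      (∀ i < n, ∃ B : ℝ, ∀ V ∈ U i, ∀ x ∈ V, ∀ y ∈ V, dG x y ≤ B) ∧
      (∀ i < n, ∀ V ∈ U i, ∀ W ∈ U i, V ≠ W → ∀ x ∈ V, ∀ y ∈ W, R i < dG x y) ∧
      (∀ x : G, ∃ i < n, ∃ V ∈ U i, x ∈ V)) := by
  intro G H _ _ _ _ f dG dH _ _ _ _ hGi hGp _ _ _ _ hHi hHp hH hK R _
  have h1 : Lib.helper22.APC.APC H := Lib.helper22.APC.apc_of_metric dH hHi hHp hH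
  have h2 : Lib.helper22.APC.APC f.ker := by
    refine Lib.helper22.APC.apc_of_metric (fun x y : f.ker => dG x y)
      (fun g x y => hGi g x y) (fun r => ?_) ?_
    · exact (hGp r).preimage (f := fun x : f.ker => (x : G)) Subtype.val_injective.injOn
    · intro R hR
      obtain ⟨n, U, hs, hb, hd, hc⟩ := hK R hR
      refine ⟨n, fun i => {V | ∃ W ∈ U i, V = Subtype.val ⁻¹' W}, ?_, ?_, ?_⟩
      · intro i hi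
        obtain ⟨B, hB⟩ := hb i hi
        refine ⟨B, ?_⟩
        rintro V ⟨W, hW, rfl⟩ x hx y hy
        exact hB W hW x hx y hy
      · rintro i hi V ⟨W, hW, rfl⟩ V' ⟨W', hW', rfl⟩ hne x hx y hy
        exact hd i hi W hW W' hW' (fun h => hne (by rw [h])) x hx y hy
      · intro x
        obtain ⟨i, hi, V, hV, hx⟩ := hc x x.2
        exact ⟨i, hi, _, ⟨V, hV, rfl⟩, hx⟩
  obtain ⟨n, U, B, hb, hd, hc⟩ :=
    Lib.helper22.APC.metric_of_apc dG hGi hGp (Lib.helper22.APC.ext f h1 h2) R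
  exact ⟨n, U, fun i hi => ⟨B, hb i hi⟩, hd, hc⟩

end Pool.Agent.S13721
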