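import Pool.Statements.S13724
import Pool.Agent.H.MP_a8721e_gt.B

set_option autoImplicit false
open Pool Pool.MP_a8721e_gt

namespace Pool.Agent.S13724
open Set Filter Topology Pool.Agent.H.MP_a8721e_gt

theorem result :
    ¬ (∀ (X : Type) [TopologicalSpace X], T2Space X → CompactSpace X →
      TopologicalSpace.IsTopologicalBasis {s : Set X | IsClopen s} →
      (∀ x y : X, ∃ h : X ≃ₜ X, h x = y) →
      ∀ U : Set (X → X), U ∈ nhds (id : X → X) →
        ∃ F : Set (X → X), F.Finite ∧ (∀ g ∈ F, Continuous g) ∧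
          ∀ f : X → X, Continuous f →
            ∃ g ∈ F, ∃ u ∈ U, Continuous u ∧ f = g ∘ u) := by
  intro H
  obtain ⟨t, ht, ha⟩ := ex_t
  let e : ℕ → K := fun n => Pi.single n 1
  let O : Set (X t) := {p | π p 0 = 0}
  have hO : IsClopen O := (isClopen_discrete {(0 : ZMod 3)}).preimage ((continuous_apply 0).comp cπ)
  obtain ⟨F, F1, F2, F3⟩ := H (X t) inferInstance inferInstance isTopologicalBasis_isClopen
    (fun p q => by
      obtain ⟨u, u1, u2, u3⟩ := homog ht p q
      exact ⟨Continuous.homeoOfEquivCompactToT2 (f := Equiv.ofBijective u ⟨u2, surj ha u1 u2⟩) u1, u3⟩)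
    ((fun u => u (mk t 0 true)) ⁻¹' O ∩ (fun u => u (mk t (e 0) true)) ⁻¹' Oᶜ) (inter_mem
      ((hO.isOpen.preimage (continuous_apply (mk t 0 true))).mem_nhds (show (0 : ZMod 3) = 0 from rfl))
      ((hO.compl.isOpen.preimage (continuous_apply (mk t (e 0) true))).mem_nhds
        (show ¬ (1 : ZMod 3) = 0 by decide)))
  let ψ : ℕ → K → K := fun n x => x ∘ Equiv.swap 0 n
  have ψi : ∀ n, Function.Injective (ψ n) := fun n => (Equiv.swap 0 n).surjective.injective_comp_right
  have gc : ∀ n, Continuous (L t (ψ n) fun _ => false) := fun n =>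
    L_cont (continuous_pi fun i => continuous_apply _) (ψi n) fun v => by
      simp only [Bool.xor_false]
      refine H_loc ht (n + 1) fun x hx => ⟨fun j hj => hx _ ?_, fun j hj => ?_⟩
      · rw [Equiv.swap_apply_def]; split_ifs <;> omega
      · simp only [ψ, Function.comp, Equiv.swap_apply_of_ne_of_ne (show j ≠ 0 by omega) (show j ≠ n by omega)]
  have g0 : ∀ n, L t (ψ n) (fun _ => false) (mk t 0 true) = mk t 0 true := fun n => ext' rfl (by simp [L])
  have g1 : ∀ n, L t (ψ n) (fun _ => false) (mk t (e 0) true) = mk t (e n) true := fun n =>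
    ext' (funext fun i => by
      simp only [L, π_mk, ψ, e, Function.comp, Pi.single_apply, Equiv.swap_apply_eq_iff, Equiv.swap_apply_left])
      (by simp [L])
  have lim : Tendsto (fun n => mk t (e (2 * n)) true) atTop (𝓝 (mk t 0 true)) := by
    refine tend (tendsto_pi_nhds.2 fun i => tendsto_const_nhds.congr' ?_) (Eventually.of_forall fun n => ?_)
    · exact (eventually_gt_atTop i).mono fun n hn => by simp [e, show i ≠ 2 * n by omega]
    · have h1 : e (2 * n) (2 * n) ≠ (0 : K) (2 * n) := by
        simp only [e, Pi.single_eq_same, Pi.zero_apply]; decide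
      rw [π_mk, co_ne (p := mk t (e (2 * n)) true) fun h => h1 (congrFun h _), π_mk,
        R_eq (n := 2 * n) _ (fun j hj => by simp [e, hj.ne]) h1]
      simp [e, s]
  obtain ⟨f, f1, f2⟩ := (frequently_exists_finite F1).1 ((Eventually.of_forall fun n =>
    F3 _ (gc (2 * n))).frequently (f := atTop))
  obtain ⟨n, u, u1, u2, u3⟩ := f2.exists
  have k : Function.Injective (f ∘ u) := u3 ▸ L_inj _ (ψi _)
  have fi : Function.Injective f := k.of_comp_right (surj ha u2 k.of_comp)
  obtain ⟨p, p1, p2⟩ := (hO.compl.isClosed.isCompact.image (F2 f f1)).isClosed.mem_of_frequently_of_tendsto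
    (f2.mono fun m ⟨v, v1, _, v3⟩ => ⟨_, v1.2, (congrFun v3 _).symm.trans (g1 _)⟩) lim
  exact p1 (fi (p2.trans ((g0 _).symm.trans (congrFun u3 _))) ▸ u1.1)

end Pool.Agent.S13724
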