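import Pool.Statements.S13736
import Pool.Agent.H.MP_aac655_gt.D

set_option autoImplicit false
open scoped Pointwise
open Pool Pool.MP_aac655_gt

namespace Pool.Agent.S13736

theorem result :
    ¬ (∀ (n : ℕ), 2 ≤ n → ∀ (m : ℕ)
    (ρ : Matrix.SpecialLinearGroup (Fin n) ℝ →* Matrix.GeneralLinearGroup (Fin m) ℝ),
    Continuous (fun A : {A : Matrix (Fin n) (Fin n) ℝ // A.det = 1} =>
      (ρ (⟨A.1, A.2⟩ : Matrix.SpecialLinearGroup (Fin n) ℝ)).val) →
    0 < m →
    (∀ U : Submodule ℝ (Fin m → ℝ),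
      (∀ T : Matrix.SpecialLinearGroup (Fin n) ℝ, ∀ w ∈ U, Matrix.mulVec (ρ T).val w ∈ U) →
      U = ⊥ ∨ U = ⊤) →
    (∃ Φ : Set (Fin n → ℝ) → Set (Fin m → ℝ),
      (∀ K : Set (Fin n → ℝ), IsCompact K → Convex ℝ K → (0 : Fin n → ℝ) ∈ interior K →
        (Φ K).Nonempty ∧ IsCompact (Φ K) ∧ Convex ℝ (Φ K)) ∧
      (∀ (T : Matrix.SpecialLinearGroup (Fin n) ℝ) (K : Set (Fin n → ℝ)),
        IsCompact K → Convex ℝ K → (0 : Fin n → ℝ) ∈ interior K →
        Matrix.mulVec (ρ T).val ''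
          Φ (Matrix.mulVec ((T⁻¹ : Matrix.SpecialLinearGroup (Fin n) ℝ) :
              Matrix (Fin n) (Fin n) ℝ) '' K) = Φ K) ∧
      (∀ K L : Set (Fin n → ℝ),
        IsCompact K → Convex ℝ K → (0 : Fin n → ℝ) ∈ interior K →
        IsCompact L → Convex ℝ L → (0 : Fin n → ℝ) ∈ interior L →
        Convex ℝ (K ∪ L) → Φ (K ∪ L) + Φ (K ∩ L) = Φ K + Φ L) ∧
      (∃ K : Set (Fin n → ℝ), IsCompact K ∧ Convex ℝ K ∧ (0 : Fin n → ℝ) ∈ interior K ∧
        Φ K ≠ {0}) ∧
      (∀ D : Set (Fin m → ℝ), IsCompact D → Convex ℝ D → (0 : Fin m → ℝ) ∈ interior D →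
        ∀ (Ks : ℕ → Set (Fin n → ℝ)) (K : Set (Fin n → ℝ)),
          (∀ j, IsCompact (Ks j) ∧ Convex ℝ (Ks j) ∧ (0 : Fin n → ℝ) ∈ interior (Ks j)) →
          IsCompact K → Convex ℝ K → (0 : Fin n → ℝ) ∈ interior K →
          Filter.Tendsto (fun j => Metric.hausdorffDist (Ks j) K) Filter.atTop (nhds 0) →
          ∃ j0 : ℕ, ∀ j, j0 ≤ j → Φ (Ks j) ⊆ Φ K + D) ∧
      ¬ (∀ (Ks : ℕ → Set (Fin n → ℝ)) (K : Set (Fin n → ℝ)),
          (∀ j, IsCompact (Ks j) ∧ Convex ℝ (Ks j) ∧ (0 : Fin n → ℝ) ∈ interior (Ks j)) →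
          IsCompact K → Convex ℝ K → (0 : Fin n → ℝ) ∈ interior K →
          Filter.Tendsto (fun j => Metric.hausdorffDist (Ks j) K) Filter.atTop (nhds 0) →
          Filter.Tendsto (fun j => Metric.hausdorffDist (Φ (Ks j)) (Φ K))
            Filter.atTop (nhds 0))) →
    ∃ p : ℕ,
      (∃ e : (Fin m → ℝ) ≃ₗ[ℝ] MvPolynomial.homogeneousSubmodule (Fin n) ℝ p,
        ∀ (T : Matrix.SpecialLinearGroup (Fin n) ℝ) (w : Fin m → ℝ),
          ((e (Matrix.mulVec (ρ T).val w) : MvPolynomial.homogeneousSubmodule (Fin n) ℝ p) :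
              MvPolynomial (Fin n) ℝ) =
            MvPolynomial.bind₁
              (fun i : Fin n => (∑ j : Fin n,
                MvPolynomial.C (((T : Matrix.SpecialLinearGroup (Fin n) ℝ) :
                  Matrix (Fin n) (Fin n) ℝ) j i) * MvPolynomial.X j : MvPolynomial (Fin n) ℝ))
              ((e w : MvPolynomial.homogeneousSubmodule (Fin n) ℝ p) : MvPolynomial (Fin n) ℝ)) ∨
      (∃ e : (Fin m → ℝ) ≃ₗ[ℝ] MvPolynomial.homogeneousSubmodule (Fin n) ℝ p,
        ∀ (T : Matrix.SpecialLinearGroup (Fin n) ℝ) (w : Fin m → ℝ),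
          ((e (Matrix.mulVec (ρ T).val w) : MvPolynomial.homogeneousSubmodule (Fin n) ℝ p) :
              MvPolynomial (Fin n) ℝ) =
            MvPolynomial.bind₁
              (fun i : Fin n => (∑ j : Fin n,
                MvPolynomial.C (((T⁻¹ : Matrix.SpecialLinearGroup (Fin n) ℝ) :
                  Matrix (Fin n) (Fin n) ℝ) i j) * MvPolynomial.X j : MvPolynomial (Fin n) ℝ))
              ((e w : MvPolynomial.homogeneousSubmodule (Fin n) ℝ p) : MvPolynomial (Fin n) ℝ))) := by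
  open Pool.Agent.H.MP_aac655_gt Matrix in
  intro h
  have e01 : ι (Pi.single 2 1) = single 0 1 1 := by
    ext i j; fin_cases i <;> fin_cases j <;> simp [ι]
  have ne : Φ B ≠ {0} := C_ne body_B.sub' (fun _ => H_nonneg _ _) (a := Pi.single 2 1)
    (by simpa only [e01] using H_B)
  have nem : ∀ K, 0 ∈ Φ K := fun K a => by simpa [β] using H_nonneg K (ι a)
  obtain ⟨p, hp⟩ := h 3 (by norm_num) 8 ρ ρ_cont (by norm_num) irr ⟨Φ,
    fun K _ _ _ => ⟨⟨0, nem K⟩, C_cpt _, C_conv _⟩, fun T K a b c => Φ_inv ⟨a, b, c⟩ T,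
    fun K L a b c d e f g => by
      have hK : Body K := ⟨a, b, c⟩
      have hL : Body L := ⟨d, e, f⟩
      rw [Φ, Φ, Φ, Φ, C_add (hK.union hL g).sub' (hK.inter hL).sub', C_add hK.sub' hL.sub']
      simp only [H_val hK hL g],
    ⟨B, body_B.1, body_B.2.1, body_B.2.2, ne⟩,
    fun D _ _ d Ks K hs a b c t => Filter.eventually_atTop.1 (C_usc (fun x ε hε =>
      (cv_of ⟨a, b, c⟩ hs t).usc ⟨a, b, c⟩ hs (Fc _) (fun _ => abs_nonneg _) hε)
      (mem_interior_iff_mem_nhds.1 d)), fun c => by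
      obtain ⟨P, h1, h2⟩ := approx body_B
      have := c P B (fun j => (h1 j).1) body_B.1 body_B.2.1 body_B.2.2 h2
      simp only [show ∀ j, Φ (P j) = {0} from fun j => by
        simp only [Φ, H, (h1 j).2, MeasureTheory.integral_zero_measure, C_zero],
        tendsto_const_nhds_iff] at this
      exact ne ((isClosed_singleton.hausdorffDist_zero_iff_eq (C_cpt _).isClosed
        (Metric.hausdorffEDist_ne_top_of_nonempty_of_bounded (Set.singleton_nonempty _) ⟨0, nem B⟩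
          Bornology.isBounded_singleton (C_cpt _).isBounded)).1 this).symm⟩
  let x : MvPolynomial.homogeneousSubmodule (Fin 3) ℝ p :=
    ⟨MvPolynomial.X 0 ^ p, MvPolynomial.isHomogeneous_X_pow 0 p⟩
  have x0 : x ≠ 0 := fun e => pow_ne_zero p (MvPolynomial.X_ne_zero 0) (congrArg Subtype.val e)
  rcases hp with ⟨e, he⟩ | ⟨e, he⟩
  · refine x0 (e.symm.map_eq_zero_iff.1 (comm (Or.inl fun i j a b => fix a one_ne_zero
      (e.injective (Subtype.ext ((he _ _).trans ?_))))))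
    simp [x, tv, transvection, Fin.sum_univ_three, b]
  · refine x0 (e.symm.map_eq_zero_iff.1 (comm (Or.inr fun i j a b => fix a one_ne_zero
      (e.injective (Subtype.ext ((he _ _).trans ?_))))))
    rw [tv_inv]
    simp [x, tv, transvection, Fin.sum_univ_three, b]

end Pool.Agent.S13736
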