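import Pool.Statements.S13747
-- import your own Pool.Agent.* helpers here

set_option autoImplicit false
universe u
open Pool Pool.MP_acdd99_gt

namespace Pool.Agent.S13747

open Set Topology Filter Cardinal

lemma thin2 {A I : Type*} (S : Set A) (hS : S.Infinite) (u v : A → I) (h : ∀ a ∈ S, u a ≠ v a) :
    ∃ S' ⊆ S, S'.Infinite ∧ ∀ a ∈ S', ∀ b ∈ S', u a ≠ v b := by
  classical
  by_cases h1 : ∃ s, {a | a ∈ S ∧ u a = s}.Infinite
  · obtain ⟨s, hs⟩ := h1
    refine ⟨_, fun a ha => ha.1, hs, fun a ha b hb => ?_⟩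
    rw [ha.2, ← hb.2]
    exact h b hb.1
  by_cases h2 : ∃ s, {a | a ∈ S ∧ v a = s}.Infinite
  · obtain ⟨s, hs⟩ := h2
    refine ⟨_, fun a ha => ha.1, hs, fun a ha b hb => ?_⟩
    rw [hb.2, ← ha.2]
    exact h a ha.1
  push Not at h1 h2
  obtain ⟨f, hf, hr⟩ := exists_seq_of_forall_finset_exists (fun a => a ∈ S)
    (fun a b => a ≠ b ∧ u a ≠ v b ∧ u b ≠ v a) (fun s _ => by
      have hfin : ((s : Set A) ∪ ⋃ a ∈ s, ({b | b ∈ S ∧ u b = v a} ∪ {b | b ∈ S ∧ v b = u a})).Finite :=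
        s.finite_toSet.union (s.finite_toSet.biUnion fun a _ => (h1 _).union (h2 _))
      obtain ⟨y, hy, hy'⟩ := hS.exists_notMem_finite hfin
      refine ⟨y, hy, fun x hx => ⟨?_, ?_, ?_⟩⟩
      · rintro rfl
        exact hy' (Or.inl hx)
      · intro e
        exact hy' (Or.inr (mem_biUnion hx (Or.inr ⟨hy, e.symm⟩)))
      · intro e
        exact hy' (Or.inr (mem_biUnion hx (Or.inl ⟨hy, e⟩))))
  refine ⟨range f, range_subset_iff.2 hf, infinite_range_of_injective fun m n e => ?_, ?_⟩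
  · by_contra hne
    rcases lt_or_gt_of_ne hne with l | l
    · exact (hr _ _ l).1 e
    · exact (hr _ _ l).1 e.symm
  · rintro _ ⟨m, rfl⟩ _ ⟨n, rfl⟩
    rcases lt_trichotomy m n with l | rfl | l
    · exact (hr _ _ l).2.1
    · exact h _ (hf m)
    · exact (hr _ _ l).2.2

lemma thin {A I J : Type*} [Fintype J] (S : Set A) (hS : S.Infinite) (t : A → J → I)
    (h : ∀ a ∈ S, Function.Injective (t a)) :
    ∃ S' ⊆ S, S'.Infinite ∧ ∀ a ∈ S', ∀ b ∈ S', ∀ j j', t a j = t b j' → j = j' := by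
  classical
  have : ∀ P : Finset (J × J), ∃ S' ⊆ S, S'.Infinite ∧ ∀ a ∈ S', ∀ b ∈ S', ∀ p ∈ P,
      t a p.1 = t b p.2 → p.1 = p.2 := by
    intro P
    induction P using Finset.induction_on with
    | empty => exact ⟨S, Subset.rfl, hS, by simp⟩
    | insert p P _ ih =>
      obtain ⟨S1, h1, h2, h3⟩ := ih
      by_cases hp : p.1 = p.2
      · refine ⟨S1, h1, h2, fun a ha b hb q hq => ?_⟩
        rcases Finset.mem_insert.1 hq with rfl | hq
        · exact fun _ => hp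
        · exact h3 a ha b hb q hq
      · obtain ⟨S2, k1, k2, k3⟩ := thin2 S1 h2 (fun a => t a p.1) (fun a => t a p.2)
          (fun a ha e => hp (h a (h1 ha) e))
        refine ⟨S2, k1.trans h1, k2, fun a ha b hb q hq => ?_⟩
        rcases Finset.mem_insert.1 hq with rfl | hq
        · exact fun e => absurd e (k3 a ha b hb)
        · exact h3 a (k1 ha) b (k1 hb) q hq
  obtain ⟨S', h1, h2, h3⟩ := this Finset.univ
  exact ⟨S', h1, h2, fun a ha b hb j j' => h3 a ha b hb (j, j') (Finset.mem_univ _)⟩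

lemma interp {X : Type u} [TopologicalSpace X] [T35Space X] {k : ℕ} (x : Fin k ↪ X)
    (c : Fin k → ℝ) : ∃ g : X → ℝ, Continuous g ∧ ∀ i, g (x i) = c i := by
  classical
  have : ∀ i : Fin k, ∃ f : X → unitInterval, Continuous f ∧ f (x i) = 0 ∧
      EqOn f 1 (x '' {j | j ≠ i}) := fun i =>
    CompletelyRegularSpace.completely_regular (x i) _ ((toFinite _).image x).isClosed (by
      rintro ⟨j, hj, e⟩
      exact hj (x.injective e))
  choose f hf h0 h1 using this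
  refine ⟨fun y => ∑ i, c i * (1 - (f i y : ℝ)), ?_, fun i => ?_⟩
  · refine continuous_finsetSum _ fun i _ => continuous_const.mul (continuous_const.sub ?_)
    exact continuous_subtype_val.comp (hf i)
  · show ∑ j, c j * (1 - (f j (x i) : ℝ)) = c i
    rw [Finset.sum_eq_single i]
    · simp [h0]
    · intro j _ hj
      rw [h1 j ⟨i, hj.symm, rfl⟩]
      simp
    · simp

lemma step {k : ℕ} (c : Fin k → ℝ) : ∃ p : ℝ → ℝ, Continuous p ∧
    ∀ (i : Fin k) (y : ℝ), |y - (i : ℕ)| < 1 / 3 → p y = c i := by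
  refine ⟨fun y => ∑ i : Fin k, c i * max 0 (min 1 (2 - 3 * |y - (i : ℕ)|)), by fun_prop, ?_⟩
  intro i y hy
  show ∑ j : Fin k, c j * max 0 (min 1 (2 - 3 * |y - (j : ℕ)|)) = c i
  rw [Finset.sum_eq_single i]
  · rw [min_eq_left (by linarith), max_eq_right zero_le_one, mul_one]
  · intro j _ hj
    have h1 : (1 : ℝ) ≤ |((i : ℕ) : ℝ) - (j : ℕ)| := by
      have : (1 : ℤ) ≤ |((i : ℕ) : ℤ) - (j : ℕ)| :=
        Int.one_le_abs (sub_ne_zero.2 fun e => hj (Fin.ext (by exact_mod_cast e.symm)))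
      exact_mod_cast this
    have h2 : |((i : ℕ) : ℝ) - (j : ℕ)| ≤ |y - (i : ℕ)| + |y - (j : ℕ)| := by
      have := abs_sub_le ((i : ℕ) : ℝ) y (j : ℕ)
      rwa [abs_sub_comm _ y] at this
    rw [max_eq_left (le_trans (min_le_right _ _) (by linarith)), mul_zero]
  · simp

abbrev CC (X : Type u) [TopologicalSpace X] : Type u := {f : X → ℝ // Continuous f}

abbrev Ty : Type u := ULift.{u} (Σ m : ℕ, Σ k : ℕ, Fin m → Fin k → ℚ)

def HasTy {X : Type u} [TopologicalSpace X] {ι : Type u} (τ : Ty.{u}) (U : Set (ι → CC X)) : Prop :=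
  ∃ (t : Fin τ.down.1 ↪ ι) (x : Fin τ.down.2.1 ↪ X),
    ∀ f : ι → CC X, (∀ j i, (f (t j)).1 (x i) = τ.down.2.2 j i) → f ∈ U

lemma exists_ty {X : Type u} [TopologicalSpace X] {ι : Type u} (U : Set (ι → CC X))
    (hU : IsOpen U) (hne : U.Nonempty) : ∃ τ, HasTy τ U := by
  obtain ⟨z, hz⟩ := hne
  have h := hU.mem_nhds hz
  rw [nhds_pi, Filter.mem_pi] at h
  obtain ⟨T, hT, V, hV, hVU⟩ := h
  have h2 : ∀ t, ∃ E : Set X, E.Finite ∧ ∃ q : X → ℚ,
      ∀ g : CC X, (∀ x ∈ E, g.1 x = q x) → g ∈ V t := by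
    intro t
    obtain ⟨V', hV', hsub⟩ := (mem_nhds_subtype _ _ _).1 (hV t)
    rw [nhds_pi, Filter.mem_pi] at hV'
    obtain ⟨E, hE, O, hO, hOV⟩ := hV'
    have : ∀ x, ∃ q : ℚ, (q : ℝ) ∈ O x := fun x => by
      obtain ⟨_, h1, q, rfl⟩ := mem_closure_iff_nhds.1 (Rat.denseRange_cast (𝕜 := ℝ) ((z t).1 x))
        _ (hO x)
      exact ⟨q, h1⟩
    choose q hq using this
    refine ⟨E, hE, q, fun g hg => hsub (hOV fun x hx => ?_)⟩
    rw [hg x hx]
    exact hq x
  choose E hE q hq using h2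
  obtain ⟨m, t, ht⟩ := hT.fin_embedding
  obtain ⟨k, x, hx⟩ := (hT.biUnion fun t _ => hE t).fin_embedding
  refine ⟨⟨m, k, fun j i => q (t j) (x i)⟩, t, x, fun f hf => hVU fun s hs => ?_⟩
  obtain ⟨j, rfl⟩ : s ∈ range t := ht ▸ hs
  refine hq _ _ fun y hy => ?_
  obtain ⟨i, rfl⟩ : y ∈ range x := hx ▸ mem_biUnion hs hy
  exact hf j i

def PF {Z : Type u} [TopologicalSpace Z] (𝒰 : Set (Set Z)) : Prop :=
  (∀ U ∈ 𝒰, IsOpen U ∧ U.Nonempty) ∧ (∀ y : Z, {U | U ∈ 𝒰 ∧ y ∈ U}.Finite)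

lemma bdd (Z : Type u) [TopologicalSpace Z] : BddAbove {c : Cardinal.{u} | ∃ 𝒰 : Set (Set Z),
    (∀ U ∈ 𝒰, IsOpen U ∧ U.Nonempty) ∧ (∀ y : Z, {U | U ∈ 𝒰 ∧ y ∈ U}.Finite) ∧ c = #𝒰} := by
  refine ⟨#(Set Z), ?_⟩
  rintro c ⟨𝒰, -, -, rfl⟩
  exact mk_set_le _

lemma ty_bound {X : Type u} [TopologicalSpace X] [T35Space X] {ι : Type u}
    (𝒰 : Set (Set (ι → CC X))) (h : ∀ y, {U | U ∈ 𝒰 ∧ y ∈ U}.Finite) (τ : Ty.{u}) :
    ∃ 𝒲 : Set (Set (CC X)), PF 𝒲 ∧ #{U | U ∈ 𝒰 ∧ HasTy τ U} ≤ #𝒲 * ℵ₀ := by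
  classical
  obtain ⟨m, k, q⟩ := τ
  let A := {U | U ∈ 𝒰 ∧ HasTy ⟨m, k, q⟩ U}
  have h1 : ∀ U : A, ∃ (t : Fin m ↪ ι) (x : Fin k ↪ X),
    ∀ f : ι → CC X, (∀ j i, (f (t j)).1 (x i) = q j i) → f ∈ U.1 := fun U => U.2.2
  choose t x htx using h1
  let W : A → Set (CC X) := fun U => {g | ∀ i : Fin k, |g.1 (x U i) - (i : ℕ)| < 1 / 3}
  have hWo : ∀ U, IsOpen (W U) := by
    intro U
    have : W U = ⋂ i : Fin k, {g : CC X | |g.1 (x U i) - (i : ℕ)| < 1 / 3} := by
      ext g; simp [W]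
    rw [this]
    refine isOpen_iInter_of_finite fun i => isOpen_lt ?_ continuous_const
    have : Continuous fun g : CC X => g.1 (x U i) :=
      (continuous_apply _).comp continuous_subtype_val
    exact (this.sub continuous_const).abs
  have hWn : ∀ U, (W U).Nonempty := by
    intro U
    obtain ⟨g, hg, hg'⟩ := interp (x U) fun i => (i : ℕ)
    exact ⟨⟨g, hg⟩, fun i => by simp [hg']⟩
  have hpf : ∀ g, {U | g ∈ W U}.Finite := by
    intro g
    by_contra hinf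
    obtain ⟨S, hS, hSi, hSt⟩ := thin _ hinf (fun U j => t U j) fun U _ => (t U).injective
    choose p hp hpc using fun j : Fin m => step fun i : Fin k => (q j i : ℝ)
    let f : ι → CC X := fun s =>
      if hs : ∃ j, ∃ U ∈ S, t U j = s then ⟨p hs.choose ∘ g.1, (hp _).comp g.2⟩
      else ⟨fun _ => 0, continuous_const⟩
    have hf : ∀ U ∈ S, f ∈ U.1 := by
      intro U hU
      refine htx U f fun j i => ?_
      have hs : ∃ j', ∃ U' ∈ S, t U' j' = t U j := ⟨j, U, hU, rfl⟩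
      have hj : hs.choose = j := by
        obtain ⟨U', hU', e⟩ := hs.choose_spec
        exact hSt U' hU' U hU _ _ e
      simp only [f, dif_pos hs, hj]
      exact hpc j i _ (hS hU i)
    refine (hSi.image Subtype.val_injective.injOn) ((h f).subset ?_)
    rintro _ ⟨U, hU, rfl⟩
    exact ⟨U.2.1, hf U hU⟩
  refine ⟨range W, ⟨?_, fun g => ?_⟩, ?_⟩
  · rintro _ ⟨U, rfl⟩
    exact ⟨hWo U, hWn U⟩
  · refine ((hpf g).image W).subset ?_
    rintro _ ⟨⟨U, rfl⟩, hg⟩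
    exact ⟨U, hg, rfl⟩
  · refine mk_le_mk_mul_of_mk_preimage_le (rangeFactorization W) ?_
    rintro ⟨_, U, rfl⟩
    obtain ⟨g, hg⟩ := hWn U
    refine (lt_aleph0_iff_set_finite.2 ((hpf g).subset fun V hV => ?_)).le
    have : W V = W U := congrArg Subtype.val hV
    show g ∈ W V
    rwa [this]

theorem result :
    ∀ (X : Type u) [TopologicalSpace X] [T35Space X] (ι : Type u) [Nonempty ι],
      sSup {c : Cardinal.{u} | ∃ 𝒰 : Set (Set {f : X → ℝ // Continuous f}),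
          (∀ U ∈ 𝒰, IsOpen U ∧ U.Nonempty) ∧
          (∀ y : {f : X → ℝ // Continuous f}, {U | U ∈ 𝒰 ∧ y ∈ U}.Finite) ∧
          c = Cardinal.mk ↥𝒰}
        =
      sSup {c : Cardinal.{u} | ∃ 𝒰 : Set (Set (ι → {f : X → ℝ // Continuous f})),
          (∀ U ∈ 𝒰, IsOpen U ∧ U.Nonempty) ∧
          (∀ y : ι → {f : X → ℝ // Continuous f}, {U | U ∈ 𝒰 ∧ y ∈ U}.Finite) ∧
          c = Cardinal.mk ↥𝒰} := by
  intro X _ _ ι _
  apply le_antisymm
  · refine csSup_le_csSup' (bdd _) ?_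
    rintro c ⟨𝒰, h1, h2, rfl⟩
    let i0 : ι := Classical.arbitrary ι
    let e : (ι → CC X) → CC X := fun f => f i0
    have he : Function.Surjective e := fun g => ⟨fun _ => g, rfl⟩
    have hinj : Function.Injective (preimage e) := preimage_injective.2 he
    refine ⟨preimage e '' 𝒰, ?_, fun y => ?_, (mk_image_eq hinj).symm⟩
    · rintro _ ⟨U, hU, rfl⟩
      exact ⟨(h1 U hU).1.preimage (continuous_apply i0), (h1 U hU).2.preimage he⟩
    · refine ((h2 (e y)).image (preimage e)).subset ?_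
      rintro _ ⟨⟨U, hU, rfl⟩, hy⟩
      exact ⟨U, ⟨hU, hy⟩, rfl⟩
  · refine csSup_le' ?_
    rintro c ⟨𝒰, h1, h2, rfl⟩
    set s := sSup {c : Cardinal.{u} | ∃ 𝒰 : Set (Set {f : X → ℝ // Continuous f}),
          (∀ U ∈ 𝒰, IsOpen U ∧ U.Nonempty) ∧
          (∀ y : {f : X → ℝ // Continuous f}, {U | U ∈ 𝒰 ∧ y ∈ U}.Finite) ∧
          c = Cardinal.mk ↥𝒰} with hs
    have hle : ∀ 𝒲 : Set (Set (CC X)), PF 𝒲 → #𝒲 ≤ s := fun 𝒲 h =>
      le_csSup (bdd _) ⟨𝒲, h.1, h.2, rfl⟩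
    rcases isEmpty_or_nonempty X with hX | ⟨⟨x0⟩⟩
    · have h3 : #({Set.univ} : Set (Set (CC X))) ≤ s := hle _ ⟨by
        rintro _ rfl
        exact ⟨isOpen_univ, ⟨⟨fun _ => 0, continuous_const⟩, trivial⟩⟩, fun y =>
          (finite_singleton _).subset fun U hU => hU.1⟩
      rw [mk_singleton] at h3
      refine le_trans ?_ h3
      rw [← mk_singleton (Set.univ : Set (ι → CC X))]
      refine mk_le_mk_of_subset fun U hU => ?_
      obtain ⟨z, hz⟩ := (h1 U hU).2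
      refine eq_univ_of_forall fun y => ?_
      have : y = z := funext fun i => Subtype.ext (funext fun x => hX.elim x)
      rwa [this]
    · have h3 : ℵ₀ ≤ s := by
        let W : ULift.{u} ℕ → Set (CC X) := fun n => {g | |g.1 x0 - (n.down : ℕ)| < 1 / 2}
        have hmem : ∀ n : ULift.{u} ℕ, (⟨fun _ => (n.down : ℝ), continuous_const⟩ : CC X) ∈ W n := by
          intro n
          simp [W]
        have huniq : ∀ g m n, g ∈ W m → g ∈ W n → m = n := by
          intro g m n hm hn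
          have h4 : |g.1 x0 - (m.down : ℕ)| < 1 / 2 := hm
          have h5 : |g.1 x0 - (n.down : ℕ)| < 1 / 2 := hn
          rw [abs_lt] at h4 h5
          have h6 : ((m.down : ℕ) : ℝ) < n.down + 1 := by linarith
          have h7 : ((n.down : ℕ) : ℝ) < m.down + 1 := by linarith
          have h8 : m.down < n.down + 1 := by exact_mod_cast h6
          have h9 : n.down < m.down + 1 := by exact_mod_cast h7
          exact ULift.ext _ _ (by omega)
        have hinj : Function.Injective W := fun m n e => huniq _ m n (hmem m) (e ▸ hmem m)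
        have := hle (range W) ⟨?_, fun g => ?_⟩
        · rw [mk_range_eq _ hinj] at this
          simpa using this
        · rintro _ ⟨n, rfl⟩
          refine ⟨isOpen_lt ?_ continuous_const, _, hmem n⟩
          have : Continuous fun g : CC X => g.1 x0 :=
            (continuous_apply _).comp continuous_subtype_val
          exact (this.sub continuous_const).abs
        · refine Set.Subsingleton.finite ?_
          rintro _ ⟨⟨m, rfl⟩, hm⟩ _ ⟨⟨n, rfl⟩, hn⟩
          rw [huniq g m n hm hn]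
      have h4 : 𝒰 ⊆ ⋃ τ : Ty.{u}, {U | U ∈ 𝒰 ∧ HasTy τ U} := fun U hU => by
        obtain ⟨τ, hτ⟩ := exists_ty U (h1 U hU).1 (h1 U hU).2
        exact mem_iUnion.2 ⟨τ, hU, hτ⟩
      refine (mk_le_mk_of_subset h4).trans ((mk_iUnion_le _).trans ?_)
      have h5 : (⨆ τ : Ty.{u}, #{U | U ∈ 𝒰 ∧ HasTy τ U}) ≤ s := by
        refine ciSup_le' fun τ => ?_
        obtain ⟨𝒲, hW, hle'⟩ := ty_bound 𝒰 h2 τ
        refine hle'.trans ((mul_le_mul' (hle _ hW) h3).trans (mul_eq_self h3).le)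
      exact (mul_le_mul' (mk_le_aleph0.trans h3) h5).trans (mul_eq_self h3).le

end Pool.Agent.S13747
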