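import Pool.Statements.S13772

set_option autoImplicit false
open Pool Pool.MP_b1ea19_gt

namespace Pool.Agent.S13772

open Set Filter Topology Real

noncomputable def gam (x : ℝ) : ℝ × ℝ := (x, sin x⁻¹)

noncomputable def Y : Set (ℝ × ℝ) := closure (gam '' Ioc 0 1)

noncomputable def xSeq (y : ℝ) (k : ℕ) := 1 / (arcsin y + (k + 1) * (2 * π))

lemma xSeq_pos (y : ℝ) (k : ℕ) : 0 < xSeq y k := by
  rw [xSeq, one_div_pos]
  nlinarith [pi_pos, neg_pi_div_two_le_arcsin y]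

lemma sin_inv_xSeq {y : ℝ} (hy : y ∈ Icc (-1) 1) (k : ℕ) : sin (xSeq y k)⁻¹ = y := by
  simpa [xSeq, -Nat.cast_add, ← Nat.cast_succ] using sin_arcsin' hy

lemma xSeq_tendsto (y : ℝ) : Tendsto (xSeq y) atTop (𝓝 0) := by
  refine .comp (g := fun k : ℝ ↦ 1 / (arcsin y + (k + 1) * (2 * π))) ?_ tendsto_natCast_atTop_atTop
  simp only [div_eq_mul_inv, show 𝓝 0 = 𝓝 (1 * (0 : ℝ)) by simp]
  refine (tendsto_inv_atTop_zero.comp <| tendsto_atTop_add_const_left _ _ ?_).const_mul _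
  exact (tendsto_atTop_add_const_right _ _ tendsto_id).atTop_mul_const (by positivity)

lemma gam_cont {x : ℝ} (hx : 0 < x) : ContinuousAt gam x :=
  continuousAt_id.prodMk (continuous_sin.continuousAt.comp <| continuousAt_inv₀ hx.ne')

lemma bar {y a : ℝ} (hy : y ∈ Icc (-1) 1) (ha : 0 < a) : (0, y) ∈ closure (gam '' Ioo 0 a) := by
  refine mem_closure_of_tendsto (f := fun n => (xSeq y n, y))
    ((xSeq_tendsto y).prodMk_nhds tendsto_const_nhds) ?_
  filter_upwards [(xSeq_tendsto y).eventually (gt_mem_nhds ha)] with n hn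
  exact ⟨xSeq y n, ⟨xSeq_pos y n, hn⟩, by simp [gam, sin_inv_xSeq hy n]⟩

lemma Y_box : Y ⊆ Icc 0 1 ×ˢ Icc (-1) 1 := by
  refine closure_minimal ?_ (isClosed_Icc.prod isClosed_Icc)
  rintro _ ⟨x, hx, rfl⟩
  exact ⟨⟨hx.1.le, hx.2⟩, sin_mem_Icc _⟩

lemma Y_pos {p : ℝ × ℝ} (hp : p ∈ Y) (h : 0 < p.1) : p = gam p.1 := by
  have h1 : ContinuousAt (fun q : ℝ × ℝ => q - gam q.1) p :=
    continuousAt_id.sub ((gam_cont h).comp continuousAt_fst)
  have := h1.continuousWithinAt.eq_const_of_mem_closure (c := 0) hp (by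
    rintro _ ⟨x, -, rfl⟩
    simp [gam])
  exact sub_eq_zero.1 this

instance : CompactSpace Y :=
  isCompact_iff_compactSpace.1 ((isCompact_Icc.prod isCompact_Icc).of_isClosed_subset
    isClosed_closure Y_box)

instance : ConnectedSpace Y :=
  isConnected_iff_connectedSpace.1 (((isConnected_Ioc zero_lt_one).image _
    fun _ hx => (gam_cont hx.1).continuousWithinAt).closure)

lemma key (C : Set Y) (hC : IsConnected C) (h : ℝ × ℝ → ℝ) (hh : Continuous h) (γ : ℝ → ℝ × ℝ)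
    (qa qb : Y) (ha : qa ∈ C) (hb : qb ∈ C) (hγ : ContinuousOn γ (Ioo (h qa) (h qb)))
    (h1 : ∀ q ∈ C, h q ∈ Ioo (h qa) (h qb) → q.1 = γ (h q))
    (h2 : ∀ q ∈ C, q.1 ∈ closure (γ '' Ioo (h qa) (h qb))) :
    IsPreconnected {p : Y | p ∈ C ∧ ∃ V : Set Y, IsOpen V ∧ p ∈ V ∧
      ¬ IsPreconnected (connectedComponentIn (V ∩ C) p \ {p})} := by
  have hc : Continuous fun q : Y => h q := hh.comp continuous_subtype_val
  have e : Subtype.val '' {q : Y | q ∈ C ∧ h q ∈ Ioo (h qa) (h qb)} = γ '' Ioo (h qa) (h qb) := by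
    refine Subset.antisymm ?_ ?_
    · rintro _ ⟨q, hq, rfl⟩
      exact ⟨_, hq.2, (h1 q hq.1 hq.2).symm⟩
    · rintro _ ⟨t, ht, rfl⟩
      obtain ⟨q, hq, rfl⟩ := hC.isPreconnected.intermediate_value ha hb hc.continuousOn
        (Ioo_subset_Icc_self ht)
      exact ⟨q, ⟨hq, ht⟩, h1 q hq ht⟩
  have hS : IsPreconnected {q : Y | q ∈ C ∧ h q ∈ Ioo (h qa) (h qb)} := by
    rw [← IsInducing.subtypeVal.isPreconnected_image, e]
    exact isPreconnected_Ioo.image _ hγ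
  refine hS.subset_closure ?_ fun q hq => ?_
  · rintro p ⟨hp, h3⟩
    refine ⟨hp, univ, isOpen_univ, trivial, fun h4 => ?_⟩
    rw [univ_inter, hC.isPreconnected.connectedComponentIn hp] at h4
    obtain ⟨q, hq, h5⟩ := h4.intermediate_value (a := qa) (b := qb)
      ⟨ha, fun e => h3.1.ne (by rw [e])⟩ ⟨hb, fun e => h3.2.ne (by rw [e])⟩ hc.continuousOn
      (Ioo_subset_Icc_self h3)
    refine hq.2 (Subtype.ext ?_)
    have h6 : h q = h p := h5
    rw [h1 q hq.1 (h6 ▸ h3), h1 p hp h3, h6]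
  · rw [IsInducing.subtypeVal.closure_eq_preimage_closure_image, e]
    exact h2 q hq.1

lemma hyp (C : Set Y) (hc : IsCompact C) (hC : IsConnected C) :
    IsPreconnected {p : Y | p ∈ C ∧ ∃ V : Set Y, IsOpen V ∧ p ∈ V ∧
      ¬ IsPreconnected (connectedComponentIn (V ∩ C) p \ {p})} := by
  have c1 : Continuous fun q : Y => q.1.1 := by fun_prop
  have c2 : Continuous fun q : Y => q.1.2 := by fun_prop
  obtain ⟨a, ha, h1⟩ := hc.exists_isMinOn hC.nonempty c1.continuousOn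
  obtain ⟨b, hb, h2⟩ := hc.exists_isMaxOn hC.nonempty c1.continuousOn
  obtain ⟨c, hc', h3⟩ := hc.exists_isMinOn hC.nonempty c2.continuousOn
  obtain ⟨d, hd, h4⟩ := hc.exists_isMaxOn hC.nonempty c2.continuousOn
  have h0 := (Y_box a.2).1.1
  by_cases hab : a.1.1 < b.1.1
  · refine key C hC Prod.fst continuous_fst gam a b ha hb
      (fun x hx => (gam_cont (h0.trans_lt hx.1)).continuousWithinAt)
      (fun q _ hq => Y_pos q.2 (h0.trans_lt hq.1)) fun q hq => ?_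
    rcases (Y_box q.2).1.1.eq_or_lt with e | l
    · have e' : a.1.1 = 0 := le_antisymm (e ▸ h1 hq) h0
      rw [e'] at hab ⊢
      have e2 : q.1 = (0, q.1.2) := Prod.ext e.symm rfl
      rw [e2]
      exact bar (Y_box q.2).2 hab
    · rw [Y_pos q.2 l]
      refine (gam_cont l).continuousWithinAt.mem_closure_image ?_
      rw [closure_Ioo hab.ne]
      exact ⟨h1 hq, h2 hq⟩
  have e : ∀ q ∈ C, q.1.1 = a.1.1 := fun q hq =>
    le_antisymm ((h2 hq).trans (not_lt.1 hab)) (h1 hq)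
  by_cases hcd : c.1.2 < d.1.2
  · refine key C hC Prod.snd continuous_snd (fun t => (a.1.1, t)) c d hc' hd (by fun_prop)
      (fun q hq _ => Prod.ext (e q hq) rfl) fun q hq => ?_
    have : q.1 = (fun t => (a.1.1, t)) q.1.2 := Prod.ext (e q hq) rfl
    rw [this]
    refine ContinuousWithinAt.mem_closure_image (by fun_prop) ?_
    rw [closure_Ioo hcd.ne]
    exact ⟨h3 hq, h4 hq⟩
  have e' : ∀ q ∈ C, q.1.2 = c.1.2 := fun q hq =>
    le_antisymm ((h4 hq).trans (not_lt.1 hcd)) (h3 hq)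
  refine Set.Subsingleton.isPreconnected fun p hp q hq => Subtype.ext (Prod.ext ?_ ?_)
  · rw [e p hp.1, e q hq.1]
  · rw [e' p hp.1, e' q hq.1]

lemma nopath (p : unitInterval → Y) (hp : Continuous p) (h0 : (p 0).1.1 = 0) :
    (p 1).1.1 = 0 := by
  by_contra h1
  have c1 : Continuous fun t ↦ (p t).1.1 := by fun_prop
  have c2 : Continuous fun t ↦ (p t).1.2 := by fun_prop
  let s : unitInterval := sSup {t | (p t).1.1 = 0}
  have hs : (p s).1.1 = 0 := IsClosed.sSup_mem (s := {t | (p t).1.1 = 0}) ⟨0, h0⟩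
    (isClosed_singleton.preimage c1)
  have hs1 : s < 1 := lt_of_le_of_ne unitInterval.le_one' fun e => h1 (e ▸ hs)
  have h2 : {t | dist (p t).1.2 (p s).1.2 < 1} ∈ 𝓝[≥] s :=
    mem_nhdsWithin_of_mem_nhds (c2.continuousAt.eventually (Metric.ball_mem_nhds _ one_pos))
  obtain ⟨u, hu, h3⟩ := (mem_nhdsGE_iff_exists_mem_Ioc_Ico_subset hs1).1 h2
  obtain ⟨t, ht, htu⟩ := exists_between hu.1
  have ha : 0 < (p t).1.1 := lt_of_le_of_ne (Y_box (p t).2).1.1 fun e =>
    ht.not_ge (le_sSup e.symm)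
  have h4 : ∀ y ∈ Icc (-1 : ℝ) 1, dist y (p s).1.2 < 1 := by
    intro y hy
    obtain ⟨n, hn⟩ := ((xSeq_tendsto y).eventually (gt_mem_nhds ha)).exists
    obtain ⟨r, hr, h5⟩ := isPreconnected_Icc.intermediate_value (left_mem_Icc.2 ht.le)
      (right_mem_Icc.2 ht.le) c1.continuousOn (show xSeq y n ∈ _ from
        ⟨hs.le.trans (xSeq_pos y n).le, hn.le⟩)
    have h6 : (p r).1.1 = xSeq y n := h5
    have h7 := Y_pos (p r).2 (h6 ▸ xSeq_pos y n)
    have h8 : (p r).1.2 = y := by rw [h7, h6]; exact sin_inv_xSeq hy n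
    exact h8 ▸ h3 ⟨hr.1, hr.2.trans_lt htu⟩
  have h5 := h4 1 (by norm_num)
  have h6 := h4 (-1) (by norm_num)
  rw [Real.dist_eq, abs_lt] at h5 h6
  linarith [h5.2, h6.1]


theorem result :
    ¬ (∀ (X : Type) [MetricSpace X] [CompactSpace X] [ConnectedSpace X],
      (∀ C : Set X, IsCompact C → IsConnected C →
        IsPreconnected {p : X | p ∈ C ∧ ∃ V : Set X, IsOpen V ∧ p ∈ V ∧
          ¬ IsPreconnected (connectedComponentIn (V ∩ C) p \ {p})}) →
      ∀ A : Set X, IsConnected A → ∀ x ∈ A, ∀ y ∈ A, x ≠ y →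
        ∃ f : unitInterval → X, Continuous f ∧ Function.Injective f ∧
          f 0 = x ∧ f 1 = y ∧ Set.range f ⊆ A) := by
  intro h
  have m0 : ((0 : ℝ), (0 : ℝ)) ∈ Y :=
    closure_mono (Set.image_mono Set.Ioo_subset_Ioc_self) (bar (by norm_num) one_pos)
  have m1 : gam 1 ∈ Y := subset_closure ⟨1, by norm_num, rfl⟩
  obtain ⟨f, h1, -, h2, h3, -⟩ := h Y hyp Set.univ isConnected_univ ⟨_, m0⟩ trivial ⟨_, m1⟩ trivial
    (by simp [gam])
  have := nopath f h1 (by rw [h2])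
  rw [h3] at this
  simp [gam] at this

end Pool.Agent.S13772
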