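import Pool.Statements.S13782
import Pool.Agent.H.MP_b2bcdc_gt.A

set_option autoImplicit false
open Pool Pool.MP_b2bcdc_gt

namespace Pool.Agent.S13782

theorem result :
    ¬ (∀ (X : Type) [TopologicalSpace X] [T0Space X],
      (∀ U : Set X, IsOpen U → ∀ x ∈ U, ∃ V : Set X, IsOpen V ∧ x ∈ V ∧ V ⊆ U ∧
        ∀ 𝒰 : Set (Set X), (∀ W ∈ 𝒰, IsOpen W) → U ⊆ ⋃₀ 𝒰 →
          ∃ 𝒱 ⊆ 𝒰, 𝒱.Finite ∧ V ⊆ ⋃₀ 𝒱) →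
      ∀ A : Set X, IsClosed A → IsIrreducible A →
        ∃ 𝒦 : Set (Set X), 𝒦.Nonempty ∧
          (∀ K ∈ 𝒦, IsCompact K ∧
            ∀ x : X, (∀ U : Set X, IsOpen U → K ⊆ U → x ∈ U) → x ∈ K) ∧
          (∀ K₁ ∈ 𝒦, ∀ K₂ ∈ 𝒦, ∃ K₃ ∈ 𝒦, K₃ ⊆ K₁ ∩ K₂) ∧
          (∀ K ∈ 𝒦, (A ∩ K).Nonempty) ∧
          ∀ B : Set X, IsClosed B → B ⊆ A → (∀ K ∈ 𝒦, (B ∩ K).Nonempty) → B = A) := by
  intro h
  haveI : Nonempty (Ordinal.omega.{0} 1).ToType :=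
    Ordinal.nonempty_toType_iff.2 (Ordinal.omega_pos 1).ne'
  letI := WellFoundedLT.toOrderBot (α := (Ordinal.omega.{0} 1).ToType)
  letI := WellFoundedLT.conditionallyCompleteLinearOrderBot (Ordinal.omega.{0} 1).ToType
  letI := Preorder.topology (Ordinal.omega.{0} 1).ToType
  haveI : OrderTopology (Ordinal.omega.{0} 1).ToType := ⟨rfl⟩
  have hL := H.MP_c1092b_gt.omega_bdd
  obtain ⟨z, hz⟩ := H.MP_b2bcdc_gt.exists_z (Ordinal.omega.{0} 1).ToType (by simp)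
  open H.MP_b2bcdc_gt in
  obtain ⟨𝒦, ⟨K, hK⟩, h1, h2, h3, h4⟩ := @h ℝ (top z) (t0 z) (core hL z hz) Set.univ
    (@isClosed_univ _ (top z)) (irr hL z hz)
  obtain ⟨b, hb⟩ := H.MP_b2bcdc_gt.bdd hL z (h1 K hK).1
  have h5 := h4 {y | z y ∈ Set.Ioi b}ᶜ
    (@IsOpen.isClosed_compl _ (H.MP_b2bcdc_gt.top z) _
      (H.MP_b2bcdc_gt.pre_open z isOpen_Ioi b subset_rfl)) (Set.subset_univ _) (by
      intro K' hK'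
      obtain ⟨M, hM, hM'⟩ := h2 K hK K' hK'
      obtain ⟨x, -, hx⟩ := h3 M hM
      exact ⟨x, not_lt.2 (hb x (hM' hx).1), (hM' hx).2⟩)
  obtain ⟨c, hc⟩ := hL fun _ => b
  obtain ⟨y, -, -, rfl⟩ := hz c 0 1 one_pos
  exact (h5 ▸ Set.mem_univ y : y ∈ {y | z y ∈ Set.Ioi b}ᶜ) (hc 0)

end Pool.Agent.S13782
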