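import Pool.Statements.S13784

set_option autoImplicit false
open Pool Pool.MP_b3099b_gt

namespace Pool.Agent.S13784

open Set Filter Topology

def col (A : Set (ℕ × ℕ)) (k : ℕ) : Set (ℕ × ℕ) := {p | p ∈ A ∧ p.1 = k}

def FC (A : Set (ℕ × ℕ)) : Prop := ∀ k, (col A k).Finite

def Large (A : Set (ℕ × ℕ)) : Prop := {k | (col A k).Infinite}.Infinite

theorem col_mono {A B : Set (ℕ × ℕ)} (h : A ⊆ B) (k : ℕ) : col A k ⊆ col B k :=
  fun _ hp => ⟨h hp.1, hp.2⟩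

theorem Large.mono {A B : Set (ℕ × ℕ)} (hA : Large A) (h : A ⊆ B) : Large B :=
  Set.Infinite.mono (fun k hk => Set.Infinite.mono (col_mono h k) hk) hA

theorem fin_of_cols {A : Set (ℕ × ℕ)} (hA : FC A) {S : Set ℕ} (hS : S.Finite)
    (h : ∀ p ∈ A, p.1 ∈ S) : A.Finite :=
  (hS.biUnion fun k _ => hA k).subset fun p hp => mem_biUnion (h p hp) ⟨hp, rfl⟩

theorem Large.diff {A B : Set (ℕ × ℕ)} (hA : Large A) (hB : FC B) : Large (A \ B) := by
  refine Set.Infinite.mono (fun k hk => ?_) hA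
  refine Set.Infinite.mono ?_ (Set.Infinite.diff hk (hB k))
  exact fun p hp => ⟨⟨hp.1.1, fun h => hp.2 ⟨h, hp.1.2⟩⟩, hp.1.2⟩

theorem Large.sub {A : Set (ℕ × ℕ)} (hA : Large A) : ∃ g ⊆ A, g.Infinite ∧ FC g := by
  have : ∀ k : {k | (col A k).Infinite}, ∃ p, p ∈ col A k.1 := fun k => k.2.nonempty
  choose f hf using this
  haveI := hA.to_subtype
  refine ⟨range f, ?_, infinite_range_of_injective fun a b h => Subtype.ext ?_, fun k => ?_⟩
  · rintro _ ⟨k, rfl⟩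
    exact (hf k).1
  · rw [← (hf a).2, ← (hf b).2, h]
  · refine Set.Subsingleton.finite ?_
    rintro _ ⟨⟨a, rfl⟩, ha⟩ _ ⟨⟨b, rfl⟩, hb⟩
    have : a = b := Subtype.ext (by rw [← (hf a).2, ← (hf b).2, ha, hb])
    rw [this]

theorem mad : ∃ M : Set (Set (ℕ × ℕ)), (∀ A ∈ M, FC A) ∧
    (∀ A ∈ M, ∀ B ∈ M, A ≠ B → (A ∩ B).Finite) ∧ ∀ P, Large P → ∃ A ∈ M, (A ∩ P).Infinite := by
  obtain ⟨M, hM⟩ := zorn_subset {M : Set (Set (ℕ × ℕ)) | (∀ A ∈ M, FC A ∧ A.Infinite) ∧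
      ∀ A ∈ M, ∀ B ∈ M, A ≠ B → (A ∩ B).Finite} (by
    intro c hc hch
    refine ⟨⋃₀ c, ⟨?_, ?_⟩, fun s hs => subset_sUnion_of_mem hs⟩
    · rintro A ⟨s, hs, hA⟩
      exact (hc hs).1 A hA
    · rintro A ⟨s, hs, hA⟩ B ⟨t, ht, hB⟩ hAB
      rcases hch.total hs ht with h | h
      · exact (hc ht).2 A (h hA) B hB hAB
      · exact (hc hs).2 A hA B (h hB) hAB)
  refine ⟨M, fun A hA => (hM.prop.1 A hA).1, hM.prop.2, fun P hP => ?_⟩
  obtain ⟨g, g1, g2, g3⟩ := hP.sub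
  by_contra hc
  push Not at hc
  have h1 : ∀ A ∈ M, (A ∩ g).Finite := fun A hA =>
    (hc A hA).subset (inter_subset_inter_right _ g1)
  have hm : insert g M ∈ {M : Set (Set (ℕ × ℕ)) | (∀ A ∈ M, FC A ∧ A.Infinite) ∧
      ∀ A ∈ M, ∀ B ∈ M, A ≠ B → (A ∩ B).Finite} := by
    constructor
    · rintro A (rfl | hA)
      · exact ⟨g3, g2⟩
      · exact hM.prop.1 A hA
    · rintro A (rfl | hA) B (rfl | hB) hAB
      · exact absurd rfl hAB
      · rw [inter_comm]; exact h1 B hB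
      · exact h1 A hA
      · exact hM.prop.2 A hA B hB hAB
  have := h1 g (hM.le_of_ge hm (subset_insert _ _) (mem_insert _ _))
  rw [inter_self] at this
  exact g2 this

/-- Simon's partition argument -/
theorem simon : ∃ (P : Set (ℕ × ℕ)) (C D : Set (Set (ℕ × ℕ))), Large P ∧ (∀ B ∈ D, FC B) ∧
    (∀ A ∈ C, ∀ B ∈ D, (A ∩ B).Finite) ∧
    ∀ Q ⊆ P, Large Q → (∃ A ∈ C, (A ∩ Q).Infinite) ∧ ∃ B ∈ D, (B ∩ Q).Infinite := by
  obtain ⟨M, m1, m2, m3⟩ := mad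
  by_contra hc
  push Not at hc
  have step : ∀ (e : ℕ × ℕ) (P : {P // Large P}), ∃ Q : {P // Large P}, Q.1 ⊆ P.1 ∧
      ∀ A ∈ M, ∀ B ∈ M, (A ∩ Q.1).Infinite → (B ∩ Q.1).Infinite → (e ∈ A ↔ e ∈ B) := by
    intro e P
    obtain ⟨Q, q1, q2, q3⟩ := hc P.1 {A | A ∈ M ∧ e ∈ A} {A | A ∈ M ∧ e ∉ A} P.2
      (fun B hB => m1 B hB.1) (fun A hA B hB => m2 A hA.1 B hB.1 fun h => hB.2 (h ▸ hA.2))
    refine ⟨⟨Q, q2⟩, q1, fun A hA B hB h1 h2 => ?_⟩
    by_cases h : ∃ A ∈ {A | A ∈ M ∧ e ∈ A}, (A ∩ Q).Infinite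
    · have h3 := q3 h
      constructor <;> intro _ <;> by_contra h4
      · exact h2 (h3 B ⟨hB, h4⟩)
      · exact h1 (h3 A ⟨hA, h4⟩)
    · constructor <;> intro h4
      · exact absurd ⟨A, ⟨hA, h4⟩, h1⟩ h
      · exact absurd ⟨B, ⟨hB, h4⟩, h2⟩ h
  choose nx n1 n2 using step
  obtain ⟨e, he⟩ := exists_surjective_nat (ℕ × ℕ)
  have hu : Large univ := by
    refine Set.Infinite.mono (fun k _ => ?_) infinite_univ
    refine infinite_of_injective_forall_mem (f := fun i : ℕ => (k, i)) (fun a b h => ?_)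
      fun i => ⟨trivial, rfl⟩
    exact (Prod.ext_iff.1 h).2
  let P : ℕ → {P // Large P} := fun n => Nat.rec ⟨univ, hu⟩ (fun n p => nx (e n) p) n
  have hP : Antitone fun n => (P n).1 := antitone_nat_of_succ_le fun n => n1 (e n) (P n)
  have : ∀ n, ∃ k ∈ {k | (col (P n).1 k).Infinite}, n < k := fun n => (P n).2.exists_gt n
  choose k k1 k2 using this
  have hQ : Large (⋃ n, col (P n).1 (k n)) := by
    refine infinite_of_forall_exists_gt fun n => ⟨k n, ?_, k2 n⟩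
    exact Set.Infinite.mono (fun p hp => ⟨mem_iUnion.2 ⟨n, hp⟩, hp.2⟩) (k1 n)
  have key : ∀ A ∈ M, (A ∩ ⋃ n, col (P n).1 (k n)).Infinite → ∀ n, (A ∩ (P n).1).Infinite := by
    intro A hA h n hfin
    refine h ((hfin.union (fin_of_cols (A := {p | p ∈ A ∧ p.1 ∈ k '' Iio n})
      (fun j => (m1 A hA j).subset (col_mono (fun _ h => h.1) j)) ((finite_Iio n).image k)
      fun p hp => hp.2)).subset ?_)
    rintro p ⟨hp, hp'⟩
    obtain ⟨m, hm⟩ := mem_iUnion.1 hp'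
    by_cases hmn : m < n
    · exact Or.inr ⟨hp, m, hmn, hm.2.symm⟩
    · exact Or.inl ⟨hp, hP (not_lt.1 hmn) hm.1⟩
  obtain ⟨A, hA, a1⟩ := m3 _ hQ
  obtain ⟨B, hB, b1⟩ := m3 _ (hQ.diff (m1 A hA))
  have hAB : A = B := by
    ext x
    obtain ⟨n, rfl⟩ := he x
    exact n2 (e n) (P n) A hA B hB (key A hA a1 (n + 1))
      (key B hB (b1.mono (inter_subset_inter_right _ diff_subset)) (n + 1))
  subst hAB
  obtain ⟨x, hx⟩ := b1.nonempty
  exact hx.2.2 hx.1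

inductive Y : Type
  | iso : ℕ × ℕ → Y
  | mid : ℕ → Y
  | top : Y

instance : Countable Y := by
  refine Function.Surjective.countable (f := fun o : Option ((ℕ × ℕ) ⊕ ℕ) =>
    match o with
    | none => Y.top
    | some (Sum.inl p) => Y.iso p
    | some (Sum.inr k) => Y.mid k) ?_
  rintro (p | k | _)
  · exact ⟨some (Sum.inl p), rfl⟩
  · exact ⟨some (Sum.inr k), rfl⟩
  · exact ⟨none, rfl⟩

def Op (P : Set (ℕ × ℕ)) (C : Set (Set (ℕ × ℕ))) (U : Set Y) : Prop :=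
  (∀ k, Y.mid k ∈ U → {p | p ∈ col P k ∧ Y.iso p ∉ U}.Finite) ∧
  (Y.top ∈ U → {k | Y.mid k ∉ U}.Finite ∧ ∀ A ∈ C, {p | p ∈ A ∩ P ∧ Y.iso p ∉ U}.Finite)

def tY (P : Set (ℕ × ℕ)) (C : Set (Set (ℕ × ℕ))) : TopologicalSpace Y where
  IsOpen := Op P C
  isOpen_univ := ⟨fun _ _ => by simp, fun _ => ⟨by simp, fun _ _ => by simp⟩⟩
  isOpen_inter := by
    rintro s t ⟨s1, s2⟩ ⟨t1, t2⟩
    refine ⟨fun k hk => ((s1 k hk.1).union (t1 k hk.2)).subset fun p hp => ?_, fun h =>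
      ⟨((s2 h.1).1.union (t2 h.2).1).subset fun k hk => not_and_or.1 hk, fun A hA =>
        (((s2 h.1).2 A hA).union ((t2 h.2).2 A hA)).subset fun p hp => ?_⟩⟩
    · exact (not_and_or.1 hp.2).imp (fun h => ⟨hp.1, h⟩) (fun h => ⟨hp.1, h⟩)
    · exact (not_and_or.1 hp.2).imp (fun h => ⟨hp.1, h⟩) (fun h => ⟨hp.1, h⟩)
  isOpen_sUnion := by
    intro S hS
    refine ⟨fun k ⟨t, ht, hk⟩ => ((hS t ht).1 k hk).subset fun p hp =>
      ⟨hp.1, fun h => hp.2 ⟨t, ht, h⟩⟩, fun ⟨t, ht, h⟩ =>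
      ⟨((hS t ht).2 h).1.subset fun k hk h' => hk ⟨t, ht, h'⟩, fun A hA =>
        (((hS t ht).2 h).2 A hA).subset fun p hp => ⟨hp.1, fun h => hp.2 ⟨t, ht, h⟩⟩⟩⟩

theorem iso_inj : Function.Injective Y.iso := fun _ _ h => Y.iso.inj h
theorem mid_inj : Function.Injective Y.mid := fun _ _ h => Y.mid.inj h

theorem t1 (P : Set (ℕ × ℕ)) (C : Set (Set (ℕ × ℕ))) : @T1Space Y (tY P C) := by
  letI := tY P C
  refine ⟨fun x => ⟨?_⟩⟩
  have h1 : (Y.iso ⁻¹' {x}).Finite := (finite_singleton x).preimage iso_inj.injOn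
  have h2 : (Y.mid ⁻¹' {x}).Finite := (finite_singleton x).preimage mid_inj.injOn
  exact ⟨fun k _ => h1.subset fun p hp => not_not.1 hp.2, fun _ =>
    ⟨h2.subset fun k hk => not_not.1 hk, fun A _ => h1.subset fun p hp => not_not.1 hp.2⟩⟩

theorem seq_of {Z ι : Type} [TopologicalSpace Z] (f : ι → Z) (S : Set ι) (hS : S.Infinite) (x : Z)
    (h : ∀ U, IsOpen U → x ∈ U → {i | i ∈ S ∧ f i ∉ U}.Finite) (A : Set Z) (hA : ∀ i ∈ S, f i ∈ A) :
    x ∈ seqClosure A := by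
  let e := hS.natEmbedding
  refine ⟨fun n => f (e n), fun n => hA _ (e n).2, ?_⟩
  rw [tendsto_nhds, ← Nat.cofinite_eq_atTop]
  intro U hU hx
  refine ((h U hU hx).preimage (f := fun n => (e n).1)
    (Subtype.val_injective.comp e.injective).injOn).subset fun n hn => ⟨(e n).2, hn⟩

theorem fre (P : Set (ℕ × ℕ)) (C : Set (Set (ℕ × ℕ)))
    (hC : ∀ Q ⊆ P, Large Q → ∃ A ∈ C, (A ∩ Q).Infinite) : @FrechetUrysohnSpace Y (tY P C) := by
  letI := tY P C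
  refine ⟨fun A x hx => ?_⟩
  by_cases hxA : x ∈ A
  · exact subset_seqClosure hxA
  rcases x with p | k | _
  · obtain ⟨y, h1, h2⟩ := mem_closure_iff.1 hx {Y.iso p}
      ⟨fun k h => absurd h (by simp), fun h => absurd h (by simp)⟩ rfl
    exact absurd (h1 ▸ h2) hxA
  · by_cases h : {p | p ∈ col P k ∧ Y.iso p ∈ A}.Infinite
    · exact seq_of Y.iso _ h _ (fun U hU hx => (hU.1 k hx).subset fun p hp => ⟨hp.1.1, hp.2⟩) A
        fun p hp => hp.2
    · obtain ⟨y, h1, h2⟩ := mem_closure_iff.1 hx (insert (Y.mid k) (Y.iso '' {p | Y.iso p ∉ A}))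
        ⟨fun j hj => (by
          have : j = k := by simpa using hj
          subst this
          refine (not_infinite.1 h).subset fun p hp => ⟨hp.1, ?_⟩
          by_contra h'
          exact hp.2 (Or.inr ⟨p, h', rfl⟩)), fun h => absurd h (by simp)⟩ (Or.inl rfl)
      rcases h1 with rfl | ⟨p, hp, rfl⟩
      · exact absurd h2 hxA
      · exact absurd h2 hp
  · by_cases h1 : {k | Y.mid k ∈ A}.Infinite
    · exact seq_of Y.mid _ h1 _ (fun U hU hx => (hU.2 hx).1.subset fun p hp => hp.2) A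
        fun p hp => hp
    by_cases h2 : ∃ B ∈ C, (B ∩ {p | p ∈ P ∧ Y.iso p ∈ A}).Infinite
    · obtain ⟨B, hB, h2⟩ := h2
      exact seq_of Y.iso _ h2 _ (fun U hU hx => ((hU.2 hx).2 B hB).subset
        fun p hp => ⟨⟨hp.1.1, hp.1.2.1⟩, hp.2⟩) A fun p hp => hp.2.2
    have h3 : {k | (col {p | p ∈ P ∧ Y.iso p ∈ A} k).Infinite}.Finite := by
      by_contra h3
      exact h2 (hC _ (fun _ h => h.1) h3)
    push Not at h2
    obtain ⟨y, y1, y2⟩ := mem_closure_iff.1 hx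
      (Aᶜ \ Y.mid '' {k | (col {p | p ∈ P ∧ Y.iso p ∈ A} k).Infinite}) ⟨fun k hk => (by
        have : (col {p | p ∈ P ∧ Y.iso p ∈ A} k).Finite := by
          by_contra h
          exact hk.2 ⟨k, h, rfl⟩
        refine this.subset fun p hp => ⟨⟨hp.1.1, ?_⟩, hp.1.2⟩
        by_contra h
        exact hp.2 ⟨h, by simp⟩), fun _ => ⟨((not_infinite.1 h1).union h3).subset fun k hk => (by
          by_contra h
          exact hk ⟨fun h' => h (Or.inl h'), fun ⟨j, hj, e⟩ => h (Or.inr (mid_inj e ▸ hj))⟩),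
        fun B hB => (h2 B hB).subset fun p hp => ⟨hp.1.1, hp.1.2, by
          by_contra h
          exact hp.2 ⟨h, by simp⟩⟩⟩⟩ ⟨hxA, by simp⟩
    exact absurd y2 y1.1

theorem semi {Z : Type} [TopologicalSpace Z] [T1Space Z] [Countable Z] [Nonempty Z] :
    ∃ G : Set Z → ℕ → Set Z,
      (∀ F : Set Z, IsClosed F → ∀ n, IsOpen (G F n)) ∧
      (∀ F : Set Z, IsClosed F → ⋂ n, G F n = F) ∧
      (∀ F K : Set Z, IsClosed F → IsClosed K → F ⊆ K → ∀ n, G F n ⊆ G K n) := by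
  obtain ⟨e, he⟩ := exists_surjective_nat Z
  refine ⟨fun F n => F ∪ {e n}ᶜ, fun F _ n => ?_, fun F _ => ?_,
    fun F K _ _ h n => union_subset_union_left _ h⟩
  · show IsOpen (F ∪ {e n}ᶜ)
    by_cases h : e n ∈ F
    · have : F ∪ {e n}ᶜ = univ := by
        refine eq_univ_of_forall fun x => ?_
        by_cases hx : x = e n
        · exact Or.inl (hx ▸ h)
        · exact Or.inr hx
      rw [this]; exact isOpen_univ
    · rw [union_eq_right.2 (subset_compl_singleton_iff.2 h)]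
      exact isOpen_compl_singleton
  · refine Subset.antisymm (fun x hx => ?_) (subset_iInter fun n => subset_union_left)
    obtain ⟨n, rfl⟩ := he x
    exact (mem_iInter.1 hx n).resolve_right fun h => h rfl

theorem noimage (P : Set (ℕ × ℕ)) (C D : Set (Set (ℕ × ℕ))) (hP : Large P) (hD : ∀ B ∈ D, FC B)
    (hCD : ∀ A ∈ C, ∀ B ∈ D, (A ∩ B).Finite) (hQ : ∀ Q ⊆ P, Large Q → ∃ B ∈ D, (B ∩ Q).Infinite)
    {X : Type} [TopologicalSpace X] (hX : ∀ x : X, ∃ U : ℕ → Set X, (𝓝 x).HasAntitoneBasis U)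
    (f : X → Y) (hf : @Continuous X Y _ (tY P C) f) (hc : @IsClosedMap X Y _ (tY P C) f)
    (hs : Function.Surjective f) : False := by
  letI := tY P C
  haveI := t1 P C
  choose s hs using hs
  have lift : ∀ (S : Set X) (y : Y), y ∈ closure (f '' S) → ∃ x ∈ closure S, f x = y :=
    fun S y hy => hc.closure_image_subset S hy
  have inf : ∀ {ι : Type} (g : ι → X) (S : Set ι) (x : X), x ∈ closure (g '' S) →
      (∀ i, f (g i) ≠ f x) → ∀ V ∈ 𝓝 x, {i | i ∈ S ∧ g i ∈ V}.Infinite := by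
    intro ι g S x hx hne V hV hfin
    have h1 : (f ⁻¹' ((fun i => f (g i)) '' {i | i ∈ S ∧ g i ∈ V})ᶜ) ∈ 𝓝 x :=
      ((hfin.image _).isClosed.isOpen_compl.preimage hf).mem_nhds fun ⟨i, _, h⟩ => hne i h
    obtain ⟨_, ⟨a1, a2⟩, i, hi, rfl⟩ := mem_closure_iff_nhds.1 hx _ (inter_mem hV h1)
    exact a2 ⟨i, ⟨hi, a1⟩, rfl⟩
  have h1 : ∀ k : {k | (col P k).Infinite},
      ∃ x ∈ closure ((fun p => s (Y.iso p)) '' col P k.1), f x = Y.mid k.1 := by
    intro k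
    refine lift _ _ (mem_closure_iff.2 fun U hU hk => ?_)
    obtain ⟨p, hp, hp'⟩ := k.2.exists_notMem_finite (hU.1 k.1 hk)
    refine ⟨Y.iso p, ?_, _, ⟨p, hp, rfl⟩, hs _⟩
    by_contra h
    exact hp' ⟨hp, h⟩
  choose x x1 x2 using h1
  obtain ⟨z, z1, z2⟩ := lift (x '' univ) Y.top (mem_closure_iff.2 fun U hU ht => by
    obtain ⟨k, hk, hk'⟩ := hP.exists_notMem_finite (hU.2 ht).1
    exact ⟨Y.mid k, not_not.1 hk', _, ⟨⟨k, hk⟩, trivial, rfl⟩, x2 _⟩)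
  obtain ⟨U, hU⟩ := hX z
  have h2 : ∀ m, ∃ k : {k | (col P k).Infinite}, x k ∈ interior (U m) ∧ m < k.1 := by
    intro m
    have := inf x univ z z1 (fun i => by rw [x2, z2]; simp) _
      (interior_mem_nhds.2 (hU.mem m))
    obtain ⟨_, ⟨k, hk, rfl⟩, h⟩ := (this.image Subtype.val_injective.injOn).exists_gt m
    exact ⟨k, hk.2, h⟩
  choose k k1 k2 using h2
  let I : ℕ → Set (ℕ × ℕ) := fun m => {p | p ∈ col P (k m).1 ∧ s (Y.iso p) ∈ U m}
  have hI : ∀ m, (I m).Infinite := fun m =>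
    inf (fun p => s (Y.iso p)) _ _ (x1 (k m)) (fun i => by rw [x2, hs]; simp) _
      (mem_interior_iff_mem_nhds.1 (k1 m))
  obtain ⟨B, hB, b1⟩ := hQ (⋃ m, I m) (iUnion_subset fun m p hp => hp.1.1)
    (infinite_of_forall_exists_gt fun m => ⟨(k m).1,
      Set.Infinite.mono (fun p hp => ⟨mem_iUnion.2 ⟨m, hp⟩, hp.1.2⟩) (hI m), k2 m⟩)
  have hO : IsOpen (Y.iso '' B)ᶜ := by
    have : ∀ p, Y.iso p ∉ (Y.iso '' B)ᶜ → p ∈ B := fun p h => by
      obtain ⟨q, hq, e⟩ := not_not.1 h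
      exact iso_inj e ▸ hq
    exact ⟨fun j _ => (hD B hB j).subset fun p hp => ⟨this p hp.2, hp.1.2⟩, fun _ =>
      ⟨finite_empty.subset fun j hj => hj (by simp), fun A hA =>
        (hCD A hA B hB).subset fun p hp => ⟨hp.1.1, this p hp.2⟩⟩⟩
  obtain ⟨m0, hm0⟩ := hU.mem_iff.1 ((hO.preimage hf).mem_nhds (show f z ∈ (Y.iso '' B)ᶜ by rw [z2]; simp))
  refine b1 (fin_of_cols (fun j => (hD B hB j).subset (col_mono inter_subset_left j))
    ((finite_Iio m0).image fun m => (k m).1) ?_)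
  rintro p ⟨hp, hp'⟩
  obtain ⟨m, hm⟩ := mem_iUnion.1 hp'
  refine ⟨m, ?_, hm.1.2.symm⟩
  by_contra h
  have := hm0 (hU.antitone (not_lt.1 h) hm.2)
  rw [mem_preimage, hs] at this
  exact this ⟨p, hp, rfl⟩

theorem result :
    ¬ (∀ (Y : Type) [TopologicalSpace Y], T1Space Y →
      ((FrechetUrysohnSpace Y ∧
        ∃ G : Set Y → ℕ → Set Y,
          (∀ F : Set Y, IsClosed F → ∀ n, IsOpen (G F n)) ∧
          (∀ F : Set Y, IsClosed F → ⋂ n, G F n = F) ∧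
          (∀ F K : Set Y, IsClosed F → IsClosed K → F ⊆ K → ∀ n, G F n ⊆ G K n))
      ↔
      ∃ (X : Type) (_ : TopologicalSpace X) (d : X → X → ℝ),
        (∀ x y, 0 ≤ d x y) ∧ (∀ x y, d x y = 0 ↔ x = y) ∧ (∀ x y, d x y = d y x) ∧
        (∀ x, (nhds x).HasBasis (fun ε : ℝ => 0 < ε) (fun ε => {y | d x y < ε})) ∧
        ∃ f : X → Y, Continuous f ∧ IsClosedMap f ∧ Function.Surjective f)) := by
  intro H
  obtain ⟨P, C, D, h1, h2, h3, h4⟩ := simon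
  letI := tY P C
  haveI := t1 P C
  haveI : Nonempty Y := ⟨Y.top⟩
  obtain ⟨X, _, d, -, -, -, hb, f, f1, f2, f3⟩ := (H Y (t1 P C)).1
    ⟨fre P C fun Q a b => (h4 Q a b).1, semi⟩
  refine noimage P C D h1 h2 h3 (fun Q a b => (h4 Q a b).2) (fun x => ?_) f f1 f2 f3
  refine ⟨fun n => {y | d x y < 1 / ((n : ℝ) + 1)}, ⟨(hb x).to_hasBasis (fun ε hε => ?_)
    fun n _ => ⟨_, by positivity, subset_rfl⟩, fun a b hab y hy => ?_⟩⟩
  · obtain ⟨n, hn⟩ := exists_nat_one_div_lt hε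
    exact ⟨n, trivial, fun y hy => lt_trans hy hn⟩
  · exact lt_of_lt_of_le (a := d x y) hy (Nat.one_div_le_one_div hab)

end Pool.Agent.S13784
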