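import Pool.Statements.S13790
import Pool.Agent.H.MP_b4086f.A

set_option autoImplicit false
open Pool Pool.MP_b4086f_gt

namespace Pool.Agent.S13790

theorem result :
    ¬ (∀ A : Set {f : (ℕ → ℝ) → ℝ // Continuous f}, ¬ IsClosed A →
      ∃ B : Set {f : (ℕ → ℝ) → ℝ // Continuous f}, B ⊆ A ∧
        ∃ x : {f : (ℕ → ℝ) → ℝ // Continuous f}, x ∉ A ∧ closure B = insert x B) := by
  open Pool.Agent.H.MP_b4086f in
  intro H
  obtain ⟨B, hB, x, hx, hc⟩ := H (Set.range g) (fun h => by
    refine unc Set.univ ?_ ?_
    · rw [Set.image_univ, qd.closure_range, interior_univ]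
      exact Set.univ_nonempty.ne_empty
    · rw [Set.image_univ, h.closure_eq]
      exact Set.countable_range g)
  have e : g '' (g ⁻¹' B) = B := Set.image_preimage_eq_of_subset hB
  by_cases h : interior (closure (q '' (g ⁻¹' B))) = ∅
  · have := cls _ h
    rw [e, hc] at this
    exact hx (this (Set.mem_insert _ _))
  · refine unc _ h ?_
    rw [e, hc]
    exact ((Set.countable_range g).mono hB).insert x

end Pool.Agent.S13790
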