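import Pool.Statements.S13812
import Pool.Agent.H.MP_b81b72_gt.A

set_option autoImplicit false
open Pool Pool.MP_b81b72_gt

namespace Pool.Agent.S13812

theorem result :
    ¬ (∀ T : ∀ (G : Type) [AddCommGroup G], AddGroupTopology G,
      (∀ (G H : Type) [AddCommGroup G] [AddCommGroup H] (f : G →+ H),
        @Continuous G H (T G).toTopologicalSpace (T H).toTopologicalSpace f) →
      ∀ (G : Type) [AddCommGroup G], Infinite G →
        @T2Space G (T G).toTopologicalSpace →
        ∃ B : Set (Set G),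
          @TopologicalSpace.IsTopologicalBasis G (T G).toTopologicalSpace B ∧
          ∀ s ∈ B, @IsClopen G (T G).toTopologicalSpace s) := by
  intro h
  have h1 := h H.MP_b81b72_gt.TT H.MP_b81b72_gt.TT_fun H.MP_b81b72_gt.EE inferInstance
  rw [H.MP_b81b72_gt.TT_E] at h1
  obtain ⟨B, hB, hc⟩ := h1 inferInstance
  obtain ⟨U, hU, h0, hb⟩ := hB.mem_nhds_iff.1 (Metric.ball_mem_nhds 0 one_pos)
  exact H.MP_b81b72_gt.not_zd U (hc U hU) h0 hb

end Pool.Agent.S13812
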