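import Pool.Statements.S13822
import Pool.Agent.H.MP_ba0d78_gt.A

set_option autoImplicit false
open Pool Pool.MP_ba0d78_gt

namespace Pool.Agent.S13822

theorem result :
    ¬ (∀ (X : Type) [TopologicalSpace X] [T35Space X],
      ((∀ S : Set {f : X → ℝ // Continuous f}, IsClosed S →
          (∀ u : ℕ → {f : X → ℝ // Continuous f}, (∀ n, u n ∈ S) →
            ∃ z ∈ S, MapClusterPt z Filter.atTop u) →
          IsCompact S) ↔
       (∀ A : Set {f : X → ℝ // Continuous f},
          (∀ u : ℕ → {f : X → ℝ // Continuous f}, (∀ n, u n ∈ A) →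
            ∃ z, MapClusterPt z Filter.atTop u) →
          IsCompact (closure A)))) := by
  intro h
  obtain ⟨M, h1, h2, hM, h3⟩ := Pool.Agent.H.MP_ba0d78_gt.exists_mad
  exact Pool.Agent.H.MP_ba0d78_gt.not_g h1 h2 hM h3
    ((h (Pool.Agent.H.MP_ba0d78_gt.X M)).1 fun S _ hS => Pool.Agent.H.MP_ba0d78_gt.iso M S hS)

end Pool.Agent.S13822
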