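import Pool.Statements.S13824
import Pool.Agent.H.MP_ba31d6_gt.C

set_option autoImplicit false
open Pool Pool.MP_ba31d6_gt

namespace Pool.Agent.S13824

theorem result :
    ¬ (∀ r : ℕ, 2 ≤ r → ∀ N : ℕ,
    IsGreatest {n : ℕ | ∃ v : Fin n → EuclideanSpace ℝ (Fin r), ∃ c : ℝ, c < 1 ∧
        (∀ i, ‖v i‖ = 1) ∧ ∀ i j, i ≠ j → |@inner ℝ _ _ (v i) (v j)| = c} N →
    ((∀ (M : Type) [MetricSpace M],
        (∀ s : Finset M, s.card ≤ N + 1 →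
          ∃ f : M → EuclideanSpace ℝ (Fin r), (∀ x ∈ s, ‖f x‖ = 1) ∧
            ∀ x ∈ s, ∀ y ∈ s, Real.arccos |@inner ℝ _ _ (f x) (f y)| = dist x y) →
        ∃ f : M → EuclideanSpace ℝ (Fin r), (∀ x, ‖f x‖ = 1) ∧
          ∀ x y, Real.arccos |@inner ℝ _ _ (f x) (f y)| = dist x y) ∧
     ¬ (∀ (M : Type) [MetricSpace M],
        (∀ s : Finset M, s.card ≤ N →
          ∃ f : M → EuclideanSpace ℝ (Fin r), (∀ x ∈ s, ‖f x‖ = 1) ∧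
            ∀ x ∈ s, ∀ y ∈ s, Real.arccos |@inner ℝ _ _ (f x) (f y)| = dist x y) →
        ∃ f : M → EuclideanSpace ℝ (Fin r), (∀ x, ‖f x‖ = 1) ∧
          ∀ x y, Real.arccos |@inner ℝ _ _ (f x) (f y)| = dist x y))) := by
  intro h
  set S : Set ℕ := {n : ℕ | ∃ v : Fin n → EuclideanSpace ℝ (Fin 13), ∃ c : ℝ, c < 1 ∧
        (∀ i, ‖v i‖ = 1) ∧ ∀ i j, i ≠ j → |@inner ℝ _ _ (v i) (v j)| = c} with hS
  have hb : ∀ n ∈ S, n ≤ 32 := fun n hn => Pool.Agent.H.MP_ba31d6_gt.bound hn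
  have hbdd : BddAbove S := ⟨32, hb⟩
  have hne : S.Nonempty := ⟨0, fun i => i.elim0, 0, one_pos, fun i => i.elim0, fun i => i.elim0⟩
  have hmem := Nat.sSup_mem hne hbdd
  obtain ⟨f, h1, h2⟩ := (h 13 (by norm_num) (sSup S) ⟨hmem, fun n hn => le_csSup hbdd hn⟩).1
    Pool.Agent.H.MP_ba31d6_gt.M fun s hs =>
      Pool.Agent.H.MP_ba31d6_gt.embed_small s (by have := hb _ hmem; omega)
  exact Pool.Agent.H.MP_ba31d6_gt.not_embed f h1 h2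

end Pool.Agent.S13824
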