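import Pool.Statements.S13830
import Pool.Agent.H.MP_badb58_gt.A

set_option autoImplicit false
open Pool Pool.MP_badb58_gt

namespace Pool.Agent.S13830

theorem result :
    ¬ (∀ (Cons : (Y : Type) → TopologicalSpace Y → Prop),
    (∀ (Y : Type) (t : TopologicalSpace Y), Cons Y t ↔
      ∀ F : Set (Set Y), (∀ U ∈ F, @IsOpen Y t U) →
        (∀ U V : Set Y, U ∈ F → @IsOpen Y t V → U ⊆ V → V ∈ F) →
        (∀ D : Set (Set Y), D.Nonempty → (∀ U ∈ D, @IsOpen Y t U) →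
            DirectedOn (· ⊆ ·) D → ⋃₀ D ∈ F → ∃ U ∈ D, U ∈ F) →
        ∀ U ∈ F, ∃ K : Set Y, @IsCompact Y t K ∧ K ⊆ U ∧
          ∀ V : Set Y, @IsOpen Y t V → K ⊆ V → V ∈ F) →
    ∀ (X : Type) [TopologicalSpace X] [T0Space X], Cons X inferInstance →
      Cons {K : Set X // K.Nonempty ∧ IsCompact K ∧
              ∀ x : X, (∀ U : Set X, IsOpen U → K ⊆ U → x ∈ U) → x ∈ K}
        (TopologicalSpace.generateFrom
          {S | ∃ U : Set X, IsOpen U ∧ S = {K | K.1 ⊆ U}})) := by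
  intro h
  exact H.MP_badb58_gt.not_cons_PS (h (fun Y t => @H.MP_badb58_gt.Cons Y t)
    (fun Y t => ⟨fun h F h1 h2 h3 => h F ⟨h1, h2, h3⟩, fun h F hF => h F hF.1 hF.2.1 hF.2.2⟩)
    H.MP_badb58_gt.XX H.MP_badb58_gt.FC_X.cons)

end Pool.Agent.S13830
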