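import Pool.Statements.S13844
import Pool.Agent.H.MP_be0572_gt.E

set_option autoImplicit false
open Pool Pool.MP_be0572_gt

namespace Pool.Agent.S13844

theorem result :
    ¬ (∀ (Y : Type) [MetricSpace Y] (f : (Fin 3 → ℝ) → Y)
      (P : ℕ → AffineSubspace ℝ (Fin 3 → ℝ)),
      ContinuousOn f {x : Fin 3 → ℝ | ∀ i, 0 ≤ x i ∧ x i ≤ 1} →
      (∀ i, Module.finrank ℝ (P i).direction = 2) →
      (∀ y : Y, (f ⁻¹' {y} ∩ {x : Fin 3 → ℝ | ∀ i, 0 ≤ x i ∧ x i ≤ 1}).Nontrivial →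
        f ⁻¹' {y} ∩ {x : Fin 3 → ℝ | ∀ i, 0 ≤ x i ∧ x i ≤ 1} ⊆ ⋃ k, (P k : Set (Fin 3 → ℝ))) →
      ¬ (∀ ε : ℝ, ε > 0 → ∃ (n : ℕ) (U : Fin n → Set Y),
          (∀ j, IsOpen (U j)) ∧
          (∀ j, ∀ a ∈ U j, ∀ b ∈ U j, dist a b < ε) ∧
          f '' {x : Fin 3 → ℝ | ∀ i, 0 ≤ x i ∧ x i ≤ 1} ⊆ ⋃ j, U j ∧
          ∀ y ∈ f '' {x : Fin 3 → ℝ | ∀ i, 0 ≤ x i ∧ x i ≤ 1},
            {j : Fin n | y ∈ U j}.ncard ≤ 3)) := by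
  intro hall
  obtain ⟨H, P, hP, hf⟩ := Pool.Agent.H.MP_be0572_gt.main
  have hG : IsCompact {x : Fin 3 → ℝ | ∀ i, 0 ≤ x i ∧ x i ≤ 1} := by
    have : {x : Fin 3 → ℝ | ∀ i, 0 ≤ x i ∧ x i ≤ 1} = Set.Icc 0 1 := by
      ext x
      exact ⟨fun h => ⟨fun i => (h i).1, fun i => (h i).2⟩, fun h i => ⟨h.1 i, h.2 i⟩⟩
    rw [this]
    exact isCompact_Icc
  refine hall _ (Pool.Agent.H.MP_be0572_gt.ff H) P
    (Pool.Agent.H.MP_be0572_gt.ff_cont H).continuousOn hP ?_ ?_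
  · intro y hy x hx
    obtain ⟨z, hz, hzx⟩ := hy.exists_ne x
    exact hf x z hzx.symm (hx.1.trans hz.1.symm)
  · intro ε hε
    exact Pool.Agent.H.MP_be0572_gt.covers H hG hε

end Pool.Agent.S13844
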