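import Pool.Statements.S13853
import Pool.Agent.H.MP_bf94fe_gt.Main

set_option autoImplicit false
open Pool Pool.MP_bf94fe_gt

namespace Pool.Agent.S13853

theorem result :
    ∀ E : Set ℝ → Set ℝ → Prop,
      (∀ X Y : Set ℝ, E X Y ↔
        ∃ n : ℕ, ∃ P : Fin n → Set ℝ, ∃ g : Fin n → (ℝ ≃ᵢ ℝ),
          (∀ i, interior (closure (P i)) = P i ∧ Bornology.IsBounded (P i)) ∧
          Pairwise (fun i j => Disjoint (P i) (P j)) ∧
          Pairwise (fun i j => Disjoint ((g i) '' (P i)) ((g j) '' (P j))) ∧
          interior (closure (⋃ i, P i)) = X ∧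
          interior (closure (⋃ i, (g i) '' (P i))) = Y) →
      ∀ A B : Set ℝ,
        interior (closure A) = A → Bornology.IsBounded A →
        interior (closure B) = B → Bornology.IsBounded B →
        ∀ s t : ℝ,
          Disjoint A ((fun x => x + s) '' A) →
          Disjoint B ((fun x => x + t) '' B) →
          E (interior (closure (A ∪ (fun x => x + s) '' A)))
            (interior (closure (B ∪ (fun x => x + t) '' B))) →
          E A B := by
  intro E hE A B hA bA hB bB s t dA dB h
  exact (hE A B).2 (Pool.Agent.H.MP_bf94fe_gt.main hA bA hB bB s t dA dB ((hE _ _).1 h))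

end Pool.Agent.S13853
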