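import Pool.Statements.S13875
import Pool.Agent.H.MP_c1092b_gt.A

set_option autoImplicit false
open Pool Pool.MP_c1092b_gt

namespace Pool.Agent.S13875

theorem result :
    ∃ (P : Type) (_ : PartialOrder P),
      (∀ d : Set P, d.Nonempty → DirectedOn (· ≤ ·) d → ∃ x : P, IsLUB d x) ∧
      (∃ t : TopologicalSpace P,
        (∀ x : P, @closure P t {x} = Set.Iic x) ∧ @T0Space P t ∧
        (∀ 𝒦 : Set (Set P), 𝒦.Nonempty → DirectedOn (· ⊇ ·) 𝒦 →
          (∀ K ∈ 𝒦, @IsCompact P t K ∧ IsUpperSet K) →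
          ∀ U : Set P, @IsOpen P t U → ⋂₀ 𝒦 ⊆ U → ∃ K ∈ 𝒦, K ⊆ U)) ∧
      ¬ ∃ t : TopologicalSpace P,
        (∀ x : P, @closure P t {x} = Set.Iic x) ∧ @T0Space P t ∧ @QuasiSober P t := by
  haveI : Nonempty (Ordinal.omega.{0} 1).ToType :=
    Ordinal.nonempty_toType_iff.2 (Ordinal.omega_pos 1).ne'
  letI := WellFoundedLT.toOrderBot (α := (Ordinal.omega.{0} 1).ToType)
  letI := WellFoundedLT.conditionallyCompleteLinearOrderBot (Ordinal.omega.{0} 1).ToType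
  open H.MP_c1092b_gt in
  exact ⟨JJ (Ordinal.omega.{0} 1).ToType, inferInstance, dcpo,
    ⟨top _, closure_eq, t0, wf omega_bdd⟩, fun ⟨t, h1, _, h2⟩ => not_sober omega_bdd t h1 h2⟩

end Pool.Agent.S13875
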