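import Pool.Statements.S13883
import Pool.Agent.H.MP_e9bccb.C

set_option autoImplicit false
open Pool Pool.MP_c2bc14_gt

namespace Pool.Agent.S13883

theorem result :
    ∀ (X : Type) [TopologicalSpace X] [CompactSpace X] [T2Space X],
      (∀ A : Set X, ∃ (Y : Type) (tY : TopologicalSpace Y), CompactSpace Y ∧
        (∃ (κ : Type) (e : Y → κ → ℝ), Topology.IsEmbedding e ∧
          ∀ y, {i : κ | e y i ≠ 0}.Countable) ∧
        ∃ f : X → Y, Continuous f ∧ f ⁻¹' (f '' A) = A) →
      (∀ A : Set (X × X), ∃ (Y : Type) (tY : TopologicalSpace Y), CompactSpace Y ∧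
        (∃ (κ : Type) (e : Y → κ → ℝ), Topology.IsEmbedding e ∧
          ∀ y, {i : κ | e y i ≠ 0}.Countable) ∧
        ∃ f : X × X → Y, Continuous f ∧ f ⁻¹' (f '' A) = A) := by
  intro X _ _ _ h A
  obtain ⟨Γ, e, e1, e2⟩ := H.MP_e9bccb.corson (X := X) fun A => by
    obtain ⟨Y, _, -, ⟨Γ, e, e1, e2⟩, f, f1, f2⟩ := h A
    exact ⟨Γ, e ∘ f, e1.continuous.comp f1, fun x => e2 _, fun x y k hx =>
      f2 ▸ ⟨x, hx, e1.injective k⟩⟩
  have c : Continuous fun p : X × X => Sum.elim (e p.1) (e p.2) := continuous_pi fun θ => by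
    rcases θ with θ | θ
    · exact (continuous_apply θ).comp (e1.continuous.comp continuous_fst)
    · exact (continuous_apply θ).comp (e1.continuous.comp continuous_snd)
  refine ⟨X × X, inferInstance, inferInstance, ⟨Γ ⊕ Γ, _, (c.isClosedEmbedding fun x y k =>
    Prod.ext (e1.injective (funext fun θ => congrFun k (Sum.inl θ)))
      (e1.injective (funext fun θ => congrFun k (Sum.inr θ)))).isEmbedding, fun p => ?_⟩,
    id, continuous_id, by simp⟩
  refine (((e2 p.1).image Sum.inl).union ((e2 p.2).image Sum.inr)).mono ?_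
  rintro (θ | θ) hθ
  · exact Or.inl ⟨θ, hθ, rfl⟩
  · exact Or.inr ⟨θ, hθ, rfl⟩

end Pool.Agent.S13883
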