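import Pool.Statements.S13903

set_option autoImplicit false
open Pool Pool.MP_c502b8_gt

namespace Pool.Agent.S13903

theorem result :
    ∀ (G H : Type) [Group G] [TopologicalSpace G] [IsTopologicalGroup G]
      [Group H] [TopologicalSpace H] [IsTopologicalGroup H],
      (∀ U : ℕ → Set G, (∀ n, IsOpen (U n)) → Set.univ ⊆ ⋃ n, U n →
          ∃ s : Finset ℕ, Set.univ ⊆ ⋃ n ∈ s, U n) →
      (∀ K : Subgroup G, IsClosed (K : Set G) → TopologicalSpace.SeparableSpace ↥K) →
      (∃ N : Set (Set H), N.Countable ∧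
          ∀ (x : H) (U : Set H), IsOpen U → x ∈ U → ∃ A ∈ N, x ∈ A ∧ A ⊆ U) →
      ∀ K : Subgroup (G × H), IsClosed (K : Set (G × H)) →
        TopologicalSpace.SeparableSpace ↥K := by
  classical
  intro G H _ _ _ _ _ _ hG hs ⟨N, hN, hN'⟩ K hK
  have hc := isCountablyCompact_iff_seq_clusterPt.1
    (isCountablyCompact_iff_countable_open_cover.2 fun {U} h1 h2 => hG U h1 h2)
  obtain ⟨a, ha⟩ := (hN.insert Set.univ).exists_eq_range (Set.insert_nonempty _ _)
  have : ∀ s : Finset ℕ, ∃ k : K, (∃ x : K, ∀ i ∈ s, x.1.2 ∈ a i) → ∀ i ∈ s, k.1.2 ∈ a i := by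
    intro s
    by_cases h : ∃ x : K, ∀ i ∈ s, x.1.2 ∈ a i
    · obtain ⟨x, hx⟩ := h
      exact ⟨x, fun _ => hx⟩
    · exact ⟨1, fun h' => absurd h' h⟩
  choose k hk using this
  have hi : Continuous (MonoidHom.inl G H) := continuous_id.prodMk continuous_const
  obtain ⟨E, hE, hE'⟩ := (hs (K.comap (MonoidHom.inl G H)) (hK.preimage hi)).exists_countable_dense
  haveI := hE.to_subtype
  let j : K.comap (MonoidHom.inl G H) → K := fun e => ⟨(e.1, 1), e.2⟩
  have hj : Continuous j := (continuous_subtype_val.prodMk continuous_const).subtype_mk _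
  refine ⟨⟨_, Set.countable_range fun p : Finset ℕ × E => k p.1 * j p.2.1, fun x => ?_⟩⟩
  let s : ℕ → Finset ℕ := fun n => (Finset.range n).filter fun i => x.1.2 ∈ a i
  have h1 : Filter.Tendsto (fun n => (k (s n)).1.2) Filter.atTop (nhds x.1.2) := by
    refine tendsto_nhds.2 fun U hU hx => ?_
    obtain ⟨A, hA, hxA, hAU⟩ := hN' _ U hU hx
    obtain ⟨i, rfl⟩ : A ∈ Set.range a := ha ▸ Set.mem_insert_of_mem _ hA
    filter_upwards [Filter.eventually_gt_atTop i] with n hn
    exact hAU (hk (s n) ⟨x, fun i hi => (Finset.mem_filter.1 hi).2⟩ i (by simp [s, hn, hxA]))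
  obtain ⟨g, -, hg⟩ := hc (fun n => (k (s n)).1.1) (Filter.Eventually.of_forall fun _ => trivial)
  obtain ⟨u, hu, hu'⟩ := mapClusterPt_iff_ultrafilter.1 hg
  have h2 : Filter.Tendsto (fun n => (k (s n)).1) u (nhds (g, x.1.2)) :=
    hu'.prodMk_nhds (h1.mono_left hu)
  have h3 : (g, x.1.2) ∈ K :=
    hK.mem_of_tendsto h2 (Filter.Eventually.of_forall fun n => (k _).2)
  have h4 : (⟨_, h3⟩ : K) ∈ closure (Set.range k) :=
    mem_closure_of_tendsto (f := fun n => k (s n)) (b := u) (tendsto_subtype_rng.2 h2)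
      (Filter.Eventually.of_forall fun n => ⟨_, rfl⟩)
  have h5 : g⁻¹ * x.1.1 ∈ K.comap (MonoidHom.inl G H) := by
    have := K.mul_mem (K.inv_mem h3) x.2
    rw [Subgroup.mem_comap]
    convert this using 1
    ext <;> simp
  have h6 := map_mem_closure₂ (f := fun (y : K) e => y * j e)
    (continuous_fst.mul (hj.comp continuous_snd)) h4 (hE' ⟨_, h5⟩)
    (u := Set.range fun p : Finset ℕ × E => k p.1 * j p.2.1) (by
      rintro _ ⟨t, rfl⟩ e he
      exact ⟨(t, ⟨e, he⟩), rfl⟩)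
  convert h6 using 1
  ext <;> simp [j]

end Pool.Agent.S13903
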