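import Pool.Statements.S13912
import Pool.Agent.H.MP_866953.B

set_option autoImplicit false
open Pool Pool.MP_c610d5_gt

namespace Pool.Agent.S13912

theorem result :
    ¬ (∀ (X Y : Type) [TopologicalSpace X] [TopologicalSpace Y] [T35Space X] [T35Space Y],
      Nonempty (UniformEquiv {f : X → ℝ // Continuous f} {g : Y → ℝ // Continuous g}) →
      ((∃ K : ℕ → Set X, (∀ n, IsCompact (K n)) ∧
          ∀ C : Set X, IsCompact C → ∃ n, C ⊆ K n) ∧
        (∀ A : Set X, (∀ C : Set X, IsCompact C → IsClosed (A ∩ C)) → IsClosed A)) →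
      ((∃ K : ℕ → Set Y, (∀ n, IsCompact (K n)) ∧
          ∀ C : Set Y, IsCompact C → ∃ n, C ⊆ K n) ∧
        (∀ A : Set Y, (∀ C : Set Y, IsCompact C → IsClosed (A ∩ C)) → IsClosed A))) := by
  open Pool.Agent.H.MP_866953 in
  intro H
  refine bad1 ((H ℝ (ℝ ⊕ D) eqR ⟨⟨fun n => Metric.closedBall 0 n, fun n => isCompact_closedBall _ _,
    fun C hC => ?_⟩, fun A hA => ?_⟩).2 _ bad2)
  · obtain ⟨r, hr⟩ := hC.isBounded.subset_closedBall 0
    obtain ⟨n, hn⟩ := exists_nat_ge r
    exact ⟨n, hr.trans (Metric.closedBall_subset_closedBall hn)⟩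
  · refine isClosed_of_closure_subset fun x hx => ?_
    have h1 := (Metric.isOpen_ball (x := x) (ε := 1)).closure_inter ⟨hx, Metric.mem_ball_self one_pos⟩
    exact ((hA _ (isCompact_closedBall x 1)).closure_subset
      (closure_mono (Set.inter_subset_inter_right _ Metric.ball_subset_closedBall) h1)).1

end Pool.Agent.S13912
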