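import Pool.Statements.S13913
import Pool.Agent.H.MP_11262c.B

set_option autoImplicit false
open Pool Pool.MP_c6464f_gt

namespace Pool.Agent.S13913

open Set Filter Topology Pool.Agent.H.MP_11262c

theorem result :
  ∀ (L : Type) [TopologicalSpace L] [T35Space L] [LindelofSpace L],
    (∀ S : Set L, S.Nonempty → ∃ x ∈ S, ∃ U : Set L, IsOpen U ∧ U ∩ S = {x}) →
    ∀ K : Set {f : L → ℝ // Continuous f}, IsCompact K →
    ∀ Y : Set {g : K → ℝ // Continuous g},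
    ∀ 𝒰 : Set (Set Y), (∀ U ∈ 𝒰, IsOpen U) → ⋃₀ 𝒰 = Set.univ →
    ∃ 𝒢 : ℕ → Set (Set Y), (∀ n, ∀ G ∈ 𝒢 n, IsOpen G ∧ ∃ U ∈ 𝒰, G ⊆ U) ∧
      ∀ y : Y, ∃ n, (∃ G ∈ 𝒢 n, y ∈ G) ∧ {G ∈ 𝒢 n | y ∈ G}.Finite := by
  intro L _ _ _ hs K hK Y 𝒰 u1 u2
  obtain ⟨_, _, hw⟩ := wo hs
  have := isCompact_iff_compactSpace.1 hK
  choose c hc using fun j : ℕ => sld (h := fun k : K => k.1.1) hw (by fun_prop) (fun k => k.1.2)
    (Subtype.val_injective.comp Subtype.val_injective) _ (Nat.one_div_pos_of_nat (n := j))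
  let ι : {φ : C(K, ℝ) | ⟨φ, φ.2⟩ ∈ Y} → Y := fun φ => ⟨⟨φ.1, φ.1.2⟩, φ.2⟩
  let e : Y → {φ : C(K, ℝ) | ⟨φ, φ.2⟩ ∈ Y} := fun y => ⟨⟨y.1.1, y.1.2⟩, y.2⟩
  obtain ⟨v, v1, v2, v3, v4⟩ := precise_refinement (fun U : 𝒰 => ι ⁻¹' U) (fun U =>
    (u1 _ U.2).preimage (((continuous_pi fun k => (continuous_eval_const k).comp
      continuous_subtype_val).subtype_mk _).subtype_mk _)) (eq_univ_of_forall fun φ =>
        (u2.ge (mem_univ (ι φ))).elim fun U k => mem_iUnion.2 ⟨⟨U, k.1⟩, k.2⟩)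
  obtain ⟨s, hs⟩ := exists_surjective_nat (ℕ × ℕ)
  refine ⟨fun n => range fun U : 𝒰 => U.1 ∩ interior {y | c (s n).1 (e y) = (s n).2 → e y ∈ v U},
    fun n => forall_mem_range.2 fun U => ⟨(u1 _ U.2).inter isOpen_interior, _, U.2,
      inter_subset_left⟩, fun y => ?_⟩
  obtain ⟨U, hU⟩ := mem_iUnion.1 (v2.ge (mem_univ (e y)))
  obtain ⟨ε, e0, he⟩ := Metric.isOpen_iff.1 (v1 U) _ hU
  obtain ⟨j, hj⟩ := exists_nat_one_div_lt e0
  obtain ⟨n, hn⟩ := hs (j, c j (e y))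
  refine ⟨n, ⟨_, ⟨U, rfl⟩, v4 U hU, mem_interior_iff_mem_nhds.2 ?_⟩,
    ((v3.point_finite (e y)).image fun U : 𝒰 => U.1 ∩ interior
      {y | c (s n).1 (e y) = (s n).2 → e y ∈ v U}).subset ?_⟩
  · rw [hn]
    exact mem_of_superset ((continuous_subtype_val.comp continuous_subtype_val).continuousAt (x := y)
      (hc j (e y))) fun z a b => he (((ContinuousMap.dist_le Nat.one_div_pos_of_nat.le).2
        (a (e z) rfl b)).trans_lt hj)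
  · rintro _ ⟨⟨U, rfl⟩, k⟩
    exact ⟨U, interior_subset k.2 (by rw [hn]), rfl⟩

end Pool.Agent.S13913
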