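import Pool.Statements.S13915

set_option autoImplicit false
open Pool Pool.MP_c67c46_gt

namespace Pool.Agent.S13915

open Set Filter Topology

theorem ultra {Y : Type} (g : Filter Y) (E : ℕ → Set Y) (hE : Antitone E)
    (h : ∀ m, (g ⊓ 𝓟 (E m)).NeBot) : ∃ U : Ultrafilter Y, (U : Filter Y) ≤ g ∧ ∀ m, E m ∈ U := by
  have hne : (⨅ m, g ⊓ 𝓟 (E m)).NeBot :=
    iInf_neBot_of_directed' (Antitone.directed_ge fun a b hab =>
      inf_le_inf_left g (principal_mono.2 (hE hab))) h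
  refine ⟨Ultrafilter.of (⨅ m, g ⊓ 𝓟 (E m)), (Ultrafilter.of_le _).trans
    ((iInf_le _ 0).trans inf_le_left), fun m => ?_⟩
  exact le_principal_iff.1 ((Ultrafilter.of_le _).trans ((iInf_le _ m).trans inf_le_right))

theorem lind {Y J : Type} [TopologicalSpace Y] [Countable J] (D : ℕ → J → Set Y)
    (hc : ∀ m y, ∃ j, y ∈ D m j)
    (hu : ∀ U : Ultrafilter Y, (∀ m, ∃ j, D m j ∈ U) → ∃ y, (U : Filter Y) ≤ 𝓝 y) :
    LindelofSpace Y := by
  refine ⟨fun f hf hcf _ => ?_⟩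
  have step : ∀ (m : ℕ) (E : {E : Set Y // (f ⊓ 𝓟 E).NeBot}), ∃ j, (f ⊓ 𝓟 (E.1 ∩ D m j)).NeBot := by
    intro m E
    by_contra h
    push Not at h
    have h1 : ∀ j, (E.1 ∩ D m j)ᶜ ∈ f := fun j => inf_principal_eq_bot.1 (h j)
    refine E.2.ne (inf_principal_eq_bot.2 (mem_of_superset (countable_iInter_mem.2 h1) ?_))
    intro y hy hyE
    obtain ⟨j, hj⟩ := hc m y
    exact mem_iInter.1 hy j ⟨hyE, hj⟩
  choose j hj using step
  let E : ℕ → {E : Set Y // (f ⊓ 𝓟 E).NeBot} := fun m => Nat.rec ⟨univ, by simpa using hf⟩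
    (fun m E => ⟨E.1 ∩ D m (j m E), hj m E⟩) m
  obtain ⟨U, u1, u2⟩ := ultra f (fun m => (E m).1)
    (antitone_nat_of_succ_le fun m => inter_subset_left) fun m => (E m).2
  obtain ⟨y, hy⟩ := hu U fun m => ⟨j m (E m), mem_of_superset (u2 (m + 1)) inter_subset_right⟩
  exact ⟨y, trivial, (U.neBot.mono (le_inf hy u1) : (𝓝 y ⊓ f).NeBot)⟩

theorem cl_inter {Y : Type} [TopologicalSpace Y] [NormalSpace Y] {C D : Set Y} (hC : IsClosed C)
    (hD : IsClosed D) {p : StoneCech Y} (h1 : p ∈ closure (stoneCechUnit '' C))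
    (h2 : p ∈ closure (stoneCechUnit '' D)) : p ∈ closure (stoneCechUnit '' (C ∩ D)) := by
  by_contra h
  obtain ⟨N, n1, n2, n3⟩ := exists_mem_nhds_isClosed_subset
    (isClosed_closure.isOpen_compl.mem_nhds h)
  have hN : IsClosed (stoneCechUnit ⁻¹' N : Set Y) := n2.preimage continuous_stoneCechUnit
  obtain ⟨f, f0, f1, f2⟩ := exists_continuous_zero_one_of_isClosed (hC.inter hN) (hD.inter hN) (by
    rw [disjoint_left]
    exact fun y a b => n3 a.2 (subset_closure ⟨y, ⟨a.1, b.1⟩, rfl⟩))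
  have hf : Continuous fun y => (⟨f y, f2 y⟩ : Icc (0 : ℝ) 1) := f.continuous.subtype_mk _
  have key : ∀ (S : Set Y) (c : ℝ), p ∈ closure (stoneCechUnit '' S) →
      (∀ y ∈ S ∩ stoneCechUnit ⁻¹' N, f y = c) → (stoneCechExtend hf p).1 = c := by
    intro S c a b
    have a1 : p ∈ closure (interior N ∩ stoneCechUnit '' S) :=
      isOpen_interior.inter_closure ⟨mem_interior_iff_mem_nhds.2 n1, a⟩
    refine closure_minimal (t := {q | (stoneCechExtend hf q).1 = c}) ?_ (isClosed_eq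
      (continuous_subtype_val.comp (continuous_stoneCechExtend hf)) continuous_const) a1
    rintro _ ⟨c1, y, c2, rfl⟩
    show (stoneCechExtend hf (stoneCechUnit y)).1 = c
    rw [stoneCechExtend_stoneCechUnit]
    exact b y ⟨c2, interior_subset (s := N) c1⟩
  have e0 := key C 0 h1 fun y hy => f0 hy
  have e1 := key D 1 h2 fun y hy => f1 hy
  rw [e0] at e1
  exact zero_ne_one e1

theorem ksd {Y J : Type} [TopologicalSpace Y] [T35Space Y] [Countable J] [Nonempty J]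
    (D : ℕ → J → Set Y) (hD : ∀ m j, IsClosed (D m j)) (hc : ∀ m y, ∃ j, y ∈ D m j)
    (hu : ∀ U : Ultrafilter Y, (∀ m, ∃ j, D m j ∈ U) → ∃ y, (U : Filter Y) ≤ 𝓝 y) :
    ∃ A : ℕ → ℕ → Set (StoneCech Y), (∀ n m, IsCompact (A n m)) ∧
      range (stoneCechUnit : Y → StoneCech Y) = ⋂ n, ⋃ m, A n m := by
  haveI := lind D hc hu
  obtain ⟨s, hs⟩ := exists_surjective_nat J
  refine ⟨fun n m => closure (stoneCechUnit '' D n (s m)), fun _ _ => isClosed_closure.isCompact,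
    Subset.antisymm ?_ fun p hp => ?_⟩
  · rintro _ ⟨y, rfl⟩
    refine mem_iInter.2 fun n => ?_
    obtain ⟨j, hj⟩ := hc n y
    obtain ⟨m, rfl⟩ := hs j
    exact mem_iUnion.2 ⟨m, subset_closure ⟨y, hj, rfl⟩⟩
  · choose j hj using fun n => mem_iUnion.1 (mem_iInter.1 hp n)
    let E : ℕ → Set Y := fun m => Nat.rec univ (fun m E => E ∩ D m (s (j m))) m
    have hE : ∀ m, IsClosed (E m) ∧ p ∈ closure (stoneCechUnit '' E m) := by
      intro m
      induction m with
      | zero =>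
        refine ⟨isClosed_univ, ?_⟩
        show p ∈ closure (stoneCechUnit '' univ)
        rw [image_univ]
        exact denseRange_stoneCechUnit p
      | succ m ih => exact ⟨ih.1.inter (hD _ _), cl_inter ih.1 (hD _ _) ih.2 (hj m)⟩
    obtain ⟨U, u1, u2⟩ := ultra (comap stoneCechUnit (𝓝 p)) E
      (antitone_nat_of_succ_le fun m => inter_subset_left) (fun m => by
        rw [inf_principal_neBot_iff]
        intro V hV
        obtain ⟨W, w1, w2⟩ := mem_comap.1 hV
        obtain ⟨_, a, y, b, rfl⟩ := mem_closure_iff_nhds.1 (hE m).2 W w1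
        exact ⟨y, w2 a, b⟩)
    obtain ⟨y, hy⟩ := hu U fun m => ⟨_, mem_of_superset (u2 (m + 1)) inter_subset_right⟩
    exact ⟨y, tendsto_nhds_unique (l := (U : Filter Y))
      ((continuous_stoneCechUnit.tendsto y).mono_left hy) (tendsto_iff_comap.2 u1)⟩

theorem bump {X : Type} [TopologicalSpace X] [CompletelyRegularSpace X] (x : X) (O : Set X)
    (hO : IsOpen O) (hx : x ∈ O) :
    ∃ f : C(X, ℝ), f x = 1 ∧ (∀ z, z ∉ O → f z = 0) ∧ ∀ z, |f z| ≤ 1 := by
  obtain ⟨f, f1, f2, f3⟩ := CompletelyRegularSpace.completely_regular x Oᶜ hO.isClosed_compl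
    (fun h => h hx)
  refine ⟨⟨fun z => 1 - (f z : ℝ), continuous_const.sub (continuous_subtype_val.comp f1)⟩, ?_,
    fun z hz => ?_, fun z => ?_⟩
  · show 1 - (f x : ℝ) = 1
    rw [f2]; simp
  · show 1 - (f z : ℝ) = 0
    rw [f3 hz]; simp
  · show |1 - (f z : ℝ)| ≤ 1
    have := (f z).2.1
    have := (f z).2.2
    rw [abs_le]
    constructor <;> linarith

def pw (X : Type) [TopologicalSpace X] : TopologicalSpace C(X, ℝ) :=
  TopologicalSpace.induced (fun f : C(X, ℝ) => (f : X → ℝ)) inferInstance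

theorem ev_cont {X : Type} [TopologicalSpace X] (x : X) :
    @Continuous _ _ (pw X) _ fun f : C(X, ℝ) => f x :=
  @Continuous.comp _ _ _ (pw X) _ _ _ _ (continuous_apply x) continuous_induced_dom

theorem fsupp {X : Type} [TopologicalSpace X] (φ : C(X, ℝ) →ₗ[ℝ] ℝ)
    (h : @Continuous _ _ (pw X) _ φ) : ∃ s : Finset X, ∀ f : C(X, ℝ), (∀ x ∈ s, f x = 0) → φ f = 0 := by
  letI := pw X
  have h1 : φ ⁻¹' Metric.ball 0 1 ∈ @nhds _ (pw X) 0 :=
    (@Continuous.continuousAt _ _ (pw X) _ _ _ h) (by rw [map_zero]; exact Metric.ball_mem_nhds _ one_pos)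
  rw [pw, nhds_induced, mem_comap] at h1
  obtain ⟨V, v1, v2⟩ := h1
  rw [nhds_pi, Filter.mem_pi] at v1
  obtain ⟨I, i1, t, t1, t2⟩ := v1
  refine ⟨i1.toFinset, fun f hf => ?_⟩
  by_contra hne
  have : ((φ f)⁻¹ • f) ∈ φ ⁻¹' Metric.ball 0 1 := v2 (t2 fun x hx => by
    have h0 : ((φ f)⁻¹ • f) x = (0 : C(X, ℝ)) x := by
      simp [hf x (i1.mem_toFinset.2 hx)]
    show ((φ f)⁻¹ • f) x ∈ t x
    rw [h0]
    exact mem_of_mem_nhds (t1 x))
  rw [mem_preimage, map_smul, smul_eq_mul, inv_mul_cancel₀ hne] at this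
  simp at this

theorem rep {X : Type} [TopologicalSpace X] (φ : C(X, ℝ) →ₗ[ℝ] ℝ)
    (h : @Continuous _ _ (pw X) _ φ) : ∃ (s : Finset X) (t : X → ℝ), (∀ x ∈ s, t x ≠ 0) ∧
      ∀ f : C(X, ℝ), φ f = ∑ x ∈ s, t x * f x := by
  classical
  obtain ⟨s, hs⟩ := fsupp φ h
  let ev : s → C(X, ℝ) →ₗ[ℝ] ℝ := fun x =>
    { toFun := fun f => f x.1, map_add' := fun _ _ => rfl, map_smul' := fun _ _ => rfl }
  obtain ⟨c, hc⟩ := (Submodule.mem_span_range_iff_exists_fun ℝ).1
    (mem_span_of_iInf_ker_le_ker (L := ev) (K := φ) fun f hf =>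
      hs f fun x hx => (Submodule.mem_iInf _).1 hf ⟨x, hx⟩)
  let t : X → ℝ := fun x => if h : x ∈ s then c ⟨x, h⟩ else 0
  refine ⟨s.filter fun x => t x ≠ 0, t, fun x hx => (Finset.mem_filter.1 hx).2, fun f => ?_⟩
  rw [Finset.sum_filter_of_ne (p := fun x => t x ≠ 0) (f := fun x => t x * f x)
    (fun x _ h h0 => h (by rw [h0, zero_mul])), ← hc,
    LinearMap.sum_apply, ← Finset.sum_coe_sort s]
  refine Finset.sum_congr rfl fun x _ => ?_
  show c x * f x.1 = t x.1 * f x.1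
  simp only [t, dif_pos x.2]

def Len {X : Type} [TopologicalSpace X] (φ : C(X, ℝ) → ℝ) (n : ℕ) : Prop :=
  ∀ f : Fin (n + 1) → C(X, ℝ), (∀ i j, i ≠ j → ∀ z, f i z = 0 ∨ f j z = 0) → ∃ i, φ (f i) = 0

theorem extract {X : Type} [TopologicalSpace X] [T35Space X] (φ : C(X, ℝ) → ℝ) (s : Finset X)
    (t : X → ℝ) (ht : ∀ x ∈ s, t x ≠ 0) (hφ : ∀ f : C(X, ℝ), φ f = ∑ x ∈ s, t x * f x) :
    (∀ n, Len φ n → s.card ≤ n) ∧
    (∀ k : ℝ, (∀ f : C(X, ℝ), (∀ z, |f z| ≤ 1) → |φ f| ≤ k) → ∀ x ∈ s, |t x| ≤ k) ∧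
    ∀ C, IsClosed C → (∀ f : C(X, ℝ), (∀ z ∈ C, f z = 0) → φ f = 0) → ∀ x ∈ s, x ∈ C := by
  obtain ⟨U, u1, u2⟩ := s.finite_toSet.t2_separation
  have key : ∀ x ∈ s, ∀ f : C(X, ℝ), f x = 1 → (∀ z, z ∉ U x → f z = 0) → φ f = t x := by
    intro x hx f f1 f2
    rw [hφ, Finset.sum_eq_single x, f1, mul_one]
    · intro b hb hne
      rw [f2 b fun h => disjoint_left.1 (u2 hb hx hne) (u1 b).1 h, mul_zero]
    · exact fun h => absurd hx h
  refine ⟨fun n hn => ?_, fun k hk x hx => ?_, fun C hC h x hx => ?_⟩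
  · by_contra hlt
    obtain ⟨j⟩ : Nonempty (Fin (n + 1) ↪ s) :=
      Function.Embedding.nonempty_of_card_le (by simpa using not_le.1 hlt)
    choose f f1 f2 _ using fun x => bump x (U x) (u1 x).2 (u1 x).1
    obtain ⟨i, hi⟩ := hn (fun i => f (j i).1) fun a b hab z => by
      by_cases h : z ∈ U (j a).1
      · exact Or.inr (f2 _ z (disjoint_left.1 (u2 (j a).2 (j b).2
          fun e => hab (j.injective (Subtype.ext e))) h))
      · exact Or.inl (f2 _ z h)
    rw [key _ (j i).2 _ (f1 _) (f2 _)] at hi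
    exact ht _ (j i).2 hi
  · obtain ⟨f, f1, f2, f3⟩ := bump x (U x) (u1 x).2 (u1 x).1
    rw [← key x hx f f1 f2]
    exact hk f f3
  · by_contra hxC
    obtain ⟨f, f1, f2, -⟩ := bump x (U x ∩ Cᶜ) ((u1 x).2.inter hC.isOpen_compl) ⟨(u1 x).1, hxC⟩
    refine ht x hx ?_
    rw [← key x hx f f1 fun z hz => f2 z fun h => hz h.1]
    exact h f fun z hz => f2 z fun h => h.2 hz

theorem len_of {X : Type} [TopologicalSpace X] (φ : C(X, ℝ) → ℝ) (s : Finset X)
    (t : X → ℝ) (hφ : ∀ f : C(X, ℝ), φ f = ∑ x ∈ s, t x * f x) : Len φ s.card := by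
  intro f hf
  by_contra h
  push Not at h
  have : ∀ i, ∃ x : s, f i x.1 ≠ 0 := by
    intro i
    by_contra h'
    push Not at h'
    refine h i ?_
    rw [hφ]
    exact Finset.sum_eq_zero fun x hx => by rw [h' ⟨x, hx⟩, mul_zero]
  choose g hg using this
  have hinj : Function.Injective g := fun a b hab => by
    by_contra hne
    rcases hf a b hne (g a).1 with h1 | h1
    · exact hg a h1
    · exact hg b (hab ▸ h1)
  have := Fintype.card_le_of_injective g hinj
  simp at this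

theorem pad {X : Type} (s : Finset X) (hs : s.Nonempty) (t : X → ℝ) (n : ℕ) (hn : s.card ≤ n)
    (k : ℝ) (hk : ∀ x ∈ s, |t x| ≤ k) : ∃ (x : Fin n → X) (w : Fin n → ℝ), (∀ i, x i ∈ s) ∧
      (∀ i, |w i| ≤ k) ∧ ∀ g : X → ℝ, ∑ a ∈ s, t a * g a = ∑ i, w i * g (x i) := by
  obtain ⟨a0, ha0⟩ := hs
  obtain ⟨j⟩ : Nonempty (s ↪ Fin n) := Function.Embedding.nonempty_of_card_le (by simpa using hn)
  refine ⟨Function.extend j (fun a => a.1) fun _ => a0, Function.extend j (fun a => t a.1) fun _ => 0,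
    fun i => ?_, fun i => ?_, fun g => ?_⟩
  · by_cases h : ∃ a, j a = i
    · obtain ⟨a, rfl⟩ := h
      rw [j.injective.extend_apply]; exact a.2
    · rw [Function.extend_apply' _ _ _ h]; exact ha0
  · by_cases h : ∃ a, j a = i
    · obtain ⟨a, rfl⟩ := h
      rw [j.injective.extend_apply]; exact hk _ a.2
    · rw [Function.extend_apply' _ _ _ h, abs_zero]
      exact (abs_nonneg _).trans (hk a0 ha0)
  · rw [← Finset.sum_coe_sort s]
    refine Fintype.sum_of_injective j j.injective _ _ (fun i hi => ?_) fun a => ?_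
    · rw [Function.extend_apply' (fun a : s => t a.1) _ _ hi, zero_mul]
    · rw [j.injective.extend_apply, j.injective.extend_apply]

theorem conv {Y : Type} [TopologicalSpace Y] [T35Space Y] (U : Ultrafilter Y) (ψ : C(Y, ℝ) → ℝ)
    (s : Finset Y) (hs : ∀ g : C(Y, ℝ), (∀ y ∈ s, g y = 0) → ψ g = 0)
    (h : ∀ g : C(Y, ℝ), Tendsto g U (𝓝 (ψ g))) : ∃ y, (U : Filter Y) ≤ 𝓝 y := by
  by_contra hc
  push Not at hc
  have : ∀ a : Y, ∃ O, IsOpen O ∧ a ∈ O ∧ Oᶜ ∈ U := by
    intro a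
    have := hc a
    rw [le_nhds_iff] at this
    push Not at this
    obtain ⟨O, o1, o2, o3⟩ := this
    exact ⟨O, o2, o1, Ultrafilter.compl_mem_iff_notMem.2 o3⟩
  choose O o1 o2 o3 using this
  choose f f1 f2 _ using fun a => bump a (O a) (o1 a) (o2 a)
  have h0 := h (∏ a ∈ s, (1 - f a))
  rw [hs _ fun y hy => by
    rw [ContinuousMap.prod_apply]
    exact Finset.prod_eq_zero hy (by simp [f1])] at h0
  have h1 : Tendsto (∏ a ∈ s, (1 - f a) : C(Y, ℝ)) U (𝓝 1) := by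
    refine tendsto_const_nhds.congr' ?_
    filter_upwards [(biInter_finset_mem s).2 fun a _ => o3 a] with y hy
    rw [ContinuousMap.prod_apply]
    exact (Finset.prod_eq_one fun a ha => by simp [f2 a y (mem_iInter₂.1 hy a ha)]).symm
  exact zero_ne_one (tendsto_nhds_unique h0 h1)

theorem result :
  ∀ (X Y : Type) [TopologicalSpace X] [TopologicalSpace Y] [T35Space X] [T35Space Y],
    (∃ (K : Type) (_ : TopologicalSpace K), CompactSpace K ∧ T2Space K ∧
      ∃ e : X → K, Topology.IsEmbedding e ∧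
        ∃ A : ℕ → ℕ → Set K, (∀ n m, IsCompact (A n m)) ∧ Set.range e = ⋂ n, ⋃ m, A n m) →
    (∃ L : C(X, ℝ) ≃ₗ[ℝ] C(Y, ℝ),
      @Continuous C(X, ℝ) C(Y, ℝ)
        (TopologicalSpace.induced (fun f : C(X, ℝ) => (f : X → ℝ)) inferInstance)
        (TopologicalSpace.induced (fun g : C(Y, ℝ) => (g : Y → ℝ)) inferInstance)
        (fun f => L f) ∧
      @Continuous C(Y, ℝ) C(X, ℝ)
        (TopologicalSpace.induced (fun g : C(Y, ℝ) => (g : Y → ℝ)) inferInstance)
        (TopologicalSpace.induced (fun f : C(X, ℝ) => (f : X → ℝ)) inferInstance)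
        (fun g => L.symm g)) →
    (∃ (K : Type) (_ : TopologicalSpace K), CompactSpace K ∧ T2Space K ∧
      ∃ e : Y → K, Topology.IsEmbedding e ∧
        ∃ A : ℕ → ℕ → Set K, (∀ n m, IsCompact (A n m)) ∧ Set.range e = ⋂ n, ⋃ m, A n m) := by
  classical
  rintro X Y _ _ _ _ ⟨K, _, _, _, e, he, A, a1, a2⟩ ⟨L, l1, l2⟩
  refine ⟨StoneCech Y, inferInstance, inferInstance, inferInstance, stoneCechUnit,
    isEmbedding_stoneCechUnit, ?_⟩
  let μ : Y → C(X, ℝ) →ₗ[ℝ] ℝ := fun y =>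
    { toFun := fun f => L f y
      map_add' := fun a b => by rw [map_add]; rfl
      map_smul' := fun a b => by rw [map_smul]; rfl }
  choose s t ht hφ using fun y => rep (μ y)
    (@Continuous.comp _ _ _ (pw X) (pw Y) _ _ _ (ev_cont y) l1)
  have sne : ∀ y, (s y).Nonempty := by
    intro y
    by_contra h
    have h1 := hφ y (L.symm 1)
    rw [Finset.not_nonempty_iff_eq_empty.1 h, Finset.sum_empty] at h1
    have h2 : L (L.symm 1) y = 0 := h1
    simp at h2
  have hC : ∀ m (F : Finset ℕ), IsCompact (⋃ c ∈ F, A m c) := fun m F =>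
    F.isCompact_biUnion fun c _ => a1 m c
  refine ksd (J := ℕ × ℕ × Finset ℕ) (fun m j => {y | Len (μ y) j.1} ∩
    ({y | ∀ f : C(X, ℝ), (∀ z, |f z| ≤ 1) → |μ y f| ≤ j.2.1} ∩
      {y | ∀ f : C(X, ℝ), (∀ z ∈ e ⁻¹' ⋃ c ∈ j.2.2, A m c, f z = 0) → μ y f = 0})) ?_ ?_ ?_
  · intro m j
    refine IsClosed.inter ?_ (IsClosed.inter ?_ ?_)
    · simp only [Len, setOf_forall, setOf_exists]
      exact isClosed_iInter fun f => isClosed_iInter fun _ => isClosed_iUnion_of_finite fun i =>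
        isClosed_eq (L (f i)).continuous continuous_const
    · simp only [setOf_forall]
      exact isClosed_iInter fun f => isClosed_iInter fun _ =>
        isClosed_le (L f).continuous.abs continuous_const
    · simp only [setOf_forall]
      exact isClosed_iInter fun f => isClosed_iInter fun _ =>
        isClosed_eq (L f).continuous continuous_const
  · intro m y
    have : ∀ x, ∃ c, e x ∈ A m c := fun x => by
      have : e x ∈ ⋂ n, ⋃ m, A n m := by rw [← a2]; exact mem_range_self x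
      exact mem_iUnion.1 (mem_iInter.1 this m)
    choose c hc using this
    obtain ⟨k, hk⟩ := exists_nat_ge (∑ x ∈ s y, |t y x|)
    refine ⟨((s y).card, k, (s y).image c), len_of _ _ _ (hφ y), fun f hf => ?_, fun f hf => ?_⟩
    · rw [hφ]
      refine (Finset.abs_sum_le_sum_abs _ _).trans ((Finset.sum_le_sum fun x _ => ?_).trans hk)
      rw [abs_mul]
      exact mul_le_of_le_one_right (abs_nonneg _) (hf x)
    · rw [hφ]
      refine Finset.sum_eq_zero fun x hx => ?_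
      rw [hf x (mem_biUnion (Finset.mem_coe.2 (Finset.mem_image_of_mem c hx)) (hc x)), mul_zero]
  · intro U hU
    choose j hj using hU
    have ex := fun y => extract (μ y) (s y) (t y) (ht y) (hφ y)
    have : ∀ y, ∃ (x : Fin (j 0).1 → X) (w : Fin (j 0).1 → ℝ), (∀ i, |w i| ≤ (j 0).2.1) ∧
        (Len (μ y) (j 0).1 → (∀ f : C(X, ℝ), (∀ z, |f z| ≤ 1) → |μ y f| ≤ (j 0).2.1) →
          (∀ i, x i ∈ s y) ∧ ∀ g : X → ℝ, ∑ a ∈ s y, t y a * g a = ∑ i, w i * g (x i)) := by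
      intro y
      by_cases h : Len (μ y) (j 0).1 ∧ ∀ f : C(X, ℝ), (∀ z, |f z| ≤ 1) → |μ y f| ≤ (j 0).2.1
      · obtain ⟨x, w, b1, b2, b3⟩ := pad (s y) (sne y) (t y) _ ((ex y).1 _ h.1) _ ((ex y).2.1 _ h.2)
        exact ⟨x, w, b2, fun _ _ => ⟨b1, b3⟩⟩
      · exact ⟨fun _ => (sne y).choose, fun _ => 0, fun _ => by simp, fun b c => absurd ⟨b, c⟩ h⟩
    choose x w w1 w2 using this
    have h0 : ∀ᶠ y in (U : Filter Y), (∀ i, x y i ∈ s y) ∧
        ∀ g : X → ℝ, ∑ a ∈ s y, t y a * g a = ∑ i, w y i * g (x y i) :=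
      mem_of_superset (hj 0) fun y hy => w2 y hy.1 hy.2.1
    have hz : ∀ i, ∃ z, Tendsto (fun y => x y i) U (𝓝 z) := by
      intro i
      obtain ⟨a, -, ha⟩ := isCompact_univ.ultrafilter_le_nhds (U.map fun y => e (x y i)) (by simp)
      have : a ∈ range e := by
        rw [a2]
        refine mem_iInter.2 fun m => ?_
        have h1 : a ∈ ⋃ c ∈ (j m).2.2, A m c := (hC m _).isClosed.mem_of_tendsto ha (by
          filter_upwards [h0, hj m] with y b c
          exact (ex y).2.2 _ ((hC m _).isClosed.preimage he.continuous) c.2.2 _ (b.1 i))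
        obtain ⟨c, -, hc⟩ := mem_iUnion₂.1 h1
        exact mem_iUnion.2 ⟨c, hc⟩
      obtain ⟨z, rfl⟩ := this
      exact ⟨z, he.tendsto_nhds_iff.2 ha⟩
    have hτ : ∀ i, ∃ τ, Tendsto (fun y => w y i) U (𝓝 τ) := by
      intro i
      obtain ⟨a, -, ha⟩ := (isCompact_Icc (a := -((j 0).2.1 : ℝ)) (b := (j 0).2.1)).ultrafilter_le_nhds
        (U.map fun y => w y i) (le_principal_iff.2 (mem_map.2 (univ_mem' fun y => abs_le.1 (w1 y i))))
      exact ⟨a, ha⟩
    choose z hz using hz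
    choose τ hτ using hτ
    let ψ : C(Y, ℝ) →ₗ[ℝ] ℝ :=
      { toFun := fun g => ∑ i, τ i * L.symm g (z i)
        map_add' := fun a b => by
          rw [map_add, ← Finset.sum_add_distrib]
          exact Finset.sum_congr rfl fun i _ => by simp [mul_add]
        map_smul' := fun a b => by
          rw [map_smul, RingHom.id_apply, smul_eq_mul, Finset.mul_sum]
          exact Finset.sum_congr rfl fun i _ => by simp [mul_left_comm] }
    obtain ⟨s', hs'⟩ := fsupp ψ (by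
      letI := pw Y
      show @Continuous _ _ (pw Y) _ fun g : C(Y, ℝ) => ∑ i, τ i * L.symm g (z i)
      exact @continuous_finset_sum _ _ _ (pw Y) _ _ _ (fun i g => τ i * L.symm g (z i)) _ fun i _ =>
        @Continuous.mul _ _ _ _ _ (pw Y) _ _ (@continuous_const _ _ (pw Y) _ _)
          (@Continuous.comp _ _ _ (pw Y) (pw X) _ _ _ (ev_cont (z i)) l2))
    refine conv U ψ s' hs' fun g => ?_
    have h1 : Tendsto (fun y => ∑ i, w y i * L.symm g (x y i)) U (𝓝 (ψ g)) :=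
      tendsto_finset_sum _ fun i _ => (hτ i).mul (((L.symm g).continuous.tendsto _).comp (hz i))
    refine h1.congr' ?_
    filter_upwards [h0] with y hy
    rw [← hy.2, ← hφ]
    show L (L.symm g) y = g y
    rw [L.apply_symm_apply]

end Pool.Agent.S13915
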