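import Pool.Statements.S13922
import Pool.Agent.H.MP_2beacb.A

set_option autoImplicit false
open Pool Pool.MP_c6d701_gt

namespace Pool.Agent.S13922

theorem result :
    ¬ (∃ (Y : Type) (_ : TopologicalSpace Y),
      T35Space Y ∧ MeasureTheory.AnalyticSet (Set.univ : Set Y) ∧
      ∃ e : {g : {f : {x : ℝ // Irrational x} → ℝ // Continuous f} → ℝ // Continuous g} → Y,
        Topology.IsEmbedding e) := by
  rintro ⟨Y, _, _, hY, e, he⟩
  obtain ⟨r, hr, hs⟩ := Pool.Agent.H.MP_2beacb.sur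
  exact Pool.Agent.H.MP_2beacb.pw hY _ (he.isInducing.comp (Pool.Agent.H.MP_2beacb.pull r hr hs))

end Pool.Agent.S13922
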