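import Pool.Statements.S13925
import Pool.Agent.Lib.helper23.DimA

set_option autoImplicit false
open scoped BoundedContinuousFunction
open Pool Pool.MP_c6ee25_gt

namespace Pool.Agent.S13925

open Set Filter Topology Pool.Agent.Lib.helper23.DimA

variable (G : Type) [TopologicalSpace G] [Group G] [IsTopologicalGroup G]

def Sset : Set (G →ᵇ ℂ) :=
  {f : G →ᵇ ℂ | ∀ ε : ℝ, 0 < ε → ∃ W ∈ nhds (1 : G), ∀ u ∈ W, ∀ x : G, ‖f (u * x) - f x‖ < ε}

noncomputable abbrev A : Subalgebra ℂ (G →ᵇ ℂ) := Algebra.adjoin ℂ (Sset G)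

variable {G}

omit [IsTopologicalGroup G] in
lemma mem_S {f : G →ᵇ ℂ} : f ∈ Sset G ↔ RUC f := by
  simp only [Sset, RUC, mem_setOf_eq, eventually_iff_exists_mem]

omit [IsTopologicalGroup G] in
lemma lip {E E' : Type} [NormedAddCommGroup E] [NormedAddCommGroup E'] {f : G → E} {g : G → E'}
    (hf : RUC f) {C : ℝ} (hC : 0 < C) (h : ∀ x y, ‖g x - g y‖ ≤ C * ‖f x - f y‖) : RUC g := by
  intro ε hε
  filter_upwards [hf (ε / C) (by positivity)] with u hu x
  have := hu x
  rw [lt_div_iff₀' hC] at this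
  exact (h _ _).trans_lt this

variable (G) in
noncomputable def R : Subalgebra ℂ (G →ᵇ ℂ) where
  carrier := Sset G
  mul_mem' := by
    intro a b ha hb
    rw [mem_S] at ha hb ⊢
    intro ε hε
    set δ := ε / (‖a‖ + ‖b‖ + 1) with hδ
    have hδ0 : 0 < δ := by positivity
    have hδ1 : (‖a‖ + ‖b‖ + 1) * δ = ε := by rw [hδ]; field_simp
    filter_upwards [ha δ hδ0, hb δ hδ0] with u h1 h2 x
    have e : (a * b) (u * x) - (a * b) x =
        a (u * x) * (b (u * x) - b x) + (a (u * x) - a x) * b x := by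
      simp only [BoundedContinuousFunction.coe_mul, Pi.mul_apply]; ring
    rw [e]
    refine (norm_add_le _ _).trans_lt ?_
    rw [norm_mul, norm_mul]
    have h3 := mul_le_mul (a.norm_coe_le_norm (u * x)) (h2 x).le (norm_nonneg _) (norm_nonneg _)
    have h4 := mul_le_mul (h1 x).le (b.norm_coe_le_norm x) (norm_nonneg _) hδ0.le
    nlinarith
  add_mem' := by
    intro a b ha hb
    rw [mem_S] at ha hb ⊢
    intro ε hε
    filter_upwards [ha (ε / 2) (by positivity), hb (ε / 2) (by positivity)] with u h1 h2 x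
    have e : (a + b) (u * x) - (a + b) x = (a (u * x) - a x) + (b (u * x) - b x) := by
      simp only [BoundedContinuousFunction.coe_add, Pi.add_apply]; ring
    rw [e]
    linarith [norm_add_le (a (u * x) - a x) (b (u * x) - b x), h1 x, h2 x]
  algebraMap_mem' := by
    intro c
    rw [mem_S]
    intro ε hε
    exact Eventually.of_forall fun u x => by simpa using hε

omit [IsTopologicalGroup G] in
lemma mem_A {f : G →ᵇ ℂ} : f ∈ A G ↔ RUC f := by
  have : A G = R G := Algebra.adjoin_eq (R G)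
  rw [this, ← mem_S]; rfl

omit [IsTopologicalGroup G] in
lemma closed_A : IsClosed (A G : Set (G →ᵇ ℂ)) := by
  refine isClosed_of_closure_subset fun f hf => mem_A.2 fun ε hε => ?_
  obtain ⟨g, hg, hd⟩ := Metric.mem_closure_iff.1 hf (ε / 3) (by positivity)
  filter_upwards [mem_A.1 hg (ε / 3) (by positivity)] with u hu x
  have h1 := f.dist_coe_le_dist (g := g) (u * x)
  have h2 := f.dist_coe_le_dist (g := g) x
  have h3 := hu x
  rw [← dist_eq_norm] at h3 ⊢
  linarith [dist_triangle4 (f (u * x)) (g (u * x)) (g x) (f x), dist_comm (f x) (g x)]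

instance : CompleteSpace (A G) := closed_A.completeSpace_coe

variable (G) in
abbrev Y := WeakDual.characterSpace ℂ (A G)

noncomputable def evA (x : G) : A G →ₐ[ℂ] ℂ where
  toFun a := a.1 x
  map_one' := rfl
  map_mul' _ _ := rfl
  map_zero' := rfl
  map_add' _ _ := rfl
  commutes' c := by simp

noncomputable def ev (x : G) : Y G := WeakDual.CharacterSpace.equivAlgHom.symm (evA x)

omit [IsTopologicalGroup G] in
lemma ev_apply (x : G) (a : A G) : ev x a = a.1 x := rfl

omit [IsTopologicalGroup G] in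
lemma ind : IsInducing (fun (φ : Y G) (a : A G) => φ a) :=
  (⟨rfl⟩ : IsInducing (fun (φ : WeakDual ℂ (A G)) (a : A G) => φ a)).comp IsInducing.subtypeVal

omit [IsTopologicalGroup G] in
lemma cont_ap (a : A G) : Continuous fun φ : Y G => φ a := (continuous_apply a).comp ind.continuous

omit [IsTopologicalGroup G] in
lemma ev_cont : Continuous (ev : G → Y G) :=
  ind.continuous_iff.2 (continuous_pi fun a => a.1.continuous)

lemma mk (g : G → ℂ) (hg : RUC g) (C : ℝ) (hC : ∀ x, ‖g x‖ ≤ C) : ∃ a : A G, ∀ x, a.1 x = g x :=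
  ⟨⟨BoundedContinuousFunction.ofNormedAddCommGroup g hg.cont C hC, mem_A.2 hg⟩, fun _ => rfl⟩

lemma mkR (g : G → ℝ) (hg : RUC g) (hC : ∀ x, |g x| ≤ 1) : ∃ a : A G, ∀ x, a.1 x = g x :=
  mk (fun x => g x) (lip hg one_pos fun x y => by
    rw [← Complex.ofReal_sub, Complex.norm_real, one_mul]) 1 (fun x => by simpa using hC x)

lemma ev_inj [LocallyCompactSpace G] [T2Space G] : Function.Injective (ev : G → Y G) := by
  intro x y h
  by_contra hne
  obtain ⟨q, hq1, hq0, hqc, hq⟩ := exists_continuous_one_zero_of_isCompact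
    (isCompact_singleton (x := x)) (isClosed_singleton (x := y)) (by simpa using hne)
  obtain ⟨a, ha⟩ := mkR q (ruc_cs q.continuous hqc) fun z => by
    rw [abs_of_nonneg (hq z).1]; exact (hq z).2
  have := congrArg (fun φ : Y G => φ a) h
  simp only [ev_apply, ha, hq1 rfl, hq0 rfl] at this
  simp at this

lemma ev_dense : DenseRange (ev : G → Y G) := by
  intro y
  rw [mem_closure_iff_nhds]
  intro s hs
  rw [ind.nhds_eq_comap, mem_comap] at hs
  obtain ⟨s', hs', hss⟩ := hs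
  rw [nhds_pi, Filter.mem_pi'] at hs'
  obtain ⟨I, t, ht, hI⟩ := hs'
  choose ε hε hεt using fun a => Metric.mem_nhds_iff.1 (ht a)
  by_contra hne
  have h1 : ∀ x, ∃ a ∈ I, ε a ≤ ‖a.1 x - y a‖ := by
    intro x
    by_contra h
    push Not at h
    exact hne ⟨ev x, hss (hI fun a ha => hεt a (by
      rw [Metric.mem_ball, dist_eq_norm]; exact h a ha)), x, rfl⟩
  obtain ⟨c, hc0, hc⟩ : ∃ c : ℝ, 0 < c ∧ ∀ a ∈ I, c ≤ ε a ^ 2 := by
    obtain ⟨a0, ha0, -⟩ := h1 1
    obtain ⟨a, -, h⟩ := I.exists_min_image (fun a => ε a ^ 2) ⟨a0, ha0⟩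
    exact ⟨_, pow_pos (hε a) 2, h⟩
  choose st hst using fun a : A G => mk (fun x => (starRingEnd ℂ) (a.1 x))
    (lip (mem_A.1 a.2) one_pos fun x y => by rw [← map_sub, Complex.norm_conj, one_mul])
    ‖a.1‖ (fun x => by rw [Complex.norm_conj]; exact a.1.norm_coe_le_norm x)
  set b : A G := ∑ a ∈ I, (a - algebraMap ℂ _ (y a)) * st (a - algebraMap ℂ _ (y a)) with hb
  have hyb : y b = 0 := by
    rw [hb, map_sum]
    refine Finset.sum_eq_zero fun a _ => ?_
    rw [map_mul, map_sub, AlgHomClass.commutes]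
    simp
  have hbx : ∀ x, b.1 x = ((∑ a ∈ I, ‖a.1 x - y a‖ ^ 2 : ℝ) : ℂ) := by
    intro x
    rw [← ev_apply, hb, map_sum, Complex.ofReal_sum]
    refine Finset.sum_congr rfl fun a _ => ?_
    rw [map_mul, ev_apply x (st _), hst, ← ev_apply, Complex.mul_conj', map_sub,
      AlgHomClass.commutes, ev_apply]
    simp
  have hbc : ∀ x, c ≤ ‖b.1 x‖ := by
    intro x
    obtain ⟨a, ha, h⟩ := h1 x
    rw [hbx, Complex.norm_real, Real.norm_eq_abs]
    refine (hc a ha).trans ((pow_le_pow_left₀ (hε a).le h 2).trans ?_)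
    exact (Finset.single_le_sum (f := fun a : A G => ‖a.1 x - y a‖ ^ 2)
      (fun _ _ => by positivity) ha).trans (le_abs_self _)
  have hb0 : ∀ x, b.1 x ≠ 0 := fun x h => by have := hbc x; rw [h, norm_zero] at this; linarith
  obtain ⟨d, hd⟩ := mk (fun x => (b.1 x)⁻¹)
    (lip (mem_A.1 b.2) (C := (c * c)⁻¹) (by positivity) fun x z => by
      rw [inv_sub_inv (hb0 x) (hb0 z), norm_div, norm_sub_rev, norm_mul, div_eq_inv_mul]
      refine mul_le_mul_of_nonneg_right ?_ (norm_nonneg _)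
      exact inv_anti₀ (by positivity) (mul_le_mul (hbc x) (hbc z) hc0.le (norm_nonneg _)))
    c⁻¹ (fun x => by rw [norm_inv]; exact inv_anti₀ hc0 (hbc x))
  have hbd : b * d = 1 := by
    ext x
    change b.1 x * d.1 x = 1
    rw [hd, mul_inv_cancel₀ (hb0 x)]
  have := congrArg y hbd
  rw [map_mul, hyb, map_one, zero_mul] at this
  exact zero_ne_one this

omit [IsTopologicalGroup G] in
lemma ruc_ev (f : C(Y G, ℝ)) : RUC (fun x => f (ev x)) := by
  intro ε hε
  by_contra h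
  have hne : (comap Prod.fst (𝓝 (1 : G)) ⊓
      𝓟 {p : G × G | ε ≤ ‖f (ev (p.1 * p.2)) - f (ev p.2)‖}).NeBot := by
    rw [Filter.inf_principal_neBot_iff]
    intro U hU
    obtain ⟨W, hW, hWU⟩ := mem_comap.1 hU
    by_contra h'
    apply h
    filter_upwards [hW] with u hu x
    by_contra h''
    exact h' ⟨(u, x), hWU hu, not_lt.1 h''⟩
  obtain ⟨𝒰, h𝒰⟩ := Ultrafilter.exists_le (comap Prod.fst (𝓝 (1 : G)) ⊓
      𝓟 {p : G × G | ε ≤ ‖f (ev (p.1 * p.2)) - f (ev p.2)‖})
  obtain ⟨y, -, hy⟩ := (isCompact_univ (X := Y G)).ultrafilter_le_nhds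
    (𝒰.map fun p => ev (p.1 * p.2)) (by simp)
  obtain ⟨z, -, hz⟩ := (isCompact_univ (X := Y G)).ultrafilter_le_nhds
    (𝒰.map fun p => ev p.2) (by simp)
  replace hy : Tendsto (fun p : G × G => ev (p.1 * p.2)) 𝒰 (𝓝 y) := hy
  replace hz : Tendsto (fun p : G × G => ev p.2) 𝒰 (𝓝 z) := hz
  have h1 : Tendsto Prod.fst (𝒰 : Filter (G × G)) (𝓝 1) :=
    tendsto_iff_comap.2 (h𝒰.trans inf_le_left)
  have hyz : y = z := by
    ext a
    have h2 := (((cont_ap a).tendsto y).comp hy).sub (((cont_ap a).tendsto z).comp hz)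
    have h3 : Tendsto (fun p : G × G => a.1 (p.1 * p.2) - a.1 p.2) 𝒰 (𝓝 0) := by
      refine Metric.tendsto_nhds.2 fun δ hδ => ?_
      filter_upwards [h1.eventually (mem_A.1 a.2 δ hδ)] with p hp
      simpa using hp p.2
    exact sub_eq_zero.1 (tendsto_nhds_unique h2 h3)
  subst hyz
  have h2 := (((f.continuous.tendsto y).comp hy).sub ((f.continuous.tendsto y).comp hz)).norm
  have h3 := ge_of_tendsto h2 (le_principal_iff.1 (h𝒰.trans inf_le_right))
  simp only [sub_self, norm_zero] at h3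
  linarith

theorem main [LocallyCompactSpace G] [T2Space G] (n : ℕ) : Dim (Y G) n ↔ Dim G n := by
  refine ⟨fun h => dimG (D_of_inj ev ev_cont ev_inj h), fun h => dimY
    (D_of_inj id continuous_id Function.injective_id h) ev ev_dense ruc_ev fun g hg hC => ?_⟩
  obtain ⟨a, ha⟩ := mkR g hg hC
  exact ⟨⟨fun φ => (φ a).re, Complex.continuous_re.comp (cont_ap a)⟩, fun x => by
    simp [ev_apply, ha]⟩

theorem result :
  ∀ (G : Type) [TopologicalSpace G] [Group G] [IsTopologicalGroup G] [LocallyCompactSpace G]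
    [T2Space G] (n : ℕ),
    (∀ (ι : Type) [Finite ι]
        (U : ι → Set ↥(WeakDual.characterSpace ℂ ↥(Algebra.adjoin ℂ
          {f : G →ᵇ ℂ | ∀ ε : ℝ, 0 < ε → ∃ W ∈ nhds (1 : G), ∀ u ∈ W, ∀ x : G,
            ‖f (u * x) - f x‖ < ε}))),
        (∀ i, IsOpen (U i)) → (⋃ i, U i) = Set.univ →
        ∃ (κ : Type) (_ : Finite κ)
          (V : κ → Set ↥(WeakDual.characterSpace ℂ ↥(Algebra.adjoin ℂ
            {f : G →ᵇ ℂ | ∀ ε : ℝ, 0 < ε → ∃ W ∈ nhds (1 : G), ∀ u ∈ W, ∀ x : G,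
              ‖f (u * x) - f x‖ < ε}))),
          (∀ k, IsOpen (V k)) ∧ (⋃ k, V k) = Set.univ ∧ (∀ k, ∃ i, V k ⊆ U i) ∧
          ∀ x, Nat.card {k // x ∈ V k} ≤ n + 1)
    ↔
    (∀ (ι : Type) [Finite ι] (U : ι → Set G),
        (∀ i, IsOpen (U i)) → (⋃ i, U i) = Set.univ →
        ∃ (κ : Type) (_ : Finite κ) (V : κ → Set G),
          (∀ k, IsOpen (V k)) ∧ (⋃ k, V k) = Set.univ ∧ (∀ k, ∃ i, V k ⊆ U i) ∧
          ∀ x, Nat.card {k // x ∈ V k} ≤ n + 1) := by
  intro G _ _ _ _ _ n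
  exact main n

end Pool.Agent.S13925
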