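import Pool.Statements.S13932
import Pool.Agent.H.MP_c7fc41_gt.B

set_option autoImplicit false
open Pointwise
open Pool Pool.MP_c7fc41_gt

namespace Pool.Agent.S13932

theorem result :
    ¬ (∀ n : ℕ, 3 ≤ n → ∀ K B : Set (EuclideanSpace ℝ (Fin n)),
      IsCompact K → Convex ℝ K → (interior K).Nonempty →
      IsCompact B → Convex ℝ B → (interior B).Nonempty → -B = B →
      (∀ L : Set (EuclideanSpace ℝ (Fin n)), IsCompact L → Convex ℝ L → L.Nonempty →
        HasDerivWithinAt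
          (fun ε : ℝ => (MeasureTheory.volume (B + ε • L)).toReal
            - ((MeasureTheory.volume (K + ε • L)).toReal
                + (MeasureTheory.volume (-K + ε • L)).toReal) / 2)
          0 (Set.Ici 0) 0) →
      (∃ r : ℝ, 0 < r ∧ ∃ x : EuclideanSpace ℝ (Fin n),
        B = x +ᵥ (r • ((1 / 2 : ℝ) • (K + -K)))) →
      ∃ c : EuclideanSpace ℝ (Fin n), ∀ y : EuclideanSpace ℝ (Fin n),
        y ∈ K ↔ (2 : ℝ) • c - y ∈ K) := by
  intro H
  obtain ⟨ρ, h0, h3⟩ : ∃ ρ : ℝ, 0 < ρ ∧ ρ ^ 3 = 9 / 4 :=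
    ⟨(9 / 4) ^ ((3 : ℕ) : ℝ)⁻¹, by positivity, Real.rpow_inv_natCast_pow (by norm_num) (by norm_num)⟩
  open Pool.Agent.H.MP_c7fc41_gt in
  obtain ⟨c, hc⟩ := H 4 (by norm_num) (P u fun _ => 1) (P (Sum.elim u (-u)) fun _ => ρ)
    (P.compact (bdd fun _ => le_rfl)) (P.convex _) (P.int one_pos)
    (P.compact fun x hx => bdd (fun _ => le_rfl) ((mem3 _ _).1 hx).1) (P.convex _) (P.int h0)
    (by ext x; simp [P, and_comm])
    (fun L h _ hn => by
      rw [show -P u (fun _ => 1) = P (-u) fun _ => 1 by ext x; simp [P]]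
      exact main h0 h3 h hn)
    ⟨2 / 3 * ρ, by positivity, 0, by
      rw [zero_vadd, diff, P.smul (by norm_num), P.smul (by positivity)]
      congr 2
      ring_nf⟩
  open Pool.Agent.H.MP_c7fc41_gt in
  have a := (mem1 _ _).1 ((hc !₂[2, -1, 0, 0]).1 ((mem1 _ _).2 (by simp only [Matrix.cons_val]; norm_num)))
  open Pool.Agent.H.MP_c7fc41_gt in
  have b := (mem1 _ _).1 ((hc !₂[-1, 2, 0, 0]).1 ((mem1 _ _).2 (by simp only [Matrix.cons_val]; norm_num)))
  open Pool.Agent.H.MP_c7fc41_gt in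
  have d := (mem1 _ _).1 ((hc !₂[-1, -1, 0, 0]).1 ((mem1 _ _).2 (by simp only [Matrix.cons_val]; norm_num)))
  simp only [PiLp.sub_apply, PiLp.smul_apply, smul_eq_mul, Matrix.cons_val] at a b d
  linarith [a.1, b.2.1, d.2.2.1]

end Pool.Agent.S13932
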