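import Pool.Statements.S13944
import Pool.Agent.H.MP_ca288e_gt.D

set_option autoImplicit false
open Pool Pool.MP_ca288e_gt

namespace Pool.Agent.S13944

theorem result :
    ¬ (∀ (X : Type) [TopologicalSpace X], RegularSpace X →
      (∀ 𝒰 : Set (Set X), (∀ U ∈ 𝒰, IsOpen U ∧ U.Nonempty) → 𝒰.PairwiseDisjoint id →
        ∃ L : Set X, IsLindelof L ∧ ∀ U ∈ 𝒰, (L ∩ U).Nonempty) →
      (∃ 𝒰 : ℕ → Set (Set X),
        (∀ n, ∀ V ∈ 𝒰 n, IsOpen V) ∧ (∀ n, ⋃₀ 𝒰 n = Set.univ) ∧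
        ∀ x y : X, x ≠ y → ∃ n, ¬ ∃ V ∈ 𝒰 n, ∃ W ∈ 𝒰 n, x ∈ V ∧ (V ∩ W).Nonempty ∧ y ∈ W) →
      Cardinal.mk X ≤ Cardinal.continuum) := by
  intro h
  exact absurd (h Pool.Agent.H.MP_ca288e_gt.X inferInstance Pool.Agent.H.MP_ca288e_gt.cell_lind
    Pool.Agent.H.MP_ca288e_gt.rank2) (not_le.2 Pool.Agent.H.MP_ca288e_gt.big_X)

end Pool.Agent.S13944
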