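import Pool.Statements.S13946
import Pool.Agent.H.MP_cb3f7b_gt.A

set_option autoImplicit false
open Pool Pool.MP_cb3f7b_gt

namespace Pool.Agent.S13946

theorem result :
    ¬ (∀ n : ℕ, 2 ≤ n →
    ∀ K K₁ K₂ : Set (EuclideanSpace ℝ (Fin n)),
      Convex ℝ K → IsCompact K → (interior K).Nonempty →
      Convex ℝ K₁ → IsCompact K₁ → (interior K₁).Nonempty →
      Convex ℝ K₂ → IsCompact K₂ → (interior K₂).Nonempty →
      K ⊆ interior K₁ ∩ interior K₂ →
      (∀ u : EuclideanSpace ℝ (Fin n), u ≠ 0 → ∀ c : ℝ,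
          (∀ x ∈ K, inner ℝ u x ≤ c) → (∃ x ∈ K, inner ℝ u x = c) →
          MeasureTheory.Measure.hausdorffMeasure ((n : ℝ) - 1)
              (K₁ ∩ {x : EuclideanSpace ℝ (Fin n) | inner ℝ u x = c}) =
            MeasureTheory.Measure.hausdorffMeasure ((n : ℝ) - 1)
              (K₂ ∩ {x : EuclideanSpace ℝ (Fin n) | inner ℝ u x = c})) →
      K₁ = K₂) := by
  intro h
  open H.MP_cb3f7b_gt in
  exact ne (h 2 le_rfl _ (El 2 1) (El 1 2) K_convex K_compact K_int
    (El_convex (by norm_num) (by norm_num)) (El_compact (by norm_num) (by norm_num))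
    ⟨0, El_int (by simp)⟩ (El_convex (by norm_num) (by norm_num))
    (El_compact (by norm_num) (by norm_num)) ⟨0, El_int (by simp)⟩ K_sub
    fun u hu c h1 h2 => H.MP_cb3f7b_gt.main u hu c h1 h2 _)

end Pool.Agent.S13946
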