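import Pool.Statements.S13949
import Pool.Agent.H.MP_cbb19f.A

set_option autoImplicit false
open Pool Pool.MP_cbb19f_gt

namespace Pool.Agent.S13949

theorem result :
    ∀ (X : Type) [TopologicalSpace X] [T35Space X],
      (∀ D : Set X, DiscreteTopology ↥D → D.Countable) →
      (∃ (𝒞 𝒩 : Set (Set {g : {f : X → ℝ // Continuous f} → ℝ // Continuous g})),
          𝒩.Countable ∧ (∀ K ∈ 𝒞, IsCompact K) ∧ ⋃₀ 𝒞 = Set.univ ∧
          ∀ K ∈ 𝒞, ∀ U : Set {g : {f : X → ℝ // Continuous f} → ℝ // Continuous g},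
            IsOpen U → K ⊆ U → ∃ N ∈ 𝒩, K ⊆ N ∧ N ⊆ U) →
      ∃ 𝒩 : Set (Set X), 𝒩.Countable ∧
        ∀ (x : X) (U : Set X), IsOpen U → x ∈ U → ∃ N ∈ 𝒩, x ∈ N ∧ N ⊆ U := by
  rintro X _ _ hs ⟨C, F, F1, c1, c2, F2⟩
  have h := H.MP_fbd347.iff.1 ⟨F, F1, fun x (_ : x ∈ Set.univ) => by
    obtain ⟨K, k1, k2⟩ := c2.ge (Set.mem_univ x)
    exact ⟨K, c1 K k1, k2, Set.subset_univ _, by simpa using F2 K k1⟩⟩
  obtain ⟨B, hB⟩ := H.MP_cbb19f.tyY h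
  have := H.MP_cbb19f.sep hs (H.MP_cbb19f.lsX h) hB
  exact H.MP_cbb19f.net hB

end Pool.Agent.S13949
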