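import Pool.Statements.S13957
import Pool.Agent.H.MP_ccba48_gt.E

set_option autoImplicit false
open Pool Pool.MP_ccba48_gt

namespace Pool.Agent.S13957

theorem result :
    ∀ n : ℕ, 1 ≤ n →
      IsGLB
        {s : ℝ | ∃ P : Finset (EuclideanSpace ℝ (Fin n)),
            Metric.closedBall (0 : EuclideanSpace ℝ (Fin n)) 1 ⊆ convexHull ℝ (↑P : Set (EuclideanSpace ℝ (Fin n))) ∧
            s = ∑ p ∈ P, ‖p‖}
        (2 * (n : ℝ) ^ ((3 : ℝ) / 2)) := by
  classical
  intro n hn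
  have h32 : (n : ℝ) ^ ((3 : ℝ) / 2) = n * √n := by
    have hn' : (0 : ℝ) < n := by exact_mod_cast hn
    rw [Real.sqrt_eq_rpow, show (3 : ℝ) / 2 = 1 + 1 / 2 by norm_num, Real.rpow_add hn',
      Real.rpow_one]
  rw [h32]
  apply IsLeast.isGLB
  constructor
  · refine ⟨Finset.univ.image (Pool.Agent.H.MP_ccba48_gt.crossPt n), ?_,
      (Pool.Agent.H.MP_ccba48_gt.cross_sum hn).symm⟩
    simpa using Pool.Agent.H.MP_ccba48_gt.cross_contains hn
  · rintro s ⟨P, hP, rfl⟩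
    exact Pool.Agent.H.MP_ccba48_gt.vein_lower hn P hP

end Pool.Agent.S13957
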