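import Pool.Statements.S13978

set_option autoImplicit false
open Pool Pool.MP_d1450a_gt

namespace Pool.Agent.S13978

open Set Topology Filter unitInterval

noncomputable def g (u v : ℝ) : ℝ := 3 * (v / (u + v)) - 1 + Real.sin (Real.pi / (u + v)) ^ 2 *
  (36 * (v / (u + v)) * (1 - v / (u + v)) * (1 - 3 * (v / (u + v))) * (2 - 3 * (v / (u + v))) *
    (1 - 2 * (v / (u + v))))

theorem gs {u v : ℝ} (h : u + v ≠ 0) : g v u = 1 - g u v := by
  rw [g, g, add_comm v, show u / (u + v) = 1 - v / (u + v) by field_simp; ring]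
  ring

theorem g1 {u v : ℝ} (h : 0 < u + v) (k : 2 * v ≤ u)
    (l : Real.sin (Real.pi / (u + v)) = 0 ∨ 2 * v = u) : g u v ≤ 0 := by
  rcases l with l | l
  · have : v / (u + v) ≤ 1 / 3 := by rw [div_le_iff₀ h]; linarith
    rw [g, l]
    linarith
  · rw [g, show v / (u + v) = 1 / 3 by rw [div_eq_iff h.ne']; linarith]
    norm_num

theorem g3 (n : ℕ) : 1 ≤ g (5 / (6 * n + 3)) (1 / (6 * n + 3)) := by
  have a : Real.pi / (5 / (6 * n + 3) + 1 / (6 * n + 3)) = Real.pi / 2 + n * Real.pi := by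
    field_simp; ring
  rw [g, a, Real.sin_add_nat_mul_pi, Real.sin_pi_div_two, mul_one, ← pow_mul, mul_comm n,
    pow_mul, show 1 / (6 * (n : ℝ) + 3) / (5 / (6 * n + 3) + 1 / (6 * n + 3)) = 1 / 6 by
      field_simp; ring]
  norm_num

noncomputable def f (x y : I × I) : I := projIcc 0 1 zero_le_one (g |y.1 - x.1| |y.2 - x.2|)

theorem ps {x y : I × I} (h : x ≠ y) : 0 < |(y.1 : ℝ) - x.1| + |(y.2 : ℝ) - x.2| :=
  lt_of_le_of_ne (by positivity) fun k => h (by
    have a := abs_nonneg ((y.1 : ℝ) - x.1)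
    have b := abs_nonneg ((y.2 : ℝ) - x.2)
    exact Prod.ext (Subtype.ext (sub_eq_zero.1 (abs_eq_zero.1 (by linarith))).symm)
      (Subtype.ext (sub_eq_zero.1 (abs_eq_zero.1 (by linarith))).symm))

theorem fc {x y : I × I} (h : x ≠ y) : ContinuousAt (f x) y := by
  have := (ps h).ne'
  refine continuous_projIcc.continuousAt.comp (f := fun y : I × I => g |y.1 - x.1| |y.2 - x.2|) ?_
  unfold g
  fun_prop (disch := exact this)

abbrev Z : Type := {z : (I × I) × (I × I → I) // ∀ x, x ≠ z.1 → z.2 x = f x z.1}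

instance : CompactSpace Z := isCompact_iff_compactSpace.1 (IsClosed.isCompact (s := {z | _})
  (isClosed_iff_clusterPt.2 fun z h x k => by
    have : NeBot _ := h
    refine tendsto_nhds_unique_of_eventuallyEq (l := 𝓝 z ⊓ 𝓟 {z | ∀ x, x ≠ z.1 → z.2 x = f x z.1})
      (((continuous_apply x).comp continuous_snd).continuousAt.mono_left inf_le_left)
      (((fc k).comp continuousAt_fst).mono_left inf_le_left) ?_
    filter_upwards [mem_inf_of_right (mem_principal_self _), mem_inf_of_left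
      ((isOpen_ne_fun continuous_const continuous_fst).mem_nhds k)] with w a b using a x b))

noncomputable def mk (y : I × I) (t : I) : Z :=
  ⟨(y, Function.update (f · y) y t), fun _ h => Function.update_of_ne (f := (f · y)) h _⟩

theorem c1 : Continuous fun z : Z => z.1.1 := continuous_fst.comp continuous_subtype_val

theorem c2 (x : I × I) : Continuous fun z : Z => z.1.2 x :=
  (continuous_apply x).comp (continuous_snd.comp continuous_subtype_val)

theorem em (z : Z) : mk z.1.1 (z.1.2 z.1.1) = z :=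
  Subtype.ext (Prod.ext rfl (funext fun x => by
    rcases eq_or_ne x z.1.1 with rfl | h
    · simp [mk]
    · exact ((mk _ _).2 x h).trans (z.2 x h).symm))

theorem con {C : Set (I × I)} {J : Set I} (x : I × I) (a : IsClosed C) (b : IsClosed J)
    (c : IsPreconnected C) (d : IsConnected J) (e : ∀ y ∈ C, x ≠ y → f x y ∈ J) :
    IsClosed {z : Z | z.1.1 ∈ C ∧ z.1.2 x ∈ J} ∧
      IsPreconnected {z : Z | z.1.1 ∈ C ∧ z.1.2 x ∈ J} := by
  have k := (a.preimage c1).inter (b.preimage (c2 x))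
  refine ⟨k, isPreconnected_closed_iff.2 fun t s ht hs cov ⟨p, hp⟩ ⟨q, hq⟩ => ?_⟩
  have F : ∀ y ∈ C, ∃ S : Set I, IsConnected S ∧ (∀ t ∈ S, (mk y t).1.2 x ∈ J) ∧
      ∀ z : Z, z.1.1 = y → z.1.2 x ∈ J → z.1.2 y ∈ S := fun y h => by
    rcases eq_or_ne x y with rfl | n
    · exact ⟨J, d, fun t h => by simpa [mk] using h, fun _ _ h => h⟩
    · exact ⟨univ, isConnected_univ, fun t _ => (mk y t).2 x n ▸ e y h n, fun _ _ _ => trivial⟩
  obtain ⟨y, hy, ⟨u, hu, rfl⟩, v, hv, w⟩ := isPreconnected_closed_iff.1 c _ _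
    ((k.inter ht).isCompact.image c1).isClosed ((k.inter hs).isCompact.image c1).isClosed
    (fun y h => by
      obtain ⟨S, ⟨⟨r, hr⟩, -⟩, l, -⟩ := F y h
      exact (cov (show mk y r ∈ _ from ⟨h, l r hr⟩)).imp (fun o => ⟨_, ⟨⟨h, l r hr⟩, o⟩, rfl⟩)
        fun o => ⟨_, ⟨⟨h, l r hr⟩, o⟩, rfl⟩) ⟨_, hp.1.1, p, hp, rfl⟩ ⟨_, hq.1.1, q, hq, rfl⟩
  obtain ⟨S, i, l, m⟩ := F _ hy
  have o : Continuous (mk u.1.1) := continuous_induced_rng.2 (continuous_const.prodMk
    (Continuous.update (A := fun _ => I) continuous_const u.1.1 continuous_id))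
  obtain ⟨r, hr, j⟩ := isPreconnected_closed_iff.1 i.2 _ _ (ht.preimage o) (hs.preimage o)
    (fun r hr => cov ⟨hy, l r hr⟩) ⟨_, m u rfl hu.1.2, mem_preimage.2 (mem_of_eq_of_mem (em u) hu.2)⟩
    ⟨_, m v w hv.1.2, by
      dsimp only at w ⊢
      rw [mem_preimage, ← w, em]
      exact hv.2⟩
  exact ⟨mk u.1.1 r, ⟨hy, l r hr⟩, j⟩

theorem exi (x : I) {r : ℝ} (a : 0 ≤ r) (b : r ≤ 1 / 2) : ∃ y : I, |(y : ℝ) - x| = r := by
  rcases le_total (x : ℝ) (1 / 2) with h | h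
  · exact ⟨⟨x + r, by linarith [x.2.1], by linarith⟩, by simpa using a⟩
  · exact ⟨⟨x - r, by linarith, by linarith [x.2.2]⟩, by simpa using a⟩

theorem isl (p : Z) : ∃ U, IsOpen U ∧ p ∈ U ∧ ∀ V, IsOpen V → p ∈ V → V ⊆ U →
    {C : Set Z | ∃ x ∈ Vᶜ, C = connectedComponentIn Vᶜ x}.Infinite := by
  obtain ⟨x, hx⟩ : ∃ x, p.1.1 = x := ⟨_, rfl⟩
  obtain ⟨u, v, w, hu, hv, hw, h0, h1, h2, h3, h4⟩ : ∃ u v w : Z → ℝ, Continuous u ∧ Continuous v ∧
      Continuous w ∧ w p < 1 ∧ 0 ≤ w p ∧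
      (∀ z, u z + v z = |(z.1.1.1 : ℝ) - x.1| + |(z.1.1.2 : ℝ) - x.2| ∧
        |w z - w p| = |(z.1.2 x : ℝ) - p.1.2 x|) ∧
      (∀ z, x ≠ z.1.1 → g (u z) (v z) ≤ 0 → w z = 0) ∧
      ∀ a b, 0 < a → a ≤ 1 / 2 → 0 < b → b ≤ 1 / 2 → 1 ≤ g a b →
        ∃ z, u z = a ∧ v z = b ∧ w z = 1 := by
    have := c1
    have := c2 x
    rcases eq_or_ne (p.1.2 x) 1 with h | h
    · refine ⟨fun z => |(z.1.1.2 : ℝ) - x.2|, fun z => |(z.1.1.1 : ℝ) - x.1|, fun z => 1 - z.1.2 x,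
        by fun_prop, by fun_prop, by fun_prop, by simp [h], by simp [h], fun z =>
        ⟨add_comm _ _, by rw [abs_sub_comm]; ring_nf⟩, fun z k l => ?_, fun a b c d e i j => ?_⟩
      · rw [gs (ps k).ne'] at l
        simp [z.2 x k, f, projIcc_of_right_le _ (show 1 ≤ g _ _ by linarith)]
      · obtain ⟨s, hs⟩ := exi x.2 c.le d
        obtain ⟨t, ht⟩ := exi x.1 e.le i
        rw [gs (by positivity)] at j
        exact ⟨mk (t, s) 0, hs, ht, by
          dsimp only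
          rw [(mk (t, s) 0).2 x fun k => by simp [k, mk, c.ne] at hs]
          simp [mk, f, hs, ht, projIcc_of_le_left _ (show g b a ≤ 0 by linarith)]⟩
    · refine ⟨fun z => |(z.1.1.1 : ℝ) - x.1|, fun z => |(z.1.1.2 : ℝ) - x.2|, fun z => z.1.2 x,
        by fun_prop, by fun_prop, by fun_prop, lt_of_le_of_ne (p.1.2 x).2.2
          fun k => h (Subtype.ext k), (p.1.2 x).2.1, fun z => ⟨rfl, rfl⟩, fun z k l => ?_,
        fun a b c d e i j => ?_⟩
      · simp [z.2 x k, f, projIcc_of_le_left _ l]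
      · obtain ⟨s, hs⟩ := exi x.2 e.le i
        obtain ⟨t, ht⟩ := exi x.1 c.le d
        exact ⟨mk (t, s) 0, ht, hs, by
          dsimp only
          rw [(mk (t, s) 0).2 x fun k => by simp [k, mk, e.ne] at hs]
          simp [mk, f, hs, ht, projIcc_of_right_le _ j]⟩
  refine ⟨{z | w z < 1}, isOpen_lt hw continuous_const, h0, fun V a b c => ?_⟩
  obtain ⟨ε, e, k⟩ := Metric.isOpen_iff.1 (a.isClosed_compl.isCompact.image
    (c1.prodMk (c2 x))).isClosed.isOpen_compl (x, p.1.2 x) fun ⟨z, i, j⟩ => i (by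
      obtain ⟨j, l⟩ := Prod.mk.inj j
      rwa [← em z, j, l, ← hx, em])
  obtain ⟨N, hN⟩ := exists_nat_one_div_lt e
  choose z z1 z2 z3 using fun n : ℕ => h4 _ _ (by positivity) (by
    rw [div_le_iff₀ (by positivity)]; push_cast; linarith [n.cast_nonneg (α := ℝ),
      N.cast_nonneg (α := ℝ)]) (by positivity) (by
    rw [div_le_iff₀ (by positivity)]; push_cast; linarith [n.cast_nonneg (α := ℝ),
      N.cast_nonneg (α := ℝ)]) (g3 (n + N + 2))
  have z4 : ∀ n, z n ∈ Vᶜ := fun n h => (z3 n).not_lt (c h)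
  have z5 : ∀ n m : ℕ, ((m + N + 2 : ℕ) * (u (z n) + v (z n)) < 1 ∧
      1 < ((m + N + 2 : ℕ) + 1) * (u (z n) + v (z n))) ↔ n = m := fun n m => by
    rw [z1, z2, ← add_div, ← mul_div_assoc, ← mul_div_assoc, div_lt_one (by positivity),
      one_lt_div (by positivity)]
    norm_cast
    omega
  refine infinite_of_injective_forall_mem (f := fun n => connectedComponentIn Vᶜ (z n))
    (fun n m h => ?_) fun n => ⟨_, z4 n, rfl⟩
  refine (z5 n m).1 ((isPreconnected_connectedComponentIn (x := z m)).subset_of_closure_inter_subset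
    (u := {y | ((m + N + 2 : ℕ) * (u y + v y) < 1 ∧ 1 < ((m + N + 2 : ℕ) + 1) * (u y + v y)) ∧
      2 * v y < u y ∧ w p < w y}) (by
        refine .and (.and ?_ ?_) (.and ?_ ?_) <;> exact isOpen_lt (by fun_prop) (by fun_prop))
       ⟨_, mem_connectedComponentIn (z4 m), (z5 m m).2 rfl, ?_, z3 m ▸ h0⟩
    (fun y ⟨i, j⟩ => ?_) (h.le (mem_connectedComponentIn (z4 n)))).1
  · rw [z1, z2, ← mul_div_assoc]
    exact div_lt_div_of_pos_right (by norm_num) (by positivity)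
  obtain ⟨⟨i1, i2⟩, i3, i4⟩ := closure_minimal (t := {y | ((m + N + 2 : ℕ) * (u y + v y) ≤ 1 ∧
    1 ≤ ((m + N + 2 : ℕ) + 1) * (u y + v y)) ∧ 2 * v y ≤ u y ∧ w p ≤ w y})
    (fun y h => ⟨⟨h.1.1.le, h.1.2.le⟩, h.2.1.le, h.2.2.le⟩) (by
      refine .and (.and ?_ ?_) (.and ?_ ?_) <;> exact isClosed_le (by fun_prop) (by fun_prop)) i
  have r : 0 < u y + v y := pos_of_mul_pos_right (one_pos.trans_le i2) (by positivity)
  have s : u y + v y < ε := lt_of_le_of_lt (by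
    rw [le_div_iff₀ (by positivity)]
    push_cast at i1
    nlinarith [m.cast_nonneg (α := ℝ)]) hN
  have t : w p < w y := lt_of_le_of_ne i4 fun o => k (a := (y.1.1, y.1.2 x)) (by
    have := h2 y
    rw [o, sub_self, abs_zero] at this
    have a := abs_nonneg ((y.1.1.1 : ℝ) - x.1)
    have b := abs_nonneg ((y.1.1.2 : ℝ) - x.2)
    simp only [Metric.mem_ball, Prod.dist_eq, Subtype.dist_eq, Real.dist_eq, max_lt_iff]
    exact ⟨⟨by linarith, by linarith⟩, by linarith⟩) ⟨y, connectedComponentIn_subset _ _ j, rfl⟩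
  have q := fun l => (h1.trans_lt t).ne' (h3 y (fun o => by simp [(h2 y).1, o] at r) (g1 r i3 l))
  exact ⟨⟨i1.lt_of_ne fun o => q (.inl (by
    rw [show Real.pi / (u y + v y) = (m + N + 2 : ℕ) * Real.pi by
      rw [div_eq_iff r.ne', mul_right_comm, o, one_mul], Real.sin_nat_mul_pi])),
    i2.lt_of_ne fun o => q (.inl (by
    rw [show Real.pi / (u y + v y) = (m + N + 2 + 1 : ℕ) * Real.pi by
      rw [div_eq_iff r.ne', mul_right_comm, Nat.cast_succ, ← o, one_mul], Real.sin_nat_mul_pi]))⟩,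
    i3.lt_of_ne fun o => q (.inr o), t⟩

theorem joi (e : Z) : ∃ b, ∀ y ≠ e, ∃ K, IsClosed K ∧ IsPreconnected K ∧ y ∈ K ∧ b ∈ K ∧ e ∉ K := by
  obtain ⟨x, hx⟩ : ∃ x, e.1.1 = x := ⟨_, rfl⟩
  obtain ⟨b1, n1⟩ := exists_ne x.1
  obtain ⟨b2, n2⟩ := exists_ne x.2
  have H : ∀ c : I, IsPreconnected {y : I × I | y.2 = c} := fun c => by
    convert isPreconnected_range (f := fun s : I => (s, c)) (by fun_prop)
    ext y
    simp [Prod.ext_iff, eq_comm]
  have W : ∀ c : I, IsPreconnected {y : I × I | y.1 = c} := fun c => by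
    convert isPreconnected_range (f := fun s : I => (c, s)) (by fun_prop)
    ext y
    simp [Prod.ext_iff, eq_comm]
  have A : ∀ (y : Z) {J : Set I}, IsClosed J → IsConnected J → y.1.2 x ∈ J →
      (∀ s : I × I, s.2 = y.1.1.2 → x ≠ s → f x s ∈ J) → (y.1.1.2 = x.2 → e.1.2 x ∉ J) →
      ∃ K, IsClosed K ∧ IsPreconnected K ∧ y ∈ K ∧ mk (b1, b2) 0 ∈ K ∧ e ∉ K := fun y J a b c d i => by
    obtain ⟨p, q⟩ := con x (isClosed_eq continuous_snd continuous_const) a (H y.1.1.2) b d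
    obtain ⟨r, s⟩ := con x (isClosed_eq continuous_fst continuous_const) isClosed_univ (W b1)
      isConnected_univ fun _ _ _ => trivial
    have n : x ≠ (b1, y.1.1.2) := fun k => n1 (by rw [k])
    exact ⟨_, p.union r, q.union (mk (b1, y.1.1.2) 0) ⟨rfl, (mk _ 0).2 x n ▸ d _ rfl n⟩
      ⟨rfl, trivial⟩ s, .inl ⟨rfl, c⟩, .inr ⟨rfl, trivial⟩, fun k => k.elim
        (fun k => i (hx ▸ k.1.symm) k.2) fun k => n1 (hx ▸ k.1.symm)⟩
  have B : ∀ (y : Z) {J : Set I}, IsClosed J → IsConnected J → y.1.2 x ∈ J →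
      (∀ s : I × I, s.1 = y.1.1.1 → x ≠ s → f x s ∈ J) → (y.1.1.1 = x.1 → e.1.2 x ∉ J) →
      ∃ K, IsClosed K ∧ IsPreconnected K ∧ y ∈ K ∧ mk (b1, b2) 0 ∈ K ∧ e ∉ K := fun y J a b c d i => by
    obtain ⟨p, q⟩ := con x (isClosed_eq continuous_fst continuous_const) a (W y.1.1.1) b d
    obtain ⟨r, s⟩ := con x (isClosed_eq continuous_snd continuous_const) isClosed_univ (H b2)
      isConnected_univ fun _ _ _ => trivial
    have n : x ≠ (y.1.1.1, b2) := fun k => n2 (by rw [k])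
    exact ⟨_, p.union r, q.union (mk (y.1.1.1, b2) 0) ⟨rfl, (mk _ 0).2 x n ▸ d _ rfl n⟩
      ⟨rfl, trivial⟩ s, .inl ⟨rfl, c⟩, .inr ⟨rfl, trivial⟩, fun k => k.elim
        (fun k => i (hx ▸ k.1.symm) k.2) fun k => n2 (hx ▸ k.1.symm)⟩
  refine ⟨mk (b1, b2) 0, fun y h => ?_⟩
  by_cases a : y.1.1.2 = x.2
  swap
  · exact A y isClosed_univ isConnected_univ trivial (fun _ _ _ => trivial) fun k => (a k).elim
  by_cases b : y.1.1.1 = x.1
  swap
  · exact B y isClosed_univ isConnected_univ trivial (fun _ _ _ => trivial) fun k => (b k).elim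
  rcases lt_trichotomy (y.1.2 x) (e.1.2 x) with c | c | c
  · exact A y isClosed_Iic ⟨nonempty_Iic, isPreconnected_Iic⟩ self_mem_Iic (fun s d _ => by
      simp [f, g, d, a, projIcc_of_le_left]) fun _ => c.not_ge
  · exact (h (by rw [← em y, ← em e, Prod.ext b a, hx, c])).elim
  · exact B y isClosed_Ici ⟨nonempty_Ici, isPreconnected_Ici⟩ self_mem_Ici (fun s d i => by
      have := (ps i).ne'
      simp only [d, b, sub_self, abs_zero, zero_add] at this
      simp [f, g, d, b, div_self this, projIcc_of_right_le, show (1 : ℝ) ≤ 3 - 1 by norm_num,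
        unitInterval.le_one']) fun _ => c.not_ge

theorem result :
    ¬ (∀ (X : Type) [TopologicalSpace X] [CompactSpace X] [T2Space X] [ConnectedSpace X],
      (∀ p : X, ¬ ∀ U : Set X, IsOpen U → p ∈ U →
          ∃ V : Set X, IsOpen V ∧ p ∈ V ∧ V ⊆ U ∧
            {C : Set X | ∃ x ∈ Vᶜ, C = connectedComponentIn Vᶜ x}.Finite) →
      ∃ x y z : X, y ≠ x ∧ z ≠ x ∧
        ∀ K : Set X, IsClosed K → IsConnected K → y ∈ K → z ∈ K → x ∈ K) := by
  intro h
  have : ConnectedSpace Z := connectedSpace_iff_univ.2 ⟨⟨mk 0 0, trivial⟩, by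
    simpa using (con 0 isClosed_univ isClosed_univ isPreconnected_univ isConnected_univ
      fun _ _ _ => trivial).2⟩
  obtain ⟨x, y, z, a, b, c⟩ := h Z fun p k => by
    obtain ⟨U, a, b, c⟩ := isl p
    obtain ⟨V, d, e, i, j⟩ := k U a b
    exact c V d e i j
  obtain ⟨w, k⟩ := joi x
  obtain ⟨K, d, e, i, j, l⟩ := k y a
  obtain ⟨L, m, n, o, p, q⟩ := k z b
  exact (c _ (d.union m) ⟨⟨y, .inl i⟩, e.union w j p n⟩ (.inl i) (.inr o)).elim l q

end Pool.Agent.S13978
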