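import Pool.Statements.S13989

set_option autoImplicit false
open Pool Pool.MP_d290f7_gt

namespace Pool.Agent.S13989

open Set Function Filter Topology

noncomputable def lam (i : ℕ) : ℝ := 4 ^ i * (i.factorial : ℝ)

lemma lam_pos (i : ℕ) : 0 < lam i := by unfold lam; positivity

lemma lam_succ (i : ℕ) : lam (i + 1) = 4 * (i + 1) * lam i := by
  unfold lam
  rw [Nat.factorial_succ]
  push_cast
  ring

lemma lam_mono : Monotone lam := by
  refine monotone_nat_of_le_succ fun i => ?_
  rw [lam_succ]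
  have := lam_pos i
  have h : (0 : ℝ) ≤ i := i.cast_nonneg
  nlinarith

lemma le_lam (i : ℕ) : (i : ℝ) ≤ lam i := by
  unfold lam
  have h1 : (i : ℝ) ≤ i.factorial := by exact_mod_cast Nat.self_le_factorial i
  have h2 : (1 : ℝ) ≤ 4 ^ i := one_le_pow₀ (by norm_num)
  have h : (0 : ℝ) ≤ i := i.cast_nonneg
  nlinarith

noncomputable def g (e i : ℕ) (z : ℂ) : ℂ :=
  if i % 2 = e then Complex.exp ((3 * i : ℝ) - (lam i : ℝ) * z) else 0

lemma g_norm (e i : ℕ) (z : ℂ) : ‖g e i z‖ ≤ Real.exp (3 * i - lam i * z.re) := by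
  unfold g
  split_ifs
  · rw [Complex.norm_exp]
    simp
  · simp only [norm_zero]
    positivity

lemma g_small (e i j : ℕ) (z : ℂ) (hz : 1 < lam (j + 1) * z.re) :
    ‖g e (i + (j + 2)) z‖ ≤ (1 / 2) ^ i := by
  refine (g_norm _ _ _).trans ?_
  have ht : 0 < z.re := by
    by_contra h
    push Not at h
    have := lam_pos (j + 1)
    nlinarith
  have h1 : lam (j + 1) ≤ lam (i + j + 1) := lam_mono (by omega)
  have h2 : lam (i + (j + 2)) = 4 * ((i + j + 1 : ℕ) + 1) * lam (i + j + 1) := lam_succ (i + j + 1)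
  have h3 : 1 ≤ lam (i + j + 1) * z.re := by nlinarith
  have hi : (0 : ℝ) ≤ i := i.cast_nonneg
  have hj : (0 : ℝ) ≤ j := j.cast_nonneg
  have h4 : 3 * ((i + (j + 2) : ℕ) : ℝ) - lam (i + (j + 2)) * z.re ≤ i * (-1) := by
    rw [h2]
    push_cast
    nlinarith
  refine (Real.exp_le_exp.2 h4).trans ?_
  rw [Real.exp_nat_mul]
  refine pow_le_pow_left₀ (Real.exp_pos _).le ?_ _
  rw [Real.exp_neg, one_div]
  refine inv_anti₀ (by norm_num) ?_
  have := Real.add_one_le_exp 1
  linarith

lemma g_le (e i : ℕ) (z : ℂ) (hz : 0 < z.re) : ‖g e i z‖ ≤ Real.exp (3 * i) := by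
  refine (g_norm _ _ _).trans (Real.exp_le_exp.2 ?_)
  have := mul_pos (lam_pos i) hz
  linarith

noncomputable def f (e : ℕ) (z : ℂ) : ℂ := ∑' i, g e i z

lemma ex_j {t : ℝ} (ht : 0 < t) : ∃ j : ℕ, 1 < lam (j + 1) * t := by
  obtain ⟨j, hj⟩ := exists_nat_gt (1 / t)
  refine ⟨j, ?_⟩
  have h1 := le_lam (j + 1)
  rw [div_lt_iff₀ ht] at hj
  push_cast at h1
  nlinarith

lemma f_diff (e : ℕ) : DifferentiableOn ℂ (f e) {z | 0 < z.re} := by
  intro z hz
  obtain ⟨j, hj⟩ := ex_j hz
  have ho : IsOpen {w : ℂ | 1 < lam (j + 1) * w.re} :=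
    isOpen_lt continuous_const (by fun_prop)
  have hs : Summable fun i : ℕ => if i < j + 2 then Real.exp (3 * i) else (1 / 2) ^ (i - (j + 2)) := by
    rw [← summable_nat_add_iff (j + 2)]
    simpa using summable_geometric_two
  have := Complex.differentiableOn_tsum_of_summable_norm (F := g e) hs (fun i => by
      apply Differentiable.differentiableOn
      unfold g
      split_ifs <;> fun_prop) ho (fun i w hw => by
      have hw' : 1 < lam (j + 1) * w.re := hw
      have ht : 0 < w.re := by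
        by_contra h
        push Not at h
        have := lam_pos (j + 1)
        nlinarith
      split_ifs with h
      · exact g_le e i w ht
      · have := g_small e (i - (j + 2)) j w hw
        rwa [Nat.sub_add_cancel (not_lt.1 h)] at this)
  exact (this.differentiableAt (ho.mem_nhds hj)).differentiableWithinAt

lemma sum_le (j : ℕ) : ∑ i ∈ Finset.range j, Real.exp (3 * i) ≤ Real.exp (3 * j - 2) := by
  induction j with
  | zero => simp; positivity
  | succ j ih =>
    rw [Finset.sum_range_succ]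
    have h1 : Real.exp (3 * j - 2) ≤ Real.exp (3 * j) := Real.exp_le_exp.2 (by linarith)
    have h2 : Real.exp (3 * ((j + 1 : ℕ) : ℝ) - 2) = Real.exp (3 * j) * Real.exp 1 := by
      rw [← Real.exp_add]
      push_cast
      ring_nf
    have h3 := Real.add_one_le_exp 1
    have h4 := Real.exp_pos (3 * j)
    rw [h2]
    nlinarith

lemma f_big (j : ℕ) (z : ℂ) (h1 : 1 < lam (j + 1) * z.re) (h2 : lam j * z.re ≤ 1) :
    3 * (j : ℝ) - 3 ≤ ‖f (j % 2) z‖ := by
  have ht : 0 < z.re := by
    by_contra h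
    push Not at h
    have := lam_pos (j + 1)
    nlinarith
  have hs' : Summable fun i => ‖g (j % 2) (i + (j + 2)) z‖ :=
    Summable.of_nonneg_of_le (fun _ => norm_nonneg _) (fun i => g_small _ i j z h1)
      summable_geometric_two
  have hs : Summable fun i => g (j % 2) i z := by
    rw [← summable_nat_add_iff (j + 2)]
    exact hs'.of_norm
  have e1 := hs.sum_add_tsum_nat_add (j + 2)
  rw [Finset.sum_range_succ, Finset.sum_range_succ] at e1
  have e2 : g (j % 2) (j + 1) z = 0 := by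
    unfold g
    rw [if_neg (by omega)]
  have e3 : ‖g (j % 2) j z‖ = Real.exp (3 * j - lam j * z.re) := by
    unfold g
    rw [if_pos rfl, Complex.norm_exp]
    simp
  have b1 : ‖∑ i ∈ Finset.range j, g (j % 2) i z‖ ≤ Real.exp (3 * j - 2) :=
    (norm_sum_le _ _).trans ((Finset.sum_le_sum fun i _ => g_le _ i z ht).trans (sum_le j))
  have b2 : ‖∑' i, g (j % 2) (i + (j + 2)) z‖ ≤ 2 := by
    refine (norm_tsum_le_tsum_norm hs').trans ?_
    rw [← tsum_geometric_two]
    exact hs'.tsum_le_tsum (fun i => g_small _ i j z h1) summable_geometric_two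
  have b3 : Real.exp (3 * j - 1) ≤ ‖g (j % 2) j z‖ := by
    rw [e3]
    exact Real.exp_le_exp.2 (by linarith)
  have e4 : g (j % 2) j z = f (j % 2) z - ∑ i ∈ Finset.range j, g (j % 2) i z -
      ∑' i, g (j % 2) (i + (j + 2)) z := by
    unfold f
    rw [← e1, e2]
    ring
  have b4 : ‖g (j % 2) j z‖ ≤ ‖f (j % 2) z‖ + Real.exp (3 * j - 2) + 2 := by
    rw [e4]
    exact (norm_sub_le _ _).trans (add_le_add ((norm_sub_le _ _).trans (add_le_add le_rfl b1)) b2)
  have h5 : Real.exp (3 * j - 1) = Real.exp (3 * j - 2) * Real.exp 1 := by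
    rw [← Real.exp_add]
    ring_nf
  have h3 := Real.add_one_le_exp 1
  have h6 := Real.add_one_le_exp (3 * (j : ℝ) - 2)
  have h4 := Real.exp_pos (3 * (j : ℝ) - 2)
  nlinarith

abbrev E := EuclideanSpace ℂ (Fin 3)

noncomputable def H (z : ℂ) : E := !₂[0, f 0 z, f 1 z]

lemma H_big (R : ℝ) : ∃ δ > 0, ∀ z : ℂ, 0 < z.re → z.re < δ → R < ‖H z‖ := by
  classical
  obtain ⟨N, hN⟩ := exists_nat_gt (R + 3)
  refine ⟨1 / lam N, by have := lam_pos N; positivity, fun z h0 h1 => ?_⟩
  rw [lt_div_iff₀ (lam_pos N)] at h1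
  have hex := ex_j h0
  have a1 := Nat.find_spec hex
  set j := Nat.find hex with hj
  have a2 : N ≤ j := by
    by_contra h
    have : lam (j + 1) ≤ lam N := lam_mono (by omega)
    nlinarith
  have a3 : lam j * z.re ≤ 1 := by
    rcases Nat.eq_zero_or_pos j with h | h
    · have : lam j ≤ lam N := lam_mono (by omega)
      nlinarith
    · have := Nat.find_min hex (m := j - 1) (by omega)
      rw [Nat.sub_add_cancel h] at this
      exact not_lt.1 this
  have a4 := f_big j z a1 a3
  have a5 : (N : ℝ) ≤ j := by exact_mod_cast a2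
  have a6 : (0 : ℝ) ≤ j := j.cast_nonneg
  have a7 : ‖f (j % 2) z‖ ≤ ‖H z‖ := by
    rcases Nat.mod_two_eq_zero_or_one j with h | h <;> rw [h]
    · exact PiLp.norm_apply_le (H z) 1
    · exact PiLp.norm_apply_le (H z) 2
  linarith

def D : Set E := {v | 0 < (v 0).re}

lemma D_open : IsOpen D := isOpen_lt continuous_const (by fun_prop)

noncomputable def sh (a : ℝ) (v : E) : E := v + (a : ℂ) • H (v 0)

lemma sh_zero (a : ℝ) (v : E) : sh a v 0 = v 0 := by simp [sh, H]

lemma sh_sh (a b : ℝ) (v : E) : sh a (sh b v) = sh (a + b) v := by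
  rw [sh, sh_zero]
  simp only [sh]
  push_cast
  rw [add_smul]
  abel

lemma sh_id (v : E) : sh 0 v = v := by simp [sh]

lemma sh_smooth (a : ℝ) : ContDiffOn ℂ ⊤ (sh a) D := by
  have ho : IsOpen {z : ℂ | 0 < z.re} := isOpen_lt continuous_const (by fun_prop)
  have h0 : ContDiff ℂ ⊤ fun v : E => v 0 := (EuclideanSpace.proj (0 : Fin 3) : E →L[ℂ] ℂ).contDiff
  have h1 : ∀ e, ContDiffOn ℂ ⊤ (fun v : E => f e (v 0)) D := fun e =>
    ((f_diff e).contDiffOn ho).comp h0.contDiffOn fun v hv => hv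
  refine contDiffOn_id.add (ContDiffOn.const_smul _ ?_)
  rw [contDiffOn_piLp]
  intro i
  fin_cases i
  · exact contDiffOn_const
  · exact h1 0
  · exact h1 1

def M : Type := {p : ℝ × E // p.2 ∈ D → p.1 = 0}

open Classical in
noncomputable def io (a : ℝ) (v : E) : M :=
  if h : v ∈ D then ⟨(0, sh a v), fun _ => rfl⟩ else ⟨(a, v), fun h' => absurd h' h⟩

lemma sh_D (a : ℝ) (v : E) : sh a v ∈ D ↔ v ∈ D := by simp only [D, mem_ofPred_eq, sh_zero]

lemma io_eq (a b : ℝ) (v w : E) :
    io a v = io b w ↔ (a = b ∧ v = w) ∨ (v ∈ D ∧ w = sh (a - b) v) := by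
  constructor
  · intro h
    have h' := congrArg Subtype.val h
    unfold io at h'
    by_cases hv : v ∈ D <;> by_cases hw : w ∈ D <;> simp only [hv, hw, dif_pos, dif_neg,
      not_false_eq_true, Prod.mk.injEq, true_and] at h'
    · refine Or.inr ⟨hv, ?_⟩
      have := congrArg (sh (-b)) h'
      rw [sh_sh, sh_sh, neg_add_cancel, sh_id] at this
      rw [← this]
      congr 1
      ring
    · exact absurd (h'.2 ▸ (sh_D a v).2 hv) hw
    · exact absurd (h'.2 ▸ (sh_D b w).2 hw) hv
    · exact Or.inl h'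
  · rintro (⟨rfl, rfl⟩ | ⟨hv, rfl⟩)
    · rfl
    · unfold io
      rw [dif_pos hv, dif_pos ((sh_D _ _).2 hv)]
      apply Subtype.ext
      simp [sh_sh]

noncomputable instance : TopologicalSpace M := ⨆ a : ℝ, TopologicalSpace.coinduced (io a) inferInstance

lemma io_emb (a : ℝ) : IsOpenEmbedding (io a) := by
  refine IsOpenEmbedding.of_continuous_injective_isOpenMap
    (continuous_iSup_rng (i := a) continuous_coinduced_rng) ?_ ?_
  · intro v w h
    rcases (io_eq _ _ _ _).1 h with h | h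
    · exact h.2
    · rw [h.2, sub_self, sh_id]
  · intro W hW
    rw [isOpen_iSup_iff]
    intro b
    rw [isOpen_coinduced]
    have hop : IsOpen (D ∩ sh (b - a) ⁻¹' W) :=
      (sh_smooth _).continuousOn.isOpen_inter_preimage D_open hW
    by_cases hab : b = a
    · subst hab
      convert hW using 1
      ext v
      constructor
      · rintro ⟨w, hw, h⟩
        rcases (io_eq _ _ _ _).1 h with h | h
        · exact h.2 ▸ hw
        · rw [h.2, sub_self, sh_id]
          exact hw
      · exact fun h => ⟨v, h, rfl⟩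
    · convert hop using 1
      ext v
      constructor
      · rintro ⟨w, hw, h⟩
        rcases (io_eq _ _ _ _).1 h.symm with h | h
        · exact absurd h.1 hab
        · exact ⟨h.1, by rw [mem_preimage, ← h.2]; exact hw⟩
      · exact fun h => ⟨_, h.2, ((io_eq _ _ _ _).2 (Or.inr ⟨h.1, rfl⟩)).symm⟩

lemma io_surj (p : M) : ∃ v, io p.1.1 v = p := by
  obtain ⟨⟨a, v⟩, h⟩ := p
  refine ⟨v, ?_⟩
  unfold io
  by_cases hv : v ∈ D
  · have : a = 0 := h hv
    subst this
    rw [dif_pos hv]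
    apply Subtype.ext
    simp [sh_id]
  · rw [dif_neg hv]

noncomputable def ch (a : ℝ) : OpenPartialHomeomorph M E :=
  ((io_emb a).toOpenPartialHomeomorph (io a)).symm

noncomputable instance : ChartedSpace E M where
  atlas := range ch
  chartAt p := ch p.1.1
  mem_chart_source p := by simpa [ch] using io_surj p
  chart_mem_atlas p := ⟨_, rfl⟩

lemma man : IsManifold (modelWithCornersSelf ℂ E) (⊤ : WithTop ℕ∞) M := by
  refine isManifold_of_contDiffOn _ _ _ ?_
  rintro _ _ ⟨a, rfl⟩ ⟨b, rfl⟩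
  have key : ∀ v, io a v ∈ range (io b) →
      io b (((io_emb b).toOpenPartialHomeomorph (io b)).symm (io a v)) = io a v :=
    fun v hv => (io_emb b).toOpenPartialHomeomorph_right_inv _ hv
  by_cases hab : a = b
  · subst hab
    refine contDiffOn_id.congr fun v _ => ?_
    simpa [ch] using (io_emb a).toOpenPartialHomeomorph_left_inv (io a) (x := v)
  · have h1 : ∀ v, io a v ∈ range (io b) → v ∈ D ∧
        ((io_emb b).toOpenPartialHomeomorph (io b)).symm (io a v) = sh (a - b) v := by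
      intro v hv
      rcases (io_eq _ _ _ _).1 (key v hv).symm with h | h
      · exact absurd h.1 hab
      · exact h
    refine ((sh_smooth (a - b)).mono fun v hv => (h1 v ?_).1).congr fun v hv => ?_
    · simpa [ch] using hv
    · have : io a v ∈ range (io b) := by simpa [ch] using hv
      simpa [ch] using (h1 v this).2

lemma t2 : T2Space M := by
  refine ⟨fun p q hpq => ?_⟩
  obtain ⟨v, hv⟩ := io_surj p
  obtain ⟨w, hw⟩ := io_surj q
  generalize p.1.1 = a at hv
  generalize q.1.1 = b at hw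
  subst hv hw
  have same : ∀ (c : ℝ) (x y : E), io c x ≠ io c y →
      ∃ u v : Set M, IsOpen u ∧ IsOpen v ∧ io c x ∈ u ∧ io c y ∈ v ∧ Disjoint u v := by
    intro c x y h
    obtain ⟨U, V, hU, hV, hx, hy, hd⟩ := t2_separation (fun e : x = y => h (by rw [e]))
    exact ⟨_, _, (io_emb c).isOpenMap _ hU, (io_emb c).isOpenMap _ hV, ⟨x, hx, rfl⟩, ⟨y, hy, rfl⟩,
      (disjoint_image_iff (io_emb c).injective).2 hd⟩
  by_cases hab : a = b
  · subst hab
    exact same a v w hpq
  by_cases hv : v ∈ D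
  · have e : io a v = io b (sh (a - b) v) := (io_eq _ _ _ _).2 (Or.inr ⟨hv, rfl⟩)
    rw [e] at hpq ⊢
    exact same b _ _ hpq
  have hpos : 0 < |a - b| := abs_pos.2 (sub_ne_zero.2 hab)
  obtain ⟨δ, hδ, hb⟩ := H_big ((dist v w + 2) / |a - b|)
  refine ⟨io a '' (Metric.ball v 1 ∩ {x | (x 0).re < δ}), io b '' Metric.ball w 1,
    (io_emb a).isOpenMap _ (Metric.isOpen_ball.inter (isOpen_lt (by fun_prop) continuous_const)),
    (io_emb b).isOpenMap _ Metric.isOpen_ball,
    ⟨v, ⟨Metric.mem_ball_self one_pos, lt_of_le_of_lt (not_lt.1 hv) hδ⟩, rfl⟩,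
    ⟨w, Metric.mem_ball_self one_pos, rfl⟩, Set.disjoint_left.2 ?_⟩
  rintro _ ⟨x, ⟨hx, hx'⟩, rfl⟩ ⟨y, hy, h⟩
  rcases (io_eq _ _ _ _).1 h.symm with h | h
  · exact hab h.1
  have h1 := hb (x 0) h.1 hx'
  rw [div_lt_iff₀ hpos] at h1
  have h2 : dist y x = |a - b| * ‖H (x 0)‖ := by
    rw [h.2, dist_eq_norm, sh, add_sub_cancel_left, norm_smul, Complex.norm_real, Real.norm_eq_abs]
  have h3 := dist_triangle4 y w v x
  rw [Metric.mem_ball] at hx hy
  rw [dist_comm w v, dist_comm v x] at h3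
  linarith

lemma conn : ConnectedSpace M := by
  have h1 : (!₂[1, 0, 0] : E) ∈ D := by simp [D]
  have : IsPreconnected (⋃ a : ℝ, range (io a)) := by
    refine isPreconnected_iUnion ⟨io 0 !₂[1, 0, 0], mem_iInter.2 fun a => ?_⟩
      fun a => isPreconnected_range (io_emb a).continuous
    exact ⟨_, ((io_eq _ _ _ _).2 (Or.inr ⟨h1, rfl⟩)).symm⟩
  have e : (⋃ a : ℝ, range (io a)) = univ :=
    eq_univ_of_forall fun p => mem_iUnion.2 ⟨_, io_surj p⟩
  rw [e] at this
  exact { isPreconnected_univ := this, toNonempty := ⟨io 0 0⟩ }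

lemma nsep : ¬ TopologicalSpace.SeparableSpace M := by
  intro h
  have : Countable ℝ := by
    refine Pairwise.countable_of_isOpen_disjoint
      (s := fun a : ℝ => io a '' {x | (x 0).re < 0}) ?_ ?_ ?_
    · intro a b hab
      refine Set.disjoint_left.2 ?_
      rintro _ ⟨x, hx, rfl⟩ ⟨y, -, h⟩
      rcases (io_eq _ _ _ _).1 h.symm with h | h
      · exact hab h.1
      · have h1 : (x 0).re < 0 := hx
        have h2 : 0 < (x 0).re := h.1
        exact lt_asymm h1 h2
    · exact fun a => (io_emb a).isOpenMap _ (isOpen_lt (by fun_prop) continuous_const)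
    · exact fun a => ⟨_, !₂[-1, 0, 0], by simp, rfl⟩
  exact not_countable (α := ℝ) this

theorem result :
    ∃ (n : ℕ) (M : Type) (_ : TopologicalSpace M)
      (_ : ChartedSpace (EuclideanSpace ℂ (Fin n)) M),
      IsManifold (modelWithCornersSelf ℂ (EuclideanSpace ℂ (Fin n))) (⊤ : WithTop ℕ∞) M ∧
      T2Space M ∧ ConnectedSpace M ∧ ¬ TopologicalSpace.SeparableSpace M := by
  exact ⟨3, M, inferInstance, inferInstance, man, t2, conn, nsep⟩

end Pool.Agent.S13989
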