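import Pool.Statements.S14003
import Pool.Agent.H.MP_d4ad8c_gt.C

set_option autoImplicit false
open Pool Pool.MP_d4ad8c_gt

namespace Pool.Agent.S14003

theorem result :
    ∀ k m : ℕ, Odd k → Even m → ∀ ε : ℝ, 0 < ε → ε < 1 →
      ∃ F : MvPolynomial ((Fin k ⊕ Fin m) ⊕ Fin 2) ℝ, F ≠ 0 ∧
        ∀ (a : Fin k → ℝ) (b : Fin m → ℝ) (t : ℝ), (a, b) ≠ 0 →
          MvPolynomial.eval
            (Sum.elim (Sum.elim a b)
              ![t, (MeasureTheory.volume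
                {p : (Fin k → ℝ) × (Fin m → ℝ) |
                  (Real.sqrt (∑ i, p.1 i ^ 2) - 1) ^ 2 + ∑ j, p.2 j ^ 2 ≤ ε ^ 2 ∧
                  ∑ i, a i * p.1 i + ∑ j, b j * p.2 j ≤ t}).toReal]) F = 0 := by
  intro k m hk hm ε h0 h1
  obtain ⟨F, hF, hE⟩ := Pool.Agent.H.MP_d4ad8c_gt.main k m hk hm ε h0 h1
  exact ⟨F, hF, fun a b t _ => hE a b t⟩

end Pool.Agent.S14003
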