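import Pool.Statements.S14006
import Pool.Agent.H.MP_d4b900.A

set_option autoImplicit false
open Pool Pool.MP_d4b900_gt

namespace Pool.Agent.S14006

theorem result :
    ¬ (∀ (X Y : Type) [TopologicalSpace X] [TopologicalSpace Y] [T35Space X] [T35Space Y],
      ∀ T : C(X, ℝ) ≃ₗ[ℝ] C(Y, ℝ),
        @Continuous C(X, ℝ) C(Y, ℝ)
          (TopologicalSpace.induced (fun f : C(X, ℝ) => (f : X → ℝ))
            (inferInstance : TopologicalSpace (X → ℝ)))
          (TopologicalSpace.induced (fun g : C(Y, ℝ) => (g : Y → ℝ))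
            (inferInstance : TopologicalSpace (Y → ℝ)))
          (⇑T) →
        @Continuous C(Y, ℝ) C(X, ℝ)
          (TopologicalSpace.induced (fun g : C(Y, ℝ) => (g : Y → ℝ))
            (inferInstance : TopologicalSpace (Y → ℝ)))
          (TopologicalSpace.induced (fun f : C(X, ℝ) => (f : X → ℝ))
            (inferInstance : TopologicalSpace (X → ℝ)))
          (⇑T.symm) →
        (∀ u : ℕ → X, ∃ x : X, MapClusterPt x Filter.atTop u) →
        (∀ v : ℕ → Y, ∃ y : Y, MapClusterPt y Filter.atTop v)) := by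
  open Pool.Agent.H.MP_d4b900 in
  intro H
  obtain ⟨x, hx⟩ := H _ _ (E (nu (s (0, fun _ => true) 0)) mu) (Tc _ _) (Tc _ _) (ccY _) _
  exact ncc x hx

end Pool.Agent.S14006
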