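import Pool.Statements.S14013
import Pool.Agent.H.MP_d57a60.A

set_option autoImplicit false
open Pool Pool.MP_d57a60_gt

namespace Pool.Agent.S14013

theorem result :
    ∀ (X : Type) [TopologicalSpace X] [T35Space X],
      (∃ 𝓕 : Set (Set {f : X → Set.Icc (0:ℝ) 1 // Continuous f}), 𝓕.Countable ∧
        ∀ g : {f : X → Set.Icc (0:ℝ) 1 // Continuous f},
          ∃ C : Set {f : X → Set.Icc (0:ℝ) 1 // Continuous f},
            IsCompact C ∧ g ∈ C ∧
              ∀ U : Set {f : X → Set.Icc (0:ℝ) 1 // Continuous f},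
                IsOpen U → C ⊆ U → ∃ F ∈ 𝓕, C ⊆ F ∧ F ⊆ U) →
      (∃ 𝓕 : Set (Set ↥(closure ((fun x : X => fun f : C(X, ℝ) => f x) ''
                {x : X | ¬ IsOpen ({x} : Set X)}))), 𝓕.Countable ∧
        ∀ g : ↥(closure ((fun x : X => fun f : C(X, ℝ) => f x) ''
                {x : X | ¬ IsOpen ({x} : Set X)})),
          ∃ C : Set ↥(closure ((fun x : X => fun f : C(X, ℝ) => f x) ''
                {x : X | ¬ IsOpen ({x} : Set X)})),
            IsCompact C ∧ g ∈ C ∧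
              ∀ U : Set ↥(closure ((fun x : X => fun f : C(X, ℝ) => f x) ''
                {x : X | ¬ IsOpen ({x} : Set X)})),
                IsOpen U → C ⊆ U → ∃ F ∈ 𝓕, C ⊆ F ∧ F ⊆ U) := by
  rintro X _ _ ⟨F, F1, F2⟩
  obtain ⟨N, hN⟩ := (F1.insert ∅).exists_eq_range (Set.insert_nonempty _ _)
  have := H.MP_d57a60.main (X := X) (H.MP_e9bccb.GN.ls ⟨N, fun z => (F2 z).imp fun K k =>
    ⟨k.1, k.2.1, fun U a b => by
      obtain ⟨S, s1, s2⟩ := k.2.2 U a b
      obtain ⟨n, rfl⟩ : S ∈ Set.range N := hN ▸ Set.mem_insert_of_mem _ s1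
      exact ⟨n, s2⟩⟩⟩)
  rw [← Subtype.range_coe (s := closure _)] at this
  obtain ⟨N, hN⟩ := (H.MP_e9bccb.LS.pre Topology.IsInducing.subtypeVal this).gn
  exact ⟨_, Set.countable_range N, fun z => (hN z).imp fun K k => ⟨k.1, k.2.1, fun U a b =>
    Set.exists_range_iff.2 (k.2.2 U a b)⟩⟩

end Pool.Agent.S14013
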