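import Pool.Statements.S14028
import Pool.Agent.H.MP_a58584.E

set_option autoImplicit false
open Pool Pool.MP_d6b4bb_gt

namespace Pool.Agent.S14028

theorem result :
    ¬ (∀ ι : Type, Cardinal.mk ι = Cardinal.aleph 1 →
      ∃ f : {g : (ι → Bool) → ℝ // Continuous g} →
            {g : (ι → unitInterval) → ℝ // Continuous g},
        Topology.IsEmbedding f) := by
  classical
  intro H
  obtain ⟨A, hA⟩ : ∃ J : Type, Cardinal.mk J = Cardinal.aleph 1 := ⟨_, Cardinal.mk_out _⟩
  obtain ⟨φ, hφ⟩ := H A hA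
  obtain ⟨𝒩, h1, h2⟩ := Pool.Agent.H.MP_a58584.network hA (Pool.Agent.H.MP_a58584.neg_td A) φ
    hφ.continuous
  let c : A → {g : (A → Bool) → ℝ // Continuous g} := fun α => ⟨fun z => cond (z α) 1 0,
    (continuous_of_discreteTopology (f := fun b : Bool => cond b (1 : ℝ) 0)).comp
      (continuous_apply α)⟩
  have : ∀ α, ∃ N ∈ 𝒩, φ (c α) ∈ N ∧ ∀ β, φ (c β) ∈ N → β = α := fun α => by
    obtain ⟨U, hU, e⟩ := hφ.isInducing.isOpen_iff.1 (isOpen_lt (continuous_const (y := (0 : ℝ)))
      ((continuous_apply fun β => decide (β = α)).comp continuous_subtype_val))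
    obtain ⟨N, h3, h4, h5⟩ := h2 (φ (c α)) ⟨_, rfl⟩ U hU ((Set.ext_iff.1 e (c α)).2 (by simp [c]))
    refine ⟨N, h3, h4, fun β hβ => ?_⟩
    by_contra hn
    simpa [c, hn] using (Set.ext_iff.1 e (c β)).1 (h5 hβ).1
  choose N n1 n2 n3 using this
  have := h1.to_subtype
  have : Countable A := Function.Injective.countable (f := fun α => (⟨N α, n1 α⟩ : 𝒩))
    fun α β e => n3 β α (by rw [← show N α = N β from congrArg Subtype.val e]; exact n2 α)
  have := Cardinal.mk_le_aleph0_iff.2 this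
  rw [hA] at this
  exact this.not_gt Cardinal.aleph0_lt_aleph_one

end Pool.Agent.S14028
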