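import Pool.Statements.S14032
import Pool.Agent.H.MP_d722ac_gt.B

set_option autoImplicit false
open Pool Pool.MP_d722ac_gt
open Pool.Agent.H.MP_d722ac_gt MeasureTheory Set

namespace Pool.Agent.S14032

theorem result :
    ¬ (∃ C : NNReal, ∀ n : ℕ, 1 ≤ n →
      ∀ K : ConvexBody (EuclideanSpace ℝ (Fin n)),
        (∀ x ∈ K, -x ∈ K) →
        (interior (K : Set (EuclideanSpace ℝ (Fin n)))).Nonempty →
        ∫⁻ y in Metric.ball (0 : EuclideanSpace ℝ (Fin n)) 1,
            MeasureTheory.volume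
              {z : EuclideanSpace ℝ (Fin n) |
                ∀ x ∈ {w : EuclideanSpace ℝ (Fin n) |
                    (∃ s : ℝ, w - (inner ℝ w (‖y‖⁻¹ • y)) • (‖y‖⁻¹ • y) + s • (‖y‖⁻¹ • y) ∈ K) ∧
                    ENNReal.ofReal (2 * |inner ℝ w (‖y‖⁻¹ • y)|) ≤
                      MeasureTheory.volume
                        {s : ℝ | w - (inner ℝ w (‖y‖⁻¹ • y)) • (‖y‖⁻¹ • y) + s • (‖y‖⁻¹ • y) ∈ K}},
                  inner ℝ x z ≤ (1 : ℝ)}
          ≤ (C : ENNReal) * MeasureTheory.volume (Metric.ball (0 : EuclideanSpace ℝ (Fin n)) 1)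
              * MeasureTheory.volume {z : EuclideanSpace ℝ (Fin n) | ∀ x ∈ K, inner ℝ x z ≤ (1 : ℝ)}) := by
  rintro ⟨C, hC⟩
  obtain ⟨θ, hθ, hθ1, hθC⟩ : ∃ θ : ℝ, 0 < θ ∧ θ ≤ 1 ∧ C * (16 * θ) ≤ 1 :=
    ⟨1 / (16 * (C + 1)), by positivity, by
      rw [div_le_one (by positivity)]; linarith [C.coe_nonneg], by
      rw [mul_one_div, ← mul_div_assoc, div_le_one (by positivity)]; linarith⟩
  obtain ⟨m, hm⟩ := exists_pow_lt_of_lt_one hθ (show 1 - θ ^ 2 / 3 < 1 by nlinarith)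
  obtain ⟨η, hη, hη1, hs⟩ := slab m
  obtain ⟨δ, hδ, hδ1, hδ2⟩ : ∃ δ : ℝ, 0 < δ ∧ δ ≤ 1 ∧ 1 ≤ 2 * (1 - δ) ^ (m + m + 1) := by
    have p : (0 : ℝ) < 2 * ((m + m + 1 : ℕ) : ℝ) := by positivity
    have q : 1 / (2 * ((m + m + 1 : ℕ) : ℝ)) ≤ 1 := by
      rw [div_le_one p]; push_cast; linarith [m.cast_nonneg (α := ℝ)]
    refine ⟨_, by positivity, q, ?_⟩
    have := one_add_mul_le_pow (a := -(1 / (2 * ((m + m + 1 : ℕ) : ℝ)))) (by linarith) (m + m + 1)
    rw [show ((m + m + 1 : ℕ) : ℝ) * -(1 / (2 * ((m + m + 1 : ℕ) : ℝ))) = -(1 / 2) by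
      field_simp, ← sub_eq_add_neg, ← sub_eq_add_neg] at this
    linarith
  obtain ⟨ε, h0, h1, h8⟩ : ∃ ε : ℝ, 0 < ε ∧ ε ≤ 1 ∧ 8 * m * ε ≤ δ * η :=
    ⟨δ * η / (8 * m + 1), by positivity, by
      rw [div_le_one (by positivity)]; nlinarith [m.cast_nonneg (α := ℝ)], by
      rw [← mul_div_assoc, div_le_iff₀ (by positivity)]; nlinarith [mul_pos hδ hη]⟩
  have h := hC (m + m + 1) (by omega) (body m h0 h1) (fun x hx z hz => by
    have := hx _ (T_neg hz)
    rwa [inner_neg_right, ← inner_neg_left] at this) (body_int h0 h1)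
  set B := Metric.ball (0 : EuclideanSpace ℝ (Fin (m + m + 1))) 1
  set V := ENNReal.ofReal (3 * ε ^ 2) ^ m with hV
  have low := le_trans (a := V * volume (B ∩ {y | η ≤ |y 0|})) (by
    rw [← setLIntegral_const]
    refine le_trans (setLIntegral_mono' (by measurability) fun y hy => ?_)
      (lintegral_mono_set inter_subset_left)
    have y0 : y ≠ 0 := by rintro rfl; exact absurd hy.2 (by simpa using hη)
    have hu : ‖‖y‖⁻¹ • y‖ = 1 := norm_smul_inv_norm y0
    have hu0 : η ≤ |(‖y‖⁻¹ • y) 0| := by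
      have n : 0 < ‖y‖ := norm_pos_iff.2 y0
      rw [PiLp.smul_apply, smul_eq_mul, abs_mul, abs_of_pos (inv_pos.2 n), le_inv_mul_iff₀ n]
      have := mem_ball_zero_iff.1 hy.1
      have h2 : η ≤ |y 0| := hy.2
      nlinarith
    generalize ‖y‖⁻¹ • y = u at hu hu0
    have u0 : u 0 ≠ 0 := abs_pos.1 (hη.trans_le hu0)
    let Θ := LinearMap.transvection (innerₗ _ u) ((u 0)⁻¹ • EuclideanSpace.single 0 1 - u)
    have hΘ : LinearMap.det Θ = 1 := by
      simp [Θ, inner_sub_right, real_inner_smul_right, EuclideanSpace.inner_single_right, hu, u0]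
    have := Measure.addHaar_preimage_linearMap volume (f := Θ) (by simp [hΘ])
      (T m (1 - δ) ((1 - δ) * ε) 0)
    rw [hΘ, inv_one, abs_one, ENNReal.ofReal_one, one_mul] at this
    refine ((vol_C h0.le (by linarith) hδ2).trans this.ge).trans (measure_mono fun z hz w hw => ?_)
    obtain ⟨c, v, hv, rfl, hc⟩ := split hu hη hu0 h0.le hδ.le h8 hz
    refine steiner (body m h0 h1 : Set _) hv (fun x hx => hx _ ?_) (fun x hx => hx _ ?_) w
      hw.1 hw.2
    · simpa using hc 1 (by simp)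
    · simpa [sub_eq_add_neg] using T_neg (hc (-1) (by simp))) h
  have up : volume {z | ∀ x ∈ body m h0 h1, inner ℝ x z ≤ (1 : ℝ)} ≤ ENNReal.ofReal (4 * θ) * V := by
    refine (measure_mono (polar_sub h0 h1)).trans ((vol_L h0.le hθ.le).trans ?_)
    rw [ENNReal.ofReal_mul (p := 3 * ε ^ 2) (by positivity), mul_pow, ← hV,
      ← ENNReal.ofReal_pow (by nlinarith), show 4 * θ = 2 * θ + 2 * θ by ring,
      ENNReal.ofReal_add (by positivity) (by positivity), add_mul, mul_comm V, ← mul_assoc,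
      ENNReal.ofReal_mul (p := 2) (q := θ) (by norm_num), ENNReal.ofReal_ofNat]
    gcongr
  have fin : V * volume B ≤ 2⁻¹ * (V * volume B) := by
    calc _ ≤ 2 * (V * volume (B ∩ {y | η ≤ |y 0|})) := by rw [mul_left_comm]; gcongr
      _ ≤ 2 * (C * volume B * (ENNReal.ofReal (4 * θ) * V)) :=
          mul_le_mul_right (low.trans (by gcongr)) _
      _ = (2 * C * ENNReal.ofReal (4 * θ)) * (V * volume B) := by ring
      _ ≤ _ := by
          gcongr
          rw [← ENNReal.ofReal_coe_nnreal, ← ENNReal.ofReal_ofNat, ← ENNReal.ofReal_mul (by norm_num),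
            ← ENNReal.ofReal_mul (by positivity), ← ENNReal.ofReal_inv_of_pos two_pos]
          exact ENNReal.ofReal_le_ofReal (by linarith)
  refine absurd fin (not_le.2 ?_)
  rw [mul_comm, ← div_eq_mul_inv]
  exact ENNReal.half_lt_self (mul_ne_zero (pow_ne_zero _ (ENNReal.ofReal_pos.2 (by positivity)).ne')
    (Metric.measure_ball_pos _ _ one_pos).ne')
    (ENNReal.mul_ne_top (ENNReal.pow_ne_top ENNReal.ofReal_ne_top) measure_ball_lt_top.ne)

end Pool.Agent.S14032
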