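import Pool.Statements.S14036
import Pool.Agent.Lib.helper23.Shakh

set_option autoImplicit false
open Pool Pool.MP_d88d39_gt

namespace Pool.Agent.S14036

open Set Topology Filter Pool.Agent.Lib.helper23

abbrev CC (X : Type) [TopologicalSpace X] : Type := {f : X → ℝ // Continuous f}

abbrev Ty : Type := Σ k : ℕ, Fin k → ℚ

def HasTy {X : Type} [TopologicalSpace X] (τ : Ty) (U : Set (CC X)) : Prop :=
  ∃ (x : Fin τ.1 ↪ X), ∀ f : CC X, (∀ i, f.1 (x i) = τ.2 i) → f ∈ U

lemma exists_ty {X : Type} [TopologicalSpace X] (U : Set (CC X))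
    (hU : IsOpen U) (hne : U.Nonempty) : ∃ τ, HasTy τ U := by
  obtain ⟨z, hz⟩ := hne
  obtain ⟨V', hV', hsub⟩ := (mem_nhds_subtype _ _ _).1 (hU.mem_nhds hz)
  rw [nhds_pi, Filter.mem_pi] at hV'
  obtain ⟨E, hE, O, hO, hOV⟩ := hV'
  have : ∀ x, ∃ q : ℚ, (q : ℝ) ∈ O x := fun x => by
    obtain ⟨_, h1, q, rfl⟩ := mem_closure_iff_nhds.1 (Rat.denseRange_cast (𝕜 := ℝ) (z.1 x))
      _ (hO x)
    exact ⟨q, h1⟩
  choose q hq using this
  obtain ⟨k, x, hx⟩ := hE.fin_embedding
  refine ⟨⟨k, fun i => q (x i)⟩, x, fun f hf => hsub (hOV fun y hy => ?_)⟩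
  obtain ⟨i, rfl⟩ : y ∈ range x := hx ▸ hy
  rw [hf i]
  exact hq _

lemma part1 (𝒰 : Set (Set (CC Sh))) (h1 : ∀ U ∈ 𝒰, IsOpen U ∧ U.Nonempty)
    (h2 : ∀ y, {U | U ∈ 𝒰 ∧ y ∈ U}.Finite) : 𝒰.Countable := by
  classical
  have h4 : 𝒰 ⊆ ⋃ τ : Ty, {U | U ∈ 𝒰 ∧ HasTy τ U} := fun U hU => by
    obtain ⟨τ, hτ⟩ := exists_ty U (h1 U hU).1 (h1 U hU).2
    exact mem_iUnion.2 ⟨τ, hU, hτ⟩
  refine (countable_iUnion fun τ => Set.Finite.countable ?_).mono h4
  obtain ⟨k, q⟩ := τ
  by_contra hinf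
  let A := {U | U ∈ 𝒰 ∧ HasTy ⟨k, q⟩ U}
  have h5 : ∀ U : A, ∃ (x : Fin k ↪ Sh), ∀ f : CC Sh, (∀ i, f.1 (x i) = q i) → f ∈ U.1 :=
    fun U => U.2.2
  choose x hx using h5
  have : Infinite A := Set.Infinite.to_subtype hinf
  obtain ⟨S, -, hSi, hSt⟩ := thin (univ : Set A) infinite_univ (fun U j => x U j)
    fun U _ => (x U).injective
  let u := hSi.natEmbedding
  choose t ht using fun i : Fin k => Sh_sep (range fun p : ℕ × Fin k => x (u p.1) p.2)
    (countable_range _) fun z => decide (∃ n, x (u n) i = z)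
  let f : CC Sh := ⟨fun z => ∑ i, if z.1 (t i) = true then (q i : ℝ) else 0, by
    refine continuous_finsetSum _ fun i _ => ?_
    exact (continuous_of_discreteTopology (f := fun b : Bool => if b = true then (q i : ℝ) else 0)).comp
      ((continuous_apply (t i)).comp continuous_subtype_val)⟩
  have hf : ∀ n, f ∈ (u n).1.1 := by
    intro n
    refine hx _ f fun j => ?_
    show ∑ i, (if (x (u n) j).1 (t i) = true then (q i : ℝ) else 0) = q j
    rw [Finset.sum_eq_single j]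
    · rw [ht j _ ⟨(n, j), rfl⟩, if_pos (by simp)]
    · intro i _ hi
      rw [ht i _ ⟨(n, j), rfl⟩, if_neg]
      simp only [decide_eq_true_eq, not_exists]
      exact fun m e => hi (hSt _ (u m).2 _ (u n).2 _ _ e)
    · simp
  refine infinite_range_of_injective (f := fun n => (u n).1.1)
    (fun m n e => u.injective (Subtype.ext (Subtype.ext e))) ((h2 f).subset ?_)
  rintro _ ⟨n, rfl⟩
  exact ⟨(u n).1.2.1, hf n⟩

noncomputable def ee : StoneCech Sh → (TT → Bool) :=
  stoneCechExtend (continuous_subtype_val : Continuous fun x : Sh => x.1)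

lemma ee_cont : Continuous ee := continuous_stoneCechExtend _

lemma ee_unit (x : Sh) : ee (stoneCechUnit x) = x.1 := stoneCechExtend_stoneCechUnit _ x

lemma ee_surj : Function.Surjective ee := by
  have h : Dense (range ee) := Sh_fills.dense.mono fun y hy => ⟨_, ee_unit ⟨y, hy⟩⟩
  rw [← range_eq_univ, ← h.closure_eq, (isCompact_range ee_cont).isClosed.closure_eq]

def Ups (p : StoneCech Sh) : Prop :=
  ∀ (g : Sh → Set.Icc (-1 : ℝ) 1) (hg : Continuous g),
    (∀ x, ((g x : ℝ)) ∈ Set.Ioo (-1 : ℝ) 1) →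
    ((stoneCechExtend hg p : Set.Icc (-1 : ℝ) 1) : ℝ) ∈ Set.Ioo (-1 : ℝ) 1

lemma all_ups (p : StoneCech Sh) : Ups p := by
  intro g hg h
  obtain ⟨G, hG, h1, h2⟩ := Sh_fills.extend (fun x => (g x : ℝ)) (continuous_subtype_val.comp hg)
  have : (fun p => ((stoneCechExtend hg p : Set.Icc (-1 : ℝ) 1) : ℝ)) = G ∘ ee :=
    denseRange_stoneCechUnit.equalizer
      (continuous_subtype_val.comp (continuous_stoneCechExtend hg)) (hG.comp ee_cont)
      (funext fun x => by simp [ee_unit, h1])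
  rw [congrFun this p]
  obtain ⟨x, hx⟩ := h2 (ee p)
  show G (ee p) ∈ _
  rw [hx]
  exact h x

lemma fac (F : CC {p // Ups p}) : ∃ G : (TT → Bool) → ℝ, Continuous G ∧
    ∀ p, F.1 p = G (ee p.1) := by
  have hc : Continuous fun p : StoneCech Sh => F.1 ⟨p, all_ups p⟩ :=
    F.2.comp (continuous_id.subtype_mk _)
  obtain ⟨G, hG, h1, -⟩ := Sh_fills.extend _ (hc.comp continuous_stoneCechUnit)
  have : (fun p : StoneCech Sh => F.1 ⟨p, all_ups p⟩) = G ∘ ee :=
    denseRange_stoneCechUnit.equalizer hc (hG.comp ee_cont)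
      (funext fun x => by simp [ee_unit, h1])
  exact ⟨G, hG, fun p => congrFun this p.1⟩

theorem result :
    ¬ (∀ (X : Type) [TopologicalSpace X] [T35Space X],
      (∀ 𝒰 : Set (Set {f : X → ℝ // Continuous f}),
          (∀ U ∈ 𝒰, IsOpen U ∧ U.Nonempty) →
          (∀ y : {f : X → ℝ // Continuous f}, {U | U ∈ 𝒰 ∧ y ∈ U}.Finite) →
          𝒰.Countable) →
      (∀ 𝒰 : Set (Set {f : {p : StoneCech X //
              ∀ (g : X → Set.Icc (-1 : ℝ) 1) (hg : Continuous g),
                (∀ x, ((g x : ℝ)) ∈ Set.Ioo (-1 : ℝ) 1) →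
                ((stoneCechExtend hg p : Set.Icc (-1 : ℝ) 1) : ℝ) ∈ Set.Ioo (-1 : ℝ) 1}
              → ℝ // Continuous f}),
          (∀ U ∈ 𝒰, IsOpen U ∧ U.Nonempty) →
          (∀ y, {U | U ∈ 𝒰 ∧ y ∈ U}.Finite) →
          𝒰.Countable)) := by
  classical
  intro h
  choose r hr using ee_surj
  let pt : (TT → Bool) → {p // Ups p} := fun y => ⟨r y, all_ups _⟩
  let d : TT → TT → Bool := fun a b => decide (b = a)
  let U : TT → Set (CC {p // Ups p}) := fun a =>
    {F | 1 < F.1 (pt (d a)) - F.1 (pt fun _ => false)}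
  let F : TT → CC {p // Ups p} := fun a => ⟨fun p => if ee p.1 a = true then 2 else 0,
    (continuous_of_discreteTopology (f := fun b : Bool => if b = true then (2 : ℝ) else 0)).comp
      ((continuous_apply a).comp (ee_cont.comp continuous_subtype_val))⟩
  have hFU : ∀ a b, F a ∈ U b ↔ a = b := by
    intro a b
    simp only [U, F, pt, hr, d, mem_ofPred_eq]
    by_cases e : a = b <;> simp [e]
  have hinj : Function.Injective U := fun a b e => (hFU a b).1 (e ▸ (hFU a a).2 rfl)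
  have hc := h Sh part1 (range U) (by
    rintro _ ⟨a, rfl⟩
    refine ⟨isOpen_lt continuous_const ?_, F a, (hFU a a).2 rfl⟩
    exact ((continuous_apply _).comp continuous_subtype_val).sub
      ((continuous_apply _).comp continuous_subtype_val)) (by
    intro y
    obtain ⟨G, hG, hGy⟩ := fac y
    have hn : {w | G w - G (fun _ => false) < 1} ∈ 𝓝 (fun _ : TT => false) :=
      (isOpen_lt (hG.sub continuous_const) continuous_const).mem_nhds (by simp)
    rw [nhds_pi, Filter.mem_pi] at hn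
    obtain ⟨J, hJ, w, hw, hwV⟩ := hn
    refine (hJ.image U).subset ?_
    rintro _ ⟨⟨a, rfl⟩, ha⟩
    refine ⟨a, ?_, rfl⟩
    by_contra haJ
    have h1 : G (d a) - G (fun _ => false) < 1 := hwV fun b hb => by
      have : d a b = false := by
        simp only [d, decide_eq_false_iff_not]
        rintro rfl
        exact haJ hb
      rw [this]
      exact mem_of_mem_nhds (hw b)
    have h2 : 1 < y.1 (pt (d a)) - y.1 (pt fun _ => false) := ha
    rw [hGy, hGy, hr, hr] at h2
    exact lt_asymm h1 h2)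
  rw [← image_univ] at hc
  exact TT_unc (countable_of_injective_of_countable_image hinj.injOn hc)

end Pool.Agent.S14036
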