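import Pool.Statements.S14047
import Pool.Agent.H.MP_e9bccb.M

set_option autoImplicit false
open Pool Pool.MP_d985ac_gt

namespace Pool.Agent.S14047

theorem result :
    ∀ (X : Type) [TopologicalSpace X] [T35Space X],
      (∃ A : ℕ → Set X,
          (∀ n, ∀ f : X → ℝ, Continuous f → ∃ C : ℝ, ∀ x ∈ A n, |f x| ≤ C) ∧
          Dense (⋃ n, A n)) →
      ∀ K : Set (X → ℝ), (∀ f ∈ K, Continuous f) →
        (∀ U : ℕ → Set (X → ℝ), (∀ n, IsOpen (U n)) → K ⊆ ⋃ n, U n →
            ∃ N : ℕ, K ⊆ ⋃ n ∈ Finset.range N, U n) →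
        IsCompact K ∧
          ∃ (Γ : Type) (e : K → (Γ → ℝ)), Topology.IsEmbedding e ∧
            ∀ k : K, ∀ ε : ℝ, 0 < ε → {γ : Γ | ε ≤ |e k γ|}.Finite := by
  rintro X _ _ ⟨A, hA, hd⟩ K hK hc
  have h1 : ∀ a : ℕ → K, ∃ x, MapClusterPt x Filter.atTop a := fun a => by
    by_contra hn
    obtain ⟨N, hN⟩ := hc (fun n => (closure ((fun k => (a k).1) '' Set.Ici n))ᶜ)
      (fun n => isClosed_closure.isOpen_compl) fun f hf => by_contra fun k => hn ⟨⟨f, hf⟩,
        Topology.IsInducing.subtypeVal.mapClusterPt_iff.1 (mapClusterPt_atTop_iff_forall_mem_closure.2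
          fun n => not_not.1 fun e => k (Set.mem_iUnion.2 ⟨n, e⟩))⟩
    obtain ⟨n, n1, n2⟩ := Set.mem_iUnion₂.1 (hN (a N).2)
    exact n2 (subset_closure ⟨N, (Finset.mem_range.1 n1).le, rfl⟩)
  let e : X → K → ℝ := fun x f => f.1 x
  have e1 : Continuous e := continuous_pi fun f => hK f.1 f.2
  have e2 : ∀ x, Continuous (e x) := fun x => (continuous_apply x).comp continuous_subtype_val
  have b := fun n => H.MP_e9bccb.bnd e1 e2 (hA n)
  have s : ∀ f g : K, (∀ n, ∀ φ ∈ closure (e '' A n), φ f = φ g) → f = g := fun f g k =>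
    Subtype.ext (Continuous.ext_on hd (hK _ f.2) (hK _ g.2) fun x hx =>
      (Set.mem_iUnion.1 hx).elim fun n hn => k n _ (subset_closure ⟨x, hn, rfl⟩))
  have h2 : ∀ U : Ultrafilter K, ∃ f, ↑U ≤ nhds f ∧ ∀ n, ∀ φ ∈ closure (e '' A n),
      Filter.Tendsto φ U (nhds (φ f)) := fun U => by
    choose f hf using fun o : Option X => H.MP_e9bccb.gro h1 (B := fun n =>
      insert (o.elim 0 e) (closure (e '' A n))) (fun n => Set.insert_nonempty _ _)
      (fun n => (b n).1.insert _) (fun n g hg C hC => hg.elim (fun k => ⟨g, by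
        subst k
        cases o
        · exact continuous_const
        · exact e2 _, fun _ _ => rfl⟩) fun k => (b n).2 g k C hC) U
    refine ⟨f none, Filter.tendsto_id'.1 (tendsto_subtype_rng.2 (tendsto_pi_nhds.2 fun x => ?_)),
      fun n φ k => hf none n φ (Or.inr k)⟩
    rw [s (f none) (f (some x)) fun n φ k => tendsto_nhds_unique (hf _ n φ (Or.inr k))
      (hf _ n φ (Or.inr k))]
    exact hf (some x) 0 _ (Or.inl rfl)
  have : CompactSpace K := ⟨isCompact_iff_ultrafilter_le_nhds.2 fun U _ =>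
    (h2 U).imp fun f k => ⟨trivial, k.1⟩⟩
  obtain ⟨Γ, j, j1, -, j2⟩ := H.MP_e9bccb.al (fun n => (b n).1) (fun n φ k =>
    continuous_iff_ultrafilter.2 fun f U hU => by
      obtain ⟨g, g1, g2⟩ := h2 U
      exact tendsto_nhds_unique (Filter.tendsto_id'.2 g1) (Filter.tendsto_id'.2 hU) ▸ g2 n φ k) s
  exact ⟨isCompact_iff_compactSpace.2 this, Γ, j, j1, j2⟩

end Pool.Agent.S14047
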