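import Pool.Statements.S14050
import Pool.Agent.H.MP_da03b0_gt.A

set_option autoImplicit false
open Pool Pool.MP_da03b0_gt

namespace Pool.Agent.S14050

open Set Topology Filter Metric Function Pool.Agent.H.MP_da03b0_gt

theorem result :
    ¬ (∀ n : ℕ, 2 ≤ n → ∀ A : Set (EuclideanSpace ℝ (Fin n)),
      (∀ 𝒰 : Finset (Set (EuclideanSpace ℝ (Fin n))), (∀ U ∈ 𝒰, IsOpen U) → A ⊆ ⋃₀ (↑𝒰 : Set (Set (EuclideanSpace ℝ (Fin n)))) →
        ∃ 𝒱 : Finset (Set (EuclideanSpace ℝ (Fin n))),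
          (∀ V ∈ 𝒱, IsOpen V ∧ ∃ U ∈ 𝒰, V ∩ A ⊆ U) ∧
          A ⊆ ⋃₀ (↑𝒱 : Set (Set (EuclideanSpace ℝ (Fin n)))) ∧
          ∀ z ∈ A, {V | V ∈ 𝒱 ∧ z ∈ V}.ncard ≤ (n - 2) + 1) →
      ∀ x y : EuclideanSpace ℝ (Fin n), x ∉ A → y ∉ A → x ≠ y →
        ∃ C : Set (EuclideanSpace ℝ (Fin n)),
          IsCompact C ∧ IsConnected C ∧ x ∈ C ∧ y ∈ C ∧ C ⊆ Aᶜ ∧
          (∀ 𝒰 : Finset (Set (EuclideanSpace ℝ (Fin n))), (∀ U ∈ 𝒰, IsOpen U) → C ⊆ ⋃₀ (↑𝒰 : Set (Set (EuclideanSpace ℝ (Fin n)))) →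
            ∃ 𝒱 : Finset (Set (EuclideanSpace ℝ (Fin n))),
              (∀ V ∈ 𝒱, IsOpen V ∧ ∃ U ∈ 𝒰, V ∩ C ⊆ U) ∧
              C ⊆ ⋃₀ (↑𝒱 : Set (Set (EuclideanSpace ℝ (Fin n)))) ∧
              ∀ z ∈ C, {V | V ∈ 𝒱 ∧ z ∈ V}.ncard ≤ 1 + 1) ∧
          ¬ (∀ 𝒰 : Finset (Set (EuclideanSpace ℝ (Fin n))), (∀ U ∈ 𝒰, IsOpen U) → C ⊆ ⋃₀ (↑𝒰 : Set (Set (EuclideanSpace ℝ (Fin n)))) →
            ∃ 𝒱 : Finset (Set (EuclideanSpace ℝ (Fin n))),
              (∀ V ∈ 𝒱, IsOpen V ∧ ∃ U ∈ 𝒰, V ∩ C ⊆ U) ∧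
              C ⊆ ⋃₀ (↑𝒱 : Set (Set (EuclideanSpace ℝ (Fin n)))) ∧
              ∀ z ∈ C, {V | V ∈ 𝒱 ∧ z ∈ V}.ncard ≤ 0 + 1)) := by
  intro H
  classical
  obtain ⟨φ, c, k⟩ := osc
  let T : Fin 2 → EuclideanSpace ℝ (Fin 3) → Fin 3 → ℝ := fun m x =>
    ![x 0 - (φ (x 2)).1 + m * (x 1 - (φ (x 2)).2), x 1 - (φ (x 2)).2 - m * (x 0 - (φ (x 2)).1), x 2]
  have t : ∀ m, IsInducing fun x : {x | ∀ i, Irrational (T m x i)} => T m x := fun m => by
    have a : Continuous fun x : {x | ∀ i, Irrational (T m x i)} => φ (x.1 2) :=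
      c.comp_continuous (by fun_prop) fun x => x.2 2
    have b : Continuous fun x : {x : Fin 3 → ℝ // Irrational (x 2)} => φ (x.1 2) :=
      c.comp_continuous ((continuous_apply 2).comp continuous_subtype_val) fun x => x.2
    have d := fun i => (continuous_apply i).comp
      (continuous_subtype_val (p := fun x : Fin 3 → ℝ => Irrational (x 2)))
    have f : ∀ i, Continuous fun x : {x | ∀ i, Irrational (T m x i)} => x.1 i := by fun_prop
    refine IsInducing.subtypeVal.comp (f := fun x : {x | ∀ i, Irrational (T m x i)} =>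
      (⟨T m x, x.2 2⟩ : {x : Fin 3 → ℝ // Irrational (x 2)})) (.of_comp
      (g := fun x => (!₂[(x.1 0 - m * x.1 1) / (1 + m ^ 2) + (φ (x.1 2)).1,
        (x.1 1 + m * x.1 0) / (1 + m ^ 2) + (φ (x.1 2)).2, x.1 2] : EuclideanSpace ℝ (Fin 3)))
      (.subtype_mk ((((f 0).sub a.fst).add (((f 1).sub a.snd).const_mul _)).matrixVecCons
        ((((f 1).sub a.snd).sub (((f 0).sub a.fst).const_mul _)).matrixVecCons
          ((f 2).matrixVecCons continuous_const))) _) ((PiLp.continuous_toLp 2 _).comp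
      (((((d 0).sub ((d 1).const_mul _)).div_const _).add b.fst).matrixVecCons
        (((((d 1).add ((d 0).const_mul _)).div_const _).add b.snd).matrixVecCons
          ((d 2).matrixVecCons continuous_const)))) ?_)
    convert IsInducing.subtypeVal using 1
    ext x i
    fin_cases i <;> simp [T] <;> field_simp <;> ring
  have r : ∀ (s : ℚ) (x : EuclideanSpace ℝ (Fin 3)), x 2 = s →
      x ∉ ⋃ m, {x | ∀ i, Irrational (T m x i)} := fun s x e h =>
    (mem_iUnion.1 h).elim fun m h => (h 2).ne_rat s e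
  obtain ⟨C, c1, c2, c3, c4, c5, c6, -⟩ := H 3 (by norm_num) (⋃ m, {x | ∀ i, Irrational (T m x i)})
    (fun 𝒰 o s => by
      choose V v1 v2 v3 v4 using fun m => zd (t m) (fun y => y.2) 𝒰 o ((subset_iUnion _ m).trans s)
      refine ⟨𝒰.image (V 0) ∪ 𝒰.image (V 1), ?_, fun z a => ?_, fun z _ => ?_⟩
      · simp only [Finset.mem_union, Finset.mem_image]
        rintro _ (⟨U, a, rfl⟩ | ⟨U, a, rfl⟩) <;>
          exact ⟨v1 _ U a, U, a, inter_subset_left.trans (v2 _ U)⟩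
      · obtain ⟨m, a⟩ := mem_iUnion.1 a
        obtain ⟨U, b, d⟩ := v3 m z a
        refine ⟨_, Finset.mem_union.2 ?_, d⟩
        fin_cases m
        exacts [.inl (Finset.mem_image_of_mem _ b), .inr (Finset.mem_image_of_mem _ b)]
      · have : ∀ m, {W | W ∈ 𝒰.image (V m) ∧ z ∈ W}.ncard ≤ 1 := fun m =>
          (ncard_le_one ((Finset.finite_toSet _).subset fun _ => And.left)).2 fun _ a _ b => by
            obtain ⟨U, -, rfl⟩ := Finset.mem_image.1 a.1
            obtain ⟨W, -, rfl⟩ := Finset.mem_image.1 b.1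
            rw [v4 m z U W a.2 b.2]
        simp only [Finset.mem_union, or_and_right, setOf_or]
        exact (ncard_union_le _ _).trans (add_le_add (this 0) (this 1)))
    0 !₂[0, 0, 1] (r 0 _ (by simp)) (r 1 _ (by simp)) (fun h => by simpa using congrArg (· 2) h)
  let E : ℚ × ℚ → Set ℝ := fun a => {z | Irrational z ∧ !₂[a.1 + (φ z).1, a.2 + (φ z).2, z] ∈ C}
  obtain ⟨a, z, h⟩ : ∃ a, (interior (closure (E a))).Nonempty := by
    by_contra! h
    obtain ⟨z, ⟨x, y⟩, w⟩ := (dense_of_mem_residual (eventually_residual_irrational.and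
      (eventually_countable_forall.2 fun a => residual_of_dense_open isClosed_closure.isOpen_compl
        (interior_eq_empty_iff_dense_compl.1 (h a))))).exists_mem_open isOpen_Ioo
          (nonempty_Ioo.2 (zero_lt_one' ℝ))
    obtain ⟨p, u, rfl⟩ := c2.2.intermediate_value c3 c4 (f := fun x => x 2) (by fun_prop)
      (by simpa using Ioo_subset_Icc_self w : z ∈ _)
    have v := c5 u
    simp only [mem_compl_iff, mem_iUnion, not_exists, mem_ofPred, Fin.forall_fin_succ, T] at v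
    obtain ⟨e, f⟩ : ¬ Irrational (p 0 - (φ (p 2)).1) ∧ ¬ Irrational (p 1 - (φ (p 2)).2) := by
      generalize p 0 - (φ (p 2)).1 = s at v
      generalize p 1 - (φ (p 2)).2 = l at v
      simp [x] at v
      by_cases a : Irrational s
      · obtain ⟨l, rfl⟩ := not_not.1 (v.1 a)
        exact (v.2 (a.add_ratCast l) (a.ratCast_sub l)).elim
      · obtain ⟨s, rfl⟩ := not_not.1 a
        exact ⟨a, fun b => v.2 (b.ratCast_add s) (b.sub_ratCast s)⟩
    obtain ⟨s, e⟩ := not_not.1 e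
    obtain ⟨l, f⟩ := not_not.1 f
    refine y (s, l) (subset_closure ⟨x, ?_⟩)
    convert u using 1
    ext i
    fin_cases i <;> simp [e, f]
  obtain ⟨q, h⟩ := Rat.denseRange_cast.exists_mem_open isOpen_interior ⟨z, h⟩
  obtain ⟨d, r, r0, w⟩ := k q (E a) (fun _ => And.left) (mem_interior_iff_mem_nhds.1 h)
  refine low (j := fun w => !₂[a.1 + (d + r • w).1, a.2 + (d + r • w).2, q])
    (π := fun x => ((x 0 - a.1 - d.1) / r, (x 1 - a.2 - d.2) / r)) (by fun_prop) (by fun_prop)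
    (fun w => by simp [r0.ne']) (fun u v => ?_) c6
  obtain ⟨F, _, f1, f2⟩ := w u v
  exact c1.isClosed.mem_of_tendsto (((show Continuous fun p : (ℝ × ℝ) × ℝ =>
    (!₂[a.1 + p.1.1, a.2 + p.1.2, p.2] : EuclideanSpace ℝ (Fin 3)) by fun_prop).tendsto _).comp
      (f2.prodMk_nhds (f1.trans nhdsWithin_le_nhds)))
    (f1 (mem_of_superset self_mem_nhdsWithin fun _ => And.right))

end Pool.Agent.S14050
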