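import Pool.Statements.S14059
import Pool.Agent.H.MP_dacbbd.A

set_option autoImplicit false
open Pool Pool.MP_dacbbd_gt

namespace Pool.Agent.S14059

theorem result :
    ∀ (X : Type) [TopologicalSpace X] [CompactSpace X] [T2Space X],
      (∃ O : Set X → Set (Set X),
        (∀ A : Set X, Cardinal.mk ↥(O A) ≤ max (Cardinal.mk ↥A) Cardinal.aleph0) ∧
        (∀ A : Set X, ∀ x ∈ closure A, ∀ U : Set X, IsOpen U → x ∈ U →
          ∃ N ∈ O A, x ∈ N ∧ N ⊆ U) ∧
        (∀ A B : Set X, A ⊆ B → O A ⊆ O B) ∧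
        (∀ c : Set (Set X), c.Nonempty → IsChain (· ⊆ ·) c →
          O (⋃₀ c) = ⋃ A ∈ c, O A)) →
      ∃ D : Set X, Dense D ∧ TopologicalSpace.MetrizableSpace ↥D := by
  rintro X _ _ _ ⟨O, h1, h2, -, h3⟩
  obtain ⟨D, σ, d1, d2⟩ := Pool.Agent.H.MP_dacbbd.play (O := O) (fun A hA =>
    Cardinal.le_aleph0_iff_set_countable.1 ((h1 A).trans (max_le
      (Cardinal.le_aleph0_iff_set_countable.2 hA.countable) le_rfl))) h2 fun A hA => by
        have := h3 (Set.range A) (Set.range_nonempty _) hA.isChain_range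
        rw [Set.sUnion_range, Set.biUnion_range] at this
        exact this.le
  exact ⟨D, d1, Pool.Agent.H.MP_dacbbd.met d2⟩

end Pool.Agent.S14059
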