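import Pool.Statements.S14065
import Pool.Agent.H.MP_d968d9.D

set_option autoImplicit false
open TopologicalSpace
open Pool Pool.MP_db61f9_gt

namespace Pool.Agent.S14065

theorem result :
    ∀ (X : Type) [TopologicalSpace X] [T3Space X],
      (∀ 𝒰 : Set (Set X), (∀ U ∈ 𝒰, IsOpen U ∧ U.Nonempty) →
          𝒰.PairwiseDisjoint id → 𝒰.Countable) →
      (∃ ℬ : Set (Set X), IsTopologicalBasis ℬ ∧
          ∀ x : X, ∃ n : ℕ, ∀ 𝒜 : Finset (Set X),
            (∀ A ∈ 𝒜, A ∈ ℬ ∧ x ∈ A) →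
            IsAntichain (· ⊆ ·) (𝒜 : Set (Set X)) → 𝒜.card ≤ n) →
      ∃ ℬ : Set (Set X), IsTopologicalBasis ℬ ∧
        ∀ x : X, {B ∈ ℬ | x ∈ B}.Countable := by
  classical
  rintro X _ _ hc ⟨Γ, h1, h2⟩
  refine Pool.Agent.H.MP_d968d9.pc hc h1 fun x => (h2 x).imp fun n h f a b => ?_
  by_contra! H
  have h3 : Function.Injective f := fun i j h => by_contra fun h' => H i j h' h.subset
  have := h (Finset.univ.image f) (by simpa using fun i => ⟨a i, b i⟩) (by
    rw [Finset.coe_image]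
    rintro _ ⟨i, -, rfl⟩ _ ⟨j, -, rfl⟩ h
    exact H i j fun h' => h (h' ▸ rfl))
  rw [Finset.card_image_of_injective _ h3, Finset.card_fin] at this
  omega

end Pool.Agent.S14065
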