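import Pool.Statements.S14068
-- import your own Pool.Agent.* helpers here

set_option autoImplicit false
open Pool Pool.MP_db8e30_gt

namespace Pool.Agent.S14068

open Set Topology Filter TopologicalSpace

abbrev W : Type := (Cardinal.aleph 1).ord.ToType

lemma W_Iic (a : W) : (Iic a).Countable := by
  have h : (Iio a).Countable := by
    rw [← Cardinal.le_aleph0_iff_set_countable, ← Order.lt_succ_iff, Cardinal.succ_aleph0]
    exact Cardinal.mk_Iio_toType_ord_lt a
  rw [← Iio_union_right]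
  exact h.union (countable_singleton a)

lemma W_unc : ¬ (univ : Set W).Countable := by
  rw [← Cardinal.le_aleph0_iff_set_countable, Cardinal.mk_univ, Cardinal.mk_ord_toType, not_le]
  exact Cardinal.aleph0_lt_aleph_one

lemma W_bdd (A : Set W) (hA : A.Countable) : ∃ b, ∀ a ∈ A, a < b := by
  by_contra h
  push Not at h
  refine W_unc ((hA.biUnion fun a _ => W_Iic a).mono fun b _ => ?_)
  obtain ⟨a, ha, hb⟩ := h b
  exact mem_biUnion ha hb

instance : Nonempty W := by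
  obtain ⟨b, -⟩ := W_bdd ∅ countable_empty
  exact ⟨b⟩

abbrev XX : Type := {u : Ultrafilter (W × W) // ∃ a : W, {p : W × W | p.1 ≤ a} ∈ u}

def BB (A : Set (W × W)) : Set XX := {u | A ∈ u.1}

def Sm (A : Set (W × W)) : Prop := ∃ a : W, A ⊆ {p | p.1 ≤ a}

def pu (p : W × W) : XX := ⟨pure p, p.1, by simp⟩

lemma pu_mem (p : W × W) (A : Set (W × W)) : pu p ∈ BB A ↔ p ∈ A := by
  simp [pu, BB]

lemma BB_clopen (A : Set (W × W)) : IsClopen (BB A) :=
  ⟨(ultrafilter_isClosed_basic A).preimage continuous_subtype_val,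
    (ultrafilter_isOpen_basic A).preimage continuous_subtype_val⟩

lemma BB_nhds (U : Set XX) (hU : IsOpen U) (x : XX) (hx : x ∈ U) :
    ∃ A, Sm A ∧ x ∈ BB A ∧ BB A ⊆ U := by
  obtain ⟨U', hU', rfl⟩ := isOpen_induced_iff.1 hU
  obtain ⟨_, ⟨s, rfl⟩, hs, hsU⟩ := ultrafilterBasis_is_basis.exists_subset_of_mem_open hx hU'
  obtain ⟨a, ha⟩ := x.2
  refine ⟨s ∩ {p | p.1 ≤ a}, ⟨a, inter_subset_right⟩, inter_mem hs ha, fun y hy => hsU ?_⟩
  exact mem_of_superset hy inter_subset_left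

lemma BB_compact (A : Set (W × W)) (hA : Sm A) : IsCompact (BB A) := by
  rw [Subtype.isCompact_iff]
  have : Subtype.val '' BB A = {u : Ultrafilter (W × W) | A ∈ u} := by
    ext u
    constructor
    · rintro ⟨x, hx, rfl⟩
      exact hx
    · intro hu
      obtain ⟨a, ha⟩ := hA
      exact ⟨⟨u, a, mem_of_superset hu ha⟩, hu, rfl⟩
  rw [this]
  exact (ultrafilter_isClosed_basic A).isCompact

lemma not_normal : ¬ NormalSpace XX := by
  intro hN
  let F : Set XX := ⋂ b : W, BB {p | b ≤ p.2}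
  let G : Set XX := ⋂ a : W, ((BB {p | p.1 ≤ a})ᶜ ∪ BB {p | p.2 ≤ a})
  have hF : IsClosed F := isClosed_iInter fun b => (BB_clopen _).1
  have hG : IsClosed G := isClosed_iInter fun a => ((BB_clopen _).compl.union (BB_clopen _)).1
  have hFG : Disjoint F G := by
    refine disjoint_left.2 fun x hxF hxG => ?_
    obtain ⟨a, ha⟩ := x.2
    obtain ⟨b, hb⟩ := W_bdd {a} (countable_singleton a)
    have h1 : {p : W × W | p.2 ≤ a} ∈ x.1 := (mem_iInter.1 hxG a).resolve_left fun h => h ha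
    have h2 : {p : W × W | b ≤ p.2} ∈ x.1 := mem_iInter.1 hxF b
    obtain ⟨p, hp1, hp2⟩ := x.1.nonempty_of_mem (inter_mem h1 h2)
    exact absurd (le_trans hp2 hp1) (not_le.2 (hb a rfl))
  obtain ⟨U, V, hU, hV, hFU, hGV, hUV⟩ := hN.normal F G hF hG hFG
  have tr : ∀ O : Set XX, IsOpen O → ∀ x ∈ O, {p | pu p ∈ O} ∈ x.1 := by
    intro O hO x hx
    obtain ⟨A, -, hA, hAO⟩ := BB_nhds O hO x hx
    exact mem_of_superset hA fun p hp => hAO ((pu_mem p A).2 hp)
  have h1 : ∀ a : W, ∃ c : W, ∀ b, c ≤ b → pu (a, b) ∈ U := by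
    intro a
    by_contra h
    push Not at h
    have hfr : ∃ᶠ b in (atTop : Filter W), pu (a, b) ∉ U := frequently_atTop.2 h
    have : (atTop ⊓ 𝓟 {b : W | pu (a, b) ∉ U}).NeBot := frequently_iff_neBot.1 hfr
    let v : Ultrafilter W := Ultrafilter.of (atTop ⊓ 𝓟 {b : W | pu (a, b) ∉ U})
    have hv := Ultrafilter.of_le (atTop ⊓ 𝓟 {b : W | pu (a, b) ∉ U})
    let x : XX := ⟨v.map fun b => (a, b), a, by
      rw [Ultrafilter.mem_map]; exact univ_mem' fun b => le_refl a⟩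
    have hx : x ∈ F := mem_iInter.2 fun b => by
      show _ ∈ v.map _
      rw [Ultrafilter.mem_map]
      exact hv (mem_inf_of_left (Ici_mem_atTop b))
    have h2 : {p | pu p ∈ U} ∈ v.map fun b => (a, b) := tr U hU x (hFU hx)
    rw [Ultrafilter.mem_map] at h2
    have h3 : {b : W | pu (a, b) ∉ U} ∈ v := hv (mem_inf_of_right (mem_principal_self _))
    obtain ⟨b, hb1, hb2⟩ := v.nonempty_of_mem (inter_mem h2 h3)
    exact hb2 hb1
  choose g hg using h1
  let al : ℕ → W := fun n => Nat.rec (Classical.arbitrary W) (fun _ a => max a (g a)) n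
  have hal : ∀ n, al (n + 1) = max (al n) (g (al n)) := fun n => rfl
  have hmono : Monotone al := monotone_nat_of_le_succ fun n => by rw [hal]; exact le_max_left _ _
  obtain ⟨c, hc⟩ := W_bdd (range al) (countable_range al)
  let x : XX := ⟨(hyperfilter ℕ).map fun n => (al n, al (n + 1)), c, by
    rw [Ultrafilter.mem_map]; exact univ_mem' fun n => (hc _ ⟨n, rfl⟩).le⟩
  have hx : x ∈ G := mem_iInter.2 fun a => by
    by_cases h : x ∈ BB {p | p.1 ≤ a}
    · right
      have h' : {p : W × W | p.1 ≤ a} ∈ (hyperfilter ℕ).map fun n => (al n, al (n + 1)) := h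
      rw [Ultrafilter.mem_map] at h'
      show _ ∈ (hyperfilter ℕ).map _
      rw [Ultrafilter.mem_map]
      refine univ_mem' fun n => ?_
      have h2 : Ici (n + 1) ∈ hyperfilter ℕ :=
        Nat.hyperfilter_le_atTop (Ici_mem_atTop (n + 1))
      obtain ⟨m, hm1, hm2⟩ := (hyperfilter ℕ).nonempty_of_mem (inter_mem h' h2)
      exact le_trans (hmono hm2) hm1
    · exact Or.inl h
  have h2 : {p | pu p ∈ V} ∈ (hyperfilter ℕ).map fun n => (al n, al (n + 1)) :=
    tr V hV x (hGV hx)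
  rw [Ultrafilter.mem_map] at h2
  obtain ⟨n, hn⟩ := (hyperfilter ℕ).nonempty_of_mem h2
  exact disjoint_left.1 hUV (hg (al n) (al (n + 1)) (by rw [hal]; exact le_max_right _ _)) hn

theorem result :
    ¬ (∀ (X : Type) [TopologicalSpace X] [CompletelyRegularSpace X] [T2Space X],
      (∃ 𝓑 : Set (Set X),
        TopologicalSpace.IsTopologicalBasis 𝓑 ∧
        (∀ b ∈ 𝓑, IsClopen b) ∧
        (∀ C D : Set (Set X), C ⊆ 𝓑 → D ⊆ 𝓑 → C.Countable →
          (∀ c ∈ C, ∀ d ∈ D, Disjoint c d) →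
          ∃ b ∈ 𝓑, (∀ c ∈ C, c ⊆ b) ∧ (∀ d ∈ D, Disjoint b d)) ∧
        @IsCompact X
          (TopologicalSpace.generateFrom {U : Set X | ∃ b ∈ 𝓑, U = (closure b)ᶜ})
          Set.univ) →
      NormalSpace X) := by
  intro h
  refine not_normal (h XX ⟨{b | ∃ A, Sm A ∧ b = BB A}, ?_, ?_, ?_, ?_⟩)
  · refine isTopologicalBasis_of_isOpen_of_nhds ?_ ?_
    · rintro _ ⟨A, -, rfl⟩
      exact (BB_clopen A).2
    · intro x U hx hU
      obtain ⟨A, hA, h1, h2⟩ := BB_nhds U hU x hx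
      exact ⟨_, ⟨A, hA, rfl⟩, h1, h2⟩
  · rintro _ ⟨A, -, rfl⟩
    exact BB_clopen A
  · intro C D hC hD hCc hCD
    have hC' : ∀ c ∈ C, ∃ A, Sm A ∧ c = BB A := fun c hc => hC hc
    choose! A hA hAe using hC'
    have hA' : ∀ c ∈ C, ∃ a : W, A c ⊆ {p | p.1 ≤ a} := hA
    choose! a ha using hA'
    obtain ⟨b, hb⟩ := W_bdd (a '' C) (hCc.image a)
    refine ⟨BB (⋃ c ∈ C, A c), ⟨_, ⟨b, ?_⟩, rfl⟩, fun c hc => ?_, fun d hd => ?_⟩
    · refine iUnion₂_subset fun c hc p hp => ?_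
      exact le_trans (ha c hc hp) (hb _ ⟨c, hc, rfl⟩).le
    · rw [hAe c hc]
      intro x hx
      exact mem_of_superset hx (subset_biUnion_of_mem (u := fun c => A c) hc)
    · obtain ⟨A', -, rfl⟩ := hD hd
      refine disjoint_left.2 fun x h1 h2 => ?_
      obtain ⟨p, hp1, hp2⟩ := x.1.nonempty_of_mem (inter_mem h1 h2)
      obtain ⟨c, hc, hp⟩ := mem_iUnion₂.1 hp1
      refine disjoint_left.1 (hCD c hc _ hd) (?_ : pu p ∈ c) ((pu_mem _ _).2 hp2)
      rw [hAe c hc]
      exact (pu_mem _ _).2 hp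
  · refine @isCompact_generateFrom XX (generateFrom _) _ rfl _ fun P hP hcov => ?_
    obtain ⟨U0, hU0, -⟩ := hcov (mem_univ (pu (Classical.arbitrary _)))
    obtain ⟨_, ⟨A, hA, rfl⟩, hU0e⟩ := hP hU0
    rw [(BB_clopen A).1.closure_eq] at hU0e
    have hop : ∀ U ∈ P, IsOpen U := by
      intro U hU
      obtain ⟨b, -, rfl⟩ := hP hU
      exact isClosed_closure.isOpen_compl
    obtain ⟨Q, hQ, hQf, hQc⟩ := (BB_compact A hA).elim_finite_subcover_image (b := P) (c := id) hop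
      (fun x _ => by
        obtain ⟨U, hU, hx⟩ := hcov (mem_univ x)
        exact mem_biUnion hU hx)
    refine ⟨insert U0 Q, insert_subset hU0 hQ, hQf.insert _, fun x _ => ?_⟩
    by_cases hx : x ∈ BB A
    · obtain ⟨U, hU, hxU⟩ := mem_iUnion₂.1 (hQc hx)
      exact ⟨U, Or.inr hU, hxU⟩
    · exact ⟨U0, Or.inl rfl, hU0e ▸ hx⟩

end Pool.Agent.S14068
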