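import Pool.Statements.S14078
import Pool.Agent.H.MP_dce2ef_gt.B

set_option autoImplicit false
open Pool Pool.MP_dce2ef_gt

namespace Pool.Agent.S14078

open Set Topology Filter Metric Function Pool.Agent.H.MP_dce2ef_gt

theorem result :
    ¬ (∀ (n : ℕ), 1 < n →
  ∀ (X : Type) [MetricSpace X] [CompactSpace X] [ConnectedSpace X] [LocallyConnectedSpace X],
    (∀ (k : ℕ) (U : Fin k → Set X), (∀ i, IsOpen (U i)) → (⋃ i, U i) = Set.univ →
      ∃ V : Fin k → Set X, (∀ i, IsOpen (V i)) ∧ (∀ i, V i ⊆ U i) ∧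
        (⋃ i, V i) = Set.univ ∧ ∀ x : X, {i | x ∈ V i}.ncard ≤ n + 1) →
    ¬ (∀ (k : ℕ) (U : Fin k → Set X), (∀ i, IsOpen (U i)) → (⋃ i, U i) = Set.univ →
      ∃ V : Fin k → Set X, (∀ i, IsOpen (V i)) ∧ (∀ i, V i ⊆ U i) ∧
        (⋃ i, V i) = Set.univ ∧ ∀ x : X, {i | x ∈ V i}.ncard ≤ n) →
    ∃ (m : ℕ → ℕ) (K : ∀ k : ℕ, Geometry.SimplicialComplex ℝ (EuclideanSpace ℝ (Fin (m k)))),
      (∀ k, (K k).faces.Finite) ∧
      (∀ k, ∀ s ∈ (K k).faces, s.card ≤ n + 1) ∧
      (∀ k, ∃ s ∈ (K k).faces, s.card = n + 1) ∧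
      ∃ (f : ∀ k : ℕ, (K (k + 1)).space → (K k).space),
        (∀ k, Continuous (f k)) ∧
        (∀ k, Function.Surjective (f k)) ∧
        (∀ k (y : (K k).space), IsConnected ((f k) ⁻¹' {y})) ∧
        Nonempty (X ≃ₜ {x : ∀ k : ℕ, (K k).space // ∀ k, f k (x (k + 1)) = x k})) := by
  intro H
  classical
  let S : Set (ℝ × ℝ) := Icc (-1, -1) (0, 0)
  have s0 : (0, 0) ∈ S := by simp [S]
  have := isCompact_iff_compactSpace.1 (gk.union (isCompact_Icc : IsCompact S))
  have := isConnected_iff_connectedSpace.1 (⟨⟨_, .inr s0⟩, gp.union _ (ge 0) s0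
    (convex_Icc _ _).isPreconnected⟩ : IsConnected (G ∪ S))
  have : LocallyConnectedSpace ↥(G ∪ S) := locallyConnectedSpace_iff_connected_subsets.2
    fun x U a => by
    obtain ⟨ε, e0, b⟩ := Metric.mem_nhds_iff.1 a
    obtain ⟨n, c⟩ := sm e0
    refine ⟨(↑) ⁻¹' ((⋃ _ : x.1 ∈ S, S ∩ ball x ε) ∪ ⋃ w ∈ {w : List (Fin 3) | w.length = n ∧
      x.1 ∈ h w '' G}, h w '' G), ?_, IsInducing.subtypeVal.isPreconnected_image.1 ?_,
      fun y d => b (d.elim (fun d => (mem_iUnion.1 d).2.2) fun d =>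
        (mem_iUnion₂.1 d).elim fun w ⟨u, v⟩ => c w u.1.ge _ u.2 v)⟩
    · filter_upwards [ball_mem_nhds x e0, continuous_subtype_val.continuousAt
        (IsOpen.mem_nhds (s := ((⋃ _ : x.1 ∉ S, S) ∪ ⋃ w ∈ {w : List (Fin 3) | w.length = n ∧
          x.1 ∉ h w '' G}, h w '' G)ᶜ) ((isClosed_iUnion_of_finite fun _ => isClosed_Icc).union
          (((List.finite_length_eq _ n).subset fun _ => And.left).isClosed_biUnion
            fun w _ => (gk.image (hc w)).isClosed)).isOpen_compl (by simp))] with y u v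
      rcases y.2 with d | d
      · obtain ⟨w, p, q⟩ := hn n _ d
        exact .inr (mem_biUnion ⟨p, not_not.1 fun r => v (.inr (mem_biUnion ⟨p, r⟩ q))⟩ q)
      · exact .inl (mem_iUnion.2 ⟨not_not.1 fun r => v (.inl (mem_iUnion.2 ⟨r, d⟩)), d, u⟩)
    rw [image_preimage_eq_of_subset (by
      rw [Subtype.range_coe]
      exact union_subset (iUnion_subset fun _ _ d => .inr d.1)
        (iUnion₂_subset fun w _ => (hG w).trans subset_union_left))]
    refine isPreconnected_of_forall x.1 fun y d => d.elim (fun d => ?_) fun d => ?_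
    · obtain ⟨u, v⟩ := mem_iUnion.1 d
      exact ⟨_, (subset_iUnion _ u).trans subset_union_left, ⟨u, mem_ball_self e0⟩, v,
        ((convex_Icc _ _).inter (convex_ball _ _)).isPreconnected⟩
    · obtain ⟨w, u, v⟩ := mem_iUnion₂.1 d
      exact ⟨_, (subset_biUnion_of_mem (u := fun w => h w '' G) u).trans subset_union_right, u.2, v,
        gp.image _ (hc w).continuousOn⟩
  obtain ⟨m, K, k, -, -, f, f1, -, f2, ⟨E⟩⟩ := H 2 one_lt_two ↥(G ∪ S) (fun k U o c => by
    let T : ℝ × ℝ → ↥(G ∪ S) → Fin 3 → ℝ := fun a x =>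
      ![x.1.1 + a.1 * x.1.2 + a.2, x.1.2 - a.1 * x.1.1 + a.2, √2]
    choose V v1 v2 v3 v4 using fun a => zd (Z := {x | ∀ i, Irrational (T a x i)})
      (T := fun x => T a x) (.of_comp (g := fun t => ((t 0 - a.2 - a.1 * (t 1 - a.2)) / (1 + a.1 ^ 2),
        (t 1 - a.2 + a.1 * (t 0 - a.2)) / (1 + a.1 ^ 2)))
        ((show Continuous (T a) by fun_prop).comp continuous_subtype_val) (by fun_prop) (by
          convert (IsInducing.subtypeVal.comp IsInducing.subtypeVal :
            IsInducing fun x : {x | ∀ i, Irrational (T a x i)} => x.1.1) using 1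
          ext x <;> simp [T] <;> field_simp <;> ring)) (fun y => y.2) U o c
    let a : Fin 3 → ℝ × ℝ := ![(0, 0), (1, 0), (0, √2)]
    refine ⟨fun i => ⋃ l, V (a l) i, fun i => isOpen_iUnion fun l => v1 _ i,
      fun i => iUnion_subset fun l => v2 _ i, eq_univ_of_forall fun x => ?_, fun x => ?_⟩
    · obtain ⟨l, b⟩ : ∃ l, ∀ i, Irrational (T (a l) x i) := by
        have r := irrational_sqrt_two
        by_cases u : Irrational x.1.1 <;> by_cases v : Irrational x.1.2
        · exact ⟨0, by simp [T, a, Fin.forall_fin_succ, *]⟩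
        · obtain ⟨q, v⟩ := not_not.1 v
          exact ⟨1, by simp [T, a, Fin.forall_fin_succ, ← v, u, r]⟩
        · obtain ⟨q, u⟩ := not_not.1 u
          exact ⟨1, by simp [T, a, Fin.forall_fin_succ, ← u, v, r]⟩
        · obtain ⟨q, v⟩ := not_not.1 v
          obtain ⟨p, u⟩ := not_not.1 u
          exact ⟨2, by simp [T, a, Fin.forall_fin_succ, ← u, ← v, r]⟩
      exact (v3 _ x b).elim fun i d => mem_iUnion.2 ⟨i, mem_iUnion.2 ⟨l, d⟩⟩
    · simp only [mem_iUnion]
      choose! l b using fun i (d : ∃ l, x ∈ V (a l) i) => d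
      simpa [ncard_univ] using ncard_le_ncard_of_injOn l (s := {i | ∃ l, x ∈ V (a l) i}) (t := univ)
        (fun _ _ => trivial) fun i u j v w => v4 _ x i j (b i u) (w ▸ b j v))
    fun D => Pool.Agent.H.MP_da03b0_gt.low (C := G ∪ S) (j := fun w => ((w.1 - 1) / 2, (w.2 - 1) / 2))
      (π := fun x => (2 * x.1 + 1, 2 * x.2 + 1)) (by fun_prop) (by fun_prop)
      (fun w => by ext <;> simp <;> ring) (fun w a => by
        obtain ⟨b, c⟩ := abs_le.1 ((norm_fst_le w).trans a)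
        obtain ⟨d, e⟩ := abs_le.1 ((norm_snd_le w).trans a)
        exact .inr ⟨⟨by linarith, by linarith⟩, by linarith, by linarith⟩) fun 𝒰 o c => by
      obtain ⟨V, v1, v2, v3, v4⟩ := D _ (fun i => (↑) ⁻¹' (𝒰.equivFin.symm i).1)
        (fun i => (o _ (𝒰.equivFin.symm i).2).preimage continuous_subtype_val)
        (eq_univ_of_forall fun x => (c x.2).elim fun U a =>
          mem_iUnion.2 ⟨𝒰.equivFin ⟨U, a.1⟩, by simpa using a.2⟩)
      choose W w1 w2 using fun i => isOpen_induced_iff.1 (v1 i)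
      refine ⟨Finset.univ.image W, Finset.forall_mem_image.2 fun i _ => ⟨w1 i, _,
        (𝒰.equivFin.symm i).2, fun x a => v2 i (a := ⟨x, a.2⟩) ((w2 i).le a.1)⟩, fun x a => ?_,
        fun x a => ((ncard_le_ncard (fun _ b => ?_)).trans (ncard_image_le (f := W))).trans
          (v4 ⟨x, a⟩)⟩
      · obtain ⟨i, b⟩ := mem_iUnion.1 (v3.ge (mem_univ ⟨x, a⟩))
        exact ⟨W i, by simp, (w2 i).ge b⟩
      · obtain ⟨i, -, rfl⟩ := Finset.mem_image.1 b.1
        exact ⟨i, (w2 i).le b.2, rfl⟩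
  have c : ∀ i (s : (K i).faces), IsCompact (convexHull ℝ (s.1 : Set (EuclideanSpace ℝ (Fin (m i))))) :=
    fun i s => s.1.finite_toSet.isCompact_convexHull ℝ
  have : ∀ i, CompactSpace (K i).space := fun i => isCompact_iff_compactSpace.1 ((k i).isCompact_biUnion
    fun s a => c i ⟨s, a⟩)
  have l := fun i y => lim (P := fun i => (K i).space) f1 f2 (E ⟨_, .inr s0⟩).1 i y
  refine absurd (congrArg (·.1.1) (E.injective (a₁ := ⟨_, .inl (ge 1)⟩) (a₂ := ⟨_, .inr s0⟩)
    (Subtype.ext (funext fun i => Subtype.ext ?_)))) (by simp [e])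
  have := (k i).to_subtype
  have q : ∀ x, IsPreconnected ((fun x => ((E x).1 i).1) ⁻¹' {((E x).1 i).1}) := fun x => by
    refine (IsInducing.subtypeVal.comp E.isInducing).isPreconnected_image.1 ?_
    convert (l i ((E x).1 i)).2 using 1
    exact subset_antisymm (image_subset_iff.2 fun y a => ⟨(E y).2, Subtype.ext a⟩) fun z a =>
      ⟨E.symm ⟨z, a.1⟩, by simp [a.2], by simp⟩
  obtain ⟨x, a, b⟩ := poly (fun s => ⟨(c i s).isClosed, convex_convexHull _ _⟩)
    (p := fun x => ((E x).1 i).1) (continuous_subtype_val.comp ((continuous_apply i).comp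
      (continuous_subtype_val.comp E.continuous))) (subset_antisymm (range_subset_iff.2 fun x => by
      simpa [Geometry.SimplicialComplex.space] using ((E x).1 i).2) fun y a => by
        obtain ⟨z, b, d⟩ := (l i ⟨y, by simpa [Geometry.SimplicialComplex.space] using a⟩).1
        exact ⟨E.symm ⟨z, b⟩, by simp [d]⟩) q .subtypeVal (fun x a => ⟨⟨x, .inl a⟩, rfl⟩)
    (isClosed_Icc.preimage continuous_subtype_val : IsClosed (Subtype.val ⁻¹' S)) ⟨⟨_, .inr s0⟩, s0⟩
    (fun x a => x.2.resolve_right a) ⟨⟨_, .inl (ge 1)⟩, rfl⟩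
  obtain ⟨y, u, v, w⟩ := isPreconnected_closed_iff.1 (q x) _ _ (g1.preimage continuous_subtype_val)
    (isClosed_Icc.preimage continuous_subtype_val : IsClosed (Subtype.val ⁻¹' S)) (fun y _ => y.2)
    ⟨_, b.symm, ge 1⟩ ⟨x, rfl, a⟩
  obtain ⟨g, d, -⟩ := g4 _ v
  obtain rfl : y = ⟨_, .inr s0⟩ := Subtype.ext (Prod.ext (w.2.1.antisymm g) (w.2.2.antisymm d))
  exact b.symm.trans u.symm

end Pool.Agent.S14078
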