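import Pool.Statements.S14091
import Pool.Agent.Lib.helper23.MinB

set_option autoImplicit false
open Pool Pool.MP_de131a_gt

namespace Pool.Agent.S14091

open Set Filter Topology Pool.Agent.Lib.helper23.MinA Pool.Agent.Lib.helper23.MinB
open Cardinal hiding univ

lemma t_le {G : Type} [CommGroup G] [TopologicalSpace G] [IsTopologicalGroup G]
    {𝓑 : Set (Set G)} (h : (𝓝 (1 : G)).HasBasis (fun s => s ∈ 𝓑) id) : Tt #𝓑 G := by
  intro A x hx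
  choose b b1 b2 using fun U : 𝓑 => mem_closure_iff_nhds.1 hx _
    (((continuous_div_right' x).tendsto' x 1 (div_self' x)) (h.mem_of_mem U.2))
  refine ⟨range b, range_subset_iff.2 b2, mk_range_le, mem_closure_iff_nhds.2 fun W hW => ?_⟩
  obtain ⟨U, u1, u2⟩ := h.mem_iff.1 (((continuous_mul_const x).tendsto' 1 x (one_mul x)) hW)
  exact ⟨b ⟨U, u1⟩, by simpa using u2 (b1 ⟨U, u1⟩), _, rfl⟩

theorem result :
    ∀ (G : Type) [CommGroup G] [τ : TopologicalSpace G] [IsTopologicalGroup G] [T2Space G],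
      (∃ U ∈ nhds (1 : G), ∀ σ : TopologicalSpace G,
          @IsTopologicalGroup G σ _ → @T2Space G σ → τ ≤ σ → U ∈ @nhds G σ 1 → σ = τ) →
      sInf {κ : Cardinal | ∀ A : Set G, ∀ x ∈ closure A,
              ∃ B ⊆ A, Cardinal.mk B ≤ κ ∧ x ∈ closure B}
        = sInf {κ : Cardinal | ∃ 𝓑 : Set (Set G),
              (nhds (1 : G)).HasBasis (fun s => s ∈ 𝓑) id ∧ Cardinal.mk 𝓑 = κ} := by
  rintro G _ _ _ _ ⟨U, u1, hU⟩
  have h1 : ∃ 𝓑 : Set (Set G), (nhds (1 : G)).HasBasis (fun s => s ∈ 𝓑) id ∧ #𝓑 = #(𝓝 (1 : G)).sets :=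
    ⟨_, (𝓝 1).basis_sets, rfl⟩
  obtain ⟨𝓑, b1, b2⟩ := csInf_mem (s := {κ : Cardinal | ∃ 𝓑 : Set (Set G),
    (nhds (1 : G)).HasBasis (fun s => s ∈ 𝓑) id ∧ #𝓑 = κ}) ⟨_, h1⟩
  refine le_antisymm (csInf_le' (b2 ▸ t_le b1)) (le_csInf ⟨_, t_le b1⟩ fun κ hκ => ?_)
  rcases le_or_gt ℵ₀ κ with h | h
  · obtain ⟨𝓒, c1, c2⟩ := loc h u1 hU hκ
    exact le_trans (b := #𝓒) (csInf_le' ⟨𝓒, c1, rfl⟩) c2
  · have : ({1} : Set G) ∈ 𝓝 1 := by
      by_contra hn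
      obtain ⟨B, a1, a2, a3⟩ := hκ {1}ᶜ 1 (by
        rwa [closure_compl, mem_compl_iff, mem_interior_iff_mem_nhds])
      rw [(lt_aleph0_iff_set_finite.1 (a2.trans_lt h)).isClosed.closure_eq] at a3
      exact a1 a3 rfl
    refine le_trans (b := #({{1}} : Set (Set G))) (csInf_le' ⟨{{1}}, ⟨fun W => ⟨fun hW => ⟨_, rfl, by simpa using mem_of_mem_nhds hW⟩,
      fun ⟨_, e, hW⟩ => mem_of_superset this (e ▸ hW)⟩⟩, rfl⟩) ?_
    obtain ⟨B, -, a2, a3⟩ := hκ univ 1 (subset_closure trivial)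
    rw [mk_singleton]
    exact (Cardinal.one_le_iff_ne_zero.2 (mk_ne_zero_iff.2 (closure_nonempty_iff.1 ⟨_, a3⟩).to_subtype)).trans a2

end Pool.Agent.S14091
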