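import Pool.Statements.S14094

set_option autoImplicit false
open Pool Pool.MP_de3f93_gt

namespace Pool.Agent.S14094

open Set Filter Topology

abbrev T := UnitAddCircle

lemma tor_mono {x : T} {k l : ℕ} (h : 2 ^ k • x = 0) (hl : k ≤ l) : 2 ^ l • x = 0 := by
  obtain ⟨d, rfl⟩ := Nat.exists_eq_add_of_le hl
  rw [pow_add, mul_nsmul, h, smul_zero]

def A : Subgroup (Multiplicative T) where
  carrier := {x | ∃ k : ℕ, 2 ^ k • x.toAdd = 0}
  one_mem' := ⟨0, by simp⟩
  mul_mem' := by
    rintro a b ⟨k, hk⟩ ⟨l, hl⟩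
    exact ⟨max k l, by
      rw [toAdd_mul, smul_add, tor_mono hk (le_max_left _ _), tor_mono hl (le_max_right _ _),
        add_zero]⟩
  inv_mem' := by
    rintro a ⟨k, hk⟩
    exact ⟨k, by rw [toAdd_inv, smul_neg, hk, neg_zero]⟩

def G : Type := A

noncomputable instance : CommGroup G := inferInstanceAs (CommGroup A)

noncomputable def vh : G →* Multiplicative T := A.subtype

noncomputable def val (g : G) : T := (vh g).toAdd

lemma val_inj : Function.Injective val := fun _ _ h => Subtype.ext h

lemma val_mul (a b : G) : val (a * b) = val a + val b := rfl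

lemma val_zpow (a : G) (c : ℤ) : val (a ^ c) = c • val a := by simp [val]

lemma val_tor (a : G) : ∃ k : ℕ, 2 ^ k • val a = 0 := a.2

lemma pw (k n : ℕ) : 2 ^ k • ((1 / 2 ^ n : ℝ) : T) = ((2 ^ k / 2 ^ n : ℝ) : T) := by
  rw [← AddCircle.coe_nsmul]
  congr 1
  simp [div_eq_mul_inv]

lemma pw0 (n : ℕ) : 2 ^ n • ((1 / 2 ^ n : ℝ) : T) = 0 := by
  rw [pw, div_self (by positivity)]
  exact AddCircle.coe_period 1

noncomputable def E (i : ℕ) : G :=
  (⟨Multiplicative.ofAdd ((1 / 2 ^ (i ^ 2 + 1) : ℝ) : T), i ^ 2 + 1, pw0 _⟩ : A)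

lemma val_E (i : ℕ) : val (E i) = ((1 / 2 ^ (i ^ 2 + 1) : ℝ) : T) := rfl

noncomputable def half : T := ((1 / 2 : ℝ) : T)

lemma half_ne : half ≠ 0 := by
  intro h
  have := (AddCircle.coe_eq_zero_iff_of_mem_Ico (p := (1 : ℝ)) (a := 1 / 2)
    ⟨by norm_num, by norm_num⟩).1 h
  norm_num at this

lemma pwh (i : ℕ) : 2 ^ (i ^ 2) • val (E i) = half := by
  rw [val_E, pw, half]
  congr 1
  rw [pow_succ (2 : ℝ)]
  field_simp

open Classical in
noncomputable def ch (J : Set ℕ) (g : G) : T := ∑ᶠ i, if i ∈ J then 2 ^ (i ^ 2) • val g else 0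

open Classical in
lemma ch_eq (J : Set ℕ) (g : G) {k N : ℕ} (hk : 2 ^ k • val g = 0) (hN : k ≤ N ^ 2) :
    ch J g = ∑ i ∈ Finset.range N, if i ∈ J then 2 ^ (i ^ 2) • val g else 0 := by
  refine finsum_eq_sum_of_support_subset _ fun i hi => ?_
  by_contra h
  have h1 : N ≤ i := by simpa using h
  exact hi (by simp [tor_mono hk (hN.trans (Nat.pow_le_pow_left h1 2))])

noncomputable def chh (J : Set ℕ) : G →* Multiplicative T :=
  MonoidHom.mk' (fun g => Multiplicative.ofAdd (ch J g)) fun a b => by
    obtain ⟨k, hk⟩ := val_tor a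
    obtain ⟨l, hl⟩ := val_tor b
    have h1 := tor_mono hk (le_max_left k l)
    have h2 := tor_mono hl (le_max_right k l)
    have h3 : 2 ^ max k l • val (a * b) = 0 := by rw [val_mul, smul_add, h1, h2, add_zero]
    have h4 : max k l ≤ max k l ^ 2 := Nat.le_self_pow (by norm_num) _
    rw [← ofAdd_add, ch_eq J _ h1 h4, ch_eq J _ h2 h4, ch_eq J _ h3 h4, ← Finset.sum_add_distrib]
    congr 1
    refine Finset.sum_congr rfl fun i _ => ?_
    split_ifs <;> simp [val_mul]

open Classical in
lemma ch_E (J : Set ℕ) :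
    Tendsto (fun i => ch J (E i) - if i ∈ J then half else 0) atTop (𝓝 0) := by
  have h1 : Tendsto (fun i : ℕ => ∑ l ∈ Finset.range i,
      if l ∈ J then (2 ^ (l ^ 2) / 2 ^ (i ^ 2 + 1) : ℝ) else 0) atTop (𝓝 0) := by
    refine squeeze_zero (fun i => Finset.sum_nonneg fun l _ => by positivity) (fun i => ?_)
      (tendsto_self_mul_const_pow_of_lt_one (r := (1 / 2 : ℝ)) (by norm_num) (by norm_num))
    refine (Finset.sum_le_card_nsmul _ _ ((1 / 2 : ℝ) ^ i) fun l hl => ?_).trans (by simp)
    split_ifs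
    · rw [one_div, inv_pow, ← one_div, div_le_div_iff₀ (by positivity) (by positivity), one_mul,
        ← pow_add]
      have := Finset.mem_range.1 hl
      exact pow_le_pow_right₀ (by norm_num) (by nlinarith)
    · positivity
  have h2 := ((AddCircle.continuous_mk' (1 : ℝ)).tendsto 0).comp h1
  rw [map_zero] at h2
  refine h2.congr fun i => ?_
  rw [ch_eq J (E i) (N := i + 1) (pw0 _) (by nlinarith [Nat.zero_le i]), Finset.sum_range_succ, pwh,
    add_sub_cancel_right, Function.comp_apply, map_sum]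
  refine Finset.sum_congr rfl fun l _ => ?_
  split_ifs
  · rw [val_E, pw]; rfl
  · simp

def SS : Set (ℕ → ℕ) := {s | (∃ n, s = fun m => 2 * Nat.pair n m + 1) ∨
  ∃ a b : ℕ → ℕ, Tendsto a atTop atTop ∧ s = fun j => 2 * Nat.pair (a j) (b j)}

lemma SS_top {s : ℕ → ℕ} (hs : s ∈ SS) : Tendsto s atTop atTop := by
  rcases hs with ⟨n, rfl⟩ | ⟨a, b, ha, rfl⟩
  · exact tendsto_atTop_mono (fun m => by have := Nat.right_le_pair n m; simp; omega) tendsto_id
  · exact tendsto_atTop_mono (fun m => by have := Nat.left_le_pair (a m) (b m); omega) ha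

noncomputable def τ : GroupTopology G := sInf {t : GroupTopology G |
  ∀ s ∈ SS, Tendsto (fun j => E (s j)) atTop (@nhds _ t.toTopologicalSpace 1)}

noncomputable instance : TopologicalSpace G := τ.toTopologicalSpace

instance : IsTopologicalGroup G := τ.toIsTopologicalGroup

lemma tend {s : ℕ → ℕ} (hs : s ∈ SS) : Tendsto (fun j => E (s j)) atTop (𝓝 1) := by
  change Tendsto _ _ (@nhds _ τ.toTopologicalSpace 1)
  rw [τ, GroupTopology.toTopologicalSpace_sInf, nhds_sInf, tendsto_iInf]
  intro t
  rw [tendsto_iInf]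
  rintro ⟨t, ht, rfl⟩
  exact ht s hs

lemma cont {H : Type} [Group H] [TopologicalSpace H] [IsTopologicalGroup H] (f : G →* H)
    (hf : ∀ s ∈ SS, Tendsto (fun j => f (E (s j))) atTop (𝓝 1)) : Continuous f := by
  rw [continuous_iff_le_induced]
  refine GroupTopology.toTopologicalSpace_le.2 (sInf_le (a :=
    @GroupTopology.mk G _ (TopologicalSpace.induced f inferInstance) (topologicalGroup_induced f))
    fun s hs => ?_)
  change Tendsto _ _ (@nhds _ (TopologicalSpace.induced f inferInstance) 1)
  rw [nhds_induced, tendsto_comap_iff, map_one]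
  exact hf s hs

instance : T2Space G := by
  refine .of_injective_continuous (f := vh) Subtype.val_injective (cont _ fun s hs => ?_)
  have h1 : Tendsto (fun i : ℕ => (1 / 2 ^ (i ^ 2 + 1) : ℝ)) atTop (𝓝 0) := by
    refine tendsto_const_nhds.div_atTop ((tendsto_pow_atTop_atTop_of_one_lt one_lt_two).comp ?_)
    exact tendsto_atTop_mono (fun m => by simp; nlinarith) tendsto_id
  exact (((AddCircle.continuous_mk' (1 : ℝ)).tendsto 0).comp h1).comp (SS_top hs)

lemma sgrp (H : Type) [Group H] [TopologicalSpace H] [IsTopologicalGroup H] (f : G →* H)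
    (hf : SeqContinuous f) : Continuous f :=
  cont f fun s hs => by simpa [Function.comp_def] using hf (tend hs)

lemma ch_cont (J : Set ℕ) (hJ : ∀ s ∈ SS, ∀ᶠ j in atTop, s j ∉ J) : Continuous (ch J) :=
  cont (chh J) fun s hs => ((ch_E J).comp (SS_top hs)).congr' ((hJ s hs).mono fun j hj => by
    simp [hj]; rfl)

lemma fin_tor (k : ℕ) : {g : G | 2 ^ k • val g = 0}.Finite :=
  (AddCircle.finite_torsion (1 : ℝ) (n := 2 ^ k) (by positivity)).preimage val_inj.injOn

instance : Countable G := by
  rw [← countable_univ_iff]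
  exact (countable_iUnion fun k => (fin_tor k).countable).mono fun g _ => mem_iUnion.2 (val_tor g)

lemma sub_top (K : Subgroup G) (hK : (K : Set G).Infinite) : K = ⊤ := by
  refine eq_top_iff.2 fun y _ => ?_
  obtain ⟨k, hk⟩ := val_tor y
  obtain ⟨x, hx, hn⟩ := hK.exists_notMem_finite (fin_tor k)
  obtain ⟨l, hl⟩ := val_tor x
  obtain ⟨j, -, hj⟩ := (Nat.dvd_prime_pow Nat.prime_two).1 (addOrderOf_dvd_of_nsmul_eq_zero hl)
  have hkj : k ≤ j := by
    by_contra h
    exact hn (tor_mono (hj ▸ addOrderOf_nsmul_eq_zero _) (not_le.1 h).le)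
  obtain ⟨m, -, hm, e⟩ := (AddCircle.addOrderOf_eq_pos_iff (by positivity)).1 hj
  obtain ⟨m', -, e'⟩ := (AddCircle.nsmul_eq_zero_iff (by positivity)).1 (tor_mono hk hkj)
  obtain ⟨a, b, hab⟩ := Nat.isCoprime_iff_coprime.2 hm
  have : y = x ^ (m' * a : ℤ) := val_inj (by
    rw [val_zpow, ← e, ← e', ← AddCircle.coe_zsmul, ← sub_eq_zero, ← AddCircle.coe_sub,
      AddCircle.coe_eq_zero_iff]
    refine ⟨m' * b, ?_⟩
    have : (a : ℝ) * m + b * (2 ^ j : ℕ) = 1 := by exact_mod_cast hab
    simp only [zsmul_eq_mul, Int.cast_mul, Int.cast_natCast]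
    field_simp
    linear_combination (m' : ℝ) * this)
  exact this ▸ K.zpow_mem hx _

lemma not_seq : ¬ SequentialSpace G := by
  classical
  intro H
  have hc : IsClosed (range fun q => E (2 * q) * E (2 * q + 1)) := by
    refine IsSeqClosed.isClosed fun x p hx hp => ?_
    choose q hq using hx
    by_cases hf : (range q).Finite
    · exact image_subset_range _ _ ((hf.image fun q => E (2 * q) * E (2 * q + 1)).isClosed.mem_of_tendsto
        hp (Eventually.of_forall fun j => ⟨q j, ⟨j, rfl⟩, hq j⟩))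
    exfalso
    have key (I : Set ℕ) (hI : I.Infinite) (hq' : I ⊆ range q) (J : Set ℕ)
        (hJ : ∀ s ∈ SS, ∀ᶠ j in atTop, s j ∉ J) (c : T)
        (hc : ∀ i ∈ I, ((if 2 * i ∈ J then half else 0) + if 2 * i + 1 ∈ J then half else 0) = c) :
        ch J p = c := by
      have this (N : ℕ) : ∃ j, N ≤ j ∧ N ≤ q j ∧ q j ∈ I := by
        obtain ⟨i, hi, hn⟩ := hI.exists_notMem_finite ((finite_Iio N).union ((finite_Iio N).image q))
        obtain ⟨j, rfl⟩ := hq' hi
        refine ⟨j, ?_, ?_, hi⟩ <;> by_contra h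
        · exact hn (Or.inr ⟨j, not_le.1 h, rfl⟩)
        · exact hn (Or.inl (not_le.1 h))
      choose φ h1 h2 h3 using this
      have t1 : Tendsto (fun N => 2 * q (φ N)) atTop atTop :=
        tendsto_atTop_mono (fun N => by have := h2 N; simp; omega) tendsto_id
      have t2 : Tendsto (fun N => 2 * q (φ N) + 1) atTop atTop :=
        tendsto_atTop_mono (fun N => by omega) t1
      have t3 := (((ch_E J).comp t1).add ((ch_E J).comp t2)).add_const c
      refine tendsto_nhds_unique ((((ch_cont J hJ).tendsto p).comp hp).comp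
        (tendsto_atTop_mono h1 tendsto_id)) ?_
      simp only [zero_add] at t3
      refine t3.congr fun N => ?_
      have := congrArg Multiplicative.toAdd ((chh J).map_mul (E (2 * q (φ N))) (E (2 * q (φ N) + 1)))
      simp only [Function.comp_apply, ← hq, ← hc _ (h3 N)]
      refine Eq.trans ?_ this.symm
      change _ = ch J _ + ch J _
      abel
    have fin (Q : Set ℕ) (hQ : Q.Infinite) (hq' : Q ⊆ range q) (r : ℕ) (hr : r < 2)
        (hJ : ∀ s ∈ SS, ∀ᶠ j in atTop, s j ∉ (fun i => 2 * i + r) '' Q) : False := by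
      let w := hQ.natEmbedding
      have hi (c : ℕ) : Function.Injective fun n => (w (2 * n + c)).1 := fun a b h => by
        have := w.injective (Subtype.ext h); omega
      have hs (c : ℕ) : (range fun n => (w (2 * n + c)).1) ⊆ Q := by
        rintro _ ⟨n, rfl⟩; exact (w _).2
      have hJ' : ∀ s ∈ SS, ∀ᶠ j in atTop, s j ∉ (fun i => 2 * i + r) ''
          range fun n => (w (2 * n + 0)).1 :=
        fun s h => (hJ s h).mono fun j hj h' => hj (image_mono (hs 0) h')
      have e1 := key _ (infinite_range_of_injective (hi 0)) ((hs 0).trans hq') _ hJ' half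
        fun i hi => by
          obtain rfl | rfl : r = 0 ∨ r = 1 := by omega
          · rw [if_pos ⟨i, hi, rfl⟩, if_neg, add_zero]
            rintro ⟨a, -, e⟩; simp at e; omega
          · rw [if_neg, if_pos ⟨i, hi, rfl⟩, zero_add]
            rintro ⟨a, -, e⟩; simp at e; omega
      have e2 := key _ (infinite_range_of_injective (hi 1)) ((hs 1).trans hq') _ hJ' 0
        fun i hi => by
          have : i ∉ range fun n => (w (2 * n + 0)).1 := by
            obtain ⟨a, rfl⟩ := hi
            rintro ⟨b, e⟩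
            have := w.injective (Subtype.ext e); omega
          rw [if_neg, if_neg, add_zero] <;>
          · rintro ⟨a, ha, e⟩
            obtain rfl : a = i := by simp at e; omega
            exact this ha
      exact half_ne (e1.symm.trans e2)
    by_cases hn : ∃ n, {i ∈ range q | i.unpair.1 = n}.Infinite
    · obtain ⟨n, hn⟩ := hn
      refine fin _ hn (fun _ h => h.1) 0 (by norm_num) ?_
      rintro _ (⟨k, rfl⟩ | ⟨a, b, ha, rfl⟩)
      · refine Eventually.of_forall fun j => ?_
        rintro ⟨a, -, e⟩; simp at e; omega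
      · refine (ha.eventually_gt_atTop n).mono fun j hj => ?_
        rintro ⟨i, hi, e⟩
        obtain rfl : i = Nat.pair (a j) (b j) := by simp at e; omega
        have := hi.2
        simp at this; omega
    · push Not at hn
      refine fin _ hf subset_rfl 1 (by norm_num) ?_
      rintro _ (⟨k, rfl⟩ | ⟨a, b, ha, rfl⟩)
      · obtain ⟨B, hB⟩ := (hn k).bddAbove
        refine (eventually_gt_atTop B).mono fun j hj => ?_
        rintro ⟨i, hi, e⟩
        obtain rfl : i = Nat.pair k j := by simp at e; omega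
        have := hB ⟨hi, by simp⟩
        have := Nat.right_le_pair k j
        omega
      · refine Eventually.of_forall fun j => ?_
        rintro ⟨a, -, e⟩; simp at e; omega
  have h1 : (1 : G) ∉ range fun q => E (2 * q) * E (2 * q + 1) := by
    rintro ⟨q, e⟩
    have := congrArg (fun g => 2 ^ ((2 * q + 1) ^ 2) • val g) e
    simp only [val_mul, smul_add, pwh] at this
    rw [val_E, tor_mono (pw0 _) (by nlinarith [Nat.zero_le q]), zero_add] at this
    exact half_ne (this.trans (smul_zero _))
  obtain ⟨V, hV, hV'⟩ := exists_nhds_one_split (hc.isOpen_compl.mem_nhds h1)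
  have : ∃ n, ∀ m, E (2 * Nat.pair n m) ∈ V := by
    by_contra h
    push Not at h
    choose b hb using h
    obtain ⟨j, hj⟩ := ((tend (Or.inr ⟨id, b, tendsto_id, rfl⟩)).eventually hV).exists
    exact hb j hj
  obtain ⟨n, hn⟩ := this
  obtain ⟨m, hm⟩ := ((tend (Or.inl ⟨n, rfl⟩)).eventually hV).exists
  exact hV' _ (hn m) _ hm ⟨_, rfl⟩

theorem result :
    ¬ (∀ (G : Type) [Group G] [TopologicalSpace G] [IsTopologicalGroup G] [T2Space G],
      (∀ (H : Type) [Group H] [TopologicalSpace H] [IsTopologicalGroup H] [T2Space H]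
          (f : G →* H), SeqContinuous (f : G → H) → Continuous (f : G → H)) →
      (∀ (A : Set G), ∀ x ∈ closure A, ∃ B : Set G, B ⊆ A ∧ B.Countable ∧ x ∈ closure B) →
      (∀ K : Subgroup G, IsClosed (K : Set G) →
        ∀ (H : Type) [Group H] [TopologicalSpace H] [IsTopologicalGroup H] [T2Space H]
          (f : K →* H), SeqContinuous (f : K → H) → Continuous (f : K → H)) →
      SequentialSpace G) := by
  intro H
  refine not_seq (H G (fun H _ _ _ _ f hf => sgrp H f hf)
    (fun A x hx => ⟨A, subset_rfl, A.to_countable, hx⟩) fun K _ H _ _ _ _ f hf => ?_)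
  by_cases hK : (K : Set G).Finite
  · haveI : Finite K := hK
    exact continuous_of_discreteTopology
  · obtain rfl := sub_top K hK
    have hc : Continuous (Subgroup.topEquiv (G := G)).symm := continuous_id.subtype_mk _
    exact (sgrp H (f.comp (Subgroup.topEquiv (G := G)).symm.toMonoidHom)
      fun x p hp => hf ((hc.tendsto p).comp hp)).comp continuous_subtype_val

end Pool.Agent.S14094
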