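import Pool.Statements.S14120

set_option autoImplicit false
open Pool Pool.MP_e1ef08_gt

namespace Pool.Agent.S14120

open Set Topology Filter Metric Function

theorem flow {K X : Type} [TopologicalSpace K] [CompactSpace K] [T2Space K] [MetricSpace X]
    {q : K → X} (hq : Continuous q) (sq : Surjective q) {Φ : ℝ → K → K}
    (hΦ : Continuous fun p : K × ℝ => Φ p.2 p.1) (h0 : ∀ k, Φ 0 k = k)
    (ha : ∀ s t k, Φ (s + t) k = Φ s (Φ t k)) {S : Set K} (hS : ∀ t, ∀ k ∈ S, Φ t k ∈ S)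
    (hn : ∀ k, ∃ l ∈ S, ∀ t, q (Φ t l) = q (Φ t k))
    (hc : ∀ k ∈ S, ∀ l ∈ S, q k = q l → ∀ t, 0 ≤ t → q (Φ t k) = q (Φ t l))
    (hp : ∀ k ∈ S, ∀ t ∈ Ioc (0 : ℝ) 1, q (Φ t k) ≠ q k)
    (hf : ∀ k ∈ S, IsPreconnected {l ∈ S | q l = q k}) (A : Set X) (hA : IsClosed A)
    (n : A.Nonempty) : ∃ f : X → X, Continuous f ∧ Surjective f ∧
      (∀ y, IsConnected (f ⁻¹' {y})) ∧ ∀ x, f x = x ↔ x ∈ A := by
  have sS : ∀ x, ∃ k ∈ S, q k = x := fun x => by
    obtain ⟨k, rfl⟩ := sq x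
    obtain ⟨l, a, b⟩ := hn k
    exact ⟨l, a, by simpa [h0] using b 0⟩
  have c : ∀ k l, q k = q l → ∀ t, 0 ≤ t → q (Φ t k) = q (Φ t l) := fun k l e t h => by
    obtain ⟨k', a, b⟩ := hn k
    obtain ⟨l', a', b'⟩ := hn l
    rw [← b, ← b', hc k' a l' a' (by simpa [h0, ← e] using (b 0).trans (by
      simpa [h0, ← e] using (b' 0).symm)) t h]
  let G : K → ℝ → ℝ := fun k u => u / 2 + min 1 (infDist (q (Φ u k)) A)
  have g : Continuous ↿G := (continuous_snd.div_const _).add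
    (continuous_const.min ((continuous_infDist_pt A).comp (hq.comp hΦ)))
  obtain ⟨τ, tc, t1, t2, t3⟩ : ∃ τ : K → ℝ, Continuous τ ∧ (∀ k, ∃ u ∈ Icc (0 : ℝ) 2, τ k = G k u) ∧
      (∀ k, ∀ u ∈ Icc (0 : ℝ) 2, τ k ≤ G k u) ∧ ∀ k l, q k = q l → τ k = τ l :=
    ⟨_, isCompact_Icc.continuous_sInf g, fun k => isCompact_Icc.exists_sInf_image_eq
      (nonempty_Icc.2 zero_le_two) (g.comp (.prodMk_right k)).continuousOn, fun k u h => csInf_le
      (isCompact_Icc.image (g.comp (.prodMk_right k))).bddBelow ⟨u, h, rfl⟩, fun k l e => by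
      rw [image_congr (g := G l) fun u h => by simp only [G, c k l e u h.1]]⟩
  have m : ∀ x, 0 ≤ min 1 (infDist x A) := fun x => le_min zero_le_one infDist_nonneg
  have t4 : ∀ k, τ k ≤ min 1 (infDist (q k) A) := fun k => by
    simpa [G, h0] using t2 k 0 (by simp)
  have t5 : ∀ k, 0 ≤ τ k := fun k => by
    obtain ⟨u, a, b⟩ := t1 k
    exact b ▸ add_nonneg (by linarith [a.1]) (m _)
  have t6 : ∀ k, StrictMono fun s => s + τ (Φ s k) := fun k s t h => by
    obtain ⟨u, a, b⟩ := t1 (Φ t k)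
    simp only [G, ← ha] at b ⊢
    by_cases d : u + (t - s) ≤ 2
    · have := t2 (Φ s k) _ ⟨by linarith [a.1], d⟩
      simp only [G, ← ha, add_assoc, sub_add_cancel] at this
      linarith
    · linarith [(t4 (Φ s k)).trans (min_le_left _ _), m (q (Φ (u + t) k))]
  have hF : IsHomeomorph fun k => Φ (τ k) k := isHomeomorph_iff_continuous_bijective.2
    ⟨hΦ.comp (continuous_id.prodMk tc), fun k l (e : Φ _ _ = Φ _ _) => by
      have a : Φ (-τ l + τ k) k = l := by rw [ha, e, ← ha, neg_add_cancel, h0]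
      rw [← a, (t6 k).injective (a₁ := -τ l + τ k) (a₂ := 0) (by simp [a, h0]), h0], fun k => by
      obtain ⟨s, -, a⟩ := intermediate_value_Icc (f := fun s => s + τ (Φ s k)) (a := -1) (b := 0)
        (by norm_num) (continuous_id.add (tc.comp (hΦ.comp (.prodMk_right k)))).continuousOn
        ⟨show _ ≤ (0 : ℝ) by linarith [(t4 (Φ (-1) k)).trans (min_le_left _ _)],
          by linarith [t5 (Φ 0 k)]⟩
      exact ⟨Φ s k, by simp only [← ha, add_comm _ s, a, h0]⟩⟩
  obtain ⟨f, e⟩ : ∃ f : X → X, ∀ k, f (q k) = q (Φ (τ k) k) :=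
    ⟨fun x => q (Φ (τ (surjInv sq x)) (surjInv sq x)), fun k => by
      simp only
      rw [t3 _ k (surjInv_eq sq _), c _ k (surjInv_eq sq _) _ (t5 k)]⟩
  have sf : Surjective f := fun y => by
    obtain ⟨k, rfl⟩ := sq y
    obtain ⟨l, rfl⟩ := hF.surjective k
    exact ⟨_, e l⟩
  refine ⟨f, (hq.isClosedMap.isQuotientMap hq sq).continuous_iff.2
    ((hq.comp hF.continuous).congr fun k => (e k).symm), sf, fun y => ⟨sf y, ?_⟩, fun x => ?_⟩
  · obtain ⟨k, a, rfl⟩ := sS y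
    convert ((hF.homeomorph.isPreconnected_preimage).2 (hf k a)).image q hq.continuousOn
    refine subset_antisymm (fun x h => ?_) (image_subset_iff.2 fun l h => (e l).trans h.2)
    obtain ⟨l, b, rfl⟩ := sS x
    exact ⟨l, ⟨hS _ l b, (e l).symm.trans h⟩, rfl⟩
  · obtain ⟨k, a, rfl⟩ := sS x
    rw [e, hA.mem_iff_infDist_zero n]
    refine ⟨fun h => ?_, fun h => by rw [(t5 k).antisymm' (by simpa [h] using t4 k), h0]⟩
    have d : τ k = 0 := (t5 k).antisymm' (not_lt.1 fun d =>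
      hp k a _ ⟨d, (t4 k).trans (min_le_left _ _)⟩ h)
    obtain ⟨u, b, w⟩ := t1 k
    obtain rfl : u = 0 := by linarith [b.1, m (q (Φ u k)), show τ k = u / 2 + _ from w]
    simp [G, h0, d, min_eq_iff, eq_comm (a := (0 : ℝ))] at w
    exact w.1

noncomputable def ι : EReal ≃o unitInterval :=
  ENNReal.logOrderIso.symm.trans ENNReal.orderIsoUnitIntervalBirational

noncomputable def a (s : EReal) : ℝ := 2 * ι s - 1

noncomputable def Q (k : EReal × Circle × Circle) : ℂ × ℝ :=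
  (max (-a k.1) 0 • (k.2.1 : ℂ) + max (a k.1) 0 • (k.2.2 : ℂ), min (max (a k.1) 0) (1 - a k.1))

def K : Set (EReal × Circle × Circle) := {k | ∀ r : ℝ, k.1 = r → k.2.2 = Circle.exp r}

theorem am : StrictMono a := fun s t h => by
  have : (ι s : ℝ) < ι t := ι.strictMono h
  unfold a; linarith

theorem ab : a ⊥ = -1 ∧ a ⊤ = 1 := by
  simp [a, show (⊥ : unitInterval) = 0 from rfl, show (⊤ : unitInterval) = 1 from rfl]
  norm_num

theorem ac : Continuous a :=
  (continuous_const.mul (continuous_subtype_val.comp ι.continuous)).sub continuous_const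

theorem qc : Continuous Q := by
  have := ac
  unfold Q; fun_prop

theorem nrm (k) : ‖(Q k).1‖ = |a k.1| := by
  rcases le_total (a k.1) 0 with h | h <;> simp [Q, h, norm_smul]

theorem inv {k l} (e : Q k = Q l) (hk : k.1 ≠ ⊤) (hl : l.1 ≠ ⊤) :
    k.1 = l.1 ∧ (a k.1 < 0 → k.2.1 = l.2.1) := by
  have u := ab.2 ▸ am hk.lt_top
  have v := ab.2 ▸ am hl.lt_top
  have x := nrm k
  rw [e, nrm] at x
  have y : min (max _ _) _ = min (max _ _) _ := congrArg Prod.snd e
  have : a k.1 = a l.1 := by grind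
  refine ⟨am.injective this, fun h => Circle.ext (smul_right_injective ℂ h.ne ?_)⟩
  simpa [Q, ← this, h.le] using congrArg Prod.fst e

noncomputable def Φ (t : ℝ) (k : EReal × Circle × Circle) : EReal × Circle × Circle :=
  (k.1 + t, k.2.1 * Circle.exp t, k.2.2 * Circle.exp t)

theorem eqv {k l} (hk : k ∈ K) (hl : l ∈ K) (u : k.1 ≠ ⊤) (e : k.1 = l.1)
    (h : a k.1 < 0 → k.2.1 = l.2.1) (t : ℝ) (ht : 0 ≤ t) : Q (Φ t k) = Q (Φ t l) := by
  obtain ⟨s, w, v⟩ := k
  obtain ⟨_, x, y⟩ := l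
  cases e
  induction s with
  | bot => simp [Q, Φ, ab.1, show w = x from h (by simp [ab.1])]
  | top => simp at u
  | coe r =>
    obtain rfl : v = y := (hk r rfl).trans (hl r rfl).symm
    rcases lt_or_ge (a r) 0 with d | d
    · rw [show w = x from h d]
    · simp [Q, Φ, d.trans (am.monotone (le_add_of_nonneg_right (EReal.coe_nonneg.2 ht)))]

theorem mk (s : EReal) (w) : (s, w, Circle.exp s.toReal) ∈ K := fun r (h : s = r) => by simp [h]

theorem eqv0 {k l} (hk : k ∈ K) (hl : l ∈ K) (u : k.1 ≠ ⊤) (e : k.1 = l.1)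
    (h : a k.1 < 0 → k.2.1 = l.2.1) : Q k = Q l := by
  simpa [Φ] using eqv hk hl u e h 0 le_rfl

theorem pt {r : ℝ} (h : |r| < 1) : ∃ k ∈ K, k.1 ≠ ⊤ ∧ k.1 ≠ ⊥ ∧ a k.1 = r := by
  have := abs_lt.1 h
  have e : a (ι.symm ⟨(r + 1) / 2, by constructor <;> linarith⟩) = r := by simp [a]; ring
  refine ⟨_, mk _ 1, fun h => ?_, fun h => ?_, e⟩ <;> rw [show ι.symm _ = _ from h] at e <;> linarith [ab.1, ab.2]

theorem arc {k l} (hk : k ∈ K) (hl : l ∈ K) (u : k.1 ≠ ⊤) (v : l.1 ≠ ⊤) :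
    ∃ γ : unitInterval → Q '' K, Continuous γ ∧ (γ 0).1 = Q k ∧ (γ 1).1 = Q l ∧
      (Q k ≠ Q l → Injective γ) ∧ ∀ t, ∃ m ∈ K, m.1 ≠ ⊤ ∧ (γ t).1 = Q m ∧
        a m.1 = (1 - t) * a k.1 + t * a l.1 := by
  let s := fun t => ι.symm (Icc.convexComb (ι k.1) (ι l.1) t)
  have sc : Continuous s := ι.symm.continuous.comp (Icc.continuous_convexComb _ _)
  have sa : ∀ t, a (s t) = (1 - t) * a k.1 + t * a l.1 := fun t => by simp [s, a]; ring
  have st : ∀ t, s t ≠ ⊤ := fun t h => by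
    have := sa t
    rw [h, ab.2] at this
    have x := ab.2 ▸ am u.lt_top
    have y := ab.2 ▸ am v.lt_top
    rcases t.2.1.eq_or_lt with d | d
    · rw [← d] at this; linarith
    · nlinarith [t.2.2]
  obtain ⟨z, z1, z2, za⟩ : ∃ z, z ≠ ⊤ ∧ z ≠ ⊥ ∧ a z = 0 :=
    (pt (r := 0) (by simp)).elim fun z h => ⟨_, h.2⟩
  have q : ∀ m ∈ K, m.1 ≠ ⊤ → ∀ w,
      Q (m.1, w, Circle.exp (max m.1 z).toReal) = Q (m.1, w, m.2.2) := fun m h d w => by
    rcases le_total m.1 z with x | x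
    · simp [Q, za ▸ am.monotone x]
    · rw [max_eq_left x, h _ (EReal.coe_toReal d (ne_bot_of_le_ne_bot z2 x)).symm]
  have r : ∀ t, Q (s t, Circle.path k.2.1 l.2.1 t, Circle.exp (max (s t) z).toReal) =
      Q (s t, Circle.path k.2.1 l.2.1 t, Circle.exp (s t).toReal) :=
    fun t => q _ (mk _ 1) (st t) _
  refine ⟨fun t => ⟨Q (s t, Circle.path k.2.1 l.2.1 t, Circle.exp (max (s t) z).toReal),
    _, mk _ _, (r t).symm⟩, .subtype_mk (qc.comp (sc.prodMk
      ((Path.continuous _).prodMk (Circle.exp.continuous.comp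
        (EReal.continuousOn_toReal.comp_continuous (sc.max continuous_const) fun t => ?_))))) _,
    by simpa [s] using q k hk u _, by simpa [s] using q l hl v _, fun d x y e => ?_,
    fun t => ⟨_, mk _ _, st t, r t, sa t⟩⟩
  · exact fun h => h.elim (ne_bot_of_le_ne_bot z2 le_sup_right)
      (max_lt (st t).lt_top z1.lt_top).ne
  · obtain ⟨b, c⟩ := inv (congrArg Subtype.val e) (st x) (st y)
    have b' := (sa x).symm.trans ((congrArg a b).trans (sa y))
    by_cases h : a k.1 = a l.1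
    · by_cases w : a k.1 < 0
      · exact Circle.path_injective_of_ne (fun h' => d (eqv0 hk hl u (am.injective h) fun _ => h'))
          (c ((sa x).trans_lt (by rw [← h]; linarith)))
      · exact (d (eqv0 hk hl u (am.injective h) fun h => (w h).elim)).elim
    · exact Subtype.ext (mul_right_cancel₀ (sub_ne_zero.2 h) (by linarith))

theorem result :
    ¬ (∀ (X : Type) [MetricSpace X] [CompactSpace X] [ConnectedSpace X],
      (∀ x y : X, x ≠ y →
        ∃ γ : unitInterval → X, Continuous γ ∧ Function.Injective γ ∧ γ 0 = x ∧ γ 1 = y) →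
      (∃ γ : unitInterval → X, Continuous γ ∧ Function.Injective γ ∧
        IsOpen (γ '' {t : unitInterval | (0 : unitInterval) < t ∧ t < 1})) →
      (∀ A : Set X, IsClosed A → A.Nonempty →
        ∃ f : X → X, Continuous f ∧ Function.Surjective f ∧
          (∀ y : X, IsConnected (f ⁻¹' {y})) ∧
          (∀ x : X, f x = x ↔ x ∈ A)) →
      Nonempty (X ≃ₜ Circle)) := by
  intro H
  have kc : IsCompact K := IsClosed.isCompact (by
    have := (EReal.isOpenEmbedding_coe.prodMap .id).isOpenMap _ (isOpen_ne_fun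
      (f := fun p : ℝ × Circle × Circle => p.2.2) (g := fun p => Circle.exp p.1)
      (by fun_prop) (by fun_prop))
    convert this.isClosed_compl
    ext ⟨s, w, v⟩
    simp [K, eq_comm, not_imp_not])
  have := isCompact_iff_compactSpace.1 kc
  have := isCompact_iff_compactSpace.1 (kc.image qc)
  have kb : ∀ w v, (⊥, w, v) ∈ K := fun _ _ r h => by simp at h
  have kΦ : ∀ t, ∀ k ∈ K, Φ t k ∈ K := fun t ⟨s, w, v⟩ h r e => by
    change s + t = r at e
    induction s with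
    | coe s => simp [Φ, show v = _ from h s rfl, ← EReal.coe_eq_coe_iff.1 e]
    | _ => simp at e
  have n : ∀ k ∈ K, ∃ l ∈ K, l.1 ≠ ⊤ ∧ ∀ t, Q (Φ t l) = Q (Φ t k) := fun k h => by
    by_cases e : k.1 = ⊤
    · exact ⟨_, kb k.2.2 1, bot_ne_top, fun t => by simp [Q, Φ, e, ab]⟩
    · exact ⟨k, h, e, fun _ => rfl⟩
  have n' : ∀ x : Q '' K, ∃ l ∈ K, l.1 ≠ ⊤ ∧ Q l = x := fun ⟨_, k, h, rfl⟩ =>
    (n k h).imp fun l d => ⟨d.1, d.2.1, by simpa [Φ] using d.2.2 0⟩
  obtain ⟨z, z0, z1, -, za⟩ := pt (r := 0) (by simp)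
  have C : ∀ T : Set (Q '' K), (∀ x ∉ T, ‖x.1.1‖ = 1) → IsPreconnected T := fun T h =>
    isPreconnected_of_forall ⟨_, z, z0, rfl⟩ fun x hx => by
      obtain ⟨k, b, c, d⟩ := n' x
      obtain ⟨γ, g, g0, g1, -, g2⟩ := arc b z0 c z1
      refine ⟨range γ, range_subset_iff.2 fun t => by_contra fun w => ?_, ⟨1, Subtype.ext g1⟩,
        ⟨0, Subtype.ext (g0.trans d)⟩, isPreconnected_range g⟩
      obtain ⟨m, -, -, m1, m2⟩ := g2 t
      have := h _ w
      rw [m1, nrm, m2, za, mul_zero, add_zero, abs_mul, abs_of_nonneg (by linarith [t.2.2])] at this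
      have x : |a k.1| ≤ 1 := abs_le.2 ⟨ab.1 ▸ am.monotone bot_le, ab.2 ▸ am.monotone le_top⟩
      obtain rfl : t = 0 := Subtype.ext (le_antisymm (show (t : ℝ) ≤ 0 by
        nlinarith [t.2.2]) t.2.1)
      exact w (Subtype.ext (g0.trans d) ▸ hx)
  have : ConnectedSpace (Q '' K) :=
    { isPreconnected_univ := C _ (by simp), toNonempty := ⟨⟨_, z, z0, rfl⟩⟩ }
  obtain ⟨e⟩ := H (Q '' K) (fun x y h => by
    obtain ⟨k, b, c, d⟩ := n' x
    obtain ⟨l, b', c', d'⟩ := n' y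
    obtain ⟨γ, g, g0, g1, g2, -⟩ := arc b b' c c'
    exact ⟨γ, g, g2 (by rwa [d, d', Subtype.coe_ne_coe]), Subtype.ext (g0.trans d),
      Subtype.ext (g1.trans d')⟩) (by
    obtain ⟨y, y0, y1, -, ya⟩ := pt (r := 1 / 2) (by norm_num [abs_of_pos])
    obtain ⟨γ, g, -, -, g2, g3⟩ := arc z0 y0 z1 y1
    simp only [za, ya, mul_zero, zero_add] at g3
    refine ⟨γ, g, g2 fun h => by simp [(inv h z1 y1).1, ya] at za, ?_⟩
    suffices γ '' {t | 0 < t ∧ t < 1} = {x | 0 < x.1.2} ∩ {x | ‖x.1.1‖ < 1 / 2} from this ▸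
      (isOpen_lt (by fun_prop) (by fun_prop)).inter (isOpen_lt (by fun_prop) (by fun_prop))
    refine subset_antisymm (image_subset_iff.2 fun t ⟨(u : (0 : ℝ) < t), (v : (t : ℝ) < 1)⟩ => ?_)
      fun x ⟨(u : 0 < x.1.2), (v : ‖x.1.1‖ < _)⟩ => ?_
    · obtain ⟨m, -, -, m1, m2⟩ := g3 t
      refine ⟨show 0 < (γ t).1.2 from ?_, show ‖(γ t).1.1‖ < _ from ?_⟩ <;> rw [m1]
      · simp only [Q, m2]
        grind
      · rw [nrm, m2]
        grind
    · obtain ⟨k, b, c, d⟩ := n' x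
      rw [← d, nrm] at v
      simp only [← d, Q] at u
      obtain ⟨m, m0, m1, m2, m3⟩ := g3 ⟨2 * a k.1, by grind⟩
      refine ⟨_, ⟨show (0 : ℝ) < 2 * _ by grind, show 2 * _ < (1 : ℝ) by grind⟩, Subtype.ext
        (m2.trans ((eqv0 m0 b m1 (am.injective (by grind)) (by grind)).trans d))⟩)
    (flow (K := K) (q := fun k => ⟨Q k, k, k.2, rfl⟩) (Φ := fun t k => ⟨Φ t k, kΦ t k k.2⟩)
      (S := {k | k.1.1 ≠ ⊤}) (.subtype_mk (qc.comp continuous_subtype_val) _)
      (fun ⟨_, k, h, rfl⟩ => ⟨⟨k, h⟩, rfl⟩) (.subtype_mk (.prodMk (continuous_iff_continuousAt.2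
        fun p => (EReal.continuousAt_add (p := (p.1.1.1, p.2)) (by simp) (by simp)).comp₂_of_eq
          (by fun_prop) (continuous_coe_real_ereal.comp continuous_snd).continuousAt rfl)
        (by fun_prop)) _) (fun k => by simp [Φ])
      (fun s t k => by simp [Φ, add_assoc, add_comm s, mul_assoc])
      (fun t k h => EReal.add_ne_top h (by simp))
      (fun k => (n k k.2).elim fun l h => ⟨⟨l, h.1⟩, h.2.1, fun t => Subtype.ext (h.2.2 t)⟩)
      (fun k u l v e t h => Subtype.ext (eqv k.2 l.2 u (inv (congrArg Subtype.val e) u v).1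
        (inv (congrArg Subtype.val e) u v).2 t h))
      (fun ⟨⟨s, w, v⟩, _⟩ u t h e => by
        obtain ⟨b, c⟩ := inv (congrArg Subtype.val e) (EReal.add_ne_top u (by simp)) u
        induction s with
        | bot => exact h.1.ne' (Circle.exp_injOn_Icc (a := 0) (b := 1) (by linarith [Real.pi_gt_three])
            ⟨h.1.le, h.2⟩ (by simp) (by simpa [Φ, ab] using c))
        | top => exact u rfl
        | coe r => exact h.1.ne' (left_eq_add.1 (EReal.coe_eq_coe_iff.1 b.symm)))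
      fun ⟨⟨s, w, v⟩, b⟩ u => by
        convert isPreconnected_range (f := fun c : Circle => (⟨(s, if a s < 0 then w else c,
          if s = ⊥ then c else v), fun r (h : s = r) => by simpa [h] using b r h⟩ : K))
          (.subtype_mk (by split_ifs <;> fun_prop) _)
        refine subset_antisymm (fun ⟨⟨r, x, y⟩, d⟩ ⟨h, e⟩ => ?_) (range_subset_iff.2 fun c =>
          ⟨u, Subtype.ext (eqv0 (fun r (h : s = r) => by simpa [h] using b r h) b u rfl
            fun h => if_pos h)⟩)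
        obtain ⟨rfl, c⟩ : r = s ∧ (a r < 0 → x = w) := inv (congrArg Subtype.val e) h u
        induction r with
        | bot => exact ⟨y, by simpa [ab, eq_comm] using c⟩
        | top => exact (u rfl).elim
        | coe r => exact ⟨x, by
            simpa [show y = v from (d r rfl).trans (b r rfl).symm, eq_comm] using c⟩)
  refine Circle.not_isPreconnected_compl_pair (x := e ⟨_, _, kb 1 1, rfl⟩)
    (y := e ⟨_, _, kb (-1) 1, rfl⟩) (fun h => ?_) ?_
  · have := (inv (congrArg Subtype.val (e.injective h)) bot_ne_top bot_ne_top).2 (by simp [ab])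
    exact absurd (congrArg (fun c : Circle => (c : ℂ)) this) (by norm_num)
  · rw [← image_pair, ← image_compl_eq e.bijective]
    refine (C _ fun x h => ?_).image _ e.continuous.continuousOn
    rcases not_not.1 h with rfl | rfl <;> simp [nrm, ab]

end Pool.Agent.S14120
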