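import Pool.Statements.S14124
-- import your own Pool.Agent.* helpers here

set_option autoImplicit false
open Pool Pool.MP_e230d6_gt

namespace Pool.Agent.S14124

open Set Topology Filter unitInterval

def XX : Type := I ⊕ (I × ℕ)

def pp (c : I) : XX := Sum.inl c
def qq (c : I) (i : ℕ) : XX := Sum.inr (c, i)

lemma qq_inj {c d : I} {i j : ℕ} (h : qq c i = qq d j) : c = d ∧ i = j := by
  have := Sum.inr.inj h
  exact ⟨congrArg Prod.fst this, congrArg Prod.snd this⟩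

lemma pq (c d : I) (i : ℕ) : pp c ≠ qq d i := fun h => by cases h

lemma cas (x : XX) : (∃ c, x = pp c) ∨ ∃ c i, x = qq c i := by
  rcases x with c | ⟨c, i⟩
  · exact Or.inl ⟨c, rfl⟩
  · exact Or.inr ⟨c, i, rfl⟩

instance : TopologicalSpace XX where
  IsOpen U := ∀ c, pp c ∈ U → ∃ e > (0 : ℝ), ∀ d, dist d c < e →
    pp d ∈ U ∧ (d ≠ c → ∀ i, qq d i ∈ U)
  isOpen_univ := fun _ _ => ⟨1, one_pos, fun _ _ => ⟨trivial, fun _ _ => trivial⟩⟩
  isOpen_inter := by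
    intro s t hs ht c hc
    obtain ⟨e, he, h⟩ := hs c hc.1
    obtain ⟨e', he', h'⟩ := ht c hc.2
    refine ⟨min e e', lt_min he he', fun d hd => ?_⟩
    have h1 := h d (lt_of_lt_of_le hd (min_le_left _ _))
    have h2 := h' d (lt_of_lt_of_le hd (min_le_right _ _))
    exact ⟨⟨h1.1, h2.1⟩, fun hn i => ⟨h1.2 hn i, h2.2 hn i⟩⟩
  isOpen_sUnion := by
    rintro s hs c ⟨t, ht, hc⟩
    obtain ⟨e, he, h⟩ := hs t ht c hc
    exact ⟨e, he, fun d hd => ⟨⟨t, ht, (h d hd).1⟩, fun hn i => ⟨t, ht, (h d hd).2 hn i⟩⟩⟩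

lemma open_iff (U : Set XX) : IsOpen U ↔ ∀ c, pp c ∈ U → ∃ e > (0 : ℝ), ∀ d, dist d c < e →
    pp d ∈ U ∧ (d ≠ c → ∀ i, qq d i ∈ U) := Iff.rfl

def pr : XX → I := Sum.elim id Prod.fst

lemma pr_cont : Continuous pr := by
  refine continuous_def.2 fun s hs => (open_iff _).2 fun c hc => ?_
  obtain ⟨e, he, h⟩ := Metric.isOpen_iff.1 hs c hc
  exact ⟨e, he, fun d hd => ⟨h hd, fun _ _ => h hd⟩⟩

lemma pp_cont : Continuous pp := by
  refine continuous_def.2 fun s hs => Metric.isOpen_iff.2 fun c hc => ?_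
  obtain ⟨e, he, h⟩ := (open_iff _).1 hs c hc
  exact ⟨e, he, fun d hd => (h d hd).1⟩

lemma open_q (c : I) (i : ℕ) : IsOpen ({qq c i} : Set XX) :=
  (open_iff _).2 fun _ hd => absurd hd (pq _ _ _)

lemma open_co (c : I) (A : Set ℕ) : IsOpen {x : XX | ∀ i ∈ A, x ≠ qq c i} := by
  refine (open_iff _).2 fun d _ => ?_
  by_cases h : d = c
  · subst h
    exact ⟨1, one_pos, fun b _ => ⟨fun i _ => pq _ _ _, fun hb i j _ e => hb (qq_inj e).1⟩⟩
  · refine ⟨dist c d, dist_pos.2 (Ne.symm h), fun b hb => ⟨fun i _ => pq _ _ _, fun _ i j _ e => ?_⟩⟩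
    rw [(qq_inj e).1] at hb
    exact lt_irrefl _ hb

instance : T2Space XX := by
  have key : ∀ (x : XX) c i, x ≠ qq c i →
      ∃ u v : Set XX, IsOpen u ∧ IsOpen v ∧ x ∈ u ∧ qq c i ∈ v ∧ Disjoint u v := by
    intro x c i h
    refine ⟨_, _, open_co c {i}, open_q c i, ?_, rfl, ?_⟩
    · rintro j rfl
      exact h
    · exact disjoint_left.2 fun y hy hy' => hy i rfl hy'
  refine ⟨fun x y hxy => ?_⟩
  rcases cas y with ⟨d, rfl⟩ | ⟨d, j, rfl⟩
  · rcases cas x with ⟨c, rfl⟩ | ⟨c, i, rfl⟩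
    · exact separated_by_continuous pr_cont fun e => hxy (congrArg pp e)
    · obtain ⟨u, v, h1, h2, h3, h4, h5⟩ := key (pp d) c i hxy.symm
      exact ⟨v, u, h2, h1, h4, h3, h5.symm⟩
  · exact key x d j hxy

instance : FirstCountableTopology XX := by
  refine ⟨fun x => ?_⟩
  rcases cas x with ⟨c, rfl⟩ | ⟨c, i, rfl⟩
  · have : (𝓝 (pp c)).HasBasis (fun _ : ℕ => True) fun n =>
        pr ⁻¹' Metric.ball c (1 / ((n : ℝ) + 1)) ∩ {x : XX | ∀ i ∈ univ, x ≠ qq c i} := by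
      refine ⟨fun t => ⟨fun ht => ?_, ?_⟩⟩
      · obtain ⟨U, hUt, hU, hc⟩ := mem_nhds_iff.1 ht
        obtain ⟨e, he, h⟩ := (open_iff _).1 hU c hc
        obtain ⟨n, hn⟩ := exists_nat_one_div_lt he
        refine ⟨n, trivial, fun x hx => hUt ?_⟩
        rcases cas x with ⟨d, rfl⟩ | ⟨d, j, rfl⟩
        · exact (h d (lt_trans hx.1 hn)).1
        · refine (h d (lt_trans hx.1 hn)).2 ?_ j
          rintro rfl
          exact hx.2 j trivial rfl
      · rintro ⟨n, -, h⟩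
        refine mem_of_superset (IsOpen.mem_nhds
          ((Metric.isOpen_ball.preimage pr_cont).inter (open_co c univ)) ?_) h
        exact ⟨Metric.mem_ball_self Nat.one_div_pos_of_nat, fun i _ => pq _ _ _⟩
    exact this.isCountablyGenerated
  · rw [(isOpen_singleton_iff_nhds_eq_pure _).1 (open_q c i)]
    infer_instance

lemma sat (K : Set XX) : ⋂₀ {U : Set XX | IsOpen U ∧ K ⊆ U} ⊆ K := by
  intro x hx
  by_contra h
  exact hx {x}ᶜ ⟨isOpen_compl_singleton, fun y hy e => h (e ▸ hy)⟩ rfl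

lemma cofin (U : Set XX) (hU : IsOpen U) (h : range pp ⊆ U) :
    ∃ F : Finset I, ∀ c ∉ F, ∀ i, qq c i ∈ U := by
  choose e he hd using fun c => (open_iff _).1 hU c (h ⟨c, rfl⟩)
  obtain ⟨F, hF⟩ := isCompact_univ.elim_finite_subcover (fun c => Metric.ball c (e c))
    (fun _ => Metric.isOpen_ball) fun c _ => mem_iUnion.2 ⟨c, Metric.mem_ball_self (he c)⟩
  refine ⟨F, fun c hc i => ?_⟩
  obtain ⟨d, hd1, hd2⟩ := mem_iUnion₂.1 (hF (mem_univ c))
  exact (hd d c hd2).2 (fun e => hc (e ▸ hd1)) i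

lemma comp (m : ℕ) (L : Set XX) (h1 : range pp ⊆ L) (h2 : ∀ c i, qq c i ∈ L → i ≤ m) :
    IsCompact L := by
  classical
  refine isCompact_of_finite_subcover fun {ι} U hU hL => ?_
  obtain ⟨t, ht⟩ := (isCompact_range pp_cont).elim_finite_subcover U hU (h1.trans hL)
  obtain ⟨F, hF⟩ := cofin _ (isOpen_biUnion fun i _ => hU i) ht
  have hfin : (L ∩ (fun p : I × ℕ => qq p.1 p.2) '' ((F : Set I) ×ˢ Iic m)).Finite :=
    ((F.finite_toSet.prod (finite_Iic m)).image _).inter_of_right _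
  obtain ⟨s, hs⟩ := hfin.isCompact.elim_finite_subcover U hU (inter_subset_left.trans hL)
  refine ⟨t ∪ s, fun x hx => ?_⟩
  have : x ∈ (⋃ i ∈ t, U i) ∨ x ∈ ⋃ i ∈ s, U i := by
    rcases cas x with ⟨c, rfl⟩ | ⟨c, i, rfl⟩
    · exact Or.inl (ht ⟨c, rfl⟩)
    · by_cases hc : c ∈ F
      · exact Or.inr (hs ⟨hx, (c, i), ⟨hc, h2 c i hx⟩, rfl⟩)
      · exact Or.inl (hF c hc i)
  rcases this with h | h <;> obtain ⟨i, hi, hxi⟩ := mem_iUnion₂.1 h
  · exact mem_biUnion (Finset.mem_union_left _ hi) hxi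
  · exact mem_biUnion (Finset.mem_union_right _ hi) hxi

def bad (L : Set XX) (m : ℕ) : Set I := {c | ∃ i ≤ m, qq c i ∉ L}

lemma bad_inf (K : Set XX) (hK : IsCompact K) : ∃ M, (bad K M).Infinite := by
  by_contra h
  push Not at h
  have hc : (⋃ M, bad K M).Countable := countable_iUnion fun M => (h M).countable
  have hu : (⋃ M, bad K M) = univ := by
    refine eq_univ_of_forall fun c => ?_
    obtain ⟨m, hm⟩ := hK.elim_directed_cover (fun m : ℕ => {x : XX | ∀ i ∈ Ici m, x ≠ qq c i})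
      (fun m => open_co c _) (fun x _ => by
        rcases cas x with ⟨d, rfl⟩ | ⟨d, j, rfl⟩
        · exact mem_iUnion.2 ⟨0, fun i _ => pq _ _ _⟩
        · refine mem_iUnion.2 ⟨j + 1, fun i hi e => ?_⟩
          have := (qq_inj e).2
          have hi' : j + 1 ≤ i := hi
          omega)
      (Monotone.directed_le fun a b hab x hx i hi => hx i (le_trans hab hi))
    exact mem_iUnion.2 ⟨m, m, le_rfl, fun hq => hm hq m (mem_Ici.2 le_rfl) rfl⟩
  rw [hu, countable_univ_iff] at hc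
  have h2 : (Icc (0 : ℝ) 1).Countable := hc
  rw [← Cardinal.le_aleph0_iff_set_countable, Cardinal.mk_Icc_real zero_lt_one] at h2
  exact absurd h2 (not_le.2 Cardinal.aleph0_lt_continuum)

abbrev KK : Type :=
  {K : Set XX // K.Nonempty ∧ IsCompact K ∧ ⋂₀ {U : Set XX | IsOpen U ∧ K ⊆ U} ⊆ K}

def SS : Set KK := {L | ∀ m, ∃ s : Finset I, s.card = m + 1 ∧ (s : Set I) ⊆ bad L.1 m}

lemma viet (S : Set KK) (h : TopologicalSpace.GenerateOpen
    {𝒱 : Set KK | ∃ U : Set XX, IsOpen U ∧ 𝒱 = {K : KK | K.1 ⊆ U}} S) :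
    ∀ K ∈ S, ∃ U, IsOpen U ∧ K.1 ⊆ U ∧ ∀ L : KK, L.1 ⊆ U → L ∈ S := by
  induction h with
  | basic s hs =>
    obtain ⟨U, hU, rfl⟩ := hs
    exact fun K hK => ⟨U, hU, hK, fun L hL => hL⟩
  | univ => exact fun K _ => ⟨univ, isOpen_univ, subset_univ _, fun _ _ => trivial⟩
  | inter s t _ _ ih1 ih2 =>
    intro K hK
    obtain ⟨U, h1, h2, h3⟩ := ih1 K hK.1
    obtain ⟨V, k1, k2, k3⟩ := ih2 K hK.2
    exact ⟨U ∩ V, h1.inter k1, subset_inter h2 k2, fun L hL =>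
      ⟨h3 L (hL.trans inter_subset_left), k3 L (hL.trans inter_subset_right)⟩⟩
  | sUnion s _ ih =>
    rintro K ⟨t, ht, hK⟩
    obtain ⟨U, h1, h2, h3⟩ := ih t ht K hK
    exact ⟨U, h1, h2, fun L hL => ⟨t, ht, h3 L hL⟩⟩

theorem result :
    ¬ (∀ (X : Type) [TopologicalSpace X], T0Space X → FirstCountableTopology X →
    (∀ 𝒦 : Set (Set X), 𝒦.Nonempty →
      (∀ K ∈ 𝒦, IsCompact K ∧ ⋂₀ {U : Set X | IsOpen U ∧ K ⊆ U} ⊆ K) →
      DirectedOn (fun A B : Set X => B ⊆ A) 𝒦 →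
      ∀ U : Set X, IsOpen U → ⋂₀ 𝒦 ⊆ U → ∃ K ∈ 𝒦, K ⊆ U) →
    ∀ 𝒮 : Set {K : Set X // K.Nonempty ∧ IsCompact K ∧ ⋂₀ {U : Set X | IsOpen U ∧ K ⊆ U} ⊆ K},
      (@IsOpen {K : Set X // K.Nonempty ∧ IsCompact K ∧ ⋂₀ {U : Set X | IsOpen U ∧ K ⊆ U} ⊆ K}
        (TopologicalSpace.generateFrom
          {𝒱 : Set {K : Set X // K.Nonempty ∧ IsCompact K ∧ ⋂₀ {U : Set X | IsOpen U ∧ K ⊆ U} ⊆ K} |
            ∃ U : Set X, IsOpen U ∧
              𝒱 = {K : {K : Set X // K.Nonempty ∧ IsCompact K ∧ ⋂₀ {U : Set X | IsOpen U ∧ K ⊆ U} ⊆ K} |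
                K.1 ⊆ U}}) 𝒮 ↔
      ((∀ K ∈ 𝒮, ∀ L : {K : Set X // K.Nonempty ∧ IsCompact K ∧ ⋂₀ {U : Set X | IsOpen U ∧ K ⊆ U} ⊆ K},
          L.1 ⊆ K.1 → L ∈ 𝒮) ∧
       ∀ 𝒟 : Set {K : Set X // K.Nonempty ∧ IsCompact K ∧ ⋂₀ {U : Set X | IsOpen U ∧ K ⊆ U} ⊆ K},
        𝒟.Nonempty →
        DirectedOn (fun A B : {K : Set X // K.Nonempty ∧ IsCompact K ∧ ⋂₀ {U : Set X | IsOpen U ∧ K ⊆ U} ⊆ K} =>
          B.1 ⊆ A.1) 𝒟 →
        ∀ L : {K : Set X // K.Nonempty ∧ IsCompact K ∧ ⋂₀ {U : Set X | IsOpen U ∧ K ⊆ U} ⊆ K},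
          (∀ K ∈ 𝒟, L.1 ⊆ K.1) →
          (∀ M : {K : Set X // K.Nonempty ∧ IsCompact K ∧ ⋂₀ {U : Set X | IsOpen U ∧ K ⊆ U} ⊆ K},
            (∀ K ∈ 𝒟, M.1 ⊆ K.1) → M.1 ⊆ L.1) →
          L ∈ 𝒮 → ∃ K ∈ 𝒟, K ∈ 𝒮))) := by
  intro h
  have h1 := (h XX inferInstance inferInstance (by
    intro 𝒦 hne hc hd U hU hsub
    have : Nonempty 𝒦 := hne.to_subtype
    obtain ⟨K, hK⟩ := exists_subset_nhds_of_isCompact' (V := fun K : 𝒦 => K.1) (U := U)
      (directedOn_iff_directed.1 hd) (fun K => (hc K.1 K.2).1) (fun K => (hc K.1 K.2).1.isClosed)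
      (fun x hx => hU.mem_nhds (hsub (by rwa [sInter_eq_iInter])))
    exact ⟨K.1, K.2, hK⟩) SS).2 ⟨?_, ?_⟩
  · let K0 : KK := ⟨range pp, range_nonempty _, isCompact_range pp_cont, sat _⟩
    have hK0 : K0 ∈ SS := by
      intro m
      have : Infinite I := (Icc_infinite (zero_lt_one' ℝ)).to_subtype
      obtain ⟨s, -, hs⟩ := (infinite_univ (α := I)).exists_subset_card_eq (m + 1)
      refine ⟨s, hs, fun c _ => ⟨0, Nat.zero_le _, ?_⟩⟩
      rintro ⟨d, hd⟩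
      exact pq _ _ _ hd
    obtain ⟨U, hU, hKU, hL⟩ := viet SS h1 K0 hK0
    obtain ⟨F, hF⟩ := cofin U hU hKU
    let L : Set XX := range pp ∪ {x | ∃ c ∉ F, ∃ i ≤ F.card, x = qq c i}
    have hLc : IsCompact L := comp F.card L subset_union_left (by
      rintro c i (⟨d, hd⟩ | ⟨d, -, j, hj, e⟩)
      · exact absurd hd (pq _ _ _)
      · rw [(qq_inj e).2]
        exact hj)
    obtain ⟨s, hs, hsb⟩ := hL ⟨L, (range_nonempty _).mono subset_union_left, hLc, sat _⟩ (by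
      rintro x (hx | ⟨c, hc, i, -, rfl⟩)
      · exact hKU hx
      · exact hF c hc i) F.card
    have : s ⊆ F := fun c hc => by
      obtain ⟨i, hi, hn⟩ := hsb hc
      by_contra hcF
      exact hn (Or.inr ⟨c, hcF, i, hi, rfl⟩)
    have := Finset.card_le_card this
    omega
  · intro K hK L hLK m
    obtain ⟨s, hs, hsb⟩ := hK m
    refine ⟨s, hs, fun c hc => ?_⟩
    obtain ⟨i, hi, hn⟩ := hsb hc
    exact ⟨i, hi, fun h => hn (hLK h)⟩
  · rintro 𝒟 ⟨K0, hK0⟩ hd L - hsup hL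
    have hmiss : ∀ x ∉ L.1, ∃ K ∈ 𝒟, x ∉ K.1 := by
      intro x hx
      by_contra hh
      push Not at hh
      exact hx (hsup ⟨{x}, singleton_nonempty x, isCompact_singleton, sat _⟩
        (fun K hK => singleton_subset_iff.2 (hh K hK)) rfl)
    have hfin : ∀ T : Set XX, T.Finite → (∀ x ∈ T, x ∉ L.1) →
        ∃ K ∈ 𝒟, K.1 ⊆ K0.1 ∧ ∀ x ∈ T, x ∉ K.1 := by
      intro T hT
      induction T, hT using Set.Finite.induction_on with
      | empty => exact fun _ => ⟨K0, hK0, Subset.rfl, fun _ h => h.elim⟩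
      | @insert a T _ _ ih =>
        intro hh
        obtain ⟨K1, k1, k2, k3⟩ := ih fun x hx => hh x (Or.inr hx)
        obtain ⟨K2, l1, l2⟩ := hmiss a (hh a (Or.inl rfl))
        obtain ⟨K, m1, m2, m3⟩ := hd K1 k1 K2 l1
        refine ⟨K, m1, m2.trans k2, ?_⟩
        rintro x (rfl | hx)
        · exact fun h => l2 (m3 h)
        · exact fun h => k3 x hx (m2 h)
    obtain ⟨M, hM⟩ := bad_inf K0.1 K0.2.2.1
    choose s hs hsb using hL
    obtain ⟨K, k1, k2, k3⟩ := hfin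
      (((fun p : I × ℕ => qq p.1 p.2) '' ((⋃ m ∈ Iic M, (s m : Set I)) ×ˢ Iic M)) \ L.1)
      (((((finite_Iic M).biUnion fun m _ => (s m).finite_toSet).prod (finite_Iic M)).image
        _).subset sdiff_subset) fun x hx => hx.2
    refine ⟨K, k1, fun m => ?_⟩
    by_cases hm : m ≤ M
    · refine ⟨s m, hs m, fun c hc => ?_⟩
      obtain ⟨i, hi, hn⟩ := hsb m hc
      exact ⟨i, hi, k3 _ ⟨⟨(c, i), ⟨mem_biUnion hm hc, le_trans hi hm⟩, rfl⟩, hn⟩⟩
    · obtain ⟨t, ht, htc⟩ := hM.exists_subset_card_eq (m + 1)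
      refine ⟨t, htc, fun c hc => ?_⟩
      obtain ⟨i, hi, hn⟩ := ht hc
      exact ⟨i, by omega, fun h => hn (k2 h)⟩

end Pool.Agent.S14124
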