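import Pool.Statements.S14128
import Pool.Agent.H.MP_866953.A

set_option autoImplicit false
open Pool Pool.MP_e28848_gt

namespace Pool.Agent.S14128

theorem result :
    ¬ (∀ (X Y : Type) [TopologicalSpace X] [TopologicalSpace Y] [T35Space X] [T35Space Y],
      (∃ φ : (X → ℝ) ≃ₜ (Y → ℝ),
          φ '' {f : X → ℝ | Continuous f} = {g : Y → ℝ | Continuous g}) →
      (∃ 𝒩 : Set (Set X), 𝒩.Countable ∧
          ∀ K U : Set X, IsCompact K → IsOpen U → K ⊆ U →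
            ∃ F : Set (Set X), F.Finite ∧ F ⊆ 𝒩 ∧ K ⊆ ⋃₀ F ∧ ⋃₀ F ⊆ U) →
      (∃ 𝒩 : Set (Set Y), 𝒩.Countable ∧
          ∀ K U : Set Y, IsCompact K → IsOpen U → K ⊆ U →
            ∃ F : Set (Set Y), F.Finite ∧ F ⊆ 𝒩 ∧ K ⊆ ⋃₀ F ∧ ⋃₀ F ⊆ U)) := by
  open Pool.Agent.H.MP_866953 in
  intro H
  obtain ⟨e, he⟩ := eqv
  have := cX
  obtain ⟨N, hN, h⟩ := H X Y ⟨e.toHomeomorph, Set.ext fun g => ⟨by
      rintro ⟨f, hf, rfl⟩
      exact (he f).1 hf, fun hg => ⟨e.symm g, (he _).2 (by simpa using hg), e.apply_symm_apply g⟩⟩⟩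
    ⟨Set.range fun x => {x}, Set.countable_range _, fun K U hK _ hU =>
      ⟨(fun x => ({x} : Set X)) '' K, (fin tall K hK).image _, Set.image_subset_range _ _, by simp,
        by simpa using hU⟩⟩
  exact nY N hN h

end Pool.Agent.S14128
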