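import Pool.Statements.S14129
import Pool.Agent.H.MP_e33218.C

set_option autoImplicit false
open Pool Pool.MP_e33218_gt

namespace Pool.Agent.S14129

theorem result :
  ∀ (K : Type) [LinearOrder K] [TopologicalSpace K] [OrderTopology K] [CompactSpace K],
    (∃ (V : Type) (_ : TopologicalSpace V) (_ : CompactSpace V),
      (∃ (Γ : Type) (h : V → (Γ → ℝ)), Topology.IsEmbedding h ∧
        Dense (h ⁻¹' {x | {γ | x γ ≠ 0}.Countable})) ∧
      ∃ f : V → K, Continuous f ∧ Function.Surjective f) →
    ∃ (L : Type) (_ : LinearOrder L) (_ : TopologicalSpace L) (_ : OrderTopology L)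
      (_ : CompactSpace L),
      (∃ (Γ : Type) (h : L → (Γ → ℝ)), Topology.IsEmbedding h ∧
        Dense (h ⁻¹' {x | {γ | x γ ≠ 0}.Countable})) ∧
      ∃ g : L → K, Continuous g ∧ Function.Surjective g ∧ Monotone g := by
  rintro K _ _ _ _ ⟨V, _, _, ⟨Γ, h, h1, h2⟩, f, f1, f2⟩
  rcases isEmpty_or_nonempty K with e | e
  · exact ⟨K, inferInstance, inferInstance, inferInstance, inferInstance,
      ⟨Γ, fun _ _ => 0, Topology.IsEmbedding.of_subsingleton _, fun x => e.elim x⟩,
      id, continuous_id, Function.surjective_id, monotone_id⟩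
  · exact H.MP_e33218.fin h1.continuous h1.injective h2 f1 f2

end Pool.Agent.S14129
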