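import Pool.Statements.S14160
import Pool.Agent.H.MP_ea0cba_gt.Fin

set_option autoImplicit false
open Pool Pool.MP_ea0cba_gt

namespace Pool.Agent.S14160

theorem result :
    ¬ (∀ (X Y : Type) [MetricSpace X] [MetricSpace Y] [CompactSpace X] [ConnectedSpace X]
      (f : X → Y), IsLocalHomeomorph f → Function.Surjective f →
      (∀ x y : X, ∃ K : Set X, IsCompact K ∧ IsConnected K ∧ x ∈ K ∧ y ∈ K ∧
        (∀ L : Set X, L ⊆ K → IsCompact L → IsConnected L → x ∈ L → y ∈ L → L = K) ∧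
        (∀ M : Set X, M ⊆ K → IsCompact M → IsConnected M → M.Nontrivial →
          ∃ A B : Set X, A ⊆ M ∧ B ⊆ M ∧ A ≠ M ∧ B ≠ M ∧ IsCompact A ∧ IsConnected A ∧
            IsCompact B ∧ IsConnected B ∧ A ∪ B = M)) →
      (∀ x y : Y, ∃ K : Set Y, IsCompact K ∧ IsConnected K ∧ x ∈ K ∧ y ∈ K ∧
        (∀ L : Set Y, L ⊆ K → IsCompact L → IsConnected L → x ∈ L → y ∈ L → L = K) ∧
        (∀ M : Set Y, M ⊆ K → IsCompact M → IsConnected M → M.Nontrivial →
          ∃ A B : Set Y, A ⊆ M ∧ B ⊆ M ∧ A ≠ M ∧ B ≠ M ∧ IsCompact A ∧ IsConnected A ∧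
            IsCompact B ∧ IsConnected B ∧ A ∪ B = M))) := by
  exact Pool.Agent.H.MP_ea0cba_gt.final

end Pool.Agent.S14160
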