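import Pool.Statements.S14161
import Pool.Agent.H.MP_eb6644.B

set_option autoImplicit false
open Topology
open Pool Pool.MP_eb6644_gt

namespace Pool.Agent.S14161

theorem result :
    ∀ (K : Type) [LinearOrder K] [TopologicalSpace K] [OrderTopology K] [CompactSpace K],
      (∃ (Γ : Type) (L : Set (Γ → ℝ)),
          IsCompact L ∧
          L ⊆ closure (L ∩ {x : Γ → ℝ | (Function.support x).Countable}) ∧
          ∃ f : L → K, Continuous f ∧ Function.Surjective f) →
      Cardinal.mk {x : K | ¬ (𝓝 x).IsCountablyGenerated} ≤ Cardinal.aleph 1 := by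
  rintro K _ _ _ _ ⟨Γ, L, hL, hd, f, f1, f2⟩
  have := isCompact_iff_compactSpace.1 hL
  have hd' : Dense {p : L | {θ | p.1 θ ≠ 0}.Countable} := fun p => by
    rw [IsInducing.subtypeVal.closure_eq_preimage_closure_image]
    refine closure_mono (fun x hx => ?_) (hd p.2)
    exact ⟨⟨x, hx.1⟩, hx.2, rfl⟩
  have h1 := H.MP_eb6644.main continuous_subtype_val Subtype.val_injective hd' f1 f2
  have h2 := H.MP_eb6644.main (K := Kᵒᵈ) continuous_subtype_val Subtype.val_injective hd' f1 f2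
  refine (Cardinal.mk_le_mk_of_subset (t := {p : K | ¬ H.MP_eb6644.LC p} ∪
    (show Set K from {p : Kᵒᵈ | ¬ H.MP_eb6644.LC p})) fun p hp => ?_).trans
    ((Cardinal.mk_union_le _ _).trans (Cardinal.add_le_of_le (Cardinal.aleph0_le_aleph 1) h1 h2))
  by_contra hn
  simp only [Set.mem_union, Set.mem_ofPred_eq, not_or, not_not] at hn
  obtain ⟨⟨s, s1, s2, s3⟩, hn⟩ := hn
  obtain ⟨t, t1, t2, t3⟩ := not_not.1 hn
  refine hp ?_
  have := s1.to_subtype
  have := t1.to_subtype
  have e : 𝓝 p = (⨅ c : s, Filter.principal (Set.Ioi c.1)) ⊓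
      ⨅ c : t, Filter.principal (Set.Iio (show K from c.1)) := by
    refine le_antisymm (le_inf (le_iInf fun c => Filter.le_principal_iff.2 (Ioi_mem_nhds (s2 _ c.2)))
      (le_iInf fun c => Filter.le_principal_iff.2 (Iio_mem_nhds (t2 _ c.2)))) ?_
    rw [nhds_eq_order]
    refine inf_le_inf (le_iInf₂ fun b hb => ?_) (le_iInf₂ fun b hb => ?_)
    · obtain ⟨c, c1, c2⟩ := s3 b hb
      exact iInf_le_of_le ⟨c, c1⟩ (Filter.principal_mono.2 (Set.Ioi_subset_Ioi c2))
    · obtain ⟨c, c1, c2⟩ := t3 b hb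
      exact iInf_le_of_le ⟨c, c1⟩ (Filter.principal_mono.2 (Set.Iio_subset_Iio c2))
  rw [e]
  infer_instance

end Pool.Agent.S14161
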