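import Pool.Statements.S14166
import Pool.Agent.H.MP_1644e0.A

set_option autoImplicit false
open Pool Pool.MP_eb94e6_gt

namespace Pool.Agent.S14166

theorem result :
    ¬ (∀ (X : Type) [TopologicalSpace X], CompactSpace X → T2Space X →
      (⨆ D : {D : Set X // Dense D},
          sInf {κ : Cardinal.{0} | ∃ (ι : Type) (A : ι → Set X),
            Cardinal.mk ι = κ ∧
            (∀ i, A i ⊆ D.1 ∧ DiscreteTopology ↥(A i)) ∧
            D.1 ⊆ closure (⋃ i, A i)}) =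
      sInf {κ : Cardinal.{0} | ∃ (ι : Type) (C : ι → Set (Set X)),
        Cardinal.mk ι = κ ∧
        (∀ i, (C i).PairwiseDisjoint id) ∧
        (∀ i, ∀ U ∈ C i, IsOpen U ∧ U.Nonempty) ∧
        ∀ V : Set X, IsOpen V → V.Nonempty → ∃ i, ∃ U ∈ C i, U ⊆ V}) := by
  intro h
  obtain ⟨I, hI, hD⟩ := Pool.Agent.H.MP_1644e0.dsep
  have h1 := h (I → Bool) inferInstance inferInstance
  refine absurd h1 (ne_of_lt (lt_of_le_of_lt (b := Cardinal.aleph0) ?_ ?_))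
  · have : Nonempty {D : Set (I → Bool) // Dense D} := ⟨⟨Set.univ, dense_univ⟩⟩
    refine ciSup_le' fun D => csInf_le' ?_
    obtain ⟨E, e1, e2⟩ := hD (fun _ => D.1) fun _ => D.2
    exact ⟨ℕ, E, Cardinal.mk_nat, e1, fun x _ => e2 x⟩
  · refine lt_of_not_ge fun hle => ?_
    obtain ⟨ι, C, e, c1, c2, c3⟩ := csInf_mem (s := {κ : Cardinal.{0} |
      ∃ (ι : Type) (C : ι → Set (Set (I → Bool))), Cardinal.mk ι = κ ∧
        (∀ i, (C i).PairwiseDisjoint id) ∧ (∀ i, ∀ U ∈ C i, IsOpen U ∧ U.Nonempty) ∧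
        ∀ V : Set (I → Bool), IsOpen V → V.Nonempty → ∃ i, ∃ U ∈ C i, U ⊆ V})
      ⟨_, {U : Set (I → Bool) // IsOpen U ∧ U.Nonempty}, fun U => {U.1}, rfl,
        fun _ => Set.pairwiseDisjoint_singleton _ _, fun U _ hU => hU ▸ U.2,
        fun V h1 h2 => ⟨⟨V, h1, h2⟩, V, rfl, subset_rfl⟩⟩
    have : Countable ι := Cardinal.mk_le_aleph0_iff.1 (e.trans_le hle)
    exact Pool.Agent.H.MP_1644e0.nopi C c1 c2 c3

end Pool.Agent.S14166
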