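import Pool.Statements.S14174
import Pool.Agent.H.MP_ecb7d4_gt.C

set_option autoImplicit false
open Pool Pool.MP_ecb7d4_gt
open Pool.Agent.H.MP_ecb7d4_gt

namespace Pool.Agent.S14174

theorem result :
    ¬ (∀ (m n : ℕ), 2 ≤ m → m < n →
    ∀ D : Finset (Fin n × Fin m), (∀ j : Fin m, ∃ i : Fin n, (i, j) ∈ D) →
    ∀ K : Set (ℝ × ℝ), IsCompact K → K.Nonempty →
    K = ⋃ d ∈ D, (fun p : ℝ × ℝ =>
          ((p.1 + ((d.1 : ℕ) : ℝ)) / (n : ℝ), (p.2 + ((d.2 : ℕ) : ℝ)) / (m : ℝ))) '' K →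
    ∀ (Y : Type) [MetricSpace Y] (f : K → Y), Function.Injective f →
    (∃ η : ℝ → ℝ, η 0 = 0 ∧ ContinuousOn η (Set.Ici 0) ∧ StrictMonoOn η (Set.Ici 0) ∧
      ∀ x a b : K, ∀ t : ℝ, 0 ≤ t → dist x a ≤ t * dist x b →
        dist (f x) (f a) ≤ η t * dist (f x) (f b)) →
    dimH (Set.univ : Set K) ≤ dimH (Set.range f)) := by
  intro hmain
  have h1 := hmain 4 16 (by norm_num) (by norm_num) D (by decide) KK KK_compact
    ⟨_, enc (fun _ => 0), rfl⟩ KK_eq Y toY (fun _ _ h => h)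
    ⟨fun t => 2 ^ 62 * (√t + t ^ 5), by simp, by fun_prop, fun s hs t _ hst => by
      have := Real.sqrt_le_sqrt hst.le
      have := pow_lt_pow_left₀ hst hs (show 5 ≠ 0 by norm_num)
      simp only
      linarith, fun x a b t ht h => by
      by_cases e : x = a
      · rw [e, dist_self]; positivity
      · have h0 := dist_pos.mpr e
        rw [dist_cd] at h0
        rw [dist_cd, dist_cd] at h
        exact qs _ _ _ t h0 h ht⟩
  have h2 := (dim_K.trans h1).trans ((dimH_mono (Set.subset_univ _)).trans dim_Y)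
  rw [ENNReal.coe_le_coe, ← NNReal.coe_le_coe] at h2
  norm_num at h2

end Pool.Agent.S14174
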