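import Pool.Statements.S14175
import Pool.Agent.Lib.helper23.Knaster

set_option autoImplicit false
open Pool Pool.MP_ed4848_gt

namespace Pool.Agent.S14175

open Set Function Pool.Agent.Lib.helper23 Topology Filter

lemma ess_countable {κ K : Type} [TopologicalSpace K] [T2Space K]
    (hK : ∀ (A : Set K) (x : K), x ∈ closure A →
          ∃ C : Set K, C ⊆ A ∧ C.Countable ∧ x ∈ closure C)
    (φ : (κ → ℝ) → K) (hφ : Continuous φ) [DecidableEq κ] :
    {a : κ | ∃ x t, φ x ≠ φ (update x a t)}.Countable := by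
  classical
  by_contra hE
  have h1 : ∀ a : κ, ∃ (t : ℝ) (O O' : Set K) (F : Finset κ) (q : κ → ℚ),
      (∃ x t, φ x ≠ φ (update x a t)) → IsOpen O' ∧ Disjoint O O' ∧ a ∈ F ∧
        ∀ x : κ → ℝ, (∀ i ∈ F, x i = q i) → φ x ∈ O ∧ φ (update x a t) ∈ O' := by
    intro a
    by_cases h : ∃ x t, φ x ≠ φ (update x a t)
    · obtain ⟨x, t, hx⟩ := h
      obtain ⟨O, O', hO, hO', hxO, hxO', hd⟩ := t2_separation hx
      have hc : Continuous fun y : κ → ℝ => φ (update y a t) :=
        hφ.comp (continuous_id.update a continuous_const)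
      have ho : IsOpen (φ ⁻¹' O ∩ (fun y : κ → ℝ => φ (update y a t)) ⁻¹' O') :=
        (hO.preimage hφ).inter (hO'.preimage hc)
      obtain ⟨F, u, hu, hsub⟩ := isOpen_pi_iff.1 ho x ⟨hxO, hxO'⟩
      have hq : ∀ i, ∃ q : ℚ, i ∈ F → (q : ℝ) ∈ u i := by
        intro i
        by_cases hi : i ∈ F
        · obtain ⟨q, hq⟩ := Rat.denseRange_cast.exists_mem_open (hu i hi).1 ⟨_, (hu i hi).2⟩
          exact ⟨q, fun _ => hq⟩
        · exact ⟨0, fun h => absurd h hi⟩
      choose q hq using hq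
      refine ⟨t, O, O', insert a F, q, fun _ => ⟨hO', hd, Finset.mem_insert_self _ _,
        fun y hy => hsub fun i hi => ?_⟩⟩
      rw [hy i (Finset.mem_insert_of_mem hi)]
      exact hq i hi
    · exact ⟨0, ∅, ∅, ∅, 0, fun h' => absurd h' h⟩
  choose t O O' F q h1 using h1
  obtain ⟨J, hJ, hJu, hJp⟩ := knaster (fun a i => (q a i, decide (i = a))) F _ hE
  have hfree : ∀ a ∈ J, ∀ b ∈ J, b ∈ F a → b = a := by
    intro a ha b hb h
    have := congrArg Prod.snd (hJp a ha b hb b h (h1 b (hJ hb)).2.2.1)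
    simpa using this
  let b : κ → ℝ := fun i => if h : ∃ a ∈ J, i ∈ F a then q h.choose i else 0
  have hb : ∀ a ∈ J, ∀ i ∈ F a, b i = q a i := by
    intro a ha i hi
    have h : ∃ a ∈ J, i ∈ F a := ⟨a, ha, hi⟩
    simp only [b, dif_pos h]
    have := congrArg Prod.fst (hJp _ h.choose_spec.1 a ha i h.choose_spec.2 hi)
    simp only at this
    rw [this]
  let z : Set κ → κ → ℝ := fun S i => if i ∈ S then t i else b i
  have hz : ∀ S ⊆ J, ∀ a ∈ J, a ∉ S → φ (z S) ∈ O a ∧ φ (update (z S) a (t a)) ∈ O' a := by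
    intro S hS a ha haS
    refine (h1 a (hJ ha)).2.2.2 _ fun i hi => ?_
    have : i ∉ S := fun h => haS (hfree a ha i (hS h) hi ▸ h)
    simp only [z, if_neg this]
    exact hb a ha i hi
  have hcl : z J ∈ closure {y | ∃ S ⊆ J, S.Finite ∧ z S = y} := by
    rw [mem_closure_iff]
    intro U hU hzU
    obtain ⟨G, u, hu, hsub⟩ := isOpen_pi_iff.1 hU _ hzU
    refine ⟨z (J ∩ G), hsub fun i hi => ?_, J ∩ G, inter_subset_left,
      G.finite_toSet.subset inter_subset_right, rfl⟩
    have : z (J ∩ G) i = z J i := by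
      have hi' : i ∈ (G : Set κ) := hi
      simp only [z, mem_inter_iff, hi', and_true]
    rw [this]
    exact (hu i hi).2
  obtain ⟨C, hC, hCc, hzC⟩ := hK _ _ (image_closure_subset_closure_image hφ ⟨_, hcl, rfl⟩)
  have h2 : ∀ c : C, ∃ S ⊆ J, S.Finite ∧ φ (z S) = c := by
    intro c
    obtain ⟨_, ⟨S, h1, h2, rfl⟩, h3⟩ := hC c.2
    exact ⟨S, h1, h2, h3⟩
  choose S hS hSf hSc using h2
  have : Countable C := hCc
  have h3 : ¬ J ⊆ ⋃ c, S c := fun h =>
    hJu ((countable_iUnion fun c => (hSf c).countable).mono h)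
  obtain ⟨a, ha, ha'⟩ := not_subset.1 h3
  have h4 : φ (z J) ∈ O' a := by
    have := (hz (J \ {a}) sdiff_subset a ha (by simp)).2
    have e : update (z (J \ {a})) a (t a) = z J := by
      funext i
      by_cases hi : i = a
      · subst hi
        simp [z, ha]
      · simp [z, hi]
    rwa [e] at this
  obtain ⟨c, hc, hc'⟩ := mem_closure_iff.1 hzC _ (h1 a (hJ ha)).1 h4
  have h5 := (hz (S ⟨c, hc'⟩) (hS _) a ha (fun h => ha' (mem_iUnion.2 ⟨_, h⟩))).1
  rw [hSc] at h5
  exact Set.disjoint_left.1 (h1 a (hJ ha)).2.1 h5 hc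

lemma dep {κ K : Type} [TopologicalSpace K] [T2Space K]
    (φ : (κ → ℝ) → K) (hφ : Continuous φ) [DecidableEq κ] (x y : κ → ℝ)
    (h : ∀ a, (∃ x t, φ x ≠ φ (update x a t)) → x a = y a) : φ x = φ y := by
  classical
  have h1 : ∀ G : Finset κ, φ (G.piecewise y x) = φ x := by
    intro G
    induction G using Finset.induction_on with
    | empty => simp
    | insert a G ha ih =>
      rw [Finset.piecewise_insert, ← ih]
      by_contra hne
      have e := h a ⟨_, _, Ne.symm hne⟩
      apply hne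
      congr 1
      funext i
      by_cases hi : i = a
      · subst hi
        simp [Finset.piecewise, ha, e]
      · simp [hi]
  have h2 : y ∈ closure (φ ⁻¹' {φ x}) := by
    rw [mem_closure_iff]
    intro U hU hyU
    obtain ⟨G, u, hu, hsub⟩ := isOpen_pi_iff.1 hU _ hyU
    refine ⟨G.piecewise y x, hsub fun i hi => ?_, h1 G⟩
    rw [Finset.piecewise_eq_of_mem _ _ _ hi]
    exact (hu i hi).2
  rw [(isClosed_singleton.preimage hφ).closure_eq] at h2
  exact h2.symm

/-- For every index set κ and every compact Hausdorff space K of countable tightness, the image of any continuous map from the product space ℝ^κ into K has a countable network, i.e. is cosmic. -/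
theorem result :
    ∀ (κ : Type) (K : Type) [TopologicalSpace K] [CompactSpace K] [T2Space K],
      (∀ (A : Set K) (x : K), x ∈ closure A →
          ∃ C : Set K, C ⊆ A ∧ C.Countable ∧ x ∈ closure C) →
      ∀ φ : (κ → ℝ) → K, Continuous φ →
        ∃ 𝒩 : Set (Set K), 𝒩.Countable ∧ (∀ N ∈ 𝒩, N ⊆ Set.range φ) ∧
          ∀ x ∈ Set.range φ, ∀ U : Set K, IsOpen U → x ∈ U →
            ∃ N ∈ 𝒩, x ∈ N ∧ N ⊆ U := by
  classical
  intro κ K _ _ _ hK φ hφ
  have hE := ess_countable hK φ hφ
  set E := {a : κ | ∃ x t, φ x ≠ φ (update x a t)} with hEd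
  have : Countable E := hE
  let ext : (E → ℝ) → κ → ℝ := fun u i => if h : i ∈ E then u ⟨i, h⟩ else 0
  have hext : Continuous ext := by
    refine continuous_pi fun i => ?_
    by_cases h : i ∈ E
    · simp only [ext, dif_pos h]
      exact continuous_apply _
    · simp only [ext, dif_neg h]
      exact continuous_const
  refine ⟨(fun B => (φ ∘ ext) '' B) '' TopologicalSpace.countableBasis (E → ℝ),
    (TopologicalSpace.countable_countableBasis _).image _, ?_, ?_⟩
  · rintro _ ⟨B, -, rfl⟩ _ ⟨u, -, rfl⟩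
    exact ⟨_, rfl⟩
  · rintro _ ⟨x, rfl⟩ U hU hx
    have e : φ (ext fun i => x i) = φ x := by
      refine dep φ hφ _ _ fun a ha => ?_
      have ha' : a ∈ E := ha
      simp only [ext, dif_pos ha']
    obtain ⟨B, hB, h1, h2⟩ := (TopologicalSpace.isBasis_countableBasis (E → ℝ)).exists_subset_of_mem_open
      (a := fun i => x i) (u := (φ ∘ ext) ⁻¹' U) (by simpa [e] using hx) (hU.preimage (hφ.comp hext))
    exact ⟨_, ⟨B, hB, rfl⟩, ⟨_, h1, e⟩, image_subset_iff.2 h2⟩

end Pool.Agent.S14175
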