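import Pool.Statements.S14180
-- import your own Pool.Agent.* helpers here

set_option autoImplicit false
open Topology Pointwise
open Pool Pool.MP_ede847_gt

namespace Pool.Agent.S14180

open Set Filter symmDiff

def NN : Set ℝ := range (Nat.cast : ℕ → ℝ)

def Al (B : Set ℝ) : Prop := (B ∆ NN).Finite

lemma Al.trans {B C : Set ℝ} (hB : Al B) (h : (C ∆ B).Finite) : Al C :=
  (h.union hB).subset (symmDiff_triangle C B NN)

lemma Al.dif {B C : Set ℝ} (hB : Al B) (hC : Al C) : (B ∆ C).Finite := by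
  refine (hB.union hC).subset ?_
  have := symmDiff_triangle B NN C
  rwa [symmDiff_comm NN C] at this

lemma alN : Al NN := by simp [Al]

lemma img (g : Equiv.Perm ℝ) {B C : Set ℝ} (h : (B ∆ C).Finite) : ((g '' B) ∆ (g '' C)).Finite := by
  rw [← image_symmDiff g.injective]
  exact h.image g

def GG : Subgroup (Equiv.Perm ℝ) where
  carrier := {g | Al (g '' NN)}
  one_mem' := by simpa using alN
  mul_mem' := by
    intro a b ha hb
    show Al ((a * b) '' NN)
    rw [Equiv.Perm.coe_mul, image_comp]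
    exact Al.trans ha (img a hb)
  inv_mem' := by
    intro a ha
    have := img a⁻¹ ha
    rw [← image_comp, symmDiff_comm] at this
    simpa [Al] using this

lemma Al.act {B : Set ℝ} (hB : Al B) (g : GG) : Al ((g : Equiv.Perm ℝ) '' B) :=
  Al.trans g.2 (img _ hB)

lemma Al.union {B C : Set ℝ} (hB : Al B) (hC : Al C) : Al (B ∪ C) := by
  refine (Set.Finite.union hB hC).subset fun x => ?_
  simp only [mem_symmDiff, mem_union]
  tauto

lemma Al.inter {B C : Set ℝ} (hB : Al B) (hC : Al C) : Al (B ∩ C) := by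
  refine (Set.Finite.union hB hC).subset fun x => ?_
  simp only [mem_symmDiff, mem_union, mem_inter_iff]
  tauto

def SS (B C : Set ℝ) : Set GG := {g | (g : Equiv.Perm ℝ) '' B ⊆ C}

instance : TopologicalSpace GG :=
  TopologicalSpace.generateFrom {s | ∃ B C, Al B ∧ s = SS B C}

lemma SS_open {B : Set ℝ} (hB : Al B) (C : Set ℝ) : IsOpen (SS B C) :=
  TopologicalSpace.isOpen_generateFrom_of_mem ⟨B, C, hB, rfl⟩

instance : ContinuousMul GG := by
  refine ⟨continuous_generateFrom_iff.2 ?_⟩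
  rintro _ ⟨B, C, hB, rfl⟩
  refine isOpen_iff_forall_mem_open.2 fun p hp => ?_
  refine ⟨SS ((p.2 : Equiv.Perm ℝ) '' B) C ×ˢ SS B ((p.2 : Equiv.Perm ℝ) '' B), ?_,
    (SS_open (hB.act p.2) C).prod (SS_open hB _), ?_, Subset.rfl⟩
  · rintro q ⟨h1, h2⟩
    show ((q.1 * q.2 : GG) : Equiv.Perm ℝ) '' B ⊆ C
    rw [Subgroup.coe_mul, Equiv.Perm.coe_mul, image_comp]
    exact (image_mono h2).trans h1
  · have : ((p.1 * p.2 : GG) : Equiv.Perm ℝ) '' B ⊆ C := hp
    rwa [Subgroup.coe_mul, Equiv.Perm.coe_mul, image_comp] at this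

lemma nhds_one (U : Set GG) (hU : U ∈ 𝓝 (1 : GG)) : ∃ B D, Al B ∧ Al D ∧ SS B D ⊆ U := by
  let F : Filter GG :=
    { sets := {U | ∃ B D, Al B ∧ Al D ∧ SS B D ⊆ U}
      univ_sets := ⟨NN, NN, alN, alN, subset_univ _⟩
      sets_of_superset := by
        rintro s t ⟨B, D, h1, h2, h3⟩ h
        exact ⟨B, D, h1, h2, h3.trans h⟩
      inter_sets := by
        rintro s t ⟨B, D, h1, h2, h3⟩ ⟨B', D', k1, k2, k3⟩
        refine ⟨B ∪ B', D ∩ D', h1.union k1, h2.inter k2, fun g hg => ⟨h3 ?_, k3 ?_⟩⟩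
        · exact ((image_mono subset_union_left).trans hg).trans inter_subset_left
        · exact ((image_mono subset_union_right).trans hg).trans inter_subset_right }
  have : F ≤ 𝓝 1 := by
    rw [TopologicalSpace.nhds_generateFrom]
    refine le_iInf₂ ?_
    rintro _ ⟨h1, B, C, hB, rfl⟩
    rw [le_principal_iff]
    refine ⟨B, B, hB, hB, fun g hg => Subset.trans hg ?_⟩
    simpa [SS] using h1
  exact this hU

lemma NN_c : NN.Countable := countable_range _
lemma NN_i : NN.Infinite := infinite_range_of_injective Nat.cast_injective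

lemma Al.countable {B : Set ℝ} (hB : Al B) : B.Countable := by
  refine (NN_c.union (Set.Finite.countable hB)).mono fun x => ?_
  simp only [mem_symmDiff, mem_union]
  tauto

lemma Al.infinite {B : Set ℝ} (hB : Al B) : B.Infinite := by
  intro h
  refine NN_i ((h.union hB).subset fun x => ?_)
  simp only [mem_symmDiff, mem_union]
  tauto

lemma trans_act {B C : Set ℝ} (hB : Al B) (hC : Al C) :
    ∃ g : GG, (g : Equiv.Perm ℝ) '' B = C := by
  have := hB.countable.to_subtype
  have := hC.countable.to_subtype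
  have := hB.infinite.to_subtype
  have := hC.infinite.to_subtype
  obtain ⟨e⟩ : Nonempty (B ≃ C) := nonempty_equiv_of_countable
  obtain ⟨g, hg⟩ := Cardinal.extend_function_of_lt (e.toEmbedding.trans (Function.Embedding.subtype _))
    (by
      rw [Cardinal.mk_real]
      exact lt_of_le_of_lt Cardinal.mk_le_aleph0 Cardinal.aleph0_lt_continuum) ⟨Equiv.refl ℝ⟩
  have hBC : g '' B = C := by
    ext y
    constructor
    · rintro ⟨x, hx, rfl⟩
      rw [hg ⟨x, hx⟩]
      exact (e ⟨x, hx⟩).2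
    · intro hy
      refine ⟨e.symm ⟨y, hy⟩, (e.symm ⟨y, hy⟩).2, ?_⟩
      rw [hg]
      simp
  refine ⟨⟨g, ?_⟩, hBC⟩
  exact Al.trans hC (hBC ▸ img g (alN.dif hB))

theorem result :
    ¬ (∀ (G : Type) [Group G] [TopologicalSpace G] [ContinuousMul G],
      (∀ U ∈ 𝓝 (1 : G), ∃ F : Set G, F.Countable ∧ U * F = Set.univ) →
      (∀ U ∈ 𝓝 (1 : G), ∃ F : Set G, F.Countable ∧ F * U = Set.univ)) := by
  intro h
  have h1 := h GG (by
    intro U hU
    obtain ⟨B, D, hB, hD, hsub⟩ := nhds_one U hU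
    have hA : ∀ s : Finset ℕ, Al (NN \ (Nat.cast '' (s : Set ℕ))) := by
      intro s
      refine (s.finite_toSet.image (Nat.cast : ℕ → ℝ)).subset fun x => ?_
      simp only [mem_symmDiff, Set.mem_sdiff]
      tauto
    choose p hp using fun s : Finset ℕ => trans_act hB (hA s)
    refine ⟨range fun s => (p s)⁻¹, countable_range _, eq_univ_of_forall fun g => ?_⟩
    have hg := hD.act g⁻¹
    have hfin : {n : ℕ | (n : ℝ) ∉ ((g⁻¹ : GG) : Equiv.Perm ℝ) '' D}.Finite := by
      refine (Set.Finite.preimage (Nat.cast_injective (R := ℝ)).injOn hg).subset fun n hn => ?_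
      exact Or.inr ⟨⟨n, rfl⟩, hn⟩
    refine ⟨g * p hfin.toFinset, hsub ?_, _, ⟨hfin.toFinset, rfl⟩, by simp⟩
    show ((g * p hfin.toFinset : GG) : Equiv.Perm ℝ) '' B ⊆ D
    rw [Subgroup.coe_mul, Equiv.Perm.coe_mul, image_comp, hp]
    rintro _ ⟨_, ⟨⟨n, rfl⟩, hn⟩, rfl⟩
    by_contra hc
    refine hn ⟨n, ?_, rfl⟩
    simp only [Finite.coe_toFinset, mem_ofPred_eq]
    rintro ⟨y, hy, e⟩
    apply hc
    rw [← e]
    simpa using hy) (SS NN NN) ((SS_open alN NN).mem_nhds (by simp [SS]))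
  obtain ⟨F, hF, hFU⟩ := h1
  have hc : (⋃ f ∈ F, (f : Equiv.Perm ℝ) '' NN).Countable := hF.biUnion fun f _ => NN_c.image _
  obtain ⟨x, hx⟩ : ∃ x, x ∉ ⋃ f ∈ F, (f : Equiv.Perm ℝ) '' NN := by
    by_contra hh
    push Not at hh
    exact Cardinal.not_countable_real (hc.mono fun x _ => hh x)
  have hA : Al (insert x NN) := by
    refine (finite_singleton x).subset fun y => ?_
    simp only [mem_symmDiff, mem_insert_iff, mem_singleton_iff]
    tauto
  obtain ⟨g, hg⟩ := trans_act alN hA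
  obtain ⟨f, hf, u, hu, e⟩ : g ∈ F * SS NN NN := hFU ▸ mem_univ g
  refine hx (mem_biUnion hf ?_)
  have h2 : x ∈ (g : Equiv.Perm ℝ) '' NN := hg ▸ mem_insert x NN
  rw [← e] at h2
  have h3 : x ∈ ((f * u : GG) : Equiv.Perm ℝ) '' NN := h2
  rw [Subgroup.coe_mul, Equiv.Perm.coe_mul, image_comp] at h3
  exact image_mono hu h3

end Pool.Agent.S14180
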