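import Pool.Statements.S14230
-- import your own Pool.Agent.* helpers here

set_option autoImplicit false
open Pool Pool.MP_f54e59_gt

namespace Pool.Agent.S14230

open Set Topology Filter
open Cardinal hiding univ

def TT : ℕ → Type
  | 0 => ℕ
  | n + 1 => Set (TT n)

def lam (n : ℕ) : Cardinal.{0} := #(TT n)

lemma lam_lt (n : ℕ) : lam n < lam (n + 1) := by
  show #(TT n) < #(Set (TT n))
  rw [mk_set]
  exact cantor _

lemma lam_mono : Monotone lam := monotone_nat_of_le_succ fun n => (lam_lt n).le

lemma lam_inf (n : ℕ) : ℵ₀ ≤ lam n := by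
  refine le_trans ?_ (lam_mono (Nat.zero_le n))
  show ℵ₀ ≤ #ℕ
  simp

def XX (n : ℕ) : Type := TT (n + 1)
abbrev SS (n : ℕ) : Type := Option (XX n)

lemma mkX (n : ℕ) : #(XX n) = lam (n + 1) := rfl

lemma un_small {A : Type} {n : ℕ} {s t : Set A} (hs : #s ≤ lam n) (ht : #t ≤ lam n) :
    #(s ∪ t : Set A) ≤ lam n :=
  (mk_union_le s t).trans ((add_le_add hs ht).trans (add_eq_self (lam_inf n)).le)

/-- closed sets: everything, or small sets inside a fixed set -/
@[reducible] def top (A : Type) (n : ℕ) (P : Set A) : TopologicalSpace A :=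
  TopologicalSpace.ofClosed {C | C = univ ∨ (C ⊆ P ∧ #C ≤ lam n)} (Or.inr ⟨empty_subset _, by simp⟩)
    (by
      intro F hF
      by_cases h : ∃ C ∈ F, C ⊆ P ∧ #C ≤ lam n
      · obtain ⟨C, hC, h1, h2⟩ := h
        exact Or.inr ⟨(sInter_subset_of_mem hC).trans h1,
          (mk_le_mk_of_subset (sInter_subset_of_mem hC)).trans h2⟩
      · refine Or.inl (sInter_eq_univ.2 fun C hC => ?_)
        exact (hF hC).resolve_right fun h' => h ⟨C, hC, h'⟩)
    (by
      rintro s (rfl | hs) t ht
      · exact Or.inl (univ_union _)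
      · rcases ht with rfl | ht
        · exact Or.inl (union_univ _)
        · exact Or.inr ⟨union_subset hs.1 ht.1, un_small hs.2 ht.2⟩)

lemma top_closed (A : Type) (n : ℕ) (P C : Set A) :
    @IsClosed A (top A n P) C ↔ C = univ ∨ (C ⊆ P ∧ #C ≤ lam n) := by
  rw [← @isOpen_compl_iff A C (top A n P)]
  show Cᶜᶜ ∈ {C | C = univ ∨ (C ⊆ P ∧ #C ≤ lam n)} ↔ _
  rw [compl_compl]
  rfl

instance (n : ℕ) : TopologicalSpace (XX n) := top _ n univ
instance (n : ℕ) : TopologicalSpace (SS n) := top _ n {o | o ≠ none}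

lemma clX {n : ℕ} (C : Set (XX n)) : IsClosed C ↔ C = univ ∨ #C ≤ lam n := by
  rw [top_closed]
  simp

lemma clS {n : ℕ} (C : Set (SS n)) : IsClosed C ↔ C = univ ∨ (C ⊆ {o | o ≠ none} ∧ #C ≤ lam n) :=
  top_closed _ _ _ _

lemma not_small {n : ℕ} (C : Set (XX n)) (h : #C ≤ lam n) : ∃ x, x ∉ C := by
  by_contra hh
  push Not at hh
  rw [eq_univ_of_forall hh, mk_univ, mkX] at h
  exact absurd h (not_le.2 (lam_lt n))

lemma one_small (n : ℕ) : 1 ≤ lam n := one_le_aleph0.trans (lam_inf n)

instance (n : ℕ) : T1Space (XX n) :=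
  ⟨fun x => (clX _).2 (Or.inr (by rw [mk_singleton]; exact one_small n))⟩

lemma irrX (n : ℕ) : IsIrreducible (univ : Set (XX n)) := by
  refine ⟨?_, isPreirreducible_iff_isClosed_union_isClosed.2 fun s t hs ht h => ?_⟩
  · obtain ⟨x, -⟩ := not_small (n := n) ∅ (by simp)
    exact ⟨x, trivial⟩
  · rcases (clX s).1 hs with rfl | hs
    · exact Or.inl Subset.rfl
    rcases (clX t).1 ht with rfl | ht
    · exact Or.inr Subset.rfl
    obtain ⟨x, hx⟩ := not_small _ (un_small hs ht)
    exact absurd (h trivial) hx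

lemma cl_some {n : ℕ} (a : XX n) : IsClosed ({some a} : Set (SS n)) :=
  (clS _).2 (Or.inr ⟨by rintro _ rfl; exact Option.some_ne_none a,
    by rw [mk_singleton]; exact one_small n⟩)

instance (n : ℕ) : T0Space (SS n) := by
  refine ⟨fun x y h => ?_⟩
  rcases x with _ | a
  · rcases y with _ | b
    · rfl
    · exact (h.mem_closed_iff (cl_some b)).2 rfl
  · exact ((h.mem_closed_iff (cl_some a)).1 rfl).symm

lemma some_cont (n : ℕ) : Continuous (some : XX n → SS n) := by
  refine continuous_iff_isClosed.2 fun s hs => (clX _).2 ?_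
  rcases (clS s).1 hs with rfl | hs
  · exact Or.inl rfl
  · exact Or.inr ((mk_preimage_of_injective _ _ (Option.some_injective _)).trans hs.2)

abbrev YY : Type := {y : ∀ i, SS i // {i | y i = none}.Finite}

lemma key {i j : ℕ} (g : XX j → SS i) (hg : Continuous g) (hn : ¬ ∃ a, ∀ x, g x = some a)
    (C : Set (SS i)) (h1 : C ⊆ {o | o ≠ none}) (h2 : #C ≤ lam i) : #(g ⁻¹' C) ≤ lam j := by
  have hcl : ∀ D ⊆ C, IsClosed (g ⁻¹' D) := fun D hD =>
    ((clS D).2 (Or.inr ⟨hD.trans h1, (mk_le_mk_of_subset hD).trans h2⟩)).preimage hg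
  refine ((clX _).1 (hcl C Subset.rfl)).resolve_left fun hu => ?_
  obtain ⟨x0, -⟩ := (irrX j).nonempty
  have hall : ∀ x, g x ∈ C := fun x => (hu ▸ mem_univ x : x ∈ g ⁻¹' C)
  rcases isPreirreducible_iff_isClosed_union_isClosed.1 (irrX j).2 _ _
    (hcl {g x0} (singleton_subset_iff.2 (hall x0))) (hcl (C \ {g x0}) sdiff_subset)
    (fun x _ => by
      by_cases h : g x = g x0
      · exact Or.inl h
      · exact Or.inr ⟨hall x, h⟩) with h | h
  · obtain ⟨a, ha⟩ := Option.ne_none_iff_exists'.1 (h1 (hall x0))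
    exact hn ⟨a, fun x => (h (mem_univ x)).trans ha⟩
  · exact (h (mem_univ x0)).2 rfl

lemma gen (j : ℕ) (f : XX j → YY) (hf : Continuous f) :
    ∃ y, closure (f '' univ) = closure {y} := by
  classical
  have hfi : ∀ i, Continuous fun x => (f x).1 i := fun i =>
    (continuous_apply i).comp (continuous_subtype_val.comp hf)
  let y : ∀ i, SS i := fun i => if h : ∃ a, ∀ x, (f x).1 i = some a then some h.choose else none
  have hy : ∀ i, (∀ x, (f x).1 i = y i) ∨ (y i = none ∧ ¬ ∃ a, ∀ x, (f x).1 i = some a) := by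
    intro i
    by_cases h : ∃ a, ∀ x, (f x).1 i = some a
    · left
      simp only [y, dif_pos h]
      exact h.choose_spec
    · right
      exact ⟨dif_neg h, h⟩
  have hfin : {i | y i = none}.Finite := by
    let B : ℕ → Set (XX j) := fun i => {x | j < i ∧ y i = none ∧ (f x).1 i ≠ none}
    have hB : ∀ i, #(B i) ≤ lam j := by
      intro i
      by_cases h : j < i ∧ y i = none
      · rcases hy i with h1 | h1
        · have : B i = ∅ := eq_empty_of_forall_notMem fun x hx => hx.2.2 ((h1 x).trans h.2)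
          rw [this]
          simp
        · refine le_trans (mk_le_mk_of_subset ?_) (key _ (hfi i) h1.2
            (range (fun x => (f x).1 i) ∩ {o | o ≠ none}) inter_subset_right ?_)
          · exact fun x hx => ⟨⟨x, rfl⟩, hx.2.2⟩
          · exact (mk_le_mk_of_subset inter_subset_left).trans (mk_range_le.trans (lam_mono h.1))
      · have : B i = ∅ := eq_empty_of_forall_notMem fun x hx => h ⟨hx.1, hx.2.1⟩
        rw [this]
        simp
    have hU : #(⋃ i, B i) ≤ lam j := by
      refine (mk_iUnion_le B).trans ?_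
      exact (mul_le_mul' (mk_le_aleph0.trans (lam_inf j)) (ciSup_le' hB)).trans
        (mul_eq_self (lam_inf j)).le
    obtain ⟨x, hx⟩ := not_small _ hU
    refine ((f x).2.union (finite_Iic j)).subset fun i hi => ?_
    by_contra hh
    rw [mem_union, not_or] at hh
    exact hx (mem_iUnion.2 ⟨i, not_le.1 hh.2, hi, hh.1⟩)
  refine ⟨⟨y, hfin⟩, subset_antisymm (closure_minimal ?_ isClosed_closure)
    (closure_minimal (singleton_subset_iff.2 ?_) isClosed_closure)⟩
  · rintro _ ⟨x, -, rfl⟩
    rw [← specializes_iff_mem_closure, subtype_specializes_iff, specializes_pi]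
    intro i
    rcases hy i with h | h
    · exact (h x).symm ▸ specializes_rfl
    · refine specializes_iff_forall_closed.2 fun s hs hys => ?_
      rcases (clS s).1 hs with rfl | hs
      · trivial
      · exact absurd h.1 (hs.1 hys)
  · let F : Filter (XX j) :=
      { sets := {s | #(sᶜ : Set (XX j)) ≤ lam j}
        univ_sets := by simp
        sets_of_superset := fun {s t} h1 h2 => by
          have h3 : #(sᶜ : Set (XX j)) ≤ lam j := h1
          show #(tᶜ : Set (XX j)) ≤ lam j
          exact le_trans (mk_le_mk_of_subset (compl_subset_compl.2 h2)) h3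
        inter_sets := fun {s t} h1 h2 => by
          show #((s ∩ t)ᶜ : Set (XX j)) ≤ lam j
          rw [compl_inter]
          exact un_small h1 h2 }
    have : F.NeBot := by
      refine forall_mem_nonempty_iff_neBot.1 fun s hs => ?_
      obtain ⟨x, hx⟩ := not_small _ hs
      exact ⟨x, not_not.1 hx⟩
    refine mem_closure_of_tendsto (f := f) (b := F) ?_ (Eventually.of_forall fun x => ⟨x, trivial, rfl⟩)
    rw [tendsto_subtype_rng, tendsto_pi_nhds]
    intro i
    rcases hy i with h | h
    · simp only [h]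
      exact tendsto_const_nhds
    · refine tendsto_nhds.2 fun s hs hys => ?_
      rcases (clS _).1 hs.isClosed_compl with h1 | h1
      · exact absurd hys (h1 ▸ mem_univ (y i) : y i ∈ sᶜ)
      · exact key _ (hfi i) h.2 sᶜ h1.1 h1.2

lemma uniq {Y : Type} [TopologicalSpace Y] [T0Space Y] {S : Set Y}
    (h : ∃ y, S = closure {y}) : ∃! y, S = closure {y} := by
  obtain ⟨y, hy⟩ := h
  exact ⟨y, hy, fun z hz => (isGenericPoint_def.2 hz.symm).eq (isGenericPoint_def.2 hy.symm)⟩

theorem result :
    ¬ (∀ K : (∀ (Y : Type) [TopologicalSpace Y], Prop),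
      (∀ (Y : Type) [TopologicalSpace Y], K Y → T0Space Y) →
      (∀ (Y : Type) [TopologicalSpace Y], T0Space Y → QuasiSober Y → K Y) →
      ∀ (I : Type) (X : I → Type) [∀ i, TopologicalSpace (X i)],
        (∀ i, T0Space (X i) ∧ ∀ A : Set (X i), IsIrreducible A → IsClosed A →
          ∀ (Y : Type) [TopologicalSpace Y], K Y → ∀ f : X i → Y, Continuous f →
            ∃! y : Y, closure (f '' A) = closure {y}) →
        ∀ A : Set (∀ i, X i), IsIrreducible A → IsClosed A →
          ∀ (Y : Type) [TopologicalSpace Y], K Y → ∀ f : (∀ i, X i) → Y, Continuous f →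
            ∃! y : Y, closure (f '' A) = closure {y}) := by
  intro h
  have h1 := h (fun Y _ => T0Space Y ∧ ∀ j, ∀ f : XX j → Y, Continuous f →
      ∃ y, closure (f '' univ) = closure {y}) (fun Y _ hY => hY.1) (by
      intro Y _ h0 hs
      refine ⟨h0, fun j f hf => ⟨_, (((irrX j).image f
        hf.continuousOn).isGenericPoint_genericPoint_closure).def.symm⟩⟩) ℕ XX (by
      intro i
      refine ⟨inferInstance, fun A hA hAc Y _ hY f hf => ?_⟩
      have := hY.1
      refine uniq ?_
      rcases (clX A).1 hAc with rfl | hs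
      · exact hY.2 i f hf
      · obtain ⟨a, ha⟩ := hA.nonempty
        have : A = {a} := by
          rcases isPreirreducible_iff_isClosed_union_isClosed.1 hA.2 {a} (A \ {a})
            isClosed_singleton ((clX _).2 (Or.inr ((mk_le_mk_of_subset sdiff_subset).trans hs)))
            (fun x hx => by
              by_cases h : x = a
              · exact Or.inl h
              · exact Or.inr ⟨hx, h⟩) with h | h
          · exact subset_antisymm h (singleton_subset_iff.2 ha)
          · exact absurd rfl (h ha).2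
        exact ⟨f a, by rw [this, image_singleton]⟩) univ (by
      classical
      refine ⟨⟨fun i => (irrX i).nonempty.choose, trivial⟩, ?_⟩
      rintro u v hu hv ⟨x, -, hx⟩ ⟨z, -, hz⟩
      obtain ⟨I, a, ha, hau⟩ := isOpen_pi_iff.1 hu x hx
      obtain ⟨J, b, hb, hbv⟩ := isOpen_pi_iff.1 hv z hz
      have : ∀ i, ∃ w : XX i, (i ∈ I → w ∈ a i) ∧ (i ∈ J → w ∈ b i) := by
        intro i
        by_cases h1 : i ∈ I
        · by_cases h2 : i ∈ J
          · obtain ⟨w, -, hw⟩ := (irrX i).2 (a i) (b i) (ha i h1).1 (hb i h2).1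
              ⟨_, trivial, (ha i h1).2⟩ ⟨_, trivial, (hb i h2).2⟩
            exact ⟨w, fun _ => hw.1, fun _ => hw.2⟩
          · exact ⟨x i, fun _ => (ha i h1).2, fun h => absurd h h2⟩
        · exact ⟨z i, fun h => absurd h h1, fun h => (hb i h).2⟩
      choose w hw using this
      exact ⟨w, trivial, hau fun i hi => (hw i).1 hi, hbv fun i hi => (hw i).2 hi⟩)
    isClosed_univ YY ⟨inferInstance, gen⟩
    (fun x => ⟨fun i => some (x i), by simp⟩)
    (Continuous.subtype_mk (continuous_pi fun i => (some_cont i).comp (continuous_apply i))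
      fun x => by simp)
  obtain ⟨y, hy, -⟩ := h1
  obtain ⟨i, hi⟩ := infinite_univ.exists_notMem_finite y.2
  obtain ⟨a, ha⟩ := Option.ne_none_iff_exists'.1 hi.2
  obtain ⟨b, hb⟩ := not_small ({a} : Set (XX i)) (by rw [mk_singleton]; exact one_small i)
  classical
  let x : ∀ k, XX k := Function.update (fun k => (irrX k).nonempty.choose) i b
  have hc : IsClosed {z : YY | z.1 i = some a} :=
    (cl_some a).preimage ((continuous_apply i).comp continuous_subtype_val)
  have h2 := closure_minimal (singleton_subset_iff.2 (show y ∈ {z : YY | z.1 i = some a} from ha)) hc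
  rw [← hy] at h2
  have h3 : (some (x i) : SS i) = some a := h2 (subset_closure ⟨x, trivial, rfl⟩)
  apply hb
  have h4 : x i = a := Option.some_injective _ h3
  simpa [x] using h4

end Pool.Agent.S14230
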