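import Pool.Statements.S14235

set_option autoImplicit false
open Pool Pool.MP_f5ae99_gt

namespace Pool.Agent.S14235

open Set Filter Topology TopologicalSpace Metric BoundedContinuousFunction Real

theorem ku {E S : Type} [AddGroup E] [TopologicalSpace E] [IsTopologicalAddGroup E] [BaireSpace E]
    [TopologicalSpace S] [BaireSpace S] [SeparableSpace S] [Nonempty S] {Φ : S → E}
    (h : Continuous Φ) {Z : ℕ → Set E} (hZ : ∀ g, ∃ n, g ∈ Z n) : ∃ f n s, f + Φ s ∈ interior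
      (closure (Z n)) ∧ s ∈ interior (closure {s | f + Φ s ∈ Z n}) := by
  obtain ⟨f, hf⟩ := (dense_iInter_of_isOpen (f := fun c : ℕ × ℕ => (· + Φ (denseSeq S c.1)) ⁻¹'
    (frontier (closure (Z c.2)))ᶜ) (fun c => isClosed_frontier.isOpen_compl.preimage (by fun_prop))
      fun c => (interior_eq_empty_iff_dense_compl.1 (interior_frontier isClosed_closure)).preimage
        (Homeomorph.addRight _).isOpenMap).nonempty
  obtain ⟨n, hn⟩ := nonempty_interior_of_iUnion_of_closed (f := fun n => closure {s | f + Φ s ∈ Z n ∩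
    interior (closure (Z n))} ∪ (f + Φ ·) ⁻¹' frontier (closure (Z n))) (fun n => isClosed_closure.union
      (isClosed_frontier.preimage (by fun_prop))) (eq_univ_of_forall fun s => (hZ (f + Φ s)).elim
        fun n k => mem_iUnion.2 ⟨n, (em _).imp (fun a => subset_closure ⟨k, a⟩)
          fun a => ⟨subset_closure (subset_closure k), a⟩⟩)
  rw [interior_union_isClosed_of_interior_empty isClosed_closure
    (interior_eq_empty_iff_dense_compl.2 ((denseRange_denseSeq S).mono (range_subset_iff.2 fun m =>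
      mem_iInter.1 hf (m, n))))] at hn
  obtain ⟨s, hs⟩ := hn
  obtain ⟨t, t1, t2⟩ := mem_closure_iff.1 (interior_subset hs) _ isOpen_interior hs
  exact ⟨f, n, t, t2.2, interior_mono (closure_mono fun _ a => a.1) t1⟩

theorem result :
  ∀ (X : Type) [TopologicalSpace X] [T35Space X] (Y : ℕ → Set (X → ℝ)),
    (⋃ n, Y n) = {f : X → ℝ | Continuous f} →
    (∀ n, ∀ A : Set (X → ℝ), A ⊆ Y n → A.Countable →
      ∃ 𝒩 : Set (Set (X → ℝ)), 𝒩.Countable ∧
        ∀ x ∈ closure A ∩ Y n, ∀ U : Set (X → ℝ), IsOpen U → x ∈ U →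
          ∃ N ∈ 𝒩, x ∈ N ∧ N ⊆ U) →
    ∀ A : Set (X → ℝ), A ⊆ {f : X → ℝ | Continuous f} → A.Countable →
      ∃ 𝒩 : Set (Set (X → ℝ)), 𝒩.Countable ∧
        ∀ x ∈ closure A ∩ {f : X → ℝ | Continuous f}, ∀ U : Set (X → ℝ), IsOpen U → x ∈ U →
          ∃ N ∈ 𝒩, x ∈ N ∧ N ⊆ U := by
  intro X _ _ Y hY h A hA hc
  rcases A.eq_empty_or_nonempty with rfl | hn
  · exact ⟨∅, by simp⟩
  obtain ⟨a, rfl⟩ := hc.exists_eq_range hn
  have b : ∀ t, |arctan t| < 2 := fun t => abs_lt.2 ⟨by linarith [neg_pi_div_two_lt_arctan t, pi_le_four],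
    by linarith [arctan_lt_pi_div_two t, pi_le_four]⟩
  let e : C(X, ℕ → Icc (-2 : ℝ) 2) := ⟨fun x n => ⟨arctan (a n x), abs_le.1 (b _).le⟩,
    continuous_pi fun n => (continuous_arctan.comp (hA ⟨n, rfl⟩)).subtype_mk _⟩
  let Ψ : C(ℕ → Icc (-2 : ℝ) 2, ℝ) →+ X → ℝ := .mk' (fun φ x => φ (e x)) fun _ _ => rfl
  let E := Ψ.range.topologicalClosure.comap (coeFnAddMonoidHom : (X →ᵇ ℝ) →+ X → ℝ)
  have : CompleteSpace E := (Ψ.range.isClosed_topologicalClosure.preimage
    continuous_coe).completeSpace_coe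
  let Φ : _ → E := fun φ => ⟨(mkOfCompact φ).compContinuous e, subset_closure ⟨φ, rfl⟩⟩
  have hΦ : Continuous Φ := ((continuous_compContinuous e).comp
    (ContinuousMap.isometryEquivBoundedOfCompact _ _).continuous).subtype_mk _
  have hE : Continuous fun g : E => (g.1 : X → ℝ) := continuous_coe.comp continuous_subtype_val
  obtain ⟨f, n, φ, k1, k2⟩ := ku hΦ (Z := fun n => {g | ⇑g.1 ∈ Y n}) fun g =>
    mem_iUnion (s := Y).1 (hY.ge g.1.continuous)
  obtain ⟨δ, d0, hδ⟩ := nhds_basis_closedBall.mem_iff.1 (prod_mem_nhds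
    (mem_interior_iff_mem_nhds.1 k1) (mem_interior_iff_mem_nhds.1 k2))
  rw [← closedBall_prod_same] at hδ
  obtain ⟨D, D1, D2, D3⟩ := (IsSeparable.of_separableSpace
    {s | f + Φ s ∈ {g : E | ⇑g.1 ∈ Y n}}).exists_countable_dense_subset
  obtain ⟨𝒩, n1, n2⟩ := h n ((fun s => ⇑(f + Φ s).1) '' D) (image_subset_iff.2 D1) (D2.image _)
  have k3 : ∀ g ∈ closedBall (f + Φ φ) δ, ⇑g.1 ∈ closure ((fun s => ⇑(f + Φ s).1) '' D) := by
    intro g hg
    let T : C(ℝ, ℝ) := ⟨fun t => max (-δ) (min δ t), by fun_prop⟩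
    rw [← closure_closure]
    convert map_mem_closure (f := fun u x => (f + Φ φ).1 x + T (u x)) (by fun_prop)
      (g - (f + Φ φ)).2 ?_ using 1
    · ext x
      have := abs_le.1 ((norm_coe_le_norm (g - (f + Φ φ)).1 x).trans (mem_closedBall_iff_norm.1 hg))
      change _ = _ + max _ (min _ ((g - (f + Φ φ)).1 x))
      rw [min_eq_right this.2, max_eq_right this.1]
      simp
    · rintro _ ⟨ψ, rfl⟩
      refine mem_of_eq_of_mem (funext fun x => add_assoc _ _ _) (map_mem_closure (f := fun s =>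
        ⇑(f + Φ s).1) (hE.comp (continuous_const.add hΦ)) (closure_minimal D3 isClosed_closure
        (hδ (a := (_, φ + T.comp ψ)) ⟨mem_closedBall_self d0.le, by
          simp only [mem_closedBall_iff_norm, add_sub_cancel_left]
          exact (ContinuousMap.norm_le _ d0.le).2 fun x => abs_le.2 ⟨le_max_left _ _,
            max_le (by linarith) (min_le_left _ _)⟩⟩).2) (mapsTo_image _ _))
  have d4 : 0 < δ / 4 := by positivity
  let J : (X → ℝ) → X → ℝ := fun u => ⇑(f + Φ φ).1 + (δ / 4) • fun x => arctan (u x)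
  have hJ : IsInducing J := (Homeomorph.addLeft _).isInducing.comp ((Homeomorph.smulOfNeZero _
    d4.ne').isInducing.comp (.piMap fun _ => IsInducing.subtypeVal.comp
      tanOrderIso.symm.toHomeomorph.isInducing))
  refine ⟨range fun c : 𝒩 × ℕ => {x | ∃ u : E, ‖u‖ < 1 / (c.2 + 1) ∧ J x - ⇑u.1 ∈ c.1.1},
    have := n1.to_subtype; countable_range _, fun x hx U u1 u2 => ?_⟩
  obtain ⟨V, v1, rfl⟩ := hJ.isOpen_iff.1 u1
  obtain ⟨W, w1, W', w2, w3⟩ := mem_prod_iff.1 (nhds_prod_eq.ge ((v1.preimage (f := fun c :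
    (X → ℝ) × E => c.1 + ⇑c.2.1) (by fun_prop)).mem_nhds (x := (J x, 0)) (by simpa using u2)))
  obtain ⟨ε, e0, he⟩ := Metric.mem_nhds_iff.1 w2
  obtain ⟨m, hm⟩ := exists_nat_one_div_lt e0
  have b' : ∀ t, ‖δ / 4 * arctan (x t)‖ ≤ δ / 4 * 2 := fun t => by
    rw [norm_mul, norm_of_nonneg d4.le]
    exact mul_le_mul_of_nonneg_left (b _).le d4.le
  let g : E := ⟨ofNormedAddCommGroup (fun t => δ / 4 * arctan (x t)) (continuous_const.mul
    (continuous_arctan.comp hx.2)) (δ / 4 * 2) b', map_mem_closure (f := fun (u : X → ℝ) t =>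
        δ / 4 * arctan (u t)) (t := Ψ.range) (by fun_prop) hx.1 (by
          rintro _ ⟨j, rfl⟩
          exact ⟨⟨fun c => δ / 4 * c j, by fun_prop⟩, rfl⟩)⟩
  have g1 : f + Φ φ + g ∈ ball (f + Φ φ) δ := by
    rw [mem_ball_iff_norm, add_sub_cancel_left]
    exact (norm_ofNormedAddCommGroup_le _ (by positivity) b').trans_lt (by linarith)
  obtain ⟨d, ⟨⟨d1, d2⟩, d3⟩, d5⟩ := mem_closure_iff_nhds.1 (hδ (a := (_, φ)) ⟨ball_subset_closedBall g1,
    mem_closedBall_self d0.le⟩).1 _ (inter_mem (inter_mem (isOpen_ball.mem_nhds g1)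
      (ball_mem_nhds _ (Nat.one_div_pos_of_nat (n := m)))) (hE.continuousAt (interior_mem_nhds.2 w1)))
  obtain ⟨N, m1, m2, m3⟩ := n2 _ ⟨k3 d (ball_subset_closedBall d1), d5⟩ _ isOpen_interior d3
  refine ⟨_, ⟨(⟨N, m1⟩, m), rfl⟩, ⟨f + Φ φ + g - d, mem_ball_iff_norm'.1 d2, mem_of_eq_of_mem
    (sub_sub_cancel (J x) _) m2⟩, fun y ⟨u, a1, a2⟩ => ?_⟩
  simpa using w3 (mk_mem_prod (interior_subset (m3 a2)) (he (mem_ball_zero_iff.2 (a1.trans hm))))

end Pool.Agent.S14235
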