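import Pool.Statements.S14237
import Pool.Agent.H.MP_dacbbd.A

set_option autoImplicit false
open Pool Pool.MP_f624f5_gt

namespace Pool.Agent.S14237

theorem result :
    ∀ (X : Type) [TopologicalSpace X] [T2Space X] [CompactSpace X],
      (∀ F : Set (Set X), (∀ U ∈ F, IsOpen U ∧ U.Nonempty) → F.PairwiseDisjoint id → F.Countable) →
      (∃ O : Set X → Set (Set X),
        (∀ A : Set X, Cardinal.mk ↥(O A) ≤ max (Cardinal.mk ↥A) Cardinal.aleph0) ∧
        (∀ A : Set X, ∀ x ∈ closure A, ∀ U : Set X, IsOpen U → x ∈ U →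
            ∃ N ∈ O A, x ∈ N ∧ N ⊆ U) ∧
        (∀ A B : Set X, A ⊆ B → O A ⊆ O B) ∧
        (∀ (ι : Type) [LinearOrder ι] [WellFoundedLT ι] (A : ι → Set X),
            Monotone A → O (⋃ i, A i) = ⋃ i, O (A i))) →
      TopologicalSpace.MetrizableSpace X := by
  rintro X _ _ _ hc ⟨O, h1, h2, -, h3⟩
  have k : ∀ A : Set X, A.Countable → (O A).Countable := fun A hA =>
    Cardinal.le_aleph0_iff_set_countable.1 ((h1 A).trans (max_le
      (Cardinal.le_aleph0_iff_set_countable.2 hA) le_rfl))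
  obtain ⟨D, σ, d1, d2⟩ := Pool.Agent.H.MP_dacbbd.play (O := O) (fun A hA => k A hA.countable) h2
    fun A hA => (h3 ℕ A hA).le
  obtain ⟨A, a1, a2⟩ := Pool.Agent.H.MP_dacbbd.sep d1 d2 hc
  exact Pool.Agent.H.MP_dacbbd.nwm (k A a1) fun x => h2 A x (a2 x)

end Pool.Agent.S14237
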