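import Pool.Statements.S14244
import Pool.Agent.H.MP_f6b738_gt.Main

set_option autoImplicit false
open MeasureTheory Pointwise
open Pool Pool.MP_f6b738_gt

namespace Pool.Agent.S14244

theorem result :
    ¬ (∀ (n i k : ℕ), 1 ≤ i → i ≤ k → k ≤ n - 1 →
  ∀ K₁ K₂ : Set (EuclideanSpace ℝ (Fin n)),
    IsCompact K₁ → Convex ℝ K₁ → IsCompact K₂ → Convex ℝ K₂ →
    (∀ u ∈ Metric.sphere (0 : EuclideanSpace ℝ (Fin n)) 1,
      ∃ p q : Polynomial ℝ,
        (∀ ε : ℝ, 0 ≤ ε → p.eval ε =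
          (volume (((Submodule.orthogonal (Submodule.span ℝ {u})).starProjection '' K₁)
            + Metric.closedBall (0 : EuclideanSpace ℝ (Fin n)) ε)).toReal) ∧
        (∀ ε : ℝ, 0 ≤ ε → q.eval ε =
          (volume (((Submodule.orthogonal (Submodule.span ℝ {u})).starProjection '' K₂)
            + Metric.closedBall (0 : EuclideanSpace ℝ (Fin n)) ε)).toReal) ∧
        p.coeff (n - i) = q.coeff (n - i)) →
    ∀ S : Submodule ℝ (EuclideanSpace ℝ (Fin n)), Module.finrank ℝ S = k →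
      ∃ p q : Polynomial ℝ,
        (∀ ε : ℝ, 0 ≤ ε → p.eval ε =
          (volume ((S.starProjection '' K₁)
            + Metric.closedBall (0 : EuclideanSpace ℝ (Fin n)) ε)).toReal) ∧
        (∀ ε : ℝ, 0 ≤ ε → q.eval ε =
          (volume ((S.starProjection '' K₂)
            + Metric.closedBall (0 : EuclideanSpace ℝ (Fin n)) ε)).toReal) ∧
        p.coeff (n - i) = q.coeff (n - i)) := by
  intro h
  obtain ⟨K₁, K₂, c1, v1, c2, v2, hu, S, hS, hne⟩ := Pool.Agent.H.MP_f6b738_gt.main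
  obtain ⟨p, q, hp, hq, e⟩ := h 4 2 2 (by norm_num) le_rfl (by norm_num) K₁ K₂ c1 v1 c2 v2 hu S hS
  exact (hne p q hp hq).ne e

end Pool.Agent.S14244
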