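import Pool.Statements.S14249
import Pool.Agent.H.MP_f74662.D

set_option autoImplicit false
open Pool Pool.MP_f74662_gt

namespace Pool.Agent.S14249

theorem result :
    ∀ Lt : Set ℝ → Set ℝ → Prop,
      (∀ E F : Set ℝ, Lt E F ↔
        ((∃ f : ↥E → ↥F, Topology.IsEmbedding f) ∧ ¬ ∃ g : ↥F → ↥E, Topology.IsEmbedding g)) →
    ∀ P : Set ℝ → Set ℝ → Prop,
      (∀ E F : Set ℝ, P E F ↔ (Lt E F ∧ ¬ ∃ G : Set ℝ, Lt E G ∧ Lt G F)) →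
    ∀ N : ℕ, 1 < N →
      ∃ A B C : Set ℝ, ∃ X : ℕ → Set ℝ,
        P A B ∧ P B C ∧ P A (X 1) ∧
        (∀ i : ℕ, 1 ≤ i → i < N → P (X i) (X (i + 1))) ∧
        P (X N) C := by
  intro Lt hL P hP N hN
  obtain ⟨A, B, C, X, h1, h2, h3, h4, h5⟩ := H.MP_f74662.main N (by omega)
  have key : ∀ E F, H.MP_f74662.Cv E F → P (H.MP_f74662.ρ '' E) (H.MP_f74662.ρ '' F) := by
    intro E F h
    rw [hP]
    simp only [hL]
    exact h.real
  refine ⟨_, _, _, fun i => H.MP_f74662.ρ '' X (i - 1), key _ _ h1, key _ _ h2, key _ _ h3,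
    fun i a b => ?_, ?_⟩
  · obtain ⟨j, rfl⟩ : ∃ j, i = j + 1 := ⟨i - 1, by omega⟩
    exact key _ _ (h4 j (by omega))
  · obtain ⟨j, rfl⟩ : ∃ j, N = j + 1 := ⟨N - 1, by omega⟩
    exact key _ _ (h5 ▸ h4 j (by omega))

end Pool.Agent.S14249
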