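import Pool.Statements.S14264
import Pool.Agent.H.MP_f8fbfa.E

set_option autoImplicit false
open Pool Pool.MP_f8fbfa_gt

namespace Pool.Agent.S14264

theorem result :
    ¬ (∀ (G : Type) [Group G] [TopologicalSpace G] [ContinuousMul G] [T3Space G],
      (∃ (φ : (G × G) ≃ₜ (G × G)) (e : G),
          (∀ p : G × G, (φ p).1 = p.1) ∧ ∀ x : G, φ (x, x) = (x, e)) →
        ∃ (H : Type) (_ : Group H) (_ : TopologicalSpace H),
          IsTopologicalGroup H ∧ Nonempty (G ≃ₜ H)) := by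
  open Pool.Agent.H.MP_f8fbfa in
  intro h
  have : T3Space (Multiplicative L) := inferInstanceAs (T3Space L)
  obtain ⟨H, _, _, _, ⟨f⟩⟩ := h (Multiplicative L) ⟨⟨⟨fun z => (z.1, m z.1 z.2), fun z => (z.1, m z.1 z.2),
    fun z => Prod.ext rfl (mm _ _), fun z => Prod.ext rfl (mm _ _)⟩, continuous_fst.prodMk mc,
    continuous_fst.prodMk mc⟩, (0 : L), fun _ => rfl, fun x => Prod.ext rfl (ms x)⟩
  exact ng H f

end Pool.Agent.S14264
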