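import Pool.Statements.S14275
import Pool.Agent.H.MP_5131b0_al.A

set_option autoImplicit false
open Pool Pool.MP_faf39c_gt

namespace Pool.Agent.S14275

open Set Topology Filter Pool.Agent.Lib.helper23.Dual Pool.Agent.H.MP_5131b0_al
open Cardinal hiding univ

noncomputable abbrev P {I : Type} (l : I → ℤ) : (I →₀ ℚ) →ₗ[ℚ] ℚ :=
  Finsupp.linearCombination ℚ fun i => (l i : ℚ)

lemma rigid {I N : Type} [Encodable N] [Inhabited N] (Λ : N → Set (I → ℤ)) :
    ∃ G : AddSubgroup (I →₀ ℚ), (∀ i, .single i 1 ∈ G) ∧ ∀ (φ : G →+ G) n (v : G),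
      (∀ i, ∃ z : ℤ, v.1 i = z) → (∀ l ∈ Λ n, P l v = 0) → ∀ l ∈ Λ n, P l (φ v) = 0 := by
  classical
  let p : N → ℕ := fun n => Nat.nth Nat.Prime (Encodable.encode n)
  have hp (n) : Fact (p n).Prime := ⟨Nat.prime_nth_prime _⟩
  let S := {v : I →₀ ℚ | ∃ n k, (k = 0 ∨ ∀ l ∈ Λ n, P l v = 0) ∧
    ∀ i, ∃ z : ℤ, (p n : ℚ) ^ k * v i = z}
  have h1 (n) (l) (hl : l ∈ Λ n) (v) (hv : v ∈ AddSubgroup.closure S) :
      ‖((P l v : ℚ) : ℚ_[p n])‖ ≤ 1 := by
    induction hv using AddSubgroup.closure_induction with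
    | mem v h =>
      obtain ⟨m, k, h1, h2⟩ := h
      by_cases h3 : k = 0 ∨ m ≠ n
      · choose z h2 using h2
        have h4 : ‖((p m : ℚ_[p n])) ^ k‖ = 1 := h3.elim (fun h => by simp [h]) fun h => by
          rw [norm_pow, Padic.norm_natCast_eq_one_iff.2 ((Nat.coprime_primes (hp n).1 (hp m).1).2
            fun h' => h (Encodable.encode_injective
              (Nat.nth_injective Nat.infinite_setOf_prime h')).symm), one_pow]
        have h5 : (p m : ℚ) ^ k * P l v = (∑ i ∈ v.support, z i * l i : ℤ) := by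
          simp [Finsupp.linearCombination_apply, Finsupp.sum, Finset.mul_sum, ← h2, mul_assoc]
        have h6 := Padic.norm_int_le_one (p := p n) (∑ i ∈ v.support, z i * l i)
        rw [← Rat.cast_intCast, ← h5] at h6
        simpa only [Rat.cast_mul, Rat.cast_pow, Rat.cast_natCast, norm_mul, h4, one_mul] using h6
      · push Not at h3
        simp [h1.resolve_left h3.1 l (h3.2 ▸ hl)]
    | zero => simp
    | add _ _ _ _ h h' =>
      rw [map_add, Rat.cast_add]
      exact (IsUltrametricDist.norm_add_le_max _ _).trans (max_le h h')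
    | neg _ _ h => simpa using h
  refine ⟨.closure S, fun i => AddSubgroup.subset_closure ⟨default, 0, Or.inl rfl, fun j =>
    ⟨if i = j then 1 else 0, by simp [Finsupp.single_apply]⟩⟩, fun φ n v h2 h3 l hl => ?_⟩
  have h4 : (p n : ℚ) ≠ 0 := Nat.cast_ne_zero.2 (hp n).1.ne_zero
  have h5 (k : ℕ) : ‖((P l (φ v) : ℚ) : ℚ_[p n])‖ ≤ ‖(p n : ℚ_[p n])‖ ^ k := by
    let w : AddSubgroup.closure S := ⟨((p n : ℚ) ^ k)⁻¹ • v.1, AddSubgroup.subset_closure
      ⟨n, k, Or.inr fun l hl => by simp [h3 l hl], fun i => by simpa [h4] using h2 i⟩⟩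
    rw [show v = p n ^ k • w from Subtype.ext (by ext; simp [w, h4]), map_nsmul,
      AddSubgroup.coe_nsmul, map_nsmul]
    simpa using mul_le_of_le_one_right (by positivity) (h1 n l hl _ (φ w).2)
  exact Rat.cast_eq_zero.1 (norm_le_zero_iff.1 (ge_of_tendsto'
    (tendsto_pow_atTop_nhds_zero_of_lt_one (norm_nonneg _) Padic.norm_p_lt_one) h5))

abbrev R := ℕ → Bool
abbrev I := (R → Bool) × R

lemma scal : ∃ G : AddSubgroup (I →₀ ℚ), (∀ i, .single i 1 ∈ G) ∧
    ∀ φ : G →+ G, ∃ q : ℚ, ∀ g, (φ g).1 = q • g.1 := by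
  classical
  obtain ⟨G, h1, h2⟩ := rigid (N := ℕ × Bool ⊕ Bool ⊕ Bool) (I := I) (Sum.elim
    (fun m => (Pi.single · 1) '' {i | i.2 m.1 ≠ m.2}) (Sum.elim
      (fun b => (Pi.single · 1) '' {i | i.1 i.2 ≠ b}) fun b =>
        range fun y i => if b = true ∨ i.1 = y then 1 else 0))
  refine ⟨G, h1, fun φ => ?_⟩
  let e := fun i => (⟨_, h1 i⟩ : G)
  have h3 (j : I) (v) : P (Pi.single j 1) v = v j := by
    rw [Finsupp.linearCombination_apply, Finsupp.sum_eq_single j (fun i _ h => by simp [h])] <;> simp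
  have h4 (i j) : ∃ z : ℤ, (e i).1 j = z := ⟨if i = j then 1 else 0, by simp [e, Finsupp.single_apply]⟩
  have h5 (i j) (h : (φ (e i)).1 j ≠ 0) : j.2 = i.2 ∧ j.1 j.2 = i.1 i.2 := by
    refine ⟨funext fun m => by_contra fun h' => h (h3 j _ ▸ h2 φ (.inl (m, i.2 m)) _ (h4 i) ?_ _
      ⟨j, h', rfl⟩), by_contra fun h' => h (h3 j _ ▸ h2 φ (.inr (.inl (i.1 i.2))) _ (h4 i) ?_ _
      ⟨j, h', rfl⟩)⟩ <;> rintro _ ⟨j, h, rfl⟩ <;> rw [h3] <;>
      exact Finsupp.single_eq_of_ne (by rintro rfl; exact h rfl)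
  have h6 (b : Bool) (i j y) (h : b = true ∨ i.1 = j.1) :
      P (fun i : I => if b = true ∨ i.1 = y then 1 else 0) (φ (e i)) =
      P (fun i : I => if b = true ∨ i.1 = y then 1 else 0) (φ (e j)) := by
    rw [← sub_eq_zero, ← map_sub, ← AddSubgroup.coe_sub, ← map_sub]
    refine h2 φ (.inr (.inr b)) _ (fun k => ?_) ?_ _ ⟨y, rfl⟩
    · obtain ⟨z, h⟩ := h4 i k
      obtain ⟨z', h'⟩ := h4 j k
      exact ⟨z - z', by simp [h, h']⟩
    · rintro _ ⟨y, rfl⟩
      rcases h with h | h <;> simp [e, h]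
  have h7 (x y r) : P (fun i : I => if false = true ∨ i.1 = y then 1 else 0) (φ (e (x, r))) =
      (φ (e (x, r))).1 (y, r) := by
    rw [Finsupp.linearCombination_apply, Finsupp.sum_eq_single (y, r) fun i h h' => ?_] <;> try simp
    exact fun h7 => (h' (Prod.ext h7 (h5 _ _ h).1)).elim
  have h8 (i j) (h : (φ (e i)).1 j ≠ 0) : j = i := by
    obtain ⟨x, r⟩ := i
    obtain ⟨y, s⟩ := j
    obtain rfl : s = r := (h5 _ _ h).1
    refine congrArg (·, s) (funext fun t => (h5 (x, t) (y, t) ?_).2)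
    rwa [← h7, h6 false (x, t) (x, s) y (Or.inr rfl), h7]
  have h9 (i) : (φ (e i)).1 = (φ (e default)).1 default • (e i).1 := by
    have h9 (i) : (φ (e i)).1 = .single i ((φ (e i)).1 i) :=
      Finsupp.eq_single_iff.2 ⟨fun j h => Finset.mem_singleton.2
        (h8 i j (Finsupp.mem_support_iff.1 h)), rfl⟩
    have := h6 true i default default (Or.inl rfl)
    rw [h9 i, h9 default] at this
    simp at this
    rw [h9 i, this]
    simp [e]
  let ι : (I →₀ ℤ) →ₗ[ℤ] G := Finsupp.linearCombination ℤ e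
  refine ⟨(φ (e default)).1 default, fun g => ?_⟩
  obtain ⟨m, hm⟩ := IsLocalization.exist_integer_multiples (nonZeroDivisors ℤ) g.1.support g.1
  choose! z hm using hm
  have h10 : m.1 • g = ∑ i ∈ g.1.support, z i • e i := Subtype.ext (by
    conv_lhs => rw [AddSubgroup.coe_zsmul, ← g.1.sum_single, Finsupp.sum, Finset.smul_sum]
    rw [AddSubgroup.val_finset_sum]
    refine Finset.sum_congr rfl fun i hi => ?_
    rw [Finsupp.smul_single, ← hm i hi]
    simp [e])
  refine smul_right_injective _ (nonZeroDivisors.ne_zero m.2) ?_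
  simp only [← AddSubgroup.coe_zsmul, ← map_zsmul, smul_comm m.1, h10, map_sum,
    AddSubgroup.val_finset_sum, Finset.smul_sum]
  exact Finset.sum_congr rfl fun i _ => by
    rw [map_zsmul, AddSubgroup.coe_zsmul, h9 i, AddSubgroup.coe_zsmul, smul_comm]

theorem result :
    ∃ T : (G : Type) → [AddCommGroup G] → TopologicalSpace G,
      (∀ (G : Type) [AddCommGroup G], @IsTopologicalAddGroup G (T G) _) ∧
      (∀ (G H : Type) [AddCommGroup G] [AddCommGroup H] (f : G →+ H),
          @Continuous G H (T G) (T H) f) ∧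
      ∃ (G : Type) (_ : AddCommGroup G), Infinite G ∧ @T2Space G (T G) ∧
        ∃ D : Set G, @Dense G (T G) D ∧
          (2 : Cardinal) ^ Cardinal.mk ↥D < Cardinal.mk G := by
  classical
  obtain ⟨G, h1, h2⟩ := scal
  choose q h2 using h2
  have : Infinite R := Pi.infinite_of_left
  obtain ⟨E⟩ : Nonempty ((I →₀ ℚ) ≃ₗ[ℚ] (R → ℚ)) := nonempty_linearEquiv_of_rank_eq (by
    rw [rank_fun_infinite, rank_finsupp_self']
    simp [mul_eq_left ((aleph0_le_continuum.trans (cantor 𝔠).le)) (cantor 𝔠).le continuum_ne_zero,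
      power_eq_two_power aleph0_le_continuum (nat_lt_aleph0 2).le aleph0_le_continuum])
  obtain ⟨t, L, -, h3, h4⟩ := indep (J := Option R)
    (by simp [add_one_eq aleph0_le_continuum]) (fun _ => univ) (by simp [mk_real])
  let E' : Option R → (I →₀ ℚ) → ℚ := fun j v => j.elim 0 (E v)
  let l : Option R → G → ℝ := fun j g =>
    E' j g + g.1 default * (t j - E' j (.single default 1))
  have h5 (j g h) : l j (g + h) = l j g + l j h := by
    cases j <;> simp [l, E'] <;> ring
  have h6 (j φ g) : l j (φ g) = q φ * l j g := by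
    cases j <;> simp [l, E', h2] <;> ring
  let Ψ : (A : Type) → [AddCommGroup A] → A →+ (A →+ G) × Option R × ℚ → T := fun A _ =>
    .mk' (fun a p => (p.2.2 * l p.2.1 (p.1 a) : ℝ)) fun a b => funext fun p => by
      simp [h5, mul_add]
  let e : I → G := fun i => ⟨_, h1 i⟩
  have h7 : Function.Injective e := fun i j h =>
    Finsupp.single_left_injective one_ne_zero (congrArg Subtype.val h)
  refine ⟨fun A _ => .induced (Ψ A) inferInstance, fun A _ => topologicalAddGroup_induced _,
    fun A B _ _ f => ?_, G, inferInstance, .of_injective e h7, ?_,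
    AddSubgroup.zmultiples (e default), ?_, ?_⟩
  · letI := TopologicalSpace.induced (Ψ A) inferInstance
    exact continuous_induced_rng.2 (continuous_pi fun p =>
      (continuous_apply (p.1.comp f, p.2)).comp (continuous_induced_dom (f := Ψ A)))
  · letI := TopologicalSpace.induced (Ψ G) inferInstance
    refine IsEmbedding.t2Space (f := Ψ G) ⟨⟨rfl⟩, (injective_iff_map_eq_zero _).2 fun g h => ?_⟩
    have h8 (j) : l j g = 0 := by
      by_contra h8
      obtain ⟨r, h9, h10⟩ := exists_rat_btwn (one_div_pos.2 (abs_pos.2 h8))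
      obtain ⟨n, hn⟩ := (AddCircle.coe_eq_zero_iff (1 : ℝ)).1 (congrFun h (.id G, j, r))
      simp only [zsmul_eq_mul, mul_one, AddMonoidHom.id_apply] at hn
      rw [lt_div_iff₀ (abs_pos.2 h8), ← abs_of_pos h9, ← abs_mul, ← hn, ← Int.cast_abs,
        ← Int.cast_one, Int.cast_lt, Int.abs_lt_one_iff] at h10
      exact mul_ne_zero h9.ne' h8 (by simp [← hn, h10])
    have h9 : g.1 default = 0 := by
      have : t none ≠ 0 := fun h => by simpa [h] using (h3 none).symm
      simpa [l, E', this] using h8 none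
    exact Subtype.ext (E.injective (funext fun i => by simpa [l, E', h9] using h8 (some i)))
  · letI := TopologicalSpace.induced (Ψ G) inferInstance
    refine (IsInducing.dense_iff (f := Ψ G) ⟨rfl⟩).2 fun g =>
      dual' ((AddSubgroup.zmultiples (e default)).map (Ψ G)) _ fun k hk => ?_
    let κ : Option R →₀ ℚ := k.sum fun a n => .single a.2.1 (n * a.2.2 * q a.1)
    have h8 (g) : lc (Ψ G g) k = (Finsupp.linearCombination ℚ (l · g) κ : ℝ) := by
      rw [map_finsuppSum, Finsupp.linearCombination_apply]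
      refine (Finsupp.sum_congr fun a _ => ?_).trans (map_finsuppSum
        (QuotientAddGroup.mk' (AddSubgroup.zmultiples (1 : ℝ))) _ _).symm
      change ((k a • (a.2.2 * l a.2.1 (a.1 g)) : ℝ) : T) = _
      rw [Finsupp.linearCombination_single, h6, Rat.smul_def, zsmul_eq_mul]
      simp [mul_assoc]
    obtain ⟨n, hn⟩ := (AddCircle.coe_eq_zero_iff (1 : ℝ)).1
      ((h8 _).symm.trans (hk _ ⟨_, AddSubgroup.mem_zmultiples _, rfl⟩))
    have h9 : κ = 0 := Finsupp.ext fun j => by
      have := congrArg (L · (some j)) hn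
      simp only [show (l · (e default)) = t from funext fun j => by simp [l, e], map_zsmul, h4,
        Finsupp.linearCombination_apply, map_finsuppSum, map_smul, h3, Finsupp.sum_apply] at this
      rw [Finsupp.sum_eq_single j (fun i _ h => by simp [h]) (by simp)] at this
      simpa using this.symm
    exact (h8 g).trans (by simp [h9])
  · refine ((power_le_power_left two_ne_zero (mk_le_aleph0_iff.2 (countable_range
      _).to_subtype)).trans_lt ?_).trans_le (mk_le_of_injective h7)
    simpa [mul_eq_left ((aleph0_le_continuum.trans (cantor 𝔠).le)) (cantor 𝔠).le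
      continuum_ne_zero] using cantor 𝔠

end Pool.Agent.S14275
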