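import Pool.Statements.S14293
import Pool.Agent.H.MP_fe23ac_gt.C

set_option autoImplicit false
open Pool Pool.MP_fe23ac_gt

namespace Pool.Agent.S14293

theorem result :
    ∀ (le lt p : Set ℝ → Set ℝ → Prop),
      (∀ E F : Set ℝ, le E F ↔ ∃ f : E → F, Topology.IsEmbedding f) →
      (∀ E F : Set ℝ, lt E F ↔ le E F ∧ ¬ le F E) →
      (∀ E F : Set ℝ, p E F ↔ lt E F ∧ ¬ ∃ G : Set ℝ, lt E G ∧ lt G F) →
      ∃ (A B C : Set ℝ) (S : ℕ → Set ℝ),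
        p A B ∧ p B C ∧ p A (S 0) ∧ (∀ n : ℕ, p (S n) (S (n + 1))) ∧
          ∀ n : ℕ, lt (S n) C := by
  intro le lt p hle hlt hp
  obtain ⟨R, h1, h2, h3⟩ := Pool.Agent.H.MP_fe23ac_gt.rigid
  have hR : Pool.Agent.H.MP_fe23ac_gt.Rg R := ⟨h1, h2, h3⟩
  obtain ⟨A, B, C, X, a, b, c, d, e⟩ := Pool.Agent.H.MP_fe23ac_gt.main
  have hl : ∀ E F, le E F ↔ Pool.Agent.H.MP_f74662.ER E F := hle
  simp only [hp, hlt, hl]
  exact ⟨_, _, _, fun n => R ∪ Pool.Agent.H.MP_f74662.ρ '' X n, hR.cv a, hR.cv b, hR.cv c,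
    fun n => hR.cv (d n), fun n => ⟨hR.iff.2 (e n).1, fun h => (e n).2 (hR.iff.1 h)⟩⟩

end Pool.Agent.S14293
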