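import Pool.Statements.S14307
import Pool.Agent.H.MP_ffad8e.D

set_option autoImplicit false
open Pool Pool.MP_ffad8e_gt

namespace Pool.Agent.S14307

theorem result :
    ∀ (ind : ℕ → (α : Type) → [TopologicalSpace α] → Prop),
      (∀ (α : Type) [TopologicalSpace α],
        (ind 0 α ↔ IsEmpty α) ∧
        ∀ k : ℕ, (ind (k + 1) α ↔
          ∀ x : α, ∀ U ∈ nhds x, ∃ V : Set α,
            IsOpen V ∧ x ∈ V ∧ V ⊆ U ∧ ind k ↥(frontier V))) →
      ∀ (X : Type) [TopologicalSpace X] [TopologicalSpace.SeparableSpace X]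
        [TopologicalSpace.MetrizableSpace X] (n : ℕ),
        ((∃ (Y : Type) (_ : TopologicalSpace Y), PolishSpace Y ∧
            ∃ f : X → Y, Topology.IsEmbedding f ∧ ind (n + 1) ↥(Set.range f)ᶜ) ↔
          ∃ A : Fin (n + 1) → Set X, (⋃ i, A i) = Set.univ ∧
            ∀ i, ∃ (Y : Type) (_ : TopologicalSpace Y), PolishSpace Y ∧
              ∃ f : ↥(A i) → Y, Topology.IsEmbedding f ∧ ind 1 ↥(Set.range f)ᶜ) := by
  intro ind hind X _ _ _ n
  have e : ∀ (k : ℕ) (Y : Type) [TopologicalSpace Y] (S : Set Y),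
      ind k S ↔ H.MP_ffad8e.D k S := fun k Y _ S =>
    (H.MP_ffad8e.ind_iff ind hind k S).trans H.MP_ffad8e.D_sub
  constructor
  · rintro ⟨Y, _, _, f, hf, h⟩
    obtain ⟨G, g1, g2⟩ := H.MP_ffad8e.cover ((e _ _ _).1 h)
    refine ⟨fun i => f ⁻¹' G i, Set.eq_univ_of_forall fun x => Set.mem_iUnion.2 (g2 (f x)),
      fun i => ⟨G i, inferInstance, H.MP_ffad8e.gdelta (g1 i).1, (G i).restrictPreimage f,
        hf.restrictPreimage _, (e _ _ _).2 ((H.MP_ffad8e.D_image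
          Topology.IsInducing.subtypeVal).1 ((g1 i).2.mono ?_))⟩⟩
    rintro _ ⟨z, hz, rfl⟩
    exact ⟨fun ⟨x, hx⟩ => hz ⟨⟨x, by rw [Set.mem_preimage, hx]; exact z.2⟩, Subtype.ext hx⟩, z.2⟩
  · rintro ⟨A, a1, a2⟩
    let := TopologicalSpace.metrizableSpaceMetric X
    let Y := UniformSpace.Completion X
    have hj : Topology.IsEmbedding ((↑) : X → Y) :=
      UniformSpace.Completion.coe_isometry.isEmbedding
    have k : ∀ i, ∃ G : Set Y, IsGδ G ∧ Set.range (((↑) : X → Y) ∘ ((↑) : A i → X)) ⊆ G ∧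
        H.MP_ffad8e.D 1 (G \ Set.range (((↑) : X → Y) ∘ ((↑) : A i → X))) := fun i => by
      obtain ⟨W, _, _, f, hf, h⟩ := a2 i
      exact H.MP_ffad8e.rem (hj.comp Topology.IsEmbedding.subtypeVal) hf ((e _ _ _).1 h)
    choose G g1 g2 g3 using k
    have m : ∀ x : X, (x : Y) ∈ ⋃ i, G i := fun x => by
      obtain ⟨i, hi⟩ := Set.mem_iUnion.1 (a1.ge (Set.mem_univ x))
      exact Set.mem_iUnion.2 ⟨i, g2 i ⟨⟨x, hi⟩, rfl⟩⟩
    refine ⟨(⋃ i, G i : Set Y), inferInstance, H.MP_ffad8e.gdelta (IsGδ.iUnion g1),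
      Set.codRestrict _ _ m, hj.codRestrict _ m, (e _ _ _).2 ((H.MP_ffad8e.D_image
        Topology.IsInducing.subtypeVal).1 (H.MP_ffad8e.addn _ g3 ?_))⟩
    rintro _ ⟨z, hz, rfl⟩
    obtain ⟨i, hi⟩ := Set.mem_iUnion.1 z.2
    exact Set.mem_iUnion.2 ⟨i, hi, fun ⟨x, hx⟩ => hz ⟨x.1, Subtype.ext hx⟩⟩

end Pool.Agent.S14307
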