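import Pool.Statements.S14318
import Pool.Agent.H.MP_018f72_lc.E

set_option autoImplicit false
open Pool Pool.MP_018f72_lc

namespace Pool.Agent.S14318

theorem result :
    ¬ (∀ (Γ : Type) [Group Γ] (n : ℕ) (s : Fin n → Γ),
      Subgroup.closure (Set.range s) = ⊤ →
      (ComputablePred
          (fun I : ℕ × List (List (List (Fin n × Bool) × ℕ)) =>
            ∃ x : Γ → Fin I.1, ∀ g : Γ, ∀ P ∈ I.2,
              ¬ (∀ q ∈ P, ((x (g * FreeGroup.lift s (FreeGroup.mk q.1)) : Fin I.1) : ℕ) = q.2))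
        ↔ ∃ H : Subgroup Γ, H.FiniteIndex ∧ IsFreeGroup H)) := by
  intro h
  refine H.MP_018f72_lc.not_vf ((h H.MP_018f72_lc.GG 2 _ H.MP_018f72_lc.clos).1 ?_)
  rw [H.MP_018f72_lc.lift_pr]
  exact H.MP_018f72_lc.comp_dec.of_eq fun I => (H.MP_018f72_lc.dec I).symm

end Pool.Agent.S14318
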