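import Pool.Statements.S14337
import Pool.Agent.H.MP_067fd8_lc.E

set_option autoImplicit false
open Pool Pool.MP_067fd8_lc

namespace Pool.Agent.S14337

open List Symbol Pool.Agent.H.MP_067fd8_lc in
theorem result :
  ∀ (LD : ∀ (α N : Type), N → Finset (ContextFreeRule α N) → List α → ℕ → (ℕ → ContextFreeRule α N) → Prop)
    (UA : ∀ α : Type, Set (Language α)) (REG : ∀ α : Type, Set (Language α)),
    (∀ (α N : Type) (S : N) (P : Finset (ContextFreeRule α N)) (w : List α) (n : ℕ)
        (rs : ℕ → ContextFreeRule α N),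
        LD α N S P w n rs ↔
          ∃ ss : ℕ → List (Symbol α N),
            ss 0 = [Symbol.nonterminal S] ∧ ss n = w.map Symbol.terminal ∧
            ∀ i < n, rs i ∈ P ∧ ∃ (u : List α) (v : List (Symbol α N)),
              ss i = u.map Symbol.terminal ++ Symbol.nonterminal (rs i).input :: v ∧
              ss (i + 1) = u.map Symbol.terminal ++ (rs i).output ++ v) →
    (∀ (α : Type) (L : Language α), L ∈ UA α ↔
        ∃ (N : Type) (S : N) (P : Finset (ContextFreeRule α N)),
          (∀ w : List α, w ∈ L ↔ ∃ (n : ℕ) (rs : ℕ → ContextFreeRule α N), LD α N S P w n rs) ∧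
          ∀ (w : List α) (n m : ℕ) (rs rs' : ℕ → ContextFreeRule α N),
            LD α N S P w n rs → LD α N S P w m rs' → n = m ∧ ∀ i < n, rs i = rs' i) →
    (∀ (α : Type) (L : Language α), L ∈ REG α ↔
        ∃ (σ : Type) (_ : Fintype σ) (M : DFA α σ), M.accepts = L) →
    (∀ (A B : Type) [Fintype A] [Fintype B] (L : Language B) (f : A → List B) (R : Language A),
        L ∈ UA B → R ∈ REG A →
        ({w : List A | (w.map f).flatten ∈ L ∧ w ∈ R} : Set (List A)) ∈ UA A) ∧
    (∀ (B : Type) [Fintype B] (L0 : Language B), L0 ∈ UA B →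
        ∃ (A : Type) (_ : Fintype A) (L : Language A), L ∈ UA A ∧
          ∀ (f : A → List B) (R : Language A), R ∈ REG A →
            ∃ w : List A, ¬ (w ∈ L ↔ ((w.map f).flatten ∈ L0 ∧ w ∈ R))) := by
  intro FD UAF REG hD hU hR
  have k1 : ∀ {α N : Type} (S : N) (P : Finset (ContextFreeRule α N)) w n rs,
      FD α N S P w n rs ↔ LD (P : Set _) [nonterminal S] ((range n).map rs) w := fun S P w n rs => by
    rw [hD]
    constructor
    · rintro ⟨ss, a, b, c⟩
      suffices ∀ k i, i + k = n → LD (P : Set _) (ss i) ((range' i k).map rs) w by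
        simpa [a, range_eq_range'] using this n 0 (zero_add _)
      intro k
      induction k with
      | zero => rintro _ rfl; simpa using b ▸ append_nil (w.map terminal) ▸ ld_ters.2 ⟨_, by simp, .nil⟩
      | succ k ih =>
        intro i e
        obtain ⟨d, u, v, d1, d2⟩ := c i (by omega)
        have := ih (i + 1) (by omega)
        rw [d2, append_assoc] at this
        obtain ⟨w', rfl, g⟩ := ld_ters.1 this
        exact d1 ▸ ld_ters.2 ⟨_, rfl, .nt d g⟩
    · intro h
      suffices ∀ α μ w, LD (P : Set _) α μ w → ∀ (u : List _) n rs, μ = (range n).map rs →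
          ∃ ss : ℕ → List (Symbol _ _), ss 0 = u.map terminal ++ α ∧ ss n = (u ++ w).map terminal ∧
            ∀ i < n, rs i ∈ P ∧ ∃ (u : List _) (v : List (Symbol _ _)),
              ss i = u.map terminal ++ nonterminal (rs i).input :: v ∧
              ss (i + 1) = u.map terminal ++ (rs i).output ++ v from this _ _ _ h [] n rs rfl
      intro α μ w h
      induction h with
      | nil =>
        rintro u (_ | n) rs e
        exacts [⟨fun _ => u.map terminal, by simp, by simp, nofun⟩, by simp [range_succ] at e]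
      | ter a _ ih => exact fun u n rs e => by simpa using ih (u ++ [a]) n rs e
      | @nt r α _ _ a _ ih =>
        rintro u (_ | n) rs e
        · cases e
        rw [range_succ_eq_map, map_cons, map_map] at e
        obtain ⟨rfl, e'⟩ := cons.inj e
        obtain ⟨ss, b, c, d⟩ := ih u n _ e'
        refine ⟨fun i => i.casesOn (u.map terminal ++ nonterminal (rs 0).input :: α) ss, rfl, c, ?_⟩
        rintro (_ | i) l
        exacts [⟨a, u, α, rfl, b.trans (append_assoc ..).symm⟩, d i (by omega)]
  have k2 : ∀ (α : Type) (L : Language α), L ∈ UAF α ↔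
      ∃ (N : Type) (S : N) (P : Set (ContextFreeRule α N)), P.Finite ∧ UA P S L := fun α L => by
    have e : ∀ {N : Type} (S : N) (μ : List (ContextFreeRule α N)),
        μ = (range μ.length).map fun i => μ.getD i ⟨S, []⟩ := fun S μ =>
      ext_getElem (by simp) fun i a b => by simp [a]
    simp only [hU, k1]
    constructor
    · rintro ⟨N, S, P, a, b⟩
      refine ⟨N, S, P, P.finite_toSet, fun w => (a w).trans ⟨fun ⟨_, _, c⟩ => ⟨_, c⟩,
        fun ⟨μ, c⟩ => ⟨_, _, e S μ ▸ c⟩⟩, fun w μ μ' c d => ?_⟩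
      obtain ⟨g, g'⟩ := b w _ _ _ _ (e S μ ▸ c) (e S μ' ▸ d)
      rw [e S μ, e S μ', ← g]
      exact map_congr_left fun i j => g' i (mem_range.1 j)
    · rintro ⟨N, S, P, a, b, c⟩
      lift P to Finset (ContextFreeRule α N) using a
      refine ⟨N, S, P, fun w => (b w).trans ⟨fun ⟨μ, c⟩ => ⟨_, _, e S μ ▸ c⟩, fun ⟨_, _, c⟩ => ⟨_, c⟩⟩,
        fun w n m rs rs' d d' => ?_⟩
      have g := c _ _ _ d d'
      obtain rfl : n = m := by simpa using congrArg length g
      exact ⟨rfl, fun i j => map_inj_left.1 g i (mem_range.2 j)⟩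
  refine ⟨fun A B _ _ L f R a b => ?_, fun B _ L a => ?_⟩
  · obtain ⟨N, S, P, c, d⟩ := (k2 ..).1 a
    obtain ⟨σ, _, M, rfl⟩ := (hR ..).1 b
    obtain ⟨l, hl⟩ := (c.image (·.output.length)).bddAbove
    obtain ⟨H, hH⟩ := (Set.finite_range fun a => (f a).length).bddAbove
    obtain ⟨N', S', P', -, e, g, -⟩ := clos c d f M (fun a => hH ⟨a, rfl⟩) fun r a => hl ⟨r, a, rfl⟩
    exact (k2 ..).2 ⟨N', S', P', e, g⟩
  · obtain ⟨N, S, P, c, d⟩ := (k2 ..).1 a
    obtain ⟨A, _, N', S', P', L', e, g, h⟩ := main c d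
    refine ⟨A, Fintype.ofFinite A, L', (k2 ..).2 ⟨N', S', P', e, g⟩, fun f R b => ?_⟩
    obtain ⟨σ, _, M, rfl⟩ := (hR ..).1 b
    exact not_forall.1 (h f σ inferInstance M)

end Pool.Agent.S14337
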