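import Pool.Statements.S14339
import Pool.Agent.H.MP_07717f_lc.Comp

set_option autoImplicit false
open Pool Pool.MP_07717f_lc

namespace Pool.Agent.S14339

open Pool.Agent.H.MP_07717f_lc

theorem result :
    ∃ (G : Type) (_ : Group G),
      Group.FG G ∧
      (∀ g : G, g ≠ 1 → ∃ H : Subgroup G, H.index ≠ 0 ∧ g ∉ H) ∧
      (∃ (n : ℕ) (π : FreeGroup (Fin n) →* G), Function.Surjective π ∧
        REPred (fun w : List (Fin n × Bool) => π (FreeGroup.mk w) ≠ 1)) ∧
      ¬ ∃ f : G →* Equiv.Perm ℕ, Function.Injective f ∧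
          ∀ g : G, Computable (⇑(f g) : ℕ → ℕ) := by
  refine ⟨F ⧸ Kf Z (UU vv), inferInstance, inferInstance, resfin vv_fst,
    ⟨3, QuotientGroup.mk' _, QuotientGroup.mk'_surjective _, re_wp.of_eq fun w => ?_⟩,
    fun ⟨f, h1, h2⟩ => no_emb (f.comp (QuotientGroup.mk' _)) (fun w => ?_) fun w => h2 _⟩
  · simp
  · simp [map_eq_one_iff f h1]

end Pool.Agent.S14339
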