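import Pool.Statements.S14345
-- import your own Pool.Agent.* helpers here
import Pool.Agent.H.MP_094aee_lc.B

set_option autoImplicit false
open Pool Pool.MP_094aee_lc

namespace Pool.Agent.S14345

theorem result :
  ∀ (X : Type) [TopologicalSpace X] [PolishSpace X] [MeasurableSpace X] [BorelSpace X]
    (R : X → X → Prop),
    (∀ x, R x x) → (∀ x y z, R x y → R y z → R x z) →
    MeasureTheory.AnalyticSet {p : X × X | R p.1 p.2} →
    ∃ (a : ℕ → ℕ) (B : Set (∀ i : ℕ, (Fin (a i) → ℕ) → Bool)),
      MeasurableSet B ∧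
      (∀ (σ : Equiv.Perm ℕ) (u : ∀ i : ℕ, (Fin (a i) → ℕ) → Bool),
        u ∈ B ↔ (fun i v => u i (σ ∘ v)) ∈ B) ∧
      (∃ f : X → (∀ i : ℕ, (Fin (a i) → ℕ) → Bool), Measurable f ∧ (∀ x, f x ∈ B) ∧
        ∀ x y, R x y ↔
          Nonempty (@FirstOrder.Language.ElementaryEmbedding
            (FirstOrder.Language.mk (fun _ => PEmpty.{1}) (fun n => {i : ℕ // a i = n})) ℕ ℕ
            (@FirstOrder.Language.Structure.mk
              (FirstOrder.Language.mk (fun _ => PEmpty.{1}) (fun n => {i : ℕ // a i = n})) ℕ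
              (fun f _ => PEmpty.elim f)
              (fun r xs => f x (Subtype.val r) (xs ∘ Fin.cast (Subtype.property r)) = true))
            (@FirstOrder.Language.Structure.mk
              (FirstOrder.Language.mk (fun _ => PEmpty.{1}) (fun n => {i : ℕ // a i = n})) ℕ
              (fun f _ => PEmpty.elim f)
              (fun r xs => f y (Subtype.val r) (xs ∘ Fin.cast (Subtype.property r)) = true)))) ∧
      (∃ g : B → X, Measurable g ∧
        ∀ u v : B,
          Nonempty (@FirstOrder.Language.ElementaryEmbedding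
            (FirstOrder.Language.mk (fun _ => PEmpty.{1}) (fun n => {i : ℕ // a i = n})) ℕ ℕ
            (@FirstOrder.Language.Structure.mk
              (FirstOrder.Language.mk (fun _ => PEmpty.{1}) (fun n => {i : ℕ // a i = n})) ℕ
              (fun f _ => PEmpty.elim f)
              (fun r xs => u.1 (Subtype.val r) (xs ∘ Fin.cast (Subtype.property r)) = true))
            (@FirstOrder.Language.Structure.mk
              (FirstOrder.Language.mk (fun _ => PEmpty.{1}) (fun n => {i : ℕ // a i = n})) ℕ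
              (fun f _ => PEmpty.elim f)
              (fun r xs => v.1 (Subtype.val r) (xs ∘ Fin.cast (Subtype.property r)) = true)))
          ↔ R (g u) (g v)) := by
  intro X _ _ _ _ R r t a
  obtain ⟨S⟩ := H.MP_094aee_lc.sys X R r t a
  open Pool.Agent.H.MP_094aee_lc in
  obtain ⟨m, g, g1, g2⟩ := H.MP_44948e_lc.inv bij_meas (st_meas (S := S)) (by
    rintro ⟨x, c⟩ a ⟨y, d⟩ b e
    exact Prod.ext (st_inj a b e).1 (st_inj a b e).2)
  open Pool.Agent.H.MP_094aee_lc in
  refine ⟨fun _ => 2, _, m, fun σ u => ⟨?_, ?_⟩, ⟨fun x => st S x id,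
    (st_meas (S := S)).comp (measurable_id.prodMk (measurable_const (a := id))),
    fun x => ⟨(x, _), Function.bijective_id, rfl⟩, fun x y =>
      ((elem (st_xt Function.bijective_id) (st_xt Function.bijective_id)).trans
        (st_emb Function.bijective_id Function.bijective_id)).symm⟩, g, g1, fun u v => ?_⟩
  · rintro ⟨⟨x, c⟩, a, rfl⟩
    exact ⟨(x, c ∘ σ), a.comp σ.bijective, rfl⟩
  · rintro ⟨⟨x, c⟩, a, e⟩
    refine ⟨(x, c ∘ σ.symm), a.comp σ.symm.bijective, funext₂ fun i v => ?_⟩
    have := congrFun₂ e i (σ.symm ∘ v)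
    rw [← Function.comp_assoc, σ.self_comp_symm] at this
    exact this
  · obtain ⟨c, c1, c2⟩ := g2 u
    obtain ⟨d, d1, d2⟩ := g2 v
    rw [← c2, ← d2]
    open Pool.Agent.H.MP_094aee_lc in
    exact (elem (st_xt c1) (st_xt d1)).trans (st_emb c1 d1)

end Pool.Agent.S14345
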