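import Pool.Statements.S14350
import Pool.Agent.H.MP_7c40ec_lc.Link

set_option autoImplicit false
open Pool Pool.MP_09b933_lc

namespace Pool.Agent.S14350

open Pool.Agent.H.MP_7c40ec_lc

/-- The negation of the preceding statement: For some optimal plain machine U and optimal prefix-free machine V, there is a partial computable ψ and a constant c such that for every string x, ψ(x, K(x)) is defined and lies within c of C(x). -/
theorem result :
    ¬ (∃ U V : List Bool →. List Bool,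
      Partrec U ∧
      (∀ M : List Bool →. List Bool, Partrec M →
        ∃ c : ℕ, ∀ (x p : List Bool), x ∈ M p →
          ∃ q : List Bool, x ∈ U q ∧ q.length ≤ p.length + c) ∧
      Partrec V ∧
      (∀ p q : List Bool, (V p).Dom → (V q).Dom → p <+: q → p = q) ∧
      (∀ M : List Bool →. List Bool, Partrec M →
        (∀ p q : List Bool, (M p).Dom → (M q).Dom → p <+: q → p = q) →
        ∃ c : ℕ, ∀ (x p : List Bool), x ∈ M p →
          ∃ q : List Bool, x ∈ V q ∧ q.length ≤ p.length + c) ∧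
      ∃ ψ : List Bool × ℕ →. ℕ, Partrec ψ ∧
        ∃ c : ℕ, ∀ x : List Bool,
          ∃ y : ℕ, y ∈ ψ (x, sInf (List.length '' {p : List Bool | x ∈ V p})) ∧
            sInf (List.length '' {p : List Bool | x ∈ U p}) ≤ y + c ∧
            y ≤ sInf (List.length '' {p : List Bool | x ∈ U p}) + c) := by
  rintro ⟨U, V, u1, u2, v1, v2, v3, ψ, hψ, c, hc⟩
  obtain ⟨N, h1, h2, h3⟩ := graph_approx hψ
  have a0 : Primrec fun x : (List Bool × ℕ × ℕ) × ℕ × ℕ => x.2.1 := Primrec.fst.comp .snd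
  have a2 : Primrec fun x : (List Bool × ℕ × ℕ) × ℕ × ℕ => x.1.2.2 :=
    Primrec.snd.comp (Primrec.snd.comp .fst)
  have a1 := (h1.comp (((Primrec.fst.comp .fst).pair (Primrec.fst.comp (Primrec.snd.comp .fst))).pair
    a0) (Primrec.snd.comp .snd)).and ((Primrec.nat_le.comp a2 (Primrec.nat_add.comp a0 (.const c))).and
      (Primrec.nat_le.comp a0 (Primrec.nat_add.comp a2 (.const c))))
  obtain ⟨x, hx⟩ := main U V u1
    (fun M hM => (u2 M hM).imp fun c h p z hz => (h z p hz).imp fun _ => And.symm) v1 v2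
    (fun M hM m => (v3 M hM m).imp fun c h p z hz => (h z p hz).imp fun _ => And.symm)
    (fun x k v => ∃ y ∈ ψ (x, k), v ≤ y + c ∧ y ≤ v + c) (2 * c + 1)
    ((re_ex (R := fun (a : List Bool × ℕ × ℕ) (w : ℕ × ℕ) => N ((a.1, a.2.1), w.1) w.2 ∧
      a.2.2 ≤ w.1 + c ∧ w.1 ≤ a.2.2 + c) (a1.of_eq fun _ => Iff.rfl)).of_eq fun a =>
        ⟨fun ⟨w, b1, b2⟩ => ⟨w.1, h2 _ _ b1, b2⟩, fun ⟨y, b1, b2⟩ =>
          (h3 ((a.1, a.2.1), y) b1).exists.elim fun t ht => ⟨(y, t), ht, b2⟩⟩)
    fun x k F hF => by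
      rcases F.eq_empty_or_nonempty with rfl | ⟨v, hv⟩
      · simp
      obtain ⟨y, hy, -⟩ := hF v hv
      refine (Finset.card_le_card (t := Finset.Icc (y - c) (y + c)) fun w hw => ?_).trans ?_
      · obtain ⟨y', hy', b⟩ := hF w hw
        obtain rfl := Part.mem_unique hy hy'
        exact Finset.mem_Icc.2 ⟨by omega, b.1⟩
      · rw [Nat.card_Icc]
        omega
  have e : ∀ M : List Bool →. List Bool,
      sInf (List.length '' {p : List Bool | x ∈ M p}) = cx M x := fun M =>
    congrArg sInf (Set.ext fun m => ⟨fun ⟨q, a, b⟩ => ⟨q, b, a⟩, fun ⟨q, a, b⟩ => ⟨q, b, a⟩⟩)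
  have := hc x
  rw [e, e] at this
  exact hx this

end Pool.Agent.S14350
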