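import Pool.Statements.S14402
import Pool.Agent.H.MP_141b7f_lc.Main

set_option autoImplicit false
open Pool Pool.MP_141b7f_lc

namespace Pool.Agent.S14402

/-- The negation of the preceding statement: For every n ≥ 2, each LCL on ℤⁿ with a Borel solution on an invariant comeager set for every free Borel ℤⁿ-action on a Polish space also has one on an invariant conull set for every Borel probability measure. -/
theorem result :
    ¬ (∀ n : ℕ, 2 ≤ n → ∀ (k t : ℕ) (P : Set ({g : Fin n → ℤ // ∀ i, |g i| ≤ (t : ℤ)} → Fin k)),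
      (∀ (X : Type) [TopologicalSpace X] [PolishSpace X] [MeasurableSpace X] [BorelSpace X]
        (a : (Fin n → ℤ) → X → X),
        (∀ x, a 0 x = x) → (∀ g h x, a (g + h) x = a g (a h x)) →
        (∀ g, Measurable (a g)) → (∀ g x, a g x = x → g = 0) →
        ∃ (c : X → Fin k) (C : Set X), Measurable c ∧ MeasurableSet C ∧
          (∀ g x, x ∈ C → a g x ∈ C) ∧ C ∈ residual X ∧
          ∀ x ∈ C, (fun g : {g : Fin n → ℤ // ∀ i, |g i| ≤ (t : ℤ)} => c (a g.1 x)) ∈ P) →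
      (∀ (X : Type) [TopologicalSpace X] [PolishSpace X] [MeasurableSpace X] [BorelSpace X]
        (a : (Fin n → ℤ) → X → X),
        (∀ x, a 0 x = x) → (∀ g h x, a (g + h) x = a g (a h x)) →
        (∀ g, Measurable (a g)) → (∀ g x, a g x = x → g = 0) →
        ∀ (μ : MeasureTheory.Measure X), MeasureTheory.IsProbabilityMeasure μ →
        ∃ (c : X → Fin k) (C : Set X), Measurable c ∧ MeasurableSet C ∧
          (∀ g x, x ∈ C → a g x ∈ C) ∧ μ Cᶜ = 0 ∧
          ∀ x ∈ C, (fun g : {g : Fin n → ℤ // ∀ i, |g i| ≤ (t : ℤ)} => c (a g.1 x)) ∈ P)) := by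
  intro h
  have hi : (0 : Fin 2) ≠ 1 := by decide
  have hw : ∀ g : Fin 2 → ℤ, (∀ i, |g i| ≤ 4) → ∀ i, |g i| ≤ ((4 : ℕ) : ℤ) := fun g hg => hg
  obtain ⟨c, C, h1, _, _, h4, h5⟩ := h 2 le_rfl H.MP_141b7f_lc.kk 4
    (H.MP_141b7f_lc.Pat 0 1 fun g => ∀ i, |g i| ≤ ((4 : ℕ) : ℤ))
    (fun X _ _ _ _ a h0 hadd hm hf => H.MP_141b7f_lc.baire_pat hi hw a h0 hadd hm hf)
    UnitAddCircle H.MP_141b7f_lc.rot H.MP_141b7f_lc.rot_zero H.MP_141b7f_lc.rot_add
    (fun g => (H.MP_141b7f_lc.rot_cont g).measurable) H.MP_141b7f_lc.rot_free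
    MeasureTheory.volume H.MP_141b7f_lc.vol_prob
  refine H.MP_141b7f_lc.rot_no hi hw c h1 ?_
  have h6 : ∀ᵐ x ∂(MeasureTheory.volume : MeasureTheory.Measure UnitAddCircle), x ∈ C := h4
  exact h6.mono h5

end Pool.Agent.S14402
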