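import Pool.Statements.S14403
import Pool.Agent.H.MP_14681b_lc.Test
import Pool.Agent.H.MP_7c40ec_lc.Kol
import Pool.Agent.H.MP_7c40ec_lc.Game

set_option autoImplicit false
open Pool Pool.MP_14681b_lc

namespace Pool.Agent.S14403

open Finset Filter Classical Pool.Agent.Lib.PR Pool.Agent.H.MP_14681b_lc Pool.Agent.H.MP_7c40ec_lc

attribute [local irreducible] Primrec

theorem val_inj (p : List Bool) : ∀ q : List Bool, p.length = q.length → val p = val q → p = q := by
  induction p using List.reverseRecOn with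
  | nil => exact fun q h _ => (List.length_eq_zero_iff.1 h.symm).symm
  | append_singleton p b ih =>
    intro q h1 h2
    rcases List.eq_nil_or_concat q with rfl | ⟨q, c, rfl⟩
    · simp at h1
    rw [List.concat_eq_append] at *
    rw [val_append, val_append] at h2
    simp only [List.length_append, List.length_singleton, add_left_inj] at h1
    have : val p = val q ∧ b = c := by
      have e1 : val [true] = 1 := rfl
      have e2 : val [false] = 0 := rfl
      cases b <;> cases c <;> simp [e1, e2] at h2 ⊢ <;> omega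
    rw [ih q h1 this.1, this.2]

theorem val_pre (X : ℕ → Bool) (n m : ℕ) (h : n ≤ m) :
    val (List.ofFn fun i : Fin m => X i) / 2 ^ (m - n) = val (List.ofFn fun i : Fin n => X i) := by
  obtain ⟨k, rfl⟩ := Nat.exists_eq_add_of_le h
  have := val_lt (List.ofFn fun i : Fin k => X (i.natAdd n))
  rw [List.ofFn_add, val_append, Nat.add_sub_cancel_left]
  rw [List.length_ofFn] at this ⊢
  rw [Nat.add_comm, Nat.add_mul_div_right _ _ (by positivity), Nat.div_eq_of_lt this, zero_add]
  rfl

/-- For any optimal plain machine and any two sequences that escape every Martin-Löf test relative to the halting problem (given as Sigma-2 tests), some constant d makes infinitely many n have both length-n prefixes of plain complexity at least n minus d. -/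
theorem result :
  ∀ U : List Bool →. List Bool,
    Partrec U →
    (∀ M : List Bool →. List Bool, Partrec M →
      ∃ c : ℕ, ∀ p σ : List Bool, σ ∈ M p →
        ∃ q : List Bool, σ ∈ U q ∧ q.length ≤ p.length + c) →
    ∀ X Y : ℕ → Bool,
      (¬ ∃ R : ℕ × List Bool × ℕ × ℕ → Bool, Computable R ∧
          (∀ k : ℕ, ∀ S : Finset (List Bool),
            (∀ σ ∈ S, ∃ a : ℕ, ∀ b : ℕ, R (k, σ, a, b) = true) →
            ∑ σ ∈ S, ((1:ℝ)/2) ^ σ.length ≤ ((1:ℝ)/2) ^ k) ∧
          ∀ k : ℕ, ∃ n : ℕ, ∃ a : ℕ, ∀ b : ℕ,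
            R (k, List.ofFn (fun i : Fin n => X i), a, b) = true) →
      (¬ ∃ R : ℕ × List Bool × ℕ × ℕ → Bool, Computable R ∧
          (∀ k : ℕ, ∀ S : Finset (List Bool),
            (∀ σ ∈ S, ∃ a : ℕ, ∀ b : ℕ, R (k, σ, a, b) = true) →
            ∑ σ ∈ S, ((1:ℝ)/2) ^ σ.length ≤ ((1:ℝ)/2) ^ k) ∧
          ∀ k : ℕ, ∃ n : ℕ, ∃ a : ℕ, ∀ b : ℕ,
            R (k, List.ofFn (fun i : Fin n => Y i), a, b) = true) →
      ∃ d : ℕ, ∃ᶠ n in Filter.atTop,
        (∀ q : List Bool, List.ofFn (fun i : Fin n => X i) ∈ U q → n ≤ q.length + d) ∧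
        (∀ q : List Bool, List.ofFn (fun i : Fin n => Y i) ∈ U q → n ≤ q.length + d) := by
  intro U hU _ X Y hX hY
  by_contra hn
  obtain ⟨G, g1, g2, -, g3⟩ := graph_bool hU
  have pv := prim_val
  let β : ℕ → ℕ → ℕ → Prop := fun d n v => ∃ w : List Bool × List Bool × ℕ, G w.1 w.2.1 w.2.2 = true ∧
    w.2.1.length = n ∧ val w.2.1 = v ∧ w.1.length + d < n
  obtain ⟨T, t1, t2, t3⟩ := test β (re_ex (pred (by fun_prop))) fun d n => by
    unfold ind
    rw [avg_card, one_div_pow, mul_one_div, div_le_div_iff₀ (by positivity) (by positivity), one_mul]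
    norm_cast
    have h : ∀ v ∈ {v ∈ range (2 ^ n) | β d n v}, β d n v := fun v hv => (mem_filter.1 hv).2
    generalize {v ∈ range (2 ^ n) | β d n v} = S at h
    rcases S.eq_empty_or_nonempty with rfl | ⟨v0, h0⟩
    · simp
    choose! w h1 h2 h3 h4 using h
    have := h4 v0 h0
    rw [← card_image_of_injOn (f := fun v => (w v).1) fun u hu v hv e => by
      rw [← h3 u hu, ← h3 v hv, Part.mem_unique (g2 _ _ _ (h1 u hu)) ((show (w u).1 = (w v).1 from e) ▸
        g2 _ _ _ (h1 v hv))]]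
    refine (Nat.mul_le_mul_right _ (card_short (n - d - 1) _ fun p hp => ?_)).trans (le_of_eq ?_)
    · obtain ⟨v, hv, rfl⟩ := mem_image.1 hp
      have := h4 v hv
      omega
    · rw [← pow_add]
      congr 1
      omega
  let R : ℕ × List Bool × ℕ × ℕ → Bool := fun p =>
    T (p.1 + 4 + p.2.2.1.unpair.1) p.2.1.length (val p.2.1) p.2.2.1.unpair.2 p.2.2.2
  have r1 : Computable R := Primrec.to_comp (by fun_prop)
  have r2 : ∀ k : ℕ, ∀ S : Finset (List Bool), (∀ σ ∈ S, ∃ a : ℕ, ∀ b : ℕ, R (k, σ, a, b) = true) →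
      ∑ σ ∈ S, ((1:ℝ)/2) ^ σ.length ≤ ((1:ℝ)/2) ^ k := fun k S h => by
    choose! w hw using h
    rw [← sum_fiberwise_of_maps_to (g := fun σ => (w σ).unpair.1) fun σ => mem_image_of_mem _]
    refine le_trans (sum_le_sum fun e _ => ?_) ((mul_sum _ _ _).symm.trans_le
      (mul_le_of_le_one_right (by positivity) (geo _)))
    have := t2 (k + 4 + e) ({σ ∈ S | (w σ).unpair.1 = e}.image fun σ => (σ.length, val σ))
      fun p hp => by
        obtain ⟨σ, h, rfl⟩ := mem_image.1 hp
        obtain ⟨h', rfl⟩ := mem_filter.1 h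
        exact ⟨val_lt σ, (w σ).unpair.2, hw σ h'⟩
    rw [sum_image fun p _ q _ h => val_inj p q (Prod.ext_iff.1 h).1 (Prod.ext_iff.1 h).2] at this
    refine this.trans (le_of_eq ?_)
    simp only [one_div_pow, pow_add]
    field_simp
    norm_num
  obtain ⟨k, hk⟩ := not_forall.1 fun h => hX ⟨R, r1, r2, h⟩
  obtain ⟨l, hl⟩ := not_forall.1 fun h => hY ⟨R, r1, r2, h⟩
  have e : ∀ (Z : ℕ → Bool) n, val (List.ofFn fun i : Fin n => Z i) < 2 ^ n := fun Z n => by
    simpa using val_lt (List.ofFn fun i : Fin n => Z i)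
  have f : ∀ (Z : ℕ → Bool) d n, ¬ (∀ q : List Bool, List.ofFn (fun i : Fin n => Z i) ∈ U q →
      n ≤ q.length + d) → β d n (val (List.ofFn fun i : Fin n => Z i)) := fun Z d n h => by
    push Not at h
    obtain ⟨q, h1, h2⟩ := h
    obtain ⟨t, ht⟩ := g3 _ _ h1
    exact ⟨(q, _, t), ht, List.length_ofFn, rfl, h2⟩
  rcases t3 (k + 4 + l) _ _ (e X) (e Y) (val_pre X) (val_pre Y)
    ((not_frequently.1 (not_exists.1 hn _)).mono fun n h => (not_and_or.1 h).imp (f X _ n) (f Y _ n))
    with ⟨n, a, h⟩ | ⟨n, a, h⟩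
  · exact hk ⟨n, Nat.pair l a, fun b => by simpa [R] using h b⟩
  · exact hl ⟨n, Nat.pair k a, fun b => by
      simpa [R, show l + 4 + k = k + 4 + l by omega] using h b⟩

end Pool.Agent.S14403
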