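import Pool.Statements.S14416
import Pool.Agent.H.MP_f4da35_lc.C

set_option autoImplicit false
open Pool Pool.MP_16f0b8_lc

namespace Pool.Agent.S14416

open Pool.Agent.H.MP_f4da35_lc Pool.Agent.Lib.helper21.Fn
open scoped Classical

/-- The negation of the preceding statement: For all n,k ≥ 2: every k-coloring of (n+1)-sets of naturals has some k-coloring of n-sets such that every infinite homogeneous set for the latter Turing-computes an infinite homogeneous set for the former. -/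
theorem result :
    ¬ (∀ n k : ℕ, 2 ≤ n → 2 ≤ k →
      ∀ c : Finset ℕ → Fin k, ∃ d : Finset ℕ → Fin k,
        ∀ H : Set ℕ, H.Infinite →
          (∃ i : Fin k, ∀ s : Finset ℕ, (↑s : Set ℕ) ⊆ H → s.card = n → d s = i) →
          ∃ G : Set ℕ, G.Infinite ∧
            (∃ j : Fin k, ∀ s : Finset ℕ, (↑s : Set ℕ) ⊆ G → s.card = n + 1 → c s = j) ∧
            TuringReducible
              (fun m : ℕ => Part.some (Set.indicator G (fun _ => (1 : ℕ)) m))
              (fun m : ℕ => Part.some (Set.indicator H (fun _ => (1 : ℕ)) m))) := by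
  intro h
  obtain ⟨f, hf⟩ := main
  obtain ⟨g, hg⟩ := h 2 2 le_rfl le_rfl fun s =>
    if ∀ x ∈ s, ∀ y ∈ s, ∀ z ∈ s, x < y → y < z → f x y = f y z then 0 else 1
  obtain ⟨H, h1, h2, h3⟩ := hf fun y z => decide (g {y, z} = 0)
  obtain ⟨col, h2⟩ := hom h2
  obtain ⟨X, h4, ⟨j, h5⟩, h6⟩ := hg {m | H m = true} h1 ⟨col, fun s hs => h2 s hs⟩
  have e1 : ∀ Y : Set ℕ, (fun m => Part.some (Y.indicator (fun _ => (1 : ℕ)) m)) =
      orc fun m => decide (m ∈ Y) := fun Y => funext fun m => by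
    by_cases h : m ∈ Y <;> simp [orc, h]
  rw [e1, e1] at h6
  have h7 : ∀ x ∈ X, ∀ y ∈ X, ∀ z ∈ X, x < y → y < z → (f x y = f y z ↔ j = 0) := by
    intro x hx y hy z hz k1 k2
    rw [← h5 {x, y, z} (by simp [Set.insert_subset_iff, hx, hy, hz])
      (Finset.card_eq_three.2 ⟨x, y, z, by omega, by omega, by omega, rfl⟩)]
    refine ⟨fun k => if_pos fun a ha b hb c hc k3 k4 => ?_, fun k => by_contra fun k' => ?_⟩
    · simp only [Finset.mem_insert, Finset.mem_singleton] at ha hb hc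
      obtain ⟨rfl, rfl, rfl⟩ : a = x ∧ b = y ∧ c = z := by omega
      exact k
    · rw [if_neg fun k3 => k' (k3 x (by simp) y (by simp) z (by simp) k1 k2)] at k
      exact absurd k (by decide)
  obtain ⟨x, hx, y, hy, k1, k2⟩ := h4.exists_lt_map_eq_of_mapsTo
    (f := fun y => {c | ∃ z ∈ X, y < z ∧ f y z = c}) (Set.mapsTo_univ _ _) Set.finite_univ
  obtain ⟨z, hz, k3, k4⟩ : f x y ∈ {c | ∃ z ∈ X, y < z ∧ f y z = c} :=
    (Set.ext_iff.1 k2 _).1 ⟨y, hy, k1, rfl⟩
  have h8 := (h7 x hx y hy z hz k1 k3).1 k4.symm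
  refine h3 (fun m => decide (m ∈ X)) (by simpa using h4) (by simpa using h6)
    ⟨f x y, fun a b ha hb hab => ?_⟩
  obtain ⟨u, hu, k5⟩ := h4.exists_gt (b + y)
  obtain ⟨v, hv, k6⟩ := h4.exists_gt u
  have k7 : ∀ a ∈ X, ∀ b ∈ X, a < b → b < u → f a b = f u v := fun a ha b hb k k' =>
    ((h7 a ha b hb u hu k k').2 h8).trans ((h7 b hb u hu v hv k' k6).2 h8)
  rw [k7 a (of_decide_eq_true ha) b (of_decide_eq_true hb) hab (by omega),
    k7 x hx y hy k1 (by omega)]

end Pool.Agent.S14416
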