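import Pool.Statements.S14417
import Pool.Agent.H.MP_173f50_lc.A

set_option autoImplicit false
open scoped NNReal ENNReal
open Pool Pool.MP_173f50_lc

namespace Pool.Agent.S14417

/-- The family of sets {gauge functions f (nondecreasing, right-continuous, f(0)=0, positive off 0) with positive f-Hausdorff measure on A}, as A ranges over subsets of the reals, has cardinality 2 to the continuum. -/
theorem result :
    Cardinal.mk
      (Set.range (fun A : Set ℝ =>
        {f : ℝ≥0 → ℝ≥0 |
          Monotone f ∧ f 0 = 0 ∧ (∀ r : ℝ≥0, 0 < r → 0 < f r) ∧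
          (∀ x : ℝ≥0, ContinuousWithinAt f (Set.Ici x) x) ∧
          0 < (MeasureTheory.OuterMeasure.mkMetric
                (fun r : ℝ≥0∞ => ((f r.toNNReal : ℝ≥0) : ℝ≥0∞)) :
                MeasureTheory.OuterMeasure ℝ) A}))
      = 2 ^ Cardinal.continuum := by
  open Pool.Agent.H.MP_173f50_lc Cardinal in
  refine le_antisymm ?_ ?_
  · refine (mk_le_mk_of_subset (t := Set.powerset {f : ℝ≥0 → ℝ≥0 | Monotone f}) ?_).trans ?_
    · rintro _ ⟨A, rfl⟩ f hf
      exact hf.1
    · rw [mk_powerset]
      exact power_le_power_left two_ne_zero card_mono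
  · refine le_trans (by simp) (mk_le_of_injective (f := fun Y : Set (ℕ → Bool) =>
      ⟨_, ⋃ x ∈ Y, g (B x) '' Set.Ico 0 1, rfl⟩) fun Y Z h => Set.ext fun y => ?_)
    have := Set.ext_iff.1 (congrArg Subtype.val h) (f (B y))
    rw [← H_iff, ← H_iff]
    exact ⟨fun k => (this.1 ⟨f_mono, f_zero, fun _ => f_pos, f_cont, k⟩).2.2.2.2,
      fun k => (this.2 ⟨f_mono, f_zero, fun _ => f_pos, f_cont, k⟩).2.2.2.2⟩

end Pool.Agent.S14417
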