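import Pool.Statements.S14430
-- import your own Pool.Agent.* helpers here

set_option autoImplicit false
open Pool Pool.MP_1a0bc6_lc

namespace Pool.Agent.S14430

noncomputable def F {S : Type} [Fintype S] (T : Set S) (P : S → S → ℝ) (x : S → ℝ) : S → ℝ :=
  T.indicator (fun _ => (1 : ℝ)) + Tᶜ.indicator (fun s => ∑ t, P s t * x t)

noncomputable def V {S : Type} [Fintype S] (T : Set S) (P : S → S → ℝ) (s : S) : ℝ :=
  ⨆ n : ℕ, (F T P)^[n] 0 s

section
variable {S : Type} [Fintype S] {T : Set S} {P : S → S → ℝ}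

lemma F_mem {x : S → ℝ} {s : S} (h : s ∈ T) : F T P x s = 1 := by simp [F, h]

lemma F_not {x : S → ℝ} {s : S} (h : s ∉ T) : F T P x s = ∑ t, P s t * x t := by simp [F, h]

lemma F_mono (h0 : ∀ s t, 0 ≤ P s t) : Monotone (F T P) := by
  intro x y hxy s
  by_cases h : s ∈ T
  · rw [F_mem h, F_mem h]
  · rw [F_not h, F_not h]
    exact Finset.sum_le_sum fun t _ => mul_le_mul_of_nonneg_left (hxy t) (h0 s t)

lemma it_le (h0 : ∀ s t, 0 ≤ P s t) {z : S → ℝ} (hz : 0 ≤ z) (hF : F T P z ≤ z) (n : ℕ) :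
    (F T P)^[n] 0 ≤ z := by
  induction n with
  | zero => exact hz
  | succ n ih => rw [Function.iterate_succ_apply']; exact (F_mono h0 ih).trans hF

lemma V_le (h0 : ∀ s t, 0 ≤ P s t) {z : S → ℝ} (hz : 0 ≤ z) (hF : F T P z ≤ z) (s : S) :
    V T P s ≤ z s := ciSup_le fun n => it_le h0 hz hF n s

lemma V_fix (h0 : ∀ s t, 0 ≤ P s t) (h1 : ∀ s, ∑ t, P s t = 1) (s : S) :
    V T P s = F T P (V T P) s := by
  have hF1 : F T P 1 ≤ 1 := by
    intro s
    by_cases h : s ∈ T
    · rw [F_mem h]; rfl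
    · rw [F_not h]; simp [h1]
  have hm : Monotone fun n => (F T P)^[n] 0 := by
    apply Monotone.monotone_iterate_of_le_map (F_mono h0)
    intro s
    by_cases h : s ∈ T
    · rw [F_mem h]; simp
    · rw [F_not h]; simp
  have ht : ∀ s, Filter.Tendsto (fun n => (F T P)^[n] 0 s) Filter.atTop (nhds (V T P s)) := by
    intro s
    refine tendsto_atTop_ciSup (fun a b hab => hm hab s) ⟨1, ?_⟩
    rintro _ ⟨n, rfl⟩
    exact it_le h0 (fun _ => zero_le_one) hF1 n s
  have h2 := (ht s).comp (Filter.tendsto_add_atTop_nat 1)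
  refine tendsto_nhds_unique h2 ?_
  have : ((fun n => (F T P)^[n] 0 s) ∘ fun a => a + 1) = fun n => F T P ((F T P)^[n] 0) s := by
    funext n; simp only [Function.comp]; rw [Function.iterate_succ_apply']
  rw [this]
  by_cases h : s ∈ T
  · simp only [F_mem h]; exact tendsto_const_nhds
  · simp only [F_not h]
    exact tendsto_finset_sum _ fun t _ => (ht t).const_mul _
end

/-- States: 0 start, 1 and 2 the two decision states, 3 in T only, 4 in U only, 5 in both. -/
noncomputable def dl (s : Fin 6) (a b : Bool) (t : Fin 6) : ℝ :=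
  if s = 0 then (if t = 1 ∨ t = 2 then 1 / 2 else 0)
  else if s = 1 then
    (if a then (if t = 3 then 3 / 4 else if t = 4 then 1 / 4 else 0) else (if t = 2 then 1 else 0))
  else if s = 2 then
    (if b then (if t = 1 ∨ t = 5 then 1 / 2 else 0)
     else if a then (if t = 3 then 1 / 4 else if t = 4 then 3 / 4 else 0)
     else (if t = 2 then 1 else 0))
  else if t = s then 1 else 0

lemma dl0 (s : Fin 6) (a b : Bool) (t : Fin 6) : 0 ≤ dl s a b t := by
  unfold dl; split_ifs <;> norm_num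

lemma dl1 (s : Fin 6) (a b : Bool) : ∑ t, dl s a b t = 1 := by
  fin_cases s <;> cases a <;> cases b <;> simp [Fin.sum_univ_six, dl] <;> norm_num

noncomputable def PP (σ τ : Fin 6 → Bool → ℝ) (s t : Fin 6) : ℝ :=
  ∑ a, ∑ b, σ s a * τ s b * dl s a b t

def St (σ : Fin 6 → Bool → ℝ) : Prop := (∀ s a, 0 ≤ σ s a) ∧ ∀ s, ∑ a, σ s a = 1

lemma PP0 {σ τ : Fin 6 → Bool → ℝ} (h : St σ) (k : St τ) (s t : Fin 6) : 0 ≤ PP σ τ s t :=
  Finset.sum_nonneg fun a _ => Finset.sum_nonneg fun b _ =>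
    mul_nonneg (mul_nonneg (h.1 s a) (k.1 s b)) (dl0 s a b t)

lemma St.f {σ : Fin 6 → Bool → ℝ} (h : St σ) (s : Fin 6) : σ s false = 1 - σ s true := by
  have := h.2 s
  simp only [Fintype.sum_bool] at this
  linarith

lemma PP1 {σ τ : Fin 6 → Bool → ℝ} (h : St σ) (k : St τ) (s : Fin 6) : ∑ t, PP σ τ s t = 1 := by
  unfold PP
  rw [Finset.sum_comm]
  have : ∀ a, ∑ t, ∑ b, σ s a * τ s b * dl s a b t = σ s a := by
    intro a
    rw [Finset.sum_comm]
    simp only [← Finset.mul_sum, dl1, mul_one, k.2]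
  simp only [this, h.2]

lemma step {σ τ : Fin 6 → Bool → ℝ} (h : St σ) (k : St τ) (x : Fin 6 → ℝ) :
    (∑ t, PP σ τ 0 t * x t = (x 1 + x 2) / 2) ∧
    (∑ t, PP σ τ 1 t * x t = σ 1 true * (3 / 4 * x 3 + 1 / 4 * x 4) + (1 - σ 1 true) * x 2) ∧
    (∑ t, PP σ τ 2 t * x t = τ 2 true * ((x 1 + x 5) / 2) + (1 - τ 2 true) *
      (σ 2 true * (1 / 4 * x 3 + 3 / 4 * x 4) + (1 - σ 2 true) * x 2)) ∧
    (∑ t, PP σ τ 3 t * x t = x 3) ∧ (∑ t, PP σ τ 4 t * x t = x 4) := by
  refine ⟨?_, ?_, ?_, ?_, ?_⟩ <;>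
    simp [Fin.sum_univ_six, PP, dl, h.f, k.f] <;> ring

def TT : Set (Fin 6) := {3, 5}
def UU : Set (Fin 6) := {4, 5}

lemma eqT {σ τ : Fin 6 → Bool → ℝ} (h : St σ) (k : St τ) :
    let v := V TT (PP σ τ)
    v 0 = (v 1 + v 2) / 2 ∧ v 1 = σ 1 true * (3 / 4) + (1 - σ 1 true) * v 2 ∧
    v 2 = τ 2 true * ((v 1 + 1) / 2) + (1 - τ 2 true) *
      (σ 2 true * (1 / 4) + (1 - σ 2 true) * v 2) := by
  intro v
  have fx := V_fix (T := TT) (PP0 h k) (PP1 h k)
  obtain ⟨s0, s1, s2, -, -⟩ := step h k v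
  have v3 : v 3 = 1 := (fx 3).trans (F_mem (by simp [TT]))
  have v5 : v 5 = 1 := (fx 5).trans (F_mem (by simp [TT]))
  have v4 : v 4 = 0 := by
    apply le_antisymm
    · have := V_le (T := TT) (PP0 h k) (z := fun s => if s = 4 then 0 else 1)
        (fun s => by dsimp; split_ifs <;> norm_num) (fun s => by
          by_cases hs : s ∈ TT
          · rw [F_mem hs]; rcases hs with rfl | rfl <;> simp
          · rw [F_not hs]
            by_cases h4 : s = 4
            · subst h4; rw [(step h k _).2.2.2.2]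
            · simp only [h4, if_false]
              refine le_trans (Finset.sum_le_sum fun t _ => ?_) (PP1 h k s).le
              have := PP0 h k s t
              split_ifs <;> linarith) 4
      simpa using this
    · exact le_ciSup_of_le ⟨1, by
        rintro _ ⟨n, rfl⟩
        refine it_le (PP0 h k) (z := 1) (fun _ => zero_le_one) (fun s => ?_) n 4
        by_cases hs : s ∈ TT
        · rw [F_mem hs]; rfl
        · rw [F_not hs]; simp [PP1 h k]⟩ 0 le_rfl
  refine ⟨?_, ?_, ?_⟩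
  · exact (fx 0).trans ((F_not (by simp [TT])).trans s0)
  · refine (fx 1).trans ((F_not (by simp [TT])).trans (s1.trans ?_)); rw [v3, v4]; ring
  · refine (fx 2).trans ((F_not (by simp [TT])).trans (s2.trans ?_)); rw [v3, v4, v5]; ring

lemma eqU {σ τ : Fin 6 → Bool → ℝ} (h : St σ) (k : St τ) :
    let v := V UU (PP σ τ)
    v 0 = (v 1 + v 2) / 2 ∧ v 1 = σ 1 true * (1 / 4) + (1 - σ 1 true) * v 2 ∧
    v 2 = τ 2 true * ((v 1 + 1) / 2) + (1 - τ 2 true) *
      (σ 2 true * (3 / 4) + (1 - σ 2 true) * v 2) := by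
  intro v
  have fx := V_fix (T := UU) (PP0 h k) (PP1 h k)
  obtain ⟨s0, s1, s2, -, -⟩ := step h k v
  have v4 : v 4 = 1 := (fx 4).trans (F_mem (by simp [UU]))
  have v5 : v 5 = 1 := (fx 5).trans (F_mem (by simp [UU]))
  have v3 : v 3 = 0 := by
    apply le_antisymm
    · have := V_le (T := UU) (PP0 h k) (z := fun s => if s = 3 then 0 else 1)
        (fun s => by dsimp; split_ifs <;> norm_num) (fun s => by
          by_cases hs : s ∈ UU
          · rw [F_mem hs]; rcases hs with rfl | rfl <;> simp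
          · rw [F_not hs]
            by_cases h4 : s = 3
            · subst h4; rw [(step h k _).2.2.2.1]
            · simp only [h4, if_false]
              refine le_trans (Finset.sum_le_sum fun t _ => ?_) (PP1 h k s).le
              have := PP0 h k s t
              split_ifs <;> linarith) 3
      simpa using this
    · exact le_ciSup_of_le ⟨1, by
        rintro _ ⟨n, rfl⟩
        refine it_le (PP0 h k) (z := 1) (fun _ => zero_le_one) (fun s => ?_) n 3
        by_cases hs : s ∈ UU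
        · rw [F_mem hs]; rfl
        · rw [F_not hs]; simp [PP1 h k]⟩ 0 le_rfl
  refine ⟨?_, ?_, ?_⟩
  · exact (fx 0).trans ((F_not (by simp [UU])).trans s0)
  · refine (fx 1).trans ((F_not (by simp [UU])).trans (s1.trans ?_)); rw [v3, v4]; ring
  · refine (fx 2).trans ((F_not (by simp [UU])).trans (s2.trans ?_)); rw [v3, v4, v5]; ring

def pure (c : Bool) : Fin 6 → Bool → ℝ := fun _ a => if a = c then 1 else 0

lemma pure_st (c : Bool) : St (pure c) :=
  ⟨fun s a => by unfold pure; split_ifs <;> norm_num, fun s => by cases c <;> simp [pure]⟩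

lemma main {σ τ : Fin 6 → Bool → ℝ} (h : St σ) (k : St τ)
    (H1 : ∀ σ', St σ' → V TT (PP σ' τ) 0 ≤ V TT (PP σ τ) 0 + 1 / 100)
    (H2 : ∀ τ', St τ' → V UU (PP σ τ) 0 ≤ V UU (PP σ τ') 0 + 1 / 100) : False := by
  obtain ⟨r0, r1, r2⟩ := eqT h k
  obtain ⟨u0, u1, u2⟩ := eqU h k
  have x0 := h.1 1 true
  have x1 : σ 1 true ≤ 1 := by have := h.1 1 false; rw [h.f] at this; linarith
  have q0 := h.1 2 true
  have q1 : σ 2 true ≤ 1 := by have := h.1 2 false; rw [h.f] at this; linarith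
  have b0 := k.1 2 true
  have b1 : τ 2 true ≤ 1 := by have := k.1 2 false; rw [k.f] at this; linarith
  rcases b0.eq_or_lt with hb | hb
  · have A := H1 _ (pure_st true)
    obtain ⟨a0, a1, a2⟩ := eqT (pure_st true) k
    simp only [pure, if_true, ← hb] at a0 a1 a2
    rw [← hb] at r2 u2
    rcases q0.eq_or_lt with hq | hq
    · have := V_le (T := TT) (PP0 h k) (z := ![3 / 8, 3 / 4, 0, 1, 0, 1])
        (fun s => by fin_cases s <;> simp <;> norm_num) (fun s => by
          obtain ⟨s0, s1, s2, s3, s4⟩ := step h k ![3 / 8, 3 / 4, 0, 1, 0, 1]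
          fin_cases s
          · refine (F_not (by simp [TT])).trans_le (s0.trans_le ?_); simp; norm_num
          · refine (F_not (by simp [TT])).trans_le (s1.trans_le ?_); simp; linarith
          · refine (F_not (by simp [TT])).trans_le (s2.trans_le ?_); simp [← hb, ← hq]
          · refine (F_mem (by simp [TT])).trans_le ?_; simp
          · refine (F_not (by simp [TT])).trans_le (s4.trans_le ?_); simp
          · refine (F_mem (by simp [TT])).trans_le ?_; simp) 0
      simp at this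
      linarith
    · have e1 : V TT (PP σ τ) 2 = 1 / 4 := by
        apply mul_left_cancel₀ hq.ne'; linarith
      have e2 : V UU (PP σ τ) 2 = 3 / 4 := by
        apply mul_left_cancel₀ hq.ne'; linarith
      rw [e1] at r1; rw [e2] at u1
      have B := H2 _ (pure_st true)
      obtain ⟨c0, c1, c2⟩ := eqU h (pure_st true)
      simp only [pure, if_true] at c0 c1 c2
      have hx : 24 / 25 ≤ σ 1 true := by linarith
      have : V UU (PP σ (pure true)) 1 ≤ 1 := by nlinarith
      nlinarith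
  · have A := H1 _ (pure_st false)
    obtain ⟨a0, a1, a2⟩ := eqT (pure_st false) k
    simp only [pure, Bool.true_eq_false, if_false] at a0 a1 a2
    have e1 : V TT (PP (pure false) τ) 2 = 1 := by
      apply mul_left_cancel₀ hb.ne'; rw [a1] at a2; linarith
    have B := H2 _ (pure_st false)
    have := V_le (T := UU) (PP0 h (pure_st false)) (z := ![3 / 4, 3 / 4, 3 / 4, 0, 1, 1])
        (fun s => by fin_cases s <;> simp <;> norm_num) (fun s => by
          obtain ⟨s0, s1, s2, s3, s4⟩ := step h (pure_st false) ![3 / 4, 3 / 4, 3 / 4, 0, 1, 1]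
          fin_cases s
          · refine (F_not (by simp [UU])).trans_le (s0.trans_le ?_); simp
          · refine (F_not (by simp [UU])).trans_le (s1.trans_le ?_); simp; linarith
          · refine (F_not (by simp [UU])).trans_le (s2.trans_le ?_); simp [pure]; linarith
          · refine (F_not (by simp [UU])).trans_le (s3.trans_le ?_); simp
          · refine (F_mem (by simp [UU])).trans_le ?_; simp
          · refine (F_mem (by simp [UU])).trans_le ?_; simp) 0
    simp at this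
    set x := σ 1 true
    set q := σ 2 true
    set b := τ 2 true
    set eA := 3 * (1 - V TT (PP σ τ) 1) - (1 - V UU (PP σ τ) 1) with heA
    set eB := 3 * (1 - V TT (PP σ τ) 2) - (1 - V UU (PP σ τ) 2) with heB
    have f1 : eA = (1 - x) * eB := by rw [heA, heB]; linarith
    have f2 : eB * (b + (1 - b) * q) = b * eA / 2 + (1 - b) * q * 2 := by
      rw [heA, heB]; linarith
    have f3 : 0 ≤ eB := by
      by_contra hn
      push Not at hn
      have g1 : 0 ≤ (1 - b) * q := mul_nonneg (by linarith) q0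
      have g2 : 0 < b + (1 - b) * q - b * (1 - x) / 2 := by nlinarith
      have g3 := mul_pos (neg_pos.2 hn) g2
      rw [f1] at f2
      nlinarith
    have f4 : 0 ≤ eA := by rw [f1]; exact mul_nonneg (by linarith) f3
    linarith

theorem result :
    ¬ (∀ (S A B : Type) [Fintype S] [Fintype A] [Fintype B] [Nonempty A] [Nonempty B]
      (δ : S → A → B → S → ℝ),
      (∀ s a b t, 0 ≤ δ s a b t) → (∀ s a b, ∑ t, δ s a b t = 1) →
      ∀ (T U : Set S) (s₀ : S) (ε : ℝ), 0 < ε →
      ∃ σ : S → A → ℝ, ∃ τ : S → B → ℝ,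
        (∀ s a, 0 ≤ σ s a) ∧ (∀ s, ∑ a, σ s a = 1) ∧
        (∀ s b, 0 ≤ τ s b) ∧ (∀ s, ∑ b, τ s b = 1) ∧
        (∀ σ' : S → A → ℝ, (∀ s a, 0 ≤ σ' s a) → (∀ s, ∑ a, σ' s a = 1) →
          (⨆ n : ℕ, (fun x : S → ℝ => T.indicator (fun _ => (1 : ℝ)) +
              Tᶜ.indicator (fun s => ∑ t, (∑ a, ∑ b, σ' s a * τ s b * δ s a b t) * x t))^[n] 0 s₀)
            ≤ (⨆ n : ℕ, (fun x : S → ℝ => T.indicator (fun _ => (1 : ℝ)) +
              Tᶜ.indicator (fun s => ∑ t, (∑ a, ∑ b, σ s a * τ s b * δ s a b t) * x t))^[n] 0 s₀) + ε) ∧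
        (∀ τ' : S → B → ℝ, (∀ s b, 0 ≤ τ' s b) → (∀ s, ∑ b, τ' s b = 1) →
          (⨆ n : ℕ, (fun x : S → ℝ => U.indicator (fun _ => (1 : ℝ)) +
              Uᶜ.indicator (fun s => ∑ t, (∑ a, ∑ b, σ s a * τ s b * δ s a b t) * x t))^[n] 0 s₀)
            ≤ (⨆ n : ℕ, (fun x : S → ℝ => U.indicator (fun _ => (1 : ℝ)) +
              Uᶜ.indicator (fun s => ∑ t, (∑ a, ∑ b, σ s a * τ' s b * δ s a b t) * x t))^[n] 0 s₀) + ε)) := by
  intro H
  obtain ⟨σ, τ, a, b, c, d, H1, H2⟩ := H (Fin 6) Bool Bool dl dl0 dl1 TT UU 0 (1 / 100) (by norm_num)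
  exact main ⟨a, b⟩ ⟨c, d⟩ (fun σ' h => H1 σ' h.1 h.2) (fun τ' h => H2 τ' h.1 h.2)

end Pool.Agent.S14430
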