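import Pool.Statements.S14438
import Pool.Agent.H.MP_ad67df_lc.D

set_option autoImplicit false
open Classical
open Pool Pool.MP_1b0fb5_lc

namespace Pool.Agent.S14438

open Pool.Agent.Lib.helper21.Fn Pool.Agent.H.MP_ad67df_lc
open Pool.Agent.H.MP_e12961_lc MeasureTheory ProbabilityTheory Filter Finset

theorem ae_rand : ∀ᵐ X ∂mu, ¬ ∃ f : ℕ → ℕ → Option (List Bool), Computable₂ f ∧
    (∀ n M L : ℕ, ((Finset.univ : Finset (Fin L → Bool)).filter (fun τ =>
      ∃ j < M, ∃ σ : List Bool, f n j = some σ ∧ σ.length ≤ L ∧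
        ∀ i : Fin L, (i : ℕ) < σ.length → σ.getD i false = τ i)).card * 2 ^ n ≤ 2 ^ L) ∧
    ∀ n : ℕ, ∃ j : ℕ, ∃ σ : List Bool, f n j = some σ ∧ σ = (List.range σ.length).map X := by
  have h1 : {f : ℕ → ℕ → Option (List Bool) | Computable₂ f}.Countable :=
    Set.MapsTo.countable_of_injOn (t := Set.range Nat.Partrec.Code.eval)
      (f := fun f n => Part.bind (Encodable.decode (α := ℕ × ℕ) n : Part (ℕ × ℕ)) fun a =>
        (Part.some (f a.1 a.2)).map Encodable.encode)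
      (fun f hf => Nat.Partrec.Code.exists_code.1 hf) (fun f _ g _ h => funext₂ fun a b => by
        simpa using congrFun h (Encodable.encode (a, b))) (Set.countable_range _)
  simp only [not_exists, not_and]
  refine (ae_ball_iff h1).2 fun f _ => eventually_imp_distrib_left.2 fun h => ?_
  have h2 : ∀ n, mu {X | ∃ j σ, f n j = some σ ∧ σ = (List.range σ.length).map X} ≤ 2⁻¹ ^ n := by
    intro n
    have h3 : {X : Om | ∃ j σ, f n j = some σ ∧ σ = (List.range σ.length).map X} ⊆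
        ⋃ M, {X : Om | ∃ j < M, ∃ σ : List Bool, f n j = some σ ∧ σ.length ≤ M ∧
          ∀ i : Fin M, (i : ℕ) < σ.length → σ.getD i false = X i} := by
      rintro X ⟨j, σ, k1, k2⟩
      refine Set.mem_iUnion.2 ⟨j + σ.length + 1, j, by omega, σ, k1, by omega, fun i hi => ?_⟩
      refine (congrArg (·.getD i false) k2).trans ?_
      simp [hi]
    refine (measure_mono h3).trans ?_
    rw [Monotone.measure_iUnion fun M M' hM X hX => by
      obtain ⟨j, k1, σ, k2, k3, k4⟩ := hX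
      exact ⟨j, by omega, σ, k2, by omega, fun i hi => k4 ⟨i, by omega⟩ hi⟩]
    refine iSup_le fun M => (mu_fin M {τ | ∃ j < M, ∃ σ : List Bool, f n j = some σ ∧
      σ.length ≤ M ∧ ∀ i : Fin M, (i : ℕ) < σ.length → σ.getD i false = τ i}).trans_le ?_
    have h4 := h n M M
    rw [← Set.ncard_coe_finset, coe_filter] at h4
    simp only [mem_univ, true_and] at h4
    rw [← ENNReal.inv_pow, ← ENNReal.inv_pow, ← div_eq_mul_inv, ENNReal.div_le_iff (by simp)
      (by simp), mul_comm, ← div_eq_mul_inv, ENNReal.le_div_iff_mul_le (by simp) (by simp)]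
    exact_mod_cast h4
  refine le_zero_iff.1 (ge_of_tendsto' (ENNReal.tendsto_pow_atTop_nhds_zero_of_lt_one
    (r := 2⁻¹) (by norm_num)) fun n => (measure_mono fun X hX => ?_).trans (h2 n))
  exact not_not.1 hX n

theorem ae_nred : ∀ᵐ Z ∂mu, ¬ TuringReducible (orc Z) (orc (Z ∘ (2 * ·))) := by
  have h1 : ∀ e, mu {Z | ∀ j, (∃ u, att e (Z ∘ (2 * ·)) u j ≠ 0) ∧ ∀ u,
      att e (Z ∘ (2 * ·)) u j ≠ 0 → att e (Z ∘ (2 * ·)) u j = (Z j).toNat + 1} = 0 := fun e => by
    have h2 : ∀ u j, Measurable fun Z : Om => att e (Z ∘ (2 * ·)) u j := fun u j =>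
      (measurable_of_countable fun m => if raw e (Nat.pair u.unpair.1 m) u.unpair.2 j ≤ u then
        raw e (Nat.pair u.unpair.1 m) u.unpair.2 j else 0).comp ((cd_cont _).measurable.comp
          (measurable_pi_lambda _ fun i => measurable_pi_apply _))
    generalize hS : {Z : Om | ∀ j, (∃ u, att e (Z ∘ (2 * ·)) u j ≠ 0) ∧ ∀ u,
      att e (Z ∘ (2 * ·)) u j ≠ 0 → att e (Z ∘ (2 * ·)) u j = (Z j).toNat + 1} = S
    have h3 : MeasurableSet S := by
      rw [← hS, measurableSet_setOf]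
      fun_prop
    let φ : ℕ → Om → Om := fun m Z i => if i = 2 * m + 1 then !Z i else Z i
    have h4 : ∀ m, Measurable (φ m) := fun m => measurable_pi_lambda _ fun i =>
      (measurable_of_countable fun b => if i = 2 * m + 1 then !b else b).comp (measurable_pi_apply i)
    have h5 : ∀ m, mu (φ m ⁻¹' S) = mu S := fun m => by
      rw [← Measure.map_apply (h4 m) h3, mu, Measure.infinitePi_map_pi _
        (f := fun i b => if i = 2 * m + 1 then !b else b) fun _ => measurable_of_countable _]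
      refine congrArg (Measure.infinitePi · S) (funext fun i => ?_)
      split_ifs
      · refine Measure.ext_of_singleton fun b => ?_
        rw [Measure.map_apply (measurable_of_countable _) (measurableSet_singleton _),
          show (fun b => !b) ⁻¹' {b} = {!b} by ext c; cases b <;> cases c <;> simp]
        simp only [uniformOn_univ, Measure.count_singleton]
      · exact Measure.map_id
    have h6 : ∀ m Z, φ m Z ∘ (2 * ·) = Z ∘ (2 * ·) := fun m Z => funext fun i =>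
      if_neg (show 2 * i ≠ 2 * m + 1 by omega)
    have h7 := measure_iUnion (μ := mu) (f := fun m => φ m ⁻¹' S) (fun m m' h =>
      Set.disjoint_left.2 fun Z k1 k2 => by
        rw [← hS] at k1 k2
        obtain ⟨⟨u, k3⟩, k4⟩ := k1 (2 * m + 1)
        have k5 := (k2 (2 * m + 1)).2 u
        rw [h6] at k3 k4 k5
        have := (k4 u k3).symm.trans (k5 k3)
        simp only [φ, if_true, if_neg (show 2 * m + 1 ≠ 2 * m' + 1 by omega)] at this
        cases h : Z (2 * m + 1) <;> simp [h] at this) fun m => h4 m h3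
    by_contra h8
    simp only [h5, ENNReal.tsum_const_eq_top_of_ne_zero h8] at h7
    exact measure_ne_top _ _ h7
  exact measure_mono_null (fun Z hZ => Set.mem_iUnion.2 (complete _ _ (not_not.1 hZ)))
    (measure_iUnion_null h1)

theorem ae_half {P : Om → Prop} (h : ∀ᵐ Z ∂mu, P Z) : ∀ᵐ Z ∂mu, P (Z ∘ (2 * ·)) :=
  (MeasurePreserving.mk (measurable_pi_lambda _ fun _ => measurable_pi_apply _)
    (Measure.map_infinitePi_infinitePi_of_inj (mul_right_injective₀ two_ne_zero)) :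
    MeasurePreserving (fun Z : Om => Z ∘ (2 * ·)) mu mu).quasiMeasurePreserving.ae h

noncomputable def dd (X Y : Om) : ℝ := limsup
  (fun n : ℕ => (((Finset.range n).filter (fun i => X i ≠ Y i)).card : ℝ) / (n : ℝ)) atTop

theorem bd (X Y : Om) (n : ℕ) : (#{i ∈ range n | X i ≠ Y i} : ℝ) / n ≤ 1 :=
  div_le_one_of_le₀ (by exact_mod_cast (card_filter_le _ _).trans_eq (card_range n)) (by positivity)

theorem dd_nonneg (X Y : Om) : 0 ≤ dd X Y := le_limsup_of_frequently_le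
  (Frequently.of_forall fun n => by positivity) (isBoundedUnder_of ⟨1, bd X Y⟩)

theorem dd_le (X Y : Om) : dd X Y ≤ 1 := limsup_le_of_le
  (isCoboundedUnder_le_of_le _ (x := 0) fun n => by positivity) (Eventually.of_forall (bd X Y))

theorem dd_near {X X' : Om} (h : ∀ i, i % 4 ≠ 0 → X i = X' i) (Y : Om) :
    dd X Y ≤ dd X' Y + 1 / 3 := by
  have h0 := isCoboundedUnder_le_of_le atTop (x := (0 : ℝ))
    (f := fun n : ℕ => (#{i ∈ range n | X' i ≠ Y i} : ℝ) / n) fun n => by positivity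
  rw [dd, dd, ← limsup_add_const _ _ _ (isBoundedUnder_of ⟨1, bd X' Y⟩) h0]
  refine limsup_le_limsup ((eventually_ge_atTop 9).mono fun n hn => ?_)
    (isCoboundedUnder_le_of_le _ (x := 0) fun n => by positivity)
    (isBoundedUnder_of ⟨2, fun n => by have := bd X' Y n; linarith⟩)
  have h1 : #{i ∈ range n | X i ≠ Y i} ≤ #{i ∈ range n | X' i ≠ Y i} + (n + 3) / 4 := by
    induction n using Nat.rec with
    | zero => simp
    | succ n _ =>
      refine (card_le_card (t := {i ∈ range (n + 1) | X' i ≠ Y i} ∪ (range ((n + 1 + 3) / 4)).image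
        (4 * ·)) fun i hi => ?_).trans ((card_union_le _ _).trans (by
          gcongr; exact card_image_le.trans_eq (card_range _)))
      simp only [mem_filter, mem_range, mem_union, mem_image] at hi ⊢
      by_cases h2 : i % 4 = 0
      · exact Or.inr ⟨i / 4, by omega, by omega⟩
      · exact Or.inl ⟨hi.1, h i h2 ▸ hi.2⟩
  have h2 : (0 : ℝ) < n := by exact_mod_cast (by omega : 0 < n)
  have h3 : 3 * #{i ∈ range n | X i ≠ Y i} ≤ 3 * #{i ∈ range n | X' i ≠ Y i} + n := by omega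
  have h4 : (3 * #{i ∈ range n | X i ≠ Y i} : ℝ) ≤ 3 * #{i ∈ range n | X' i ≠ Y i} + n := by
    exact_mod_cast h3
  dsimp only
  rw [div_add' _ _ _ h2.ne', div_le_div_iff_of_pos_right h2]
  linarith

theorem cod {X B : Om} (h : TuringReducible (orc X) (orc B)) : ∃ X' : Om,
    (TuringReducible (orc X') (orc B) ∧ TuringReducible (orc B) (orc X')) ∧
      ∀ i, i % 4 ≠ 0 → X i = X' i := by
  refine ⟨fun i => if i % 4 = 0 then B (i / 4) else X i, ⟨?_, ?_⟩, fun i hi => (if_neg hi).symm⟩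
  · have p : Primrec fun w : ℕ => if w.unpair.1 % 4 = 0 then w.unpair.2.unpair.2
        else w.unpair.2.unpair.1 := .ite (Primrec.eq.comp (Primrec.nat_mod.comp (Primrec.fst.comp
      .unpair) (.const 4)) (.const 0)) (Primrec.snd.comp (Primrec.unpair.comp (Primrec.snd.comp
        .unpair))) (Primrec.fst.comp (Primrec.unpair.comp (Primrec.snd.comp .unpair)))
    refine RecursiveIn.iff_nat.2 ((Nat.RecursiveIn.comp (Primrec.nat_iff.1 p).recursiveIn
      (Nat.RecursiveIn.pair (Primrec.nat_iff.1 Primrec.id).recursiveIn (Nat.RecursiveIn.pair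
        (RecursiveIn.iff_nat.1 h) (RecursiveIn.iff_nat.1 (comp_red B (h := (· / 4))
          (Primrec.nat_div.comp .id (.const 4)).to_comp))))).of_eq fun n => ?_)
    by_cases h : n % 4 = 0 <;> simp [orc, Seq.seq, h]
  · convert comp_red _ (h := (4 * ·)) (Primrec.nat_mul.comp (.const 4) .id).to_comp using 2
    ext i
    simp


/-- The negation of the preceding statement: For any finitely many Martin-Löf random reals a_i and b_j, with no a_i Turing equivalent to any b_j, there is a Martin-Löf random c whose degree is at density-Hausdorff distance 1/2 from each a_i's degree and 1 from each b_j's degree. -/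
theorem result :
    ¬ (∀ (R : (ℕ → Bool) → Prop) (E : (ℕ → Bool) → (ℕ → Bool) → Prop)
    (δ H : (ℕ → Bool) → (ℕ → Bool) → ℝ),
    (∀ X : ℕ → Bool, R X ↔ ¬ ∃ f : ℕ → ℕ → Option (List Bool), Computable₂ f ∧
      (∀ n M L : ℕ,
        ((Finset.univ : Finset (Fin L → Bool)).filter (fun τ =>
          ∃ j < M, ∃ σ : List Bool, f n j = some σ ∧ σ.length ≤ L ∧
            ∀ i : Fin L, (i : ℕ) < σ.length → σ.getD i false = τ i)).card * 2 ^ n ≤ 2 ^ L) ∧
      ∀ n : ℕ, ∃ j : ℕ, ∃ σ : List Bool, f n j = some σ ∧ σ = (List.range σ.length).map X) →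
    (∀ X Y : ℕ → Bool, E X Y ↔
      (TuringReducible (fun n => Part.some (X n).toNat) (fun n => Part.some (Y n).toNat) ∧
       TuringReducible (fun n => Part.some (Y n).toNat) (fun n => Part.some (X n).toNat))) →
    (∀ X Y : ℕ → Bool, δ X Y = Filter.limsup
      (fun n : ℕ => (((Finset.range n).filter (fun i => X i ≠ Y i)).card : ℝ) / (n : ℝ))
      Filter.atTop) →
    (∀ X Y : ℕ → Bool, H X Y = max
      (sSup {r : ℝ | ∃ X' : ℕ → Bool, E X' X ∧ r = sInf {s : ℝ | ∃ Y' : ℕ → Bool, E Y' Y ∧ s = δ X' Y'}})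
      (sSup {r : ℝ | ∃ Y' : ℕ → Bool, E Y' Y ∧ r = sInf {s : ℝ | ∃ X' : ℕ → Bool, E X' X ∧ s = δ X' Y'}})) →
    ∀ (m k : ℕ) (a : Fin m → ℕ → Bool) (b : Fin k → ℕ → Bool),
      (∀ i, R (a i)) → (∀ j, R (b j)) → (∀ i j, ¬ E (a i) (b j)) →
      ∃ c : ℕ → Bool, R c ∧ (∀ i, H (a i) c = 1 / 2) ∧ (∀ j, H (b j) c = 1)) := by
  intro h
  obtain ⟨Z, ⟨h1, h2⟩, ⟨h3, h4⟩, h5⟩ := ((ae_rand.and ae_nred).and ((ae_half
    (ae_rand.and ae_nred)).and (ae_half (ae_half ae_rand)))).exists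
  have t : Computable fun n : ℕ => 2 * n := (Primrec.nat_mul.comp (.const 2) .id).to_comp
  obtain ⟨c, -, h6, h7⟩ := h _ _ _ _ (fun _ => Iff.rfl) (fun _ _ => Iff.rfl) (fun _ _ => rfl)
    (fun _ _ => rfl) 2 1 ![(Z ∘ (2 * ·)) ∘ (2 * ·), Z] ![Z ∘ (2 * ·)]
    (Fin.forall_fin_two.2 ⟨h5, h1⟩) (Fin.forall_fin_one.2 h3) (Fin.forall_fin_two.2
      ⟨Fin.forall_fin_one.2 fun k => h4 k.2, Fin.forall_fin_one.2 fun k => h2 k.1⟩)
  have b0 : ∀ {P : Om → Prop} {f : Om → ℝ}, (∀ X, 0 ≤ f X) →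
      BddBelow {s | ∃ X, P X ∧ s = f X} := fun h => ⟨0, fun _ ⟨X, _, e⟩ => e ▸ h X⟩
  have r : ∀ X : Om, TuringReducible (orc X) (orc X) := fun _ => TuringReducible.rfl
  have k1 := (le_max_right _ _).trans_eq (h6 0)
  have k2 := (le_max_left _ _).trans_eq (h6 1)
  refine absurd (h7 0) (ne_of_lt (lt_of_le_of_lt (max_le (csSup_le ⟨_, _, ⟨r _, r _⟩, rfl⟩ ?_)
    (csSup_le ⟨_, _, ⟨r _, r _⟩, rfl⟩ ?_)) (by norm_num : (1 / 2 + 1 / 3 : ℝ) < 1)))
  · rintro _ ⟨X, ⟨k3, -⟩, rfl⟩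
    obtain ⟨X', k4, k5⟩ := cod (TuringReducible.trans k3 (comp_red Z t))
    refine le_trans ?_ (add_le_add_left ((le_csSup ⟨1, ?_⟩ (by exact ⟨X', k4, rfl⟩)).trans k2) _)
    swap
    · rintro _ ⟨Y, -, rfl⟩
      exact (csInf_le (b0 (dd_nonneg Y)) ⟨c, ⟨r _, r _⟩, rfl⟩).trans (dd_le _ _)
    refine sub_le_iff_le_add.1 (le_csInf ⟨_, c, ⟨r _, r _⟩, rfl⟩ ?_)
    rintro _ ⟨Y, k6, rfl⟩
    exact sub_le_iff_le_add.2 ((csInf_le (b0 (dd_nonneg X)) ⟨Y, k6, rfl⟩).trans (dd_near k5 Y))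
  · rintro _ ⟨Y, k3, rfl⟩
    refine le_trans ?_ (add_le_add_left ((le_csSup ⟨1, ?_⟩ (by exact ⟨Y, k3, rfl⟩)).trans k1) _)
    swap
    · rintro _ ⟨Y, -, rfl⟩
      exact (csInf_le (b0 (dd_nonneg · Y)) ⟨_, ⟨r _, r _⟩, rfl⟩).trans (dd_le _ _)
    refine sub_le_iff_le_add.1 (le_csInf ⟨_, _, ⟨r _, r _⟩, rfl⟩ ?_)
    rintro _ ⟨X, ⟨k6, -⟩, rfl⟩
    obtain ⟨X', k4, k5⟩ := cod (TuringReducible.trans k6 (comp_red (Z ∘ (2 * ·)) t))
    exact sub_le_iff_le_add.2 ((csInf_le (b0 (dd_nonneg · Y)) ⟨X', k4, rfl⟩).trans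
      (dd_near (fun i hi => (k5 i hi).symm) Y))

end Pool.Agent.S14438
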