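import Pool.Statements.S14453
import Pool.Agent.H.MP_20d0cc_lc.A
import Pool.Agent.H.MP_fa5791_lc.A

set_option autoImplicit false
open Pool Pool.MP_20d0cc_lc

namespace Pool.Agent.S14453

open Pool.Agent.Lib.helper21.PR Pool.Agent.H.MP_fa5791_lc Pool.Agent.H.MP_20d0cc_lc Finset

attribute [local irreducible] Primrec Computable

theorem ext {G : SimpleGraph ℕ} {D : ℕ} {φ : ℕ → ℕ → ℕ} {B : ℕ → Set ℕ} {V : Finset ℕ} (h : Pr G D φ) (hD : Dg G D)
    (hW : ↑V ⊆ B 0) (hB : ∀ r, ∀ u ∈ B r, u ∈ B (r + 1) ∧ ∀ v, G.Adj u v → v ∈ B (r + 1))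
    (k : ∀ u ∈ B ((V.card + 2) * (D + 2) * (D + 2) * (2 * D) + 3), ∀ v, G.Adj u v → φ u v ≠ 0) (s : Finset (ℕ × ℕ)) :
    Sol G D φ V fun u v => φ u v ≠ 0 ∨ G.Adj u v ∧ (u, v) ∈ s := by
  induction s using Finset.induction_on with
  | empty => exact ⟨φ, h, fun _ _ _ => rfl, by simp⟩
  | insert e s _ ih =>
    obtain ⟨x, y⟩ := e
    obtain ⟨f, a, b, c⟩ := ih
    by_cases d : G.Adj x y ∧ f x y = 0
    · exact St.key ⟨a, b, d.1, d.2, by grind⟩ hD hW hB le_rfl fun e => c x y (.inl (k x e y d.1)) d.2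
    · exact ⟨f, a, b, by grind⟩

/-- Every graph on ℕ with a computable neighbour-list function and all degrees at most Δ has a computable proper edge colouring using colours 0..Δ, i.e. at most Δ+1 colours. -/
theorem result :
    ∀ (G : SimpleGraph ℕ) (nbrs : ℕ → List ℕ), Computable nbrs →
      (∀ x y : ℕ, G.Adj x y ↔ y ∈ nbrs x) →
      ∀ Δ : ℕ, (∀ (x : ℕ) (s : Finset ℕ), (∀ y ∈ s, G.Adj x y) → s.card ≤ Δ) →
        ∃ c : ℕ → ℕ → ℕ, Computable₂ c ∧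
          (∀ x y : ℕ, G.Adj x y → c x y = c y x ∧ c x y ≤ Δ) ∧
          ∀ x y z : ℕ, G.Adj x y → G.Adj x z → y ≠ z → c x y ≠ c x z := by
  intro G N hN hG D hD
  have n0 : CI O N := Computable.ci hN
  obtain ⟨A, a1, a2⟩ : ∃ A : ℕ → ℕ → Bool, CI O (fun z : ℕ × ℕ => A z.1 z.2) ∧ ∀ u v, A u v ↔ G.Adj u v :=
    ⟨fun u v => cd (∃ i < (N u).length, (N u).getD i 0 = v), by fun_prop, fun u v => by
      simp only [cd_true, hG, List.mem_iff_getElem, List.getD_eq_getElem?_getD]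
      exact exists_congr fun i => ⟨fun ⟨a, b⟩ => ⟨a, by simpa [a] using b⟩, fun ⟨a, b⟩ => ⟨a, by simpa [a] using b⟩⟩⟩
  obtain ⟨M, m1, m0, m2⟩ : ∃ M : ℕ → ℕ, CI O M ∧ M 0 = 0 ∧ ∀ n, n ≤ M n ∧ ∀ u < n, ∀ v, G.Adj u v → v < M n := by
    have : CI O fun u => (N u).sum := ci_comp (ci_prim (p_lsum .id)) n0
    refine ⟨fun n => n + ∑ u ∈ range n, ((N u).sum + 1), by fun_prop, rfl, fun n => ⟨by simp, fun u a v b => ?_⟩⟩
    have := List.le_sum_of_mem ((hG _ _).1 b)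
    have := single_le_sum (f := fun u => (N u).sum + 1) (fun _ _ => Nat.zero_le _) (mem_range.2 a)
    beta_reduce at *
    omega
  obtain ⟨B, b1, b2, b3⟩ : ∃ B : ℕ → ℕ → ℕ, CI O (fun z : ℕ × ℕ => B z.1 z.2) ∧ (∀ s, B s 0 = s) ∧
    ∀ s r, B s (r + 1) = M (B s r) := ⟨fun s r => Nat.rec s (fun _ x => M x) r, by fun_prop, fun _ => rfl, fun _ _ => rfl⟩
  obtain ⟨R, r1, r2⟩ : ∃ R : ℕ → ℕ, CI O R ∧ ∀ s, R s = B s ((s + 2) * (D + 2) * (D + 2) * (2 * D) + 3) :=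
    ⟨_, by fun_prop, fun _ => rfl⟩
  obtain ⟨F, f1, f2⟩ : ∃ F : List ℕ → ℕ → ℕ → ℕ, Primrec (fun z : List ℕ × ℕ × ℕ => F z.1 z.2.1 z.2.2) ∧
    ∀ L u v, F L u v = L.getD (Nat.pair u v) 0 := ⟨_, by fun_prop, fun _ _ _ => rfl⟩
  have f3 : ∀ L u v, F L u v ≠ 0 → u < L.length ∧ v < L.length := fun L u v h => by
    have := Nat.left_le_pair u v
    have := Nat.right_le_pair u v
    have := mt (f2 L u v ▸ List.getD_eq_default L 0) h
    omega
  obtain ⟨P, p1, p2⟩ : ∃ P : ℕ → List ℕ → Bool, CI O (fun z : ℕ × List ℕ => P z.1 z.2) ∧ ∀ s L, P s L ↔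
      Pr G D (F L) ∧ ∀ u < R s, ∀ v, G.Adj u v → F L u v ≠ 0 := by
    refine ⟨fun s L => cd ((∀ u < L.length, ∀ v < L.length, F L u v = F L v u ∧ (F L u v ≠ 0 → A u v) ∧
      F L u v ≤ D + 1 ∧ ∀ w < L.length, F L u v = F L u w → F L u v ≠ 0 → v = w) ∧
        ∀ u < R s, ∀ v < M (R s), A u v → F L u v ≠ 0), by fun_prop, fun s L => ?_⟩
    simp only [cd_true, a2]
    refine and_congr ⟨fun h => ⟨fun u v => ?_, fun u v => ?_, fun u v => ?_, fun u v w => ?_⟩, fun h u _ v _ =>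
      ⟨h.sy _ _, h.ad _ _, h.le _ _, fun w _ => h.pr _ _ _⟩⟩
        ⟨fun h u a v b => h u a v ((m2 _).2 u a v b) b, fun h u a v _ => h u a v⟩
    · have := f3 L u v
      have := f3 L v u
      grind
    · have := f3 L u v
      grind
    · have := f3 L u v
      grind
    · have := f3 L u v
      have := f3 L u w
      grind
  have mk : ∀ f s, Pr G D f → (∀ u < R s, ∀ v, G.Adj u v → f u v ≠ 0) → ∃ L, P s L ∧ ∀ u < R s, ∀ v, F L u v = f u v :=
    fun f s h k => by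
      obtain ⟨L, e⟩ : ∃ L, ∀ u v, F L u v = if u < M (R s) ∧ v < M (R s) then f u v else 0 := by
        generalize M (R s) = n
        refine ⟨(List.range (Nat.pair n n)).map fun i => if i.unpair.1 < n ∧ i.unpair.2 < n then
          f i.unpair.1 i.unpair.2 else 0, fun u v => ?_⟩
        by_cases a : Nat.pair u v < Nat.pair n n
        · simp [f2, a]
        · rw [f2, List.getD_eq_default _ _ (by simpa using a), if_neg fun b => a
            ((Nat.pair_lt_pair_left _ b.1).trans (Nat.pair_lt_pair_right _ b.2))]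
      have := m2 (R s)
      obtain ⟨h1, h2, h3, h4⟩ := h
      refine ⟨L, (p2 _ _).2 ⟨⟨?_, ?_, ?_, ?_⟩, ?_⟩, ?_⟩ <;> simp only [e] <;> grind
  have rs : ∀ s, s ≤ R s := fun s => r2 s ▸ (b2 s).ge.trans
    (monotone_nat_of_le_succ (f := B s) (fun r => b3 s r ▸ (m2 _).1) (Nat.zero_le _))
  have st : ∀ s t L, s ≤ t → P s L → ∃ K, P t K ∧ ∀ u < s, ∀ v, F K u v = F L u v := fun s t L a h => by
    obtain ⟨h, k⟩ := (p2 _ _).1 h
    obtain ⟨f, c, d, e⟩ := ext (V := range s) (B := fun r => Set.Iio (B s r)) h hD (by simp [b2])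
      (fun r u b => by simpa [b3] using ⟨b.trans_le (m2 _).1, (m2 _).2 u b⟩) (by simpa [r2] using k)
        (range (R t) ×ˢ range (M (R t)))
    obtain ⟨K, l, m⟩ := mk f t c fun u b v g => e u v (.inr ⟨g, by simp [b, (m2 _).2 u b v g]⟩)
    exact ⟨K, l, fun u b v => (m u (b.trans_le (a.trans (rs t))) v).trans (d u (by simpa) v)⟩
  have z : P 0 [] := by
    have : ∀ r, B 0 r = 0 := fun r => r.rec (b2 0) fun r h => by rw [b3, h, m0]
    exact (p2 _ _).2 ⟨by constructor <;> simp [f2], by simp [r2, this]⟩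
  obtain ⟨g, g1, g2⟩ := RI.choice (Y := O) (R := fun (z : ℕ × List ℕ) (K : List ℕ) => P z.1 z.2 = false ∨ P (z.1 + 1) K ∧
    ∀ u < z.1, ∀ v < K.length + z.2.length, F K u v = F z.2 u v) (by fun_prop) fun z => by
      by_cases e : P z.1 z.2
      exacts [(st _ _ _ z.1.le_succ e).imp fun K h => .inr ⟨h.1, fun u a v _ => h.2 u a v⟩, ⟨[], .inl (by simpa using e)⟩]
  obtain ⟨S, s1, s2, s3⟩ : ∃ S : ℕ → List ℕ, CI O S ∧ S 0 = [] ∧ ∀ s, S (s + 1) = g (s, S s) :=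
    ⟨fun s => Nat.rec [] (fun s L => g (s, L)) s, by fun_prop, rfl, fun _ => rfl⟩
  have s4 : ∀ s, P s (S s) := fun s => s.rec (s2 ▸ z) fun s h => s3 s ▸ ((g2 (s, S s)).resolve_left (by simpa)).1
  have s5 : ∀ u v s, u + 1 ≤ s → F (S s) u v = F (S (u + 1)) u v := fun u v s h => by
    induction h with
    | refl => rfl
    | @step s h ih =>
      have := ((g2 (s, S s)).resolve_left (by simpa using s4 s)).2 u h v
      have := f3 (S s) u v
      have := f3 (S (s + 1)) u v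
      grind
  have s6 : ∀ x y, G.Adj x y → F (S (x + 1)) x y ≠ 0 := fun x y => ((p2 _ _).1 (s4 _)).2 x (rs _) y
  refine ⟨fun x y => F (S (x + 1)) x y - 1, ci_comput (by fun_prop), fun x y h => ⟨?_, ?_⟩, fun x y z h k l => ?_⟩
  · beta_reduce
    rw [← s5 x y (x + y + 1) (by omega), ← s5 y x (x + y + 1) (by omega), ((p2 _ _).1 (s4 _)).1.sy]
  · exact Nat.sub_le_of_le_add (((p2 _ _).1 (s4 _)).1.le _ _)
  · have := ((p2 _ _).1 (s4 (x + 1))).1.pr x y z
    have := s6 x y h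
    have := s6 x z k
    beta_reduce
    omega

end Pool.Agent.S14453
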