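import Pool.Statements.S14473
import Pool.Agent.H.MP_c33acd_lc.I

set_option autoImplicit false
open Pool Pool.MP_21db1f_lc

namespace Pool.Agent.S14473

theorem result :
    ∀ n : ℕ, 2 ≤ n →
      ∃ φ : FirstOrder.Language.Sentence
          (⟨fun k => if k = 2 then Unit else Empty, fun _ => Empty⟩ : FirstOrder.Language.{0, 0}),
        @FirstOrder.Language.Sentence.Realize
            (⟨fun k => if k = 2 then Unit else Empty, fun _ => Empty⟩ : FirstOrder.Language.{0, 0})
            (FreeGroup (Fin n) ⧸ derivedSeries (FreeGroup (Fin n)) 3)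
            { funMap := fun _ xs => (List.ofFn xs).prod, RelMap := fun _ _ => False }
            φ ∧
        ∀ (H : Type) [Group H], Group.FG H →
          @FirstOrder.Language.Sentence.Realize
              (⟨fun k => if k = 2 then Unit else Empty, fun _ => Empty⟩ : FirstOrder.Language.{0, 0})
              H
              { funMap := fun _ xs => (List.ofFn xs).prod, RelMap := fun _ _ => False }
              φ →
            Nonempty (H ≃* (FreeGroup (Fin n) ⧸ derivedSeries (FreeGroup (Fin n)) 3)) := by
  intro n hn
  obtain ⟨φ, h1, h2⟩ := Pool.Agent.H.MP_c33acd_lc.qfa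
    ⟨⟨fun k => if k = 2 then Unit else Empty, fun _ => Empty⟩,
    fun _ _ => ⟨fun _ xs => (List.ofFn xs).prod, fun _ _ => False⟩, (),
    fun K _ x => by simp [List.ofFn_succ]⟩ n hn
  refine ⟨φ, ?_, fun H _ fg h => h2 H fg ?_⟩
  · unfold FirstOrder.Language.Sentence.Realize
    exact (congrArg _ (Subsingleton.elim _ _)).mp h1
  · unfold FirstOrder.Language.Sentence.Realize at h
    exact (congrArg _ (Subsingleton.elim _ _)).mp h

end Pool.Agent.S14473
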