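import Pool.Statements.S14476
-- import your own Pool.Agent.* helpers here
import Pool.Agent.H.MP_220cb1_lc.A

set_option autoImplicit false
open Pool Pool.MP_220cb1_lc

namespace Pool.Agent.S14476

theorem result :
    ¬ (∀ I : Set (ℕ → Bool),
      (∀ x ∈ I, ∀ y : ℕ → Bool, y ≤ x → y ∈ I) →
      (∀ x ∈ I, ∀ y ∈ I, x ⊔ y ∈ I) →
      (∀ x : ℕ → Bool, {n : ℕ | x n = true}.Finite → x ∈ I) →
      (∃ C : ℕ → ℕ → Set (ℕ → Bool), (∀ i j, IsClosed (C i j)) ∧ I = ⋂ i, ⋃ j, C i j) →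
      ∃ K : ℕ → Set (ℕ → Bool),
        (∀ n, IsCompact (K n)) ∧
        (∀ n, ∀ x ∈ K n, ∀ y : ℕ → Bool, y ≤ x → y ∈ K n) ∧
        I = {x : ℕ → Bool | ∀ n : ℕ, ∃ k : ℕ, (fun m => x m && decide (k ≤ m)) ∈ K n}) := by
  intro h
  exact Pool.Agent.H.MP_220cb1_lc.not_farah (h _ Pool.Agent.H.MP_220cb1_lc.I_le
    Pool.Agent.H.MP_220cb1_lc.I_sup Pool.Agent.H.MP_220cb1_lc.I_fin
    Pool.Agent.H.MP_220cb1_lc.I_pi3)

end Pool.Agent.S14476
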