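import Pool.Statements.S14501
import Pool.Agent.H.MP_2709b3_lc.E

set_option autoImplicit false
open Classical
open Pool Pool.MP_2709b3_lc

namespace Pool.Agent.S14501

theorem result :
    Filter.Tendsto (fun n : ℕ =>
      ((Finset.univ.filter (fun E : Fin n → Fin n → Bool =>
          (∀ a b, ¬ (E a b = true ∧ E b a = true)) ∧
          (SimpleGraph.fromRel (fun a b => E a b = true)).IsTree ∧
          ¬ ∃ s : Fin n → Fin n → Fin n → Fin n → Fin n,
            (∀ a r e, s a r e a = s r a r e) ∧
            ∀ x₁ x₂ x₃ x₄ y₁ y₂ y₃ y₄ : Fin n,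
              E x₁ y₁ = true → E x₂ y₂ = true → E x₃ y₃ = true → E x₄ y₄ = true →
              E (s x₁ x₂ x₃ x₄) (s y₁ y₂ y₃ y₄) = true)).card : ℝ) /
      ((Finset.univ.filter (fun E : Fin n → Fin n → Bool =>
          (∀ a b, ¬ (E a b = true ∧ E b a = true)) ∧
          (SimpleGraph.fromRel (fun a b => E a b = true)).IsTree)).card : ℝ))
      Filter.atTop (nhds 1) := by
  obtain ⟨h1, h2⟩ := Pool.Agent.H.MP_2709b3_lc.lim0
  have h3 := h1.const_sub 1
  rw [sub_zero] at h3
  refine h3.congr' ?_
  filter_upwards [h2] with n hn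
  have h4 := Finset.card_filter_add_card_filter_not
    (s := Finset.univ.filter (Pool.Agent.H.MP_2709b3_lc.IsT (V := Fin n)))
    (fun E => ∃ s, Pool.Agent.H.MP_2709b3_lc.Sig (fun a b => E a b = true) s)
  rw [Finset.filter_filter, Finset.filter_filter] at h4
  rw [one_sub_div hn.ne']
  congr 1
  · rw [← h4]
    push_cast
    rw [add_sub_cancel_left]
    congr 2
    ext E
    simp only [Finset.mem_filter, Finset.mem_univ, true_and, Pool.Agent.H.MP_2709b3_lc.IsT,
      and_assoc]
    refine and_congr_right fun _ => and_congr_right fun _ => not_congr (exists_congr fun s => ?_)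
    exact ⟨fun h => ⟨h.1, h.2⟩, fun h => ⟨h.1, h.2⟩⟩
  · congr 2
    ext E
    simp only [Finset.mem_filter, Finset.mem_univ, true_and, Pool.Agent.H.MP_2709b3_lc.IsT]

end Pool.Agent.S14501
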