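import Pool.Statements.S14509
import Pool.Agent.H.MP_287fcc_lc.Col

set_option autoImplicit false
open Pool Pool.MP_287fcc_lc

namespace Pool.Agent.S14509

theorem result :
  ∃ n : ℕ, 4 < n ∧ ∃ (U : Type) (c : U → U → Fin (n - 1)),
    (∀ x y, c x y = c y x) ∧
    (∀ i : Fin (n - 1), ∃ x y, x ≠ y ∧ c x y = i) ∧
    (∀ x y z, x ≠ y → y ≠ z → x ≠ z → ¬ (c x y = c y z ∧ c y z = c x z)) ∧
    (∀ x y, x ≠ y → ∀ j k : Fin (n - 1), ¬ (j = c x y ∧ k = c x y) →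
        ∃ z, z ≠ x ∧ z ≠ y ∧ c x z = j ∧ c z y = k) ∧
    ¬ ∃ (F : Type) (_ : Field F) (_ : Fintype F) (e : U ≃ F) (H : Subgroup Fˣ),
        H.index = n - 1 ∧
        ∀ x y x' y', x ≠ y → x' ≠ y' →
          (c x y = c x' y' ↔ ∃ h ∈ H, e x - e y = (h : F) * (e x' - e y')) := by
  open Pool.Agent.H.MP_287fcc_lc in
  refine ⟨5, by norm_num, Fin 40, col, col_symm, col_used, col_tri, col_wit, ?_⟩
  rintro ⟨F, _, _, e, -⟩
  have h := FiniteField.isPrimePow_card F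
  rw [← Fintype.card_congr e, Fintype.card_fin] at h
  exact Pool.Agent.H.MP_287fcc_lc.not_pp h

end Pool.Agent.S14509
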