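import Pool.Statements.S14519
import Pool.Agent.H.MP_29fd35_lc.B
-- import your own Pool.Agent.* helpers here

set_option autoImplicit false
open Classical
open Pool Pool.MP_29fd35_lc

namespace Pool.Agent.S14519

open Pool.Agent.H.MP_29fd35_lc Pool.Agent.Lib.helper21.PR Pool.Agent.H.MP_fa5791_lc Pool.Agent.H.MP_fa2eca_lc
open Pool.Agent.Lib.helper21

theorem result :
  ∀ A : ℕ → Bool,
    (∃ φ : ℕ →. ℕ, Nat.Partrec φ ∧ ∀ n, (φ n).Dom ↔ A n = true) →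
    ¬ Computable A →
    ∃ B : ℕ → Bool,
      TuringReducible (fun n => Part.some (Bool.toNat (B n)) : ℕ →. ℕ)
        (fun n => Part.some (if (Nat.Partrec.Code.eval (Denumerable.ofNat Nat.Partrec.Code n) n).Dom then 1 else 0) : ℕ →. ℕ) ∧
      ¬ TuringReducible
        (fun n => Part.some (if (Nat.Partrec.Code.eval (Denumerable.ofNat Nat.Partrec.Code n) n).Dom then 1 else 0) : ℕ →. ℕ)
        (fun n => Part.some (Bool.toNat (B n)) : ℕ →. ℕ) ∧
      ¬ TuringReducible (fun n => Part.some (Bool.toNat (A n)) : ℕ →. ℕ)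
        (fun n => Part.some (Bool.toNat (B n)) : ℕ →. ℕ) ∧
      ∀ f : ℕ → ℕ,
        (∃ φ : ℕ →. ℕ, TuringReducible φ (fun n => Part.some (Bool.toNat (B n)) : ℕ →. ℕ) ∧
          ∀ n k : ℕ, (φ (Nat.pair n k)).Dom ↔ f n ≤ k) →
        (∀ s : Finset ℕ, ∑ n ∈ s, (1/2 : ℝ) ^ (f n) ≤ 1) →
        ∃ h : List Bool → ℕ,
          (∃ ψ : ℕ →. ℕ, TuringReducible ψ (fun n => Part.some (Bool.toNat (B n)) : ℕ →. ℕ) ∧
            ∀ σ : List Bool, ∀ k : ℕ, (ψ (Nat.pair (Encodable.encode σ) k)).Dom ↔ h σ ≤ k) ∧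
          (∀ s : Finset (List Bool), ∑ σ ∈ s, (1/2 : ℝ) ^ (h σ) ≤ 1) ∧
          ∃ c : ℕ, ∀ n : ℕ,
            h (List.ofFn (fun i : Fin n =>
              decide ((Nat.Partrec.Code.eval (Denumerable.ofNat Nat.Partrec.Code (i : ℕ)) (i : ℕ)).Dom)))
              ≤ f n + c := by
  intro A ⟨φ, p1, p2⟩ nc
  have e : (fun n => Part.some (if (Nat.Partrec.Code.eval (Denumerable.ofNat Nat.Partrec.Code n) n).Dom then 1 else 0) :
      ℕ →. ℕ) = Fn.orc K := funext fun n => by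
    unfold Fn.orc K
    split_ifs with c <;> simp [c]
  have hA : CI K A := (jumpK (RE.un (Partrec.nat_iff.2 p1).dom_re)).of_eq fun n => by
    rw [Bool.eq_iff_iff, cd_true, p2]
  obtain ⟨B, b1, b2, b3, b4⟩ := exB hA nc
  rw [e]
  refine ⟨B, b1.orc, fun k => b2 (hA.trans (CI.of_orc k)), fun k => b2 (CI.of_orc k), fun f ⟨ψ, q1, q2⟩ q3 =>
    ⟨h B, (h_ri (B := B)).dom.imp fun χ k => ⟨k.1, fun σ m => (k.2 (σ, m)).symm⟩, h_sum b3, ?_⟩⟩
  have q4 := ri_graph q1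
  refine (h_K b4 ((i_exists (R := fun (z : ℕ × ℕ) y => y ∈ ψ (Nat.pair z.1 z.2)) (i_pw (q4.comp
    (f := fun z : (ℕ × ℕ) × ℕ => (Nat.pair z.1.1 z.1.2, z.2)) (by fun_prop)))).un.of_eq fun z => by
      rw [← q2, Part.dom_iff_mem]) q3).imp fun c k n => (congrArg (h B) ?_).trans_le (k n)
  exact List.ext_getElem (by simp [pre]) fun i _ _ => by simp [pre, K]

end Pool.Agent.S14519
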