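import Pool.Statements.S14559
import Pool.Agent.H.MP_65fbb9_lc.B

set_option autoImplicit false
open Pool Pool.MP_349b57_lc

namespace Pool.Agent.S14559

theorem result :
    ∀ X : ℕ → Bool,
      (∀ ε : ℝ, 0 < ε → ∃ Y : ℕ → Bool,
        TuringReducible (fun n => Part.some (if Y n then 1 else 0))
          (fun n => Part.some (if X n then 1 else 0)) ∧
        ∀ C : ℕ → Bool, Computable C →
          Filter.liminf
            (fun n : ℕ => ((((Finset.range n).filter (fun k => Y k = C k)).card : ℝ) / (n : ℝ)))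
            Filter.atTop ≤ ε) →
      ∃ Y : ℕ → Bool,
        TuringReducible (fun n => Part.some (if Y n then 1 else 0))
          (fun n => Part.some (if X n then 1 else 0)) ∧
        ∀ C : ℕ → Bool, Computable C →
          Filter.liminf
            (fun n : ℕ => ((((Finset.range n).filter (fun k => Y k = C k)).card : ℝ) / (n : ℝ)))
            Filter.atTop = 0 := by
  intro X h
  have e : ∀ Y : ℕ → Bool, (fun n => Part.some (if Y n then 1 else 0)) = Lib.helper21.Fn.orc Y :=
    fun Y => funext fun n => by unfold Lib.helper21.Fn.orc; cases Y n <;> rfl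
  simp only [e] at h ⊢
  obtain ⟨Y, h1, h2⟩ := h (1 / 65) (by norm_num)
  obtain ⟨Z, h3, h4⟩ := H.MP_65fbb9_lc.zero (H.MP_65fbb9_lc.boost 2 (H.MP_65fbb9_lc.decode
    (.of_orc h1) fun C hC => (h2 C (H.MP_65fbb9_lc.comp_bool hC)).trans_lt (by norm_num)))
  exact ⟨Z, h3.orc, fun C hC => h4 C (Lib.helper21.PR.Computable.ci hC)⟩

end Pool.Agent.S14559
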