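import Pool.Statements.S14577
import Pool.Agent.H.MP_375aa5_lc.D

set_option autoImplicit false
open Pool Pool.MP_375aa5_lc

namespace Pool.Agent.S14577

theorem result :
    ∀ d : ℕ, ∀ ε : ℝ, 0 < ε → ∃ q : ℕ, ∀ n : ℕ,
      ∃ m : ℕ, ∃ w : Fin m → ℝ, ∃ Q : Fin m → Fin q → (Fin n → Bool),
        ∃ D : Fin m → (Fin q → Bool) → Bool,
          (∀ r, 0 ≤ w r) ∧ (∑ r, w r = 1) ∧
          (∀ f : (Fin n → Bool) → Bool,
            (∃ p : MvPolynomial (Fin n) ℝ, p.totalDegree ≤ d ∧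
              ∀ x : Fin n → Bool,
                f x = decide (0 < MvPolynomial.eval (fun i => if x i then (1:ℝ) else -1) p)) →
            (2:ℝ)/3 ≤ ∑ r, w r * (if D r (fun j => f (Q r j)) = true then (1:ℝ) else 0)) ∧
          (∀ f : (Fin n → Bool) → Bool,
            (∀ g : (Fin n → Bool) → Bool,
              (∃ p : MvPolynomial (Fin n) ℝ, p.totalDegree ≤ d ∧
                ∀ x : Fin n → Bool,
                  g x = decide (0 < MvPolynomial.eval (fun i => if x i then (1:ℝ) else -1) p)) →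
              ε * (2:ℝ) ^ n ≤ ((Finset.univ.filter (fun x => f x ≠ g x)).card : ℝ)) →
            ∑ r, w r * (if D r (fun j => f (Q r j)) = true then (1:ℝ) else 0) ≤ (1:ℝ)/3) := by
  classical
  intro d ε hε
  obtain ⟨m, m0, hm⟩ := H.MP_375aa5_lc.round d hε
  obtain ⟨r, hr⟩ := exists_pow_lt_of_lt_one (show (0 : ℝ) < 1 / 3 by norm_num) (show 1 - ε / 4 < 1 by linarith)
  haveI : Nonempty (Fin m) := ⟨⟨0, m0⟩⟩
  let e := (Fintype.equivFin (Fin r × (Fin m → Bool))).symm
  refine ⟨Fintype.card (Fin r × (Fin m → Bool)), fun n => ?_⟩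
  let Ω := Fin r → (Fin n → Fin m) × (Fin n → Bool)
  let z := (Fintype.equivFin Ω).symm
  have k : ∀ φ : Ω → ℝ, ∑ i, 1 / (Fintype.card Ω : ℝ) * φ (z i) = Finset.univ.expect φ := fun φ => by
    rw [← Finset.mul_sum, z.sum_comp φ, Finset.expect_eq_sum_div_card, Finset.card_univ]; ring
  refine ⟨Fintype.card Ω, fun _ => 1 / Fintype.card Ω, fun i j => H.MP_cd40e2_lc.pnt (z i (e j).1) (e j).2,
    fun _ a => decide (∀ ρ, ∃ p ∈ H.MP_375aa5_lc.P (Fin m) (d + 1), ∀ t, a (e.symm (ρ, t)) = decide (0 < p t)),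
    fun _ => by positivity, by simpa using k fun _ => 1, fun f hf => ?_, fun f hf => ?_⟩
  · obtain ⟨p, hp, hf⟩ := H.MP_375aa5_lc.poly_iff.1 hf
    rw [Finset.sum_congr rfl fun i _ => by
      rw [if_pos (decide_eq_true fun ρ => ⟨_, H.MP_375aa5_lc.pnt_mem (z i ρ) hp, fun t => by simp [hf]⟩)], k fun _ => 1]
    norm_num
  have h := hm (Fin n) f fun p hp => by
    have := hf (fun x => decide (0 < p x)) (H.MP_375aa5_lc.poly_iff.2 ⟨p, hp, fun _ => rfl⟩)
    rw [Finset.expect_eq_sum_div_card, Finset.sum_boole, le_div_iff₀ (by simp)]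
    simpa using this
  have h0 := pow_le_pow_left₀ (Finset.expect_nonneg fun _ _ => by split_ifs <;> simp) h r
  rw [← Fintype.card_fin r, ← Finset.card_univ, ← Finset.prod_const, ← H.MP_cd40e2_lc.ex_prod fun _ ω => _] at h0
  simp only [Finset.card_univ, Fintype.card_fin] at h0
  refine le_trans (le_of_eq ?_) (h0.trans hr.le)
  rw [← k]
  refine Finset.sum_congr rfl fun i _ => congrArg _ ?_
  simp only [Equiv.apply_symm_apply, decide_eq_true_eq, Finset.prod_boole, Finset.mem_univ, true_imp_iff]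

end Pool.Agent.S14577
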