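import Pool.Statements.S14625
import Pool.Agent.H.MP_4045d2_lc.B

set_option autoImplicit false
open Pool Pool.MP_4045d2_lc

namespace Pool.Agent.S14625

open Pool.Agent.H.MP_4045d2_lc

theorem result :
  ∀ n : ℕ, 2 ≤ n →
  ∀ S : Set (EuclideanSpace ℝ (Fin (n + 1))), S = Metric.sphere 0 1 →
  ∀ G : Set C(S, S),
    G = {f : C(S, S) | Function.Bijective (f : S → S) ∧
          ContinuousMap.Homotopic f (ContinuousMap.id (↥S))} →
  ∀ m : MeasurableSpace G, m = borel G →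
  ∃ M N : Set G, M ∪ N = Set.univ ∧ IsMeagre M ∧
    ∃ B : Set G, N ⊆ B ∧ MeasurableSet B ∧
    ∃ μ : MeasureTheory.Measure G, MeasureTheory.IsProbabilityMeasure μ ∧
      ∀ g h : G,
        μ {x : G | ∃ b ∈ B,
          (x : C(S, S)) = (g : C(S, S)).comp ((b : C(S, S)).comp (h : C(S, S)))} = 0 := by
  intro n hn
  obtain ⟨m, rfl⟩ : ∃ m, n = m + 1 := ⟨n - 1, by omega⟩
  rintro _ rfl _ rfl _ rfl
  let _ := borel {f : C(Metric.sphere (0 : E m) 1, Metric.sphere (0 : E m) 1) |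
    Function.Bijective f ∧ f.Homotopic (.id _)}
  obtain ⟨B, h1, h2, h3⟩ := @decomp _ _ _ {f | Function.Bijective f ∧ f.Homotopic (.id _)}
    (fun _ h => h.1) _ (rr _ (rot_sphere (m := m))).continuous (rr_add _)
    (fun a => ⟨rr_bij _ a, rr_hom a⟩) _ two_pos (fun k g _ h => key_sphere k g h) _ ⟨rfl⟩
  exact ⟨_, B, Set.compl_union_self _, h1, B, subset_rfl, h2, h3⟩

end Pool.Agent.S14625
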