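import Pool.Statements.S14632
import Pool.Agent.H.MP_40e9ab_lc.Main

set_option autoImplicit false
open Pool Pool.MP_40e9ab_lc

namespace Pool.Agent.S14632

theorem result :
    ¬ (∀ N : Set (Set ℝ),
      (∀ A ∈ N, A ⊆ Set.Icc (0:ℝ) 1) →
      (∀ J : Set ℝ, J.OrdConnected → J ⊆ Set.Icc (0:ℝ) 1 → J ∈ N) →
      (∀ A ∈ N, Set.Icc (0:ℝ) 1 \ A ∈ N) →
      (∀ f : ℕ → Set ℝ, (∀ n, f n ∈ N) → (⋃ n, f n) ∈ N) →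
      (∀ P : Set (Set ℝ),
          (∀ p ∈ P, ∃ x ∈ p, ∃ y ∈ p, x ≠ y) →
          P.PairwiseDisjoint id →
          ⋃₀ P = Set.Icc (0:ℝ) 1 →
          ∃ S ∈ N, ∀ p ∈ P, ∃! x, x ∈ S ∧ x ∈ p) →
      ∀ A : Set ℝ, A ⊆ Set.Icc (0:ℝ) 1 → A ∈ N) := by
  intro h
  obtain ⟨N, h1, h2, h3, h4, h5, h6⟩ := Pool.Agent.H.MP_40e9ab_lc.main
  exact h6 (h N h1 h2 h3 h4 h5)

end Pool.Agent.S14632
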