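import Pool.Statements.S14633
import Pool.Agent.H.MP_ad67df_lc.D

set_option autoImplicit false
open Pool Pool.MP_40fdec_lc

namespace Pool.Agent.S14633

open Pool.Agent.Lib.helper21.Fn Pool.Agent.Lib.helper21.CPred Pool.Agent.H.MP_ad67df_lc
open Encodable Denumerable Computable
open Nat.Partrec (Code)
open Nat.Partrec.Code
open scoped Classical

theorem exists_seq (W : ℕ → (ℕ → ℕ) → ℕ)
    (hW : ∀ m a a', (∀ i < m, a i = a' i) → W m a = W m a') :
    ∃ a : ℕ → ℕ, ∀ m j, m ≤ j → W m a ≤ a j := by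
  let s : ℕ → ℕ → ℕ := fun n => Nat.rec 0
    (fun j a => Function.update a j (∑ m ∈ Finset.range (j + 1), W m a)) n
  have h1 : ∀ j i, i < j → s j i = s (i + 1) i := by
    intro j
    induction j with
    | zero => exact fun i h => by omega
    | succ j ih =>
      intro i h
      rcases (Nat.lt_succ_iff.1 h).eq_or_lt with rfl | h
      · rfl
      · exact (Function.update_of_ne h.ne _ _).trans (ih i h)
  refine ⟨fun i => s (i + 1) i, fun m j h => ?_⟩
  rw [← hW m (s j) _ fun i hi => h1 j i (by omega)]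
  refine (Finset.single_le_sum (f := fun m => W m (s j)) (fun _ _ => Nat.zero_le _)
    (Finset.mem_range.2 (Nat.lt_succ_of_le h))).trans_eq ?_
  simp only [s, Function.update_self]

noncomputable def ch (X : Set ℕ) : Om := fun k => decide (k ∈ X)

theorem ind (X : Set ℕ) (n : ℕ) : X.indicator (fun _ => (1 : ℕ)) n = (ch X n).toNat := by
  by_cases h : n ∈ X <;> simp [ch, h]

noncomputable def F (A : ℕ → Set ℕ) (a : ℕ → ℕ) (x : ℕ) : ℕ :=
  a x.unpair.1 + (ch (A x.unpair.1) x.unpair.2).toNat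

def Cp (A : ℕ → Set ℕ) (a : ℕ → ℕ) (m u : ℕ) : Prop :=
  ∀ y, u.testBit y = true → y.unpair.1.unpair.1 < m → F A a y.unpair.1 ≠ y.unpair.2

def P (A : ℕ → Set ℕ) (m : ℕ) (a : ℕ → ℕ) (p : ℕ × ℕ × ℕ) : Prop :=
  Cp A a m p.2.1 ∧ Cp A a m p.2.2 ∧ ((ofNat Code m).eval (Nat.pair (2 * p.1) p.2.1)).Dom ∧
    ((ofNat Code m).eval (Nat.pair (2 * p.1 + 1) p.2.2)).Dom

noncomputable def wt (p : ℕ × ℕ × ℕ → Prop) : ℕ :=
  if h : ∃ x, p x then h.choose.2.1 + h.choose.2.2 else 0

theorem bit_lt {u y : ℕ} (h : u.testBit y = true) : y < u :=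
  Nat.lt_two_pow_self.trans_le (Nat.ge_two_pow_of_testBit h)

def q (m : ℕ) (c : Code) (l : List ℕ) (n t z : ℕ) : Prop :=
  t.unpair.1 < 2 ∧ 2 ^ m * (2 * t.unpair.2.unpair.1 + 1) ≤ t ∧
    encode (evaln t.unpair.2.unpair.2 c (Nat.pair (2 * n + t.unpair.1) t.unpair.2.unpair.1)) ≠ 0 ∧
    ∀ y < t.unpair.2.unpair.1, tb t.unpair.2.unpair.1 y = true → y.unpair.1.unpair.1 < m →
      l.getD y.unpair.1.unpair.1 0 + (tb z (2 ^ (m - 1 - y.unpair.1.unpair.1) *
        (2 * y.unpair.1.unpair.2 + 1))).toNat ≠ y.unpair.2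

theorem q_comp (m : ℕ) (c : Code) (l : List ℕ) :
    ComputablePred fun z : ℕ × ℕ => q m c l z.1.unpair.1 z.1.unpair.2 z.2 := by
  have f1 : Primrec fun n : ℕ => n.unpair.1 := Primrec.fst.comp Primrec.unpair
  have f2 : Primrec fun n : ℕ => n.unpair.2 := Primrec.snd.comp Primrec.unpair
  have o : Primrec fun n : ℕ => 2 * n + 1 :=
    Primrec.succ.comp (Primrec.nat_mul.comp (.const 2) Primrec.id)
  have b : Primrec fun z : ℕ × ℕ => z.1.unpair.2.unpair.1 := f1.comp u2
  have u : Primrec fun z : ℕ × ℕ => z.1.unpair.2.unpair.2.unpair.1 := f1.comp (f2.comp u2)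
  have w : Primrec fun z : ℕ × ℕ => z.1.unpair.2.unpair.2.unpair.2 := f2.comp (f2.comp u2)
  have y1 : Primrec fun z : (ℕ × ℕ) × ℕ => z.2.unpair.1.unpair.1 := f1.comp (f1.comp Primrec.snd)
  have y2 : Primrec fun z : (ℕ × ℕ) × ℕ => z.2.unpair.1.unpair.2 := f2.comp (f1.comp Primrec.snd)
  have h1 : Primrec fun z : ℕ × ℕ => encode (evaln z.1.unpair.2.unpair.2.unpair.2 c (Nat.pair
      (2 * z.1.unpair.1 + z.1.unpair.2.unpair.1) z.1.unpair.2.unpair.2.unpair.1)) :=
    Primrec.encode.comp (primrec_evaln.comp ((w.pair (.const c)).pair (Primrec₂.natPair.comp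
      (Primrec.nat_add.comp (Primrec.nat_mul.comp (.const 2) u1) b) u)))
  have h2 : Primrec fun z : (ℕ × ℕ) × ℕ => l.getD z.2.unpair.1.unpair.1 0 + (tb z.1.2
      (2 ^ (m - 1 - z.2.unpair.1.unpair.1) * (2 * z.2.unpair.1.unpair.2 + 1))).toNat :=
    Primrec.nat_add.comp ((Primrec.list_getD 0).comp (.const l) y1) (toNat_prim.comp
      (tb_prim.comp (Primrec.snd.comp Primrec.fst) (Primrec.nat_mul.comp (pow2.comp
        (Primrec.nat_sub.comp (.const (m - 1)) y1)) (o.comp y2))))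
  have h3 : Primrec fun z : (ℕ × ℕ) × ℕ => tb z.1.1.unpair.2.unpair.2.unpair.1 z.2 :=
    tb_prim.comp (u.comp Primrec.fst) Primrec.snd
  exact cand (clt b.to_comp (const 2)) (cand (cle (Primrec.nat_mul.comp (.const _)
    (o.comp u)).to_comp u2.to_comp) (cand (ceq h1.to_comp (const 0)).not (call (cimp
      (ceq h3.to_comp (const true)) (cimp (clt y1.to_comp (const m))
        (ceq h2.to_comp (f2.comp Primrec.snd).to_comp).not)) u.to_comp)))

/-- Every countable nonempty family of sets closed under Turing reducibility and join equals, for some total f, the family of sets X with X ⊕ Xᶜ enumeration reducible to the complement of the graph of f. -/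
theorem result :
    ∀ I : Set (Set ℕ), I.Countable → I.Nonempty →
      (∀ X Y : Set ℕ, X ∈ I →
        TuringReducible (fun n => Part.some (Y.indicator (fun _ => (1 : ℕ)) n))
          (fun n => Part.some (X.indicator (fun _ => (1 : ℕ)) n)) → Y ∈ I) →
      (∀ X Y : Set ℕ, X ∈ I → Y ∈ I →
        {n : ℕ | (n % 2 = 0 ∧ n / 2 ∈ X) ∨ (n % 2 = 1 ∧ n / 2 ∈ Y)} ∈ I) →
      ∃ f : ℕ → ℕ, ∀ X : Set ℕ, X ∈ I ↔
        ∃ g : ℕ →. ℕ, Partrec g ∧
          ∀ x : ℕ, ((x % 2 = 0 ∧ x / 2 ∈ X) ∨ (x % 2 = 1 ∧ x / 2 ∉ X)) ↔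
            ∃ u : ℕ, (g (Nat.pair x u)).Dom ∧
              ∀ y : ℕ, u.testBit y = true → f (Nat.unpair y).1 ≠ (Nat.unpair y).2 := by
  intro I h1 h2 h3 h4
  obtain ⟨A, rfl⟩ := h1.exists_eq_range h2
  obtain ⟨a, ha⟩ := exists_seq (fun m a => wt (P A m a)) fun m a a' h => congrArg wt (by
    have : ∀ u, Cp A a m u ↔ Cp A a' m u := fun u => forall₃_congr fun y _ hy => by
      simp only [F, h _ hy]
    funext p
    simp only [P, this])
  refine ⟨F A a, fun X => ⟨?_, ?_⟩⟩
  · rintro ⟨m, rfl⟩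
    have f1 : Primrec fun n : ℕ => n.unpair.1 := Primrec.fst.comp Primrec.unpair
    have h5 : ComputablePred fun n : ℕ =>
        n.unpair.2 = 2 ^ Nat.pair (Nat.pair m (n.unpair.1 / 2)) (a m + n.unpair.1 % 2) :=
      ceq (snd.comp unpair) (pow2.comp (Primrec₂.natPair.comp (Primrec₂.natPair.comp (.const m)
        (Primrec.nat_div.comp f1 (.const 2))) (Primrec.nat_add.comp (.const _)
          (Primrec.nat_mod.comp f1 (.const 2))))).to_comp
    refine ⟨_, h5.to_re.map (g := fun _ _ => 0) (const 0).to₂, fun x => ?_⟩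
    by_cases h : x / 2 ∈ A m <;> rcases Nat.mod_two_eq_zero_or_one x with h6 | h6 <;>
      simp [F, ch, h, h6, Nat.testBit_two_pow, Part.assert]
  · rintro ⟨g, hg, h⟩
    obtain ⟨c, rfl⟩ := exists_code.1 (Partrec.nat_iff.1 hg)
    generalize hm : encode c = m
    have hc : ofNat Code m = c := by rw [← hm, ofNat_encode]
    have h5 : ∀ x u v, Cp A a m u → Cp A a m v → (c.eval (Nat.pair (2 * x) u)).Dom →
        (c.eval (Nat.pair (2 * x + 1) v)).Dom → False := by
      intro x u v k1 k2 k3 k4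
      have k5 : ∃ p, P A m a p := ⟨(x, u, v), k1, k2, hc ▸ k3, hc ▸ k4⟩
      obtain ⟨k6, k7, k8, k9⟩ := k5.choose_spec
      have k0 : ∀ u ≤ wt (P A m a), Cp A a m u →
          ∀ y, u.testBit y = true → F A a y.unpair.1 ≠ y.unpair.2 := fun u hu k y hy => by
        rcases lt_or_ge y.unpair.1.unpair.1 m with k' | k'
        · exact k y hy k'
        · have := ha m _ k'
          have := bit_lt hy
          have := y.unpair_right_le
          unfold F
          omega
      rw [hc] at k8 k9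
      have m1 := (h _).2 ⟨_, k8, k0 _ (by rw [wt, dif_pos k5]; omega) k6⟩
      have m2 := (h _).2 ⟨_, k9, k0 _ (by rw [wt, dif_pos k5]; omega) k7⟩
      rw [show (2 * k5.choose.1 + 1) / 2 = 2 * k5.choose.1 / 2 by omega] at m2
      rcases m1 with m1 | m1 <;> rcases m2 with m2 | m2 <;> first | omega | exact m2.2 m1.2
    have h6 : ∀ m, ∃ J ∈ Set.range A, ∀ i < m, ∀ k,
        k ∈ A i ↔ 2 ^ (m - 1 - i) * (2 * k + 1) ∈ J := by
      intro m
      induction m with
      | zero => exact ⟨A 0, ⟨0, rfl⟩, fun i hi => by omega⟩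
      | succ m ih =>
        obtain ⟨J, hJ, ih⟩ := ih
        refine ⟨_, h4 J (A m) hJ ⟨m, rfl⟩, fun i hi k => ?_⟩
        rcases (Nat.lt_succ_iff.1 hi).eq_or_lt with rfl | hi
        · simp [Nat.mul_add_div]
        · rw [ih i hi, show m + 1 - 1 - i = m - 1 - i + 1 by omega, pow_succ', mul_assoc]
          simp
    obtain ⟨J, hJ, h6⟩ := h6 m
    have h7 : ∀ t u, 2 ^ m * (2 * u + 1) ≤ t → (Cp A a m u ↔ ∀ y < u, tb u y = true →
        y.unpair.1.unpair.1 < m → ((List.range m).map a).getD y.unpair.1.unpair.1 0 +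
          (tb (cd (ch J) t) (2 ^ (m - 1 - y.unpair.1.unpair.1) *
            (2 * y.unpair.1.unpair.2 + 1))).toNat ≠ y.unpair.2) := by
      intro t u ht
      refine forall_congr' fun y => ⟨fun k _ k1 k2 => ?_, fun k k1 k2 => ?_⟩
      all_goals
        have k3 := bit_lt k1
        have k4 := y.unpair.1.unpair_right_le.trans y.unpair_left_le
        have k5 : 2 ^ (m - 1 - y.unpair.1.unpair.1) * (2 * y.unpair.1.unpair.2 + 1) < t :=
          lt_of_lt_of_le (Nat.mul_lt_mul_of_le_of_lt (Nat.pow_le_pow_right (by norm_num) (by omega))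
            (by omega) (by positivity)) ht
      · simpa [tb_cd _ _ _ k5, k2, F, ch, h6 _ k2] using k k1 k2
      · simpa [tb_cd _ _ _ k5, k2, F, ch, h6 _ k2] using k k3 k1 k2
    have h8 : ∀ n, ∃ t, q m c ((List.range m).map a) n t (cd (ch J) t) := fun n => by
      obtain ⟨b, hb, u, k1, k2⟩ : ∃ b < 2, ∃ u, (c.eval (Nat.pair (2 * n + b) u)).Dom ∧
          ∀ y, u.testBit y = true → F A a y.unpair.1 ≠ y.unpair.2 := by
        by_cases k : n ∈ X
        · exact ⟨0, by omega, (h _).1 (Or.inl ⟨by omega, by simpa using k⟩)⟩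
        · exact ⟨1, by omega, (h _).1 (Or.inr ⟨by omega, by simpa [Nat.mul_add_div] using k⟩)⟩
      obtain ⟨w, hw⟩ := evaln_complete.1 (Part.get_mem k1)
      have k3 : 2 ^ m * (2 * u + 1) ≤ Nat.pair b (Nat.pair u (w + 2 ^ m * (2 * u + 1))) :=
        (Nat.le_add_left _ _).trans ((Nat.right_le_pair _ _).trans (Nat.right_le_pair _ _))
      refine ⟨Nat.pair b (Nat.pair u (w + 2 ^ m * (2 * u + 1))), ?_⟩
      simp only [q, Nat.unpair_pair]
      exact ⟨hb, k3, by simp [Option.mem_def.1 (evaln_mono (Nat.le_add_right _ _) hw)],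
        (h7 _ _ k3).1 fun y hy _ => k2 y hy⟩
    have h9 : Primrec₂ fun t _ : ℕ => 1 - t.unpair.2.unpair.1 :=
      Primrec.nat_sub.comp (.const 1) (Primrec.fst.comp (Primrec.unpair.comp u2))
    refine h3 J X hJ ?_
    simp only [ind]
    refine (red_find (ch J) (q_comp m c _) h8 h9.to_comp).of_eq fun n => ?_
    obtain ⟨k1, k2, k3, k4⟩ := Nat.find_spec (h8 n)
    rw [← h7 _ _ k2] at k4
    simp only [Nat.unpair_pair]
    generalize Nat.find (h8 n) = t at *
    have k5 : (c.eval (Nat.pair (2 * n + t.unpair.1) t.unpair.2.unpair.1)).Dom := by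
      cases hv : evaln t.unpair.2.unpair.2 c (Nat.pair (2 * n + t.unpair.1) t.unpair.2.unpair.1) with
      | none => simp [hv] at k3
      | some v => exact Part.dom_iff_mem.2 ⟨v, evaln_sound hv⟩
    by_cases k : n ∈ X
    · obtain ⟨u, k6, k7⟩ := (h (2 * n)).1 (Or.inl ⟨by omega, by simpa using k⟩)
      have : t.unpair.1 ≠ 1 := fun k8 => h5 n u _ (fun y hy _ => k7 y hy) k4 k6 (k8 ▸ k5)
      simp [ch, k, show t.unpair.1 = 0 by omega]
    · obtain ⟨u, k6, k7⟩ := (h (2 * n + 1)).1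
        (Or.inr ⟨by omega, by simpa [Nat.mul_add_div] using k⟩)
      have : t.unpair.1 ≠ 0 := fun k8 => h5 n _ u k4 (fun y hy _ => k7 y hy)
        (by simpa [k8] using k5) k6
      simp [ch, k, show t.unpair.1 = 1 by omega]

end Pool.Agent.S14633
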