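import Pool.Statements.S14645
-- import your own Pool.Agent.* helpers here
import Pool.Agent.H.MP_44948e_lc.A

set_option autoImplicit false
open Pool Pool.MP_44948e_lc

namespace Pool.Agent.S14645

theorem result :
  ∀ (X : Type) [TopologicalSpace X] [PolishSpace X] [MeasurableSpace X] [BorelSpace X]
    (R : Set (X × X)),
    MeasureTheory.AnalyticSet R →
    (∀ x, (x, x) ∈ R) →
    (∀ x y z, (x, y) ∈ R → (y, z) ∈ R → (x, z) ∈ R) →
    ∃ (ι : Type) (_ : Countable ι) (arity : ι → ℕ)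
      (B : Set ((p : Σ i, Fin (arity i) → ℕ) → Bool)),
      MeasurableSet B ∧
      (∀ σ : Equiv.Perm ℕ, ∀ x ∈ B,
        (fun p : (Σ i, Fin (arity i) → ℕ) => x ⟨p.1, ⇑σ ∘ p.2⟩) ∈ B) ∧
      (∃ f : X → ((p : Σ i, Fin (arity i) → ℕ) → Bool),
        Measurable f ∧ (∀ x, f x ∈ B) ∧
        ∀ x y, (x, y) ∈ R ↔
          ∃ h : ℕ → ℕ, Function.Surjective h ∧
            ∀ p : (Σ i, Fin (arity i) → ℕ), f y p = f x ⟨p.1, h ∘ p.2⟩) ∧
      (∃ g : B → X, Measurable g ∧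
        ∀ u v : B,
          (∃ h : ℕ → ℕ, Function.Surjective h ∧
            ∀ p : (Σ i, Fin (arity i) → ℕ), v.1 p = u.1 ⟨p.1, h ∘ p.2⟩) ↔
          (g u, g v) ∈ R) := by
  intro X _ _ _ _ R a r t
  obtain ⟨S⟩ := H.MP_094aee_lc.sys X (fun x y => (x, y) ∈ R) r t a
  open Pool.Agent.H.MP_44948e_lc in
  obtain ⟨m, g, g1, g2⟩ := inv (good_meas (S := S)) (pb_meas.comp measurable_snd) (by
    rintro ⟨x, c⟩ a ⟨y, d⟩ b e
    obtain ⟨a, b⟩ := uniq a b ((pb_iff _ _).1 (congrFun e.symm))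
    exact Prod.ext a (eQ.injective.comp_left b))
  open Pool.Agent.H.MP_44948e_lc in
  refine ⟨K, inferInstance, fun _ => 2, _, m, ?_, ⟨fun x => pb (can S x), pb_meas.comp can_meas,
    fun x => ⟨(x, _), can_good x, rfl⟩, fun x y => (epi (S := S) (can_good x) (can_good y)).symm.trans
      (exists_congr fun h => and_congr_right fun _ =>
        (pb_iff (can S y) (can S x ∘ h)).symm)⟩, g, g1,
    fun u v => ?_⟩
  · rintro σ _ ⟨⟨x, c⟩, a, rfl⟩
    refine ⟨(x, c ∘ σ), ⟨a.1.comp σ.surjective, fun o => ⟨fun h n => ?_, fun h b d hb hd =>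
      σ.injective ((a.2 o).2 h _ _ hb hd)⟩⟩, rfl⟩
    exact ((((a.fin o).1 h).preimage (σ.surjective.range_eq ▸ Set.subset_univ _)).exists_gt
      n).imp fun _ h => ⟨h.2, h.1⟩
  · obtain ⟨c, c1, c2⟩ := g2 u
    obtain ⟨d, d1, d2⟩ := g2 v
    rw [← c2, ← d2]
    exact (exists_congr fun h => and_congr_right fun _ =>
      H.MP_44948e_lc.pb_iff d (c ∘ h)).trans (H.MP_44948e_lc.epi c1 d1)

end Pool.Agent.S14645
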