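import Pool.Statements.S14725
import Pool.Agent.H.MP_56bf04_lc.Br

set_option autoImplicit false
open Pool Pool.MP_56bf04_lc

namespace Pool.Agent.S14725

theorem result :
  ∀ (Dom : (Finset (ℕ × ℕ × ℕ) × ℕ × Finset ℕ) × (Finset (ℕ × (Option ℕ × Option ℕ) × ℕ) × ℕ × Finset ℕ) → Set (List ℕ))
    (Rel : (Finset (ℕ × ℕ × ℕ) × ℕ × Finset ℕ) × (Finset (ℕ × (Option ℕ × Option ℕ) × ℕ) × ℕ × Finset ℕ) → List ℕ → List ℕ → Prop)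
    (Good : (Finset (ℕ × ℕ × ℕ) × ℕ × Finset ℕ) × (Finset (ℕ × (Option ℕ × Option ℕ) × ℕ) × ℕ × Finset ℕ) → Prop)
    (E : ℕ → ℕ → Prop),
  (∀ p w, w ∈ Dom p ↔
      w ∈ (⟨fun q a => {q' | (q, a, q') ∈ p.1.1}, {p.1.2.1}, (p.1.2.2 : Set ℕ)⟩ : NFA ℕ ℕ).accepts) →
  (∀ p (u v : List ℕ), Rel p u v ↔
      (List.map (fun i => (u[i]?, v[i]?)) (List.range (max u.length v.length))) ∈
        (⟨fun q a => {q' | (q, a, q') ∈ p.2.1}, {p.2.2.1}, (p.2.2.2 : Set ℕ)⟩ :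
          NFA (Option ℕ × Option ℕ) ℕ).accepts) →
  (∀ p, Good p ↔
      ((∀ u ∈ Dom p, Rel p u u) ∧
       (∀ u ∈ Dom p, ∀ v ∈ Dom p, Rel p u v → Rel p v u) ∧
       (∀ u ∈ Dom p, ∀ v ∈ Dom p, ∀ w ∈ Dom p, Rel p u v → Rel p v w → Rel p u w))) →
  (∀ n m : ℕ, E n m ↔
      (((¬ ∃ p : (Finset (ℕ × ℕ × ℕ) × ℕ × Finset ℕ) × (Finset (ℕ × (Option ℕ × Option ℕ) × ℕ) × ℕ × Finset ℕ),
            Encodable.decode n = some p ∧ Good p) ∧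
        (¬ ∃ q : (Finset (ℕ × ℕ × ℕ) × ℕ × Finset ℕ) × (Finset (ℕ × (Option ℕ × Option ℕ) × ℕ) × ℕ × Finset ℕ),
            Encodable.decode m = some q ∧ Good q)) ∨
       ∃ p q : (Finset (ℕ × ℕ × ℕ) × ℕ × Finset ℕ) × (Finset (ℕ × (Option ℕ × Option ℕ) × ℕ) × ℕ × Finset ℕ),
         Encodable.decode n = some p ∧ Encodable.decode m = some q ∧ Good p ∧ Good q ∧
         ∃ f : List ℕ → List ℕ, Set.BijOn f (Dom p) (Dom q) ∧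
           ∀ u ∈ Dom p, ∀ v ∈ Dom p, (Rel p u v ↔ Rel q (f u) (f v)))) →
  (∃ P : ℕ × ℕ × ℕ → Prop, ComputablePred P ∧ ∀ x y, E x y ↔ ∀ t, P (x, y, t)) ∧
  ∀ R : ℕ → ℕ → Prop, Equivalence R →
    (∃ P : ℕ × ℕ × ℕ → Prop, ComputablePred P ∧ ∀ x y, R x y ↔ ∀ t, P (x, y, t)) →
    ∃ f : ℕ → ℕ, Computable f ∧ ∀ x y, R x y ↔ E (f x) (f y) := by
  intro Dom Rel Good E h1 h2 h3 h4
  have d : ∀ l, Dom (H.MP_56bf04_lc.toF l) = H.MP_56bf04_lc.dom l := fun l =>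
    Set.ext fun w => (h1 _ w).trans (H.MP_56bf04_lc.nfa_acc l.1 w)
  have r : ∀ l, Rel (H.MP_56bf04_lc.toF l) = H.MP_56bf04_lc.rel l := fun l =>
    funext₂ fun u v => propext ((h2 _ u v).trans (H.MP_56bf04_lc.nfa_acc l.2 _))
  have g : ∀ l, Good (H.MP_56bf04_lc.toF l) ↔ H.MP_56bf04_lc.Eqv (H.MP_56bf04_lc.dom l) (H.MP_56bf04_lc.rel l) :=
    fun l => by rw [h3, d, r]; rfl
  have v : ∀ n, (∃ p, Encodable.decode n = some p ∧ Good p) ↔ H.MP_56bf04_lc.Vd n := fun n => by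
    simp only [H.MP_56bf04_lc.dec_PF]
    exact ⟨fun ⟨_, ⟨l, a, b, e⟩, c⟩ => ⟨l, a, b, (g l).1 (e ▸ c)⟩, fun ⟨l, a, b, c⟩ => ⟨_, ⟨l, a, b, rfl⟩, (g l).2 c⟩⟩
  obtain rfl : E = H.MP_56bf04_lc.EE := funext₂ fun n m => propext (by
    rw [h4, v, v]
    refine or_congr_right ?_
    simp only [H.MP_56bf04_lc.dec_PF]
    constructor
    · rintro ⟨_, _, ⟨l, a, b, rfl⟩, ⟨k, c, e, rfl⟩, i, j, f⟩
      rw [d, d, r, r] at f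
      exact ⟨l, k, a, c, ⟨b, (g l).1 i⟩, ⟨e, (g k).1 j⟩, f⟩
    · rintro ⟨l, k, a, c, b, e, f⟩
      exact ⟨_, _, ⟨l, a, b.1, rfl⟩, ⟨k, c, e.1, rfl⟩, (g l).2 b.2, (g k).2 e.2, by rw [d, d, r, r]; exact f⟩)
  exact H.MP_56bf04_lc.main

end Pool.Agent.S14725
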