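import Pool.Statements.S14767
import Pool.Agent.H.MP_5f3cbe_lc.E

set_option autoImplicit false
open Pool Pool.MP_5f3cbe_lc

namespace Pool.Agent.S14767

theorem result :
    ∃ φ : FirstOrder.Language.ring.Formula (Fin 1),
      ∀ f : ↥(Subring.closure {g : ℂ → ℂ | DifferentiableOn ℂ g (Metric.ball (0:ℂ) 1) ∧
                ∀ z ∉ Metric.ball (0:ℂ) 1, g z = g 0}),
        (@FirstOrder.Language.Formula.Realize FirstOrder.Language.ring
            ↥(Subring.closure {g : ℂ → ℂ | DifferentiableOn ℂ g (Metric.ball (0:ℂ) 1) ∧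
                ∀ z ∉ Metric.ball (0:ℂ) 1, g z = g 0})
            (FirstOrder.Ring.compatibleRingOfRing
              ↥(Subring.closure {g : ℂ → ℂ | DifferentiableOn ℂ g (Metric.ball (0:ℂ) 1) ∧
                ∀ z ∉ Metric.ball (0:ℂ) 1, g z = g 0})).toStructure
            (Fin 1) φ (fun _ => f)) ↔
        ¬ Asymptotics.IsBigO (nhdsWithin (1:ℝ) (Set.Iio 1))
            (fun r : ℝ => (2 * Real.pi)⁻¹ *
              ∫ θ in (0:ℝ)..(2 * Real.pi),
                Real.posLog ‖(f : ℂ → ℂ) ((r : ℂ) * Complex.exp ((θ : ℂ) * Complex.I))‖)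
            (fun r : ℝ => Real.log (1 - r)⁻¹) := by
  letI := FirstOrder.Ring.compatibleRingOfRing Pool.Agent.H.MP_5f3cbe_lc.HS
  obtain ⟨φ, hφ⟩ := (Pool.Agent.H.MP_5f3cbe_lc.D_NF (R := Pool.Agent.H.MP_5f3cbe_lc.HS)
    (Pool.Agent.H.MP_5f3cbe_lc.T.var (0 : Fin 1))).not
  refine ⟨φ, fun f => (hφ (fun _ => f)).trans (not_congr ?_)⟩
  have hf := Pool.Agent.H.MP_5f3cbe_lc.dif f
  have he : (fun r : ℝ => (2 * Real.pi)⁻¹ *
      ∫ θ in (0:ℝ)..(2 * Real.pi),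
        Real.posLog ‖(f : ℂ → ℂ) ((r : ℂ) * Complex.exp ((θ : ℂ) * Complex.I))‖) =
      fun r : ℝ => Real.circleAverage (fun z => Real.posLog ‖(f : ℂ → ℂ) z‖) 0 r := by
    funext r
    simp only [Real.circleAverage, circleMap, zero_add, smul_eq_mul]
  rw [he]
  exact Pool.Agent.H.MP_5f3cbe_lc.NF_iff.trans
    ⟨Pool.Agent.H.MP_5f3cbe_lc.bigO_of_na hf, Pool.Agent.H.MP_5f3cbe_lc.na_of_bigO hf⟩

end Pool.Agent.S14767
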