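import Pool.Statements.S14778
import Pool.Agent.H.MP_5fb53e_lc.Disk
import Pool.Agent.H.MP_5fb53e_lc.Tse

set_option autoImplicit false
open Pool Pool.MP_5fb53e_lc

namespace Pool.Agent.S14778

theorem result :
    ¬ (∃ k : ℕ, ∀ (n : ℕ) (G : SimpleGraph (Fin n)),
      (∃ c : Fin n → EuclideanSpace ℝ (Fin 2), ∃ r : Fin n → ℝ,
          (∀ i, 0 < r i) ∧
          ∀ i j, i ≠ j → (G.Adj i j ↔ dist (c i) (c j) ≤ r i + r j)) →
      ∀ (m : ℕ) (H : SimpleGraph (Fin m)),
        (∃ P : Set ((Fin k → Fin n) × (Fin k → Fin m)),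
          (∀ p ∈ P, ∀ i j : Fin k,
              (p.1 i = p.1 j ↔ p.2 i = p.2 j) ∧
              (G.Adj (p.1 i) (p.1 j) ↔ H.Adj (p.2 i) (p.2 j))) ∧
          (∀ p ∈ P, ∀ i : Fin k, ∃ f : Fin n ≃ Fin m, ∀ v : Fin n,
              (Function.update p.1 i v, Function.update p.2 i (f v)) ∈ P) ∧
          (∃ f : Fin n ≃ Fin m, ∀ v : Fin n,
              ((fun _ : Fin k => v), (fun _ : Fin k => f v)) ∈ P)) →
        Nonempty (G ≃g H)) := by
  rintro ⟨k, hk⟩
  classical
  let N := k + 2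
  let X := Pool.Agent.H.MP_5fb53e_lc.TX N
  let C := Pool.Agent.H.MP_5fb53e_lc.TC N
  let V := Pool.Agent.H.MP_5fb53e_lc.Vx X C
  let eX := Fintype.equivFin X
  let eC := Fintype.equivFin C
  let e := Fintype.equivFin V
  let lv : X ⊕ C → ℕ := Sum.elim (fun x => Fintype.card C + (eX x : ℕ)) (fun c => (eC c : ℕ))
  have hlow : ∀ x c, lv (Sum.inr c) < lv (Sum.inl x) := by
    intro x c
    have := (eC c).2
    simp only [lv, Sum.elim_inl, Sum.elim_inr]
    omega
  have hinj : Function.Injective lv := by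
    rintro (x | c) (x' | c') h
    · simp only [lv, Sum.elim_inl] at h
      have : (eX x : ℕ) = eX x' := by omega
      rw [eX.injective (Fin.ext this)]
    · exact absurd h (hlow x c').ne'
    · exact absurd h (hlow x' c).ne
    · simp only [lv, Sum.elim_inr] at h
      rw [eC.injective (Fin.ext h)]
  have hidx : Function.Injective (fun c : C => (eC c : ℕ)) := fun c c' h =>
    eC.injective (Fin.ext h)
  let i0 : Fin N := 0
  let r0 : Pool.Agent.H.MP_5fb53e_lc.Loc N := (true, i0)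
  let G0 := Pool.Agent.H.MP_5fb53e_lc.Gr (X := X) (C := C) Pool.Agent.H.MP_5fb53e_lc.tvar lv
    (fun _ => 1)
  let H0 := Pool.Agent.H.MP_5fb53e_lc.Gr (X := X) (C := C) Pool.Agent.H.MP_5fb53e_lc.tvar lv
    (fun c => 1 + Pool.Agent.H.MP_5fb53e_lc.dl r0 c)
  obtain ⟨c, r, hr, hc⟩ := Pool.Agent.H.MP_5fb53e_lc.disk (X := X) (C := C)
    Pool.Agent.H.MP_5fb53e_lc.tvar lv _ hinj hidx
  have main := hk _ (G0.comap e.symm) ⟨fun i => c (e.symm i), fun i => r (e.symm i),
    fun i => hr _, fun i j hij => hc _ _ (fun h => hij (e.symm.injective h))⟩ _ (H0.comap e.symm)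
    ⟨{p | ∃ T ρ, Pool.Agent.H.MP_5fb53e_lc.good r0 T ρ ∧ ∀ i,
      e.symm (p.2 i) = Pool.Agent.H.MP_5fb53e_lc.phi Pool.Agent.H.MP_5fb53e_lc.tvar
        (Pool.Agent.H.MP_5fb53e_lc.val T) (e.symm (p.1 i)) ∧
      Pool.Agent.H.MP_5fb53e_lc.loc (e.symm (p.1 i)) ρ.1 ≠ ρ.2}, ?_, ?_, ?_⟩
  · obtain ⟨ψ⟩ := main
    obtain ⟨A, hA⟩ := Pool.Agent.H.MP_5fb53e_lc.rigid (X := X) (C := C)
      Pool.Agent.H.MP_5fb53e_lc.tvar lv hinj Pool.Agent.H.MP_5fb53e_lc.tocc hlow _ _
      (((SimpleGraph.Iso.comap e.symm G0).symm.trans ψ).trans (SimpleGraph.Iso.comap e.symm H0))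
    exact Pool.Agent.H.MP_5fb53e_lc.unsat i0 A hA
  · rintro p ⟨T, ρ, hg, hp⟩ i j
    constructor
    · constructor
      · intro h
        apply e.symm.injective
        rw [(hp i).1, (hp j).1, h]
      · intro h
        apply e.symm.injective
        apply Pool.Agent.H.MP_5fb53e_lc.phi_inj Pool.Agent.H.MP_5fb53e_lc.tvar
          (Pool.Agent.H.MP_5fb53e_lc.val T)
        rw [← (hp i).1, ← (hp j).1, h]
    · simp only [SimpleGraph.comap_adj]
      rw [(hp i).1, (hp j).1]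
      exact Pool.Agent.H.MP_5fb53e_lc.phi_adj _ _ _ _ _ _ _
        (Pool.Agent.H.MP_5fb53e_lc.good_ok r0 T ρ hg _ (hp i).2)
        (Pool.Agent.H.MP_5fb53e_lc.good_ok r0 T ρ hg _ (hp j).2)
  · rintro p ⟨T, ρ, hg, hp⟩ i
    obtain ⟨f, hf⟩ := Pool.Agent.H.MP_5fb53e_lc.step r0 T ρ hg
      (Finset.univ.image fun j => e.symm (p.1 j)) (by
        have := Finset.card_image_le (s := Finset.univ) (f := fun j => e.symm (p.1 j))
        simp only [Finset.card_univ, Fintype.card_fin] at this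
        simp only [N]
        omega) (by
        intro w hw
        obtain ⟨j, -, rfl⟩ := Finset.mem_image.1 hw
        exact (hp j).2)
    refine ⟨e.symm.trans (f.trans e), fun v => ?_⟩
    obtain ⟨T', ρ', g', h1, h2, h3⟩ := hf (e.symm v)
    refine ⟨T', ρ', g', fun j => ?_⟩
    by_cases hj : j = i
    · subst hj
      simp only [Function.update_self, Equiv.trans_apply, Equiv.symm_apply_apply]
      exact ⟨h1, h2⟩
    · simp only [Function.update_of_ne hj]
      have := h3 _ (Finset.mem_image_of_mem _ (Finset.mem_univ j))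
      exact ⟨by rw [this.1]; exact (hp j).1, this.2⟩
  · obtain ⟨f, hf⟩ := Pool.Agent.H.MP_5fb53e_lc.step r0 0 r0
      (Pool.Agent.H.MP_5fb53e_lc.good_zero r0) ∅ (by simp [N]) (by simp)
    refine ⟨e.symm.trans (f.trans e), fun v => ?_⟩
    obtain ⟨T', ρ', g', h1, h2, -⟩ := hf (e.symm v)
    refine ⟨T', ρ', g', fun j => ?_⟩
    simp only [Equiv.trans_apply, Equiv.symm_apply_apply]
    exact ⟨h1, h2⟩

end Pool.Agent.S14778
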