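import Pool.Statements.S14803
import Pool.Agent.H.MP_64713a_lc.E

set_option autoImplicit false
open Pool Pool.MP_64713a_lc

namespace Pool.Agent.S14803

theorem result :
    ∀ P : Set ℕ → Set ℕ → Prop,
      (∀ Y B : Set ℕ, P Y B ↔
        ∃ R : ℕ → List ℕ → List ℕ → Prop,
          ComputablePred (fun p : ℕ × List ℕ × List ℕ => R p.1 p.2.1 p.2.2) ∧
          ∀ n : ℕ, n ∈ Y ↔ ∀ f : ℕ → ℕ, ∃ m : ℕ,
            R n ((List.range m).map (B.indicator (fun _ => (1 : ℕ))))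
              ((List.range m).map f)) →
      ∀ X A : Set ℕ,
        ¬ (P X ∅ ∧ P Xᶜ ∅) →
        (∃ δ : ℝ, 0 < δ ∧ ∀ᶠ n : ℕ in Filter.atTop,
            δ * (n : ℝ) ≤ ((A ∩ Set.Iio n).ncard : ℝ)) →
        ∃ B : Set ℕ, B ⊆ A ∧ B.Infinite ∧ ¬ (P X B ∧ P Xᶜ B) := by
  intro P hP X A hX ⟨δ, hδ, hA⟩
  obtain ⟨n₀, hA⟩ := Filter.eventually_atTop.1 hA
  obtain ⟨d, hd⟩ := exists_nat_ge (1 / δ)
  have hd' : ∀ N, H.MP_64713a_lc.dn d n₀ N (· ∈ A) := fun N n _ hn => by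
    have e : (A ∩ Set.Iio n).ncard = (List.range n).countP fun i => Lib.helper21.PR.cd (i ∈ A) := by
      rw [List.countP_eq_length_filter, ← List.toFinset_card_of_nodup (List.nodup_range.filter _),
        ← Set.ncard_coe_finset]
      congr 1
      ext i
      simp [and_comm]
    have h := hA n hn
    rw [e] at h
    have h1 : (1 : ℝ) ≤ d * δ := (div_le_iff₀ hδ).1 hd
    have : (n : ℝ) ≤ d * ((List.range n).countP fun i => Lib.helper21.PR.cd (i ∈ A) : ℕ) := by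
      nlinarith [mul_le_mul_of_nonneg_left h (Nat.cast_nonneg (α := ℝ) d), Nat.cast_nonneg (α := ℝ) n]
    exact_mod_cast this
  obtain ⟨Y, hG, hb⟩ := H.MP_64713a_lc.exGood hd' fun z => hX ⟨(hP _ _).2 z.1, (hP _ _).2 z.2⟩
  obtain ⟨B, h1, h2, h3⟩ := H.MP_64713a_lc.exB hG hb
  have key : ∀ Z, P Z B → ∃ c, ∀ n, n ∈ Z ↔ H.MP_64713a_lc.WF c n (B.indicator fun _ => 1) := fun Z z => by
    obtain ⟨R, r1, r2⟩ := (hP _ _).1 z
    obtain ⟨c, hc⟩ := Nat.Partrec.Code.exists_code.mp r1.to_re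
    refine ⟨Encodable.encode c, fun n => (r2 n).trans (forall_congr' fun f => exists_congr fun m => ?_)⟩
    rw [Denumerable.ofNat_encode, hc, Part.dom_iff_mem]
    simp [Part.mem_assert_iff]
  refine ⟨B, h1, h2, fun ⟨z1, z2⟩ => ?_⟩
  obtain ⟨c, hc⟩ := key _ z1
  obtain ⟨c', hc'⟩ := key _ z2
  obtain ⟨n, hn⟩ := h3 c c'
  exact hn ⟨hc n, hc' n⟩

end Pool.Agent.S14803
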