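import Pool.Statements.S14805
import Pool.Agent.H.MP_64a558_lc.A

set_option autoImplicit false
open Pool Pool.MP_64a558_lc

namespace Pool.Agent.S14805

open Classical Pool.Agent.H.MP_64a558_lc

/-- The tagged relation of arity k + 1. -/
def Gk (k : ℕ) (x : Fin k → SignType) (t : SignType) : Prop :=
  t ≠ -1 ∧ (∀ i j, i ≠ j → x i = -1 → x j = 1) ∧ (t = 0 → ∀ i, x i ≠ -1) ∧ (t = 1 → ∃ i, x i = 1)

/-- The graph of disjunction on {0, 1}. -/
def Hr (a b c : SignType) : Prop :=
  a ≠ -1 ∧ b ≠ -1 ∧ c ≠ -1 ∧ (a = 1 ↔ b = 1 ∨ c = 1)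

/-- Equality unless tagged. -/
def Er (a b t : SignType) : Prop := t ≠ -1 ∧ (t = 0 → a = b)

/-- The product relation. -/
def Rk (k : ℕ) (ρ : Fin k ⊕ Fin 10 → SignType) : Prop :=
  Gk k (fun i => ρ (Sum.inl i)) (ρ (Sum.inr 0)) ∧
    Hr (ρ (Sum.inr 1)) (ρ (Sum.inr 2)) (ρ (Sum.inr 3)) ∧ ρ (Sum.inr 5) = - ρ (Sum.inr 4) ∧
    Er (ρ (Sum.inr 6)) (ρ (Sum.inr 7)) (ρ (Sum.inr 8)) ∧ ρ (Sum.inr 9) = 1

/-- Operations preserving each factor. -/
def Good {J : Type} (k : ℕ) (f : (J → SignType) → SignType) : Prop :=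
  (∀ (x : J → Fin k → SignType) (t : J → SignType), (∀ s, Gk k (x s) (t s)) →
    Gk k (fun i => f (fun s => x s i)) (f t)) ∧
  (∀ a b c : J → SignType, (∀ s, Hr (a s) (b s) (c s)) → Hr (f a) (f b) (f c)) ∧
  (∀ a : J → SignType, f (fun s => - a s) = - f a) ∧
  (∀ a b c : J → SignType, (∀ s, Er (a s) (b s) (c s)) → Er (f a) (f b) (f c)) ∧
  f (fun _ => 1) = 1

theorem pres_of_good {J : Type} (k : ℕ) (f : (J → SignType) → SignType) (h : Good k f) :
    Pres (Rk k) f := by
  intro ρ hρ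
  refine ⟨h.1 _ _ (fun s => (hρ s).1), h.2.1 _ _ _ (fun s => (hρ s).2.1), ?_,
    h.2.2.2.1 _ _ _ (fun s => (hρ s).2.2.2.1), ?_⟩
  · show f _ = - f _
    rw [← h.2.2.1]
    congr 1
    funext s
    exact (hρ s).2.2.1
  · show f _ = 1
    rw [← h.2.2.2.2]
    congr 1
    funext s
    exact (hρ s).2.2.2.2

theorem good_of_pres {J : Type} (k : ℕ) (f : (J → SignType) → SignType) (h : Pres (Rk k) f) :
    Good k f := by
  have key : ∀ (x : J → Fin k → SignType) (t a b c d e g u : J → SignType),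
      (∀ s, Gk k (x s) (t s)) → (∀ s, Hr (a s) (b s) (c s)) → (∀ s, Er (e s) (g s) (u s)) →
      Gk k (fun i => f (fun s => x s i)) (f t) ∧ Hr (f a) (f b) (f c) ∧
        f (fun s => - d s) = - f d ∧ Er (f e) (f g) (f u) ∧ f (fun _ => 1) = 1 := by
    intro x t a b c d e g u h1 h2 h3
    exact h (fun s => Sum.elim (x s) ![t s, a s, b s, c s, d s, - d s, e s, g s, u s, 1])
      (fun s => ⟨h1 s, h2 s, rfl, h3 s, rfl⟩)
  have g0 : Gk k (fun _ => 0) 0 := by simp [Gk]
  have g1 : Hr 0 0 0 := by simp [Hr]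
  have g2 : Er 0 0 0 := by simp [Er]
  refine ⟨fun x t hx => (key x t 0 0 0 0 0 0 0 hx (fun _ => g1) (fun _ => g2)).1,
    fun a b c hx => (key (fun _ _ => 0) 0 a b c 0 0 0 0 (fun _ => g0) hx (fun _ => g2)).2.1,
    fun a => (key (fun _ _ => 0) 0 0 0 0 a 0 0 0 (fun _ => g0) (fun _ => g1) (fun _ => g2)).2.2.1,
    fun a b c hx => (key (fun _ _ => 0) 0 0 0 0 0 a b c (fun _ => g0) (fun _ => g1) hx).2.2.2.1,
    (key (fun _ _ => 0) 0 0 0 0 0 0 0 0 (fun _ => g0) (fun _ => g1) (fun _ => g2)).2.2.2.2⟩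

/-- The coordinates seen by f on {0, 1}. -/
def supp {J : Type} (f : (J → SignType) → SignType) : Set J :=
  {s | f (fun s' => if s' = s then 1 else 0) = 1}

theorem sign_cases (a : SignType) (h : a ≠ -1) (h' : a ≠ 1) : a = 0 := by
  revert a; decide

theorem sign_self (a : SignType) (h : a = - a) : a = 0 := by
  revert a; decide

theorem or_struct {J : Type} [Fintype J] (k : ℕ) (f : (J → SignType) → SignType) (h : Good k f)
    (c : J → SignType) (hc : ∀ s, c s ≠ -1) : f c ≠ -1 ∧ (f c = 1 ↔ ∃ s ∈ supp f, c s = 1) := by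
  refine ⟨(h.2.1 c c c (fun s => ⟨hc s, hc s, hc s, by simp⟩)).1, ?_⟩
  have key : ∀ A : Finset J, f (fun s => if s ∈ A then 1 else 0) = 1 ↔ ∃ s ∈ supp f, s ∈ A := by
    intro A
    induction A using Finset.induction_on with
    | empty =>
      have h0 : f (fun _ => 0) = 0 := sign_self _ (by simpa using h.2.2.1 (fun _ => 0))
      simp [h0]
    | insert a A _ ih =>
      have h1 := (h.2.1 (fun s => if s ∈ insert a A then 1 else 0)
        (fun s => if s = a then 1 else 0) (fun s => if s ∈ A then 1 else 0) (fun s => by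
          by_cases h2 : s = a
          · subst h2
            by_cases h3 : s ∈ A <;> simp [Hr, h3]
          · by_cases h3 : s ∈ A <;> simp [Hr, h2, h3])).2.2.2
      rw [h1, ih]
      constructor
      · rintro (h2 | ⟨s, h2, h3⟩)
        · exact ⟨a, h2, Finset.mem_insert_self _ _⟩
        · exact ⟨s, h2, Finset.mem_insert_of_mem h3⟩
      · rintro ⟨s, h2, h3⟩
        rcases Finset.mem_insert.1 h3 with rfl | h3
        · exact Or.inl h2
        · exact Or.inr ⟨s, h2, h3⟩
  have h2 : c = fun s => if s ∈ Finset.univ.filter (fun s => c s = 1) then 1 else 0 := by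
    funext s
    by_cases h3 : c s = 1
    · simp [h3]
    · simp [h3, sign_cases _ (hc s) h3]
  conv_lhs => rw [h2]
  rw [key]
  simp

theorem supp_ne {J : Type} [Fintype J] (k : ℕ) (f : (J → SignType) → SignType) (h : Good k f) :
    (supp f).Nonempty := by
  obtain ⟨s, hs, -⟩ := (or_struct k f h (fun _ => 1) (fun _ => by decide)).2.1 h.2.2.2.2
  exact ⟨s, hs⟩

theorem dep {J : Type} [Fintype J] (k : ℕ) (f : (J → SignType) → SignType) (h : Good k f)
    (c c' : J → SignType) (hc : ∀ s ∈ supp f, c s = c' s) : f c = f c' := by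
  have h1 := or_struct k f h (fun s => if s ∈ supp f then 0 else 1) (fun s => by
    split_ifs <;> decide)
  refine (h.2.2.2.1 c c' (fun s => if s ∈ supp f then 0 else 1) (fun s => ?_)).2
    (sign_cases _ h1.1 ?_)
  · by_cases h2 : s ∈ supp f
    · simp [Er, h2, hc s h2]
    · simp [Er, h2]
  · rw [Ne, h1.2]
    rintro ⟨s, h2, h3⟩
    simp [h2] at h3

theorem supp_minor {J W : Type} [Fintype J] (k : ℕ) (f : (J → SignType) → SignType)
    (h : Good k f) (x : J → W) : supp (fun c : W → SignType => f (fun t => c (x t))) =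
      x '' supp f := by
  ext v
  have h1 := (or_struct k f h (fun t => if x t = v then 1 else 0) (fun s => by
    split_ifs <;> decide)).2
  constructor
  · intro h2
    obtain ⟨s, h3, h4⟩ := h1.1 h2
    refine ⟨s, h3, ?_⟩
    by_contra h5
    simp [h5] at h4
  · rintro ⟨s, h3, rfl⟩
    exact h1.2 ⟨s, h3, by simp⟩

theorem good_succ {J : Type} [Fintype J] (k : ℕ) (f : (J → SignType) → SignType)
    (h : Good (k + 2) f) : Good (k + 3) f := by
  refine ⟨?_, h.2⟩
  intro x t hx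
  have third : ∀ i j : Fin (k + 3), ∃ l, l ≠ i ∧ l ≠ j := by
    intro i j
    by_contra hcon
    push Not at hcon
    have h0 := hcon ⟨0, by omega⟩
    have h1 := hcon ⟨1, by omega⟩
    have h2 := hcon ⟨2, by omega⟩
    simp only [ne_eq, Fin.ext_iff] at h0 h1 h2
    omega
  have hj : ∀ j : Fin (k + 3), Gk (k + 2) (fun i => f (fun s => x s (j.succAbove i)))
      (f (fun s => if ∃ i, x s (j.succAbove i) = 1 then 1 else 0)) := by
    intro j
    refine h.1 (fun s i => x s (j.succAbove i)) _ (fun s => ⟨?_, ?_, ?_, ?_⟩)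
    · split_ifs <;> decide
    · intro a b hab h1
      exact (hx s).2.1 _ _ (fun h2 => hab (Fin.succAbove_right_injective h2)) h1
    · intro h1 a h2
      have h3 : ¬ ∃ i, x s (j.succAbove i) = 1 := by
        intro h3
        rw [if_pos h3] at h1
        exact absurd h1 (by decide)
      obtain ⟨l, h4, h5⟩ := third j (j.succAbove a)
      obtain ⟨b, rfl⟩ := Fin.exists_succAbove_eq h4
      exact h3 ⟨b, (hx s).2.1 _ _ h5.symm h2⟩
    · intro h1
      by_contra h3
      rw [if_neg h3] at h1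
      exact absurd h1 (by decide)
  have ht := or_struct _ f h t (fun s => (hx s).1)
  refine ⟨ht.1, ?_, ?_, ?_⟩
  · intro a b hab h1
    obtain ⟨l, h4, h5⟩ := third a b
    obtain ⟨a', rfl⟩ := Fin.exists_succAbove_eq h4.symm
    obtain ⟨b', rfl⟩ := Fin.exists_succAbove_eq h5.symm
    exact (hj l).2.1 a' b' (fun h2 => hab (by rw [h2])) h1
  · intro h1 i
    have h2 : ∀ s ∈ supp f, x s i ≠ -1 := by
      intro s hs
      refine (hx s).2.2.1 (sign_cases _ (hx s).1 (fun h3 => ?_)) i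
      rw [ht.2.2 ⟨s, hs, h3⟩] at h1
      exact absurd h1 (by decide)
    show f (fun s => x s i) ≠ -1
    rw [dep _ f h (fun s => x s i) (fun s => if s ∈ supp f then x s i else 0)
      (fun s hs => by simp [hs])]
    refine (or_struct _ f h _ (fun s => ?_)).1
    split_ifs with h3
    · exact h2 s h3
    · decide
  · intro h1
    obtain ⟨s, hs, h2⟩ := ht.2.1 h1
    obtain ⟨i, hi⟩ := (hx s).2.2.2 h2
    obtain ⟨l, h4, -⟩ := third i i
    obtain ⟨a, rfl⟩ := Fin.exists_succAbove_eq h4.symm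
    obtain ⟨b, hb⟩ := (hj l).2.2.2 ((or_struct _ f h _ (fun s => by
      split_ifs <;> decide)).2.2 ⟨s, hs, by rw [if_pos ⟨a, hi⟩]⟩)
    exact ⟨_, hb⟩

/-- The totally symmetric operation: the common nonzero sign, if any. -/
noncomputable def tau {J : Type} (c : J → SignType) : SignType :=
  if (∃ s, c s = 1) ∧ ¬ (∃ s, c s = -1) then 1
  else if (∃ s, c s = -1) ∧ ¬ (∃ s, c s = 1) then -1 else 0

theorem tau_one {J : Type} (c : J → SignType) :
    tau c = 1 ↔ (∃ s, c s = 1) ∧ ¬ (∃ s, c s = -1) := by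
  unfold tau
  split_ifs with h1 h2
  · simp only [true_iff]; exact h1
  · exact ⟨fun h => absurd h (by decide), fun h => absurd h h1⟩
  · exact ⟨fun h => absurd h (by decide), fun h => absurd h h1⟩

theorem tau_neg {J : Type} (c : J → SignType) :
    tau c = -1 ↔ (∃ s, c s = -1) ∧ ¬ (∃ s, c s = 1) := by
  unfold tau
  split_ifs with h1 h2
  · exact ⟨fun h => absurd h (by decide), fun h => absurd h.1 h1.2⟩
  · simp only [true_iff]; exact h2
  · exact ⟨fun h => absurd h (by decide), fun h => absurd h h2⟩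

theorem tau_zero {J : Type} (c : J → SignType) (hc : ∀ s, c s ≠ -1) (h : tau c = 0) (s : J) :
    c s = 0 := by
  refine sign_cases _ (hc s) (fun h1 => ?_)
  rw [(tau_one c).2 ⟨⟨s, h1⟩, fun ⟨s', h2⟩ => hc s' h2⟩] at h
  exact absurd h (by decide)

theorem good_tau (k : ℕ) : Good (k + 2) (tau (J := Fin (k + 1))) := by
  refine ⟨?_, ?_, ?_, ?_, ?_⟩
  · intro x t hx
    refine ⟨fun h => ?_, ?_, ?_, ?_⟩
    · obtain ⟨⟨s, hs⟩, -⟩ := (tau_neg _).1 h
      exact (hx s).1 hs
    · intro i j hij h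
      obtain ⟨⟨s, hs⟩, h2⟩ := (tau_neg _).1 h
      refine (tau_one _).2 ⟨⟨s, (hx s).2.1 i j hij hs⟩, ?_⟩
      rintro ⟨s', hs'⟩
      exact h2 ⟨s', (hx s').2.1 j i hij.symm hs'⟩
    · intro h i h1
      obtain ⟨⟨s, hs⟩, -⟩ := (tau_neg _).1 h1
      exact (hx s).2.2.1 (tau_zero t (fun s => (hx s).1) h s) i hs
    · intro h
      obtain ⟨⟨s, hs⟩, -⟩ := (tau_one _).1 h
      by_cases h1 : ∃ s i, x s i = -1
      · have h2 : ∃ i, ∀ s, x s i ≠ -1 := by
          by_contra hcon
          push Not at hcon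
          choose φ hφ using hcon
          have hinj : Function.Injective φ := by
            intro i j hij
            by_contra hne
            have h3 := (hx (φ i)).2.1 i j hne (hφ i)
            rw [hij, hφ j] at h3
            exact absurd h3 (by decide)
          have := Fintype.card_le_of_injective φ hinj
          simp at this
        obtain ⟨i, hi⟩ := h2
        obtain ⟨s', j, hj⟩ := h1
        refine ⟨i, (tau_one _).2 ⟨⟨s', (hx s').2.1 j i ?_ hj⟩, fun ⟨s, hs⟩ => hi s hs⟩⟩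
        rintro rfl
        exact hi s' hj
      · obtain ⟨i, hi⟩ := (hx s).2.2.2 hs
        exact ⟨i, (tau_one _).2 ⟨⟨s, hi⟩, fun ⟨s', hs'⟩ => h1 ⟨s', i, hs'⟩⟩⟩
  · intro a b c h
    have hn : ∀ d : Fin (k + 1) → SignType, (∀ s, d s ≠ -1) → tau d ≠ -1 ∧
        (tau d = 1 ↔ ∃ s, d s = 1) := by
      intro d hd
      refine ⟨fun h1 => ?_, ?_⟩
      · obtain ⟨⟨s, hs⟩, -⟩ := (tau_neg _).1 h1
        exact hd s hs
      · rw [tau_one]
        exact ⟨fun h => h.1, fun h => ⟨h, fun ⟨s, hs⟩ => hd s hs⟩⟩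
    have ha := hn a (fun s => (h s).1)
    have hb := hn b (fun s => (h s).2.1)
    have hc := hn c (fun s => (h s).2.2.1)
    refine ⟨ha.1, hb.1, hc.1, ?_⟩
    rw [ha.2, hb.2, hc.2]
    constructor
    · rintro ⟨s, hs⟩
      rcases (h s).2.2.2.1 hs with h1 | h1
      · exact Or.inl ⟨s, h1⟩
      · exact Or.inr ⟨s, h1⟩
    · rintro (⟨s, hs⟩ | ⟨s, hs⟩)
      · exact ⟨s, (h s).2.2.2.2 (Or.inl hs)⟩
      · exact ⟨s, (h s).2.2.2.2 (Or.inr hs)⟩
  · intro a
    have e1 : ∀ b : SignType, - b = 1 ↔ b = -1 := by decide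
    have e2 : ∀ b : SignType, - b = -1 ↔ b = 1 := by decide
    unfold tau
    simp only [e1, e2]
    by_cases h1 : ∃ s, a s = 1 <;> by_cases h2 : ∃ s, a s = -1 <;> simp [h1, h2]
  · intro a b c h
    refine ⟨fun h1 => ?_, fun h1 => ?_⟩
    · obtain ⟨⟨s, hs⟩, -⟩ := (tau_neg _).1 h1
      exact (h s).1 hs
    · congr 1
      funext s
      exact (h s).2 (tau_zero c (fun s => (h s).1) h1 s)
  · exact (tau_one _).2 ⟨⟨0, rfl⟩, fun ⟨_, h⟩ => absurd h (by decide)⟩

theorem not_ts (k : ℕ) (f : (Fin (k + 2) → SignType) → SignType) (h : Good (k + 2) f)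
    (hts : ∀ c c', Set.range c = Set.range c' → f c = f c') : False := by
  have h1 := h.1 (fun s i => if i = s then -1 else 1) (fun _ => 1) (fun s => by
    refine ⟨by decide, ?_, fun h => absurd h (by decide), fun _ => ?_⟩
    · intro i j hij h2
      by_cases h3 : i = s
      · subst h3
        simp [hij.symm]
      · simp [h3] at h2
    · obtain ⟨j, hj⟩ := exists_ne s
      exact ⟨j, by simp [hj]⟩)
  obtain ⟨i, hi⟩ := h1.2.2.2 h.2.2.2.2
  have h2 := h.2.2.1 (fun s => if i = s then -1 else 1)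
  obtain ⟨j, hj⟩ := exists_ne i
  rw [hts _ (fun s => if i = s then -1 else 1)] at h2
  · simp only at hi
    rw [hi] at h2
    exact absurd h2 (by decide)
  · ext b
    constructor
    · rintro ⟨s, rfl⟩
      by_cases h3 : i = s
      · exact ⟨j, by simp [h3.symm ▸ hj.symm, h3]⟩
      · exact ⟨i, by simp [h3]⟩
    · rintro ⟨s, rfl⟩
      by_cases h3 : i = s
      · exact ⟨j, by simp [h3.symm ▸ hj.symm, h3]⟩
      · exact ⟨i, by simp [h3]⟩

/-- The relation of pp-constructability between digraphs on initial segments. -/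
def PPC (kB : ℕ) (B : Digraph (Fin kB)) (kA : ℕ) (A : Digraph (Fin kA)) : Prop :=
  ∃ (n m : ℕ)
    (Es Qs : Set (((Fin 2 × Fin n) ⊕ Fin m) × ((Fin 2 × Fin n) ⊕ Fin m)))
    (E : (Fin n → Fin kB) → (Fin n → Fin kB) → Prop),
    0 < n ∧
    (∀ x y : Fin n → Fin kB, E x y ↔ ∃ s : Fin m → Fin kB,
        (∀ p ∈ Es,
          B.Adj (Sum.elim (fun q : Fin 2 × Fin n => (![x, y] q.1) q.2) s p.1)
                (Sum.elim (fun q : Fin 2 × Fin n => (![x, y] q.1) q.2) s p.2)) ∧
        (∀ p ∈ Qs,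
          Sum.elim (fun q : Fin 2 × Fin n => (![x, y] q.1) q.2) s p.1 =
            Sum.elim (fun q : Fin 2 × Fin n => (![x, y] q.1) q.2) s p.2)) ∧
    (∃ f : Fin kA → (Fin n → Fin kB), ∀ a b : Fin kA, A.Adj a b → E (f a) (f b)) ∧
    (∃ g : (Fin n → Fin kB) → Fin kA,
        ∀ x y : Fin n → Fin kB, E x y → A.Adj (g x) (g y))

/-- Transport of a digraph to an initial segment. -/
noncomputable def toFin {W : Type} [Fintype W] (A : W → W → Prop) :
    Digraph (Fin (Fintype.card W)) :=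
  ⟨fun a b => A ((Fintype.equivFin W).symm a) ((Fintype.equivFin W).symm b)⟩

theorem ppc_of {W W' : Type} [Fintype W] [Fintype W'] [Nonempty W] (B : W → W → Prop)
    (A : W' → W' → Prop) (h : ((W' → W) → W) → W')
    (hh : ∀ e : ({p : W' × W' // A p.1 p.2} → W) → W, IsPol B e →
      A (h (fun c => e (fun t => c t.1.1))) (h (fun c => e (fun t => c t.1.2)))) :
    PPC _ (toFin B) _ (toFin A) := by
  set φ := Fintype.equivFin W with hφ
  set ψ := Fintype.equivFin W' with hψ
  let α := Fintype.equivFin (W' → W)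
  let β := Fintype.equivFin ({p : W' × W' // A p.1 p.2} → W)
  refine ⟨Fintype.card (W' → W), Fintype.card ({p : W' × W' // A p.1 p.2} → W),
    {p | ∃ z z', (∀ t, B (z t) (z' t)) ∧ p = (Sum.inr (β z), Sum.inr (β z'))},
    {p | ∃ c, p = (Sum.inl (0, α c), Sum.inr (β (fun t => c t.1.1))) ∨
      p = (Sum.inl (1, α c), Sum.inr (β (fun t => c t.1.2)))}, _, Fintype.card_pos,
    fun _ _ => Iff.rfl, ⟨fun a i => φ (α.symm i (ψ.symm a)), ?_⟩,
    ⟨fun x => ψ (h (fun c => φ.symm (x (α c)))), ?_⟩⟩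
  · intro a b hab
    refine ⟨fun j => φ (β.symm j ⟨(ψ.symm a, ψ.symm b), hab⟩), ?_, ?_⟩
    · rintro _ ⟨z, z', h1, rfl⟩
      simpa [toFin, ← hφ] using h1 _
    · rintro _ ⟨c, rfl | rfl⟩ <;> simp
  · rintro x y ⟨s, h1, h2⟩
    have h3 := hh (fun z => φ.symm (s (β z))) (fun z z' hz => h1 _ ⟨z, z', hz, rfl⟩)
    have e1 : (fun c => φ.symm (x (α c))) = fun c => φ.symm (s (β (fun t => c t.1.1))) := by
      funext c
      congr 1
      exact h2 _ ⟨c, Or.inl rfl⟩
    have e2 : (fun c => φ.symm (y (α c))) = fun c => φ.symm (s (β (fun t => c t.1.2))) := by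
      funext c
      congr 1
      exact h2 _ ⟨c, Or.inr rfl⟩
    simpa [toFin, ← hψ, e1, e2] using h3

/-- Existence of a totally symmetric polymorphism of arity n. -/
def TS {W : Type} (A : W → W → Prop) (n : ℕ) : Prop :=
  ∃ F : (Fin n → W) → W, IsPol A F ∧ ∀ x y, Set.range x = Set.range y → F x = F y

theorem ts_of_ppc {W W' : Type} [Fintype W] [Fintype W'] (B : W → W → Prop)
    (A : W' → W' → Prop) (n : ℕ) (h : PPC _ (toFin B) _ (toFin A)) (hB : TS B n) : TS A n := by
  set φ := Fintype.equivFin W with hφ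
  set ψ := Fintype.equivFin W' with hψ
  obtain ⟨N, m, Es, Qs, E, -, hE, ⟨f, hf⟩, g, hg⟩ := h
  obtain ⟨F, hF, hT⟩ := hB
  refine ⟨fun x => ψ.symm (g (fun i => φ (F (fun t => φ.symm (f (ψ (x t)) i))))), ?_, ?_⟩
  · intro x y hxy
    apply hg
    have h1 : ∀ t, E (f (ψ (x t))) (f (ψ (y t))) := fun t => hf _ _ (by
      simpa [toFin, ← hψ] using hxy t)
    simp only [hE] at h1
    choose s h1 h2 using h1
    have h3 : ∀ v : (Fin 2 × Fin N) ⊕ Fin m,
        Sum.elim (fun q : Fin 2 × Fin N => (![fun i => φ (F (fun t => φ.symm (f (ψ (x t)) i))),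
          fun i => φ (F (fun t => φ.symm (f (ψ (y t)) i)))] q.1) q.2)
          (fun j => φ (F (fun t => φ.symm (s t j)))) v =
        φ (F (fun t => φ.symm (Sum.elim (fun q : Fin 2 × Fin N =>
          (![f (ψ (x t)), f (ψ (y t))] q.1) q.2) (s t) v))) := by
      rintro (⟨a, i⟩ | j)
      · fin_cases a <;> rfl
      · rfl
    rw [hE]
    refine ⟨fun j => φ (F (fun t => φ.symm (s t j))), ?_, ?_⟩
    · intro p hp
      rw [h3, h3]
      have := hF _ _ (fun t => h1 t p hp)
      simpa [toFin, ← hφ] using this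
    · intro p hp
      rw [h3, h3]
      congr 2
      funext t
      rw [h2 t p hp]
  · intro x y hxy
    simp only
    congr 2
    funext i
    congr 1
    apply hT
    have : ∀ z : Fin n → W', Set.range (fun t => φ.symm (f (ψ (z t)) i)) =
        (fun w => φ.symm (f (ψ w) i)) '' Set.range z := fun z => by
      rw [← Set.range_comp]; rfl
    rw [this, this, hxy]

/-- Levels of the coordinates. -/
def lv (k : ℕ) (i : Fin k ⊕ Fin 10) : ℕ := (finSumFinEquiv i).val

/-- The digraphs of the chain. -/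
def DG (k : ℕ) : V (Fin k ⊕ Fin 10) (k + 10) → V (Fin k ⊕ Fin 10) (k + 10) → Prop :=
  Adj (lv k) (Rk k)

theorem good_ind {J : Type} (k : ℕ)
    (g : (J → V (Fin k ⊕ Fin 10) (k + 10)) → V (Fin k ⊕ Fin 10) (k + 10))
    (hg : IsPol (DG k) g) : Good k (ind g) :=
  good_of_pres k _ (pres_ind (lv k) (fun i => (finSumFinEquiv i).isLt)
    (fun _ _ h => finSumFinEquiv.injective (Fin.ext h)) _ g hg)

theorem up (k : ℕ) : PPC _ (toFin (DG (k + 2))) _ (toFin (DG (k + 3))) := by
  refine ppc_of _ _ (fun g => lift (ind g) (supp (ind g))) ?_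
  intro e he
  have h1 := good_succ k _ (good_ind _ e he)
  have h2 := lift_adj (lv (k + 3)) (Rk (k + 3)) (ind e) (supp (ind e)) (supp_ne _ _ h1)
    (dep _ _ h1) (pres_of_good _ _ h1) (fun t => t.1.1) (fun t => t.1.2) (fun t _ => t.2)
  rw [← supp_minor _ _ h1, ← supp_minor _ _ h1] at h2
  exact h2

theorem ts_up (k : ℕ) : TS (DG (k + 2)) (k + 1) := by
  refine ⟨fun x => lift (fun c => tau (fun t => c (x t))) (x '' Set.univ), ?_, ?_⟩
  · intro x y hxy
    exact lift_adj _ _ tau Set.univ Set.univ_nonempty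
      (fun c c' h => by congr 1; funext t; exact h t trivial)
      (pres_of_good _ _ (good_tau k)) x y (fun t _ => hxy t)
  · intro x y hxy
    simp only [Set.image_univ, hxy]
    congr 1
    funext c
    have : ∀ b, (∃ s, c (x s) = b) ↔ ∃ s, c (y s) = b := by
      intro b
      rw [← Set.exists_range_iff (p := fun v => c v = b),
        ← Set.exists_range_iff (p := fun v => c v = b), hxy]
    unfold tau
    simp only [this]
    congr

theorem ts_down (k : ℕ) : ¬ TS (DG (k + 2)) (k + 2) := by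
  rintro ⟨F, hF, hT⟩
  refine not_ts k (ind F) (good_ind _ F hF) ?_
  intro c c' h
  unfold ind
  congr 1
  apply hT
  have : ∀ z : Fin (k + 2) → SignType,
      Set.range (fun t => ((z t, 0, 0, 0) : V (Fin (k + 2) ⊕ Fin 10) (k + 2 + 10))) =
      (fun a => ((a, 0, 0, 0) : V (Fin (k + 2) ⊕ Fin 10) (k + 2 + 10))) '' Set.range z :=
    fun z => by rw [← Set.range_comp]; rfl
  rw [this, this, h]

theorem result :
  ∃ (C : (kB : ℕ) → Digraph (Fin kB) → (kA : ℕ) → Digraph (Fin kA) → Prop),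
    (∀ (kB : ℕ) (B : Digraph (Fin kB)) (kA : ℕ) (A : Digraph (Fin kA)),
      C kB B kA A ↔
        ∃ (n m : ℕ)
          (Es Qs : Set (((Fin 2 × Fin n) ⊕ Fin m) × ((Fin 2 × Fin n) ⊕ Fin m)))
          (E : (Fin n → Fin kB) → (Fin n → Fin kB) → Prop),
          0 < n ∧
          (∀ x y : Fin n → Fin kB, E x y ↔ ∃ s : Fin m → Fin kB,
              (∀ p ∈ Es,
                B.Adj (Sum.elim (fun q : Fin 2 × Fin n => (![x, y] q.1) q.2) s p.1)
                      (Sum.elim (fun q : Fin 2 × Fin n => (![x, y] q.1) q.2) s p.2)) ∧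
              (∀ p ∈ Qs,
                Sum.elim (fun q : Fin 2 × Fin n => (![x, y] q.1) q.2) s p.1 =
                  Sum.elim (fun q : Fin 2 × Fin n => (![x, y] q.1) q.2) s p.2)) ∧
          (∃ f : Fin kA → (Fin n → Fin kB), ∀ a b : Fin kA, A.Adj a b → E (f a) (f b)) ∧
          (∃ g : (Fin n → Fin kB) → Fin kA,
              ∀ x y : Fin n → Fin kB, E x y → A.Adj (g x) (g y))) ∧
    ∃ (k : ℕ → ℕ) (G : (i : ℕ) → Digraph (Fin (k i))),
      (∀ i, 0 < k i) ∧
      ∀ i, C (k i) (G i) (k (i + 1)) (G (i + 1)) ∧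
           ¬ C (k (i + 1)) (G (i + 1)) (k i) (G i) := by
  refine ⟨PPC, fun _ _ _ _ => Iff.rfl, _, fun i => toFin (DG (i + 2)), fun i => Fintype.card_pos,
    fun i => ⟨up i, fun h => ts_down i (ts_of_ppc _ _ _ h (ts_up (i + 1)))⟩⟩

end Pool.Agent.S14805
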