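import Pool.Statements.S14818
import Pool.Agent.H.MP_65d1df_lc.B

set_option autoImplicit false
open Pool Pool.MP_65d1df_lc

namespace Pool.Agent.S14818

open Pool.Agent.H.MP_65d1df_lc

theorem result :
    ¬ (∃ δ : ℝ, 0 < δ ∧ ∃ c : ℝ, 0 < c ∧ ∃ N : ℕ, ∀ m : ℕ, N ≤ m →
      ∀ A : List (Fin (m + 1)) → Bool,
      ∀ B : (Fin (m + 1) → Bool) → Finset (Fin (m + 1)),
        (∀ σ : Equiv.Perm (Fin (m + 1)), ∀ b : Bool,
          σ (Fin.last m) ∈ B (fun j : Fin (m + 1) =>
            if σ.symm j = Fin.last m then b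
            else A (List.map σ ((List.finRange (m + 1)).take ((σ.symm j).val + 1))))) →
        ∃ σ : Equiv.Perm (Fin (m + 1)), ∃ b : Bool,
          c * ((m + 1 : ℕ) : ℝ) ^ δ ≤
            ((B (fun j : Fin (m + 1) =>
              if σ.symm j = Fin.last m then b
              else A (List.map σ ((List.finRange (m + 1)).take ((σ.symm j).val + 1))))).card : ℝ)) := by
  rintro ⟨δ, hδ, c, hc, N, h⟩
  obtain ⟨m, hm, A, B, g⟩ := main δ c hδ hc N
  obtain ⟨σ, b, k⟩ := h m hm A B fun σ b => (g σ b).1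
  exact absurd k (not_le.2 (g σ b).2)

end Pool.Agent.S14818
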