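import Pool.Statements.S14870
import Pool.Agent.H.MP_6f9417_lc.Elem

set_option autoImplicit false
open Pool Pool.MP_6f9417_lc

namespace Pool.Agent.S14870

theorem result :
    ¬ (∃ P : List (List ℕ) × List (List ℕ) → Prop, ComputablePred P ∧
      ∀ u v : List (List ℕ), u.length = v.length →
        (∀ m : ℕ, m < u.length → ∀ f : ℕ → List (Fin m), ∀ k : Fin m → List ℕ,
          ¬ ∀ i : ℕ, i < u.length → ((f i).map k).flatten = u.getD i []) →
        (∀ m : ℕ, m < v.length → ∀ f : ℕ → List (Fin m), ∀ k : Fin m → List ℕ,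
          ¬ ∀ i : ℕ, i < v.length → ((f i).map k).flatten = v.getD i []) →
        (P (u, v) ↔ ∃ w : List ℕ, w ≠ [] ∧ (∀ i ∈ w, i < u.length) ∧
          (w.map (fun i => u.getD i [])).flatten = (w.map (fun i => v.getD i [])).flatten)) := by
  rintro ⟨P, hP, h⟩
  obtain ⟨H, G, hH, hG, h1, h2⟩ := Pool.Agent.H.MP_6f9417_lc.undec_elem
  obtain ⟨f, hf, rfl⟩ := ComputablePred.computable_iff.1 hP
  refine h2 (ComputablePred.computable_iff.2 ⟨fun n => f (H n, G n),
    hf.comp (hH.pair hG).to_comp, funext fun n => propext ?_⟩)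
  exact (h (H n) (G n) (h1 n).1
    (fun m hm f k hf => (h1 n).2.1 m hm (fun i => f i) k fun i => hf i i.2)
    (fun m hm f k hf => (h1 n).2.2 m hm (fun i => f i) k fun i => hf i i.2)).symm

end Pool.Agent.S14870
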