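import Pool.Statements.S14881
import Pool.Agent.H.MP_70d3c3_lc.C

set_option autoImplicit false
open Pool Pool.MP_70d3c3_lc

namespace Pool.Agent.S14881

open Pool.Agent.H.MP_70d3c3_lc

theorem result :
  ∀ t : ℕ → ℕ, t 0 = 2 → (∀ i : ℕ, t (i + 1) = t i * (t i - 1) + 1) →
  ∃ A : List ℝ → ℝ → ℕ,
    (∀ L : List ℝ, (∀ y ∈ L, 0 < y ∧ y ≤ 1) → ∀ b : ℕ,
      ∑ i ∈ (Finset.univ : Finset (Fin L.length)).filter
          (fun i : Fin L.length => A (L.take (i : ℕ)) (L.get i) = b),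
        L.get i ≤ 1) ∧
    (∃ k : ℕ, ∀ p : List ℝ, (∀ y ∈ p, 0 < y ∧ y ≤ 1) →
      Set.ncard {b : ℕ | (∃ i : Fin p.length, A (p.take (i : ℕ)) (p.get i) = b) ∧
        ∃ q : List ℝ, ∃ x : ℝ, (∀ y ∈ q, 0 < y ∧ y ≤ 1) ∧ 0 < x ∧ x ≤ 1 ∧
          A (p ++ q) x = b} ≤ k) ∧
    (∀ ε : ℝ, 0 < ε → ∃ N : ℕ, ∀ L : List ℝ, (∀ y ∈ L, 0 < y ∧ y ≤ 1) →
      N ≤ sInf {m : ℕ | ∃ f : Fin L.length → Fin m, ∀ j : Fin m,
        ∑ i ∈ (Finset.univ : Finset (Fin L.length)).filter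
            (fun i : Fin L.length => f i = j), L.get i ≤ 1} →
      (((Finset.univ : Finset (Fin L.length)).image
          (fun i : Fin L.length => A (L.take (i : ℕ)) (L.get i))).card : ℝ) ≤
        (∑' i : ℕ, 1 / ((t i : ℝ) - 1) + ε) *
          ((sInf {m : ℕ | ∃ f : Fin L.length → Fin m, ∀ j : Fin m,
            ∑ i ∈ (Finset.univ : Finset (Fin L.length)).filter
                (fun i : Fin L.length => f i = j), L.get i ≤ 1} : ℕ) : ℝ)) ∧
    (∀ ε : ℝ, 0 < ε → ∀ N : ℕ, ∃ L : List ℝ, (∀ y ∈ L, 0 < y ∧ y ≤ 1) ∧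
      N ≤ sInf {m : ℕ | ∃ f : Fin L.length → Fin m, ∀ j : Fin m,
        ∑ i ∈ (Finset.univ : Finset (Fin L.length)).filter
            (fun i : Fin L.length => f i = j), L.get i ≤ 1} ∧
      (∑' i : ℕ, 1 / ((t i : ℝ) - 1) - ε) *
          ((sInf {m : ℕ | ∃ f : Fin L.length → Fin m, ∀ j : Fin m,
            ∑ i ∈ (Finset.univ : Finset (Fin L.length)).filter
                (fun i : Fin L.length => f i = j), L.get i ≤ 1} : ℕ) : ℝ) ≤
        (((Finset.univ : Finset (Fin L.length)).image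
          (fun i : Fin L.length => A (L.take (i : ℕ)) (L.get i))).card : ℝ)) := by
  intro t t0 ts
  have ht : ∀ i, t i = an i + 1 := by
    intro i
    induction i with
    | zero => simpa [an] using t0
    | succ i ih => rw [ts, ih]; simp [an, mul_comm]
  have hH : ∑' i : ℕ, 1 / ((t i : ℝ) - 1) = H 0 := by simp [H, ht, a]
  rw [hH]
  refine ⟨Alg, fun L h b => by rw [load_eq]; exact Alg_load h b, ⟨132, fun p h => ?_⟩,
    fun ε hε => ?_, fun ε hε N => ?_⟩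
  · obtain ⟨S, hS, hS'⟩ := Alg_bdd h
    refine le_trans (Set.ncard_le_ncard (t := (S : Set ℕ)) ?_ S.finite_toSet) (by simpa using hS)
    rintro b ⟨⟨i, hi⟩, q, x, -, -, -, rfl⟩
    refine hS' q x ?_
    rw [← used_eq]
    exact Finset.mem_image.2 ⟨i, Finset.mem_univ _, hi⟩
  · simp only [used_eq]
    exact upper ε hε
  · simp only [used_eq]
    exact lower ε hε N

end Pool.Agent.S14881
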