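import Pool.Statements.S14897
import Pool.Agent.H.MP_738f58_lc.A

set_option autoImplicit false
open Pool Pool.MP_738f58_lc

namespace Pool.Agent.S14897

open Pool.Agent.Lib.helper21.PR Pool.Agent.H.MP_fa5791_lc Pool.Agent.H.MP_738f58_lc Finset

attribute [local irreducible] Primrec Computable

theorem online {K : ℕ → ℕ → Bool} (hK : CI O fun z : ℕ × ℕ => K z.1 z.2) (k1 : ∀ x, ¬ K x x)
    (k2 : ∀ v z u, v < z → u < z → K v z → K z u → K v u) : ∃ L : ℕ → ℕ → Bool, CI O (fun z : ℕ × ℕ => L z.1 z.2) ∧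
      (∀ a, ¬ L a a) ∧ (∀ a c, a ≠ c → L a c ∨ L c a) ∧ (∀ a c d, L a c → L c d → L a d) ∧ ∀ a c, K a c → L a c := by
  obtain ⟨lt, l1, l2⟩ : ∃ lt : List (List Bool) → ℕ → ℕ → Bool, Primrec (fun z : List (List Bool) × ℕ × ℕ =>
    lt z.1 z.2.1 z.2.2) ∧ ∀ C a c, lt C a c = if a < c then (C.getD c []).getD a false else
      if c < a then !(C.getD a []).getD c false else false := ⟨_, by fun_prop, fun _ _ _ => rfl⟩
  obtain ⟨c, c1, c2⟩ := ci_cov (f := fun u l => (List.range u).map fun z => cd (∃ w < u, K w u ∧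
    (z = w ∨ lt l z w))) (by fun_prop)
  obtain ⟨L, hL⟩ : ∃ L : ℕ → ℕ → Bool, ∀ a d, L a d = lt ((List.range (a + d + 1)).map c) a d := ⟨_, fun _ _ => rfl⟩
  have e : ∀ u, ∀ a < u, ∀ d < u, lt ((List.range u).map c) a d = L a d := fun u a h d k => by
    simp [hL, l2, h, k, show a < a + d + 1 by omega, show d < a + d + 1 by omega]
  have x3 : ∀ u, ∀ z < u, L z u ↔ ∃ w < u, K w u ∧ (z = w ∨ L z w) := fun u z h => by
    rw [← e (u + 1) z (by omega) u (by omega), l2, if_pos h]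
    simp only [List.getD_eq_getElem?_getD, List.getElem?_map, List.getElem?_range u.lt_succ_self, Option.map_some,
      Option.getD_some]
    rw [c2]
    simp only [List.getElem?_map, List.getElem?_range h, Option.map_some, Option.getD_some, cd_true]
    exact exists_congr fun w => and_congr_right fun k => by rw [e _ _ h _ k]
  have x4 : ∀ a, L a a = false := fun a => by simp [hL, l2]
  have x5 : ∀ a d, a ≠ d → L a d = !L d a := fun a d k => by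
    rw [hL, hL, add_comm d, l2, l2]
    rcases k.lt_or_gt with m | m <;> simp [m, m.not_gt]
  have as : ∀ {a c}, L a c → ¬ L c a := fun {a c} h k => by
    by_cases e : a = c
    · simp [e, x4] at h
    · simp [x5 a c e, k] at h
  have tt : ∀ {a c}, a ≠ c → ¬ L a c → L c a := fun {a c} h k => by simpa [x5 a c h] using k
  have tr : ∀ m, ∀ a < m, ∀ c < m, ∀ d < m, L a c → L c d → L a d := fun m => by
    induction m with
    | zero => simp
    | succ m i1 =>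
      have D : ∀ y < m, ∀ z < m, L y z → L z m → L y m := fun y h z k e f => (x3 _ _ h).2 (((x3 _ _ k).1 f).imp
        fun w g => ⟨g.1, g.2.1, .inr (g.2.2.elim (· ▸ e) (i1 _ h _ k _ g.1 e))⟩)
      intro a h c k d l e f
      have := as e
      have := as f
      rcases Nat.lt_succ_iff_lt_or_eq.1 h with h | rfl <;> rcases Nat.lt_succ_iff_lt_or_eq.1 k with k | rfl <;>
        rcases Nat.lt_succ_iff_lt_or_eq.1 l with l | rfl
      exacts [i1 a h c k d l e f, D a h c k e f, by_contra fun g => as f (D d l a h (tt (by rintro rfl; tauto) g) e),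
        by simp [x4] at f, tt l.ne fun g => as e (D c k d l f g), (as e f).elim, f, e]
  have : ∀ m, ∀ a < m, ∀ c < m, K a c → L a c := fun m => by
    induction m with
    | zero => simp
    | succ m ih =>
      intro a h c k l
      rcases Nat.lt_succ_iff_lt_or_eq.1 h with h | rfl <;> rcases Nat.lt_succ_iff_lt_or_eq.1 k with k | rfl
      exacts [ih a h c k l, (x3 _ _ h).2 ⟨a, h, l, .inl rfl⟩, tt k.ne fun o => let ⟨w, b, d, f⟩ := (x3 _ _ k).1 o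
        f.elim (fun f => k1 _ (f ▸ k2 _ _ _ b k d l)) (as (ih _ b _ k (k2 _ _ _ b k d l))), (k1 _ l).elim]
  exact ⟨L, .of_eq (by fun_prop) fun _ => (hL _ _).symm, by simp [x4], fun a c h => or_iff_not_imp_left.2 (tt h),
    fun a c d => tr (a + c + d + 1) a (by omega) c (by omega) d (by omega),
    fun a c => this (a + c + 1) a (by omega) c (by omega)⟩

theorem result :
  ∃ f : ℕ → ℕ, ∀ w : ℕ, ∀ P : ℕ → Prop, ∀ r : ℕ → ℕ → Prop,
    ComputablePred P →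
    ComputablePred (fun p : ℕ × ℕ => r p.1 p.2) →
    (∀ x, P x → r x x) →
    (∀ x y, P x → P y → r x y → r y x → x = y) →
    (∀ x y z, P x → P y → P z → r x y → r y z → r x z) →
    (∀ s : Finset ℕ, (∀ x ∈ s, P x) →
        (∀ x ∈ s, ∀ y ∈ s, x ≠ y → ¬ r x y ∧ ¬ r y x) → s.card ≤ w) →
    (¬ ∃ a₁ a₂ a₃ b₁ b₂ b₃ : ℕ,
        P a₁ ∧ P a₂ ∧ P a₃ ∧ P b₁ ∧ P b₂ ∧ P b₃ ∧
        r a₁ b₂ ∧ r a₁ b₃ ∧ r a₂ b₁ ∧ r a₂ b₃ ∧ r a₃ b₁ ∧ r a₃ b₂ ∧
        (¬ r a₁ b₁ ∧ ¬ r b₁ a₁) ∧ (¬ r a₂ b₂ ∧ ¬ r b₂ a₂) ∧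
        (¬ r a₃ b₃ ∧ ¬ r b₃ a₃) ∧
        (¬ r a₁ a₂ ∧ ¬ r a₂ a₁) ∧ (¬ r a₁ a₃ ∧ ¬ r a₃ a₁) ∧
        (¬ r a₂ a₃ ∧ ¬ r a₃ a₂) ∧
        (¬ r b₁ b₂ ∧ ¬ r b₂ b₁) ∧ (¬ r b₁ b₃ ∧ ¬ r b₃ b₁) ∧
        (¬ r b₂ b₃ ∧ ¬ r b₃ b₂)) →
    ∃ d : ℕ, d ≤ f w ∧ ∃ L : Fin d → ℕ → ℕ → Prop,
      (∀ i, ComputablePred (fun p : ℕ × ℕ => L i p.1 p.2)) ∧
      (∀ i, ∀ x, P x → L i x x) ∧
      (∀ i, ∀ x y, P x → P y → L i x y → L i y x → x = y) ∧
      (∀ i, ∀ x y z, P x → P y → P z → L i x y → L i y z → L i x z) ∧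
      (∀ i, ∀ x y, P x → P y → L i x y ∨ L i y x) ∧
      (∀ x y, P x → P y → (r x y ↔ ∀ i, L i x y)) := by
  classical
  choose n hn using cover
  refine ⟨fun w => Fintype.card (Fin (n w) → Fin (n w)), fun w P r hP hr h1 h2 h3 hw hc => ⟨_, le_rfl, ?_⟩⟩
  obtain ⟨p, p1, rfl⟩ := ComputablePred.computable_iff.1 hP
  obtain ⟨q, q1, q2⟩ := ComputablePred.computable_iff.1 hr
  have p2 : CI O p := Computable.ci p1
  have q3 : CI O q := Computable.ci q1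
  obtain ⟨R, r0, r1⟩ : ∃ R : ℕ → ℕ → Bool, CI O (fun z : ℕ × ℕ => R z.1 z.2) ∧ ∀ x y, R x y ↔ p x ∧ p y ∧ r x y :=
    ⟨fun x y => cd (p x ∧ p y ∧ q (x, y)), by fun_prop, fun x y => by rw [cd_true, ← congrFun q2 (x, y)]⟩
  have cr : ∀ u v a b c d, R u u → R v v → ¬ R u v → R a v → R b v → R u c → R u d → R a c → R b d → R a d ∨ R b c :=
    fun u v a b c d => by
      simp only [r1]
      rintro ⟨pu, -⟩ ⟨pv, -⟩ e ⟨pa, -, av⟩ ⟨pb, -, bv⟩ ⟨-, pc, uc⟩ ⟨-, pd, ud⟩ ⟨-, -, ac⟩ ⟨-, -, bd⟩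
      by_contra o
      have uv : ¬ r u v := fun k => e ⟨pu, pv, k⟩
      have ad : ¬ r a d := fun k => o (.inl ⟨pa, pd, k⟩)
      have bc : ¬ r b c := fun k => o (.inr ⟨pb, pc, k⟩)
      have vd : ¬ r v d := fun k => ad (h3 _ _ _ pa pv pd av k)
      have vc : ¬ r v c := fun k => bc (h3 _ _ _ pb pv pc bv k)
      have ua : ¬ r u a := fun k => uv (h3 _ _ _ pu pa pv k av)
      have ub : ¬ r u b := fun k => uv (h3 _ _ _ pu pb pv k bv)
      exact hc ⟨u, a, b, v, d, c, pu, pa, pb, pv, pd, pc, ud, uc, av, ac, bv, bd,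
        ⟨uv, fun k => vd (h3 _ _ _ pv pu pd k ud)⟩, ⟨ad, fun k => ua (h3 _ _ _ pu pd pa ud k)⟩,
        ⟨bc, fun k => ub (h3 _ _ _ pu pc pb uc k)⟩, ⟨ua, fun k => ad (h3 _ _ _ pa pu pd k ud)⟩,
        ⟨ub, fun k => bc (h3 _ _ _ pb pu pc k uc)⟩,
        ⟨fun k => ad (h3 _ _ _ pa pb pd k bd), fun k => bc (h3 _ _ _ pb pa pc k ac)⟩,
        ⟨vd, fun k => uv (h3 _ _ _ pu pd pv ud k)⟩, ⟨vc, fun k => uv (h3 _ _ _ pu pc pv uc k)⟩,
        fun k => bc (h3 _ _ _ pb pd pc bd k), fun k => ad (h3 _ _ _ pa pc pd ac k)⟩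
  replace cr := PLift.up cr
  replace hn := hn w R
  beta_reduce at *
  generalize n w = m at *
  clear hc n hP hr p1 p2 q1 q2 q3 q
  rename' m => n
  have o : PO R := ⟨r0, by grind, by grind, by grind⟩
  obtain ⟨g, g0, g1, g2⟩ := hn o fun s a b => hw s (by grind) (by grind)
  clear hn hw
  obtain ⟨-, o1, o2, o3⟩ := o
  have m : ∀ σ : Fin n → Fin n, ∃ L : ℕ → ℕ → Bool, CI O (fun z : ℕ × ℕ => L z.1 z.2) ∧
      (∀ a, ¬ L a a) ∧ (∀ a c, a ≠ c → L a c ∨ L c a) ∧ (∀ a c d, L a c → L c d → L a d) ∧ ∀ v u, R v v → R u u →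
        (∀ a c, R a v → R u c → ¬ R c a ∧ (R a c ∨ σ ⟨_, g1 a⟩ < σ ⟨_, g1 c⟩)) → L v u := fun σ => by
    obtain ⟨s, s0, s1⟩ : ∃ s : ℕ → ℕ, CI O s ∧ ∀ x, s x = σ ⟨_, g1 x⟩ :=
      ⟨fun x => (List.ofFn fun i => (σ i : ℕ)).getD (g x) 0, by fun_prop, fun x => by simp [g1]⟩
    obtain ⟨L, l⟩ := online (K := fun v u => cd (R v v ∧ R u u ∧ ∀ a < max v u + 1, ∀ c < max v u + 1, R a v → R u c →
      ¬ R c a ∧ (R a c ∨ s a < s c))) (by fun_prop) (fun x h => by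
        obtain ⟨a, -, b⟩ := cd_true.1 h
        exact (b x (by omega) x (by omega) a a).1 a) fun v z u a b c d => by
      obtain ⟨c1, c2, c⟩ := cd_true.1 c
      obtain ⟨-, d2, d⟩ := cd_true.1 d
      refine cd_true.2 ⟨c1, d2, fun x e y f h k => ?_⟩
      have A := c x (by omega) z (by omega) h c2
      have B := d z (by omega) y (by omega) c2 k
      rcases A.2 with A | A
      · exact d x (by omega) y (by omega) A k
      rcases B.2 with E | E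
      · exact c x (by omega) y (by omega) h E
      exact ⟨fun l => (c y (by omega) z (by omega) (o3 _ _ _ l h) c2).2.elim B.1 (by omega), .inr (A.trans E)⟩
    exact ⟨L, l.1, l.2.1, l.2.2.1, l.2.2.2.1, fun v u a b h => l.2.2.2.2 v u (cd_true.2 ⟨a, b, fun x _ y _ k o => by
      simpa only [s1, Fin.val_fin_lt] using h x y k o⟩)⟩
  choose L l0 l1 l2 l3 l4 using m
  refine ⟨fun i x y => x = y ∨ L ((Fintype.equivFin _).symm i) x y, fun i => ?_, fun _ _ _ => .inl rfl,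
    fun i x y _ _ => ?_, fun i x y z _ _ _ => ?_, fun i x y _ _ => ?_, fun x y a b => ⟨fun h i => ?_, fun h => ?_⟩⟩
  · have := l0 ((Fintype.equivFin _).symm i)
    beta_reduce
    generalize L _ = L at this ⊢
    exact ComputablePred.computable_iff.2 ⟨fun z => cd (z.1 = z.2 ∨ L z.1 z.2), ci_comput (by fun_prop), by simp⟩
  · grind
  · grind
  · grind
  · exact or_iff_not_imp_left.2 fun e => l4 _ _ _ (by grind) (by grind) (by grind)
  by_contra e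
  obtain ⟨φ, f⟩ : ∃ φ : Fin n → Set ℕ, ∀ j c, c ∈ φ j ↔ R x c ∧ ∀ b, R b y → g b = j → R b c := ⟨_, fun _ _ => .rfl⟩
  have t : ∀ j, (univ.filter fun i => φ i ⊂ φ j).card < n := fun j =>
    (card_lt_card (t := univ) ⟨subset_univ _, fun o => by simpa using o (mem_univ j)⟩).trans_eq (by simp)
  have x1 : R x x := by grind
  have y1 : R y y := by grind
  have e1 : ¬ R x y := by grind
  have := l4 (fun j => ⟨_, t j⟩) y x y1 x1 fun u c k o => ⟨by grind, or_iff_not_imp_left.2 fun v => ?_⟩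
  · have := h (Fintype.equivFin _ fun j => ⟨_, t j⟩)
    grind
  have z : ∀ b, R b y → g b = g c → R b c := fun b i j => (g2 b c (o1 _ _ i).1 (o1 _ _ o).2 j).resolve_right
    fun l => e1 (o3 _ _ _ (o3 _ _ _ o l) i)
  have : φ ⟨_, g1 u⟩ ⊂ φ ⟨_, g1 c⟩ := ⟨fun d i => (f _ _).2 ⟨((f _ _).1 i).1, fun b j l => (cr.down x y b u c d x1 y1 e1 j k o
    ((f _ _).1 i).1 (z b j l) (((f _ _).1 i).2 u k rfl)).resolve_right v⟩,
      fun i => v (((f _ _).1 (i ((f _ c).2 ⟨o, z⟩))).2 u k rfl)⟩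
  refine Fin.mk_lt_mk.2 (card_lt_card ⟨fun i j => mem_filter.2 ⟨mem_univ _, ssubset_trans (mem_filter.1 j).2 this⟩,
    fun i => ?_⟩)
  simpa using i (mem_filter.2 ⟨mem_univ _, this⟩)

end Pool.Agent.S14897
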