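import Pool.Statements.S14899
import Pool.Agent.H.MP_73efbe_lc.A

set_option autoImplicit false
open Pool Pool.MP_73efbe_lc

namespace Pool.Agent.S14899

open Pool.Agent.H.MP_73efbe_lc Pool.Agent.Lib.helper21.PR Function

attribute [local irreducible] Primrec Computable

theorem result :
    ∃ A B : Set ℕ,
      (∃ W : Set (ℕ × List ℕ),
        (∃ f : ℕ × List ℕ →. ℕ, Partrec f ∧ ∀ p : ℕ × List ℕ, (f p).Dom ↔ p ∈ W) ∧
        ∀ x : ℕ, x ∈ A ↔ ∃ l : List ℕ, (x, l) ∈ W ∧ ∀ y ∈ l, y ∈ B) ∧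
      (∃ W : Set (ℕ × List ℕ),
        (∃ f : ℕ × List ℕ →. ℕ, Partrec f ∧ ∀ p : ℕ × List ℕ, (f p).Dom ↔ p ∈ W) ∧
        ∀ x : ℕ, x ∈ B ↔ ∃ l : List ℕ, (x, l) ∈ W ∧ ∀ y ∈ l, y ∈ A) ∧
      (¬ ∃ f : ℕ →. ℕ, Partrec f ∧ ∀ n : ℕ, (f n).Dom ↔ n ∈ A) ∧
      (¬ ∃ f : ℕ →. ℕ, Partrec f ∧ ∀ n : ℕ, (f n).Dom ↔ n ∈ B) ∧
      ∀ C : Set ℕ,
        (∃ W : Set (ℕ × ℕ),
          (∃ f : ℕ × ℕ →. ℕ, Partrec f ∧ ∀ p : ℕ × ℕ, (f p).Dom ↔ p ∈ W) ∧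
          ∀ x : ℕ, x ∈ C ↔ ∃ y ∈ A, (x, y) ∈ W) →
        (∃ W : Set (ℕ × ℕ),
          (∃ f : ℕ × ℕ →. ℕ, Partrec f ∧ ∀ p : ℕ × ℕ, (f p).Dom ↔ p ∈ W) ∧
          ∀ x : ℕ, x ∈ C ↔ ∃ y ∈ B, (x, y) ∈ W) →
        ∃ f : ℕ →. ℕ, Partrec f ∧ ∀ n : ℕ, (f n).Dom ↔ n ∈ C := by
  obtain ⟨u, hu⟩ := baire (ι := (Nat.Partrec.Code × ℕ) ⊕ (Nat.Partrec.Code × ℕ × ℕ) ⊕
    (Nat.Partrec.Code × Nat.Partrec.Code)) (Sum.elim
      (fun z v => ∃ y, ¬ (y ∈ S z.2 v ↔ D z.1 0 y)) (Sum.elim (fun z v => Im z.1 z.2.1 v z.2.2)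
        fun z v => ∃ x, ¬ (Im z.1 0 v x ↔ Im z.2 1 v x)))
  have h1 : ∀ r < 2, ¬ ∃ f : ℕ →. ℕ, Partrec f ∧ ∀ n : ℕ, (f n).Dom ↔ n ∈ S r u := by
    rintro r hr ⟨f, k1, k2⟩
    obtain ⟨c, hc⟩ := re_code (p := fun z : ℕ × ℕ => (f z.2).Dom) (k1.comp .snd).dom_re
    obtain ⟨n, k | k⟩ := hu (.inl (c, r))
    · obtain ⟨y, k⟩ := k u fun _ _ => rfl
      exact k ((k2 y).symm.trans (hc (0, y)))
    · have e : 4 * (2 * n + r) / 4 = 2 * n + r := by omega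
      by_cases b : D c 0 (4 * (2 * n + r))
      · obtain ⟨w, k3, k4⟩ := k (fun i => if i < n then u i else 0) (2 * n + r + 2)
          fun i hi => if_pos hi
        refine k4 ⟨_, fun k => (k.2 b).2 ?_⟩
        rw [e, (k3 (2 * n + r) (by omega)).trans (if_neg (by omega)),
          (k3 (2 * n + r + 1) (by omega)).trans (if_neg (by omega))]
        omega
      · obtain ⟨w, k3, k4⟩ := k (fun i => if i < n then u i else 1) (2 * n + r + 2)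
          fun i hi => if_pos hi
        refine k4 ⟨_, fun k => b (k.1 (show 4 * (2 * n + r) ∈ S r w from ⟨by omega, ?_⟩))⟩
        rw [e, (k3 (2 * n + r) (by omega)).trans (if_neg (by omega))]
        omega
  have h2 : ∀ c r x, ¬ Im c r u x → ∃ q, ∀ v, Ag q u v → ¬ Im c r v x := fun c r x h =>
    (hu (.inr (.inl (c, r, x)))).imp fun n k => fun v hv ⟨y, k1, k2⟩ =>
      let ⟨w, k3, k4⟩ := k.resolve_left (fun k => h (k u fun _ _ => rfl)) v (y / 4 + 2) hv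
      k4 ⟨y, (S_ag k3 (by omega)).2 k1, k2⟩
  refine ⟨S 0 u, S 1 u, ered u rfl, ered u rfl, h1 0 (by omega), h1 1 (by omega), ?_⟩
  rintro C ⟨W, ⟨f, k1, k2⟩, k3⟩ ⟨W', ⟨f', g1, g2⟩, g3⟩
  obtain ⟨c, hc⟩ := re_code k1.dom_re
  obtain ⟨c', hc'⟩ := re_code g1.dom_re
  have a1 : ∀ x, x ∈ C ↔ Im c 0 u x := fun x => (k3 x).trans (exists_congr fun y =>
    and_congr_right fun _ => (k2 _).symm.trans (hc _))
  have a2 : ∀ x, x ∈ C ↔ Im c' 1 u x := fun x => (g3 x).trans (exists_congr fun y =>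
    and_congr_right fun _ => (g2 _).symm.trans (hc' _))
  obtain ⟨p, b | b⟩ := hu (.inr (.inr (c, c')))
  · obtain ⟨x, b⟩ := b u fun _ _ => rfl
    exact (b ((a1 x).symm.trans (a2 x))).elim
  have a3 : RE fun z : ℕ × ℕ => D c z.1 z.2 := RE.un (k1.dom_re.of_eq hc)
  obtain ⟨l, hl⟩ : ∃ l : List ℕ, Ag p u fun i => l.getD i 0 :=
    ⟨(List.range p).map u, fun i hi => by simp [hi]⟩
  refine pf ((RE.re (p := fun x => ∃ y, D c x y ∧ y / 4 % 2 = 0 ∧ (p ≤ y / 4 + 1 ∨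
    ¬ (l.getD (y / 4) 0 % 2 = y % 2 ∧ l.getD (y / 4 + 1) 0 % 2 = y / 2 % 2))) (by fun_prop)).of_eq
    fun x => ⟨fun ⟨y, b1, b2, b3⟩ => ?_, fun h => ?_⟩)
  · obtain ⟨v, b4, b5⟩ : ∃ v, Ag p u v ∧ y ∈ S 0 v := by
      rcases b3 with b3 | b3
      · refine ⟨update u (y / 4 + 1) (y / 2 + 1), fun i hi => update_of_ne (by omega) _ _, b2, ?_⟩
        rw [update_self]
        omega
      · exact ⟨_, hl, b2, b3⟩
    by_contra h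
    obtain ⟨q, hq⟩ := h2 c 0 x (mt (a1 x).2 h)
    obtain ⟨q', hq'⟩ := h2 c' 1 x (mt (a2 x).2 h)
    obtain ⟨w, m, b6, b7⟩ := flip (c := fun r => if r = 0 then c else c') (q := max q q')
      (fun r hr v hv => by
        obtain rfl | rfl : r = 0 ∨ r = 1 := by omega
        · exact hq v fun i hi => hv i (by omega)
        · exact hq' v fun i hi => hv i (by omega)) b4 ⟨y, b5, b1⟩
    obtain ⟨w', b8, b9⟩ := b w m b6
    exact b9 ⟨x, b7 w' b8⟩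
  · obtain ⟨y, b1, b2⟩ := (a1 x).1 h
    exact ⟨y, b2, b1.1, (le_or_gt p (y / 4 + 1)).imp_right fun e => ((S_ag hl e).2 b1).2⟩

end Pool.Agent.S14899
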