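import Pool.Statements.S14933
import Pool.Agent.H.MP_7a0c2d_lc.Red

set_option autoImplicit false
open Filter Topology
open Pool Pool.MP_7a0c2d_lc

namespace Pool.Agent.S14933

theorem result :
    ∀ α : ℝ, 1 < |α| →
      ∀ A : Set ℝ,
        A = {ξ : ℝ | ∀ a b : ℝ, 0 ≤ a → a ≤ b → b ≤ 1 →
              Tendsto
                (fun N : ℕ =>
                  (((Finset.range N).filter
                      (fun n => a ≤ Int.fract (ξ * α ^ n) ∧ Int.fract (ξ * α ^ n) < b)).card : ℝ)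
                    / (N : ℝ))
                atTop (𝓝 (b - a))} →
        (∃ F : ℕ → ℕ → Set ℝ, (∀ i j, IsClosed (F i j)) ∧ A = ⋂ i, ⋃ j, F i j) ∧
        (∀ B : Set (ℕ → ℕ),
          (∃ G : ℕ → ℕ → Set (ℕ → ℕ), (∀ i j, IsClosed (G i j)) ∧ B = ⋂ i, ⋃ j, G i j) →
          ∃ f : (ℕ → ℕ) → ℝ, Continuous f ∧ f ⁻¹' A = B) := by
  intro α hα A hA
  have e : A = {ξ : ℝ | Pool.Agent.H.MP_7a0c2d_lc.UD (fun n => ξ * α ^ n)} := hA
  rw [e]
  refine ⟨Pool.Agent.H.MP_7a0c2d_lc.pi03 α, ?_⟩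
  rintro B ⟨G, hG, rfl⟩
  exact Pool.Agent.H.MP_7a0c2d_lc.hard hα G hG

end Pool.Agent.S14933
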