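import Pool.Statements.S14940
import Pool.Agent.H.MP_7acc36_lc.B

set_option autoImplicit false
open Pool Pool.MP_7acc36_lc

namespace Pool.Agent.S14940

open Pool.Agent.H.MP_7acc36_lc Filter Equiv Monoid

section Cocycle

variable {G : Type} [Group G]

open Classical in
/-- Indicator of the base point. -/
noncomputable def eps (p : G × G) : ℤ := if p = 1 then 1 else 0

/-- Twisted action of the first factor. -/
noncomputable def act1 : G →* Function.End ((G × G) × ℤ) where
  toFun g := fun t => ((g, 1) * t.1, t.2 + (eps ((g, 1) * t.1) - eps t.1))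
  map_one' := by
    funext t
    simp [Prod.mk_one_one, Function.End.one_def]
  map_mul' g h := by
    funext t
    simp only [Function.End.mul_def, Function.comp, ← mul_assoc, Prod.mk_mul_mk, mul_one]
    congr 1
    ring

/-- Plain action of the second factor. -/
def act2 : G →* Function.End ((G × G) × ℤ) where
  toFun g := fun t => ((1, g) * t.1, t.2)
  map_one' := by
    funext t
    simp [Prod.mk_one_one, Function.End.one_def]
  map_mul' g h := by
    funext t
    simp only [Function.End.mul_def, Function.comp, ← mul_assoc, Prod.mk_mul_mk, mul_one]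

/-- The action of the free product. -/
noncomputable def Phi : Coprod G G →* Function.End ((G × G) × ℤ) := Coprod.lift act1 act2

theorem Phi_mul (x y : Coprod G G) (t : (G × G) × ℤ) : Phi (x * y) t = Phi x (Phi y t) := by
  rw [map_mul]; rfl

theorem Phi_spec (x : Coprod G G) : ∀ (p : G × G) (n : ℤ),
    Phi x (p, n) = (Coprod.toProd x * p, n + (Phi x (p, 0)).2) := by
  induction x using Coprod.induction_on with
  | inl g => intro p n; simp [Phi, act1]
  | inr g => intro p n; simp [Phi, act2]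
  | mul x y hx hy =>
    intro p n
    rw [Phi_mul, Phi_mul, hy p n, hy p 0, hx _ (n + _), hx _ (0 + _), map_mul, mul_assoc]
    simp [add_assoc]

/-- The additive invariant on the kernel. -/
noncomputable def inv0 (x : Coprod G G) : ℤ := (Phi x (1, 0)).2

theorem inv0_mul (x y : Coprod G G) (hy : Coprod.toProd y = 1) :
    inv0 (x * y) = inv0 x + inv0 y := by
  rw [inv0, Phi_mul, Phi_spec y, hy, mul_one, Phi_spec x]
  simp [inv0, add_comm]

theorem inv0_one : inv0 (1 : Coprod G G) = 0 := by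
  rw [inv0, map_one]; rfl

theorem inv0_pow (y : Coprod G G) (hy : Coprod.toProd y = 1) (n : ℕ) :
    inv0 (y ^ n) = n * inv0 y := by
  induction n with
  | zero => simp [inv0_one]
  | succ n ih => rw [pow_succ, inv0_mul _ _ hy, ih]; push_cast; ring

/-- The basic commutator. -/
def kk (c : G) : Coprod G G := Coprod.inl c * Coprod.inr c * (Coprod.inl c)⁻¹ * (Coprod.inr c)⁻¹

theorem toProd_kk (c : G) : Coprod.toProd (kk c) = 1 := by
  simp [kk]

theorem inv0_kk (c : G) (hc : c ≠ 1) : inv0 (kk c) = 1 := by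
  rw [inv0, kk, ← map_inv, ← map_inv, Phi_mul, Phi_mul, Phi_mul]
  simp only [Phi, Coprod.lift_apply_inl, Coprod.lift_apply_inr]
  simp [act1, act2, eps, hc, Prod.ext_iff]

theorem kk_eq_one (c : G) : kk c = 1 ↔ c = 1 := by
  constructor
  · intro h
    by_contra hc
    have := inv0_kk c hc
    rw [h, inv0_one] at this
    exact absurd this (by norm_num)
  · rintro rfl
    simp [kk]

end Cocycle

theorem GG_ok : ∃ (d : ℕ → Bool) (r : ℕ → List ℕ → Bool), Computable d ∧ Computable₂ r ∧
    ∃ φ : GG →* Equiv.Perm ℕ, Function.Injective φ ∧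
      ∀ σ : Equiv.Perm ℕ, σ ∈ φ.range ↔
        (Computable (σ : ℕ → ℕ) ∧ (∀ n, d n = false → σ n = n) ∧
          (∀ n, d n = true → d (σ n) = true) ∧
          ∀ (i : ℕ) (l : List ℕ), (∀ x ∈ l, d x = true) → r i (l.map σ) = r i l) := by
  refine ⟨fun _ => true, rr, Computable.const _, rr_computable, GG.subtype,
    Subtype.val_injective, fun σ => ?_⟩
  rw [Subgroup.range_subtype]
  constructor
  · rintro ⟨h1, h2⟩
    exact ⟨h1, by simp, by simp, fun i l _ => h2 i l⟩
  · rintro ⟨h1, -, -, h2⟩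
    exact ⟨h1, fun i l => h2 i l (by simp)⟩

theorem result :
    ¬ (∀ (G H : Type) [Group G] [Group H],
      (∃ (d : ℕ → Bool) (r : ℕ → List ℕ → Bool), Computable d ∧ Computable₂ r ∧
        ∃ φ : G →* Equiv.Perm ℕ, Function.Injective φ ∧
          ∀ σ : Equiv.Perm ℕ, σ ∈ φ.range ↔
            (Computable (σ : ℕ → ℕ) ∧ (∀ n, d n = false → σ n = n) ∧
              (∀ n, d n = true → d (σ n) = true) ∧
              ∀ (i : ℕ) (l : List ℕ), (∀ x ∈ l, d x = true) → r i (l.map σ) = r i l)) →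
      (∃ (d : ℕ → Bool) (r : ℕ → List ℕ → Bool), Computable d ∧ Computable₂ r ∧
        ∃ φ : H →* Equiv.Perm ℕ, Function.Injective φ ∧
          ∀ σ : Equiv.Perm ℕ, σ ∈ φ.range ↔
            (Computable (σ : ℕ → ℕ) ∧ (∀ n, d n = false → σ n = n) ∧
              (∀ n, d n = true → d (σ n) = true) ∧
              ∀ (i : ℕ) (l : List ℕ), (∀ x ∈ l, d x = true) → r i (l.map σ) = r i l)) →
      (∃ (d : ℕ → Bool) (r : ℕ → List ℕ → Bool), Computable d ∧ Computable₂ r ∧
        ∃ φ : Monoid.Coprod G H →* Equiv.Perm ℕ, Function.Injective φ ∧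
          ∀ σ : Equiv.Perm ℕ, σ ∈ φ.range ↔
            (Computable (σ : ℕ → ℕ) ∧ (∀ n, d n = false → σ n = n) ∧
              (∀ n, d n = true → d (σ n) = true) ∧
              ∀ (i : ℕ) (l : List ℕ), (∀ x ∈ l, d x = true) → r i (l.map σ) = r i l))) := by
  intro H
  obtain ⟨d, r, -, -, Ψ, hΨ, hr⟩ := H GG GG GG_ok GG_ok
  have hc : ∀ w, Computable (Ψ w : ℕ → ℕ) := fun w => ((hr _).1 ⟨w, rfl⟩).1
  let s : GG := ⟨sP, sP_mem⟩
  let q : GG := ⟨QQ 0, cs_mem _ _ _ (Primrec.eq.comp (Primrec.fst.comp Primrec.unpair)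
    (Primrec.const _)).decide⟩
  let p : GG := ⟨pP, cs_mem _ _ _ hP_primrec⟩
  let c : ℕ → GG := fun n => p * (s ^ n * q * (s ^ n)⁻¹) * p⁻¹ * (s ^ n * q * (s ^ n)⁻¹)⁻¹
  have hcn : ∀ n, c n = 1 ↔ ¬ ((Denumerable.ofNat Nat.Partrec.Code n).eval 0).Dom := by
    intro n
    rw [← comm_iff, ← QQ_eq, mul_inv_eq_one, mul_inv_eq_iff_eq_mul, Subtype.ext_iff]
    rfl
  have hU : ∀ j : GG →* Perm ℕ, (∀ g, Computable (j g : ℕ → ℕ)) → UC (fun n => j (c n)) := by
    intro j hj
    have h1 : UC (fun n => j s ^ n * j q * (j s ^ n)⁻¹) :=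
      ((UC.pow (hj s)).mul (UC.const (hj q))).mul (UC.pow (hj s)).inv
    have h2 := (((UC.const (hj p)).mul h1).mul (UC.const (hj p)).inv).mul h1.inv
    simpa only [c, map_mul, map_inv, map_pow] using h2
  have hF : UC (fun n => Ψ (kk (c n))) := by
    have h1 := hU (Ψ.comp Coprod.inl) (fun g => hc _)
    have h2 := hU (Ψ.comp Coprod.inr) (fun g => hc _)
    have h3 := ((h1.mul h2).mul h1.inv).mul h2.inv
    simpa only [kk, map_mul, map_inv, MonoidHom.comp_apply] using h3
  have hund : ¬ ComputablePred (fun n => Ψ (kk (c n)) = 1) := by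
    intro h
    apply ComputablePred.halting_problem 0
    obtain ⟨f, hf, h1⟩ := ComputablePred.computable_iff.1 h.not
    refine ComputablePred.computable_iff.2 ⟨fun a => f (Encodable.encode a),
      hf.comp Computable.encode, ?_⟩
    funext a
    rw [← congrFun h1 (Encodable.encode a), map_eq_one_iff _ hΨ, kk_eq_one, hcn, not_not,
      Denumerable.ofNat_encode]
  obtain ⟨f, hf, h1⟩ := select _ hF hund
  obtain ⟨B, x, hx1, hx2, hx3⟩ := solve (fun N => Ψ (kk (c (f N)))) (hF.comp hf) (hF.comp hf).inv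
    (fun N z hz => (h1 N).2 z hz) Ψ.range (fun n => ⟨_, rfl⟩)
  have hx : ∀ N, x N ∈ Ψ.range := by
    intro N
    obtain ⟨u, hu, hl⟩ := hx3 N
    refine (hr _).2 ⟨hx1 N, fun n hn => ?_, fun n hn => ?_, fun i l hl2 => ?_⟩
    · obtain ⟨j, hj⟩ := (hl n).exists
      rw [← hj]
      exact ((hr _).1 (hu j)).2.1 n hn
    · obtain ⟨j, hj⟩ := (hl n).exists
      rw [← hj]
      exact ((hr _).1 (hu j)).2.2.1 n hn
    · obtain ⟨j, hj⟩ := ((eventually_all_finite l.finite_toSet).2 (fun y _ => hl y)).exists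
      rw [← List.map_congr_left hj]
      exact ((hr _).1 (hu j)).2.2.2 i l hl2
  choose X hX using hx
  have hXe : ∀ N, X N = kk (c (f (B N))) * X (N + 1) ^ 6 := fun N =>
    hΨ (by rw [map_mul, map_pow, hX, hX]; exact hx2 N)
  have hT : ∀ N, Coprod.toProd (X N) = 1 := by
    have h2 : ∀ N, Coprod.toProd (X N) = Coprod.toProd (X (N + 1)) ^ 6 := fun N => by
      rw [hXe N, map_mul, toProd_kk, one_mul, map_pow]
    intro N
    exact Prod.ext (G_law (fun N => (Coprod.toProd (X N)).1) (fun N => by rw [h2 N]; rfl) N)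
      (G_law (fun N => (Coprod.toProd (X N)).2) (fun N => by rw [h2 N]; rfl) N)
  have h3 := int_six (fun N => 5 * inv0 (X N) + 1) (fun N => by
    have h4 : c (f (B N)) ≠ 1 := fun h => (h1 (B N)).1 (by rw [h, (kk_eq_one _).2 rfl, map_one])
    rw [hXe N, inv0_mul _ _ (by rw [map_pow, hT, one_pow]), inv0_pow _ (hT _), inv0_kk _ h4]
    push_cast; ring) 0
  omega

end Pool.Agent.S14940
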