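import Pool.Statements.S14944
import Pool.Agent.H.MP_7c40ec_lc.Link

set_option autoImplicit false
open Pool Pool.MP_7c40ec_lc

namespace Pool.Agent.S14944

open Pool.Agent.H.MP_7c40ec_lc

/-- The negation of the preceding statement: For any optimal plain machine, optimal prefix-free machine and optimal conditional plain machine, some constant c bounds, for every binary string x, the plain complexity of C(x) given the pair x and K(x). -/
theorem result :
    ¬ (∀ (W : List Bool →. List Bool) (V : List Bool →. List Bool)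
    (U : List Bool → (List Bool × ℕ →. ℕ)),
    Partrec W →
    (∀ M : List Bool →. List Bool, Partrec M →
      ∃ c : ℕ, ∀ (p : List Bool) (z : List Bool), z ∈ M p →
        ∃ q : List Bool, q.length ≤ p.length + c ∧ z ∈ W q) →
    Partrec V →
    (∀ p q : List Bool, (V p).Dom → (V q).Dom → p <+: q → p = q) →
    (∀ M : List Bool →. List Bool, Partrec M →
      (∀ p q : List Bool, (M p).Dom → (M q).Dom → p <+: q → p = q) →
      ∃ c : ℕ, ∀ (p : List Bool) (z : List Bool), z ∈ M p →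
        ∃ q : List Bool, q.length ≤ p.length + c ∧ z ∈ V q) →
    Partrec₂ U →
    (∀ M : List Bool → (List Bool × ℕ →. ℕ), Partrec₂ M →
      ∃ c : ℕ, ∀ (p : List Bool) (y : List Bool × ℕ) (z : ℕ), z ∈ M p y →
        ∃ q : List Bool, q.length ≤ p.length + c ∧ z ∈ U q y) →
    ∃ c : ℕ, ∀ x : List Bool,
      sInf {n : ℕ | ∃ p : List Bool, p.length = n ∧
        sInf {m : ℕ | ∃ q : List Bool, q.length = m ∧ x ∈ W q} ∈
          U p (x, sInf {m : ℕ | ∃ q : List Bool, q.length = m ∧ x ∈ V q})} ≤ c) := by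
  intro h
  obtain ⟨W, w1, w2⟩ := univ_ex (List Bool) (List Bool)
  obtain ⟨V, v1, v2, v3⟩ := pf_ex
  obtain ⟨U, u1, u2⟩ := univ_ex (List Bool × List Bool × ℕ) ℕ
  have w3 : Partrec fun q => W (hd q, tl q) := w1.comp (prim_hd.pair prim_tl).to_comp
  have w4 : ∀ M : List Bool →. List Bool, Partrec M → ∃ c : ℕ, ∀ p z, z ∈ M p →
      ∃ q : List Bool, q.length ≤ p.length + c ∧ z ∈ W (hd q, tl q) := fun M hM =>
    (w2 M hM).elim fun e he => ⟨e + 1, fun p z hz => ⟨mk e p, (len_mk e p).le, by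
      rw [hd_mk, tl_mk]; exact (he _ _).2 hz⟩⟩
  have u3 : Partrec fun x : List Bool × List Bool × ℕ => U (hd x.1, tl x.1, x.2) :=
    u1.comp ((prim_hd.comp .fst).pair ((prim_tl.comp .fst).pair .snd)).to_comp
  have u4 : ∀ M : List Bool → (List Bool × ℕ →. ℕ), Partrec₂ M → ∃ c : ℕ, ∀ p y z, z ∈ M p y →
      ∃ q : List Bool, q.length ≤ p.length + c ∧ z ∈ U (hd q, tl q, y) := fun M hM =>
    (u2 _ hM).elim fun e he => ⟨e + 1, fun p y z hz => ⟨mk e p, (len_mk e p).le, by
      rw [hd_mk, tl_mk]; exact (he (p, y) _).2 hz⟩⟩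
  obtain ⟨c, hc⟩ := h _ V (fun q y => U (hd q, tl q, y)) w3 w4 v1 v2 v3 u3 u4
  obtain ⟨N, h1, h2, h3⟩ := graph_approx u3
  have a0 : Primrec fun x : (List Bool × ℕ × ℕ) × List Bool × ℕ => x.2.1 := Primrec.fst.comp .snd
  have a1 := (Primrec.nat_le.comp (Primrec.list_length.comp a0) (.const c)).and
    (h1.comp ((a0.pair ((Primrec.fst.comp .fst).pair (Primrec.fst.comp (Primrec.snd.comp .fst)))).pair
      (Primrec.snd.comp (Primrec.snd.comp .fst))) (Primrec.snd.comp .snd))
  obtain ⟨x, hx⟩ := main _ V w3 w4 v1 v2 v3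
    (fun x k v => ∃ p : List Bool, p.length ≤ c ∧ v ∈ U (hd p, tl p, x, k)) (2 ^ (c + 1))
    ((re_ex (R := fun (a : List Bool × ℕ × ℕ) (w : List Bool × ℕ) => w.1.length ≤ c ∧
      N ((w.1, a.1, a.2.1), a.2.2) w.2) (a1.of_eq fun _ => Iff.rfl)).of_eq fun a =>
        ⟨fun ⟨w, b1, b2⟩ => ⟨w.1, b1, h2 _ _ b2⟩, fun ⟨p, b1, b2⟩ =>
          (h3 ((p, a.1, a.2.1), a.2.2) b2).exists.elim fun t ht => ⟨(p, t), b1, ht⟩⟩)
    fun x k F hF => by
      classical
      choose! p p1 p2 using hF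
      rw [← Finset.card_image_of_injOn (f := p) fun a ha b hb e =>
        Part.mem_unique (p2 a ha) (e ▸ p2 b hb)]
      refine card_short c _ fun q hq => ?_
      obtain ⟨a, ha, rfl⟩ := Finset.mem_image.1 hq
      exact p1 a ha
  obtain ⟨c', hc'⟩ := u4 (fun p _ => Part.some p.length)
    (Primrec.list_length.comp .fst).to_comp.partrec
  obtain ⟨q, -, hq⟩ := hc' (un (cx (fun q => W (hd q, tl q)) x)) (x, cx V x) _ (Part.mem_some _)
  rw [show ∀ n, (un n).length = n by simp [un]] at hq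
  obtain ⟨p, p1, p2⟩ := cx_spec (M := fun q => U (hd q, tl q, x, cx V x)) hq
  exact hx ⟨p, p1.le.trans (hc x), p2⟩

end Pool.Agent.S14944
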