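import Pool.Statements.S14977
import Pool.Agent.H.MP_8315be_lc.A

set_option autoImplicit false
open Pool Pool.MP_8315be_lc

namespace Pool.Agent.S14977

open Polynomial Pool.Agent.H.MP_8315be_lc

theorem expand_pow_eq (p : ℕ) [Fact p.Prime] (s : ℕ) (f : (ZMod p)[X]) :
    expand (ZMod p) (p ^ s) f = f ^ (p ^ s) := by
  induction s with
  | zero => simp
  | succ s ih =>
    rw [pow_succ', expand_mul, ih, ZMod.expand_card, ← pow_mul, mul_comm]

theorem rev_dvd (p : ℕ) [Fact p.Prime] (s : ℕ) (f : (ZMod p)[X]) :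
    (X * X ^ (p ^ s) - 1 : (ZMod p)[X]) ∣ f.reverse - X ^ f.natDegree * f ^ (p ^ s) := by
  set M : (ZMod p)[X] := X * X ^ (p ^ s) - 1 with hM
  rw [← AdjoinRoot.mk_eq_mk]
  have h0 : AdjoinRoot.root M * AdjoinRoot.root M ^ (p ^ s) = 1 := by
    have h := AdjoinRoot.mk_self (f := M)
    rw [hM] at h
    simp only [map_sub, map_mul, map_pow, AdjoinRoot.mk_X, map_one] at h
    linear_combination h
  letI : Invertible (AdjoinRoot.root M ^ (p ^ s)) :=
    ⟨AdjoinRoot.root M, h0, by rw [mul_comm]; exact h0⟩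
  have h1 := eval₂_reverse_mul_pow (AdjoinRoot.of M) (AdjoinRoot.root M ^ (p ^ s)) f
  have h2 : (⅟(AdjoinRoot.root M ^ (p ^ s)) : AdjoinRoot M) = AdjoinRoot.root M := rfl
  rw [h2] at h1
  have h3 : ∀ g : (ZMod p)[X], eval₂ (AdjoinRoot.of M) (AdjoinRoot.root M) g = AdjoinRoot.mk M g := by
    intro g
    rw [← AdjoinRoot.aeval_eq, aeval_def]
    rfl
  have h4 : eval₂ (AdjoinRoot.of M) (AdjoinRoot.root M ^ (p ^ s)) f =
      AdjoinRoot.mk M (f ^ (p ^ s)) := by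
    rw [← expand_pow_eq, ← h3, expand_eq_comp_X_pow, eval₂_comp]
    simp
  rw [h3, h4] at h1
  rw [map_mul, map_pow, AdjoinRoot.mk_X, ← h1]
  have h5 : AdjoinRoot.root M ^ f.natDegree * (AdjoinRoot.root M ^ (p ^ s)) ^ f.natDegree = 1 := by
    rw [← mul_pow, h0, one_pow]
  linear_combination (-(AdjoinRoot.mk M f.reverse)) * h5

theorem exists_mult (p : ℕ) [Fact p.Prime] (M : (ZMod p)[X]) (hM : M ≠ 0) :
    ∃ s s' : ℕ, s' < s ∧ M ∣ X ^ (p ^ s) - X ^ (p ^ s') := by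
  haveI : Module.Finite (ZMod p) (AdjoinRoot M) := (AdjoinRoot.powerBasis hM).finite
  haveI : Finite (AdjoinRoot M) := Module.finite_of_finite (ZMod p)
  obtain ⟨a, b, hab, h⟩ := Finite.exists_ne_map_eq_of_infinite
    (fun s : ℕ => AdjoinRoot.mk M (X ^ (p ^ s)))
  rcases lt_or_gt_of_ne hab with hlt | hlt
  · exact ⟨b, a, hlt, AdjoinRoot.mk_eq_mk.1 h.symm⟩
  · exact ⟨a, b, hlt, AdjoinRoot.mk_eq_mk.1 h⟩

theorem pow_eq_of {K : Type*} [Field K] (d e : ℕ) (u v : K[X]) (hu : u.coeff 0 ≠ 0)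
    (hv : v.coeff 0 ≠ 0) (h : X ^ d * u = X ^ e * v) : d = e := by
  have key : ∀ (d e : ℕ) (u v : K[X]), u.coeff 0 ≠ 0 → X ^ d * u = X ^ e * v → e ≤ d := by
    intro d e u v hu h
    by_contra hlt
    have h1 := congrArg (fun P => coeff P d) h
    simp only [coeff_X_pow_mul'] at h1
    rw [if_pos le_rfl, if_neg hlt, Nat.sub_self] at h1
    exact hu h1
  exact le_antisymm (key e d v u hv h.symm) (key d e u v hu h)

theorem frob_of (p : ℕ) [hp : Fact p.Prime] (s : ℕ) (f F x y x' y' c : (ZMod p)[X])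
    (h : Phi (X * (1 + X * f)) (X ^ (p ^ s) * (1 + X ^ (p ^ s) * F)) x y x' y' c) :
    F = f ^ (p ^ s) := by
  have hq : ∀ r : ℕ, p ^ r ≠ 0 := fun r => pow_ne_zero _ hp.out.ne_zero
  have h0 : (1 + X * f : (ZMod p)[X]).coeff 0 ≠ 0 := by simp
  have hne : (1 + X * f : (ZMod p)[X]) ≠ 0 := by
    intro h1
    rw [h1] at h0
    simp at h0
  have ha : 0 < (X * (1 + X * f) : (ZMod p)[X]).natDegree := by
    rw [natDegree_mul X_ne_zero hne, natDegree_X]
    omega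
  obtain ⟨r, hr⟩ := phi_imp p _ _ _ _ _ _ _ ha h
  rw [mul_pow, add_pow_char_pow, one_pow, mul_pow] at hr
  have h1 : p ^ s = p ^ r := by
    refine pow_eq_of _ _ _ _ ?_ ?_ hr
    · simp [coeff_X_pow, (hq s).symm]
    · simp [coeff_X_pow, (hq r).symm]
  rw [← h1] at hr
  have h2 := mul_left_cancel₀ (pow_ne_zero _ X_ne_zero) hr
  have h3 := add_left_cancel h2
  exact mul_left_cancel₀ (pow_ne_zero _ X_ne_zero) h3

/-- The equations of the main system. -/
def eqs {A : Type*} [CommRing A] (t f g : A) (y : Fin 26 → A) : List A :=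
  [y 11 ^ 2 - t * y 11 * y 12 + y 12 ^ 2 - 1, y 0 - (2 * y 11 - t * y 12),
   y 13 ^ 2 - (t + 1) * y 13 * y 14 + y 14 ^ 2 - 1, y 0 + 1 - (2 * y 13 - (t + 1) * y 14),
   y 0 - t * y 15,
   y 16 ^ 2 - (t * (1 + t * f)) * y 16 * y 17 + y 17 ^ 2 - 1,
   y 0 * (1 + y 0 * y 3) - (2 * y 16 - (t * (1 + t * f)) * y 17),
   y 18 ^ 2 - (t * (1 + t * f) + 1) * y 18 * y 19 + y 19 ^ 2 - 1,
   y 0 * (1 + y 0 * y 3) + 1 - (2 * y 18 - (t * (1 + t * f) + 1) * y 19),
   y 0 * (1 + y 0 * y 3) - (t * (1 + t * f)) * y 20,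
   y 21 ^ 2 - (t * (1 + t * g)) * y 21 * y 22 + y 22 ^ 2 - 1,
   y 0 * (1 + y 0 * y 4) - (2 * y 21 - (t * (1 + t * g)) * y 22),
   y 23 ^ 2 - (t * (1 + t * g) + 1) * y 23 * y 24 + y 24 ^ 2 - 1,
   y 0 * (1 + y 0 * y 4) + 1 - (2 * y 23 - (t * (1 + t * g) + 1) * y 24),
   y 0 * (1 + y 0 * y 4) - (t * (1 + t * g)) * y 25,
   y 0 - y 1 * y 2,
   y 5 * y 4 - y 6 * y 3 - y 7 * (t * y 0 - 1),
   y 8 * t + y 9 * (y 5 * y 6) - 1,
   f * g * (y 5 * y 6) * y 10 - (y 0 - y 1)]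

theorem eqs_iff {A : Type*} [CommRing A] (t f g : A) (y : Fin 26 → A) :
    (∀ P ∈ eqs t f g y, P = 0) ↔
      Phi t (y 0) (y 11) (y 12) (y 13) (y 14) (y 15) ∧
      Phi (t * (1 + t * f)) (y 0 * (1 + y 0 * y 3)) (y 16) (y 17) (y 18) (y 19) (y 20) ∧
      Phi (t * (1 + t * g)) (y 0 * (1 + y 0 * y 4)) (y 21) (y 22) (y 23) (y 24) (y 25) ∧
      y 0 - y 1 * y 2 = 0 ∧ y 5 * y 4 - y 6 * y 3 - y 7 * (t * y 0 - 1) = 0 ∧
      y 8 * t + y 9 * (y 5 * y 6) - 1 = 0 ∧ f * g * (y 5 * y 6) * y 10 - (y 0 - y 1) = 0 := by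
  simp only [eqs, List.forall_mem_cons, Phi, and_assoc, List.not_mem_nil, false_imp_iff,
    implies_true, and_true]

theorem eqs_map {A B : Type*} [CommRing A] [CommRing B] (φ : A →+* B) (t f g : A)
    (y : Fin 26 → A) :
    (eqs t f g y).map φ = eqs (φ t) (φ f) (φ g) (fun i => φ (y i)) := by
  simp only [eqs, List.map_cons, List.map_nil, map_sub, map_add, map_mul, map_pow, map_one,
    map_ofNat]

theorem sound (p : ℕ) [hp : Fact p.Prime] (f g : (ZMod p)[X]) (y : Fin 26 → (ZMod p)[X])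
    (h : ∀ P ∈ eqs X f g y, P = 0) (hne : y 0 - y 1 ≠ 0) : f.degree = g.degree := by
  obtain ⟨h1, h2, h3, h4, h5, h6, h7⟩ := (eqs_iff _ _ _ _).1 h
  obtain ⟨s, hs⟩ := phi_imp p _ _ _ _ _ _ _ (by simp) h1
  rw [hs] at h2 h3
  have hF := frob_of p s _ _ _ _ _ _ _ h2
  have hG := frob_of p s _ _ _ _ _ _ _ h3
  have hprod : f * g * (y 5 * y 6) * y 10 ≠ 0 := by
    rw [sub_eq_zero.1 h7]; exact hne
  simp only [ne_eq, mul_eq_zero, not_or] at hprod
  obtain ⟨⟨⟨hf, hg⟩, h50, h60⟩, h10⟩ := hprod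
  have hc : (y 5).coeff 0 ≠ 0 ∧ (y 6).coeff 0 ≠ 0 := by
    have := congrArg (fun P => coeff P 0) h6
    simp only [coeff_sub, coeff_add, mul_coeff_zero, coeff_X_zero, coeff_one_zero,
      coeff_zero] at this
    constructor
    · intro h0
      rw [h0] at this
      simp at this
    · intro h0
      rw [h0] at this
      simp at this
  have hd0 : (y 0).natDegree = p ^ s := by rw [hs, natDegree_X_pow]
  have hd1 : (y 1).natDegree ≤ p ^ s := by
    rw [← hd0]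
    exact natDegree_le_of_dvd ⟨y 2, sub_eq_zero.1 h4⟩ (by rw [hs]; exact pow_ne_zero _ X_ne_zero)
  have hdeg : f.natDegree + g.natDegree + ((y 5).natDegree + (y 6).natDegree) ≤ p ^ s := by
    have h8 := congrArg natDegree (sub_eq_zero.1 h7)
    rw [natDegree_mul (by simp [hf, hg, h50, h60]) h10, natDegree_mul (by simp [hf, hg])
      (by simp [h50, h60]), natDegree_mul hf hg, natDegree_mul h50 h60] at h8
    have h9 := natDegree_sub_le (y 0) (y 1)
    have : max (y 0).natDegree (y 1).natDegree ≤ p ^ s := max_le hd0.le hd1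
    omega
  obtain ⟨u, hu⟩ := rev_dvd p s f
  obtain ⟨v, hv⟩ := rev_dvd p s g
  have hdvd : (X * X ^ (p ^ s) - 1 : (ZMod p)[X]) ∣
      X ^ f.natDegree * (y 5 * g.reverse) - X ^ g.natDegree * (y 6 * f.reverse) := by
    refine ⟨X ^ f.natDegree * y 5 * v - X ^ g.natDegree * y 6 * u +
      X ^ f.natDegree * X ^ g.natDegree * y 7, ?_⟩
    rw [hF, hG, hs] at h5
    linear_combination X ^ f.natDegree * y 5 * hv - X ^ g.natDegree * y 6 * hu +
      X ^ f.natDegree * X ^ g.natDegree * h5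
  have hM : (X * X ^ (p ^ s) - 1 : (ZMod p)[X]).natDegree = p ^ s + 1 := by
    rw [← pow_succ', ← C_1, natDegree_sub_C, natDegree_X_pow]
  have hz := eq_zero_of_dvd_of_natDegree_lt hdvd (by
    rw [hM]
    refine lt_of_le_of_lt (natDegree_sub_le _ _) (Nat.lt_succ_of_le (max_le ?_ ?_))
    · refine natDegree_mul_le.trans ?_
      have := natDegree_mul_le (p := y 5) (q := g.reverse)
      have := reverse_natDegree_le g
      rw [natDegree_X_pow]
      omega
    · refine natDegree_mul_le.trans ?_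
      have := natDegree_mul_le (p := y 6) (q := f.reverse)
      have := reverse_natDegree_le f
      rw [natDegree_X_pow]
      omega)
  have hde := pow_eq_of _ _ _ _ (by simp [mul_coeff_zero, hc.1, hg])
    (by simp [mul_coeff_zero, hc.2, hf]) (sub_eq_zero.1 hz)
  rw [degree_eq_natDegree hf, degree_eq_natDegree hg, hde]

theorem complete (p : ℕ) [hp : Fact p.Prime] (f g : (ZMod p)[X]) (hf : f ≠ 0) (hg : g ≠ 0)
    (hd : f.natDegree = g.natDegree) :
    ∃ y : Fin 26 → (ZMod p)[X], (∀ P ∈ eqs X f g y, P = 0) ∧ y 0 - y 1 ≠ 0 := by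
  have hrf : f.reverse ≠ 0 := by simpa using hf
  have hrg : g.reverse ≠ 0 := by simpa using hg
  obtain ⟨s, s', hlt, m, hm⟩ := exists_mult p (f * g * (f.reverse * g.reverse))
    (by simp [hf, hg])
  obtain ⟨a1, a2, a3, a4, a5, ha⟩ := phi_of p (X : (ZMod p)[X]) s
  obtain ⟨b1, b2, b3, b4, b5, hb⟩ := phi_of p (X * (1 + X * f) : (ZMod p)[X]) s
  obtain ⟨c1, c2, c3, c4, c5, hc⟩ := phi_of p (X * (1 + X * g) : (ZMod p)[X]) s
  rw [mul_pow, add_pow_char_pow, one_pow, mul_pow] at hb hc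
  obtain ⟨u, hu⟩ := rev_dvd p s f
  obtain ⟨v, hv⟩ := rev_dvd p s g
  have hl : f.leadingCoeff * g.leadingCoeff ≠ 0 := by simp [hf, hg]
  have hcop : IsCoprime (X : (ZMod p)[X]) (f.reverse * g.reverse) := by
    rw [(irreducible_X (R := ZMod p)).coprime_iff_not_dvd, X_dvd_iff]
    simpa [mul_coeff_zero] using hl
  obtain ⟨α, β, hαβ⟩ := hcop
  have hlt' : p ^ s' < p ^ s := Nat.pow_lt_pow_right hp.out.one_lt hlt
  refine ⟨![X ^ (p ^ s), X ^ (p ^ s'), X ^ (p ^ s - p ^ s'), f ^ (p ^ s), g ^ (p ^ s), f.reverse,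
    g.reverse, u * g ^ (p ^ s) - v * f ^ (p ^ s), α, β, m, a1, a2, a3, a4, a5, b1, b2, b3, b4, b5,
    c1, c2, c3, c4, c5], (eqs_iff _ _ _ _).2 ⟨ha, hb, hc, ?_, ?_, ?_, ?_⟩, ?_⟩
  · show X ^ (p ^ s) - X ^ (p ^ s') * X ^ (p ^ s - p ^ s') = 0
    rw [← pow_add, Nat.add_sub_cancel' hlt'.le, sub_self]
  · show f.reverse * g ^ (p ^ s) - g.reverse * f ^ (p ^ s) -
      (u * g ^ (p ^ s) - v * f ^ (p ^ s)) * (X * X ^ (p ^ s) - 1) = 0
    rw [hd] at hu
    linear_combination g ^ (p ^ s) * hu - f ^ (p ^ s) * hv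
  · show α * X + β * (f.reverse * g.reverse) - 1 = 0
    rw [hαβ, sub_self]
  · show f * g * (f.reverse * g.reverse) * m - (X ^ (p ^ s) - X ^ (p ^ s')) = 0
    rw [hm, sub_self]
  · show X ^ (p ^ s) - X ^ (p ^ s') ≠ 0
    intro h
    have := congrArg natDegree (sub_eq_zero.1 h)
    rw [natDegree_X_pow, natDegree_X_pow] at this
    omega

theorem result :
    ∃ (n : ℕ) (D : Finset (Finset (MvPolynomial (Fin 3 ⊕ Fin n) ℤ) × MvPolynomial (Fin 3 ⊕ Fin n) ℤ)),
      ∀ p : ℕ, p.Prime → ∀ f g : Polynomial (ZMod p),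
        (f.degree = g.degree ↔
          ∃ y : Fin n → Polynomial (ZMod p), ∃ d ∈ D,
            (∀ P ∈ d.1, MvPolynomial.aeval (Sum.elim ![Polynomial.X, f, g] y) P = 0) ∧
            MvPolynomial.aeval (Sum.elim ![Polynomial.X, f, g] y) d.2 ≠ 0) := by
  classical
  refine ⟨26, {((eqs (MvPolynomial.X (Sum.inl 0)) (MvPolynomial.X (Sum.inl 1))
      (MvPolynomial.X (Sum.inl 2)) (fun i => MvPolynomial.X (Sum.inr i))).toFinset,
      MvPolynomial.X (Sum.inr 0) - MvPolynomial.X (Sum.inr 1)),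
      ({MvPolynomial.X (Sum.inl 1), MvPolynomial.X (Sum.inl 2)}, 1)}, ?_⟩
  intro p hp f g
  haveI : Fact p.Prime := ⟨hp⟩
  have key : ∀ y : Fin 26 → (ZMod p)[X],
      (∀ P ∈ (eqs (MvPolynomial.X (Sum.inl 0)) (MvPolynomial.X (Sum.inl 1))
        (MvPolynomial.X (Sum.inl 2)) (fun i => MvPolynomial.X (Sum.inr i)) :
          List (MvPolynomial (Fin 3 ⊕ Fin 26) ℤ)).toFinset,
        MvPolynomial.aeval (Sum.elim ![Polynomial.X, f, g] y) P = 0) ↔
      ∀ P ∈ eqs X f g y, P = 0 := by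
    intro y
    have h := eqs_map (MvPolynomial.aeval (R := ℤ) (Sum.elim ![Polynomial.X, f, g] y)).toRingHom
      (MvPolynomial.X (Sum.inl 0)) (MvPolynomial.X (Sum.inl 1))
      (MvPolynomial.X (Sum.inl 2)) (fun i => MvPolynomial.X (Sum.inr i))
    simp only [AlgHom.toRingHom_eq_coe, RingHom.coe_coe, MvPolynomial.aeval_X, Sum.elim_inl,
      Sum.elim_inr, Matrix.cons_val_zero, Matrix.cons_val_one, Matrix.cons_val] at h
    rw [← show eqs X f g (fun i => y i) = eqs X f g y from rfl, ← h]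
    simp only [List.mem_toFinset, List.forall_mem_map]
  constructor
  · intro hd
    by_cases hf : f = 0
    · have hg : g = 0 := by
        rw [hf] at hd
        simpa using hd.symm
      refine ⟨fun _ => 0, _, Finset.mem_insert_of_mem (Finset.mem_singleton_self _), ?_, ?_⟩
      · simp [hf, hg]
      · simp
    · have hg : g ≠ 0 := by
        rintro rfl
        simp [hf] at hd
      obtain ⟨y, h1, h2⟩ := complete p f g hf hg (natDegree_eq_of_degree_eq hd)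
      refine ⟨y, _, Finset.mem_insert_self _ _, (key y).2 h1, ?_⟩
      simpa using h2
  · rintro ⟨y, d, hd, h1, h2⟩
    rcases Finset.mem_insert.1 hd with rfl | hd
    · exact sound p f g y ((key y).1 h1) (by simpa using h2)
    · rw [Finset.mem_singleton] at hd
      subst hd
      have hf := h1 (MvPolynomial.X (Sum.inl 1)) (by simp)
      have hg := h1 (MvPolynomial.X (Sum.inl 2)) (by simp)
      simp at hf hg
      rw [hf, hg]

end Pool.Agent.S14977
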