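import Pool.Statements.S14998
-- import your own Pool.Agent.* helpers here

set_option autoImplicit false
open Pool Pool.MP_855a95_lc

namespace Pool.Agent.S14998

theorem result :
    ¬ (∃ c : {o : Ordinal.{0} // o < (Cardinal.aleph 1).ord} →
        {o : Ordinal.{0} // o < (Cardinal.aleph 1).ord} → ℕ,
      (∀ a b, c a b = c b a) ∧
      (∀ a b d, a ≠ b → b ≠ d → a ≠ d → ¬ (c a b = c b d ∧ c a b = c a d)) ∧
      ∀ f : {o : Ordinal.{0} // o < (Cardinal.aleph 1).ord} → ℕ,
        ∃ i : ℕ, ∀ n : ℕ, ∃ a b, a ≠ b ∧ f a = i ∧ f b = i ∧ c a b = n) := by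
  classical
  rintro ⟨c, hs, ht, h⟩
  let w : {o : Ordinal.{0} // o < (Cardinal.aleph 1).ord} :=
    ⟨0, (Cardinal.isSuccLimit_ord (Cardinal.aleph0_le_aleph 1)).pos⟩
  obtain ⟨i, hi⟩ := h (fun u => if u = w then 0 else c w u + 1)
  obtain ⟨a, b, hab, ha, hb, hc⟩ := hi (i - 1)
  by_cases h1 : a = w
  · have h2 : b ≠ w := fun h => hab (h1.trans h.symm)
    simp only [if_pos h1] at ha
    simp only [if_neg h2] at hb
    omega
  · by_cases h2 : b = w
    · simp only [if_neg h1] at ha
      simp only [if_pos h2] at hb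
      omega
    · simp only [if_neg h1] at ha
      simp only [if_neg h2] at hb
      exact ht w a b (Ne.symm h1) hab (Ne.symm h2) ⟨by omega, by omega⟩

end Pool.Agent.S14998
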