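import Pool.Statements.S15001
-- import your own Pool.Agent.* helpers here

set_option autoImplicit false
open Pool Pool.MP_856e04_lc

namespace Pool.Agent.S15001

section helpers

variable {O : Type} [LinearOrder O]

def Pos (P : (ℕ → O) → Prop) : ℕ → ℕ → (ℕ → O) → Prop
  | 0, _, a => P a
  | d + 1, p, a => ∀ α, ∃ β, α < β ∧ Pos P d (p + 1) (Function.update a p β)

lemma claim1 {C : Type} (hub : ∀ f : C → O, ∃ b, ∀ i, f i < b) (c : (ℕ → O) → C) (d : ℕ) :
    ∀ p a, ∃ q, Pos (fun a => c a = q) d p a := by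
  induction d with
  | zero => intro p a; exact ⟨c a, rfl⟩
  | succ d ih =>
    intro p a
    by_contra hc
    have : ∀ q, ∃ α, ∀ β, α < β → ¬ Pos (fun a => c a = q) d (p + 1) (Function.update a p β) := by
      intro q
      by_contra h2
      refine hc ⟨q, fun α => ?_⟩
      by_contra h3
      exact h2 ⟨α, fun β hβ h4 => h3 ⟨β, hβ, h4⟩⟩
    choose α hα using this
    obtain ⟨b, hb⟩ := hub α
    obtain ⟨q, hq⟩ := ih (p + 1) (Function.update a p b)
    exact hα q b (hb q) hq

lemma seq (o : O) (Φ : ℕ → O → Prop) (h : ∀ t α, ∃ β, α < β ∧ Φ t β) :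
    ∃ b : ℕ → O, (∀ t, b t < b (t + 1)) ∧ ∀ t, Φ t (b t) := by
  choose nx h1 h2 using h
  refine ⟨fun t => Nat.rec (nx 0 o) (fun t x => nx (t + 1) x) t, fun t => h1 _ _, fun t => ?_⟩
  cases t with
  | zero => exact h2 _ _
  | succ t => exact h2 _ _

lemma claim2 (m : ℕ) (P : (ℕ → O) → Prop) (a0 : ℕ → O) (h0 : Pos P (m + 1) 0 a0) (j : ℕ) :
    j ≤ m + 1 → ∃ u : Fin (m + 1) → ℕ → O, (∀ i, Pos P (m + 1 - j) j (u i)) ∧
      (∀ c : Fin (m + 1), c.val < j → ∀ i, i + 1 ≠ c → u i c < u (i + 1) c) ∧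
      (0 < j → Function.Injective (fun i => u i 0)) := by
  induction j with
  | zero => intro _; exact ⟨fun _ => a0, fun _ => h0, fun c hc => absurd hc (by omega),
      fun h => absurd h (by omega)⟩
  | succ j ih =>
    intro hj
    obtain ⟨u, h1, h2, h3⟩ := ih (by omega)
    rw [show m + 1 - j = (m + 1 - (j + 1)) + 1 by omega] at h1
    let J : Fin (m + 1) := ⟨j, by omega⟩
    obtain ⟨b, hb, hΦ⟩ := seq (a0 0) (fun t β => Pos P (m + 1 - (j + 1)) (j + 1)
      (Function.update (u (J + Fin.ofNat (m + 1) t)) j β)) (fun t α => h1 _ α)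
    have hmono : StrictMono b := strictMono_nat_of_lt_succ hb
    refine ⟨fun i => Function.update (u i) j (b (i - J).val), fun i => ?_, fun c hc i hi => ?_,
      fun _ => ?_⟩
    · have := hΦ (i - J).val
      rwa [Fin.ofNat_val_eq_self, add_sub_cancel] at this
    · rcases Nat.lt_succ_iff_lt_or_eq.mp hc with h | h
      · simp only
        rw [Function.update_of_ne (by omega), Function.update_of_ne (by omega)]
        exact h2 c h i hi
      · have hcJ : c = J := Fin.ext h
        simp only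
        rw [h, Function.update_self, Function.update_self]
        apply hmono
        have e : i + 1 - J = (i - J) + 1 := by abel
        rw [e, Fin.val_add_one]
        split_ifs with h4
        · exfalso
          apply hi
          have : i - J + 1 = 0 := by rw [h4]; exact Fin.last_add_one m
          rw [hcJ, ← sub_eq_zero, e, this]
        · omega
    · rcases Nat.eq_zero_or_pos j with h | h
      · subst h
        intro i i' he
        simp only [Function.update_self] at he
        have := hmono.injective he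
        exact sub_left_injective (Fin.ext this)
      · intro i i' he
        simp only at he
        rw [Function.update_of_ne (by omega), Function.update_of_ne (by omega)] at he
        exact h3 h he

end helpers

lemma reg (κ : Cardinal.{0}) (hκ : Cardinal.aleph0 ≤ κ) (C : Type) (hC : Cardinal.mk C < κ) :
    ∃ (O : Type) (_ : LinearOrder O) (e : O → κ.ord.ToType), StrictMono e ∧ Nonempty O ∧
      ∀ f : C → O, ∃ b, ∀ i, f i < b := by
  obtain ⟨l, hl, h1, h2⟩ : ∃ l : Cardinal.{0}, l.IsRegular ∧ Cardinal.mk C < l ∧ l ≤ κ := by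
    rcases lt_or_ge (Cardinal.mk C) Cardinal.aleph0 with h | h
    · exact ⟨_, Cardinal.isRegular_aleph0, h, hκ⟩
    · exact ⟨_, Cardinal.isRegular_succ h, Order.lt_succ _, Order.succ_le_of_lt hC⟩
  have hmk : Cardinal.mk l.ord.ToType = l := by simp
  refine ⟨l.ord.ToType, inferInstance, Ordinal.initialSegToType (Cardinal.ord_le_ord.mpr h2),
    (Ordinal.initialSegToType (Cardinal.ord_le_ord.mpr h2)).strictMono, ?_, fun f => ?_⟩
  · rw [← Cardinal.mk_ne_zero_iff, hmk]
    exact hl.pos.ne'
  · by_contra hc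
    push Not at hc
    have h3 : ∀ i, Cardinal.mk (Set.Iic (f i)) < l := by
      intro i
      rw [← Set.Iio_insert]
      refine lt_of_le_of_lt Cardinal.mk_insert_le ?_
      exact Cardinal.add_lt_of_lt hl.aleph0_le (Cardinal.mk_Iio_toType_ord_lt (f i))
        (lt_of_lt_of_le Cardinal.one_lt_aleph0 hl.aleph0_le)
    have h4 := (Cardinal.card_iUnion_lt_iff_forall_of_isRegular hl h1).mpr h3
    have h5 : (⋃ i, Set.Iic (f i)) = Set.univ := by
      refine Set.eq_univ_of_forall fun b => ?_
      obtain ⟨i, hi⟩ := hc b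
      exact Set.mem_iUnion.mpr ⟨i, hi⟩
    rw [h5, Cardinal.mk_univ, hmk] at h4
    exact lt_irrefl _ h4

theorem result : ∀ κ : Cardinal.{0}, Cardinal.aleph0 ≤ κ → ∀ n : ℕ,
    ∃ (V : Type) (D : Digraph V),
      Cardinal.mk V = κ ∧
      (∀ v : V, ¬ D.Adj v v) ∧
      (∀ k : ℕ, k + 1 < n → ∀ f : Fin (k + 1) → V, Function.Injective f →
        ¬ ∀ i : Fin (k + 1), D.Adj (f i) (f (i + 1))) ∧
      (∀ (C : Type) (c : V → C), Cardinal.mk C < κ →
        ∃ k : ℕ, ∃ f : Fin (k + 1) → V, Function.Injective f ∧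
          (∀ i : Fin (k + 1), D.Adj (f i) (f (i + 1))) ∧
          ∀ i j : Fin (k + 1), c (f i) = c (f j)) := by
  intro κ hκ n
  refine ⟨Fin (n + 1 + 1) → κ.ord.ToType, ⟨fun u v => ∃ c0, ∀ c, c ≠ c0 → u c < v c⟩, ?_, ?_, ?_, ?_⟩
  · simp only [Cardinal.mk_pi, Cardinal.prod_const, Cardinal.mk_toType, Cardinal.card_ord,
      Cardinal.lift_id, Cardinal.mk_fin]
    exact Cardinal.power_nat_eq hκ (by omega)
  · rintro v ⟨c0, h⟩
    obtain ⟨c, hc⟩ := exists_ne c0
    exact lt_irrefl _ (h c hc)
  · intro k hk f _ h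
    choose c0 h using h
    have : ∃ c, ∀ i, c ≠ c0 i := by
      by_contra hc
      push Not at hc
      have := Fintype.card_le_of_surjective c0 (fun c => (hc c).imp fun i hi => hi.symm)
      simp only [Fintype.card_fin] at this
      omega
    obtain ⟨c, hc⟩ := this
    obtain ⟨i, hi⟩ := Finite.exists_max (fun i => f i c)
    exact absurd (h i c (hc i)) (not_lt.mpr (hi _))
  · intro C c hC
    obtain ⟨O, _, e, he, ⟨o⟩, hub⟩ := reg κ hκ C hC
    obtain ⟨q, hq⟩ := claim1 hub (fun a => c (fun i : Fin (n + 1 + 1) => e (a i))) (n + 1 + 1) 0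
      (fun _ => o)
    obtain ⟨u, h1, h2, h3⟩ := claim2 (n + 1) _ _ hq (n + 1 + 1) le_rfl
    rw [Nat.sub_self] at h1
    refine ⟨n + 1, fun i c => e (u i c), fun i j h => h3 (by omega) ?_, fun i => ⟨i + 1, ?_⟩,
      fun i j => (h1 i).trans (h1 j).symm⟩
    · exact he.injective (congrFun h 0)
    · intro c hc
      exact he (h2 c c.2 i hc.symm)

end Pool.Agent.S15001
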