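import Pool.Statements.S15019
import Pool.Agent.H.MP_89ac68_lc.A

set_option autoImplicit false
open Pool Pool.MP_89ac68_lc

namespace Pool.Agent.S15019

open Pool.Agent.H.MP_89ac68_lc

/-- For each k there is a bound N such that every unsatisfiable hitting clause-set with deficiency k, where each variable occurs at least twice in each sign, has at most N variables. This is equivalent to there being finitely many isomorphism types per deficiency. -/
theorem result :
    ∀ k : ℕ, ∃ N : ℕ, ∀ F : Finset (Finset (ℕ × Bool)),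
      (∀ C ∈ F, ∀ v : ℕ, ¬ ((v, true) ∈ C ∧ (v, false) ∈ C)) →
      (∀ C ∈ F, ∀ D ∈ F, C ≠ D → ∃ v : ℕ, ∃ b : Bool, (v, b) ∈ C ∧ (v, !b) ∈ D) →
      (∀ σ : ℕ → Bool, ∃ C ∈ F, ∀ l ∈ C, σ l.1 ≠ l.2) →
      (∀ C ∈ F, ∀ v : ℕ, ∀ b : Bool, (v, b) ∈ C →
        ∀ b' : Bool, 2 ≤ (F.filter (fun D => (v, b') ∈ D)).card) →
      (F.card : ℤ) - ((F.biUnion (fun C => C.image Prod.fst)).card : ℤ) = (k : ℤ) →
      (F.biUnion (fun C => C.image Prod.fst)).card ≤ N := by
  intro k
  classical
  let c : Finset (ℕ × Bool) → ℕ → Option Bool := fun C v =>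
    if (v, true) ∈ C then some false else if (v, false) ∈ C then some true else none
  obtain ⟨N, hN⟩ := finite_bound (c := c) k
  refine ⟨N, fun F hcons hhit hun hns hdef => ?_⟩
  have hc : ∀ C ∈ F, ∀ v b, c C v = some b ↔ (v, !b) ∈ C := by
    intro C hC v b
    have := hcons C hC v
    by_cases h1 : (v, true) ∈ C <;> by_cases h2 : (v, false) ∈ C <;> cases b <;> simp_all [c]
  have hV : ∀ C ∈ F, ∀ v b, (v, b) ∈ C → v ∈ F.biUnion (fun C => C.image Prod.fst) := by
    intro C hC v b h
    exact Finset.mem_biUnion.2 ⟨C, hC, Finset.mem_image.2 ⟨(v, b), h, rfl⟩⟩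
  have hp : Part c F (F.biUnion (fun C => C.image Prod.fst)) := by
    constructor
    · intro σ
      obtain ⟨C, hC, h⟩ := hun σ
      refine ⟨C, hC, fun v _ b hb => ?_⟩
      have := h _ ((hc C hC v b).1 hb)
      revert this
      cases σ v <;> cases b <;> simp
    · intro C hC D hD σ h1 h2
      by_contra hne
      obtain ⟨v, b, h3, h4⟩ := hhit C hC D hD hne
      have h5 := h1 v (hV C hC v b h3) (!b) ((hc C hC v (!b)).2 (by simpa using h3))
      have h6 := h2 v (hV C hC v b h3) b ((hc D hD v b).2 h4)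
      rw [h5] at h6
      simp at h6
  have ht : Tight c F (F.biUnion (fun C => C.image Prod.fst)) := by
    intro v hv
    obtain ⟨C, hC, h⟩ := Finset.mem_biUnion.1 hv
    obtain ⟨⟨w, b⟩, h1, h2⟩ := Finset.mem_image.1 h
    simp only at h2
    subst h2
    exact ⟨C, hC, !b, (hc C hC w (!b)).2 (by simpa using h1)⟩
  have hM : M c F (F.biUnion (fun C => C.image Prod.fst)) = ∅ := by
    refine Finset.eq_empty_of_forall_notMem (fun C hC' => ?_)
    simp only [M, Finset.mem_filter] at hC'
    obtain ⟨hC, v, _, b, hb, hu⟩ := hC'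
    have h1 := hns C hC v (!b) ((hc C hC v b).1 hb) (!b)
    obtain ⟨D, hD, E, hE, hDE⟩ := Finset.one_lt_card.1 h1
    rw [Finset.mem_filter] at hD hE
    exact hDE ((hu D hD.1 ((hc D hD.1 v b).2 hD.2)).trans (hu E hE.1 ((hc E hE.1 v b).2 hE.2)).symm)
  have := hN F _ hp ht (by omega)
  rw [hM] at this
  simpa using this

end Pool.Agent.S15019
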