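import Pool.Statements.S15022

set_option autoImplicit false
open Pool Pool.MP_8aa41f_lc

namespace Pool.Agent.S15022

open Finset

theorem cnt_iff {m : ℕ} (g : Fin m → ℕ) (x y : ℕ)
    (h : #{i | g i ≤ x} = #{i | g i ≤ y}) (i : Fin m) : g i ≤ x ↔ g i ≤ y := by
  wlog hxy : x ≤ y generalizing x y
  · exact (this y x h.symm (by omega)).symm
  have hs : ({i | g i ≤ x} : Finset (Fin m)) ⊆ ({i | g i ≤ y} : Finset (Fin m)) := fun j hj => by
    simp only [mem_filter, mem_univ, true_and] at hj ⊢; omega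
  have := eq_of_subset_of_card_le hs h.ge
  simpa using congrArg (i ∈ ·) this

theorem mem_ap (a d L x : ℕ) (hd : 0 < d) :
    x ∈ (range L).image (fun j => a + d * j) ↔ a ≤ x ∧ ¬ (a + d * L ≤ x) ∧ a ≡ x [MOD d] := by
  simp only [mem_image, mem_range]
  constructor
  · rintro ⟨j, hj, rfl⟩
    refine ⟨by omega, by nlinarith, ?_⟩
    simp [Nat.ModEq]
  · rintro ⟨h1, h2, h3⟩
    obtain ⟨j, hj⟩ := (Nat.modEq_iff_dvd' h1).1 h3
    refine ⟨j, ?_, by omega⟩
    by_contra hc
    have : d * L ≤ d * j := Nat.mul_le_mul_left _ (by omega)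
    omega

theorem card_ap (a d L n M : ℕ) (hM : M ≤ n) (hd : ¬ (0 < d ∧ d ≤ M))
    (hs : (range L).image (fun j => a + d * j) ⊆ range n) :
    #((range L).image (fun j => a + d * j)) * M ≤ 2 * n := by
  by_cases h0 : d = 0
  · have : #((range L).image (fun j => a + d * j)) ≤ 1 := by
      refine card_le_one.2 fun x hx y hy => ?_
      simp only [h0, mem_image] at hx hy
      obtain ⟨_, _, rfl⟩ := hx
      obtain ⟨_, _, rfl⟩ := hy
      simp
    nlinarith
  · have h1 : #((range L).image (fun j => a + d * j)) ≤ L := card_image_le.trans (by simp)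
    rcases L with _ | L
    · simp
    · have h2 : a + d * L < n := mem_range.1 (hs (mem_image.2 ⟨L, by simp, rfl⟩))
      have h3 : M * L ≤ d * L := Nat.mul_le_mul_right _ (by omega)
      nlinarith

theorem card_small (m t : ℕ) :
    #{s ∈ (univ : Finset (Finset (Fin m))) | #s ≤ t} ≤ (t + 1) * (m + 1) ^ t := by
  have := card_le_mul_card_image_of_maps_to (f := fun s : Finset (Fin m) => #s)
    (s := {s ∈ (univ : Finset (Finset (Fin m))) | #s ≤ t}) (t := range (t + 1))
    (fun s hs => by simp at hs ⊢; omega) ((m + 1) ^ t) (fun b hb => by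
      calc _ ≤ #(powersetCard b (univ : Finset (Fin m))) := card_le_card fun s hs => by
            simp at hs ⊢; exact hs.2
        _ = m.choose b := by simp
        _ ≤ m ^ b := Nat.choose_le_pow _ _
        _ ≤ (m + 1) ^ b := Nat.pow_le_pow_left (by omega) _
        _ ≤ (m + 1) ^ t := Nat.pow_le_pow_right (by omega) (by simp at hb; omega))
  simpa [mul_comm] using this

theorem core (n m M t E : ℕ) (hM0 : 0 < M) (hM : M ≤ n) (ht : 4 * m ≤ M * t)
    (a d L : Fin m → ℕ)
    (hs : ∀ i, (range (L i)).image (fun j => a i + d i * j) ⊆ range n)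
    (hE : ∀ F : Finset ℕ, F ⊆ range n → (∀ x ∈ F, ∀ y ∈ F, ∀ i,
      x ∈ (range (L i)).image (fun j => a i + d i * j) ↔
        y ∈ (range (L i)).image (fun j => a i + d i * j)) → #F ≤ E) :
    n ≤ 2 * (E * (M.factorial * ((m + 1) * ((m + 1) * ((t + 1) * (m + 1) ^ t))))) := by
  classical
  let T : Fin m → Finset ℕ := fun i => (range (L i)).image (fun j => a i + d i * j)
  let Lg : Finset (Fin m) := {i | ¬ (0 < d i ∧ d i ≤ M)}
  let ls : ℕ → Finset (Fin m) := fun x => {i ∈ Lg | x ∈ T i}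
  let B : Finset ℕ := {x ∈ range n | t < #(ls x)}
  let G : Finset ℕ := {x ∈ range n | ¬ t < #(ls x)}
  have hBG : #B + #G = n := by
    rw [card_filter_add_card_filter_not]; simp
  have hB : #B * (t + 1) * M ≤ m * (2 * n) := by
    have h1 := sum_card_bipartiteAbove_eq_sum_card_bipartiteBelow (s := B) (t := Lg)
      (r := fun x i => x ∈ T i)
    have h2 : #B * (t + 1) ≤ ∑ x ∈ B, #(Lg.bipartiteAbove (fun x i => x ∈ T i) x) := by
      rw [← smul_eq_mul, ← sum_const]
      exact sum_le_sum fun x hx => (mem_filter.1 hx).2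
    have h3 : (∑ i ∈ Lg, #(B.bipartiteBelow (fun x i => x ∈ T i) i)) * M ≤ #Lg * (2 * n) := by
      rw [sum_mul, ← smul_eq_mul #Lg, ← sum_const]
      refine sum_le_sum fun i hi => le_trans (Nat.mul_le_mul_right _ (card_le_card ?_))
        (card_ap (a i) (d i) (L i) n M hM (mem_filter.1 hi).2 (hs i))
      intro x hx
      exact (mem_filter.1 hx).2
    have h4 : #Lg ≤ m := (card_le_univ _).trans (by simp)
    calc _ ≤ (∑ i ∈ Lg, #(B.bipartiteBelow (fun x i => x ∈ T i) i)) * M :=
          Nat.mul_le_mul_right _ (h1 ▸ h2)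
      _ ≤ #Lg * (2 * n) := h3
      _ ≤ _ := Nat.mul_le_mul_right _ h4
  have hB2 : 2 * #B ≤ n := by
    have h1 : (2 * #B * (t + 1)) * M ≤ (n * (t + 1)) * M := by nlinarith [Nat.zero_le (n * M)]
    exact Nat.le_of_mul_le_mul_right (Nat.le_of_mul_le_mul_right h1 hM0) (by omega)
  have hG := card_le_mul_card_image_of_maps_to
    (f := fun x : ℕ => (x % M.factorial, #{i | a i ≤ x}, #{i | a i + d i * L i ≤ x}, ls x))
    (s := G) (t := range M.factorial ×ˢ range (m + 1) ×ˢ range (m + 1) ×ˢ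
      {s ∈ (univ : Finset (Finset (Fin m))) | #s ≤ t})
    (fun x hx => by
      simp only [mem_product, mem_range, mem_filter, mem_univ, true_and]
      refine ⟨Nat.mod_lt _ (Nat.factorial_pos _), ?_, ?_, not_lt.1 (mem_filter.1 hx).2⟩
      · exact Nat.lt_succ_of_le ((card_le_univ _).trans (by simp))
      · exact Nat.lt_succ_of_le ((card_le_univ _).trans (by simp))) E
    (fun b _ => hE _ (fun x hx => (mem_filter.1 (mem_filter.1 hx).1).1) (by
      intro x hx y hy i
      have h := (mem_filter.1 hx).2.trans (mem_filter.1 hy).2.symm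
      simp only [Prod.mk.injEq] at h
      obtain ⟨h1, h2, h3, h4⟩ := h
      by_cases hi : 0 < d i ∧ d i ≤ M
      · rw [mem_ap _ _ _ _ hi.1, mem_ap _ _ _ _ hi.1, cnt_iff a x y h2 i,
          cnt_iff (fun i => a i + d i * L i) x y h3 i]
        have h5 : x ≡ y [MOD d i] := Nat.ModEq.of_dvd (Nat.dvd_factorial hi.1 hi.2) h1
        exact and_congr_right fun _ => and_congr_right fun _ =>
          ⟨fun h => h.trans h5, fun h => h.trans h5.symm⟩
      · have h5 : i ∈ Lg := mem_filter.2 ⟨mem_univ _, hi⟩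
        have h6 : i ∈ ls x ↔ i ∈ ls y := by rw [h4]
        simpa only [ls, mem_filter, h5, true_and] using h6))
  simp only [card_product, card_range] at hG
  have h7 := card_small m t
  have h8 : #G ≤ E * (M.factorial * ((m + 1) * ((m + 1) * ((t + 1) * (m + 1) ^ t)))) := by
    refine hG.trans ?_
    gcongr
  omega

theorem big (c e : ℕ) : ∃ s : ℕ, 1 ≤ s ∧ 16 * c * s + 7 + e ≤ 2 ^ s := by
  refine ⟨2 * (16 * c + e + 7), by omega, ?_⟩
  set u := 16 * c + e + 7 with hu
  have h1 : 2 * u ≤ 2 ^ u := Nat.mul_le_pow (by norm_num) u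
  rw [two_mul u, pow_add]
  nlinarith [Nat.mul_le_mul h1 h1]

theorem result :
    ¬ (∃ C : ℝ, ∃ D : ℕ, ∀ n k : ℕ, 2 ≤ n → 1 ≤ k → k ≤ n →
      ∃ m : ℕ, (m : ℝ) ≤ C * (k : ℝ) * Real.log (n : ℝ) ∧
        ∃ T : Fin m → Finset ℕ,
          (∀ i, T i ⊆ Finset.range n ∧
            ∃ a d L : ℕ, T i = (Finset.range L).image (fun j => a + d * j)) ∧
          ∃ J : (Fin m → Bool) → Finset ℕ,
            (∀ o, (J o).card ≤ D * k) ∧
            ∀ S S' : Finset ℕ, S ⊆ Finset.range n → S' ⊆ Finset.range n →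
              S.card ≤ k → S'.card ≤ k →
              (fun i => decide (Disjoint (T i) S)) =
                (fun i => decide (Disjoint (T i) S')) →
              S ∩ J (fun i => decide (Disjoint (T i) S)) =
                S' ∩ J (fun i => decide (Disjoint (T i) S)) →
              S = S') := by
  classical
  rintro ⟨C, D, H⟩
  obtain ⟨c, hc⟩ := exists_nat_ge C
  obtain ⟨s, hs1, hs⟩ := big c D
  set M := 2 ^ s with hM
  have hM1 : 1 ≤ M := Nat.one_le_two_pow
  have hsM : 1 ≤ s * M := Nat.mul_pos hs1 hM1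
  have hn2 : 2 ≤ 2 ^ (2 * (s * M)) := Nat.le_self_pow (by omega) 2
  obtain ⟨m, hm, T, hT, J, hJ, hS⟩ := H (2 ^ (2 * (s * M))) 1 hn2 le_rfl (by omega)
  have hm' : m ≤ 2 * c * s * M := by
    have h1 : Real.log 2 ≤ 1 := by
      have := Real.log_le_sub_one_of_pos (x := 2) (by norm_num); linarith
    have h2 : 0 ≤ Real.log 2 := Real.log_nonneg (by norm_num)
    have h3 : Real.log ((2 ^ (2 * (s * M)) : ℕ) : ℝ) = (2 * (s * M) : ℕ) * Real.log 2 := by
      rw [Nat.cast_pow, Real.log_pow]; norm_num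
    rw [h3] at hm
    have h4 : (m : ℝ) ≤ (2 * c * s * M : ℕ) := by
      calc (m : ℝ) ≤ _ := hm
        _ ≤ c * ((1 : ℕ) : ℝ) * (((2 * (s * M) : ℕ) : ℝ) * Real.log 2) := by gcongr
        _ ≤ c * ((1 : ℕ) : ℝ) * (((2 * (s * M) : ℕ) : ℝ) * 1) := by gcongr
        _ = _ := by push_cast; ring
    exact_mod_cast h4
  choose hT1 a d L hT2 using hT
  have hMn : M ≤ 2 ^ (2 * (s * M)) := Nat.pow_le_pow_right (by norm_num) (by nlinarith)
  have key := core (2 ^ (2 * (s * M))) m M (8 * c * s) (D + 1) hM1 hMn (by nlinarith) a d L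
    (fun i => hT2 i ▸ hT1 i) (by
      intro F hF hFF
      simp only [← hT2] at hFF
      rcases F.eq_empty_or_nonempty with rfl | ⟨x0, hx0⟩
      · simp
      set o : Fin m → Bool := fun i => decide (Disjoint (T i) {x0}) with ho
      have hoo : ∀ x ∈ F, (fun i => decide (Disjoint (T i) {x})) = o := by
        intro x hx
        funext i
        simp only [ho, disjoint_singleton_right, hFF x hx x0 hx0 i]
      have h1 : #(F \ J o) ≤ 1 := by
        refine card_le_one.2 fun x hx y hy => ?_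
        rw [mem_sdiff] at hx hy
        have := hS {x} {y} (by simpa using hF hx.1) (by simpa using hF hy.1) (by simp) (by simp)
          ((hoo x hx.1).trans (hoo y hy.1).symm) (by
            rw [hoo x hx.1, singleton_inter_of_notMem hx.2, singleton_inter_of_notMem hy.2])
        simpa using this
      have h2 := card_le_card_sdiff_add_card (s := F) (t := J o)
      have h3 := hJ o
      omega)
  have e1 : D + 1 ≤ 2 ^ D := Nat.lt_two_pow_self
  have e2 : M.factorial ≤ 2 ^ (s * M) := by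
    rw [pow_mul]; exact Nat.factorial_le_pow M
  have e3 : m + 1 ≤ 2 ^ (2 * s) := by
    rw [two_mul, pow_add, ← hM]; nlinarith
  have e4 : 8 * c * s + 1 ≤ 2 ^ s := by rw [← hM]; nlinarith
  have e5 : (m + 1) ^ (8 * c * s) ≤ 2 ^ (2 * s * (8 * c * s)) := by
    rw [pow_mul 2 (2 * s)]; exact Nat.pow_le_pow_left e3 _
  have e6 : 2 ^ (2 * (s * M)) ≤
      2 ^ (1 + (D + (s * M + (2 * s + (2 * s + (s + 2 * s * (8 * c * s))))))) := by
    refine key.trans ?_
    simp only [pow_add _ 1, pow_add _ D, pow_add _ (s * M), pow_add _ (2 * s), pow_add _ s, pow_one]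
    gcongr
  have e7 := (Nat.pow_le_pow_iff_right (by norm_num)).1 e6
  have e8 : s * (16 * c * s + 7 + D) ≤ s * M := Nat.mul_le_mul_left _ hs
  nlinarith [Nat.mul_le_mul_right D hs1]

end Pool.Agent.S15022
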