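import Pool.Statements.S15054
-- import your own Pool.Agent.* helpers here

set_option autoImplicit false
open Pool Pool.MP_908db9_lc

namespace Pool.Agent.S15054

def F : Set (ℕ → ℝ) := {y | ∀ n, |y n| = 1}

theorem F_closed : IsClosed F := by
  have : F = ⋂ n, {y : ℕ → ℝ | |y n| = 1} := by ext y; simp [F]
  rw [this]
  exact isClosed_iInter fun n => isClosed_eq (by fun_prop) continuous_const

abbrev XX : Type := {y : ℕ → ℝ // y ∈ Fᶜ}

def AA : Set XX := {x | ∃ n, x.1 n = 0}

theorem notF (y : ℕ → ℝ) (n : ℕ) (h : |y n| ≠ 1) : y ∈ Fᶜ := fun hF => h (hF n)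

noncomputable def act (g : Multiplicative (ℕ → ℝ)) (y : ℕ → ℝ) : ℕ → ℝ :=
  fun n => Real.exp (g.toAdd n) * y n

theorem act_cont : Continuous (fun p : Multiplicative (ℕ → ℝ) × (ℕ → ℝ) => act p.1 p.2) := by
  refine continuous_pi fun n => ?_
  unfold act
  have h1 : Continuous (fun p : Multiplicative (ℕ → ℝ) × (ℕ → ℝ) => p.1.toAdd n) :=
    (continuous_apply n).comp (continuous_toAdd.comp continuous_fst)
  exact (Real.continuous_exp.comp h1).mul ((continuous_apply n).comp continuous_snd)

noncomputable def aa (g : Multiplicative (ℕ → ℝ)) (x : AA) : AA :=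
  ⟨⟨act g x.1.1, by
      obtain ⟨n, hn⟩ := x.2
      exact notF _ n (by simp [act, hn])⟩, by
    obtain ⟨n, hn⟩ := x.2
    exact ⟨n, by simp [act, hn]⟩⟩

def appr (x : XX) (k : ℕ) : XX := ⟨Function.update x.1 k 0, notF _ k (by simp)⟩

theorem appr_mem (x : XX) (k : ℕ) : appr x k ∈ AA := ⟨k, by simp [appr]⟩

theorem appr_tendsto (x : XX) : Filter.Tendsto (appr x) Filter.atTop (nhds x) := by
  rw [tendsto_subtype_rng, tendsto_pi_nhds]
  intro n
  refine tendsto_const_nhds.congr' ?_
  filter_upwards [Filter.eventually_gt_atTop n] with k hk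
  simp [appr, Function.update_of_ne hk.ne]

theorem AA_dense : Dense AA := fun x =>
  mem_closure_of_tendsto (appr_tendsto x) (Filter.Eventually.of_forall (appr_mem x))

theorem U_dense (n : ℕ) : Dense {x : XX | x.1 n ≠ 0} := by
  intro x
  by_cases h : x.1 n = 0
  · have hpos : ∀ k : ℕ, (0 : ℝ) < 1 / ((k : ℝ) + 1) / 2 := fun k => by positivity
    have hlt : ∀ k : ℕ, 1 / ((k : ℝ) + 1) / 2 < 1 := fun k => by
      have : 1 / ((k : ℝ) + 1) ≤ 1 := by
        rw [div_le_one (by positivity)]; have : (0 : ℝ) ≤ k := Nat.cast_nonneg k; linarith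
      linarith
    let s : ℕ → XX := fun k => ⟨Function.update x.1 n (1 / ((k : ℝ) + 1) / 2), notF _ n (by
      rw [Function.update_self, abs_of_pos (hpos k)]; exact (hlt k).ne)⟩
    have ht : Filter.Tendsto s Filter.atTop (nhds x) := by
      rw [tendsto_subtype_rng, tendsto_pi_nhds]
      intro m
      by_cases hm : m = n
      · subst hm
        simp only [s, Function.update_self, h]
        simpa using (tendsto_one_div_add_atTop_nhds_zero_nat (𝕜 := ℝ)).div_const 2
      · simp only [s, Function.update_of_ne hm]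
        exact tendsto_const_nhds
    refine mem_closure_of_tendsto ht (Filter.Eventually.of_forall fun k => ?_)
    show Function.update x.1 n (1 / ((k : ℝ) + 1) / 2) n ≠ 0
    rw [Function.update_self]; exact (hpos k).ne'
  · exact subset_closure h

theorem result :
    ¬ (∀ (G : Type) [TopologicalSpace G] [Group G] [IsTopologicalGroup G] [PolishSpace G]
      (X : Type) [TopologicalSpace X] [PolishSpace X]
      (A : Set X) (a : G → A → A),
      Continuous (fun p : G × A => a p.1 p.2) →
      (∀ x : A, a 1 x = x) →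
      (∀ (g h : G) (x : A), a g (a h x) = a (g * h) x) →
      ∃ B : Set X, IsGδ B ∧ A ⊆ B ∧
        ∃ b : G → B → B,
          Continuous (fun p : G × B => b p.1 p.2) ∧
          (∀ x : B, b 1 x = x) ∧
          (∀ (g h : G) (x : B), b g (b h x) = b (g * h) x) ∧
          (∀ (g : G) (x : B) (hx : (x : X) ∈ A),
            ((b g x : B) : X) = ((a g ⟨(x : X), hx⟩ : A) : X))) := by
  intro h
  have hG : PolishSpace (Multiplicative (ℕ → ℝ)) := inferInstanceAs (PolishSpace (ℕ → ℝ))
  have hX : PolishSpace XX := F_closed.isOpen_compl.polishSpace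
  obtain ⟨B, hB, hAB, b, hb, -, -, hext⟩ := h (Multiplicative (ℕ → ℝ)) XX AA aa
    (by
      refine Continuous.subtype_mk (Continuous.subtype_mk ?_ _) _
      exact act_cont.comp (continuous_fst.prodMk
        (continuous_subtype_val.comp (continuous_subtype_val.comp continuous_snd))))
    (by
      intro x; apply Subtype.ext; apply Subtype.ext; funext n; simp [aa, act])
    (by
      intro g g' x; apply Subtype.ext; apply Subtype.ext; funext n
      simp [aa, act, Real.exp_add, mul_assoc])
  have hBaire : BaireSpace XX := by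
    let := TopologicalSpace.upgradeIsCompletelyMetrizable XX
    infer_instance
  have hU : Dense (⋂ n, {x : XX | x.1 n ≠ 0}) :=
    dense_iInter_of_isOpen (fun n => isOpen_ne_fun ((continuous_apply n).comp continuous_subtype_val) continuous_const) U_dense
  have hUG : IsGδ (⋂ n, {x : XX | x.1 n ≠ 0}) :=
    IsGδ.iInter fun n => (isOpen_ne_fun ((continuous_apply n).comp continuous_subtype_val) continuous_const).isGδ
  have hne : Nonempty XX := ⟨⟨fun _ => 0, notF _ 0 (by simp)⟩⟩
  obtain ⟨z, hzB, hzU⟩ := (Dense.inter_of_Gδ hB hUG (AA_dense.mono hAB) hU).nonempty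
  have hz : ∀ n, z.1 n ≠ 0 := by simpa using hzU
  let g : Multiplicative (ℕ → ℝ) := Multiplicative.ofAdd (fun n => - Real.log |z.1 n|)
  let s : ℕ → B := fun k => ⟨appr z k, hAB (appr_mem z k)⟩
  have hs : Filter.Tendsto s Filter.atTop (nhds ⟨z, hzB⟩) := by
    rw [tendsto_subtype_rng]; exact appr_tendsto z
  have c1 : Continuous (fun x : B => ((b g x : B) : XX).1) :=
    continuous_subtype_val.comp (continuous_subtype_val.comp
      (hb.comp (continuous_const.prodMk continuous_id)))
  have c2 : Continuous (fun x : B => act g (x : XX).1) :=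
    act_cont.comp (continuous_const.prodMk (continuous_subtype_val.comp continuous_subtype_val))
  have t1 := (c1.tendsto ⟨z, hzB⟩).comp hs
  have t2 := (c2.tendsto ⟨z, hzB⟩).comp hs
  have e : (fun x : B => ((b g x : B) : XX).1) ∘ s = (fun x : B => act g (x : XX).1) ∘ s := by
    funext k
    exact congrArg Subtype.val (hext g (s k) (appr_mem z k))
  rw [e] at t1
  have e2 := tendsto_nhds_unique t1 t2
  apply ((b g ⟨z, hzB⟩ : B) : XX).2
  rw [e2]
  intro n
  have hp : 0 < |z.1 n| := abs_pos.2 (hz n)
  show |Real.exp (- Real.log |z.1 n|) * z.1 n| = 1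
  rw [abs_mul, Real.exp_neg, Real.exp_log hp, abs_inv, abs_abs, inv_mul_cancel₀ hp.ne']

end Pool.Agent.S15054
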