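import Pool.Statements.S15079
import Pool.Agent.H.MP_95c9ea_lc.A

set_option autoImplicit false
open Pool Pool.MP_95c9ea_lc

namespace Pool.Agent.S15079

theorem result :
    ∀ κ : Cardinal.{0}, Cardinal.aleph0 ≤ κ → ¬ κ.IsRegular →
      ∃ c : Ordinal.{0} → Ordinal.{0} → Ordinal.{0} → Fin 2,
        ∀ H I J : Set Ordinal.{0},
          H ⊆ Set.Iio (Order.succ κ).ord →
          I ⊆ Set.Iio (Order.succ κ).ord →
          J ⊆ Set.Iio (Order.succ κ).ord →
          Nonempty (↥H ≃o ↥(Set.Iio κ.ord)) →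
          Nonempty (↥I ≃o ↥(Set.Iio κ.ord)) →
          Nonempty (↥J ≃o ↥(Set.Iio κ.ord)) →
          ¬ ∃ i : Fin 2, ∀ a ∈ H, ∀ b ∈ I, ∀ d ∈ J, c a b d = i := by
  classical
  intro κ hκ _
  obtain ⟨c, hc⟩ := Pool.Agent.H.MP_95c9ea_lc.cube hκ
  let e := @Ordinal.ToType.mk (Order.succ κ).ord
  have k : ∀ H : Set Ordinal.{0}, H ⊆ Set.Iio (Order.succ κ).ord →
      Nonempty (↥H ≃o ↥(Set.Iio κ.ord)) → κ ≤ Cardinal.mk {x | (e.symm x).1 ∈ H} := by
    rintro H h ⟨f⟩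
    refine (Cardinal.mk_ord_toType κ).ge.trans (Cardinal.mk_le_of_injective (f := fun y =>
      ⟨e ⟨(f.symm (Ordinal.ToType.mk.symm y)).1, h (f.symm _).2⟩, by simp⟩) fun x y a => ?_)
    exact Ordinal.ToType.mk.symm.injective (f.symm.injective (Subtype.ext (congrArg
      (fun z : Set.Iio (Order.succ κ).ord => z.1) (e.injective (congrArg Subtype.val a)))))
  refine ⟨fun a b d => if ∃ x y z, (e.symm x).1 = a ∧ (e.symm y).1 = b ∧ (e.symm z).1 = d ∧ c x y z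
    then 0 else 1, fun H I J h i j h' i' j' ⟨t, m⟩ => hc _ _ _ (k H h h') (k I i i') (k J j j')
      (t = 0) fun a u b v d w => ?_⟩
  rw [← m _ u _ v _ w]
  simp [Subtype.val_inj]

end Pool.Agent.S15079
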