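import Pool.Statements.S15089
import Pool.Agent.H.MP_c33acd_lc.G

set_option autoImplicit false
open Pool Pool.MP_984cf2_lc

namespace Pool.Agent.S15089

theorem result :
    ∀ (n d m : ℕ)
      (μ₁ μ₂ : Fin m → (FreeGroup (Fin n) ⧸ derivedSeries (FreeGroup (Fin n)) d)),
      (∀ φ : (FirstOrder.Language.mk (fun _ => Bool) (fun _ => Empty)).Formula (Fin m),
        (@FirstOrder.Language.Formula.Realize
            (FirstOrder.Language.mk (fun _ => Bool) (fun _ => Empty))
            (FreeGroup (Fin n) ⧸ derivedSeries (FreeGroup (Fin n)) d)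
            ({ funMap := fun b xs => cond b (List.ofFn xs).prod ((List.ofFn xs).prod)⁻¹,
               RelMap := fun r _ => Empty.elim r } :
              (FirstOrder.Language.mk (fun _ => Bool) (fun _ => Empty)).Structure
                (FreeGroup (Fin n) ⧸ derivedSeries (FreeGroup (Fin n)) d))
            (Fin m) φ μ₁ ↔
         @FirstOrder.Language.Formula.Realize
            (FirstOrder.Language.mk (fun _ => Bool) (fun _ => Empty))
            (FreeGroup (Fin n) ⧸ derivedSeries (FreeGroup (Fin n)) d)
            ({ funMap := fun b xs => cond b (List.ofFn xs).prod ((List.ofFn xs).prod)⁻¹,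
               RelMap := fun r _ => Empty.elim r } :
              (FirstOrder.Language.mk (fun _ => Bool) (fun _ => Empty)).Structure
                (FreeGroup (Fin n) ⧸ derivedSeries (FreeGroup (Fin n)) d))
            (Fin m) φ μ₂)) →
      ∃ σ : (FreeGroup (Fin n) ⧸ derivedSeries (FreeGroup (Fin n)) d) ≃*
            (FreeGroup (Fin n) ⧸ derivedSeries (FreeGroup (Fin n)) d),
        ∀ i, σ (μ₁ i) = μ₂ i := by
  intro n d m a b h
  exact Pool.Agent.H.MP_c33acd_lc.homog ⟨⟨fun _ => Bool, fun _ => Empty⟩,
    fun _ _ => ⟨fun b xs => cond b (List.ofFn xs).prod ((List.ofFn xs).prod)⁻¹,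
      fun r _ => Empty.elim r⟩, true, fun K _ x => by simp [List.ofFn_succ]⟩ n d m a b h

end Pool.Agent.S15089
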