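import Pool.Statements.S15144
import Pool.Agent.H.MP_a2ec29_lc.Comp

set_option autoImplicit false
open Pool Pool.MP_a2ec29_lc

namespace Pool.Agent.S15144

theorem result :
    ¬ (∀ (β : Type) [LinearOrder β] (l : ℕ ≃ β),
      ComputablePred (fun p : ℕ × ℕ => l p.1 ≤ l p.2) →
      ∀ (α : Type) [BooleanAlgebra α] (e : ℕ ≃ α),
        Computable₂ (fun m n : ℕ => e.symm (e m ⊔ e n)) →
        Computable₂ (fun m n : ℕ => e.symm (e m ⊓ e n)) →
        Computable (fun n : ℕ => e.symm (e n)ᶜ) →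
        (∃ φ : α → Set β, Function.Injective φ ∧
            (∀ a b, φ (a ⊔ b) = φ a ∪ φ b) ∧
            (∀ a, φ aᶜ = (φ a)ᶜ) ∧
            Set.range φ = {X : Set β | ∃ S : Finset β, ∃ b : Bool,
              X = {x : β | Xor' (b = true) (Odd (S.filter (fun s => s ≤ x)).card)}}) →
        ∃ l' : ℕ ≃ β, ComputablePred (fun p : ℕ × ℕ => l' p.1 ≤ l' p.2) ∧
          ∃ ψ : α → Set β, Function.Injective ψ ∧
            (∀ a b, ψ (a ⊔ b) = ψ a ∪ ψ b) ∧
            (∀ a, ψ aᶜ = (ψ a)ᶜ) ∧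
            Set.range ψ = {X : Set β | ∃ S : Finset β, ∃ b : Bool,
              X = {x : β | Xor' (b = true) (Odd (S.filter (fun s => s ≤ x)).card)}} ∧
            ∃ c : ℕ → List ℕ × Bool, Computable c ∧
              ∀ n : ℕ, ψ (e n) = {x : β | Xor' ((c n).2 = true)
                (Odd ((c n).1.filter (fun s => decide (l' s ≤ x))).length)}) := by
  intro h
  obtain ⟨l', -, ψ, hi, hs, -, hr, c, hc, hh⟩ := h ℕ (Equiv.refl ℕ)
    (Primrec.nat_le.comp Primrec.fst Primrec.snd).computablePred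
    (Pool.Agent.H.MP_a2ec29_lc.FC ℕ) Pool.Agent.H.MP_a2ec29_lc.ee
    (Pool.Agent.H.MP_a2ec29_lc.op_comp Or (· ⊔ ·) (fun _ _ _ => Iff.rfl) (fun _ _ hp hq => hp.or hq))
    (Pool.Agent.H.MP_a2ec29_lc.op_comp And (· ⊓ ·) (fun _ _ _ => Iff.rfl)
      (fun _ _ hp hq => hp.and hq))
    ((Pool.Agent.H.MP_a2ec29_lc.op_comp (fun p _ => ¬ p) (fun a _ => aᶜ) (fun _ _ _ => Iff.rfl)
      (fun _ _ hp _ => hp.not)).comp Computable.id Computable.id)
    ⟨Subtype.val, Subtype.val_injective, fun _ _ => rfl, fun _ => rfl,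
      Subtype.range_coe.trans Pool.Agent.H.MP_a2ec29_lc.range_nat.symm⟩
  exact Pool.Agent.H.MP_a2ec29_lc.final l' ψ hi hs
    (hr.trans Pool.Agent.H.MP_a2ec29_lc.range_nat) c hc hh

end Pool.Agent.S15144
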