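import Pool.Statements.S15156
import Pool.Agent.H.MP_a4a5b6_lc.B
-- import your own Pool.Agent.* helpers here

set_option autoImplicit false
open Pool Pool.MP_a4a5b6_lc

namespace Pool.Agent.S15156

open Pool.Agent.H.MP_a4a5b6_lc in
theorem result :
    ¬ (∀ (G : Type) [Group G] [TopologicalSpace G] [IsTopologicalGroup G] [PolishSpace G]
      [MeasurableSpace G] [BorelSpace G],
      Uncountable G →
        ∃ A B : Set G, A ∪ B = Set.univ ∧ IsMeagre A ∧
          ∃ C : Set G, MeasurableSet C ∧ B ⊆ C ∧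
            ∃ μ : MeasureTheory.Measure G, MeasureTheory.IsProbabilityMeasure μ ∧
              ∀ g h : G, μ ((fun x => g * x * h) '' C) = 0) := by
  intro H
  borelize ↥G
  obtain ⟨A, B, hAB, hA, C, -, hBC, μ, _, hμ⟩ := H G inferInstance
  obtain ⟨K, -, hK, hp⟩ := MeasurableSet.univ.exists_lt_isCompact (μ := μ) (r := 0) (by simp)
  obtain ⟨S, so, sd, sc, sub⟩ := mem_residual_iff.1 hA
  obtain ⟨U, hU⟩ := (sc.insert Set.univ).exists_eq_range (Set.insert_nonempty _ _)
  have m : ∀ k, U k = Set.univ ∨ U k ∈ S := fun k => (hU ▸ ⟨k, rfl⟩ : U k ∈ insert Set.univ S)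
  obtain ⟨g, h, e⟩ := catcher hK U
    (fun k => (m k).elim (fun e => e ▸ isOpen_univ) (so _))
    (fun k => (m k).elim (fun e => e ▸ dense_univ) (sd _))
  refine hp.ne' (MeasureTheory.measure_mono_null (fun f hf => ?_) (hμ g⁻¹ h⁻¹))
  refine ⟨g * f * h, hBC ((hAB ▸ Set.mem_univ _ : g * f * h ∈ A ∪ B).resolve_left
    (sub fun t ht => ?_)), by simp [mul_assoc]⟩
  obtain ⟨k, rfl⟩ : t ∈ Set.range U := hU ▸ Set.mem_insert_of_mem _ ht
  exact e f hf k

end Pool.Agent.S15156
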