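import Pool.Statements.S15176
import Pool.Agent.H.MP_a6df80_lc.E

set_option autoImplicit false
open Pool Pool.MP_a6df80_lc

namespace Pool.Agent.S15176

theorem result :
    ¬ (∀ (Ω : Type), Uncountable Ω → ∀ G : Subgroup (Equiv.Perm Ω),
      ((∀ f : Function.End Ω, ¬ Function.Injective (f : Ω → Ω) →
          ∀ v w : Ω, ∃ h ∈ Submonoid.closure
              ({f} ∪ {k : Function.End Ω | ∃ g ∈ G, k = ((g : Equiv.Perm Ω) : Ω → Ω)}),
            (h : Ω → Ω) v = (h : Ω → Ω) w) ↔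
       (∀ a b c d : Ω, a ≠ b → c ≠ d →
          ∃ g ∈ G, (g : Ω → Ω) '' {a, b} = {c, d}))) := by
  open Pool.Agent.H.MP_a6df80_lc in
  intro H
  obtain ⟨T, _, _, hT, r, hr⟩ := ent
  have c1 : χ r (1 : K T) = 1 := by
    rw [← map_one am, χ_am one_ne_zero, χP_unit isUnit_one]
  let G : Subgroup (Equiv.Perm (K T)) :=
    { carrier := {g | ∃ a b, a ≠ 0 ∧ χ r a = 1 ∧ ∀ x, g x = a * x + b}
      one_mem' := ⟨1, 0, one_ne_zero, c1, by simp⟩
      mul_mem' := fun ⟨a, b, h1, h2, h3⟩ ⟨a', b', h4, h5, h6⟩ => ⟨a * a', a * b' + b, mul_ne_zero h1 h4,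
        by rw [χ_mul h1 h4, h2, h5, one_mul], fun x => by rw [Equiv.Perm.mul_apply, h3, h6]; ring⟩
      inv_mem' := fun {g} ⟨a, b, h1, h2, h3⟩ => ⟨a⁻¹, -(a⁻¹ * b), inv_ne_zero h1,
        by simpa [h1, h2, c1] using (χ_mul (r := r) h1 (inv_ne_zero h1)).symm, fun x => by
          rw [Equiv.Perm.inv_eq_iff_eq, h3]; field_simp; ring⟩ }
  have tr : ∀ x y x' y' : K T, x ≠ y → x' ≠ y' → χ r (x - y) = χ r (x' - y') →
      ∃ g ∈ G, g x = x' ∧ g y = y' := fun x y x' y' h h' e => by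
    replace h := sub_ne_zero.2 h
    have a0 := div_ne_zero (sub_ne_zero.2 h') h
    refine ⟨(Equiv.mulLeft₀ _ a0).trans (Equiv.addRight (x' - (x' - y') / (x - y) * x)),
      ⟨_, _, a0, ?_, fun _ => rfl⟩, by simp, ?_⟩
    · simpa [h, e] using (χ_mul (r := r) a0 h).symm
    · simp only [Equiv.trans_apply, Equiv.mulLeft₀_apply, Equiv.coe_addRight]
      field_simp; ring
  have : Uncountable T := Cardinal.aleph0_lt_mk_iff.1 hT.un
  have := hT.nm
  obtain ⟨α, -, h⟩ := C1 hT hr (R := ∅) (A := {e | StrictMono e}) (fun γ => (ext hT ∅ γ (by simp)).imp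
    fun e h => ⟨h.2.1, h.1⟩) (fun e h => ⟨h, by simp⟩) (gg_prime 0 0) ⟨0, gg_mt _ _⟩ one_ne_zero
    (Or.inl rfl) (-1) 1
  obtain ⟨β, -, -, a1, a2, -⟩ := h (α 0)
  have a3 := (map_ne_zero_iff _ (MvPolynomial.rename_injective _ a1.injective)).2 (gg_prime 0 0).ne_zero
  rw [← χ_am a3] at a2
  refine mt (H (K T) (am_inj.comp MvPolynomial.X_injective).uncountable G).1 (fun k => ?_)
    fun f hf v w => ?_
  · obtain ⟨g, ⟨a, b, -, h2, h3⟩, e⟩ := k 0 1 0 _ zero_ne_one (am_inj.ne_iff' (map_zero _) |>.2 a3).symm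
    rw [Set.image_pair, h3, h3, Set.pair_eq_pair_iff] at e
    rcases e with ⟨e, e'⟩ | ⟨e, e'⟩
    · rw [← e', show a * 1 + b = a by linear_combination e, h2] at a2
      exact absurd a2 (by decide)
    · rw [← e, show a * 0 + b = -a by linear_combination e', χ_neg, h2] at a2
      exact absurd a2 (by decide)
  by_contra! hn
  obtain ⟨u, u', e, h⟩ := Function.not_injective_iff.1 hf
  set M := Submonoid.closure ({f} ∪ {k : Function.End (K T) | ∃ g ∈ G, k = ((g : Equiv.Perm _) : _ → _)})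
  have mf : f ∈ M := Submonoid.subset_closure (Or.inl rfl)
  have mg : ∀ g ∈ G, (show Function.End _ from (g : K T → K T)) ∈ M := fun g hg =>
    Submonoid.subset_closure (Or.inr ⟨g, hg, rfl⟩)
  have e1 : ∀ x y, x ≠ y → χ r (x - y) = χ r (v - w) → ∀ h ∈ M, h x ≠ h y := fun x y h1 h2 h hh => by
    obtain ⟨g, hg, rfl, rfl⟩ := tr v w x y (hn 1 M.one_mem) h1 h2.symm
    exact hn _ (M.mul_mem hh (mg g hg))
  have hf : ∀ x y, x ≠ y → χ r (x - y) = χ r (v - w) → f x ≠ f y ∧ χ r (f x - f y) = χ r (v - w) :=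
    fun x y h1 h2 => ⟨e1 x y h1 h2 f mf, by_contra fun h3 => by
      obtain ⟨g, hg, b1, b2⟩ := tr _ _ u u' (e1 x y h1 h2 f mf) h ((by decide : ∀ a b c : ℤˣ,
        a ≠ c → b ≠ c → a = b) _ _ _ h3 fun h4 => e1 u u' h h4 f mf e)
      exact e1 x y h1 h2 _ (M.mul_mem mf (M.mul_mem (mg g hg) mf))
        ((congrArg f b1).trans (e.trans (congrArg f b2).symm))⟩
  have n0 := mul_ne_zero ((IsFractionRing.num_eq_zero (A := P T) _).not.2 (sub_ne_zero.2 h)) (d0 (u - u'))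
  obtain ⟨g, ⟨a, b, b1, b2, b3⟩, b4, b5⟩ := tr (am _) 0 u u' (am_inj.ne_iff' (map_zero _) |>.2 n0) h
    (by rw [sub_zero, χ_am n0, χ])
  refine noinj hT hr (ε := χ r (v - w)) (f := fun x => f (g x) - f u) (fun x y h1 h2 => ?_) n0
    (by simp [b5, e]) (by simp only [b4, sub_self])
  simpa using hf _ _ (g.injective.ne h1) (by
    rw [b3, b3, add_sub_add_right_eq_sub, ← mul_sub, χ_mul b1 (sub_ne_zero.2 h1), b2, one_mul, h2])

end Pool.Agent.S15176
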