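import Pool.Statements.S15181
import Pool.Agent.Lib.helper22.Oracle

set_option autoImplicit false
open Pool Pool.MP_a7cfe9_lc

namespace Pool.Agent.S15181

open Set Filter Topology Pool.Agent.Lib.helper22

def B (k : ℕ) (σ : ℕ → ℕ) : Set (ℕ → ℕ) := {f | (∀ i < k, f i = σ i) ∧ ∀ i, σ i ≤ f i}

lemma self_mem (k : ℕ) (σ : ℕ → ℕ) : σ ∈ B k σ := ⟨fun _ _ => rfl, fun _ => le_rfl⟩

lemma B_sub {k k' : ℕ} {σ f : ℕ → ℕ} (hf : f ∈ B k σ) (h : k ≤ k') : B k' f ⊆ B k σ :=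
  fun _ hg => ⟨fun i hi => (hg.1 i (hi.trans_le h)).trans (hf.1 i hi),
    fun i => (hf.2 i).trans (hg.2 i)⟩

def bin (y : ℕ → Bool) : ℕ →. ℕ := PFun.lift fun n => (y n).toNat

def Out (e : OC) (k : ℕ) (σ : ℕ → ℕ) : Set (ℕ → Bool) :=
  {y | ∃ f ∈ B k σ, ev (PFun.lift f) e = bin y}

def X (e : OC) (k : ℕ) (τ : Fin k → ℕ) : Set (ℕ → Bool) :=
  ⋂ σ : {σ : ℕ → ℕ // ∀ i : Fin k, σ i = τ i}, closure (Out e k σ)

lemma generic (g : ℕ → ℕ) (Q : Set (ℕ → Bool))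
    (h : ∀ f : ℕ → ℕ, (∀ n, g n ≤ f n) → ∃ e, ∃ y ∈ Q, ev (PFun.lift f) e = bin y) :
    ∃ e k σ, ∀ k' σ', k ≤ k' → σ' ∈ B k σ → (Out e k' σ' ∩ Q).Nonempty := by
  by_contra H
  push Not at H
  choose K S hK hS hQ using H
  obtain ⟨e, he⟩ := exists_surjective_nat OC
  let p : ℕ → ℕ × (ℕ → ℕ) := fun n => Nat.rec (0, g)
    (fun n q => (K (e n) q.1 q.2 + 1, S (e n) q.1 q.2)) n
  have h1 : ∀ n, (p n).1 < (p (n + 1)).1 := fun n => Nat.lt_succ_of_le (hK _ _ _)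
  have h2 : ∀ n, B (p (n + 1)).1 (p (n + 1)).2 ⊆ B (p n).1 (p n).2 := fun n =>
    B_sub (hS _ _ _) (h1 n).le
  have h3 : Antitone fun n => B (p n).1 (p n).2 := antitone_nat_of_succ_le h2
  have h4 : ∀ n, n ≤ (p n).1 := (strictMono_nat_of_lt_succ h1).id_le
  let f : ℕ → ℕ := fun i => (p (i + 1)).2 i
  have h5 : ∀ i m, i + 1 ≤ m → f i = (p m).2 i := fun i m hm =>
    ((h3 hm (self_mem _ _)).1 i (h4 (i + 1))).symm
  have h6 : ∀ n, f ∈ B (p n).1 (p n).2 := by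
    intro n
    have h7 : ∀ i, (p (max n (i + 1))).2 ∈ B (p n).1 (p n).2 := fun i =>
      h3 (le_max_left _ _) (self_mem _ _)
    exact ⟨fun i hi => (h5 i _ (le_max_right _ _)).trans ((h7 i).1 i hi),
      fun i => (h5 i _ (le_max_right _ _)).symm ▸ (h7 i).2 i⟩
  obtain ⟨c, y, hy, hc⟩ := h f (h6 0).2
  obtain ⟨n, rfl⟩ := he c
  have h8 : f ∈ B (K (e n) (p n).1 (p n).2) (S (e n) (p n).1 (p n).2) :=
    B_sub (self_mem _ _) (Nat.le_succ _) (h6 (n + 1))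
  have h9 : y ∈ Out (e n) _ _ ∩ Q := ⟨⟨f, h8, hc⟩, hy⟩
  rw [hQ] at h9
  exact h9

theorem result :
    ∃ P : Set (ℕ → ℕ), IsClosed P ∧
      ∀ Q : Set (ℕ → Bool), IsClosed Q →
        ¬ ((∀ x ∈ P, ∃ y ∈ Q,
              TuringReducible (PFun.lift (fun n => (y n).toNat)) (PFun.lift x)) ∧
           (∀ y ∈ Q, ∃ x ∈ P,
              TuringReducible (PFun.lift x) (PFun.lift (fun n => (y n).toNat)))) := by
  classical
  let x : (e : OC) → (k : ℕ) → (Fin k → ℕ) → ℕ → Bool := fun e k τ =>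
    if h : (X e k τ).Nonempty then h.some else fun _ => false
  obtain ⟨s, hs⟩ := exists_surjective_nat (OC × OC × Σ k : ℕ, Fin k → ℕ)
  let g : ℕ → ℕ := fun n =>
    (ev (bin (x (s n).2.1 (s n).2.2.1 (s n).2.2.2)) (s n).1 n).toOption.getD 0 + 1
  refine ⟨{f | ∀ n, g n ≤ f n}, ?_, ?_⟩
  · simp only [ofPred_forall]
    exact isClosed_iInter fun n => isClosed_le continuous_const (continuous_apply n)
  rintro Q hQ ⟨h1, h2⟩
  obtain ⟨e, k, σ, h⟩ := generic g Q fun f hf => by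
    obtain ⟨y, hy, h⟩ := h1 f hf
    obtain ⟨c, hc⟩ := turingReducible_iff.1 h
    exact ⟨c, y, hy, hc⟩
  have hsub : Out e k σ ⊆ Q := by
    rintro y ⟨f, hf, hy⟩
    have key : ∀ n, ∃ y' ∈ Q, ∀ i < n, y' i = y i := by
      intro n
      have h3 : ∀ i, ∃ N, ∀ f' : ℕ → ℕ, (∀ j < N, f' j = f j) →
          (y i).toNat ∈ ev (PFun.lift f') e i := fun i =>
        ev_use f e i _ (by rw [hy]; simp [bin])
      choose N hN using h3
      obtain ⟨y', ⟨f', hf', hy'⟩, hQ'⟩ :=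
        h (max k ((Finset.range n).sup N)) f (le_max_left _ _) hf
      refine ⟨y', hQ', fun i hi => ?_⟩
      have h4 := hN i f' fun j hj => hf'.1 j (hj.trans_le
        ((Finset.le_sup (f := N) (Finset.mem_range.2 hi)).trans (le_max_right _ _)))
      rw [hy'] at h4
      simp only [bin, PFun.coe_val, Part.mem_some_iff] at h4
      revert h4
      cases y i <;> cases y' i <;> simp
    choose z hz hz2 using key
    refine hQ.mem_of_tendsto (f := z) (b := atTop) ?_ (Eventually.of_forall hz)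
    rw [tendsto_pi_nhds]
    intro i
    refine tendsto_const_nhds.congr' ?_
    filter_upwards [eventually_gt_atTop i] with n hn
    exact (hz2 n i hn).symm
  let τ : Fin k → ℕ := fun i => σ i
  have hne : (X e k τ).Nonempty := by
    haveI : Nonempty {σ : ℕ → ℕ // ∀ i : Fin k, σ i = τ i} := ⟨⟨σ, fun _ => rfl⟩⟩
    have hmax : ∀ a b : {σ : ℕ → ℕ // ∀ i : Fin k, σ i = τ i},
        ∃ c : {σ : ℕ → ℕ // ∀ i : Fin k, σ i = τ i}, c.1 ∈ B k a.1 ∧ c.1 ∈ B k b.1 := by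
      intro a b
      refine ⟨⟨fun i => max (a.1 i) (b.1 i), fun i => by simp [a.2 i, b.2 i]⟩,
        ⟨fun i hi => ?_, fun i => le_max_left _ _⟩, fun i hi => ?_, fun i => le_max_right _ _⟩
      · simp [a.2 ⟨i, hi⟩, b.2 ⟨i, hi⟩]
      · simp [a.2 ⟨i, hi⟩, b.2 ⟨i, hi⟩]
    have hmono : ∀ a b : ℕ → ℕ, a ∈ B k b → Out e k a ⊆ Out e k b := by
      rintro a b hab y ⟨f, hf, hy⟩
      exact ⟨f, B_sub hab le_rfl hf, hy⟩
    refine IsCompact.nonempty_iInter_of_directed_nonempty_isCompact_isClosed _ ?_ ?_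
      (fun _ => isClosed_closure.isCompact) fun _ => isClosed_closure
    · intro a b
      obtain ⟨c, h3, h4⟩ := hmax a b
      exact ⟨c, closure_mono (hmono _ _ h3), closure_mono (hmono _ _ h4)⟩
    · intro a
      obtain ⟨c, h3, h4⟩ := hmax a ⟨σ, fun _ => rfl⟩
      obtain ⟨y, hy, -⟩ := h k c.1 le_rfl h4
      exact ⟨y, subset_closure (hmono _ _ h3 hy)⟩
  have hx : x e k τ ∈ Q := by
    have h3 : x e k τ ∈ X e k τ := by
      simp only [x, dif_pos hne]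
      exact hne.some_mem
    exact closure_minimal hsub hQ (mem_iInter.1 h3 ⟨σ, fun _ => rfl⟩)
  obtain ⟨f, hf, h3⟩ := h2 _ hx
  obtain ⟨c, hc⟩ := turingReducible_iff.1 h3
  obtain ⟨n, hn⟩ := hs (c, e, ⟨k, τ⟩)
  have h4 : g n = f n + 1 := by
    simp only [g]
    rw [hn]
    have : ev (bin (x e k τ)) c = PFun.lift f := hc
    simp [this, Part.toOption]
  have h5 : g n ≤ f n := hf n
  omega

end Pool.Agent.S15181
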