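import Pool.Statements.S15186
import Pool.Agent.H.MP_a8f5d0_lc.B

set_option autoImplicit false
open Pool Pool.MP_a8f5d0_lc

namespace Pool.Agent.S15186



theorem result :
    ¬ (∀ ε α β : ℝ, 0 < ε → ε < 1 → 0 < α → α < 1 → 0 < β → β < 1 →
  ∃ s : ℕ, ∀ n m : ℕ, ∀ supply : Fin m → ℕ, (∀ j, s ≤ supply j) →
  ∃ M : (Fin n → Finset (Fin m) → ℝ) → PMF (Fin n → Finset (Fin m)),
    (∀ v : Fin n → Finset (Fin m) → ℝ,
      (∀ i, (∀ S, 0 ≤ v i S ∧ v i S ≤ 1) ∧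
        ∀ p q : Fin m → ℝ, p ≤ q → ∀ S : Finset (Fin m),
          (∀ T : Finset (Fin m), v i T - ∑ j ∈ T, p j ≤ v i S - ∑ j ∈ S, p j) →
          ∃ T : Finset (Fin m),
            (∀ U : Finset (Fin m), v i U - ∑ j ∈ U, q j ≤ v i T - ∑ j ∈ T, q j) ∧
            ∀ j ∈ S, q j = p j → j ∈ T) →
      (∀ ω ∈ (M v).support, ∀ j : Fin m,
          (Finset.univ.filter (fun k : Fin n => j ∈ ω k)).card ≤ supply j) ∧
      (M v).toOuterMeasure {ω | ∀ ω' : Fin n → Finset (Fin m),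
          (∀ j : Fin m, (Finset.univ.filter (fun k : Fin n => j ∈ ω' k)).card ≤ supply j) →
          ∑ k, v k (ω' k) - α * (n : ℝ) ≤ ∑ k, v k (ω k)} ≥ ENNReal.ofReal (1 - β)) ∧
    (∀ v : Fin n → Finset (Fin m) → ℝ,
      (∀ i, (∀ S, 0 ≤ v i S ∧ v i S ≤ 1) ∧
        ∀ p q : Fin m → ℝ, p ≤ q → ∀ S : Finset (Fin m),
          (∀ T : Finset (Fin m), v i T - ∑ j ∈ T, p j ≤ v i S - ∑ j ∈ S, p j) →
          ∃ T : Finset (Fin m),
            (∀ U : Finset (Fin m), v i U - ∑ j ∈ U, q j ≤ v i T - ∑ j ∈ T, q j) ∧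
            ∀ j ∈ S, q j = p j → j ∈ T) →
      ∀ (i : Fin n) (w : Finset (Fin m) → ℝ),
      ((∀ S, 0 ≤ w S ∧ w S ≤ 1) ∧
        ∀ p q : Fin m → ℝ, p ≤ q → ∀ S : Finset (Fin m),
          (∀ T : Finset (Fin m), w T - ∑ j ∈ T, p j ≤ w S - ∑ j ∈ S, p j) →
          ∃ T : Finset (Fin m),
            (∀ U : Finset (Fin m), w U - ∑ j ∈ U, q j ≤ w T - ∑ j ∈ T, q j) ∧
            ∀ j ∈ S, q j = p j → j ∈ T) →
      ∀ S : Set ({k : Fin n // k ≠ i} → Finset (Fin m)),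
        (M v).toOuterMeasure {ω | (fun k : {k : Fin n // k ≠ i} => ω k.1) ∈ S} ≤
          ENNReal.ofReal (Real.exp ε) *
            (M (Function.update v i w)).toOuterMeasure
              {ω | (fun k : {k : Fin n // k ≠ i} => ω k.1) ∈ S})) := by
  intro h
  obtain ⟨s, hs⟩ := h (1 / 12) (1 / 64) (1 / 8) (by norm_num) (by norm_num) (by norm_num)
    (by norm_num) (by norm_num) (by norm_num)
  obtain ⟨M, h1, h2⟩ := hs (2 ^ (s + 18) * (4 * (s + 18) * 2)) (2 ^ (s + 18))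
    (fun _ => 4 * (s + 18)) (fun _ => by omega)
  refine Pool.Agent.H.MP_a8f5d0_lc.robust (s + 18) (2 ^ (s + 18)) (by omega) le_rfl M ?_ h2
  intro v hv
  obtain ⟨h3, h4⟩ := h1 v hv
  refine le_trans h4 (PMF.toOuterMeasure_mono _ ?_)
  rintro ω ⟨h5, h6⟩
  exact ⟨h3 ω h6, h5⟩

end Pool.Agent.S15186
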