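import Pool.Statements.S15235
import Pool.Agent.H.MP_b0cc33_lc.Main

set_option autoImplicit false
open Pool Pool.MP_b0cc33_lc Pool.Agent.H.MP_b0cc33_lc UniformSpace

namespace Pool.Agent.S15235

theorem result :
    ∀ (n : ℕ) (N : Subgroup (FreeGroup (Fin n))), N.Normal →
      REPred (fun w : List (Fin n × Bool) => FreeGroup.mk w ∉ N) →
      ∃ (X : Type) (_ : MetricSpace X) (_ : CompleteSpace X) (s : ℕ → X),
        DenseRange s ∧
        (∃ q : ℕ × ℕ × ℕ → ℕ, Computable q ∧
          ∀ i j k : ℕ, |dist (s i) (s j) - (q (i, j, k) : ℝ) / 2 ^ k| ≤ 1 / 2 ^ k) ∧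
        ∃ φ : FreeGroup (Fin n) →* (X ≃ᵢ X), φ.ker = N ∧
          ∀ g : FreeGroup (Fin n), ∃ h : ℕ × ℕ → ℕ, Computable h ∧
            ∀ i k : ℕ, dist (φ g (s i)) (s (h (i, k))) ≤ 1 / 2 ^ k := by
  intro n N hN hre
  obtain ⟨l, l1, l2, l3, l4, q, q1, q2⟩ := exists_length N hre
  let up : FreeGroup (Fin n) → Sp n := id
  let dn : Sp n → FreeGroup (Fin n) := id
  let _ : PseudoMetricSpace (Sp n) :=
    { dist := fun x y => l ((dn x)⁻¹ * dn y)
      dist_self := fun x => by simp only [inv_mul_cancel, l1]
      dist_comm := fun x y => by rw [← l2]; simp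
      dist_triangle := fun x y z => by
        have := l3 ((dn x)⁻¹ * dn y) ((dn y)⁻¹ * dn z)
        simpa [mul_assoc] using this }
  have hd : ∀ x y : FreeGroup (Fin n), dist (up x) (up y) = l (x⁻¹ * y) := fun _ _ => rfl
  let lm : FreeGroup (Fin n) → Sp n → Sp n := fun g x => up (g * dn x)
  have hi : ∀ g, Isometry (lm g) := fun g => Isometry.of_dist_eq fun x y => by
    show l ((g * dn x)⁻¹ * (g * dn y)) = l ((dn x)⁻¹ * dn y)
    simp [mul_assoc]
  have hc : ∀ g (x : Sp n),
      Completion.map (lm g) (x : Completion (Sp n)) = (lm g x : Completion (Sp n)) :=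
    fun g x => Completion.map_coe (hi g).uniformContinuous x
  have hm : ∀ g h x, Completion.map (lm g) (Completion.map (lm h) x) =
      Completion.map (lm (g * h)) x := by
    intro g h x
    refine Completion.induction_on x (isClosed_eq
      (Completion.continuous_map.comp Completion.continuous_map) Completion.continuous_map) ?_
    intro a
    rw [hc, hc, hc]
    congr 1
    exact (mul_assoc g h (dn a)).symm
  have h1 : ∀ x, Completion.map (lm 1) x = x := by
    intro x
    refine Completion.induction_on x (isClosed_eq Completion.continuous_map continuous_id) ?_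
    intro a
    rw [hc]
    congr 1
    exact one_mul (dn a)
  let φ : FreeGroup (Fin n) →* (Completion (Sp n) ≃ᵢ Completion (Sp n)) :=
    { toFun := fun g =>
        { toFun := Completion.map (lm g)
          invFun := Completion.map (lm g⁻¹)
          left_inv := fun x => by rw [hm, inv_mul_cancel, h1]
          right_inv := fun x => by rw [hm, mul_inv_cancel, h1]
          isometry_toFun := (hi g).completion_map }
      map_one' := IsometryEquiv.ext h1
      map_mul' := fun g h => IsometryEquiv.ext fun x => (hm g h x).symm }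
  have hφ : ∀ g x, φ g x = Completion.map (lm g) x := fun _ _ => rfl
  have hdec : ∀ w : W n, dec n (Encodable.encode w) = w := fun w => by simp [dec]
  refine ⟨Completion (Sp n), inferInstance, inferInstance,
    fun i => (up (FreeGroup.mk (dec n i)) : Completion (Sp n)), ?_,
    ⟨fun y => q (Encodable.encode (FreeGroup.invRev (dec n y.1) ++ dec n y.2.1), y.2.2), ?_,
      fun i j k => ?_⟩, φ, ?_, fun g => ⟨fun y => Encodable.encode (g.toWord ++ dec n y.1), ?_,
      fun i k => ?_⟩⟩
  · refine Completion.denseRange_coe.comp (Function.Surjective.denseRange fun x => ?_)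
      (Completion.continuous_coe _)
    exact ⟨Encodable.encode (dn x).toWord, by simp only [hdec, FreeGroup.mk_toWord]; rfl⟩
  · exact q1.comp (Primrec.pair (Primrec.encode.comp (Primrec.list_append.comp
      (p_inv.comp (p_dec.comp Primrec.fst)) (p_dec.comp (Primrec.fst.comp Primrec.snd))))
      (Primrec.snd.comp Primrec.snd)).to_comp
  · have := q2 (Encodable.encode (FreeGroup.invRev (dec n i) ++ dec n j)) k
    rw [hdec, ← FreeGroup.mul_mk, ← FreeGroup.inv_mk] at this
    rw [Completion.dist_eq, hd]
    exact this
  · ext g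
    rw [MonoidHom.mem_ker]
    constructor
    · intro h
      have a1 : φ g (up 1 : Completion (Sp n)) = (up 1 : Completion (Sp n)) := by rw [h]; rfl
      rw [hφ, hc, ← dist_eq_zero, Completion.dist_eq] at a1
      have a2 : l ((g * 1)⁻¹ * 1) = 0 := a1
      simpa using (l4 _).mp a2
    · intro h
      refine IsometryEquiv.ext fun x => ?_
      rw [hφ]
      refine Completion.induction_on x (isClosed_eq Completion.continuous_map continuous_id) ?_
      intro a
      rw [hc]
      show _ = (a : Completion (Sp n))
      rw [← dist_eq_zero, Completion.dist_eq]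
      show l ((g * dn a)⁻¹ * dn a) = 0
      rw [l4]
      simpa [mul_assoc] using hN.conj_mem _ (N.inv_mem h) (dn a)⁻¹
  · exact (Primrec.encode.comp (Primrec.list_append.comp (Primrec.const _)
      (p_dec.comp Primrec.fst))).to_comp
  · beta_reduce
    rw [hφ, hc, hdec, ← FreeGroup.mul_mk, FreeGroup.mk_toWord]
    show dist ((up (g * FreeGroup.mk (dec n i)) : Completion (Sp n))) _ ≤ _
    rw [dist_self]
    positivity

end Pool.Agent.S15235
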