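import Pool.Statements.S15245
import Pool.Agent.H.MP_b25485_lc.B

set_option autoImplicit false
open Pool Pool.MP_b25485_lc

namespace Pool.Agent.S15245

open Pool.Agent.H.MP_b25485_lc in
theorem pre {α : Type} (X : ℕ → α) (k n : ℕ) :
    (List.ofFn fun i : Fin k => X i) <+: (List.ofFn fun i : Fin (n + k) => X i) := by
  induction n with
  | zero =>
    have : (List.ofFn fun i : Fin (0 + k) => X i) = List.ofFn fun i : Fin k => X i := by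
      rw [Nat.zero_add]
    rw [this]
  | succ n ih =>
    have : (List.ofFn fun i : Fin (n + 1 + k) => X i) = List.ofFn fun i : Fin (n + k + 1) => X i := by
      rw [Nat.add_right_comm]
    rw [this, List.ofFn_succ_last]
    simp only [Fin.val_castSucc]
    exact ih.trans (List.prefix_append _ _)

theorem result :
  ∀ (F : Type) [Field F] [Countable F] [Infinite F] (𝓕 : Filter (ℕ →₀ F)),
    𝓕.NeBot →
    ({0}ᶜ : Set (ℕ →₀ F)) ∈ 𝓕 →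
    (∀ V : Submodule F (ℕ →₀ F), FiniteDimensional F ((ℕ →₀ F) ⧸ V) →
        ((V : Set (ℕ →₀ F)) \ {0}) ∈ 𝓕) →
    (∀ A ∈ 𝓕, ∃ X : ℕ → (ℕ →₀ F),
        (∀ n, X n ≠ 0 ∧ ∀ i ∈ (X n).support, ∀ j ∈ (X (n+1)).support, i < j) ∧
        ((Submodule.span F (Set.range X) : Set (ℕ →₀ F)) \ {0}) ∈ 𝓕 ∧
        ((Submodule.span F (Set.range X) : Set (ℕ →₀ F)) \ {0}) ⊆ A) →
    (∀ D : Set (ℕ →₀ F),
        (∀ X : ℕ → (ℕ →₀ F),
          (∀ n, X n ≠ 0 ∧ ∀ i ∈ (X n).support, ∀ j ∈ (X (n+1)).support, i < j) →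
          ((Submodule.span F (Set.range X) : Set (ℕ →₀ F)) \ {0}) ∈ 𝓕 →
          ∃ V : Submodule F (ℕ →₀ F), ¬ FiniteDimensional F V ∧
            ((V : Set (ℕ →₀ F)) \ {0}) ⊆ ((Submodule.span F (Set.range X) : Set (ℕ →₀ F)) \ {0}) ∧
            ((V : Set (ℕ →₀ F)) \ {0}) ⊆ D) →
        D ∈ 𝓕) →
    (∀ Xs : ℕ → ℕ → (ℕ →₀ F),
        (∀ m, (∀ n, Xs m n ≠ 0 ∧ ∀ i ∈ (Xs m n).support, ∀ j ∈ (Xs m (n+1)).support, i < j) ∧
          ((Submodule.span F (Set.range (Xs m)) : Set (ℕ →₀ F)) \ {0}) ∈ 𝓕) →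
        ∃ X : ℕ → (ℕ →₀ F),
          (∀ n, X n ≠ 0 ∧ ∀ i ∈ (X n).support, ∀ j ∈ (X (n+1)).support, i < j) ∧
          ((Submodule.span F (Set.range X) : Set (ℕ →₀ F)) \ {0}) ∈ 𝓕 ∧
          ∀ m, ∃ k : ℕ, Submodule.span F (Set.range (fun n : ℕ => X (n + k))) ≤
            Submodule.span F (Set.range (Xs m))) →
    (∀ Y : List (ℕ →₀ F) → ℕ → (ℕ →₀ F),
        (∀ l, (∀ n, Y l n ≠ 0 ∧ ∀ i ∈ (Y l n).support, ∀ j ∈ (Y l (n+1)).support, i < j) ∧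
          ((Submodule.span F (Set.range (Y l)) : Set (ℕ →₀ F)) \ {0}) ∈ 𝓕) →
        ∃ X : ℕ → (ℕ →₀ F),
          (∀ n, X n ≠ 0 ∧ ∀ i ∈ (X n).support, ∀ j ∈ (X (n+1)).support, i < j) ∧
          ((Submodule.span F (Set.range X) : Set (ℕ →₀ F)) \ {0}) ∈ 𝓕 ∧
          ∀ k : ℕ, Submodule.span F (Set.range (fun n : ℕ => X (n + k))) ≤
            Submodule.span F (Set.range (Y (List.ofFn (fun i : Fin k => X i.val))))) := by
  intro F _ _ _ 𝓕 _ _ _ hb hf _ Y hY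
  obtain ⟨X, h1, h2, h3⟩ := H.MP_b25485_lc.str_inf (𝓕 := 𝓕) hb hf
    (fun s => ⋂ t ∈ {t | t ∈ s.inits}, H.MP_b25485_lc.Sp (Y t))
    (fun s => (Filter.biInter_mem (List.finite_toSet _)).2 fun t _ => (hY t).2)
  refine ⟨X, h1, h2, fun k => Submodule.span_le.2 ?_⟩
  rintro _ ⟨n, rfl⟩
  exact (Set.mem_iInter₂.1 (h3 (n + k)) _ ((List.mem_inits _ _).2 (pre X k n))).1

end Pool.Agent.S15245
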