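import Pool.Statements.S15251

set_option autoImplicit false
open Pool Pool.MP_b29fea_lc

namespace Pool.Agent.S15251

open Ordinal Set

/-- S contains a subset of order type γ. -/
def T (S : Set Ordinal.{0}) (γ : Ordinal.{0}) : Prop :=
  ∃ s : Ordinal.{0} → Ordinal.{0}, StrictMonoOn s (Iio γ) ∧ ∀ x < γ, s x ∈ S

theorem T.mono {S S' : Set Ordinal.{0}} {γ γ' : Ordinal.{0}} (h : T S γ) (hS : S ⊆ S')
    (hγ : γ' ≤ γ) : T S' γ' := by
  obtain ⟨s, h1, h2⟩ := h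
  exact ⟨s, h1.mono (Iio_subset_Iio hγ), fun x hx => hS (h2 x (hx.trans_le hγ))⟩

theorem T.add {S S' : Set Ordinal.{0}} {γ γ' : Ordinal.{0}} (h : T S γ) (h' : T S' γ')
    (hlt : ∀ a ∈ S, ∀ b ∈ S', a < b) : T (S ∪ S') (γ + γ') := by
  classical
  obtain ⟨s, h1, h2⟩ := h
  obtain ⟨t, h3, h4⟩ := h'
  have key : ∀ x, x < γ + γ' → ¬ x < γ → x - γ < γ' := by
    intro x hx hn
    rw [← Ordinal.add_sub_cancel_of_le (not_lt.1 hn)] at hx
    exact lt_of_add_lt_add_left hx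
  refine ⟨fun x => if x < γ then s x else t (x - γ), ?_, ?_⟩
  · intro x hx y hy hxy
    by_cases h5 : x < γ <;> by_cases h6 : y < γ
    · simp only [h5, h6, if_true]
      exact h1 h5 h6 hxy
    · simp only [h5, h6, if_true, if_false]
      exact hlt _ (h2 x h5) _ (h4 _ (key y hy h6))
    · exact absurd (hxy.trans h6) h5
    · simp only [h5, h6, if_false]
      apply h3 (key x hx h5) (key y hy h6)
      rw [← Ordinal.add_sub_cancel_of_le (not_lt.1 h5),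
        ← Ordinal.add_sub_cancel_of_le (not_lt.1 h6)] at hxy
      exact lt_of_add_lt_add_left hxy
  · intro x hx
    by_cases h5 : x < γ
    · simp only [h5, if_true]
      exact Or.inl (h2 x h5)
    · simp only [h5, if_false]
      exact Or.inr (h4 _ (key x hx h5))

theorem T.sup {S : Set Ordinal.{0}} {γ B : Ordinal.{0}} (hB : ∀ a ∈ S, a < B)
    (h : ∀ x < γ, T S (x + 1)) : T S γ := by
  have hU : ¬ BddAbove (S ∪ Ici B) := fun hb => not_bddAbove_Ici B (hb.mono subset_union_right)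
  refine ⟨enumOrd (S ∪ Ici B), (enumOrd_strictMono hU).strictMonoOn _, ?_⟩
  intro x hx
  obtain ⟨s, h1, h2⟩ := h x hx
  have key : ∀ y, y < x + 1 → enumOrd (S ∪ Ici B) y ≤ s y := by
    intro y
    induction y using WellFoundedLT.induction with
    | ind y ih =>
      intro hy
      apply enumOrd_le_of_forall_lt (Or.inl (h2 y hy))
      intro b hb
      exact (ih b hb (hb.trans hy)).trans_lt (h1 (hb.trans hy) hy hb)
  have h3 := (key x (lt_add_one x)).trans_lt (hB _ (h2 x (lt_add_one x)))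
  rcases enumOrd_mem hU x with h4 | h4
  · exact h4
  · exact absurd h3 (not_lt.2 h4)

theorem rec_seq {α : Type*} (Q : ℕ → α → Prop) (r : ℕ → α → α → Prop)
    (h : ∀ (n : ℕ) (s : Finset α), ∃ y, Q n y ∧ ∀ x ∈ s, r n x y) :
    ∃ f : ℕ → α, ∀ n, Q n (f n) ∧ ∀ m < n, r n (f m) (f n) := by
  classical
  choose φ h1 h2 using h
  let L : ℕ → Finset α := fun n => Nat.rec ∅ (fun n s => insert (φ n s) s) n
  have hL : ∀ n, L (n + 1) = insert (φ n (L n)) (L n) := fun n => rfl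
  have hm : ∀ n m, m < n → φ m (L m) ∈ L n := by
    intro n
    induction n with
    | zero => intro m hm; omega
    | succ n ih =>
      intro m hm
      rw [hL]
      rcases Nat.lt_succ_iff_lt_or_eq.1 hm with h | rfl
      · exact Finset.mem_insert_of_mem (ih m h)
      · exact Finset.mem_insert_self _ _
  exact ⟨fun n => φ n (L n), fun n => ⟨h1 _ _, fun m hmn => h2 _ _ _ (hm n m hmn)⟩⟩

theorem fin_bound (F : Finset Ordinal.{0}) (D y : Ordinal.{0}) (hy : y < D) :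
    ∃ n, y ≤ n ∧ n < D ∧ ∀ b ∈ F, b < D → b ≤ n := by
  classical
  induction F using Finset.induction_on with
  | empty => exact ⟨y, le_rfl, hy, by simp⟩
  | insert a F _ ih =>
    obtain ⟨n, h1, h2, h3⟩ := ih
    by_cases ha : a < D
    · refine ⟨max n a, h1.trans (le_max_left _ _), max_lt h2 ha, ?_⟩
      intro b hb hbD
      rcases Finset.mem_insert.1 hb with rfl | hb
      · exact le_max_right _ _
      · exact (h3 b hb hbD).trans (le_max_left _ _)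
    · refine ⟨n, h1, h2, ?_⟩
      intro b hb hbD
      rcases Finset.mem_insert.1 hb with rfl | hb
      · exact absurd hbD ha
      · exact h3 b hb hbD

/-- A down-up matching below α whose lower side has type ω ^ k. -/
def Mat (G : SimpleGraph Ordinal.{0}) (α : Ordinal.{0}) (k : ℕ) : Prop :=
  ∃ A B : Set Ordinal.{0}, A ⊆ Set.Iio α ∧ B ⊆ Set.Iio α ∧ (∀ a ∈ A, ∀ b ∈ B, a < b) ∧
    Nonempty (A ≃o Set.Iio (Ordinal.omega0 ^ ((k : ℕ) : Ordinal.{0}))) ∧
    ∃ f : A ≃ B, ∀ a : A, G.Adj (a : Ordinal.{0}) (f a : Ordinal.{0})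

/-- The interval [z, x) keeps sending edges to new points of [y, α) cofinally in x. -/
def Lim (G : SimpleGraph Ordinal.{0}) (α y z x : Ordinal.{0}) : Prop :=
  z < x ∧ ∀ y' < x, ∀ F : Finset Ordinal.{0}, ∃ a b, y' < a ∧ z ≤ a ∧ a < x ∧ y ≤ b ∧ b < α ∧
    b ∉ F ∧ G.Adj a b

theorem lim_or (G : SimpleGraph Ordinal.{0}) (α y z z' : Ordinal.{0}) :
    (∃ x ≤ z', Lim G α y z x) ∨ ∃ E F : Finset Ordinal.{0}, ∀ a b, z ≤ a → a < z' → a ∉ E →
      y ≤ b → b < α → G.Adj a b → b ∈ F := by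
  classical
  induction z' using WellFoundedLT.induction with
  | ind z' ih =>
    by_cases h : Lim G α y z z'
    · exact Or.inl ⟨z', le_rfl, h⟩
    by_cases hz : z < z'
    swap
    · exact Or.inr ⟨∅, ∅, fun a b h1 h2 => absurd (h1.trans_lt h2) hz⟩
    unfold Lim at h
    push Not at h
    obtain ⟨y', hy', F, hF⟩ := h hz
    rcases ih y' hy' with ⟨x, hx, hl⟩ | ⟨E, F', hE⟩
    · exact Or.inl ⟨x, hx.trans hy'.le, hl⟩
    · refine Or.inr ⟨insert y' E, F ∪ F', ?_⟩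
      intro a b h1 h2 h3 h4 h5 h6
      rw [Finset.mem_insert, not_or] at h3
      rcases lt_or_gt_of_ne h3.1 with h7 | h7
      · exact Finset.mem_union_right _ (hE a b h1 h7 h3.2 h4 h5 h6)
      · by_contra h8
        exact hF a b h7 h1 h2 h4 h5 (fun h9 => h8 (Finset.mem_union_left _ h9)) h6

theorem countable_Iio (K : ℕ) : (Iio (ω ^ (K : Ordinal.{0}))).Countable := by
  rw [← Cardinal.le_aleph0_iff_set_countable, Cardinal.mk_Iio_ordinal, Cardinal.lift_le_aleph0]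
  refine (card_opow_le_of_omega0_le_left le_rfl _).trans ?_
  simp

theorem mat_of (G : SimpleGraph Ordinal.{0}) (α y : Ordinal.{0}) (K : ℕ) (hy : y ≤ α)
    (z x : Ordinal.{0} → Ordinal.{0})
    (hl : ∀ ξ < ω ^ (K : Ordinal.{0}), Lim G α y (z ξ) (x ξ) ∧ x ξ ≤ y)
    (hzx : ∀ ξ ξ', ξ < ξ' → ξ' < ω ^ (K : Ordinal.{0}) → x ξ ≤ z ξ') : Mat G α (K + 1) := by
  classical
  obtain ⟨dec, hdec⟩ := (countable_Iio K).exists_eq_range ⟨0, opow_pos _ omega0_pos⟩
  have hd : ∀ n, dec n < ω ^ (K : Ordinal.{0}) := fun n => by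
    have : dec n ∈ range dec := mem_range_self n
    rw [← hdec] at this
    exact this
  have henc : ∀ ξ : Ordinal.{0}, ∃ n : ℕ, ξ < ω ^ (K : Ordinal.{0}) → dec n = ξ := by
    intro ξ
    by_cases h : ξ < ω ^ (K : Ordinal.{0})
    · have : ξ ∈ range dec := by rw [← hdec]; exact h
      obtain ⟨n, hn⟩ := this
      exact ⟨n, fun _ => hn⟩
    · exact ⟨0, fun h' => absurd h' h⟩
  choose enc henc using henc
  obtain ⟨f, hf⟩ := rec_seq (α := Ordinal.{0} × Ordinal.{0})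
    (fun n p => z (dec n.unpair.1) ≤ p.1 ∧ p.1 < x (dec n.unpair.1) ∧ y ≤ p.2 ∧ p.2 < α ∧
      G.Adj p.1 p.2)
    (fun n q p => (q.1 < x (dec n.unpair.1) → q.1 < p.1) ∧ q.2 ≠ p.2) (by
      intro n s
      obtain ⟨⟨h1, h2⟩, -⟩ := hl _ (hd n.unpair.1)
      obtain ⟨m, -, h4, h5⟩ := fin_bound (s.image Prod.fst) _ _ h1
      obtain ⟨a, b, h6, h7, h8, h9, h10, h11, h12⟩ := h2 m h4 (s.image Prod.snd)
      refine ⟨(a, b), ⟨h7, h8, h9, h10, h12⟩, ?_⟩
      intro q hq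
      refine ⟨fun h => (h5 _ (Finset.mem_image_of_mem _ hq) h).trans_lt h6, ?_⟩
      intro h
      exact h11 (Finset.mem_image.2 ⟨q, hq, h⟩))
  have hnat : ∀ o : Ordinal.{0}, ∃ n : ℕ, o % ω = n := fun o =>
    lt_omega0.1 (mod_lt o omega0_ne_zero)
  choose nt hnt using hnat
  have hW : ω ^ (((K + 1 : ℕ)) : Ordinal.{0}) = ω * ω ^ (K : Ordinal.{0}) := by
    rw [add_comm K 1, Nat.cast_add, opow_add, Nat.cast_one, opow_one]
  let code : Iio (ω ^ (((K + 1 : ℕ)) : Ordinal.{0})) → ℕ := fun o =>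
    Nat.pair (enc (o.1 / ω)) (nt o.1)
  have hq : ∀ o : Iio (ω ^ (((K + 1 : ℕ)) : Ordinal.{0})), o.1 / ω < ω ^ (K : Ordinal.{0}) := by
    intro o
    rw [div_lt omega0_ne_zero, ← hW]
    exact o.2
  have hcode : ∀ o, dec (code o).unpair.1 = o.1 / ω := by
    intro o
    simp only [code, Nat.unpair_pair]
    exact henc _ (hq o)
  have hsa : StrictMono (fun o => (f (code o)).1) := by
    intro o o' hoo
    have hle : o.1 / ω ≤ o'.1 / ω := div_le_left (le_of_lt hoo) ω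
    have h1 := (hf (code o)).1
    have h2 := (hf (code o')).1
    rw [hcode] at h1 h2
    rcases hle.lt_or_eq with hlt | heq
    · exact (h1.2.1.trans_le (hzx _ _ hlt (hq o'))).trans_le h2.1
    · have h3 : nt o.1 < nt o'.1 := by
        have h4 : (o.1 : Ordinal.{0}) < o'.1 := hoo
        rw [← div_add_mod o.1 ω, ← div_add_mod o'.1 ω, heq, hnt, hnt] at h4
        exact_mod_cast lt_of_add_lt_add_left h4
      have h5 : code o < code o' := by
        simp only [code, heq]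
        exact Nat.pair_lt_pair_right _ h3
      have h6 := ((hf (code o')).2 _ h5).1
      rw [hcode, ← heq] at h6
      exact h6 h1.2.1
  have hci : Function.Injective code := by
    intro o o' h
    apply hsa.injective
    simp only [h]
  have hsb : Function.Injective (fun o => (f (code o)).2) := by
    intro o o' h
    apply hci
    by_contra hne
    rcases lt_or_gt_of_ne hne with hlt | hlt
    · exact ((hf _).2 _ hlt).2 h
    · exact ((hf _).2 _ hlt).2 h.symm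
  have hay : ∀ o, (f (code o)).1 < y := by
    intro o
    exact (hf (code o)).1.2.1.trans_le (hl _ (hd _)).2
  refine ⟨range (fun o => (f (code o)).1), range (fun o => (f (code o)).2), ?_, ?_, ?_,
    ⟨(hsa.orderIso _).symm⟩,
    (Equiv.ofInjective _ hsa.injective).symm.trans (Equiv.ofInjective _ hsb), ?_⟩
  · rintro _ ⟨o, rfl⟩
    exact (hay o).trans_le hy
  · rintro _ ⟨o, rfl⟩
    exact (hf (code o)).1.2.2.2.1
  · rintro _ ⟨o, rfl⟩ _ ⟨o', rfl⟩
    exact (hay o).trans_le (hf (code o')).1.2.2.1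
  · rintro ⟨_, o, rfl⟩
    simp only [Equiv.trans_apply, Equiv.ofInjective_symm_apply, Equiv.ofInjective_apply]
    exact (hf (code o)).1.2.2.2.2

theorem key (G : SimpleGraph Ordinal.{0}) (α : Ordinal.{0}) (K : ℕ) (hM : ¬ Mat G α (K + 1))
    (c θ : Ordinal.{0}) (hθ : θ ≠ 0) (hy : c + ω ^ (θ + K) ≤ α) :
    ∃ (c' : Ordinal.{0}) (F : Finset Ordinal.{0}), c ≤ c' ∧ c' + ω ^ θ ≤ c + ω ^ (θ + K) ∧
      ∀ a b, c' ≤ a → a < c' + ω ^ θ → c + ω ^ (θ + K) ≤ b → b < α → G.Adj a b → b ∈ F := by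
  by_contra hcon
  have hle : ∀ ξ < ω ^ (K : Ordinal.{0}), c + ω ^ θ * ξ + ω ^ θ ≤ c + ω ^ (θ + K) := by
    intro ξ hξ
    rw [add_assoc, ← mul_add_one, opow_add]
    gcongr
    exact Order.add_one_le_of_lt hξ
  have h1 : ∀ ξ : Ordinal.{0}, ∃ x, ξ < ω ^ (K : Ordinal.{0}) → x ≤ c + ω ^ θ * ξ + ω ^ θ ∧
      Lim G α (c + ω ^ (θ + K)) (c + ω ^ θ * ξ) x := by
    intro ξ
    by_cases hξ : ξ < ω ^ (K : Ordinal.{0})
    swap
    · exact ⟨0, fun h => absurd h hξ⟩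
    rcases lim_or G α (c + ω ^ (θ + K)) (c + ω ^ θ * ξ) (c + ω ^ θ * ξ + ω ^ θ) with
      ⟨x, hx, hl⟩ | ⟨E, F, hE⟩
    · exact ⟨x, fun _ => ⟨hx, hl⟩⟩
    exfalso
    apply hcon
    have hlim : Order.IsSuccLimit (c + ω ^ θ * ξ + ω ^ θ) :=
      isSuccLimit_add _ (isSuccLimit_opow_left isSuccLimit_omega0 hθ)
    obtain ⟨n, h2, h3, h4⟩ := fin_bound E (c + ω ^ θ * ξ + ω ^ θ) (c + ω ^ θ * ξ)
      (lt_add_of_pos_right _ (opow_pos _ omega0_pos))
    have h5 : n + 1 < c + ω ^ θ * ξ + ω ^ θ := hlim.add_one_lt h3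
    have h6 : c + ω ^ θ * ξ ≤ n + 1 := h2.trans (lt_add_one n).le
    have h7 : n + 1 + ω ^ θ = c + ω ^ θ * ξ + ω ^ θ := by
      rw [← Ordinal.add_sub_cancel_of_le h6] at h5 ⊢
      rw [add_assoc, add_omega0_opow (lt_of_add_lt_add_left h5)]
    refine ⟨n + 1, F, le_self_add.trans h6, h7 ▸ hle ξ hξ, ?_⟩
    intro a b h8 h9 h10 h11 h12
    rw [h7] at h9
    refine hE a b (h6.trans h8) h9 ?_ h10 h11 h12
    intro h13
    exact absurd ((lt_add_one n).trans_le h8) (not_lt.2 (h4 a h13 h9))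
  choose x hx using h1
  apply hM
  refine mat_of G α _ K hy (fun ξ => c + ω ^ θ * ξ) x
    (fun ξ hξ => ⟨(hx ξ hξ).2, (hx ξ hξ).1.trans (hle ξ hξ)⟩) ?_
  intro ξ ξ' h1 h2
  refine (hx ξ (h1.trans h2)).1.trans ?_
  rw [add_assoc, ← mul_add_one]
  gcongr
  exact Order.add_one_le_of_lt h1

/-- Every interval of length ω ^ θ below α has an independent subset of type γ. -/
def P (G : SimpleGraph Ordinal.{0}) (α θ γ : Ordinal.{0}) : Prop :=
  ∀ c, c + ω ^ θ ≤ α → ∃ S ⊆ Ico c (c + ω ^ θ), S.Pairwise (fun x y => ¬ G.Adj x y) ∧ T S γ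

theorem block (G : SimpleGraph Ordinal.{0}) (α : Ordinal.{0}) (K : ℕ) (hM : ¬ Mat G α (K + 1))
    (θ γ Θ c e : Ordinal.{0}) (hP : P G α θ γ) (hθ : θ ≠ 0) (hΘ : θ + K < Θ)
    (hc : c + ω ^ Θ ≤ α) (he : e ∈ Ico c (c + ω ^ Θ)) :
    ∃ (I : Set Ordinal.{0}) (n : Ordinal.{0}), e < n ∧ n < c + ω ^ Θ ∧ I ⊆ Ico e n ∧
      I.Pairwise (fun x y => ¬ G.Adj x y) ∧ T I γ ∧
      ∀ a ∈ I, ∀ b, n ≤ b → b < c + ω ^ Θ → ¬ G.Adj a b := by
  have hy : e + ω ^ (θ + K) < c + ω ^ Θ := by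
    have h1 := he.2
    rw [← Ordinal.add_sub_cancel_of_le he.1] at h1 ⊢
    rw [add_assoc]
    exact add_lt_add_right (isPrincipal_add_omega0_opow Θ (lt_of_add_lt_add_left h1)
      ((opow_lt_opow_iff_right one_lt_omega0).2 hΘ)) _
  obtain ⟨c', F, h1, h2, h3⟩ := key G α K hM e θ hθ (hy.le.trans hc)
  obtain ⟨S, hS, h4, h5⟩ := hP c' (h2.trans (hy.le.trans hc))
  obtain ⟨n, h6, h7, h8⟩ := fin_bound F _ _ hy
  have hlim : Order.IsSuccLimit (c + ω ^ Θ) :=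
    isSuccLimit_add _ (isSuccLimit_opow_left isSuccLimit_omega0 (ne_bot_of_gt hΘ))
  refine ⟨S, n + 1, (le_self_add.trans h6).trans_lt (lt_add_one n), hlim.add_one_lt h7, ?_, h4, h5,
    ?_⟩
  · intro a ha
    exact ⟨h1.trans (hS ha).1, ((hS ha).2.trans_le (h2.trans h6)).trans (lt_add_one n)⟩
  · intro a ha b h9 h10 h11
    have h12 : n < b := (lt_add_one n).trans_le h9
    exact absurd h12 (not_lt.2 (h8 b (h3 a b (hS ha).1 (hS ha).2 (h6.trans h12.le)
      (h10.trans_le hc) h11) h10))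

theorem orbit (c D : Ordinal.{0}) (hcD : c < D) (nx : Ordinal.{0} → Ordinal.{0})
    (h : ∀ e ∈ Ico c D, e < nx e ∧ nx e < D) :
    ∃ E ⊆ Ico c D, (∀ e ∈ E, ∀ e' ∈ E, e < e' → nx e ≤ e') ∧ ∀ b < D, ∃ e ∈ E, b < e := by
  obtain ⟨E, hE⟩ := zorn_subset
    {E : Set Ordinal.{0} | E ⊆ Ico c D ∧ ∀ e ∈ E, ∀ e' ∈ E, e < e' → nx e ≤ e'} (by
      intro C hC hch
      refine ⟨⋃₀ C, ⟨?_, ?_⟩, fun s hs => subset_sUnion_of_mem hs⟩
      · rintro a ⟨s, hs, ha⟩
        exact (hC hs).1 ha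
      · rintro a ⟨s, hs, ha⟩ b ⟨t, ht, hb⟩ hab
        rcases hch.total hs ht with h1 | h1
        · exact (hC ht).2 a (h1 ha) b hb hab
        · exact (hC hs).2 a ha b (h1 hb) hab)
  refine ⟨E, hE.prop.1, hE.prop.2, ?_⟩
  by_contra hcon
  push Not at hcon
  obtain ⟨b, hb, hbd⟩ := hcon
  have ext : ∀ m ∈ Ico c D, (∀ e ∈ E, e < m ∧ nx e ≤ m) → False := by
    intro m hm hme
    have h1 : insert m E ∈
        {E : Set Ordinal.{0} | E ⊆ Ico c D ∧ ∀ e ∈ E, ∀ e' ∈ E, e < e' → nx e ≤ e'} := by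
      refine ⟨insert_subset hm hE.prop.1, ?_⟩
      rintro e (rfl | he) e' (rfl | he') hlt
      · exact absurd hlt (lt_irrefl _)
      · exact absurd hlt (not_lt.2 (hme e' he').1.le)
      · exact (hme e he).2
      · exact hE.prop.2 e he e' he' hlt
    have h2 := hE.le_of_ge h1 (subset_insert _ _) (mem_insert m E)
    exact lt_irrefl _ (hme m h2).1
  by_cases hmax : ∃ m ∈ E, ∀ e ∈ E, e ≤ m
  · obtain ⟨m, hm, hmax⟩ := hmax
    have h1 := h m (hE.prop.1 hm)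
    refine ext (nx m) ⟨(hE.prop.1 hm).1.trans h1.1.le, h1.2⟩ ?_
    intro e he
    refine ⟨(hmax e he).trans_lt h1.1, ?_⟩
    rcases (hmax e he).lt_or_eq with h2 | rfl
    · exact (hE.prop.2 e he m hm h2).trans h1.1.le
    · exact le_rfl
  · push Not at hmax
    refine ext (max c b) ⟨le_max_left _ _, max_lt hcD hb⟩ ?_
    intro e he
    obtain ⟨e', he', h1⟩ := hmax e he
    exact ⟨h1.trans_le ((hbd e' he').trans (le_max_right _ _)),
      (hE.prop.2 e he e' he' h1).trans ((hbd e' he').trans (le_max_right _ _))⟩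

theorem glue (G : SimpleGraph Ordinal.{0}) (c D : Ordinal.{0}) (hcD : c < D)
    (g : Ordinal.{0} → Ordinal.{0})
    (h : ∀ e ∈ Ico c D, ∃ (I : Set Ordinal.{0}) (n : Ordinal.{0}), e < n ∧ n < D ∧ I ⊆ Ico e n ∧
      I.Pairwise (fun x y => ¬ G.Adj x y) ∧ T I (g e) ∧
      ∀ a ∈ I, ∀ b, n ≤ b → b < D → ¬ G.Adj a b) :
    ∃ S ⊆ Ico c D, S.Pairwise (fun x y => ¬ G.Adj x y) ∧
      ∀ b < D, ∃ e e', b < e ∧ e' < D ∧ T (S ∩ Ico e e') (g e) := by
  choose! I nx h1 h2 h3 h4 h5 h6 using h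
  obtain ⟨E, hE, hE1, hE2⟩ := orbit c D hcD nx (fun e he => ⟨h1 e he, h2 e he⟩)
  refine ⟨⋃ e ∈ E, I e, ?_, ?_, ?_⟩
  · intro a ha
    obtain ⟨e, he, ha⟩ := mem_iUnion₂.1 ha
    exact ⟨(hE he).1.trans (h3 e (hE he) ha).1, (h3 e (hE he) ha).2.trans (h2 e (hE he))⟩
  · intro a ha b hb hab
    obtain ⟨e, he, ha⟩ := mem_iUnion₂.1 ha
    obtain ⟨e', he', hb⟩ := mem_iUnion₂.1 hb
    rcases lt_trichotomy e e' with hlt | rfl | hlt
    · exact h6 e (hE he) a ha b ((hE1 e he e' he' hlt).trans (h3 e' (hE he') hb).1)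
        ((h3 e' (hE he') hb).2.trans (h2 e' (hE he')))
    · exact h4 e (hE he) ha hb hab
    · intro hadj
      exact h6 e' (hE he') b hb a ((hE1 e' he' e he hlt).trans (h3 e (hE he) ha).1)
        ((h3 e (hE he) ha).2.trans (h2 e (hE he))) hadj.symm
  · intro b hb
    obtain ⟨e, he, hbe⟩ := hE2 b hb
    refine ⟨e, nx e, hbe, h2 e (hE he), (h5 e (hE he)).mono ?_ le_rfl⟩
    intro a ha
    exact ⟨mem_iUnion₂.2 ⟨e, he, ha⟩, h3 e (hE he) ha⟩

theorem step (G : SimpleGraph Ordinal.{0}) (α : Ordinal.{0}) (K : ℕ) (hM : ¬ Mat G α (K + 1))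
    (θ γ : Ordinal.{0}) (hP : P G α θ γ) (hθ : θ ≠ 0) : P G α (θ + K + 1) (γ * ω) := by
  intro c hc
  have hcD : c < c + ω ^ (θ + K + 1) := lt_add_of_pos_right _ (opow_pos _ omega0_pos)
  obtain ⟨S, hS, h1, h2⟩ := glue G c _ hcD (fun _ => γ)
    (fun e he => block G α K hM θ γ _ c e hP hθ (lt_add_one _) hc he)
  refine ⟨S, hS, h1, ?_⟩
  have h3 : ∀ n : ℕ, ∃ b < c + ω ^ (θ + K + 1), T (S ∩ Iio b) (γ * n) := by
    intro n
    induction n with
    | zero => exact ⟨c, hcD, id, fun _ _ _ _ h => h, by simp⟩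
    | succ n ih =>
      obtain ⟨b, hb, hT⟩ := ih
      obtain ⟨e, e', h4, h5, h6⟩ := h2 b hb
      refine ⟨max b e', max_lt hb h5, ?_⟩
      rw [Nat.cast_succ, mul_add_one]
      refine (hT.add h6 (fun x hx y hy => (hx.2.trans h4).trans_le hy.2.1)).mono ?_ le_rfl
      rintro x (hx | hx)
      · exact ⟨hx.1, mem_Iio.2 (lt_of_lt_of_le (mem_Iio.1 hx.2) (le_max_left _ _))⟩
      · exact ⟨hx.1, mem_Iio.2 (lt_of_lt_of_le hx.2.2 (le_max_right _ _))⟩
  refine T.sup (fun a ha => (hS ha).2) ?_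
  intro x hx
  obtain ⟨o, ho, hxo⟩ := (lt_mul_iff_of_isSuccLimit isSuccLimit_omega0).1 hx
  obtain ⟨n, rfl⟩ := lt_omega0.1 ho
  obtain ⟨b, -, hT⟩ := h3 n
  exact hT.mono inter_subset_left (Order.add_one_le_of_lt hxo)

theorem limit (G : SimpleGraph Ordinal.{0}) (α : Ordinal.{0}) (K : ℕ) (hM : ¬ Mat G α (K + 1))
    (η : Ordinal.{0}) (hη : Order.IsSuccLimit η)
    (h : ∀ δ < ω ^ η, ∃ θ, θ ≠ 0 ∧ θ < η ∧ P G α θ δ) : P G α η (ω ^ η) := by
  intro c hc
  have hcD : c < c + ω ^ η := lt_add_of_pos_right _ (opow_pos _ omega0_pos)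
  obtain ⟨S, hS, h1, h2⟩ := glue G c _ hcD (fun e => e - c) (by
    intro e he
    obtain ⟨θ, h3, h4, h5⟩ := h (e - c) (sub_lt_of_lt_add he.2 (opow_pos _ omega0_pos))
    exact block G α K hM θ _ _ c e h5 h3 (hη.add_natCast_lt h4 K) hc he)
  refine ⟨S, hS, h1, T.sup (fun a ha => (hS ha).2) ?_⟩
  intro x hx
  obtain ⟨e, e', h3, -, h5⟩ := h2 (c + x) (add_lt_add_right hx c)
  refine h5.mono inter_subset_left (Order.add_one_le_of_lt ?_)
  rw [← Ordinal.add_sub_cancel_of_le (le_self_add.trans h3.le)] at h3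
  exact lt_of_add_lt_add_left h3

theorem all (G : SimpleGraph Ordinal.{0}) (α : Ordinal.{0}) (K : ℕ) (hM : ¬ Mat G α (K + 1))
    (μ : Ordinal.{0}) : (∃ n : ℕ, μ + n ≠ 0 ∧ P G α (μ + n) (ω ^ μ)) ∧
      (Order.IsSuccLimit μ → P G α μ (ω ^ μ)) := by
  induction μ using Ordinal.limitRecOn with
  | zero =>
    refine ⟨⟨1, by simp, ?_⟩, fun h => absurd h Ordinal.not_isSuccLimit_zero⟩
    intro c _
    refine ⟨{c}, ?_, by simp, fun _ => c, ?_, by simp⟩
    · rintro _ rfl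
      exact ⟨le_rfl, lt_add_of_pos_right _ (opow_pos _ omega0_pos)⟩
    · intro x hx y hy hxy
      simp only [opow_zero, mem_Iio, Order.lt_one_iff] at hx hy
      rw [hx, hy] at hxy
      exact absurd hxy (lt_irrefl _)
  | add_one μ ih =>
    refine ⟨?_, fun h => absurd h (Order.not_isSuccLimit_succ μ)⟩
    obtain ⟨n, h1, h2⟩ := ih.1
    have h3 : μ + 1 + ((n + K : ℕ) : Ordinal.{0}) = μ + n + K + 1 := by
      rw [add_assoc, add_assoc, add_assoc]
      congr 1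
      norm_cast
      omega
    refine ⟨n + K, by simp, ?_⟩
    rw [h3, opow_add, opow_one]
    exact step G α K hM _ _ h2 h1
  | limit μ hμ ih =>
    have h1 : P G α μ (ω ^ μ) := by
      apply limit G α K hM μ hμ
      intro δ hδ
      obtain ⟨ν, hν, h2⟩ := (lt_opow_of_isSuccLimit omega0_ne_zero hμ).1 hδ
      obtain ⟨n, h3, h4⟩ := (ih ν hν).1
      refine ⟨ν + n, h3, hμ.add_natCast_lt hν n, ?_⟩
      intro c hc
      obtain ⟨S, h5, h6, h7⟩ := h4 c hc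
      exact ⟨S, h5, h6, h7.mono le_rfl h2.le⟩
    exact ⟨⟨0, by simpa using hμ.ne_bot, by simpa using h1⟩, fun _ => h1⟩

theorem result :
    ∀ j k : ℕ, 0 < j → 2 ≤ k → ∀ η : Ordinal.{0}, Order.IsSuccLimit η →
      ∀ G : SimpleGraph Ordinal.{0},
        (∃ S : Set Ordinal.{0},
            S ⊆ Set.Iio (Ordinal.omega0 ^ (η + ((j * k : ℕ) : Ordinal.{0}))) ∧
            Nonempty (S ≃o Set.Iio (Ordinal.omega0 ^ (η + ((j : ℕ) : Ordinal.{0})))) ∧
            S.Pairwise (fun x y => ¬ G.Adj x y)) ∨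
        (∃ A B : Set Ordinal.{0},
            A ⊆ Set.Iio (Ordinal.omega0 ^ (η + ((j * k : ℕ) : Ordinal.{0}))) ∧
            B ⊆ Set.Iio (Ordinal.omega0 ^ (η + ((j * k : ℕ) : Ordinal.{0}))) ∧
            (∀ a ∈ A, ∀ b ∈ B, a < b) ∧
            Nonempty (A ≃o Set.Iio (Ordinal.omega0 ^ ((k : ℕ) : Ordinal.{0}))) ∧
            ∃ f : A ≃ B, ∀ a : A, G.Adj (a : Ordinal.{0}) (f a : Ordinal.{0})) := by
  intro j k _ hk η hη G
  obtain ⟨K, rfl⟩ : ∃ K, k = K + 1 := ⟨k - 1, by omega⟩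
  set α := ω ^ (η + ((j * (K + 1) : ℕ) : Ordinal.{0})) with hα
  by_cases hM : Mat G α (K + 1)
  · exact Or.inr hM
  left
  have h1 : ∀ i : ℕ, P G α (η + ((i * (K + 1) : ℕ) : Ordinal.{0})) (ω ^ (η + (i : Ordinal.{0}))) := by
    intro i
    induction i with
    | zero => simpa using (all G α K hM η).2 hη
    | succ i ih =>
      have h2 := step G α K hM _ _ ih (fun h => hη.ne_bot (left_eq_zero_of_add_eq_zero h))
      have h3 : η + (((i + 1) * (K + 1) : ℕ) : Ordinal.{0}) =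
          η + ((i * (K + 1) : ℕ) : Ordinal.{0}) + K + 1 := by
        rw [add_assoc, add_assoc]
        congr 1
        norm_cast
        ring
      rw [h3, Nat.cast_succ i, ← add_assoc, opow_add, opow_one]
      exact h2
  obtain ⟨S, hS, h2, s, h3, h4⟩ := h1 j 0 (by simp [hα])
  have hs : StrictMono (fun x : Iio (ω ^ (η + (j : Ordinal.{0}))) => s x) :=
    fun x y hxy => h3 x.2 y.2 hxy
  have hsub : range (fun x : Iio (ω ^ (η + (j : Ordinal.{0}))) => s x) ⊆ S := by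
    rintro _ ⟨x, rfl⟩
    exact h4 x x.2
  refine ⟨_, ?_, ⟨(hs.orderIso _).symm⟩, h2.mono hsub⟩
  intro a ha
  have h5 := (hS (hsub ha)).2
  rwa [zero_add] at h5

end Pool.Agent.S15251
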