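import Pool.Statements.S15258
import Pool.Agent.H.MP_6f9417_lc.Elem
import Pool.Agent.Lib.helper21.Dfa

set_option autoImplicit false
open Pool Pool.MP_b4537c_lc

namespace Pool.Agent.S15258

theorem result :
    ¬ (∃ F : List (List ℕ) × List (List ℕ) → List (List ℕ) × List ℕ,
      Computable F ∧
      ∀ G H : List (List ℕ),
        G.length = H.length →
        (¬ ∃ m : ℕ, m < G.length ∧ ∃ f : Fin G.length → List (Fin m),
            ∃ g : Fin m → List ℕ, ∀ i : Fin G.length, (f i).flatMap g = G.getD i.val []) →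
        (¬ ∃ m : ℕ, m < H.length ∧ ∃ f : Fin H.length → List (Fin m),
            ∃ g : Fin m → List ℕ, ∀ i : Fin H.length, (f i).flatMap g = H.getD i.val []) →
        ∀ w : List ℕ, (∀ a ∈ w, a < G.length) →
          (w.foldl (fun q a => ((F (G, H)).1.getD q []).getD a 0) 0 ∈ (F (G, H)).2 ↔
            w.flatMap (fun a => G.getD a []) = w.flatMap (fun a => H.getD a []))) := by
  rintro ⟨F, hF, h⟩
  obtain ⟨H, G, hH, hG, h1, h2⟩ := Pool.Agent.H.MP_6f9417_lc.undec_elem
  obtain ⟨f, hf, e⟩ := ComputablePred.computable_iff.1 Pool.Agent.Lib.helper21.Dfa.dfa_nonempty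
  refine h2 (ComputablePred.computable_iff.2 ⟨fun n => f (F (H n, G n), (H n).length),
    hf.comp ((hF.comp (hH.pair hG).to_comp).pair (Primrec.list_length.comp hH).to_comp),
    funext fun n => ?_⟩)
  rw [← congrFun e (F (H n, G n), (H n).length)]
  refine propext (exists_congr fun w => and_congr_right fun _ => and_congr_right fun hw => ?_)
  exact (h (H n) (G n) (h1 n).1 (fun ⟨m, hm, f, k, hf⟩ => (h1 n).2.1 m hm f k hf)
    (fun ⟨m, hm, f, k, hf⟩ => (h1 n).2.2 m hm f k hf) w hw).symm

end Pool.Agent.S15258
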