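import Pool.Statements.S15265

set_option autoImplicit false
open Pool Pool.MP_b60ee2_lc

namespace Pool.Agent.S15265

open Set Filter Topology MeasureTheory TopologicalSpace

theorem indep {G : Type} [TopologicalSpace G] [AddCommGroup G] [IsTopologicalAddGroup G]
    [PolishSpace G] [MeasurableSpace G] [BorelSpace G] (D : Set G) (hD : D.Finite) (h0 : 0 ∉ D)
    (hs : ∀ d ∈ D, -d ∈ D) : ∃ S : Set G, MeasurableSet S ∧ (∀ x ∈ S, ∀ y ∈ S, x - y ∉ D) ∧
      ∀ x, x ∈ S ∨ ∃ d ∈ D, x + d ∈ S := by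
  obtain ⟨V, v1, v2⟩ := exists_nhds_half_neg (hD.isClosed.isOpen_compl.mem_nhds h0)
  obtain ⟨W, w1, w2, w3⟩ := mem_nhds_iff.1 v1
  let T : ℕ → Set G := fun n => Nat.rec ∅
    (fun i T => T ∪ {x | x - denseSeq G i ∈ W ∧ ∀ d ∈ D, x + d ∉ T}) n
  have hT : ∀ i, T (i + 1) = T i ∪ {x | x - denseSeq G i ∈ W ∧ ∀ d ∈ D, x + d ∉ T i} := fun _ => rfl
  have mono : Monotone T := monotone_nat_of_le_succ fun i => subset_union_left
  have t1 : ∀ i, MeasurableSet (T i) := fun i => by
    induction i with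
    | zero => exact .empty
    | succ i ih =>
      refine ih.union (((w2.preimage (continuous_sub_right _)).measurableSet).inter ?_)
      have := MeasurableSet.biInter hD.countable fun d _ => (measurable_add_const d) ih.compl
      convert this using 1
      ext x; simp; rfl
  have t2 : ∀ i, ∀ x ∈ T i, ∀ y ∈ T i, x - y ∉ D := fun i => by
    induction i with
    | zero => intro x hx; exact hx.elim
    | succ i ih =>
      rintro x (hx | hx) y (hy | hy) h
      · exact ih x hx y hy h
      · exact hy.2 _ h (by simpa using hx)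
      · exact hx.2 _ (hs _ h) (by simpa using hy)
      · exact v2 _ (w1 hx.1) _ (w1 hy.1) (by simpa using h)
  refine ⟨⋃ i, T i, .iUnion t1, fun x hx y hy => ?_, fun x => ?_⟩
  · obtain ⟨i, hi⟩ := mem_iUnion.1 hx
    obtain ⟨j, hj⟩ := mem_iUnion.1 hy
    exact t2 (max i j) x (mono (le_max_left _ _) hi) y (mono (le_max_right _ _) hj)
  · obtain ⟨i, hi⟩ := (denseRange_denseSeq G).exists_mem_open
      (w2.preimage (continuous_sub_left x)) ⟨x, by simpa using w3⟩
    rcases em (∀ d ∈ D, x + d ∉ T i) with h | h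
    · exact Or.inl (mem_iUnion.2 ⟨i + 1, Or.inr ⟨hi, h⟩⟩)
    · push Not at h
      obtain ⟨d, h1, h2⟩ := h
      exact Or.inr ⟨d, h1, mem_iUnion.2 ⟨i, h2⟩⟩

theorem small {G : Type} [MetricSpace G] [AddCommGroup G] [IsTopologicalAddGroup G]
    [SeparableSpace G] [Uncountable G] (P : Finset G) (n : ℕ) : ∃ b : ZMod (2 ^ n) → G,
      b.Injective ∧ ∀ p ∈ P, ∀ i j, dist p (p + (b i - b j)) ≤ 2 / 2 / 2 ^ n := by
  have : (𝓝[≠] (0 : G)).NeBot := by
    by_contra h
    rw [not_neBot, ← isOpen_singleton_iff_punctured_nhds] at h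
    have := discreteTopology_of_isOpen_singleton_zero h
    exact not_countable (separableSpace_iff_countable.1 ‹_›)
  have h : ∀ᶠ v in 𝓝 (0 : G), ∀ p ∈ P, dist p (p + v) < 2 / 2 / 2 ^ n :=
    (eventually_all_finset P).2 fun p _ =>
      ContinuousAt.eventually_lt (by fun_prop) continuousAt_const (by simp)
  obtain ⟨V, v1, v2⟩ := exists_nhds_half_neg h
  let e := (infinite_of_mem_nhds 0 v1).natEmbedding
  exact ⟨fun i => e i.val, Subtype.val_injective.comp (e.injective.comp (ZMod.val_injective _)),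
    fun p hp i j => (v2 _ (e _).2 _ (e _).2 p hp).le⟩

abbrev K := ∀ n : ℕ, ZMod (2 ^ n) × ZMod (2 ^ n)

theorem map {G : Type} [TopologicalSpace G] [AddCommGroup G] [IsTopologicalAddGroup G]
    [PolishSpace G] [Uncountable G] : ∃ (b : ∀ n, ZMod (2 ^ n) → G) (f : K → G),
      (∀ n, (b n).Injective) ∧ Continuous f ∧ ∀ ε n t, f (ε + Pi.single n t) =
        f ε - (b n (ε n).1 - b n (ε n).2) + (b n (ε n + t).1 - b n (ε n + t).2) := by
  classical
  let _ := upgradeIsCompletelyMetrizable G
  choose b b1 b2 using small (G := G)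
  let P : ℕ → Finset G := fun n => Nat.rec {0} (fun n P => (P ×ˢ Finset.univ).image
    fun x : G × ZMod (2 ^ n) × ZMod (2 ^ n) => x.1 + (b P n x.2.1 - b P n x.2.2)) n
  let s : ℕ → K → G := fun n ε => ∑ k ∈ Finset.range n, (b (P k) k (ε k).1 - b (P k) k (ε k).2)
  have s1 : ∀ ε n, s n ε ∈ P n := fun ε n => by
    induction n with
    | zero => exact Finset.mem_singleton_self _
    | succ n ih =>
      exact Finset.mem_image.2 ⟨(s n ε, ε n), by simpa using ih, (Finset.sum_range_succ _ _).symm⟩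
  have s2 : ∀ ε n, dist (s n ε) (s (n + 1) ε) ≤ 2 / 2 / 2 ^ n := fun ε n => by
    simpa only [s, Finset.sum_range_succ] using b2 (P n) n _ (s1 ε n) _ _
  choose f hf using fun ε => cauchySeq_tendsto_of_complete (cauchySeq_of_le_geometric_two (s2 ε))
  refine ⟨fun n => b (P n) n, f, fun n => b1 _ _, ?_, fun ε n t => ?_⟩
  · refine TendstoUniformly.continuous (F := s) (p := atTop) (Metric.tendstoUniformly_iff.2
      fun e he => ?_) (Frequently.of_forall fun n => continuous_finset_sum _ fun k _ =>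
        (continuous_of_discreteTopology (f := fun x : ZMod (2 ^ k) × ZMod (2 ^ k) =>
          b (P k) k x.1 - b (P k) k x.2)).comp (continuous_apply k))
    have : Tendsto (fun n : ℕ => (2 : ℝ) / 2 ^ n) atTop (𝓝 0) :=
      tendsto_const_nhds.div_atTop (tendsto_pow_atTop_atTop_of_one_lt one_lt_two)
    filter_upwards [this.eventually (gt_mem_nhds he)] with n hn ε
    rw [dist_comm]
    exact (dist_le_of_le_geometric_two_of_tendsto (s2 ε) (hf ε) n).trans_lt hn
  · refine tendsto_nhds_unique (hf _) ((((hf ε).sub_const _).add_const _).congr' ?_)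
    filter_upwards [eventually_gt_atTop n] with N hN
    have : ∑ k ∈ (Finset.range N).erase n, (b (P k) k ((ε + Pi.single n t : K) k).1 -
        b (P k) k ((ε + Pi.single n t : K) k).2) = ∑ k ∈ (Finset.range N).erase n,
          (b (P k) k (ε k).1 - b (P k) k (ε k).2) := Finset.sum_congr rfl fun k hk => by
      simp [Finset.ne_of_mem_erase hk]
    simp only [s]
    rw [← Finset.add_sum_erase _ _ (Finset.mem_range.2 hN),
      ← Finset.add_sum_erase _ _ (Finset.mem_range.2 hN), this]
    simp only [Pi.add_apply, Pi.single_eq_same]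
    abel

theorem meagre [MeasurableSpace K] [BorelSpace K] {X : ℕ → Set K} (h1 : ∀ n, MeasurableSet (X n))
    (h2 : ∀ n (ε : K), ∃ t, ε + Pi.single n t ∈ X n) (m : ℕ) : IsMeagre (⋃ n ≥ m, X n)ᶜ := by
  obtain ⟨u, u1, u2⟩ := (MeasurableSet.biUnion (to_countable {n | m ≤ n})
    fun n _ => h1 n).compl.baireMeasurableSet.residualEq_isOpen
  rcases u.eq_empty_or_nonempty with rfl | ⟨x, hx⟩
  · filter_upwards [u2] with y hy h using hy.mp h
  obtain ⟨_, ⟨y, n, rfl⟩, -, c⟩ := (PiNat.isTopologicalBasis_cylinders _).exists_subset_of_mem_open hx u1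
  have a : IsMeagre (PiNat.cylinder y (max n m) ∩ X (max n m)) := by
    filter_upwards [u2] with z hz h
    exact hz.mpr (c (PiNat.cylinder_anti _ (le_max_left _ _) h.1))
      (mem_biUnion (le_max_right n m) h.2)
  refine absurd ((isMeagre_iUnion fun t => a.preimage_of_isOpenMap
    (continuous_add_const (Pi.single (max n m) t)) (isOpenMap_add_right _)).mono fun z hz => ?_)
    (not_isMeagre_of_isOpen (PiNat.isOpen_cylinder _ y (max n m)) ⟨y, PiNat.self_mem_cylinder _ _⟩)
  obtain ⟨t, ht⟩ := h2 (max n m) z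
  exact mem_iUnion.2 ⟨t, fun i hi => by simpa [hi.ne] using hz i hi, ht⟩

theorem result :
    ∀ (G : Type) [TopologicalSpace G] [AddCommGroup G] [IsTopologicalAddGroup G]
      [PolishSpace G] [MeasurableSpace G] [BorelSpace G],
      Uncountable G →
      ∃ A B : Set G, A ∪ B = Set.univ ∧
        (∃ C : Set G, MeasurableSet C ∧ A ⊆ C ∧
          ∃ (K : Type) (t : TopologicalSpace K),
            CompactSpace K ∧ TopologicalSpace.MetrizableSpace K ∧ Nonempty K ∧
            ∃ f : K → G, Continuous f ∧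
              ∀ g : G, IsMeagre (f ⁻¹' ((fun x => x + g) ⁻¹' C))) ∧
        (∃ C : Set G, MeasurableSet C ∧ B ⊆ C ∧
          ∃ μ : MeasureTheory.Measure G, MeasureTheory.IsProbabilityMeasure μ ∧
            ∀ g : G, μ ((fun x => x + g) ⁻¹' C) = 0) := by
  intro G _ _ _ _ _ _ _
  obtain ⟨b, f, b1, f1, f2⟩ := map (G := G)
  choose S s1 s2 s3 using fun n => indep {d | ∃ i j, i ≠ j ∧ d = b n i - b n j}
    ((finite_range fun p : _ × _ => b n p.1 - b n p.2).subset fun _ ⟨i, j, _, e⟩ => ⟨(i, j), e.symm⟩)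
    (fun ⟨i, j, h, e⟩ => h (b1 n (sub_eq_zero.1 e.symm)))
    (fun _ ⟨i, j, h, e⟩ => ⟨j, i, h.symm, by simp [e]⟩)
  let _ : MeasurableSpace K := borel K
  have : BorelSpace K := ⟨rfl⟩
  have hX : ∀ g n, MeasurableSet {ε | f ε + g ∈ S n} := fun g n =>
    (f1.measurable.add_const g) (s1 n)
  have hN : MeasurableSet (⋂ m, ⋃ n ≥ m, S n) :=
    .iInter fun m => .biUnion (to_countable _) fun n _ => s1 n
  let ν : Measure K := Measure.addHaarMeasure ⊤
  have : IsProbabilityMeasure ν := ⟨Measure.addHaarMeasure_self⟩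
  refine ⟨_, _, compl_union_self _, ⟨_, hN.compl, subset_rfl, K, _, inferInstance, inferInstance,
    inferInstance, f, f1, fun g => ?_⟩, _, hN, subset_rfl, ν.map f,
    Measure.isProbabilityMeasure_map f1.measurable.aemeasurable, fun g => ?_⟩
  · refine (isMeagre_iUnion (meagre (hX g) fun n ε => ?_)).mono fun ε hε => by simpa using hε
    rcases s3 n (f ε + g - (b n (ε n).1 - b n (ε n).2)) with h | ⟨_, ⟨i, j, -, rfl⟩, h⟩
    · exact ⟨-ε n, by rw [mem_setOf_eq, f2]; convert h using 1; simp; abel⟩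
    · exact ⟨(i, j) - ε n, by rw [mem_setOf_eq, f2]; convert h using 1; simp; abel⟩
  · rw [Measure.map_apply f1.measurable ((measurable_add_const g) hN)]
    refine measure_mono_null (fun ε hε => ?_) (measure_setOf_frequently_eq_zero
      (p := fun n ε => f ε + g ∈ S n) (ne_top_of_le_ne_top (ENNReal.tsum_geometric_two ▸ by simp)
        (ENNReal.tsum_le_tsum (g := fun n => 2⁻¹ ^ n) fun n => ?_)))
    · simpa [frequently_atTop] using hε
    have h := measure_iUnion (μ := ν) (f := fun t : ZMod (2 ^ n) =>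
      (fun ε => ε + Pi.single n (t, 0)) ⁻¹' {ε | f ε + g ∈ S n}) (fun t t' h => disjoint_left.2
        fun ε h1 h2 => s2 n _ h1 _ h2 ⟨(ε n).1 + t, (ε n).1 + t', by simpa using h,
          by simp [f2]⟩) fun t => (measurable_add_const _) (hX g n)
    simp only [measure_preimage_add_right, tsum_fintype, Finset.sum_const, Finset.card_univ,
      ZMod.card, nsmul_eq_mul] at h
    rw [← ENNReal.inv_pow, ENNReal.le_inv_iff_mul_le, mul_comm]
    exact_mod_cast h ▸ prob_le_one

end Pool.Agent.S15265
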