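import Pool.Statements.S15273
import Pool.Agent.H.MP_b8791a_lc.A
import Pool.Agent.H.MP_65fbb9_lc.B

set_option autoImplicit false
open Classical
open Pool Pool.MP_b8791a_lc

namespace Pool.Agent.S15273

open Pool.Agent.Lib.helper21.PR Pool.Agent.H.MP_fa5791_lc Pool.Agent.H.MP_fa2eca_lc Set Encodable Denumerable
open Nat.Partrec Nat.Partrec.Code Pool.Agent.Lib.helper21 Pool.Agent.H.MP_b8791a_lc Function

attribute [local irreducible] Primrec Computable

theorem core {M Q : ℕ → ℕ → Prop} {f : ℕ → ℕ} {a r : ℕ} (ir : ∀ a, ¬ M a a) (tr : ∀ a b c, M a b → M b c → M a c)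
    (fin : ∀ x y, Q x y → {w | M x w ∧ M w y}.Finite) (inf : ∀ x y, M x y → ¬ Q x y → {w | M x w ∧ M w y}.Infinite)
    (hf : ∀ a b, M a b → M (f a) (f b)) (fi : Injective f) (ha : M a (f a)) (ar : a < r)
    (hr : ∀ x y, Q x y → x < r → y < r) : ∃ b, ∀ i j, i < j → f^[i] b ≠ f^[j] b ∧ ¬ Q (f^[i] b) (f^[j] b) := by
  have it : ∀ i a b, M a b → M (f^[i] a) (f^[i] b) := fun i => by
    induction i with
    | zero => exact fun _ _ h => h
    | succ i ih => exact fun a b h => ih _ _ (hf _ _ h)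
  have mo : ∀ {b}, M b (f b) → ∀ i j, i < j → M (f^[i] b) (f^[j] b) := fun {b} h i j k => by
    induction k with
    | refl => exact it i _ _ h
    | step _ ih => exact tr _ _ _ ih (it _ _ _ h)
  have ne : ∀ {b}, M b (f b) → ∀ i j, i < j → f^[i] b ≠ f^[j] b := fun h i j k e => ir _ (e ▸ mo h i j k)
  obtain ⟨n, h⟩ : ∃ n, ¬ Q (f^[n] a) (f^[n + 1] a) := by
    by_contra! h
    refine infinite_range_of_injective (Injective.of_lt_imp_ne (ne ha)) ((finite_lt_nat r).subset ?_)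
    rintro _ ⟨n, rfl⟩
    induction n with
    | zero => exact ar
    | succ n ih => exact hr _ _ (h n) ih
  have k := mo ha n _ n.lt_succ_self
  rw [iterate_succ_apply'] at h k
  refine ⟨_, fun i j l => ⟨ne k i j l, fun q => ((inf _ _ k h).image (fi.iterate i).injOn).mono ?_ (fin _ _ q)⟩⟩
  rintro _ ⟨w, ⟨c, d⟩, rfl⟩
  refine ⟨it _ _ _ c, ?_⟩
  rcases (Nat.succ_le_of_lt l).eq_or_lt with rfl | l
  exacts [it _ _ _ d, tr _ _ _ (it _ _ _ d) (mo k _ _ l)]

theorem result :
    ∃ R : ℕ → ℕ → Prop,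
      (∀ a, ¬ R a a) ∧
      (∀ a b c, R a b → R b c → R a c) ∧
      (∀ a b, R a b ∨ a = b ∨ R b a) ∧
      ComputablePred (fun p : ℕ × ℕ => R p.1 p.2) ∧
      ∀ f : ℕ → ℕ,
        (∀ a b, R a b ↔ R (f a) (f b)) →
        (∃ a, f a ≠ a) →
        TuringReducible
          (fun e : ℕ => Part.some
            (if ∀ n : ℕ, (Nat.Partrec.Code.eval (Denumerable.ofNat Nat.Partrec.Code e) n).Dom
             then 1 else 0))
          (fun n : ℕ => Part.some (f n)) := by
  obtain ⟨I, T, i0, i1, i2, i3, i4⟩ := stages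
  obtain ⟨L, Q, l0, l1, l2, l3, l4, l5, l6⟩ := order i0 i1 i2 i3
  have tt : ∀ a b, L a b ∨ a = b ∨ L b a := fun a b => by
    by_cases h : a = b
    · simp [h]
    · simp [l2 a b h, h]
  have ir : ∀ a, ¬ L a a := by simp [l1]
  refine ⟨fun a b => L a b, ir, l3, tt, ComputablePred.computable_iff.2 ⟨_, ci_comput l0, rfl⟩, fun f hf ⟨a, ha⟩ => ?_⟩
  have fi : Injective f := fun x y h => ((tt x y).resolve_left fun k => ir _ (h ▸ (hf _ _).1 k)).resolve_right
    fun k => ir _ (h ▸ (hf _ _).1 k)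
  have sy : ∀ {x z}, Q x z → Q z x := fun h => (l4 _ _).2 fun t p q => let ⟨a, b, c⟩ := (l4 _ _).1 h t p.symm q
    ⟨b, a, fun z d => (c z d).symm⟩
  obtain ⟨r, ar, hr⟩ := i3 (a + 1)
  have q : ∀ x y, Q x y → x < r → y < r := fun x y h k => not_le.1 fun l => k.not_gt ((l4 _ _).1 h r (.inr l) hr).1
  obtain ⟨b, h⟩ : ∃ b, ∀ i j, i < j → f^[i] b ≠ f^[j] b ∧ ¬ Q (f^[i] b) (f^[j] b) := by
    rcases tt a (f a) with k | k | k
    exacts [core ir l3 l5 l6 (fun _ _ => (hf _ _).1) fi k ar q, (ha k.symm).elim, core (M := fun x y => L y x) ir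
      (fun _ _ _ h k => l3 _ _ _ k h) (fun _ _ h => (l5 _ _ (sy h)).subset fun _ => And.symm)
        (fun _ _ h k => (l6 _ _ h (k ∘ sy)).mono fun _ => And.symm) (fun _ _ => (hf _ _).1) fi k ar q]
  have g := ci_gf f
  refine TuringReducible.trans (CI.red ?_) (H.MP_65fbb9_lc.gf_red f)
  generalize gf f = Y at g
  obtain ⟨o, o1, o2⟩ : ∃ o : ℕ → ℕ, CI Y o ∧ ∀ i, o i = f^[i] b := ⟨fun i => Nat.rec b (fun _ x => f x) i,
    by fun_prop, fun i => i.rec rfl fun i e => (congrArg f e).trans (iterate_succ_apply' ..).symm⟩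
  have p := Fn.pow2
  have y := i4 Y (fun n => ∑ i ∈ Finset.range (2 ^ (n + 1) + n + 2), o i) (by fun_prop) fun n => by
    by_contra! c
    obtain ⟨i, hi, j, hj, d, e⟩ := Finset.exists_ne_map_eq_of_card_lt_of_maps_to (s := Finset.range (2 ^ (n + 1) + n + 2))
      (t := Finset.range (2 ^ (n + 1) + n + 1)) (by simp) (f := fun i => if o i ≤ n then 2 ^ (n + 1) + o i else
        Fn.cd (L · (o i)) (n + 1)) fun i _ => by
          have := Fn.cd_lt (L · (o i)) (n + 1)
          simp only [Finset.coe_range, mem_Iio]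
          split_ifs <;> omega
    wlog w : i < j generalizing i j
    · exact this j hj i hi d.symm e.symm (by omega)
    have u := Fn.cd_lt (L · (o i)) (n + 1)
    have v := Fn.cd_lt (L · (o j)) (n + 1)
    obtain ⟨m, k⟩ := h i j w
    rw [← o2, ← o2] at m k
    have s := fun i => Finset.single_le_sum (f := o) (a := i) (s := Finset.range (2 ^ (n + 1) + n + 2))
      fun _ _ => Nat.zero_le _
    have := s i hi
    have := s j hj
    split_ifs at e <;> try omega
    refine k ((l4 _ _).2 fun t x y => ?_)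
    have := c t y
    exact ⟨by omega, by omega, fun z _ => (Fn.tb_cd (L · (o i)) (n + 1) z (by omega)).symm.trans
      (e ▸ Fn.tb_cd (L · (o j)) (n + 1) z (by omega))⟩
  obtain ⟨B, b1, b2⟩ : ∃ B : ℕ × ℕ → Bool, CI (J O) B ∧ ∀ z, B z = cd ((ofNat Code z.1).eval z.2).Dom :=
    ⟨_, RI.jump (i_re (r_pw re_dom)).un, fun _ => rfl⟩
  have z := (RI.jump (RI.un (Y := J O) (p := fun e => ∃ x, B (e, x) = false) (by fun_prop))).trans y
  exact CI.of_eq (f := fun e => (!cd (∃ x, B (e, x) = false)).toNat) (by fun_prop) fun e => by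
    simp only [b2, ← Bool.not_eq_true, cd_true]
    split_ifs with c
    · simp [cd, c]
    · simpa [cd] using c

end Pool.Agent.S15273
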