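import Pool.Statements.S15294
import Pool.Agent.H.MP_bd622f_lc.A

set_option autoImplicit false
open Pool Pool.MP_bd622f_lc

namespace Pool.Agent.S15294

theorem result :
    ¬ (∀ (k : ℕ) (X : Set (List (Fin k))),
      X.Finite →
      (∀ xs ys : List (List (Fin k)), (∀ x ∈ xs, x ∈ X) → (∀ y ∈ ys, y ∈ X) →
          xs.flatten = ys.flatten → xs = ys) →
      (∀ Y : Set (List (Fin k)), X ⊆ Y →
          (∀ xs ys : List (List (Fin k)), (∀ x ∈ xs, x ∈ Y) → (∀ y ∈ ys, y ∈ Y) →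
              xs.flatten = ys.flatten → xs = ys) →
          Y = X) →
      ∃ U V : Finset (List (Fin k)),
        (∀ w : List (Fin k), ∃! p : List (Fin k) × List (Fin k),
            p.1 ∈ U ∧ p.2 ∈ V ∧
            ∃ xs : List (List (Fin k)), (∀ x ∈ xs, x ∈ X) ∧ xs.flatten = p.1 ++ w ++ p.2) ∧
        (∀ u ∈ U, ∀ v ∈ V, ∀ w : List (Fin k),
            (∃ xs : List (List (Fin k)), (∀ x ∈ xs, x ∈ X) ∧ xs.flatten = u ++ w ++ v) →
            ∃ w' w'' : List (Fin k), w = w' ++ w'' ∧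
              (∃ xs : List (List (Fin k)), (∀ x ∈ xs, x ∈ X) ∧ xs.flatten = u ++ w') ∧
              (∃ ys : List (List (Fin k)), (∀ y ∈ ys, y ∈ X) ∧ ys.flatten = w'' ++ v))) := by
  intro h
  obtain ⟨U, V, h1, h2⟩ := h 2 {x | x ∈ H.MP_bd622f_lc.XL} (List.finite_toSet _)
    H.MP_bd622f_lc.code H.MP_bd622f_lc.maximal
  exact H.MP_bd622f_lc.nobox U V h1 h2

end Pool.Agent.S15294
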