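import Pool.Statements.S15316
import Pool.Agent.H.MP_c22137_lc.G

set_option autoImplicit false
open Pool Pool.MP_c22137_lc

namespace Pool.Agent.S15316

/-- The negation of the preceding statement: For every dimension n and degree d, some algorithm decides, given a rational polynomial vector field of degree at most d on R^n vanishing at the origin, whether the origin is Lyapunov stable. -/
theorem result :
    ¬ (∀ n d : ℕ, ComputablePred
      (fun L : List (Fin n × (Fin n → ℕ) × (ℤ × ℕ)) =>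
        ∀ ε : ℝ, 0 < ε → ∃ δ : ℝ, 0 < δ ∧
          ∀ T : ℝ, 0 ≤ T → ∀ γ : ℝ → (Fin n → ℝ),
            ‖γ 0‖ < δ →
            (∀ t ∈ Set.Icc (0 : ℝ) T,
              HasDerivWithinAt γ
                (fun i : Fin n =>
                  (L.map (fun p : Fin n × (Fin n → ℕ) × (ℤ × ℕ) =>
                    if p.1 = i ∧ 0 < ∑ j, p.2.1 j ∧ ∑ j, p.2.1 j ≤ d then
                      ((p.2.2.1 : ℝ) / ((p.2.2.2 : ℝ) + 1)) * ∏ j, (γ t j) ^ (p.2.1 j)
                    else 0)).sum)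
                (Set.Icc (0 : ℝ) T) t) →
            ∀ t ∈ Set.Icc (0 : ℝ) T, ‖γ t‖ < ε)) := by
  intro h
  obtain ⟨n, L0, L1, L2, S, -, hd, hS, H⟩ := Pool.Agent.H.MP_c22137_lc.main
  let tr : Fin n × (Fin n → ℕ) × ℤ → Fin n × (Fin n → ℕ) × (ℤ × ℕ) := fun p => (p.1, p.2.1, p.2.2, 0)
  let L : ℕ → List (Fin n × (Fin n → ℕ) × (ℤ × ℕ)) := fun m =>
    L0.map tr ++ (Pool.Agent.H.MP_c22137_lc.rep (L1.map tr) m ++ Pool.Agent.H.MP_c22137_lc.rep (L2.map tr) (m * m))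
  have hL : Primrec L := Primrec.list_append.comp (Primrec.const _) (Primrec.list_append.comp
    (Pool.Agent.H.MP_c22137_lc.rep_prim _)
    ((Pool.Agent.H.MP_c22137_lc.rep_prim _).comp (Primrec.nat_mul.comp Primrec.id Primrec.id)))
  obtain ⟨f, hf, e⟩ := ComputablePred.computable_iff.1 (h n 5).not
  refine hS (ComputablePred.computable_iff.2 ⟨fun m => f (L m), hf.comp hL.to_comp, funext fun m => ?_⟩)
  rw [← congrFun e (L m)]
  have k1 : ∀ (M : List (Fin n × (Fin n → ℕ) × ℤ)), (∀ p ∈ M, 1 ≤ ∑ j, p.2.1 j ∧ ∑ j, p.2.1 j ≤ 5) → ∀ (x : Fin n → ℝ) (i : Fin n),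
      ((M.map tr).map (fun p : Fin n × (Fin n → ℕ) × (ℤ × ℕ) =>
        if p.1 = i ∧ 0 < ∑ j, p.2.1 j ∧ ∑ j, p.2.1 j ≤ 5 then
          ((p.2.2.1 : ℝ) / ((p.2.2.2 : ℝ) + 1)) * ∏ j, (x j) ^ (p.2.1 j) else 0)).sum = Pool.Agent.H.MP_c22137_lc.ev M x i :=
    fun M hM x i => by
      rw [List.map_map]
      refine congrArg List.sum (List.map_congr_left fun p hp => ?_)
      have := hM p hp
      simp [tr, this.2, show 0 < ∑ j, p.2.1 j from this.1]
  have k2 : ∀ (x : Fin n → ℝ) (i : Fin n), ((L m).map (fun p : Fin n × (Fin n → ℕ) × (ℤ × ℕ) =>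
        if p.1 = i ∧ 0 < ∑ j, p.2.1 j ∧ ∑ j, p.2.1 j ≤ 5 then
          ((p.2.2.1 : ℝ) / ((p.2.2.2 : ℝ) + 1)) * ∏ j, (x j) ^ (p.2.1 j) else 0)).sum =
      Pool.Agent.H.MP_c22137_lc.ev L0 x i + m * Pool.Agent.H.MP_c22137_lc.ev L1 x i +
        (m * m : ℕ) * Pool.Agent.H.MP_c22137_lc.ev L2 x i := fun x i => by
    simp only [L, List.map_append, List.sum_append, Pool.Agent.H.MP_c22137_lc.rep_sum]
    rw [k1 L0 fun p hp => hd p (.inl hp), k1 L1 fun p hp => hd p (.inr (.inl hp)), k1 L2 fun p hp => hd p (.inr (.inr hp)),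
      add_assoc]
  simp only [k2]
  refine propext ⟨fun hm c => ?_, fun c => by_contra fun hm => c fun ε hε => ?_⟩
  · obtain ⟨δ, d0, c⟩ := c 1 one_pos
    obtain ⟨x, hx, ⟨γ, g0, g1⟩, T, T0, k⟩ := (H m).2 hm δ d0
    exact (k γ g0 fun t _ => (g1 t).hasDerivWithinAt).not_gt
      (c T T0 γ (g0 ▸ hx) (fun t _ => (g1 t).hasDerivWithinAt) T ⟨T0, le_rfl⟩)
  · obtain ⟨δ, d0, -, c⟩ := (H m).1 hm ε hε
    exact ⟨δ, d0, fun T _ γ h0 h => c T γ h0 h⟩

end Pool.Agent.S15316
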