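import Pool.Statements.S15321
import Pool.Agent.H.MP_c33acd_lc.F

set_option autoImplicit false
open FirstOrder FirstOrder.Language
open Pool Pool.MP_c33acd_lc

namespace Pool.Agent.S15321

theorem result :
    ∀ (L : FirstOrder.Language.{0,0}), L = ⟨fun _ => Unit, fun _ => Empty⟩ →
    ∀ n : ℕ, 2 ≤ n →
    ∀ [S : L.Structure (FreeGroup (Fin n) ⧸ derivedSeries (FreeGroup (Fin n)) 3)],
      S = ⟨fun _ x => (List.ofFn x).prod, fun _ _ => False⟩ →
    ∀ (N : Type) [L.Structure N],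
      N ⊨ L.completeTheory (FreeGroup (Fin n) ⧸ derivedSeries (FreeGroup (Fin n)) 3) →
      Nonempty ((FreeGroup (Fin n) ⧸ derivedSeries (FreeGroup (Fin n)) 3) ↪ₑ[L] N) := by
  rintro L rfl n hn S rfl N _ h
  let X : Pool.Agent.H.MP_c33acd_lc.LS := ⟨⟨fun _ => Unit, fun _ => Empty⟩,
    fun _ _ => ⟨fun _ x => (List.ofFn x).prod, fun _ _ => False⟩, (), fun K _ x => by
      simp [List.ofFn_succ]⟩
  refine Pool.Agent.H.MP_c33acd_lc.prime X n hn 1 (fun σ m φ v hv => ?_) N h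
  let _ := X.str (Pool.Agent.H.MP_c33acd_lc.FS (Fin n) (1 + 2))
  let e : Pool.Agent.H.MP_c33acd_lc.FS (Fin n) (1 + 2) ≃[X.L]
      Pool.Agent.H.MP_c33acd_lc.FS (Fin n) (1 + 2) :=
    ⟨σ.toEquiv, fun f x => by
      change σ (List.ofFn x).prod = (List.ofFn (σ ∘ x)).prod
      rw [map_list_prod, List.map_ofFn], fun r => r.elim⟩
  exact (StrongHomClass.realize_formula e φ).mpr hv

end Pool.Agent.S15321
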