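import Pool.Statements.S15335
import Pool.Agent.H.MP_c5d8fa_lc.E

set_option autoImplicit false
open Pool Pool.MP_c5d8fa_lc

namespace Pool.Agent.S15335

open Pool.Agent.H.MP_c5d8fa_lc

/-- There is c>0 such that for all large n, every randomized (1+1) memory-restricted black-box algorithm (one stored point plus fitness) needs expected at least c·n² queries to find the optimum of some LeadingOnes instance on n bits. -/
theorem result :
  ∃ c : ℝ, 0 < c ∧ ∃ N : ℕ, ∀ n : ℕ, N ≤ n →
    ∀ (init : PMF (Fin n → Bool)) (vary : (Fin n → Bool) → ℕ → PMF (Fin n → Bool))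
      (sel : (Fin n → Bool) → ℕ → (Fin n → Bool) → ℕ → PMF Bool),
    ∃ (z : Fin n → Bool) (σ : Equiv.Perm (Fin n)),
    ∀ f : (Fin n → Bool) → ℕ,
      (∀ x, f x = (Finset.univ.filter
          (fun i : Fin n => ∀ j : Fin n, j ≤ i → x (σ j) = z (σ j))).card) →
      ENNReal.ofReal (c * (n : ℝ) ^ 2) ≤
        1 + ∑' t : ℕ, ∑ w : Fin n → Bool,
          (Nat.iterate
            (fun p : PMF ((Fin n → Bool) × Bool) =>
              p.bind (fun s => if s.2 = true then PMF.pure s else
                (vary s.1 (f s.1)).bind (fun y =>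
                  (sel s.1 (f s.1) y (f y)).bind (fun b =>
                    PMF.pure (if b = true then y else s.1, decide (y = z))))))
            t (init.bind (fun x => PMF.pure (x, decide (x = z))))) (w, false) := by
  obtain ⟨c, hc, N, h⟩ := final
  exact ⟨c, hc, N, fun n hn init vary sel => h n hn ⟨init, vary, sel⟩⟩

end Pool.Agent.S15335
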