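import Pool.Statements.S15337
import Pool.Agent.H.MP_c77619_lc.B

set_option autoImplicit false
open Pool Pool.MP_c77619_lc

namespace Pool.Agent.S15337

open Pool.Agent.H.MP_c77619_lc Pool.Agent.Lib.helper4.SigLP Pool.Agent.Lib.PR

attribute [local irreducible] Primrec

/-- It is computably decidable, given an indexed grammar in normal form and two letter-to-word homomorphisms h and g, whether h(w) = g(w) for every word w generated by the grammar. -/
theorem result :
    ComputablePred
      (fun p : ℕ × List (ℕ × ℕ × ℕ × ℕ) × List (List ℕ) × List (List ℕ) =>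
        ∀ w : List ℕ,
          Relation.ReflTransGen
            (fun (u v : List ((ℕ × List ℕ) ⊕ ℕ)) =>
              ∃ (pre suf : List ((ℕ × List ℕ) ⊕ ℕ)) (A : ℕ) (σ : List ℕ),
                u = pre ++ Sum.inl (A, σ) :: suf ∧
                ∃ r ∈ p.2.1, r.2.1 = A ∧
                  ((r.1 = 0 ∧
                      v = pre ++ Sum.inl (r.2.2.1, σ) :: Sum.inl (r.2.2.2, σ) :: suf) ∨
                   (r.1 = 1 ∧ v = pre ++ Sum.inl (r.2.2.1, r.2.2.2 :: σ) :: suf) ∨
                   (r.1 = 2 ∧ ∃ τ : List ℕ, σ = r.2.2.2 :: τ ∧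
                      v = pre ++ Sum.inl (r.2.2.1, τ) :: suf) ∨
                   (r.1 = 3 ∧ v = pre ++ Sum.inr r.2.2.1 :: suf) ∨
                   (r.1 = 4 ∧ v = pre ++ suf)))
            ([Sum.inl (p.1, [])] : List ((ℕ × List ℕ) ⊕ ℕ))
            (List.map Sum.inr w : List ((ℕ × List ℕ) ⊕ ℕ)) →
          w.flatMap (fun a => p.2.2.1.getD a []) =
            w.flatMap (fun a => p.2.2.2.getD a [])) := by
  refine Sig.dec (R := fun p : ℕ × List Rl × List (List ℕ) × List (List ℕ) => ∀ w : List ℕ,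
    Relation.ReflTransGen (St p.2.1) [.inl (p.1, [])] (w.map .inr) → hm p.2.2.1 w = hm p.2.2.2 w) ?_ ?_
  · refine (Sig.ex (R := fun p G => ∃ N n, Cert p.2.2.1 p.2.2.2 p.2.1 p.1 G N n) (.ex (.ex ?_))).of_eq fun p =>
      ⟨fun ⟨_, _, _, a⟩ w b => sound a (gen_iff.1 b), fun a => complete fun w b => a w (gen_iff.2 b)⟩
    apply s_cert <;> fun_prop
  · simp only [not_forall, exists_prop]
    exact .ex (.and (s_st.rtg.comp (f := fun z : (ℕ × List Rl × List (List ℕ) × List (List ℕ)) × List ℕ =>
      (z.1.2.1, [.inl (z.1.1, [])], z.2.map .inr)) (by fun_prop)) (.prim (by fun_prop)))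

end Pool.Agent.S15337
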