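import Pool.Statements.S15339
import Pool.Agent.H.MP_c89ac5_lc.Str

set_option autoImplicit false
open Pool Pool.MP_c89ac5_lc

namespace Pool.Agent.S15339

theorem result :
    ∀ (G : Subgroup (Equiv.Perm ℕ)) (T : List ℕ → List ℕ → Bool),
      Computable₂ T →
      (∀ f g : ℕ → ℕ,
          (∀ n : ℕ, T ((List.range n).map f) ((List.range n).map g) = true) ↔
            ∃ σ ∈ G, (⇑σ = f ∧ ⇑σ.symm = g)) →
      ∃ R : ℕ → List ℕ → Bool, Computable₂ R ∧
        ∃ H : Subgroup (Equiv.Perm ℕ),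
          (∀ σ : Equiv.Perm ℕ, σ ∈ H ↔ ∀ (i : ℕ) (l : List ℕ), R i (l.map ⇑σ) = R i l) ∧
          ∃ φ : G ≃* H,
            (∀ x : G, ∀ n : ℕ, ∃ m : ℕ, ∀ y : G,
                (∀ k : ℕ, k < m → y.1 k = x.1 k) → (φ y).1 n = (φ x).1 n) ∧
            (∀ x : H, ∀ n : ℕ, ∃ m : ℕ, ∀ y : H,
                (∀ k : ℕ, k < m → y.1 k = x.1 k) → (φ.symm y).1 n = (φ.symm x).1 n) := by
  intro G T hc hT
  obtain ⟨e, he⟩ := Pool.Agent.H.MP_c89ac5_lc.exists_pres hc
  obtain ⟨R, hR, h1⟩ := ComputablePred.computable_iff.1 he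
  let H : Subgroup (Equiv.Perm ℕ) :=
    { carrier := {σ | Pool.Agent.H.MP_c89ac5_lc.Pres (e.permCongr σ)}
      one_mem' := fun i L => by
        have : e.permCongr 1 = 1 := by ext; simp
        simp [this]
      mul_mem' := fun {a b} ha hb => by
        have : e.permCongr (a * b) = e.permCongr a * e.permCongr b := by ext; simp
        change Pool.Agent.H.MP_c89ac5_lc.Pres _
        rw [this]
        exact Pool.Agent.H.MP_c89ac5_lc.Pres.mul ha hb
      inv_mem' := fun {a} ha => Pool.Agent.H.MP_c89ac5_lc.Pres.inv ha }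
  choose L h2 h3 using Pool.Agent.H.MP_c89ac5_lc.lift hT
  have h4 : ∀ {τ ρ}, Pool.Agent.H.MP_c89ac5_lc.Pres (T := T) τ → Pool.Agent.H.MP_c89ac5_lc.Pres ρ →
      (∀ n, τ (.inl n) = ρ (.inl n)) → τ = ρ := fun h k j => Equiv.ext fun x => by
    rcases x with n | ⟨c, a⟩
    exacts [j n, h.uniq hT k (fun n _ => j n) a]
  have h5 : ∀ τ, e.permCongr (e.symm.permCongr τ) = τ := fun τ => by ext; simp
  let ψ : G →* H := MonoidHom.mk' (fun σ => ⟨e.symm.permCongr (L σ), by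
      change Pool.Agent.H.MP_c89ac5_lc.Pres _
      rw [h5]; exact h2 σ⟩) fun a b => Subtype.ext (by
    change e.symm.permCongr _ = e.symm.permCongr _ * e.symm.permCongr _
    rw [h4 (h2 (a * b)) ((h2 a).mul (h2 b)) fun n => by simp [h3]]
    ext; simp)
  have h6 : ∀ σ n, (ψ σ).1 n = e.symm (L σ (e n)) := fun _ _ => rfl
  have h7 : Function.Bijective ψ := by
    refine ⟨fun a b h => Subtype.ext (Equiv.ext fun n => ?_), fun x => ?_⟩
    · have := h6 a (e.symm (.inl n))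
      rw [h, h6] at this
      simpa [h3] using this.symm
    · obtain ⟨σ, hσ, k⟩ := Pool.Agent.H.MP_c89ac5_lc.Pres.res hT x.2
      refine ⟨⟨σ, hσ⟩, Subtype.ext (Equiv.ext fun n => ?_)⟩
      rw [h6, h4 (h2 ⟨σ, hσ⟩) x.2 fun n => by rw [h3, k]]
      simp
  refine ⟨fun i l => R (i, l), hR, H, fun σ => ?_, MulEquiv.ofBijective ψ h7, fun x n => ?_,
    fun x n => ?_⟩
  · have h8 : ∀ i l, R (i, l) = true ↔ Pool.Agent.H.MP_c89ac5_lc.RF i (l.map e) := fun i l => by
      rw [← congrFun h1]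
    have h9 : ∀ l : List ℕ, (l.map e).map (e.permCongr σ) = (l.map σ).map e := fun l => by
      simp [Function.comp_def]
    refine ⟨fun h i l => ?_, fun h i L => ?_⟩
    · rw [Bool.eq_iff_iff, h8, h8, ← h9, h]
    · obtain ⟨l, rfl⟩ : ∃ l : List ℕ, L = l.map e := ⟨L.map e.symm, by simp [Function.comp_def]⟩
      rw [h9, ← h8, ← h8, show R (i, l.map σ) = R (i, l) from h i l]
  · simp only [MulEquiv.ofBijective_apply, h6]
    rcases e n with k | ⟨c, a⟩
    · exact ⟨k + 1, fun y hy => by rw [h3, h3, hy k (by omega)]⟩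
    · refine ⟨c.sum + 1, fun y hy => congrArg _ ((h2 y).uniq hT (h2 x) (fun k hk => ?_) a)⟩
      rw [h3, h3, hy k (Nat.lt_succ_of_le (List.single_le_sum (fun _ _ => Nat.zero_le _) _ hk))]
  · refine ⟨e.symm (.inl n) + 1, fun y hy => ?_⟩
    obtain ⟨a, rfl⟩ := (MulEquiv.ofBijective ψ h7).surjective x
    obtain ⟨b, rfl⟩ := (MulEquiv.ofBijective ψ h7).surjective y
    rw [MulEquiv.symm_apply_apply, MulEquiv.symm_apply_apply]
    simpa [h6, h3] using hy _ (Nat.lt_succ_self _)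

end Pool.Agent.S15339
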