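import Pool.Statements.S15359
import Pool.Agent.H.MP_cd40e2_lc.C

set_option autoImplicit false
open scoped Classical
open Pool Pool.MP_cd40e2_lc

namespace Pool.Agent.S15359

theorem result :
    ∀ ε : ℝ, 0 < ε → ∃ q : ℕ, ∀ n : ℕ, ∃ D : (Fin q → Fin n → Bool) → ℝ,
      (∀ Q, 0 ≤ D Q) ∧ (∑ Q, D Q = 1) ∧
      ∀ f : (Fin n → Bool) → Bool,
        (∀ g : (Fin n → Bool) → Bool,
          (∃ w : Fin n → ℝ, ∃ θ : ℝ, ∀ x : Fin n → Bool,
              g x = decide (θ ≤ ∑ i, w i * (if x i then (1:ℝ) else -1))) →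
          ε ≤ ((Finset.univ.filter (fun x => f x ≠ g x)).card : ℝ) / 2 ^ n) →
        (2:ℝ) / 3 ≤ ∑ Q, D Q *
          (if ∃ w : Fin n → ℝ, ∃ θ : ℝ, ∀ j : Fin q,
              f (Q j) = decide (θ ≤ ∑ i, w i * (if Q j i then (1:ℝ) else -1))
           then (0:ℝ) else 1) := by
  intro ε hε
  obtain ⟨m, m0, hm⟩ := H.MP_cd40e2_lc.round hε
  obtain ⟨r, hr⟩ := exists_pow_lt_of_lt_one (show (0 : ℝ) < 1 / 3 by norm_num) (show 1 - ε / 4 < 1 by linarith)
  haveI : Nonempty (Fin m) := ⟨⟨0, m0⟩⟩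
  let e := (Fintype.equivFin (Fin r × (Fin m → Bool))).symm
  refine ⟨Fintype.card (Fin r × (Fin m → Bool)), fun n => ?_⟩
  let Φ : (Fin r → (Fin n → Fin m) × (Fin n → Bool)) → Fin _ → Fin n → Bool :=
    fun ω j => H.MP_cd40e2_lc.pnt (ω (e j).1) (e j).2
  refine ⟨fun Q => Finset.univ.expect fun ω => if Φ ω = Q then 1 else 0,
    fun Q => Finset.expect_nonneg fun _ _ => by split_ifs <;> simp, ?_, fun f hf => ?_⟩
  · rw [← Finset.expect_sum_comm]; simp
  have h := hm (Fin n) f fun w θ => by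
    have := hf (fun x => decide (θ ≤ H.MP_cd40e2_lc.L w x)) ⟨w, θ, fun _ => rfl⟩
    rw [Finset.expect_eq_sum_div_card, Finset.sum_boole]
    simpa using this
  have h0 := pow_le_pow_left₀ (Finset.expect_nonneg fun _ _ => by split_ifs <;> simp) h r
  rw [← Fintype.card_fin r, ← Finset.card_univ, ← Finset.prod_const, ← H.MP_cd40e2_lc.ex_prod fun _ ω => _] at h0
  simp only [Finset.expect_mul, ← Finset.expect_sum_comm, ite_mul, one_mul, zero_mul, Finset.sum_ite_eq,
    Finset.mem_univ, if_true]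
  refine le_trans ?_ (Finset.expect_le_expect (f := fun ω : Fin r → (Fin n → Fin m) × (Fin n → Bool) => 1 - ∏ i,
    if ∃ w θ, ∀ t, f (H.MP_cd40e2_lc.pnt (ω i) t) = decide (θ ≤ H.MP_cd40e2_lc.L w (H.MP_cd40e2_lc.pnt (ω i) t))
      then (1 : ℝ) else 0) fun ω _ => ?_)
  · rw [Finset.expect_sub_distrib, Fintype.expect_const]
    simp only [Finset.card_univ, Fintype.card_fin] at h0
    linarith
  · split_ifs with c
    · obtain ⟨w, θ, c⟩ := c
      rw [Finset.prod_eq_one fun i _ => if_pos ⟨w, θ, fun t => by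
        have := c (e.symm (i, t))
        simp only [Φ, Equiv.apply_symm_apply] at this
        exact this⟩, sub_self]
    · exact sub_le_self _ (Finset.prod_nonneg fun _ _ => by split_ifs <;> simp)

end Pool.Agent.S15359
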