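import Pool.Statements.S15401
-- import your own Pool.Agent.* helpers here
import Pool.Agent.H.MP_c9b87f_lc.B

set_option autoImplicit false
open Filter Topology
open Pool Pool.MP_d33a1c_lc

namespace Pool.Agent.S15401

theorem result :
    ∀ (X : Type) [TopologicalSpace X] [PolishSpace X] (I : Set (Set ℕ)),
      (∀ A ∈ I, ∀ B : Set ℕ, B ⊆ A → B ∈ I) →
      (∀ A ∈ I, ∀ B ∈ I, A ∪ B ∈ I) →
      (∀ A : Set ℕ, A.Finite → A ∈ I) →
      (Set.univ : Set ℕ) ∉ I →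
      (∃ C : ℕ → ℕ → Set (ℕ → Bool), (∀ i j, IsClosed (C i j)) ∧
        {f : ℕ → Bool | {n : ℕ | f n = true} ∈ I} = ⋂ i, ⋃ j, C i j) →
      ∀ x : ℕ → X, ∃ D : ℕ → Set X, (∀ j, IsClosed (D j)) ∧
        {ℓ : X | ∃ A : Set ℕ, A ∉ I ∧ Tendsto x (atTop ⊓ 𝓟 A) (𝓝 ℓ)} = ⋃ j, D j := by
  rintro X _ _ I h1 h2 h3 - ⟨C, c1, c2⟩ x
  letI := TopologicalSpace.upgradeIsCompletelyMetrizable X
  choose O o1 o2 using fun i j => (c1 i j).isGδ.eq_iInter_nat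
  refine H.MP_c9b87f_lc.fsigma (F := fun i j l => (O i j l)ᶜ)
    ⟨h1, h2, h3, fun i j l => (o1 i j l).isClosed_compl, fun f => ?_⟩ x
  have := Set.ext_iff.1 c2 f
  simp only [Set.mem_ofPred_eq, o2, Set.mem_iInter, Set.mem_iUnion] at this
  simp only [this, not_forall, not_exists, Set.mem_compl_iff]

end Pool.Agent.S15401
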