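import Pool.Statements.S15424
import Pool.Agent.H.MP_d52dcb_lc.Comp

set_option autoImplicit false
open Pool Pool.MP_d52dcb_lc

namespace Pool.Agent.S15424

open Pool.Agent.H.MP_d52dcb_lc Pool.Agent.Lib.PR Pool.Agent.Lib.KAPI Denumerable Encodable

attribute [local irreducible] Primrec Computable

theorem result :
    ¬ (∀ (D : Set ℕ) (R : ℕ → ℕ → Prop),
    ComputablePred (fun n : ℕ => n ∈ D) →
    ComputablePred (fun p : ℕ × ℕ => R p.1 p.2) →
    (∀ x ∈ D, ¬ R x x) →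
    (∀ x ∈ D, ∀ y ∈ D, ∀ z ∈ D, R x y → R y z → R x z) →
    (∀ x ∈ D, ∀ y ∈ D, x ≠ y → R x y ∨ R y x) →
    (¬ ∃ e : ℚ → ℕ, (∀ q, e q ∈ D) ∧ ∀ q r : ℚ, q < r → R (e q) (e r)) →
    ∃ T : Set (List Bool),
      ComputablePred (fun σ : List Bool => σ ∈ T) ∧
      (∀ σ τ : List Bool, σ ++ τ ∈ T → σ ∈ T) ∧
      (∀ σ ∈ T, ∃ b : Bool, σ ++ [b] ∈ T) ∧
      (∀ f : ℕ → Bool, (∀ n : ℕ, List.ofFn (fun i : Fin n => f i) ∈ T) → Computable f) ∧
      ∃ φ : ℕ → ℕ → Bool,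
        (∀ x ∈ D,
          (∀ n : ℕ, List.ofFn (fun i : Fin n => φ x i) ∈ T) ∧
          ∃ σ : List Bool, List.ofFn (fun i : Fin σ.length => φ x i) = σ ∧
            ∀ h : ℕ → Bool, (∀ n : ℕ, List.ofFn (fun i : Fin n => h i) ∈ T) →
              List.ofFn (fun i : Fin σ.length => h i) = σ → h = φ x) ∧
        (∀ g : ℕ → Bool,
          ((∀ n : ℕ, List.ofFn (fun i : Fin n => g i) ∈ T) ∧
           ∃ σ : List Bool, List.ofFn (fun i : Fin σ.length => g i) = σ ∧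
             ∀ h : ℕ → Bool, (∀ n : ℕ, List.ofFn (fun i : Fin n => h i) ∈ T) →
               List.ofFn (fun i : Fin σ.length => h i) = σ → h = g) →
          ∃ x ∈ D, φ x = g) ∧
        (∀ x ∈ D, ∀ y ∈ D,
          (R x y ↔ ∃ n : ℕ, (∀ i < n, φ x i = φ y i) ∧ φ x n = false ∧ φ y n = true))) := by
  intro h
  obtain ⟨T, h1, h2, h3, h4, φ, h5, h6, h7⟩ := h {x | Dm (ofNat E x)}
    (fun x y => Rl gg (ofNat E x) (ofNat E y))
    (pred (p := fun x => Dm (ofNat E x)) (by unfold Dm; fun_prop)).computablePred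
    (pred (by unfold Rl; fun_prop)).computablePred
    (fun x hx k => lt_irrefl _ ((rl_iff gg hx.1 hx.1).1 k))
    (fun x hx y hy z hz a b => (rl_iff gg hx.1 hz.1).2
      (((rl_iff gg hx.1 hy.1).1 a).trans ((rl_iff gg hy.1 hz.1).1 b)))
    (fun x hx y _ e => rl_tot gg hx.1 fun c => e (by rw [← encode_ofNat (α := E) x, c, encode_ofNat]))
    fun ⟨e, e1, e2⟩ => scat (fun q => key gg (ofNat E (e q))) fun q r c =>
      (rl_iff gg (e1 q).1 (e1 r).1).1 (e2 q r c)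
  have m : ∀ a : LL gg, encode a.1 ∈ {x | Dm (ofNat E x)} := fun a => by
    simpa only [Set.mem_ofPred_eq, ofNat_encode] using a.2
  refine no_tree (T := T) (ψ := fun a => φ (encode a.1)) ⟨h2, h3, h4, fun a => (h5 _ (m a)).1,
    fun a => ?_, fun f σ a b c => ?_, fun a b => ?_⟩ h1
  · obtain ⟨σ, s1, s2⟩ := (h5 _ (m a)).2
    exact ⟨σ, on_iff.1 s1, fun h p q => s2 h p q.eq⟩
  · obtain ⟨x, x1, x2⟩ := h6 f ⟨a, σ, b.eq, fun h p q => c h p (on_iff.1 q)⟩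
    exact ⟨⟨ofNat E x, x1⟩, by simpa only [encode_ofNat] using x2⟩
  · rw [lx_iff, ← h7 _ (m a) _ (m b)]
    simp only [ofNat_encode]
    exact (rl_iff gg a.2.1 b.2.1).symm

end Pool.Agent.S15424
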