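import Pool.Statements.S15436
import Pool.Agent.H.MP_d6c85c_lc.B

set_option autoImplicit false
open Pool Pool.MP_d6c85c_lc

namespace Pool.Agent.S15436

/-- The negation of the preceding statement: If aleph_alpha is singular and M has size sum over nu<alpha of 2^aleph_nu, then for any colouring of the subsets of M with aleph_alpha colours, some colour class under inclusion contains an order-embedded copy of every poset of size aleph_alpha. -/
theorem result :
    ¬ (∀ (α : Ordinal.{0}), ¬ (Cardinal.aleph α).IsRegular →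
      ∀ (M : Type),
        Cardinal.lift.{1} (Cardinal.mk M) =
          Cardinal.sum (fun ν : Set.Iio α => (2 : Cardinal.{0}) ^ Cardinal.aleph ν.1) →
        ∀ (ι : Type), Cardinal.mk ι = Cardinal.aleph α →
          ∀ c : Set M → ι, ∃ i : ι,
            ∀ (P : Type) [PartialOrder P], Cardinal.mk P = Cardinal.aleph α →
              ∃ f : P → Set M, (∀ x, c (f x) = i) ∧ ∀ x y : P, f x ≤ f y ↔ x ≤ y) := by
  open Pool.Agent.H.MP_d6c85c_lc Cardinal Ordinal in
  intro H
  obtain ⟨α, hα⟩ := mem_range_aleph_iff.2 (aleph0_le_beth (ω_ 1))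
  have h0 : IsStrongLimit (ℵ_ α) :=
    hα ▸ isStrongLimit_beth.2 (isSuccLimit_omega 1).isSuccPrelimit
  have h1 : (ℵ_ α).ord.cof = ℵ_ 1 := hα ▸ (cof_map_of_isNormal (isNormal_ord.comp isNormal_beth)
    (isSuccLimit_omega 1)).trans cof_omega_one
  have h2 : (ℵ_ α).ord.cof < ℵ_ α := by
    rw [h1, hα]
    exact (aleph_le_beth 1).trans_lt (beth_lt_beth.2 (one_lt_omega0.trans omega0_lt_omega_one))
  have h3 : ℵ₀ < (ℵ_ α).ord.cof := h1 ▸ aleph0_lt_aleph_one
  obtain ⟨c, P, _, a1, a2⟩ := main h0 h3 h2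
  obtain ⟨i, hi⟩ := H α (fun h => h.le_cof_ord.not_gt h2) _
    (by rw [mk_ord_toType, sum_eq h0 (h3.trans h2)]) _ (mk_ord_toType _) c
  obtain ⟨f, b1, b2⟩ := hi P a1
  exact a2 i f b2 b1

end Pool.Agent.S15436
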