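import Pool.Statements.S15446
import Pool.Agent.H.MP_d7c5de_lc.PCP

set_option autoImplicit false
open Pool Pool.MP_d7c5de_lc

namespace Pool.Agent.S15446

theorem result :
    ¬ (∃ P : List (List ℕ) × List (List ℕ) → Prop, ComputablePred P ∧
      ∀ H G : List (List ℕ), H.length = G.length →
        (∀ u : List ℕ, (∀ i ∈ u, i < H.length) →
          ∀ a b : ℕ, a < H.length → b < H.length → a ≠ b →
            ((u ++ [a]).flatMap (fun i => H.getD i []) <+: (u ++ [a]).flatMap (fun i => G.getD i []) ∨
              (u ++ [a]).flatMap (fun i => G.getD i []) <+: (u ++ [a]).flatMap (fun i => H.getD i [])) →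
            ((u ++ [b]).flatMap (fun i => H.getD i []) <+: (u ++ [b]).flatMap (fun i => G.getD i []) ∨
              (u ++ [b]).flatMap (fun i => G.getD i []) <+: (u ++ [b]).flatMap (fun i => H.getD i [])) →
            u.flatMap (fun i => H.getD i []) = u.flatMap (fun i => G.getD i [])) →
        (P (H, G) ↔ ∃ x : List ℕ, x ≠ [] ∧ (∀ i ∈ x, i < H.length) ∧
          x.flatMap (fun i => H.getD i []) = x.flatMap (fun i => G.getD i []))) := by
  rintro ⟨P, hP, h⟩
  obtain ⟨H, G, hG, h1, h2⟩ := Pool.Agent.H.MP_d7c5de_lc.undec_sol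
  obtain ⟨f, hf, rfl⟩ := ComputablePred.computable_iff.1 hP
  refine h2 (ComputablePred.computable_iff.2 ⟨fun n => f (H, G n),
    hf.comp ((Primrec.const H).pair hG).to_comp, funext fun n => propext ?_⟩)
  exact (h H (G n) (h1 n).1 (h1 n).2).symm

end Pool.Agent.S15446
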