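import Pool.Statements.S15461
import Pool.Agent.H.MP_daee81_lc.B
import Pool.Agent.H.MP_daee81_lc.C

set_option autoImplicit false
open Pool Pool.MP_daee81_lc

namespace Pool.Agent.S15461

theorem result :
    ∀ (P : Type) [Preorder P],
      (∀ g : ℕ → P, ∃ m n, m < n ∧ g m ≤ g n) →
      ∃ Q : ℕ → Set P, (⋃ i, Q i) = Set.univ ∧
        ∀ i, ∀ (o : ℕ → Ordinal.{0}) (f : ∀ n, Set.Iio (o n) → P),
          (∀ n, Countable (Set.Iio (o n))) →
          (∀ n x, f n x ∈ Q i) →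
          ∃ m n, m < n ∧ ∃ h : Set.Iio (o m) → Set.Iio (o n),
            StrictMono h ∧ ∀ x, f m x ≤ f n (h x) := by
  intro P _ hP
  obtain ⟨n, c, hc⟩ := Pool.Agent.H.MP_daee81_lc.code' ⟨P, inferInstance⟩ hP
  refine ⟨fun i => {x | n x = i}, Set.eq_univ_of_forall fun x => Set.mem_iUnion.mpr ⟨n x, rfl⟩,
    fun i o f h1 h2 => ?_⟩
  exact Pool.Agent.H.MP_daee81_lc.seqs (Q := {x : P // n x = i})
    (Pool.Agent.H.MP_daee81_lc.hb_of i (fun x => c x.1) fun x y h =>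
      hc x.1 y.1 (x.2.trans y.2.symm) (by rw [x.2]; exact h)) o (fun k x => ⟨f k x, h2 k x⟩) h1

end Pool.Agent.S15461
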