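import Pool.Statements.S15480
import Pool.Agent.H.MP_dd30de_lc.C

set_option autoImplicit false
open Pool Pool.MP_dd30de_lc

namespace Pool.Agent.S15480

/-- The negation of the preceding statement: Every conjugacy class in the unitary group of ℓ² (strong operator Borel structure) lies in a Borel set B with a probability measure μ such that μ{x : g·x·h ∈ B} = 0 for all unitaries g, h, i.e. every conjugacy class is Haar null. -/
theorem result :
    ¬ (∀ M : MeasurableSpace (unitary (lp (fun _ : ℕ => ℂ) 2 →L[ℂ] lp (fun _ : ℕ => ℂ) 2)),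
      M = MeasurableSpace.comap
        (fun U : unitary (lp (fun _ : ℕ => ℂ) 2 →L[ℂ] lp (fun _ : ℕ => ℂ) 2) =>
          fun n : ℕ => U.1 (lp.single 2 n (1 : ℂ)))
        (@MeasurableSpace.pi ℕ (fun _ => lp (fun _ : ℕ => ℂ) 2)
          (fun _ => borel (lp (fun _ : ℕ => ℂ) 2))) →
      ∀ a : unitary (lp (fun _ : ℕ => ℂ) 2 →L[ℂ] lp (fun _ : ℕ => ℂ) 2),
        ∃ B : Set (unitary (lp (fun _ : ℕ => ℂ) 2 →L[ℂ] lp (fun _ : ℕ => ℂ) 2)),
          @MeasurableSet _ M B ∧ {x | IsConj a x} ⊆ B ∧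
          ∃ μ : @MeasureTheory.Measure
              (unitary (lp (fun _ : ℕ => ℂ) 2 →L[ℂ] lp (fun _ : ℕ => ℂ) 2)) M,
            @MeasureTheory.IsProbabilityMeasure
              (unitary (lp (fun _ : ℕ => ℂ) 2 →L[ℂ] lp (fun _ : ℕ => ℂ) 2)) M μ ∧
            ∀ g h : unitary (lp (fun _ : ℕ => ℂ) 2 →L[ℂ] lp (fun _ : ℕ => ℂ) 2),
              μ {x | g * x * h ∈ B} = 0) := by
  intro h
  letI : MeasurableSpace (lp (fun _ : ℕ => ℂ) 2) := borel _
  haveI : BorelSpace (lp (fun _ : ℕ => ℂ) 2) := ⟨rfl⟩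
  let b : HilbertBasis ℕ ℂ (lp (fun _ : ℕ => ℂ) 2) := default
  have hb : ∀ n, b n = lp.single 2 n (1 : ℂ) := fun n => by
    rw [← b.repr_symm_single]; rfl
  haveI : SecondCountableTopology (lp (fun _ : ℕ => ℂ) 2) := by
    have : TopologicalSpace.SeparableSpace (lp (fun _ : ℕ => ℂ) 2) := by
      rw [← TopologicalSpace.isSeparable_univ_iff]
      have h1 := ((Set.countable_range b).isSeparable.span (R := ℂ)).closure
      rwa [← Submodule.topologicalClosure_coe, b.dense_span] at h1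
    exact UniformSpace.secondCountable_of_separable _
  letI M : MeasurableSpace (unitary (lp (fun _ : ℕ => ℂ) 2 →L[ℂ] lp (fun _ : ℕ => ℂ) 2)) :=
    MeasurableSpace.comap
        (fun U : unitary (lp (fun _ : ℕ => ℂ) 2 →L[ℂ] lp (fun _ : ℕ => ℂ) 2) =>
          fun n : ℕ => U.1 (lp.single 2 n (1 : ℂ)))
        (@MeasurableSpace.pi ℕ (fun _ => lp (fun _ : ℕ => ℂ) 2)
          (fun _ => borel (lp (fun _ : ℕ => ℂ) 2)))
  obtain ⟨a, ha⟩ := Pool.Agent.H.MP_dd30de_lc.main b (fun n => by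
    rw [hb]
    exact (measurable_pi_apply (X := fun _ : ℕ => lp (fun _ : ℕ => ℂ) 2) n).comp
      (comap_measurable (fun U : unitary (lp (fun _ : ℕ => ℂ) 2 →L[ℂ] lp (fun _ : ℕ => ℂ) 2) =>
          fun n : ℕ => U.1 (lp.single 2 n (1 : ℂ)))))
  obtain ⟨B, -, hB, μ, hμ, h0⟩ := h M rfl a
  obtain ⟨V, hV⟩ := ha μ hμ
  refine hV (MeasureTheory.measure_mono_null (fun x hx => ?_) (h0 1 V))
  show 1 * x * V ∈ B
  rw [one_mul]
  exact hB hx

end Pool.Agent.S15480
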