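import Pool.Statements.S15482
import Pool.Agent.H.MP_dd548e_lc.Final

set_option autoImplicit false
open Pool Pool.MP_dd548e_lc

namespace Pool.Agent.S15482

theorem result :
    ¬ (∃ f : (List (ℕ × List ℕ) × List ℕ) × (List (ℕ × List ℕ) × List ℕ) → Bool,
      Computable f ∧
      ∀ (R₁ : List (ℕ × List ℕ)) (ω₁ : List ℕ) (R₂ : List (ℕ × List ℕ)) (ω₂ : List ℕ),
        (∀ a : ℕ, (a ∈ ω₁ ∨ ∃ p ∈ R₁, a ∈ p.2) → ∃ w : List ℕ, (a, w) ∈ R₁) →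
        (∀ a : ℕ, (a ∈ ω₂ ∨ ∃ p ∈ R₂, a ∈ p.2) → ∃ w : List ℕ, (a, w) ∈ R₂) →
        (f ((R₁, ω₁), (R₂, ω₂)) = true ↔
          {s : ℕ → List ℕ | s 0 = ω₁ ∧ ∀ n : ℕ, ∃ ws : List (List ℕ),
              List.Forall₂ (fun a w => (a, w) ∈ R₁) (s n) ws ∧ s (n + 1) = ws.flatten} =
          {s : ℕ → List ℕ | s 0 = ω₂ ∧ ∀ n : ℕ, ∃ ws : List (List ℕ),
              List.Forall₂ (fun a w => (a, w) ∈ R₂) (s n) ws ∧ s (n + 1) = ws.flatten})) := by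
  rintro ⟨f, hf, h⟩
  obtain ⟨R₁, R₂, ω, h1, h2, h3, h4⟩ := Pool.Agent.H.MP_dd548e_lc.undec_ol
  exact h4 (ComputablePred.computable_iff.2 ⟨fun n => f ((R₁ n, ω), (R₂ n, ω)),
    hf.comp ((h1.pair (Primrec.const ω)).pair (h2.pair (Primrec.const ω))).to_comp,
    funext fun n => propext (h _ _ _ _ (h3 n).1 (h3 n).2).symm⟩)

end Pool.Agent.S15482
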