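import Pool.Statements.S15498
import Pool.Agent.H.MP_e12961_lc.B

set_option autoImplicit false
open Pool Pool.MP_e12961_lc

namespace Pool.Agent.S15498

open Pool.Agent.H.MP_e12961_lc Pool.Agent.Lib.helper21.Fn Encodable Denumerable

/-- The negation of the preceding statement: For every hyperimmune-free degree and every hyperimmune PA degree, the Hausdorff distance between them under the upper-density-of-disagreement pseudometric on Cantor space is 1. -/
theorem result :
    ¬ (∀ X Y : ℕ → Bool,
      (∀ f : ℕ → ℕ,
          TuringReducible (fun n => Part.some (f n)) (fun n => Part.some (X n).toNat) →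
          ∃ g : ℕ → ℕ, Computable g ∧ ∀ n, f n ≤ g n) →
      (¬ ∀ f : ℕ → ℕ,
          TuringReducible (fun n => Part.some (f n)) (fun n => Part.some (Y n).toNat) →
          ∃ g : ℕ → ℕ, Computable g ∧ ∀ n, f n ≤ g n) →
      (∃ f : ℕ → ℕ,
          TuringReducible (fun n => Part.some (f n)) (fun n => Part.some (Y n).toNat) ∧
          (∀ n, f n ≤ 1) ∧
          ∀ c : Nat.Partrec.Code, ∀ y : ℕ,
            y ∈ c.eval (Encodable.encode c) → f (Encodable.encode c) ≠ y) →
      ((∀ ε : ℝ, 0 < ε → ∃ A : ℕ → Bool,
          (TuringReducible (fun n => Part.some (A n).toNat) (fun n => Part.some (X n).toNat) ∧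
           TuringReducible (fun n => Part.some (X n).toNat) (fun n => Part.some (A n).toNat)) ∧
          ∀ B : ℕ → Bool,
            (TuringReducible (fun n => Part.some (B n).toNat) (fun n => Part.some (Y n).toNat) ∧
             TuringReducible (fun n => Part.some (Y n).toNat) (fun n => Part.some (B n).toNat)) →
            1 - ε ≤ Filter.limsup
              (fun n : ℕ => ((((Finset.range n).filter (fun k => A k ≠ B k)).card : ℝ) / (n : ℝ)))
              Filter.atTop) ∨
       (∀ ε : ℝ, 0 < ε → ∃ B : ℕ → Bool,
          (TuringReducible (fun n => Part.some (B n).toNat) (fun n => Part.some (Y n).toNat) ∧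
           TuringReducible (fun n => Part.some (Y n).toNat) (fun n => Part.some (B n).toNat)) ∧
          ∀ A : ℕ → Bool,
            (TuringReducible (fun n => Part.some (A n).toNat) (fun n => Part.some (X n).toNat) ∧
             TuringReducible (fun n => Part.some (X n).toNat) (fun n => Part.some (A n).toNat)) →
            1 - ε ≤ Filter.limsup
              (fun n : ℕ => ((((Finset.range n).filter (fun k => A k ≠ B k)).card : ℝ) / (n : ℝ)))
              Filter.atTop))) := by
  intro H
  obtain ⟨X, P, C, h1, h2, h3, h4, h5⟩ := main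
  have d0 : Computable fun n : ℕ => 2 * n :=
    (Primrec.nat_mul.comp (Primrec.const 2) Primrec.id).to_comp
  have e0 : jn P C ∘ (fun n => 2 * n) = P := funext fun n => by simp [jn]
  have e1 : jn P C ∘ (fun n => 2 * n + 1) = C := funext fun n => by
    have : (2 * n + 1) / 2 = n := by omega
    simp [jn, this]
  have e2 := comp_red (jn P C) d0
  rw [e0] at e2
  rcases H X (jn P C) h1 (hyper P C h2) ⟨fun n => (P n).toNat,
    e2, fun n => Bool.toNat_le _, fun c y hy h => by
      obtain ⟨t, ht⟩ := Nat.Partrec.Code.evaln_complete.1 hy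
      refine h3 (max t (encode c + 1)) (encode c) (by omega) ?_
      rw [ofNat_encode, Option.mem_def.1 (Nat.Partrec.Code.evaln_mono (le_max_left _ _) ht), ← h]
      rfl⟩ with H | H
  · obtain ⟨A, hA, H⟩ := H (1 / 64) (by norm_num)
    have h6 := not_bad h5 ((comp_red A (Computable.succ.comp d0)).trans hA.1)
    have h7 := lim (A := jn P C) (B := A) (φ := fun n => 2 * n + 1) (fun a b h => by
      simpa using h) (fun _ => le_rfl) (e1.symm ▸ h6)
    have h8 := H _ ⟨.refl _, .refl _⟩
    simp only [ne_comm (a := A _)] at h8
    linarith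
  · obtain ⟨B, hB, H⟩ := H (1 / 64) (by norm_num)
    have h7 := lim (A := X) (B := B) (φ := id) Function.injective_id (fun _ => by simp; omega)
      (not_bad h4 hB.1)
    have h8 := H _ ⟨.refl _, .refl _⟩
    linarith

end Pool.Agent.S15498
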