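import Pool.Statements.S15504

set_option autoImplicit false
open Pool Pool.MP_e1e357_lc

namespace Pool.Agent.S15504

open Filter Set Topology

abbrev C := ℕ → Bool

noncomputable def x (n : ℕ) : C := TopologicalSpace.denseSeq C (Nat.unpair n).1

noncomputable def F (z : C) : Filter ℕ := atTop ⊓ comap x (𝓝 z)

lemma F_neBot (z : C) : (F z).NeBot := by
  rw [F, inf_neBot_iff]
  intro s hs t ht
  obtain ⟨N, hN⟩ := mem_atTop_sets.1 hs
  obtain ⟨U, hU, hUt⟩ := mem_comap.1 ht
  obtain ⟨m, hm⟩ := (TopologicalSpace.denseRange_denseSeq C).mem_nhds hU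
  refine ⟨Nat.pair m N, hN _ (Nat.right_le_pair _ _), hUt ?_⟩
  simpa [x] using hm

def S (f : C) : Set ℕ := {n | f n = true}

def Cl (A : Set ℕ) : Set C := {z | ∃ᶠ n in F z, n ∈ A}

def R (e z : C) : Prop := (Cl (S e)).Finite ∧ z ∈ Cl (S e)

lemma desc_countable (a : C) : {e | Relation.ReflTransGen R a e}.Countable := by
  let T : ℕ → Set C := fun n => Nat.rec {a} (fun _ s => ⋃ e ∈ s, {z | R e z}) n
  have hT : ∀ n, (T n).Countable := by
    intro n
    induction n with
    | zero => exact countable_singleton a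
    | succ n ih =>
      refine ih.biUnion fun e _ => ?_
      by_cases h : (Cl (S e)).Finite
      · exact h.countable.mono fun z hz => hz.2
      · convert countable_empty
        ext z; simp [R, h]
  refine (countable_iUnion hT).mono fun e he => ?_
  induction he with
  | refl => exact mem_iUnion.2 ⟨0, rfl⟩
  | tail _ h ih =>
    obtain ⟨n, hn⟩ := mem_iUnion.1 ih
    exact mem_iUnion.2 ⟨n + 1, mem_biUnion hn h⟩

noncomputable def root (e : C) : C :=
  (WellOrderingRel.isWellOrder (α := C)).wf.min {a | Relation.ReflTransGen R a e}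
    ⟨e, Relation.ReflTransGen.refl⟩

lemma root_spec (e : C) : Relation.ReflTransGen R (root e) e :=
  WellFounded.min_mem _ {a | Relation.ReflTransGen R a e} _

lemma root_le {e z : C} (h : R e z) : WellOrderingRel (root z) (root e) ∨ root z = root e := by
  rcases trichotomous_of WellOrderingRel (root z) (root e) with h1 | h1 | h1
  · exact Or.inl h1
  · exact Or.inr h1
  · exact absurd h1 (WellFounded.not_lt_min _ {a | Relation.ReflTransGen R a z}
      ((root_spec e).tail h))

def G (z : C) : Set C := {e | Relation.ReflTransGen R (root z) e ∧ (Cl (S e)).Finite}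

def Small (A : Set ℕ) (z : C) : Prop :=
  ∃ T : Set C, T.Finite ∧ T ⊆ G z ∧ ∀ᶠ n in F z, n ∈ A → ∃ e ∈ T, n ∈ S e

lemma small_of_not_cl {A : Set ℕ} {z : C} (h : z ∉ Cl A) : Small A z := by
  refine ⟨∅, finite_empty, empty_subset _, ?_⟩
  simp only [Cl, mem_ofPred_eq, not_frequently] at h
  exact h.mono fun n hn hA => absurd hA hn

lemma wf : WellFounded (fun z e : C => WellOrderingRel (root z) (root e)) :=
  InvImage.wf root (WellOrderingRel.isWellOrder (α := C)).wf

noncomputable def Z : C → Prop :=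
  wf.fix fun e ih => (Cl (S e)).Finite ∧ ∀ z, ∀ h : WellOrderingRel (root z) (root e),
    ih z h → Small (S e) z

lemma Z_iff (e : C) : Z e ↔ (Cl (S e)).Finite ∧ ∀ z, Z z → Small (S e) z := by
  conv_lhs => rw [Z, WellFounded.fix_eq]
  refine and_congr_right fun hfin => ⟨fun h z hz => ?_, fun h z _ hz => h z hz⟩
  by_cases hcl : z ∈ Cl (S e)
  · rcases root_le (e := e) (z := z) ⟨hfin, hcl⟩ with h1 | h1
    · exact h z h1 hz
    · refine ⟨{e}, finite_singleton e, ?_, Eventually.of_forall fun n hn => ⟨e, rfl, hn⟩⟩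
      rintro _ rfl
      exact ⟨h1 ▸ root_spec _, hfin⟩
  · exact small_of_not_cl hcl

def I : Set (Set ℕ) := {A | (Cl A).Finite ∧ ∀ z, Z z → Small A z}

lemma cyl_mem (z w : C) (k : ℕ) (h : ∀ i < k, w i = z i) :
    {f : C | ∀ i < k, f i = z i} ∈ 𝓝 w := by
  have : {f : C | ∀ i < k, f i = z i} = ⋂ i ∈ Finset.range k, {f : C | f i = z i} := by
    ext f; simp
  rw [this, biInter_finset_mem]
  intro i hi
  exact (continuous_apply i).continuousAt.preimage_mem_nhds (t := {z i})
    ((isOpen_discrete _).mem_nhds (h i (Finset.mem_range.1 hi)))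

lemma cyl_infinite (z : C) (k : ℕ) : {f : C | ∀ i < k, f i = z i}.Infinite := by
  refine infinite_of_injective_forall_mem
    (f := fun m : ℕ => Function.update z (k + m) (!z (k + m))) ?_ ?_
  · intro m n h
    by_contra hmn
    have := congrFun h (k + m)
    simp only [Function.update_self] at this
    rw [Function.update_of_ne (by omega)] at this
    simp at this
  · intro m i hi
    exact Function.update_of_ne (by omega) _ _

lemma exists_big (z : C) (hz : (Cl (S z)).Finite) :
    ∃ A : Set ℕ, ¬ Small A z ∧ Tendsto x (atTop ⊓ 𝓟 A) (𝓝 z) := by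
  have hG : (G z).Countable := (desc_countable (root z)).mono fun e he => he.1
  obtain ⟨g, hg⟩ := hG.exists_eq_range ⟨z, root_spec z, hz⟩
  have key : ∀ k : ℕ, ∃ n, k ≤ n ∧ (∀ i < k, x n i = z i) ∧ ∀ j ≤ k, n ∉ S (g j) := by
    intro k
    have hfin : (⋃ j ∈ Iic k, Cl (S (g j))).Finite :=
      (finite_Iic k).biUnion fun j _ => (show g j ∈ G z from hg ▸ mem_range_self j).2
    obtain ⟨w, hw, hw2⟩ := (cyl_infinite z k).exists_notMem_finite hfin
    have h1 : ∀ᶠ n in F w, ∀ j ∈ Iic k, n ∉ S (g j) := by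
      rw [eventually_all_finite (finite_Iic k)]
      intro j hj
      have : w ∉ Cl (S (g j)) := fun h => hw2 (mem_biUnion hj h)
      simpa only [Cl, mem_ofPred_eq, not_frequently] using this
    have h2 : ∀ᶠ n in F w, k ≤ n := (eventually_ge_atTop k).filter_mono inf_le_left
    have h3 : ∀ᶠ n in F w, ∀ i < k, x n i = z i :=
      Eventually.filter_mono inf_le_right (preimage_mem_comap (cyl_mem z w k hw))
    have := F_neBot w
    obtain ⟨n, hn⟩ := (h2.and (h3.and h1)).exists
    exact ⟨n, hn.1, hn.2.1, hn.2.2⟩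
  choose u hu1 hu2 hu3 using key
  have hxu : Tendsto (x ∘ u) atTop (𝓝 z) := by
    rw [tendsto_pi_nhds]
    intro i
    refine tendsto_const_nhds.congr' ?_
    filter_upwards [eventually_gt_atTop i] with k hk
    exact (hu2 k i hk).symm
  refine ⟨range u, ?_, ?_⟩
  · rintro ⟨T, hT, hTG, h⟩
    have hu : Tendsto u atTop (F z) :=
      tendsto_inf.2 ⟨tendsto_atTop_mono hu1 tendsto_id, tendsto_comap_iff.2 hxu⟩
    have h1 : ∀ᶠ k in atTop, ∀ e ∈ T, u k ∉ S e := by
      rw [eventually_all_finite hT]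
      intro e he
      obtain ⟨j, rfl⟩ : e ∈ range g := hg ▸ hTG he
      filter_upwards [eventually_ge_atTop j] with k hk
      exact hu3 k j hk
    obtain ⟨k, hk, hk2⟩ := ((hu.eventually h).and h1).exists
    obtain ⟨e, he, he2⟩ := hk (mem_range_self k)
    exact hk2 e he he2
  · intro U hU
    have h1 : {k | x (u k) ∉ U}.Finite := by
      have := hxu hU
      rw [← Nat.cofinite_eq_atTop] at this
      exact this
    rw [mem_map, mem_inf_principal, ← Nat.cofinite_eq_atTop, mem_cofinite]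
    refine (h1.image u).subset fun n hn => ?_
    simp only [mem_compl_iff, mem_ofPred_eq, mem_preimage, Classical.not_imp] at hn
    obtain ⟨⟨k, rfl⟩, hk⟩ := hn
    exact ⟨k, hk, rfl⟩

theorem result :
    ¬ (∀ I : Set (Set ℕ),
      (∀ A B : Set ℕ, A ∈ I → B ⊆ A → B ∈ I) →
      (∀ A B : Set ℕ, A ∈ I → B ∈ I → A ∪ B ∈ I) →
      (∀ A : Set ℕ, A.Finite → A ∈ I) →
      (Set.univ : Set ℕ) ∉ I →
      ∀ x : ℕ → (ℕ → Bool),
        {ℓ : ℕ → Bool | ∃ A : Set ℕ, A ∉ I ∧
            Filter.Tendsto x (Filter.atTop ⊓ Filter.principal A) (nhds ℓ)}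
          ≠ {f : ℕ → Bool | {n : ℕ | f n = true} ∈ I}) := by
  intro H
  refine H I ?_ ?_ ?_ ?_ x ?_
  · rintro A B ⟨h1, h2⟩ hBA
    refine ⟨h1.subset fun z hz => Frequently.mono hz fun n hn => hBA hn, fun z hz => ?_⟩
    obtain ⟨T, hT, hTG, h⟩ := h2 z hz
    exact ⟨T, hT, hTG, h.mono fun n hn hB => hn (hBA hB)⟩
  · rintro A B ⟨h1, h2⟩ ⟨h3, h4⟩
    refine ⟨(h1.union h3).subset fun z hz => frequently_or_distrib.1 hz, fun z hz => ?_⟩
    obtain ⟨T, hT, hTG, h⟩ := h2 z hz
    obtain ⟨T', hT', hTG', h'⟩ := h4 z hz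
    refine ⟨T ∪ T', hT.union hT', union_subset hTG hTG', (h.and h').mono ?_⟩
    rintro n ⟨hn, hn'⟩ (hA | hB)
    · obtain ⟨e, he, h⟩ := hn hA
      exact ⟨e, Or.inl he, h⟩
    · obtain ⟨e, he, h⟩ := hn' hB
      exact ⟨e, Or.inr he, h⟩
  · intro A hA
    have : ∀ z, z ∉ Cl A := by
      intro z
      simp only [Cl, mem_ofPred_eq, not_frequently]
      have h : ∀ᶠ n in atTop, n ∉ A := by
        rw [← Nat.cofinite_eq_atTop]; exact hA.compl_mem_cofinite
      exact h.filter_mono inf_le_left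
    refine ⟨finite_empty.subset fun z hz => this z hz, fun z _ => small_of_not_cl (this z)⟩
  · rintro ⟨h, -⟩
    refine cyl_infinite (fun _ => true) 0 (h.subset fun z _ => ?_)
    have := F_neBot z
    exact Frequently.of_forall fun _ => mem_univ _
  · ext l
    have hl : l ∈ {f : ℕ → Bool | {n : ℕ | f n = true} ∈ I} ↔ Z l := (Z_iff l).symm
    rw [hl]
    constructor
    · rintro ⟨A, hA, hx⟩
      by_contra hZ
      have hcl : ∀ z ∈ Cl A, z = l := by
        intro z hz
        have h1 : (F z ⊓ 𝓟 A).NeBot := frequently_mem_iff_neBot.1 hz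
        have h2 : Tendsto x (F z ⊓ 𝓟 A) (𝓝 z) :=
          tendsto_comap.mono_left (inf_le_left.trans inf_le_right)
        have h3 : Tendsto x (F z ⊓ 𝓟 A) (𝓝 l) :=
          hx.mono_left (inf_le_inf_right _ inf_le_left)
        exact tendsto_nhds_unique h2 h3
      refine hA ⟨(finite_singleton l).subset hcl, fun z hz => small_of_not_cl fun h => ?_⟩
      exact hZ (hcl z h ▸ hz)
    · intro hZ
      obtain ⟨A, hA, hx⟩ := exists_big l ((Z_iff l).1 hZ).1
      exact ⟨A, fun h => hA (h.2 l hZ), hx⟩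

end Pool.Agent.S15504
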