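import Pool.Statements.S15510
import Pool.Agent.H.MP_e29ee7_lc.Tree

set_option autoImplicit false
open Pool Pool.MP_e29ee7_lc

namespace Pool.Agent.S15510

open Pool.Agent.H.MP_e29ee7_lc Pool.Agent.Lib.helper21.RigidReals in
theorem result :
    ¬ (∀ (T : Type) [PartialOrder T],
      (∀ x : T, IsChain (· ≤ ·) {y : T | y < x}) →
      (∃ f : ℕ → Set T, (∀ n, IsChain (· ≤ ·) (f n)) ∧ (⋃ n, f n) = Set.univ) →
      ∀ S : Set (Set T),
        (∀ c ∈ S, IsMaxChain (· ≤ ·) c) →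
        IsChain (fun c d : Set T => Nonempty (↥c ↪o ↥d)) S →
        (∀ U : Set (Set T), (∀ c ∈ U, IsMaxChain (· ≤ ·) c) →
            IsChain (fun c d : Set T => Nonempty (↥c ↪o ↥d)) U → S ⊆ U → U = S) →
        ∃ D : Set (Set T), D ⊆ S ∧ D.Countable ∧
          ∀ c ∈ S, ∃ d ∈ D, Nonempty (↥c ↪o ↥d)) := by
  intro h
  obtain ⟨x, hx, hr⟩ := exists_rigid
  obtain ⟨c, hc⟩ := exists_colouring (ℕ × ℕ)
  have hsurj : Function.Surjective c := fun p => by
    have : (c ⁻¹' {p}).Nonempty := by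
      rw [← Set.nonempty_coe_sort, ← Cardinal.mk_ne_zero_iff, hc]; exact Cardinal.continuum_ne_zero
    exact this
  let _ := po x c hx
  let R : Set (Node x c) → Set (Node x c) → Prop := fun c d => Nonempty (↥c ↪o ↥d)
  obtain ⟨S, hS⟩ := zorn_subset
    {S : Set (Set (Node x c)) | (∀ K ∈ S, IsMaxChain (· ≤ ·) K) ∧ IsChain R S} (by
      intro C hC hchain
      refine ⟨⋃₀ C, ⟨?_, ?_⟩, fun s hs => Set.subset_sUnion_of_mem hs⟩
      · rintro K ⟨s, hs, hK⟩; exact (hC hs).1 K hK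
      · rintro K ⟨s, hs, hK⟩ K' ⟨s', hs', hK'⟩ hne
        rcases hchain.total hs hs' with g | g
        · exact (hC hs').2 (g hK) hK' hne
        · exact (hC hs).2 hK (g hK') hne)
  have hmax : ∀ U : Set (Set (Node x c)), (∀ K ∈ U, IsMaxChain (· ≤ ·) K) → IsChain R U →
      S ⊆ U → U = S := fun U h1 h2 h3 => (hS.eq_of_subset ⟨h1, h2⟩ h3).symm
  obtain ⟨D, hDS, hD, hcof⟩ := h (Node x c) (tree x c hx) (cover x c hx) S hS.prop.1 hS.prop.2 hmax
  have hex : ∀ K : D, ∃ y, K.1 = B x c y := fun K => max_eq x c hx K.1 (hS.prop.1 _ (hDS K.2))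
  choose g hg using hex
  have : Countable D := hD
  obtain ⟨e, he⟩ := Set.countable_iff_exists_subset_range.1 (Set.countable_range g)
  let y : ℕ → ℕ := fun k => 1 + ∑ n ∈ Finset.range (k + 1), e n k
  have hy : ∀ n k, n ≤ k → e n k < y k := by
    intro n k hk
    have := Finset.single_le_sum (f := fun n => e n k) (fun i _ => Nat.zero_le _)
      (Finset.mem_range.2 (show n < k + 1 by omega))
    simp only [y]; omega
  have hup : ∀ K ∈ S, R K (B x c y) := by
    intro K hK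
    obtain ⟨d, hd, ⟨φ⟩⟩ := hcof K hK
    obtain ⟨n, hn⟩ := he ⟨⟨d, hd⟩, rfl⟩
    have e1 : d = B x c (e n) := by rw [hn]; exact hg ⟨d, hd⟩
    subst e1
    obtain ⟨ψ⟩ := embed x c hx (e n) y n (fun k hk => (hy n k hk).le)
    exact ⟨φ.trans ψ⟩
  have hU := hmax (insert (B x c y) S) (by
      rintro K (rfl | hK)
      · exact B_max x c hx hsurj y
      · exact hS.prop.1 K hK)
    (hS.prop.2.insert fun K hK _ => Or.inr (hup K hK)) (Set.subset_insert _ _)
  have hmem : B x c y ∈ S := hU ▸ Set.mem_insert _ _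
  obtain ⟨d, hd, hφ⟩ := hcof _ hmem
  obtain ⟨n, hn⟩ := he ⟨⟨d, hd⟩, rfl⟩
  have e1 : d = B x c (e n) := by rw [hn]; exact hg ⟨d, hd⟩
  subst e1
  exact no_embed x c hx hc hr y (e n) n (hy n) hφ

end Pool.Agent.S15510
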