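import Pool.Statements.S15529
import Pool.Agent.H.MP_e58cbf_lc.B

set_option autoImplicit false
open Pool Pool.MP_e58cbf_lc

namespace Pool.Agent.S15529

open Pool.Agent.Lib.helper21.PR Pool.Agent.H.MP_fa5791_lc Pool.Agent.H.MP_e58cbf_lc Set

attribute [local irreducible] Primrec Computable

theorem result :
    ∃ R : ℕ → ℕ → Prop,
      ComputablePred (fun p : ℕ × ℕ => R p.1 p.2) ∧
      (∃ f : ℕ ≃ Lex (ℚ × Lex (ℕᵒᵈ →₀ ℤ)), ∀ a b : ℕ, R a b ↔ f a < f b) ∧
      ∀ S : Set ℕ,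
        (∀ A : (k : ℕ) → Set ((Fin k → ℕ) → Prop),
          (∀ k : ℕ, ∀ P : (Fin k → ℕ) → Prop, ComputablePred P → P ∈ A k) →
          (∀ k : ℕ, ∀ P : (Fin k → ℕ) → Prop, P ∈ A k → (fun v => ¬ P v) ∈ A k) →
          (∀ k : ℕ, ∀ P : (Fin (k + 1) → ℕ) → Prop, P ∈ A (k + 1) →
              (fun v : Fin k → ℕ => ∃ m : ℕ, P (Fin.cons m v : Fin (k + 1) → ℕ)) ∈ A k) →
          (fun v : Fin 1 → ℕ => v 0 ∈ S) ∈ A 1) →
        ¬ ∃ g : S ≃ ℚ, ∀ a b : S, R a b ↔ g a < g b := by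
  classical
  obtain ⟨q, L, p, c, H⟩ := level
  choose x1 x2 x3 x4 x5 x6 x7 x8 x9 using H
  obtain ⟨X, X0, X1⟩ : ∃ X : ℕ → ℕ → Bool, X 0 = O ∧ ∀ n, X (n + 1) = J (X n) :=
    ⟨fun n => J^[n] O, rfl, fun n => Function.iterate_succ_apply' _ _ _⟩
  obtain ⟨θ, t0, t1⟩ : ∃ θ : ℕ → ℕ → ℕ, (∀ y, θ 0 y = y) ∧ ∀ n y, θ (n + 1) y = p n (X n) (θ n y) :=
    ⟨fun n y => Nat.rec y (fun n a => p n (X n) a) n, fun _ => rfl, fun _ _ => rfl⟩
  have t2 : ∀ n y, θ n y ≤ y := fun n y => by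
    induction n with
    | zero => exact (t0 y).le
    | succ n ih => exact t1 n y ▸ (x4 _ _ _).trans ih
  have t3 : ∀ n y, θ n y ≤ n → ∀ m ≥ n, θ m y = θ n y := fun n y h m k => by
    induction k with
    | refl => rfl
    | step k ih => rw [t1, ih, (x5 _ _ _ (h.trans k)).1]
  have as : ∀ {n Y a d}, L n Y a d → ¬ L n Y d a := fun {n Y a d} h k => by
    by_cases e : a = d
    · simp [e, (x7 n Y).1] at h
    · simp [(x7 n Y).2 a d e, k] at h
  have inj : ∀ {n Y a d}, p n Y a = p n Y d → c n Y a = c n Y d → a = d := fun {n Y a d} h k => by_contra fun e => by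
    have := (x7 n Y).2 a d e
    rw [Bool.eq_iff_iff, Bool.not_eq_true', ← Bool.not_eq_true, x8 n Y a d, x8 n Y d a, h, k] at this
    simp [(x7 _ _).1] at this
  have chain : ∀ N y z, L 0 O y z ↔ L N (X N) (θ N y) (θ N z) ∨ θ N y = θ N z ∧ ∃ i < N, (∀ j < N, i < j →
      c j (X j) (θ j y) = c j (X j) (θ j z)) ∧ c i (X i) (θ i y) < c i (X i) (θ i z) := fun N y z => by
    induction N with
    | zero => simp [t0, X0]
    | succ N ih =>
      rw [ih, x8, t1, t1, X1, or_assoc]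
      refine or_congr_right ⟨?_, fun ⟨a, i, b, d, e⟩ => ?_⟩
      · rintro (⟨a, b⟩ | ⟨a, i, b, d, e⟩)
        exacts [⟨a, N, by omega, by omega, b⟩, ⟨by rw [a], i, by omega, fun j k l =>
          (Nat.lt_succ_iff_lt_or_eq.1 k).elim (d j · l) fun k => by rw [k, a], e⟩]
      · rcases Nat.lt_succ_iff_lt_or_eq.1 b with b | rfl
        exacts [.inr ⟨inj a (d N (by omega) b), i, b, fun j k => d j (by omega), e⟩, .inl ⟨a, e⟩]
  have z0 : ∀ y j, y ≤ j → c j (X j) (θ j y) = 0 := fun y j h => (x5 _ _ _ ((t2 j y).trans h)).2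
  let f : ℕ → ℕᵒᵈ →₀ ℤ := fun y => (Finsupp.onFinset (Finset.range y) (fun j => c j (X j) (θ j y)) fun j h =>
    Finset.mem_range.2 (not_le.1 (mt (z0 y j) h)) : ℕ →₀ ℤ)
  let Φ : ℕ → Lex (ℚ × Lex (ℕᵒᵈ →₀ ℤ)) := fun y => toLex (q (θ y y), toLex (f y))
  have key : ∀ y z, L 0 O y z ↔ Φ y < Φ z := fun y z => by
    rw [chain (y + z), t3 y y (t2 _ _) _ (by omega), t3 z z (t2 _ _) _ (by omega), x3 _ _ _ ((t2 _ _).trans
      (by omega)) _ ((t2 _ _).trans (by omega)), Prod.Lex.lt_iff]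
    refine or_congr_right (and_congr q.injective.eq_iff.symm ⟨fun ⟨i, _, b, d⟩ => ⟨i, fun (j : ℕ) (k : i < j) =>
      (lt_or_ge j (y + z)).elim (b j · k) fun l => (z0 y j (by omega)).trans (z0 z j (by omega)).symm, d⟩,
        fun ⟨(i : ℕ), b, d⟩ => ⟨i, not_le.1 fun l => d.ne ((z0 y i (by omega)).trans (z0 z i (by omega)).symm),
          fun j _ k => b j k, d⟩⟩)
  refine ⟨fun y z => L 0 O y z, ComputablePred.computable_iff.2 ⟨_, ci_comput (x1 0 O), rfl⟩, ⟨Equiv.ofBijective Φ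
    ⟨fun y z h => by_contra fun e => ?_, fun ⟨r, g⟩ => ?_⟩, key⟩, fun S h ⟨g, hg⟩ => ?_⟩
  · have := (x7 0 O).2 y z e
    rw [Bool.eq_iff_iff, Bool.not_eq_true', ← Bool.not_eq_true, key, key, h] at this
    simp at this
  · have : ∀ N w, ∃ y, θ N y = w ∧ ∀ j < N, c j (X j) (θ j y) = g j := fun N => by
      induction N with
      | zero => exact fun w => ⟨w, t0 w, by simp⟩
      | succ N ih =>
        intro w
        obtain ⟨a, b, d⟩ := x6 N (X N) w (g N)
        obtain ⟨y, e, k⟩ := ih a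
        exact ⟨y, by rw [t1, e, b], fun j l => (Nat.lt_succ_iff_lt_or_eq.1 l).elim (k j) fun l => by rw [l, e, d]⟩
    obtain ⟨M, hM⟩ := (g.support : Finset ℕ).exists_nat_subset_range
    obtain ⟨y, a, b⟩ := this (M + q.symm r) (q.symm r)
    have e := t3 _ y (a.trans_le (by omega))
    refine ⟨y, Prod.ext ?_ (Finsupp.ext fun (j : ℕ) => (lt_or_ge j (M + q.symm r)).elim (b j) fun k => ?_)⟩
    · exact q.eq_symm_apply.1 ((t3 y y (t2 _ _) (y + (M + q.symm r)) (by omega)).symm.trans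
        ((e _ (by omega)).trans a))
    · exact ((x5 _ _ _ ((e j k).trans_le (by omega))).2).trans (Finsupp.notMem_support_iff.1 fun l => by
        have := Finset.mem_range.1 (hM l); omega).symm
  obtain ⟨n, h⟩ := h (fun k => {P | ∃ n, CI (X n) fun v => cd (P v)}) (fun k P h => ⟨0, ci_dec (i_re (RE.mk h.to_re))
    (i_re (RE.mk h.not.to_re)) fun _ => .rfl⟩) (fun k P ⟨n, h⟩ => ⟨n, ci_not h⟩) fun k P ⟨n, h⟩ => ⟨n + 1, X1 n ▸
      RI.jump (i_exists (i_ci (ci_comp (g := fun z : (Fin k → ℕ) × ℕ => (Fin.cons z.2 z.1 : Fin (k + 1) → ℕ)) h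
        (ci_prim ((Primrec.vector_get'.comp (Primrec.vector_cons.comp .snd (Primrec.vector_ofFn'.comp .fst))).of_eq
          fun z => funext fun i => by cases i using Fin.cases <;> simp))))).un⟩
  have h1 : RI (X n) (· ∈ S) := (i_ci (ci_comp (g := fun y (_ : Fin 1) => y) h (ci_prim
    (Primrec.fin_curry.2 Primrec.fst)))).un
  have h2 : ∀ n, CI (X n) (θ n) := fun n => by
    induction n with
    | zero => exact ci_id.of_eq fun y => (t0 y).symm
    | succ n ih => exact X1 n ▸ (ci_comp (x2 n (X n)) (ih.trans (ci_J _))).of_eq fun y => (t1 n y).symm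
  have h3 : ∀ n, ∀ y z : S, θ n y = θ n z → y = z := fun n => by
    induction n with
    | zero => exact fun y z h => Subtype.ext (by simpa [t0] using h)
    | succ n ih =>
      have a : ∀ y z : S, g y < g z → L n (X n) (θ n y) (θ n z) := fun y z h => ((chain n y z).1
        ((hg y z).2 h)).resolve_right fun k => h.ne (congrArg g (ih _ _ k.1))
      have : ∀ y z : S, θ (n + 1) y = θ (n + 1) z → ¬ g y < g z := fun y z e h => by
        rw [t1, t1] at e
        have b : ∀ r ∈ Ioo (g y) (g z), p n (X n) (θ n y) = p n (X n) (θ n (g.symm r)) ∧ c n (X n) (θ n (g.symm r)) ∈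
            Ioo (c n (X n) (θ n y)) (c n (X n) (θ n z)) := fun r k => by
          rcases (x8 _ _ _ _).1 (a y (g.symm r) (by simpa using k.1)) with b | b <;>
            rcases (x8 _ _ _ _).1 (a (g.symm r) z (by simpa using k.2)) with d | d
          exacts [(as b (e ▸ d)).elim, by simp [d.1, e, (x7 _ _).1] at b, by simp [← b.1, e, (x7 _ _).1] at d,
            ⟨b.1, b.2, d.2⟩]
        exact Ioo_infinite h ((finite_Ioo _ _).of_injOn (fun r k => (b r k).2) fun r k s l m =>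
          g.symm.injective (ih _ _ (inj ((b r k).1.symm.trans (b s l).1) m)))
      exact fun y z e => g.injective ((not_lt.1 (this z y e.symm)).antisymm (not_lt.1 (this y z e)))
  obtain ⟨β, b1, b2⟩ : ∃ β : ℕ → Prop, RI (X n) β ∧ ∀ y, β y ↔ y ∈ S := ⟨_, h1, fun _ => .rfl⟩
  have := h2 n
  obtain ⟨_, _, e, ⟨y, a, rfl⟩, ⟨z, b, rfl⟩, k⟩ := x9 n (X n) (fun w => ∃ y, β y ∧ θ n y = w) (RI.un (by fun_prop))
    (infinite_of_injective_forall_mem (f := fun r => θ n (g.symm r)) (fun r s h => g.symm.injective (h3 n _ _ h))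
      fun r => ⟨_, (b2 _).2 (g.symm r).2, rfl⟩)
  exact e (congrArg (θ n ·.1) (h3 (n + 1) ⟨y, (b2 _).1 a⟩ ⟨z, (b2 _).1 b⟩ (by rwa [t1, t1])))

end Pool.Agent.S15529
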