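import Pool.Statements.S15538

set_option autoImplicit false
open FirstOrder FirstOrder.Language
open Pool Pool.MP_e6168a_lc

namespace Pool.Agent.S15538

open Finset

inductive Rel : ℕ → Type
  | P (i : Fin 8) : Rel 1
  | Q (i : Fin 16) : Rel 1
  | R (i : Fin 16) : Rel 2

def LL : FirstOrder.Language.{0, 0} := ⟨fun _ => Empty, Rel⟩

theorem finRel : Finite (Σ l, LL.Relations l) := by
  let f : Fin 8 ⊕ Fin 16 ⊕ Fin 16 → (Σ l, LL.Relations l) := fun s =>
    match s with
    | .inl i => ⟨1, Rel.P i⟩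
    | .inr (.inl i) => ⟨1, Rel.Q i⟩
    | .inr (.inr i) => ⟨2, Rel.R i⟩
  refine Finite.of_surjective f ?_
  rintro ⟨l, r⟩
  cases r with
  | P i => exact ⟨.inl i, rfl⟩
  | Q i => exact ⟨.inr (.inl i), rfl⟩
  | R i => exact ⟨.inr (.inr i), rfl⟩

abbrev D (n : ℕ) := (Fin n → Finset (Fin 8)) × (Fin n → Finset (Fin 16 × Option (Fin n)))

def relOf {n : ℕ} (d : D n) : ∀ {l : ℕ}, Rel l → (Fin l → Fin n) → Prop
  | _, .P i, x => i ∈ d.1 (x 0)
  | _, .Q i, x => (i, none) ∈ d.2 (x 0)
  | _, .R i, x => (i, some (x 1)) ∈ d.2 (x 0)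

@[reducible] def mk {n : ℕ} (d : D n) : LL.Structure (Fin n) where
  funMap f := (f : Empty).elim
  RelMap := fun r x => relOf d r x

theorem mk_bij (n : ℕ) : Function.Bijective (mk : D n → LL.Structure (Fin n)) := by
  classical
  constructor
  · intro d d' h
    have h' : ∀ {l : ℕ} (r : Rel l) (x : Fin l → Fin n), relOf d r x ↔ relOf d' r x := by
      intro l r x
      have : @Structure.RelMap LL _ (mk d) l r x = @Structure.RelMap LL _ (mk d') l r x := by
        rw [h]
      exact iff_of_eq this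
    refine Prod.ext (funext fun x => Finset.ext fun i => ?_) (funext fun x => Finset.ext ?_)
    · exact h' (.P i) ![x]
    · rintro ⟨i, _ | y⟩
      · exact h' (.Q i) ![x]
      · exact h' (.R i) ![x, y]
  · intro M
    refine ⟨(fun x => univ.filter fun i => @Structure.RelMap LL _ M 1 (Rel.P i) ![x],
      fun x => univ.filter fun p => Option.casesOn (motive := fun _ => Prop) p.2
        (@Structure.RelMap LL _ M 1 (Rel.Q p.1) ![x])
        (fun y => @Structure.RelMap LL _ M 2 (Rel.R p.1) ![x, y])), ?_⟩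
    refine Structure.ext ?_ ?_
    · funext l f
      exact (f : Empty).elim
    · funext l r x
      cases r with
      | P i =>
        have : ![x 0] = x := by ext j; fin_cases j; rfl
        refine propext (mem_filter.trans ?_)
        rw [this]; simp
      | Q i =>
        have : ![x 0] = x := by ext j; fin_cases j; rfl
        refine propext (mem_filter.trans ?_)
        simp only [this]; simp
      | R i =>
        have : ![x 0, x 1] = x := by ext j; fin_cases j <;> rfl
        refine propext (mem_filter.trans ?_)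
        simp only [this]; simp

theorem hom_iff {n n' : ℕ} (d : D n) (d' : D n') :
    Nonempty (@FirstOrder.Language.Hom LL (Fin n) (Fin n') (mk d) (mk d')) ↔
      ∃ h : Fin n → Fin n', (∀ x i, i ∈ d.1 x → i ∈ d'.1 (h x)) ∧
        ∀ x i t, (i, t) ∈ d.2 x → (i, t.map h) ∈ d'.2 (h x) := by
  constructor
  · rintro ⟨f⟩
    refine ⟨@Hom.toFun LL _ _ (mk d) (mk d') f, fun x i hx => ?_, fun x i t hx => ?_⟩
    · exact @Hom.map_rel' LL _ _ (mk d) (mk d') f 1 (Rel.P i) ![x] hx
    · cases t with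
      | none => exact @Hom.map_rel' LL _ _ (mk d) (mk d') f 1 (Rel.Q i) ![x] hx
      | some y => exact @Hom.map_rel' LL _ _ (mk d) (mk d') f 2 (Rel.R i) ![x, y] hx
  · rintro ⟨h, h1, h2⟩
    refine ⟨@Hom.mk LL _ _ (mk d) (mk d') h (fun f => (f : Empty).elim) ?_⟩
    intro l r x hx
    cases r with
    | P i => exact h1 _ _ hx
    | Q i => exact h2 _ _ none hx
    | R i => exact h2 _ _ (some _) hx

abbrev I := (Fin 16 × Fin 16 × Bool) ⊕ (Fin 8 × Fin 16)

def FF : I → D 3
  | .inl (i, j, b) => (fun _ => ∅,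
      ![{(i, some 1)}, {(j, if b then some 2 else none)}, ∅])
  | .inr (i, j) => (![{i}, ∅, ∅], ![∅, {(j, none)}, ∅])

def Good {n : ℕ} (d : D n) : Prop :=
  (∀ x i y, (i, some y) ∈ d.2 x → d.2 y = ∅) ∧ (∀ x i y j, i ∈ d.1 x → (j, none) ∉ d.2 y)

theorem good_iff {n : ℕ} (d : D n) :
    (∀ s : I, IsEmpty (@FirstOrder.Language.Hom LL (Fin 3) (Fin n) (mk (FF s)) (mk d))) ↔
      Good d := by
  simp only [← not_nonempty_iff, hom_iff]
  constructor
  · intro h
    constructor
    · intro x i y hx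
      by_contra hne
      obtain ⟨⟨j, t⟩, ht⟩ := Finset.nonempty_iff_ne_empty.2 hne
      cases t with
      | none =>
        refine h (.inl (i, j, false)) ⟨![x, y, y], by simp [FF], ?_⟩
        intro a i' t ha
        fin_cases a <;> simp [FF] at ha
        · obtain ⟨rfl, rfl⟩ := ha; simpa using hx
        · obtain ⟨rfl, rfl⟩ := ha; simpa using ht
      | some z =>
        refine h (.inl (i, j, true)) ⟨![x, y, z], by simp [FF], ?_⟩
        intro a i' t ha
        fin_cases a <;> simp [FF] at ha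
        · obtain ⟨rfl, rfl⟩ := ha; simpa using hx
        · obtain ⟨rfl, rfl⟩ := ha; simpa using ht
    · intro x i y j hx hy
      refine h (.inr (i, j)) ⟨![x, y, y], ?_, ?_⟩
      · intro a i' ha
        fin_cases a <;> simp [FF] at ha
        subst ha; simpa using hx
      · intro a i' t ha
        fin_cases a <;> simp [FF] at ha
        obtain ⟨rfl, rfl⟩ := ha; simpa using hy
  · rintro ⟨g1, g2⟩ s ⟨h, h1, h2⟩
    rcases s with ⟨i, j, b⟩ | ⟨i, j⟩
    · have a1 := h2 0 i (some 1) (by simp [FF])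
      have a2 := h2 1 j (if b then some 2 else none) (by simp [FF])
      rw [g1 _ _ _ a1] at a2
      simp at a2
    · have a1 := h1 0 i (by simp [FF])
      have a2 := h2 1 j none (by simp [FF])
      exact g2 _ _ _ _ a1 a2

noncomputable def phi : LL.Sentence :=
  (BoundedFormula.iSup fun i : Fin 8 =>
    Relations.boundedFormula₁ (L := LL) (Rel.P i) (Term.var (Sum.inr (0 : Fin 1)))).ex

theorem phi_iff {n : ℕ} (d : D n) :
    @Sentence.Realize LL (Fin n) (mk d) phi ↔ ∃ x i, i ∈ d.1 x := by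
  let _ := mk d
  simp only [phi, Sentence.Realize, Formula.Realize, BoundedFormula.realize_ex,
    BoundedFormula.realize_iSup, BoundedFormula.realize_rel₁]
  rfl

def cnt (n t : ℕ) : ℕ := ∑ k ∈ range (n + 1), n.choose k * ((2 ^ 16) ^ (n - k + t) - 1) ^ k

def allowed {n : ℕ} (b : Bool) (X : Finset (Fin n)) : Finset (Option (Fin n)) :=
  if b then insertNone Xᶜ else Xᶜ.map Function.Embedding.some

theorem card_allowed {n : ℕ} (b : Bool) (X : Finset (Fin n)) :
    #(allowed b X) = n - #X + b.toNat := by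
  cases b <;> simp [allowed, card_compl]

theorem mem_allowed {n : ℕ} (b : Bool) (X : Finset (Fin n)) (t : Option (Fin n)) :
    t ∈ allowed b X ↔ (t = none → b = true) ∧ ∀ y, t = some y → y ∉ X := by
  cases b <;> cases t <;> simp [allowed]

open Classical in
noncomputable def G (n : ℕ) (b : Bool) : Finset (Fin n → Finset (Fin 16 × Option (Fin n))) :=
  univ.filter fun o => (∀ x i y, (i, some y) ∈ o x → o y = ∅) ∧
    ∀ x i, (i, none) ∈ o x → b = true

theorem card_G (n : ℕ) (b : Bool) : #(G n b) = cnt n b.toNat := by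
  classical
  rw [card_eq_sum_card_fiberwise (f := fun o => univ.filter fun x => o x ≠ ∅)
    (t := (univ : Finset (Fin n)).powerset) (fun o _ => by simp)]
  have key : ∀ X : Finset (Fin n),
      #{o ∈ G n b | (univ.filter fun x => o x ≠ ∅) = X} =
        ((2 ^ 16) ^ (n - #X + b.toNat) - 1) ^ #X := by
    intro X
    have : {o ∈ G n b | (univ.filter fun x => o x ≠ ∅) = X} =
        Fintype.piFinset fun x => if x ∈ X then
          (((univ : Finset (Fin 16)) ×ˢ allowed b X).powerset.erase ∅) else {∅} := by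
      ext o
      simp only [G, mem_filter, mem_univ, true_and, Fintype.mem_piFinset]
      constructor
      · rintro ⟨⟨h1, h2⟩, rfl⟩ x
        by_cases hx : o x = ∅
        · simp [hx]
        · simp only [mem_filter, mem_univ, true_and, ne_eq, hx, not_false_eq_true, if_true,
            mem_erase, mem_powerset]
          rintro ⟨i, t⟩ ht
          simp only [mem_product, mem_univ, true_and, mem_allowed]
          refine ⟨fun h => h2 x i (h ▸ ht), fun y h => ?_⟩
          subst h
          simp [h1 x i y ht]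
      · intro h
        have hX : ∀ x, o x ≠ ∅ ↔ x ∈ X := by
          intro x
          have := h x
          by_cases hx : x ∈ X
          · simp only [hx, if_true, mem_erase] at this
            simp [hx, this.1]
          · simp only [hx, if_false, mem_singleton] at this
            simp [hx, this]
        have hm : ∀ x i t, (i, t) ∈ o x → t ∈ allowed b X := by
          intro x i t ht
          have hx : x ∈ X := (hX x).1 (ne_empty_of_mem ht)
          have := h x
          simp only [hx, if_true, mem_erase, mem_powerset] at this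
          exact (mem_product.1 (this.2 ht)).2
        refine ⟨⟨fun x i y hy => ?_, fun x i hy => ?_⟩, ?_⟩
        · have := ((mem_allowed _ _ _).1 (hm x i _ hy)).2 y rfl
          by_contra hne
          exact this ((hX y).1 hne)
        · exact ((mem_allowed _ _ _).1 (hm x i _ hy)).1 rfl
        · ext x; simp [← hX x]
    rw [this, Fintype.card_piFinset]
    simp only [apply_ite Finset.card, card_singleton]
    rw [Finset.prod_ite, prod_const_one, mul_one, prod_const, card_erase_of_mem (by simp),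
      card_powerset, card_product, card_allowed, card_univ, Fintype.card_fin, pow_mul]
    congr 1
    simp
  rw [sum_congr rfl fun X _ => key X,
    sum_powerset_apply_card (fun k => ((2 ^ 16) ^ (n - k + b.toNat) - 1) ^ k)]
  simp [cnt]

theorem card_phi (n : ℕ) :
    Nat.card {d : D n // Good d ∧ ∃ x i, i ∈ d.1 x} = ((2 ^ 8) ^ n - 1) * cnt n 0 := by
  classical
  rw [Nat.subtype_card (((univ : Finset (Fin n → Finset (Fin 8))).erase fun _ => ∅) ×ˢ G n false)]
  · rw [card_product, card_G, card_erase_of_mem (mem_univ _), card_univ]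
    simp
  · rintro ⟨p, o⟩
    simp only [mem_product, mem_erase, mem_univ, and_true, G, mem_filter, true_and, Good]
    constructor
    · rintro ⟨h1, h2, h3⟩
      refine ⟨⟨h2, fun x i y j _ hy => by simpa using h3 y j hy⟩, ?_⟩
      by_contra hc
      push Not at hc
      exact h1 (funext fun x => eq_empty_of_forall_notMem (hc x))
    · rintro ⟨⟨h1, h2⟩, x, i, hx⟩
      refine ⟨fun h => by simp [h] at hx, h1, fun y j hy => (h2 x i y j hx hy).elim⟩

theorem card_all (n : ℕ) :
    Nat.card {d : D n // Good d} = ((2 ^ 8) ^ n - 1) * cnt n 0 + cnt n 1 := by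
  classical
  rw [Nat.subtype_card
    ((((univ : Finset (Fin n → Finset (Fin 8))).erase fun _ => ∅) ×ˢ G n false) ∪
      ({fun _ => ∅} ×ˢ G n true))]
  · rw [card_union_of_disjoint, card_product, card_product, card_G, card_G,
      card_erase_of_mem (mem_univ _), card_univ]
    · simp
    · rw [disjoint_left]
      rintro ⟨p, o⟩ h1 h2
      simp only [mem_product, mem_erase, mem_singleton] at h1 h2
      exact h1.1.1 h2.1
  · rintro ⟨p, o⟩
    simp only [mem_union, mem_product, mem_erase, mem_univ, and_true, G, mem_filter, true_and,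
      Good, mem_singleton]
    constructor
    · rintro (⟨h1, h2, h3⟩ | ⟨rfl, h2, -⟩)
      · exact ⟨h2, fun x i y j _ hy => by simpa using h3 y j hy⟩
      · exact ⟨h2, fun x i y j hx => by simp at hx⟩
    · rintro ⟨h1, h2⟩
      by_cases hp : p = fun _ => ∅
      · exact Or.inr ⟨hp, h1, fun _ _ _ => trivial⟩
      · refine Or.inl ⟨hp, h1, fun y j hy => ?_⟩
        obtain ⟨x, hx⟩ := Function.ne_iff.1 hp
        obtain ⟨i, hi⟩ := Finset.nonempty_iff_ne_empty.2 hx
        exact (h2 x i y j hi hy).elim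

theorem theta (B : ℕ) (hB : 2 ≤ B) (m : ℕ) :
    ∑ k ∈ range (2 * m + 2), B ^ (k * (2 * m + 1 - k)) + 2 ≤ 4 * B ^ (m * (m + 1)) := by
  induction m with
  | zero => simp [sum_range_succ]
  | succ m ih =>
    rw [show 2 * (m + 1) + 2 = (2 * m + 2) + 1 + 1 by ring, sum_range_succ, sum_range_succ']
    have e : ∑ k ∈ range (2 * m + 2), B ^ ((k + 1) * (2 * (m + 1) + 1 - (k + 1))) =
        B ^ (2 * m + 2) * ∑ k ∈ range (2 * m + 2), B ^ (k * (2 * m + 1 - k)) := by
      rw [mul_sum]
      refine sum_congr rfl fun k hk => ?_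
      rw [← pow_add]
      congr 1
      obtain ⟨j, hj⟩ : ∃ j, 2 * m + 1 = k + j := ⟨2 * m + 1 - k, by simp at hk; omega⟩
      rw [show 2 * (m + 1) + 1 - (k + 1) = j + 1 by omega, show 2 * m + 1 - k = j by omega]
      nlinarith
    rw [e, show 2 * (m + 1) + 1 - (2 * m + 2 + 1) = 0 by omega,
      show (m + 1) * (m + 1 + 1) = (2 * m + 2) + m * (m + 1) by ring, pow_add B (2 * m + 2)]
    have h2 : 2 ≤ B ^ (2 * m + 2) := le_trans hB (Nat.le_self_pow (by omega) B)
    simp only [zero_mul, mul_zero, pow_zero]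
    nlinarith

theorem cnt_le (n t m : ℕ) (h : n + t = 2 * m + 1) :
    cnt n t ≤ n.choose (n / 2) * (4 * (2 ^ 16) ^ (m * (m + 1))) := by
  have h1 := theta (2 ^ 16) (by norm_num) m
  calc cnt n t ≤ ∑ k ∈ range (n + 1), n.choose (n / 2) * (2 ^ 16) ^ (k * (2 * m + 1 - k)) := by
        refine sum_le_sum fun k hk => Nat.mul_le_mul (Nat.choose_le_middle k n) ?_
        rw [mul_comm k, pow_mul, show 2 * m + 1 - k = n - k + t by simp at hk; omega]
        exact Nat.pow_le_pow_left (Nat.sub_le _ _) _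
    _ ≤ ∑ k ∈ range (2 * m + 2), n.choose (n / 2) * (2 ^ 16) ^ (k * (2 * m + 1 - k)) :=
        sum_le_sum_of_subset (range_subset_range.2 (by omega))
    _ ≤ _ := by
        rw [← mul_sum]
        exact Nat.mul_le_mul_left _ (by omega)

theorem bern (B : ℕ) (hB : 2 ≤ B) (m : ℕ) (hm : 1 ≤ m) :
    (B ^ m) ^ m ≤ 2 * (B ^ m - 1) ^ m := by
  have h1 : 2 * m ≤ B ^ m := by
    calc 2 * m ≤ 2 ^ m := Nat.mul_le_pow (by norm_num) m
      _ ≤ B ^ m := Nat.pow_le_pow_left hB m
  obtain ⟨A, hA⟩ : ∃ A, B ^ m = A + 1 := ⟨B ^ m - 1, by omega⟩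
  rw [hA] at h1 ⊢
  simp only [Nat.add_sub_cancel]
  have hA0 : (0 : ℝ) < A + 1 := by positivity
  have h1' : (2 * m : ℝ) ≤ A + 1 := by exact_mod_cast h1
  have h2 := one_add_mul_le_pow (a := -(1 / (A + 1 : ℝ))) (by
    have : 1 / (A + 1 : ℝ) ≤ 1 := by rw [div_le_one hA0]; linarith [Nat.cast_nonneg (α := ℝ) A]
    linarith) m
  have h3 : (1 + -(1 / (A + 1 : ℝ))) = A / (A + 1) := by field_simp; ring
  have h4 : (m : ℝ) * (1 / (A + 1)) ≤ 1 / 2 := by
    rw [mul_one_div, div_le_iff₀ hA0]; linarith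
  rw [h3, div_pow, le_div_iff₀ (by positivity)] at h2
  have h5 : ((A : ℝ) + 1) ^ m ≤ 2 * (A : ℝ) ^ m := by
    have : (0 : ℝ) < (A + 1) ^ m := by positivity
    nlinarith
  exact_mod_cast h5

theorem le_cnt (n t m : ℕ) (hm : 1 ≤ m) (h : n + t = 2 * m) (hn : m ≤ n) :
    n.choose m * ((2 ^ 16) ^ m) ^ m ≤ 2 * cnt n t := by
  have h1 := bern (2 ^ 16) (by norm_num) m hm
  have h2 : n.choose m * ((2 ^ 16) ^ (n - m + t) - 1) ^ m ≤ cnt n t :=
    single_le_sum (f := fun k => n.choose k * ((2 ^ 16) ^ (n - k + t) - 1) ^ k)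
      (fun _ _ => Nat.zero_le _) (mem_range.2 (by omega))
  rw [show n - m + t = m by omega] at h2
  calc _ ≤ n.choose m * (2 * ((2 ^ 16) ^ m - 1) ^ m) := Nat.mul_le_mul_left _ h1
    _ = 2 * (n.choose m * ((2 ^ 16) ^ m - 1) ^ m) := by ring
    _ ≤ _ := Nat.mul_le_mul_left _ h2

theorem even_case (m : ℕ) (hm : 1 ≤ m) :
    cnt (2 * m) 1 ≤ 16 * (((2 ^ 8) ^ (2 * m) - 1) * cnt (2 * m) 0) ∧ 0 < cnt (2 * m) 1 := by
  have h1 := cnt_le (2 * m) 1 m rfl
  have h2 := le_cnt (2 * m) 0 m hm rfl (by omega)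
  rw [show 2 * m / 2 = m by omega] at h1
  have h3 : (2 ^ 8) ^ (2 * m) = (2 ^ 16) ^ m := by rw [pow_mul]; norm_num
  rw [h3]
  have h4 : 2 ≤ (2 ^ 16) ^ m := le_trans (by norm_num) (Nat.le_self_pow (by omega) _)
  rw [mul_add, mul_one, pow_add, pow_mul] at h1
  constructor
  · obtain ⟨A, hA⟩ : ∃ A, (2 ^ 16) ^ m = A + 2 := ⟨(2 ^ 16) ^ m - 2, by omega⟩
    rw [hA] at h1 h2 ⊢
    rw [show A + 2 - 1 = A + 1 by omega]
    calc _ ≤ _ := h1
      _ = 4 * (A + 2) * ((2 * m).choose m * (A + 2) ^ m) := by ring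
      _ ≤ 4 * (A + 2) * (2 * cnt (2 * m) 0) := Nat.mul_le_mul_left _ h2
      _ ≤ _ := by nlinarith [Nat.zero_le (A * cnt (2 * m) 0)]
  · rw [cnt, sum_range_succ']
    simp

theorem odd_case (m : ℕ) :
    32 * (((2 ^ 8) ^ (2 * m + 1) - 1) * cnt (2 * m + 1) 0) ≤ cnt (2 * m + 1) 1 := by
  have h1 := cnt_le (2 * m + 1) 0 m rfl
  have h2 := le_cnt (2 * m + 1) 1 (m + 1) (by omega) (by ring) (by omega)
  rw [show (2 * m + 1) / 2 = m by omega] at h1
  rw [Nat.choose_symm_half] at h2
  have h3 : (2 ^ 8) ^ (2 * m + 1) = (2 ^ 16) ^ m * 2 ^ 8 := by rw [pow_succ, pow_mul]; norm_num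
  have h4 : ((2 ^ 16) ^ (m + 1)) ^ (m + 1) = (2 ^ 16) ^ (m * (m + 1)) * ((2 ^ 16) ^ m * 2 ^ 16) := by
    rw [← pow_mul, ← pow_succ, ← pow_add]; congr 1; ring
  rw [h4] at h2
  rw [h3]
  generalize (2 ^ 16) ^ (m * (m + 1)) = U at h1 h2
  generalize (2 ^ 16) ^ m = V at h1 h2 ⊢
  generalize (2 * m + 1).choose m = C at h1 h2
  have h5 : (V * 2 ^ 8 - 1) * cnt (2 * m + 1) 0 ≤ (V * 2 ^ 8) * (C * (4 * U)) :=
    Nat.mul_le_mul (Nat.sub_le _ _) h1
  nlinarith

theorem result :
    ¬ (∀ (L : FirstOrder.Language.{0, 0}), (∀ l, IsEmpty (L.Functions l)) →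
      Finite (Σ l, L.Relations l) →
      ∀ (k : ℕ) (m : Fin k → ℕ) (S : (i : Fin k) → L.Structure (Fin (m i))) (φ : L.Sentence),
        ∃ c : ℝ, Filter.Tendsto
          (fun n : ℕ =>
            (Nat.card {M : L.Structure (Fin n) //
                (∀ i, IsEmpty (@FirstOrder.Language.Hom L (Fin (m i)) (Fin n) (S i) M)) ∧
                  Fin n ⊨ φ} : ℝ) /
            (Nat.card {M : L.Structure (Fin n) //
                ∀ i, IsEmpty (@FirstOrder.Language.Hom L (Fin (m i)) (Fin n) (S i) M)} : ℝ))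
          Filter.atTop (nhds c)) := by
  intro H
  obtain ⟨c, hc⟩ := H LL (fun _ => inferInstanceAs (IsEmpty Empty)) finRel (Fintype.card I)
    (fun _ => 3) (fun i => mk (FF ((Fintype.equivFin I).symm i))) phi
  have hg : ∀ n (d : D n), (∀ i, IsEmpty (@FirstOrder.Language.Hom LL (Fin 3) (Fin n)
      (mk (FF ((Fintype.equivFin I).symm i))) (mk d))) ↔ Good d := by
    intro n d
    rw [← good_iff]
    exact (Fintype.equivFin I).symm.surjective.forall
      (p := fun s => IsEmpty (@FirstOrder.Language.Hom LL (Fin 3) (Fin n) (mk (FF s)) (mk d))) |>.symm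
  have hc' : Filter.Tendsto (fun n : ℕ => ((((2 ^ 8) ^ n - 1) * cnt n 0 : ℕ) : ℝ) /
      ((((2 ^ 8) ^ n - 1) * cnt n 0 + cnt n 1 : ℕ) : ℝ)) Filter.atTop (nhds c) := by
    refine hc.congr fun n => ?_
    rw [← card_all, ← card_phi]
    congr 2
    · exact (Nat.card_congr ((Equiv.ofBijective _ (mk_bij n)).subtypeEquiv fun d =>
        (and_congr (hg n d) (phi_iff d)).symm)).symm
    · exact (Nat.card_congr ((Equiv.ofBijective _ (mk_bij n)).subtypeEquiv fun d =>
        (hg n d).symm)).symm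
  have t1 : Filter.Tendsto (fun m : ℕ => 2 * m) Filter.atTop Filter.atTop :=
    Filter.tendsto_atTop_mono (fun m => by simp only [id]; omega) Filter.tendsto_id
  have t2 : Filter.Tendsto (fun m : ℕ => 2 * m + 1) Filter.atTop Filter.atTop :=
    Filter.tendsto_atTop_mono (fun m => by simp only [id]; omega) Filter.tendsto_id
  have l1 : (1 / 17 : ℝ) ≤ c := by
    refine ge_of_tendsto (hc'.comp t1) (Filter.eventually_atTop.2 ⟨1, fun m hm => ?_⟩)
    obtain ⟨e1, e2⟩ := even_case m hm
    simp only [Function.comp]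
    generalize ((2 ^ 8) ^ (2 * m) - 1) * cnt (2 * m) 0 = a at e1 ⊢
    generalize cnt (2 * m) 1 = b at e1 e2 ⊢
    have e1' : (b : ℝ) ≤ 16 * a := by exact_mod_cast e1
    have e2' : (0 : ℝ) < b := by exact_mod_cast e2
    have : (0 : ℝ) ≤ a := Nat.cast_nonneg a
    rw [le_div_iff₀ (by push_cast; linarith)]
    push_cast
    linarith
  have l2 : c ≤ (1 / 33 : ℝ) := by
    refine le_of_tendsto (hc'.comp t2) (Filter.Eventually.of_forall fun m => ?_)
    have e1 := odd_case m
    simp only [Function.comp]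
    generalize ((2 ^ 8) ^ (2 * m + 1) - 1) * cnt (2 * m + 1) 0 = a at e1 ⊢
    generalize cnt (2 * m + 1) 1 = b at e1 ⊢
    have e1' : (32 * a : ℝ) ≤ b := by exact_mod_cast e1
    have : (0 : ℝ) ≤ a := Nat.cast_nonneg a
    refine div_le_of_le_mul₀ (by positivity) (by norm_num) ?_
    push_cast
    linarith
  linarith

end Pool.Agent.S15538
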