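import Pool.Statements.S15550

set_option autoImplicit false
open Pool Pool.MP_e6ce3e_lc

namespace Pool.Agent.S15550

open Set

theorem cof {L : Type} [LinearOrder L] (h : ∀ S : Set L, S.WellFoundedOn (· < ·) → S.Countable)
    (U : Set L) : ∃ S ⊆ U, S.Countable ∧ ∀ y ∈ U, ∃ s ∈ S, y ≤ s := by
  have wf : WellFounded (WellOrderingRel (α := L)) := IsWellFounded.wf
  refine ⟨{y ∈ U | ∀ z ∈ U, WellOrderingRel z y → z < y}, fun _ h => h.1, h _ ?_, fun y hy => ?_⟩
  · refine Subrelation.wf (fun {s t} hst => ?_) (InvImage.wf Subtype.val wf)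
    rcases trichotomous_of WellOrderingRel s.1 t.1 with h | h | h
    · exact h
    · exact absurd hst (by simp [h])
    · exact absurd (s.2.2 _ t.2.1 h) (lt_asymm hst)
  · obtain ⟨z, hz, hm⟩ := wf.has_min {z ∈ U | y ≤ z} ⟨y, hy, le_rfl⟩
    exact ⟨z, ⟨hz.1, fun w hw e => (not_le.1 fun h => hm w ⟨hw, h⟩ e).trans_le hz.2⟩, hz.2⟩

theorem cls {L : Type} [LinearOrder L] (h : ∀ S : Set L, S.WellFoundedOn (· < ·) → S.Countable)
    (h' : ∀ S : Set L, S.WellFoundedOn (· > ·) → S.Countable) (x : L) :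
    {y | (uIcc x y).Countable}.Countable := by
  obtain ⟨S, s1, s2, s3⟩ := cof h {y | (uIcc x y).Countable}
  obtain ⟨T, t1, t2, t3⟩ := cof (L := Lᵒᵈ) h' {y | (uIcc (α := L) x y).Countable}
  refine ((s2.biUnion s1).union (t2.biUnion (t := fun y _ => uIcc (α := L) x y) t1)).mono
    fun y hy => ?_
  rcases le_total x y with e | e
  · obtain ⟨s, hs, e'⟩ := s3 y hy
    exact Or.inl (mem_biUnion hs (mem_uIcc_of_le e e'))
  · obtain ⟨s, hs, e'⟩ := t3 y hy
    exact Or.inr (mem_biUnion hs (mem_uIcc_of_ge (α := L) e' e))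

theorem emb {L : Type} [LinearOrder L] (hc : ∀ x : L, {y | (uIcc x y).Countable}.Countable)
    (hu : ¬ (univ : Set L).Countable) :
    ∃ E : ℚ → L, StrictMono E ∧ ¬ (uIcc (E 0) (E 1)).Countable := by
  let s : Setoid L := ⟨fun x y => (uIcc x y).Countable, fun x => by simp,
    fun h => by rwa [uIcc_comm], fun h h' => (h.union h').mono uIcc_subset_uIcc_union_uIcc⟩
  have r1 : ∀ z : L, (uIcc z (Quotient.mk s z).out).Countable := fun z => s.symm (Quotient.mk_out z)
  have r2 : ∀ a b : range (Quotient.out (s := s)), (uIcc a.1 b.1).Countable → a = b := by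
    rintro ⟨_, a, rfl⟩ ⟨_, b, rfl⟩ h
    obtain rfl : a = b := by rw [← a.out_eq, ← b.out_eq]; exact Quotient.sound h
    rfl
  have : DenselyOrdered (range (Quotient.out (s := s))) := ⟨fun a b hab => by
    obtain ⟨z, hz, h1⟩ := not_subset.1 fun h =>
      hab.ne (r2 a b (((hc a).union (hc b)).mono h))
    rw [uIcc_of_le (Subtype.coe_le_coe.2 hab.le)] at hz
    refine ⟨⟨_, Quotient.mk s z, rfl⟩, not_le.1 fun h => h1 (Or.inl ((r1 z).mono ?_)),
      not_le.1 fun h => h1 (Or.inr ((r1 z).mono ?_))⟩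
    · exact uIcc_subset_uIcc (mem_uIcc_of_ge h hz.1) left_mem_uIcc
    · exact uIcc_subset_uIcc (mem_uIcc_of_le hz.2 h) left_mem_uIcc⟩
  have : Nontrivial (range (Quotient.out (s := s))) := by
    obtain ⟨x, -⟩ := nonempty_iff_ne_empty.2 fun h : (univ : Set L) = ∅ => hu (by simp [h])
    obtain ⟨y, -, hy⟩ := not_subset.1 fun h => hu ((hc x).mono h)
    exact ⟨⟨_, Quotient.mk s x, rfl⟩, ⟨_, Quotient.mk s y, rfl⟩, fun h =>
      hy (Quotient.exact (s := s) (Quotient.out_injective (Subtype.ext_iff.1 h)) : s x y)⟩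
  obtain ⟨e⟩ := Order.embedding_from_countable_to_dense ℚ (range (Quotient.out (s := s)))
  exact ⟨fun q => e q, fun _ _ h => e.strictMono h, fun h => by simpa using r2 _ _ h⟩

theorem result :
    ¬ (∃ (L : Type) (_ : LinearOrder L),
      (∀ S : Set L, S.WellFoundedOn (· < ·) → S.Countable) ∧
      (∀ S : Set L, S.WellFoundedOn (· > ·) → S.Countable) ∧
      Cardinal.aleph 1 ≤ Cardinal.mk L ∧
      (∀ (K : Type) [LinearOrder K], Cardinal.mk K = Cardinal.aleph 1 →
          Nonempty (K ↪o L) → ∃ f : L → K, Monotone f ∧ Function.Surjective f) ∧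
      ¬ ∃ f : L → ℚ, Monotone f ∧ Function.Surjective f) := by
  rintro ⟨L, _, h1, h2, h3, h4, h5⟩
  obtain ⟨E, e1, e2⟩ := emb (cls h1 h2) (by
    rw [← Cardinal.le_aleph0_iff_set_countable, Cardinal.mk_univ, not_le]
    exact Cardinal.aleph0_lt_aleph_one.trans_le h3)
  rw [uIcc_of_le (e1 zero_lt_one).le, ← Cardinal.le_aleph0_iff_set_countable, not_le,
    ← Cardinal.aleph_one_le_iff] at e2
  obtain ⟨I, i1, i2⟩ := Cardinal.le_mk_iff_exists_subset.1 e2
  obtain ⟨f, f1, f2⟩ := h4 (I ∪ E '' (Iic 0 ∪ Ici 1) : Set L) (le_antisymm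
    ((Cardinal.mk_union_le _ _).trans (by
      rw [i2]
      exact Cardinal.add_le_of_le Cardinal.aleph0_lt_aleph_one.le le_rfl
        ((Cardinal.le_aleph0_iff_set_countable.2 ((to_countable _).image _)).trans
          Cardinal.aleph0_lt_aleph_one.le)))
    (i2 ▸ Cardinal.mk_le_mk_of_subset subset_union_left)) ⟨OrderEmbedding.subtype _⟩
  let F : L → ℚ := fun z => if z ≤ E 0 then Function.invFun E z else
    if E 1 ≤ z then Function.invFun E z - 1 else 0
  have inv := Function.leftInverse_invFun e1.injective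
  have a0 : ∀ q ≤ 0, F (E q) = q := fun q hq => by simp [F, e1.le_iff_le, hq, inv q]
  have a1 : ∀ q ≥ 1, F (E q) = q - 1 := fun q hq => by
    simp only [F, e1.le_iff_le, inv q]
    rw [if_neg (by linarith), if_pos hq]
  have a2 : ∀ z ∈ I, F z = 0 := fun z hz => by
    rcases (i1 hz).1.eq_or_lt with rfl | h
    · exact a0 0 le_rfl
    rcases (i1 hz).2.eq_or_lt with rfl | h'
    · simpa using a1 1 le_rfl
    simp [F, h.not_ge, h'.not_ge]
  refine h5 ⟨fun x => F (f x), fun x y hxy => ?_, fun q => ?_⟩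
  · have h : (f x).1 ≤ f y := f1 hxy
    beta_reduce
    rcases (f x).2 with hx | ⟨p, hp | hp, hx⟩ <;> rcases (f y).2 with hy | ⟨q, hq | hq, hy⟩ <;>
      (try simp only [mem_Iic, mem_Ici] at *) <;>
      (try rw [a2 _ hx]) <;> (try rw [a2 _ hy]) <;> (try rw [← hx] at h ⊢) <;>
      (try rw [← hy] at h ⊢) <;> (try rw [a0 p hp]) <;> (try rw [a0 q hq]) <;>
      (try rw [a1 p hp]) <;> (try rw [a1 q hq]) <;> (try rw [e1.le_iff_le] at h) <;>
      first
        | linarith
        | exact e1.le_iff_le.1 ((i1 hx).1.trans h)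
        | exact sub_nonpos.2 (e1.le_iff_le.1 (h.trans (i1 hy).2))
  · rcases le_total q 0 with h | h
    · obtain ⟨x, hx⟩ := f2 ⟨E q, Or.inr ⟨q, Or.inl h, rfl⟩⟩
      exact ⟨x, by simp only [hx, a0 q h]⟩
    · obtain ⟨x, hx⟩ := f2 ⟨E (q + 1), Or.inr ⟨q + 1, Or.inr (by simpa using h), rfl⟩⟩
      exact ⟨x, by simp only [hx]; rw [a1 _ (by linarith)]; ring⟩

end Pool.Agent.S15550
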