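import Pool.Statements.S15566
import Pool.Agent.H.MP_ea5d49_lc.A

set_option autoImplicit false
open Pool Pool.MP_ea5d49_lc

namespace Pool.Agent.S15566

open Pool.Agent.H.MP_ea5d49_lc

theorem result :
    ¬ (ComputablePred (fun p : ℕ × List ℕ × List ℕ =>
      ∃ L₁ L₂ : Set (List (Fin p.1)),
        L₁ ≠ {[]} ∧ L₂ ≠ {[]} ∧
        ∀ w : List (Fin p.1),
          (w.foldl (fun q a => p.2.1.getD (q * p.1 + a.val) 0) 0 ∈ p.2.2) ↔
            ∃ u ∈ L₁, ∃ v ∈ L₂, ∃ m : List Bool, m.length = w.length ∧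
              ((w.zip m).filter (fun x => x.2)).map Prod.fst = u ∧
              ((w.zip m).filter (fun x => !x.2)).map Prod.fst = v)) := by
  intro hP
  obtain ⟨Q, S, _, _, δ, q₀, a, e, -, h⟩ := Lib.helper21.Queue.exists_qa
  obtain ⟨k, c, f, pf, hf⟩ := table (regR δ)
  obtain ⟨g, pg, hg⟩ : ∃ g : ℕ → List ℕ, Primrec g ∧ ∀ n, g n = (La.d :: La.d :: La.i ::
      cf true (some q₀, List.replicate n a ++ [e])).map fun x => (c x).val :=
    ⟨fun n => [(c .d).val, (c .d).val, (c .i).val, (c (.s true (.inl (some q₀)))).val] ++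
      (List.replicate n (c (.s true (.inr a))).val ++ [(c (.s true (.inr e))).val]), by fun_prop,
      fun n => by simp [cf]⟩
  obtain ⟨_, hP⟩ := hP.not
  refine h (ComputablePred.of_eq ⟨_, hP.comp (Primrec.to_comp (f := fun n => (k, f (g n))) (by fun_prop))⟩
    fun n => ?_)
  simp only [hg, hf, ← sh_iff]
  exact ⟨fun r => by_contra fun s => r ((yes s).equiv c), fun r s => no r (by
    have := Dec.equiv c.symm s
    simp only [Equiv.symm_symm, List.map_map, Equiv.symm_comp_self, List.map_id] at this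
    exact this)⟩

end Pool.Agent.S15566
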