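import Pool.Statements.S15597
import Pool.Agent.H.MP_f0be4b_lc.A

set_option autoImplicit false
open Pool Pool.MP_f0be4b_lc

namespace Pool.Agent.S15597

/-- There exist linear orders A, B, C such that neither A nor B embeds in the other, both embed in C, and C embeds in every linear order into which both A and B embed. -/
theorem result :
    ∃ (A B C : Type) (_ : LinearOrder A) (_ : LinearOrder B) (_ : LinearOrder C),
      IsEmpty (A ↪o B) ∧ IsEmpty (B ↪o A) ∧
      Nonempty (A ↪o C) ∧ Nonempty (B ↪o C) ∧
      ∀ (X : Type) [LinearOrder X],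
        Nonempty (A ↪o X) → Nonempty (B ↪o X) → Nonempty (C ↪o X) := by
  obtain ⟨A, B, C, h⟩ := Pool.Agent.H.MP_f0be4b_lc.main
  exact ⟨A, B, C, inferInstance, inferInstance, inferInstance, h⟩

end Pool.Agent.S15597
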