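import Pool.Statements.S15615
import Pool.Agent.H.MP_f3ccbb_lc.F

set_option autoImplicit false
open Pool Pool.MP_f3ccbb_lc

namespace Pool.Agent.S15615

open Pool.Agent.H.MP_f3ccbb_lc

/-- There are c>0 and C such that for all large n some (1+1) elitist algorithm (state = best point, offspring and tie rule depend only on it) finds every OneMax optimum in expected ≤ Cn queries, and every such algorithm needs ≥ cn on some target. -/
theorem result :
    ∃ c C : ℝ, 0 < c ∧ ∃ N : ℕ, ∀ n : ℕ, N ≤ n →
      (∃ init : PMF (Fin n → Bool), ∃ step : (Fin n → Bool) → PMF ((Fin n → Bool) × Bool),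
        ∀ z : Fin n → Bool,
          1 + ∑' k : ℕ, (1 - (Nat.iterate
              (fun p : PMF (Fin n → Bool) => p.bind (fun x => (step x).bind (fun yb =>
                PMF.pure (if (Finset.univ.filter (fun i => x i = z i)).card
                      < (Finset.univ.filter (fun i => yb.1 i = z i)).card
                    ∨ ((Finset.univ.filter (fun i => x i = z i)).card
                      = (Finset.univ.filter (fun i => yb.1 i = z i)).card ∧ yb.2 = true)
                  then yb.1 else x))))
              k init) z)
            ≤ ENNReal.ofReal (C * (n : ℝ))) ∧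
      (∀ init : PMF (Fin n → Bool), ∀ step : (Fin n → Bool) → PMF ((Fin n → Bool) × Bool),
        ∃ z : Fin n → Bool,
          ENNReal.ofReal (c * (n : ℝ)) ≤
          1 + ∑' k : ℕ, (1 - (Nat.iterate
              (fun p : PMF (Fin n → Bool) => p.bind (fun x => (step x).bind (fun yb =>
                PMF.pure (if (Finset.univ.filter (fun i => x i = z i)).card
                      < (Finset.univ.filter (fun i => yb.1 i = z i)).card
                    ∨ ((Finset.univ.filter (fun i => x i = z i)).card
                      = (Finset.univ.filter (fun i => yb.1 i = z i)).card ∧ yb.2 = true)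
                  then yb.1 else x))))
              k init) z)) := by
  obtain ⟨N0, hN⟩ := big
  refine ⟨1 / 2, 422, by norm_num, N0, fun n hn => ⟨?_, fun init step => lower init step⟩⟩
  have h1 := hN n hn
  have h2 := ub_fin n (Nat.log 2 n + 1) (by omega) (Nat.lt_pow_succ_log_self (by norm_num) n) h1
  obtain ⟨init, step, h3⟩ := upper h2
  refine ⟨init, step, fun z => (h3 z).trans (ENNReal.ofReal_le_ofReal ?_)⟩
  have h4 : (1 : ℝ) ≤ ((Nat.log 2 n + 1 : ℕ) : ℝ) := by exact_mod_cast Nat.le_add_left 1 _
  have h5 : (1 : ℝ) ≤ (208 * ((Nat.log 2 n + 1 : ℕ) : ℝ)) ^ 24 := one_le_pow₀ (by linarith)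
  linarith

end Pool.Agent.S15615
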