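import Pool.Statements.S15617
import Pool.Agent.H.MP_f458de_lc.A

set_option autoImplicit false
open MeasureTheory
open Pool Pool.MP_f458de_lc

namespace Pool.Agent.S15617

open Pool.Agent.H.MP_f458de_lc

theorem result :
  ∃ m₀ : ℕ, ∀ m : ℕ, m₀ ≤ m → ∃ c c' : ℝ, c < c' ∧
    (∃ (Ω : Type) (_ : MeasurableSpace Ω) (μ : Measure Ω),
      IsProbabilityMeasure μ ∧
      ∃ A : Ω → List (ℝ × ℝ) → Option (Fin m),
        ∀ (n : ℕ) (σ : ℕ → ℝ × ℝ), (∀ i < n, 0 < (σ i).1 ∧ 0 ≤ (σ i).2) →
          (Integrable (fun ω : Ω =>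
            (⨆ k : Fin m, ∑ i ∈ (Finset.range n).filter
                (fun i => A ω ((List.range (i + 1)).map σ) = some k), (σ i).1)
            + ∑ i ∈ (Finset.range n).filter
                (fun i => A ω ((List.range (i + 1)).map σ) = none), (σ i).2) μ ∧
          (∫ ω, ((⨆ k : Fin m, ∑ i ∈ (Finset.range n).filter
                (fun i => A ω ((List.range (i + 1)).map σ) = some k), (σ i).1)
            + ∑ i ∈ (Finset.range n).filter
                (fun i => A ω ((List.range (i + 1)).map σ) = none), (σ i).2) ∂μ)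
          ≤ c * (⨅ d : ℕ → Option (Fin m),
              ((⨆ k : Fin m, ∑ i ∈ (Finset.range n).filter (fun i => d i = some k), (σ i).1)
              + ∑ i ∈ (Finset.range n).filter (fun i => d i = none), (σ i).2)))) ∧
    ¬ (∃ A : List (ℝ × ℝ) → Option (Fin m),
        ∀ (n : ℕ) (σ : ℕ → ℝ × ℝ), (∀ i < n, 0 < (σ i).1 ∧ 0 ≤ (σ i).2) →
          ((⨆ k : Fin m, ∑ i ∈ (Finset.range n).filter
                (fun i => A ((List.range (i + 1)).map σ) = some k), (σ i).1)
            + ∑ i ∈ (Finset.range n).filter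
                (fun i => A ((List.range (i + 1)).map σ) = none), (σ i).2)
          ≤ c' * (⨅ d : ℕ → Option (Fin m),
              ((⨆ k : Fin m, ∑ i ∈ (Finset.range n).filter (fun i => d i = some k), (σ i).1)
              + ∑ i ∈ (Finset.range n).filter (fun i => d i = none), (σ i).2))) := by
  refine ⟨3 ^ 601, fun m hm => ⟨5 / 2, 63 / 25, by norm_num, ?_, ?_⟩⟩
  · have m0 : 0 < m := lt_of_lt_of_le (by positivity) hm
    haveI : NeZero m := ⟨m0.ne'⟩
    refine ⟨Bool, inferInstance, (PMF.uniformOfFintype Bool).toMeasure, inferInstance,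
      fun b => alg (if b then 1 / 3 else 2 / 3), fun n σ hp => ⟨Integrable.of_finite, ?_⟩⟩
    simp only [Finset.sum_filter]
    rw [PMF.integral_eq_sum]
    have h := fun o => mix m0 (good (1 / 3) σ) (good (2 / 3) σ) hp o
    have h2 : (cost (m := m) σ (dec (1 / 3) σ) n + cost (m := m) σ (dec (2 / 3) σ) n) / 5 ≤
        ⨅ d : ℕ → Option (Fin m), cost σ d n := le_ciInf fun o => by linarith [h o]
    change ∑ b : Bool, _ • cost (m := m) σ (dec (if b then 1 / 3 else 2 / 3) σ) n ≤
      5 / 2 * ⨅ d : ℕ → Option (Fin m), cost σ d n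
    simp [PMF.uniformOfFintype_apply] at h2 ⊢
    linarith
  · rintro ⟨A, hA⟩
    simp only [Finset.sum_filter] at hA
    exact lower hm A hA

end Pool.Agent.S15617
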