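import Pool.Statements.S15620
import Pool.Agent.H.MP_f4da35_lc.C

set_option autoImplicit false
open Pool Pool.MP_f4da35_lc

namespace Pool.Agent.S15620

open Pool.Agent.H.MP_f4da35_lc Pool.Agent.Lib.helper21.Fn
open scoped Classical

/-- The negation of the preceding statement: For all n, k ≥ 2 and every (k+1)-colouring f of n-sets of naturals, some k-colouring g exists such that every infinite g-homogeneous set Turing-computes an infinite f-homogeneous set. -/
theorem result :
    ¬ (∀ n k : ℕ, 2 ≤ n → 2 ≤ k →
      ∀ f : Finset ℕ → Fin (k + 1),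
        ∃ g : Finset ℕ → Fin k,
          ∀ H : ℕ → Bool,
            Set.Infinite {m : ℕ | H m = true} →
            (∃ col : Fin k, ∀ s : Finset ℕ,
                (∀ x ∈ s, H x = true) → s.card = n → g s = col) →
            ∃ H' : ℕ → Bool,
              Set.Infinite {m : ℕ | H' m = true} ∧
              (∃ col : Fin (k + 1), ∀ s : Finset ℕ,
                (∀ x ∈ s, H' x = true) → s.card = n → f s = col) ∧
              TuringReducible (fun m => Part.some (Bool.toNat (H' m)))
                (fun m => Part.some (Bool.toNat (H m)))) := by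
  intro h
  obtain ⟨f, hf⟩ := main
  obtain ⟨g, hg⟩ := h 2 2 le_rfl le_rfl fun s => f (sInf (s : Set ℕ)) (sSup (s : Set ℕ))
  obtain ⟨H, h1, h2, h3⟩ := hf fun y z => decide (g {y, z} = 0)
  obtain ⟨X, h4, ⟨j, h5⟩, h6⟩ := hg H h1 (hom h2)
  refine h3 X h4 h6 ⟨j, fun a b ha hb hab => ?_⟩
  simpa [csInf_pair, csSup_pair, hab.le] using
    h5 {a, b} (by simp [ha, hb]) (Finset.card_pair hab.ne)

end Pool.Agent.S15620
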