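import Pool.Statements.S15646
import Pool.Agent.H.MP_fbc7b8_lc.Main

set_option autoImplicit false
open Pool Pool.MP_fbc7b8_lc

namespace Pool.Agent.S15646

theorem result :
    ¬ (∀ (V : Set ℕ) (G : SimpleGraph ℕ) (n₁ n₂ : ℕ),
      ComputablePred (fun x : ℕ => x ∈ V) →
      ComputablePred (fun p : ℕ × ℕ => G.Adj p.1 p.2) →
      (∀ x y : ℕ, G.Adj x y → x ∈ V) →
      (∀ x : ℕ, (G.neighborSet x).Finite) →
      (∃ d : ℕ → ℕ, Computable d ∧ ∀ x ∈ V, (G.neighborSet x).ncard = d x) →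
      (∀ x ∈ V, (G.neighborSet x).ncard ≤ n₁ + n₂ + 1) →
      (∃ x ∈ V, (G.neighborSet x).ncard = n₁ + n₂ + 1) →
      ∃ V₁ V₂ : Set ℕ,
        ComputablePred (fun x : ℕ => x ∈ V₁) ∧
        ComputablePred (fun x : ℕ => x ∈ V₂) ∧
        V₁ ∪ V₂ = V ∧ Disjoint V₁ V₂ ∧
        (∀ x ∈ V₁, (G.neighborSet x ∩ V₁).ncard ≤ n₁) ∧
        (∀ x ∈ V₂, (G.neighborSet x ∩ V₂).ncard ≤ n₂)) := by
  intro h
  open Pool.Agent.H.MP_fbc7b8_lc Pool.Agent.Lib.helper21.PR in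
  obtain ⟨V₁, V₂, hc, -, hu, hd, h1, h2⟩ := h Set.univ G 3 1
    (PrimrecPred.computablePred (pred (p := fun x : ℕ => x ∈ Set.univ)
      ((Primrec.const true).of_eq fun x => (cd_true.2 (Set.mem_univ x)).symm)))
    (PrimrecPred.computablePred (pred (p := fun p : ℕ × ℕ => p.2 ∈ nb p.1)
      (by have := nb_prim; fun_prop)))
    (fun _ _ _ => Set.mem_univ _) (fun x => by rw [nbset]; simp)
    ⟨fun x => (nb x).length, (Primrec.list_length.comp nb_prim).to_comp, fun x _ => ncard_nb x⟩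
    (fun x _ => by rw [ncard_nb]; exact nb_len x)
    ⟨vt 0 1 0 0, Set.mem_univ _, by rw [ncard_nb, nb_five]⟩
  refine Pool.Agent.H.MP_fbc7b8_lc.not_comp (V₂ := V₂) (fun x => ⟨fun h2 h1 => ?_, fun h1 => ?_⟩)
    h1 h2 hc
  · exact Set.disjoint_left.1 hd h1 h2
  · have : x ∈ V₁ ∪ V₂ := by rw [hu]; trivial
    exact this.resolve_left h1

end Pool.Agent.S15646
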