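import Pool.Statements.S15649
import Pool.Agent.H.MP_fc8a61_lc.C

set_option autoImplicit false
open Pool Pool.MP_fc8a61_lc

namespace Pool.Agent.S15649

open Pool.Agent.H.MP_fc8a61_lc

theorem result :
    ∀ (T N : Type), Finite T → Finite N → ∀ (S : N)
      (PL PR : Finset (N × List (Symbol T N) × Finset N × Finset N)),
    ∃ (N' : Type), Finite N' ∧ ∃ (S' : N')
      (PL' PR' : Finset (N' × List (Symbol T N') × Finset N' × Finset N')),
      (∀ (A : N') (x : List (Symbol T N')) (U W : Finset N'),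
          (A, x, U, W) ∈ PR' → U = ∅ ∧ W = ∅) ∧
      ∀ w : List T,
        (Relation.ReflTransGen
          (fun (α β : List (Symbol T N)) =>
            ∃ (u v : List (Symbol T N)) (A : N) (x : List (Symbol T N)) (U W : Finset N),
              α = u ++ [Symbol.nonterminal A] ++ v ∧ β = u ++ x ++ v ∧
              (((A, x, U, W) ∈ PL ∧ (∀ B ∈ U, Symbol.nonterminal B ∈ u) ∧
                  (∀ B ∈ W, Symbol.nonterminal B ∉ u)) ∨
               ((A, x, U, W) ∈ PR ∧ (∀ B ∈ U, Symbol.nonterminal B ∈ v) ∧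
                  (∀ B ∈ W, Symbol.nonterminal B ∉ v))))
          [Symbol.nonterminal S] (w.map Symbol.terminal)
        ↔
        Relation.ReflTransGen
          (fun (α β : List (Symbol T N')) =>
            ∃ (u v : List (Symbol T N')) (A : N') (x : List (Symbol T N')) (U W : Finset N'),
              α = u ++ [Symbol.nonterminal A] ++ v ∧ β = u ++ x ++ v ∧
              (((A, x, U, W) ∈ PL' ∧ (∀ B ∈ U, Symbol.nonterminal B ∈ u) ∧
                  (∀ B ∈ W, Symbol.nonterminal B ∉ u)) ∨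
               ((A, x, U, W) ∈ PR' ∧ (∀ B ∈ U, Symbol.nonterminal B ∈ v) ∧
                  (∀ B ∈ W, Symbol.nonterminal B ∉ v))))
          [Symbol.nonterminal S'] (w.map Symbol.terminal)) := by
  intro T N hT hN S PL PR
  obtain ⟨N', hN', S', P, h⟩ := layer2 (T := T) (I := PL ⊕ PR) Symbol.terminal
    [Symbol.nonterminal S]
    (fun i => i.elim (fun r => [Symbol.nonterminal r.1.1]) (fun r => [Symbol.nonterminal r.1.1]))
    (fun i => i.elim (fun r => r.1.2.1) (fun r => r.1.2.1))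
    (fun i X => i.elim (fun r => (∀ B ∈ r.1.2.2.1, Symbol.nonterminal B ∈ X) ∧
      ∀ B ∈ r.1.2.2.2, Symbol.nonterminal B ∉ X) (fun _ => True))
    (fun i X => i.elim (fun _ => True) (fun r => (∀ B ∈ r.1.2.2.1, Symbol.nonterminal B ∈ X) ∧
      ∀ B ∈ r.1.2.2.2, Symbol.nonterminal B ∉ X))
  refine ⟨N', hN', S', P, ∅, by simp, fun w => ?_⟩
  convert (h w).symm using 2
  · funext α β
    apply propext
    constructor
    · rintro ⟨u, v, A, x, U, W, rfl, rfl, ⟨h1, h2⟩ | ⟨h1, h2⟩⟩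
      · exact ⟨.inl ⟨_, h1⟩, u, v, rfl, rfl, h2, trivial⟩
      · exact ⟨.inr ⟨_, h1⟩, u, v, rfl, rfl, trivial, h2⟩
    · rintro ⟨⟨⟨A, x, U, W⟩, h1⟩ | ⟨⟨A, x, U, W⟩, h1⟩, u, v, rfl, rfl, h2, h3⟩
      · exact ⟨u, v, A, x, U, W, rfl, rfl, Or.inl ⟨h1, h2⟩⟩
      · exact ⟨u, v, A, x, U, W, rfl, rfl, Or.inr ⟨h1, h3⟩⟩
  · funext α β
    simp [LS]

end Pool.Agent.S15649
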