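import Pool.Statements.S15651
import Pool.Agent.H.MP_4f977f_lc.A

set_option autoImplicit false
open Pool Pool.MP_fccb05_lc

namespace Pool.Agent.S15651

open Pool.Agent.Lib.helper21.PR Pool.Agent.H.MP_73efbe_lc Function Nat

attribute [local irreducible] Primrec Computable

def co (n : ℕ) : ℕ := (n / 2).unpair.1
def ro (n : ℕ) : ℕ := (n / 2).unpair.2.unpair.1
def lv (n : ℕ) : ℕ := (n / 2).unpair.2.unpair.2
def el (i k m t : ℕ) : ℕ := 2 * pair i (pair k m) + t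

theorem el_eq (i k m : ℕ) {t : ℕ} (h : t < 2) : co (el i k m t) = i ∧ ro (el i k m t) = k ∧
    lv (el i k m t) = m ∧ el i k m t % 2 = t := by
  have : el i k m t / 2 = pair i (pair k m) := by unfold el; omega
  simp only [co, ro, lv, this, unpair_pair, true_and]
  unfold el; omega

def U0 (t a b : ℕ) (l : List ℕ) : Prop := t = 0 ∧ l = [] ∨ t = 1 ∧ l = [a, b] ∧ a ≠ b ∧ a / 2 = b / 2 ∨
  t = 2 ∧ l = [a] ∧ co a = co b ∧ (a % 2 = 1 ∨ ro a = ro b) ∨ t = 3 ∧ l = [a, b] ∧ co a = co b ∧ ro a ≠ ro b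

def V0 (t a b c : ℕ) : Prop := t = 0 ∧ co c = a ∨ t = 2 ∧ c / 2 = b / 2 ∨
  t = 3 ∧ co c = co a ∧ ro c = ro a ∧ c % 2 = 1

def Sat (X : Set ℕ) : Prop := ∀ t a b l, U0 t a b l → (∀ k ∈ l, k ∈ X) → ∃ c ∈ X, V0 t a b c

theorem anti {X Y : Set ℕ} (hX : Sat X) (hY : Sat Y) (h : X ⊆ Y) : X = Y := by
  refine h.antisymm fun n hn => ?_
  have r1 : ∀ a ∈ Y, ∀ b ∈ Y, a / 2 = b / 2 → a = b := fun a ha b hb e => by
    by_contra k
    simpa [V0] using hY 1 a b [a, b] (by simp [U0, k, e]) (by simp [ha, hb])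
  have r2 : ∀ a ∈ X, ∀ b ∈ Y, co a = co b → a % 2 = 1 ∨ ro a = ro b → b ∈ X := fun a ha b hb e f => by
    obtain ⟨c, c1, c2⟩ := hX 2 a b [a] (by simp [U0, e, f]) (by simp [ha])
    exact r1 c (h c1) b hb (by simpa [V0] using c2) ▸ c1
  obtain ⟨e, e1, e2⟩ := hX 0 (co n) 0 [] (by simp [U0]) (by simp)
  replace e2 : co e = co n := by simpa [V0] using e2
  by_cases k : ro e = ro n
  · exact r2 e e1 n hn e2 (.inr k)
  obtain ⟨c, c1, c2⟩ := hY 3 e n [e, n] (by simp [U0, e2, k]) (by simp [h e1, hn])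
  replace c2 : co c = co e ∧ ro c = ro e ∧ c % 2 = 1 := by simpa [V0] using c2
  exact r2 c (r2 e e1 c c1 c2.1.symm (.inr c2.2.1.symm)) n hn (c2.1.trans e2) (.inl c2.2.2)

def A (u : ℕ → ℕ) : Set ℕ := {n | if u (pair (co n) 0) = 0 then (n % 2 = 0 ↔ lv n ≤ u (pair (co n) (ro n + 1)))
  else n % 2 = 0 ∧ ro n + 1 = u (pair (co n) 0)}

theorem el_A {u : ℕ → ℕ} {i : ℕ} (k : ℕ) (h : u (pair i 0) = 0) : el i k (u (pair i (k + 1)) + 1) 1 ∈ A u := by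
  obtain ⟨a, b, c, d⟩ := el_eq i k (u (pair i (k + 1)) + 1) one_lt_two
  simp [A, a, b, c, d, h]

theorem sat (u : ℕ → ℕ) : Sat (A u) := by
  rintro t a b l (⟨rfl, rfl⟩ | ⟨rfl, rfl, h1, h2⟩ | ⟨rfl, rfl, h1, h2⟩ | ⟨rfl, rfl, h1, h2⟩) h
  · by_cases k : u (pair a 0) = 0
    · exact ⟨_, el_A 0 k, .inl ⟨rfl, (el_eq _ _ _ one_lt_two).1⟩⟩
    · obtain ⟨a1, b, c, d⟩ := el_eq a (u (pair a 0) - 1) 0 two_pos
      exact ⟨_, by simp only [A, Set.mem_ofPred_eq, a1, b, d, if_neg k, true_and]; omega, .inl ⟨rfl, a1⟩⟩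
  · have ha := h a (by simp)
    have hb := h b (by simp)
    simp only [A, Set.mem_ofPred_eq, co, ro, lv, h2] at ha hb
    split_ifs at ha hb <;> omega
  · have ha := h a (by simp)
    simp only [A, Set.mem_ofPred_eq, h1] at ha
    have e0 : 2 * (b / 2) / 2 = b / 2 := by omega
    have e1 : (2 * (b / 2) + 1) / 2 = b / 2 := by omega
    by_cases k : 2 * (b / 2) ∈ A u
    · exact ⟨_, k, .inr (.inl ⟨rfl, e0⟩)⟩
    refine ⟨_, ?_, .inr (.inl ⟨rfl, e1⟩)⟩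
    simp only [A, Set.mem_ofPred_eq, co, ro, lv, e0, e1] at k ha h2 ⊢
    split_ifs at k ha ⊢ <;> omega
  · have ha := h a (by simp)
    have hb := h b (by simp)
    simp only [A, Set.mem_ofPred_eq, ← h1] at ha hb
    by_cases k : u (pair (co a) 0) = 0
    · obtain ⟨a1, b, c, d⟩ := el_eq (co a) (ro a) (u (pair (co a) (ro a + 1)) + 1) one_lt_two
      exact ⟨_, el_A (ro a) k, .inr (.inr ⟨rfl, a1, b, d⟩)⟩
    · rw [if_neg k] at ha hb; omega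

theorem unif {α : Type} {P : ℕ → α → Prop} (hP : ∀ a M M', M ≤ M' → P M a → P M' a) (l : List α)
    (h : ∀ a ∈ l, ∃ M, P M a) : ∃ M, ∀ a ∈ l, P M a := by
  choose! M hM using h
  exact ⟨(l.map M).sum, fun a ha => hP a _ _
    (List.single_le_sum (by simp) _ (List.mem_map_of_mem ha)) (hM a ha)⟩

def op (Φ : ℕ × List ℕ → Prop) (X : Set ℕ) : Set ℕ := {n | ∃ l, Φ (n, l) ∧ ∀ k ∈ l, k ∈ X}

theorem op_open {Φ : ℕ × List ℕ → Prop} {u : ℕ → ℕ} {n : ℕ} (h : n ∈ op Φ (A u)) :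
    ∃ M, ∀ v, Ag M u v → n ∈ op Φ (A v) := by
  obtain ⟨l, a, b⟩ := h
  obtain ⟨M, c⟩ := unif (P := fun M e => ∀ v, Ag M u v → e ∈ A v)
    (fun _ _ _ a b z c => b z fun i hi => c i (hi.trans_le a)) l fun e he =>
      ⟨pair (co e) 0 + pair (co e) (ro e + 1) + 1, fun v hv => by
        have := b e he
        simp only [A, Set.mem_ofPred_eq] at this ⊢
        rwa [hv _ (by omega), hv (pair (co e) (ro e + 1)) (by omega)]⟩
  exact ⟨M, fun z d => ⟨l, a, fun e he => c e he z d⟩⟩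

def D (Φ Ψ Γ : ℕ × List ℕ → Prop) (u : ℕ → ℕ) : Prop :=
  A u = op Φ (op Ψ (A u)) ∧ op Ψ (A u) = op Γ (op Ψ (A u))ᶜ

theorem main : ∃ u, ∀ Φ Ψ Γ, REPred Φ → REPred Ψ → REPred Γ → ¬ D Φ Ψ Γ u := by
  have := @Pool.Agent.H.MP_4f977f_lc.cnt_re (ℕ × List ℕ) _
  let R := {W : ℕ × List ℕ → Prop // REPred W}
  obtain ⟨u, hu⟩ := baire (ι := R × R × R ⊕ R × ℕ ⊕ ℕ) (Sum.elim (fun i v => ¬ D i.1.1 i.2.1.1 i.2.2.1 v)
    (Sum.elim (fun i v => i.2 ∈ op i.1.1 (A v)) fun n v => ∃ i ≥ n, v (pair i 0) = 0))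
  refine ⟨u, fun Φ Ψ Γ h1 h2 h3 d => ?_⟩
  obtain ⟨n, a | hd⟩ := hu (.inl (⟨Φ, h1⟩, ⟨Ψ, h2⟩, ⟨Γ, h3⟩))
  · exact a u (fun _ _ => rfl) d
  obtain ⟨i, i1, i2⟩ : ∃ i ≥ n, u (pair i 0) = 0 := by
    obtain ⟨m, a | a⟩ := hu (.inr (.inr n))
    · exact a u fun _ _ => rfl
    obtain ⟨w, b, c⟩ := a (update u (pair (n + m) 0) 0) (pair (n + m) 0 + 1) fun j hj =>
      update_of_ne (by have := left_le_pair (n + m) 0; omega) _ _
    exact absurd ⟨n + m, by omega, (b _ (by omega)).trans (update_self ..)⟩ c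
  obtain ⟨F, F1, F2⟩ := d.1 ▸ el_A 0 i2
  choose! G G1 G2 using fun c hc => d.2 ▸ F2 c hc
  obtain ⟨N, hN⟩ := unif (P := fun M g => ∀ v, Ag M u v → g ∉ op Ψ (A v))
    (fun _ _ _ a b z c => b z fun i hi => c i (hi.trans_le a)) (F.flatMap G) fun g hg => by
      obtain ⟨c, c1, c2⟩ := List.mem_flatMap.1 hg
      obtain ⟨m, a | a⟩ := hu (.inr (.inl (⟨Ψ, h2⟩, g)))
      · exact absurd (a u fun _ _ => rfl) (G2 c c1 g c2)
      refine ⟨m, fun v hv k => ?_⟩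
      obtain ⟨M, hM⟩ := op_open k
      obtain ⟨w, b, c⟩ := a v M hv
      exact c (hM w b)
  obtain ⟨w, w1, w2⟩ := hd (update u (pair i 0) (N + 1)) (N + pair i 0 + 1) fun j hj =>
    update_of_ne (by have := left_le_pair i 0; omega) _ _
  replace w2 : D Φ Ψ Γ w := not_not.1 w2
  have w3 : w (pair i 0) = N + 1 := (w1 _ (by omega)).trans (update_self ..)
  have : el i 0 (u (pair i (0 + 1)) + 1) 1 ∈ A w := w2.1 ▸ ⟨F, F1, fun c hc => w2.2 ▸ ⟨G c, G1 c hc,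
    fun g hg ⟨E, E1, E2⟩ => hN g (List.mem_flatMap.2 ⟨c, hc, hg⟩)
      (update (update w (pair i 0) 0) (pair i (N + 1)) E.sum) (fun j hj => by
        rw [update_of_ne (by have := right_le_pair i (N + 1); omega)]
        by_cases k : j = pair i 0
        · rw [k, update_self, i2]
        · rw [update_of_ne k, w1 j (by omega), update_of_ne k]) ⟨E, E1, fun e he => by
      have a := E2 e he
      have b : lv e ≤ E.sum := ((unpair_right_le _).trans ((unpair_right_le _).trans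
        (Nat.div_le_self _ _))).trans (List.single_le_sum (by simp) _ he)
      simp only [A, Set.mem_ofPred_eq] at a ⊢
      by_cases k : co e = i
      · rw [k, w3, if_neg (by omega)] at a
        simp [k, a.1, a.2, b]
      · simpa [k] using a⟩⟩⟩
  obtain ⟨a, -, -, d⟩ := el_eq i 0 (u (pair i (0 + 1)) + 1) one_lt_two
  simp only [A, Set.mem_ofPred_eq, a, d, w3] at this
  simp at this

theorem result :
    ∃ (U V : ℕ × List ℕ → Prop), REPred U ∧ REPred V ∧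
      (∀ X Y : Set ℕ,
        (∀ i : ℕ, (∃ l : List ℕ, U (i, l) ∧ ∀ k ∈ l, k ∈ X) →
          ∃ l : List ℕ, V (i, l) ∧ ∀ k ∈ l, k ∈ X) →
        (∀ i : ℕ, (∃ l : List ℕ, U (i, l) ∧ ∀ k ∈ l, k ∈ Y) →
          ∃ l : List ℕ, V (i, l) ∧ ∀ k ∈ l, k ∈ Y) →
        X ⊆ Y → X = Y) ∧
      ∃ A : Set ℕ,
        (∀ i : ℕ, (∃ l : List ℕ, U (i, l) ∧ ∀ k ∈ l, k ∈ A) →
          ∃ l : List ℕ, V (i, l) ∧ ∀ k ∈ l, k ∈ A) ∧
        ∀ C : Set ℕ,
          (∃ W : ℕ × List ℕ → Prop, REPred W ∧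
            ∀ n : ℕ, n ∈ C ↔ ∃ l : List ℕ, W (n, l) ∧ ∀ k ∈ l, k ∉ C) →
          ¬ ((∃ W : ℕ × List ℕ → Prop, REPred W ∧
                ∀ n : ℕ, n ∈ A ↔ ∃ l : List ℕ, W (n, l) ∧ ∀ k ∈ l, k ∈ C) ∧
             (∃ W : ℕ × List ℕ → Prop, REPred W ∧
                ∀ n : ℕ, n ∈ C ↔ ∃ l : List ℕ, W (n, l) ∧ ∀ k ∈ l, k ∈ A)) := by
  let U : ℕ × List ℕ → Prop := fun z => U0 z.1.unpair.1 z.1.unpair.2.unpair.1 z.1.unpair.2.unpair.2 z.2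
  let V : ℕ × List ℕ → Prop := fun z => ∃ c, z.2 = [c] ∧
    V0 z.1.unpair.1 z.1.unpair.2.unpair.1 z.1.unpair.2.unpair.2 c
  have e : ∀ X : Set ℕ, (∀ i : ℕ, (∃ l : List ℕ, U (i, l) ∧ ∀ k ∈ l, k ∈ X) →
      ∃ l : List ℕ, V (i, l) ∧ ∀ k ∈ l, k ∈ X) ↔ Sat X := fun X =>
    ⟨fun h t a b l c d => by
      obtain ⟨_, ⟨c, rfl, f⟩, g⟩ := h (pair t (pair a b)) ⟨l, by simpa [U] using c, d⟩
      exact ⟨c, g c (by simp), by simpa using f⟩,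
    fun h i ⟨l, a, b⟩ => let ⟨c, d, f⟩ := h _ _ _ l a b; ⟨[c], ⟨c, rfl, f⟩, by simpa using d⟩⟩
  obtain ⟨u, hu⟩ := main
  refine ⟨U, V, RE.re (by unfold U U0 co ro; fun_prop), RE.re (by unfold V V0 co ro; fun_prop),
    fun X Y a b => anti ((e X).1 a) ((e Y).1 b), A u, (e _).2 (sat u), ?_⟩
  rintro C ⟨Γ, h3, c⟩ ⟨⟨Φ, h1, a⟩, Ψ, h2, b⟩
  obtain rfl : C = op Ψ (A u) := Set.ext b
  exact hu Φ Ψ Γ h1 h2 h3 ⟨Set.ext a, Set.ext c⟩

end Pool.Agent.S15651
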