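import Pool.Statements.S15657
import Pool.Agent.H.MP_fed070_lc.Comp

set_option autoImplicit false
open Pool Pool.MP_fed070_lc

namespace Pool.Agent.S15657

theorem result :
  ∀ (T : List ℕ → Bool) (g : List ℕ → ℕ), Computable T → Computable g →
    (∀ σ τ : List ℕ, σ <+: τ → T τ = true → T σ = true) →
    (∀ (σ : List ℕ) (i : ℕ), T (σ ++ [i]) = true → i < g σ) →
    ∃ (U : ℕ → Bool) (add mul : ℕ → ℕ → ℕ) (neg : ℕ → ℕ) (zero one : ℕ),
      Computable U ∧ Computable₂ add ∧ Computable₂ mul ∧ Computable neg ∧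
      U zero = true ∧ U one = true ∧
      (∀ a b, U a = true → U b = true → U (add a b) = true ∧ U (mul a b) = true) ∧
      (∀ a, U a = true → U (neg a) = true) ∧
      (∀ a b c, U a = true → U b = true → U c = true →
        add (add a b) c = add a (add b c) ∧ mul (mul a b) c = mul a (mul b c) ∧
        mul a (add b c) = add (mul a b) (mul a c)) ∧
      (∀ a b, U a = true → U b = true → add a b = add b a ∧ mul a b = mul b a) ∧
      (∀ a, U a = true → add zero a = a ∧ add a (neg a) = zero ∧ mul one a = a) ∧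
      ∃ F : (ℕ → ℕ) → (ℕ → ℕ),
        Set.BijOn F {f : ℕ → ℕ | ∀ n, T ((List.range n).map f) = true}
          {χ : ℕ → ℕ | (∀ n, χ n = 0 ∨ χ n = 1) ∧
            (∀ n, χ n = 1 → U n = true) ∧
            χ zero = 1 ∧ χ one = 0 ∧
            (∀ a b, χ a = 1 → χ b = 1 → χ (add a b) = 1) ∧
            (∀ a b, U a = true → χ b = 1 → χ (mul a b) = 1) ∧
            (∀ a b, U a = true → U b = true → χ (mul a b) = 1 → χ a = 1 ∨ χ b = 1)} ∧
        ∀ f : ℕ → ℕ, (∀ n, T ((List.range n).map f) = true) →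
          TuringEquivalent (PFun.lift f) (PFun.lift (F f)) := by
  intro T g hT hg h1 h2
  let τ : Pool.Agent.H.MP_fed070_lc.Tr := ⟨T, g, hT, hg, h1, h2⟩
  by_cases h0 : ∃ f, τ.Path f
  · classical
    obtain ⟨f0, h0⟩ := h0
    obtain ⟨e, c1, c2, c3, h⟩ := Pool.Agent.H.MP_fed070_lc.Tr.main h0
    let π := Ideal.Quotient.mk (Pool.Agent.H.MP_fed070_lc.Tr.J h0)
    have hπ : ∀ a, ∃ y, e.symm (π y) = a := fun a => by
      obtain ⟨y, hy⟩ := Ideal.Quotient.mk_surjective (e a)
      exact ⟨y, e.symm_apply_eq.2 hy⟩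
    let F : (ℕ → ℕ) → ℕ → ℕ := fun f a => if ∃ y ∈ τ.pr f, e.symm (π y) = a then 1 else 0
    have hF : ∀ f, τ.Path f → ∀ y, F f (e.symm (π y)) = 1 ↔ y ∈ τ.pr f := fun f hf y => by
      simp only [F, ite_eq_left_iff, zero_ne_one, imp_false, not_not]
      refine ⟨fun ⟨z, h3, h4⟩ => ?_, fun h3 => ⟨y, h3, rfl⟩⟩
      have := Pool.Agent.H.MP_fed070_lc.Tr.J_le h0 hf (Ideal.Quotient.eq.1 (e.symm.injective h4))
      simpa using (τ.pr f).sub_mem h3 this
    have hF2 : ∀ f n, F f n = 0 ∨ F f n = 1 := fun f n => by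
      simp only [F]
      split_ifs <;> simp
    refine ⟨fun _ => true, fun a b => e.symm (e a + e b), fun a b => e.symm (e a * e b),
      fun a => e.symm (-(e a)), e.symm 0, e.symm 1, Computable.const _, c1, c2, c3, rfl, rfl,
      fun _ _ _ _ => ⟨rfl, rfl⟩, fun _ _ => rfl, fun a b c _ _ _ => ?_, fun a b _ _ => ?_,
      fun a _ => ?_, F, ⟨fun f hf => ?_, fun f hf f' hf' k => ?_, fun χ hχ => ?_⟩,
      fun f hf => h f hf _ (hF2 f) (hF f hf)⟩
    · simp [add_assoc, mul_assoc, mul_add]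
    · simp [add_comm, mul_comm]
    · simp
    · have hp := Pool.Agent.H.MP_fed070_lc.Tr.pr_prime (τ := τ) f
      refine ⟨hF2 f, fun _ _ => rfl, (hF f hf 0).2 (zero_mem _), (hF2 f _).resolve_right fun k =>
        (Ideal.ne_top_iff_one _).1 hp.ne_top ((hF f hf 1).1 k), fun a b => ?_, fun a b _ => ?_,
        fun a b _ _ => ?_⟩ <;> obtain ⟨y, rfl⟩ := hπ a <;> obtain ⟨z, rfl⟩ := hπ b <;>
        simp only [Equiv.apply_symm_apply, ← map_add, ← map_mul, hF f hf]
      exacts [add_mem, Ideal.mul_mem_left _ _, hp.mem_or_mem]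
    · have h3 : ∀ ρ, Pool.Agent.H.MP_fed070_lc.Rt f ρ ↔ Pool.Agent.H.MP_fed070_lc.Rt f' ρ :=
        fun ρ => by
          rw [← Pool.Agent.H.MP_fed070_lc.Tr.x_mem (τ := τ) hf,
            ← Pool.Agent.H.MP_fed070_lc.Tr.x_mem (τ := τ) hf',
            ← hF f hf, ← hF f' hf', k]
      funext n
      have h4 : Pool.Agent.H.MP_fed070_lc.pf f (n + 1) = Pool.Agent.H.MP_fed070_lc.pf f' (n + 1) := by
        have h5 := h3 (Pool.Agent.H.MP_fed070_lc.pf f (n + 1))
        have h6 := h3 (Pool.Agent.H.MP_fed070_lc.pf f' (n + 1))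
        simp only [Pool.Agent.H.MP_fed070_lc.Rt, Pool.Agent.H.MP_fed070_lc.pf_length, lt_irrefl,
          false_iff, iff_false, not_lt] at h5 h6
        exact le_antisymm h5 h6
      simpa [Pool.Agent.H.MP_fed070_lc.pf] using congrArg (·.getD n 0) h4
    · obtain ⟨k1, -, k2, k3, k4, k5, k6⟩ := hχ
      let q : Ideal τ.V :=
        { carrier := {y | χ (e.symm (π y)) = 1}
          zero_mem' := k2
          add_mem' := fun {y z} h3 h4 => by simpa using k4 _ _ h3 h4
          smul_mem' := fun y z h3 => by simpa using k5 (e.symm (π y)) _ rfl h3 }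
      obtain ⟨f, hf, h3⟩ := Pool.Agent.H.MP_fed070_lc.Tr.prime_eq h0 q
        ⟨(Ideal.ne_top_iff_one _).2 fun k => zero_ne_one (k3.symm.trans k), fun {y z} k =>
          k6 _ _ rfl rfl (by
            simp only [Equiv.apply_symm_apply, ← map_mul]; exact k)⟩
        (fun y hy => by
          change χ (e.symm (π y)) = 1
          rw [Ideal.Quotient.eq_zero_iff_mem.2 hy]
          exact k2)
      refine ⟨f, hf, funext fun a => ?_⟩
      obtain ⟨y, rfl⟩ := hπ a
      have h4 : F f (e.symm (π y)) = 1 ↔ χ (e.symm (π y)) = 1 := by rw [hF f hf, ← h3]; rfl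
      have := hF2 f (e.symm (π y))
      have := k1 (e.symm (π y))
      omega
  · refine ⟨fun a => decide (a = 0), fun _ _ => 0, fun _ _ => 0, fun _ => 0, 0, 0,
      (Primrec.eq.comp Primrec.id (Primrec.const 0)).decide.to_comp, Computable.const _,
      Computable.const _, Computable.const _, rfl, rfl, by simp, by simp, by simp, by simp,
      by simp +contextual, id, ⟨fun f hf => absurd ⟨f, hf⟩ h0, fun f hf => absurd ⟨f, hf⟩ h0,
      fun χ hχ => ?_⟩, fun f hf => absurd ⟨f, hf⟩ h0⟩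
    exact absurd (hχ.2.2.2.1.symm.trans hχ.2.2.1) zero_ne_one

end Pool.Agent.S15657
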