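import Pool.Statements.S15670
import Pool.Agent.H.MP_3ab43d_mp.Main
-- import your own Pool.Agent.* helpers here

set_option autoImplicit false
open MeasureTheory
open Pool Pool.MP_0d4f18_mp

namespace Pool.Agent.S15670

theorem result :
    ¬ (∀ V : ℤ → ℝ,
      (∀ ε : ℝ, 0 < ε → ∃ p : ℤ, p ≠ 0 ∧ ∃ Q : ℤ → ℝ,
          Function.Periodic Q p ∧ ∀ n : ℤ, |V n - Q n| < ε) →
      (∃ φ : ℤ → ℂ, Summable (fun n : ℤ => ‖φ n‖ ^ 2) ∧
        ∃ μ : Measure ℝ, IsFiniteMeasure μ ∧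
          (∀ k : ℕ, Integrable (fun x : ℝ => x ^ k) μ ∧
            ((∫ x, x ^ k ∂μ : ℝ) : ℂ) =
              ∑' n : ℤ, (starRingEnd ℂ) (φ n) *
                (Nat.iterate (fun ψ : ℤ → ℂ => fun m : ℤ =>
                  ψ (m + 1) + ψ (m - 1) + (V m : ℂ) * ψ m) k φ) n) ∧
          ¬ μ ⟂ₘ volume) →
      ∀ W : ℤ → ℝ,
        (∀ ε : ℝ, 0 < ε → ∃ k : ℤ, ∀ n : ℤ, |W n - V (n + k)| < ε) →
        ∀ φ : ℤ → ℂ, Summable (fun n : ℤ => ‖φ n‖ ^ 2) →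
          ∀ μ : Measure ℝ, IsFiniteMeasure μ →
            (∀ k : ℕ, Integrable (fun x : ℝ => x ^ k) μ ∧
              ((∫ x, x ^ k ∂μ : ℝ) : ℂ) =
                ∑' n : ℤ, (starRingEnd ℂ) (φ n) *
                  (Nat.iterate (fun ψ : ℤ → ℂ => fun m : ℤ =>
                    ψ (m + 1) + ψ (m - 1) + (W m : ℂ) * ψ m) k φ) n) →
            μ ≪ volume) := by
  intro h
  obtain ⟨V, H, μ, a1, a2, a3, a4, a5⟩ := Pool.Agent.H.MP_3ab43d_mp.main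
  have s : ∀ j, Summable fun n : ℤ => ‖Pool.Agent.H.MP_3ab43d_mp.dl j n‖ ^ 2 := fun j => by
    have := (lp.memℓp (Pool.Agent.H.MP_3ab43d_mp.dl j)).summable (by norm_num)
    simpa using this
  have m := fun j k => And.intro ((a3 j).2 k).1 (((a3 j).2 k).2.trans (lp.inner_eq_tsum _ _))
  simp only [Pool.Agent.H.MP_3ab43d_mp.pow_fun a2, RCLike.inner_apply, mul_comm _ (starRingEnd ℂ _)] at m
  refine a4 (h V (fun ε hε => ?_) ⟨_, s 1, μ 1, (a3 1).1, m 1, a5⟩ V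
    (fun ε hε => ⟨0, fun n => by simpa using hε⟩) _ (s 0) (μ 0) (a3 0).1 (m 0)
    (Real.volume_singleton (a := 0)))
  obtain ⟨p, p0, W, b⟩ := a1 ε hε
  exact ⟨p, by omega, W, b⟩

end Pool.Agent.S15670
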