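import Pool.Statements.S15688
import Pool.Agent.H.MP_2725c9_mp.Main

set_option autoImplicit false
open Matrix
open scoped ComplexOrder
open Pool Pool.MP_2725c9_mp

namespace Pool.Agent.S15688

theorem result :
    ¬ (∀ (n : ℕ) (d : Fin n → ℕ) (p : ((i : Fin n) → Fin (d i)) → ℝ)
      (f : (I : Finset (Fin n)) →
        Matrix ((i : {i // i ∈ I}) → Fin (d i.1)) ((i : {i // i ∈ I}) → Fin (d i.1)) ℂ → ℝ),
      (∀ x, 0 ≤ p x) → ∑ x, p x = 1 →
      (∀ I : Finset (Fin n), ContinuousOn (f I)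
        {ρ : Matrix ((i : {i // i ∈ I}) → Fin (d i.1)) ((i : {i // i ∈ I}) → Fin (d i.1)) ℂ |
          ρ.PosSemidef ∧ ρ.trace = 1}) →
      (∀ I : Finset (Fin n), ConvexOn ℝ
        {ρ : Matrix ((i : {i // i ∈ I}) → Fin (d i.1)) ((i : {i // i ∈ I}) → Fin (d i.1)) ℂ |
          ρ.PosSemidef ∧ ρ.trace = 1} (f I)) →
      (∀ I : Finset (Fin n),
        ∀ U ∈ Matrix.unitaryGroup ((i : {i // i ∈ I}) → Fin (d i.1)) ℂ,
        ∀ ρ : Matrix ((i : {i // i ∈ I}) → Fin (d i.1)) ((i : {i // i ∈ I}) → Fin (d i.1)) ℂ,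
          ρ.PosSemidef → ρ.trace = 1 → f I (U * ρ * star U) = f I ρ) →
      ∃ τ : Matrix ((i : Fin n) → Fin (d i)) ((i : Fin n) → Fin (d i)) ℂ,
        (∃ U ∈ Matrix.unitaryGroup ((i : Fin n) → Fin (d i)) ℂ,
          ∃ D ∈ doublyStochastic ℝ ((i : Fin n) → Fin (d i)),
            τ = U * Matrix.diagonal (fun x => (((D *ᵥ p) x : ℝ) : ℂ)) * star U) ∧
        (∃ W : (i : Fin n) → Matrix (Fin (d i)) (Fin (d i)) ℂ,
          (∀ i, W i ∈ Matrix.unitaryGroup (Fin (d i)) ℂ) ∧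
          ∃ q : ((i : Fin n) → Fin (d i)) → ℝ,
            τ = Matrix.of (fun x y => ∏ i, W i (x i) (y i)) *
                Matrix.diagonal (fun x => ((q x : ℝ) : ℂ)) *
                star (Matrix.of (fun x y => ∏ i, W i (x i) (y i)))) ∧
        ∀ σ : Matrix ((i : Fin n) → Fin (d i)) ((i : Fin n) → Fin (d i)) ℂ,
          (∃ U ∈ Matrix.unitaryGroup ((i : Fin n) → Fin (d i)) ℂ,
            ∃ D ∈ doublyStochastic ℝ ((i : Fin n) → Fin (d i)),
              σ = U * Matrix.diagonal (fun x => (((D *ᵥ p) x : ℝ) : ℂ)) * star U) →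
          ∑ I : Finset (Fin n), f I (Matrix.of fun a b =>
              ∑ c : ((i : {i // i ∉ I}) → Fin (d i.1)),
                σ (fun i => if h : i ∈ I then a ⟨i, h⟩ else c ⟨i, h⟩)
                  (fun i => if h : i ∈ I then b ⟨i, h⟩ else c ⟨i, h⟩))
          ≤ ∑ I : Finset (Fin n), f I (Matrix.of fun a b =>
              ∑ c : ((i : {i // i ∉ I}) → Fin (d i.1)),
                τ (fun i => if h : i ∈ I then a ⟨i, h⟩ else c ⟨i, h⟩)
                  (fun i => if h : i ∈ I then b ⟨i, h⟩ else c ⟨i, h⟩))) := by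
  intro h
  obtain ⟨τ, h1, h2, h3⟩ := h 3 (fun _ => 2) Pool.Agent.H.MP_2725c9_mp.pp
    Pool.Agent.H.MP_2725c9_mp.ff Pool.Agent.H.MP_2725c9_mp.pp_nonneg
    Pool.Agent.H.MP_2725c9_mp.pp_sum (fun I => (Pool.Agent.H.MP_2725c9_mp.ff_cont I).continuousOn)
    Pool.Agent.H.MP_2725c9_mp.ff_convex
    (fun I U hU ρ _ _ => Pool.Agent.H.MP_2725c9_mp.ff_inv I U ρ hU)
  exact absurd (lt_of_lt_of_le Pool.Agent.H.MP_2725c9_mp.quantum
    (le_trans (h3 _ Pool.Agent.H.MP_2725c9_mp.sg_feas)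
      (Pool.Agent.H.MP_2725c9_mp.classical τ h1 h2))) (lt_irrefl _)

end Pool.Agent.S15688
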