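import Pool.Statements.S15704
import Pool.Agent.H.MP_3ab43d_mp.Main
-- import your own Pool.Agent.* helpers here

set_option autoImplicit false
open Pool Pool.MP_3ab43d_mp

namespace Pool.Agent.S15704

theorem result :
    ¬ (∀ V : ℤ → ℝ,
      (∀ ε : ℝ, 0 < ε → ∃ p : ℕ, 0 < p ∧ ∃ W : ℤ → ℝ,
          (∀ n : ℤ, W (n + (p : ℤ)) = W n) ∧ ∀ n : ℤ, |V n - W n| < ε) →
      ∀ μ0 μ1 : MeasureTheory.Measure ℝ,
        MeasureTheory.IsFiniteMeasure μ0 →
        MeasureTheory.IsFiniteMeasure μ1 →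
        (∀ n : ℕ, MeasureTheory.Integrable (fun x : ℝ => x ^ n) μ0 ∧
          ∫ x, x ^ n ∂μ0 =
            ((fun u : ℤ → ℝ => fun m : ℤ => u (m + 1) + u (m - 1) + V m * u m)^[n]
              (Pi.single (0 : ℤ) (1 : ℝ) : ℤ → ℝ)) 0) →
        (∀ n : ℕ, MeasureTheory.Integrable (fun x : ℝ => x ^ n) μ1 ∧
          ∫ x, x ^ n ∂μ1 =
            ((fun u : ℤ → ℝ => fun m : ℤ => u (m + 1) + u (m - 1) + V m * u m)^[n]
              (Pi.single (1 : ℤ) (1 : ℝ) : ℤ → ℝ)) 1) →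
        ¬ MeasureTheory.Measure.MutuallySingular (μ0 + μ1) MeasureTheory.volume →
        MeasureTheory.Measure.AbsolutelyContinuous (μ0 + μ1) MeasureTheory.volume) := by
  intro h
  obtain ⟨V, H, μ, a1, a2, a3, a4, a5⟩ := Pool.Agent.H.MP_3ab43d_mp.main
  have m : ∀ j n, ∫ x, x ^ n ∂μ j =
      ((fun u : ℤ → ℝ => fun m : ℤ => u (m + 1) + u (m - 1) + V m * u m)^[n]
        (Pi.single j (1 : ℝ) : ℤ → ℝ)) j := fun j n => by
    have := ((a3 j).2 n).2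
    rw [Pool.Agent.H.MP_3ab43d_mp.dl_inner, Pool.Agent.H.MP_3ab43d_mp.pow_dl a2] at this
    exact_mod_cast this
  have := h V a1 (μ 0) (μ 1) (a3 0).1 (a3 1).1 (fun n => ⟨((a3 0).2 n).1, m 0 n⟩)
    (fun n => ⟨((a3 1).2 n).1, m 1 n⟩)
    fun x => a5 (MeasureTheory.Measure.MutuallySingular.add_left_iff.1 x).2
  have z := this (Real.volume_singleton (a := 0))
  rw [MeasureTheory.Measure.add_apply, add_eq_zero] at z
  exact a4 z.1

end Pool.Agent.S15704
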