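import Pool.Statements.S15718
import Pool.Agent.H.MP_43cb56_mp.C

set_option autoImplicit false
open scoped FourierTransform SchwartzMap
open Pool Pool.MP_43cb56_mp

namespace Pool.Agent.S15718

theorem result :
    ¬ (∀ s : ℝ, 1 / 2 < s → s < 3 / 2 →
    ∀ c : ℝ,
      (∀ W : ℝ → ℝ, (∀ x, 0 ≤ W x) → MeasureTheory.Integrable W →
        (max 0 (-(sInf {t : ℝ | ∃ V : Submodule ℂ 𝓢(ℝ, ℂ), Module.finrank ℂ V = 1 ∧
            t = sSup {u : ℝ | ∃ f ∈ V, (∫ x, ‖f x‖ ^ 2) = 1 ∧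
              u = (∫ ξ : ℝ, (2 * Real.pi * |ξ|) ^ (2 * s) * ‖𝓕 (fun x : ℝ => f x) ξ‖ ^ 2)
                    - ∫ x, W x * ‖f x‖ ^ 2}}))) ^ (1 - 1 / (2 * s))
          ≤ c * ∫ x, W x) →
      ∀ W : ℝ → ℝ, (∀ x, 0 ≤ W x) → MeasureTheory.Integrable W →
      ∀ N : ℕ,
        ∑ k ∈ Finset.range N,
          (max 0 (-(sInf {t : ℝ | ∃ V : Submodule ℂ 𝓢(ℝ, ℂ), Module.finrank ℂ V = k + 1 ∧
            t = sSup {u : ℝ | ∃ f ∈ V, (∫ x, ‖f x‖ ^ 2) = 1 ∧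
              u = (∫ ξ : ℝ, (2 * Real.pi * |ξ|) ^ (2 * s) * ‖𝓕 (fun x : ℝ => f x) ξ‖ ^ 2)
                    - ∫ x, W x * ‖f x‖ ^ 2}}))) ^ (1 - 1 / (2 * s))
          ≤ c * ∫ x, W x) := by
  intro h
  have hs : (1 : ℝ) < 5 / 4 := by norm_num
  have hs' : (5 / 4 : ℝ) < 3 / 2 := by norm_num
  obtain ⟨W, h0, hW, hlt⟩ := Pool.Agent.H.MP_43cb56_mp.two hs hs'
  have h1 := h (5 / 4) (by norm_num) hs' (Pool.Agent.H.MP_43cb56_mp.g (5 / 4) 0)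
    (fun W h0 hW => Pool.Agent.H.MP_43cb56_mp.one_particle hs hs' W h0 hW) W h0 hW 2
  rw [Finset.sum_range_succ, Finset.sum_range_succ, Finset.sum_range_zero, zero_add] at h1
  exact absurd h1 (not_le.2 hlt)

end Pool.Agent.S15718
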