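import Pool.Statements.S15734
import Pool.Agent.H.MP_3a9720_mp.Dart

set_option autoImplicit false
open Pool Pool.MP_64ae42_mp

namespace Pool.Agent.S15734

theorem result :
    ¬ (∀ (V D : Type) [Fintype V] [Fintype D] [DecidableEq D] (src : D → V) (rev : D → D),
    (∀ d, rev (rev d) = d) → (∀ d, rev d ≠ d) →
    (SimpleGraph.fromRel (fun u v : V => ∃ d, src d = u ∧ src (rev d) = v)).Connected →
    ∀ (a : D → ℝ) (b : V → ℝ), (∀ d, 0 < a d) → (∀ d, a (rev d) = a d) →
    ∀ (v0 : V) (S : Set (List D)),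
      (∀ l : List D, l ∈ S ↔ ((∀ d ∈ l.head?, src d = v0) ∧
         ∀ (i : ℕ) (d e : D), l[i]? = some d → l[i+1]? = some e →
           (src e = src (rev d) ∧ e ≠ rev d))) →
    ∀ H : lp (fun _ : S => ℂ) 2 →L[ℂ] lp (fun _ : S => ℂ) 2,
      (∀ (f : lp (fun _ : S => ℂ) 2) (x : S),
        H f x = (b ((x.1.getLast?.map (fun d => src (rev d))).getD v0) : ℂ) * f x +
          ∑' y : S, (∑ d : D, if (y.1 = x.1 ++ [d] ∨ x.1 = y.1 ++ [d]) then (a d : ℂ) else 0) * f y) →
      IsPreconnected (spectrum ℂ H) → ∀ u v : V, b u = b v) := by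
  intro h
  open Pool.Agent.H.MP_3a9720_mp in
  obtain ⟨H, h1, h2⟩ := connD
  open Pool.Agent.H.MP_3a9720_mp in
  have := h Bool Dt Prod.fst rv (by decide) (by decide) (by decide) (fun _ => 1) bB
    (fun _ => one_pos) (fun _ => rfl) true SD (fun _ => Iff.rfl) H
    (fun f x => by rw [h1 f x, tsum_D f x, add_assoc]) h2 true false
  open Pool.Agent.H.MP_3a9720_mp in
  norm_num [bB] at this

end Pool.Agent.S15734
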