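import Pool.Statements.S15746
import Pool.Agent.H.MP_3ab43d_mp.Main
-- import your own Pool.Agent.* helpers here

set_option autoImplicit false
open MeasureTheory
open Pool Pool.MP_7b7407_mp

namespace Pool.Agent.S15746

theorem result :
    ¬ (∀ V : ℤ → ℝ,
    (∀ ε : ℝ, 0 < ε → ∃ p : ℕ, 0 < p ∧ ∃ W : ℤ → ℝ,
        (∀ n : ℤ, W (n + (p : ℤ)) = W n) ∧ ∀ n : ℤ, |V n - W n| < ε) →
    ∀ H : lp (fun _ : ℤ => ℂ) 2 →L[ℂ] lp (fun _ : ℤ => ℂ) 2,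
      (∀ ψ : lp (fun _ : ℤ => ℂ) 2, ∀ n : ℤ,
          (H ψ) n = ψ (n + 1) + ψ (n - 1) + (V n : ℂ) * ψ n) →
      ((∀ ψ : lp (fun _ : ℤ => ℂ) 2, ∀ μ : Measure ℝ, IsFiniteMeasure μ →
          (∀ k : ℕ, Integrable (fun x : ℝ => x ^ k) μ) →
          (∀ k : ℕ, ∫ x, (x : ℂ) ^ k ∂μ = inner ℂ ψ ((H ^ k) ψ)) →
          μ ≪ volume) ∨
       (∀ ψ : lp (fun _ : ℤ => ℂ) 2, ∀ μ : Measure ℝ, IsFiniteMeasure μ →
          (∀ k : ℕ, Integrable (fun x : ℝ => x ^ k) μ) →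
          (∀ k : ℕ, ∫ x, (x : ℂ) ^ k ∂μ = inner ℂ ψ ((H ^ k) ψ)) →
          ∃ S : Set ℝ, S.Countable ∧ μ Sᶜ = 0) ∨
       (∀ ψ : lp (fun _ : ℤ => ℂ) 2, ∀ μ : Measure ℝ, IsFiniteMeasure μ →
          (∀ k : ℕ, Integrable (fun x : ℝ => x ^ k) μ) →
          (∀ k : ℕ, ∫ x, (x : ℂ) ^ k ∂μ = inner ℂ ψ ((H ^ k) ψ)) →
          (μ ⟂ₘ volume ∧ ∀ x : ℝ, μ {x} = 0)))) := by
  intro h
  obtain ⟨V, H, μ, a1, a2, a3, a4, a5⟩ := Pool.Agent.H.MP_3ab43d_mp.main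
  have m : ∀ j (k : ℕ), ∫ x, (x : ℂ) ^ k ∂μ j =
      inner ℂ (Pool.Agent.H.MP_3ab43d_mp.dl j) ((H ^ k) (Pool.Agent.H.MP_3ab43d_mp.dl j)) := fun j k => by
    rw [← ((a3 j).2 k).2, ← integral_complex_ofReal]
    simp
  rcases h V a1 H a2 with c | c | c
  · exact a4 (c _ (μ 0) (a3 0).1 (fun n => ((a3 0).2 n).1) (m 0) (Real.volume_singleton (a := 0)))
  · obtain ⟨S, s1, s2⟩ := c _ (μ 1) (a3 1).1 (fun n => ((a3 1).2 n).1) (m 1)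
    exact a5 ⟨Sᶜ, s1.measurableSet.compl, s2, by rw [compl_compl]; exact s1.measure_zero _⟩
  · exact a5 (c _ (μ 1) (a3 1).1 (fun n => ((a3 1).2 n).1) (m 1)).1

end Pool.Agent.S15746
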