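import Pool.Statements.S15772
import Pool.Agent.H.MP_a47312_mp.A

set_option autoImplicit false
open Pool Pool.MP_a47312_mp

namespace Pool.Agent.S15772

theorem result :
    ¬ (∀ g Δ : ℝ, 0 < g → 0 < Δ → ∀ s : ℝ, (s = 1 ∨ s = -1) →
    ∀ E : Set ℝ,
      E = {e : ℝ | ∃ u : ℕ → ℝ, u ≠ 0 ∧ Summable (fun k => u k ^ 2) ∧
            ∀ k : ℕ, ((k : ℝ) + s * (-1 : ℝ) ^ k * Δ) * u k
              + g * (Real.sqrt (k : ℝ) * u (k - 1) + Real.sqrt ((k : ℝ) + 1) * u (k + 1))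
              = e * u k} →
    ∀ n : ℕ,
      ({e : ℝ | e ∈ E ∧ (n : ℝ) ≤ e + g ^ 2 ∧ e + g ^ 2 < (n : ℝ) + 1}).encard ≤ 2 ∧
      ¬ (({e : ℝ | e ∈ E ∧ (n : ℝ) ≤ e + g ^ 2 ∧ e + g ^ 2 < (n : ℝ) + 1}).encard = 2 ∧
         ({e : ℝ | e ∈ E ∧ ((n + 1 : ℕ) : ℝ) ≤ e + g ^ 2 ∧ e + g ^ 2 < ((n + 1 : ℕ) : ℝ) + 1}).encard = 2) ∧
      ¬ (({e : ℝ | e ∈ E ∧ (n : ℝ) ≤ e + g ^ 2 ∧ e + g ^ 2 < (n : ℝ) + 1}).encard = 0 ∧
         ({e : ℝ | e ∈ E ∧ ((n + 1 : ℕ) : ℝ) ≤ e + g ^ 2 ∧ e + g ^ 2 < ((n + 1 : ℕ) : ℝ) + 1}).encard = 0)) := by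
  intro H
  have H' := H 7 47 (by norm_num) (by norm_num) (-1) (Or.inr rfl) _ rfl
  obtain ⟨y0, a0, b0⟩ := Pool.Agent.H.MP_a47312_mp.four 0 (by norm_num)
  obtain ⟨y1, a1, b1⟩ := Pool.Agent.H.MP_a47312_mp.four 1 (by norm_num)
  obtain ⟨y2, a2, b2⟩ := Pool.Agent.H.MP_a47312_mp.four 2 (by norm_num)
  obtain ⟨y3, a3, b3⟩ := Pool.Agent.H.MP_a47312_mp.four 3 (by norm_num)
  simp only [Set.mem_Ioo] at a0 a1 a2 a3
  push_cast at a0 a1 a2 a3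
  refine (H' 0).2.1 ⟨le_antisymm (H' 0).1 ?_, le_antisymm (H' (0 + 1)).1 ?_⟩
  · rw [← Set.encard_pair (show y0 / 2 - 49 ≠ y1 / 2 - 49 by intro h; linarith)]
    refine Set.encard_le_encard ?_
    rintro e (rfl | rfl)
    · exact ⟨Pool.Agent.H.MP_a47312_mp.eig b0, by push_cast; linarith, by push_cast; linarith⟩
    · exact ⟨Pool.Agent.H.MP_a47312_mp.eig b1, by push_cast; linarith, by push_cast; linarith⟩
  · rw [← Set.encard_pair (show y2 / 2 - 49 ≠ y3 / 2 - 49 by intro h; linarith)]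
    refine Set.encard_le_encard ?_
    rintro e (rfl | rfl)
    · exact ⟨Pool.Agent.H.MP_a47312_mp.eig b2, by push_cast; linarith, by push_cast; linarith⟩
    · exact ⟨Pool.Agent.H.MP_a47312_mp.eig b3, by push_cast; linarith, by push_cast; linarith⟩

end Pool.Agent.S15772
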