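import Pool.Statements.S15782
import Pool.Agent.H.MP_3ab43d_mp.Main
-- import your own Pool.Agent.* helpers here

set_option autoImplicit false
open Pool Pool.MP_b5b0d6_mp

namespace Pool.Agent.S15782

theorem result :
    ¬ (∀ V : ℤ → ℝ,
      (∀ ε : ℝ, 0 < ε → ∃ p : ℤ, 0 < p ∧ ∃ W : ℤ → ℝ,
          Function.Periodic W p ∧ ∀ n : ℤ, |V n - W n| < ε) →
      (∃ k : ℤ, ∃ μ : MeasureTheory.Measure ℝ, MeasureTheory.IsFiniteMeasure μ ∧
          (∀ m : ℕ, MeasureTheory.Integrable (fun x : ℝ => x ^ m) μ) ∧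
          (∀ m : ℕ, ∫ x, x ^ m ∂μ =
              Nat.iterate (fun u : ℤ → ℝ => fun n : ℤ => u (n + 1) + u (n - 1) + V n * u n)
                m (Pi.single k (1 : ℝ) : ℤ → ℝ) k) ∧
          ¬ MeasureTheory.Measure.MutuallySingular μ (MeasureTheory.volume : MeasureTheory.Measure ℝ)) →
      ∀ c : ℝ, ∀ k : ℤ, ∀ μ : MeasureTheory.Measure ℝ, MeasureTheory.IsFiniteMeasure μ →
          (∀ m : ℕ, MeasureTheory.Integrable (fun x : ℝ => x ^ m) μ) →
          (∀ m : ℕ, ∫ x, x ^ m ∂μ =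
              Nat.iterate (fun u : ℤ → ℝ => fun n : ℤ => u (n + 1) + u (n - 1) + c * V n * u n)
                m (Pi.single k (1 : ℝ) : ℤ → ℝ) k) →
          MeasureTheory.Measure.AbsolutelyContinuous μ (MeasureTheory.volume : MeasureTheory.Measure ℝ)) := by
  intro h
  obtain ⟨V, H, μ, a1, a2, a3, a4, a5⟩ := Pool.Agent.H.MP_3ab43d_mp.main
  have m : ∀ j n, ∫ x, x ^ n ∂μ j =
      ((fun u : ℤ → ℝ => fun m : ℤ => u (m + 1) + u (m - 1) + V m * u m)^[n]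
        (Pi.single j (1 : ℝ) : ℤ → ℝ)) j := fun j n => by
    have := ((a3 j).2 n).2
    rw [Pool.Agent.H.MP_3ab43d_mp.dl_inner, Pool.Agent.H.MP_3ab43d_mp.pow_dl a2] at this
    exact_mod_cast this
  refine a4 (h V (fun ε hε => ?_) ⟨1, μ 1, (a3 1).1, fun n => ((a3 1).2 n).1, m 1, a5⟩ 1 0 (μ 0)
    (a3 0).1 (fun n => ((a3 0).2 n).1) (by simpa only [one_mul] using m 0)
    (Real.volume_singleton (a := 0)))
  obtain ⟨p, p0, W, b⟩ := a1 ε hε
  exact ⟨p, by omega, W, b⟩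

end Pool.Agent.S15782
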