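import Pool.Statements.S15793
import Pool.Agent.H.MP_c9a3a4_mp.Main
-- import your own Pool.Agent.* helpers here

set_option autoImplicit false
open Pool Pool.MP_c9a3a4_mp

namespace Pool.Agent.S15793

theorem result :
  ∀ V : ℤ → ℝ,
    (∀ ε : ℝ, 0 < ε → ∃ p : ℕ, 0 < p ∧ ∃ W : ℤ → ℝ,
        (∀ n : ℤ, W (n + (p : ℤ)) = W n) ∧ ∀ n : ℤ, |V n - W n| < ε) →
    ¬ (∃ p : ℕ, 0 < p ∧ ∀ n : ℤ, V (n + (p : ℤ)) = V n) →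
    ∀ ε : ℝ, 0 < ε → ∃ V' : ℤ → ℝ,
      (∀ δ : ℝ, 0 < δ → ∃ p : ℕ, 0 < p ∧ ∃ W : ℤ → ℝ,
          (∀ n : ℤ, W (n + (p : ℤ)) = W n) ∧ ∀ n : ℤ, |V' n - W n| < δ) ∧
      ¬ (∃ p : ℕ, 0 < p ∧ ∀ n : ℤ, V' (n + (p : ℤ)) = V' n) ∧
      (∀ n : ℤ, |V n - V' n| < ε) ∧
      ∀ S : Set ℝ,
        S = {E : ℝ | ¬ ((∃ R : lp (fun _ : ℤ => ℂ) 2 →L[ℂ] lp (fun _ : ℤ => ℂ) 2,
              ∀ φ : lp (fun _ : ℤ => ℂ) 2, ∀ n : ℤ,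
                R φ (n + 1) + R φ (n - 1) + ((V' n : ℂ) - (E : ℂ)) * R φ n = φ n) ∧
            (∀ ψ : ℤ → ℂ, Memℓp ψ 2 →
              (∀ n : ℤ, ψ (n + 1) + ψ (n - 1) + ((V' n : ℂ) - (E : ℂ)) * ψ n = 0) →
              ψ = 0))} →
        ¬ (S.Nonempty ∧ IsCompact S ∧ Perfect S ∧ IsTotallyDisconnected S) := by
  intro V hV _ ε hε
  obtain ⟨p, p0, U, hU, h1⟩ := hV (ε / 2) (by positivity)
  obtain ⟨W, w1, w2, w3, a, b, hab, w4⟩ :=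
    Pool.Agent.H.MP_c9a3a4_mp.main p0 hU (ε := ε / 3) (by positivity)
  refine ⟨W, w1, w2, fun n => ?_, ?_⟩
  · have := abs_sub_le (V n) (U n) (W n)
    have := abs_sub_comm (U n) (W n)
    linarith [h1 n, w3 n]
  rintro S rfl ⟨-, -, -, h⟩
  refine hab.ne (h (Set.Icc a b) (fun E hE ⟨⟨R, hR⟩, inj⟩ => ?_) isPreconnected_Icc
    (Set.left_mem_Icc.2 hab.le) (Set.right_mem_Icc.2 hab.le))
  obtain ⟨ψ, φ, L, -, e, lt⟩ := w4 E hE (‖R‖ + 1)⁻¹ (by positivity)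
  have z := inj (R φ - ψ : lp (fun _ : ℤ => ℂ) 2) (lp.memℓp _) fun n => by
    simp only [lp.coeFn_sub, Pi.sub_apply]
    linear_combination hR φ n + e n
  have : R φ = ψ := sub_eq_zero.1 (lp.ext z)
  have c := R.le_opNorm φ
  rw [this] at c
  rw [lt_inv_mul_iff₀ (by positivity)] at lt
  linarith [norm_nonneg φ]

end Pool.Agent.S15793
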