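import Pool.Statements.S15806
import Pool.Agent.H.MP_dd0251_mp.F
-- import your own Pool.Agent.* helpers here

set_option autoImplicit false
open Pool Pool.MP_dd0251_mp

namespace Pool.Agent.S15806

theorem result :
    ¬ (∀ (a b : ℕ → ℝ), (∀ n, 0 < a n) → (∃ C : ℝ, ∀ n, |a n| ≤ C ∧ |b n| ≤ C) →
    ∀ μ : MeasureTheory.Measure ℝ,
      (∀ k : ℕ, MeasureTheory.Integrable (fun x : ℝ => x ^ k) μ) →
      (∀ k : ℕ, ∫ x, x ^ k ∂μ =
          ((Matrix.of fun i j : Fin (k + 1) =>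
              if i.val = j.val then b i.val
              else if j.val = i.val + 1 then a i.val
              else if i.val = j.val + 1 then a j.val
              else (0 : ℝ)) ^ k) 0 0) →
      MeasureTheory.volume
        (symmDiff {E : ℝ | 0 < μ.rnDeriv MeasureTheory.volume E}
          {E : ℝ | ∃ C : ℝ, ∀ N : ℕ, ∃ n ≥ N, ∀ i j : Fin 2,
            |(((List.range n).reverse.map
                (fun m => (a m)⁻¹ • !![E - b m, -1; a m ^ 2, 0])).prod) i j| ≤ C}) = 0) := by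
  intro h
  obtain ⟨a, b, h1, μ, h2, h3, h4⟩ := Pool.Agent.H.MP_dd0251_mp.main
  exact h4 (MeasureTheory.measure_mono_null (fun E hE => Or.inr ⟨⟨54, hE.1⟩, hE.2⟩)
    (h a b (fun n => (h1 n).1.1)
      ⟨1, fun n => ⟨(abs_of_pos (h1 n).1.1).trans_le (h1 n).1.2, (h1 n).2⟩⟩ μ h2 h3))

end Pool.Agent.S15806
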