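import Pool.Statements.S15846
import Pool.Agent.H.MP_016e95_nt.R

set_option autoImplicit false
open Filter
open Pool Pool.MP_016e95_nt

namespace Pool.Agent.S15846

/-- The negation of the preceding statement: There exist a base b≥2 and a non-constant polynomial taking ℕ to ℕ such that concatenating the base-b digits of f(2),f(3),f(5),… gives a number that, in every base b^m, has digit-count deviations with limsup √(b^m−1)/b^m and liminf −√(b^m−1)/b^m. -/
theorem result :
    ¬ (∃ b : ℕ, 2 ≤ b ∧ ∃ f : Polynomial ℚ, 0 < f.degree ∧ ∃ g : ℕ → ℕ,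
    (∀ n : ℕ, 1 ≤ n → 1 ≤ g n ∧ ((g n : ℚ) = f.eval (n : ℚ))) ∧
    ∃ d : ℕ → ℕ,
      (∀ j i : ℕ, i < (Nat.digits b (g (Nat.nth Nat.Prime j))).length →
        d ((∑ t ∈ Finset.range j, (Nat.digits b (g (Nat.nth Nat.Prime t))).length) + i)
          = ((Nat.digits b (g (Nat.nth Nat.Prime j))).reverse).getD i 0) ∧
      ∀ m : ℕ, 1 ≤ m → ∀ k : ℕ, k < b ^ m → ∀ ε : ℝ, 0 < ε →
        (∀ᶠ n in atTop,
          ((((Finset.range n).filter (fun j => ∑ i ∈ Finset.range m, d (m * j + i) * b ^ (m - 1 - i) = k)).card : ℝ)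
              - (n : ℝ) / (b : ℝ) ^ m) / Real.sqrt (2 * (n : ℝ) * Real.log (Real.log (n : ℝ)))
            ≤ Real.sqrt ((b : ℝ) ^ m - 1) / (b : ℝ) ^ m + ε) ∧
        (∃ᶠ n in atTop,
          Real.sqrt ((b : ℝ) ^ m - 1) / (b : ℝ) ^ m - ε ≤
          ((((Finset.range n).filter (fun j => ∑ i ∈ Finset.range m, d (m * j + i) * b ^ (m - 1 - i) = k)).card : ℝ)
              - (n : ℝ) / (b : ℝ) ^ m) / Real.sqrt (2 * (n : ℝ) * Real.log (Real.log (n : ℝ)))) ∧
        (∀ᶠ n in atTop,
          -(Real.sqrt ((b : ℝ) ^ m - 1) / (b : ℝ) ^ m) - ε ≤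
          ((((Finset.range n).filter (fun j => ∑ i ∈ Finset.range m, d (m * j + i) * b ^ (m - 1 - i) = k)).card : ℝ)
              - (n : ℝ) / (b : ℝ) ^ m) / Real.sqrt (2 * (n : ℝ) * Real.log (Real.log (n : ℝ)))) ∧
        (∃ᶠ n in atTop,
          ((((Finset.range n).filter (fun j => ∑ i ∈ Finset.range m, d (m * j + i) * b ^ (m - 1 - i) = k)).card : ℝ)
              - (n : ℝ) / (b : ℝ) ^ m) / Real.sqrt (2 * (n : ℝ) * Real.log (Real.log (n : ℝ)))
            ≤ -(Real.sqrt ((b : ℝ) ^ m - 1) / (b : ℝ) ^ m) + ε)) := by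
  rintro ⟨b, hb, f, hf, g, hg, d, hd, hyp⟩
  refine H016e.core hb g d (fun y => ∑ t ∈ Finset.range (Nat.count Nat.Prime y),
    (Nat.digits b (g (Nat.nth Nat.Prime t))).length) (by simp) ?_ ?_ f hf (fun n hn => (hg n hn).2) ?_
  · intro y
    rw [Nat.count_succ]
    split_ifs with hp
    · simp [Finset.sum_range_succ, Nat.nth_count hp]
    · simp
  · intro y j hp hj
    have a1 := hd (Nat.count Nat.Prime y) j (by rwa [Nat.nth_count hp])
    rw [Nat.nth_count hp] at a1
    rw [a1, List.getD_eq_getElem?_getD, List.getElem?_reverse hj, ← List.getD_eq_getElem?_getD,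
      Nat.getD_digits _ _ hb]
  · intro m hm
    have hev : ∀ᶠ n : ℕ in atTop, ∀ k ∈ Finset.range (b ^ m),
        H016e.dev b d m k n ^ 2 ≤ 16 * n * √n := by
      rw [Filter.eventually_all_finset]
      intro k hk
      obtain ⟨a1, -, a2, -⟩ := hyp m hm k (Finset.mem_range.mp hk) 1 one_pos
      filter_upwards [a1, a2, Filter.eventually_ge_atTop 3] with n b1 b2 b3
      have e : H016e.dev b d m k n = (((Finset.range n).filter
          (fun j => ∑ i ∈ Finset.range m, d (m * j + i) * b ^ (m - 1 - i) = k)).card : ℝ)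
          - (n : ℝ) / (b : ℝ) ^ m := by
        unfold H016e.dev Ha237.ind H016e.blk
        rw [Finset.sum_sub_distrib, Finset.sum_boole, Finset.sum_const, Finset.card_range,
          nsmul_eq_mul, Nat.cast_pow, mul_one_div]
      rw [← e] at b1 b2
      have c1 : (3 : ℝ) ≤ n := by exact_mod_cast b3
      have c0 : 1 < Real.log n := by
        rw [Real.lt_log_iff_exp_lt (by linarith)]
        linarith [Real.exp_one_lt_d9]
      have c2 : 0 < Real.log (Real.log n) := Real.log_pos c0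
      have c3 : 0 < √(2 * (n : ℝ) * Real.log (Real.log n)) := Real.sqrt_pos.mpr (by positivity)
      have c5 : (1 : ℝ) ≤ (b : ℝ) ^ m := one_le_pow₀ (by exact_mod_cast (by omega))
      have c4 : √((b : ℝ) ^ m - 1) / (b : ℝ) ^ m ≤ 1 := by
        rw [div_le_one (by linarith)]
        exact Real.sqrt_le_iff.mpr ⟨by linarith, by nlinarith⟩
      rw [div_le_iff₀ c3] at b1
      rw [le_div_iff₀ c3] at b2
      have c6 : H016e.dev b d m k n ^ 2 ≤ (2 * √(2 * (n : ℝ) * Real.log (Real.log n))) ^ 2 :=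
        sq_le_sq' (by nlinarith) (by nlinarith)
      rw [mul_pow, Real.sq_sqrt (by positivity)] at c6
      have c7 := Real.log_le_self (show 0 ≤ Real.log n by linarith)
      have c8 := Real.log_le_self (Real.sqrt_nonneg (n : ℝ))
      rw [Real.log_sqrt (by linarith)] at c8
      nlinarith
    obtain ⟨n0, hn0⟩ := Filter.eventually_atTop.mp hev
    exact ⟨n0, fun k hk n hn => hn0 n hn k (Finset.mem_range.mpr hk)⟩

end Pool.Agent.S15846
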