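import Pool.Statements.S15847

set_option autoImplicit false
open Pool Pool.MP_01cdf7_nt
open Filter Topology

namespace Pool.Agent.S15847

theorem dich (U : Ultrafilter ℕ) (f : ℕ → ℕ) :
    (∃ c, ∀ᶠ n in (U : Filter ℕ), f n = c) ∨ Tendsto f U atTop := by
  rcases (Ultrafilter.map f U).le_cofinite_or_eq_pure with h | ⟨c, h⟩
  · right
    rw [Nat.cofinite_eq_atTop] at h
    exact h
  · left
    refine ⟨c, ?_⟩
    have : {c} ∈ Ultrafilter.map f U := by rw [h]; simp
    exact this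

/-- sum of divisors of a prime power -/
def s (p e : ℕ) : ℕ := ∑ j ∈ Finset.range (e + 1), p ^ j

theorem s_formula (p e : ℕ) (hp : 2 ≤ p) :
    (s p e : ℝ) / (p : ℝ) ^ e = ((p : ℝ) - (1 / (p : ℝ)) ^ e) / ((p : ℝ) - 1) := by
  have hp' : (2 : ℝ) ≤ p := by exact_mod_cast hp
  have h1 : (p : ℝ) - 1 ≠ 0 := by linarith
  have h0 : (p : ℝ) ≠ 0 := by linarith
  unfold s
  push_cast
  rw [geom_sum_eq (by linarith)]
  field_simp
  rw [one_div, inv_pow]
  field_simp
  ring

theorem s_gt (p e : ℕ) (hp : 2 ≤ p) (he : 1 ≤ e) : 1 < (s p e : ℝ) / (p : ℝ) ^ e := by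
  have hp' : (2 : ℝ) ≤ p := by exact_mod_cast hp
  rw [s_formula p e hp, one_lt_div (by linarith)]
  have : (1 / (p : ℝ)) ^ e < 1 := by
    apply pow_lt_one₀ (by positivity) _ (by omega)
    rw [div_lt_one (by linarith)]; linarith
  linarith

theorem s_le (p e : ℕ) (hp : 2 ≤ p) : (s p e : ℝ) / (p : ℝ) ^ e ≤ 1 + 2 / (p : ℝ) := by
  have hp' : (2 : ℝ) ≤ p := by exact_mod_cast hp
  rw [s_formula p e hp, div_le_iff₀ (by linarith)]
  have h1 : 0 ≤ (1 / (p : ℝ)) ^ e := by positivity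
  have h2 : (1 + 2 / (p : ℝ)) * (p - 1) = p + 1 - 2 / p := by field_simp; ring
  have h3 : 2 / (p : ℝ) ≤ 1 := by rw [div_le_one (by linarith)]; exact hp'
  linarith

theorem one_index (U : Ultrafilter ℕ) (p e : ℕ → ℕ)
    (h : ∀ᶠ n in (U : Filter ℕ), 2 ≤ p n ∧ Odd (p n) ∧ 1 ≤ e n ∧ Odd (s (p n) (e n))) :
    ∃ a b : ℕ, Odd a ∧ 0 < b ∧
      Tendsto (fun n => (s (p n) (e n) : ℝ) / (p n : ℝ) ^ e n) U (𝓝 ((a : ℝ) / b)) ∧
      (Odd b → (∀ᶠ n in (U : Filter ℕ), (a : ℝ) / b ≤ (s (p n) (e n) : ℝ) / (p n : ℝ) ^ e n) ∧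
        ((∀ᶠ n in (U : Filter ℕ), (s (p n) (e n) : ℝ) / (p n : ℝ) ^ e n ≤ (a : ℝ) / b) →
          ∃ c, ∀ᶠ n in (U : Filter ℕ), p n ^ e n = c)) := by
  rcases dich U p with ⟨c, hc⟩ | hp
  · obtain ⟨n0, ⟨h2, hodd, -, -⟩, hn0⟩ := (h.and hc).exists
    rw [hn0] at h2 hodd
    rcases dich U e with ⟨d, hd⟩ | he
    · obtain ⟨n1, ⟨-, -, -, hs⟩, h1, h1'⟩ := (h.and (hc.and hd)).exists
      rw [h1, h1'] at hs
      have ev : ∀ᶠ n in (U : Filter ℕ), (s (p n) (e n) : ℝ) / (p n : ℝ) ^ e n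
          = (s c d : ℝ) / ((c ^ d : ℕ) : ℝ) := by
        filter_upwards [hc, hd] with n h1 h2
        rw [h1, h2]; push_cast; rfl
      refine ⟨s c d, c ^ d, hs, by positivity, ?_, fun _ => ⟨?_, fun _ => ⟨c ^ d, ?_⟩⟩⟩
      · exact tendsto_const_nhds.congr' (ev.mono fun n hn => hn.symm)
      · exact ev.mono fun n hn => hn.symm.le
      · filter_upwards [hc, hd] with n h1 h2
        rw [h1, h2]
    · have hc' : (2 : ℝ) ≤ c := by exact_mod_cast h2
      refine ⟨c, c - 1, hodd, by omega, ?_, fun hb => ?_⟩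
      · have e1 : ((c - 1 : ℕ) : ℝ) = (c : ℝ) - 1 := by
          rw [Nat.cast_sub (by omega)]; simp
        rw [e1]
        have t1 : Tendsto (fun n => (1 / (c : ℝ)) ^ e n) U (𝓝 0) := by
          refine (tendsto_pow_atTop_nhds_zero_of_lt_one (by positivity) ?_).comp he
          rw [div_lt_one (by linarith)]; linarith
        have t2 := (t1.const_sub (c : ℝ)).div_const ((c : ℝ) - 1)
        rw [sub_zero] at t2
        refine t2.congr' ?_
        filter_upwards [hc] with n hn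
        rw [hn, s_formula c _ h2]
      · exfalso
        obtain ⟨u, hu⟩ := hodd
        obtain ⟨v, hv⟩ := hb
        omega
  · refine ⟨1, 1, odd_one, one_pos, ?_, fun _ => ⟨?_, fun hle => ?_⟩⟩
    · have t0 : Tendsto (fun n => (p n : ℝ)) U atTop := tendsto_natCast_atTop_atTop.comp hp
      have t1 : Tendsto (fun n => 1 + 2 / (p n : ℝ)) U (𝓝 (1 + 0)) :=
        (t0.const_div_atTop 2).const_add 1
      rw [add_zero] at t1
      simp only [Nat.cast_one, div_one]
      refine tendsto_of_tendsto_of_tendsto_of_le_of_le' tendsto_const_nhds t1 ?_ ?_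
      · filter_upwards [h] with n hn using (s_gt _ _ hn.1 hn.2.2.1).le
      · filter_upwards [h] with n hn using s_le _ _ hn.1
    · filter_upwards [h] with n hn
      simpa using (s_gt _ _ hn.1 hn.2.2.1).le
    · exfalso
      obtain ⟨n, hn, hn'⟩ := (h.and hle).exists
      have := s_gt _ _ hn.1 hn.2.2.1
      simp only [Nat.cast_one, div_one] at hn'
      linarith

theorem odd_prod {k : ℕ} (a : Fin k → ℕ) (h : ∀ i, Odd (a i)) : Odd (∏ i, a i) :=
  Finset.prod_induction a Odd (fun _ _ => Odd.mul) odd_one fun i _ => h i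

theorem result :
    ∀ k : ℕ, 3 ≤ k →
      Set.Finite {n : ℕ | Odd n ∧ n.primeFactors.card = k ∧
        ∃ d : ℕ, d ∣ n ∧ d < n ∧ (∑ i ∈ n.divisors, i) + d = 2 * n} := by
  intro k _
  set S := {n : ℕ | Odd n ∧ n.primeFactors.card = k ∧
        ∃ d : ℕ, d ∣ n ∧ d < n ∧ (∑ i ∈ n.divisors, i) + d = 2 * n} with hS
  by_contra hinf
  have hne : (cofinite ⊓ 𝓟 S).NeBot := by
    rw [← frequently_mem_iff_neBot]
    exact Set.infinite_iff_frequently_cofinite.1 hinf
  obtain ⟨U, hU⟩ := Ultrafilter.exists_le (cofinite ⊓ 𝓟 S)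
  have hUc : (U : Filter ℕ) ≤ cofinite := hU.trans inf_le_left
  have hUS : ∀ᶠ n in (U : Filter ℕ), n ∈ S := le_principal_iff.1 (hU.trans inf_le_right)
  let P : ℕ → Fin k → ℕ := fun n i =>
    if h : n.primeFactors.card = k then n.primeFactors.orderEmbOfFin h i else 0
  have hprod : ∀ n ∈ S, ∀ F : ℕ → ℕ, ∏ p ∈ n.primeFactors, F p = ∏ i, F (P n i) := by
    intro n hn F
    have h := hn.2.1
    conv_lhs => rw [← Finset.map_orderEmbOfFin_univ n.primeFactors h, Finset.prod_map]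
    simp [P, h]
  have hmem : ∀ n ∈ S, ∀ i, P n i ∈ n.primeFactors := by
    intro n hn i
    have h := hn.2.1
    simp only [P, h, dif_pos]
    exact Finset.orderEmbOfFin_mem _ _ _
  have hn0 : ∀ n ∈ S, n ≠ 0 := by
    intro n hn h
    have := hn.1
    rw [h] at this
    exact absurd this (by decide)
  have hsig : ∀ n ∈ S, ∑ i ∈ n.divisors, i = ∏ i, s (P n i) (n.factorization (P n i)) := by
    intro n hn
    rw [Nat.sum_divisors (hn0 n hn)]
    exact hprod n hn fun p => s p (n.factorization p)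
  have hnn : ∀ n ∈ S, n = ∏ i, P n i ^ n.factorization (P n i) := by
    intro n hn
    rw [← hprod n hn fun p => p ^ n.factorization p]
    conv_lhs => rw [← Nat.factorization_prod_pow_eq_self (hn0 n hn)]
    rw [Finsupp.prod, Nat.support_factorization]
  have hD : ∀ n ∈ S, ∃ D : ℕ, Odd D ∧ Odd (∑ i ∈ n.divisors, i) ∧
      ((∑ i ∈ n.divisors, i : ℕ) : ℝ) / n = 2 - 1 / (D : ℝ) := by
    intro n hn
    obtain ⟨hodd, -, d, ⟨D, hd⟩, -, hsum⟩ := hn
    have hdodd : Odd d := hodd.of_dvd_nat ⟨D, hd⟩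
    have hDodd : Odd D := hodd.of_dvd_nat ⟨d, by rw [hd, mul_comm]⟩
    refine ⟨D, hDodd, ?_, ?_⟩
    · obtain ⟨u, hu⟩ := hdodd
      rw [Nat.odd_iff]; omega
    · have h1 : ((∑ i ∈ n.divisors, i : ℕ) : ℝ) + d = 2 * n := by exact_mod_cast hsum
      have h2 : (n : ℝ) = d * D := by exact_mod_cast hd
      have hd0 : (0 : ℝ) < d := by exact_mod_cast hdodd.pos
      have hD0 : (0 : ℝ) < D := by exact_mod_cast hDodd.pos
      rw [eq_sub_of_add_eq h1, h2]
      field_simp
  choose! D hD1 hD2 hD3 using hD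
  have hidx : ∀ i : Fin k, ∀ᶠ n in (U : Filter ℕ), 2 ≤ P n i ∧ Odd (P n i) ∧
      1 ≤ n.factorization (P n i) ∧ Odd (s (P n i) (n.factorization (P n i))) := by
    intro i
    filter_upwards [hUS] with n hn
    have hm := hmem n hn i
    have hp := Nat.prime_of_mem_primeFactors hm
    have hdv := Nat.dvd_of_mem_primeFactors hm
    refine ⟨hp.two_le, hn.1.of_dvd_nat hdv, hp.factorization_pos_of_dvd (hn0 n hn) hdv, ?_⟩
    refine (hD2 n hn).of_dvd_nat ?_
    rw [hsig n hn]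
    exact Finset.dvd_prod_of_mem _ (Finset.mem_univ i)
  choose a b ha hb hlim hrest using fun i => one_index U (fun n => P n i)
    (fun n => n.factorization (P n i)) (hidx i)
  have hev : ∀ᶠ n in (U : Filter ℕ),
      ∏ i, (s (P n i) (n.factorization (P n i)) : ℝ) / (P n i : ℝ) ^ n.factorization (P n i)
        = 2 - 1 / (D n : ℝ) := by
    filter_upwards [hUS] with n hn
    rw [← hD3 n hn, hsig n hn, Finset.prod_div_distrib]
    congr 1
    · push_cast; rfl
    · conv_rhs => rw [hnn n hn]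
      push_cast; rfl
  have hL := (tendsto_finset_prod Finset.univ fun i _ => hlim i).congr' hev
  have hA := odd_prod a ha
  have hB : (0 : ℝ) < ((∏ i, b i : ℕ) : ℝ) := by
    exact_mod_cast Finset.prod_pos fun i _ => hb i
  have hQ : ∏ i, (a i : ℝ) / (b i) = ((∏ i, a i : ℕ) : ℝ) / ((∏ i, b i : ℕ) : ℝ) := by
    rw [Finset.prod_div_distrib]; push_cast; rfl
  rcases dich U D with ⟨c, hc⟩ | hDt
  · obtain ⟨n0, hn0S, hn0c⟩ := (hUS.and hc).exists
    have hcodd : Odd c := hn0c ▸ hD1 n0 hn0S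
    have hc0 : (0 : ℝ) < c := by exact_mod_cast hcodd.pos
    have t2 : Tendsto (fun n => 2 - 1 / (D n : ℝ)) U (𝓝 (2 - 1 / (c : ℝ))) :=
      tendsto_const_nhds.congr' (hc.mono fun n hn => by simp only [hn])
    have hEq := tendsto_nhds_unique hL t2
    have hBodd : Odd (∏ i, b i) := by
      have h1 := hEq
      rw [hQ, div_eq_iff hB.ne'] at h1
      have h2 : (c : ℝ) * ((∏ i, a i : ℕ) : ℝ) + ((∏ i, b i : ℕ) : ℝ)
          = 2 * (c * ((∏ i, b i : ℕ) : ℝ)) := by
        rw [h1]; field_simp; ring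
      have h3 : c * ∏ i, a i + ∏ i, b i = 2 * (c * ∏ i, b i) := by exact_mod_cast h2
      obtain ⟨u, hu⟩ := hcodd.mul hA
      rw [Nat.odd_iff]; omega
    have hbi : ∀ i, Odd (b i) := fun i =>
      hBodd.of_dvd_nat (Finset.dvd_prod_of_mem _ (Finset.mem_univ i))
    have hall := eventually_all.2 fun i => (hrest i (hbi i)).1
    have hconst : ∀ i, ∃ c, ∀ᶠ n in (U : Filter ℕ), P n i ^ n.factorization (P n i) = c := by
      intro i
      apply (hrest i (hbi i)).2
      filter_upwards [hall, hev, hc] with n h1 h2 h3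
      by_contra hlt
      push Not at hlt
      have := Finset.prod_lt_prod (s := Finset.univ) (f := fun i => (a i : ℝ) / (b i))
        (fun i _ => div_pos (by exact_mod_cast (ha i).pos) (by exact_mod_cast hb i))
        (fun i _ => h1 i) ⟨i, Finset.mem_univ _, hlt⟩
      rw [h2, h3, hEq] at this
      exact lt_irrefl _ this
    choose q hq using hconst
    have hfin : ∀ᶠ n in (U : Filter ℕ), n = ∏ i, q i := by
      filter_upwards [hUS, eventually_all.2 hq] with n hn h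
      rw [hnn n hn]
      exact Finset.prod_congr rfl fun i _ => h i
    have hne' : ∀ᶠ n in (U : Filter ℕ), n ≠ ∏ i, q i := hUc (eventually_cofinite_ne _)
    obtain ⟨n, h1, h2⟩ := (hfin.and hne').exists
    exact h2 h1
  · have t0 : Tendsto (fun n => (D n : ℝ)) U atTop := tendsto_natCast_atTop_atTop.comp hDt
    have t2 := (t0.const_div_atTop 1).const_sub 2
    have hEq := tendsto_nhds_unique hL t2
    rw [hQ, sub_zero, div_eq_iff hB.ne'] at hEq
    have h3 : ∏ i, a i = 2 * ∏ i, b i := by exact_mod_cast hEq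
    obtain ⟨u, hu⟩ := hA
    omega

end Pool.Agent.S15847
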