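import Pool.Statements.S15859
import Pool.Agent.H.MP_024ca5_nt.F

set_option autoImplicit false
open Matrix
open Pool Pool.MP_024ca5_nt

namespace Pool.Agent.S15859

theorem result :
    ∀ A : Matrix (Fin 3) (Fin 3) ℤ, A.det = 1 →
      Irreducible (A.charpoly.map (Int.castRingHom ℚ)) →
      (A.charpoly.map (Int.castRingHom ℝ)).roots.card = 3 →
      ∀ (μ : Fin 3 → ℝ) (v : Fin 3 → (Fin 3 → ℝ)),
        Function.Injective μ →
        (∀ i, v i ≠ 0) →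
        (∀ i, (A.map (Int.cast : ℤ → ℝ)) *ᵥ v i = μ i • v i) →
        ∀ K : Set (Fin 3 → ℤ),
          K = {x : Fin 3 → ℤ | x ≠ 0 ∧
                ∃ t : Fin 3 → ℝ, (∀ i, 0 ≤ t i) ∧
                  (fun j => (x j : ℝ)) = ∑ i, t i • v i} →
          ∃ f : Fin 3 → ℤ, (∀ d : ℤ, (∀ i, d ∣ f i) → IsUnit d) ∧
            ∃ c : ℤ, 2 ≤ c ∧
              (∀ x ∈ K, c ≤ f ⬝ᵥ x) ∧
              ∃ p ∈ K, ∃ q ∈ K, ∃ r ∈ K,
                f ⬝ᵥ p = c ∧ f ⬝ᵥ q = c ∧ f ⬝ᵥ r = c ∧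
                LinearIndependent ℤ ![q - p, r - p] :=
  fun A _ hA _ => Pool.Agent.H.MP_024ca5_nt.main A hA

end Pool.Agent.S15859
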