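import Pool.Statements.S15886
-- import your own Pool.Agent.* helpers here

set_option autoImplicit false
open Pool Pool.MP_040934_nt

namespace Pool.Agent.S15886

theorem result :
    ¬ (∀ a b x : ℤ, 0 < a → a < b → 0 < x →
      (a ^ 3 - 1) * (b ^ 3 - 1) = x ^ 2 →
        (a = 2 ∧ b = 4 ∧ x = 21) ∨
        (a = 2 ∧ b = 22 ∧ x = 273) ∨
        (a = 3 ∧ b = 313 ∧ x = 28236) ∨
        (a = 4 ∧ b = 22 ∧ x = 819)) := by
  intro h
  have h1 := h 1173 110187925 46467362782812972 (by norm_num) (by norm_num) (by norm_num)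
    (by norm_num)
  norm_num at h1

end Pool.Agent.S15886
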