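import Pool.Statements.S15888
-- import your own Pool.Agent.* helpers here

set_option autoImplicit false
open Pool Pool.MP_0426f4_nt

namespace Pool.Agent.S15888

/-- Two numbers whose difference is within `w < 2^k` of `2^j` (with `j > k`) have quotients by `2^k`
that are incongruent mod 6. -/
lemma level_sep (a₁ a₂ b j k w : ℕ) (hk : k + 1 ≤ j) (hw : w < 2 ^ k)
    (h1 : b + 2 ^ j ≤ a₁) (h1' : a₁ ≤ b + 2 ^ j + w)
    (h2 : b + 2 * 2 ^ j ≤ a₂) (h2' : a₂ ≤ b + 2 * 2 ^ j + w)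
    (hc : (a₁ / 2 ^ k) % 6 = (a₂ / 2 ^ k) % 6) : False := by
  obtain ⟨e, rfl⟩ : ∃ e, j = k + (e + 1) := ⟨j - k - 1, by omega⟩
  have hS : 0 < 2 ^ k := by positivity
  set S := 2 ^ k with hSdef
  set D := 2 ^ (e + 1) with hD
  have hj : 2 ^ (k + (e + 1)) = S * D := by rw [pow_add]
  rw [hj] at h1 h1' h2 h2'
  have hD2 : D % 2 = 0 := by rw [hD, pow_succ]; omega
  have hD3 : D % 3 ≠ 0 := by
    intro h
    have : 3 ∣ 2 ^ (e + 1) := Nat.dvd_of_mod_eq_zero h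
    have := (Nat.Prime.dvd_of_dvd_pow Nat.prime_three this)
    omega
  have e1 := Nat.div_add_mod a₁ S
  have e2 := Nat.div_add_mod a₂ S
  have l1 := Nat.mod_lt a₁ hS
  have l2 := Nat.mod_lt a₂ hS
  set q₁ := a₁ / S
  set q₂ := a₂ / S
  set r₁ := a₁ % S
  set r₂ := a₂ % S
  have up : q₂ < q₁ + D + 2 := by
    have : S * q₂ < S * (q₁ + D + 2) := by nlinarith
    exact lt_of_mul_lt_mul_left this (Nat.zero_le _)
  have lo : q₁ + D < q₂ + 2 := by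
    have : S * (q₁ + D) < S * (q₂ + 2) := by nlinarith
    exact lt_of_mul_lt_mul_left this (Nat.zero_le _)
  omega

lemma colour_free (s : ℕ) (a₁ a₂ b j w : ℕ) (hw : w * 2 ^ (2 ^ s) < (2 ^ j) ^ 2)
    (h1 : b + 2 ^ j ≤ a₁) (h1' : a₁ ≤ b + 2 ^ j + w)
    (h2 : b + 2 * 2 ^ j ≤ a₂) (h2' : a₂ ≤ b + 2 * 2 ^ j + w) (hn : a₂ ≤ 2 ^ (2 ^ s))
    (hc : ∀ i < s + 2, (a₁ / 2 ^ (2 ^ s - 2 ^ i)) % 6 = (a₂ / 2 ^ (2 ^ s - 2 ^ i)) % 6) :
    False := by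
  set L := 2 ^ s with hL
  have hjL : j + 1 ≤ L := by
    have : 2 ^ (j + 1) ≤ 2 ^ L := by rw [pow_succ]; omega
    exact (Nat.pow_le_pow_iff_right (by norm_num)).1 this
  have hu : L - j ≠ 0 := by omega
  have hlo : 2 ^ (Nat.log 2 (L - j)) ≤ L - j := Nat.pow_log_le_self 2 hu
  have hhi : L - j < 2 ^ (Nat.log 2 (L - j) + 1) := Nat.lt_pow_succ_log_self (by norm_num) _
  set i := Nat.log 2 (L - j) + 1 with hi
  have hi2 : 2 ^ i ≤ 2 * (L - j) := by rw [hi, pow_succ]; omega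
  have his : i < s + 2 := by
    have : 2 ^ (Nat.log 2 (L - j)) ≤ 2 ^ s := by omega
    have := (Nat.pow_le_pow_iff_right (by norm_num : 1 < 2)).1 this
    omega
  have hci := hc i his
  rw [← pow_mul] at hw
  by_cases hcase : 2 ^ i ≤ L
  · have hw' : w < 2 ^ (L - 2 ^ i) := by
      have : 2 ^ (j * 2) ≤ 2 ^ (L - 2 ^ i) * 2 ^ L := by
        rw [← pow_add]; exact Nat.pow_le_pow_right (by norm_num) (by omega)
      exact lt_of_mul_lt_mul_right (lt_of_lt_of_le hw this) (Nat.zero_le _)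
    exact level_sep a₁ a₂ b j (L - 2 ^ i) w (by omega) hw' h1 h1' h2 h2' hci
  · have hw' : w < 1 := by
      have : 2 ^ (j * 2) ≤ 1 * 2 ^ L := by
        rw [one_mul]; exact Nat.pow_le_pow_right (by norm_num) (by omega)
      exact lt_of_mul_lt_mul_right (lt_of_lt_of_le hw this) (Nat.zero_le _)
    have hk : L - 2 ^ i = 0 := by omega
    rw [hk] at hci
    simp only [pow_zero, Nat.div_one] at hci
    have hD3 : 2 ^ j % 3 ≠ 0 := by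
      intro h
      have : 3 ∣ 2 ^ j := Nat.dvd_of_mod_eq_zero h
      have := (Nat.Prime.dvd_of_dvd_pow Nat.prime_three this)
      omega
    omega

lemma exists_big (s : ℕ) : ∃ A : Finset ℕ, A ⊆ Finset.Icc 1 (2 ^ (2 ^ s)) ∧
    ((2 ^ (2 ^ s) : ℕ) : ℝ) / 6 ^ (s + 2) ≤ A.card ∧
    ∀ a₁ ∈ A, ∀ a₂ ∈ A, ∀ i < s + 2,
      (a₁ / 2 ^ (2 ^ s - 2 ^ i)) % 6 = (a₂ / 2 ^ (2 ^ s - 2 ^ i)) % 6 := by
  classical
  let f : ℕ → (Fin (s + 2) → Fin 6) := fun a i =>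
    ⟨(a / 2 ^ (2 ^ s - 2 ^ (i : ℕ))) % 6, Nat.mod_lt _ (by norm_num)⟩
  have key := Finset.exists_le_card_fiber_of_nsmul_le_card_of_maps_to
    (s := Finset.Icc 1 (2 ^ (2 ^ s))) (t := (Finset.univ : Finset (Fin (s + 2) → Fin 6))) (f := f)
    (b := ((2 ^ (2 ^ s) : ℕ) : ℝ) / 6 ^ (s + 2)) (fun _ _ => Finset.mem_univ _)
    Finset.univ_nonempty (by
      simp only [Finset.card_univ, Fintype.card_fun, Fintype.card_fin, Nat.card_Icc,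
        nsmul_eq_mul, add_tsub_cancel_right]
      push_cast
      rw [mul_div_cancel₀ _ (by positivity)])
  obtain ⟨y, -, hy⟩ := key
  refine ⟨_, Finset.filter_subset _ _, hy, ?_⟩
  intro a₁ h₁ a₂ h₂ i hi
  have e₁ := (Finset.mem_filter.1 h₁).2
  have e₂ := (Finset.mem_filter.1 h₂).2
  have := congrArg Fin.val (congrFun (e₁.trans e₂.symm) ⟨i, hi⟩)
  exact this

lemma growth (s : ℕ) (hs : 13 ≤ s) :
    (6 : ℝ) ^ (s + 2) ≤
      Real.log ((2 ^ (2 ^ s) : ℕ) : ℝ) ^ Real.log (Real.log ((2 ^ (2 ^ s) : ℕ) : ℝ)) := by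
  obtain ⟨m, rfl⟩ : ∃ m, s = m + 1 := ⟨s - 1, by omega⟩
  have hl2 : (1 / 2 : ℝ) < Real.log 2 := by have := Real.log_two_gt_d9; linarith
  have h1 : (2 : ℝ) ^ m ≤ Real.log ((2 ^ (2 ^ (m + 1)) : ℕ) : ℝ) := by
    push_cast
    rw [Real.log_pow]
    push_cast
    rw [pow_succ]
    have : (0 : ℝ) < 2 ^ m := by positivity
    nlinarith
  set X := Real.log ((2 ^ (2 ^ (m + 1)) : ℕ) : ℝ) with hX
  have hm1 : (1 : ℝ) ≤ 2 ^ m := one_le_pow₀ (by norm_num)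
  have h2 : (6 : ℝ) ≤ Real.log X := by
    have : Real.log ((2 : ℝ) ^ m) ≤ Real.log X := Real.log_le_log (by positivity) h1
    rw [Real.log_pow] at this
    have hm : (12 : ℝ) ≤ m := by exact_mod_cast (by omega : 12 ≤ m)
    nlinarith
  calc (6 : ℝ) ^ (m + 1 + 2) ≤ ((2 : ℝ) ^ m) ^ 6 := by
        have : (6 : ℝ) ^ (m + 1 + 2) ≤ ((2 : ℝ) ^ 3) ^ (m + 1 + 2) :=
          pow_le_pow_left₀ (by norm_num) (by norm_num) _
        refine this.trans ?_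
        rw [← pow_mul, ← pow_mul]
        exact pow_le_pow_right₀ (by norm_num) (by omega)
    _ ≤ X ^ 6 := pow_le_pow_left₀ (by positivity) h1 _
    _ = X ^ ((6 : ℕ) : ℝ) := (Real.rpow_natCast X 6).symm
    _ ≤ X ^ Real.log X := Real.rpow_le_rpow_of_exponent_le (hm1.trans h1) (by exact_mod_cast h2)

/-- The bound fails for every `t ≥ 3`, not only for one value of `t`. -/
lemma fails_for_all (t : ℕ) (ht : 3 ≤ t) :
    ¬ (∃ n₀ : ℕ, ∀ n : ℕ, n₀ ≤ n → ∀ A : Finset ℕ, A ⊆ Finset.Icc 1 n →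
      (∀ j w : ℕ, w * n < (2 ^ j) ^ 2 →
        ¬ ∃ b : ℕ, ∀ i ∈ Finset.Icc 1 (t - 1),
          ∃ a ∈ A, b + i * 2 ^ j ≤ a ∧ a ≤ b + i * 2 ^ j + w) →
      (A.card : ℝ) / n * Real.log n ^ Real.log (Real.log n) < 1) := by
  rintro ⟨n₀, h⟩
  obtain ⟨A, hA, hcard, hcol⟩ := exists_big (n₀ + 13)
  have hn : n₀ ≤ 2 ^ (2 ^ (n₀ + 13)) := by
    have a1 : n₀ + 13 < 2 ^ (n₀ + 13) := Nat.lt_two_pow_self
    have a2 : 2 ^ (n₀ + 13) < 2 ^ (2 ^ (n₀ + 13)) := Nat.lt_two_pow_self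
    omega
  have hlt := h _ hn A hA (by
    rintro j w hw ⟨b, hb⟩
    obtain ⟨a₁, ha₁, h1, h1'⟩ := hb 1 (Finset.mem_Icc.2 ⟨le_rfl, by omega⟩)
    obtain ⟨a₂, ha₂, h2, h2'⟩ := hb 2 (Finset.mem_Icc.2 ⟨by norm_num, by omega⟩)
    rw [one_mul] at h1 h1'
    exact colour_free (n₀ + 13) a₁ a₂ b j w hw h1 h1' h2 h2'
      (Finset.mem_Icc.1 (hA ha₂)).2 (hcol a₁ ha₁ a₂ ha₂))
  have hg := growth (n₀ + 13) (by omega)
  set N : ℝ := ((2 ^ (2 ^ (n₀ + 13)) : ℕ) : ℝ) with hN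
  have hNpos : 0 < N := by rw [hN]; positivity
  have h6 : (0 : ℝ) < 6 ^ (n₀ + 13 + 2) := by positivity
  have hd : 1 / (6 : ℝ) ^ (n₀ + 13 + 2) ≤ (A.card : ℝ) / N := by
    rw [div_le_div_iff₀ h6 hNpos]
    rw [div_le_iff₀ h6] at hcard
    linarith
  have : (1 : ℝ) ≤ (A.card : ℝ) / N * Real.log N ^ Real.log (Real.log N) := by
    calc (1 : ℝ) = 1 / (6 : ℝ) ^ (n₀ + 13 + 2) * 6 ^ (n₀ + 13 + 2) := by field_simp
      _ ≤ _ := mul_le_mul hd hg h6.le (by positivity)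
  linarith


theorem result :
    ¬ (∀ t : ℕ, 3 ≤ t → ∃ n₀ : ℕ, ∀ n : ℕ, n₀ ≤ n → ∀ A : Finset ℕ, A ⊆ Finset.Icc 1 n →
      (∀ j w : ℕ, w * n < (2 ^ j) ^ 2 →
        ¬ ∃ b : ℕ, ∀ i ∈ Finset.Icc 1 (t - 1),
          ∃ a ∈ A, b + i * 2 ^ j ≤ a ∧ a ≤ b + i * 2 ^ j + w) →
      (A.card : ℝ) / n * Real.log n ^ Real.log (Real.log n) < 1) := by
  intro h
  exact fails_for_all 3 le_rfl (h 3 le_rfl)

end Pool.Agent.S15888
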