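import Pool.Statements.S15889
import Pool.Agent.H.MP_04276e_nt.F

set_option autoImplicit false
open Pool Pool.MP_04276e_nt

namespace Pool.Agent.S15889

theorem result :
    ∀ m : ℕ, ∀ α : Fin (m + 1) → ℝ,
      ∀ᵐ t : ℝ ∂MeasureTheory.volume,
        Set.Infinite {n : Fin (m + 2) → ℤ |
          |(∑ i : Fin (m + 1), (n (Fin.castSucc i) : ℝ) * α i
              + (n (Fin.last (m + 1)) : ℝ) * t)
            - (round (∑ i : Fin (m + 1), (n (Fin.castSucc i) : ℝ) * α i
              + (n (Fin.last (m + 1)) : ℝ) * t) : ℝ)|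
          < 1 / ((∏ i : Fin (m + 2), max |(n i : ℝ)| 2)
              * (Real.log (∏ i : Fin (m + 2), max |(n i : ℝ)| 2)) ^ (m + 2))} := by
  intro m α
  filter_upwards [Pool.Agent.H.MP_04276e_nt.main α] with t ht
  refine Set.Infinite.mono ?_ (ht.image (f := fun p : (Fin (m + 1) → ℤ) × ℤ =>
    (Fin.snoc p.1 p.2 : Fin (m + 2) → ℤ)) fun p _ p' _ h => ?_)
  · rintro _ ⟨p, hp, rfl⟩
    simp only [Set.mem_ofPred_eq, Fin.prod_univ_castSucc (n := m + 1), Fin.snoc_castSucc,
      Fin.snoc_last]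
    simpa [Pool.Agent.H.MP_04276e_nt.form, Pool.Agent.H.MP_04276e_nt.psi,
      Pool.Agent.H.MP_04276e_nt.ht] using hp
  · refine Prod.ext (funext fun i => ?_) ?_
    · simpa using congrFun h (Fin.castSucc i)
    · simpa using congrFun h (Fin.last _)

end Pool.Agent.S15889
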