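import Pool.Statements.S15919
import Pool.Agent.H.MP_4f8442_nt.C

set_option autoImplicit false
open Pool Pool.MP_06981f_nt

namespace Pool.Agent.S15919

theorem result :
    ∀ A : Set ℕ,
      (∀ F : Finset ℕ, ∃ k : ℕ, ∀ᶠ n in Filter.atTop,
        ∃ s : Multiset ℕ, (∀ x ∈ s, x ∈ A ∧ x ∉ F) ∧ Multiset.card s ≤ k ∧ s.sum = n) →
      ∃ t : ℕ, ∀ᶠ n in Filter.atTop,
        ∃ s : Finset ℕ, (↑s : Set ℕ) ⊆ A ∧ s.card ≤ t ∧ s.sum id = n := by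
  exact H.MP_4f8442_nt.stable

end Pool.Agent.S15919
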