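import Pool.Statements.S15999
-- import your own Pool.Agent.* helpers here

set_option autoImplicit false
open Filter
open Pool Pool.MP_0c8f06_nt

namespace Pool.Agent.S15999

lemma sq3 : Real.sqrt 3 * Real.sqrt 3 = 3 := Real.mul_self_sqrt (by norm_num)

lemma lo3 : (17 / 10 : ℝ) < Real.sqrt 3 := by
  rw [Real.lt_sqrt (by norm_num)]; norm_num

lemma hi3 : Real.sqrt 3 < 18 / 10 := by
  rw [Real.sqrt_lt' (by norm_num)]; norm_num

noncomputable def h (n : ℕ) : ℕ := ⌊(n : ℝ) * Real.sqrt 3⌋₊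

lemma h_le (n : ℕ) : (h n : ℝ) ≤ n * Real.sqrt 3 := Nat.floor_le (by positivity)

lemma h_lt (n : ℕ) : n * Real.sqrt 3 < (h n : ℝ) + 1 := Nat.lt_floor_add_one _

lemma h_mono {a b : ℕ} (hab : a < b) : h a < h b := by
  have h1 : (a : ℝ) + 1 ≤ b := by exact_mod_cast hab
  have h2 : (h a : ℝ) < h b := by nlinarith [h_le a, h_lt b, lo3]
  exact_mod_cast h2

lemma h_gt {n : ℕ} (hn : 2 ≤ n) : n < h n := by
  have h1 : (2 : ℝ) ≤ n := by exact_mod_cast hn
  have h2 : (n : ℝ) < h n := by nlinarith [h_lt n, lo3]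
  exact_mod_cast h2

lemma h_h {n : ℕ} (h1 : h n % 3 ≠ 0) : h (h n) % 3 ≠ 0 := by
  have a := h_le n
  have b := h_lt n
  have c := h_le (h n)
  have d := h_lt (h n)
  have s := sq3
  have l := lo3
  have u := hi3
  have e1 : (h n : ℝ) * Real.sqrt 3 ≤ 3 * n := by nlinarith
  have e2 : (3 * n : ℝ) < (h (h n) : ℝ) + 3 := by nlinarith
  have e3 : h (h n) ≤ 3 * n := by exact_mod_cast c.trans e1
  have e4 : 3 * n < h (h n) + 3 := by exact_mod_cast e2
  have e5 : h (h n) ≠ 3 * n := by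
    intro e
    have e6 : (h n : ℝ) * Real.sqrt 3 = 3 * n := by
      apply le_antisymm e1
      rw [e] at c
      exact_mod_cast c
    have e7 : (h n : ℝ) * h n = 3 * (n * n) := by
      have : ((h n : ℝ) * Real.sqrt 3) * (h n * Real.sqrt 3) = (3 * n) * (3 * n) := by rw [e6]
      nlinarith
    have e8 : h n * h n = 3 * (n * n) := by exact_mod_cast e7
    have e9 : 3 ∣ h n := by
      have : 3 ∣ h n * h n := ⟨_, e8⟩
      exact (Nat.prime_three.dvd_mul.1 this).elim id id
    omega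
  omega

section
variable {f : ℕ → ℕ} (hf : ∀ n : ℕ, f n = if n % 3 = 0 then n / 3 else h n)
include hf

lemma div {n : ℕ} (hn : 2 ≤ n) (h1 : n % 3 ≠ 0) (h2 : h n % 3 ≠ 0) :
    Tendsto (fun k : ℕ => f^[k] n) atTop atTop := by
  have key : ∀ k, n + k ≤ f^[k] n ∧ f^[k] n % 3 ≠ 0 ∧ h (f^[k] n) % 3 ≠ 0 := by
    intro k
    induction k with
    | zero => exact ⟨le_rfl, h1, h2⟩
    | succ k ih =>
      rw [Function.iterate_succ_apply', hf, if_neg ih.2.1]
      have := h_gt (n := f^[k] n) (by omega)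
      exact ⟨by omega, ih.2.2, h_h ih.2.2⟩
  exact tendsto_atTop_mono (fun k => le_trans (Nat.le_add_left k n) (key k).1) tendsto_id

end

lemma shift (f : ℕ → ℕ) (n : ℕ) (h : Tendsto (fun k : ℕ => f^[k] (f n)) atTop atTop) :
    Tendsto (fun k : ℕ => f^[k] n) atTop atTop :=
  (tendsto_add_atTop_iff_nat 1).1 h

open Classical in
noncomputable def E (f : ℕ → ℕ) (x : ℕ) : Finset ℕ :=
  (Finset.Icc 1 x).filter fun n => ¬ Tendsto (fun k : ℕ => f^[k] n) atTop atTop

lemma rec1 {f : ℕ → ℕ} (hf : ∀ n : ℕ, f n = if n % 3 = 0 then n / 3 else h n) (x : ℕ) :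
    (E f x).card ≤ 1 + (E f (x / 3)).card + (E f (3 * x / 5)).card := by
  classical
  have s : E f x ⊆ {1} ∪ (E f (x / 3)).image (3 * ·) ∪
      (E f x).filter (fun n => 2 ≤ n ∧ n % 3 ≠ 0) := by
    intro n hn
    have hn' := hn
    simp only [E, Finset.mem_filter, Finset.mem_Icc] at hn'
    by_cases h1 : n = 1
    · simp [h1]
    by_cases h3 : n % 3 = 0
    · refine Finset.mem_union_left _ (Finset.mem_union_right _ (Finset.mem_image.2 ⟨n / 3, ?_, by omega⟩))
      simp only [E, Finset.mem_filter, Finset.mem_Icc]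
      refine ⟨⟨by omega, by omega⟩, fun ht => hn'.2 (shift f n ?_)⟩
      rwa [hf n, if_pos h3]
    · exact Finset.mem_union_right _ (Finset.mem_filter.2 ⟨hn, by omega, h3⟩)
  have key : ∀ n ∈ (E f x).filter (fun n => 2 ≤ n ∧ n % 3 ≠ 0),
      h n % 3 = 0 ∧ h n / 3 ∈ E f (3 * x / 5) := by
    intro n hn
    simp only [E, Finset.mem_filter, Finset.mem_Icc] at hn ⊢
    obtain ⟨⟨⟨-, a⟩, b⟩, c, d⟩ := hn
    have e : h n % 3 = 0 := by
      by_contra e
      exact b (div hf c d e)
    have g := h_gt c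
    have u : 5 * h n ≤ 9 * x := by
      have a' : (n : ℝ) ≤ x := by exact_mod_cast a
      have : (5 * h n : ℝ) ≤ 9 * x := by nlinarith [h_le n, hi3, Nat.cast_nonneg (α := ℝ) n]
      exact_mod_cast this
    refine ⟨e, ⟨by omega, by omega⟩, fun ht => b (shift f n (shift f _ ?_))⟩
    rwa [hf n, if_neg d, hf (h n), if_pos e]
  have c3 : ((E f x).filter (fun n => 2 ≤ n ∧ n % 3 ≠ 0)).card ≤ (E f (3 * x / 5)).card := by
    refine Finset.card_le_card_of_injOn (fun n => h n / 3) (fun n hn => (key n hn).2) ?_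
    intro a ha b hb hab
    have h1 := (key a ha).1
    have h2 := (key b hb).1
    have h3 : h a = h b := by
      simp only at hab
      omega
    rcases lt_trichotomy a b with h4 | h4 | h4
    · exact absurd h3 (h_mono h4).ne
    · exact h4
    · exact absurd h3 (h_mono h4).ne'
  refine (Finset.card_le_card s).trans ((Finset.card_union_le _ _).trans ?_)
  have := (Finset.card_union_le {1} ((E f (x / 3)).image (3 * ·)))
  have := Finset.card_image_le (s := E f (x / 3)) (f := (3 * ·))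
  rw [Finset.card_singleton] at *
  omega

lemma bnd {f : ℕ → ℕ} (hf : ∀ n : ℕ, f n = if n % 3 = 0 then n / 3 else h n) (k : ℕ) :
    ∃ C : ℝ, ∀ x : ℕ, ((E f x).card : ℝ) ≤ (14 / 15) ^ k * x + C := by
  induction k with
  | zero =>
    refine ⟨0, fun x => ?_⟩
    have : (E f x).card ≤ x := by
      classical
      exact (Finset.card_filter_le _ _).trans (by simp)
    simpa using this
  | succ k ih =>
    obtain ⟨C, hC⟩ := ih
    refine ⟨2 * C + 1, fun x => ?_⟩
    have a : ((E f x).card : ℝ) ≤ 1 + (E f (x / 3)).card + (E f (3 * x / 5)).card := by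
      exact_mod_cast rec1 hf x
    have b := hC (x / 3)
    have c := hC (3 * x / 5)
    have d : ((x / 3 : ℕ) : ℝ) ≤ x / 3 := Nat.cast_div_le
    have e : ((3 * x / 5 : ℕ) : ℝ) ≤ 3 * x / 5 := by
      have := Nat.cast_div_le (α := ℝ) (m := 3 * x) (n := 5)
      push_cast at this
      exact this
    have p : (0 : ℝ) < (14 / 15) ^ k := by positivity
    have d' := mul_le_mul_of_nonneg_left d p.le
    have e' := mul_le_mul_of_nonneg_left e p.le
    rw [pow_succ]
    linarith

lemma small {f : ℕ → ℕ} (hf : ∀ n : ℕ, f n = if n % 3 = 0 then n / 3 else h n) :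
    Tendsto (fun x : ℕ => ((E f x).card : ℝ) / x) atTop (nhds 0) := by
  rw [Metric.tendsto_atTop]
  intro ε hε
  obtain ⟨k, hk⟩ := exists_pow_lt_of_lt_one (half_pos hε) (show (14 / 15 : ℝ) < 1 by norm_num)
  obtain ⟨C, hC⟩ := bnd hf k
  obtain ⟨N, hN⟩ := exists_nat_gt (C / (ε / 2))
  refine ⟨N + 1, fun x hx => ?_⟩
  have x1 : (N : ℝ) + 1 ≤ x := by exact_mod_cast hx
  have x0 : (0 : ℝ) < x := by linarith [Nat.cast_nonneg (α := ℝ) N]
  rw [Real.dist_eq, sub_zero, abs_of_nonneg (by positivity), div_lt_iff₀ x0]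
  rw [div_lt_iff₀ (half_pos hε)] at hN
  have := hC x
  nlinarith

/-- For f(n)=n/3 if 3 divides n and f(n)=floor(n·√3) otherwise, the set of positive integers whose orbit under f tends to infinity has natural density 1. -/
theorem result :
    ∀ f : ℕ → ℕ,
      (∀ n : ℕ, f n = if n % 3 = 0 then n / 3 else ⌊(n : ℝ) * Real.sqrt 3⌋₊) →
      Tendsto
        (fun N : ℕ =>
          (({n : ℕ | 1 ≤ n ∧ n ≤ N ∧
              Tendsto (fun k : ℕ => f^[k] n) atTop atTop}.ncard : ℕ) : ℝ) / (N : ℝ))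
        atTop (nhds 1) := by
  intro f hf
  classical
  have h1 := (tendsto_const_nhds (x := (1 : ℝ))).sub (small (f := f) hf)
  rw [sub_zero] at h1
  refine h1.congr' ?_
  filter_upwards [eventually_gt_atTop 0] with N hN
  have e : {n : ℕ | 1 ≤ n ∧ n ≤ N ∧ Tendsto (fun k : ℕ => f^[k] n) atTop atTop} =
      ((Finset.Icc 1 N).filter fun n => Tendsto (fun k : ℕ => f^[k] n) atTop atTop : Finset ℕ) := by
    ext n
    simp [and_assoc]
  have c := Finset.card_filter_add_card_filter_not (s := Finset.Icc 1 N)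
    (fun n => Tendsto (fun k : ℕ => f^[k] n) atTop atTop)
  rw [Nat.card_Icc, Nat.add_sub_cancel] at c
  have c' : (((Finset.Icc 1 N).filter fun n => Tendsto (fun k : ℕ => f^[k] n) atTop atTop).card : ℝ) +
      (E f N).card = N := by exact_mod_cast c
  have p : (N : ℝ) ≠ 0 := by positivity
  rw [e, Set.ncard_coe_finset]
  field_simp
  linarith

end Pool.Agent.S15999
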