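import Pool.Statements.S16009
import Pool.Agent.H.MP_0d02c1_nt.C

set_option autoImplicit false
open Pool Pool.MP_0d02c1_nt

namespace Pool.Agent.S16009

/-- For every M, there is N such that for all n ≥ N, the convex hull of the integer points (x,y) with 1 ≤ x,y ≤ n−1 and xy ≡ 1 mod n has at least M vertices (extreme points). -/
theorem result :
    ∀ M : ℕ, ∃ N : ℕ, ∀ n : ℕ, N ≤ n →
      M ≤ (Set.extremePoints ℝ
        (convexHull ℝ
          {p : ℝ × ℝ | ∃ x y : ℕ, 1 ≤ x ∧ x ≤ n - 1 ∧ 1 ≤ y ∧ y ≤ n - 1 ∧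
            Nat.ModEq n (x * y) 1 ∧ p = ((x : ℝ), (y : ℝ))})).ncard := by
  intro M
  obtain ⟨N, h⟩ := Filter.eventually_atTop.1 (H.MP_0d02c1_nt.chain M 0)
  refine ⟨N, fun n hn => ?_⟩
  obtain ⟨E, rfl, k⟩ := h n hn
  rw [← Set.ncard_coe_finset]
  exact Set.ncard_le_ncard (fun e he => (k e he).1)
    ((H.MP_0d02c1_nt.fin n).subset extremePoints_convexHull_subset)

end Pool.Agent.S16009
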