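import Pool.Statements.S16171

set_option autoImplicit false
open Filter Topology
open Pool Pool.MP_184037_nt

namespace Pool.Agent.S16171

open Finset

noncomputable def g (K n : ℕ) : ℝ := ∑ d ∈ n.divisors.filter (K < ·), (d : ℝ)⁻¹

lemma g_nonneg (K n : ℕ) : 0 ≤ g K n := sum_nonneg fun p _ => by positivity

lemma moment (K N : ℕ) (hK : 1 ≤ K) : ∑ n ∈ range N, g K n ≤ N / (K : ℝ) := by
  have h1 : ∀ n ∈ range N, g K n ≤
      ∑ m ∈ Ioc K (K + N), if n ≠ 0 ∧ m ∣ n then (m : ℝ)⁻¹ else 0 := by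
    intro n hn
    rw [← sum_filter]
    refine sum_le_sum_of_subset_of_nonneg (fun p hp => ?_) fun m _ _ => by positivity
    simp only [mem_filter, Nat.mem_divisors, mem_Ioc] at hp ⊢
    have := Nat.le_of_dvd (Nat.pos_of_ne_zero hp.1.2) hp.1.1
    have := mem_range.mp hn
    exact ⟨⟨hp.2, by omega⟩, hp.1.2, hp.1.1⟩
  refine (sum_le_sum h1).trans ?_
  rw [sum_comm]
  have h2 : ∀ m ∈ Ioc K (K + N), ∑ n ∈ range N, (if n ≠ 0 ∧ m ∣ n then (m : ℝ)⁻¹ else 0) ≤
      N * ((m : ℝ) ^ 2)⁻¹ := by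
    intro m hm
    rw [← sum_filter, sum_const, nsmul_eq_mul]
    have h3 : ((range N).filter fun n => n ≠ 0 ∧ m ∣ n).card ≤ N / m := by
      rw [← Nat.card_multiples' N m]
      exact card_le_card (filter_subset_filter _ (range_subset_range.mpr (Nat.le_succ N)))
    have h4 : (((range N).filter fun n => n ≠ 0 ∧ m ∣ n).card : ℝ) ≤ N / (m : ℝ) :=
      le_trans (by exact_mod_cast h3) Nat.cast_div_le
    calc _ ≤ N / (m : ℝ) * (m : ℝ)⁻¹ := by gcongr
      _ = _ := by ring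
  refine (sum_le_sum h2).trans ?_
  rw [← mul_sum, div_eq_mul_inv]
  refine mul_le_mul_of_nonneg_left ((sum_Ioc_inv_sq_le_sub (by omega) (by omega)).trans ?_)
    (Nat.cast_nonneg N)
  exact sub_le_self _ (by positivity)

lemma markov (K N : ℕ) (hK : 1 ≤ K) (t : ℝ) (ht : 0 < t) :
    (((range N).filter fun n => t < g K n).card : ℝ) ≤ N / (K : ℝ) / t := by
  rw [le_div_iff₀ ht]
  refine le_trans ?_ (moment K N hK)
  calc _ = ∑ n ∈ (range N).filter fun n => t < g K n, t := by rw [sum_const, nsmul_eq_mul]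
    _ ≤ ∑ n ∈ (range N).filter fun n => t < g K n, g K n :=
        sum_le_sum fun n hn => (mem_filter.mp hn).2.le
    _ ≤ _ := sum_le_sum_of_subset_of_nonneg (filter_subset _ _) fun n _ _ => g_nonneg K n

noncomputable def rho (K n : ℕ) : ℝ := ∑ d ∈ (Icc 1 K).filter (· ∣ n), (d : ℝ)⁻¹

lemma rho_nonneg (K n : ℕ) : 0 ≤ rho K n := sum_nonneg fun p _ => by positivity

lemma rho_mod (K n : ℕ) : rho K (n % K.factorial) = rho K n := by
  unfold rho
  congr 1
  exact filter_congr fun p hp =>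
    Nat.dvd_mod_iff (Nat.dvd_factorial (mem_Icc.mp hp).1 (mem_Icc.mp hp).2)

lemma rho_sig (K n : ℕ) (hn : n ≠ 0) :
    ((ArithmeticFunction.sigma 1 n : ℕ) : ℝ) = n * rho K n + n * g K n := by
  have h1 : n.divisors.filter (fun p => ¬ K < p) = (Icc 1 K).filter (· ∣ n) := by
    ext p
    simp only [mem_filter, Nat.mem_divisors, mem_Icc]
    exact ⟨fun ⟨⟨a, b⟩, c⟩ => ⟨⟨Nat.pos_of_dvd_of_pos a (Nat.pos_of_ne_zero b), by omega⟩, a⟩,
      fun ⟨a, b⟩ => ⟨⟨b, hn⟩, by omega⟩⟩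
  rw [← mul_add, rho, g, ← h1, add_comm, sum_filter_add_sum_filter_not, ArithmeticFunction.sigma_one_apply,
    ← Nat.sum_div_divisors n fun d => d, mul_sum]
  push_cast
  exact sum_congr rfl fun d hd => by
    rw [Nat.cast_div (Nat.dvd_of_mem_divisors hd)
      (by exact_mod_cast (Nat.pos_of_mem_divisors hd).ne'), div_eq_mul_inv]

lemma class_count (T : Finset ℕ) (M a : ℕ) (hM : 0 < M) (u l : ℝ) (hu : 0 ≤ u) (hl : 0 ≤ l)
    (h : ∀ n ∈ T, n % M = a ∧ u ≤ n ∧ (n : ℝ) ≤ u + l) : (T.card : ℝ) ≤ l / M + 2 := by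
  have hM' : (0 : ℝ) < M := by exact_mod_cast hM
  have h1 : T.card ≤ (Icc ⌊u / M⌋₊ ⌊(u + l) / M⌋₊).card := by
    refine card_le_card_of_injOn (fun n => n / M) ?_ ?_
    · intro n hn
      obtain ⟨-, h2, h3⟩ := h n hn
      simp only [coe_Icc, Set.mem_Icc]
      rw [← Nat.floor_div_eq_div (K := ℝ)]
      exact ⟨Nat.floor_le_floor (by gcongr), Nat.floor_le_floor (by gcongr)⟩
    · intro n hn m hm hnm
      have a1 := (h n hn).1
      have a2 := (h m hm).1
      simp only at hnm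
      rw [← Nat.div_add_mod n M, ← Nat.div_add_mod m M, a1, a2, hnm]
  rw [Nat.card_Icc] at h1
  have h2 : ⌊u / M⌋₊ ≤ ⌊(u + l) / M⌋₊ + 1 :=
    le_trans (Nat.floor_le_floor (by gcongr; linarith)) (Nat.le_succ _)
  have h3 : (T.card : ℝ) ≤ (⌊(u + l) / M⌋₊ : ℝ) + 1 - ⌊u / M⌋₊ := by
    have : ((⌊(u + l) / M⌋₊ + 1 - ⌊u / M⌋₊ : ℕ) : ℝ) = (⌊(u + l) / M⌋₊ : ℝ) + 1 - ⌊u / M⌋₊ := by
      rw [Nat.cast_sub h2]
      push_cast
      ring
    rw [← this]
    exact_mod_cast h1
  have h4 : (⌊(u + l) / M⌋₊ : ℝ) ≤ (u + l) / M := Nat.floor_le (by positivity)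
  have h5 : u / M < ⌊u / M⌋₊ + 1 := Nat.lt_floor_add_one _
  have h6 : (u + l) / M = u / M + l / M := add_div _ _ _
  linarith

lemma main_count (x m : ℕ) (hm : 1 ≤ m) (hx : m * (m ^ 2).factorial ≤ x) :
    ((Set.ncard {n : ℕ | (x : ℝ) < (n : ℝ) + ((ArithmeticFunction.sigma 1 n : ℕ) : ℝ) ∧
      (n : ℝ) + ((ArithmeticFunction.sigma 1 n : ℕ) : ℝ) < (x : ℝ) + (x : ℝ) / m} : ℕ) : ℝ) ≤
      7 * ((x : ℝ) / m) := by
  classical
  have hm' : (1 : ℝ) ≤ m := by exact_mod_cast hm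
  set K := m ^ 2 with hK
  set M := K.factorial with hM
  have hM0 : 0 < M := Nat.factorial_pos K
  have hM0' : (0 : ℝ) < M := by exact_mod_cast hM0
  set F : ℝ := (x : ℝ) / m with hF
  have hMF : (M : ℝ) ≤ F := by
    rw [hF, le_div_iff₀ (by linarith), mul_comm]
    exact_mod_cast hx
  have hx0 : (0 : ℝ) ≤ x := Nat.cast_nonneg x
  have hFx : F ≤ x := div_le_self hx0 hm'
  have hF0 : 0 ≤ F := by positivity
  set B := (range (2 * x)).filter fun n => 1 / (m : ℝ) < g K n with hB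
  set T : ℕ → Finset ℕ := fun a => (range (2 * x)).filter fun n =>
    n % M = a ∧ max (x / (1 + rho K a) - 2 * F) 0 ≤ n ∧
      (n : ℝ) ≤ max (x / (1 + rho K a) - 2 * F) 0 + 3 * F with hT
  have hsub : {n : ℕ | (x : ℝ) < (n : ℝ) + ((ArithmeticFunction.sigma 1 n : ℕ) : ℝ) ∧
      (n : ℝ) + ((ArithmeticFunction.sigma 1 n : ℕ) : ℝ) < (x : ℝ) + F} ⊆
      ↑(B ∪ (range M).biUnion T) := by
    intro n hn
    obtain ⟨h1, h2⟩ := hn
    have hn0 : n ≠ 0 := by
      rintro rfl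
      simp at h1
      linarith
    have ht0 : (0 : ℝ) ≤ ((ArithmeticFunction.sigma 1 n : ℕ) : ℝ) := Nat.cast_nonneg _
    have hn2 : (n : ℝ) < 2 * x := by linarith
    have hn2' : n ∈ range (2 * x) := mem_range.mpr (by exact_mod_cast hn2)
    simp only [coe_union, Set.mem_union, mem_coe]
    by_cases hb : 1 / (m : ℝ) < g K n
    · exact Or.inl (mem_filter.mpr ⟨hn2', hb⟩)
    · right
      rw [mem_biUnion]
      have r0 := rho_nonneg K n
      have h3 := rho_sig K n hn0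
      have h4 : (n : ℝ) * g K n ≤ 2 * F := by
        calc (n : ℝ) * g K n ≤ (2 * x) * (1 / m) :=
              mul_le_mul hn2.le (not_lt.mp hb) (g_nonneg K n) (by positivity)
          _ = _ := by rw [hF]; ring
      have h6 := mul_nonneg (Nat.cast_nonneg (α := ℝ) n) (g_nonneg K n)
      refine ⟨n % M, mem_range.mpr (Nat.mod_lt _ hM0), mem_filter.mpr ⟨hn2', rfl, ?_, ?_⟩⟩
      · rw [hM, rho_mod]
        refine max_le ?_ (Nat.cast_nonneg n)
        rw [sub_le_iff_le_add, div_le_iff₀ (by linarith)]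
        nlinarith
      · rw [hM, rho_mod]
        have h5 : (n : ℝ) - F ≤ x / (1 + rho K n) := by
          rw [le_div_iff₀ (by linarith)]
          nlinarith
        linarith [le_max_left (x / (1 + rho K n) - 2 * F) 0]
  have h1 := Set.ncard_le_ncard hsub (Finset.finite_toSet _)
  rw [Set.ncard_coe_finset] at h1
  have h2 : (B.card : ℝ) ≤ 2 * F := by
    refine (markov K (2 * x) (Nat.one_le_pow _ _ hm) _ (by positivity)).trans (le_of_eq ?_)
    rw [hK, hF]
    push_cast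
    field_simp
  have h3 : ∀ a ∈ range M, ((T a).card : ℝ) ≤ 3 * F / M + 2 := fun a _ =>
    class_count _ M a hM0 _ (3 * F) (le_max_right _ _) (by positivity) fun n hn => (mem_filter.mp hn).2
  have h4 : (((range M).biUnion T).card : ℝ) ≤ 5 * F := by
    calc (((range M).biUnion T).card : ℝ) ≤ ((∑ a ∈ range M, (T a).card : ℕ) : ℝ) := by
          exact_mod_cast card_biUnion_le
      _ = ∑ a ∈ range M, ((T a).card : ℝ) := by push_cast; rfl
      _ ≤ ∑ a ∈ range M, (3 * F / M + 2) := sum_le_sum h3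
      _ = 3 * F + 2 * M := by
          rw [sum_const, card_range, nsmul_eq_mul]
          field_simp
      _ ≤ _ := by linarith
  have h5 : ((B ∪ (range M).biUnion T).card : ℝ) ≤ B.card + ((range M).biUnion T).card := by
    exact_mod_cast card_union_le _ _
  exact (Nat.cast_le.mpr h1).trans (by linarith)

def mm (x : ℕ) : ℕ := Nat.findGreatest (fun m => m * (m ^ 2).factorial ≤ x) x

lemma mm_ge (L x : ℕ) (h : L * (L ^ 2).factorial ≤ x) : L ≤ mm x :=
  Nat.le_findGreatest (le_trans (Nat.le_mul_of_pos_right _ (Nat.factorial_pos _)) h) h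

lemma mm_spec (x : ℕ) : mm x * (mm x ^ 2).factorial ≤ x :=
  Nat.findGreatest_spec (P := fun m => m * (m ^ 2).factorial ≤ x) (Nat.zero_le x) (by simp)

lemma mm_tendsto : Tendsto (fun x => (mm x : ℝ)) atTop atTop := by
  refine tendsto_natCast_atTop_atTop.comp ?_
  rw [tendsto_atTop]
  intro L
  filter_upwards [eventually_ge_atTop (L * (L ^ 2).factorial)] with x hx using mm_ge L x hx

theorem result :
    ¬ ∀ F : ℕ → ℝ, Tendsto F atTop atTop →
      (∀ ε : ℝ, 0 < ε →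
        Tendsto (fun N : ℕ =>
          (((Finset.range N).filter
            (fun n => ε ≤ |F n / ((ArithmeticFunction.sigma 1 n : ℕ) : ℝ)|)).card : ℝ) / (N : ℝ))
          atTop (𝓝 0)) →
      ∀ C : ℝ, ∀ N : ℕ, ∃ x : ℕ, N < x ∧
        C * F x < (Nat.card {n : ℕ //
          (x : ℝ) < (n : ℝ) + ((ArithmeticFunction.sigma 1 n : ℕ) : ℝ) ∧
          (n : ℝ) + ((ArithmeticFunction.sigma 1 n : ℕ) : ℝ) < (x : ℝ) + F x} : ℝ) := by
  have hm1 : ∀ x, 1 ≤ x → 1 ≤ mm x := fun x hx => mm_ge 1 x (by simpa using hx)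
  intro H
  refine (H (fun x => (x : ℝ) / mm x) ?_ (fun ε hε => ?_) 7 0).elim fun x h =>
    h.2.not_ge (main_count x _ (hm1 x h.1) (mm_spec x))
  · refine tendsto_atTop_mono' _ ?_ mm_tendsto
    filter_upwards [eventually_ge_atTop 1] with x hx
    have h1 : (1 : ℝ) ≤ mm x := by exact_mod_cast hm1 x hx
    rw [le_div_iff₀ (by linarith)]
    have h2 : mm x * mm x ≤ x := by
      refine le_trans (Nat.mul_le_mul_left _ ?_) (mm_spec x)
      exact le_trans (Nat.le_self_pow two_ne_zero _) (Nat.self_le_factorial _)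
    exact_mod_cast h2
  · obtain ⟨n0, hn0⟩ := eventually_atTop.mp
      ((mm_tendsto.eventually_gt_atTop ε⁻¹).and (eventually_ge_atTop 1))
    refine squeeze_zero (fun N => by positivity) (fun N => ?_)
      (tendsto_const_div_atTop_nhds_zero_nat (n0 : ℝ))
    gcongr
    refine (card_le_card fun n hn => mem_range.mpr ?_).trans_eq (card_range n0)
    by_contra c
    obtain ⟨a, b⟩ := hn0 n (not_lt.mp c)
    have b' : (1 : ℝ) ≤ n := by exact_mod_cast b
    have h3 := rho_sig 1 n (by omega)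
    have h4 : rho 1 n = 1 := by simp [rho, filter_singleton]
    have h6 := mul_nonneg (Nat.cast_nonneg (α := ℝ) n) (g_nonneg 1 n)
    have h5 := (mem_filter.mp hn).2
    have h7 : 0 < ε⁻¹ := inv_pos.mpr hε
    rw [h4] at h3
    rw [abs_of_nonneg (by positivity), le_div_iff₀ (by linarith), le_div_iff₀ (by linarith)] at h5
    rw [inv_lt_iff_one_lt_mul₀ hε] at a
    nlinarith

end Pool.Agent.S16171
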