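import Pool.Statements.S16173
import Pool.Agent.H.MP_18694c_nt.Bound

set_option autoImplicit false
open N97cf5353
open Filter
open Pool Pool.MP_18694c_nt

namespace Pool.Agent.S16173

open Finset Pool.Agent.H.MP_18694c_nt

lemma tau_le (n : ℕ) (hn : 2 ≤ n) (y : ℝ) (hy : 1 < y) :
    (n.divisors.card : ℝ) ≤ Real.exp (y * Real.log (1 + 2 * Real.log n) + Real.log n / Real.log y) := by
  have hn' : (2:ℝ) ≤ n := by exact_mod_cast hn
  have hl0 : 0 ≤ Real.log n := Real.log_nonneg (by linarith)
  have hly : 0 < Real.log y := Real.log_pos hy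
  have hw : 0 ≤ Real.log (1 + 2 * Real.log n) := Real.log_nonneg (by linarith)
  rw [Nat.card_divisors (by omega)]
  push_cast
  have hlog : Real.log n = ∑ p ∈ n.primeFactors, (n.factorization p : ℝ) * Real.log p := by
    conv_lhs => rw [← Nat.prod_factorization_pow_eq_self (by omega : n ≠ 0)]
    rw [Finsupp.prod, Nat.support_factorization]
    push_cast
    rw [Real.log_prod]
    · simp only [Real.log_pow]
    · intro p hp
      have := (Nat.prime_of_mem_primeFactors hp).pos
      positivity
  have key : ∀ p ∈ n.primeFactors, ((n.factorization p : ℝ) + 1) ≤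
      Real.exp ((if (p:ℝ) ≤ y then Real.log (1 + 2 * Real.log n) else 0) +
        (n.factorization p : ℝ) * Real.log p / Real.log y) := by
    intro p hp
    have pp := Nat.prime_of_mem_primeFactors hp
    have p2 : (2:ℝ) ≤ p := by exact_mod_cast pp.two_le
    have lp : Real.log 2 ≤ Real.log p := Real.log_le_log (by norm_num) p2
    have l2 := Real.log_two_gt_d9
    have a0 : (0:ℝ) ≤ n.factorization p := Nat.cast_nonneg _
    split_ifs with h
    · have h1 : (n.factorization p : ℝ) * Real.log p ≤ Real.log n := by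
        rw [hlog]
        apply single_le_sum (f := fun p => (n.factorization p : ℝ) * Real.log p) _ hp
        intro q hq
        have : (1:ℝ) ≤ q := by exact_mod_cast (Nat.prime_of_mem_primeFactors hq).pos
        have := Real.log_nonneg this
        positivity
      have h2 : (n.factorization p : ℝ) + 1 ≤ 1 + 2 * Real.log n := by nlinarith
      calc _ ≤ 1 + 2 * Real.log n := h2
        _ = Real.exp (Real.log (1 + 2 * Real.log n)) := (Real.exp_log (by linarith)).symm
        _ ≤ _ := by
          apply Real.exp_le_exp.mpr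
          have : 0 ≤ (n.factorization p : ℝ) * Real.log p / Real.log y := by
            have : 0 ≤ Real.log p := by linarith
            positivity
          linarith
    · push Not at h
      have h1 : Real.log y ≤ Real.log p := Real.log_le_log (by linarith) h.le
      refine (Real.add_one_le_exp _).trans (Real.exp_le_exp.mpr ?_)
      rw [zero_add, le_div_iff₀ hly]
      exact mul_le_mul_of_nonneg_left h1 a0
  refine (prod_le_prod (fun p _ => by positivity) key).trans ?_
  rw [← Real.exp_sum]
  apply Real.exp_le_exp.mpr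
  rw [sum_add_distrib, ← sum_div, ← hlog, ← sum_filter, sum_const, nsmul_eq_mul]
  have c : ((n.primeFactors.filter (fun p : ℕ => (p:ℝ) ≤ y)).card : ℝ) ≤ y := by
    have : n.primeFactors.filter (fun p : ℕ => (p:ℝ) ≤ y) ⊆ Icc 1 ⌊y⌋₊ := by
      intro p hp
      have h := mem_filter.mp hp
      exact mem_Icc.mpr ⟨(Nat.prime_of_mem_primeFactors h.1).pos, Nat.le_floor h.2⟩
    have h2 := card_le_card this
    rw [Nat.card_Icc, Nat.add_sub_cancel] at h2
    have h3 : ((n.primeFactors.filter (fun p : ℕ => (p:ℝ) ≤ y)).card : ℝ) ≤ ⌊y⌋₊ := by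
      exact_mod_cast h2
    exact h3.trans (Nat.floor_le (by linarith))
  have := mul_le_mul_of_nonneg_right c hw
  linarith

lemma log_sq (u : ℝ) (hu : 1 ≤ u) : Real.log u ^ 2 ≤ 16 * Real.sqrt u := by
  have h0 : 0 < Real.sqrt u := Real.sqrt_pos.mpr (by linarith)
  have h1 : 0 < Real.sqrt (Real.sqrt u) := Real.sqrt_pos.mpr h0
  have e : Real.log u = 4 * Real.log (Real.sqrt (Real.sqrt u)) := by
    rw [Real.log_sqrt h0.le, Real.log_sqrt (by linarith)]; ring
  have h2 := Real.log_le_sub_one_of_pos h1
  have h3 : 0 ≤ Real.log u := Real.log_nonneg hu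
  have h4 := Real.mul_self_sqrt h0.le
  nlinarith

/-- ∃ c>0, ∀ ε>0, for all sufficiently large n, (least k≥2 with gcd(k^n−1, 2^n−1)=1) < exp(n^((c+ε)/log log n)) (natural log). -/
theorem result :
    ∃ c > (0 : ℝ), ∀ ε > (0 : ℝ), ∀ᶠ n : ℕ in atTop, (K n : ℝ) < Real.exp ((n : ℝ) ^ ((c + ε) / Real.log (Real.log (n : ℝ)))) := by
  refine ⟨100, by norm_num, fun ε hε => ?_⟩
  have ev : ∀ᶠ n : ℕ in atTop, (200:ℝ) ≤ Real.log n :=
    (Real.tendsto_log_atTop.comp tendsto_natCast_atTop_atTop).eventually_ge_atTop 200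
  filter_upwards [ev, eventually_ge_atTop 2] with n hu hn
  have hn' : (2:ℝ) ≤ n := by exact_mod_cast hn
  obtain ⟨k, k1, k2, k3⟩ := exists_k n hn _ le_rfl
  have hK : (K n : ℝ) ≤ k := by
    have : K n ≤ k := Nat.sInf_le ⟨k1, k2⟩
    exact_mod_cast this
  refine lt_of_le_of_lt hK (k3.trans_le (Real.exp_le_exp.mpr ?_))
  have hs : 1 < Real.sqrt (Real.log n) := by
    rw [Real.lt_sqrt (by norm_num)]; linarith
  have t := tau_le n hn _ hs
  have t1 : (1:ℝ) ≤ n.divisors.card := by
    have : 0 < n.divisors.card := card_pos.mpr ⟨1, by simp; omega⟩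
    exact_mod_cast this
  have l2 : Real.log (2 * n) ≤ 2 * Real.log n := by
    rw [Real.log_mul (by norm_num) (by linarith)]
    have := Real.log_two_lt_d9
    linarith
  have l3 : 0 ≤ Real.log (2 * n) := Real.log_nonneg (by linarith)
  rw [Real.rpow_def_of_pos (by linarith)]
  rw [Real.log_sqrt (by linarith)] at t
  have q := log_sq (Real.log n) (by linarith)
  have q2 := Real.mul_self_sqrt (by linarith : 0 ≤ Real.log n)
  generalize (n.divisors.card : ℝ) = T at *
  generalize Real.log (2 * n) = a at *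
  generalize Real.log n = u at *
  have v0 : 0 < Real.log u := Real.log_pos (by linarith)
  have w1 : Real.log (1 + 2 * u) ≤ 2 * Real.log u := by
    rw [show (2:ℝ) * Real.log u = Real.log (u ^ 2) by rw [Real.log_pow]; norm_num]
    apply Real.log_le_log (by linarith)
    nlinarith
  have w2 : u ^ 4 = Real.exp (4 * Real.log u) := by
    rw [show (4:ℝ) * Real.log u = (4:ℕ) * Real.log u by norm_num, Real.exp_nat_mul,
      Real.exp_log (by linarith)]
  have b1 : T * (2 + 2 * u) ≤ 3 * (u * T) := by nlinarith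
  have b0 : 0 ≤ T * (2 + 2 * u) := by positivity
  generalize T * (2 + 2 * u) = B at *
  have uT : u ≤ u * T := by nlinarith
  have c1 : 2 * a * B ≤ 4 * u * (3 * (u * T)) := mul_le_mul (by linarith) b1 b0 (by linarith)
  have c2 : (2 * a + 2) * B ≤ 5 * u * (3 * (u * T)) := mul_le_mul (by linarith) b1 b0 (by linarith)
  have c3 : 2 * u * (2 * ((2 * a + 2) * B) + 3) ≤ 2 * u * (2 * (5 * u * (3 * (u * T))) + 3) :=
    mul_le_mul_of_nonneg_left (by linarith) (by linarith)
  have c4 : 2 * a * B + 3 + 2 * u * (2 * ((2 * a + 2) * B) + 3) ≤ u ^ 4 * T := by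
    have d1 : u * (u * T) * 200 ≤ u * (u * T) * u :=
      mul_le_mul_of_nonneg_left hu (by positivity)
    have d2 : u * (u * T) * u * 200 ≤ u * (u * T) * u * u :=
      mul_le_mul_of_nonneg_left hu (by positivity)
    have d3 : (u * T) * 200 ≤ (u * T) * u := mul_le_mul_of_nonneg_left hu (by positivity)
    nlinarith
  refine c4.trans ?_
  rw [w2]
  refine (mul_le_mul_of_nonneg_left t (Real.exp_pos _).le).trans ?_
  rw [← Real.exp_add]
  apply Real.exp_le_exp.mpr
  generalize Real.log u = v at *
  generalize Real.log (1 + 2 * u) = w at *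
  generalize Real.sqrt u = s at *
  have e1 : u / (v / 2) = 2 * u / v := by field_simp
  have e2 : u * ((100 + ε) / v) = 2 * u / v + (98 + ε) * u / v := by field_simp; ring
  rw [e1, e2]
  have e3 : 4 * v + s * w ≤ (98 + ε) * u / v := by
    rw [le_div_iff₀ v0]
    have f1 : s * w ≤ s * (2 * v) := mul_le_mul_of_nonneg_left w1 (by linarith)
    have f2 : (4 * v + s * w) * v ≤ (6 * s * v) * v := by
      apply mul_le_mul_of_nonneg_right _ v0.le
      nlinarith
    have f3 : s * v ^ 2 ≤ s * (16 * s) := mul_le_mul_of_nonneg_left q (by linarith)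
    have f4 : 0 ≤ ε * u := by positivity
    nlinarith
  linarith

end Pool.Agent.S16173
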