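import Pool.Statements.S16177
import Pool.Agent.H.MP_189914_nt.I

set_option autoImplicit false
open Pool Pool.MP_189914_nt

namespace Pool.Agent.S16177

/-- Let χ be the greedy sequence with χ1 = 1 and χi = max over 1≤j<i of (j+1)(i−χj). Then every integer sequence with a_i + (j+1)a_j ≥ (j+1)i for all i,j ≥ 1 has sum of 1/a_k (possibly infinite) at most the sum of 1/χ_k. -/
theorem result :
    ∀ χ : ℕ → ℤ, χ 1 = 1 →
      (∀ i : ℕ, 2 ≤ i →
        (∀ j : ℕ, 1 ≤ j → j < i → ((j : ℤ) + 1) * ((i : ℤ) - χ j) ≤ χ i) ∧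
        (∃ j : ℕ, 1 ≤ j ∧ j < i ∧ χ i = ((j : ℤ) + 1) * ((i : ℤ) - χ j))) →
      ∀ a : ℕ → ℤ,
        (∀ i j : ℕ, 1 ≤ i → 1 ≤ j → ((j : ℤ) + 1) * (i : ℤ) ≤ a i + ((j : ℤ) + 1) * a j) →
        (∑' k : ℕ, (((a (k + 1)).toNat : ENNReal))⁻¹) ≤
          ∑' k : ℕ, (((χ (k + 1)).toNat : ENNReal))⁻¹ := by
  intro χ h1 h2 a ha
  refine Pool.Agent.H.MP_189914_nt.main χ h1 h2 (fun i => (a i).toNat) fun i j hi hj => ?_
  have pos : ∀ i : ℕ, 1 ≤ i → 0 ≤ a i := by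
    intro i hi
    have h := ha i i hi hi
    by_contra hh
    have : (1 : ℤ) ≤ i := by exact_mod_cast hi
    nlinarith
  have h := ha i j hi hj
  zify
  rw [Int.toNat_of_nonneg (pos i hi), Int.toNat_of_nonneg (pos j hj)]
  exact h

end Pool.Agent.S16177
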