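import Pool.Statements.S16227

set_option autoImplicit false
open N41f07a28
open Asymptotics Filter
open Pool Pool.MP_1d29c3_nt

namespace Pool.Agent.S16227

lemma count_res (p c S : ℕ) (hp : p.Prime) :
    (((Finset.Icc 1 S).filter (fun s => p ∣ 1 + c * s)).card : ℝ) ≤ (S : ℝ) / p + 1 := by
  have hinj : ((Finset.Icc 1 S).filter (fun s => p ∣ 1 + c * s)).card ≤
      (Finset.range (S / p + 1)).card := by
    apply Finset.card_le_card_of_injOn (fun s => s / p)
    · intro s hs
      simp only [Finset.coe_filter, Finset.mem_Icc, Set.mem_setOf_eq] at hs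
      simp only [Finset.coe_range, Set.mem_Iio]
      exact Nat.lt_succ_of_le (Nat.div_le_div_right hs.1.2)
    · intro s hs s' hs' h
      simp only [Finset.coe_filter, Finset.mem_Icc, Set.mem_setOf_eq] at hs hs'
      have hc : Nat.Coprime p c := by
        rw [Nat.Prime.coprime_iff_not_dvd hp]
        intro hpc
        have : p ∣ 1 := (Nat.dvd_add_left (Dvd.dvd.mul_right hpc s)).mp hs.2
        exact hp.one_lt.ne' (Nat.dvd_one.mp this)
      have h1 : 1 + c * s ≡ 1 + c * s' [MOD p] :=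
        ((Nat.modEq_zero_iff_dvd).mpr hs.2).trans ((Nat.modEq_zero_iff_dvd).mpr hs'.2).symm
      have h2 : c * s ≡ c * s' [MOD p] := Nat.ModEq.add_left_cancel' 1 h1
      have h3 : s ≡ s' [MOD p] := Nat.ModEq.cancel_left_of_coprime hc h2
      have e1 := Nat.div_add_mod s p
      have e2 := Nat.div_add_mod s' p
      have h4 : s % p = s' % p := h3
      have h5 : s / p = s' / p := h
      rw [← e1, ← e2, h4, h5]
  rw [Finset.card_range] at hinj
  have h2 : ((S / p : ℕ) : ℝ) ≤ (S : ℝ) / p := Nat.cast_div_le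
  have h3 : (((Finset.Icc 1 S).filter (fun s => p ∣ 1 + c * s)).card : ℝ) ≤ ((S / p + 1 : ℕ) : ℝ) := by
    exact_mod_cast hinj
  push_cast at h3
  linarith

lemma two_pow_card_primeFactors_le (n : ℕ) (hn : n ≠ 0) : 2 ^ n.primeFactors.card ≤ n := by
  have h1 : ∏ p ∈ n.primeFactors, p ≤ n := Nat.le_of_dvd (Nat.pos_of_ne_zero hn) (Nat.prod_primeFactors_dvd n)
  have h2 : 2 ^ n.primeFactors.card ≤ ∏ p ∈ n.primeFactors, p := by
    apply Finset.pow_card_le_prod
    intro p hp
    exact (Nat.prime_of_mem_primeFactors hp).two_le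
  exact h2.trans h1

lemma exists_good_s (k Y : ℕ) (hY : 1 ≤ Y) (c : ℕ → ℕ) :
    ∃ s ∈ Finset.Icc 1 Y,
      ((((Finset.Icc 1 Y).filter (fun p => p.Prime ∧ ∃ a ∈ Finset.Icc 1 k, p ∣ 1 + c a * s)).card : ℕ) : ℝ)
        ≤ k * (2 + Real.log Y) := by
  classical
  have hsum : ∑ s ∈ Finset.Icc 1 Y,
      ((((Finset.Icc 1 Y).filter (fun p => p.Prime ∧ ∃ a ∈ Finset.Icc 1 k, p ∣ 1 + c a * s)).card : ℕ) : ℝ)
      ≤ ∑ s ∈ Finset.Icc 1 Y, (k * (2 + Real.log Y) : ℝ) := by
    have step1 : ∀ s, ((((Finset.Icc 1 Y).filter (fun p => p.Prime ∧ ∃ a ∈ Finset.Icc 1 k, p ∣ 1 + c a * s)).card : ℕ) : ℝ)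
        ≤ ∑ a ∈ Finset.Icc 1 k, ∑ p ∈ (Finset.Icc 1 Y).filter Nat.Prime, (if p ∣ 1 + c a * s then (1:ℝ) else 0) := by
      intro s
      rw [Finset.sum_comm]
      rw [Finset.card_eq_sum_ones, Nat.cast_sum, Finset.sum_filter, Finset.sum_filter]
      apply Finset.sum_le_sum
      intro p _
      by_cases h : p.Prime ∧ ∃ a ∈ Finset.Icc 1 k, p ∣ 1 + c a * s
      · rw [if_pos h, if_pos h.1]
        obtain ⟨_, a, ha, hd⟩ := h
        have := Finset.single_le_sum (f := fun a => if p ∣ 1 + c a * s then (1:ℝ) else 0)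
          (fun i _ => by positivity) ha
        simpa [hd] using this
      · rw [if_neg h]
        split_ifs
        · positivity
        · exact le_rfl
    calc _ ≤ ∑ s ∈ Finset.Icc 1 Y, ∑ a ∈ Finset.Icc 1 k, ∑ p ∈ (Finset.Icc 1 Y).filter Nat.Prime, (if p ∣ 1 + c a * s then (1:ℝ) else 0) :=
          Finset.sum_le_sum (fun s _ => step1 s)
      _ = ∑ a ∈ Finset.Icc 1 k, ∑ p ∈ (Finset.Icc 1 Y).filter Nat.Prime, ∑ s ∈ Finset.Icc 1 Y, (if p ∣ 1 + c a * s then (1:ℝ) else 0) := by
          rw [Finset.sum_comm]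
          apply Finset.sum_congr rfl
          intro a _
          rw [Finset.sum_comm]
      _ ≤ ∑ a ∈ Finset.Icc 1 k, ∑ p ∈ (Finset.Icc 1 Y).filter Nat.Prime, ((Y:ℝ) / p + 1) := by
          apply Finset.sum_le_sum
          intro a _
          apply Finset.sum_le_sum
          intro p hp
          have := count_res p (c a) Y (Finset.mem_filter.mp hp).2
          rw [Finset.sum_boole]
          exact this
      _ ≤ ∑ a ∈ Finset.Icc 1 k, ∑ p ∈ (Finset.Icc 1 Y), ((Y:ℝ) / p + 1) := by
          apply Finset.sum_le_sum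
          intro a _
          apply Finset.sum_le_sum_of_subset_of_nonneg (Finset.filter_subset _ _)
          intro i _ _
          positivity
      _ ≤ ∑ a ∈ Finset.Icc 1 k, (Y * (2 + Real.log Y) : ℝ) := by
          apply Finset.sum_le_sum
          intro a _
          have hh := harmonic_le_one_add_log Y
          rw [harmonic_eq_sum_Icc] at hh
          push_cast at hh
          rw [Finset.sum_add_distrib]
          simp only [div_eq_mul_inv, ← Finset.mul_sum]
          simp only [Finset.sum_const, Nat.card_Icc, Nat.add_sub_cancel, nsmul_eq_mul, mul_one]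
          have hY0 : (0:ℝ) ≤ Y := by positivity
          nlinarith [mul_le_mul_of_nonneg_left hh hY0]
      _ = ∑ s ∈ Finset.Icc 1 Y, (k * (2 + Real.log Y) : ℝ) := by
          simp only [Finset.sum_const, Nat.card_Icc, Nat.add_sub_cancel, nsmul_eq_mul]
          ring
  exact Finset.exists_le_of_sum_le ⟨1, by simp [hY]⟩ hsum

lemma exists_block (k : ℕ) : ∃ (t : ℕ) (E : Finset ℕ), 1 ≤ t ∧
    (∀ a, 1 ≤ a → a ≤ k → ∃ u, a + t = a * u ∧ ∀ p, p.Prime → p ∣ u → p ∈ E) ∧
    (∀ p ∈ E, p.Prime ∧ k < p) ∧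
    ∀ y : ℕ, ((E.filter (fun p => p ≤ y)).card : ℝ) ≤ Real.sqrt y / 2 ^ k := by
  classical
  obtain ⟨w, hw⟩ : ∃ w : ℕ, w = 26 * (k + 1) * 2 ^ k := ⟨_, rfl⟩
  have h2k : 1 ≤ 2 ^ k := Nat.one_le_two_pow
  have hwk : 26 * (k + 1) ≤ w := by rw [hw]; exact Nat.le_mul_of_pos_right _ h2k
  have hw1 : 1 ≤ w := by omega
  obtain ⟨x, hx⟩ : ∃ x : ℕ, x = w ^ 4 := ⟨_, rfl⟩
  have hwx : w ≤ x := by rw [hx]; exact Nat.le_self_pow (by norm_num) w
  have hx1 : 1 ≤ x := by omega
  have hkx : k ≤ x := by omega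
  obtain ⟨Y, hY⟩ : ∃ Y : ℕ, Y = x ^ 6 := ⟨_, rfl⟩
  have hY1 : 1 ≤ Y := by rw [hY]; exact Nat.one_le_pow _ _ hx1
  obtain ⟨s, hs, hgood⟩ := exists_good_s k Y hY1 (fun a => x.factorial / a * x.factorial)
  rw [Finset.mem_Icc] at hs
  let E : Finset ℕ := (Finset.Icc 1 k).biUnion
    (fun a => (1 + x.factorial / a * x.factorial * s).primeFactors)
  have hE : ∀ p ∈ E, p.Prime ∧ x < p ∧ ∃ a ∈ Finset.Icc 1 k, p ∣ 1 + x.factorial / a * x.factorial * s := by
    intro p hp
    obtain ⟨a, ha, hpa⟩ := Finset.mem_biUnion.mp hp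
    have hpp := Nat.prime_of_mem_primeFactors hpa
    have hd := Nat.dvd_of_mem_primeFactors hpa
    refine ⟨hpp, ?_, a, ha, hd⟩
    by_contra hle
    push Not at hle
    have h1 : p ∣ x.factorial := (Nat.Prime.dvd_factorial hpp).mpr hle
    have h2 : p ∣ x.factorial / a * x.factorial * s := Dvd.dvd.mul_right (Dvd.dvd.mul_left h1 _) _
    have : p ∣ 1 := (Nat.dvd_add_left h2).mp hd
    exact hpp.one_lt.ne' (Nat.dvd_one.mp this)
  refine ⟨x.factorial * x.factorial * s, E, ?_, ?_, ?_, ?_⟩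
  · have := Nat.factorial_pos x
    exact Nat.mul_pos (Nat.mul_pos this this) hs.1
  · intro a ha1 hak
    refine ⟨1 + x.factorial / a * x.factorial * s, ?_, ?_⟩
    · have hd : a ∣ x.factorial := Nat.dvd_factorial ha1 (hak.trans hkx)
      have := Nat.mul_div_cancel' hd
      calc a + x.factorial * x.factorial * s = a + (a * (x.factorial / a)) * x.factorial * s := by rw [this]
        _ = _ := by ring
    · intro p hp hd
      apply Finset.mem_biUnion.mpr
      refine ⟨a, Finset.mem_Icc.mpr ⟨ha1, hak⟩, ?_⟩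
      exact Nat.mem_primeFactors.mpr ⟨hp, hd, by omega⟩
  · intro p hp
    obtain ⟨h1, h2, _⟩ := hE p hp
    exact ⟨h1, by omega⟩
  · intro y
    have h2kr : (0:ℝ) < 2 ^ k := by positivity
    rcases le_or_gt y x with hyx | hyx
    · have : E.filter (fun p => p ≤ y) = ∅ := by
        apply Finset.filter_eq_empty_iff.mpr
        intro p hp
        have := (hE p hp).2.1
        omega
      rw [this]
      simp only [Finset.card_empty, Nat.cast_zero]
      positivity
    rcases le_or_gt y Y with hyY | hyY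
    · have hsub : E.filter (fun p => p ≤ y) ⊆ (Finset.Icc 1 Y).filter
          (fun p => p.Prime ∧ ∃ a ∈ Finset.Icc 1 k, p ∣ 1 + x.factorial / a * x.factorial * s) := by
        intro p hp
        rw [Finset.mem_filter] at hp ⊢
        obtain ⟨h1, h2, h3⟩ := hE p hp.1
        exact ⟨Finset.mem_Icc.mpr ⟨by omega, by omega⟩, h1, h3⟩
      have h1 : ((E.filter (fun p => p ≤ y)).card : ℝ) ≤ k * (2 + Real.log Y) :=
        le_trans (by exact_mod_cast Finset.card_le_card hsub) hgood
      have hlog : Real.log Y ≤ 24 * w := by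
        rw [hY, hx]
        push_cast
        rw [← pow_mul, Real.log_pow]
        have : Real.log w ≤ w := by
          have := Real.log_le_sub_one_of_pos (x := (w:ℝ)) (by exact_mod_cast hw1)
          linarith
        push_cast
        linarith
      have hsq : (w:ℝ) ^ 2 ≤ Real.sqrt y := by
        apply Real.le_sqrt_of_sq_le
        have : (x:ℝ) ≤ y := by exact_mod_cast hyx.le
        rw [hx] at this
        push_cast at this
        calc ((w:ℝ)^2)^2 = w ^ 4 := by ring
          _ ≤ _ := this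
      rw [le_div_iff₀ h2kr]
      have hwr : (w:ℝ) = 26 * (k + 1) * 2 ^ k := by rw [hw]; push_cast; ring
      have hw1r : (1:ℝ) ≤ w := by exact_mod_cast hw1
      have hk0 : (0:ℝ) ≤ k := by positivity
      have h3 : (k:ℝ) * (2 + Real.log Y) ≤ (k+1) * (26 * w) := by
        have : (k:ℝ) * (2 + Real.log Y) ≤ k * (26 * w) := by
          apply mul_le_mul_of_nonneg_left _ hk0
          linarith
        nlinarith
      calc _ ≤ (k+1) * (26 * w) * (2:ℝ) ^ k := mul_le_mul_of_nonneg_right (h1.trans h3) h2kr.le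
        _ = (26 * (k + 1) * 2 ^ k) * w := by ring
        _ = w ^ 2 := by rw [← hwr]; ring
        _ ≤ _ := hsq
    · have hcard : ∀ a ∈ Finset.Icc 1 k,
          (1 + x.factorial / a * x.factorial * s).primeFactors.card ≤ 9 * x ^ 2 := by
        intro a _
        have h1 := two_pow_card_primeFactors_le (1 + x.factorial / a * x.factorial * s) (by omega)
        have hx2 : x ≤ 2 ^ x := Nat.lt_two_pow_self.le
        have hf : x.factorial ≤ 2 ^ (x * x) := by
          calc x.factorial ≤ x ^ x := Nat.factorial_le_pow x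
            _ ≤ (2 ^ x) ^ x := Nat.pow_le_pow_left hx2 x
            _ = _ := by rw [← pow_mul]
        have hs2 : s ≤ 2 ^ (x * 6) := by
          calc s ≤ Y := hs.2
            _ = x ^ 6 := hY
            _ ≤ (2 ^ x) ^ 6 := Nat.pow_le_pow_left hx2 6
            _ = _ := by rw [← pow_mul]
        have hd : x.factorial / a ≤ 2 ^ (x * x) := (Nat.div_le_self _ _).trans hf
        have h3 : x.factorial / a * x.factorial * s ≤ 2 ^ (x * x) * 2 ^ (x * x) * 2 ^ (x * 6) :=
          Nat.mul_le_mul (Nat.mul_le_mul hd hf) hs2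
        rw [← pow_add, ← pow_add] at h3
        have h4 : 1 + x.factorial / a * x.factorial * s ≤ 2 ^ (x * x + x * x + x * 6 + 1) := by
          have : 1 ≤ 2 ^ (x * x + x * x + x * 6) := Nat.one_le_two_pow
          rw [pow_succ]; omega
        have h5 := (Nat.pow_le_pow_iff_right (by norm_num : 1 < 2)).mp (h1.trans h4)
        nlinarith
      have h1 : E.card ≤ k * (9 * x ^ 2) := by
        have := Finset.card_biUnion_le_card_mul (Finset.Icc 1 k) _ _ hcard
        simpa using this
      have h2 : (E.filter (fun p => p ≤ y)).card ≤ k * (9 * x ^ 2) :=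
        (Finset.card_filter_le _ _).trans h1
      have hsq : (x:ℝ) ^ 3 ≤ Real.sqrt y := by
        apply Real.le_sqrt_of_sq_le
        have : (Y:ℝ) ≤ y := by exact_mod_cast hyY.le
        rw [hY] at this
        push_cast at this
        calc ((x:ℝ)^3)^2 = x ^ 6 := by ring
          _ ≤ _ := this
      rw [le_div_iff₀ h2kr]
      have h3 : (E.filter (fun p => p ≤ y)).card * 2 ^ k ≤ x ^ 3 := by
        calc _ ≤ k * (9 * x ^ 2) * 2 ^ k := Nat.mul_le_mul_right _ h2
          _ = (9 * k * 2 ^ k) * x ^ 2 := by ring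
          _ ≤ x * x ^ 2 := by
            apply Nat.mul_le_mul_right
            refine le_trans ?_ hwx
            rw [hw]
            apply Nat.mul_le_mul_right
            omega
          _ = x ^ 3 := by ring
      have h4 : ((E.filter (fun p => p ≤ y)).card : ℝ) * 2 ^ k ≤ (x:ℝ) ^ 3 := by exact_mod_cast h3
      exact h4.trans hsq

lemma half_count (r : ℕ) (hr : r < 2) (y : ℕ) :
    Nat.primeCounting y / 2 ≤
      ({p : ℕ | p.Prime ∧ Nat.count Nat.Prime p % 2 = r} ∩ Set.Iic y).ncard := by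
  have hfin : ({p : ℕ | p.Prime ∧ Nat.count Nat.Prime p % 2 = r} ∩ Set.Iic y).Finite :=
    (Set.finite_Iic y).subset Set.inter_subset_right
  have h1 : (Set.Iio (Nat.primeCounting y / 2)).ncard = Nat.primeCounting y / 2 := by
    rw [← Finset.coe_range, Set.ncard_coe_finset, Finset.card_range]
  rw [← h1]
  apply Set.ncard_le_ncard_of_injOn (fun i => Nat.nth Nat.Prime (2 * i + r)) _ _ hfin
  · intro i hi
    simp only [Set.mem_Iio] at hi
    refine ⟨⟨Nat.prime_nth_prime _, ?_⟩, ?_⟩
    · rw [Nat.count_nth_of_infinite Nat.infinite_setOf_prime]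
      omega
    · have : 2 * i + r < Nat.count Nat.Prime (y + 1) := by
        have : Nat.primeCounting y = Nat.count Nat.Prime (y + 1) := rfl
        omega
      have := Nat.nth_lt_of_lt_count this
      simp only [Set.mem_Iic]
      omega
  · intro i _ j _ h
    have := Nat.nth_injective Nat.infinite_setOf_prime h
    omega

lemma final_bound (f : ℕ → ℝ)
    (hf : ∀ y : ℕ, ((Nat.primeCounting y / 2 : ℕ) : ℝ) - 2 * Real.sqrt y ≤ f y) :
    (fun x : ℕ ↦ (x : ℝ) / Real.log x) =O[atTop] f := by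
  have h1 : ∀ᶠ x : ℝ in atTop, ‖Real.log x‖ ≤ (1/20) * ‖x ^ (1/2 : ℝ)‖ :=
    (isLittleO_log_rpow_atTop (r := 1/2) (by norm_num)).bound (by norm_num)
  have h2 := tendsto_natCast_atTop_atTop (R := ℝ) |>.eventually h1
  apply IsBigO.of_bound 10
  filter_upwards [h2, eventually_ge_atTop 3] with x hx hx3
  have hxr : (3:ℝ) ≤ x := by exact_mod_cast hx3
  have hl : 1 ≤ Real.log x := by
    rw [Real.le_log_iff_exp_le (by linarith)]
    have := Real.exp_one_lt_d9
    linarith
  have hl0 : 0 < Real.log x := by linarith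
  rw [← Real.sqrt_eq_rpow, Real.norm_of_nonneg hl0.le, Real.norm_of_nonneg (Real.sqrt_nonneg _)] at hx
  have hpi := Chebyshev.pi_ge x
  have hl2 : Real.log (x + 1) ≤ 2 * Real.log x := by
    have : Real.log (x + 1) ≤ Real.log ((x:ℝ) ^ 2) := by
      apply Real.log_le_log (by linarith)
      nlinarith
    rw [Real.log_pow] at this
    simpa using this
  have hdiv : (Nat.primeCounting x : ℝ) / 2 - 1 ≤ ((Nat.primeCounting x / 2 : ℕ) : ℝ) := by
    have : Nat.primeCounting x ≤ 2 * (Nat.primeCounting x / 2) + 2 := by omega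
    have : (Nat.primeCounting x : ℝ) ≤ 2 * ((Nat.primeCounting x / 2 : ℕ) : ℝ) + 2 := by exact_mod_cast this
    linarith
  have hs1 : 1 ≤ Real.sqrt x := Real.one_le_sqrt.mpr (by linarith)
  have hss : Real.sqrt x * Real.sqrt x = x := Real.mul_self_sqrt (by linarith)
  have hlog2 := Real.log_two_gt_d9
  have key : (x:ℝ) / Real.log x ≤ 10 * f x := by
    have e1 : (x * Real.log 2 - Real.log (x + 1)) ≤ Nat.primeCounting x * Real.log x := by
      rwa [div_le_iff₀ hl0] at hpi
    rw [div_le_iff₀ hl0]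
    have e2 : (Nat.primeCounting x : ℝ) / 2 - 1 - 2 * Real.sqrt x ≤ f x := by linarith [hf x]
    have e3 := mul_le_mul_of_nonneg_right e2 hl0.le
    have e4 : Real.sqrt x * Real.log x ≤ (1/20) * x := by nlinarith
    have e5 : Real.log x ≤ Real.sqrt x * Real.log x := by nlinarith
    have e6 : (x:ℝ) * 0.6931471803 ≤ x * Real.log 2 := by
      apply mul_le_mul_of_nonneg_left hlog2.le (by linarith)
    nlinarith
  rw [Real.norm_of_nonneg (by positivity)]
  exact key.trans (by gcongr; exact le_abs_self _)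

theorem result :
    ∃ P : Set ℕ, P ⊆ {p : ℕ | p.Prime} ∧ (fun x : ℕ ↦ (x : ℝ) / Real.log x) =O[atTop] (fun x ↦ ((P ∩ Set.Iic x).ncard : ℝ)) ∧ (fun x : ℕ ↦ (x : ℝ) / Real.log x) =O[atTop] (fun x ↦ ((({p : ℕ | p.Prime} \ P) ∩ Set.Iic x).ncard : ℝ)) ∧ HasTranslationProperty (composedOf P) := by
  classical
  choose t E ht hu hE hsp using exists_block
  let U : Set ℕ := ⋃ k, (E k : Set ℕ)
  have hU : ∀ y : ℕ, ((U ∩ Set.Iic y).ncard : ℝ) ≤ 2 * Real.sqrt y := by
    intro y
    have hsub : U ∩ Set.Iic y ⊆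
        (((Finset.range y).biUnion (fun k => (E k).filter (fun p => p ≤ y)) : Finset ℕ) : Set ℕ) := by
      rintro p ⟨hp, hpy⟩
      obtain ⟨k, hk⟩ := Set.mem_iUnion.mp hp
      simp only [Set.mem_Iic] at hpy
      have := (hE k p hk).2
      simp only [Finset.coe_biUnion, Finset.coe_range, Set.mem_Iio, Finset.coe_filter,
        Set.mem_iUnion, Set.mem_setOf_eq]
      exact ⟨k, by omega, hk, hpy⟩
    have h1 := Set.ncard_le_ncard hsub (Finset.finite_toSet _)
    rw [Set.ncard_coe_finset] at h1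
    have h2 := h1.trans Finset.card_biUnion_le
    have h3 : ((U ∩ Set.Iic y).ncard : ℝ) ≤
        ∑ k ∈ Finset.range y, (((E k).filter (fun p => p ≤ y)).card : ℝ) := by exact_mod_cast h2
    have h4 : ∑ k ∈ Finset.range y, (((E k).filter (fun p => p ≤ y)).card : ℝ) ≤
        ∑ k ∈ Finset.range y, Real.sqrt y * (1 / 2) ^ k := by
      apply Finset.sum_le_sum
      intro k _
      have := hsp k y
      rw [one_div, inv_pow, ← div_eq_mul_inv]
      exact this
    rw [← Finset.mul_sum] at h4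
    have h5 := sum_geometric_two_le y
    have h6 := mul_le_mul_of_nonneg_left h5 (Real.sqrt_nonneg y)
    linarith
  refine ⟨{p : ℕ | p.Prime ∧ Nat.count Nat.Prime p % 2 = 0} ∪ U, ?_, ?_, ?_, ?_⟩
  · rintro p (hp | hp)
    · exact hp.1
    · obtain ⟨k, hk⟩ := Set.mem_iUnion.mp hp
      exact (hE k p hk).1
  · apply final_bound
    intro y
    have h1 := half_count 0 (by norm_num) y
    have h2 : ({p : ℕ | p.Prime ∧ Nat.count Nat.Prime p % 2 = 0} ∩ Set.Iic y).ncard ≤
        (({p : ℕ | p.Prime ∧ Nat.count Nat.Prime p % 2 = 0} ∪ U) ∩ Set.Iic y).ncard := by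
      apply Set.ncard_le_ncard _ ((Set.finite_Iic y).subset Set.inter_subset_right)
      exact Set.inter_subset_inter_left _ Set.subset_union_left
    have h3 : ((Nat.primeCounting y / 2 : ℕ) : ℝ) ≤
      ((({p : ℕ | p.Prime ∧ Nat.count Nat.Prime p % 2 = 0} ∪ U) ∩ Set.Iic y).ncard : ℝ) := by
      exact_mod_cast h1.trans h2
    have := Real.sqrt_nonneg y
    linarith
  · apply final_bound
    intro y
    have h1 := half_count 1 (by norm_num) y
    have h2 : ({p : ℕ | p.Prime ∧ Nat.count Nat.Prime p % 2 = 1} ∩ Set.Iic y).ncard ≤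
        ((({p : ℕ | p.Prime} \ ({p : ℕ | p.Prime ∧ Nat.count Nat.Prime p % 2 = 0} ∪ U)) ∩ Set.Iic y)
          ∪ (U ∩ Set.Iic y)).ncard := by
      apply Set.ncard_le_ncard _ (((Set.finite_Iic y).subset Set.inter_subset_right).union
        ((Set.finite_Iic y).subset Set.inter_subset_right))
      rintro p ⟨⟨hp, hc⟩, hy⟩
      by_cases hpU : p ∈ U
      · exact Or.inr ⟨hpU, hy⟩
      · refine Or.inl ⟨⟨hp, ?_⟩, hy⟩
        rintro (h | h)
        · have := h.2
          omega
        · exact hpU h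
    have h3 := (h1.trans h2).trans (Set.ncard_union_le _ _)
    have h4 : ((Nat.primeCounting y / 2 : ℕ) : ℝ) ≤
      ((({p : ℕ | p.Prime} \ ({p : ℕ | p.Prime ∧ Nat.count Nat.Prime p % 2 = 0} ∪ U)) ∩ Set.Iic y).ncard : ℝ)
        + ((U ∩ Set.Iic y).ncard : ℝ) := by
      exact_mod_cast h3
    have := hU y
    linarith
  · intro n
    refine ⟨t n, ht n, ?_⟩
    intro a ha1 han
    obtain ⟨u, hau, hup⟩ := hu n a ha1 han
    constructor
    · rintro ⟨_, h⟩
      refine ⟨by omega, ?_⟩
      intro p hp hd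
      rw [hau] at hd
      rcases (Nat.Prime.dvd_mul hp).mp hd with h1 | h1
      · exact h p hp h1
      · exact Or.inr (Set.mem_iUnion.mpr ⟨n, hup p hp h1⟩)
    · rintro ⟨_, h⟩
      refine ⟨by omega, ?_⟩
      intro p hp hd
      apply h p hp
      rw [hau]
      exact Dvd.dvd.mul_right hd _

end Pool.Agent.S16227
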