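import Pool.Statements.S16290
import Pool.Agent.H.MP_219c9f_nt.A

set_option autoImplicit false
open Filter Topology
open scoped Classical
open Pool Pool.MP_219c9f_nt

namespace Pool.Agent.S16290

open Pool.Agent.Lib.helper9 Pool.Agent.H.MP_219c9f_nt

theorem result :
    ¬ (∀ x : ℝ,
      (∀ k : ℕ, 1 ≤ k →
        Tendsto
          (fun n : ℕ =>
            (((Finset.range n).filter
                (fun i => (GenContFract.of x).partDens.get? i = some (k : ℝ))).card : ℝ) / (n : ℝ))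
          atTop (𝓝 (Real.logb 2 (1 + 1 / ((k : ℝ) * ((k : ℝ) + 2)))))) →
      ∀ q r : ℚ, q ≠ 0 →
        (∀ k : ℕ, 1 ≤ k →
          Tendsto
            (fun n : ℕ =>
              (((Finset.range n).filter
                  (fun i => (GenContFract.of ((q : ℝ) * x + (r : ℝ))).partDens.get? i
                    = some (k : ℝ))).card : ℝ) / (n : ℝ))
            atTop (𝓝 (Real.logb 2 (1 + 1 / ((k : ℝ) * ((k : ℝ) + 2))))))) := by
  intro h
  obtain ⟨ω, hω⟩ := dig_freq
  obtain ⟨z, hz⟩ := exists_cf (dig ω) (dig_pos ω)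
  have hs : Start ω 0 := by unfold Start; split_ifs <;> rfl
  have h5 := h (((0 : ℤ) : ℝ) + (z 0)⁻¹) (by
    intro k hk
    have := hω k hk
    simp only [partDen_of_seq (dig ω) _ z 0 0 hz, zero_add, Option.some.injEq, Nat.cast_inj]
    exact this) 2 0 (by norm_num) 5 (by norm_num)
  have hz2 : 1 < z 0 / 2 := by
    have h1 : (2 : ℝ) ≤ dig ω 0 := by exact_mod_cast start_ge ω 0 hs
    have h2 : 0 < (z (0 + 1))⁻¹ := inv_pos.2 (lt_trans zero_lt_one (hz _).1)
    linarith [(hz 0).2]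
  have hst := cq_step (w := ((2 : ℚ) : ℝ) * (((0 : ℤ) : ℝ) + (z 0)⁻¹) + ((0 : ℚ) : ℝ)) (c := 0) hz2
    (by push_cast; field_simp; ring)
  have he : ∀ n : ℕ, ((Finset.range n).filter fun i =>
      (GenContFract.of (((2 : ℚ) : ℝ) * (((0 : ℤ) : ℝ) + (z 0)⁻¹) + ((0 : ℚ) : ℝ))).partDens.get? i
        = some ((5 : ℕ) : ℝ)) = ∅ := by
    intro n
    rw [Finset.filter_eq_empty_iff]
    intro i _ hi
    have h1 := partDen_cq i _ _ hi
    rw [cq_succ, hst.2.2] at h1
    apply no_five ω z hz i 0 hs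
    exact_mod_cast h1.symm
  simp only [he, Finset.card_empty, Nat.cast_zero, zero_div] at h5
  have h6 := tendsto_nhds_unique h5 tendsto_const_nhds
  have h7 : 0 < Real.logb 2 (1 + 1 / (((5 : ℕ) : ℝ) * (((5 : ℕ) : ℝ) + 2))) :=
    Real.logb_pos (by norm_num) (by norm_num)
  linarith

end Pool.Agent.S16290
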