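import Pool.Statements.S16301
import Pool.Agent.H.MP_22cd7c_nt.B
import Pool.Agent.H.MP_22cd7c_nt.G

set_option autoImplicit false
open Pool Pool.MP_22cd7c_nt

namespace Pool.Agent.S16301

theorem result :
    ∀ ε : ℝ, 0 < ε → ∃ N₀ : ℕ, ∀ N : ℕ, N₀ ≤ N →
      ∀ A : Finset ℕ, A ⊆ Finset.Icc 1 N → ε * (N : ℝ) ≤ (A.card : ℝ) →
        ∃ a ∈ A, ∃ b ∈ A, ∃ c ∈ A, a ≠ b ∧ b ≠ c ∧ a ≠ c ∧
          Nat.lcm a b = Nat.lcm b c ∧ Nat.lcm a b = Nat.lcm a c := by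
  intro ε hε
  obtain ⟨N₀, h⟩ := Pool.Agent.H.MP_22cd7c_nt.final (fun κ h1 h2 β hβ Y => by
    obtain ⟨c, c0, c1, hc⟩ := Pool.Agent.H.MP_22cd7c_nt.many (Real.log_pos h1)
      ((Real.log_le_sub_one_of_pos (by linarith)).trans (by linarith))
    rw [Real.exp_log (by linarith)] at hc
    exact Pool.Agent.H.MP_22cd7c_nt.small c0 c1 hc hβ Y) ε hε
  exact ⟨N₀, fun N hN A hA hc => not_not.mp (h N hN A hA hc)⟩

end Pool.Agent.S16301
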