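import Pool.Statements.S16388
import Pool.Agent.H.MP_2ab887_nt.A
import Pool.Agent.H.MP_2ab887_nt.B

set_option autoImplicit false
open Filter Topology
open Pool Pool.MP_2ab887_nt

namespace Pool.Agent.S16388

theorem result :
    ¬ (∀ (k K : Type) [Field k] [IsAlgClosed k] [Field K] [Algebra (RatFunc k) K],
      FunctionField k K →
      ∀ (N d : ℕ), 2 ≤ d →
      ∀ F : Fin (N + 1) → MvPolynomial (Fin (N + 1)) K,
        (∀ i, (F i).IsHomogeneous d) →
        (∀ y : Fin (N + 1) → AlgebraicClosure K,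
            (∀ i, MvPolynomial.aeval y (F i) = 0) → y = 0) →
        ∀ x : Fin (N + 1) → K, x ≠ 0 →
          ∃ q : ℚ,
            Tendsto
              (fun n : ℕ =>
                (∑ᶠ v : {v : Valuation K (WithZero (Multiplicative ℤ)) //
                      Function.Surjective v ∧
                        ∀ c : k, c ≠ 0 → v (algebraMap (RatFunc k) K (RatFunc.C c)) = 1},
                    ((sInf {m : ℤ | ∀ i,
                        v.1 (((fun (z : Fin (N + 1) → K) (j : Fin (N + 1)) =>
                                MvPolynomial.eval z (F j))^[n] x) i)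
                          ≤ WithZero.coe (Multiplicative.ofAdd m)} : ℤ) : ℝ))
                  / (d : ℝ) ^ n)
              atTop (𝓝 (q : ℝ))) := by
  intro HH0
  obtain ⟨p, hg, hp⟩ := H.MP_2ab887_nt.exists_orbit
  obtain ⟨L, hL, hI⟩ := H.MP_2ab887_nt.irr (fun n => (p n).1.natDegree)
    (fun n => H.MP_2ab887_nt.sg (p n)) (fun n => H.MP_2ab887_nt.sg_cases _) (fun n => (hp n).2.2)
    (H.MP_2ab887_nt.not_periodic p hg hp)
  let k := AlgebraicClosure (ZMod 2)
  let φ : ZMod 2 →+* k := algebraMap _ _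
  let ψ : Polynomial (ZMod 2) →+* RatFunc k :=
    (algebraMap (Polynomial k) (RatFunc k)).comp (Polynomial.mapRingHom φ)
  have hφ : Function.Injective φ := φ.injective
  have ht : ψ Polynomial.X = RatFunc.X := by simp [ψ]
  have hy0 : ∀ n, (p n).2 ≠ 0 := by
    intro n h0; have := (hg n).1; rw [h0] at this; simp at this
  let t : MvPolynomial (Fin 2) (RatFunc k) := MvPolynomial.C RatFunc.X
  let x : MvPolynomial (Fin 2) (RatFunc k) := MvPolynomial.X 0
  let y : MvPolynomial (Fin 2) (RatFunc k) := MvPolynomial.X 1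
  let F : Fin 2 → MvPolynomial (Fin 2) (RatFunc k) :=
    ![x * (x - y) * ((x - y) ^ 2 + t * y ^ 2) + t ^ 2 * y ^ 4, t * ((x - y) ^ 2 + t * y ^ 2) * y ^ 2]
  have hx : x.IsHomogeneous 1 := MvPolynomial.isHomogeneous_X _ _
  have hy : y.IsHomogeneous 1 := MvPolynomial.isHomogeneous_X _ _
  have ht' : t.IsHomogeneous 0 := MvPolynomial.isHomogeneous_C _ _
  have hH : ((x - y) ^ 2 + t * y ^ 2).IsHomogeneous 2 :=
    ((hx.sub hy).pow 2).add (ht'.mul (hy.pow 2))
  obtain ⟨q, hq⟩ := HH0 k (RatFunc k) inferInstance 1 4 (by norm_num) F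
    (Fin.forall_fin_two.2 ⟨((hx.mul (hx.sub hy)).mul hH).add ((ht'.pow 2).mul (hy.pow 4)),
      (ht'.mul hH).mul (hy.pow 2)⟩) (fun z hz => by
      have h0 := hz 0
      have h1 := hz 1
      have t0 : algebraMap (RatFunc k) (AlgebraicClosure (RatFunc k)) RatFunc.X ≠ 0 :=
        (map_ne_zero _).2 RatFunc.X_ne_zero
      simp only [F, x, y, t, Matrix.cons_val_zero, Matrix.cons_val_one, map_mul, map_add, map_sub,
        map_pow, MvPolynomial.aeval_X, MvPolynomial.aeval_C] at h0 h1
      have e1 : z 1 = 0 := by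
        by_contra c
        rw [(mul_eq_zero.1 ((mul_eq_zero.1 h1).resolve_right (pow_ne_zero _ c))).resolve_left t0]
          at h0
        simp [t0, c] at h0
      have e0 : z 0 = 0 := by simpa [e1] using h0
      ext i
      fin_cases i
      exacts [e0, e1])
    ![ψ (p 0).1, ψ (p 0).2] (fun h => hy0 0 (by
      have := congrFun h 1
      simpa [ψ, Polynomial.map_eq_zero_iff hφ] using this))
  have key : ∀ n, ∃ e : ℕ, (fun (z : Fin 2 → RatFunc k) (j : Fin 2) =>
      MvPolynomial.eval z (F j))^[n] ![ψ (p 0).1, ψ (p 0).2]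
      = ![RatFunc.X ^ e * ψ (p n).1, RatFunc.X ^ e * ψ (p n).2] := by
    intro n
    induction n with
    | zero => exact ⟨0, by simp⟩
    | succ n ih =>
      obtain ⟨e, he⟩ := ih
      obtain ⟨e1, e2, -⟩ := hp n
      have f1 := congrArg ψ e1
      have f2 := congrArg ψ e2
      simp only [H.MP_2ab887_nt.FF, H.MP_2ab887_nt.GG, H.MP_2ab887_nt.HH, map_mul, map_add,
        map_sub, map_pow, ht] at f1 f2
      refine ⟨4 * e + H.MP_2ab887_nt.sg (p n), ?_⟩
      rw [Function.iterate_succ_apply', he]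
      ext i
      fin_cases i
      · simp [F, x, y, t]
        rw [pow_add, mul_assoc (RatFunc.X ^ (4 * e)), f1]
        ring
      · simp [F, x, y, t]
        rw [pow_add, mul_assoc (RatFunc.X ^ (4 * e)), f2]
        ring
  refine hI ⟨q, tendsto_nhds_unique hq (hL.congr fun n => ?_)⟩
  obtain ⟨e, he⟩ := key n
  rw [he, H.MP_2ab887_nt.height ((p n).1.map φ) ((p n).2.map φ)
    ((hg n).2.1.map (Polynomial.mapRingHom φ)) ((Polynomial.map_ne_zero_iff hφ).2 (hy0 n))
    (by simpa [Polynomial.natDegree_map_eq_of_injective hφ] using (hg n).2.2) e _ rfl rfl,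
    Polynomial.natDegree_map_eq_of_injective hφ]
  norm_num

end Pool.Agent.S16388
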