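import Pool.Statements.S16463

set_option autoImplicit false
open Pool Pool.MP_2fa2bc_nt
open Polynomial

namespace Pool.Agent.S16463

/-- interval search: `t` lies in `[l/w, u/w]`, remaining budget `B`. -/
def chk : ℕ → ℕ → ℤ → ℤ → ℤ → Bool
  | 0, _, _, _, _ => false
  | fuel + 1, B, l, u, w =>
    if 0 < l then
      (decide ((B : ℤ) * w * 100000000 < l * 152302291) ||
        (List.range (2 * B + 1)).all fun j =>
          chk fuel (B - ((j : ℤ) - B).natAbs) (l * 152302291 + ((j : ℤ) - B) * (w * 100000000))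
            (u * 152302292 + ((j : ℤ) - B) * (w * 100000000)) (w * 100000000))
    else if u < 0 then
      (decide ((B : ℤ) * w * 100000000 < (-u) * 152302291) ||
        (List.range (2 * B + 1)).all fun j =>
          chk fuel (B - ((j : ℤ) - B).natAbs) (l * 152302292 + ((j : ℤ) - B) * (w * 100000000))
            (u * 152302291 + ((j : ℤ) - B) * (w * 100000000)) (w * 100000000))
    else false

theorem prune (a : ℝ) (ha : 1 ≤ a) (c : ℕ → ℤ) : ∀ (n : ℕ) (t : ℝ),
    ((∑ i ∈ Finset.range n, |c i| : ℤ) : ℝ) < |t| * a →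
    t * a ^ n + ∑ i ∈ Finset.range n, (c i : ℝ) * a ^ i ≠ 0 := by
  intro n
  induction n with
  | zero =>
    intro t h
    simp at h ⊢
    intro h0
    simp [h0] at h
  | succ n ih =>
    intro t h
    have e : t * a ^ (n + 1) + ∑ i ∈ Finset.range (n + 1), (c i : ℝ) * a ^ i
        = (t * a + c n) * a ^ n + ∑ i ∈ Finset.range n, (c i : ℝ) * a ^ i := by
      rw [Finset.sum_range_succ]; ring
    rw [e]
    apply ih
    rw [Finset.sum_range_succ] at h
    push_cast at h ⊢
    have h1 : |t * a| ≤ |t * a + c n| + |(c n : ℝ)| := by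
      have := abs_sub (t * a + c n) (c n : ℝ)
      simpa using this
    rw [abs_mul, abs_of_nonneg (by linarith : (0 : ℝ) ≤ a)] at h1
    have h2 : |t * a + c n| ≤ |t * a + c n| * a := le_mul_of_one_le_right (abs_nonneg _) ha
    linarith

theorem sound (a : ℝ) (h1 : 152302291 ≤ a * 100000000) (h2 : a * 100000000 ≤ 152302292)
    (c : ℕ → ℤ) : ∀ (fuel B : ℕ) (l u w : ℤ), chk fuel B l u w = true → 0 < w →
    ∀ (n : ℕ) (t : ℝ), (l : ℝ) ≤ t * w → t * w ≤ u → (∑ i ∈ Finset.range n, |c i|) ≤ B →
    t * a ^ n + ∑ i ∈ Finset.range n, (c i : ℝ) * a ^ i ≠ 0 := by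
  have ha : 1 ≤ a := by linarith
  intro fuel
  induction fuel with
  | zero => intro B l u w h; simp [chk] at h
  | succ fuel ih =>
    intro B l u w h hw n t hl hu hs
    have hw' : (0 : ℝ) < w := by exact_mod_cast hw
    have hsR : ((∑ i ∈ Finset.range n, |c i| : ℤ) : ℝ) ≤ (B : ℝ) := by exact_mod_cast hs
    have step : ∀ l' u' : ℤ, t ≠ 0 → (l' : ℝ) ≤ t * a * (w * 100000000) →
        t * a * (w * 100000000) ≤ u' →
        ((List.range (2 * B + 1)).all fun j =>
          chk fuel (B - ((j : ℤ) - B).natAbs) (l' + ((j : ℤ) - B) * (w * 100000000))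
            (u' + ((j : ℤ) - B) * (w * 100000000)) (w * 100000000)) = true →
        t * a ^ n + ∑ i ∈ Finset.range n, (c i : ℝ) * a ^ i ≠ 0 := by
      intro l' u' ht hl' hu' hall
      cases n with
      | zero => simpa using ht
      | succ n =>
        have e : t * a ^ (n + 1) + ∑ i ∈ Finset.range (n + 1), (c i : ℝ) * a ^ i
            = (t * a + c n) * a ^ n + ∑ i ∈ Finset.range n, (c i : ℝ) * a ^ i := by
          rw [Finset.sum_range_succ]; ring
        rw [e]
        rw [Finset.sum_range_succ] at hs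
        have hnn : 0 ≤ ∑ i ∈ Finset.range n, |c i| :=
          Finset.sum_nonneg fun i _ => abs_nonneg _
        have hcn : |c n| ≤ B := by linarith
        have hcn' := abs_le.1 hcn
        rw [List.all_eq_true] at hall
        have hj := hall (c n + B).toNat (by rw [List.mem_range]; omega)
        have e2 : (((c n + B).toNat : ℕ) : ℤ) - B = c n := by omega
        rw [e2] at hj
        refine ih _ _ _ _ hj (by positivity) n _ ?_ ?_ ?_
        · push_cast; nlinarith
        · push_cast; nlinarith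
        · have : ((B - (c n).natAbs : ℕ) : ℤ) = B - |c n| := by
            rw [Int.abs_eq_natAbs] at hcn ⊢; omega
          rw [this]; linarith
    unfold chk at h
    by_cases hl0 : 0 < l
    · rw [if_pos hl0, Bool.or_eq_true] at h
      have hl0' : (0 : ℝ) < l := by exact_mod_cast hl0
      have ht : 0 < t := by
        by_contra hc
        push Not at hc
        nlinarith
      have hu0 : (0 : ℝ) < u := by linarith
      rcases h with h | h
      · apply prune a ha
        have h' : (B : ℝ) * w * 100000000 < l * 152302291 := by exact_mod_cast of_decide_eq_true h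
        rw [abs_of_pos ht]
        have : (B : ℝ) * (w * 100000000) < t * a * (w * 100000000) := by nlinarith
        have := lt_of_mul_lt_mul_right this (by positivity)
        linarith
      · refine step _ _ ht.ne' ?_ ?_ h
        · push_cast; nlinarith
        · push_cast; nlinarith
    · rw [if_neg hl0] at h
      by_cases hu0 : u < 0
      · rw [if_pos hu0, Bool.or_eq_true] at h
        have hu0' : (u : ℝ) < 0 := by exact_mod_cast hu0
        have ht : t < 0 := by
          by_contra hc
          push Not at hc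
          nlinarith
        rcases h with h | h
        · apply prune a ha
          have h' : (B : ℝ) * w * 100000000 < (-u) * 152302291 := by
            exact_mod_cast of_decide_eq_true h
          rw [abs_of_neg ht]
          have : (B : ℝ) * (w * 100000000) < -t * a * (w * 100000000) := by nlinarith
          have := lt_of_mul_lt_mul_right this (by positivity)
          linarith
        · refine step _ _ ht.ne ?_ ?_ h
          · push_cast; nlinarith
          · push_cast; nlinarith
      · rw [if_neg hu0] at h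
        simp at h

theorem top : ∀ j : ℕ, j < 11 → j ≠ 5 →
    chk 20 (5 - ((j : ℤ) - 5).natAbs) ((j : ℤ) - 5) ((j : ℤ) - 5) 1 = true := by
  decide +kernel

noncomputable def PP : ℤ[X] := X ^ 6 - 2 * X ^ 5 + 2 * X ^ 4 - X ^ 3 - X ^ 2 - 1
noncomputable def TT : ℤ[X] := X ^ 3 + X ^ 2 - 1

theorem root : ∃ a : ℝ, 152302291 ≤ a * 100000000 ∧ a * 100000000 ≤ 152302292 ∧
    a ^ 6 - 2 * a ^ 5 + 2 * a ^ 4 - a ^ 3 - a ^ 2 - 1 = 0 := by
  have hc : ContinuousOn (fun a : ℝ => a ^ 6 - 2 * a ^ 5 + 2 * a ^ 4 - a ^ 3 - a ^ 2 - 1)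
      (Set.Icc (152302291 / 100000000) (152302292 / 100000000)) := by fun_prop
  have := intermediate_value_Icc (by norm_num) hc
  obtain ⟨a, ha, h0⟩ := this (show (0 : ℝ) ∈ _ by constructor <;> norm_num)
  refine ⟨a, ?_, ?_, h0⟩
  · have := ha.1; linarith
  · have := ha.2; linarith

theorem supp_sum (G : ℤ[X]) (n : ℕ) (h : G.natDegree < n) :
    ∑ i ∈ G.support, |G.coeff i| = ∑ i ∈ Finset.range n, |G.coeff i| := by
  apply Finset.sum_subset
  · intro i hi
    have := Polynomial.le_natDegree_of_mem_supp i hi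
    simp; omega
  · intro i _ hi
    simp at hi
    simp [hi]

theorem PP_monic : PP.Monic := by unfold PP; monicity!

theorem lower (S : ℤ[X]) (hS : S ≠ 0) : 6 ≤ ∑ i ∈ (PP * S).support, |(PP * S).coeff i| := by
  obtain ⟨a, h1, h2, h0⟩ := root
  set G := PP * S with hG
  have hG0 : G ≠ 0 := mul_ne_zero PP_monic.ne_zero hS
  have hev : aeval a G = 0 := by
    have : aeval a PP = 0 := by
      simp only [PP, map_sub, map_add, map_mul, map_pow, aeval_X, map_one, map_ofNat]
      exact h0
    rw [hG, map_mul, this, zero_mul]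
  rw [supp_sum G (G.natDegree + 1) (Nat.lt_succ_self _), Finset.sum_range_succ]
  rw [aeval_eq_sum_range, Finset.sum_range_succ] at hev
  by_contra hc
  push Not at hc
  have hlc : G.coeff G.natDegree ≠ 0 := by
    simpa using hG0
  have hnn : 0 ≤ ∑ i ∈ Finset.range G.natDegree, |G.coeff i| :=
    Finset.sum_nonneg fun i _ => abs_nonneg _
  set c0 := G.coeff G.natDegree with hc0
  have hb : |c0| ≤ 5 := by linarith
  have hb' := abs_le.1 hb
  have hj := top (c0 + 5).toNat (by omega) (by omega)
  have e2 : (((c0 + 5).toNat : ℕ) : ℤ) - 5 = c0 := by omega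
  rw [e2] at hj
  have := sound a h1 h2 (fun i => G.coeff i) _ _ _ _ _ hj (by norm_num) G.natDegree (c0 : ℝ)
    (by simp) (by simp) (by
      have : ((5 - c0.natAbs : ℕ) : ℤ) = 5 - |c0| := by
        rw [Int.abs_eq_natAbs] at hb ⊢; omega
      rw [this]; linarith)
  apply this
  simp only [zsmul_eq_mul] at hev
  linarith

theorem upper : ∑ i ∈ (PP * TT).support, |(PP * TT).coeff i| = 6 := by
  have e : PP * TT = X ^ 9 - X ^ 8 - C 3 * X ^ 4 + 1 := by
    unfold PP TT
    simp only [map_ofNat, eq_intCast, Int.cast_ofNat]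
    ring
  have hd : (PP * TT).natDegree < 10 := by
    rw [e]
    have : (X ^ 9 - X ^ 8 - C 3 * X ^ 4 + 1 : ℤ[X]).natDegree ≤ 9 := by compute_degree
    omega
  rw [supp_sum _ 10 hd, e]
  simp [Finset.sum_range_succ, coeff_X_pow, coeff_one, -eq_intCast, -map_ofNat]

theorem irr3 : Irreducible
    (X ^ 6 - 2 * X ^ 5 + 2 * X ^ 4 - X ^ 3 - X ^ 2 - 1 : (ZMod 3)[X]) := by
  set Q : (ZMod 3)[X] := X ^ 6 - 2 * X ^ 5 + 2 * X ^ 4 - X ^ 3 - X ^ 2 - 1 with hQ
  have hm : Q.Monic := by rw [hQ]; monicity!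
  have hd : Q.natDegree = 6 := by rw [hQ]; compute_degree!
  have hco : Q.coeff 0 = -1 ∧ Q.coeff 1 = 0 ∧ Q.coeff 2 = -1 ∧ Q.coeff 3 = -1 ∧ Q.coeff 4 = 2 ∧
      Q.coeff 5 = -2 := by
    rw [hQ]
    simp [coeff_X_pow, coeff_one]
  rw [hm.irreducible_iff_natDegree']
  refine ⟨fun h => by simp [h] at hd, ?_⟩
  intro f g hf hg hfg hmem
  rw [hd] at hmem
  have hsum : f.natDegree + g.natDegree = 6 := by
    rw [← hf.natDegree_mul hg, hfg, hd]
  simp only [Finset.mem_Ioc] at hmem
  obtain ⟨c0, c1, c2, c3, c4, c5⟩ := hco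
  rw [← hfg, coeff_mul, Finset.Nat.sum_antidiagonal_eq_sum_range_succ_mk] at c0 c1 c2 c3 c4 c5
  simp only [Finset.sum_range_succ, Finset.sum_range_zero] at c0 c1 c2 c3 c4 c5
  norm_num at c0 c1 c2 c3 c4 c5
  have hf1 := hf.coeff_natDegree
  have hg1 := hg.coeff_natDegree
  have hfz : ∀ i, f.natDegree < i → f.coeff i = 0 := fun i hi => coeff_eq_zero_of_natDegree_lt hi
  have hgz : ∀ i, g.natDegree < i → g.coeff i = 0 := fun i hi => coeff_eq_zero_of_natDegree_lt hi
  have hcases : g.natDegree = 1 ∨ g.natDegree = 2 ∨ g.natDegree = 3 := by omega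
  rcases hcases with h | h | h
  · have h' : f.natDegree = 5 := by omega
    rw [h] at hg1 hgz; rw [h'] at hf1 hfz
    rw [hgz 5 (by norm_num)] at c5
    rw [hgz 4 (by norm_num)] at c4 c5
    rw [hgz 3 (by norm_num)] at c3 c4 c5
    rw [hgz 2 (by norm_num)] at c2 c3 c4 c5
    rw [hg1] at c1 c2 c3 c4 c5
    rw [hf1] at c5
    revert c0 c1 c2 c3 c4 c5
    generalize f.coeff 0 = f0; generalize f.coeff 1 = f1; generalize f.coeff 2 = f2
    generalize f.coeff 3 = f3; generalize f.coeff 4 = f4; generalize g.coeff 0 = g0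
    revert f0 f1 f2 f3 f4 g0
    decide +kernel
  · have h' : f.natDegree = 4 := by omega
    rw [h] at hg1 hgz; rw [h'] at hf1 hfz
    rw [hgz 5 (by norm_num), hfz 5 (by norm_num)] at c5
    rw [hgz 4 (by norm_num), hf1] at c4 c5
    rw [hgz 3 (by norm_num)] at c3 c4 c5
    rw [hg1] at c2 c3 c4 c5
    revert c0 c1 c2 c3 c4 c5
    generalize f.coeff 0 = f0; generalize f.coeff 1 = f1; generalize f.coeff 2 = f2
    generalize f.coeff 3 = f3; generalize g.coeff 1 = g1; generalize g.coeff 0 = g0
    revert f0 f1 f2 f3 g1 g0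
    decide +kernel
  · have h' : f.natDegree = 3 := by omega
    rw [h] at hg1 hgz; rw [h'] at hf1 hfz
    rw [hgz 5 (by norm_num), hfz 5 (by norm_num)] at c5
    rw [hgz 4 (by norm_num), hfz 4 (by norm_num)] at c4 c5
    rw [hg1, hf1] at c3 c4 c5
    revert c0 c1 c2 c3 c4 c5
    generalize f.coeff 0 = f0; generalize f.coeff 1 = f1; generalize f.coeff 2 = f2
    generalize g.coeff 2 = g2; generalize g.coeff 1 = g1; generalize g.coeff 0 = g0
    revert f0 f1 f2 g2 g1 g0
    decide +kernel

theorem PP_irr : Irreducible PP := by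
  apply PP_monic.irreducible_of_irreducible_map (Int.castRingHom (ZMod 3))
  have : PP.map (Int.castRingHom (ZMod 3))
      = X ^ 6 - 2 * X ^ 5 + 2 * X ^ 4 - X ^ 3 - X ^ 2 - 1 := by
    simp [PP]
  rw [this]
  exact irr3

theorem result :
    ∃ P T : Polynomial ℤ, P.Monic ∧ Irreducible P ∧ T ≠ 0 ∧
      (∀ S : Polynomial ℤ, S ≠ 0 →
        ∑ i ∈ (P * T).support, |(P * T).coeff i| ≤
          ∑ i ∈ (P * S).support, |(P * S).coeff i|) ∧
      ∃ z : ℂ, z ≠ 0 ∧ Polynomial.aeval z T = 0 ∧ ∀ n : ℕ, 0 < n → z ^ n ≠ 1 := by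
  refine ⟨PP, TT, PP_monic, PP_irr, ?_, ?_, ?_⟩
  · have : TT.Monic := by unfold TT; monicity!
    exact this.ne_zero
  · intro S hS
    rw [upper]
    exact lower S hS
  · have hc : ContinuousOn (fun a : ℝ => a ^ 3 + a ^ 2 - 1) (Set.Icc (1 / 2) (9 / 10)) := by
      fun_prop
    have := intermediate_value_Icc (by norm_num) hc
    obtain ⟨a, ha, h0⟩ := this (show (0 : ℝ) ∈ _ by constructor <;> norm_num)
    have ha1 := ha.1
    have ha2 := ha.2
    refine ⟨(a : ℂ), ?_, ?_, ?_⟩
    · exact_mod_cast (by linarith : (0 : ℝ) < a).ne'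
    · simp only [TT, map_sub, map_add, map_pow, aeval_X, map_one]
      exact_mod_cast h0
    · intro n hn h
      have h' : a ^ n = 1 := by exact_mod_cast h
      have : a ^ n < 1 := pow_lt_one₀ (by linarith) (by linarith) hn.ne'
      linarith

end Pool.Agent.S16463
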