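import Pool.Statements.S16488
import Pool.Agent.H.MP_317f4c_nt.B

set_option autoImplicit false
open Pool Pool.MP_317f4c_nt

namespace Pool.Agent.S16488

theorem result :
    ¬ (∀ (g : ℤ → ℤ) (m : ℕ) (a b : ℕ → ℚ), 0 < m →
      (∀ n : ℤ, (g n : ℚ) = a (n % (m : ℤ)).toNat * (n : ℚ) + b (n % (m : ℤ)).toNat) →
      Function.Bijective g →
      ∀ n₀ : ℤ, ∃ d : ℝ,
        Filter.Tendsto
          (fun N : ℕ =>
            ((Set.ncard {k : ℤ | -(N : ℤ) ≤ k ∧ k ≤ (N : ℤ) ∧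
                ∃ i : ℕ, g^[i] n₀ = k ∨ g^[i] k = n₀} : ℕ) : ℝ) / (2 * (N : ℝ) + 1))
          Filter.atTop (nhds d)) := by
  intro h
  obtain ⟨a, b, hab⟩ := H.MP_317f4c_nt.g_aff
  obtain ⟨d, hd⟩ := h H.MP_317f4c_nt.g 22848 a b (by norm_num) hab H.MP_317f4c_nt.g_bij 1
  exact H.MP_317f4c_nt.main d hd

end Pool.Agent.S16488
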