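import Pool.Statements.S16580
-- import your own Pool.Agent.* helpers here

set_option autoImplicit false
open Filter
open Pool Pool.MP_37fc1f_nt

namespace Pool.Agent.S16580

noncomputable def ff (s : ℝ) : ℝ := 9 - s ^ 3 - 8 / s ^ 3

noncomputable def JJ (n : ℕ) : ℝ := ∫ s in (1 : ℝ)..2, ff s ^ n

lemma ff_cont : ContinuousOn ff (Set.uIcc (1 : ℝ) 2) := by
  unfold ff
  rw [Set.uIcc_of_le (by norm_num)]
  refine ContinuousOn.sub (by fun_prop) (ContinuousOn.div (by fun_prop) (by fun_prop) ?_)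
  intro x hx
  have : 0 < x := by linarith [hx.1]
  positivity

lemma ff_int (n : ℕ) : IntervalIntegrable (fun s => ff s ^ n) MeasureTheory.volume (1 : ℝ) 2 :=
  (ff_cont.pow n).intervalIntegrable

lemma ff_bd (s : ℝ) (h1 : 1 ≤ s) (h2 : s ≤ 2) : 0 ≤ ff s ∧ ff s ≤ 4 := by
  unfold ff
  have hs : 0 < s := by linarith
  have hy1 : 1 ≤ s ^ 3 := one_le_pow₀ h1
  have hy2 : s ^ 3 ≤ 8 := by
    have : s ^ 3 ≤ 2 ^ 3 := pow_le_pow_left₀ hs.le h2 3
    linarith
  generalize s ^ 3 = y at *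
  have hy : 0 < y := by linarith
  constructor
  · have : 8 / y ≤ 9 - y := by
      rw [div_le_iff₀ hy]; nlinarith
    linarith
  · have : 5 - y ≤ 8 / y := by
      rw [le_div_iff₀ hy]; nlinarith [sq_nonneg (2 * y - 5)]
    linarith

lemma ff_deriv (s : ℝ) (hs : s ≠ 0) : HasDerivAt ff (-3 * s ^ 2 + 24 / s ^ 4) s := by
  unfold ff
  have h3 : HasDerivAt (fun x : ℝ => x ^ 3) (3 * s ^ 2) s := by
    simpa using hasDerivAt_pow 3 s
  have h4 := (hasDerivAt_const s (8 : ℝ)).div h3 (pow_ne_zero 3 hs)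
  have h5 := ((hasDerivAt_const s (9 : ℝ)).sub h3).sub h4
  exact h5.congr_deriv (by field_simp; ring)

lemma gg_deriv (s : ℝ) (hs : s ≠ 0) :
    HasDerivAt (fun x : ℝ => x ^ 4 - 8 / x ^ 2) (4 * s ^ 3 + 16 / s ^ 3) s := by
  have h3 : HasDerivAt (fun x : ℝ => x ^ 4) (4 * s ^ 3) s := by
    simpa using hasDerivAt_pow 4 s
  have h2 : HasDerivAt (fun x : ℝ => x ^ 2) (2 * s) s := by
    simpa using hasDerivAt_pow 2 s
  have h4 := (hasDerivAt_const s (8 : ℝ)).div h2 (pow_ne_zero 2 hs)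
  have h5 := h3.sub h4
  exact h5.congr_deriv (by field_simp; ring)

lemma JJ_rec (n : ℕ) :
    (9 * ((n : ℝ) + 2) ^ 2 - 1) * JJ (n + 2) =
      81 * ((n : ℝ) + 2) * (2 * n + 3) * JJ (n + 1) - 441 * ((n : ℝ) + 1) * (n + 2) * JJ n := by
  have key : ∫ s in (1 : ℝ)..2, (-(9 * ((n : ℝ) + 2) ^ 2 - 1) * ff s ^ (n + 2) +
      81 * ((n : ℝ) + 2) * (2 * n + 3) * ff s ^ (n + 1) - 441 * ((n : ℝ) + 1) * (n + 2) * ff s ^ n) =
      (fun s : ℝ => 3 * ((n : ℝ) + 2) * (ff s ^ (n + 1) * (s ^ 4 - 8 / s ^ 2)) + s * ff s ^ (n + 2)) 2 -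
      (fun s : ℝ => 3 * ((n : ℝ) + 2) * (ff s ^ (n + 1) * (s ^ 4 - 8 / s ^ 2)) + s * ff s ^ (n + 2)) 1 := by
    refine intervalIntegral.integral_eq_sub_of_hasDerivAt
      (f := fun s : ℝ => 3 * ((n : ℝ) + 2) * (ff s ^ (n + 1) * (s ^ 4 - 8 / s ^ 2)) + s * ff s ^ (n + 2)) ?_ ?_
    · intro s hs
      rw [Set.uIcc_of_le (by norm_num)] at hs
      have hs0 : s ≠ 0 := by have := hs.1; positivity
      have h1 := (ff_deriv s hs0).fun_pow (n + 1)
      have h2 := (ff_deriv s hs0).fun_pow (n + 2)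
      have h3 := ((h1.mul (gg_deriv s hs0)).const_mul (3 * ((n : ℝ) + 2))).add
        ((hasDerivAt_id s).mul h2)
      refine h3.congr_deriv ?_
      simp only [Nat.add_sub_cancel, id, show n + 2 - 1 = n + 1 from rfl, pow_succ]
      generalize ff s ^ n = F
      unfold ff
      push_cast
      field_simp
      ring
    · exact (((ff_int (n + 2)).const_mul _).add ((ff_int (n + 1)).const_mul _)).sub
        ((ff_int n).const_mul _)
  have f1 : ff 1 = 0 := by unfold ff; norm_num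
  have f2 : ff 2 = 0 := by unfold ff; norm_num
  simp only [f1, f2] at key
  rw [intervalIntegral.integral_sub (((ff_int (n + 2)).const_mul _).add ((ff_int (n + 1)).const_mul _))
    ((ff_int n).const_mul _), intervalIntegral.integral_add ((ff_int (n + 2)).const_mul _)
    ((ff_int (n + 1)).const_mul _)] at key
  simp only [intervalIntegral.integral_const_mul] at key
  simp only [pow_succ (0 : ℝ), mul_zero, zero_mul, add_zero, sub_zero] at key
  unfold JJ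
  linarith

lemma JJ_zero : JJ 0 = 1 := by
  unfold JJ; simp; norm_num

lemma JJ_one : JJ 1 = 9 / 4 := by
  unfold JJ
  have key : ∫ s in (1 : ℝ)..2, ff s ^ 1 =
      (fun s : ℝ => 9 * s - s ^ 4 / 4 + 4 / s ^ 2) 2 - (fun s : ℝ => 9 * s - s ^ 4 / 4 + 4 / s ^ 2) 1 := by
    refine intervalIntegral.integral_eq_sub_of_hasDerivAt
      (f := fun s : ℝ => 9 * s - s ^ 4 / 4 + 4 / s ^ 2) ?_ ?_
    · intro s hs
      rw [Set.uIcc_of_le (by norm_num)] at hs
      have hs0 : s ≠ 0 := by have := hs.1; positivity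
      have h3 : HasDerivAt (fun x : ℝ => x ^ 4) (4 * s ^ 3) s := by
        simpa using hasDerivAt_pow 4 s
      have h2 : HasDerivAt (fun x : ℝ => x ^ 2) (2 * s) s := by
        simpa using hasDerivAt_pow 2 s
      have h4 := (hasDerivAt_const s (4 : ℝ)).div h2 (pow_ne_zero 2 hs0)
      have h5 := (((hasDerivAt_id s).const_mul 9).sub (h3.div_const 4)).add h4
      refine h5.congr_deriv ?_
      unfold ff
      field_simp
      ring
    · exact ff_int 1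
  rw [key]; norm_num

lemma JJ_bd (n : ℕ) : 0 ≤ JJ (n + 1) ∧ JJ (n + 1) ≤ 4 * JJ n := by
  unfold JJ
  constructor
  · apply intervalIntegral.integral_nonneg (by norm_num)
    intro s hs
    exact pow_nonneg (ff_bd s hs.1 hs.2).1 _
  · rw [← intervalIntegral.integral_const_mul]
    apply intervalIntegral.integral_mono_on (by norm_num) (ff_int _) ((ff_int n).const_mul _)
    intro s hs
    have h := ff_bd s hs.1 hs.2
    rw [pow_succ, mul_comm]
    exact mul_le_mul_of_nonneg_right h.2 (pow_nonneg h.1 _)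

lemma JJ_pos (n : ℕ) : 0 < JJ n := by
  induction n with
  | zero => rw [JJ_zero]; norm_num
  | succ n ih =>
    rcases (JJ_bd n).1.lt_or_eq with h | h
    · exact h
    · exfalso
      have h1 := JJ_bd (n + 1)
      have h2 := JJ_rec n
      have h3 : JJ (n + 1 + 1) = 0 := by linarith [h1.1, h1.2]
      rw [show n + 2 = n + 1 + 1 from rfl, h3, ← h] at h2
      have : 0 < 441 * ((n : ℝ) + 1) * (n + 2) * JJ n := by positivity
      linarith

/-- the solution of the recurrence with given initial values -/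
def sol (x y : ℚ) : ℕ → ℚ
  | 0 => x
  | 1 => y
  | (n + 2) => (81 * ((n : ℚ) + 2) * (2 * n + 3)) / (9 * ((n : ℚ) + 2) ^ 2 - 1) * sol x y (n + 1) +
      (-441 * ((n : ℚ) + 1) * (n + 2)) / (9 * ((n : ℚ) + 2) ^ 2 - 1) * sol x y n

lemma den_pos (n : ℕ) : (0 : ℝ) < 9 * ((n : ℝ) + 2) ^ 2 - 1 := by
  have : (0 : ℝ) ≤ n := Nat.cast_nonneg n
  nlinarith

noncomputable def bb (n : ℕ) : ℝ := (81 * ((n : ℝ) + 2) * (2 * n + 3)) / (9 * ((n : ℝ) + 2) ^ 2 - 1)
noncomputable def aa (n : ℕ) : ℝ := (441 * ((n : ℝ) + 1) * (n + 2)) / (9 * ((n : ℝ) + 2) ^ 2 - 1)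

lemma sol_rec (x y : ℚ) (n : ℕ) :
    (sol x y (n + 2) : ℝ) = bb n * sol x y (n + 1) - aa n * sol x y n := by
  rw [sol]; unfold aa bb; push_cast; ring

lemma sol_eq (n : ℕ) : ((sol 1 (9 / 4) n : ℚ) : ℝ) = JJ n ∧ ((sol 1 (9 / 4) (n + 1) : ℚ) : ℝ) = JJ (n + 1) := by
  induction n with
  | zero => simp [sol, JJ_zero, JJ_one]
  | succ n ih =>
    refine ⟨ih.2, ?_⟩
    rw [show n + 1 + 1 = n + 2 from rfl, sol_rec, ih.1, ih.2]
    have h := JJ_rec n
    have hd := (den_pos n).ne'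
    unfold aa bb
    rw [div_mul_eq_mul_div, div_mul_eq_mul_div, ← sub_div, div_eq_iff hd]
    linarith

lemma bb_bd (n : ℕ) : 13 ≤ bb n ∧ |bb n - 18| ≤ 10 / ((n : ℝ) + 1) := by
  have hn : (0 : ℝ) ≤ n := Nat.cast_nonneg n
  have hd := den_pos n
  unfold bb
  refine ⟨by rw [le_div_iff₀ hd]; nlinarith, ?_⟩
  have : (81 * ((n : ℝ) + 2) * (2 * n + 3)) / (9 * ((n : ℝ) + 2) ^ 2 - 1) - 18 =
      -((81 * n + 144) / (9 * ((n : ℝ) + 2) ^ 2 - 1)) := by
    rw [div_sub' hd.ne', ← neg_div]; congr 1; ring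
  rw [this, abs_neg, abs_of_nonneg (by positivity), div_le_div_iff₀ hd (by positivity)]
  nlinarith

lemma aa_bd (n : ℕ) : 0 < aa n ∧ aa n ≤ 9 * (bb n - 9) ∧ |aa n - 49| ≤ 50 / ((n : ℝ) + 1) := by
  have hn : (0 : ℝ) ≤ n := Nat.cast_nonneg n
  have hd := den_pos n
  unfold aa bb
  refine ⟨by positivity, ?_, ?_⟩
  · have : 9 * ((81 * ((n : ℝ) + 2) * (2 * n + 3)) / (9 * ((n : ℝ) + 2) ^ 2 - 1) - 9) =
        (729 * ((n : ℝ) + 2) * (2 * n + 3) - 81 * (9 * ((n : ℝ) + 2) ^ 2 - 1)) /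
          (9 * ((n : ℝ) + 2) ^ 2 - 1) := by
      field_simp; ring
    rw [this]
    apply div_le_div_of_nonneg_right _ hd.le
    nlinarith
  · have : (441 * ((n : ℝ) + 1) * (n + 2)) / (9 * ((n : ℝ) + 2) ^ 2 - 1) - 49 =
        -((441 * n + 833) / (9 * ((n : ℝ) + 2) ^ 2 - 1)) := by
      rw [div_sub' hd.ne', ← neg_div]; congr 1; ring
    rw [this, abs_neg, abs_of_nonneg (by positivity), div_le_div_iff₀ hd (by positivity)]
    nlinarith

lemma small (C η : ℝ) (hη : 0 < η) : ∃ N : ℕ, ∀ n : ℕ, N ≤ n → C / ((n : ℝ) + 1) ≤ η := by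
  obtain ⟨N, hN⟩ := exists_nat_ge (C / η)
  refine ⟨N, fun n hn => ?_⟩
  have : (N : ℝ) ≤ n := by exact_mod_cast hn
  rw [div_le_iff₀ (by positivity)]
  rw [div_le_iff₀ hη] at hN
  nlinarith

lemma back (d : ℕ → ℝ) (M C : ℝ) (h0 : ∀ n, 0 ≤ d n) (hM : ∀ n, d n ≤ M)
    (h : ∀ n, d n ≤ d (n + 1) / 2 + C / ((n : ℝ) + 1)) : Tendsto d atTop (nhds 0) := by
  rw [Metric.tendsto_atTop]
  intro ε hε
  obtain ⟨N, hN⟩ := small C (ε / 4) (by positivity)
  have key : ∀ k : ℕ, ∀ n, N ≤ n → d n ≤ M * (1 / 2) ^ k + ε / 2 := by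
    intro k
    induction k with
    | zero => intro n _; have := hM n; simp; linarith
    | succ k ih =>
      intro n hn
      have h1 := ih (n + 1) (by omega)
      have h2 := h n
      have h3 := hN n hn
      rw [pow_succ]; linarith
  have hM0 : 0 ≤ M := (h0 0).trans (hM 0)
  obtain ⟨k, hk⟩ := exists_pow_lt_of_lt_one (show 0 < ε / 2 / (M + 1) by positivity)
    (show (1 / 2 : ℝ) < 1 by norm_num)
  refine ⟨N, fun n hn => ?_⟩
  rw [Real.dist_eq, sub_zero, abs_of_nonneg (h0 n)]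
  have h1 := key k n hn
  rw [lt_div_iff₀ (by positivity)] at hk
  have : (0 : ℝ) < (1 / 2) ^ k := by positivity
  nlinarith

lemma forw (d : ℕ → ℝ) (C : ℝ) (h0 : ∀ n, 0 ≤ d n)
    (h : ∀ n, d (n + 1) ≤ d n / 2 + C / ((n : ℝ) + 1)) : Tendsto d atTop (nhds 0) := by
  rw [Metric.tendsto_atTop]
  intro ε hε
  obtain ⟨N, hN⟩ := small C (ε / 4) (by positivity)
  have key : ∀ k : ℕ, d (N + k) ≤ d N * (1 / 2) ^ k + ε / 2 := by
    intro k
    induction k with
    | zero => simp; linarith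
    | succ k ih =>
      have h2 := h (N + k)
      have h3 := hN (N + k) (by omega)
      rw [pow_succ, ← add_assoc]; linarith
  have hM0 : 0 ≤ d N := h0 N
  obtain ⟨k, hk⟩ := exists_pow_lt_of_lt_one (show 0 < ε / 2 / (d N + 1) by positivity)
    (show (1 / 2 : ℝ) < 1 by norm_num)
  refine ⟨N + k, fun n hn => ?_⟩
  rw [Real.dist_eq, sub_zero, abs_of_nonneg (h0 n)]
  obtain ⟨j, rfl⟩ := Nat.exists_eq_add_of_le (show N ≤ n by omega)
  have h1 := key j
  have h2 : (1 / 2 : ℝ) ^ j ≤ (1 / 2) ^ k :=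
    pow_le_pow_of_le_one (by norm_num) (by norm_num) (by omega)
  rw [lt_div_iff₀ (by positivity)] at hk
  have : (0 : ℝ) < (1 / 2) ^ k := by positivity
  nlinarith

lemma sq2 : (1.4 : ℝ) < √2 ∧ √2 < 1.5 ∧ (√2 : ℝ) ^ 2 = 2 := by
  refine ⟨?_, ?_, Real.sq_sqrt (by norm_num)⟩
  · rw [Real.lt_sqrt (by norm_num)]; norm_num
  · rw [Real.sqrt_lt' (by norm_num)]; norm_num

lemma v_tend : Tendsto (fun n : ℕ => JJ (n + 1) / JJ n) atTop (nhds (9 - 4 * √2)) := by
  obtain ⟨s1, s2, s3⟩ := sq2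
  rw [tendsto_iff_dist_tendsto_zero]
  have hr : ∀ n, 0 < JJ (n + 1) / JJ n ∧ JJ (n + 1) / JJ n ≤ 4 := fun n =>
    ⟨div_pos (JJ_pos _) (JJ_pos _), by rw [div_le_iff₀ (JJ_pos n)]; exact (JJ_bd n).2⟩
  apply back _ 10 100 (fun n => dist_nonneg)
  · intro n
    rw [Real.dist_eq, abs_le]
    constructor <;> linarith [(hr n).1, (hr n).2]
  · intro n
    have e : JJ (n + 2) = bb n * JJ (n + 1) - aa n * JJ n := by
      have := sol_rec 1 (9 / 4) n
      rwa [(sol_eq n).1, (sol_eq n).2, (sol_eq (n + 1)).2] at this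
    have h1 := hr n
    have h2 := hr (n + 1)
    have e2 : JJ (n + 1) / JJ n * (bb n - JJ (n + 1 + 1) / JJ (n + 1)) = aa n := by
      have p1 := (JJ_pos n).ne'
      have p2 := (JJ_pos (n + 1)).ne'
      rw [show n + 1 + 1 = n + 2 from rfl, e]
      field_simp
      ring
    simp only [Real.dist_eq]
    generalize JJ (n + 1) / JJ n = r at *
    generalize JJ (n + 1 + 1) / JJ (n + 1) = r' at *
    obtain ⟨b1, b2⟩ := bb_bd n
    obtain ⟨-, -, a2⟩ := aa_bd n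
    have e10 : (10 : ℝ) / ((n : ℝ) + 1) = 10 * (1 / ((n : ℝ) + 1)) := by ring
    have e50 : (50 : ℝ) / ((n : ℝ) + 1) = 50 * (1 / ((n : ℝ) + 1)) := by ring
    have e100 : (100 : ℝ) / ((n : ℝ) + 1) = 100 * (1 / ((n : ℝ) + 1)) := by ring
    rw [e100]; rw [e10] at b2; rw [e50] at a2
    generalize (1 / ((n : ℝ) + 1)) = t at *
    set L := 9 - 4 * √2 with hL
    have hL1 : 3 < L := by linarith
    have hL2 : L < 3.4 := by linarith
    have hL3 : L * (18 - L) = 49 := by rw [hL]; nlinarith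
    have id1 : (r - L) * (bb n - r') = (aa n - 49) + L * (18 - bb n) + L * (r' - L) := by
      linear_combination e2 - hL3
    have hp : 9 ≤ bb n - r' := by linarith [h2.2]
    have h3 : |r - L| * 9 ≤ |(r - L) * (bb n - r')| := by
      rw [abs_mul, abs_of_nonneg (show 0 ≤ bb n - r' by linarith)]
      exact mul_le_mul_of_nonneg_left hp (abs_nonneg _)
    rw [id1] at h3
    have h4 : |aa n - 49 + L * (18 - bb n) + L * (r' - L)| ≤
        |aa n - 49| + L * |bb n - 18| + L * |r' - L| := by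
      refine (abs_add_le _ _).trans (add_le_add ((abs_add_le _ _).trans (add_le_add le_rfl ?_)) ?_)
      · rw [abs_mul, abs_of_pos (by linarith), abs_sub_comm]
      · rw [abs_mul, abs_of_pos (by linarith)]
    have h5 := abs_nonneg (r' - L)
    have h6 := abs_nonneg (bb n - 18)
    have h7 := abs_nonneg (aa n - 49)
    nlinarith

lemma w_bd (n : ℕ) : (0 : ℝ) < sol 1 9 n ∧ 9 * (sol 1 9 n : ℝ) ≤ sol 1 9 (n + 1) := by
  induction n with
  | zero => simp [sol]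
  | succ n ih =>
    refine ⟨by linarith [ih.1, ih.2], ?_⟩
    rw [show n + 1 + 1 = n + 2 from rfl, sol_rec]
    obtain ⟨a1, a2, -⟩ := aa_bd n
    obtain ⟨b1, -⟩ := bb_bd n
    nlinarith [ih.1, ih.2]

lemma w_tend : Tendsto (fun n : ℕ => ((sol 1 9 (n + 1) : ℚ) : ℝ) / (sol 1 9 n : ℚ)) atTop
    (nhds (9 + 4 * √2)) := by
  obtain ⟨s1, s2, s3⟩ := sq2
  rw [tendsto_iff_dist_tendsto_zero]
  apply forw _ 100 (fun n => dist_nonneg)
  intro n
  have hr : 9 ≤ ((sol 1 9 (n + 1) : ℚ) : ℝ) / (sol 1 9 n : ℚ) := by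
    rw [le_div_iff₀ (w_bd n).1]; exact (w_bd n).2
  have e2 : (bb n - ((sol 1 9 (n + 1 + 1) : ℚ) : ℝ) / (sol 1 9 (n + 1) : ℚ)) *
      (((sol 1 9 (n + 1) : ℚ) : ℝ) / (sol 1 9 n : ℚ)) = aa n := by
    have p1 := (w_bd n).1.ne'
    have p2 := (w_bd (n + 1)).1.ne'
    rw [show n + 1 + 1 = n + 2 from rfl, sol_rec]
    field_simp
    ring
  simp only [Real.dist_eq]
  generalize ((sol 1 9 (n + 1) : ℚ) : ℝ) / (sol 1 9 n : ℚ) = r at *
  generalize ((sol 1 9 (n + 1 + 1) : ℚ) : ℝ) / (sol 1 9 (n + 1) : ℚ) = r' at *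
  obtain ⟨b1, b2⟩ := bb_bd n
  obtain ⟨-, -, a2⟩ := aa_bd n
  have e10 : (10 : ℝ) / ((n : ℝ) + 1) = 10 * (1 / ((n : ℝ) + 1)) := by ring
  have e50 : (50 : ℝ) / ((n : ℝ) + 1) = 50 * (1 / ((n : ℝ) + 1)) := by ring
  have e100 : (100 : ℝ) / ((n : ℝ) + 1) = 100 * (1 / ((n : ℝ) + 1)) := by ring
  rw [e100]; rw [e10] at b2; rw [e50] at a2
  have ht : 0 ≤ 1 / ((n : ℝ) + 1) := by positivity
  generalize (1 / ((n : ℝ) + 1)) = t at *
  set L := 9 + 4 * √2 with hL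
  have hL1 : 14.6 < L := by linarith
  have hL2 : L < 15 := by linarith
  have hL3 : L * (18 - L) = 49 := by rw [hL]; nlinarith
  have id1 : (r' - L - (bb n - 18)) * r = (49 - aa n) + (18 - L) * (r - L) := by
    linear_combination (-1 : ℝ) * e2 + hL3
  have h3 : |r' - L - (bb n - 18)| * 9 ≤ |(r' - L - (bb n - 18)) * r| := by
    rw [abs_mul, abs_of_nonneg (show 0 ≤ r by linarith)]
    exact mul_le_mul_of_nonneg_left hr (abs_nonneg _)
  rw [id1] at h3
  have h4 : |49 - aa n + (18 - L) * (r - L)| ≤ |aa n - 49| + (18 - L) * |r - L| := by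
    refine (abs_add_le _ _).trans (add_le_add ?_ ?_)
    · rw [abs_sub_comm]
    · rw [abs_mul, abs_of_pos (by linarith)]
  have h8 : |r' - L| ≤ |r' - L - (bb n - 18)| + |bb n - 18| := by
    have := abs_add_le (r' - L - (bb n - 18)) (bb n - 18)
    simpa using this
  have h5 := abs_nonneg (r - L)
  nlinarith

lemma eval_div (p q : Polynomial ℚ) (x : ℚ) (hq : q.eval x ≠ 0) :
    RatFunc.eval (RingHom.id ℚ) x (algebraMap _ (RatFunc ℚ) p / algebraMap _ (RatFunc ℚ) q) =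
      p.eval x / q.eval x := by
  have hq0 : q ≠ 0 := by rintro rfl; simp at hq
  have h1 : (algebraMap _ (RatFunc ℚ) p / algebraMap _ (RatFunc ℚ) q) * algebraMap _ (RatFunc ℚ) q =
      algebraMap _ (RatFunc ℚ) p := by
    rw [div_mul_cancel₀]
    exact RatFunc.algebraMap_ne_zero hq0
  have h2 : Polynomial.eval₂ (RingHom.id ℚ) x
      (RatFunc.denom (algebraMap _ (RatFunc ℚ) p / algebraMap _ (RatFunc ℚ) q)) ≠ 0 := by
    obtain ⟨c, hc⟩ := RatFunc.denom_div_dvd p q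
    intro h
    apply hq
    rw [hc, Polynomial.eval_mul]
    rw [Polynomial.eval₂_id] at h
    rw [h, zero_mul]
  have h3 := RatFunc.eval_mul (RingHom.id ℚ) x h2 (y := algebraMap _ (RatFunc ℚ) q) (by simp)
  rw [h1] at h3
  simp only [RatFunc.eval_algebraMap, Algebra.algebraMap_self, RingHom.id_apply,
    Polynomial.eval₂_id] at h3
  rw [eq_div_iff hq, ← h3]

open Polynomial in
noncomputable def ra : RatFunc ℚ :=
  algebraMap _ (RatFunc ℚ) (-441 * X * (X - 1) : ℚ[X]) / algebraMap _ (RatFunc ℚ) (9 * X ^ 2 - 1 : ℚ[X])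

open Polynomial in
noncomputable def rb : RatFunc ℚ :=
  algebraMap _ (RatFunc ℚ) (81 * X * (2 * X - 1) : ℚ[X]) / algebraMap _ (RatFunc ℚ) (9 * X ^ 2 - 1 : ℚ[X])

lemma den_ne (n : ℕ) : (9 * ((n : ℚ) + 2) ^ 2 - 1) ≠ 0 := by
  have : (0 : ℚ) ≤ n := Nat.cast_nonneg n
  nlinarith

lemma ra_eval (n : ℕ) : RatFunc.eval (RingHom.id ℚ) ((n + 2 : ℕ) : ℚ) ra =
    (-441 * ((n : ℚ) + 1) * (n + 2)) / (9 * ((n : ℚ) + 2) ^ 2 - 1) := by
  unfold ra
  rw [eval_div]
  · simp; ring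
  · simpa using den_ne n

lemma rb_eval (n : ℕ) : RatFunc.eval (RingHom.id ℚ) ((n + 2 : ℕ) : ℚ) rb =
    (81 * ((n : ℚ) + 2) * (2 * n + 3)) / (9 * ((n : ℚ) + 2) ^ 2 - 1) := by
  unfold rb
  rw [eval_div]
  · simp; ring
  · simpa using den_ne n

lemma tend_aux (u : ℕ → ℝ) (L C : ℝ) (h : ∀ n, |u n - L| ≤ C / ((n : ℝ) + 1)) :
    Tendsto u atTop (nhds L) := by
  rw [Metric.tendsto_atTop]
  intro ε hε
  obtain ⟨N, hN⟩ := small C (ε / 2) (by positivity)
  exact ⟨N, fun n hn => by rw [Real.dist_eq]; linarith [h n, hN n hn]⟩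

theorem result :
    ¬ (∀ (a b : RatFunc ℚ) (α β lam Lam : ℝ) (v w : ℕ → ℚ),
      Tendsto (fun n : ℕ => ((RatFunc.eval (RingHom.id ℚ) (n : ℚ) a : ℚ) : ℝ)) atTop (nhds α) →
      Tendsto (fun n : ℕ => ((RatFunc.eval (RingHom.id ℚ) (n : ℚ) b : ℚ) : ℝ)) atTop (nhds β) →
      lam + Lam = β →
      lam * Lam = -α →
      0 < |lam| →
      |lam| < |Lam| →
      (∀ᶠ n in atTop, v (n + 2) =
          RatFunc.eval (RingHom.id ℚ) ((n + 2 : ℕ) : ℚ) b * v (n + 1) +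
          RatFunc.eval (RingHom.id ℚ) ((n + 2 : ℕ) : ℚ) a * v n) →
      (∀ᶠ n in atTop, w (n + 2) =
          RatFunc.eval (RingHom.id ℚ) ((n + 2 : ℕ) : ℚ) b * w (n + 1) +
          RatFunc.eval (RingHom.id ℚ) ((n + 2 : ℕ) : ℚ) a * w n) →
      (∀ c d : ℚ, (∀ᶠ n in atTop, c * v n + d * w n = 0) → c = 0 ∧ d = 0) →
      Tendsto (fun n : ℕ => ((v (n + 1) : ℝ) / (v n : ℝ))) atTop (nhds lam) →
      Tendsto (fun n : ℕ => ((w (n + 1) : ℝ) / (w n : ℝ))) atTop (nhds Lam) →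
      (∃ q : ℚ, (q : ℝ) = lam) ∧ (∃ r : ℚ, (r : ℝ) = Lam)) := by
  intro H
  obtain ⟨s1, s2, s3⟩ := sq2
  have hv : ∀ n, ((sol 1 (9 / 4) n : ℚ) : ℝ) = JJ n := fun n => (sol_eq n).1
  have := H ra rb (-49) 18 (9 - 4 * √2) (9 + 4 * √2) (sol 1 (9 / 4)) (sol 1 9) ?_ ?_ (by ring)
    (by nlinarith) (abs_pos.2 (by linarith))
    (by rw [abs_of_pos (by linarith), abs_of_pos (by linarith)]; linarith) ?_ ?_ ?_ ?_ w_tend
  · obtain ⟨⟨q, hq⟩, -⟩ := this
    apply irrational_sqrt_two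
    exact ⟨(9 - q) / 4, by push_cast; linarith⟩
  · rw [← tendsto_add_atTop_iff_nat 2]
    apply tend_aux _ _ 50
    intro n
    rw [ra_eval]
    have := (aa_bd n).2.2
    unfold aa at this
    rw [← abs_neg]
    push_cast
    refine le_of_eq_of_le ?_ this
    congr 1; ring
  · rw [← tendsto_add_atTop_iff_nat 2]
    apply tend_aux _ _ 10
    intro n
    rw [rb_eval]
    have := (bb_bd n).2
    unfold bb at this
    push_cast
    exact this
  · exact Eventually.of_forall fun n => by rw [ra_eval, rb_eval, sol]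
  · exact Eventually.of_forall fun n => by rw [ra_eval, rb_eval, sol]
  · intro c d h
    obtain ⟨N, hN⟩ := eventually_atTop.1 h
    have h1 : (c : ℝ) * JJ N + d * (sol 1 9 N : ℚ) = 0 := by
      rw [← hv]; exact_mod_cast hN N le_rfl
    have h2 : (c : ℝ) * JJ (N + 1) + d * (sol 1 9 (N + 1) : ℚ) = 0 := by
      rw [← hv]; exact_mod_cast hN (N + 1) (by omega)
    have p1 := JJ_pos N
    have p2 := JJ_bd N
    have p3 := w_bd N
    have hdet : 0 < JJ N * (sol 1 9 (N + 1) : ℚ) - JJ (N + 1) * (sol 1 9 N : ℚ) := by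
      nlinarith [p2.2, p3.1, p3.2]
    have hd : (d : ℝ) * (JJ N * (sol 1 9 (N + 1) : ℚ) - JJ (N + 1) * (sol 1 9 N : ℚ)) = 0 := by
      linear_combination JJ N * h2 - JJ (N + 1) * h1
    have hd0 : (d : ℝ) = 0 := (mul_eq_zero.1 hd).resolve_right hdet.ne'
    rw [hd0, zero_mul, add_zero] at h1
    have hc0 : (c : ℝ) = 0 := (mul_eq_zero.1 h1).resolve_right p1.ne'
    exact ⟨by exact_mod_cast hc0, by exact_mod_cast hd0⟩
  · simp only [hv]; exact v_tend

end Pool.Agent.S16580
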