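import Pool.Statements.S16619
import Pool.Agent.H.MP_3aed06_nt.C

set_option autoImplicit false
open Pool Pool.MP_3aed06_nt

namespace Pool.Agent.S16619

theorem result :
    ∃ c : ℝ, ∀ s : Finset ℕ, s.Nonempty → (∀ p ∈ s, Nat.Prime p) →
      (∑ p ∈ s, ∑ q ∈ s.filter (fun q => p < q), (1 : ℝ) / ((q : ℝ) - (p : ℝ)))
        < c * (s.card : ℝ) :=
  Pool.Agent.H.MP_3aed06_nt.main

end Pool.Agent.S16619
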