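import Pool.Statements.S16631

set_option autoImplicit false
open Pool Pool.MP_3bec75_nt

namespace Pool.Agent.S16631

def M (g : ℕ) : ℕ → ℕ
  | 0 => 1
  | (k + 1) => g * ((g + 1) * M g k) + M g k + g * ((g + 1) * M g k) + 2

def T (g k : ℕ) : ℕ := (g + 1) * M g k
def Y (g k : ℕ) : ℕ := g * T g k + M g k
def N (g k : ℕ) : ℕ := Y g k + g * T g k + 1

lemma M_succ (g k : ℕ) : M g (k + 1) = N g k + 1 := by
  simp only [M, N, Y, T]

def tau (g i : ℕ) : ℕ → ℕ
  | 0 => 0
  | (r + 1) => tau g i r + Y g (i + r + 1)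

def ys (g i : ℕ) : ℕ → Multiset ℕ
  | 0 => 0
  | (r + 1) => Y g (i + r + 1) ::ₘ ys g i r

lemma ys_card (g i r : ℕ) : (ys g i r).card = r := by
  induction r with
  | zero => simp [ys]
  | succ r ih => simp [ys, ih]

lemma ys_sum (g i r : ℕ) : (ys g i r).sum = tau g i r := by
  induction r with
  | zero => simp [ys, tau]
  | succ r ih => simp [ys, tau, ih]; omega

lemma ys_mem (g i r x : ℕ) (hx : x ∈ ys g i r) : ∃ j, i < j ∧ x = Y g j := by
  induction r with
  | zero => simp [ys] at hx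
  | succ r ih =>
    simp only [ys, Multiset.mem_cons] at hx
    rcases hx with h | h
    · exact ⟨i + r + 1, by omega, h⟩
    · exact ih h

lemma M_pos (g k : ℕ) : k + 1 ≤ M g k := by
  induction k with
  | zero => simp [M]
  | succ k ih => simp only [M]; omega

lemma M_mono (g i j : ℕ) (h : i ≤ j) : M g i ≤ M g j := by
  induction h with
  | refl => exact le_rfl
  | step _ ih => simp only [M]; omega

lemma basic (g k : ℕ) (hg : 2 ≤ g) : M g k + g * M g k = T g k ∧ 2 * M g k ≤ g * M g k ∧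
    2 * T g k ≤ g * T g k ∧ Y g k = g * T g k + M g k ∧ N g k = Y g k + g * T g k + 1 ∧
    M g (k + 1) = N g k + 1 ∧ k + 1 ≤ M g k :=
  ⟨by simp only [T]; ring, Nat.mul_le_mul_right _ hg, Nat.mul_le_mul_right _ hg, rfl, rfl,
    M_succ g k, M_pos g k⟩

lemma tau_lt (g i r : ℕ) (hg : 2 ≤ g) : tau g i r + Y g i < M g (i + r + 1) := by
  induction r with
  | zero => have := basic g i hg; simp only [tau, Nat.add_zero]; omega
  | succ r ih =>
    have := basic g (i + r + 1) hg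
    rw [show i + (r + 1) + 1 = i + r + 1 + 1 by ring]
    simp only [tau]
    omega

def Z (g m w : ℕ) : ℕ := N g (m + 1 + g) - (tau g (m + 1) (g - 1) + w)

def mem (g : ℕ) (n : ℕ) : Prop :=
  (∃ k, M g k ≤ n ∧ n ≤ T g k) ∨ (∃ k, n = Y g k) ∨
  (∃ m w, Y g (m + 1) ≤ w + g * M g m ∧ w < Y g (m + 1) ∧ n = Z g m w) ∨
  (∃ m, n = Z g m m) ∨
  (∃ m : Fin n, ¬ mem g m ∧ n = Z g m (Y g (m + 1)))
termination_by n
decreasing_by exact m.2

lemma Z_bounds (g m w : ℕ) (hg : 2 ≤ g) (hw : w ≤ Y g (m + 1)) :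
    Z g m w + (tau g (m + 1) (g - 1) + w) = N g (m + 1 + g) ∧
    N g (m + 1 + g) < Z g m w + M g (m + 1 + g) := by
  have h1 := tau_lt g (m + 1) (g - 1) hg
  rw [show m + 1 + (g - 1) + 1 = m + 1 + g by omega] at h1
  have := basic g (m + 1 + g) hg
  unfold Z
  omega

lemma m_le_Y (g m : ℕ) (hg : 2 ≤ g) : m ≤ Y g (m + 1) := by
  have := basic g (m + 1) hg
  omega

lemma stage_eq (g i j n : ℕ) (h1 : M g i ≤ n) (h2 : n < M g (i + 1)) (h3 : M g j ≤ n)
    (h4 : n < M g (j + 1)) : i = j := by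
  rcases lt_trichotomy i j with h | h | h
  · have := M_mono g (i + 1) j h; omega
  · exact h
  · have := M_mono g (j + 1) i h; omega

lemma classify (g k n : ℕ) (hg : 2 ≤ g) (hn : mem g n) (h1 : M g k ≤ n) (h2 : n < M g (k + 1)) :
    n ≤ T g k ∨ n = Y g k ∨ ∃ m w, k = m + 1 + g ∧ w ≤ Y g (m + 1) ∧ n = Z g m w ∧
      ((Y g (m + 1) ≤ w + g * M g m ∧ w < Y g (m + 1)) ∨ w = m ∨ ¬ mem g m) := by
  have key : ∀ m w, w ≤ Y g (m + 1) → n = Z g m w → k = m + 1 + g := by
    intro m w hw e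
    have := Z_bounds g m w hg hw
    have := basic g (m + 1 + g) hg
    exact stage_eq g k (m + 1 + g) n h1 h2 (by omega) (by omega)
  rw [mem] at hn
  rcases hn with ⟨j, a, b⟩ | ⟨j, a⟩ | ⟨m, w, a, b, c⟩ | ⟨m, a⟩ | ⟨m, a, b⟩
  · have := basic g j hg
    have e := stage_eq g k j n h1 h2 a (by omega)
    subst e; exact Or.inl b
  · have := basic g j hg
    have e := stage_eq g k j n h1 h2 (by omega) (by omega)
    subst e; exact Or.inr (Or.inl a)
  · exact Or.inr (Or.inr ⟨m, w, key m w b.le c, b.le, c, Or.inl ⟨a, b⟩⟩)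
  · exact Or.inr (Or.inr ⟨m, m, key m m (m_le_Y g m hg) a, m_le_Y g m hg, a, Or.inr (Or.inl rfl)⟩)
  · exact Or.inr (Or.inr ⟨m, _, key m _ le_rfl b, le_rfl, b, Or.inr (Or.inr a)⟩)

lemma gap (g k n : ℕ) (hg : 2 ≤ g) (hn : mem g n) (h1 : T g k < n) (h2 : n < Y g k + M g k) :
    n = Y g k := by
  have hb := basic g k hg
  rcases classify g k n hg hn (by omega) (by omega) with h | h | ⟨m, w, e, hw, hz, _⟩
  · omega
  · exact h
  · have := Z_bounds g m w hg hw
    rw [← e] at this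
    omega

lemma peel (g i w : ℕ) (hg : 2 ≤ g) (hw : w ≤ Y g i) : ∀ r, r + 1 ≤ g → ∀ s : Multiset ℕ,
    (∀ x ∈ s, mem g x) → s.card = r + 1 → s.sum = tau g i r + w → w ∈ s := by
  intro r
  induction r with
  | zero =>
    intro _ s _ hc hs
    obtain ⟨a, rfl⟩ := Multiset.card_eq_one.mp hc
    simp [tau] at hs
    simp [hs]
  | succ r ih =>
    intro hr s hm hc hs
    have h1 := tau_lt g i r hg
    have hb := basic g (i + r + 1) hg
    simp only [tau] at hs
    have hex : ∃ x ∈ s, T g (i + r + 1) < x := by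
      by_contra hne
      push Not at hne
      have h2 := Multiset.sum_le_card_nsmul s _ hne
      rw [hc, smul_eq_mul] at h2
      have h3 : (r + 1 + 1) * T g (i + r + 1) ≤ g * T g (i + r + 1) := Nat.mul_le_mul_right _ hr
      omega
    obtain ⟨x, hx, hx2⟩ := hex
    have hx3 : x ≤ s.sum := Multiset.single_le_sum (fun _ _ => Nat.zero_le _) x hx
    have e := gap g (i + r + 1) x hg (hm x hx) hx2 (by omega)
    obtain ⟨s', rfl⟩ := Multiset.exists_cons_of_mem hx
    apply Multiset.mem_cons_of_mem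
    apply ih (by omega) s' (fun y hy => hm y (Multiset.mem_cons_of_mem hy))
    · simpa using hc
    · rw [Multiset.sum_cons] at hs; omega

lemma special (g m : ℕ) (hg : 2 ≤ g) (hm : mem g m) (s : Multiset ℕ) (hs : ∀ x ∈ s, mem g x)
    (hc : s.card = g + 1) (hsum : s.sum = N g (m + 1 + g)) : m ∈ s := by
  obtain ⟨k, hk⟩ : ∃ k, k = m + 1 + g := ⟨_, rfl⟩
  have hb := basic g k hg
  rw [← hk] at hsum
  have hex : ∃ x ∈ s, Y g k < x := by
    by_contra hne
    push Not at hne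
    by_cases hy : Y g k ∈ s
    · obtain ⟨s', rfl⟩ := Multiset.exists_cons_of_mem hy
      rw [Multiset.sum_cons] at hsum
      have hle : ∀ x ∈ s', x ≤ T g k := by
        intro x hx
        by_contra hlt
        push Not at hlt
        have h1 := hne x (Multiset.mem_cons_of_mem hx)
        have e := gap g k x hg (hs x (Multiset.mem_cons_of_mem hx)) hlt (by omega)
        obtain ⟨s2, rfl⟩ := Multiset.exists_cons_of_mem hx
        have hc2 : s2.card = g - 1 := by simp at hc; omega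
        obtain ⟨y, hy⟩ : ∃ y, y ∈ s2 := Multiset.card_pos_iff_exists_mem.mp (by omega)
        rw [Multiset.sum_cons] at hsum
        omega
      have h2 := Multiset.sum_le_card_nsmul s' _ hle
      have hc2 : s'.card = g := by simpa using hc
      rw [hc2, smul_eq_mul] at h2
      omega
    · have hle : ∀ x ∈ s, x ≤ T g k := by
        intro x hx
        by_contra hlt
        push Not at hlt
        have h1 := hne x hx
        have e := gap g k x hg (hs x hx) hlt (by omega)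
        exact hy (e ▸ hx)
      have h2 := Multiset.sum_le_card_nsmul s _ hle
      rw [hc, smul_eq_mul, add_mul] at h2
      omega
  obtain ⟨x, hx, hx2⟩ := hex
  have hx3 : x ≤ s.sum := Multiset.single_le_sum (fun _ _ => Nat.zero_le _) x hx
  rcases classify g k x hg (hs x hx) (by omega) (by omega) with h | h | ⟨m', w, e, hw, hz, hcase⟩
  · omega
  · omega
  have em : m' = m := by omega
  subst em
  have hz2 := Z_bounds g m' w hg hw
  rw [← hk] at hz2
  obtain ⟨s', rfl⟩ := Multiset.exists_cons_of_mem hx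
  rw [Multiset.sum_cons] at hsum
  have hw2 : w ∈ s' := peel g (m' + 1) w hg hw (g - 1) (by omega) s'
    (fun y hy => hs y (Multiset.mem_cons_of_mem hy)) (by simp at hc; omega) (by omega)
  rcases hcase with ⟨a, b⟩ | a | a
  · exfalso
    have b1 := basic g (m' + 1) hg
    have b2 := basic g m' hg
    have := gap g (m' + 1) w hg (hs w (Multiset.mem_cons_of_mem hw2)) (by omega) (by omega)
    omega
  · exact Multiset.mem_cons_of_mem (a ▸ hw2)
  · exact absurd hm a

lemma interval_rep (a b : ℕ) (hab : a ≤ b) : ∀ r n : ℕ, r * a ≤ n → n ≤ r * b →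
    ∃ s : Multiset ℕ, s.card = r ∧ s.sum = n ∧ ∀ x ∈ s, a ≤ x ∧ x ≤ b := by
  intro r
  induction r with
  | zero => intro n _ h; exact ⟨0, rfl, by simp; omega, by simp⟩
  | succ r ih =>
    intro n h1 h2
    rw [add_mul, one_mul] at h1 h2
    have h3 : r * a ≤ r * b := Nat.mul_le_mul_left _ hab
    obtain ⟨x, x1, x2, x3, x4⟩ : ∃ x, a ≤ x ∧ x ≤ b ∧ r * a + x ≤ n ∧ n ≤ r * b + x := by
      by_cases h : n ≤ r * b + a
      · exact ⟨a, le_rfl, hab, by omega, h⟩
      · exact ⟨n - r * b, by omega, by omega, by omega, by omega⟩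
    obtain ⟨s, s1, s2, s3⟩ := ih (n - x) (by omega) (by omega)
    refine ⟨x ::ₘ s, by simp [s1], by simp [s2]; omega, ?_⟩
    intro y hy
    rcases Multiset.mem_cons.mp hy with h | h
    · omega
    · exact s3 y h

lemma mem_I (g k n : ℕ) (h1 : M g k ≤ n) (h2 : n ≤ T g k) : mem g n := by
  rw [mem]; exact Or.inl ⟨k, h1, h2⟩

lemma mem_Y (g k : ℕ) : mem g (Y g k) := by
  rw [mem]; exact Or.inr (Or.inl ⟨k, rfl⟩)

lemma find_stage (g c n : ℕ) (hn : M g c ≤ n) : ∃ k, c ≤ k ∧ M g k ≤ n ∧ n < M g (k + 1) := by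
  induction n, hn using Nat.le_induction with
  | base => exact ⟨c, le_rfl, le_rfl, by simp only [M]; omega⟩
  | succ n _ ih =>
    obtain ⟨k, h0, h1, h2⟩ := ih
    by_cases h : n + 1 < M g (k + 1)
    · exact ⟨k, h0, by omega, h⟩
    · exact ⟨k + 1, by omega, by omega, by rw [M]; omega⟩

lemma cluster_rep (g m w v B : ℕ) (hg : 2 ≤ g) (hw : w ≤ Y g (m + 1)) (hB : B ≤ m)
    (hz : mem g (Z g m w)) (hv : mem g v) (hvB : B ≤ v) :
    ∃ s : Multiset ℕ, s.card = g + 1 ∧ s.sum + w = N g (m + 1 + g) + v ∧ ∀ x ∈ s, mem g x ∧ B ≤ x := by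
  have hz2 := Z_bounds g m w hg hw
  have hb := basic g (m + 1 + g) hg
  refine ⟨Z g m w ::ₘ v ::ₘ ys g (m + 1) (g - 1), ?_, ?_, ?_⟩
  · simp [ys_card]; omega
  · simp [ys_sum]; omega
  · intro x hx
    simp only [Multiset.mem_cons] at hx
    rcases hx with h | h | h
    · subst h; exact ⟨hz, by omega⟩
    · subst h; exact ⟨hv, hvB⟩
    · obtain ⟨j, hj, e⟩ := ys_mem _ _ _ _ h
      subst e
      have := basic g j hg
      exact ⟨mem_Y g j, by omega⟩

lemma cover (g B n : ℕ) (hg : 2 ≤ g) (hn : M g (B + 2 + g) ≤ n) :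
    ∃ s : Multiset ℕ, s.card = g + 1 ∧ s.sum = n ∧ ∀ x ∈ s, mem g x ∧ B ≤ x := by
  obtain ⟨k, k0, k1, k2⟩ := find_stage g _ n hn
  obtain ⟨m, rfl⟩ : ∃ m, k = m + 1 + g + 1 := ⟨k - 2 - g, by omega⟩
  have hB : B ≤ m := by omega
  have b0 := basic g m hg
  have b1 := basic g (m + 1) hg
  have b2 := basic g (m + 1 + g) hg
  have b3 := basic g (m + 1 + g + 1) hg
  by_cases c1 : n ≤ N g (m + 1 + g) + g * M g m
  · have hz : mem g (Z g m (Y g (m + 1) - (n - N g (m + 1 + g)))) := by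
      rw [mem]
      exact Or.inr (Or.inr (Or.inl ⟨m, _, by omega, by omega, rfl⟩))
    obtain ⟨s, s1, s2, s3⟩ := cluster_rep g m _ (Y g (m + 1)) B hg (by omega) hB hz (mem_Y _ _) (by omega)
    exact ⟨s, s1, by omega, s3⟩
  by_cases c2 : n ≤ T g (m + 1 + g + 1)
  · refine ⟨(n - g * M g m) ::ₘ Multiset.replicate g (M g m), by simp, by simp; omega, ?_⟩
    intro x hx
    rcases Multiset.mem_cons.mp hx with h | h
    · subst h; exact ⟨mem_I g (m + 1 + g + 1) _ (by omega) (by omega), by omega⟩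
    · rw [Multiset.eq_of_mem_replicate h]
      exact ⟨mem_I g m _ le_rfl (by omega), by omega⟩
  by_cases c3 : n ≤ (g + 1) * T g (m + 1 + g + 1)
  · obtain ⟨s, s1, s2, s3⟩ := interval_rep (M g (m + 1 + g + 1)) (T g (m + 1 + g + 1)) (by omega)
      (g + 1) n (by rw [add_mul]; omega) c3
    exact ⟨s, s1, s2, fun x hx => ⟨mem_I g _ x (s3 x hx).1 (s3 x hx).2, by have := (s3 x hx).1; omega⟩⟩
  rw [add_mul, one_mul] at c3
  by_cases c4 : n < N g (m + 1 + g + 1)
  · obtain ⟨s, s1, s2, s3⟩ := interval_rep (M g (m + 1 + g + 1)) (T g (m + 1 + g + 1)) (by omega)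
      g (n - Y g (m + 1 + g + 1)) (by omega) (by omega)
    refine ⟨Y g (m + 1 + g + 1) ::ₘ s, by simp [s1], by simp [s2]; omega, ?_⟩
    intro x hx
    rcases Multiset.mem_cons.mp hx with h | h
    · subst h; exact ⟨mem_Y _ _, by omega⟩
    · exact ⟨mem_I g _ x (s3 x h).1 (s3 x h).2, by have := (s3 x h).1; omega⟩
  have e : n = N g (m + 1 + 1 + g) := by rw [show m + 1 + 1 + g = m + 1 + g + 1 by ring]; omega
  by_cases c5 : mem g (m + 1)
  · have hz : mem g (Z g (m + 1) (m + 1)) := by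
      rw [mem]
      exact Or.inr (Or.inr (Or.inr (Or.inl ⟨m + 1, rfl⟩)))
    obtain ⟨s, s1, s2, s3⟩ := cluster_rep g (m + 1) (m + 1) (m + 1) B hg (m_le_Y _ _ hg) (by omega) hz c5 (by omega)
    exact ⟨s, s1, by omega, s3⟩
  · have hz2 := Z_bounds g (m + 1) _ hg le_rfl
    have b4 := basic g (m + 1 + 1 + g) hg
    have b5 := basic g (m + 1 + 1) hg
    have hz : mem g (Z g (m + 1) (Y g (m + 1 + 1))) := by
      rw [mem]
      exact Or.inr (Or.inr (Or.inr (Or.inr ⟨⟨m + 1, by omega⟩, c5, rfl⟩)))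
    obtain ⟨s, s1, s2, s3⟩ := cluster_rep g (m + 1) _ (Y g (m + 1 + 1)) B hg le_rfl (by omega) hz (mem_Y _ _) (by omega)
    exact ⟨s, s1, by omega, s3⟩

lemma to_fun (h : ℕ) (s : Multiset ℕ) (hc : s.card = h) :
    ∃ f : Fin h → ℕ, (∀ i, f i ∈ s) ∧ ∑ i, f i = s.sum := by
  induction s using Quotient.inductionOn with
  | _ l =>
    simp only [Multiset.quot_mk_to_coe, Multiset.coe_card] at hc
    subst hc
    refine ⟨fun i => l.get i, fun i => by simp, ?_⟩
    simp only [Multiset.quot_mk_to_coe, Multiset.sum_coe]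
    rw [← List.sum_ofFn, List.ofFn_get]

theorem result :
    ∀ h : ℕ, 3 ≤ h →
      ∃ A : Set ℕ,
        (∃ N : ℕ, ∀ n : ℕ, N ≤ n →
          ∃ f : Fin h → ℕ, (∀ i, f i ∈ A) ∧ ∑ i, f i = n) ∧
        ∀ S : Set ℕ, S ⊆ A →
          ((∃ N : ℕ, ∀ n : ℕ, N ≤ n →
              ∃ f : Fin h → ℕ, (∀ i, f i ∈ A \ S) ∧ ∑ i, f i = n) ↔ S.Finite) := by
  intro h hh
  obtain ⟨g, rfl⟩ : ∃ g, h = g + 1 := ⟨h - 1, by omega⟩
  have hg : 2 ≤ g := by omega
  refine ⟨{n | mem g n}, ⟨M g (0 + 2 + g), fun n hn => ?_⟩, fun S hS => ⟨?_, ?_⟩⟩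
  · obtain ⟨s, s1, s2, s3⟩ := cover g 0 n hg hn
    obtain ⟨f, f1, f2⟩ := to_fun _ s s1
    exact ⟨f, fun i => (s3 _ (f1 i)).1, by omega⟩
  · rintro ⟨N0, hN⟩
    by_contra hinf
    obtain ⟨m, hm, hlt⟩ := Set.Infinite.exists_gt hinf N0
    have b := basic g (m + 1 + g) hg
    obtain ⟨f, f1, f2⟩ := hN (N g (m + 1 + g)) (by omega)
    have := special g m hg (hS hm) (Finset.univ.val.map f) (by
      intro x hx
      obtain ⟨i, _, rfl⟩ := Multiset.mem_map.mp hx
      exact (f1 i).1) (by simp) f2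
    obtain ⟨i, _, e⟩ := Multiset.mem_map.mp this
    exact (f1 i).2 (e ▸ hm)
  · intro hfin
    obtain ⟨B, hB⟩ := hfin.bddAbove
    refine ⟨M g (B + 1 + 2 + g), fun n hn => ?_⟩
    obtain ⟨s, s1, s2, s3⟩ := cover g (B + 1) n hg hn
    obtain ⟨f, f1, f2⟩ := to_fun _ s s1
    refine ⟨f, fun i => ⟨(s3 _ (f1 i)).1, fun hi => ?_⟩, by omega⟩
    have := hB hi
    have := (s3 _ (f1 i)).2
    omega

end Pool.Agent.S16631
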