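import Pool.Statements.S16913
import Pool.Agent.H.MP_4f8442_nt.C

set_option autoImplicit false
open Filter
open Pool Pool.MP_4f8442_nt

namespace Pool.Agent.S16913

theorem result :
    ∃ f : ℕ → ℕ, ∀ (A : Set ℕ) (h : ℕ),
      (∀ᶠ n in atTop, ∃ s : Multiset ℕ,
          Multiset.card s ≤ h ∧ (∀ x ∈ s, x ∈ A) ∧ s.sum = n) →
      (∃ t : ℕ, ∀ᶠ n in atTop, ∃ s : Finset ℕ,
          (↑s : Set ℕ) ⊆ A ∧ s.card ≤ t ∧ ∑ x ∈ s, x = n) →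
      ∀ᶠ n in atTop, ∃ s : Finset ℕ,
          (↑s : Set ℕ) ⊆ A ∧ s.card ≤ f h ∧ ∑ x ∈ s, x = n := by
  classical
  choose f hf using H.MP_4f8442_nt.core
  refine ⟨f, fun A h a ⟨t, b⟩ => hf h A a fun q _ => b.mono fun n ⟨s, c, _, d⟩ =>
    ⟨s.filter (¬q ∣ ·), fun x e => ⟨c (Finset.mem_filter.1 e).1, (Finset.mem_filter.1 e).2⟩, ?_⟩⟩
  rw [← d, ← Finset.sum_filter_add_sum_filter_not s (q ∣ ·), add_comm]
  exact (Nat.modEq_iff_dvd' (Nat.le_add_right ..)).2 (by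
    rw [Nat.add_sub_cancel_left]
    exact Finset.dvd_sum fun x e => (Finset.mem_filter.1 e).2)

end Pool.Agent.S16913
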