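import Pool.Statements.S16992
import Pool.Agent.H.MP_559555_nt.E

set_option autoImplicit false
open Pool Pool.MP_559555_nt

namespace Pool.Agent.S16992

theorem result :
    ¬ (Filter.Tendsto
      (fun x : ℕ =>
        (((Finset.Icc 1 x).image
            (fun n : ℕ => ∑ p ∈ n.primeFactors, n / p ^ (n.factorization p))).card : ℝ)
          / (x : ℝ))
      Filter.atTop (nhds 0)) := by
  intro h
  obtain ⟨c, hc, t0, h1⟩ := Pool.Agent.H.MP_559555_nt.main
  obtain ⟨x0, hx0⟩ := Filter.eventually_atTop.mp (h.eventually (gt_mem_nhds hc))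
  have h2 : x0 ≤ 2 ^ (200 * (t0 + x0)) :=
    le_trans (by omega) (Nat.lt_two_pow_self (n := 200 * (t0 + x0))).le
  have h3 := hx0 _ h2
  have h4 := h1 (t0 + x0) (by omega)
  rw [div_lt_iff₀ (by positivity)] at h3
  push_cast at h3
  exact absurd h4 (not_le.mpr h3)

end Pool.Agent.S16992
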