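import Pool.Statements.S16995
import Pool.Agent.H.MP_55e671_nt.C

set_option autoImplicit false
open Pool Pool.MP_55e671_nt

namespace Pool.Agent.S16995

theorem result :
    ∀ A : Set (ℕ × ℕ),
      (∃ ε : ℝ, 0 < ε ∧ ∀ N : ℕ, ∃ a b m n : ℕ, N ≤ m ∧ N ≤ n ∧
        ε * ((m : ℝ) * (n : ℝ)) ≤
          (({p : ℕ × ℕ | p ∈ A ∧ a ≤ p.1 ∧ p.1 < a + m ∧ b ≤ p.2 ∧ p.2 < b + n}.ncard : ℕ) : ℝ)) →
      ∃ H : AddSubgroup ℤ, H ≠ ⊥ ∧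
        ∀ z ∈ H, ∃ p ∈ A, ∃ q ∈ A,
          (((p.1 : ℤ) - (q.1 : ℤ)) * ((p.2 : ℤ) - (q.2 : ℤ))) = z := by
  rintro A ⟨ε, hε, hA⟩
  by_contra hcon
  push Not at hcon
  have h : ∀ k : ℕ, ∃ w : ℤ, ∀ p ∈ A, ∀ q ∈ A,
      ((p.1 : ℤ) - (q.1 : ℤ)) * ((p.2 : ℤ) - (q.2 : ℤ)) ≠ w * (k.factorial : ℤ) ^ 2 := by
    intro k
    have h0 : AddSubgroup.zmultiples ((k.factorial : ℤ) ^ 2) ≠ ⊥ := by
      rw [Ne, AddSubgroup.zmultiples_eq_bot]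
      positivity
    obtain ⟨z, hz, hz'⟩ := hcon _ h0
    obtain ⟨w, rfl⟩ := AddSubgroup.mem_zmultiples_iff.1 hz
    exact ⟨w, by simpa using hz'⟩
  choose w hw using h
  exact Pool.Agent.H.MP_55e671_nt.main A ε hε hA w hw

end Pool.Agent.S16995
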