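import Pool.Statements.S17002
import Pool.Agent.Lib.helper9.Pratt

set_option autoImplicit false
open Pool Pool.MP_560dd7_nt

namespace Pool.Agent.S17002

open Pool.Agent.Lib.helper9.Pratt

theorem p1 : Nat.Prime 39636533431608593 :=
  luc _ 3 [2, 2, 2, 2, 41, 5059, 23911, 499493]
    (List.forall_mem_cons.2 ⟨by norm_num,
      List.forall_mem_cons.2 ⟨by norm_num,
      List.forall_mem_cons.2 ⟨by norm_num,
      List.forall_mem_cons.2 ⟨by norm_num,
      List.forall_mem_cons.2 ⟨by norm_num,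
      List.forall_mem_cons.2 ⟨by norm_num,
      List.forall_mem_cons.2 ⟨by norm_num,
      List.forall_mem_cons.2 ⟨by norm_num,
      List.forall_mem_nil _⟩⟩⟩⟩⟩⟩⟩⟩)
    (by decide +kernel)

theorem p2 : Nat.Prime 16747228105523262714361 :=
  luc _ 34 [2, 2, 2, 3, 5, 7, 503, 39636533431608593]
    (List.forall_mem_cons.2 ⟨by norm_num,
      List.forall_mem_cons.2 ⟨by norm_num,
      List.forall_mem_cons.2 ⟨by norm_num,
      List.forall_mem_cons.2 ⟨by norm_num,
      List.forall_mem_cons.2 ⟨by norm_num,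
      List.forall_mem_cons.2 ⟨by norm_num,
      List.forall_mem_cons.2 ⟨by norm_num,
      List.forall_mem_cons.2 ⟨p1,
      List.forall_mem_nil _⟩⟩⟩⟩⟩⟩⟩⟩)
    (by decide +kernel)

theorem p3 : Nat.Prime 54276895434139407247582854229 :=
  luc _ 2 [2, 2, 3, 17, 15887, 16747228105523262714361]
    (List.forall_mem_cons.2 ⟨by norm_num,
      List.forall_mem_cons.2 ⟨by norm_num,
      List.forall_mem_cons.2 ⟨by norm_num,
      List.forall_mem_cons.2 ⟨by norm_num,
      List.forall_mem_cons.2 ⟨by norm_num,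
      List.forall_mem_cons.2 ⟨p2,
      List.forall_mem_nil _⟩⟩⟩⟩⟩⟩)
    (by decide +kernel)

theorem p4 : Nat.Prime 834998657 :=
  luc _ 3 [2, 2, 2, 2, 2, 2, 2, 17, 499, 769]
    (List.forall_mem_cons.2 ⟨by norm_num,
      List.forall_mem_cons.2 ⟨by norm_num,
      List.forall_mem_cons.2 ⟨by norm_num,
      List.forall_mem_cons.2 ⟨by norm_num,
      List.forall_mem_cons.2 ⟨by norm_num,
      List.forall_mem_cons.2 ⟨by norm_num,
      List.forall_mem_cons.2 ⟨by norm_num,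
      List.forall_mem_cons.2 ⟨by norm_num,
      List.forall_mem_cons.2 ⟨by norm_num,
      List.forall_mem_cons.2 ⟨by norm_num,
      List.forall_mem_nil _⟩⟩⟩⟩⟩⟩⟩⟩⟩⟩)
    (by decide +kernel)

theorem p5 : Nat.Prime 746488799359 :=
  luc _ 7 [2, 3, 149, 834998657]
    (List.forall_mem_cons.2 ⟨by norm_num,
      List.forall_mem_cons.2 ⟨by norm_num,
      List.forall_mem_cons.2 ⟨by norm_num,
      List.forall_mem_cons.2 ⟨p4,
      List.forall_mem_nil _⟩⟩⟩⟩)
    (by decide +kernel)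

theorem p6 : Nat.Prime 43296350362823 :=
  luc _ 5 [2, 29, 746488799359]
    (List.forall_mem_cons.2 ⟨by norm_num,
      List.forall_mem_cons.2 ⟨by norm_num,
      List.forall_mem_cons.2 ⟨p5,
      List.forall_mem_nil _⟩⟩⟩)
    (by decide +kernel)

theorem p7 : Nat.Prime 5998279018951962403 :=
  luc _ 3 [2, 3, 11, 17, 101, 157, 1979, 10093, 16879]
    (List.forall_mem_cons.2 ⟨by norm_num,
      List.forall_mem_cons.2 ⟨by norm_num,
      List.forall_mem_cons.2 ⟨by norm_num,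
      List.forall_mem_cons.2 ⟨by norm_num,
      List.forall_mem_cons.2 ⟨by norm_num,
      List.forall_mem_cons.2 ⟨by norm_num,
      List.forall_mem_cons.2 ⟨by norm_num,
      List.forall_mem_cons.2 ⟨by norm_num,
      List.forall_mem_cons.2 ⟨by norm_num,
      List.forall_mem_nil _⟩⟩⟩⟩⟩⟩⟩⟩⟩)
    (by decide +kernel)

theorem result :
    ¬ (∀ s : ℕ, ∀ x y : Fin s → ℕ,
      StrictMono x → (∀ i, 1 < x i) → (∀ i, Nat.Prime (x i)) →
      (∑ i, (1 : ℚ) / (x i : ℚ)) + 1 / (∏ i, (x i : ℚ)) = 1 →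
      StrictMono y → (∀ i, 1 < y i) → (∀ i, Nat.Prime (y i)) →
      (∑ i, (1 : ℚ) / (y i : ℚ)) + 1 / (∏ i, (y i : ℚ)) = 1 →
      x = y) := by
  intro h
  have := h 10 ![2, 3, 7, 61, 167, 733, 17137, 183571, 43296350362823, 54276895434139407247582854229]
    ![2, 3, 11, 17, 101, 157, 1979, 10093, 16879, 5998279018951962403]
    (by decide +kernel) (by decide +kernel)
    (Fin.forall_fin_succ.2 ⟨(by norm_num : Nat.Prime 2),
      Fin.forall_fin_succ.2 ⟨(by norm_num : Nat.Prime 3),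
      Fin.forall_fin_succ.2 ⟨(by norm_num : Nat.Prime 7),
      Fin.forall_fin_succ.2 ⟨(by norm_num : Nat.Prime 61),
      Fin.forall_fin_succ.2 ⟨(by norm_num : Nat.Prime 167),
      Fin.forall_fin_succ.2 ⟨(by norm_num : Nat.Prime 733),
      Fin.forall_fin_succ.2 ⟨(by norm_num : Nat.Prime 17137),
      Fin.forall_fin_succ.2 ⟨(by norm_num : Nat.Prime 183571),
      Fin.forall_fin_succ.2 ⟨p6,
      Fin.forall_fin_succ.2 ⟨p3,
      fun i => i.elim0⟩⟩⟩⟩⟩⟩⟩⟩⟩⟩)
    (by decide +kernel) (by decide +kernel) (by decide +kernel)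
    (Fin.forall_fin_succ.2 ⟨(by norm_num : Nat.Prime 2),
      Fin.forall_fin_succ.2 ⟨(by norm_num : Nat.Prime 3),
      Fin.forall_fin_succ.2 ⟨(by norm_num : Nat.Prime 11),
      Fin.forall_fin_succ.2 ⟨(by norm_num : Nat.Prime 17),
      Fin.forall_fin_succ.2 ⟨(by norm_num : Nat.Prime 101),
      Fin.forall_fin_succ.2 ⟨(by norm_num : Nat.Prime 157),
      Fin.forall_fin_succ.2 ⟨(by norm_num : Nat.Prime 1979),
      Fin.forall_fin_succ.2 ⟨(by norm_num : Nat.Prime 10093),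
      Fin.forall_fin_succ.2 ⟨(by norm_num : Nat.Prime 16879),
      Fin.forall_fin_succ.2 ⟨p7,
      fun i => i.elim0⟩⟩⟩⟩⟩⟩⟩⟩⟩⟩)
    (by decide +kernel)
  exact absurd (congrFun this 2) (by decide)

end Pool.Agent.S17002
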