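import Pool.Statements.S17050

set_option autoImplicit false
open Pool Pool.MP_59b56e_nt
open Polynomial

namespace Pool.Agent.S17050

theorem int_of_sq (x : ℚ) (n : ℤ) (h : x ^ 2 = n) : ∃ k : ℤ, x = k := by
  have : IsSquare (n : ℚ) := ⟨x, by rw [← h]; ring⟩
  obtain ⟨k, hk⟩ := Rat.isSquare_intCast_iff.1 this
  have h2 : x ^ 2 = (k : ℚ) ^ 2 := by rw [h, hk]; push_cast; ring
  rcases sq_eq_sq_iff_eq_or_eq_neg.1 h2 with h3 | h3
  · exact ⟨k, h3⟩
  · exact ⟨-k, by rw [h3]; push_cast; rfl⟩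

theorem cop (s : ℚ) : IsCoprime s.num (s.den : ℤ) := by
  rw [Int.isCoprime_iff_gcd_eq_one]
  exact s.reduced

theorem num_eq (s : ℚ) : (s.num : ℚ) = s * (s.den : ℚ) := by
  rw [Rat.mul_den_eq_num]

/-- the square class of the first coordinate of a point on `y^2 = u (u^2 + A u + B)` -/
theorem cls (A B : ℤ) (u y : ℚ) (hu : u ≠ 0) (h : y ^ 2 = u * (u ^ 2 + A * u + B)) :
    ∃ (d d' M e N : ℤ) (s : ℚ), Squarefree d ∧ d * d' = B ∧ u = d * s ^ 2 ∧ IsCoprime M e ∧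
      N ^ 2 = d * M ^ 4 + A * M ^ 2 * e ^ 2 + d' * e ^ 4 := by
  obtain ⟨a, k, hk, hsq⟩ := Nat.sq_mul_squarefree (u.num * u.den).natAbs
  obtain ⟨d, hd, hdsq⟩ : ∃ d : ℤ, u.num * u.den = d * (k : ℤ) ^ 2 ∧ Squarefree d := by
    rcases Int.natAbs_eq (u.num * u.den) with h1 | h1
    · refine ⟨a, by rw [h1, ← hk]; push_cast; ring, Int.squarefree_natCast.2 hsq⟩
    · refine ⟨-a, by rw [h1, ← hk]; push_cast; ring, ?_⟩
      rw [← Int.squarefree_natAbs]; simpa using hsq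
  have hden : (u.den : ℚ) ≠ 0 := by exact_mod_cast u.den_nz
  set s : ℚ := k / u.den with hs
  have hus : u = d * s ^ 2 := by
    have h1 : (u.num : ℚ) * u.den = d * (k : ℚ) ^ 2 := by exact_mod_cast hd
    rw [num_eq] at h1
    rw [hs]; field_simp; linarith
  have hs0 : s ≠ 0 := by
    intro h0; apply hu; rw [hus, h0]; ring
  have hd0 : d ≠ 0 := hdsq.ne_zero
  have hco := cop s
  have hM := num_eq s
  obtain ⟨M, e, hco, hM⟩ : ∃ M e : ℤ, IsCoprime M e ∧ (M : ℚ) = s * e :=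
    ⟨s.num, (s.den : ℤ), hco, by rw [hM]; push_cast; rfl⟩
  have h1 : (y * e ^ 2 / s) ^ 2 = ((d * (d ^ 2 * M ^ 4 + A * d * M ^ 2 * e ^ 2 + B * e ^ 4) : ℤ) : ℚ) := by
    push_cast
    rw [hM, div_pow, mul_pow, h, hus]
    field_simp
  obtain ⟨N0, hN0⟩ := int_of_sq _ _ h1
  rw [hN0] at h1
  have h2 : N0 ^ 2 = d * (d ^ 2 * M ^ 4 + A * d * M ^ 2 * e ^ 2 + B * e ^ 4) := by exact_mod_cast h1
  obtain ⟨N, hN⟩ : d ∣ N0 := (hdsq.dvd_pow_iff_dvd two_ne_zero).1 ⟨_, h2⟩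
  have h3 : d * N ^ 2 = d ^ 2 * M ^ 4 + A * d * M ^ 2 * e ^ 2 + B * e ^ 4 := by
    apply mul_left_cancel₀ hd0
    rw [← h2, hN]; ring
  have hde : IsCoprime d e := by
    apply isCoprime_of_prime_dvd
    · rintro ⟨h0, -⟩; exact hd0 h0
    · rintro p hp ⟨d1, hd1⟩ ⟨e1, he1⟩
      have hp0 := hp.ne_zero
      have hnd : ¬ p ∣ d1 := by
        rintro ⟨d2, hd2⟩
        exact hp.not_unit (hdsq p ⟨d2, by rw [hd1, hd2]; ring⟩)
      have h4 : d1 * N ^ 2 = p * (d1 ^ 2 * M ^ 4 + A * p * d1 * M ^ 2 * e1 ^ 2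
          + B * p ^ 2 * e1 ^ 4) := by
        apply mul_left_cancel₀ hp0
        rw [hd1, he1] at h3
        linear_combination h3
      have h5 : p ∣ N := by
        rcases hp.dvd_or_dvd (⟨_, h4⟩ : p ∣ d1 * N ^ 2) with h | h
        · exact absurd h hnd
        · exact hp.dvd_of_dvd_pow h
      obtain ⟨N1, hN1⟩ := h5
      have h6 : d1 ^ 2 * M ^ 4 = p * (d1 * N1 ^ 2 - A * d1 * M ^ 2 * e1 ^ 2
          - B * p * e1 ^ 4) := by
        apply mul_left_cancel₀ hp0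
        rw [hN1] at h4
        linear_combination -h4
      have h7 : p ∣ M := by
        rcases hp.dvd_or_dvd (⟨_, h6⟩ : p ∣ d1 ^ 2 * M ^ 4) with h | h
        · exact absurd (hp.dvd_of_dvd_pow h) hnd
        · exact hp.dvd_of_dvd_pow h
      exact hp.not_unit (hco.isUnit_of_dvd' h7 ⟨e1, he1⟩)
  have h8 : d ∣ B * e ^ 4 := ⟨N ^ 2 - d * M ^ 4 - A * M ^ 2 * e ^ 2, by linear_combination -h3⟩
  obtain ⟨d', hd'⟩ := (hde.pow_right (n := 4)).dvd_of_dvd_mul_right h8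
  refine ⟨d, d', M, e, N, s, hdsq, hd'.symm, hus, hco, ?_⟩
  apply mul_left_cancel₀ hd0
  rw [h3, hd']; ring

/-- local obstruction modulo `q` -/
theorem loc (q l mask : ℕ) (d A c : ℤ) (hq : 0 < q) (hl : l ∣ q) (hl1 : 1 < l)
    (h1 : ∀ N < q, mask.testBit (N * N % q) = true)
    (h2 : ∀ M < q, ∀ e < q, (M % l = 0 ∧ e % l = 0) ∨
      mask.testBit (((d * (M : ℤ) ^ 4 + A * (M : ℤ) ^ 2 * (e : ℤ) ^ 2 + c * (e : ℤ) ^ 4)
        % (q : ℤ)).toNat) = false)
    (M e N : ℤ) (hco : IsCoprime M e) : N ^ 2 ≠ d * M ^ 4 + A * M ^ 2 * e ^ 2 + c * e ^ 4 := by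
  intro h
  have hq' : (0 : ℤ) < q := by exact_mod_cast hq
  have red : ∀ x : ℤ, ∃ n : ℕ, n < q ∧ (n : ℤ) ≡ x [ZMOD q] := by
    intro x
    refine ⟨(x % q).toNat, ?_, ?_⟩
    · have := Int.emod_lt_of_pos x hq'
      have := Int.emod_nonneg x hq'.ne'
      omega
    · rw [Int.toNat_of_nonneg (Int.emod_nonneg x hq'.ne')]
      exact Int.mod_modEq x q
  obtain ⟨m, hm, hm'⟩ := red M
  obtain ⟨f, hf, hf'⟩ := red e
  obtain ⟨n, hn, hn'⟩ := red N
  rcases h2 m hm f hf with ⟨a1, a2⟩ | h3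
  · have hl' : (l : ℤ) ∣ q := by exact_mod_cast hl
    have b1 : (l : ℤ) ∣ m := by exact_mod_cast Nat.dvd_of_mod_eq_zero a1
    have b2 : (l : ℤ) ∣ f := by exact_mod_cast Nat.dvd_of_mod_eq_zero a2
    have c1 : (l : ℤ) ∣ M := by
      have := (hl'.trans hm'.dvd).add b1
      simpa using this
    have c2 : (l : ℤ) ∣ e := by
      have := (hl'.trans hf'.dvd).add b2
      simpa using this
    have := hco.isUnit_of_dvd' c1 c2
    rw [Int.isUnit_iff] at this
    omega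
  · have e1 : d * (m : ℤ) ^ 4 + A * (m : ℤ) ^ 2 * (f : ℤ) ^ 2 + c * (f : ℤ) ^ 4
        ≡ (n : ℤ) * n [ZMOD q] := by
      have e2 : (n : ℤ) * n ≡ N ^ 2 [ZMOD q] := by rw [sq]; exact hn'.mul hn'
      refine Int.ModEq.trans ?_ e2.symm
      rw [h]
      exact (((hm'.pow 4).mul_left d).add (((hm'.pow 2).mul_left A).mul (hf'.pow 2))).add
        ((hf'.pow 4).mul_left c)
    have e3 : ((d * (m : ℤ) ^ 4 + A * (m : ℤ) ^ 2 * (f : ℤ) ^ 2 + c * (f : ℤ) ^ 4)
        % (q : ℤ)).toNat = n * n % q := by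
      rw [e1]
      have : ((n : ℤ) * n) % (q : ℤ) = ((n * n % q : ℕ) : ℤ) := by push_cast; rfl
      rw [this, Int.toNat_natCast]
    rw [e3, h1 n hn] at h3
    exact absurd h3 (by simp)

theorem selE (u y : ℚ) (hu : u ≠ 0)
    (h : y ^ 2 = u * (u ^ 2 + (-72579 : ℤ) * u + (1125000000 : ℤ))) :
    ∃ s : ℚ, u = s ^ 2 ∨ u = 5 * s ^ 2 := by
  obtain ⟨d, d', M, e, N, s, hsq, hdd, hus, hco, hN⟩ := cls _ _ u y hu h
  have hd30 : d ∣ 30 := by
    have : d ∣ (30 : ℤ) ^ 9 := (Dvd.intro _ hdd).trans (by norm_num)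
    exact (hsq.dvd_pow_iff_dvd (by norm_num)).1 this
  have hdpos : 0 < d := by
    by_contra hneg
    have hd : d < 0 := lt_of_le_of_ne (not_lt.1 hneg) hsq.ne_zero
    have hd' : d' < 0 := by nlinarith
    have hne : M ≠ 0 ∨ e ≠ 0 := by
      by_contra hc
      push Not at hc
      rw [hc.1, hc.2] at hco
      exact not_isCoprime_zero_zero hco
    have p1 : 0 ≤ M ^ 4 := by positivity
    have p2 : 0 ≤ e ^ 4 := by positivity
    have p3 : 0 ≤ M ^ 2 * e ^ 2 := by positivity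
    have p4 : 0 ≤ N ^ 2 := by positivity
    rcases hne with h0 | h0
    · have : 0 < M ^ 4 := by positivity
      nlinarith
    · have : 0 < e ^ 4 := by positivity
      nlinarith
  have hle : d ≤ 30 := Int.le_of_dvd (by norm_num) hd30
  have hc : d = 1 ∨ d = 5 ∨ d = 2 ∨ d = 10 ∨ d = 3 ∨ d = 6 ∨ d = 15 ∨ d = 30 := by
    interval_cases d <;> simp_all
  rcases hc with rfl | rfl | rfl | rfl | rfl | rfl | rfl | rfl
  · exact ⟨s, Or.inl (by simpa using hus)⟩
  · exact ⟨s, Or.inr (by simpa using hus)⟩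
  · obtain rfl : d' = 562500000 := by omega
    exact absurd hN (loc 64 2 144680414395695635 _ _ _ (by norm_num) (by norm_num) (by norm_num)
      (by decide +kernel) (by decide +kernel) M e N hco)
  · obtain rfl : d' = 112500000 := by omega
    exact absurd hN (loc 64 2 144680414395695635 _ _ _ (by norm_num) (by norm_num) (by norm_num)
      (by decide +kernel) (by decide +kernel) M e N hco)
  · obtain rfl : d' = 375000000 := by omega
    exact absurd hN (loc 9 3 147 _ _ _ (by norm_num) (by norm_num) (by norm_num)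
      (by decide +kernel) (by decide +kernel) M e N hco)
  · obtain rfl : d' = 187500000 := by omega
    exact absurd hN (loc 9 3 147 _ _ _ (by norm_num) (by norm_num) (by norm_num)
      (by decide +kernel) (by decide +kernel) M e N hco)
  · obtain rfl : d' = 75000000 := by omega
    exact absurd hN (loc 9 3 147 _ _ _ (by norm_num) (by norm_num) (by norm_num)
      (by decide +kernel) (by decide +kernel) M e N hco)
  · obtain rfl : d' = 37500000 := by omega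
    exact absurd hN (loc 9 3 147 _ _ _ (by norm_num) (by norm_num) (by norm_num)
      (by decide +kernel) (by decide +kernel) M e N hco)

theorem dvd3 (p q r a b c n : ℕ) (hp : p.Prime) (hq : q.Prime) (hr : r.Prime)
    (h : n ∣ p ^ a * q ^ b * r ^ c) :
    ∃ i < a + 1, ∃ j < b + 1, ∃ k < c + 1, n = p ^ i * q ^ j * r ^ k := by
  obtain ⟨x, y, hx, hy, rfl⟩ := Nat.dvd_mul.1 h
  obtain ⟨x1, x2, hx1, hx2, rfl⟩ := Nat.dvd_mul.1 hx
  obtain ⟨i, hi, rfl⟩ := (Nat.dvd_prime_pow hp).1 hx1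
  obtain ⟨j, hj, rfl⟩ := (Nat.dvd_prime_pow hq).1 hx2
  obtain ⟨k, hk, rfl⟩ := (Nat.dvd_prime_pow hr).1 hy
  exact ⟨i, by omega, j, by omega, k, by omega, rfl⟩

theorem div2937 (n : ℕ) (h : n ∣ 2937) :
    n = 1 ∨ n = 89 ∨ n = 3 ∨ n = 11 ∨ n = 33 ∨ n = 267 ∨ n = 979 ∨ n = 2937 := by
  obtain ⟨i, hi, j, hj, k, hk, rfl⟩ := dvd3 3 11 89 1 1 1 n Nat.prime_three (by norm_num)
    (by norm_num) (by norm_num; exact h)
  interval_cases i <;> interval_cases j <;> interval_cases k <;> norm_num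

theorem l5 (d c M e N : ℤ) (hco : IsCoprime M e)
    (h2 : ∀ M < 5, ∀ e < 5, (M % 5 = 0 ∧ e % 5 = 0) ∨
      Nat.testBit 19 (((d * ((M : ℕ) : ℤ) ^ 4 + 145158 * ((M : ℕ) : ℤ) ^ 2 * ((e : ℕ) : ℤ) ^ 2
        + c * ((e : ℕ) : ℤ) ^ 4) % ((5 : ℕ) : ℤ)).toNat) = false) :
    N ^ 2 ≠ d * M ^ 4 + 145158 * M ^ 2 * e ^ 2 + c * e ^ 4 :=
  loc 5 5 19 _ _ _ (by norm_num) (by norm_num) (by norm_num) (by decide +kernel) h2 M e N hco

theorem l16 (d c M e N : ℤ) (hco : IsCoprime M e)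
    (h2 : ∀ M < 16, ∀ e < 16, (M % 2 = 0 ∧ e % 2 = 0) ∨
      Nat.testBit 531 (((d * ((M : ℕ) : ℤ) ^ 4 + 145158 * ((M : ℕ) : ℤ) ^ 2 * ((e : ℕ) : ℤ) ^ 2
        + c * ((e : ℕ) : ℤ) ^ 4) % ((16 : ℕ) : ℤ)).toNat) = false) :
    N ^ 2 ≠ d * M ^ 4 + 145158 * M ^ 2 * e ^ 2 + c * e ^ 4 :=
  loc 16 2 531 _ _ _ (by norm_num) (by norm_num) (by norm_num) (by decide +kernel) h2 M e N hco

theorem l121 (d c M e N : ℤ) (hco : IsCoprime M e)
    (h2 : ∀ M < 121, ∀ e < 121, (M % 11 = 0 ∧ e % 11 = 0) ∨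
      Nat.testBit 740263759254911624382188592437514811
        (((d * ((M : ℕ) : ℤ) ^ 4 + 145158 * ((M : ℕ) : ℤ) ^ 2 * ((e : ℕ) : ℤ) ^ 2
        + c * ((e : ℕ) : ℤ) ^ 4) % ((121 : ℕ) : ℤ)).toNat) = false) :
    N ^ 2 ≠ d * M ^ 4 + 145158 * M ^ 2 * e ^ 2 + c * e ^ 4 :=
  loc 121 11 740263759254911624382188592437514811 _ _ _ (by norm_num) (by norm_num) (by norm_num)
    (by decide +kernel) h2 M e N hco

theorem selE' (u y : ℚ) (hu : u ≠ 0)
    (h : y ^ 2 = u * (u ^ 2 + (145158 : ℤ) * u + (767711241 : ℤ))) :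
    ∃ s : ℚ, u = s ^ 2 ∨ u = 89 * s ^ 2 := by
  obtain ⟨d, d', M, e, N, s, hsq, hdd, hus, hco, hN⟩ := cls _ _ u y hu h
  have hdv : d ∣ 2937 := by
    have : d ∣ (2937 : ℤ) ^ 3 := (Dvd.intro _ hdd).trans (by norm_num)
    exact (hsq.dvd_pow_iff_dvd (by norm_num)).1 this
  have hn : d.natAbs ∣ 2937 := by
    have := Int.natAbs_dvd_natAbs.2 hdv
    simpa using this
  have hc := div2937 d.natAbs hn
  have hc' : d = 1 ∨ d = 89 ∨ d = 3 ∨ d = 11 ∨ d = 33 ∨ d = 267 ∨ d = 979 ∨ d = 2937 ∨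
      d = -1 ∨ d = -89 ∨ d = -3 ∨ d = -11 ∨ d = -33 ∨ d = -267 ∨ d = -979 ∨ d = -2937 := by
    omega
  rcases hc' with rfl | rfl | rfl | rfl | rfl | rfl | rfl | rfl | rfl | rfl | rfl | rfl | rfl |
    rfl | rfl | rfl
  · exact ⟨s, Or.inl (by simpa using hus)⟩
  · exact ⟨s, Or.inr (by simpa using hus)⟩
  · obtain rfl : d' = 255903747 := by omega
    exact absurd hN (l5 _ _ M e N hco (by decide +kernel))
  · obtain rfl : d' = 69791931 := by omega
    exact absurd hN (l16 _ _ M e N hco (by decide +kernel))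
  · obtain rfl : d' = 23263977 := by omega
    exact absurd hN (l5 _ _ M e N hco (by decide +kernel))
  · obtain rfl : d' = 2875323 := by omega
    exact absurd hN (l5 _ _ M e N hco (by decide +kernel))
  · obtain rfl : d' = 784179 := by omega
    exact absurd hN (l16 _ _ M e N hco (by decide +kernel))
  · obtain rfl : d' = 261393 := by omega
    exact absurd hN (l5 _ _ M e N hco (by decide +kernel))
  · obtain rfl : d' = -767711241 := by omega
    exact absurd hN (l16 _ _ M e N hco (by decide +kernel))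
  · obtain rfl : d' = -8625969 := by omega
    exact absurd hN (l16 _ _ M e N hco (by decide +kernel))
  · obtain rfl : d' = -255903747 := by omega
    exact absurd hN (l5 _ _ M e N hco (by decide +kernel))
  · obtain rfl : d' = -69791931 := by omega
    exact absurd hN (l121 _ _ M e N hco (by decide +kernel))
  · obtain rfl : d' = -23263977 := by omega
    exact absurd hN (l5 _ _ M e N hco (by decide +kernel))
  · obtain rfl : d' = -2875323 := by omega
    exact absurd hN (l5 _ _ M e N hco (by decide +kernel))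
  · obtain rfl : d' = -784179 := by omega
    exact absurd hN (l121 _ _ M e N hco (by decide +kernel))
  · obtain rfl : d' = -261393 := by omega
    exact absurd hN (l5 _ _ M e N hco (by decide +kernel))

/-- first half of the descent -/
theorem step1 (w z : ℚ) (h : z ^ 2 = w ^ 4 - 72579 * w ^ 2 + 1125000000) :
    ∃ s z' : ℚ, s ≠ 0 ∧ z' ^ 2 = z ^ 2 ∧ s ^ 2 = 2 * w ^ 2 - 72579 + 2 * z' := by
  have hprod : (2 * w ^ 2 - 72579 + 2 * z) * (2 * w ^ 2 - 72579 - 2 * z) = 767711241 := by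
    linear_combination (-4) * h
  have hu : 2 * w ^ 2 - 72579 + 2 * z ≠ 0 := by
    intro h0; rw [h0] at hprod; norm_num at hprod
  obtain ⟨s, hs | hs⟩ := selE' (2 * w ^ 2 - 72579 + 2 * z) (2 * w * (2 * w ^ 2 - 72579 + 2 * z)) hu
    (by push_cast; linear_combination (2 * w ^ 2 - 72579 + 2 * z) * hprod)
  · refine ⟨s, z, ?_, rfl, hs.symm⟩
    intro h0; apply hu; rw [hs, h0]; ring
  · have hs0 : s ≠ 0 := by
      intro h0; apply hu; rw [hs, h0]; ring
    refine ⟨2937 / s, -z, by positivity, by ring, ?_⟩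
    rw [hs] at hprod
    field_simp
    linear_combination (-1 / 89) * hprod

/-- second half of the descent -/
theorem step2 (w s : ℚ) (h : (2 * w * s) ^ 2 = s ^ 4 + 145158 * s ^ 2 + 767711241) :
    ∃ r w' : ℚ, r ≠ 0 ∧ w' ^ 2 = w ^ 2 ∧ 2 * r ^ 2 = s ^ 2 + 72579 + 2 * w' * s := by
  have hprod : ((s ^ 2 + 72579 + 2 * w * s) / 2) * ((s ^ 2 + 72579 - 2 * w * s) / 2)
      = 1125000000 := by
    linear_combination (-1 / 4) * h
  have hu : (s ^ 2 + 72579 + 2 * w * s) / 2 ≠ 0 := by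
    intro h0; rw [h0] at hprod; norm_num at hprod
  obtain ⟨r, hr | hr⟩ := selE ((s ^ 2 + 72579 + 2 * w * s) / 2)
    (s * ((s ^ 2 + 72579 + 2 * w * s) / 2)) hu
    (by push_cast; linear_combination ((s ^ 2 + 72579 + 2 * w * s) / 2) * hprod)
  · refine ⟨r, w, ?_, rfl, by linear_combination (-2) * hr⟩
    intro h0; apply hu; rw [hr, h0]; ring
  · have hr0 : r ≠ 0 := by
      intro h0; apply hu; rw [hr, h0]; ring
    refine ⟨15000 / r, -w, by positivity, by ring, ?_⟩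
    rw [hr] at hprod
    field_simp
    linear_combination (-2 / 5) * hprod

/-- the finite check -/
def fin (R S : ℕ) : Bool :=
  let b1 := 1125000000 / (R * R)
  let D := 767711241 + 4 * b1 * (S * S)
  let s := Nat.sqrt D
  let ok : ℕ → Bool := fun X =>
    (X % (2 * b1) != 0) || (Nat.sqrt (X / (2 * b1)) * Nat.sqrt (X / (2 * b1)) != X / (2 * b1)) ||
      (X == 0) || (R * R == 62500 * (X / (2 * b1)))
  (1125000000 % (R * R) != 0) || (s * s != D) || (ok (72579 + s) && ok (72579 - s))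

theorem fin_ok : ∀ i < 4, ∀ j < 2, ∀ k < 6, ∀ i' < 3, ∀ j' < 3, ∀ k' < 4,
    fin (2 ^ i * 3 ^ j * 5 ^ k) (3 ^ i' * 11 ^ j' * 89 ^ k') = true := by
  decide +kernel

theorem final (R S e b1 : ℕ) (he : 0 < e) (hb : R * R * b1 = 1125000000)
    (hS : S ∣ 767711241)
    (h : (S : ℤ) ^ 2 = (R : ℤ) ^ 2 - 72579 * (e : ℤ) ^ 2 + b1 * (e : ℤ) ^ 4) :
    R * R = 62500 * (e * e) := by
  have hR : R ∣ 2 ^ 3 * 3 ^ 1 * 5 ^ 5 := by
    have : R ^ 2 ∣ (2 ^ 3 * 3 ^ 1 * 5 ^ 5) ^ 2 := ⟨5 * b1, by nlinarith⟩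
    exact (Nat.pow_dvd_pow_iff two_ne_zero).1 this
  have hS' : S ∣ 3 ^ 2 * 11 ^ 2 * 89 ^ 3 := by norm_num; exact hS
  obtain ⟨i, hi, j, hj, k, hk, e1⟩ := dvd3 _ _ _ _ _ _ _ Nat.prime_two Nat.prime_three
    Nat.prime_five hR
  obtain ⟨i', hi', j', hj', k', hk', e2⟩ := dvd3 _ _ _ _ _ _ _ Nat.prime_three (by norm_num)
    (by norm_num) hS'
  have hf := fin_ok i hi j hj k hk i' hi' j' hj' k' hk'
  rw [← e1, ← e2] at hf
  have hR0 : 0 < R * R := by
    rcases Nat.eq_zero_or_pos (R * R) with h0 | h0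
    · rw [h0] at hb; omega
    · exact h0
  have hb0 : 0 < b1 := by
    rcases Nat.eq_zero_or_pos b1 with h0 | h0
    · rw [h0] at hb; omega
    · exact h0
  have q1 : 1125000000 / (R * R) = b1 := by rw [← hb]; exact Nat.mul_div_cancel_left _ hR0
  have q2 : 1125000000 % (R * R) = 0 := by rw [← hb]; exact Nat.mul_mod_right _ _
  obtain ⟨X, hX⟩ : ∃ X : ℤ, X = 2 * b1 * (e : ℤ) ^ 2 - 72579 := ⟨_, rfl⟩
  have hbz : (R : ℤ) * R * b1 = 1125000000 := by exact_mod_cast hb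
  have hD : ((767711241 + 4 * b1 * (S * S) : ℕ) : ℤ) = X ^ 2 := by
    push_cast
    rw [hX]
    linear_combination (4 * (b1 : ℤ)) * h + 4 * hbz
  have hD' : 767711241 + 4 * b1 * (S * S) = X.natAbs * X.natAbs := by
    have : ((X.natAbs * X.natAbs : ℕ) : ℤ) = X ^ 2 := by
      push_cast; rw [abs_mul_abs_self]; ring
    omega
  unfold fin at hf
  simp only [q1, q2, hD', Nat.sqrt_eq, bne_self_eq_false, Bool.false_or, Bool.and_eq_true] at hf
  have key : ∀ Y : ℕ, Y = 2 * b1 * (e * e) →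
      ((Y % (2 * b1) != 0) || (Nat.sqrt (Y / (2 * b1)) * Nat.sqrt (Y / (2 * b1)) != Y / (2 * b1)) ||
      (Y == 0) || (R * R == 62500 * (Y / (2 * b1)))) = true → R * R = 62500 * (e * e) := by
    intro Y hY hh
    have y1 : Y % (2 * b1) = 0 := by rw [hY]; exact Nat.mul_mod_right _ _
    have y2 : Y / (2 * b1) = e * e := by rw [hY]; exact Nat.mul_div_cancel_left _ (by omega)
    have y3 : Y ≠ 0 := by rw [hY]; positivity
    simpa [y1, y2, y3, Nat.sqrt_eq] using hh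
  have hXe : ((2 * b1 * (e * e) : ℕ) : ℤ) = X + 72579 := by
    push_cast; rw [hX]; ring
  rcases Int.natAbs_eq X with h1 | h1
  · exact key _ (by omega) hf.1
  · exact key _ (by omega) hf.2

theorem descent : ∀ (e : ℕ) (w z : ℚ), w.den = e →
    z ^ 2 = w ^ 4 - 72579 * w ^ 2 + 1125000000 → w ^ 2 = 62500 := by
  intro e
  induction e using Nat.strong_induction_on with
  | _ e ih =>
    intro w z hw h
    have he : 0 < e := hw ▸ w.den_pos
    have he' : (0 : ℚ) < e := by exact_mod_cast he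
    obtain ⟨s, z', hs0, hz', hs⟩ := step1 w z h
    rw [← hz'] at h
    obtain ⟨r, w', hr0, hw', hr⟩ := step2 w s (by
      linear_combination (4 * w ^ 2 - s ^ 2 - (2 * w ^ 2 - 72579 + 2 * z') - 145158) * hs
        - 4 * h)
    have hs' : s ^ 2 = 2 * w' ^ 2 - 72579 + 2 * z' := by rw [hw']; exact hs
    have h' : z' ^ 2 = w' ^ 4 - 72579 * w' ^ 2 + 1125000000 := by
      have : w' ^ 4 = w ^ 4 := by
        calc w' ^ 4 = (w' ^ 2) ^ 2 := by ring
          _ = w ^ 4 := by rw [hw']; ring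
      rw [this, hw']; exact h
    have hsw : (2 * w' * s) ^ 2 = s ^ 4 + 145158 * s ^ 2 + 767711241 := by
      linear_combination (4 * w' ^ 2 - s ^ 2 - (2 * w' ^ 2 - 72579 + 2 * z') - 145158) * hs'
        - 4 * h'
    have k1 : r ^ 4 - 1125000000 = 2 * w' * s * r ^ 2 := by
      linear_combination (1 / 4 * (2 * r ^ 2 + s ^ 2 + 72579 + 2 * w' * s) - 2 * w' * s / 2
        - w' * s * 0) * hr - (1 / 4) * hsw
    have k2 : (r * s) ^ 2 = r ^ 4 - 72579 * r ^ 2 + 1125000000 := by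
      linear_combination (-r ^ 2) * hr + k1
    suffices hr2 : r ^ 2 = 62500 by
      have s2 : s ^ 2 = 7921 := by
        have : 62500 * s ^ 2 = 62500 * 7921 := by
          linear_combination k2 + (r ^ 2 + 62500 - 72579 - s ^ 2) * hr2
        linarith
      have ws : w' * s = 22250 := by linear_combination (-1 / 2) * hr + hr2 - (1 / 2) * s2
      have : 7921 * w' ^ 2 = 7921 * 62500 := by
        linear_combination (w' * s + 22250) * ws - w' ^ 2 * s2
      rw [← hw']; linarith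
    have hm := num_eq w
    rw [hw] at hm
    obtain ⟨m, hm'⟩ : ∃ m : ℤ, w' * e = m :=
      int_of_sq _ (w.num ^ 2) (by push_cast; rw [hm, mul_pow, mul_pow, hw'])
    obtain ⟨n, hn⟩ : ∃ n : ℤ, z' * e ^ 2 = n :=
      int_of_sq _ (m ^ 4 - 72579 * m ^ 2 * e ^ 2 + 1125000000 * e ^ 4) (by
        push_cast; rw [← hm']; linear_combination (e : ℚ) ^ 4 * h')
    obtain ⟨σ, hσ⟩ : ∃ n : ℤ, s * e = n :=
      int_of_sq _ (2 * m ^ 2 - 72579 * e ^ 2 + 2 * n) (by
        push_cast; rw [← hm', ← hn]; linear_combination (e : ℚ) ^ 2 * hs')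
    obtain ⟨ρ2, hρ2⟩ : ∃ n : ℤ, 2 * r * e = n :=
      int_of_sq _ (2 * (σ ^ 2 + 72579 * e ^ 2 + 2 * m * σ)) (by
        push_cast; rw [← hm', ← hσ]; linear_combination 2 * (e : ℚ) ^ 2 * hr)
    obtain ⟨ρ, hρ⟩ : ∃ n : ℤ, r * e = n := by
      have h1 : (ρ2 : ℚ) ^ 2 = 2 * (σ ^ 2 + 72579 * e ^ 2 + 2 * m * σ) := by
        rw [← hρ2, ← hm', ← hσ]; linear_combination 2 * (e : ℚ) ^ 2 * hr
      have h2 : ρ2 ^ 2 = 2 * (σ ^ 2 + 72579 * e ^ 2 + 2 * m * σ) := by exact_mod_cast h1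
      obtain ⟨t, ht⟩ : (2 : ℤ) ∣ ρ2 := Int.prime_two.dvd_of_dvd_pow ⟨_, h2⟩
      refine ⟨t, ?_⟩
      have : (ρ2 : ℚ) = 2 * t := by exact_mod_cast ht
      linarith
    have hre : r = (ρ : ℚ) / ((e : ℤ) : ℚ) := by
      push_cast; rw [← hρ]; field_simp
    have hden : r.den ∣ e := by
      have := Rat.den_dvd ρ e
      rw [Rat.divInt_eq_div, ← hre] at this
      exact_mod_cast this
    rcases (Nat.le_of_dvd he hden).lt_or_eq with hlt | heq
    · exact ih _ hlt r (r * s) rfl k2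
    · have hco := cop r
      have hnum : r.num = ρ := by
        have := num_eq r
        rw [heq, hρ] at this
        exact_mod_cast this
      rw [hnum, heq] at hco
      have hρ0 : ρ ≠ 0 := by rw [← hnum]; exact Rat.num_ne_zero.2 hr0
      have z1 : ρ ^ 4 - 1125000000 * (e : ℤ) ^ 4 = 2 * m * σ * ρ ^ 2 := by
        have : (ρ : ℚ) ^ 4 - 1125000000 * (e : ℚ) ^ 4 = 2 * m * σ * ρ ^ 2 := by
          rw [← hρ, ← hm', ← hσ]; linear_combination (e : ℚ) ^ 4 * k1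
        exact_mod_cast this
      have z2 : (ρ * σ) ^ 2 = ρ ^ 4 - 72579 * ρ ^ 2 * (e : ℤ) ^ 2 + 1125000000 * (e : ℤ) ^ 4 := by
        have : ((ρ : ℚ) * σ) ^ 2 = ρ ^ 4 - 72579 * ρ ^ 2 * (e : ℚ) ^ 2
            + 1125000000 * (e : ℚ) ^ 4 := by
          rw [← hρ, ← hσ]; linear_combination (e : ℚ) ^ 4 * k2
        exact_mod_cast this
      have z3 : ρ ^ 2 ∣ 1125000000 * (e : ℤ) ^ 4 :=
        ⟨ρ ^ 2 - 2 * m * σ, by linear_combination -z1⟩
      obtain ⟨b1, hb1⟩ := (hco.pow (m := 2) (n := 4)).dvd_of_dvd_mul_right z3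
      have hρ2' : ρ ^ 2 ≠ 0 := pow_ne_zero _ hρ0
      have z4 : σ ^ 2 = ρ ^ 2 - 72579 * (e : ℤ) ^ 2 + b1 * (e : ℤ) ^ 4 := by
        apply mul_left_cancel₀ hρ2'
        linear_combination z2 + (e : ℤ) ^ 4 * hb1
      have z5 : ρ ^ 2 - b1 * (e : ℤ) ^ 4 = 2 * m * σ := by
        apply mul_left_cancel₀ hρ2'
        linear_combination z1 + (e : ℤ) ^ 4 * hb1
      have hcoσ : IsCoprime σ (e : ℤ) := by
        have c1 : IsCoprime (ρ ^ 2) (e : ℤ) := hco.pow_left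
        have c2 : IsCoprime (σ ^ 2) (e : ℤ) := by
          have : σ ^ 2 = ρ ^ 2 + (e : ℤ) * (-72579 * e + b1 * (e : ℤ) ^ 3) := by
            rw [z4]; ring
          rw [this]
          exact c1.add_mul_left_left _
        exact (IsCoprime.pow_left_iff (by norm_num)).1 c2
      have d1 : σ ∣ 2 * ρ ^ 2 - 72579 * (e : ℤ) ^ 2 := ⟨σ + 2 * m, by linear_combination z5 - z4⟩
      have d2 : σ ∣ (2 * b1 * (e : ℤ) ^ 2 - 72579) * (e : ℤ) ^ 2 :=
        ⟨σ - 2 * m, by linear_combination -z5 - z4⟩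
      have d3 := (hcoσ.pow_right (n := 2)).dvd_of_dvd_mul_right d2
      have d4 : σ ∣ 767711241 := by
        have := (d3.mul_left (-72579)).sub (d1.mul_left (2 * b1))
        have e1 : -72579 * (2 * b1 * (e : ℤ) ^ 2 - 72579)
            - 2 * b1 * (2 * ρ ^ 2 - 72579 * (e : ℤ) ^ 2) = 767711241 := by
          linear_combination 4 * hb1
        rwa [e1] at this
      have hb0 : 0 ≤ b1 := by
        by_contra hneg
        have : 0 < ρ ^ 2 := by positivity
        nlinarith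
      have fin1 := final ρ.natAbs σ.natAbs e b1.toNat he (by
          have : ((ρ.natAbs * ρ.natAbs * b1.toNat : ℕ) : ℤ) = 1125000000 := by
            push_cast
            rw [abs_mul_abs_self, Int.toNat_of_nonneg hb0]
            linear_combination -hb1
          exact_mod_cast this)
        (by simpa using Int.natAbs_dvd_natAbs.2 d4)
        (by
          push_cast
          rw [sq_abs, sq_abs, Int.toNat_of_nonneg hb0]
          exact z4)
      have f2 : ρ ^ 2 = 62500 * (e : ℤ) ^ 2 := by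
        have : ((ρ.natAbs * ρ.natAbs : ℕ) : ℤ) = ((62500 * (e * e) : ℕ) : ℤ) := by rw [fin1]
        push_cast at this
        rw [abs_mul_abs_self] at this
        linear_combination this
      have f3 : (ρ : ℚ) ^ 2 = 62500 * (e : ℚ) ^ 2 := by exact_mod_cast f2
      rw [← hρ, mul_pow] at f3
      exact mul_right_cancel₀ (by positivity) f3

theorem noroot (x t : ℚ) (ht : 25 * t ^ 2 = 5184) (h : x ^ 5 - 13 * x ^ 3 + 36 * x = t) :
    False := by
  obtain ⟨T, hT, hT'⟩ : ∃ T : ℤ, 5 * t = T ∧ ¬ (5 : ℤ) ∣ T := by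
    have : (5 * t - 72) * (5 * t + 72) = 0 := by linear_combination ht
    rcases mul_eq_zero.1 this with h1 | h1
    · exact ⟨72, by push_cast; linarith, by norm_num⟩
    · exact ⟨-72, by push_cast; linarith, by norm_num⟩
  have hco := cop x
  have hn := num_eq x
  obtain ⟨u, v, hco, hn⟩ : ∃ u v : ℤ, IsCoprime u v ∧ (u : ℚ) = x * v :=
    ⟨x.num, (x.den : ℤ), hco, by rw [hn]; push_cast; rfl⟩
  have h1 : 5 * (u ^ 5 - 13 * u ^ 3 * v ^ 2 + 36 * u * v ^ 4) = T * v ^ 5 := by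
    have : 5 * ((u : ℚ) ^ 5 - 13 * u ^ 3 * v ^ 2 + 36 * u * v ^ 4) = T * v ^ 5 := by
      rw [hn, ← hT, ← h]; ring
    exact_mod_cast this
  have p5 : Prime (5 : ℤ) := Int.prime_iff_natAbs_prime.2 (by norm_num)
  have h2 : (5 : ℤ) ∣ v := by
    rcases p5.dvd_or_dvd (⟨_, h1.symm⟩ : (5 : ℤ) ∣ T * v ^ 5) with h | h
    · exact absurd h hT'
    · exact p5.dvd_of_dvd_pow h
  obtain ⟨v1, hv1⟩ := h2
  have h3 : (5 : ℤ) ∣ u ^ 5 :=
    ⟨T * 125 * v1 ^ 5 + 65 * u ^ 3 * v1 ^ 2 - 36 * 125 * u * v1 ^ 4, by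
      rw [hv1] at h1; linarith⟩
  exact p5.not_unit (hco.isUnit_of_dvd' (p5.dvd_of_dvd_pow h3) ⟨v1, hv1⟩)

theorem disc (x : Fin 5 → ℚ) (hx : Function.Injective x) (t : ℚ)
    (h : ∀ i, x i ^ 5 - 13 * x i ^ 3 + 36 * x i = t) :
    ∃ y : ℚ, y ^ 2 = 3125 * t ^ 4 - 2612844 * t ^ 2 + 466560000 := by
  have hpoly : (X ^ 5 - 13 * X ^ 3 + 36 * X - C t : ℚ[X]) = ∏ i, (X - C (x i)) := by
    have hm1 : (X ^ 5 - 13 * X ^ 3 + 36 * X - C t : ℚ[X]).Monic := by monicity!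
    have hd1 : (X ^ 5 - 13 * X ^ 3 + 36 * X - C t : ℚ[X]).degree = 5 := by compute_degree!
    have hm2 : (∏ i, (X - C (x i)) : ℚ[X]).Monic := monic_prod_of_monic _ _ fun i _ => monic_X_sub_C _
    have hd2 : (∏ i, (X - C (x i)) : ℚ[X]).degree = 5 := by
      rw [degree_prod]; simp
    apply eq_of_degree_sub_lt_of_eval_finset_eq (Finset.univ.image x)
    · rw [Finset.card_image_of_injective _ hx]
      have := degree_sub_lt_left (hd1.trans hd2.symm) hm1.ne_zero (by rw [hm1, hm2])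
      rw [hd1] at this
      simpa using this
    · intro a ha
      obtain ⟨i, -, rfl⟩ := Finset.mem_image.1 ha
      rw [eval_prod, Finset.prod_eq_zero (Finset.mem_univ i) (by simp)]
      simp [h i]
  have ev : ∀ z : ℚ, z ^ 5 - 13 * z ^ 3 + 36 * z - t
      = (z - x 0) * (z - x 1) * (z - x 2) * (z - x 3) * (z - x 4) := by
    intro z
    have := congrArg (eval z) hpoly
    simpa [eval_prod, Fin.prod_univ_five] using this
  have a0 := ev 0
  have a1 := ev 1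
  have a2 := ev (-1)
  have a3 := ev 2
  have a4 := ev (-2)
  have h0 := h 0
  have h1 := h 1
  have h2 := h 2
  have h3 := h 3
  have h4 := h 4
  have hV : ∀ i j : Fin 5, ((Matrix.vandermonde x).transpose * Matrix.vandermonde x) i j
      = x 0 ^ (i + j : ℕ) + x 1 ^ (i + j : ℕ) + x 2 ^ (i + j : ℕ) + x 3 ^ (i + j : ℕ)
        + x 4 ^ (i + j : ℕ) := by
    intro i j
    rw [Matrix.vandermonde_transpose_mul_vandermonde, Fin.sum_univ_five]
  refine ⟨(Matrix.vandermonde x).det, ?_⟩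
  have hdet : (Matrix.vandermonde x).det ^ 2
      = ((Matrix.vandermonde x).transpose * Matrix.vandermonde x).det := by
    rw [Matrix.det_mul, Matrix.det_transpose, sq]
  rw [hdet]
  generalize (Matrix.vandermonde x).transpose * Matrix.vandermonde x = H at hV ⊢
  generalize x 0 = a at *
  generalize x 1 = b at *
  generalize x 2 = c at *
  generalize x 3 = d at *
  generalize x 4 = f at *
  have e1 : a + b + c + d + f = 0 := by
    linear_combination (1 / 24) * (6 * a0 - 4 * a1 - 4 * a2 + a3 + a4)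
  have e2 : a * b + a * c + a * d + a * f + b * c + b * d + b * f + c * d + c * f + d * f
      = -13 := by
    linear_combination (1 / 12) * (2 * a1 - 2 * a2 - a3 + a4)
  have e3 : a * b * c + a * b * d + a * b * f + a * c * d + a * c * f + a * d * f + b * c * d
      + b * c * f + b * d * f + c * d * f = 0 := by
    linear_combination (1 / 24) * (-30 * a0 + 16 * a1 + 16 * a2 - a3 - a4)
  have e4 : a * b * c * d + a * b * c * f + a * b * d * f + a * c * d * f + b * c * d * f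
      = 36 := by
    linear_combination (1 / 12) * (-8 * a1 + 8 * a2 + a3 - a4)
  have p2 : a ^ 2 + b ^ 2 + c ^ 2 + d ^ 2 + f ^ 2 = 26 := by
    linear_combination (a + b + c + d + f) * e1 - 2 * e2
  have p3 : a ^ 3 + b ^ 3 + c ^ 3 + d ^ 3 + f ^ 3 = 0 := by
    linear_combination (a ^ 2 + b ^ 2 + c ^ 2 + d ^ 2 + f ^ 2 - (a * b + a * c + a * d + a * f
      + b * c + b * d + b * f + c * d + c * f + d * f)) * e1 + 3 * e3
  have p4 : a ^ 4 + b ^ 4 + c ^ 4 + d ^ 4 + f ^ 4 = 194 := by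
    linear_combination (a ^ 3 + b ^ 3 + c ^ 3 + d ^ 3 + f ^ 3 + (a * b * c + a * b * d + a * b * f
      + a * c * d + a * c * f + a * d * f + b * c * d + b * c * f + b * d * f + c * d * f)) * e1
      - (a ^ 2 + b ^ 2 + c ^ 2 + d ^ 2 + f ^ 2) * e2 + 13 * p2 - 4 * e4
  have p5 : a ^ 5 + b ^ 5 + c ^ 5 + d ^ 5 + f ^ 5 = 5 * t := by
    linear_combination h0 + h1 + h2 + h3 + h4 + 13 * p3 - 36 * e1
  have p6 : a ^ 6 + b ^ 6 + c ^ 6 + d ^ 6 + f ^ 6 = 1586 := by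
    linear_combination a * h0 + b * h1 + c * h2 + d * h3 + f * h4 + 13 * p4 - 36 * p2 + t * e1
  have p7 : a ^ 7 + b ^ 7 + c ^ 7 + d ^ 7 + f ^ 7 = 91 * t := by
    linear_combination a ^ 2 * h0 + b ^ 2 * h1 + c ^ 2 * h2 + d ^ 2 * h3 + f ^ 2 * h4 + 13 * p5
      - 36 * p3 + t * p2
  have p8 : a ^ 8 + b ^ 8 + c ^ 8 + d ^ 8 + f ^ 8 = 13634 := by
    linear_combination a ^ 3 * h0 + b ^ 3 * h1 + c ^ 3 * h2 + d ^ 3 * h3 + f ^ 3 * h4 + 13 * p6
      - 36 * p4 + t * p3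
  have hH : H = !![5, 0, 26, 0, 194; 0, 26, 0, 194, 5 * t; 26, 0, 194, 5 * t, 1586;
      0, 194, 5 * t, 1586, 91 * t; 194, 5 * t, 1586, 91 * t, 13634] := by
    ext i j
    rw [hV]
    fin_cases i <;> fin_cases j <;> simp <;> linarith
  rw [hH]
  simp [Matrix.det_succ_row_zero, Fin.sum_univ_succ, Fin.succAbove]
  ring

theorem result :
    ¬ (∀ p : Polynomial ℝ, 0 < p.natDegree →
      (∃ s : Finset ℚ, s.card = p.natDegree ∧ ∀ q ∈ s, p.eval (q : ℝ) = 0) →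
      ∃ t : ℝ, t ≠ 0 ∧
        ∃ s : Finset ℚ, s.card = p.natDegree ∧
          ∀ q ∈ s, (p - Polynomial.C t).eval (q : ℝ) = 0) := by
  intro h
  have hd : (X ^ 5 - 13 * X ^ 3 + 36 * X : ℝ[X]).natDegree = 5 := by compute_degree!
  obtain ⟨t, ht, s, hs, hroot⟩ := h (X ^ 5 - 13 * X ^ 3 + 36 * X) (by rw [hd]; norm_num)
    ⟨{-3, -2, 0, 2, 3}, by rw [hd]; decide +kernel, by
      intro q hq
      simp only [Finset.mem_insert, Finset.mem_singleton] at hq
      rcases hq with rfl | rfl | rfl | rfl | rfl <;> simp <;> norm_num⟩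
  rw [hd] at hs
  let x : Fin 5 → ℚ := s.orderEmbOfFin hs
  have hx : Function.Injective x := (s.orderEmbOfFin hs).injective
  have hr : ∀ i, ((x i ^ 5 - 13 * x i ^ 3 + 36 * x i : ℚ) : ℝ) = t := by
    intro i
    have := hroot (x i) (Finset.orderEmbOfFin_mem s hs i)
    simp at this
    push_cast
    linarith
  set τ : ℚ := x 0 ^ 5 - 13 * x 0 ^ 3 + 36 * x 0 with hτ
  have hτ0 : τ ≠ 0 := by
    intro h0
    apply ht
    rw [← hr 0, ← hτ, h0]; simp
  have hr' : ∀ i, x i ^ 5 - 13 * x i ^ 3 + 36 * x i = τ := by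
    intro i
    have : ((x i ^ 5 - 13 * x i ^ 3 + 36 * x i : ℚ) : ℝ) = (τ : ℝ) := by rw [hr i, hτ, hr 0]
    exact_mod_cast this
  obtain ⟨y, hy⟩ := disc x hx τ hr'
  have hw := descent _ (3600 / τ) (600 * y / τ ^ 2) rfl (by
    field_simp
    linear_combination 360000 * hy)
  apply noroot (x 0) τ _ (hr' 0)
  field_simp at hw
  linarith

end Pool.Agent.S17050
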