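import Pool.Statements.S17143

set_option autoImplicit false
open Pool Pool.MP_6023ab_nt

namespace Pool.Agent.S17143

theorem result :
    ∃ k : ℕ, 1 ≤ k ∧ k < 7 ∧
      ∃ f : Fin 4 → MvPolynomial (Fin 2) ℝ,
        (∀ i, f i ≠ 0 ∧ (f i).IsHomogeneous k) ∧
        (∀ i j, i ≠ j → ∀ c : ℝ, f i ≠ c • f j) ∧
        f 0 ^ 4 + f 1 ^ 4 = f 2 ^ 4 + f 3 ^ 4 := by
  have h2 : Real.sqrt 2 ^ 2 = 2 := Real.sq_sqrt (by norm_num)
  have h0 : Real.sqrt 2 ≠ 0 := by positivity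
  let g : ℝ → ℝ → ℝ → ℝ → MvPolynomial (Fin 2) ℝ := fun a b c d =>
    MvPolynomial.C a * MvPolynomial.X 0 ^ 3 + MvPolynomial.C b * (MvPolynomial.X 0 ^ 2 * MvPolynomial.X 1)
      + MvPolynomial.C c * (MvPolynomial.X 0 * MvPolynomial.X 1 ^ 2) + MvPolynomial.C d * MvPolynomial.X 1 ^ 3
  have hom : ∀ a b c d, (g a b c d).IsHomogeneous 3 := by
    intro a b c d
    have hx := MvPolynomial.isHomogeneous_X ℝ (0 : Fin 2)
    have hy := MvPolynomial.isHomogeneous_X ℝ (1 : Fin 2)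
    exact ((((hx.pow 3).C_mul a).add (((hx.pow 2).mul hy).C_mul b)).add
      ((hx.mul (hy.pow 2)).C_mul c)).add ((hy.pow 3).C_mul d)
  have e1 : ∀ a b c d, MvPolynomial.eval ![1, 0] (g a b c d) = a := by
    intro a b c d
    simp [g]
  have e2 : ∀ a b c d, MvPolynomial.eval ![0, 1] (g a b c d) = d := by
    intro a b c d
    simp [g]
  set s := Real.sqrt 2 with hs
  let a : Fin 4 → ℝ := ![1, s, 1, s]
  let b : Fin 4 → ℝ := ![4, -s, -4, s]
  let c : Fin 4 → ℝ := ![-2, 4 * s, -2, 4 * s]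
  let r : Fin 4 → ℝ := ![4, 2, -4, -2]
  have ha : ∀ i, a i ≠ 0 := by
    intro i
    fin_cases i <;> simp [a, h0]
  have hr : Function.Injective r := by
    intro i j
    fin_cases i <;> fin_cases j <;> simp [r] <;> norm_num
  refine ⟨3, by norm_num, by norm_num, fun i => g (a i) (b i) (c i) (r i * a i), ?_, ?_, ?_⟩
  · intro i
    refine ⟨fun h => ha i ?_, hom _ _ _ _⟩
    have h' : g (a i) (b i) (c i) (r i * a i) = 0 := h
    rw [← e1 (a i) (b i) (c i) (r i * a i), h', map_zero]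
  · intro i j hij t h
    have h3 := congrArg (MvPolynomial.eval ![1, 0]) h
    have h4 := congrArg (MvPolynomial.eval ![0, 1]) h
    rw [MvPolynomial.smul_eval, e1, e1] at h3
    rw [MvPolynomial.smul_eval, e2, e2] at h4
    apply hij
    apply hr
    apply mul_right_cancel₀ (ha i)
    rw [h4, h3]
    ring
  · apply MvPolynomial.funext
    intro x
    have h4 : s ^ 4 = 4 := by
      have : s ^ 4 = (s ^ 2) ^ 2 := by ring
      rw [this, h2]
      norm_num
    simp only [g, a, b, c, r, map_add, map_mul, map_pow, MvPolynomial.eval_C, MvPolynomial.eval_X,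
      Matrix.cons_val_zero, Matrix.cons_val_one, Matrix.cons_val]
    linear_combination ((x 0 ^ 3 - x 0 ^ 2 * x 1 + 4 * x 0 * x 1 ^ 2 + 2 * x 1 ^ 3) ^ 4 -
      (x 0 ^ 3 + x 0 ^ 2 * x 1 + 4 * x 0 * x 1 ^ 2 - 2 * x 1 ^ 3) ^ 4) * h4

end Pool.Agent.S17143
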