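import Pool.Statements.S17199
import Pool.Agent.H.MP_636046_nt.F

set_option autoImplicit false
open N140ae710
open scoped BigOperators
open Pool Pool.MP_636046_nt

namespace Pool.Agent.S17199

theorem result :
    PositiveLowerDensitySix := by
  exact Pool.Agent.H.MP_636046_nt.six

end Pool.Agent.S17199
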