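import Pool.Statements.S17543
import Pool.Agent.H.MP_7c4d4b_nt.Data

set_option autoImplicit false
open Pool Pool.MP_7c4d4b_nt

namespace Pool.Agent.S17543

theorem result :
    ∃ s : ℕ, ∃ x : Fin s → ℕ, StrictMono x ∧ (∀ i, 1 < x i) ∧
      (∑ i, (1 : ℚ) / (x i : ℚ)) + 1 / (∏ i, (x i : ℚ)) = 2 := by
  exact H.MP_7c4d4b_nt.main

end Pool.Agent.S17543
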