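import Pool.Statements.S17557
import Pool.Agent.H.MP_7e9031_nt.C

set_option autoImplicit false
open Filter Topology
open Pool Pool.MP_7e9031_nt

namespace Pool.Agent.S17557

theorem result :
    ∃ A : Set ℕ,
      (∃ N : ℕ, ∀ n ≥ N, ∃ a ∈ A, ∃ b ∈ A, a + b = n) ∧
      (∀ B : Set ℕ, B ⊂ A → ¬ ∃ N : ℕ, ∀ n ≥ N, ∃ a ∈ B, ∃ b ∈ B, a + b = n) ∧
      ∃ c : ℝ, c ≠ 0 ∧
        Tendsto (fun k : ℕ => (Nat.nth (· ∈ A) k : ℝ) / ((k : ℝ) + 1) ^ 2) atTop (𝓝 c) :=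
  Pool.Agent.H.MP_7e9031_nt.main

end Pool.Agent.S17557
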