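import Pool.Statements.S17576
-- import your own Pool.Agent.* helpers here

set_option autoImplicit false
open Pool Pool.MP_7fe555_nt

namespace Pool.Agent.S17576

theorem key (a b c : ℕ) (ha : 0 < a) (hab : a < b) (hbc : b < c) (j : ℕ)
    (hL : Nat.lcm (Nat.lcm a b) c < 8 ^ j) : c ≤ 2 * 2 ^ j * (c - a) := by
  have h2 : 1 ≤ 2 ^ j := Nat.one_le_two_pow
  by_cases h : 2 * a ≤ c
  · have : c ≤ 2 * (c - a) := by omega
    calc c ≤ 2 * 1 * (c - a) := by omega
      _ ≤ _ := by gcongr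
  · have g1 : Nat.gcd a b ≤ c - a := by
      have : Nat.gcd a b ∣ b - a := Nat.dvd_sub (Nat.gcd_dvd_right _ _) (Nat.gcd_dvd_left _ _)
      have := Nat.le_of_dvd (by omega) this
      omega
    have g2 : Nat.gcd c a ≤ c - a :=
      Nat.le_of_dvd (by omega) (Nat.dvd_sub (Nat.gcd_dvd_left _ _) (Nat.gcd_dvd_right _ _))
    have g3 : Nat.gcd c b ≤ c - a := by
      have : Nat.gcd c b ∣ c - b := Nat.dvd_sub (Nat.gcd_dvd_left _ _) (Nat.gcd_dvd_right _ _)
      have := Nat.le_of_dvd (by omega) this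
      omega
    have g4 : Nat.gcd c (Nat.lcm a b) ≤ Nat.gcd c a * Nat.gcd c b := by
      apply Nat.le_of_dvd (Nat.mul_pos (Nat.gcd_pos_of_pos_right _ ha) (Nat.gcd_pos_of_pos_right _ (by omega)))
      exact (Nat.gcd_dvd_gcd_of_dvd_right c (Nat.lcm_dvd_mul a b)).trans (Nat.gcd_mul_right_dvd_mul_gcd c a b)
    have e1 := Nat.gcd_mul_lcm a b
    have e2 := Nat.gcd_mul_lcm c (Nat.lcm a b)
    rw [Nat.lcm_comm c] at e2
    set L := Nat.lcm (Nat.lcm a b) c
    set h := c - a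
    have hh : 0 < h := by omega
    have e3 : a ^ 3 < (2 ^ j * h) ^ 3 := by
      calc a ^ 3 = a * (a * a) := by ring
        _ ≤ c * (a * b) := by gcongr <;> omega
        _ = Nat.gcd a b * (c * Nat.lcm a b) := by rw [← e1]; ring
        _ = Nat.gcd a b * (Nat.gcd c (Nat.lcm a b) * L) := by rw [e2]
        _ ≤ h * ((h * h) * L) := by
          gcongr
          exact g4.trans (Nat.mul_le_mul g2 g3)
        _ < h * ((h * h) * 8 ^ j) := by gcongr
        _ = (2 ^ j * h) ^ 3 := by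
          rw [mul_pow, ← pow_mul, mul_comm j 3, pow_mul]; ring
    have e4 : a < 2 ^ j * h := lt_of_pow_lt_pow_left₀ 3 (Nat.zero_le _) e3
    calc c ≤ 2 * a := by omega
      _ ≤ 2 * (2 ^ j * h) := by omega
      _ = _ := by ring

theorem geo (T : Finset ℕ) (r : ℝ) (hr : 0 ≤ r) (h : ∀ j ∈ T, (1 / 2 : ℝ) ^ j ≤ r) :
    ∑ j ∈ T, (1 / 2 : ℝ) ^ j ≤ 2 * r := by
  rcases T.eq_empty_or_nonempty with rfl | hT
  · simp [hr]
  · have h1 : T ⊆ Finset.Ico (T.min' hT) (T.max' hT + 1) := fun j hj =>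
      Finset.mem_Ico.2 ⟨T.min'_le j hj, Nat.lt_succ_of_le (T.le_max' j hj)⟩
    have h2 := Finset.sum_le_sum_of_subset_of_nonneg (f := fun j => (1 / 2 : ℝ) ^ j) h1
      (fun _ _ _ => by positivity)
    have h3 := geom_sum_Ico_le_of_lt_one (x := (1 / 2 : ℝ)) (m := T.min' hT) (n := T.max' hT + 1)
      (by norm_num) (by norm_num)
    have h4 := h _ (T.min'_mem hT)
    have h5 : (1 / 2 : ℝ) ^ T.min' hT / (1 - 1 / 2) = 2 * (1 / 2 : ℝ) ^ T.min' hT := by ring
    linarith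

theorem tele (f : ℕ → ℝ) (N : ℕ) :
    ∑ i ∈ Finset.range N, (f (i + 3) - f (i + 1)) = f (N + 2) + f (N + 1) - f 2 - f 1 := by
  induction N with
  | zero => simp
  | succ n ih => rw [Finset.sum_range_succ, ih]; ring_nf

theorem upper (a : ℕ → ℕ) (ha : StrictMono a) (hp : ∀ n, 0 < a n) (J N : ℕ) :
    ∑ j ∈ Finset.range (J + 1), (1 / 2 : ℝ) ^ j *
      (((Finset.range N).filter
        (fun i => Nat.lcm (Nat.lcm (a (i + 1)) (a (i + 2))) (a (i + 3)) < 8 ^ j)).card : ℝ)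
      ≤ 8 * (J * Real.log 8) := by
  set f : ℕ → ℝ := fun n => Real.log (min (a n) (8 ^ J) : ℕ) with hf
  have hm : ∀ n, (1 : ℝ) ≤ (min (a n) (8 ^ J) : ℕ) := fun n => by
    have : 1 ≤ min (a n) (8 ^ J) := le_min (hp n) (Nat.one_le_pow _ _ (by norm_num))
    exact_mod_cast this
  have f0 : ∀ n, 0 ≤ f n := fun n => Real.log_nonneg (hm n)
  have f1 : ∀ n, f n ≤ J * Real.log 8 := fun n => by
    rw [← Real.log_pow]
    apply Real.log_le_log (by linarith [hm n])
    have : min (a n) (8 ^ J) ≤ 8 ^ J := min_le_right _ _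
    exact_mod_cast this
  have fm : ∀ i, 0 ≤ f (i + 3) - f (i + 1) := fun i => by
    rw [sub_nonneg]
    apply Real.log_le_log (by linarith [hm (i + 1)])
    have : min (a (i + 1)) (8 ^ J) ≤ min (a (i + 3)) (8 ^ J) :=
      min_le_min_right _ (ha.monotone (by omega))
    exact_mod_cast this
  have e : ∀ j, (1 / 2 : ℝ) ^ j * (((Finset.range N).filter
        (fun i => Nat.lcm (Nat.lcm (a (i + 1)) (a (i + 2))) (a (i + 3)) < 8 ^ j)).card : ℝ)
      = ∑ i ∈ Finset.range N,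
        if Nat.lcm (Nat.lcm (a (i + 1)) (a (i + 2))) (a (i + 3)) < 8 ^ j then (1 / 2 : ℝ) ^ j else 0 := by
    intro j
    rw [← Finset.sum_filter, Finset.sum_const, nsmul_eq_mul, mul_comm]
  simp_rw [e]
  rw [Finset.sum_comm]
  have b : ∀ i ∈ Finset.range N, (∑ j ∈ Finset.range (J + 1),
      if Nat.lcm (Nat.lcm (a (i + 1)) (a (i + 2))) (a (i + 3)) < 8 ^ j then (1 / 2 : ℝ) ^ j else 0)
      ≤ 4 * (f (i + 3) - f (i + 1)) := by
    intro i _
    rw [← Finset.sum_filter]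
    have := geo ((Finset.range (J + 1)).filter
      (fun j => Nat.lcm (Nat.lcm (a (i + 1)) (a (i + 2))) (a (i + 3)) < 8 ^ j))
      (2 * (f (i + 3) - f (i + 1))) (by linarith [fm i]) ?_
    · linarith
    intro j hj
    rw [Finset.mem_filter, Finset.mem_range] at hj
    obtain ⟨hj, hL⟩ := hj
    have h12 : a (i + 1) < a (i + 2) := ha (by omega)
    have h23 : a (i + 2) < a (i + 3) := ha (by omega)
    have k := key _ _ _ (hp _) h12 h23 j hL
    have hc : a (i + 3) ≤ 8 ^ J := by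
      have h1 : a (i + 3) ≤ Nat.lcm (Nat.lcm (a (i + 1)) (a (i + 2))) (a (i + 3)) :=
        Nat.le_of_dvd (Nat.lcm_pos (Nat.lcm_pos (hp _) (hp _)) (hp _)) (Nat.dvd_lcm_right _ _)
      have h2 : 8 ^ j ≤ 8 ^ J := Nat.pow_le_pow_right (by norm_num) (by omega)
      omega
    simp only [hf]
    rw [min_eq_left hc, min_eq_left (by omega : a (i + 1) ≤ 8 ^ J)]
    set x : ℝ := ((a (i + 1) : ℕ) : ℝ) with hx
    set y : ℝ := ((a (i + 3) : ℕ) : ℝ) with hy
    have x0 : 0 < x := by rw [hx]; exact_mod_cast hp _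
    have y0 : 0 < y := by rw [hy]; exact_mod_cast hp _
    have k' : y ≤ 2 * 2 ^ j * (y - x) := by
      rw [hx, hy, ← Nat.cast_sub (by omega)]; exact_mod_cast k
    have l := Real.log_le_sub_one_of_pos (div_pos x0 y0)
    rw [Real.log_div x0.ne' y0.ne'] at l
    have l2 : (1 / 2 : ℝ) ^ j ≤ 2 * (1 - x / y) := by
      rw [one_div, inv_pow, inv_le_iff_one_le_mul₀ (by positivity)]
      have : 2 * (1 - x / y) * 2 ^ j = 2 * 2 ^ j * (y - x) / y := by field_simp
      rw [this, le_div_iff₀ y0]; linarith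
    linarith
  refine (Finset.sum_le_sum b).trans ?_
  rw [← Finset.mul_sum, tele]
  linarith [f0 1, f0 2, f1 (N + 1), f1 (N + 2)]

theorem result :
    ¬ (∃ a : ℕ → ℕ, StrictMono a ∧ (∀ n, 0 < a n) ∧
      ∃ c : ℝ, 0 < c ∧ ∃ X : ℝ, ∀ x : ℝ, X ≤ x →
        c * x ^ ((1 : ℝ) / 3) * Real.log x <
          (({i : ℕ | ((Nat.lcm (Nat.lcm (a (i + 1)) (a (i + 2))) (a (i + 3)) : ℕ) : ℝ) < x}.ncard : ℕ) : ℝ)) := by
  rintro ⟨a, ha, hp, c, hc, X, h⟩
  obtain ⟨M, hM⟩ := exists_nat_ge (max X (16 / c + 1))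
  have hX : X ≤ M := (le_max_left _ _).trans hM
  have hM' : 16 / c + 1 ≤ M := (le_max_right _ _).trans hM
  have hc' : 0 < 16 / c := by positivity
  have l8 : 0 < Real.log 8 := Real.log_pos (by norm_num)
  have u := upper a ha hp (2 * M) (8 ^ (2 * M))
  have low : ∀ j ∈ Finset.Icc M (2 * M), c * (M * Real.log 8) ≤ (1 / 2 : ℝ) ^ j *
      (((Finset.range (8 ^ (2 * M))).filter
        (fun i => Nat.lcm (Nat.lcm (a (i + 1)) (a (i + 2))) (a (i + 3)) < 8 ^ j)).card : ℝ) := by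
    intro j hj
    rw [Finset.mem_Icc] at hj
    have h1 : X ≤ (8 : ℝ) ^ j := by
      have : j < 8 ^ j := Nat.lt_pow_self (by norm_num)
      have : M ≤ 8 ^ j := by omega
      exact hX.trans (by exact_mod_cast this)
    have h2 := h _ h1
    have e : {i : ℕ | ((Nat.lcm (Nat.lcm (a (i + 1)) (a (i + 2))) (a (i + 3)) : ℕ) : ℝ) < (8 : ℝ) ^ j}
        = ↑((Finset.range (8 ^ (2 * M))).filter
        (fun i => Nat.lcm (Nat.lcm (a (i + 1)) (a (i + 2))) (a (i + 3)) < 8 ^ j)) := by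
      ext i
      simp only [Set.mem_ofPred_eq, Finset.coe_filter, Finset.mem_range]
      constructor
      · intro hi
        have hi' : Nat.lcm (Nat.lcm (a (i + 1)) (a (i + 2))) (a (i + 3)) < 8 ^ j := by exact_mod_cast hi
        refine ⟨?_, hi'⟩
        have h1 : a (i + 3) ≤ Nat.lcm (Nat.lcm (a (i + 1)) (a (i + 2))) (a (i + 3)) :=
          Nat.le_of_dvd (Nat.lcm_pos (Nat.lcm_pos (hp _) (hp _)) (hp _)) (Nat.dvd_lcm_right _ _)
        have h2 : 8 ^ j ≤ 8 ^ (2 * M) := Nat.pow_le_pow_right (by norm_num) hj.2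
        have h3 : i + 3 ≤ a (i + 3) := ha.le_apply
        omega
      · intro hi
        exact_mod_cast hi.2
    rw [e, Set.ncard_coe_finset] at h2
    have e2 : ((8 : ℝ) ^ j) ^ ((1 : ℝ) / 3) = 2 ^ j := by
      have : (8 : ℝ) ^ j = ((2 : ℝ) ^ j) ^ (3 : ℕ) := by
        rw [← pow_mul, mul_comm, pow_mul]; norm_num
      rw [this, one_div]
      exact_mod_cast Real.pow_rpow_inv_natCast (x := (2 : ℝ) ^ j) (n := 3) (by positivity) (by norm_num)
    rw [e2, Real.log_pow] at h2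
    have hj' : (M : ℝ) ≤ j := by exact_mod_cast hj.1
    calc c * (M * Real.log 8) ≤ c * (j * Real.log 8) := by gcongr
      _ = (1 / 2 : ℝ) ^ j * (c * 2 ^ j * (j * Real.log 8)) := by
        rw [one_div, inv_pow]; field_simp
      _ ≤ _ := by gcongr
  have s1 := Finset.card_nsmul_le_sum _ _ _ low
  have s2 := Finset.sum_le_sum_of_subset_of_nonneg (s := Finset.Icc M (2 * M))
    (t := Finset.range (2 * M + 1)) (f := fun j => (1 / 2 : ℝ) ^ j *
      (((Finset.range (8 ^ (2 * M))).filter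
        (fun i => Nat.lcm (Nat.lcm (a (i + 1)) (a (i + 2))) (a (i + 3)) < 8 ^ j)).card : ℝ))
    (fun j hj => by rw [Finset.mem_Icc] at hj; exact Finset.mem_range.2 (by omega))
    (fun _ _ _ => by positivity)
  rw [Nat.card_Icc, show 2 * M + 1 - M = M + 1 by omega, nsmul_eq_mul] at s1
  have s3 := s1.trans (s2.trans u)
  push_cast at s3
  have M0 : (0 : ℝ) < M * Real.log 8 := by
    apply mul_pos _ l8; linarith
  have : (M + 1) * c ≤ 16 := by
    apply le_of_mul_le_mul_right _ M0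
    linarith
  have h16 : 16 / c * c = 16 := by field_simp
  nlinarith

end Pool.Agent.S17576
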