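import Pool.Statements.S17591
import Pool.Agent.H.MP_81c263_nt.C

set_option autoImplicit false
open MeasureTheory Classical
open Pool Pool.MP_81c263_nt

namespace Pool.Agent.S17591

theorem result :
    ∀ p : ℝ, 1 ≤ p → ∀ d : ℕ, 2 ≤ d → ∃ C : ℝ, 0 < C ∧ ∀ N : ℕ,
      ∃ P : Finset (Fin d → ℝ), P.card = N ∧
        (∀ z ∈ P, ∀ i, z i ∈ Set.Ico (0 : ℝ) 1) ∧
        (∫ x in Set.pi Set.univ (fun _ : Fin d => Set.Ico (0 : ℝ) 1),
          ∫ y in Set.pi Set.univ (fun _ : Fin d => Set.Ico (0 : ℝ) 1),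
            |((P.filter (fun z => ∀ i : Fin d,
                  (x i ≤ y i ∧ x i ≤ z i ∧ z i < y i) ∨
                  (y i < x i ∧ (z i < y i ∨ x i ≤ z i)))).card : ℝ)
              - (N : ℝ) * ∏ i : Fin d,
                  (if x i ≤ y i then y i - x i else 1 - x i + y i)| ^ p)
          ^ (1 / p)
        ≤ C * (1 + Real.log (N : ℝ)) ^ (((d : ℝ) - 1) / 2) := by
  intro p hp d hd
  obtain ⟨k, rfl⟩ : ∃ k, d = k + 1 := ⟨d - 1, by omega⟩
  set n0 := ⌈p⌉₊ with hn0
  set b : Fin k → ℕ := fun j => Nat.fermatNumber j with hbd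
  have hb2 : ∀ j, 2 ≤ b j := fun j => by have := Nat.three_le_fermatNumber j; simp only [hbd]; omega
  have hb : ∀ j, 0 < b j := fun j => by have := hb2 j; omega
  have hc : ∀ i j, i ≠ j → (b i).Coprime (b j) := fun i j hij =>
    Nat.coprime_fermatNumber_fermatNumber (fun h => hij (Fin.ext h))
  set c : ℝ := 2 ^ (2 * n0 + 4) with hcd
  set B0 : ℝ := 6 * ∏ j, (2 * (b j : ℝ)) with hB0
  have hB : 0 < B0 := by
    have : (0 : ℝ) < ∏ j, (2 * (b j : ℝ)) := Finset.prod_pos fun j _ => by
      have : (0 : ℝ) < b j := by exact_mod_cast hb j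
      positivity
    positivity
  refine ⟨4 * (√((c * 2) ^ k) * B0 + (k + 1)), by positivity, fun N => ?_⟩
  have hL : 1 ≤ 1 + Real.log N := by have := Real.log_natCast_nonneg N; linarith
  rcases Nat.eq_zero_or_pos N with rfl | hN
  · refine ⟨∅, rfl, by simp, ?_⟩
    have h1 : (0 : ℝ) ^ p = 0 := Real.zero_rpow (by linarith)
    have h2 : (0 : ℝ) ^ p⁻¹ = 0 := Real.zero_rpow (by positivity)
    simp only [Finset.filter_empty, Finset.card_empty, Nat.cast_zero, zero_mul, sub_zero, abs_zero, h1,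
      integral_zero, one_div, h2]
    positivity
  set h := Nat.log 2 N + 1 with hh
  have hNh : N < 2 ^ h := Nat.lt_pow_succ_log_self (by norm_num) N
  have hNb : ∀ j, N ≤ b j ^ h := fun j => hNh.le.trans (Nat.pow_le_pow_left (hb2 j) h)
  set M := ∏ j, b j ^ h with hM
  have hM0 : 0 < M := Finset.prod_pos fun j _ => pow_pos (hb j) h
  have hNM : N ≤ M := (hNb ⟨0, by omega⟩).trans
    (Nat.le_of_dvd hM0 (Finset.dvd_prod_of_mem (fun j => b j ^ h) (Finset.mem_univ _)))
  haveI : NeZero M := ⟨hM0.ne'⟩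
  set a : ℝ := (c * (h + 1)) ^ k * B0 ^ 2 with ha
  have ha0 : 0 < a := by positivity
  set V : ℝ := √a + (k + 1) with hV
  have hV0 : 0 < V := by positivity
  obtain ⟨ω, hω⟩ := H.PDisc.exists_good (Ω := Fin k → ZMod M) volume
    (Set.pi Set.univ (fun _ : Fin (k + 1) => Set.Ico (0 : ℝ) 1))
    (MeasurableSet.univ_pi fun _ => measurableSet_Ico) (by simp [volume_pi_pi])
    (fun ω x y => |H.PDisc.disc ((Finset.range N).image (H.PDisc.pt b h N fun j => (ω j).val)) N x y| ^ p)
    (fun _ _ _ => by positivity) (2 * (2 * V) ^ p) (by positivity) (fun x hx y hy => by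
      obtain ⟨Y, hY1, hY2⟩ := H.PDisc.moment b h M N n0 hb hc hM hN hNM hNb x y
        (fun i => hx i trivial) (fun i => hy i trivial)
      refine H.PDisc.lp_of_mo (n0 + 2) p (by linarith) ?_ _ Y a (k + 1) ha0 (by positivity) hY1 hY2
      have := Nat.le_ceil p
      have : (0 : ℝ) ≤ n0 := by positivity
      push_cast
      linarith)
  refine ⟨_, ?_, ?_, (Real.rpow_le_rpow (integral_nonneg fun x => integral_nonneg fun y => by positivity)
    hω (by positivity)).trans ?_⟩
  · rw [Finset.card_image_of_injective _ (H.PDisc.pt_inj b h N hN _), Finset.card_range]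
  · intro z hz i
    obtain ⟨n, hn, rfl⟩ := Finset.mem_image.1 hz
    have hn' : (n : ℝ) < N := by exact_mod_cast Finset.mem_range.1 hn
    refine Fin.cases ?_ (fun j => ?_) i
    · simp only [H.PDisc.pt, Fin.cons_zero]
      exact ⟨by positivity, (div_lt_one (by exact_mod_cast hN)).2 hn'⟩
    · simp only [H.PDisc.pt, Fin.cons_succ]
      refine ⟨by positivity, (div_lt_one (by exact_mod_cast pow_pos (hb j) h)).2 ?_⟩
      exact_mod_cast H.PDisc.rev_lt _ (hb j) _ _
  · have h1 : 2 * (2 * V) ^ p ≤ (4 * V) ^ p := by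
      rw [show 4 * V = 2 * (2 * V) by ring, Real.mul_rpow (x := 2) (y := 2 * V) (by norm_num) (by positivity)]
      refine mul_le_mul_of_nonneg_right ?_ (by positivity)
      simpa using Real.rpow_le_rpow_of_exponent_le (show (1 : ℝ) ≤ 2 by norm_num) hp
    refine (Real.rpow_le_rpow (by positivity) h1 (by positivity)).trans ?_
    rw [one_div, Real.rpow_rpow_inv (by positivity) (by linarith)]
    have h2 : (h : ℝ) + 1 ≤ 2 * (1 + Real.log N) := by
      have h3 : ((2 ^ Nat.log 2 N : ℕ) : ℝ) ≤ N := by exact_mod_cast Nat.pow_log_le_self 2 hN.ne'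
      have h4 := Real.log_le_log (by positivity) h3
      push_cast at h4
      rw [Real.log_pow] at h4
      have h5 := Real.log_two_gt_d9
      have h6 : (0 : ℝ) ≤ Nat.log 2 N := by positivity
      rw [hh]; push_cast
      nlinarith
    have e1 : (1 + Real.log N) ^ ((((k + 1 : ℕ) : ℝ) - 1) / 2) = √((1 + Real.log N) ^ k) := by
      rw [Real.sqrt_eq_rpow, ← Real.rpow_natCast, ← Real.rpow_mul (by linarith)]
      congr 1; push_cast; ring
    rw [e1]
    have h7 : 1 ≤ √((1 + Real.log N) ^ k) := Real.one_le_sqrt.2 (one_le_pow₀ hL)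
    have h8 : √a ≤ √((c * 2) ^ k) * B0 * √((1 + Real.log N) ^ k) := by
      rw [ha, Real.sqrt_mul (by positivity), Real.sqrt_sq hB.le, mul_right_comm,
        ← Real.sqrt_mul (by positivity), ← mul_pow]
      refine mul_le_mul_of_nonneg_right (Real.sqrt_le_sqrt (pow_le_pow_left₀ (by positivity) ?_ _)) hB.le
      rw [mul_assoc]
      exact mul_le_mul_of_nonneg_left h2 (by positivity)
    have h9 : (0 : ℝ) ≤ k + 1 := by positivity
    rw [hV]
    nlinarith

end Pool.Agent.S17591
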