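import Pool.Statements.S17662

set_option autoImplicit false
open Pool Pool.MP_87cb84_nt

namespace Pool.Agent.S17662

open Filter

lemma divisor_bound (δ : ℝ) (hδ : 0 < δ) :
    ∃ C : ℝ, 0 < C ∧ ∀ n : ℕ, n ≠ 0 → (n.divisors.card : ℝ) ≤ C * (n : ℝ) ^ δ := by
  obtain ⟨T, hT⟩ : ∃ T : ℕ, (2:ℝ) ^ (1 / δ) ≤ T := exists_nat_ge _
  obtain ⟨K, hK1, hK⟩ : ∃ K : ℝ, 1 ≤ K ∧ 1 ≤ K * (δ * Real.log 2) := by
    have hl : 0 < δ * Real.log 2 := mul_pos hδ (Real.log_pos (by norm_num))
    refine ⟨max 1 (1 / (δ * Real.log 2)), le_max_left _ _, ?_⟩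
    have := le_max_right 1 (1 / (δ * Real.log 2))
    rw [div_le_iff₀ hl] at this
    exact this
  refine ⟨K ^ T, by positivity, ?_⟩
  intro n hn
  rw [Nat.card_divisors hn]
  have hn2 : (n : ℝ) ^ δ = ∏ p ∈ n.primeFactors, ((p:ℝ) ^ δ) ^ (n.factorization p) := by
    conv_lhs => rw [← Nat.factorization_prod_pow_eq_self hn]
    rw [Finsupp.prod, Nat.support_factorization]
    push_cast
    rw [← Real.finset_prod_rpow _ _ (fun i _ => by positivity)]
    apply Finset.prod_congr rfl
    intro p _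
    rw [← Real.rpow_natCast, ← Real.rpow_natCast, ← Real.rpow_mul (by positivity),
      ← Real.rpow_mul (by positivity), mul_comm]
  have hKT : ∏ p ∈ n.primeFactors, (if p < T then K else 1) ≤ K ^ T := by
    rw [← Finset.prod_filter, Finset.prod_const]
    apply pow_le_pow_right₀ hK1
    calc _ ≤ (Finset.range T).card := by
          apply Finset.card_le_card
          intro p hp
          exact Finset.mem_range.mpr (Finset.mem_filter.mp hp).2
      _ = T := Finset.card_range T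
  push_cast
  calc ∏ p ∈ n.primeFactors, ((n.factorization p : ℝ) + 1)
      ≤ ∏ p ∈ n.primeFactors, ((if p < T then K else 1) * ((p:ℝ) ^ δ) ^ (n.factorization p)) := by
        apply Finset.prod_le_prod
        · intro i _; positivity
        · intro p hp
          have hp2 : (2:ℝ) ≤ p := by exact_mod_cast (Nat.prime_of_mem_primeFactors hp).two_le
          generalize n.factorization p = e
          split_ifs with h
          · have h1 : (2:ℝ) ^ δ ≤ (p:ℝ) ^ δ := Real.rpow_le_rpow (by norm_num) hp2 hδ.le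
            have h2 : ((2:ℝ) ^ δ) ^ e ≤ ((p:ℝ) ^ δ) ^ e := pow_le_pow_left₀ (by positivity) h1 e
            have h3 : 1 + e * (δ * Real.log 2) ≤ ((2:ℝ) ^ δ) ^ e := by
              rw [Real.rpow_def_of_pos (by norm_num), ← Real.exp_nat_mul]
              have := Real.add_one_le_exp (e * (Real.log 2 * δ))
              linarith
            have he : (0:ℝ) ≤ e := by positivity
            have h4 : (e:ℝ) + 1 ≤ K * (1 + e * (δ * Real.log 2)) := by nlinarith
            exact h4.trans (mul_le_mul_of_nonneg_left (h3.trans h2) (by linarith))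
          · have h1 : (2:ℝ) ≤ (p:ℝ) ^ δ := by
              have h5 : (2:ℝ) ^ (1/δ) ≤ p := hT.trans (by exact_mod_cast not_lt.mp h)
              have h6 := Real.rpow_le_rpow (by positivity) h5 hδ.le
              rw [← Real.rpow_mul (by norm_num), one_div, inv_mul_cancel₀ hδ.ne', Real.rpow_one] at h6
              exact h6
            have h2 : (2:ℝ) ^ e ≤ ((p:ℝ) ^ δ) ^ e := pow_le_pow_left₀ (by positivity) h1 e
            have h3 : (e:ℝ) + 1 ≤ 2 ^ e := by
              have : e + 1 ≤ 2 ^ e := Nat.lt_two_pow_self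
              exact_mod_cast this
            rw [one_mul]
            exact h3.trans h2
    _ = (∏ p ∈ n.primeFactors, (if p < T then K else 1)) * (n:ℝ) ^ δ := by
        rw [Finset.prod_mul_distrib, hn2]
    _ ≤ K ^ T * (n:ℝ) ^ δ := mul_le_mul_of_nonneg_right hKT (by positivity)

def G (M X : ℕ) : Set (Multiset ℕ) := {r | (∀ y ∈ r, 2 ≤ y ∧ y ≤ M) ∧ r.prod ≤ X}

lemma one_le_prod (r : Multiset ℕ) (h : ∀ y ∈ r, 1 ≤ y) : 1 ≤ r.prod :=
  Multiset.one_le_prod_of_one_le h

lemma G_bound (σ : ℝ) (hσ : 1 ≤ σ) (M : ℕ) : ∀ X : ℕ, (G M X).Finite ∧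
    ((G M X).ncard : ℝ) ≤ Real.exp (2 * ∑ m ∈ Finset.range (M + 1), ((m:ℝ) ^ σ)⁻¹) * (X:ℝ) ^ σ := by
  have base : ∀ M, M ≤ 1 → ∀ X : ℕ, (G M X).Finite ∧
      ((G M X).ncard : ℝ) ≤ Real.exp (2 * ∑ m ∈ Finset.range (M + 1), ((m:ℝ) ^ σ)⁻¹) * (X:ℝ) ^ σ := by
    intro M hM X
    have hsub : G M X ⊆ {0} := by
      intro r hr
      rw [Set.mem_singleton_iff, Multiset.eq_zero_iff_forall_notMem]
      intro y hy
      have := hr.1 y hy
      omega
    refine ⟨(Set.finite_singleton _).subset hsub, ?_⟩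
    rcases Nat.eq_zero_or_pos X with hX | hX
    · have : G M X = ∅ := by
        apply Set.eq_empty_of_forall_notMem
        intro r hr
        have h1 := one_le_prod r (fun y hy => by have := hr.1 y hy; omega)
        have := hr.2
        omega
      rw [this]
      simp only [Set.ncard_empty, Nat.cast_zero]
      positivity
    · have h1 : (G M X).ncard ≤ 1 := by
        have := Set.ncard_le_ncard hsub (Set.finite_singleton _)
        simpa using this
      have h2 : ((G M X).ncard : ℝ) ≤ 1 := by exact_mod_cast h1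
      have h3 : (1:ℝ) ≤ (X:ℝ) ^ σ := Real.one_le_rpow (by exact_mod_cast hX) (by linarith)
      have h4 : (1:ℝ) ≤ Real.exp (2 * ∑ m ∈ Finset.range (M + 1), ((m:ℝ) ^ σ)⁻¹) :=
        Real.one_le_exp (by positivity)
      nlinarith
  induction M with
  | zero => exact base 0 (by norm_num)
  | succ M ih =>
    rcases Nat.eq_zero_or_pos M with hM | hM
    · subst hM; exact base 1 le_rfl
    intro X
    induction X using Nat.strong_induction_on with
    | _ X ihX =>
      rcases Nat.eq_zero_or_pos X with hX | hX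
      · have : G (M + 1) X = ∅ := by
          apply Set.eq_empty_of_forall_notMem
          intro r hr
          have h1 := one_le_prod r (fun y hy => by have := hr.1 y hy; omega)
          have := hr.2
          omega
        rw [this]
        simp only [Set.ncard_empty, Nat.cast_zero, Set.finite_empty, true_and]
        positivity
      have hlt : X / (M + 1) < X := Nat.div_lt_self hX (by omega)
      obtain ⟨f1, b1⟩ := ih X
      obtain ⟨f2, b2⟩ := ihX _ hlt
      have hsub : G (M + 1) X ⊆ G M X ∪ (fun r => (M + 1) ::ₘ r) '' G (M + 1) (X / (M + 1)) := by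
        intro r hr
        by_cases hm : (M + 1) ∈ r
        · right
          obtain ⟨r', rfl⟩ := Multiset.exists_cons_of_mem hm
          refine ⟨r', ⟨fun y hy => hr.1 y (Multiset.mem_cons_of_mem hy), ?_⟩, rfl⟩
          have := hr.2
          rw [Multiset.prod_cons] at this
          rw [Nat.le_div_iff_mul_le (by omega)]
          linarith
        · left
          refine ⟨fun y hy => ?_, hr.2⟩
          have h1 := hr.1 y hy
          have : y ≠ M + 1 := fun h => hm (h ▸ hy)
          omega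
      have ffin := f1.union (f2.image (fun r => (M + 1) ::ₘ r))
      refine ⟨ffin.subset hsub, ?_⟩
      have h1 : (G (M + 1) X).ncard ≤ (G M X).ncard + (G (M + 1) (X / (M + 1))).ncard :=
        (Set.ncard_le_ncard hsub ffin).trans ((Set.ncard_union_le _ _).trans
          (Nat.add_le_add_left (Set.ncard_image_le f2) _))
      have h2 : ((G (M + 1) X).ncard : ℝ) ≤ (G M X).ncard + (G (M + 1) (X / (M + 1))).ncard := by
        exact_mod_cast h1
      obtain ⟨u, hu⟩ : ∃ u : ℝ, u = (((M + 1 : ℕ):ℝ) ^ σ)⁻¹ := ⟨_, rfl⟩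
      have hu0 : 0 ≤ u := by rw [hu]; positivity
      have hu1 : u ≤ 1 / 2 := by
        rw [hu, one_div]
        apply inv_anti₀ (by norm_num)
        have h3 : (2:ℝ) ≤ ((M + 1 : ℕ):ℝ) := by exact_mod_cast (by omega : 2 ≤ M + 1)
        calc (2:ℝ) ≤ ((M + 1 : ℕ):ℝ) := h3
          _ = ((M + 1 : ℕ):ℝ) ^ (1:ℝ) := (Real.rpow_one _).symm
          _ ≤ _ := Real.rpow_le_rpow_of_exponent_le (by linarith) hσ
      have h5 : ((X / (M + 1) : ℕ) : ℝ) ^ σ ≤ (X:ℝ) ^ σ * u := by
        have h6 : ((X / (M + 1) : ℕ) : ℝ) ≤ (X:ℝ) / ((M + 1 : ℕ):ℝ) := Nat.cast_div_le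
        have h7 := Real.rpow_le_rpow (by positivity) h6 (by linarith : 0 ≤ σ)
        rw [Real.div_rpow (by positivity) (by positivity), div_eq_mul_inv, ← hu] at h7
        exact h7
      rw [Finset.sum_range_succ _ (M + 1), ← hu, mul_add, Real.exp_add] at b2 ⊢
      obtain ⟨c, hc⟩ : ∃ c, c = Real.exp (2 * ∑ m ∈ Finset.range (M + 1), ((m:ℝ) ^ σ)⁻¹) := ⟨_, rfl⟩
      rw [← hc] at b1 b2 ⊢
      have hc0 : 0 < c := by rw [hc]; exact Real.exp_pos _
      have he : 1 + 2 * u ≤ Real.exp (2 * u) := by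
        have := Real.add_one_le_exp (2 * u); linarith
      have he2 : 1 ≤ Real.exp (2 * u) * (1 - u) := by nlinarith
      have hXs : (0:ℝ) ≤ (X:ℝ) ^ σ := by positivity
      have h8 : c * Real.exp (2 * u) * ((X / (M + 1) : ℕ) : ℝ) ^ σ ≤ c * Real.exp (2 * u) * ((X:ℝ) ^ σ * u) :=
        mul_le_mul_of_nonneg_left h5 (by positivity)
      have h9 : c * (X:ℝ) ^ σ * 1 ≤ c * (X:ℝ) ^ σ * (Real.exp (2 * u) * (1 - u)) :=
        mul_le_mul_of_nonneg_left he2 (by positivity)
      nlinarith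

lemma G_bound2 (σ : ℝ) (hσ : 1 < σ) : ∃ C : ℝ, 0 < C ∧ ∀ X : ℕ, (G X X).Finite ∧
    ((G X X).ncard : ℝ) ≤ C * (X:ℝ) ^ σ := by
  have hs : Summable (fun m : ℕ => ((m:ℝ) ^ σ)⁻¹) := Real.summable_nat_rpow_inv.mpr hσ
  refine ⟨Real.exp (2 * ∑' m : ℕ, ((m:ℝ) ^ σ)⁻¹), Real.exp_pos _, fun X => ?_⟩
  obtain ⟨h1, h2⟩ := G_bound σ hσ.le X X
  refine ⟨h1, h2.trans ?_⟩
  apply mul_le_mul_of_nonneg_right _ (by positivity)
  apply Real.exp_le_exp.mpr
  have := hs.sum_le_tsum (Finset.range (X + 1)) (fun i _ => by positivity)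
  linarith

lemma sum_le (r : Multiset ℕ) (h : ∀ y ∈ r, 1 ≤ y) : r.sum + 1 ≤ r.prod + r.card := by
  induction r using Multiset.induction_on with
  | empty => simp
  | cons a r ih =>
    have h1 := ih (fun y hy => h y (Multiset.mem_cons_of_mem hy))
    have h2 := h a (Multiset.mem_cons_self _ _)
    have h3 := one_le_prod r (fun y hy => h y (Multiset.mem_cons_of_mem hy))
    rw [Multiset.sum_cons, Multiset.prod_cons, Multiset.card_cons]
    obtain ⟨a, rfl⟩ := Nat.exists_eq_add_of_le h2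
    obtain ⟨b, hb⟩ := Nat.exists_eq_add_of_le h3
    rw [hb] at h1 ⊢
    nlinarith [Nat.zero_le (a * b)]

lemma card_le_sum (r : Multiset ℕ) (h : ∀ y ∈ r, 1 ≤ y) : r.card ≤ r.sum := by
  have := Multiset.card_nsmul_le_sum h
  simpa using this

lemma split_ones (r : Multiset ℕ) (h : ∀ y ∈ r, 0 < y) :
    ∃ (j : ℕ) (q : Multiset ℕ), r = Multiset.replicate j 1 + q ∧ ∀ y ∈ q, 2 ≤ y := by
  refine ⟨(r.filter (fun y => y = 1)).card, r.filter (fun y => ¬ y = 1), ?_, ?_⟩
  · have : r.filter (fun y => y = 1) = Multiset.replicate (r.filter (fun y => y = 1)).card 1 := by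
      rw [Multiset.eq_replicate]
      exact ⟨rfl, fun b hb => (Multiset.mem_filter.mp hb).2⟩
    rw [← this, Multiset.filter_add_not]
  · intro y hy
    rw [Multiset.mem_filter] at hy
    have := h y hy.1
    omega

def build (p : ℕ) (q : Multiset ℕ) : Multiset ℕ :=
  (p * ((p - 1 - q.card + q.sum) / (q.prod - p))) ::ₘ (Multiset.replicate (p - 1 - q.card) 1 + q)

def W (q : Multiset ℕ) : ℕ := q.prod + q.sum - q.card - 1

lemma structure_sol (p : ℕ) (hp : p.Prime) (s : Multiset ℕ) (hc : s.card = p) (hpos : ∀ x ∈ s, 0 < x)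
    (he : s.prod = p * s.sum) :
    ∃ q : Multiset ℕ, s = build p q ∧ (∀ y ∈ q, 2 ≤ y) ∧ p < q.prod ∧ q.prod ≤ 4 * p ∧
      (q.prod - p) ∣ W q := by
  have hd : p ∣ s.prod := ⟨_, he⟩
  obtain ⟨x, hx, z, rfl⟩ := hp.prime.exists_mem_multiset_dvd hd
  obtain ⟨r, rfl⟩ := Multiset.exists_cons_of_mem hx
  obtain ⟨j, q, rfl, hq⟩ := split_ones r (fun y hy => hpos y (Multiset.mem_cons_of_mem hy))
  have hz : 0 < z := Nat.pos_of_mul_pos_left (hpos _ (Multiset.mem_cons_self _ _))
  simp only [Multiset.card_cons, Multiset.card_add, Multiset.card_replicate, Multiset.prod_cons,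
    Multiset.prod_add, Multiset.prod_replicate, one_pow, one_mul, Multiset.sum_cons,
    Multiset.sum_add, Multiset.sum_replicate, smul_eq_mul, mul_one] at hc he
  have hp2 := hp.two_le
  have he2 : z * q.prod = p * z + (j + q.sum) := by
    have : p * (z * q.prod) = p * (p * z + (j + q.sum)) := by rw [← he]; ring
    exact Nat.eq_of_mul_eq_mul_left hp.pos this
  have hq1 : ∀ y ∈ q, 1 ≤ y := fun y hy => by have := hq y hy; omega
  have hcs := card_le_sum q hq1
  have hsl := sum_le q hq1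
  have hlt : p < q.prod := by
    by_contra hle
    push Not at hle
    have : z * q.prod ≤ z * p := Nat.mul_le_mul_left _ hle
    nlinarith
  obtain ⟨d, hd⟩ := Nat.exists_eq_add_of_lt hlt
  have hd2 : q.prod - p = d + 1 := by omega
  have he3 : j + q.sum = (d + 1) * z := by
    rw [hd] at he2; nlinarith
  have hj : p - 1 - q.card = j := by omega
  refine ⟨q, ?_, hq, hlt, ?_, ?_⟩
  · unfold build
    rw [hj, hd2, he3, Nat.mul_div_cancel_left _ (by omega)]
  · rcases Nat.lt_or_ge z 2 with hz2 | hz2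
    · have hz1 : z = 1 := by omega
      subst hz1
      rcases Multiset.empty_or_exists_mem q with h0 | ⟨a, ha⟩
      · subst h0; simp at hlt; omega
      obtain ⟨q', rfl⟩ := Multiset.exists_cons_of_mem ha
      have ha2 := hq a (Multiset.mem_cons_self _ _)
      have hq' : ∀ y ∈ q', 1 ≤ y := fun y hy => hq1 y (Multiset.mem_cons_of_mem hy)
      have h1 := sum_le q' hq'
      have h2 := one_le_prod q' hq'
      simp only [Multiset.card_cons, Multiset.prod_cons, Multiset.sum_cons] at *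
      rcases Nat.lt_or_ge q'.prod 2 with h3 | h3
      · have h4 : q'.prod = 1 := by omega
        rw [h4] at he2 h1
        have := card_le_sum q' hq'
        omega
      · obtain ⟨a', rfl⟩ := Nat.exists_eq_add_of_le ha2
        obtain ⟨b', hb⟩ := Nat.exists_eq_add_of_le h3
        rw [hb] at he2 h1 ⊢
        nlinarith [Nat.zero_le (a' * b')]
    · have : (d + 1) * 2 ≤ (d + 1) * z := Nat.mul_le_mul_left _ hz2
      omega
  · rw [hd2]
    have : W q = (d + 1) * (z + 1) := by
      unfold W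
      have : (d + 1) * (z + 1) = (d + 1) * z + (d + 1) := by ring
      omega
    exact ⟨_, this⟩

lemma mem_le_prod (q : Multiset ℕ) (h : ∀ y ∈ q, 2 ≤ y) (y : ℕ) (hy : y ∈ q) : y ≤ q.prod :=
  Nat.le_of_dvd (one_le_prod q (fun y hy => by have := h y hy; omega)) (Multiset.dvd_prod hy)

lemma sum_bound (ε : ℝ) (hε : 0 < ε) : ∃ C : ℝ, 0 < C ∧ ∀ X : ℕ,
    ∑ p ∈ (Finset.range (X + 1)).filter Nat.Prime,
      (({s : Multiset ℕ | Multiset.card s = p ∧ (∀ x ∈ s, 0 < x) ∧
            s.prod = p * s.sum}.ncard : ℕ) : ℝ) ≤ C * (X:ℝ) ^ (1 + ε) := by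
  classical
  obtain ⟨C1, hC1, h1⟩ := G_bound2 (1 + ε / 2) (by linarith)
  obtain ⟨C2, hC2, h2⟩ := divisor_bound (ε / 2) (by linarith)
  refine ⟨C1 * 4 ^ (1 + ε / 2) * (C2 * 8 ^ (ε / 2)), by positivity, fun X => ?_⟩
  obtain ⟨hf, hb⟩ := h1 (4 * X)
  have step1 : ∀ p ∈ (Finset.range (X + 1)).filter Nat.Prime,
      (({s : Multiset ℕ | Multiset.card s = p ∧ (∀ x ∈ s, 0 < x) ∧
            s.prod = p * s.sum}.ncard : ℕ) : ℝ) ≤
        ∑ q ∈ hf.toFinset, (if p < q.prod ∧ (q.prod - p) ∣ W q then (1:ℝ) else 0) := by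
    intro p hp
    rw [Finset.mem_filter, Finset.mem_range] at hp
    rw [Finset.sum_boole]
    have hsub : {s : Multiset ℕ | Multiset.card s = p ∧ (∀ x ∈ s, 0 < x) ∧ s.prod = p * s.sum} ⊆
        ((hf.toFinset.filter (fun q => p < q.prod ∧ (q.prod - p) ∣ W q)).image (build p) : Finset _) := by
      rintro s ⟨a1, a2, a3⟩
      obtain ⟨q, e, b1, b2, b3, b4⟩ := structure_sol p hp.2 s a1 a2 a3
      simp only [Finset.coe_image, Finset.coe_filter, Set.Finite.mem_toFinset, Set.mem_image,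
        Set.mem_ofPred_eq]
      refine ⟨q, ⟨⟨fun y hy => ⟨b1 y hy, ?_⟩, ?_⟩, b2, b4⟩, e.symm⟩
      · have := mem_le_prod q b1 y hy
        omega
      · omega
    have h3 := Set.ncard_le_ncard hsub (Finset.finite_toSet _)
    rw [Set.ncard_coe_finset] at h3
    exact_mod_cast h3.trans Finset.card_image_le
  refine (Finset.sum_le_sum step1).trans ?_
  rw [Finset.sum_comm]
  have step2 : ∀ q ∈ hf.toFinset, ∑ p ∈ (Finset.range (X + 1)).filter Nat.Prime,
      (if p < q.prod ∧ (q.prod - p) ∣ W q then (1:ℝ) else 0) ≤ C2 * 8 ^ (ε / 2) * (X:ℝ) ^ (ε / 2) := by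
    intro q hq
    rw [Set.Finite.mem_toFinset] at hq
    have hq1 : ∀ y ∈ q, 1 ≤ y := fun y hy => by have := hq.1 y hy; omega
    have a1 := card_le_sum q hq1
    have a2 := sum_le q hq1
    have a3 := hq.2
    rw [Finset.sum_boole]
    by_cases hW : W q = 0
    · have : (((Finset.range (X + 1)).filter Nat.Prime).filter
          (fun p => p < q.prod ∧ (q.prod - p) ∣ W q)) = ∅ := by
        apply Finset.filter_eq_empty_iff.mpr
        intro p hp h
        have := (Finset.mem_filter.mp hp).2.two_le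
        unfold W at hW
        omega
      rw [this]
      simp only [Finset.card_empty, Nat.cast_zero]
      positivity
    have h4 : (((Finset.range (X + 1)).filter Nat.Prime).filter
          (fun p => p < q.prod ∧ (q.prod - p) ∣ W q)).card ≤ (W q).divisors.card := by
      apply Finset.card_le_card_of_injOn (fun p => q.prod - p)
      · intro p hp
        rw [Finset.mem_coe, Finset.mem_filter] at hp
        rw [Finset.mem_coe, Nat.mem_divisors]
        exact ⟨hp.2.2, hW⟩
      · intro p hp p' hp' h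
        rw [Finset.mem_coe, Finset.mem_filter] at hp hp'
        have := hp.2.1
        have := hp'.2.1
        simp only at h
        omega
    have h5 : (W q : ℝ) ≤ 8 * X := by
      have : W q ≤ 8 * X := by unfold W; omega
      exact_mod_cast this
    have h6 := Real.rpow_le_rpow (by positivity) h5 (by linarith : 0 ≤ ε / 2)
    rw [Real.mul_rpow (by norm_num) (by positivity)] at h6
    calc _ ≤ ((W q).divisors.card : ℝ) := by exact_mod_cast h4
      _ ≤ C2 * (W q : ℝ) ^ (ε / 2) := h2 _ hW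
      _ ≤ C2 * (8 ^ (ε / 2) * (X:ℝ) ^ (ε / 2)) := mul_le_mul_of_nonneg_left h6 hC2.le
      _ = _ := by ring
  refine (Finset.sum_le_sum step2).trans ?_
  rw [Finset.sum_const, nsmul_eq_mul, ← Set.ncard_eq_toFinset_card _ hf]
  push_cast at hb
  rw [Real.mul_rpow (by norm_num) (by positivity)] at hb
  have h7 : (X:ℝ) ^ (1 + ε) = (X:ℝ) ^ (1 + ε / 2) * (X:ℝ) ^ (ε / 2) := by
    rw [← Real.rpow_add' (by positivity) (by linarith)]
    congr 1; ring
  rw [h7]
  calc _ ≤ C1 * (4 ^ (1 + ε / 2) * (X:ℝ) ^ (1 + ε / 2)) * (C2 * 8 ^ (ε / 2) * (X:ℝ) ^ (ε / 2)) :=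
        mul_le_mul_of_nonneg_right hb (by positivity)
    _ = _ := by ring

lemma pi_lower : ∀ᶠ x : ℕ in atTop, (x:ℝ) / (10 * Real.log x) ≤ ((Nat.primeCounting x / 2 : ℕ) : ℝ) := by
  have h1 : ∀ᶠ x : ℝ in atTop, ‖Real.log x‖ ≤ (1/20) * ‖x‖ :=
    Real.isLittleO_log_id_atTop.bound (by norm_num)
  have h2 := tendsto_natCast_atTop_atTop (R := ℝ) |>.eventually h1
  filter_upwards [h2, eventually_ge_atTop 3] with x hx hx3
  have hxr : (3:ℝ) ≤ x := by exact_mod_cast hx3
  have hl0 : 0 < Real.log x := Real.log_pos (by linarith)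
  rw [Real.norm_of_nonneg hl0.le, Real.norm_of_nonneg (by linarith)] at hx
  have hpi := Chebyshev.pi_ge x
  have hl2 : Real.log (x + 1) ≤ 2 * Real.log x := by
    have : Real.log (x + 1) ≤ Real.log ((x:ℝ) ^ 2) := by
      apply Real.log_le_log (by linarith)
      nlinarith
    rw [Real.log_pow] at this
    simpa using this
  have hdiv : (Nat.primeCounting x : ℝ) / 2 - 1 ≤ ((Nat.primeCounting x / 2 : ℕ) : ℝ) := by
    have : Nat.primeCounting x ≤ 2 * (Nat.primeCounting x / 2) + 2 := by omega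
    have : (Nat.primeCounting x : ℝ) ≤ 2 * ((Nat.primeCounting x / 2 : ℕ) : ℝ) + 2 := by exact_mod_cast this
    linarith
  have hlog2 := Real.log_two_gt_d9
  have e1 : (x * Real.log 2 - Real.log (x + 1)) ≤ Nat.primeCounting x * Real.log x := by
    rwa [div_le_iff₀ hl0] at hpi
  rw [div_le_iff₀ (by positivity)]
  have e3 := mul_le_mul_of_nonneg_right hdiv hl0.le
  have e6 : (x:ℝ) * 0.6931471803 ≤ x * Real.log 2 := by
    apply mul_le_mul_of_nonneg_left hlog2.le (by linarith)
  nlinarith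

theorem result :
    ¬ (∃ ε : ℝ, 0 < ε ∧ ∃ N : ℕ, ∀ n : ℕ, N ≤ n →
      (n : ℝ) ^ ε <
        (({s : Multiset ℕ | Multiset.card s = n ∧ (∀ x ∈ s, 0 < x) ∧
            s.prod = n * s.sum}.ncard : ℕ) : ℝ)) := by
  rintro ⟨ε, hε, N, hN⟩
  obtain ⟨C, hC, hsum⟩ := sum_bound (ε / 2) (by linarith)
  have h1 : ∀ᶠ x : ℝ in atTop, ‖Real.log x ^ (1 + ε)‖ ≤ (1 / (2 * (C * 10 ^ (1 + ε)))) * ‖x ^ (ε / 2)‖ :=
    (isLittleO_log_rpow_rpow_atTop (1 + ε) (by linarith : 0 < ε / 2)).bound (by positivity)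
  have h2 := tendsto_natCast_atTop_atTop (R := ℝ) |>.eventually h1
  have h3 : ∀ᶠ x : ℕ in atTop, 2 * N ≤ Nat.primeCounting x :=
    Nat.tendsto_primeCounting.eventually (eventually_ge_atTop _)
  obtain ⟨X, hX1, hX2, hX3, hX4⟩ := (h2.and (h3.and (pi_lower.and (eventually_ge_atTop 3)))).exists
  have hxr : (3:ℝ) ≤ X := by exact_mod_cast hX4
  have hl0 : 0 < Real.log X := Real.log_pos (by linarith)
  rw [Real.norm_of_nonneg (by positivity), Real.norm_of_nonneg (by positivity)] at hX1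
  obtain ⟨L, hL⟩ : ∃ L, L = Nat.primeCounting X / 2 := ⟨_, rfl⟩
  rw [← hL] at hX3
  have hNL : N ≤ L := by omega
  have hcard : L ≤ (((Finset.range (X + 1)).filter Nat.Prime).filter (fun p => L ≤ p)).card := by
    have e1 : ((Finset.range (X + 1)).filter Nat.Prime).card = Nat.primeCounting X := by
      rw [← Nat.count_eq_card_filter_range]; rfl
    have e2 := Finset.card_filter_add_card_filter_not (s := (Finset.range (X + 1)).filter Nat.Prime)
      (fun p => L ≤ p)
    have e3 : (((Finset.range (X + 1)).filter Nat.Prime).filter (fun p => ¬ L ≤ p)).card ≤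
        (Finset.range L).card := by
      apply Finset.card_le_card
      intro p hp
      exact Finset.mem_range.mpr (not_le.mp (Finset.mem_filter.mp hp).2)
    rw [Finset.card_range] at e3
    omega
  have hlow : (L:ℝ) * (L:ℝ) ^ ε ≤ C * (X:ℝ) ^ (1 + ε / 2) := by
    refine le_trans ?_ (hsum X)
    refine le_trans ?_ (Finset.sum_le_sum_of_subset_of_nonneg
      (Finset.filter_subset (fun p => L ≤ p) _) (fun i _ _ => by positivity))
    refine le_trans ?_ (Finset.card_nsmul_le_sum _ _ ((L:ℝ) ^ ε) ?_)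
    · rw [nsmul_eq_mul]
      exact mul_le_mul_of_nonneg_right (by exact_mod_cast hcard) (by positivity)
    · intro p hp
      have hLp := (Finset.mem_filter.mp hp).2
      refine le_trans ?_ (hN p (hNL.trans hLp)).le
      exact Real.rpow_le_rpow (by positivity) (by exact_mod_cast hLp) hε.le
  have hL0 : (0:ℝ) < L := lt_of_lt_of_le (by positivity) hX3
  have e4 : (L:ℝ) * (L:ℝ) ^ ε = (L:ℝ) ^ (1 + ε) := by
    rw [Real.rpow_add hL0, Real.rpow_one]
  have e5 := Real.rpow_le_rpow (by positivity) hX3 (by linarith : 0 ≤ 1 + ε)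
  rw [Real.div_rpow (by positivity) (by positivity), Real.mul_rpow (by norm_num) hl0.le] at e5
  have e6 : (X:ℝ) ^ (1 + ε) = (X:ℝ) ^ (1 + ε / 2) * (X:ℝ) ^ (ε / 2) := by
    rw [← Real.rpow_add (by linarith)]
    congr 1; ring
  rw [e4] at hlow
  have e7 := e5.trans hlow
  rw [div_le_iff₀ (by positivity), e6] at e7
  have hA : (0:ℝ) < (X:ℝ) ^ (1 + ε / 2) := by positivity
  have hB : (0:ℝ) < (X:ℝ) ^ (ε / 2) := by positivity
  have e8 : (X:ℝ) ^ (ε / 2) ≤ C * 10 ^ (1 + ε) * Real.log X ^ (1 + ε) := by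
    have : (X:ℝ) ^ (1 + ε / 2) * (X:ℝ) ^ (ε / 2) ≤
        (X:ℝ) ^ (1 + ε / 2) * (C * 10 ^ (1 + ε) * Real.log X ^ (1 + ε)) := by
      calc _ ≤ _ := e7
        _ = _ := by ring
    exact le_of_mul_le_mul_left this hA
  have hD : (0:ℝ) < C * 10 ^ (1 + ε) := by positivity
  have e9 := mul_le_mul_of_nonneg_left hX1 hD.le
  have e10 : C * 10 ^ (1 + ε) * (1 / (2 * (C * 10 ^ (1 + ε))) * (X:ℝ) ^ (ε / 2)) = (X:ℝ) ^ (ε / 2) / 2 := by
    field_simp
  rw [e10] at e9
  linarith

end Pool.Agent.S17662
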