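import Pool.Statements.S17720
import Pool.Agent.H.MP_8d5d9c_nt.E

set_option autoImplicit false
open Pool Pool.MP_8d5d9c_nt

namespace Pool.Agent.S17720

open Pool.Agent.H.MP_8d5d9c_nt

theorem result :
    ¬ (∀ x q r : ℝ,
      (Irrational x ∧ ∀ t : ℝ, 0 ≤ t → t ≤ 1 →
        Filter.Tendsto
          (fun N : ℕ =>
            (((Finset.range N).filter
              (fun n => (fun y : ℝ => Int.fract (1 / y))^[n] (Int.fract x) < t)).card : ℝ) / (N : ℝ))
          Filter.atTop (nhds (Real.log (1 + t) / Real.log 2))) →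
      (Irrational q ∧ ∃ a b c : ℤ, (a ≠ 0 ∨ b ≠ 0 ∨ c ≠ 0) ∧
        (a : ℝ) * q ^ 2 + (b : ℝ) * q + (c : ℝ) = 0) →
      (Irrational r ∧ ∃ a b c : ℤ, (a ≠ 0 ∨ b ≠ 0 ∨ c ≠ 0) ∧
        (a : ℝ) * r ^ 2 + (b : ℝ) * r + (c : ℝ) = 0) →
      q ≠ 0 →
      (Irrational (q * x + r) ∧ ∀ t : ℝ, 0 ≤ t → t ≤ 1 →
        Filter.Tendsto
          (fun N : ℕ =>
            (((Finset.range N).filter
              (fun n => (fun y : ℝ => Int.fract (1 / y))^[n] (Int.fract (q * x + r)) < t)).card : ℝ) / (N : ℝ))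
          Filter.atTop (nhds (Real.log (1 + t) / Real.log 2)))) := by
  intro h
  obtain ⟨x, h1, h2, h3⟩ := ex
  have e : ∀ (y t : ℝ) (N : ℕ), (((Finset.range N).filter (fun n =>
      (fun y : ℝ => Int.fract (1 / y))^[n] y < t)).card : ℝ) =
      ∑ i ∈ Finset.range N, ind (T^[i] y) t := fun y t N => by
    rw [Finset.card_filter]; push_cast; rfl
  have q : Irrational √2 ∧ ∃ a b c : ℤ, (a ≠ 0 ∨ b ≠ 0 ∨ c ≠ 0) ∧
      (a : ℝ) * √2 ^ 2 + (b : ℝ) * √2 + (c : ℝ) = 0 :=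
    ⟨irrational_sqrt_two, 1, 0, -2, by simp, by simp⟩
  have := (h x √2 √2 ⟨irr_of h1, fun t a b => by
    simp only [e, (Int.fract_eq_self (a := x)).mpr ⟨(h1 0).1.le, (h1 0).2⟩]
    exact h2 t ⟨a, b⟩⟩ q q (by positivity)).2 (1 / 2) (by norm_num) (by norm_num)
  simp only [e] at this
  have l : 7 / 12 < Real.log (1 + 1 / 2) / Real.log 2 := by
    rw [div_lt_div_iff₀ (by norm_num) l2, mul_comm _ (12 : ℝ), ← Nat.cast_ofNat (n := 7),
      ← Nat.cast_ofNat (n := 12), ← Real.log_pow, ← Real.log_pow]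
    exact Real.log_lt_log (by norm_num) (by norm_num)
  obtain ⟨R, hR⟩ := Filter.eventually_atTop.mp (this.eventually_const_lt l)
  obtain ⟨N, a, b⟩ := h3 (R + 1)
  exact (hR N (by omega)).not_ge ((div_le_iff₀ (by exact_mod_cast (by omega : 0 < N))).mpr b)

end Pool.Agent.S17720
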