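import Pool.Statements.S17740
import Pool.Agent.H.MP_8f0c89_nt.Main

set_option autoImplicit false
open N435e839e
open Pool Pool.MP_8f0c89_nt

namespace Pool.Agent.S17740

theorem result :
    ¬ (Filter.Tendsto (properSum true) Filter.atTop Filter.atTop) := by
  exact Pool.Agent.H.MP_8f0c89_nt.not_tendsto true

end Pool.Agent.S17740
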