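import Pool.Statements.S17870
import Pool.Agent.H.MP_9b3484_nt.Key

set_option autoImplicit false
open Pool Pool.MP_9b3484_nt

namespace Pool.Agent.S17870

open Pool.Agent.H.MP_9b3484_nt

def Inv (X : ℕ) (y : ℝ) : Prop := 1 ≤ X ∧ 1 < y ∧ y + 1 / (12 * (X : ℝ) ^ 2) ≤ 2 ∧
  ∀ z : ℝ, y ≤ z → z ≤ y + 1 / (12 * (X : ℝ) ^ 2) → ∀ s : ℕ, 2 ≤ s → s ≤ X → ∀ r : ℕ,
    1 / (s : ℝ) ^ 100 ≤ |z - (r : ℝ) / s|

lemma step (X : ℕ) (y : ℝ) (h : Inv X y) : ∃ b : ℕ, X < 3 ^ b ∧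
    Inv (3 ^ b) (xx b + 1 / (4 * ((3 : ℝ) ^ b) ^ 2)) ∧ y ≤ xx b ∧
    xx b + 1 / (3 * ((3 : ℝ) ^ b) ^ 2) ≤ y + 1 / (12 * (X : ℝ) ^ 2) := by
  obtain ⟨h1, h2, h3, h4⟩ := h
  obtain ⟨b, b1, b2, b3, b4⟩ := key X h1 y h2 h3
  have hX : (1 : ℝ) ≤ X := by exact_mod_cast h1
  have hQ : 3 * (X : ℝ) ≤ 3 ^ b := by exact_mod_cast b1
  have hQ0 : (0 : ℝ) < 3 ^ b := by positivity
  have e1 : 1 / (3 * ((3 : ℝ) ^ b) ^ 2) ≤ 1 / (24 * (X : ℝ) ^ 2) := by
    apply one_div_le_one_div_of_le (by positivity); nlinarith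
  have e2 : 1 / (12 * (X : ℝ) ^ 2) = 2 * (1 / (24 * (X : ℝ) ^ 2)) := by field_simp; ring
  have e3 : 1 / (4 * ((3 : ℝ) ^ b) ^ 2) = 1 / 4 * (1 / ((3 : ℝ) ^ b) ^ 2) := by field_simp
  have e4 : 1 / (12 * ((3 : ℝ) ^ b) ^ 2) = 1 / 12 * (1 / ((3 : ℝ) ^ b) ^ 2) := by field_simp
  have e5 : 1 / (3 * ((3 : ℝ) ^ b) ^ 2) = 1 / 3 * (1 / ((3 : ℝ) ^ b) ^ 2) := by field_simp
  have e6 : 0 < 1 / ((3 : ℝ) ^ b) ^ 2 := by positivity
  refine ⟨b, by omega, ⟨by omega, by linarith, ?_, ?_⟩, b2, by linarith⟩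
  · push_cast; linarith
  · intro z z1 z2 s s1 s2 r
    push_cast at z2
    by_cases c : s ≤ X
    · exact h4 z (by linarith) (by linarith) s s1 c r
    have hs2 : (s : ℝ) ≤ 3 ^ b := by exact_mod_cast s2
    have hs0 : (0 : ℝ) < s := by positivity
    by_cases c2 : r * 3 ^ b = 2 ^ AA b * s
    · have hd : 3 ^ b ∣ 2 ^ AA b * s := ⟨r, by rw [← c2]; ring⟩
      have hd2 : 3 ^ b ∣ s := (Nat.Coprime.pow b (AA b) (by norm_num)).dvd_of_dvd_mul_left hd
      have hs : s = 3 ^ b := le_antisymm s2 (Nat.le_of_dvd (by omega) hd2)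
      have hx : (r : ℝ) / s = xx b := by
        unfold xx
        rw [div_eq_div_iff hs0.ne' hQ0.ne']; exact_mod_cast c2
      rw [hx, abs_of_nonneg (by linarith)]
      have : 1 / (s : ℝ) ^ 100 ≤ 1 / (4 * ((3 : ℝ) ^ b) ^ 2) := by
        apply one_div_le_one_div_of_le (by positivity)
        have hs' : (s : ℝ) = 3 ^ b := by exact_mod_cast hs
        rw [← hs']
        have h2s : (2 : ℝ) ≤ s := by exact_mod_cast s1
        calc 4 * (s : ℝ) ^ 2 ≤ (s : ℝ) ^ 2 * (s : ℝ) ^ 2 :=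
            mul_le_mul_of_nonneg_right (by nlinarith) (by positivity)
          _ = (s : ℝ) ^ 4 := by ring
          _ ≤ (s : ℝ) ^ 100 := pow_le_pow_right₀ (by linarith) (by norm_num)
      linarith
    · have f1 := b4 s (by omega) r c2
      unfold Ev at f1
      push Not at f1
      have f2 := sep_low r s b (by omega) c2
      have f3 : 1 / ((3 : ℝ) ^ b) ^ 2 ≤ 1 / ((3 : ℝ) ^ b * s) := by
        apply one_div_le_one_div_of_le (by positivity); nlinarith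
      have f4 : |xx b - (r : ℝ) / s| ≤ |z - (r : ℝ) / s| + |z - xx b| := by
        have := abs_sub (z - (r : ℝ) / s) (z - xx b)
        rwa [show z - (r : ℝ) / s - (z - xx b) = xx b - (r : ℝ) / s by ring] at this
      rw [abs_of_nonneg (show 0 ≤ z - xx b by linarith)] at f4
      have f5 : 2 / (s : ℝ) ^ 100 = 2 * (1 / (s : ℝ) ^ 100) := by ring
      linarith

lemma exists_xi : ∃ ξ : ℝ, 1 < ξ ∧ (∀ s : ℕ, 2 ≤ s → ∀ r : ℕ, 1 / (s : ℝ) ^ 100 ≤ |ξ - (r : ℝ) / s|) ∧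
    ∀ T : ℕ, ∃ b : ℕ, T ≤ 3 ^ b ∧ |ξ - xx b| ≤ 1 / (3 * ((3 : ℝ) ^ b) ^ 2) := by
  have h0 : Inv 1 (3 / 2) := ⟨le_rfl, by norm_num, by norm_num, fun z _ _ s s1 s2 => by omega⟩
  choose! nb hnb using step
  let f : ℕ × ℝ → ℕ × ℝ := fun p => (3 ^ nb p.1 p.2, xx (nb p.1 p.2) + 1 / (4 * ((3 : ℝ) ^ nb p.1 p.2) ^ 2))
  let st : ℕ → ℕ × ℝ := fun k => f^[k] (1, 3 / 2)
  have hst : ∀ k, st (k + 1) = f (st k) := fun k => Function.iterate_succ_apply' f k _
  have hinv : ∀ k, Inv (st k).1 (st k).2 := by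
    intro k
    induction k with
    | zero => exact h0
    | succ k ih => rw [hst]; exact (hnb _ _ ih).2.1
  have hgrow : ∀ k, k ≤ (st k).1 := by
    intro k
    induction k with
    | zero => exact Nat.zero_le _
    | succ k ih => rw [hst]; exact Nat.succ_le_of_lt (lt_of_le_of_lt ih (hnb _ _ (hinv k)).1)
  have hlo : Monotone fun k => (st k).2 := by
    apply monotone_nat_of_le_succ
    intro k
    rw [hst]
    have := (hnb _ _ (hinv k)).2.2.1
    have p : 0 < 1 / (4 * ((3 : ℝ) ^ nb (st k).1 (st k).2) ^ 2) := by positivity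
    simp only [f]; linarith
  have e : ∀ Q : ℝ, 0 < Q → 1 / (4 * Q ^ 2) + 1 / (12 * Q ^ 2) = 1 / (3 * Q ^ 2) := by
    intro Q hQ; field_simp; ring
  have hhi : Antitone fun k => (st k).2 + 1 / (12 * ((st k).1 : ℝ) ^ 2) := by
    apply antitone_nat_of_succ_le
    intro k
    rw [hst]
    have := (hnb _ _ (hinv k)).2.2.2
    simp only [f]
    push_cast
    rw [add_assoc, e _ (by positivity)]
    exact this
  have hle : ∀ k l, (st l).2 ≤ (st k).2 + 1 / (12 * ((st k).1 : ℝ) ^ 2) := by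
    intro k l
    have a1 := hlo (le_max_right k l)
    have a2 := hhi (le_max_left k l)
    have p : 0 ≤ 1 / (12 * ((st (max k l)).1 : ℝ) ^ 2) := by positivity
    simp only at a1 a2
    linarith
  have hbdd : BddAbove (Set.range fun k => (st k).2) := ⟨_, by rintro _ ⟨l, rfl⟩; exact hle 0 l⟩
  have l1 : ∀ k, (st k).2 ≤ ⨆ k, (st k).2 := fun k => le_ciSup hbdd k
  have l2 : ∀ k, ⨆ k, (st k).2 ≤ (st k).2 + 1 / (12 * ((st k).1 : ℝ) ^ 2) :=
    fun k => ciSup_le (hle k)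
  refine ⟨⨆ k, (st k).2, (hinv 0).2.1.trans_le (l1 0), fun s hs r =>
    (hinv s).2.2.2 _ (l1 s) (l2 s) s hs (hgrow s) r, fun T => ?_⟩
  refine ⟨nb (st T).1 (st T).2, (hgrow T).trans (hnb _ _ (hinv T)).1.le, ?_⟩
  have a1 := l1 (T + 1)
  have a2 := l2 (T + 1)
  rw [hst] at a1 a2
  simp only [f] at a1 a2
  push_cast at a2
  rw [add_assoc, e _ (by positivity)] at a2
  have p : 0 < 1 / (4 * ((3 : ℝ) ^ nb (st T).1 (st T).2) ^ 2) := by positivity
  rw [abs_of_nonneg (by linarith)]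
  linarith

lemma cf_int (ξ : ℝ) (hξ : Irrational ξ) (n : ℕ) : ∃ a b a' b' : ℤ,
    (a : ℝ) = (GenContFract.of ξ).nums n ∧ (b : ℝ) = (GenContFract.of ξ).dens n ∧
    (a' : ℝ) = (GenContFract.of ξ).nums (n + 1) ∧ (b' : ℝ) = (GenContFract.of ξ).dens (n + 1) := by
  have hs : ∀ m, ∃ z : ℤ, ∃ gp, (GenContFract.of ξ).s.get? m = some gp ∧ gp.a = 1 ∧ gp.b = z := by
    intro m
    have hnt : ¬ (GenContFract.of ξ).TerminatedAt m := by
      intro h
      obtain ⟨q, hq⟩ := (GenContFract.terminates_iff_rat ξ).1 ⟨m, h⟩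
      exact hξ ⟨q, hq.symm⟩
    obtain ⟨gp, hgp⟩ := Option.ne_none_iff_exists'.1 hnt
    obtain ⟨h1, z, hz⟩ := GenContFract.of_partNum_eq_one_and_exists_int_partDen_eq hgp
    exact ⟨z, gp, hgp, h1, hz⟩
  induction n with
  | zero =>
    obtain ⟨z, gp, h1, h2, h3⟩ := hs 0
    refine ⟨⌊ξ⌋, 1, z * ⌊ξ⌋ + 1, z, by simp [GenContFract.of_h_eq_floor], by simp, ?_, ?_⟩
    · rw [zero_add, GenContFract.first_num_eq h1, h2, h3, GenContFract.of_h_eq_floor]; simp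
    · rw [zero_add, GenContFract.first_den_eq h1, h3]
  | succ n ih =>
    obtain ⟨a, b, a', b', e1, e2, e3, e4⟩ := ih
    obtain ⟨z, gp, h1, h2, h3⟩ := hs (n + 1)
    refine ⟨a', b', z * a' + a, z * b' + b, e3, e4, ?_, ?_⟩
    · rw [GenContFract.nums_recurrence h1 e1.symm e3.symm, h2, h3]; simp
    · rw [GenContFract.dens_recurrence h1 e2.symm e4.symm, h2, h3]; simp

lemma cf_cop (ξ : ℝ) (hξ : Irrational ξ) (n : ℕ) : ∃ a b : ℤ,
    (a : ℝ) = (GenContFract.of ξ).nums n ∧ (b : ℝ) = (GenContFract.of ξ).dens n ∧ IsCoprime a b := by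
  obtain ⟨a, b, a', b', e1, e2, e3, e4⟩ := cf_int ξ hξ n
  have hnt : ¬ (GenContFract.of ξ).TerminatedAt n := by
    intro h
    obtain ⟨q, hq⟩ := (GenContFract.terminates_iff_rat ξ).1 ⟨n, h⟩
    exact hξ ⟨q, hq.symm⟩
  have hd := SimpContFract.determinant (s := SimpContFract.of ξ) hnt
  change (GenContFract.of ξ).nums n * (GenContFract.of ξ).dens (n + 1) -
    (GenContFract.of ξ).dens n * (GenContFract.of ξ).nums (n + 1) = _ at hd
  rw [← e1, ← e2, ← e3, ← e4] at hd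
  have hd2 : a * b' - b * a' = (-1) ^ (n + 1) := by exact_mod_cast hd
  refine ⟨a, b, e1, e2, (-1) ^ (n + 1) * b', -((-1) ^ (n + 1) * a'), ?_⟩
  have : ((-1 : ℤ) ^ (n + 1)) * (-1) ^ (n + 1) = 1 := by rw [← mul_pow]; simp
  linear_combination (-1) ^ (n + 1) * hd2 + this

theorem result :
    ¬ (∀ ξ : ℝ, Irrational ξ →
      (∃ B : ℕ, ∀ N : ℕ, ∃ n ≥ N, ∃ a b : ℤ,
        (a : ℝ) = (GenContFract.of ξ).nums n ∧
        (b : ℝ) = (GenContFract.of ξ).dens n ∧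
        ∀ p : ℕ, p.Prime → (p ∣ a.natAbs ∨ p ∣ b.natAbs) → p ≤ B) →
      Liouville ξ) := by
  intro H
  obtain ⟨ξ, h1, h2, h3⟩ := exists_xi
  have h2' : ∀ a b : ℤ, 1 < b → 1 / (b : ℝ) ^ 100 ≤ |ξ - (a : ℝ) / b| := by
    intro a b hb
    obtain ⟨s, rfl⟩ := Int.eq_ofNat_of_zero_le (show 0 ≤ b by omega)
    have hs : 2 ≤ s := by omega
    rcases le_or_gt 0 a with ha | ha
    · obtain ⟨r, rfl⟩ := Int.eq_ofNat_of_zero_le ha
      simpa using h2 s hs r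
    · have a1 : (a : ℝ) / ((s : ℤ) : ℝ) ≤ 0 :=
        div_nonpos_of_nonpos_of_nonneg (by exact_mod_cast ha.le) (by positivity)
      have a2 := small_one hs
      have a3 : 2 / (s : ℝ) ^ 100 = 2 * (1 / (s : ℝ) ^ 100) := by ring
      have a4 : 0 < 1 / (s : ℝ) ^ 100 := by positivity
      rw [abs_of_pos (by linarith)]
      push_cast at a1 ⊢
      linarith
  have hirr : Irrational ξ := by
    rintro ⟨q, hq⟩
    have := h2' (2 * q.num) (2 * q.den) (by have := q.pos; omega)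
    have e : ((2 * q.num : ℤ) : ℝ) / ((2 * q.den : ℤ) : ℝ) = ξ := by
      rw [← hq, Rat.cast_def]; push_cast; field_simp
    rw [e, sub_self, abs_zero] at this
    have p : 0 < 1 / ((2 * q.den : ℤ) : ℝ) ^ 100 := by
      have := q.pos; positivity
    linarith
  have hL := H ξ hirr ⟨3, fun N => ?_⟩
  · obtain ⟨a, b, hb, -, hab⟩ := hL 100
    linarith [h2' a b hb]
  · have hδ : ∃ δ : ℝ, 0 < δ ∧ ∀ n < N, δ ≤ |ξ - (GenContFract.of ξ).convs n| := by
      induction N with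
      | zero => exact ⟨1, one_pos, fun n hn => by omega⟩
      | succ N ih =>
        obtain ⟨δ, d0, d1⟩ := ih
        have : 0 < |ξ - (GenContFract.of ξ).convs N| := by
          rw [abs_pos, sub_ne_zero, Real.convs_eq_convergent]
          exact hirr.ne_rat _
        refine ⟨min δ _, lt_min d0 this, fun n hn => ?_⟩
        rcases (Nat.lt_succ_iff.1 hn).lt_or_eq with t | t
        · exact min_le_of_left_le (d1 n t)
        · rw [t]; exact min_le_right _ _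
    obtain ⟨δ, d0, d1⟩ := hδ
    obtain ⟨T, hT⟩ := exists_nat_gt (1 / δ)
    obtain ⟨b, b1, b2⟩ := h3 T
    have hQ1 : (1 : ℝ) ≤ 3 ^ b := one_le_pow₀ (by norm_num)
    have hQT : (T : ℝ) ≤ 3 ^ b := by exact_mod_cast b1
    have hq : ((((2 ^ AA b : ℤ) : ℚ) / ((3 ^ b : ℤ) : ℚ) : ℚ) : ℝ) = xx b := by
      unfold xx; push_cast; rfl
    have hden : ((((2 ^ AA b : ℤ) : ℚ) / ((3 ^ b : ℤ) : ℚ)).den : ℤ) = 3 ^ b := by
      apply Rat.den_div_eq_of_coprime (by positivity)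
      simp only [Int.natAbs_pow]
      exact Nat.Coprime.pow _ _ (by norm_num)
    have hden' : ((((2 ^ AA b : ℤ) : ℚ) / ((3 ^ b : ℤ) : ℚ)).den : ℝ) = 3 ^ b := by
      exact_mod_cast hden
    obtain ⟨n, hn⟩ := Real.exists_convs_eq_rat (ξ := ξ)
      (q := ((2 ^ AA b : ℤ) : ℚ) / ((3 ^ b : ℤ) : ℚ)) (by
        rw [hq, hden']
        refine b2.trans_lt (one_div_lt_one_div_of_lt (by positivity) (by nlinarith)))
    rw [hq] at hn
    have hN : N ≤ n := by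
      by_contra hc
      have := d1 n (by omega)
      rw [hn] at this
      have t : 1 / (3 * ((3 : ℝ) ^ b) ^ 2) < δ := by
        rw [div_lt_iff₀ (by positivity)]
        rw [div_lt_iff₀ d0] at hT
        nlinarith
      linarith
    obtain ⟨a, c, e1, e2, e3⟩ := cf_cop ξ hirr n
    refine ⟨n, hN, a, c, e1, e2, fun p hp hpd => ?_⟩
    rw [GenContFract.conv_eq_num_div_den, ← e1, ← e2] at hn
    have hc0 : (c : ℝ) ≠ 0 := by
      intro h0; rw [h0, div_zero] at hn; linarith [(xx_bd b).1]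
    unfold xx at hn
    rw [div_eq_div_iff hc0 (by positivity)] at hn
    have hn2 : a * 3 ^ b = 2 ^ AA b * c := by exact_mod_cast hn
    have hn3 : a.natAbs * 3 ^ b = 2 ^ AA b * c.natAbs := by
      have := congrArg Int.natAbs hn2
      simpa [Int.natAbs_mul, Int.natAbs_pow] using this
    have hcop : Nat.Coprime a.natAbs c.natAbs := Int.isCoprime_iff_gcd_eq_one.1 e3
    rcases hpd with t | t
    · have t1 : p ∣ 2 ^ AA b * c.natAbs := hn3 ▸ Dvd.dvd.mul_right t _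
      have t2 : p ∣ 2 ^ AA b :=
        (Nat.Coprime.coprime_dvd_left t hcop).dvd_of_dvd_mul_right t1
      have := Nat.le_of_dvd (by norm_num) (hp.dvd_of_dvd_pow t2)
      omega
    · have t1 : p ∣ a.natAbs * 3 ^ b := hn3 ▸ Dvd.dvd.mul_left t _
      have t2 : p ∣ 3 ^ b :=
        (Nat.Coprime.coprime_dvd_left t hcop.symm).dvd_of_dvd_mul_left t1
      exact Nat.le_of_dvd (by norm_num) (hp.dvd_of_dvd_pow t2)

end Pool.Agent.S17870
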