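import Pool.Statements.S17899

set_option autoImplicit false
open Filter Topology
open Pool Pool.MP_9d1108_nt

namespace Pool.Agent.S17899

open Finset

noncomputable def g (K n : ℕ) : ℝ := ∑ p ∈ n.primeFactors.filter (K < ·), 1 / ((p : ℝ) - 1)

lemma g_nonneg (K n : ℕ) : 0 ≤ g K n := by
  refine sum_nonneg fun p hp => ?_
  have h : (2 : ℝ) ≤ p := by
    exact_mod_cast (Nat.prime_of_mem_primeFactors (mem_filter.mp hp).1).two_le
  exact div_nonneg zero_le_one (by linarith)

lemma tele (K N : ℕ) (hK : 1 ≤ K) :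
    ∑ m ∈ Ioc K N, 1 / ((m : ℝ) * ((m : ℝ) - 1)) ≤ 1 / (K : ℝ) := by
  have hK' : (1 : ℝ) ≤ K := by exact_mod_cast hK
  rcases le_or_gt K N with h | h
  · have : ∀ N, K ≤ N → ∑ m ∈ Ioc K N, 1 / ((m : ℝ) * ((m : ℝ) - 1)) = 1 / (K : ℝ) - 1 / N := by
      intro N h
      induction N, h using Nat.le_induction with
      | base => simp
      | succ n hn ih =>
        rw [sum_Ioc_succ_top hn, ih]
        have : (K : ℝ) ≤ n := by exact_mod_cast hn
        have h1 : (n : ℝ) ≠ 0 := by linarith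
        have h2 : (n : ℝ) + 1 ≠ 0 := by linarith
        push_cast
        rw [add_sub_cancel_right]
        field_simp
        ring
    rw [this N h]
    have : (0 : ℝ) ≤ 1 / N := by positivity
    linarith
  · rw [Ioc_eq_empty (by omega), sum_empty]
    positivity

lemma moment (K N : ℕ) (hK : 1 ≤ K) : ∑ n ∈ range N, g K n ≤ N / (K : ℝ) := by
  have h1 : ∀ n ∈ range N, g K n ≤
      ∑ m ∈ Ioc K N, if n ≠ 0 ∧ m ∣ n then 1 / ((m : ℝ) - 1) else 0 := by
    intro n hn
    rw [← sum_filter]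
    refine sum_le_sum_of_subset_of_nonneg ?_ ?_
    · intro p hp
      simp only [mem_filter, Nat.mem_primeFactors, mem_Ioc] at hp ⊢
      have := Nat.le_of_dvd (Nat.pos_of_ne_zero hp.1.2.2) hp.1.2.1
      have := mem_range.mp hn
      exact ⟨⟨hp.2, by omega⟩, hp.1.2.2, hp.1.2.1⟩
    · intro m hm _
      have : K < m := (mem_Ioc.mp (mem_filter.mp hm).1).1
      have h : (2 : ℝ) ≤ m := by exact_mod_cast (by omega : 2 ≤ m)
      exact div_nonneg zero_le_one (by linarith)
  refine (sum_le_sum h1).trans ?_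
  rw [sum_comm]
  have h2 : ∀ m ∈ Ioc K N, ∑ n ∈ range N, (if n ≠ 0 ∧ m ∣ n then 1 / ((m : ℝ) - 1) else 0) ≤
      N * (1 / ((m : ℝ) * ((m : ℝ) - 1))) := by
    intro m hm
    have hm' : K < m := (mem_Ioc.mp hm).1
    have h : (2 : ℝ) ≤ m := by exact_mod_cast (by omega : 2 ≤ m)
    rw [← sum_filter, sum_const, nsmul_eq_mul]
    have h3 : ((range N).filter fun n => n ≠ 0 ∧ m ∣ n).card ≤ N / m := by
      rw [← Nat.card_multiples' N m]
      exact card_le_card (filter_subset_filter _ (range_subset_range.mpr (Nat.le_succ N)))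
    have h4 : (((range N).filter fun n => n ≠ 0 ∧ m ∣ n).card : ℝ) ≤ N / (m : ℝ) :=
      le_trans (by exact_mod_cast h3) Nat.cast_div_le
    have h5 : 0 ≤ 1 / ((m : ℝ) - 1) := div_nonneg zero_le_one (by linarith)
    calc _ ≤ N / (m : ℝ) * (1 / ((m : ℝ) - 1)) := by gcongr
      _ = _ := by
        have : (m : ℝ) - 1 ≠ 0 := by linarith
        field_simp
  refine (sum_le_sum h2).trans ?_
  rw [← mul_sum, div_eq_mul_one_div (N : ℝ)]
  exact mul_le_mul_of_nonneg_left (tele K N hK) (Nat.cast_nonneg N)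

lemma markov (K N : ℕ) (hK : 1 ≤ K) (t : ℝ) (ht : 0 < t) :
    (((range N).filter fun n => t < g K n).card : ℝ) ≤ N / (K : ℝ) / t := by
  rw [le_div_iff₀ ht]
  refine le_trans ?_ (moment K N hK)
  calc _ = ∑ n ∈ (range N).filter fun n => t < g K n, t := by rw [sum_const, nsmul_eq_mul]
    _ ≤ ∑ n ∈ (range N).filter fun n => t < g K n, g K n :=
        sum_le_sum fun n hn => (mem_filter.mp hn).2.le
    _ ≤ _ := sum_le_sum_of_subset_of_nonneg (filter_subset _ _) fun n _ _ => g_nonneg K n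

lemma tot_eq (n : ℕ) : (n.totient : ℝ) = n * ∏ p ∈ n.primeFactors, (1 - 1 / (p : ℝ)) := by
  have := congrArg (fun q : ℚ => (q : ℝ)) (Nat.totient_eq_mul_prod_factors n)
  simpa using this

lemma le_tot (n : ℕ) : (n : ℝ) ≤ n.totient * Real.exp (g 1 n) := by
  have h1 : n.primeFactors.filter (1 < ·) = n.primeFactors :=
    filter_true_of_mem fun p hp => (Nat.prime_of_mem_primeFactors hp).one_lt
  rw [tot_eq, g, h1, Real.exp_sum, mul_assoc, ← prod_mul_distrib]
  refine le_mul_of_one_le_right (Nat.cast_nonneg n) ?_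
  refine le_trans (le_of_eq (prod_const_one (s := n.primeFactors)).symm)
    (prod_le_prod (fun _ _ => zero_le_one) fun p hp => ?_)
  have h : (2 : ℝ) ≤ p := by exact_mod_cast (Nat.prime_of_mem_primeFactors hp).two_le
  have h2 := Real.add_one_le_exp (1 / ((p : ℝ) - 1))
  have h3 : (1 - 1 / (p : ℝ)) * (1 / ((p : ℝ) - 1) + 1) = 1 := by
    have : (p : ℝ) - 1 ≠ 0 := by linarith
    field_simp
    ring
  have h4 : 0 ≤ 1 - 1 / (p : ℝ) := by
    rw [sub_nonneg, div_le_one (by linarith)]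
    linarith
  calc (1 : ℝ) = _ := h3.symm
    _ ≤ _ := by gcongr

lemma prod_ge (s : Finset ℕ) (f : ℕ → ℝ) (h0 : ∀ i ∈ s, 0 ≤ f i) (h1 : ∀ i ∈ s, f i ≤ 1) :
    1 - ∑ i ∈ s, f i ≤ ∏ i ∈ s, (1 - f i) := by
  induction s using Finset.induction_on with
  | empty => simp
  | insert a s ha ih =>
    rw [sum_insert ha, prod_insert ha]
    have a0 := h0 a (mem_insert_self _ _)
    have a1 := h1 a (mem_insert_self _ _)
    have ih' := ih (fun i hi => h0 i (mem_insert_of_mem hi)) (fun i hi => h1 i (mem_insert_of_mem hi))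
    have hs : 0 ≤ ∑ i ∈ s, f i := sum_nonneg fun i hi => h0 i (mem_insert_of_mem hi)
    nlinarith [mul_le_mul_of_nonneg_left ih' (sub_nonneg.mpr a1)]

noncomputable def rho (K n : ℕ) : ℝ :=
  ∏ p ∈ (range (K + 1)).filter (fun p => p.Prime ∧ p ∣ n), (1 - 1 / (p : ℝ))

lemma rho_nonneg (K n : ℕ) : 0 ≤ rho K n := by
  refine prod_nonneg fun p hp => ?_
  have h : (2 : ℝ) ≤ p := by exact_mod_cast (mem_filter.mp hp).2.1.two_le
  rw [sub_nonneg, div_le_one (by linarith)]
  linarith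

lemma rho_le (K n : ℕ) : rho K n ≤ 1 := by
  refine prod_le_one (fun p hp => ?_) fun p hp => ?_
  · have h : (2 : ℝ) ≤ p := by exact_mod_cast (mem_filter.mp hp).2.1.two_le
    rw [sub_nonneg, div_le_one (by linarith)]
    linarith
  · have : (0 : ℝ) ≤ 1 / (p : ℝ) := by positivity
    linarith

lemma rho_mod (K n : ℕ) : rho K (n % K.factorial) = rho K n := by
  unfold rho
  congr 1
  refine filter_congr fun p hp => ?_
  have hp' := mem_range.mp hp
  constructor
  · rintro ⟨h1, h2⟩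
    exact ⟨h1, (Nat.dvd_mod_iff (h1.dvd_factorial.mpr (by omega))).mp h2⟩
  · rintro ⟨h1, h2⟩
    exact ⟨h1, (Nat.dvd_mod_iff (h1.dvd_factorial.mpr (by omega))).mpr h2⟩

lemma rho_tot (K n : ℕ) (hn : n ≠ 0) :
    (n.totient : ℝ) ≤ n * rho K n ∧ n * rho K n ≤ n.totient + n * g K n := by
  have h1 : n.primeFactors.filter (fun p => ¬ K < p) =
      (range (K + 1)).filter (fun p => p.Prime ∧ p ∣ n) := by
    ext p
    simp only [mem_filter, Nat.mem_primeFactors, mem_range]
    constructor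
    · rintro ⟨⟨a, b, -⟩, c⟩
      exact ⟨by omega, a, b⟩
    · rintro ⟨a, b, c⟩
      exact ⟨⟨b, c, hn⟩, by omega⟩
  have h2 : (n.totient : ℝ) =
      n * ((∏ p ∈ n.primeFactors.filter (K < ·), (1 - 1 / (p : ℝ))) * rho K n) := by
    rw [tot_eq, rho, ← h1, prod_filter_mul_prod_filter_not]
  set Q := ∏ p ∈ n.primeFactors.filter (K < ·), (1 - 1 / (p : ℝ)) with hQ
  have hp2 : ∀ p ∈ n.primeFactors.filter (K < ·), (2 : ℝ) ≤ p := fun p hp => by
    exact_mod_cast (Nat.prime_of_mem_primeFactors (mem_filter.mp hp).1).two_le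
  have hQ1 : Q ≤ 1 := by
    refine prod_le_one (fun p hp => ?_) fun p hp => ?_
    · have h := hp2 p hp
      rw [sub_nonneg, div_le_one (by linarith)]
      linarith
    · have : (0 : ℝ) ≤ 1 / (p : ℝ) := by positivity
      linarith
  have hQ2 : 1 - g K n ≤ Q := by
    refine le_trans ?_ (prod_ge _ (fun p => 1 / (p : ℝ)) (fun p _ => by positivity) fun p hp => ?_)
    · refine sub_le_sub_left (sum_le_sum fun p hp => ?_) _
      have h := hp2 p hp
      exact one_div_le_one_div_of_le (by linarith) (by linarith)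
    · have h := hp2 p hp
      rw [div_le_one (by linarith)]
      linarith
  have r0 := rho_nonneg K n
  have r1 := rho_le K n
  have g0 := g_nonneg K n
  have n0 : (0 : ℝ) ≤ n := Nat.cast_nonneg n
  rw [h2]
  constructor
  · exact mul_le_mul_of_nonneg_left (mul_le_of_le_one_left r0 hQ1) n0
  · rw [← mul_add]
    refine mul_le_mul_of_nonneg_left ?_ n0
    nlinarith

lemma class_count (T : Finset ℕ) (M a : ℕ) (hM : 0 < M) (u l : ℝ) (hu : 0 ≤ u) (hl : 0 ≤ l)
    (h : ∀ n ∈ T, n % M = a ∧ u ≤ n ∧ (n : ℝ) ≤ u + l) : (T.card : ℝ) ≤ l / M + 2 := by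
  have hM' : (0 : ℝ) < M := by exact_mod_cast hM
  have h1 : T.card ≤ (Icc ⌊u / M⌋₊ ⌊(u + l) / M⌋₊).card := by
    refine card_le_card_of_injOn (fun n => n / M) ?_ ?_
    · intro n hn
      obtain ⟨-, h2, h3⟩ := h n hn
      simp only [coe_Icc, Set.mem_Icc]
      rw [← Nat.floor_div_eq_div (K := ℝ)]
      exact ⟨Nat.floor_le_floor (by gcongr), Nat.floor_le_floor (by gcongr)⟩
    · intro n hn m hm hnm
      have a1 := (h n hn).1
      have a2 := (h m hm).1
      simp only at hnm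
      rw [← Nat.div_add_mod n M, ← Nat.div_add_mod m M, a1, a2, hnm]
  rw [Nat.card_Icc] at h1
  have h2 : ⌊u / M⌋₊ ≤ ⌊(u + l) / M⌋₊ + 1 :=
    le_trans (Nat.floor_le_floor (by gcongr; linarith)) (Nat.le_succ _)
  have h3 : (T.card : ℝ) ≤ (⌊(u + l) / M⌋₊ : ℝ) + 1 - ⌊u / M⌋₊ := by
    have : ((⌊(u + l) / M⌋₊ + 1 - ⌊u / M⌋₊ : ℕ) : ℝ) = (⌊(u + l) / M⌋₊ : ℝ) + 1 - ⌊u / M⌋₊ := by
      rw [Nat.cast_sub h2]
      push_cast
      ring
    rw [← this]
    exact_mod_cast h1
  have h4 : (⌊(u + l) / M⌋₊ : ℝ) ≤ (u + l) / M := Nat.floor_le (by positivity)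
  have h5 : u / M < ⌊u / M⌋₊ + 1 := Nat.lt_floor_add_one _
  have h6 : (u + l) / M = u / M + l / M := add_div _ _ _
  linarith

lemma main_count (x m : ℕ) (hm : 1 ≤ m) (hx : m * (m ^ 2).factorial ≤ x) :
    ((Set.ncard {n : ℕ | (x : ℝ) < (n : ℝ) + (Nat.totient n : ℝ) ∧
      (n : ℝ) + (Nat.totient n : ℝ) < (x : ℝ) + (x : ℝ) / m} : ℕ) : ℝ) ≤ 7 * ((x : ℝ) / m) := by
  classical
  have hm' : (1 : ℝ) ≤ m := by exact_mod_cast hm
  set K := m ^ 2 with hK
  set M := K.factorial with hM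
  have hM0 : 0 < M := Nat.factorial_pos K
  have hM0' : (0 : ℝ) < M := by exact_mod_cast hM0
  set F : ℝ := (x : ℝ) / m with hF
  have hMF : (M : ℝ) ≤ F := by
    rw [hF, le_div_iff₀ (by linarith), mul_comm]
    exact_mod_cast hx
  have hx0 : (0 : ℝ) ≤ x := Nat.cast_nonneg x
  have hFx : F ≤ x := div_le_self hx0 hm'
  have hF0 : 0 ≤ F := by positivity
  set B := (range (2 * x)).filter fun n => 1 / (m : ℝ) < g K n with hB
  set T : ℕ → Finset ℕ := fun a => (range (2 * x)).filter fun n =>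
    n % M = a ∧ x / (1 + rho K a) ≤ n ∧ (n : ℝ) ≤ x / (1 + rho K a) + 3 * F with hT
  have hsub : {n : ℕ | (x : ℝ) < (n : ℝ) + (Nat.totient n : ℝ) ∧
      (n : ℝ) + (Nat.totient n : ℝ) < (x : ℝ) + F} ⊆ ↑(B ∪ (range M).biUnion T) := by
    intro n hn
    obtain ⟨h1, h2⟩ := hn
    have hn0 : n ≠ 0 := by
      rintro rfl
      simp at h1
      linarith
    have ht0 : (0 : ℝ) ≤ n.totient := Nat.cast_nonneg _
    have hn2 : (n : ℝ) < 2 * x := by linarith
    have hn2' : n ∈ range (2 * x) := mem_range.mpr (by exact_mod_cast hn2)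
    simp only [coe_union, Set.mem_union, mem_coe]
    by_cases hb : 1 / (m : ℝ) < g K n
    · exact Or.inl (mem_filter.mpr ⟨hn2', hb⟩)
    · right
      rw [mem_biUnion]
      refine ⟨n % M, mem_range.mpr (Nat.mod_lt _ hM0), mem_filter.mpr ⟨hn2', rfl, ?_, ?_⟩⟩
      · rw [hM, rho_mod, div_le_iff₀ (by linarith [rho_nonneg K n])]
        have := (rho_tot K n hn0).1
        linarith
      · rw [hM, rho_mod]
        have r0 := rho_nonneg K n
        have h3 := (rho_tot K n hn0).2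
        have h4 : (n : ℝ) * g K n ≤ 2 * F := by
          calc (n : ℝ) * g K n ≤ (2 * x) * (1 / m) :=
                mul_le_mul hn2.le (not_lt.mp hb) (g_nonneg K n) (by positivity)
            _ = _ := by rw [hF]; ring
        have h5 : (n : ℝ) - 3 * F ≤ x / (1 + rho K n) := by
          rw [le_div_iff₀ (by linarith)]
          nlinarith
        linarith
  have h1 := Set.ncard_le_ncard hsub (Finset.finite_toSet _)
  rw [Set.ncard_coe_finset] at h1
  have h2 : (B.card : ℝ) ≤ 2 * F := by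
    refine (markov K (2 * x) (Nat.one_le_pow _ _ hm) _ (by positivity)).trans (le_of_eq ?_)
    rw [hK, hF]
    push_cast
    field_simp
  have h3 : ∀ a ∈ range M, ((T a).card : ℝ) ≤ 3 * F / M + 2 := by
    intro a _
    have r0 := rho_nonneg K a
    exact class_count _ M a hM0 (x / (1 + rho K a)) (3 * F) (by positivity) (by positivity)
      fun n hn => (mem_filter.mp hn).2
  have h4 : (((range M).biUnion T).card : ℝ) ≤ 5 * F := by
    calc (((range M).biUnion T).card : ℝ) ≤ ((∑ a ∈ range M, (T a).card : ℕ) : ℝ) := by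
          exact_mod_cast card_biUnion_le
      _ = ∑ a ∈ range M, ((T a).card : ℝ) := by push_cast; rfl
      _ ≤ ∑ a ∈ range M, (3 * F / M + 2) := sum_le_sum h3
      _ = 3 * F + 2 * M := by
          rw [sum_const, card_range, nsmul_eq_mul]
          field_simp
      _ ≤ _ := by linarith
  have h5 : ((B ∪ (range M).biUnion T).card : ℝ) ≤ B.card + ((range M).biUnion T).card := by
    exact_mod_cast card_union_le _ _
  have h6 : ((Set.ncard {n : ℕ | (x : ℝ) < (n : ℝ) + (Nat.totient n : ℝ) ∧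
      (n : ℝ) + (Nat.totient n : ℝ) < (x : ℝ) + F} : ℕ) : ℝ) ≤
      ((B ∪ (range M).biUnion T).card : ℝ) := by exact_mod_cast h1
  linarith

def mm (x : ℕ) : ℕ := Nat.findGreatest (fun m => m * (m ^ 2).factorial ≤ x) x

lemma mm_ge (L x : ℕ) (h : L * (L ^ 2).factorial ≤ x) : L ≤ mm x :=
  Nat.le_findGreatest (le_trans (Nat.le_mul_of_pos_right _ (Nat.factorial_pos _)) h) h

lemma mm_spec (x : ℕ) : mm x * (mm x ^ 2).factorial ≤ x :=
  Nat.findGreatest_spec (P := fun m => m * (m ^ 2).factorial ≤ x) (Nat.zero_le x) (by simp)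

lemma mm_tendsto : Tendsto (fun x => (mm x : ℝ)) atTop atTop := by
  refine tendsto_natCast_atTop_atTop.comp ?_
  rw [tendsto_atTop]
  intro L
  filter_upwards [eventually_ge_atTop (L * (L ^ 2).factorial)] with x hx using mm_ge L x hx

theorem result :
    ∃ F : ℕ → ℝ, Tendsto F atTop atTop ∧
      (∃ A : Set ℕ,
        Tendsto (fun N : ℕ => ((A ∩ Set.Iio N).ncard : ℝ) / (N : ℝ)) atTop (𝓝 1) ∧
        Tendsto (fun n : ℕ => F n / (Nat.totient n : ℝ)) (atTop ⊓ 𝓟 A) (𝓝 0)) ∧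
      ¬ (∀ C : ℝ, Set.Infinite {x : ℕ |
          ((Set.ncard {n : ℕ | (x : ℝ) < (n : ℝ) + (Nat.totient n : ℝ) ∧
              (n : ℝ) + (Nat.totient n : ℝ) < (x : ℝ) + F x} : ℕ) : ℝ) > C * F x}) := by
  classical
  have hm1 : ∀ x, 1 ≤ x → 1 ≤ mm x := fun x hx => mm_ge 1 x (by simpa using hx)
  have hsq : Tendsto (fun x => √(mm x : ℝ)) atTop atTop :=
    Real.tendsto_sqrt_atTop.comp mm_tendsto
  refine ⟨fun x => (x : ℝ) / mm x, ?_, ⟨{n | Real.exp (g 1 n) ≤ √(mm n : ℝ)}, ?_, ?_⟩, ?_⟩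
  · refine tendsto_atTop_mono' _ ?_ mm_tendsto
    filter_upwards [eventually_ge_atTop 1] with x hx
    have h1 : (1 : ℝ) ≤ mm x := by exact_mod_cast hm1 x hx
    rw [le_div_iff₀ (by linarith)]
    have h2 : mm x * mm x ≤ x := by
      refine le_trans (Nat.mul_le_mul_left _ ?_) (mm_spec x)
      exact le_trans (Nat.le_self_pow two_ne_zero _) (Nat.self_le_factorial _)
    exact_mod_cast h2
  · rw [Metric.tendsto_atTop]
    intro ε hε
    obtain ⟨n0, hn0⟩ := eventually_atTop.mp (hsq.eventually_ge_atTop (Real.exp (4 / ε)))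
    obtain ⟨N0, hN0⟩ := exists_nat_gt (2 * (n0 : ℝ) / ε)
    refine ⟨N0 + 1, fun N hN => ?_⟩
    have hN1 : (N0 : ℝ) + 1 ≤ N := by exact_mod_cast hN
    have hN00 : (0 : ℝ) ≤ N0 := Nat.cast_nonneg _
    have hNp : (0 : ℝ) < N := by linarith
    have e1 : {n | Real.exp (g 1 n) ≤ √(mm n : ℝ)} ∩ Set.Iio N =
        ↑((range N).filter fun n => Real.exp (g 1 n) ≤ √(mm n : ℝ)) := by
      ext n
      simp [and_comm]
    rw [e1, Set.ncard_coe_finset]
    have h1 := card_filter_add_card_filter_not (s := range N)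
      (fun n => Real.exp (g 1 n) ≤ √(mm n : ℝ))
    rw [card_range] at h1
    have h2 : ((range N).filter fun n => ¬ Real.exp (g 1 n) ≤ √(mm n : ℝ)) ⊆
        range n0 ∪ (range N).filter fun n => 4 / ε < g 1 n := by
      intro n hn
      rw [mem_filter] at hn
      rw [mem_union, mem_range, mem_filter]
      by_cases h : n < n0
      · exact Or.inl h
      · refine Or.inr ⟨hn.1, ?_⟩
        have := hn0 n (not_lt.mp h)
        exact Real.exp_lt_exp.mp (lt_of_le_of_lt this (not_le.mp hn.2))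
    have h3 := (card_le_card h2).trans (card_union_le _ _)
    rw [card_range] at h3
    have h4 := markov 1 N le_rfl (4 / ε) (by positivity)
    set a := ((range N).filter fun n => Real.exp (g 1 n) ≤ √(mm n : ℝ)).card
    set b := ((range N).filter fun n => ¬ Real.exp (g 1 n) ≤ √(mm n : ℝ)).card
    set c := ((range N).filter fun n => 4 / ε < g 1 n).card
    have h1' : (a : ℝ) + b = N := by exact_mod_cast h1
    have h3' : (b : ℝ) ≤ n0 + c := by exact_mod_cast h3
    have h4' : (c : ℝ) ≤ N * ε / 4 := by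
      refine h4.trans (le_of_eq ?_)
      push_cast
      field_simp
    have h5 : 2 * (n0 : ℝ) < N0 * ε := (div_lt_iff₀ hε).mp hN0
    have hb0 : (0 : ℝ) ≤ b := Nat.cast_nonneg _
    have e2 : (a : ℝ) / N - 1 = -(b / N) := by
      field_simp
      linarith
    rw [Real.dist_eq, e2, abs_neg, abs_of_nonneg (by positivity), div_lt_iff₀ hNp]
    nlinarith
  · have h0 : Tendsto (fun x => (√(mm x : ℝ))⁻¹)
        (atTop ⊓ 𝓟 {n | Real.exp (g 1 n) ≤ √(mm n : ℝ)}) (𝓝 0) :=
      (tendsto_inv_atTop_zero.comp hsq).mono_left inf_le_left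
    refine squeeze_zero' (Eventually.of_forall fun n => by positivity) ?_ h0
    rw [eventually_inf_principal]
    filter_upwards [eventually_ge_atTop 1] with n hn hA
    have h1 : (1 : ℝ) ≤ mm n := by exact_mod_cast hm1 n hn
    have h2 : (0 : ℝ) < n.totient := by exact_mod_cast Nat.totient_pos.mpr hn
    have h3 := le_tot n
    have h4 : (n : ℝ) ≤ n.totient * √(mm n : ℝ) :=
      h3.trans (mul_le_mul_of_nonneg_left hA h2.le)
    have h5 : 0 < √(mm n : ℝ) := Real.sqrt_pos.mpr (by linarith)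
    have h6 : √(mm n : ℝ) * √(mm n : ℝ) = mm n := Real.mul_self_sqrt (by linarith)
    rw [div_div, div_le_iff₀ (by positivity)]
    calc (n : ℝ) ≤ n.totient * √(mm n : ℝ) := h4
      _ = (√(mm n : ℝ))⁻¹ * (√(mm n : ℝ) * √(mm n : ℝ) * n.totient) := by field_simp
      _ = _ := by rw [h6]
  · intro h
    refine h 7 (Set.Finite.subset (Set.finite_singleton 0) ?_)
    intro x hx
    by_contra h0
    have hx1 : 1 ≤ x := Nat.one_le_iff_ne_zero.mpr h0
    exact absurd hx (not_lt.mpr (main_count x (mm x) (hm1 x hx1) (mm_spec x)))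

end Pool.Agent.S17899
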