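import Pool.Statements.S17907
import Pool.Agent.H.MP_9da210_nt.B

set_option autoImplicit false
open Pool Pool.MP_9da210_nt

namespace Pool.Agent.S17907

/-- There is g with log log N = o(g) and 1 ≤ g(N) ≤ N eventually, such that for every k with 1 ≤ k(N) ≤ N and k = O(g), for all large N every k(N)-colouring of {1..N} has at least N/10 sums a+b with a ≠ b of the same colour. -/
theorem result : ∃ g : ℕ → ℝ,
    (fun N : ℕ => Real.log (Real.log (N : ℝ))) =o[Filter.atTop] g ∧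
    (∀ᶠ N : ℕ in Filter.atTop, 1 ≤ g N ∧ g N ≤ (N : ℝ)) ∧
    ∀ k : ℕ → ℕ, (∀ N : ℕ, 1 ≤ N → 1 ≤ k N ∧ k N ≤ N) →
      (fun N : ℕ => (k N : ℝ)) =O[Filter.atTop] g →
      ∀ᶠ N : ℕ in Filter.atTop, ∀ c : ℕ → Fin (k N),
        (N : ℝ) / 10 ≤
          ((Set.ncard {s : ℕ | ∃ a b : ℕ, 1 ≤ a ∧ a ≤ N ∧ 1 ≤ b ∧ b ≤ N ∧
              a ≠ b ∧ c a = c b ∧ a + b = s} : ℕ) : ℝ) := by
  open Filter Finset Real Asymptotics Pool.Agent.H.MP_9da210_nt in
  have l1 : Tendsto (fun N : ℕ => log N) atTop atTop :=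
    tendsto_log_atTop.comp tendsto_natCast_atTop_atTop
  have l2 : Tendsto (fun N : ℕ => log (log N)) atTop atTop := tendsto_log_atTop.comp l1
  refine ⟨fun N => log (log N) ^ 2, ?_, ?_, fun k _ hk => ?_⟩
  · simpa [Function.comp_def] using
      (isLittleO_pow_pow_atTop_of_lt (𝕜 := ℝ) one_lt_two).comp_tendsto l2
  · filter_upwards [l2.eventually_ge_atTop 1, l1.eventually_ge_atTop 1, eventually_gt_atTop 0]
      with N a b c
    refine ⟨one_le_pow₀ a, ?_⟩
    have n0 : (0 : ℝ) < N := by exact_mod_cast c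
    have := Real.log_le_sub_one_of_pos (show 0 < log N by linarith)
    have f := Real.sum_le_exp_of_nonneg (show 0 ≤ log N by linarith) 4
    rw [exp_log n0] at f
    simp [sum_range_succ, Nat.factorial] at f
    nlinarith [mul_nonneg (show 0 ≤ log N by linarith) (sq_nonneg (log N - 3))]
  obtain ⟨C, hC⟩ := hk.bound
  have l3 := ((isLittleO_pow_log_id_atTop (n := 2)).bound
    (show (0 : ℝ) < 1 / 4000000 by norm_num)).and (tendsto_log_atTop.eventually_ge_atTop 1)
  filter_upwards [hC, l2.eventually l3, l2.eventually_ge_atTop (3 * |C| + 1),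
    l1.eventually_gt_atTop 0, eventually_gt_atTop 0] with N a ⟨b, b'⟩ d e n0 c
  obtain ⟨u, hu⟩ : ∃ u, u = log (log N) := ⟨_, rfl⟩
  rw [← hu] at a b b' d
  have u1 : 1 ≤ u := by linarith [abs_nonneg C]
  simp only [norm_pow, Real.norm_eq_abs, sq_abs, Nat.abs_cast, id,
    abs_of_pos (one_pos.trans_le u1)] at a b
  obtain ⟨j, hj⟩ : ∃ j, j = ⌈5 * log u⌉₊ := ⟨_, rfl⟩
  have j1 : (j : ℝ) < 5 * log u + 1 := hj ▸ Nat.ceil_lt_add_one (by linarith)
  have j2 : u ^ 3 ≤ 2 ^ j := by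
    rw [← exp_log (show (0 : ℝ) < 2 ^ j by positivity), ← exp_log (show 0 < u ^ 3 by positivity),
      log_pow, log_pow, exp_le_exp]
    have : 5 * log u ≤ j := hj ▸ Nat.le_ceil _
    push_cast
    nlinarith [log_two_gt_d9]
  have p2 : ∀ (s : ℕ) (x : ℝ), 0 < x → s ≤ log x → (2 : ℝ) ^ s ≤ x := fun s x x0 h => by
    rw [← exp_log x0, ← exp_log (show (0 : ℝ) < 2 ^ s by positivity), log_pow, exp_le_exp]
    nlinarith [log_two_lt_d9, Nat.cast_nonneg (α := ℝ) s]
  have r : (rothNumberNat (N + 1) * 2 ^ j : ℝ) ≤ N + 1 := by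
    have := p2 (2 ^ (40000 * (j + 1) ^ 2)) N (by exact_mod_cast n0) (by
      push_cast
      refine p2 _ _ e ?_
      push_cast
      nlinarith [pow_le_pow_left₀ (by positivity) (show (j : ℝ) + 1 ≤ 7 * log u by linarith) 2])
    exact_mod_cast roth j (N + 1) (Nat.le_succ_of_le (by exact_mod_cast this))
  generalize hS : {s : ℕ | ∃ a b : ℕ, 1 ≤ a ∧ a ≤ N ∧ 1 ≤ b ∧ b ≤ N ∧
    a ≠ b ∧ c a = c b ∧ a + b = s} = S
  have fin : S.Finite := (Set.finite_le_nat (N + N)).subset (by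
    rw [← hS]; rintro _ ⟨a, b, -, x, -, y, -, -, rfl⟩; exact add_le_add x y)
  classical
  have g : #{x ∈ Icc 1 N | x + x ∈ S} ≤ S.ncard := by
    rw [← Set.ncard_coe_finset]
    exact Set.ncard_le_ncard_of_injOn (fun x => x + x) (fun x hx => (mem_filter.1 hx).2)
      (fun x _ y _ h => by simp only at h; omega) fin
  have b : #{x ∈ Icc 1 N | ¬x + x ∈ S} ≤ k N * rothNumberNat (N + 1) := by
    rw [card_eq_sum_card_fiberwise (f := c) (t := univ) (by simp)]
    refine (sum_le_card_nsmul _ _ _ fun i _ => ThreeAPFree.le_rothNumberNat (n := N + 1) _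
      (fun x hx y hy z hz h => ?_) (fun x hx => ?_) rfl).trans (by simp)
    · simp only [coe_filter, mem_filter, mem_Icc, Set.mem_setOf_eq] at hx hy hz
      by_contra n
      exact hy.1.2 (hS ▸ ⟨x, z, hx.1.1.1, hx.1.1.2, hz.1.1.1, hz.1.1.2, by omega,
        hx.2.trans hz.2.symm, h⟩)
    · simp only [mem_filter, mem_Icc] at hx
      omega
  have t := card_filter_add_card_filter_not (s := Icc 1 N) (fun x => x + x ∈ S)
  rw [Nat.card_Icc, Nat.add_sub_cancel] at t
  have : (N : ℝ) ≤ S.ncard + k N * rothNumberNat (N + 1) := by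
    exact_mod_cast t.ge.trans (add_le_add g b)
  have n1 : (1 : ℝ) ≤ N := by exact_mod_cast n0
  have r0 := Nat.cast_nonneg (α := ℝ) (rothNumberNat (N + 1))
  have : (k N * rothNumberNat (N + 1) : ℝ) * 3 ≤ N + 1 := by
    refine le_trans ?_ r
    rw [mul_comm (k N : ℝ), mul_assoc]
    refine mul_le_mul_of_nonneg_left (le_trans ?_ j2) r0
    nlinarith [le_abs_self C, sq_nonneg u]
  linarith

end Pool.Agent.S17907
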