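import Pool.Statements.S17987
import Pool.Agent.H.MP_a23773_nt.D

set_option autoImplicit false
open Pool Pool.MP_a23773_nt

namespace Pool.Agent.S17987

/-- For the digit sequence of 0.235711131719... (primes concatenated in base 10), it is not the case that for every block length m and every m-digit block k, the block counts obey the iterated-logarithm limsup/liminf law (strong normality to base 10). -/
theorem result :
  ∀ d : ℕ → ℕ,
    (∀ n : ℕ,
      (List.range ((List.range n).map
          (fun i => (Nat.digits 10 (Nat.nth Nat.Prime i)).length)).sum).map d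
        = (List.range n).flatMap
          (fun i => (Nat.digits 10 (Nat.nth Nat.Prime i)).reverse)) →
    ¬ (∀ m : ℕ, 1 ≤ m → ∀ k : ℕ, k < 10 ^ m →
        (∀ ε : ℝ, 0 < ε → ∀ᶠ n : ℕ in Filter.atTop,
          ((((Finset.range n).filter
              (fun j => ∑ i ∈ Finset.range m, d (j * m + i) * 10 ^ (m - 1 - i) = k)).card : ℝ)
              - (n : ℝ) / (10 : ℝ) ^ m)
            / Real.sqrt (2 * (n : ℝ) * Real.log (Real.log (n : ℝ)))
            < Real.sqrt ((10 : ℝ) ^ m - 1) / (10 : ℝ) ^ m + ε) ∧
        (∀ ε : ℝ, 0 < ε → ∃ᶠ n : ℕ in Filter.atTop,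
          Real.sqrt ((10 : ℝ) ^ m - 1) / (10 : ℝ) ^ m - ε <
          ((((Finset.range n).filter
              (fun j => ∑ i ∈ Finset.range m, d (j * m + i) * 10 ^ (m - 1 - i) = k)).card : ℝ)
              - (n : ℝ) / (10 : ℝ) ^ m)
            / Real.sqrt (2 * (n : ℝ) * Real.log (Real.log (n : ℝ)))) ∧
        (∀ ε : ℝ, 0 < ε → ∀ᶠ n : ℕ in Filter.atTop,
          -(Real.sqrt ((10 : ℝ) ^ m - 1) / (10 : ℝ) ^ m) - ε <
          ((((Finset.range n).filter
              (fun j => ∑ i ∈ Finset.range m, d (j * m + i) * 10 ^ (m - 1 - i) = k)).card : ℝ)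
              - (n : ℝ) / (10 : ℝ) ^ m)
            / Real.sqrt (2 * (n : ℝ) * Real.log (Real.log (n : ℝ)))) ∧
        (∀ ε : ℝ, 0 < ε → ∃ᶠ n : ℕ in Filter.atTop,
          ((((Finset.range n).filter
              (fun j => ∑ i ∈ Finset.range m, d (j * m + i) * 10 ^ (m - 1 - i) = k)).card : ℝ)
              - (n : ℝ) / (10 : ℝ) ^ m)
            / Real.sqrt (2 * (n : ℝ) * Real.log (Real.log (n : ℝ)))
            < -(Real.sqrt ((10 : ℝ) ^ m - 1) / (10 : ℝ) ^ m) + ε)) := by
  intro d H hyp
  have h7 := hyp 7 (by norm_num)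
  have hev : ∀ᶠ n : ℕ in Filter.atTop, ∀ k ∈ Finset.range (10 ^ 7),
      |Ha237.dev d 7 k n| ≤ 2 * √(2 * (n : ℝ) * Real.log (Real.log n)) := by
    rw [Filter.eventually_all_finset]
    intro k hk
    obtain ⟨a1, -, a2, -⟩ := h7 k (Finset.mem_range.mp hk)
    filter_upwards [a1 1 one_pos, a2 1 one_pos, Filter.eventually_ge_atTop 3] with n b1 b2 b3
    have e : Ha237.dev d 7 k n = (((Finset.range n).filter
        (fun j => ∑ i ∈ Finset.range 7, d (j * 7 + i) * 10 ^ (7 - 1 - i) = k)).card : ℝ)
        - (n : ℝ) / (10 : ℝ) ^ 7 := by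
      unfold Ha237.dev Ha237.ind Ha237.blk
      rw [Finset.sum_sub_distrib, Finset.sum_boole, Finset.sum_const, Finset.card_range,
        nsmul_eq_mul, Nat.cast_pow, Nat.cast_ofNat, mul_one_div]
    rw [← e] at b1 b2
    have c1 : (3 : ℝ) ≤ n := by exact_mod_cast b3
    have c2 : 0 < Real.log (Real.log n) := Real.log_pos (by
      rw [Real.lt_log_iff_exp_lt (by linarith)]
      linarith [Real.exp_one_lt_d9])
    have c3 : 0 < √(2 * (n : ℝ) * Real.log (Real.log n)) := Real.sqrt_pos.mpr (by positivity)
    have c4 : √((10 : ℝ) ^ 7 - 1) / 10 ^ 7 ≤ 1 := by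
      rw [div_le_one (by positivity)]
      exact Real.sqrt_le_iff.mpr ⟨by positivity, by norm_num⟩
    rw [div_lt_iff₀ c3] at b1
    rw [lt_div_iff₀ c3] at b2
    rw [abs_le]
    constructor <;> nlinarith
  obtain ⟨n0, hn0⟩ := Filter.eventually_atTop.mp hev
  refine Ha237.core d (fun y => ((List.range (Nat.count Nat.Prime y)).map
    (fun i => (Nat.digits 10 (Nat.nth Nat.Prime i)).length)).sum) (by simp) ?_ ?_ n0
    fun k hk n hn => hn0 n hn k (Finset.mem_range.mpr hk)
  · intro y
    rw [Nat.count_succ]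
    split_ifs with hp
    · simp [List.range_succ, Nat.nth_count hp]
    · simp
  · intro y j hp hj
    have a1 := congrArg List.length (H (Nat.count Nat.Prime y))
    have a2 := H (Nat.count Nat.Prime y + 1)
    rw [List.length_map, List.length_range] at a1
    rw [List.range_succ, List.map_append, List.sum_append, List.flatMap_append] at a2
    simp only [List.map_cons, List.map_nil, List.sum_cons, List.sum_nil, add_zero,
      List.flatMap_cons, List.flatMap_nil, List.append_nil, Nat.nth_count hp] at a2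
    generalize ((List.range (Nat.count Nat.Prime y)).map
      (fun i => (Nat.digits 10 (Nat.nth Nat.Prime i)).length)).sum = t at a1 a2
    have a3 := congrArg (fun l : List ℕ => l[t + j]?) a2
    rw [List.getElem?_append_right (by omega), ← a1, Nat.add_sub_cancel_left,
      List.getElem?_reverse hj, List.getElem?_map, List.getElem?_range (by omega)] at a3
    rw [← Nat.getD_digits _ _ (by norm_num), List.getD_eq_getElem?_getD, ← a3]
    rfl

end Pool.Agent.S17987
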