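import Pool.Statements.S18225
import Pool.Agent.H.MP_b5ad3e_nt.E

set_option autoImplicit false
open Filter
open Pool Pool.MP_b5ad3e_nt

namespace Pool.Agent.S18225

theorem result :
    ∃ b : ℕ, 2 ≤ b ∧ ∃ a : ℕ → ℕ, StrictMono a ∧ (∀ n, 0 < a n) ∧
      (∀ θ : ℝ, θ < 1 → ∀ᶠ N : ℕ in atTop,
          (N : ℝ) ^ θ < (Nat.card {n : ℕ | a n ≤ N} : ℝ)) ∧
      ∃ d : ℕ → ℕ,
        (∀ n r : ℕ, r < (Nat.digits b (a n)).length →
          d ((∑ j ∈ Finset.range n, (Nat.digits b (a j)).length) + r)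
            = ((Nat.digits b (a n)).reverse).getD r 0) ∧
        ∃ ξ : ℝ, ξ = ∑' i : ℕ, (d i : ℝ) / (b : ℝ) ^ (i + 1) ∧
          ∀ m : ℕ, 1 ≤ m → ∀ k : ℕ, k < b ^ m →
            ∀ F : ℕ → ℝ,
              (∀ n : ℕ, F n =
                ((((Finset.range n).filter
                    (fun i : ℕ => ⌊ξ * ((b : ℝ) ^ m) ^ (i + 1)⌋ % ((b : ℤ) ^ m) = (k : ℤ))).card : ℝ)
                  - (n : ℝ) / (b : ℝ) ^ m)
                / Real.sqrt (2 * (n : ℝ) * Real.log (Real.log (n : ℝ)))) →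
              ∀ ε : ℝ, 0 < ε →
                (∀ᶠ n in atTop, F n < Real.sqrt ((b : ℝ) ^ m - 1) / (b : ℝ) ^ m + ε) ∧
                (∃ᶠ n in atTop, Real.sqrt ((b : ℝ) ^ m - 1) / (b : ℝ) ^ m - ε < F n) ∧
                (∀ᶠ n in atTop, -(Real.sqrt ((b : ℝ) ^ m - 1) / (b : ℝ) ^ m) - ε < F n) ∧
                (∃ᶠ n in atTop, F n < -(Real.sqrt ((b : ℝ) ^ m - 1) / (b : ℝ) ^ m) + ε) := by
  obtain ⟨a, L, h1, h2, h3, h4, h5⟩ := H.MP_b5ad3e_nt.main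
  obtain ⟨d1, d, d2, d3⟩ := H.MP_b5ad3e_nt.digs h2 h3
  refine ⟨2, le_rfl, a, h1, fun n => ?_, h4, d, by simpa only [d1] using d2, _, rfl,
    fun m hm k hk F hF ε hε => ?_⟩
  · have := (h2 n).1
    have : 0 < 2 ^ L n := by positivity
    omega
  obtain ⟨f, hf⟩ : ∃ f : ℕ → ℝ, ∀ q, f q = (((Finset.range q).filter fun i : ℕ =>
      ⌊(∑' i : ℕ, (d i : ℝ) / 2 ^ (i + 1)) * (2 ^ m) ^ (i + 1)⌋ % (2 : ℤ) ^ m = k).card : ℝ) - q / 2 ^ m :=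
    ⟨_, fun _ => rfl⟩
  obtain ⟨e1, e2⟩ := d3 m k hm f hf
  obtain ⟨g1, g2⟩ := h5 m k hm hk f e1 e2 ε hε
  simp only [Nat.cast_ofNat, ← hf] at hF ⊢
  simp only [H.MP_b5ad3e_nt.ph, H.MP_b5ad3e_nt.sg, ← hF] at g1 g2
  refine ⟨g1.mono fun _ h => (abs_lt.mp h).2, (g2 1 (.inl rfl)).mono fun _ h => by simpa using h,
    g1.mono fun _ h => by linarith [(abs_lt.mp h).1], (g2 (-1) (.inr rfl)).mono fun _ h => ?_⟩
  push_cast at h
  linarith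

end Pool.Agent.S18225
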