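import Pool.Statements.S18323
import Pool.Agent.H.MP_bd3be7_nt.C

set_option autoImplicit false
open Pool Pool.MP_bd3be7_nt

namespace Pool.Agent.S18323

/-- If K is the subfield of ℝ generated by square roots of a set of naturals and K has infinite degree over ℚ, then for every n some sum of squares of algebraic integers of K is not a sum of n such squares. -/
theorem result :
    ∀ S : Set ℕ,
      ¬ FiniteDimensional ℚ
          (IntermediateField.adjoin ℚ ((fun d : ℕ => Real.sqrt (d : ℝ)) '' S)) →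
      ∀ n : ℕ, ∃ m : ℕ, ∃ a : Fin m → ℝ,
        (∀ i, a i ∈ IntermediateField.adjoin ℚ ((fun d : ℕ => Real.sqrt (d : ℝ)) '' S) ∧
              IsIntegral ℤ (a i)) ∧
        ¬ ∃ b : Fin n → ℝ,
            (∀ i, b i ∈ IntermediateField.adjoin ℚ ((fun d : ℕ => Real.sqrt (d : ℝ)) '' S) ∧
                  IsIntegral ℤ (b i)) ∧
            ∑ i, (a i) ^ 2 = ∑ i, (b i) ^ 2 := by
  intro S hS n
  let K : IntermediateField ℚ H.MP_bd3be7_nt.Mq :=
    IntermediateField.adjoin ℚ (H.MP_bd3be7_nt.sq '' S)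
  have hm : K.map H.MP_bd3be7_nt.Mq.val =
      IntermediateField.adjoin ℚ ((fun d : ℕ => Real.sqrt (d : ℝ)) '' S) := by
    refine (IntermediateField.adjoin_map _ _ _).trans ?_
    rw [Set.image_image]; rfl
  have hK : ∀ x ∈ K, H.MP_bd3be7_nt.σ2 x ∈ K := fun x hx => by
    have : K.map H.MP_bd3be7_nt.σ2 ≤ K := by
      rw [IntermediateField.adjoin_map, IntermediateField.adjoin_le_iff]
      rintro _ ⟨_, ⟨d, hd, rfl⟩, rfl⟩
      have h1 : H.MP_bd3be7_nt.sq d ∈ K := IntermediateField.subset_adjoin _ _ ⟨d, hd, rfl⟩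
      obtain ⟨k, T, e⟩ := H.MP_bd3be7_nt.sq_eq d
      rw [e] at h1 ⊢
      rw [map_mul, map_natCast, H.MP_bd3be7_nt.σ2, H.MP_bd3be7_nt.sA_r, mul_smul_comm]
      exact K.smul_mem h1
    exact this ⟨x, hx, rfl⟩
  obtain ⟨m, a, ha, h⟩ := H.MP_bd3be7_nt.main (H.MP_bd3be7_nt.good K hK fun hf => hS (by
    rw [← hm]
    exact (K.equivMap H.MP_bd3be7_nt.Mq.val).toLinearEquiv.finiteDimensional)) n
  have hi : ∀ x : H.MP_bd3be7_nt.Mq, IsIntegral ℤ (x : ℝ) ↔ IsIntegral ℤ x := fun x =>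
    isIntegral_algHom_iff (H.MP_bd3be7_nt.Mq.val.restrictScalars ℤ) Subtype.val_injective
  rw [← hm]
  refine ⟨m, fun i => a i, fun i => ⟨⟨a i, (ha i).2, rfl⟩, (hi _).2 (ha i).1⟩, ?_⟩
  rintro ⟨b, hb, e⟩
  choose c hc hc' using fun i => (hb i).1
  obtain rfl : b = fun i => (c i : ℝ) := funext fun i => (hc' i).symm
  refine h ⟨c, fun i => ⟨(hi _).1 (hb i).2, hc i⟩, Subtype.ext ?_⟩
  simpa [pow_two] using e

end Pool.Agent.S18323
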