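import Pool.Statements.S18340
import Pool.Agent.H.MP_be0b77_nt.C

set_option autoImplicit false
open Pool Pool.MP_be0b77_nt

namespace Pool.Agent.S18340

theorem result :
    ¬ (∀ K : Subfield ℂ,
      (∀ x ∈ K, IsIntegral ℚ x ∧
        ∀ z : ℂ, Polynomial.aeval z (minpoly ℚ x) = 0 → z.im = 0) →
      ∀ A : Set ℝ,
        A = {s : ℝ | 0 < s ∧
          {α : ℂ | α ∈ K ∧ IsIntegral ℤ α ∧
            ∀ z : ℂ, Polynomial.aeval z (minpoly ℚ α) = 0 →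
              z.im = 0 ∧ 0 ≤ z.re ∧ z.re ≤ s}.Infinite} →
        A.Nonempty → sInf A ∈ A) := by
  intro h
  have hA : {s : ℝ | 0 < s ∧
      {α : ℂ | α ∈ Pool.Agent.H.MP_be0b77_nt.K ∧ IsIntegral ℤ α ∧
        ∀ z : ℂ, Polynomial.aeval z (minpoly ℚ α) = 0 →
          z.im = 0 ∧ 0 ≤ z.re ∧ z.re ≤ s}.Infinite} = Set.Ioi 4 := by
    ext s
    constructor
    · rintro ⟨-, hs⟩
      by_contra h4
      have h5 : s ≤ 4 := not_lt.1 h4
      refine hs (Pool.Agent.H.MP_be0b77_nt.fin_four.subset ?_)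
      rintro α ⟨h1, h2, h3⟩
      exact ⟨h1, h2, fun z hz => ⟨(h3 z hz).1, (h3 z hz).2.1, (h3 z hz).2.2.trans h5⟩⟩
    · intro hs
      have h4 : (4 : ℝ) < s := hs
      exact ⟨by linarith, Pool.Agent.H.MP_be0b77_nt.inf_gt h4⟩
  have := h Pool.Agent.H.MP_be0b77_nt.K Pool.Agent.H.MP_be0b77_nt.K_real (Set.Ioi 4) hA.symm
    Set.nonempty_Ioi
  rw [csInf_Ioi] at this
  exact lt_irrefl (4 : ℝ) this

end Pool.Agent.S18340
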