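import Pool.Statements.S18402
import Pool.Agent.H.MP_c34ff3_nt.B

set_option autoImplicit false
open Pool Pool.MP_c34ff3_nt

namespace Pool.Agent.S18402

/-- The negation of the preceding statement: For all positive n, r, once a is large enough, let m = 2^a·n. Every sequence of 2^r(m−1)+1 elements of (Z/m)^r has m terms summing to zero, and some sequence of 2^r(m−1) elements has no such m terms. -/
theorem result :
    ¬ (∀ n r : ℕ, 0 < n → 0 < r → ∃ A : ℕ, ∀ a : ℕ, A ≤ a →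
      (∀ f : Fin (2 ^ r * (2 ^ a * n - 1) + 1) → (Fin r → ZMod (2 ^ a * n)),
          ∃ S : Finset (Fin (2 ^ r * (2 ^ a * n - 1) + 1)),
            S.card = 2 ^ a * n ∧ ∑ i ∈ S, f i = 0) ∧
      ¬ (∀ f : Fin (2 ^ r * (2 ^ a * n - 1)) → (Fin r → ZMod (2 ^ a * n)),
          ∃ S : Finset (Fin (2 ^ r * (2 ^ a * n - 1))),
            S.card = 2 ^ a * n ∧ ∑ i ∈ S, f i = 0)) := by
  intro h
  obtain ⟨A, hA⟩ := h 3 4 (by omega) (by omega)
  have hM : 2 ^ (6 * A) % 9 = 1 := by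
    rw [pow_mul, Nat.pow_mod]
    simp
  obtain ⟨f, hf⟩ := Pool.Agent.H.MP_c34ff3_nt.final (2 ^ (6 * A)) hM
  obtain ⟨S, h1, h2⟩ := (hA (6 * A) (by omega)).1 f
  exact hf S h1 h2

end Pool.Agent.S18402
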