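import Pool.Statements.S18406

set_option autoImplicit false
open Classical
open Pool Pool.MP_c36293_nt
open MeasureTheory

namespace Pool.Agent.S18406

abbrev E := Fin 2 → ℝ

noncomputable def mu : Measure E := volume.restrict (Set.Icc (0 : E) 1)

theorem vol_box (a b c d : ℝ) (h1 : 0 ≤ a) (h2 : a ≤ c) (h3 : c ≤ 1) (h4 : 0 ≤ b) (h5 : b ≤ d)
    (h6 : d ≤ 1) : mu.real (Set.Icc ![a, b] ![c, d]) = (c - a) * (d - b) := by
  have hsub : Set.Icc (![a, b] : E) ![c, d] ⊆ Set.Icc (0 : E) 1 := by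
    apply Set.Icc_subset_Icc
    · intro i; fin_cases i <;> simpa
    · intro i; fin_cases i <;> simpa
  unfold mu
  rw [measureReal_restrict_apply measurableSet_Icc, Set.inter_eq_left.2 hsub, Measure.real,
    Real.volume_Icc_pi_toReal (by intro i; fin_cases i <;> simpa)]
  simp [Fin.prod_univ_two]

instance : IsProbabilityMeasure mu := ⟨by
  unfold mu
  rw [Measure.restrict_apply_univ, Real.volume_Icc_pi]
  simp⟩

theorem ae_mu : ∀ᵐ x ∂mu, x ∈ Set.Icc (0 : E) 1 := ae_restrict_mem measurableSet_Icc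

theorem lower_int (f : E → E → ℝ) (hf : Measurable (Function.uncurry f)) (Bd c : ℝ)
    (h0 : ∀ x y, 0 ≤ f x y)
    (hB : ∀ x ∈ Set.Icc (0 : E) 1, ∀ y ∈ Set.Icc (0 : E) 1, f x y ≤ Bd)
    (A B : Set E) (hA : MeasurableSet A) (hB' : MeasurableSet B)
    (hc : ∀ x ∈ A, ∀ y ∈ B, c ≤ f x y) :
    mu.real A * mu.real B * c ≤ ∫ x, ∫ y, f x y ∂mu ∂mu := by
  have hae : ∀ᵐ z ∂(mu.prod mu), z.1 ∈ Set.Icc (0 : E) 1 ∧ z.2 ∈ Set.Icc (0 : E) 1 := by
    have h1 := (Measure.quasiMeasurePreserving_fst (μ := mu) (ν := mu)).ae ae_mu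
    have h2 := (Measure.quasiMeasurePreserving_snd (μ := mu) (ν := mu)).ae ae_mu
    filter_upwards [h1, h2] with z a b using ⟨a, b⟩
  have hint : Integrable (Function.uncurry f) (mu.prod mu) := by
    refine Integrable.of_bound hf.aestronglyMeasurable Bd ?_
    filter_upwards [hae] with z hz
    change ‖f z.1 z.2‖ ≤ Bd
    rw [Real.norm_eq_abs, abs_of_nonneg (h0 z.1 z.2)]
    exact hB _ hz.1 _ hz.2
  rw [integral_integral hint]
  have e : mu.real A * mu.real B * c
      = ∫ z, (A ×ˢ B).indicator (fun _ => c) z ∂(mu.prod mu) := by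
    rw [integral_indicator_const _ (hA.prod hB'), Measure.real, Measure.real, Measure.real,
      Measure.prod_prod, ENNReal.toReal_mul, smul_eq_mul]
  rw [e]
  refine integral_mono ((integrable_const c).indicator (hA.prod hB')) hint ?_
  intro z
  by_cases hz : z ∈ A ×ˢ B
  · simp only [Set.indicator_of_mem hz]
    exact hc _ hz.1 _ hz.2
  · simp only [Set.indicator_of_notMem hz]
    exact h0 _ _

theorem upper_int (g : E → E → ℝ) (a b : ℝ) (h0 : ∀ x y, 0 ≤ g x y) (A : Set E)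
    (hA : MeasurableSet A)
    (h : ∀ x ∈ Set.Icc (0 : E) 1, ∀ y ∈ Set.Icc (0 : E) 1,
      g x y ≤ a + A.indicator (fun _ => b) x) :
    ∫ x, ∫ y, g x y ∂mu ∂mu ≤ a + mu.real A * b := by
  have hi : Integrable (A.indicator fun _ : E => b) mu := (integrable_const b).indicator hA
  have e : a + mu.real A * b = ∫ x, (a + A.indicator (fun _ => b) x) ∂mu := by
    rw [integral_add (integrable_const a) hi, integral_indicator_const _ hA]
    simp
  rw [e]
  refine integral_mono_of_nonneg ?_ ((integrable_const a).add hi) ?_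
  · exact Filter.Eventually.of_forall fun x => integral_nonneg fun y => h0 x y
  · filter_upwards [ae_mu] with x hx
    have e2 : a + A.indicator (fun _ => b) x = ∫ _y, (a + A.indicator (fun _ => b) x) ∂mu := by
      simp
    rw [e2]
    refine integral_mono_of_nonneg (Filter.Eventually.of_forall fun y => h0 x y)
      (integrable_const _) ?_
    filter_upwards [ae_mu] with y hy using h x hx y hy

/-- number of grid points in a half-open interval -/
noncomputable def cnt (K : ℕ) (u v : ℝ) : ℝ :=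
  ∑ a : Fin K, if u ≤ (a : ℝ) / K ∧ (a : ℝ) / K < v then 1 else 0

theorem cnt_nonneg (K : ℕ) (u v : ℝ) : 0 ≤ cnt K u v :=
  Finset.sum_nonneg fun _ _ => by split_ifs <;> norm_num

theorem cnt_bound (K : ℕ) (hK : 0 < K) (u v : ℝ) (hu : 0 ≤ u) (huv : u ≤ v) (hv : v ≤ 1) :
    |cnt K u v - K * (v - u)| ≤ 1 := by
  have hK' : (0 : ℝ) < K := by exact_mod_cast hK
  have hvK : ⌈K * v⌉₊ ≤ K := by
    rw [Nat.ceil_le]; nlinarith
  have huv' : ⌈K * u⌉₊ ≤ ⌈K * v⌉₊ := Nat.ceil_mono (by nlinarith)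
  have e : cnt K u v = (⌈K * v⌉₊ : ℝ) - ⌈K * u⌉₊ := by
    unfold cnt
    rw [Fin.sum_univ_eq_sum_range
      (fun a : ℕ => if u ≤ (a : ℝ) / K ∧ (a : ℝ) / K < v then (1 : ℝ) else 0) K,
      Finset.sum_boole]
    have : (Finset.range K).filter (fun a : ℕ => u ≤ (a : ℝ) / K ∧ (a : ℝ) / K < v)
        = Finset.Ico ⌈K * u⌉₊ ⌈K * v⌉₊ := by
      ext a
      simp only [Finset.mem_filter, Finset.mem_range, Finset.mem_Ico, Nat.ceil_le, Nat.lt_ceil,
        le_div_iff₀ hK', div_lt_iff₀ hK', mul_comm (K : ℝ)]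
      constructor
      · exact fun h => h.2
      · intro h
        refine ⟨?_, h⟩
        have : (a : ℝ) < K := by nlinarith [h.2]
        exact_mod_cast this
    rw [this, Nat.card_Ico, Nat.cast_sub huv']
  have h1 := Nat.le_ceil (K * v)
  have h2 := Nat.le_ceil (K * u)
  have h3 := Nat.ceil_lt_add_one (show 0 ≤ K * v by nlinarith)
  have h4 := Nat.ceil_lt_add_one (show 0 ≤ K * u by positivity)
  rw [e, abs_le]
  constructor <;> nlinarith

/-- the point set: a square grid whose first `M` columns are squeezed into the lower half -/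
noncomputable def pt (K M : ℕ) (z : Fin K × Fin K) : E :=
  ![(z.1 : ℝ) / K, if (z.1 : ℕ) < M then (z.2 : ℝ) / (2 * K) else (z.2 : ℝ) / K]

noncomputable def PP (K M : ℕ) (i : Fin (K * K)) : E := pt K M (finProdFinEquiv.symm i)

theorem card_eq (K M : ℕ) (Q : E → Prop) [DecidablePred Q] :
    ((Finset.univ.filter (fun i : Fin (K * K) => Q (PP K M i))).card : ℝ)
      = ∑ a : Fin K, ∑ b : Fin K, if Q (pt K M (a, b)) then 1 else 0 := by
  rw [← Finset.sum_boole, ← Fintype.sum_prod_type']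
  exact Equiv.sum_comp finProdFinEquiv.symm (fun z => if Q (pt K M z) then (1 : ℝ) else 0)

theorem sum_lt (K M : ℕ) (h : M ≤ K) :
    ∑ a : Fin K, (if (a : ℕ) < M then (1 : ℝ) else 0) = M := by
  rw [Fin.sum_univ_eq_sum_range (fun a : ℕ => if a < M then (1 : ℝ) else 0) K, Finset.sum_boole]
  have : (Finset.range K).filter (fun a => a < M) = Finset.range M := by
    ext a; simp; omega
  rw [this]; simp

theorem extr_bound (K M : ℕ) (hK : 0 < K) (hM : M ≤ K) (x y : E) (hx : x ∈ Set.Icc (0 : E) 1)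
    (hy : y ∈ Set.Icc (0 : E) 1) (hxy : x ≤ y) :
    |((Finset.univ.filter (fun i : Fin (K * K) => ∀ j : Fin 2,
                x j ≤ PP K M i j ∧ PP K M i j < y j)).card : ℝ)
              - ((K * K : ℕ) : ℝ) * ∏ j : Fin 2, (y j - x j)|
      ≤ 3 * K + (Set.Icc (![0, 0] : E) ![M / K, 1]).indicator (fun _ => (M * K : ℝ)) x := by
  have hK' : (0 : ℝ) < K := by exact_mod_cast hK
  have hK1 : (1 : ℝ) ≤ K := by exact_mod_cast hK
  rw [card_eq K M (fun w => ∀ j : Fin 2, x j ≤ w j ∧ w j < y j)]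
  have b0 := cnt_bound K hK (x 0) (y 0) (hx.1 0) (hxy 0) (hy.2 0)
  have b1 := cnt_bound K hK (x 1) (y 1) (hx.1 1) (hxy 1) (hy.2 1)
  have hx0 : 0 ≤ x 0 := hx.1 0
  have hx1 : 0 ≤ x 1 := hx.1 1
  have hx1' : x 1 ≤ 1 := hx.2 1
  have hy0 : y 0 ≤ 1 := hy.2 0
  have hy1 : y 1 ≤ 1 := hy.2 1
  have h0 : x 0 ≤ y 0 := hxy 0
  have h1 : x 1 ≤ y 1 := hxy 1
  have main : |cnt K (x 0) (y 0) * cnt K (x 1) (y 1)
      - ((K * K : ℕ) : ℝ) * ∏ j : Fin 2, (y j - x j)| ≤ 3 * K := by
    rw [Fin.prod_univ_two]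
    push_cast
    obtain ⟨s, hs⟩ : ∃ s, s = cnt K (x 0) (y 0) - K * (y 0 - x 0) := ⟨_, rfl⟩
    obtain ⟨t, ht⟩ : ∃ t, t = cnt K (x 1) (y 1) - K * (y 1 - x 1) := ⟨_, rfl⟩
    rw [← hs] at b0; rw [← ht] at b1
    have e : cnt K (x 0) (y 0) * cnt K (x 1) (y 1) - K * K * ((y 0 - x 0) * (y 1 - x 1))
        = s * (K * (y 1 - x 1)) + t * (K * (y 0 - x 0)) + s * t := by
      rw [hs, ht]; ring
    rw [e]
    have p1 : |s * (K * (y 1 - x 1))| ≤ K := by
      rw [abs_mul, abs_of_nonneg (by nlinarith : 0 ≤ K * (y 1 - x 1))]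
      have : K * (y 1 - x 1) ≤ K := by nlinarith
      nlinarith [abs_nonneg s]
    have p2 : |t * (K * (y 0 - x 0))| ≤ K := by
      rw [abs_mul, abs_of_nonneg (by nlinarith : 0 ≤ K * (y 0 - x 0))]
      have : K * (y 0 - x 0) ≤ K := by nlinarith
      nlinarith [abs_nonneg t]
    have p3 : |s * t| ≤ 1 := by
      rw [abs_mul]; nlinarith [abs_nonneg s, abs_nonneg t]
    have := abs_add_three (s * (K * (y 1 - x 1))) (t * (K * (y 0 - x 0))) (s * t)
    linarith
  have hprod : cnt K (x 0) (y 0) * cnt K (x 1) (y 1) = ∑ a : Fin K, ∑ b : Fin K,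
      (if x 0 ≤ (a : ℝ) / K ∧ (a : ℝ) / K < y 0 then (1 : ℝ) else 0) *
        (if x 1 ≤ (b : ℝ) / K ∧ (b : ℝ) / K < y 1 then (1 : ℝ) else 0) := by
    unfold cnt
    rw [Finset.sum_mul_sum]
  obtain ⟨w, hw⟩ : ∃ w : ℝ, w = if x 0 ≤ M / K then 1 else 0 := ⟨_, rfl⟩
  have diff : |(∑ a : Fin K, ∑ b : Fin K,
      if (∀ j : Fin 2, x j ≤ pt K M (a, b) j ∧ pt K M (a, b) j < y j) then (1 : ℝ) else 0)
      - cnt K (x 0) (y 0) * cnt K (x 1) (y 1)| ≤ M * K * w := by
    rw [hprod, ← Finset.sum_sub_distrib]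
    refine (Finset.abs_sum_le_sum_abs _ _).trans ?_
    have e : (M : ℝ) * K * w
        = ∑ a : Fin K, ∑ _b : Fin K, (if (a : ℕ) < M then (1 : ℝ) else 0) * w := by
      simp only [Finset.sum_const, Finset.card_univ, Fintype.card_fin, nsmul_eq_mul]
      rw [← Finset.mul_sum, ← Finset.sum_mul, sum_lt K M hM]; ring
    rw [e]
    refine Finset.sum_le_sum fun a _ => ?_
    rw [← Finset.sum_sub_distrib]
    refine (Finset.abs_sum_le_sum_abs _ _).trans (Finset.sum_le_sum fun b _ => ?_)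
    simp only [Fin.forall_fin_two, pt, Matrix.cons_val_zero, Matrix.cons_val_one]
    by_cases ha : (a : ℕ) < M
    · simp only [ha, if_true, one_mul]
      by_cases hx0 : x 0 ≤ M / K
      · rw [hw, if_pos hx0]
        split_ifs <;> norm_num
      · rw [hw, if_neg hx0]
        have : ¬ x 0 ≤ (a : ℝ) / K := by
          intro hc
          apply hx0
          refine hc.trans ?_
          have : ((a : ℕ) : ℝ) ≤ M := by exact_mod_cast ha.le
          gcongr
        simp [this]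
    · simp only [ha, if_false, zero_mul]
      by_cases c1 : x 0 ≤ (a : ℝ) / K ∧ (a : ℝ) / K < y 0 <;>
        by_cases c2 : x 1 ≤ (b : ℝ) / K ∧ (b : ℝ) / K < y 1 <;> simp [c1, c2]
  have ind : (Set.Icc (![0, 0] : E) ![M / K, 1]).indicator (fun _ => (M * K : ℝ)) x
      = M * K * w := by
    by_cases hx0' : x 0 ≤ M / K
    · rw [hw, if_pos hx0', Set.indicator_of_mem, mul_one]
      constructor
      · intro i; fin_cases i <;> simpa
      · intro i; fin_cases i <;> simpa
    · rw [hw, if_neg hx0', Set.indicator_of_notMem, mul_zero]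
      intro hc
      exact hx0' (by simpa using hc.2 0)
  rw [ind]
  have := abs_sub_le (∑ a : Fin K, ∑ b : Fin K,
      if (∀ j : Fin 2, x j ≤ pt K M (a, b) j ∧ pt K M (a, b) j < y j) then (1 : ℝ) else 0)
      (cnt K (x 0) (y 0) * cnt K (x 1) (y 1)) (((K * K : ℕ) : ℝ) * ∏ j : Fin 2, (y j - x j))
  linarith

theorem per_bound (K M : ℕ) (hK : 0 < K) (hM : 4 * M ≤ K) (x y : E)
    (hx : x ∈ Set.Icc (![3 / 4, 1 / 2] : E) ![1, 5 / 8])
    (hy : y ∈ Set.Icc (![1 / 4, 3 / 4] : E) ![1 / 2, 1]) :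
    (M : ℝ) * K / 8 - 5 * K ≤
    |((Finset.univ.filter (fun i : Fin (K * K) => ∀ j : Fin 2,
              (x j ≤ y j ∧ x j ≤ PP K M i j ∧ PP K M i j < y j) ∨
              (y j < x j ∧ (PP K M i j < y j ∨ x j ≤ PP K M i j)))).card : ℝ)
            - ((K * K : ℕ) : ℝ) *
              ∏ j : Fin 2, (if x j ≤ y j then y j - x j else 1 - x j + y j)| := by
  have hK' : (0 : ℝ) < K := by exact_mod_cast hK
  have hK1 : (1 : ℝ) ≤ K := by exact_mod_cast hK
  have hM' : 4 * (M : ℝ) ≤ K := by exact_mod_cast hM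
  have a1 : 3 / 4 ≤ x 0 := by simpa using hx.1 0
  have a2 : x 0 ≤ 1 := by simpa using hx.2 0
  have a3 : 1 / 2 ≤ x 1 := by simpa using hx.1 1
  have a4 : x 1 ≤ 5 / 8 := by simpa using hx.2 1
  have a5 : 1 / 4 ≤ y 0 := by simpa using hy.1 0
  have a6 : y 0 ≤ 1 / 2 := by simpa using hy.2 0
  have a7 : 3 / 4 ≤ y 1 := by simpa using hy.1 1
  have a8 : y 1 ≤ 1 := by simpa using hy.2 1
  have n0 : ¬ x 0 ≤ y 0 := by linarith
  have n0' : y 0 < x 0 := by linarith
  have n1 : x 1 ≤ y 1 := by linarith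
  have n1' : ¬ y 1 < x 1 := by linarith
  rw [card_eq K M (fun w => ∀ j : Fin 2, (x j ≤ y j ∧ x j ≤ w j ∧ w j < y j) ∨
              (y j < x j ∧ (w j < y j ∨ x j ≤ w j))), Fin.prod_univ_two, if_neg n0, if_pos n1]
  have b0 := cnt_bound K hK 0 (y 0) le_rfl (by linarith) (by linarith)
  have b1 := cnt_bound K hK (x 0) 1 (by linarith) a2 le_rfl
  have b2 := cnt_bound K hK (x 1) (y 1) (by linarith) n1 a8
  have key : (∑ a : Fin K, ∑ b : Fin K, if (∀ j : Fin 2,
      (x j ≤ y j ∧ x j ≤ pt K M (a, b) j ∧ pt K M (a, b) j < y j) ∨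
        (y j < x j ∧ (pt K M (a, b) j < y j ∨ x j ≤ pt K M (a, b) j))) then (1 : ℝ) else 0)
      = (cnt K 0 (y 0) + cnt K (x 0) 1 - M) * cnt K (x 1) (y 1) := by
    rw [← sum_lt K M (by omega)]
    unfold cnt
    rw [← Finset.sum_add_distrib, ← Finset.sum_sub_distrib, Finset.sum_mul_sum]
    refine Finset.sum_congr rfl fun a _ => Finset.sum_congr rfl fun b _ => ?_
    simp only [Fin.forall_fin_two, pt, Matrix.cons_val_zero, Matrix.cons_val_one, n0, n0', n1,
      n1', true_and, false_and, false_or, or_false]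
    have ha0 : (0 : ℝ) ≤ (a : ℝ) / K := by positivity
    have ha1 : (a : ℝ) / K < 1 := by
      rw [div_lt_one hK']; exact_mod_cast a.2
    by_cases ha : (a : ℕ) < M
    · have c1 : (a : ℝ) / K < y 0 := by
        have : ((a : ℕ) : ℝ) < M := by exact_mod_cast ha
        rw [div_lt_iff₀ hK']; nlinarith
      have c2 : ¬ x 0 ≤ (a : ℝ) / K := by linarith
      have c3 : ¬ x 1 ≤ (b : ℝ) / (2 * K) := by
        have : ((b : ℕ) : ℝ) < K := by exact_mod_cast b.2
        rw [not_le, div_lt_iff₀ (by positivity)]; nlinarith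
      simp [ha, ha0, c1, c2, c3]
    · by_cases c1 : (a : ℝ) / K < y 0
      · have c2 : ¬ x 0 ≤ (a : ℝ) / K := by linarith
        simp [ha, ha0, c1, c2]
      · by_cases c2 : x 0 ≤ (a : ℝ) / K
        · simp [ha, ha1, c1, c2]
        · simp [ha, c1, c2]
  rw [key]
  refine le_trans ?_ (neg_le_abs _)
  push_cast
  rw [abs_le] at b0 b1 b2
  have c0 := cnt_nonneg K (x 1) (y 1)
  have f1 : cnt K 0 (y 0) + cnt K (x 0) 1 - M ≤ K * (1 - x 0 + y 0) + 2 - M := by linarith
  have f2 : 0 ≤ K * (1 - x 0 + y 0) + 2 - M := by nlinarith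
  have f3 : cnt K (x 1) (y 1) ≤ K * (y 1 - x 1) + 1 := by linarith
  have f4 : (cnt K 0 (y 0) + cnt K (x 0) 1 - M) * cnt K (x 1) (y 1)
      ≤ (K * (1 - x 0 + y 0) + 2 - M) * (K * (y 1 - x 1) + 1) :=
    (mul_le_mul_of_nonneg_right f1 c0).trans (mul_le_mul_of_nonneg_left f3 f2)
  have hM0 : (0 : ℝ) ≤ M := by positivity
  have f5 : (M : ℝ) * K / 8 ≤ M * (K * (y 1 - x 1)) := by
    have : (K : ℝ) / 8 ≤ K * (y 1 - x 1) := by nlinarith
    nlinarith
  have f6 : K * (y 1 - x 1) ≤ K := by nlinarith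
  have f7 : K * (1 - x 0 + y 0) ≤ K := by nlinarith
  nlinarith

theorem result :
    ¬ (∀ (d : ℕ), 1 ≤ d → ∀ (p : ℝ), 1 ≤ p → ∃ C : ℝ, 0 < C ∧
      ∀ (N : ℕ), 1 ≤ N → ∀ P : Fin N → Fin d → ℝ, (∀ i j, 0 ≤ P i j ∧ P i j < 1) →
        (∫ x in Set.Icc (0 : Fin d → ℝ) 1, ∫ y in Set.Icc (0 : Fin d → ℝ) 1,
          |((Finset.univ.filter (fun i : Fin N => ∀ j : Fin d,
              (x j ≤ y j ∧ x j ≤ P i j ∧ P i j < y j) ∨
              (y j < x j ∧ (P i j < y j ∨ x j ≤ P i j)))).card : ℝ)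
            - (N : ℝ) * ∏ j : Fin d, (if x j ≤ y j then y j - x j else 1 - x j + y j)| ^ p)
        ≤ C * ∫ x in Set.Icc (0 : Fin d → ℝ) 1, ∫ y in Set.Icc (0 : Fin d → ℝ) 1,
          (if x ≤ y then
            |((Finset.univ.filter (fun i : Fin N => ∀ j : Fin d,
                x j ≤ P i j ∧ P i j < y j)).card : ℝ)
              - (N : ℝ) * ∏ j : Fin d, (y j - x j)| ^ p
           else 0)) := by
  intro h
  obtain ⟨C, hC, h⟩ := h 2 (by norm_num) 1 le_rfl
  obtain ⟨M, hM⟩ := exists_nat_gt (8 * (2048 * C + 6))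
  have hM4 : (4 : ℝ) ≤ M := by linarith
  have hM4' : 4 ≤ M := by exact_mod_cast hM4
  set K := M * M with hKdef
  have hK : 0 < K := by positivity
  have hK' : (0 : ℝ) < K := by exact_mod_cast hK
  have hKM : (K : ℝ) = M * M := by rw [hKdef]; push_cast; ring
  have h4 : 4 * M ≤ K := Nat.mul_le_mul_right M hM4'
  have hP : ∀ i j, 0 ≤ PP K M i j ∧ PP K M i j < 1 := by
    intro i j
    unfold PP
    generalize finProdFinEquiv.symm i = z
    have z1 : ((z.1 : ℕ) : ℝ) < K := by exact_mod_cast z.1.2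
    have z2 : ((z.2 : ℕ) : ℝ) < K := by exact_mod_cast z.2.2
    fin_cases j
    · simp only [pt, Fin.zero_eta, Matrix.cons_val_zero]
      exact ⟨by positivity, by rwa [div_lt_one hK']⟩
    · simp only [pt, Fin.mk_one, Matrix.cons_val_one, Matrix.cons_val_zero]
      split_ifs
      · exact ⟨by positivity, by rw [div_lt_one (by positivity)]; linarith⟩
      · exact ⟨by positivity, by rwa [div_lt_one hK']⟩
  have h1 := h (K * K) (Nat.mul_pos hK hK) (PP K M) hP
  simp only [Real.rpow_one] at h1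
  have up := upper_int (fun x y => if x ≤ y then
            |((Finset.univ.filter (fun i : Fin (K * K) => ∀ j : Fin 2,
                x j ≤ PP K M i j ∧ PP K M i j < y j)).card : ℝ)
              - ((K * K : ℕ) : ℝ) * ∏ j : Fin 2, (y j - x j)| else 0) (3 * K) (M * K)
    (fun x y => by split_ifs <;> positivity) (Set.Icc (![0, 0] : E) ![M / K, 1])
    measurableSet_Icc (by
      intro x hx y hy
      split_ifs with hxy
      · exact extr_bound K M hK (by omega) x y hx hy hxy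
      · have : 0 ≤ (Set.Icc (![0, 0] : E) ![M / K, 1]).indicator (fun _ => (M * K : ℝ)) x :=
          Set.indicator_nonneg (fun _ _ => by positivity) x
        positivity)
  have lo := lower_int (fun x y => |((Finset.univ.filter (fun i : Fin (K * K) => ∀ j : Fin 2,
              (x j ≤ y j ∧ x j ≤ PP K M i j ∧ PP K M i j < y j) ∨
              (y j < x j ∧ (PP K M i j < y j ∨ x j ≤ PP K M i j)))).card : ℝ)
            - ((K * K : ℕ) : ℝ) *
              ∏ j : Fin 2, (if x j ≤ y j then y j - x j else 1 - x j + y j)|) ?_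
    (2 * ((K * K : ℕ) : ℝ)) ((M : ℝ) * K / 8 - 5 * K) (fun x y => abs_nonneg _) ?_
    (Set.Icc (![3 / 4, 1 / 2] : E) ![1, 5 / 8]) (Set.Icc (![1 / 4, 3 / 4] : E) ![1 / 2, 1])
    measurableSet_Icc measurableSet_Icc (fun x hx y hy => per_bound K M hK h4 x y hx hy)
  · have hMK : (M : ℝ) / K ≤ 1 := by rw [div_le_one hK', hKM]; nlinarith
    rw [vol_box _ _ _ _ le_rfl (by positivity) hMK le_rfl (by norm_num) le_rfl] at up
    rw [vol_box _ _ _ _ (by norm_num) (by norm_num) (by norm_num) (by norm_num) (by norm_num)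
      (by norm_num), vol_box _ _ _ _ (by norm_num) (by norm_num) (by norm_num) (by norm_num)
      (by norm_num) (by norm_num)] at lo
    have h2 := lo.trans (h1.trans (mul_le_mul_of_nonneg_left up hC.le))
    have e : ((M : ℝ) / K - 0) * (1 - 0) * (M * K) = K := by
      field_simp
      rw [hKM]; ring
    rw [e] at h2
    nlinarith
  · apply Measurable.abs
    apply Measurable.sub
    · simp only [Finset.card_filter]
      push_cast
      refine Finset.measurable_sum _ fun i _ => Measurable.ite ?_ measurable_const measurable_const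
      simp only [Fin.forall_fin_two]
      measurability
    · refine measurable_const.mul (Finset.measurable_prod _ fun j _ => Measurable.ite ?_ ?_ ?_)
      · measurability
      · fun_prop
      · fun_prop
  · intro x hx y hy
    have c1 : ((Finset.univ.filter (fun i : Fin (K * K) => ∀ j : Fin 2,
              (x j ≤ y j ∧ x j ≤ PP K M i j ∧ PP K M i j < y j) ∨
              (y j < x j ∧ (PP K M i j < y j ∨ x j ≤ PP K M i j)))).card : ℝ)
        ≤ ((K * K : ℕ) : ℝ) := by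
      have := Finset.card_filter_le (Finset.univ : Finset (Fin (K * K))) (fun i => ∀ j : Fin 2,
              (x j ≤ y j ∧ x j ≤ PP K M i j ∧ PP K M i j < y j) ∨
              (y j < x j ∧ (PP K M i j < y j ∨ x j ≤ PP K M i j)))
      rw [Finset.card_univ, Fintype.card_fin] at this
      exact_mod_cast this
    have c2 : ∀ j, 0 ≤ (if x j ≤ y j then y j - x j else 1 - x j + y j) ∧
        (if x j ≤ y j then y j - x j else 1 - x j + y j) ≤ 1 := by
      intro j
      have q1 : 0 ≤ x j := hx.1 j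
      have q2 : x j ≤ 1 := hx.2 j
      have q3 : 0 ≤ y j := hy.1 j
      have q4 : y j ≤ 1 := hy.2 j
      split_ifs with hh
      · constructor <;> linarith
      · push Not at hh
        constructor <;> linarith
    have c3 := Finset.prod_nonneg (s := Finset.univ) fun j _ => (c2 j).1
    have c4 := Finset.prod_le_one (s := Finset.univ) (fun j _ => (c2 j).1) fun j _ => (c2 j).2
    have c5 : (0 : ℝ) ≤ ((K * K : ℕ) : ℝ) := by positivity
    rw [abs_le]
    constructor
    · nlinarith [Nat.cast_nonneg (α := ℝ) (Finset.univ.filter (fun i : Fin (K * K) =>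
        ∀ j : Fin 2, (x j ≤ y j ∧ x j ≤ PP K M i j ∧ PP K M i j < y j) ∨
              (y j < x j ∧ (PP K M i j < y j ∨ x j ≤ PP K M i j)))).card]
    · nlinarith

end Pool.Agent.S18406
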