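import Pool.Statements.S18540
-- import your own Pool.Agent.* helpers here

set_option autoImplicit false
open Pool Pool.MP_ceb3e8_nt

namespace Pool.Agent.S18540

abbrev KK : Type := RatFunc (ZMod 2)

noncomputable abbrev s : KK := RatFunc.X

lemma two_zero : (2 : KK) = 0 := by
  have : CharP KK 2 := inferInstance
  exact_mod_cast CharP.cast_eq_zero KK 2

lemma sq_add (a b : KK) : (a + b) ^ 2 = a ^ 2 + b ^ 2 := by
  linear_combination (a * b) * two_zero

noncomputable def cc (x : KK) : KK := s * x + x ^ 2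

noncomputable def ps (y : KK) : KK := s ^ 2 * y + y ^ 2

lemma cc_add (a b : KK) : cc (a + b) = cc a + cc b := by
  unfold cc; rw [sq_add]; ring

lemma ps_add (a b : KK) : ps (a + b) = ps a + ps b := by
  unfold ps; rw [sq_add]; ring

lemma ps_sq (x : KK) : ps (x ^ 2) = cc x ^ 2 := by
  unfold ps cc; rw [sq_add]; ring

lemma cc_cc (x : KK) : cc (cc x) = s ^ 2 * x + (s + s ^ 2) * x ^ 2 + x ^ 4 := by
  unfold cc; rw [sq_add]; ring

noncomputable def PsiAdd : (Fin 2 → KK) →+ (Fin 2 → KK) where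
  toFun v := ![cc (cc (v 0)), ps (v 1)]
  map_zero' := by
    ext i; fin_cases i <;> simp [cc, ps]
  map_add' a b := by
    ext i; fin_cases i <;> simp [cc_add, ps_add]

noncomputable def Psi : Module.End (ZMod 2) (Fin 2 → KK) := PsiAdd.toZModLinearMap 2

lemma Psi_apply (v : Fin 2 → KK) : Psi v = ![cc (cc (v 0)), ps (v 1)] := rfl

lemma Psi_pow0 (k : ℕ) (x : KK) : (Psi ^ k) ![x, 0] = ![cc^[2 * k] x, 0] := by
  induction k with
  | zero => simp
  | succ k ih =>
    rw [pow_succ', Module.End.mul_apply, ih, Psi_apply]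
    have : 2 * (k + 1) = 2 * k + 1 + 1 := by ring
    rw [this, Function.iterate_succ_apply', Function.iterate_succ_apply']
    simp [ps]

lemma Psi_pow1 (k : ℕ) (x : KK) : (Psi ^ k) ![0, x ^ 2] = ![0, (cc^[k] x) ^ 2] := by
  induction k with
  | zero => simp
  | succ k ih =>
    rw [pow_succ', Module.End.mul_apply, ih, Psi_apply, Function.iterate_succ_apply']
    simp [ps_sq, cc]

noncomputable def uu : ℕ → Polynomial (ZMod 2)
  | 0 => Polynomial.X ^ 2
  | n + 1 => Polynomial.X * uu n + uu n ^ 2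

lemma uu_deg (n : ℕ) : (uu n).natDegree = 2 ^ (n + 1) := by
  induction n with
  | zero => simp [uu]
  | succ n ih =>
    have h1 : (uu n ^ 2).natDegree = 2 ^ (n + 1 + 1) := by
      rw [Polynomial.natDegree_pow, ih]; ring
    have h2 : (Polynomial.X * uu n).natDegree ≤ 1 + 2 ^ (n + 1) := by
      refine Polynomial.natDegree_mul_le.trans ?_
      rw [ih, Polynomial.natDegree_X]
    have h3 : 1 + 2 ^ (n + 1) < 2 ^ (n + 1 + 1) := by
      have : 2 ≤ 2 ^ (n + 1) := by
        calc 2 = 2 ^ 1 := by norm_num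
          _ ≤ 2 ^ (n + 1) := Nat.pow_le_pow_right (by norm_num) (by omega)
      rw [pow_succ 2 (n + 1)]; omega
    rw [uu, Polynomial.natDegree_add_eq_right_of_natDegree_lt (by omega), h1]

lemma iter_eq (n : ℕ) : cc^[n] (s ^ 2) = algebraMap (Polynomial (ZMod 2)) KK (uu n) := by
  induction n with
  | zero => simp [uu, RatFunc.algebraMap_X]
  | succ n ih =>
    rw [Function.iterate_succ_apply', ih, uu]
    simp [cc, RatFunc.algebraMap_X]

lemma iter_inj : Function.Injective (fun n : ℕ => cc^[n] (s ^ 2)) := by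
  intro a b hab
  simp only [iter_eq] at hab
  have h := congrArg Polynomial.natDegree (RatFunc.algebraMap_injective _ hab)
  rw [uu_deg, uu_deg] at h
  have := Nat.pow_right_injective (le_refl 2) h
  omega

lemma fin_roots : {x : KK | cc (cc x) = cc x}.Finite := by
  let P : Polynomial KK := Polynomial.X ^ 4 + (Polynomial.C (s + s ^ 2 - 1) * Polynomial.X ^ 2 +
    Polynomial.C (s ^ 2 - s) * Polynomial.X)
  have hP : P ≠ 0 := by
    have : P.Monic := by
      unfold P
      monicity!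
    exact this.ne_zero
  refine (Polynomial.finite_setOf_isRoot hP).subset ?_
  intro x hx
  simp only [Set.mem_ofPred_eq] at hx ⊢
  rw [cc_cc] at hx
  unfold cc at hx
  simp only [P, Polynomial.IsRoot.def, Polynomial.eval_add, Polynomial.eval_mul, Polynomial.eval_pow,
    Polynomial.eval_X, Polynomial.eval_C]
  linear_combination hx

lemma s_trans : Transcendental (ZMod 2) (s ^ 2) := by
  have h : Transcendental (ZMod 2) s := RatFunc.transcendental_X
  exact h.pow (by norm_num)

theorem result :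
    ¬ (∀ (p : ℕ), p.Prime →
  ∀ (K : Type) [Field K] [Algebra (ZMod p) K] (θ : K), Transcendental (ZMod p) θ →
  ∀ (g : ℕ) (r : Fin g → ℕ) (c : Fin g → ℕ → K),
    (∀ i, 1 ≤ r i) → (∀ i, c i 0 = θ) → (∀ i, c i (r i) ≠ 0) →
  ∀ (Ψ : Module.End (ZMod p) (Fin g → K)),
    (∀ (v : Fin g → K) (i : Fin g),
      Ψ v i = ∑ j ∈ Finset.range (r i + 1), c i j * v i ^ (p ^ j)) →
  ∀ (m : ℕ) (γ : Fin m → Fin g → K) (Γ : Set (Fin g → K)),
    Γ = Set.range (fun a : Fin m → Polynomial (ZMod p) =>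
          ∑ k, (Polynomial.aeval Ψ (a k)) (γ k)) →
  ∀ (S : Set (MvPolynomial (Fin g) K)),
  ∃ (n : ℕ) (δ : Fin n → Fin g → K) (H : Fin n → AddSubgroup (Fin g → K)),
    (∀ j, δ j ∈ Γ) ∧
    (∀ j, ((H j : AddSubgroup (Fin g → K)) : Set (Fin g → K)) ⊆ Γ) ∧
    (∀ j, ∀ x ∈ H j, Ψ x ∈ H j) ∧
    {x : Fin g → K | x ∈ Γ ∧ ∀ f ∈ S, MvPolynomial.eval x f = 0} =
      ⋃ j, {y : Fin g → K | ∃ s ∈ H j, y = δ j + s}) := by
  intro h
  let cf : Fin 2 → ℕ → KK := ![fun j => if j = 0 then s ^ 2 else if j = 1 then s + s ^ 2 else 1,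
    fun j => if j = 0 then s ^ 2 else 1]
  let γ : Fin 3 → Fin 2 → KK := ![![s ^ 2, 0], ![cc (s ^ 2), 0], ![0, (s ^ 2) ^ 2]]
  let f0 : MvPolynomial (Fin 2) KK := MvPolynomial.X 1 - MvPolynomial.X 0 ^ 2
  obtain ⟨n, δ, H, -, -, hst, hU⟩ := h 2 Nat.prime_two KK (s ^ 2) s_trans 2 ![2, 1] cf
    (by intro i; fin_cases i <;> simp)
    (by intro i; fin_cases i <;> simp [cf])
    (by intro i; fin_cases i <;> simp [cf])
    Psi
    (by
      intro v i
      rw [Psi_apply]
      fin_cases i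
      · simp [cf, Finset.sum_range_succ, cc_cc]
      · simp [cf, Finset.sum_range_succ, ps])
    3 γ _ rfl {f0}
  have hV : ∀ j, ∀ t ∈ H j, δ j 1 + t 1 = (δ j 0 + t 0) ^ 2 := by
    intro j t ht
    have : δ j + t ∈ ⋃ j, {y : Fin 2 → KK | ∃ s ∈ H j, y = δ j + s} :=
      Set.mem_iUnion.2 ⟨j, t, ht, rfl⟩
    rw [← hU] at this
    have h2 := this.2 f0 rfl
    simp only [f0, map_sub, map_pow, MvPolynomial.eval_X, Pi.add_apply] at h2
    exact sub_eq_zero.1 h2
  have hV' : ∀ j, ∀ t ∈ H j, t 1 = t 0 ^ 2 := by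
    intro j t ht
    have h1 := hV j t ht
    have h0 := hV j 0 (H j).zero_mem
    rw [sq_add] at h1
    simp only [Pi.zero_apply, add_zero] at h0
    linear_combination h1 - h0
  have hfin : ∀ j, ((H j : AddSubgroup (Fin 2 → KK)) : Set (Fin 2 → KK)).Finite := by
    intro j
    refine (fin_roots.image (fun x : KK => (![x, x ^ 2] : Fin 2 → KK))).subset ?_
    intro t ht
    have h1 := hV' j t ht
    have h2 := hV' j _ (hst j t ht)
    rw [Psi_apply] at h2
    simp only [Matrix.cons_val_one, Matrix.cons_val_zero] at h2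
    rw [h1, ps_sq] at h2
    refine ⟨t 0, ?_, ?_⟩
    · simp only [Set.mem_ofPred_eq]
      have h3 : (cc (cc (t 0)) + cc (t 0)) ^ 2 = 0 := by
        rw [sq_add]; linear_combination -h2 + cc (t 0) ^ 2 * two_zero
      have h4 := pow_eq_zero_iff (two_ne_zero) |>.1 h3
      linear_combination h4 - cc (t 0) * two_zero
    · ext i; fin_cases i <;> simp [h1]
  have hUfin : (⋃ j, {y : Fin 2 → KK | ∃ s ∈ H j, y = δ j + s}).Finite := by
    refine Set.finite_iUnion fun j => ?_
    refine ((hfin j).image (fun t => δ j + t)).subset ?_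
    rintro y ⟨t, ht, rfl⟩
    exact ⟨t, ht, rfl⟩
  rw [← hU] at hUfin
  refine Set.infinite_of_injective_forall_mem
    (f := fun k : ℕ => (![cc^[k] (s ^ 2), (cc^[k] (s ^ 2)) ^ 2] : Fin 2 → KK)) ?_ ?_ hUfin
  · intro a b hab
    exact iter_inj (by simpa using congrFun hab 0)
  · intro k
    refine ⟨?_, ?_⟩
    · rcases Nat.even_or_odd' k with ⟨l, hl | hl⟩
      · refine ⟨![Polynomial.X ^ l, 0, Polynomial.X ^ k], ?_⟩
        simp only [Fin.sum_univ_three, γ, Matrix.cons_val_zero, Matrix.cons_val_one,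
          Matrix.cons_val, map_pow, Polynomial.aeval_X, map_zero, LinearMap.zero_apply, add_zero]
        rw [Psi_pow0, Psi_pow1, ← hl]
        ext i; fin_cases i <;> simp
      · refine ⟨![0, Polynomial.X ^ l, Polynomial.X ^ k], ?_⟩
        simp only [Fin.sum_univ_three, γ, Matrix.cons_val_zero, Matrix.cons_val_one,
          Matrix.cons_val, map_pow, Polynomial.aeval_X, map_zero, LinearMap.zero_apply, zero_add]
        have e : cc^[2 * l] (cc (s ^ 2)) = cc^[k] (s ^ 2) := by
          rw [hl, Function.iterate_succ_apply]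
        rw [Psi_pow0, Psi_pow1, e]
        ext i; fin_cases i <;> simp
    · intro f hf
      rw [Set.mem_singleton_iff.1 hf]
      simp [f0]

end Pool.Agent.S18540
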