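import Pool.Statements.S18608
import Pool.Agent.H.MP_d49ebf_nt.C

set_option autoImplicit false
open Necf28299
open Filter
open Pool Pool.MP_d49ebf_nt

namespace Pool.Agent.S18608

theorem result :
    ¬ (∃ A : Set ℕ, A.Infinite ∧ IsSubsetSumFree A ∧ ∀ᶠ n : ℕ in atTop, gap A n < n) := by
  rintro ⟨A, a, b, c⟩
  obtain ⟨n, c⟩ := eventually_atTop.1 c
  have h := Nat.nth_strictMono (p := (· ∈ A)) a
  obtain ⟨j, J, d, e⟩ := H.MP_d49ebf_nt.main h (C := Nat.nth (· ∈ A) n + 1) fun i => by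
    rcases le_total n (i + 1) with d | d
    · have := c _ d
      simp only [gap, Nat.add_sub_cancel] at this
      nlinarith [show Nat.nth (· ∈ A) (i + 1) ≤ Nat.nth (· ∈ A) i + (i + 1) by omega, Nat.zero_le (Nat.nth (· ∈ A) n * i)]
    nlinarith [h.monotone d, Nat.zero_le (Nat.nth (· ∈ A) n * i)]
  refine (b _ (Nat.nth_mem_of_infinite a j)).2 ⟨J.image (Nat.nth (· ∈ A)), fun y f => ?_,
    by rw [Finset.sum_image fun _ _ _ _ f => h.injective f, e]; rfl⟩
  obtain ⟨i, l, rfl⟩ := Finset.mem_image.1 (Finset.mem_coe.1 f)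
  exact ⟨Nat.nth_mem_of_infinite a i, (e ▸ Finset.single_le_sum (fun _ _ => Nat.zero_le _) l :
    _ ≤ Nat.nth (· ∈ A) j).lt_of_ne fun g => d i l (h.injective g)⟩

end Pool.Agent.S18608
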