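import Pool.Statements.S18633
import Pool.Agent.H.MP_4f8442_nt.C

set_option autoImplicit false
open Pool Pool.MP_d790dd_nt

namespace Pool.Agent.S18633

theorem result : ∀ A : Set ℕ,
    (∃ h : ℕ, ∀ F : Finset ℕ, ∃ N : ℕ, ∀ n ≥ N, ∃ s : Multiset ℕ,
        Multiset.card s ≤ h ∧ (∀ x ∈ s, x ∈ A ∧ x ∉ F) ∧ s.sum = n) →
    ∃ t : ℕ, ∃ N : ℕ, ∀ n ≥ N, ∃ s : Finset ℕ,
        s.card ≤ t ∧ (↑s : Set ℕ) ⊆ A ∧ s.sum id = n := by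
  rintro A ⟨h, a⟩
  obtain ⟨t, b⟩ := H.MP_4f8442_nt.stable A fun F => ⟨h, Filter.eventually_atTop.2 ((a F).imp fun _ c n d =>
    (c n d).imp fun _ e => ⟨e.2.1, e.1, e.2.2⟩)⟩
  exact ⟨t, (Filter.eventually_atTop.1 b).imp fun _ c n d => (c n d).imp fun _ e => ⟨e.2.1, e.1, e.2.2⟩⟩

end Pool.Agent.S18633
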