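import Pool.Statements.S18664

set_option autoImplicit false
open Pool Pool.MP_daf011_nt

namespace Pool.Agent.S18664

theorem result :
    ¬ (∃ c : ℝ, 0 < c ∧
      ∀ P : Polynomial ℤ, 0 < P.natDegree →
        (∃ z : ℂ, Polynomial.aeval z P = 0 ∧ 1 < ‖z‖) →
        ∃ z : ℂ, Polynomial.aeval z P = 0 ∧
          1 + c / (|((P.leadingCoeff : ℤ) : ℝ)| * (P.natDegree : ℝ)) < ‖z‖) := by
  rintro ⟨c, hc, h⟩
  obtain ⟨q, hq⟩ := exists_nat_gt (3 / c + 1)
  have hc3 : 0 < 3 / c := by positivity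
  have hq1 : (1 : ℝ) < q := by linarith
  have hq0 : (q : ℤ) ≠ 0 := by
    have : (0 : ℝ) < q := by linarith
    have : 0 < q := by exact_mod_cast this
    omega
  have hdeg : (Polynomial.C (q : ℤ) * Polynomial.X ^ 3 + Polynomial.C (0 : ℤ) * Polynomial.X ^ 2 +
      Polynomial.C (q : ℤ) * Polynomial.X + Polynomial.C (1 : ℤ)).natDegree = 3 :=
    Polynomial.natDegree_cubic hq0
  have hlc : (Polynomial.C (q : ℤ) * Polynomial.X ^ 3 + Polynomial.C (0 : ℤ) * Polynomial.X ^ 2 +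
      Polynomial.C (q : ℤ) * Polynomial.X + Polynomial.C (1 : ℤ)).leadingCoeff = (q : ℤ) :=
    Polynomial.leadingCoeff_cubic hq0
  have hev : ∀ z : ℂ, Polynomial.aeval z (Polynomial.C (q : ℤ) * Polynomial.X ^ 3 +
      Polynomial.C (0 : ℤ) * Polynomial.X ^ 2 +
      Polynomial.C (q : ℤ) * Polynomial.X + Polynomial.C (1 : ℤ)) = 0 ↔
      ((q : ℝ) * (z.re ^ 3 - 3 * z.re * z.im ^ 2 + z.re) + 1 = 0 ∧
        z.im * (3 * z.re ^ 2 - z.im ^ 2 + 1) = 0) := by
    intro z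
    have hq' : (q : ℝ) ≠ 0 := by linarith
    simp only [map_add, map_mul, map_pow, Polynomial.aeval_C, Polynomial.aeval_X, Complex.ext_iff]
    simp [pow_succ]
    constructor
    · rintro ⟨h1, h2⟩
      refine ⟨by linarith, ?_⟩
      have : (q : ℝ) * (z.im * (3 * (z.re * z.re) - z.im * z.im + 1)) = 0 := by linarith
      exact mul_eq_zero.1 ((mul_eq_zero.1 this).resolve_left hq')
    · rintro ⟨h1, h2⟩
      refine ⟨by linarith, ?_⟩
      have h3 := mul_eq_zero.2 h2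
      linear_combination q * h3
  have hn : ∀ z : ℂ, ‖z‖ ^ 2 = z.re ^ 2 + z.im ^ 2 := fun z => by
    rw [Complex.sq_norm, Complex.normSq_apply]; ring
  obtain ⟨z, hz, hz'⟩ := h _ (by rw [hdeg]; norm_num) (by
    have hcont : ContinuousOn (fun x : ℝ => (q : ℝ) * x * (8 * x ^ 2 + 2)) (Set.Icc 0 1) := by
      fun_prop
    obtain ⟨x, hx, hx'⟩ := intermediate_value_Ioo zero_le_one hcont
      (show (1 : ℝ) ∈ Set.Ioo _ _ from ⟨by simp, by simp; linarith⟩)
    have hs : √(3 * x ^ 2 + 1) ^ 2 = 3 * x ^ 2 + 1 := Real.sq_sqrt (by positivity)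
    refine ⟨⟨x, √(3 * x ^ 2 + 1)⟩, (hev _).2 ⟨?_, ?_⟩, ?_⟩
    · simp only [hs]
      simp only at hx'
      linarith
    · simp only [hs]; ring
    · have := hn ⟨x, √(3 * x ^ 2 + 1)⟩
      simp only [hs] at this
      have hx0 := hx.1
      by_contra hcon
      push Not at hcon
      have := norm_nonneg (⟨x, √(3 * x ^ 2 + 1)⟩ : ℂ)
      nlinarith)
  rw [hdeg, hlc] at hz'
  obtain ⟨h1, h2⟩ := (hev z).1 hz
  have habs : |((q : ℤ) : ℝ)| = q := by
    push_cast; exact abs_of_pos (by linarith)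
  rw [habs] at hz'
  push_cast at hz'
  have hq2 : (0 : ℝ) < q := by linarith
  have hd : 1 / (q : ℝ) ^ 2 < c / (q * 3) := by
    rw [div_lt_div_iff₀ (by positivity) (by positivity)]
    have : 3 / c < q := by linarith
    rw [div_lt_iff₀ hc] at this
    nlinarith
  have hp : 0 < 1 / (q : ℝ) ^ 2 := by positivity
  have hb : ‖z‖ ^ 2 ≤ 1 + 1 / (q : ℝ) ^ 2 := by
    rw [hn]
    rcases mul_eq_zero.1 h2 with h3 | h3
    · rw [h3] at h1 ⊢
      have h4 : (q : ℝ) * (z.re * (z.re ^ 2 + 1)) = -1 := by linarith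
      have h5 : z.re ^ 2 ≤ 1 := by
        by_contra hcon
        push Not at hcon
        have h6 : ((q : ℝ) * (z.re * (z.re ^ 2 + 1))) ^ 2 = 1 := by rw [h4]; norm_num
        have h7 : (1 : ℝ) < q ^ 2 := by nlinarith
        have h8 : (1 : ℝ) < (z.re ^ 2 + 1) ^ 2 := by nlinarith
        have h9 : (1 : ℝ) < z.re ^ 2 * (z.re ^ 2 + 1) ^ 2 := by nlinarith
        nlinarith
      linarith
    · have h4 : z.im ^ 2 = 3 * z.re ^ 2 + 1 := by linarith
      rw [h4] at h1 ⊢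
      have h5 : (q : ℝ) * z.re * (8 * z.re ^ 2 + 2) = 1 := by linarith
      have h6 : ((q : ℝ) * z.re) ^ 2 * (8 * z.re ^ 2 + 2) ^ 2 = 1 := by rw [← mul_pow, h5]; norm_num
      have h7 : (4 : ℝ) ≤ (8 * z.re ^ 2 + 2) ^ 2 := by nlinarith [sq_nonneg z.re]
      have h8 : ((q : ℝ) * z.re) ^ 2 * 4 ≤ 1 := by nlinarith [sq_nonneg ((q : ℝ) * z.re)]
      have h9 : 4 * z.re ^ 2 ≤ 1 / (q : ℝ) ^ 2 := by
        rw [le_div_iff₀ (by positivity)]; nlinarith
      linarith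
  nlinarith

end Pool.Agent.S18664
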