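import Pool.Statements.S18742
import Pool.Agent.H.MP_e1a649_nt.A

set_option autoImplicit false
open Classical
open Pool Pool.MP_e1a649_nt

namespace Pool.Agent.S18742

open MeasureTheory Pool.Agent.H.MP_e1a649_nt

theorem vol_unit : (volume.restrict (Set.Icc (0 : Fin 2 → ℝ) 1)).real Set.univ = 1 := by
  rw [measureReal_restrict_apply_univ, Measure.real, Real.volume_Icc_pi_toReal zero_le_one]
  simp

theorem fin_unit : IsFiniteMeasure (volume.restrict (Set.Icc (0 : Fin 2 → ℝ) 1)) :=
  isFiniteMeasure_restrict.2 isCompact_Icc.measure_lt_top.ne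

theorem low (f : (Fin 2 → ℝ) → ℝ) (hf : StronglyMeasurable f) (B L : ℝ) (a b : Fin 2 → ℝ)
    (hab : a ≤ b) (ha : 0 ≤ a) (hb : b ≤ 1)
    (h0 : ∀ x, 0 ≤ f x) (hB : ∀ x ∈ Set.Icc (0 : Fin 2 → ℝ) 1, f x ≤ B)
    (hL : ∀ x ∈ Set.Icc a b, L ≤ f x) :
    (∏ i, (b i - a i)) * L ≤ ∫ x in Set.Icc (0 : Fin 2 → ℝ) 1, f x := by
  have := fin_unit
  have hi : IntegrableOn f (Set.Icc (0 : Fin 2 → ℝ) 1) := by
    refine Integrable.of_bound hf.aestronglyMeasurable B ?_
    filter_upwards [ae_restrict_mem measurableSet_Icc] with x hx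
    rw [Real.norm_of_nonneg (h0 x)]
    exact hB x hx
  have hs : Set.Icc a b ⊆ Set.Icc (0 : Fin 2 → ℝ) 1 := Set.Icc_subset_Icc ha hb
  calc _ = ∫ _x in Set.Icc a b, L := by
        rw [setIntegral_const, Measure.real, Real.volume_Icc_pi_toReal hab, smul_eq_mul]
    _ ≤ ∫ x in Set.Icc a b, f x :=
        setIntegral_mono_on (integrableOn_const isCompact_Icc.measure_lt_top.ne)
          (hi.mono_set hs) measurableSet_Icc hL
    _ ≤ _ := setIntegral_mono_set hi (Filter.Eventually.of_forall h0) hs.eventuallyLE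

theorem meas (N : ℕ) (P : Fin N → Fin 2 → ℝ) :
    Measurable fun z : (Fin 2 → ℝ) × (Fin 2 → ℝ) =>
      |((Finset.univ.filter (fun i : Fin N => ∀ j : Fin 2,
                  if z.1 j ≤ z.2 j then (z.1 j ≤ P i j ∧ P i j < z.2 j)
                  else (P i j < z.2 j ∨ z.1 j ≤ P i j))).card : ℝ)
              - (N : ℝ) * ∏ j : Fin 2,
                (if z.1 j ≤ z.2 j then z.2 j - z.1 j else 1 - z.1 j + z.2 j)| := by
  have hle : ∀ j : Fin 2, MeasurableSet {z : (Fin 2 → ℝ) × (Fin 2 → ℝ) | z.1 j ≤ z.2 j} :=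
    fun j => measurableSet_le (by fun_prop) (by fun_prop)
  refine Measurable.abs (Measurable.sub ?_ (Measurable.const_mul ?_ _))
  · simp only [Finset.card_filter]
    push_cast
    refine Finset.measurable_sum _ fun i _ => Measurable.ite ?_ measurable_const measurable_const
    rw [measurableSet_setOfPred]
    refine Measurable.forall fun j => Measurable.ite (hle j) (Measurable.and ?_ ?_) (Measurable.or ?_ ?_)
    · exact measurableSet_setOfPred.1 (measurableSet_le (by fun_prop) (by fun_prop))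
    · exact measurableSet_setOfPred.1 (measurableSet_lt (by fun_prop) (by fun_prop))
    · exact measurableSet_setOfPred.1 (measurableSet_lt (by fun_prop) (by fun_prop))
    · exact measurableSet_setOfPred.1 (measurableSet_le (by fun_prop) (by fun_prop))
  · exact Finset.measurable_prod _ fun j _ => Measurable.ite (hle j) (by fun_prop) (by fun_prop)

theorem bnd (N : ℕ) (s : Finset (Fin N)) (x y : Fin 2 → ℝ) (hx : x ∈ Set.Icc (0 : Fin 2 → ℝ) 1)
    (hy : y ∈ Set.Icc (0 : Fin 2 → ℝ) 1) :
    |(s.card : ℝ) - (N : ℝ) * ∏ j : Fin 2, (if x j ≤ y j then y j - x j else 1 - x j + y j)| ≤ N := by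
  have h1 : (s.card : ℝ) ≤ N := by
    have := Finset.card_le_univ s
    rw [Fintype.card_fin] at this
    exact_mod_cast this
  have h2 : ∀ j : Fin 2, 0 ≤ (if x j ≤ y j then y j - x j else 1 - x j + y j) ∧
      (if x j ≤ y j then y j - x j else 1 - x j + y j) ≤ 1 := by
    intro j
    have a0 := hx.1 j
    have a1 := hx.2 j
    have b0 := hy.1 j
    have b1 := hy.2 j
    simp only [Pi.zero_apply, Pi.one_apply] at a0 a1 b0 b1
    split_ifs <;> constructor <;> linarith
  have h3 := Finset.prod_nonneg fun j (_ : j ∈ Finset.univ) => (h2 j).1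
  have h4 := Finset.prod_le_one (fun j (_ : j ∈ Finset.univ) => (h2 j).1) fun j _ => (h2 j).2
  have h5 : (0 : ℝ) ≤ N := by positivity
  have h6 : (0 : ℝ) ≤ s.card := by positivity
  rw [abs_le]
  constructor <;> nlinarith

theorem result :
    ¬ (∀ p : ℝ, 1 ≤ p → ∀ d : ℕ, 1 ≤ d → ∃ C : ℝ, 0 < C ∧
      ∀ N : ℕ, ∀ P : Fin N → Fin d → ℝ, (∀ i j, 0 ≤ P i j ∧ P i j < 1) →
        (∫ x in Set.Icc (0 : Fin d → ℝ) 1, ∫ y in Set.Icc (0 : Fin d → ℝ) 1,
            |((Finset.univ.filter (fun i : Fin N => ∀ j : Fin d,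
                  if x j ≤ y j then (x j ≤ P i j ∧ P i j < y j)
                  else (P i j < y j ∨ x j ≤ P i j))).card : ℝ)
              - (N : ℝ) * ∏ j : Fin d, (if x j ≤ y j then y j - x j else 1 - x j + y j)| ^ p)
          ^ (1 / p)
        ≤ C * (∫ t in Set.Icc (0 : Fin d → ℝ) 1,
            |((Finset.univ.filter (fun i : Fin N => ∀ j : Fin d, P i j < t j)).card : ℝ)
              - (N : ℝ) * ∏ j : Fin d, t j| ^ p) ^ (1 / p)) := by
  intro h0
  have := fin_unit
  obtain ⟨C, hC, h⟩ := h0 1 le_rfl 2 (by norm_num)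
  clear h0
  obtain ⟨m, hm⟩ := exists_nat_gt (20000 * C + 5)
  have hm4 : 4 ≤ m := by
    have : (4 : ℝ) ≤ m := by linarith
    exact_mod_cast this
  have hm0 : (0 : ℝ) < m := by linarith
  replace h := h (m * m * (m * m)) (PP (m * m) m) (PP_mem _ _)
  simp only [div_one, Real.rpow_one] at h
  have hstar : (∫ t in Set.Icc (0 : Fin 2 → ℝ) 1,
      |((Finset.univ.filter (fun i : Fin (m * m * (m * m)) =>
          ∀ j : Fin 2, PP (m * m) m i j < t j)).card : ℝ)
        - ((m * m * (m * m) : ℕ) : ℝ) * ∏ j : Fin 2, t j|) ≤ 3 * (m * m) := by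
    have hS : MeasurableSet (Set.Icc ![0, 1 - 1 / (m : ℝ)] (1 : Fin 2 → ℝ)) := measurableSet_Icc
    have i1 : Integrable (fun _ : Fin 2 → ℝ => (2 * (m * m) : ℝ))
        (volume.restrict (Set.Icc (0 : Fin 2 → ℝ) 1)) := integrable_const _
    have i2 : Integrable ((Set.Icc ![0, 1 - 1 / (m : ℝ)] (1 : Fin 2 → ℝ)).indicator
        (fun _ => (m : ℝ) * (m * m))) (volume.restrict (Set.Icc (0 : Fin 2 → ℝ) 1)) :=
      (integrable_const _).indicator hS
    refine (integral_mono_of_nonneg (Filter.Eventually.of_forall fun t => abs_nonneg _)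
      (i1.add i2) ?_).trans ?_
    · filter_upwards [ae_restrict_mem measurableSet_Icc] with t ht
      refine le_trans (le_of_eq ?_) (star_pt m hm4 t ht)
      congr 2
      exact card_PP (m * m) m (fun p => ∀ l, p l < t l) _ _
    · rw [integral_add' i1 i2, integral_const, vol_unit, integral_indicator_const _ hS]
      have e : (volume.restrict (Set.Icc (0 : Fin 2 → ℝ) 1)).real
          (Set.Icc ![0, 1 - 1 / (m : ℝ)] (1 : Fin 2 → ℝ)) ≤ 1 / m := by
        have hle : ![0, 1 - 1 / (m : ℝ)] ≤ (1 : Fin 2 → ℝ) := by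
          intro l
          fin_cases l
          · simp
          · simp
        rw [measureReal_restrict_apply hS]
        refine (measureReal_mono Set.inter_subset_left (by simp [Real.volume_Icc_pi])).trans ?_
        rw [Measure.real, Real.volume_Icc_pi_toReal hle]
        simp
      simp only [smul_eq_mul, one_mul]
      have : (1 / (m : ℝ)) * (m * (m * m)) = m * m := by field_simp
      nlinarith [mul_le_mul_of_nonneg_right e (show (0 : ℝ) ≤ m * (m * m) by positivity)]
  have hM := (meas (m * m * (m * m)) (PP (m * m) m)).stronglyMeasurable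
  have hper := low (fun x => ∫ y in Set.Icc (0 : Fin 2 → ℝ) 1,
      |((Finset.univ.filter (fun i : Fin (m * m * (m * m)) => ∀ j : Fin 2,
                  if x j ≤ y j then (x j ≤ PP (m * m) m i j ∧ PP (m * m) m i j < y j)
                  else (PP (m * m) m i j < y j ∨ x j ≤ PP (m * m) m i j))).card : ℝ)
              - ((m * m * (m * m) : ℕ) : ℝ) *
                ∏ j : Fin 2, (if x j ≤ y j then y j - x j else 1 - x j + y j)|)
    hM.integral_prod_right' ((m * m * (m * m) : ℕ) : ℝ) ((1 / 32) * ((m * m : ℝ) * (m - 5) / 4))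
    ![1 / 4, 1 / 2] ![3 / 8, 3 / 4] ?_ ?_ ?_ (fun x => integral_nonneg fun y => abs_nonneg _) ?_ ?_
  · have h1 := hper.trans (h.trans (mul_le_mul_of_nonneg_left hstar hC.le))
    simp only [Fin.prod_univ_two, Matrix.cons_val_zero, Matrix.cons_val_one] at h1
    have h2 : (0 : ℝ) < m * m := by positivity
    nlinarith
  · intro l; fin_cases l <;> norm_num
  · intro l; fin_cases l <;> norm_num
  · intro l; fin_cases l <;> norm_num
  · intro x hx
    refine (Real.le_norm_self _).trans ((norm_integral_le_of_norm_le_const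
      (C := ((m * m * (m * m) : ℕ) : ℝ)) ?_).trans ?_)
    · filter_upwards [ae_restrict_mem measurableSet_Icc] with y hy
      rw [Real.norm_eq_abs, abs_abs]
      exact bnd _ _ x y hx hy
    · rw [vol_unit, mul_one]
  · intro x hx
    have hx' : x ∈ Set.Icc (0 : Fin 2 → ℝ) 1 := by
      refine Set.Icc_subset_Icc ?_ ?_ hx
      · intro l; fin_cases l <;> norm_num
      · intro l; fin_cases l <;> norm_num
    have := low _ (hM.comp_measurable (measurable_prodMk_left (x := x)))
      ((m * m * (m * m) : ℕ) : ℝ) ((m * m : ℝ) * (m - 5) / 4) ![5 / 8, 0] ![3 / 4, 1 / 4]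
      ?_ ?_ ?_ (fun y => abs_nonneg _) (fun y hy => bnd _ _ x y hx' hy) ?_
    · refine le_trans (le_of_eq ?_) this
      simp only [Fin.prod_univ_two, Matrix.cons_val_zero, Matrix.cons_val_one]
      norm_num
    · intro l; fin_cases l <;> norm_num
    · intro l; fin_cases l <;> norm_num
    · intro l; fin_cases l <;> norm_num
    · intro y hy
      refine le_trans (per_pt m hm4 x y hx hy) (le_of_eq ?_)
      simp only [Function.comp]
      congr 2
      exact (card_PP (m * m) m (fun p => ∀ l, if x l ≤ y l then (x l ≤ p l ∧ p l < y l)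
        else (p l < y l ∨ x l ≤ p l)) _ _).symm

end Pool.Agent.S18742
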