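import Pool.Statements.S18848
import Pool.Agent.H.MP_ea4027_nt.Main

set_option autoImplicit false
open Pool Pool.MP_ea4027_nt

namespace Pool.Agent.S18848

theorem result :
    ¬ (∃ δ : ℝ,
      Filter.Tendsto
        (fun N : ℕ =>
          (({n : ℕ | 1 ≤ n ∧ ∀ p : ℕ, ∀ e ∈ Nat.digits 3 (n.factorization p), e ≤ 1}
              ∩ Set.Icc 1 N).ncard : ℝ) / (N : ℝ))
        Filter.atTop (nhds δ) ∧
      ∀ (A : Set ℕ) (d : ℝ),
        (∀ n ∈ A, 1 ≤ n) →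
        (∀ a ∈ A, ∀ b ∈ A, ∀ c ∈ A, a < b → b < c → b ^ 2 ≠ a * c) →
        Filter.Tendsto (fun N : ℕ => ((A ∩ Set.Icc 1 N).ncard : ℝ) / (N : ℝ))
          Filter.atTop (nhds d) →
        d ≤ δ) := by
  rintro ⟨δ, h1, h2⟩
  obtain ⟨A, d, a1, a2, a3, a4⟩ := Pool.Agent.H.MP_ea4027_nt.main (δ := δ) h1
  exact absurd (h2 A d a1 a2 a3) (not_le.2 a4)

end Pool.Agent.S18848
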