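import Pool.Statements.S18883
import Pool.Agent.H.MP_ed6e5c_nt.C

set_option autoImplicit false
open Pool Pool.MP_ed6e5c_nt

namespace Pool.Agent.S18883

theorem result :
  ∀ d : ℕ → ℕ, (∀ n, 2 ≤ d n) → (∃ M : ℕ, ∀ n, d n ≤ M) →
  ∀ i j k : Fin 2 → ℝ,
    (∀ t, 0 ≤ i t ∧ i t ≤ 1 ∧ 0 ≤ j t ∧ j t ≤ 1 ∧ 0 ≤ k t ∧ k t ≤ 1 ∧
      i t + j t + k t = 1) →
    ∃ x y : ℝ, ∀ t : Fin 2, ∃ c : ℝ, 0 < c ∧ ∀ q : ℕ, 0 < q →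
      ((q : ℝ) * (if i t = 0 then 0 else
          (sInf ((fun n : ℕ => (1 : ℝ) / ((∏ m ∈ Finset.range n, d m : ℕ) : ℝ)) ''
            {n : ℕ | (∏ m ∈ Finset.range n, d m) ∣ q})) ^ (1 / i t)) > c ∨
       (q : ℝ) * (if j t = 0 then 0 else
          |(q : ℝ) * x - (round ((q : ℝ) * x) : ℝ)| ^ (1 / j t)) > c ∨
       (q : ℝ) * (if k t = 0 then 0 else
          |(q : ℝ) * y - (round ((q : ℝ) * y) : ℝ)| ^ (1 / k t)) > c) := by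
  rintro d hd ⟨M, hM⟩ i j k hw
  exact Pool.Agent.H.MP_ed6e5c_nt.main d hd M hM i j k hw

end Pool.Agent.S18883
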