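import Pool.Statements.S18928
import Pool.Agent.H.MP_f15a68_nt.B

set_option autoImplicit false
open Pool Pool.MP_f15a68_nt

namespace Pool.Agent.S18928

/-- The negation of the preceding statement: For every prime p and n ≥ 1, the infimum of c such that infinitely many algebraic integers of degree n over the totally p-adic field have Weil height below c equals log p divided by (p−1)n. -/
theorem result :
    ¬ (∀ (p : ℕ) [Fact p.Prime] (n : ℕ), 1 ≤ n →
      sInf {c : ℝ | Set.Infinite {α : AlgebraicClosure ℚ | IsIntegral ℤ α ∧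
        (minpoly (IntermediateField.adjoin ℚ {x : AlgebraicClosure ℚ |
            ((minpoly ℚ x).map (algebraMap ℚ ℚ_[p])).roots.card = (minpoly ℚ x).natDegree}) α).natDegree = n ∧
        Real.log (((minpoly ℚ α).map (algebraMap ℚ ℂ)).mahlerMeasure) / ((minpoly ℚ α).natDegree : ℝ) < c}}
      = 1 / ((p : ℝ) - 1) * (Real.log p / (n : ℝ))) := by
  intro h
  have h1 := @h 5 ⟨by norm_num⟩ 1 le_rfl
  have hl : 0 < Real.log 5 := Real.log_pos (by norm_num)
  have key : ∀ C : Set ℝ, 9 / 40 * Real.log 5 ∈ C →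
      sInf C ≠ 1 / (((5 : ℕ) : ℝ) - 1) * (Real.log (5 : ℕ) / ((1 : ℕ) : ℝ)) := by
    intro C hC
    push_cast
    by_cases hb : BddBelow C
    · have := csInf_le hb hC
      intro h2
      rw [h2] at this
      linarith
    · rw [Real.sInf_of_not_bddBelow hb]
      positivity
  refine key _ ?_ h1
  refine Pool.Agent.H.MP_f15a68_nt.main'.mono fun x hx => ⟨hx.1, ?_, ?_⟩
  · exact minpoly.natDegree_eq_one_iff.2 ⟨⟨x, IntermediateField.subset_adjoin ℚ _ hx.2.1⟩, rfl⟩
  · exact lt_of_le_of_lt hx.2.2 (by linarith)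

end Pool.Agent.S18928
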