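import Pool.Statements.S18994
import Pool.Agent.H.MP_f5ee21_nt.Main

set_option autoImplicit false
open Filter Topology
open Pool Pool.MP_f5ee21_nt

namespace Pool.Agent.S18994

theorem result :
    ¬ (∀ A : Finset ℕ, (∀ a ∈ A, 1 ≤ a) → 2 ≤ A.card →
      ((1 / 2 : ENNReal) < dimH {x : ℝ | ∃ a : ℕ → ℕ, (∀ j, a j ∈ A) ∧
          Tendsto (fun n : ℕ =>
            ((List.map (fun j : ℕ => (!![(a j : ℝ), 1; 1, 0] : Matrix (Fin 2) (Fin 2) ℝ))
                (List.range (n + 1))).prod 0 0) /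
            ((List.map (fun j : ℕ => (!![(a j : ℝ), 1; 1, 0] : Matrix (Fin 2) (Fin 2) ℝ))
                (List.range (n + 1))).prod 1 0)) atTop (𝓝 x)}) →
      ∃ N : ℤ, ∀ t : ℤ, N ≤ t →
        (∀ q : ℤ, 1 ≤ q → ∃ l : List ℕ, l ≠ [] ∧ Even l.length ∧ (∀ b ∈ l, b ∈ A) ∧
          Matrix.trace ((List.map (fun b : ℕ => (!![(b : ℤ), 1; 1, 0] : Matrix (Fin 2) (Fin 2) ℤ)) l).prod)
            ≡ t [ZMOD q]) →
        ∃ l : List ℕ, l ≠ [] ∧ Even l.length ∧ (∀ b ∈ l, b ∈ A) ∧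
          Matrix.trace ((List.map (fun b : ℕ => (!![(b : ℤ), 1; 1, 0] : Matrix (Fin 2) (Fin 2) ℤ)) l).prod) = t) := by
  intro h
  obtain ⟨K, hK, hsum⟩ := Pool.Agent.Lib.helper12.exists_alphabet 1 (by norm_num)
  have hmem : ∀ a ∈ (Finset.range K).image (fun k => 1 + 8 * k), a % 8 = 1 := by
    intro a ha
    obtain ⟨k, _, rfl⟩ := Finset.mem_image.1 ha
    omega
  have h1 : ∀ a ∈ (Finset.range K).image (fun k => 1 + 8 * k), 1 ≤ a := by
    intro a ha
    have := hmem a ha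
    omega
  have hcard : 2 ≤ ((Finset.range K).image (fun k => 1 + 8 * k)).card := by
    rw [Finset.card_image_of_injective _ (by intro a b h; simp only at h; omega)]
    simpa using hK
  obtain ⟨N, hN⟩ := h _ h1 hcard (Pool.Agent.H.MP_f5ee21_nt.dim _ h1 (by
    intro a ha b hb hab
    have := hmem a ha
    have := hmem b hb
    omega) hsum)
  have h25 := Pool.Agent.H.MP_f5ee21_nt.pow25 (N.toNat + 1)
  have hbig : N ≤ ((5 : ℤ) ^ (N.toNat + 1)) ^ 2 - 2 := by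
    have h2 : N.toNat + 1 < 5 ^ (N.toNat + 1) := Nat.lt_pow_self (by norm_num)
    have h3 : ((N.toNat + 1 : ℕ) : ℤ) < 5 ^ (N.toNat + 1) := by exact_mod_cast h2
    have h4 : N ≤ N.toNat := Int.self_le_toNat N
    push_cast at h3
    have h5 : (0 : ℤ) ≤ N.toNat := by positivity
    nlinarith
  obtain ⟨l, _, hl2, hl3, hl4⟩ := hN _ hbig (by
    intro q hq
    obtain ⟨l, h2, h3, h4, h5⟩ := Pool.Agent.H.MP_f5ee21_nt.admissible
      (((5 : ℤ) ^ (N.toNat + 1)) ^ 2 - 2) q (by omega) hq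
    refine ⟨l, h2, h3, ?_, h5⟩
    intro a ha
    rcases h4 a ha with h | h
    · exact Finset.mem_image.2 ⟨0, by simp; omega, by simp [h]⟩
    · exact Finset.mem_image.2 ⟨1, by simp; omega, by simp [h]⟩)
  exact Pool.Agent.H.MP_f5ee21_nt.not_trace l (fun a ha => hmem a (hl3 a ha)) hl2 _ (by omega) hl4

end Pool.Agent.S18994
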