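import Pool.Statements.S19070
import Pool.Agent.H.MP_fcb754_nt.Main

set_option autoImplicit false
open Pool Pool.MP_fcb754_nt

namespace Pool.Agent.S19070

theorem result :
    ¬ (∀ (r : ℕ), 1 ≤ r → ∀ (a : ℝ), 0 < a → ∀ (w : Fin r → ℝ), (∀ j, 0 < w j) →
      ∀ F : ℂ → ℂ,
        DifferentiableOn ℂ F {s : ℂ | ∀ k : ℕ, 1 ≤ k → k ≤ r → s ≠ (k : ℂ)} →
        (∀ s : ℂ, (r : ℝ) < s.re →
          F s = ∑' m : Fin r → ℕ, (((a + ∑ j, (m j : ℝ) * w j : ℝ) : ℂ) ^ (-s))) →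
        ∀ ε : ℝ, 0 < ε → ∀ σ₁ : ℝ, ∃ C : ℝ, ∀ σ t : ℝ,
          (r : ℝ) - (Module.finrank ℚ (Submodule.span ℚ (Set.range w)) : ℝ) / 2 ≤ σ →
          σ ≤ σ₁ → 1 ≤ t →
          ‖F ((σ : ℂ) + (t : ℂ) * Complex.I)‖ ≤ C * t ^ ε) := by
  intro H
  obtain ⟨θ, F, h1, hL, hF1, hF2, hψc, hmain⟩ := Pool.Agent.H.MP_fcb754_nt.main
  have hw : ∀ j, 0 < Pool.Agent.H.MP_fcb754_nt.ww θ j := by
    intro j
    have : 0 < θ := by linarith
    fin_cases j <;> simp [Pool.Agent.H.MP_fcb754_nt.ww] <;> positivity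
  obtain ⟨C, hC⟩ := H 3 (by norm_num) 1 one_pos (Pool.Agent.H.MP_fcb754_nt.ww θ) hw F
    (hF1.mono fun s hs => ⟨by simpa using hs 1 (by norm_num) (by norm_num),
      by simpa using hs 2 (by norm_num) (by norm_num),
      by simpa using hs 3 (by norm_num) (by norm_num)⟩)
    (fun s hs => hF2 s (by exact_mod_cast hs)) (1 / 2) (by norm_num) (3 / 2)
  rw [Pool.Agent.H.MP_fcb754_nt.finrank_ww θ hL] at hC
  refine hmain |C| 1 fun T hT => ?_
  have hb : ∀ t ∈ Set.Icc (1 : ℝ) T, ‖F ((3 / 2 : ℝ) + t * Complex.I)‖ ≤ |C| * T ^ (1 / 2 : ℝ) := by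
    intro t ht
    refine (hC (3 / 2) t (by norm_num) le_rfl ht.1).trans ?_
    have h0 : 0 ≤ t := by linarith [ht.1]
    exact mul_le_mul (le_abs_self C) (Real.rpow_le_rpow h0 ht.2 (by norm_num))
      (by positivity) (abs_nonneg C)
  have h2 := intervalIntegral.integral_mono_on (μ := MeasureTheory.volume) hT
    (hψc.norm.intervalIntegrable 1 T) (continuous_const.intervalIntegrable 1 T) hb
  rw [intervalIntegral.integral_const, smul_eq_mul] at h2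
  have h3 : T ^ (3 / 2 : ℝ) = T * T ^ (1 / 2 : ℝ) := by
    rw [show (3 / 2 : ℝ) = 1 + 1 / 2 by norm_num, Real.rpow_add (by linarith), Real.rpow_one]
  have h4 : 0 ≤ |C| * T ^ (1 / 2 : ℝ) := by positivity
  rw [h3]
  nlinarith

end Pool.Agent.S19070
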