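import Pool.Statements.S19120

set_option autoImplicit false
open Pool Pool.MP_056b6b_pr

namespace Pool.Agent.S19120

def rot (s : Fin 5) : ℕ → Fin 5
  | 0 => s
  | (v + 1) => rot s v + 1

def idx : Fin 5 → Fin 4 := ![0, 0, 1, 2, 3]

def cnt (s : Fin 5) (j : Fin 4) : ℕ → ℕ
  | 0 => 0
  | (v + 1) => cnt s j v + if idx (rot s v + 1) = j then 1 else 0

lemma rot_add (s : Fin 5) (v u : ℕ) : rot s (v + u) = rot (rot s v) u := by
  induction u with
  | zero => rfl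
  | succ u ih => show rot s (v + u) + 1 = rot (rot s v) u + 1; rw [ih]

lemma cnt_add (s : Fin 5) (j : Fin 4) (v u : ℕ) : cnt s j (v + u) = cnt s j v + cnt (rot s v) j u := by
  induction u with
  | zero => rfl
  | succ u ih =>
    show cnt s j (v + u) + (if idx (rot s (v + u) + 1) = j then 1 else 0) =
      cnt s j v + (cnt (rot s v) j u + if idx (rot (rot s v) u + 1) = j then 1 else 0)
    rw [ih, rot_add, add_assoc]

lemma cnt_mono (s : Fin 5) (j : Fin 4) (v u : ℕ) (h : v ≤ u) : cnt s j v ≤ cnt s j u := by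
  obtain ⟨k, rfl⟩ := Nat.exists_eq_add_of_le h
  rw [cnt_add]; omega

lemma cnt5 : ∀ s : Fin 5, cnt s 0 5 = 2 ∧ cnt s 1 5 = 1 ∧ cnt s 2 5 = 1 ∧ cnt s 3 5 = 1 := by decide

def stp (s : (ℤ × ℤ) × (ℤ × ℤ → Fin 5)) : (ℤ × ℤ) × (ℤ × ℤ → Fin 5) :=
  (s.1 + (![(0, 1), (0, 1), (1, 0), (0, -1), (-1, 0)] : Fin 5 → ℤ × ℤ) (s.2 s.1 + 1),
    Function.update s.2 s.1 (s.2 s.1 + 1))

def W (r : ℤ × ℤ → Fin 5) (t : ℕ) : (ℤ × ℤ) × (ℤ × ℤ → Fin 5) := stp^[t] ((0, 0), r)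

lemma W_succ (r : ℤ × ℤ → Fin 5) (t : ℕ) : W r (t + 1) = stp (W r t) :=
  Function.iterate_succ_apply' _ _ _

def vis (r : ℤ × ℤ → Fin 5) : ℕ → ℤ × ℤ → ℕ
  | 0, _ => 0
  | (t + 1), z => vis r t z + if (W r t).1 = z then 1 else 0

lemma I1 (r : ℤ × ℤ → Fin 5) (t : ℕ) : ∀ z, (W r t).2 z = rot (r z) (vis r t z) := by
  induction t with
  | zero => intro z; rfl
  | succ t ih =>
    intro z
    rw [W_succ]
    simp only [stp, vis]
    by_cases h : (W r t).1 = z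
    · rw [if_pos h, ← h, Function.update_self, ih]; rfl
    · rw [if_neg h, Function.update_of_ne (Ne.symm h), ih]; rfl

def inn (r : ℤ × ℤ → Fin 5) (U : ℤ × ℤ → ℕ) (x y : ℤ) : ℕ :=
  cnt (r (x, y - 1)) 0 (U (x, y - 1)) + cnt (r (x - 1, y)) 1 (U (x - 1, y)) +
    cnt (r (x, y + 1)) 2 (U (x, y + 1)) + cnt (r (x + 1, y)) 3 (U (x + 1, y))

lemma cnt_vis (r : ℤ × ℤ → Fin 5) (t : ℕ) (z : ℤ × ℤ) (j : Fin 4) :
    cnt (r z) j (vis r (t + 1) z) = cnt (r z) j (vis r t z) +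
      if (W r t).1 = z ∧ idx ((W r t).2 (W r t).1 + 1) = j then 1 else 0 := by
  simp only [vis]
  by_cases h : (W r t).1 = z
  · rw [if_pos h, I1, h]
    simp [cnt]
  · simp [h]

lemma I2 (r : ℤ × ℤ → Fin 5) (t : ℕ) (x y : ℤ) :
    vis r (t + 1) (x, y) = (if x = 0 ∧ y = 0 then 1 else 0) + inn r (vis r t) x y := by
  induction t with
  | zero =>
    simp only [vis, inn, cnt, W, Function.iterate_zero, id, Prod.mk.injEq, zero_add, add_zero]
    simp only [eq_comm]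
  | succ t ih =>
    have e : vis r (t + 1 + 1) (x, y) = vis r (t + 1) (x, y) +
      if (W r (t + 1)).1 = (x, y) then 1 else 0 := rfl
    rw [e, ih]
    unfold inn
    simp only [cnt_vis, W_succ, stp]
    generalize (W r t).2 (W r t).1 + 1 = q
    obtain ⟨p1, p2⟩ := (W r t).1
    fin_cases q <;> simp [idx] <;> split_ifs <;> omega

lemma lap (r : ℤ × ℤ → Fin 5) (U : ℤ × ℤ → ℕ) (F : Finset (ℤ × ℤ)) (hF : ∀ z, U z ≠ 0 → z ∈ F)
    (hb : ∀ x y, inn r U x y ≤ U (x, y)) (h0 : ∀ t, vis r t (0, 0) ≤ U (0, 0)) : False := by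
  have h1 : ∀ t z, vis r t z ≤ U z := by
    intro t
    induction t with
    | zero => intro z; exact Nat.zero_le _
    | succ t ih =>
      rintro ⟨x, y⟩
      by_cases h : x = 0 ∧ y = 0
      · rw [h.1, h.2]; exact h0 _
      · rw [I2, if_neg h, zero_add]
        refine le_trans ?_ (hb x y)
        unfold inn
        have a1 := cnt_mono (r (x, y - 1)) 0 _ _ (ih (x, y - 1))
        have a2 := cnt_mono (r (x - 1, y)) 1 _ _ (ih (x - 1, y))
        have a3 := cnt_mono (r (x, y + 1)) 2 _ _ (ih (x, y + 1))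
        have a4 := cnt_mono (r (x + 1, y)) 3 _ _ (ih (x + 1, y))
        omega
  have h2 : ∀ t, ∑ z ∈ F, vis r t z = t := by
    intro t
    induction t with
    | zero => simp [vis]
    | succ t ih =>
      have hm : (W r t).1 ∈ F := by
        apply hF
        have := h1 (t + 1) (W r t).1
        simp only [vis, if_true] at this
        omega
      simp only [vis, Finset.sum_add_distrib, ih, Finset.sum_ite_eq, hm, if_true]
  have h3 := h2 (∑ z ∈ F, U z + 1)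
  have h4 : ∑ z ∈ F, vis r (∑ z ∈ F, U z + 1) z ≤ ∑ z ∈ F, U z :=
    Finset.sum_le_sum fun z _ => h1 _ z
  omega

structure Box where
  a : ℤ
  b : ℤ
  c : ℤ
  d : ℤ

def Box.mem (B : Box) (x y : ℤ) : Prop := B.a ≤ x ∧ x ≤ B.b ∧ B.c ≤ y ∧ y ≤ B.d

instance (B : Box) (x y : ℤ) : Decidable (B.mem x y) := by unfold Box.mem; infer_instance

def Box.next (B : Box) : Box :=
  ⟨B.a - 1, B.b + (B.b - B.a + 1) + 1, B.c - (B.b - B.a + 1) - 1, B.d + (B.b - B.a + 1)⟩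

def eN (B : Box) (x y : ℤ) : ℕ :=
  if y = B.c - 1 ∧ B.a ≤ x ∧ x ≤ B.b then 2
  else if (B.a < x ∧ x ≤ B.b ∧ B.d + 1 ≤ y ∧ y < B.d + 2 + B.b - x) ∨
    (B.a ≤ x ∧ x ≤ B.b ∧ B.c - 2 - (B.b - x) ≤ y ∧ y < B.c - 1) then 1 else 0
def eE (B : Box) (x y : ℤ) : ℕ :=
  if (x = B.a - 1 ∧ B.c ≤ y ∧ y ≤ B.d) ∨ (y = B.d + 1 ∧ B.a ≤ x ∧ x ≤ B.b) ∨
    (B.d + 1 ≤ y ∧ y ≤ B.d + (B.b - B.a + 1) ∧ B.b + 1 - (y - B.d - 1) ≤ x ∧
      x < B.b + 2 + (y - B.d - 1)) then 1 else 0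
def eS (B : Box) (x y : ℤ) : ℕ :=
  if (y = B.d + 1 ∧ B.a ≤ x ∧ x ≤ B.b) ∨
    (B.b + 2 ≤ x ∧ x ≤ B.b + 1 + (B.b - B.a + 1) ∧ B.c - 2 - (x - B.b - 2) < y ∧
      y ≤ B.d + 1 + (x - B.b - 2)) then 1 else 0
def eW (B : Box) (x y : ℤ) : ℕ :=
  if (x = B.b + 1 ∧ B.c ≤ y ∧ y ≤ B.d) ∨
    (B.c - 1 - (B.b - B.a + 1) ≤ y ∧ y ≤ B.c - 2 ∧ B.b - (B.c - 2 - y) < x ∧
      x ≤ B.b + 2 + (B.c - 2 - y)) then 1 else 0
def ind (B : Box) (x y : ℤ) : ℕ := if B.mem x y then 1 else 0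

lemma ite_spec (p : Prop) [Decidable p] (a b : ℕ) :
    (p ∧ (if p then a else b) = a) ∨ (¬ p ∧ (if p then a else b) = b) := by
  by_cases h : p <;> simp [h]

def P1 (B : Box) (x y : ℤ) : ℕ := if B.a ≤ x ∧ x ≤ B.b ∧ y = B.c - 2 - (B.b - x) then 1 else 0
def P2 (B : Box) (x y : ℤ) : ℕ := if B.a ≤ x ∧ x ≤ B.b ∧ y = B.c - 1 then 1 else 0
def P3 (B : Box) (x y : ℤ) : ℕ := if B.a ≤ x ∧ x ≤ B.b ∧ y = B.d + 1 then 1 else 0
def P9 (B : Box) (x y : ℤ) : ℕ := if x = B.a ∧ y = B.d + 1 then 1 else 0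
def P4 (B : Box) (x y : ℤ) : ℕ := if B.a < x ∧ x ≤ B.b ∧ y = B.d + 2 + B.b - x then 1 else 0
def P5 (B : Box) (x y : ℤ) : ℕ :=
  if B.b + 2 ≤ x ∧ x ≤ B.b + 1 + (B.b - B.a + 1) ∧ y = B.c - 2 - (x - B.b - 2) then 1 else 0
def P6 (B : Box) (x y : ℤ) : ℕ :=
  if B.b + 2 ≤ x ∧ x ≤ B.b + 1 + (B.b - B.a + 1) ∧ y = B.d + 1 + (x - B.b - 2) then 1 else 0
def P7 (B : Box) (x y : ℤ) : ℕ := if x = B.a - 1 ∧ B.c ≤ y ∧ y ≤ B.d then 1 else 0
def P8 (B : Box) (x y : ℤ) : ℕ := if x = B.b + 1 ∧ B.c ≤ y ∧ y ≤ B.d then 1 else 0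

lemma LN (B : Box) (h1 : B.a ≤ B.b) (h2 : B.c ≤ B.d) (x y : ℤ) :
    2 * ind B x (y - 1) + eN B x (y - 1) + P1 B x y + P2 B x y =
      2 * ind B x y + eN B x y + P3 B x y + P9 B x y + P4 B x y := by
  obtain ⟨a, b, c, d⟩ := B
  simp only [ind, eN, P1, P2, P3, P9, P4, Box.mem] at *
  split_ifs <;> omega

lemma LS (B : Box) (h1 : B.a ≤ B.b) (h2 : B.c ≤ B.d) (x y : ℤ) :
    ind B x (y + 1) + eS B x (y + 1) + P3 B x y + P6 B x y =
      ind B x y + eS B x y + P2 B x y + P5 B x y := by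
  obtain ⟨a, b, c, d⟩ := B
  simp only [ind, eS, P2, P3, P5, P6, Box.mem] at *
  split_ifs <;> omega

lemma LE (B : Box) (h1 : B.a ≤ B.b) (h2 : B.c ≤ B.d) (x y : ℤ) :
    ind B (x - 1) y + eE B (x - 1) y + P7 B x y + P9 B x y + P4 B x y =
      ind B x y + eE B x y + P8 B x y + P6 B x y := by
  obtain ⟨a, b, c, d⟩ := B
  simp only [ind, eE, P7, P9, P4, P8, P6, Box.mem] at *
  split_ifs <;> omega

lemma LW (B : Box) (h1 : B.a ≤ B.b) (h2 : B.c ≤ B.d) (x y : ℤ) :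
    ind B (x + 1) y + eW B (x + 1) y + P8 B x y + P5 B x y =
      ind B x y + eW B x y + P7 B x y + P1 B x y := by
  obtain ⟨a, b, c, d⟩ := B
  simp only [ind, eW, P8, P5, P7, P1, Box.mem] at *
  split_ifs <;> omega

lemma balA (B : Box) (h1 : B.a ≤ B.b) (h2 : B.c ≤ B.d) (x y : ℤ) :
    (2 * ind B x (y - 1) + eN B x (y - 1)) + (ind B (x - 1) y + eE B (x - 1) y) +
      (ind B x (y + 1) + eS B x (y + 1)) + (ind B (x + 1) y + eW B (x + 1) y) =
    (2 * ind B x y + eN B x y) + (ind B x y + eE B x y) + (ind B x y + eS B x y) +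
      (ind B x y + eW B x y) := by
  have := LN B h1 h2 x y
  have := LS B h1 h2 x y
  have := LE B h1 h2 x y
  have := LW B h1 h2 x y
  omega

lemma supp (B : Box) (h1 : B.a ≤ B.b) (h2 : B.c ≤ B.d) (x y : ℤ)
    (h : B.mem x y ∨ ¬ B.next.mem x y) :
    eN B x y = 0 ∧ eE B x y = 0 ∧ eS B x y = 0 ∧ eW B x y = 0 := by
  obtain ⟨a, b, c, d⟩ := B
  simp only [eN, eE, eS, eW, Box.mem, Box.next] at *
  refine ⟨?_, ?_, ?_, ?_⟩ <;> split_ifs <;> omega

lemma arc (B : Box) (h1 : B.a ≤ B.b) (h2 : B.c ≤ B.d) (x y : ℤ) :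
    ∃ s : Fin 5, cnt s 0 (eN B x y + eE B x y + eS B x y + eW B x y) = eN B x y ∧
      cnt s 1 (eN B x y + eE B x y + eS B x y + eW B x y) = eE B x y ∧
      cnt s 2 (eN B x y + eE B x y + eS B x y + eW B x y) = eS B x y ∧
      cnt s 3 (eN B x y + eE B x y + eS B x y + eW B x y) = eW B x y := by
  obtain ⟨a, b, c, d⟩ := B
  simp only [eN, eE, eS, eW] at *
  split_ifs <;> first | decide | (exfalso; omega)

def box : ℕ → Box
  | 0 => ⟨0, 0, 0, 0⟩
  | (k + 1) => (box k).next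

lemma box_ok (k : ℕ) : (box k).a ≤ (box k).b ∧ (box k).c ≤ (box k).d := by
  induction k with
  | zero => simp [box]
  | succ k ih => simp only [box, Box.next]; omega

lemma box_mono (x y : ℤ) (k m : ℕ) (h : k ≤ m) (hk : (box k).mem x y) : (box m).mem x y := by
  induction h with
  | refl => exact hk
  | step _ ih =>
    rename_i m _
    have := box_ok m
    simp only [box, Box.next, Box.mem] at ih ⊢
    omega

lemma ex_rho (z : ℤ × ℤ) : ∃ s : Fin 5, ∀ k, 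
    cnt s 0 (eN (box k) z.1 z.2 + eE (box k) z.1 z.2 + eS (box k) z.1 z.2 + eW (box k) z.1 z.2) =
        eN (box k) z.1 z.2 ∧
      cnt s 1 (eN (box k) z.1 z.2 + eE (box k) z.1 z.2 + eS (box k) z.1 z.2 + eW (box k) z.1 z.2) =
        eE (box k) z.1 z.2 ∧
      cnt s 2 (eN (box k) z.1 z.2 + eE (box k) z.1 z.2 + eS (box k) z.1 z.2 + eW (box k) z.1 z.2) =
        eS (box k) z.1 z.2 ∧
      cnt s 3 (eN (box k) z.1 z.2 + eE (box k) z.1 z.2 + eS (box k) z.1 z.2 + eW (box k) z.1 z.2) =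
        eW (box k) z.1 z.2 := by
  by_cases h : ∃ m, ¬ (box m).mem z.1 z.2 ∧ (box (m + 1)).mem z.1 z.2
  · obtain ⟨m, h1, h2⟩ := h
    obtain ⟨s, hs⟩ := arc (box m) (box_ok m).1 (box_ok m).2 z.1 z.2
    refine ⟨s, fun k => ?_⟩
    rcases lt_trichotomy k m with hk | rfl | hk
    · obtain ⟨e1, e2, e3, e4⟩ := supp (box k) (box_ok k).1 (box_ok k).2 z.1 z.2
        (Or.inr fun h => h1 (box_mono _ _ (k + 1) m hk h))
      simp [e1, e2, e3, e4, cnt]
    · exact hs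
    · obtain ⟨e1, e2, e3, e4⟩ := supp (box k) (box_ok k).1 (box_ok k).2 z.1 z.2
        (Or.inl (box_mono _ _ (m + 1) k hk h2))
      simp [e1, e2, e3, e4, cnt]
  · refine ⟨0, fun k => ?_⟩
    obtain ⟨e1, e2, e3, e4⟩ := supp (box k) (box_ok k).1 (box_ok k).2 z.1 z.2 (by
      by_contra h'
      push Not at h'
      exact h ⟨k, h'.1, h'.2⟩)
    simp [e1, e2, e3, e4, cnt]

noncomputable def rho (z : ℤ × ℤ) : Fin 5 := (ex_rho z).choose

def E0 (x y : ℤ) : ℕ → ℕ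
  | 0 => 0
  | (k + 1) => E0 x y k + (2 * ind (box k) x y + eN (box k) x y)
def E1 (x y : ℤ) : ℕ → ℕ
  | 0 => 0
  | (k + 1) => E1 x y k + (ind (box k) x y + eE (box k) x y)
def E2 (x y : ℤ) : ℕ → ℕ
  | 0 => 0
  | (k + 1) => E2 x y k + (ind (box k) x y + eS (box k) x y)
def E3 (x y : ℤ) : ℕ → ℕ
  | 0 => 0
  | (k + 1) => E3 x y k + (ind (box k) x y + eW (box k) x y)

def U (M : ℕ) (z : ℤ × ℤ) : ℕ := E0 z.1 z.2 M + E1 z.1 z.2 M + E2 z.1 z.2 M + E3 z.1 z.2 M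

lemma E_zero (x y : ℤ) (M : ℕ) (h : ¬ (box M).mem x y) :
    E0 x y M = 0 ∧ E1 x y M = 0 ∧ E2 x y M = 0 ∧ E3 x y M = 0 := by
  induction M with
  | zero => simp [E0, E1, E2, E3]
  | succ M ih =>
    have h' : ¬ (box M).mem x y := fun h' => h (box_mono _ _ M (M + 1) (by omega) h')
    obtain ⟨e1, e2, e3, e4⟩ := supp (box M) (box_ok M).1 (box_ok M).2 x y (Or.inr h)
    obtain ⟨f1, f2, f3, f4⟩ := ih h'
    simp [E0, E1, E2, E3, ind, *]

lemma E_cnt (x y : ℤ) (M : ℕ) :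
    cnt (rho (x, y)) 0 (U M (x, y)) = E0 x y M ∧ cnt (rho (x, y)) 1 (U M (x, y)) = E1 x y M ∧
      cnt (rho (x, y)) 2 (U M (x, y)) = E2 x y M ∧ cnt (rho (x, y)) 3 (U M (x, y)) = E3 x y M := by
  induction M with
  | zero => simp [U, E0, E1, E2, E3, cnt]
  | succ M ih =>
    by_cases h : (box M).mem x y
    · obtain ⟨e1, e2, e3, e4⟩ := supp (box M) (box_ok M).1 (box_ok M).2 x y (Or.inl h)
      have e : U (M + 1) (x, y) = U M (x, y) + 5 := by
        simp only [U, E0, E1, E2, E3, ind, if_pos h, e1, e2, e3, e4]; omega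
      have c5 := cnt5 (rot (rho (x, y)) (U M (x, y)))
      rw [e]
      simp only [cnt_add, E0, E1, E2, E3, ind, if_pos h, e1, e2, e3, e4]
      omega
    · obtain ⟨f1, f2, f3, f4⟩ := E_zero x y M h
      have hs := (ex_rho (x, y)).choose_spec M
      have e : U (M + 1) (x, y) =
          eN (box M) x y + eE (box M) x y + eS (box M) x y + eW (box M) x y := by
        simp only [U, E0, E1, E2, E3, ind, if_neg h, f1, f2, f3, f4]; omega
      rw [e]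
      simp only [E0, E1, E2, E3, ind, if_neg h, f1, f2, f3, f4, mul_zero, zero_add]
      exact hs

lemma E_bal (x y : ℤ) (M : ℕ) :
    E0 x (y - 1) M + E1 (x - 1) y M + E2 x (y + 1) M + E3 (x + 1) y M = U M (x, y) := by
  induction M with
  | zero => simp [U, E0, E1, E2, E3]
  | succ M ih =>
    have := balA (box M) (box_ok M).1 (box_ok M).2 x y
    simp only [U, E0, E1, E2, E3] at ih ⊢
    omega

lemma U_zero (M : ℕ) : M ≤ U M (0, 0) := by
  induction M with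
  | zero => exact Nat.zero_le _
  | succ M ih =>
    have h : (box M).mem 0 0 := box_mono 0 0 0 M (Nat.zero_le _) (by simp [box, Box.mem])
    simp only [U, E0, E1, E2, E3, ind, if_pos h] at ih ⊢
    omega

/-- The negation of the preceding statement: For every initial rotor configuration on Z^2, the rotor walk started at the origin has exits cycling N,N,E,S,W at each vertex. This walk returns to the origin only finitely many times, i.e. it is transient. -/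
theorem result :
    ¬ (∀ r₀ : ℤ × ℤ → Fin 5,
      Set.Finite {n : ℕ |
        ((fun s : (ℤ × ℤ) × (ℤ × ℤ → Fin 5) =>
            (s.1 + (![(0, 1), (0, 1), (1, 0), (0, -1), (-1, 0)] : Fin 5 → ℤ × ℤ) (s.2 s.1 + 1),
             Function.update s.2 s.1 (s.2 s.1 + 1)))^[n] ((0, 0), r₀)).1 = (0, 0)}) := by
  intro H
  obtain ⟨N, hN⟩ := (H rho).bddAbove
  have hN' : ∀ t, (W rho t).1 = (0, 0) → t ≤ N := fun t ht => hN ht
  have hv : ∀ t, vis rho t (0, 0) ≤ t ∧ vis rho t (0, 0) ≤ N + 1 := by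
    intro t
    induction t with
    | zero => simp [vis]
    | succ t ih =>
      simp only [vis]
      split_ifs with h
      · have := hN' t h; omega
      · omega
  apply lap rho (U (N + 1)) (Finset.Icc (box (N + 1)).a (box (N + 1)).b ×ˢ
    Finset.Icc (box (N + 1)).c (box (N + 1)).d)
  · rintro ⟨x, y⟩ hz
    by_contra h
    apply hz
    obtain ⟨f1, f2, f3, f4⟩ := E_zero x y (N + 1) (by
      intro h'
      apply h
      simp only [Finset.mem_product, Finset.mem_Icc]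
      unfold Box.mem at h'
      omega)
    simp [U, *]
  · intro x y
    unfold inn
    rw [(E_cnt _ _ _).1, (E_cnt _ _ _).2.1, (E_cnt _ _ _).2.2.1, (E_cnt _ _ _).2.2.2, E_bal]
  · intro t
    exact (hv t).2.trans (U_zero _)

end Pool.Agent.S19120
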