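import Pool.Statements.S19138
import Pool.Agent.H.MP_0b691a_pr.A

set_option autoImplicit false
open Pool Pool.MP_0b691a_pr

namespace Pool.Agent.S19138

theorem result :
    ¬ (∀ (ν : MeasureTheory.Measure ℝ) (γ : ℝ) (W : ℝ → ℝ),
      ν (Set.Ici 0) = 0 →
      (∫⁻ x, ENNReal.ofReal (min 1 (x ^ 2)) ∂ν) < ⊤ →
      (∫⁻ x in Set.Ioo (-1 : ℝ) 0, ENNReal.ofReal |x| ∂ν) = ⊤ →
      ContinuousOn W (Set.Ioi 0) →
      (∃ β₀ : ℝ, ∀ β : ℝ, β₀ < β →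
        MeasureTheory.IntegrableOn (fun x => Real.exp (-β * x) * W x) (Set.Ioi 0) ∧
        (∫ x in Set.Ioi (0 : ℝ), Real.exp (-β * x) * W x) =
          1 / (γ * β + ∫ x, (Real.exp (β * x) - 1 - (if -1 < x then β * x else 0)) ∂ν)) →
      ∀ k : ℕ,
        (ContDiffOn ℝ ((k + 2 : ℕ) : WithTop ℕ∞) W (Set.Ioi 0) ↔
          ContDiffOn ℝ ((k : ℕ) : WithTop ℕ∞) (fun y => (ν (Set.Iio (-y))).toReal) (Set.Ioi 0))) := by
  intro h
  open Pool.Agent.H.MP_0b691a_pr in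
  exact c4 ((h ν γ W c1 c2 c3 BW.1.continuousOn
    ⟨4, fun β hβ => ⟨(BW.int hβ).1, by rw [LW hβ, psi (by linarith)]⟩⟩ 0).1 CW).continuousOn

end Pool.Agent.S19138
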