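import Pool.Statements.S19182
import Pool.Agent.H.MP_1775a6_pr.G

set_option autoImplicit false
open MeasureTheory
open Pool Pool.MP_1775a6_pr
open Pool.Agent.H.MP_1775a6_pr

namespace Pool.Agent.S19182

theorem result :
    ¬ (∀ (V : Type) [Countable V] [Infinite V] (G : SimpleGraph V),
      G.Connected →
      (∀ v : V, (G.neighborSet v).Finite) →
      (∀ q : ℝ, 0 ≤ q → q < 1 →
        ∀ (Ω : Type) [MeasurableSpace Ω] (P : Measure Ω) [IsProbabilityMeasure P]
          (ξ : Ω → Set (Sym2 V)),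
          (∀ e : Sym2 V, MeasurableSet {w : Ω | e ∈ ξ w}) →
          ProbabilityTheory.iIndepSet (fun e : Sym2 V => {w : Ω | e ∈ ξ w}) P →
          (∀ e : Sym2 V, P {w : Ω | e ∈ ξ w} = ENNReal.ofReal q) →
          ∀ᵐ w ∂P, ∀ x : V, Set.Finite {y : V |
            (G ⊓ SimpleGraph.fromEdgeSet (ξ w)).Reachable x y}) →
      ∀ p : ℝ, 0 ≤ p → p ≤ 1 →
        ∀ (Ω : Type) [MeasurableSpace Ω] (P : Measure Ω) [IsProbabilityMeasure P]
          (ξ : Ω → Set (Sym2 (V × ℤ))),
          (∀ e : Sym2 (V × ℤ), MeasurableSet {w : Ω | e ∈ ξ w}) →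
          ProbabilityTheory.iIndepSet (fun e : Sym2 (V × ℤ) => {w : Ω | e ∈ ξ w}) P →
          (∀ e : Sym2 (V × ℤ), P {w : Ω | e ∈ ξ w} = ENNReal.ofReal p) →
          ∀ᵐ w ∂P, ∀ x : V × ℤ,
            Set.Infinite {y : V × ℤ |
              (SimpleGraph.boxProd G (SimpleGraph.hasse ℤ) ⊓
                SimpleGraph.fromEdgeSet (ξ w)).Reachable x y} →
            ∀ v : V, Set.Infinite {n : ℤ |
              (SimpleGraph.boxProd G (SimpleGraph.hasse ℤ) ⊓
                SimpleGraph.fromEdgeSet (ξ w)).Reachable x (v, n)}) := by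
  intro h
  obtain ⟨π, J, σ, hg, hJ, σ0, hσ⟩ := surv_pos
  have := val_inf (π := π)
  have me : ∀ e : Sym2 (Val π × ℤ),
      Dep {Sym2.map (up π) e} {w : Sym2 (Vh × ℤ) → Bool | w (Sym2.map (up π) e) = true} :=
    fun e => dep_val (Set.mem_singleton _) true
  have key := h (Val π) (GV π) GV_conn GV_fin
    (fun q _ q1 Ω _ Q _ ξ _ hi hq => pc_one hg hJ q1 Q ξ hi hq) (1 / 100) (by norm_num)
    (by norm_num) _ (P (Sym2 (Vh × ℤ))) (fun w => {e | w (Sym2.map (up π) e) = true})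
    (fun e => (me e).meas)
    ((ProbabilityTheory.iIndepSet_iff_meas_biInter fun e => (me e).meas).2 fun s =>
      indep_prod s _ _ (fun i _ j _ e => Set.disjoint_singleton.2 fun k =>
        e (Sym2.map.injective up_inj k)) fun e _ => me e)
    (fun e => (P_true _).trans (by rw [← p_real, ENNReal.ofReal_toReal p_top]))
  have fib := ae_finite_setOfPred_mem (μ := P (Sym2 (Vh × ℤ)))
    (s := fun n : ℤ => conn (Z (GG π)) (cyl (Val π)) (([], 0, 0), 0) (([], 0, 0), n)) (fin_T hg)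
  have anti : Antitone (Surv π [] 0) := fun K K' k =>
    Set.iUnion_mono fun y => Set.iUnion_mono' fun hy => ⟨k.trans hy, subset_rfl⟩
  have pos := anti.measure_iInter (μ := P _)
    (fun K => (inc_surv _ _).dep.meas.nullMeasurableSet) ⟨0, measure_ne_top _ _⟩
  refine σ0 (le_zero_iff.1 (((le_iInf hσ).trans_eq pos.symm).trans_eq
    (measure_eq_zero_iff_ae_notMem.2 ?_)))
  filter_upwards [key, fib] with w h1 h2 h3
  refine h1 (root π, 0) (fun k => ?_) (root π) (h2.subset fun n hn => (up_reach _ _ _).1 hn)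
  obtain ⟨K, hK⟩ := (k.image fun y => y.1.1.1.length).bddAbove
  obtain ⟨y, hy, h4⟩ := Set.mem_iUnion₂.1 (Set.mem_iInter.1 h3 (K + 1))
  have h5 : w ∈ conn (Z (GG π)) (cyl (Val π)) (([], 0, 0), 0) y :=
    conn_mono (fun x k => k.1) h4
  have h6 : y.1 ∈ Val π := conn_inv (X := fun y => y.1 ∈ Val π) h5 (root π).2
    fun _ _ _ s => s.2.1
  have := hK ⟨(⟨y.1, h6⟩, y.2), (up_reach _ _ _).2 h5, rfl⟩
  simp only at this
  omega

end Pool.Agent.S19182
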