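import Pool.Statements.S19194

set_option autoImplicit false
open MeasureTheory ProbabilityTheory
open Pool Pool.MP_1c00b2_pr

namespace Pool.Agent.S19194

open scoped ENNReal

noncomputable def pp : unitInterval := ⟨1 / 8, by norm_num, by norm_num⟩

noncomputable abbrev nu : Measure Bool := bernoulliMeasure true false pp

noncomputable abbrev mu : Measure (ℕ → Bool) := Measure.infinitePi (fun _ : ℕ => nu)

def sz (b : Bool) : ℤ := if b then 9 else 7

def step (v : ℤ × ℤ) (b : Bool) : ℤ × ℤ :=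
  if v.1 ≤ v.2 then (max 0 (v.1 + sz b - 4), max 0 (v.2 - 4))
  else (max 0 (v.1 - 4), max 0 (v.2 + sz b - 4))

def Vz (ω : ℕ → Bool) : ℕ → ℤ × ℤ
  | 0 => (0, 0)
  | n + 1 => step (Vz ω n) (ω n)

def VV (n : ℕ) (ω : ℕ → Bool) (i : Fin 2) : ℝ :=
  if i = 0 then ((Vz ω n).1 : ℝ) else ((Vz ω n).2 : ℝ)

lemma Vz_six (ω : ℕ → Bool) : min (Vz ω 6).1 (Vz ω 6).2 =
    (if ω 4 = true then 1 else 0) + (if ω 2 = true ∧ ω 4 = true then 1 else 0) +
      (if ω 0 = true ∧ ω 2 = true then 1 else 0) := by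
  simp only [Vz]
  generalize ω 0 = a
  generalize ω 1 = b
  generalize ω 2 = c
  generalize ω 3 = d
  generalize ω 4 = e
  generalize ω 5 = f
  revert a b c d e f
  decide +kernel

lemma integral_coord (f : Bool → ℝ) :
    ∫ ω, f (ω 0) ∂mu = 1 / 8 * f true + 7 / 8 * f false := by
  have h := Measure.infinitePi_map_eval (fun _ : ℕ => nu) 0
  rw [← integral_map (φ := fun ω : ℕ → Bool => ω 0) (measurable_pi_apply 0).aemeasurable
    (measurable_of_finite f).aestronglyMeasurable, h, integral_bernoulliMeasure]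
  simp only [pp, smul_eq_mul]; norm_num

lemma nu_true : nu {true} = ENNReal.ofReal (1 / 8) := by
  rw [bernoulliMeasure_apply_of_mem_of_notMem _ MeasurableSet.of_discrete (Set.mem_singleton true)
    (by simp),
    ENNReal.ofReal]
  congr 1
  ext
  simp [pp]

lemma cyl1 (i : ℕ) : mu {ω | ω i = true} = ENNReal.ofReal (1 / 8) := by
  have e : {ω : ℕ → Bool | ω i = true} = Set.pi (({i} : Finset ℕ) : Set ℕ) (fun _ => {true}) := by
    ext ω; simp
  rw [e, Measure.infinitePi_pi _ (fun _ _ => MeasurableSet.of_discrete), Finset.prod_singleton,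
    nu_true]

lemma cyl2 (i j : ℕ) (h : i ≠ j) :
    mu {ω | ω i = true ∧ ω j = true} = ENNReal.ofReal (1 / 64) := by
  have e : {ω : ℕ → Bool | ω i = true ∧ ω j = true} =
      Set.pi (({i, j} : Finset ℕ) : Set ℕ) (fun _ => {true}) := by
    ext ω; simp
  rw [e, Measure.infinitePi_pi _ (fun _ _ => MeasurableSet.of_discrete), Finset.prod_pair h,
    nu_true, ← ENNReal.ofReal_mul (by norm_num)]
  norm_num

lemma lint_six : ∫⁻ ω, ENNReal.ofReal (⨅ i, VV 6 ω i) ∂mu = ENNReal.ofReal (5 / 32) := by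
  have m1 : ∀ i, MeasurableSet {ω : ℕ → Bool | ω i = true} := fun i =>
    (MeasurableSet.of_discrete (s := ({true} : Set Bool))).preimage (measurable_pi_apply i)
  have m2 : ∀ i j, MeasurableSet {ω : ℕ → Bool | ω i = true ∧ ω j = true} := fun i j =>
    (m1 i).inter (m1 j)
  have e : ∀ ω : ℕ → Bool, ENNReal.ofReal (⨅ i, VV 6 ω i) =
      {ω : ℕ → Bool | ω 4 = true}.indicator 1 ω +
      {ω : ℕ → Bool | ω 2 = true ∧ ω 4 = true}.indicator 1 ω +
      {ω : ℕ → Bool | ω 0 = true ∧ ω 2 = true}.indicator 1 ω := by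
    intro ω
    have h1 : ⨅ i, VV 6 ω i = ((min (Vz ω 6).1 (Vz ω 6).2 : ℤ) : ℝ) := by
      apply le_antisymm
      · push_cast
        exact le_min (ciInf_le (Finite.bddBelow_range _) 0) (ciInf_le (Finite.bddBelow_range _) 1)
      · refine le_ciInf fun i => ?_
        push_cast
        unfold VV
        split_ifs
        · exact min_le_left _ _
        · exact min_le_right _ _
    rw [h1, Vz_six]
    simp only [Set.indicator_apply, Set.mem_ofPred_eq, Pi.one_apply]
    split_ifs <;> norm_num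
  simp_rw [e]
  rw [lintegral_add_left, lintegral_add_left, lintegral_indicator_one (m1 _),
    lintegral_indicator_one (m2 _ _), lintegral_indicator_one (m2 _ _), cyl1,
    cyl2 _ _ (by norm_num), cyl2 _ _ (by norm_num), ← ENNReal.ofReal_add (by norm_num) (by norm_num),
    ← ENNReal.ofReal_add (by norm_num) (by norm_num)]
  · norm_num
  · exact measurable_one.indicator (m1 _)
  · exact (measurable_one.indicator (m1 _)).add (measurable_one.indicator (m2 _ _))

theorem result :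
    ¬ (∀ (Ω : Type) [MeasurableSpace Ω] (μ : Measure Ω) [IsProbabilityMeasure μ]
    (k : ℕ) (T S : ℕ → Ω → ℝ) (V : ℕ → Ω → Fin k → ℝ) (ρ : ℝ),
    0 < k →
    (∀ n, Measurable (T n)) → (∀ n, Measurable (S n)) →
    iIndepFun (fun n ω => (T n ω, S n ω)) μ →
    (∀ n, IndepFun (T n) (S n) μ) →
    (∀ n, IdentDistrib (T n) (T 0) μ μ) →
    (∀ n, IdentDistrib (S n) (S 0) μ μ) →
    (∀ n ω, 0 ≤ T n ω) → (∀ n ω, 0 ≤ S n ω) →
    MemLp (T 0) 2 μ → MemLp (S 0) 2 μ →
    0 < ∫ ω, T 0 ω ∂μ →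
    ρ = (∫ ω, S 0 ω ∂μ) / ((k : ℝ) * ∫ ω, T 0 ω ∂μ) →
    ρ < 1 →
    (∀ ω i, V 0 ω i = 0) →
    (∀ n ω, ∃ j : Fin k, (∀ i, V n ω j ≤ V n ω i) ∧
        ∀ i, V (n + 1) ω i = max 0 (V n ω i + (if i = j then S n ω else 0) - T n ω)) →
    ∀ n, ∫⁻ ω, ENNReal.ofReal (⨅ i, V n ω i) ∂μ ≤
      ENNReal.ofReal ((ρ * (2 - ρ) * variance (T 0) μ + variance (S 0) μ / ((k : ℝ) ^ 2)) /
        (2 * (1 - ρ) * ∫ ω, T 0 ω ∂μ))) := by
  intro h
  have mS : ∀ n, Measurable (fun ω : ℕ → Bool => ((sz (ω n) : ℤ) : ℝ)) := fun n =>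
    (measurable_of_finite (fun b : Bool => ((sz b : ℤ) : ℝ))).comp (measurable_pi_apply n)
  have hL : MemLp (fun ω : ℕ → Bool => ((sz (ω 0) : ℤ) : ℝ)) 2 mu := by
    refine MemLp.of_bound (mS 0).aestronglyMeasurable 9 (Filter.Eventually.of_forall fun ω => ?_)
    unfold sz; split_ifs <;> norm_num
  have hE : ∫ ω : ℕ → Bool, ((sz (ω 0) : ℤ) : ℝ) ∂mu = 29 / 4 := by
    rw [integral_coord (fun b => ((sz b : ℤ) : ℝ))]; simp [sz]; norm_num
  have hV : variance (fun ω : ℕ → Bool => ((sz (ω 0) : ℤ) : ℝ)) mu = 7 / 16 := by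
    rw [variance_eq_sub hL, hE]
    have := integral_coord (fun b => ((sz b : ℤ) : ℝ) ^ 2)
    simp only [Pi.pow_apply]
    rw [this]; simp [sz]; norm_num
  have hT : variance (fun _ : ℕ → Bool => (4 : ℝ)) mu = 0 := by
    rw [variance_eq_sub (memLp_const _)]; simp
  have key := h (ℕ → Bool) mu 2 (fun _ _ => 4) (fun n ω => ((sz (ω n) : ℤ) : ℝ)) VV (29 / 32)
    (by norm_num) (fun _ => measurable_const) mS
    (iIndepFun_infinitePi (X := fun (_ : ℕ) (b : Bool) => ((4 : ℝ), ((sz b : ℤ) : ℝ)))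
      (fun _ => measurable_of_finite _))
    (fun n => indepFun_const_left _ _)
    (fun n => IdentDistrib.refl aemeasurable_const)
    (fun n => by
      have h1 : IdentDistrib (fun ω : ℕ → Bool => ω n) (fun ω : ℕ → Bool => ω 0) mu mu :=
        ⟨(measurable_pi_apply n).aemeasurable, (measurable_pi_apply 0).aemeasurable, by
          rw [Measure.infinitePi_map_eval, Measure.infinitePi_map_eval]⟩
      exact h1.comp (measurable_of_finite (fun b : Bool => ((sz b : ℤ) : ℝ))))
    (fun _ _ => by norm_num)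
    (fun n ω => by unfold sz; split_ifs <;> norm_num)
    (memLp_const _) hL (by simp) (by rw [hE]; simp; norm_num) (by norm_num)
    (fun ω i => by simp [VV, Vz])
    (fun n ω => by
      by_cases hc : (Vz ω n).1 ≤ (Vz ω n).2
      · refine ⟨0, fun i => ?_, fun i => ?_⟩
        · fin_cases i
          · simp
          · simpa [VV] using hc
        · fin_cases i <;> simp [VV, Vz, step, hc]
      · refine ⟨1, fun i => ?_, fun i => ?_⟩
        · fin_cases i
          · simpa [VV] using (not_le.1 hc).le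
          · simp
        · fin_cases i <;> simp [VV, Vz, step, hc]) 6
  rw [lint_six, hV, hT, ENNReal.ofReal_le_ofReal_iff (by simp; norm_num)] at key
  simp at key
  norm_num at key

end Pool.Agent.S19194
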