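import Pool.Statements.S19196
import Pool.Agent.H.MP_1d7c3b_pr.A

set_option autoImplicit false
open Pool Pool.MP_1d7c3b_pr

namespace Pool.Agent.S19196

theorem result :
    ¬ (∀ (n : ℕ), 0 < n → ∀ (f : ℝ → ℝ), (∀ x, 0 ≤ f x) → (∀ x, f (-x) = f x) →
      (∀ x y t : ℝ, 0 ≤ t → t ≤ 1 →
        f x ^ t * f y ^ (1 - t) ≤ f (t * x + (1 - t) * y)) →
      MeasureTheory.Integrable f → ∫ x, f x = 1 →
      ∀ (Ω : Type) [MeasureTheory.MeasureSpace Ω]
        [MeasureTheory.IsProbabilityMeasure (MeasureTheory.volume : MeasureTheory.Measure Ω)]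
        (X : Fin n → Ω → ℝ),
        (∀ i, Measurable (X i)) →
        ProbabilityTheory.iIndepFun X (MeasureTheory.volume : MeasureTheory.Measure Ω) →
        (∀ i, MeasureTheory.Measure.map (X i) (MeasureTheory.volume : MeasureTheory.Measure Ω)
            = MeasureTheory.volume.withDensity (fun x => ENNReal.ofReal (f x))) →
        ∀ d : Fin n → ℝ, ∑ i, d i ^ 2 = 1 →
          ∫ x, Real.negMulLog
              (((MeasureTheory.Measure.map (fun ω => ∑ i, d i * X i ω)
                (MeasureTheory.volume : MeasureTheory.Measure Ω)).rnDeriv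
                  MeasureTheory.volume x).toReal)
            ≤ ∫ x, Real.negMulLog
              (((MeasureTheory.Measure.map (fun ω => ∑ i, (1 / Real.sqrt n) * X i ω)
                (MeasureTheory.volume : MeasureTheory.Measure Ω)).rnDeriv
                  MeasureTheory.volume x).toReal)) := by
  intro h
  open Pool.Agent.H.MP_1d7c3b_pr in
  have k := @h 2 two_pos (fun x => φ x * r0 x) (fun x => (mul_pos (φ0 x) (r0pos x).1).le)
    (fun x => by simp only [φneg, r0neg]) conc (toγ.2 Hr.int.1) (by
      have e := intν cr0.measurable (fun x => (r0pos x).1.le) fun _ => (1 : ℝ)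
      rw [ProbabilityTheory.integral_gaussianReal_eq_integral_smul one_ne_zero] at e
      simpa using e.symm)
    (Fin 2 → ℝ) ⟨P⟩ (inferInstanceAs (MeasureTheory.IsProbabilityMeasure P)) (fun i ω => ω i)
    (fun i => measurable_pi_apply i) ind mp ![3 / 5, 4 / 5] (by simp [Fin.sum_univ_two]; norm_num)
  have m := Pool.Agent.H.MP_1d7c3b_pr.main (s := 1 / Real.sqrt (2 : ℕ)) (by
    rw [div_pow, Real.sq_sqrt (by positivity)]; norm_num)
  simp only [Fin.sum_univ_two, Matrix.cons_val_zero, Matrix.cons_val_one] at k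
  exact absurd k (not_le.2 m)

end Pool.Agent.S19196
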