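import Pool.Statements.S19204
import Pool.Agent.H.MP_218893_pr.Main

set_option autoImplicit false
open MeasureTheory
open Pool Pool.MP_218893_pr

namespace Pool.Agent.S19204

theorem result :
    ¬ (∀ (n d : ℕ) (μ : Measure (Fin d → ℤ)) [IsProbabilityMeasure μ],
      ∃ w : Fin n → ℤ, (∀ i, w i = 1 ∨ w i = -1) ∧
        ∀ a : Fin n → ℝ, (∀ i, a i ≠ 0) → ∀ x : Fin d → ℝ,
          Measure.pi (fun _ : Fin n => μ)
              {ω : Fin n → Fin d → ℤ | ∑ i, a i • (fun j => ((ω i j : ℤ) : ℝ)) = x}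
            ≤ ⨆ k : Fin d → ℤ, Measure.pi (fun _ : Fin n => μ)
              {ω : Fin n → Fin d → ℤ | ∑ i, w i • ω i = k}) := by
  intro h
  obtain ⟨w, hw, h⟩ := h 3 1 Pool.Agent.H.MP_218893_pr.mu
  exact absurd (h ![1, 2, 4] (fun i => by fin_cases i <;> simp) 0)
    (not_le.2 (Pool.Agent.H.MP_218893_pr.main w hw))

end Pool.Agent.S19204
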