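import Pool.Statements.S19209
import Pool.Agent.H.MP_240aa8_pr.U
import Pool.Agent.H.MP_240aa8_pr.V
import Pool.Agent.H.MP_240aa8_pr.N

set_option autoImplicit false
open MeasureTheory ProbabilityTheory
open Pool Pool.MP_240aa8_pr

namespace Pool.Agent.S19209

theorem result :
    ∀ k q : ℕ, ((1 ≤ k ∧ 5 ≤ q) ∨ (2 ≤ k ∧ 4 ≤ q) ∨ (3 ≤ k ∧ 3 ≤ q)) →
      ∀ n : ℕ, 3 ≤ n →
        ∃ μ : Measure (Fin n → Fin q), IsProbabilityMeasure μ ∧
          (∀ᵐ x ∂μ, ∀ i j : Fin n, (SimpleGraph.cycleGraph n).Adj i j → x i ≠ x j) ∧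
          (∀ σ : Equiv.Perm (Fin q), μ.map (fun x : Fin n → Fin q => σ ∘ x) = μ) ∧
          (∀ A B : Set (Fin n),
            (∀ a ∈ A, ∀ b ∈ B, k < (SimpleGraph.cycleGraph n).dist a b) →
            IndepFun (fun x : Fin n → Fin q => fun a : A => x a)
              (fun x : Fin n → Fin q => fun b : B => x b) μ) := by
  intro k q h n hn
  open Pool.Agent.H.MP_341645_pr Pool.Agent.H.MP_240aa8_pr in
  rcases (show (1 ≤ k ∧ 5 ≤ q) ∨ (1 ≤ k ∧ q = 2 + 2) ∨ (2 ≤ k ∧ q = 1 + 2) by omega) with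
    ⟨hk, hq⟩ | ⟨hk, rfl⟩ | ⟨hk, rfl⟩
  · haveI : NeZero q := ⟨by omega⟩
    obtain ⟨m, rfl⟩ : ∃ m, n = m + 1 := ⟨n - 1, by omega⟩
    obtain ⟨t, h0, h2, hc⟩ : ∃ t : ℝ, 0 < t ∧ t ≤ 1 / 2 ∧ (Fintype.card (Fin q) : ℝ) = 2 + t + t⁻¹ := by
      have hq' : (5 : ℝ) ≤ q := by exact_mod_cast hq
      have hs := Real.sq_sqrt (show (0 : ℝ) ≤ (q - 2) ^ 2 - 4 by nlinarith)
      have h1 : √(((q : ℝ) - 2) ^ 2 - 4) < q - 2 := (Real.sqrt_lt' (by linarith)).2 (by linarith)
      have h2 : (q : ℝ) - 3 ≤ √(((q : ℝ) - 2) ^ 2 - 4) := Real.le_sqrt_of_sq_le (by nlinarith)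
      refine ⟨(q - 2 - √(((q : ℝ) - 2) ^ 2 - 4)) / 2, by linarith, by linarith, ?_⟩
      rw [Fintype.card_fin, inv_eq_of_mul_eq_one_right (b := (q - 2 + √(((q : ℝ) - 2) ^ 2 - 4)) / 2)
        (by linear_combination (-1 / 4) * hs)]
      ring
    have h1 : t < 1 := by linarith
    have hp : ∀ j : ℕ, 0 < 1 - t ^ (j + 1) := fun j => pw h0 h1 j.succ_ne_zero
    have ht : 0 < 1 - t := by linarith
    let r : ℝ := (1 - t) / (1 + t⁻¹)
    let W : List (Fin q) → ℝ := fun y => r ^ y.length * (1 - t) / (1 - t ^ (y.length + 1)) * F t none y none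
    have W0 : W [] = 1 := by simp [W, ht.ne']
    have WI : ∀ x y, ∑ a, W (x ++ a :: y) = W x * W y := fun x y => by
      have e := line h0 h1 hc x y
      have := hp x.length
      have := hp y.length
      have := hp (x.length + y.length + 1)
      simp only [W, List.length_append, List.length_cons, ← Finset.mul_sum, ← add_assoc]
      rw [eq_div_of_mul_eq (by positivity) ((mul_comm _ _).trans e)]
      have hr : r * (1 + t⁻¹) = 1 - t := div_mul_cancel₀ _ (by positivity)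
      rw [pow_succ r, pow_add r, ← hr]
      clear_value r
      field_simp
    have hs : 0 ≤ 1 - (1 + t + t⁻¹) * t ^ (m + 1) := by
      have e1 : t ^ (m + 1) ≤ t ^ 2 := pow_le_pow_of_le_one h0.le h1.le (by omega)
      have e2 : (1 + t + t⁻¹) * t ^ 2 = t ^ 2 + t ^ 3 + t := by field_simp
      have := mul_le_mul_of_nonneg_left e1 (show 0 ≤ 1 + t + t⁻¹ by positivity)
      nlinarith
    let c : ℝ := (1 - t ^ m) * ((1 - (1 + t + t⁻¹) * t ^ (m + 1)) * (1 + t⁻¹) + (2 + t + t⁻¹) * t ^ m)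
    have c0 : 0 < c := mul_pos (pw h0 h1 (by omega)) (by positivity)
    have r0 : 0 ≤ r ^ m * (1 - t) / (1 - t ^ (m + 1)) / c := by have := hp m; positivity
    refine cyc 1 (m + 1) hn (by omega) (W := W) (τ := fun x => r ^ m * (1 - t) / (1 - t ^ (m + 1)) / c * τ t (m + 1) x)
      (fun w => ?_) W0 (fun w => by simpa [W0] using WI [] w) (fun w => by simpa [W0] using WI w [])
      (fun a => ?_) WI (fun x => ?_) (fun a y => by simp only [τ, A_rot]) (fun a y => by simp [τ, A_zero h0 h1])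
      (fun σ x => ?_) (fun y hy => ?_) k hk
    · have := hp w.length
      have := F_nonneg h0 h1 _ none w none rfl
      positivity
    · simp [W, show F t none [a, a] none = 0 from F_mid h0 h1 _ a [] [] none none rfl]
    · have := A_nonneg h0 h1 none x
      have := Finset.sum_nonneg fun (g : Fin q) (_ : g ∈ Finset.univ) => A_nonneg h0 h1 g x
      unfold τ; positivity
    · have e1 := A_map h0 h1 σ none x
      have e2 := fun g : Fin q => A_map h0 h1 σ g x
      simp only [Option.map_none, Option.map_some] at e1 e2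
      simp only [τ, e1, ← e2, Equiv.sum_comp σ fun g => A t (some g) (x.map σ)]
    · obtain rfl : m = y.length := by omega
      change ∑ a, _ * τ t (y.length + 1) (a :: y) = _
      rw [← Finset.mul_sum, marg h0 h1 hc, ← mul_assoc, div_mul_cancel₀ _ c0.ne']
  · obtain ⟨m, rfl⟩ : ∃ m, n = m + 2 := ⟨n - 2, by omega⟩
    obtain ⟨c, c0, hc⟩ := marg4 m
    refine cyc 1 (m + 2) hn (by omega) (τ := fun x => c⁻¹ * Nn (m + 1) x) WH_nonneg WH_nil WH_left WH_right
      (fun a => WH_np _ fun e => e.1 rfl) (fun x y => WH_gap4 _ x y rfl)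
      (fun x => mul_nonneg (by positivity) (Nn_nonneg _ _)) (fun a y => by rw [Nn_rot])
      (fun a y => by rw [Nn_np _ (a :: a :: y) fun e => e.1 rfl, mul_zero]) (fun σ x => by rw [Nn_map]) (fun y hy => ?_) k hk
    change ∑ a, _ * Nn (m + 1) (a :: y) = _
    rw [← Finset.mul_sum, hc y (by omega), inv_mul_cancel_left₀ c0.ne']
  · obtain ⟨m, rfl⟩ : ∃ m, n = m + 3 := ⟨n - 3, by omega⟩
    obtain ⟨c, c0, hc⟩ := marg3 m
    refine cyc 2 (m + 3) hn (by omega) (τ := fun x => c⁻¹ * Nn (m + 2) x) WH_nonneg WH_nil WH_left WH_right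
      (fun a => WH_np _ fun e => e.1 rfl) (fun x y => WH_gap3 _ x y rfl)
      (fun x => mul_nonneg (by positivity) (Nn_nonneg _ _)) (fun a y => by rw [Nn_rot])
      (fun a y => by rw [Nn_np _ (a :: a :: y) fun e => e.1 rfl, mul_zero]) (fun σ x => by rw [Nn_map]) (fun y hy => ?_) k hk
    change ∑ a, ∑ b, _ * Nn (m + 2) (a :: b :: y) = _
    simp only [← Finset.mul_sum]
    rw [hc y (by omega), inv_mul_cancel_left₀ c0.ne']

end Pool.Agent.S19209
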