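import Pool.Statements.S19226
import Pool.Agent.H.MP_284d10_pr.F

set_option autoImplicit false
open Pool Pool.MP_284d10_pr

namespace Pool.Agent.S19226

theorem result :
    ¬ (∀ k : ℕ, 2 ≤ k →
    Filter.Tendsto
      (fun n : ℕ =>
        (Nat.card {e : Fin (Nat.card {c : Finset (Fin n × Bool) // c.card = k ∧ (c.image Prod.fst).card = k}) ≃
                      {c : Finset (Fin n × Bool) // c.card = k ∧ (c.image Prod.fst).card = k} //
            ∃ m : ℕ,
              (∀ j : ℕ, j < m → ∃ a : Fin n → Bool,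
                  ∀ c : {c : Finset (Fin n × Bool) // c.card = k ∧ (c.image Prod.fst).card = k},
                    ((e.symm c : Fin _) : ℕ) < j → ∃ l ∈ c.val, a l.1 = l.2) ∧
              ∃ H : Finset {c : Finset (Fin n × Bool) // c.card = k ∧ (c.image Prod.fst).card = k},
                H.Nonempty ∧
                (∀ c ∈ H, ((e.symm c : Fin _) : ℕ) < m) ∧
                ∃ a : Fin n → Bool,
                  (∀ c ∈ H, ∃ l ∈ c.val, a l.1 = l.2) ∧
                  ∀ b : Fin n → Bool, (∀ c ∈ H, ∃ l ∈ c.val, b l.1 = l.2) →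
                    ∀ i : Fin n, (∃ c ∈ H, ∃ l ∈ c.val, l.1 = i) → b i = a i} : ℝ) /
        (Nat.card (Fin (Nat.card {c : Finset (Fin n × Bool) // c.card = k ∧ (c.image Prod.fst).card = k}) ≃
                      {c : Finset (Fin n × Bool) // c.card = k ∧ (c.image Prod.fst).card = k}) : ℝ))
      Filter.atTop (nhds 1)) := by
  intro h
  obtain ⟨N, hN⟩ := Filter.eventually_atTop.1 ((h 2 le_rfl).eventually
    (lt_mem_nhds (show (1 : ℝ) - 1 / 10 ^ 19 < 1 by norm_num)))
  refine (hN (4000 * (N + 10 ^ 20) ^ 3) ?_).not_ge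
    (Pool.Agent.H.MP_284d10_pr.main (Nat.le_add_left _ N) rfl _ fun _ h => h)
  exact (Nat.le_add_right N _).trans ((Nat.le_self_pow (by norm_num) _).trans
    (Nat.le_mul_of_pos_left _ (by norm_num)))

end Pool.Agent.S19226
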