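import Pool.Statements.S19240
import Pool.Agent.H.MP_2c66a4_pr.A

set_option autoImplicit false
open Filter Topology MeasureTheory
open Pool Pool.MP_2c66a4_pr

namespace Pool.Agent.S19240

theorem result :
    ¬ (∀ (α : ℝ), 0 < α → α < 1 →
  ∀ (Ω : Type) [MeasurableSpace Ω] (P : Measure Ω) [IsProbabilityMeasure P] (X : ℝ → Ω → ℝ),
    (∀ t : ℝ, Measurable (X t)) →
    (∀ᵐ ω ∂P, X 0 ω = 0) →
    (∀ᵐ ω ∂P, ∀ t : ℝ, 0 ≤ t →
        ContinuousWithinAt (fun s => X s ω) (Set.Ici t) t ∧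
        (0 < t → ∃ l : ℝ, Tendsto (fun s => X s ω) (𝓝[<] t) (𝓝 l))) →
    (∀ (n : ℕ) (t : Fin (n + 1) → ℝ), 0 ≤ t 0 → StrictMono t →
        ProbabilityTheory.iIndepFun
          (fun (i : Fin n) (ω : Ω) => X (t i.succ) ω - X (t i.castSucc) ω) P) →
    (∀ s t : ℝ, 0 ≤ s → s ≤ t → ∀ ξ : ℝ,
        ∫ ω, Complex.exp (((ξ * (X t ω - X s ω) : ℝ) : ℂ) * Complex.I) ∂P
          = ((Real.exp (-(t - s) * |ξ| ^ α) : ℝ) : ℂ)) →
    ∀ᵐ ω ∂P,
      (∀ s : ℝ, 0 < s → s < 1 →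
        ∃ (μ : Measure (ℝ × ℝ)) (K : Set (ℝ × ℝ)),
          IsProbabilityMeasure μ ∧ IsCompact K ∧
          K ⊆ {p : ℝ × ℝ | p.1 ∈ Set.Icc (0 : ℝ) 1 ∧ p.2 = X p.1 ω} ∧
          μ Kᶜ = 0 ∧
          ∃ C : ℝ, ∀ ξ : ℝ × ℝ, 1 ≤ ‖ξ‖ →
            ‖∫ p, Complex.exp (((ξ.1 * p.1 + ξ.2 * p.2 : ℝ) : ℂ) * Complex.I) ∂μ‖
              ≤ C * ‖ξ‖ ^ (-s / 2)) ∧
      (∀ s : ℝ, 1 < s →
        ¬ ∃ (μ : Measure (ℝ × ℝ)) (K : Set (ℝ × ℝ)),
          IsProbabilityMeasure μ ∧ IsCompact K ∧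
          K ⊆ {p : ℝ × ℝ | p.1 ∈ Set.Icc (0 : ℝ) 1 ∧ p.2 = X p.1 ω} ∧
          μ Kᶜ = 0 ∧
          ∃ C : ℝ, ∀ ξ : ℝ × ℝ, 1 ≤ ‖ξ‖ →
            ‖∫ p, Complex.exp (((ξ.1 * p.1 + ξ.2 * p.2 : ℝ) : ℂ) * Complex.I) ∂μ‖
              ≤ C * ‖ξ‖ ^ (-s / 2))) := by
  intro h
  open Pool.Agent.H.MP_2c66a4_pr Pool.Agent.Lib.helper3.PPP in
  have mX : ∀ t, Measurable (X t) := fun t => mS (mF 0 t)
  open Pool.Agent.H.MP_2c66a4_pr Pool.Agent.Lib.helper3.PPP in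
  have one : ∀ s t : ℝ, 0 ≤ s → s ≤ t → ∀ ξ : ℝ,
      ∫ ω, Complex.exp (((ξ * (X t ω - X s ω) : ℝ) : ℂ) * Complex.I) ∂P
        = ((Real.exp (-(t - s) * |ξ| ^ (1 / 15 : ℝ)) : ℝ) : ℂ) := fun s t s0 st ξ => by
    simpa using joint (n := 1) (fun _ => s) (fun _ => t) (fun _ => ξ) (fun _ => s0) (fun _ => st)
      fun i j hij => absurd hij (by omega)
  open Pool.Agent.H.MP_2c66a4_pr Pool.Agent.Lib.helper3.PPP in
  have k := h (1 / 15) (by norm_num) (by norm_num) Ω P X mX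
    (.of_forall fun ω => by simp [X, S, Z, F, fun x : ℝ => show ¬ (0 < x ∧ x ≤ 0) by grind])
    (good.mono fun ω g t _ => ⟨(cad g t).1, fun _ => (cad g t).2⟩) (fun n t t0 tm => by
      have a0 : ∀ i : Fin n, 0 ≤ t i.castSucc := fun i => t0.trans (tm.monotone (Fin.zero_le _))
      have ab : ∀ i : Fin n, t i.castSucc ≤ t i.succ := fun i => tm.monotone (Fin.castSucc_le_succ i)
      have m : ∀ i : Fin n, Measurable fun ω => X (t i.succ) ω - X (t i.castSucc) ω :=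
        fun i => (mX _).sub (mX _)
      rw [ProbabilityTheory.iIndepFun_iff_charFun_pi fun i => (m i).aemeasurable]
      intro ξ
      rw [charFun_apply, integral_map (Measurable.aemeasurable (by fun_prop)) (by fun_prop)]
      have := joint (fun i : Fin n => t i.castSucc) (fun i => t i.succ) (fun i => ξ i) a0 ab
        fun i j hij => tm.monotone (Fin.succ_le_castSucc_iff.2 (Fin.castSucc_lt_castSucc_iff.2 hij))
      refine Eq.trans ?_ (this.trans (Finset.prod_congr rfl fun i _ => ?_))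
      · simp [PiLp.inner_apply]
      · rw [← one _ _ (a0 i) (ab i), charFun_apply_real, integral_map (m i).aemeasurable (by fun_prop)]
        simp) one
  open Pool.Agent.H.MP_2c66a4_pr in
  obtain ⟨ω, g, k, -⟩ := (good.and k).exists
  obtain ⟨μ, K, _, -, hK, h0, C, hC⟩ := k (2 / 3) (by norm_num) (by norm_num)
  refine Pool.Agent.H.MP_2c66a4_pr.nodecay g μ hK h0 (C := C) fun η hη => ?_
  have e : ‖((0, η) : ℝ × ℝ)‖ = |η| := by simp
  have := hC (0, η) (e ▸ hη)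
  rw [e, show (-(2 / 3) / 2 : ℝ) = -(1 / 3) by norm_num] at this
  simpa using this

end Pool.Agent.S19240
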