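import Pool.Statements.S19262
import Pool.Agent.H.MP_341645_pr.N
import Pool.Agent.H.MP_341645_pr.HL

set_option autoImplicit false
open MeasureTheory ProbabilityTheory
open Pool Pool.MP_341645_pr

namespace Pool.Agent.S19262

theorem result :
    ¬ (∀ μ ν : Measure (ℤ → Fin 3),
    IsProbabilityMeasure μ → IsProbabilityMeasure ν →
    μ.map (fun (x : ℤ → Fin 3) (n : ℤ) => x (n + 1)) = μ →
    ν.map (fun (x : ℤ → Fin 3) (n : ℤ) => x (n + 1)) = ν →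
    (∀ᵐ x ∂μ, ∀ n : ℤ, x n ≠ x (n + 1)) →
    (∀ᵐ x ∂ν, ∀ n : ℤ, x n ≠ x (n + 1)) →
    (∀ A B : Set ℤ, (∀ a ∈ A, ∀ b ∈ B, (2 : ℤ) < |a - b|) →
      IndepFun (fun (x : ℤ → Fin 3) (a : A) => x a)
        (fun (x : ℤ → Fin 3) (b : B) => x b) μ) →
    (∀ A B : Set ℤ, (∀ a ∈ A, ∀ b ∈ B, (2 : ℤ) < |a - b|) →
      IndepFun (fun (x : ℤ → Fin 3) (a : A) => x a)
        (fun (x : ℤ → Fin 3) (b : B) => x b) ν) →
    μ = ν) := by
  intro h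
  obtain ⟨μ, m1, m2, m3, m4, m5⟩ := Pool.Agent.H.MP_341645_pr.exists_col_real (q := 3) 2
    Pool.Agent.H.MP_341645_pr.WN_nonneg (by simp [Pool.Agent.H.MP_341645_pr.WN, Pool.Agent.H.MP_341645_pr.LN])
    Pool.Agent.H.MP_341645_pr.WN_left Pool.Agent.H.MP_341645_pr.WN_right
    Pool.Agent.H.MP_341645_pr.WN_pp Pool.Agent.H.MP_341645_pr.WN_gap
  obtain ⟨ν, n1, n2, n3, n4, n5⟩ := Pool.Agent.H.MP_341645_pr.exists_col_real (q := 3) 2
    (Pool.Agent.H.MP_341645_pr.WH_nonneg (q := 1)) rfl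
    Pool.Agent.H.MP_341645_pr.WH_left Pool.Agent.H.MP_341645_pr.WH_right
    (fun c => Pool.Agent.H.MP_341645_pr.WH_np (q := 1) _ fun e => e.1 rfl)
    (fun x y => Pool.Agent.H.MP_341645_pr.WH_gap3 _ x y rfl)
  have e := h μ ν m1 n1 m2 n2 m3 n3 m4 n4
  have e1 := m5 0 [0, 1, 0]
  rw [e, n5, Pool.Agent.H.MP_341645_pr.WN_010,
    show Pool.Agent.H.MP_341645_pr.WH (q := 1) [0, 1, 0] = 1 / 15 from Pool.Agent.H.MP_341645_pr.WH_010,
    ENNReal.ofReal_eq_ofReal_iff (by norm_num) (by norm_num)] at e1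
  norm_num at e1

end Pool.Agent.S19262
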