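import Pool.Statements.S19285
import Pool.Agent.H.MP_429aeb_pr.B

set_option autoImplicit false
open MeasureTheory ProbabilityTheory
open scoped NNReal
open Pool Pool.MP_429aeb_pr

namespace Pool.Agent.S19285

theorem result :
    ∃ c k₁ k₂ k₃ : ℝ, 0 < c ∧ 0 < k₁ ∧ 0 < k₂ ∧ 0 < k₃ ∧
      ∀ m n : ℕ, m ≤ n → ∀ Abar : Matrix (Fin m) (Fin n) ℝ,
        (∑ i, ∑ j, Abar i j ^ 2) ≤ 1 →
        ∀ σ : ℝ≥0, 0 < σ → σ ≤ 1 → ∀ x : ℝ, 1 < x →
          (Measure.pi (fun _ : Fin m => Measure.pi (fun _ : Fin n => gaussianReal 0 (σ ^ 2))))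
            {G : Fin m → Fin n → ℝ | ∃ j k : Fin m, j ≠ k ∧
              Real.sqrt ((Matrix.isHermitian_mul_conjTranspose_self (Abar + Matrix.of G)).eigenvalues k)
                ≤ Real.sqrt ((Matrix.isHermitian_mul_conjTranspose_self (Abar + Matrix.of G)).eigenvalues j) ∧
              Real.sqrt ((Matrix.isHermitian_mul_conjTranspose_self (Abar + Matrix.of G)).eigenvalues j)
                - Real.sqrt ((Matrix.isHermitian_mul_conjTranspose_self (Abar + Matrix.of G)).eigenvalues k)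
                ≤ Real.sqrt ((Matrix.isHermitian_mul_conjTranspose_self (Abar + Matrix.of G)).eigenvalues k) / x}
            ≤ ENNReal.ofReal (c * (n : ℝ) ^ k₁ * x ^ (-k₂) * (σ : ℝ) ^ (-k₃)) := by
  refine ⟨13, 5, 1 / 2, 1, by norm_num, by norm_num, by norm_num, by norm_num, ?_⟩
  intro m n hmn Abar hA σ hσ hσ1 x hx
  have h := Pool.Agent.H.MP_429aeb_pr.bound hmn Abar hA σ hσ hσ1 x hx
  have e : 13 * (n : ℝ) ^ (5 : ℝ) * x ^ (-(1 / 2 : ℝ)) * (σ : ℝ) ^ (-(1 : ℝ)) =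
      13 * (n : ℝ) ^ 5 * (√x)⁻¹ * (σ : ℝ)⁻¹ := by
    rw [Real.rpow_neg (by linarith), Real.rpow_neg_one, Real.sqrt_eq_rpow]
    norm_cast
  rw [e]
  refine le_trans (measure_mono ?_) h
  rintro G ⟨j, k, hjk, h1, h2⟩
  exact Pool.Agent.H.MP_429aeb_pr.struct (Abar + Matrix.of G) _ j k hjk x hx h1 h2

end Pool.Agent.S19285
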