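import Pool.Statements.S19308
-- import your own Pool.Agent.* helpers here

set_option autoImplicit false
open Filter Topology MeasureTheory Real
open Pool Pool.MP_4e696d_pr

namespace Pool.Agent.S19308

theorem exists_eta : ∃ η : ℝ, 2 < η ∧ η < 3 ∧ Transcendental ℚ η := by
  by_contra h
  push Not at h
  have hsub : Set.Ioo (2 : ℝ) 3 ⊆ {x : ℝ | IsAlgebraic ℚ x} := by
    intro x hx
    have := h x hx.1 hx.2
    simpa [Transcendental] using this
  have hc := (Algebraic.countable ℚ ℝ).mono hsub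
  have h0 := hc.measure_zero (volume : Measure ℝ)
  rw [Real.volume_Ioo] at h0
  norm_num at h0

theorem exists_l : ∃ l : ℕ, Real.log (∫ t in (0 : ℝ)..1, Real.exp (l * Real.cos (2 * π * t)))
    ≤ l - 5 := by
  have hlim : Tendsto (fun l : ℕ => ∫ t in (0 : ℝ)..1,
      Real.exp (l * (Real.cos (2 * π * t) - 1))) atTop (𝓝 (∫ _t in (0 : ℝ)..1, (0 : ℝ))) := by
    refine intervalIntegral.tendsto_integral_filter_of_dominated_convergence (fun _ => 1) ?_ ?_ ?_ ?_
    · exact Eventually.of_forall fun l => Continuous.aestronglyMeasurable (by fun_prop)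
    · refine Eventually.of_forall fun l => Eventually.of_forall fun t _ => ?_
      rw [Real.norm_eq_abs, abs_of_pos (Real.exp_pos _), Real.exp_le_one_iff]
      exact mul_nonpos_of_nonneg_of_nonpos (Nat.cast_nonneg _)
        (by linarith [Real.cos_le_one (2 * π * t)])
    · exact intervalIntegrable_const
    · have hne : ∀ᵐ t : ℝ, t ≠ 1 := by
        have := (Set.countable_singleton (1 : ℝ)).ae_notMem (volume : Measure ℝ)
        simpa using this
      filter_upwards [hne] with t ht1 ht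
      rw [Set.uIoc_of_le zero_le_one] at ht
      have hlt : t < 1 := lt_of_le_of_ne ht.2 ht1
      have hc : Real.cos (2 * π * t) < 1 := by
        refine lt_of_le_of_ne (Real.cos_le_one _) fun e => ?_
        have := (Real.cos_eq_one_iff_of_lt_of_lt (by nlinarith [Real.pi_pos, ht.1])
          (by nlinarith [Real.pi_pos])).1 e
        have h3 : 0 < 2 * π * t := by have := Real.pi_pos; have := ht.1; positivity
        linarith
      exact Real.tendsto_exp_atBot.comp
        (tendsto_natCast_atTop_atTop.atTop_mul_const_of_neg (by linarith))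
  rw [intervalIntegral.integral_zero] at hlim
  obtain ⟨l, hl⟩ := (hlim.eventually (gt_mem_nhds (Real.exp_pos (-5)))).exists
  refine ⟨l, ?_⟩
  have e : (∫ t in (0 : ℝ)..1, Real.exp (l * Real.cos (2 * π * t))) =
      Real.exp l * ∫ t in (0 : ℝ)..1, Real.exp (l * (Real.cos (2 * π * t) - 1)) := by
    rw [← intervalIntegral.integral_const_mul]
    congr 1
    funext t
    rw [← Real.exp_add]
    congr 1
    ring
  have hpos : 0 < ∫ t in (0 : ℝ)..1, Real.exp (l * Real.cos (2 * π * t)) :=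
    intervalIntegral.intervalIntegral_pos_of_pos (Continuous.intervalIntegrable (by fun_prop) _ _)
      (fun t => Real.exp_pos _) zero_lt_one
  rw [Real.log_le_iff_le_exp hpos, e, sub_eq_add_neg, Real.exp_add]
  exact mul_le_mul_of_nonneg_left hl.le (Real.exp_pos _).le

theorem result :
    ¬ (∀ (a : ℕ → ℕ) (η : ℝ), 1 < η → Transcendental ℚ η → (∀ k, 0 < a k) →
      Tendsto (fun k : ℕ => (a (k + 1) : ℝ) / (a k : ℝ)) atTop (𝓝 η) →
      ((∀ F : Set ℝ, IsClosed F →
          limsup (fun n : ℕ => ((((n : ℝ)⁻¹ : ℝ)) : EReal) *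
              ENNReal.log (volume (Set.Icc (0 : ℝ) 1 ∩
                {ω : ℝ | (∑ k ∈ Finset.range n, Real.cos (2 * π * (a k : ℝ) * ω)) / (n : ℝ) ∈ F})))
            atTop
          ≤ - ⨅ x ∈ F, ⨆ l : ℝ,
              (((l * x - Real.log (∫ t in (0 : ℝ)..1, Real.exp (l * Real.cos (2 * π * t)))) : ℝ) : EReal)) ∧
       (∀ G : Set ℝ, IsOpen G →
          - (⨅ x ∈ G, ⨆ l : ℝ,
              (((l * x - Real.log (∫ t in (0 : ℝ)..1, Real.exp (l * Real.cos (2 * π * t)))) : ℝ) : EReal))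
          ≤ liminf (fun n : ℕ => ((((n : ℝ)⁻¹ : ℝ)) : EReal) *
              ENNReal.log (volume (Set.Icc (0 : ℝ) 1 ∩
                {ω : ℝ | (∑ k ∈ Finset.range n, Real.cos (2 * π * (a k : ℝ) * ω)) / (n : ℝ) ∈ G})))
            atTop))) := by
  intro h
  obtain ⟨η, h2, h3, ht⟩ := exists_eta
  obtain ⟨l, hl⟩ := exists_l
  have hη1 : 1 < η := by linarith
  have hpos : ∀ k : ℕ, 0 < ⌊η ^ k⌋₊ := fun k => Nat.floor_pos.2 (one_le_pow₀ hη1.le)
  have hq : Tendsto (fun k : ℕ => (⌊η ^ k⌋₊ : ℝ) / η ^ k) atTop (𝓝 1) :=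
    tendsto_nat_floor_div_atTop.comp (tendsto_pow_atTop_atTop_of_one_lt hη1)
  have hratio : Tendsto (fun k : ℕ => (⌊η ^ (k + 1)⌋₊ : ℝ) / (⌊η ^ k⌋₊ : ℝ)) atTop (𝓝 η) := by
    have h1 := ((hq.comp (tendsto_add_atTop_nat 1)).mul_const η).div hq one_ne_zero
    rw [one_mul, div_one] at h1
    refine h1.congr fun k => ?_
    have a1 : (0 : ℝ) < ⌊η ^ k⌋₊ := by exact_mod_cast hpos k
    have a2 : (0 : ℝ) < η := by linarith
    simp only [Function.comp, Pi.div_apply]
    field_simp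
    ring
  have hx0 : (1 - 1 / ((l : ℝ) + 1)) < Real.cos 0 := by
    rw [Real.cos_zero]
    have : (0 : ℝ) < 1 / ((l : ℝ) + 1) := by positivity
    linarith
  obtain ⟨δ, hδ, hδc⟩ := Metric.eventually_nhds_iff.1
    (Real.continuous_cos.continuousAt.eventually (lt_mem_nhds hx0))
  have key := (h (fun k => ⌊η ^ k⌋₊) η hη1 ht hpos hratio).1 (Set.Ici (1 - 1 / ((l : ℝ) + 1)))
    isClosed_Ici
  set c : ℝ := min 1 (δ / 8) with hc
  have hc0 : 0 < c := lt_min one_pos (by positivity)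
  have hc1 : c ≤ 1 := min_le_left _ _
  have hc2 : c ≤ δ / 8 := min_le_right _ _
  have lower : ((-3 : ℝ) : EReal) ≤ limsup (fun n : ℕ => ((((n : ℝ)⁻¹ : ℝ)) : EReal) *
      ENNReal.log (volume (Set.Icc (0 : ℝ) 1 ∩
        {ω : ℝ | (∑ k ∈ Finset.range n, Real.cos (2 * π * ((⌊η ^ k⌋₊ : ℕ) : ℝ) * ω)) / (n : ℝ) ∈
          Set.Ici (1 - 1 / ((l : ℝ) + 1))}))) atTop := by
    refine le_limsup_of_frequently_le (Eventually.frequently ?_)
    filter_upwards [eventually_ge_atTop 1,
      tendsto_natCast_atTop_atTop.eventually (eventually_ge_atTop (-Real.log c))] with n hn hnc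
    have hn0 : (0 : ℝ) < n := by exact_mod_cast hn
    have h3n : (1 : ℝ) ≤ 3 ^ n := one_le_pow₀ (by norm_num)
    have hsub : Set.Icc (0 : ℝ) (c / 3 ^ n) ⊆ Set.Icc (0 : ℝ) 1 ∩
        {ω : ℝ | (∑ k ∈ Finset.range n, Real.cos (2 * π * ((⌊η ^ k⌋₊ : ℕ) : ℝ) * ω)) / (n : ℝ) ∈
          Set.Ici (1 - 1 / ((l : ℝ) + 1))} := by
      intro ω hω
      refine ⟨⟨hω.1, hω.2.trans ((div_le_self hc0.le h3n).trans hc1)⟩, ?_⟩
      simp only [Set.mem_ofPred_eq, Set.mem_Ici]
      rw [le_div_iff₀ hn0]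
      have hb : ∀ k ∈ Finset.range n, (1 - 1 / ((l : ℝ) + 1)) ≤
          Real.cos (2 * π * ((⌊η ^ k⌋₊ : ℕ) : ℝ) * ω) := by
        intro k hk
        have hk' : k ≤ n := (Finset.mem_range.1 hk).le
        have b1 : ((⌊η ^ k⌋₊ : ℕ) : ℝ) ≤ 3 ^ n :=
          (Nat.floor_le (by positivity)).trans ((pow_le_pow_left₀ (by linarith) h3.le k).trans
            (pow_le_pow_right₀ (by norm_num) hk'))
        have b2 : ((⌊η ^ k⌋₊ : ℕ) : ℝ) * ω ≤ c := by
          have := mul_le_mul b1 hω.2 hω.1 (by positivity)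
          rwa [mul_div_cancel₀ _ (by positivity)] at this
        have b3 : 0 ≤ ((⌊η ^ k⌋₊ : ℕ) : ℝ) * ω := mul_nonneg (Nat.cast_nonneg _) hω.1
        refine (hδc ?_).le
        rw [Real.dist_eq, sub_zero, mul_assoc, abs_of_nonneg (by have := Real.pi_pos; positivity)]
        nlinarith [Real.pi_lt_four, Real.pi_pos]
      have := Finset.sum_le_sum hb
      rw [Finset.sum_const, Finset.card_range, nsmul_eq_mul, mul_comm] at this
      exact this
    have hv := measure_mono (μ := (volume : Measure ℝ)) hsub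
    rw [Real.volume_Icc, sub_zero] at hv
    have hlog := ENNReal.log_monotone hv
    rw [ENNReal.log_ofReal_of_pos (by positivity)] at hlog
    have hm := mul_le_mul_of_nonneg_left hlog
      (show (0 : EReal) ≤ (((n : ℝ)⁻¹ : ℝ) : EReal) by exact_mod_cast (inv_pos.2 hn0).le)
    refine le_trans ?_ hm
    rw [← EReal.coe_mul, EReal.coe_le_coe_iff, Real.log_div hc0.ne' (by positivity), Real.log_pow,
      le_inv_mul_iff₀ hn0]
    have hl3 : Real.log 3 ≤ 2 := by
      have := Real.log_le_sub_one_of_pos (show (0 : ℝ) < 3 by norm_num)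
      linarith
    nlinarith
  have upper : ((4 : ℝ) : EReal) ≤ ⨅ x ∈ Set.Ici (1 - 1 / ((l : ℝ) + 1)), ⨆ l : ℝ,
      (((l * x - Real.log (∫ t in (0 : ℝ)..1, Real.exp (l * Real.cos (2 * π * t)))) : ℝ) :
        EReal) := by
    refine le_iInf₂ fun x hx => le_iSup_of_le (l : ℝ) ?_
    rw [EReal.coe_le_coe_iff]
    have hx' : 1 - 1 / ((l : ℝ) + 1) ≤ x := hx
    have hl0 : (0 : ℝ) ≤ l := Nat.cast_nonneg _
    have a1 := mul_le_mul_of_nonneg_left hx' hl0
    have a2 : (l : ℝ) * (1 / ((l : ℝ) + 1)) ≤ 1 := by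
      rw [mul_one_div, div_le_one (by positivity)]; linarith
    nlinarith
  have fin := (lower.trans key).trans (EReal.neg_le_neg_iff.2 upper)
  rw [← EReal.coe_neg, EReal.coe_le_coe_iff] at fin
  norm_num at fin

end Pool.Agent.S19308
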