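import Pool.Statements.S19311
import Pool.Agent.H.MP_b9fdbf_pr.F

set_option autoImplicit false
open Pool Pool.MP_52a2fa_pr

namespace Pool.Agent.S19311

open MeasureTheory ProbabilityTheory Pool.Agent.H.MP_b9fdbf_pr
open scoped ENNReal NNReal

noncomputable def τ (a : ℝ≥0) : Measure Bool :=
  ENNReal.ofReal (1 - Real.exp (-a)) • Measure.dirac true +
    ENNReal.ofReal (Real.exp (-a)) • Measure.dirac false

instance (a : ℝ≥0) : IsProbabilityMeasure (τ a) := ⟨by
  have : Real.exp (-a) ≤ 1 := Real.exp_le_one_iff.2 (by simp)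
  simp only [τ, Measure.add_apply, Measure.smul_apply, measure_univ, smul_eq_mul, mul_one]
  rw [← ENNReal.ofReal_add (by linarith) (by positivity)]
  simp⟩

lemma τ_ev {ι : Type} (a : ι → ℝ≥0) (i : ι) : Measure.infinitePi (fun i => τ (a i))
    {ω | ω i = true} = ENNReal.ofReal (1 - Real.exp (-a i)) :=
  ((measurePreserving_eval_infinitePi (fun i => τ (a i)) i).measure_preimage (s := {true})
    (MeasurableSet.nullMeasurableSet .of_discrete)).trans (by simp [τ])

lemma law {Ω : Type} [MeasurableSpace Ω] (P : Measure Ω) [IsProbabilityMeasure P]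
    (ξ : V 4 × Finset (V 4) → Ω → Bool) (h1 : ∀ k, Measurable (ξ k)) (h2 : iIndepFun ξ P)
    (a : Finset (V 4) → ℝ≥0)
    (h3 : ∀ k, P {ω | ξ k ω = true} = ENNReal.ofReal (1 - Real.exp (-a k.2))) :
    P {ω | ∃ y : V 4, {z : V 4 | (SimpleGraph.fromRel (fun a b : V 4 =>
      (∃ x : V 4, ∃ A : Finset (V 4), ξ (x, A) ω = true ∧ a - x ∈ A) ∧
      (∃ x : V 4, ∃ A : Finset (V 4), ξ (x, A) ω = true ∧ b - x ∈ A) ∧
      ∑ j : Fin 4, |a j - b j| = 1)).Reachable y z}.Infinite} =
    PP (Measure.infinitePi fun A => τ (a A)) _ (Perc (fun z A => z A = true) Set.univ) := by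
  have h4 : ∀ k, P.map (ξ k) = τ (a k.2) := fun k => by
    have := Measure.isProbabilityMeasure_map (μ := P) (h1 k).aemeasurable
    have e : P.map (ξ k) {true} = τ (a k.2) {true} := by
      rw [Measure.map_apply (h1 k) .of_discrete]
      exact (h3 k).trans (by simp [τ])
    refine Measure.ext_of_singleton fun b => ?_
    cases b
    · rw [show ({false} : Set Bool) = {true}ᶜ by simp, prob_compl_eq_one_sub .of_discrete,
        prob_compl_eq_one_sub .of_discrete, e]
    · exact e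
  have h5 : MeasurePreserving (fun ω k => ξ k ω) P (Measure.infinitePi fun k => τ (a k.2)) :=
    ⟨measurable_pi_lambda _ h1, by rw [h2.map_fun_eq_infinitePi_map h1]; simp only [h4]⟩
  have h6 : MeasurePreserving (MeasurableEquiv.curry (V 4) (Finset (V 4)) Bool) _ _ :=
    ⟨by fun_prop, Measure.infinitePi_map_curry fun _ A => τ (a A)⟩
  rw [← (h6.comp h5).measure_preimage (mPerc (fun A => by measurability) _).nullMeasurableSet]
  congr 1
  ext ω
  refine exists_congr fun y => iff_of_eq (congrArg _ (Set.ext fun z => ?_))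
  rw [Set.mem_ofPred_eq, Set.mem_ofPred_eq, SimpleGraph.reachable_iff_reflTransGen]
  refine iff_of_eq (congrArg (Relation.ReflTransGen · y z) (funext₂ fun p q => propext ?_))
  simp only [SimpleGraph.fromRel_adj, adj_iff, Rl, cov, Set.mem_univ, true_and]
  refine ⟨fun h => h.2.elim id fun h => ⟨h.2.1, h.1, h.2.2.symm⟩, fun h => ⟨?_, Or.inl h⟩⟩
  rintro rfl
  simpa using adj_iff.2 h.2.2

theorem result :
  ∀ (β : ℝ), 1 < β → ∀ (m : ℕ → ℝ), m 0 = 0 → (∀ ℓ, 0 ≤ m ℓ) → HasSum m 1 →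
    (∃ c C : ℝ, 0 < c ∧ 0 < C ∧ ∀ ℓ : ℕ, 1 ≤ ℓ →
        c * ((ℓ : ℝ) ^ (-β)) ≤ m ℓ ∧ m ℓ ≤ C * ((ℓ : ℝ) ^ (-β))) →
    ((∃ v : ℝ, 0 < v ∧
        ∀ (Ω : Type) [MeasurableSpace Ω] (P : MeasureTheory.Measure Ω)
          [MeasureTheory.IsProbabilityMeasure P]
          (ξ : (Fin 4 → ℤ) × Finset (Fin 4 → ℤ) → Ω → Bool),
          (∀ k, Measurable (ξ k)) →
          ProbabilityTheory.iIndepFun ξ P →
          (∀ k : (Fin 4 → ℤ) × Finset (Fin 4 → ℤ),
            P {ω | ξ k ω = true} =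
              ENNReal.ofReal (1 - Real.exp (-(v * ∑' n : ℕ, m (n + 1) *
                (((Finset.univ.filter (fun s : Fin n → Fin 4 × Bool =>
                    (Finset.range (n + 1)).image (fun t : ℕ =>
                      ∑ i ∈ Finset.univ.filter (fun i : Fin n => (i : ℕ) < t),
                        (Pi.single (s i).1 (if (s i).2 then (1 : ℤ) else -1) : Fin 4 → ℤ))
                    = k.2)).card : ℝ) / (8 : ℝ) ^ n))))) →
          P {ω | ∃ y : Fin 4 → ℤ,
              {z : Fin 4 → ℤ |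
                (SimpleGraph.fromRel (fun a b : Fin 4 → ℤ =>
                  (∃ x : Fin 4 → ℤ, ∃ A : Finset (Fin 4 → ℤ), ξ (x, A) ω = true ∧ a - x ∈ A) ∧
                  (∃ x : Fin 4 → ℤ, ∃ A : Finset (Fin 4 → ℤ), ξ (x, A) ω = true ∧ b - x ∈ A) ∧
                  ∑ j : Fin 4, |a j - b j| = 1)).Reachable y z}.Infinite} = 0)
     ↔ 3 ≤ β) := by
  rintro β - m h0 h1 h2 ⟨c, C, hc, hC, h⟩
  generalize hF : (fun (A : Finset (V 4)) (n : ℕ) => Finset.univ.filter
    fun s : Fin n → Fin 4 × Bool => (Finset.range (n + 1)).image (fun t : ℕ =>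
      ∑ i ∈ Finset.univ.filter (fun i : Fin n => (i : ℕ) < t),
        (Pi.single (s i).1 (if (s i).2 then (1 : ℤ) else -1) : Fin 4 → ℤ)) = A) = F
  simp only [congrFun₂ hF]
  have h3 : HasSum (fun n => m (n + 1)) 1 := by simpa [h0] using (hasSum_nat_add_iff' 1).2 h2
  have h4 : ∀ A n, σ 4 (tr n ⁻¹' {A}) = ENNReal.ofReal ((F A n).card / 8 ^ n) := fun A n => by
    rw [σ_tr n A (F A n) fun s => by simp [← hF, Finset.ext_iff, st],
      ENNReal.ofReal_div_of_pos (by positivity), ENNReal.ofReal_pow (by norm_num), div_eq_mul_inv,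
      ENNReal.inv_pow, ← ENNReal.mul_inv (by simp) (by simp)]
    norm_num
  have h5 : ∀ A, 0 ≤ ∑' n, m (n + 1) * ((F A n).card / 8 ^ n) := fun A =>
    tsum_nonneg fun n => mul_nonneg (h1 _) (by positivity)
  have h6 : ∀ A, ν 4 (fun n => ENNReal.ofReal (m (n + 1))) {A} =
      ENNReal.ofReal (∑' n, m (n + 1) * ((F A n).card / 8 ^ n)) := fun A => by
    rw [ν_apply, ENNReal.ofReal_tsum_of_nonneg (fun n => mul_nonneg (h1 _) (by positivity))
      (h3.summable.of_nonneg_of_le (fun n => mul_nonneg (h1 _) (by positivity)) fun n =>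
        mul_le_of_le_one_right (h1 _) (ENNReal.ofReal_le_one.1 (h4 A n ▸ prob_le_one)))]
    simp only [h4, ENNReal.ofReal_mul (h1 _)]
  obtain ⟨q, hq⟩ : ∃ q : Finset (V 4) → ℝ≥0, ∀ A, ∑' n, m (n + 1) * ((F A n).card / 8 ^ n) = q A :=
    ⟨fun A => ⟨_, h5 A⟩, fun _ => rfl⟩
  simp only [hq, ENNReal.ofReal_coe_nnreal] at h6 ⊢
  have key := dich (d := 4) (Or.inr rfl) (fun v => Measure.infinitePi fun A => τ (v * q A))
    (H := fun z A => z A = true) (fun A => by measurability)
    (m := fun n => ENNReal.ofReal (m (n + 1)))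
    (by rw [← ENNReal.ofReal_tsum_of_nonneg (fun n => h1 _) h3.summable, h3.tsum_eq]; simp)
    (fun v A => ?_) (fun v hv => ⟨v, hv, fun T => ?_⟩) (β := β) hc hC fun n => by
      have := h (n + 1) le_add_self
      push_cast at this
      exact ⟨ENNReal.ofReal_le_ofReal this.1, ENNReal.ofReal_le_ofReal this.2⟩
  · rw [show (3 : ℝ) = 1 + (4 : ℕ) / 2 by norm_num, ← key]
    refine ⟨fun ⟨v, hv, H⟩ => ?_, fun ⟨v, hv, H⟩ => ⟨v, hv, fun Ω _ P _ ξ a b c =>
      (law P ξ a b (fun A => v * q A) c).trans H⟩⟩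
    lift v to ℝ≥0 using hv.le
    have a := τ_ev fun k : V 4 × Finset (V 4) => v * q k.2
    have b := iIndepFun_infinitePi (P := fun k : V 4 × Finset (V 4) => τ (v * q k.2))
      (X := fun _ ω => ω) fun _ => measurable_id
    exact ⟨v, hv, (law _ (fun k (ω : V 4 × Finset (V 4) → Bool) => ω k)
      (fun k => measurable_pi_apply k) b (fun A => v * q A) a).symm.trans (H _ _
        (fun k (ω : V 4 × Finset (V 4) → Bool) => ω k) (fun k => measurable_pi_apply k) b a)⟩
  · rw [τ_ev, h6, ← ENNReal.coe_mul, ← ENNReal.ofReal_coe_nnreal]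
    exact ENNReal.ofReal_le_ofReal (by linarith [Real.add_one_le_exp (-(v * q A : ℝ≥0))])
  · rw [show {z : Finset (V 4) → Bool | ∀ A ∈ T, ¬ z A = true} =
      (T : Set (Finset (V 4))).pi fun _ => {false} by ext; simp,
      Measure.infinitePi_pi _ fun _ _ => .of_discrete, ← sum_measure_singleton]
    simp only [h6, ← ENNReal.ofNNReal_finsetSum, ENNReal.coe_toReal, NNReal.coe_sum, Finset.mul_sum,
      ← Finset.sum_neg_distrib, Real.exp_sum]
    rw [ENNReal.ofReal_prod_of_nonneg fun _ _ => (Real.exp_pos _).le]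
    simp [τ]

end Pool.Agent.S19311
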