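import Pool.Statements.S19318
import Pool.Agent.H.MP_53494a_pr.E

set_option autoImplicit false
open Pool Pool.MP_53494a_pr

namespace Pool.Agent.S19318

theorem result :
    ¬ (∃ f : ℕ → ℝ,
    (∀ᶠ m in Filter.atTop, Filter.Tendsto (fun n : ℕ =>
      (∑ π : Fin m → Equiv.Perm (Fin n),
        ((sSup {k : ℕ | ∃ σ : Equiv.Perm (Fin k), ∀ i : Fin m, ∃ e : Fin k ↪o Fin n,
          ∀ a b : Fin k, σ a < σ b ↔ π i (e a) < π i (e b)} : ℕ) : ℝ)) / ((n.factorial : ℝ) ^ m)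
        / (n : ℝ) ^ ((m : ℝ) / (2 * (m : ℝ) - 1))) Filter.atTop (nhds (f m)))
    ∧ Filter.Tendsto f Filter.atTop (nhds 2)) := by
  rintro ⟨f, h1, h2⟩
  obtain ⟨m, ⟨ht, hf⟩, ⟨N, hN, hb⟩, hm⟩ := ((h1.and (h2.eventually (gt_mem_nhds
    (by norm_num : (2 : ℝ) < 2.05)))).and (Pool.Agent.H.MP_53494a_pr.big.and
      (Filter.eventually_ge_atTop 2))).exists
  obtain ⟨n0, h0⟩ := Filter.eventually_atTop.1 (ht.eventually (gt_mem_nhds hf))
  obtain ⟨n, hn, h⟩ := Pool.Agent.H.MP_53494a_pr.final hm hN hb n0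
  exact absurd (h0 n hn) (not_lt.2 h)

end Pool.Agent.S19318
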