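import Pool.Statements.S19323
import Pool.Agent.H.MP_542002_pr.D

set_option autoImplicit false
open Pool Pool.MP_542002_pr

namespace Pool.Agent.S19323
open Pool.Agent.H.MP_542002_pr

theorem result :
    ∀ (V : Type) (G : SimpleGraph V) [G.LocallyFinite] (d : ℕ),
      Infinite V → G.Connected → 3 ≤ d → G.IsRegularOfDegree d →
      (∀ v : V, Filter.limsup
          (fun n : ℕ =>
            ((Nat.card {p : G.Walk v v // p.length = n} : ℝ) / (d : ℝ) ^ n) ^ ((1 : ℝ) / (n : ℝ)))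
          Filter.atTop = 2 * Real.sqrt ((d : ℝ) - 1) / (d : ℝ)) →
      ∃ f : V → ℝ, (∃ C : ℝ, ∀ v, |f v| ≤ C) ∧
        (∀ v, (d : ℝ) * f v = ∑ w ∈ G.neighborFinset v, f w) ∧
        ∃ x y, f x ≠ f y := by
  intro V G _ d hV hc h3 hd hl
  classical
  obtain ⟨q, rfl⟩ : ∃ q, d = q + 1 := ⟨d - 1, by omega⟩
  have q2 : 2 ≤ q := by omega
  have qp : (0 : ℝ) < q := by exact_mod_cast (by omega : 0 < q)
  have e : ((q + 1 : ℕ) : ℝ) - 1 = q := by push_cast; ring
  rw [e] at hl
  set r := Real.sqrt q with hr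
  have r0 : 0 < r := Real.sqrt_pos.2 qp
  have rq : r ^ 2 = q := Real.sq_sqrt qp.le
  obtain ⟨p⟩ : Nonempty V := inferInstance
  obtain ⟨f, f0, hf⟩ := exists_f G hc p (2 * r) (by positivity)
    (summ G hd (by omega) p (2 * r) (by positivity) (hl p))
  by_cases hB : ∀ o, ∃ a, G.Adj o a ∧ r * f o ≤ f a
  · exact degen G hd q2 r0 rq f0 hf p hB
  push Not at hB
  obtain ⟨o, ho⟩ := hB
  have pos : ∀ a, G.Adj o a → 0 < f o - f a / r := fun a ha => by
    rw [sub_pos, div_lt_iff₀' r0]; exact ho a ha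
  refine Dat.main (r := r) (f := f) (o := o)
    (c := ∑ a ∈ G.neighborFinset o, (f o - f a / r)⁻¹) ⟨hd, q2, r0, rq, f0, hf, ?_, ?_⟩ hc
  · exact Finset.sum_nonneg fun a ha => (inv_pos.2 (pos a (by simpa using ha))).le
  · intro a ha
    rw [← div_le_iff₀ (pos a ha), one_div]
    exact Finset.single_le_sum (f := fun a => (f o - f a / r)⁻¹)
      (fun a ha => (inv_pos.2 (pos a (by simpa using ha))).le) (by simpa using ha)

end Pool.Agent.S19323
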