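import Pool.Statements.S19343
import Pool.Agent.H.MP_5bb7da_pr.D

set_option autoImplicit false
open MeasureTheory ProbabilityTheory
open Pool Pool.MP_5bb7da_pr

namespace Pool.Agent.S19343

open H.MP_5bb7da_pr in
theorem result :
    ∃ (Ω : Type) (m : MeasurableSpace Ω) (P : Measure Ω) (X : Ω → Set ℝ),
      IsProbabilityMeasure P ∧
      (∀ ω : Ω, ∀ u v : ℝ, (X ω ∩ Set.Icc u v).Finite) ∧
      (∀ u v : ℝ, Measurable (fun ω : Ω => (X ω ∩ Set.Icc u v).ncard)) ∧
      (∀ t : ℝ, ∀ n : ℕ, ∀ (l r : Fin n → ℝ) (k : Fin n → ℕ),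
        P {ω : Ω | ∀ i : Fin n, (X ω ∩ Set.Icc (l i) (r i)).ncard = k i} =
        P {ω : Ω | ∀ i : Fin n, (X ω ∩ Set.Icc (l i + t) (r i + t)).ncard = k i}) ∧
      (∃ c : ℝ, 0 < c ∧
        Indep
          (⨆ u : ℝ, ⨆ v : ℝ, MeasurableSpace.comap
            (fun ω : Ω => (X ω ∩ Set.Icc u (min v 0)).ncard) (inferInstance : MeasurableSpace ℕ))
          (⨆ u : ℝ, ⨆ v : ℝ, MeasurableSpace.comap
            (fun ω : Ω => (X ω ∩ Set.Icc (max u c) v).ncard) (inferInstance : MeasurableSpace ℕ))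
          P) ∧
      (∃ a b : ℝ, 0 < a ∧ a ≤ b ∧
        ∀ᵐ ω ∂P, (∀ x ∈ X ω, ∀ y ∈ X ω, x ≠ y → a ≤ |x - y|) ∧
          ∀ t : ℝ, (X ω ∩ Set.Icc t (t + b)).Nonempty) := by
  obtain ⟨P, h1, h2⟩ := limit
  refine ⟨E, inferInstance, P, fun f => {s | f.1 s = 0}, inferInstance, fun f u v => ?_,
    fun u v => (N_meas u v).comp measurable_subtype_coe, fun t n l r k => ?_, ⟨18, by norm_num, ?_⟩,
    1, 5, one_pos, by norm_num, ae_of_all _ fun f => ⟨fun x hx y hy => sep f.2 hx hy, fun t => ?_⟩⟩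
  · refine Set.Finite.of_injOn (f := Int.floor) (t := Set.Icc ⌊u⌋ ⌊v⌋)
      (fun x hx => ⟨Int.floor_mono hx.2.1, Int.floor_mono hx.2.2⟩) (fun x hx y hy e => ?_)
      (Set.finite_Icc _ _)
    by_contra h
    exact absurd (sep f.2 hx.1 hy.1 h) (not_le.mpr (Int.abs_sub_lt_one_of_floor_eq_floor e))
  · change (P : Measure E) {f | ∀ i, N (l i) (r i) f.1 = k i} =
      (P : Measure E) {f | ∀ i, N (l i + t) (r i + t) f.1 = k i}
    conv_lhs => rw [← h1 t]
    simp only [N_τ]
    exact Measure.map_apply (τE_cont t).measurable (measurableSet_setOfPred.mpr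
      (Measurable.forall fun i => ((N_meas _ _).comp measurable_subtype_coe).eq_const _))
  · refine indep_of_indep_of_le h2 (iSup₂_le fun u v => Measurable.comap_le ?_)
      (iSup₂_le fun u v => Measurable.comap_le ?_)
    · have := (N_meas u (min v 0)).comp (comap_measurable (m := inferInstance) fun f : E => ρ₁ f)
      refine (congrArg _ (funext fun f => congrArg Set.ncard (Set.ext fun s => ?_))).mp this
      exact and_congr_left fun hs => by simp [ρ₁, min_eq_left (hs.2.trans (min_le_right _ _))]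
    · have := (N_meas (max u 18) v).comp (comap_measurable (m := inferInstance) fun f : E => ρ₂ f)
      refine (congrArg _ (funext fun f => congrArg Set.ncard (Set.ext fun s => ?_))).mp this
      exact and_congr_left fun hs => by simp [ρ₂, max_eq_left ((le_max_right _ _).trans hs.1)]
  · obtain ⟨s, h3, h4⟩ := f.2.2.2 t
    exact ⟨s, h4, h3⟩

end Pool.Agent.S19343
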