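import Pool.Statements.S19358
import Pool.Agent.H.MP_621202_pr.Main

set_option autoImplicit false
open MeasureTheory ProbabilityTheory Filter Topology
open Pool Pool.MP_621202_pr

namespace Pool.Agent.S19358

theorem result :
    ¬ (∀ (d : ℕ) (A : Type) [Fintype A] [MeasurableSpace A] [DiscreteMeasurableSpace A]
    (N : Finset (Fin d → ℤ)) (f : (↥N → A) → ProbabilityMeasure A)
    (κ : Kernel ((Fin d → ℤ) → A) ((Fin d → ℤ) → A)),
    (∀ x : (Fin d → ℤ) → A,
      κ x = Measure.infinitePi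
        (fun k : Fin d → ℤ => ((f (fun v : ↥N => x (k + (v : Fin d → ℤ)))) : Measure A))) →
    (∃ π : Measure ((Fin d → ℤ) → A), IsProbabilityMeasure π ∧
      ∀ μ : Measure ((Fin d → ℤ) → A), IsProbabilityMeasure μ →
        ∀ (S : Finset (Fin d → ℤ)) (a : (Fin d → ℤ) → A),
          Tendsto (fun n : ℕ => ((fun ν : Measure ((Fin d → ℤ) → A) => ν.bind (⇑κ))^[n] μ)
              {x | ∀ k ∈ S, x k = a k})
            atTop (𝓝 (π {x | ∀ k ∈ S, x k = a k}))) →
    (∃ π : Measure ((Fin d → ℤ) → A), IsProbabilityMeasure π ∧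
      ∀ (S : Finset (Fin d → ℤ)) (a : (Fin d → ℤ) → A), ∀ ε : ℝ, 0 < ε →
        ∃ n0 : ℕ, ∀ n : ℕ, n0 ≤ n →
          ∀ μ : Measure ((Fin d → ℤ) → A), IsProbabilityMeasure μ →
            |(((fun ν : Measure ((Fin d → ℤ) → A) => ν.bind (⇑κ))^[n] μ)
                {x | ∀ k ∈ S, x k = a k}).toReal
              - (π {x | ∀ k ∈ S, x k = a k}).toReal| < ε)) := by
  intro h
  open Pool.Agent.H.MP_621202_pr in
  obtain ⟨π, -, h⟩ := h 1 A N f κ κ_eq ⟨K x0, inferInstance, fun μ _ S c => ergodic μ S c⟩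
  open Pool.Agent.H.MP_621202_pr in
  obtain ⟨n, h⟩ := h {e 0} c1 (1 / 4) (by norm_num)
  open Pool.Agent.H.MP_621202_pr in
  have h1 := h (n + 1) (by omega) (Measure.dirac fun i => (decide (i 0 = -(n + 1)), false, false))
    inferInstance
  open Pool.Agent.H.MP_621202_pr in
  have h0 := h (n + 1) (by omega) (Measure.dirac x0) inferInstance
  open Pool.Agent.H.MP_621202_pr in
  erw [val1 n] at h1
  open Pool.Agent.H.MP_621202_pr in
  erw [val0 (n + 1)] at h0
  rw [abs_lt] at h1 h0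
  simp only [ENNReal.toReal_inv, ENNReal.toReal_ofNat, ENNReal.toReal_zero] at h1 h0
  linarith [h1.2, h0.1]

end Pool.Agent.S19358
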