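import Pool.Statements.S19360
import Pool.Agent.H.MP_63bd8a_pr.A

set_option autoImplicit false
open MeasureTheory ProbabilityTheory
open Pool Pool.MP_63bd8a_pr

namespace Pool.Agent.S19360

theorem result :
    ¬ (∀ C : ℝ, 0 < C → ∃ c : ℝ, 0 < c ∧
    ∀ (n : ℕ) (μ : Measure (EuclideanSpace ℝ (Fin n))), IsProbabilityMeasure μ →
      (∀ (g : EuclideanSpace ℝ (Fin n) → ℝ) (L : NNReal),
          ConvexOn ℝ Set.univ g → LipschitzWith L g →
          evariance g μ ≤ ENNReal.ofReal C *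
            ∫⁻ x, (Filter.limsup (fun y => ENNReal.ofReal (|g y - g x| / dist y x))
                    (nhdsWithin x {x}ᶜ)) ^ 2 ∂μ) →
      ∀ f : EuclideanSpace ℝ (Fin n) → ℝ, ConvexOn ℝ Set.univ f → LipschitzWith 1 f →
        ∀ m : ℝ, (1 / 2 : ENNReal) ≤ μ {x | f x ≤ m} → (1 / 2 : ENNReal) ≤ μ {x | m ≤ f x} →
          ∀ t : ℝ, 0 < t → μ {x | f x ≤ m - t} ≤ ENNReal.ofReal (2 * Real.exp (-(c * t)))) := by
  open Pool.Agent.H.MP_63bd8a_pr in
  intro H
  obtain ⟨c, hc, H⟩ := H 3 (by norm_num)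
  open Pool.Agent.H.MP_63bd8a_pr in
  obtain ⟨n, hn, hb⟩ := big c hc
  have hn1 : (1:ℝ) ≤ n := by exact_mod_cast hn
  have half : (1 / 2 : ENNReal) ≤ ENNReal.ofReal (n / (n + 1)) := by
    rw [show (1 / 2 : ENNReal) = ENNReal.ofReal (1 / 2) by
      rw [ENNReal.ofReal_div_of_pos (by norm_num)]; simp]
    refine ENNReal.ofReal_le_ofReal ?_
    rw [div_le_div_iff₀ (by norm_num) (by positivity)]; linarith
  open Pool.Agent.H.MP_63bd8a_pr in
  have := H n (mu n) inferInstance (fun g L hg hL => poin hn hg hL.continuous) (fun x => ‖x‖)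
    convexOn_univ_norm lipschitzWith_one_norm (√n)
    (half.trans ((meas n _ (measurableSet_le (by fun_prop) (by fun_prop))).2
      fun b => (norm_pt b).le))
    (half.trans ((meas n _ (measurableSet_le (by fun_prop) (by fun_prop))).2
      fun b => (norm_pt b).ge))
    (√n) (Real.sqrt_pos.2 (by linarith))
  open Pool.Agent.H.MP_63bd8a_pr in
  have h2 := ((meas n _ (measurableSet_le (by fun_prop) (by fun_prop))).1 (by simp)).trans this
  rw [ENNReal.ofReal_le_ofReal_iff (by positivity)] at h2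
  linarith

end Pool.Agent.S19360
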