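import Pool.Statements.S19361
import Pool.Agent.H.MP_63e314_pr.Reimer

set_option autoImplicit false
open MeasureTheory
open Pool Pool.MP_63e314_pr

namespace Pool.Agent.S19361

open Pool.Agent.H.MP_63e314_pr Filter Topology
open scoped ENNReal

abbrev Om := ℕ → unitInterval

noncomputable abbrev mm : Measure Om :=
  Measure.infinitePi (fun _ : ℕ => (volume : Measure unitInterval))

noncomputable abbrev PP : Measure (Bool × ℕ → unitInterval) :=
  Measure.infinitePi (fun _ : Bool × ℕ => (volume : Measure unitInterval))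

def cyl (U : Set Om) (J : Set ℕ) : Set Om := {ω | ∀ η : Om, (∀ i ∈ J, η i = ω i) → η ∈ U}

lemma isOpen_cyl {U : Set Om} (hU : IsOpen U) (J : Set ℕ) : IsOpen (cyl U J) := by
  classical
  have hc : Continuous (fun p : Om × Om => (fun i => if i ∈ J then p.1 i else p.2 i : Om)) := by
    refine continuous_pi fun i => ?_
    split_ifs <;> fun_prop
  have h1 : IsClosed ((fun p : Om × Om => (fun i => if i ∈ J then p.1 i else p.2 i : Om)) ⁻¹' Uᶜ) :=
    hU.isClosed_compl.preimage hc
  have h2 := isClosedMap_fst_of_compactSpace _ h1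
  rw [← isClosed_compl_iff]
  convert h2 using 1
  ext ω
  simp only [cyl, Set.mem_compl_iff, Set.mem_ofPred_eq, Set.mem_image, Set.mem_preimage,
    Prod.exists, exists_and_right, exists_eq_right]
  constructor
  · intro h
    push Not at h
    obtain ⟨η, h1, h2⟩ := h
    refine ⟨η, ?_⟩
    convert h2 using 2
    funext i
    split_ifs with hi
    · exact (h1 i hi).symm
    · rfl
  · rintro ⟨η, hη⟩ h
    exact hη (h _ fun i hi => by simp [hi])

lemma cyl_fin {U : Set Om} (hU : IsOpen U) {J : Set ℕ} {ω : Om} (h : ω ∈ cyl U J) :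
    ∃ n : ℕ, ω ∈ cyl U (J ∩ Set.Iio n) := by
  by_contra hcon
  push Not at hcon
  let F : ℕ → Set Om := fun n => {η | ∀ i ∈ J ∩ Set.Iio n, η i = ω i} ∩ Uᶜ
  have hcl : ∀ n, IsClosed (F n) := by
    intro n
    refine IsClosed.inter ?_ hU.isClosed_compl
    simp only [Set.ofPred_forall]
    refine isClosed_iInter fun i => isClosed_iInter fun _ => ?_
    exact isClosed_eq (continuous_apply i) continuous_const
  have hne : ∀ n, (F n).Nonempty := by
    intro n
    have := hcon n
    simp only [cyl, Set.mem_ofPred_eq] at this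
    push Not at this
    obtain ⟨η, h1, h2⟩ := this
    exact ⟨η, h1, h2⟩
  have hdec : ∀ n, F (n + 1) ⊆ F n := by
    rintro n η ⟨h1, h2⟩
    exact ⟨fun i hi => h1 i ⟨hi.1, Nat.lt_succ_of_lt hi.2⟩, h2⟩
  obtain ⟨η, hη⟩ := IsCompact.nonempty_iInter_of_sequence_nonempty_isCompact_isClosed F hdec hne
    (hcl 0).isCompact hcl
  rw [Set.mem_iInter] at hη
  exact (hη 0).2 (h η fun i hi => (hη (i + 1)).1 i ⟨hi, Nat.lt_succ_self i⟩)

def DD (U V : Set Om) (n : ℕ) : Set Om :=
  {ω | ∃ J K : Set ℕ, Disjoint J K ∧ J ⊆ Set.Iio n ∧ K ⊆ Set.Iio n ∧ ω ∈ cyl U J ∧ ω ∈ cyl V K}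

lemma isOpen_DD {U V : Set Om} (hU : IsOpen U) (hV : IsOpen V) (n : ℕ) : IsOpen (DD U V n) := by
  rw [isOpen_iff_forall_mem_open]
  rintro ω ⟨J, K, h1, h2, h3, h4, h5⟩
  exact ⟨cyl U J ∩ cyl V K, fun η hη => ⟨J, K, h1, h2, h3, hη.1, hη.2⟩,
    (isOpen_cyl hU J).inter (isOpen_cyl hV K), h4, h5⟩

def ext {n : ℕ} (w : Fin n → Bool) (i : ℕ) : Bool := if h : i < n then w ⟨i, h⟩ else false

def phi (s : ℕ → Bool) (ω : Bool × ℕ → unitInterval) : Om := fun i => ω (s i, i)

lemma measurable_phi (s : ℕ → Bool) : Measurable (phi s) := by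
  unfold phi; fun_prop

lemma phi_meas (s : ℕ → Bool) {S : Set Om} (hS : MeasurableSet S) :
    PP (phi s ⁻¹' S) = mm S := by
  have h := Measure.map_infinitePi_infinitePi_of_inj
    (P := fun _ : Bool × ℕ => (volume : Measure unitInterval))
    (f := fun i : ℕ => (s i, i)) (fun i j h => (Prod.ext_iff.1 h).2)
  rw [← Measure.map_apply (measurable_phi s) hS]
  exact congrArg (fun μ : Measure Om => μ S) h

lemma phi_psi_meas (s : ℕ → Bool) {U V : Set Om} (hU : MeasurableSet U) (hV : MeasurableSet V) :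
    PP (phi s ⁻¹' U ∩ phi (fun i => !s i) ⁻¹' V) = mm U * mm V := by
  let f : Bool × ℕ → Bool × ℕ := fun p => (xor p.1 (s p.2), p.2)
  have hf : Function.Injective f := by
    rintro ⟨a, i⟩ ⟨b, j⟩ h
    obtain ⟨h1, h2⟩ := Prod.ext_iff.1 h
    simp only [f] at h1 h2
    subst h2
    simp only [Prod.mk.injEq, and_true]
    revert h1; cases a <;> cases b <;> cases s i <;> simp
  have h1 := Measure.map_infinitePi_infinitePi_of_inj
    (P := fun _ : Bool × ℕ => (volume : Measure unitInterval)) hf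
  have h2 := Measure.infinitePi_map_curry (fun (_ : Bool) (_ : ℕ) => (volume : Measure unitInterval))
  have h3 := Measure.infinitePi_map_eval_prod (P := fun _ : Bool => mm)
    (i := false) (j := true) (by simp)
  have h4 : (mm.prod mm) (U ×ˢ V) = mm U * mm V := Measure.prod_prod U V
  rw [← h4, ← h3, ← h2, ← h1, Measure.map_map (by fun_prop) (by fun_prop),
    Measure.map_map (by fun_prop) (by fun_prop),
    Measure.map_apply (by fun_prop) (hU.prod hV)]
  congr 1
  ext ω
  have e1 : Function.curry (fun i : Bool × ℕ => ω (i.1 ^^ s i.2, i.2)) false = phi s ω := by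
    funext i; simp [phi, Function.curry]
  have e2 : Function.curry (fun i : Bool × ℕ => ω (i.1 ^^ s i.2, i.2)) true =
      phi (fun i => !s i) ω := by
    funext i; simp [phi, Function.curry]
  simp [f, MeasurableEquiv.curry, e1, e2]

lemma pointwise (U V : Set Om) (n : ℕ) (ω : Bool × ℕ → unitInterval) :
    ∑ w : Fin n → Bool, (phi (ext w) ⁻¹' DD U V n).indicator (1 : (Bool × ℕ → unitInterval) → ℝ≥0∞) ω ≤
    ∑ w : Fin n → Bool,
      (phi (ext w) ⁻¹' U ∩ phi (fun i => !ext w i) ⁻¹' V).indicator (1 : (Bool × ℕ → unitInterval) → ℝ≥0∞) ω := by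
  classical
  have hch : ∀ w : Fin n → Bool, ∃ J : Finset (Fin n), phi (ext w) ω ∈ DD U V n →
      ((∀ y : Fin n → Bool, (∀ i ∈ J, y i = w i) → phi (ext y) ω ∈ U) ∧
       (∀ y : Fin n → Bool, (∀ i, i ∉ J → y i = !w i) → phi (fun i => !ext y i) ω ∈ V)) := by
    intro w
    by_cases hw : phi (ext w) ω ∈ DD U V n
    · obtain ⟨J, K, h1, h2, h3, h4, h5⟩ := hw
      refine ⟨Finset.univ.filter fun i : Fin n => i.1 ∈ J, fun _ => ⟨fun y hy => ?_, fun y hy => ?_⟩⟩
      · refine h4 _ fun i hi => ?_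
        have hin : i < n := h2 hi
        have := hy ⟨i, hin⟩ (by simpa using hi)
        simp [phi, ext, hin, this]
      · refine h5 _ fun i hi => ?_
        have hin : i < n := h3 hi
        have hiJ : i ∉ J := fun h => Set.disjoint_left.1 h1 h hi
        have := hy ⟨i, hin⟩ (by simpa using hiJ)
        simp [phi, ext, hin, this]
    · exact ⟨∅, fun h => absurd h hw⟩
  choose J hJ using hch
  have key := reimer (Finset.univ.filter fun w : Fin n → Bool => phi (ext w) ω ∈ DD U V n)
    (Finset.univ.filter fun w : Fin n → Bool => phi (ext w) ω ∈ U)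
    (Finset.univ.filter fun w : Fin n → Bool => phi (fun i => !ext w i) ω ∈ V) J
    (fun x hx y hy => by
      simp only [Finset.mem_filter, Finset.mem_univ, true_and] at hx ⊢
      exact (hJ x hx).1 y hy)
    (fun x hx y hy => by
      simp only [Finset.mem_filter, Finset.mem_univ, true_and] at hx ⊢
      exact (hJ x hx).2 y hy)
  rw [← Finset.filter_and] at key
  simp only [Set.indicator_apply, Set.mem_preimage, Set.mem_inter_iff, Pi.one_apply,
    Finset.sum_boole]
  exact_mod_cast key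

lemma DD_le {U V : Set Om} (hU : IsOpen U) (hV : IsOpen V) (n : ℕ) :
    mm (DD U V n) ≤ mm U * mm V := by
  have hD := (isOpen_DD hU hV n).measurableSet
  have h1 := lintegral_mono (μ := PP) (pointwise U V n)
  rw [lintegral_finsetSum, lintegral_finsetSum] at h1
  · have e1 : ∀ w : Fin n → Bool,
        ∫⁻ ω, (phi (ext w) ⁻¹' DD U V n).indicator (1 : (Bool × ℕ → unitInterval) → ℝ≥0∞) ω ∂PP = mm (DD U V n) := by
      intro w
      rw [lintegral_indicator_one (measurable_phi _ hD), phi_meas _ hD]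
    have e2 : ∀ w : Fin n → Bool,
        ∫⁻ ω, (phi (ext w) ⁻¹' U ∩ phi (fun i => !ext w i) ⁻¹' V).indicator (1 : (Bool × ℕ → unitInterval) → ℝ≥0∞) ω ∂PP
          = mm U * mm V := by
      intro w
      rw [lintegral_indicator_one ((measurable_phi _ hU.measurableSet).inter
        (measurable_phi _ hV.measurableSet)), phi_psi_meas _ hU.measurableSet hV.measurableSet]
    simp only [e1, e2, Finset.sum_const, Finset.card_univ, nsmul_eq_mul] at h1
    exact (ENNReal.mul_le_mul_iff_right (by simp) (by simp)).1 h1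
  · intro w _
    exact measurable_one.indicator ((measurable_phi _ hU.measurableSet).inter
        (measurable_phi _ hV.measurableSet))
  · intro w _
    exact measurable_one.indicator (measurable_phi _ hD)

def box (A B : Set Om) : Set Om :=
  {ω | ∃ J K : Set ℕ, Disjoint J K ∧ ω ∈ cyl A J ∧ ω ∈ cyl B K}

lemma box_open_le {U V : Set Om} (hU : IsOpen U) (hV : IsOpen V) :
    mm (box U V) ≤ mm U * mm V := by
  have hmono : Monotone (DD U V) := by
    rintro a b hab ω ⟨J, K, h1, h2, h3, h4, h5⟩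
    exact ⟨J, K, h1, h2.trans (Set.Iio_subset_Iio hab), h3.trans (Set.Iio_subset_Iio hab), h4, h5⟩
  have hsub : box U V ⊆ ⋃ n, DD U V n := by
    rintro ω ⟨J, K, h1, h2, h3⟩
    obtain ⟨a, ha⟩ := cyl_fin hU h2
    obtain ⟨b, hb⟩ := cyl_fin hV h3
    refine Set.mem_iUnion.2 ⟨max a b, J ∩ Set.Iio a, K ∩ Set.Iio b,
      h1.mono Set.inter_subset_left Set.inter_subset_left, ?_, ?_, ha, hb⟩
    · exact fun i hi => Set.mem_Iio.2 (lt_of_lt_of_le (Set.mem_Iio.1 hi.2) (le_max_left _ _))
    · exact fun i hi => Set.mem_Iio.2 (lt_of_lt_of_le (Set.mem_Iio.1 hi.2) (le_max_right _ _))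
  refine (measure_mono hsub).trans ?_
  rw [hmono.measure_iUnion]
  exact iSup_le fun n => DD_le hU hV n

lemma box_le (A B : Set Om) : mm (box A B) ≤ mm A * mm B := by
  have h : ∀ ε : ℝ≥0∞, 0 < ε → mm (box A B) ≤ (mm A + ε) * (mm B + ε) := by
    intro ε hε
    obtain ⟨U, hAU, hU, hU'⟩ := A.exists_isOpen_lt_add (μ := mm) (measure_ne_top _ _) hε.ne'
    obtain ⟨V, hBV, hV, hV'⟩ := B.exists_isOpen_lt_add (μ := mm) (measure_ne_top _ _) hε.ne'
    have hsub : box A B ⊆ box U V := by
      rintro ω ⟨J, K, h1, h2, h3⟩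
      exact ⟨J, K, h1, fun η hη => hAU (h2 η hη), fun η hη => hBV (h3 η hη)⟩
    exact (measure_mono hsub).trans ((box_open_le hU hV).trans (mul_le_mul' hU'.le hV'.le))
  have t1 : ∀ a : ℝ≥0∞, Tendsto (fun ε : ℝ≥0∞ => a + ε) (𝓝[>] 0) (𝓝 a) := by
    intro a
    have : Tendsto (fun ε : ℝ≥0∞ => a + ε) (𝓝 0) (𝓝 (a + 0)) :=
      tendsto_const_nhds.add tendsto_id
    rw [add_zero] at this
    exact this.mono_left nhdsWithin_le_nhds
  have t2 : Tendsto (fun ε : ℝ≥0∞ => (mm A + ε) * (mm B + ε)) (𝓝[>] 0) (𝓝 (mm A * mm B)) :=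
    ENNReal.Tendsto.mul (t1 _) (Or.inr (measure_ne_top _ _)) (t1 _) (Or.inr (measure_ne_top _ _))
  exact ge_of_tendsto t2 (eventually_nhdsWithin_of_forall h)

theorem result :
    ∀ A B : Set (ℕ → unitInterval), MeasurableSet A → MeasurableSet B →
      ∃ C : Set (ℕ → unitInterval), MeasurableSet C ∧
        {ω : ℕ → unitInterval | ∃ J K : Set ℕ, Disjoint J K ∧
            (∀ η : ℕ → unitInterval, (∀ i ∈ J, η i = ω i) → η ∈ A) ∧
            (∀ η : ℕ → unitInterval, (∀ i ∈ K, η i = ω i) → η ∈ B)} ⊆ C ∧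
        Measure.infinitePi (fun _ : ℕ => (volume : Measure unitInterval)) C ≤
          Measure.infinitePi (fun _ : ℕ => (volume : Measure unitInterval)) A *
          Measure.infinitePi (fun _ : ℕ => (volume : Measure unitInterval)) B := by
  intro A B _ _
  refine ⟨toMeasurable mm (box A B), measurableSet_toMeasurable _ _,
    subset_toMeasurable mm (box A B), ?_⟩
  rw [measure_toMeasurable]
  exact box_le A B

end Pool.Agent.S19361
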