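import Pool.Statements.S19374
import Pool.Agent.H.MP_65c29d_pr.A

set_option autoImplicit false
open Pool Pool.MP_65c29d_pr

namespace Pool.Agent.S19374

theorem result :
    ¬ (∀ (V : Type) (G : SimpleGraph V),
    G.Connected → (∀ v, (G.neighborSet v).Finite) →
    (∃ o : V, ∃ c : ℝ, 0 < c ∧ ∀ f : V → ℝ, (Function.support f).Finite → f o = 1 →
        c ≤ ∑' p : {p : V × V // G.Adj p.1 p.2}, (f p.1.1 - f p.1.2) ^ 2) →
    ∃ H : G.Subgraph, H.coe.Connected ∧
      (∃ o : H.verts, ∃ c : ℝ, 0 < c ∧ ∀ f : H.verts → ℝ, (Function.support f).Finite → f o = 1 →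
        c ≤ ∑' p : {p : H.verts × H.verts // H.coe.Adj p.1 p.2}, (f p.1.1 - f p.1.2) ^ 2) ∧
      ∃ (x : H.verts → EuclideanSpace ℝ (Fin 3)) (r : H.verts → ℝ),
        (∀ v, 0 < r v) ∧
        (∀ u v, u ≠ v → r u + r v ≤ dist (x u) (x v)) ∧
        (∀ u v, u ≠ v → (H.coe.Adj u v ↔ dist (x u) (x v) = r u + r v))) := by
  intro h
  open Pool.Agent.H.MP_65c29d_pr in
  obtain ⟨H, -, ⟨o, c, hc, hf⟩, x, r, hr, hd, ha⟩ :=
    h V G conn locfin ⟨⟨0, 0⟩, 1, one_pos, trans⟩
  open Pool.Agent.H.MP_65c29d_pr in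
  obtain ⟨N, h0, h1⟩ := fin o.1.1 c hc
  open Pool.Agent.H.MP_65c29d_pr in
  have h2 := recur H x r hr hd ha N
  open Pool.Agent.H.MP_65c29d_pr in
  have h3 := hf (fun v => max (Hm N - Hm v.1.1) 0 / (Hm N - Hm o.1.1))
    (((lev N).finite_toSet.preimage Subtype.val_injective.injOn).subset fun v hv => by
      simp only [Set.mem_preimage, Finset.mem_coe, mem_lev]
      by_contra hn
      exact hv (by simp only; rw [max_eq_right (by linarith [Hm_mono (not_lt.1 hn)]), zero_div]))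
    (by rw [max_eq_left h0.le, div_self h0.ne'])
  simp only [← sub_div, div_pow] at h3
  rw [tsum_div_const, le_div_iff₀ (by positivity)] at h3
  linarith

end Pool.Agent.S19374
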