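import Pool.Statements.S19375
import Pool.Agent.H.MP_65c995_pr.K

set_option autoImplicit false
open MeasureTheory ProbabilityTheory
open Pool Pool.MP_65c995_pr

namespace Pool.Agent.S19375

theorem result :
    ∃ (S : Type) (_ : MetricSpace S) (_ : CompactSpace S) (_ : MeasurableSpace S)
      (_ : BorelSpace S) (Ω : Type) (_ : MeasurableSpace Ω) (μ : MeasureTheory.Measure Ω)
      (X : ℤ → Ω → S) (k : ℤ) (ε : ℝ),
      MeasureTheory.IsProbabilityMeasure μ ∧
      (∀ i, Measurable (X i)) ∧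
      (∀ n : ℤ, μ.map (fun ω (i : ℤ) => X (i + n) ω) = μ.map (fun ω (i : ℤ) => X i ω)) ∧
      (∀ (n : ℤ) (A : Set S), MeasurableSet A →
        MeasureTheory.condExp (⨆ (m : ℤ) (_ : m ≤ n), MeasurableSpace.comap (X m) inferInstance) μ
          (Set.indicator (X (n + 1) ⁻¹' A) (fun _ => (1 : ℝ)))
        =ᵐ[μ] MeasureTheory.condExp (MeasurableSpace.comap (X n) inferInstance) μ
          (Set.indicator (X (n + 1) ⁻¹' A) (fun _ => (1 : ℝ)))) ∧
      0 < k ∧ 0 < ε ∧
      ProbabilityTheory.IndepFun (X 0) (X k) μ ∧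
      ∀ᵐ ω ∂μ, ε ≤ dist (X 0 ω) (X 1 ω) := by
  open Pool.Agent.H.MP_65c995_pr in
  haveI : BorelSpace (S × S) := Prod.borelSpace
  have hP := (cP abs_one).measurable
  letI : MetricSpace S := PiNat.metricSpace
  have hi : ∀ {f : S → ℝ}, Continuous f → (∀ y, 0 ≤ f y) → ∫ y, f y ∂π = 1 →
      ∫⁻ y, ENNReal.ofReal (f y) ∂π = 1 := fun hf h0 h1 => by
    rw [← ofReal_integral_eq_lintegral_ofReal (ci hf) (.of_forall h0), h1, ENNReal.ofReal_one]
  obtain ⟨μ, h1, h2, h3, h4, h5⟩ := chain π (q := fun x y => ENNReal.ofReal (P 1 x y))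
    (ENNReal.measurable_ofReal.comp hP)
    (fun x => hi (cr (cP abs_one) x) (P_ge abs_one x) (P1 abs_one x))
    (fun y => by simp only [P_symm _ y]; exact hi (cr (cP hm) y) (P_ge hm y) (P1 hm y))
    (fun x z => by
      simp only [P_symm _ z, ← ENNReal.ofReal_mul (P_ge abs_one x _)]
      exact hi ((cr (cP abs_one) x).mul (cr (cP hm) z))
        (fun y => mul_nonneg (P_ge abs_one x y) (P_ge hm z y)) (PP x z))
    1 (fun x y h => by
      rw [P_zero x y (PiNat.apply_eq_of_dist_lt (n := 0) (by simpa using h) le_rfl), ENNReal.ofReal_zero])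
  exact ⟨S, inferInstance, inferInstance, inferInstance, inferInstance, ℤ → S, inferInstance, μ,
    fun i w => w i, 2, 1, h1, fun i => measurable_pi_apply i, h2, h3, by norm_num, by norm_num, h4, h5⟩

end Pool.Agent.S19375
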