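import Pool.Statements.S19386

set_option autoImplicit false
open Pool Pool.MP_68c8f2_pr

namespace Pool.Agent.S19386

open MeasureTheory ProbabilityTheory Finset
open scoped ENNReal NNReal

noncomputable def lin (a b : ℕ → ℝ≥0∞) : ℕ → ℝ≥0∞
  | 0 => 0
  | n + 1 => a n * lin a b n + b n

theorem lin_eq (a b : ℕ → ℝ≥0∞) (n : ℕ) : lin a b n =
    ∑ j ∈ range n, ∏ i ∈ range n, (if i < j then 1 else if i = j then b i else a i) := by
  induction n with
  | zero => simp [lin]
  | succ n ih =>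
    rw [lin, ih, sum_range_succ, mul_sum]
    congr 1
    · refine sum_congr rfl fun j hj => ?_
      have := mem_range.1 hj
      rw [prod_range_succ, if_neg (by omega), if_neg (by omega), mul_comm]
    · rw [prod_range_succ, prod_eq_one fun i hi => if_pos (mem_range.1 hi)]
      simp

noncomputable def β : Measure Bool :=
  ((1 / 10 : ℝ≥0) : ℝ≥0∞) • Measure.dirac true + ((9 / 10 : ℝ≥0) : ℝ≥0∞) • Measure.dirac false

theorem lint_β (x y : ℝ≥0) : ∫⁻ b, ((if b = true then x else y : ℝ≥0) : ℝ≥0∞) ∂β =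
    ((1 / 10 * x + 9 / 10 * y : ℝ≥0) : ℝ≥0∞) := by
  simp only [β, lintegral_add_measure, lintegral_smul_measure, lintegral_dirac, smul_eq_mul]
  norm_cast

instance : IsProbabilityMeasure β := ⟨by
  have := lint_β 1 1
  simp only [ite_self, lintegral_const, ENNReal.coe_one, one_mul] at this
  rw [this]; norm_num⟩

abbrev Om := ℕ ⊕ ℕ → Bool

noncomputable def P : Measure Om := Measure.infinitePi fun _ => β

instance : IsProbabilityMeasure P := by unfold P; infer_instance

theorem lint_P (i : ℕ ⊕ ℕ) (f : Bool → ℝ≥0∞) : ∫⁻ ω, f (ω i) ∂P = ∫⁻ b, f b ∂β :=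
  (measurePreserving_eval_infinitePi (fun _ : ℕ ⊕ ℕ => β) i).lintegral_comp
    (measurable_of_countable f)

noncomputable def fa (b : Bool) : ℝ≥0∞ := ((if b = true then 2 else 1 / 4 : ℝ≥0) : ℝ≥0∞)
noncomputable def fb (b : Bool) : ℝ≥0∞ := ((if b = true then 1 else 0 : ℝ≥0) : ℝ≥0∞)

noncomputable def Y (n : ℕ) (ω : Om) : ℝ≥0∞ :=
  lin (fun i => fa (ω (.inr i))) (fun i => fb (ω (.inr i))) n

theorem lint_Y (n : ℕ) : ∫⁻ ω, Y n ω ∂P =
    lin (fun _ => ((17 / 40 : ℝ≥0) : ℝ≥0∞)) (fun _ => ((1 / 10 : ℝ≥0) : ℝ≥0∞)) n := by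
  let g : ℕ → ℕ → Bool → ℝ≥0∞ := fun j i b => if i < j then 1 else if i = j then fb b else fa b
  have hm : ∀ j i, Measurable fun ω : Om => g j i (ω (.inr i)) := fun j i =>
    (measurable_of_countable (g j i)).comp (measurable_pi_apply (Sum.inr i))
  have hi : ∀ j, iIndepFun (fun i (ω : Om) => g j i (ω (.inr i))) P := fun j =>
    (iIndepFun_infinitePi (P := fun _ : ℕ ⊕ ℕ => β)
      (X := fun i => g j (Sum.elim id id i)) (fun _ => measurable_of_countable _)).precomp
      Sum.inr_injective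
  simp only [Y, lin_eq]
  rw [lintegral_finsetSum _ (fun j _ => Finset.measurable_prod _ fun i _ => hm j i)]
  refine sum_congr rfl fun j _ => ?_
  rw [lintegral_prod_eq_prod_lintegral_of_indepFun _ _ (hi j) (hm j)]
  refine prod_congr rfl fun i _ => ?_
  rw [lint_P (.inr i) (g j i)]
  simp only [g]
  split_ifs
  · rw [lintegral_const, measure_univ, one_mul]
  · simp only [fb, lint_β]; norm_num
  · simp only [fa, lint_β]; norm_num

theorem lin_le (n : ℕ) :
    lin (fun _ => ((17 / 40 : ℝ≥0) : ℝ≥0∞)) (fun _ => ((1 / 10 : ℝ≥0) : ℝ≥0∞)) n ≤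
      ((4 / 23 : ℝ≥0) : ℝ≥0∞) := by
  induction n with
  | zero => simp [lin]
  | succ n ih =>
    rw [lin]
    refine le_trans (add_le_add_left (mul_le_mul_right ih _) _) ?_
    norm_cast
    norm_num

noncomputable def SS (n : ℕ) (ω : Om) : ℝ := if ω (.inr n) = true then 7 else 4

noncomputable def UU : ℕ → Om → ℝ
  | 0, _ => 0
  | n + 1, ω => max 0 (UU n ω + SS n ω / ((2 : ℕ) : ℝ) - 3)

noncomputable def VV : ℕ → Om → Fin 2 → ℝ
  | 0, _, _ => 0
  | n + 1, ω, j => max 0 (VV n ω j +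
      (if j = (if VV n ω 0 ≤ VV n ω 1 then 0 else 1) then SS n ω else 0) - 3)

theorem UU_inv (ω : Om) (n : ℕ) : ∃ (z : ℕ) (y : ℝ≥0), UU n ω = z / 2 ∧ Y n ω = y ∧
    (2 : ℝ) ^ z ≤ y + 1 := by
  induction n with
  | zero => exact ⟨0, 0, by simp [UU], by simp [Y, lin], by simp⟩
  | succ n ih =>
    obtain ⟨z, y, h1, h2, h3⟩ := ih
    have hY : Y (n + 1) ω = fa (ω (.inr n)) * y + fb (ω (.inr n)) := by rw [← h2]; rfl
    by_cases hb : ω (.inr n) = true
    · refine ⟨z + 1, 2 * y + 1, ?_, ?_, ?_⟩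
      · rw [UU, h1, SS, if_pos hb, max_eq_right (by push_cast; linarith [Nat.cast_nonneg (α := ℝ) z])]
        push_cast; ring
      · rw [hY]; simp [fa, fb, hb]
      · push_cast; rw [pow_succ]; linarith
    · refine ⟨z - 2, 1 / 4 * y, ?_, ?_, ?_⟩
      · rw [UU, h1, SS, if_neg hb]
        rcases le_total z 2 with h | h
        · have : (z : ℝ) ≤ 2 := by exact_mod_cast h
          rw [max_eq_left (by push_cast; linarith), Nat.sub_eq_zero_of_le h]; simp
        · have : (2 : ℝ) ≤ z := by exact_mod_cast h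
          rw [max_eq_right (by push_cast; linarith), Nat.cast_sub h]; push_cast; ring
      · rw [hY]; simp only [fa, fb, hb]; norm_cast; simp
      · rcases le_total z 2 with h | h
        · rw [Nat.sub_eq_zero_of_le h]; simp
        · obtain ⟨w, rfl⟩ := Nat.exists_eq_add_of_le' h
          rw [pow_add] at h3
          simp only [Nat.add_sub_cancel]
          push_cast; linarith

theorem UU_le (ω : Om) (n : ℕ) : ENNReal.ofReal (UU n ω) ≤ ((1 / 2 : ℝ≥0) : ℝ≥0∞) * Y n ω := by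
  obtain ⟨z, y, h1, h2, h3⟩ := UU_inv ω n
  have h4 : (z : ℝ) + 1 ≤ 2 ^ z := by exact_mod_cast Nat.lt_two_pow_self
  rw [h1, h2, ← ENNReal.coe_mul, ENNReal.ofReal_le_coe]
  push_cast; linarith

theorem VV_ge (ω : Om) : fb (ω (.inr 0)) ≤ ENNReal.ofReal (⨅ j, VV 2 ω j) := by
  by_cases hb : ω (.inr 0) = true
  · simp only [fb, hb, if_true, ENNReal.coe_one, ENNReal.one_le_ofReal]
    refine le_ciInf fun j => ?_
    have h0 : VV 1 ω 0 = 4 := by simp [VV, SS, hb]; norm_num
    have h1 : VV 1 ω 1 = 0 := by simp [VV]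
    have hs : 4 ≤ SS 1 ω := by unfold SS; split_ifs <;> norm_num
    refine le_trans ?_ (le_max_right _ _)
    rw [h0, h1, if_neg (by norm_num : ¬ (4 : ℝ) ≤ 0)]
    fin_cases j
    · simp [h0]; norm_num
    · simp [h1]; linarith
  · simp [fb, hb]

theorem result :
    ¬ (∀ (k : ℕ), 1 ≤ k →
  ∀ (Ω : Type) [MeasurableSpace Ω] (μ : MeasureTheory.Measure Ω)
    [MeasureTheory.IsProbabilityMeasure μ]
    (T S : ℕ → Ω → ℝ),
    (∀ n, Measurable (T n)) → (∀ n, Measurable (S n)) →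
    ProbabilityTheory.iIndepFun (fun i : ℕ ⊕ ℕ => Sum.elim T S i) μ →
    (∀ n, ProbabilityTheory.IdentDistrib (T n) (T 0) μ μ) →
    (∀ n, ProbabilityTheory.IdentDistrib (S n) (S 0) μ μ) →
    (∀ n ω, 0 ≤ T n ω) → (∀ n ω, 0 ≤ S n ω) →
    MeasureTheory.Integrable (T 0) μ → MeasureTheory.Integrable (S 0) μ →
    (∫ ω, S 0 ω ∂μ) < (k : ℝ) * ∫ ω, T 0 ω ∂μ →
    ∀ (V : ℕ → Ω → Fin k → ℝ) (U : ℕ → Ω → ℝ),
    (∀ ω j, V 0 ω j = 0) →
    (∀ n ω, ∃ i : Fin k, (∀ j, V n ω i ≤ V n ω j) ∧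
      ∀ j, V (n + 1) ω j = max 0 (V n ω j + (if j = i then S n ω else 0) - T n ω)) →
    (∀ ω, U 0 ω = 0) →
    (∀ n ω, U (n + 1) ω = max 0 (U n ω + S n ω / (k : ℝ) - T n ω)) →
    (⨆ n, ∫⁻ ω, ENNReal.ofReal (⨅ j, V n ω j) ∂μ) ≤
      ⨆ n, ∫⁻ ω, ENNReal.ofReal (U n ω) ∂μ) := by
  intro H
  have hS : ∀ n, Measurable (SS n) := fun n =>
    (measurable_of_countable fun b : Bool => if b = true then (7 : ℝ) else 4).comp
      (measurable_pi_apply _)
  have hS7 : ∀ n ω, 0 ≤ SS n ω ∧ SS n ω ≤ 4 + 3 * (fb (ω (.inr n))).toReal := by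
    intro n ω
    unfold SS fb
    split_ifs <;> norm_num
  have hlaw : ∀ n, P.map (SS n) = β.map fun b : Bool => if b = true then (7 : ℝ) else 4 := by
    intro n
    rw [← Measure.infinitePi_map_eval (fun _ : ℕ ⊕ ℕ => β) (.inr n)]
    exact (Measure.map_map (measurable_of_countable fun b : Bool => if b = true then (7 : ℝ) else 4)
      (measurable_pi_apply (Sum.inr n))).symm
  have hint : Integrable (SS 0) P := Integrable.of_bound (hS 0).aestronglyMeasurable 7
    (Filter.Eventually.of_forall fun ω => by unfold SS; split_ifs <;> norm_num)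
  have key := H 2 (by norm_num) Om P (fun _ _ => 3) SS (fun _ => measurable_const) hS ?_
    (fun _ => IdentDistrib.refl aemeasurable_const)
    (fun n => ⟨(hS n).aemeasurable, (hS 0).aemeasurable, (hlaw n).trans (hlaw 0).symm⟩)
    (fun _ _ => by norm_num) (fun n ω => (hS7 n ω).1) (integrable_const _) hint ?_ VV UU
    (fun _ _ => rfl) ?_ (fun _ => rfl) (fun _ _ => rfl)
  · have h1 : ((1 / 10 : ℝ≥0) : ℝ≥0∞) ≤ ⨆ n, ∫⁻ ω, ENNReal.ofReal (⨅ j, VV n ω j) ∂P := by
      refine le_trans ?_ (le_iSup _ 2)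
      refine le_trans ?_ (lintegral_mono VV_ge)
      rw [lint_P (.inr 0) fb]
      simp only [fb, lint_β]; norm_num
    have h2 : ⨆ n, ∫⁻ ω, ENNReal.ofReal (UU n ω) ∂P ≤ ((2 / 23 : ℝ≥0) : ℝ≥0∞) := by
      refine iSup_le fun n => le_trans (lintegral_mono fun ω => UU_le ω n) ?_
      rw [lintegral_const_mul' _ _ ENNReal.coe_ne_top, lint_Y]
      refine le_trans (mul_le_mul_right (lin_le n) _) ?_
      norm_cast
      norm_num
    have h3 := h1.trans (key.trans h2)
    rw [ENNReal.coe_le_coe, ← NNReal.coe_le_coe] at h3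
    norm_num at h3
  · have := iIndepFun_infinitePi (P := fun _ : ℕ ⊕ ℕ => β)
      (X := fun i => Sum.elim (fun _ _ => (3 : ℝ))
        (fun _ (b : Bool) => if b = true then (7 : ℝ) else 4) i) (fun _ => measurable_of_countable _)
    convert this using 2 with i
    · cases i <;> rfl
    · rfl
  · have : ∫ ω, SS 0 ω ∂P = ∫ x, x ∂(P.map (SS 0)) :=
      (integral_map (hS 0).aemeasurable aestronglyMeasurable_id).symm
    rw [this, hlaw, integral_map (f := fun x : ℝ => x) (measurable_of_countable _).aemeasurable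
      aestronglyMeasurable_id, β, integral_add_measure
      ((Integrable.of_finite (μ := Measure.dirac true)).smul_measure ENNReal.coe_ne_top)
      ((Integrable.of_finite (μ := Measure.dirac false)).smul_measure ENNReal.coe_ne_top)]
    simp only [integral_smul_measure, integral_dirac, integral_const]
    norm_num
  · intro n ω
    refine ⟨if VV n ω 0 ≤ VV n ω 1 then 0 else 1, fun j => ?_, fun j => rfl⟩
    split_ifs with h
    · fin_cases j <;> simp [h]
    · fin_cases j <;> simp [le_of_not_ge h]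

end Pool.Agent.S19386
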