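import Pool.Statements.S19424
import Pool.Agent.H.MP_798553_pr.Main

set_option autoImplicit false
open MeasureTheory Filter Topology
open Pool Pool.MP_798553_pr

namespace Pool.Agent.S19424

theorem result :
    ¬ (∀ (d q : ℕ) (N : Finset (Fin d → ℤ)) (f : (N → Fin q) → Fin q)
    (F : ((Fin d → ℤ) → Fin q) → ((Fin d → ℤ) → Fin q)),
    (∀ x i, F x i = f (fun v => x (i + v.1))) →
    (∃ n : ℕ, ∃ a : Fin q, ∀ x, F^[n] x = fun _ => a) →
    ∀ θ : Fin q → PMF (Fin q), (∀ a b, θ a b ≠ 0) →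
    ∃ ν : Measure ((Fin d → ℤ) → Fin q), IsProbabilityMeasure ν ∧
      ∀ μ : Measure ((Fin d → ℤ) → Fin q), IsProbabilityMeasure μ →
        ∀ (S : Finset (Fin d → ℤ)) (c : (Fin d → ℤ) → Fin q),
          Tendsto (fun n : ℕ =>
              ((fun m : Measure ((Fin d → ℤ) → Fin q) =>
                  m.bind (fun x => Measure.infinitePi
                    (fun i : Fin d → ℤ => (θ (F x i)).toMeasure)))^[n] μ)
                {y | ∀ i ∈ S, y i = c i})
            atTop (𝓝 (ν {y | ∀ i ∈ S, y i = c i}))) := by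
  intro h
  open Pool.Agent.H.MP_798553_pr in
  obtain ⟨ν, hν, h⟩ := h 2 3 N f F (fun _ _ => rfl) ⟨2, 0, nilp⟩ θ θ_ne
  open Pool.Agent.H.MP_798553_pr in
  apply final ν
  intro c
  by_cases hc : c = 1
  · subst hc
    exact le_of_tendsto' (h (Measure.dirac fun _ => 0) inferInstance {0} fun _ => 1)
      Pool.Agent.H.MP_798553_pr.zeros
  · exact le_of_tendsto' (h (Measure.dirac fun _ => 1) inferInstance {0} fun _ => c)
      (Pool.Agent.H.MP_798553_pr.ones c hc)

end Pool.Agent.S19424
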