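import Pool.Statements.S19425
-- import your own Pool.Agent.* helpers here
import Pool.Agent.H.MP_79a0fa_pr.B

set_option autoImplicit false
open MeasureTheory
open Pool Pool.MP_79a0fa_pr

namespace Pool.Agent.S19425

theorem result :
  ∀ (μ : MeasureTheory.Measure ℝ) (a σ : ℝ) (W : ℝ → ℝ),
    μ (Set.Ici 0) = 0 →
    ∫⁻ x, ENNReal.ofReal (min 1 (x ^ 2)) ∂μ < ⊤ →
    σ ≠ 0 →
    ContinuousOn W (Set.Ioi 0) →
    (∃ β₀ : ℝ, ∀ β : ℝ, β₀ < β →
      MeasureTheory.IntegrableOn (fun x => Real.exp (-(β * x)) * W x) (Set.Ioi 0) ∧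
      ∫ x in Set.Ioi (0 : ℝ), Real.exp (-(β * x)) * W x =
        1 / (-(a * β) + σ ^ 2 * β ^ 2 / 2 +
          ∫ x, (Real.exp (β * x) - 1 - (Set.Ioi (-1 : ℝ)).indicator (fun y => β * y) x) ∂μ)) →
    ∀ k : ℕ,
      (ContDiffOn ℝ (((k + 3 : ℕ) : ℕ∞) : WithTop ℕ∞) W (Set.Ioi 0) ↔
        ContDiffOn ℝ (((k : ℕ) : ℕ∞) : WithTop ℕ∞) (fun y => (μ (Set.Iio (-y))).toReal) (Set.Ioi 0)) := by
  intro μ a σ W h0 h1 hσ cW ⟨B, hB⟩ k
  have e : ∀ β : ℝ, (fun x => Real.exp (-(β * x)) * (Set.Ioi 0).indicator W x) =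
      (Set.Ioi 0).indicator fun x => Real.exp (-(β * x)) * W x := fun β => by
    funext x
    simp only [Set.indicator]
    split_ifs <;> simp
  have hW := Pool.Agent.H.MP_79a0fa_pr.fin h0 h1 a (σ ^ 2 / 2) (by positivity)
    ((Set.Ioi 0).indicator W) ⟨fun x hx => Set.indicator_of_notMem (by simpa using hx) _,
      (Filter.eventually_gt_atTop B).mono fun β h => by
        rw [e, MeasureTheory.integrable_indicator_iff measurableSet_Ioi,
          MeasureTheory.integral_indicator measurableSet_Ioi, (hB β h).2]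
        exact ⟨(hB β h).1, by ring_nf⟩⟩
    (cW.congr fun x hx => Set.indicator_of_mem hx _) k
  rw [contDiffOn_congr fun x hx => Set.indicator_of_mem hx _] at hW
  exact hW

end Pool.Agent.S19425
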