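import Pool.Statements.S19444
import Pool.Agent.H.MP_85987b_pr.A

set_option autoImplicit false
open Filter Topology
open Pool Pool.MP_85987b_pr

namespace Pool.Agent.S19444

open Pool.Agent.H.MP_85987b_pr in
theorem result :
    ¬ (∀ (m : ℕ), 2 ≤ m → ∀ p : ℕ → ℕ → ℝ,
      (∀ k, 0 ≤ p 0 k) → HasSum (p 0) 1 →
      (∀ n k, p (n + 1) k =
          (∑ x : Fin m → Fin (k + 2),
              if (∑ i, (x i : ℕ)) = k + 1 then ∏ i, p n (x i) else 0)
          + (if k = 0 then p n 0 ^ m else 0)) →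
      Summable (fun k : ℕ => p 0 k * (m : ℝ) ^ k) →
      Summable (fun k : ℕ => (k : ℝ) * p 0 k * (m : ℝ) ^ k) →
      ((m : ℝ) - 1) * (∑' k : ℕ, (k : ℝ) * p 0 k * (m : ℝ) ^ k)
          = ∑' k : ℕ, p 0 k * (m : ℝ) ^ k →
      0 < p 0 0 →
      ∀ s : ℝ, 0 < s → s < (m : ℝ) → s ≠ 1 →
        Tendsto
          (fun n : ℕ =>
            ((∑' k : ℕ, p n k * s ^ k) - 1) /
              (4 * (m : ℝ) / (((m : ℝ) - 1) ^ 2) * ((s - 1) / ((m : ℝ) - s)) / ((n : ℝ) ^ 2)))
          atTop (𝓝 1)) := by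
  intro h
  obtain ⟨p, p0, p1, p2, ⟨a, a1, a2⟩, p3⟩ := main
  have t := h 2 le_rfl (fun n => T^[n] p) p0 p1
    (fun n k => by rw [Function.iterate_succ_apply', T_fin]) a1.summable a2.summable
    (by simp only [Function.iterate_zero, id, Nat.cast_ofNat, a1.tsum_eq, a2.tsum_eq]; norm_num)
    p2 (1 / 2) (by norm_num) (by norm_num) (by norm_num)
  obtain ⟨n, n1, n2, n3⟩ := (p3.and_eventually ((t.eventually_const_lt
    (show (1 / 2 : ℝ) < 1 by norm_num)).and (eventually_gt_atTop 0))).exists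
  have g : ∀ n, (∀ k, 0 ≤ T^[n] p k) ∧ Summable (T^[n] p) := fun n => by
    induction n with
    | zero => exact ⟨p0, p1.summable⟩
    | succ n ih => rw [Function.iterate_succ_apply']; exact ⟨T_nn ih.1, T_sum ih.2⟩
  have u := (Summable.of_nonneg_of_le (f := T^[n] p) (g := fun k => T^[n] p k * (1 / 2) ^ k)
    (fun k => mul_nonneg ((g n).1 k) (by positivity)) (fun k => mul_le_of_le_one_right
      ((g n).1 k) (pow_le_one₀ (by norm_num) (by norm_num))) (g n).2).le_tsum 0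
    fun k _ => mul_nonneg ((g n).1 k) (by positivity)
  have n0 : (0:ℝ) < (n:ℝ) ^ 2 := by positivity
  rw [div_div_eq_mul_div, lt_div_iff_of_neg (by norm_num)] at n2
  norm_num at n2 u
  nlinarith

end Pool.Agent.S19444
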