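import Pool.Statements.S19457
-- import your own Pool.Agent.* helpers here
import Pool.Agent.H.MP_897d6b_pr.B

set_option autoImplicit false
open Pool Pool.MP_897d6b_pr

namespace Pool.Agent.S19457

theorem result :
    ∀ f : ℝ → ℝ, (∀ x, 0 ≤ f x) → MeasureTheory.Integrable f → (∫ x, f x) = 1 →
      (∀ x y t : ℝ, 0 ≤ t → t ≤ 1 →
        f x ^ t * f y ^ (1 - t) ≤ f (t * x + (1 - t) * y)) →
      Real.exp (2 * ∫ z, Real.negMulLog (∫ y, f (z + y) * f y)) /
          (2 * Real.pi * Real.exp 1)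
        ≤ 4 * (Real.exp (2 * ∫ x, Real.negMulLog (f x)) / (2 * Real.pi * Real.exp 1)) := by
  intro f h0 hi h1 h
  have m := Pool.Agent.H.MP_897d6b_pr.main h0 hi h1 h
  rw [← mul_div_assoc]
  refine div_le_div_of_nonneg_right ?_ (by positivity)
  have e : (4 : ℝ) = Real.exp (2 * Real.log 2) := by
    rw [mul_comm, Real.exp_mul, Real.exp_log (by norm_num)]; norm_num
  rw [e, ← Real.exp_add]
  exact Real.exp_le_exp.mpr (by linarith)

end Pool.Agent.S19457
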