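import Pool.Statements.S19470
import Pool.Agent.H.MP_8e1c75_pr.A

set_option autoImplicit false
open Pool Pool.MP_8e1c75_pr

namespace Pool.Agent.S19470

open Pool.Agent.H.MP_8e1c75_pr

set_option maxRecDepth 100000 in
theorem result :
    ¬ (∀ (V : Type) [Fintype V] [DecidableEq V] (G : SimpleGraph V) [DecidableRel G.Adj]
    (A : Finset V),
    (∀ v w : V, G.Adj v w → (v ∈ A ↔ w ∉ A)) →
    ∀ (q : ℕ), 3 ≤ q → ∀ (c : Fin q) (X Y : Finset V → ℝ), Monotone X → Monotone Y →
    (((Finset.univ : Finset (V → Fin q)).filter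
          (fun f => ∀ v w : V, G.Adj v w → f v ≠ f w)).card : ℝ) *
      (∑ f ∈ (Finset.univ : Finset (V → Fin q)).filter
          (fun f => ∀ v w : V, G.Adj v w → f v ≠ f w),
        X (A.filter (fun v => f v = c)) * Y (A.filter (fun v => f v = c)))
    ≥ (∑ f ∈ (Finset.univ : Finset (V → Fin q)).filter
          (fun f => ∀ v w : V, G.Adj v w → f v ≠ f w),
        X (A.filter (fun v => f v = c))) *
      (∑ f ∈ (Finset.univ : Finset (V → Fin q)).filter
          (fun f => ∀ v w : V, G.Adj v w → f v ≠ f w),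
        Y (A.filter (fun v => f v = c)))) := by
  classical
  intro H
  let X : Fin 7 → Finset V → ℝ := fun a S =>
    if ∀ i : Fin 200, none ∈ S ∧ some (i, a) ∈ S then 1 else 0
  have hX : ∀ a, Monotone (X a) := by
    intro a S T hST
    simp only [X]
    split_ifs with h1 h2
    · exact le_rfl
    · exact absurd (fun i => ⟨hST (h1 i).1, hST (h1 i).2⟩) h2
    · exact zero_le_one
    · exact le_rfl
  have h := H V G A bip 3 le_rfl 0 (X 0) (X 3) (hX 0) (hX 3)
  have hA0 : (none : V) ∈ A := by simp [A, sideA, pr]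
  have hA1 : ∀ i : Fin 200, (some (i, 0) : V) ∈ A := by intro i; simp [A, sideA, pr]
  have hA3 : ∀ i : Fin 200, (some (i, 3) : V) ∈ A := by intro i; simp [A, sideA, pr]
  have e0 := count P (fun f : V → Fin 3 => ∀ v w : V, G.Adj v w → f v ≠ f w) proper_iff
  have e1 := count (fun c g => P c g ∧ c = 0 ∧ g 0 = 0)
    (fun f : V → Fin 3 => (∀ v w : V, G.Adj v w → f v ≠ f w) ∧
      ∀ i : Fin 200, f none = 0 ∧ f (some (i, 0)) = 0)
    (fun f => by rw [proper_iff, ← forall_and])
  have e2 := count (fun c g => P c g ∧ c = 0 ∧ g 3 = 0)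
    (fun f : V → Fin 3 => (∀ v w : V, G.Adj v w → f v ≠ f w) ∧
      ∀ i : Fin 200, f none = 0 ∧ f (some (i, 3)) = 0)
    (fun f => by rw [proper_iff, ← forall_and])
  have e3 := count (fun c g => P c g ∧ c = 0 ∧ g 0 = 0 ∧ g 3 = 0)
    (fun f : V → Fin 3 => (∀ v w : V, G.Adj v w → f v ≠ f w) ∧
      ∀ i : Fin 200, f none = 0 ∧ f (some (i, 0)) = 0 ∧ f (some (i, 3)) = 0)
    (fun f => by rw [proper_iff, ← forall_and])
  simp only [c0, c1, c2, c3] at e0 e1 e2 e3
  have x0 : ∀ f : V → Fin 3, X 0 (A.filter (fun v => f v = 0)) =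
      if ∀ i : Fin 200, f none = 0 ∧ f (some (i, 0)) = 0 then 1 else 0 := by
    intro f
    simp only [X, Finset.mem_filter, hA0, hA1, true_and]
  have x3 : ∀ f : V → Fin 3, X 3 (A.filter (fun v => f v = 0)) =
      if ∀ i : Fin 200, f none = 0 ∧ f (some (i, 3)) = 0 then 1 else 0 := by
    intro f
    simp only [X, Finset.mem_filter, hA0, hA3, true_and]
  have x03 : ∀ f : V → Fin 3, X 0 (A.filter (fun v => f v = 0)) * X 3 (A.filter (fun v => f v = 0)) =
      if ∀ i : Fin 200, f none = 0 ∧ f (some (i, 0)) = 0 ∧ f (some (i, 3)) = 0 then 1 else 0 := by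
    intro f
    rw [x0, x3]
    by_cases h3 : ∀ i : Fin 200, f none = 0 ∧ f (some (i, 0)) = 0 ∧ f (some (i, 3)) = 0
    · rw [if_pos h3, if_pos (fun i => ⟨(h3 i).1, (h3 i).2.1⟩),
        if_pos (fun i => ⟨(h3 i).1, (h3 i).2.2⟩), one_mul]
    · rw [if_neg h3]
      by_cases h1 : ∀ i : Fin 200, f none = 0 ∧ f (some (i, 0)) = 0
      · rw [if_neg (fun h2 : ∀ i : Fin 200, f none = 0 ∧ f (some (i, 3)) = 0 =>
          h3 fun i => ⟨(h1 i).1, (h1 i).2, (h2 i).2⟩), mul_zero]
      · rw [if_neg h1, zero_mul]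
  simp only [x03] at h
  simp only [x0, x3, Finset.sum_boole, Finset.filter_filter] at h
  rw [e0, e1, e2, e3] at h
  simp only [Fin.sum_univ_three] at h
  norm_num at h

end Pool.Agent.S19470
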