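import Pool.Statements.S19482
import Pool.Agent.H.MP_925b40_pr.Main

set_option autoImplicit false
open MeasureTheory
open Pool Pool.MP_925b40_pr

namespace Pool.Agent.S19482
open Pool.Agent.H.MP_925b40_pr

theorem result :
    ¬ (∀ μ : @Measure C(NNReal, UnitAddCircle) (borel C(NNReal, UnitAddCircle)),
      IsProbabilityMeasure μ →
      (∀ᵐ (f : C(NNReal, UnitAddCircle)) ∂μ, LipschitzWith 1 (⇑f) ∧ f 0 = 0) →
      (∫⁻ ω₁ : ℕ → Bool,
          (∫⁻ ω₂ : ℕ → Bool,
              (∫⁻ a : UnitAddCircle,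
                ⨅ (τ : NNReal)
                  (_ : a + (((∑ j ∈ Finset.range ⌊2 * (τ : ℝ)⌋₊,
                              (if ω₁ j then (1 / 2 : ℝ) else -1 / 2))
                            + (if ω₁ ⌊2 * (τ : ℝ)⌋₊ then (1 : ℝ) else -1)
                              * ((τ : ℝ) - (⌊2 * (τ : ℝ)⌋₊ : ℝ) / 2) : ℝ) : UnitAddCircle)
                      = (((∑ j ∈ Finset.range ⌊2 * (τ : ℝ)⌋₊,
                              (if ω₂ j then (1 / 2 : ℝ) else -1 / 2))
                            + (if ω₂ ⌊2 * (τ : ℝ)⌋₊ then (1 : ℝ) else -1)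
                              * ((τ : ℝ) - (⌊2 * (τ : ℝ)⌋₊ : ℝ) / 2) : ℝ) : UnitAddCircle)),
                  ((τ : ENNReal)))
            ∂(Measure.infinitePi (fun _ : ℕ => (PMF.uniformOfFintype Bool).toMeasure)))
        ∂(Measure.infinitePi (fun _ : ℕ => (PMF.uniformOfFintype Bool).toMeasure)))
      ≤ ∫⁻ (f : C(NNReal, UnitAddCircle)), (∫⁻ (g : C(NNReal, UnitAddCircle)),
            (∫⁻ a : UnitAddCircle,
              ⨅ (τ : NNReal) (_ : a + f τ = g τ), ((τ : ENNReal))) ∂μ) ∂μ) := by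
  intro h
  obtain ⟨μ, h1, h2, h3⟩ := upper
  have h4 := (h μ h1 h2).trans h3
  refine absurd (le_trans (le_trans lower3.ge ?_) h4) ?_
  · refine lintegral_mono fun ω₁ => lintegral_mono fun ω₂ => lower2 ω₁ ω₂ _ fun N hN a ha => ?_
    refine le_iInf fun τ => le_iInf fun he => ?_
    rw [← ENNReal.ofReal_coe_nnreal]
    exact ENNReal.ofReal_le_ofReal (lower ω₁ ω₂ N hN a ha τ τ.2 he)
  · rw [ENNReal.ofReal_le_ofReal_iff (by norm_num)]
    norm_num

end Pool.Agent.S19482
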