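import Pool.Statements.S19489
import Pool.Agent.H.MP_f07634_pr.C

set_option autoImplicit false
open Classical
open Pool Pool.MP_9492fd_pr

namespace Pool.Agent.S19489

theorem result :
    ∀ n : ℕ, ∀ π : Equiv.Perm (Fin n) → ℝ,
      (∀ σ, 0 ≤ π σ) →
      (∑ σ, π σ) = 1 →
      (∀ σ : Equiv.Perm (Fin n),
        (∑ k : Fin n, (if σ (finRotate n k) < σ k then π σ else 0)) =
          ∑ k : Fin n, (if σ k < σ (finRotate n k)
            then π (σ * Equiv.swap k (finRotate n k)) else 0)) →
      ∀ r : ℕ, r ≤ n →
      ∀ i : Fin r → Fin n,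
        (∀ a b : Fin r, a.val + 1 = b.val → (i a).val + 1 < (i b).val) →
        (∑ σ ∈ Finset.univ.filter
            (fun σ : Equiv.Perm (Fin n) =>
              ∀ p : Fin n, ∀ a : Fin r, p.val = a.val → σ p = i a),
          π σ) = 1 / (n : ℝ) ^ r := by
  intro n π h0 h1 hπ r
  induction r with
  | zero => intro _ i _; simpa using h1
  | succ r ih =>
    intro hr i hi
    have mono : ∀ d : ℕ, ∀ a b : Fin (r + 1), a.val + d + 1 = b.val → (i a).val + 1 < (i b).val := by
      intro d
      induction d with
      | zero => exact hi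
      | succ d ihd =>
        intro a b e
        have := ihd a ⟨a.val + d + 1, by omega⟩ rfl
        have := hi ⟨a.val + d + 1, by omega⟩ b e
        omega
    have s := H.MP_f07634_pr.step n π h0 h1 (fun τ => by
      rw [Finset.sum_filter, ← hπ, ← Finset.sum_filter]
      simp [mul_comm]) r hr (fun a => i a.castSucc) (i (Fin.last r))
      fun a => mono (r - a.val - 1) _ _ (by have := a.2; simp; omega)
    have t := ih (by omega) (fun a => i a.castSucc) fun a b e => hi _ _ e
    have e : ∀ (r : ℕ) (h : r ≤ n) (i : Fin r → Fin n) (σ : Equiv.Perm (Fin n)),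
        (∀ p : Fin n, ∀ a : Fin r, p.val = a.val → σ p = i a) ↔
          ∀ a : Fin r, σ (Fin.castLE h a) = i a := fun r h i σ =>
      ⟨fun k a => k _ a rfl, fun k p a e => by rw [← k a]; congr 1; exact Fin.ext e⟩
    simp only [e r (by omega)] at t
    simp only [e (r + 1) hr]
    simp only [Fin.forall_fin_succ']
    rw [t] at s
    refine Eq.trans ?_ (s.trans (by rw [pow_succ]; field_simp))
    congr

end Pool.Agent.S19489
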