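import Pool.Statements.S19492
import Pool.Agent.H.MP_94e09c_pr.C

set_option autoImplicit false
open Pool Pool.MP_94e09c_pr

namespace Pool.Agent.S19492
open Pool.Agent.H.MP_94e09c_pr

theorem result :
    ¬ (∀ (V : Type) (G : SimpleGraph V) [G.LocallyFinite] (Γ : Type) [Group Γ] [DecidableEq Γ]
      (S : Finset Γ),
      G.Connected →
      (∃ D : ℕ, ∀ v : V, G.degree v ≤ D) →
      Subgroup.closure (S : Set Γ) = ⊤ →
      (∃ ε : ℝ, 0 < ε ∧ ∀ F : Finset Γ, F.Nonempty →
          ε * (F.card : ℝ) ≤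
            (((F.biUnion (fun x => S.image (fun s => x * s) ∪ S.image (fun s => x * s⁻¹))) \ F).card : ℝ)) →
      (∃ φ : V → Γ, ∃ C K : ℝ, 0 < C ∧ 0 ≤ K ∧
          (∀ x y : V, (G.dist x y : ℝ) ≤
              C * ((SimpleGraph.fromRel (fun a b : Γ => a⁻¹ * b ∈ S)).dist (φ x) (φ y) : ℝ) + K) ∧
          (∀ x y : V, ((SimpleGraph.fromRel (fun a b : Γ => a⁻¹ * b ∈ S)).dist (φ x) (φ y) : ℝ) ≤
              C * (G.dist x y : ℝ) + K) ∧
          (∀ γ : Γ, ∃ x : V,
              ((SimpleGraph.fromRel (fun a b : Γ => a⁻¹ * b ∈ S)).dist γ (φ x) : ℝ) ≤ K)) →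
      ∃ h : V → ℝ,
        (∀ v : V, (G.degree v : ℝ) * h v = ∑ w ∈ G.neighborFinset v, h w) ∧
        (∃ M : ℝ, ∀ v : V, |h v| ≤ M) ∧
        (∃ a b : V, h a ≠ h b)) := by
  intro H
  obtain ⟨T, h1, h2⟩ := tree
  have cc := cay_conn S S_top
  set Cay := SimpleGraph.fromRel (fun a b : F × F => a⁻¹ * b ∈ S) with hCay
  have le : Cay ≤ G T τ0 := by
    have key : ∀ v w : F × F, v⁻¹ * w ∈ S → (G T τ0).Adj v w := by
      rintro ⟨x, y⟩ ⟨x', y'⟩ hs
      simp only [S, Finset.mem_union, Finset.mem_image, Finset.mem_univ, true_and, Prod.inv_mk,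
        Prod.mk_mul_mk, Prod.mk.injEq] at hs
      rcases hs with ⟨a, ha, hy⟩ | ⟨a, hx, ha⟩
      · obtain rfl : y = y' := inv_mul_eq_one.1 hy.symm
        obtain rfl : x' = x * FreeGroup.of a := by rw [ha]; group
        rcases h2 x a with h | h
        · exact ⟨.inl (), by simp [nb, h]⟩
        · exact SimpleGraph.Adj.symm ⟨.inl (), by simp [nb, h]⟩
      · obtain rfl : x = x' := inv_mul_eq_one.1 hx.symm
        obtain rfl : y' = y * FreeGroup.of a := by rw [ha]; group
        rcases h2 y a with h | h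
        · exact ⟨.inr (.inr (.inl ())), by simp [nb, h]⟩
        · exact SimpleGraph.Adj.symm ⟨.inr (.inr (.inl ())), by simp [nb, h]⟩
    intro v w hvw
    rw [hCay, SimpleGraph.fromRel_adj] at hvw
    rcases hvw.2 with h | h
    · exact key _ _ h
    · exact (key _ _ h).symm
  have gc : (G T τ0).Connected := cc.mono le
  have np : ∀ x, T.p x ≠ x := fun x h => by have := T.bp x; rw [h] at this; omega
  have d1 : ∀ x y, Cay.dist (x, y) (T.p x, y) = 1 := by
    intro x y
    rw [SimpleGraph.dist_eq_one_iff_adj, hCay, SimpleGraph.fromRel_adj]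
    refine ⟨fun h => np x (congrArg Prod.fst h).symm, ?_⟩
    obtain ⟨a, h | h⟩ := h1 x
    · left; simp [h, S1]
    · right
      have : (T.p x)⁻¹ * x = FreeGroup.of a := by rw [inv_mul_eq_iff_eq_mul]; exact h
      simp [this, S1]
  have d2 : ∀ x y, Cay.dist (x, y) (x, T.p y) = 1 := by
    intro x y
    rw [SimpleGraph.dist_eq_one_iff_adj, hCay, SimpleGraph.fromRel_adj]
    refine ⟨fun h => np y (congrArg Prod.snd h).symm, ?_⟩
    obtain ⟨a, h | h⟩ := h1 y
    · left; simp [h, S2]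
    · right
      have : (T.p y)⁻¹ * y = FreeGroup.of a := by rw [inv_mul_eq_iff_eq_mul]; exact h
      simp [this, S2]
  have d3 : ∀ x y i, Cay.dist (x, y) (T.ch x i, y) = 1 := fun x y i => by
    have := d1 (T.ch x i) y
    rwa [T.pch, SimpleGraph.dist_comm] at this
  have d4 : ∀ x y i, Cay.dist (x, y) (x, T.ch y i) = 1 := fun x y i => by
    have := d2 x (T.ch y i)
    rwa [T.pch, SimpleGraph.dist_comm] at this
  have t3 : ∀ a b c d : F × F, Cay.dist a b = 1 → Cay.dist b c = 1 → Cay.dist c d = 1 →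
      Cay.dist a d ≤ 3 := fun a b c d p q r => by
    have := cc.dist_triangle (u := a) (v := b) (w := d)
    have := cc.dist_triangle (u := b) (v := c) (w := d)
    omega
  have d5 : ∀ v w, (G T τ0).Adj v w → Cay.dist v w ≤ 3 := by
    rintro ⟨x, y⟩ _ ⟨i, rfl⟩
    rcases i with i | i | i | i | i | i <;> simp only [nb]
    · rw [d1]; norm_num
    · rw [d3]; norm_num
    · rw [d2]; norm_num
    · rw [d4]; norm_num
    · split_ifs
      · exact t3 _ _ _ _ (d1 _ _) (d4 _ _ _) (d4 _ _ _)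
      · exact t3 _ _ _ _ (d2 _ _) (d3 _ _ _) (d3 _ _ _)
    · split_ifs
      · exact t3 _ _ _ _ (d3 _ _ _) (d2 _ _) (d2 _ _)
      · exact t3 _ _ _ _ (d4 _ _ _) (d1 _ _) (d1 _ _)
  refine absurd (H (F × F) (G T τ0) (F × F) S gc ⟨20, fun v => (deg T τ0 v).le⟩ S_top
    ⟨2, two_pos, ?_⟩ ⟨id, 3, 0, by norm_num, le_rfl, ?_, ?_, ?_⟩) ?_
  · intro A _
    set U := A.biUnion (fun x => S.image (fun s => x * s) ∪ S.image (fun s => x * s⁻¹)) with hU
    have c1 : (A ×ˢ (Finset.univ : Finset (Fin 3))).card ≤ U.card := by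
      apply Finset.card_le_card_of_injOn (fun q => (T.ch q.1.1 q.2, q.1.2))
      · rintro ⟨⟨x, y⟩, i⟩ hq
        simp only [Finset.coe_product, Set.mem_prod, Finset.mem_coe] at hq
        simp only [hU, Finset.mem_coe, Finset.mem_biUnion, Finset.mem_union, Finset.mem_image]
        refine ⟨(x, y), hq.1, ?_⟩
        obtain ⟨a, h | h⟩ := h1 (T.ch x i)
        · rw [T.pch] at h
          refine Or.inr ⟨_, S1 a, ?_⟩
          simp only [Prod.inv_mk, Prod.mk_mul_mk, inv_one, mul_one, Prod.mk.injEq, and_true]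
          rw [mul_inv_eq_iff_eq_mul]; exact h
        · rw [T.pch] at h
          exact Or.inl ⟨_, S1 a, by simp [← h]⟩
      · rintro ⟨⟨x, y⟩, i⟩ - ⟨⟨x', y'⟩, j⟩ - h
        simp only [Prod.mk.injEq] at h ⊢
        have e : x = x' := by rw [← T.pch x i, h.1, T.pch]
        subst e
        exact ⟨⟨rfl, h.2⟩, T.inj _ h.1⟩
    have c2 := Finset.le_card_sdiff A U
    rw [Finset.card_product, Finset.card_univ, Fintype.card_fin] at c1
    have c3 : 2 * A.card ≤ (U \ A).card := by omega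
    exact_mod_cast c3
  · intro x y
    have := dist_le_mul Cay (G T τ0) cc gc 1
      (fun v w h => (SimpleGraph.dist_eq_one_iff_adj.2 (le h)).le) x y
    have h3 : (G T τ0).dist x y ≤ 3 * Cay.dist x y := by omega
    simp only [id, add_zero]
    exact_mod_cast h3
  · intro x y
    have := dist_le_mul (G T τ0) Cay gc cc 3 d5 x y
    simp only [id, add_zero]
    exact_mod_cast this
  · intro γ
    exact ⟨γ, by simp⟩
  · rintro ⟨h, hh, ⟨M, hM⟩, a, b, hab⟩
    exact hab (G_liou T h hh M hM a b)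

end Pool.Agent.S19492
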