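import Pool.Statements.S19518
import Pool.Agent.H.MP_9bdf03_pr.E

set_option autoImplicit false
open MeasureTheory ProbabilityTheory Filter Topology
open Pool Pool.MP_9bdf03_pr

namespace Pool.Agent.S19518

theorem result :
    ¬ (∀ (Ω : Type) [MeasureSpace Ω] [IsProbabilityMeasure (volume : Measure Ω)]
      (ξ : ℕ → Ω → ℝ),
      (∀ i, Measurable (ξ i)) →
      iIndepFun ξ (volume : Measure Ω) →
      (∀ i, Measure.map (ξ i) (volume : Measure Ω) = gaussianReal 0 1) →
      ∀ᵐ ω ∂(volume : Measure Ω),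
        Tendsto
          (fun n : ℕ =>
            ((∑ i ∈ Finset.range (n + 1),
                Polynomial.C (ξ i ω) * Polynomial.X ^ i).roots.card : ℝ)
              / Real.log n)
          atTop (𝓝 (2 / Real.pi))) := by
  intro h
  exact H.Kac.not_ae (@h (ℕ → ℝ) ⟨H.Kac.mu⟩ (inferInstanceAs (IsProbabilityMeasure H.Kac.mu))
    (fun i a => a i) (fun i => measurable_pi_apply i) H.Kac.mu_indep fun i => (H.Kac.mu_eval i).map_eq)

end Pool.Agent.S19518
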