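import Pool.Statements.S19536

set_option autoImplicit false
open MeasureTheory
open Pool Pool.MP_a24ad1_pr

namespace Pool.Agent.S19536

open scoped ENNReal
open Filter Topology

abbrev Om := Bool × UnitAddCircle

noncomputable def aa : UnitAddCircle := ((Real.sqrt 2 : ℝ) : UnitAddCircle)

lemma erg_aa : Ergodic (fun x : UnitAddCircle => x + aa) volume := by
  rw [AddCircle.ergodic_add_right, addOrderOf_eq_zero_iff, aa,
    AddCircle.isOfFinAddOrder_iff_exists_rat_eq_div]
  rintro ⟨q, hq⟩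
  exact irrational_sqrt_two ⟨q, by simpa using hq⟩

noncomputable def th (ω : Om) : Om := if ω.1 then (false, ω.2 + aa) else (true, ω.2)

lemma meas_th : Measurable th := by
  unfold th
  refine Measurable.ite ?_ (by fun_prop) (by fun_prop)
  exact (MeasurableSet.of_discrete (s := ({true} : Set Bool))).preimage measurable_fst

noncomputable def mu : Measure Om :=
  (2⁻¹ : ℝ≥0∞) • (volume : Measure UnitAddCircle).map (Prod.mk false) +
  (2⁻¹ : ℝ≥0∞) • (volume : Measure UnitAddCircle).map (Prod.mk true)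

lemma mu_apply {S : Set Om} (hS : MeasurableSet S) :
    mu S = 2⁻¹ * volume (Prod.mk false ⁻¹' S) + 2⁻¹ * volume (Prod.mk true ⁻¹' S) := by
  simp [mu, Measure.map_apply measurable_prodMk_left hS]

instance : IsProbabilityMeasure mu :=
  ⟨by rw [mu_apply MeasurableSet.univ]; simp [ENNReal.inv_two_add_inv_two]⟩

lemma erg_th : Ergodic th mu := by
  have e1 : ∀ S : Set Om, Prod.mk false ⁻¹' (th ⁻¹' S) = Prod.mk true ⁻¹' S := by
    intro S; ext x; simp [th]
  have e2 : ∀ S : Set Om, Prod.mk true ⁻¹' (th ⁻¹' S) =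
      (fun x => x + aa) ⁻¹' (Prod.mk false ⁻¹' S) := by
    intro S; ext x; simp [th]
  refine ⟨⟨meas_th, ?_⟩, ⟨fun S hS hinv => ?_⟩⟩
  · ext S hS
    rw [Measure.map_apply meas_th hS, mu_apply (meas_th hS), mu_apply hS, e1, e2,
      measure_preimage_add_right, add_comm]
  · have h1 := e1 S
    have h2 := e2 S
    rw [hinv] at h1 h2
    have hm : MeasurableSet (Prod.mk false ⁻¹' S) := measurable_prodMk_left hS
    rw [eventuallyConst_set']
    rcases erg_aa.toPreErgodic.measure_self_or_compl_eq_zero hm (h2.symm.trans h1.symm) with h | h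
    · left
      rw [ae_eq_empty, mu_apply hS, ← h1, h]; simp
    · right
      rw [ae_eq_univ, mu_apply hS.compl, Set.preimage_compl, Set.preimage_compl, ← h1, h]; simp

noncomputable def g (x : UnitAddCircle) : ℝ := (AddCircle.equivIco 1 0 x : ℝ)

lemma g_nonneg (x : UnitAddCircle) : 0 ≤ g x := (AddCircle.equivIco 1 0 x).2.1
lemma g_lt (x : UnitAddCircle) : g x < 1 :=
  lt_of_lt_of_eq (AddCircle.equivIco 1 0 x).2.2 (zero_add 1)
lemma coe_g (x : UnitAddCircle) : ((g x : ℝ) : UnitAddCircle) = x := AddCircle.coe_equivIco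
lemma meas_g : Measurable g :=
  measurable_subtype_coe.comp (AddCircle.measurableEquivIco 1 0).measurable

def inL (r : ℝ) : Prop := ∃ p : ℤ × ℤ, r = p.1 + p.2 * Real.sqrt 2

lemma inL_g (x : UnitAddCircle) : inL (g (x + aa) - g x) := by
  have : ((g (x + aa) - g x - Real.sqrt 2 : ℝ) : UnitAddCircle) = 0 := by
    rw [AddCircle.coe_sub, AddCircle.coe_sub, coe_g, coe_g, aa]; abel
  obtain ⟨n, hn⟩ := (AddCircle.coe_eq_zero_iff 1).1 this
  refine ⟨(n, 1), ?_⟩
  simp at hn ⊢
  linarith

lemma inL.sub {r s : ℝ} (hr : inL r) (hs : inL s) : inL (r - s) := by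
  obtain ⟨p, rfl⟩ := hr
  obtain ⟨q, rfl⟩ := hs
  exact ⟨p - q, by simp; ring⟩

lemma inL_int (n : ℤ) : inL n := ⟨(n, 0), by simp⟩

noncomputable def sg (ω : Om) : ℝ := if ω.1 then 6 + g (ω.2 + aa) - g ω.2 else 4

lemma meas_sg : Measurable sg := by
  unfold sg
  refine Measurable.ite ?_ ?_ measurable_const
  · exact (MeasurableSet.of_discrete (s := ({true} : Set Bool))).preimage measurable_fst
  · exact (measurable_const.add (meas_g.comp (by fun_prop))).sub (meas_g.comp measurable_snd)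

noncomputable def WW : ℕ → Om → (Fin (1 + 1) → ℝ)
  | 0 => fun _ => 0
  | n + 1 => fun ω => fun i : Fin (1 + 1) =>
        max ((WW n ω + (Pi.single 0 (sg (th^[n] ω)) : Fin (1 + 1) → ℝ)
                - (fun _ : Fin (1 + 1) => (3 : ℝ)))
              (Tuple.sort (WW n ω + (Pi.single 0 (sg (th^[n] ω)) : Fin (1 + 1) → ℝ)
                - (fun _ : Fin (1 + 1) => (3 : ℝ))) i)) 0

lemma sort_swap (v : Fin 2 → ℝ) (h : v 1 ≤ v 0) :
    v (Tuple.sort v 0) = v 1 ∧ v (Tuple.sort v 1) = v 0 := by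
  have hm : Monotone (v ∘ Equiv.swap (0 : Fin 2) 1) := by
    rw [Fin.monotone_iff_le_succ]
    intro i
    fin_cases i
    simpa using h
  have := Tuple.comp_sort_eq_comp_iff_monotone.2 hm
  exact ⟨by simpa using (congrFun this 0).symm, by simpa using (congrFun this 1).symm⟩

lemma WW_step (n : ℕ) (ω : Om) (h : WW n ω 1 ≤ WW n ω 0 + sg (th^[n] ω)) :
    WW (n + 1) ω 0 = max (WW n ω 1 - 3) 0 ∧
      WW (n + 1) ω 1 = max (WW n ω 0 + sg (th^[n] ω) - 3) 0 := by
  have := sort_swap (WW n ω + (Pi.single 0 (sg (th^[n] ω)) : Fin (1 + 1) → ℝ)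
                - (fun _ : Fin (1 + 1) => (3 : ℝ))) (by simpa using h)
  simp only [WW]
  rw [this.1, this.2]
  simp

def Inv (n : ℕ) (ω : Om) : Prop :=
  ∃ M : ℝ, 0 ≤ M ∧ M < 1 ∧ (∀ j < n, M ≤ g (th^[j] ω).2) ∧ inL (g (th^[n] ω).2 - M) ∧
    (((th^[n] ω).1 = true ∧ M ≤ g (th^[n] ω).2 ∧ WW n ω 0 = g (th^[n] ω).2 - M ∧ WW n ω 1 = 1) ∨
     ((th^[n] ω).1 = false ∧ WW n ω 0 = 0 ∧ WW n ω 1 = 3 + g (th^[n] ω).2 - M))

lemma inv_succ (n : ℕ) (ω : Om) : Inv (n + 1) ω := by
  induction n with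
  | zero =>
    obtain ⟨b, x⟩ := ω
    have a0 := g_nonneg x
    have a1 := g_lt x
    have b0 := g_nonneg (x + aa)
    have w0 : ∀ b i, WW 0 (b, x) i = 0 := fun _ _ => rfl
    cases b
    · have := WW_step 0 (false, x) (by simp [w0, sg])
      refine ⟨g x, a0, a1, by simp, by simpa [th] using inL_int 0, Or.inl ?_⟩
      rw [this.1, this.2]
      simp [w0, sg, th]; norm_num
    · have := WW_step 0 (true, x) (by simp [w0, sg]; linarith)
      refine ⟨g x, a0, a1, by simp, by simpa [th] using inL_g x, Or.inr ?_⟩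
      rw [this.1, this.2]
      simp only [w0, sg, th, zero_add, Function.iterate_one, Function.iterate_zero, id, if_true]
      refine ⟨trivial, by norm_num, ?_⟩
      rw [max_eq_left (by linarith)]; ring
  | succ n ih =>
    obtain ⟨M, M0, M1, hM, hL, h⟩ := ih
    have hit : th^[n + 1 + 1] ω = th (th^[n + 1] ω) := Function.iterate_succ_apply' _ _ _
    unfold Inv
    rw [hit]
    have hst := WW_step (n + 1) ω
    generalize hy : th^[n + 1] ω = y at *
    obtain ⟨b, x⟩ := y
    have a0 := g_nonneg x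
    have a1 := g_lt x
    have b0 := g_nonneg (x + aa)
    rcases h with ⟨h1, h2, h3, h4⟩ | ⟨h1, h3, h4⟩
    · simp only at h1 h2 h3 h4 hL
      subst h1
      have := hst (by rw [h3, h4]; simp [sg]; linarith)
      refine ⟨M, M0, M1, fun j hj => ?_, ?_, Or.inr ?_⟩
      · rcases Nat.lt_succ_iff_lt_or_eq.1 hj with hj | rfl
        · exact hM j hj
        · rw [hy]; exact h2
      · have := (inL_g x).sub ((inL_int 0).sub hL)
        convert this using 1
        simp [th]
      · rw [this.1, this.2, h3, h4]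
        simp only [sg, th, if_true]
        refine ⟨trivial, by norm_num, ?_⟩
        rw [max_eq_left (by linarith)]; ring
    · simp only at h1 h3 h4 hL
      subst h1
      have := hst (by rw [h3, h4]; simp [sg]; linarith)
      refine ⟨min M (g x), le_min M0 a0, (min_le_left _ _).trans_lt M1, fun j hj => ?_, ?_,
        Or.inl ?_⟩
      · rcases Nat.lt_succ_iff_lt_or_eq.1 hj with hj | rfl
        · exact (min_le_left _ _).trans (hM j hj)
        · rw [hy]; exact min_le_right _ _
      · rcases le_total M (g x) with h | h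
        · simpa [th, h] using hL
        · simpa [th, h] using inL_int 0
      · rw [this.1, this.2, h3, h4]
        simp only [sg, th]
        refine ⟨by simp, by simp, ?_, by simp; norm_num⟩
        rcases le_total M (g x) with h | h
        · simp only [min_eq_left h]
          rw [max_eq_left (by linarith)]; simp; ring
        · simp only [min_eq_right h]
          rw [max_eq_right (by linarith)]; simp

lemma band_le (c η : ℝ) :
    mu {ω | g ω.2 ∈ Set.Icc c (c + η)} ≤ ENNReal.ofReal (2 * η) := by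
  have hm : MeasurableSet {ω : Om | g ω.2 ∈ Set.Icc c (c + η)} :=
    (meas_g.comp measurable_snd) measurableSet_Icc
  have h1 : volume {x : UnitAddCircle | g x ∈ Set.Icc c (c + η)} ≤ ENNReal.ofReal (2 * η) := by
    have : {x : UnitAddCircle | g x ∈ Set.Icc c (c + η)} ⊆
        Metric.closedBall ((c : ℝ) : UnitAddCircle) η := by
      intro x hx
      rw [Metric.mem_closedBall, ← coe_g x, dist_eq_norm, ← AddCircle.coe_sub]
      refine (QuotientAddGroup.norm_mk_le_norm).trans ?_
      rw [Real.norm_eq_abs, abs_le]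
      constructor <;> linarith [hx.1, hx.2]
    refine (measure_mono this).trans ?_
    rw [AddCircle.volume_closedBall]
    exact ENNReal.ofReal_le_ofReal (min_le_right _ _)
  rw [mu_apply hm]
  calc _ ≤ 2⁻¹ * ENNReal.ofReal (2 * η) + 2⁻¹ * ENNReal.ofReal (2 * η) := by
        gcongr <;> exact h1
    _ = _ := by rw [← add_mul, ENNReal.inv_two_add_inv_two, one_mul]

def ZZ (η : ℝ) (n : ℕ) : Set Om := {ω | ∀ j < n, η ≤ g (th^[j] ω).2}

lemma meas_ZZ (η : ℝ) (n : ℕ) : MeasurableSet (ZZ η n) := by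
  have : ZZ η n = ⋂ j, ⋂ _ : j < n, {ω | η ≤ g (th^[j] ω).2} := by ext; simp [ZZ]
  rw [this]
  refine MeasurableSet.iInter fun j => MeasurableSet.iInter fun _ => ?_
  exact measurableSet_le measurable_const (meas_g.comp (measurable_snd.comp (meas_th.iterate j)))

lemma ZZ_tendsto {η : ℝ} (h0 : 0 < η) (h1 : η < 1) :
    Tendsto (fun n => mu (ZZ η n)) atTop (𝓝 0) := by
  have hm : MeasurableSet (⋂ n, ZZ η n) := MeasurableSet.iInter (meas_ZZ η)
  have h := tendsto_measure_iInter_atTop (μ := mu) (s := ZZ η)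
    (fun n => (meas_ZZ η n).nullMeasurableSet)
    (fun a b hab ω hω j hj => hω j (lt_of_lt_of_le hj hab)) ⟨0, measure_ne_top _ _⟩
  have hz : mu (⋂ n, ZZ η n) = 0 := by
    have hsub : (⋂ n, ZZ η n) ⊆ th ⁻¹' (⋂ n, ZZ η n) := by
      intro ω hω
      simp only [Set.mem_iInter, Set.mem_preimage] at hω ⊢
      intro n j hj
      exact hω (n + 1) (j + 1) (by omega)
    rcases erg_th.ae_empty_or_univ_of_ae_le_preimage hm.nullMeasurableSet
      (LE.le.eventuallyLE hsub) with h | h
    · exact ae_eq_empty.1 h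
    · exfalso
      rw [ae_eq_univ, mu_apply hm.compl] at h
      have h2 : volume (Prod.mk false ⁻¹' (⋂ n, ZZ η n)ᶜ) = 0 := by
        have := (add_eq_zero.1 h).1
        simpa using this
      have ho : IsOpen ((fun r : ℝ => (r : UnitAddCircle)) '' Set.Ioo 0 η) :=
        QuotientAddGroup.isOpenMap_coe _ isOpen_Ioo
      have hp := ho.measure_pos (volume : Measure UnitAddCircle)
        ⟨_, η / 2, ⟨by linarith, by linarith⟩, rfl⟩
      refine hp.ne' (measure_mono_null ?_ h2)
      rintro _ ⟨r, hr, rfl⟩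
      simp only [Set.mem_preimage, Set.mem_compl_iff, Set.mem_iInter, not_forall]
      refine ⟨1, fun hz => ?_⟩
      have := hz 0 (by norm_num)
      simp only [Function.iterate_zero, id, g] at this
      rw [AddCircle.equivIco_coe_of_mem ⟨hr.1.le, by linarith [hr.2]⟩] at this
      linarith [hr.2]
  rwa [hz] at h

lemma atom_le (c : Fin (1 + 1) → ℝ) (η : ℝ) (n : ℕ) :
    mu {ω | WW (n + 1) ω ∈ ({c} : Set _)} ≤
      ENNReal.ofReal (2 * η) + ENNReal.ofReal (2 * η) + mu (ZZ η (n + 1)) := by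
  have hp : ∀ c : ℝ, mu (th^[n + 1] ⁻¹' {ω | g ω.2 ∈ Set.Icc c (c + η)}) ≤
      ENNReal.ofReal (2 * η) := by
    intro c
    have hm : MeasurableSet {ω : Om | g ω.2 ∈ Set.Icc c (c + η)} :=
      (meas_g.comp measurable_snd) measurableSet_Icc
    rw [(erg_th.toMeasurePreserving.iterate (n + 1)).measure_preimage hm.nullMeasurableSet]
    exact band_le c η
  have hsub : {ω | WW (n + 1) ω ∈ ({c} : Set _)} ⊆
      th^[n + 1] ⁻¹' {ω | g ω.2 ∈ Set.Icc (c 0) (c 0 + η)} ∪
      th^[n + 1] ⁻¹' {ω | g ω.2 ∈ Set.Icc (c 1 - 3) (c 1 - 3 + η)} ∪ ZZ η (n + 1) := by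
    intro ω hω
    have hc : WW (n + 1) ω = c := hω
    obtain ⟨M, M0, M1, hM, -, h⟩ := inv_succ n ω
    by_cases hη : η ≤ M
    · exact Or.inr fun j hj => hη.trans (hM j hj)
    · left
      rw [hc] at h
      rcases h with ⟨-, -, h3, -⟩ | ⟨-, -, h4⟩
      · left
        exact ⟨by linarith, by linarith⟩
      · right
        exact ⟨by linarith, by linarith⟩
  refine (measure_mono hsub).trans ((measure_union_le _ _).trans ?_)
  gcongr
  exact (measure_union_le _ _).trans (add_le_add (hp _) (hp _))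

def CC : Set (Fin (1 + 1) → ℝ) := Set.univ.pi fun _ => {r | inL r}

lemma CC_countable : CC.Countable := by
  refine Set.countable_univ_pi fun _ => ?_
  have : {r | inL r} = Set.range (fun p : ℤ × ℤ => (p.1 : ℝ) + p.2 * Real.sqrt 2) := by
    ext r; simp only [inL, Set.mem_ofPred_eq, Set.mem_range, eq_comm]
  rw [this]
  exact Set.countable_range _

lemma WW_mem (n : ℕ) (ω : Om) : WW (n + 1) ω ∈ CC := by
  obtain ⟨M, -, -, -, hL, h⟩ := inv_succ n ω
  intro i _
  rcases h with ⟨-, -, h3, h4⟩ | ⟨-, h3, h4⟩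
  · fin_cases i
    · simpa [h3] using hL
    · simpa [h4] using inL_int 1
  · fin_cases i
    · simpa [h3] using inL_int 0
    · have := hL.sub (inL_int (-3))
      simp only [Fin.mk_one, h4, Set.mem_ofPred_eq]
      convert this using 1
      push_cast; ring

theorem result :
    ¬ (∀ (Ω : Type) [MeasurableSpace Ω] (μ : Measure Ω) [IsProbabilityMeasure μ]
    (θ : Ω → Ω) (k : ℕ) (t σ : Ω → ℝ) (W : ℕ → Ω → (Fin (k+1) → ℝ)),
    Ergodic θ μ → Integrable t μ → Integrable σ μ →
    (∀ᵐ ω ∂μ, 0 ≤ t ω) → (∀ᵐ ω ∂μ, 0 ≤ σ ω) →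
    ∫ ω, σ ω ∂μ < ((k : ℝ) + 1) * ∫ ω, t ω ∂μ →
    (∀ ω, W 0 ω = 0) →
    (∀ (n : ℕ) (ω : Ω), W (n+1) ω =
      (fun i : Fin (k+1) =>
        max ((W n ω + (Pi.single 0 (σ (θ^[n] ω)) : Fin (k+1) → ℝ)
                - (fun _ : Fin (k+1) => t (θ^[n] ω)))
              (Tuple.sort (W n ω + (Pi.single 0 (σ (θ^[n] ω)) : Fin (k+1) → ℝ)
                - (fun _ : Fin (k+1) => t (θ^[n] ω))) i)) 0)) →
    ∃ π : Measure (Fin (k+1) → ℝ), IsProbabilityMeasure π ∧
      ∀ ε > (0 : ℝ), ∃ N : ℕ, ∀ n ≥ N, ∀ A : Set (Fin (k+1) → ℝ), MeasurableSet A →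
        |(μ {ω | W n ω ∈ A}).toReal - (π A).toReal| < ε) := by
  intro h
  have hb : ∀ ω, 0 ≤ sg ω ∧ sg ω ≤ 4 + {ω : Om | ω.1 = true}.indicator (fun _ => (3 : ℝ)) ω := by
    rintro ⟨b, x⟩
    have a0 := g_nonneg x
    have a1 := g_lt x
    have b0 := g_nonneg (x + aa)
    have b1 := g_lt (x + aa)
    cases b
    · simp [sg]
    · simp only [sg, if_true, Set.indicator_apply, Set.mem_ofPred_eq]
      constructor <;> linarith
  have hT : MeasurableSet {ω : Om | ω.1 = true} :=
    (MeasurableSet.of_discrete (s := ({true} : Set Bool))).preimage measurable_fst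
  have hi2 : Integrable (fun ω => 4 + {ω : Om | ω.1 = true}.indicator (fun _ => (3 : ℝ)) ω) mu :=
    (integrable_const _).add ((integrable_const _).indicator hT)
  have hi : Integrable sg mu := by
    refine hi2.mono' meas_sg.aestronglyMeasurable (Eventually.of_forall fun ω => ?_)
    rw [Real.norm_eq_abs, abs_of_nonneg (hb ω).1]
    exact (hb ω).2
  have hE : ∫ ω, sg ω ∂mu < ((1 : ℕ) + 1 : ℝ) * ∫ _ω, (3 : ℝ) ∂mu := by
    refine (integral_mono hi hi2 fun ω => (hb ω).2).trans_lt ?_
    rw [integral_add (integrable_const _) ((integrable_const _).indicator hT),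
      integral_indicator_const _ hT, measureReal_def, mu_apply hT]
    simp
    norm_num
  obtain ⟨π, hπ, hconv⟩ := h Om mu th 1 (fun _ => 3) sg WW erg_th (integrable_const _) hi
    (Eventually.of_forall fun _ => by norm_num) (Eventually.of_forall fun ω => (hb ω).1) hE
    (fun _ => rfl) (fun _ _ => rfl)
  obtain ⟨c, hc⟩ : ∃ c, π {c} ≠ 0 := by
    by_contra hcon
    push Not at hcon
    have h0 : π CC = 0 := by
      rw [← Set.biUnion_of_singleton CC, measure_biUnion_null_iff CC_countable]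
      exact fun c _ => hcon c
    obtain ⟨N, hN⟩ := hconv 1 one_pos
    have := hN (N + 1) (by omega) CC CC_countable.measurableSet
    rw [h0, Set.eq_univ_of_forall (s := {ω | WW (N + 1) ω ∈ CC}) (WW_mem N)] at this
    simp at this
  have hd : 0 < (π {c}).toReal := ENNReal.toReal_pos hc (measure_ne_top _ _)
  have hd1 : (π {c}).toReal ≤ 1 := measureReal_le_one (μ := π) (s := {c})
  set d := (π {c}).toReal with hdd
  obtain ⟨N, hN⟩ := hconv (d / 2) (by linarith)
  have hz := (ZZ_tendsto (η := d / 16) (by linarith) (by linarith)).eventually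
    (gt_mem_nhds (show (0 : ℝ≥0∞) < ENNReal.ofReal (d / 4) from ENNReal.ofReal_pos.2 (by linarith)))
  obtain ⟨N', hN'⟩ := eventually_atTop.1 hz
  have h1 := hN (N + N' + 1) (by omega) {c} (measurableSet_singleton c)
  have h2 := (atom_le c (d / 16) (N + N')).trans
    (add_le_add le_rfl (hN' (N + N' + 1) (by omega)).le)
  rw [← ENNReal.ofReal_add (by linarith) (by linarith),
    ← ENNReal.ofReal_add (by linarith) (by linarith)] at h2
  have h3 := ENNReal.toReal_le_of_le_ofReal (by linarith) h2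
  rw [abs_lt] at h1
  linarith [h1.1]

end Pool.Agent.S19536
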