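import Pool.Statements.S19550
import Pool.Agent.H.MP_a5e374_pr.C

set_option autoImplicit false
open MeasureTheory Pointwise
open Pool Pool.MP_a5e374_pr

namespace Pool.Agent.S19550
open Pool.Agent.H.MP_a5e374_pr ENNReal Set

theorem result :
    ¬ (∀ κ : EReal, κ ≤ ((1/2 : ℝ) : EReal) →
  ∀ μ : Measure (ℝ × ℝ), IsProbabilityMeasure μ →
    μ.map (fun x => -x) = μ →
    (∀ A B : Set (ℝ × ℝ), IsCompact A → IsCompact B → 0 < μ A → 0 < μ B →
      ∀ t : ℝ, 0 < t → t < 1 →
        (if κ = ⊥ then min (μ A).toReal (μ B).toReal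
         else if κ = 0 then (μ A).toReal ^ t * (μ B).toReal ^ (1 - t)
         else (t * (μ A).toReal ^ κ.toReal + (1 - t) * (μ B).toReal ^ κ.toReal) ^ (1 / κ.toReal))
        ≤ (μ (t • A + (1 - t) • B)).toReal) →
  ∀ fU fV fW : ℝ → ℝ, Measurable fU → Measurable fV → Measurable fW →
    (∀ x, 0 ≤ fU x) → (∀ x, 0 ≤ fV x) → (∀ x, 0 ≤ fW x) →
    μ.map Prod.fst = volume.withDensity (fun x => ENNReal.ofReal (fU x)) →
    μ.map Prod.snd = volume.withDensity (fun x => ENNReal.ofReal (fV x)) →
    μ.map (fun x => x.1 + x.2) = volume.withDensity (fun x => ENNReal.ofReal (fW x)) →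
    (∀ p : ENNReal, 1 < p →
      eLpNorm fW p volume ^ (-((1 - p⁻¹)⁻¹).toReal) ≤
        eLpNorm fU p volume ^ (-((1 - p⁻¹)⁻¹).toReal)
          + eLpNorm fV p volume ^ (-((1 - p⁻¹)⁻¹).toReal)) ∧
    (Integrable (fun x => Real.negMulLog (fU x)) →
      Integrable (fun x => Real.negMulLog (fV x)) →
      Integrable (fun x => Real.negMulLog (fW x)) →
      Real.exp (∫ x, Real.negMulLog (fW x)) ≤
        Real.exp (∫ x, Real.negMulLog (fU x)) + Real.exp (∫ x, Real.negMulLog (fV x)))) := by
  intro H
  obtain ⟨a, η, S, T, ha, a1, hη, η8, hS, hST, hηS, hl, hl2, hK1, hK2⟩ := params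
  have hT : 1 ≤ T := hS.trans hST
  have η1 : η ≤ 1 := by linarith
  obtain ⟨c, c0, c1, c2, hc⟩ := Pool.Agent.H.MP_a5e374_pr.norm ha a1 hη hT hl
  have pr : IsProbabilityMeasure (volume.withDensity (F a η T c)) := ⟨by simpa using hc⟩
  have Ub : ∀ x, gU a η T c x ≤ .ofReal (c * (2 * a)) := fun x => (U1 ha hη c0.le x).trans
    (ofReal_le_ofReal (mul_le_mul_of_nonneg_left (div_le_self (by positivity) (pf1 hη x)) c0.le))
  have Vb := V1 ha a1 hη η1 hT c0.le
  have Wb : ∀ w, gW a η T c w ≤ _ := W1 ha hη c0.le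
  have eU : ∀ x, ENNReal.ofReal (gU a η T c x).toReal = gU a η T c x := fun x =>
    ofReal_toReal (ne_top_of_le_ne_top ofReal_ne_top (Ub x))
  have eV : ∀ x, ENNReal.ofReal (gV a η T c x).toReal = gV a η T c x := fun x =>
    ofReal_toReal (ne_top_of_le_ne_top ofReal_ne_top (Vb x))
  have eW : ∀ x, ENNReal.ofReal (gW a η T c x).toReal = gW a η T c x := fun x =>
    ofReal_toReal (ne_top_of_le_ne_top ofReal_ne_top (Wb x))
  have mU := (gU_meas (a := a) (η := η) (T := T) (c := c)).ennreal_toReal
  have mV := (gV_meas (a := a) (η := η) (T := T) (c := c)).ennreal_toReal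
  have mW := (gW_meas (a := a) (η := η) (T := T) (c := c)).ennreal_toReal
  have pU : (volume.withDensity (F a η T c)).map Prod.fst =
      volume.withDensity fun x => .ofReal (gU a η T c x).toReal := by simp only [eU]; exact mapU
  have pV : (volume.withDensity (F a η T c)).map Prod.snd =
      volume.withDensity fun x => .ofReal (gV a η T c x).toReal := by simp only [eV]; exact mapV
  have pW : (volume.withDensity (F a η T c)).map (fun q => q.1 + q.2) =
      volume.withDensity fun x => .ofReal (gW a η T c x).toReal := by simp only [eW]; exact mapW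
  have W1' : ∫⁻ w, gW a η T c w = 1 := by
    have := congrArg (fun m : Measure ℝ => m univ) (mapW (a := a) (η := η) (T := T) (c := c))
    beta_reduce at this
    rw [Measure.map_apply (by fun_prop) MeasurableSet.univ, preimage_univ, measure_univ] at this
    simpa using this.symm
  have iU := integ mU (fun _ => toReal_nonneg) _ T
    (fun x => toReal_le_of_le_ofReal (by positivity) (Ub x))
    fun x h => by simp [gU, F_supp a1 hη η1 hT (q := (x, _)) (Or.inl h)]
  have iV := integ mV (fun _ => toReal_nonneg) _ T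
    (fun x => toReal_le_of_le_ofReal (by positivity) (Vb x))
    fun x h => by simp [gV, F_supp a1 hη η1 hT (q := (_, x)) (Or.inr h)]
  have iW := integ mW (fun _ => toReal_nonneg) _ (2 * T)
    (fun x => toReal_le_of_le_ofReal (by positivity) (Wb x)) fun x h => by
      have : ∀ y, F a η T c (x - y, y) = 0 := fun y => F_supp a1 hη η1 hT (by
        by_contra hh
        push Not at hh
        have := abs_sub_abs_le_abs_sub x y
        linarith [hh.1, hh.2])
      simp [gW, this]
  have key := (H ⊥ bot_le _ pr mapN (fun A B hA hB A0 B0 t t0 t1 => by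
    rw [if_pos rfl]; exact conv ha hη c0 hA hB A0 B0 t0 t1) _ _ _ mU mV mW
    (fun _ => toReal_nonneg) (fun _ => toReal_nonneg) (fun _ => toReal_nonneg) pU pV pW).2 iU iV iW
  obtain ⟨u1, u2, u3⟩ := ent measurable_fst mU (fun _ => toReal_nonneg) pU iU
  obtain ⟨v1, v2, v3⟩ := ent measurable_snd mV (fun _ => toReal_nonneg) pV iV
  obtain ⟨w1, w2, w3⟩ := ent (measurable_fst.add measurable_snd) mW (fun _ => toReal_nonneg) pW iW
  have k1 := cmp (mU.comp measurable_fst) (mW.comp (measurable_fst.add measurable_snd)) u3 w3 u1 w1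
    (ΓU_meas (a := a) (η := η) (S := S) (T := T)) (K := 1280 / a) (C := 8) (m := a / 128)
    (by positivity) (by norm_num)
    (fun q hq => by rw [hK2]; exact ΓU_ratio ha hη c0 hS hηS η8 hq)
    (le_trans (ofReal_le_ofReal (by rw [hl2]; nlinarith)) (ΓU_mass ha hη c0 hS hST))
    (CU ha hη hT hl c0 c2 W1')
  have k2 := cmp (mV.comp measurable_snd) (mW.comp (measurable_fst.add measurable_snd)) v3 w3 v1 w1
    ((measurableSet_Icc (a := -1) (b := 1)).prod (measurableSet_Icc (a := -a) (b := a)))
    (K := 7000) (C := 792) (m := 1 / 8) (by norm_num) (by norm_num)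
    (fun q hq => by
      have h1 := toReal_le_of_le_ofReal (by positivity) (Wb (q.1 + q.2))
      have h2 := (ofReal_le_iff_le_toReal (ne_top_of_le_ne_top ofReal_ne_top (Vb q.2))).1
        (V2 ha hη c0.le hT (abs_le.2 hq.2))
      refine le_trans ?_ h2
      refine (mul_le_mul_of_nonneg_left h1 (Real.exp_pos _).le).trans (le_of_eq ?_)
      linear_combination c / 2 * hK1)
    (by
      rw [withDensity_apply _ (measurableSet_Icc.prod measurableSet_Icc)]
      exact (ofReal_le_ofReal c1).trans (core_mass ha hη c0.le hT))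
    (CV ha a1 hη η1 hT hl c0 c2 W1')
  rw [show a / 128 * (1280 / a) = 10 by field_simp; norm_num] at k1
  simp only [Function.comp] at k1 k2
  rw [u2, v2, w2] at key
  generalize ∫ ω, Real.log (gU a η T c ω.1).toReal ∂volume.withDensity (F a η T c) = X at *
  generalize ∫ ω, Real.log (gV a η T c ω.2).toReal ∂volume.withDensity (F a η T c) = Y at *
  generalize ∫ ω, Real.log (gW a η T c (ω.1 + ω.2)).toReal ∂volume.withDensity (F a η T c) = Z at *
  have e : ∀ X, 2 ≤ X - Z → 3 * Real.exp (-X) ≤ Real.exp (-Z) := by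
    intro X h
    have h1 := Real.add_one_le_exp (X - Z)
    rw [show -Z = (X - Z) + -X by ring, Real.exp_add]
    gcongr; linarith
  linarith [e X (by linarith), e Y (by linarith), Real.exp_pos (-Z)]

end Pool.Agent.S19550
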