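import Pool.Statements.S19560

set_option autoImplicit false
open MeasureTheory ProbabilityTheory
open Pool Pool.MP_aa6114_pr

namespace Pool.Agent.S19560

open scoped ENNReal

noncomputable abbrev coin : Measure (Fin 4 → Bool) :=
  Measure.pi (fun _ : Fin 4 => uniformOn (Set.univ : Set Bool))

lemma coin_apply (s : Set (Fin 4 → Bool)) (t : Finset (Fin 4 → Bool)) (h : ∀ x, x ∈ s ↔ x ∈ t) :
    coin s = (t.card : ℝ≥0∞) / 16 := by
  have e : s = (t : Set (Fin 4 → Bool)) := Set.ext fun x => by simpa using h x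
  have h1 : ∀ x : Fin 4 → Bool, coin {x} = 1 / 16 := by
    intro x
    rw [Measure.pi_singleton]
    have : ∀ b : Bool, uniformOn (Set.univ : Set Bool) {b} = 2⁻¹ := by
      intro b
      rw [uniformOn_univ]; simp
    simp only [this, Finset.prod_const, Finset.card_univ, Fintype.card_fin]
    rw [← ENNReal.inv_pow]; norm_num
  rw [e, ← sum_measure_singleton]
  simp only [h1, Finset.sum_const, nsmul_eq_mul]
  rw [mul_one_div]

def val (i : Fin 4) (b : Bool) : ℕ :=
  if b then ![6, 10, 4, 12] i else ![2, 0, 3, 5] i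

theorem result :
    ¬ (∀ (Ω : Type) [MeasurableSpace Ω] (μ : Measure Ω) [IsProbabilityMeasure μ]
      (n : ℕ) (X : Fin n → Ω → ℝ),
      (∀ i, Measurable (X i)) →
      iIndepFun X μ →
      ∀ (a b c : Fin n), a ≠ b → a ≠ c → b ≠ c →
      ∀ (S W : Finset (Fin n × Fin n)),
        μ ({ω | (∀ p ∈ S, X p.1 ω < X p.2 ω) ∧ (∀ p ∈ W, X p.1 ω ≤ X p.2 ω)}
            ∩ {ω | X a ω < X c ω}) ≠ 0 →
        ProbabilityTheory.cond μ
            {ω | (∀ p ∈ S, X p.1 ω < X p.2 ω) ∧ (∀ p ∈ W, X p.1 ω ≤ X p.2 ω)}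
            {ω | X a ω < X b ω}
          ≤ ProbabilityTheory.cond μ
            ({ω | (∀ p ∈ S, X p.1 ω < X p.2 ω) ∧ (∀ p ∈ W, X p.1 ω ≤ X p.2 ω)}
              ∩ {ω | X a ω < X c ω})
            {ω | X a ω < X b ω}) := by
  intro h
  have hind : iIndepFun (fun (i : Fin 4) (ω : Fin 4 → Bool) => ((val i (ω i) : ℕ) : ℝ)) coin :=
    iIndepFun_pi (X := fun (i : Fin 4) (b : Bool) => ((val i b : ℕ) : ℝ))
      (fun i => (measurable_of_finite _).aemeasurable)
  have key := h (Fin 4 → Bool) coin 4 (fun i ω => ((val i (ω i) : ℕ) : ℝ))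
    (fun i => measurable_of_finite _) hind 0 1 2 (by decide) (by decide) (by decide)
    {(0, 3), (1, 3)} ∅
  rw [cond_apply (MeasurableSet.of_discrete), cond_apply (MeasurableSet.of_discrete)] at key
  rw [coin_apply _ (Finset.univ.filter fun ω : Fin 4 → Bool =>
        (val 0 (ω 0) < val 3 (ω 3) ∧ val 1 (ω 1) < val 3 (ω 3)) ∧ val 0 (ω 0) < val 2 (ω 2))
        (by intro x; simp),
      coin_apply _ (Finset.univ.filter fun ω : Fin 4 → Bool =>
        (val 0 (ω 0) < val 3 (ω 3) ∧ val 1 (ω 1) < val 3 (ω 3))) (by intro x; simp),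
      coin_apply _ (Finset.univ.filter fun ω : Fin 4 → Bool =>
        (val 0 (ω 0) < val 3 (ω 3) ∧ val 1 (ω 1) < val 3 (ω 3)) ∧ val 0 (ω 0) < val 1 (ω 1))
        (by intro x; simp),
      coin_apply _ (Finset.univ.filter fun ω : Fin 4 → Bool =>
        ((val 0 (ω 0) < val 3 (ω 3) ∧ val 1 (ω 1) < val 3 (ω 3)) ∧ val 0 (ω 0) < val 2 (ω 2))
          ∧ val 0 (ω 0) < val 1 (ω 1)) (by intro x; simp)] at key
  have c1 : (Finset.univ.filter fun ω : Fin 4 → Bool =>
        (val 0 (ω 0) < val 3 (ω 3) ∧ val 1 (ω 1) < val 3 (ω 3)) ∧ val 0 (ω 0) < val 2 (ω 2)).card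
        = 6 := by decide +kernel
  have c2 : (Finset.univ.filter fun ω : Fin 4 → Bool =>
        (val 0 (ω 0) < val 3 (ω 3) ∧ val 1 (ω 1) < val 3 (ω 3))).card = 10 := by decide +kernel
  have c3 : (Finset.univ.filter fun ω : Fin 4 → Bool =>
        (val 0 (ω 0) < val 3 (ω 3) ∧ val 1 (ω 1) < val 3 (ω 3)) ∧ val 0 (ω 0) < val 1 (ω 1)).card
        = 4 := by decide +kernel
  have c4 : (Finset.univ.filter fun ω : Fin 4 → Bool =>
        ((val 0 (ω 0) < val 3 (ω 3) ∧ val 1 (ω 1) < val 3 (ω 3)) ∧ val 0 (ω 0) < val 2 (ω 2))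
          ∧ val 0 (ω 0) < val 1 (ω 1)).card = 2 := by decide +kernel
  rw [c1, c2, c3, c4] at key
  have k2 := key (by simp)
  have k3 := ENNReal.toReal_mono 
    (ENNReal.mul_ne_top (ENNReal.inv_ne_top.2 (by simp)) (ENNReal.div_ne_top (by simp) (by simp))) k2
  simp only [ENNReal.toReal_mul, ENNReal.toReal_inv, ENNReal.toReal_div, ENNReal.toReal_natCast,
    ENNReal.toReal_ofNat] at k3
  norm_num at k3

end Pool.Agent.S19560
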