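import Pool.Statements.S19562
import Pool.Agent.H.MP_aa6ebe_pr.B

set_option autoImplicit false
open MeasureTheory
open Pool Pool.MP_aa6ebe_pr

namespace Pool.Agent.S19562

theorem result :
    ¬ (∀ (G : Type) [Group G] [Countable G] [MeasurableSpace G] [DiscreteMeasurableSpace G]
      (μ ν : PMF G),
      (∀ g : G, μ g⁻¹ = μ g) → Subgroup.closure μ.support = ⊤ →
      (∀ g : G, ν g⁻¹ = ν g) → Subgroup.closure ν.support = ⊤ →
      (∀ n : ℕ, ∀ᵐ ω ∂(Measure.infinitePi (fun _ : ℕ => μ.toMeasure)),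
          Subsemigroup.closure
            (Set.range (fun k : ℕ => ((List.range (n + k)).map ω).prod)) = ⊤) →
      (∀ n : ℕ, ∀ᵐ ω ∂(Measure.infinitePi (fun _ : ℕ => ν.toMeasure)),
          Subsemigroup.closure
            (Set.range (fun k : ℕ => ((List.range (n + k)).map ω).prod)) = ⊤)) := by
  intro h
  let : MeasurableSpace Lib.helper3.AR.Z := ⊤
  obtain ⟨ν, h1, h2, h3⟩ := Lib.helper3.AR.notAR_Z (MulEquiv.refl _)
  exact h3 (h _ _ ν (Lib.helper3.AR.st_symm _ _)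
    (Lib.helper3.AR.st_gen _ H.MP_aa6ebe_pr.nv_ne _ H.MP_aa6ebe_pr.gm_gen) h1 h2
    H.MP_aa6ebe_pr.yesAR 1)

end Pool.Agent.S19562
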