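import Pool.Statements.S19593
import Pool.Agent.H.MP_b9fdbf_pr.F

set_option autoImplicit false
open MeasureTheory ProbabilityTheory
open Pool Pool.MP_b9fdbf_pr

namespace Pool.Agent.S19593

open Pool.Agent.H.MP_b9fdbf_pr Pool.Agent.Lib.helper3.Chain
open scoped ENNReal NNReal

abbrev W := ℤ × ℤ × ℤ

abbrev Z := ℕ × (ℕ → ℕ) × (ℕ × ℕ → Fin 6)

def ι : Fin 6 → S 3 := ![(0, true), (0, false), (1, true), (1, false), (2, true), (2, false)]

def e : W ≃+ V 3 where
  toFun p := ![p.1, p.2.1, p.2.2]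
  invFun x := (x 0, x 1, x 2)
  left_inv _ := rfl
  right_inv x := by funext i; fin_cases i <;> rfl
  map_add' p q := by funext i; fin_cases i <;> rfl

lemma e_st (j : Fin 6) : e ((![(1, 0, 0), (-1, 0, 0), (0, 1, 0), (0, -1, 0), (0, 0, 1),
    (0, 0, -1)] : Fin 6 → W) j) = st (ι j) := by
  revert j
  decide

def wm (i : ℕ) (z : (ℕ → ℕ) × (ℕ × ℕ → Fin 6)) : ℕ × (ℕ → S 3) := (z.1 i, fun k => ι (z.2 (i, k)))

def E (T : Set (Finset (V 3))) : Set (ℕ × (ℕ → S 3)) := ⋃ n, {n + 1} ×ˢ (tr n ⁻¹' T)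

lemma mE (T : Set (Finset (V 3))) : MeasurableSet (E T) :=
  .iUnion fun n => (measurableSet_singleton _).prod (mtr n trivial)

def H (z : Z) (A : Finset (V 3)) : Prop := ∃ i < z.1, wm i z.2 ∈ E {A}

variable (m : PMF ℕ)

noncomputable abbrev Q : Measure ((ℕ → ℕ) × (ℕ × ℕ → Fin 6)) :=
  (Measure.infinitePi fun _ => m.toMeasure).prod
    (Measure.infinitePi fun _ => (PMF.uniformOfFintype (Fin 6)).toMeasure)

lemma mp_wm (i : ℕ) : MeasurePreserving (wm i) (Q m) (m.toMeasure.prod (σ 3)) := by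
  have h0 : (PMF.uniformOfFintype (Fin 6)).toMeasure.map ι = u 3 := by
    have : ι.Bijective := by decide
    refine Measure.ext_of_singleton fun s => ?_
    obtain ⟨j, rfl⟩ := this.2 s
    rw [Measure.map_apply (measurable_of_countable _) .of_discrete, u_single,
      ← Set.image_singleton, this.1.preimage_image, PMF.toMeasure_apply_singleton _ _ .of_discrete,
      PMF.uniformOfFintype_apply, ← ENNReal.mul_inv (by simp) (by simp)]
    norm_num
  have h1 : MeasurePreserving (fun (w : ℕ × ℕ → Fin 6) k => w (i, k))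
      (Measure.infinitePi fun _ => (PMF.uniformOfFintype (Fin 6)).toMeasure) _ :=
    ⟨by fun_prop, Measure.map_infinitePi_infinitePi_of_inj (Prod.mk_right_injective i)⟩
  have h2 : MeasurePreserving (fun (w : ℕ → Fin 6) k => ι (w k))
      (Measure.infinitePi fun _ => (PMF.uniformOfFintype (Fin 6)).toMeasure) (σ 3) :=
    ⟨measurable_pi_lambda _ fun k => (measurable_of_countable ι).comp (measurable_pi_apply k), by
      rw [Measure.infinitePi_map_pi _ fun _ => measurable_of_countable ι]; simp only [h0]⟩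
  exact (measurePreserving_eval_infinitePi _ i).prod (h2.comp h1)

lemma P_wm (i : ℕ) (T : Set (Finset (V 3))) :
    Q m (wm i ⁻¹' E T) = ν 3 (fun n => m (n + 1)) T := by
  rw [(mp_wm m i).measure_preimage (mE T).nullMeasurableSet, E, measure_iUnion
    (fun a b h => Set.disjoint_prod.2 (Or.inl (by simpa using h)))
    fun n => (measurableSet_singleton _).prod (mtr n trivial), ν_apply]
  simp [Measure.prod_prod, PMF.toMeasure_apply_singleton _ _ (measurableSet_singleton _)]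

lemma mH (A : Finset (V 3)) : MeasurableSet {z | H z A} := by
  simp only [H, Set.ofPred_exists]
  exact .iUnion fun i => (measurableSet_lt measurable_const measurable_fst).inter
    (((mp_wm (PMF.pure 0) i).measurable.comp measurable_snd) (mE _))

lemma po (v : ℝ≥0) : (poissonPMF v).toMeasure = poissonMeasure v :=
  Measure.ext_of_singleton fun n => by
    rw [PMF.toMeasure_apply_singleton _ _ .of_discrete, poissonMeasure_singleton]; rfl

lemma mean (l : ℝ≥0) : ∫⁻ n, (n : ℝ≥0∞) ∂poissonMeasure l = l := by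
  have : ∀ n : ℕ, ((n + 1 : ℕ) : ℝ≥0∞) * poissonMeasure l {n + 1} = l * poissonMeasure l {n} :=
    fun n => by
      rw [poissonMeasure_singleton, poissonMeasure_singleton, ← ENNReal.ofReal_natCast,
        ← ENNReal.ofReal_coe_nnreal, ← ENNReal.ofReal_mul (by positivity),
        ← ENNReal.ofReal_mul (by positivity), Nat.factorial_succ]
      congr 1
      push_cast
      field_simp
      ring
  have h : ∑' n, poissonMeasure l {n} = 1 := by
    simpa using (lintegral_countable' (μ := poissonMeasure l) fun _ => 1).symm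
  rw [lintegral_countable', tsum_eq_zero_add' ENNReal.summable]
  simp only [this, ENNReal.tsum_mul_left, Nat.cast_zero, zero_mul, zero_add, h, mul_one]

lemma up (v : ℝ≥0) (A : Finset (V 3)) :
    (poissonMeasure v).prod (Q m) {z | H z A} ≤ v * ν 3 (fun n => m (n + 1)) {A} := by
  rw [Measure.prod_apply (mH A), ← mean, ← lintegral_mul_const _ (measurable_of_countable _)]
  refine lintegral_mono fun n => ?_
  rw [show Prod.mk n ⁻¹' {z | H z A} = ⋃ i ∈ Finset.range n, wm i ⁻¹' E {A} by ext; simp [H]]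
  exact (measure_biUnion_finset_le _ _).trans (by simp [P_wm])

lemma low (hm : ∑' n, m (n + 1) = 1) (v : ℝ≥0) (hv : 0 < v) : ∃ c : ℝ, 0 < c ∧
    ∀ T : Finset (Finset (V 3)), (poissonMeasure v).prod (Q m) {z | ∀ A ∈ T, ¬ H z A} ≤
      ENNReal.ofReal (Real.exp (-(c * (ν 3 (fun n => m (n + 1)) T).toReal))) := by
  refine ⟨_, poissonMeasure_real_singleton_pos 1 hv, fun T => ?_⟩
  have h1 := ne_top_of_le_ne_top ENNReal.one_ne_top (ν_le (d := 3) hm T)
  refine (measure_mono (t := ({1} ×ˢ (wm 0 ⁻¹' E T))ᶜ) ?_).trans ?_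
  · rintro ⟨n, z⟩ h ⟨rfl, h2⟩
    obtain ⟨n, h3, h4⟩ := Set.mem_iUnion.1 h2
    exact h _ h4 ⟨0, one_pos, Set.mem_iUnion.2 ⟨n, h3, rfl⟩⟩
  · rw [prob_compl_eq_one_sub ((measurableSet_singleton _).prod ((mp_wm m 0).measurable (mE _))),
      Measure.prod_prod, P_wm, ← ENNReal.ofReal_toReal (ENNReal.mul_ne_top (measure_ne_top _ _) h1),
      ← ENNReal.ofReal_one, ← ENNReal.ofReal_sub _ ENNReal.toReal_nonneg, ENNReal.toReal_mul]
    exact ENNReal.ofReal_le_ofReal (by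
      rw [sub_eq_neg_add]; exact Real.add_one_le_exp _)

def Ψ (ω : (W → ℕ) × (W × ℕ → ℕ) × (W × ℕ × ℕ → Fin 6)) (y : V 3) : Z :=
  (ω.1 (e.symm y), fun i => ω.2.1 (e.symm y, i), fun q => ω.2.2 (e.symm y, q))

lemma mp_Ψ (ρ : Measure ℕ) [IsProbabilityMeasure ρ] : MeasurePreserving Ψ
    ((Measure.infinitePi fun _ => ρ).prod ((Measure.infinitePi fun _ => m.toMeasure).prod
      (Measure.infinitePi fun _ => (PMF.uniformOfFintype (Fin 6)).toMeasure)))
    (PP (ρ.prod (Q m)) _) := by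
  have h1 : ∀ {Y : Type} [MeasurableSpace Y] (μ : Measure Y) [IsProbabilityMeasure μ],
      MeasurePreserving (fun (w : W → Y) (y : V 3) => w (e.symm y))
        (Measure.infinitePi fun _ => μ) (Measure.infinitePi fun _ => μ) := fun μ _ =>
    ⟨by fun_prop, Measure.map_infinitePi_infinitePi_of_inj e.symm.injective⟩
  have h2 : ∀ (J : Type) {Y : Type} [MeasurableSpace Y] (μ : Measure Y) [IsProbabilityMeasure μ],
      MeasurePreserving (MeasurableEquiv.curry W J Y) (Measure.infinitePi fun _ => μ)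
        (Measure.infinitePi fun _ => Measure.infinitePi fun _ => μ) := fun J _ _ μ _ =>
    ⟨by fun_prop, Measure.infinitePi_map_curry fun _ _ => μ⟩
  exact (zip _ _).comp ((h1 _).prod ((zip _ _).comp
    (((h1 _).comp (h2 _ _)).prod ((h1 _).comp (h2 _ _)))))

lemma cov_iff (ω : (W → ℕ) × (W × ℕ → ℕ) × (W × ℕ × ℕ → Fin 6)) (p : W) :
    cov H (Ψ ω) Set.univ (e p) ↔ ∃ x : W, ∃ i : ℕ, i < ω.1 x ∧ ∃ j : ℕ, j < ω.2.1 (x, i) ∧
      p = x + ∑ k ∈ Finset.range j, (![(1, 0, 0), (-1, 0, 0), (0, 1, 0), (0, -1, 0), (0, 0, 1),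
        (0, 0, -1)] : Fin 6 → W) (ω.2.2 (x, i, k)) := by
  simp only [← e.injective.eq_iff (b := _ + _), map_add, map_sum, e_st]
  constructor
  · rintro ⟨y, -, A, ⟨i, h1, h2⟩, h3⟩
    obtain ⟨n, h4, rfl⟩ := Set.mem_iUnion.1 h2
    obtain ⟨j, h5, h6⟩ := Finset.mem_image.1 h3
    refine ⟨e.symm y, i, h1, j, (Finset.mem_range.1 h5).trans_eq (Eq.symm h4), ?_⟩
    rw [e.apply_symm_apply, ← sub_eq_iff_eq_add', ← h6]
    rfl
  · rintro ⟨x, i, h1, j, h2, h3⟩
    obtain ⟨n, hn⟩ := Nat.exists_eq_add_one.2 (Nat.zero_lt_of_lt h2)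
    refine ⟨e x, trivial, _, ⟨i, h1, Set.mem_iUnion.2 ⟨n, hn, rfl⟩⟩, ?_⟩
    rw [h3, add_sub_cancel_left]
    exact mem_tr (by omega) fun k => ι (ω.2.2 (x, i, k))

lemma adj_e (p q : W) : Adj (e p) (e q) ↔ |q.1 - p.1| + |q.2.1 - p.2.1| + |q.2.2 - p.2.2| = 1 := by
  rw [← adj_iff, Fin.sum_univ_three, abs_sub_comm q.1, abs_sub_comm q.2.1, abs_sub_comm q.2.2]
  rfl

theorem result :
    ∀ (β : ℝ) (m : PMF ℕ), m 0 = 0 →
      (∃ c C : ℝ, 0 < c ∧ 0 < C ∧ ∀ ℓ : ℕ, 1 ≤ ℓ →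
          c * (ℓ : ℝ) ^ (-β) ≤ (m ℓ).toReal ∧ (m ℓ).toReal ≤ C * (ℓ : ℝ) ^ (-β)) →
      ((∃ v : NNReal, 0 < v ∧
          ((Measure.infinitePi (fun _ : ℤ × ℤ × ℤ => (poissonPMF v).toMeasure)).prod
            ((Measure.infinitePi (fun _ : (ℤ × ℤ × ℤ) × ℕ => m.toMeasure)).prod
              (Measure.infinitePi
                (fun _ : (ℤ × ℤ × ℤ) × ℕ × ℕ => (PMF.uniformOfFintype (Fin 6)).toMeasure))))
          {ω : (ℤ × ℤ × ℤ → ℕ) × ((ℤ × ℤ × ℤ) × ℕ → ℕ) × ((ℤ × ℤ × ℤ) × ℕ × ℕ → Fin 6) |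
            ∃ p : ℕ → ℤ × ℤ × ℤ, Function.Injective p ∧ ∀ n : ℕ,
              |(p (n + 1)).1 - (p n).1| + |(p (n + 1)).2.1 - (p n).2.1|
                  + |(p (n + 1)).2.2 - (p n).2.2| = 1 ∧
              ∃ x : ℤ × ℤ × ℤ, ∃ i : ℕ, i < ω.1 x ∧ ∃ j : ℕ, j < ω.2.1 (x, i) ∧
                p n = x + ∑ k ∈ Finset.range j,
                  (![(1, 0, 0), (-1, 0, 0), (0, 1, 0), (0, -1, 0), (0, 0, 1), (0, 0, -1)] :
                      Fin 6 → ℤ × ℤ × ℤ) (ω.2.2 (x, i, k))} = 0)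
        ↔ (5 / 2 : ℝ) ≤ β) := by
  rintro β m h0 ⟨c, C, hc, hC, h⟩
  have hm : ∑' n, m (n + 1) = 1 := by
    have := m.tsum_coe
    rwa [tsum_eq_zero_add' ENNReal.summable, h0, zero_add] at this
  rw [show (5 / 2 : ℝ) = 1 + (3 : ℕ) / 2 by norm_num, ← dich (d := 3) (Or.inl rfl)
    (fun v => (poissonMeasure v).prod (Q m)) mH hm (up m) (low m hm) hc hC fun n => by
      have := h (n + 1) le_add_self
      push_cast at this
      exact ⟨ENNReal.ofReal_le_of_le_toReal this.1,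
        (ENNReal.ofReal_toReal (m.apply_ne_top _)).ge.trans (ENNReal.ofReal_le_ofReal this.2)⟩]
  refine exists_congr fun v => and_congr_right fun _ => ?_
  rw [po, ← (mp_Ψ m _).measure_preimage (mPerc mH _).nullMeasurableSet]
  refine iff_of_eq (congrArg (· = 0) (congrArg _ (Set.ext fun ω => ?_)))
  simp only [Set.mem_ofPred_eq, ← cov_iff, ← adj_e]
  constructor
  · rintro ⟨p, h1, h2⟩
    refine ⟨e (p 0), Set.infinite_of_injective_forall_mem (e.injective.comp h1) fun n => ?_⟩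
    induction n with
    | zero => exact .refl
    | succ n ih => exact ih.tail ⟨(h2 n).2, (h2 (n + 1)).2, (h2 n).1⟩
  · rintro ⟨a, ha⟩
    obtain ⟨p, h1, h2⟩ := ray (R := Rl H (Ψ ω) Set.univ)
      (fun p => (Set.finite_range fun s => p + st s).subset fun q ⟨_, _, s, h⟩ => ⟨s, h.symm⟩) ha
    exact ⟨fun n => e.symm (p n), e.symm.injective.comp h1, fun n => by
      simpa using And.intro (h2 n).2.2 (h2 n).1⟩

end Pool.Agent.S19593
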