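import Pool.Statements.S19597
import Pool.Agent.H.MP_ba3ff3_pr.Cases

set_option autoImplicit false
open Pool Pool.MP_ba3ff3_pr

namespace Pool.Agent.S19597
open Pool.Agent.H.MP_ba3ff3_pr

theorem result :
    ∃ lam : ℝ, 0 < lam ∧
      ∃ f : ℝ → Bool → ℝ,
        (∀ p ∈ Set.Icc (0:ℝ) 1, ∀ b : Bool, f p b ∈ Set.Icc (0:ℝ) 1) ∧
        ∃ π : ℕ → ℝ → ℝ,
          (∀ w p, 0 ≤ π w p) ∧
          (∀ w p, π w p ≠ 0 → p ∈ Set.Icc (0:ℝ) 1) ∧
          Summable (fun x : ℕ × ℝ => π x.1 x.2) ∧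
          (∑' x : ℕ × ℝ, π x.1 x.2) = 1 ∧
          ∀ w' : ℕ, ∀ p' : ℝ,
            π w' p' = ∑' x : ℕ × ℝ, π x.1 x.2 *
              ((if x.1 ≤ w' + 1 ∧ f x.2 true = p' then
                  ((x.1 : ℝ) * x.2 * (1 - x.2) ^ (x.1 - 1)) *
                    (Real.exp (-lam) * lam ^ (w' + 1 - x.1) / ((w' + 1 - x.1).factorial : ℝ))
                else 0) +
               (if x.1 ≤ w' ∧ f x.2 false = p' then
                  (1 - (x.1 : ℝ) * x.2 * (1 - x.2) ^ (x.1 - 1)) *
                    (Real.exp (-lam) * lam ^ (w' - x.1) / ((w' - x.1).factorial : ℝ))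
                else 0)) := by
  obtain ⟨k, M, z, hk1, h⟩ := exists_par
  have hM := h.Mge
  have hk : (0 : ℝ) < k := by exact_mod_cast hk1
  obtain ⟨p, hp, hpb⟩ := exists_inj (S := ℕ × ℕ)
    (fun s => if s.2 < 4 * M then 1 - 1 / (328 * M) else k / (4 * ((s.2 - 4 * M + 1 : ℕ) + 2 * k : ℝ)))
    (fun s => if s.2 < 4 * M then 1 else k / (2 * ((s.2 - 4 * M + 1 : ℕ) + 2 * k : ℝ))) (by
      intro s
      split_ifs
      · have : (0 : ℝ) < 1 / (328 * M) := by positivity
        linarith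
      · have : (0 : ℝ) < ((s.2 - 4 * M + 1 : ℕ) + 2 * k : ℝ) := by positivity
        exact div_lt_div_of_pos_left hk (by positivity) (by linarith))
  have hp0 : ∀ s, 0 ≤ p s := by
    intro s
    have := (hpb s).1
    split_ifs at this
    · have hε : 1 / (328 * (M : ℝ)) ≤ 1 / 32 := one_div_le_one_div_of_le (by norm_num) (by linarith)
      linarith
    · exact le_trans (by positivity) this.le
  have hp1 : ∀ s, p s ≤ 1 := by
    intro s
    have := (hpb s).2
    split_ifs at this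
    · exact this.le
    · refine this.le.trans ?_
      have h0 : (0 : ℝ) ≤ ((s.2 - 4 * M + 1 : ℕ) : ℝ) := by positivity
      rw [div_le_one (by positivity)]
      linarith
  refine ⟨1 / M, by positivity, ?_⟩
  refine auto (1 / M) (by positivity) p hp hp0 hp1 (nx M) (fun x => ENNReal.ofReal (VV M z x))
    ({1} ×ˢ (Set.Iio 6 ×ˢ Set.Iio (4 * M)))
    ((Set.finite_singleton _).prod ((Set.finite_Iio _).prod (Set.finite_Iio _)))
    (ENNReal.ofReal (80 * M)) ENNReal.ofReal_ne_top (0, (0, 0)) ENNReal.ofReal_ne_top ?_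
  rintro w ⟨J, n⟩
  have h1 := (hpb (J, n)).1
  have h2 := (hpb (J, n)).2
  by_cases hn : n < 4 * M
  · simp only [if_pos hn] at h1 h2
    refine (h.listen w J n hn _ (hp1 _) h1.le).trans ?_
    split_ifs with hc
    · rw [Set.indicator_of_mem (by simp [hc.1, hc.2, hn])]
      exact ENNReal.ofReal_add_le
    · rw [add_zero]
      exact le_self_add
  · simp only [if_neg hn] at h1 h2
    exact (h.sweep hk1 w J n (not_lt.1 hn) _ (hp0 _) (hp1 _) h1.le h2.le).trans le_self_add

end Pool.Agent.S19597
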