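import Pool.Statements.S19615
import Pool.Agent.H.MP_bf37ff_pr.B

set_option autoImplicit false
open MeasureTheory
open Pool Pool.MP_bf37ff_pr

namespace Pool.Agent.S19615

open Pool.Agent.H.MP_bf37ff_pr ProbabilityTheory Set Filter unitInterval
open scoped ENNReal NNReal

theorem main (μ : Measure ℝ) [IsProbabilityMeasure μ] (hμ : μ ≪ volume) (a b : ℝ) (hab : a ≤ b)
    (hs : μ (Set.Icc a b)ᶜ = 0) :
    ∃ N : ℕ, ∀ n : ℕ, N ≤ n →
        ∃ ν : Measure (Fin n → ℝ), IsProbabilityMeasure ν ∧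
          (∀ i : Fin n, ν.map (fun x => x i) = μ) ∧
          ∃ c : ℝ, ∀ᵐ x ∂ν, ∑ i, x i = c := by
  obtain ⟨j0, h, C, φ, hh, hφ, hC, hsum⟩ := split μ hμ
  obtain ⟨L, hL⟩ := exists_nat_ge ((b - a) / h)
  let F : Set ℝ → ℝ → ℝ≥0∞ := fun s x => ∑ c, volume {w : I | φ c (x, w) ∈ s}
  have hF : ∀ s, MeasurableSet s → Measurable (F s) := fun s hs =>
    Finset.measurable_sum _ fun c _ => measurable_measure_prodMk_left (hφ c hs)
  let ψ : Bool → ℝ × I → ℝ := fun c p => φ c (1 + p.1, p.2)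
  have hψ : ∀ c, Measurable (ψ c) := fun c => (hφ c).comp (by fun_prop)
  let Φ : Measure ℝ := (L : ℝ≥0∞) • ∑ c, (U.prod volume).map (ψ c) +
    (L + 2 : ℝ≥0∞) • ∑ c, (U.prod volume).map (φ c)
  have hΦ : ∀ s, MeasurableSet s →
      Φ s = L * ∫⁻ u, F s (1 + u) ∂U + (L + 2) * ∫⁻ u, F s u ∂U := by
    intro s hs
    simp only [Φ, Measure.add_apply, Measure.smul_apply, smul_eq_mul, Measure.finsetSum_apply,
      Measure.map_apply (hψ _) hs, Measure.map_apply (hφ _) hs,
      Measure.prod_apply (hψ _ hs), Measure.prod_apply (hφ _ hs)]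
    rw [← lintegral_finsetSum _ fun c _ => measurable_measure_prodMk_left (hψ c hs),
      ← lintegral_finsetSum _ fun c _ => measurable_measure_prodMk_left (hφ c hs)]
    rfl
  have hΦ1 : Φ univ = (4 * L + 4 : ℕ) := by
    rw [hΦ _ MeasurableSet.univ]
    simp only [F, mem_univ, ofPred_true, measure_univ, lintegral_const, mul_one,
      Fintype.sum_bool]
    push_cast; ring
  have hFC : ∀ s, MeasurableSet s → ∀ x, F s x ≤ 2 * (C * μ s) := fun s hs x => by
    simp only [F, Fintype.sum_bool, two_mul]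
    exact add_le_add (hC _ _ s hs) (hC _ _ s hs)
  have hΦ2 : ∀ s, MeasurableSet s → Φ s ≤ ((4 * L + 4) * C : ℕ) * μ s := by
    intro s hs
    rw [hΦ s hs]
    calc _ ≤ L * ∫⁻ _, 2 * (C * μ s) ∂U + (L + 2) * ∫⁻ _, 2 * (C * μ s) ∂U := by
          gcongr <;> exact hFC s hs _
      _ = _ := by simp only [lintegral_const, measure_univ]; push_cast; ring
  refine ⟨(4 * L + 4) * C + (4 * L + 4) + 1, fun n hn => ?_⟩
  obtain ⟨k, rfl⟩ : ∃ k, n = k + (4 * L + 4) := ⟨n - (4 * L + 4), by omega⟩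
  have hk : 0 < k := by omega
  have hk0 : (k : ℝ≥0∞) ≠ 0 := by simp [hk.ne']
  have hfin : IsFiniteMeasure Φ := ⟨by rw [hΦ1]; exact ENNReal.natCast_lt_top _⟩
  have hle : Φ ≤ ((k + (4 * L + 4) : ℕ) : ℝ≥0∞) • μ := Measure.le_iff.2 fun s hs =>
    (hΦ2 s hs).trans (mul_le_mul_left (Nat.cast_le.2 (by omega)) _)
  let G : Measure ℝ := (k : ℝ≥0∞)⁻¹ • (((k + (4 * L + 4) : ℕ) : ℝ≥0∞) • μ - Φ)
  have hG : ∀ s, k * G s + Φ s = ((k + (4 * L + 4) : ℕ) : ℝ≥0∞) * μ s := by
    intro s
    have := congrArg (fun m : Measure ℝ => m s) (Measure.sub_add_cancel_of_le hle)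
    simp only [Measure.add_apply, Measure.smul_apply, smul_eq_mul] at this
    rw [← this]
    simp only [G, Measure.smul_apply, smul_eq_mul]
    rw [← mul_assoc, ENNReal.mul_inv_cancel hk0 (by simp), one_mul]
  have : IsProbabilityMeasure G := ⟨by
    have h1 := hG univ
    rw [hΦ1, measure_univ (μ := μ), mul_one, Nat.cast_add k,
      ENNReal.add_left_inj (ENNReal.natCast_ne_top _)] at h1
    exact (ENNReal.mul_right_inj hk0 (by simp)).1 (h1.trans (mul_one _).symm)⟩
  have hGs : G (Icc a b)ᶜ = 0 := by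
    have h1 := hG (Icc a b)ᶜ
    rw [hs, mul_zero, add_eq_zero, mul_eq_zero] at h1
    exact h1.1.resolve_left hk0
  obtain ⟨Q, hQ, hQm, hQG⟩ := quant G a b hab hGs
  have hQ' := hQ.measurable
  let S : ℝ → ℝ := fun u => ∑ i ∈ Finset.range k, Q ((i + u) * (k : ℝ)⁻¹)
  have hS : Measurable S := Finset.measurable_sum _ fun i _ => hQ'.comp (by fun_prop)
  have hSm : Monotone S := fun u v huv => Finset.sum_le_sum fun i _ => hQ (by gcongr)
  have hS01 : S 1 - S 0 ≤ b - a := by
    have := Finset.sum_range_sub (fun i : ℕ => Q (i * (k : ℝ)⁻¹)) k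
    simp only [S, ← Finset.sum_sub_distrib, add_zero]
    push_cast at this
    rw [this]
    linarith [(hQm (k * (k : ℝ)⁻¹)).2, (hQm (0 * (k : ℝ)⁻¹)).1]
  have hU : ∀ᵐ u ∂U, u ∈ Ico (0 : ℝ) 1 := ae_restrict_mem measurableSet_Ico
  have hSi : Integrable S U := (hSm.monotoneOn _).integrableOn_isCompact isCompact_Icc
    |>.mono_set Ico_subset_Icc_self
  set s0 := ∫ u, S u ∂U with hs0
  have hs1 : S 0 ≤ s0 := by
    simpa using integral_mono_ae (integrable_const (S 0)) hSi (hU.mono fun u hu => hSm hu.1)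
  have hs2 : s0 ≤ S 1 := by
    simpa using integral_mono_ae hSi (integrable_const (S 1)) (hU.mono fun u hu => hSm hu.2.le)
  let T : ℝ → ℝ := fun u => L - (S u - s0) / h
  have hT : Measurable T := by fun_prop
  have hTm : ∀ u ∈ Ico (0 : ℝ) 1, T u ∈ Icc (0 : ℝ) (2 * L) := by
    intro u hu
    have h1 : (S u - s0) / h ≤ (b - a) / h := 
      div_le_div_of_nonneg_right (by linarith [hSm hu.2.le]) hh.le
    have h2 : (s0 - S u) / h ≤ (b - a) / h := 
      div_le_div_of_nonneg_right (by linarith [hSm hu.1]) hh.le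
    have h3 : (s0 - S u) / h = -((S u - s0) / h) := by ring
    constructor <;> simp only [T] <;> linarith
  have hTi : Integrable T U := (integrable_const _).sub ((hSi.sub (integrable_const _)).div_const _)
  have hTI : ∫ u, T u ∂U = L := by
    simp only [T]
    rw [integral_sub (g := fun u => (S u - s0) / h) (integrable_const _)
      ((hSi.sub (integrable_const _)).div_const _),
      integral_div, integral_sub hSi (integrable_const _)]
    simp [hs0]
  have hT1 : ∫⁻ u, ENNReal.ofReal (T u) ∂U = L := by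
    rw [← ofReal_integral_eq_lintegral_ofReal hTi (hU.mono fun u hu => (hTm u hu).1), hTI]; simp
  have hT2 : ∫⁻ u, ENNReal.ofReal (2 * L - T u) ∂U = L := by
    rw [← ofReal_integral_eq_lintegral_ofReal (f := fun u => 2 * L - T u)
      ((integrable_const _).sub hTi)
      (hU.mono fun u hu => sub_nonneg.2 (hTm u hu).2), integral_sub (integrable_const _) hTi, hTI]
    simp [two_mul]
  let P0 : Measure (ℝ × ℝ × ℝ) := U.prod (U.prod U)
  let Y : Flex L → ℝ × ℝ × ℝ → ℝ := fun j p => W L j (T p.1, p.2)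
  have hY : ∀ j, Measurable (Y j) := fun j => (W_meas L j).comp (by fun_prop)
  let X : Fin k ⊕ (Flex L × Bool) → (ℝ × ℝ × ℝ) × I → ℝ := fun i ω =>
    match i with
    | .inl i => Q ((i + ω.1.1) * (k : ℝ)⁻¹)
    | .inr q => φ q.2 (Y q.1 ω.1, ω.2)
  have hX : ∀ i, Measurable (X i) := by
    rintro (i | q)
    · exact hQ'.comp (by fun_prop)
    · exact (hφ q.2).comp (((hY q.1).comp measurable_fst).prodMk measurable_snd)
  refine sym (P0.prod volume) _ (by omega) (by simp; ring) X hX μ (fun s hs => ?_)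
    (s0 + (2 * L + 2) * j0 + h * (2 * L + 1)) ?_
  · rw [← hG s, Fintype.sum_sum_type]
    congr 1
    · rw [← hQG, Measure.map_apply hQ' hs, ← lintegral_indicator_one (hQ' hs), ← rot k hk,
        Finset.sum_range]
      refine Finset.sum_congr rfl fun i _ => ?_
      have hm : MeasurableSet ((fun u : ℝ => Q ((i + u) * (k : ℝ)⁻¹)) ⁻¹' s) :=
        hs.preimage (hQ'.comp (by fun_prop))
      have e := ((measurePreserving_fst (μ := U) (ν := U.prod U)).comp
        (measurePreserving_fst (μ := P0) (ν := (volume : Measure I)))).measure_preimage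
        hm.nullMeasurableSet
      refine e.trans ?_
      rw [← lintegral_indicator_one hm]
      rfl
    · rw [Fintype.sum_prod_type, hΦ s hs]
      have e1 : ∀ j, ∑ c, (P0.prod volume) (X (.inr (j, c)) ⁻¹' s) =
          ∫⁻ u, ∫⁻ p, F s (W L j (T u, p)) ∂(U.prod U) ∂U := by
        intro j
        rw [← lintegral_prod (fun p => F s (Y j p)) ((hF s hs).comp (hY j)).aemeasurable]
        simp only [Measure.prod_apply (hX _ hs)]
        exact (lintegral_finsetSum _ fun c _ =>
          measurable_measure_prodMk_left (ν := volume) (hX (.inr (j, c)) hs)).symm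
      simp only [e1]
      rw [← lintegral_finsetSum (f := fun j u => ∫⁻ p, F s (W L j (T u, p)) ∂(U.prod U)) _
          fun j _ => ((hF s hs).comp (hY j)).lintegral_prod_right',
        lintegral_congr_ae (hU.mono fun u hu => W_law L (T u) (hTm u hu) (F s) (hF s hs)),
        lintegral_add_right _ measurable_const,
        lintegral_add_left (hT.ennreal_ofReal.mul_const _),
        lintegral_mul_const _ hT.ennreal_ofReal,
        lintegral_mul_const _ (hT.const_sub _).ennreal_ofReal, hT1, hT2]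
      simp only [lintegral_const, measure_univ]
      ring
  · have a1 : ∀ᵐ p ∂P0, p.1 ∈ Ico (0 : ℝ) 1 := Measure.quasiMeasurePreserving_fst.ae hU
    have a2 : ∀ᵐ p ∂P0, p.2.1 ∈ Ico (0 : ℝ) 1 :=
      Measure.quasiMeasurePreserving_snd.ae (Measure.quasiMeasurePreserving_fst.ae hU)
    have a3 : ∀ᵐ p ∂P0, p.2.2 ∈ Ico (0 : ℝ) 1 :=
      Measure.quasiMeasurePreserving_snd.ae (Measure.quasiMeasurePreserving_snd.ae hU)
    filter_upwards [Measure.quasiMeasurePreserving_fst.ae (a1.and (a2.and a3))] with ω hω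
    obtain ⟨h1, h2, h3⟩ := hω
    rw [Fintype.sum_sum_type, Fintype.sum_prod_type]
    have e1 : ∑ i : Fin k, X (.inl i) ω = S ω.1.1 :=
      (Finset.sum_range fun i : ℕ => Q ((i + ω.1.1) * (k : ℝ)⁻¹)).symm
    have e2 : ∀ j, ∑ c, X (.inr (j, c)) ω = j0 + h * Y j ω.1 := fun j => by
      rw [Fintype.sum_bool]
      exact hsum _ (W_mem L j _ _ _ h2 h3) _
    have e3 : ∑ j, Y j ω.1 = T ω.1.1 + 1 + L := W_sum L _ _ _ (hTm _ h1) h2
    simp only [e1, e2, Finset.sum_add_distrib, ← Finset.mul_sum, e3, T]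
    simp
    field_simp
    ring

theorem result :
    ∀ μ : Measure ℝ, IsProbabilityMeasure μ →
      μ ≪ volume →
      (∃ a b : ℝ, μ (Set.Icc a b)ᶜ = 0) →
      ∃ N : ℕ, ∀ n : ℕ, N ≤ n →
        ∃ ν : Measure (Fin n → ℝ), IsProbabilityMeasure ν ∧
          (∀ i : Fin n, ν.map (fun x => x i) = μ) ∧
          ∃ c : ℝ, ∀ᵐ x ∂ν, ∑ i, x i = c := by
  rintro μ _ hμ ⟨a, b, hs⟩
  exact main μ hμ a (max a b) (le_max_left _ _)
    (measure_mono_null (compl_subset_compl.2 (Icc_subset_Icc_right (le_max_right _ _))) hs)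

end Pool.Agent.S19615
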