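import Pool.Statements.S19618
import Pool.Agent.H.MP_c12967_pr.F

set_option autoImplicit false
open MeasureTheory ProbabilityTheory
open Pool Pool.MP_c12967_pr

namespace Pool.Agent.S19618

lemma conv {μ : Measure (ℤ → Fin 4)} (h : ∀ A B : Set ℤ, (∀ a ∈ A, ∀ b ∈ B, ((1 : ℕ) : ℤ) < |a - b|) →
      IndepFun (fun (x : ℤ → Fin 4) (a : A) => x a) (fun (x : ℤ → Fin 4) (b : B) => x b) μ) :
    ∀ A B : Set ℤ, (∀ a ∈ A, ∀ b ∈ B, 1 < |a - b|) →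
      Indep (⨆ a ∈ A, MeasurableSpace.comap (fun x : ℤ → Fin 4 => x a) (⊤ : MeasurableSpace (Fin 4)))
        (⨆ b ∈ B, MeasurableSpace.comap (fun x : ℤ → Fin 4 => x b) (⊤ : MeasurableSpace (Fin 4))) μ := by
  have hc : ∀ A : Set ℤ,
      (⨆ a ∈ A, MeasurableSpace.comap (fun x : ℤ → Fin 4 => x a) (⊤ : MeasurableSpace (Fin 4)))
        ≤ MeasurableSpace.comap (fun (x : ℤ → Fin 4) (a : A) => x a) MeasurableSpace.pi := by
    intro A
    refine iSup₂_le fun a ha => ?_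
    rintro _ ⟨s, -, rfl⟩
    exact ⟨(fun y : A → Fin 4 => y ⟨a, ha⟩) ⁻¹' s,
      measurable_pi_apply (⟨a, ha⟩ : A) (Set.to_countable s).measurableSet, rfl⟩
  intro A B hAB
  have := h A B (by simpa using hAB)
  rw [IndepFun_iff_Indep] at this
  exact indep_of_indep_of_le this (hc A) (hc B)

theorem result :
    ¬ (∀ μ ν : Measure (ℤ → Fin 4),
      IsProbabilityMeasure μ → IsProbabilityMeasure ν →
      Measure.map (fun x : ℤ → Fin 4 => fun n : ℤ => x (n + 1)) μ = μ →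
      Measure.map (fun x : ℤ → Fin 4 => fun n : ℤ => x (n + 1)) ν = ν →
      (∀ᵐ x ∂μ, ∀ n : ℤ, x n ≠ x (n + 1)) →
      (∀ᵐ x ∂ν, ∀ n : ℤ, x n ≠ x (n + 1)) →
      (∀ A B : Set ℤ, (∀ a ∈ A, ∀ b ∈ B, 1 < |a - b|) →
        Indep (⨆ a ∈ A, MeasurableSpace.comap (fun x : ℤ → Fin 4 => x a) (⊤ : MeasurableSpace (Fin 4)))
          (⨆ b ∈ B, MeasurableSpace.comap (fun x : ℤ → Fin 4 => x b) (⊤ : MeasurableSpace (Fin 4))) μ) →
      (∀ A B : Set ℤ, (∀ a ∈ A, ∀ b ∈ B, 1 < |a - b|) →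
        Indep (⨆ a ∈ A, MeasurableSpace.comap (fun x : ℤ → Fin 4 => x a) (⊤ : MeasurableSpace (Fin 4)))
          (⨆ b ∈ B, MeasurableSpace.comap (fun x : ℤ → Fin 4 => x b) (⊤ : MeasurableSpace (Fin 4))) ν) →
      μ = ν) := by
  intro h
  obtain ⟨μ, m1, m2, m3, m4, m5⟩ := Pool.Agent.H.MP_341645_pr.exists_col_real (q := 4) 1
    Pool.Agent.H.MP_341645_pr.W4_nonneg (by simp [Pool.Agent.H.MP_341645_pr.W4, Pool.Agent.H.MP_341645_pr.L4])
    Pool.Agent.H.MP_341645_pr.W4_left Pool.Agent.H.MP_341645_pr.W4_right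
    Pool.Agent.H.MP_341645_pr.W4_pp Pool.Agent.H.MP_341645_pr.W4_gap
  obtain ⟨ν, n1, n2, n3, n4, n5⟩ := Pool.Agent.H.MP_341645_pr.exists_col_real (q := 4) 1
    (Pool.Agent.H.MP_341645_pr.WH_nonneg (q := 2)) rfl
    Pool.Agent.H.MP_341645_pr.WH_left Pool.Agent.H.MP_341645_pr.WH_right
    (fun c => Pool.Agent.H.MP_341645_pr.WH_np (q := 2) _ fun e => e.1 rfl)
    (fun x y => Pool.Agent.H.MP_341645_pr.WH_gap4 _ x y rfl)
  have e := h μ ν m1 n1 m2 n2 m3 n3 (conv m4) (conv n4)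
  have e1 := m5 0 [0, 1, 0, 1]
  rw [e, n5, Pool.Agent.H.MP_341645_pr.W4_0101,
    show Pool.Agent.H.MP_341645_pr.WH (q := 2) [0, 1, 0, 1] = 1 / 240 from Pool.Agent.H.MP_341645_pr.WH_0101,
    ENNReal.ofReal_eq_ofReal_iff (by norm_num) (by norm_num)] at e1
  norm_num at e1

end Pool.Agent.S19618
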