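import Pool.Statements.S19634
import Pool.Agent.H.MP_c7fa75_pr.Prob

set_option autoImplicit false
open MeasureTheory ProbabilityTheory Filter Topology
open Pool Pool.MP_c7fa75_pr

namespace Pool.Agent.S19634

theorem result :
    ¬ (∀ (P : Measure (ℤ → ℕ → ℝ)), IsProbabilityMeasure P →
    (∀ᵐ ω ∂P, ∀ (x : ℤ) (n : ℕ), ω x n ∈ Set.Icc (0:ℝ) 1) →
    iIndepFun (fun (x : ℤ) (ω : ℤ → ℕ → ℝ) => ω x) P →
    (∀ x : ℤ, IdentDistrib (fun ω : ℤ → ℕ → ℝ => ω x) (fun ω => ω 0) P P) →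
    (∀ x : ℤ, 0 < P {ω | ∀ n, 0 < ω x n} ∧ 0 < P {ω | ∀ n, ω x n < 1}) →
    (∀ᵐ ω ∂P, ∃ s : EReal, Tendsto
        (fun N : ℕ => (((∑ i ∈ Finset.range N, (2 * ω 0 i - 1) : ℝ)) : EReal)) atTop (𝓝 s)) →
    (∫⁻ ω, (-(limsup (fun N : ℕ =>
        (((∑ i ∈ Finset.range N, (2 * ω 0 i - 1) : ℝ)) : EReal)) atTop)).toENNReal ∂P) < ⊤ →
    (0 : EReal) ≤
      ((∫⁻ ω, (limsup (fun N : ℕ =>
          (((∑ i ∈ Finset.range N, (2 * ω 0 i - 1) : ℝ)) : EReal)) atTop).toENNReal ∂P) : EReal)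
      - ((∫⁻ ω, (-(limsup (fun N : ℕ =>
          (((∑ i ∈ Finset.range N, (2 * ω 0 i - 1) : ℝ)) : EReal)) atTop)).toENNReal ∂P) : EReal) →
    ∀ (Θ : Type) [MeasurableSpace Θ] (μ : Measure Θ), IsProbabilityMeasure μ →
    ∀ (W : Θ → ℤ → ℕ → ℝ) (X : ℕ → Θ → ℕ → ℤ) (env : ℕ → Θ → ℤ → ℕ → ℝ),
    Measurable W → μ.map W = P → (∀ j, Measurable (X j)) →
    env 0 = W →
    (∀ (j : ℕ) (θ : Θ) (x : ℤ) (n : ℕ),
        Tendsto (fun m => |X j θ m|) atTop atTop →
          env (j+1) θ x n = env j θ x (n + Nat.card {m : ℕ // X j θ m = x})) →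
    (∀ (j : ℕ) (θ : Θ) (x : ℤ) (n : ℕ),
        ¬ Tendsto (fun m => |X j θ m|) atTop atTop → env (j+1) θ x n = 1/2) →
    (∀ (j : ℕ) (θ : Θ), X j θ 0 = 0) →
    (∀ (j : ℕ) (θ : Θ) (n : ℕ), X j θ (n+1) = X j θ n + 1 ∨ X j θ (n+1) = X j θ n - 1) →
    (∀ (j n : ℕ),
        condExp
          (MeasurableSpace.comap
            (fun θ => (W θ, (fun i : Fin j => X (i : ℕ) θ), (fun m : Fin (n+1) => X j θ (m : ℕ))))
            inferInstance)
          μ
          (Set.indicator {θ | X j θ (n+1) = X j θ n + 1} (fun _ => (1:ℝ)))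
        =ᵐ[μ] fun θ => env j θ (X j θ n) ((Finset.range n).filter (fun m => X j θ m = X j θ n)).card) →
    ∀ k : ℕ, 1 ≤ k →
      (((k : EReal) <
          ((∫⁻ ω, (limsup (fun N : ℕ =>
              (((∑ i ∈ Finset.range N, (2 * ω 0 i - 1) : ℝ)) : EReal)) atTop).toENNReal ∂P) : EReal)
          - ((∫⁻ ω, (-(limsup (fun N : ℕ =>
              (((∑ i ∈ Finset.range N, (2 * ω 0 i - 1) : ℝ)) : EReal)) atTop)).toENNReal ∂P) : EReal))
        → ∀ᵐ θ ∂μ, Tendsto (fun n => |X (k-1) θ n|) atTop atTop) ∧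
      ((((∫⁻ ω, (limsup (fun N : ℕ =>
              (((∑ i ∈ Finset.range N, (2 * ω 0 i - 1) : ℝ)) : EReal)) atTop).toENNReal ∂P) : EReal)
          - ((∫⁻ ω, (-(limsup (fun N : ℕ =>
              (((∑ i ∈ Finset.range N, (2 * ω 0 i - 1) : ℝ)) : EReal)) atTop)).toENNReal ∂P) : EReal)
          ≤ (k : EReal))
        → μ {θ | Tendsto (fun n => |X (k-1) θ n|) atTop atTop} = 0)) := by
  intro H
  open Pool.Agent.H.MP_c7fa75_pr in
  have hW : Measurable WW := (WW_meas (S := Set.univ) fun _ => trivial).mono (GG_le _) le_rfl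
  have hX : ∀ j, Measurable (XX j) := fun j => measurable_pi_lambda _ fun n =>
    (XX_meas (S := Set.univ) (fun _ => trivial) j n (fun _ _ _ => trivial)
      fun _ _ => trivial).mono (GG_le _) le_rfl
  have hP : IsProbabilityMeasure (mu.map WW) := Measure.isProbabilityMeasure_map hW.aemeasurable
  have hae : ∀ᵐ ω ∂(mu.map WW), ∀ x, ω x ∈ Set.range st := by
    rw [ae_map_iff hW.aemeasurable]
    · exact ae_of_all _ fun θ x => ⟨_, rfl⟩
    · rw [Set.ofPred_forall]
      exact MeasurableSet.iInter fun x =>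
        measurable_pi_apply x (Set.countable_range st).measurableSet
  have hlim : ∀ᵐ ω ∂(mu.map WW), Tendsto (fun N : ℕ =>
      (((∑ i ∈ Finset.range N, (2 * ω 0 i - 1) : ℝ)) : EReal)) atTop (𝓝 0) := by
    filter_upwards [hae] with ω h
    obtain ⟨N, hN⟩ := h 0
    refine tendsto_const_nhds.congr' ?_
    filter_upwards [eventually_ge_atTop (3 * N)] with M hM
    rw [← hN, st_sum N M hM, EReal.coe_zero]
  have h1 : (∫⁻ ω, (limsup (fun N : ℕ =>
      (((∑ i ∈ Finset.range N, (2 * ω 0 i - 1) : ℝ)) : EReal)) atTop).toENNReal ∂(mu.map WW)) = 0 := by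
    rw [lintegral_congr_ae (g := fun _ => 0) (hlim.mono fun ω h => by
      simp only [h.limsup_eq]; simp), lintegral_zero]
  have h2 : (∫⁻ ω, (-(limsup (fun N : ℕ =>
      (((∑ i ∈ Finset.range N, (2 * ω 0 i - 1) : ℝ)) : EReal)) atTop)).toENNReal ∂(mu.map WW)) = 0 := by
    rw [lintegral_congr_ae (g := fun _ => 0) (hlim.mono fun ω h => by
      simp only [h.limsup_eq]; simp), lintegral_zero]
  have hf : Measurable fun g => st (TT g) := Measurable.of_discrete
  have hq : IsProbabilityMeasure (nu.map fun g => st (TT g)) :=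
    Measure.isProbabilityMeasure_map hf.aemeasurable
  have hmap : mu.map WW = Measure.infinitePi fun _ : ℤ => nu.map fun g => st (TT g) := by
    rw [← Measure.infinitePi_map_pi _ fun _ => hf,
      ← Measure.map_infinitePi_infinitePi_of_inj (P := fun _ : II => nu) Sum.inl_injective,
      Measure.map_map (by fun_prop) (by fun_prop)]
    rfl
  have h := (H (mu.map WW) hP (hae.mono fun ω h x n => ?_) ?_ (fun x => ?_) (fun x => ⟨?_, ?_⟩)
    (hlim.mono fun ω h => ⟨0, h⟩) (by rw [h2]; simp) (by rw [h1, h2]; simp) Th mu inferInstance WW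
    XX EE hW rfl hX rfl (fun j θ x n h => by
      show upd (EE j θ) (XX j θ) x n = _
      rw [upd, if_pos h])
    (fun j θ x n h => by
      show upd (EE j θ) (XX j θ) x n = _
      rw [upd, if_neg h])
    (fun j θ => walk_zero _ _) (fun j θ n => by
      simp only [XX, walk_succ]; split_ifs; exacts [Or.inl rfl, Or.inr rfl])
    cond 1 le_rfl).2 (by rw [h1, h2]; simp)
  · refine good (measure_mono_null (fun θ hθ => ?_) h)
    refine Pool.Agent.H.MP_c7fa75_pr.trans _ _ (fun _ _ => st_val _ _) (fun k => ?_) hθ.2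
    obtain ⟨i, hi, e⟩ := hθ.1 k
    refine ⟨i, hi, fun n hn => ?_⟩
    show st (TT (θ _)) n = 1
    rw [e, st, if_pos hn]
  · obtain ⟨N, hN⟩ := h x
    rw [← hN]
    rcases st_val N n with h | h | h <;> rw [h] <;> norm_num
  · rw [hmap]
    exact iIndepFun_infinitePi (X := fun _ y => y) fun _ => measurable_id
  · refine ⟨(measurable_pi_apply x).aemeasurable, (measurable_pi_apply 0).aemeasurable, ?_⟩
    rw [hmap, Measure.infinitePi_map_eval, Measure.infinitePi_map_eval]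
  · refine pos_iff_ne_zero.mpr fun h0 => ?_
    obtain ⟨ω, h3, h4⟩ := (hae.and (measure_eq_zero_iff_ae_notMem.mp h0)).exists
    obtain ⟨N, hN⟩ := h3 x
    refine h4 fun n => ?_
    rw [← hN]
    rcases st_val N n with h | h | h <;> rw [h] <;> norm_num
  · refine lt_of_lt_of_le ?_ (Measure.le_map_apply hW.aemeasurable _)
    refine lt_of_lt_of_le ?_ (measure_mono (s := {θ : Th | θ (.inl x) ∈ ({0} : Set ℕ)})
      fun θ hθ n => ?_)
    · refine pos_iff_ne_zero.mpr fun h0 => ?_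
      have := coord (.inl x) {0}
      rw [nu_val, measureReal_def, h0] at this
      norm_num at this
    · rw [Set.mem_ofPred_eq, Set.mem_singleton_iff] at hθ
      simp only [WW, hθ, TT, st]; norm_num

end Pool.Agent.S19634
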