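import Pool.Statements.S19658
import Pool.Agent.H.MP_d2b88b_pr.B

set_option autoImplicit false
open MeasureTheory
open Pool Pool.MP_d2b88b_pr

namespace Pool.Agent.S19658

theorem result :
    ¬ (∀ (d : ℕ) (V : Type) (G : SimpleGraph V), G.Connected →
    (∃ D : ℕ, ∀ v : V, (G.neighborSet v).encard ≤ (D : ℕ∞)) →
    (∃ (f : V → (Fin d → ℤ)) (C K : ℕ),
        (∀ x y : V,
          (∑ i, |f x i - f y i|) ≤ (C : ℤ) * (G.dist x y : ℤ) + (K : ℤ) ∧
          (G.dist x y : ℤ) ≤ (C : ℤ) * (∑ i, |f x i - f y i|) + (K : ℤ)) ∧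
        ∀ z : Fin d → ℤ, ∃ x : V, (∑ i, |z i - f x i|) ≤ (K : ℤ)) →
    ∀ (p : NNReal) (hp : p ≤ 1),
      ∀ᵐ ω ∂(Measure.infinitePi (fun _ : G.edgeSet => (PMF.bernoulli p hp).toMeasure)),
        ∀ c₁ c₂ : (SimpleGraph.fromEdgeSet
            {e : Sym2 V | ∃ h : e ∈ G.edgeSet, ω ⟨e, h⟩ = true}).ConnectedComponent,
          c₁.supp.Infinite → c₂.supp.Infinite → c₁ = c₂) := by
  open Pool.Agent.H.MP_d2b88b_pr Pool.Agent.Lib.helper3.Perc in
  intro h
  obtain ⟨R, hR⟩ := disc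
  have h1 := h 9 V (G R) (conn R) ⟨3 ^ 9, deg R⟩ ⟨id, 9, 0, fun x y => by
    have := qi R x y
    have h0 := Finset.sum_nonneg fun i (_ : i ∈ Finset.univ) => abs_nonneg (x i - y i)
    simp only [id]
    omega, fun z => ⟨z, by simp⟩⟩ p hp
  have h2 := measure_mono_ae (μ := P (G R) p hp) (s := Set.univ)
    (t := ({ω | ¬ ((O R ω).connectedComponentMk (o R 1)).supp.Infinite} ∪
      {ω | ¬ ((O R ω).connectedComponentMk (o R (-1))).supp.Infinite}) ∪
      {ω | (O R ω).Reachable (o R 1) (o R (-1))}) (h1.mono fun ω hω _ => by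
    by_contra k
    exact k (Or.inr (SimpleGraph.ConnectedComponent.exact (hω _ _
      (not_not.mp fun e => k (Or.inl (Or.inl e))) (not_not.mp fun e => k (Or.inl (Or.inr e)))))))
  have h3 := h2.trans ((measure_union_le _ _).trans (add_le_add ((measure_union_le _ _).trans
    (add_le_add (surv R (Or.inl rfl)) (surv R (Or.inr rfl)))) hR))
  rw [measure_univ, ← ENNReal.ofReal_add (by norm_num) (by norm_num),
    ← ENNReal.ofReal_add (by norm_num) (by norm_num), ENNReal.one_le_ofReal] at h3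
  norm_num at h3

end Pool.Agent.S19658
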