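import Pool.Statements.S19717
import Pool.Agent.H.MP_eaf82e_pr.K

set_option autoImplicit false
open MeasureTheory Filter Topology Classical
open Pool Pool.MP_eaf82e_pr
open Pool.Agent.H.MP_eaf82e_pr

namespace Pool.Agent.S19717

theorem result :
    ∀ W : ℝ → ℝ → ℝ, Measurable (Function.uncurry W) → (∀ x y, W x y = W y x) →
    (∃ c d : ℝ, 0 < c ∧ d < 1 ∧
      ∀ x ∈ Set.Icc (0:ℝ) 1, ∀ y ∈ Set.Icc (0:ℝ) 1, c ≤ W x y ∧ W x y ≤ d) →
    ∀ φ : Measure ℝ → ℝ,
      (∀ μ : Measure ℝ, φ μ = sSup {r : ℝ | ∃ S : Set ℝ, MeasurableSet S ∧ 0 < μ S ∧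
        r = (μ S).toReal⁻¹ * ∫ x in S, (∫ y in S, Real.log (1 / (1 - W x y)) ∂μ) ∂μ}) →
    ∀ Φ : ℝ,
      Φ = sInf {t : ℝ | ∃ k : ℕ, ∃ ν : Fin k → Measure ℝ, ∃ α : Fin k → ℝ,
        (∀ i, IsProbabilityMeasure (ν i)) ∧ (∀ i, ν i (Set.Icc (0:ℝ) 1)ᶜ = 0) ∧
        (∀ i, 0 ≤ α i) ∧ ∑ i, α i = 1 ∧
        ∑ i, ENNReal.ofReal (α i) • ν i = volume.restrict (Set.Icc (0:ℝ) 1) ∧
        t = ∑ i, α i * φ (ν i)} →
    ∀ ε : ℝ, 0 < ε →
      Tendsto (fun n : ℕ =>
        ∫⁻ x in Set.univ.pi (fun _ : Fin n => Set.Icc (0:ℝ) 1),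
          ∑' G : SimpleGraph (Fin n),
            (if (1 - ε) * (Φ * n / (2 * Real.log n)) ≤ (G.chromaticNumber.toNat : ℝ) ∧
                (G.chromaticNumber.toNat : ℝ) ≤ (1 + ε) * (Φ * n / (2 * Real.log n))
             then ∏ i : Fin n, ∏ j : Fin n,
               (if i < j then
                  (if G.Adj i j then ENNReal.ofReal (W (x i) (x j))
                   else ENNReal.ofReal (1 - W (x i) (x j)))
                else 1)
             else 0))
        atTop (𝓝 1) := by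
  intro W hW hs ⟨c, d, hc, hd, hcd⟩ φ hφ Φ hΦ ε hε
  have hcd' : c ≤ d := (hcd 0 (by simp) 0 (by simp)).1.trans (hcd 0 (by simp) 0 (by simp)).2
  have hI : ∀ x ∈ Set.Icc (0:ℝ) 1, ∀ y ∈ Set.Icc (0:ℝ) 1, max c (min d (W x y)) = W x y :=
    fun x hx y hy => by rw [min_eq_right (hcd x hx y hy).2, max_eq_right (hcd x hx y hy).1]
  let L : ℝ × ℝ → ℝ := fun z => Real.log (1 / (1 - max c (min d (W z.1 z.2))))
  have hL : Measurable L :=
    (measurable_const.div (measurable_const.sub (measurable_const.max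
      (measurable_const.min hW)))).log
  have hp : ∀ w : ℝ, 0 < 1 - max c (min d w) := fun w =>
    sub_pos.mpr (max_lt (hcd'.trans_lt hd) (min_lt_of_left_lt hd))
  have hl : ∀ z, Real.log (1 / (1 - c)) ≤ L z := fun z =>
    Real.log_le_log (one_div_pos.mpr (by linarith))
      (one_div_le_one_div_of_le (hp _) (by linarith [le_max_left c (min d (W z.1 z.2))]))
  have hM : ∀ z, L z ≤ Real.log (1 / (1 - d)) := fun z =>
    Real.log_le_log (one_div_pos.mpr (hp _)) (one_div_le_one_div_of_le (by linarith)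
      (by linarith [max_le hcd' (min_le_left d (W z.1 z.2))]))
  have hl0 : 0 < Real.log (1 / (1 - c)) :=
    Real.log_pos (one_lt_one_div (by linarith) (by linarith))
  have h0 : ∀ z, 0 ≤ L z := fun z => hl0.le.trans (hl z)
  have hLB := BM.of_bounds hL h0 hM
  have hsL : ∀ x y, L (x, y) = L (y, x) := fun x y => by simp only [L, hs x y]
  have hΦ' : Φ = Phi L := by
    rw [hΦ]
    refine congrArg sInf (decs_congr fun μ _ hμ => ?_)
    rw [hφ, phi]
    have : ∀ S, ∫ x in S, (∫ y in S, Real.log (1 / (1 - W x y)) ∂μ) ∂μ =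
        B L (μ.restrict S) (μ.restrict S) := by
      intro S
      have hae : ∀ᵐ x ∂(μ.restrict S), x ∈ Set.Icc (0:ℝ) 1 := ae_restrict_of_ae hμ
      rw [B, integral_prod _ (hLB.int _)]
      refine integral_congr_ae ?_
      filter_upwards [hae] with x hx
      refine integral_congr_ae ?_
      filter_upwards [hae] with y hy
      simp only [L, hI x hx y hy]
    simp only [this]
  subst hΦ'
  refine final (fun n x ω => wt (px L x) ω)
    (fun n x ω => wt_nonneg (px_nonneg h0 x) (px_le L x) ω) (fun n x => sum_wt _) _ _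
    (fun η hη => lower hL hsL hl0 hl hM hε hη) (fun η hη => upper hL hsL hl0 hl hM hε hη) _
    fun n x hx G => ?_
  refine prod_eq _ (px_nonneg h0 x) (px_le L x) G _ fun e => ?_
  simp only [px, lx, L, hI _ (hx _) _ (hx _)]
  have := hp (W (x e.1.1) (x e.1.2))
  rw [hI _ (hx _) _ (hx _)] at this
  rw [one_div, Real.log_inv, neg_neg, Real.exp_log this, sub_sub_cancel]

end Pool.Agent.S19717
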