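import Pool.Statements.S19731
import Pool.Agent.H.MP_f07634_pr.B

set_option autoImplicit false
open Pool Pool.MP_f07634_pr

namespace Pool.Agent.S19731

theorem result :
    ∀ n : ℕ, ∀ π : Equiv.Perm (Fin n) → ℝ,
      (∀ τ, 0 ≤ π τ) →
      (∑ τ, π τ = 1) →
      (∀ τ : Equiv.Perm (Fin n),
        π τ * ((Finset.univ.filter (fun j : Fin n => τ (finRotate n j) < τ j)).card : ℝ)
          = ∑ j ∈ Finset.univ.filter (fun j : Fin n => τ j < τ (finRotate n j)),
              π (τ * Equiv.swap j (finRotate n j))) →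
      ∀ (r : ℕ) (h : r < n) (i : Fin r → Fin n) (k : Fin n),
        (∀ a : Fin r, (i a : ℕ) + 1 < (k : ℕ)) →
        ∑ τ ∈ Finset.univ.filter (fun τ : Equiv.Perm (Fin n) =>
              (∀ a : Fin r, τ (Fin.castLE h.le a) = i a) ∧ τ ⟨r, h⟩ = k), π τ
          = (1 / (n : ℝ)) * ∑ τ ∈ Finset.univ.filter (fun τ : Equiv.Perm (Fin n) =>
              ∀ a : Fin r, τ (Fin.castLE h.le a) = i a), π τ := by
  classical
  intro n π _ _ hπ r h i k hi
  obtain rfl | ⟨N, rfl⟩ : n = 1 ∨ ∃ N, n = N + 2 := by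
    rcases n with _ | _ | N
    exacts [absurd h (by omega), Or.inl rfl, Or.inr ⟨N, rfl⟩]
  · simp [Subsingleton.elim _ k]
  have hn : ∀ p : ZMod (N + 2), p + 1 ≠ p := fun p => by
    haveI : Fact (1 < N + 2) := ⟨by omega⟩
    simp
  have hs := H.MP_f07634_pr.stat π (fun p => Equiv.swap p (p + 1)) (fun p => by simp)
    (fun τ p => τ (p + 1) < τ p) (fun τ p => τ p < τ (p + 1)) (fun τ p => by simp)
    (fun τ => by simpa only [finRotate_succ_apply] using hπ τ)
  rw [Fintype.card_fin] at hs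
  let Φ : Equiv.Perm (Fin (N + 2)) → Prop := fun τ => ∀ a : Fin r, τ (Fin.castLE h.le a) = i a
  have key : ∀ j, j ≤ N + 2 → (∀ a, (i a : ℕ) + 1 < j) →
      ((N + 2 : ℕ) : ℝ) * ∑ τ, π τ * (if Φ τ ∧ j ≤ (τ ⟨r, h⟩ : ℕ) then 1 else 0) =
        ((N + 2 : ℕ) - j) * ∑ τ, π τ * if Φ τ then 1 else 0 := by
    rintro (_ | m) hj hi
    · simp
    have := H.MP_f07634_pr.main (n := N + 2) π
      (fun (p : Fin (N + 2)) τ => if τ (p + 1) < τ p then τ * Equiv.swap p (p + 1) else τ)
      (fun τ => H.MP_f07634_pr.thr fun t => (τ t : ℕ)) hn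
      (fun (p : Fin (N + 2)) τ c => by
        refine Eq.trans ?_ (H.MP_f07634_pr.thr_T (hn p) _ _)
        congr 1
        by_cases e : τ (p + 1) < τ p
        · exact Eq.trans (by rw [if_pos e]; rfl) (if_pos e).symm
        · exact Eq.trans (by rw [if_neg e]) (if_neg e).symm)
      (fun τ c hc => by
        refine Eq.trans ?_ (H.MP_f07634_pr.card_init hc)
        exact Finset.card_bijective τ τ.bijective fun t =>
          Finset.mem_filter.trans (Iff.trans (by simp; rfl) Finset.mem_filter.symm))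
      (fun τ c c' hc t ht => Finset.mem_filter.2
        ⟨Finset.mem_univ _, (Finset.mem_filter.1 ht).2.trans_le hc⟩)
      hs (m := m) (⟨r, h⟩ : Fin (N + 2)) (fun a => if e : a.val < r then (i ⟨a.val, e⟩ : ℕ) else 0)
      (fun a ha => by
        have e : a.val < r := ha
        have := hi ⟨a.val, e⟩
        simp only [dif_pos e]
        omega) (m + 1) (by omega) hj
    have e : ∀ τ : Equiv.Perm (Fin (N + 2)), (∀ a : ZMod (N + 2),
        a.val < ZMod.val (n := N + 2) (⟨r, h⟩ : Fin (N + 2)) → ∀ c : Fin m,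
        a ∈ H.MP_f07634_pr.thr (n := N + 2) (fun t => (τ t : ℕ)) (c + 1) ↔
          (if e : a.val < r then (i ⟨a.val, e⟩ : ℕ) else 0) ≤ c) ↔ Φ τ := by
      intro τ
      simp only [H.MP_f07634_pr.thr, Finset.mem_filter, Finset.mem_univ, true_and]
      constructor
      · intro k a
        have k := k (Fin.castLE h.le a) a.2
        have e : ZMod.val (n := N + 2) (Fin.castLE h.le a) < r := a.2
        have e2 : (⟨ZMod.val (n := N + 2) (Fin.castLE h.le a), e⟩ : Fin r) = a := rfl
        simp only [dif_pos e, e2] at k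
        have := hi a
        have k1 := (k ⟨i a, by omega⟩).2 le_rfl
        have k2 := (k ⟨τ (Fin.castLE h.le a), by simp only at k1; omega⟩).1 (Nat.lt_succ_self _)
        simp only at k1 k2
        exact Fin.ext (by omega)
      · intro k a ha c
        have e : a.val < r := ha
        have : τ a = i ⟨a.val, e⟩ := k ⟨a.val, e⟩
        simp only [dif_pos e, this]
        omega
    simp only [e] at this
    refine Eq.trans ?_ (this.trans ?_)
    · congr 1
      refine Finset.sum_congr rfl fun τ _ => congrArg _ (if_congr (and_congr_right fun _ => ?_) rfl rfl)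
      simp [H.MP_f07634_pr.thr]
    · congr
  have a := key k k.2.le hi
  have b := key (k + 1) k.2 fun a => (hi a).trans (Nat.lt_succ_self _)
  have c : ∀ τ, (if Φ τ ∧ τ ⟨r, h⟩ = k then π τ else 0) =
      π τ * (if Φ τ ∧ (k : ℕ) ≤ (τ ⟨r, h⟩ : ℕ) then 1 else 0) -
        π τ * (if Φ τ ∧ (k : ℕ) + 1 ≤ (τ ⟨r, h⟩ : ℕ) then 1 else 0) := by
    intro τ
    simp only [Fin.ext_iff (b := k)]
    by_cases e : Φ τ
    · simp only [e, true_and]
      split_ifs <;> first | ring1 | (exfalso; omega)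
    · simp [e]
  have d : ∀ τ, (if Φ τ then π τ else 0) = π τ * if Φ τ then 1 else 0 := fun τ => by simp
  rw [Finset.sum_filter, Finset.sum_filter]
  refine Eq.trans (Finset.sum_congr rfl fun τ _ => c τ) ?_
  refine Eq.trans ?_ (congrArg _ (Finset.sum_congr rfl fun τ _ => d τ).symm)
  have n0 : ((N + 2 : ℕ) : ℝ) ≠ 0 := by positivity
  rw [Finset.sum_sub_distrib, one_div, eq_inv_mul_iff_mul_eq₀ n0, mul_sub, a, b]
  push_cast
  ring

end Pool.Agent.S19731
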