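import Pool.Statements.S19740
import Pool.Agent.H.MP_f2f003_pr.Perm

set_option autoImplicit false
open scoped Classical
open Pool Pool.MP_f2f003_pr

namespace Pool.Agent.S19740

open MeasureTheory ProbabilityTheory Pool.Agent.H.MP_f2f003_pr

noncomputable def pp : unitInterval := ⟨255 / 256, by norm_num, by norm_num⟩

lemma pp_ne : pp ≠ 0 := by
  intro h
  have := congrArg (fun x : unitInterval => (x : ℝ)) h
  simp [pp] at this

noncomputable abbrev mu : Measure ℕ := geometricMeasure pp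

lemma mu_single (j : ℕ) : mu.real {j} = (1 / 256) ^ j * (255 / 256) := by
  rw [geometricMeasure_real_singleton pp_ne]
  simp only [pp]; norm_num

lemma mu_tail (m : ℕ) : mu.real {j | m ≤ j} = (1 / 256) ^ m := by
  have e : {j | m ≤ j} = ((Finset.range m : Finset ℕ) : Set ℕ)ᶜ := by ext j; simp
  rw [e, probReal_compl_eq_one_sub MeasurableSet.of_discrete, ← sum_measureReal_singleton]
  simp only [mu_single]
  induction m with
  | zero => simp
  | succ m ih =>
    rw [Finset.sum_range_succ, pow_succ]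
    have := ih (by ext j; simp)
    linarith

noncomputable def WW (a b : ℕ) : ℝ := if a = b ∨ Odd (max a b) then 1 else 0

lemma WW_symm (a b : ℕ) : WW a b = WW b a := by
  unfold WW; simp only [eq_comm, max_comm]

lemma WW_nonneg (a b : ℕ) : 0 ≤ WW a b := by unfold WW; split_ifs <;> norm_num
lemma WW_le (a b : ℕ) : WW a b ≤ 1 := by unfold WW; split_ifs <;> norm_num

lemma WW_conn (A : Set ℕ) (h0 : 0 < mu A) (h1 : mu A < 1) :
    0 < ∫ p in A ×ˢ Aᶜ, WW p.1 p.2 ∂(mu.prod mu) := by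
  obtain ⟨a, ha⟩ : A.Nonempty := nonempty_of_measure_ne_zero h0.ne'
  obtain ⟨b, hb⟩ : ∃ b, b ∉ A := by
    by_contra h
    push Not at h
    rw [Set.eq_univ_of_forall h] at h1
    simp at h1
  obtain ⟨i, j, hi, hj, hij⟩ : ∃ i j, i ∈ A ∧ j ∉ A ∧ WW i j = 1 := by
    by_cases ho : 2 * (a + b) + 1 ∈ A
    · refine ⟨_, b, ho, hb, if_pos (Or.inr ?_)⟩
      rw [max_eq_left (by omega)]; exact odd_two_mul_add_one _
    · refine ⟨a, _, ha, ho, if_pos (Or.inr ?_)⟩
      rw [max_eq_right (by omega)]; exact odd_two_mul_add_one _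
  have hint : Integrable (fun p : ℕ × ℕ => WW p.1 p.2) (mu.prod mu) := by
    refine Integrable.of_bound (measurable_of_countable _).aestronglyMeasurable 1 ?_
    refine Filter.Eventually.of_forall fun p => ?_
    rw [Real.norm_eq_abs, abs_of_nonneg (WW_nonneg _ _)]
    exact WW_le _ _
  have h2 : ∫ p in {(i, j)}, WW p.1 p.2 ∂(mu.prod mu) ≤ ∫ p in A ×ˢ Aᶜ, WW p.1 p.2 ∂(mu.prod mu) := by
    refine setIntegral_mono_set hint.integrableOn
      (Filter.Eventually.of_forall fun p => WW_nonneg _ _) (LE.le.eventuallyLE ?_)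
    rw [Set.singleton_subset_iff]
    exact ⟨hi, hj⟩
  refine lt_of_lt_of_le ?_ h2
  rw [integral_singleton, hij, ← Set.singleton_prod_singleton, measureReal_prod_prod,
    mu_single, mu_single, smul_eq_mul]
  positivity

lemma none_bound {n : ℕ} (S : Finset (Fin n)) (c : ℕ) (h : 7 ≤ S.card * mu.real {c}) :
    (Measure.pi fun _ : Fin n => mu).real {x | ∀ i ∈ S, x i ≠ c} ≤ 1 / 8 := by
  have e : {x : Fin n → ℕ | ∀ i ∈ S, x i ≠ c} = (S : Set (Fin n)).pi (fun _ => {c}ᶜ) := by
    ext x; simp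
  rw [e, measureReal_def, Measure.pi_pi_finset, Finset.prod_const, ENNReal.toReal_pow,
    ← measureReal_def, probReal_compl_eq_one_sub MeasurableSet.of_discrete]
  set a := mu.real {c} with ha
  have a0 : 0 ≤ a := measureReal_nonneg
  have a1 : a ≤ 1 := measureReal_le_one
  have h1 := one_add_mul_le_pow (a := a) (by linarith) S.card
  have h2 : (1 - a) ^ S.card * (1 + a) ^ S.card ≤ 1 := by
    rw [← mul_pow]
    exact pow_le_one₀ (by nlinarith) (by nlinarith)
  have h3 : 0 ≤ (1 - a) ^ S.card := pow_nonneg (by linarith) _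
  nlinarith

lemma some_bound (n m : ℕ) :
    (Measure.pi fun _ : Fin n => mu).real {x | ∃ i, m ≤ x i} ≤ n * (1 / 256) ^ m := by
  have e : {x : Fin n → ℕ | ∃ i, m ≤ x i} = ⋃ i, Function.eval i ⁻¹' {j | m ≤ j} := by
    ext x; simp
  rw [e]
  refine (measureReal_iUnion_fintype_le _).trans ?_
  have : ∀ i : Fin n, (Measure.pi fun _ : Fin n => mu).real (Function.eval i ⁻¹' {j | m ≤ j})
      = (1 / 256) ^ m := by
    intro i
    rw [← mu_tail, measureReal_def, measureReal_def,
      (measurePreserving_eval (fun _ : Fin n => mu) i).measure_preimage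
        MeasurableSet.of_discrete.nullMeasurableSet]
  rw [Finset.sum_congr rfl fun i _ => this i]
  simp

def LL (s : ℕ) : Finset (Fin (s + s)) := Finset.univ.map (Fin.castAddEmb s)
def RR (s : ℕ) : Finset (Fin (s + s)) := Finset.univ.map (Fin.natAddEmb s)

lemma LR_ne {s : ℕ} {i j : Fin (s + s)} (hi : i ∈ LL s) (hj : j ∈ RR s) : i ≠ j := by
  obtain ⟨a, -, rfl⟩ := Finset.mem_map.1 hi
  obtain ⟨b, -, rfl⟩ := Finset.mem_map.1 hj
  intro h
  have := congrArg Fin.val h
  simp at this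
  omega

def bad (s k : ℕ) : Set (Fin (s + s) → ℕ) :=
  {x | ∀ i ∈ LL s, x i ≠ 2 * k + 2} ∪ {x | ∀ i ∈ RR s, x i ≠ 2 * k + 2} ∪
  {x | ∀ i ∈ LL s, x i ≠ 2 * k + 1} ∪ {x | ∀ i ∈ RR s, x i ≠ 2 * k + 1} ∪
  {x | ∃ i, 2 * k + 3 ≤ x i}

lemma bad_le (k : ℕ) :
    (Measure.pi fun _ : Fin (8 * 256 ^ (2 * k + 2) + 8 * 256 ^ (2 * k + 2)) => mu).real
      (bad (8 * 256 ^ (2 * k + 2)) k) ≤ 9 / 16 := by
  set s := 8 * 256 ^ (2 * k + 2) with hs
  have cL : (LL s).card = s := by simp [LL]
  have cR : (RR s).card = s := by simp [RR]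
  have hp : (256 : ℝ) ^ (2 * k + 1) * (1 / 256) ^ (2 * k + 1) = 1 := by
    rw [← mul_pow]; norm_num
  have hsr : (s : ℝ) = 8 * (256 * 256 ^ (2 * k + 1)) := by rw [hs]; push_cast; ring
  have h1 : 7 ≤ (s : ℝ) * mu.real {2 * k + 2} := by
    rw [mu_single, hsr, pow_succ (1 / 256 : ℝ) (2 * k + 1)]; nlinarith
  have h2 : 7 ≤ (s : ℝ) * mu.real {2 * k + 1} := by
    rw [mu_single, hsr]; nlinarith
  have b1 := none_bound (LL s) (2 * k + 2) (by rwa [cL])
  have b2 := none_bound (RR s) (2 * k + 2) (by rwa [cR])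
  have b3 := none_bound (LL s) (2 * k + 1) (by rwa [cL])
  have b4 := none_bound (RR s) (2 * k + 1) (by rwa [cR])
  have b5 := some_bound (s + s) (2 * k + 3)
  have e5 : ((s + s : ℕ) : ℝ) * (1 / 256) ^ (2 * k + 3) = 1 / 16 := by
    push_cast
    rw [hsr, pow_succ (1 / 256 : ℝ) (2 * k + 2), pow_succ (1 / 256 : ℝ) (2 * k + 1)]; nlinarith
  rw [e5] at b5
  unfold bad
  refine (measureReal_union_le _ _).trans ?_
  refine (add_le_add_left (measureReal_union_le _ _) _).trans ?_
  refine (add_le_add_left (add_le_add_left (measureReal_union_le _ _) _) _).trans ?_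
  refine (add_le_add_left (add_le_add_left (add_le_add_left
    (measureReal_union_le _ _) _) _) _).trans ?_
  linarith

lemma good_struct (s k : ℕ) (x : Fin (s + s) → ℕ) (hx : x ∉ bad s k) :
    (∃ u v, x u = 2 * k + 2 ∧ ¬ x v = 2 * k + 2) ∧
    (∀ i j, x i = 2 * k + 2 → ¬ x j = 2 * k + 2 → WW (x i) (x j) = 0 ∧ WW (x j) (x i) = 0) ∧
    (∀ i, ∃ j, i ≠ j ∧ WW (x i) (x j) ≠ 0 ∧ WW (x j) (x i) ≠ 0) := by
  simp only [bad, Set.mem_union, Set.mem_ofPred_eq, not_or, not_forall, not_exists, not_le,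
    not_not] at hx
  obtain ⟨⟨⟨⟨⟨a, ha, ha'⟩, ⟨b, hb, hb'⟩⟩, ⟨c, hc, hc'⟩⟩, ⟨d, hd, hd'⟩⟩, hle⟩ := hx
  refine ⟨⟨a, c, ha', by omega⟩, ?_, ?_⟩
  · intro i j hi hj
    have : WW (x i) (x j) = 0 := by
      unfold WW
      rw [if_neg]
      rintro (h | h)
      · omega
      · have := hle j
        rw [max_eq_left (by omega), hi] at h
        exact absurd h (by rw [Nat.not_odd_iff_even]; exact ⟨k + 1, by ring⟩)
    exact ⟨this, by rwa [WW_symm]⟩
  · intro i
    have key : ∀ j, i ≠ j → WW (x i) (x j) = 1 →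
        ∃ j, i ≠ j ∧ WW (x i) (x j) ≠ 0 ∧ WW (x j) (x i) ≠ 0 := fun j h1 h2 =>
      ⟨j, h1, by simp [h2], by rw [WW_symm]; simp [h2]⟩
    have hi := hle i
    by_cases h : x i = 2 * k + 2
    · by_cases hia : i = a
      · exact key b (hia ▸ LR_ne ha hb) (if_pos (Or.inl (by omega)))
      · exact key a hia (if_pos (Or.inl (by omega)))
    · by_cases hic : i = c
      · exact key d (hic ▸ LR_ne hc hd) (if_pos (Or.inl (by rw [hic]; omega)))
      · refine key c hic (if_pos (Or.inr ?_))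
        rw [max_eq_right (by omega), hc']; exact odd_two_mul_add_one _

theorem result :
    ¬ (∀ (Ω : Type) [MeasurableSpace Ω] (μ : MeasureTheory.Measure Ω) [MeasureTheory.IsProbabilityMeasure μ]
    (W : Ω → Ω → ℝ), Measurable (Function.uncurry W) → (∀ a b, W a b = W b a) →
    (∀ a b, 0 ≤ W a b ∧ W a b ≤ 1) →
    (∀ A : Set Ω, MeasurableSet A → 0 < μ A → μ A < 1 →
      0 < ∫ p in A ×ˢ Aᶜ, W p.1 p.2 ∂(μ.prod μ)) →
    ∀ K : ℕ, Filter.Tendsto (fun n : ℕ =>
      ∫ x : Fin n → Ω,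
        ∑ l ∈ (((Finset.univ : Finset (Fin n × Fin n)).filter (fun p => p.1 < p.2)).toList.permutations.toFinset.filter
          (fun l : List (Fin n × Fin n) =>
            sInf {t : ℕ | t ≤ l.length ∧ K < n ∧ ∀ S : Finset (Fin n), S.card < K →
                ((SimpleGraph.fromRel (fun i j : Fin n => (i, j) ∈ l.take t)).induce
                  ((↑S : Set (Fin n))ᶜ)).Connected}
            = sInf {t : ℕ | t ≤ l.length ∧ ∀ v : Fin n,
                K ≤ (SimpleGraph.fromRel (fun i j : Fin n => (i, j) ∈ l.take t)).degree v})),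
          ∏ t ∈ Finset.range l.length,
            (if 0 < ((l.drop t).map (fun p => W (x p.1) (x p.2))).sum
              then (((l.drop t).take 1).map (fun p => W (x p.1) (x p.2))).sum /
                ((l.drop t).map (fun p => W (x p.1) (x p.2))).sum
              else 1 / ((l.drop t).length : ℝ))
        ∂(MeasureTheory.Measure.pi (fun _ : Fin n => μ)))
      Filter.atTop (nhds 1)) := by
  intro h
  have key := h ℕ mu WW (measurable_of_countable _) WW_symm
    (fun a b => ⟨WW_nonneg a b, WW_le a b⟩) (fun A _ h0 h1 => WW_conn A h0 h1) 1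
  obtain ⟨N, hN⟩ := Filter.eventually_atTop.1 (key.eventually (lt_mem_nhds (show (9 / 16 : ℝ) < 1 by norm_num)))
  have hle : N ≤ 8 * 256 ^ (2 * N + 2) + 8 * 256 ^ (2 * N + 2) := by
    have := Nat.lt_pow_self (n := 2 * N + 2) (show 1 < 256 by norm_num)
    omega
  refine absurd (hN _ hle) (not_lt.2 (le_trans ?_ (bad_le N)))
  rw [← integral_indicator_one MeasurableSet.of_discrete]
  refine integral_mono_of_nonneg (Filter.Eventually.of_forall fun x => ?_)
    ((integrable_const _).indicator MeasurableSet.of_discrete)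
    (Filter.Eventually.of_forall fun x => ?_)
  · exact Finset.sum_nonneg fun l _ => wt_nonneg (fun p : Fin _ × Fin _ => WW (x p.1) (x p.2))
      (fun p => WW_nonneg _ _) l
  · by_cases hx : x ∈ bad (8 * 256 ^ (2 * N + 2)) N
    · rw [Set.indicator_of_mem hx]
      refine le_trans ?_ (sum_wt_le (fun p : Fin _ × Fin _ => WW (x p.1) (x p.2)) (fun p => WW_nonneg _ _) _
        (Finset.univ.filter (fun p : Fin _ × Fin _ => p.1 < p.2)) rfl)
      refine Finset.sum_le_sum_of_subset_of_nonneg ?_ fun l _ _ =>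
        wt_nonneg (fun p : Fin _ × Fin _ => WW (x p.1) (x p.2)) (fun p => WW_nonneg _ _) l
      intro l hl
      have := (Finset.mem_filter.1 hl).1
      simp only [perms, List.mem_toFinset] at this ⊢
      exact this
    · rw [Set.indicator_of_notMem hx]
      refine le_of_eq (Finset.sum_eq_zero fun l hl => ?_)
      by_contra hw
      obtain ⟨⟨u, v, hu, hv⟩, h2, h3⟩ := good_struct _ _ x hx
      obtain ⟨hl1, hl2⟩ := Finset.mem_filter.1 hl
      refine f_ne_g (fun p : Fin _ × Fin _ => WW (x p.1) (x p.2)) (fun p => WW_nonneg _ _)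
        (fun i => x i = 2 * N + 2) u v hu hv h2 h3 l ?_ hw ?_
      · intro i j hij
        rw [List.mem_toFinset, List.mem_permutations] at hl1
        rw [hl1.mem_iff]
        simpa using hij
      · convert hl2

end Pool.Agent.S19740
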